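import Pool.Agent.Lib.MP_86a502_gt.U.Chk

set_option autoImplicit false
set_option linter.unusedVariables false

/-! # JOB Bla. The loops of the checker (60-120 lines)

`bcB`, `bcN` are `if then else` written with `Bool.rec` (prove by `cases c`). The loops are unrolled
terms: `all16 f` is the conjunction of `f 0, ..., f 15`, and so on (`low3 f = f 0 + (f 1 + f 2)`,
`alo3 f` is the conjunction of `f 0, f 1, f 2`). The numerals inside are raw (`nat_lit 3`); they are
equal to the usual numerals by `rfl` (use `show` or `change`, or first prove a reformulation by `rfl`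
or `Iff.rfl`). `interval_cases` splits `a < 16`. -/

namespace MP86a502

theorem bcB_iff {c t e : Bool} : bcB c t e = true ↔ (c = true ∧ t = true) ∨ (c = false ∧ e = true) := by
  cases c <;> simp [bcB]

theorem bcB_and {c t : Bool} : bcB c t false = true ↔ c = true ∧ t = true := by
  cases c <;> simp [bcB]

theorem bcB_imp {c t : Bool} : bcB c t true = true ↔ (c = true → t = true) := by
  cases c <;> simp [bcB]

theorem bcB_or {c t : Bool} : bcB c true t = true ↔ c = true ∨ t = true := by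
  cases c <;> simp [bcB]

theorem bcB_not {c : Bool} : bcB c false true = true ↔ c = false := by
  cases c <;> simp [bcB]

theorem bcN_eq (c : Bool) (t e : ℕ) : bcN c t e = if c = true then t else e := by
  cases c <;> simp [bcN]

theorem all16_iff {f : ℕ → Bool} : all16 f = true ↔ ∀ a < 16, f a = true := by
  have key : all16 f = true ↔ f 0 = true ∧ (f 1 = true ∧ (f 2 = true ∧ (f 3 = true ∧ (f 4 = true ∧ (f 5 = true ∧ (f 6 = true ∧ (f 7 = true ∧ (f 8 = true ∧ (f 9 = true ∧ (f 10 = true ∧ (f 11 = true ∧ (f 12 = true ∧ (f 13 = true ∧ (f 14 = true ∧ (f 15 = true))))))))))))))) := by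
    unfold all16
    simp only [bcB_and]
  rw [key]
  constructor
  · rintro ⟨h0, h1, h2, h3, h4, h5, h6, h7, h8, h9, h10, h11, h12, h13, h14, h15⟩ a ha
    interval_cases a <;> assumption
  · intro h
    exact ⟨h 0 (by norm_num), h 1 (by norm_num), h 2 (by norm_num), h 3 (by norm_num), h 4 (by norm_num), h 5 (by norm_num), h 6 (by norm_num), h 7 (by norm_num), h 8 (by norm_num), h 9 (by norm_num), h 10 (by norm_num), h 11 (by norm_num), h 12 (by norm_num), h 13 (by norm_num), h 14 (by norm_num), h 15 (by norm_num)⟩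

theorem any16_iff {f : ℕ → Bool} : any16 f = true ↔ ∃ a < 16, f a = true := by
  have key : any16 f = true ↔ f 0 = true ∨ (f 1 = true ∨ (f 2 = true ∨ (f 3 = true ∨ (f 4 = true ∨ (f 5 = true ∨ (f 6 = true ∨ (f 7 = true ∨ (f 8 = true ∨ (f 9 = true ∨ (f 10 = true ∨ (f 11 = true ∨ (f 12 = true ∨ (f 13 = true ∨ (f 14 = true ∨ (f 15 = true))))))))))))))) := by
    unfold any16
    simp only [bcB_or]
  rw [key]
  constructor
  · rintro (h | h | h | h | h | h | h | h | h | h | h | h | h | h | h | h)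
    · exact ⟨0, by norm_num, h⟩
    · exact ⟨1, by norm_num, h⟩
    · exact ⟨2, by norm_num, h⟩
    · exact ⟨3, by norm_num, h⟩
    · exact ⟨4, by norm_num, h⟩
    · exact ⟨5, by norm_num, h⟩
    · exact ⟨6, by norm_num, h⟩
    · exact ⟨7, by norm_num, h⟩
    · exact ⟨8, by norm_num, h⟩
    · exact ⟨9, by norm_num, h⟩
    · exact ⟨10, by norm_num, h⟩
    · exact ⟨11, by norm_num, h⟩
    · exact ⟨12, by norm_num, h⟩
    · exact ⟨13, by norm_num, h⟩
    · exact ⟨14, by norm_num, h⟩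
    · exact ⟨15, by norm_num, h⟩
  · rintro ⟨a, ha, h⟩
    interval_cases a <;> simp only [h, true_or, or_true]

theorem sum16_eq (f : ℕ → ℕ) : sum16 f = ∑ a ∈ Finset.range 16, f a := by
  have key : sum16 f = f 0 + (f 1 + (f 2 + (f 3 + (f 4 + (f 5 + (f 6 + (f 7 + (f 8 + (f 9 + (f 10 + (f 11 + (f 12 + (f 13 + (f 14 + (f 15))))))))))))))) := rfl
  rw [key]
  simp only [Finset.sum_range_succ, Finset.sum_range_zero]
  ring

theorem or16_testBit (f : ℕ → ℕ) (i : ℕ) :
    (or16 f).testBit i = true ↔ ∃ a < 16, (f a).testBit i = true := by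
  have key : or16 f = f 0 ||| (f 1 ||| (f 2 ||| (f 3 ||| (f 4 ||| (f 5 ||| (f 6 ||| (f 7 ||| (f 8 ||| (f 9 ||| (f 10 ||| (f 11 ||| (f 12 ||| (f 13 ||| (f 14 ||| (f 15))))))))))))))) := rfl
  have key2 : (or16 f).testBit i = true ↔ (f 0).testBit i = true ∨ ((f 1).testBit i = true ∨ ((f 2).testBit i = true ∨ ((f 3).testBit i = true ∨ ((f 4).testBit i = true ∨ ((f 5).testBit i = true ∨ ((f 6).testBit i = true ∨ ((f 7).testBit i = true ∨ ((f 8).testBit i = true ∨ ((f 9).testBit i = true ∨ ((f 10).testBit i = true ∨ ((f 11).testBit i = true ∨ ((f 12).testBit i = true ∨ ((f 13).testBit i = true ∨ ((f 14).testBit i = true ∨ ((f 15).testBit i = true))))))))))))))) := by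
    rw [key]
    simp only [Nat.testBit_or, Bool.or_eq_true]
  rw [key2]
  constructor
  · rintro (h | h | h | h | h | h | h | h | h | h | h | h | h | h | h | h)
    · exact ⟨0, by norm_num, h⟩
    · exact ⟨1, by norm_num, h⟩
    · exact ⟨2, by norm_num, h⟩
    · exact ⟨3, by norm_num, h⟩
    · exact ⟨4, by norm_num, h⟩
    · exact ⟨5, by norm_num, h⟩
    · exact ⟨6, by norm_num, h⟩
    · exact ⟨7, by norm_num, h⟩
    · exact ⟨8, by norm_num, h⟩
    · exact ⟨9, by norm_num, h⟩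
    · exact ⟨10, by norm_num, h⟩
    · exact ⟨11, by norm_num, h⟩
    · exact ⟨12, by norm_num, h⟩
    · exact ⟨13, by norm_num, h⟩
    · exact ⟨14, by norm_num, h⟩
    · exact ⟨15, by norm_num, h⟩
  · rintro ⟨a, ha, h⟩
    interval_cases a <;> simp only [h, true_or, or_true]

theorem Bla_low0 (f : ℕ → ℕ) : low0 f = ∑ j ∈ Finset.range 0, f j := by
  rw [Finset.sum_range_zero]
  rfl

theorem Bla_low1 (f : ℕ → ℕ) : low1 f = ∑ j ∈ Finset.range 1, f j := by
  have key : low1 f = f 0 := rfl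
  rw [key]
  simp only [Finset.sum_range_succ, Finset.sum_range_zero]
  ring

theorem Bla_low2 (f : ℕ → ℕ) : low2 f = ∑ j ∈ Finset.range 2, f j := by
  have key : low2 f = f 0 + (f 1) := rfl
  rw [key]
  simp only [Finset.sum_range_succ, Finset.sum_range_zero]
  ring

theorem Bla_low3 (f : ℕ → ℕ) : low3 f = ∑ j ∈ Finset.range 3, f j := by
  have key : low3 f = f 0 + (f 1 + (f 2)) := rfl
  rw [key]
  simp only [Finset.sum_range_succ, Finset.sum_range_zero]
  ring

theorem Bla_low4 (f : ℕ → ℕ) : low4 f = ∑ j ∈ Finset.range 4, f j := by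
  have key : low4 f = f 0 + (f 1 + (f 2 + (f 3))) := rfl
  rw [key]
  simp only [Finset.sum_range_succ, Finset.sum_range_zero]
  ring

theorem Bla_low5 (f : ℕ → ℕ) : low5 f = ∑ j ∈ Finset.range 5, f j := by
  have key : low5 f = f 0 + (f 1 + (f 2 + (f 3 + (f 4)))) := rfl
  rw [key]
  simp only [Finset.sum_range_succ, Finset.sum_range_zero]
  ring

theorem Bla_low6 (f : ℕ → ℕ) : low6 f = ∑ j ∈ Finset.range 6, f j := by
  have key : low6 f = f 0 + (f 1 + (f 2 + (f 3 + (f 4 + (f 5))))) := rfl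
  rw [key]
  simp only [Finset.sum_range_succ, Finset.sum_range_zero]
  ring

theorem Bla_low7 (f : ℕ → ℕ) : low7 f = ∑ j ∈ Finset.range 7, f j := by
  have key : low7 f = f 0 + (f 1 + (f 2 + (f 3 + (f 4 + (f 5 + (f 6)))))) := rfl
  rw [key]
  simp only [Finset.sum_range_succ, Finset.sum_range_zero]
  ring

theorem Bla_low8 (f : ℕ → ℕ) : low8 f = ∑ j ∈ Finset.range 8, f j := by
  have key : low8 f = f 0 + (f 1 + (f 2 + (f 3 + (f 4 + (f 5 + (f 6 + (f 7))))))) := rfl
  rw [key]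
  simp only [Finset.sum_range_succ, Finset.sum_range_zero]
  ring

theorem Bla_low9 (f : ℕ → ℕ) : low9 f = ∑ j ∈ Finset.range 9, f j := by
  have key : low9 f = f 0 + (f 1 + (f 2 + (f 3 + (f 4 + (f 5 + (f 6 + (f 7 + (f 8)))))))) := rfl
  rw [key]
  simp only [Finset.sum_range_succ, Finset.sum_range_zero]
  ring

theorem Bla_low10 (f : ℕ → ℕ) : low10 f = ∑ j ∈ Finset.range 10, f j := by
  have key : low10 f = f 0 + (f 1 + (f 2 + (f 3 + (f 4 + (f 5 + (f 6 + (f 7 + (f 8 + (f 9))))))))) := rfl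
  rw [key]
  simp only [Finset.sum_range_succ, Finset.sum_range_zero]
  ring

theorem Bla_low11 (f : ℕ → ℕ) : low11 f = ∑ j ∈ Finset.range 11, f j := by
  have key : low11 f = f 0 + (f 1 + (f 2 + (f 3 + (f 4 + (f 5 + (f 6 + (f 7 + (f 8 + (f 9 + (f 10)))))))))) := rfl
  rw [key]
  simp only [Finset.sum_range_succ, Finset.sum_range_zero]
  ring

theorem Bla_low12 (f : ℕ → ℕ) : low12 f = ∑ j ∈ Finset.range 12, f j := by
  have key : low12 f = f 0 + (f 1 + (f 2 + (f 3 + (f 4 + (f 5 + (f 6 + (f 7 + (f 8 + (f 9 + (f 10 + (f 11))))))))))) := rfl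
  rw [key]
  simp only [Finset.sum_range_succ, Finset.sum_range_zero]
  ring

theorem Bla_low13 (f : ℕ → ℕ) : low13 f = ∑ j ∈ Finset.range 13, f j := by
  have key : low13 f = f 0 + (f 1 + (f 2 + (f 3 + (f 4 + (f 5 + (f 6 + (f 7 + (f 8 + (f 9 + (f 10 + (f 11 + (f 12)))))))))))) := rfl
  rw [key]
  simp only [Finset.sum_range_succ, Finset.sum_range_zero]
  ring

theorem Bla_low14 (f : ℕ → ℕ) : low14 f = ∑ j ∈ Finset.range 14, f j := by
  have key : low14 f = f 0 + (f 1 + (f 2 + (f 3 + (f 4 + (f 5 + (f 6 + (f 7 + (f 8 + (f 9 + (f 10 + (f 11 + (f 12 + (f 13))))))))))))) := rfl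
  rw [key]
  simp only [Finset.sum_range_succ, Finset.sum_range_zero]
  ring

theorem Bla_low15 (f : ℕ → ℕ) : low15 f = ∑ j ∈ Finset.range 15, f j := by
  have key : low15 f = f 0 + (f 1 + (f 2 + (f 3 + (f 4 + (f 5 + (f 6 + (f 7 + (f 8 + (f 9 + (f 10 + (f 11 + (f 12 + (f 13 + (f 14)))))))))))))) := rfl
  rw [key]
  simp only [Finset.sum_range_succ, Finset.sum_range_zero]
  ring

theorem Bla_alo0 (f : ℕ → Bool) : alo0 f = true ↔ ∀ j < 0, f j = true := by
  constructor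
  · intro _ j hj
    omega
  · intro _
    rfl

theorem Bla_alo1 (f : ℕ → Bool) : alo1 f = true ↔ ∀ j < 1, f j = true := by
  have key : alo1 f = true ↔ f 0 = true := by
    exact Iff.rfl
  rw [key]
  constructor
  · intro h0 a ha
    interval_cases a <;> assumption
  · intro h
    exact h 0 (by norm_num)

theorem Bla_alo2 (f : ℕ → Bool) : alo2 f = true ↔ ∀ j < 2, f j = true := by
  have key : alo2 f = true ↔ f 0 = true ∧ (f 1 = true) := by
    unfold alo2
    simp only [bcB_and]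
  rw [key]
  constructor
  · rintro ⟨h0, h1⟩ a ha
    interval_cases a <;> assumption
  · intro h
    exact ⟨h 0 (by norm_num), h 1 (by norm_num)⟩

theorem Bla_alo3 (f : ℕ → Bool) : alo3 f = true ↔ ∀ j < 3, f j = true := by
  have key : alo3 f = true ↔ f 0 = true ∧ (f 1 = true ∧ (f 2 = true)) := by
    unfold alo3
    simp only [bcB_and]
  rw [key]
  constructor
  · rintro ⟨h0, h1, h2⟩ a ha
    interval_cases a <;> assumption
  · intro h
    exact ⟨h 0 (by norm_num), h 1 (by norm_num), h 2 (by norm_num)⟩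

theorem Bla_alo4 (f : ℕ → Bool) : alo4 f = true ↔ ∀ j < 4, f j = true := by
  have key : alo4 f = true ↔ f 0 = true ∧ (f 1 = true ∧ (f 2 = true ∧ (f 3 = true))) := by
    unfold alo4
    simp only [bcB_and]
  rw [key]
  constructor
  · rintro ⟨h0, h1, h2, h3⟩ a ha
    interval_cases a <;> assumption
  · intro h
    exact ⟨h 0 (by norm_num), h 1 (by norm_num), h 2 (by norm_num), h 3 (by norm_num)⟩

theorem Bla_alo5 (f : ℕ → Bool) : alo5 f = true ↔ ∀ j < 5, f j = true := by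
  have key : alo5 f = true ↔ f 0 = true ∧ (f 1 = true ∧ (f 2 = true ∧ (f 3 = true ∧ (f 4 = true)))) := by
    unfold alo5
    simp only [bcB_and]
  rw [key]
  constructor
  · rintro ⟨h0, h1, h2, h3, h4⟩ a ha
    interval_cases a <;> assumption
  · intro h
    exact ⟨h 0 (by norm_num), h 1 (by norm_num), h 2 (by norm_num), h 3 (by norm_num), h 4 (by norm_num)⟩

theorem Bla_alo6 (f : ℕ → Bool) : alo6 f = true ↔ ∀ j < 6, f j = true := by
  have key : alo6 f = true ↔ f 0 = true ∧ (f 1 = true ∧ (f 2 = true ∧ (f 3 = true ∧ (f 4 = true ∧ (f 5 = true))))) := by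
    unfold alo6
    simp only [bcB_and]
  rw [key]
  constructor
  · rintro ⟨h0, h1, h2, h3, h4, h5⟩ a ha
    interval_cases a <;> assumption
  · intro h
    exact ⟨h 0 (by norm_num), h 1 (by norm_num), h 2 (by norm_num), h 3 (by norm_num), h 4 (by norm_num), h 5 (by norm_num)⟩

theorem Bla_alo7 (f : ℕ → Bool) : alo7 f = true ↔ ∀ j < 7, f j = true := by
  have key : alo7 f = true ↔ f 0 = true ∧ (f 1 = true ∧ (f 2 = true ∧ (f 3 = true ∧ (f 4 = true ∧ (f 5 = true ∧ (f 6 = true)))))) := by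
    unfold alo7
    simp only [bcB_and]
  rw [key]
  constructor
  · rintro ⟨h0, h1, h2, h3, h4, h5, h6⟩ a ha
    interval_cases a <;> assumption
  · intro h
    exact ⟨h 0 (by norm_num), h 1 (by norm_num), h 2 (by norm_num), h 3 (by norm_num), h 4 (by norm_num), h 5 (by norm_num), h 6 (by norm_num)⟩

theorem Bla_alo8 (f : ℕ → Bool) : alo8 f = true ↔ ∀ j < 8, f j = true := by
  have key : alo8 f = true ↔ f 0 = true ∧ (f 1 = true ∧ (f 2 = true ∧ (f 3 = true ∧ (f 4 = true ∧ (f 5 = true ∧ (f 6 = true ∧ (f 7 = true))))))) := by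
    unfold alo8
    simp only [bcB_and]
  rw [key]
  constructor
  · rintro ⟨h0, h1, h2, h3, h4, h5, h6, h7⟩ a ha
    interval_cases a <;> assumption
  · intro h
    exact ⟨h 0 (by norm_num), h 1 (by norm_num), h 2 (by norm_num), h 3 (by norm_num), h 4 (by norm_num), h 5 (by norm_num), h 6 (by norm_num), h 7 (by norm_num)⟩

theorem Bla_alo9 (f : ℕ → Bool) : alo9 f = true ↔ ∀ j < 9, f j = true := by
  have key : alo9 f = true ↔ f 0 = true ∧ (f 1 = true ∧ (f 2 = true ∧ (f 3 = true ∧ (f 4 = true ∧ (f 5 = true ∧ (f 6 = true ∧ (f 7 = true ∧ (f 8 = true)))))))) := by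
    unfold alo9
    simp only [bcB_and]
  rw [key]
  constructor
  · rintro ⟨h0, h1, h2, h3, h4, h5, h6, h7, h8⟩ a ha
    interval_cases a <;> assumption
  · intro h
    exact ⟨h 0 (by norm_num), h 1 (by norm_num), h 2 (by norm_num), h 3 (by norm_num), h 4 (by norm_num), h 5 (by norm_num), h 6 (by norm_num), h 7 (by norm_num), h 8 (by norm_num)⟩

theorem Bla_alo10 (f : ℕ → Bool) : alo10 f = true ↔ ∀ j < 10, f j = true := by
  have key : alo10 f = true ↔ f 0 = true ∧ (f 1 = true ∧ (f 2 = true ∧ (f 3 = true ∧ (f 4 = true ∧ (f 5 = true ∧ (f 6 = true ∧ (f 7 = true ∧ (f 8 = true ∧ (f 9 = true))))))))) := by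
    unfold alo10
    simp only [bcB_and]
  rw [key]
  constructor
  · rintro ⟨h0, h1, h2, h3, h4, h5, h6, h7, h8, h9⟩ a ha
    interval_cases a <;> assumption
  · intro h
    exact ⟨h 0 (by norm_num), h 1 (by norm_num), h 2 (by norm_num), h 3 (by norm_num), h 4 (by norm_num), h 5 (by norm_num), h 6 (by norm_num), h 7 (by norm_num), h 8 (by norm_num), h 9 (by norm_num)⟩

theorem Bla_alo11 (f : ℕ → Bool) : alo11 f = true ↔ ∀ j < 11, f j = true := by
  have key : alo11 f = true ↔ f 0 = true ∧ (f 1 = true ∧ (f 2 = true ∧ (f 3 = true ∧ (f 4 = true ∧ (f 5 = true ∧ (f 6 = true ∧ (f 7 = true ∧ (f 8 = true ∧ (f 9 = true ∧ (f 10 = true)))))))))) := by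
    unfold alo11
    simp only [bcB_and]
  rw [key]
  constructor
  · rintro ⟨h0, h1, h2, h3, h4, h5, h6, h7, h8, h9, h10⟩ a ha
    interval_cases a <;> assumption
  · intro h
    exact ⟨h 0 (by norm_num), h 1 (by norm_num), h 2 (by norm_num), h 3 (by norm_num), h 4 (by norm_num), h 5 (by norm_num), h 6 (by norm_num), h 7 (by norm_num), h 8 (by norm_num), h 9 (by norm_num), h 10 (by norm_num)⟩

theorem Bla_alo12 (f : ℕ → Bool) : alo12 f = true ↔ ∀ j < 12, f j = true := by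
  have key : alo12 f = true ↔ f 0 = true ∧ (f 1 = true ∧ (f 2 = true ∧ (f 3 = true ∧ (f 4 = true ∧ (f 5 = true ∧ (f 6 = true ∧ (f 7 = true ∧ (f 8 = true ∧ (f 9 = true ∧ (f 10 = true ∧ (f 11 = true))))))))))) := by
    unfold alo12
    simp only [bcB_and]
  rw [key]
  constructor
  · rintro ⟨h0, h1, h2, h3, h4, h5, h6, h7, h8, h9, h10, h11⟩ a ha
    interval_cases a <;> assumption
  · intro h
    exact ⟨h 0 (by norm_num), h 1 (by norm_num), h 2 (by norm_num), h 3 (by norm_num), h 4 (by norm_num), h 5 (by norm_num), h 6 (by norm_num), h 7 (by norm_num), h 8 (by norm_num), h 9 (by norm_num), h 10 (by norm_num), h 11 (by norm_num)⟩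

theorem Bla_alo13 (f : ℕ → Bool) : alo13 f = true ↔ ∀ j < 13, f j = true := by
  have key : alo13 f = true ↔ f 0 = true ∧ (f 1 = true ∧ (f 2 = true ∧ (f 3 = true ∧ (f 4 = true ∧ (f 5 = true ∧ (f 6 = true ∧ (f 7 = true ∧ (f 8 = true ∧ (f 9 = true ∧ (f 10 = true ∧ (f 11 = true ∧ (f 12 = true)))))))))))) := by
    unfold alo13
    simp only [bcB_and]
  rw [key]
  constructor
  · rintro ⟨h0, h1, h2, h3, h4, h5, h6, h7, h8, h9, h10, h11, h12⟩ a ha
    interval_cases a <;> assumption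
  · intro h
    exact ⟨h 0 (by norm_num), h 1 (by norm_num), h 2 (by norm_num), h 3 (by norm_num), h 4 (by norm_num), h 5 (by norm_num), h 6 (by norm_num), h 7 (by norm_num), h 8 (by norm_num), h 9 (by norm_num), h 10 (by norm_num), h 11 (by norm_num), h 12 (by norm_num)⟩

theorem Bla_alo14 (f : ℕ → Bool) : alo14 f = true ↔ ∀ j < 14, f j = true := by
  have key : alo14 f = true ↔ f 0 = true ∧ (f 1 = true ∧ (f 2 = true ∧ (f 3 = true ∧ (f 4 = true ∧ (f 5 = true ∧ (f 6 = true ∧ (f 7 = true ∧ (f 8 = true ∧ (f 9 = true ∧ (f 10 = true ∧ (f 11 = true ∧ (f 12 = true ∧ (f 13 = true))))))))))))) := by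
    unfold alo14
    simp only [bcB_and]
  rw [key]
  constructor
  · rintro ⟨h0, h1, h2, h3, h4, h5, h6, h7, h8, h9, h10, h11, h12, h13⟩ a ha
    interval_cases a <;> assumption
  · intro h
    exact ⟨h 0 (by norm_num), h 1 (by norm_num), h 2 (by norm_num), h 3 (by norm_num), h 4 (by norm_num), h 5 (by norm_num), h 6 (by norm_num), h 7 (by norm_num), h 8 (by norm_num), h 9 (by norm_num), h 10 (by norm_num), h 11 (by norm_num), h 12 (by norm_num), h 13 (by norm_num)⟩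

theorem Bla_alo15 (f : ℕ → Bool) : alo15 f = true ↔ ∀ j < 15, f j = true := by
  have key : alo15 f = true ↔ f 0 = true ∧ (f 1 = true ∧ (f 2 = true ∧ (f 3 = true ∧ (f 4 = true ∧ (f 5 = true ∧ (f 6 = true ∧ (f 7 = true ∧ (f 8 = true ∧ (f 9 = true ∧ (f 10 = true ∧ (f 11 = true ∧ (f 12 = true ∧ (f 13 = true ∧ (f 14 = true)))))))))))))) := by
    unfold alo15
    simp only [bcB_and]
  rw [key]
  constructor
  · rintro ⟨h0, h1, h2, h3, h4, h5, h6, h7, h8, h9, h10, h11, h12, h13, h14⟩ a ha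
    interval_cases a <;> assumption
  · intro h
    exact ⟨h 0 (by norm_num), h 1 (by norm_num), h 2 (by norm_num), h 3 (by norm_num), h 4 (by norm_num), h 5 (by norm_num), h 6 (by norm_num), h 7 (by norm_num), h 8 (by norm_num), h 9 (by norm_num), h 10 (by norm_num), h 11 (by norm_num), h 12 (by norm_num), h 13 (by norm_num), h 14 (by norm_num)⟩

theorem tri_eq (p : ℕ → Bool) (G F : ℕ → ℕ → ℕ) : tri p G F =
    ∑ i ∈ Finset.range 16, if p i = true then G i (∑ j ∈ Finset.range i, F i j) else 0 := by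
  let S : ℕ → ℕ := fun i => if p i = true then G i (∑ j ∈ Finset.range i, F i j) else 0
  have e0 : bcN (p 0) (G 0 (low0 (F 0))) 0 = S 0 := by
    rw [bcN_eq, Bla_low0]
  have e1 : bcN (p 1) (G 1 (low1 (F 1))) 0 = S 1 := by
    rw [bcN_eq, Bla_low1]
  have e2 : bcN (p 2) (G 2 (low2 (F 2))) 0 = S 2 := by
    rw [bcN_eq, Bla_low2]
  have e3 : bcN (p 3) (G 3 (low3 (F 3))) 0 = S 3 := by
    rw [bcN_eq, Bla_low3]
  have e4 : bcN (p 4) (G 4 (low4 (F 4))) 0 = S 4 := by
    rw [bcN_eq, Bla_low4]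
  have e5 : bcN (p 5) (G 5 (low5 (F 5))) 0 = S 5 := by
    rw [bcN_eq, Bla_low5]
  have e6 : bcN (p 6) (G 6 (low6 (F 6))) 0 = S 6 := by
    rw [bcN_eq, Bla_low6]
  have e7 : bcN (p 7) (G 7 (low7 (F 7))) 0 = S 7 := by
    rw [bcN_eq, Bla_low7]
  have e8 : bcN (p 8) (G 8 (low8 (F 8))) 0 = S 8 := by
    rw [bcN_eq, Bla_low8]
  have e9 : bcN (p 9) (G 9 (low9 (F 9))) 0 = S 9 := by
    rw [bcN_eq, Bla_low9]
  have e10 : bcN (p 10) (G 10 (low10 (F 10))) 0 = S 10 := by
    rw [bcN_eq, Bla_low10]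
  have e11 : bcN (p 11) (G 11 (low11 (F 11))) 0 = S 11 := by
    rw [bcN_eq, Bla_low11]
  have e12 : bcN (p 12) (G 12 (low12 (F 12))) 0 = S 12 := by
    rw [bcN_eq, Bla_low12]
  have e13 : bcN (p 13) (G 13 (low13 (F 13))) 0 = S 13 := by
    rw [bcN_eq, Bla_low13]
  have e14 : bcN (p 14) (G 14 (low14 (F 14))) 0 = S 14 := by
    rw [bcN_eq, Bla_low14]
  have e15 : bcN (p 15) (G 15 (low15 (F 15))) 0 = S 15 := by
    rw [bcN_eq, Bla_low15]
  calc tri p G F = bcN (p 0) (G 0 (low0 (F 0))) 0 + (bcN (p 1) (G 1 (low1 (F 1))) 0 + (bcN (p 2) (G 2 (low2 (F 2))) 0 + (bcN (p 3) (G 3 (low3 (F 3))) 0 + (bcN (p 4) (G 4 (low4 (F 4))) 0 + (bcN (p 5) (G 5 (low5 (F 5))) 0 + (bcN (p 6) (G 6 (low6 (F 6))) 0 + (bcN (p 7) (G 7 (low7 (F 7))) 0 + (bcN (p 8) (G 8 (low8 (F 8))) 0 + (bcN (p 9) (G 9 (low9 (F 9))) 0 + (bcN (p 10) (G 10 (low10 (F 10))) 0 + (bcN (p 11) (G 11 (low11 (F 11))) 0 + (bcN (p 12) (G 12 (low12 (F 12))) 0 + (bcN (p 13) (G 13 (low13 (F 13)))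 0 + (bcN (p 14) (G 14 (low14 (F 14))) 0 + (bcN (p 15) (G 15 (low15 (F 15))) 0))))))))))))))) := rfl
    _ = S 0 + (S 1 + (S 2 + (S 3 + (S 4 + (S 5 + (S 6 + (S 7 + (S 8 + (S 9 + (S 10 + (S 11 + (S 12 + (S 13 + (S 14 + (S 15))))))))))))))) := by
        rw [e0, e1, e2, e3, e4, e5, e6, e7, e8, e9, e10, e11, e12, e13, e14, e15]
    _ = sum16 S := rfl
    _ = ∑ i ∈ Finset.range 16, S i := sum16_eq S

theorem atri_iff {p : ℕ → Bool} {F : ℕ → ℕ → Bool} :
    atri p F = true ↔ ∀ i < 16, p i = true → ∀ j < i, F i j = true := by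
  have key : atri p F = true ↔ (p 0 = true → alo0 (F 0) = true) ∧ ((p 1 = true → alo1 (F 1) = true) ∧ ((p 2 = true → alo2 (F 2) = true) ∧ ((p 3 = true → alo3 (F 3) = true) ∧ ((p 4 = true → alo4 (F 4) = true) ∧ ((p 5 = true → alo5 (F 5) = true) ∧ ((p 6 = true → alo6 (F 6) = true) ∧ ((p 7 = true → alo7 (F 7) = true) ∧ ((p 8 = true → alo8 (F 8) = true) ∧ ((p 9 = true → alo9 (F 9) = true) ∧ ((p 10 = true → alo10 (F 10) = true) ∧ ((p 11 = true → alo11 (F 11) = true) ∧ ((p 12 = true → alo12 (F 12) = true) ∧ ((p 13 = true → alo13 (F 13) = true) ∧ ((p 14 = true → alo14 (F 14) = true) ∧ ((p 15 = true → alo15 (F 15) = true)))))))))))))))) := by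
    unfold atri
    simp only [bcB_and, bcB_imp]
  rw [key]
  constructor
  · rintro ⟨h0, h1, h2, h3, h4, h5, h6, h7, h8, h9, h10, h11, h12, h13, h14, h15⟩ a ha hp j hj
    interval_cases a
    · exact (Bla_alo0 (F 0)).1 (h0 hp) j hj
    · exact (Bla_alo1 (F 1)).1 (h1 hp) j hj
    · exact (Bla_alo2 (F 2)).1 (h2 hp) j hj
    · exact (Bla_alo3 (F 3)).1 (h3 hp) j hj
    · exact (Bla_alo4 (F 4)).1 (h4 hp) j hj
    · exact (Bla_alo5 (F 5)).1 (h5 hp) j hj
    · exact (Bla_alo6 (F 6)).1 (h6 hp) j hj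
    · exact (Bla_alo7 (F 7)).1 (h7 hp) j hj
    · exact (Bla_alo8 (F 8)).1 (h8 hp) j hj
    · exact (Bla_alo9 (F 9)).1 (h9 hp) j hj
    · exact (Bla_alo10 (F 10)).1 (h10 hp) j hj
    · exact (Bla_alo11 (F 11)).1 (h11 hp) j hj
    · exact (Bla_alo12 (F 12)).1 (h12 hp) j hj
    · exact (Bla_alo13 (F 13)).1 (h13 hp) j hj
    · exact (Bla_alo14 (F 14)).1 (h14 hp) j hj
    · exact (Bla_alo15 (F 15)).1 (h15 hp) j hj
  · intro h
    exact ⟨fun hp => (Bla_alo0 (F 0)).2 (h 0 (by norm_num) hp), fun hp => (Bla_alo1 (F 1)).2 (h 1 (by norm_num) hp), fun hp => (Bla_alo2 (F 2)).2 (h 2 (by norm_num) hp), fun hp => (Bla_alo3 (F 3)).2 (h 3 (by norm_num) hp), fun hp => (Bla_alo4 (F 4)).2 (h 4 (by norm_num) hp), fun hp => (Bla_alo5 (F 5)).2 (h 5 (by norm_num) hp), fun hp => (Bla_alo6 (F 6)).2 (h 6 (by norm_num) hp), fun hp => (Bla_alo7 (F 7)).2 (h 7 (by norm_num) hp), fun hp => (Bla_alo8 (F 8)).2 (h 8 (by norm_num) hp), fun hp => (Bla_alo9 (F 9)).2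 (h 9 (by norm_num) hp), fun hp => (Bla_alo10 (F 10)).2 (h 10 (by norm_num) hp), fun hp => (Bla_alo11 (F 11)).2 (h 11 (by norm_num) hp), fun hp => (Bla_alo12 (F 12)).2 (h 12 (by norm_num) hp), fun hp => (Bla_alo13 (F 13)).2 (h 13 (by norm_num) hp), fun hp => (Bla_alo14 (F 14)).2 (h 14 (by norm_num) hp), fun hp => (Bla_alo15 (F 15)).2 (h 15 (by norm_num) hp)⟩

end MP86a502
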