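import Pool.Agent.Lib.MP_86a502_gt.U.Bla

set_option autoImplicit false
set_option linter.unusedVariables false

/-! # JOB Blb. Sets of nodes as numbers (80-150 lines)

The node `a` is the bit `4 * a`. Start with `bt_eq` (unfold, `Nat.testBit`, `Nat.shiftRight`, the raw
literals are handled by `show`/`change`); then everything is an identity of `Nat.testBit`
(`Nat.testBit_or`, `Nat.testBit_and`, `Nat.testBit_xor`, `Nat.testBit_shiftLeft`,
`Nat.testBit_shiftRight`, `Nat.testBit_two_pow_sub_one`, `Nat.one_shiftLeft`). For `bt_full`: the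
literal `0x1111111111111111` has exactly the bits `4 * a`, `a < 16` (`interval_cases a`, `decide`; for
`a ≥ 16` the number is `< 2 ^ 64`). -/

namespace MP86a502

theorem bt_eq (M a : ℕ) : bt M a = M.testBit (4 * a) := by
  show Nat.beq ((M >>> (4 * a)) &&& 1) 1 = M.testBit (4 * a)
  rw [Nat.testBit_eq_decide_div_mod_eq, Nat.and_one_is_mod, Nat.shiftRight_eq_div_pow,
    Bool.eq_iff_iff, Nat.beq_eq, decide_eq_true_iff]

theorem bt_bit {a b : ℕ} : bt (bit a) b = true ↔ b = a := by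
  have h : bit a = 2 ^ (4 * a) := by
    show (1 : ℕ) <<< (4 * a) = 2 ^ (4 * a)
    exact Nat.one_shiftLeft _
  rw [bt_eq, h, Nat.testBit_two_pow, decide_eq_true_iff]
  omega

/-- the set `{a}` has only bits divisible by `4` -/
theorem bit_dvd {a i : ℕ} (h : (bit a).testBit i = true) : 4 ∣ i := by
  have h1 : bit a = 2 ^ (4 * a) := by
    show (1 : ℕ) <<< (4 * a) = 2 ^ (4 * a)
    exact Nat.one_shiftLeft _
  rw [h1, Nat.testBit_two_pow, decide_eq_true_iff] at h
  exact ⟨a, h.symm⟩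

theorem bt_lor (M N a : ℕ) : bt (Nat.lor M N) a = (bt M a || bt N a) := by
  rw [bt_eq, bt_eq, bt_eq]
  exact Nat.testBit_or _ _ _

theorem bt_land (M N a : ℕ) : bt (Nat.land M N) a = (bt M a && bt N a) := by
  rw [bt_eq, bt_eq, bt_eq]
  exact Nat.testBit_and _ _ _

theorem bt_xor (M N a : ℕ) : bt (Nat.xor M N) a = (bt M a ^^ bt N a) := by
  rw [bt_eq, bt_eq, bt_eq]
  exact Nat.testBit_xor _ _ _

theorem bt_zero (a : ℕ) : bt 0 a = false := by
  rw [bt_eq]
  exact Nat.zero_testBit _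

theorem bt_or16 (f : ℕ → ℕ) (b : ℕ) : bt (or16 f) b = true ↔ ∃ a < 16, bt (f a) b = true := by
  rw [bt_eq, or16_testBit]
  constructor
  · rintro ⟨a, ha, h⟩
    exact ⟨a, ha, by rw [bt_eq]; exact h⟩
  · rintro ⟨a, ha, h⟩
    exact ⟨a, ha, by rw [← bt_eq]; exact h⟩

theorem bt_full {m a : ℕ} (hm : m ≤ 16) : bt (full m) a = true ↔ a < m := by
  have h1 : bit m = 2 ^ (4 * m) := by
    show (1 : ℕ) <<< (4 * m) = 2 ^ (4 * m)
    exact Nat.one_shiftLeft _
  have h2 : full m = Nat.land 0x1111111111111111 (2 ^ (4 * m) - 1) := by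
    rw [← h1]
    rfl
  have h3 : bt (2 ^ (4 * m) - 1) a = true ↔ a < m := by
    rw [bt_eq, Nat.testBit_two_pow_sub_one, decide_eq_true_iff]
    omega
  rw [h2, bt_land, Bool.and_eq_true, h3]
  constructor
  · exact fun h => h.2
  · intro h
    refine ⟨?_, h⟩
    have ha : a < 16 := by omega
    clear h h1 h2 h3
    interval_cases a <;> rfl

theorem sub_bt {x y a : ℕ} (h : sub x y = true) (hx : bt x a = true) : bt y a = true := by
  have h1 : Nat.land x y = x := Nat.eq_of_beq_eq_true h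
  have h2 : bt (Nat.land x y) a = true := by rw [h1]; exact hx
  rw [bt_land, Bool.and_eq_true] at h2
  exact h2.2

theorem bt_co2 {m x y a : ℕ} (hm : m ≤ 16) (hx : x < m) (hy : y < m) :
    bt (co2 m x y) a = true ↔ a < m ∧ a ≠ x ∧ a ≠ y := by
  have h1 := bt_full (a := a) hm
  have h2 := bt_bit (a := x) (b := a)
  have h3 := bt_bit (a := y) (b := a)
  unfold co2
  rw [bt_xor, bt_lor]
  cases e1 : bt (full m) a <;> cases e2 : bt (bit x) a <;> cases e3 : bt (bit y) a <;>
    rw [e1] at h1 <;> rw [e2] at h2 <;> rw [e3] at h3 <;> simp at h1 h2 h3 ⊢ <;> omega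

theorem nb_lt (p a : ℕ) : nb p a < 16 := by
  have h : nb p a ≤ 15 := Nat.and_le_right
  omega

theorem sv_le (s a : ℕ) : sv s a ≤ 3 := by
  exact Nat.and_le_right

theorem nz_iff {u a : ℕ} : nz u a = true ↔ 1 ≤ dg u a := by
  unfold nz
  rw [Nat.ble_eq]

theorem dg_su {m u a : ℕ} (h : su m u = true) (ha : m ≤ a) : dg u a = 0 := by
  have h1 : u >>> (16 * m) = 0 := Nat.eq_of_beq_eq_true h
  obtain ⟨k, rfl⟩ := Nat.exists_eq_add_of_le ha
  have h2 : u >>> (16 * (m + k)) = 0 := by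
    rw [Nat.mul_add, Nat.shiftRight_add, h1, Nat.zero_shiftRight]
  show (u >>> (16 * (m + k))) &&& 65535 = 0
  rw [h2]
  exact Nat.zero_and _

/-- all scales of the constant `0x55555555` are one -/
theorem sv_one {a : ℕ} (ha : a < 16) : sv (nat_lit 0x55555555) a = 1 := by
  interval_cases a <;> rfl

theorem bt_shl {M k a : ℕ} :
    bt (Nat.shiftLeft M (Nat.mul (nat_lit 4) k)) a = true ↔ k ≤ a ∧ bt M (a - k) = true := by
  rw [bt_eq, bt_eq]
  have h1 : (Nat.shiftLeft M (Nat.mul 4 k)).testBit (4 * a) =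
      (decide (4 * a ≥ 4 * k) && M.testBit (4 * a - 4 * k)) := Nat.testBit_shiftLeft _
  have h2 : 4 * a - 4 * k = 4 * (a - k) := by omega
  show (Nat.shiftLeft M (Nat.mul 4 k)).testBit (4 * a) = true ↔ _
  rw [h1, Bool.and_eq_true, decide_eq_true_iff, h2]
  refine and_congr ?_ Iff.rfl
  omega

end MP86a502
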