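import Pool.Agent.Lib.MP_86a502_gt.U.Blb

set_option autoImplicit false
set_option linter.unusedVariables false

/-! # JOB Blc. Matrices of codes as numbers (120-200 lines)

The entry `a, b` of `c` consists of the bits `64 * a + 4 * b + i`, `i < 4`. Everything is an identity
of `Nat.testBit`; two numbers `< 16` are equal if their bits `0, ..., 3` agree. `fold x` has the bit
`4 * i` iff one of the bits `4 * i, ..., 4 * i + 3` of `x` is set (`i < 256`), and no other bits. The
literals `0x2222...`, `0xAAAA...` (256 digits) have all 4-bit digits `2`, `10`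
(`0x2222... = 2 * (16 ^ 256 - 1) / 15`; a proof for a variable digit `i < 256`: `decide +kernel` on
`∀ i < 256, ...`, with `Nat.testBit`, is fine). Positions: for `a, b, x, y < 16`,
`64 * a + 4 * b + i = 64 * x + 4 * y + j` with `i, j < 4` forces `a = x`, `b = y`, `i = j` (`omega`). -/

namespace MP86a502

private theorem Blc_pos (a b : ℕ) : pos a b = 64 * a + 4 * b := rfl

private theorem Blc_row (M a i : ℕ) : (row M a).testBit i = (M.testBit (64 * a + i) && decide (i < 64)) := by
  have h : row M a = (M >>> (64 * a)) &&& (2 ^ 64 - 1) := rfl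
  rw [h, Nat.testBit_and, Nat.testBit_shiftRight, Nat.testBit_two_pow_sub_one]

private theorem Blc_cd (c a b i : ℕ) :
    (cd c a b).testBit i = (c.testBit (64 * a + 4 * b + i) && decide (i < 4)) := by
  have h : cd c a b = (c >>> (64 * a + 4 * b)) &&& (2 ^ 4 - 1) := rfl
  rw [h, Nat.testBit_and, Nat.testBit_shiftRight, Nat.testBit_two_pow_sub_one]

private theorem Blc_high {k i : ℕ} (hk : k < 16) (hi : 4 ≤ i) : k.testBit i = false := by
  apply Nat.testBit_lt_two_pow
  calc k < 2 ^ 4 := hk
    _ ≤ 2 ^ i := Nat.pow_le_pow_right (by norm_num) hi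

private theorem Blc_eq16 {k l : ℕ} (hk : k < 16) (hl : l < 16)
    (h : ∀ i < 4, k.testBit i = l.testBit i) : k = l := by
  apply Nat.eq_of_testBit_eq
  intro i
  by_cases hi : i < 4
  · exact h i hi
  · rw [Blc_high hk (by omega), Blc_high hl (by omega)]

theorem bt_row (M a : ℕ) {b : ℕ} (hb : b < 16) : bt (row M a) b = M.testBit (64 * a + 4 * b) := by
  rw [bt_eq, Blc_row]
  have : 4 * b < 64 := by omega
  simp [this]

theorem vt_eq (V x : ℕ) {y : ℕ} (hy : y < 16) : vt V x y = V.testBit (64 * x + 4 * y) :=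
  bt_row V x hy

theorem vt_lt {V x y : ℕ} (h : vt V x y = true) : y < 16 := by
  have h1 : bt (row V x) y = true := h
  rw [bt_eq, Blc_row, Bool.and_eq_true, decide_eq_true_eq] at h1
  omega

private theorem Blc_one (k i : ℕ) : (Nat.shiftLeft (nat_lit 1) k).testBit i = decide (i = k) := by
  have h : Nat.shiftLeft (nat_lit 1) k = 2 ^ k := by
    show 1 <<< k = 2 ^ k
    rw [Nat.shiftLeft_eq, Nat.one_mul]
  rw [h, Nat.testBit_two_pow]
  by_cases hk : i = k
  · subst hk; simp
  · simp [hk, Ne.symm hk]

theorem vt_one {x y a b : ℕ} (hy : y < 16) :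
    vt (Nat.shiftLeft (nat_lit 1) (pos x y)) a b = true ↔ (a = x ∧ b = y) := by
  constructor
  · intro h
    have hb := vt_lt h
    rw [vt_eq _ _ hb, Blc_one, decide_eq_true_eq, Blc_pos] at h
    omega
  · rintro ⟨rfl, rfl⟩
    rw [vt_eq _ _ hy, Blc_one, decide_eq_true_eq, Blc_pos]

theorem vt_lor {V V' a b : ℕ} : vt (Nat.lor V V') a b = (vt V a b || vt V' a b) := by
  show bt (row (V ||| V') a) b = (bt (row V a) b || bt (row V' a) b)
  rw [bt_eq, bt_eq, bt_eq, Blc_row, Blc_row, Blc_row, Nat.testBit_or]
  cases V.testBit (64 * a + 4 * b) <;> cases V'.testBit (64 * a + 4 * b) <;> simp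

theorem vt_set {V x y a b : ℕ} (hy : y < 16) :
    vt (Nat.lor V (Nat.shiftLeft (nat_lit 1) (pos x y))) a b = true ↔
      vt V a b = true ∨ (a = x ∧ b = y) := by
  rw [vt_lor, Bool.or_eq_true, vt_one hy]

theorem cd_lt (c a b : ℕ) : cd c a b < 16 := by
  have h : cd c a b = (c >>> (64 * a + 4 * b)) &&& 15 := rfl
  rw [h]
  exact lt_of_le_of_lt Nat.and_le_right (by norm_num)

private theorem Blc_shl (v p j : ℕ) :
    (Nat.shiftLeft v p).testBit j = (decide (p ≤ j) && v.testBit (j - p)) := by
  show (v <<< p).testBit j = _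
  rw [Nat.testBit_shiftLeft]

private theorem Blc_dig {a b v x y i : ℕ} (ha : a < 16) (hb : b < 16) (hx : x < 16)
    (hy : y < 16) (hv : v < 16) (hi : i < 4) :
    (Nat.shiftLeft v (pos a b)).testBit (64 * x + 4 * y + i) =
      (decide (x = a ∧ y = b) && v.testBit i) := by
  rw [Blc_shl, Blc_pos]
  by_cases h : x = a ∧ y = b
  · obtain ⟨rfl, rfl⟩ := h
    have h1 : 64 * x + 4 * y ≤ 64 * x + 4 * y + i := by omega
    have h2 : 64 * x + 4 * y + i - (64 * x + 4 * y) = i := by omega
    simp [h1, h2]
  · rw [decide_eq_false h, Bool.false_and]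
    by_cases h1 : 64 * a + 4 * b ≤ 64 * x + 4 * y + i
    · rw [Blc_high hv (by omega), Bool.and_false]
    · rw [decide_eq_false h1, Bool.false_and]

theorem cd_up {c a b v x y : ℕ} (hab : a ≠ b) (ha : a < 16) (hb : b < 16) (hx : x < 16)
    (hy : y < 16) (hv : v < 16) : cd (up c a b v) x y =
      if (x = a ∧ y = b) ∨ (x = b ∧ y = a) then cd c x y ^^^ v else cd c x y := by
  have hxor : cd c x y ^^^ v < 16 := Nat.xor_lt_two_pow (n := 4) (cd_lt c x y) hv
  have hbit : ∀ i < 4, (cd (up c a b v) x y).testBit i = (((cd c x y).testBit i ^^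
      (decide (x = a ∧ y = b) && v.testBit i)) ^^ (decide (x = b ∧ y = a) && v.testBit i)) := by
    intro i hi
    rw [Blc_cd, Blc_cd]
    have h : up c a b v = (c ^^^ (Nat.shiftLeft v (pos a b))) ^^^ (Nat.shiftLeft v (pos b a)) := rfl
    rw [h, Nat.testBit_xor, Nat.testBit_xor, Blc_dig ha hb hx hy hv hi, Blc_dig hb ha hx hy hv hi]
    simp [hi]
  apply Blc_eq16 (cd_lt _ _ _)
  · split_ifs
    · exact hxor
    · exact cd_lt _ _ _
  · intro i hi
    rw [hbit i hi]
    by_cases h1 : x = a ∧ y = b
    · have h2 : ¬ (x = b ∧ y = a) := by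
        rintro ⟨h3, -⟩
        exact hab (h1.1.symm.trans h3)
      rw [if_pos (Or.inl h1), decide_eq_true h1, decide_eq_false h2, Nat.testBit_xor]
      simp
    · by_cases h2 : x = b ∧ y = a
      · rw [if_pos (Or.inr h2), decide_eq_true h2, decide_eq_false h1, Nat.testBit_xor]
        simp
      · rw [if_neg (by tauto), decide_eq_false h2, decide_eq_false h1]
        simp

private theorem Blc_m1 (j : ℕ) : Nat.testBit (nat_lit 0x1111111111111111111111111111111111111111111111111111111111111111111111111111111111111111111111111111111111111111111111111111111111111111111111111111111111111111111111111111111111111111111111111111111111111111111111111111111111111111111111111111111111111111) j = decide (j < 1024 ∧ j % 4 = 0) := by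
  by_cases hj : j < 1024
  · have h : ∀ j < 1024, Nat.testBit (nat_lit 0x1111111111111111111111111111111111111111111111111111111111111111111111111111111111111111111111111111111111111111111111111111111111111111111111111111111111111111111111111111111111111111111111111111111111111111111111111111111111111111111111111111111111111111) j = decide (j < 1024 ∧ j % 4 = 0) := by
      decide +kernel
    exact h j hj
  · rw [decide_eq_false (by omega)]
    apply Nat.testBit_lt_two_pow
    refine lt_of_lt_of_le (b := 2 ^ 1024) ?_ (Nat.pow_le_pow_right (by norm_num) (by omega))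
    decide +kernel

private theorem Blc_m2 (j : ℕ) : Nat.testBit (nat_lit 0x2222222222222222222222222222222222222222222222222222222222222222222222222222222222222222222222222222222222222222222222222222222222222222222222222222222222222222222222222222222222222222222222222222222222222222222222222222222222222222222222222222222222222222) j = decide (j < 1024 ∧ j % 4 = 1) := by
  by_cases hj : j < 1024
  · have h : ∀ j < 1024, Nat.testBit (nat_lit 0x2222222222222222222222222222222222222222222222222222222222222222222222222222222222222222222222222222222222222222222222222222222222222222222222222222222222222222222222222222222222222222222222222222222222222222222222222222222222222222222222222222222222222222) j = decide (j < 1024 ∧ j % 4 = 1) := by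
      decide +kernel
    exact h j hj
  · rw [decide_eq_false (by omega)]
    apply Nat.testBit_lt_two_pow
    refine lt_of_lt_of_le (b := 2 ^ 1024) ?_ (Nat.pow_le_pow_right (by norm_num) (by omega))
    decide +kernel

private theorem Blc_mA (j : ℕ) : Nat.testBit (nat_lit 0xAAAAAAAAAAAAAAAAAAAAAAAAAAAAAAAAAAAAAAAAAAAAAAAAAAAAAAAAAAAAAAAAAAAAAAAAAAAAAAAAAAAAAAAAAAAAAAAAAAAAAAAAAAAAAAAAAAAAAAAAAAAAAAAAAAAAAAAAAAAAAAAAAAAAAAAAAAAAAAAAAAAAAAAAAAAAAAAAAAAAAAAAAAAAAAAAAAAAAAAAAAAAAAAAAAAAAAAAAAAAAAAAAAAAAAAAAAAAAAAAAAAAAAAAAAAAAAAA) j = decide (j < 1024 ∧ j % 2 = 1) := by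
  by_cases hj : j < 1024
  · have h : ∀ j < 1024, Nat.testBit (nat_lit 0xAAAAAAAAAAAAAAAAAAAAAAAAAAAAAAAAAAAAAAAAAAAAAAAAAAAAAAAAAAAAAAAAAAAAAAAAAAAAAAAAAAAAAAAAAAAAAAAAAAAAAAAAAAAAAAAAAAAAAAAAAAAAAAAAAAAAAAAAAAAAAAAAAAAAAAAAAAAAAAAAAAAAAAAAAAAAAAAAAAAAAAAAAAAAAAAAAAAAAAAAAAAAAAAAAAAAAAAAAAAAAAAAAAAAAAAAAAAAAAAAAAAAAAAAAAAAAAAA) j = decide (j < 1024 ∧ j % 2 = 1) := by
      decide +kernel
    exact h j hj
  · rw [decide_eq_false (by omega)]
    apply Nat.testBit_lt_two_pow
    refine lt_of_lt_of_le (b := 2 ^ 1024) ?_ (Nat.pow_le_pow_right (by norm_num) (by omega))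
    decide +kernel

private theorem Blc_fold (x j : ℕ) : (fold x).testBit j =
    (((x.testBit j || x.testBit (1 + j)) || (x.testBit (2 + j) || x.testBit (3 + j))) &&
      decide (j < 1024 ∧ j % 4 = 0)) := by
  rw [← Blc_m1 j]
  have h : fold x = (((x ||| (x >>> 1)) ||| ((x >>> 2) ||| (x >>> 3))) &&& (nat_lit 0x1111111111111111111111111111111111111111111111111111111111111111111111111111111111111111111111111111111111111111111111111111111111111111111111111111111111111111111111111111111111111111111111111111111111111111111111111111111111111111111111111111111111111111)) := rfl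
  rw [h, Nat.testBit_and, Nat.testBit_or, Nat.testBit_or, Nat.testBit_or, Nat.testBit_shiftRight,
    Nat.testBit_shiftRight, Nat.testBit_shiftRight]

private theorem Blc_adjM (c j : ℕ) (hj : j < 1024) (h4 : j % 4 = 0) : (adjM c).testBit j =
    ((c.testBit j || !c.testBit (1 + j)) || (c.testBit (2 + j) || c.testBit (3 + j))) := by
  have h : adjM c = fold (c ^^^ (nat_lit 0x2222222222222222222222222222222222222222222222222222222222222222222222222222222222222222222222222222222222222222222222222222222222222222222222222222222222222222222222222222222222222222222222222222222222222222222222222222222222222222222222222222222222222222)) := rfl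
  rw [h, Blc_fold, decide_eq_true ⟨hj, h4⟩, Bool.and_true, Nat.testBit_xor, Nat.testBit_xor,
    Nat.testBit_xor, Nat.testBit_xor, Blc_m2, Blc_m2, Blc_m2, Blc_m2,
    decide_eq_false (by omega : ¬ (j < 1024 ∧ j % 4 = 1)),
    decide_eq_true (by omega : 1 + j < 1024 ∧ (1 + j) % 4 = 1),
    decide_eq_false (by omega : ¬ (2 + j < 1024 ∧ (2 + j) % 4 = 1)),
    decide_eq_false (by omega : ¬ (3 + j < 1024 ∧ (3 + j) % 4 = 1))]
  simp

theorem bt_adjM {c a b : ℕ} (ha : a < 16) (hb : b < 16) :
    bt (row (adjM c) a) b = true ↔ cd c a b ≠ 2 := by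
  rw [bt_row _ _ hb, Blc_adjM c _ (by omega) (by omega)]
  have e0 : (cd c a b).testBit 0 = c.testBit (64 * a + 4 * b) := by
    rw [Blc_cd]; simp
  have e1 : (cd c a b).testBit 1 = c.testBit (1 + (64 * a + 4 * b)) := by
    rw [Blc_cd, Nat.add_comm]; simp
  have e2 : (cd c a b).testBit 2 = c.testBit (2 + (64 * a + 4 * b)) := by
    rw [Blc_cd, Nat.add_comm]; simp
  have e3 : (cd c a b).testBit 3 = c.testBit (3 + (64 * a + 4 * b)) := by
    rw [Blc_cd, Nat.add_comm]; simp
  rw [← e0, ← e1, ← e2, ← e3]
  have hlt := cd_lt c a b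
  generalize cd c a b = k at hlt
  revert hlt
  revert k
  decide +kernel

theorem row_adjM4 {c a i : ℕ} (h : (row (adjM c) a).testBit i = true) : ∃ b < 16, i = 4 * b := by
  rw [Blc_row, Bool.and_eq_true, decide_eq_true_eq] at h
  obtain ⟨h1, h2⟩ := h
  have h3 : (fold (c ^^^ (nat_lit 0x2222222222222222222222222222222222222222222222222222222222222222222222222222222222222222222222222222222222222222222222222222222222222222222222222222222222222222222222222222222222222222222222222222222222222222222222222222222222222222222222222222222222222222))).testBit (64 * a + i) = true := h1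
  rw [Blc_fold, Bool.and_eq_true, decide_eq_true_eq] at h3
  exact ⟨i / 4, by omega, by omega⟩

theorem noP_sound {c a b : ℕ} (h : noP c = true) (ha : a < 16) (hb : b < 16) : cd c a b ≠ 10 := by
  have h1 : fold (c ^^^ (nat_lit 0xAAAAAAAAAAAAAAAAAAAAAAAAAAAAAAAAAAAAAAAAAAAAAAAAAAAAAAAAAAAAAAAAAAAAAAAAAAAAAAAAAAAAAAAAAAAAAAAAAAAAAAAAAAAAAAAAAAAAAAAAAAAAAAAAAAAAAAAAAAAAAAAAAAAAAAAAAAAAAAAAAAAAAAAAAAAAAAAAAAAAAAAAAAAAAAAAAAAAAAAAAAAAAAAAAAAAAAAAAAAAAAAAAAAAAAAAAAAAAAAAAAAAAAAAAAAAAAAA)) = nat_lit 0x1111111111111111111111111111111111111111111111111111111111111111111111111111111111111111111111111111111111111111111111111111111111111111111111111111111111111111111111111111111111111111111111111111111111111111111111111111111111111111111111111111111111111111 :=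
    Nat.eq_of_beq_eq_true h
  have h2 := Blc_fold (c ^^^ (nat_lit 0xAAAAAAAAAAAAAAAAAAAAAAAAAAAAAAAAAAAAAAAAAAAAAAAAAAAAAAAAAAAAAAAAAAAAAAAAAAAAAAAAAAAAAAAAAAAAAAAAAAAAAAAAAAAAAAAAAAAAAAAAAAAAAAAAAAAAAAAAAAAAAAAAAAAAAAAAAAAAAAAAAAAAAAAAAAAAAAAAAAAAAAAAAAAAAAAAAAAAAAAAAAAAAAAAAAAAAAAAAAAAAAAAAAAAAAAAAAAAAAAAAAAAAAAAAAAAAAAA)) (64 * a + 4 * b)
  rw [h1, Blc_m1, Nat.testBit_xor, Nat.testBit_xor, Nat.testBit_xor, Nat.testBit_xor, Blc_mA, Blc_mA,
    Blc_mA, Blc_mA, decide_eq_true (by omega : 64 * a + 4 * b < 1024 ∧ (64 * a + 4 * b) % 4 = 0),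
    decide_eq_false (by omega : ¬ (64 * a + 4 * b < 1024 ∧ (64 * a + 4 * b) % 2 = 1)),
    decide_eq_true (by omega : 1 + (64 * a + 4 * b) < 1024 ∧ (1 + (64 * a + 4 * b)) % 2 = 1),
    decide_eq_false (by omega : ¬ (2 + (64 * a + 4 * b) < 1024 ∧ (2 + (64 * a + 4 * b)) % 2 = 1)),
    decide_eq_true (by omega : 3 + (64 * a + 4 * b) < 1024 ∧ (3 + (64 * a + 4 * b)) % 2 = 1)] at h2
  intro h10
  have e0 : c.testBit (64 * a + 4 * b) = false := by
    have := Blc_cd c a b 0
    rw [h10] at this
    simpa using this.symm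
  have e1 : c.testBit (1 + (64 * a + 4 * b)) = true := by
    have := Blc_cd c a b 1
    rw [h10, Nat.add_comm, decide_eq_true (by norm_num), Bool.and_true] at this
    exact this.symm.trans (by decide)
  have e2 : c.testBit (2 + (64 * a + 4 * b)) = false := by
    have := Blc_cd c a b 2
    rw [h10, Nat.add_comm, decide_eq_true (by norm_num), Bool.and_true] at this
    exact this.symm.trans (by decide)
  have e3 : c.testBit (3 + (64 * a + 4 * b)) = true := by
    have := Blc_cd c a b 3
    rw [h10, Nat.add_comm, decide_eq_true (by norm_num), Bool.and_true] at this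
    exact this.symm.trans (by decide)
  rw [e0, e1, e2, e3] at h2
  exact absurd h2 (by decide)

private theorem Blc_m8 (j : ℕ) : Nat.testBit (nat_lit 0x8888888888888888) j = decide (j < 64 ∧ j % 4 = 3) := by
  by_cases hj : j < 64
  · have h : ∀ j < 64, Nat.testBit (nat_lit 0x8888888888888888) j = decide (j < 64 ∧ j % 4 = 3) := by
      decide +kernel
    exact h j hj
  · rw [decide_eq_false (by omega)]
    apply Nat.testBit_lt_two_pow
    refine lt_of_lt_of_le (b := 2 ^ 64) ?_ (Nat.pow_le_pow_right (by norm_num) (by omega))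
    decide +kernel

private theorem Blc_m8c (j : ℕ) : Nat.testBit (nat_lit 0x8000000000000000800000000000000080000000000000008000000000000000800000000000000080000000000000008000000000000000800000000000000080000000000000008000000000000000800000000000000080000000000000008000000000000000800000000000000080000000000000008) j = decide (j < 1024 ∧ j % 64 = 3) := by
  by_cases hj : j < 1024
  · have h : ∀ j < 1024, Nat.testBit (nat_lit 0x8000000000000000800000000000000080000000000000008000000000000000800000000000000080000000000000008000000000000000800000000000000080000000000000008000000000000000800000000000000080000000000000008000000000000000800000000000000080000000000000008) j = decide (j < 1024 ∧ j % 64 = 3) := by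
      decide +kernel
    exact h j hj
  · rw [decide_eq_false (by omega)]
    apply Nat.testBit_lt_two_pow
    refine lt_of_lt_of_le (b := 2 ^ 1024) ?_ (Nat.pow_le_pow_right (by norm_num) (by omega))
    decide +kernel

/-- the new row -/
private theorem Blc_r {m u a b i : ℕ} (hm : m ≤ 15) (hu : u < m) (ha : a < 16) (hb : b < 16)
    (hi : i < 4) : (Nat.shiftLeft (Nat.xor (Nat.land (nat_lit 0x8888888888888888)
      (Nat.sub (bit m) (nat_lit 1))) (bit u)) (Nat.mul (nat_lit 64) m)).testBit (64 * a + 4 * b + i) =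
      (decide (a = m) && ((decide (i = 3) && decide (b < m)) ^^ (decide (i = 0) && decide (b = u)))) := by
  rw [Blc_shl]
  have e : Nat.mul (nat_lit 64) m = 64 * m := rfl
  have eb : bit m = 2 ^ (4 * m) := by
    show 1 <<< (4 * m) = 2 ^ (4 * m)
    rw [Nat.shiftLeft_eq, Nat.one_mul]
  have eu : bit u = 2 ^ (4 * u) := by
    show 1 <<< (4 * u) = 2 ^ (4 * u)
    rw [Nat.shiftLeft_eq, Nat.one_mul]
  have h : Nat.xor (Nat.land (nat_lit 0x8888888888888888) (Nat.sub (bit m) (nat_lit 1))) (bit u) =
      ((nat_lit 0x8888888888888888) &&& (2 ^ (4 * m) - 1)) ^^^ 2 ^ (4 * u) := by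
    rw [eb, eu]; rfl
  rw [e, h, Nat.testBit_xor, Nat.testBit_and, Blc_m8, Nat.testBit_two_pow_sub_one,
    Nat.testBit_two_pow]
  by_cases h1 : 64 * m ≤ 64 * a + 4 * b + i
  · rw [decide_eq_true h1, Bool.true_and]
    by_cases h2 : a = m
    · subst h2
      have h3 : 64 * a + 4 * b + i - 64 * a = 4 * b + i := by omega
      rw [h3, decide_eq_true rfl, Bool.true_and, ← Bool.decide_and, ← Bool.decide_and,
        ← Bool.decide_and]
      have h4 : ((4 * b + i < 64 ∧ (4 * b + i) % 4 = 3) ∧ 4 * b + i < 4 * a) ↔ (i = 3 ∧ b < a) := by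
        omega
      have h5 : (4 * u = 4 * b + i) ↔ (i = 0 ∧ b = u) := by omega
      rw [decide_eq_decide.2 h4, decide_eq_decide.2 h5]
    · rw [decide_eq_false h2, Bool.false_and, ← Bool.decide_and]
      rw [decide_eq_false (by omega : ¬ ((64 * a + 4 * b + i - 64 * m < 64 ∧
        (64 * a + 4 * b + i - 64 * m) % 4 = 3) ∧ 64 * a + 4 * b + i - 64 * m < 4 * m)),
        decide_eq_false (by omega : ¬ (4 * u = 64 * a + 4 * b + i - 64 * m))]
      rfl
  · rw [decide_eq_false h1, Bool.false_and, decide_eq_false (by omega : ¬ a = m), Bool.false_and]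

/-- the new column -/
private theorem Blc_c {m u a b i : ℕ} (hm : m ≤ 15) (hu : u < m) (ha : a < 16) (hb : b < 16)
    (hi : i < 4) : (Nat.shiftLeft (Nat.xor (Nat.land (nat_lit 0x8000000000000000800000000000000080000000000000008000000000000000800000000000000080000000000000008000000000000000800000000000000080000000000000008000000000000000800000000000000080000000000000008000000000000000800000000000000080000000000000008)
      (Nat.sub (Nat.shiftLeft (nat_lit 1) (Nat.mul (nat_lit 64) m)) (nat_lit 1)))
      (Nat.shiftLeft (nat_lit 1) (Nat.mul (nat_lit 64) u))) (Nat.mul (nat_lit 4) m)).testBit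
        (64 * a + 4 * b + i) =
      (decide (b = m) && ((decide (i = 3) && decide (a < m)) ^^ (decide (i = 0) && decide (a = u)))) := by
  rw [Blc_shl]
  have e : Nat.mul (nat_lit 4) m = 4 * m := rfl
  have eb : Nat.shiftLeft (nat_lit 1) (Nat.mul (nat_lit 64) m) = 2 ^ (64 * m) := by
    show 1 <<< (64 * m) = 2 ^ (64 * m)
    rw [Nat.shiftLeft_eq, Nat.one_mul]
  have eu : Nat.shiftLeft (nat_lit 1) (Nat.mul (nat_lit 64) u) = 2 ^ (64 * u) := by
    show 1 <<< (64 * u) = 2 ^ (64 * u)
    rw [Nat.shiftLeft_eq, Nat.one_mul]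
  rw [eb, eu]
  have h : Nat.xor (Nat.land (nat_lit 0x8000000000000000800000000000000080000000000000008000000000000000800000000000000080000000000000008000000000000000800000000000000080000000000000008000000000000000800000000000000080000000000000008000000000000000800000000000000080000000000000008) (Nat.sub (2 ^ (64 * m)) (nat_lit 1))) (2 ^ (64 * u)) =
      ((nat_lit 0x8000000000000000800000000000000080000000000000008000000000000000800000000000000080000000000000008000000000000000800000000000000080000000000000008000000000000000800000000000000080000000000000008000000000000000800000000000000080000000000000008) &&& (2 ^ (64 * m) - 1)) ^^^ 2 ^ (64 * u) := rfl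
  rw [e, h, Nat.testBit_xor, Nat.testBit_and, Blc_m8c, Nat.testBit_two_pow_sub_one,
    Nat.testBit_two_pow]
  by_cases h1 : 4 * m ≤ 64 * a + 4 * b + i
  · rw [decide_eq_true h1, Bool.true_and]
    by_cases h2 : b = m
    · subst h2
      have h3 : 64 * a + 4 * b + i - 4 * b = 64 * a + i := by omega
      rw [h3, decide_eq_true rfl, Bool.true_and, ← Bool.decide_and, ← Bool.decide_and,
        ← Bool.decide_and]
      have h4 : ((64 * a + i < 1024 ∧ (64 * a + i) % 64 = 3) ∧ 64 * a + i < 64 * b) ↔
        (i = 3 ∧ a < b) := by omega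
      have h5 : (64 * u = 64 * a + i) ↔ (i = 0 ∧ a = u) := by omega
      rw [decide_eq_decide.2 h4, decide_eq_decide.2 h5]
    · rw [decide_eq_false h2, Bool.false_and, ← Bool.decide_and]
      rw [decide_eq_false (by omega : ¬ ((64 * a + 4 * b + i - 4 * m < 1024 ∧
        (64 * a + 4 * b + i - 4 * m) % 64 = 3) ∧ 64 * a + 4 * b + i - 4 * m < 64 * m)),
        decide_eq_false (by omega : ¬ (64 * u = 64 * a + 4 * b + i - 4 * m))]
      rfl
  · rw [decide_eq_false h1, Bool.false_and, decide_eq_false (by omega : ¬ b = m), Bool.false_and]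

/-- the matrix after adding the node `m` adjacent to `u` -/
theorem cd_ext {m c u a b : ℕ} (hm : m ≤ 15) (hu : u < m) (ha : a < 16) (hb : b < 16)
    (hout : ∀ x < 16, ∀ y < 16, (x = y ∨ m ≤ x ∨ m ≤ y) → cd c x y = 2) :
    cd (ext m c u) a b =
      if (a = m ∧ b < m) ∨ (b = m ∧ a < m) then (if a = u ∨ b = u then 11 else 10)
      else cd c a b := by
  have hbit : ∀ i < 4, (cd (ext m c u) a b).testBit i = (((cd c a b).testBit i ^^
      (decide (a = m) && ((decide (i = 3) && decide (b < m)) ^^ (decide (i = 0) && decide (b = u))))) ^^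
      (decide (b = m) && ((decide (i = 3) && decide (a < m)) ^^ (decide (i = 0) && decide (a = u))))) := by
    intro i hi
    rw [Blc_cd, Blc_cd, ← Blc_r hm hu ha hb hi, ← Blc_c hm hu ha hb hi]
    unfold ext
    show (((c ^^^ _) ^^^ _).testBit _ && _) = _
    rw [Nat.testBit_xor, Nat.testBit_xor, decide_eq_true hi, Bool.and_true, Bool.and_true]
  by_cases h1 : a = m ∧ b < m
  · obtain ⟨rfl, h1⟩ := h1
    rw [if_pos (Or.inl ⟨rfl, h1⟩)]
    have h2 : cd c a b = 2 := hout a ha b hb (Or.inr (Or.inl le_rfl))
    have h3 : ¬ a = u := by omega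
    have h4 : ¬ b = a := by omega
    by_cases h5 : b = u
    · rw [if_pos (Or.inr h5)]
      apply Blc_eq16 (cd_lt _ _ _) (by norm_num)
      intro i hi
      rw [hbit i hi, h2, decide_eq_true h1, decide_eq_true h5, decide_eq_false h4]
      interval_cases i <;> simp <;> decide
    · rw [if_neg (by tauto)]
      apply Blc_eq16 (cd_lt _ _ _) (by norm_num)
      intro i hi
      rw [hbit i hi, h2, decide_eq_true h1, decide_eq_false h5, decide_eq_false h4]
      interval_cases i <;> simp <;> decide
  · by_cases h1' : b = m ∧ a < m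
    · obtain ⟨rfl, h1'⟩ := h1'
      rw [if_pos (Or.inr ⟨rfl, h1'⟩)]
      have h2 : cd c a b = 2 := hout a ha b hb (Or.inr (Or.inr le_rfl))
      have h3 : ¬ b = u := by omega
      have h4 : ¬ a = b := by omega
      by_cases h5 : a = u
      · rw [if_pos (Or.inl h5)]
        apply Blc_eq16 (cd_lt _ _ _) (by norm_num)
        intro i hi
        rw [hbit i hi, h2, decide_eq_true h1', decide_eq_true h5, decide_eq_false h4]
        interval_cases i <;> simp <;> decide
      · rw [if_neg (by tauto)]
        apply Blc_eq16 (cd_lt _ _ _) (by norm_num)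
        intro i hi
        rw [hbit i hi, h2, decide_eq_true h1', decide_eq_false h5, decide_eq_false h4]
        interval_cases i <;> simp <;> decide
    · rw [if_neg (by tauto)]
      apply Blc_eq16 (cd_lt _ _ _) (cd_lt _ _ _)
      intro i hi
      rw [hbit i hi]
      have e1 : (decide (a = m) && ((decide (i = 3) && decide (b < m)) ^^
          (decide (i = 0) && decide (b = u)))) = false := by
        by_cases h2 : a = m
        · have h3 : ¬ b < m := fun h => h1 ⟨h2, h⟩
          rw [decide_eq_false h3, decide_eq_false (by omega : ¬ b = u)]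
          simp
        · rw [decide_eq_false h2, Bool.false_and]
      have e2 : (decide (b = m) && ((decide (i = 3) && decide (a < m)) ^^
          (decide (i = 0) && decide (a = u)))) = false := by
        by_cases h2 : b = m
        · have h3 : ¬ a < m := fun h => h1' ⟨h2, h⟩
          rw [decide_eq_false h3, decide_eq_false (by omega : ¬ a = u)]
          simp
        · rw [decide_eq_false h2, Bool.false_and]
      rw [e1, e2, Bool.xor_false, Bool.xor_false]

end MP86a502
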