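import Pool.Agent.Lib.MP_86a502_gt.U.Chk

set_option autoImplicit false
set_option linter.unusedVariables false

/-! # The checker for small diagrams

A diagram with `m` nodes all of whose proper subdiagrams are positive definite, obtained from a
known one by adding the node `m - 1`. -/

namespace MP86a502

/-- number of nodes of the small connected positive definite diagrams
`I2(≥3), A3, B3, H3, A4, B4, D4, F4, H4, A5, B5, D5` -/
def eN (e : ℕ) : ℕ := Nat.land (Nat.shiftRight (nat_lit 0x555444443332) (Nat.mul (nat_lit 4) e)) (nat_lit 15)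

/-- their codes -/
def eP (e i j : ℕ) : ℕ :=
  Nat.land (Nat.shiftRight (nat_lit 0x222222222222222222222222222232222223232222223233222223222222232222222222222222222222222222223222222323222222323222222324222222422222222222222222222222222222322222232322222232322222232322222232222222222222222222222222222222222222232222223232222223252222225222222222222222222222222222222222222223222222324222222423222222322222222222222222222222222222222222222223222222232222222322223332222222222222222222222222222222222222232222223232222223242222224222222222222222222222222222222222222223222222323222222323222222322222222222222222222222222222222222222222222222322222232522222252222222222222222222222222222222222222222222222232222223242222224222222222222222222222222222222222222222222222223222222323222222322222222222222222222222222222222222222222222222222222222b222222b2) (Nat.mul (nat_lit 4)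
    (Nat.add (Nat.mul (nat_lit 64) e) (Nat.add (Nat.mul (nat_lit 8) i) j)))) (nat_lit 15)

/-- their matrices -/
def eC (e : ℕ) : ℕ :=
  Nat.land (Nat.shiftRight (nat_lit 0x2222222222222222222222222222222222222222222222222222222222222222222222222222222222222222222222222222222222222222222222222222222222222222222222222222222222222222222222222222222222222222222232222222222222232322222222222222323322222222222223222222222222222322222222222222222222222222222222222222222222222222222222222222222222222222222222222222222222222222222222222222222222222222222222222222222222222222222222222222222222222222222222222222222222223222222222222223232222222222222232322222222222222324222222222222224222222222222222222222222222222222222222222222222222222222222222222222222222222222222222222222222222222222222222222222222222222222222222222222222222222222222222222222222222222222222222222222322222222222222323222222222222223232222222222222232322222222222222322222222222222222222222222222222222222222222222222222222222222222222222222222222222222222222222222222222222222222222222222222222222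2222222222222222222222222222222222222222222222222222222222222222222222222223222222222222223232222222222222232522222222222222522222222222222222222222222222222222222222222222222222222222222222222222222222222222222222222222222222222222222222222222222222222222222222222222222222222222222222222222222222222222222222222222222222222222222322222222222222324222222222222224232222222222222232222222222222222222222222222222222222222222222222222222222222222222222222222222222222222222222222222222222222222222222222222222222222222222222222222222222222222222222222222222222222222222222222222222222222222322222222222222232222222222222223222222222222333222222222222222222222222222222222222222222222222222222222222222222222222222222222222222222222222222222222222222222222222222222222222222222222222222222222222222222222222222222222222222222222222222222222222223222222222222223232222222222222232422222222222222422222222222222222222222222222222222222222222222222222222222222222222222222222222222222222222222222222222222222222222222222222222222222222222222222222222222222222222222222222222222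22222222222222222222222222232222222222222232322222222222222323222222222222223222222222222222222222222222222222222222222222222222222222222222222222222222222222222222222222222222222222222222222222222222222222222222222222222222222222222222222222222222222222222222222222222222222222222222222222222222222232222222222222232522222222222222522222222222222222222222222222222222222222222222222222222222222222222222222222222222222222222222222222222222222222222222222222222222222222222222222222222222222222222222222222222222222222222222222222222222222222222222222222223222222222222223242222222222222242222222222222222222222222222222222222222222222222222222222222222222222222222222222222222222222222222222222222222222222222222222222222222222222222222222222222222222222222222222222222222222222222222222222222222222222222222222322222222222222323222222222222223222222222222222222222222222222222222222222222222222222222222222222222222222222222222222222222222222222222222222222222222222222222222222222222222222222222222222222222222222222222222222222222222222222222222222222222222222222222222222222222222b22222222222222b2)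 (Nat.mul (nat_lit 1024) e)) (nat_lit 0xffffffffffffffffffffffffffffffffffffffffffffffffffffffffffffffffffffffffffffffffffffffffffffffffffffffffffffffffffffffffffffffffffffffffffffffffffffffffffffffffffffffffffffffffffffffffffffffffffffffffffffffffffffffffffffffffffffffffffffffffffffffffffffffff)

/-- labels with the code `c` have the code `p` -/
noncomputable def imC (c p : ℕ) : Bool :=
  bcB (Nat.beq c p) true (bcB (Nat.ble (nat_lit 10) p)
    (bcB (Nat.ble (nat_lit 10) c) (Nat.ble p c)
      (bcB (Nat.ble (nat_lit 3) c) (bcB (Nat.ble c (nat_lit 7))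
        (Nat.ble p (Nat.add c (nat_lit 8))) false) false)) false)

/-- the diagram matches the pattern `P` by the permutation `ps` -/
noncomputable def mtC (P : ℕ → ℕ → ℕ) (m c ps : ℕ) : Bool :=
  bcB (Nat.beq (or16 (fun a => bcN (Nat.ble (Nat.add a (nat_lit 1)) m) (bit (nb ps a))
      (nat_lit 0))) (full m))
    (all16 (fun a => bcB (Nat.ble (Nat.add a (nat_lit 1)) m) (all16 (fun b =>
      bcB (Nat.ble (Nat.add b (nat_lit 1)) m) (bcB (Nat.beq a b) true
        (imC (cd c a b) (P (nb ps a) (nb ps b)))) true)) true)) false

/-- certificate trees -/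
inductive Tl : Type
  | non (s u : ℕ) : Tl
  | par (s u : ℕ) : Tl
  | uj : Tl
  | mt (k ps : ℕ) : Tl
  | split (a b : ℕ) (t₁ t₂ : Tl) : Tl

/-- the checker: matrix of codes -/
noncomputable def chl (m : ℕ) (t : Tl) : ℕ → Bool :=
  Tl.rec (motive := fun _ => ℕ → Bool)
    (fun s u c => bcB (any16 (fun a => bcB (Nat.ble (Nat.add a (nat_lit 1)) m)
      (bcB (nz u a) false true) false)) (npd m c s u) false)
    (fun s u c => parC m c s u)
    (fun c => all16 (fun a => bcB (Nat.ble (Nat.add a (nat_lit 2)) m)
      (Nat.beq (cd c (Nat.sub m (nat_lit 1)) a) (nat_lit 2)) true))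
    (fun k ps c => bcB (Nat.ble (nat_lit 12) k)
      (bcB (Nat.ble k (nat_lit 23)) (bcB (Nat.beq (lN (Nat.sub k (nat_lit 12))) m)
        (mtC (lP (Nat.sub k (nat_lit 12))) m c ps) false) false)
      (bcB (Nat.beq (eN k) m) (mtC (eP k) m c ps) false))
    (fun a b _ _ f1 f2 c => bcB (Nat.ble (Nat.add b (nat_lit 1)) a)
      (bcB (Nat.ble (Nat.add a (nat_lit 1)) m)
        (bcB (Nat.beq (cd c a b) (nat_lit 10))
          (bcB (f1 (up c a b (nat_lit 8))) (f2 (up c a b (nat_lit 1))) false)
          (bcB (Nat.ble (nat_lit 11) (cd c a b)) (bcB (Nat.ble (cd c a b) (nat_lit 14))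
            (bcB (f1 (up c a b (nat_lit 8)))
              (f2 (up c a b (Nat.xor (cd c a b) (Nat.add (cd c a b) (nat_lit 1)))))
              false) false) false)) false) false) t

/-- code of the initial matrix: the diagram `e` and one more node -/
noncomputable def eE (e a b : ℕ) : ℕ :=
  bcN (Nat.beq a b) (nat_lit 2)
    (bcN (Nat.ble (Nat.add (eN e) (nat_lit 1)) a) (nat_lit 2)
      (bcN (Nat.ble (Nat.add (eN e) (nat_lit 1)) b) (nat_lit 2)
        (bcN (Nat.beq a (eN e)) (nat_lit 10) (bcN (Nat.beq b (eN e)) (nat_lit 10) (eP e a b)))))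

/-- check of the extensions of the diagram `e` -/
noncomputable def eR (e c : ℕ) (t : Tl) : Bool :=
  bcB (all16 (fun a => all16 (fun b => Nat.beq (cd c a b) (eE e a b))))
    (chl (Nat.add (eN e) (nat_lit 1)) t c) false

noncomputable def eT0 : Tl := (.split (nat_lit 2) (nat_lit 0) (.split (nat_lit 2) (nat_lit 1) .uj (.split (nat_lit 2) (nat_lit 1) (.split (nat_lit 1) (nat_lit 0) (.mt (nat_lit 1) (nat_lit 0x210)) (.split (nat_lit 1) (nat_lit 0) (.mt (nat_lit 2) (nat_lit 0x210)) (.split (nat_lit 1) (nat_lit 0) (.mt (nat_lit 3) (nat_lit 0x210)) (.split (nat_lit 1) (nat_lit 0) (.par (nat_lit 0x3d) (nat_lit 0x100020003)) (.mt (nat_lit 0xd) (nat_lit 0x12)))))) (.split (nat_lit 2) (nat_lit 1) (.split (nat_lit 1) (nat_lit 0) (.mt (nat_lit 2) (nat_lit 0x12)) (.split (nat_lit 1) (nat_lit 0) (.par (nat_lit 0x19) (nat_lit 0x100010001)) (.mt (nat_lit 0xe) (nat_lit 0x12)))) (.split (nat_lit 2) (nat_lit 1) (.split (nat_lit 1) (nat_lit 0) (.mt (nat_lit 3) (nat_lit 0x12)) (.split (nat_lit 1) (nat_lit 0) (.mt (nat_lit 0xe) (nat_lit 0x210)) (.mt (nat_lit 0xf) (nat_lit 0x210))))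 (.split (nat_lit 2) (nat_lit 1) (.split (nat_lit 1) (nat_lit 0) (.par (nat_lit 0x35) (nat_lit 0x100020001)) (.split (nat_lit 1) (nat_lit 0) (.mt (nat_lit 0xe) (nat_lit 0x210)) (.mt (nat_lit 0xf) (nat_lit 0x210)))) (.split (nat_lit 1) (nat_lit 0) (.mt (nat_lit 0xd) (nat_lit 0x210)) (.split (nat_lit 1) (nat_lit 0) (.mt (nat_lit 0xe) (nat_lit 0x210)) (.mt (nat_lit 0xf) (nat_lit 0x210))))))))) (.split (nat_lit 2) (nat_lit 1) (.split (nat_lit 2) (nat_lit 0) (.split (nat_lit 1) (nat_lit 0) (.mt (nat_lit 1) (nat_lit 0x201)) (.split (nat_lit 1) (nat_lit 0) (.mt (nat_lit 2) (nat_lit 0x201)) (.split (nat_lit 1) (nat_lit 0) (.mt (nat_lit 3) (nat_lit 0x201)) (.split (nat_lit 1) (nat_lit 0) (.par (nat_lit 0x1d) (nat_lit 0x100010002)) (.mt (nat_lit 0xd) (nat_lit 0x21)))))) (.split (nat_lit 2) (nat_lit 0) (.split (nat_lit 1) (nat_lit 0) (.mt (nat_lit 2) (nat_lit 0x21)) (.split (nat_lit 1) (nat_lit 0) (.par (nat_lit 0x29) (nat_lit 0x100010002)) (.mt (nat_lit 0xe) (nat_lit 0x21)))) (.split (nat_lit 2) (nat_lit 0) (.split (nat_lit 1) (nat_lit 0) (.mt (nat_lit 3) (nat_lit 0x21))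 (.split (nat_lit 1) (nat_lit 0) (.mt (nat_lit 0xe) (nat_lit 0x201)) (.mt (nat_lit 0xf) (nat_lit 0x201)))) (.split (nat_lit 2) (nat_lit 0) (.split (nat_lit 1) (nat_lit 0) (.par (nat_lit 0x35) (nat_lit 0x100010002)) (.split (nat_lit 1) (nat_lit 0) (.mt (nat_lit 0xe) (nat_lit 0x201)) (.mt (nat_lit 0xf) (nat_lit 0x201)))) (.split (nat_lit 1) (nat_lit 0) (.mt (nat_lit 0xd) (nat_lit 0x201)) (.split (nat_lit 1) (nat_lit 0) (.mt (nat_lit 0xe) (nat_lit 0x201)) (.mt (nat_lit 0xf) (nat_lit 0x201)))))))) (.split (nat_lit 2) (nat_lit 0) (.split (nat_lit 2) (nat_lit 1) (.split (nat_lit 1) (nat_lit 0) (.par (nat_lit 0x15) (nat_lit 0x100010001)) (.mt (nat_lit 0x10) (nat_lit 0x120))) (.mt (nat_lit 0x10) (nat_lit 0x201))) (.mt (nat_lit 0x10) (nat_lit 0x210)))))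

theorem eR_0 : eR (nat_lit 0) (nat_lit 0x222222222222222222222222222222222222222222222222222222222222222222222222222222222222222222222222222222222222222222222222222222222222222222222222222222222222222222222222222222222222222222222222222222222222222222222222222222aa2222222222222a2b2222222222222ab2) eT0 = true := by decide +kernel

noncomputable def eT1 : Tl := (.split (nat_lit 3) (nat_lit 0) (.split (nat_lit 3) (nat_lit 1) (.split (nat_lit 3) (nat_lit 2) .uj (.split (nat_lit 3) (nat_lit 2) (.mt (nat_lit 4) (nat_lit 0x3210)) (.split (nat_lit 3) (nat_lit 2) (.mt (nat_lit 5) (nat_lit 0x123)) (.split (nat_lit 3) (nat_lit 2) (.mt (nat_lit 8) (nat_lit 0x123)) (.non (nat_lit 0xd4) (nat_lit 0x1000200010000)))))) (.split (nat_lit 3) (nat_lit 2) (.split (nat_lit 3) (nat_lit 1) (.mt (nat_lit 6) (nat_lit 0x3201)) (.split (nat_lit 3) (nat_lit 1) (.par (nat_lit 0x95) (nat_lit 0x1000100020001)) (.split (nat_lit 3) (nat_lit 1) (.mt (nat_lit 0x13) (nat_lit 0x312)) (.non (nat_lit 0xc5) (nat_lit 0x1000000020001))))) (.non (nat_lit 0x54) (nat_lit 0x1000100010000)))) (.split (nat_lit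 3) (nat_lit 1) (.split (nat_lit 3) (nat_lit 2) (.split (nat_lit 3) (nat_lit 0) (.mt (nat_lit 4) (nat_lit 0x321)) (.split (nat_lit 3) (nat_lit 0) (.mt (nat_lit 5) (nat_lit 0x321)) (.split (nat_lit 3) (nat_lit 0) (.mt (nat_lit 8) (nat_lit 0x321)) (.non (nat_lit 0xc5) (nat_lit 0x1000000010002))))) (.split (nat_lit 3) (nat_lit 0) (.split (nat_lit 3) (nat_lit 2) (.par (nat_lit 0x55) (nat_lit 0x1000100010001)) (.mt (nat_lit 0x14) (nat_lit 0x1032))) (.split (nat_lit 3) (nat_lit 0) (.split (nat_lit 3) (nat_lit 2) (.mt (nat_lit 0x14) (nat_lit 0x1230)) (.non (nat_lit 0x91) (nat_lit 0x1000100000001))) (.split (nat_lit 3) (nat_lit 0) (.split (nat_lit 3) (nat_lit 2) (.mt (nat_lit 0x14) (nat_lit 0x1230)) (.non (nat_lit 0x51) (nat_lit 0x1000100000001))) (.non (nat_lit 0xc5) (nat_lit 0x1000000010002)))))) (.non (nat_lit 0x45) (nat_lit 0x1000000010001))))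

theorem eR_1 : eR (nat_lit 1) (nat_lit 0x2222222222222222222222222222222222222222222222222222222222222222222222222222222222222222222222222222222222222222222222222222222222222222222222222222222222222222222222222222222222222222222222222222222222222aaa222222222222a232222222222222a323222222222222a232) eT1 = true := by decide +kernel

noncomputable def eT2 : Tl := (.split (nat_lit 3) (nat_lit 0) (.split (nat_lit 3) (nat_lit 1) (.split (nat_lit 3) (nat_lit 2) .uj (.split (nat_lit 3) (nat_lit 2) (.mt (nat_lit 5) (nat_lit 0x3210)) (.split (nat_lit 3) (nat_lit 2) (.par (nat_lit 0x69) (nat_lit 0x1000100010001)) (.split (nat_lit 3) (nat_lit 2) (.mt (nat_lit 0x12) (nat_lit 0x123)) (.non (nat_lit 0xd4) (nat_lit 0x1000200010000)))))) (.split (nat_lit 3) (nat_lit 2) (.split (nat_lit 3) (nat_lit 1) (.par (nat_lit 0xa9) (nat_lit 0x1000100020002)) (.non (nat_lit 0x49) (nat_lit 0x1000000010001))) (.non (nat_lit 0x54) (nat_lit 0x1000100010000)))) (.split (nat_lit 3) (nat_lit 1) (.split (nat_lit 3) (nat_lit 2) (.split (nat_lit 3) (nat_lit 0) (.mt (nat_lit 7) (nat_lit 0x321))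 (.non (nat_lit 0x89) (nat_lit 0x1000000010002))) (.split (nat_lit 3) (nat_lit 0) (.mt (nat_lit 0x14) (nat_lit 0x3210)) (.non (nat_lit 0x89) (nat_lit 0x1000000010002)))) (.non (nat_lit 0x45) (nat_lit 0x1000000010001))))

theorem eR_2 : eR (nat_lit 2) (nat_lit 0x2222222222222222222222222222222222222222222222222222222222222222222222222222222222222222222222222222222222222222222222222222222222222222222222222222222222222222222222222222222222222222222222222222222222222aaa222222222222a232222222222222a324222222222222a242) eT2 = true := by decide +kernel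

noncomputable def eT3 : Tl := (.split (nat_lit 3) (nat_lit 0) (.split (nat_lit 3) (nat_lit 1) (.split (nat_lit 3) (nat_lit 2) .uj (.split (nat_lit 3) (nat_lit 2) (.mt (nat_lit 8) (nat_lit 0x3210)) (.mt (nat_lit 0x12) (nat_lit 0x3210)))) (.split (nat_lit 3) (nat_lit 2) (.split (nat_lit 3) (nat_lit 1) (.mt (nat_lit 0x13) (nat_lit 0x3210)) (.non (nat_lit 0x45) (nat_lit 0x1000000010001))) (.non (nat_lit 0x54) (nat_lit 0x1000100010000)))) (.split (nat_lit 3) (nat_lit 1) (.split (nat_lit 3) (nat_lit 2) (.split (nat_lit 3) (nat_lit 0) (.mt (nat_lit 0x11) (nat_lit 0x321)) (.non (nat_lit 0x45) (nat_lit 0x1000000010001))) (.split (nat_lit 3) (nat_lit 0) (.mt (nat_lit 0x14) (nat_lit 0x3210)) (.non (nat_lit 0x45) (nat_lit 0x1000000010001)))) (.non (nat_lit 0x45) (nat_lit 0x1000000010001))))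

theorem eR_3 : eR (nat_lit 3) (nat_lit 0x2222222222222222222222222222222222222222222222222222222222222222222222222222222222222222222222222222222222222222222222222222222222222222222222222222222222222222222222222222222222222222222222222222222222222aaa222222222222a232222222222222a325222222222222a252) eT3 = true := by decide +kernel

noncomputable def eT4 : Tl := (.split (nat_lit 4) (nat_lit 0) (.split (nat_lit 4) (nat_lit 1) (.split (nat_lit 4) (nat_lit 2) (.split (nat_lit 4) (nat_lit 3) .uj (.split (nat_lit 4) (nat_lit 3) (.mt (nat_lit 9) (nat_lit 0x43210)) (.split (nat_lit 4) (nat_lit 3) (.mt (nat_lit 0xa) (nat_lit 0x1234)) (.split (nat_lit 4) (nat_lit 3) (.mt (nat_lit 0x15) (nat_lit 0x1234)) (.non (nat_lit 0x350) (nat_lit 0x10002000100000000)))))) (.split (nat_lit 4) (nat_lit 3) (.split (nat_lit 4) (nat_lit 2) (.mt (nat_lit 0xb) (nat_lit 0x10234)) (.non (nat_lit 0x254) (nat_lit 0x10001000200010000))) (.non (nat_lit 0x150) (nat_lit 0x10001000100000000)))) (.split (nat_lit 4) (nat_lit 2) (.split (nat_lit 4) (nat_lit 3) (.split (nat_lit 4) (nat_lit 1) (.mt (nat_lit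 0xb) (nat_lit 0x14320)) (.non (nat_lit 0x215) (nat_lit 0x10000000100020001))) (.non (nat_lit 0x154) (nat_lit 0x10001000100010000))) (.non (nat_lit 0x114) (nat_lit 0x10000000100010000)))) (.split (nat_lit 4) (nat_lit 1) (.split (nat_lit 4) (nat_lit 2) (.split (nat_lit 4) (nat_lit 3) (.split (nat_lit 4) (nat_lit 0) (.mt (nat_lit 9) (nat_lit 0x4321)) (.split (nat_lit 4) (nat_lit 0) (.mt (nat_lit 0xa) (nat_lit 0x4321)) (.split (nat_lit 4) (nat_lit 0) (.mt (nat_lit 0x15) (nat_lit 0x4321)) (.non (nat_lit 0x305) (nat_lit 0x10000000000010002))))) (.split (nat_lit 4) (nat_lit 0) (.split (nat_lit 4) (nat_lit 3) (.par (nat_lit 0x155) (nat_lit 0x10001000100010001)) (.split (nat_lit 4) (nat_lit 3) (.mt (nat_lit 0x17) (nat_lit 0x10432)) (.non (nat_lit 0x151) (nat_lit 0x20002000100000001)))) (.split (nat_lit 4) (nat_lit 0) (.split (nat_lit 4) (nat_lit 3) (.mt (nat_lit 0x17) (nat_lit 0x12340)) (.non (nat_lit 0x241) (nat_lit 0x10001000000000001))) (.non (nat_lit 0x145) (nat_lit 0x20001000000010002))))) (.non (nat_lit 0x115) (nat_lit 0x10000000100010001))) (.non (nat_lit 0x105)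 (nat_lit 0x10000000000010001))))

theorem eR_4 : eR (nat_lit 4) (nat_lit 0x22222222222222222222222222222222222222222222222222222222222222222222222222222222222222222222222222222222222222222222222222222222222222222222222222222222222222222222222222222222222222222222aaaa22222222222a232222222222222a323222222222222a232322222222222a2232) eT4 = true := by decide +kernel

noncomputable def eT5 : Tl := (.split (nat_lit 4) (nat_lit 0) (.split (nat_lit 4) (nat_lit 1) (.split (nat_lit 4) (nat_lit 2) (.split (nat_lit 4) (nat_lit 3) .uj (.split (nat_lit 4) (nat_lit 3) (.mt (nat_lit 0xa) (nat_lit 0x43210)) (.split (nat_lit 4) (nat_lit 3) (.par (nat_lit 0x1a9) (nat_lit 0x10001000100010001)) (.split (nat_lit 4) (nat_lit 3) (.mt (nat_lit 0x15) (nat_lit 0x1234)) (.non (nat_lit 0x350) (nat_lit 0x10002000100000000)))))) (.split (nat_lit 4) (nat_lit 3) (.split (nat_lit 4) (nat_lit 2) (.par (nat_lit 0x2a9) (nat_lit 0x10001000200020002)) (.non (nat_lit 0x129) (nat_lit 0x10000000100010001))) (.non (nat_lit 0x150) (nat_lit 0x10001000100000000)))) (.non (nat_lit 0x229) (nat_lit 0x10000000100020002)))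 (.split (nat_lit 4) (nat_lit 1) (.split (nat_lit 4) (nat_lit 2) (.split (nat_lit 4) (nat_lit 3) (.split (nat_lit 4) (nat_lit 0) (.par (nat_lit 0x1a9) (nat_lit 0x20001000200030004)) (.non (nat_lit 0x209) (nat_lit 0x10000000000010002))) (.split (nat_lit 4) (nat_lit 0) (.split (nat_lit 4) (nat_lit 3) (.mt (nat_lit 0x17) (nat_lit 0x43210)) (.non (nat_lit 0x189) (nat_lit 0x20001000000010002))) (.non (nat_lit 0x209) (nat_lit 0x10000000000010002)))) (.non (nat_lit 0x115) (nat_lit 0x10000000100010001))) (.non (nat_lit 0x105) (nat_lit 0x10000000000010001))))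

theorem eR_5 : eR (nat_lit 5) (nat_lit 0x22222222222222222222222222222222222222222222222222222222222222222222222222222222222222222222222222222222222222222222222222222222222222222222222222222222222222222222222222222222222222222222aaaa22222222222a232222222222222a323222222222222a232422222222222a2242) eT5 = true := by decide +kernel

noncomputable def eT6 : Tl := (.split (nat_lit 4) (nat_lit 0) (.split (nat_lit 4) (nat_lit 1) (.split (nat_lit 4) (nat_lit 2) (.split (nat_lit 4) (nat_lit 3) .uj (.split (nat_lit 4) (nat_lit 3) (.mt (nat_lit 0xb) (nat_lit 0x43102)) (.split (nat_lit 4) (nat_lit 3) (.par (nat_lit 0x255) (nat_lit 0x10002000100010002)) (.split (nat_lit 4) (nat_lit 3) (.mt (nat_lit 0x16) (nat_lit 0x1432)) (.non (nat_lit 0x341) (nat_lit 0x10002000000000001)))))) (.split (nat_lit 4) (nat_lit 3) (.split (nat_lit 4) (nat_lit 2) (.mt (nat_lit 0xb) (nat_lit 0x41302)) (.split (nat_lit 4) (nat_lit 2) (.par (nat_lit 0x255) (nat_lit 0x10001000200010002)) (.split (nat_lit 4) (nat_lit 2) (.mt (nat_lit 0x16) (nat_lit 0x4132)) (.non (nat_lit 0x311) (nat_lit 0x10000000200000001)))))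 (.non (nat_lit 0x151) (nat_lit 0x10001000100000001)))) (.split (nat_lit 4) (nat_lit 2) (.split (nat_lit 4) (nat_lit 3) (.split (nat_lit 4) (nat_lit 1) (.mt (nat_lit 0xb) (nat_lit 0x41032)) (.split (nat_lit 4) (nat_lit 1) (.par (nat_lit 0x255) (nat_lit 0x10001000100020002)) (.split (nat_lit 4) (nat_lit 1) (.mt (nat_lit 0x16) (nat_lit 0x4312)) (.non (nat_lit 0x305) (nat_lit 0x10000000000020001))))) (.non (nat_lit 0x145) (nat_lit 0x10001000000010001))) (.non (nat_lit 0x115) (nat_lit 0x10000000100010001)))) (.split (nat_lit 4) (nat_lit 1) (.split (nat_lit 4) (nat_lit 2) (.split (nat_lit 4) (nat_lit 3) (.split (nat_lit 4) (nat_lit 0) (.par (nat_lit 0x155) (nat_lit 0x10001000100010002)) (.non (nat_lit 0x215) (nat_lit 0x10000000100010002))) (.non (nat_lit 0x141) (nat_lit 0x10001000000000001))) (.non (nat_lit 0x111) (nat_lit 0x10000000100000001))) (.non (nat_lit 0x105) (nat_lit 0x10000000000010001))))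

theorem eR_6 : eR (nat_lit 6) (nat_lit 0x22222222222222222222222222222222222222222222222222222222222222222222222222222222222222222222222222222222222222222222222222222222222222222222222222222222222222222222222222222222222222222222aaaa22222222222a222322222222222a222322222222222a222322222222222a3332) eT6 = true := by decide +kernel

noncomputable def eT7 : Tl := (.split (nat_lit 4) (nat_lit 0) (.split (nat_lit 4) (nat_lit 1) (.split (nat_lit 4) (nat_lit 2) (.split (nat_lit 4) (nat_lit 3) .uj (.split (nat_lit 4) (nat_lit 3) (.par (nat_lit 0x2a5) (nat_lit 0x10002000300040002)) (.non (nat_lit 0x1a4) (nat_lit 0x10001000100010000)))) (.non (nat_lit 0x2a4) (nat_lit 0x10001000200020000))) (.non (nat_lit 0x125) (nat_lit 0x10000000100020001))) (.split (nat_lit 4) (nat_lit 1) (.split (nat_lit 4) (nat_lit 2) (.split (nat_lit 4) (nat_lit 3) (.split (nat_lit 4) (nat_lit 0) (.par (nat_lit 0x1a5) (nat_lit 0x10001000200030002)) (.non (nat_lit 0x225) (nat_lit 0x10000000100020002))) (.split (nat_lit 4) (nat_lit 0) (.split (nat_lit 4) (nat_lit 3) (.mt (nat_lit 0x17) (nat_lit 0x34012))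 (.non (nat_lit 0x1a4) (nat_lit 0x10001000100010000))) (.non (nat_lit 0x225) (nat_lit 0x10000000100020002)))) (.non (nat_lit 0x115) (nat_lit 0x10000000100010001))) (.non (nat_lit 0x105) (nat_lit 0x10000000000010001))))

theorem eR_7 : eR (nat_lit 7) (nat_lit 0x22222222222222222222222222222222222222222222222222222222222222222222222222222222222222222222222222222222222222222222222222222222222222222222222222222222222222222222222222222222222222222222aaaa22222222222a232222222222222a324222222222222a242322222222222a2232) eT7 = true := by decide +kernel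

noncomputable def eT8 : Tl := (.split (nat_lit 4) (nat_lit 0) (.split (nat_lit 4) (nat_lit 1) (.split (nat_lit 4) (nat_lit 2) (.split (nat_lit 4) (nat_lit 3) .uj (.mt (nat_lit 0x15) (nat_lit 0x43210))) (.split (nat_lit 4) (nat_lit 3) (.split (nat_lit 4) (nat_lit 2) (.mt (nat_lit 0x16) (nat_lit 0x43210)) (.non (nat_lit 0x115) (nat_lit 0x10000000100010001))) (.non (nat_lit 0x150) (nat_lit 0x10001000100000000)))) (.non (nat_lit 0x115) (nat_lit 0x10000000100020002))) (.non (nat_lit 0x115) (nat_lit 0x10000000100020002)))

theorem eR_8 : eR (nat_lit 8) (nat_lit 0x22222222222222222222222222222222222222222222222222222222222222222222222222222222222222222222222222222222222222222222222222222222222222222222222222222222222222222222222222222222222222222222aaaa22222222222a232222222222222a323222222222222a232522222222222a2252) eT8 = true := by decide +kernel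

theorem eR_all (e : ℕ) (he : e < 9) : ∃ c t, eR e c t = true := by
  interval_cases e
  · exact ⟨_, _, eR_0⟩
  · exact ⟨_, _, eR_1⟩
  · exact ⟨_, _, eR_2⟩
  · exact ⟨_, _, eR_3⟩
  · exact ⟨_, _, eR_4⟩
  · exact ⟨_, _, eR_5⟩
  · exact ⟨_, _, eR_6⟩
  · exact ⟨_, _, eR_7⟩
  · exact ⟨_, _, eR_8⟩

/-- the small diagrams are positive definite -/
theorem e_pd (e : ℕ) (he : e < 12) :
    ∃ Z par D, pdC (eC e) (adjM (eC e)) (full (eN e)) Z par D = true := by
  interval_cases e
  · exact ⟨(nat_lit 0x11), (nat_lit 1), (nat_lit 0x100001), by decide +kernel⟩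
  · exact ⟨(nat_lit 0), (nat_lit 0x100), (nat_lit 0xf423fb71aea2c28), by decide +kernel⟩
  · exact ⟨(nat_lit 0), (nat_lit 0x100), (nat_lit 0xf423fb71ae51612), by decide +kernel⟩
  · exact ⟨(nat_lit 0), (nat_lit 0x100), (nat_lit 0xf423fb71ae1f156), by decide +kernel⟩
  · exact ⟨(nat_lit 0), (nat_lit 0x2100), (nat_lit 0xf423fb71aea2c2898965), by decide +kernel⟩
  · exact ⟨(nat_lit 0), (nat_lit 0x2100), (nat_lit 0xf423fb71aea2c283d08b), by decide +kernel⟩
  · exact ⟨(nat_lit 0), (nat_lit 0), (nat_lit 0xf423ff423ff423f3d08c), by decide +kernel⟩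
  · exact ⟨(nat_lit 0), (nat_lit 0x2100), (nat_lit 0xf423fb71ae516123d087), by decide +kernel⟩
  · exact ⟨(nat_lit 0), (nat_lit 0x2100), (nat_lit 0xf423fb71aea2c2804737), by decide +kernel⟩
  · exact ⟨(nat_lit 0), (nat_lit 0x32100), (nat_lit 0xf423fb71aea2c2898965927bd), by decide +kernel⟩
  · exact ⟨(nat_lit 0), (nat_lit 0x32100), (nat_lit 0xf423fb71aea2c289896530d3b), by decide +kernel⟩
  · exact ⟨(nat_lit 0), (nat_lit 0x32020), (nat_lit 0xf423fb71ae65b97f423f61a79), by decide +kernel⟩

/-- the Lanner diagrams are not positive definite -/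
theorem l_npd (t : ℕ) (ht : t < 12) : ∃ s u, npd (lN t) (lC t) s u = true := by
  interval_cases t
  · exact ⟨(nat_lit 5), (nat_lit 0x10001), by decide +kernel⟩
  · exact ⟨(nat_lit 0x15), (nat_lit 0x200020001), by decide +kernel⟩
  · exact ⟨(nat_lit 0x15), (nat_lit 0x100010001), by decide +kernel⟩
  · exact ⟨(nat_lit 0x15), (nat_lit 0x100010001), by decide +kernel⟩
  · exact ⟨(nat_lit 0x15), (nat_lit 0x100010001), by decide +kernel⟩
  · exact ⟨(nat_lit 0x55), (nat_lit 0x1000200020001), by decide +kernel⟩
  · exact ⟨(nat_lit 0x55), (nat_lit 0x1000100010001), by decide +kernel⟩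
  · exact ⟨(nat_lit 0x55), (nat_lit 0x1000100020002), by decide +kernel⟩
  · exact ⟨(nat_lit 0x55), (nat_lit 0x1000100010001), by decide +kernel⟩
  · exact ⟨(nat_lit 0x155), (nat_lit 0x10002000300040003), by decide +kernel⟩
  · exact ⟨(nat_lit 0x155), (nat_lit 0x10001000200020002), by decide +kernel⟩
  · exact ⟨(nat_lit 0x155), (nat_lit 0x10001000100010001), by decide +kernel⟩

/-- `E6`, `E7`, `E8`: node `0` is attached to node `3` of the path `1, ..., k - 1` -/
theorem E_pd (k : ℕ) (h6 : 6 ≤ k) (h8 : k ≤ 8) : ∃ c par D,
    (∀ a < 16, ∀ b < 16, a < b → cd c a b = (if b < k then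
      (if a = 0 then (if b = 3 then 3 else 2) else if b = a + 1 then 3 else 2) else 2)) ∧
    (∀ a < 16, ∀ b < 16, cd c a b = cd c b a) ∧ (∀ a < 16, cd c a a = 2) ∧
    pdC c (adjM c) (full k) 0 par D = true := by
  interval_cases k
  · exact ⟨(nat_lit 0x2222222222222222222222222222222222222222222222222222222222222222222222222222222222222222222222222222222222222222222222222222222222222222222222222222222222222222222222222223222222222222223232222222222222232323222222222222323222222222222223222222222222223222), (nat_lit 0x430320), (nat_lit 0xf423fb71ae51611b71aef423f3d085), by decide +kernel, by decide +kernel, by decide +kernel, by decide +kernel⟩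
  · exact ⟨(nat_lit 0x2222222222222222222222222222222222222222222222222222222222222222222222222222222222222222222222222222222222222222222222222222222222222222222222222222222222322222222222222323222222222222223232222222222222232323222222222222323222222222222223222222222222223222), (nat_lit 0x5430320), (nat_lit 0xf423fb71aea2c284734eb71aef423f22dfa), by decide +kernel, by decide +kernel, by decide +kernel, by decide +kernel⟩
  · exact ⟨(nat_lit 0x2222222222222222222222222222222222222222222222222222222222222222222222222222222222222222222222222222222222222222222222222222222222222222232222222222222232322222222222222323222222222222223232222222222222232323222222222222323222222222222223222222222222223222), (nat_lit 0x65430320), (nat_lit 0xf423fb71aea2c2898965411a6b71aef423f0f412), by decide +kernel, by decide +kernel, by decide +kernel, by decide +kernel⟩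

/-- the matrices agree with the tables -/
theorem eC_spec (e : ℕ) (he : e < 12) (a b : ℕ) (ha : a < 16) (hb : b < 16) :
    cd (eC e) a b = if a < eN e ∧ b < eN e then eP e a b else 2 := by
  have h : ∀ e < 12, ∀ a < 16, ∀ b < 16,
      cd (eC e) a b = if a < eN e ∧ b < eN e then eP e a b else 2 := by decide +kernel
  exact h e he a ha b hb

theorem lC_spec (t : ℕ) (ht : t < 12) (a b : ℕ) (ha : a < 16) (hb : b < 16) :
    cd (lC t) a b = if a < lN t ∧ b < lN t then lP t a b else 2 := by
  have h : ∀ t < 12, ∀ a < 16, ∀ b < 16,
      cd (lC t) a b = if a < lN t ∧ b < lN t then lP t a b else 2 := by decide +kernel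
  exact h t ht a ha b hb

end MP86a502
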