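import Mathlib

set_option autoImplicit false
set_option linter.unusedVariables false

/-! # The certificate checker

All functions are written so that the kernel evaluates them quickly.
Nodes are numbers `< 16`. Sets of nodes are numbers: node `a` is the bit `4 * a`.
Matrices of 4-bit numbers: entry `a, b` starts at the bit `64 * a + 4 * b`. -/

namespace MP86a502

noncomputable def bcB (c : Bool) (t e : Bool) : Bool := Bool.rec e t c

noncomputable def bcN (c : Bool) (t e : ℕ) : ℕ := Bool.rec e t c

/-- sum over `a < 16` -/
noncomputable def sum16 (f : ℕ → ℕ) : ℕ :=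
  Nat.add (f (nat_lit 0)) (Nat.add (f (nat_lit 1)) (Nat.add (f (nat_lit 2)) (Nat.add (f (nat_lit 3)) (Nat.add (f (nat_lit 4)) (Nat.add (f (nat_lit 5)) (Nat.add (f (nat_lit 6)) (Nat.add (f (nat_lit 7)) (Nat.add (f (nat_lit 8)) (Nat.add (f (nat_lit 9)) (Nat.add (f (nat_lit 10)) (Nat.add (f (nat_lit 11)) (Nat.add (f (nat_lit 12)) (Nat.add (f (nat_lit 13)) (Nat.add (f (nat_lit 14)) (f (nat_lit 15))))))))))))))))

/-- conjunction over `a < 16` -/
noncomputable def all16 (f : ℕ → Bool) : Bool :=
  bcB (f (nat_lit 0)) (bcB (f (nat_lit 1)) (bcB (f (nat_lit 2)) (bcB (f (nat_lit 3)) (bcB (f (nat_lit 4)) (bcB (f (nat_lit 5)) (bcB (f (nat_lit 6)) (bcB (f (nat_lit 7)) (bcB (f (nat_lit 8)) (bcB (f (nat_lit 9)) (bcB (f (nat_lit 10)) (bcB (f (nat_lit 11)) (bcB (f (nat_lit 12)) (bcB (f (nat_lit 13)) (bcB (f (nat_lit 14)) (f (nat_lit 15)) false) false) false) false) false) false) false) false) false) false) false) false) false) false) false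

/-- disjunction over `a < 16` -/
noncomputable def any16 (f : ℕ → Bool) : Bool :=
  bcB (f (nat_lit 0)) true (bcB (f (nat_lit 1)) true (bcB (f (nat_lit 2)) true (bcB (f (nat_lit 3)) true (bcB (f (nat_lit 4)) true (bcB (f (nat_lit 5)) true (bcB (f (nat_lit 6)) true (bcB (f (nat_lit 7)) true (bcB (f (nat_lit 8)) true (bcB (f (nat_lit 9)) true (bcB (f (nat_lit 10)) true (bcB (f (nat_lit 11)) true (bcB (f (nat_lit 12)) true (bcB (f (nat_lit 13)) true (bcB (f (nat_lit 14)) true (f (nat_lit 15))))))))))))))))

/-- bitwise or over `a < 16` -/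
noncomputable def or16 (f : ℕ → ℕ) : ℕ :=
  Nat.lor (f (nat_lit 0)) (Nat.lor (f (nat_lit 1)) (Nat.lor (f (nat_lit 2)) (Nat.lor (f (nat_lit 3)) (Nat.lor (f (nat_lit 4)) (Nat.lor (f (nat_lit 5)) (Nat.lor (f (nat_lit 6)) (Nat.lor (f (nat_lit 7)) (Nat.lor (f (nat_lit 8)) (Nat.lor (f (nat_lit 9)) (Nat.lor (f (nat_lit 10)) (Nat.lor (f (nat_lit 11)) (Nat.lor (f (nat_lit 12)) (Nat.lor (f (nat_lit 13)) (Nat.lor (f (nat_lit 14)) (f (nat_lit 15))))))))))))))))

noncomputable def low0 (f : ℕ → ℕ) : ℕ := nat_lit 0
noncomputable def low1 (f : ℕ → ℕ) : ℕ := f (nat_lit 0)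
noncomputable def low2 (f : ℕ → ℕ) : ℕ := Nat.add (f (nat_lit 0)) (f (nat_lit 1))
noncomputable def low3 (f : ℕ → ℕ) : ℕ := Nat.add (f (nat_lit 0)) (Nat.add (f (nat_lit 1)) (f (nat_lit 2)))
noncomputable def low4 (f : ℕ → ℕ) : ℕ := Nat.add (f (nat_lit 0)) (Nat.add (f (nat_lit 1)) (Nat.add (f (nat_lit 2)) (f (nat_lit 3))))
noncomputable def low5 (f : ℕ → ℕ) : ℕ := Nat.add (f (nat_lit 0)) (Nat.add (f (nat_lit 1)) (Nat.add (f (nat_lit 2)) (Nat.add (f (nat_lit 3)) (f (nat_lit 4)))))
noncomputable def low6 (f : ℕ → ℕ) : ℕ := Nat.add (f (nat_lit 0)) (Nat.add (f (nat_lit 1)) (Nat.add (f (nat_lit 2)) (Nat.add (f (nat_lit 3)) (Nat.add (f (nat_lit 4)) (f (nat_lit 5))))))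
noncomputable def low7 (f : ℕ → ℕ) : ℕ := Nat.add (f (nat_lit 0)) (Nat.add (f (nat_lit 1)) (Nat.add (f (nat_lit 2)) (Nat.add (f (nat_lit 3)) (Nat.add (f (nat_lit 4)) (Nat.add (f (nat_lit 5)) (f (nat_lit 6)))))))
noncomputable def low8 (f : ℕ → ℕ) : ℕ := Nat.add (f (nat_lit 0)) (Nat.add (f (nat_lit 1)) (Nat.add (f (nat_lit 2)) (Nat.add (f (nat_lit 3)) (Nat.add (f (nat_lit 4)) (Nat.add (f (nat_lit 5)) (Nat.add (f (nat_lit 6)) (f (nat_lit 7))))))))
noncomputable def low9 (f : ℕ → ℕ) : ℕ := Nat.add (f (nat_lit 0)) (Nat.add (f (nat_lit 1)) (Nat.add (f (nat_lit 2)) (Nat.add (f (nat_lit 3)) (Nat.add (f (nat_lit 4)) (Nat.add (f (nat_lit 5)) (Nat.add (f (nat_lit 6)) (Nat.add (f (nat_lit 7)) (f (nat_lit 8)))))))))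
noncomputable def low10 (f : ℕ → ℕ) : ℕ := Nat.add (f (nat_lit 0)) (Nat.add (f (nat_lit 1)) (Nat.add (f (nat_lit 2)) (Nat.add (f (nat_lit 3)) (Nat.add (f (nat_lit 4)) (Nat.add (f (nat_lit 5)) (Nat.add (f (nat_lit 6)) (Nat.add (f (nat_lit 7)) (Nat.add (f (nat_lit 8)) (f (nat_lit 9))))))))))
noncomputable def low11 (f : ℕ → ℕ) : ℕ := Nat.add (f (nat_lit 0)) (Nat.add (f (nat_lit 1)) (Nat.add (f (nat_lit 2)) (Nat.add (f (nat_lit 3)) (Nat.add (f (nat_lit 4)) (Nat.add (f (nat_lit 5)) (Nat.add (f (nat_lit 6)) (Nat.add (f (nat_lit 7)) (Nat.add (f (nat_lit 8)) (Nat.add (f (nat_lit 9)) (f (nat_lit 10)))))))))))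
noncomputable def low12 (f : ℕ → ℕ) : ℕ := Nat.add (f (nat_lit 0)) (Nat.add (f (nat_lit 1)) (Nat.add (f (nat_lit 2)) (Nat.add (f (nat_lit 3)) (Nat.add (f (nat_lit 4)) (Nat.add (f (nat_lit 5)) (Nat.add (f (nat_lit 6)) (Nat.add (f (nat_lit 7)) (Nat.add (f (nat_lit 8)) (Nat.add (f (nat_lit 9)) (Nat.add (f (nat_lit 10)) (f (nat_lit 11))))))))))))
noncomputable def low13 (f : ℕ → ℕ) : ℕ := Nat.add (f (nat_lit 0)) (Nat.add (f (nat_lit 1)) (Nat.add (f (nat_lit 2)) (Nat.add (f (nat_lit 3)) (Nat.add (f (nat_lit 4)) (Nat.add (f (nat_lit 5)) (Nat.add (f (nat_lit 6)) (Nat.add (f (nat_lit 7)) (Nat.add (f (nat_lit 8)) (Nat.add (f (nat_lit 9)) (Nat.add (f (nat_lit 10)) (Nat.add (f (nat_lit 11)) (f (nat_lit 12)))))))))))))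
noncomputable def low14 (f : ℕ → ℕ) : ℕ := Nat.add (f (nat_lit 0)) (Nat.add (f (nat_lit 1)) (Nat.add (f (nat_lit 2)) (Nat.add (f (nat_lit 3)) (Nat.add (f (nat_lit 4)) (Nat.add (f (nat_lit 5)) (Nat.add (f (nat_lit 6)) (Nat.add (f (nat_lit 7)) (Nat.add (f (nat_lit 8)) (Nat.add (f (nat_lit 9)) (Nat.add (f (nat_lit 10)) (Nat.add (f (nat_lit 11)) (Nat.add (f (nat_lit 12)) (f (nat_lit 13))))))))))))))
noncomputable def low15 (f : ℕ → ℕ) : ℕ := Nat.add (f (nat_lit 0)) (Nat.add (f (nat_lit 1)) (Nat.add (f (nat_lit 2)) (Nat.add (f (nat_lit 3)) (Nat.add (f (nat_lit 4)) (Nat.add (f (nat_lit 5)) (Nat.add (f (nat_lit 6)) (Nat.add (f (nat_lit 7)) (Nat.add (f (nat_lit 8)) (Nat.add (f (nat_lit 9)) (Nat.add (f (nat_lit 10)) (Nat.add (f (nat_lit 11)) (Nat.add (f (nat_lit 12)) (Nat.add (f (nat_lit 13)) (f (nat_lit 14)))))))))))))))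

noncomputable def alo0 (f : ℕ → Bool) : Bool := true
noncomputable def alo1 (f : ℕ → Bool) : Bool := f (nat_lit 0)
noncomputable def alo2 (f : ℕ → Bool) : Bool := bcB (f (nat_lit 0)) (f (nat_lit 1)) false
noncomputable def alo3 (f : ℕ → Bool) : Bool := bcB (f (nat_lit 0)) (bcB (f (nat_lit 1)) (f (nat_lit 2)) false) false
noncomputable def alo4 (f : ℕ → Bool) : Bool := bcB (f (nat_lit 0)) (bcB (f (nat_lit 1)) (bcB (f (nat_lit 2)) (f (nat_lit 3)) false) false) false
noncomputable def alo5 (f : ℕ → Bool) : Bool := bcB (f (nat_lit 0)) (bcB (f (nat_lit 1)) (bcB (f (nat_lit 2)) (bcB (f (nat_lit 3)) (f (nat_lit 4)) false) false) false) false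
noncomputable def alo6 (f : ℕ → Bool) : Bool := bcB (f (nat_lit 0)) (bcB (f (nat_lit 1)) (bcB (f (nat_lit 2)) (bcB (f (nat_lit 3)) (bcB (f (nat_lit 4)) (f (nat_lit 5)) false) false) false) false) false
noncomputable def alo7 (f : ℕ → Bool) : Bool := bcB (f (nat_lit 0)) (bcB (f (nat_lit 1)) (bcB (f (nat_lit 2)) (bcB (f (nat_lit 3)) (bcB (f (nat_lit 4)) (bcB (f (nat_lit 5)) (f (nat_lit 6)) false) false) false) false) false) false
noncomputable def alo8 (f : ℕ → Bool) : Bool := bcB (f (nat_lit 0)) (bcB (f (nat_lit 1)) (bcB (f (nat_lit 2)) (bcB (f (nat_lit 3)) (bcB (f (nat_lit 4)) (bcB (f (nat_lit 5)) (bcB (f (nat_lit 6)) (f (nat_lit 7)) false) false) false) false) false) false) false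
noncomputable def alo9 (f : ℕ → Bool) : Bool := bcB (f (nat_lit 0)) (bcB (f (nat_lit 1)) (bcB (f (nat_lit 2)) (bcB (f (nat_lit 3)) (bcB (f (nat_lit 4)) (bcB (f (nat_lit 5)) (bcB (f (nat_lit 6)) (bcB (f (nat_lit 7)) (f (nat_lit 8)) false) false) false) false) false) false) false) false
noncomputable def alo10 (f : ℕ → Bool) : Bool := bcB (f (nat_lit 0)) (bcB (f (nat_lit 1)) (bcB (f (nat_lit 2)) (bcB (f (nat_lit 3)) (bcB (f (nat_lit 4)) (bcB (f (nat_lit 5)) (bcB (f (nat_lit 6)) (bcB (f (nat_lit 7)) (bcB (f (nat_lit 8)) (f (nat_lit 9)) false) false) false) false) false) false) false) false) false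
noncomputable def alo11 (f : ℕ → Bool) : Bool := bcB (f (nat_lit 0)) (bcB (f (nat_lit 1)) (bcB (f (nat_lit 2)) (bcB (f (nat_lit 3)) (bcB (f (nat_lit 4)) (bcB (f (nat_lit 5)) (bcB (f (nat_lit 6)) (bcB (f (nat_lit 7)) (bcB (f (nat_lit 8)) (bcB (f (nat_lit 9)) (f (nat_lit 10)) false) false) false) false) false) false) false) false) false) false
noncomputable def alo12 (f : ℕ → Bool) : Bool := bcB (f (nat_lit 0)) (bcB (f (nat_lit 1)) (bcB (f (nat_lit 2)) (bcB (f (nat_lit 3)) (bcB (f (nat_lit 4)) (bcB (f (nat_lit 5)) (bcB (f (nat_lit 6)) (bcB (f (nat_lit 7)) (bcB (f (nat_lit 8)) (bcB (f (nat_lit 9)) (bcB (f (nat_lit 10)) (f (nat_lit 11)) false) false) false) false) false) false) false) false) false) false) false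
noncomputable def alo13 (f : ℕ → Bool) : Bool := bcB (f (nat_lit 0)) (bcB (f (nat_lit 1)) (bcB (f (nat_lit 2)) (bcB (f (nat_lit 3)) (bcB (f (nat_lit 4)) (bcB (f (nat_lit 5)) (bcB (f (nat_lit 6)) (bcB (f (nat_lit 7)) (bcB (f (nat_lit 8)) (bcB (f (nat_lit 9)) (bcB (f (nat_lit 10)) (bcB (f (nat_lit 11)) (f (nat_lit 12)) false) false) false) false) false) false) false) false) false) false) false) false
noncomputable def alo14 (f : ℕ → Bool) : Bool := bcB (f (nat_lit 0)) (bcB (f (nat_lit 1)) (bcB (f (nat_lit 2)) (bcB (f (nat_lit 3)) (bcB (f (nat_lit 4)) (bcB (f (nat_lit 5)) (bcB (f (nat_lit 6)) (bcB (f (nat_lit 7)) (bcB (f (nat_lit 8)) (bcB (f (nat_lit 9)) (bcB (f (nat_lit 10)) (bcB (f (nat_lit 11)) (bcB (f (nat_lit 12)) (f (nat_lit 13)) false) false) false) false) false) false) false) false) false) false) false) false) false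
noncomputable def alo15 (f : ℕ → Bool) : Bool := bcB (f (nat_lit 0)) (bcB (f (nat_lit 1)) (bcB (f (nat_lit 2)) (bcB (f (nat_lit 3)) (bcB (f (nat_lit 4)) (bcB (f (nat_lit 5)) (bcB (f (nat_lit 6)) (bcB (f (nat_lit 7)) (bcB (f (nat_lit 8)) (bcB (f (nat_lit 9)) (bcB (f (nat_lit 10)) (bcB (f (nat_lit 11)) (bcB (f (nat_lit 12)) (bcB (f (nat_lit 13)) (f (nat_lit 14)) false) false) false) false) false) false) false) false) false) false) false) false) false) false

/-- `∑ i < 16, if p i then G i (∑ j < i, F i j)` -/
noncomputable def tri (p : ℕ → Bool) (G : ℕ → ℕ → ℕ) (F : ℕ → ℕ → ℕ) : ℕ :=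
  Nat.add (bcN (p (nat_lit 0)) (G (nat_lit 0) (low0 (F (nat_lit 0)))) (nat_lit 0)) (Nat.add (bcN (p (nat_lit 1)) (G (nat_lit 1) (low1 (F (nat_lit 1)))) (nat_lit 0)) (Nat.add (bcN (p (nat_lit 2)) (G (nat_lit 2) (low2 (F (nat_lit 2)))) (nat_lit 0)) (Nat.add (bcN (p (nat_lit 3)) (G (nat_lit 3) (low3 (F (nat_lit 3)))) (nat_lit 0)) (Nat.add (bcN (p (nat_lit 4)) (G (nat_lit 4) (low4 (F (nat_lit 4)))) (nat_lit 0)) (Nat.add (bcN (p (nat_lit 5)) (G (nat_lit 5) (low5 (F (nat_lit 5)))) (nat_lit 0)) (Nat.add (bcN (p (nat_lit 6)) (G (nat_lit 6) (low6 (F (nat_lit 6)))) (nat_lit 0)) (Nat.add (bcN (p (nat_lit 7)) (G (nat_lit 7) (low7 (F (nat_lit 7)))) (nat_lit 0)) (Nat.add (bcN (p (nat_lit 8)) (G (nat_lit 8) (low8 (F (nat_lit 8)))) (nat_lit 0)) (Nat.add (bcN (p (nat_lit 9)) (G (nat_lit 9) (low9 (F (nat_lit 9)))) (nat_lit 0)) (Nat.add (bcN (p (nat_lit 10)) (G (nat_lit 10) (low10 (F (nat_lit 10)))) (nat_lit 0)) (Nat.add (bcN (p (nat_lit 11)) (G (nat_lit 11) (low11 (F (nat_lit 11)))) (nat_lit 0)) (Nat.add (bcN (p (nat_lit 12)) (G (nat_lit 12) (low12 (F (nat_lit 12)))) (nat_lit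 0)) (Nat.add (bcN (p (nat_lit 13)) (G (nat_lit 13) (low13 (F (nat_lit 13)))) (nat_lit 0)) (Nat.add (bcN (p (nat_lit 14)) (G (nat_lit 14) (low14 (F (nat_lit 14)))) (nat_lit 0)) (bcN (p (nat_lit 15)) (G (nat_lit 15) (low15 (F (nat_lit 15)))) (nat_lit 0))))))))))))))))

/-- conjunction over `j < i < 16` with `p i` -/
noncomputable def atri (p : ℕ → Bool) (F : ℕ → ℕ → Bool) : Bool :=
  bcB (bcB (p (nat_lit 0)) (alo0 (F (nat_lit 0))) true) (bcB (bcB (p (nat_lit 1)) (alo1 (F (nat_lit 1))) true) (bcB (bcB (p (nat_lit 2)) (alo2 (F (nat_lit 2))) true) (bcB (bcB (p (nat_lit 3)) (alo3 (F (nat_lit 3))) true) (bcB (bcB (p (nat_lit 4)) (alo4 (F (nat_lit 4))) true) (bcB (bcB (p (nat_lit 5)) (alo5 (F (nat_lit 5))) true) (bcB (bcB (p (nat_lit 6)) (alo6 (F (nat_lit 6))) true) (bcB (bcB (p (nat_lit 7)) (alo7 (F (nat_lit 7))) true) (bcB (bcB (p (nat_lit 8)) (alo8 (F (nat_lit 8))) true) (bcB (bcB (p (nat_lit 9)) (alo9 (F (nat_lit 9))) true) (bcB (bcB (p (nat_lit 10)) (alo10 (F (nat_lit 10))) true) (bcB (bcB (p (nat_lit 11)) (alo11 (F (nat_lit 11))) true) (bcB (bcB (p (nat_lit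 12)) (alo12 (F (nat_lit 12))) true) (bcB (bcB (p (nat_lit 13)) (alo13 (F (nat_lit 13))) true) (bcB (bcB (p (nat_lit 14)) (alo14 (F (nat_lit 14))) true) (bcB (p (nat_lit 15)) (alo15 (F (nat_lit 15))) true) false) false) false) false) false) false) false) false) false) false) false) false) false) false) false

/-- the set `{a}` -/
def bit (a : ℕ) : ℕ := Nat.shiftLeft (nat_lit 1) (Nat.mul (nat_lit 4) a)

/-- membership of the node `a` -/
def bt (M a : ℕ) : Bool :=
  Nat.beq (Nat.land (Nat.shiftRight M (Nat.mul (nat_lit 4) a)) (nat_lit 1)) (nat_lit 1)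

/-- row of a matrix -/
def row (M a : ℕ) : ℕ := Nat.land (Nat.shiftRight M (Nat.mul (nat_lit 64) a)) (nat_lit 0xFFFFFFFFFFFFFFFF)

/-- 16-bit digit -/
def dg (u a : ℕ) : ℕ := Nat.land (Nat.shiftRight u (Nat.mul (nat_lit 16) a)) (nat_lit 65535)

/-- 4-bit digit -/
def nb (p a : ℕ) : ℕ := Nat.land (Nat.shiftRight p (Nat.mul (nat_lit 4) a)) (nat_lit 15)

/-- 20-bit digit -/
def dv (D a : ℕ) : ℕ := Nat.land (Nat.shiftRight D (Nat.mul (nat_lit 20) a)) (nat_lit 1048575)

/-- 2-bit digit -/
def sv (s a : ℕ) : ℕ := Nat.land (Nat.shiftRight s (Nat.mul (nat_lit 2) a)) (nat_lit 3)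

/-- position of the entry `a, b` -/
def pos (a b : ℕ) : ℕ := Nat.add (Nat.mul (nat_lit 64) a) (Nat.mul (nat_lit 4) b)

/-- entry of a matrix of codes -/
def cd (c a b : ℕ) : ℕ := Nat.land (Nat.shiftRight c (pos a b)) (nat_lit 15)

/-- change the entries `a, b` and `b, a` by `v` -/
def up (c a b v : ℕ) : ℕ :=
  Nat.xor (Nat.xor c (Nat.shiftLeft v (pos a b))) (Nat.shiftLeft v (pos b a))

/-- the nonzero entries of a matrix -/
def fold (x : ℕ) : ℕ :=
  Nat.land (Nat.lor (Nat.lor x (Nat.shiftRight x (nat_lit 1)))
    (Nat.lor (Nat.shiftRight x (nat_lit 2)) (Nat.shiftRight x (nat_lit 3)))) (nat_lit 0x1111111111111111111111111111111111111111111111111111111111111111111111111111111111111111111111111111111111111111111111111111111111111111111111111111111111111111111111111111111111111111111111111111111111111111111111111111111111111111111111111111111111111111)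

/-- adjacency matrix: entries different from 2 -/
def adjM (c : ℕ) : ℕ := fold (Nat.xor c (nat_lit 0x2222222222222222222222222222222222222222222222222222222222222222222222222222222222222222222222222222222222222222222222222222222222222222222222222222222222222222222222222222222222222222222222222222222222222222222222222222222222222222222222222222222222222222))

/-- no entry is 10 -/
def noP (c : ℕ) : Bool := Nat.beq (fold (Nat.xor c (nat_lit 0xAAAAAAAAAAAAAAAAAAAAAAAAAAAAAAAAAAAAAAAAAAAAAAAAAAAAAAAAAAAAAAAAAAAAAAAAAAAAAAAAAAAAAAAAAAAAAAAAAAAAAAAAAAAAAAAAAAAAAAAAAAAAAAAAAAAAAAAAAAAAAAAAAAAAAAAAAAAAAAAAAAAAAAAAAAAAAAAAAAAAAAAAAAAAAAAAAAAAAAAAAAAAAAAAAAAAAAAAAAAAAAAAAAAAAAAAAAAAAAAAAAAAAAAAAAAAAAAA))) (nat_lit 0x1111111111111111111111111111111111111111111111111111111111111111111111111111111111111111111111111111111111111111111111111111111111111111111111111111111111111111111111111111111111111111111111111111111111111111111111111111111111111111111111111111111111111111)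

/-- lower table: entry `16*(4*s+t)+code`, 24 bits -/
def eL (s t k : ℕ) : ℕ :=
  Nat.land (Nat.shiftRight (nat_lit 0x293e3a27a4bc2508aa205e6816e3600000000000002dc6c0293e3a27a4bc2508aa205e6816e36000000000000000000021acc1205e681e3cee1a6dd212b02800000000000025605121acc1205e681e3cee1a6dd212b02800000000000000000017cfcb16e3601561aa12b0280d36e90000000000001a6dd217cfcb16e3601561aa12b0280d36e900000000000000000000000000000000000000000000000000000000000000000000000000000000000000000000000000000000000000000021acc1205e681e3cee1a6dd212b02800000000000025605121acc1205e681e3cee1a6dd212b0280000000000000000001b7ed11a6dd218b0711594450f42400000000000001e84801b7ed11a6dd218b0711594450f424000000000000000000013713212b02811753a0f42400aca2200000000000015944513713212b02811753a0f42400aca2200000000000000000000000000000000000000000000000000000000000000000000000000000000000000000000000000000000000000000017cfcb16e3601561aa12b0280d36e90000000000001a6dd217cfcb16e3601561aa12b0280d36e900000000000000000013713212b02811753a0f42400aca2200000000000015944513713212b02811753a0f42400aca22000000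0000000000000dbf680d36e90c58380aca2207a1200000000000000f42400dbf680d36e90c58380aca2207a120000000000000000000000000000000000000000000000000000000000000000000000000000000000000000000000000000000000000000000000000000000000000000000000000000000000000000000000000000000000000000000000000000000000000000000000000000000000000000000000000000000000000000000000000000000000000000000000000000000000000000000000000000000000000000000000000000000000000000000000000000000000000000000000000000000000000000000000000000000000000000000000000000000000000000000000000000000000000000000000000000000000000000000) (Nat.mul (nat_lit 24)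
    (Nat.add (Nat.mul (nat_lit 16) (Nat.add (Nat.mul (nat_lit 4) s) t)) k))) (nat_lit 16777215)

/-- upper table -/
def eU (s t k : ℕ) : ℕ :=
  Nat.land (Nat.shiftRight (nat_lit 0x2dc6c02dc6c02dc6c02dc6c02dc6c02dc6c00000000000002dc6c027a4bd2508ab205e6916e360000000000000000000256052256052256052256052256052256052000000000000256052205e691e3cef1a6dd312b0290000000000000000001a6dd31a6dd31a6dd31a6dd31a6dd31a6dd30000000000001a6dd316e3601561ab12b0290d36ea000000000000000000000000000000000000000000000000000000000000000000000000000000000000000000000000000000000000000000256052256052256052256052256052256052000000000000256052205e691e3cef1a6dd312b0290000000000000000001e84801e84801e84801e84801e84801e84800000000000001e84801a6dd318b0721594460f424000000000000000000015944615944615944615944615944615944600000000000015944612b02911753b0f42400aca230000000000000000000000000000000000000000000000000000000000000000000000000000000000000000000000000000000000000000001a6dd31a6dd31a6dd31a6dd31a6dd31a6dd30000000000001a6dd316e3601561ab12b0290d36ea0000000000000000001594461594461594461594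4615944615944600000000000015944612b02911753b0f42400aca230000000000000000000f42400f42400f42400f42400f42400f42400000000000000f42400d36ea0c58390aca2307a120000000000000000000000000000000000000000000000000000000000000000000000000000000000000000000000000000000000000000000000000000000000000000000000000000000000000000000000000000000000000000000000000000000000000000000000000000000000000000000000000000000000000000000000000000000000000000000000000000000000000000000000000000000000000000000000000000000000000000000000000000000000000000000000000000000000000000000000000000000000000000000000000000000000000000000000000000000000000000000000000000000000000000000) (Nat.mul (nat_lit 24)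
    (Nat.add (Nat.mul (nat_lit 16) (Nat.add (Nat.mul (nat_lit 4) s) t)) k))) (nat_lit 16777215)

/-- upper bound for `10^6 g^2` -/
def gU (k : ℕ) : ℕ :=
  Nat.land (Nat.shiftRight (nat_lit 0x1e84801e84801e84801e84801e84801e84801e84801e84801e84800b71b009fcad07a12003d0901e84801e84801e8480) (Nat.mul (nat_lit 24) k)) (nat_lit 16777215)

/-- nonzero coefficient -/
noncomputable def nz (u a : ℕ) : Bool := Nat.ble (nat_lit 1) (dg u a)

/-- diagonal part -/
noncomputable def qD (s u : ℕ) : ℕ :=
  sum16 (fun a => bcN (nz u a) (Nat.mul (sv s a) (Nat.mul (dg u a) (dg u a))) (nat_lit 0))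

/-- off-diagonal part (each pair once) -/
noncomputable def qO (c s u : ℕ) : ℕ :=
  tri (nz u) (fun a x => Nat.mul (dg u a) x) (fun a b => bcN (nz u b)
    (Nat.mul (dg u b) (eL (sv s a) (sv s b) (cd c a b))) (nat_lit 0))

/-- `u` is supported on the nodes `< m` -/
def su (m u : ℕ) : Bool := Nat.beq (Nat.shiftRight u (Nat.mul (nat_lit 16) m)) (nat_lit 0)

/-- certificate that the support of `u` is not positive definite -/
noncomputable def npd (m c s u : ℕ) : Bool :=
  bcB (su m u) (bcB (Nat.ble (nat_lit 1) (qD s u))
    (Nat.ble (Nat.mul (nat_lit 1000000) (qD s u)) (Nat.mul (nat_lit 2) (qO c s u))) false) false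

/-- the same with one more node `z`, with coefficient `w` and scale `r`, adjacent to the node `n` -/
noncomputable def npdz (m c s u n r w : ℕ) : Bool :=
  bcB (su m u) (bcB (Nat.ble (nat_lit 1) w) (bcB (Nat.ble (nat_lit 1) r)
    (bcB (Nat.ble r (nat_lit 3))
      (Nat.ble (Nat.mul (nat_lit 1000000) (Nat.add (qD s u) (Nat.mul r (Nat.mul w w))))
        (Nat.mul (nat_lit 2) (Nat.add (qO c s u)
          (Nat.mul w (Nat.mul (dg u n) (eL r (sv s n) (nat_lit 11)))))))
      false) false) false) false

/-- value of `-10^6 Q(u)` from below, all scales one -/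
noncomputable def vQ (c u : ℕ) : ℕ :=
  Nat.sub (Nat.mul (nat_lit 2) (qO c (nat_lit 0x55555555) u))
    (Nat.mul (nat_lit 1000000) (qD (nat_lit 0x55555555) u))

/-- upper bound for the mixed term of `u`, `w` -/
noncomputable def mixU (c u w : ℕ) : ℕ :=
  sum16 (fun a => bcN (nz u a) (Nat.mul (dg u a) (sum16 (fun b => bcN (nz w b)
    (Nat.mul (dg w b) (eU (nat_lit 1) (nat_lit 1) (cd c a b))) (nat_lit 0)))) (nat_lit 0))

/-- disjoint supports, and no dotted edge between them -/
noncomputable def sepC (c u w : ℕ) : Bool :=
  all16 (fun a => bcB (nz u a) (bcB (nz w a) false (all16 (fun b => bcB (nz w b)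
    (bcB (Nat.beq (cd c a b) (nat_lit 8)) false true) true))) true)

/-- superhyperbolic -/
noncomputable def supC (m c u w : ℕ) : Bool :=
  bcB (su m u) (bcB (su m w) (bcB (sepC c u w)
    (Nat.ble (Nat.add (Nat.mul (mixU c u w) (mixU c u w)) (nat_lit 1))
      (Nat.mul (vQ c u) (vQ c w))) false) false) false

/-- no edges between the supports -/
noncomputable def unjC (c u w : ℕ) : Bool :=
  all16 (fun a => bcB (nz u a) (bcB (nz w a) false (all16 (fun b => bcB (nz w b)
    (Nat.beq (cd c a b) (nat_lit 2)) true))) true)

/-- exact null vector -/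
noncomputable def parC (m c s u : ℕ) : Bool :=
  bcB (su m u) (bcB (Nat.ble (nat_lit 1) (qD s u))
    (all16 (fun a => bcB (nz u a) (bcB (Nat.ble (nat_lit 1) (sv s a))
      (bcB (all16 (fun b => bcB (nz u b) (bcB (Nat.beq a b) true
          (bcB (Nat.ble (cd c a b) (nat_lit 6))
            (Nat.beq (eL (sv s a) (sv s b) (cd c a b)) (eU (sv s a) (sv s b) (cd c a b))) false))
            true))
        (Nat.beq (Nat.mul (nat_lit 1000000) (Nat.mul (sv s a) (dg u a)))
          (sum16 (fun b => bcN (nz u b)
            (bcN (Nat.beq a b) (nat_lit 0)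
              (Nat.mul (dg u b) (eL (sv s a) (sv s b) (cd c a b)))) (nat_lit 0)))) false) false)
              true)) false) false

/-- `b` is a child of `a` -/
noncomputable def isCh (S par a b : ℕ) : Bool :=
  bcB (bt S b) (bcB (Nat.beq (nb par b) a) (bcB (Nat.beq a b) false true) false) false

/-- positive definiteness certificate for the node set `S` (`Z`: isolated pairs) -/
noncomputable def pdC (c ad S Z par D : ℕ) : Bool :=
  all16 (fun a => bcB (bt S a)
    (bcB (bt Z a)
      (bcB (bt Z (nb par a)) (bcB (bt S (nb par a)) (bcB (Nat.beq (nb par (nb par a)) a)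
        (bcB (Nat.beq (Nat.land (row ad a) S) (bit (nb par a)))
          (bcB (Nat.beq (cd c a (nb par a)) (nat_lit 8)) false true) false) false) false) false)
      (bcB (Nat.beq (Nat.land (row ad a) S)
          (Nat.lor (or16 (fun b => bcN (isCh S par a b) (bit b) (nat_lit 0)))
            (bcN (Nat.beq (nb par a) a) (nat_lit 0) (bit (nb par a)))))
        (bcB (Nat.ble (nat_lit 1) (dv D a))
          (Nat.ble (Nat.add (Nat.add (dv D a) (nat_lit 1))
            (sum16 (fun b => bcN (isCh S par a b)
              (Nat.add (Nat.div (Nat.mul (gU (cd c a b)) (nat_lit 1000000)) (dv D b)) (nat_lit 1))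
              (nat_lit 0)))) (nat_lit 1000000)) false) false)) true)

/-- neighbours of the set `d` -/
noncomputable def nbS (ad d : ℕ) : ℕ := or16 (fun a => bcN (bt d a) (row ad a) (nat_lit 0))

/-- one more layer around `d` in `S` -/
noncomputable def lay (ad S d : ℕ) : ℕ := Nat.lor d (Nat.land (nbS ad d) S)

/-- `x ⊆ y` as sets -/
def sub (x y : ℕ) : Bool := Nat.beq (Nat.land x y) x

/-- all nodes `< m` -/
def full (m : ℕ) : ℕ := Nat.land (nat_lit 0x1111111111111111) (Nat.sub (bit m) (nat_lit 1))

/-- complement of two nodes -/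
def co2 (m x y : ℕ) : ℕ := Nat.xor (full m) (Nat.lor (bit x) (bit y))

/-- lists of positive definiteness certificates: removed nodes, special set, parents, values -/
inductive PL : Type
  | nil : PL
  | cons (x y Z par D : ℕ) (l : PL) : PL

/-- lists of non-positive-definiteness certificates -/
inductive NL : Type
  | nil : NL
  | cons (s u : ℕ) (l : NL) : NL

/-- lists of facts on components: node set, boundary, type, positions -/
inductive FL : Type
  | nil : FL
  | cons (K bd t ps : ℕ) (l : FL) : FL

/-- all nodes at distance at most two (one if `q` is false) from `d` in `S` are in `sat` -/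
noncomputable def radC (q : Bool) (ad S d sat : ℕ) : Bool :=
  bcB (sub d S) (sub (bcN q (lay ad S (lay ad S d)) (lay ad S d)) sat) true

/-- all certificates in the list are fine; `rm`, `cm`: marked sets -/
noncomputable def plC (q : Bool) (A B rm cm m c ad sat : ℕ) (l : PL) : Bool :=
  PL.rec true (fun x y Z par D _ r =>
    bcB (bcB q (bcB (bt A x) (bt B y) false) (bcB (bt A x) (Nat.beq x y) false))
      (bcB (pdC c ad (co2 m x y) Z par D)
        (bcB (radC q ad (co2 m x y) rm sat)
          (bcB (bcB q (radC q ad (co2 m x y) cm sat) true) r false) false) false) false) l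

/-- add the pairs of the list to `V` -/
noncomputable def plV (l : PL) (V : ℕ) : ℕ :=
  PL.rec V (fun x y _ _ _ _ r => Nat.lor r (Nat.shiftLeft (nat_lit 1) (pos x y))) l

/-- `x, y` is a known vertex -/
def vt (V x y : ℕ) : Bool := bt (row V x) y

noncomputable def nlC (m c : ℕ) (l : NL) : Bool :=
  NL.rec true (fun s u _ r => bcB (npd m c s u) r false) l

/-- some certificate avoids `x` and `y` -/
noncomputable def nlAv (l : NL) (x y : ℕ) : Bool :=
  NL.rec false (fun _ u _ r => bcB (nz u x) r (bcB (nz u y) r true)) l

/-- number of nodes of the types `A2, A3, A4, A5, A6, A7, B3, D4, D5, D6, D7, D8, E6, E7, E8, F4,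
H4, I2(5), H3` -/
def tK (t : ℕ) : ℕ := Nat.land (Nat.shiftRight (nat_lit 0x3244876876543765432) (Nat.mul (nat_lit 4) t)) (nat_lit 15)

/-- labels of the types -/
def tP (t i j : ℕ) : ℕ :=
  Nat.land (Nat.shiftRight (nat_lit 0x2222222222222222222222222222222222222222222222322222232522222252222222222222222222222222222222222222222222222222222222252222225222222222222222222222222222222222222223222222323222222325222222522222222222222222222222222222222222222322222232422222242322222232232222223232222223232222223222232222232222223223222222232223233222222222223222222323222222322223222223222222322322222223222323322222222222222222222322222232222322222322222232232222222322232332232222223232222223232222223232222223222322222223222222232222333222222222223222222323222222323222222322232222222322222223222233322222222222222222222322222232322222232223222222232222222322223332222222222222222222222222222232222223222322222223222222232222333222222222222222222222222222222222222222232222222322222223222233322222222222222222222222222222222222222222222222322222232422222242222222222232222223232222223232222223232222223232222223232222223222222222222222222223222222323222222323222222323222222323222222322222222222222222222222222222322222232322222232322222232322222232222222222222222222222222222222222222232222223232222223232222223222222222222222222222222222222222222222222222223222222323222222322222222222222222222222222222222222222222222222222222222322222232)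 (Nat.mul (nat_lit 4)
    (Nat.add (Nat.mul (nat_lit 64) t) (Nat.add (Nat.mul (nat_lit 8) i) j)))) (nat_lit 15)

/-- bonus of the types, in half-units -/
def tW (t i j : ℕ) : ℕ :=
  Nat.land (Nat.shiftRight (nat_lit 0x60000000000000000000060000000000000000000000000000000000000000001000000000000000000001000000000000000000000000020000000010000001000000000002010000001000000000000000000100000002000000000000000100000000001201000000000000000000000000000000000200000000000000020000000000020200000000000000000010000000000000000000001100000000000010000000100001000000000000000000020010000000000000000020000010000000000000000010010000000000000000000000000000000000200000000000000010000000100020110000000000000000000000000000001100000000100010010000101000000100000000000000000000000000000000000000000010000000100000001000011100000000000000000000000000000000000000000000000060000000000000600000000000000200000000000000002000200000200020000000000000000200000000000000000000001020000100000000000020020000000000001000020100000000000000000000000000000000000000300000030300000030000000000000000000000000000000000000000000000000100000050000005000000100000000000000000000000000000000000000000000000003000000303000000300000000000000000000000000000000000000000000000000000000200000020)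 (Nat.mul (nat_lit 4)
    (Nat.add (Nat.mul (nat_lit 64) t) (Nat.add (Nat.mul (nat_lit 8) i) j)))) (nat_lit 15)

noncomputable def flC (c sat ad : ℕ) (l : FL) : Bool :=
  FL.rec true (fun K bd t ps _ r =>
    bcB (Nat.ble t (nat_lit 16))
    (bcB (sub K sat)
      (bcB (Nat.beq bd (Nat.xor (Nat.lor (nbS ad K) K) K))
        (bcB (Nat.beq (or16 (fun a => bcN (bt K a) (bit (nb ps a)) (nat_lit 0))) (full (tK t)))
          (bcB (Nat.beq (sum16 (fun a => bcN (bt K a) (nat_lit 1) (nat_lit 0))) (tK t))
            (bcB (atri (bt K) (fun a b => bcB (bt K b)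
                (Nat.beq (cd c a b) (tP t (nb ps a) (nb ps b))) true)) r false)
            false) false) false) false) false) l

/-- bonus of the pair `x, y` at the corner with node set `S` -/
noncomputable def flW (S x y : ℕ) (l : FL) : ℕ :=
  FL.rec (nat_lit 0) (fun K bd t ps _ r =>
    bcN (bt K x) (bcN (bt K y) (bcN (sub K S) (bcN (Nat.beq (Nat.land bd S) (nat_lit 0))
      (tW t (nb ps x) (nb ps y)) r) r) r) r) l

/-- weight of the pair `x, y` at the corner `S` -/
noncomputable def cw (ad S x y : ℕ) (l : FL) : ℕ :=
  Nat.add (bcN (bt (row ad x) y) (nat_lit 2)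
    (bcN (Nat.beq (Nat.land (Nat.land (row ad x) (row ad y)) S) (nat_lit 0)) (nat_lit 0)
      (nat_lit 2))) (flW S x y l)

/-- sum over the rectangles -/
noncomputable def rectS (A V : ℕ) (F : ℕ → ℕ → ℕ → ℕ → ℕ) : ℕ :=
  tri (bt A) (fun _ r => r) (fun x x' => bcN (bt A x')
    (tri (bt (Nat.land (row V x) (row V x'))) (fun _ r => r)
      (fun y y' => bcN (bt (Nat.land (row V x) (row V x')) y') (F x x' y y') (nat_lit 0)))
      (nat_lit 0))

/-- weight of a rectangle -/
noncomputable def rectW (m ad : ℕ) (l : FL) (x x' y y' : ℕ) : ℕ :=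
  Nat.add (Nat.add (cw ad (co2 m x' y') x y l) (cw ad (co2 m x' y) x y' l))
    (Nat.add (cw ad (co2 m x y') x' y l) (cw ad (co2 m x y) x' y' l))

/-- leaf, case of quadrangles; `e` is the allowed defect -/
noncomputable def leafQ (e A B m c ad sat V : ℕ) (n : NL) (l : FL) : Bool :=
  bcB (noP c)
    (bcB (nlC m c n)
      (bcB (flC c sat ad l)
        (bcB (all16 (fun x => bcB (bt A x)
              (all16 (fun y => bcB (bt B y)
                (bcB (vt V x y) true (nlAv n x y)) true)) true))
            (Nat.ble (rectS A V (fun _ _ _ _ => nat_lit 2))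
              (Nat.add e (rectS A V (rectW m ad l))))
            false) false) false) false

/-- matrix of the exceptional graph -/
def c31 : ℕ := nat_lit 0x2222222222222222222222222222222222222222222222222222222222222222222222222222222222222222222222222222222322223222222222323222222222222223232222222222222232522222222222222522222222222222222232222222223222232322222222222222323222222222222223252222222222222252

/-- codes of the exceptional graph -/
def p31 (i j : ℕ) : ℕ := cd c31 i j

/-- leaf: the exceptional graph -/
noncomputable def leaf31 (m c sat V ps : ℕ) : Bool :=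
  bcB (Nat.beq m (nat_lit 10)) (bcB (Nat.beq sat (nat_lit 0x1111111111))
    (bcB (Nat.beq (or16 (fun a => bcN (bt (nat_lit 0x1111111111) a) (bit (nb ps a)) (nat_lit 0)))
        (nat_lit 0x1111111111))
      (bcB (atri (bt (nat_lit 0x1111111111)) (fun a b =>
          Nat.beq (cd c a b) (p31 (nb ps a) (nb ps b))))
        (all16 (fun a => bcB (bt (nat_lit 0x1111111111) a) (bcB (Nat.ble (nb ps a) (nat_lit 4))
          (all16 (fun b => bcB (bt (nat_lit 0x1111111111) b)
            (bcB (Nat.ble (nat_lit 5) (nb ps b))
              (bcB (bcB (Nat.ble (nb ps a) (nat_lit 3)) true (Nat.beq (nb ps b) (nat_lit 9)))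
                (bcB (vt V a b) true (vt V b a)) true) true) true)) true) true))
                false) false) false) false

/-- sum over the triples -/
noncomputable def tripS (A V : ℕ) (F : ℕ → ℕ → ℕ → ℕ) : ℕ :=
  tri (fun x => bcB (bt A x) (vt V x x) false) (fun _ r => r) (fun x y => bcN (vt V y y)
    (sum16 (fun z => bcN (Nat.ble (Nat.add z (nat_lit 1)) y) (bcN (vt V z z) (F x y z)
      (nat_lit 0)) (nat_lit 0))) (nat_lit 0))

/-- weight of a triple -/
noncomputable def tripW (m ad : ℕ) (l : FL) (x y z : ℕ) : ℕ :=
  Nat.add (cw ad (co2 m z z) x y l)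
    (Nat.add (cw ad (co2 m y y) x z l) (cw ad (co2 m x x) y z l))

/-- leaf, case of triangles -/
noncomputable def leafT (A m c ad sat V : ℕ) (n : NL) (l : FL) : Bool :=
  bcB (noP c)
    (bcB (nlC m c n)
      (bcB (flC c sat ad l)
        (bcB (all16 (fun x => bcB (bt A x) (bcB (vt V x x) true (nlAv n x x)) true))
          (Nat.ble (tripS A V (fun _ _ _ => nat_lit 4)) (tripS A V (tripW m ad l)))
            false) false) false) false

/-- certificate trees -/
inductive Tr : Type
  | non (x y s u : ℕ) : Tr
  | nol (s u : ℕ) : Tr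
  | sup (u w : ℕ) : Tr
  | unj (s u t w : ℕ) : Tr
  | uj : Tr
  | star (z a b : ℕ) : Tr
  | par (s u : ℕ) : Tr
  | split (a b : ℕ) (t₁ t₂ : Tr) : Tr
  | ex (u : ℕ) (t₁ t₂ : Tr) : Tr
  | st (u x y s v r w : ℕ) (t : Tr) : Tr
  | pd (p : PL) (t : Tr) : Tr
  | leaf (n : NL) (l : FL) : Tr
  | l31 (ps : ℕ) : Tr

/-- the support of `u` is contained in `A`, but is not `A` -/
noncomputable def suA (u A : ℕ) : Bool :=
  bcB (all16 (fun a => bcB (nz u a) (bt A a) true))
    (any16 (fun a => bcB (bt A a) (bcB (nz u a) false true) false)) false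

/-- the code is at least 3 -/
noncomputable def ge3 (c a b : ℕ) : Bool :=
  bcB (Nat.beq (cd c a b) (nat_lit 2)) false (bcB (Nat.beq (cd c a b) (nat_lit 10)) false true)

/-- codes after adding a node adjacent to `u` -/
def ext (m c u : ℕ) : ℕ :=
  Nat.xor (Nat.xor c (Nat.shiftLeft (Nat.xor (Nat.land (nat_lit 0x8888888888888888)
      (Nat.sub (bit m) (nat_lit 1))) (bit u)) (Nat.mul (nat_lit 64) m)))
    (Nat.shiftLeft (Nat.xor (Nat.land (nat_lit 0x8000000000000000800000000000000080000000000000008000000000000000800000000000000080000000000000008000000000000000800000000000000080000000000000008000000000000000800000000000000080000000000000008000000000000000800000000000000080000000000000008)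
      (Nat.sub (Nat.shiftLeft (nat_lit 1) (Nat.mul (nat_lit 64) m)) (nat_lit 1)))
      (Nat.shiftLeft (nat_lit 1) (Nat.mul (nat_lit 64) u))) (Nat.mul (nat_lit 4) m))

/-- the leaf `star` -/
noncomputable def starC (m c rm cm z a b : ℕ) : Bool :=
  bcB (Nat.ble (Nat.add z (nat_lit 1)) m) (bcB (bt rm a)
    (bcB (bt cm b)
      (bcB (Nat.beq z a) (ge3 c a b) (bcB (Nat.beq z b) (ge3 c a b)
        (bcB (ge3 c z a) (bcB (ge3 c z b)
          (bcB (bt (Nat.lor rm cm) z) false true) false) false))) false) false) false

/-- no code different from 2 between `A` and `B` -/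
noncomputable def ujC (c A B : ℕ) : Bool :=
  all16 (fun a => bcB (bt A a)
    (all16 (fun b => bcB (bt B b) (Nat.beq (cd c a b) (nat_lit 2)) true)) true)

/-- the checker: nodes, codes, saturated nodes, vertices -/
noncomputable def chk (q : Bool) (A B rm cm : ℕ) (t : Tr) :
    ℕ → ℕ → ℕ → ℕ → Bool :=
  Tr.rec (motive := fun _ => ℕ → ℕ → ℕ → ℕ → Bool)
    (fun x y s u m c _ V => bcB (vt V x y) (bcB (nz u x) false (bcB (nz u y) false
      (npd m c s u))) false)
    (fun s u m c _ _ => bcB (bcB (suA u A) true (suA u B)) (npd m c s u) false)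
    (fun u w m c _ _ => supC m c u w)
    (fun s u t w m c _ _ => bcB (npd m c s u) (bcB (npd m c t w) (unjC c u w) false) false)
    (fun _ c _ _ => bcB q (ujC c A B) false)
    (fun z a b m c _ _ => starC m c rm cm z a b)
    (fun s u m c _ _ => parC m c s u)
    (fun a b _ _ f1 f2 m c sat V => bcB (Nat.ble (Nat.add b (nat_lit 1)) a)
      (bcB (Nat.ble (Nat.add a (nat_lit 1)) m)
        (bcB (Nat.beq (cd c a b) (nat_lit 10))
          (bcB (f1 m (up c a b (nat_lit 8)) sat V)
            (f2 m (up c a b (nat_lit 1)) sat V) false)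
          (bcB (Nat.ble (nat_lit 11) (cd c a b)) (bcB (Nat.ble (cd c a b) (nat_lit 14))
            (bcB (f1 m (up c a b (nat_lit 8)) sat V)
              (f2 m (up c a b (Nat.xor (cd c a b) (Nat.add (cd c a b) (nat_lit 1)))) sat V)
              false) false) false)) false) false)
    (fun u _ _ f1 f2 m c sat V => bcB (Nat.ble (Nat.add u (nat_lit 1)) m)
      (bcB (Nat.ble m (nat_lit 15))
        (bcB (f1 m c (Nat.lor sat (bit u)) V)
          (f2 (Nat.add m (nat_lit 1)) (ext m c u) sat V) false) false) false)
    (fun u x y s v r w _ f m c sat V => bcB (Nat.ble (Nat.add u (nat_lit 1)) m)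
      (bcB (vt V x y) (bcB (nz v x) false (bcB (nz v y) false
        (bcB (npdz m c s v u r w) (f m c (Nat.lor sat (bit u)) V) false))) false) false)
    (fun p _ f m c sat V => bcB (plC q A B rm cm m c (adjM c) sat p)
      (f m c sat (plV p V)) false)
    (fun n l m c sat V => bcB q (leafQ (nat_lit 0) A B m c (adjM c) sat V n l)
      (leafT A m c (adjM c) sat V n l))
    (fun ps m c sat V => bcB q (leaf31 m c sat V ps) false) t

/-- number of nodes of the Lanner diagrams -/
def lN (t : ℕ) : ℕ := Nat.land (Nat.shiftRight (nat_lit 0x555444433332) (Nat.mul (nat_lit 4) t)) (nat_lit 15)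

/-- codes of the Lanner diagrams -/
def lP (t i j : ℕ) : ℕ :=
  Nat.land (Nat.shiftRight (nat_lit 0x222222222222222222222222222232232223232222223232222223242223224222222222222222222222222222222322222223222223323222222325222222522222222222222222222222222222b222222b23222222323222222325222222522222222222222222222222222222222222222b232222b2322222232c222232c222222222222222222222222222222222222222322222223222223325222222522222222222222222222222222222222222222c222222c232222223252222225222222222222222222222222222222222222223222222325222222523222222322222222222222222222222222222222222222222222222bc22222b2b22222cb22222222222222222222222222222222222222222222222d222222d2d222222d22222222222222222222222222222222222222222222222d222222d24222222422222222222222222222222222222222222222222222222f222222f23222222322222222222222222222222222222222222222222222222222222222822222282) (Nat.mul (nat_lit 4)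
    (Nat.add (Nat.mul (nat_lit 64) t) (Nat.add (Nat.mul (nat_lit 8) i) j)))) (nat_lit 15)

/-- matrices of codes of the Lanner diagrams -/
def lC (t : ℕ) : ℕ :=
  Nat.land (Nat.shiftRight (nat_lit 0x2222222222222222222222222222222222222222222222222222222222222222222222222222222222222222222222222222222222222222222222222222222222222222222222222222222222222222222222222222222222222222222232232222222222232322222222222222323222222222222223242222222222232242222222222222222222222222222222222222222222222222222222222222222222222222222222222222222222222222222222222222222222222222222222222222222222222222222222222222222222222222222222222222222222222322222222222222232222222222222332322222222222222325222222222222225222222222222222222222222222222222222222222222222222222222222222222222222222222222222222222222222222222222222222222222222222222222222222222222222222222222222222222222222222222222222222222222b22222222222222b2322222222222222323222222222222223252222222222222252222222222222222222222222222222222222222222222222222222222222222222222222222222222222222222222222222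2222222222222222222222222222222222222222222222222222222222222222222222222222222222222222222222222222222222b23222222222222b232222222222222232c22222222222232c222222222222222222222222222222222222222222222222222222222222222222222222222222222222222222222222222222222222222222222222222222222222222222222222222222222222222222222222222222222222222222222222222222222222222322222222222222232222222222222332522222222222222522222222222222222222222222222222222222222222222222222222222222222222222222222222222222222222222222222222222222222222222222222222222222222222222222222222222222222222222222222222222222222222222222222222222222c22222222222222c2322222222222222325222222222222225222222222222222222222222222222222222222222222222222222222222222222222222222222222222222222222222222222222222222222222222222222222222222222222222222222222222222222222222222222222222222222222222222222222222223222222222222223252222222222222252322222222222222322222222222222222222222222222222222222222222222222222222222222222222222222222222222222222222222222222222222222222222222222222222222222222222222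22222222222222222222222222222222222222222222222222222222222222222222222222222222bc2222222222222b2b2222222222222cb2222222222222222222222222222222222222222222222222222222222222222222222222222222222222222222222222222222222222222222222222222222222222222222222222222222222222222222222222222222222222222222222222222222222222222222222222222222d22222222222222d2d22222222222222d2222222222222222222222222222222222222222222222222222222222222222222222222222222222222222222222222222222222222222222222222222222222222222222222222222222222222222222222222222222222222222222222222222222222222222222222222222222d22222222222222d242222222222222242222222222222222222222222222222222222222222222222222222222222222222222222222222222222222222222222222222222222222222222222222222222222222222222222222222222222222222222222222222222222222222222222222222222222222222222222222222f22222222222222f2322222222222222322222222222222222222222222222222222222222222222222222222222222222222222222222222222222222222222222222222222222222222222222222222222222222222222222222222222222222222222222222222222222222222222222222222222222222222222222222222222222222222222282222222222222282)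 (Nat.mul (nat_lit 1024) t)) (nat_lit 0xffffffffffffffffffffffffffffffffffffffffffffffffffffffffffffffffffffffffffffffffffffffffffffffffffffffffffffffffffffffffffffffffffffffffffffffffffffffffffffffffffffffffffffffffffffffffffffffffffffffffffffffffffffffffffffffffffffffffffffffffffffffffffffffff)

/-- halves: Lanner diagram -/
def hT (h : ℕ) : ℕ := Nat.land (Nat.shiftRight (nat_lit 0xbbbbbbaaaaaaa999999999988887777666666555544332221110) (Nat.mul (nat_lit 4) h)) (nat_lit 15)

/-- halves: first mark -/
def hP (h : ℕ) : ℕ := Nat.land (Nat.shiftRight (nat_lit 0x2200003211000322111000020002100211000100000001001000) (Nat.mul (nat_lit 4) h)) (nat_lit 15)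

/-- halves: second mark -/
def hQ (h : ℕ) : ℕ := Nat.land (Nat.shiftRight (nat_lit 0x4343214332321443432432133213221332321232121212212211) (Nat.mul (nat_lit 4) h)) (nat_lit 15)

/-- halves: nodes that have no neighbour outside -/
def hS (h : ℕ) : ℕ :=
  Nat.land (Nat.shiftRight (nat_lit 0x10111000101110000011100010111000100110000000000011111000101110001011100000000000101110000010000000100000011110000111100000011000011110000001100000000000011110000001100000000000000000000001100000010000000010000000000000011000000110000001100000000000000110000001100000000000001110000010000000100000000000000011000000110000001100000000000000000000000000000000000000000000000000000000000000000000001100000011000000000) (Nat.mul (nat_lit 32) h)) (nat_lit 4294967295)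

/-- distance to the marks (`2` means at least two) -/
noncomputable def hA (h u : ℕ) : ℕ :=
  bcN (Nat.beq u (hP h)) (nat_lit 0) (bcN (Nat.beq u (hQ h)) (nat_lit 0)
    (bcN (Nat.beq (lP (hT h) u (hP h)) (nat_lit 2))
      (bcN (Nat.beq (lP (hT h) u (hQ h)) (nat_lit 2)) (nat_lit 2) (nat_lit 1)) (nat_lit 1)))

/-- code between the two halves -/
noncomputable def hC (h k u v : ℕ) : ℕ :=
  bcN (bt (hS h) u) (nat_lit 2) (bcN (bt (hS k) v) (nat_lit 2)
    (bcN (Nat.ble (Nat.add (hA h u) (hA k v)) (nat_lit 1)) (nat_lit 2) (nat_lit 10)))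

/-- code in the initial matrix -/
noncomputable def hE (h k a b : ℕ) : ℕ :=
  bcN (Nat.beq a b) (nat_lit 2)
    (bcN (Nat.ble (Nat.add (lN (hT h)) (lN (hT k))) a) (nat_lit 2)
      (bcN (Nat.ble (Nat.add (lN (hT h)) (lN (hT k))) b) (nat_lit 2)
        (bcN (Nat.ble (Nat.add a (nat_lit 1)) (lN (hT h)))
          (bcN (Nat.ble (Nat.add b (nat_lit 1)) (lN (hT h))) (lP (hT h) a b)
            (hC h k a (Nat.sub b (lN (hT h)))))
          (bcN (Nat.ble (Nat.add b (nat_lit 1)) (lN (hT h))) (hC h k b (Nat.sub a (lN (hT h))))
            (lP (hT k) (Nat.sub a (lN (hT h))) (Nat.sub b (lN (hT h))))))))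

/-- the initial matrix is correct -/
noncomputable def hM (h k c : ℕ) : Bool :=
  all16 (fun a => all16 (fun b => Nat.beq (cd c a b) (hE h k a b)))

/-- check of a pair of halves -/
noncomputable def hR (h k c : ℕ) (t : Tr) : Bool :=
  bcB (hM h k c)
    (chk true (full (lN (hT h)))
      (Nat.xor (full (Nat.add (lN (hT h)) (lN (hT k)))) (full (lN (hT h))))
      (Nat.lor (bit (hP h)) (bit (hQ h)))
      (Nat.lor (bit (Nat.add (lN (hT h)) (hP k))) (bit (Nat.add (lN (hT h)) (hQ k)))) t
      (Nat.add (lN (hT h)) (lN (hT k))) c
      (Nat.lor (hS h) (Nat.shiftLeft (hS k) (Nat.mul (nat_lit 4) (lN (hT h)))))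
      (Nat.lor
        (Nat.lor (Nat.shiftLeft (nat_lit 1) (pos (hP h) (Nat.add (lN (hT h)) (hP k))))
          (Nat.shiftLeft (nat_lit 1) (pos (hP h) (Nat.add (lN (hT h)) (hQ k)))))
        (Nat.lor (Nat.shiftLeft (nat_lit 1) (pos (hQ h) (Nat.add (lN (hT h)) (hP k))))
          (Nat.shiftLeft (nat_lit 1) (pos (hQ h) (Nat.add (lN (hT h)) (hQ k))))))) false

/-- lists of certificates for consecutive pairs of halves, numbered `52 * h + k` -/
inductive RL : Type
  | nil : RL
  | skip (l : RL) : RL
  | cons (c : ℕ) (t : Tr) (l : RL) : RL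

/-- check of a list starting with the number `i` -/
noncomputable def rl (l : RL) : ℕ → Bool :=
  RL.rec (motive := fun _ => ℕ → Bool) (fun _ => true)
    (fun _ f i => bcB (Nat.ble (Nat.add (Nat.mod i (nat_lit 52)) (nat_lit 1))
      (Nat.div i (nat_lit 52))) (f (Nat.add i (nat_lit 1))) false)
    (fun c t _ f i => bcB (hR (Nat.div i (nat_lit 52)) (Nat.mod i (nat_lit 52)) c t)
      (f (Nat.add i (nat_lit 1))) false) l

/-- length of a list -/
noncomputable def rlen (l : RL) : ℕ := RL.rec (nat_lit 0) (fun _ r => Nat.add r (nat_lit 1))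
  (fun _ _ _ r => Nat.add r (nat_lit 1)) l

end MP86a502
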