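import Pool.Agent.Lib.MP_86a502_gt.U.Val

set_option autoImplicit false
set_option linter.unusedSectionVars false

/-! # JOB Tab. The tables of bounds (120-200 lines)

`eL s t c` is the 24-bit entry `16 * (4 * s + t) + c` of a literal: for `s, t ∈ {1, 2, 3}` it is the
integer part of `10^6 √(s t) cos(π/k)` with `k = c` for `c = 2, ..., 7`, `k = c - 8` for `c ≥ 10`
(`k = 7`: the number `0.9009688` instead of the cosine; `c = 8`: the value `1` instead of the cosine; `c = 9` and `c < 2`: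
entry `0`; `s = 0` or `t = 0`: entry `0`). `eU` is the same rounded up; for `c = 7` and `c ≥ 10` it is
`10^6 √(s t)` rounded up. `gU c` is `250000, 500000, 654509, 750000` for `c = 3, 4, 5, 6` and
`2000000` otherwise.

Proof of `eL_le`: it is enough to have `(eL s t c)^2 ≤ 10^12 * s * t * x^2` for a lower bound
`x ≥ 0` of `-g i j` (`Real.le_sqrt`, `Real.sqrt_le_left`, `abs_le_of_sq_le_sq'`): by `lab_spec`, `x` is
`1/2`, `√2/2` (`x^2 = 1/2`), `(1+√5)/4` (`x^2 = (3+√5)/8`, `√5 ≥ 2.236067977`), `√3/2` (`x^2 = 3/4`),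
`0.9009688`.
It is convenient to make the finite table
check in `ℕ` by `decide +kernel`: `∀ s < 4, ∀ t < 4, ∀ c < 16, ...`. -/

namespace MP86a502

variable {ι : Type} {g : ι → ι → ℝ}

/-- lower bounds of `10^14 g^2` -/
private def Tab_bL (c : ℕ) : ℕ :=
  if c = 3 ∨ c = 11 then 25000000000000 else if c = 4 ∨ c = 12 then 50000000000000
  else if c = 5 ∨ c = 13 then 65450849712500 else if c = 6 ∨ c = 14 then 75000000000000
  else if c = 7 ∨ c = 15 then 81174477857344 else if c = 8 then 100000000000000 else 0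

/-- upper bounds of `10^14 g^2` -/
private def Tab_bU (c : ℕ) : ℕ :=
  if c = 2 then 0 else if c = 3 then 25000000000000 else if c = 4 then 50000000000000
  else if c = 5 then 65450849725000 else if c = 6 then 75000000000000 else 100000000000000

private theorem Tab_chkL : ∀ s < 4, ∀ t < 4, ∀ c < 16,
    (eL s t c) ^ 2 * 100 ≤ s * t * Tab_bL c := by decide +kernel

private theorem Tab_chkU : ∀ s < 4, ∀ t < 4, ∀ c < 16, s = 0 ∨ t = 0 ∨ c < 2 ∨ c = 8 ∨ c = 9 ∨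
    s * t * Tab_bU c ≤ (eU s t c) ^ 2 * 100 := by decide +kernel

private theorem Tab_chkG : ∀ c < 16, 2 ≤ c → c ≠ 8 → c ≠ 9 → Tab_bU c ≤ gU c * 100000000 := by
  decide +kernel

private theorem Tab_chkG2 : ∀ c < 16, gU c < 2000000 → c = 3 ∨ c = 4 ∨ c = 5 ∨ c = 6 := by
  decide +kernel

private theorem Tab_s5 : (2236067977 / 1000000000 : ℝ) ≤ √5 ∧ √5 ≤ 2236067978 / 1000000000 := by
  constructor
  · apply Real.le_sqrt_of_sq_le
    norm_num
  · rw [Real.sqrt_le_left (by norm_num)]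
    norm_num

private theorem Tab_low (h : Diag g) {i j : ι} (hij : i ≠ j) {c : ℕ} (hok : ok c (lab g i j)) :
    c < 16 ∧ 0 ≤ -(g i j) ∧ (Tab_bL c : ℝ) ≤ 100000000000000 * (g i j) ^ 2 := by
  obtain ⟨h5a, h5b⟩ := Tab_s5
  have e2 : √2 * √2 = 2 := Real.mul_self_sqrt (by norm_num)
  have e3 : √3 * √3 = 3 := Real.mul_self_sqrt (by norm_num)
  have e5 : √5 * √5 = 5 := Real.mul_self_sqrt (by norm_num)
  have p2 : 0 ≤ √2 := Real.sqrt_nonneg 2
  have p3 : 0 ≤ √3 := Real.sqrt_nonneg 3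
  unfold ok at hok
  rcases lab_spec h hij with ⟨hl, hg⟩ | ⟨hl, hg⟩ | ⟨hl, hg⟩ | ⟨hl, hg⟩ | ⟨hl, hg⟩ | ⟨hl, hg, hg'⟩ | ⟨hl, hg⟩ <;>
    rw [hl] at hok
  · have hc : c = 2 ∨ c = 10 := by omega
    refine ⟨by omega, by rw [hg]; norm_num, ?_⟩
    rcases hc with rfl | rfl <;> · rw [hg]; norm_num [Tab_bL]
  · have hc : c = 3 ∨ c = 10 ∨ c = 11 := by omega
    refine ⟨by omega, by rw [hg]; norm_num, ?_⟩
    rcases hc with rfl | rfl | rfl <;> · rw [hg]; norm_num [Tab_bL]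
  · have hc : c = 4 ∨ c = 10 ∨ c = 11 ∨ c = 12 := by omega
    refine ⟨by omega, by rw [hg]; linarith, ?_⟩
    rw [hg]
    rcases hc with rfl | rfl | rfl | rfl <;> · norm_num [Tab_bL]; try nlinarith
  · have hc : c = 5 ∨ c = 10 ∨ c = 11 ∨ c = 12 ∨ c = 13 := by omega
    refine ⟨by omega, by rw [hg]; linarith, ?_⟩
    rw [hg]
    have e : (-((1 + √5) / 4)) ^ 2 = (3 + √5) / 8 := by nlinarith
    rw [e]
    rcases hc with rfl | rfl | rfl | rfl | rfl <;> · norm_num [Tab_bL]; try linarith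
  · have hc : c = 6 ∨ c = 10 ∨ c = 11 ∨ c = 12 ∨ c = 13 ∨ c = 14 := by omega
    refine ⟨by omega, by rw [hg]; linarith, ?_⟩
    rw [hg]
    have e : (-(√3 / 2)) ^ 2 = 3 / 4 := by nlinarith
    rw [e]
    rcases hc with rfl | rfl | rfl | rfl | rfl | rfl <;> norm_num [Tab_bL]
  · have hc : c = 7 ∨ c = 10 ∨ c = 11 ∨ c = 12 ∨ c = 13 ∨ c = 14 ∨ c = 15 := by omega
    refine ⟨by omega, by linarith, ?_⟩
    have e : (81174477857344 / 100000000000000 : ℝ) ≤ (g i j) ^ 2 := by nlinarith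
    rcases hc with rfl | rfl | rfl | rfl | rfl | rfl | rfl <;> · norm_num [Tab_bL]; try linarith
  · have hc : c = 8 := by omega
    refine ⟨by omega, by linarith, ?_⟩
    have hb : Tab_bL c = 100000000000000 := by subst hc; rfl
    have e : 1 ≤ (g i j) ^ 2 := by nlinarith
    rw [hb]
    push_cast
    linarith

private theorem Tab_up (h : Diag g) {i j : ι} (hij : i ≠ j) {c : ℕ} (hok : ok c (lab g i j))
    (h8 : c ≠ 8) :
    2 ≤ c ∧ c < 16 ∧ c ≠ 9 ∧ 100000000000000 * (g i j) ^ 2 ≤ (Tab_bU c : ℝ) := by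
  obtain ⟨h5a, h5b⟩ := Tab_s5
  have e2 : √2 * √2 = 2 := Real.mul_self_sqrt (by norm_num)
  have e3 : √3 * √3 = 3 := Real.mul_self_sqrt (by norm_num)
  have e5 : √5 * √5 = 5 := Real.mul_self_sqrt (by norm_num)
  unfold ok at hok
  rcases lab_spec h hij with ⟨hl, hg⟩ | ⟨hl, hg⟩ | ⟨hl, hg⟩ | ⟨hl, hg⟩ | ⟨hl, hg⟩ | ⟨hl, hg, hg'⟩ | ⟨hl, hg⟩ <;>
    rw [hl] at hok
  · have hc : c = 2 ∨ c = 10 := by omega
    refine ⟨by omega, by omega, by omega, ?_⟩
    rcases hc with rfl | rfl <;> · rw [hg]; norm_num [Tab_bU]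
  · have hc : c = 3 ∨ c = 10 ∨ c = 11 := by omega
    refine ⟨by omega, by omega, by omega, ?_⟩
    rcases hc with rfl | rfl | rfl <;> · rw [hg]; norm_num [Tab_bU]
  · have hc : c = 4 ∨ c = 10 ∨ c = 11 ∨ c = 12 := by omega
    refine ⟨by omega, by omega, by omega, ?_⟩
    rw [hg]
    have e : (-(√2 / 2)) ^ 2 = 1 / 2 := by nlinarith
    rw [e]
    rcases hc with rfl | rfl | rfl | rfl <;> norm_num [Tab_bU]
  · have hc : c = 5 ∨ c = 10 ∨ c = 11 ∨ c = 12 ∨ c = 13 := by omega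
    refine ⟨by omega, by omega, by omega, ?_⟩
    rw [hg]
    have e : (-((1 + √5) / 4)) ^ 2 = (3 + √5) / 8 := by nlinarith
    rw [e]
    rcases hc with rfl | rfl | rfl | rfl | rfl <;> · norm_num [Tab_bU]; linarith
  · have hc : c = 6 ∨ c = 10 ∨ c = 11 ∨ c = 12 ∨ c = 13 ∨ c = 14 := by omega
    refine ⟨by omega, by omega, by omega, ?_⟩
    rw [hg]
    have e : (-(√3 / 2)) ^ 2 = 3 / 4 := by nlinarith
    rw [e]
    rcases hc with rfl | rfl | rfl | rfl | rfl | rfl <;> norm_num [Tab_bU]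
  · have hc : c = 7 ∨ c = 10 ∨ c = 11 ∨ c = 12 ∨ c = 13 ∨ c = 14 ∨ c = 15 := by omega
    refine ⟨by omega, by omega, by omega, ?_⟩
    have e : (g i j) ^ 2 ≤ 1 := by nlinarith
    have hb : Tab_bU c = 100000000000000 := by
      rcases hc with rfl | rfl | rfl | rfl | rfl | rfl | rfl <;> rfl
    rw [hb]
    push_cast
    linarith
  · exfalso
    omega

private theorem Tab_eL {s t c : ℕ} {x : ℝ} (hs : s ≤ 3) (ht : t ≤ 3) (hc : c < 16) (hx : 0 ≤ x)
    (hb : (Tab_bL c : ℝ) ≤ 100000000000000 * x ^ 2) :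
    (eL s t c : ℝ) ≤ 1000000 * √((s : ℝ) * t) * x := by
  have hck := Tab_chkL s (by omega) t (by omega) c hc
  have hck' : (eL s t c : ℝ) ^ 2 * 100 ≤ (s : ℝ) * t * Tab_bL c := by exact_mod_cast hck
  have hst : (0 : ℝ) ≤ (s : ℝ) * t := by positivity
  have hsq : √((s : ℝ) * t) ^ 2 = (s : ℝ) * t := Real.sq_sqrt hst
  have hr : (0 : ℝ) ≤ 1000000 * √((s : ℝ) * t) * x := by positivity
  apply le_of_abs_le
  apply abs_le_of_sq_le_sq _ hr
  have e : (1000000 * √((s : ℝ) * t) * x) ^ 2 = 1000000000000 * (((s : ℝ) * t) * x ^ 2) := by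
    rw [mul_pow, mul_pow, hsq]; ring
  rw [e]
  have := mul_le_mul_of_nonneg_left hb hst
  linarith

theorem eL_le (h : Diag g) {i j : ι} (hij : i ≠ j) {s t c : ℕ} (hs : s ≤ 3) (ht : t ≤ 3)
    (hok : ok c (lab g i j)) :
    (eL s t c : ℝ) ≤ 1000000 * √((s : ℝ) * t) * (-(g i j)) := by
  obtain ⟨hc, hn, hb⟩ := Tab_low h hij hok
  refine Tab_eL hs ht hc hn ?_
  rw [neg_sq]
  exact hb

theorem eU_ge (h : Diag g) {i j : ι} (hij : i ≠ j) {s t c : ℕ} (hs : 1 ≤ s) (hs3 : s ≤ 3)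
    (ht : 1 ≤ t) (ht3 : t ≤ 3) (hok : ok c (lab g i j)) (h8 : c ≠ 8) :
    1000000 * √((s : ℝ) * t) * (-(g i j)) ≤ (eU s t c : ℝ) := by
  obtain ⟨hc2, hc, hc9, hb⟩ := Tab_up h hij hok h8
  have hck : s * t * Tab_bU c ≤ (eU s t c) ^ 2 * 100 := by
    rcases Tab_chkU s (by omega) t (by omega) c hc with h' | h' | h' | h' | h' | h'
    · omega
    · omega
    · omega
    · exact absurd h' h8
    · exact absurd h' hc9
    · exact h'
  have hck' : (s : ℝ) * t * Tab_bU c ≤ (eU s t c : ℝ) ^ 2 * 100 := by exact_mod_cast hck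
  have hst : (0 : ℝ) ≤ (s : ℝ) * t := by positivity
  have hsq : √((s : ℝ) * t) ^ 2 = (s : ℝ) * t := Real.sq_sqrt hst
  have hr : (0 : ℝ) ≤ (eU s t c : ℝ) := by positivity
  apply le_of_abs_le
  apply abs_le_of_sq_le_sq _ hr
  have e : (1000000 * √((s : ℝ) * t) * (-(g i j))) ^ 2 =
      1000000000000 * (((s : ℝ) * t) * (g i j) ^ 2) := by
    rw [mul_pow, mul_pow, hsq]; ring
  rw [e]
  have := mul_le_mul_of_nonneg_left hb hst
  linarith

theorem gU_ge (h : Diag g) {i j : ι} (hij : i ≠ j) {c : ℕ} (hok : ok c (lab g i j)) (h8 : c ≠ 8) :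
    1000000 * (g i j) ^ 2 ≤ (gU c : ℝ) := by
  obtain ⟨hc2, hc, hc9, hb⟩ := Tab_up h hij hok h8
  have hck := Tab_chkG c hc hc2 h8 hc9
  have hck' : (Tab_bU c : ℝ) ≤ (gU c : ℝ) * 100000000 := by exact_mod_cast hck
  linarith

/-- only exact small labels have a small value -/
theorem gU_lt {c : ℕ} (h : gU c < 2000000) : c = 3 ∨ c = 4 ∨ c = 5 ∨ c = 6 ∨ 16 ≤ c := by
  rcases Nat.lt_or_ge c 16 with hc | hc
  · have := Tab_chkG2 c hc h
    omega
  · omega

/-- the code `11` (label at least `3`, also dotted) -/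
theorem eL_11 (h : Diag g) {i j : ι} (hij : i ≠ j) {s t : ℕ} (hs : s ≤ 3) (ht : t ≤ 3)
    (ha : adj g i j) : (eL s t 11 : ℝ) ≤ 1000000 * √((s : ℝ) * t) * (-(g i j)) := by
  have hhalf : g i j ≤ -(1 / 2) := by
    obtain ⟨h5a, h5b⟩ := Tab_s5
    have p2 : (1 : ℝ) ≤ √2 := by
      rw [show (1 : ℝ) = √1 by simp]
      exact Real.sqrt_le_sqrt (by norm_num)
    have p3 : (1 : ℝ) ≤ √3 := by
      rw [show (1 : ℝ) = √1 by simp]
      exact Real.sqrt_le_sqrt (by norm_num)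
    rcases lab_spec h hij with ⟨hl, hg⟩ | ⟨hl, hg⟩ | ⟨hl, hg⟩ | ⟨hl, hg⟩ | ⟨hl, hg⟩ | ⟨hl, hg, hg'⟩ | ⟨hl, hg⟩
    · exact absurd hg ha.2
    all_goals linarith
  refine Tab_eL hs ht (by norm_num) (by linarith) ?_
  have e : (Tab_bL 11 : ℝ) = 25000000000000 := by norm_num [Tab_bL]
  rw [e]
  nlinarith

end MP86a502
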