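import Pool.Agent.Lib.MP_86a502_gt.U.Vec
import Pool.Agent.Lib.MP_86a502_gt.U.Tab
import Pool.Agent.Lib.MP_86a502_gt.U.Blc

set_option autoImplicit false
set_option linter.unusedSectionVars false

/-! # JOB Pdc. Soundness of the positive definiteness certificate (150-220 lines)

Suppose `PD` fails for the set `S` (of nodes `a` with `bt S a`). By `npd_nonneg` there is a vector
`c ≥ 0`, not zero on `S`, with `Q(c) ≤ 0`. Write `x a = c (φ a)`, `p a = nb par a`,
`D a = dv D a / 10^6`.

A node `a ∈ S` outside `Z` has as neighbours in `S` (codes different from 2) exactly its children `b`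
(`isCh S par a b`: `b ∈ S`, `p b = a`, `b ≠ a`) and, if `p a ≠ a`, its parent `p a`, which is in `S`. The
children are outside `Z` (for `b ∈ Z`: `p b ∈ Z`), so `D b ≥ 10^-6 > 0`. The inequality of the
certificate is `D a + 10^-6 + ∑_{b child of a} g(a, b)² / D b ≤ 1` (`gU_ge`; the code of `a, b` is not `8`
because `gU 8 = 2000000` would violate the inequality: `gU_lt`; integer division: `x / y + 1 ≥` the real
quotient). The nodes of `Z` come in pairs `a, p a` without other neighbours, with label `≤ 7`, so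
`g(a, p a) > -1`.

As `x ≥ 0` and `g ≤ 0` off the diagonal, `Q(c) ≥ ∑_{a ∈ S∖Z} (x a² + ∑_{b child of a} g x_a x_b
+ [p a ≠ a] g x_a x_{p a}) + ∑_{a ∈ Z} (x a² + g x_a x_{p a})` (only the neighbours contribute; if a node
is both child and parent it is counted twice, which makes the right side smaller). The sum of the mixed
terms over `S∖Z` is `2 ∑_{b ∈ S∖Z, p b ≠ b} g x_b x_{p b}` (reindex the children; the parent of a node
outside `Z` is outside `Z`: for a parent `a' = p b ∈ Z` the node `b` would be a neighbour of `a'`, so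
`b = p a' ∈ Z`). By the inequalities, `x a² ≥ (10^-6 + D a + ∑_{b child} g²/D b) x a²`, and
`D b x_b² + 2 g x_b x_{p b} + g²/D b x_{p b}² ≥ 0`. So the part over `S∖Z` is at least `10^-6 ∑ x a²`,
and the part over `Z` is at least `∑_{a ∈ Z} (1 + g(a, p a)) / 2 * x a²` or so (`x_a x_b ≤ (x_a² + x_b²)/2`,
and `p` is an involution on `Z`). Hence `Q(c) > 0`. -/

namespace MP86a502

variable {ι : Type} {g : ι → ι → ℝ}

private theorem Pdc_abs (N Z : Finset ℕ) (hd : Disjoint N Z) (p : ℕ → ℕ) (G : ℕ → ℕ → ℝ)
    (x D : ℕ → ℝ) (ε : ℝ) (hε : 0 < ε)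
    (sym : ∀ a b, G a b = G b a) (dia : ∀ a, G a a = 1)
    (non : ∀ a ∈ N ∪ Z, ∀ b ∈ N ∪ Z, a ≠ b → G a b ≤ 0)
    (hx : ∀ a, 0 ≤ x a) (hx0 : ∃ a ∈ N ∪ Z, x a ≠ 0)
    (hZ : ∀ a ∈ Z, p a ∈ Z ∧ p (p a) = a ∧ p a ≠ a ∧ -1 < G a (p a) ∧
      ∀ b ∈ N ∪ Z, b ≠ a → b ≠ p a → G a b = 0)
    (hN : ∀ a ∈ N, ∀ b ∈ N ∪ Z, b ≠ a → G a b ≠ 0 → b ∈ N ∧ (p b = a ∨ p a = b))
    (hD : ∀ a ∈ N, 0 < D a)
    (hI : ∀ a ∈ N, D a + ε + ∑ b ∈ N, (if p b = a ∧ b ≠ a then G a b ^ 2 / D b else 0) ≤ 1) :
    0 < ∑ a ∈ N ∪ Z, ∑ b ∈ N ∪ Z, x a * x b * G a b := by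
  -- rows of `Z`
  have rZ : ∀ a ∈ Z, ∑ b ∈ N ∪ Z, x a * x b * G a b = x a ^ 2 + x a * x (p a) * G a (p a) := by
    intro a ha
    obtain ⟨h1, h2, h3, h4, h5⟩ := hZ a ha
    have e : ∑ b ∈ N ∪ Z, x a * x b * G a b = ∑ b ∈ ({a, p a} : Finset ℕ), x a * x b * G a b := by
      symm
      apply Finset.sum_subset
      · intro b hb
        simp only [Finset.mem_insert, Finset.mem_singleton] at hb
        rcases hb with rfl | rfl
        · exact Finset.mem_union_right _ ha
        · exact Finset.mem_union_right _ h1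
      · intro b hb hb2
        simp only [Finset.mem_insert, Finset.mem_singleton, not_or] at hb2
        rw [h5 b hb hb2.1 hb2.2, mul_zero]
    rw [e, Finset.sum_pair (Ne.symm h3), dia a]
    ring
  -- rows of `N`
  have rN : ∀ a ∈ N, x a ^ 2 + ∑ b ∈ N, ((if p b = a ∧ b ≠ a then x a * x b * G a b else 0) +
      (if p a = b ∧ a ≠ b then x b * x a * G b a else 0)) ≤ ∑ b ∈ N ∪ Z, x a * x b * G a b := by
    intro a ha
    have haU : a ∈ N ∪ Z := Finset.mem_union_left _ ha
    rw [Finset.sum_union hd]
    have e1 : ∑ b ∈ Z, x a * x b * G a b = 0 := by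
      refine Finset.sum_eq_zero fun b hb => ?_
      by_cases hg : G a b = 0
      · rw [hg, mul_zero]
      · exfalso
        have hba : b ≠ a := by
          rintro rfl
          exact Finset.disjoint_left.1 hd ha hb
        exact Finset.disjoint_left.1 hd (hN a ha b (Finset.mem_union_right _ hb) hba hg).1 hb
    rw [e1, add_zero, ← Finset.add_sum_erase N _ ha, ← Finset.add_sum_erase N (fun b => x a * x b * G a b) ha]
    have e2 : x a * x a * G a a = x a ^ 2 := by rw [dia a]; ring
    simp only [ne_eq, not_true_eq_false, and_false, if_false, add_zero, zero_add]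
    rw [e2]
    refine add_le_add (le_refl _) (Finset.sum_le_sum fun b hb => ?_)
    have hba : b ≠ a := Finset.ne_of_mem_erase hb
    have hbN : b ∈ N := Finset.mem_of_mem_erase hb
    have hbU : b ∈ N ∪ Z := Finset.mem_union_left _ hbN
    have hno : x a * x b * G a b ≤ 0 :=
      mul_nonpos_of_nonneg_of_nonpos (mul_nonneg (hx a) (hx b)) (non a haU b hbU (Ne.symm hba))
    have e3 : x b * x a * G b a = x a * x b * G a b := by rw [sym b a]; ring
    rw [e3]
    by_cases hg : G a b = 0
    · rw [hg]; simp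
    · rcases (hN a ha b hbU hba hg).2 with h | h
      · rw [if_pos ⟨h, hba⟩]
        split_ifs
        · linarith
        · linarith
      · rw [if_pos (show p a = b ∧ ¬ a = b from ⟨h, Ne.symm hba⟩)]
        split_ifs
        · linarith
        · linarith
  -- the part over `N`
  have pN : ε * ∑ a ∈ N, x a ^ 2 ≤ ∑ a ∈ N, ∑ b ∈ N ∪ Z, x a * x b * G a b := by
    refine le_trans ?_ (Finset.sum_le_sum rN)
    simp only [Finset.sum_add_distrib]
    have c1 : ∑ a ∈ N, ∑ b ∈ N, (if p a = b ∧ a ≠ b then x b * x a * G b a else 0) =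
        ∑ a ∈ N, ∑ b ∈ N, (if p b = a ∧ b ≠ a then x a * x b * G a b else 0) :=
      Finset.sum_comm
    rw [c1]
    have c2 : ∑ a ∈ N, (D a + ε + ∑ b ∈ N, (if p b = a ∧ b ≠ a then G a b ^ 2 / D b else 0)) *
        x a ^ 2 ≤ ∑ a ∈ N, x a ^ 2 := by
      refine Finset.sum_le_sum fun a ha => ?_
      have := mul_le_mul_of_nonneg_right (hI a ha) (sq_nonneg (x a))
      linarith
    have c3 : ∑ a ∈ N, ∑ b ∈ N, (if p b = a ∧ b ≠ a then D b * x b ^ 2 else 0) ≤
        ∑ a ∈ N, D a * x a ^ 2 := by
      rw [Finset.sum_comm]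
      refine Finset.sum_le_sum fun b hb => ?_
      have hnn : 0 ≤ D b * x b ^ 2 := mul_nonneg (hD b hb).le (sq_nonneg _)
      calc ∑ a ∈ N, (if p b = a ∧ b ≠ a then D b * x b ^ 2 else 0)
          ≤ ∑ a ∈ N, (if p b = a then D b * x b ^ 2 else 0) := by
            refine Finset.sum_le_sum fun a _ => ?_
            split_ifs with h1 h2 h2
            · exact le_refl _
            · exact absurd h1.1 h2
            · exact hnn
            · exact le_refl _
        _ ≤ D b * x b ^ 2 := by
            rw [Finset.sum_ite_eq]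
            split_ifs
            · exact le_refl _
            · exact hnn
    have c4 : 0 ≤ ∑ a ∈ N, ∑ b ∈ N, ((if p b = a ∧ b ≠ a then G a b ^ 2 / D b else 0) * x a ^ 2 +
        2 * (if p b = a ∧ b ≠ a then x a * x b * G a b else 0) +
        (if p b = a ∧ b ≠ a then D b * x b ^ 2 else 0)) := by
      refine Finset.sum_nonneg fun a _ => Finset.sum_nonneg fun b hb => ?_
      split_ifs with h
      · have hDb := hD b hb
        have e : G a b ^ 2 / D b * x a ^ 2 + 2 * (x a * x b * G a b) + D b * x b ^ 2 =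
            (G a b * x a + D b * x b) ^ 2 / D b := by
          field_simp
          ring
        rw [e]
        positivity
      · simp
    simp only [Finset.sum_add_distrib, ← Finset.mul_sum] at c4
    have c5 : ∑ a ∈ N, (D a + ε + ∑ b ∈ N, (if p b = a ∧ b ≠ a then G a b ^ 2 / D b else 0)) *
        x a ^ 2 = ∑ a ∈ N, D a * x a ^ 2 + ε * ∑ a ∈ N, x a ^ 2 +
        ∑ a ∈ N, ∑ b ∈ N, (if p b = a ∧ b ≠ a then G a b ^ 2 / D b else 0) * x a ^ 2 := by
      rw [Finset.mul_sum, ← Finset.sum_add_distrib, ← Finset.sum_add_distrib]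
      refine Finset.sum_congr rfl fun a _ => ?_
      rw [add_mul, add_mul, Finset.sum_mul]
    rw [c5] at c2
    linarith
  -- the part over `Z`
  have pZ : ∑ a ∈ Z, ∑ b ∈ N ∪ Z, x a * x b * G a b =
      ∑ a ∈ Z, ((x a - x (p a)) ^ 2 / 2 + x a * x (p a) * (1 + G a (p a))) := by
    rw [Finset.sum_congr rfl rZ]
    have inv : ∑ a ∈ Z, x (p a) ^ 2 = ∑ a ∈ Z, x a ^ 2 := by
      refine Finset.sum_nbij' (i := p) (j := p) ?_ ?_ ?_ ?_ ?_
      · intro a ha
        exact (hZ a ha).1
      · intro a ha
        exact (hZ a ha).1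
      · intro a ha
        exact (hZ a ha).2.1
      · intro a ha
        exact (hZ a ha).2.1
      · intro a ha
        rfl
    have e : ∑ a ∈ Z, ((x a - x (p a)) ^ 2 / 2 + x a * x (p a) * (1 + G a (p a))) =
        ∑ a ∈ Z, (x a ^ 2 / 2 + x (p a) ^ 2 / 2 + x a * x (p a) * G a (p a)) := by
      refine Finset.sum_congr rfl fun a _ => ?_
      ring
    rw [e, Finset.sum_add_distrib, Finset.sum_add_distrib, Finset.sum_add_distrib,
      ← Finset.sum_div, ← Finset.sum_div, inv]
    ring
  have tZ : ∀ a ∈ Z, 0 ≤ (x a - x (p a)) ^ 2 / 2 + x a * x (p a) * (1 + G a (p a)) := by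
    intro a ha
    have h1 := (hZ a ha).2.2.2.1
    have h2 : 0 ≤ x a * x (p a) := mul_nonneg (hx a) (hx (p a))
    have h3 : 0 ≤ x a * x (p a) * (1 + G a (p a)) := mul_nonneg h2 (by linarith)
    positivity
  rw [Finset.sum_union hd, pZ]
  obtain ⟨a0, ha0, hxa⟩ := hx0
  have hxp : 0 < x a0 := lt_of_le_of_ne (hx a0) (Ne.symm hxa)
  have sN : 0 ≤ ε * ∑ a ∈ N, x a ^ 2 := mul_nonneg hε.le (Finset.sum_nonneg fun a _ => sq_nonneg _)
  rcases Finset.mem_union.1 ha0 with h | h
  · have h1 : 0 < ∑ a ∈ N, x a ^ 2 :=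
      Finset.sum_pos' (fun a _ => sq_nonneg _) ⟨a0, h, by positivity⟩
    have h2 : 0 < ε * ∑ a ∈ N, x a ^ 2 := mul_pos hε h1
    have h3 := Finset.sum_nonneg tZ
    linarith
  · have h1 : 0 < ∑ a ∈ Z, ((x a - x (p a)) ^ 2 / 2 + x a * x (p a) * (1 + G a (p a))) := by
      refine Finset.sum_pos' tZ ⟨a0, h, ?_⟩
      have h4 := (hZ a0 h).2.2.2.1
      have h5 := hx (p a0)
      rcases h5.lt_or_eq with h6 | h6
      · have : 0 < x a0 * x (p a0) * (1 + G a0 (p a0)) :=
          mul_pos (mul_pos hxp h6) (by linarith)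
        positivity
      · rw [← h6]
        simp only [sub_zero, mul_zero, zero_mul, add_zero]
        positivity
    linarith


private theorem Pdc_child {S par a b : ℕ} :
    isCh S par a b = true ↔ bt S b = true ∧ nb par b = a ∧ b ≠ a := by
  unfold isCh
  rw [bcB_and, bcB_and, bcB_not]
  constructor
  · rintro ⟨h1, h2, h3⟩
    refine ⟨h1, Nat.eq_of_beq_eq_true h2, fun h => ?_⟩
    subst h
    rw [Nat.beq_refl] at h3
    exact absurd h3 (by simp)
  · rintro ⟨h1, h2, h3⟩
    refine ⟨h1, ?_, ?_⟩
    · rw [h2]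
      exact Nat.beq_refl a
    · rcases hb : Nat.beq a b with _ | _
      · rfl
      · exact absurd (Nat.eq_of_beq_eq_true hb).symm h3

/-- what the certificate says about one node -/
private theorem Pdc_row {c S Z par D a : ℕ} (ha : a < 16) (hS : bt S a = true)
    (hp : pdC c (adjM c) S Z par D = true) :
    (bt Z a = true ∧ bt Z (nb par a) = true ∧ bt S (nb par a) = true ∧
      nb par (nb par a) = a ∧ (∀ b < 16, (cd c a b ≠ 2 ∧ bt S b = true ↔ b = nb par a)) ∧
      cd c a (nb par a) ≠ 8) ∨
    (bt Z a = false ∧ (∀ b < 16, (cd c a b ≠ 2 ∧ bt S b = true ↔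
      ((bt S b = true ∧ nb par b = a ∧ b ≠ a) ∨ (nb par a ≠ a ∧ b = nb par a)))) ∧
      1 ≤ dv D a ∧ dv D a + 1 + ∑ b ∈ Finset.range 16, (if bt S b = true ∧ nb par b = a ∧ b ≠ a then
        gU (cd c a b) * 1000000 / dv D b + 1 else 0) ≤ 1000000) := by
  have h := hp
  unfold pdC at h
  rw [all16_iff] at h
  have h1 := h a ha
  rw [bcB_imp] at h1
  have h2 := h1 hS
  rw [bcB_iff] at h2
  rcases h2 with ⟨hz, h3⟩ | ⟨hz, h3⟩
  · left
    rw [bcB_and, bcB_and, bcB_and, bcB_and, bcB_not] at h3
    obtain ⟨k1, k2, k3, k4, k5⟩ := h3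
    refine ⟨hz, k1, k2, Nat.eq_of_beq_eq_true k3, ?_, ?_⟩
    · have e := Nat.eq_of_beq_eq_true k4
      intro b hb
      have e2 := congrArg (fun M => bt M b) e
      simp only [bt_land] at e2
      rw [← bt_adjM ha hb, ← Bool.and_eq_true, e2, bt_bit]
    · intro h8
      rw [h8] at k5
      exact absurd k5 (by decide)
  · right
    rw [bcB_and, bcB_and] at h3
    obtain ⟨k1, k2, k3⟩ := h3
    refine ⟨hz, ?_, ?_, ?_⟩
    · have e := Nat.eq_of_beq_eq_true k1
      intro b hb
      have e2 := congrArg (fun M => bt M b) e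
      simp only [bt_land, bt_lor] at e2
      rw [← bt_adjM ha hb, ← Bool.and_eq_true, e2, Bool.or_eq_true, bt_or16]
      constructor
      · rintro (⟨b', hb', h4⟩ | h4)
        · left
          rw [bcN_eq] at h4
          split_ifs at h4 with h5
          · rw [bt_bit] at h4
            subst h4
            exact Pdc_child.1 h5
          · have : bt 0 b = true := h4
            rw [bt_zero] at this
            exact absurd this (by simp)
        · right
          rw [bcN_eq] at h4
          split_ifs at h4 with h5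
          · have : bt 0 b = true := h4
            rw [bt_zero] at this
            exact absurd this (by simp)
          · rw [bt_bit] at h4
            refine ⟨fun h6 => h5 ?_, h4⟩
            rw [h6]
            exact Nat.beq_refl a
      · rintro (h4 | ⟨h4, h5⟩)
        · left
          refine ⟨b, hb, ?_⟩
          rw [bcN_eq, if_pos (Pdc_child.2 h4), bt_bit]
        · right
          rw [bcN_eq, if_neg ?_, bt_bit]
          · exact h5
          · intro h6
            exact h4 (Nat.eq_of_beq_eq_true h6)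
    · exact Nat.le_of_ble_eq_true k2
    · have k4 := Nat.le_of_ble_eq_true k3
      rw [sum16_eq] at k4
      rw [Finset.sum_congr rfl (g := fun b => if bt S b = true ∧ nb par b = a ∧ b ≠ a then
        gU (cd c a b) * 1000000 / dv D b + 1 else 0) ?_] at k4
      · exact k4
      · intro b _
        rw [bcN_eq]
        by_cases hc : isCh S par a b = true
        · rw [if_pos hc, if_pos (Pdc_child.1 hc)]
          rfl
        · rw [if_neg hc, if_neg (fun h5 => hc (Pdc_child.2 h5))]

theorem pdC_sound (h : Diag g) {φ : ℕ → ι} {m c S Z par D : ℕ} (hm : m ≤ 16)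
    (cod : ∀ a < m, ∀ b < m, a ≠ b → ok (cd c a b) (lab g (φ a) (φ b)))
    (sym : ∀ a < 16, ∀ b < 16, cd c a b = cd c b a) (dia : ∀ a < 16, cd c a a = 2)
    (inj : ∀ a < m, ∀ b < m, φ a = φ b → a = b) (hS : ∀ a < 16, bt S a = true → a < m)
    (hp : pdC c (adjM c) S Z par D = true) : PD g (img φ (bt S)) := by
  classical
  by_contra hcon
  obtain ⟨v, hv0, hv1, hv2⟩ := npd_nonneg (fun i j hij => h.nonpos hij) hcon
  have hinj : ∀ a ∈ (Finset.range 16).filter (fun a => bt S a = true),
      ∀ b ∈ (Finset.range 16).filter (fun a => bt S a = true), φ a = φ b → a = b := by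
    intro a ha b hb hab
    rw [Finset.mem_filter, Finset.mem_range] at ha hb
    exact inj a (hS a ha.1 ha.2) b (hS b hb.1 hb.2) hab
  have hUn : (Finset.range 16).filter (fun a => bt S a = true ∧ bt Z a = false) ∪
      (Finset.range 16).filter (fun a => bt S a = true ∧ bt Z a = true) =
      (Finset.range 16).filter (fun a => bt S a = true) := by
    ext a
    simp only [Finset.mem_union, Finset.mem_filter, Finset.mem_range]
    rcases bt Z a <;> simp
  have memU : ∀ a, a ∈ (Finset.range 16).filter (fun a => bt S a = true ∧ bt Z a = false) ∪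
      (Finset.range 16).filter (fun a => bt S a = true ∧ bt Z a = true) ↔
      a < 16 ∧ bt S a = true := by
    intro a
    rw [hUn, Finset.mem_filter, Finset.mem_range]
  have gz : ∀ a b, a < 16 → bt S a = true → b < 16 → bt S b = true → a ≠ b → cd c a b = 2 →
      g (φ a) (φ b) = 0 := by
    intro a b ha hSa hb hSb hab h2
    have hne : φ a ≠ φ b := fun he => hab (inj a (hS a ha hSa) b (hS b hb hSb) he)
    have := cod a (hS a ha hSa) b (hS b hb hSb) hab
    rw [h2] at this
    rcases this with h3 | h3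
    · exact (lab_two h hne).1 h3.2
    · omega
  have par16 : ∀ a, nb par a < 16 := fun a => nb_lt par a
  have key := Pdc_abs ((Finset.range 16).filter (fun a => bt S a = true ∧ bt Z a = false))
    ((Finset.range 16).filter (fun a => bt S a = true ∧ bt Z a = true)) ?_ (nb par)
    (fun a b => g (φ a) (φ b)) (fun a => v (φ a)) (fun a => (dv D a : ℝ) / 1000000)
    (1 / 1000000) (by norm_num) (fun a b => h.symm _ _) (fun a => h.diag _)
    (fun a _ b _ _ => ?_) (fun a => hv0 _) ?_ ?_ ?_ ?_ ?_
  · rw [hUn] at key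
    have e : ∑ i ∈ img φ (bt S), ∑ j ∈ img φ (bt S), v i * v j * g i j =
        ∑ a ∈ (Finset.range 16).filter (fun a => bt S a = true),
        ∑ b ∈ (Finset.range 16).filter (fun a => bt S a = true),
          v (φ a) * v (φ b) * g (φ a) (φ b) := by
      unfold img
      rw [Finset.sum_image hinj]
      refine Finset.sum_congr rfl fun a _ => ?_
      rw [Finset.sum_image hinj]
    rw [e] at hv2
    exact absurd key (not_lt.2 hv2)
  · rw [Finset.disjoint_left]
    intro a ha hb
    rw [Finset.mem_filter] at ha hb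
    rw [ha.2.2] at hb
    exact absurd hb.2.2 (by simp)
  · rename_i hab
    by_cases he : φ a = φ b
    · exact absurd (inj a (hS a ((memU a).1 ‹_›).1 ((memU a).1 ‹_›).2) b
        (hS b ((memU b).1 ‹_›).1 ((memU b).1 ‹_›).2) he) hab
    · exact h.nonpos he
  · obtain ⟨i, hi, hvi⟩ := hv1
    obtain ⟨a, ha, hSa, rfl⟩ := mem_img.1 hi
    exact ⟨a, (memU a).2 ⟨ha, hSa⟩, hvi⟩
  · -- pairs
    intro a ha
    rw [Finset.mem_filter, Finset.mem_range] at ha
    obtain ⟨ha, hSa, hZa⟩ := ha
    rcases Pdc_row ha hSa hp with ⟨_, h1, h2, h3, h4, h5⟩ | ⟨h1, _⟩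
    · have hne : nb par a ≠ a := by
        intro he
        have := ((h4 (nb par a) (par16 a)).2 rfl).1
        rw [he] at this
        exact this (dia a ha)
      refine ⟨?_, h3, hne, ?_, ?_⟩
      · rw [Finset.mem_filter, Finset.mem_range]
        exact ⟨par16 a, h2, h1⟩
      · have hφ : φ a ≠ φ (nb par a) := fun he =>
          hne (inj a (hS a ha hSa) _ (hS _ (par16 a) h2) he).symm
        refine (lab_fin h hφ).1 ?_
        rcases cod a (hS a ha hSa) _ (hS _ (par16 a) h2) (Ne.symm hne) with h6 | h6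
        · omega
        · exact h6.2.2
      · intro b hb hba hbp
        obtain ⟨hb16, hSb⟩ := (memU b).1 hb
        refine gz a b ha hSa hb16 hSb (Ne.symm hba) ?_
        by_contra h6
        exact hbp ((h4 b hb16).1 ⟨h6, hSb⟩)
    · rw [h1] at hZa
      exact absurd hZa (by simp)
  · -- tree part
    intro a ha b hb hba hg
    rw [Finset.mem_filter, Finset.mem_range] at ha
    obtain ⟨ha, hSa, hZa⟩ := ha
    obtain ⟨hb16, hSb⟩ := (memU b).1 hb
    rcases Pdc_row ha hSa hp with ⟨h1, _⟩ | ⟨_, h1, _⟩
    · rw [h1] at hZa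
      exact absurd hZa (by simp)
    · have hc : cd c a b ≠ 2 := fun h2 => hg (gz a b ha hSa hb16 hSb (Ne.symm hba) h2)
      have h2 := (h1 b hb16).1 ⟨hc, hSb⟩
      have h3 : bt Z b = false := by
        rcases hZb : bt Z b with _ | _
        · rfl
        · exfalso
          rcases Pdc_row hb16 hSb hp with ⟨_, k1, _, _, k4, _⟩ | ⟨k1, _⟩
          · have hc' : cd c b a ≠ 2 := by rw [← sym a ha b hb16]; exact hc
            have := (k4 a ha).1 ⟨hc', hSa⟩
            rw [← this, hZa] at k1
            exact absurd k1 (by simp)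
          · rw [k1] at hZb
            exact absurd hZb (by simp)
      refine ⟨?_, ?_⟩
      · rw [Finset.mem_filter, Finset.mem_range]
        exact ⟨hb16, hSb, h3⟩
      · rcases h2 with h4 | h4
        · exact Or.inl h4.2.1
        · exact Or.inr h4.2.symm
  · intro a ha
    rw [Finset.mem_filter, Finset.mem_range] at ha
    obtain ⟨ha, hSa, hZa⟩ := ha
    rcases Pdc_row ha hSa hp with ⟨h1, _⟩ | ⟨_, _, h1, _⟩
    · rw [h1] at hZa
      exact absurd hZa (by simp)
    · have : (0 : ℝ) < dv D a := by exact_mod_cast h1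
      show 0 < (dv D a : ℝ) / 1000000
      positivity
  · intro a ha
    rw [Finset.mem_filter, Finset.mem_range] at ha
    obtain ⟨ha, hSa, hZa⟩ := ha
    rcases Pdc_row ha hSa hp with ⟨h1, _⟩ | ⟨_, h0, h1, h2⟩
    · rw [h1] at hZa
      exact absurd hZa (by simp)
    · -- the sum
      have t : ∀ b ∈ (Finset.range 16).filter (fun a => bt S a = true ∧ bt Z a = false),
          (if nb par b = a ∧ b ≠ a then (g (φ a) (φ b)) ^ 2 / ((dv D b : ℝ) / 1000000) else 0) ≤
          (if bt S b = true ∧ nb par b = a ∧ b ≠ a then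
            (((gU (cd c a b) * 1000000 / dv D b + 1 : ℕ) : ℝ)) / 1000000 else 0) := by
        intro b hb
        rw [Finset.mem_filter, Finset.mem_range] at hb
        obtain ⟨hb16, hSb, hZb⟩ := hb
        by_cases hch : nb par b = a ∧ b ≠ a
        · rw [if_pos hch, if_pos ⟨hSb, hch⟩]
          have hdb : 1 ≤ dv D b := by
            rcases Pdc_row hb16 hSb hp with ⟨k1, _⟩ | ⟨_, _, k1, _⟩
            · rw [k1] at hZb
              exact absurd hZb (by simp)
            · exact k1
          have hlt : gU (cd c a b) * 1000000 < dv D b * (gU (cd c a b) * 1000000 / dv D b + 1) :=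
            Nat.lt_mul_div_succ _ (by omega)
          have hterm : gU (cd c a b) * 1000000 / dv D b + 1 ≤ 1000000 := by
            have hsin : (if bt S b = true ∧ nb par b = a ∧ b ≠ a then
                gU (cd c a b) * 1000000 / dv D b + 1 else 0) ≤ ∑ b ∈ Finset.range 16,
                (if bt S b = true ∧ nb par b = a ∧ b ≠ a then
                gU (cd c a b) * 1000000 / dv D b + 1 else 0) :=
              Finset.single_le_sum (f := fun b =>
              if bt S b = true ∧ nb par b = a ∧ b ≠ a then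
                gU (cd c a b) * 1000000 / dv D b + 1 else 0) (fun _ _ => Nat.zero_le _)
              (Finset.mem_range.2 hb16)
            rw [if_pos ⟨hSb, hch⟩] at hsin
            exact le_trans hsin (le_trans (Nat.le_add_left _ _) h2)
          have h8 : cd c a b ≠ 8 := by
            intro h8
            rw [h8] at hlt hterm
            have e8 : gU 8 = 2000000 := by decide +kernel
            have hdv : dv D b < 1048576 := by
              have : dv D b = D.shiftRight (20 * b) &&& 1048575 := rfl
              rw [this]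
              exact lt_of_le_of_lt Nat.and_le_right (by norm_num)
            rw [e8] at hlt hterm
            have : 2000000 * 1000000 < 1048576 * 1000000 :=
              lt_of_lt_of_le hlt (Nat.mul_le_mul hdv.le hterm)
            norm_num at this
          have hφ : φ a ≠ φ b := fun he =>
            hch.2 (inj a (hS a ha hSa) b (hS b hb16 hSb) he).symm
          have hgU := gU_ge h hφ (cod a (hS a ha hSa) b (hS b hb16 hSb) (Ne.symm hch.2)) h8
          have hdbR : (0 : ℝ) < dv D b := by exact_mod_cast hdb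
          have hltR : (gU (cd c a b) : ℝ) * 1000000 <
              dv D b * ((gU (cd c a b) * 1000000 / dv D b + 1 : ℕ) : ℝ) := by
            exact_mod_cast hlt
          rw [div_div_eq_mul_div, div_le_div_iff₀ hdbR (by norm_num)]
          nlinarith
        · rw [if_neg hch, if_neg (fun k => hch k.2)]
      have t2 : ∑ b ∈ (Finset.range 16).filter (fun a => bt S a = true ∧ bt Z a = false),
          (if nb par b = a ∧ b ≠ a then (g (φ a) (φ b)) ^ 2 / ((dv D b : ℝ) / 1000000) else 0) ≤
          ∑ b ∈ Finset.range 16, (if bt S b = true ∧ nb par b = a ∧ b ≠ a then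
            (((gU (cd c a b) * 1000000 / dv D b + 1 : ℕ) : ℝ)) / 1000000 else 0) := by
        refine le_trans (Finset.sum_le_sum t) ?_
        refine Finset.sum_le_sum_of_subset_of_nonneg (Finset.filter_subset _ _) ?_
        intro b _ _
        split_ifs
        · positivity
        · exact le_refl _
      have t3 : ∑ b ∈ Finset.range 16, (if bt S b = true ∧ nb par b = a ∧ b ≠ a then
            (((gU (cd c a b) * 1000000 / dv D b + 1 : ℕ) : ℝ)) / 1000000 else 0) =
          ((∑ b ∈ Finset.range 16, (if bt S b = true ∧ nb par b = a ∧ b ≠ a then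
            gU (cd c a b) * 1000000 / dv D b + 1 else 0) : ℕ) : ℝ) / 1000000 := by
        rw [Nat.cast_sum, Finset.sum_div]
        refine Finset.sum_congr rfl fun b _ => ?_
        split_ifs
        · rfl
        · simp
      have h2R : (dv D a : ℝ) + 1 + ((∑ b ∈ Finset.range 16,
          (if bt S b = true ∧ nb par b = a ∧ b ≠ a then
            gU (cd c a b) * 1000000 / dv D b + 1 else 0) : ℕ) : ℝ) ≤ 1000000 := by
        exact_mod_cast h2
      show (dv D a : ℝ) / 1000000 + 1 / 1000000 + _ ≤ 1
      refine le_trans (add_le_add (le_refl _) (le_trans t2 (le_of_eq t3))) ?_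
      rw [← add_div, ← add_div, div_le_one (by norm_num)]
      exact h2R

end MP86a502
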