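import Pool.Agent.Lib.MP_86a502_gt.U.Sur
import Pool.Agent.Lib.MP_86a502_gt.U.Pdc
import Pool.Agent.Lib.MP_86a502_gt.U.ChL

set_option autoImplicit false
set_option linter.unusedSectionVars false

/-! # JOB Chs. Soundness of the checker for small diagrams (120-200 lines)

`chl_sound`: induction on the tree `t` (`chl m (.split ..) c` etc. unfold by `rfl`/`show`; lemmas
`bcB_and`, `bcB_or`, `all16_iff`, ...).
* `non`: `npd_sound`: the image of the support is not positive definite, but it is a proper subset of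
  `X` (some node `a < m` is not in the support, `inj`; the support is `< m` by `dg_su`).
* `par`: `par_sound`.
* `uj`: the codes between the last node and the others are `2`, so the labels are `2`, against `adj`.
* `mt`: `ps` is a permutation of the nodes `< m` (it is onto by the first test, so injective); take
  `ψ i = φ (the node a with nb ps a = i)`; `imC c p = true` and `ok c l` imply `ok p l`.
* `split`: a label with code `10` has code `2` or `11`; a label with code `k ∈ {11, ..., 14}` has code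
  `k - 8` or `k + 1`; `cd_up`: `10 ^^^ 8 = 2`, `10 ^^^ 1 = 11`, `k ^^^ 8 = k - 8`,
  `k ^^^ (k ^^^ (k + 1)) = k + 1`. -/

namespace MP86a502

private theorem Chs_imC {c p l : ℕ} (h : imC c p = true) (hl : ok c l) : ok p l := by
  have h1 : bcB (Nat.beq c p) true (bcB (Nat.ble 10 p)
    (bcB (Nat.ble 10 c) (Nat.ble p c)
      (bcB (Nat.ble 3 c) (bcB (Nat.ble c 7) (Nat.ble p (c + 8)) false) false)) false) = true := h
  rw [bcB_or, bcB_and] at h1
  rcases h1 with h1 | ⟨h1, h2⟩
  · rwa [← Nat.eq_of_beq_eq_true h1]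
  · rw [Nat.ble_eq] at h1
    rw [bcB_iff] at h2
    rcases h2 with ⟨h2, h3⟩ | ⟨h2, h3⟩
    · rw [Nat.ble_eq] at h2 h3
      rcases hl with ⟨h4, h5⟩ | ⟨h4, h5, h6⟩
      · omega
      · exact Or.inr ⟨h1, by omega, h6⟩
    · rw [bcB_and, bcB_and, Nat.ble_eq, Nat.ble_eq, Nat.ble_eq] at h3
      obtain ⟨h3, h4, h5⟩ := h3
      rcases hl with ⟨h6, h7⟩ | ⟨h6, h7, h8⟩
      · exact Or.inr ⟨h1, by omega, by omega⟩
      · omega

private theorem Chs_ble {a m : ℕ} (h : Nat.ble (Nat.add a (nat_lit 1)) m = true) : a < m := by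
  have h1 : Nat.ble (a + 1) m = true := h
  rw [Nat.ble_eq] at h1
  exact h1

private theorem Chs_ble' {a m : ℕ} (h : a < m) : Nat.ble (Nat.add a (nat_lit 1)) m = true := by
  show Nat.ble (a + 1) m = true
  rw [Nat.ble_eq]
  exact h

section
variable {ι : Type} [Fintype ι] [DecidableEq ι] {n : ℕ} {g : ι → ι → ℝ}

private theorem Chs_mtC {X : Finset ι} {P : ℕ → ℕ → ℕ} {m c ps : ℕ} (hm : m ≤ 8) {φ : ℕ → ι}
    (inj : ∀ a < m, ∀ b < m, φ a = φ b → a = b) (mem : ∀ z, z ∈ X ↔ ∃ a < m, φ a = z)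
    (cod : ∀ a < m, ∀ b < m, a ≠ b → ok (cd c a b) (lab g (φ a) (φ b)))
    (h : mtC P m c ps = true) :
    ∃ ψ : ℕ → ι, (∀ a < m, ∀ b < m, ψ a = ψ b → a = b) ∧ (∀ z, z ∈ X ↔ ∃ a < m, ψ a = z) ∧
      ∀ a < m, ∀ b < m, a ≠ b → ok (P a b) (lab g (ψ a) (ψ b)) := by
  unfold mtC at h
  rw [bcB_and, all16_iff] at h
  obtain ⟨h1, h2⟩ := h
  have h1 := Nat.eq_of_beq_eq_true h1
  have hfull : ∀ i, bt (or16 (fun a => bcN (Nat.ble (Nat.add a (nat_lit 1)) m) (bit (nb ps a))
      (nat_lit 0))) i = true ↔ i < m := by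
    intro i
    rw [h1]
    exact bt_full (by omega)
  have hor : ∀ i, bt (or16 (fun a => bcN (Nat.ble (Nat.add a (nat_lit 1)) m) (bit (nb ps a))
      (nat_lit 0))) i = true ↔ ∃ a < m, nb ps a = i := by
    intro i
    rw [bt_or16]
    constructor
    · rintro ⟨a, ha, h3⟩
      rw [bcN_eq] at h3
      split_ifs at h3 with h4
      · exact ⟨a, Chs_ble h4, (bt_bit.mp h3).symm⟩
      · have h5 : bt 0 i = true := h3
        rw [bt_zero] at h5
        exact absurd h5 (by decide)
    · rintro ⟨a, ha, h3⟩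
      refine ⟨a, by omega, ?_⟩
      rw [bcN_eq, if_pos (Chs_ble' ha)]
      exact bt_bit.mpr h3.symm
  have hlt : ∀ a < m, nb ps a < m := fun a ha => (hfull _).mp ((hor _).mpr ⟨a, ha, rfl⟩)
  have hsurj : ∀ i < m, ∃ a < m, nb ps a = i := fun i hi => (hor i).mp ((hfull i).mpr hi)
  have hinj : ∀ a < m, ∀ b < m, nb ps a = nb ps b → a = b := by
    have h3 : Set.InjOn (nb ps) (Finset.range m : Set ℕ) := by
      refine Finset.injOn_of_surjOn_of_card_le (s := Finset.range m) (t := Finset.range m) (nb ps) ?_ ?_ le_rfl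
      · intro a ha
        rw [Finset.mem_coe, Finset.mem_range] at ha ⊢
        exact hlt a ha
      · intro i hi
        rw [Finset.mem_coe, Finset.mem_range] at hi
        obtain ⟨a, ha, h4⟩ := hsurj i hi
        exact ⟨a, by rw [Finset.mem_coe, Finset.mem_range]; exact ha, h4⟩
    intro a ha b hb hab
    exact h3 (by rw [Finset.mem_coe, Finset.mem_range]; exact ha)
      (by rw [Finset.mem_coe, Finset.mem_range]; exact hb) hab
  choose! τ hτ1 hτ2 using hsurj
  have hτσ : ∀ a < m, τ (nb ps a) = a := fun a ha =>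
    hinj _ (hτ1 _ (hlt a ha)) _ ha (hτ2 _ (hlt a ha))
  refine ⟨fun i => φ (τ i), ?_, ?_, ?_⟩
  · intro a ha b hb hab
    have h3 := inj _ (hτ1 a ha) _ (hτ1 b hb) hab
    rw [← hτ2 a ha, ← hτ2 b hb, h3]
  · intro z
    rw [mem]
    constructor
    · rintro ⟨a, ha, h3⟩
      refine ⟨nb ps a, hlt a ha, ?_⟩
      show φ (τ (nb ps a)) = z
      rw [hτσ a ha, h3]
    · rintro ⟨i, hi, h3⟩
      exact ⟨τ i, hτ1 i hi, h3⟩
  · intro i hi j hj hij
    have hne : τ i ≠ τ j := by
      intro h3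
      apply hij
      rw [← hτ2 i hi, ← hτ2 j hj, h3]
    have ha := hτ1 i hi
    have hb := hτ1 j hj
    have h3 := h2 (τ i) (by omega)
    rw [bcB_imp] at h3
    have h4 := all16_iff.mp (h3 (Chs_ble' ha)) (τ j) (by omega)
    rw [bcB_imp] at h4
    have h5 := h4 (Chs_ble' hb)
    rw [bcB_or, hτ2 i hi, hτ2 j hj] at h5
    rcases h5 with h5 | h5
    · exact absurd (Nat.eq_of_beq_eq_true h5) hne
    · exact Chs_imC h5 (cod _ ha _ hb hne)

/-- `ψ` identifies `X` with the small positive definite diagram number `e`. -/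
structure EQ (g : ι → ι → ℝ) (e : ℕ) (ψ : ℕ → ι) (X : Finset ι) : Prop where
  inj : ∀ a < eN e, ∀ b < eN e, ψ a = ψ b → a = b
  mem : ∀ z, z ∈ X ↔ ∃ a < eN e, ψ a = z
  cod : ∀ a < eN e, ∀ b < eN e, a ≠ b → ok (eP e a b) (lab g (ψ a) (ψ b))

private theorem Chs_up (h : Diag g) {φ : ℕ → ι} {m c a b v : ℕ} (hm : m ≤ 8) (hab : a ≠ b)
    (ha : a < m) (hb : b < m) (hv : v < 16)
    (cod : ∀ a < m, ∀ b < m, a ≠ b → ok (cd c a b) (lab g (φ a) (φ b)))
    (sym : ∀ a < 16, ∀ b < 16, cd c a b = cd c b a)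
    (hok : ok (cd c a b ^^^ v) (lab g (φ a) (φ b))) :
    (∀ x < m, ∀ y < m, x ≠ y → ok (cd (up c a b v) x y) (lab g (φ x) (φ y))) ∧
      ∀ x < 16, ∀ y < 16, cd (up c a b v) x y = cd (up c a b v) y x := by
  have ha' : a < 16 := by omega
  have hb' : b < 16 := by omega
  constructor
  · intro x hx y hy hxy
    rw [cd_up hab ha' hb' (by omega) (by omega) hv]
    split_ifs with h1
    · rcases h1 with ⟨rfl, rfl⟩ | ⟨rfl, rfl⟩
      · exact hok
      · rw [sym _ hb' _ ha', lab_comm h]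
        exact hok
    · exact cod x hx y hy hxy
  · intro x hx y hy
    rw [cd_up hab ha' hb' hx hy hv, cd_up hab ha' hb' hy hx hv, sym x hx y hy]
    by_cases h1 : (x = a ∧ y = b) ∨ (x = b ∧ y = a)
    · rw [if_pos h1, if_pos (by rcases h1 with h1 | h1 <;> [right; left] <;> exact ⟨h1.2, h1.1⟩)]
    · rw [if_neg h1, if_neg]
      intro h2
      apply h1
      rcases h2 with h2 | h2
      · right; exact ⟨h2.2, h2.1⟩
      · left; exact ⟨h2.2, h2.1⟩

theorem chl_sound (H : CoxH n g) {X : Finset ι} (hX : ∀ Y ⊂ X, PD g Y) {m : ℕ} (hm : 2 ≤ m)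
    (hm' : m ≤ 8) {φ : ℕ → ι} (inj : ∀ a < m, ∀ b < m, φ a = φ b → a = b)
    (mem : ∀ z, z ∈ X ↔ ∃ a < m, φ a = z)
    (ha : ∃ a, a + 1 < m ∧ adj g (φ (m - 1)) (φ a)) (t : Tl) : ∀ c : ℕ,
    (∀ a < m, ∀ b < m, a ≠ b → ok (cd c a b) (lab g (φ a) (φ b))) →
    (∀ a < 16, ∀ b < 16, cd c a b = cd c b a) → chl m t c = true →
    (∃ e < 12, ∃ ψ, EQ g e ψ X) ∨ (∃ t < 12, ∃ ψ, LP g t ψ X) := by
  have hD : Diag g := H.toCox.toDiag
  induction t with
  | non s u =>
    intro c cod sym h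
    exfalso
    have h1 : bcB (any16 (fun a => bcB (Nat.ble (Nat.add a (nat_lit 1)) m)
      (bcB (nz u a) false true) false)) (npd m c s u) false = true := h
    rw [bcB_and, any16_iff] at h1
    obtain ⟨⟨a, _, h3⟩, h2⟩ := h1
    rw [bcB_and, bcB_not] at h3
    have ham := Chs_ble h3.1
    have hsu : su m u = true := by
      unfold npd at h2
      rw [bcB_and] at h2
      exact h2.1
    have hlt : ∀ b, nz u b = true → b < m := by
      intro b hb
      by_contra hbm
      rw [nz_iff, dg_su hsu (not_lt.mp hbm)] at hb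
      omega
    refine npd_sound hD (by omega) cod inj h2 (hX _ ?_)
    rw [Finset.ssubset_iff_of_subset]
    · refine ⟨φ a, (mem _).mpr ⟨a, ham, rfl⟩, ?_⟩
      intro h4
      obtain ⟨b, _, h5, h6⟩ := mem_img.mp h4
      have h7 := inj b (hlt b h5) a ham h6
      rw [h7, h3.2] at h5
      exact absurd h5 (by decide)
    · intro z hz
      obtain ⟨b, _, h5, h6⟩ := mem_img.mp hz
      exact (mem z).mpr ⟨b, hlt b h5, h6⟩
  | par s u =>
    intro c cod sym h
    exact (par_sound H (by omega) cod inj h).elim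
  | uj =>
    intro c cod sym h
    exfalso
    obtain ⟨a, ham, hadj⟩ := ha
    have h1 : all16 (fun a => bcB (Nat.ble (a + 2) m) (Nat.beq (cd c (m - 1) a) 2) true) = true := h
    have h2 := all16_iff.mp h1 a (by omega)
    rw [bcB_imp, Nat.ble_eq] at h2
    have h3 := Nat.eq_of_beq_eq_true (h2 (by omega))
    have h4 := cod (m - 1) (by omega) a (by omega) (by omega)
    rw [h3] at h4
    have h5 := (lab_adj hD).mp hadj
    rcases h4 with h4 | h4
    · exact h5.2 h4.2
    · omega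
  | mt k ps =>
    intro c cod sym h
    have h1 : bcB (Nat.ble 12 k)
      (bcB (Nat.ble k 23) (bcB (Nat.beq (lN (k - 12)) m)
        (mtC (lP (k - 12)) m c ps) false) false)
      (bcB (Nat.beq (eN k) m) (mtC (eP k) m c ps) false) = true := h
    rw [bcB_iff] at h1
    rcases h1 with ⟨h1, h2⟩ | ⟨h1, h2⟩
    · right
      rw [bcB_and, bcB_and, Nat.ble_eq] at h2
      rw [Nat.ble_eq] at h1
      obtain ⟨h2, h3, h4⟩ := h2
      have h3 := Nat.eq_of_beq_eq_true h3
      obtain ⟨ψ, h5, h6, h7⟩ := Chs_mtC hm' inj mem cod h4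
      refine ⟨k - 12, by omega, ψ, ?_, ?_, ?_⟩
      · rw [h3]; exact h5
      · rw [h3]; exact h6
      · rw [h3]; exact h7
    · left
      rw [bcB_and] at h2
      have h1 : ¬ 12 ≤ k := by
        intro h3
        rw [← Nat.ble_eq, h1] at h3
        exact absurd h3 (by decide)
      obtain ⟨h3, h4⟩ := h2
      have h3 := Nat.eq_of_beq_eq_true h3
      obtain ⟨ψ, h5, h6, h7⟩ := Chs_mtC hm' inj mem cod h4
      refine ⟨k, by omega, ψ, ?_, ?_, ?_⟩
      · rw [h3]; exact h5
      · rw [h3]; exact h6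
      · rw [h3]; exact h7
  | split a b t₁ t₂ ih₁ ih₂ =>
    intro c cod sym h
    have h1 : bcB (Nat.ble (Nat.add b (nat_lit 1)) a)
      (bcB (Nat.ble (Nat.add a (nat_lit 1)) m)
        (bcB (Nat.beq (cd c a b) 10)
          (bcB (chl m t₁ (up c a b 8)) (chl m t₂ (up c a b 1)) false)
          (bcB (Nat.ble 11 (cd c a b)) (bcB (Nat.ble (cd c a b) 14)
            (bcB (chl m t₁ (up c a b 8))
              (chl m t₂ (up c a b (Nat.xor (cd c a b) (cd c a b + 1))))
              false) false) false)) false) false = true := h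
    rw [bcB_and, bcB_and, bcB_iff] at h1
    obtain ⟨hba, ham, h1⟩ := h1
    have hba := Chs_ble hba
    have ham := Chs_ble ham
    have hbm : b < m := by omega
    have hab : a ≠ b := by omega
    have hok := cod a ham b hbm hab
    have hrng := lab_rng hD (i := φ a) (j := φ b) (fun h2 => hab (inj a ham b hbm h2))
    rcases h1 with ⟨h1, h2⟩ | ⟨_, h2⟩
    · have h1 := Nat.eq_of_beq_eq_true h1
      rw [bcB_and] at h2
      by_cases hl : lab g (φ a) (φ b) = 2
      · obtain ⟨h3, h4⟩ := Chs_up hD hm' hab ham hbm (v := 8) (by norm_num) cod sym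
          (by rw [h1]; left; exact ⟨by decide, by rw [hl]; rfl⟩)
        exact ih₁ _ h3 h4 h2.1
      · obtain ⟨h3, h4⟩ := Chs_up hD hm' hab ham hbm (v := 1) (by norm_num) cod sym
          (by
            rw [h1] at hok ⊢
            have h5 : (10 ^^^ 1 : ℕ) = 11 := rfl
            rw [h5]
            rcases hok with hok | hok
            · omega
            · right; omega)
        exact ih₂ _ h3 h4 h2.2
    · rw [bcB_and, bcB_and, bcB_and, Nat.ble_eq, Nat.ble_eq] at h2
      obtain ⟨h11, h14, h2, h2'⟩ := h2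
      have hk8 : ∀ k : ℕ, 11 ≤ k → k ≤ 14 → k ^^^ 8 = k - 8 := by
        intro k h3 h4
        interval_cases k <;> rfl
      have hk1 : ∀ k : ℕ, 11 ≤ k → k ≤ 14 → Nat.xor k (k + 1) < 16 ∧ k ^^^ (Nat.xor k (k + 1)) = k + 1 := by
        intro k h3 h4
        interval_cases k <;> exact ⟨by decide, rfl⟩
      rcases hok with hok | hok
      · omega
      by_cases hl : lab g (φ a) (φ b) = cd c a b - 8
      · obtain ⟨h3, h4⟩ := Chs_up hD hm' hab ham hbm (v := 8) (by norm_num) cod sym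
          (by rw [hk8 _ h11 h14]; left; exact ⟨by omega, hl⟩)
        exact ih₁ _ h3 h4 h2
      · obtain ⟨h3, h4⟩ := Chs_up hD hm' hab ham hbm (v := Nat.xor (cd c a b) (cd c a b + 1))
          (hk1 _ h11 h14).1 cod sym
          (by rw [(hk1 _ h11 h14).2]; right; omega)
        exact ih₂ _ h3 h4 h2'

end

end MP86a502
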