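import Pool.Agent.Lib.MP_86a502_gt.U.Def2

set_option autoImplicit false
set_option linter.unusedSectionVars false

/-! # Complements -/

namespace MP86a502

section
variable {ι : Type} [DecidableEq ι]

/-- the complement of four facets -/
def co4 (W : Finset ι) (x x' y y' : ι) : Finset ι := (((W.erase x).erase x').erase y).erase y'

/-- the complement of three facets -/
def co3 (W : Finset ι) (x y z : ι) : Finset ι := ((W.erase x).erase y).erase z

end

end MP86a502
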