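import Pool.Agent.Lib.MP_86a502_gt.U.Rlc

set_option autoImplicit false
set_option maxRecDepth 1000000
set_option linter.all false

/-! Certificates, numbers 742 to 742. -/

namespace MP86a502

noncomputable def t742_1 : Tr := (.ex (nat_lit 6) (.ex (nat_lit 7) (.pd (.cons (nat_lit 0) (nat_lit 4) (nat_lit 0) (nat_lit 0x65502110) (nat_lit 0xf423fb71ae1f15600000f423fb71ae1f15600000) (.cons (nat_lit 1) (nat_lit 4) (nat_lit 0) (nat_lit 0x65502200) (nat_lit 0xf423fb71ae1f15600000f423fb71ae00000f423f) (.cons (nat_lit 2) (nat_lit 4) (nat_lit 0) (nat_lit 0x65503000) (nat_lit 0xf423fb71ae1f15600000f423f00000f423fb71ae) (.cons (nat_lit 3) (nat_lit 4) (nat_lit 0) (nat_lit 0x65500100) (nat_lit 0xf423fb71ae1f1560000000000f423f54591437a2) .nil)))) (.leaf (.cons (nat_lit 0x554) (nat_lit 0x100020003000400030000) (.cons (nat_lit 0x1550) (nat_lit 0x3000400030002000100000000) (.cons (nat_lit 0x1541) (nat_lit 0x2000200020001000000000001) (.cons (nat_lit 0x515) (nat_lit 0x100020000000300040003) .nil)))) .nil)) (.split (nat_lit 8)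 (nat_lit 0) (.split (nat_lit 8) (nat_lit 1) (.split (nat_lit 8) (nat_lit 2) (.split (nat_lit 8) (nat_lit 3) (.split (nat_lit 8) (nat_lit 4) (.split (nat_lit 8) (nat_lit 6) (.split (nat_lit 8) (nat_lit 5) (.sup (nat_lit 0x300050008000700010000000000000000) (nat_lit 0x2000600060002)) (.unj (nat_lit 0x55) (nat_lit 0x1000200020001) (nat_lit 0x15400) (nat_lit 0x100010001000100000000000000000000))) (.non (nat_lit 1) (nat_lit 5) (nat_lit 0x15000) (nat_lit 0x100010001000000000000000000000000))) (.non (nat_lit 1) (nat_lit 6) (nat_lit 0x10541) (nat_lit 0x100000000000100020001000000000001))) (.non (nat_lit 1) (nat_lit 6) (nat_lit 0x10551) (nat_lit 0x100000000000100020002000100000001))) (.non (nat_lit 0) (nat_lit 5) (nat_lit 0x15014) (nat_lit 0x300020001000000000000000400030000))) (.non (nat_lit 0) (nat_lit 5) (nat_lit 0x15014) (nat_lit 0x300020001000000000000000300040000))) (.non (nat_lit 2) (nat_lit 6) (nat_lit 0x10545) (nat_lit 0x100000000000100020001000000010002)))) (.split (nat_lit 8) (nat_lit 0) (.split (nat_lit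 8) (nat_lit 1) (.split (nat_lit 8) (nat_lit 2) (.split (nat_lit 8) (nat_lit 3) (.split (nat_lit 8) (nat_lit 4) (.split (nat_lit 8) (nat_lit 7) (.split (nat_lit 8) (nat_lit 5) (.unj (nat_lit 0x55) (nat_lit 0x1000200020001) (nat_lit 0x15400) (nat_lit 0x100010002000200000000000000000000)) (.unj (nat_lit 0x11400) (nat_lit 0x100000001000100000000000000000000) (nat_lit 0x55) (nat_lit 0x1000200020001))) (.non (nat_lit 1) (nat_lit 5) (nat_lit 0x15000) (nat_lit 0x100010001000000000000000000000000))) (.non (nat_lit 1) (nat_lit 6) (nat_lit 0x10541) (nat_lit 0x100000000000100020001000000000001))) (.non (nat_lit 1) (nat_lit 6) (nat_lit 0x10551) (nat_lit 0x100000000000100020002000100000001))) (.star (nat_lit 8) (nat_lit 2) (nat_lit 6))) (.star (nat_lit 8) (nat_lit 1) (nat_lit 6))) (.non (nat_lit 2) (nat_lit 6) (nat_lit 0x10545) (nat_lit 0x100000000000100020001000000010002))))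

noncomputable def t742_2 : Tr := (.ex (nat_lit 7) (.split (nat_lit 8) (nat_lit 7) (.pd (.cons (nat_lit 2) (nat_lit 4) (nat_lit 0) (nat_lit 0x765503000) (nat_lit 0xf423fb71aea2c280473700000f423f00000f423fb71ae) .nil) (.split (nat_lit 8) (nat_lit 2) (.split (nat_lit 4) (nat_lit 0) (.split (nat_lit 4) (nat_lit 3) (.leaf (.cons (nat_lit 0x15410) (nat_lit 0x200030004000300000000000100000000) (.cons (nat_lit 0x15014) (nat_lit 0x300020001000000000000000400030000) (.cons (nat_lit 0x10054) (nat_lit 0x100000000000000000001000200020000) (.cons (nat_lit 0x1550) (nat_lit 0x3000400030002000100000000) (.cons (nat_lit 0x1541) (nat_lit 0x2000200020001000000000001) (.cons (nat_lit 0x10015) (nat_lit 0x100000000000000000000000200020001) .nil)))))) (.cons (nat_lit 0x111011101) (nat_lit 0x100010) (nat_lit 5) (nat_lit 0x456012300) .nil)) (.non (nat_lit 1) (nat_lit 5) (nat_lit 0x201a1) (nat_lit 0x100000000000000040003000200000002))) (.non (nat_lit 1) (nat_lit 6) (nat_lit 0xa81) (nat_lit 0x100020001000000000002))) (.non (nat_lit 1)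 (nat_lit 5) (nat_lit 0x2a050) (nat_lit 0x300020001000000000002000400000000)))) (.non (nat_lit 1) (nat_lit 5) (nat_lit 0x1a050) (nat_lit 0x300020001000000000001000200000000))) (.split (nat_lit 9) (nat_lit 0) (.split (nat_lit 9) (nat_lit 2) (.split (nat_lit 9) (nat_lit 3) (.split (nat_lit 9) (nat_lit 4) (.split (nat_lit 9) (nat_lit 5) (.split (nat_lit 9) (nat_lit 6) (.split (nat_lit 9) (nat_lit 8) (.split (nat_lit 9) (nat_lit 1) (.sup (nat_lit 0x25004a00500028) (nat_lit 0x1c000300370050004100000000000000000000)) (.st (nat_lit 7) (nat_lit 1) (nat_lit 5) (nat_lit 0x55000) (nat_lit 0x1000100020001000000000000000000000000) (nat_lit 1) (nat_lit 1) (.st (nat_lit 9) (nat_lit 1) (nat_lit 5) (nat_lit 0x55151) (nat_lit 0x4000500060003000000020003000400000001) (nat_lit 1) (nat_lit 2) (.split (nat_lit 9) (nat_lit 7) (.split (nat_lit 8) (nat_lit 2) (.split (nat_lit 8) (nat_lit 7) (.split (nat_lit 4) (nat_lit 0) (.split (nat_lit 4) (nat_lit 3) (.leaf (.cons (nat_lit 0x55400) (nat_lit 0x1000100020002000200000000000000000000)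 (.cons (nat_lit 0x50014) (nat_lit 0x1000100000000000000000000000200020000) (.cons (nat_lit 0x1550) (nat_lit 0x3000400030002000100000000) (.cons (nat_lit 0x1541) (nat_lit 0x2000200020001000000000001) .nil)))) (.cons (nat_lit 0x1111011101) (nat_lit 0x100010) (nat_lit 0xb) (nat_lit 0x2301065407) (.cons (nat_lit 0x1110111101) (nat_lit 0x1000010) (nat_lit 0xb) (nat_lit 0x7560203401) .nil))) (.non (nat_lit 1) (nat_lit 5) (nat_lit 0x55250) (nat_lit 0x1000200020001000000010002000200000000))) (.non (nat_lit 1) (nat_lit 5) (nat_lit 0xaa2a1) (nat_lit 0x1000200020001000000020002000200000002))) (.non (nat_lit 1) (nat_lit 5) (nat_lit 0x65000) (nat_lit 0x1000100020001000000000000000000000000))) (.non (nat_lit 1) (nat_lit 5) (nat_lit 0xaa010) (nat_lit 0x1000200020001000000000000000200000000))) (.non (nat_lit 1) (nat_lit 5) (nat_lit 0x95000) (nat_lit 0x1000100020001000000000000000000000000)))))) (.non (nat_lit 1) (nat_lit 5) (nat_lit 0x54000) (nat_lit 0x1000100010000000000000000000000000000))) (.non (nat_lit 1) (nat_lit 5)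 (nat_lit 0x45000) (nat_lit 0x1000000010001000000000000000000000000))) (.non (nat_lit 1) (nat_lit 6) (nat_lit 0x54550) (nat_lit 0x1000100010000000100010001000100000000))) (.non (nat_lit 1) (nat_lit 5) (nat_lit 0x54150) (nat_lit 0x1000100010000000000010001000100000000))) (.non (nat_lit 1) (nat_lit 5) (nat_lit 0x54050) (nat_lit 0x1000100010000000000000001000100000000))) (.non (nat_lit 1) (nat_lit 5) (nat_lit 0x54010) (nat_lit 0x1000100010000000000000000000100000000))) (.non (nat_lit 1) (nat_lit 5) (nat_lit 0x54151) (nat_lit 0x1000100010000000000010001000100000001))))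

noncomputable def t742_3 : Tr := (.split (nat_lit 8) (nat_lit 7) (.sup (nat_lit 0x500000000000000000002000a00080000) (nat_lit 0x5000a000900020000000000000000)) (.st (nat_lit 8) (nat_lit 1) (nat_lit 6) (nat_lit 0x14551) (nat_lit 0x200010000000100020002000200000001) (nat_lit 1) (nat_lit 1) (.st (nat_lit 2) (nat_lit 1) (nat_lit 5) (nat_lit 0x15151) (nat_lit 0x300020001000000020003000400000001) (nat_lit 1) (nat_lit 2) (.ex (nat_lit 5) (.ex (nat_lit 6) t742_2 (.split (nat_lit 9) (nat_lit 0) (.split (nat_lit 9) (nat_lit 1) (.split (nat_lit 9) (nat_lit 2) (.split (nat_lit 9) (nat_lit 3) (.split (nat_lit 9) (nat_lit 4) (.split (nat_lit 9) (nat_lit 7) (.split (nat_lit 9) (nat_lit 8) (.split (nat_lit 9) (nat_lit 5) (.unj (nat_lit 0x55) (nat_lit 0x1000200020001) (nat_lit 0x45400) (nat_lit 0x1000000010002000200000000000000000000)) (.unj (nat_lit 0x41400) (nat_lit 0x1000000000001000100000000000000000000) (nat_lit 0x55) (nat_lit 0x1000200020001))) (.non (nat_lit 1) (nat_lit 5) (nat_lit 0x55000) (nat_lit 0x1000100010001000000000000000000000000)))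 (.non (nat_lit 1) (nat_lit 5) (nat_lit 0x45000) (nat_lit 0x1000000010001000000000000000000000000))) (.non (nat_lit 1) (nat_lit 5) (nat_lit 0x55150) (nat_lit 0x1000100010001000000010001000100000000))) (.non (nat_lit 1) (nat_lit 5) (nat_lit 0x55050) (nat_lit 0x1000100010001000000000001000100000000))) (.star (nat_lit 9) (nat_lit 2) (nat_lit 6))) (.star (nat_lit 9) (nat_lit 1) (nat_lit 6))) (.non (nat_lit 1) (nat_lit 5) (nat_lit 0x55151) (nat_lit 0x1000100010001000000010001000100000001)))) (.split (nat_lit 9) (nat_lit 0) (.split (nat_lit 9) (nat_lit 1) (.split (nat_lit 9) (nat_lit 2) (.split (nat_lit 9) (nat_lit 3) (.split (nat_lit 9) (nat_lit 4) (.split (nat_lit 9) (nat_lit 7) (.split (nat_lit 9) (nat_lit 8) (.split (nat_lit 9) (nat_lit 6) (.unj (nat_lit 0x55) (nat_lit 0x1000200020001) (nat_lit 0x45400) (nat_lit 0x1000000010002000200000000000000000000)) (.unj (nat_lit 0x41400) (nat_lit 0x1000000000001000100000000000000000000) (nat_lit 0x55) (nat_lit 0x1000200020001))) (.non (nat_lit 1) (nat_lit 6) (nat_lit 0x50550)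 (nat_lit 0x1000100000000000100010001000100000000))) (.non (nat_lit 1) (nat_lit 6) (nat_lit 0x54550) (nat_lit 0x1000100010000000100010001000100000000))) (.non (nat_lit 1) (nat_lit 6) (nat_lit 0x40500) (nat_lit 0x1000000000000000100010000000000000000))) (.non (nat_lit 1) (nat_lit 6) (nat_lit 0x40540) (nat_lit 0x1000000000000000100010001000000000000))) (.star (nat_lit 9) (nat_lit 2) (nat_lit 5))) (.star (nat_lit 9) (nat_lit 1) (nat_lit 5))) (.non (nat_lit 1) (nat_lit 6) (nat_lit 0x40501) (nat_lit 0x1000000000000000100010000000000000001)))))))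

noncomputable def t742_4 : Tr := (.split (nat_lit 9) (nat_lit 0) (.split (nat_lit 9) (nat_lit 1) (.split (nat_lit 9) (nat_lit 3) (.split (nat_lit 9) (nat_lit 4) (.split (nat_lit 9) (nat_lit 5) (.split (nat_lit 9) (nat_lit 6) (.split (nat_lit 9) (nat_lit 8) (.split (nat_lit 9) (nat_lit 2) (.sup (nat_lit 0x280050004a0025) (nat_lit 0x1c000300370050004100000000000000000000)) (.st (nat_lit 2) (nat_lit 1) (nat_lit 5) (nat_lit 0x55050) (nat_lit 0x2000100020001000000000001000200000000) (nat_lit 1) (nat_lit 1) (.st (nat_lit 7) (nat_lit 1) (nat_lit 5) (nat_lit 0x55000) (nat_lit 0x1000100020001000000000000000000000000) (nat_lit 1) (nat_lit 1) (.st (nat_lit 9) (nat_lit 1) (nat_lit 5) (nat_lit 0x55010) (nat_lit 0x2000100020001000000000000000100000000) (nat_lit 1) (nat_lit 1) (.split (nat_lit 9) (nat_lit 2) (.split (nat_lit 9) (nat_lit 7) (.split (nat_lit 8) (nat_lit 7) (.split (nat_lit 4) (nat_lit 0) (.split (nat_lit 4) (nat_lit 3) (.leaf (.cons (nat_lit 0x55400) (nat_lit 0x1000100020002000200000000000000000000) (.cons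 (nat_lit 0x50014) (nat_lit 0x1000100000000000000000000000200020000) (.cons (nat_lit 0x1550) (nat_lit 0x3000400030002000100000000) (.cons (nat_lit 0x1541) (nat_lit 0x2000200020001000000000001) .nil)))) (.cons (nat_lit 0x1111011101) (nat_lit 0x100010) (nat_lit 0xb) (nat_lit 0x3201065407) (.cons (nat_lit 0x1110111101) (nat_lit 0x1000010) (nat_lit 0xb) (nat_lit 0x5760203401) .nil))) (.non (nat_lit 1) (nat_lit 5) (nat_lit 0x55250) (nat_lit 0x2000100020001000000010002000200000000))) (.non (nat_lit 1) (nat_lit 5) (nat_lit 0xaa2a1) (nat_lit 0x2000100020001000000020002000200000002))) (.non (nat_lit 1) (nat_lit 5) (nat_lit 0x65000) (nat_lit 0x1000100020001000000000000000000000000))) (.non (nat_lit 1) (nat_lit 5) (nat_lit 0x95000) (nat_lit 0x1000100020001000000000000000000000000))) (.non (nat_lit 1) (nat_lit 5) (nat_lit 0xaa010) (nat_lit 0x2000100020001000000000000000200000000))))))) (.non (nat_lit 1) (nat_lit 5) (nat_lit 0x54000) (nat_lit 0x1000100010000000000000000000000000000))) (.non (nat_lit 1) (nat_lit 5) (nat_lit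 0x45000) (nat_lit 0x1000000010001000000000000000000000000))) (.non (nat_lit 2) (nat_lit 6) (nat_lit 0x54505) (nat_lit 0x1000100010000000100010000000000010001))) (.non (nat_lit 1) (nat_lit 5) (nat_lit 0x55141) (nat_lit 0x2000100020001000000020001000000000001))) (.non (nat_lit 1) (nat_lit 5) (nat_lit 0x55150) (nat_lit 0x2000100020001000000010002000100000000))) (.non (nat_lit 2) (nat_lit 5) (nat_lit 0x54004) (nat_lit 0x1000100010000000000000000000000010000))) (.non (nat_lit 2) (nat_lit 5) (nat_lit 0x54005) (nat_lit 0x1000100010000000000000000000000010001)))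

noncomputable def t742_5 : Tr := (.ex (nat_lit 5) (.ex (nat_lit 6) (.ex (nat_lit 7) (.split (nat_lit 8) (nat_lit 7) (.pd (.cons (nat_lit 1) (nat_lit 4) (nat_lit 0) (nat_lit 0x765502200) (nat_lit 0xf423fb71aea2c280473700000f423fb71ae00000f423f) .nil) (.split (nat_lit 4) (nat_lit 0) (.split (nat_lit 4) (nat_lit 3) (.split (nat_lit 8) (nat_lit 1) (.leaf (.cons (nat_lit 0x15404) (nat_lit 0x200030004000300000000000000010000) (.cons (nat_lit 0x15014) (nat_lit 0x300020001000000000000000300040000) (.cons (nat_lit 0x10054) (nat_lit 0x100000000000000000001000200020000) (.cons (nat_lit 0x1550) (nat_lit 0x3000400030002000100000000) (.cons (nat_lit 0x1541) (nat_lit 0x2000200020001000000000001) (.cons (nat_lit 0x10015) (nat_lit 0x100000000000000000000000200020001) .nil)))))) (.cons (nat_lit 0x111011011) (nat_lit 0x100100) (nat_lit 5) (nat_lit 0x456010032) .nil)) (.non (nat_lit 2) (nat_lit 5) (nat_lit 0x2a005) (nat_lit 0x300020001000000000000000000040002))) (.non (nat_lit 1) (nat_lit 6) (nat_lit 0x581) (nat_lit 0x100020001000000000001)))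 (.non (nat_lit 1) (nat_lit 6) (nat_lit 0xa81) (nat_lit 0x100020001000000000002)))) (.non (nat_lit 2) (nat_lit 5) (nat_lit 0x1a005) (nat_lit 0x300020001000000000000000000020001))) t742_4) (.split (nat_lit 9) (nat_lit 0) (.split (nat_lit 9) (nat_lit 1) (.split (nat_lit 9) (nat_lit 2) (.split (nat_lit 9) (nat_lit 3) (.split (nat_lit 9) (nat_lit 4) (.split (nat_lit 9) (nat_lit 7) (.split (nat_lit 9) (nat_lit 8) (.split (nat_lit 9) (nat_lit 5) (.unj (nat_lit 0x55) (nat_lit 0x1000200020001) (nat_lit 0x45400) (nat_lit 0x1000000010002000200000000000000000000)) (.unj (nat_lit 0x41400) (nat_lit 0x1000000000001000100000000000000000000) (nat_lit 0x55) (nat_lit 0x1000200020001))) (.non (nat_lit 1) (nat_lit 5) (nat_lit 0x55000) (nat_lit 0x1000100010001000000000000000000000000))) (.non (nat_lit 1) (nat_lit 5) (nat_lit 0x45000) (nat_lit 0x1000000010001000000000000000000000000))) (.non (nat_lit 1) (nat_lit 6) (nat_lit 0x40541) (nat_lit 0x1000000000000000100020001000000000001))) (.non (nat_lit 1) (nat_lit 6) (nat_lit 0x40551)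 (nat_lit 0x1000000000000000100020002000100000001))) (.star (nat_lit 9) (nat_lit 2) (nat_lit 6))) (.star (nat_lit 9) (nat_lit 1) (nat_lit 6))) (.non (nat_lit 2) (nat_lit 5) (nat_lit 0x55005) (nat_lit 0x1000100010001000000000000000000010001)))) (.split (nat_lit 9) (nat_lit 0) (.split (nat_lit 9) (nat_lit 1) (.split (nat_lit 9) (nat_lit 2) (.split (nat_lit 9) (nat_lit 3) (.split (nat_lit 9) (nat_lit 4) (.split (nat_lit 9) (nat_lit 7) (.split (nat_lit 9) (nat_lit 8) (.split (nat_lit 9) (nat_lit 6) (.unj (nat_lit 0x55) (nat_lit 0x1000200020001) (nat_lit 0x45400) (nat_lit 0x1000000010002000200000000000000000000)) (.unj (nat_lit 0x41400) (nat_lit 0x1000000000001000100000000000000000000) (nat_lit 0x55) (nat_lit 0x1000200020001))) (.non (nat_lit 2) (nat_lit 6) (nat_lit 0x50505) (nat_lit 0x1000100000000000100010000000000010001))) (.non (nat_lit 2) (nat_lit 6) (nat_lit 0x54505) (nat_lit 0x1000100010000000100010000000000010001))) (.non (nat_lit 1) (nat_lit 6) (nat_lit 0x40500) (nat_lit 0x1000000000000000100010000000000000000)))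 (.non (nat_lit 1) (nat_lit 6) (nat_lit 0x40540) (nat_lit 0x1000000000000000100010001000000000000))) (.star (nat_lit 9) (nat_lit 2) (nat_lit 5))) (.star (nat_lit 9) (nat_lit 1) (nat_lit 5))) (.non (nat_lit 1) (nat_lit 6) (nat_lit 0x40501) (nat_lit 0x1000000000000000100010000000000000001))))

noncomputable def t742_6 : Tr := (.ex (nat_lit 1) (.ex (nat_lit 2) (.split (nat_lit 4) (nat_lit 3) (.split (nat_lit 4) (nat_lit 0) (.pd (.cons (nat_lit 0) (nat_lit 5) (nat_lit 0) (nat_lit 0x66032110) (nat_lit 0xf423fb71ae00000f423fb71aea2c280473700000) (.cons (nat_lit 3) (nat_lit 5) (nat_lit 0) (nat_lit 0x66000100) (nat_lit 0xf423fb71ae00000f423f00000f423f5459106711) .nil)) (.ex (nat_lit 5) t742_1 (.split (nat_lit 8) (nat_lit 0) (.split (nat_lit 8) (nat_lit 1) (.split (nat_lit 8) (nat_lit 2) (.split (nat_lit 8) (nat_lit 3) (.split (nat_lit 8) (nat_lit 4) (.split (nat_lit 8) (nat_lit 6) (.split (nat_lit 8) (nat_lit 7) (.unj (nat_lit 0x55) (nat_lit 0x1000200020001) (nat_lit 0x15400) (nat_lit 0x100010002000200000000000000000000))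 (.unj (nat_lit 0x55) (nat_lit 0x1000200020001) (nat_lit 0x15400) (nat_lit 0x100010001000100000000000000000000))) (.split (nat_lit 8) (nat_lit 7) (.unj (nat_lit 0x11400) (nat_lit 0x100000001000100000000000000000000) (nat_lit 0x55) (nat_lit 0x1000200020001)) (.non (nat_lit 1) (nat_lit 5) (nat_lit 0x15000) (nat_lit 0x100010001000000000000000000000000)))) (.non (nat_lit 1) (nat_lit 6) (nat_lit 0x10500) (nat_lit 0x100000000000100010000000000000000))) (.non (nat_lit 1) (nat_lit 6) (nat_lit 0x10540) (nat_lit 0x100000000000100010001000000000000))) (.star (nat_lit 8) (nat_lit 2) (nat_lit 5))) (.star (nat_lit 8) (nat_lit 1) (nat_lit 5))) (.non (nat_lit 1) (nat_lit 6) (nat_lit 0x10501) (nat_lit 0x100000000000100010000000000000001))))) (.non (nat_lit 1) (nat_lit 6) (nat_lit 0xa81) (nat_lit 0x100020001000000000002))) (.non (nat_lit 1) (nat_lit 6) (nat_lit 0x581) (nat_lit 0x100020001000000000001))) (.split (nat_lit 8) (nat_lit 0) (.split (nat_lit 8) (nat_lit 3) (.split (nat_lit 8) (nat_lit 4) (.split (nat_lit 8) (nat_lit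 5) (.split (nat_lit 8) (nat_lit 6) (.split (nat_lit 8) (nat_lit 1) t742_3 (.split (nat_lit 8) (nat_lit 7) (.unj (nat_lit 0x10014) (nat_lit 0x100000000000000000000000100010000) (nat_lit 0x5500) (nat_lit 0x10002000200010000000000000000)) (.sup (nat_lit 0x400000000000000000000000a000a0000) (nat_lit 0x20009000a00050000000000000000)))) (.star (nat_lit 8) (nat_lit 2) (nat_lit 6))) (.star (nat_lit 8) (nat_lit 2) (nat_lit 5))) (.non (nat_lit 1) (nat_lit 5) (nat_lit 0x10150) (nat_lit 0x100000000000000010001000100000000))) (.non (nat_lit 1) (nat_lit 5) (nat_lit 0x10050) (nat_lit 0x100000000000000000001000100000000))) (.non (nat_lit 1) (nat_lit 5) (nat_lit 0x10151) (nat_lit 0x100000000000000010001000100000001)))) (.split (nat_lit 8) (nat_lit 0) (.split (nat_lit 8) (nat_lit 3) (.split (nat_lit 8) (nat_lit 4) (.split (nat_lit 8) (nat_lit 5) (.split (nat_lit 8) (nat_lit 6) (.split (nat_lit 8) (nat_lit 2) (.split (nat_lit 8) (nat_lit 7) (.sup (nat_lit 0x5000000000000000000000008000a0002) (nat_lit 0x5000a000900020000000000000000))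 (.st (nat_lit 8) (nat_lit 2) (nat_lit 6) (nat_lit 0x14545) (nat_lit 0x200010000000100020001000000020002) (nat_lit 1) (nat_lit 1) (.st (nat_lit 1) (nat_lit 2) (nat_lit 5) (nat_lit 0x15145) (nat_lit 0x300020001000000020001000000040003) (nat_lit 1) (nat_lit 2) t742_5))) (.split (nat_lit 8) (nat_lit 7) (.unj (nat_lit 0x10014) (nat_lit 0x100000000000000000000000100010000) (nat_lit 0x5500) (nat_lit 0x10002000200010000000000000000)) (.sup (nat_lit 0x400000000000000000000000a000a0000) (nat_lit 0x20009000a00050000000000000000)))) (.star (nat_lit 8) (nat_lit 1) (nat_lit 6))) (.star (nat_lit 8) (nat_lit 1) (nat_lit 5))) (.non (nat_lit 1) (nat_lit 6) (nat_lit 0x10541) (nat_lit 0x100000000000100020001000000000001))) (.non (nat_lit 1) (nat_lit 6) (nat_lit 0x10551) (nat_lit 0x100000000000100020002000100000001))) (.non (nat_lit 2) (nat_lit 5) (nat_lit 0x10005) (nat_lit 0x100000000000000000000000000010001))))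

noncomputable def t742_7 : Tr := (.ex (nat_lit 5) (.ex (nat_lit 6) (.split (nat_lit 7) (nat_lit 3) (.split (nat_lit 4) (nat_lit 3) (.pd (.cons (nat_lit 2) (nat_lit 4) (nat_lit 0) (nat_lit 0x37603000) (nat_lit 0x437a254591f423f00000174ea00000f423fb71ae) (.cons (nat_lit 2) (nat_lit 7) (nat_lit 0) (nat_lit 0x5433000) (nat_lit 0xf423f54591437a2174ea00000f423fb71ae) (.cons (nat_lit 3) (nat_lit 4) (nat_lit 0) (nat_lit 0x65500100) (nat_lit 0xf423fb71ae1f1560000000000f423f54591437a2) (.cons (nat_lit 3) (nat_lit 7) (nat_lit 0) (nat_lit 0x5440100) (nat_lit 0xf423f54591437a200000f423f54591437a2) .nil)))) (.leaf (.cons (nat_lit 0x5450) (nat_lit 0x30004000300000002000100000000) (.cons (nat_lit 0x5054) (nat_lit 0x20001000000000003000400030000) (.cons (nat_lit 0x4154) (nat_lit 0x10000000000010002000200020000) (.cons (nat_lit 0x1550) (nat_lit 0x3000400030002000100000000) .nil)))) .nil)) (.non (nat_lit 1) (nat_lit 5) (nat_lit 0x4250) (nat_lit 0x10000000000010002000100000000))) (.non (nat_lit 1) (nat_lit 5) (nat_lit 0x8150)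 (nat_lit 0x10000000000010002000100000000))) (.split (nat_lit 8) (nat_lit 0) (.split (nat_lit 8) (nat_lit 1) (.split (nat_lit 8) (nat_lit 2) (.split (nat_lit 8) (nat_lit 3) (.split (nat_lit 8) (nat_lit 4) (.split (nat_lit 8) (nat_lit 7) (.split (nat_lit 8) (nat_lit 5) (.sup (nat_lit 0x20009000a0005) (nat_lit 0x50002000a000800000000000000000000)) (.unj (nat_lit 0x11400) (nat_lit 0x100000001000100000000000000000000) (nat_lit 0x55) (nat_lit 0x1000200020001))) (.non (nat_lit 1) (nat_lit 5) (nat_lit 0x15000) (nat_lit 0x100010001000000000000000000000000))) (.non (nat_lit 1) (nat_lit 5) (nat_lit 0x15140) (nat_lit 0x100010001000000010001000000000000))) (.non (nat_lit 1) (nat_lit 5) (nat_lit 0x15040) (nat_lit 0x100010001000000000001000000000000))) (.star (nat_lit 8) (nat_lit 2) (nat_lit 6))) (.star (nat_lit 8) (nat_lit 1) (nat_lit 6))) (.non (nat_lit 3) (nat_lit 5) (nat_lit 0x11015) (nat_lit 0x200000001000000000000000300040003)))) (.split (nat_lit 8) (nat_lit 0) (.split (nat_lit 8) (nat_lit 1) (.split (nat_lit 8) (nat_lit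 2) (.split (nat_lit 8) (nat_lit 3) (.split (nat_lit 8) (nat_lit 4) (.split (nat_lit 8) (nat_lit 7) (.split (nat_lit 8) (nat_lit 6) (.sup (nat_lit 0x20009000a0005) (nat_lit 0x500000008000a00020000000000000000)) (.unj (nat_lit 0x11400) (nat_lit 0x100000001000100000000000000000000) (nat_lit 0x55) (nat_lit 0x1000200020001))) (.non (nat_lit 1) (nat_lit 5) (nat_lit 0x15150) (nat_lit 0x100020001000000010002000100000000))) (.non (nat_lit 1) (nat_lit 6) (nat_lit 0x10500) (nat_lit 0x100000000000100010000000000000000))) (.non (nat_lit 1) (nat_lit 5) (nat_lit 0x14150) (nat_lit 0x100010000000000010002000100000000))) (.star (nat_lit 8) (nat_lit 2) (nat_lit 5))) (.star (nat_lit 8) (nat_lit 1) (nat_lit 5))) (.non (nat_lit 3) (nat_lit 6) (nat_lit 0x10415) (nat_lit 0x200000000000100000000000300040003))))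

noncomputable def t742_8 : Tr := (.ex (nat_lit 1) (.ex (nat_lit 2) (.split (nat_lit 8) (nat_lit 0) (.pd (.cons (nat_lit 3) (nat_lit 6) (nat_lit 0) (nat_lit 0x70440100) (nat_lit 0xf423ff423f00000f423fb71ae00000f423f5459106711) .nil) (.split (nat_lit 8) (nat_lit 6) (.split (nat_lit 7) (nat_lit 3) (.split (nat_lit 4) (nat_lit 3) (.leaf (.cons (nat_lit 0x15400) (nat_lit 0x100010002000200000000000000000000) (.cons (nat_lit 0x5054) (nat_lit 0x20001000000000003000400030000) (.cons (nat_lit 0x4154) (nat_lit 0x10000000000010002000200020000) (.cons (nat_lit 0x11500) (nat_lit 0x100000002000200010000000000000000) (.cons (nat_lit 0x11015) (nat_lit 0x200000001000000000000000300040003) .nil))))) (.cons (nat_lit 0x111011011) (nat_lit 0x100100) (nat_lit 5) (nat_lit 0x243065001) .nil)) (.non (nat_lit 1) (nat_lit 5) (nat_lit 0x4250) (nat_lit 0x10000000000010002000100000000))) (.non (nat_lit 1) (nat_lit 5) (nat_lit 0x2a140) (nat_lit 0x100030002000000020004000000000000))) (.non (nat_lit 1) (nat_lit 5) (nat_lit 0x25150) (nat_lit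 0x100020002000000010002000100000000)))) (.non (nat_lit 1) (nat_lit 5) (nat_lit 0x2a2a1) (nat_lit 0x200020002000000010002000100000002))) (.split (nat_lit 9) (nat_lit 0) (.split (nat_lit 9) (nat_lit 3) (.split (nat_lit 9) (nat_lit 4) (.split (nat_lit 9) (nat_lit 5) (.split (nat_lit 9) (nat_lit 6) (.split (nat_lit 9) (nat_lit 7) (.split (nat_lit 9) (nat_lit 8) (.split (nat_lit 9) (nat_lit 1) (.unj (nat_lit 0x40015) (nat_lit 0x1000000000000000000000000000200020001) (nat_lit 0x5500) (nat_lit 0x10002000200010000000000000000)) (.unj (nat_lit 0x40014) (nat_lit 0x1000000000000000000000000000100010000) (nat_lit 0x5500) (nat_lit 0x10002000200010000000000000000))) (.non (nat_lit 1) (nat_lit 5) (nat_lit 0x55050) (nat_lit 0x1000100010001000000000001000100000000))) (.non (nat_lit 1) (nat_lit 5) (nat_lit 0x44050) (nat_lit 0x1000000010000000000000001000100000000))) (.star (nat_lit 9) (nat_lit 2) (nat_lit 6))) (.star (nat_lit 9) (nat_lit 2) (nat_lit 5))) (.non (nat_lit 1) (nat_lit 5) (nat_lit 0x40150) (nat_lit 0x1000000000000000000010001000100000000)))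 (.non (nat_lit 1) (nat_lit 5) (nat_lit 0x40050) (nat_lit 0x1000000000000000000000001000100000000))) (.non (nat_lit 1) (nat_lit 5) (nat_lit 0x55051) (nat_lit 0x1000100010001000000000001000100000001)))) (.split (nat_lit 9) (nat_lit 0) (.split (nat_lit 9) (nat_lit 3) (.split (nat_lit 9) (nat_lit 4) (.split (nat_lit 9) (nat_lit 5) (.split (nat_lit 9) (nat_lit 6) (.split (nat_lit 9) (nat_lit 7) (.split (nat_lit 9) (nat_lit 8) (.split (nat_lit 9) (nat_lit 2) (.unj (nat_lit 0x40015) (nat_lit 0x1000000000000000000000000000200020001) (nat_lit 0x5500) (nat_lit 0x10002000200010000000000000000)) (.unj (nat_lit 0x40014) (nat_lit 0x1000000000000000000000000000100010000) (nat_lit 0x5500) (nat_lit 0x10002000200010000000000000000))) (.non (nat_lit 1) (nat_lit 5) (nat_lit 0x55151) (nat_lit 0x1000200020002000000010002000100000001))) (.non (nat_lit 1) (nat_lit 5) (nat_lit 0x45150) (nat_lit 0x1000000020001000000010002000100000000))) (.star (nat_lit 9) (nat_lit 1) (nat_lit 6))) (.star (nat_lit 9) (nat_lit 1) (nat_lit 5))) (.non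 (nat_lit 1) (nat_lit 6) (nat_lit 0x44550) (nat_lit 0x1000000010000000100020002000100000000))) (.non (nat_lit 1) (nat_lit 5) (nat_lit 0x44150) (nat_lit 0x1000000010000000000010002000100000000))) (.non (nat_lit 2) (nat_lit 5) (nat_lit 0x40005) (nat_lit 0x1000000000000000000000000000000010001))))

noncomputable def t742_9 : Tr := (.split (nat_lit 9) (nat_lit 3) (.split (nat_lit 9) (nat_lit 4) (.split (nat_lit 9) (nat_lit 6) (.split (nat_lit 9) (nat_lit 7) (.split (nat_lit 9) (nat_lit 8) (.split (nat_lit 9) (nat_lit 5) (.sup (nat_lit 0x25004a005000280000000000000000) (nat_lit 0x1c000300000000000000000000004100500037)) (.st (nat_lit 0) (nat_lit 1) (nat_lit 5) (nat_lit 0x55151) (nat_lit 0x1000200020002000000010002000100000002) (nat_lit 1) (nat_lit 1) (.st (nat_lit 1) (nat_lit 2) (nat_lit 5) (nat_lit 0x55145) (nat_lit 0x3000500030004000000010002000000040006) (nat_lit 1) (nat_lit 2) (.st (nat_lit 2) (nat_lit 1) (nat_lit 5) (nat_lit 0x55151) (nat_lit 0x1000300050004000000030006000400000002) (nat_lit 1) (nat_lit 2) (.st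 (nat_lit 5) (nat_lit 1) (nat_lit 6) (nat_lit 0x44550) (nat_lit 0x1000000010000000200020002000100000000) (nat_lit 1) (nat_lit 1) (.st (nat_lit 9) (nat_lit 1) (nat_lit 6) (nat_lit 0x44551) (nat_lit 0x2000000010000000200020002000100000001) (nat_lit 1) (nat_lit 1) (.split (nat_lit 9) (nat_lit 0) (.split (nat_lit 8) (nat_lit 0) (.split (nat_lit 8) (nat_lit 6) (.split (nat_lit 7) (nat_lit 3) (.split (nat_lit 4) (nat_lit 3) (.leaf (.cons (nat_lit 0x51400) (nat_lit 0x1000100000002000200000000000000000000) (.cons (nat_lit 0x5054) (nat_lit 0x20001000000000003000400030000) (.cons (nat_lit 0x4154) (nat_lit 0x10000000000010002000200020000) (.cons (nat_lit 0x50015) (nat_lit 0x1000100000000000000000000000200020002) .nil)))) (.cons (nat_lit 0x1111011101) (nat_lit 0x100010) (nat_lit 0xb) (nat_lit 0x7534020106) (.cons (nat_lit 0x1111011011) (nat_lit 0x100100) (nat_lit 0xb) (nat_lit 0x2354076010) .nil))) (.non (nat_lit 1) (nat_lit 5) (nat_lit 0x4250) (nat_lit 0x10000000000010002000100000000))) (.non (nat_lit 1) (nat_lit 5) (nat_lit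 0x2a140) (nat_lit 0x100030002000000020004000000000000))) (.non (nat_lit 1) (nat_lit 5) (nat_lit 0x25150) (nat_lit 0x100020002000000010002000100000000))) (.non (nat_lit 1) (nat_lit 5) (nat_lit 0x6a001) (nat_lit 0x2000300010002000000000000000000000004))) (.non (nat_lit 1) (nat_lit 5) (nat_lit 0x95151) (nat_lit 0x1000200020002000000010002000100000002))))))))) (.non (nat_lit 1) (nat_lit 5) (nat_lit 0x50001) (nat_lit 0x1000100000000000000000000000000000001))) (.non (nat_lit 1) (nat_lit 5) (nat_lit 0x45150) (nat_lit 0x1000000020001000000010002000100000000))) (.non (nat_lit 1) (nat_lit 5) (nat_lit 0x55150) (nat_lit 0x1000100020002000000010002000100000000))) (.non (nat_lit 1) (nat_lit 5) (nat_lit 0x55141) (nat_lit 0x1000100010001000000010001000000000001))) (.non (nat_lit 1) (nat_lit 5) (nat_lit 0x44150) (nat_lit 0x1000000010000000000010002000100000000)))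

noncomputable def t742_10 : Tr := (.ex (nat_lit 1) (.ex (nat_lit 2) (.split (nat_lit 8) (nat_lit 0) (.pd (.cons (nat_lit 3) (nat_lit 5) (nat_lit 0) (nat_lit 0x66040100) (nat_lit 0xf423ff423fb71ae00000f423f00000f423f5459106711) .nil) (.split (nat_lit 7) (nat_lit 3) (.split (nat_lit 4) (nat_lit 3) (.split (nat_lit 8) (nat_lit 5) (.leaf (.cons (nat_lit 0x15400) (nat_lit 0x100010002000200000000000000000000) (.cons (nat_lit 0x5054) (nat_lit 0x20001000000000003000400030000) (.cons (nat_lit 0x4154) (nat_lit 0x10000000000010002000200020000) (.cons (nat_lit 0x11500) (nat_lit 0x100000002000200010000000000000000) (.cons (nat_lit 0x10415) (nat_lit 0x200000000000100000000000300040003) .nil))))) (.cons (nat_lit 0x110111011) (nat_lit 0x1000100) (nat_lit 5) (nat_lit 0x260345001) .nil)) (.non (nat_lit 1) (nat_lit 6) (nat_lit 0x24550) (nat_lit 0x100010000000200020002000100000000))) (.non (nat_lit 1) (nat_lit 5) (nat_lit 0x4250) (nat_lit 0x10000000000010002000100000000))) (.non (nat_lit 1) (nat_lit 5) (nat_lit 0x8150) (nat_lit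 0x10000000000010002000100000000)))) (.non (nat_lit 1) (nat_lit 6) (nat_lit 0x28aa1) (nat_lit 0x200010000000200020002000100000002))) (.split (nat_lit 9) (nat_lit 0) (.split (nat_lit 9) (nat_lit 3) (.split (nat_lit 9) (nat_lit 4) (.split (nat_lit 9) (nat_lit 5) (.split (nat_lit 9) (nat_lit 6) (.split (nat_lit 9) (nat_lit 7) (.split (nat_lit 9) (nat_lit 8) (.split (nat_lit 9) (nat_lit 1) (.unj (nat_lit 0x40015) (nat_lit 0x1000000000000000000000000000200020001) (nat_lit 0x5500) (nat_lit 0x10002000200010000000000000000)) (.unj (nat_lit 0x40014) (nat_lit 0x1000000000000000000000000000100010000) (nat_lit 0x5500) (nat_lit 0x10002000200010000000000000000))) (.non (nat_lit 1) (nat_lit 6) (nat_lit 0x50550) (nat_lit 0x1000100000000000100010001000100000000))) (.non (nat_lit 1) (nat_lit 5) (nat_lit 0x44050) (nat_lit 0x1000000010000000000000001000100000000))) (.star (nat_lit 9) (nat_lit 2) (nat_lit 6))) (.star (nat_lit 9) (nat_lit 2) (nat_lit 5))) (.non (nat_lit 1) (nat_lit 5) (nat_lit 0x40150) (nat_lit 0x1000000000000000000010001000100000000)))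 (.non (nat_lit 1) (nat_lit 5) (nat_lit 0x40050) (nat_lit 0x1000000000000000000000001000100000000))) (.non (nat_lit 1) (nat_lit 6) (nat_lit 0x50551) (nat_lit 0x1000100000000000100010001000100000001)))) (.split (nat_lit 9) (nat_lit 0) (.split (nat_lit 9) (nat_lit 3) (.split (nat_lit 9) (nat_lit 4) (.split (nat_lit 9) (nat_lit 5) (.split (nat_lit 9) (nat_lit 6) (.split (nat_lit 9) (nat_lit 7) (.split (nat_lit 9) (nat_lit 8) (.split (nat_lit 9) (nat_lit 2) (.unj (nat_lit 0x40015) (nat_lit 0x1000000000000000000000000000200020001) (nat_lit 0x5500) (nat_lit 0x10002000200010000000000000000)) (.unj (nat_lit 0x40014) (nat_lit 0x1000000000000000000000000000100010000) (nat_lit 0x5500) (nat_lit 0x10002000200010000000000000000))) (.non (nat_lit 1) (nat_lit 6) (nat_lit 0x54551) (nat_lit 0x1000200010000000200020002000100000001))) (.non (nat_lit 1) (nat_lit 5) (nat_lit 0x45150) (nat_lit 0x1000000020001000000010002000100000000))) (.star (nat_lit 9) (nat_lit 1) (nat_lit 6))) (.star (nat_lit 9) (nat_lit 1) (nat_lit 5))) (.non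 (nat_lit 1) (nat_lit 6) (nat_lit 0x44550) (nat_lit 0x1000000010000000100020002000100000000))) (.non (nat_lit 1) (nat_lit 5) (nat_lit 0x44150) (nat_lit 0x1000000010000000000010002000100000000))) (.non (nat_lit 2) (nat_lit 5) (nat_lit 0x40005) (nat_lit 0x1000000000000000000000000000000010001))))

noncomputable def t742_11 : Tr := (.split (nat_lit 9) (nat_lit 3) (.split (nat_lit 9) (nat_lit 4) (.split (nat_lit 9) (nat_lit 5) (.split (nat_lit 9) (nat_lit 7) (.split (nat_lit 9) (nat_lit 8) (.split (nat_lit 9) (nat_lit 6) (.sup (nat_lit 0x280050004a00250000000000000000) (nat_lit 0x1c000300000000000000000000004100500037)) (.st (nat_lit 0) (nat_lit 1) (nat_lit 5) (nat_lit 0x55151) (nat_lit 0x2000100020002000000010002000100000002) (nat_lit 1) (nat_lit 1) (.st (nat_lit 1) (nat_lit 2) (nat_lit 5) (nat_lit 0x55145) (nat_lit 0x5000300030004000000010002000000040006) (nat_lit 1) (nat_lit 2) (.st (nat_lit 2) (nat_lit 1) (nat_lit 5) (nat_lit 0x55151) (nat_lit 0x3000100050004000000030006000400000002) (nat_lit 1) (nat_lit 2)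 (.st (nat_lit 6) (nat_lit 1) (nat_lit 5) (nat_lit 0x45150) (nat_lit 0x1000000020002000000010002000100000000) (nat_lit 1) (nat_lit 1) (.st (nat_lit 9) (nat_lit 1) (nat_lit 5) (nat_lit 0x45151) (nat_lit 0x2000000020002000000010002000100000001) (nat_lit 1) (nat_lit 1) (.split (nat_lit 9) (nat_lit 0) (.split (nat_lit 9) (nat_lit 6) (.split (nat_lit 8) (nat_lit 0) (.split (nat_lit 7) (nat_lit 3) (.split (nat_lit 4) (nat_lit 3) (.leaf (.cons (nat_lit 0x51400) (nat_lit 0x1000100000002000200000000000000000000) (.cons (nat_lit 0x5054) (nat_lit 0x20001000000000003000400030000) (.cons (nat_lit 0x4154) (nat_lit 0x10000000000010002000200020000) (.cons (nat_lit 0x50015) (nat_lit 0x1000100000000000000000000000200020002) .nil)))) (.cons (nat_lit 0x1111011101) (nat_lit 0x100010) (nat_lit 0xb) (nat_lit 0x5734020106) (.cons (nat_lit 0x1111011011) (nat_lit 0x100100) (nat_lit 0xb) (nat_lit 0x3254076010) .nil))) (.non (nat_lit 1) (nat_lit 5) (nat_lit 0x4250) (nat_lit 0x10000000000010002000100000000))) (.non (nat_lit 1) (nat_lit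 5) (nat_lit 0x8a140) (nat_lit 0x1000000030002000000020004000000000000))) (.non (nat_lit 1) (nat_lit 5) (nat_lit 0x65151) (nat_lit 0x2000100020002000000010002000100000002))) (.non (nat_lit 1) (nat_lit 5) (nat_lit 0x85150) (nat_lit 0x1000000020002000000010002000100000000))) (.non (nat_lit 1) (nat_lit 5) (nat_lit 0x9a001) (nat_lit 0x3000200010002000000000000000000000004))))))))) (.non (nat_lit 1) (nat_lit 5) (nat_lit 0x50001) (nat_lit 0x1000100000000000000000000000000000001))) (.non (nat_lit 1) (nat_lit 5) (nat_lit 0x45150) (nat_lit 0x1000000020001000000010002000100000000))) (.non (nat_lit 1) (nat_lit 6) (nat_lit 0x54550) (nat_lit 0x1000100010000000200020002000100000000))) (.non (nat_lit 1) (nat_lit 6) (nat_lit 0x44550) (nat_lit 0x1000000010000000100020002000100000000))) (.non (nat_lit 1) (nat_lit 5) (nat_lit 0x44150) (nat_lit 0x1000000010000000000010002000100000000)))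

noncomputable def t742_12 : Tr := (.split (nat_lit 8) (nat_lit 1) (.split (nat_lit 8) (nat_lit 3) (.split (nat_lit 8) (nat_lit 4) (.split (nat_lit 8) (nat_lit 7) (.split (nat_lit 8) (nat_lit 2) (.split (nat_lit 8) (nat_lit 5) (.split (nat_lit 8) (nat_lit 6) (.split (nat_lit 8) (nat_lit 0) (.split (nat_lit 7) (nat_lit 3) (.sup (nat_lit 0x20006000600020000000000000000) (nat_lit 0x300000000000000000001000700080005)) (.non (nat_lit 1) (nat_lit 5) (nat_lit 0x8150) (nat_lit 0x10000000000010002000100000000))) (.unj (nat_lit 0x10015) (nat_lit 0x100000000000000000000000100010001) (nat_lit 0x5500) (nat_lit 0x10002000200010000000000000000))) (.st (nat_lit 8) (nat_lit 1) (nat_lit 5) (nat_lit 0x15151) (nat_lit 0x200020002000000010002000100000001) (nat_lit 1) (nat_lit 1) (.st (nat_lit 6) (nat_lit 1) (nat_lit 5) (nat_lit 0x15150) (nat_lit 0x100020002000000010002000100000000) (nat_lit 1) (nat_lit 1) (.ex (nat_lit 0) t742_8 (.split (nat_lit 9) (nat_lit 1) (.split (nat_lit 9) (nat_lit 2) t742_9 (.non (nat_lit 1) (nat_lit 5)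 (nat_lit 0x55051) (nat_lit 0x1000100010001000000000001000100000001))) (.non (nat_lit 2) (nat_lit 5) (nat_lit 0x40005) (nat_lit 0x1000000000000000000000000000000010001))))))) (.split (nat_lit 8) (nat_lit 6) (.st (nat_lit 8) (nat_lit 1) (nat_lit 6) (nat_lit 0x14551) (nat_lit 0x200010000000200020002000100000001) (nat_lit 1) (nat_lit 1) (.st (nat_lit 5) (nat_lit 1) (nat_lit 6) (nat_lit 0x14550) (nat_lit 0x100010000000200020002000100000000) (nat_lit 1) (nat_lit 1) (.ex (nat_lit 0) t742_10 (.split (nat_lit 9) (nat_lit 1) (.split (nat_lit 9) (nat_lit 2) t742_11 (.non (nat_lit 1) (nat_lit 6) (nat_lit 0x50551) (nat_lit 0x1000100000000000100010001000100000001))) (.non (nat_lit 2) (nat_lit 5) (nat_lit 0x40005) (nat_lit 0x1000000000000000000000000000000010001)))))) (.sup (nat_lit 0x40000000a000a00000000000000000000) (nat_lit 0x5000a00090002)))) (.split (nat_lit 8) (nat_lit 5) (.split (nat_lit 8) (nat_lit 6) (.unj (nat_lit 0x10015) (nat_lit 0x100000000000000000000000100010001) (nat_lit 0x5500) (nat_lit 0x10002000200010000000000000000))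 (.star (nat_lit 8) (nat_lit 2) (nat_lit 6))) (.star (nat_lit 8) (nat_lit 2) (nat_lit 5)))) (.non (nat_lit 1) (nat_lit 5) (nat_lit 0x15150) (nat_lit 0x100020001000000010002000100000000))) (.non (nat_lit 1) (nat_lit 6) (nat_lit 0x14550) (nat_lit 0x100010000000100020002000100000000))) (.non (nat_lit 1) (nat_lit 5) (nat_lit 0x14150) (nat_lit 0x100010000000000010002000100000000))) (.non (nat_lit 2) (nat_lit 5) (nat_lit 0x10005) (nat_lit 0x100000000000000000000000000010001)))

noncomputable def t742_13 : Tr := (.st (nat_lit 7) (nat_lit 1) (nat_lit 5) (nat_lit 0x5150) (nat_lit 0x20001000000010002000100000000) (nat_lit 1) (nat_lit 1) (.ex (nat_lit 0) (.ex (nat_lit 1) (.ex (nat_lit 2) (.pd (.cons (nat_lit 3) (nat_lit 5) (nat_lit 0) (nat_lit 0x66040100) (nat_lit 0xf423fb71ae00000f423f00000f423f54591437a2) (.cons (nat_lit 3) (nat_lit 6) (nat_lit 0) (nat_lit 0x70440100) (nat_lit 0xf423f00000f423fb71ae00000f423f54591437a2) .nil)) t742_7) (.split (nat_lit 8) (nat_lit 3) (.split (nat_lit 8) (nat_lit 4) (.split (nat_lit 8)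 (nat_lit 5) (.split (nat_lit 8) (nat_lit 6) (.split (nat_lit 8) (nat_lit 7) (.split (nat_lit 8) (nat_lit 0) (.split (nat_lit 8) (nat_lit 1) (.unj (nat_lit 0x10015) (nat_lit 0x100000000000000000000000200020001) (nat_lit 0x5500) (nat_lit 0x10002000200010000000000000000)) (.unj (nat_lit 0x10014) (nat_lit 0x100000000000000000000000100010000) (nat_lit 0x5500) (nat_lit 0x10002000200010000000000000000))) (.split (nat_lit 8) (nat_lit 1) (.unj (nat_lit 0x10015) (nat_lit 0x100000000000000000000000100010001) (nat_lit 0x5500) (nat_lit 0x10002000200010000000000000000)) (.non (nat_lit 2) (nat_lit 5) (nat_lit 0x10005) (nat_lit 0x100000000000000000000000000010001)))) (.non (nat_lit 1) (nat_lit 5) (nat_lit 0x14050) (nat_lit 0x100010000000000000001000100000000))) (.star (nat_lit 8) (nat_lit 2) (nat_lit 6))) (.star (nat_lit 8) (nat_lit 2) (nat_lit 5))) (.non (nat_lit 1) (nat_lit 5) (nat_lit 0x10150) (nat_lit 0x100000000000000010001000100000000))) (.non (nat_lit 1) (nat_lit 5) (nat_lit 0x10050) (nat_lit 0x100000000000000000001000100000000))))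 (.split (nat_lit 8) (nat_lit 0) (.split (nat_lit 8) (nat_lit 3) (.split (nat_lit 8) (nat_lit 4) (.split (nat_lit 8) (nat_lit 5) (.split (nat_lit 8) (nat_lit 6) (.split (nat_lit 8) (nat_lit 7) (.split (nat_lit 8) (nat_lit 2) (.unj (nat_lit 0x10015) (nat_lit 0x100000000000000000000000200020001) (nat_lit 0x5500) (nat_lit 0x10002000200010000000000000000)) (.unj (nat_lit 0x10014) (nat_lit 0x100000000000000000000000100010000) (nat_lit 0x5500) (nat_lit 0x10002000200010000000000000000))) (.non (nat_lit 1) (nat_lit 5) (nat_lit 0x15150) (nat_lit 0x100020001000000010002000100000000))) (.star (nat_lit 8) (nat_lit 1) (nat_lit 6))) (.star (nat_lit 8) (nat_lit 1) (nat_lit 5))) (.non (nat_lit 1) (nat_lit 6) (nat_lit 0x14550) (nat_lit 0x100010000000100020002000100000000))) (.non (nat_lit 1) (nat_lit 5) (nat_lit 0x14150) (nat_lit 0x100010000000000010002000100000000))) (.non (nat_lit 2) (nat_lit 5) (nat_lit 0x10005) (nat_lit 0x100000000000000000000000000010001)))) t742_12))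

noncomputable def t742_14 : Tr := (.ex (nat_lit 0xa) (.leaf (.cons (nat_lit 0x55400) (nat_lit 0x1000200030004000300000000000000000000) (.cons (nat_lit 0x14054) (nat_lit 0x100020000000000000003000400030000) (.cons (nat_lit 0x1505) (nat_lit 0x3000400030000000000010002) (.cons (nat_lit 0x515) (nat_lit 0x100020000000300040003) .nil)))) (.cons (nat_lit 0x11111001100) (nat_lit 0x100010) (nat_lit 0xd) (nat_lit 0x65401002300) (.cons (nat_lit 0x110011) (nat_lit 0x1000100) (nat_lit 2) (nat_lit 0x320001) .nil))) (.split (nat_lit 0xb) (nat_lit 0) (.split (nat_lit 0xb) (nat_lit 1) (.split (nat_lit 0xb) (nat_lit 2) (.split (nat_lit 0xb) (nat_lit 3) (.split (nat_lit 0xb) (nat_lit 4) (.split (nat_lit 0xb) (nat_lit 5) (.split (nat_lit 0xb) (nat_lit 6) (.split (nat_lit 0xb) (nat_lit 7) (.split (nat_lit 0xb) (nat_lit 8) (.split (nat_lit 0xb) (nat_lit 9) (.st (nat_lit 0xa) (nat_lit 1) (nat_lit 5) (nat_lit 0x555040) (nat_lit 0x100020002000200020001000000000001000000000000) (nat_lit 1) (nat_lit 1) (.st (nat_lit 0xb) (nat_lit 1)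 (nat_lit 5) (nat_lit 0x555050) (nat_lit 0x200030004000500060003000000000004000200000000) (nat_lit 1) (nat_lit 1) (.split (nat_lit 0xb) (nat_lit 0xa) (.leaf (.cons (nat_lit 0x55400) (nat_lit 0x1000200030004000300000000000000000000) (.cons (nat_lit 0x14054) (nat_lit 0x100020000000000000003000400030000) (.cons (nat_lit 0x1505) (nat_lit 0x3000400030000000000010002) (.cons (nat_lit 0x515) (nat_lit 0x100020000000300040003) .nil)))) (.cons (nat_lit 0x111111001100) (nat_lit 0x100010) (nat_lit 0xe) (nat_lit 0x765401002300) (.cons (nat_lit 0x110011) (nat_lit 0x1000100) (nat_lit 2) (nat_lit 0x320001) .nil))) (.non (nat_lit 1) (nat_lit 5) (nat_lit 0x955040) (nat_lit 0x100020002000200020001000000000001000000000000))))) (.non (nat_lit 1) (nat_lit 5) (nat_lit 0x540000) (nat_lit 0x100010001000000000000000000000000000000000000))) (.non (nat_lit 1) (nat_lit 5) (nat_lit 0x550000) (nat_lit 0x100010001000100000000000000000000000000000000))) (.non (nat_lit 1) (nat_lit 5) (nat_lit 0x554000) (nat_lit 0x100010001000100010000000000000000000000000000)))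 (.non (nat_lit 1) (nat_lit 5) (nat_lit 0x555000) (nat_lit 0x100010001000100010001000000000000000000000000))) (.non (nat_lit 0) (nat_lit 7) (nat_lit 0x541400) (nat_lit 0x300020001000000000003000400000000000000000000))) (.non (nat_lit 1) (nat_lit 5) (nat_lit 0x555150) (nat_lit 0x200030004000500060003000000010004000200000000))) (.non (nat_lit 1) (nat_lit 5) (nat_lit 0x554040) (nat_lit 0x100010001000100010000000000000001000000000000))) (.non (nat_lit 1) (nat_lit 5) (nat_lit 0x554050) (nat_lit 0x100010001000100010000000000000001000100000000))) (.non (nat_lit 3) (nat_lit 5) (nat_lit 0x540014) (nat_lit 0x300020001000000000000000000000000000300040000))) (.non (nat_lit 1) (nat_lit 5) (nat_lit 0x555051) (nat_lit 0x200030004000500060003000000000004000200000001))))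

noncomputable def t742_15 : Tr := (.split (nat_lit 9) (nat_lit 7) (.st (nat_lit 8) (nat_lit 1) (nat_lit 5) (nat_lit 0x55040) (nat_lit 0x1000200020001000000000001000000000000) (nat_lit 1) (nat_lit 1) (.split (nat_lit 9) (nat_lit 8) (.split (nat_lit 8) (nat_lit 7) (.split (nat_lit 7) (nat_lit 3) (.ex (nat_lit 9) (.leaf (.cons (nat_lit 0x55400) (nat_lit 0x1000200030004000300000000000000000000) (.cons (nat_lit 0x14054) (nat_lit 0x100020000000000000003000400030000) (.cons (nat_lit 0x1505) (nat_lit 0x3000400030000000000010002) (.cons (nat_lit 0x515) (nat_lit 0x100020000000300040003) .nil)))) (.cons (nat_lit 0x1111001100) (nat_lit 0x100010) (nat_lit 0xc) (nat_lit 0x5401002300) .nil)) (.split (nat_lit 0xa) (nat_lit 0) (.split (nat_lit 0xa) (nat_lit 1) (.split (nat_lit 0xa) (nat_lit 2) (.split (nat_lit 0xa) (nat_lit 3) (.split (nat_lit 0xa) (nat_lit 4) (.split (nat_lit 0xa) (nat_lit 5) (.split (nat_lit 0xa) (nat_lit 6) (.split (nat_lit 0xa) (nat_lit 7) (.split (nat_lit 0xa) (nat_lit 8) (.st (nat_lit 9) (nat_lit 1)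 (nat_lit 5) (nat_lit 0x155040) (nat_lit 0x10002000200020001000000000001000000000000) (nat_lit 1) (nat_lit 1) (.split (nat_lit 0xa) (nat_lit 9) t742_14 (.non (nat_lit 1) (nat_lit 5) (nat_lit 0x255040) (nat_lit 0x10002000200020001000000000001000000000000)))) (.non (nat_lit 1) (nat_lit 5) (nat_lit 0x150000) (nat_lit 0x10001000100000000000000000000000000000000))) (.non (nat_lit 1) (nat_lit 5) (nat_lit 0x154000) (nat_lit 0x10001000100010000000000000000000000000000))) (.non (nat_lit 1) (nat_lit 5) (nat_lit 0x155000) (nat_lit 0x10001000100010001000000000000000000000000))) (.non (nat_lit 0) (nat_lit 7) (nat_lit 0x151400) (nat_lit 0x30002000100000003000400000000000000000000))) (.non (nat_lit 1) (nat_lit 5) (nat_lit 0x155151) (nat_lit 0x30004000500060003000000020004000200000001))) (.non (nat_lit 1) (nat_lit 5) (nat_lit 0x154040) (nat_lit 0x10001000100010000000000000001000000000000))) (.non (nat_lit 1) (nat_lit 5) (nat_lit 0x154050) (nat_lit 0x10001000100010000000000000001000100000000))) (.non (nat_lit 3) (nat_lit 5)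 (nat_lit 0x150014) (nat_lit 0x30002000100000000000000000000000300040000))) (.non (nat_lit 1) (nat_lit 5) (nat_lit 0x155151) (nat_lit 0x30004000500060003000000010004000200000002)))) (.non (nat_lit 1) (nat_lit 5) (nat_lit 0x2a040) (nat_lit 0x100020001000000000002000000000000))) (.non (nat_lit 1) (nat_lit 5) (nat_lit 0x25040) (nat_lit 0x100020001000000000001000000000000))) (.non (nat_lit 1) (nat_lit 5) (nat_lit 0x95040) (nat_lit 0x1000200020001000000000001000000000000)))) (.non (nat_lit 1) (nat_lit 5) (nat_lit 0x54000) (nat_lit 0x1000100010000000000000000000000000000)))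

noncomputable def t742_16 : Tr := (.split (nat_lit 8) (nat_lit 2) (.split (nat_lit 8) (nat_lit 3) (.split (nat_lit 8) (nat_lit 4) (.split (nat_lit 8) (nat_lit 5) (.split (nat_lit 8) (nat_lit 6) (.st (nat_lit 7) (nat_lit 1) (nat_lit 5) (nat_lit 0x15040) (nat_lit 0x100020001000000000001000000000000) (nat_lit 1) (nat_lit 1) (.ex (nat_lit 8) (.split (nat_lit 8) (nat_lit 7) (.pd (.cons (nat_lit 3) (nat_lit 4) (nat_lit 0) (nat_lit 0x765500100) (nat_lit 0xf423fb71aea2c28047370000000000f423f54591437a2) .nil) (.split (nat_lit 7) (nat_lit 3) (.leaf (.cons (nat_lit 0x15440) (nat_lit 0x100020002000200000001000000000000) (.cons (nat_lit 0x14054) (nat_lit 0x100020000000000000003000400030000) (.cons (nat_lit 0x1505) (nat_lit 0x3000400030000000000010002) (.cons (nat_lit 0x515) (nat_lit 0x100020000000300040003) .nil)))) (.cons (nat_lit 0x111001100) (nat_lit 0x100010) (nat_lit 8) (nat_lit 0x201003400) (.cons (nat_lit 0x110011) (nat_lit 0x1000100) (nat_lit 2) (nat_lit 0x320001) .nil))) (.non (nat_lit 1) (nat_lit 5) (nat_lit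 0x2a040) (nat_lit 0x100020001000000000002000000000000)))) (.non (nat_lit 1) (nat_lit 5) (nat_lit 0x25040) (nat_lit 0x100020001000000000001000000000000))) (.split (nat_lit 9) (nat_lit 0) (.split (nat_lit 9) (nat_lit 1) (.split (nat_lit 9) (nat_lit 2) (.split (nat_lit 9) (nat_lit 3) (.split (nat_lit 9) (nat_lit 4) (.split (nat_lit 9) (nat_lit 5) (.split (nat_lit 9) (nat_lit 6) t742_15 (.non (nat_lit 1) (nat_lit 5) (nat_lit 0x55000) (nat_lit 0x1000100010001000000000000000000000000))) (.non (nat_lit 0) (nat_lit 7) (nat_lit 0x41500) (nat_lit 0x1000000000002000200010000000000000000))) (.non (nat_lit 3) (nat_lit 5) (nat_lit 0x40115) (nat_lit 0x1000000000000000000020000000300040003))) (.non (nat_lit 1) (nat_lit 5) (nat_lit 0x54040) (nat_lit 0x1000100010000000000000001000000000000))) (.non (nat_lit 1) (nat_lit 5) (nat_lit 0x54050) (nat_lit 0x1000100010000000000000001000100000000))) (.non (nat_lit 3) (nat_lit 5) (nat_lit 0x54014) (nat_lit 0x3000200010000000000000000000300040000))) (.non (nat_lit 2) (nat_lit 5) (nat_lit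 0x55145) (nat_lit 0x2000200020001000000010001000000010002))))) (.non (nat_lit 1) (nat_lit 5) (nat_lit 0x15000) (nat_lit 0x100010001000000000000000000000000))) (.non (nat_lit 0) (nat_lit 7) (nat_lit 0x11500) (nat_lit 0x100000002000200010000000000000000))) (.non (nat_lit 3) (nat_lit 5) (nat_lit 0x10115) (nat_lit 0x100000000000000020000000300040003))) (.non (nat_lit 1) (nat_lit 5) (nat_lit 0x14040) (nat_lit 0x100010000000000000001000000000000))) (.non (nat_lit 1) (nat_lit 5) (nat_lit 0x14050) (nat_lit 0x100010000000000000001000100000000)))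

noncomputable def t742_17 : Tr := (.ex (nat_lit 6) (.pd (.cons (nat_lit 0) (nat_lit 7) (nat_lit 0) (nat_lit 0x5442110) (nat_lit 0xf423f54591437a2f423fb71ae1f15600000) (.cons (nat_lit 1) (nat_lit 7) (nat_lit 0) (nat_lit 0x5402200) (nat_lit 0xf423f54591437a2f423fb71ae00000174ea) .nil)) (.ex (nat_lit 7) (.split (nat_lit 7) (nat_lit 3) (.pd (.cons (nat_lit 0) (nat_lit 6) (nat_lit 0) (nat_lit 0x30442110) (nat_lit 0xf423f00000f423fb71aeb71aea2c280473700000) (.cons (nat_lit 2) (nat_lit 4) (nat_lit 0) (nat_lit 0x37603000) (nat_lit 0x437a254591f423f00000174ea00000f423fb71ae) (.cons (nat_lit 3) (nat_lit 4) (nat_lit 0) (nat_lit 0x65500100) (nat_lit 0xf423fb71ae1f1560000000000f423f54591437a2) .nil))) (.leaf (.cons (nat_lit 0x5450) (nat_lit 0x30004000300000002000100000000) (.cons (nat_lit 0x5054) (nat_lit 0x20001000000000003000400030000) (.cons (nat_lit 0x1505) (nat_lit 0x3000400030000000000010002) (.cons (nat_lit 0x515) (nat_lit 0x100020000000300040003) .nil)))) (.cons (nat_lit 0x10001110) (nat_lit 0x1000001) (nat_lit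 0x10) (nat_lit 0x30002100) .nil))) (.pd (.cons (nat_lit 3) (nat_lit 4) (nat_lit 0) (nat_lit 0x65500100) (nat_lit 0xf423fb71ae1f1560000000000f423f54591437a2) .nil) (.split (nat_lit 7) (nat_lit 3) (.leaf (.cons (nat_lit 0x5440) (nat_lit 0x10001000100000001000000000000) (.cons (nat_lit 0x4054) (nat_lit 0x10000000000000001000100010000) (.cons (nat_lit 0x1505) (nat_lit 0x3000400030000000000010002) (.cons (nat_lit 0x515) (nat_lit 0x100020000000300040003) .nil)))) (.cons (nat_lit 0x11001100) (nat_lit 0x100010) (nat_lit 0xf) (nat_lit 0x23001000) (.cons (nat_lit 0x110011) (nat_lit 0x1000100) (nat_lit 2) (nat_lit 0x320001) .nil))) (.non (nat_lit 1) (nat_lit 5) (nat_lit 0x5050) (nat_lit 0x20001000000000002000100000000))))) (.split (nat_lit 8) (nat_lit 0) (.split (nat_lit 8) (nat_lit 1) t742_16 (.non (nat_lit 3) (nat_lit 5) (nat_lit 0x15014) (nat_lit 0x300020001000000000000000300040000))) (.non (nat_lit 2) (nat_lit 5) (nat_lit 0x15145) (nat_lit 0x200020001000000010001000000010002))))) (.split (nat_lit 8) (nat_lit 0) (.split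 (nat_lit 8) (nat_lit 1) (.split (nat_lit 8) (nat_lit 2) (.split (nat_lit 8) (nat_lit 3) (.split (nat_lit 8) (nat_lit 4) (.split (nat_lit 8) (nat_lit 7) (.split (nat_lit 8) (nat_lit 5) (.sup (nat_lit 0x5000a00090002) (nat_lit 0x50000000a000900020000000000000000)) (.unj (nat_lit 0x11400) (nat_lit 0x100000001000100000000000000000000) (nat_lit 0x55) (nat_lit 0x1000200020001))) (.non (nat_lit 1) (nat_lit 5) (nat_lit 0x15000) (nat_lit 0x100010001000000000000000000000000))) (.non (nat_lit 3) (nat_lit 5) (nat_lit 0x10115) (nat_lit 0x100000000000000020000000300040003))) (.non (nat_lit 1) (nat_lit 5) (nat_lit 0x15040) (nat_lit 0x100010001000000000001000000000000))) (.star (nat_lit 8) (nat_lit 2) (nat_lit 6))) (.star (nat_lit 8) (nat_lit 1) (nat_lit 6))) (.non (nat_lit 3) (nat_lit 5) (nat_lit 0x11015) (nat_lit 0x200000001000000000000000300040003))))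

noncomputable def t742_18 : Tr := (.ex (nat_lit 0xa) (.leaf (.cons (nat_lit 0x55400) (nat_lit 0x1000200030004000300000000000000000000) (.cons (nat_lit 0x14054) (nat_lit 0x100020000000000000003000400030000) (.cons (nat_lit 0x1501) (nat_lit 0x1000100010000000000000001) (.cons (nat_lit 0x115) (nat_lit 0x10000000100010001) .nil)))) (.cons (nat_lit 0x11111001100) (nat_lit 0x100010) (nat_lit 0xd) (nat_lit 0x65401002300) (.cons (nat_lit 0x110011) (nat_lit 0x1000100) (nat_lit 0xf) (nat_lit 0x320001) .nil))) (.split (nat_lit 0xb) (nat_lit 0) (.split (nat_lit 0xb) (nat_lit 1) (.split (nat_lit 0xb) (nat_lit 2) (.split (nat_lit 0xb) (nat_lit 3) (.split (nat_lit 0xb) (nat_lit 4) (.split (nat_lit 0xb) (nat_lit 5) (.split (nat_lit 0xb) (nat_lit 6) (.split (nat_lit 0xb) (nat_lit 7) (.split (nat_lit 0xb) (nat_lit 8) (.split (nat_lit 0xb) (nat_lit 9) (.st (nat_lit 0xa) (nat_lit 1) (nat_lit 5) (nat_lit 0x555040) (nat_lit 0x100020002000200020001000000000001000000000000) (nat_lit 1) (nat_lit 1) (.st (nat_lit 0xb) (nat_lit 1) (nat_lit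 5) (nat_lit 0x555050) (nat_lit 0x200030004000500060003000000000004000200000000) (nat_lit 1) (nat_lit 1) (.split (nat_lit 0xb) (nat_lit 0xa) (.leaf (.cons (nat_lit 0x55400) (nat_lit 0x1000200030004000300000000000000000000) (.cons (nat_lit 0x14054) (nat_lit 0x100020000000000000003000400030000) (.cons (nat_lit 0x1501) (nat_lit 0x1000100010000000000000001) (.cons (nat_lit 0x115) (nat_lit 0x10000000100010001) .nil)))) (.cons (nat_lit 0x111111001100) (nat_lit 0x100010) (nat_lit 0xe) (nat_lit 0x765401002300) (.cons (nat_lit 0x110011) (nat_lit 0x1000100) (nat_lit 0xf) (nat_lit 0x320001) .nil))) (.non (nat_lit 1) (nat_lit 5) (nat_lit 0x955040) (nat_lit 0x100020002000200020001000000000001000000000000))))) (.non (nat_lit 1) (nat_lit 5) (nat_lit 0x540000) (nat_lit 0x100010001000000000000000000000000000000000000))) (.non (nat_lit 1) (nat_lit 5) (nat_lit 0x550000) (nat_lit 0x100010001000100000000000000000000000000000000))) (.non (nat_lit 1) (nat_lit 5) (nat_lit 0x554000) (nat_lit 0x100010001000100010000000000000000000000000000)))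 (.non (nat_lit 1) (nat_lit 5) (nat_lit 0x555000) (nat_lit 0x100010001000100010001000000000000000000000000))) (.non (nat_lit 2) (nat_lit 6) (nat_lit 0x800a05) (nat_lit 0x100000000000000000000000200030000000000020004))) (.non (nat_lit 1) (nat_lit 5) (nat_lit 0x555150) (nat_lit 0x200030004000500060003000000010004000200000000))) (.non (nat_lit 1) (nat_lit 5) (nat_lit 0x554040) (nat_lit 0x100010001000100010000000000000001000000000000))) (.non (nat_lit 1) (nat_lit 5) (nat_lit 0x554050) (nat_lit 0x100010001000100010000000000000001000100000000))) (.non (nat_lit 2) (nat_lit 5) (nat_lit 0x555245) (nat_lit 0x200020002000200020001000000010001000000020002))) (.non (nat_lit 1) (nat_lit 5) (nat_lit 0x555241) (nat_lit 0x200020002000200020001000000010001000000000002))))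

noncomputable def t742_19 : Tr := (.st (nat_lit 8) (nat_lit 1) (nat_lit 5) (nat_lit 0x55040) (nat_lit 0x1000200020001000000000001000000000000) (nat_lit 1) (nat_lit 1) (.split (nat_lit 9) (nat_lit 8) (.split (nat_lit 4) (nat_lit 0) (.split (nat_lit 8) (nat_lit 7) (.split (nat_lit 7) (nat_lit 3) (.ex (nat_lit 9) (.leaf (.cons (nat_lit 0x55400) (nat_lit 0x1000200030004000300000000000000000000) (.cons (nat_lit 0x14054) (nat_lit 0x100020000000000000003000400030000) (.cons (nat_lit 0x1501) (nat_lit 0x1000100010000000000000001) (.cons (nat_lit 0x115) (nat_lit 0x10000000100010001) .nil)))) (.cons (nat_lit 0x1111001100) (nat_lit 0x100010) (nat_lit 0xc) (nat_lit 0x5401002300) .nil)) (.split (nat_lit 0xa) (nat_lit 0) (.split (nat_lit 0xa) (nat_lit 1) (.split (nat_lit 0xa) (nat_lit 2) (.split (nat_lit 0xa) (nat_lit 3) (.split (nat_lit 0xa) (nat_lit 4) (.split (nat_lit 0xa) (nat_lit 5) (.split (nat_lit 0xa) (nat_lit 6) (.split (nat_lit 0xa) (nat_lit 7) (.split (nat_lit 0xa) (nat_lit 8) (.st (nat_lit 9) (nat_lit 1) (nat_lit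 5) (nat_lit 0x155040) (nat_lit 0x10002000200020001000000000001000000000000) (nat_lit 1) (nat_lit 1) (.split (nat_lit 0xa) (nat_lit 9) t742_18 (.non (nat_lit 1) (nat_lit 5) (nat_lit 0x255040) (nat_lit 0x10002000200020001000000000001000000000000)))) (.non (nat_lit 1) (nat_lit 5) (nat_lit 0x150000) (nat_lit 0x10001000100000000000000000000000000000000))) (.non (nat_lit 1) (nat_lit 5) (nat_lit 0x154000) (nat_lit 0x10001000100010000000000000000000000000000))) (.non (nat_lit 1) (nat_lit 5) (nat_lit 0x155000) (nat_lit 0x10001000100010001000000000000000000000000))) (.non (nat_lit 2) (nat_lit 6) (nat_lit 0x200a05) (nat_lit 0x10000000000000000000200030000000000020004))) (.non (nat_lit 1) (nat_lit 5) (nat_lit 0x2aa281) (nat_lit 0x20002000200020001000000020001000000000002))) (.non (nat_lit 1) (nat_lit 5) (nat_lit 0x154040) (nat_lit 0x10001000100010000000000000001000000000000))) (.non (nat_lit 1) (nat_lit 5) (nat_lit 0x154050) (nat_lit 0x10001000100010000000000000001000100000000))) (.non (nat_lit 2) (nat_lit 5) (nat_lit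 0x155245) (nat_lit 0x20002000200020001000000010001000000020002))) (.non (nat_lit 1) (nat_lit 5) (nat_lit 0x155241) (nat_lit 0x20002000200020001000000010001000000000002)))) (.non (nat_lit 1) (nat_lit 5) (nat_lit 0x2a040) (nat_lit 0x100020001000000000002000000000000))) (.non (nat_lit 1) (nat_lit 5) (nat_lit 0x25040) (nat_lit 0x100020001000000000001000000000000))) (.non (nat_lit 2) (nat_lit 6) (nat_lit 0x505) (nat_lit 0x100020000000000010002))) (.non (nat_lit 1) (nat_lit 5) (nat_lit 0x95040) (nat_lit 0x1000200020001000000000001000000000000))))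

noncomputable def t742_20 : Tr := (.split (nat_lit 8) (nat_lit 4) (.split (nat_lit 8) (nat_lit 5) (.split (nat_lit 8) (nat_lit 6) (.st (nat_lit 7) (nat_lit 1) (nat_lit 5) (nat_lit 0x15040) (nat_lit 0x100020001000000000001000000000000) (nat_lit 1) (nat_lit 1) (.ex (nat_lit 8) (.split (nat_lit 8) (nat_lit 7) (.pd (.cons (nat_lit 3) (nat_lit 4) (nat_lit 0) (nat_lit 0x765500100) (nat_lit 0xf423fb71aea2c28047370000000000f423f54591437a2) .nil) (.split (nat_lit 4) (nat_lit 0) (.split (nat_lit 7) (nat_lit 3) (.leaf (.cons (nat_lit 0x15440) (nat_lit 0x100020002000200000001000000000000) (.cons (nat_lit 0x14054) (nat_lit 0x100020000000000000003000400030000) (.cons (nat_lit 0x1501) (nat_lit 0x1000100010000000000000001) (.cons (nat_lit 0x115) (nat_lit 0x10000000100010001) .nil)))) (.cons (nat_lit 0x111001100) (nat_lit 0x100010) (nat_lit 8) (nat_lit 0x201003400) (.cons (nat_lit 0x110011) (nat_lit 0x1000100) (nat_lit 0xf) (nat_lit 0x320001) .nil))) (.non (nat_lit 1) (nat_lit 5) (nat_lit 0x2a040) (nat_lit 0x100020001000000000002000000000000)))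 (.non (nat_lit 2) (nat_lit 6) (nat_lit 0x505) (nat_lit 0x100020000000000010002)))) (.non (nat_lit 1) (nat_lit 5) (nat_lit 0x25040) (nat_lit 0x100020001000000000001000000000000))) (.split (nat_lit 9) (nat_lit 0) (.split (nat_lit 9) (nat_lit 1) (.split (nat_lit 9) (nat_lit 2) (.split (nat_lit 9) (nat_lit 3) (.split (nat_lit 9) (nat_lit 4) (.split (nat_lit 9) (nat_lit 5) (.split (nat_lit 9) (nat_lit 6) (.split (nat_lit 9) (nat_lit 7) t742_19 (.non (nat_lit 1) (nat_lit 5) (nat_lit 0x54000) (nat_lit 0x1000100010000000000000000000000000000))) (.non (nat_lit 1) (nat_lit 5) (nat_lit 0x55000) (nat_lit 0x1000100010001000000000000000000000000))) (.non (nat_lit 2) (nat_lit 6) (nat_lit 0x80a05) (nat_lit 0x1000000000000000200030000000000020004))) (.non (nat_lit 1) (nat_lit 5) (nat_lit 0xaa281) (nat_lit 0x2000200020001000000020001000000000002))) (.non (nat_lit 1) (nat_lit 5) (nat_lit 0x54040) (nat_lit 0x1000100010000000000000001000000000000))) (.non (nat_lit 1) (nat_lit 5) (nat_lit 0x54050) (nat_lit 0x1000100010000000000000001000100000000)))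 (.non (nat_lit 2) (nat_lit 5) (nat_lit 0x55245) (nat_lit 0x2000200020001000000010001000000020002))) (.non (nat_lit 1) (nat_lit 5) (nat_lit 0x55241) (nat_lit 0x2000200020001000000010001000000000002))))) (.non (nat_lit 1) (nat_lit 5) (nat_lit 0x15000) (nat_lit 0x100010001000000000000000000000000))) (.non (nat_lit 2) (nat_lit 6) (nat_lit 0x20a05) (nat_lit 0x100000000000200030000000000020004))) (.non (nat_lit 1) (nat_lit 5) (nat_lit 0x2a281) (nat_lit 0x200020001000000020001000000000002)))

noncomputable def t742_21 : Tr := (.ex (nat_lit 6) (.pd (.cons (nat_lit 0) (nat_lit 7) (nat_lit 0) (nat_lit 0x5442110) (nat_lit 0xf423f54591437a2f423fb71ae1f15600000) .nil) (.ex (nat_lit 7) (.split (nat_lit 7) (nat_lit 3) (.pd (.cons (nat_lit 0) (nat_lit 6) (nat_lit 0) (nat_lit 0x30442110) (nat_lit 0xf423f00000f423fb71aeb71aea2c280473700000) (.cons (nat_lit 2) (nat_lit 4) (nat_lit 0) (nat_lit 0x37603000) (nat_lit 0x437a254591f423f00000174ea00000f423fb71ae) (.cons (nat_lit 3) (nat_lit 4) (nat_lit 0) (nat_lit 0x65500100) (nat_lit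 0xf423fb71ae1f1560000000000f423f54591437a2) .nil))) (.split (nat_lit 4) (nat_lit 0) (.leaf (.cons (nat_lit 0x5450) (nat_lit 0x30004000300000002000100000000) (.cons (nat_lit 0x5054) (nat_lit 0x20001000000000003000400030000) (.cons (nat_lit 0x1501) (nat_lit 0x1000100010000000000000001) (.cons (nat_lit 0x115) (nat_lit 0x10000000100010001) .nil)))) (.cons (nat_lit 0x11001100) (nat_lit 0x100010) (nat_lit 2) (nat_lit 0x23001000) (.cons (nat_lit 0x110011) (nat_lit 0x1000100) (nat_lit 0xf) (nat_lit 0x320001) .nil))) (.non (nat_lit 2) (nat_lit 6) (nat_lit 0x505) (nat_lit 0x100020000000000010002)))) (.pd (.cons (nat_lit 3) (nat_lit 4) (nat_lit 0) (nat_lit 0x65500100) (nat_lit 0xf423fb71ae1f1560000000000f423f54591437a2) .nil) (.split (nat_lit 4) (nat_lit 0) (.split (nat_lit 7) (nat_lit 3) (.leaf (.cons (nat_lit 0x5440) (nat_lit 0x10001000100000001000000000000) (.cons (nat_lit 0x4054) (nat_lit 0x10000000000000001000100010000) (.cons (nat_lit 0x1501) (nat_lit 0x1000100010000000000000001) (.cons (nat_lit 0x115) (nat_lit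 0x10000000100010001) .nil)))) (.cons (nat_lit 0x11001100) (nat_lit 0x100010) (nat_lit 0xf) (nat_lit 0x23001000) (.cons (nat_lit 0x110011) (nat_lit 0x1000100) (nat_lit 0xf) (nat_lit 0x320001) .nil))) (.non (nat_lit 1) (nat_lit 5) (nat_lit 0x5050) (nat_lit 0x20001000000000002000100000000))) (.non (nat_lit 2) (nat_lit 6) (nat_lit 0x505) (nat_lit 0x100020000000000010002))))) (.split (nat_lit 8) (nat_lit 0) (.split (nat_lit 8) (nat_lit 1) (.split (nat_lit 8) (nat_lit 2) (.split (nat_lit 8) (nat_lit 3) t742_20 (.non (nat_lit 1) (nat_lit 5) (nat_lit 0x14040) (nat_lit 0x100010000000000000001000000000000))) (.non (nat_lit 1) (nat_lit 5) (nat_lit 0x14050) (nat_lit 0x100010000000000000001000100000000))) (.non (nat_lit 2) (nat_lit 5) (nat_lit 0x15245) (nat_lit 0x200020001000000010001000000020002))) (.non (nat_lit 1) (nat_lit 5) (nat_lit 0x15241) (nat_lit 0x200020001000000010001000000000002))))) (.split (nat_lit 8) (nat_lit 0) (.split (nat_lit 8) (nat_lit 1) (.split (nat_lit 8) (nat_lit 2) (.split (nat_lit 8) (nat_lit 3)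 (.split (nat_lit 8) (nat_lit 4) (.split (nat_lit 8) (nat_lit 5) (.split (nat_lit 8) (nat_lit 7) (.sup (nat_lit 0x20009000a0005) (nat_lit 0x50002000a000800000000000000000000)) (.non (nat_lit 1) (nat_lit 5) (nat_lit 0x15000) (nat_lit 0x100010001000000000000000000000000))) (.non (nat_lit 2) (nat_lit 6) (nat_lit 0x20a05) (nat_lit 0x100000000000200030000000000020004))) (.non (nat_lit 1) (nat_lit 6) (nat_lit 0x20a01) (nat_lit 0x100000000000100020000000000000002))) (.non (nat_lit 1) (nat_lit 5) (nat_lit 0x15040) (nat_lit 0x100010001000000000001000000000000))) (.star (nat_lit 8) (nat_lit 2) (nat_lit 6))) (.star (nat_lit 8) (nat_lit 1) (nat_lit 6))) (.non (nat_lit 2) (nat_lit 5) (nat_lit 0x10205) (nat_lit 0x100000000000000010000000000010002))))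

noncomputable def t742_22 : Tr := (.split (nat_lit 4) (nat_lit 0) (.pd (.cons (nat_lit 3) (nat_lit 5) (nat_lit 0) (nat_lit 0x66000100) (nat_lit 0xf423fb71ae00000f423f00000f423f5459106711) .nil) (.ex (nat_lit 5) t742_17 (.split (nat_lit 8) (nat_lit 0) (.split (nat_lit 8) (nat_lit 1) (.split (nat_lit 8) (nat_lit 2) (.split (nat_lit 8) (nat_lit 4) (.split (nat_lit 8) (nat_lit 3) (.split (nat_lit 8) (nat_lit 6) (.split (nat_lit 8) (nat_lit 7) (.sup (nat_lit 0x3000500050001) (nat_lit 0x300000004000500010000000000000000)) (.sup (nat_lit 0x3000500050001) (nat_lit 0x300000004000500010000000000000000))) (.split (nat_lit 8) (nat_lit 7) (.unj (nat_lit 0x11400) (nat_lit 0x100000001000100000000000000000000) (nat_lit 0x55) (nat_lit 0x1000200020001)) (.non (nat_lit 1) (nat_lit 5) (nat_lit 0x15000) (nat_lit 0x100010001000000000000000000000000)))) (.split (nat_lit 8) (nat_lit 6) (.split (nat_lit 8) (nat_lit 7) (.st (nat_lit 5) (nat_lit 1) (nat_lit 6) (nat_lit 0x14550) (nat_lit 0x200010000000200010002000100000000) (nat_lit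 1) (nat_lit 1) (.st (nat_lit 7) (nat_lit 1) (nat_lit 5) (nat_lit 0x15050) (nat_lit 0x100020001000000000002000100000000) (nat_lit 1) (nat_lit 1) (.st (nat_lit 8) (nat_lit 1) (nat_lit 6) (nat_lit 0x14450) (nat_lit 0x200010000000100000002000100000000) (nat_lit 1) (nat_lit 1) (.split (nat_lit 8) (nat_lit 3) (.split (nat_lit 7) (nat_lit 3) (.split (nat_lit 8) (nat_lit 5) (.leaf (.cons (nat_lit 0x15400) (nat_lit 0x100010002000200000000000000000000) (.cons (nat_lit 0x14054) (nat_lit 0x100010000000000000002000200020000) (.cons (nat_lit 0x11500) (nat_lit 0x100000002000200010000000000000000) (.cons (nat_lit 0x515) (nat_lit 0x100020000000300040003) .nil)))) (.cons (nat_lit 0x110111011) (nat_lit 0x1000100) (nat_lit 5) (nat_lit 0x460325001) .nil)) (.non (nat_lit 1) (nat_lit 6) (nat_lit 0x14a40) (nat_lit 0x300010000000200010002000000000000))) (.non (nat_lit 1) (nat_lit 5) (nat_lit 0x18050) (nat_lit 0x100010000000000000002000100000000))) (.non (nat_lit 1) (nat_lit 5) (nat_lit 0x24050) (nat_lit 0x100010000000000000002000100000000))))))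 (.non (nat_lit 1) (nat_lit 5) (nat_lit 0x14040) (nat_lit 0x100010000000000000001000000000000))) (.non (nat_lit 1) (nat_lit 5) (nat_lit 0x15040) (nat_lit 0x100010001000000000001000000000000)))) (.non (nat_lit 1) (nat_lit 6) (nat_lit 0x10500) (nat_lit 0x100000000000100010000000000000000))) (.star (nat_lit 8) (nat_lit 2) (nat_lit 5))) (.star (nat_lit 8) (nat_lit 1) (nat_lit 5))) (.non (nat_lit 1) (nat_lit 6) (nat_lit 0x10501) (nat_lit 0x100000000000100010000000000000001))))) (.st (nat_lit 5) (nat_lit 2) (nat_lit 6) (nat_lit 0xa05) (nat_lit 0x200030000000000020004) (nat_lit 2) (nat_lit 1) t742_21))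

noncomputable def t742_23 : Tr := (.ex (nat_lit 0xa) (.leaf (.cons (nat_lit 0x5450) (nat_lit 0x30004000300000002000100000000) (.cons (nat_lit 0x5054) (nat_lit 0x20001000000000003000400030000) (.cons (nat_lit 0x51500) (nat_lit 0x1000200000003000400030000000000000000) (.cons (nat_lit 0x10115) (nat_lit 0x100000000000000020000000300040003) .nil)))) (.cons (nat_lit 0x11001100) (nat_lit 0x100010) (nat_lit 2) (nat_lit 0x23001000) (.cons (nat_lit 0x11100110011) (nat_lit 0x1000100) (nat_lit 0xd) (nat_lit 0x65400100032) .nil))) (.split (nat_lit 0xb) (nat_lit 0) (.split (nat_lit 0xb) (nat_lit 1) (.split (nat_lit 0xb) (nat_lit 2) (.split (nat_lit 0xb) (nat_lit 3) (.split (nat_lit 0xb) (nat_lit 4) (.split (nat_lit 0xb) (nat_lit 5) (.split (nat_lit 0xb) (nat_lit 6) (.split (nat_lit 0xb) (nat_lit 7) (.split (nat_lit 0xb) (nat_lit 8) (.split (nat_lit 0xb) (nat_lit 9) (.st (nat_lit 0xa) (nat_lit 1) (nat_lit 6) (nat_lit 0x550501) (nat_lit 0x100020002000200000000000100020000000000000001) (nat_lit 1) (nat_lit 1) (.st (nat_lit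 0xb) (nat_lit 2) (nat_lit 6) (nat_lit 0x550505) (nat_lit 0x200030004000500000000000300060000000000020004) (nat_lit 1) (nat_lit 1) (.split (nat_lit 0xb) (nat_lit 0xa) (.leaf (.cons (nat_lit 0x5450) (nat_lit 0x30004000300000002000100000000) (.cons (nat_lit 0x5054) (nat_lit 0x20001000000000003000400030000) (.cons (nat_lit 0x51500) (nat_lit 0x1000200000003000400030000000000000000) (.cons (nat_lit 0x10115) (nat_lit 0x100000000000000020000000300040003) .nil)))) (.cons (nat_lit 0x11001100) (nat_lit 0x100010) (nat_lit 2) (nat_lit 0x23001000) (.cons (nat_lit 0x111100110011) (nat_lit 0x1000100) (nat_lit 0xe) (nat_lit 0x765400100032) .nil))) (.non (nat_lit 1) (nat_lit 6) (nat_lit 0x950501) (nat_lit 0x100020002000200000000000100020000000000000001))))) (.non (nat_lit 1) (nat_lit 5) (nat_lit 0x540000) (nat_lit 0x100010001000000000000000000000000000000000000))) (.non (nat_lit 1) (nat_lit 5) (nat_lit 0x550000) (nat_lit 0x100010001000100000000000000000000000000000000))) (.non (nat_lit 1) (nat_lit 5) (nat_lit 0x555150) (nat_lit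 0x500040003000200060003000000010004000200000000))) (.non (nat_lit 2) (nat_lit 4) (nat_lit 0x541400) (nat_lit 0x300020001000000000004000300000000000000000000))) (.non (nat_lit 1) (nat_lit 6) (nat_lit 0x550500) (nat_lit 0x100010001000100000000000100010000000000000000))) (.non (nat_lit 1) (nat_lit 5) (nat_lit 0x550100) (nat_lit 0x100010001000100000000000000010000000000000000))) (.non (nat_lit 1) (nat_lit 5) (nat_lit 0x555150) (nat_lit 0x500040003000200040002000000010006000300000000))) (.non (nat_lit 0) (nat_lit 6) (nat_lit 0x540014) (nat_lit 0x300020001000000000000000000000000000400030000))) (.non (nat_lit 2) (nat_lit 5) (nat_lit 0x550105) (nat_lit 0x100010001000100000000000000010000000000010001))) (.non (nat_lit 1) (nat_lit 5) (nat_lit 0x550101) (nat_lit 0x100010001000100000000000000010000000000000001))))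

noncomputable def t742_24 : Tr := (.split (nat_lit 9) (nat_lit 6) (.split (nat_lit 9) (nat_lit 7) (.st (nat_lit 8) (nat_lit 1) (nat_lit 6) (nat_lit 0x50501) (nat_lit 0x1000200000000000100020000000000000001) (nat_lit 1) (nat_lit 1) (.split (nat_lit 9) (nat_lit 8) (.split (nat_lit 4) (nat_lit 0) (.ex (nat_lit 9) (.leaf (.cons (nat_lit 0x5450) (nat_lit 0x30004000300000002000100000000) (.cons (nat_lit 0x5054) (nat_lit 0x20001000000000003000400030000) (.cons (nat_lit 0x51500) (nat_lit 0x1000200000003000400030000000000000000) (.cons (nat_lit 0x10115) (nat_lit 0x100000000000000020000000300040003) .nil)))) (.cons (nat_lit 0x1100110011) (nat_lit 0x1000100) (nat_lit 0xc) (nat_lit 0x5400100032) .nil)) (.split (nat_lit 0xa) (nat_lit 0) (.split (nat_lit 0xa) (nat_lit 1) (.split (nat_lit 0xa) (nat_lit 2) (.split (nat_lit 0xa) (nat_lit 3) (.split (nat_lit 0xa) (nat_lit 4) (.split (nat_lit 0xa) (nat_lit 5) (.split (nat_lit 0xa) (nat_lit 6) (.split (nat_lit 0xa) (nat_lit 7) (.split (nat_lit 0xa) (nat_lit 8) (.st (nat_lit 9)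 (nat_lit 1) (nat_lit 6) (nat_lit 0x150501) (nat_lit 0x10002000200000000000100020000000000000001) (nat_lit 1) (nat_lit 1) (.split (nat_lit 0xa) (nat_lit 9) t742_23 (.non (nat_lit 1) (nat_lit 6) (nat_lit 0x250501) (nat_lit 0x10002000200000000000100020000000000000001)))) (.non (nat_lit 1) (nat_lit 5) (nat_lit 0x150000) (nat_lit 0x10001000100000000000000000000000000000000))) (.non (nat_lit 1) (nat_lit 5) (nat_lit 0x155151) (nat_lit 0x50004000300060003000000020004000200000001))) (.non (nat_lit 2) (nat_lit 4) (nat_lit 0x151400) (nat_lit 0x30002000100000004000300000000000000000000))) (.non (nat_lit 1) (nat_lit 6) (nat_lit 0x150500) (nat_lit 0x10001000100000000000100010000000000000000))) (.non (nat_lit 1) (nat_lit 5) (nat_lit 0x150100) (nat_lit 0x10001000100000000000000010000000000000000))) (.non (nat_lit 1) (nat_lit 5) (nat_lit 0x155151) (nat_lit 0x50004000300040002000000020006000300000001))) (.non (nat_lit 0) (nat_lit 6) (nat_lit 0x150014) (nat_lit 0x30002000100000000000000000000000400030000))) (.non (nat_lit 2)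 (nat_lit 5) (nat_lit 0x150105) (nat_lit 0x10001000100000000000000010000000000010001))) (.non (nat_lit 1) (nat_lit 5) (nat_lit 0x150101) (nat_lit 0x10001000100000000000000010000000000000001)))) (.non (nat_lit 1) (nat_lit 6) (nat_lit 0x20a01) (nat_lit 0x100000000000100020000000000000002))) (.non (nat_lit 1) (nat_lit 6) (nat_lit 0x90501) (nat_lit 0x1000200000000000100020000000000000001)))) (.non (nat_lit 0) (nat_lit 6) (nat_lit 0x44054) (nat_lit 0x1000000020000000000000003000400030000))) (.non (nat_lit 2) (nat_lit 4) (nat_lit 0x45400) (nat_lit 0x1000000010002000200000000000000000000)))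

noncomputable def t742_25 : Tr := (.ex (nat_lit 0xa) (.leaf (.cons (nat_lit 0x5440) (nat_lit 0x10001000100000001000000000000) (.cons (nat_lit 0x4054) (nat_lit 0x10000000000000001000100010000) (.cons (nat_lit 0x51500) (nat_lit 0x1000200000003000400030000000000000000) (.cons (nat_lit 0x10115) (nat_lit 0x100000000000000020000000300040003) .nil)))) (.cons (nat_lit 0x11001100) (nat_lit 0x100010) (nat_lit 0xf) (nat_lit 0x23001000) (.cons (nat_lit 0x11100110011) (nat_lit 0x1000100) (nat_lit 0xd) (nat_lit 0x65400100032) .nil))) (.split (nat_lit 0xb) (nat_lit 0) (.split (nat_lit 0xb) (nat_lit 1) (.split (nat_lit 0xb) (nat_lit 2) (.split (nat_lit 0xb) (nat_lit 3) (.split (nat_lit 0xb) (nat_lit 4) (.split (nat_lit 0xb) (nat_lit 5) (.split (nat_lit 0xb) (nat_lit 6) (.split (nat_lit 0xb) (nat_lit 7) (.split (nat_lit 0xb) (nat_lit 8) (.split (nat_lit 0xb) (nat_lit 9) (.st (nat_lit 0xa) (nat_lit 1) (nat_lit 6) (nat_lit 0x550501) (nat_lit 0x100020002000200000000000100020000000000000001) (nat_lit 1) (nat_lit 1) (.st (nat_lit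 0xb) (nat_lit 2) (nat_lit 6) (nat_lit 0x550505) (nat_lit 0x200030004000500000000000300060000000000020004) (nat_lit 1) (nat_lit 1) (.split (nat_lit 0xb) (nat_lit 0xa) (.leaf (.cons (nat_lit 0x5440) (nat_lit 0x10001000100000001000000000000) (.cons (nat_lit 0x4054) (nat_lit 0x10000000000000001000100010000) (.cons (nat_lit 0x51500) (nat_lit 0x1000200000003000400030000000000000000) (.cons (nat_lit 0x10115) (nat_lit 0x100000000000000020000000300040003) .nil)))) (.cons (nat_lit 0x11001100) (nat_lit 0x100010) (nat_lit 0xf) (nat_lit 0x23001000) (.cons (nat_lit 0x111100110011) (nat_lit 0x1000100) (nat_lit 0xe) (nat_lit 0x765400100032) .nil))) (.non (nat_lit 1) (nat_lit 6) (nat_lit 0x950501) (nat_lit 0x100020002000200000000000100020000000000000001))))) (.non (nat_lit 1) (nat_lit 5) (nat_lit 0x540000) (nat_lit 0x100010001000000000000000000000000000000000000))) (.non (nat_lit 1) (nat_lit 5) (nat_lit 0x550000) (nat_lit 0x100010001000100000000000000000000000000000000))) (.non (nat_lit 1) (nat_lit 5) (nat_lit 0x80a040) (nat_lit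 0x100000000000000020001000000000002000000000000))) (.non (nat_lit 1) (nat_lit 5) (nat_lit 0x80a050) (nat_lit 0x100000000000000030002000000000004000200000000))) (.non (nat_lit 1) (nat_lit 6) (nat_lit 0x550500) (nat_lit 0x100010001000100000000000100010000000000000000))) (.non (nat_lit 1) (nat_lit 5) (nat_lit 0x550100) (nat_lit 0x100010001000100000000000000010000000000000000))) (.non (nat_lit 1) (nat_lit 5) (nat_lit 0x50a040) (nat_lit 0x200010000000000020001000000000003000000000000))) (.non (nat_lit 1) (nat_lit 5) (nat_lit 0x40a050) (nat_lit 0x100000000000000020001000000000003000200000000))) (.non (nat_lit 2) (nat_lit 5) (nat_lit 0x550105) (nat_lit 0x100010001000100000000000000010000000000010001))) (.non (nat_lit 1) (nat_lit 5) (nat_lit 0x550101) (nat_lit 0x100010001000100000000000000010000000000000001))))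

noncomputable def t742_26 : Tr := (.st (nat_lit 8) (nat_lit 1) (nat_lit 6) (nat_lit 0x50501) (nat_lit 0x1000200000000000100020000000000000001) (nat_lit 1) (nat_lit 1) (.split (nat_lit 9) (nat_lit 8) (.split (nat_lit 8) (nat_lit 4) (.split (nat_lit 4) (nat_lit 0) (.split (nat_lit 7) (nat_lit 3) (.ex (nat_lit 9) (.leaf (.cons (nat_lit 0x5440) (nat_lit 0x10001000100000001000000000000) (.cons (nat_lit 0x4054) (nat_lit 0x10000000000000001000100010000) (.cons (nat_lit 0x51500) (nat_lit 0x1000200000003000400030000000000000000) (.cons (nat_lit 0x10115) (nat_lit 0x100000000000000020000000300040003) .nil)))) (.cons (nat_lit 0x1100110011) (nat_lit 0x1000100) (nat_lit 0xc) (nat_lit 0x5400100032) .nil)) (.split (nat_lit 0xa) (nat_lit 0) (.split (nat_lit 0xa) (nat_lit 1) (.split (nat_lit 0xa) (nat_lit 2) (.split (nat_lit 0xa) (nat_lit 3) (.split (nat_lit 0xa) (nat_lit 4) (.split (nat_lit 0xa) (nat_lit 5) (.split (nat_lit 0xa) (nat_lit 6) (.split (nat_lit 0xa) (nat_lit 7) (.split (nat_lit 0xa) (nat_lit 8) (.st (nat_lit 9)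 (nat_lit 1) (nat_lit 6) (nat_lit 0x150501) (nat_lit 0x10002000200000000000100020000000000000001) (nat_lit 1) (nat_lit 1) (.split (nat_lit 0xa) (nat_lit 9) t742_25 (.non (nat_lit 1) (nat_lit 6) (nat_lit 0x250501) (nat_lit 0x10002000200000000000100020000000000000001)))) (.non (nat_lit 1) (nat_lit 5) (nat_lit 0x150000) (nat_lit 0x10001000100000000000000000000000000000000))) (.non (nat_lit 1) (nat_lit 5) (nat_lit 0x20a040) (nat_lit 0x10000000000020001000000000002000000000000))) (.non (nat_lit 1) (nat_lit 5) (nat_lit 0x20a050) (nat_lit 0x10000000000030002000000000004000200000000))) (.non (nat_lit 1) (nat_lit 6) (nat_lit 0x150500) (nat_lit 0x10001000100000000000100010000000000000000))) (.non (nat_lit 1) (nat_lit 5) (nat_lit 0x150100) (nat_lit 0x10001000100000000000000010000000000000000))) (.non (nat_lit 1) (nat_lit 5) (nat_lit 0x14a040) (nat_lit 0x20001000000020001000000000003000000000000))) (.non (nat_lit 1) (nat_lit 5) (nat_lit 0x10a050) (nat_lit 0x10000000000020001000000000003000200000000))) (.non (nat_lit 2)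 (nat_lit 5) (nat_lit 0x150105) (nat_lit 0x10001000100000000000000010000000000010001))) (.non (nat_lit 1) (nat_lit 5) (nat_lit 0x150101) (nat_lit 0x10001000100000000000000010000000000000001)))) (.non (nat_lit 1) (nat_lit 5) (nat_lit 0x5050) (nat_lit 0x20001000000000002000100000000))) (.non (nat_lit 1) (nat_lit 6) (nat_lit 0x20a01) (nat_lit 0x100000000000100020000000000000002))) (.non (nat_lit 1) (nat_lit 6) (nat_lit 0x20501) (nat_lit 0x100000000000100020000000000000001))) (.non (nat_lit 1) (nat_lit 6) (nat_lit 0x90501) (nat_lit 0x1000200000000000100020000000000000001))))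

noncomputable def t742_27 : Tr := (.split (nat_lit 7) (nat_lit 3) (.split (nat_lit 8) (nat_lit 4) (.pd (.cons (nat_lit 0) (nat_lit 6) (nat_lit 0) (nat_lit 0x430442110) (nat_lit 0xf423ff423f00000f423f7a11db71aea2c280473700000) (.cons (nat_lit 2) (nat_lit 4) (nat_lit 0) (nat_lit 0x837603000) (nat_lit 0xf423f437a254591f423f00000174ea00000f423fb71ae) (.cons (nat_lit 3) (nat_lit 4) (nat_lit 0) (nat_lit 0x865500100) (nat_lit 0xf423ff423fb71ae1f1560000000000f423f54591437a2) .nil))) (.ex (nat_lit 8) (.pd (.cons (nat_lit 0) (nat_lit 7) (nat_lit 0) (nat_lit 0x405442110) (nat_lit 0xf423f00000f423f5459106711f423fb71ae1f15600000) .nil) (.split (nat_lit 4) (nat_lit 0) (.leaf (.cons (nat_lit 0x5450) (nat_lit 0x30004000300000002000100000000) (.cons (nat_lit 0x5054) (nat_lit 0x20001000000000003000400030000) (.cons (nat_lit 0x11501) (nat_lit 0x100000002000200020000000000000001) (.cons (nat_lit 0x10115) (nat_lit 0x100000000000000020000000300040003) .nil)))) (.cons (nat_lit 0x11001100) (nat_lit 0x100010) (nat_lit 2) (nat_lit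 0x23001000) (.cons (nat_lit 0x100110011) (nat_lit 0x1000100) (nat_lit 8) (nat_lit 0x200100043) .nil))) (.non (nat_lit 1) (nat_lit 6) (nat_lit 0x20a01) (nat_lit 0x100000000000100020000000000000002)))) (.split (nat_lit 9) (nat_lit 0) (.split (nat_lit 9) (nat_lit 1) (.split (nat_lit 9) (nat_lit 2) (.split (nat_lit 9) (nat_lit 3) (.split (nat_lit 9) (nat_lit 4) (.split (nat_lit 9) (nat_lit 5) t742_24 (.non (nat_lit 1) (nat_lit 6) (nat_lit 0x50500) (nat_lit 0x1000100000000000100010000000000000000))) (.non (nat_lit 1) (nat_lit 5) (nat_lit 0x50100) (nat_lit 0x1000100000000000000010000000000000000))) (.non (nat_lit 1) (nat_lit 6) (nat_lit 0x54551) (nat_lit 0x2000200010000000100020002000100000001))) (.non (nat_lit 0) (nat_lit 6) (nat_lit 0x50114) (nat_lit 0x3000200000000000000010000000400030000))) (.non (nat_lit 2) (nat_lit 5) (nat_lit 0x50105) (nat_lit 0x1000100000000000000010000000000010001))) (.non (nat_lit 1) (nat_lit 5) (nat_lit 0x50101) (nat_lit 0x1000100000000000000010000000000000001))))) (.non (nat_lit 1) (nat_lit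 6) (nat_lit 0x20501) (nat_lit 0x100000000000100020000000000000001))) (.pd (.cons (nat_lit 3) (nat_lit 4) (nat_lit 0) (nat_lit 0x865500100) (nat_lit 0xf423ff423fb71ae1f1560000000000f423f54591437a2) .nil) (.ex (nat_lit 8) (.split (nat_lit 8) (nat_lit 4) (.pd (.cons (nat_lit 0) (nat_lit 7) (nat_lit 0) (nat_lit 0x405442110) (nat_lit 0xf423f00000f423f5459106711f423fb71ae1f15600000) .nil) (.split (nat_lit 4) (nat_lit 0) (.split (nat_lit 7) (nat_lit 3) (.leaf (.cons (nat_lit 0x5440) (nat_lit 0x10001000100000001000000000000) (.cons (nat_lit 0x4054) (nat_lit 0x10000000000000001000100010000) (.cons (nat_lit 0x11501) (nat_lit 0x100000002000200020000000000000001) (.cons (nat_lit 0x10115) (nat_lit 0x100000000000000020000000300040003) .nil)))) (.cons (nat_lit 0x11001100) (nat_lit 0x100010) (nat_lit 0xf) (nat_lit 0x23001000) (.cons (nat_lit 0x100110011) (nat_lit 0x1000100) (nat_lit 8) (nat_lit 0x200100043) .nil))) (.non (nat_lit 1) (nat_lit 5) (nat_lit 0x5050) (nat_lit 0x20001000000000002000100000000))) (.non (nat_lit 1)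 (nat_lit 6) (nat_lit 0x20a01) (nat_lit 0x100000000000100020000000000000002)))) (.non (nat_lit 1) (nat_lit 6) (nat_lit 0x20501) (nat_lit 0x100000000000100020000000000000001))) (.split (nat_lit 9) (nat_lit 0) (.split (nat_lit 9) (nat_lit 1) (.split (nat_lit 9) (nat_lit 2) (.split (nat_lit 9) (nat_lit 3) (.split (nat_lit 9) (nat_lit 4) (.split (nat_lit 9) (nat_lit 5) (.split (nat_lit 9) (nat_lit 6) (.split (nat_lit 9) (nat_lit 7) t742_26 (.non (nat_lit 1) (nat_lit 5) (nat_lit 0x8a040) (nat_lit 0x1000000020001000000000002000000000000))) (.non (nat_lit 1) (nat_lit 5) (nat_lit 0x8a050) (nat_lit 0x1000000030002000000000004000200000000))) (.non (nat_lit 1) (nat_lit 6) (nat_lit 0x50500) (nat_lit 0x1000100000000000100010000000000000000))) (.non (nat_lit 1) (nat_lit 5) (nat_lit 0x50100) (nat_lit 0x1000100000000000000010000000000000000))) (.non (nat_lit 1) (nat_lit 5) (nat_lit 0x5a040) (nat_lit 0x2000100020001000000000003000000000000))) (.non (nat_lit 1) (nat_lit 5) (nat_lit 0x4a050) (nat_lit 0x1000000020001000000000003000200000000)))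 (.non (nat_lit 2) (nat_lit 5) (nat_lit 0x50105) (nat_lit 0x1000100000000000000010000000000010001))) (.non (nat_lit 1) (nat_lit 5) (nat_lit 0x50101) (nat_lit 0x1000100000000000000010000000000000001))))))

noncomputable def t742_28 : Tr := (.split (nat_lit 0xc) (nat_lit 0) (.split (nat_lit 0xc) (nat_lit 1) (.split (nat_lit 0xc) (nat_lit 2) (.split (nat_lit 0xc) (nat_lit 3) (.split (nat_lit 0xc) (nat_lit 4) (.split (nat_lit 0xc) (nat_lit 5) (.split (nat_lit 0xc) (nat_lit 6) (.split (nat_lit 0xc) (nat_lit 7) (.split (nat_lit 0xc) (nat_lit 8) (.split (nat_lit 0xc) (nat_lit 9) (.split (nat_lit 0xc) (nat_lit 0xa) (.st (nat_lit 0xb) (nat_lit 1) (nat_lit 5) (nat_lit 0x1545040) (nat_lit 0x1000200020002000000020001000000000001000000000000) (nat_lit 1) (nat_lit 1) (.st (nat_lit 0xc) (nat_lit 1) (nat_lit 5) (nat_lit 0x1545050) (nat_lit 0x2000300040005000000060003000000000004000200000000) (nat_lit 1) (nat_lit 1) (.split (nat_lit 0xc) (nat_lit 0xb) (.leaf (.cons (nat_lit 0x145400) (nat_lit 0x10002000000030004000300000000000000000000)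 (.cons (nat_lit 0x44054) (nat_lit 0x1000000020000000000000003000400030000) (.cons (nat_lit 0x11501) (nat_lit 0x100000002000200020000000000000001) (.cons (nat_lit 0x10115) (nat_lit 0x100000000000000020000000300040003) .nil)))) (.cons (nat_lit 0x1111011001100) (nat_lit 0x100010) (nat_lit 0xe) (nat_lit 0x7654001002300) (.cons (nat_lit 0x100110011) (nat_lit 0x1000100) (nat_lit 8) (nat_lit 0x200100043) .nil))) (.non (nat_lit 1) (nat_lit 5) (nat_lit 0x2545040) (nat_lit 0x1000200020002000000020001000000000001000000000000))))) (.non (nat_lit 1) (nat_lit 5) (nat_lit 0x1500000) (nat_lit 0x1000100010000000000000000000000000000000000000000))) (.non (nat_lit 1) (nat_lit 5) (nat_lit 0x1540000) (nat_lit 0x1000100010001000000000000000000000000000000000000))) (.non (nat_lit 1) (nat_lit 5) (nat_lit 0x1555050) (nat_lit 0x2000300040005000100060003000000000004000200000000))) (.non (nat_lit 1) (nat_lit 5) (nat_lit 0x1544000) (nat_lit 0x1000100010001000000010000000000000000000000000000))) (.non (nat_lit 1) (nat_lit 5) (nat_lit 0x1545000)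 (nat_lit 0x1000100010001000000010001000000000000000000000000))) (.non (nat_lit 2) (nat_lit 6) (nat_lit 0x1550505) (nat_lit 0x4000300020001000300000000000500060000000000020004))) (.non (nat_lit 1) (nat_lit 5) (nat_lit 0x1545150) (nat_lit 0x2000300040005000000060003000000010004000200000000))) (.non (nat_lit 1) (nat_lit 5) (nat_lit 0x1544040) (nat_lit 0x1000100010001000000010000000000000001000000000000))) (.non (nat_lit 1) (nat_lit 5) (nat_lit 0x1544050) (nat_lit 0x1000100010001000000010000000000000001000100000000))) (.non (nat_lit 0) (nat_lit 7) (nat_lit 0x1500014) (nat_lit 0x3000200010000000000000000000000000000000300040000))) (.non (nat_lit 1) (nat_lit 5) (nat_lit 0x1545051) (nat_lit 0x2000300040005000000060003000000000004000200000001)))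

noncomputable def t742_29 : Tr := (.ex (nat_lit 0xa) (.leaf (.cons (nat_lit 0x145400) (nat_lit 0x10002000000030004000300000000000000000000) (.cons (nat_lit 0x44054) (nat_lit 0x1000000020000000000000003000400030000) (.cons (nat_lit 0x11501) (nat_lit 0x100000002000200020000000000000001) (.cons (nat_lit 0x10115) (nat_lit 0x100000000000000020000000300040003) .nil)))) (.cons (nat_lit 0x11011001100) (nat_lit 0x100010) (nat_lit 0xc) (nat_lit 0x54001002300) .nil)) (.split (nat_lit 0xb) (nat_lit 0) (.split (nat_lit 0xb) (nat_lit 1) (.split (nat_lit 0xb) (nat_lit 2) (.split (nat_lit 0xb) (nat_lit 3) (.split (nat_lit 0xb) (nat_lit 4) (.split (nat_lit 0xb) (nat_lit 5) (.split (nat_lit 0xb) (nat_lit 6) (.split (nat_lit 0xb) (nat_lit 7) (.split (nat_lit 0xb) (nat_lit 8) (.split (nat_lit 0xb) (nat_lit 9) (.st (nat_lit 0xa) (nat_lit 1) (nat_lit 5) (nat_lit 0x545040) (nat_lit 0x100020002000000020001000000000001000000000000) (nat_lit 1) (nat_lit 1) (.split (nat_lit 0xb) (nat_lit 0xa) (.ex (nat_lit 0xb) (.leaf (.cons (nat_lit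 0x145400) (nat_lit 0x10002000000030004000300000000000000000000) (.cons (nat_lit 0x44054) (nat_lit 0x1000000020000000000000003000400030000) (.cons (nat_lit 0x11501) (nat_lit 0x100000002000200020000000000000001) (.cons (nat_lit 0x10115) (nat_lit 0x100000000000000020000000300040003) .nil)))) (.cons (nat_lit 0x111011001100) (nat_lit 0x100010) (nat_lit 0xd) (nat_lit 0x654001002300) (.cons (nat_lit 0x100110011) (nat_lit 0x1000100) (nat_lit 8) (nat_lit 0x200100043) .nil))) t742_28) (.non (nat_lit 1) (nat_lit 5) (nat_lit 0x945040) (nat_lit 0x100020002000000020001000000000001000000000000)))) (.non (nat_lit 1) (nat_lit 5) (nat_lit 0x540000) (nat_lit 0x100010001000000000000000000000000000000000000))) (.non (nat_lit 1) (nat_lit 5) (nat_lit 0x555150) (nat_lit 0x300040005000200060003000000010004000200000000))) (.non (nat_lit 1) (nat_lit 5) (nat_lit 0x544000) (nat_lit 0x100010001000000010000000000000000000000000000))) (.non (nat_lit 1) (nat_lit 5) (nat_lit 0x545000) (nat_lit 0x100010001000000010001000000000000000000000000)))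 (.non (nat_lit 2) (nat_lit 6) (nat_lit 0x554505) (nat_lit 0x400030002000300010000000500060000000000020004))) (.non (nat_lit 1) (nat_lit 5) (nat_lit 0x555150) (nat_lit 0x300040005000100060003000000020004000200000000))) (.non (nat_lit 1) (nat_lit 5) (nat_lit 0x544040) (nat_lit 0x100010001000000010000000000000001000000000000))) (.non (nat_lit 1) (nat_lit 5) (nat_lit 0x544050) (nat_lit 0x100010001000000010000000000000001000100000000))) (.non (nat_lit 0) (nat_lit 7) (nat_lit 0x540014) (nat_lit 0x300020001000000000000000000000000000300040000))) (.non (nat_lit 1) (nat_lit 5) (nat_lit 0x545151) (nat_lit 0x300040005000000060003000000010004000200000002))))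

noncomputable def t742_30 : Tr := (.ex (nat_lit 9) (.split (nat_lit 9) (nat_lit 7) (.pd (.cons (nat_lit 3) (nat_lit 4) (nat_lit 0) (nat_lit 0x7865500100) (nat_lit 0xf423ff423fb71aea2c28047370000000000f423f54591437a2) .nil) (.split (nat_lit 4) (nat_lit 0) (.split (nat_lit 7) (nat_lit 3) (.leaf (.cons (nat_lit 0x45440) (nat_lit 0x1000000020002000200000001000000000000) (.cons (nat_lit 0x44054) (nat_lit 0x1000000020000000000000003000400030000) (.cons (nat_lit 0x11501) (nat_lit 0x100000002000200020000000000000001) (.cons (nat_lit 0x10115) (nat_lit 0x100000000000000020000000300040003) .nil)))) (.cons (nat_lit 0x1011001100) (nat_lit 0x100010) (nat_lit 8) (nat_lit 0x2001003400) (.cons (nat_lit 0x100110011) (nat_lit 0x1000100) (nat_lit 8) (nat_lit 0x200100043) .nil))) (.non (nat_lit 1) (nat_lit 5) (nat_lit 0x8a040) (nat_lit 0x1000000020001000000000002000000000000))) (.non (nat_lit 1) (nat_lit 6) (nat_lit 0x20a01) (nat_lit 0x100000000000100020000000000000002)))) (.non (nat_lit 1) (nat_lit 5) (nat_lit 0x85040) (nat_lit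 0x1000000020001000000000001000000000000))) (.split (nat_lit 0xa) (nat_lit 0) (.split (nat_lit 0xa) (nat_lit 1) (.split (nat_lit 0xa) (nat_lit 2) (.split (nat_lit 0xa) (nat_lit 3) (.split (nat_lit 0xa) (nat_lit 4) (.split (nat_lit 0xa) (nat_lit 5) (.split (nat_lit 0xa) (nat_lit 6) (.split (nat_lit 0xa) (nat_lit 7) (.split (nat_lit 0xa) (nat_lit 8) (.st (nat_lit 9) (nat_lit 1) (nat_lit 5) (nat_lit 0x145040) (nat_lit 0x10002000000020001000000000001000000000000) (nat_lit 1) (nat_lit 1) (.split (nat_lit 0xa) (nat_lit 9) (.split (nat_lit 4) (nat_lit 0) (.split (nat_lit 9) (nat_lit 7) (.split (nat_lit 7) (nat_lit 3) t742_29 (.non (nat_lit 1) (nat_lit 5) (nat_lit 0x8a040) (nat_lit 0x1000000020001000000000002000000000000))) (.non (nat_lit 1) (nat_lit 5) (nat_lit 0x85040) (nat_lit 0x1000000020001000000000001000000000000))) (.non (nat_lit 1) (nat_lit 6) (nat_lit 0x20a01) (nat_lit 0x100000000000100020000000000000002))) (.non (nat_lit 1) (nat_lit 5) (nat_lit 0x245040) (nat_lit 0x10002000000020001000000000001000000000000))))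 (.non (nat_lit 1) (nat_lit 5) (nat_lit 0x155151) (nat_lit 0x40005000300060003000000020004000200000001))) (.non (nat_lit 1) (nat_lit 5) (nat_lit 0x144000) (nat_lit 0x10001000000010000000000000000000000000000))) (.non (nat_lit 1) (nat_lit 5) (nat_lit 0x145000) (nat_lit 0x10001000000010001000000000000000000000000))) (.non (nat_lit 2) (nat_lit 6) (nat_lit 0x154545) (nat_lit 0x40003000300020000000500060001000000020004))) (.non (nat_lit 1) (nat_lit 5) (nat_lit 0x155141) (nat_lit 0x20002000100020001000000020001000000000001))) (.non (nat_lit 1) (nat_lit 5) (nat_lit 0x144040) (nat_lit 0x10001000000010000000000000001000000000000))) (.non (nat_lit 1) (nat_lit 5) (nat_lit 0x144050) (nat_lit 0x10001000000010000000000000001000100000000))) (.non (nat_lit 0) (nat_lit 7) (nat_lit 0x100054) (nat_lit 0x10000000000000000000000000001000200020000))) (.non (nat_lit 1) (nat_lit 5) (nat_lit 0x155151) (nat_lit 0x40005000100060003000000020004000200000003))))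

noncomputable def t742_31 : Tr := (.split (nat_lit 0xc) (nat_lit 0) (.split (nat_lit 0xc) (nat_lit 1) (.split (nat_lit 0xc) (nat_lit 2) (.split (nat_lit 0xc) (nat_lit 3) (.split (nat_lit 0xc) (nat_lit 4) (.split (nat_lit 0xc) (nat_lit 5) (.split (nat_lit 0xc) (nat_lit 6) (.split (nat_lit 0xc) (nat_lit 7) (.split (nat_lit 0xc) (nat_lit 8) (.split (nat_lit 0xc) (nat_lit 9) (.split (nat_lit 0xc) (nat_lit 0xa) (.st (nat_lit 0xb) (nat_lit 1) (nat_lit 6) (nat_lit 0x1510501) (nat_lit 0x1000200020000000200000000000100020000000000000001) (nat_lit 1) (nat_lit 1) (.st (nat_lit 0xc) (nat_lit 2) (nat_lit 6) (nat_lit 0x1510505) (nat_lit 0x2000300040000000500000000000300060000000000020004) (nat_lit 1) (nat_lit 1) (.split (nat_lit 0xc) (nat_lit 0xb) (.leaf (.cons (nat_lit 0x45440) (nat_lit 0x1000000020002000200000001000000000000) (.cons (nat_lit 0x44054) (nat_lit 0x1000000020000000000000003000400030000) (.cons (nat_lit 0x111500) (nat_lit 0x10000000200000003000400030000000000000000) (.cons (nat_lit 0x10115) (nat_lit 0x100000000000000020000000300040003)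 .nil)))) (.cons (nat_lit 0x1011001100) (nat_lit 0x100010) (nat_lit 8) (nat_lit 0x2001003400) (.cons (nat_lit 0x1110100110011) (nat_lit 0x1000100) (nat_lit 0xe) (nat_lit 0x7650400100032) .nil))) (.non (nat_lit 1) (nat_lit 6) (nat_lit 0x2510501) (nat_lit 0x1000200020000000200000000000100020000000000000001))))) (.non (nat_lit 1) (nat_lit 5) (nat_lit 0x1500000) (nat_lit 0x1000100010000000000000000000000000000000000000000))) (.non (nat_lit 1) (nat_lit 5) (nat_lit 0x1555050) (nat_lit 0x4000300020005000100060003000000000004000200000000))) (.non (nat_lit 1) (nat_lit 5) (nat_lit 0x1510000) (nat_lit 0x1000100010000000100000000000000000000000000000000))) (.non (nat_lit 1) (nat_lit 5) (nat_lit 0x1045040) (nat_lit 0x1000000000001000000020001000000000001000000000000))) (.non (nat_lit 1) (nat_lit 5) (nat_lit 0x1555050) (nat_lit 0x4000300020003000100060005000000000004000200000000))) (.non (nat_lit 1) (nat_lit 6) (nat_lit 0x1510500) (nat_lit 0x1000100010000000100000000000100010000000000000000))) (.non (nat_lit 1) (nat_lit 5)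 (nat_lit 0x1510100) (nat_lit 0x1000100010000000100000000000000010000000000000000))) (.non (nat_lit 1) (nat_lit 5) (nat_lit 0x1045050) (nat_lit 0x1000000000001000000020001000000000002000100000000))) (.non (nat_lit 3) (nat_lit 4) (nat_lit 0x1500014) (nat_lit 0x3000200010000000000000000000000000000000400030000))) (.non (nat_lit 2) (nat_lit 5) (nat_lit 0x1510105) (nat_lit 0x1000100010000000100000000000000010000000000010001))) (.non (nat_lit 1) (nat_lit 5) (nat_lit 0x1510101) (nat_lit 0x1000100010000000100000000000000010000000000000001)))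

noncomputable def t742_32 : Tr := (.ex (nat_lit 0xa) (.leaf (.cons (nat_lit 0x45440) (nat_lit 0x1000000020002000200000001000000000000) (.cons (nat_lit 0x44054) (nat_lit 0x1000000020000000000000003000400030000) (.cons (nat_lit 0x111500) (nat_lit 0x10000000200000003000400030000000000000000) (.cons (nat_lit 0x10115) (nat_lit 0x100000000000000020000000300040003) .nil)))) (.cons (nat_lit 0x10100110011) (nat_lit 0x1000100) (nat_lit 0xc) (nat_lit 0x50400100032) .nil)) (.split (nat_lit 0xb) (nat_lit 0) (.split (nat_lit 0xb) (nat_lit 1) (.split (nat_lit 0xb) (nat_lit 2) (.split (nat_lit 0xb) (nat_lit 3) (.split (nat_lit 0xb) (nat_lit 4) (.split (nat_lit 0xb) (nat_lit 5) (.split (nat_lit 0xb) (nat_lit 6) (.split (nat_lit 0xb) (nat_lit 7) (.split (nat_lit 0xb) (nat_lit 8) (.split (nat_lit 0xb) (nat_lit 9) (.st (nat_lit 0xa) (nat_lit 1) (nat_lit 6) (nat_lit 0x510501) (nat_lit 0x100020000000200000000000100020000000000000001) (nat_lit 1) (nat_lit 1) (.split (nat_lit 0xb) (nat_lit 0xa) (.ex (nat_lit 0xb) (.leaf (.cons (nat_lit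 0x45440) (nat_lit 0x1000000020002000200000001000000000000) (.cons (nat_lit 0x44054) (nat_lit 0x1000000020000000000000003000400030000) (.cons (nat_lit 0x111500) (nat_lit 0x10000000200000003000400030000000000000000) (.cons (nat_lit 0x10115) (nat_lit 0x100000000000000020000000300040003) .nil)))) (.cons (nat_lit 0x1011001100) (nat_lit 0x100010) (nat_lit 8) (nat_lit 0x2001003400) (.cons (nat_lit 0x110100110011) (nat_lit 0x1000100) (nat_lit 0xd) (nat_lit 0x650400100032) .nil))) t742_31) (.non (nat_lit 1) (nat_lit 6) (nat_lit 0x910501) (nat_lit 0x100020000000200000000000100020000000000000001)))) (.non (nat_lit 1) (nat_lit 5) (nat_lit 0x555150) (nat_lit 0x400030005000200060003000000010004000200000000))) (.non (nat_lit 1) (nat_lit 5) (nat_lit 0x510000) (nat_lit 0x100010000000100000000000000000000000000000000))) (.non (nat_lit 1) (nat_lit 5) (nat_lit 0x445040) (nat_lit 0x100000001000000020001000000000001000000000000))) (.non (nat_lit 1) (nat_lit 5) (nat_lit 0x555150) (nat_lit 0x400030003000200060005000000010004000200000000)))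 (.non (nat_lit 1) (nat_lit 6) (nat_lit 0x510500) (nat_lit 0x100010000000100000000000100010000000000000000))) (.non (nat_lit 1) (nat_lit 5) (nat_lit 0x510100) (nat_lit 0x100010000000100000000000000010000000000000000))) (.non (nat_lit 1) (nat_lit 5) (nat_lit 0x445050) (nat_lit 0x100000001000000020001000000000002000100000000))) (.non (nat_lit 3) (nat_lit 4) (nat_lit 0x510014) (nat_lit 0x300020000000100000000000000000000000400030000))) (.non (nat_lit 2) (nat_lit 5) (nat_lit 0x510105) (nat_lit 0x100010000000100000000000000010000000000010001))) (.non (nat_lit 1) (nat_lit 5) (nat_lit 0x510101) (nat_lit 0x100010000000100000000000000010000000000000001))))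

noncomputable def t742_33 : Tr := (.split (nat_lit 0xe) (nat_lit 3) (.split (nat_lit 0xe) (nat_lit 4) (.split (nat_lit 0xe) (nat_lit 5) (.split (nat_lit 0xe) (nat_lit 6) (.split (nat_lit 0xe) (nat_lit 7) (.split (nat_lit 0xe) (nat_lit 8) (.split (nat_lit 0xe) (nat_lit 9) (.split (nat_lit 0xe) (nat_lit 0xa) (.split (nat_lit 0xe) (nat_lit 0xb) (.split (nat_lit 0xe) (nat_lit 0xc) (.st (nat_lit 0xd) (nat_lit 1) (nat_lit 5) (nat_lit 0x14445040) (nat_lit 0x100020000000200000002000000020001000000000001000000000000) (nat_lit 1) (nat_lit 1) (.st (nat_lit 0xe) (nat_lit 1) (nat_lit 5) (nat_lit 0x14445050) (nat_lit 0x200030000000400000005000000060003000000000004000200000000) (nat_lit 1) (nat_lit 1) (.split (nat_lit 0xe) (nat_lit 0xd) (.leaf (.cons (nat_lit 0x445400) (nat_lit 0x100000002000000030004000300000000000000000000) (.cons (nat_lit 0x44054) (nat_lit 0x1000000020000000000000003000400030000) (.cons (nat_lit 0x111500) (nat_lit 0x10000000200000003000400030000000000000000) (.cons (nat_lit 0x10115) (nat_lit 0x100000000000000020000000300040003)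 .nil)))) (.cons (nat_lit 0x110101011001100) (nat_lit 0x100010) (nat_lit 0xe) (nat_lit 0x760504001002300) (.cons (nat_lit 0x1010100110011) (nat_lit 0x1000100) (nat_lit 0xd) (nat_lit 0x6050400100032) .nil))) (.non (nat_lit 1) (nat_lit 5) (nat_lit 0x24445040) (nat_lit 0x100020000000200000002000000020001000000000001000000000000))))) (.non (nat_lit 1) (nat_lit 5) (nat_lit 0x15445050) (nat_lit 0x200030001000400000005000000060003000000000004000200000000))) (.non (nat_lit 1) (nat_lit 5) (nat_lit 0x14400000) (nat_lit 0x100010000000100000000000000000000000000000000000000000000))) (.non (nat_lit 1) (nat_lit 5) (nat_lit 0x15554100) (nat_lit 0x500040003000300060002000400010000000000020000000000000000))) (.non (nat_lit 1) (nat_lit 5) (nat_lit 0x14440000) (nat_lit 0x100010000000100000001000000000000000000000000000000000000))) (.non (nat_lit 1) (nat_lit 5) (nat_lit 0x15554100) (nat_lit 0x500040002000300040002000600010000000000030000000000000000))) (.non (nat_lit 1) (nat_lit 5) (nat_lit 0x14444000) (nat_lit 0x100010000000100000001000000010000000000000000000000000000)))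 (.non (nat_lit 1) (nat_lit 5) (nat_lit 0x14445000) (nat_lit 0x100010000000100000001000000010001000000000000000000000000))) (.non (nat_lit 1) (nat_lit 6) (nat_lit 0x15110501) (nat_lit 0x200010001000000020000000300000000000300040000000000000002))) (.non (nat_lit 1) (nat_lit 5) (nat_lit 0x14445150) (nat_lit 0x200030000000400000005000000060003000000010004000200000000))) (.non (nat_lit 1) (nat_lit 5) (nat_lit 0x14444040) (nat_lit 0x100010000000100000001000000010000000000000001000000000000)))

noncomputable def t742_34 : Tr := (.split (nat_lit 0xf) (nat_lit 4) (.split (nat_lit 0xf) (nat_lit 5) (.split (nat_lit 0xf) (nat_lit 6) (.split (nat_lit 0xf) (nat_lit 7) (.split (nat_lit 0xf) (nat_lit 8) (.split (nat_lit 0xf) (nat_lit 9) (.split (nat_lit 0xf) (nat_lit 0xa) (.split (nat_lit 0xf) (nat_lit 0xb) (.split (nat_lit 0xf) (nat_lit 0xc) (.split (nat_lit 0xf) (nat_lit 0xe) (.st (nat_lit 0xd) (nat_lit 1) (nat_lit 5) (nat_lit 0x44445040) (nat_lit 0x1000000020000000200000002000000020001000000000001000000000000) (nat_lit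 1) (nat_lit 1) (.st (nat_lit 0xf) (nat_lit 1) (nat_lit 5) (nat_lit 0x44445050) (nat_lit 0x2000000030000000400000005000000060003000000000004000200000000) (nat_lit 1) (nat_lit 1) (.split (nat_lit 0xf) (nat_lit 0xd) (.leaf (.cons (nat_lit 0x445400) (nat_lit 0x100000002000000030004000300000000000000000000) (.cons (nat_lit 0x44054) (nat_lit 0x1000000020000000000000003000400030000) (.cons (nat_lit 0x111500) (nat_lit 0x10000000200000003000400030000000000000000) (.cons (nat_lit 0x10115) (nat_lit 0x100000000000000020000000300040003) .nil)))) (.cons (nat_lit 0x1010101011001100) (nat_lit 0x100010) (nat_lit 0xe) (nat_lit 0x7060504001002300) (.cons (nat_lit 0x101010100110011) (nat_lit 0x1000100) (nat_lit 0xe) (nat_lit 0x706050400100032) .nil))) (.non (nat_lit 1) (nat_lit 5) (nat_lit 0x84445040) (nat_lit 0x1000000020000000200000002000000020001000000000001000000000000))))) (.non (nat_lit 1) (nat_lit 5) (nat_lit 0x54445050) (nat_lit 0x2000100030000000400000005000000060003000000000004000200000000))) (.non (nat_lit 1) (nat_lit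 5) (nat_lit 0x55554000) (nat_lit 0x5000300040006000300040002000200010000000000000000000000000000))) (.non (nat_lit 1) (nat_lit 5) (nat_lit 0x44400000) (nat_lit 0x1000000010000000100000000000000000000000000000000000000000000))) (.non (nat_lit 1) (nat_lit 5) (nat_lit 0x55554000) (nat_lit 0x5000200040004000300060002000300010000000000000000000000000000))) (.non (nat_lit 1) (nat_lit 5) (nat_lit 0x44440000) (nat_lit 0x1000000010000000100000001000000000000000000000000000000000000))) (.non (nat_lit 1) (nat_lit 5) (nat_lit 0x55510100) (nat_lit 0x3000100020002000100030000000400000000000000020000000000000000))) (.non (nat_lit 1) (nat_lit 5) (nat_lit 0x44444000) (nat_lit 0x1000000010000000100000001000000010000000000000000000000000000))) (.non (nat_lit 1) (nat_lit 5) (nat_lit 0x44445000) (nat_lit 0x1000000010000000100000001000000010001000000000000000000000000))) (.non (nat_lit 1) (nat_lit 6) (nat_lit 0x45110501) (nat_lit 0x2000000010001000000020000000300000000000300040000000000000002))) (.non (nat_lit 1) (nat_lit 5) (nat_lit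 0x44445150) (nat_lit 0x2000000030000000400000005000000060003000000010004000200000000)))

noncomputable def t742_35 : Tr := (.split (nat_lit 0xe) (nat_lit 7) (.split (nat_lit 0xe) (nat_lit 8) (.split (nat_lit 0xe) (nat_lit 9) (.split (nat_lit 0xe) (nat_lit 0xa) (.split (nat_lit 0xe) (nat_lit 0xb) (.split (nat_lit 0xe) (nat_lit 0xd) (.st (nat_lit 0xc) (nat_lit 1) (nat_lit 6) (nat_lit 0x11110501) (nat_lit 0x100000002000000020000000200000000000100020000000000000001) (nat_lit 1) (nat_lit 1) (.st (nat_lit 0xe) (nat_lit 2) (nat_lit 6) (nat_lit 0x11110505) (nat_lit 0x200000003000000040000000500000000000300060000000000020004) (nat_lit 1) (nat_lit 1) (.split (nat_lit 0xe) (nat_lit 0xc) (.ex (nat_lit 0xd) (.leaf (.cons (nat_lit 0x445400) (nat_lit 0x100000002000000030004000300000000000000000000) (.cons (nat_lit 0x44054) (nat_lit 0x1000000020000000000000003000400030000) (.cons (nat_lit 0x111500) (nat_lit 0x10000000200000003000400030000000000000000) (.cons (nat_lit 0x10115) (nat_lit 0x100000000000000020000000300040003) .nil))))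 (.cons (nat_lit 0x10101011001100) (nat_lit 0x100010) (nat_lit 0xd) (nat_lit 0x60504001002300) (.cons (nat_lit 0x101010100110011) (nat_lit 0x1000100) (nat_lit 0xe) (nat_lit 0x706050400100032) .nil))) (.split (nat_lit 0xf) (nat_lit 0) (.split (nat_lit 0xf) (nat_lit 1) (.split (nat_lit 0xf) (nat_lit 2) (.split (nat_lit 0xf) (nat_lit 3) t742_34 (.non (nat_lit 1) (nat_lit 5) (nat_lit 0x44444040) (nat_lit 0x1000000010000000100000001000000010000000000000001000000000000))) (.non (nat_lit 1) (nat_lit 5) (nat_lit 0x44444050) (nat_lit 0x1000000010000000100000001000000010000000000000001000100000000))) (.non (nat_lit 2) (nat_lit 6) (nat_lit 0x41110505) (nat_lit 0x1000000000001000000020000000300000000000200040000000000020003))) (.non (nat_lit 1) (nat_lit 5) (nat_lit 0x44445051) (nat_lit 0x2000000030000000400000005000000060003000000000004000200000001)))) (.non (nat_lit 1) (nat_lit 6) (nat_lit 0x21110501) (nat_lit 0x100000002000000020000000200000000000100020000000000000001))))) (.non (nat_lit 1) (nat_lit 5) (nat_lit 0x15445050)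 (nat_lit 0x200030001000400000005000000060003000000000004000200000000))) (.non (nat_lit 1) (nat_lit 5) (nat_lit 0x15545000) (nat_lit 0x300020002000400010003000000020001000000000000000000000000))) (.non (nat_lit 1) (nat_lit 5) (nat_lit 0x11100000) (nat_lit 0x100000001000000010000000000000000000000000000000000000000))) (.non (nat_lit 1) (nat_lit 5) (nat_lit 0x15445000) (nat_lit 0x200010001000200000003000000020001000000000000000000000000))) (.non (nat_lit 1) (nat_lit 5) (nat_lit 0x11110000) (nat_lit 0x100000001000000010000000100000000000000000000000000000000))) (.non (nat_lit 1) (nat_lit 5) (nat_lit 0x15545000) (nat_lit 0x300010002000200010003000000040002000000000000000000000000)))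

noncomputable def t742_36 : Tr := (.split (nat_lit 0xd) (nat_lit 0xc) (.st (nat_lit 0xb) (nat_lit 1) (nat_lit 5) (nat_lit 0x4445040) (nat_lit 0x10000000200000002000000020001000000000001000000000000) (nat_lit 1) (nat_lit 1) (.split (nat_lit 0xd) (nat_lit 0xb) (.ex (nat_lit 0xc) (.ex (nat_lit 0xd) (.leaf (.cons (nat_lit 0x445400) (nat_lit 0x100000002000000030004000300000000000000000000) (.cons (nat_lit 0x44054) (nat_lit 0x1000000020000000000000003000400030000) (.cons (nat_lit 0x111500) (nat_lit 0x10000000200000003000400030000000000000000) (.cons (nat_lit 0x10115) (nat_lit 0x100000000000000020000000300040003) .nil)))) (.cons (nat_lit 0x10101011001100) (nat_lit 0x100010) (nat_lit 0xd) (nat_lit 0x60504001002300) (.cons (nat_lit 0x1010100110011) (nat_lit 0x1000100) (nat_lit 0xd) (nat_lit 0x6050400100032) .nil))) (.split (nat_lit 0xe) (nat_lit 0) (.split (nat_lit 0xe) (nat_lit 1) (.split (nat_lit 0xe) (nat_lit 2) t742_33 (.non (nat_lit 1) (nat_lit 5) (nat_lit 0x14444050) (nat_lit 0x100010000000100000001000000010000000000000001000100000000)))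 (.non (nat_lit 2) (nat_lit 6) (nat_lit 0x11110505) (nat_lit 0x100000001000000020000000300000000000200040000000000020003))) (.non (nat_lit 1) (nat_lit 5) (nat_lit 0x14445051) (nat_lit 0x200030000000400000005000000060003000000000004000200000001)))) (.split (nat_lit 0xe) (nat_lit 0) (.split (nat_lit 0xe) (nat_lit 1) (.split (nat_lit 0xe) (nat_lit 2) (.split (nat_lit 0xe) (nat_lit 3) (.split (nat_lit 0xe) (nat_lit 4) (.split (nat_lit 0xe) (nat_lit 5) (.split (nat_lit 0xe) (nat_lit 6) t742_35 (.non (nat_lit 1) (nat_lit 5) (nat_lit 0x15445040) (nat_lit 0x200010001000200000003000000040003000000000002000000000000))) (.non (nat_lit 1) (nat_lit 6) (nat_lit 0x11110500) (nat_lit 0x100000001000000010000000100000000000100010000000000000000))) (.non (nat_lit 1) (nat_lit 5) (nat_lit 0x11110100) (nat_lit 0x100000001000000010000000100000000000000010000000000000000))) (.non (nat_lit 1) (nat_lit 5) (nat_lit 0x15445040) (nat_lit 0x200010001000200000003000000040002000000000003000000000000))) (.non (nat_lit 1) (nat_lit 5) (nat_lit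 0x14445050) (nat_lit 0x100010000000200000003000000040002000000000003000200000000))) (.non (nat_lit 2) (nat_lit 5) (nat_lit 0x11110105) (nat_lit 0x100000001000000010000000100000000000000010000000000010001))) (.non (nat_lit 1) (nat_lit 5) (nat_lit 0x11110101) (nat_lit 0x100000001000000010000000100000000000000010000000000000001)))) (.non (nat_lit 1) (nat_lit 5) (nat_lit 0x8445040) (nat_lit 0x10000000200000002000000020001000000000001000000000000)))) (.non (nat_lit 1) (nat_lit 5) (nat_lit 0x5545050) (nat_lit 0x30002000400010005000000060003000000000004000200000000)))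

noncomputable def t742_37 : Tr := (.split (nat_lit 0xc) (nat_lit 0xb) (.st (nat_lit 0xa) (nat_lit 1) (nat_lit 6) (nat_lit 0x1110501) (nat_lit 0x1000000020000000200000000000100020000000000000001) (nat_lit 1) (nat_lit 1) (.split (nat_lit 0xc) (nat_lit 0xa) (.ex (nat_lit 0xb) (.leaf (.cons (nat_lit 0x445400) (nat_lit 0x100000002000000030004000300000000000000000000) (.cons (nat_lit 0x44054) (nat_lit 0x1000000020000000000000003000400030000) (.cons (nat_lit 0x111500) (nat_lit 0x10000000200000003000400030000000000000000) (.cons (nat_lit 0x10115) (nat_lit 0x100000000000000020000000300040003) .nil)))) (.cons (nat_lit 0x101011001100) (nat_lit 0x100010) (nat_lit 0xc) (nat_lit 0x504001002300) .nil)) (.split (nat_lit 0xd) (nat_lit 0) (.split (nat_lit 0xd) (nat_lit 1) (.split (nat_lit 0xd) (nat_lit 2) (.split (nat_lit 0xd) (nat_lit 3) (.split (nat_lit 0xd) (nat_lit 4) (.split (nat_lit 0xd) (nat_lit 5) (.split (nat_lit 0xd) (nat_lit 6) (.split (nat_lit 0xd) (nat_lit 7) (.split (nat_lit 0xd) (nat_lit 8) (.split (nat_lit 0xd)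 (nat_lit 9) (.split (nat_lit 0xd) (nat_lit 0xa) t742_36 (.non (nat_lit 1) (nat_lit 5) (nat_lit 0x5555100) (nat_lit 0x50003000400060003000400020001000000020000000000000000))) (.non (nat_lit 1) (nat_lit 5) (nat_lit 0x4440000) (nat_lit 0x10000000100000001000000000000000000000000000000000000))) (.non (nat_lit 1) (nat_lit 5) (nat_lit 0x5555100) (nat_lit 0x50002000400040003000600020001000000030000000000000000))) (.non (nat_lit 1) (nat_lit 5) (nat_lit 0x4444000) (nat_lit 0x10000000100000001000000010000000000000000000000000000))) (.non (nat_lit 1) (nat_lit 5) (nat_lit 0x4445000) (nat_lit 0x10000000100000001000000010001000000000000000000000000))) (.non (nat_lit 1) (nat_lit 6) (nat_lit 0x5510501) (nat_lit 0x20001000100020000000300000000000300040000000000000002))) (.non (nat_lit 1) (nat_lit 5) (nat_lit 0x4455150) (nat_lit 0x30000000400000005000100060003000000020004000200000000))) (.non (nat_lit 1) (nat_lit 5) (nat_lit 0x4444040) (nat_lit 0x10000000100000001000000010000000000000001000000000000))) (.non (nat_lit 1) (nat_lit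 5) (nat_lit 0x4444050) (nat_lit 0x10000000100000001000000010000000000000001000100000000))) (.non (nat_lit 2) (nat_lit 6) (nat_lit 0x5110505) (nat_lit 0x10001000000020000000300000000000200040000000000020003))) (.non (nat_lit 1) (nat_lit 5) (nat_lit 0x4445151) (nat_lit 0x30000000400000005000000060003000000010004000200000002)))) (.non (nat_lit 1) (nat_lit 6) (nat_lit 0x2110501) (nat_lit 0x1000000020000000200000000000100020000000000000001)))) (.non (nat_lit 1) (nat_lit 5) (nat_lit 0x1555050) (nat_lit 0x3000400020005000100060003000000000004000200000000)))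

noncomputable def t742_38 : Tr := (.split (nat_lit 8) (nat_lit 4) (.split (nat_lit 4) (nat_lit 0) (.split (nat_lit 0xb) (nat_lit 9) (.split (nat_lit 9) (nat_lit 7) (.split (nat_lit 7) (nat_lit 3) (.ex (nat_lit 0xa) (.leaf (.cons (nat_lit 0x445400) (nat_lit 0x100000002000000030004000300000000000000000000) (.cons (nat_lit 0x44054) (nat_lit 0x1000000020000000000000003000400030000) (.cons (nat_lit 0x111500) (nat_lit 0x10000000200000003000400030000000000000000) (.cons (nat_lit 0x10115) (nat_lit 0x100000000000000020000000300040003) .nil)))) (.cons (nat_lit 0x10100110011) (nat_lit 0x1000100) (nat_lit 0xc) (nat_lit 0x50400100032) .nil)) (.split (nat_lit 0xc) (nat_lit 0) (.split (nat_lit 0xc) (nat_lit 1) (.split (nat_lit 0xc) (nat_lit 2) (.split (nat_lit 0xc) (nat_lit 3) (.split (nat_lit 0xc) (nat_lit 4) (.split (nat_lit 0xc) (nat_lit 5) (.split (nat_lit 0xc) (nat_lit 6) (.split (nat_lit 0xc) (nat_lit 7) (.split (nat_lit 0xc) (nat_lit 8) (.split (nat_lit 0xc) (nat_lit 9) t742_37 (.non (nat_lit 1) (nat_lit 5) (nat_lit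 0x1445040) (nat_lit 0x1000100000002000000020001000000000001000000000000))) (.non (nat_lit 1) (nat_lit 5) (nat_lit 0x1110000) (nat_lit 0x1000000010000000100000000000000000000000000000000))) (.non (nat_lit 1) (nat_lit 5) (nat_lit 0x1045040) (nat_lit 0x1000000000001000000020001000000000001000000000000))) (.non (nat_lit 1) (nat_lit 5) (nat_lit 0x1555140) (nat_lit 0x4000200030004000200060005000000010003000000000000))) (.non (nat_lit 1) (nat_lit 6) (nat_lit 0x1110500) (nat_lit 0x1000000010000000100000000000100010000000000000000))) (.non (nat_lit 1) (nat_lit 5) (nat_lit 0x1110100) (nat_lit 0x1000000010000000100000000000000010000000000000000))) (.non (nat_lit 1) (nat_lit 5) (nat_lit 0x1555140) (nat_lit 0x4000200030004000200060003000000010005000000000000))) (.non (nat_lit 1) (nat_lit 5) (nat_lit 0x1555050) (nat_lit 0x3000200020004000100060003000000000005000400000000))) (.non (nat_lit 2) (nat_lit 5) (nat_lit 0x1110105) (nat_lit 0x1000000010000000100000000000000010000000000010001))) (.non (nat_lit 1) (nat_lit 5) (nat_lit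 0x1110101) (nat_lit 0x1000000010000000100000000000000010000000000000001)))) (.non (nat_lit 1) (nat_lit 5) (nat_lit 0x8a040) (nat_lit 0x1000000020001000000000002000000000000))) (.non (nat_lit 1) (nat_lit 5) (nat_lit 0x85040) (nat_lit 0x1000000020001000000000001000000000000))) (.non (nat_lit 1) (nat_lit 5) (nat_lit 0x845040) (nat_lit 0x100000002000000020001000000000001000000000000))) (.non (nat_lit 1) (nat_lit 6) (nat_lit 0x20a01) (nat_lit 0x100000000000100020000000000000002))) (.non (nat_lit 1) (nat_lit 6) (nat_lit 0x20501) (nat_lit 0x100000000000100020000000000000001)))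

noncomputable def t742_39 : Tr := (.ex (nat_lit 9) (.split (nat_lit 9) (nat_lit 7) (.pd (.cons (nat_lit 3) (nat_lit 4) (nat_lit 0x10100000000) (nat_lit 0x87a65500100) (nat_lit 0x1f423f00001b71aea2c28047370000000000f423f54591437a2) .nil) (.split (nat_lit 0xa) (nat_lit 8) (.split (nat_lit 8) (nat_lit 4) (.split (nat_lit 4) (nat_lit 0) (.split (nat_lit 7) (nat_lit 3) t742_32 (.non (nat_lit 1) (nat_lit 5) (nat_lit 0x8a040) (nat_lit 0x1000000020001000000000002000000000000))) (.non (nat_lit 1) (nat_lit 6) (nat_lit 0x20a01) (nat_lit 0x100000000000100020000000000000002))) (.non (nat_lit 1) (nat_lit 6) (nat_lit 0x20501) (nat_lit 0x100000000000100020000000000000001))) (.non (nat_lit 1) (nat_lit 6) (nat_lit 0x210501) (nat_lit 0x10000000200000000000100020000000000000001)))) (.non (nat_lit 1) (nat_lit 5) (nat_lit 0x85040) (nat_lit 0x1000000020001000000000001000000000000))) (.split (nat_lit 0xb) (nat_lit 0) (.split (nat_lit 0xb) (nat_lit 1) (.split (nat_lit 0xb) (nat_lit 2) (.split (nat_lit 0xb) (nat_lit 3) (.split (nat_lit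 0xb) (nat_lit 4) (.split (nat_lit 0xb) (nat_lit 5) (.split (nat_lit 0xb) (nat_lit 6) (.split (nat_lit 0xb) (nat_lit 7) (.split (nat_lit 0xb) (nat_lit 8) (.split (nat_lit 0xb) (nat_lit 0xa) (.st (nat_lit 9) (nat_lit 1) (nat_lit 5) (nat_lit 0x445040) (nat_lit 0x100000002000000020001000000000001000000000000) (nat_lit 1) (nat_lit 1) (.split (nat_lit 0xa) (nat_lit 8) t742_38 (.non (nat_lit 1) (nat_lit 6) (nat_lit 0x210501) (nat_lit 0x10000000200000000000100020000000000000001)))) (.non (nat_lit 1) (nat_lit 5) (nat_lit 0x555150) (nat_lit 0x400030005000200060003000000010004000200000000))) (.non (nat_lit 1) (nat_lit 5) (nat_lit 0x555140) (nat_lit 0x200010002000200020001000000010001000000000000))) (.non (nat_lit 1) (nat_lit 5) (nat_lit 0x444000) (nat_lit 0x100000001000000010000000000000000000000000000))) (.non (nat_lit 1) (nat_lit 5) (nat_lit 0x445000) (nat_lit 0x100000001000000010001000000000000000000000000))) (.non (nat_lit 1) (nat_lit 6) (nat_lit 0x554541) (nat_lit 0x400020003000400020000000500060001000000000003)))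 (.non (nat_lit 1) (nat_lit 5) (nat_lit 0x555150) (nat_lit 0x400010005000200060003000000030004000200000000))) (.non (nat_lit 1) (nat_lit 5) (nat_lit 0x444040) (nat_lit 0x100000001000000010000000000000001000000000000))) (.non (nat_lit 1) (nat_lit 5) (nat_lit 0x444050) (nat_lit 0x100000001000000010000000000000001000100000000))) (.non (nat_lit 2) (nat_lit 6) (nat_lit 0x554505) (nat_lit 0x300020002000400010000000300060000000000040005))) (.non (nat_lit 1) (nat_lit 5) (nat_lit 0x455151) (nat_lit 0x400000005000100060003000000020004000200000003))))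

noncomputable def t742_40 : Tr := (.split (nat_lit 9) (nat_lit 8) (.st (nat_lit 7) (nat_lit 1) (nat_lit 5) (nat_lit 0x45040) (nat_lit 0x1000000020001000000000001000000000000) (nat_lit 1) (nat_lit 1) (.ex (nat_lit 8) (.split (nat_lit 8) (nat_lit 4) (.pd (.cons (nat_lit 0) (nat_lit 7) (nat_lit 0) (nat_lit 0x9405442110) (nat_lit 0xf423ff423f00000f423f5459106711f423fb71ae1f15600000) .nil) t742_30) (.non (nat_lit 1) (nat_lit 6) (nat_lit 0x20501) (nat_lit 0x100000000000100020000000000000001))) (.split (nat_lit 0xa) (nat_lit 0) (.split (nat_lit 0xa) (nat_lit 1) (.split (nat_lit 0xa) (nat_lit 3) (.split (nat_lit 0xa) (nat_lit 4) (.split (nat_lit 0xa) (nat_lit 5) (.split (nat_lit 0xa) (nat_lit 6) (.split (nat_lit 0xa) (nat_lit 7) (.split (nat_lit 0xa) (nat_lit 9) (.split (nat_lit 0xa) (nat_lit 2) (.st (nat_lit 8) (nat_lit 1) (nat_lit 6) (nat_lit 0x110501) (nat_lit 0x10000000200000000000100020000000000000001) (nat_lit 1) (nat_lit 1) t742_39) (.sup (nat_lit 0x500000000000000000000000000000009000a0005) (nat_lit 0x300000007000a000800000001000000000000)))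 (.non (nat_lit 1) (nat_lit 5) (nat_lit 0x155151) (nat_lit 0x40005000300060003000000020004000200000001))) (.non (nat_lit 1) (nat_lit 5) (nat_lit 0x145040) (nat_lit 0x10001000000020001000000000001000000000000))) (.non (nat_lit 1) (nat_lit 5) (nat_lit 0x155151) (nat_lit 0x40003000300060005000000020004000200000001))) (.non (nat_lit 1) (nat_lit 6) (nat_lit 0x110500) (nat_lit 0x10000000100000000000100010000000000000000))) (.non (nat_lit 1) (nat_lit 5) (nat_lit 0x110100) (nat_lit 0x10000000100000000000000010000000000000000))) (.non (nat_lit 1) (nat_lit 5) (nat_lit 0x145050) (nat_lit 0x10001000000020001000000000002000100000000))) (.non (nat_lit 2) (nat_lit 5) (nat_lit 0x110105) (nat_lit 0x10000000100000000000000010000000000010001))) (.non (nat_lit 1) (nat_lit 5) (nat_lit 0x110101) (nat_lit 0x10000000100000000000000010000000000000001))))) (.st (nat_lit 7) (nat_lit 1) (nat_lit 5) (nat_lit 0x45040) (nat_lit 0x1000000020001000000000001000000000000) (nat_lit 1) (nat_lit 1) (.st (nat_lit 8) (nat_lit 1) (nat_lit 5) (nat_lit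 0x55140) (nat_lit 0x2000200020001000000010001000000000000) (nat_lit 1) (nat_lit 1) (.st (nat_lit 9) (nat_lit 1) (nat_lit 5) (nat_lit 0x55040) (nat_lit 0x2000100020001000000000001000000000000) (nat_lit 1) (nat_lit 1) (.split (nat_lit 9) (nat_lit 7) (.split (nat_lit 9) (nat_lit 8) (.split (nat_lit 8) (nat_lit 4) (.split (nat_lit 7) (nat_lit 3) (.split (nat_lit 4) (nat_lit 0) (.leaf (.cons (nat_lit 0x55400) (nat_lit 0x2000100030004000300000000000000000000) (.cons (nat_lit 0x44054) (nat_lit 0x1000000020000000000000003000400030000) (.cons (nat_lit 0x51500) (nat_lit 0x1000200000003000400030000000000000000) (.cons (nat_lit 0x10115) (nat_lit 0x100000000000000020000000300040003) .nil)))) (.cons (nat_lit 0x1111011101) (nat_lit 0x100010) (nat_lit 0xe) (nat_lit 0x4501062307) (.cons (nat_lit 0x1110111011) (nat_lit 0x1000100) (nat_lit 0xe) (nat_lit 0x5460107032) .nil))) (.non (nat_lit 1) (nat_lit 5) (nat_lit 0xaa281) (nat_lit 0x2000200020001000000020001000000000002))) (.non (nat_lit 1) (nat_lit 5) (nat_lit 0x8a040) (nat_lit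 0x1000000020001000000000002000000000000))) (.non (nat_lit 1) (nat_lit 5) (nat_lit 0x55240) (nat_lit 0x2000200020001000000010001000000000000))) (.non (nat_lit 1) (nat_lit 5) (nat_lit 0x9a100) (nat_lit 0x3000400020001000000020000000000000000))) (.non (nat_lit 1) (nat_lit 5) (nat_lit 0x5a100) (nat_lit 0x3000200020001000000010000000000000000)))))))

noncomputable def t742_41 : Tr := (.ex (nat_lit 5) (.ex (nat_lit 6) (.ex (nat_lit 7) t742_27 (.split (nat_lit 9) (nat_lit 0) (.split (nat_lit 9) (nat_lit 2) (.split (nat_lit 9) (nat_lit 3) (.split (nat_lit 9) (nat_lit 4) (.split (nat_lit 9) (nat_lit 6) (.split (nat_lit 9) (nat_lit 1) (.split (nat_lit 9) (nat_lit 5) t742_40 (.split (nat_lit 9) (nat_lit 8) (.sup (nat_lit 0x5000a00090002) (nat_lit 0x5000000000008000a00020000000000000000)) (.non (nat_lit 1) (nat_lit 6) (nat_lit 0x50500) (nat_lit 0x1000100000000000100010000000000000000)))) (.split (nat_lit 9) (nat_lit 5) (.split (nat_lit 9) (nat_lit 8) (.sup (nat_lit 0x5000000000000000000000005000a00090000) (nat_lit 0x300000008000a00070000000000000001))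 (.non (nat_lit 2) (nat_lit 5) (nat_lit 0x55044) (nat_lit 0x2000100020001000000000001000000010000))) (.star (nat_lit 9) (nat_lit 1) (nat_lit 5)))) (.non (nat_lit 1) (nat_lit 5) (nat_lit 0x45000) (nat_lit 0x1000000010001000000000000000000000000))) (.non (nat_lit 1) (nat_lit 5) (nat_lit 0x55141) (nat_lit 0x2000100020001000000020001000000000001))) (.non (nat_lit 1) (nat_lit 5) (nat_lit 0x44040) (nat_lit 0x1000000010000000000000001000000000000))) (.non (nat_lit 1) (nat_lit 5) (nat_lit 0x44050) (nat_lit 0x1000000010000000000000001000100000000))) (.non (nat_lit 2) (nat_lit 5) (nat_lit 0x45145) (nat_lit 0x2000000020001000000010001000000010002)))) (.split (nat_lit 9) (nat_lit 0) (.split (nat_lit 9) (nat_lit 1) (.split (nat_lit 9) (nat_lit 2) (.split (nat_lit 9) (nat_lit 3) (.split (nat_lit 9) (nat_lit 4) (.split (nat_lit 9) (nat_lit 7) (.split (nat_lit 9) (nat_lit 5) (.split (nat_lit 9) (nat_lit 8) (.sup (nat_lit 0x20009000a0005) (nat_lit 0x500000002000a000800000000000000000000)) (.sup (nat_lit 0x20009000a0005) (nat_lit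 0x500000002000a000800000000000000000000))) (.split (nat_lit 9) (nat_lit 8) (.unj (nat_lit 0x41400) (nat_lit 0x1000000000001000100000000000000000000) (nat_lit 0x55) (nat_lit 0x1000200020001)) (.non (nat_lit 1) (nat_lit 6) (nat_lit 0x50500) (nat_lit 0x1000100000000000100010000000000000000)))) (.non (nat_lit 1) (nat_lit 5) (nat_lit 0x45000) (nat_lit 0x1000000010001000000000000000000000000))) (.non (nat_lit 1) (nat_lit 6) (nat_lit 0x50501) (nat_lit 0x1000100000000000100020000000000000001))) (.non (nat_lit 1) (nat_lit 5) (nat_lit 0x45040) (nat_lit 0x1000000010001000000000001000000000000))) (.star (nat_lit 9) (nat_lit 2) (nat_lit 6))) (.star (nat_lit 9) (nat_lit 1) (nat_lit 6))) (.non (nat_lit 2) (nat_lit 6) (nat_lit 0x50505) (nat_lit 0x1000100000000000100020000000000010002)))) (.split (nat_lit 9) (nat_lit 0) (.split (nat_lit 9) (nat_lit 1) (.split (nat_lit 9) (nat_lit 2) (.split (nat_lit 9) (nat_lit 3) (.split (nat_lit 9) (nat_lit 4) (.split (nat_lit 9) (nat_lit 8) (.split (nat_lit 9) (nat_lit 6) (.split (nat_lit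 9) (nat_lit 7) (.sup (nat_lit 0x5000a00090002) (nat_lit 0x5000000000008000a00020000000000000000)) (.sup (nat_lit 0x5000a00090002) (nat_lit 0x5000000000008000a00020000000000000000))) (.split (nat_lit 9) (nat_lit 7) (.unj (nat_lit 0x41400) (nat_lit 0x1000000000001000100000000000000000000) (nat_lit 0x55) (nat_lit 0x1000200020001)) (.non (nat_lit 1) (nat_lit 5) (nat_lit 0x45000) (nat_lit 0x1000000010001000000000000000000000000)))) (.non (nat_lit 1) (nat_lit 6) (nat_lit 0x50500) (nat_lit 0x1000100000000000100010000000000000000))) (.non (nat_lit 1) (nat_lit 6) (nat_lit 0x40500) (nat_lit 0x1000000000000000100010000000000000000))) (.non (nat_lit 1) (nat_lit 6) (nat_lit 0x54551) (nat_lit 0x2000100010000000200020002000100000001))) (.star (nat_lit 9) (nat_lit 2) (nat_lit 5))) (.star (nat_lit 9) (nat_lit 1) (nat_lit 5))) (.non (nat_lit 1) (nat_lit 6) (nat_lit 0x40501) (nat_lit 0x1000000000000000100010000000000000001))))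

noncomputable def t742_42 : Tr := (.ex (nat_lit 7) (.split (nat_lit 7) (nat_lit 3) (.pd (.cons (nat_lit 2) (nat_lit 4) (nat_lit 0) (nat_lit 0x837603000) (nat_lit 0xf423f437a254591f423f00000174ea00000f423fb71ae) .nil) (.split (nat_lit 8) (nat_lit 2) (.split (nat_lit 8) (nat_lit 4) (.split (nat_lit 4) (nat_lit 0) (.leaf (.cons (nat_lit 0x5450) (nat_lit 0x30004000300000002000100000000) (.cons (nat_lit 0x10054) (nat_lit 0x100000000000000000001000200020000) (.cons (nat_lit 0x11510) (nat_lit 0x200000003000400030000000100000000) (.cons (nat_lit 0x11501) (nat_lit 0x100000002000200020000000000000001) (.cons (nat_lit 0x10015) (nat_lit 0x100000000000000000000000200020001) .nil))))) (.cons (nat_lit 0x111011101) (nat_lit 0x100010) (nat_lit 5) (nat_lit 0x256014300) .nil)) (.non (nat_lit 1) (nat_lit 6) (nat_lit 0x20a01) (nat_lit 0x100000000000100020000000000000002))) (.non (nat_lit 1) (nat_lit 5) (nat_lit 0x201a1) (nat_lit 0x300000000000000040001000200000002))) (.non (nat_lit 1) (nat_lit 5) (nat_lit 0x24250) (nat_lit 0x200010000000000010002000300000000))))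 (.non (nat_lit 1) (nat_lit 5) (nat_lit 0x1a050) (nat_lit 0x100020001000000000003000200000000))) (.split (nat_lit 9) (nat_lit 0) (.split (nat_lit 9) (nat_lit 2) (.split (nat_lit 9) (nat_lit 3) (.split (nat_lit 9) (nat_lit 4) (.split (nat_lit 9) (nat_lit 5) (.split (nat_lit 9) (nat_lit 6) (.split (nat_lit 9) (nat_lit 8) (.split (nat_lit 9) (nat_lit 1) (.sup (nat_lit 0x5000000000000000000000009000a0005) (nat_lit 0x300000007000a000800000001000000000000)) (.st (nat_lit 7) (nat_lit 1) (nat_lit 5) (nat_lit 0x45040) (nat_lit 0x1000000020001000000000001000000000000) (nat_lit 1) (nat_lit 1) (.st (nat_lit 9) (nat_lit 1) (nat_lit 5) (nat_lit 0x55151) (nat_lit 0x4000300060003000000020005000400000001) (nat_lit 1) (nat_lit 2) (.split (nat_lit 9) (nat_lit 7) (.split (nat_lit 8) (nat_lit 2) (.split (nat_lit 8) (nat_lit 4) (.split (nat_lit 7) (nat_lit 3) (.split (nat_lit 4) (nat_lit 0) (.leaf (.cons (nat_lit 0x45440) (nat_lit 0x1000000020002000200000001000000000000) (.cons (nat_lit 0x50014) (nat_lit 0x1000100000000000000000000000200020000)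 (.cons (nat_lit 0x11510) (nat_lit 0x200000003000400030000000100000000) (.cons (nat_lit 0x11501) (nat_lit 0x100000002000200020000000000000001) .nil)))) (.cons (nat_lit 0x1111011101) (nat_lit 0x100010) (nat_lit 0xb) (nat_lit 0x2501063407) (.cons (nat_lit 0x1110111101) (nat_lit 0x1000010) (nat_lit 0xb) (nat_lit 0x7360205401) .nil))) (.non (nat_lit 1) (nat_lit 5) (nat_lit 0xaa2a1) (nat_lit 0x1000200020001000000020002000200000002))) (.non (nat_lit 1) (nat_lit 5) (nat_lit 0x8a040) (nat_lit 0x1000000020001000000000002000000000000))) (.non (nat_lit 1) (nat_lit 5) (nat_lit 0x55250) (nat_lit 0x1000200020001000000010002000200000000))) (.non (nat_lit 1) (nat_lit 5) (nat_lit 0x65050) (nat_lit 0x1000100020001000000000002000200000000))) (.non (nat_lit 1) (nat_lit 5) (nat_lit 0x85040) (nat_lit 0x1000000020001000000000001000000000000)))))) (.non (nat_lit 1) (nat_lit 5) (nat_lit 0x54050) (nat_lit 0x1000100010000000000000001000100000000))) (.non (nat_lit 1) (nat_lit 5) (nat_lit 0x45000) (nat_lit 0x1000000010001000000000000000000000000)))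 (.non (nat_lit 1) (nat_lit 6) (nat_lit 0x54550) (nat_lit 0x1000100010000000100010001000100000000))) (.non (nat_lit 1) (nat_lit 5) (nat_lit 0x54150) (nat_lit 0x1000100010000000000010001000100000000))) (.non (nat_lit 1) (nat_lit 5) (nat_lit 0x44040) (nat_lit 0x1000000010000000000000001000000000000))) (.non (nat_lit 1) (nat_lit 5) (nat_lit 0x44050) (nat_lit 0x1000000010000000000000001000100000000))) (.non (nat_lit 1) (nat_lit 5) (nat_lit 0x54151) (nat_lit 0x1000100010000000000010001000100000001))))

noncomputable def t742_43 : Tr := (.st (nat_lit 4) (nat_lit 1) (nat_lit 6) (nat_lit 0x10501) (nat_lit 0x100000000000100020000000000000001) (nat_lit 1) (nat_lit 1) (.st (nat_lit 8) (nat_lit 1) (nat_lit 6) (nat_lit 0x10511) (nat_lit 0x200000000000100020000000100000001) (nat_lit 1) (nat_lit 1) (.ex (nat_lit 5) (.ex (nat_lit 6) t742_42 (.split (nat_lit 9) (nat_lit 0) (.split (nat_lit 9) (nat_lit 1) (.split (nat_lit 9) (nat_lit 2) (.split (nat_lit 9) (nat_lit 3) (.split (nat_lit 9) (nat_lit 4) (.split (nat_lit 9) (nat_lit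 7) (.split (nat_lit 9) (nat_lit 8) (.split (nat_lit 9) (nat_lit 5) (.unj (nat_lit 0x10015) (nat_lit 0x100000000000000000000000200020001) (nat_lit 0x45400) (nat_lit 0x1000000010002000200000000000000000000)) (.unj (nat_lit 0x41400) (nat_lit 0x1000000000001000100000000000000000000) (nat_lit 0x55) (nat_lit 0x1000200020001))) (.non (nat_lit 1) (nat_lit 5) (nat_lit 0x55050) (nat_lit 0x1000100010001000000000001000100000000))) (.non (nat_lit 1) (nat_lit 5) (nat_lit 0x45000) (nat_lit 0x1000000010001000000000000000000000000))) (.non (nat_lit 1) (nat_lit 5) (nat_lit 0x55150) (nat_lit 0x1000100010001000000010001000100000000))) (.non (nat_lit 1) (nat_lit 5) (nat_lit 0x45040) (nat_lit 0x1000000010001000000000001000000000000))) (.star (nat_lit 9) (nat_lit 2) (nat_lit 6))) (.star (nat_lit 9) (nat_lit 1) (nat_lit 6))) (.non (nat_lit 1) (nat_lit 5) (nat_lit 0x55151) (nat_lit 0x1000100010001000000010001000100000001)))) (.split (nat_lit 9) (nat_lit 0) (.split (nat_lit 9) (nat_lit 1) (.split (nat_lit 9) (nat_lit 2) (.split (nat_lit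 9) (nat_lit 3) (.split (nat_lit 9) (nat_lit 4) (.split (nat_lit 9) (nat_lit 7) (.split (nat_lit 9) (nat_lit 8) (.split (nat_lit 9) (nat_lit 6) (.unj (nat_lit 0x10015) (nat_lit 0x100000000000000000000000200020001) (nat_lit 0x45400) (nat_lit 0x1000000010002000200000000000000000000)) (.unj (nat_lit 0x41400) (nat_lit 0x1000000000001000100000000000000000000) (nat_lit 0x55) (nat_lit 0x1000200020001))) (.non (nat_lit 1) (nat_lit 6) (nat_lit 0x50500) (nat_lit 0x1000100000000000100010000000000000000))) (.non (nat_lit 1) (nat_lit 6) (nat_lit 0x54550) (nat_lit 0x1000100010000000100010001000100000000))) (.non (nat_lit 1) (nat_lit 6) (nat_lit 0x40500) (nat_lit 0x1000000000000000100010000000000000000))) (.non (nat_lit 1) (nat_lit 6) (nat_lit 0x50550) (nat_lit 0x1000100000000000100010001000100000000))) (.star (nat_lit 9) (nat_lit 2) (nat_lit 5))) (.star (nat_lit 9) (nat_lit 1) (nat_lit 5))) (.non (nat_lit 1) (nat_lit 6) (nat_lit 0x40501) (nat_lit 0x1000000000000000100010000000000000001))))))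

noncomputable def t742_44 : Tr := (.split (nat_lit 8) (nat_lit 2) (.split (nat_lit 8) (nat_lit 6) (.split (nat_lit 8) (nat_lit 7) (.st (nat_lit 4) (nat_lit 1) (nat_lit 6) (nat_lit 0x10501) (nat_lit 0x100000000000100020000000000000001) (nat_lit 1) (nat_lit 1) t742_41) (.st (nat_lit 4) (nat_lit 1) (nat_lit 5) (nat_lit 0x15141) (nat_lit 0x200020001000000020001000000000001) (nat_lit 1) (nat_lit 1) (.st (nat_lit 5) (nat_lit 2) (nat_lit 6) (nat_lit 0x14505) (nat_lit 0x200010000000200030000000000010002) (nat_lit 1) (nat_lit 1) (.st (nat_lit 6) (nat_lit 1) (nat_lit 5) (nat_lit 0x15150) (nat_lit 0x200030002000000010002000100000000) (nat_lit 1) (nat_lit 1) (.st (nat_lit 7) (nat_lit 1) (nat_lit 5) (nat_lit 0x15040) (nat_lit 0x100020001000000000001000000000000) (nat_lit 1) (nat_lit 1) (.st (nat_lit 8) (nat_lit 1) (nat_lit 5) (nat_lit 0x15140) (nat_lit 0x200020001000000010001000000000000) (nat_lit 1) (nat_lit 1) (.split (nat_lit 8) (nat_lit 4) (.split (nat_lit 8) (nat_lit 7) (.pd (.cons (nat_lit 0) (nat_lit 7) (nat_lit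 0) (nat_lit 0x405442110) (nat_lit 0xf423f00000f423f5459106711f423fb71ae1f15600000) (.cons (nat_lit 3) (nat_lit 4) (nat_lit 0) (nat_lit 0x765500100) (nat_lit 0xf423fb71aea2c28047370000000000f423f54591437a2) .nil)) (.split (nat_lit 7) (nat_lit 3) (.split (nat_lit 4) (nat_lit 0) (.leaf (.cons (nat_lit 0x15440) (nat_lit 0x100020002000200000001000000000000) (.cons (nat_lit 0x14054) (nat_lit 0x100020000000000000003000400030000) (.cons (nat_lit 0x11501) (nat_lit 0x100000002000200020000000000000001) (.cons (nat_lit 0x10115) (nat_lit 0x100000000000000020000000300040003) .nil)))) (.cons (nat_lit 0x111011101) (nat_lit 0x100010) (nat_lit 0xd) (nat_lit 0x401052306) (.cons (nat_lit 0x110111011) (nat_lit 0x1000100) (nat_lit 0xd) (nat_lit 0x450106032) .nil))) (.non (nat_lit 1) (nat_lit 5) (nat_lit 0x2a281) (nat_lit 0x200020001000000020001000000000002))) (.non (nat_lit 1) (nat_lit 5) (nat_lit 0x2a040) (nat_lit 0x100020001000000000002000000000000)))) (.non (nat_lit 1) (nat_lit 5) (nat_lit 0x25040) (nat_lit 0x100020001000000000001000000000000)))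 (.non (nat_lit 1) (nat_lit 5) (nat_lit 0x15240) (nat_lit 0x200020001000000010001000000000000))))))))) (.split (nat_lit 8) (nat_lit 7) (.sup (nat_lit 0x3000500050001) (nat_lit 0x300000005000400010000000000000000)) (.non (nat_lit 1) (nat_lit 5) (nat_lit 0x15000) (nat_lit 0x100010001000000000000000000000000)))) (.split (nat_lit 8) (nat_lit 6) (.split (nat_lit 8) (nat_lit 7) t742_43 (.non (nat_lit 1) (nat_lit 5) (nat_lit 0x14050) (nat_lit 0x100010000000000000001000100000000))) (.star (nat_lit 8) (nat_lit 2) (nat_lit 6))))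

noncomputable def t742_45 : Tr := (.ex (nat_lit 0xa) (.leaf (.cons (nat_lit 0x15440) (nat_lit 0x100030004000300000002000000000000) (.cons (nat_lit 0x50054) (nat_lit 0x1000200000000000000000003000400030000) (.cons (nat_lit 0x1505) (nat_lit 0x3000400030000000000010002) (.cons (nat_lit 0x515) (nat_lit 0x100020000000300040003) .nil)))) (.cons (nat_lit 0x11111001100) (nat_lit 0x100010) (nat_lit 0xd) (nat_lit 0x65423000100) (.cons (nat_lit 0x110011) (nat_lit 0x1000100) (nat_lit 2) (nat_lit 0x320001) .nil))) (.split (nat_lit 0xb) (nat_lit 0) (.split (nat_lit 0xb) (nat_lit 1) (.split (nat_lit 0xb) (nat_lit 2) (.split (nat_lit 0xb) (nat_lit 3) (.split (nat_lit 0xb) (nat_lit 4) (.split (nat_lit 0xb) (nat_lit 5) (.split (nat_lit 0xb) (nat_lit 6) (.split (nat_lit 0xb) (nat_lit 7) (.split (nat_lit 0xb) (nat_lit 8) (.split (nat_lit 0xb) (nat_lit 9) (.st (nat_lit 0xa) (nat_lit 1) (nat_lit 5) (nat_lit 0x554050) (nat_lit 0x100020002000200010000000000000002000100000000) (nat_lit 1) (nat_lit 1) (.st (nat_lit 0xb) (nat_lit 1)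 (nat_lit 5) (nat_lit 0x555050) (nat_lit 0x200030004000500040002000000000006000300000000) (nat_lit 1) (nat_lit 1) (.split (nat_lit 0xb) (nat_lit 0xa) (.leaf (.cons (nat_lit 0x15440) (nat_lit 0x100030004000300000002000000000000) (.cons (nat_lit 0x50054) (nat_lit 0x1000200000000000000000003000400030000) (.cons (nat_lit 0x1505) (nat_lit 0x3000400030000000000010002) (.cons (nat_lit 0x515) (nat_lit 0x100020000000300040003) .nil)))) (.cons (nat_lit 0x111111001100) (nat_lit 0x100010) (nat_lit 0xe) (nat_lit 0x765423000100) (.cons (nat_lit 0x110011) (nat_lit 0x1000100) (nat_lit 2) (nat_lit 0x320001) .nil))) (.non (nat_lit 1) (nat_lit 5) (nat_lit 0x954050) (nat_lit 0x100020002000200010000000000000002000100000000))))) (.non (nat_lit 1) (nat_lit 5) (nat_lit 0x540000) (nat_lit 0x100010001000000000000000000000000000000000000))) (.non (nat_lit 1) (nat_lit 5) (nat_lit 0x550000) (nat_lit 0x100010001000100000000000000000000000000000000))) (.non (nat_lit 1) (nat_lit 5) (nat_lit 0x554040) (nat_lit 0x100010001000100010000000000000001000000000000)))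 (.non (nat_lit 1) (nat_lit 5) (nat_lit 0x555040) (nat_lit 0x100010001000100010001000000000001000000000000))) (.non (nat_lit 1) (nat_lit 7) (nat_lit 0x541400) (nat_lit 0x300020001000000000003000400000000000000000000))) (.non (nat_lit 1) (nat_lit 5) (nat_lit 0x555150) (nat_lit 0x200030004000500040002000000010006000300000000))) (.non (nat_lit 1) (nat_lit 5) (nat_lit 0x550040) (nat_lit 0x100010001000100000000000000000001000000000000))) (.non (nat_lit 1) (nat_lit 5) (nat_lit 0x550050) (nat_lit 0x100010001000100000000000000000001000100000000))) (.non (nat_lit 3) (nat_lit 5) (nat_lit 0x540014) (nat_lit 0x300020001000000000000000000000000000300040000))) (.non (nat_lit 1) (nat_lit 5) (nat_lit 0x555051) (nat_lit 0x200030004000500040002000000000006000300000001))))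

noncomputable def t742_46 : Tr := (.split (nat_lit 9) (nat_lit 6) (.split (nat_lit 9) (nat_lit 7) (.st (nat_lit 8) (nat_lit 1) (nat_lit 5) (nat_lit 0x54050) (nat_lit 0x1000200010000000000000002000100000000) (nat_lit 1) (nat_lit 1) (.split (nat_lit 9) (nat_lit 8) (.split (nat_lit 7) (nat_lit 3) (.ex (nat_lit 9) (.leaf (.cons (nat_lit 0x15440) (nat_lit 0x100030004000300000002000000000000) (.cons (nat_lit 0x50054) (nat_lit 0x1000200000000000000000003000400030000) (.cons (nat_lit 0x1505) (nat_lit 0x3000400030000000000010002) (.cons (nat_lit 0x515) (nat_lit 0x100020000000300040003) .nil)))) (.cons (nat_lit 0x1111001100) (nat_lit 0x100010) (nat_lit 0xc) (nat_lit 0x5423000100) .nil)) (.split (nat_lit 0xa) (nat_lit 0) (.split (nat_lit 0xa) (nat_lit 1) (.split (nat_lit 0xa) (nat_lit 2) (.split (nat_lit 0xa) (nat_lit 3) (.split (nat_lit 0xa) (nat_lit 4) (.split (nat_lit 0xa) (nat_lit 5) (.split (nat_lit 0xa) (nat_lit 6) (.split (nat_lit 0xa) (nat_lit 7) (.split (nat_lit 0xa) (nat_lit 8) (.st (nat_lit 9) (nat_lit 1)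 (nat_lit 5) (nat_lit 0x154050) (nat_lit 0x10002000200010000000000000002000100000000) (nat_lit 1) (nat_lit 1) (.split (nat_lit 0xa) (nat_lit 9) t742_45 (.non (nat_lit 1) (nat_lit 5) (nat_lit 0x254050) (nat_lit 0x10002000200010000000000000002000100000000)))) (.non (nat_lit 1) (nat_lit 5) (nat_lit 0x150000) (nat_lit 0x10001000100000000000000000000000000000000))) (.non (nat_lit 1) (nat_lit 5) (nat_lit 0x154040) (nat_lit 0x10001000100010000000000000001000000000000))) (.non (nat_lit 1) (nat_lit 5) (nat_lit 0x155040) (nat_lit 0x10001000100010001000000000001000000000000))) (.non (nat_lit 1) (nat_lit 7) (nat_lit 0x151400) (nat_lit 0x30002000100000003000400000000000000000000))) (.non (nat_lit 1) (nat_lit 5) (nat_lit 0x155151) (nat_lit 0x30004000500040002000000020006000300000001))) (.non (nat_lit 1) (nat_lit 5) (nat_lit 0x150040) (nat_lit 0x10001000100000000000000000001000000000000))) (.non (nat_lit 1) (nat_lit 5) (nat_lit 0x150050) (nat_lit 0x10001000100000000000000000001000100000000))) (.non (nat_lit 3) (nat_lit 5)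 (nat_lit 0x150014) (nat_lit 0x30002000100000000000000000000000300040000))) (.non (nat_lit 1) (nat_lit 5) (nat_lit 0x155151) (nat_lit 0x30004000500040002000000010006000300000002)))) (.non (nat_lit 1) (nat_lit 5) (nat_lit 0x5a040) (nat_lit 0x1000200020001000000000003000000000000))) (.non (nat_lit 1) (nat_lit 5) (nat_lit 0x94050) (nat_lit 0x1000200010000000000000002000100000000)))) (.non (nat_lit 1) (nat_lit 5) (nat_lit 0x54040) (nat_lit 0x1000100010000000000000001000000000000))) (.non (nat_lit 1) (nat_lit 5) (nat_lit 0x55040) (nat_lit 0x1000100010001000000000001000000000000)))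

noncomputable def t742_47 : Tr := (.ex (nat_lit 6) (.split (nat_lit 8) (nat_lit 3) (.pd (.cons (nat_lit 1) (nat_lit 7) (nat_lit 0) (nat_lit 0x305402200) (nat_lit 0xf423f00000f423f54591437a2b71aea2c2800000174ea) (.cons (nat_lit 3) (nat_lit 4) (nat_lit 0) (nat_lit 0x865500100) (nat_lit 0xf423ff423fb71ae1f1560000000000f423f54591437a2) .nil)) (.ex (nat_lit 8) (.pd (.cons (nat_lit 0) (nat_lit 7) (nat_lit 0) (nat_lit 0x305442110) (nat_lit 0xf423f00000f423f54591437a2b71aea2c280473700000) .nil) (.split (nat_lit 7) (nat_lit 3) (.leaf (.cons (nat_lit 0x15440) (nat_lit 0x100030004000300000002000000000000) (.cons (nat_lit 0x14054) (nat_lit 0x100010000000000000002000200020000) (.cons (nat_lit 0x1505) (nat_lit 0x3000400030000000000010002) (.cons (nat_lit 0x515) (nat_lit 0x100020000000300040003) .nil)))) (.cons (nat_lit 0x111001100) (nat_lit 0x100010) (nat_lit 8) (nat_lit 0x234000100) (.cons (nat_lit 0x110011) (nat_lit 0x1000100) (nat_lit 2) (nat_lit 0x320001) .nil))) (.non (nat_lit 1) (nat_lit 5) (nat_lit 0x18050) (nat_lit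 0x100010000000000000002000100000000)))) (.split (nat_lit 9) (nat_lit 0) (.split (nat_lit 9) (nat_lit 1) (.split (nat_lit 9) (nat_lit 2) (.split (nat_lit 9) (nat_lit 3) (.split (nat_lit 9) (nat_lit 4) (.split (nat_lit 9) (nat_lit 5) t742_46 (.non (nat_lit 1) (nat_lit 7) (nat_lit 0x41500) (nat_lit 0x1000000000002000200010000000000000000))) (.non (nat_lit 1) (nat_lit 6) (nat_lit 0x54551) (nat_lit 0x2000200010000000100020002000100000001))) (.non (nat_lit 1) (nat_lit 5) (nat_lit 0x50040) (nat_lit 0x1000100000000000000000001000000000000))) (.non (nat_lit 1) (nat_lit 5) (nat_lit 0x50050) (nat_lit 0x1000100000000000000000001000100000000))) (.non (nat_lit 3) (nat_lit 5) (nat_lit 0x40015) (nat_lit 0x1000000000000000000000000000200020001))) (.non (nat_lit 3) (nat_lit 5) (nat_lit 0x50015) (nat_lit 0x2000100000000000000000000000300040003))))) (.non (nat_lit 1) (nat_lit 5) (nat_lit 0x24050) (nat_lit 0x100010000000000000002000100000000))) (.split (nat_lit 9) (nat_lit 0) (.split (nat_lit 9) (nat_lit 1) (.split (nat_lit 9)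 (nat_lit 2) (.split (nat_lit 9) (nat_lit 3) (.split (nat_lit 9) (nat_lit 4) (.split (nat_lit 9) (nat_lit 7) (.split (nat_lit 9) (nat_lit 8) (.split (nat_lit 9) (nat_lit 5) (.sup (nat_lit 0x5000a00090002) (nat_lit 0x500000000000a000900020000000000000000)) (.unj (nat_lit 0x41400) (nat_lit 0x1000000000001000100000000000000000000) (nat_lit 0x55) (nat_lit 0x1000200020001))) (.non (nat_lit 1) (nat_lit 5) (nat_lit 0x55040) (nat_lit 0x1000100010001000000000001000000000000))) (.non (nat_lit 1) (nat_lit 5) (nat_lit 0x45000) (nat_lit 0x1000000010001000000000000000000000000))) (.non (nat_lit 3) (nat_lit 5) (nat_lit 0x40115) (nat_lit 0x1000000000000000000020000000300040003))) (.non (nat_lit 1) (nat_lit 5) (nat_lit 0x45040) (nat_lit 0x1000000010001000000000001000000000000))) (.star (nat_lit 9) (nat_lit 2) (nat_lit 6))) (.star (nat_lit 9) (nat_lit 1) (nat_lit 6))) (.non (nat_lit 3) (nat_lit 5) (nat_lit 0x41015) (nat_lit 0x2000000000001000000000000000300040003))))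

noncomputable def t742_48 : Tr := (.ex (nat_lit 0xa) (.leaf (.cons (nat_lit 0x15440) (nat_lit 0x100030004000300000002000000000000) (.cons (nat_lit 0x50054) (nat_lit 0x1000200000000000000000003000400030000) (.cons (nat_lit 0x1501) (nat_lit 0x1000100010000000000000001) (.cons (nat_lit 0x115) (nat_lit 0x10000000100010001) .nil)))) (.cons (nat_lit 0x11111001100) (nat_lit 0x100010) (nat_lit 0xd) (nat_lit 0x65423000100) (.cons (nat_lit 0x110011) (nat_lit 0x1000100) (nat_lit 0xf) (nat_lit 0x320001) .nil))) (.split (nat_lit 0xb) (nat_lit 0) (.split (nat_lit 0xb) (nat_lit 1) (.split (nat_lit 0xb) (nat_lit 2) (.split (nat_lit 0xb) (nat_lit 3) (.split (nat_lit 0xb) (nat_lit 4) (.split (nat_lit 0xb) (nat_lit 5) (.split (nat_lit 0xb) (nat_lit 6) (.split (nat_lit 0xb) (nat_lit 7) (.split (nat_lit 0xb) (nat_lit 8) (.split (nat_lit 0xb) (nat_lit 9) (.st (nat_lit 0xa) (nat_lit 1) (nat_lit 5) (nat_lit 0x554050) (nat_lit 0x100020002000200010000000000000002000100000000) (nat_lit 1) (nat_lit 1) (.st (nat_lit 0xb) (nat_lit 1) (nat_lit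 5) (nat_lit 0x555050) (nat_lit 0x200030004000500040002000000000006000300000000) (nat_lit 1) (nat_lit 1) (.split (nat_lit 0xb) (nat_lit 0xa) (.leaf (.cons (nat_lit 0x15440) (nat_lit 0x100030004000300000002000000000000) (.cons (nat_lit 0x50054) (nat_lit 0x1000200000000000000000003000400030000) (.cons (nat_lit 0x1501) (nat_lit 0x1000100010000000000000001) (.cons (nat_lit 0x115) (nat_lit 0x10000000100010001) .nil)))) (.cons (nat_lit 0x111111001100) (nat_lit 0x100010) (nat_lit 0xe) (nat_lit 0x765423000100) (.cons (nat_lit 0x110011) (nat_lit 0x1000100) (nat_lit 0xf) (nat_lit 0x320001) .nil))) (.non (nat_lit 1) (nat_lit 5) (nat_lit 0x954050) (nat_lit 0x100020002000200010000000000000002000100000000))))) (.non (nat_lit 1) (nat_lit 5) (nat_lit 0x540000) (nat_lit 0x100010001000000000000000000000000000000000000))) (.non (nat_lit 1) (nat_lit 5) (nat_lit 0x550000) (nat_lit 0x100010001000100000000000000000000000000000000))) (.non (nat_lit 1) (nat_lit 5) (nat_lit 0x554040) (nat_lit 0x100010001000100010000000000000001000000000000)))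 (.non (nat_lit 1) (nat_lit 5) (nat_lit 0x555040) (nat_lit 0x100010001000100010001000000000001000000000000))) (.non (nat_lit 1) (nat_lit 6) (nat_lit 0xaa8aa1) (nat_lit 0x200020002000200010000000200020002000100000002))) (.non (nat_lit 1) (nat_lit 5) (nat_lit 0x555150) (nat_lit 0x200030004000500040002000000010006000300000000))) (.non (nat_lit 1) (nat_lit 5) (nat_lit 0x550040) (nat_lit 0x100010001000100000000000000000001000000000000))) (.non (nat_lit 1) (nat_lit 5) (nat_lit 0x550050) (nat_lit 0x100010001000100000000000000000001000100000000))) (.non (nat_lit 2) (nat_lit 6) (nat_lit 0x400a05) (nat_lit 0x100000000000000000000000100020000000000020003))) (.non (nat_lit 1) (nat_lit 5) (nat_lit 0x555051) (nat_lit 0x200030004000500040002000000000006000300000001))))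

noncomputable def t742_49 : Tr := (.st (nat_lit 8) (nat_lit 1) (nat_lit 5) (nat_lit 0x54050) (nat_lit 0x1000200010000000000000002000100000000) (nat_lit 1) (nat_lit 1) (.split (nat_lit 4) (nat_lit 0) (.split (nat_lit 9) (nat_lit 8) (.split (nat_lit 8) (nat_lit 3) (.split (nat_lit 7) (nat_lit 3) (.ex (nat_lit 9) (.leaf (.cons (nat_lit 0x15440) (nat_lit 0x100030004000300000002000000000000) (.cons (nat_lit 0x50054) (nat_lit 0x1000200000000000000000003000400030000) (.cons (nat_lit 0x1501) (nat_lit 0x1000100010000000000000001) (.cons (nat_lit 0x115) (nat_lit 0x10000000100010001) .nil)))) (.cons (nat_lit 0x1111001100) (nat_lit 0x100010) (nat_lit 0xc) (nat_lit 0x5423000100) .nil)) (.split (nat_lit 0xa) (nat_lit 0) (.split (nat_lit 0xa) (nat_lit 1) (.split (nat_lit 0xa) (nat_lit 2) (.split (nat_lit 0xa) (nat_lit 3) (.split (nat_lit 0xa) (nat_lit 4) (.split (nat_lit 0xa) (nat_lit 5) (.split (nat_lit 0xa) (nat_lit 6) (.split (nat_lit 0xa) (nat_lit 7) (.split (nat_lit 0xa) (nat_lit 8) (.st (nat_lit 9) (nat_lit 1) (nat_lit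 5) (nat_lit 0x154050) (nat_lit 0x10002000200010000000000000002000100000000) (nat_lit 1) (nat_lit 1) (.split (nat_lit 0xa) (nat_lit 9) t742_48 (.non (nat_lit 1) (nat_lit 5) (nat_lit 0x254050) (nat_lit 0x10002000200010000000000000002000100000000)))) (.non (nat_lit 1) (nat_lit 5) (nat_lit 0x150000) (nat_lit 0x10001000100000000000000000000000000000000))) (.non (nat_lit 1) (nat_lit 5) (nat_lit 0x154040) (nat_lit 0x10001000100010000000000000001000000000000))) (.non (nat_lit 1) (nat_lit 5) (nat_lit 0x155040) (nat_lit 0x10001000100010001000000000001000000000000))) (.non (nat_lit 1) (nat_lit 6) (nat_lit 0x2a8aa1) (nat_lit 0x20002000200010000000200020002000100000002))) (.non (nat_lit 1) (nat_lit 5) (nat_lit 0x2a82a1) (nat_lit 0x20002000200010000000000020002000100000002))) (.non (nat_lit 1) (nat_lit 5) (nat_lit 0x150040) (nat_lit 0x10001000100000000000000000001000000000000))) (.non (nat_lit 1) (nat_lit 5) (nat_lit 0x150050) (nat_lit 0x10001000100000000000000000001000100000000))) (.non (nat_lit 2) (nat_lit 6) (nat_lit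 0x100a05) (nat_lit 0x10000000000000000000100020000000000020003))) (.non (nat_lit 1) (nat_lit 5) (nat_lit 0x154251) (nat_lit 0x20002000200010000000000010002000100000002)))) (.non (nat_lit 1) (nat_lit 5) (nat_lit 0x5a040) (nat_lit 0x1000200020001000000000003000000000000))) (.non (nat_lit 1) (nat_lit 5) (nat_lit 0xa5040) (nat_lit 0x1000200020001000000000003000000000000))) (.non (nat_lit 1) (nat_lit 5) (nat_lit 0x94050) (nat_lit 0x1000200010000000000000002000100000000))) (.non (nat_lit 2) (nat_lit 6) (nat_lit 0x505) (nat_lit 0x100020000000000010002))))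

noncomputable def t742_50 : Tr := (.ex (nat_lit 6) (.pd (.cons (nat_lit 3) (nat_lit 4) (nat_lit 0) (nat_lit 0x865500100) (nat_lit 0xf423ff423fb71ae1f1560000000000f423f54591437a2) .nil) (.ex (nat_lit 8) (.split (nat_lit 8) (nat_lit 3) (.pd (.cons (nat_lit 0) (nat_lit 7) (nat_lit 0) (nat_lit 0x305442110) (nat_lit 0xf423f00000f423f54591437a2b71aea2c280473700000) .nil) (.split (nat_lit 4) (nat_lit 0) (.split (nat_lit 7) (nat_lit 3) (.leaf (.cons (nat_lit 0x15440) (nat_lit 0x100030004000300000002000000000000) (.cons (nat_lit 0x14054) (nat_lit 0x100010000000000000002000200020000) (.cons (nat_lit 0x1501) (nat_lit 0x1000100010000000000000001) (.cons (nat_lit 0x115) (nat_lit 0x10000000100010001) .nil)))) (.cons (nat_lit 0x111001100) (nat_lit 0x100010) (nat_lit 8) (nat_lit 0x234000100) (.cons (nat_lit 0x110011) (nat_lit 0x1000100) (nat_lit 0xf) (nat_lit 0x320001) .nil))) (.non (nat_lit 1) (nat_lit 5) (nat_lit 0x18050) (nat_lit 0x100010000000000000002000100000000))) (.non (nat_lit 2) (nat_lit 6) (nat_lit 0x505) (nat_lit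 0x100020000000000010002)))) (.non (nat_lit 1) (nat_lit 5) (nat_lit 0x24050) (nat_lit 0x100010000000000000002000100000000))) (.split (nat_lit 9) (nat_lit 0) (.split (nat_lit 9) (nat_lit 1) (.split (nat_lit 9) (nat_lit 2) (.split (nat_lit 9) (nat_lit 3) (.split (nat_lit 9) (nat_lit 4) (.split (nat_lit 9) (nat_lit 5) (.split (nat_lit 9) (nat_lit 6) (.split (nat_lit 9) (nat_lit 7) t742_49 (.non (nat_lit 1) (nat_lit 5) (nat_lit 0x54040) (nat_lit 0x1000100010000000000000001000000000000))) (.non (nat_lit 1) (nat_lit 5) (nat_lit 0x55040) (nat_lit 0x1000100010001000000000001000000000000))) (.non (nat_lit 1) (nat_lit 6) (nat_lit 0xa8aa1) (nat_lit 0x2000200010000000200020002000100000002))) (.non (nat_lit 1) (nat_lit 5) (nat_lit 0xa82a1) (nat_lit 0x2000200010000000000020002000100000002))) (.non (nat_lit 1) (nat_lit 5) (nat_lit 0x50040) (nat_lit 0x1000100000000000000000001000000000000))) (.non (nat_lit 1) (nat_lit 5) (nat_lit 0x50050) (nat_lit 0x1000100000000000000000001000100000000))) (.non (nat_lit 2) (nat_lit 6) (nat_lit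 0x40a05) (nat_lit 0x1000000000000000100020000000000020003))) (.non (nat_lit 1) (nat_lit 5) (nat_lit 0x54251) (nat_lit 0x2000200010000000000010002000100000002))))) (.split (nat_lit 9) (nat_lit 0) (.split (nat_lit 9) (nat_lit 1) (.split (nat_lit 9) (nat_lit 2) (.split (nat_lit 9) (nat_lit 3) (.split (nat_lit 9) (nat_lit 4) (.split (nat_lit 9) (nat_lit 5) (.split (nat_lit 9) (nat_lit 7) (.split (nat_lit 9) (nat_lit 8) (.sup (nat_lit 0x20009000a0005) (nat_lit 0x500000002000a000800000000000000000000)) (.non (nat_lit 1) (nat_lit 5) (nat_lit 0x55040) (nat_lit 0x1000100010001000000000001000000000000))) (.non (nat_lit 1) (nat_lit 5) (nat_lit 0x45000) (nat_lit 0x1000000010001000000000000000000000000))) (.non (nat_lit 2) (nat_lit 6) (nat_lit 0x80a05) (nat_lit 0x1000000000000000200030000000000020004))) (.non (nat_lit 1) (nat_lit 5) (nat_lit 0xaa2a1) (nat_lit 0x2000100020002000000020002000100000002))) (.non (nat_lit 1) (nat_lit 5) (nat_lit 0x45040) (nat_lit 0x1000000010001000000000001000000000000))) (.star (nat_lit 9) (nat_lit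 2) (nat_lit 6))) (.star (nat_lit 9) (nat_lit 1) (nat_lit 6))) (.non (nat_lit 1) (nat_lit 5) (nat_lit 0x55251) (nat_lit 0x2000100020002000000010002000100000002))))

noncomputable def t742_51 : Tr := (.ex (nat_lit 9) (.split (nat_lit 8) (nat_lit 3) (.split (nat_lit 9) (nat_lit 4) (.pd (.cons (nat_lit 0) (nat_lit 7) (nat_lit 0) (nat_lit 0x4305442110) (nat_lit 0xf423ff423f00000f423f5459106711b71aea2c280473700000) .nil) (.split (nat_lit 4) (nat_lit 0) (.split (nat_lit 7) (nat_lit 3) (.leaf (.cons (nat_lit 0x15440) (nat_lit 0x100030004000300000002000000000000) (.cons (nat_lit 0x14054) (nat_lit 0x100010000000000000002000200020000) (.cons (nat_lit 0x41501) (nat_lit 0x1000000000002000200020000000000000001) (.cons (nat_lit 0x40115) (nat_lit 0x1000000000000000000020000000300040003) .nil)))) (.cons (nat_lit 0x111001100) (nat_lit 0x100010) (nat_lit 8) (nat_lit 0x234000100) (.cons (nat_lit 0x1000110011) (nat_lit 0x1000100) (nat_lit 8) (nat_lit 0x2000100043) .nil))) (.non (nat_lit 1) (nat_lit 5) (nat_lit 0x18050) (nat_lit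 0x100010000000000000002000100000000))) (.non (nat_lit 1) (nat_lit 6) (nat_lit 0x80a01) (nat_lit 0x1000000000000000100020000000000000002)))) (.non (nat_lit 1) (nat_lit 6) (nat_lit 0x80501) (nat_lit 0x1000000000000000100020000000000000001))) (.non (nat_lit 1) (nat_lit 5) (nat_lit 0x24050) (nat_lit 0x100010000000000000002000100000000))) (.split (nat_lit 0xa) (nat_lit 0) (.split (nat_lit 0xa) (nat_lit 1) (.split (nat_lit 0xa) (nat_lit 2) (.split (nat_lit 0xa) (nat_lit 3) (.split (nat_lit 0xa) (nat_lit 4) (.split (nat_lit 0xa) (nat_lit 5) (.split (nat_lit 0xa) (nat_lit 6) (.split (nat_lit 0xa) (nat_lit 7) (.split (nat_lit 0xa) (nat_lit 8) (.sup (nat_lit 0x70001000000000000000e001400100000) (nat_lit 0x5000a00000000000f0014000f0000000000000000)) (.non (nat_lit 1) (nat_lit 5) (nat_lit 0x155151) (nat_lit 0x40003000500040002000000020006000300000001))) (.non (nat_lit 1) (nat_lit 5) (nat_lit 0x115050) (nat_lit 0x10000000100020001000000000002000100000000))) (.non (nat_lit 3) (nat_lit 4) (nat_lit 0x105400) (nat_lit 0x10000000000010002000200000000000000000000)))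 (.non (nat_lit 1) (nat_lit 6) (nat_lit 0x140500) (nat_lit 0x10001000000000000000100010000000000000000))) (.non (nat_lit 1) (nat_lit 5) (nat_lit 0x140100) (nat_lit 0x10001000000000000000000010000000000000000))) (.non (nat_lit 1) (nat_lit 5) (nat_lit 0x114050) (nat_lit 0x10000000100010000000000000002000100000000))) (.non (nat_lit 1) (nat_lit 5) (nat_lit 0x155151) (nat_lit 0x40003000300040002000000020006000500000001))) (.non (nat_lit 2) (nat_lit 5) (nat_lit 0x140105) (nat_lit 0x10001000000000000000000010000000000010001))) (.non (nat_lit 1) (nat_lit 5) (nat_lit 0x140101) (nat_lit 0x10001000000000000000000010000000000000001))))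

noncomputable def t742_52 : Tr := (.ex (nat_lit 6) (.pd (.cons (nat_lit 3) (nat_lit 4) (nat_lit 0) (nat_lit 0x9865500100) (nat_lit 0xf423ff423ff423fb71ae1f1560000000000f423f54591437a2) .nil) (.ex (nat_lit 8) t742_51 (.split (nat_lit 0xa) (nat_lit 0) (.split (nat_lit 0xa) (nat_lit 1) (.split (nat_lit 0xa) (nat_lit 2) (.split (nat_lit 0xa) (nat_lit 3) (.split (nat_lit 0xa) (nat_lit 4) (.split (nat_lit 0xa) (nat_lit 5) (.split (nat_lit 0xa) (nat_lit 6) (.split (nat_lit 0xa) (nat_lit 7) (.split (nat_lit 0xa) (nat_lit 9) (.sup (nat_lit 0x70000000000100014000e0000000000000001) (nat_lit 0x50000000a0000000000000000000f0014000f0000)) (.non (nat_lit 1) (nat_lit 5) (nat_lit 0x155151) (nat_lit 0x40003000500040002000000020006000300000001))) (.non (nat_lit 1) (nat_lit 5) (nat_lit 0x114040) (nat_lit 0x10000000100010000000000000001000000000000))) (.non (nat_lit 1) (nat_lit 5) (nat_lit 0x115040) (nat_lit 0x10000000100010001000000000001000000000000))) (.non (nat_lit 1) (nat_lit 6) (nat_lit 0x154551) (nat_lit 0x20001000200010000000200020002000100000001)))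 (.non (nat_lit 1) (nat_lit 5) (nat_lit 0x154151) (nat_lit 0x20001000200010000000000020002000100000001))) (.non (nat_lit 1) (nat_lit 5) (nat_lit 0x110040) (nat_lit 0x10000000100000000000000000001000000000000))) (.non (nat_lit 1) (nat_lit 5) (nat_lit 0x110050) (nat_lit 0x10000000100000000000000000001000100000000))) (.non (nat_lit 3) (nat_lit 4) (nat_lit 0x100015) (nat_lit 0x10000000000000000000000000000000200020001))) (.non (nat_lit 1) (nat_lit 5) (nat_lit 0x155151) (nat_lit 0x40001000500040002000000020006000300000003))))) (.split (nat_lit 0xa) (nat_lit 0) (.split (nat_lit 0xa) (nat_lit 1) (.split (nat_lit 0xa) (nat_lit 2) (.split (nat_lit 0xa) (nat_lit 3) (.split (nat_lit 0xa) (nat_lit 4) (.split (nat_lit 0xa) (nat_lit 7) (.split (nat_lit 0xa) (nat_lit 8) (.split (nat_lit 0xa) (nat_lit 5) (.split (nat_lit 0xa) (nat_lit 9) (.sup (nat_lit 0x20009000a0005) (nat_lit 0x5000000000002000a000800000000000000000000)) (.sup (nat_lit 0x20009000a0005) (nat_lit 0x5000000000002000a000800000000000000000000))) (.split (nat_lit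 0xa) (nat_lit 9) (.unj (nat_lit 0x101400) (nat_lit 0x10000000000000001000100000000000000000000) (nat_lit 0x55) (nat_lit 0x1000200020001)) (.non (nat_lit 1) (nat_lit 6) (nat_lit 0x140500) (nat_lit 0x10001000000000000000100010000000000000000)))) (.non (nat_lit 1) (nat_lit 5) (nat_lit 0x115040) (nat_lit 0x10000000100010001000000000001000000000000))) (.non (nat_lit 1) (nat_lit 5) (nat_lit 0x105000) (nat_lit 0x10000000000010001000000000000000000000000))) (.non (nat_lit 1) (nat_lit 5) (nat_lit 0x155151) (nat_lit 0x20001000100020002000000020002000100000001))) (.non (nat_lit 1) (nat_lit 5) (nat_lit 0x105040) (nat_lit 0x10000000000010001000000000001000000000000))) (.star (nat_lit 0xa) (nat_lit 2) (nat_lit 6))) (.star (nat_lit 0xa) (nat_lit 1) (nat_lit 6))) (.non (nat_lit 2) (nat_lit 5) (nat_lit 0x155145) (nat_lit 0x50002000100030004000000040002000000030006))))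

noncomputable def t742_53 : Tr := (.ex (nat_lit 4) (.split (nat_lit 4) (nat_lit 0) (.pd (.cons (nat_lit 3) (nat_lit 5) (nat_lit 0) (nat_lit 0x866000100) (nat_lit 0xf423ff423fb71ae00000f423f00000f423f5459106711) .nil) (.ex (nat_lit 5) t742_47 (.split (nat_lit 9) (nat_lit 0) (.split (nat_lit 9) (nat_lit 1) (.split (nat_lit 9) (nat_lit 2) (.split (nat_lit 9) (nat_lit 3) (.split (nat_lit 9) (nat_lit 4) (.split (nat_lit 9) (nat_lit 7) (.split (nat_lit 9) (nat_lit 6) (.split (nat_lit 9) (nat_lit 8) (.sup (nat_lit 0x3000500050001) (nat_lit 0x3000000000004000500010000000000000000)) (.sup (nat_lit 0x3000500050001) (nat_lit 0x3000000000004000500010000000000000000))) (.split (nat_lit 9) (nat_lit 8) (.unj (nat_lit 0x41400) (nat_lit 0x1000000000001000100000000000000000000) (nat_lit 0x55) (nat_lit 0x1000200020001)) (.non (nat_lit 1) (nat_lit 5) (nat_lit 0x55040) (nat_lit 0x1000100010001000000000001000000000000)))) (.non (nat_lit 1) (nat_lit 5) (nat_lit 0x55050) (nat_lit 0x1000100020001000000000002000100000000))) (.non (nat_lit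 1) (nat_lit 6) (nat_lit 0x40500) (nat_lit 0x1000000000000000100010000000000000000))) (.non (nat_lit 1) (nat_lit 5) (nat_lit 0x54050) (nat_lit 0x1000100010000000000000002000100000000))) (.star (nat_lit 9) (nat_lit 2) (nat_lit 5))) (.star (nat_lit 9) (nat_lit 1) (nat_lit 5))) (.non (nat_lit 1) (nat_lit 6) (nat_lit 0x40501) (nat_lit 0x1000000000000000100010000000000000001))))) (.st (nat_lit 5) (nat_lit 2) (nat_lit 6) (nat_lit 0xa05) (nat_lit 0x200030000000000020004) (nat_lit 2) (nat_lit 1) t742_50)) (.split (nat_lit 9) (nat_lit 0) (.split (nat_lit 9) (nat_lit 1) (.split (nat_lit 9) (nat_lit 2) (.split (nat_lit 9) (nat_lit 3) (.split (nat_lit 9) (nat_lit 5) (.split (nat_lit 9) (nat_lit 7) (.split (nat_lit 9) (nat_lit 8) (.split (nat_lit 9) (nat_lit 6) (.st (nat_lit 4) (nat_lit 1) (nat_lit 6) (nat_lit 0x40501) (nat_lit 0x1000000000000000100020000000000000001) (nat_lit 1) (nat_lit 1) (.ex (nat_lit 5) t742_52 (.split (nat_lit 0xa) (nat_lit 0) (.split (nat_lit 0xa) (nat_lit 1) (.split (nat_lit 0xa) (nat_lit 2) (.split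 (nat_lit 0xa) (nat_lit 3) (.split (nat_lit 0xa) (nat_lit 4) (.split (nat_lit 0xa) (nat_lit 7) (.split (nat_lit 0xa) (nat_lit 8) (.split (nat_lit 0xa) (nat_lit 9) (.split (nat_lit 0xa) (nat_lit 6) (.sup (nat_lit 0x5000a00090002) (nat_lit 0x50000000000000008000a00020000000000000000)) (.unj (nat_lit 0x101400) (nat_lit 0x10000000000000001000100000000000000000000) (nat_lit 0x55) (nat_lit 0x1000200020001))) (.non (nat_lit 1) (nat_lit 6) (nat_lit 0x140500) (nat_lit 0x10001000000000000000100010000000000000000))) (.non (nat_lit 1) (nat_lit 6) (nat_lit 0x154551) (nat_lit 0x20001000200010000000200020002000100000001))) (.non (nat_lit 1) (nat_lit 5) (nat_lit 0x115050) (nat_lit 0x10000000100020001000000000002000100000000))) (.non (nat_lit 1) (nat_lit 6) (nat_lit 0x100500) (nat_lit 0x10000000000000000000100010000000000000000))) (.non (nat_lit 1) (nat_lit 5) (nat_lit 0x114050) (nat_lit 0x10000000100010000000000000002000100000000))) (.star (nat_lit 0xa) (nat_lit 2) (nat_lit 5))) (.star (nat_lit 0xa) (nat_lit 1) (nat_lit 5)))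 (.non (nat_lit 1) (nat_lit 6) (nat_lit 0x100501) (nat_lit 0x10000000000000000000100010000000000000001))))) (.sup (nat_lit 0x3000500050001) (nat_lit 0x3000000000005000400010000000000000000))) (.non (nat_lit 1) (nat_lit 6) (nat_lit 0x54551) (nat_lit 0x2000200010000000100020002000100000001))) (.non (nat_lit 1) (nat_lit 5) (nat_lit 0x55050) (nat_lit 0x1000100020001000000000002000100000000))) (.non (nat_lit 1) (nat_lit 6) (nat_lit 0x40500) (nat_lit 0x1000000000000000100010000000000000000))) (.non (nat_lit 1) (nat_lit 5) (nat_lit 0x54050) (nat_lit 0x1000100010000000000000002000100000000))) (.non (nat_lit 1) (nat_lit 6) (nat_lit 0x54551) (nat_lit 0x2000100010000000100020002000200000001))) (.non (nat_lit 2) (nat_lit 5) (nat_lit 0x40105) (nat_lit 0x1000000000000000000010000000000010001))) (.non (nat_lit 1) (nat_lit 5) (nat_lit 0x40101) (nat_lit 0x1000000000000000000010000000000000001))))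

noncomputable def t742_54 : Tr := (.split (nat_lit 8) (nat_lit 0) (.split (nat_lit 8) (nat_lit 1) (.split (nat_lit 8) (nat_lit 5) (.st (nat_lit 3) (nat_lit 1) (nat_lit 5) (nat_lit 0x14050) (nat_lit 0x100010000000000000002000100000000) (nat_lit 1) (nat_lit 1) (.st (nat_lit 7) (nat_lit 1) (nat_lit 5) (nat_lit 0x15050) (nat_lit 0x100020001000000000002000100000000) (nat_lit 1) (nat_lit 1) t742_53)) (.st (nat_lit 4) (nat_lit 1) (nat_lit 6) (nat_lit 0x14551) (nat_lit 0x200010000000200020002000100000001) (nat_lit 1) (nat_lit 1) (.split (nat_lit 4) (nat_lit 0) (.pd (.cons (nat_lit 3) (nat_lit 5) (nat_lit 0) (nat_lit 0x866000100) (nat_lit 0xf423ff423fb71ae00000f423f00000f423f5459106711) .nil) (.st (nat_lit 3) (nat_lit 1) (nat_lit 5) (nat_lit 0x14050) (nat_lit 0x100010000000000000002000100000000) (nat_lit 1) (nat_lit 1) (.st (nat_lit 5) (nat_lit 1) (nat_lit 6) (nat_lit 0x14550) (nat_lit 0x200010000000200010002000100000000) (nat_lit 1) (nat_lit 1) (.st (nat_lit 7) (nat_lit 1) (nat_lit 5) (nat_lit 0x15050) (nat_lit 0x100020001000000000002000100000000)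 (nat_lit 1) (nat_lit 1) (.st (nat_lit 8) (nat_lit 1) (nat_lit 6) (nat_lit 0x14450) (nat_lit 0x200010000000100000002000100000000) (nat_lit 1) (nat_lit 1) (.split (nat_lit 8) (nat_lit 3) (.split (nat_lit 7) (nat_lit 3) (.split (nat_lit 8) (nat_lit 5) (.leaf (.cons (nat_lit 0x15400) (nat_lit 0x100010002000200000000000000000000) (.cons (nat_lit 0x14054) (nat_lit 0x100010000000000000002000200020000) (.cons (nat_lit 0x11500) (nat_lit 0x100000002000200010000000000000000) (.cons (nat_lit 0x515) (nat_lit 0x100020000000300040003) .nil)))) (.cons (nat_lit 0x110111011) (nat_lit 0x1000100) (nat_lit 5) (nat_lit 0x460325001) .nil)) (.non (nat_lit 1) (nat_lit 6) (nat_lit 0x14a40) (nat_lit 0x300010000000200010002000000000000))) (.non (nat_lit 1) (nat_lit 5) (nat_lit 0x18050) (nat_lit 0x100010000000000000002000100000000))) (.non (nat_lit 1) (nat_lit 5) (nat_lit 0x24050) (nat_lit 0x100010000000000000002000100000000)))))))) (.non (nat_lit 1) (nat_lit 6) (nat_lit 0x28aa1) (nat_lit 0x200010000000200020002000100000002))))) (.split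 (nat_lit 8) (nat_lit 5) (.sup (nat_lit 0x5000000000000000000000008000a0002) (nat_lit 0x5000a000900020000000000000000)) (.star (nat_lit 8) (nat_lit 1) (nat_lit 5)))) (.split (nat_lit 8) (nat_lit 1) (.split (nat_lit 8) (nat_lit 5) (.st (nat_lit 3) (nat_lit 1) (nat_lit 5) (nat_lit 0x14050) (nat_lit 0x100010000000000000002000100000000) (nat_lit 1) (nat_lit 1) (.st (nat_lit 4) (nat_lit 1) (nat_lit 6) (nat_lit 0x14551) (nat_lit 0x200010000000100020002000100000002) (nat_lit 1) (nat_lit 1) (.st (nat_lit 5) (nat_lit 2) (nat_lit 6) (nat_lit 0x14545) (nat_lit 0x300010000000200030002000000020004) (nat_lit 1) (nat_lit 1) (.st (nat_lit 6) (nat_lit 1) (nat_lit 5) (nat_lit 0x15151) (nat_lit 0x300030002000000010004000200000002) (nat_lit 1) (nat_lit 1) (.st (nat_lit 7) (nat_lit 1) (nat_lit 5) (nat_lit 0x15050) (nat_lit 0x100020001000000000002000100000000) (nat_lit 1) (nat_lit 1) (.st (nat_lit 8) (nat_lit 1) (nat_lit 5) (nat_lit 0x14051) (nat_lit 0x200010000000000000002000100000001) (nat_lit 1) (nat_lit 1) (.split (nat_lit 8)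 (nat_lit 3) (.split (nat_lit 8) (nat_lit 0) (.pd (.cons (nat_lit 0) (nat_lit 7) (nat_lit 0) (nat_lit 0x305442110) (nat_lit 0xf423f00000f423f54591437a2b71aea2c280473700000) (.cons (nat_lit 3) (nat_lit 4) (nat_lit 0) (nat_lit 0x65500100) (nat_lit 0xf423ff423fb71ae1f1560000000000f423f5459106711) .nil)) (.split (nat_lit 7) (nat_lit 3) (.split (nat_lit 4) (nat_lit 0) (.leaf (.cons (nat_lit 0x15440) (nat_lit 0x100030004000300000002000000000000) (.cons (nat_lit 0x14054) (nat_lit 0x100010000000000000002000200020000) (.cons (nat_lit 0x11501) (nat_lit 0x100000003000400030000000000000002) (.cons (nat_lit 0x10115) (nat_lit 0x100000000000000010000000200020002) .nil)))) (.cons (nat_lit 0x111011101) (nat_lit 0x100010) (nat_lit 0xd) (nat_lit 0x423060105) (.cons (nat_lit 0x110111011) (nat_lit 0x1000100) (nat_lit 0xd) (nat_lit 0x460325010) .nil))) (.non (nat_lit 1) (nat_lit 5) (nat_lit 0x14251) (nat_lit 0x200010000000000010002000100000002))) (.non (nat_lit 1) (nat_lit 5) (nat_lit 0x18050) (nat_lit 0x100010000000000000002000100000000))))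 (.non (nat_lit 1) (nat_lit 5) (nat_lit 0x28181) (nat_lit 0x300010000000000020002000000000004))) (.non (nat_lit 1) (nat_lit 5) (nat_lit 0x24050) (nat_lit 0x100010000000000000002000100000000))))))))) (.non (nat_lit 1) (nat_lit 6) (nat_lit 0x10501) (nat_lit 0x100000000000100010000000000000001))) (.non (nat_lit 2) (nat_lit 5) (nat_lit 0x10005) (nat_lit 0x100000000000000000000000000010001))))

noncomputable def t742_55 : Tr := (.ex (nat_lit 7) (.split (nat_lit 7) (nat_lit 3) (.pd (.cons (nat_lit 2) (nat_lit 4) (nat_lit 0) (nat_lit 0x837603000) (nat_lit 0xf423f437a254591f423f00000174ea00000f423fb71ae) .nil) (.split (nat_lit 8) (nat_lit 2) (.split (nat_lit 8) (nat_lit 4) (.split (nat_lit 4) (nat_lit 0) (.leaf (.cons (nat_lit 0x5450) (nat_lit 0x30004000300000002000100000000) (.cons (nat_lit 0x10054) (nat_lit 0x100000000000000000001000200020000) (.cons (nat_lit 0x11510) (nat_lit 0x200000003000400030000000100000000) (.cons (nat_lit 0x11501) (nat_lit 0x100000002000200020000000000000001) (.cons (nat_lit 0x10015) (nat_lit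 0x100000000000000000000000200020001) .nil))))) (.cons (nat_lit 0x111011101) (nat_lit 0x100010) (nat_lit 5) (nat_lit 0x256014300) .nil)) (.non (nat_lit 1) (nat_lit 6) (nat_lit 0x20a01) (nat_lit 0x100000000000100020000000000000002))) (.non (nat_lit 1) (nat_lit 5) (nat_lit 0x201a1) (nat_lit 0x300000000000000040001000200000002))) (.non (nat_lit 1) (nat_lit 5) (nat_lit 0x24250) (nat_lit 0x200010000000000010002000300000000)))) (.non (nat_lit 1) (nat_lit 5) (nat_lit 0x1a050) (nat_lit 0x100020001000000000003000200000000))) (.split (nat_lit 9) (nat_lit 0) (.split (nat_lit 9) (nat_lit 2) (.split (nat_lit 9) (nat_lit 3) (.split (nat_lit 9) (nat_lit 4) (.split (nat_lit 9) (nat_lit 5) (.split (nat_lit 9) (nat_lit 6) (.split (nat_lit 9) (nat_lit 8) (.split (nat_lit 9) (nat_lit 1) (.sup (nat_lit 0x5000000000000000000000009000a0005) (nat_lit 0x300000007000a000800000001000000000000)) (.st (nat_lit 7) (nat_lit 1) (nat_lit 5) (nat_lit 0x45040) (nat_lit 0x1000000020001000000000001000000000000) (nat_lit 1) (nat_lit 1) (.st (nat_lit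 9) (nat_lit 1) (nat_lit 5) (nat_lit 0x55151) (nat_lit 0x4000300060003000000020005000400000001) (nat_lit 1) (nat_lit 2) (.split (nat_lit 9) (nat_lit 7) (.split (nat_lit 8) (nat_lit 2) (.split (nat_lit 8) (nat_lit 4) (.split (nat_lit 7) (nat_lit 3) (.split (nat_lit 4) (nat_lit 0) (.leaf (.cons (nat_lit 0x45440) (nat_lit 0x1000000020002000200000001000000000000) (.cons (nat_lit 0x50014) (nat_lit 0x1000100000000000000000000000200020000) (.cons (nat_lit 0x11510) (nat_lit 0x200000003000400030000000100000000) (.cons (nat_lit 0x11501) (nat_lit 0x100000002000200020000000000000001) .nil)))) (.cons (nat_lit 0x1111011101) (nat_lit 0x100010) (nat_lit 0xb) (nat_lit 0x2501063407) (.cons (nat_lit 0x1110111101) (nat_lit 0x1000010) (nat_lit 0xb) (nat_lit 0x7360205401) .nil))) (.non (nat_lit 1) (nat_lit 5) (nat_lit 0xaa2a1) (nat_lit 0x1000200020001000000020002000200000002))) (.non (nat_lit 1) (nat_lit 5) (nat_lit 0x8a040) (nat_lit 0x1000000020001000000000002000000000000))) (.non (nat_lit 1) (nat_lit 5) (nat_lit 0x55250) (nat_lit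 0x1000200020001000000010002000200000000))) (.non (nat_lit 1) (nat_lit 5) (nat_lit 0x65050) (nat_lit 0x1000100020001000000000002000200000000))) (.non (nat_lit 1) (nat_lit 5) (nat_lit 0x85040) (nat_lit 0x1000000020001000000000001000000000000)))))) (.non (nat_lit 1) (nat_lit 5) (nat_lit 0x54050) (nat_lit 0x1000100010000000000000001000100000000))) (.non (nat_lit 1) (nat_lit 5) (nat_lit 0x45000) (nat_lit 0x1000000010001000000000000000000000000))) (.non (nat_lit 1) (nat_lit 6) (nat_lit 0x54550) (nat_lit 0x1000100010000000100010001000100000000))) (.non (nat_lit 1) (nat_lit 5) (nat_lit 0x54150) (nat_lit 0x1000100010000000000010001000100000000))) (.non (nat_lit 1) (nat_lit 5) (nat_lit 0x44040) (nat_lit 0x1000000010000000000000001000000000000))) (.non (nat_lit 1) (nat_lit 5) (nat_lit 0x44050) (nat_lit 0x1000000010000000000000001000100000000))) (.non (nat_lit 1) (nat_lit 5) (nat_lit 0x54151) (nat_lit 0x1000100010000000000010001000100000001))))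

noncomputable def t742_56 : Tr := (.st (nat_lit 4) (nat_lit 1) (nat_lit 6) (nat_lit 0x10501) (nat_lit 0x100000000000100020000000000000001) (nat_lit 1) (nat_lit 1) (.st (nat_lit 8) (nat_lit 1) (nat_lit 6) (nat_lit 0x10511) (nat_lit 0x200000000000100020000000100000001) (nat_lit 1) (nat_lit 1) (.ex (nat_lit 5) (.ex (nat_lit 6) t742_55 (.split (nat_lit 9) (nat_lit 0) (.split (nat_lit 9) (nat_lit 1) (.split (nat_lit 9) (nat_lit 2) (.split (nat_lit 9) (nat_lit 3) (.split (nat_lit 9) (nat_lit 4) (.split (nat_lit 9) (nat_lit 7) (.split (nat_lit 9) (nat_lit 8) (.split (nat_lit 9) (nat_lit 5) (.unj (nat_lit 0x10015) (nat_lit 0x100000000000000000000000200020001) (nat_lit 0x45400) (nat_lit 0x1000000010002000200000000000000000000)) (.unj (nat_lit 0x41400) (nat_lit 0x1000000000001000100000000000000000000) (nat_lit 0x55) (nat_lit 0x1000200020001))) (.non (nat_lit 1) (nat_lit 5) (nat_lit 0x55050) (nat_lit 0x1000100010001000000000001000100000000))) (.non (nat_lit 1) (nat_lit 5) (nat_lit 0x45000) (nat_lit 0x1000000010001000000000000000000000000)))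 (.non (nat_lit 1) (nat_lit 5) (nat_lit 0x55150) (nat_lit 0x1000100010001000000010001000100000000))) (.non (nat_lit 1) (nat_lit 5) (nat_lit 0x45040) (nat_lit 0x1000000010001000000000001000000000000))) (.star (nat_lit 9) (nat_lit 2) (nat_lit 6))) (.star (nat_lit 9) (nat_lit 1) (nat_lit 6))) (.non (nat_lit 1) (nat_lit 5) (nat_lit 0x55151) (nat_lit 0x1000100010001000000010001000100000001)))) (.split (nat_lit 9) (nat_lit 0) (.split (nat_lit 9) (nat_lit 1) (.split (nat_lit 9) (nat_lit 2) (.split (nat_lit 9) (nat_lit 3) (.split (nat_lit 9) (nat_lit 4) (.split (nat_lit 9) (nat_lit 7) (.split (nat_lit 9) (nat_lit 8) (.split (nat_lit 9) (nat_lit 6) (.unj (nat_lit 0x10015) (nat_lit 0x100000000000000000000000200020001) (nat_lit 0x45400) (nat_lit 0x1000000010002000200000000000000000000)) (.unj (nat_lit 0x41400) (nat_lit 0x1000000000001000100000000000000000000) (nat_lit 0x55) (nat_lit 0x1000200020001))) (.non (nat_lit 1) (nat_lit 6) (nat_lit 0x50500) (nat_lit 0x1000100000000000100010000000000000000))) (.non (nat_lit 1) (nat_lit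 6) (nat_lit 0x54550) (nat_lit 0x1000100010000000100010001000100000000))) (.non (nat_lit 1) (nat_lit 6) (nat_lit 0x40500) (nat_lit 0x1000000000000000100010000000000000000))) (.non (nat_lit 1) (nat_lit 6) (nat_lit 0x50550) (nat_lit 0x1000100000000000100010001000100000000))) (.star (nat_lit 9) (nat_lit 2) (nat_lit 5))) (.star (nat_lit 9) (nat_lit 1) (nat_lit 5))) (.non (nat_lit 1) (nat_lit 6) (nat_lit 0x40501) (nat_lit 0x1000000000000000100010000000000000001))))))

noncomputable def t742_57 : Tr := (.ex (nat_lit 2) (.ex (nat_lit 3) (.ex (nat_lit 4) t742_22 (.split (nat_lit 8) (nat_lit 0) (.split (nat_lit 8) (nat_lit 1) (.split (nat_lit 8) (nat_lit 3) (.split (nat_lit 8) (nat_lit 5) t742_44 (.non (nat_lit 1) (nat_lit 6) (nat_lit 0x10500) (nat_lit 0x100000000000100010000000000000000))) (.non (nat_lit 1) (nat_lit 6) (nat_lit 0x14551) (nat_lit 0x200010000000100020002000100000001))) (.non (nat_lit 2) (nat_lit 5) (nat_lit 0x10105) (nat_lit 0x100000000000000010000000000010001))) (.non (nat_lit 1) (nat_lit 5) (nat_lit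 0x10101) (nat_lit 0x100000000000000010000000000000001)))) (.split (nat_lit 8) (nat_lit 2) (.split (nat_lit 8) (nat_lit 4) (.split (nat_lit 8) (nat_lit 6) (.split (nat_lit 8) (nat_lit 7) t742_54 (.non (nat_lit 1) (nat_lit 5) (nat_lit 0x14040) (nat_lit 0x100010000000000000001000000000000))) (.non (nat_lit 1) (nat_lit 5) (nat_lit 0x15040) (nat_lit 0x100010001000000000001000000000000))) (.non (nat_lit 1) (nat_lit 6) (nat_lit 0x14551) (nat_lit 0x200010000000100020002000100000001))) (.non (nat_lit 1) (nat_lit 5) (nat_lit 0x10050) (nat_lit 0x100000000000000000001000100000000)))) (.split (nat_lit 8) (nat_lit 3) (.split (nat_lit 8) (nat_lit 5) (.split (nat_lit 8) (nat_lit 6) (.split (nat_lit 8) (nat_lit 7) (.split (nat_lit 8) (nat_lit 0) (.split (nat_lit 8) (nat_lit 1) (.split (nat_lit 8) (nat_lit 4) (.sup (nat_lit 0x500000000000000000002000a00080000) (nat_lit 0x20009000a00050000000000000000)) (.st (nat_lit 3) (nat_lit 1) (nat_lit 6) (nat_lit 0x14551) (nat_lit 0x200010000000100020002000200000001) (nat_lit 1) (nat_lit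 1) (.st (nat_lit 2) (nat_lit 1) (nat_lit 5) (nat_lit 0x15151) (nat_lit 0x300020001000000020003000400000001) (nat_lit 1) (nat_lit 2) t742_56))) (.split (nat_lit 8) (nat_lit 4) (.unj (nat_lit 0x10014) (nat_lit 0x100000000000000000000000100010000) (nat_lit 0x5500) (nat_lit 0x10002000200010000000000000000)) (.non (nat_lit 2) (nat_lit 5) (nat_lit 0x10105) (nat_lit 0x100000000000000010000000000010001)))) (.split (nat_lit 8) (nat_lit 1) (.split (nat_lit 8) (nat_lit 4) (.sup (nat_lit 0x300000000000000000000000500040001) (nat_lit 0x30005000500010000000000000000)) (.non (nat_lit 1) (nat_lit 5) (nat_lit 0x10101) (nat_lit 0x100000000000000010000000000000001))) (.non (nat_lit 2) (nat_lit 5) (nat_lit 0x10005) (nat_lit 0x100000000000000000000000000010001)))) (.non (nat_lit 1) (nat_lit 5) (nat_lit 0x14050) (nat_lit 0x100010000000000000001000100000000))) (.star (nat_lit 8) (nat_lit 2) (nat_lit 6))) (.star (nat_lit 8) (nat_lit 2) (nat_lit 5))) (.non (nat_lit 1) (nat_lit 5) (nat_lit 0x10050) (nat_lit 0x100000000000000000001000100000000))))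

noncomputable def t742_58 : Tr := (.ex (nat_lit 5) (.ex (nat_lit 6) (.split (nat_lit 4) (nat_lit 0) (.pd (.cons (nat_lit 1) (nat_lit 7) (nat_lit 0) (nat_lit 0x805402200) (nat_lit 0xf423f00000f423f54591437a2f423fb71ae00000174ea) .nil) (.split (nat_lit 8) (nat_lit 7) (.split (nat_lit 7) (nat_lit 3) (.split (nat_lit 8) (nat_lit 1) (.leaf (.cons (nat_lit 0x15440) (nat_lit 0x100020002000200000001000000000000) (.cons (nat_lit 0x15014) (nat_lit 0x300020001000000000000000300040000) (.cons (nat_lit 0x10054) (nat_lit 0x100000000000000000001000200020000) (.cons (nat_lit 0x1505) (nat_lit 0x3000400030000000000010002) (.cons (nat_lit 0x10015) (nat_lit 0x100000000000000000000000200020001) .nil))))) (.cons (nat_lit 0x110111011) (nat_lit 0x1000100) (nat_lit 5) (nat_lit 0x210650034) .nil)) (.non (nat_lit 2) (nat_lit 5) (nat_lit 0x2a084) (nat_lit 0x200020001000000000001000000020000))) (.non (nat_lit 1) (nat_lit 5) (nat_lit 0x2a040) (nat_lit 0x100020001000000000002000000000000))) (.non (nat_lit 1) (nat_lit 5) (nat_lit 0x25040)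 (nat_lit 0x100020001000000000001000000000000)))) (.non (nat_lit 2) (nat_lit 5) (nat_lit 0x15245) (nat_lit 0x200020001000000010001000000020002))) (.split (nat_lit 9) (nat_lit 0) (.split (nat_lit 9) (nat_lit 1) (.split (nat_lit 9) (nat_lit 2) (.split (nat_lit 9) (nat_lit 3) (.split (nat_lit 9) (nat_lit 4) (.split (nat_lit 9) (nat_lit 7) (.split (nat_lit 9) (nat_lit 8) (.split (nat_lit 9) (nat_lit 5) (.unj (nat_lit 0x10054) (nat_lit 0x100000000000000000001000200020000) (nat_lit 0x41500) (nat_lit 0x1000000000002000200010000000000000000)) (.unj (nat_lit 0x41400) (nat_lit 0x1000000000001000100000000000000000000) (nat_lit 0x55) (nat_lit 0x1000200020001))) (.non (nat_lit 1) (nat_lit 5) (nat_lit 0x55000) (nat_lit 0x1000100010001000000000000000000000000))) (.non (nat_lit 1) (nat_lit 5) (nat_lit 0x45000) (nat_lit 0x1000000010001000000000000000000000000))) (.non (nat_lit 2) (nat_lit 5) (nat_lit 0x55105) (nat_lit 0x1000100010001000000010000000000010001))) (.non (nat_lit 1) (nat_lit 5) (nat_lit 0x45040) (nat_lit 0x1000000010001000000000001000000000000)))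 (.star (nat_lit 9) (nat_lit 2) (nat_lit 6))) (.star (nat_lit 9) (nat_lit 1) (nat_lit 6))) (.non (nat_lit 2) (nat_lit 5) (nat_lit 0x55005) (nat_lit 0x1000100010001000000000000000000010001)))) (.split (nat_lit 9) (nat_lit 0) (.split (nat_lit 9) (nat_lit 1) (.split (nat_lit 9) (nat_lit 2) (.split (nat_lit 9) (nat_lit 3) (.split (nat_lit 9) (nat_lit 4) (.split (nat_lit 9) (nat_lit 7) (.split (nat_lit 9) (nat_lit 8) (.split (nat_lit 9) (nat_lit 6) (.unj (nat_lit 0x10054) (nat_lit 0x100000000000000000001000200020000) (nat_lit 0x41500) (nat_lit 0x1000000000002000200010000000000000000)) (.unj (nat_lit 0x41400) (nat_lit 0x1000000000001000100000000000000000000) (nat_lit 0x55) (nat_lit 0x1000200020001))) (.non (nat_lit 2) (nat_lit 5) (nat_lit 0x55044) (nat_lit 0x1000200020001000000000001000000010000))) (.non (nat_lit 1) (nat_lit 5) (nat_lit 0x55040) (nat_lit 0x1000100020001000000000001000000000000))) (.non (nat_lit 1) (nat_lit 6) (nat_lit 0x40500) (nat_lit 0x1000000000000000100010000000000000000))) (.non (nat_lit 1) (nat_lit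 5) (nat_lit 0x55050) (nat_lit 0x1000100020001000000000002000100000000))) (.star (nat_lit 9) (nat_lit 2) (nat_lit 5))) (.star (nat_lit 9) (nat_lit 1) (nat_lit 5))) (.non (nat_lit 1) (nat_lit 6) (nat_lit 0x40501) (nat_lit 0x1000000000000000100010000000000000001))))

noncomputable def t742_59 : Tr := (.split (nat_lit 9) (nat_lit 3) (.split (nat_lit 9) (nat_lit 5) (.split (nat_lit 9) (nat_lit 6) (.split (nat_lit 9) (nat_lit 7) (.split (nat_lit 9) (nat_lit 8) (.split (nat_lit 9) (nat_lit 2) (.sup (nat_lit 0x500000000000000000005000a00090000) (nat_lit 0x3000000000008000a00070000000000000001)) (.st (nat_lit 2) (nat_lit 1) (nat_lit 5) (nat_lit 0x55050) (nat_lit 0x1000100020001000000000002000200000000) (nat_lit 1) (nat_lit 1) (.st (nat_lit 4) (nat_lit 1) (nat_lit 5) (nat_lit 0x55151) (nat_lit 0x2000100020001000000020002000200000001) (nat_lit 1) (nat_lit 1) (.st (nat_lit 5) (nat_lit 1) (nat_lit 6) (nat_lit 0x54551) (nat_lit 0x5000100020000000400060003000400000003) (nat_lit 1) (nat_lit 2) (.st (nat_lit 6) (nat_lit 1)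 (nat_lit 5) (nat_lit 0x55151) (nat_lit 0x3000300060004000000020005000400000001) (nat_lit 1) (nat_lit 2) (.st (nat_lit 9) (nat_lit 1) (nat_lit 5) (nat_lit 0x55150) (nat_lit 0x2000100020001000000010002000200000000) (nat_lit 1) (nat_lit 1) (.split (nat_lit 9) (nat_lit 2) (.split (nat_lit 9) (nat_lit 4) (.split (nat_lit 8) (nat_lit 7) (.split (nat_lit 7) (nat_lit 3) (.split (nat_lit 4) (nat_lit 0) (.leaf (.cons (nat_lit 0x15440) (nat_lit 0x100020002000200000001000000000000) (.cons (nat_lit 0x50014) (nat_lit 0x1000100000000000000000000000200020000) (.cons (nat_lit 0x41510) (nat_lit 0x2000000000003000400030000000100000000) (.cons (nat_lit 0x41501) (nat_lit 0x1000000000002000200020000000000000001) .nil)))) (.cons (nat_lit 0x1111011101) (nat_lit 0x100010) (nat_lit 0xb) (nat_lit 0x5201063407) (.cons (nat_lit 0x1110111101) (nat_lit 0x1000010) (nat_lit 0xb) (nat_lit 0x3760205401) .nil))) (.non (nat_lit 1) (nat_lit 5) (nat_lit 0xaa2a1) (nat_lit 0x2000100020001000000020002000200000002))) (.non (nat_lit 1) (nat_lit 5) (nat_lit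 0x2a040) (nat_lit 0x100020001000000000002000000000000))) (.non (nat_lit 1) (nat_lit 5) (nat_lit 0x25040) (nat_lit 0x100020001000000000001000000000000))) (.non (nat_lit 1) (nat_lit 5) (nat_lit 0x55250) (nat_lit 0x2000100020001000000010002000200000000))) (.non (nat_lit 1) (nat_lit 5) (nat_lit 0x95050) (nat_lit 0x1000100020001000000000002000200000000))))))))) (.non (nat_lit 2) (nat_lit 5) (nat_lit 0x55044) (nat_lit 0x1000200020001000000000001000000010000))) (.non (nat_lit 1) (nat_lit 5) (nat_lit 0x55040) (nat_lit 0x1000100020001000000000001000000000000))) (.non (nat_lit 2) (nat_lit 5) (nat_lit 0x55105) (nat_lit 0x1000100010001000000010000000000010001))) (.non (nat_lit 1) (nat_lit 6) (nat_lit 0x40500) (nat_lit 0x1000000000000000100010000000000000000))) (.non (nat_lit 1) (nat_lit 5) (nat_lit 0x55050) (nat_lit 0x1000100020001000000000002000100000000)))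

noncomputable def t742_60 : Tr := (.ex (nat_lit 0xa) (.leaf (.cons (nat_lit 0x5450) (nat_lit 0x30004000300000002000100000000) (.cons (nat_lit 0x5054) (nat_lit 0x20001000000000003000400030000) (.cons (nat_lit 0x11501) (nat_lit 0x100000003000400030000000000000002) (.cons (nat_lit 0x50015) (nat_lit 0x1000200000000000000000000000300040003) .nil)))) (.cons (nat_lit 0x11001100) (nat_lit 0x100010) (nat_lit 2) (nat_lit 0x23001000) (.cons (nat_lit 0x11100110011) (nat_lit 0x1000100) (nat_lit 0xd) (nat_lit 0x65400320010) .nil))) (.split (nat_lit 0xb) (nat_lit 0) (.split (nat_lit 0xb) (nat_lit 1) (.split (nat_lit 0xb) (nat_lit 2) (.split (nat_lit 0xb) (nat_lit 3) (.split (nat_lit 0xb) (nat_lit 4) (.split (nat_lit 0xb) (nat_lit 5) (.split (nat_lit 0xb) (nat_lit 6) (.split (nat_lit 0xb) (nat_lit 7) (.split (nat_lit 0xb) (nat_lit 8) (.split (nat_lit 0xb) (nat_lit 9) (.st (nat_lit 0xa) (nat_lit 2) (nat_lit 5) (nat_lit 0x550105) (nat_lit 0x100020002000200000000000000010000000000010002) (nat_lit 1) (nat_lit 1) (.st (nat_lit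 0xb) (nat_lit 2) (nat_lit 6) (nat_lit 0x550505) (nat_lit 0x200030004000500000000000200040000000000030006) (nat_lit 1) (nat_lit 1) (.split (nat_lit 0xb) (nat_lit 0xa) (.leaf (.cons (nat_lit 0x5450) (nat_lit 0x30004000300000002000100000000) (.cons (nat_lit 0x5054) (nat_lit 0x20001000000000003000400030000) (.cons (nat_lit 0x11501) (nat_lit 0x100000003000400030000000000000002) (.cons (nat_lit 0x50015) (nat_lit 0x1000200000000000000000000000300040003) .nil)))) (.cons (nat_lit 0x11001100) (nat_lit 0x100010) (nat_lit 2) (nat_lit 0x23001000) (.cons (nat_lit 0x111100110011) (nat_lit 0x1000100) (nat_lit 0xe) (nat_lit 0x765400320010) .nil))) (.non (nat_lit 2) (nat_lit 5) (nat_lit 0x950105) (nat_lit 0x100020002000200000000000000010000000000010002))))) (.non (nat_lit 1) (nat_lit 5) (nat_lit 0x540000) (nat_lit 0x100010001000000000000000000000000000000000000))) (.non (nat_lit 1) (nat_lit 5) (nat_lit 0x550000) (nat_lit 0x100010001000100000000000000000000000000000000))) (.non (nat_lit 1) (nat_lit 5) (nat_lit 0x555051) (nat_lit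 0x500040003000200060003000000000004000200000001))) (.non (nat_lit 0) (nat_lit 7) (nat_lit 0x541400) (nat_lit 0x300020001000000000004000300000000000000000000))) (.non (nat_lit 1) (nat_lit 6) (nat_lit 0x550501) (nat_lit 0x100010001000100000000000100010000000000000001))) (.non (nat_lit 1) (nat_lit 5) (nat_lit 0x550101) (nat_lit 0x100010001000100000000000000010000000000000001))) (.non (nat_lit 1) (nat_lit 5) (nat_lit 0x555051) (nat_lit 0x500040003000200040002000000000006000300000001))) (.non (nat_lit 0) (nat_lit 7) (nat_lit 0x540014) (nat_lit 0x300020001000000000000000000000000000400030000))) (.non (nat_lit 2) (nat_lit 5) (nat_lit 0x550005) (nat_lit 0x100010001000100000000000000000000000000010001))) (.non (nat_lit 1) (nat_lit 5) (nat_lit 0x550001) (nat_lit 0x100010001000100000000000000000000000000000001))))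

noncomputable def t742_61 : Tr := (.split (nat_lit 9) (nat_lit 6) (.split (nat_lit 9) (nat_lit 7) (.st (nat_lit 8) (nat_lit 2) (nat_lit 5) (nat_lit 0x50105) (nat_lit 0x1000200000000000000010000000000010002) (nat_lit 1) (nat_lit 1) (.split (nat_lit 9) (nat_lit 8) (.split (nat_lit 4) (nat_lit 0) (.ex (nat_lit 9) (.leaf (.cons (nat_lit 0x5450) (nat_lit 0x30004000300000002000100000000) (.cons (nat_lit 0x5054) (nat_lit 0x20001000000000003000400030000) (.cons (nat_lit 0x11501) (nat_lit 0x100000003000400030000000000000002) (.cons (nat_lit 0x50015) (nat_lit 0x1000200000000000000000000000300040003) .nil)))) (.cons (nat_lit 0x1100110011) (nat_lit 0x1000100) (nat_lit 0xc) (nat_lit 0x5400320010) .nil)) (.split (nat_lit 0xa) (nat_lit 0) (.split (nat_lit 0xa) (nat_lit 1) (.split (nat_lit 0xa) (nat_lit 2) (.split (nat_lit 0xa) (nat_lit 3) (.split (nat_lit 0xa) (nat_lit 4) (.split (nat_lit 0xa) (nat_lit 5) (.split (nat_lit 0xa) (nat_lit 6) (.split (nat_lit 0xa) (nat_lit 7) (.split (nat_lit 0xa) (nat_lit 8) (.st (nat_lit 9)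 (nat_lit 2) (nat_lit 5) (nat_lit 0x150105) (nat_lit 0x10002000200000000000000010000000000010002) (nat_lit 1) (nat_lit 1) (.split (nat_lit 0xa) (nat_lit 9) t742_60 (.non (nat_lit 2) (nat_lit 5) (nat_lit 0x250105) (nat_lit 0x10002000200000000000000010000000000010002)))) (.non (nat_lit 1) (nat_lit 5) (nat_lit 0x150000) (nat_lit 0x10001000100000000000000000000000000000000))) (.non (nat_lit 1) (nat_lit 5) (nat_lit 0x155151) (nat_lit 0x50004000300060003000000010004000200000002))) (.non (nat_lit 0) (nat_lit 7) (nat_lit 0x151400) (nat_lit 0x30002000100000004000300000000000000000000))) (.non (nat_lit 1) (nat_lit 6) (nat_lit 0x150501) (nat_lit 0x10001000100000000000100010000000000000001))) (.non (nat_lit 1) (nat_lit 5) (nat_lit 0x150101) (nat_lit 0x10001000100000000000000010000000000000001))) (.non (nat_lit 1) (nat_lit 5) (nat_lit 0x155151) (nat_lit 0x50004000300040002000000010006000300000002))) (.non (nat_lit 0) (nat_lit 7) (nat_lit 0x150014) (nat_lit 0x30002000100000000000000000000000400030000))) (.non (nat_lit 2)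 (nat_lit 5) (nat_lit 0x150005) (nat_lit 0x10001000100000000000000000000000000010001))) (.non (nat_lit 1) (nat_lit 5) (nat_lit 0x150001) (nat_lit 0x10001000100000000000000000000000000000001)))) (.non (nat_lit 1) (nat_lit 6) (nat_lit 0x50a01) (nat_lit 0x1000200000000000100020000000000000003))) (.non (nat_lit 2) (nat_lit 5) (nat_lit 0x90105) (nat_lit 0x1000200000000000000010000000000010002)))) (.non (nat_lit 2) (nat_lit 5) (nat_lit 0x55145) (nat_lit 0x2000200020001000000010001000000010002))) (.non (nat_lit 0) (nat_lit 7) (nat_lit 0x41500) (nat_lit 0x1000000000002000200010000000000000000)))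

noncomputable def t742_62 : Tr := (.ex (nat_lit 0xa) (.leaf (.cons (nat_lit 0x5440) (nat_lit 0x10001000100000001000000000000) (.cons (nat_lit 0x4054) (nat_lit 0x10000000000000001000100010000) (.cons (nat_lit 0x11501) (nat_lit 0x100000003000400030000000000000002) (.cons (nat_lit 0x50015) (nat_lit 0x1000200000000000000000000000300040003) .nil)))) (.cons (nat_lit 0x11001100) (nat_lit 0x100010) (nat_lit 0xf) (nat_lit 0x23001000) (.cons (nat_lit 0x11100110011) (nat_lit 0x1000100) (nat_lit 0xd) (nat_lit 0x65400320010) .nil))) (.split (nat_lit 0xb) (nat_lit 0) (.split (nat_lit 0xb) (nat_lit 1) (.split (nat_lit 0xb) (nat_lit 2) (.split (nat_lit 0xb) (nat_lit 3) (.split (nat_lit 0xb) (nat_lit 4) (.split (nat_lit 0xb) (nat_lit 5) (.split (nat_lit 0xb) (nat_lit 6) (.split (nat_lit 0xb) (nat_lit 7) (.split (nat_lit 0xb) (nat_lit 8) (.split (nat_lit 0xb) (nat_lit 9) (.st (nat_lit 0xa) (nat_lit 2) (nat_lit 5) (nat_lit 0x550105) (nat_lit 0x100020002000200000000000000010000000000010002) (nat_lit 1) (nat_lit 1) (.st (nat_lit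 0xb) (nat_lit 2) (nat_lit 6) (nat_lit 0x550505) (nat_lit 0x200030004000500000000000200040000000000030006) (nat_lit 1) (nat_lit 1) (.split (nat_lit 0xb) (nat_lit 0xa) (.leaf (.cons (nat_lit 0x5440) (nat_lit 0x10001000100000001000000000000) (.cons (nat_lit 0x4054) (nat_lit 0x10000000000000001000100010000) (.cons (nat_lit 0x11501) (nat_lit 0x100000003000400030000000000000002) (.cons (nat_lit 0x50015) (nat_lit 0x1000200000000000000000000000300040003) .nil)))) (.cons (nat_lit 0x11001100) (nat_lit 0x100010) (nat_lit 0xf) (nat_lit 0x23001000) (.cons (nat_lit 0x111100110011) (nat_lit 0x1000100) (nat_lit 0xe) (nat_lit 0x765400320010) .nil))) (.non (nat_lit 2) (nat_lit 5) (nat_lit 0x950105) (nat_lit 0x100020002000200000000000000010000000000010002))))) (.non (nat_lit 1) (nat_lit 5) (nat_lit 0x540000) (nat_lit 0x100010001000000000000000000000000000000000000))) (.non (nat_lit 1) (nat_lit 5) (nat_lit 0x550000) (nat_lit 0x100010001000100000000000000000000000000000000))) (.non (nat_lit 1) (nat_lit 5) (nat_lit 0x80a040) (nat_lit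 0x100000000000000020001000000000002000000000000))) (.non (nat_lit 1) (nat_lit 5) (nat_lit 0x80a050) (nat_lit 0x100000000000000030002000000000004000200000000))) (.non (nat_lit 1) (nat_lit 6) (nat_lit 0x550501) (nat_lit 0x100010001000100000000000100010000000000000001))) (.non (nat_lit 1) (nat_lit 5) (nat_lit 0x550101) (nat_lit 0x100010001000100000000000000010000000000000001))) (.non (nat_lit 1) (nat_lit 5) (nat_lit 0x50a040) (nat_lit 0x200010000000000020001000000000003000000000000))) (.non (nat_lit 1) (nat_lit 5) (nat_lit 0x40a050) (nat_lit 0x100000000000000020001000000000003000200000000))) (.non (nat_lit 2) (nat_lit 5) (nat_lit 0x550005) (nat_lit 0x100010001000100000000000000000000000000010001))) (.non (nat_lit 1) (nat_lit 5) (nat_lit 0x550001) (nat_lit 0x100010001000100000000000000000000000000000001))))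

noncomputable def t742_63 : Tr := (.st (nat_lit 8) (nat_lit 2) (nat_lit 5) (nat_lit 0x50105) (nat_lit 0x1000200000000000000010000000000010002) (nat_lit 1) (nat_lit 1) (.split (nat_lit 9) (nat_lit 8) (.split (nat_lit 8) (nat_lit 0) (.split (nat_lit 4) (nat_lit 0) (.split (nat_lit 7) (nat_lit 3) (.ex (nat_lit 9) (.leaf (.cons (nat_lit 0x5440) (nat_lit 0x10001000100000001000000000000) (.cons (nat_lit 0x4054) (nat_lit 0x10000000000000001000100010000) (.cons (nat_lit 0x11501) (nat_lit 0x100000003000400030000000000000002) (.cons (nat_lit 0x50015) (nat_lit 0x1000200000000000000000000000300040003) .nil)))) (.cons (nat_lit 0x1100110011) (nat_lit 0x1000100) (nat_lit 0xc) (nat_lit 0x5400320010) .nil)) (.split (nat_lit 0xa) (nat_lit 0) (.split (nat_lit 0xa) (nat_lit 1) (.split (nat_lit 0xa) (nat_lit 2) (.split (nat_lit 0xa) (nat_lit 3) (.split (nat_lit 0xa) (nat_lit 4) (.split (nat_lit 0xa) (nat_lit 5) (.split (nat_lit 0xa) (nat_lit 6) (.split (nat_lit 0xa) (nat_lit 7) (.split (nat_lit 0xa) (nat_lit 8) (.st (nat_lit 9)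 (nat_lit 2) (nat_lit 5) (nat_lit 0x150105) (nat_lit 0x10002000200000000000000010000000000010002) (nat_lit 1) (nat_lit 1) (.split (nat_lit 0xa) (nat_lit 9) t742_62 (.non (nat_lit 2) (nat_lit 5) (nat_lit 0x250105) (nat_lit 0x10002000200000000000000010000000000010002)))) (.non (nat_lit 1) (nat_lit 5) (nat_lit 0x150000) (nat_lit 0x10001000100000000000000000000000000000000))) (.non (nat_lit 1) (nat_lit 5) (nat_lit 0x20a040) (nat_lit 0x10000000000020001000000000002000000000000))) (.non (nat_lit 1) (nat_lit 5) (nat_lit 0x20a050) (nat_lit 0x10000000000030002000000000004000200000000))) (.non (nat_lit 1) (nat_lit 6) (nat_lit 0x150501) (nat_lit 0x10001000100000000000100010000000000000001))) (.non (nat_lit 1) (nat_lit 5) (nat_lit 0x150101) (nat_lit 0x10001000100000000000000010000000000000001))) (.non (nat_lit 1) (nat_lit 5) (nat_lit 0x14a040) (nat_lit 0x20001000000020001000000000003000000000000))) (.non (nat_lit 1) (nat_lit 5) (nat_lit 0x10a050) (nat_lit 0x10000000000020001000000000003000200000000))) (.non (nat_lit 2)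 (nat_lit 5) (nat_lit 0x150005) (nat_lit 0x10001000100000000000000000000000000010001))) (.non (nat_lit 1) (nat_lit 5) (nat_lit 0x150001) (nat_lit 0x10001000100000000000000000000000000000001)))) (.non (nat_lit 1) (nat_lit 5) (nat_lit 0x5050) (nat_lit 0x20001000000000002000100000000))) (.non (nat_lit 1) (nat_lit 6) (nat_lit 0x50a01) (nat_lit 0x1000200000000000100020000000000000003))) (.non (nat_lit 1) (nat_lit 6) (nat_lit 0xa0501) (nat_lit 0x1000200000000000100020000000000000003))) (.non (nat_lit 2) (nat_lit 5) (nat_lit 0x90105) (nat_lit 0x1000200000000000000010000000000010002))))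

noncomputable def t742_64 : Tr := (.split (nat_lit 7) (nat_lit 3) (.split (nat_lit 8) (nat_lit 0) (.pd (.cons (nat_lit 0) (nat_lit 6) (nat_lit 0) (nat_lit 0x830442110) (nat_lit 0xf423ff423f00000f423fb71aeb71aea2c280473700000) (.cons (nat_lit 2) (nat_lit 4) (nat_lit 0) (nat_lit 0x37603000) (nat_lit 0xf423f437a254591f423f00000174ea00000f423f7a11d) .nil)) (.ex (nat_lit 8) (.pd (.cons (nat_lit 3) (nat_lit 4) (nat_lit 0) (nat_lit 0x65500100) (nat_lit 0xf423ff423fb71ae1f1560000000000f423f5459106711) .nil) (.split (nat_lit 4) (nat_lit 0) (.leaf (.cons (nat_lit 0x5450) (nat_lit 0x30004000300000002000100000000) (.cons (nat_lit 0x5054) (nat_lit 0x20001000000000003000400030000) (.cons (nat_lit 0x11501) (nat_lit 0x100000003000400030000000000000002) (.cons (nat_lit 0x10115) (nat_lit 0x100000000000000010000000200020002) .nil)))) (.cons (nat_lit 0x11001100) (nat_lit 0x100010) (nat_lit 2) (nat_lit 0x23001000) (.cons (nat_lit 0x100110011) (nat_lit 0x1000100) (nat_lit 8) (nat_lit 0x200430010) .nil))) (.non (nat_lit 2) (nat_lit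 5) (nat_lit 0x10205) (nat_lit 0x100000000000000010000000000010002)))) (.split (nat_lit 9) (nat_lit 0) (.split (nat_lit 9) (nat_lit 1) (.split (nat_lit 9) (nat_lit 2) (.split (nat_lit 9) (nat_lit 3) (.split (nat_lit 9) (nat_lit 4) (.split (nat_lit 9) (nat_lit 5) t742_61 (.non (nat_lit 1) (nat_lit 6) (nat_lit 0x50501) (nat_lit 0x1000100000000000100010000000000000001))) (.non (nat_lit 1) (nat_lit 5) (nat_lit 0x50101) (nat_lit 0x1000100000000000000010000000000000001))) (.non (nat_lit 0) (nat_lit 7) (nat_lit 0x50054) (nat_lit 0x2000100000000000000000003000400030000))) (.non (nat_lit 0) (nat_lit 7) (nat_lit 0x40054) (nat_lit 0x1000000000000000000000001000200020000))) (.non (nat_lit 2) (nat_lit 5) (nat_lit 0x50005) (nat_lit 0x1000100000000000000000000000000010001))) (.non (nat_lit 1) (nat_lit 5) (nat_lit 0x50001) (nat_lit 0x1000100000000000000000000000000000001))))) (.non (nat_lit 2) (nat_lit 5) (nat_lit 0x20105) (nat_lit 0x100000000000000010000000000010002))) (.ex (nat_lit 8) (.split (nat_lit 8) (nat_lit 0) (.pd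 (.cons (nat_lit 3) (nat_lit 4) (nat_lit 0) (nat_lit 0x65500100) (nat_lit 0xf423ff423fb71ae1f1560000000000f423f5459106711) .nil) (.split (nat_lit 4) (nat_lit 0) (.split (nat_lit 7) (nat_lit 3) (.leaf (.cons (nat_lit 0x5440) (nat_lit 0x10001000100000001000000000000) (.cons (nat_lit 0x4054) (nat_lit 0x10000000000000001000100010000) (.cons (nat_lit 0x11501) (nat_lit 0x100000003000400030000000000000002) (.cons (nat_lit 0x10115) (nat_lit 0x100000000000000010000000200020002) .nil)))) (.cons (nat_lit 0x11001100) (nat_lit 0x100010) (nat_lit 0xf) (nat_lit 0x23001000) (.cons (nat_lit 0x100110011) (nat_lit 0x1000100) (nat_lit 8) (nat_lit 0x200430010) .nil))) (.non (nat_lit 1) (nat_lit 5) (nat_lit 0x5050) (nat_lit 0x20001000000000002000100000000))) (.non (nat_lit 2) (nat_lit 5) (nat_lit 0x10205) (nat_lit 0x100000000000000010000000000010002)))) (.non (nat_lit 2) (nat_lit 5) (nat_lit 0x20105) (nat_lit 0x100000000000000010000000000010002))) (.split (nat_lit 9) (nat_lit 0) (.split (nat_lit 9) (nat_lit 1) (.split (nat_lit 9)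 (nat_lit 2) (.split (nat_lit 9) (nat_lit 3) (.split (nat_lit 9) (nat_lit 4) (.split (nat_lit 9) (nat_lit 5) (.split (nat_lit 9) (nat_lit 6) (.split (nat_lit 9) (nat_lit 7) t742_63 (.non (nat_lit 1) (nat_lit 5) (nat_lit 0x8a040) (nat_lit 0x1000000020001000000000002000000000000))) (.non (nat_lit 1) (nat_lit 5) (nat_lit 0x8a050) (nat_lit 0x1000000030002000000000004000200000000))) (.non (nat_lit 1) (nat_lit 6) (nat_lit 0x50501) (nat_lit 0x1000100000000000100010000000000000001))) (.non (nat_lit 1) (nat_lit 5) (nat_lit 0x50101) (nat_lit 0x1000100000000000000010000000000000001))) (.non (nat_lit 1) (nat_lit 5) (nat_lit 0x5a040) (nat_lit 0x2000100020001000000000003000000000000))) (.non (nat_lit 1) (nat_lit 5) (nat_lit 0x4a050) (nat_lit 0x1000000020001000000000003000200000000))) (.non (nat_lit 2) (nat_lit 5) (nat_lit 0x50005) (nat_lit 0x1000100000000000000000000000000010001))) (.non (nat_lit 1) (nat_lit 5) (nat_lit 0x50001) (nat_lit 0x1000100000000000000000000000000000001)))))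

noncomputable def t742_65 : Tr := (.ex (nat_lit 9) (.split (nat_lit 8) (nat_lit 0) (.split (nat_lit 9) (nat_lit 7) (.pd (.cons (nat_lit 3) (nat_lit 4) (nat_lit 0) (nat_lit 0x7065500100) (nat_lit 0xf423ff423fb71aea2c28047370000000000f423f5459106711) .nil) (.split (nat_lit 4) (nat_lit 0) (.split (nat_lit 7) (nat_lit 3) (.leaf (.cons (nat_lit 0x45440) (nat_lit 0x1000000020002000200000001000000000000) (.cons (nat_lit 0x44054) (nat_lit 0x1000000020000000000000003000400030000) (.cons (nat_lit 0x11501) (nat_lit 0x100000003000400030000000000000002) (.cons (nat_lit 0x10115) (nat_lit 0x100000000000000010000000200020002) .nil)))) (.cons (nat_lit 0x1011001100) (nat_lit 0x100010) (nat_lit 8) (nat_lit 0x2001003400) (.cons (nat_lit 0x100110011) (nat_lit 0x1000100) (nat_lit 8) (nat_lit 0x200430010) .nil))) (.non (nat_lit 1) (nat_lit 5) (nat_lit 0x8a040) (nat_lit 0x1000000020001000000000002000000000000))) (.non (nat_lit 2) (nat_lit 5) (nat_lit 0x10205) (nat_lit 0x100000000000000010000000000010002)))) (.non (nat_lit 1) (nat_lit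 5) (nat_lit 0x85040) (nat_lit 0x1000000020001000000000001000000000000))) (.non (nat_lit 2) (nat_lit 5) (nat_lit 0x20105) (nat_lit 0x100000000000000010000000000010002))) (.split (nat_lit 0xa) (nat_lit 0) (.split (nat_lit 0xa) (nat_lit 1) (.split (nat_lit 0xa) (nat_lit 2) (.split (nat_lit 0xa) (nat_lit 3) (.split (nat_lit 0xa) (nat_lit 4) (.split (nat_lit 0xa) (nat_lit 5) (.split (nat_lit 0xa) (nat_lit 6) (.split (nat_lit 0xa) (nat_lit 7) (.split (nat_lit 0xa) (nat_lit 8) (.sup (nat_lit 0x70000000000000001000000100014000e) (nat_lit 0x5000a0000000f0014000f00000000000000000000)) (.non (nat_lit 1) (nat_lit 5) (nat_lit 0x155151) (nat_lit 0x40005000300060003000000010004000200000002))) (.non (nat_lit 1) (nat_lit 5) (nat_lit 0x144000) (nat_lit 0x10001000000010000000000000000000000000000))) (.non (nat_lit 1) (nat_lit 5) (nat_lit 0x145000) (nat_lit 0x10001000000010001000000000000000000000000))) (.non (nat_lit 0) (nat_lit 7) (nat_lit 0x101500) (nat_lit 0x10000000000000002000200010000000000000000))) (.non (nat_lit 1) (nat_lit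 5) (nat_lit 0x155151) (nat_lit 0x40005000100060003000000030004000200000002))) (.non (nat_lit 1) (nat_lit 5) (nat_lit 0x144040) (nat_lit 0x10001000000010000000000000001000000000000))) (.non (nat_lit 1) (nat_lit 5) (nat_lit 0x144050) (nat_lit 0x10001000000010000000000000001000100000000))) (.non (nat_lit 2) (nat_lit 5) (nat_lit 0x155145) (nat_lit 0x20002000100020001000000010001000000020002))) (.non (nat_lit 1) (nat_lit 5) (nat_lit 0x155141) (nat_lit 0x20002000100020001000000010001000000000002))))

noncomputable def t742_66 : Tr := (.split (nat_lit 9) (nat_lit 0) (.split (nat_lit 9) (nat_lit 1) (.split (nat_lit 9) (nat_lit 2) (.split (nat_lit 9) (nat_lit 3) (.split (nat_lit 9) (nat_lit 4) (.split (nat_lit 9) (nat_lit 5) (.split (nat_lit 9) (nat_lit 6) (.split (nat_lit 9) (nat_lit 8) (.st (nat_lit 7) (nat_lit 1) (nat_lit 5) (nat_lit 0x45040) (nat_lit 0x1000000020001000000000001000000000000) (nat_lit 1) (nat_lit 1) (.ex (nat_lit 8) t742_65 (.split (nat_lit 0xa) (nat_lit 0) (.split (nat_lit 0xa) (nat_lit 1) (.split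 (nat_lit 0xa) (nat_lit 2) (.split (nat_lit 0xa) (nat_lit 3) (.split (nat_lit 0xa) (nat_lit 4) (.split (nat_lit 0xa) (nat_lit 5) (.split (nat_lit 0xa) (nat_lit 6) (.split (nat_lit 0xa) (nat_lit 7) (.split (nat_lit 0xa) (nat_lit 9) (.sup (nat_lit 0x50000000a00000000000000000000000f0014000f) (nat_lit 0x70000000e0014001000000001000000000000)) (.non (nat_lit 1) (nat_lit 5) (nat_lit 0x155151) (nat_lit 0x40005000300060003000000010004000200000002))) (.non (nat_lit 1) (nat_lit 5) (nat_lit 0x145040) (nat_lit 0x10001000000020001000000000001000000000000))) (.non (nat_lit 1) (nat_lit 5) (nat_lit 0x155151) (nat_lit 0x40003000300060005000000010004000200000002))) (.non (nat_lit 1) (nat_lit 6) (nat_lit 0x110501) (nat_lit 0x10000000100000000000100010000000000000001))) (.non (nat_lit 1) (nat_lit 5) (nat_lit 0x110101) (nat_lit 0x10000000100000000000000010000000000000001))) (.non (nat_lit 1) (nat_lit 5) (nat_lit 0x145050) (nat_lit 0x10001000000020001000000000002000100000000))) (.non (nat_lit 0) (nat_lit 7) (nat_lit 0x100054) (nat_lit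 0x10000000000000000000000000001000200020000))) (.non (nat_lit 2) (nat_lit 5) (nat_lit 0x110005) (nat_lit 0x10000000100000000000000000000000000010001))) (.non (nat_lit 1) (nat_lit 5) (nat_lit 0x110001) (nat_lit 0x10000000100000000000000000000000000000001))))) (.non (nat_lit 2) (nat_lit 5) (nat_lit 0x55145) (nat_lit 0x2000200020001000000010001000000010002))) (.non (nat_lit 1) (nat_lit 5) (nat_lit 0x45000) (nat_lit 0x1000000010001000000000000000000000000))) (.non (nat_lit 0) (nat_lit 7) (nat_lit 0x41500) (nat_lit 0x1000000000002000200010000000000000000))) (.non (nat_lit 2) (nat_lit 5) (nat_lit 0x55145) (nat_lit 0x2000100020001000000020001000000010002))) (.non (nat_lit 1) (nat_lit 5) (nat_lit 0x44040) (nat_lit 0x1000000010000000000000001000000000000))) (.non (nat_lit 1) (nat_lit 5) (nat_lit 0x44050) (nat_lit 0x1000000010000000000000001000100000000))) (.non (nat_lit 2) (nat_lit 5) (nat_lit 0x55145) (nat_lit 0x2000100020001000000010001000000020002))) (.non (nat_lit 1) (nat_lit 5) (nat_lit 0x55141) (nat_lit 0x2000100020001000000010001000000000002)))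

noncomputable def t742_67 : Tr := (.ex (nat_lit 5) (.ex (nat_lit 6) (.pd (.cons (nat_lit 0) (nat_lit 7) (nat_lit 0) (nat_lit 0x805442110) (nat_lit 0xf423f00000f423f54591437a2f423fb71ae1f15600000) .nil) (.ex (nat_lit 7) t742_64 t742_66)) (.split (nat_lit 9) (nat_lit 0) (.split (nat_lit 9) (nat_lit 1) (.split (nat_lit 9) (nat_lit 2) (.split (nat_lit 9) (nat_lit 3) (.split (nat_lit 9) (nat_lit 4) (.split (nat_lit 9) (nat_lit 7) (.split (nat_lit 9) (nat_lit 5) (.split (nat_lit 9) (nat_lit 8) (.sup (nat_lit 0x20009000a0005) (nat_lit 0x500000002000a000800000000000000000000)) (.sup (nat_lit 0x20009000a0005) (nat_lit 0x500000002000a000800000000000000000000))) (.split (nat_lit 9) (nat_lit 8) (.unj (nat_lit 0x41400) (nat_lit 0x1000000000001000100000000000000000000) (nat_lit 0x55) (nat_lit 0x1000200020001)) (.non (nat_lit 1) (nat_lit 6) (nat_lit 0x50501) (nat_lit 0x1000100000000000100010000000000000001)))) (.non (nat_lit 1) (nat_lit 5) (nat_lit 0x45000) (nat_lit 0x1000000010001000000000000000000000000))) (.non (nat_lit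 2) (nat_lit 6) (nat_lit 0x50505) (nat_lit 0x1000100000000000100020000000000010002))) (.non (nat_lit 1) (nat_lit 5) (nat_lit 0x45040) (nat_lit 0x1000000010001000000000001000000000000))) (.star (nat_lit 9) (nat_lit 2) (nat_lit 6))) (.star (nat_lit 9) (nat_lit 1) (nat_lit 6))) (.non (nat_lit 2) (nat_lit 5) (nat_lit 0x50105) (nat_lit 0x1000100000000000000010000000000010002)))) (.split (nat_lit 9) (nat_lit 0) (.split (nat_lit 9) (nat_lit 1) (.split (nat_lit 9) (nat_lit 2) (.split (nat_lit 9) (nat_lit 4) (.split (nat_lit 9) (nat_lit 8) (.split (nat_lit 9) (nat_lit 3) (.split (nat_lit 9) (nat_lit 6) (.split (nat_lit 9) (nat_lit 7) (.sup (nat_lit 0x5000a00090002) (nat_lit 0x5000000000008000a00020000000000000000)) (.sup (nat_lit 0x5000a00090002) (nat_lit 0x5000000000008000a00020000000000000000))) (.split (nat_lit 9) (nat_lit 7) (.unj (nat_lit 0x41400) (nat_lit 0x1000000000001000100000000000000000000) (nat_lit 0x55) (nat_lit 0x1000200020001)) (.non (nat_lit 1) (nat_lit 5) (nat_lit 0x45000) (nat_lit 0x1000000010001000000000000000000000000))))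 (.split (nat_lit 9) (nat_lit 6) (.split (nat_lit 9) (nat_lit 7) (.sup (nat_lit 0x500000005000a000900000000000000000000) (nat_lit 0x3000000000000000100000008000a0007)) (.non (nat_lit 1) (nat_lit 5) (nat_lit 0x44040) (nat_lit 0x1000000010000000000000001000000000000))) (.non (nat_lit 1) (nat_lit 5) (nat_lit 0x45040) (nat_lit 0x1000000010001000000000001000000000000)))) (.non (nat_lit 1) (nat_lit 6) (nat_lit 0x50501) (nat_lit 0x1000100000000000100010000000000000001))) (.non (nat_lit 1) (nat_lit 6) (nat_lit 0x40500) (nat_lit 0x1000000000000000100010000000000000000))) (.star (nat_lit 9) (nat_lit 2) (nat_lit 5))) (.star (nat_lit 9) (nat_lit 1) (nat_lit 5))) (.non (nat_lit 1) (nat_lit 6) (nat_lit 0x40501) (nat_lit 0x1000000000000000100010000000000000001))))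

noncomputable def t742_68 : Tr := (.split (nat_lit 0xc) (nat_lit 0) (.split (nat_lit 0xc) (nat_lit 1) (.split (nat_lit 0xc) (nat_lit 2) (.split (nat_lit 0xc) (nat_lit 3) (.split (nat_lit 0xc) (nat_lit 4) (.split (nat_lit 0xc) (nat_lit 5) (.split (nat_lit 0xc) (nat_lit 6) (.split (nat_lit 0xc) (nat_lit 7) (.split (nat_lit 0xc) (nat_lit 8) (.split (nat_lit 0xc) (nat_lit 9) (.split (nat_lit 0xc) (nat_lit 0xa) (.st (nat_lit 0xb) (nat_lit 1) (nat_lit 5) (nat_lit 0x1544050) (nat_lit 0x1000200020002000000010000000000000002000100000000) (nat_lit 1) (nat_lit 1) (.st (nat_lit 0xc) (nat_lit 1) (nat_lit 5) (nat_lit 0x1545050) (nat_lit 0x2000300040005000000040002000000000006000300000000) (nat_lit 1) (nat_lit 1) (.split (nat_lit 0xc) (nat_lit 0xb) (.leaf (.cons (nat_lit 0x45440) (nat_lit 0x1000000030004000300000002000000000000) (.cons (nat_lit 0x140054) (nat_lit 0x10002000000000000000000000003000400030000) (.cons (nat_lit 0x11501) (nat_lit 0x100000003000400030000000000000002) (.cons (nat_lit 0x10115) (nat_lit 0x100000000000000010000000200020002)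 .nil)))) (.cons (nat_lit 0x1111011001100) (nat_lit 0x100010) (nat_lit 0xe) (nat_lit 0x7654023000100) (.cons (nat_lit 0x100110011) (nat_lit 0x1000100) (nat_lit 8) (nat_lit 0x200430010) .nil))) (.non (nat_lit 1) (nat_lit 5) (nat_lit 0x2544050) (nat_lit 0x1000200020002000000010000000000000002000100000000))))) (.non (nat_lit 1) (nat_lit 5) (nat_lit 0x1500000) (nat_lit 0x1000100010000000000000000000000000000000000000000))) (.non (nat_lit 1) (nat_lit 5) (nat_lit 0x1540000) (nat_lit 0x1000100010001000000000000000000000000000000000000))) (.non (nat_lit 1) (nat_lit 5) (nat_lit 0x1555050) (nat_lit 0x2000300040005000100040002000000000006000300000000))) (.non (nat_lit 1) (nat_lit 5) (nat_lit 0x1544040) (nat_lit 0x1000100010001000000010000000000000001000000000000))) (.non (nat_lit 1) (nat_lit 5) (nat_lit 0x1545040) (nat_lit 0x1000100010001000000010001000000000001000000000000))) (.non (nat_lit 3) (nat_lit 4) (nat_lit 0x1501400) (nat_lit 0x3000200010000000000000003000400000000000000000000))) (.non (nat_lit 1) (nat_lit 5)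 (nat_lit 0x1545150) (nat_lit 0x2000300040005000000040002000000010006000300000000))) (.non (nat_lit 1) (nat_lit 5) (nat_lit 0x1540040) (nat_lit 0x1000100010001000000000000000000000001000000000000))) (.non (nat_lit 1) (nat_lit 5) (nat_lit 0x1540050) (nat_lit 0x1000100010001000000000000000000000001000100000000))) (.non (nat_lit 2) (nat_lit 6) (nat_lit 0x1550505) (nat_lit 0x4000300020001000300000000000200040000000000050006))) (.non (nat_lit 1) (nat_lit 5) (nat_lit 0x1545051) (nat_lit 0x2000300040005000000040002000000000006000300000001)))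

noncomputable def t742_69 : Tr := (.ex (nat_lit 0xa) (.leaf (.cons (nat_lit 0x45440) (nat_lit 0x1000000030004000300000002000000000000) (.cons (nat_lit 0x140054) (nat_lit 0x10002000000000000000000000003000400030000) (.cons (nat_lit 0x11501) (nat_lit 0x100000003000400030000000000000002) (.cons (nat_lit 0x10115) (nat_lit 0x100000000000000010000000200020002) .nil)))) (.cons (nat_lit 0x11011001100) (nat_lit 0x100010) (nat_lit 0xc) (nat_lit 0x54023000100) .nil)) (.split (nat_lit 0xb) (nat_lit 0) (.split (nat_lit 0xb) (nat_lit 1) (.split (nat_lit 0xb) (nat_lit 2) (.split (nat_lit 0xb) (nat_lit 3) (.split (nat_lit 0xb) (nat_lit 4) (.split (nat_lit 0xb) (nat_lit 5) (.split (nat_lit 0xb) (nat_lit 6) (.split (nat_lit 0xb) (nat_lit 7) (.split (nat_lit 0xb) (nat_lit 8) (.split (nat_lit 0xb) (nat_lit 9) (.st (nat_lit 0xa) (nat_lit 1) (nat_lit 5) (nat_lit 0x544050) (nat_lit 0x100020002000000010000000000000002000100000000) (nat_lit 1) (nat_lit 1) (.split (nat_lit 0xb) (nat_lit 0xa) (.ex (nat_lit 0xb) (.leaf (.cons (nat_lit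 0x45440) (nat_lit 0x1000000030004000300000002000000000000) (.cons (nat_lit 0x140054) (nat_lit 0x10002000000000000000000000003000400030000) (.cons (nat_lit 0x11501) (nat_lit 0x100000003000400030000000000000002) (.cons (nat_lit 0x10115) (nat_lit 0x100000000000000010000000200020002) .nil)))) (.cons (nat_lit 0x111011001100) (nat_lit 0x100010) (nat_lit 0xd) (nat_lit 0x654023000100) (.cons (nat_lit 0x100110011) (nat_lit 0x1000100) (nat_lit 8) (nat_lit 0x200430010) .nil))) t742_68) (.non (nat_lit 1) (nat_lit 5) (nat_lit 0x944050) (nat_lit 0x100020002000000010000000000000002000100000000)))) (.non (nat_lit 1) (nat_lit 5) (nat_lit 0x540000) (nat_lit 0x100010001000000000000000000000000000000000000))) (.non (nat_lit 1) (nat_lit 5) (nat_lit 0x555051) (nat_lit 0x300040005000200040002000000000006000300000001))) (.non (nat_lit 1) (nat_lit 5) (nat_lit 0x544040) (nat_lit 0x100010001000000010000000000000001000000000000))) (.non (nat_lit 1) (nat_lit 5) (nat_lit 0x545040) (nat_lit 0x100010001000000010001000000000001000000000000)))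 (.non (nat_lit 3) (nat_lit 4) (nat_lit 0x541400) (nat_lit 0x300020001000000000003000400000000000000000000))) (.non (nat_lit 1) (nat_lit 5) (nat_lit 0x545151) (nat_lit 0x300040005000000040002000000020006000300000001))) (.non (nat_lit 1) (nat_lit 5) (nat_lit 0x540040) (nat_lit 0x100010001000000000000000000000001000000000000))) (.non (nat_lit 1) (nat_lit 5) (nat_lit 0x540050) (nat_lit 0x100010001000000000000000000000001000100000000))) (.non (nat_lit 2) (nat_lit 6) (nat_lit 0x550545) (nat_lit 0x400030002000300000000000200040001000000050006))) (.non (nat_lit 1) (nat_lit 5) (nat_lit 0x555051) (nat_lit 0x300040005000100040002000000000006000300000002))))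

noncomputable def t742_70 : Tr := (.ex (nat_lit 9) (.split (nat_lit 9) (nat_lit 3) (.pd (.cons (nat_lit 0) (nat_lit 7) (nat_lit 0) (nat_lit 0x3805442110) (nat_lit 0xf423ff423f00000f423f54591437a2b71aea2c280473700000) .nil) (.split (nat_lit 4) (nat_lit 0) (.split (nat_lit 7) (nat_lit 3) (.leaf (.cons (nat_lit 0x45440) (nat_lit 0x1000000030004000300000002000000000000) (.cons (nat_lit 0x44054) (nat_lit 0x1000000010000000000000002000200020000) (.cons (nat_lit 0x11501) (nat_lit 0x100000003000400030000000000000002) (.cons (nat_lit 0x10115) (nat_lit 0x100000000000000010000000200020002) .nil)))) (.cons (nat_lit 0x1011001100) (nat_lit 0x100010) (nat_lit 8) (nat_lit 0x2034000100) (.cons (nat_lit 0x100110011) (nat_lit 0x1000100) (nat_lit 8) (nat_lit 0x200430010) .nil))) (.non (nat_lit 1) (nat_lit 5) (nat_lit 0x48050) (nat_lit 0x1000000010000000000000002000100000000))) (.non (nat_lit 2) (nat_lit 5) (nat_lit 0x10205) (nat_lit 0x100000000000000010000000000010002)))) (.non (nat_lit 1) (nat_lit 5) (nat_lit 0x84050) (nat_lit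 0x1000000010000000000000002000100000000))) (.split (nat_lit 0xa) (nat_lit 0) (.split (nat_lit 0xa) (nat_lit 1) (.split (nat_lit 0xa) (nat_lit 2) (.split (nat_lit 0xa) (nat_lit 3) (.split (nat_lit 0xa) (nat_lit 4) (.split (nat_lit 0xa) (nat_lit 5) (.split (nat_lit 0xa) (nat_lit 6) (.split (nat_lit 0xa) (nat_lit 7) (.split (nat_lit 0xa) (nat_lit 8) (.st (nat_lit 9) (nat_lit 1) (nat_lit 5) (nat_lit 0x144050) (nat_lit 0x10002000000010000000000000002000100000000) (nat_lit 1) (nat_lit 1) (.split (nat_lit 4) (nat_lit 0) (.split (nat_lit 0xa) (nat_lit 9) (.split (nat_lit 9) (nat_lit 3) (.split (nat_lit 7) (nat_lit 3) t742_69 (.non (nat_lit 1) (nat_lit 5) (nat_lit 0x14a040) (nat_lit 0x10002000000020001000000000003000000000000))) (.non (nat_lit 1) (nat_lit 5) (nat_lit 0x285040) (nat_lit 0x10002000000020001000000000003000000000000))) (.non (nat_lit 1) (nat_lit 5) (nat_lit 0x244050) (nat_lit 0x10002000000010000000000000002000100000000))) (.non (nat_lit 2) (nat_lit 5) (nat_lit 0x10205) (nat_lit 0x100000000000000010000000000010002))))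 (.non (nat_lit 1) (nat_lit 5) (nat_lit 0x155151) (nat_lit 0x40005000300040002000000010006000300000002))) (.non (nat_lit 1) (nat_lit 5) (nat_lit 0x144040) (nat_lit 0x10001000000010000000000000001000000000000))) (.non (nat_lit 1) (nat_lit 5) (nat_lit 0x145040) (nat_lit 0x10001000000010001000000000001000000000000))) (.non (nat_lit 3) (nat_lit 4) (nat_lit 0x105400) (nat_lit 0x10000000000010002000200000000000000000000))) (.non (nat_lit 1) (nat_lit 5) (nat_lit 0x155151) (nat_lit 0x40005000100040002000000030006000300000002))) (.non (nat_lit 1) (nat_lit 5) (nat_lit 0x140040) (nat_lit 0x10001000000000000000000000001000000000000))) (.non (nat_lit 1) (nat_lit 5) (nat_lit 0x140050) (nat_lit 0x10001000000000000000000000001000100000000))) (.non (nat_lit 2) (nat_lit 6) (nat_lit 0x154545) (nat_lit 0x40003000300010000000200040002000000050006))) (.non (nat_lit 1) (nat_lit 5) (nat_lit 0x154151) (nat_lit 0x20002000100010000000000010002000100000002))))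

noncomputable def t742_71 : Tr := (.split (nat_lit 0xc) (nat_lit 0) (.split (nat_lit 0xc) (nat_lit 1) (.split (nat_lit 0xc) (nat_lit 2) (.split (nat_lit 0xc) (nat_lit 3) (.split (nat_lit 0xc) (nat_lit 4) (.split (nat_lit 0xc) (nat_lit 5) (.split (nat_lit 0xc) (nat_lit 6) (.split (nat_lit 0xc) (nat_lit 7) (.split (nat_lit 0xc) (nat_lit 8) (.split (nat_lit 0xc) (nat_lit 9) (.split (nat_lit 0xc) (nat_lit 0xa) (.st (nat_lit 0xb) (nat_lit 2) (nat_lit 5) (nat_lit 0x1510105) (nat_lit 0x1000200020000000200000000000000010000000000010002) (nat_lit 1) (nat_lit 1) (.st (nat_lit 0xc) (nat_lit 2) (nat_lit 6) (nat_lit 0x1510505) (nat_lit 0x2000300040000000500000000000200040000000000030006) (nat_lit 1) (nat_lit 1) (.split (nat_lit 0xc) (nat_lit 0xb) (.leaf (.cons (nat_lit 0x45440) (nat_lit 0x1000000030004000300000002000000000000) (.cons (nat_lit 0x44054) (nat_lit 0x1000000010000000000000002000200020000) (.cons (nat_lit 0x11501) (nat_lit 0x100000003000400030000000000000002) (.cons (nat_lit 0x110015) (nat_lit 0x10000000200000000000000000000000300040003)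 .nil)))) (.cons (nat_lit 0x1011001100) (nat_lit 0x100010) (nat_lit 8) (nat_lit 0x2034000100) (.cons (nat_lit 0x1110100110011) (nat_lit 0x1000100) (nat_lit 0xe) (nat_lit 0x7650400320010) .nil))) (.non (nat_lit 2) (nat_lit 5) (nat_lit 0x2510105) (nat_lit 0x1000200020000000200000000000000010000000000010002))))) (.non (nat_lit 1) (nat_lit 5) (nat_lit 0x1500000) (nat_lit 0x1000100010000000000000000000000000000000000000000))) (.non (nat_lit 1) (nat_lit 5) (nat_lit 0x1555050) (nat_lit 0x4000300020005000100040002000000000006000300000000))) (.non (nat_lit 1) (nat_lit 5) (nat_lit 0x1510000) (nat_lit 0x1000100010000000100000000000000000000000000000000))) (.non (nat_lit 1) (nat_lit 5) (nat_lit 0x1045050) (nat_lit 0x1000000000001000000020001000000000002000100000000))) (.non (nat_lit 0) (nat_lit 7) (nat_lit 0x1501400) (nat_lit 0x3000200010000000000000004000300000000000000000000))) (.non (nat_lit 1) (nat_lit 6) (nat_lit 0x1510501) (nat_lit 0x1000100010000000100000000000100010000000000000001))) (.non (nat_lit 1) (nat_lit 5)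 (nat_lit 0x1510101) (nat_lit 0x1000100010000000100000000000000010000000000000001))) (.non (nat_lit 1) (nat_lit 5) (nat_lit 0x1044050) (nat_lit 0x1000000000001000000010000000000000002000100000000))) (.non (nat_lit 1) (nat_lit 5) (nat_lit 0x1555050) (nat_lit 0x4000300020003000100040002000000000006000500000000))) (.non (nat_lit 2) (nat_lit 5) (nat_lit 0x1510005) (nat_lit 0x1000100010000000100000000000000000000000000010001))) (.non (nat_lit 1) (nat_lit 5) (nat_lit 0x1510001) (nat_lit 0x1000100010000000100000000000000000000000000000001)))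

noncomputable def t742_72 : Tr := (.ex (nat_lit 0xa) (.leaf (.cons (nat_lit 0x45440) (nat_lit 0x1000000030004000300000002000000000000) (.cons (nat_lit 0x44054) (nat_lit 0x1000000010000000000000002000200020000) (.cons (nat_lit 0x11501) (nat_lit 0x100000003000400030000000000000002) (.cons (nat_lit 0x110015) (nat_lit 0x10000000200000000000000000000000300040003) .nil)))) (.cons (nat_lit 0x10100110011) (nat_lit 0x1000100) (nat_lit 0xc) (nat_lit 0x50400320010) .nil)) (.split (nat_lit 0xb) (nat_lit 0) (.split (nat_lit 0xb) (nat_lit 1) (.split (nat_lit 0xb) (nat_lit 2) (.split (nat_lit 0xb) (nat_lit 3) (.split (nat_lit 0xb) (nat_lit 4) (.split (nat_lit 0xb) (nat_lit 5) (.split (nat_lit 0xb) (nat_lit 6) (.split (nat_lit 0xb) (nat_lit 7) (.split (nat_lit 0xb) (nat_lit 8) (.split (nat_lit 0xb) (nat_lit 9) (.st (nat_lit 0xa) (nat_lit 2) (nat_lit 5) (nat_lit 0x510105) (nat_lit 0x100020000000200000000000000010000000000010002) (nat_lit 1) (nat_lit 1) (.split (nat_lit 0xb) (nat_lit 0xa) (.ex (nat_lit 0xb) (.leaf (.cons (nat_lit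 0x45440) (nat_lit 0x1000000030004000300000002000000000000) (.cons (nat_lit 0x44054) (nat_lit 0x1000000010000000000000002000200020000) (.cons (nat_lit 0x11501) (nat_lit 0x100000003000400030000000000000002) (.cons (nat_lit 0x110015) (nat_lit 0x10000000200000000000000000000000300040003) .nil)))) (.cons (nat_lit 0x1011001100) (nat_lit 0x100010) (nat_lit 8) (nat_lit 0x2034000100) (.cons (nat_lit 0x110100110011) (nat_lit 0x1000100) (nat_lit 0xd) (nat_lit 0x650400320010) .nil))) t742_71) (.non (nat_lit 2) (nat_lit 5) (nat_lit 0x910105) (nat_lit 0x100020000000200000000000000010000000000010002)))) (.non (nat_lit 1) (nat_lit 5) (nat_lit 0x555051) (nat_lit 0x400030005000200040002000000000006000300000001))) (.non (nat_lit 1) (nat_lit 5) (nat_lit 0x510000) (nat_lit 0x100010000000100000000000000000000000000000000))) (.non (nat_lit 1) (nat_lit 5) (nat_lit 0x445050) (nat_lit 0x100000001000000020001000000000002000100000000))) (.non (nat_lit 0) (nat_lit 7) (nat_lit 0x511400) (nat_lit 0x300020000000100000004000300000000000000000000)))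 (.non (nat_lit 1) (nat_lit 6) (nat_lit 0x510501) (nat_lit 0x100010000000100000000000100010000000000000001))) (.non (nat_lit 1) (nat_lit 5) (nat_lit 0x510101) (nat_lit 0x100010000000100000000000000010000000000000001))) (.non (nat_lit 1) (nat_lit 5) (nat_lit 0x444050) (nat_lit 0x100000001000000010000000000000002000100000000))) (.non (nat_lit 1) (nat_lit 5) (nat_lit 0x555051) (nat_lit 0x400030003000200040002000000000006000500000001))) (.non (nat_lit 2) (nat_lit 5) (nat_lit 0x510005) (nat_lit 0x100010000000100000000000000000000000000010001))) (.non (nat_lit 1) (nat_lit 5) (nat_lit 0x510001) (nat_lit 0x100010000000100000000000000000000000000000001))))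

noncomputable def t742_73 : Tr := (.split (nat_lit 0xe) (nat_lit 3) (.split (nat_lit 0xe) (nat_lit 4) (.split (nat_lit 0xe) (nat_lit 5) (.split (nat_lit 0xe) (nat_lit 6) (.split (nat_lit 0xe) (nat_lit 7) (.split (nat_lit 0xe) (nat_lit 8) (.split (nat_lit 0xe) (nat_lit 9) (.split (nat_lit 0xe) (nat_lit 0xa) (.split (nat_lit 0xe) (nat_lit 0xb) (.split (nat_lit 0xe) (nat_lit 0xc) (.st (nat_lit 0xd) (nat_lit 1) (nat_lit 5) (nat_lit 0x14444050) (nat_lit 0x100020000000200000002000000010000000000000002000100000000) (nat_lit 1) (nat_lit 1) (.st (nat_lit 0xe) (nat_lit 1) (nat_lit 5) (nat_lit 0x14445050) (nat_lit 0x200030000000400000005000000040002000000000006000300000000) (nat_lit 1) (nat_lit 1) (.split (nat_lit 0xe) (nat_lit 0xd) (.leaf (.cons (nat_lit 0x45440) (nat_lit 0x1000000030004000300000002000000000000) (.cons (nat_lit 0x440054) (nat_lit 0x100000002000000000000000000000003000400030000) (.cons (nat_lit 0x11501) (nat_lit 0x100000003000400030000000000000002) (.cons (nat_lit 0x110015) (nat_lit 0x10000000200000000000000000000000300040003)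 .nil)))) (.cons (nat_lit 0x110101011001100) (nat_lit 0x100010) (nat_lit 0xe) (nat_lit 0x760504023000100) (.cons (nat_lit 0x1010100110011) (nat_lit 0x1000100) (nat_lit 0xd) (nat_lit 0x6050400320010) .nil))) (.non (nat_lit 1) (nat_lit 5) (nat_lit 0x24444050) (nat_lit 0x100020000000200000002000000010000000000000002000100000000))))) (.non (nat_lit 1) (nat_lit 5) (nat_lit 0x15445050) (nat_lit 0x200030001000400000005000000040002000000000006000300000000))) (.non (nat_lit 1) (nat_lit 5) (nat_lit 0x14400000) (nat_lit 0x100010000000100000000000000000000000000000000000000000000))) (.non (nat_lit 1) (nat_lit 5) (nat_lit 0x15554050) (nat_lit 0x200020001000200020002000100010000000000000002000100000000))) (.non (nat_lit 1) (nat_lit 5) (nat_lit 0x14440000) (nat_lit 0x100010000000100000001000000000000000000000000000000000000))) (.non (nat_lit 1) (nat_lit 5) (nat_lit 0x14455050) (nat_lit 0x200030000000400000005000100040002000000000006000300000000))) (.non (nat_lit 1) (nat_lit 5) (nat_lit 0x14444040) (nat_lit 0x100010000000100000001000000010000000000000001000000000000)))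 (.non (nat_lit 1) (nat_lit 5) (nat_lit 0x14445040) (nat_lit 0x100010000000100000001000000010001000000000001000000000000))) (.non (nat_lit 2) (nat_lit 6) (nat_lit 0x11110505) (nat_lit 0x100000001000000020000000300000000000200030000000000020004))) (.non (nat_lit 1) (nat_lit 5) (nat_lit 0x14445150) (nat_lit 0x200030000000400000005000000040002000000010006000300000000))) (.non (nat_lit 1) (nat_lit 5) (nat_lit 0x14440040) (nat_lit 0x100010000000100000001000000000000000000000001000000000000)))

noncomputable def t742_74 : Tr := (.split (nat_lit 0xf) (nat_lit 4) (.split (nat_lit 0xf) (nat_lit 5) (.split (nat_lit 0xf) (nat_lit 6) (.split (nat_lit 0xf) (nat_lit 7) (.split (nat_lit 0xf) (nat_lit 8) (.split (nat_lit 0xf) (nat_lit 9) (.split (nat_lit 0xf) (nat_lit 0xa) (.split (nat_lit 0xf) (nat_lit 0xb) (.split (nat_lit 0xf) (nat_lit 0xc) (.split (nat_lit 0xf) (nat_lit 0xe) (.st (nat_lit 0xd) (nat_lit 1) (nat_lit 5) (nat_lit 0x44444050) (nat_lit 0x1000000020000000200000002000000010000000000000002000100000000) (nat_lit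 1) (nat_lit 1) (.st (nat_lit 0xf) (nat_lit 1) (nat_lit 5) (nat_lit 0x44445050) (nat_lit 0x2000000030000000400000005000000040002000000000006000300000000) (nat_lit 1) (nat_lit 1) (.split (nat_lit 0xf) (nat_lit 0xd) (.leaf (.cons (nat_lit 0x45440) (nat_lit 0x1000000030004000300000002000000000000) (.cons (nat_lit 0x440054) (nat_lit 0x100000002000000000000000000000003000400030000) (.cons (nat_lit 0x11501) (nat_lit 0x100000003000400030000000000000002) (.cons (nat_lit 0x110015) (nat_lit 0x10000000200000000000000000000000300040003) .nil)))) (.cons (nat_lit 0x1010101011001100) (nat_lit 0x100010) (nat_lit 0xe) (nat_lit 0x7060504023000100) (.cons (nat_lit 0x101010100110011) (nat_lit 0x1000100) (nat_lit 0xe) (nat_lit 0x706050400320010) .nil))) (.non (nat_lit 1) (nat_lit 5) (nat_lit 0x84444050) (nat_lit 0x1000000020000000200000002000000010000000000000002000100000000))))) (.non (nat_lit 1) (nat_lit 5) (nat_lit 0x54445050) (nat_lit 0x2000100030000000400000005000000040002000000000006000300000000))) (.non (nat_lit 1) (nat_lit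 5) (nat_lit 0x55550040) (nat_lit 0x5000300040006000300040002000200000000000000000001000000000000))) (.non (nat_lit 1) (nat_lit 5) (nat_lit 0x44400000) (nat_lit 0x1000000010000000100000000000000000000000000000000000000000000))) (.non (nat_lit 1) (nat_lit 5) (nat_lit 0x55550040) (nat_lit 0x5000200040004000300060002000300000000000000000001000000000000))) (.non (nat_lit 1) (nat_lit 5) (nat_lit 0x44440000) (nat_lit 0x1000000010000000100000001000000000000000000000000000000000000))) (.non (nat_lit 1) (nat_lit 5) (nat_lit 0x44455050) (nat_lit 0x2000000030000000400000005000100040002000000000006000300000000))) (.non (nat_lit 1) (nat_lit 5) (nat_lit 0x44444040) (nat_lit 0x1000000010000000100000001000000010000000000000001000000000000))) (.non (nat_lit 1) (nat_lit 5) (nat_lit 0x44445040) (nat_lit 0x1000000010000000100000001000000010001000000000001000000000000))) (.non (nat_lit 2) (nat_lit 6) (nat_lit 0x41110505) (nat_lit 0x1000000000001000000020000000300000000000200030000000000020004))) (.non (nat_lit 1) (nat_lit 5) (nat_lit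 0x44445150) (nat_lit 0x2000000030000000400000005000000040002000000010006000300000000)))

noncomputable def t742_75 : Tr := (.split (nat_lit 0xe) (nat_lit 7) (.split (nat_lit 0xe) (nat_lit 8) (.split (nat_lit 0xe) (nat_lit 9) (.split (nat_lit 0xe) (nat_lit 0xa) (.split (nat_lit 0xe) (nat_lit 0xb) (.split (nat_lit 0xe) (nat_lit 0xd) (.st (nat_lit 0xc) (nat_lit 2) (nat_lit 5) (nat_lit 0x11110105) (nat_lit 0x100000002000000020000000200000000000000010000000000010002) (nat_lit 1) (nat_lit 1) (.st (nat_lit 0xe) (nat_lit 2) (nat_lit 6) (nat_lit 0x11110505) (nat_lit 0x200000003000000040000000500000000000200040000000000030006) (nat_lit 1) (nat_lit 1) (.split (nat_lit 0xe) (nat_lit 0xc) (.ex (nat_lit 0xd) (.leaf (.cons (nat_lit 0x45440) (nat_lit 0x1000000030004000300000002000000000000) (.cons (nat_lit 0x440054) (nat_lit 0x100000002000000000000000000000003000400030000) (.cons (nat_lit 0x11501) (nat_lit 0x100000003000400030000000000000002) (.cons (nat_lit 0x110015) (nat_lit 0x10000000200000000000000000000000300040003) .nil))))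 (.cons (nat_lit 0x10101011001100) (nat_lit 0x100010) (nat_lit 0xd) (nat_lit 0x60504023000100) (.cons (nat_lit 0x101010100110011) (nat_lit 0x1000100) (nat_lit 0xe) (nat_lit 0x706050400320010) .nil))) (.split (nat_lit 0xf) (nat_lit 0) (.split (nat_lit 0xf) (nat_lit 1) (.split (nat_lit 0xf) (nat_lit 2) (.split (nat_lit 0xf) (nat_lit 3) t742_74 (.non (nat_lit 1) (nat_lit 5) (nat_lit 0x44440040) (nat_lit 0x1000000010000000100000001000000000000000000000001000000000000))) (.non (nat_lit 1) (nat_lit 5) (nat_lit 0x44440050) (nat_lit 0x1000000010000000100000001000000000000000000000001000100000000))) (.non (nat_lit 2) (nat_lit 5) (nat_lit 0x45110105) (nat_lit 0x2000000010001000000020000000300000000000000020000000000030004))) (.non (nat_lit 1) (nat_lit 5) (nat_lit 0x45510101) (nat_lit 0x3000000020001000100020000000300000000000000020000000000000004)))) (.non (nat_lit 2) (nat_lit 5) (nat_lit 0x21110105) (nat_lit 0x100000002000000020000000200000000000000010000000000010002))))) (.non (nat_lit 1) (nat_lit 5) (nat_lit 0x15445050)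 (nat_lit 0x200030001000400000005000000040002000000000006000300000000))) (.non (nat_lit 1) (nat_lit 5) (nat_lit 0x15544040) (nat_lit 0x300020002000400010003000000010000000000000002000000000000))) (.non (nat_lit 1) (nat_lit 5) (nat_lit 0x11100000) (nat_lit 0x100000001000000010000000000000000000000000000000000000000))) (.non (nat_lit 1) (nat_lit 5) (nat_lit 0x15444040) (nat_lit 0x200010001000200000003000000010000000000000002000000000000))) (.non (nat_lit 1) (nat_lit 5) (nat_lit 0x11110000) (nat_lit 0x100000001000000010000000100000000000000000000000000000000))) (.non (nat_lit 1) (nat_lit 5) (nat_lit 0x11545040) (nat_lit 0x300000002000100010002000000040002000000000003000000000000)))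

noncomputable def t742_76 : Tr := (.split (nat_lit 0xd) (nat_lit 0xc) (.st (nat_lit 0xb) (nat_lit 1) (nat_lit 5) (nat_lit 0x4444050) (nat_lit 0x10000000200000002000000010000000000000002000100000000) (nat_lit 1) (nat_lit 1) (.split (nat_lit 0xd) (nat_lit 0xb) (.ex (nat_lit 0xc) (.ex (nat_lit 0xd) (.leaf (.cons (nat_lit 0x45440) (nat_lit 0x1000000030004000300000002000000000000) (.cons (nat_lit 0x440054) (nat_lit 0x100000002000000000000000000000003000400030000) (.cons (nat_lit 0x11501) (nat_lit 0x100000003000400030000000000000002) (.cons (nat_lit 0x110015) (nat_lit 0x10000000200000000000000000000000300040003) .nil)))) (.cons (nat_lit 0x10101011001100) (nat_lit 0x100010) (nat_lit 0xd) (nat_lit 0x60504023000100) (.cons (nat_lit 0x1010100110011) (nat_lit 0x1000100) (nat_lit 0xd) (nat_lit 0x6050400320010) .nil))) (.split (nat_lit 0xe) (nat_lit 0) (.split (nat_lit 0xe) (nat_lit 1) (.split (nat_lit 0xe) (nat_lit 2) t742_73 (.non (nat_lit 1) (nat_lit 5) (nat_lit 0x14440050) (nat_lit 0x100010000000100000001000000000000000000000001000100000000)))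 (.non (nat_lit 2) (nat_lit 5) (nat_lit 0x15110105) (nat_lit 0x200010001000000020000000300000000000000020000000000030004))) (.non (nat_lit 1) (nat_lit 5) (nat_lit 0x15510101) (nat_lit 0x300020001000100020000000300000000000000020000000000000004)))) (.split (nat_lit 0xe) (nat_lit 0) (.split (nat_lit 0xe) (nat_lit 1) (.split (nat_lit 0xe) (nat_lit 2) (.split (nat_lit 0xe) (nat_lit 3) (.split (nat_lit 0xe) (nat_lit 4) (.split (nat_lit 0xe) (nat_lit 5) (.split (nat_lit 0xe) (nat_lit 6) t742_75 (.non (nat_lit 1) (nat_lit 5) (nat_lit 0x14445050) (nat_lit 0x100010000000200000003000000030002000000000004000200000000))) (.non (nat_lit 1) (nat_lit 6) (nat_lit 0x11110501) (nat_lit 0x100000001000000010000000100000000000100010000000000000001))) (.non (nat_lit 1) (nat_lit 5) (nat_lit 0x11110101) (nat_lit 0x100000001000000010000000100000000000000010000000000000001))) (.non (nat_lit 1) (nat_lit 5) (nat_lit 0x15544040) (nat_lit 0x300010002000200010003000000020000000000000004000000000000))) (.non (nat_lit 1) (nat_lit 5) (nat_lit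 0x15444050) (nat_lit 0x200010001000200000003000000020000000000000004000300000000))) (.non (nat_lit 2) (nat_lit 5) (nat_lit 0x11110005) (nat_lit 0x100000001000000010000000100000000000000000000000000010001))) (.non (nat_lit 1) (nat_lit 5) (nat_lit 0x11110001) (nat_lit 0x100000001000000010000000100000000000000000000000000000001)))) (.non (nat_lit 1) (nat_lit 5) (nat_lit 0x8444050) (nat_lit 0x10000000200000002000000010000000000000002000100000000)))) (.non (nat_lit 1) (nat_lit 5) (nat_lit 0x5545050) (nat_lit 0x30002000400010005000000040002000000000006000300000000)))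

noncomputable def t742_77 : Tr := (.split (nat_lit 0xc) (nat_lit 0xb) (.st (nat_lit 0xa) (nat_lit 2) (nat_lit 5) (nat_lit 0x1110105) (nat_lit 0x1000000020000000200000000000000010000000000010002) (nat_lit 1) (nat_lit 1) (.split (nat_lit 0xc) (nat_lit 0xa) (.ex (nat_lit 0xb) (.leaf (.cons (nat_lit 0x45440) (nat_lit 0x1000000030004000300000002000000000000) (.cons (nat_lit 0x440054) (nat_lit 0x100000002000000000000000000000003000400030000) (.cons (nat_lit 0x11501) (nat_lit 0x100000003000400030000000000000002) (.cons (nat_lit 0x110015) (nat_lit 0x10000000200000000000000000000000300040003) .nil)))) (.cons (nat_lit 0x101011001100) (nat_lit 0x100010) (nat_lit 0xc) (nat_lit 0x504023000100) .nil)) (.split (nat_lit 0xd) (nat_lit 0) (.split (nat_lit 0xd) (nat_lit 1) (.split (nat_lit 0xd) (nat_lit 2) (.split (nat_lit 0xd) (nat_lit 3) (.split (nat_lit 0xd) (nat_lit 4) (.split (nat_lit 0xd) (nat_lit 5) (.split (nat_lit 0xd) (nat_lit 6) (.split (nat_lit 0xd) (nat_lit 7) (.split (nat_lit 0xd) (nat_lit 8) (.split (nat_lit 0xd)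 (nat_lit 9) (.split (nat_lit 0xd) (nat_lit 0xa) t742_76 (.non (nat_lit 1) (nat_lit 5) (nat_lit 0x5554050) (nat_lit 0x20001000200020002000100010000000000000002000100000000))) (.non (nat_lit 1) (nat_lit 5) (nat_lit 0x4440000) (nat_lit 0x10000000100000001000000000000000000000000000000000000))) (.non (nat_lit 1) (nat_lit 5) (nat_lit 0x4555050) (nat_lit 0x30000000400010005000200040002000000000006000300000000))) (.non (nat_lit 1) (nat_lit 5) (nat_lit 0x4444040) (nat_lit 0x10000000100000001000000010000000000000001000000000000))) (.non (nat_lit 1) (nat_lit 5) (nat_lit 0x4445040) (nat_lit 0x10000000100000001000000010001000000000001000000000000))) (.non (nat_lit 2) (nat_lit 6) (nat_lit 0x5110505) (nat_lit 0x10001000000020000000300000000000200030000000000020004))) (.non (nat_lit 1) (nat_lit 5) (nat_lit 0x4445151) (nat_lit 0x30000000400000005000000040002000000020006000300000001))) (.non (nat_lit 1) (nat_lit 5) (nat_lit 0x4440040) (nat_lit 0x10000000100000001000000000000000000000001000000000000))) (.non (nat_lit 1) (nat_lit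 5) (nat_lit 0x4440050) (nat_lit 0x10000000100000001000000000000000000000001000100000000))) (.non (nat_lit 2) (nat_lit 5) (nat_lit 0x5510105) (nat_lit 0x20001000100020000000300000000000000020000000000030004))) (.non (nat_lit 1) (nat_lit 5) (nat_lit 0x5550101) (nat_lit 0x30001000200020001000300000000000000020000000000000004)))) (.non (nat_lit 2) (nat_lit 5) (nat_lit 0x2110105) (nat_lit 0x1000000020000000200000000000000010000000000010002)))) (.non (nat_lit 1) (nat_lit 5) (nat_lit 0x1555050) (nat_lit 0x3000400020005000100040002000000000006000300000000)))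

noncomputable def t742_78 : Tr := (.split (nat_lit 8) (nat_lit 0) (.split (nat_lit 4) (nat_lit 0) (.split (nat_lit 0xb) (nat_lit 9) (.split (nat_lit 9) (nat_lit 3) (.split (nat_lit 7) (nat_lit 3) (.ex (nat_lit 0xa) (.leaf (.cons (nat_lit 0x45440) (nat_lit 0x1000000030004000300000002000000000000) (.cons (nat_lit 0x440054) (nat_lit 0x100000002000000000000000000000003000400030000) (.cons (nat_lit 0x11501) (nat_lit 0x100000003000400030000000000000002) (.cons (nat_lit 0x110015) (nat_lit 0x10000000200000000000000000000000300040003) .nil)))) (.cons (nat_lit 0x10100110011) (nat_lit 0x1000100) (nat_lit 0xc) (nat_lit 0x50400320010) .nil)) (.split (nat_lit 0xc) (nat_lit 0) (.split (nat_lit 0xc) (nat_lit 1) (.split (nat_lit 0xc) (nat_lit 2) (.split (nat_lit 0xc) (nat_lit 3) (.split (nat_lit 0xc) (nat_lit 4) (.split (nat_lit 0xc) (nat_lit 5) (.split (nat_lit 0xc) (nat_lit 6) (.split (nat_lit 0xc) (nat_lit 7) (.split (nat_lit 0xc) (nat_lit 8) (.split (nat_lit 0xc) (nat_lit 9) t742_77 (.non (nat_lit 1) (nat_lit 5) (nat_lit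 0x1555040) (nat_lit 0x3000200020004000100020001000000000003000000000000))) (.non (nat_lit 1) (nat_lit 5) (nat_lit 0x1110000) (nat_lit 0x1000000010000000100000000000000000000000000000000))) (.non (nat_lit 1) (nat_lit 5) (nat_lit 0x1555040) (nat_lit 0x3000100020002000100040002000000000003000000000000))) (.non (nat_lit 1) (nat_lit 5) (nat_lit 0x1555050) (nat_lit 0x3000200020004000100050004000000000006000300000000))) (.non (nat_lit 1) (nat_lit 6) (nat_lit 0x1110501) (nat_lit 0x1000000010000000100000000000100010000000000000001))) (.non (nat_lit 1) (nat_lit 5) (nat_lit 0x1110101) (nat_lit 0x1000000010000000100000000000000010000000000000001))) (.non (nat_lit 1) (nat_lit 5) (nat_lit 0x1545040) (nat_lit 0x2000100010002000000020001000000000003000000000000))) (.non (nat_lit 1) (nat_lit 5) (nat_lit 0x1445050) (nat_lit 0x1000100000002000000020001000000000003000200000000))) (.non (nat_lit 2) (nat_lit 5) (nat_lit 0x1110005) (nat_lit 0x1000000010000000100000000000000000000000000010001))) (.non (nat_lit 1) (nat_lit 5) (nat_lit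 0x1110001) (nat_lit 0x1000000010000000100000000000000000000000000000001)))) (.non (nat_lit 1) (nat_lit 5) (nat_lit 0x44a040) (nat_lit 0x100000002000000020001000000000003000000000000))) (.non (nat_lit 1) (nat_lit 5) (nat_lit 0x885040) (nat_lit 0x100000002000000020001000000000003000000000000))) (.non (nat_lit 1) (nat_lit 5) (nat_lit 0x844050) (nat_lit 0x100000002000000010000000000000002000100000000))) (.non (nat_lit 1) (nat_lit 6) (nat_lit 0x110a01) (nat_lit 0x10000000200000000000100020000000000000003))) (.non (nat_lit 1) (nat_lit 6) (nat_lit 0x220501) (nat_lit 0x10000000200000000000100020000000000000003)))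

noncomputable def t742_79 : Tr := (.ex (nat_lit 9) (.split (nat_lit 9) (nat_lit 3) (.pd (.cons (nat_lit 0) (nat_lit 7) (nat_lit 0x10100000000) (nat_lit 0x83a05442110) (nat_lit 0x1f423f0000100000f423f54591437a2b71aea2c280473700000) .nil) (.split (nat_lit 0xa) (nat_lit 8) (.split (nat_lit 8) (nat_lit 0) (.split (nat_lit 4) (nat_lit 0) (.split (nat_lit 7) (nat_lit 3) t742_72 (.non (nat_lit 1) (nat_lit 5) (nat_lit 0x48050) (nat_lit 0x1000000010000000000000002000100000000))) (.non (nat_lit 1) (nat_lit 6) (nat_lit 0x110a01) (nat_lit 0x10000000200000000000100020000000000000003))) (.non (nat_lit 1) (nat_lit 6) (nat_lit 0x220501) (nat_lit 0x10000000200000000000100020000000000000003))) (.non (nat_lit 2) (nat_lit 5) (nat_lit 0x210105) (nat_lit 0x10000000200000000000000010000000000010002)))) (.non (nat_lit 1) (nat_lit 5) (nat_lit 0x84050) (nat_lit 0x1000000010000000000000002000100000000))) (.split (nat_lit 0xb) (nat_lit 0) (.split (nat_lit 0xb) (nat_lit 1) (.split (nat_lit 0xb) (nat_lit 2) (.split (nat_lit 0xb) (nat_lit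 3) (.split (nat_lit 0xb) (nat_lit 4) (.split (nat_lit 0xb) (nat_lit 5) (.split (nat_lit 0xb) (nat_lit 6) (.split (nat_lit 0xb) (nat_lit 7) (.split (nat_lit 0xb) (nat_lit 8) (.split (nat_lit 0xb) (nat_lit 0xa) (.st (nat_lit 9) (nat_lit 1) (nat_lit 5) (nat_lit 0x444050) (nat_lit 0x100000002000000010000000000000002000100000000) (nat_lit 1) (nat_lit 1) (.split (nat_lit 0xa) (nat_lit 8) t742_78 (.non (nat_lit 2) (nat_lit 5) (nat_lit 0x210105) (nat_lit 0x10000000200000000000000010000000000010002)))) (.non (nat_lit 1) (nat_lit 5) (nat_lit 0x555051) (nat_lit 0x400030005000200040002000000000006000300000001))) (.non (nat_lit 1) (nat_lit 5) (nat_lit 0x555141) (nat_lit 0x500030004000600020001000000020003000000000004))) (.non (nat_lit 1) (nat_lit 5) (nat_lit 0x444040) (nat_lit 0x100000001000000010000000000000001000000000000))) (.non (nat_lit 1) (nat_lit 5) (nat_lit 0x445040) (nat_lit 0x100000001000000010001000000000001000000000000))) (.non (nat_lit 2) (nat_lit 6) (nat_lit 0x550545) (nat_lit 0x300020002000400000000000400050001000000030006)))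 (.non (nat_lit 1) (nat_lit 5) (nat_lit 0x455151) (nat_lit 0x400000005000100040002000000030006000300000002))) (.non (nat_lit 1) (nat_lit 5) (nat_lit 0x440040) (nat_lit 0x100000001000000000000000000000001000000000000))) (.non (nat_lit 1) (nat_lit 5) (nat_lit 0x440050) (nat_lit 0x100000001000000000000000000000001000100000000))) (.non (nat_lit 2) (nat_lit 5) (nat_lit 0x554145) (nat_lit 0x400020003000400010000000000030002000000050006))) (.non (nat_lit 1) (nat_lit 5) (nat_lit 0x555141) (nat_lit 0x500020004000400020001000000030003000000000006))))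

noncomputable def t742_80 : Tr := (.ex (nat_lit 6) (.ex (nat_lit 8) (.split (nat_lit 8) (nat_lit 0) (.pd (.cons (nat_lit 3) (nat_lit 4) (nat_lit 0) (nat_lit 0x9065500100) (nat_lit 0xf423ff423ff423fb71ae1f1560000000000f423f5459106711) .nil) t742_70) (.non (nat_lit 2) (nat_lit 5) (nat_lit 0x20105) (nat_lit 0x100000000000000010000000000010002))) (.split (nat_lit 0xa) (nat_lit 0) (.split (nat_lit 0xa) (nat_lit 1) (.split (nat_lit 0xa) (nat_lit 2) (.split (nat_lit 0xa) (nat_lit 3) (.split (nat_lit 0xa) (nat_lit 4) (.split (nat_lit 0xa) (nat_lit 5) (.split (nat_lit 0xa) (nat_lit 7) (.split (nat_lit 0xa) (nat_lit 9) (.split (nat_lit 0xa) (nat_lit 6) (.st (nat_lit 8) (nat_lit 2) (nat_lit 5) (nat_lit 0x110105) (nat_lit 0x10000000200000000000000010000000000010002) (nat_lit 1) (nat_lit 1) t742_79) (.sup (nat_lit 0x20009000a0005) (nat_lit 0x5000000000002000a000800000000000000000000))) (.non (nat_lit 1) (nat_lit 5) (nat_lit 0x155151) (nat_lit 0x40005000300040002000000010006000300000002))) (.non (nat_lit 1) (nat_lit 5)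 (nat_lit 0x145050) (nat_lit 0x10001000000020001000000000002000100000000))) (.non (nat_lit 1) (nat_lit 6) (nat_lit 0x110501) (nat_lit 0x10000000100000000000100010000000000000001))) (.non (nat_lit 1) (nat_lit 5) (nat_lit 0x110101) (nat_lit 0x10000000100000000000000010000000000000001))) (.non (nat_lit 1) (nat_lit 5) (nat_lit 0x144050) (nat_lit 0x10001000000010000000000000002000100000000))) (.non (nat_lit 1) (nat_lit 5) (nat_lit 0x155151) (nat_lit 0x40003000300040002000000010006000500000002))) (.non (nat_lit 2) (nat_lit 5) (nat_lit 0x110005) (nat_lit 0x10000000100000000000000000000000000010001))) (.non (nat_lit 1) (nat_lit 5) (nat_lit 0x110001) (nat_lit 0x10000000100000000000000000000000000000001)))) (.split (nat_lit 0xa) (nat_lit 0) (.split (nat_lit 0xa) (nat_lit 1) (.split (nat_lit 0xa) (nat_lit 2) (.split (nat_lit 0xa) (nat_lit 3) (.split (nat_lit 0xa) (nat_lit 4) (.split (nat_lit 0xa) (nat_lit 7) (.split (nat_lit 0xa) (nat_lit 9) (.split (nat_lit 0xa) (nat_lit 5) (.split (nat_lit 0xa) (nat_lit 8) (.sup (nat_lit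 0x20009000a0005) (nat_lit 0x5000000000002000a000800000000000000000000)) (.sup (nat_lit 0x20009000a0005) (nat_lit 0x5000000000002000a000800000000000000000000))) (.split (nat_lit 0xa) (nat_lit 8) (.unj (nat_lit 0x101400) (nat_lit 0x10000000000000001000100000000000000000000) (nat_lit 0x55) (nat_lit 0x1000200020001)) (.non (nat_lit 1) (nat_lit 6) (nat_lit 0x110501) (nat_lit 0x10000000100000000000100010000000000000001)))) (.non (nat_lit 1) (nat_lit 5) (nat_lit 0x145040) (nat_lit 0x10001000000010001000000000001000000000000))) (.non (nat_lit 1) (nat_lit 5) (nat_lit 0x105000) (nat_lit 0x10000000000010001000000000000000000000000))) (.non (nat_lit 2) (nat_lit 6) (nat_lit 0x110505) (nat_lit 0x10000000100000000000100020000000000010002))) (.non (nat_lit 1) (nat_lit 5) (nat_lit 0x105040) (nat_lit 0x10000000000010001000000000001000000000000))) (.star (nat_lit 0xa) (nat_lit 2) (nat_lit 6))) (.star (nat_lit 0xa) (nat_lit 1) (nat_lit 6))) (.non (nat_lit 1) (nat_lit 5) (nat_lit 0x155151) (nat_lit 0x20001000100020002000000010002000100000002))))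

noncomputable def t742_81 : Tr := (.split (nat_lit 9) (nat_lit 8) (.st (nat_lit 3) (nat_lit 1) (nat_lit 5) (nat_lit 0x44050) (nat_lit 0x1000000010000000000000002000100000000) (nat_lit 1) (nat_lit 1) (.st (nat_lit 7) (nat_lit 1) (nat_lit 5) (nat_lit 0x45050) (nat_lit 0x1000000020001000000000002000100000000) (nat_lit 1) (nat_lit 1) (.ex (nat_lit 5) t742_80 (.split (nat_lit 0xa) (nat_lit 0) (.split (nat_lit 0xa) (nat_lit 1) (.split (nat_lit 0xa) (nat_lit 2) (.split (nat_lit 0xa) (nat_lit 3) (.split (nat_lit 0xa) (nat_lit 4) (.split (nat_lit 0xa) (nat_lit 7) (.split (nat_lit 0xa) (nat_lit 8) (.split (nat_lit 0xa) (nat_lit 6) (.split (nat_lit 0xa) (nat_lit 9) (.sup (nat_lit 0x5000a00090002) (nat_lit 0x50000000000000008000a00020000000000000000)) (.sup (nat_lit 0x5000a00090002) (nat_lit 0x50000000000000008000a00020000000000000000))) (.split (nat_lit 0xa) (nat_lit 9) (.unj (nat_lit 0x101400) (nat_lit 0x10000000000000001000100000000000000000000) (nat_lit 0x55) (nat_lit 0x1000200020001)) (.non (nat_lit 1) (nat_lit 5)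 (nat_lit 0x145040) (nat_lit 0x10001000000010001000000000001000000000000)))) (.non (nat_lit 1) (nat_lit 6) (nat_lit 0x110501) (nat_lit 0x10000000100000000000100010000000000000001))) (.non (nat_lit 1) (nat_lit 5) (nat_lit 0x145050) (nat_lit 0x10001000000020001000000000002000100000000))) (.non (nat_lit 1) (nat_lit 6) (nat_lit 0x100500) (nat_lit 0x10000000000000000000100010000000000000000))) (.non (nat_lit 1) (nat_lit 5) (nat_lit 0x144050) (nat_lit 0x10001000000010000000000000002000100000000))) (.star (nat_lit 0xa) (nat_lit 2) (nat_lit 5))) (.star (nat_lit 0xa) (nat_lit 1) (nat_lit 5))) (.non (nat_lit 1) (nat_lit 6) (nat_lit 0x100501) (nat_lit 0x10000000000000000000100010000000000000001)))))) (.st (nat_lit 3) (nat_lit 1) (nat_lit 5) (nat_lit 0x44050) (nat_lit 0x1000000010000000000000002000100000000) (nat_lit 1) (nat_lit 1) (.st (nat_lit 5) (nat_lit 2) (nat_lit 6) (nat_lit 0x50545) (nat_lit 0x2000300000000000200030001000000020004) (nat_lit 1) (nat_lit 1) (.st (nat_lit 6) (nat_lit 1) (nat_lit 5) (nat_lit 0x55051)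 (nat_lit 0x3000200030002000000000004000200000001) (nat_lit 1) (nat_lit 1) (.st (nat_lit 7) (nat_lit 1) (nat_lit 5) (nat_lit 0x45050) (nat_lit 0x1000000020001000000000002000100000000) (nat_lit 1) (nat_lit 1) (.st (nat_lit 8) (nat_lit 1) (nat_lit 5) (nat_lit 0x54051) (nat_lit 0x2000200010000000000000002000100000001) (nat_lit 1) (nat_lit 1) (.st (nat_lit 9) (nat_lit 1) (nat_lit 5) (nat_lit 0x54050) (nat_lit 0x2000100010000000000000002000100000000) (nat_lit 1) (nat_lit 1) (.split (nat_lit 9) (nat_lit 3) (.split (nat_lit 9) (nat_lit 8) (.split (nat_lit 8) (nat_lit 0) (.split (nat_lit 7) (nat_lit 3) (.split (nat_lit 4) (nat_lit 0) (.leaf (.cons (nat_lit 0x45440) (nat_lit 0x1000000030004000300000002000000000000) (.cons (nat_lit 0x50054) (nat_lit 0x2000100000000000000000003000400030000) (.cons (nat_lit 0x11501) (nat_lit 0x100000003000400030000000000000002) (.cons (nat_lit 0x50015) (nat_lit 0x1000200000000000000000000000300040003) .nil)))) (.cons (nat_lit 0x1111011101) (nat_lit 0x100010) (nat_lit 0xe) (nat_lit 0x4523070106)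 (.cons (nat_lit 0x1110111011) (nat_lit 0x1000100) (nat_lit 0xe) (nat_lit 0x5470326010) .nil))) (.non (nat_lit 1) (nat_lit 5) (nat_lit 0x54251) (nat_lit 0x2000200010000000000010002000100000002))) (.non (nat_lit 1) (nat_lit 5) (nat_lit 0x5a040) (nat_lit 0x2000100020001000000000003000000000000))) (.non (nat_lit 1) (nat_lit 5) (nat_lit 0xa0181) (nat_lit 0x2000300000000000000020001000000000004))) (.non (nat_lit 1) (nat_lit 5) (nat_lit 0x64050) (nat_lit 0x2000100010000000000000002000100000000))) (.non (nat_lit 1) (nat_lit 5) (nat_lit 0xa5040) (nat_lit 0x2000100020001000000000003000000000000))))))))))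

noncomputable def t742_82 : Tr := (.ex (nat_lit 2) (.ex (nat_lit 3) t742_67 (.split (nat_lit 9) (nat_lit 0) (.split (nat_lit 9) (nat_lit 2) (.split (nat_lit 9) (nat_lit 4) (.split (nat_lit 9) (nat_lit 6) (.split (nat_lit 9) (nat_lit 7) (.split (nat_lit 9) (nat_lit 1) (.split (nat_lit 9) (nat_lit 5) t742_81 (.split (nat_lit 9) (nat_lit 8) (.sup (nat_lit 0x500000005000a000900000000000000000000) (nat_lit 0x3000000000000000100000008000a0007)) (.non (nat_lit 1) (nat_lit 6) (nat_lit 0x54450) (nat_lit 0x2000100010000000100000002000100000000)))) (.split (nat_lit 9) (nat_lit 5) (.split (nat_lit 9) (nat_lit 8) (.sup (nat_lit 0x50000000000000000000000000008000a0002) (nat_lit 0x5000a000900020000000000000000)) (.non (nat_lit 2) (nat_lit 5) (nat_lit 0x50005) (nat_lit 0x1000100000000000000000000000000010001))) (.star (nat_lit 9) (nat_lit 1) (nat_lit 5)))) (.non (nat_lit 1) (nat_lit 5) (nat_lit 0x44040) (nat_lit 0x1000000010000000000000001000000000000))) (.non (nat_lit 1) (nat_lit 5) (nat_lit 0x45040) (nat_lit 0x1000000010001000000000001000000000000)))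 (.non (nat_lit 1) (nat_lit 6) (nat_lit 0x44551) (nat_lit 0x2000000010000000100020002000100000001))) (.non (nat_lit 1) (nat_lit 5) (nat_lit 0x40050) (nat_lit 0x1000000000000000000000001000100000000))) (.non (nat_lit 1) (nat_lit 5) (nat_lit 0x54151) (nat_lit 0x2000100010000000000010002000100000002)))) (.split (nat_lit 9) (nat_lit 0) (.split (nat_lit 9) (nat_lit 3) (.split (nat_lit 9) (nat_lit 4) (.split (nat_lit 9) (nat_lit 5) (.split (nat_lit 9) (nat_lit 6) (.split (nat_lit 9) (nat_lit 7) (.split (nat_lit 9) (nat_lit 1) (.split (nat_lit 9) (nat_lit 8) (.sup (nat_lit 0x5000000000000000000000002000a00080000) (nat_lit 0x20009000a00050000000000000000)) (.sup (nat_lit 0x5000000000000000000000002000a00080000) (nat_lit 0x20009000a00050000000000000000))) (.split (nat_lit 9) (nat_lit 8) (.unj (nat_lit 0x40014) (nat_lit 0x1000000000000000000000000000100010000) (nat_lit 0x5500) (nat_lit 0x10002000200010000000000000000)) (.non (nat_lit 2) (nat_lit 5) (nat_lit 0x50005) (nat_lit 0x1000100000000000000000000000000010001))))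 (.non (nat_lit 1) (nat_lit 5) (nat_lit 0x44050) (nat_lit 0x1000000010000000000000001000100000000))) (.star (nat_lit 9) (nat_lit 2) (nat_lit 6))) (.star (nat_lit 9) (nat_lit 2) (nat_lit 5))) (.non (nat_lit 2) (nat_lit 6) (nat_lit 0x50505) (nat_lit 0x1000100000000000100020000000000010002))) (.non (nat_lit 1) (nat_lit 5) (nat_lit 0x40050) (nat_lit 0x1000000000000000000000001000100000000))) (.non (nat_lit 2) (nat_lit 5) (nat_lit 0x50105) (nat_lit 0x1000100000000000000010000000000010002))))

noncomputable def t742_83 : Tr := (.split (nat_lit 9) (nat_lit 0) (.split (nat_lit 9) (nat_lit 1) (.split (nat_lit 9) (nat_lit 2) (.split (nat_lit 9) (nat_lit 4) (.split (nat_lit 9) (nat_lit 6) (.split (nat_lit 9) (nat_lit 7) (.split (nat_lit 9) (nat_lit 8) (.split (nat_lit 9) (nat_lit 5) (.sup (nat_lit 0x500000009000a00050000000000000000) (nat_lit 0x3000000010000000000000007000a00080000)) (.st (nat_lit 3) (nat_lit 1) (nat_lit 5) (nat_lit 0x44050) (nat_lit 0x1000000010000000000000002000100000000) (nat_lit 1) (nat_lit 1) (.st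 (nat_lit 5) (nat_lit 1) (nat_lit 6) (nat_lit 0x44550) (nat_lit 0x2000000010000000200010002000100000000) (nat_lit 1) (nat_lit 1) (.st (nat_lit 9) (nat_lit 1) (nat_lit 5) (nat_lit 0x55151) (nat_lit 0x4000300050004000000010006000300000002) (nat_lit 1) (nat_lit 2) (.split (nat_lit 9) (nat_lit 3) (.split (nat_lit 8) (nat_lit 0) (.split (nat_lit 8) (nat_lit 6) (.split (nat_lit 7) (nat_lit 3) (.split (nat_lit 4) (nat_lit 0) (.leaf (.cons (nat_lit 0x51400) (nat_lit 0x1000100000002000200000000000000000000) (.cons (nat_lit 0x44054) (nat_lit 0x1000000010000000000000002000200020000) (.cons (nat_lit 0x11015) (nat_lit 0x200000001000000000000000300040003) (.cons (nat_lit 0x10115) (nat_lit 0x100000000000000010000000200020002) .nil)))) (.cons (nat_lit 0x1111011101) (nat_lit 0x100010) (nat_lit 0xb) (nat_lit 0x2534070106) (.cons (nat_lit 0x1111011011) (nat_lit 0x100100) (nat_lit 0xb) (nat_lit 0x7354026010) .nil))) (.non (nat_lit 1) (nat_lit 5) (nat_lit 0x55251) (nat_lit 0x1000200020002000000010002000100000002))) (.non (nat_lit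 1) (nat_lit 5) (nat_lit 0x6a040) (nat_lit 0x2000100030002000000000004000000000000))) (.non (nat_lit 1) (nat_lit 5) (nat_lit 0x65050) (nat_lit 0x1000100020002000000000002000100000000))) (.non (nat_lit 1) (nat_lit 5) (nat_lit 0x2a101) (nat_lit 0x300010002000000020000000000000004))) (.non (nat_lit 1) (nat_lit 5) (nat_lit 0x84050) (nat_lit 0x1000000010000000000000002000100000000))))))) (.non (nat_lit 1) (nat_lit 5) (nat_lit 0x55040) (nat_lit 0x1000100010001000000000001000000000000))) (.non (nat_lit 1) (nat_lit 5) (nat_lit 0x44040) (nat_lit 0x1000000010000000000000001000000000000))) (.non (nat_lit 1) (nat_lit 5) (nat_lit 0x45040) (nat_lit 0x1000000010001000000000001000000000000))) (.non (nat_lit 1) (nat_lit 5) (nat_lit 0x55141) (nat_lit 0x1000100010001000000010001000000000001))) (.non (nat_lit 1) (nat_lit 5) (nat_lit 0x40050) (nat_lit 0x1000000000000000000000001000100000000))) (.non (nat_lit 2) (nat_lit 5) (nat_lit 0x55045) (nat_lit 0x1000100010001000000000001000000010001))) (.non (nat_lit 1) (nat_lit 5) (nat_lit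 0x55041) (nat_lit 0x1000100010001000000000001000000000001)))

noncomputable def t742_84 : Tr := (.ex (nat_lit 1) (.ex (nat_lit 2) (.ex (nat_lit 3) (.split (nat_lit 7) (nat_lit 3) (.pd (.cons (nat_lit 0) (nat_lit 6) (nat_lit 0) (nat_lit 0x830442110) (nat_lit 0xf423ff423f00000f423fb71aeb71aea2c280473700000) .nil) (.split (nat_lit 8) (nat_lit 0) (.split (nat_lit 8) (nat_lit 6) (.split (nat_lit 4) (nat_lit 0) (.leaf (.cons (nat_lit 0x15400) (nat_lit 0x100010002000200000000000000000000) (.cons (nat_lit 0x5054) (nat_lit 0x20001000000000003000400030000) (.cons (nat_lit 0x11500) (nat_lit 0x100000002000200010000000000000000) (.cons (nat_lit 0x11015) (nat_lit 0x200000001000000000000000300040003) (.cons (nat_lit 0x10115) (nat_lit 0x100000000000000010000000200020002) .nil))))) (.cons (nat_lit 0x111011101) (nat_lit 0x100010) (nat_lit 5) (nat_lit 0x423061005) .nil)) (.non (nat_lit 2) (nat_lit 5) (nat_lit 0x10205) (nat_lit 0x100000000000000010000000000010002))) (.non (nat_lit 1) (nat_lit 5) (nat_lit 0x1a101) (nat_lit 0x300010002000000010000000000000002)))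 (.non (nat_lit 1) (nat_lit 5) (nat_lit 0x2a101) (nat_lit 0x300010002000000020000000000000004)))) (.non (nat_lit 1) (nat_lit 5) (nat_lit 0x2a050) (nat_lit 0x100030002000000000004000200000000))) t742_83) (.split (nat_lit 9) (nat_lit 0) (.split (nat_lit 9) (nat_lit 3) (.split (nat_lit 9) (nat_lit 4) (.split (nat_lit 9) (nat_lit 5) (.split (nat_lit 9) (nat_lit 6) (.split (nat_lit 9) (nat_lit 7) (.split (nat_lit 9) (nat_lit 8) (.split (nat_lit 9) (nat_lit 1) (.unj (nat_lit 0x40054) (nat_lit 0x1000000000000000000000001000200020000) (nat_lit 0x11500) (nat_lit 0x100000002000200010000000000000000)) (.unj (nat_lit 0x40014) (nat_lit 0x1000000000000000000000000000100010000) (nat_lit 0x5500) (nat_lit 0x10002000200010000000000000000))) (.non (nat_lit 1) (nat_lit 5) (nat_lit 0x55050) (nat_lit 0x1000100010001000000000001000100000000))) (.non (nat_lit 1) (nat_lit 5) (nat_lit 0x44050) (nat_lit 0x1000000010000000000000001000100000000))) (.star (nat_lit 9) (nat_lit 2) (nat_lit 6))) (.star (nat_lit 9) (nat_lit 2) (nat_lit 5)))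 (.non (nat_lit 1) (nat_lit 5) (nat_lit 0x55151) (nat_lit 0x1000100010001000000010001000100000001))) (.non (nat_lit 1) (nat_lit 5) (nat_lit 0x40050) (nat_lit 0x1000000000000000000000001000100000000))) (.non (nat_lit 1) (nat_lit 5) (nat_lit 0x55051) (nat_lit 0x1000100010001000000000001000100000001)))) (.split (nat_lit 9) (nat_lit 0) (.split (nat_lit 9) (nat_lit 3) (.split (nat_lit 9) (nat_lit 4) (.split (nat_lit 9) (nat_lit 5) (.split (nat_lit 9) (nat_lit 6) (.split (nat_lit 9) (nat_lit 7) (.split (nat_lit 9) (nat_lit 8) (.split (nat_lit 9) (nat_lit 2) (.unj (nat_lit 0x40054) (nat_lit 0x1000000000000000000000001000200020000) (nat_lit 0x11500) (nat_lit 0x100000002000200010000000000000000)) (.unj (nat_lit 0x40014) (nat_lit 0x1000000000000000000000000000100010000) (nat_lit 0x5500) (nat_lit 0x10002000200010000000000000000))) (.non (nat_lit 2) (nat_lit 5) (nat_lit 0x50005) (nat_lit 0x1000100000000000000000000000000010001))) (.non (nat_lit 2) (nat_lit 5) (nat_lit 0x55005) (nat_lit 0x1000100010001000000000000000000010001)))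 (.star (nat_lit 9) (nat_lit 1) (nat_lit 6))) (.star (nat_lit 9) (nat_lit 1) (nat_lit 5))) (.non (nat_lit 2) (nat_lit 5) (nat_lit 0x40105) (nat_lit 0x1000000000000000000010000000000010001))) (.non (nat_lit 2) (nat_lit 5) (nat_lit 0x55045) (nat_lit 0x1000100010001000000000001000000010001))) (.non (nat_lit 2) (nat_lit 5) (nat_lit 0x40005) (nat_lit 0x1000000000000000000000000000000010001))))

noncomputable def t742_85 : Tr := (.split (nat_lit 8) (nat_lit 6) (.st (nat_lit 0) (nat_lit 1) (nat_lit 5) (nat_lit 0x14151) (nat_lit 0x200010000000000010002000100000002) (nat_lit 1) (nat_lit 1) (.st (nat_lit 1) (nat_lit 2) (nat_lit 6) (nat_lit 0x10545) (nat_lit 0x200000000000100020001000000020003) (nat_lit 1) (nat_lit 1) (.st (nat_lit 2) (nat_lit 1) (nat_lit 5) (nat_lit 0x15051) (nat_lit 0x200020001000000000003000200000001) (nat_lit 1) (nat_lit 1) (.st (nat_lit 3) (nat_lit 1) (nat_lit 5) (nat_lit 0x14050) (nat_lit 0x100010000000000000002000100000000) (nat_lit 1) (nat_lit 1) (.st (nat_lit 4) (nat_lit 1) (nat_lit 6) (nat_lit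 0x14551) (nat_lit 0x200010000000100020002000100000002) (nat_lit 1) (nat_lit 1) (.st (nat_lit 5) (nat_lit 2) (nat_lit 6) (nat_lit 0x14545) (nat_lit 0x300010000000200030002000000020004) (nat_lit 1) (nat_lit 1) (.st (nat_lit 6) (nat_lit 1) (nat_lit 5) (nat_lit 0x15151) (nat_lit 0x300030002000000010004000200000002) (nat_lit 1) (nat_lit 1) (.st (nat_lit 7) (nat_lit 1) (nat_lit 5) (nat_lit 0x15050) (nat_lit 0x100020001000000000002000100000000) (nat_lit 1) (nat_lit 1) (.st (nat_lit 8) (nat_lit 1) (nat_lit 5) (nat_lit 0x14051) (nat_lit 0x200010000000000000002000100000001) (nat_lit 1) (nat_lit 1) (.split (nat_lit 8) (nat_lit 3) (.split (nat_lit 8) (nat_lit 0) (.pd (.cons (nat_lit 0) (nat_lit 7) (nat_lit 0) (nat_lit 0x305442110) (nat_lit 0xf423f00000f423f54591437a2b71aea2c280473700000) (.cons (nat_lit 3) (nat_lit 4) (nat_lit 0) (nat_lit 0x65500100) (nat_lit 0xf423ff423fb71ae1f1560000000000f423f5459106711) .nil)) (.split (nat_lit 7) (nat_lit 3) (.split (nat_lit 4) (nat_lit 0) (.leaf (.cons (nat_lit 0x15440) (nat_lit 0x100030004000300000002000000000000)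 (.cons (nat_lit 0x14054) (nat_lit 0x100010000000000000002000200020000) (.cons (nat_lit 0x11501) (nat_lit 0x100000003000400030000000000000002) (.cons (nat_lit 0x10115) (nat_lit 0x100000000000000010000000200020002) .nil)))) (.cons (nat_lit 0x111011101) (nat_lit 0x100010) (nat_lit 0xd) (nat_lit 0x423060105) (.cons (nat_lit 0x110111011) (nat_lit 0x1000100) (nat_lit 0xd) (nat_lit 0x460325010) .nil))) (.non (nat_lit 1) (nat_lit 5) (nat_lit 0x14251) (nat_lit 0x200010000000000010002000100000002))) (.non (nat_lit 1) (nat_lit 5) (nat_lit 0x18050) (nat_lit 0x100010000000000000002000100000000)))) (.non (nat_lit 1) (nat_lit 5) (nat_lit 0x28181) (nat_lit 0x300010000000000020002000000000004))) (.non (nat_lit 1) (nat_lit 5) (nat_lit 0x24050) (nat_lit 0x100010000000000000002000100000000)))))))))))) (.non (nat_lit 1) (nat_lit 5) (nat_lit 0x15040) (nat_lit 0x100010001000000000001000000000000)))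

noncomputable def t742_86 : Tr := (.split (nat_lit 8) (nat_lit 2) (.split (nat_lit 8) (nat_lit 3) (.split (nat_lit 8) (nat_lit 6) (.st (nat_lit 0) (nat_lit 2) (nat_lit 5) (nat_lit 0x10105) (nat_lit 0x100000000000000010000000000010002) (nat_lit 1) (nat_lit 1) (.st (nat_lit 4) (nat_lit 2) (nat_lit 6) (nat_lit 0x10505) (nat_lit 0x100000000000100020000000000010002) (nat_lit 1) (nat_lit 1) (.ex (nat_lit 1) t742_82 (.split (nat_lit 9) (nat_lit 0) (.split (nat_lit 9) (nat_lit 4) (.split (nat_lit 9) (nat_lit 5) (.split (nat_lit 9) (nat_lit 6) (.split (nat_lit 9) (nat_lit 7) (.split (nat_lit 9) (nat_lit 8) (.split (nat_lit 9) (nat_lit 2) (.split (nat_lit 9) (nat_lit 3) (.sup (nat_lit 0x50000000000000000000000000008000a0002) (nat_lit 0x5000a000900020000000000000000)) (.sup (nat_lit 0x50000000000000000000000000008000a0002) (nat_lit 0x5000a000900020000000000000000))) (.split (nat_lit 9) (nat_lit 3) (.unj (nat_lit 0x40014) (nat_lit 0x1000000000000000000000000000100010000) (nat_lit 0x5500) (nat_lit 0x10002000200010000000000000000))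 (.non (nat_lit 1) (nat_lit 5) (nat_lit 0x40050) (nat_lit 0x1000000000000000000000001000100000000)))) (.non (nat_lit 2) (nat_lit 5) (nat_lit 0x50005) (nat_lit 0x1000100000000000000000000000000010001))) (.non (nat_lit 2) (nat_lit 5) (nat_lit 0x55145) (nat_lit 0x2000100020001000000010001000000020002))) (.star (nat_lit 9) (nat_lit 1) (nat_lit 6))) (.star (nat_lit 9) (nat_lit 1) (nat_lit 5))) (.non (nat_lit 2) (nat_lit 5) (nat_lit 0x40105) (nat_lit 0x1000000000000000000010000000000010001))) (.non (nat_lit 2) (nat_lit 5) (nat_lit 0x40005) (nat_lit 0x1000000000000000000000000000000010001)))))) (.st (nat_lit 7) (nat_lit 2) (nat_lit 5) (nat_lit 0x15145) (nat_lit 0x200020002000000010001000000010002) (nat_lit 1) (nat_lit 1) (.st (nat_lit 0) (nat_lit 2) (nat_lit 5) (nat_lit 0x10105) (nat_lit 0x100000000000000010000000000010002) (nat_lit 1) (nat_lit 1) (.st (nat_lit 4) (nat_lit 2) (nat_lit 6) (nat_lit 0x10505) (nat_lit 0x100000000000100020000000000010002) (nat_lit 1) (nat_lit 1) (.st (nat_lit 6) (nat_lit 1) (nat_lit 5)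 (nat_lit 0x15151) (nat_lit 0x300030004000000010002000100000002) (nat_lit 1) (nat_lit 2) (.st (nat_lit 8) (nat_lit 2) (nat_lit 5) (nat_lit 0x11105) (nat_lit 0x200000001000000010000000000010002) (nat_lit 1) (nat_lit 1) t742_84)))))) t742_85) (.split (nat_lit 8) (nat_lit 3) (.split (nat_lit 8) (nat_lit 6) (.sup (nat_lit 0x300000000000000000000000500040001) (nat_lit 0x30005000500010000000000000000)) (.star (nat_lit 8) (nat_lit 2) (nat_lit 6))) (.non (nat_lit 1) (nat_lit 5) (nat_lit 0x10050) (nat_lit 0x100000000000000000001000100000000))))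

noncomputable def t742_87 : Tr := (.ex (nat_lit 0) (.ex (nat_lit 1) t742_57 (.split (nat_lit 8) (nat_lit 0) (.split (nat_lit 8) (nat_lit 4) (.split (nat_lit 8) (nat_lit 5) (.split (nat_lit 8) (nat_lit 6) (.split (nat_lit 8) (nat_lit 2) (.split (nat_lit 8) (nat_lit 3) (.split (nat_lit 8) (nat_lit 7) (.sup (nat_lit 0x5000000000000000000000008000a0002) (nat_lit 0x5000a000900020000000000000000)) (.st (nat_lit 1) (nat_lit 2) (nat_lit 5) (nat_lit 0x15045) (nat_lit 0x200020001000000000001000000020001) (nat_lit 1) (nat_lit 1) (.st (nat_lit 3) (nat_lit 1) (nat_lit 5) (nat_lit 0x15050) (nat_lit 0x100020001000000000002000100000000) (nat_lit 1) (nat_lit 1) (.st (nat_lit 7) (nat_lit 1) (nat_lit 5) (nat_lit 0x15040) (nat_lit 0x100020001000000000001000000000000) (nat_lit 1) (nat_lit 1) (.st (nat_lit 8) (nat_lit 2) (nat_lit 5) (nat_lit 0x15044) (nat_lit 0x200020001000000000001000000010000) (nat_lit 1) (nat_lit 1) (.ex (nat_lit 4) t742_58 (.split (nat_lit 9) (nat_lit 0) (.split (nat_lit 9) (nat_lit 1) t742_59 (.non (nat_lit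 2) (nat_lit 5) (nat_lit 0x40105) (nat_lit 0x1000000000000000000010000000000010001))) (.non (nat_lit 1) (nat_lit 5) (nat_lit 0x40101) (nat_lit 0x1000000000000000000010000000000000001))))))))) (.split (nat_lit 8) (nat_lit 7) (.sup (nat_lit 0x5000000000000000000000008000a0002) (nat_lit 0x5000a000900020000000000000000)) (.non (nat_lit 1) (nat_lit 5) (nat_lit 0x14040) (nat_lit 0x100010000000000000001000000000000)))) (.split (nat_lit 8) (nat_lit 3) (.split (nat_lit 8) (nat_lit 7) (.unj (nat_lit 0x10014) (nat_lit 0x100000000000000000000000100010000) (nat_lit 0x5500) (nat_lit 0x10002000200010000000000000000)) (.non (nat_lit 1) (nat_lit 5) (nat_lit 0x14050) (nat_lit 0x100010000000000000001000100000000))) (.non (nat_lit 1) (nat_lit 5) (nat_lit 0x10050) (nat_lit 0x100000000000000000001000100000000)))) (.star (nat_lit 8) (nat_lit 1) (nat_lit 6))) (.star (nat_lit 8) (nat_lit 1) (nat_lit 5))) (.non (nat_lit 2) (nat_lit 5) (nat_lit 0x10105) (nat_lit 0x100000000000000010000000000010001))) (.non (nat_lit 2) (nat_lit 5) (nat_lit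 0x10005) (nat_lit 0x100000000000000000000000000010001)))) (.split (nat_lit 8) (nat_lit 1) (.split (nat_lit 8) (nat_lit 4) (.split (nat_lit 8) (nat_lit 5) (.split (nat_lit 8) (nat_lit 7) t742_86 (.non (nat_lit 2) (nat_lit 5) (nat_lit 0x15145) (nat_lit 0x200020001000000010001000000010002))) (.non (nat_lit 1) (nat_lit 6) (nat_lit 0x10501) (nat_lit 0x100000000000100010000000000000001))) (.non (nat_lit 1) (nat_lit 5) (nat_lit 0x10101) (nat_lit 0x100000000000000010000000000000001))) (.non (nat_lit 2) (nat_lit 5) (nat_lit 0x10005) (nat_lit 0x100000000000000000000000000010001))))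

noncomputable def t742_88 : Tr := (.ex (nat_lit 0xa) (.leaf (.cons (nat_lit 0x55400) (nat_lit 0x1000200030004000300000000000000000000) (.cons (nat_lit 0x554) (nat_lit 0x100020003000400030000) (.cons (nat_lit 0x1550) (nat_lit 0x3000400030002000100000000) (.cons (nat_lit 0x14015) (nat_lit 0x100020000000000000000000300040003) .nil)))) (.cons (nat_lit 0x111100) (nat_lit 0x1000010) (nat_lit 2) (nat_lit 0x321000) (.cons (nat_lit 0x11111000011) (nat_lit 0x100100) (nat_lit 0xd) (nat_lit 0x65401000032) .nil))) (.split (nat_lit 0xb) (nat_lit 0) (.split (nat_lit 0xb) (nat_lit 1) (.split (nat_lit 0xb) (nat_lit 2) (.split (nat_lit 0xb) (nat_lit 3) (.split (nat_lit 0xb) (nat_lit 4) (.split (nat_lit 0xb) (nat_lit 5) (.split (nat_lit 0xb) (nat_lit 6) (.split (nat_lit 0xb) (nat_lit 7) (.split (nat_lit 0xb) (nat_lit 8) (.split (nat_lit 0xb) (nat_lit 9) (.st (nat_lit 0xa) (nat_lit 1) (nat_lit 5) (nat_lit 0x555001) (nat_lit 0x100020002000200020001000000000000000000000001) (nat_lit 1) (nat_lit 1) (.st (nat_lit 0xb) (nat_lit 2)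 (nat_lit 5) (nat_lit 0x555005) (nat_lit 0x200030004000500060003000000000000000000020004) (nat_lit 1) (nat_lit 1) (.split (nat_lit 0xb) (nat_lit 0xa) (.leaf (.cons (nat_lit 0x55400) (nat_lit 0x1000200030004000300000000000000000000) (.cons (nat_lit 0x554) (nat_lit 0x100020003000400030000) (.cons (nat_lit 0x1550) (nat_lit 0x3000400030002000100000000) (.cons (nat_lit 0x14015) (nat_lit 0x100020000000000000000000300040003) .nil)))) (.cons (nat_lit 0x111100) (nat_lit 0x1000010) (nat_lit 2) (nat_lit 0x321000) (.cons (nat_lit 0x111111000011) (nat_lit 0x100100) (nat_lit 0xe) (nat_lit 0x765401000032) .nil))) (.non (nat_lit 1) (nat_lit 5) (nat_lit 0x955001) (nat_lit 0x100020002000200020001000000000000000000000001))))) (.non (nat_lit 1) (nat_lit 5) (nat_lit 0x540000) (nat_lit 0x100010001000000000000000000000000000000000000))) (.non (nat_lit 1) (nat_lit 5) (nat_lit 0x550000) (nat_lit 0x100010001000100000000000000000000000000000000))) (.non (nat_lit 1) (nat_lit 5) (nat_lit 0x554000) (nat_lit 0x100010001000100010000000000000000000000000000)))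 (.non (nat_lit 1) (nat_lit 5) (nat_lit 0x555000) (nat_lit 0x100010001000100010001000000000000000000000000))) (.non (nat_lit 2) (nat_lit 7) (nat_lit 0x541400) (nat_lit 0x300020001000000000003000400000000000000000000))) (.non (nat_lit 1) (nat_lit 6) (nat_lit 0x554550) (nat_lit 0x500040003000200010000000300060004000200000000))) (.non (nat_lit 1) (nat_lit 5) (nat_lit 0x555151) (nat_lit 0x200020002000200020001000000010002000100000001))) (.non (nat_lit 0) (nat_lit 5) (nat_lit 0x540014) (nat_lit 0x300020001000000000000000000000000000400030000))) (.non (nat_lit 2) (nat_lit 5) (nat_lit 0x554005) (nat_lit 0x100010001000100010000000000000000000000010001))) (.non (nat_lit 1) (nat_lit 5) (nat_lit 0x554001) (nat_lit 0x100010001000100010000000000000000000000000001))))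

noncomputable def t742_89 : Tr := (.split (nat_lit 9) (nat_lit 7) (.st (nat_lit 8) (nat_lit 1) (nat_lit 5) (nat_lit 0x55001) (nat_lit 0x1000200020001000000000000000000000001) (nat_lit 1) (nat_lit 1) (.split (nat_lit 9) (nat_lit 8) (.split (nat_lit 8) (nat_lit 7) (.split (nat_lit 7) (nat_lit 0) (.ex (nat_lit 9) (.leaf (.cons (nat_lit 0x55400) (nat_lit 0x1000200030004000300000000000000000000) (.cons (nat_lit 0x554) (nat_lit 0x100020003000400030000) (.cons (nat_lit 0x1550) (nat_lit 0x3000400030002000100000000) (.cons (nat_lit 0x14015) (nat_lit 0x100020000000000000000000300040003) .nil)))) (.cons (nat_lit 0x1111000011) (nat_lit 0x100100) (nat_lit 0xc) (nat_lit 0x5401000032) .nil)) (.split (nat_lit 0xa) (nat_lit 0) (.split (nat_lit 0xa) (nat_lit 1) (.split (nat_lit 0xa) (nat_lit 2) (.split (nat_lit 0xa) (nat_lit 3) (.split (nat_lit 0xa) (nat_lit 4) (.split (nat_lit 0xa) (nat_lit 5) (.split (nat_lit 0xa) (nat_lit 6) (.split (nat_lit 0xa) (nat_lit 7) (.split (nat_lit 0xa) (nat_lit 8) (.st (nat_lit 9) (nat_lit 1)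 (nat_lit 5) (nat_lit 0x155001) (nat_lit 0x10002000200020001000000000000000000000001) (nat_lit 1) (nat_lit 1) (.split (nat_lit 0xa) (nat_lit 9) t742_88 (.non (nat_lit 1) (nat_lit 5) (nat_lit 0x255001) (nat_lit 0x10002000200020001000000000000000000000001)))) (.non (nat_lit 1) (nat_lit 5) (nat_lit 0x150000) (nat_lit 0x10001000100000000000000000000000000000000))) (.non (nat_lit 1) (nat_lit 5) (nat_lit 0x154000) (nat_lit 0x10001000100010000000000000000000000000000))) (.non (nat_lit 1) (nat_lit 5) (nat_lit 0x155000) (nat_lit 0x10001000100010001000000000000000000000000))) (.non (nat_lit 2) (nat_lit 7) (nat_lit 0x151400) (nat_lit 0x30002000100000003000400000000000000000000))) (.non (nat_lit 1) (nat_lit 6) (nat_lit 0x154551) (nat_lit 0x50004000300020000000300060004000200000001))) (.non (nat_lit 1) (nat_lit 5) (nat_lit 0x155151) (nat_lit 0x20002000200020001000000010002000100000001))) (.non (nat_lit 0) (nat_lit 5) (nat_lit 0x150014) (nat_lit 0x30002000100000000000000000000000400030000))) (.non (nat_lit 2) (nat_lit 5)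 (nat_lit 0x154005) (nat_lit 0x10001000100010000000000000000000000010001))) (.non (nat_lit 1) (nat_lit 5) (nat_lit 0x154001) (nat_lit 0x10001000100010000000000000000000000000001)))) (.non (nat_lit 1) (nat_lit 5) (nat_lit 0x2a001) (nat_lit 0x100020001000000000000000000000002))) (.non (nat_lit 1) (nat_lit 5) (nat_lit 0x25001) (nat_lit 0x100020001000000000000000000000001))) (.non (nat_lit 1) (nat_lit 5) (nat_lit 0x95001) (nat_lit 0x1000200020001000000000000000000000001)))) (.non (nat_lit 1) (nat_lit 5) (nat_lit 0x54000) (nat_lit 0x1000100010000000000000000000000000000)))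

noncomputable def t742_90 : Tr := (.split (nat_lit 8) (nat_lit 2) (.split (nat_lit 8) (nat_lit 3) (.split (nat_lit 8) (nat_lit 4) (.split (nat_lit 8) (nat_lit 5) (.split (nat_lit 8) (nat_lit 6) (.st (nat_lit 7) (nat_lit 1) (nat_lit 5) (nat_lit 0x15001) (nat_lit 0x100020001000000000000000000000001) (nat_lit 1) (nat_lit 1) (.ex (nat_lit 8) (.split (nat_lit 8) (nat_lit 7) (.pd (.cons (nat_lit 0) (nat_lit 4) (nat_lit 0) (nat_lit 0x765502110) (nat_lit 0xf423fb71aea2c280473700000f423fb71ae1f15600000) .nil) (.split (nat_lit 7) (nat_lit 0) (.leaf (.cons (nat_lit 0x554) (nat_lit 0x100020003000400030000) (.cons (nat_lit 0x15401) (nat_lit 0x100020002000200000000000000000001) (.cons (nat_lit 0x1550) (nat_lit 0x3000400030002000100000000) (.cons (nat_lit 0x14015) (nat_lit 0x100020000000000000000000300040003) .nil)))) (.cons (nat_lit 0x111100) (nat_lit 0x1000010) (nat_lit 2) (nat_lit 0x321000) (.cons (nat_lit 0x111000011) (nat_lit 0x100100) (nat_lit 8) (nat_lit 0x201000043) .nil))) (.non (nat_lit 1) (nat_lit 5) (nat_lit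 0x2a001) (nat_lit 0x100020001000000000000000000000002)))) (.non (nat_lit 1) (nat_lit 5) (nat_lit 0x25001) (nat_lit 0x100020001000000000000000000000001))) (.split (nat_lit 9) (nat_lit 0) (.split (nat_lit 9) (nat_lit 1) (.split (nat_lit 9) (nat_lit 2) (.split (nat_lit 9) (nat_lit 3) (.split (nat_lit 9) (nat_lit 4) (.split (nat_lit 9) (nat_lit 5) (.split (nat_lit 9) (nat_lit 6) t742_89 (.non (nat_lit 1) (nat_lit 5) (nat_lit 0x55000) (nat_lit 0x1000100010001000000000000000000000000))) (.non (nat_lit 2) (nat_lit 7) (nat_lit 0x41500) (nat_lit 0x1000000000002000200010000000000000000))) (.non (nat_lit 0) (nat_lit 5) (nat_lit 0x40154) (nat_lit 0x1000000000000000000020003000400030000))) (.non (nat_lit 1) (nat_lit 5) (nat_lit 0x55151) (nat_lit 0x2000200020001000000010002000100000001))) (.non (nat_lit 0) (nat_lit 5) (nat_lit 0x54014) (nat_lit 0x3000200010000000000000000000400030000))) (.non (nat_lit 2) (nat_lit 5) (nat_lit 0x54005) (nat_lit 0x1000100010000000000000000000000010001))) (.non (nat_lit 1) (nat_lit 5) (nat_lit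 0x54001) (nat_lit 0x1000100010000000000000000000000000001))))) (.non (nat_lit 1) (nat_lit 5) (nat_lit 0x15000) (nat_lit 0x100010001000000000000000000000000))) (.non (nat_lit 2) (nat_lit 7) (nat_lit 0x11500) (nat_lit 0x100000002000200010000000000000000))) (.non (nat_lit 0) (nat_lit 5) (nat_lit 0x10154) (nat_lit 0x100000000000000020003000400030000))) (.non (nat_lit 1) (nat_lit 5) (nat_lit 0x15151) (nat_lit 0x200020001000000010002000100000001))) (.non (nat_lit 0) (nat_lit 5) (nat_lit 0x15014) (nat_lit 0x300020001000000000000000400030000)))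

noncomputable def t742_91 : Tr := (.ex (nat_lit 6) (.pd (.cons (nat_lit 2) (nat_lit 7) (nat_lit 0) (nat_lit 0x5433000) (nat_lit 0xf423f54591437a2174ea00000f423fb71ae) (.cons (nat_lit 3) (nat_lit 7) (nat_lit 0) (nat_lit 0x5440100) (nat_lit 0xf423f54591437a200000f423f54591437a2) .nil)) (.ex (nat_lit 7) (.split (nat_lit 7) (nat_lit 0) (.pd (.cons (nat_lit 0) (nat_lit 4) (nat_lit 0) (nat_lit 0x65502110) (nat_lit 0xf423fb71ae1f15600000f423fb71ae1f15600000) (.cons (nat_lit 1) (nat_lit 4) (nat_lit 0) (nat_lit 0x7602200) (nat_lit 0x437a254591f423f00000f423fb71ae00000174ea) (.cons (nat_lit 3) (nat_lit 6) (nat_lit 0) (nat_lit 0x440100) (nat_lit 0xf423f00000f423fb71ae00000f423f5459106711) .nil))) (.leaf (.cons (nat_lit 0x554) (nat_lit 0x100020003000400030000) (.cons (nat_lit 0x1550) (nat_lit 0x3000400030002000100000000) (.cons (nat_lit 0x5405) (nat_lit 0x30004000300000000000000010002) (.cons (nat_lit 0x5015) (nat_lit 0x20001000000000000000300040003) .nil)))) (.cons (nat_lit 0x11110) (nat_lit 0x100001) (nat_lit 0x10)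 (nat_lit 0x32100) .nil))) (.pd (.cons (nat_lit 0) (nat_lit 4) (nat_lit 0) (nat_lit 0x65502110) (nat_lit 0xf423fb71ae1f15600000f423fb71ae1f15600000) .nil) (.split (nat_lit 7) (nat_lit 0) (.leaf (.cons (nat_lit 0x554) (nat_lit 0x100020003000400030000) (.cons (nat_lit 0x5401) (nat_lit 0x10001000100000000000000000001) (.cons (nat_lit 0x1550) (nat_lit 0x3000400030002000100000000) (.cons (nat_lit 0x4015) (nat_lit 0x10000000000000000000100010001) .nil)))) (.cons (nat_lit 0x111100) (nat_lit 0x1000010) (nat_lit 2) (nat_lit 0x321000) (.cons (nat_lit 0x11000011) (nat_lit 0x100100) (nat_lit 0xf) (nat_lit 0x23000001) .nil))) (.non (nat_lit 2) (nat_lit 5) (nat_lit 0x5005) (nat_lit 0x20001000000000000000000010002))))) (.split (nat_lit 8) (nat_lit 0) (.split (nat_lit 8) (nat_lit 1) t742_90 (.non (nat_lit 2) (nat_lit 5) (nat_lit 0x14005) (nat_lit 0x100010000000000000000000000010001))) (.non (nat_lit 1) (nat_lit 5) (nat_lit 0x14001) (nat_lit 0x100010000000000000000000000000001))))) (.split (nat_lit 8) (nat_lit 0) (.split (nat_lit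 8) (nat_lit 1) (.split (nat_lit 8) (nat_lit 2) (.split (nat_lit 8) (nat_lit 3) (.split (nat_lit 8) (nat_lit 4) (.split (nat_lit 8) (nat_lit 7) (.split (nat_lit 8) (nat_lit 5) (.sup (nat_lit 0x20009000a0005) (nat_lit 0x50000000a000900020000000000000000)) (.unj (nat_lit 0x11400) (nat_lit 0x100000001000100000000000000000000) (nat_lit 0x55) (nat_lit 0x1000200020001))) (.non (nat_lit 1) (nat_lit 5) (nat_lit 0x15000) (nat_lit 0x100010001000000000000000000000000))) (.non (nat_lit 0) (nat_lit 5) (nat_lit 0x10154) (nat_lit 0x100000000000000020003000400030000))) (.non (nat_lit 0) (nat_lit 5) (nat_lit 0x11054) (nat_lit 0x200000001000000000003000400030000))) (.star (nat_lit 8) (nat_lit 2) (nat_lit 6))) (.star (nat_lit 8) (nat_lit 1) (nat_lit 6))) (.non (nat_lit 1) (nat_lit 5) (nat_lit 0x15001) (nat_lit 0x100010001000000000000000000000001))))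

noncomputable def t742_92 : Tr := (.ex (nat_lit 0xa) (.leaf (.cons (nat_lit 0x55400) (nat_lit 0x1000200030004000300000000000000000000) (.cons (nat_lit 0x154) (nat_lit 0x10001000100010000) (.cons (nat_lit 0x1540) (nat_lit 0x1000100010001000000000000) (.cons (nat_lit 0x14015) (nat_lit 0x100020000000000000000000300040003) .nil)))) (.cons (nat_lit 0x111100) (nat_lit 0x1000010) (nat_lit 0xf) (nat_lit 0x321000) (.cons (nat_lit 0x11111000011) (nat_lit 0x100100) (nat_lit 0xd) (nat_lit 0x65401000032) .nil))) (.split (nat_lit 0xb) (nat_lit 0) (.split (nat_lit 0xb) (nat_lit 1) (.split (nat_lit 0xb) (nat_lit 2) (.split (nat_lit 0xb) (nat_lit 3) (.split (nat_lit 0xb) (nat_lit 4) (.split (nat_lit 0xb) (nat_lit 5) (.split (nat_lit 0xb) (nat_lit 6) (.split (nat_lit 0xb) (nat_lit 7) (.split (nat_lit 0xb) (nat_lit 8) (.split (nat_lit 0xb) (nat_lit 9) (.st (nat_lit 0xa) (nat_lit 1) (nat_lit 5) (nat_lit 0x555001) (nat_lit 0x100020002000200020001000000000000000000000001) (nat_lit 1) (nat_lit 1) (.st (nat_lit 0xb) (nat_lit 2) (nat_lit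 5) (nat_lit 0x555005) (nat_lit 0x200030004000500060003000000000000000000020004) (nat_lit 1) (nat_lit 1) (.split (nat_lit 0xb) (nat_lit 0xa) (.leaf (.cons (nat_lit 0x55400) (nat_lit 0x1000200030004000300000000000000000000) (.cons (nat_lit 0x154) (nat_lit 0x10001000100010000) (.cons (nat_lit 0x1540) (nat_lit 0x1000100010001000000000000) (.cons (nat_lit 0x14015) (nat_lit 0x100020000000000000000000300040003) .nil)))) (.cons (nat_lit 0x111100) (nat_lit 0x1000010) (nat_lit 0xf) (nat_lit 0x321000) (.cons (nat_lit 0x111111000011) (nat_lit 0x100100) (nat_lit 0xe) (nat_lit 0x765401000032) .nil))) (.non (nat_lit 1) (nat_lit 5) (nat_lit 0x955001) (nat_lit 0x100020002000200020001000000000000000000000001))))) (.non (nat_lit 1) (nat_lit 5) (nat_lit 0x540000) (nat_lit 0x100010001000000000000000000000000000000000000))) (.non (nat_lit 1) (nat_lit 5) (nat_lit 0x550000) (nat_lit 0x100010001000100000000000000000000000000000000))) (.non (nat_lit 1) (nat_lit 5) (nat_lit 0x554000) (nat_lit 0x100010001000100010000000000000000000000000000)))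 (.non (nat_lit 1) (nat_lit 5) (nat_lit 0x555000) (nat_lit 0x100010001000100010001000000000000000000000000))) (.non (nat_lit 1) (nat_lit 6) (nat_lit 0x800a50) (nat_lit 0x100000000000000000000000200030004000200000000))) (.non (nat_lit 1) (nat_lit 5) (nat_lit 0xa00250) (nat_lit 0x200010000000000000000000000030004000200000000))) (.non (nat_lit 1) (nat_lit 5) (nat_lit 0x400250) (nat_lit 0x100000000000000000000000000010002000100000000))) (.non (nat_lit 1) (nat_lit 5) (nat_lit 0x555251) (nat_lit 0x200020002000200020001000000010002000200000001))) (.non (nat_lit 2) (nat_lit 5) (nat_lit 0x554005) (nat_lit 0x100010001000100010000000000000000000000010001))) (.non (nat_lit 1) (nat_lit 5) (nat_lit 0x554001) (nat_lit 0x100010001000100010000000000000000000000000001))))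

noncomputable def t742_93 : Tr := (.st (nat_lit 8) (nat_lit 1) (nat_lit 5) (nat_lit 0x55001) (nat_lit 0x1000200020001000000000000000000000001) (nat_lit 1) (nat_lit 1) (.split (nat_lit 9) (nat_lit 8) (.split (nat_lit 8) (nat_lit 7) (.split (nat_lit 7) (nat_lit 0) (.split (nat_lit 4) (nat_lit 3) (.ex (nat_lit 9) (.leaf (.cons (nat_lit 0x55400) (nat_lit 0x1000200030004000300000000000000000000) (.cons (nat_lit 0x154) (nat_lit 0x10001000100010000) (.cons (nat_lit 0x1540) (nat_lit 0x1000100010001000000000000) (.cons (nat_lit 0x14015) (nat_lit 0x100020000000000000000000300040003) .nil)))) (.cons (nat_lit 0x1111000011) (nat_lit 0x100100) (nat_lit 0xc) (nat_lit 0x5401000032) .nil)) (.split (nat_lit 0xa) (nat_lit 0) (.split (nat_lit 0xa) (nat_lit 1) (.split (nat_lit 0xa) (nat_lit 2) (.split (nat_lit 0xa) (nat_lit 3) (.split (nat_lit 0xa) (nat_lit 4) (.split (nat_lit 0xa) (nat_lit 5) (.split (nat_lit 0xa) (nat_lit 6) (.split (nat_lit 0xa) (nat_lit 7) (.split (nat_lit 0xa) (nat_lit 8) (.st (nat_lit 9) (nat_lit 1) (nat_lit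 5) (nat_lit 0x155001) (nat_lit 0x10002000200020001000000000000000000000001) (nat_lit 1) (nat_lit 1) (.split (nat_lit 0xa) (nat_lit 9) t742_92 (.non (nat_lit 1) (nat_lit 5) (nat_lit 0x255001) (nat_lit 0x10002000200020001000000000000000000000001)))) (.non (nat_lit 1) (nat_lit 5) (nat_lit 0x150000) (nat_lit 0x10001000100000000000000000000000000000000))) (.non (nat_lit 1) (nat_lit 5) (nat_lit 0x154000) (nat_lit 0x10001000100010000000000000000000000000000))) (.non (nat_lit 1) (nat_lit 5) (nat_lit 0x155000) (nat_lit 0x10001000100010001000000000000000000000000))) (.non (nat_lit 1) (nat_lit 6) (nat_lit 0x200a50) (nat_lit 0x10000000000000000000200030004000200000000))) (.non (nat_lit 1) (nat_lit 5) (nat_lit 0x280250) (nat_lit 0x20001000000000000000000030004000200000000))) (.non (nat_lit 1) (nat_lit 5) (nat_lit 0x100250) (nat_lit 0x10000000000000000000000010002000100000000))) (.non (nat_lit 1) (nat_lit 5) (nat_lit 0x155251) (nat_lit 0x20002000200020001000000010002000200000001))) (.non (nat_lit 2) (nat_lit 5) (nat_lit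 0x154005) (nat_lit 0x10001000100010000000000000000000000010001))) (.non (nat_lit 1) (nat_lit 5) (nat_lit 0x154001) (nat_lit 0x10001000100010000000000000000000000000001)))) (.non (nat_lit 1) (nat_lit 6) (nat_lit 0x550) (nat_lit 0x100020002000100000000))) (.non (nat_lit 1) (nat_lit 5) (nat_lit 0x2a001) (nat_lit 0x100020001000000000000000000000002))) (.non (nat_lit 1) (nat_lit 5) (nat_lit 0x25001) (nat_lit 0x100020001000000000000000000000001))) (.non (nat_lit 1) (nat_lit 5) (nat_lit 0x95001) (nat_lit 0x1000200020001000000000000000000000001))))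

noncomputable def t742_94 : Tr := (.split (nat_lit 8) (nat_lit 4) (.split (nat_lit 8) (nat_lit 5) (.split (nat_lit 8) (nat_lit 6) (.st (nat_lit 7) (nat_lit 1) (nat_lit 5) (nat_lit 0x15001) (nat_lit 0x100020001000000000000000000000001) (nat_lit 1) (nat_lit 1) (.ex (nat_lit 8) (.split (nat_lit 8) (nat_lit 7) (.pd (.cons (nat_lit 0) (nat_lit 4) (nat_lit 0) (nat_lit 0x765502110) (nat_lit 0xf423fb71aea2c280473700000f423fb71ae1f15600000) .nil) (.split (nat_lit 7) (nat_lit 0) (.split (nat_lit 4) (nat_lit 3) (.leaf (.cons (nat_lit 0x154) (nat_lit 0x10001000100010000) (.cons (nat_lit 0x15401) (nat_lit 0x100020002000200000000000000000001) (.cons (nat_lit 0x1540) (nat_lit 0x1000100010001000000000000) (.cons (nat_lit 0x14015) (nat_lit 0x100020000000000000000000300040003) .nil)))) (.cons (nat_lit 0x111100) (nat_lit 0x1000010) (nat_lit 0xf) (nat_lit 0x321000) (.cons (nat_lit 0x111000011) (nat_lit 0x100100) (nat_lit 8) (nat_lit 0x201000043) .nil))) (.non (nat_lit 1) (nat_lit 6) (nat_lit 0x550) (nat_lit 0x100020002000100000000)))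 (.non (nat_lit 1) (nat_lit 5) (nat_lit 0x2a001) (nat_lit 0x100020001000000000000000000000002)))) (.non (nat_lit 1) (nat_lit 5) (nat_lit 0x25001) (nat_lit 0x100020001000000000000000000000001))) (.split (nat_lit 9) (nat_lit 0) (.split (nat_lit 9) (nat_lit 1) (.split (nat_lit 9) (nat_lit 2) (.split (nat_lit 9) (nat_lit 3) (.split (nat_lit 9) (nat_lit 4) (.split (nat_lit 9) (nat_lit 5) (.split (nat_lit 9) (nat_lit 6) (.split (nat_lit 9) (nat_lit 7) t742_93 (.non (nat_lit 1) (nat_lit 5) (nat_lit 0x54000) (nat_lit 0x1000100010000000000000000000000000000))) (.non (nat_lit 1) (nat_lit 5) (nat_lit 0x55000) (nat_lit 0x1000100010001000000000000000000000000))) (.non (nat_lit 1) (nat_lit 6) (nat_lit 0x80a50) (nat_lit 0x1000000000000000200030004000200000000))) (.non (nat_lit 1) (nat_lit 5) (nat_lit 0xa0250) (nat_lit 0x2000100000000000000030004000200000000))) (.non (nat_lit 1) (nat_lit 5) (nat_lit 0x40250) (nat_lit 0x1000000000000000000010002000100000000))) (.non (nat_lit 1) (nat_lit 5) (nat_lit 0x55251) (nat_lit 0x2000200020001000000010002000200000001)))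 (.non (nat_lit 2) (nat_lit 5) (nat_lit 0x54005) (nat_lit 0x1000100010000000000000000000000010001))) (.non (nat_lit 1) (nat_lit 5) (nat_lit 0x54001) (nat_lit 0x1000100010000000000000000000000000001))))) (.non (nat_lit 1) (nat_lit 5) (nat_lit 0x15000) (nat_lit 0x100010001000000000000000000000000))) (.non (nat_lit 1) (nat_lit 6) (nat_lit 0x20a50) (nat_lit 0x100000000000200030004000200000000))) (.non (nat_lit 1) (nat_lit 5) (nat_lit 0x28250) (nat_lit 0x200010000000000030004000200000000)))

noncomputable def t742_95 : Tr := (.ex (nat_lit 6) (.pd (.cons (nat_lit 3) (nat_lit 7) (nat_lit 0) (nat_lit 0x5440100) (nat_lit 0xf423f54591437a200000f423f54591437a2) .nil) (.ex (nat_lit 7) (.split (nat_lit 7) (nat_lit 0) (.pd (.cons (nat_lit 0) (nat_lit 4) (nat_lit 0) (nat_lit 0x65502110) (nat_lit 0xf423fb71ae1f15600000f423fb71ae1f15600000) (.cons (nat_lit 1) (nat_lit 4) (nat_lit 0) (nat_lit 0x7602200) (nat_lit 0x437a254591f423f00000f423fb71ae00000174ea) (.cons (nat_lit 3) (nat_lit 6) (nat_lit 0) (nat_lit 0x440100) (nat_lit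 0xf423f00000f423fb71ae00000f423f5459106711) .nil))) (.split (nat_lit 4) (nat_lit 3) (.leaf (.cons (nat_lit 0x154) (nat_lit 0x10001000100010000) (.cons (nat_lit 0x1540) (nat_lit 0x1000100010001000000000000) (.cons (nat_lit 0x5405) (nat_lit 0x30004000300000000000000010002) (.cons (nat_lit 0x5015) (nat_lit 0x20001000000000000000300040003) .nil)))) (.cons (nat_lit 0x111100) (nat_lit 0x1000010) (nat_lit 0xf) (nat_lit 0x321000) (.cons (nat_lit 0x11000011) (nat_lit 0x100100) (nat_lit 2) (nat_lit 0x23000001) .nil))) (.non (nat_lit 1) (nat_lit 6) (nat_lit 0x550) (nat_lit 0x100020002000100000000)))) (.pd (.cons (nat_lit 0) (nat_lit 4) (nat_lit 0) (nat_lit 0x65502110) (nat_lit 0xf423fb71ae1f15600000f423fb71ae1f15600000) .nil) (.split (nat_lit 7) (nat_lit 0) (.split (nat_lit 4) (nat_lit 3) (.leaf (.cons (nat_lit 0x154) (nat_lit 0x10001000100010000) (.cons (nat_lit 0x5401) (nat_lit 0x10001000100000000000000000001) (.cons (nat_lit 0x1540) (nat_lit 0x1000100010001000000000000) (.cons (nat_lit 0x4015) (nat_lit 0x10000000000000000000100010001)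 .nil)))) (.cons (nat_lit 0x111100) (nat_lit 0x1000010) (nat_lit 0xf) (nat_lit 0x321000) (.cons (nat_lit 0x11000011) (nat_lit 0x100100) (nat_lit 0xf) (nat_lit 0x23000001) .nil))) (.non (nat_lit 1) (nat_lit 6) (nat_lit 0x550) (nat_lit 0x100020002000100000000))) (.non (nat_lit 2) (nat_lit 5) (nat_lit 0x5005) (nat_lit 0x20001000000000000000000010002))))) (.split (nat_lit 8) (nat_lit 0) (.split (nat_lit 8) (nat_lit 1) (.split (nat_lit 8) (nat_lit 2) (.split (nat_lit 8) (nat_lit 3) t742_94 (.non (nat_lit 1) (nat_lit 5) (nat_lit 0x10250) (nat_lit 0x100000000000000010002000100000000))) (.non (nat_lit 1) (nat_lit 5) (nat_lit 0x15251) (nat_lit 0x200020001000000010002000200000001))) (.non (nat_lit 2) (nat_lit 5) (nat_lit 0x14005) (nat_lit 0x100010000000000000000000000010001))) (.non (nat_lit 1) (nat_lit 5) (nat_lit 0x14001) (nat_lit 0x100010000000000000000000000000001))))) (.split (nat_lit 8) (nat_lit 0) (.split (nat_lit 8) (nat_lit 1) (.split (nat_lit 8) (nat_lit 2) (.split (nat_lit 8) (nat_lit 3) (.split (nat_lit 8)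 (nat_lit 4) (.split (nat_lit 8) (nat_lit 5) (.split (nat_lit 8) (nat_lit 7) (.sup (nat_lit 0x5000a00090002) (nat_lit 0x50002000a000800000000000000000000)) (.non (nat_lit 1) (nat_lit 5) (nat_lit 0x15000) (nat_lit 0x100010001000000000000000000000000))) (.non (nat_lit 1) (nat_lit 6) (nat_lit 0x20a50) (nat_lit 0x100000000000200030004000200000000))) (.non (nat_lit 1) (nat_lit 5) (nat_lit 0x22250) (nat_lit 0x200000001000000030004000200000000))) (.non (nat_lit 1) (nat_lit 5) (nat_lit 0x10250) (nat_lit 0x100000000000000010002000100000000))) (.star (nat_lit 8) (nat_lit 2) (nat_lit 6))) (.star (nat_lit 8) (nat_lit 1) (nat_lit 6))) (.non (nat_lit 1) (nat_lit 5) (nat_lit 0x15001) (nat_lit 0x100010001000000000000000000000001))))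

noncomputable def t742_96 : Tr := (.split (nat_lit 4) (nat_lit 3) (.pd (.cons (nat_lit 0) (nat_lit 5) (nat_lit 0) (nat_lit 0x66032110) (nat_lit 0xf423fb71ae00000f423fb71aea2c280473700000) .nil) (.ex (nat_lit 5) t742_91 (.split (nat_lit 8) (nat_lit 1) (.split (nat_lit 8) (nat_lit 2) (.split (nat_lit 8) (nat_lit 3) (.split (nat_lit 8) (nat_lit 4) (.split (nat_lit 8) (nat_lit 0) (.split (nat_lit 8) (nat_lit 6) (.split (nat_lit 8) (nat_lit 7) (.sup (nat_lit 0x1000500050003) (nat_lit 0x300000004000500010000000000000000)) (.sup (nat_lit 0x1000500050003) (nat_lit 0x300000004000500010000000000000000))) (.split (nat_lit 8) (nat_lit 7) (.unj (nat_lit 0x11400) (nat_lit 0x100000001000100000000000000000000) (nat_lit 0x55) (nat_lit 0x1000200020001)) (.non (nat_lit 1) (nat_lit 5) (nat_lit 0x15000) (nat_lit 0x100010001000000000000000000000000)))) (.split (nat_lit 8) (nat_lit 6) (.split (nat_lit 8) (nat_lit 7) (.st (nat_lit 5) (nat_lit 1) (nat_lit 6) (nat_lit 0x14551) (nat_lit 0x300010000000400030002000100000002) (nat_lit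 1) (nat_lit 2) (.st (nat_lit 7) (nat_lit 2) (nat_lit 5) (nat_lit 0x15005) (nat_lit 0x100020001000000000000000000010002) (nat_lit 1) (nat_lit 1) (.st (nat_lit 8) (nat_lit 2) (nat_lit 6) (nat_lit 0x14405) (nat_lit 0x200010000000100000000000000010002) (nat_lit 1) (nat_lit 1) (.split (nat_lit 8) (nat_lit 0) (.split (nat_lit 7) (nat_lit 0) (.split (nat_lit 8) (nat_lit 5) (.leaf (.cons (nat_lit 0x15400) (nat_lit 0x100010002000200000000000000000000) (.cons (nat_lit 0x554) (nat_lit 0x100020003000400030000) (.cons (nat_lit 0x11500) (nat_lit 0x100000002000200010000000000000000) (.cons (nat_lit 0x14015) (nat_lit 0x100010000000000000000000200020002) .nil)))) (.cons (nat_lit 0x110111101) (nat_lit 0x1000010) (nat_lit 5) (nat_lit 0x460321005) .nil)) (.non (nat_lit 1) (nat_lit 6) (nat_lit 0x14a01) (nat_lit 0x300010000000200010000000000000002))) (.non (nat_lit 2) (nat_lit 5) (nat_lit 0x18005) (nat_lit 0x100010000000000000000000000010002))) (.non (nat_lit 1) (nat_lit 6) (nat_lit 0x24a01) (nat_lit 0x300020000000200010000000000000004))))))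 (.non (nat_lit 1) (nat_lit 5) (nat_lit 0x14001) (nat_lit 0x100010000000000000000000000000001))) (.non (nat_lit 1) (nat_lit 5) (nat_lit 0x15001) (nat_lit 0x100010001000000000000000000000001)))) (.non (nat_lit 1) (nat_lit 6) (nat_lit 0x10500) (nat_lit 0x100000000000100010000000000000000))) (.non (nat_lit 1) (nat_lit 6) (nat_lit 0x10540) (nat_lit 0x100000000000100010001000000000000))) (.star (nat_lit 8) (nat_lit 2) (nat_lit 5))) (.star (nat_lit 8) (nat_lit 1) (nat_lit 5))))) (.st (nat_lit 5) (nat_lit 1) (nat_lit 6) (nat_lit 0xa50) (nat_lit 0x200030004000200000000) (nat_lit 2) (nat_lit 1) t742_95))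

noncomputable def t742_97 : Tr := (.ex (nat_lit 0xa) (.leaf (.cons (nat_lit 0x10154) (nat_lit 0x100000000000000020003000400030000) (.cons (nat_lit 0x51500) (nat_lit 0x1000200000003000400030000000000000000) (.cons (nat_lit 0x5405) (nat_lit 0x30004000300000000000000010002) (.cons (nat_lit 0x5015) (nat_lit 0x20001000000000000000300040003) .nil)))) (.cons (nat_lit 0x11100111100) (nat_lit 0x1000010) (nat_lit 0xd) (nat_lit 0x65400102300) (.cons (nat_lit 0x11000011) (nat_lit 0x100100) (nat_lit 2) (nat_lit 0x23000001) .nil))) (.split (nat_lit 0xb) (nat_lit 0) (.split (nat_lit 0xb) (nat_lit 1) (.split (nat_lit 0xb) (nat_lit 2) (.split (nat_lit 0xb) (nat_lit 3) (.split (nat_lit 0xb) (nat_lit 4) (.split (nat_lit 0xb) (nat_lit 5) (.split (nat_lit 0xb) (nat_lit 6) (.split (nat_lit 0xb) (nat_lit 7) (.split (nat_lit 0xb) (nat_lit 8) (.split (nat_lit 0xb) (nat_lit 9) (.st (nat_lit 0xa) (nat_lit 1) (nat_lit 6) (nat_lit 0x550540) (nat_lit 0x100020002000200000000000100020001000000000000) (nat_lit 1) (nat_lit 1) (.st (nat_lit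 0xb) (nat_lit 1) (nat_lit 6) (nat_lit 0x550550) (nat_lit 0x200030004000500000000000300060004000200000000) (nat_lit 1) (nat_lit 1) (.split (nat_lit 0xb) (nat_lit 0xa) (.leaf (.cons (nat_lit 0x10154) (nat_lit 0x100000000000000020003000400030000) (.cons (nat_lit 0x51500) (nat_lit 0x1000200000003000400030000000000000000) (.cons (nat_lit 0x5405) (nat_lit 0x30004000300000000000000010002) (.cons (nat_lit 0x5015) (nat_lit 0x20001000000000000000300040003) .nil)))) (.cons (nat_lit 0x111100111100) (nat_lit 0x1000010) (nat_lit 0xe) (nat_lit 0x765400102300) (.cons (nat_lit 0x11000011) (nat_lit 0x100100) (nat_lit 2) (nat_lit 0x23000001) .nil))) (.non (nat_lit 1) (nat_lit 6) (nat_lit 0x950540) (nat_lit 0x100020002000200000000000100020001000000000000))))) (.non (nat_lit 1) (nat_lit 5) (nat_lit 0x540000) (nat_lit 0x100010001000000000000000000000000000000000000))) (.non (nat_lit 1) (nat_lit 5) (nat_lit 0x550000) (nat_lit 0x100010001000100000000000000000000000000000000))) (.non (nat_lit 1) (nat_lit 6) (nat_lit 0x554550) (nat_lit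 0x200030004000500010000000300060004000200000000))) (.non (nat_lit 0) (nat_lit 4) (nat_lit 0x541400) (nat_lit 0x300020001000000000004000300000000000000000000))) (.non (nat_lit 1) (nat_lit 6) (nat_lit 0x550500) (nat_lit 0x100010001000100000000000100010000000000000000))) (.non (nat_lit 1) (nat_lit 5) (nat_lit 0x550100) (nat_lit 0x100010001000100000000000000010000000000000000))) (.non (nat_lit 1) (nat_lit 5) (nat_lit 0x550140) (nat_lit 0x100010001000100000000000000010001000000000000))) (.non (nat_lit 1) (nat_lit 5) (nat_lit 0x550150) (nat_lit 0x100010001000100000000000000010001000100000000))) (.non (nat_lit 0) (nat_lit 4) (nat_lit 0x540014) (nat_lit 0x300020001000000000000000000000000000300040000))) (.non (nat_lit 1) (nat_lit 6) (nat_lit 0x550551) (nat_lit 0x200030004000500000000000300060004000200000001))))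

noncomputable def t742_98 : Tr := (.split (nat_lit 9) (nat_lit 6) (.split (nat_lit 9) (nat_lit 7) (.st (nat_lit 8) (nat_lit 1) (nat_lit 6) (nat_lit 0x50540) (nat_lit 0x1000200000000000100020001000000000000) (nat_lit 1) (nat_lit 1) (.split (nat_lit 9) (nat_lit 8) (.split (nat_lit 4) (nat_lit 3) (.ex (nat_lit 9) (.leaf (.cons (nat_lit 0x10154) (nat_lit 0x100000000000000020003000400030000) (.cons (nat_lit 0x51500) (nat_lit 0x1000200000003000400030000000000000000) (.cons (nat_lit 0x5405) (nat_lit 0x30004000300000000000000010002) (.cons (nat_lit 0x5015) (nat_lit 0x20001000000000000000300040003) .nil)))) (.cons (nat_lit 0x1100111100) (nat_lit 0x1000010) (nat_lit 0xc) (nat_lit 0x5400102300) .nil)) (.split (nat_lit 0xa) (nat_lit 0) (.split (nat_lit 0xa) (nat_lit 1) (.split (nat_lit 0xa) (nat_lit 2) (.split (nat_lit 0xa) (nat_lit 3) (.split (nat_lit 0xa) (nat_lit 4) (.split (nat_lit 0xa) (nat_lit 5) (.split (nat_lit 0xa) (nat_lit 6) (.split (nat_lit 0xa) (nat_lit 7) (.split (nat_lit 0xa) (nat_lit 8) (.st (nat_lit 9)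 (nat_lit 1) (nat_lit 6) (nat_lit 0x150540) (nat_lit 0x10002000200000000000100020001000000000000) (nat_lit 1) (nat_lit 1) (.split (nat_lit 0xa) (nat_lit 9) t742_97 (.non (nat_lit 1) (nat_lit 6) (nat_lit 0x250540) (nat_lit 0x10002000200000000000100020001000000000000)))) (.non (nat_lit 1) (nat_lit 5) (nat_lit 0x150000) (nat_lit 0x10001000100000000000000000000000000000000))) (.non (nat_lit 1) (nat_lit 6) (nat_lit 0x154551) (nat_lit 0x30004000500020000000300060004000200000001))) (.non (nat_lit 0) (nat_lit 4) (nat_lit 0x151400) (nat_lit 0x30002000100000004000300000000000000000000))) (.non (nat_lit 1) (nat_lit 6) (nat_lit 0x150500) (nat_lit 0x10001000100000000000100010000000000000000))) (.non (nat_lit 1) (nat_lit 5) (nat_lit 0x150100) (nat_lit 0x10001000100000000000000010000000000000000))) (.non (nat_lit 1) (nat_lit 5) (nat_lit 0x150140) (nat_lit 0x10001000100000000000000010001000000000000))) (.non (nat_lit 1) (nat_lit 5) (nat_lit 0x150150) (nat_lit 0x10001000100000000000000010001000100000000))) (.non (nat_lit 0)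 (nat_lit 4) (nat_lit 0x150014) (nat_lit 0x30002000100000000000000000000000300040000))) (.non (nat_lit 1) (nat_lit 6) (nat_lit 0x154551) (nat_lit 0x30004000500010000000300060004000200000002)))) (.non (nat_lit 1) (nat_lit 5) (nat_lit 0xa0250) (nat_lit 0x1000200000000000000030004000200000000))) (.non (nat_lit 1) (nat_lit 6) (nat_lit 0x90540) (nat_lit 0x1000200000000000100020001000000000000)))) (.non (nat_lit 0) (nat_lit 4) (nat_lit 0x55400) (nat_lit 0x2000100030004000300000000000000000000))) (.non (nat_lit 0) (nat_lit 4) (nat_lit 0x45400) (nat_lit 0x1000000010002000200000000000000000000)))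

noncomputable def t742_99 : Tr := (.ex (nat_lit 0xa) (.leaf (.cons (nat_lit 0x10154) (nat_lit 0x100000000000000020003000400030000) (.cons (nat_lit 0x5401) (nat_lit 0x10001000100000000000000000001) (.cons (nat_lit 0x51500) (nat_lit 0x1000200000003000400030000000000000000) (.cons (nat_lit 0x4015) (nat_lit 0x10000000000000000000100010001) .nil)))) (.cons (nat_lit 0x11100111100) (nat_lit 0x1000010) (nat_lit 0xd) (nat_lit 0x65400102300) (.cons (nat_lit 0x11000011) (nat_lit 0x100100) (nat_lit 0xf) (nat_lit 0x23000001) .nil))) (.split (nat_lit 0xb) (nat_lit 0) (.split (nat_lit 0xb) (nat_lit 1) (.split (nat_lit 0xb) (nat_lit 2) (.split (nat_lit 0xb) (nat_lit 3) (.split (nat_lit 0xb) (nat_lit 4) (.split (nat_lit 0xb) (nat_lit 5) (.split (nat_lit 0xb) (nat_lit 6) (.split (nat_lit 0xb) (nat_lit 7) (.split (nat_lit 0xb) (nat_lit 8) (.split (nat_lit 0xb) (nat_lit 9) (.st (nat_lit 0xa) (nat_lit 1) (nat_lit 6) (nat_lit 0x550540) (nat_lit 0x100020002000200000000000100020001000000000000) (nat_lit 1) (nat_lit 1) (.st (nat_lit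 0xb) (nat_lit 1) (nat_lit 6) (nat_lit 0x550550) (nat_lit 0x200030004000500000000000300060004000200000000) (nat_lit 1) (nat_lit 1) (.split (nat_lit 0xb) (nat_lit 0xa) (.leaf (.cons (nat_lit 0x10154) (nat_lit 0x100000000000000020003000400030000) (.cons (nat_lit 0x5401) (nat_lit 0x10001000100000000000000000001) (.cons (nat_lit 0x51500) (nat_lit 0x1000200000003000400030000000000000000) (.cons (nat_lit 0x4015) (nat_lit 0x10000000000000000000100010001) .nil)))) (.cons (nat_lit 0x111100111100) (nat_lit 0x1000010) (nat_lit 0xe) (nat_lit 0x765400102300) (.cons (nat_lit 0x11000011) (nat_lit 0x100100) (nat_lit 0xf) (nat_lit 0x23000001) .nil))) (.non (nat_lit 1) (nat_lit 6) (nat_lit 0x950540) (nat_lit 0x100020002000200000000000100020001000000000000))))) (.non (nat_lit 1) (nat_lit 5) (nat_lit 0x540000) (nat_lit 0x100010001000000000000000000000000000000000000))) (.non (nat_lit 1) (nat_lit 5) (nat_lit 0x550000) (nat_lit 0x100010001000100000000000000000000000000000000))) (.non (nat_lit 1) (nat_lit 5) (nat_lit 0x80a001) (nat_lit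 0x100000000000000020001000000000000000000000002))) (.non (nat_lit 2) (nat_lit 5) (nat_lit 0x80a005) (nat_lit 0x100000000000000030002000000000000000000020004))) (.non (nat_lit 1) (nat_lit 6) (nat_lit 0x550500) (nat_lit 0x100010001000100000000000100010000000000000000))) (.non (nat_lit 1) (nat_lit 5) (nat_lit 0x550100) (nat_lit 0x100010001000100000000000000010000000000000000))) (.non (nat_lit 1) (nat_lit 5) (nat_lit 0x550140) (nat_lit 0x100010001000100000000000000010001000000000000))) (.non (nat_lit 1) (nat_lit 5) (nat_lit 0x550150) (nat_lit 0x100010001000100000000000000010001000100000000))) (.non (nat_lit 2) (nat_lit 5) (nat_lit 0x40a005) (nat_lit 0x100000000000000020001000000000000000000020003))) (.non (nat_lit 1) (nat_lit 5) (nat_lit 0x50a001) (nat_lit 0x200010000000000020001000000000000000000000003))))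

noncomputable def t742_100 : Tr := (.st (nat_lit 8) (nat_lit 1) (nat_lit 6) (nat_lit 0x50540) (nat_lit 0x1000200000000000100020001000000000000) (nat_lit 1) (nat_lit 1) (.split (nat_lit 9) (nat_lit 8) (.split (nat_lit 7) (nat_lit 0) (.split (nat_lit 8) (nat_lit 4) (.split (nat_lit 4) (nat_lit 3) (.ex (nat_lit 9) (.leaf (.cons (nat_lit 0x10154) (nat_lit 0x100000000000000020003000400030000) (.cons (nat_lit 0x5401) (nat_lit 0x10001000100000000000000000001) (.cons (nat_lit 0x51500) (nat_lit 0x1000200000003000400030000000000000000) (.cons (nat_lit 0x4015) (nat_lit 0x10000000000000000000100010001) .nil)))) (.cons (nat_lit 0x1100111100) (nat_lit 0x1000010) (nat_lit 0xc) (nat_lit 0x5400102300) .nil)) (.split (nat_lit 0xa) (nat_lit 0) (.split (nat_lit 0xa) (nat_lit 1) (.split (nat_lit 0xa) (nat_lit 2) (.split (nat_lit 0xa) (nat_lit 3) (.split (nat_lit 0xa) (nat_lit 4) (.split (nat_lit 0xa) (nat_lit 5) (.split (nat_lit 0xa) (nat_lit 6) (.split (nat_lit 0xa) (nat_lit 7) (.split (nat_lit 0xa) (nat_lit 8) (.st (nat_lit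 9) (nat_lit 1) (nat_lit 6) (nat_lit 0x150540) (nat_lit 0x10002000200000000000100020001000000000000) (nat_lit 1) (nat_lit 1) (.split (nat_lit 0xa) (nat_lit 9) t742_99 (.non (nat_lit 1) (nat_lit 6) (nat_lit 0x250540) (nat_lit 0x10002000200000000000100020001000000000000)))) (.non (nat_lit 1) (nat_lit 5) (nat_lit 0x150000) (nat_lit 0x10001000100000000000000000000000000000000))) (.non (nat_lit 1) (nat_lit 5) (nat_lit 0x20a001) (nat_lit 0x10000000000020001000000000000000000000002))) (.non (nat_lit 2) (nat_lit 5) (nat_lit 0x20a005) (nat_lit 0x10000000000030002000000000000000000020004))) (.non (nat_lit 1) (nat_lit 6) (nat_lit 0x150500) (nat_lit 0x10001000100000000000100010000000000000000))) (.non (nat_lit 1) (nat_lit 5) (nat_lit 0x150100) (nat_lit 0x10001000100000000000000010000000000000000))) (.non (nat_lit 1) (nat_lit 5) (nat_lit 0x150140) (nat_lit 0x10001000100000000000000010001000000000000))) (.non (nat_lit 1) (nat_lit 5) (nat_lit 0x150150) (nat_lit 0x10001000100000000000000010001000100000000))) (.non (nat_lit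 2) (nat_lit 5) (nat_lit 0x10a005) (nat_lit 0x10000000000020001000000000000000000020003))) (.non (nat_lit 1) (nat_lit 5) (nat_lit 0x14a001) (nat_lit 0x20001000000020001000000000000000000000003)))) (.non (nat_lit 1) (nat_lit 5) (nat_lit 0xa0250) (nat_lit 0x1000200000000000000030004000200000000))) (.non (nat_lit 1) (nat_lit 5) (nat_lit 0xa0150) (nat_lit 0x1000200000000000000030002000100000000))) (.non (nat_lit 2) (nat_lit 5) (nat_lit 0x5005) (nat_lit 0x20001000000000000000000010002))) (.non (nat_lit 1) (nat_lit 6) (nat_lit 0x90540) (nat_lit 0x1000200000000000100020001000000000000))))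

noncomputable def t742_101 : Tr := (.split (nat_lit 7) (nat_lit 0) (.split (nat_lit 8) (nat_lit 4) (.pd (.cons (nat_lit 0) (nat_lit 4) (nat_lit 0) (nat_lit 0x865502110) (nat_lit 0xf423ff423fb71ae1f15600000f423fb71ae1f15600000) (.cons (nat_lit 1) (nat_lit 4) (nat_lit 0) (nat_lit 0x807602200) (nat_lit 0xf423f437a254591f423f00000f423fb71ae00000174ea) (.cons (nat_lit 3) (nat_lit 6) (nat_lit 0) (nat_lit 0x400440100) (nat_lit 0xf423ff423f00000f423f7a11d00000f423f5459106711) .nil))) (.ex (nat_lit 8) (.pd (.cons (nat_lit 3) (nat_lit 7) (nat_lit 0) (nat_lit 0x405440100) (nat_lit 0xf423f00000f423f545910671100000f423f54591437a2) .nil) (.split (nat_lit 4) (nat_lit 3) (.leaf (.cons (nat_lit 0x10154) (nat_lit 0x100000000000000020003000400030000) (.cons (nat_lit 0x11540) (nat_lit 0x100000002000200020001000000000000) (.cons (nat_lit 0x5405) (nat_lit 0x30004000300000000000000010002) (.cons (nat_lit 0x5015) (nat_lit 0x20001000000000000000300040003) .nil)))) (.cons (nat_lit 0x100111100) (nat_lit 0x1000010) (nat_lit 8) (nat_lit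 0x200103400) (.cons (nat_lit 0x11000011) (nat_lit 0x100100) (nat_lit 2) (nat_lit 0x23000001) .nil))) (.non (nat_lit 1) (nat_lit 6) (nat_lit 0x20a40) (nat_lit 0x100000000000100020002000000000000)))) (.split (nat_lit 9) (nat_lit 0) (.split (nat_lit 9) (nat_lit 1) (.split (nat_lit 9) (nat_lit 2) (.split (nat_lit 9) (nat_lit 3) (.split (nat_lit 9) (nat_lit 4) (.split (nat_lit 9) (nat_lit 5) t742_98 (.non (nat_lit 1) (nat_lit 6) (nat_lit 0x50500) (nat_lit 0x1000100000000000100010000000000000000))) (.non (nat_lit 1) (nat_lit 5) (nat_lit 0x50100) (nat_lit 0x1000100000000000000010000000000000000))) (.non (nat_lit 1) (nat_lit 5) (nat_lit 0x50140) (nat_lit 0x1000100000000000000010001000000000000))) (.non (nat_lit 1) (nat_lit 5) (nat_lit 0x50150) (nat_lit 0x1000100000000000000010001000100000000))) (.non (nat_lit 0) (nat_lit 4) (nat_lit 0x40054) (nat_lit 0x1000000000000000000000001000200020000))) (.non (nat_lit 2) (nat_lit 6) (nat_lit 0x54545) (nat_lit 0x2000200010000000100020001000000010002))))) (.non (nat_lit 1) (nat_lit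 6) (nat_lit 0x20540) (nat_lit 0x100000000000100020001000000000000))) (.pd (.cons (nat_lit 0) (nat_lit 4) (nat_lit 0) (nat_lit 0x865502110) (nat_lit 0xf423ff423fb71ae1f15600000f423fb71ae1f15600000) .nil) (.ex (nat_lit 8) (.split (nat_lit 8) (nat_lit 4) (.pd (.cons (nat_lit 3) (nat_lit 7) (nat_lit 0) (nat_lit 0x405440100) (nat_lit 0xf423f00000f423f545910671100000f423f54591437a2) .nil) (.split (nat_lit 7) (nat_lit 0) (.split (nat_lit 4) (nat_lit 3) (.leaf (.cons (nat_lit 0x10154) (nat_lit 0x100000000000000020003000400030000) (.cons (nat_lit 0x5401) (nat_lit 0x10001000100000000000000000001) (.cons (nat_lit 0x11540) (nat_lit 0x100000002000200020001000000000000) (.cons (nat_lit 0x4015) (nat_lit 0x10000000000000000000100010001) .nil)))) (.cons (nat_lit 0x100111100) (nat_lit 0x1000010) (nat_lit 8) (nat_lit 0x200103400) (.cons (nat_lit 0x11000011) (nat_lit 0x100100) (nat_lit 0xf) (nat_lit 0x23000001) .nil))) (.non (nat_lit 1) (nat_lit 6) (nat_lit 0x20a40) (nat_lit 0x100000000000100020002000000000000))) (.non (nat_lit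 2) (nat_lit 5) (nat_lit 0x5005) (nat_lit 0x20001000000000000000000010002)))) (.non (nat_lit 1) (nat_lit 6) (nat_lit 0x20540) (nat_lit 0x100000000000100020001000000000000))) (.split (nat_lit 9) (nat_lit 0) (.split (nat_lit 9) (nat_lit 1) (.split (nat_lit 9) (nat_lit 2) (.split (nat_lit 9) (nat_lit 3) (.split (nat_lit 9) (nat_lit 4) (.split (nat_lit 9) (nat_lit 5) (.split (nat_lit 9) (nat_lit 6) (.split (nat_lit 9) (nat_lit 7) t742_100 (.non (nat_lit 1) (nat_lit 5) (nat_lit 0x8a001) (nat_lit 0x1000000020001000000000000000000000002))) (.non (nat_lit 2) (nat_lit 5) (nat_lit 0x8a005) (nat_lit 0x1000000030002000000000000000000020004))) (.non (nat_lit 1) (nat_lit 6) (nat_lit 0x50500) (nat_lit 0x1000100000000000100010000000000000000))) (.non (nat_lit 1) (nat_lit 5) (nat_lit 0x50100) (nat_lit 0x1000100000000000000010000000000000000))) (.non (nat_lit 1) (nat_lit 5) (nat_lit 0x50140) (nat_lit 0x1000100000000000000010001000000000000))) (.non (nat_lit 1) (nat_lit 5) (nat_lit 0x50150) (nat_lit 0x1000100000000000000010001000100000000)))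 (.non (nat_lit 2) (nat_lit 5) (nat_lit 0x4a005) (nat_lit 0x1000000020001000000000000000000020003))) (.non (nat_lit 1) (nat_lit 5) (nat_lit 0x5a001) (nat_lit 0x2000100020001000000000000000000000003))))))

noncomputable def t742_102 : Tr := (.split (nat_lit 0xc) (nat_lit 0) (.split (nat_lit 0xc) (nat_lit 1) (.split (nat_lit 0xc) (nat_lit 2) (.split (nat_lit 0xc) (nat_lit 3) (.split (nat_lit 0xc) (nat_lit 4) (.split (nat_lit 0xc) (nat_lit 5) (.split (nat_lit 0xc) (nat_lit 6) (.split (nat_lit 0xc) (nat_lit 7) (.split (nat_lit 0xc) (nat_lit 8) (.split (nat_lit 0xc) (nat_lit 9) (.split (nat_lit 0xc) (nat_lit 0xa) (.st (nat_lit 0xb) (nat_lit 1) (nat_lit 5) (nat_lit 0x1545001) (nat_lit 0x1000200020002000000020001000000000000000000000001) (nat_lit 1) (nat_lit 1) (.st (nat_lit 0xc) (nat_lit 2) (nat_lit 5) (nat_lit 0x1545005) (nat_lit 0x2000300040005000000060003000000000000000000020004) (nat_lit 1) (nat_lit 1) (.split (nat_lit 0xc) (nat_lit 0xb) (.leaf (.cons (nat_lit 0x145400) (nat_lit 0x10002000000030004000300000000000000000000)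 (.cons (nat_lit 0x10154) (nat_lit 0x100000000000000020003000400030000) (.cons (nat_lit 0x11540) (nat_lit 0x100000002000200020001000000000000) (.cons (nat_lit 0x44015) (nat_lit 0x1000000020000000000000000000300040003) .nil)))) (.cons (nat_lit 0x100111100) (nat_lit 0x1000010) (nat_lit 8) (nat_lit 0x200103400) (.cons (nat_lit 0x1111011000011) (nat_lit 0x100100) (nat_lit 0xe) (nat_lit 0x7654001000032) .nil))) (.non (nat_lit 1) (nat_lit 5) (nat_lit 0x2545001) (nat_lit 0x1000200020002000000020001000000000000000000000001))))) (.non (nat_lit 1) (nat_lit 5) (nat_lit 0x1500000) (nat_lit 0x1000100010000000000000000000000000000000000000000))) (.non (nat_lit 1) (nat_lit 5) (nat_lit 0x1540000) (nat_lit 0x1000100010001000000000000000000000000000000000000))) (.non (nat_lit 1) (nat_lit 6) (nat_lit 0x1550550) (nat_lit 0x4000300020001000500000000000300060004000200000000))) (.non (nat_lit 1) (nat_lit 5) (nat_lit 0x1544000) (nat_lit 0x1000100010001000000010000000000000000000000000000))) (.non (nat_lit 1) (nat_lit 5) (nat_lit 0x1545000)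 (nat_lit 0x1000100010001000000010001000000000000000000000000))) (.non (nat_lit 1) (nat_lit 6) (nat_lit 0x1550550) (nat_lit 0x4000300020001000300000000000500060004000200000000))) (.non (nat_lit 1) (nat_lit 5) (nat_lit 0x1554150) (nat_lit 0x5000400030002000300010000000000060004000200000000))) (.non (nat_lit 1) (nat_lit 5) (nat_lit 0x1554150) (nat_lit 0x5000400030002000200010000000000040006000300000000))) (.non (nat_lit 3) (nat_lit 7) (nat_lit 0x1500014) (nat_lit 0x3000200010000000000000000000000000000000400030000))) (.non (nat_lit 2) (nat_lit 5) (nat_lit 0x1544005) (nat_lit 0x1000100010001000000010000000000000000000000010001))) (.non (nat_lit 1) (nat_lit 5) (nat_lit 0x1544001) (nat_lit 0x1000100010001000000010000000000000000000000000001)))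

noncomputable def t742_103 : Tr := (.ex (nat_lit 0xa) (.leaf (.cons (nat_lit 0x145400) (nat_lit 0x10002000000030004000300000000000000000000) (.cons (nat_lit 0x10154) (nat_lit 0x100000000000000020003000400030000) (.cons (nat_lit 0x11540) (nat_lit 0x100000002000200020001000000000000) (.cons (nat_lit 0x44015) (nat_lit 0x1000000020000000000000000000300040003) .nil)))) (.cons (nat_lit 0x11011000011) (nat_lit 0x100100) (nat_lit 0xc) (nat_lit 0x54001000032) .nil)) (.split (nat_lit 0xb) (nat_lit 0) (.split (nat_lit 0xb) (nat_lit 1) (.split (nat_lit 0xb) (nat_lit 2) (.split (nat_lit 0xb) (nat_lit 3) (.split (nat_lit 0xb) (nat_lit 4) (.split (nat_lit 0xb) (nat_lit 5) (.split (nat_lit 0xb) (nat_lit 6) (.split (nat_lit 0xb) (nat_lit 7) (.split (nat_lit 0xb) (nat_lit 8) (.split (nat_lit 0xb) (nat_lit 9) (.st (nat_lit 0xa) (nat_lit 1) (nat_lit 5) (nat_lit 0x545001) (nat_lit 0x100020002000000020001000000000000000000000001) (nat_lit 1) (nat_lit 1) (.split (nat_lit 0xb) (nat_lit 0xa) (.ex (nat_lit 0xb) (.leaf (.cons (nat_lit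 0x145400) (nat_lit 0x10002000000030004000300000000000000000000) (.cons (nat_lit 0x10154) (nat_lit 0x100000000000000020003000400030000) (.cons (nat_lit 0x11540) (nat_lit 0x100000002000200020001000000000000) (.cons (nat_lit 0x44015) (nat_lit 0x1000000020000000000000000000300040003) .nil)))) (.cons (nat_lit 0x100111100) (nat_lit 0x1000010) (nat_lit 8) (nat_lit 0x200103400) (.cons (nat_lit 0x111011000011) (nat_lit 0x100100) (nat_lit 0xd) (nat_lit 0x654001000032) .nil))) t742_102) (.non (nat_lit 1) (nat_lit 5) (nat_lit 0x945001) (nat_lit 0x100020002000000020001000000000000000000000001)))) (.non (nat_lit 1) (nat_lit 5) (nat_lit 0x540000) (nat_lit 0x100010001000000000000000000000000000000000000))) (.non (nat_lit 1) (nat_lit 6) (nat_lit 0x554550) (nat_lit 0x400030002000500010000000300060004000200000000))) (.non (nat_lit 1) (nat_lit 5) (nat_lit 0x544000) (nat_lit 0x100010001000000010000000000000000000000000000))) (.non (nat_lit 1) (nat_lit 5) (nat_lit 0x545000) (nat_lit 0x100010001000000010001000000000000000000000000)))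 (.non (nat_lit 1) (nat_lit 6) (nat_lit 0x554550) (nat_lit 0x400030002000300010000000500060004000200000000))) (.non (nat_lit 1) (nat_lit 5) (nat_lit 0x555150) (nat_lit 0x500040003000300020001000000060004000200000000))) (.non (nat_lit 1) (nat_lit 5) (nat_lit 0x555150) (nat_lit 0x500040003000200020001000000040006000300000000))) (.non (nat_lit 3) (nat_lit 7) (nat_lit 0x540014) (nat_lit 0x300020001000000000000000000000000000400030000))) (.non (nat_lit 2) (nat_lit 5) (nat_lit 0x544005) (nat_lit 0x100010001000000010000000000000000000000010001))) (.non (nat_lit 1) (nat_lit 5) (nat_lit 0x544001) (nat_lit 0x100010001000000010000000000000000000000000001))))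

noncomputable def t742_104 : Tr := (.ex (nat_lit 9) (.split (nat_lit 9) (nat_lit 7) (.pd (.cons (nat_lit 0) (nat_lit 4) (nat_lit 0) (nat_lit 0x7865502110) (nat_lit 0xf423ff423fb71aea2c280473700000f423fb71ae1f15600000) .nil) (.split (nat_lit 7) (nat_lit 0) (.split (nat_lit 4) (nat_lit 3) (.leaf (.cons (nat_lit 0x10154) (nat_lit 0x100000000000000020003000400030000) (.cons (nat_lit 0x45401) (nat_lit 0x1000000020002000200000000000000000001) (.cons (nat_lit 0x11540) (nat_lit 0x100000002000200020001000000000000) (.cons (nat_lit 0x44015) (nat_lit 0x1000000020000000000000000000300040003) .nil)))) (.cons (nat_lit 0x100111100) (nat_lit 0x1000010) (nat_lit 8) (nat_lit 0x200103400) (.cons (nat_lit 0x1011000011) (nat_lit 0x100100) (nat_lit 8) (nat_lit 0x2001000043) .nil))) (.non (nat_lit 1) (nat_lit 6) (nat_lit 0x20a40) (nat_lit 0x100000000000100020002000000000000))) (.non (nat_lit 1) (nat_lit 5) (nat_lit 0x8a001) (nat_lit 0x1000000020001000000000000000000000002)))) (.non (nat_lit 1) (nat_lit 5) (nat_lit 0x85001) (nat_lit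 0x1000000020001000000000000000000000001))) (.split (nat_lit 0xa) (nat_lit 0) (.split (nat_lit 0xa) (nat_lit 1) (.split (nat_lit 0xa) (nat_lit 2) (.split (nat_lit 0xa) (nat_lit 3) (.split (nat_lit 0xa) (nat_lit 4) (.split (nat_lit 0xa) (nat_lit 5) (.split (nat_lit 0xa) (nat_lit 6) (.split (nat_lit 0xa) (nat_lit 7) (.split (nat_lit 0xa) (nat_lit 8) (.st (nat_lit 9) (nat_lit 1) (nat_lit 5) (nat_lit 0x145001) (nat_lit 0x10002000000020001000000000000000000000001) (nat_lit 1) (nat_lit 1) (.split (nat_lit 0xa) (nat_lit 9) (.split (nat_lit 9) (nat_lit 7) (.split (nat_lit 7) (nat_lit 0) (.split (nat_lit 4) (nat_lit 3) t742_103 (.non (nat_lit 1) (nat_lit 6) (nat_lit 0x20a40) (nat_lit 0x100000000000100020002000000000000))) (.non (nat_lit 1) (nat_lit 5) (nat_lit 0x8a001) (nat_lit 0x1000000020001000000000000000000000002))) (.non (nat_lit 1) (nat_lit 5) (nat_lit 0x85001) (nat_lit 0x1000000020001000000000000000000000001))) (.non (nat_lit 1) (nat_lit 5) (nat_lit 0x245001) (nat_lit 0x10002000000020001000000000000000000000001))))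 (.non (nat_lit 1) (nat_lit 6) (nat_lit 0x154551) (nat_lit 0x40003000500020000000300060004000200000001))) (.non (nat_lit 1) (nat_lit 5) (nat_lit 0x144000) (nat_lit 0x10001000000010000000000000000000000000000))) (.non (nat_lit 1) (nat_lit 5) (nat_lit 0x145000) (nat_lit 0x10001000000010001000000000000000000000000))) (.non (nat_lit 1) (nat_lit 6) (nat_lit 0x154551) (nat_lit 0x40003000300020000000500060004000200000001))) (.non (nat_lit 1) (nat_lit 5) (nat_lit 0x155141) (nat_lit 0x20002000100020001000000020001000000000001))) (.non (nat_lit 1) (nat_lit 5) (nat_lit 0x145151) (nat_lit 0x20002000000020001000000010002000100000001))) (.non (nat_lit 3) (nat_lit 7) (nat_lit 0x100015) (nat_lit 0x10000000000000000000000000000000200020001))) (.non (nat_lit 2) (nat_lit 5) (nat_lit 0x144005) (nat_lit 0x10001000000010000000000000000000000010001))) (.non (nat_lit 1) (nat_lit 5) (nat_lit 0x144001) (nat_lit 0x10001000000010000000000000000000000000001))))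

noncomputable def t742_105 : Tr := (.split (nat_lit 0xc) (nat_lit 0) (.split (nat_lit 0xc) (nat_lit 1) (.split (nat_lit 0xc) (nat_lit 2) (.split (nat_lit 0xc) (nat_lit 3) (.split (nat_lit 0xc) (nat_lit 4) (.split (nat_lit 0xc) (nat_lit 5) (.split (nat_lit 0xc) (nat_lit 6) (.split (nat_lit 0xc) (nat_lit 7) (.split (nat_lit 0xc) (nat_lit 8) (.split (nat_lit 0xc) (nat_lit 9) (.split (nat_lit 0xc) (nat_lit 0xa) (.st (nat_lit 0xb) (nat_lit 1) (nat_lit 6) (nat_lit 0x1510540) (nat_lit 0x1000200020000000200000000000100020001000000000000) (nat_lit 1) (nat_lit 1) (.st (nat_lit 0xc) (nat_lit 1) (nat_lit 6) (nat_lit 0x1510550) (nat_lit 0x2000300040000000500000000000300060004000200000000) (nat_lit 1) (nat_lit 1) (.split (nat_lit 0xc) (nat_lit 0xb) (.leaf (.cons (nat_lit 0x10154) (nat_lit 0x100000000000000020003000400030000) (.cons (nat_lit 0x45401) (nat_lit 0x1000000020002000200000000000000000001) (.cons (nat_lit 0x111500) (nat_lit 0x10000000200000003000400030000000000000000) (.cons (nat_lit 0x44015) (nat_lit 0x1000000020000000000000000000300040003)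 .nil)))) (.cons (nat_lit 0x1110100111100) (nat_lit 0x1000010) (nat_lit 0xe) (nat_lit 0x7650400102300) (.cons (nat_lit 0x1011000011) (nat_lit 0x100100) (nat_lit 8) (nat_lit 0x2001000043) .nil))) (.non (nat_lit 1) (nat_lit 6) (nat_lit 0x2510540) (nat_lit 0x1000200020000000200000000000100020001000000000000))))) (.non (nat_lit 1) (nat_lit 5) (nat_lit 0x1500000) (nat_lit 0x1000100010000000000000000000000000000000000000000))) (.non (nat_lit 1) (nat_lit 6) (nat_lit 0x1550550) (nat_lit 0x2000300040001000500000000000300060004000200000000))) (.non (nat_lit 1) (nat_lit 5) (nat_lit 0x1510000) (nat_lit 0x1000100010000000100000000000000000000000000000000))) (.non (nat_lit 1) (nat_lit 5) (nat_lit 0x1045001) (nat_lit 0x1000000000001000000020001000000000000000000000001))) (.non (nat_lit 2) (nat_lit 5) (nat_lit 0x1555005) (nat_lit 0x4000300020003000100060005000000000000000000020004))) (.non (nat_lit 1) (nat_lit 6) (nat_lit 0x1510500) (nat_lit 0x1000100010000000100000000000100010000000000000000))) (.non (nat_lit 1) (nat_lit 5)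 (nat_lit 0x1510100) (nat_lit 0x1000100010000000100000000000000010000000000000000))) (.non (nat_lit 1) (nat_lit 5) (nat_lit 0x1510140) (nat_lit 0x1000100010000000100000000000000010001000000000000))) (.non (nat_lit 1) (nat_lit 5) (nat_lit 0x1510150) (nat_lit 0x1000100010000000100000000000000010001000100000000))) (.non (nat_lit 0) (nat_lit 4) (nat_lit 0x1500014) (nat_lit 0x3000200010000000000000000000000000000000300040000))) (.non (nat_lit 1) (nat_lit 6) (nat_lit 0x1510551) (nat_lit 0x2000300040000000500000000000300060004000200000001)))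

noncomputable def t742_106 : Tr := (.ex (nat_lit 0xa) (.leaf (.cons (nat_lit 0x10154) (nat_lit 0x100000000000000020003000400030000) (.cons (nat_lit 0x45401) (nat_lit 0x1000000020002000200000000000000000001) (.cons (nat_lit 0x111500) (nat_lit 0x10000000200000003000400030000000000000000) (.cons (nat_lit 0x44015) (nat_lit 0x1000000020000000000000000000300040003) .nil)))) (.cons (nat_lit 0x10100111100) (nat_lit 0x1000010) (nat_lit 0xc) (nat_lit 0x50400102300) .nil)) (.split (nat_lit 0xb) (nat_lit 0) (.split (nat_lit 0xb) (nat_lit 1) (.split (nat_lit 0xb) (nat_lit 2) (.split (nat_lit 0xb) (nat_lit 3) (.split (nat_lit 0xb) (nat_lit 4) (.split (nat_lit 0xb) (nat_lit 5) (.split (nat_lit 0xb) (nat_lit 6) (.split (nat_lit 0xb) (nat_lit 7) (.split (nat_lit 0xb) (nat_lit 8) (.split (nat_lit 0xb) (nat_lit 9) (.st (nat_lit 0xa) (nat_lit 1) (nat_lit 6) (nat_lit 0x510540) (nat_lit 0x100020000000200000000000100020001000000000000) (nat_lit 1) (nat_lit 1) (.split (nat_lit 0xb) (nat_lit 0xa) (.ex (nat_lit 0xb) (.leaf (.cons (nat_lit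 0x10154) (nat_lit 0x100000000000000020003000400030000) (.cons (nat_lit 0x45401) (nat_lit 0x1000000020002000200000000000000000001) (.cons (nat_lit 0x111500) (nat_lit 0x10000000200000003000400030000000000000000) (.cons (nat_lit 0x44015) (nat_lit 0x1000000020000000000000000000300040003) .nil)))) (.cons (nat_lit 0x110100111100) (nat_lit 0x1000010) (nat_lit 0xd) (nat_lit 0x650400102300) (.cons (nat_lit 0x1011000011) (nat_lit 0x100100) (nat_lit 8) (nat_lit 0x2001000043) .nil))) t742_105) (.non (nat_lit 1) (nat_lit 6) (nat_lit 0x910540) (nat_lit 0x100020000000200000000000100020001000000000000)))) (.non (nat_lit 1) (nat_lit 6) (nat_lit 0x554550) (nat_lit 0x300040002000500010000000300060004000200000000))) (.non (nat_lit 1) (nat_lit 5) (nat_lit 0x510000) (nat_lit 0x100010000000100000000000000000000000000000000))) (.non (nat_lit 1) (nat_lit 5) (nat_lit 0x445001) (nat_lit 0x100000001000000020001000000000000000000000001))) (.non (nat_lit 2) (nat_lit 5) (nat_lit 0x555105) (nat_lit 0x400030003000200060005000000010000000000020004)))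 (.non (nat_lit 1) (nat_lit 6) (nat_lit 0x510500) (nat_lit 0x100010000000100000000000100010000000000000000))) (.non (nat_lit 1) (nat_lit 5) (nat_lit 0x510100) (nat_lit 0x100010000000100000000000000010000000000000000))) (.non (nat_lit 1) (nat_lit 5) (nat_lit 0x510140) (nat_lit 0x100010000000100000000000000010001000000000000))) (.non (nat_lit 1) (nat_lit 5) (nat_lit 0x510150) (nat_lit 0x100010000000100000000000000010001000100000000))) (.non (nat_lit 0) (nat_lit 4) (nat_lit 0x510014) (nat_lit 0x300020000000100000000000000000000000300040000))) (.non (nat_lit 1) (nat_lit 6) (nat_lit 0x514551) (nat_lit 0x300040000000500010000000300060004000200000002))))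

noncomputable def t742_107 : Tr := (.split (nat_lit 0xe) (nat_lit 3) (.split (nat_lit 0xe) (nat_lit 4) (.split (nat_lit 0xe) (nat_lit 5) (.split (nat_lit 0xe) (nat_lit 6) (.split (nat_lit 0xe) (nat_lit 7) (.split (nat_lit 0xe) (nat_lit 8) (.split (nat_lit 0xe) (nat_lit 9) (.split (nat_lit 0xe) (nat_lit 0xa) (.split (nat_lit 0xe) (nat_lit 0xb) (.split (nat_lit 0xe) (nat_lit 0xc) (.st (nat_lit 0xd) (nat_lit 1) (nat_lit 6) (nat_lit 0x14110540) (nat_lit 0x100020000000000020000000200000000000100020001000000000000) (nat_lit 1) (nat_lit 1) (.st (nat_lit 0xe) (nat_lit 1) (nat_lit 6) (nat_lit 0x14110550) (nat_lit 0x200030000000000040000000500000000000300060004000200000000) (nat_lit 1) (nat_lit 1) (.split (nat_lit 0xe) (nat_lit 0xd) (.leaf (.cons (nat_lit 0x445400) (nat_lit 0x100000002000000030004000300000000000000000000) (.cons (nat_lit 0x10154) (nat_lit 0x100000000000000020003000400030000) (.cons (nat_lit 0x111500) (nat_lit 0x10000000200000003000400030000000000000000) (.cons (nat_lit 0x44015) (nat_lit 0x1000000020000000000000000000300040003)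 .nil)))) (.cons (nat_lit 0x110010100111100) (nat_lit 0x1000010) (nat_lit 0xe) (nat_lit 0x760050400102300) (.cons (nat_lit 0x1101011000011) (nat_lit 0x100100) (nat_lit 0xd) (nat_lit 0x6504001000032) .nil))) (.non (nat_lit 1) (nat_lit 6) (nat_lit 0x24110540) (nat_lit 0x100020000000000020000000200000000000100020001000000000000))))) (.non (nat_lit 1) (nat_lit 6) (nat_lit 0x15110550) (nat_lit 0x200030001000000040000000500000000000300060004000200000000))) (.non (nat_lit 1) (nat_lit 5) (nat_lit 0x15545000) (nat_lit 0x300020002000400010003000000020001000000000000000000000000))) (.non (nat_lit 1) (nat_lit 5) (nat_lit 0x14100000) (nat_lit 0x100010000000000010000000000000000000000000000000000000000))) (.non (nat_lit 1) (nat_lit 5) (nat_lit 0x15445000) (nat_lit 0x200010001000200000003000000020001000000000000000000000000))) (.non (nat_lit 1) (nat_lit 5) (nat_lit 0x14110000) (nat_lit 0x100010000000000010000000100000000000000000000000000000000))) (.non (nat_lit 1) (nat_lit 5) (nat_lit 0x15545000) (nat_lit 0x300020001000200010003000000040002000000000000000000000000)))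 (.non (nat_lit 1) (nat_lit 5) (nat_lit 0x15445001) (nat_lit 0x200010001000200000003000000040003000000000000000000000002))) (.non (nat_lit 1) (nat_lit 6) (nat_lit 0x14110500) (nat_lit 0x100010000000000010000000100000000000100010000000000000000))) (.non (nat_lit 1) (nat_lit 5) (nat_lit 0x14110100) (nat_lit 0x100010000000000010000000100000000000000010000000000000000))) (.non (nat_lit 1) (nat_lit 5) (nat_lit 0x14110140) (nat_lit 0x100010000000000010000000100000000000000010001000000000000)))

noncomputable def t742_108 : Tr := (.split (nat_lit 0xf) (nat_lit 4) (.split (nat_lit 0xf) (nat_lit 5) (.split (nat_lit 0xf) (nat_lit 6) (.split (nat_lit 0xf) (nat_lit 7) (.split (nat_lit 0xf) (nat_lit 8) (.split (nat_lit 0xf) (nat_lit 9) (.split (nat_lit 0xf) (nat_lit 0xa) (.split (nat_lit 0xf) (nat_lit 0xb) (.split (nat_lit 0xf) (nat_lit 0xc) (.split (nat_lit 0xf) (nat_lit 0xe) (.st (nat_lit 0xd) (nat_lit 1) (nat_lit 6) (nat_lit 0x44110540) (nat_lit 0x1000000020000000000020000000200000000000100020001000000000000) (nat_lit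 1) (nat_lit 1) (.st (nat_lit 0xf) (nat_lit 1) (nat_lit 6) (nat_lit 0x44110550) (nat_lit 0x2000000030000000000040000000500000000000300060004000200000000) (nat_lit 1) (nat_lit 1) (.split (nat_lit 0xf) (nat_lit 0xd) (.leaf (.cons (nat_lit 0x445400) (nat_lit 0x100000002000000030004000300000000000000000000) (.cons (nat_lit 0x10154) (nat_lit 0x100000000000000020003000400030000) (.cons (nat_lit 0x111500) (nat_lit 0x10000000200000003000400030000000000000000) (.cons (nat_lit 0x44015) (nat_lit 0x1000000020000000000000000000300040003) .nil)))) (.cons (nat_lit 0x1010010100111100) (nat_lit 0x1000010) (nat_lit 0xe) (nat_lit 0x7060050400102300) (.cons (nat_lit 0x101101011000011) (nat_lit 0x100100) (nat_lit 0xe) (nat_lit 0x706504001000032) .nil))) (.non (nat_lit 1) (nat_lit 6) (nat_lit 0x84110540) (nat_lit 0x1000000020000000000020000000200000000000100020001000000000000))))) (.non (nat_lit 1) (nat_lit 6) (nat_lit 0x54110550) (nat_lit 0x2000100030000000000040000000500000000000300060004000200000000))) (.non (nat_lit 1) (nat_lit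 5) (nat_lit 0x55544000) (nat_lit 0x3000200020004000300010002000000010000000000000000000000000000))) (.non (nat_lit 1) (nat_lit 5) (nat_lit 0x55444000) (nat_lit 0x2000100010002000300000002000000010000000000000000000000000000))) (.non (nat_lit 1) (nat_lit 5) (nat_lit 0x44100000) (nat_lit 0x1000000010000000000010000000000000000000000000000000000000000))) (.non (nat_lit 1) (nat_lit 5) (nat_lit 0x55544000) (nat_lit 0x3000100020002000300010004000000020000000000000000000000000000))) (.non (nat_lit 1) (nat_lit 5) (nat_lit 0x44110000) (nat_lit 0x1000000010000000000010000000100000000000000000000000000000000))) (.non (nat_lit 1) (nat_lit 5) (nat_lit 0x45545000) (nat_lit 0x3000000020001000200010003000000040002000000000000000000000000))) (.non (nat_lit 1) (nat_lit 5) (nat_lit 0x45445001) (nat_lit 0x2000000010001000200000003000000040003000000000000000000000002))) (.non (nat_lit 1) (nat_lit 6) (nat_lit 0x44110500) (nat_lit 0x1000000010000000000010000000100000000000100010000000000000000))) (.non (nat_lit 1) (nat_lit 5) (nat_lit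 0x44110100) (nat_lit 0x1000000010000000000010000000100000000000000010000000000000000)))

noncomputable def t742_109 : Tr := (.split (nat_lit 0xe) (nat_lit 7) (.split (nat_lit 0xe) (nat_lit 8) (.split (nat_lit 0xe) (nat_lit 9) (.split (nat_lit 0xe) (nat_lit 0xa) (.split (nat_lit 0xe) (nat_lit 0xb) (.split (nat_lit 0xe) (nat_lit 0xd) (.st (nat_lit 0xc) (nat_lit 1) (nat_lit 5) (nat_lit 0x11445001) (nat_lit 0x100000002000200000002000000020001000000000000000000000001) (nat_lit 1) (nat_lit 1) (.st (nat_lit 0xe) (nat_lit 2) (nat_lit 5) (nat_lit 0x11445005) (nat_lit 0x200000003000400000005000000060003000000000000000000020004) (nat_lit 1) (nat_lit 1) (.split (nat_lit 0xe) (nat_lit 0xc) (.ex (nat_lit 0xd) (.leaf (.cons (nat_lit 0x445400) (nat_lit 0x100000002000000030004000300000000000000000000) (.cons (nat_lit 0x10154) (nat_lit 0x100000000000000020003000400030000) (.cons (nat_lit 0x111500) (nat_lit 0x10000000200000003000400030000000000000000) (.cons (nat_lit 0x44015) (nat_lit 0x1000000020000000000000000000300040003)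 .nil)))) (.cons (nat_lit 0x10010100111100) (nat_lit 0x1000010) (nat_lit 0xd) (nat_lit 0x60050400102300) (.cons (nat_lit 0x101101011000011) (nat_lit 0x100100) (nat_lit 0xe) (nat_lit 0x706504001000032) .nil))) (.split (nat_lit 0xf) (nat_lit 0) (.split (nat_lit 0xf) (nat_lit 1) (.split (nat_lit 0xf) (nat_lit 2) (.split (nat_lit 0xf) (nat_lit 3) t742_108 (.non (nat_lit 1) (nat_lit 5) (nat_lit 0x44110140) (nat_lit 0x1000000010000000000010000000100000000000000010001000000000000))) (.non (nat_lit 1) (nat_lit 5) (nat_lit 0x44110150) (nat_lit 0x1000000010000000000010000000100000000000000010001000100000000))) (.non (nat_lit 2) (nat_lit 5) (nat_lit 0x41445005) (nat_lit 0x1000000000001000200000003000000040002000000000000000000020003))) (.non (nat_lit 1) (nat_lit 5) (nat_lit 0x45445001) (nat_lit 0x2000000010001000200000003000000040002000000000000000000000003)))) (.non (nat_lit 1) (nat_lit 5) (nat_lit 0x21445001) (nat_lit 0x100000002000200000002000000020001000000000000000000000001))))) (.non (nat_lit 1) (nat_lit 6) (nat_lit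 0x15110550) (nat_lit 0x200030001000000040000000500000000000300060004000200000000))) (.non (nat_lit 1) (nat_lit 5) (nat_lit 0x11400000) (nat_lit 0x100000001000100000000000000000000000000000000000000000000))) (.non (nat_lit 1) (nat_lit 5) (nat_lit 0x15554100) (nat_lit 0x500030004000300060002000400010000000000020000000000000000))) (.non (nat_lit 1) (nat_lit 5) (nat_lit 0x11440000) (nat_lit 0x100000001000100000001000000000000000000000000000000000000))) (.non (nat_lit 1) (nat_lit 5) (nat_lit 0x15554100) (nat_lit 0x500020004000300040002000600010000000000030000000000000000))) (.non (nat_lit 1) (nat_lit 5) (nat_lit 0x11444000) (nat_lit 0x100000001000100000001000000010000000000000000000000000000)))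

noncomputable def t742_110 : Tr := (.split (nat_lit 0xd) (nat_lit 0xc) (.st (nat_lit 0xa) (nat_lit 1) (nat_lit 6) (nat_lit 0x4110540) (nat_lit 0x10000000000020000000200000000000100020001000000000000) (nat_lit 1) (nat_lit 1) (.split (nat_lit 0xd) (nat_lit 0xa) (.ex (nat_lit 0xc) (.ex (nat_lit 0xd) (.leaf (.cons (nat_lit 0x445400) (nat_lit 0x100000002000000030004000300000000000000000000) (.cons (nat_lit 0x10154) (nat_lit 0x100000000000000020003000400030000) (.cons (nat_lit 0x111500) (nat_lit 0x10000000200000003000400030000000000000000) (.cons (nat_lit 0x44015) (nat_lit 0x1000000020000000000000000000300040003) .nil)))) (.cons (nat_lit 0x10010100111100) (nat_lit 0x1000010) (nat_lit 0xd) (nat_lit 0x60050400102300) (.cons (nat_lit 0x1101011000011) (nat_lit 0x100100) (nat_lit 0xd) (nat_lit 0x6504001000032) .nil))) (.split (nat_lit 0xe) (nat_lit 0) (.split (nat_lit 0xe) (nat_lit 1) (.split (nat_lit 0xe) (nat_lit 2) t742_107 (.non (nat_lit 1) (nat_lit 5) (nat_lit 0x14110150) (nat_lit 0x100010000000000010000000100000000000000010001000100000000)))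 (.non (nat_lit 2) (nat_lit 5) (nat_lit 0x11445005) (nat_lit 0x100000001000200000003000000040002000000000000000000020003))) (.non (nat_lit 1) (nat_lit 5) (nat_lit 0x15445001) (nat_lit 0x200010001000200000003000000040002000000000000000000000003)))) (.split (nat_lit 0xe) (nat_lit 0) (.split (nat_lit 0xe) (nat_lit 1) (.split (nat_lit 0xe) (nat_lit 2) (.split (nat_lit 0xe) (nat_lit 3) (.split (nat_lit 0xe) (nat_lit 4) (.split (nat_lit 0xe) (nat_lit 5) (.split (nat_lit 0xe) (nat_lit 6) t742_109 (.non (nat_lit 1) (nat_lit 5) (nat_lit 0x11445000) (nat_lit 0x100000001000100000001000000010001000000000000000000000000))) (.non (nat_lit 1) (nat_lit 6) (nat_lit 0x15110540) (nat_lit 0x200010001000000020000000300000000000300040002000000000000))) (.non (nat_lit 1) (nat_lit 5) (nat_lit 0x15510140) (nat_lit 0x300010002000100020000000300000000000000040002000000000000))) (.non (nat_lit 1) (nat_lit 5) (nat_lit 0x11510150) (nat_lit 0x300000002000100010000000200000000000000030004000200000000))) (.non (nat_lit 1) (nat_lit 6) (nat_lit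 0x14110550) (nat_lit 0x100010000000000020000000300000000000200040003000200000000))) (.non (nat_lit 2) (nat_lit 5) (nat_lit 0x11444005) (nat_lit 0x100000001000100000001000000010000000000000000000000010001))) (.non (nat_lit 1) (nat_lit 5) (nat_lit 0x11444001) (nat_lit 0x100000001000100000001000000010000000000000000000000000001)))) (.non (nat_lit 1) (nat_lit 6) (nat_lit 0x8110540) (nat_lit 0x10000000000020000000200000000000100020001000000000000)))) (.non (nat_lit 1) (nat_lit 6) (nat_lit 0x5510550) (nat_lit 0x30002000100040000000500000000000300060004000200000000)))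

noncomputable def t742_111 : Tr := (.split (nat_lit 0xc) (nat_lit 0xa) (.st (nat_lit 0xb) (nat_lit 1) (nat_lit 5) (nat_lit 0x1445001) (nat_lit 0x1000200000002000000020001000000000000000000000001) (nat_lit 1) (nat_lit 1) (.split (nat_lit 0xc) (nat_lit 0xb) (.ex (nat_lit 0xa) (.leaf (.cons (nat_lit 0x445400) (nat_lit 0x100000002000000030004000300000000000000000000) (.cons (nat_lit 0x10154) (nat_lit 0x100000000000000020003000400030000) (.cons (nat_lit 0x111500) (nat_lit 0x10000000200000003000400030000000000000000) (.cons (nat_lit 0x44015) (nat_lit 0x1000000020000000000000000000300040003) .nil)))) (.cons (nat_lit 0x10100111100) (nat_lit 0x1000010) (nat_lit 0xc) (nat_lit 0x50400102300) .nil)) (.split (nat_lit 0xd) (nat_lit 0) (.split (nat_lit 0xd) (nat_lit 1) (.split (nat_lit 0xd) (nat_lit 2) (.split (nat_lit 0xd) (nat_lit 3) (.split (nat_lit 0xd) (nat_lit 4) (.split (nat_lit 0xd) (nat_lit 5) (.split (nat_lit 0xd) (nat_lit 6) (.split (nat_lit 0xd) (nat_lit 7) (.split (nat_lit 0xd) (nat_lit 8) (.split (nat_lit 0xd)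 (nat_lit 9) (.split (nat_lit 0xd) (nat_lit 0xb) t742_110 (.non (nat_lit 1) (nat_lit 5) (nat_lit 0x5555000) (nat_lit 0x30002000400020003000100020001000000000000000000000000))) (.non (nat_lit 1) (nat_lit 5) (nat_lit 0x5545000) (nat_lit 0x20001000200010003000000020001000000000000000000000000))) (.non (nat_lit 1) (nat_lit 5) (nat_lit 0x4110000) (nat_lit 0x10000000000010000000100000000000000000000000000000000))) (.non (nat_lit 1) (nat_lit 5) (nat_lit 0x5555000) (nat_lit 0x30001000200020003000100040002000000000000000000000000))) (.non (nat_lit 1) (nat_lit 5) (nat_lit 0x5545001) (nat_lit 0x20001000200010003000000040003000000000000000000000002))) (.non (nat_lit 1) (nat_lit 6) (nat_lit 0x4110500) (nat_lit 0x10000000000010000000100000000000100010000000000000000))) (.non (nat_lit 1) (nat_lit 5) (nat_lit 0x4110100) (nat_lit 0x10000000000010000000100000000000000010000000000000000))) (.non (nat_lit 1) (nat_lit 5) (nat_lit 0x4110140) (nat_lit 0x10000000000010000000100000000000000010001000000000000))) (.non (nat_lit 1) (nat_lit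 5) (nat_lit 0x4110150) (nat_lit 0x10000000000010000000100000000000000010001000100000000))) (.non (nat_lit 2) (nat_lit 5) (nat_lit 0x5445005) (nat_lit 0x10001000200000003000000040002000000000000000000020003))) (.non (nat_lit 1) (nat_lit 5) (nat_lit 0x5545001) (nat_lit 0x20001000200010003000000040002000000000000000000000003)))) (.non (nat_lit 1) (nat_lit 5) (nat_lit 0x2445001) (nat_lit 0x1000200000002000000020001000000000000000000000001)))) (.non (nat_lit 1) (nat_lit 6) (nat_lit 0x1550550) (nat_lit 0x3000200040001000500000000000300060004000200000000)))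

noncomputable def t742_112 : Tr := (.split (nat_lit 9) (nat_lit 7) (.split (nat_lit 7) (nat_lit 0) (.split (nat_lit 0xa) (nat_lit 8) (.split (nat_lit 8) (nat_lit 4) (.split (nat_lit 4) (nat_lit 3) (.ex (nat_lit 0xb) (.leaf (.cons (nat_lit 0x445400) (nat_lit 0x100000002000000030004000300000000000000000000) (.cons (nat_lit 0x10154) (nat_lit 0x100000000000000020003000400030000) (.cons (nat_lit 0x111500) (nat_lit 0x10000000200000003000400030000000000000000) (.cons (nat_lit 0x44015) (nat_lit 0x1000000020000000000000000000300040003) .nil)))) (.cons (nat_lit 0x101011000011) (nat_lit 0x100100) (nat_lit 0xc) (nat_lit 0x504001000032) .nil)) (.split (nat_lit 0xc) (nat_lit 0) (.split (nat_lit 0xc) (nat_lit 1) (.split (nat_lit 0xc) (nat_lit 2) (.split (nat_lit 0xc) (nat_lit 3) (.split (nat_lit 0xc) (nat_lit 4) (.split (nat_lit 0xc) (nat_lit 5) (.split (nat_lit 0xc) (nat_lit 6) (.split (nat_lit 0xc) (nat_lit 7) (.split (nat_lit 0xc) (nat_lit 8) (.split (nat_lit 0xc) (nat_lit 9) t742_111 (.non (nat_lit 1) (nat_lit 5) (nat_lit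 0x1440000) (nat_lit 0x1000100000001000000000000000000000000000000000000))) (.non (nat_lit 1) (nat_lit 5) (nat_lit 0x1555140) (nat_lit 0x5000400030003000600020001000000040002000000000000))) (.non (nat_lit 1) (nat_lit 5) (nat_lit 0x1444000) (nat_lit 0x1000100000001000000010000000000000000000000000000))) (.non (nat_lit 1) (nat_lit 5) (nat_lit 0x1445000) (nat_lit 0x1000100000001000000010001000000000000000000000000))) (.non (nat_lit 1) (nat_lit 6) (nat_lit 0x1554540) (nat_lit 0x4000300020002000400010000000500060003000000000000))) (.non (nat_lit 1) (nat_lit 5) (nat_lit 0x1555140) (nat_lit 0x5000400020003000400020001000000060003000000000000))) (.non (nat_lit 1) (nat_lit 5) (nat_lit 0x1550150) (nat_lit 0x3000200010001000200000000000000030004000200000000))) (.non (nat_lit 1) (nat_lit 6) (nat_lit 0x1550550) (nat_lit 0x3000200020001000400000000000300060005000400000000))) (.non (nat_lit 2) (nat_lit 5) (nat_lit 0x1444005) (nat_lit 0x1000100000001000000010000000000000000000000010001))) (.non (nat_lit 1) (nat_lit 5) (nat_lit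 0x1444001) (nat_lit 0x1000100000001000000010000000000000000000000000001)))) (.non (nat_lit 1) (nat_lit 5) (nat_lit 0x220250) (nat_lit 0x10000000200000000000000030004000200000000))) (.non (nat_lit 1) (nat_lit 5) (nat_lit 0x220150) (nat_lit 0x10000000200000000000000030002000100000000))) (.non (nat_lit 1) (nat_lit 6) (nat_lit 0x210540) (nat_lit 0x10000000200000000000100020001000000000000))) (.non (nat_lit 1) (nat_lit 5) (nat_lit 0x8a001) (nat_lit 0x1000000020001000000000000000000000002))) (.non (nat_lit 1) (nat_lit 5) (nat_lit 0x85001) (nat_lit 0x1000000020001000000000000000000000001)))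

noncomputable def t742_113 : Tr := (.ex (nat_lit 9) (.split (nat_lit 9) (nat_lit 7) (.pd (.cons (nat_lit 0) (nat_lit 4) (nat_lit 0x10100000000) (nat_lit 0x87a65502110) (nat_lit 0x1f423f00001b71aea2c280473700000f423fb71ae1f15600000) .nil) (.split (nat_lit 0xa) (nat_lit 8) (.split (nat_lit 7) (nat_lit 0) (.split (nat_lit 8) (nat_lit 4) (.split (nat_lit 4) (nat_lit 3) t742_106 (.non (nat_lit 1) (nat_lit 5) (nat_lit 0x220250) (nat_lit 0x10000000200000000000000030004000200000000))) (.non (nat_lit 1) (nat_lit 5) (nat_lit 0x220150) (nat_lit 0x10000000200000000000000030002000100000000))) (.non (nat_lit 1) (nat_lit 5) (nat_lit 0x8a001) (nat_lit 0x1000000020001000000000000000000000002))) (.non (nat_lit 1) (nat_lit 6) (nat_lit 0x210540) (nat_lit 0x10000000200000000000100020001000000000000)))) (.non (nat_lit 1) (nat_lit 5) (nat_lit 0x85001) (nat_lit 0x1000000020001000000000000000000000001))) (.split (nat_lit 0xb) (nat_lit 0) (.split (nat_lit 0xb) (nat_lit 1) (.split (nat_lit 0xb) (nat_lit 2) (.split (nat_lit 0xb) (nat_lit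 3) (.split (nat_lit 0xb) (nat_lit 4) (.split (nat_lit 0xb) (nat_lit 5) (.split (nat_lit 0xb) (nat_lit 6) (.split (nat_lit 0xb) (nat_lit 7) (.split (nat_lit 0xb) (nat_lit 8) (.split (nat_lit 0xb) (nat_lit 0xa) (.st (nat_lit 9) (nat_lit 1) (nat_lit 5) (nat_lit 0x445001) (nat_lit 0x100000002000000020001000000000000000000000001) (nat_lit 1) (nat_lit 1) (.split (nat_lit 0xb) (nat_lit 9) t742_112 (.non (nat_lit 1) (nat_lit 5) (nat_lit 0x845001) (nat_lit 0x100000002000000020001000000000000000000000001)))) (.non (nat_lit 1) (nat_lit 6) (nat_lit 0x554550) (nat_lit 0x300040002000500010000000300060004000200000000))) (.non (nat_lit 1) (nat_lit 5) (nat_lit 0x554150) (nat_lit 0x300020002000400010000000000030002000100000000))) (.non (nat_lit 1) (nat_lit 5) (nat_lit 0x444000) (nat_lit 0x100000001000000010000000000000000000000000000))) (.non (nat_lit 1) (nat_lit 5) (nat_lit 0x445000) (nat_lit 0x100000001000000010001000000000000000000000000))) (.non (nat_lit 1) (nat_lit 6) (nat_lit 0x510550) (nat_lit 0x100010000000200000000000200030002000100000000)))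 (.non (nat_lit 1) (nat_lit 5) (nat_lit 0x550150) (nat_lit 0x200010001000200000000000000030002000100000000))) (.non (nat_lit 1) (nat_lit 5) (nat_lit 0x554150) (nat_lit 0x300010002000200010000000000030004000200000000))) (.non (nat_lit 1) (nat_lit 6) (nat_lit 0x554550) (nat_lit 0x300020002000400010000000300060005000400000000))) (.non (nat_lit 2) (nat_lit 5) (nat_lit 0x444005) (nat_lit 0x100000001000000010000000000000000000000010001))) (.non (nat_lit 1) (nat_lit 5) (nat_lit 0x444001) (nat_lit 0x100000001000000010000000000000000000000000001))))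

noncomputable def t742_114 : Tr := (.split (nat_lit 9) (nat_lit 8) (.st (nat_lit 7) (nat_lit 1) (nat_lit 5) (nat_lit 0x45001) (nat_lit 0x1000000020001000000000000000000000001) (nat_lit 1) (nat_lit 1) (.ex (nat_lit 8) (.split (nat_lit 8) (nat_lit 4) (.pd (.cons (nat_lit 3) (nat_lit 7) (nat_lit 0) (nat_lit 0x9405440100) (nat_lit 0xf423ff423f00000f423f545910671100000f423f54591437a2) .nil) t742_104) (.non (nat_lit 1) (nat_lit 6) (nat_lit 0x20540) (nat_lit 0x100000000000100020001000000000000))) (.split (nat_lit 0xa) (nat_lit 0) (.split (nat_lit 0xa) (nat_lit 2) (.split (nat_lit 0xa) (nat_lit 3) (.split (nat_lit 0xa) (nat_lit 4) (.split (nat_lit 0xa) (nat_lit 5) (.split (nat_lit 0xa) (nat_lit 6) (.split (nat_lit 0xa) (nat_lit 7) (.split (nat_lit 0xa) (nat_lit 9) (.split (nat_lit 0xa) (nat_lit 1) (.st (nat_lit 8) (nat_lit 1) (nat_lit 6) (nat_lit 0x110540) (nat_lit 0x10000000200000000000100020001000000000000) (nat_lit 1) (nat_lit 1) t742_113) (.sup (nat_lit 0x500000000000000000000000000000008000a0002) (nat_lit 0x20009000a00050000000000000000)))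 (.non (nat_lit 1) (nat_lit 6) (nat_lit 0x154551) (nat_lit 0x40003000500020000000300060004000200000001))) (.non (nat_lit 1) (nat_lit 5) (nat_lit 0x145001) (nat_lit 0x10001000000020001000000000000000000000001))) (.non (nat_lit 2) (nat_lit 5) (nat_lit 0x155145) (nat_lit 0x40003000300060005000000020001000000020004))) (.non (nat_lit 1) (nat_lit 6) (nat_lit 0x110500) (nat_lit 0x10000000100000000000100010000000000000000))) (.non (nat_lit 1) (nat_lit 5) (nat_lit 0x110100) (nat_lit 0x10000000100000000000000010000000000000000))) (.non (nat_lit 1) (nat_lit 5) (nat_lit 0x110140) (nat_lit 0x10000000100000000000000010001000000000000))) (.non (nat_lit 1) (nat_lit 5) (nat_lit 0x110150) (nat_lit 0x10000000100000000000000010001000100000000))) (.non (nat_lit 1) (nat_lit 6) (nat_lit 0x154551) (nat_lit 0x40001000500020000000300060004000200000003))))) (.st (nat_lit 7) (nat_lit 1) (nat_lit 5) (nat_lit 0x45001) (nat_lit 0x1000000020001000000000000000000000001) (nat_lit 1) (nat_lit 1) (.st (nat_lit 8) (nat_lit 1) (nat_lit 5) (nat_lit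 0x55150) (nat_lit 0x3000400020001000000030002000100000000) (nat_lit 1) (nat_lit 2) (.st (nat_lit 9) (nat_lit 1) (nat_lit 5) (nat_lit 0x55001) (nat_lit 0x2000100020001000000000000000000000001) (nat_lit 1) (nat_lit 1) (.split (nat_lit 9) (nat_lit 7) (.split (nat_lit 9) (nat_lit 8) (.split (nat_lit 8) (nat_lit 4) (.split (nat_lit 7) (nat_lit 0) (.split (nat_lit 4) (nat_lit 3) (.leaf (.cons (nat_lit 0x55400) (nat_lit 0x2000100030004000300000000000000000000) (.cons (nat_lit 0x10154) (nat_lit 0x100000000000000020003000400030000) (.cons (nat_lit 0x51500) (nat_lit 0x1000200000003000400030000000000000000) (.cons (nat_lit 0x44015) (nat_lit 0x1000000020000000000000000000300040003) .nil)))) (.cons (nat_lit 0x1110111101) (nat_lit 0x1000010) (nat_lit 0xe) (nat_lit 0x5460102307) (.cons (nat_lit 0x1111011011) (nat_lit 0x100100) (nat_lit 0xe) (nat_lit 0x4501067032) .nil))) (.non (nat_lit 1) (nat_lit 5) (nat_lit 0xa0250) (nat_lit 0x1000200000000000000030004000200000000))) (.non (nat_lit 1) (nat_lit 5) (nat_lit 0x8a001) (nat_lit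 0x1000000020001000000000000000000000002))) (.non (nat_lit 1) (nat_lit 5) (nat_lit 0xa8140) (nat_lit 0x2000300010000000000040002000000000000))) (.non (nat_lit 1) (nat_lit 5) (nat_lit 0x9a100) (nat_lit 0x3000400020001000000020000000000000000))) (.non (nat_lit 1) (nat_lit 5) (nat_lit 0x5a100) (nat_lit 0x3000200020001000000010000000000000000)))))))

noncomputable def t742_115 : Tr := (.ex (nat_lit 5) (.ex (nat_lit 6) (.ex (nat_lit 7) t742_101 (.split (nat_lit 9) (nat_lit 0) (.split (nat_lit 9) (nat_lit 1) (.split (nat_lit 9) (nat_lit 3) (.split (nat_lit 9) (nat_lit 4) (.split (nat_lit 9) (nat_lit 6) (.split (nat_lit 9) (nat_lit 2) (.split (nat_lit 9) (nat_lit 5) t742_114 (.split (nat_lit 9) (nat_lit 8) (.sup (nat_lit 0x20009000a0005) (nat_lit 0x5000000000008000a00020000000000000000)) (.non (nat_lit 1) (nat_lit 6) (nat_lit 0x50500) (nat_lit 0x1000100000000000100010000000000000000)))) (.split (nat_lit 9) (nat_lit 5) (.split (nat_lit 9) (nat_lit 8) (.sup (nat_lit 0x50000000000000000000000000009000a0005) (nat_lit 0x300000008000a00070001000000000000))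 (.non (nat_lit 1) (nat_lit 5) (nat_lit 0x50150) (nat_lit 0x1000100000000000000010001000100000000))) (.star (nat_lit 9) (nat_lit 2) (nat_lit 5)))) (.non (nat_lit 1) (nat_lit 5) (nat_lit 0x45000) (nat_lit 0x1000000010001000000000000000000000000))) (.non (nat_lit 1) (nat_lit 5) (nat_lit 0x55141) (nat_lit 0x2000100020001000000020001000000000001))) (.non (nat_lit 1) (nat_lit 5) (nat_lit 0x45151) (nat_lit 0x2000000020001000000010002000100000001))) (.non (nat_lit 2) (nat_lit 5) (nat_lit 0x44005) (nat_lit 0x1000000010000000000000000000000010001))) (.non (nat_lit 1) (nat_lit 5) (nat_lit 0x44001) (nat_lit 0x1000000010000000000000000000000000001)))) (.split (nat_lit 9) (nat_lit 0) (.split (nat_lit 9) (nat_lit 1) (.split (nat_lit 9) (nat_lit 2) (.split (nat_lit 9) (nat_lit 3) (.split (nat_lit 9) (nat_lit 4) (.split (nat_lit 9) (nat_lit 7) (.split (nat_lit 9) (nat_lit 5) (.split (nat_lit 9) (nat_lit 8) (.sup (nat_lit 0x5000a00090002) (nat_lit 0x500000002000a000800000000000000000000)) (.sup (nat_lit 0x5000a00090002) (nat_lit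 0x500000002000a000800000000000000000000))) (.split (nat_lit 9) (nat_lit 8) (.unj (nat_lit 0x41400) (nat_lit 0x1000000000001000100000000000000000000) (nat_lit 0x55) (nat_lit 0x1000200020001)) (.non (nat_lit 1) (nat_lit 6) (nat_lit 0x50500) (nat_lit 0x1000100000000000100010000000000000000)))) (.non (nat_lit 1) (nat_lit 5) (nat_lit 0x45000) (nat_lit 0x1000000010001000000000000000000000000))) (.non (nat_lit 1) (nat_lit 6) (nat_lit 0x50540) (nat_lit 0x1000100000000000100020001000000000000))) (.non (nat_lit 1) (nat_lit 6) (nat_lit 0x50550) (nat_lit 0x1000100000000000100020002000100000000))) (.star (nat_lit 9) (nat_lit 2) (nat_lit 6))) (.star (nat_lit 9) (nat_lit 1) (nat_lit 6))) (.non (nat_lit 1) (nat_lit 5) (nat_lit 0x45001) (nat_lit 0x1000000010001000000000000000000000001)))) (.split (nat_lit 9) (nat_lit 0) (.split (nat_lit 9) (nat_lit 1) (.split (nat_lit 9) (nat_lit 2) (.split (nat_lit 9) (nat_lit 3) (.split (nat_lit 9) (nat_lit 4) (.split (nat_lit 9) (nat_lit 8) (.split (nat_lit 9) (nat_lit 6) (.split (nat_lit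 9) (nat_lit 7) (.sup (nat_lit 0x20009000a0005) (nat_lit 0x5000000000008000a00020000000000000000)) (.sup (nat_lit 0x20009000a0005) (nat_lit 0x5000000000008000a00020000000000000000))) (.split (nat_lit 9) (nat_lit 7) (.unj (nat_lit 0x41400) (nat_lit 0x1000000000001000100000000000000000000) (nat_lit 0x55) (nat_lit 0x1000200020001)) (.non (nat_lit 1) (nat_lit 5) (nat_lit 0x45000) (nat_lit 0x1000000010001000000000000000000000000)))) (.non (nat_lit 1) (nat_lit 6) (nat_lit 0x50500) (nat_lit 0x1000100000000000100010000000000000000))) (.non (nat_lit 1) (nat_lit 6) (nat_lit 0x40500) (nat_lit 0x1000000000000000100010000000000000000))) (.non (nat_lit 1) (nat_lit 6) (nat_lit 0x40540) (nat_lit 0x1000000000000000100010001000000000000))) (.star (nat_lit 9) (nat_lit 2) (nat_lit 5))) (.star (nat_lit 9) (nat_lit 1) (nat_lit 5))) (.non (nat_lit 2) (nat_lit 6) (nat_lit 0x54545) (nat_lit 0x2000100010000000200020001000000010002))))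

noncomputable def t742_116 : Tr := (.ex (nat_lit 7) (.split (nat_lit 7) (nat_lit 0) (.pd (.cons (nat_lit 1) (nat_lit 4) (nat_lit 0) (nat_lit 0x807602200) (nat_lit 0xf423f437a254591f423f00000f423fb71ae00000174ea) .nil) (.split (nat_lit 8) (nat_lit 4) (.split (nat_lit 4) (nat_lit 3) (.split (nat_lit 8) (nat_lit 1) (.leaf (.cons (nat_lit 0x10054) (nat_lit 0x100000000000000000001000200020000) (.cons (nat_lit 0x11540) (nat_lit 0x100000002000200020001000000000000) (.cons (nat_lit 0x5405) (nat_lit 0x30004000300000000000000010002) (.cons (nat_lit 0x10015) (nat_lit 0x100000000000000000000000200020001) .nil)))) (.cons (nat_lit 0x111011011) (nat_lit 0x100100) (nat_lit 5) (nat_lit 0x256010034) .nil)) (.non (nat_lit 2) (nat_lit 5) (nat_lit 0x24205) (nat_lit 0x200010000000000010000000000030002))) (.non (nat_lit 1) (nat_lit 6) (nat_lit 0x20a40) (nat_lit 0x100000000000100020002000000000000))) (.non (nat_lit 1) (nat_lit 6) (nat_lit 0x20540) (nat_lit 0x100000000000100020001000000000000)))) (.non (nat_lit 2) (nat_lit 5) (nat_lit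 0x1a005) (nat_lit 0x100020001000000000000000000020003))) (.split (nat_lit 9) (nat_lit 0) (.split (nat_lit 9) (nat_lit 1) (.split (nat_lit 9) (nat_lit 3) (.split (nat_lit 9) (nat_lit 4) (.split (nat_lit 9) (nat_lit 5) (.split (nat_lit 9) (nat_lit 6) (.split (nat_lit 9) (nat_lit 8) (.split (nat_lit 9) (nat_lit 2) (.sup (nat_lit 0x500000000000000000005000a00090000) (nat_lit 0x300000007000a000800000000000000000001)) (.st (nat_lit 7) (nat_lit 1) (nat_lit 5) (nat_lit 0x45001) (nat_lit 0x1000000020001000000000000000000000001) (nat_lit 1) (nat_lit 1) (.st (nat_lit 9) (nat_lit 1) (nat_lit 5) (nat_lit 0x45011) (nat_lit 0x2000000020001000000000000000100000001) (nat_lit 1) (nat_lit 1) (.split (nat_lit 9) (nat_lit 2) (.split (nat_lit 9) (nat_lit 7) (.split (nat_lit 8) (nat_lit 4) (.split (nat_lit 7) (nat_lit 0) (.split (nat_lit 4) (nat_lit 3) (.leaf (.cons (nat_lit 0x45410) (nat_lit 0x2000000030004000300000000000100000000) (.cons (nat_lit 0x50014) (nat_lit 0x1000100000000000000000000000200020000) (.cons (nat_lit 0x11540)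 (nat_lit 0x100000002000200020001000000000000) (.cons (nat_lit 0x45401) (nat_lit 0x1000000020002000200000000000000000001) .nil)))) (.cons (nat_lit 0x1111011101) (nat_lit 0x100010) (nat_lit 0xb) (nat_lit 0x3702065401) (.cons (nat_lit 0x1110111101) (nat_lit 0x1000010) (nat_lit 0xb) (nat_lit 0x5260103407) .nil))) (.non (nat_lit 1) (nat_lit 5) (nat_lit 0x60250) (nat_lit 0x1000100000000000000020003000200000000))) (.non (nat_lit 1) (nat_lit 5) (nat_lit 0x8a001) (nat_lit 0x1000000020001000000000000000000000002))) (.non (nat_lit 1) (nat_lit 5) (nat_lit 0x65151) (nat_lit 0x2000100020001000000020002000200000001))) (.non (nat_lit 1) (nat_lit 5) (nat_lit 0x4a050) (nat_lit 0x3000000020001000000000001000200000000))) (.non (nat_lit 1) (nat_lit 5) (nat_lit 0x8a050) (nat_lit 0x3000000020001000000000002000400000000)))))) (.non (nat_lit 2) (nat_lit 5) (nat_lit 0x54005) (nat_lit 0x1000100010000000000000000000000010001))) (.non (nat_lit 1) (nat_lit 5) (nat_lit 0x45000) (nat_lit 0x1000000010001000000000000000000000000))) (.non (nat_lit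 2) (nat_lit 6) (nat_lit 0x54505) (nat_lit 0x1000100010000000100010000000000010001))) (.non (nat_lit 1) (nat_lit 5) (nat_lit 0x55141) (nat_lit 0x2000100020001000000020001000000000001))) (.non (nat_lit 1) (nat_lit 5) (nat_lit 0x45151) (nat_lit 0x2000000020001000000010002000100000001))) (.non (nat_lit 2) (nat_lit 5) (nat_lit 0x44005) (nat_lit 0x1000000010000000000000000000000010001))) (.non (nat_lit 1) (nat_lit 5) (nat_lit 0x44001) (nat_lit 0x1000000010000000000000000000000000001))))

noncomputable def t742_117 : Tr := (.st (nat_lit 4) (nat_lit 1) (nat_lit 6) (nat_lit 0x10540) (nat_lit 0x100000000000100020001000000000000) (nat_lit 1) (nat_lit 1) (.st (nat_lit 8) (nat_lit 2) (nat_lit 6) (nat_lit 0x10544) (nat_lit 0x200000000000100020001000000010000) (nat_lit 1) (nat_lit 1) (.ex (nat_lit 5) (.ex (nat_lit 6) t742_116 (.split (nat_lit 9) (nat_lit 0) (.split (nat_lit 9) (nat_lit 1) (.split (nat_lit 9) (nat_lit 2) (.split (nat_lit 9) (nat_lit 3) (.split (nat_lit 9) (nat_lit 4) (.split (nat_lit 9) (nat_lit 7) (.split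 (nat_lit 9) (nat_lit 8) (.split (nat_lit 9) (nat_lit 5) (.unj (nat_lit 0x10054) (nat_lit 0x100000000000000000001000200020000) (nat_lit 0x45400) (nat_lit 0x1000000010002000200000000000000000000)) (.unj (nat_lit 0x41400) (nat_lit 0x1000000000001000100000000000000000000) (nat_lit 0x55) (nat_lit 0x1000200020001))) (.non (nat_lit 2) (nat_lit 5) (nat_lit 0x55005) (nat_lit 0x1000100010001000000000000000000010001))) (.non (nat_lit 1) (nat_lit 5) (nat_lit 0x45000) (nat_lit 0x1000000010001000000000000000000000000))) (.non (nat_lit 1) (nat_lit 6) (nat_lit 0x50540) (nat_lit 0x1000100000000000100020001000000000000))) (.non (nat_lit 1) (nat_lit 6) (nat_lit 0x50550) (nat_lit 0x1000100000000000100020002000100000000))) (.star (nat_lit 9) (nat_lit 2) (nat_lit 6))) (.star (nat_lit 9) (nat_lit 1) (nat_lit 6))) (.non (nat_lit 1) (nat_lit 5) (nat_lit 0x45001) (nat_lit 0x1000000010001000000000000000000000001)))) (.split (nat_lit 9) (nat_lit 0) (.split (nat_lit 9) (nat_lit 1) (.split (nat_lit 9) (nat_lit 2) (.split (nat_lit 9) (nat_lit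 3) (.split (nat_lit 9) (nat_lit 4) (.split (nat_lit 9) (nat_lit 7) (.split (nat_lit 9) (nat_lit 8) (.split (nat_lit 9) (nat_lit 6) (.unj (nat_lit 0x10054) (nat_lit 0x100000000000000000001000200020000) (nat_lit 0x45400) (nat_lit 0x1000000010002000200000000000000000000)) (.unj (nat_lit 0x41400) (nat_lit 0x1000000000001000100000000000000000000) (nat_lit 0x55) (nat_lit 0x1000200020001))) (.non (nat_lit 1) (nat_lit 6) (nat_lit 0x50500) (nat_lit 0x1000100000000000100010000000000000000))) (.non (nat_lit 2) (nat_lit 6) (nat_lit 0x54505) (nat_lit 0x1000100010000000100010000000000010001))) (.non (nat_lit 1) (nat_lit 6) (nat_lit 0x40500) (nat_lit 0x1000000000000000100010000000000000000))) (.non (nat_lit 1) (nat_lit 6) (nat_lit 0x40540) (nat_lit 0x1000000000000000100010001000000000000))) (.star (nat_lit 9) (nat_lit 2) (nat_lit 5))) (.star (nat_lit 9) (nat_lit 1) (nat_lit 5))) (.non (nat_lit 2) (nat_lit 6) (nat_lit 0x50505) (nat_lit 0x1000100000000000100010000000000010001))))))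

noncomputable def t742_118 : Tr := (.split (nat_lit 8) (nat_lit 1) (.split (nat_lit 8) (nat_lit 6) (.split (nat_lit 8) (nat_lit 7) (.st (nat_lit 4) (nat_lit 1) (nat_lit 6) (nat_lit 0x10540) (nat_lit 0x100000000000100020001000000000000) (nat_lit 1) (nat_lit 1) t742_115) (.st (nat_lit 4) (nat_lit 1) (nat_lit 5) (nat_lit 0x15141) (nat_lit 0x200020001000000020001000000000001) (nat_lit 1) (nat_lit 1) (.st (nat_lit 5) (nat_lit 1) (nat_lit 6) (nat_lit 0x14550) (nat_lit 0x200010000000200030002000100000000) (nat_lit 1) (nat_lit 1) (.st (nat_lit 6) (nat_lit 2) (nat_lit 5) (nat_lit 0x15105) (nat_lit 0x200030002000000010000000000010002) (nat_lit 1) (nat_lit 1) (.st (nat_lit 7) (nat_lit 1) (nat_lit 5) (nat_lit 0x15001) (nat_lit 0x100020001000000000000000000000001) (nat_lit 1) (nat_lit 1) (.st (nat_lit 8) (nat_lit 1) (nat_lit 5) (nat_lit 0x15101) (nat_lit 0x200020001000000010000000000000001) (nat_lit 1) (nat_lit 1) (.split (nat_lit 8) (nat_lit 7) (.split (nat_lit 8) (nat_lit 4) (.pd (.cons (nat_lit 0) (nat_lit 4) (nat_lit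 0) (nat_lit 0x765502110) (nat_lit 0xf423fb71aea2c280473700000f423fb71ae1f15600000) (.cons (nat_lit 3) (nat_lit 7) (nat_lit 0) (nat_lit 0x405440100) (nat_lit 0xf423f00000f423f545910671100000f423f54591437a2) .nil)) (.split (nat_lit 7) (nat_lit 0) (.split (nat_lit 4) (nat_lit 3) (.leaf (.cons (nat_lit 0x10154) (nat_lit 0x100000000000000020003000400030000) (.cons (nat_lit 0x15401) (nat_lit 0x100020002000200000000000000000001) (.cons (nat_lit 0x11540) (nat_lit 0x100000002000200020001000000000000) (.cons (nat_lit 0x14015) (nat_lit 0x100020000000000000000000300040003) .nil)))) (.cons (nat_lit 0x110111101) (nat_lit 0x1000010) (nat_lit 0xd) (nat_lit 0x450102306) (.cons (nat_lit 0x111011011) (nat_lit 0x100100) (nat_lit 0xd) (nat_lit 0x401056032) .nil))) (.non (nat_lit 1) (nat_lit 5) (nat_lit 0x28250) (nat_lit 0x200010000000000030004000200000000))) (.non (nat_lit 1) (nat_lit 5) (nat_lit 0x2a001) (nat_lit 0x100020001000000000000000000000002)))) (.non (nat_lit 1) (nat_lit 5) (nat_lit 0x2a140) (nat_lit 0x300020001000000040002000000000000)))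 (.non (nat_lit 1) (nat_lit 5) (nat_lit 0x1a140) (nat_lit 0x300020001000000020001000000000000))))))))) (.split (nat_lit 8) (nat_lit 7) (.sup (nat_lit 0x1000500050003) (nat_lit 0x300000005000400010000000000000000)) (.non (nat_lit 1) (nat_lit 5) (nat_lit 0x15000) (nat_lit 0x100010001000000000000000000000000)))) (.split (nat_lit 8) (nat_lit 6) (.split (nat_lit 8) (nat_lit 7) t742_117 (.non (nat_lit 2) (nat_lit 5) (nat_lit 0x14005) (nat_lit 0x100010000000000000000000000010001))) (.star (nat_lit 8) (nat_lit 1) (nat_lit 6))))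

noncomputable def t742_119 : Tr := (.ex (nat_lit 0xa) (.leaf (.cons (nat_lit 0x50054) (nat_lit 0x1000200000000000000000003000400030000) (.cons (nat_lit 0x11540) (nat_lit 0x100000003000400030002000000000000) (.cons (nat_lit 0x5405) (nat_lit 0x30004000300000000000000010002) (.cons (nat_lit 0x5015) (nat_lit 0x20001000000000000000300040003) .nil)))) (.cons (nat_lit 0x11100111100) (nat_lit 0x1000010) (nat_lit 0xd) (nat_lit 0x65400320100) (.cons (nat_lit 0x11000011) (nat_lit 0x100100) (nat_lit 2) (nat_lit 0x23000001) .nil))) (.split (nat_lit 0xb) (nat_lit 0) (.split (nat_lit 0xb) (nat_lit 1) (.split (nat_lit 0xb) (nat_lit 2) (.split (nat_lit 0xb) (nat_lit 3) (.split (nat_lit 0xb) (nat_lit 4) (.split (nat_lit 0xb) (nat_lit 5) (.split (nat_lit 0xb) (nat_lit 6) (.split (nat_lit 0xb) (nat_lit 7) (.split (nat_lit 0xb) (nat_lit 8) (.split (nat_lit 0xb) (nat_lit 9) (.st (nat_lit 0xa) (nat_lit 1) (nat_lit 5) (nat_lit 0x550150) (nat_lit 0x100020002000200000000000000010002000100000000) (nat_lit 1) (nat_lit 1) (.st (nat_lit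 0xb) (nat_lit 1) (nat_lit 6) (nat_lit 0x550550) (nat_lit 0x200030004000500000000000200040006000300000000) (nat_lit 1) (nat_lit 1) (.split (nat_lit 0xb) (nat_lit 0xa) (.leaf (.cons (nat_lit 0x50054) (nat_lit 0x1000200000000000000000003000400030000) (.cons (nat_lit 0x11540) (nat_lit 0x100000003000400030002000000000000) (.cons (nat_lit 0x5405) (nat_lit 0x30004000300000000000000010002) (.cons (nat_lit 0x5015) (nat_lit 0x20001000000000000000300040003) .nil)))) (.cons (nat_lit 0x111100111100) (nat_lit 0x1000010) (nat_lit 0xe) (nat_lit 0x765400320100) (.cons (nat_lit 0x11000011) (nat_lit 0x100100) (nat_lit 2) (nat_lit 0x23000001) .nil))) (.non (nat_lit 1) (nat_lit 5) (nat_lit 0x950150) (nat_lit 0x100020002000200000000000000010002000100000000))))) (.non (nat_lit 1) (nat_lit 5) (nat_lit 0x540000) (nat_lit 0x100010001000000000000000000000000000000000000))) (.non (nat_lit 1) (nat_lit 5) (nat_lit 0x550000) (nat_lit 0x100010001000100000000000000000000000000000000))) (.non (nat_lit 1) (nat_lit 5) (nat_lit 0x555151) (nat_lit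 0x200020002000200020001000000010002000100000001))) (.non (nat_lit 3) (nat_lit 7) (nat_lit 0x541400) (nat_lit 0x300020001000000000004000300000000000000000000))) (.non (nat_lit 1) (nat_lit 6) (nat_lit 0x550540) (nat_lit 0x100010001000100000000000100010001000000000000))) (.non (nat_lit 1) (nat_lit 5) (nat_lit 0x550140) (nat_lit 0x100010001000100000000000000010001000000000000))) (.non (nat_lit 1) (nat_lit 5) (nat_lit 0x550040) (nat_lit 0x100010001000100000000000000000001000000000000))) (.non (nat_lit 1) (nat_lit 5) (nat_lit 0x550050) (nat_lit 0x100010001000100000000000000000001000100000000))) (.non (nat_lit 3) (nat_lit 7) (nat_lit 0x540014) (nat_lit 0x300020001000000000000000000000000000300040000))) (.non (nat_lit 1) (nat_lit 6) (nat_lit 0x550551) (nat_lit 0x200030004000500000000000200040006000300000001))))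

noncomputable def t742_120 : Tr := (.split (nat_lit 9) (nat_lit 6) (.split (nat_lit 9) (nat_lit 7) (.st (nat_lit 8) (nat_lit 1) (nat_lit 5) (nat_lit 0x50150) (nat_lit 0x1000200000000000000010002000100000000) (nat_lit 1) (nat_lit 1) (.split (nat_lit 9) (nat_lit 8) (.split (nat_lit 4) (nat_lit 3) (.ex (nat_lit 9) (.leaf (.cons (nat_lit 0x50054) (nat_lit 0x1000200000000000000000003000400030000) (.cons (nat_lit 0x11540) (nat_lit 0x100000003000400030002000000000000) (.cons (nat_lit 0x5405) (nat_lit 0x30004000300000000000000010002) (.cons (nat_lit 0x5015) (nat_lit 0x20001000000000000000300040003) .nil)))) (.cons (nat_lit 0x1100111100) (nat_lit 0x1000010) (nat_lit 0xc) (nat_lit 0x5400320100) .nil)) (.split (nat_lit 0xa) (nat_lit 0) (.split (nat_lit 0xa) (nat_lit 1) (.split (nat_lit 0xa) (nat_lit 2) (.split (nat_lit 0xa) (nat_lit 3) (.split (nat_lit 0xa) (nat_lit 4) (.split (nat_lit 0xa) (nat_lit 5) (.split (nat_lit 0xa) (nat_lit 6) (.split (nat_lit 0xa) (nat_lit 7) (.split (nat_lit 0xa) (nat_lit 8) (.st (nat_lit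 9) (nat_lit 1) (nat_lit 5) (nat_lit 0x150150) (nat_lit 0x10002000200000000000000010002000100000000) (nat_lit 1) (nat_lit 1) (.split (nat_lit 0xa) (nat_lit 9) t742_119 (.non (nat_lit 1) (nat_lit 5) (nat_lit 0x250150) (nat_lit 0x10002000200000000000000010002000100000000)))) (.non (nat_lit 1) (nat_lit 5) (nat_lit 0x150000) (nat_lit 0x10001000100000000000000000000000000000000))) (.non (nat_lit 1) (nat_lit 5) (nat_lit 0x155151) (nat_lit 0x20002000200020001000000010002000100000001))) (.non (nat_lit 3) (nat_lit 7) (nat_lit 0x151400) (nat_lit 0x30002000100000004000300000000000000000000))) (.non (nat_lit 1) (nat_lit 6) (nat_lit 0x150540) (nat_lit 0x10001000100000000000100010001000000000000))) (.non (nat_lit 1) (nat_lit 5) (nat_lit 0x150140) (nat_lit 0x10001000100000000000000010001000000000000))) (.non (nat_lit 1) (nat_lit 5) (nat_lit 0x150040) (nat_lit 0x10001000100000000000000000001000000000000))) (.non (nat_lit 1) (nat_lit 5) (nat_lit 0x150050) (nat_lit 0x10001000100000000000000000001000100000000))) (.non (nat_lit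 3) (nat_lit 7) (nat_lit 0x150014) (nat_lit 0x30002000100000000000000000000000300040000))) (.non (nat_lit 1) (nat_lit 6) (nat_lit 0x154551) (nat_lit 0x30004000500010000000200040006000300000002)))) (.non (nat_lit 1) (nat_lit 5) (nat_lit 0x10250) (nat_lit 0x100000000000000010002000100000000))) (.non (nat_lit 1) (nat_lit 5) (nat_lit 0x90150) (nat_lit 0x1000200000000000000010002000100000000)))) (.non (nat_lit 1) (nat_lit 5) (nat_lit 0x55151) (nat_lit 0x2000200020001000000010002000100000001))) (.non (nat_lit 3) (nat_lit 7) (nat_lit 0x41500) (nat_lit 0x1000000000002000200010000000000000000)))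

noncomputable def t742_121 : Tr := (.ex (nat_lit 0xa) (.leaf (.cons (nat_lit 0x50054) (nat_lit 0x1000200000000000000000003000400030000) (.cons (nat_lit 0x5401) (nat_lit 0x10001000100000000000000000001) (.cons (nat_lit 0x11540) (nat_lit 0x100000003000400030002000000000000) (.cons (nat_lit 0x4015) (nat_lit 0x10000000000000000000100010001) .nil)))) (.cons (nat_lit 0x11100111100) (nat_lit 0x1000010) (nat_lit 0xd) (nat_lit 0x65400320100) (.cons (nat_lit 0x11000011) (nat_lit 0x100100) (nat_lit 0xf) (nat_lit 0x23000001) .nil))) (.split (nat_lit 0xb) (nat_lit 0) (.split (nat_lit 0xb) (nat_lit 1) (.split (nat_lit 0xb) (nat_lit 2) (.split (nat_lit 0xb) (nat_lit 3) (.split (nat_lit 0xb) (nat_lit 4) (.split (nat_lit 0xb) (nat_lit 5) (.split (nat_lit 0xb) (nat_lit 6) (.split (nat_lit 0xb) (nat_lit 7) (.split (nat_lit 0xb) (nat_lit 8) (.split (nat_lit 0xb) (nat_lit 9) (.st (nat_lit 0xa) (nat_lit 1) (nat_lit 5) (nat_lit 0x550150) (nat_lit 0x100020002000200000000000000010002000100000000) (nat_lit 1) (nat_lit 1) (.st (nat_lit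 0xb) (nat_lit 1) (nat_lit 6) (nat_lit 0x550550) (nat_lit 0x200030004000500000000000200040006000300000000) (nat_lit 1) (nat_lit 1) (.split (nat_lit 0xb) (nat_lit 0xa) (.leaf (.cons (nat_lit 0x50054) (nat_lit 0x1000200000000000000000003000400030000) (.cons (nat_lit 0x5401) (nat_lit 0x10001000100000000000000000001) (.cons (nat_lit 0x11540) (nat_lit 0x100000003000400030002000000000000) (.cons (nat_lit 0x4015) (nat_lit 0x10000000000000000000100010001) .nil)))) (.cons (nat_lit 0x111100111100) (nat_lit 0x1000010) (nat_lit 0xe) (nat_lit 0x765400320100) (.cons (nat_lit 0x11000011) (nat_lit 0x100100) (nat_lit 0xf) (nat_lit 0x23000001) .nil))) (.non (nat_lit 1) (nat_lit 5) (nat_lit 0x950150) (nat_lit 0x100020002000200000000000000010002000100000000))))) (.non (nat_lit 1) (nat_lit 5) (nat_lit 0x540000) (nat_lit 0x100010001000000000000000000000000000000000000))) (.non (nat_lit 1) (nat_lit 5) (nat_lit 0x550000) (nat_lit 0x100010001000100000000000000000000000000000000))) (.non (nat_lit 1) (nat_lit 5) (nat_lit 0x80a001) (nat_lit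 0x100000000000000020001000000000000000000000002))) (.non (nat_lit 1) (nat_lit 5) (nat_lit 0xaaa2a1) (nat_lit 0x200020002000200020002000000010002000100000002))) (.non (nat_lit 1) (nat_lit 6) (nat_lit 0x550540) (nat_lit 0x100010001000100000000000100010001000000000000))) (.non (nat_lit 1) (nat_lit 5) (nat_lit 0x550140) (nat_lit 0x100010001000100000000000000010001000000000000))) (.non (nat_lit 1) (nat_lit 5) (nat_lit 0x550040) (nat_lit 0x100010001000100000000000000000001000000000000))) (.non (nat_lit 1) (nat_lit 5) (nat_lit 0x550050) (nat_lit 0x100010001000100000000000000000001000100000000))) (.non (nat_lit 2) (nat_lit 5) (nat_lit 0x40a005) (nat_lit 0x100000000000000020001000000000000000000020003))) (.non (nat_lit 1) (nat_lit 5) (nat_lit 0x50a001) (nat_lit 0x200010000000000020001000000000000000000000003))))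

noncomputable def t742_122 : Tr := (.st (nat_lit 8) (nat_lit 1) (nat_lit 5) (nat_lit 0x50150) (nat_lit 0x1000200000000000000010002000100000000) (nat_lit 1) (nat_lit 1) (.split (nat_lit 7) (nat_lit 0) (.split (nat_lit 9) (nat_lit 8) (.split (nat_lit 8) (nat_lit 3) (.split (nat_lit 4) (nat_lit 3) (.ex (nat_lit 9) (.leaf (.cons (nat_lit 0x50054) (nat_lit 0x1000200000000000000000003000400030000) (.cons (nat_lit 0x5401) (nat_lit 0x10001000100000000000000000001) (.cons (nat_lit 0x11540) (nat_lit 0x100000003000400030002000000000000) (.cons (nat_lit 0x4015) (nat_lit 0x10000000000000000000100010001) .nil)))) (.cons (nat_lit 0x1100111100) (nat_lit 0x1000010) (nat_lit 0xc) (nat_lit 0x5400320100) .nil)) (.split (nat_lit 0xa) (nat_lit 0) (.split (nat_lit 0xa) (nat_lit 1) (.split (nat_lit 0xa) (nat_lit 2) (.split (nat_lit 0xa) (nat_lit 3) (.split (nat_lit 0xa) (nat_lit 4) (.split (nat_lit 0xa) (nat_lit 5) (.split (nat_lit 0xa) (nat_lit 6) (.split (nat_lit 0xa) (nat_lit 7) (.split (nat_lit 0xa) (nat_lit 8) (.st (nat_lit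 9) (nat_lit 1) (nat_lit 5) (nat_lit 0x150150) (nat_lit 0x10002000200000000000000010002000100000000) (nat_lit 1) (nat_lit 1) (.split (nat_lit 0xa) (nat_lit 9) t742_121 (.non (nat_lit 1) (nat_lit 5) (nat_lit 0x250150) (nat_lit 0x10002000200000000000000010002000100000000)))) (.non (nat_lit 1) (nat_lit 5) (nat_lit 0x150000) (nat_lit 0x10001000100000000000000000000000000000000))) (.non (nat_lit 1) (nat_lit 5) (nat_lit 0x20a001) (nat_lit 0x10000000000020001000000000000000000000002))) (.non (nat_lit 1) (nat_lit 5) (nat_lit 0x2aa2a1) (nat_lit 0x20002000200020002000000010002000100000002))) (.non (nat_lit 1) (nat_lit 6) (nat_lit 0x150540) (nat_lit 0x10001000100000000000100010001000000000000))) (.non (nat_lit 1) (nat_lit 5) (nat_lit 0x150140) (nat_lit 0x10001000100000000000000010001000000000000))) (.non (nat_lit 1) (nat_lit 5) (nat_lit 0x150040) (nat_lit 0x10001000100000000000000000001000000000000))) (.non (nat_lit 1) (nat_lit 5) (nat_lit 0x150050) (nat_lit 0x10001000100000000000000000001000100000000))) (.non (nat_lit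 2) (nat_lit 5) (nat_lit 0x10a005) (nat_lit 0x10000000000020001000000000000000000020003))) (.non (nat_lit 1) (nat_lit 5) (nat_lit 0x14a001) (nat_lit 0x20001000000020001000000000000000000000003)))) (.non (nat_lit 1) (nat_lit 5) (nat_lit 0x10250) (nat_lit 0x100000000000000010002000100000000))) (.non (nat_lit 1) (nat_lit 5) (nat_lit 0x20150) (nat_lit 0x100000000000000010002000100000000))) (.non (nat_lit 1) (nat_lit 5) (nat_lit 0x90150) (nat_lit 0x1000200000000000000010002000100000000))) (.non (nat_lit 2) (nat_lit 5) (nat_lit 0x5005) (nat_lit 0x20001000000000000000000010002))))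

noncomputable def t742_123 : Tr := (.split (nat_lit 7) (nat_lit 0) (.split (nat_lit 8) (nat_lit 3) (.pd (.cons (nat_lit 1) (nat_lit 4) (nat_lit 0) (nat_lit 0x307602200) (nat_lit 0xf423f437a254591f423f00000b71aea2c2800000174ea) (.cons (nat_lit 3) (nat_lit 6) (nat_lit 0) (nat_lit 0x800440100) (nat_lit 0xf423ff423f00000f423fb71ae00000f423f5459106711) .nil)) (.ex (nat_lit 8) (.pd (.cons (nat_lit 0) (nat_lit 4) (nat_lit 0) (nat_lit 0x365502110) (nat_lit 0xf423ff423fb71ae1f15600000b71aea2c280473700000) .nil) (.split (nat_lit 4) (nat_lit 3) (.leaf (.cons (nat_lit 0x10154) (nat_lit 0x100000000000000010002000200020000) (.cons (nat_lit 0x11540) (nat_lit 0x100000003000400030002000000000000) (.cons (nat_lit 0x5405) (nat_lit 0x30004000300000000000000010002) (.cons (nat_lit 0x5015) (nat_lit 0x20001000000000000000300040003) .nil)))) (.cons (nat_lit 0x100111100) (nat_lit 0x1000010) (nat_lit 8) (nat_lit 0x200430100) (.cons (nat_lit 0x11000011) (nat_lit 0x100100) (nat_lit 2) (nat_lit 0x23000001) .nil))) (.non (nat_lit 1) (nat_lit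 5) (nat_lit 0x10250) (nat_lit 0x100000000000000010002000100000000)))) (.split (nat_lit 9) (nat_lit 0) (.split (nat_lit 9) (nat_lit 1) (.split (nat_lit 9) (nat_lit 2) (.split (nat_lit 9) (nat_lit 3) (.split (nat_lit 9) (nat_lit 4) (.split (nat_lit 9) (nat_lit 5) t742_120 (.non (nat_lit 1) (nat_lit 6) (nat_lit 0x50540) (nat_lit 0x1000100000000000100010001000000000000))) (.non (nat_lit 1) (nat_lit 5) (nat_lit 0x50140) (nat_lit 0x1000100000000000000010001000000000000))) (.non (nat_lit 1) (nat_lit 5) (nat_lit 0x50040) (nat_lit 0x1000100000000000000000001000000000000))) (.non (nat_lit 1) (nat_lit 5) (nat_lit 0x50050) (nat_lit 0x1000100000000000000000001000100000000))) (.non (nat_lit 3) (nat_lit 7) (nat_lit 0x40015) (nat_lit 0x1000000000000000000000000000200020001))) (.non (nat_lit 3) (nat_lit 7) (nat_lit 0x50015) (nat_lit 0x2000100000000000000000000000300040003))))) (.non (nat_lit 1) (nat_lit 5) (nat_lit 0x20150) (nat_lit 0x100000000000000010002000100000000))) (.ex (nat_lit 8) (.split (nat_lit 8) (nat_lit 3) (.pd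 (.cons (nat_lit 0) (nat_lit 4) (nat_lit 0) (nat_lit 0x365502110) (nat_lit 0xf423ff423fb71ae1f15600000b71aea2c280473700000) .nil) (.split (nat_lit 7) (nat_lit 0) (.split (nat_lit 4) (nat_lit 3) (.leaf (.cons (nat_lit 0x10154) (nat_lit 0x100000000000000010002000200020000) (.cons (nat_lit 0x5401) (nat_lit 0x10001000100000000000000000001) (.cons (nat_lit 0x11540) (nat_lit 0x100000003000400030002000000000000) (.cons (nat_lit 0x4015) (nat_lit 0x10000000000000000000100010001) .nil)))) (.cons (nat_lit 0x100111100) (nat_lit 0x1000010) (nat_lit 8) (nat_lit 0x200430100) (.cons (nat_lit 0x11000011) (nat_lit 0x100100) (nat_lit 0xf) (nat_lit 0x23000001) .nil))) (.non (nat_lit 1) (nat_lit 5) (nat_lit 0x10250) (nat_lit 0x100000000000000010002000100000000))) (.non (nat_lit 2) (nat_lit 5) (nat_lit 0x5005) (nat_lit 0x20001000000000000000000010002)))) (.non (nat_lit 1) (nat_lit 5) (nat_lit 0x20150) (nat_lit 0x100000000000000010002000100000000))) (.split (nat_lit 9) (nat_lit 0) (.split (nat_lit 9) (nat_lit 1) (.split (nat_lit 9)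 (nat_lit 2) (.split (nat_lit 9) (nat_lit 3) (.split (nat_lit 9) (nat_lit 4) (.split (nat_lit 9) (nat_lit 5) (.split (nat_lit 9) (nat_lit 6) (.split (nat_lit 9) (nat_lit 7) t742_122 (.non (nat_lit 1) (nat_lit 5) (nat_lit 0x8a001) (nat_lit 0x1000000020001000000000000000000000002))) (.non (nat_lit 1) (nat_lit 5) (nat_lit 0xaa2a1) (nat_lit 0x2000200020002000000010002000100000002))) (.non (nat_lit 1) (nat_lit 6) (nat_lit 0x50540) (nat_lit 0x1000100000000000100010001000000000000))) (.non (nat_lit 1) (nat_lit 5) (nat_lit 0x50140) (nat_lit 0x1000100000000000000010001000000000000))) (.non (nat_lit 1) (nat_lit 5) (nat_lit 0x50040) (nat_lit 0x1000100000000000000000001000000000000))) (.non (nat_lit 1) (nat_lit 5) (nat_lit 0x50050) (nat_lit 0x1000100000000000000000001000100000000))) (.non (nat_lit 2) (nat_lit 5) (nat_lit 0x4a005) (nat_lit 0x1000000020001000000000000000000020003))) (.non (nat_lit 1) (nat_lit 5) (nat_lit 0x5a001) (nat_lit 0x2000100020001000000000000000000000003)))))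

noncomputable def t742_124 : Tr := (.ex (nat_lit 9) (.split (nat_lit 8) (nat_lit 3) (.split (nat_lit 9) (nat_lit 7) (.pd (.cons (nat_lit 0) (nat_lit 4) (nat_lit 0) (nat_lit 0x7365502110) (nat_lit 0xf423ff423fb71aea2c280473700000b71aea2c280473700000) .nil) (.split (nat_lit 7) (nat_lit 0) (.split (nat_lit 4) (nat_lit 3) (.leaf (.cons (nat_lit 0x10154) (nat_lit 0x100000000000000010002000200020000) (.cons (nat_lit 0x45401) (nat_lit 0x1000000020002000200000000000000000001) (.cons (nat_lit 0x11540) (nat_lit 0x100000003000400030002000000000000) (.cons (nat_lit 0x44015) (nat_lit 0x1000000020000000000000000000300040003) .nil)))) (.cons (nat_lit 0x100111100) (nat_lit 0x1000010) (nat_lit 8) (nat_lit 0x200430100) (.cons (nat_lit 0x1011000011) (nat_lit 0x100100) (nat_lit 8) (nat_lit 0x2001000043) .nil))) (.non (nat_lit 1) (nat_lit 5) (nat_lit 0x10250) (nat_lit 0x100000000000000010002000100000000))) (.non (nat_lit 1) (nat_lit 5) (nat_lit 0x8a001) (nat_lit 0x1000000020001000000000000000000000002)))) (.non (nat_lit 1) (nat_lit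 5) (nat_lit 0x85001) (nat_lit 0x1000000020001000000000000000000000001))) (.non (nat_lit 1) (nat_lit 5) (nat_lit 0x20150) (nat_lit 0x100000000000000010002000100000000))) (.split (nat_lit 0xa) (nat_lit 0) (.split (nat_lit 0xa) (nat_lit 1) (.split (nat_lit 0xa) (nat_lit 2) (.split (nat_lit 0xa) (nat_lit 3) (.split (nat_lit 0xa) (nat_lit 4) (.split (nat_lit 0xa) (nat_lit 5) (.split (nat_lit 0xa) (nat_lit 6) (.split (nat_lit 0xa) (nat_lit 7) (.split (nat_lit 0xa) (nat_lit 8) (.sup (nat_lit 0x70000000000000001000e001400100000) (nat_lit 0x5000a0000000f0014000f00000000000000000000)) (.non (nat_lit 1) (nat_lit 5) (nat_lit 0x155151) (nat_lit 0x20002000200020001000000010002000100000001))) (.non (nat_lit 1) (nat_lit 5) (nat_lit 0x144000) (nat_lit 0x10001000000010000000000000000000000000000))) (.non (nat_lit 1) (nat_lit 5) (nat_lit 0x145000) (nat_lit 0x10001000000010001000000000000000000000000))) (.non (nat_lit 3) (nat_lit 7) (nat_lit 0x101500) (nat_lit 0x10000000000000002000200010000000000000000))) (.non (nat_lit 1) (nat_lit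 5) (nat_lit 0x155151) (nat_lit 0x20002000100020001000000020002000100000001))) (.non (nat_lit 1) (nat_lit 5) (nat_lit 0x110150) (nat_lit 0x10000000100000000000000010002000100000000))) (.non (nat_lit 1) (nat_lit 5) (nat_lit 0x155151) (nat_lit 0x20002000100020001000000010002000200000001))) (.non (nat_lit 2) (nat_lit 5) (nat_lit 0x144005) (nat_lit 0x10001000000010000000000000000000000010001))) (.non (nat_lit 1) (nat_lit 5) (nat_lit 0x144001) (nat_lit 0x10001000000010000000000000000000000000001))))

noncomputable def t742_125 : Tr := (.split (nat_lit 9) (nat_lit 0) (.split (nat_lit 9) (nat_lit 1) (.split (nat_lit 9) (nat_lit 2) (.split (nat_lit 9) (nat_lit 3) (.split (nat_lit 9) (nat_lit 4) (.split (nat_lit 9) (nat_lit 5) (.split (nat_lit 9) (nat_lit 6) (.split (nat_lit 9) (nat_lit 8) (.st (nat_lit 7) (nat_lit 1) (nat_lit 5) (nat_lit 0x45001) (nat_lit 0x1000000020001000000000000000000000001) (nat_lit 1) (nat_lit 1) (.ex (nat_lit 8) t742_124 (.split (nat_lit 0xa) (nat_lit 0) (.split (nat_lit 0xa) (nat_lit 1) (.split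 (nat_lit 0xa) (nat_lit 2) (.split (nat_lit 0xa) (nat_lit 3) (.split (nat_lit 0xa) (nat_lit 4) (.split (nat_lit 0xa) (nat_lit 5) (.split (nat_lit 0xa) (nat_lit 6) (.split (nat_lit 0xa) (nat_lit 7) (.split (nat_lit 0xa) (nat_lit 9) (.sup (nat_lit 0x70000000e0014001000000000000000000001) (nat_lit 0x50000000a0000000000000000000f0014000f0000)) (.non (nat_lit 1) (nat_lit 5) (nat_lit 0x155151) (nat_lit 0x20002000200020001000000010002000100000001))) (.non (nat_lit 1) (nat_lit 5) (nat_lit 0x155150) (nat_lit 0x20001000200020001000000010002000100000000))) (.non (nat_lit 1) (nat_lit 5) (nat_lit 0x155151) (nat_lit 0x20001000200020002000000010002000100000001))) (.non (nat_lit 1) (nat_lit 6) (nat_lit 0x110540) (nat_lit 0x10000000100000000000100010001000000000000))) (.non (nat_lit 1) (nat_lit 5) (nat_lit 0x110140) (nat_lit 0x10000000100000000000000010001000000000000))) (.non (nat_lit 1) (nat_lit 5) (nat_lit 0x110040) (nat_lit 0x10000000100000000000000000001000000000000))) (.non (nat_lit 1) (nat_lit 5) (nat_lit 0x110050) (nat_lit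 0x10000000100000000000000000001000100000000))) (.non (nat_lit 3) (nat_lit 7) (nat_lit 0x100015) (nat_lit 0x10000000000000000000000000000000200020001))) (.non (nat_lit 1) (nat_lit 5) (nat_lit 0x155151) (nat_lit 0x20001000200020001000000010002000100000002))))) (.non (nat_lit 1) (nat_lit 5) (nat_lit 0x55151) (nat_lit 0x2000200020001000000010002000100000001))) (.non (nat_lit 1) (nat_lit 5) (nat_lit 0x45000) (nat_lit 0x1000000010001000000000000000000000000))) (.non (nat_lit 3) (nat_lit 7) (nat_lit 0x41500) (nat_lit 0x1000000000002000200010000000000000000))) (.non (nat_lit 1) (nat_lit 5) (nat_lit 0x55151) (nat_lit 0x2000100020001000000020002000100000001))) (.non (nat_lit 1) (nat_lit 5) (nat_lit 0x50150) (nat_lit 0x1000100000000000000010002000100000000))) (.non (nat_lit 1) (nat_lit 5) (nat_lit 0x55151) (nat_lit 0x2000100020001000000010002000200000001))) (.non (nat_lit 2) (nat_lit 5) (nat_lit 0x44005) (nat_lit 0x1000000010000000000000000000000010001))) (.non (nat_lit 1) (nat_lit 5) (nat_lit 0x44001) (nat_lit 0x1000000010000000000000000000000000001)))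

noncomputable def t742_126 : Tr := (.ex (nat_lit 5) (.ex (nat_lit 6) (.pd (.cons (nat_lit 3) (nat_lit 7) (nat_lit 0) (nat_lit 0x805440100) (nat_lit 0xf423f00000f423f54591437a200000f423f54591437a2) .nil) (.ex (nat_lit 7) t742_123 t742_125)) (.split (nat_lit 9) (nat_lit 0) (.split (nat_lit 9) (nat_lit 1) (.split (nat_lit 9) (nat_lit 2) (.split (nat_lit 9) (nat_lit 3) (.split (nat_lit 9) (nat_lit 4) (.split (nat_lit 9) (nat_lit 7) (.split (nat_lit 9) (nat_lit 5) (.split (nat_lit 9) (nat_lit 8) (.sup (nat_lit 0x5000a00090002) (nat_lit 0x500000002000a000800000000000000000000)) (.sup (nat_lit 0x5000a00090002) (nat_lit 0x500000002000a000800000000000000000000))) (.split (nat_lit 9) (nat_lit 8) (.unj (nat_lit 0x41400) (nat_lit 0x1000000000001000100000000000000000000) (nat_lit 0x55) (nat_lit 0x1000200020001)) (.non (nat_lit 1) (nat_lit 6) (nat_lit 0x50540) (nat_lit 0x1000100000000000100010001000000000000)))) (.non (nat_lit 1) (nat_lit 5) (nat_lit 0x45000) (nat_lit 0x1000000010001000000000000000000000000))) (.non (nat_lit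 1) (nat_lit 6) (nat_lit 0x50550) (nat_lit 0x1000100000000000100020002000100000000))) (.non (nat_lit 1) (nat_lit 5) (nat_lit 0x50150) (nat_lit 0x1000100000000000000010002000100000000))) (.star (nat_lit 9) (nat_lit 2) (nat_lit 6))) (.star (nat_lit 9) (nat_lit 1) (nat_lit 6))) (.non (nat_lit 1) (nat_lit 5) (nat_lit 0x45001) (nat_lit 0x1000000010001000000000000000000000001)))) (.split (nat_lit 9) (nat_lit 1) (.split (nat_lit 9) (nat_lit 2) (.split (nat_lit 9) (nat_lit 3) (.split (nat_lit 9) (nat_lit 4) (.split (nat_lit 9) (nat_lit 8) (.split (nat_lit 9) (nat_lit 0) (.split (nat_lit 9) (nat_lit 6) (.split (nat_lit 9) (nat_lit 7) (.sup (nat_lit 0x20009000a0005) (nat_lit 0x5000000000008000a00020000000000000000)) (.sup (nat_lit 0x20009000a0005) (nat_lit 0x5000000000008000a00020000000000000000))) (.split (nat_lit 9) (nat_lit 7) (.unj (nat_lit 0x41400) (nat_lit 0x1000000000001000100000000000000000000) (nat_lit 0x55) (nat_lit 0x1000200020001)) (.non (nat_lit 1) (nat_lit 5) (nat_lit 0x45000) (nat_lit 0x1000000010001000000000000000000000000))))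 (.split (nat_lit 9) (nat_lit 6) (.split (nat_lit 9) (nat_lit 7) (.sup (nat_lit 0x500000005000a000900000000000000000000) (nat_lit 0x300000000000000010007000a00080000)) (.non (nat_lit 1) (nat_lit 5) (nat_lit 0x44001) (nat_lit 0x1000000010000000000000000000000000001))) (.non (nat_lit 1) (nat_lit 5) (nat_lit 0x45001) (nat_lit 0x1000000010001000000000000000000000001)))) (.non (nat_lit 1) (nat_lit 6) (nat_lit 0x50540) (nat_lit 0x1000100000000000100010001000000000000))) (.non (nat_lit 1) (nat_lit 6) (nat_lit 0x40500) (nat_lit 0x1000000000000000100010000000000000000))) (.non (nat_lit 1) (nat_lit 5) (nat_lit 0x50150) (nat_lit 0x1000100000000000000010002000100000000))) (.star (nat_lit 9) (nat_lit 2) (nat_lit 5))) (.star (nat_lit 9) (nat_lit 1) (nat_lit 5))))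

noncomputable def t742_127 : Tr := (.split (nat_lit 8) (nat_lit 0) (.split (nat_lit 8) (nat_lit 1) (.split (nat_lit 8) (nat_lit 6) (.st (nat_lit 3) (nat_lit 1) (nat_lit 5) (nat_lit 0x10150) (nat_lit 0x100000000000000010002000100000000) (nat_lit 1) (nat_lit 1) (.st (nat_lit 4) (nat_lit 1) (nat_lit 6) (nat_lit 0x10550) (nat_lit 0x100000000000100020002000100000000) (nat_lit 1) (nat_lit 1) t742_126)) (.st (nat_lit 7) (nat_lit 1) (nat_lit 5) (nat_lit 0x15151) (nat_lit 0x200020002000000010002000100000001) (nat_lit 1) (nat_lit 1) (.split (nat_lit 7) (nat_lit 0) (.pd (.cons (nat_lit 3) (nat_lit 6) (nat_lit 0) (nat_lit 0x800440100) (nat_lit 0xf423ff423f00000f423fb71ae00000f423f5459106711) .nil) (.st (nat_lit 3) (nat_lit 1) (nat_lit 5) (nat_lit 0x10150) (nat_lit 0x100000000000000010002000100000000) (nat_lit 1) (nat_lit 1) (.st (nat_lit 4) (nat_lit 1) (nat_lit 6) (nat_lit 0x10550) (nat_lit 0x100000000000100020002000100000000) (nat_lit 1) (nat_lit 1) (.st (nat_lit 6) (nat_lit 1) (nat_lit 5) (nat_lit 0x15150) (nat_lit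 0x200010002000000010002000100000000) (nat_lit 1) (nat_lit 1) (.st (nat_lit 8) (nat_lit 1) (nat_lit 5) (nat_lit 0x11150) (nat_lit 0x200000001000000010002000100000000) (nat_lit 1) (nat_lit 1) (.split (nat_lit 8) (nat_lit 3) (.split (nat_lit 8) (nat_lit 6) (.split (nat_lit 4) (nat_lit 3) (.leaf (.cons (nat_lit 0x15400) (nat_lit 0x100010002000200000000000000000000) (.cons (nat_lit 0x11054) (nat_lit 0x200000001000000000003000400030000) (.cons (nat_lit 0x10154) (nat_lit 0x100000000000000010002000200020000) (.cons (nat_lit 0x11500) (nat_lit 0x100000002000200010000000000000000) (.cons (nat_lit 0x5015) (nat_lit 0x20001000000000000000300040003) .nil))))) (.cons (nat_lit 0x111011011) (nat_lit 0x100100) (nat_lit 5) (nat_lit 0x423065001) .nil)) (.non (nat_lit 1) (nat_lit 5) (nat_lit 0x10250) (nat_lit 0x100000000000000010002000100000000))) (.non (nat_lit 1) (nat_lit 5) (nat_lit 0x1a140) (nat_lit 0x300010002000000010002000000000000))) (.non (nat_lit 1) (nat_lit 5) (nat_lit 0x2a140) (nat_lit 0x300010002000000020004000000000000))))))))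 (.non (nat_lit 1) (nat_lit 5) (nat_lit 0x2a2a1) (nat_lit 0x200020002000000010002000100000002))))) (.split (nat_lit 8) (nat_lit 6) (.sup (nat_lit 0x5000000000000000000000008000a0002) (nat_lit 0x20009000a00050000000000000000)) (.star (nat_lit 8) (nat_lit 1) (nat_lit 6)))) (.split (nat_lit 8) (nat_lit 1) (.split (nat_lit 8) (nat_lit 6) (.st (nat_lit 3) (nat_lit 1) (nat_lit 5) (nat_lit 0x10150) (nat_lit 0x100000000000000010002000100000000) (nat_lit 1) (nat_lit 1) (.st (nat_lit 4) (nat_lit 1) (nat_lit 6) (nat_lit 0x10550) (nat_lit 0x100000000000100020002000100000000) (nat_lit 1) (nat_lit 1) (.st (nat_lit 5) (nat_lit 1) (nat_lit 6) (nat_lit 0x14551) (nat_lit 0x300010000000200030004000200000002) (nat_lit 1) (nat_lit 1) (.st (nat_lit 6) (nat_lit 2) (nat_lit 5) (nat_lit 0x15145) (nat_lit 0x300030002000000010002000000020004) (nat_lit 1) (nat_lit 1) (.st (nat_lit 7) (nat_lit 1) (nat_lit 5) (nat_lit 0x15151) (nat_lit 0x200020001000000010002000100000002) (nat_lit 1) (nat_lit 1) (.st (nat_lit 8) (nat_lit 1) (nat_lit 5) (nat_lit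 0x10151) (nat_lit 0x200000000000000010002000100000001) (nat_lit 1) (nat_lit 1) (.split (nat_lit 8) (nat_lit 3) (.split (nat_lit 8) (nat_lit 0) (.pd (.cons (nat_lit 0) (nat_lit 4) (nat_lit 0) (nat_lit 0x365502110) (nat_lit 0xf423ff423fb71ae1f15600000b71aea2c280473700000) (.cons (nat_lit 3) (nat_lit 7) (nat_lit 0) (nat_lit 0x5440100) (nat_lit 0xf423f00000f423f54591437a200000f423f5459106711) .nil)) (.split (nat_lit 7) (nat_lit 0) (.split (nat_lit 4) (nat_lit 3) (.leaf (.cons (nat_lit 0x10154) (nat_lit 0x100000000000000010002000200020000) (.cons (nat_lit 0x15401) (nat_lit 0x100030004000300000000000000000002) (.cons (nat_lit 0x11540) (nat_lit 0x100000003000400030002000000000000) (.cons (nat_lit 0x14015) (nat_lit 0x100010000000000000000000200020002) .nil)))) (.cons (nat_lit 0x110111101) (nat_lit 0x1000010) (nat_lit 0xd) (nat_lit 0x460320105) (.cons (nat_lit 0x111011011) (nat_lit 0x100100) (nat_lit 0xd) (nat_lit 0x423065010) .nil))) (.non (nat_lit 1) (nat_lit 5) (nat_lit 0x10250) (nat_lit 0x100000000000000010002000100000000)))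 (.non (nat_lit 1) (nat_lit 5) (nat_lit 0x1a041) (nat_lit 0x200020001000000000001000000000003)))) (.non (nat_lit 1) (nat_lit 5) (nat_lit 0x25081) (nat_lit 0x200020001000000000001000000000003))) (.non (nat_lit 1) (nat_lit 5) (nat_lit 0x20150) (nat_lit 0x100000000000000010002000100000000))))))))) (.non (nat_lit 1) (nat_lit 5) (nat_lit 0x15001) (nat_lit 0x100010001000000000000000000000001))) (.non (nat_lit 2) (nat_lit 5) (nat_lit 0x10005) (nat_lit 0x100000000000000000000000000010001))))

noncomputable def t742_128 : Tr := (.ex (nat_lit 5) (.ex (nat_lit 6) (.split (nat_lit 4) (nat_lit 3) (.pd (.cons (nat_lit 2) (nat_lit 7) (nat_lit 0) (nat_lit 0x805433000) (nat_lit 0xf423f00000f423f54591437a2174ea00000f423fb71ae) .nil) (.split (nat_lit 8) (nat_lit 2) (.split (nat_lit 8) (nat_lit 7) (.split (nat_lit 7) (nat_lit 0) (.leaf (.cons (nat_lit 0x15410) (nat_lit 0x200030004000300000000000100000000) (.cons (nat_lit 0x15014) (nat_lit 0x300020001000000000000000400030000) (.cons (nat_lit 0x10054) (nat_lit 0x100000000000000000001000200020000)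 (.cons (nat_lit 0x1550) (nat_lit 0x3000400030002000100000000) (.cons (nat_lit 0x15401) (nat_lit 0x100020002000200000000000000000001) (.cons (nat_lit 0x10015) (nat_lit 0x100000000000000000000000200020001) .nil)))))) (.cons (nat_lit 0x110111101) (nat_lit 0x1000010) (nat_lit 5) (nat_lit 0x210654300) .nil)) (.non (nat_lit 1) (nat_lit 5) (nat_lit 0x2a001) (nat_lit 0x100020001000000000000000000000002))) (.non (nat_lit 1) (nat_lit 5) (nat_lit 0x1a050) (nat_lit 0x300020001000000000001000200000000))) (.non (nat_lit 1) (nat_lit 5) (nat_lit 0x2a050) (nat_lit 0x300020001000000000002000400000000)))) (.non (nat_lit 1) (nat_lit 5) (nat_lit 0x15251) (nat_lit 0x200020001000000010002000200000001))) (.split (nat_lit 9) (nat_lit 0) (.split (nat_lit 9) (nat_lit 1) (.split (nat_lit 9) (nat_lit 2) (.split (nat_lit 9) (nat_lit 3) (.split (nat_lit 9) (nat_lit 4) (.split (nat_lit 9) (nat_lit 7) (.split (nat_lit 9) (nat_lit 8) (.split (nat_lit 9) (nat_lit 5) (.unj (nat_lit 0x10015) (nat_lit 0x100000000000000000000000200020001) (nat_lit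 0x41500) (nat_lit 0x1000000000002000200010000000000000000)) (.unj (nat_lit 0x41400) (nat_lit 0x1000000000001000100000000000000000000) (nat_lit 0x55) (nat_lit 0x1000200020001))) (.non (nat_lit 1) (nat_lit 5) (nat_lit 0x55000) (nat_lit 0x1000100010001000000000000000000000000))) (.non (nat_lit 1) (nat_lit 5) (nat_lit 0x45000) (nat_lit 0x1000000010001000000000000000000000000))) (.non (nat_lit 1) (nat_lit 5) (nat_lit 0x55150) (nat_lit 0x1000100010001000000010001000100000000))) (.non (nat_lit 1) (nat_lit 5) (nat_lit 0x55050) (nat_lit 0x1000100010001000000000001000100000000))) (.star (nat_lit 9) (nat_lit 2) (nat_lit 6))) (.star (nat_lit 9) (nat_lit 1) (nat_lit 6))) (.non (nat_lit 1) (nat_lit 5) (nat_lit 0x45001) (nat_lit 0x1000000010001000000000000000000000001)))) (.split (nat_lit 9) (nat_lit 0) (.split (nat_lit 9) (nat_lit 1) (.split (nat_lit 9) (nat_lit 2) (.split (nat_lit 9) (nat_lit 3) (.split (nat_lit 9) (nat_lit 4) (.split (nat_lit 9) (nat_lit 7) (.split (nat_lit 9) (nat_lit 8) (.split (nat_lit 9) (nat_lit 6)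 (.unj (nat_lit 0x10015) (nat_lit 0x100000000000000000000000200020001) (nat_lit 0x41500) (nat_lit 0x1000000000002000200010000000000000000)) (.unj (nat_lit 0x41400) (nat_lit 0x1000000000001000100000000000000000000) (nat_lit 0x55) (nat_lit 0x1000200020001))) (.non (nat_lit 1) (nat_lit 5) (nat_lit 0x55011) (nat_lit 0x1000200020001000000000000000100000001))) (.non (nat_lit 1) (nat_lit 5) (nat_lit 0x55001) (nat_lit 0x1000100020001000000000000000000000001))) (.non (nat_lit 1) (nat_lit 6) (nat_lit 0x40500) (nat_lit 0x1000000000000000100010000000000000000))) (.non (nat_lit 1) (nat_lit 5) (nat_lit 0x55151) (nat_lit 0x1000200020001000000010002000200000001))) (.star (nat_lit 9) (nat_lit 2) (nat_lit 5))) (.star (nat_lit 9) (nat_lit 1) (nat_lit 5))) (.non (nat_lit 1) (nat_lit 6) (nat_lit 0x54551) (nat_lit 0x1000100010000000100010001000100000001))))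

noncomputable def t742_129 : Tr := (.split (nat_lit 9) (nat_lit 2) (.split (nat_lit 9) (nat_lit 3) (.split (nat_lit 9) (nat_lit 5) (.split (nat_lit 9) (nat_lit 6) (.split (nat_lit 9) (nat_lit 7) (.split (nat_lit 9) (nat_lit 8) (.split (nat_lit 9) (nat_lit 1) (.sup (nat_lit 0x5000000000000000000000009000a0005) (nat_lit 0x3000000000008000a00070001000000000000)) (.st (nat_lit 4) (nat_lit 1) (nat_lit 5) (nat_lit 0x55151) (nat_lit 0x1000200020001000000020002000200000001) (nat_lit 1) (nat_lit 1) (.st (nat_lit 5) (nat_lit 1) (nat_lit 6) (nat_lit 0x54551) (nat_lit 0x3000300020000000400060005000400000001) (nat_lit 1) (nat_lit 2) (.st (nat_lit 6) (nat_lit 1) (nat_lit 5) (nat_lit 0x55151) (nat_lit 0x1000500060004000000020003000400000003) (nat_lit 1) (nat_lit 2) (.st (nat_lit 9) (nat_lit 1) (nat_lit 6) (nat_lit 0x54551) (nat_lit 0x4000300020000000300060005000400000001) (nat_lit 1) (nat_lit 2) (.split (nat_lit 9) (nat_lit 4) (.split (nat_lit 8) (nat_lit 2) (.split (nat_lit 8) (nat_lit 7) (.split (nat_lit 7) (nat_lit 0)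 (.split (nat_lit 4) (nat_lit 3) (.leaf (.cons (nat_lit 0x15410) (nat_lit 0x200030004000300000000000100000000) (.cons (nat_lit 0x50014) (nat_lit 0x1000100000000000000000000000200020000) (.cons (nat_lit 0x41540) (nat_lit 0x1000000000002000200020001000000000000) (.cons (nat_lit 0x15401) (nat_lit 0x100020002000200000000000000000001) .nil)))) (.cons (nat_lit 0x1111011101) (nat_lit 0x100010) (nat_lit 0xb) (nat_lit 0x7302065401) (.cons (nat_lit 0x1110111101) (nat_lit 0x1000010) (nat_lit 0xb) (nat_lit 0x2560103407) .nil))) (.non (nat_lit 1) (nat_lit 5) (nat_lit 0x90250) (nat_lit 0x1000100000000000000020003000200000000))) (.non (nat_lit 1) (nat_lit 5) (nat_lit 0x2a001) (nat_lit 0x100020001000000000000000000000002))) (.non (nat_lit 1) (nat_lit 5) (nat_lit 0x1a050) (nat_lit 0x300020001000000000001000200000000))) (.non (nat_lit 1) (nat_lit 5) (nat_lit 0x2a050) (nat_lit 0x300020001000000000002000400000000))) (.non (nat_lit 1) (nat_lit 5) (nat_lit 0x95151) (nat_lit 0x1000200020001000000020002000200000001)))))))) (.non (nat_lit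 1) (nat_lit 5) (nat_lit 0x50150) (nat_lit 0x1000100000000000000010001000100000000))) (.non (nat_lit 1) (nat_lit 5) (nat_lit 0x54150) (nat_lit 0x1000100010000000000010001000100000000))) (.non (nat_lit 1) (nat_lit 5) (nat_lit 0x55150) (nat_lit 0x1000100010001000000010001000100000000))) (.non (nat_lit 1) (nat_lit 6) (nat_lit 0x40500) (nat_lit 0x1000000000000000100010000000000000000))) (.non (nat_lit 1) (nat_lit 5) (nat_lit 0x40140) (nat_lit 0x1000000000000000000010001000000000000))) (.non (nat_lit 1) (nat_lit 5) (nat_lit 0x40150) (nat_lit 0x1000000000000000000010001000100000000)))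

noncomputable def t742_130 : Tr := (.ex (nat_lit 2) (.ex (nat_lit 3) (.ex (nat_lit 4) t742_96 (.split (nat_lit 8) (nat_lit 0) (.split (nat_lit 8) (nat_lit 2) (.split (nat_lit 8) (nat_lit 3) (.split (nat_lit 8) (nat_lit 5) t742_118 (.non (nat_lit 1) (nat_lit 6) (nat_lit 0x10500) (nat_lit 0x100000000000100010000000000000000))) (.non (nat_lit 1) (nat_lit 5) (nat_lit 0x10140) (nat_lit 0x100000000000000010001000000000000))) (.non (nat_lit 1) (nat_lit 5) (nat_lit 0x10150) (nat_lit 0x100000000000000010001000100000000))) (.non (nat_lit 2) (nat_lit 6) (nat_lit 0x14545) (nat_lit 0x200010000000100020001000000010002)))) (.split (nat_lit 8) (nat_lit 2) (.split (nat_lit 8) (nat_lit 4) (.split (nat_lit 8) (nat_lit 5) (.split (nat_lit 8) (nat_lit 7) t742_127 (.non (nat_lit 1) (nat_lit 5) (nat_lit 0x15151) (nat_lit 0x200020001000000010002000100000001))) (.non (nat_lit 1) (nat_lit 6) (nat_lit 0x10540) (nat_lit 0x100000000000100010001000000000000))) (.non (nat_lit 1) (nat_lit 5) (nat_lit 0x10140) (nat_lit 0x100000000000000010001000000000000)))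 (.non (nat_lit 1) (nat_lit 5) (nat_lit 0x10050) (nat_lit 0x100000000000000000001000100000000)))) (.split (nat_lit 8) (nat_lit 3) (.split (nat_lit 8) (nat_lit 4) (.split (nat_lit 8) (nat_lit 5) (.split (nat_lit 8) (nat_lit 6) (.split (nat_lit 8) (nat_lit 0) (.split (nat_lit 8) (nat_lit 1) (.split (nat_lit 8) (nat_lit 7) (.sup (nat_lit 0x500000000000000000002000a00080000) (nat_lit 0x5000a000900020000000000000000)) (.st (nat_lit 3) (nat_lit 1) (nat_lit 5) (nat_lit 0x15151) (nat_lit 0x200020001000000010002000200000001) (nat_lit 1) (nat_lit 1) (.st (nat_lit 2) (nat_lit 1) (nat_lit 5) (nat_lit 0x15051) (nat_lit 0x200020001000000000001000200000001) (nat_lit 1) (nat_lit 1) (.st (nat_lit 7) (nat_lit 1) (nat_lit 5) (nat_lit 0x15001) (nat_lit 0x100020001000000000000000000000001) (nat_lit 1) (nat_lit 1) (.st (nat_lit 8) (nat_lit 1) (nat_lit 5) (nat_lit 0x15011) (nat_lit 0x200020001000000000000000100000001) (nat_lit 1) (nat_lit 1) (.ex (nat_lit 4) t742_128 (.split (nat_lit 9) (nat_lit 0) t742_129 (.non (nat_lit 1) (nat_lit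 5) (nat_lit 0x54151) (nat_lit 0x1000100010000000000010001000100000001))))))))) (.split (nat_lit 8) (nat_lit 7) (.unj (nat_lit 0x10014) (nat_lit 0x100000000000000000000000100010000) (nat_lit 0x5500) (nat_lit 0x10002000200010000000000000000)) (.non (nat_lit 2) (nat_lit 5) (nat_lit 0x14005) (nat_lit 0x100010000000000000000000000010001)))) (.split (nat_lit 8) (nat_lit 1) (.split (nat_lit 8) (nat_lit 7) (.sup (nat_lit 0x300000000000000000000000500040001) (nat_lit 0x10005000500030000000000000000)) (.non (nat_lit 1) (nat_lit 5) (nat_lit 0x14001) (nat_lit 0x100010000000000000000000000000001))) (.non (nat_lit 2) (nat_lit 5) (nat_lit 0x10005) (nat_lit 0x100000000000000000000000000010001)))) (.star (nat_lit 8) (nat_lit 2) (nat_lit 6))) (.star (nat_lit 8) (nat_lit 2) (nat_lit 5))) (.non (nat_lit 1) (nat_lit 5) (nat_lit 0x10150) (nat_lit 0x100000000000000010001000100000000))) (.non (nat_lit 1) (nat_lit 5) (nat_lit 0x10050) (nat_lit 0x100000000000000000001000100000000))))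

noncomputable def t742_131 : Tr := (.split (nat_lit 9) (nat_lit 0) (.split (nat_lit 9) (nat_lit 1) (.split (nat_lit 9) (nat_lit 3) (.split (nat_lit 9) (nat_lit 4) (.split (nat_lit 9) (nat_lit 5) (.split (nat_lit 9) (nat_lit 6) (.split (nat_lit 9) (nat_lit 8) (.split (nat_lit 9) (nat_lit 2) (.sup (nat_lit 0x500000000000000000005000a00090000) (nat_lit 0x300000007000a000800000000000000000001)) (.st (nat_lit 2) (nat_lit 1) (nat_lit 5) (nat_lit 0x55150) (nat_lit 0x3000100020001000000020003000400000000) (nat_lit 1) (nat_lit 2) (.st (nat_lit 7) (nat_lit 1) (nat_lit 5) (nat_lit 0x45001) (nat_lit 0x1000000020001000000000000000000000001) (nat_lit 1) (nat_lit 1) (.st (nat_lit 9) (nat_lit 1) (nat_lit 5) (nat_lit 0x45011) (nat_lit 0x2000000020001000000000000000100000001) (nat_lit 1) (nat_lit 1) (.split (nat_lit 9) (nat_lit 2) (.split (nat_lit 9) (nat_lit 7) (.split (nat_lit 8) (nat_lit 4) (.split (nat_lit 7) (nat_lit 0) (.split (nat_lit 4) (nat_lit 3) (.leaf (.cons (nat_lit 0x45410) (nat_lit 0x2000000030004000300000000000100000000)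 (.cons (nat_lit 0x50014) (nat_lit 0x1000100000000000000000000000200020000) (.cons (nat_lit 0x11540) (nat_lit 0x100000002000200020001000000000000) (.cons (nat_lit 0x45401) (nat_lit 0x1000000020002000200000000000000000001) .nil)))) (.cons (nat_lit 0x1111011101) (nat_lit 0x100010) (nat_lit 0xb) (nat_lit 0x3702065401) (.cons (nat_lit 0x1110111101) (nat_lit 0x1000010) (nat_lit 0xb) (nat_lit 0x5260103407) .nil))) (.non (nat_lit 1) (nat_lit 5) (nat_lit 0x60250) (nat_lit 0x1000100000000000000020003000200000000))) (.non (nat_lit 1) (nat_lit 5) (nat_lit 0x8a001) (nat_lit 0x1000000020001000000000000000000000002))) (.non (nat_lit 1) (nat_lit 5) (nat_lit 0x65151) (nat_lit 0x2000100020001000000020002000200000001))) (.non (nat_lit 1) (nat_lit 5) (nat_lit 0x4a050) (nat_lit 0x3000000020001000000000001000200000000))) (.non (nat_lit 1) (nat_lit 5) (nat_lit 0x8a050) (nat_lit 0x3000000020001000000000002000400000000))))))) (.non (nat_lit 2) (nat_lit 5) (nat_lit 0x54005) (nat_lit 0x1000100010000000000000000000000010001))) (.non (nat_lit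 1) (nat_lit 5) (nat_lit 0x45000) (nat_lit 0x1000000010001000000000000000000000000))) (.non (nat_lit 2) (nat_lit 6) (nat_lit 0x54505) (nat_lit 0x1000100010000000100010000000000010001))) (.non (nat_lit 1) (nat_lit 5) (nat_lit 0x55141) (nat_lit 0x2000100020001000000020001000000000001))) (.non (nat_lit 1) (nat_lit 5) (nat_lit 0x45151) (nat_lit 0x2000000020001000000010002000100000001))) (.non (nat_lit 2) (nat_lit 5) (nat_lit 0x44005) (nat_lit 0x1000000010000000000000000000000010001))) (.non (nat_lit 1) (nat_lit 5) (nat_lit 0x44001) (nat_lit 0x1000000010000000000000000000000000001)))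

noncomputable def t742_132 : Tr := (.ex (nat_lit 5) (.ex (nat_lit 6) (.ex (nat_lit 7) (.split (nat_lit 7) (nat_lit 0) (.pd (.cons (nat_lit 1) (nat_lit 4) (nat_lit 0) (nat_lit 0x807602200) (nat_lit 0xf423f437a254591f423f00000f423fb71ae00000174ea) .nil) (.split (nat_lit 8) (nat_lit 4) (.split (nat_lit 4) (nat_lit 3) (.split (nat_lit 8) (nat_lit 1) (.leaf (.cons (nat_lit 0x10054) (nat_lit 0x100000000000000000001000200020000) (.cons (nat_lit 0x11540) (nat_lit 0x100000002000200020001000000000000) (.cons (nat_lit 0x5405) (nat_lit 0x30004000300000000000000010002) (.cons (nat_lit 0x10015) (nat_lit 0x100000000000000000000000200020001) .nil)))) (.cons (nat_lit 0x111011011) (nat_lit 0x100100) (nat_lit 5) (nat_lit 0x256010034) .nil)) (.non (nat_lit 2) (nat_lit 5) (nat_lit 0x24205) (nat_lit 0x200010000000000010000000000030002))) (.non (nat_lit 1) (nat_lit 6) (nat_lit 0x20a40) (nat_lit 0x100000000000100020002000000000000))) (.non (nat_lit 1) (nat_lit 6) (nat_lit 0x20540) (nat_lit 0x100000000000100020001000000000000))))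 (.non (nat_lit 2) (nat_lit 5) (nat_lit 0x1a005) (nat_lit 0x100020001000000000000000000020003))) t742_131) (.split (nat_lit 9) (nat_lit 0) (.split (nat_lit 9) (nat_lit 1) (.split (nat_lit 9) (nat_lit 2) (.split (nat_lit 9) (nat_lit 3) (.split (nat_lit 9) (nat_lit 4) (.split (nat_lit 9) (nat_lit 7) (.split (nat_lit 9) (nat_lit 8) (.split (nat_lit 9) (nat_lit 5) (.unj (nat_lit 0x10054) (nat_lit 0x100000000000000000001000200020000) (nat_lit 0x45400) (nat_lit 0x1000000010002000200000000000000000000)) (.unj (nat_lit 0x41400) (nat_lit 0x1000000000001000100000000000000000000) (nat_lit 0x55) (nat_lit 0x1000200020001))) (.non (nat_lit 2) (nat_lit 5) (nat_lit 0x55005) (nat_lit 0x1000100010001000000000000000000010001))) (.non (nat_lit 1) (nat_lit 5) (nat_lit 0x45000) (nat_lit 0x1000000010001000000000000000000000000))) (.non (nat_lit 1) (nat_lit 6) (nat_lit 0x50540) (nat_lit 0x1000100000000000100020001000000000000))) (.non (nat_lit 1) (nat_lit 6) (nat_lit 0x50550) (nat_lit 0x1000100000000000100020002000100000000))) (.star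 (nat_lit 9) (nat_lit 2) (nat_lit 6))) (.star (nat_lit 9) (nat_lit 1) (nat_lit 6))) (.non (nat_lit 1) (nat_lit 5) (nat_lit 0x45001) (nat_lit 0x1000000010001000000000000000000000001)))) (.split (nat_lit 9) (nat_lit 0) (.split (nat_lit 9) (nat_lit 1) (.split (nat_lit 9) (nat_lit 2) (.split (nat_lit 9) (nat_lit 3) (.split (nat_lit 9) (nat_lit 4) (.split (nat_lit 9) (nat_lit 7) (.split (nat_lit 9) (nat_lit 8) (.split (nat_lit 9) (nat_lit 6) (.unj (nat_lit 0x10054) (nat_lit 0x100000000000000000001000200020000) (nat_lit 0x45400) (nat_lit 0x1000000010002000200000000000000000000)) (.unj (nat_lit 0x41400) (nat_lit 0x1000000000001000100000000000000000000) (nat_lit 0x55) (nat_lit 0x1000200020001))) (.non (nat_lit 1) (nat_lit 6) (nat_lit 0x50500) (nat_lit 0x1000100000000000100010000000000000000))) (.non (nat_lit 2) (nat_lit 6) (nat_lit 0x54505) (nat_lit 0x1000100010000000100010000000000010001))) (.non (nat_lit 1) (nat_lit 6) (nat_lit 0x40500) (nat_lit 0x1000000000000000100010000000000000000))) (.non (nat_lit 1) (nat_lit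 6) (nat_lit 0x40540) (nat_lit 0x1000000000000000100010001000000000000))) (.star (nat_lit 9) (nat_lit 2) (nat_lit 5))) (.star (nat_lit 9) (nat_lit 1) (nat_lit 5))) (.non (nat_lit 2) (nat_lit 6) (nat_lit 0x50505) (nat_lit 0x1000100000000000100010000000000010001))))

noncomputable def t742_133 : Tr := (.ex (nat_lit 0xa) (.leaf (.cons (nat_lit 0x554) (nat_lit 0x100020003000400030000) (.cons (nat_lit 0x15401) (nat_lit 0x100030004000300000000000000000002) (.cons (nat_lit 0x1550) (nat_lit 0x3000400030002000100000000) (.cons (nat_lit 0x50015) (nat_lit 0x1000200000000000000000000000300040003) .nil)))) (.cons (nat_lit 0x111100) (nat_lit 0x1000010) (nat_lit 2) (nat_lit 0x321000) (.cons (nat_lit 0x11111000011) (nat_lit 0x100100) (nat_lit 0xd) (nat_lit 0x65423000010) .nil))) (.split (nat_lit 0xb) (nat_lit 0) (.split (nat_lit 0xb) (nat_lit 1) (.split (nat_lit 0xb) (nat_lit 2) (.split (nat_lit 0xb) (nat_lit 3) (.split (nat_lit 0xb) (nat_lit 4) (.split (nat_lit 0xb) (nat_lit 5) (.split (nat_lit 0xb) (nat_lit 6) (.split (nat_lit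 0xb) (nat_lit 7) (.split (nat_lit 0xb) (nat_lit 8) (.split (nat_lit 0xb) (nat_lit 9) (.st (nat_lit 0xa) (nat_lit 2) (nat_lit 5) (nat_lit 0x554005) (nat_lit 0x100020002000200010000000000000000000000010002) (nat_lit 1) (nat_lit 1) (.st (nat_lit 0xb) (nat_lit 2) (nat_lit 5) (nat_lit 0x555005) (nat_lit 0x200030004000500040002000000000000000000030006) (nat_lit 1) (nat_lit 1) (.split (nat_lit 0xb) (nat_lit 0xa) (.leaf (.cons (nat_lit 0x554) (nat_lit 0x100020003000400030000) (.cons (nat_lit 0x15401) (nat_lit 0x100030004000300000000000000000002) (.cons (nat_lit 0x1550) (nat_lit 0x3000400030002000100000000) (.cons (nat_lit 0x50015) (nat_lit 0x1000200000000000000000000000300040003) .nil)))) (.cons (nat_lit 0x111100) (nat_lit 0x1000010) (nat_lit 2) (nat_lit 0x321000) (.cons (nat_lit 0x111111000011) (nat_lit 0x100100) (nat_lit 0xe) (nat_lit 0x765423000010) .nil))) (.non (nat_lit 2) (nat_lit 5) (nat_lit 0x954005) (nat_lit 0x100020002000200010000000000000000000000010002))))) (.non (nat_lit 1) (nat_lit 5) (nat_lit 0x540000)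 (nat_lit 0x100010001000000000000000000000000000000000000))) (.non (nat_lit 1) (nat_lit 5) (nat_lit 0x550000) (nat_lit 0x100010001000100000000000000000000000000000000))) (.non (nat_lit 1) (nat_lit 5) (nat_lit 0x554001) (nat_lit 0x100010001000100010000000000000000000000000001))) (.non (nat_lit 1) (nat_lit 5) (nat_lit 0x555001) (nat_lit 0x100010001000100010001000000000000000000000001))) (.non (nat_lit 0) (nat_lit 4) (nat_lit 0x541400) (nat_lit 0x300020001000000000003000400000000000000000000))) (.non (nat_lit 1) (nat_lit 6) (nat_lit 0x550551) (nat_lit 0x500040003000200000000000300060004000200000001))) (.non (nat_lit 1) (nat_lit 6) (nat_lit 0x550551) (nat_lit 0x500040003000200000000000200040006000300000001))) (.non (nat_lit 0) (nat_lit 5) (nat_lit 0x540014) (nat_lit 0x300020001000000000000000000000000000400030000))) (.non (nat_lit 2) (nat_lit 5) (nat_lit 0x550005) (nat_lit 0x100010001000100000000000000000000000000010001))) (.non (nat_lit 1) (nat_lit 5) (nat_lit 0x550001) (nat_lit 0x100010001000100000000000000000000000000000001))))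

noncomputable def t742_134 : Tr := (.split (nat_lit 9) (nat_lit 6) (.split (nat_lit 9) (nat_lit 7) (.st (nat_lit 8) (nat_lit 2) (nat_lit 5) (nat_lit 0x54005) (nat_lit 0x1000200010000000000000000000000010002) (nat_lit 1) (nat_lit 1) (.split (nat_lit 9) (nat_lit 8) (.split (nat_lit 7) (nat_lit 0) (.ex (nat_lit 9) (.leaf (.cons (nat_lit 0x554) (nat_lit 0x100020003000400030000) (.cons (nat_lit 0x15401) (nat_lit 0x100030004000300000000000000000002) (.cons (nat_lit 0x1550) (nat_lit 0x3000400030002000100000000) (.cons (nat_lit 0x50015) (nat_lit 0x1000200000000000000000000000300040003) .nil)))) (.cons (nat_lit 0x1111000011) (nat_lit 0x100100) (nat_lit 0xc) (nat_lit 0x5423000010) .nil)) (.split (nat_lit 0xa) (nat_lit 0) (.split (nat_lit 0xa) (nat_lit 1) (.split (nat_lit 0xa) (nat_lit 2) (.split (nat_lit 0xa) (nat_lit 3) (.split (nat_lit 0xa) (nat_lit 4) (.split (nat_lit 0xa) (nat_lit 5) (.split (nat_lit 0xa) (nat_lit 6) (.split (nat_lit 0xa) (nat_lit 7) (.split (nat_lit 0xa) (nat_lit 8) (.st (nat_lit 9) (nat_lit 2)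 (nat_lit 5) (nat_lit 0x154005) (nat_lit 0x10002000200010000000000000000000000010002) (nat_lit 1) (nat_lit 1) (.split (nat_lit 0xa) (nat_lit 9) t742_133 (.non (nat_lit 2) (nat_lit 5) (nat_lit 0x254005) (nat_lit 0x10002000200010000000000000000000000010002)))) (.non (nat_lit 1) (nat_lit 5) (nat_lit 0x150000) (nat_lit 0x10001000100000000000000000000000000000000))) (.non (nat_lit 1) (nat_lit 5) (nat_lit 0x154001) (nat_lit 0x10001000100010000000000000000000000000001))) (.non (nat_lit 1) (nat_lit 5) (nat_lit 0x155001) (nat_lit 0x10001000100010001000000000000000000000001))) (.non (nat_lit 0) (nat_lit 4) (nat_lit 0x151400) (nat_lit 0x30002000100000003000400000000000000000000))) (.non (nat_lit 1) (nat_lit 6) (nat_lit 0x154551) (nat_lit 0x50004000300010000000300060004000200000002))) (.non (nat_lit 1) (nat_lit 6) (nat_lit 0x154551) (nat_lit 0x50004000300010000000200040006000300000002))) (.non (nat_lit 0) (nat_lit 5) (nat_lit 0x150014) (nat_lit 0x30002000100000000000000000000000400030000))) (.non (nat_lit 2) (nat_lit 5)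 (nat_lit 0x150005) (nat_lit 0x10001000100000000000000000000000000010001))) (.non (nat_lit 1) (nat_lit 5) (nat_lit 0x150001) (nat_lit 0x10001000100000000000000000000000000000001)))) (.non (nat_lit 1) (nat_lit 5) (nat_lit 0x5a001) (nat_lit 0x1000200020001000000000000000000000003))) (.non (nat_lit 2) (nat_lit 5) (nat_lit 0x94005) (nat_lit 0x1000200010000000000000000000000010002)))) (.non (nat_lit 1) (nat_lit 5) (nat_lit 0x54001) (nat_lit 0x1000100010000000000000000000000000001))) (.non (nat_lit 1) (nat_lit 5) (nat_lit 0x55001) (nat_lit 0x1000100010001000000000000000000000001)))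

noncomputable def t742_135 : Tr := (.ex (nat_lit 6) (.split (nat_lit 8) (nat_lit 0) (.pd (.cons (nat_lit 0) (nat_lit 4) (nat_lit 0) (nat_lit 0x865502110) (nat_lit 0xf423ff423fb71ae1f15600000f423fb71ae1f15600000) (.cons (nat_lit 2) (nat_lit 7) (nat_lit 0) (nat_lit 0x5433000) (nat_lit 0xf423f00000f423f54591437a2174ea00000f423f7a11d) .nil)) (.ex (nat_lit 8) (.pd (.cons (nat_lit 3) (nat_lit 7) (nat_lit 0) (nat_lit 0x5440100) (nat_lit 0xf423f00000f423f54591437a200000f423f5459106711) .nil) (.split (nat_lit 7) (nat_lit 0) (.leaf (.cons (nat_lit 0x554) (nat_lit 0x100020003000400030000) (.cons (nat_lit 0x15401) (nat_lit 0x100030004000300000000000000000002) (.cons (nat_lit 0x1550) (nat_lit 0x3000400030002000100000000) (.cons (nat_lit 0x14015) (nat_lit 0x100010000000000000000000200020002) .nil)))) (.cons (nat_lit 0x111100) (nat_lit 0x1000010) (nat_lit 2) (nat_lit 0x321000) (.cons (nat_lit 0x111000011) (nat_lit 0x100100) (nat_lit 8) (nat_lit 0x234000010) .nil))) (.non (nat_lit 2) (nat_lit 5) (nat_lit 0x18005) (nat_lit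 0x100010000000000000000000000010002)))) (.split (nat_lit 9) (nat_lit 0) (.split (nat_lit 9) (nat_lit 1) (.split (nat_lit 9) (nat_lit 2) (.split (nat_lit 9) (nat_lit 3) (.split (nat_lit 9) (nat_lit 4) (.split (nat_lit 9) (nat_lit 5) t742_134 (.non (nat_lit 0) (nat_lit 4) (nat_lit 0x45400) (nat_lit 0x1000000010002000200000000000000000000))) (.non (nat_lit 2) (nat_lit 6) (nat_lit 0x54545) (nat_lit 0x2000200010000000100020001000000010002))) (.non (nat_lit 0) (nat_lit 5) (nat_lit 0x50054) (nat_lit 0x2000100000000000000000003000400030000))) (.non (nat_lit 0) (nat_lit 5) (nat_lit 0x40054) (nat_lit 0x1000000000000000000000001000200020000))) (.non (nat_lit 2) (nat_lit 5) (nat_lit 0x50005) (nat_lit 0x1000100000000000000000000000000010001))) (.non (nat_lit 1) (nat_lit 5) (nat_lit 0x50001) (nat_lit 0x1000100000000000000000000000000000001))))) (.non (nat_lit 2) (nat_lit 5) (nat_lit 0x24005) (nat_lit 0x100010000000000000000000000010002))) (.split (nat_lit 9) (nat_lit 0) (.split (nat_lit 9) (nat_lit 1) (.split (nat_lit 9)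 (nat_lit 2) (.split (nat_lit 9) (nat_lit 3) (.split (nat_lit 9) (nat_lit 4) (.split (nat_lit 9) (nat_lit 7) (.split (nat_lit 9) (nat_lit 8) (.split (nat_lit 9) (nat_lit 5) (.sup (nat_lit 0x20009000a0005) (nat_lit 0x500000000000a000900020000000000000000)) (.unj (nat_lit 0x41400) (nat_lit 0x1000000000001000100000000000000000000) (nat_lit 0x55) (nat_lit 0x1000200020001))) (.non (nat_lit 1) (nat_lit 5) (nat_lit 0x55001) (nat_lit 0x1000100010001000000000000000000000001))) (.non (nat_lit 1) (nat_lit 5) (nat_lit 0x45000) (nat_lit 0x1000000010001000000000000000000000000))) (.non (nat_lit 0) (nat_lit 5) (nat_lit 0x40154) (nat_lit 0x1000000000000000000020003000400030000))) (.non (nat_lit 0) (nat_lit 5) (nat_lit 0x41054) (nat_lit 0x2000000000001000000000003000400030000))) (.star (nat_lit 9) (nat_lit 2) (nat_lit 6))) (.star (nat_lit 9) (nat_lit 1) (nat_lit 6))) (.non (nat_lit 1) (nat_lit 5) (nat_lit 0x45001) (nat_lit 0x1000000010001000000000000000000000001))))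

noncomputable def t742_136 : Tr := (.ex (nat_lit 0xa) (.leaf (.cons (nat_lit 0x154) (nat_lit 0x10001000100010000) (.cons (nat_lit 0x15401) (nat_lit 0x100030004000300000000000000000002) (.cons (nat_lit 0x1540) (nat_lit 0x1000100010001000000000000) (.cons (nat_lit 0x50015) (nat_lit 0x1000200000000000000000000000300040003) .nil)))) (.cons (nat_lit 0x111100) (nat_lit 0x1000010) (nat_lit 0xf) (nat_lit 0x321000) (.cons (nat_lit 0x11111000011) (nat_lit 0x100100) (nat_lit 0xd) (nat_lit 0x65423000010) .nil))) (.split (nat_lit 0xb) (nat_lit 0) (.split (nat_lit 0xb) (nat_lit 1) (.split (nat_lit 0xb) (nat_lit 2) (.split (nat_lit 0xb) (nat_lit 3) (.split (nat_lit 0xb) (nat_lit 4) (.split (nat_lit 0xb) (nat_lit 5) (.split (nat_lit 0xb) (nat_lit 6) (.split (nat_lit 0xb) (nat_lit 7) (.split (nat_lit 0xb) (nat_lit 8) (.split (nat_lit 0xb) (nat_lit 9) (.st (nat_lit 0xa) (nat_lit 2) (nat_lit 5) (nat_lit 0x554005) (nat_lit 0x100020002000200010000000000000000000000010002) (nat_lit 1) (nat_lit 1) (.st (nat_lit 0xb) (nat_lit 2)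 (nat_lit 5) (nat_lit 0x555005) (nat_lit 0x200030004000500040002000000000000000000030006) (nat_lit 1) (nat_lit 1) (.split (nat_lit 0xb) (nat_lit 0xa) (.leaf (.cons (nat_lit 0x154) (nat_lit 0x10001000100010000) (.cons (nat_lit 0x15401) (nat_lit 0x100030004000300000000000000000002) (.cons (nat_lit 0x1540) (nat_lit 0x1000100010001000000000000) (.cons (nat_lit 0x50015) (nat_lit 0x1000200000000000000000000000300040003) .nil)))) (.cons (nat_lit 0x111100) (nat_lit 0x1000010) (nat_lit 0xf) (nat_lit 0x321000) (.cons (nat_lit 0x111111000011) (nat_lit 0x100100) (nat_lit 0xe) (nat_lit 0x765423000010) .nil))) (.non (nat_lit 2) (nat_lit 5) (nat_lit 0x954005) (nat_lit 0x100020002000200010000000000000000000000010002))))) (.non (nat_lit 1) (nat_lit 5) (nat_lit 0x540000) (nat_lit 0x100010001000000000000000000000000000000000000))) (.non (nat_lit 1) (nat_lit 5) (nat_lit 0x550000) (nat_lit 0x100010001000100000000000000000000000000000000))) (.non (nat_lit 1) (nat_lit 5) (nat_lit 0x554001) (nat_lit 0x100010001000100010000000000000000000000000001)))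 (.non (nat_lit 1) (nat_lit 5) (nat_lit 0x555001) (nat_lit 0x100010001000100010001000000000000000000000001))) (.non (nat_lit 1) (nat_lit 6) (nat_lit 0x800a50) (nat_lit 0x100000000000000000000000200030004000200000000))) (.non (nat_lit 1) (nat_lit 5) (nat_lit 0xa00250) (nat_lit 0x200010000000000000000000000030004000200000000))) (.non (nat_lit 1) (nat_lit 5) (nat_lit 0x400250) (nat_lit 0x100000000000000000000000000010002000100000000))) (.non (nat_lit 1) (nat_lit 6) (nat_lit 0x400a50) (nat_lit 0x100000000000000000000000100020003000200000000))) (.non (nat_lit 2) (nat_lit 5) (nat_lit 0x550005) (nat_lit 0x100010001000100000000000000000000000000010001))) (.non (nat_lit 1) (nat_lit 5) (nat_lit 0x550001) (nat_lit 0x100010001000100000000000000000000000000000001))))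

noncomputable def t742_137 : Tr := (.st (nat_lit 8) (nat_lit 2) (nat_lit 5) (nat_lit 0x54005) (nat_lit 0x1000200010000000000000000000000010002) (nat_lit 1) (nat_lit 1) (.split (nat_lit 9) (nat_lit 8) (.split (nat_lit 8) (nat_lit 0) (.split (nat_lit 7) (nat_lit 0) (.split (nat_lit 4) (nat_lit 3) (.ex (nat_lit 9) (.leaf (.cons (nat_lit 0x154) (nat_lit 0x10001000100010000) (.cons (nat_lit 0x15401) (nat_lit 0x100030004000300000000000000000002) (.cons (nat_lit 0x1540) (nat_lit 0x1000100010001000000000000) (.cons (nat_lit 0x50015) (nat_lit 0x1000200000000000000000000000300040003) .nil)))) (.cons (nat_lit 0x1111000011) (nat_lit 0x100100) (nat_lit 0xc) (nat_lit 0x5423000010) .nil)) (.split (nat_lit 0xa) (nat_lit 0) (.split (nat_lit 0xa) (nat_lit 1) (.split (nat_lit 0xa) (nat_lit 2) (.split (nat_lit 0xa) (nat_lit 3) (.split (nat_lit 0xa) (nat_lit 4) (.split (nat_lit 0xa) (nat_lit 5) (.split (nat_lit 0xa) (nat_lit 6) (.split (nat_lit 0xa) (nat_lit 7) (.split (nat_lit 0xa) (nat_lit 8) (.st (nat_lit 9) (nat_lit 2) (nat_lit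 5) (nat_lit 0x154005) (nat_lit 0x10002000200010000000000000000000000010002) (nat_lit 1) (nat_lit 1) (.split (nat_lit 0xa) (nat_lit 9) t742_136 (.non (nat_lit 2) (nat_lit 5) (nat_lit 0x254005) (nat_lit 0x10002000200010000000000000000000000010002)))) (.non (nat_lit 1) (nat_lit 5) (nat_lit 0x150000) (nat_lit 0x10001000100000000000000000000000000000000))) (.non (nat_lit 1) (nat_lit 5) (nat_lit 0x154001) (nat_lit 0x10001000100010000000000000000000000000001))) (.non (nat_lit 1) (nat_lit 5) (nat_lit 0x155001) (nat_lit 0x10001000100010001000000000000000000000001))) (.non (nat_lit 1) (nat_lit 6) (nat_lit 0x200a50) (nat_lit 0x10000000000000000000200030004000200000000))) (.non (nat_lit 1) (nat_lit 5) (nat_lit 0x280250) (nat_lit 0x20001000000000000000000030004000200000000))) (.non (nat_lit 1) (nat_lit 5) (nat_lit 0x100250) (nat_lit 0x10000000000000000000000010002000100000000))) (.non (nat_lit 1) (nat_lit 6) (nat_lit 0x100a50) (nat_lit 0x10000000000000000000100020003000200000000))) (.non (nat_lit 2) (nat_lit 5) (nat_lit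 0x150005) (nat_lit 0x10001000100000000000000000000000000010001))) (.non (nat_lit 1) (nat_lit 5) (nat_lit 0x150001) (nat_lit 0x10001000100000000000000000000000000000001)))) (.non (nat_lit 1) (nat_lit 6) (nat_lit 0x550) (nat_lit 0x100020002000100000000))) (.non (nat_lit 1) (nat_lit 5) (nat_lit 0x5a001) (nat_lit 0x1000200020001000000000000000000000003))) (.non (nat_lit 1) (nat_lit 5) (nat_lit 0xa5001) (nat_lit 0x1000200020001000000000000000000000003))) (.non (nat_lit 2) (nat_lit 5) (nat_lit 0x94005) (nat_lit 0x1000200010000000000000000000000010002))))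

noncomputable def t742_138 : Tr := (.ex (nat_lit 6) (.pd (.cons (nat_lit 0) (nat_lit 4) (nat_lit 0) (nat_lit 0x865502110) (nat_lit 0xf423ff423fb71ae1f15600000f423fb71ae1f15600000) .nil) (.ex (nat_lit 8) (.split (nat_lit 8) (nat_lit 0) (.pd (.cons (nat_lit 3) (nat_lit 7) (nat_lit 0) (nat_lit 0x5440100) (nat_lit 0xf423f00000f423f54591437a200000f423f5459106711) .nil) (.split (nat_lit 7) (nat_lit 0) (.split (nat_lit 4) (nat_lit 3) (.leaf (.cons (nat_lit 0x154) (nat_lit 0x10001000100010000) (.cons (nat_lit 0x15401) (nat_lit 0x100030004000300000000000000000002) (.cons (nat_lit 0x1540) (nat_lit 0x1000100010001000000000000) (.cons (nat_lit 0x14015) (nat_lit 0x100010000000000000000000200020002) .nil)))) (.cons (nat_lit 0x111100) (nat_lit 0x1000010) (nat_lit 0xf) (nat_lit 0x321000) (.cons (nat_lit 0x111000011) (nat_lit 0x100100) (nat_lit 8) (nat_lit 0x234000010) .nil))) (.non (nat_lit 1) (nat_lit 6) (nat_lit 0x550) (nat_lit 0x100020002000100000000))) (.non (nat_lit 2) (nat_lit 5) (nat_lit 0x18005) (nat_lit 0x100010000000000000000000000010002))))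 (.non (nat_lit 2) (nat_lit 5) (nat_lit 0x24005) (nat_lit 0x100010000000000000000000000010002))) (.split (nat_lit 9) (nat_lit 0) (.split (nat_lit 9) (nat_lit 1) (.split (nat_lit 9) (nat_lit 2) (.split (nat_lit 9) (nat_lit 3) (.split (nat_lit 9) (nat_lit 4) (.split (nat_lit 9) (nat_lit 5) (.split (nat_lit 9) (nat_lit 6) (.split (nat_lit 9) (nat_lit 7) t742_137 (.non (nat_lit 1) (nat_lit 5) (nat_lit 0x54001) (nat_lit 0x1000100010000000000000000000000000001))) (.non (nat_lit 1) (nat_lit 5) (nat_lit 0x55001) (nat_lit 0x1000100010001000000000000000000000001))) (.non (nat_lit 1) (nat_lit 6) (nat_lit 0x80a50) (nat_lit 0x1000000000000000200030004000200000000))) (.non (nat_lit 1) (nat_lit 5) (nat_lit 0xa0250) (nat_lit 0x2000100000000000000030004000200000000))) (.non (nat_lit 1) (nat_lit 5) (nat_lit 0x40250) (nat_lit 0x1000000000000000000010002000100000000))) (.non (nat_lit 1) (nat_lit 6) (nat_lit 0x40a50) (nat_lit 0x1000000000000000100020003000200000000))) (.non (nat_lit 2) (nat_lit 5) (nat_lit 0x50005) (nat_lit 0x1000100000000000000000000000000010001)))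 (.non (nat_lit 1) (nat_lit 5) (nat_lit 0x50001) (nat_lit 0x1000100000000000000000000000000000001))))) (.split (nat_lit 9) (nat_lit 0) (.split (nat_lit 9) (nat_lit 1) (.split (nat_lit 9) (nat_lit 2) (.split (nat_lit 9) (nat_lit 3) (.split (nat_lit 9) (nat_lit 4) (.split (nat_lit 9) (nat_lit 5) (.split (nat_lit 9) (nat_lit 7) (.split (nat_lit 9) (nat_lit 8) (.sup (nat_lit 0x5000a00090002) (nat_lit 0x500000002000a000800000000000000000000)) (.non (nat_lit 1) (nat_lit 5) (nat_lit 0x55001) (nat_lit 0x1000100010001000000000000000000000001))) (.non (nat_lit 1) (nat_lit 5) (nat_lit 0x45000) (nat_lit 0x1000000010001000000000000000000000000))) (.non (nat_lit 1) (nat_lit 6) (nat_lit 0x80a50) (nat_lit 0x1000000000000000200030004000200000000))) (.non (nat_lit 1) (nat_lit 5) (nat_lit 0x82250) (nat_lit 0x2000000000001000000030004000200000000))) (.non (nat_lit 1) (nat_lit 5) (nat_lit 0x40250) (nat_lit 0x1000000000000000000010002000100000000))) (.star (nat_lit 9) (nat_lit 2) (nat_lit 6))) (.star (nat_lit 9) (nat_lit 1) (nat_lit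 6))) (.non (nat_lit 1) (nat_lit 5) (nat_lit 0x45001) (nat_lit 0x1000000010001000000000000000000000001))))

noncomputable def t742_139 : Tr := (.ex (nat_lit 9) (.split (nat_lit 8) (nat_lit 0) (.split (nat_lit 9) (nat_lit 4) (.pd (.cons (nat_lit 3) (nat_lit 7) (nat_lit 0) (nat_lit 0x4005440100) (nat_lit 0xf423ff423f00000f423f545910671100000f423f5459106711) .nil) (.split (nat_lit 7) (nat_lit 0) (.split (nat_lit 4) (nat_lit 3) (.leaf (.cons (nat_lit 0x40154) (nat_lit 0x1000000000000000000020003000400030000) (.cons (nat_lit 0x15401) (nat_lit 0x100030004000300000000000000000002) (.cons (nat_lit 0x41540) (nat_lit 0x1000000000002000200020001000000000000) (.cons (nat_lit 0x14015) (nat_lit 0x100010000000000000000000200020002) .nil)))) (.cons (nat_lit 0x1000111100) (nat_lit 0x1000010) (nat_lit 8) (nat_lit 0x2000103400) (.cons (nat_lit 0x111000011) (nat_lit 0x100100) (nat_lit 8) (nat_lit 0x234000010) .nil))) (.non (nat_lit 1) (nat_lit 6) (nat_lit 0x80a40) (nat_lit 0x1000000000000000100020002000000000000))) (.non (nat_lit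 2) (nat_lit 5) (nat_lit 0x18005) (nat_lit 0x100010000000000000000000000010002)))) (.non (nat_lit 1) (nat_lit 6) (nat_lit 0x80540) (nat_lit 0x1000000000000000100020001000000000000))) (.non (nat_lit 2) (nat_lit 5) (nat_lit 0x24005) (nat_lit 0x100010000000000000000000000010002))) (.split (nat_lit 0xa) (nat_lit 0) (.split (nat_lit 0xa) (nat_lit 1) (.split (nat_lit 0xa) (nat_lit 2) (.split (nat_lit 0xa) (nat_lit 3) (.split (nat_lit 0xa) (nat_lit 4) (.split (nat_lit 0xa) (nat_lit 5) (.split (nat_lit 0xa) (nat_lit 6) (.split (nat_lit 0xa) (nat_lit 7) (.split (nat_lit 0xa) (nat_lit 8) (.sup (nat_lit 0x70001000000000000000000100014000e) (nat_lit 0x5000a00000000000f0014000f0000000000000000)) (.non (nat_lit 1) (nat_lit 6) (nat_lit 0x154551) (nat_lit 0x40005000300010000000300060004000200000002))) (.non (nat_lit 1) (nat_lit 5) (nat_lit 0x155151) (nat_lit 0x50004000200060003000000030002000100000004))) (.non (nat_lit 0) (nat_lit 4) (nat_lit 0x105400) (nat_lit 0x10000000000010002000200000000000000000000))) (.non (nat_lit 1)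 (nat_lit 6) (nat_lit 0x140500) (nat_lit 0x10001000000000000000100010000000000000000))) (.non (nat_lit 1) (nat_lit 5) (nat_lit 0x140100) (nat_lit 0x10001000000000000000000010000000000000000))) (.non (nat_lit 1) (nat_lit 5) (nat_lit 0x140140) (nat_lit 0x10001000000000000000000010001000000000000))) (.non (nat_lit 1) (nat_lit 5) (nat_lit 0x140150) (nat_lit 0x10001000000000000000000010001000100000000))) (.non (nat_lit 2) (nat_lit 5) (nat_lit 0x155145) (nat_lit 0x40003000300040002000000020001000000050006))) (.non (nat_lit 1) (nat_lit 5) (nat_lit 0x155151) (nat_lit 0x50004000300040002000000030002000100000006))))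

noncomputable def t742_140 : Tr := (.ex (nat_lit 6) (.pd (.cons (nat_lit 0) (nat_lit 4) (nat_lit 0) (nat_lit 0x9865502110) (nat_lit 0xf423ff423ff423fb71ae1f15600000f423fb71ae1f15600000) .nil) (.ex (nat_lit 8) t742_139 (.split (nat_lit 0xa) (nat_lit 0) (.split (nat_lit 0xa) (nat_lit 1) (.split (nat_lit 0xa) (nat_lit 2) (.split (nat_lit 0xa) (nat_lit 3) (.split (nat_lit 0xa) (nat_lit 4) (.split (nat_lit 0xa) (nat_lit 5) (.split (nat_lit 0xa) (nat_lit 6) (.split (nat_lit 0xa) (nat_lit 7) (.split (nat_lit 0xa) (nat_lit 9) (.sup (nat_lit 0x50000000a00000000000000000000000f0014000f) (nat_lit 0x70000000000100014000e0001000000000000)) (.non (nat_lit 1) (nat_lit 6) (nat_lit 0x154551) (nat_lit 0x40005000300010000000300060004000200000002))) (.non (nat_lit 1) (nat_lit 5) (nat_lit 0x114001) (nat_lit 0x10000000100010000000000000000000000000001))) (.non (nat_lit 1) (nat_lit 5) (nat_lit 0x115001) (nat_lit 0x10000000100010001000000000000000000000001))) (.non (nat_lit 1) (nat_lit 6) (nat_lit 0x154551) (nat_lit 0x40003000300010000000500060004000200000002)))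 (.non (nat_lit 1) (nat_lit 5) (nat_lit 0x155151) (nat_lit 0x50003000400020001000000060004000200000003))) (.non (nat_lit 1) (nat_lit 5) (nat_lit 0x155151) (nat_lit 0x50002000400020001000000040006000300000003))) (.non (nat_lit 0) (nat_lit 4) (nat_lit 0x100054) (nat_lit 0x10000000000000000000000000001000200020000))) (.non (nat_lit 2) (nat_lit 5) (nat_lit 0x110005) (nat_lit 0x10000000100000000000000000000000000010001))) (.non (nat_lit 1) (nat_lit 5) (nat_lit 0x110001) (nat_lit 0x10000000100000000000000000000000000000001))))) (.split (nat_lit 0xa) (nat_lit 0) (.split (nat_lit 0xa) (nat_lit 1) (.split (nat_lit 0xa) (nat_lit 2) (.split (nat_lit 0xa) (nat_lit 3) (.split (nat_lit 0xa) (nat_lit 4) (.split (nat_lit 0xa) (nat_lit 7) (.split (nat_lit 0xa) (nat_lit 8) (.split (nat_lit 0xa) (nat_lit 5) (.split (nat_lit 0xa) (nat_lit 9) (.sup (nat_lit 0x5000a00090002) (nat_lit 0x5000000000002000a000800000000000000000000)) (.sup (nat_lit 0x5000a00090002) (nat_lit 0x5000000000002000a000800000000000000000000))) (.split (nat_lit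 0xa) (nat_lit 9) (.unj (nat_lit 0x101400) (nat_lit 0x10000000000000001000100000000000000000000) (nat_lit 0x55) (nat_lit 0x1000200020001)) (.non (nat_lit 1) (nat_lit 6) (nat_lit 0x140500) (nat_lit 0x10001000000000000000100010000000000000000)))) (.non (nat_lit 1) (nat_lit 5) (nat_lit 0x115001) (nat_lit 0x10000000100010001000000000000000000000001))) (.non (nat_lit 1) (nat_lit 5) (nat_lit 0x105000) (nat_lit 0x10000000000010001000000000000000000000000))) (.non (nat_lit 1) (nat_lit 5) (nat_lit 0x155151) (nat_lit 0x50003000100030004000000060004000200000002))) (.non (nat_lit 1) (nat_lit 5) (nat_lit 0x155151) (nat_lit 0x50002000100030004000000040006000300000002))) (.star (nat_lit 0xa) (nat_lit 2) (nat_lit 6))) (.star (nat_lit 0xa) (nat_lit 1) (nat_lit 6))) (.non (nat_lit 1) (nat_lit 5) (nat_lit 0x105001) (nat_lit 0x10000000000010001000000000000000000000001))))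

noncomputable def t742_141 : Tr := (.ex (nat_lit 4) (.split (nat_lit 4) (nat_lit 3) (.pd (.cons (nat_lit 0) (nat_lit 5) (nat_lit 0) (nat_lit 0x866032110) (nat_lit 0xf423ff423fb71ae00000f423fb71aea2c280473700000) .nil) (.ex (nat_lit 5) t742_135 (.split (nat_lit 9) (nat_lit 0) (.split (nat_lit 9) (nat_lit 1) (.split (nat_lit 9) (nat_lit 2) (.split (nat_lit 9) (nat_lit 3) (.split (nat_lit 9) (nat_lit 4) (.split (nat_lit 9) (nat_lit 7) (.split (nat_lit 9) (nat_lit 6) (.split (nat_lit 9) (nat_lit 8) (.sup (nat_lit 0x1000500050003) (nat_lit 0x3000000000004000500010000000000000000)) (.sup (nat_lit 0x1000500050003) (nat_lit 0x3000000000004000500010000000000000000))) (.split (nat_lit 9) (nat_lit 8) (.unj (nat_lit 0x41400) (nat_lit 0x1000000000001000100000000000000000000) (nat_lit 0x55) (nat_lit 0x1000200020001)) (.non (nat_lit 1) (nat_lit 5) (nat_lit 0x55001) (nat_lit 0x1000100010001000000000000000000000001)))) (.non (nat_lit 2) (nat_lit 5) (nat_lit 0x55005) (nat_lit 0x1000100020001000000000000000000010002))) (.non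 (nat_lit 1) (nat_lit 6) (nat_lit 0x40500) (nat_lit 0x1000000000000000100010000000000000000))) (.non (nat_lit 1) (nat_lit 6) (nat_lit 0x40540) (nat_lit 0x1000000000000000100010001000000000000))) (.star (nat_lit 9) (nat_lit 2) (nat_lit 5))) (.star (nat_lit 9) (nat_lit 1) (nat_lit 5))) (.non (nat_lit 2) (nat_lit 5) (nat_lit 0x54005) (nat_lit 0x1000100010000000000000000000000010002))))) (.st (nat_lit 5) (nat_lit 1) (nat_lit 6) (nat_lit 0xa50) (nat_lit 0x200030004000200000000) (nat_lit 2) (nat_lit 1) t742_138)) (.split (nat_lit 9) (nat_lit 0) (.split (nat_lit 9) (nat_lit 1) (.split (nat_lit 9) (nat_lit 2) (.split (nat_lit 9) (nat_lit 3) (.split (nat_lit 9) (nat_lit 5) (.split (nat_lit 9) (nat_lit 7) (.split (nat_lit 9) (nat_lit 8) (.split (nat_lit 9) (nat_lit 6) (.st (nat_lit 4) (nat_lit 1) (nat_lit 6) (nat_lit 0x40540) (nat_lit 0x1000000000000000100020001000000000000) (nat_lit 1) (nat_lit 1) (.ex (nat_lit 5) t742_140 (.split (nat_lit 0xa) (nat_lit 0) (.split (nat_lit 0xa) (nat_lit 1) (.split (nat_lit 0xa) (nat_lit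 2) (.split (nat_lit 0xa) (nat_lit 3) (.split (nat_lit 0xa) (nat_lit 4) (.split (nat_lit 0xa) (nat_lit 7) (.split (nat_lit 0xa) (nat_lit 8) (.split (nat_lit 0xa) (nat_lit 9) (.split (nat_lit 0xa) (nat_lit 6) (.sup (nat_lit 0x20009000a0005) (nat_lit 0x50000000000000008000a00020000000000000000)) (.unj (nat_lit 0x101400) (nat_lit 0x10000000000000001000100000000000000000000) (nat_lit 0x55) (nat_lit 0x1000200020001))) (.non (nat_lit 1) (nat_lit 6) (nat_lit 0x140500) (nat_lit 0x10001000000000000000100010000000000000000))) (.non (nat_lit 1) (nat_lit 6) (nat_lit 0x154551) (nat_lit 0x40003000300010000000500060004000200000002))) (.non (nat_lit 1) (nat_lit 6) (nat_lit 0x154551) (nat_lit 0x40003000100030000000500060004000200000002))) (.non (nat_lit 1) (nat_lit 6) (nat_lit 0x100500) (nat_lit 0x10000000000000000000100010000000000000000))) (.non (nat_lit 1) (nat_lit 6) (nat_lit 0x100540) (nat_lit 0x10000000000000000000100010001000000000000))) (.star (nat_lit 0xa) (nat_lit 2) (nat_lit 5))) (.star (nat_lit 0xa) (nat_lit 1) (nat_lit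 5))) (.non (nat_lit 1) (nat_lit 6) (nat_lit 0x154541) (nat_lit 0x20001000100010000000200020001000000000002))))) (.sup (nat_lit 0x1000500050003) (nat_lit 0x3000000000005000400010000000000000000))) (.non (nat_lit 2) (nat_lit 6) (nat_lit 0x54545) (nat_lit 0x2000200010000000100020001000000010002))) (.non (nat_lit 2) (nat_lit 5) (nat_lit 0x55005) (nat_lit 0x1000100020001000000000000000000010002))) (.non (nat_lit 1) (nat_lit 6) (nat_lit 0x40500) (nat_lit 0x1000000000000000100010000000000000000))) (.non (nat_lit 1) (nat_lit 5) (nat_lit 0x40140) (nat_lit 0x1000000000000000000010001000000000000))) (.non (nat_lit 1) (nat_lit 5) (nat_lit 0x40150) (nat_lit 0x1000000000000000000010001000100000000))) (.non (nat_lit 2) (nat_lit 6) (nat_lit 0x54545) (nat_lit 0x2000100010000000100020001000000020002))) (.non (nat_lit 1) (nat_lit 6) (nat_lit 0x54541) (nat_lit 0x2000100010000000100020001000000000002))))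

noncomputable def t742_142 : Tr := (.split (nat_lit 0xc) (nat_lit 0) (.split (nat_lit 0xc) (nat_lit 1) (.split (nat_lit 0xc) (nat_lit 2) (.split (nat_lit 0xc) (nat_lit 3) (.split (nat_lit 0xc) (nat_lit 4) (.split (nat_lit 0xc) (nat_lit 5) (.split (nat_lit 0xc) (nat_lit 6) (.split (nat_lit 0xc) (nat_lit 7) (.split (nat_lit 0xc) (nat_lit 8) (.split (nat_lit 0xc) (nat_lit 9) (.split (nat_lit 0xc) (nat_lit 0xa) (.st (nat_lit 0xb) (nat_lit 1) (nat_lit 5) (nat_lit 0x1540150) (nat_lit 0x1000200020002000000000000000000010002000100000000) (nat_lit 1) (nat_lit 1) (.st (nat_lit 0xc) (nat_lit 1) (nat_lit 6) (nat_lit 0x1540550) (nat_lit 0x2000300040005000000000000000200040006000300000000) (nat_lit 1) (nat_lit 1) (.split (nat_lit 0xc) (nat_lit 0xb) (.leaf (.cons (nat_lit 0x140054) (nat_lit 0x10002000000000000000000000003000400030000) (.cons (nat_lit 0x15401) (nat_lit 0x100030004000300000000000000000002) (.cons (nat_lit 0x41540) (nat_lit 0x1000000000003000400030002000000000000) (.cons (nat_lit 0x14015) (nat_lit 0x100010000000000000000000200020002)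 .nil)))) (.cons (nat_lit 0x1111000111100) (nat_lit 0x1000010) (nat_lit 0xe) (nat_lit 0x7654000320100) (.cons (nat_lit 0x111000011) (nat_lit 0x100100) (nat_lit 8) (nat_lit 0x234000010) .nil))) (.non (nat_lit 1) (nat_lit 5) (nat_lit 0x2540150) (nat_lit 0x1000200020002000000000000000000010002000100000000))))) (.non (nat_lit 1) (nat_lit 5) (nat_lit 0x1500000) (nat_lit 0x1000100010000000000000000000000000000000000000000))) (.non (nat_lit 1) (nat_lit 5) (nat_lit 0x1540000) (nat_lit 0x1000100010001000000000000000000000000000000000000))) (.non (nat_lit 1) (nat_lit 6) (nat_lit 0x1550550) (nat_lit 0x2000300040005000100000000000200040006000300000000))) (.non (nat_lit 1) (nat_lit 5) (nat_lit 0x1555041) (nat_lit 0x5000400030002000200060003000000000001000000000004))) (.non (nat_lit 3) (nat_lit 7) (nat_lit 0x1501400) (nat_lit 0x3000200010000000000000004000300000000000000000000))) (.non (nat_lit 1) (nat_lit 6) (nat_lit 0x1540540) (nat_lit 0x1000100010001000000000000000100010001000000000000))) (.non (nat_lit 1) (nat_lit 5)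 (nat_lit 0x1540140) (nat_lit 0x1000100010001000000000000000000010001000000000000))) (.non (nat_lit 1) (nat_lit 5) (nat_lit 0x1540040) (nat_lit 0x1000100010001000000000000000000000001000000000000))) (.non (nat_lit 1) (nat_lit 5) (nat_lit 0x1540050) (nat_lit 0x1000100010001000000000000000000000001000100000000))) (.non (nat_lit 2) (nat_lit 5) (nat_lit 0x1555005) (nat_lit 0x4000300020001000300040002000000000000000000050006))) (.non (nat_lit 1) (nat_lit 5) (nat_lit 0x1555041) (nat_lit 0x5000400030002000300040002000000000001000000000006)))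

noncomputable def t742_143 : Tr := (.ex (nat_lit 0xa) (.leaf (.cons (nat_lit 0x140054) (nat_lit 0x10002000000000000000000000003000400030000) (.cons (nat_lit 0x15401) (nat_lit 0x100030004000300000000000000000002) (.cons (nat_lit 0x41540) (nat_lit 0x1000000000003000400030002000000000000) (.cons (nat_lit 0x14015) (nat_lit 0x100010000000000000000000200020002) .nil)))) (.cons (nat_lit 0x11000111100) (nat_lit 0x1000010) (nat_lit 0xc) (nat_lit 0x54000320100) .nil)) (.split (nat_lit 0xb) (nat_lit 0) (.split (nat_lit 0xb) (nat_lit 1) (.split (nat_lit 0xb) (nat_lit 2) (.split (nat_lit 0xb) (nat_lit 3) (.split (nat_lit 0xb) (nat_lit 4) (.split (nat_lit 0xb) (nat_lit 5) (.split (nat_lit 0xb) (nat_lit 6) (.split (nat_lit 0xb) (nat_lit 7) (.split (nat_lit 0xb) (nat_lit 8) (.split (nat_lit 0xb) (nat_lit 9) (.st (nat_lit 0xa) (nat_lit 1) (nat_lit 5) (nat_lit 0x540150) (nat_lit 0x100020002000000000000000000010002000100000000) (nat_lit 1) (nat_lit 1) (.split (nat_lit 0xb) (nat_lit 0xa) (.ex (nat_lit 0xb) (.leaf (.cons (nat_lit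 0x140054) (nat_lit 0x10002000000000000000000000003000400030000) (.cons (nat_lit 0x15401) (nat_lit 0x100030004000300000000000000000002) (.cons (nat_lit 0x41540) (nat_lit 0x1000000000003000400030002000000000000) (.cons (nat_lit 0x14015) (nat_lit 0x100010000000000000000000200020002) .nil)))) (.cons (nat_lit 0x111000111100) (nat_lit 0x1000010) (nat_lit 0xd) (nat_lit 0x654000320100) (.cons (nat_lit 0x111000011) (nat_lit 0x100100) (nat_lit 8) (nat_lit 0x234000010) .nil))) t742_142) (.non (nat_lit 1) (nat_lit 5) (nat_lit 0x940150) (nat_lit 0x100020002000000000000000000010002000100000000)))) (.non (nat_lit 1) (nat_lit 5) (nat_lit 0x540000) (nat_lit 0x100010001000000000000000000000000000000000000))) (.non (nat_lit 1) (nat_lit 6) (nat_lit 0x550551) (nat_lit 0x300040005000200000000000200040006000300000001))) (.non (nat_lit 1) (nat_lit 5) (nat_lit 0x555141) (nat_lit 0x500040003000200060003000000010002000000000004))) (.non (nat_lit 3) (nat_lit 7) (nat_lit 0x541400) (nat_lit 0x300020001000000000004000300000000000000000000)))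 (.non (nat_lit 1) (nat_lit 6) (nat_lit 0x540540) (nat_lit 0x100010001000000000000000100010001000000000000))) (.non (nat_lit 1) (nat_lit 5) (nat_lit 0x540140) (nat_lit 0x100010001000000000000000000010001000000000000))) (.non (nat_lit 1) (nat_lit 5) (nat_lit 0x540040) (nat_lit 0x100010001000000000000000000000001000000000000))) (.non (nat_lit 1) (nat_lit 5) (nat_lit 0x540050) (nat_lit 0x100010001000000000000000000000001000100000000))) (.non (nat_lit 2) (nat_lit 5) (nat_lit 0x555045) (nat_lit 0x400030002000300040002000000000001000000050006))) (.non (nat_lit 1) (nat_lit 5) (nat_lit 0x555141) (nat_lit 0x500040003000300040002000000010002000000000006))))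

noncomputable def t742_144 : Tr := (.ex (nat_lit 9) (.split (nat_lit 9) (nat_lit 3) (.pd (.cons (nat_lit 0) (nat_lit 4) (nat_lit 0) (nat_lit 0x3865502110) (nat_lit 0xf423ff423ff423fb71ae1f15600000b71aea2c280473700000) .nil) (.split (nat_lit 7) (nat_lit 0) (.split (nat_lit 4) (nat_lit 3) (.leaf (.cons (nat_lit 0x40154) (nat_lit 0x1000000000000000000010002000200020000) (.cons (nat_lit 0x15401) (nat_lit 0x100030004000300000000000000000002) (.cons (nat_lit 0x41540) (nat_lit 0x1000000000003000400030002000000000000) (.cons (nat_lit 0x14015) (nat_lit 0x100010000000000000000000200020002) .nil)))) (.cons (nat_lit 0x1000111100) (nat_lit 0x1000010) (nat_lit 8) (nat_lit 0x2000430100) (.cons (nat_lit 0x111000011) (nat_lit 0x100100) (nat_lit 8) (nat_lit 0x234000010) .nil))) (.non (nat_lit 1) (nat_lit 5) (nat_lit 0x40250) (nat_lit 0x1000000000000000000010002000100000000))) (.non (nat_lit 2) (nat_lit 5) (nat_lit 0x18005) (nat_lit 0x100010000000000000000000000010002)))) (.non (nat_lit 1) (nat_lit 5) (nat_lit 0x80150) (nat_lit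 0x1000000000000000000010002000100000000))) (.split (nat_lit 0xa) (nat_lit 0) (.split (nat_lit 0xa) (nat_lit 1) (.split (nat_lit 0xa) (nat_lit 2) (.split (nat_lit 0xa) (nat_lit 3) (.split (nat_lit 0xa) (nat_lit 4) (.split (nat_lit 0xa) (nat_lit 5) (.split (nat_lit 0xa) (nat_lit 6) (.split (nat_lit 0xa) (nat_lit 7) (.split (nat_lit 0xa) (nat_lit 8) (.st (nat_lit 9) (nat_lit 1) (nat_lit 5) (nat_lit 0x140150) (nat_lit 0x10002000000000000000000010002000100000000) (nat_lit 1) (nat_lit 1) (.split (nat_lit 7) (nat_lit 0) (.split (nat_lit 0xa) (nat_lit 9) (.split (nat_lit 9) (nat_lit 3) (.split (nat_lit 4) (nat_lit 3) t742_143 (.non (nat_lit 1) (nat_lit 5) (nat_lit 0x40250) (nat_lit 0x1000000000000000000010002000100000000))) (.non (nat_lit 1) (nat_lit 5) (nat_lit 0x80150) (nat_lit 0x1000000000000000000010002000100000000))) (.non (nat_lit 1) (nat_lit 5) (nat_lit 0x240150) (nat_lit 0x10002000000000000000000010002000100000000))) (.non (nat_lit 2) (nat_lit 5) (nat_lit 0x18005) (nat_lit 0x100010000000000000000000000010002))))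 (.non (nat_lit 1) (nat_lit 6) (nat_lit 0x154551) (nat_lit 0x40005000300010000000200040006000300000002))) (.non (nat_lit 1) (nat_lit 5) (nat_lit 0x145151) (nat_lit 0x20002000000020001000000010002000100000001))) (.non (nat_lit 3) (nat_lit 7) (nat_lit 0x101500) (nat_lit 0x10000000000000002000200010000000000000000))) (.non (nat_lit 1) (nat_lit 6) (nat_lit 0x140540) (nat_lit 0x10001000000000000000100010001000000000000))) (.non (nat_lit 1) (nat_lit 5) (nat_lit 0x140140) (nat_lit 0x10001000000000000000000010001000000000000))) (.non (nat_lit 1) (nat_lit 5) (nat_lit 0x140040) (nat_lit 0x10001000000000000000000000001000000000000))) (.non (nat_lit 1) (nat_lit 5) (nat_lit 0x140050) (nat_lit 0x10001000000000000000000000001000100000000))) (.non (nat_lit 2) (nat_lit 5) (nat_lit 0x155145) (nat_lit 0x40003000300040002000000010002000000050006))) (.non (nat_lit 1) (nat_lit 5) (nat_lit 0x154151) (nat_lit 0x20002000100010000000000010002000100000002))))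

noncomputable def t742_145 : Tr := (.split (nat_lit 0xc) (nat_lit 0) (.split (nat_lit 0xc) (nat_lit 1) (.split (nat_lit 0xc) (nat_lit 2) (.split (nat_lit 0xc) (nat_lit 3) (.split (nat_lit 0xc) (nat_lit 4) (.split (nat_lit 0xc) (nat_lit 5) (.split (nat_lit 0xc) (nat_lit 6) (.split (nat_lit 0xc) (nat_lit 7) (.split (nat_lit 0xc) (nat_lit 8) (.split (nat_lit 0xc) (nat_lit 9) (.split (nat_lit 0xc) (nat_lit 0xa) (.st (nat_lit 0xb) (nat_lit 2) (nat_lit 5) (nat_lit 0x1514005) (nat_lit 0x1000200020000000200010000000000000000000000010002) (nat_lit 1) (nat_lit 1) (.st (nat_lit 0xc) (nat_lit 2) (nat_lit 5) (nat_lit 0x1515005) (nat_lit 0x2000300040000000500040002000000000000000000030006) (nat_lit 1) (nat_lit 1) (.split (nat_lit 0xc) (nat_lit 0xb) (.leaf (.cons (nat_lit 0x40154) (nat_lit 0x1000000000000000000010002000200020000) (.cons (nat_lit 0x15401) (nat_lit 0x100030004000300000000000000000002) (.cons (nat_lit 0x41540) (nat_lit 0x1000000000003000400030002000000000000) (.cons (nat_lit 0x110015) (nat_lit 0x10000000200000000000000000000000300040003)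 .nil)))) (.cons (nat_lit 0x1000111100) (nat_lit 0x1000010) (nat_lit 8) (nat_lit 0x2000430100) (.cons (nat_lit 0x1110111000011) (nat_lit 0x100100) (nat_lit 0xe) (nat_lit 0x7650423000010) .nil))) (.non (nat_lit 2) (nat_lit 5) (nat_lit 0x2514005) (nat_lit 0x1000200020000000200010000000000000000000000010002))))) (.non (nat_lit 1) (nat_lit 5) (nat_lit 0x1500000) (nat_lit 0x1000100010000000000000000000000000000000000000000))) (.non (nat_lit 1) (nat_lit 6) (nat_lit 0x1550550) (nat_lit 0x4000300020005000100000000000200040006000300000000))) (.non (nat_lit 1) (nat_lit 5) (nat_lit 0x1510000) (nat_lit 0x1000100010000000100000000000000000000000000000000))) (.non (nat_lit 1) (nat_lit 5) (nat_lit 0x1514001) (nat_lit 0x1000100010000000100010000000000000000000000000001))) (.non (nat_lit 1) (nat_lit 5) (nat_lit 0x1515001) (nat_lit 0x1000100010000000100010001000000000000000000000001))) (.non (nat_lit 0) (nat_lit 4) (nat_lit 0x1501400) (nat_lit 0x3000200010000000000000003000400000000000000000000))) (.non (nat_lit 1) (nat_lit 6)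 (nat_lit 0x1040550) (nat_lit 0x1000000000001000000000000000100020002000100000000))) (.non (nat_lit 1) (nat_lit 5) (nat_lit 0x1040150) (nat_lit 0x1000000000001000000000000000000010002000100000000))) (.non (nat_lit 1) (nat_lit 6) (nat_lit 0x1550550) (nat_lit 0x4000300020003000100000000000200040006000500000000))) (.non (nat_lit 2) (nat_lit 5) (nat_lit 0x1510005) (nat_lit 0x1000100010000000100000000000000000000000000010001))) (.non (nat_lit 1) (nat_lit 5) (nat_lit 0x1510001) (nat_lit 0x1000100010000000100000000000000000000000000000001)))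

noncomputable def t742_146 : Tr := (.ex (nat_lit 0xa) (.leaf (.cons (nat_lit 0x40154) (nat_lit 0x1000000000000000000010002000200020000) (.cons (nat_lit 0x15401) (nat_lit 0x100030004000300000000000000000002) (.cons (nat_lit 0x41540) (nat_lit 0x1000000000003000400030002000000000000) (.cons (nat_lit 0x110015) (nat_lit 0x10000000200000000000000000000000300040003) .nil)))) (.cons (nat_lit 0x10111000011) (nat_lit 0x100100) (nat_lit 0xc) (nat_lit 0x50423000010) .nil)) (.split (nat_lit 0xb) (nat_lit 0) (.split (nat_lit 0xb) (nat_lit 1) (.split (nat_lit 0xb) (nat_lit 2) (.split (nat_lit 0xb) (nat_lit 3) (.split (nat_lit 0xb) (nat_lit 4) (.split (nat_lit 0xb) (nat_lit 5) (.split (nat_lit 0xb) (nat_lit 6) (.split (nat_lit 0xb) (nat_lit 7) (.split (nat_lit 0xb) (nat_lit 8) (.split (nat_lit 0xb) (nat_lit 9) (.st (nat_lit 0xa) (nat_lit 2) (nat_lit 5) (nat_lit 0x514005) (nat_lit 0x100020000000200010000000000000000000000010002) (nat_lit 1) (nat_lit 1) (.split (nat_lit 0xb) (nat_lit 0xa) (.ex (nat_lit 0xb) (.leaf (.cons (nat_lit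 0x40154) (nat_lit 0x1000000000000000000010002000200020000) (.cons (nat_lit 0x15401) (nat_lit 0x100030004000300000000000000000002) (.cons (nat_lit 0x41540) (nat_lit 0x1000000000003000400030002000000000000) (.cons (nat_lit 0x110015) (nat_lit 0x10000000200000000000000000000000300040003) .nil)))) (.cons (nat_lit 0x1000111100) (nat_lit 0x1000010) (nat_lit 8) (nat_lit 0x2000430100) (.cons (nat_lit 0x110111000011) (nat_lit 0x100100) (nat_lit 0xd) (nat_lit 0x650423000010) .nil))) t742_145) (.non (nat_lit 2) (nat_lit 5) (nat_lit 0x914005) (nat_lit 0x100020000000200010000000000000000000000010002)))) (.non (nat_lit 1) (nat_lit 6) (nat_lit 0x550551) (nat_lit 0x400030005000200000000000200040006000300000001))) (.non (nat_lit 1) (nat_lit 5) (nat_lit 0x510000) (nat_lit 0x100010000000100000000000000000000000000000000))) (.non (nat_lit 1) (nat_lit 5) (nat_lit 0x514001) (nat_lit 0x100010000000100010000000000000000000000000001))) (.non (nat_lit 1) (nat_lit 5) (nat_lit 0x515001) (nat_lit 0x100010000000100010001000000000000000000000001)))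 (.non (nat_lit 0) (nat_lit 4) (nat_lit 0x511400) (nat_lit 0x300020000000100000003000400000000000000000000))) (.non (nat_lit 1) (nat_lit 6) (nat_lit 0x440550) (nat_lit 0x100000001000000000000000100020002000100000000))) (.non (nat_lit 1) (nat_lit 5) (nat_lit 0x440150) (nat_lit 0x100000001000000000000000000010002000100000000))) (.non (nat_lit 1) (nat_lit 6) (nat_lit 0x550551) (nat_lit 0x400030003000200000000000200040006000500000001))) (.non (nat_lit 2) (nat_lit 5) (nat_lit 0x510005) (nat_lit 0x100010000000100000000000000000000000000010001))) (.non (nat_lit 1) (nat_lit 5) (nat_lit 0x510001) (nat_lit 0x100010000000100000000000000000000000000000001))))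

noncomputable def t742_147 : Tr := (.split (nat_lit 0xe) (nat_lit 3) (.split (nat_lit 0xe) (nat_lit 4) (.split (nat_lit 0xe) (nat_lit 5) (.split (nat_lit 0xe) (nat_lit 6) (.split (nat_lit 0xe) (nat_lit 7) (.split (nat_lit 0xe) (nat_lit 8) (.split (nat_lit 0xe) (nat_lit 9) (.split (nat_lit 0xe) (nat_lit 0xa) (.split (nat_lit 0xe) (nat_lit 0xb) (.split (nat_lit 0xe) (nat_lit 0xc) (.st (nat_lit 0xd) (nat_lit 1) (nat_lit 5) (nat_lit 0x14440150) (nat_lit 0x100020000000200000002000000000000000000010002000100000000) (nat_lit 1) (nat_lit 1) (.st (nat_lit 0xe) (nat_lit 1) (nat_lit 6) (nat_lit 0x14440550) (nat_lit 0x200030000000400000005000000000000000200040006000300000000) (nat_lit 1) (nat_lit 1) (.split (nat_lit 0xe) (nat_lit 0xd) (.leaf (.cons (nat_lit 0x440054) (nat_lit 0x100000002000000000000000000000003000400030000) (.cons (nat_lit 0x15401) (nat_lit 0x100030004000300000000000000000002) (.cons (nat_lit 0x41540) (nat_lit 0x1000000000003000400030002000000000000) (.cons (nat_lit 0x110015) (nat_lit 0x10000000200000000000000000000000300040003)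 .nil)))) (.cons (nat_lit 0x110101000111100) (nat_lit 0x1000010) (nat_lit 0xe) (nat_lit 0x760504000320100) (.cons (nat_lit 0x1010111000011) (nat_lit 0x100100) (nat_lit 0xd) (nat_lit 0x6050423000010) .nil))) (.non (nat_lit 1) (nat_lit 5) (nat_lit 0x24440150) (nat_lit 0x100020000000200000002000000000000000000010002000100000000))))) (.non (nat_lit 1) (nat_lit 6) (nat_lit 0x15440550) (nat_lit 0x200030001000400000005000000000000000200040006000300000000))) (.non (nat_lit 1) (nat_lit 5) (nat_lit 0x14400000) (nat_lit 0x100010000000100000000000000000000000000000000000000000000))) (.non (nat_lit 1) (nat_lit 5) (nat_lit 0x15550150) (nat_lit 0x200020001000200020002000100000000000000010002000100000000))) (.non (nat_lit 1) (nat_lit 5) (nat_lit 0x14440000) (nat_lit 0x100010000000100000001000000000000000000000000000000000000))) (.non (nat_lit 1) (nat_lit 5) (nat_lit 0x15114001) (nat_lit 0x200010001000000020000000300010000000000000000000000000002))) (.non (nat_lit 1) (nat_lit 5) (nat_lit 0x14515001) (nat_lit 0x300020000000100010000000200040002000000000000000000000003)))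 (.non (nat_lit 2) (nat_lit 5) (nat_lit 0x11115005) (nat_lit 0x100000001000000020000000300030002000000000000000000020004))) (.non (nat_lit 1) (nat_lit 6) (nat_lit 0x14440540) (nat_lit 0x100010000000100000001000000000000000100010001000000000000))) (.non (nat_lit 1) (nat_lit 5) (nat_lit 0x14440140) (nat_lit 0x100010000000100000001000000000000000000010001000000000000))) (.non (nat_lit 1) (nat_lit 5) (nat_lit 0x14440040) (nat_lit 0x100010000000100000001000000000000000000000001000000000000)))

noncomputable def t742_148 : Tr := (.split (nat_lit 0xf) (nat_lit 4) (.split (nat_lit 0xf) (nat_lit 5) (.split (nat_lit 0xf) (nat_lit 6) (.split (nat_lit 0xf) (nat_lit 7) (.split (nat_lit 0xf) (nat_lit 8) (.split (nat_lit 0xf) (nat_lit 9) (.split (nat_lit 0xf) (nat_lit 0xa) (.split (nat_lit 0xf) (nat_lit 0xb) (.split (nat_lit 0xf) (nat_lit 0xc) (.split (nat_lit 0xf) (nat_lit 0xe) (.st (nat_lit 0xd) (nat_lit 1) (nat_lit 5) (nat_lit 0x44440150) (nat_lit 0x1000000020000000200000002000000000000000000010002000100000000) (nat_lit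 1) (nat_lit 1) (.st (nat_lit 0xf) (nat_lit 1) (nat_lit 6) (nat_lit 0x44440550) (nat_lit 0x2000000030000000400000005000000000000000200040006000300000000) (nat_lit 1) (nat_lit 1) (.split (nat_lit 0xf) (nat_lit 0xd) (.leaf (.cons (nat_lit 0x440054) (nat_lit 0x100000002000000000000000000000003000400030000) (.cons (nat_lit 0x15401) (nat_lit 0x100030004000300000000000000000002) (.cons (nat_lit 0x41540) (nat_lit 0x1000000000003000400030002000000000000) (.cons (nat_lit 0x110015) (nat_lit 0x10000000200000000000000000000000300040003) .nil)))) (.cons (nat_lit 0x1010101000111100) (nat_lit 0x1000010) (nat_lit 0xe) (nat_lit 0x7060504000320100) (.cons (nat_lit 0x101010111000011) (nat_lit 0x100100) (nat_lit 0xe) (nat_lit 0x706050423000010) .nil))) (.non (nat_lit 1) (nat_lit 5) (nat_lit 0x84440150) (nat_lit 0x1000000020000000200000002000000000000000000010002000100000000))))) (.non (nat_lit 1) (nat_lit 6) (nat_lit 0x54440550) (nat_lit 0x2000100030000000400000005000000000000000200040006000300000000))) (.non (nat_lit 1) (nat_lit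 5) (nat_lit 0x55550040) (nat_lit 0x5000300040006000300040002000200000000000000000001000000000000))) (.non (nat_lit 1) (nat_lit 5) (nat_lit 0x44400000) (nat_lit 0x1000000010000000100000000000000000000000000000000000000000000))) (.non (nat_lit 1) (nat_lit 5) (nat_lit 0x55550040) (nat_lit 0x5000200040004000300060002000300000000000000000001000000000000))) (.non (nat_lit 1) (nat_lit 5) (nat_lit 0x44440000) (nat_lit 0x1000000010000000100000001000000000000000000000000000000000000))) (.non (nat_lit 1) (nat_lit 5) (nat_lit 0x55510001) (nat_lit 0x3000100020002000100030000000400000000000000000000000000000002))) (.non (nat_lit 1) (nat_lit 5) (nat_lit 0x55115001) (nat_lit 0x4000100020002000000030000000400060003000000000000000000000005))) (.non (nat_lit 2) (nat_lit 5) (nat_lit 0x41115005) (nat_lit 0x1000000000001000000020000000300030002000000000000000000020004))) (.non (nat_lit 1) (nat_lit 6) (nat_lit 0x44440540) (nat_lit 0x1000000010000000100000001000000000000000100010001000000000000))) (.non (nat_lit 1) (nat_lit 5) (nat_lit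 0x44440140) (nat_lit 0x1000000010000000100000001000000000000000000010001000000000000)))

noncomputable def t742_149 : Tr := (.split (nat_lit 0xe) (nat_lit 7) (.split (nat_lit 0xe) (nat_lit 8) (.split (nat_lit 0xe) (nat_lit 9) (.split (nat_lit 0xe) (nat_lit 0xa) (.split (nat_lit 0xe) (nat_lit 0xb) (.split (nat_lit 0xe) (nat_lit 0xd) (.st (nat_lit 0xc) (nat_lit 2) (nat_lit 5) (nat_lit 0x11114005) (nat_lit 0x100000002000000020000000200010000000000000000000000010002) (nat_lit 1) (nat_lit 1) (.st (nat_lit 0xe) (nat_lit 2) (nat_lit 5) (nat_lit 0x11115005) (nat_lit 0x200000003000000040000000500040002000000000000000000030006) (nat_lit 1) (nat_lit 1) (.split (nat_lit 0xe) (nat_lit 0xc) (.ex (nat_lit 0xd) (.leaf (.cons (nat_lit 0x440054) (nat_lit 0x100000002000000000000000000000003000400030000) (.cons (nat_lit 0x15401) (nat_lit 0x100030004000300000000000000000002) (.cons (nat_lit 0x41540) (nat_lit 0x1000000000003000400030002000000000000) (.cons (nat_lit 0x110015) (nat_lit 0x10000000200000000000000000000000300040003)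 .nil)))) (.cons (nat_lit 0x10101000111100) (nat_lit 0x1000010) (nat_lit 0xd) (nat_lit 0x60504000320100) (.cons (nat_lit 0x101010111000011) (nat_lit 0x100100) (nat_lit 0xe) (nat_lit 0x706050423000010) .nil))) (.split (nat_lit 0xf) (nat_lit 0) (.split (nat_lit 0xf) (nat_lit 1) (.split (nat_lit 0xf) (nat_lit 2) (.split (nat_lit 0xf) (nat_lit 3) t742_148 (.non (nat_lit 1) (nat_lit 5) (nat_lit 0x44440040) (nat_lit 0x1000000010000000100000001000000000000000000000001000000000000))) (.non (nat_lit 1) (nat_lit 5) (nat_lit 0x44440050) (nat_lit 0x1000000010000000100000001000000000000000000000001000100000000))) (.non (nat_lit 2) (nat_lit 5) (nat_lit 0x45114005) (nat_lit 0x2000000010001000000020000000300020000000000000000000000030004))) (.non (nat_lit 1) (nat_lit 5) (nat_lit 0x45514001) (nat_lit 0x3000000020001000100020000000300020000000000000000000000000004)))) (.non (nat_lit 2) (nat_lit 5) (nat_lit 0x21114005) (nat_lit 0x100000002000000020000000200010000000000000000000000010002))))) (.non (nat_lit 1) (nat_lit 6) (nat_lit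 0x15440550) (nat_lit 0x200030001000400000005000000000000000200040006000300000000))) (.non (nat_lit 1) (nat_lit 5) (nat_lit 0x15540140) (nat_lit 0x300020002000400010003000000000000000000010002000000000000))) (.non (nat_lit 1) (nat_lit 5) (nat_lit 0x11100000) (nat_lit 0x100000001000000010000000000000000000000000000000000000000))) (.non (nat_lit 1) (nat_lit 5) (nat_lit 0x15440140) (nat_lit 0x200010001000200000003000000000000000000010002000000000000))) (.non (nat_lit 1) (nat_lit 5) (nat_lit 0x11110000) (nat_lit 0x100000001000000010000000100000000000000000000000000000000))) (.non (nat_lit 1) (nat_lit 5) (nat_lit 0x11114001) (nat_lit 0x100000001000000010000000100010000000000000000000000000001)))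

noncomputable def t742_150 : Tr := (.split (nat_lit 0xd) (nat_lit 0xc) (.st (nat_lit 0xb) (nat_lit 1) (nat_lit 5) (nat_lit 0x4440150) (nat_lit 0x10000000200000002000000000000000000010002000100000000) (nat_lit 1) (nat_lit 1) (.split (nat_lit 0xd) (nat_lit 0xb) (.ex (nat_lit 0xc) (.ex (nat_lit 0xd) (.leaf (.cons (nat_lit 0x440054) (nat_lit 0x100000002000000000000000000000003000400030000) (.cons (nat_lit 0x15401) (nat_lit 0x100030004000300000000000000000002) (.cons (nat_lit 0x41540) (nat_lit 0x1000000000003000400030002000000000000) (.cons (nat_lit 0x110015) (nat_lit 0x10000000200000000000000000000000300040003) .nil)))) (.cons (nat_lit 0x10101000111100) (nat_lit 0x1000010) (nat_lit 0xd) (nat_lit 0x60504000320100) (.cons (nat_lit 0x1010111000011) (nat_lit 0x100100) (nat_lit 0xd) (nat_lit 0x6050423000010) .nil))) (.split (nat_lit 0xe) (nat_lit 0) (.split (nat_lit 0xe) (nat_lit 1) (.split (nat_lit 0xe) (nat_lit 2) t742_147 (.non (nat_lit 1) (nat_lit 5) (nat_lit 0x14440050) (nat_lit 0x100010000000100000001000000000000000000000001000100000000)))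 (.non (nat_lit 2) (nat_lit 5) (nat_lit 0x15114005) (nat_lit 0x200010001000000020000000300020000000000000000000000030004))) (.non (nat_lit 1) (nat_lit 5) (nat_lit 0x15514001) (nat_lit 0x300020001000100020000000300020000000000000000000000000004)))) (.split (nat_lit 0xe) (nat_lit 0) (.split (nat_lit 0xe) (nat_lit 1) (.split (nat_lit 0xe) (nat_lit 2) (.split (nat_lit 0xe) (nat_lit 3) (.split (nat_lit 0xe) (nat_lit 4) (.split (nat_lit 0xe) (nat_lit 5) (.split (nat_lit 0xe) (nat_lit 6) t742_149 (.non (nat_lit 1) (nat_lit 5) (nat_lit 0x11115001) (nat_lit 0x100000001000000010000000100010001000000000000000000000001))) (.non (nat_lit 1) (nat_lit 6) (nat_lit 0x14440550) (nat_lit 0x100010000000200000003000000000000000200030004000200000000))) (.non (nat_lit 1) (nat_lit 5) (nat_lit 0x15440150) (nat_lit 0x200010001000200000003000000000000000000030004000200000000))) (.non (nat_lit 1) (nat_lit 5) (nat_lit 0x15540140) (nat_lit 0x300010002000200010003000000000000000000020004000000000000))) (.non (nat_lit 1) (nat_lit 5) (nat_lit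 0x15440150) (nat_lit 0x200010001000200000003000000000000000000020004000300000000))) (.non (nat_lit 2) (nat_lit 5) (nat_lit 0x11110005) (nat_lit 0x100000001000000010000000100000000000000000000000000010001))) (.non (nat_lit 1) (nat_lit 5) (nat_lit 0x11110001) (nat_lit 0x100000001000000010000000100000000000000000000000000000001)))) (.non (nat_lit 1) (nat_lit 5) (nat_lit 0x8440150) (nat_lit 0x10000000200000002000000000000000000010002000100000000)))) (.non (nat_lit 1) (nat_lit 6) (nat_lit 0x5540550) (nat_lit 0x30002000400010005000000000000000200040006000300000000)))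

noncomputable def t742_151 : Tr := (.split (nat_lit 0xc) (nat_lit 0xb) (.st (nat_lit 0xa) (nat_lit 2) (nat_lit 5) (nat_lit 0x1114005) (nat_lit 0x1000000020000000200010000000000000000000000010002) (nat_lit 1) (nat_lit 1) (.split (nat_lit 0xc) (nat_lit 0xa) (.ex (nat_lit 0xb) (.leaf (.cons (nat_lit 0x440054) (nat_lit 0x100000002000000000000000000000003000400030000) (.cons (nat_lit 0x15401) (nat_lit 0x100030004000300000000000000000002) (.cons (nat_lit 0x41540) (nat_lit 0x1000000000003000400030002000000000000) (.cons (nat_lit 0x110015) (nat_lit 0x10000000200000000000000000000000300040003) .nil)))) (.cons (nat_lit 0x101000111100) (nat_lit 0x1000010) (nat_lit 0xc) (nat_lit 0x504000320100) .nil)) (.split (nat_lit 0xd) (nat_lit 0) (.split (nat_lit 0xd) (nat_lit 1) (.split (nat_lit 0xd) (nat_lit 2) (.split (nat_lit 0xd) (nat_lit 3) (.split (nat_lit 0xd) (nat_lit 4) (.split (nat_lit 0xd) (nat_lit 5) (.split (nat_lit 0xd) (nat_lit 6) (.split (nat_lit 0xd) (nat_lit 7) (.split (nat_lit 0xd) (nat_lit 8) (.split (nat_lit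 0xd) (nat_lit 9) (.split (nat_lit 0xd) (nat_lit 0xa) t742_150 (.non (nat_lit 1) (nat_lit 5) (nat_lit 0x5550150) (nat_lit 0x20001000200020002000100000000000000010002000100000000))) (.non (nat_lit 1) (nat_lit 5) (nat_lit 0x4440000) (nat_lit 0x10000000100000001000000000000000000000000000000000000))) (.non (nat_lit 1) (nat_lit 5) (nat_lit 0x5514001) (nat_lit 0x20001000100020000000300010000000000000000000000000002))) (.non (nat_lit 1) (nat_lit 5) (nat_lit 0x4555001) (nat_lit 0x30000000200010001000200040002000000000000000000000003))) (.non (nat_lit 2) (nat_lit 5) (nat_lit 0x5115005) (nat_lit 0x10001000000020000000300030002000000000000000000020004))) (.non (nat_lit 1) (nat_lit 6) (nat_lit 0x4440540) (nat_lit 0x10000000100000001000000000000000100010001000000000000))) (.non (nat_lit 1) (nat_lit 5) (nat_lit 0x4440140) (nat_lit 0x10000000100000001000000000000000000010001000000000000))) (.non (nat_lit 1) (nat_lit 5) (nat_lit 0x4440040) (nat_lit 0x10000000100000001000000000000000000000001000000000000))) (.non (nat_lit 1)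 (nat_lit 5) (nat_lit 0x4440050) (nat_lit 0x10000000100000001000000000000000000000001000100000000))) (.non (nat_lit 2) (nat_lit 5) (nat_lit 0x5514005) (nat_lit 0x20001000100020000000300020000000000000000000000030004))) (.non (nat_lit 1) (nat_lit 5) (nat_lit 0x5554001) (nat_lit 0x30001000200020001000300020000000000000000000000000004)))) (.non (nat_lit 2) (nat_lit 5) (nat_lit 0x2114005) (nat_lit 0x1000000020000000200010000000000000000000000010002)))) (.non (nat_lit 1) (nat_lit 6) (nat_lit 0x1550550) (nat_lit 0x3000400020005000100000000000200040006000300000000)))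

noncomputable def t742_152 : Tr := (.split (nat_lit 8) (nat_lit 0) (.split (nat_lit 7) (nat_lit 0) (.split (nat_lit 0xb) (nat_lit 9) (.split (nat_lit 9) (nat_lit 3) (.split (nat_lit 4) (nat_lit 3) (.ex (nat_lit 0xa) (.leaf (.cons (nat_lit 0x440054) (nat_lit 0x100000002000000000000000000000003000400030000) (.cons (nat_lit 0x15401) (nat_lit 0x100030004000300000000000000000002) (.cons (nat_lit 0x41540) (nat_lit 0x1000000000003000400030002000000000000) (.cons (nat_lit 0x110015) (nat_lit 0x10000000200000000000000000000000300040003) .nil)))) (.cons (nat_lit 0x10111000011) (nat_lit 0x100100) (nat_lit 0xc) (nat_lit 0x50423000010) .nil)) (.split (nat_lit 0xc) (nat_lit 0) (.split (nat_lit 0xc) (nat_lit 1) (.split (nat_lit 0xc) (nat_lit 2) (.split (nat_lit 0xc) (nat_lit 3) (.split (nat_lit 0xc) (nat_lit 4) (.split (nat_lit 0xc) (nat_lit 5) (.split (nat_lit 0xc) (nat_lit 6) (.split (nat_lit 0xc) (nat_lit 7) (.split (nat_lit 0xc) (nat_lit 8) (.split (nat_lit 0xc) (nat_lit 9) t742_151 (.non (nat_lit 1) (nat_lit 5) (nat_lit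 0x1440150) (nat_lit 0x1000100000002000000000000000000010002000100000000))) (.non (nat_lit 1) (nat_lit 5) (nat_lit 0x1110000) (nat_lit 0x1000000010000000100000000000000000000000000000000))) (.non (nat_lit 1) (nat_lit 5) (nat_lit 0x1114001) (nat_lit 0x1000000010000000100010000000000000000000000000001))) (.non (nat_lit 1) (nat_lit 5) (nat_lit 0x1115001) (nat_lit 0x1000000010000000100010001000000000000000000000001))) (.non (nat_lit 1) (nat_lit 6) (nat_lit 0x1550550) (nat_lit 0x3000200020004000100000000000400050006000300000000))) (.non (nat_lit 1) (nat_lit 5) (nat_lit 0x1550151) (nat_lit 0x4000200030004000200000000000000050006000300000001))) (.non (nat_lit 1) (nat_lit 5) (nat_lit 0x1040150) (nat_lit 0x1000000000001000000000000000000010002000100000000))) (.non (nat_lit 1) (nat_lit 5) (nat_lit 0x1550151) (nat_lit 0x4000200030004000200000000000000030006000500000001))) (.non (nat_lit 2) (nat_lit 5) (nat_lit 0x1110005) (nat_lit 0x1000000010000000100000000000000000000000000010001))) (.non (nat_lit 1) (nat_lit 5) (nat_lit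 0x1110001) (nat_lit 0x1000000010000000100000000000000000000000000000001)))) (.non (nat_lit 1) (nat_lit 5) (nat_lit 0x40250) (nat_lit 0x1000000000000000000010002000100000000))) (.non (nat_lit 1) (nat_lit 5) (nat_lit 0x80150) (nat_lit 0x1000000000000000000010002000100000000))) (.non (nat_lit 1) (nat_lit 5) (nat_lit 0x840150) (nat_lit 0x100000002000000000000000000010002000100000000))) (.non (nat_lit 1) (nat_lit 5) (nat_lit 0x11a001) (nat_lit 0x10000000200020001000000000000000000000003))) (.non (nat_lit 1) (nat_lit 5) (nat_lit 0x225001) (nat_lit 0x10000000200020001000000000000000000000003)))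

noncomputable def t742_153 : Tr := (.ex (nat_lit 9) (.split (nat_lit 9) (nat_lit 3) (.pd (.cons (nat_lit 0) (nat_lit 4) (nat_lit 0x10100000000) (nat_lit 0x83a65502110) (nat_lit 0x1f423f00001f423fb71ae1f15600000b71aea2c280473700000) .nil) (.split (nat_lit 0xa) (nat_lit 8) (.split (nat_lit 8) (nat_lit 0) (.split (nat_lit 7) (nat_lit 0) (.split (nat_lit 4) (nat_lit 3) t742_146 (.non (nat_lit 1) (nat_lit 5) (nat_lit 0x40250) (nat_lit 0x1000000000000000000010002000100000000))) (.non (nat_lit 1) (nat_lit 5) (nat_lit 0x11a001) (nat_lit 0x10000000200020001000000000000000000000003))) (.non (nat_lit 1) (nat_lit 5) (nat_lit 0x225001) (nat_lit 0x10000000200020001000000000000000000000003))) (.non (nat_lit 2) (nat_lit 5) (nat_lit 0x214005) (nat_lit 0x10000000200010000000000000000000000010002)))) (.non (nat_lit 1) (nat_lit 5) (nat_lit 0x80150) (nat_lit 0x1000000000000000000010002000100000000))) (.split (nat_lit 0xb) (nat_lit 0) (.split (nat_lit 0xb) (nat_lit 1) (.split (nat_lit 0xb) (nat_lit 2) (.split (nat_lit 0xb) (nat_lit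 3) (.split (nat_lit 0xb) (nat_lit 4) (.split (nat_lit 0xb) (nat_lit 5) (.split (nat_lit 0xb) (nat_lit 6) (.split (nat_lit 0xb) (nat_lit 7) (.split (nat_lit 0xb) (nat_lit 8) (.split (nat_lit 0xb) (nat_lit 0xa) (.st (nat_lit 9) (nat_lit 1) (nat_lit 5) (nat_lit 0x440150) (nat_lit 0x100000002000000000000000000010002000100000000) (nat_lit 1) (nat_lit 1) (.split (nat_lit 0xa) (nat_lit 8) t742_152 (.non (nat_lit 2) (nat_lit 5) (nat_lit 0x214005) (nat_lit 0x10000000200010000000000000000000000010002)))) (.non (nat_lit 1) (nat_lit 6) (nat_lit 0x550551) (nat_lit 0x400030005000200000000000200040006000300000001))) (.non (nat_lit 1) (nat_lit 5) (nat_lit 0x555041) (nat_lit 0x300020002000400020001000000000001000000000003))) (.non (nat_lit 1) (nat_lit 5) (nat_lit 0x555041) (nat_lit 0x300010002000200040002000000000001000000000003))) (.non (nat_lit 2) (nat_lit 5) (nat_lit 0x555045) (nat_lit 0x300020002000400050004000000000001000000030006))) (.non (nat_lit 1) (nat_lit 6) (nat_lit 0x440540) (nat_lit 0x100000001000000000000000100010001000000000000)))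 (.non (nat_lit 1) (nat_lit 5) (nat_lit 0x440140) (nat_lit 0x100000001000000000000000000010001000000000000))) (.non (nat_lit 1) (nat_lit 5) (nat_lit 0x440040) (nat_lit 0x100000001000000000000000000000001000000000000))) (.non (nat_lit 1) (nat_lit 5) (nat_lit 0x440050) (nat_lit 0x100000001000000000000000000000001000100000000))) (.non (nat_lit 2) (nat_lit 5) (nat_lit 0x515005) (nat_lit 0x100010000000200020001000000000000000000020003))) (.non (nat_lit 1) (nat_lit 5) (nat_lit 0x555001) (nat_lit 0x200010001000200020001000000000000000000000003))))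

noncomputable def t742_154 : Tr := (.ex (nat_lit 6) (.ex (nat_lit 8) (.split (nat_lit 8) (nat_lit 0) (.pd (.cons (nat_lit 3) (nat_lit 7) (nat_lit 0) (nat_lit 0x9005440100) (nat_lit 0xf423ff423f00000f423f54591437a200000f423f5459106711) .nil) t742_144) (.non (nat_lit 2) (nat_lit 5) (nat_lit 0x24005) (nat_lit 0x100010000000000000000000000010002))) (.split (nat_lit 0xa) (nat_lit 0) (.split (nat_lit 0xa) (nat_lit 1) (.split (nat_lit 0xa) (nat_lit 2) (.split (nat_lit 0xa) (nat_lit 3) (.split (nat_lit 0xa) (nat_lit 4) (.split (nat_lit 0xa) (nat_lit 6) (.split (nat_lit 0xa) (nat_lit 7) (.split (nat_lit 0xa) (nat_lit 9) (.split (nat_lit 0xa) (nat_lit 5) (.st (nat_lit 8) (nat_lit 2) (nat_lit 5) (nat_lit 0x114005) (nat_lit 0x10000000200010000000000000000000000010002) (nat_lit 1) (nat_lit 1) t742_153) (.sup (nat_lit 0x20009000a0005) (nat_lit 0x50000000000000008000a00020000000000000000))) (.non (nat_lit 1) (nat_lit 6) (nat_lit 0x154551) (nat_lit 0x40005000300010000000200040006000300000002))) (.non (nat_lit 1) (nat_lit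 5) (nat_lit 0x114001) (nat_lit 0x10000000100010000000000000000000000000001))) (.non (nat_lit 1) (nat_lit 5) (nat_lit 0x115001) (nat_lit 0x10000000100010001000000000000000000000001))) (.non (nat_lit 1) (nat_lit 6) (nat_lit 0x140550) (nat_lit 0x10001000000000000000100020002000100000000))) (.non (nat_lit 1) (nat_lit 5) (nat_lit 0x140150) (nat_lit 0x10001000000000000000000010002000100000000))) (.non (nat_lit 1) (nat_lit 6) (nat_lit 0x154551) (nat_lit 0x40003000300010000000200040006000500000002))) (.non (nat_lit 2) (nat_lit 5) (nat_lit 0x110005) (nat_lit 0x10000000100000000000000000000000000010001))) (.non (nat_lit 1) (nat_lit 5) (nat_lit 0x110001) (nat_lit 0x10000000100000000000000000000000000000001)))) (.split (nat_lit 0xa) (nat_lit 0) (.split (nat_lit 0xa) (nat_lit 1) (.split (nat_lit 0xa) (nat_lit 2) (.split (nat_lit 0xa) (nat_lit 3) (.split (nat_lit 0xa) (nat_lit 4) (.split (nat_lit 0xa) (nat_lit 7) (.split (nat_lit 0xa) (nat_lit 8) (.split (nat_lit 0xa) (nat_lit 5) (.split (nat_lit 0xa) (nat_lit 9) (.sup (nat_lit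 0x5000a00090002) (nat_lit 0x5000000000002000a000800000000000000000000)) (.sup (nat_lit 0x5000a00090002) (nat_lit 0x5000000000002000a000800000000000000000000))) (.split (nat_lit 0xa) (nat_lit 9) (.unj (nat_lit 0x101400) (nat_lit 0x10000000000000001000100000000000000000000) (nat_lit 0x55) (nat_lit 0x1000200020001)) (.non (nat_lit 1) (nat_lit 6) (nat_lit 0x140540) (nat_lit 0x10001000000000000000100010001000000000000)))) (.non (nat_lit 1) (nat_lit 5) (nat_lit 0x115001) (nat_lit 0x10000000100010001000000000000000000000001))) (.non (nat_lit 1) (nat_lit 5) (nat_lit 0x105000) (nat_lit 0x10000000000010001000000000000000000000000))) (.non (nat_lit 1) (nat_lit 6) (nat_lit 0x140550) (nat_lit 0x10001000000000000000100020002000100000000))) (.non (nat_lit 1) (nat_lit 5) (nat_lit 0x140150) (nat_lit 0x10001000000000000000000010002000100000000))) (.star (nat_lit 0xa) (nat_lit 2) (nat_lit 6))) (.star (nat_lit 0xa) (nat_lit 1) (nat_lit 6))) (.non (nat_lit 1) (nat_lit 5) (nat_lit 0x105001) (nat_lit 0x10000000000010001000000000000000000000001))))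

noncomputable def t742_155 : Tr := (.split (nat_lit 9) (nat_lit 8) (.st (nat_lit 3) (nat_lit 1) (nat_lit 5) (nat_lit 0x40150) (nat_lit 0x1000000000000000000010002000100000000) (nat_lit 1) (nat_lit 1) (.st (nat_lit 4) (nat_lit 1) (nat_lit 6) (nat_lit 0x40550) (nat_lit 0x1000000000000000100020002000100000000) (nat_lit 1) (nat_lit 1) (.ex (nat_lit 5) t742_154 (.split (nat_lit 0xa) (nat_lit 0) (.split (nat_lit 0xa) (nat_lit 1) (.split (nat_lit 0xa) (nat_lit 2) (.split (nat_lit 0xa) (nat_lit 3) (.split (nat_lit 0xa) (nat_lit 4) (.split (nat_lit 0xa) (nat_lit 7) (.split (nat_lit 0xa) (nat_lit 9) (.split (nat_lit 0xa) (nat_lit 6) (.split (nat_lit 0xa) (nat_lit 8) (.sup (nat_lit 0x20009000a0005) (nat_lit 0x50000000000000008000a00020000000000000000)) (.sup (nat_lit 0x20009000a0005) (nat_lit 0x50000000000000008000a00020000000000000000))) (.split (nat_lit 0xa) (nat_lit 8) (.unj (nat_lit 0x101400) (nat_lit 0x10000000000000001000100000000000000000000) (nat_lit 0x55) (nat_lit 0x1000200020001)) (.non (nat_lit 1) (nat_lit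 5) (nat_lit 0x115001) (nat_lit 0x10000000100010001000000000000000000000001)))) (.non (nat_lit 1) (nat_lit 6) (nat_lit 0x140540) (nat_lit 0x10001000000000000000100010001000000000000))) (.non (nat_lit 2) (nat_lit 5) (nat_lit 0x115005) (nat_lit 0x10000000100020001000000000000000000010002))) (.non (nat_lit 1) (nat_lit 6) (nat_lit 0x100500) (nat_lit 0x10000000000000000000100010000000000000000))) (.non (nat_lit 1) (nat_lit 5) (nat_lit 0x140150) (nat_lit 0x10001000000000000000000010002000100000000))) (.star (nat_lit 0xa) (nat_lit 2) (nat_lit 5))) (.star (nat_lit 0xa) (nat_lit 1) (nat_lit 5))) (.non (nat_lit 1) (nat_lit 6) (nat_lit 0x154551) (nat_lit 0x20001000100010000000200020002000100000002)))))) (.st (nat_lit 3) (nat_lit 1) (nat_lit 5) (nat_lit 0x40150) (nat_lit 0x1000000000000000000010002000100000000) (nat_lit 1) (nat_lit 1) (.st (nat_lit 4) (nat_lit 1) (nat_lit 5) (nat_lit 0x55151) (nat_lit 0x5000400020001000000040006000300000003) (nat_lit 1) (nat_lit 2) (.st (nat_lit 5) (nat_lit 1) (nat_lit 6) (nat_lit 0x50551)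 (nat_lit 0x3000200000000000200030004000200000001) (nat_lit 1) (nat_lit 1) (.st (nat_lit 6) (nat_lit 2) (nat_lit 5) (nat_lit 0x55045) (nat_lit 0x2000300030002000000000001000000020004) (nat_lit 1) (nat_lit 1) (.st (nat_lit 8) (nat_lit 1) (nat_lit 5) (nat_lit 0x55141) (nat_lit 0x3000400020001000000010002000000000003) (nat_lit 1) (nat_lit 2) (.st (nat_lit 9) (nat_lit 1) (nat_lit 5) (nat_lit 0x50150) (nat_lit 0x2000100000000000000010002000100000000) (nat_lit 1) (nat_lit 1) (.split (nat_lit 9) (nat_lit 3) (.split (nat_lit 9) (nat_lit 8) (.split (nat_lit 8) (nat_lit 0) (.split (nat_lit 7) (nat_lit 0) (.split (nat_lit 4) (nat_lit 3) (.leaf (.cons (nat_lit 0x50054) (nat_lit 0x2000100000000000000000003000400030000) (.cons (nat_lit 0x15401) (nat_lit 0x100030004000300000000000000000002) (.cons (nat_lit 0x41540) (nat_lit 0x1000000000003000400030002000000000000) (.cons (nat_lit 0x50015) (nat_lit 0x1000200000000000000000000000300040003) .nil)))) (.cons (nat_lit 0x1110111101) (nat_lit 0x1000010) (nat_lit 0xe) (nat_lit 0x4570320106)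 (.cons (nat_lit 0x1111011011) (nat_lit 0x100100) (nat_lit 0xe) (nat_lit 0x5423076010) .nil))) (.non (nat_lit 1) (nat_lit 5) (nat_lit 0x40250) (nat_lit 0x1000000000000000000010002000100000000))) (.non (nat_lit 1) (nat_lit 5) (nat_lit 0x5a001) (nat_lit 0x1000200020001000000000000000000000003))) (.non (nat_lit 1) (nat_lit 5) (nat_lit 0xa5001) (nat_lit 0x1000200020001000000000000000000000003))) (.non (nat_lit 1) (nat_lit 5) (nat_lit 0x60150) (nat_lit 0x2000100000000000000010002000100000000))) (.non (nat_lit 1) (nat_lit 5) (nat_lit 0x80150) (nat_lit 0x1000000000000000000010002000100000000))))))))))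

noncomputable def t742_156 : Tr := (.ex (nat_lit 2) (.ex (nat_lit 3) t742_141 (.split (nat_lit 9) (nat_lit 0) (.split (nat_lit 9) (nat_lit 2) (.split (nat_lit 9) (nat_lit 4) (.split (nat_lit 9) (nat_lit 5) (.split (nat_lit 9) (nat_lit 7) (.split (nat_lit 9) (nat_lit 1) (.split (nat_lit 9) (nat_lit 6) t742_155 (.split (nat_lit 9) (nat_lit 8) (.sup (nat_lit 0x5000000000009000a00050000000000000000) (nat_lit 0x3000100000000000000000008000a0007)) (.non (nat_lit 1) (nat_lit 5) (nat_lit 0x51150) (nat_lit 0x2000100000001000000010002000100000000)))) (.split (nat_lit 9) (nat_lit 6) (.split (nat_lit 9) (nat_lit 8) (.sup (nat_lit 0x50000000000000000000000000008000a0002) (nat_lit 0x20009000a00050000000000000000)) (.non (nat_lit 2) (nat_lit 5) (nat_lit 0x50005) (nat_lit 0x1000100000000000000000000000000010001))) (.star (nat_lit 9) (nat_lit 1) (nat_lit 6)))) (.non (nat_lit 1) (nat_lit 5) (nat_lit 0x45151) (nat_lit 0x2000000020001000000010002000100000001))) (.non (nat_lit 1) (nat_lit 6) (nat_lit 0x40540) (nat_lit 0x1000000000000000100010001000000000000)))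 (.non (nat_lit 1) (nat_lit 5) (nat_lit 0x40140) (nat_lit 0x1000000000000000000010001000000000000))) (.non (nat_lit 1) (nat_lit 5) (nat_lit 0x40050) (nat_lit 0x1000000000000000000000001000100000000))) (.non (nat_lit 1) (nat_lit 5) (nat_lit 0x54151) (nat_lit 0x2000100010000000000010002000100000002)))) (.split (nat_lit 9) (nat_lit 0) (.split (nat_lit 9) (nat_lit 3) (.split (nat_lit 9) (nat_lit 4) (.split (nat_lit 9) (nat_lit 5) (.split (nat_lit 9) (nat_lit 6) (.split (nat_lit 9) (nat_lit 7) (.split (nat_lit 9) (nat_lit 1) (.split (nat_lit 9) (nat_lit 8) (.sup (nat_lit 0x5000000000000000000000002000a00080000) (nat_lit 0x5000a000900020000000000000000)) (.sup (nat_lit 0x5000000000000000000000002000a00080000) (nat_lit 0x5000a000900020000000000000000))) (.split (nat_lit 9) (nat_lit 8) (.unj (nat_lit 0x40014) (nat_lit 0x1000000000000000000000000000100010000) (nat_lit 0x5500) (nat_lit 0x10002000200010000000000000000)) (.non (nat_lit 2) (nat_lit 5) (nat_lit 0x50005) (nat_lit 0x1000100000000000000000000000000010001))))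 (.non (nat_lit 2) (nat_lit 5) (nat_lit 0x55005) (nat_lit 0x1000100020001000000000000000000010002))) (.star (nat_lit 9) (nat_lit 2) (nat_lit 6))) (.star (nat_lit 9) (nat_lit 2) (nat_lit 5))) (.non (nat_lit 1) (nat_lit 5) (nat_lit 0x40150) (nat_lit 0x1000000000000000000010001000100000000))) (.non (nat_lit 1) (nat_lit 5) (nat_lit 0x40050) (nat_lit 0x1000000000000000000000001000100000000))) (.non (nat_lit 2) (nat_lit 5) (nat_lit 0x54005) (nat_lit 0x1000100010000000000000000000000010002))))

noncomputable def t742_157 : Tr := (.split (nat_lit 9) (nat_lit 0) (.split (nat_lit 9) (nat_lit 1) (.split (nat_lit 9) (nat_lit 2) (.split (nat_lit 9) (nat_lit 4) (.split (nat_lit 9) (nat_lit 5) (.split (nat_lit 9) (nat_lit 7) (.split (nat_lit 9) (nat_lit 8) (.split (nat_lit 9) (nat_lit 6) (.sup (nat_lit 0x50005000a000900000000000000000000) (nat_lit 0x3000000000000000000010007000a00080000)) (.st (nat_lit 3) (nat_lit 1) (nat_lit 5) (nat_lit 0x40150) (nat_lit 0x1000000000000000000010002000100000000) (nat_lit 1) (nat_lit 1) (.st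 (nat_lit 6) (nat_lit 1) (nat_lit 5) (nat_lit 0x45150) (nat_lit 0x2000000010002000000010002000100000000) (nat_lit 1) (nat_lit 1) (.st (nat_lit 9) (nat_lit 1) (nat_lit 5) (nat_lit 0x41150) (nat_lit 0x2000000000001000000010002000100000000) (nat_lit 1) (nat_lit 1) (.split (nat_lit 9) (nat_lit 3) (.split (nat_lit 9) (nat_lit 6) (.split (nat_lit 8) (nat_lit 0) (.split (nat_lit 7) (nat_lit 0) (.split (nat_lit 4) (nat_lit 3) (.leaf (.cons (nat_lit 0x51400) (nat_lit 0x1000100000002000200000000000000000000) (.cons (nat_lit 0x41054) (nat_lit 0x2000000000001000000000003000400030000) (.cons (nat_lit 0x40154) (nat_lit 0x1000000000000000000010002000200020000) (.cons (nat_lit 0x14015) (nat_lit 0x100010000000000000000000200020002) .nil)))) (.cons (nat_lit 0x1111011101) (nat_lit 0x100010) (nat_lit 0xb) (nat_lit 0x3754020106) (.cons (nat_lit 0x1111011011) (nat_lit 0x100100) (nat_lit 0xb) (nat_lit 0x5234076010) .nil))) (.non (nat_lit 1) (nat_lit 5) (nat_lit 0x40250) (nat_lit 0x1000000000000000000010002000100000000))) (.non (nat_lit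 1) (nat_lit 5) (nat_lit 0x9a001) (nat_lit 0x1000200030002000000000000000000000004))) (.non (nat_lit 1) (nat_lit 5) (nat_lit 0x65151) (nat_lit 0x2000100020002000000010002000100000002))) (.non (nat_lit 1) (nat_lit 5) (nat_lit 0x4a140) (nat_lit 0x3000000010002000000010002000000000000))) (.non (nat_lit 1) (nat_lit 5) (nat_lit 0x8a140) (nat_lit 0x3000000010002000000020004000000000000))))))) (.non (nat_lit 1) (nat_lit 6) (nat_lit 0x50540) (nat_lit 0x1000100000000000100010001000000000000))) (.non (nat_lit 1) (nat_lit 5) (nat_lit 0x45151) (nat_lit 0x2000000020001000000010002000100000001))) (.non (nat_lit 1) (nat_lit 6) (nat_lit 0x40540) (nat_lit 0x1000000000000000100010001000000000000))) (.non (nat_lit 1) (nat_lit 5) (nat_lit 0x40140) (nat_lit 0x1000000000000000000010001000000000000))) (.non (nat_lit 1) (nat_lit 5) (nat_lit 0x40050) (nat_lit 0x1000000000000000000000001000100000000))) (.non (nat_lit 2) (nat_lit 6) (nat_lit 0x50545) (nat_lit 0x1000100000000000100010001000000010001))) (.non (nat_lit 1) (nat_lit 5) (nat_lit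 0x54151) (nat_lit 0x2000100010000000000010002000100000002)))

noncomputable def t742_158 : Tr := (.ex (nat_lit 1) (.ex (nat_lit 2) (.ex (nat_lit 3) (.split (nat_lit 4) (nat_lit 3) (.pd (.cons (nat_lit 0) (nat_lit 5) (nat_lit 0) (nat_lit 0x866032110) (nat_lit 0xf423ff423fb71ae00000f423fb71aea2c280473700000) .nil) (.split (nat_lit 8) (nat_lit 0) (.split (nat_lit 7) (nat_lit 0) (.split (nat_lit 8) (nat_lit 5) (.leaf (.cons (nat_lit 0x15400) (nat_lit 0x100010002000200000000000000000000) (.cons (nat_lit 0x554) (nat_lit 0x100020003000400030000) (.cons (nat_lit 0x11500) (nat_lit 0x100000002000200010000000000000000) (.cons (nat_lit 0x14015) (nat_lit 0x100010000000000000000000200020002) .nil)))) (.cons (nat_lit 0x110111101) (nat_lit 0x1000010) (nat_lit 5) (nat_lit 0x460321005) .nil)) (.non (nat_lit 1) (nat_lit 6) (nat_lit 0x14a01) (nat_lit 0x300010000000200010000000000000002))) (.non (nat_lit 2) (nat_lit 5) (nat_lit 0x18005) (nat_lit 0x100010000000000000000000000010002))) (.non (nat_lit 1) (nat_lit 6) (nat_lit 0x24a01)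 (nat_lit 0x300020000000200010000000000000004)))) (.non (nat_lit 1) (nat_lit 6) (nat_lit 0x20a50) (nat_lit 0x100000000000200030004000200000000))) t742_157) (.split (nat_lit 9) (nat_lit 0) (.split (nat_lit 9) (nat_lit 3) (.split (nat_lit 9) (nat_lit 4) (.split (nat_lit 9) (nat_lit 5) (.split (nat_lit 9) (nat_lit 6) (.split (nat_lit 9) (nat_lit 7) (.split (nat_lit 9) (nat_lit 8) (.split (nat_lit 9) (nat_lit 1) (.unj (nat_lit 0x40054) (nat_lit 0x1000000000000000000000001000200020000) (nat_lit 0x15400) (nat_lit 0x100010002000200000000000000000000)) (.unj (nat_lit 0x40014) (nat_lit 0x1000000000000000000000000000100010000) (nat_lit 0x5500) (nat_lit 0x10002000200010000000000000000))) (.non (nat_lit 1) (nat_lit 6) (nat_lit 0x50550) (nat_lit 0x1000100000000000100010001000100000000))) (.non (nat_lit 1) (nat_lit 6) (nat_lit 0x54551) (nat_lit 0x1000100010000000100010001000100000001))) (.star (nat_lit 9) (nat_lit 2) (nat_lit 6))) (.star (nat_lit 9) (nat_lit 2) (nat_lit 5))) (.non (nat_lit 1) (nat_lit 5) (nat_lit 0x40150)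 (nat_lit 0x1000000000000000000010001000100000000))) (.non (nat_lit 1) (nat_lit 5) (nat_lit 0x40050) (nat_lit 0x1000000000000000000000001000100000000))) (.non (nat_lit 1) (nat_lit 6) (nat_lit 0x50551) (nat_lit 0x1000100000000000100010001000100000001)))) (.split (nat_lit 9) (nat_lit 0) (.split (nat_lit 9) (nat_lit 3) (.split (nat_lit 9) (nat_lit 4) (.split (nat_lit 9) (nat_lit 5) (.split (nat_lit 9) (nat_lit 6) (.split (nat_lit 9) (nat_lit 7) (.split (nat_lit 9) (nat_lit 8) (.split (nat_lit 9) (nat_lit 2) (.unj (nat_lit 0x40054) (nat_lit 0x1000000000000000000000001000200020000) (nat_lit 0x15400) (nat_lit 0x100010002000200000000000000000000)) (.unj (nat_lit 0x40014) (nat_lit 0x1000000000000000000000000000100010000) (nat_lit 0x5500) (nat_lit 0x10002000200010000000000000000))) (.non (nat_lit 2) (nat_lit 5) (nat_lit 0x50005) (nat_lit 0x1000100000000000000000000000000010001))) (.non (nat_lit 2) (nat_lit 5) (nat_lit 0x44005) (nat_lit 0x1000000010000000000000000000000010001))) (.star (nat_lit 9) (nat_lit 1) (nat_lit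 6))) (.star (nat_lit 9) (nat_lit 1) (nat_lit 5))) (.non (nat_lit 2) (nat_lit 6) (nat_lit 0x50505) (nat_lit 0x1000100000000000100010000000000010001))) (.non (nat_lit 2) (nat_lit 6) (nat_lit 0x50545) (nat_lit 0x1000100000000000100010001000000010001))) (.non (nat_lit 2) (nat_lit 5) (nat_lit 0x40005) (nat_lit 0x1000000000000000000000000000000010001))))

noncomputable def t742_159 : Tr := (.split (nat_lit 8) (nat_lit 5) (.st (nat_lit 0) (nat_lit 1) (nat_lit 5) (nat_lit 0x14151) (nat_lit 0x200010000000000010002000100000002) (nat_lit 1) (nat_lit 1) (.st (nat_lit 1) (nat_lit 2) (nat_lit 5) (nat_lit 0x15045) (nat_lit 0x200020001000000000001000000020003) (nat_lit 1) (nat_lit 1) (.st (nat_lit 2) (nat_lit 1) (nat_lit 6) (nat_lit 0x10551) (nat_lit 0x200000000000100020003000200000001) (nat_lit 1) (nat_lit 1) (.st (nat_lit 3) (nat_lit 1) (nat_lit 5) (nat_lit 0x10150) (nat_lit 0x100000000000000010002000100000000) (nat_lit 1) (nat_lit 1) (.st (nat_lit 4) (nat_lit 1) (nat_lit 6) (nat_lit 0x10550) (nat_lit 0x100000000000100020002000100000000)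 (nat_lit 1) (nat_lit 1) (.st (nat_lit 5) (nat_lit 1) (nat_lit 6) (nat_lit 0x14551) (nat_lit 0x300010000000200030004000200000002) (nat_lit 1) (nat_lit 1) (.st (nat_lit 6) (nat_lit 2) (nat_lit 5) (nat_lit 0x15145) (nat_lit 0x300030002000000010002000000020004) (nat_lit 1) (nat_lit 1) (.st (nat_lit 7) (nat_lit 1) (nat_lit 5) (nat_lit 0x15151) (nat_lit 0x200020001000000010002000100000002) (nat_lit 1) (nat_lit 1) (.st (nat_lit 8) (nat_lit 1) (nat_lit 5) (nat_lit 0x10151) (nat_lit 0x200000000000000010002000100000001) (nat_lit 1) (nat_lit 1) (.split (nat_lit 8) (nat_lit 3) (.split (nat_lit 8) (nat_lit 0) (.pd (.cons (nat_lit 0) (nat_lit 4) (nat_lit 0) (nat_lit 0x365502110) (nat_lit 0xf423ff423fb71ae1f15600000b71aea2c280473700000) (.cons (nat_lit 3) (nat_lit 7) (nat_lit 0) (nat_lit 0x5440100) (nat_lit 0xf423f00000f423f54591437a200000f423f5459106711) .nil)) (.split (nat_lit 7) (nat_lit 0) (.split (nat_lit 4) (nat_lit 3) (.leaf (.cons (nat_lit 0x10154) (nat_lit 0x100000000000000010002000200020000) (.cons (nat_lit 0x15401)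 (nat_lit 0x100030004000300000000000000000002) (.cons (nat_lit 0x11540) (nat_lit 0x100000003000400030002000000000000) (.cons (nat_lit 0x14015) (nat_lit 0x100010000000000000000000200020002) .nil)))) (.cons (nat_lit 0x110111101) (nat_lit 0x1000010) (nat_lit 0xd) (nat_lit 0x460320105) (.cons (nat_lit 0x111011011) (nat_lit 0x100100) (nat_lit 0xd) (nat_lit 0x423065010) .nil))) (.non (nat_lit 1) (nat_lit 5) (nat_lit 0x10250) (nat_lit 0x100000000000000010002000100000000))) (.non (nat_lit 1) (nat_lit 5) (nat_lit 0x1a041) (nat_lit 0x200020001000000000001000000000003)))) (.non (nat_lit 1) (nat_lit 5) (nat_lit 0x25081) (nat_lit 0x200020001000000000001000000000003))) (.non (nat_lit 1) (nat_lit 5) (nat_lit 0x20150) (nat_lit 0x100000000000000010002000100000000)))))))))))) (.non (nat_lit 1) (nat_lit 6) (nat_lit 0x10540) (nat_lit 0x100000000000100010001000000000000)))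

noncomputable def t742_160 : Tr := (.split (nat_lit 8) (nat_lit 2) (.split (nat_lit 8) (nat_lit 3) (.split (nat_lit 8) (nat_lit 5) (.st (nat_lit 0) (nat_lit 2) (nat_lit 5) (nat_lit 0x14005) (nat_lit 0x100010000000000000000000000010002) (nat_lit 1) (nat_lit 1) (.st (nat_lit 7) (nat_lit 2) (nat_lit 5) (nat_lit 0x15005) (nat_lit 0x100020001000000000000000000010002) (nat_lit 1) (nat_lit 1) (.ex (nat_lit 1) t742_156 (.split (nat_lit 9) (nat_lit 0) (.split (nat_lit 9) (nat_lit 4) (.split (nat_lit 9) (nat_lit 5) (.split (nat_lit 9) (nat_lit 6) (.split (nat_lit 9) (nat_lit 7) (.split (nat_lit 9) (nat_lit 8) (.split (nat_lit 9) (nat_lit 2) (.split (nat_lit 9) (nat_lit 3) (.sup (nat_lit 0x50000000000000000000000000008000a0002) (nat_lit 0x20009000a00050000000000000000)) (.sup (nat_lit 0x50000000000000000000000000008000a0002) (nat_lit 0x20009000a00050000000000000000))) (.split (nat_lit 9) (nat_lit 3) (.unj (nat_lit 0x40014) (nat_lit 0x1000000000000000000000000000100010000) (nat_lit 0x5500) (nat_lit 0x10002000200010000000000000000))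 (.non (nat_lit 1) (nat_lit 5) (nat_lit 0x40050) (nat_lit 0x1000000000000000000000001000100000000)))) (.non (nat_lit 2) (nat_lit 5) (nat_lit 0x50005) (nat_lit 0x1000100000000000000000000000000010001))) (.non (nat_lit 2) (nat_lit 5) (nat_lit 0x44005) (nat_lit 0x1000000010000000000000000000000010001))) (.star (nat_lit 9) (nat_lit 1) (nat_lit 6))) (.star (nat_lit 9) (nat_lit 1) (nat_lit 5))) (.non (nat_lit 2) (nat_lit 6) (nat_lit 0x54545) (nat_lit 0x2000100010000000100020001000000020002))) (.non (nat_lit 2) (nat_lit 5) (nat_lit 0x40005) (nat_lit 0x1000000000000000000000000000000010001)))))) (.st (nat_lit 4) (nat_lit 2) (nat_lit 6) (nat_lit 0x14545) (nat_lit 0x200010000000200020001000000010002) (nat_lit 1) (nat_lit 1) (.st (nat_lit 0) (nat_lit 2) (nat_lit 5) (nat_lit 0x14005) (nat_lit 0x100010000000000000000000000010002) (nat_lit 1) (nat_lit 1) (.st (nat_lit 5) (nat_lit 1) (nat_lit 6) (nat_lit 0x14551) (nat_lit 0x300010000000400030002000100000002) (nat_lit 1) (nat_lit 2) (.st (nat_lit 7) (nat_lit 2) (nat_lit 5)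 (nat_lit 0x15005) (nat_lit 0x100020001000000000000000000010002) (nat_lit 1) (nat_lit 1) (.st (nat_lit 8) (nat_lit 2) (nat_lit 6) (nat_lit 0x14405) (nat_lit 0x200010000000100000000000000010002) (nat_lit 1) (nat_lit 1) t742_158)))))) t742_159) (.split (nat_lit 8) (nat_lit 3) (.split (nat_lit 8) (nat_lit 5) (.sup (nat_lit 0x300000000000000000000000500040001) (nat_lit 0x10005000500030000000000000000)) (.star (nat_lit 8) (nat_lit 2) (nat_lit 5))) (.non (nat_lit 1) (nat_lit 5) (nat_lit 0x10050) (nat_lit 0x100000000000000000001000100000000))))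

noncomputable def t742_161 : Tr := (.split (nat_lit 4) (nat_lit 3) (.split (nat_lit 7) (nat_lit 0) (.sup (nat_lit 0x5000a00090002) (nat_lit 0x20009000a00050000000000000000)) (.split (nat_lit 7) (nat_lit 0) (.sup (nat_lit 0x5000a00090002) (nat_lit 0x20009000a00050000000000000000)) (.non (nat_lit 2) (nat_lit 5) (nat_lit 0x5005) (nat_lit 0x20001000000000000000000010002)))) (.ex (nat_lit 0) (.ex (nat_lit 1) t742_130 (.split (nat_lit 8) (nat_lit 0) (.split (nat_lit 8) (nat_lit 5) (.split (nat_lit 8) (nat_lit 6) (.split (nat_lit 8) (nat_lit 7) (.split (nat_lit 8) (nat_lit 2) (.split (nat_lit 8) (nat_lit 3) (.split (nat_lit 8) (nat_lit 4) (.sup (nat_lit 0x5000000000000000000000008000a0002) (nat_lit 0x20009000a00050000000000000000)) (.st (nat_lit 1) (nat_lit 2) (nat_lit 5) (nat_lit 0x15145) (nat_lit 0x300020001000000020001000000040003) (nat_lit 1) (nat_lit 2) (.st (nat_lit 3) (nat_lit 1) (nat_lit 6) (nat_lit 0x10550) (nat_lit 0x100000000000100020002000100000000) (nat_lit 1) (nat_lit 1) (.st (nat_lit 4) (nat_lit 1)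 (nat_lit 6) (nat_lit 0x10540) (nat_lit 0x100000000000100020001000000000000) (nat_lit 1) (nat_lit 1) (.st (nat_lit 8) (nat_lit 2) (nat_lit 6) (nat_lit 0x10544) (nat_lit 0x200000000000100020001000000010000) (nat_lit 1) (nat_lit 1) t742_132))))) (.split (nat_lit 8) (nat_lit 4) (.sup (nat_lit 0x5000000000000000000000008000a0002) (nat_lit 0x20009000a00050000000000000000)) (.non (nat_lit 1) (nat_lit 5) (nat_lit 0x10140) (nat_lit 0x100000000000000010001000000000000)))) (.split (nat_lit 8) (nat_lit 3) (.split (nat_lit 8) (nat_lit 4) (.unj (nat_lit 0x10014) (nat_lit 0x100000000000000000000000100010000) (nat_lit 0x5500) (nat_lit 0x10002000200010000000000000000)) (.non (nat_lit 1) (nat_lit 5) (nat_lit 0x10150) (nat_lit 0x100000000000000010001000100000000))) (.non (nat_lit 1) (nat_lit 5) (nat_lit 0x10050) (nat_lit 0x100000000000000000001000100000000)))) (.non (nat_lit 2) (nat_lit 5) (nat_lit 0x14005) (nat_lit 0x100010000000000000000000000010001))) (.star (nat_lit 8) (nat_lit 1) (nat_lit 6))) (.star (nat_lit 8) (nat_lit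 1) (nat_lit 5))) (.non (nat_lit 2) (nat_lit 5) (nat_lit 0x10005) (nat_lit 0x100000000000000000000000000010001)))) (.split (nat_lit 8) (nat_lit 1) (.split (nat_lit 8) (nat_lit 4) (.split (nat_lit 8) (nat_lit 6) (.split (nat_lit 8) (nat_lit 7) t742_160 (.non (nat_lit 1) (nat_lit 5) (nat_lit 0x14001) (nat_lit 0x100010000000000000000000000000001))) (.non (nat_lit 1) (nat_lit 5) (nat_lit 0x15001) (nat_lit 0x100010001000000000000000000000001))) (.non (nat_lit 2) (nat_lit 6) (nat_lit 0x14545) (nat_lit 0x200010000000100020001000000010002))) (.non (nat_lit 2) (nat_lit 5) (nat_lit 0x10005) (nat_lit 0x100000000000000000000000000010001)))))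

noncomputable def t742_162 : Tr := (.ex (nat_lit 5) (.ex (nat_lit 6) (.split (nat_lit 7) (nat_lit 0) (.split (nat_lit 4) (nat_lit 0) (.pd (.cons (nat_lit 0) (nat_lit 4) (nat_lit 0) (nat_lit 0x65502110) (nat_lit 0xf423fb71ae1f15600000f423fb71ae1f15600000) (.cons (nat_lit 0) (nat_lit 7) (nat_lit 0) (nat_lit 0x5442110) (nat_lit 0xf423f54591437a2f423fb71ae1f15600000) (.cons (nat_lit 1) (nat_lit 4) (nat_lit 0) (nat_lit 0x7602200) (nat_lit 0x437a254591f423f00000f423fb71ae00000174ea) (.cons (nat_lit 1) (nat_lit 7) (nat_lit 0) (nat_lit 0x5402200) (nat_lit 0xf423f54591437a2f423fb71ae00000174ea) .nil)))) (.leaf (.cons (nat_lit 0x5405) (nat_lit 0x30004000300000000000000010002) (.cons (nat_lit 0x1505) (nat_lit 0x3000400030000000000010002) (.cons (nat_lit 0x5015) (nat_lit 0x20001000000000000000300040003) (.cons (nat_lit 0x4115) (nat_lit 0x10000000000010000000200020002) .nil)))) .nil)) (.non (nat_lit 2) (nat_lit 5) (nat_lit 0x4205) (nat_lit 0x10000000000010000000000010002))) (.non (nat_lit 2) (nat_lit 5) (nat_lit 0x8105)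 (nat_lit 0x10000000000010000000000010002))) (.split (nat_lit 8) (nat_lit 0) (.split (nat_lit 8) (nat_lit 1) (.split (nat_lit 8) (nat_lit 2) (.split (nat_lit 8) (nat_lit 3) (.split (nat_lit 8) (nat_lit 4) (.split (nat_lit 8) (nat_lit 7) (.split (nat_lit 8) (nat_lit 5) (.sup (nat_lit 0x5000a00090002) (nat_lit 0x50002000a000800000000000000000000)) (.unj (nat_lit 0x11400) (nat_lit 0x100000001000100000000000000000000) (nat_lit 0x55) (nat_lit 0x1000200020001))) (.non (nat_lit 1) (nat_lit 5) (nat_lit 0x15000) (nat_lit 0x100010001000000000000000000000000))) (.non (nat_lit 1) (nat_lit 5) (nat_lit 0x15101) (nat_lit 0x100010001000000010000000000000001))) (.non (nat_lit 0) (nat_lit 5) (nat_lit 0x11054) (nat_lit 0x200000001000000000003000400030000))) (.star (nat_lit 8) (nat_lit 2) (nat_lit 6))) (.star (nat_lit 8) (nat_lit 1) (nat_lit 6))) (.non (nat_lit 1) (nat_lit 5) (nat_lit 0x15001) (nat_lit 0x100010001000000000000000000000001)))) (.split (nat_lit 8) (nat_lit 0) (.split (nat_lit 8) (nat_lit 1) (.split (nat_lit 8) (nat_lit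 2) (.split (nat_lit 8) (nat_lit 3) (.split (nat_lit 8) (nat_lit 4) (.split (nat_lit 8) (nat_lit 7) (.split (nat_lit 8) (nat_lit 6) (.sup (nat_lit 0x5000a00090002) (nat_lit 0x500000008000a00020000000000000000)) (.unj (nat_lit 0x11400) (nat_lit 0x100000001000100000000000000000000) (nat_lit 0x55) (nat_lit 0x1000200020001))) (.non (nat_lit 1) (nat_lit 6) (nat_lit 0x14501) (nat_lit 0x100010000000100010000000000000001))) (.non (nat_lit 1) (nat_lit 6) (nat_lit 0x10500) (nat_lit 0x100000000000100010000000000000000))) (.non (nat_lit 0) (nat_lit 6) (nat_lit 0x10454) (nat_lit 0x200000000000100000003000400030000))) (.star (nat_lit 8) (nat_lit 2) (nat_lit 5))) (.star (nat_lit 8) (nat_lit 1) (nat_lit 5))) (.non (nat_lit 1) (nat_lit 6) (nat_lit 0x10501) (nat_lit 0x100000000000100010000000000000001))))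

noncomputable def t742_163 : Tr := (.split (nat_lit 9) (nat_lit 0) (.split (nat_lit 9) (nat_lit 1) (.split (nat_lit 9) (nat_lit 2) (.split (nat_lit 9) (nat_lit 4) (.split (nat_lit 9) (nat_lit 6) (.split (nat_lit 9) (nat_lit 7) (.split (nat_lit 9) (nat_lit 8) (.split (nat_lit 9) (nat_lit 5) (.sup (nat_lit 0x25004a005000280000000000000000) (nat_lit 0x1c000300000000000000000037005000410000)) (.st (nat_lit 3) (nat_lit 1) (nat_lit 5) (nat_lit 0x50050) (nat_lit 0x1000100000000000000000002000100000000) (nat_lit 1) (nat_lit 1) (.st (nat_lit 5) (nat_lit 1) (nat_lit 6) (nat_lit 0x50550) (nat_lit 0x2000100000000000200010002000100000000) (nat_lit 1) (nat_lit 1) (.st (nat_lit 9) (nat_lit 1) (nat_lit 5) (nat_lit 0x55151) (nat_lit 0x4000500030004000000010006000300000002) (nat_lit 1) (nat_lit 2) (.split (nat_lit 9) (nat_lit 3) (.split (nat_lit 8) (nat_lit 3) (.split (nat_lit 8) (nat_lit 6) (.split (nat_lit 7) (nat_lit 0) (.split (nat_lit 4) (nat_lit 0) (.leaf (.cons (nat_lit 0x51400) (nat_lit 0x1000100000002000200000000000000000000)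 (.cons (nat_lit 0x50054) (nat_lit 0x1000100000000000000000002000200020000) (.cons (nat_lit 0x5015) (nat_lit 0x20001000000000000000300040003) (.cons (nat_lit 0x4115) (nat_lit 0x10000000000010000000200020002) .nil)))) (.cons (nat_lit 0x1111011101) (nat_lit 0x100010) (nat_lit 0xb) (nat_lit 0x2354070106) (.cons (nat_lit 0x1111011011) (nat_lit 0x100100) (nat_lit 0xb) (nat_lit 0x7534026010) .nil))) (.non (nat_lit 1) (nat_lit 5) (nat_lit 0x55251) (nat_lit 0x1000200020002000000010002000100000002))) (.non (nat_lit 1) (nat_lit 5) (nat_lit 0x2a101) (nat_lit 0x100030002000000020000000000000004))) (.non (nat_lit 1) (nat_lit 5) (nat_lit 0x5a040) (nat_lit 0x1000300010002000000000002000000000000))) (.non (nat_lit 1) (nat_lit 5) (nat_lit 0x6a040) (nat_lit 0x2000300010002000000000004000000000000))) (.non (nat_lit 1) (nat_lit 5) (nat_lit 0x90050) (nat_lit 0x1000100000000000000000002000100000000))))))) (.non (nat_lit 1) (nat_lit 5) (nat_lit 0x50040) (nat_lit 0x1000100000000000000000001000000000000))) (.non (nat_lit 1) (nat_lit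 5) (nat_lit 0x55040) (nat_lit 0x1000100010001000000000001000000000000))) (.non (nat_lit 1) (nat_lit 5) (nat_lit 0x51040) (nat_lit 0x1000100000001000000000001000000000000))) (.non (nat_lit 1) (nat_lit 5) (nat_lit 0x55141) (nat_lit 0x1000100010001000000010001000000000001))) (.non (nat_lit 1) (nat_lit 5) (nat_lit 0x40050) (nat_lit 0x1000000000000000000000001000100000000))) (.non (nat_lit 2) (nat_lit 5) (nat_lit 0x55045) (nat_lit 0x1000100010001000000000001000000010001))) (.non (nat_lit 1) (nat_lit 5) (nat_lit 0x55041) (nat_lit 0x1000100010001000000000001000000000001)))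

noncomputable def t742_164 : Tr := (.split (nat_lit 9) (nat_lit 0) (.split (nat_lit 9) (nat_lit 1) (.split (nat_lit 9) (nat_lit 2) (.split (nat_lit 9) (nat_lit 4) (.split (nat_lit 9) (nat_lit 5) (.split (nat_lit 9) (nat_lit 7) (.split (nat_lit 9) (nat_lit 8) (.split (nat_lit 9) (nat_lit 6) (.sup (nat_lit 0x280050004a00250000000000000000) (nat_lit 0x1c000300000000000000000037005000410000)) (.st (nat_lit 3) (nat_lit 1) (nat_lit 5) (nat_lit 0x50050) (nat_lit 0x1000100000000000000000002000100000000) (nat_lit 1) (nat_lit 1) (.st (nat_lit 6) (nat_lit 1) (nat_lit 5) (nat_lit 0x55050) (nat_lit 0x2000100010002000000000002000100000000) (nat_lit 1) (nat_lit 1) (.st (nat_lit 9) (nat_lit 1) (nat_lit 5) (nat_lit 0x51050) (nat_lit 0x2000100000001000000000002000100000000) (nat_lit 1) (nat_lit 1) (.split (nat_lit 9) (nat_lit 3) (.split (nat_lit 9) (nat_lit 6) (.split (nat_lit 8) (nat_lit 3) (.split (nat_lit 7) (nat_lit 0) (.split (nat_lit 4) (nat_lit 0) (.leaf (.cons (nat_lit 0x51400) (nat_lit 0x1000100000002000200000000000000000000)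 (.cons (nat_lit 0x50054) (nat_lit 0x1000100000000000000000002000200020000) (.cons (nat_lit 0x5015) (nat_lit 0x20001000000000000000300040003) (.cons (nat_lit 0x4115) (nat_lit 0x10000000000010000000200020002) .nil)))) (.cons (nat_lit 0x1111011101) (nat_lit 0x100010) (nat_lit 0xb) (nat_lit 0x3254070106) (.cons (nat_lit 0x1111011011) (nat_lit 0x100100) (nat_lit 0xb) (nat_lit 0x5734026010) .nil))) (.non (nat_lit 1) (nat_lit 5) (nat_lit 0x55251) (nat_lit 0x2000100020002000000010002000100000002))) (.non (nat_lit 1) (nat_lit 5) (nat_lit 0x8a101) (nat_lit 0x1000000030002000000020000000000000004))) (.non (nat_lit 1) (nat_lit 5) (nat_lit 0x60050) (nat_lit 0x1000100000000000000000002000100000000))) (.non (nat_lit 1) (nat_lit 5) (nat_lit 0x5a040) (nat_lit 0x3000100010002000000000002000000000000))) (.non (nat_lit 1) (nat_lit 5) (nat_lit 0x9a040) (nat_lit 0x3000200010002000000000004000000000000))))))) (.non (nat_lit 1) (nat_lit 5) (nat_lit 0x50040) (nat_lit 0x1000100000000000000000001000000000000))) (.non (nat_lit 1) (nat_lit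 5) (nat_lit 0x55051) (nat_lit 0x2000100020001000000000002000100000001))) (.non (nat_lit 1) (nat_lit 6) (nat_lit 0x50440) (nat_lit 0x1000100000000000100000001000000000000))) (.non (nat_lit 1) (nat_lit 6) (nat_lit 0x50540) (nat_lit 0x1000100000000000100010001000000000000))) (.non (nat_lit 1) (nat_lit 5) (nat_lit 0x40050) (nat_lit 0x1000000000000000000000001000100000000))) (.non (nat_lit 2) (nat_lit 6) (nat_lit 0x50545) (nat_lit 0x1000100000000000100010001000000010001))) (.non (nat_lit 1) (nat_lit 5) (nat_lit 0x54151) (nat_lit 0x2000100010000000000010002000100000002)))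

noncomputable def t742_165 : Tr := (.split (nat_lit 8) (nat_lit 5) (.split (nat_lit 8) (nat_lit 6) (.split (nat_lit 8) (nat_lit 3) (.split (nat_lit 7) (nat_lit 0) (.sup (nat_lit 0x20006000600020000000000000000) (nat_lit 0x300000000000000000005000800070001)) (.non (nat_lit 2) (nat_lit 5) (nat_lit 0x8105) (nat_lit 0x10000000000010000000000010002))) (.unj (nat_lit 0x10054) (nat_lit 0x100000000000000000001000100010000) (nat_lit 0x5500) (nat_lit 0x10002000200010000000000000000))) (.st (nat_lit 8) (nat_lit 2) (nat_lit 5) (nat_lit 0x15145) (nat_lit 0x200020002000000010001000000010002) (nat_lit 1) (nat_lit 1) (.st (nat_lit 6) (nat_lit 1) (nat_lit 5) (nat_lit 0x15151) (nat_lit 0x300030004000000010002000100000002) (nat_lit 1) (nat_lit 2) (.ex (nat_lit 3) (.split (nat_lit 8) (nat_lit 3) (.pd (.cons (nat_lit 0) (nat_lit 6) (nat_lit 0) (nat_lit 0x370442110) (nat_lit 0xf423ff423f00000f423fb71aeb71aea2c280473700000) .nil) (.split (nat_lit 8) (nat_lit 6) (.split (nat_lit 7) (nat_lit 0) (.split (nat_lit 4) (nat_lit 0) (.leaf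 (.cons (nat_lit 0x15400) (nat_lit 0x100010002000200000000000000000000) (.cons (nat_lit 0x11054) (nat_lit 0x200000001000000000003000400030000) (.cons (nat_lit 0x11500) (nat_lit 0x100000002000200010000000000000000) (.cons (nat_lit 0x5015) (nat_lit 0x20001000000000000000300040003) (.cons (nat_lit 0x4115) (nat_lit 0x10000000000010000000200020002) .nil))))) (.cons (nat_lit 0x111011101) (nat_lit 0x100010) (nat_lit 5) (nat_lit 0x243061005) .nil)) (.non (nat_lit 2) (nat_lit 5) (nat_lit 0x4205) (nat_lit 0x10000000000010000000000010002))) (.non (nat_lit 1) (nat_lit 5) (nat_lit 0x2a101) (nat_lit 0x100030002000000020000000000000004))) (.non (nat_lit 1) (nat_lit 5) (nat_lit 0x1a050) (nat_lit 0x300010002000000000002000100000000)))) (.non (nat_lit 1) (nat_lit 5) (nat_lit 0x2a050) (nat_lit 0x300010002000000000004000200000000))) t742_163)))) (.split (nat_lit 8) (nat_lit 6) (.st (nat_lit 8) (nat_lit 2) (nat_lit 6) (nat_lit 0x14545) (nat_lit 0x200010000000200020001000000010002) (nat_lit 1) (nat_lit 1) (.st (nat_lit 5) (nat_lit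 1) (nat_lit 6) (nat_lit 0x14551) (nat_lit 0x300010000000400030002000100000002) (nat_lit 1) (nat_lit 2) (.ex (nat_lit 3) (.split (nat_lit 8) (nat_lit 3) (.pd (.cons (nat_lit 0) (nat_lit 5) (nat_lit 0) (nat_lit 0x366042110) (nat_lit 0xf423ff423fb71ae00000f423fb71aea2c280473700000) .nil) (.split (nat_lit 7) (nat_lit 0) (.split (nat_lit 4) (nat_lit 0) (.split (nat_lit 8) (nat_lit 5) (.leaf (.cons (nat_lit 0x15400) (nat_lit 0x100010002000200000000000000000000) (.cons (nat_lit 0x10454) (nat_lit 0x200000000000100000003000400030000) (.cons (nat_lit 0x11500) (nat_lit 0x100000002000200010000000000000000) (.cons (nat_lit 0x5015) (nat_lit 0x20001000000000000000300040003) (.cons (nat_lit 0x4115) (nat_lit 0x10000000000010000000200020002) .nil))))) (.cons (nat_lit 0x110111101) (nat_lit 0x1000010) (nat_lit 5) (nat_lit 0x260341005) .nil)) (.non (nat_lit 1) (nat_lit 6) (nat_lit 0x10a50) (nat_lit 0x300000000000200010002000100000000))) (.non (nat_lit 1) (nat_lit 6) (nat_lit 0x24a01) (nat_lit 0x100020000000200030000000000000004)))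 (.non (nat_lit 2) (nat_lit 5) (nat_lit 0x8105) (nat_lit 0x10000000000010000000000010002)))) (.non (nat_lit 1) (nat_lit 6) (nat_lit 0x20a50) (nat_lit 0x300000000000200010004000200000000))) t742_164))) (.sup (nat_lit 0x40000000a000a00000000000000000000) (nat_lit 0x20009000a0005))))

noncomputable def t742_166 : Tr := (.ex (nat_lit 1) (.ex (nat_lit 2) (.ex (nat_lit 3) (.pd (.cons (nat_lit 0) (nat_lit 5) (nat_lit 0) (nat_lit 0x66042110) (nat_lit 0xf423fb71ae00000f423ff423fb71ae1f15600000) (.cons (nat_lit 0) (nat_lit 6) (nat_lit 0) (nat_lit 0x70442110) (nat_lit 0xf423f00000f423fb71aef423fb71ae1f15600000) .nil)) t742_162) (.split (nat_lit 8) (nat_lit 0) (.split (nat_lit 8) (nat_lit 2) (.split (nat_lit 8) (nat_lit 4) (.split (nat_lit 8) (nat_lit 7) (.split (nat_lit 8) (nat_lit 1) t742_165 (.split (nat_lit 8) (nat_lit 5) (.split (nat_lit 8) (nat_lit 6) (.unj (nat_lit 0x10054) (nat_lit 0x100000000000000000001000100010000) (nat_lit 0x5500) (nat_lit 0x10002000200010000000000000000)) (.star (nat_lit 8) (nat_lit 1) (nat_lit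 6))) (.star (nat_lit 8) (nat_lit 1) (nat_lit 5)))) (.non (nat_lit 2) (nat_lit 5) (nat_lit 0x15105) (nat_lit 0x100020001000000010000000000010002))) (.non (nat_lit 2) (nat_lit 6) (nat_lit 0x14505) (nat_lit 0x100010000000100020000000000010002))) (.non (nat_lit 1) (nat_lit 5) (nat_lit 0x10050) (nat_lit 0x100000000000000000001000100000000))) (.non (nat_lit 2) (nat_lit 5) (nat_lit 0x14105) (nat_lit 0x100010000000000010000000000010002)))) (.split (nat_lit 8) (nat_lit 0) (.split (nat_lit 8) (nat_lit 3) (.split (nat_lit 8) (nat_lit 4) (.split (nat_lit 8) (nat_lit 5) (.split (nat_lit 8) (nat_lit 6) (.split (nat_lit 8) (nat_lit 7) (.split (nat_lit 8) (nat_lit 1) (.unj (nat_lit 0x10054) (nat_lit 0x100000000000000000001000200020000) (nat_lit 0x5500) (nat_lit 0x10002000200010000000000000000)) (.unj (nat_lit 0x10014) (nat_lit 0x100000000000000000000000100010000) (nat_lit 0x5500) (nat_lit 0x10002000200010000000000000000))) (.non (nat_lit 2) (nat_lit 5) (nat_lit 0x15105) (nat_lit 0x100020001000000010000000000010002))) (.star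 (nat_lit 8) (nat_lit 2) (nat_lit 6))) (.star (nat_lit 8) (nat_lit 2) (nat_lit 5))) (.non (nat_lit 2) (nat_lit 6) (nat_lit 0x14505) (nat_lit 0x100010000000100020000000000010002))) (.non (nat_lit 1) (nat_lit 5) (nat_lit 0x10050) (nat_lit 0x100000000000000000001000100000000))) (.non (nat_lit 2) (nat_lit 5) (nat_lit 0x14105) (nat_lit 0x100010000000000010000000000010002)))) (.split (nat_lit 8) (nat_lit 0) (.split (nat_lit 8) (nat_lit 4) (.split (nat_lit 8) (nat_lit 5) (.split (nat_lit 8) (nat_lit 6) (.split (nat_lit 8) (nat_lit 7) (.split (nat_lit 8) (nat_lit 2) (.split (nat_lit 8) (nat_lit 3) (.unj (nat_lit 0x10054) (nat_lit 0x100000000000000000001000200020000) (nat_lit 0x5500) (nat_lit 0x10002000200010000000000000000)) (.unj (nat_lit 0x10054) (nat_lit 0x100000000000000000001000100010000) (nat_lit 0x5500) (nat_lit 0x10002000200010000000000000000))) (.split (nat_lit 8) (nat_lit 3) (.unj (nat_lit 0x10014) (nat_lit 0x100000000000000000000000100010000) (nat_lit 0x5500) (nat_lit 0x10002000200010000000000000000)) (.non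 (nat_lit 1) (nat_lit 5) (nat_lit 0x10050) (nat_lit 0x100000000000000000001000100000000)))) (.non (nat_lit 2) (nat_lit 5) (nat_lit 0x14005) (nat_lit 0x100010000000000000000000000010001))) (.star (nat_lit 8) (nat_lit 1) (nat_lit 6))) (.star (nat_lit 8) (nat_lit 1) (nat_lit 5))) (.non (nat_lit 2) (nat_lit 5) (nat_lit 0x10105) (nat_lit 0x100000000000000010000000000010001))) (.non (nat_lit 2) (nat_lit 5) (nat_lit 0x10005) (nat_lit 0x100000000000000000000000000010001))))

noncomputable def t742_167 : Tr := (.ex (nat_lit 5) (.ex (nat_lit 6) (.pd (.cons (nat_lit 0) (nat_lit 7) (nat_lit 0) (nat_lit 0x5442110) (nat_lit 0xf423f54591437a2f423fb71ae1f15600000) (.cons (nat_lit 1) (nat_lit 7) (nat_lit 0) (nat_lit 0x5442200) (nat_lit 0xf423f54591437a2f423fb71ae00000f423f) (.cons (nat_lit 2) (nat_lit 7) (nat_lit 0) (nat_lit 0x5443000) (nat_lit 0xf423f54591437a2f423f00000f423fb71ae) (.cons (nat_lit 3) (nat_lit 7) (nat_lit 0) (nat_lit 0x5440100) (nat_lit 0xf423f54591437a200000f423f54591437a2) .nil)))) (.leaf (.cons (nat_lit 0x5450)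 (nat_lit 0x30004000300000002000100000000) (.cons (nat_lit 0x5054) (nat_lit 0x20001000000000003000400030000) (.cons (nat_lit 0x5441) (nat_lit 0x20002000200000001000000000001) (.cons (nat_lit 0x5405) (nat_lit 0x30004000300000000000000010002) (.cons (nat_lit 0x5015) (nat_lit 0x20001000000000000000300040003) .nil))))) .nil)) (.split (nat_lit 8) (nat_lit 0) (.split (nat_lit 8) (nat_lit 1) (.split (nat_lit 8) (nat_lit 2) (.split (nat_lit 8) (nat_lit 3) (.split (nat_lit 8) (nat_lit 7) (.split (nat_lit 8) (nat_lit 4) (.split (nat_lit 8) (nat_lit 5) (.unj (nat_lit 0x55) (nat_lit 0x1000200020001) (nat_lit 0x11500) (nat_lit 0x100000002000200010000000000000000)) (.unj (nat_lit 0x11400) (nat_lit 0x100000001000100000000000000000000) (nat_lit 0x55) (nat_lit 0x1000200020001))) (.split (nat_lit 8) (nat_lit 5) (.unj (nat_lit 0x55) (nat_lit 0x1000200020001) (nat_lit 0x11500) (nat_lit 0x100000001000100010000000000000000)) (.non (nat_lit 1) (nat_lit 6) (nat_lit 0x10500) (nat_lit 0x100000000000100010000000000000000)))) (.non (nat_lit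 1) (nat_lit 5) (nat_lit 0x15000) (nat_lit 0x100010001000000000000000000000000))) (.non (nat_lit 1) (nat_lit 5) (nat_lit 0x15040) (nat_lit 0x100010001000000000001000000000000))) (.star (nat_lit 8) (nat_lit 2) (nat_lit 6))) (.star (nat_lit 8) (nat_lit 1) (nat_lit 6))) (.non (nat_lit 1) (nat_lit 5) (nat_lit 0x15001) (nat_lit 0x100010001000000000000000000000001)))) (.split (nat_lit 8) (nat_lit 0) (.split (nat_lit 8) (nat_lit 1) (.split (nat_lit 8) (nat_lit 2) (.split (nat_lit 8) (nat_lit 3) (.split (nat_lit 8) (nat_lit 4) (.split (nat_lit 8) (nat_lit 7) (.split (nat_lit 8) (nat_lit 6) (.unj (nat_lit 0x55) (nat_lit 0x1000200020001) (nat_lit 0x11500) (nat_lit 0x100000002000200010000000000000000)) (.unj (nat_lit 0x11400) (nat_lit 0x100000001000100000000000000000000) (nat_lit 0x55) (nat_lit 0x1000200020001))) (.non (nat_lit 1) (nat_lit 5) (nat_lit 0x15041) (nat_lit 0x100020001000000000001000000000001))) (.non (nat_lit 1) (nat_lit 6) (nat_lit 0x10500) (nat_lit 0x100000000000100010000000000000000))) (.non (nat_lit 1)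 (nat_lit 5) (nat_lit 0x15051) (nat_lit 0x100020001000000000002000100000001))) (.star (nat_lit 8) (nat_lit 2) (nat_lit 5))) (.star (nat_lit 8) (nat_lit 1) (nat_lit 5))) (.non (nat_lit 2) (nat_lit 5) (nat_lit 0x15045) (nat_lit 0x100020001000000000001000000010002))))

noncomputable def t742_168 : Tr := (.ex (nat_lit 5) (.ex (nat_lit 6) (.split (nat_lit 8) (nat_lit 4) (.pd (.cons (nat_lit 2) (nat_lit 7) (nat_lit 0) (nat_lit 0x405443000) (nat_lit 0xf423f00000f423f5459106711f423f00000f423fb71ae) .nil) (.split (nat_lit 8) (nat_lit 2) (.split (nat_lit 7) (nat_lit 0) (.split (nat_lit 7) (nat_lit 3) (.leaf (.cons (nat_lit 0x5450) (nat_lit 0x30004000300000002000100000000) (.cons (nat_lit 0x10054) (nat_lit 0x100000000000000000001000200020000) (.cons (nat_lit 0x11510) (nat_lit 0x200000003000400030000000100000000) (.cons (nat_lit 0x5441) (nat_lit 0x20002000200000001000000000001) (.cons (nat_lit 0x5405) (nat_lit 0x30004000300000000000000010002) (.cons (nat_lit 0x10015) (nat_lit 0x100000000000000000000000200020001) .nil))))))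 (.cons (nat_lit 0x110111101) (nat_lit 0x1000010) (nat_lit 5) (nat_lit 0x410652300) .nil)) (.non (nat_lit 1) (nat_lit 5) (nat_lit 0x1a050) (nat_lit 0x100020001000000000003000200000000))) (.non (nat_lit 1) (nat_lit 5) (nat_lit 0xa081) (nat_lit 0x20001000000000001000000000002))) (.non (nat_lit 1) (nat_lit 5) (nat_lit 0x24250) (nat_lit 0x200010000000000010002000300000000)))) (.non (nat_lit 1) (nat_lit 5) (nat_lit 0x15251) (nat_lit 0x200020001000000010002000200000001))) (.split (nat_lit 9) (nat_lit 0) (.split (nat_lit 9) (nat_lit 1) (.split (nat_lit 9) (nat_lit 2) (.split (nat_lit 9) (nat_lit 3) (.split (nat_lit 9) (nat_lit 4) (.split (nat_lit 9) (nat_lit 7) (.split (nat_lit 9) (nat_lit 8) (.split (nat_lit 9) (nat_lit 5) (.unj (nat_lit 0x55) (nat_lit 0x1000200020001) (nat_lit 0x41500) (nat_lit 0x1000000000002000200010000000000000000)) (.unj (nat_lit 0x41400) (nat_lit 0x1000000000001000100000000000000000000) (nat_lit 0x55) (nat_lit 0x1000200020001))) (.non (nat_lit 1) (nat_lit 5) (nat_lit 0x55050) (nat_lit 0x1000100010001000000000001000100000000)))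 (.non (nat_lit 1) (nat_lit 5) (nat_lit 0x45000) (nat_lit 0x1000000010001000000000000000000000000))) (.non (nat_lit 1) (nat_lit 5) (nat_lit 0x55150) (nat_lit 0x1000100010001000000010001000100000000))) (.non (nat_lit 1) (nat_lit 5) (nat_lit 0x45040) (nat_lit 0x1000000010001000000000001000000000000))) (.star (nat_lit 9) (nat_lit 2) (nat_lit 6))) (.star (nat_lit 9) (nat_lit 1) (nat_lit 6))) (.non (nat_lit 1) (nat_lit 5) (nat_lit 0x45001) (nat_lit 0x1000000010001000000000000000000000001)))) (.split (nat_lit 9) (nat_lit 0) (.split (nat_lit 9) (nat_lit 1) (.split (nat_lit 9) (nat_lit 2) (.split (nat_lit 9) (nat_lit 3) (.split (nat_lit 9) (nat_lit 4) (.split (nat_lit 9) (nat_lit 7) (.split (nat_lit 9) (nat_lit 8) (.split (nat_lit 9) (nat_lit 6) (.unj (nat_lit 0x55) (nat_lit 0x1000200020001) (nat_lit 0x41500) (nat_lit 0x1000000000002000200010000000000000000)) (.unj (nat_lit 0x41400) (nat_lit 0x1000000000001000100000000000000000000) (nat_lit 0x55) (nat_lit 0x1000200020001))) (.non (nat_lit 1) (nat_lit 5) (nat_lit 0x55151)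 (nat_lit 0x1000200020001000000010002000200000001))) (.non (nat_lit 1) (nat_lit 5) (nat_lit 0x45041) (nat_lit 0x1000000020001000000000001000000000001))) (.non (nat_lit 1) (nat_lit 6) (nat_lit 0x40500) (nat_lit 0x1000000000000000100010000000000000000))) (.non (nat_lit 1) (nat_lit 5) (nat_lit 0x45051) (nat_lit 0x1000000020001000000000002000100000001))) (.star (nat_lit 9) (nat_lit 2) (nat_lit 5))) (.star (nat_lit 9) (nat_lit 1) (nat_lit 5))) (.non (nat_lit 1) (nat_lit 6) (nat_lit 0x54551) (nat_lit 0x1000100010000000100010001000100000001))))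

noncomputable def t742_169 : Tr := (.split (nat_lit 9) (nat_lit 2) (.split (nat_lit 9) (nat_lit 3) (.split (nat_lit 9) (nat_lit 5) (.split (nat_lit 9) (nat_lit 6) (.split (nat_lit 9) (nat_lit 7) (.split (nat_lit 9) (nat_lit 8) (.split (nat_lit 9) (nat_lit 1) (.sup (nat_lit 0x25004a00500028) (nat_lit 0x1c000300000041005000370000000000000000)) (.st (nat_lit 4) (nat_lit 1) (nat_lit 5) (nat_lit 0x55151) (nat_lit 0x1000200020001000000020002000200000001) (nat_lit 1) (nat_lit 1) (.st (nat_lit 5) (nat_lit 1) (nat_lit 6) (nat_lit 0x54551) (nat_lit 0x3000500020000000400060003000400000001) (nat_lit 1) (nat_lit 2) (.st (nat_lit 6) (nat_lit 1) (nat_lit 5) (nat_lit 0x55151) (nat_lit 0x1000300060004000000020005000400000003) (nat_lit 1) (nat_lit 2) (.st (nat_lit 9) (nat_lit 1) (nat_lit 6) (nat_lit 0x54551) (nat_lit 0x4000500020000000300060003000400000001) (nat_lit 1) (nat_lit 2) (.split (nat_lit 9) (nat_lit 4) (.split (nat_lit 8) (nat_lit 2) (.split (nat_lit 8) (nat_lit 4) (.split (nat_lit 7) (nat_lit 0) (.split (nat_lit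 7) (nat_lit 3) (.leaf (.cons (nat_lit 0x5450) (nat_lit 0x30004000300000002000100000000) (.cons (nat_lit 0x50014) (nat_lit 0x1000100000000000000000000000200020000) (.cons (nat_lit 0x51500) (nat_lit 0x1000100000002000200020000000000000000) (.cons (nat_lit 0x5441) (nat_lit 0x20002000200000001000000000001) .nil)))) (.cons (nat_lit 0x1111011101) (nat_lit 0x100010) (nat_lit 0xb) (nat_lit 0x7502063401) (.cons (nat_lit 0x1110111101) (nat_lit 0x1000010) (nat_lit 0xb) (nat_lit 0x2360105407) .nil))) (.non (nat_lit 1) (nat_lit 5) (nat_lit 0x1a050) (nat_lit 0x100020001000000000003000200000000))) (.non (nat_lit 1) (nat_lit 5) (nat_lit 0xa081) (nat_lit 0x20001000000000001000000000002))) (.non (nat_lit 1) (nat_lit 5) (nat_lit 0x90250) (nat_lit 0x1000300000000000000020001000200000000))) (.non (nat_lit 1) (nat_lit 5) (nat_lit 0xa0250) (nat_lit 0x1000300000000000000020002000400000000))) (.non (nat_lit 1) (nat_lit 5) (nat_lit 0x95151) (nat_lit 0x1000200020001000000020002000200000001)))))))) (.non (nat_lit 1) (nat_lit 5) (nat_lit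 0x50100) (nat_lit 0x1000100000000000000010000000000000000))) (.non (nat_lit 1) (nat_lit 5) (nat_lit 0x54150) (nat_lit 0x1000100010000000000010001000100000000))) (.non (nat_lit 1) (nat_lit 5) (nat_lit 0x55150) (nat_lit 0x1000100010001000000010001000100000000))) (.non (nat_lit 1) (nat_lit 6) (nat_lit 0x40500) (nat_lit 0x1000000000000000100010000000000000000))) (.non (nat_lit 1) (nat_lit 5) (nat_lit 0x50150) (nat_lit 0x1000100000000000000010001000100000000))) (.non (nat_lit 1) (nat_lit 5) (nat_lit 0x50110) (nat_lit 0x1000100000000000000010000000100000000)))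

noncomputable def t742_170 : Tr := (.ex (nat_lit 2) (.split (nat_lit 7) (nat_lit 3) (.split (nat_lit 7) (nat_lit 0) (.pd (.cons (nat_lit 0) (nat_lit 6) (nat_lit 0) (nat_lit 0x30442110) (nat_lit 0xf423f00000f423fb71aeb71aea2c280473700000) (.cons (nat_lit 3) (nat_lit 6) (nat_lit 0) (nat_lit 0x440100) (nat_lit 0xf423f00000f423fb71ae00000f423f5459106711) .nil)) (.ex (nat_lit 4) t742_167 (.split (nat_lit 8) (nat_lit 0) (.split (nat_lit 8) (nat_lit 1) (.split (nat_lit 8) (nat_lit 2) (.split (nat_lit 8) (nat_lit 3) (.split (nat_lit 8) (nat_lit 5) (.split (nat_lit 8) (nat_lit 7) (.split (nat_lit 8) (nat_lit 6) (.sup (nat_lit 0x300010007000800050000000000000000) (nat_lit 0x2000600060002)) (.unj (nat_lit 0x55) (nat_lit 0x1000200020001) (nat_lit 0x11500) (nat_lit 0x100000001000100010000000000000000))) (.non (nat_lit 1) (nat_lit 5) (nat_lit 0x15041) (nat_lit 0x100020001000000000001000000000001))) (.non (nat_lit 1) (nat_lit 6) (nat_lit 0x10500) (nat_lit 0x100000000000100010000000000000000))) (.non (nat_lit 1) (nat_lit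 5) (nat_lit 0x15051) (nat_lit 0x100020001000000000002000100000001))) (.non (nat_lit 0) (nat_lit 6) (nat_lit 0x10514) (nat_lit 0x300000000000100020000000400030000))) (.non (nat_lit 0) (nat_lit 6) (nat_lit 0x10514) (nat_lit 0x300000000000100020000000300040000))) (.non (nat_lit 2) (nat_lit 5) (nat_lit 0x15045) (nat_lit 0x100020001000000000001000000010002))))) (.non (nat_lit 1) (nat_lit 5) (nat_lit 0xa081) (nat_lit 0x20001000000000001000000000002))) (.non (nat_lit 1) (nat_lit 5) (nat_lit 0x5081) (nat_lit 0x20001000000000001000000000001))) (.split (nat_lit 8) (nat_lit 0) (.split (nat_lit 8) (nat_lit 3) (.split (nat_lit 8) (nat_lit 5) (.split (nat_lit 8) (nat_lit 6) (.split (nat_lit 8) (nat_lit 7) (.split (nat_lit 8) (nat_lit 1) (.split (nat_lit 8) (nat_lit 4) (.sup (nat_lit 0x500000000000000000002000a00080000) (nat_lit 0x20009000a00050000000000000000)) (.st (nat_lit 8) (nat_lit 1) (nat_lit 5) (nat_lit 0x15151) (nat_lit 0x200020001000000010002000200000001) (nat_lit 1) (nat_lit 1) (.st (nat_lit 2) (nat_lit 1) (nat_lit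 5) (nat_lit 0x15051) (nat_lit 0x100020001000000000002000200000001) (nat_lit 1) (nat_lit 1) (.ex (nat_lit 4) t742_168 (.split (nat_lit 9) (nat_lit 0) t742_169 (.non (nat_lit 1) (nat_lit 5) (nat_lit 0x54151) (nat_lit 0x1000100010000000000010001000100000001))))))) (.split (nat_lit 8) (nat_lit 4) (.unj (nat_lit 0x10014) (nat_lit 0x100000000000000000000000100010000) (nat_lit 0x5500) (nat_lit 0x10002000200010000000000000000)) (.sup (nat_lit 0x400000000000000000000000a000a0000) (nat_lit 0x5000a000900020000000000000000)))) (.non (nat_lit 1) (nat_lit 5) (nat_lit 0x14050) (nat_lit 0x100010000000000000001000100000000))) (.star (nat_lit 8) (nat_lit 2) (nat_lit 6))) (.star (nat_lit 8) (nat_lit 2) (nat_lit 5))) (.non (nat_lit 1) (nat_lit 5) (nat_lit 0x10050) (nat_lit 0x100000000000000000001000100000000))) (.non (nat_lit 1) (nat_lit 5) (nat_lit 0x14051) (nat_lit 0x100010000000000000001000100000001))))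

noncomputable def t742_171 : Tr := (.ex (nat_lit 5) (.ex (nat_lit 6) (.split (nat_lit 8) (nat_lit 4) (.pd (.cons (nat_lit 1) (nat_lit 7) (nat_lit 0) (nat_lit 0x405442200) (nat_lit 0xf423f00000f423f5459106711f423fb71ae00000f423f) .nil) (.split (nat_lit 7) (nat_lit 0) (.split (nat_lit 7) (nat_lit 3) (.split (nat_lit 8) (nat_lit 1) (.leaf (.cons (nat_lit 0x5450) (nat_lit 0x30004000300000002000100000000) (.cons (nat_lit 0x10054) (nat_lit 0x100000000000000000001000200020000) (.cons (nat_lit 0x5441) (nat_lit 0x20002000200000001000000000001) (.cons (nat_lit 0x11504) (nat_lit 0x200000003000400030000000000010000) (.cons (nat_lit 0x5405) (nat_lit 0x30004000300000000000000010002) (.cons (nat_lit 0x10015) (nat_lit 0x100000000000000000000000200020001) .nil)))))) (.cons (nat_lit 0x110111011) (nat_lit 0x1000100) (nat_lit 5) (nat_lit 0x410650032) .nil)) (.non (nat_lit 2) (nat_lit 5) (nat_lit 0x24205) (nat_lit 0x200010000000000010000000000030002))) (.non (nat_lit 1) (nat_lit 5) (nat_lit 0x5081) (nat_lit 0x20001000000000001000000000001)))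 (.non (nat_lit 1) (nat_lit 5) (nat_lit 0xa081) (nat_lit 0x20001000000000001000000000002)))) (.non (nat_lit 2) (nat_lit 5) (nat_lit 0x15245) (nat_lit 0x200020001000000010001000000020002))) (.split (nat_lit 9) (nat_lit 0) (.split (nat_lit 9) (nat_lit 1) (.split (nat_lit 9) (nat_lit 2) (.split (nat_lit 9) (nat_lit 3) (.split (nat_lit 9) (nat_lit 4) (.split (nat_lit 9) (nat_lit 7) (.split (nat_lit 9) (nat_lit 8) (.split (nat_lit 9) (nat_lit 5) (.unj (nat_lit 0x55) (nat_lit 0x1000200020001) (nat_lit 0x41500) (nat_lit 0x1000000000002000200010000000000000000)) (.unj (nat_lit 0x41400) (nat_lit 0x1000000000001000100000000000000000000) (nat_lit 0x55) (nat_lit 0x1000200020001))) (.non (nat_lit 2) (nat_lit 5) (nat_lit 0x55005) (nat_lit 0x1000100010001000000000000000000010001))) (.non (nat_lit 1) (nat_lit 5) (nat_lit 0x45000) (nat_lit 0x1000000010001000000000000000000000000))) (.non (nat_lit 2) (nat_lit 5) (nat_lit 0x55105) (nat_lit 0x1000100010001000000010000000000010001))) (.non (nat_lit 1) (nat_lit 5) (nat_lit 0x45040)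 (nat_lit 0x1000000010001000000000001000000000000))) (.star (nat_lit 9) (nat_lit 2) (nat_lit 6))) (.star (nat_lit 9) (nat_lit 1) (nat_lit 6))) (.non (nat_lit 1) (nat_lit 5) (nat_lit 0x45001) (nat_lit 0x1000000010001000000000000000000000001)))) (.split (nat_lit 9) (nat_lit 0) (.split (nat_lit 9) (nat_lit 1) (.split (nat_lit 9) (nat_lit 2) (.split (nat_lit 9) (nat_lit 3) (.split (nat_lit 9) (nat_lit 4) (.split (nat_lit 9) (nat_lit 7) (.split (nat_lit 9) (nat_lit 8) (.split (nat_lit 9) (nat_lit 6) (.unj (nat_lit 0x55) (nat_lit 0x1000200020001) (nat_lit 0x41500) (nat_lit 0x1000000000002000200010000000000000000)) (.unj (nat_lit 0x41400) (nat_lit 0x1000000000001000100000000000000000000) (nat_lit 0x55) (nat_lit 0x1000200020001))) (.non (nat_lit 1) (nat_lit 6) (nat_lit 0x50500) (nat_lit 0x1000100000000000100010000000000000000))) (.non (nat_lit 1) (nat_lit 5) (nat_lit 0x45041) (nat_lit 0x1000000020001000000000001000000000001))) (.non (nat_lit 1) (nat_lit 6) (nat_lit 0x40500) (nat_lit 0x1000000000000000100010000000000000000)))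 (.non (nat_lit 1) (nat_lit 5) (nat_lit 0x45051) (nat_lit 0x1000000020001000000000002000100000001))) (.star (nat_lit 9) (nat_lit 2) (nat_lit 5))) (.star (nat_lit 9) (nat_lit 1) (nat_lit 5))) (.non (nat_lit 2) (nat_lit 5) (nat_lit 0x45045) (nat_lit 0x1000000020001000000000001000000010002))))

noncomputable def t742_172 : Tr := (.split (nat_lit 9) (nat_lit 3) (.split (nat_lit 9) (nat_lit 5) (.split (nat_lit 9) (nat_lit 6) (.split (nat_lit 9) (nat_lit 7) (.split (nat_lit 9) (nat_lit 8) (.split (nat_lit 9) (nat_lit 2) (.sup (nat_lit 0x280050004a0025) (nat_lit 0x1c000300000041005000370000000000000000)) (.st (nat_lit 2) (nat_lit 1) (nat_lit 5) (nat_lit 0x55150) (nat_lit 0x3000100020001000000020003000400000000) (nat_lit 1) (nat_lit 2) (.st (nat_lit 4) (nat_lit 1) (nat_lit 5) (nat_lit 0x55151) (nat_lit 0x2000100020001000000020002000200000001) (nat_lit 1) (nat_lit 1) (.st (nat_lit 5) (nat_lit 1) (nat_lit 6) (nat_lit 0x54551) (nat_lit 0x5000300020000000400060003000400000001) (nat_lit 1) (nat_lit 2) (.st (nat_lit 6) (nat_lit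 1) (nat_lit 5) (nat_lit 0x55151) (nat_lit 0x3000100060004000000020005000400000003) (nat_lit 1) (nat_lit 2) (.st (nat_lit 9) (nat_lit 1) (nat_lit 5) (nat_lit 0x45151) (nat_lit 0x2000000020001000000010002000200000001) (nat_lit 1) (nat_lit 1) (.split (nat_lit 9) (nat_lit 2) (.split (nat_lit 9) (nat_lit 4) (.split (nat_lit 8) (nat_lit 4) (.split (nat_lit 7) (nat_lit 0) (.split (nat_lit 7) (nat_lit 3) (.leaf (.cons (nat_lit 0x5450) (nat_lit 0x30004000300000002000100000000) (.cons (nat_lit 0x50014) (nat_lit 0x1000100000000000000000000000200020000) (.cons (nat_lit 0x51500) (nat_lit 0x1000100000002000200020000000000000000) (.cons (nat_lit 0x5441) (nat_lit 0x20002000200000001000000000001) .nil)))) (.cons (nat_lit 0x1111011101) (nat_lit 0x100010) (nat_lit 0xb) (nat_lit 0x5702063401) (.cons (nat_lit 0x1110111101) (nat_lit 0x1000010) (nat_lit 0xb) (nat_lit 0x3260105407) .nil))) (.non (nat_lit 1) (nat_lit 5) (nat_lit 0x4a050) (nat_lit 0x1000000020001000000000003000200000000))) (.non (nat_lit 1) (nat_lit 5) (nat_lit 0xa081)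 (nat_lit 0x20001000000000001000000000002))) (.non (nat_lit 1) (nat_lit 5) (nat_lit 0x65151) (nat_lit 0x2000100020001000000020002000200000001))) (.non (nat_lit 1) (nat_lit 5) (nat_lit 0x60250) (nat_lit 0x3000100000000000000020001000200000000))) (.non (nat_lit 1) (nat_lit 5) (nat_lit 0xa0250) (nat_lit 0x3000100000000000000020002000400000000))))))))) (.non (nat_lit 1) (nat_lit 5) (nat_lit 0x50100) (nat_lit 0x1000100000000000000010000000000000000))) (.non (nat_lit 1) (nat_lit 5) (nat_lit 0x45041) (nat_lit 0x1000000020001000000000001000000000001))) (.non (nat_lit 2) (nat_lit 5) (nat_lit 0x55105) (nat_lit 0x1000100010001000000010000000000010001))) (.non (nat_lit 1) (nat_lit 6) (nat_lit 0x40500) (nat_lit 0x1000000000000000100010000000000000000))) (.non (nat_lit 1) (nat_lit 5) (nat_lit 0x45051) (nat_lit 0x1000000020001000000000002000100000001)))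

noncomputable def t742_173 : Tr := (.split (nat_lit 7) (nat_lit 3) (.split (nat_lit 4) (nat_lit 0) t742_161 (.split (nat_lit 4) (nat_lit 3) (.st (nat_lit 0) (nat_lit 2) (nat_lit 5) (nat_lit 0x4105) (nat_lit 0x10000000000010000000000010002) (nat_lit 1) (nat_lit 1) (.st (nat_lit 4) (nat_lit 2) (nat_lit 6) (nat_lit 0x4505) (nat_lit 0x10000000100020000000000010002) (nat_lit 1) (nat_lit 1) (.st (nat_lit 7) (nat_lit 2) (nat_lit 5) (nat_lit 0x5105) (nat_lit 0x20001000000010000000000010002) (nat_lit 1) (nat_lit 1) t742_166))) (.non (nat_lit 2) (nat_lit 6) (nat_lit 0x4545) (nat_lit 0x10000000100020001000000010002)))) (.split (nat_lit 4) (nat_lit 0) (.split (nat_lit 4) (nat_lit 3) (.st (nat_lit 0) (nat_lit 2) (nat_lit 5) (nat_lit 0x5045) (nat_lit 0x20001000000000001000000010002) (nat_lit 1) (nat_lit 1) (.st (nat_lit 3) (nat_lit 1) (nat_lit 5) (nat_lit 0x5051) (nat_lit 0x20001000000000002000100000001) (nat_lit 1) (nat_lit 1) (.st (nat_lit 7) (nat_lit 1) (nat_lit 5) (nat_lit 0x5041) (nat_lit 0x20001000000000001000000000001)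 (nat_lit 1) (nat_lit 1) (.ex (nat_lit 1) t742_170 (.split (nat_lit 8) (nat_lit 0) (.split (nat_lit 8) (nat_lit 3) (.split (nat_lit 8) (nat_lit 5) (.split (nat_lit 8) (nat_lit 6) (.split (nat_lit 8) (nat_lit 7) (.split (nat_lit 8) (nat_lit 2) (.split (nat_lit 8) (nat_lit 4) (.sup (nat_lit 0x5000000000000000000000008000a0002) (nat_lit 0x20009000a00050000000000000000)) (.st (nat_lit 8) (nat_lit 2) (nat_lit 5) (nat_lit 0x15145) (nat_lit 0x200020001000000010001000000020002) (nat_lit 1) (nat_lit 1) (.st (nat_lit 1) (nat_lit 2) (nat_lit 5) (nat_lit 0x15045) (nat_lit 0x100020001000000000001000000020002) (nat_lit 1) (nat_lit 1) (.ex (nat_lit 4) t742_171 (.split (nat_lit 9) (nat_lit 0) (.split (nat_lit 9) (nat_lit 1) t742_172 (.non (nat_lit 2) (nat_lit 5) (nat_lit 0x50104) (nat_lit 0x1000100000000000000010000000000010000))) (.non (nat_lit 2) (nat_lit 5) (nat_lit 0x50105) (nat_lit 0x1000100000000000000010000000000010001))))))) (.split (nat_lit 8) (nat_lit 4) (.unj (nat_lit 0x10014) (nat_lit 0x100000000000000000000000100010000)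 (nat_lit 0x5500) (nat_lit 0x10002000200010000000000000000)) (.sup (nat_lit 0x400000000000000000000000a000a0000) (nat_lit 0x5000a000900020000000000000000)))) (.non (nat_lit 1) (nat_lit 5) (nat_lit 0x15041) (nat_lit 0x100020001000000000001000000000001))) (.star (nat_lit 8) (nat_lit 1) (nat_lit 6))) (.star (nat_lit 8) (nat_lit 1) (nat_lit 5))) (.non (nat_lit 1) (nat_lit 5) (nat_lit 0x15051) (nat_lit 0x100020001000000000002000100000001))) (.non (nat_lit 2) (nat_lit 5) (nat_lit 0x10005) (nat_lit 0x100000000000000000000000000010001))))))) (.non (nat_lit 1) (nat_lit 5) (nat_lit 0x5151) (nat_lit 0x20001000000010002000100000001))) (.non (nat_lit 2) (nat_lit 5) (nat_lit 0x5145) (nat_lit 0x20001000000010001000000010002))))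

noncomputable def t742 : Tr := (.split (nat_lit 7) (nat_lit 0) (.split (nat_lit 7) (nat_lit 3) (.split (nat_lit 4) (nat_lit 0) (.split (nat_lit 4) (nat_lit 3) .uj (.split (nat_lit 4) (nat_lit 3) (.sup (nat_lit 0x20009000a0005) (nat_lit 0x5000a000900020000000000000000)) (.split (nat_lit 4) (nat_lit 3) (.sup (nat_lit 0x20009000a0005) (nat_lit 0x5000a000900020000000000000000)) (.non (nat_lit 1) (nat_lit 6) (nat_lit 0x550) (nat_lit 0x100020002000100000000))))) (.split (nat_lit 4) (nat_lit 3) (.split (nat_lit 4) (nat_lit 0) (.sup (nat_lit 0x5000a00090002) (nat_lit 0x5000a000900020000000000000000)) (.split (nat_lit 4) (nat_lit 0) (.sup (nat_lit 0x5000a00090002) (nat_lit 0x5000a000900020000000000000000)) (.non (nat_lit 2) (nat_lit 6) (nat_lit 0x505) (nat_lit 0x100020000000000010002)))) (.st (nat_lit 0) (nat_lit 2) (nat_lit 6) (nat_lit 0x545) (nat_lit 0x100020001000000010002) (nat_lit 1) (nat_lit 1) (.st (nat_lit 3) (nat_lit 1) (nat_lit 6) (nat_lit 0x551) (nat_lit 0x100020002000100000001) (nat_lit 1) (nat_lit 1) (.st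 (nat_lit 4) (nat_lit 1) (nat_lit 6) (nat_lit 0x541) (nat_lit 0x100020001000000000001) (nat_lit 1) (nat_lit 1) t742_6))))) (.split (nat_lit 4) (nat_lit 0) (.split (nat_lit 4) (nat_lit 3) (.split (nat_lit 7) (nat_lit 3) (.sup (nat_lit 0x20009000a0005) (nat_lit 0x20009000a00050000000000000000)) (.split (nat_lit 7) (nat_lit 3) (.sup (nat_lit 0x20009000a0005) (nat_lit 0x20009000a00050000000000000000)) (.non (nat_lit 1) (nat_lit 5) (nat_lit 0x5050) (nat_lit 0x20001000000000002000100000000)))) (.st (nat_lit 3) (nat_lit 1) (nat_lit 5) (nat_lit 0x4150) (nat_lit 0x10000000000010002000100000000) (nat_lit 1) (nat_lit 1) (.st (nat_lit 4) (nat_lit 1) (nat_lit 6) (nat_lit 0x4550) (nat_lit 0x10000000100020002000100000000) (nat_lit 1) (nat_lit 1) t742_13))) (.split (nat_lit 4) (nat_lit 3) t742_87 (.non (nat_lit 1) (nat_lit 6) (nat_lit 0x4551) (nat_lit 0x10000000100020002000100000001))))) t742_173)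

noncomputable def D6 : RL := (.cons (nat_lit 0x22222222222222222222222222222222222222222222222222222222222222222222222222222222222222222222222222222222222222222222222222222222222222222322a22a22222222325222222222222225232222222222222232a22a22222222a22a23222222222222223252222222222222252322222222a22a2232) t742 .nil)

theorem cov_D6 : Cov 742 743 := by
  have h1 : rl D6 (nat_lit 742) = true := by decide +kernel
  have h2 : 742 + rlen D6 = 743 := by decide +kernel
  exact cov_of h1 h2

end MP86a502
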