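import Pool.Agent.Lib.MP_86a502_gt.U.Rlc
import Pool.Agent.Lib.MP_86a502_gt.U.D06

set_option autoImplicit false
set_option maxRecDepth 1000000
set_option linter.all false

/-! Certificates, numbers 1538 to 1541. -/

namespace MP86a502

noncomputable def t1538_1 : Tr := (.ex (nat_lit 5) (.pd (.cons (nat_lit 0) (nat_lit 6) (nat_lit 0) (nat_lit 0x8740532110) (nat_lit 0xf423fb71aea2c2800000f423f98965927bd8e6a28b82100000) (.cons (nat_lit 1) (nat_lit 6) (nat_lit 0) (nat_lit 0x8740532200) (nat_lit 0xf423fb71aea2c2800000f423f98965927bd8e6a200000f423f) (.cons (nat_lit 2) (nat_lit 6) (nat_lit 0) (nat_lit 0x8740533000) (nat_lit 0xf423fb71aea2c2800000f423f98965927bd00000f423f54591) (.cons (nat_lit 3) (nat_lit 6) (nat_lit 0) (nat_lit 0x8740540100) (nat_lit 0xf423fb71aea2c2800000f423f9896500000f423fb71ae1f156) (.cons (nat_lit 3) (nat_lit 8) (nat_lit 0) (nat_lit 0x9047640100) (nat_lit 0xf423f00000437a254591f423f174ea00000f423fb71ae1f156) (.cons (nat_lit 4) (nat_lit 6) (nat_lit 0) (nat_lit 0x8770502100) (nat_lit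 0xf423fb71aea2c2800000f423f00000f423fb71aea2c2804737) (.cons (nat_lit 4) (nat_lit 8) (nat_lit 0) (nat_lit 0x9065502100) (nat_lit 0xf423f00000f423fb71ae1f15600000f423fb71aea2c2804737) (.cons (nat_lit 4) (nat_lit 9) (nat_lit 0) (nat_lit 0x765502100) (nat_lit 0xf423fb71aea2c280473700000f423fb71aea2c2804737) .nil)))))))) (.leaf (.cons (nat_lit 0x5540) (nat_lit 0x30004000300020001000000000000) (.cons (nat_lit 0x15500) (nat_lit 0x100020002000200010000000000000000) .nil)) (.cons (nat_lit 0x1111011110) (nat_lit 0x100001) (nat_lit 0xe) (nat_lit 0x3201045670) (.cons (nat_lit 0x1110011110) (nat_lit 0x1000001) (nat_lit 5) (nat_lit 0x6540032100) (.cons (nat_lit 0x1111011100) (nat_lit 0x100010) (nat_lit 0xd) (nat_lit 0x3201045600) (.cons (nat_lit 0x1110011100) (nat_lit 0x1000010) (nat_lit 4) (nat_lit 0x5430021000) (.cons (nat_lit 0x1111011000) (nat_lit 0x100100) (nat_lit 0xc) (nat_lit 0x5401023000) (.cons (nat_lit 0x1110011000) (nat_lit 0x1000100) (nat_lit 3) (nat_lit 0x4320010000) (.cons (nat_lit 0x1111010000)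 (nat_lit 0x101000) (nat_lit 8) (nat_lit 0x4302010000) (.cons (nat_lit 0x11110000) (nat_lit 0x100001000) (nat_lit 0x10) (nat_lit 0x21030000) .nil)))))))))) (.split (nat_lit 0xa) (nat_lit 0) (.split (nat_lit 0xa) (nat_lit 1) (.split (nat_lit 0xa) (nat_lit 2) (.split (nat_lit 0xa) (nat_lit 3) (.split (nat_lit 0xa) (nat_lit 4) (.split (nat_lit 0xa) (nat_lit 6) (.split (nat_lit 0xa) (nat_lit 7) (.split (nat_lit 0xa) (nat_lit 8) (.split (nat_lit 0xa) (nat_lit 9) (.sup (nat_lit 0x50000000000020009000a00000000000000000000) (nat_lit 0x100040007000a0008)) (.non (nat_lit 0) (nat_lit 5) (nat_lit 0x155150) (nat_lit 0x10002000300040002000000030002000100000000))) (.non (nat_lit 0) (nat_lit 5) (nat_lit 0x155100) (nat_lit 0x10001000200020001000000010000000000000000))) (.non (nat_lit 0) (nat_lit 5) (nat_lit 0x115100) (nat_lit 0x10000000100020001000000010000000000000000))) (.non (nat_lit 0) (nat_lit 5) (nat_lit 0x155140) (nat_lit 0x10001000200030002000000020001000000000000))) (.non (nat_lit 0) (nat_lit 5) (nat_lit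 0x115140) (nat_lit 0x10000000100020001000000020001000000000000))) (.non (nat_lit 0) (nat_lit 5) (nat_lit 0x115150) (nat_lit 0x10000000100020001000000020002000100000000))) (.non (nat_lit 0) (nat_lit 5) (nat_lit 0x115154) (nat_lit 0x10000000100020001000000020002000200010000))) (.star (nat_lit 0xa) (nat_lit 1) (nat_lit 5))) (.star (nat_lit 0xa) (nat_lit 0) (nat_lit 5))))

noncomputable def t1538_2 : Tr := (.st (nat_lit 9) (nat_lit 0) (nat_lit 5) (nat_lit 0x55150) (nat_lit 0x2000300040002000000030002000100000000) (nat_lit 1) (nat_lit 1) (.ex (nat_lit 0) (.split (nat_lit 4) (nat_lit 3) (.split (nat_lit 7) (nat_lit 4) (.split (nat_lit 9) (nat_lit 8) (.pd (.cons (nat_lit 2) (nat_lit 5) (nat_lit 0) (nat_lit 0x8747033000) (nat_lit 0xf423fb71ae65b97f423f0000061a795b8cc00000f423f54591) (.cons (nat_lit 2) (nat_lit 7) (nat_lit 0) (nat_lit 0x8805533000) (nat_lit 0xf423fb71ae00000f423f54591f423fb71ae00000f423f54591) (.cons (nat_lit 3) (nat_lit 5) (nat_lit 0) (nat_lit 0x8747040100) (nat_lit 0xf423fb71ae65b97f423f0000061a7900000f423fb71ae1f156)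 (.cons (nat_lit 3) (nat_lit 7) (nat_lit 0) (nat_lit 0x8805540100) (nat_lit 0xf423fb71ae00000f423f54591f423f00000f423fb71ae1f156) (.cons (nat_lit 4) (nat_lit 5) (nat_lit 0) (nat_lit 0x8766002100) (nat_lit 0xf423fb71aea2c28989650000000000f423fb71aea2c2804737) (.cons (nat_lit 4) (nat_lit 7) (nat_lit 0) (nat_lit 0x8805502100) (nat_lit 0xf423fb71ae00000f423f5459100000f423fb71aea2c2804737) .nil)))))) t1538_1) (.non (nat_lit 0) (nat_lit 5) (nat_lit 0x95100) (nat_lit 0x1000200020001000000010000000000000000))) (.non (nat_lit 0) (nat_lit 5) (nat_lit 0x2a100) (nat_lit 0x100020001000000020000000000000000))) (.non (nat_lit 0) (nat_lit 5) (nat_lit 0x2a240) (nat_lit 0x100020001000000020002000000000000))) (.split (nat_lit 0xa) (nat_lit 1) (.split (nat_lit 0xa) (nat_lit 2) (.split (nat_lit 0xa) (nat_lit 3) (.split (nat_lit 0xa) (nat_lit 4) (.split (nat_lit 0xa) (nat_lit 5) (.split (nat_lit 0xa) (nat_lit 6) (.split (nat_lit 0xa) (nat_lit 7) (.split (nat_lit 0xa) (nat_lit 8) (.split (nat_lit 0xa) (nat_lit 9) (.unj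 (nat_lit 0x100015) (nat_lit 0x10000000000000000000000000000000100020002) (nat_lit 0x15500) (nat_lit 0x100020002000200010000000000000000)) (.non (nat_lit 0) (nat_lit 5) (nat_lit 0x155150) (nat_lit 0x10002000300040002000000030002000100000000))) (.non (nat_lit 0) (nat_lit 5) (nat_lit 0x155100) (nat_lit 0x10001000200020001000000010000000000000000))) (.star (nat_lit 0xa) (nat_lit 0) (nat_lit 7))) (.non (nat_lit 0) (nat_lit 5) (nat_lit 0x155140) (nat_lit 0x10001000200030002000000020001000000000000))) (.star (nat_lit 0xa) (nat_lit 0) (nat_lit 5))) (.non (nat_lit 0) (nat_lit 5) (nat_lit 0x115140) (nat_lit 0x10000000100020001000000020001000000000000))) (.non (nat_lit 0) (nat_lit 5) (nat_lit 0x115150) (nat_lit 0x10000000100020001000000020002000100000000))) (.non (nat_lit 0) (nat_lit 5) (nat_lit 0x115154) (nat_lit 0x10000000100020001000000020002000200010000))) (.non (nat_lit 0) (nat_lit 5) (nat_lit 0x155154) (nat_lit 0x10002000400060003000000050004000300020000)))))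

noncomputable def t1538_3 : Tr := (.ex (nat_lit 5) (.pd (.cons (nat_lit 0) (nat_lit 6) (nat_lit 0) (nat_lit 0x8480532110) (nat_lit 0xf423f7a11df423f00000f423f7a11b7a1197a1177a11500000) (.cons (nat_lit 0) (nat_lit 8) (nat_lit 0) (nat_lit 0x9065532110) (nat_lit 0xf423f00000f423fb71ae1f156f423fb71aea2c289896500000) (.cons (nat_lit 1) (nat_lit 6) (nat_lit 0) (nat_lit 0x8480532200) (nat_lit 0xf423f7a11df423f00000f423f7a11b7a1197a11700000f423f) (.cons (nat_lit 1) (nat_lit 8) (nat_lit 0) (nat_lit 0x9065532200) (nat_lit 0xf423f00000f423fb71ae1f156f423fb71aea2c2800000f423f) (.cons (nat_lit 2) (nat_lit 6) (nat_lit 0) (nat_lit 0x8480533000) (nat_lit 0xf423f7a11df423f00000f423f7a11b7a11900000f423f54591) (.cons (nat_lit 2) (nat_lit 8) (nat_lit 0) (nat_lit 0x9065533000) (nat_lit 0xf423f00000f423fb71ae1f156f423fb71ae00000f423f54591) (.cons (nat_lit 3) (nat_lit 6) (nat_lit 0) (nat_lit 0x8480540100) (nat_lit 0xf423f7a11df423f00000f423f7a11b00000f423fb71ae1f156) (.cons (nat_lit 3) (nat_lit 8) (nat_lit 0) (nat_lit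 0x9065540100) (nat_lit 0xf423f00000f423fb71ae1f156f423f00000f423fb71ae1f156) (.cons (nat_lit 4) (nat_lit 6) (nat_lit 0) (nat_lit 0x8770502100) (nat_lit 0xf423fb71aea2c2800000f423f00000f423fb71aea2c2804737) (.cons (nat_lit 4) (nat_lit 8) (nat_lit 0) (nat_lit 0x9065502100) (nat_lit 0xf423f00000f423fb71ae1f15600000f423fb71aea2c2804737) (.cons (nat_lit 4) (nat_lit 9) (nat_lit 0) (nat_lit 0x765502100) (nat_lit 0xf423fb71aea2c280473700000f423fb71aea2c2804737) .nil))))))))))) (.l31 (nat_lit 0x4321098765))) (.split (nat_lit 0xa) (nat_lit 0) (.split (nat_lit 0xa) (nat_lit 1) (.split (nat_lit 0xa) (nat_lit 2) (.split (nat_lit 0xa) (nat_lit 3) (.split (nat_lit 0xa) (nat_lit 4) (.split (nat_lit 0xa) (nat_lit 6) (.split (nat_lit 0xa) (nat_lit 7) (.split (nat_lit 0xa) (nat_lit 8) (.split (nat_lit 0xa) (nat_lit 9) (.unj (nat_lit 0x105400) (nat_lit 0x10000000000010002000200000000000000000000) (nat_lit 0x155) (nat_lit 0x10002000300040003)) (.non (nat_lit 0) (nat_lit 5) (nat_lit 0x155140) (nat_lit 0x10002000300020001000000020001000000000000)))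 (.non (nat_lit 0) (nat_lit 5) (nat_lit 0x154100) (nat_lit 0x10001000200010000000000010000000000000000))) (.non (nat_lit 0) (nat_lit 5) (nat_lit 0x155100) (nat_lit 0x10001000200020001000000010000000000000000))) (.non (nat_lit 0) (nat_lit 5) (nat_lit 0x155150) (nat_lit 0x10002000400030002000000030002000100000000))) (.non (nat_lit 0) (nat_lit 5) (nat_lit 0x154140) (nat_lit 0x10001000200010000000000020001000000000000))) (.non (nat_lit 0) (nat_lit 5) (nat_lit 0x154150) (nat_lit 0x10001000200010000000000020002000100000000))) (.non (nat_lit 0) (nat_lit 5) (nat_lit 0x154154) (nat_lit 0x10001000200010000000000020002000200010000))) (.star (nat_lit 0xa) (nat_lit 1) (nat_lit 5))) (.star (nat_lit 0xa) (nat_lit 0) (nat_lit 5))))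

noncomputable def t1538_4 : Tr := (.st (nat_lit 9) (nat_lit 0) (nat_lit 5) (nat_lit 0x55140) (nat_lit 0x2000300020001000000020001000000000000) (nat_lit 1) (nat_lit 1) (.ex (nat_lit 0) (.split (nat_lit 4) (nat_lit 3) (.split (nat_lit 8) (nat_lit 4) (.split (nat_lit 9) (nat_lit 8) (.pd (.cons (nat_lit 2) (nat_lit 5) (nat_lit 0) (nat_lit 0x8487033000) (nat_lit 0xf423f65b97b71aef423f0000061a795b8cc00000f423f54591) (.cons (nat_lit 2) (nat_lit 7) (nat_lit 0) (nat_lit 0x8405533000) (nat_lit 0xf423fb71ae00000f423f54591a2c289896500000f423f54591) (.cons (nat_lit 3) (nat_lit 5) (nat_lit 0) (nat_lit 0x8487040100) (nat_lit 0xf423f65b97b71aef423f0000061a7900000f423fb71ae1f156) (.cons (nat_lit 3) (nat_lit 7) (nat_lit 0) (nat_lit 0x8405540100) (nat_lit 0xf423fb71ae00000f423f54591a2c2800000f423fb71ae1f156) (.cons (nat_lit 4) (nat_lit 5) (nat_lit 0) (nat_lit 0x8766002100) (nat_lit 0xf423fb71aea2c28989650000000000f423fb71aea2c2804737) (.cons (nat_lit 4) (nat_lit 7) (nat_lit 0) (nat_lit 0x8805502100) (nat_lit 0xf423fb71ae00000f423f5459100000f423fb71aea2c2804737)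 .nil)))))) t1538_3) (.non (nat_lit 0) (nat_lit 5) (nat_lit 0x94100) (nat_lit 0x1000200010000000000010000000000000000))) (.non (nat_lit 0) (nat_lit 5) (nat_lit 0xa8100) (nat_lit 0x1000200010000000000020000000000000000))) (.non (nat_lit 0) (nat_lit 5) (nat_lit 0xa8240) (nat_lit 0x1000200010000000000020002000000000000))) (.split (nat_lit 0xa) (nat_lit 1) (.split (nat_lit 0xa) (nat_lit 2) (.split (nat_lit 0xa) (nat_lit 3) (.split (nat_lit 0xa) (nat_lit 4) (.split (nat_lit 0xa) (nat_lit 5) (.split (nat_lit 0xa) (nat_lit 6) (.split (nat_lit 0xa) (nat_lit 7) (.split (nat_lit 0xa) (nat_lit 8) (.split (nat_lit 0xa) (nat_lit 9) (.unj (nat_lit 0x100015) (nat_lit 0x10000000000000000000000000000000100020002) (nat_lit 0x15500) (nat_lit 0x200030004000300010000000000000000)) (.non (nat_lit 0) (nat_lit 5) (nat_lit 0x155140) (nat_lit 0x10002000300020001000000020001000000000000))) (.non (nat_lit 0) (nat_lit 5) (nat_lit 0x154100) (nat_lit 0x10001000200010000000000010000000000000000))) (.star (nat_lit 0xa) (nat_lit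 0) (nat_lit 7))) (.non (nat_lit 0) (nat_lit 5) (nat_lit 0x155150) (nat_lit 0x10002000400030002000000030002000100000000))) (.star (nat_lit 0xa) (nat_lit 0) (nat_lit 5))) (.non (nat_lit 0) (nat_lit 5) (nat_lit 0x154140) (nat_lit 0x10001000200010000000000020001000000000000))) (.non (nat_lit 0) (nat_lit 5) (nat_lit 0x154150) (nat_lit 0x10001000200010000000000020002000100000000))) (.non (nat_lit 0) (nat_lit 5) (nat_lit 0x154154) (nat_lit 0x10001000200010000000000020002000200010000))) (.non (nat_lit 0) (nat_lit 5) (nat_lit 0x155154) (nat_lit 0x10003000600040002000000050004000300020000)))))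

noncomputable def t1538_5 : Tr := (.ex (nat_lit 5) (.pd (.cons (nat_lit 0) (nat_lit 6) (nat_lit 0) (nat_lit 0x3980532110) (nat_lit 0xa2c28b71aef423f00000f423ff423f5b8d45160d3d07c00000) (.cons (nat_lit 0) (nat_lit 8) (nat_lit 0) (nat_lit 0x3065532110) (nat_lit 0xf423f00000f423fb71ae1f156f423f7a11d7a11b7a11900000) (.cons (nat_lit 0) (nat_lit 9) (nat_lit 0) (nat_lit 0x765532110) (nat_lit 0xf423fb71aea2c2804737f423fb71aea2c289896500000) (.cons (nat_lit 1) (nat_lit 6) (nat_lit 0) (nat_lit 0x3980532200) (nat_lit 0xa2c28b71aef423f00000f423ff423f5b8d45160d00000f423f) (.cons (nat_lit 1) (nat_lit 8) (nat_lit 0) (nat_lit 0x3065532200) (nat_lit 0xf423f00000f423fb71ae1f156f423f7a11d7a11b00000f423f) (.cons (nat_lit 1) (nat_lit 9) (nat_lit 0) (nat_lit 0x765532200) (nat_lit 0xf423fb71aea2c2804737f423fb71aea2c2800000f423f) (.cons (nat_lit 2) (nat_lit 6) (nat_lit 0) (nat_lit 0x3980533000) (nat_lit 0xa2c28b71aef423f00000f423ff423f5b8d400000f423f54591) (.cons (nat_lit 2) (nat_lit 8) (nat_lit 0) (nat_lit 0x3065533000)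 (nat_lit 0xf423f00000f423fb71ae1f156f423f7a11d00000f423f54591) (.cons (nat_lit 2) (nat_lit 9) (nat_lit 0) (nat_lit 0x765533000) (nat_lit 0xf423fb71aea2c2804737f423fb71ae00000f423f54591) (.cons (nat_lit 3) (nat_lit 6) (nat_lit 0) (nat_lit 0x8770540100) (nat_lit 0xf423fb71aea2c2800000f423ff423f00000f423fb71ae1f156) (.cons (nat_lit 3) (nat_lit 8) (nat_lit 0) (nat_lit 0x9065540100) (nat_lit 0xf423f00000f423fb71ae1f156f423f00000f423fb71ae1f156) (.cons (nat_lit 3) (nat_lit 9) (nat_lit 0) (nat_lit 0x765540100) (nat_lit 0xf423fb71aea2c2804737f423f00000f423fb71ae1f156) (.cons (nat_lit 4) (nat_lit 9) (nat_lit 0) (nat_lit 0x765502100) (nat_lit 0xf423fb71aea2c280473700000f423fb71aea2c2804737) .nil))))))))))))) (.l31 (nat_lit 0x9876543210))) (.split (nat_lit 0xa) (nat_lit 0) (.split (nat_lit 0xa) (nat_lit 1) (.split (nat_lit 0xa) (nat_lit 2) (.split (nat_lit 0xa) (nat_lit 3) (.split (nat_lit 0xa) (nat_lit 4) (.split (nat_lit 0xa) (nat_lit 6) (.split (nat_lit 0xa) (nat_lit 7) (.split (nat_lit 0xa) (nat_lit 8)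 (.split (nat_lit 0xa) (nat_lit 9) (.unj (nat_lit 0x105400) (nat_lit 0x10000000000010002000200000000000000000000) (nat_lit 0x155) (nat_lit 0x10002000300040003)) (.non (nat_lit 0) (nat_lit 5) (nat_lit 0x150150) (nat_lit 0x10002000100000000000000010002000100000000))) (.non (nat_lit 0) (nat_lit 5) (nat_lit 0x154150) (nat_lit 0x10002000200010000000000010002000100000000))) (.non (nat_lit 0) (nat_lit 5) (nat_lit 0x155150) (nat_lit 0x10002000200020001000000010002000100000000))) (.non (nat_lit 0) (nat_lit 5) (nat_lit 0x155154) (nat_lit 0x10005000400030002000000030006000400020000))) (.non (nat_lit 0) (nat_lit 5) (nat_lit 0x150154) (nat_lit 0x10002000100000000000000020003000200010000))) (.non (nat_lit 0) (nat_lit 5) (nat_lit 0x140150) (nat_lit 0x10001000000000000000000010002000100000000))) (.non (nat_lit 0) (nat_lit 5) (nat_lit 0x140154) (nat_lit 0x10001000000000000000000010002000200010000))) (.star (nat_lit 0xa) (nat_lit 1) (nat_lit 5))) (.star (nat_lit 0xa) (nat_lit 0) (nat_lit 5))))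

noncomputable def t1538_6 : Tr := (.st (nat_lit 9) (nat_lit 0) (nat_lit 5) (nat_lit 0x50150) (nat_lit 0x2000100000000000000010002000100000000) (nat_lit 1) (nat_lit 1) (.st (nat_lit 4) (nat_lit 0) (nat_lit 5) (nat_lit 0x50154) (nat_lit 0x2000100000000000000020003000200010000) (nat_lit 1) (nat_lit 1) (.ex (nat_lit 0) (.split (nat_lit 4) (nat_lit 3) (.split (nat_lit 9) (nat_lit 3) (.split (nat_lit 9) (nat_lit 8) (.pd (.cons (nat_lit 2) (nat_lit 5) (nat_lit 0) (nat_lit 0x3987033000) (nat_lit 0x98965a2c28b71aef423f00000f423f5572c00000f423f54591) (.cons (nat_lit 2) (nat_lit 7) (nat_lit 0) (nat_lit 0x3905533000) (nat_lit 0xb71aef423f00000f423f54591f423f65b9700000f423f54591) (.cons (nat_lit 3) (nat_lit 5) (nat_lit 0) (nat_lit 0x8766040100) (nat_lit 0xf423fb71aea2c289896500000f423f00000f423fb71ae1f156) (.cons (nat_lit 3) (nat_lit 7) (nat_lit 0) (nat_lit 0x8805540100) (nat_lit 0xf423fb71ae00000f423f54591f423f00000f423fb71ae1f156) .nil)))) t1538_5) (.non (nat_lit 0) (nat_lit 5) (nat_lit 0x6a040) (nat_lit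 0x4000300020001000000000002000000000000))) (.non (nat_lit 0) (nat_lit 5) (nat_lit 0xa8140) (nat_lit 0x3000200010000000000020004000000000000))) (.non (nat_lit 0) (nat_lit 5) (nat_lit 0x40250) (nat_lit 0x1000000000000000000010002000100000000))) (.split (nat_lit 0xa) (nat_lit 1) (.split (nat_lit 0xa) (nat_lit 2) (.split (nat_lit 0xa) (nat_lit 3) (.split (nat_lit 0xa) (nat_lit 4) (.split (nat_lit 0xa) (nat_lit 5) (.split (nat_lit 0xa) (nat_lit 6) (.split (nat_lit 0xa) (nat_lit 7) (.split (nat_lit 0xa) (nat_lit 8) (.split (nat_lit 0xa) (nat_lit 9) (.unj (nat_lit 0x100015) (nat_lit 0x10000000000000000000000000000000100020002) (nat_lit 0x55400) (nat_lit 0x1000200030004000300000000000000000000)) (.non (nat_lit 0) (nat_lit 5) (nat_lit 0x150150) (nat_lit 0x10002000100000000000000010002000100000000))) (.non (nat_lit 0) (nat_lit 5) (nat_lit 0x154150) (nat_lit 0x10002000200010000000000010002000100000000))) (.star (nat_lit 0xa) (nat_lit 0) (nat_lit 7))) (.non (nat_lit 0) (nat_lit 5) (nat_lit 0x155154) (nat_lit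 0x10005000400030002000000030006000400020000))) (.star (nat_lit 0xa) (nat_lit 0) (nat_lit 5))) (.non (nat_lit 0) (nat_lit 5) (nat_lit 0x150154) (nat_lit 0x10002000100000000000000020003000200010000))) (.non (nat_lit 0) (nat_lit 5) (nat_lit 0x140150) (nat_lit 0x10001000000000000000000010002000100000000))) (.non (nat_lit 0) (nat_lit 5) (nat_lit 0x140154) (nat_lit 0x10001000000000000000000010002000200010000))) (.non (nat_lit 0) (nat_lit 5) (nat_lit 0x154154) (nat_lit 0x10003000200010000000000020004000300020000))))))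

noncomputable def t1538_7 : Tr := (.split (nat_lit 9) (nat_lit 3) (.split (nat_lit 9) (nat_lit 4) (.split (nat_lit 8) (nat_lit 4) (.split (nat_lit 7) (nat_lit 4) .uj (.st (nat_lit 1) (nat_lit 0) (nat_lit 5) (nat_lit 0x55154) (nat_lit 0x2000400060003000000050004000300020000) (nat_lit 1) (nat_lit 1) (.st (nat_lit 2) (nat_lit 0) (nat_lit 5) (nat_lit 0x15154) (nat_lit 0x100020001000000020002000200010000) (nat_lit 1) (nat_lit 1) (.st (nat_lit 3) (nat_lit 0) (nat_lit 5) (nat_lit 0x15150) (nat_lit 0x100020001000000020002000100000000) (nat_lit 1) (nat_lit 1) (.st (nat_lit 4) (nat_lit 0) (nat_lit 5) (nat_lit 0x15140) (nat_lit 0x100020001000000020001000000000000) (nat_lit 1) (nat_lit 1) (.st (nat_lit 6) (nat_lit 0) (nat_lit 5) (nat_lit 0x55140) (nat_lit 0x1000200030002000000020001000000000000) (nat_lit 1) (nat_lit 1) (.st (nat_lit 7) (nat_lit 0) (nat_lit 5) (nat_lit 0x15100) (nat_lit 0x100020001000000010000000000000000) (nat_lit 1) (nat_lit 1) (.st (nat_lit 8) (nat_lit 0) (nat_lit 5) (nat_lit 0x55100) (nat_lit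 0x1000200020001000000010000000000000000) (nat_lit 1) (nat_lit 1) t1538_2)))))))) (.split (nat_lit 7) (nat_lit 4) (.st (nat_lit 1) (nat_lit 0) (nat_lit 5) (nat_lit 0x55154) (nat_lit 0x3000600040002000000050004000300020000) (nat_lit 1) (nat_lit 1) (.st (nat_lit 2) (nat_lit 0) (nat_lit 5) (nat_lit 0x54154) (nat_lit 0x1000200010000000000020002000200010000) (nat_lit 1) (nat_lit 1) (.st (nat_lit 3) (nat_lit 0) (nat_lit 5) (nat_lit 0x54150) (nat_lit 0x1000200010000000000020002000100000000) (nat_lit 1) (nat_lit 1) (.st (nat_lit 4) (nat_lit 0) (nat_lit 5) (nat_lit 0x54140) (nat_lit 0x1000200010000000000020001000000000000) (nat_lit 1) (nat_lit 1) (.st (nat_lit 6) (nat_lit 0) (nat_lit 5) (nat_lit 0x55150) (nat_lit 0x2000400030002000000030002000100000000) (nat_lit 1) (nat_lit 1) (.st (nat_lit 7) (nat_lit 0) (nat_lit 5) (nat_lit 0x55100) (nat_lit 0x1000200020001000000010000000000000000) (nat_lit 1) (nat_lit 1) (.st (nat_lit 8) (nat_lit 0) (nat_lit 5) (nat_lit 0x54100) (nat_lit 0x1000200010000000000010000000000000000)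 (nat_lit 1) (nat_lit 1) t1538_4))))))) (.non (nat_lit 0) (nat_lit 5) (nat_lit 0x14100) (nat_lit 0x100010000000000010000000000000000)))) (.split (nat_lit 8) (nat_lit 4) (.split (nat_lit 7) (nat_lit 4) (.sup (nat_lit 0x100040007000a0008) (nat_lit 0x100040007000a000800000000000000000000)) (.non (nat_lit 0) (nat_lit 5) (nat_lit 0x54100) (nat_lit 0x1000100010000000000010000000000000000))) (.non (nat_lit 0) (nat_lit 5) (nat_lit 0x50100) (nat_lit 0x1000100000000000000010000000000000000)))) (.split (nat_lit 9) (nat_lit 4) (.split (nat_lit 8) (nat_lit 4) (.split (nat_lit 7) (nat_lit 4) (.st (nat_lit 1) (nat_lit 0) (nat_lit 5) (nat_lit 0x54154) (nat_lit 0x3000200010000000000020004000300020000) (nat_lit 1) (nat_lit 1) (.st (nat_lit 2) (nat_lit 0) (nat_lit 5) (nat_lit 0x40154) (nat_lit 0x1000000000000000000010002000200010000) (nat_lit 1) (nat_lit 1) (.st (nat_lit 3) (nat_lit 0) (nat_lit 5) (nat_lit 0x40150) (nat_lit 0x1000000000000000000010002000100000000) (nat_lit 1) (nat_lit 1) (.st (nat_lit 6) (nat_lit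 0) (nat_lit 5) (nat_lit 0x55154) (nat_lit 0x5000400030002000000030006000400020000) (nat_lit 1) (nat_lit 1) (.st (nat_lit 7) (nat_lit 0) (nat_lit 5) (nat_lit 0x55150) (nat_lit 0x2000200020001000000010002000100000000) (nat_lit 1) (nat_lit 1) (.st (nat_lit 8) (nat_lit 0) (nat_lit 5) (nat_lit 0x54150) (nat_lit 0x2000200010000000000010002000100000000) (nat_lit 1) (nat_lit 1) t1538_6)))))) (.non (nat_lit 0) (nat_lit 5) (nat_lit 0x54140) (nat_lit 0x1000100010000000000010001000000000000))) (.non (nat_lit 0) (nat_lit 5) (nat_lit 0x50140) (nat_lit 0x1000100000000000000010001000000000000))) (.non (nat_lit 0) (nat_lit 5) (nat_lit 0x40140) (nat_lit 0x1000000000000000000010001000000000000))))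

noncomputable def t1538_8 : Tr := (.split (nat_lit 4) (nat_lit 3) (.pd (.cons (nat_lit 0) (nat_lit 6) (nat_lit 0) (nat_lit 0x2980532110) (nat_lit 0xa2c28b71aef423f00000f423ff423fb71ae4734e22dfa00000) (.cons (nat_lit 0) (nat_lit 8) (nat_lit 0) (nat_lit 0x2065532110) (nat_lit 0xf423f00000f423fb71ae1f156f423fb71ae65b9761a7900000) (.cons (nat_lit 0) (nat_lit 9) (nat_lit 0) (nat_lit 0x765532110) (nat_lit 0xf423fb71aea2c2804737f423fb71aea2c289896500000) (.cons (nat_lit 1) (nat_lit 6) (nat_lit 0) (nat_lit 0x2980532200) (nat_lit 0xa2c28b71aef423f00000f423ff423fb71ae4734e00000f423f) (.cons (nat_lit 1) (nat_lit 8) (nat_lit 0) (nat_lit 0x2065532200) (nat_lit 0xf423f00000f423fb71ae1f156f423fb71ae65b9700000f423f) (.cons (nat_lit 1) (nat_lit 9) (nat_lit 0) (nat_lit 0x765532200) (nat_lit 0xf423fb71aea2c2804737f423fb71aea2c2800000f423f) (.cons (nat_lit 2) (nat_lit 6) (nat_lit 0) (nat_lit 0x8770533000) (nat_lit 0xf423fb71aea2c2800000f423ff423fb71ae00000f423f54591) (.cons (nat_lit 2) (nat_lit 8) (nat_lit 0) (nat_lit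 0x9065533000) (nat_lit 0xf423f00000f423fb71ae1f156f423fb71ae00000f423f54591) (.cons (nat_lit 2) (nat_lit 9) (nat_lit 0) (nat_lit 0x765533000) (nat_lit 0xf423fb71aea2c2804737f423fb71ae00000f423f54591) (.cons (nat_lit 3) (nat_lit 8) (nat_lit 0) (nat_lit 0x2065540100) (nat_lit 0xf423f00000f423fb71ae1f156f423f00000b71aea2c2804737) (.cons (nat_lit 3) (nat_lit 9) (nat_lit 0) (nat_lit 0x765540100) (nat_lit 0xf423fb71aea2c2804737f423f00000f423fb71ae1f156) (.cons (nat_lit 4) (nat_lit 9) (nat_lit 0) (nat_lit 0x765502100) (nat_lit 0xf423fb71aea2c280473700000f423fb71aea2c2804737) .nil)))))))))))) (.leaf (.cons (nat_lit 0x50015) (nat_lit 0x2000100000000000000000000000300040003) (.cons (nat_lit 0x40055) (nat_lit 0x1000000000000000000000001000200020002) .nil)) (.cons (nat_lit 0x1111011110) (nat_lit 0x100001) (nat_lit 0xe) (nat_lit 0x4567032010) (.cons (nat_lit 0x1110011110) (nat_lit 0x1000001) (nat_lit 0xd) (nat_lit 0x4560032010) (.cons (nat_lit 0x1100011110) (nat_lit 0x10000001) (nat_lit 0xc) (nat_lit 0x4500032010)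 (.cons (nat_lit 0x1000011110) (nat_lit 0x100000001) (nat_lit 8) (nat_lit 0x2000043010) (.cons (nat_lit 0x1111011100) (nat_lit 0x100010) (nat_lit 5) (nat_lit 0x3456001200) (.cons (nat_lit 0x1110011100) (nat_lit 0x1000010) (nat_lit 4) (nat_lit 0x3450001200) (.cons (nat_lit 0x1100011100) (nat_lit 0x10000010) (nat_lit 3) (nat_lit 0x3400001200) (.cons (nat_lit 0x1000000111) (nat_lit 0x100001000) (nat_lit 0x10) (nat_lit 0x3000000210) .nil)))))))))) (.non (nat_lit 0) (nat_lit 5) (nat_lit 0x40254) (nat_lit 0x1000000000000000000010002000200010000)))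

noncomputable def t1538_9 : Tr := (.ex (nat_lit 0) (.split (nat_lit 9) (nat_lit 8) (.pd (.cons (nat_lit 2) (nat_lit 5) (nat_lit 0x11000) (nat_lit 0x8766034000) (nat_lit 0xf423fb71aea2c289896500000000010000100000f423f54591) (.cons (nat_lit 2) (nat_lit 7) (nat_lit 0x11000) (nat_lit 0x8805534000) (nat_lit 0xf423fb71ae00000f423f54591000010000100000f423f54591) .nil)) (.ex (nat_lit 5) (.split (nat_lit 9) (nat_lit 2) t1538_8 (.non (nat_lit 0) (nat_lit 5) (nat_lit 0xa8050) (nat_lit 0x3000200010000000000000002000400000000))) (.split (nat_lit 0xa) (nat_lit 0) (.split (nat_lit 0xa) (nat_lit 1) (.split (nat_lit 0xa) (nat_lit 2) (.split (nat_lit 0xa) (nat_lit 3) (.split (nat_lit 0xa) (nat_lit 4) (.split (nat_lit 0xa) (nat_lit 6) (.split (nat_lit 0xa) (nat_lit 7) (.split (nat_lit 0xa) (nat_lit 8) (.split (nat_lit 0xa) (nat_lit 9) (.unj (nat_lit 0x105400) (nat_lit 0x10000000000010002000200000000000000000000) (nat_lit 0x155) (nat_lit 0x10002000300040003)) (.non (nat_lit 0) (nat_lit 5) (nat_lit 0x155150) (nat_lit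 0x20004000300020001000000010002000300000000))) (.non (nat_lit 0) (nat_lit 5) (nat_lit 0x154054) (nat_lit 0x10002000200010000000000000001000200010000))) (.non (nat_lit 0) (nat_lit 5) (nat_lit 0x155054) (nat_lit 0x10002000200020001000000000001000200010000))) (.non (nat_lit 0) (nat_lit 5) (nat_lit 0x155154) (nat_lit 0x10005000400030002000000020004000600030000))) (.non (nat_lit 0) (nat_lit 5) (nat_lit 0x154154) (nat_lit 0x10003000200010000000000020003000400020000))) (.non (nat_lit 0) (nat_lit 5) (nat_lit 0x140154) (nat_lit 0x10001000000000000000000010002000200010000))) (.non (nat_lit 0) (nat_lit 5) (nat_lit 0x140054) (nat_lit 0x10001000000000000000000000001000200010000))) (.star (nat_lit 0xa) (nat_lit 1) (nat_lit 5))) (.star (nat_lit 0xa) (nat_lit 0) (nat_lit 5))))) (.non (nat_lit 0) (nat_lit 5) (nat_lit 0x6a010) (nat_lit 0x4000300020001000000000000000200000000))) (.split (nat_lit 0xa) (nat_lit 1) (.split (nat_lit 0xa) (nat_lit 2) (.split (nat_lit 0xa) (nat_lit 3) (.split (nat_lit 0xa) (nat_lit 4)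 (.split (nat_lit 0xa) (nat_lit 5) (.split (nat_lit 0xa) (nat_lit 6) (.split (nat_lit 0xa) (nat_lit 7) (.split (nat_lit 0xa) (nat_lit 8) (.split (nat_lit 0xa) (nat_lit 9) (.sup (nat_lit 0x5000000000000000000000000000000020009000a) (nat_lit 0x100040007000a000800000000000000000000)) (.non (nat_lit 0) (nat_lit 5) (nat_lit 0x155150) (nat_lit 0x20004000300020001000000010002000300000000))) (.non (nat_lit 0) (nat_lit 5) (nat_lit 0x154054) (nat_lit 0x10002000200010000000000000001000200010000))) (.star (nat_lit 0xa) (nat_lit 0) (nat_lit 7))) (.non (nat_lit 0) (nat_lit 5) (nat_lit 0x155154) (nat_lit 0x10005000400030002000000020004000600030000))) (.star (nat_lit 0xa) (nat_lit 0) (nat_lit 5))) (.non (nat_lit 0) (nat_lit 5) (nat_lit 0x154154) (nat_lit 0x10003000200010000000000020003000400020000))) (.non (nat_lit 0) (nat_lit 5) (nat_lit 0x140154) (nat_lit 0x10001000000000000000000010002000200010000))) (.non (nat_lit 0) (nat_lit 5) (nat_lit 0x140054) (nat_lit 0x10001000000000000000000000001000200010000))) (.non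 (nat_lit 0) (nat_lit 5) (nat_lit 0x150154) (nat_lit 0x10002000100000000000000010002000300020000))))

noncomputable def t1538_10 : Tr := (.split (nat_lit 4) (nat_lit 3) (.pd (.cons (nat_lit 0) (nat_lit 6) (nat_lit 0) (nat_lit 0x1980532110) (nat_lit 0xa2c28b71aef423f00000f423ff423fb71aea2c283d08b00000) (.cons (nat_lit 0) (nat_lit 8) (nat_lit 0) (nat_lit 0x1065532110) (nat_lit 0xf423f00000f423fb71ae1f156f423fb71aea2c285b8d400000) (.cons (nat_lit 0) (nat_lit 9) (nat_lit 0) (nat_lit 0x765532110) (nat_lit 0xf423fb71aea2c2804737f423fb71aea2c289896500000) (.cons (nat_lit 1) (nat_lit 6) (nat_lit 0) (nat_lit 0x8770532200) (nat_lit 0xf423fb71aea2c2800000f423ff423fb71aea2c2800000f423f) (.cons (nat_lit 1) (nat_lit 8) (nat_lit 0) (nat_lit 0x9065532200) (nat_lit 0xf423f00000f423fb71ae1f156f423fb71aea2c2800000f423f) (.cons (nat_lit 1) (nat_lit 9) (nat_lit 0) (nat_lit 0x765532200) (nat_lit 0xf423fb71aea2c2804737f423fb71aea2c2800000f423f) (.cons (nat_lit 2) (nat_lit 8) (nat_lit 0) (nat_lit 0x1065533000) (nat_lit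 0xf423f00000f423fb71ae1f156f423fb71ae00000b71ae1f156) (.cons (nat_lit 2) (nat_lit 9) (nat_lit 0) (nat_lit 0x765533000) (nat_lit 0xf423fb71aea2c2804737f423fb71ae00000f423f54591) (.cons (nat_lit 3) (nat_lit 9) (nat_lit 0) (nat_lit 0x765540100) (nat_lit 0xf423fb71aea2c2804737f423f00000f423fb71ae1f156) (.cons (nat_lit 4) (nat_lit 9) (nat_lit 0) (nat_lit 0x765502100) (nat_lit 0xf423fb71aea2c280473700000f423fb71aea2c2804737) .nil)))))))))) (.leaf (.cons (nat_lit 0x54005) (nat_lit 0x3000200010000000000000000000000040003) (.cons (nat_lit 0x40015) (nat_lit 0x1000000000000000000000000000100020002) .nil)) (.cons (nat_lit 0x1100000011) (nat_lit 0x10000100) (nat_lit 0x10) (nat_lit 0x2300000010) .nil))) (.split (nat_lit 4) (nat_lit 3) (.pd (.cons (nat_lit 0) (nat_lit 6) (nat_lit 0) (nat_lit 0x1980532110) (nat_lit 0xa2c28b71aef423f00000f423ff423f7a11e7a11c1e84000000) (.cons (nat_lit 0) (nat_lit 8) (nat_lit 0) (nat_lit 0x1065532110) (nat_lit 0xf423f00000f423fb71ae1f156f423f7a11e7a11c3d08900000) (.cons (nat_lit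 0) (nat_lit 9) (nat_lit 0) (nat_lit 0x765532110) (nat_lit 0xf423fb71aea2c2804737f423f7a11e7a11c7a11a00000) (.cons (nat_lit 1) (nat_lit 6) (nat_lit 0) (nat_lit 0x8770532200) (nat_lit 0xf423fb71aea2c2800000f423ff423f7a11e7a11c00000f423f) (.cons (nat_lit 1) (nat_lit 8) (nat_lit 0) (nat_lit 0x9065532200) (nat_lit 0xf423f00000f423fb71ae1f156f423f7a11e7a11c00000f423f) (.cons (nat_lit 1) (nat_lit 9) (nat_lit 0) (nat_lit 0x765532200) (nat_lit 0xf423fb71aea2c2804737f423f7a11e7a11c00000f423f) (.cons (nat_lit 2) (nat_lit 8) (nat_lit 0) (nat_lit 0x1065533000) (nat_lit 0xf423f00000f423fb71ae1f156f423f7a11e00000b71ae1f156) (.cons (nat_lit 2) (nat_lit 9) (nat_lit 0) (nat_lit 0x765533000) (nat_lit 0xf423fb71aea2c2804737f423f7a11e00000f423f54591) (.cons (nat_lit 3) (nat_lit 9) (nat_lit 0) (nat_lit 0x765540100) (nat_lit 0xf423fb71aea2c2804737f423f00000f423fb71ae1f156) (.cons (nat_lit 4) (nat_lit 9) (nat_lit 0) (nat_lit 0x765502100) (nat_lit 0xf423fb71aea2c280473700000f423fb71aea2c2804737) .nil)))))))))) (.leaf (.cons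 (nat_lit 0x54005) (nat_lit 0x3000200010000000000000000000000040003) (.cons (nat_lit 0x40015) (nat_lit 0x1000000000000000000000000000100020002) .nil)) (.cons (nat_lit 0x1100000011) (nat_lit 0x10000100) (nat_lit 0x10) (nat_lit 0x2300000010) .nil))) (.non (nat_lit 0) (nat_lit 5) (nat_lit 0x40154) (nat_lit 0x1000000000000000000030004000300020000))))

noncomputable def t1538_11 : Tr := (.ex (nat_lit 6) (.ex (nat_lit 7) t1538_10 (.split (nat_lit 0xa) (nat_lit 0) (.split (nat_lit 0xa) (nat_lit 1) (.split (nat_lit 0xa) (nat_lit 2) (.split (nat_lit 0xa) (nat_lit 3) (.split (nat_lit 0xa) (nat_lit 4) (.split (nat_lit 0xa) (nat_lit 6) (.split (nat_lit 0xa) (nat_lit 8) (.split (nat_lit 0xa) (nat_lit 9) (.split (nat_lit 0xa) (nat_lit 5) (.unj (nat_lit 0x155) (nat_lit 0x10002000300040003) (nat_lit 0x115400) (nat_lit 0x10000000100020002000200000000000000000000)) (.unj (nat_lit 0x40015) (nat_lit 0x1000000000000000000000000000100020002) (nat_lit 0x105400) (nat_lit 0x10000000000010001000100000000000000000000))) (.non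 (nat_lit 0) (nat_lit 5) (nat_lit 0x154000) (nat_lit 0x10001000100010000000000000000000000000000))) (.non (nat_lit 0) (nat_lit 5) (nat_lit 0x114000) (nat_lit 0x10000000100010000000000000000000000000000))) (.non (nat_lit 0) (nat_lit 5) (nat_lit 0x105000) (nat_lit 0x10000000000010001000000000000000000000000))) (.non (nat_lit 0) (nat_lit 5) (nat_lit 0x155144) (nat_lit 0x30002000300040002000000020001000000010000))) (.non (nat_lit 0) (nat_lit 5) (nat_lit 0x115150) (nat_lit 0x20000000100020001000000010002000100000000))) (.non (nat_lit 0) (nat_lit 5) (nat_lit 0x154014) (nat_lit 0x10001000100010000000000000000000100010000))) (.star (nat_lit 0xa) (nat_lit 1) (nat_lit 7))) (.star (nat_lit 0xa) (nat_lit 0) (nat_lit 7)))) (.split (nat_lit 0xa) (nat_lit 0) (.split (nat_lit 0xa) (nat_lit 1) (.split (nat_lit 0xa) (nat_lit 2) (.split (nat_lit 0xa) (nat_lit 3) (.split (nat_lit 0xa) (nat_lit 4) (.split (nat_lit 0xa) (nat_lit 5) (.split (nat_lit 0xa) (nat_lit 7) (.split (nat_lit 0xa) (nat_lit 8) (.split (nat_lit 0xa)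 (nat_lit 9) (.unj (nat_lit 0x40015) (nat_lit 0x1000000000000000000000000000100020002) (nat_lit 0x105400) (nat_lit 0x10000000000010002000200000000000000000000)) (.non (nat_lit 0) (nat_lit 5) (nat_lit 0x155000) (nat_lit 0x10001000100010001000000000000000000000000))) (.non (nat_lit 0) (nat_lit 5) (nat_lit 0x115000) (nat_lit 0x10000000100010001000000000000000000000000))) (.non (nat_lit 0) (nat_lit 5) (nat_lit 0x105000) (nat_lit 0x10000000000010001000000000000000000000000))) (.non (nat_lit 0) (nat_lit 7) (nat_lit 0x101400) (nat_lit 0x10000000000000001000100000000000000000000))) (.non (nat_lit 0) (nat_lit 5) (nat_lit 0x155154) (nat_lit 0x10001000100010001000000010001000100010000))) (.non (nat_lit 0) (nat_lit 5) (nat_lit 0x155054) (nat_lit 0x10001000100010001000000000001000100010000))) (.non (nat_lit 0) (nat_lit 5) (nat_lit 0x155014) (nat_lit 0x10001000100010001000000000000000100010000))) (.non (nat_lit 0) (nat_lit 5) (nat_lit 0x155004) (nat_lit 0x10001000100010001000000000000000000010000))) (.non (nat_lit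 2) (nat_lit 7) (nat_lit 0x140005) (nat_lit 0x10001000000000000000000000000000000020002))))

noncomputable def t1538_12 : Tr := (.ex (nat_lit 6) (.pd (.cons (nat_lit 0) (nat_lit 8) (nat_lit 0) (nat_lit 0x31065532110) (nat_lit 0xf423ff423f00000f423fb71ae1f156f423f7a11d7a11b3d08800000) (.cons (nat_lit 0) (nat_lit 9) (nat_lit 0) (nat_lit 0x30765532110) (nat_lit 0xf423f00000f423fb71aea2c2804737f423f7a11d7a11b7a11900000) (.cons (nat_lit 1) (nat_lit 8) (nat_lit 0) (nat_lit 0x39065532200) (nat_lit 0xf423ff423f00000f423fb71ae1f156f423f7a11d7a11b00000f423f) (.cons (nat_lit 1) (nat_lit 9) (nat_lit 0) (nat_lit 0x30765532200) (nat_lit 0xf423f00000f423fb71aea2c2804737f423f7a11d7a11b00000f423f) (.cons (nat_lit 2) (nat_lit 8) (nat_lit 0) (nat_lit 0x31065533000) (nat_lit 0xf423ff423f00000f423fb71ae1f156f423f7a11d00000b71ae1f156) (.cons (nat_lit 2) (nat_lit 9) (nat_lit 0) (nat_lit 0x30765533000) (nat_lit 0xf423f00000f423fb71aea2c2804737f423f7a11d00000f423f54591) (.cons (nat_lit 3) (nat_lit 9) (nat_lit 0) (nat_lit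 0xa0765540100) (nat_lit 0xf423f00000f423fb71aea2c2804737f423f00000f423fb71ae1f156) .nil))))))) (.leaf (.cons (nat_lit 0x54005) (nat_lit 0x3000200010000000000000000000000040003) (.cons (nat_lit 0x40015) (nat_lit 0x1000000000000000000000000000100020002) (.cons (nat_lit 0x100055) (nat_lit 0x10000000000000000000000000002000300040003) .nil))) (.cons (nat_lit 0x1100000011) (nat_lit 0x10000100) (nat_lit 0x10) (nat_lit 0x2300000010) .nil))) (.split (nat_lit 0xb) (nat_lit 0) (.split (nat_lit 0xb) (nat_lit 1) (.split (nat_lit 0xb) (nat_lit 2) (.split (nat_lit 0xb) (nat_lit 3) (.split (nat_lit 0xb) (nat_lit 4) (.split (nat_lit 0xb) (nat_lit 5) (.split (nat_lit 0xb) (nat_lit 7) (.split (nat_lit 0xb) (nat_lit 8) (.split (nat_lit 0xb) (nat_lit 9) (.split (nat_lit 0xb) (nat_lit 0xa) (.unj (nat_lit 0x40015) (nat_lit 0x1000000000000000000000000000100020002) (nat_lit 0x405400) (nat_lit 0x100000000000000010002000200000000000000000000)) (.non (nat_lit 0) (nat_lit 5) (nat_lit 0x555054) (nat_lit 0x100010001000100010001000000000001000100010000)))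 (.non (nat_lit 0) (nat_lit 5) (nat_lit 0x455000) (nat_lit 0x100000001000100010001000000000000000000000000))) (.non (nat_lit 0) (nat_lit 5) (nat_lit 0x415000) (nat_lit 0x100000000000100010001000000000000000000000000))) (.non (nat_lit 0) (nat_lit 5) (nat_lit 0x405000) (nat_lit 0x100000000000000010001000000000000000000000000))) (.non (nat_lit 0) (nat_lit 7) (nat_lit 0x401400) (nat_lit 0x100000000000000000001000100000000000000000000))) (.non (nat_lit 0) (nat_lit 5) (nat_lit 0x554154) (nat_lit 0x200030003000200010000000000040006000500040000))) (.non (nat_lit 0) (nat_lit 5) (nat_lit 0x500150) (nat_lit 0x100010000000000000000000000010002000100000000))) (.non (nat_lit 0) (nat_lit 5) (nat_lit 0x455014) (nat_lit 0x100000001000100010001000000000000000100010000))) (.non (nat_lit 0) (nat_lit 5) (nat_lit 0x455004) (nat_lit 0x100000001000100010001000000000000000000010000))) (.non (nat_lit 2) (nat_lit 7) (nat_lit 0x440005) (nat_lit 0x100000001000000000000000000000000000000020002))))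

noncomputable def t1538_13 : Tr := (.split (nat_lit 0xa) (nat_lit 7) (.split (nat_lit 0xa) (nat_lit 8) (.split (nat_lit 0xa) (nat_lit 9) (.st (nat_lit 7) (nat_lit 0) (nat_lit 5) (nat_lit 0x155154) (nat_lit 0x10002000200020001000000010002000200020000) (nat_lit 1) (nat_lit 1) (.ex (nat_lit 5) (.split (nat_lit 4) (nat_lit 3) (.split (nat_lit 0xa) (nat_lit 3) (.pd (.cons (nat_lit 0) (nat_lit 6) (nat_lit 0) (nat_lit 0x31980532110) (nat_lit 0xf423fa2c28b71aef423f00000f423ff423f7a11d7a11b1e83f00000) (.cons (nat_lit 1) (nat_lit 6) (nat_lit 0) (nat_lit 0x38770532200) (nat_lit 0xf423ff423fb71aea2c2800000f423ff423f7a11d7a11b00000f423f) .nil)) t1538_12) (.non (nat_lit 0) (nat_lit 5) (nat_lit 0x200150) (nat_lit 0x10000000000000000000000010002000100000000))) (.non (nat_lit 0) (nat_lit 5) (nat_lit 0x100250) (nat_lit 0x10000000000000000000000010002000100000000))) (.split (nat_lit 0xb) (nat_lit 0) (.split (nat_lit 0xb) (nat_lit 1) (.split (nat_lit 0xb) (nat_lit 2) (.split (nat_lit 0xb) (nat_lit 3) (.split (nat_lit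 0xb) (nat_lit 4) (.split (nat_lit 0xb) (nat_lit 6) (.split (nat_lit 0xb) (nat_lit 7) (.split (nat_lit 0xb) (nat_lit 8) (.split (nat_lit 0xb) (nat_lit 9) (.split (nat_lit 0xb) (nat_lit 0xa) (.unj (nat_lit 0x40015) (nat_lit 0x1000000000000000000000000000100020002) (nat_lit 0x405400) (nat_lit 0x100000000000000010002000200000000000000000000)) (.non (nat_lit 0) (nat_lit 5) (nat_lit 0x554154) (nat_lit 0x200040003000200010000000000030006000500040000))) (.non (nat_lit 0) (nat_lit 5) (nat_lit 0x455054) (nat_lit 0x200000004000300020001000000000001000200030000))) (.non (nat_lit 0) (nat_lit 5) (nat_lit 0x555054) (nat_lit 0x300010005000600040002000000000002000300040000))) (.non (nat_lit 0) (nat_lit 5) (nat_lit 0x555154) (nat_lit 0x100010002000200020001000000010002000200020000))) (.non (nat_lit 0) (nat_lit 7) (nat_lit 0x401400) (nat_lit 0x100000000000000000001000100000000000000000000))) (.non (nat_lit 0) (nat_lit 5) (nat_lit 0x554154) (nat_lit 0x200030003000200010000000000040006000500040000))) (.non (nat_lit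 0) (nat_lit 5) (nat_lit 0x500150) (nat_lit 0x100010000000000000000000000010002000100000000))) (.non (nat_lit 0) (nat_lit 5) (nat_lit 0x555054) (nat_lit 0x300020004000300020001000000000004000600050000))) (.star (nat_lit 0xb) (nat_lit 1) (nat_lit 5))) (.star (nat_lit 0xb) (nat_lit 0) (nat_lit 5))))) (.non (nat_lit 0) (nat_lit 5) (nat_lit 0x155144) (nat_lit 0x30004000300020001000000010002000000020000))) (.non (nat_lit 0) (nat_lit 5) (nat_lit 0x154150) (nat_lit 0x20001000200010000000000010002000100000000))) (.non (nat_lit 0) (nat_lit 5) (nat_lit 0x115150) (nat_lit 0x20000000100020001000000010002000100000000)))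

noncomputable def t1538_14 : Tr := (.split (nat_lit 9) (nat_lit 1) (.split (nat_lit 9) (nat_lit 8) (.pd (.cons (nat_lit 2) (nat_lit 7) (nat_lit 0x11000) (nat_lit 0x1905534000) (nat_lit 0xb71aef423f00000f423f54591000010000100000a2c2804737) .nil) (.ex (nat_lit 3) (.ex (nat_lit 5) t1538_11 (.split (nat_lit 0xa) (nat_lit 0) (.split (nat_lit 0xa) (nat_lit 1) (.split (nat_lit 0xa) (nat_lit 2) (.split (nat_lit 0xa) (nat_lit 3) (.split (nat_lit 0xa) (nat_lit 4) (.split (nat_lit 0xa) (nat_lit 6) (.split (nat_lit 0xa) (nat_lit 8) (.split (nat_lit 0xa) (nat_lit 9) (.split (nat_lit 0xa) (nat_lit 7) (.unj (nat_lit 0x40015) (nat_lit 0x1000000000000000000000000000100020002) (nat_lit 0x105400) (nat_lit 0x10000000000010002000200000000000000000000)) (.unj (nat_lit 0x40015) (nat_lit 0x1000000000000000000000000000100020002) (nat_lit 0x105400) (nat_lit 0x10000000000010001000100000000000000000000))) (.non (nat_lit 0) (nat_lit 5) (nat_lit 0x155054) (nat_lit 0x20004000300020001000000000001000200030000))) (.non (nat_lit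 0) (nat_lit 5) (nat_lit 0x155154) (nat_lit 0x30005000600040002000000010002000300040000))) (.non (nat_lit 0) (nat_lit 7) (nat_lit 0x101400) (nat_lit 0x10000000000000001000100000000000000000000))) (.non (nat_lit 0) (nat_lit 7) (nat_lit 0x101540) (nat_lit 0x30000000000000003000400020001000000000000))) (.non (nat_lit 0) (nat_lit 7) (nat_lit 0x101540) (nat_lit 0x30000000000000003000400010002000000000000))) (.non (nat_lit 0) (nat_lit 5) (nat_lit 0x155154) (nat_lit 0x30004000300020001000000020004000600050000))) (.star (nat_lit 0xa) (nat_lit 1) (nat_lit 5))) (.star (nat_lit 0xa) (nat_lit 0) (nat_lit 5)))) (.split (nat_lit 0xa) (nat_lit 0) (.split (nat_lit 0xa) (nat_lit 1) (.split (nat_lit 0xa) (nat_lit 2) (.split (nat_lit 0xa) (nat_lit 4) (.split (nat_lit 0xa) (nat_lit 5) (.split (nat_lit 0xa) (nat_lit 6) t1538_13 (.non (nat_lit 0) (nat_lit 5) (nat_lit 0x155054) (nat_lit 0x10001000100010001000000000001000100010000))) (.non (nat_lit 0) (nat_lit 7) (nat_lit 0x101540) (nat_lit 0x30000000000000003000400010002000000000000)))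 (.non (nat_lit 0) (nat_lit 5) (nat_lit 0x100140) (nat_lit 0x10000000000000000000000010001000000000000))) (.non (nat_lit 0) (nat_lit 5) (nat_lit 0x100050) (nat_lit 0x10000000000000000000000000001000100000000))) (.non (nat_lit 0) (nat_lit 5) (nat_lit 0x100054) (nat_lit 0x10000000000000000000000000001000100010000))) (.non (nat_lit 2) (nat_lit 7) (nat_lit 0x140005) (nat_lit 0x10001000000000000000000000000000000020002))))) (.non (nat_lit 0) (nat_lit 5) (nat_lit 0x6a004) (nat_lit 0x4000300020001000000000000000000020000))) (.non (nat_lit 0) (nat_lit 5) (nat_lit 0xa8014) (nat_lit 0x3000200010000000000000000000200040000)))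

noncomputable def t1538_15 : Tr := (.split (nat_lit 0xa) (nat_lit 5) (.split (nat_lit 0xa) (nat_lit 7) (.split (nat_lit 0xa) (nat_lit 8) (.split (nat_lit 0xa) (nat_lit 9) (.split (nat_lit 0xa) (nat_lit 3) (.split (nat_lit 0xa) (nat_lit 4) (.split (nat_lit 0xa) (nat_lit 6) (.split (nat_lit 0xa) (nat_lit 0) (.split (nat_lit 9) (nat_lit 1) (.sup (nat_lit 0x3000d00160020001a00000000000000000000) (nat_lit 0x30000000000000000000000020003000500060007)) (.non (nat_lit 0) (nat_lit 5) (nat_lit 0xa8014) (nat_lit 0x3000200010000000000000000000200040000))) (.split (nat_lit 0xa) (nat_lit 0) (.split (nat_lit 9) (nat_lit 1) (.sup (nat_lit 0x7000000000000000000000000000000000006000a) (nat_lit 0x100040007000a000800000000000000000000)) (.non (nat_lit 0) (nat_lit 5) (nat_lit 0xa8014) (nat_lit 0x3000200010000000000000000000200040000))) (.sup (nat_lit 0x8000000000000000000000000000000000004000a) (nat_lit 0x100040007000a000800000000000000000000)))) (.split (nat_lit 0xa) (nat_lit 0) (.sup (nat_lit 0x3000000000000000000000000000300050003)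 (nat_lit 0x10000000000030005000400000000000000000000)) (.non (nat_lit 1) (nat_lit 7) (nat_lit 0x101401) (nat_lit 0x10000000000000001000100000000000000000001)))) (.split (nat_lit 0xa) (nat_lit 6) (.split (nat_lit 0xa) (nat_lit 0) (.split (nat_lit 0xa) (nat_lit 4) (.split (nat_lit 9) (nat_lit 1) (.sup (nat_lit 0x1000300060008000600000000000000000000) (nat_lit 0x10000000000000000000000010001000100010001)) (.non (nat_lit 0) (nat_lit 5) (nat_lit 0xa8014) (nat_lit 0x3000200010000000000000000000200040000))) (.non (nat_lit 1) (nat_lit 5) (nat_lit 0x1002a1) (nat_lit 0x40000000000000000000000030002000100000002))) (.sup (nat_lit 0x30007000c0010000d00000000000000000000) (nat_lit 0x20000000000000000000000020001000100010002))) (.non (nat_lit 0) (nat_lit 5) (nat_lit 0x155154) (nat_lit 0x10001000100010001000000010001000100010000)))) (.split (nat_lit 0xa) (nat_lit 4) (.split (nat_lit 0xa) (nat_lit 6) (.sup (nat_lit 0x6000e00170020001a00000000000000000000) (nat_lit 0x50000000000000000000000030006000400020004)) (.non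 (nat_lit 0) (nat_lit 5) (nat_lit 0x155054) (nat_lit 0x10001000100010001000000000001000100010000))) (.non (nat_lit 0) (nat_lit 5) (nat_lit 0x100140) (nat_lit 0x10000000000000000000000010001000000000000)))) (.non (nat_lit 0) (nat_lit 5) (nat_lit 0x155054) (nat_lit 0x20004000300020001000000000001000200030000))) (.non (nat_lit 0) (nat_lit 5) (nat_lit 0x155154) (nat_lit 0x30005000600040002000000010002000300040000))) (.star (nat_lit 0xa) (nat_lit 0) (nat_lit 7))) (.star (nat_lit 0xa) (nat_lit 0) (nat_lit 5)))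

noncomputable def t1538_16 : Tr := (.split (nat_lit 9) (nat_lit 1) (.split (nat_lit 9) (nat_lit 2) t1538_7 (.split (nat_lit 9) (nat_lit 3) (.split (nat_lit 9) (nat_lit 4) (.split (nat_lit 8) (nat_lit 4) (.split (nat_lit 7) (nat_lit 4) (.st (nat_lit 1) (nat_lit 0) (nat_lit 5) (nat_lit 0x50154) (nat_lit 0x2000100000000000000010002000300020000) (nat_lit 1) (nat_lit 1) (.st (nat_lit 2) (nat_lit 0) (nat_lit 5) (nat_lit 0x40054) (nat_lit 0x1000000000000000000000001000200010000) (nat_lit 1) (nat_lit 1) (.st (nat_lit 3) (nat_lit 0) (nat_lit 5) (nat_lit 0x40154) (nat_lit 0x1000000000000000000010002000200010000) (nat_lit 1) (nat_lit 1) (.st (nat_lit 6) (nat_lit 0) (nat_lit 5) (nat_lit 0x55154) (nat_lit 0x5000400030002000000020004000600030000) (nat_lit 1) (nat_lit 1) (.st (nat_lit 7) (nat_lit 0) (nat_lit 5) (nat_lit 0x55054) (nat_lit 0x2000200020001000000000001000200010000) (nat_lit 1) (nat_lit 1) (.st (nat_lit 8) (nat_lit 0) (nat_lit 5) (nat_lit 0x54054) (nat_lit 0x2000200010000000000000001000200010000)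 (nat_lit 1) (nat_lit 1) (.st (nat_lit 9) (nat_lit 0) (nat_lit 5) (nat_lit 0x55150) (nat_lit 0x4000300020001000000010002000300000000) (nat_lit 1) (nat_lit 2) (.st (nat_lit 4) (nat_lit 0) (nat_lit 5) (nat_lit 0x54154) (nat_lit 0x3000200010000000000020003000400020000) (nat_lit 1) (nat_lit 1) t1538_9)))))))) (.non (nat_lit 0) (nat_lit 5) (nat_lit 0x54150) (nat_lit 0x1000100010000000000010001000100000000))) (.non (nat_lit 0) (nat_lit 5) (nat_lit 0x50150) (nat_lit 0x1000100000000000000010001000100000000))) (.non (nat_lit 0) (nat_lit 5) (nat_lit 0x40150) (nat_lit 0x1000000000000000000010001000100000000))) (.non (nat_lit 0) (nat_lit 5) (nat_lit 0x40050) (nat_lit 0x1000000000000000000000001000100000000)))) (.split (nat_lit 9) (nat_lit 2) (.split (nat_lit 9) (nat_lit 3) (.split (nat_lit 9) (nat_lit 4) (.split (nat_lit 8) (nat_lit 4) (.split (nat_lit 7) (nat_lit 4) (.st (nat_lit 1) (nat_lit 0) (nat_lit 5) (nat_lit 0x54154) (nat_lit 0x3000200010000000000010002000300040000) (nat_lit 1) (nat_lit 2) (.st (nat_lit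 2) (nat_lit 0) (nat_lit 5) (nat_lit 0x55154) (nat_lit 0x4000300020001000000020004000600050000) (nat_lit 1) (nat_lit 3) (.st (nat_lit 8) (nat_lit 0) (nat_lit 5) (nat_lit 0x55154) (nat_lit 0x5000600040002000000010002000300040000) (nat_lit 1) (nat_lit 3) (.st (nat_lit 9) (nat_lit 0) (nat_lit 5) (nat_lit 0x55054) (nat_lit 0x4000300020001000000000001000200030000) (nat_lit 1) (nat_lit 2) (.ex (nat_lit 0) t1538_14 (.split (nat_lit 0xa) (nat_lit 1) (.split (nat_lit 0xa) (nat_lit 2) t1538_15 (.non (nat_lit 0) (nat_lit 5) (nat_lit 0x155154) (nat_lit 0x30004000300020001000000020004000600050000))) (.non (nat_lit 0) (nat_lit 5) (nat_lit 0x154154) (nat_lit 0x20003000200010000000000010002000300040000)))))))) (.non (nat_lit 0) (nat_lit 5) (nat_lit 0x54154) (nat_lit 0x1000100010000000000010001000100010000))) (.non (nat_lit 0) (nat_lit 5) (nat_lit 0x55144) (nat_lit 0x2000300020001000000020001000000010000))) (.non (nat_lit 0) (nat_lit 5) (nat_lit 0x40154) (nat_lit 0x1000000000000000000010001000100010000))) (.non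 (nat_lit 0) (nat_lit 5) (nat_lit 0x40054) (nat_lit 0x1000000000000000000000001000100010000))) (.non (nat_lit 0) (nat_lit 5) (nat_lit 0x40014) (nat_lit 0x1000000000000000000000000000100010000))))

noncomputable def t1538_17 : Tr := (.ex (nat_lit 0xa) (.pd (.cons (nat_lit 2) (nat_lit 8) (nat_lit 0) (nat_lit 0x90065533000) (nat_lit 0xf423fb71ae00000f423fb71ae1f156f423fb71ae00000f423f02f7a) .nil) (.leaf (.cons (nat_lit 0x150005) (nat_lit 0x10002000100000000000000000000000000020002) (.cons (nat_lit 0x40015) (nat_lit 0x1000000000000000000000000000100020002) .nil)) (.cons (nat_lit 0x11111000001) (nat_lit 0x100010) (nat_lit 9) (nat_lit 0x20345000001) (.cons (nat_lit 0x11110000001) (nat_lit 0x1000010) (nat_lit 8) (nat_lit 0x20340000001) (.cons (nat_lit 0x11100000001) (nat_lit 0x10000010) (nat_lit 7) (nat_lit 0x30200000001) (.cons (nat_lit 0x11000000001) (nat_lit 0x100000010) (nat_lit 1) (nat_lit 0x21000000000) .nil)))))) (.split (nat_lit 0xb) (nat_lit 0) (.split (nat_lit 0xb) (nat_lit 1) (.split (nat_lit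 0xb) (nat_lit 2) (.split (nat_lit 0xb) (nat_lit 3) (.split (nat_lit 0xb) (nat_lit 4) (.split (nat_lit 0xb) (nat_lit 5) (.split (nat_lit 0xb) (nat_lit 6) (.split (nat_lit 0xb) (nat_lit 7) (.split (nat_lit 0xb) (nat_lit 8) (.split (nat_lit 0xb) (nat_lit 9) (.st (nat_lit 0xa) (nat_lit 1) (nat_lit 5) (nat_lit 0x550001) (nat_lit 0x100020002000100000000000000000000000000000001) (nat_lit 1) (nat_lit 1) (.st (nat_lit 0xb) (nat_lit 1) (nat_lit 5) (nat_lit 0x555001) (nat_lit 0x200030004000300020001000000000000000000000002) (nat_lit 1) (nat_lit 1) (.split (nat_lit 0xb) (nat_lit 0xa) (.leaf (.cons (nat_lit 0x540005) (nat_lit 0x100020003000000000000000000000000000000030004) .nil) (.cons (nat_lit 0x111111000001) (nat_lit 0x100010) (nat_lit 0xd) (nat_lit 0x320456000001) (.cons (nat_lit 0x111110000001) (nat_lit 0x1000010) (nat_lit 0xc) (nat_lit 0x540230000001) (.cons (nat_lit 0x111100000001) (nat_lit 0x10000010) (nat_lit 8) (nat_lit 0x430200000001) .nil)))) (.non (nat_lit 1) (nat_lit 5) (nat_lit 0x950001) (nat_lit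 0x100020002000100000000000000000000000000000001))))) (.non (nat_lit 0) (nat_lit 5) (nat_lit 0x540000) (nat_lit 0x100010001000000000000000000000000000000000000))) (.non (nat_lit 0) (nat_lit 5) (nat_lit 0x550000) (nat_lit 0x100010001000100000000000000000000000000000000))) (.non (nat_lit 0) (nat_lit 5) (nat_lit 0x554000) (nat_lit 0x100010001000100010000000000000000000000000000))) (.non (nat_lit 0) (nat_lit 5) (nat_lit 0x555000) (nat_lit 0x100010001000100010001000000000000000000000000))) (.non (nat_lit 0) (nat_lit 7) (nat_lit 0x541400) (nat_lit 0x300020001000000000003000400000000000000000000))) (.non (nat_lit 1) (nat_lit 5) (nat_lit 0x555101) (nat_lit 0x200030004000300020001000000010000000000000002))) (.non (nat_lit 0) (nat_lit 5) (nat_lit 0x554154) (nat_lit 0x500040003000200010000000000030006000400020000))) (.non (nat_lit 0) (nat_lit 5) (nat_lit 0x554154) (nat_lit 0x500040003000200010000000000020004000600030000))) (.non (nat_lit 3) (nat_lit 9) (nat_lit 0x400015) (nat_lit 0x100000000000000000000000000000000000100020002)))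 (.non (nat_lit 1) (nat_lit 5) (nat_lit 0x540001) (nat_lit 0x100010001000000000000000000000000000000000001))))

noncomputable def t1538_18 : Tr := (.ex (nat_lit 9) (.split (nat_lit 9) (nat_lit 8) (.split (nat_lit 9) (nat_lit 0) (.pd (.cons (nat_lit 0) (nat_lit 6) (nat_lit 0) (nat_lit 0x8770532110) (nat_lit 0xf423fb71aea2c2800000f423ff423fb71aea2c289896500000) (.cons (nat_lit 1) (nat_lit 6) (nat_lit 0) (nat_lit 0x980532200) (nat_lit 0xa2c28b71aef423f00000f423ff423fb71aea2c280000098965) (.cons (nat_lit 2) (nat_lit 7) (nat_lit 0) (nat_lit 0x905533000) (nat_lit 0xb71aef423f00000f423f54591f423fb71ae00000f423f02f7a) (.cons (nat_lit 2) (nat_lit 8) (nat_lit 0) (nat_lit 0x65533000) (nat_lit 0xf423f00000f423fb71ae1f156f423fb71ae00000f423f17500) .nil)))) (.leaf (.cons (nat_lit 0x54005) (nat_lit 0x3000200010000000000000000000000030004) (.cons (nat_lit 0x40015) (nat_lit 0x1000000000000000000000000000100020002) .nil)) (.cons (nat_lit 0x1100000001) (nat_lit 0x10000010) (nat_lit 1) (nat_lit 0x1200000000) (.cons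 (nat_lit 0x1100000011) (nat_lit 0x10000100) (nat_lit 0x10) (nat_lit 0x2300000001) .nil)))) (.split (nat_lit 9) (nat_lit 0) (.pd (.cons (nat_lit 0) (nat_lit 6) (nat_lit 0) (nat_lit 0x8770532110) (nat_lit 0xf423fb71aea2c2800000f423ff423fb71aea2c289896500000) (.cons (nat_lit 1) (nat_lit 6) (nat_lit 0) (nat_lit 0x980532200) (nat_lit 0xa2c28b71aef423f00000f423ff423fb71aea2c28000003d08b) .nil)) (.leaf (.cons (nat_lit 0x40005) (nat_lit 0x1000000000000000000000000000000010001) .nil) (.cons (nat_lit 0x1100000001) (nat_lit 0x10000010) (nat_lit 6) (nat_lit 0x1200000000) .nil))) (.non (nat_lit 1) (nat_lit 5) (nat_lit 0x55001) (nat_lit 0x4000300020001000000000000000000000003)))) (.non (nat_lit 1) (nat_lit 5) (nat_lit 0x6a001) (nat_lit 0x4000300020001000000000000000000000002))) (.split (nat_lit 0xa) (nat_lit 0) (.split (nat_lit 0xa) (nat_lit 1) (.split (nat_lit 0xa) (nat_lit 2) (.split (nat_lit 0xa) (nat_lit 3) (.split (nat_lit 0xa) (nat_lit 4) (.split (nat_lit 0xa) (nat_lit 5) (.split (nat_lit 0xa) (nat_lit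 6) (.split (nat_lit 0xa) (nat_lit 7) (.split (nat_lit 0xa) (nat_lit 8) (.st (nat_lit 9) (nat_lit 1) (nat_lit 5) (nat_lit 0x150001) (nat_lit 0x10002000100000000000000000000000000000001) (nat_lit 1) (nat_lit 1) (.split (nat_lit 9) (nat_lit 8) (.split (nat_lit 0xa) (nat_lit 9) (.split (nat_lit 9) (nat_lit 0) (.pd (.cons (nat_lit 0) (nat_lit 6) (nat_lit 0) (nat_lit 0x98770532110) (nat_lit 0xf423fb71aea2c289896500000f423ff423fb71aea2c289896500000) (.cons (nat_lit 1) (nat_lit 6) (nat_lit 0) (nat_lit 0x90980532200) (nat_lit 0xf423f65b97b71aef423f00000f423ff423fb71aea2c280000061a79) .nil)) t1538_17) (.non (nat_lit 1) (nat_lit 5) (nat_lit 0x2a0001) (nat_lit 0x10002000100000000000000000000000000000002))) (.non (nat_lit 1) (nat_lit 5) (nat_lit 0x250001) (nat_lit 0x10002000100000000000000000000000000000001))) (.non (nat_lit 0) (nat_lit 5) (nat_lit 0x295000) (nat_lit 0x10002000300020001000000000000000000000000)))) (.non (nat_lit 0) (nat_lit 5) (nat_lit 0x150000) (nat_lit 0x10001000100000000000000000000000000000000)))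 (.non (nat_lit 0) (nat_lit 5) (nat_lit 0x154000) (nat_lit 0x10001000100010000000000000000000000000000))) (.non (nat_lit 0) (nat_lit 5) (nat_lit 0x155000) (nat_lit 0x10001000100010001000000000000000000000000))) (.non (nat_lit 0) (nat_lit 7) (nat_lit 0x151400) (nat_lit 0x30002000100000003000400000000000000000000))) (.non (nat_lit 1) (nat_lit 5) (nat_lit 0x155141) (nat_lit 0x30004000300020001000000020001000000000002))) (.non (nat_lit 0) (nat_lit 5) (nat_lit 0x155154) (nat_lit 0x50004000300020001000000030006000400020000))) (.non (nat_lit 0) (nat_lit 5) (nat_lit 0x155154) (nat_lit 0x50004000300020001000000020004000600030000))) (.non (nat_lit 3) (nat_lit 9) (nat_lit 0x100015) (nat_lit 0x10000000000000000000000000000000100020002))) (.non (nat_lit 1) (nat_lit 5) (nat_lit 0x140001) (nat_lit 0x10001000000000000000000000000000000000001))))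

noncomputable def t1538_19 : Tr := (.split (nat_lit 4) (nat_lit 3) (.pd (.cons (nat_lit 0) (nat_lit 8) (nat_lit 0) (nat_lit 0x9065532110) (nat_lit 0xf423f00000f423fb71ae1f156f423fb71aea2c289896500000) (.cons (nat_lit 1) (nat_lit 8) (nat_lit 0x1000000001) (nat_lit 0x65532209) (nat_lit 0x100000f423fb71ae1f156f423fb71aea2c280000000001) .nil)) (.ex (nat_lit 8) (.pd (.cons (nat_lit 0) (nat_lit 9) (nat_lit 0) (nat_lit 0x765532110) (nat_lit 0xf423fb71aea2c2804737f423fb71aea2c289896500000) (.cons (nat_lit 1) (nat_lit 9) (nat_lit 0) (nat_lit 0x765532200) (nat_lit 0xf423fb71aea2c2804737f423fb71aea2c2800000f423f) (.cons (nat_lit 2) (nat_lit 9) (nat_lit 0) (nat_lit 0x765533000) (nat_lit 0xf423fb71aea2c2804737f423fb71ae00000f423f54591) (.cons (nat_lit 3) (nat_lit 9) (nat_lit 0) (nat_lit 0x765540100) (nat_lit 0xf423fb71aea2c2804737f423f00000f423fb71ae1f156) (.cons (nat_lit 4) (nat_lit 9) (nat_lit 0) (nat_lit 0x765502100) (nat_lit 0xf423fb71aea2c280473700000f423fb71aea2c2804737) .nil))))) t1538_18) (.split (nat_lit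 0xa) (nat_lit 0) (.split (nat_lit 0xa) (nat_lit 1) (.split (nat_lit 0xa) (nat_lit 2) (.split (nat_lit 0xa) (nat_lit 3) (.split (nat_lit 0xa) (nat_lit 4) (.split (nat_lit 0xa) (nat_lit 5) (.split (nat_lit 0xa) (nat_lit 6) (.split (nat_lit 0xa) (nat_lit 7) (.split (nat_lit 0xa) (nat_lit 9) (.unj (nat_lit 0x155) (nat_lit 0x10002000300040003) (nat_lit 0x115400) (nat_lit 0x10000000200030004000300000000000000000000)) (.non (nat_lit 0) (nat_lit 5) (nat_lit 0x150000) (nat_lit 0x10001000100000000000000000000000000000000))) (.non (nat_lit 0) (nat_lit 5) (nat_lit 0x114000) (nat_lit 0x10000000100010000000000000000000000000000))) (.non (nat_lit 0) (nat_lit 5) (nat_lit 0x115000) (nat_lit 0x10000000100010001000000000000000000000000))) (.non (nat_lit 0) (nat_lit 7) (nat_lit 0x151400) (nat_lit 0x30001000200000003000400000000000000000000))) (.non (nat_lit 0) (nat_lit 5) (nat_lit 0x155154) (nat_lit 0x50003000600040002000000040003000200010000))) (.non (nat_lit 0) (nat_lit 5) (nat_lit 0x154150) (nat_lit 0x20001000200010000000000010002000100000000)))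 (.non (nat_lit 0) (nat_lit 5) (nat_lit 0x154054) (nat_lit 0x20001000200010000000000000001000200010000))) (.non (nat_lit 0) (nat_lit 5) (nat_lit 0x155154) (nat_lit 0x50003000600040002000000010002000300040000))) (.non (nat_lit 1) (nat_lit 5) (nat_lit 0x150001) (nat_lit 0x10001000100000000000000000000000000000001))))) (.split (nat_lit 9) (nat_lit 0) (.sup (nat_lit 0x7000a000a000a0006) (nat_lit 0x100040007000a000800000000000000000000)) (.split (nat_lit 4) (nat_lit 3) (.pd (.cons (nat_lit 0) (nat_lit 8) (nat_lit 0) (nat_lit 0x9065532110) (nat_lit 0xf423f00000f423fb71ae1f156f423f7a11e7a11c7a11a00000) (.cons (nat_lit 1) (nat_lit 8) (nat_lit 0x1000000001) (nat_lit 0x65532209) (nat_lit 0x100000f423fb71ae1f156f423f7a11e7a11c0000000001) .nil)) (.st (nat_lit 8) (nat_lit 1) (nat_lit 5) (nat_lit 0xa8001) (nat_lit 0x2000200010000000000000000000000000002) (nat_lit 2) (nat_lit 1) (.pd (.cons (nat_lit 0) (nat_lit 9) (nat_lit 0) (nat_lit 0x765532110) (nat_lit 0xf423fb71aea2c2804737f423f7a11e7a11c7a11a00000) (.cons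 (nat_lit 1) (nat_lit 9) (nat_lit 0) (nat_lit 0x765532200) (nat_lit 0xf423fb71aea2c2804737f423f7a11e7a11c00000f423f) (.cons (nat_lit 2) (nat_lit 9) (nat_lit 0) (nat_lit 0x765533000) (nat_lit 0xf423fb71aea2c2804737f423f7a11e00000f423f54591) (.cons (nat_lit 3) (nat_lit 9) (nat_lit 0) (nat_lit 0x765540100) (nat_lit 0xf423fb71aea2c2804737f423f00000f423fb71ae1f156) (.cons (nat_lit 4) (nat_lit 9) (nat_lit 0) (nat_lit 0x765502100) (nat_lit 0xf423fb71aea2c280473700000f423fb71aea2c2804737) .nil))))) (.st (nat_lit 9) (nat_lit 1) (nat_lit 5) (nat_lit 0xa0001) (nat_lit 0x2000100000000000000000000000000000002) (nat_lit 2) (nat_lit 1) (.split (nat_lit 9) (nat_lit 8) (.split (nat_lit 9) (nat_lit 0) (.pd (.cons (nat_lit 0) (nat_lit 6) (nat_lit 0) (nat_lit 0x8770532110) (nat_lit 0xf423fb71aea2c2800000f423ff423f7a11e7a11c7a11a00000) (.cons (nat_lit 1) (nat_lit 6) (nat_lit 0) (nat_lit 0x980532200) (nat_lit 0xa2c28b71aef423f00000f423ff423f7a11e7a11c000003d08b) .nil)) (.leaf (.cons (nat_lit 0x40005) (nat_lit 0x1000000000000000000000000000000010001)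 .nil) (.cons (nat_lit 0x1100000001) (nat_lit 0x10000010) (nat_lit 6) (nat_lit 0x1200000000) .nil))) (.non (nat_lit 1) (nat_lit 5) (nat_lit 0x55001) (nat_lit 0x4000300020001000000000000000000000003))) (.non (nat_lit 1) (nat_lit 5) (nat_lit 0x90001) (nat_lit 0x1000100000000000000000000000000000001))))))) (.sup (nat_lit 0x8000a000700040001) (nat_lit 0x100040007000a000800000000000000000000)))))

noncomputable def t1538_20 : Tr := (.ex (nat_lit 6) (.ex (nat_lit 7) t1538_19 (.split (nat_lit 0xa) (nat_lit 0) (.split (nat_lit 0xa) (nat_lit 1) (.split (nat_lit 0xa) (nat_lit 2) (.split (nat_lit 0xa) (nat_lit 3) (.split (nat_lit 0xa) (nat_lit 4) (.split (nat_lit 0xa) (nat_lit 6) (.split (nat_lit 0xa) (nat_lit 8) (.split (nat_lit 0xa) (nat_lit 9) (.split (nat_lit 0xa) (nat_lit 5) (.unj (nat_lit 0x155) (nat_lit 0x10002000300040003) (nat_lit 0x115400) (nat_lit 0x10000000100020002000200000000000000000000)) (.unj (nat_lit 0x40015) (nat_lit 0x1000000000000000000000000000100020002) (nat_lit 0x105400) (nat_lit 0x10000000000010001000100000000000000000000)))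 (.non (nat_lit 0) (nat_lit 5) (nat_lit 0x154000) (nat_lit 0x10001000100010000000000000000000000000000))) (.non (nat_lit 0) (nat_lit 5) (nat_lit 0x114000) (nat_lit 0x10000000100010000000000000000000000000000))) (.non (nat_lit 0) (nat_lit 5) (nat_lit 0x105000) (nat_lit 0x10000000000010001000000000000000000000000))) (.non (nat_lit 0) (nat_lit 5) (nat_lit 0x155154) (nat_lit 0x50002000400060003000000040003000200010000))) (.non (nat_lit 0) (nat_lit 5) (nat_lit 0x115150) (nat_lit 0x20000000100020001000000010002000100000000))) (.non (nat_lit 0) (nat_lit 5) (nat_lit 0x115054) (nat_lit 0x20000000100020001000000000001000200010000))) (.star (nat_lit 0xa) (nat_lit 1) (nat_lit 7))) (.star (nat_lit 0xa) (nat_lit 0) (nat_lit 7)))) (.split (nat_lit 0xa) (nat_lit 0) (.split (nat_lit 0xa) (nat_lit 1) (.split (nat_lit 0xa) (nat_lit 2) (.split (nat_lit 0xa) (nat_lit 3) (.split (nat_lit 0xa) (nat_lit 4) (.split (nat_lit 0xa) (nat_lit 5) (.split (nat_lit 0xa) (nat_lit 7) (.split (nat_lit 0xa) (nat_lit 8) (.split (nat_lit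 0xa) (nat_lit 9) (.unj (nat_lit 0x40015) (nat_lit 0x1000000000000000000000000000100020002) (nat_lit 0x105400) (nat_lit 0x10000000000010002000200000000000000000000)) (.non (nat_lit 0) (nat_lit 5) (nat_lit 0x155000) (nat_lit 0x10001000100010001000000000000000000000000))) (.non (nat_lit 0) (nat_lit 5) (nat_lit 0x115000) (nat_lit 0x10000000100010001000000000000000000000000))) (.non (nat_lit 0) (nat_lit 5) (nat_lit 0x105000) (nat_lit 0x10000000000010001000000000000000000000000))) (.non (nat_lit 0) (nat_lit 7) (nat_lit 0x101400) (nat_lit 0x10000000000000001000100000000000000000000))) (.non (nat_lit 0) (nat_lit 7) (nat_lit 0x101540) (nat_lit 0x30000000000000004000300020001000000000000))) (.non (nat_lit 0) (nat_lit 5) (nat_lit 0x155154) (nat_lit 0x50001000200030004000000030006000400020000))) (.non (nat_lit 0) (nat_lit 5) (nat_lit 0x155154) (nat_lit 0x50001000200030004000000020004000600030000))) (.non (nat_lit 0) (nat_lit 7) (nat_lit 0x101414) (nat_lit 0x30000000000000004000300000000000100020000))) (.non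 (nat_lit 1) (nat_lit 5) (nat_lit 0x155001) (nat_lit 0x10001000100010001000000000000000000000001))))

noncomputable def t1538_21 : Tr := (.ex (nat_lit 6) (.pd (.cons (nat_lit 0) (nat_lit 8) (nat_lit 0) (nat_lit 0x39065532110) (nat_lit 0xf423ff423f00000f423fb71ae1f156f423f7a11d7a11b7a11900000) (.cons (nat_lit 0) (nat_lit 9) (nat_lit 0) (nat_lit 0x30765532110) (nat_lit 0xf423f00000f423fb71aea2c2804737f423f7a11d7a11b7a11900000) (.cons (nat_lit 1) (nat_lit 8) (nat_lit 0) (nat_lit 0x30065532200) (nat_lit 0xf423ff423f00000f423fb71ae1f156f423f7a11d7a11b000007a11e) (.cons (nat_lit 1) (nat_lit 9) (nat_lit 0) (nat_lit 0x30765532200) (nat_lit 0xf423f00000f423fb71aea2c2804737f423f7a11d7a11b00000f423f) (.cons (nat_lit 2) (nat_lit 9) (nat_lit 0) (nat_lit 0x30765533000) (nat_lit 0xf423f00000f423fb71aea2c2804737f423f7a11d00000f423f54591) (.cons (nat_lit 3) (nat_lit 9) (nat_lit 0) (nat_lit 0xa0765540100) (nat_lit 0xf423f00000f423fb71aea2c2804737f423f00000f423fb71ae1f156) .nil)))))) (.leaf (.cons (nat_lit 0x40005)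 (nat_lit 0x1000000000000000000000000000000010001) (.cons (nat_lit 0x100055) (nat_lit 0x10000000000000000000000000002000300040003) .nil)) (.cons (nat_lit 0x1100000001) (nat_lit 0x10000010) (nat_lit 6) (nat_lit 0x1200000000) .nil))) (.split (nat_lit 0xb) (nat_lit 0) (.split (nat_lit 0xb) (nat_lit 1) (.split (nat_lit 0xb) (nat_lit 2) (.split (nat_lit 0xb) (nat_lit 3) (.split (nat_lit 0xb) (nat_lit 4) (.split (nat_lit 0xb) (nat_lit 5) (.split (nat_lit 0xb) (nat_lit 7) (.split (nat_lit 0xb) (nat_lit 8) (.split (nat_lit 0xb) (nat_lit 9) (.split (nat_lit 0xb) (nat_lit 0xa) (.unj (nat_lit 0x40005) (nat_lit 0x1000000000000000000000000000000010001) (nat_lit 0x405400) (nat_lit 0x100000000000000010002000200000000000000000000)) (.non (nat_lit 0) (nat_lit 5) (nat_lit 0x515154) (nat_lit 0x400050000000100020003000000030006000400020000))) (.non (nat_lit 0) (nat_lit 5) (nat_lit 0x455000) (nat_lit 0x100000001000100010001000000000000000000000000))) (.non (nat_lit 0) (nat_lit 5) (nat_lit 0x415000) (nat_lit 0x100000000000100010001000000000000000000000000)))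 (.non (nat_lit 0) (nat_lit 5) (nat_lit 0x405000) (nat_lit 0x100000000000000010001000000000000000000000000))) (.non (nat_lit 0) (nat_lit 7) (nat_lit 0x401400) (nat_lit 0x100000000000000000001000100000000000000000000))) (.non (nat_lit 0) (nat_lit 5) (nat_lit 0x515154) (nat_lit 0x400030000000100020003000000050006000400020000))) (.non (nat_lit 0) (nat_lit 5) (nat_lit 0x500150) (nat_lit 0x100010000000000000000000000010002000100000000))) (.non (nat_lit 0) (nat_lit 5) (nat_lit 0x555054) (nat_lit 0x500020001000200030004000000000004000600030000))) (.non (nat_lit 0) (nat_lit 7) (nat_lit 0x401414) (nat_lit 0x300000000000000000004000300000000000100020000))) (.non (nat_lit 1) (nat_lit 5) (nat_lit 0x4a8001) (nat_lit 0x200000003000200010000000000000000000000000004))))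

noncomputable def t1538_22 : Tr := (.st (nat_lit 8) (nat_lit 1) (nat_lit 5) (nat_lit 0xa8001) (nat_lit 0x2000200010000000000000000000000000002) (nat_lit 2) (nat_lit 1) (.st (nat_lit 9) (nat_lit 1) (nat_lit 5) (nat_lit 0xa0001) (nat_lit 0x2000100000000000000000000000000000002) (nat_lit 2) (nat_lit 1) (.st (nat_lit 3) (nat_lit 0) (nat_lit 5) (nat_lit 0x100150) (nat_lit 0x10000000000000000000000010002000100000000) (nat_lit 1) (nat_lit 1) (.ex (nat_lit 5) (.split (nat_lit 4) (nat_lit 3) (.split (nat_lit 9) (nat_lit 8) (.split (nat_lit 9) (nat_lit 0) (.pd (.cons (nat_lit 0) (nat_lit 6) (nat_lit 0) (nat_lit 0x38770532110) (nat_lit 0xf423ff423fb71aea2c2800000f423ff423f7a11d7a11b7a11900000) (.cons (nat_lit 1) (nat_lit 6) (nat_lit 0) (nat_lit 0x30980532200) (nat_lit 0xf423fa2c28b71aef423f00000f423ff423f7a11d7a11b000003d08b) .nil)) t1538_21) (.non (nat_lit 1) (nat_lit 5) (nat_lit 0x55001) (nat_lit 0x4000300020001000000000000000000000003))) (.non (nat_lit 1) (nat_lit 5) (nat_lit 0x90001) (nat_lit 0x1000100000000000000000000000000000001)))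 (.non (nat_lit 0) (nat_lit 5) (nat_lit 0x100250) (nat_lit 0x10000000000000000000000010002000100000000))) (.split (nat_lit 0xb) (nat_lit 0) (.split (nat_lit 0xb) (nat_lit 1) (.split (nat_lit 0xb) (nat_lit 2) (.split (nat_lit 0xb) (nat_lit 3) (.split (nat_lit 0xb) (nat_lit 4) (.split (nat_lit 0xb) (nat_lit 6) (.split (nat_lit 0xb) (nat_lit 7) (.split (nat_lit 0xb) (nat_lit 8) (.split (nat_lit 0xb) (nat_lit 9) (.split (nat_lit 0xb) (nat_lit 0xa) (.unj (nat_lit 0x40005) (nat_lit 0x1000000000000000000000000000000010001) (nat_lit 0x405400) (nat_lit 0x100000000000000010002000200000000000000000000)) (.non (nat_lit 0) (nat_lit 7) (nat_lit 0x501440) (nat_lit 0x300020000000000000003000400000001000000000000))) (.non (nat_lit 0) (nat_lit 7) (nat_lit 0x451400) (nat_lit 0x300000002000100000003000400000000000000000000))) (.non (nat_lit 0) (nat_lit 7) (nat_lit 0x451400) (nat_lit 0x300000001000200000003000400000000000000000000))) (.non (nat_lit 1) (nat_lit 5) (nat_lit 0x8aa001) (nat_lit 0x100000002000200020001000000000000000000000002)))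 (.non (nat_lit 0) (nat_lit 7) (nat_lit 0x401400) (nat_lit 0x100000000000000000001000100000000000000000000))) (.non (nat_lit 0) (nat_lit 7) (nat_lit 0x401540) (nat_lit 0x300000000000000000003000400020001000000000000))) (.non (nat_lit 0) (nat_lit 5) (nat_lit 0x500150) (nat_lit 0x100010000000000000000000000010002000100000000))) (.non (nat_lit 0) (nat_lit 5) (nat_lit 0x500154) (nat_lit 0x100010000000000000000000000010002000200010000))) (.star (nat_lit 0xb) (nat_lit 1) (nat_lit 5))) (.star (nat_lit 0xb) (nat_lit 0) (nat_lit 5)))))))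

noncomputable def t1538_23 : Tr := (.ex (nat_lit 3) (.ex (nat_lit 5) t1538_20 (.split (nat_lit 0xa) (nat_lit 0) (.split (nat_lit 0xa) (nat_lit 1) (.split (nat_lit 0xa) (nat_lit 2) (.split (nat_lit 0xa) (nat_lit 3) (.split (nat_lit 0xa) (nat_lit 4) (.split (nat_lit 0xa) (nat_lit 6) (.split (nat_lit 0xa) (nat_lit 8) (.split (nat_lit 0xa) (nat_lit 9) (.split (nat_lit 0xa) (nat_lit 7) (.unj (nat_lit 0x40015) (nat_lit 0x1000000000000000000000000000100020002) (nat_lit 0x105400) (nat_lit 0x10000000000010002000200000000000000000000)) (.unj (nat_lit 0x40015) (nat_lit 0x1000000000000000000000000000100020002) (nat_lit 0x105400) (nat_lit 0x10000000000010001000100000000000000000000))) (.non (nat_lit 0) (nat_lit 7) (nat_lit 0x151400) (nat_lit 0x30002000100000003000400000000000000000000))) (.non (nat_lit 0) (nat_lit 7) (nat_lit 0x151400) (nat_lit 0x30001000200000003000400000000000000000000))) (.non (nat_lit 0) (nat_lit 7) (nat_lit 0x101400) (nat_lit 0x10000000000000001000100000000000000000000))) (.non (nat_lit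 0) (nat_lit 7) (nat_lit 0x101540) (nat_lit 0x30000000000000003000400020001000000000000))) (.non (nat_lit 0) (nat_lit 7) (nat_lit 0x101540) (nat_lit 0x30000000000000003000400010002000000000000))) (.non (nat_lit 0) (nat_lit 7) (nat_lit 0x101450) (nat_lit 0x30000000000000003000400000001000200000000))) (.star (nat_lit 0xa) (nat_lit 1) (nat_lit 5))) (.star (nat_lit 0xa) (nat_lit 0) (nat_lit 5)))) (.split (nat_lit 0xa) (nat_lit 1) (.split (nat_lit 0xa) (nat_lit 2) (.split (nat_lit 0xa) (nat_lit 4) (.split (nat_lit 0xa) (nat_lit 5) (.split (nat_lit 0xa) (nat_lit 6) (.split (nat_lit 0xa) (nat_lit 7) (.split (nat_lit 0xa) (nat_lit 8) (.split (nat_lit 0xa) (nat_lit 9) (.split (nat_lit 0xa) (nat_lit 0) (.split (nat_lit 0xa) (nat_lit 3) (.split (nat_lit 9) (nat_lit 0) (.sup (nat_lit 0x20006000b0010000d00000000000000000000) (nat_lit 0x20000000000000000000000020005000500050003)) (.st (nat_lit 7) (nat_lit 1) (nat_lit 5) (nat_lit 0xaa001) (nat_lit 0x2000200020001000000000000000000000002) (nat_lit 2) (nat_lit 1)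 t1538_22)) (.non (nat_lit 0) (nat_lit 5) (nat_lit 0x200150) (nat_lit 0x10000000000000000000000010002000100000000))) (.sup (nat_lit 0x6000e00170020001a00000000000000000000) (nat_lit 0x40000000000000000000000030006000500040002))) (.non (nat_lit 0) (nat_lit 5) (nat_lit 0x155154) (nat_lit 0x50004000300020001000000030006000400020000))) (.non (nat_lit 0) (nat_lit 5) (nat_lit 0x154150) (nat_lit 0x20001000200010000000000010002000100000000))) (.non (nat_lit 0) (nat_lit 5) (nat_lit 0x115150) (nat_lit 0x20000000100020001000000010002000100000000))) (.non (nat_lit 0) (nat_lit 5) (nat_lit 0x155154) (nat_lit 0x50001000200030004000000030006000400020000))) (.non (nat_lit 0) (nat_lit 7) (nat_lit 0x101540) (nat_lit 0x30000000000000003000400010002000000000000))) (.non (nat_lit 0) (nat_lit 5) (nat_lit 0x100140) (nat_lit 0x10000000000000000000000010001000000000000))) (.non (nat_lit 0) (nat_lit 5) (nat_lit 0x100050) (nat_lit 0x10000000000000000000000000001000100000000))) (.non (nat_lit 0) (nat_lit 5) (nat_lit 0x100054)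 (nat_lit 0x10000000000000000000000000001000100010000))))

noncomputable def t1538_24 : Tr := (.ex (nat_lit 1) (.ex (nat_lit 2) t1538_23 (.split (nat_lit 0xa) (nat_lit 1) (.split (nat_lit 0xa) (nat_lit 3) (.split (nat_lit 0xa) (nat_lit 4) (.split (nat_lit 0xa) (nat_lit 5) (.split (nat_lit 0xa) (nat_lit 6) (.split (nat_lit 0xa) (nat_lit 7) (.split (nat_lit 0xa) (nat_lit 8) (.split (nat_lit 0xa) (nat_lit 9) (.split (nat_lit 0xa) (nat_lit 0) (.split (nat_lit 0xa) (nat_lit 2) (.split (nat_lit 9) (nat_lit 0) (.sup (nat_lit 0x50000000000000000000000000005000a000a0006) (nat_lit 0x100040007000a000800000000000000000000)) (.split (nat_lit 9) (nat_lit 0) (.sup (nat_lit 0x20006000b0010000d00000000000000000000) (nat_lit 0x20000000000000000000000020003000500040002)) (.non (nat_lit 1) (nat_lit 5) (nat_lit 0x55001) (nat_lit 0x4000300020001000000000000000000000003)))) (.non (nat_lit 0) (nat_lit 5) (nat_lit 0x200054) (nat_lit 0x10000000000000000000000000001000200010000))) (.sup (nat_lit 0x800000000000000000000000000000009000a0007)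 (nat_lit 0x100040007000a000800000000000000000000))) (.non (nat_lit 0) (nat_lit 5) (nat_lit 0x155154) (nat_lit 0x50004000300020001000000020004000600030000))) (.non (nat_lit 0) (nat_lit 5) (nat_lit 0x154054) (nat_lit 0x20001000200010000000000000001000200010000))) (.non (nat_lit 0) (nat_lit 5) (nat_lit 0x115054) (nat_lit 0x20000000100020001000000000001000200010000))) (.non (nat_lit 0) (nat_lit 5) (nat_lit 0x155154) (nat_lit 0x50001000200030004000000020004000600030000))) (.non (nat_lit 0) (nat_lit 7) (nat_lit 0x101450) (nat_lit 0x30000000000000003000400000001000200000000))) (.non (nat_lit 0) (nat_lit 5) (nat_lit 0x100150) (nat_lit 0x10000000000000000000000010001000100000000))) (.non (nat_lit 0) (nat_lit 5) (nat_lit 0x100050) (nat_lit 0x10000000000000000000000000001000100000000))) (.non (nat_lit 0) (nat_lit 5) (nat_lit 0x100014) (nat_lit 0x10000000000000000000000000000000100010000)))) (.split (nat_lit 0xa) (nat_lit 2) (.split (nat_lit 0xa) (nat_lit 3) (.split (nat_lit 0xa) (nat_lit 4) (.split (nat_lit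 0xa) (nat_lit 5) (.split (nat_lit 0xa) (nat_lit 6) (.split (nat_lit 0xa) (nat_lit 7) (.split (nat_lit 0xa) (nat_lit 8) (.split (nat_lit 0xa) (nat_lit 0) (.split (nat_lit 0xa) (nat_lit 9) (.split (nat_lit 0xa) (nat_lit 1) (.split (nat_lit 9) (nat_lit 0) (.sup (nat_lit 0x500000000000000000000000000000005000a0006) (nat_lit 0x100040007000a000800000000000000000000)) (.split (nat_lit 9) (nat_lit 0) (.sup (nat_lit 0x20007000b0010000d00000000000000000000) (nat_lit 0x20000000000000000000000010002000300040002)) (.non (nat_lit 1) (nat_lit 5) (nat_lit 0x55001) (nat_lit 0x4000300020001000000000000000000000003)))) (.sup (nat_lit 0x30007000c0010000d00000000000000000000) (nat_lit 0x20000000000000000000000010001000200030001))) (.split (nat_lit 0xa) (nat_lit 1) (.split (nat_lit 0xa) (nat_lit 9) (.split (nat_lit 9) (nat_lit 0) (.sup (nat_lit 0x3000d00160020001a00000000000000000000) (nat_lit 0x20000000000000000000000020004000500070004)) (.non (nat_lit 1) (nat_lit 5) (nat_lit 0x2a0001) (nat_lit 0x10002000100000000000000000000000000000002)))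 (.non (nat_lit 0) (nat_lit 5) (nat_lit 0x1a8004) (nat_lit 0x40003000200010000000000000000000000020000))) (.non (nat_lit 0) (nat_lit 5) (nat_lit 0x2a0014) (nat_lit 0x30002000100000000000000000000000200040000)))) (.split (nat_lit 0xa) (nat_lit 9) (.sup (nat_lit 0x900000000000000000000000000000000000a0007) (nat_lit 0x100040007000a000800000000000000000000)) (.non (nat_lit 1) (nat_lit 5) (nat_lit 0x140001) (nat_lit 0x10001000000000000000000000000000000000001)))) (.non (nat_lit 0) (nat_lit 5) (nat_lit 0x155154) (nat_lit 0x50003000600040002000000010002000300040000))) (.star (nat_lit 0xa) (nat_lit 1) (nat_lit 7))) (.non (nat_lit 0) (nat_lit 7) (nat_lit 0x101414) (nat_lit 0x30000000000000004000300000000000100020000))) (.star (nat_lit 0xa) (nat_lit 1) (nat_lit 5))) (.non (nat_lit 0) (nat_lit 5) (nat_lit 0x100154) (nat_lit 0x10000000000000000000000010001000100010000))) (.non (nat_lit 0) (nat_lit 5) (nat_lit 0x100054) (nat_lit 0x10000000000000000000000000001000100010000))) (.non (nat_lit 0) (nat_lit 5) (nat_lit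 0x100014) (nat_lit 0x10000000000000000000000000000000100010000))))

noncomputable def t1538_25 : Tr := (.split (nat_lit 0xa) (nat_lit 1) (.split (nat_lit 0xa) (nat_lit 2) (.split (nat_lit 0xa) (nat_lit 3) (.split (nat_lit 0xa) (nat_lit 4) (.split (nat_lit 0xa) (nat_lit 0) (.split (nat_lit 9) (nat_lit 0) (.sup (nat_lit 0x20006000b0010000d00000000000000000000) (nat_lit 0x10000000000000000000000010002000300040003)) (.non (nat_lit 1) (nat_lit 5) (nat_lit 0x1a8001) (nat_lit 0x20003000200010000000000000000000000000004))) (.split (nat_lit 0xa) (nat_lit 0) (.split (nat_lit 9) (nat_lit 0) (.sup (nat_lit 0x20007000b0010000d00000000000000000000) (nat_lit 0x20000000000000000000000010001000200030002)) (.non (nat_lit 1) (nat_lit 5) (nat_lit 0x280001) (nat_lit 0x10001000000000000000000000000000000000002))) (.non (nat_lit 1) (nat_lit 5) (nat_lit 0x154001) (nat_lit 0x30003000200010000000000000000000000000004)))) (.split (nat_lit 0xa) (nat_lit 0) (.split (nat_lit 0xa) (nat_lit 4) (.split (nat_lit 9) (nat_lit 0)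 (.sup (nat_lit 0x1000300060008000600000000000000000000) (nat_lit 0x10000000000000000000000010001000100010001)) (.non (nat_lit 1) (nat_lit 5) (nat_lit 0x1a8001) (nat_lit 0x20003000200010000000000000000000000000004))) (.non (nat_lit 1) (nat_lit 5) (nat_lit 0x140281) (nat_lit 0x30001000000000000000000020001000000000002))) (.non (nat_lit 1) (nat_lit 5) (nat_lit 0x250201) (nat_lit 0x20002000100000000000000010000000000000003)))) (.split (nat_lit 0xa) (nat_lit 4) (.sup (nat_lit 0x6000e00170020001a00000000000000000000) (nat_lit 0x40000000000000000000000030006000500040002)) (.non (nat_lit 0) (nat_lit 5) (nat_lit 0x100140) (nat_lit 0x10000000000000000000000010001000000000000)))) (.split (nat_lit 0xa) (nat_lit 3) (.split (nat_lit 0xa) (nat_lit 4) (.sup (nat_lit 0x800000000000000000000000000000009000a0007) (nat_lit 0x100040007000a000800000000000000000000)) (.non (nat_lit 0) (nat_lit 5) (nat_lit 0x100150) (nat_lit 0x10000000000000000000000010001000100000000))) (.non (nat_lit 0) (nat_lit 5) (nat_lit 0x100050)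 (nat_lit 0x10000000000000000000000000001000100000000)))) (.split (nat_lit 0xa) (nat_lit 2) (.split (nat_lit 0xa) (nat_lit 3) (.split (nat_lit 0xa) (nat_lit 4) (.sup (nat_lit 0x900000000000000000000000000000000000a0007) (nat_lit 0x100040007000a000800000000000000000000)) (.non (nat_lit 0) (nat_lit 5) (nat_lit 0x100154) (nat_lit 0x10000000000000000000000010001000100010000))) (.non (nat_lit 0) (nat_lit 5) (nat_lit 0x100054) (nat_lit 0x10000000000000000000000000001000100010000))) (.non (nat_lit 0) (nat_lit 5) (nat_lit 0x100014) (nat_lit 0x10000000000000000000000000000000100010000))))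

noncomputable def t1538_26 : Tr := (.split (nat_lit 9) (nat_lit 0) (.pd (.cons (nat_lit 0) (nat_lit 6) (nat_lit 0) (nat_lit 0x1980532110) (nat_lit 0xa2c28b71aef423f00000f423ff423fb71aea2c283d08b00000) (.cons (nat_lit 0) (nat_lit 8) (nat_lit 0) (nat_lit 0x1065532110) (nat_lit 0xf423f00000f423fb71ae1f156f423fb71aea2c285b8d400000) (.cons (nat_lit 0) (nat_lit 9) (nat_lit 0) (nat_lit 0x765532110) (nat_lit 0xf423fb71aea2c2804737f423fb71aea2c289896500000) (.cons (nat_lit 1) (nat_lit 6) (nat_lit 0) (nat_lit 0x980532200) (nat_lit 0xa2c28b71aef423f00000f423ff423fb71aea2c280000098965) (.cons (nat_lit 1) (nat_lit 8) (nat_lit 0) (nat_lit 0x65532200) (nat_lit 0xf423f00000f423fb71ae1f156f423fb71aea2c2800000b71ae) (.cons (nat_lit 1) (nat_lit 9) (nat_lit 0) (nat_lit 0x765532200) (nat_lit 0xf423fb71aea2c2804737f423fb71aea2c2800000f423f) (.cons (nat_lit 2) (nat_lit 9) (nat_lit 0) (nat_lit 0x765533000) (nat_lit 0xf423fb71aea2c2804737f423fb71ae00000f423f54591) (.cons (nat_lit 3) (nat_lit 9) (nat_lit 0) (nat_lit 0x765540100)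 (nat_lit 0xf423fb71aea2c2804737f423f00000f423fb71ae1f156) (.cons (nat_lit 4) (nat_lit 9) (nat_lit 0) (nat_lit 0x765502100) (nat_lit 0xf423fb71aea2c280473700000f423fb71aea2c2804737) .nil))))))))) (.leaf (.cons (nat_lit 0x40005) (nat_lit 0x1000000000000000000000000000000010001) .nil) .nil)) (.split (nat_lit 9) (nat_lit 0) (.pd (.cons (nat_lit 0) (nat_lit 6) (nat_lit 0) (nat_lit 0x1980532110) (nat_lit 0xa2c28b71aef423f00000f423ff423fb71aea2c283d08b00000) (.cons (nat_lit 0) (nat_lit 8) (nat_lit 0) (nat_lit 0x1065532110) (nat_lit 0xf423f00000f423fb71ae1f156f423fb71aea2c285b8d400000) (.cons (nat_lit 0) (nat_lit 9) (nat_lit 0) (nat_lit 0x765532110) (nat_lit 0xf423fb71aea2c2804737f423fb71aea2c289896500000) (.cons (nat_lit 1) (nat_lit 6) (nat_lit 0) (nat_lit 0x980532200) (nat_lit 0xa2c28b71aef423f00000f423ff423fb71aea2c28000003d08b) (.cons (nat_lit 1) (nat_lit 8) (nat_lit 0) (nat_lit 0x65532200) (nat_lit 0xf423f00000f423fb71ae1f156f423fb71aea2c28000007a11e) (.cons (nat_lit 1) (nat_lit 9) (nat_lit 0) (nat_lit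 0x765532200) (nat_lit 0xf423fb71aea2c2804737f423fb71aea2c2800000f423f) (.cons (nat_lit 2) (nat_lit 9) (nat_lit 0) (nat_lit 0x765533000) (nat_lit 0xf423fb71aea2c2804737f423fb71ae00000f423f54591) (.cons (nat_lit 3) (nat_lit 9) (nat_lit 0) (nat_lit 0x765540100) (nat_lit 0xf423fb71aea2c2804737f423f00000f423fb71ae1f156) (.cons (nat_lit 4) (nat_lit 9) (nat_lit 0) (nat_lit 0x765502100) (nat_lit 0xf423fb71aea2c280473700000f423fb71aea2c2804737) .nil))))))))) (.leaf (.cons (nat_lit 0x40005) (nat_lit 0x1000000000000000000000000000000010001) .nil) .nil)) (.non (nat_lit 1) (nat_lit 5) (nat_lit 0x55001) (nat_lit 0x4000300020001000000000000000000000003))))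

noncomputable def t1538_27 : Tr := (.split (nat_lit 9) (nat_lit 0) (.pd (.cons (nat_lit 0) (nat_lit 6) (nat_lit 0) (nat_lit 0x1980532110) (nat_lit 0xa2c28b71aef423f00000f423ff423f7a11e7a11c1e84000000) (.cons (nat_lit 0) (nat_lit 8) (nat_lit 0) (nat_lit 0x1065532110) (nat_lit 0xf423f00000f423fb71ae1f156f423f7a11e7a11c3d08900000) (.cons (nat_lit 0) (nat_lit 9) (nat_lit 0) (nat_lit 0x765532110) (nat_lit 0xf423fb71aea2c2804737f423f7a11e7a11c7a11a00000) (.cons (nat_lit 1) (nat_lit 6) (nat_lit 0) (nat_lit 0x980532200) (nat_lit 0xa2c28b71aef423f00000f423ff423f7a11e7a11c0000098965) (.cons (nat_lit 1) (nat_lit 8) (nat_lit 0) (nat_lit 0x65532200) (nat_lit 0xf423f00000f423fb71ae1f156f423f7a11e7a11c00000b71ae) (.cons (nat_lit 1) (nat_lit 9) (nat_lit 0) (nat_lit 0x765532200) (nat_lit 0xf423fb71aea2c2804737f423f7a11e7a11c00000f423f) (.cons (nat_lit 2) (nat_lit 9) (nat_lit 0) (nat_lit 0x765533000) (nat_lit 0xf423fb71aea2c2804737f423f7a11e00000f423f54591) (.cons (nat_lit 3) (nat_lit 9) (nat_lit 0) (nat_lit 0x765540100)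 (nat_lit 0xf423fb71aea2c2804737f423f00000f423fb71ae1f156) (.cons (nat_lit 4) (nat_lit 9) (nat_lit 0) (nat_lit 0x765502100) (nat_lit 0xf423fb71aea2c280473700000f423fb71aea2c2804737) .nil))))))))) (.leaf (.cons (nat_lit 0x40005) (nat_lit 0x1000000000000000000000000000000010001) .nil) .nil)) (.split (nat_lit 9) (nat_lit 0) (.pd (.cons (nat_lit 0) (nat_lit 6) (nat_lit 0) (nat_lit 0x1980532110) (nat_lit 0xa2c28b71aef423f00000f423ff423f7a11e7a11c1e84000000) (.cons (nat_lit 0) (nat_lit 8) (nat_lit 0) (nat_lit 0x1065532110) (nat_lit 0xf423f00000f423fb71ae1f156f423f7a11e7a11c3d08900000) (.cons (nat_lit 0) (nat_lit 9) (nat_lit 0) (nat_lit 0x765532110) (nat_lit 0xf423fb71aea2c2804737f423f7a11e7a11c7a11a00000) (.cons (nat_lit 1) (nat_lit 6) (nat_lit 0) (nat_lit 0x980532200) (nat_lit 0xa2c28b71aef423f00000f423ff423f7a11e7a11c000003d08b) (.cons (nat_lit 1) (nat_lit 8) (nat_lit 0) (nat_lit 0x65532200) (nat_lit 0xf423f00000f423fb71ae1f156f423f7a11e7a11c000007a11e) (.cons (nat_lit 1) (nat_lit 9) (nat_lit 0) (nat_lit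 0x765532200) (nat_lit 0xf423fb71aea2c2804737f423f7a11e7a11c00000f423f) (.cons (nat_lit 2) (nat_lit 9) (nat_lit 0) (nat_lit 0x765533000) (nat_lit 0xf423fb71aea2c2804737f423f7a11e00000f423f54591) (.cons (nat_lit 3) (nat_lit 9) (nat_lit 0) (nat_lit 0x765540100) (nat_lit 0xf423fb71aea2c2804737f423f00000f423fb71ae1f156) (.cons (nat_lit 4) (nat_lit 9) (nat_lit 0) (nat_lit 0x765502100) (nat_lit 0xf423fb71aea2c280473700000f423fb71aea2c2804737) .nil))))))))) (.leaf (.cons (nat_lit 0x40005) (nat_lit 0x1000000000000000000000000000000010001) .nil) .nil)) (.non (nat_lit 1) (nat_lit 5) (nat_lit 0x55001) (nat_lit 0x4000300020001000000000000000000000003))))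

noncomputable def t1538_28 : Tr := (.ex (nat_lit 6) (.ex (nat_lit 7) (.split (nat_lit 9) (nat_lit 1) (.split (nat_lit 4) (nat_lit 3) (.split (nat_lit 9) (nat_lit 8) t1538_26 (.non (nat_lit 0) (nat_lit 5) (nat_lit 0x6a004) (nat_lit 0x4000300020001000000000000000000020000))) (.split (nat_lit 4) (nat_lit 3) (.split (nat_lit 9) (nat_lit 8) t1538_27 (.non (nat_lit 0) (nat_lit 5) (nat_lit 0x6a004) (nat_lit 0x4000300020001000000000000000000020000))) (.non (nat_lit 0) (nat_lit 5) (nat_lit 0x40154) (nat_lit 0x1000000000000000000030004000300020000)))) (.non (nat_lit 0) (nat_lit 5) (nat_lit 0xa8014) (nat_lit 0x3000200010000000000000000000200040000))) (.split (nat_lit 0xa) (nat_lit 0) (.split (nat_lit 0xa) (nat_lit 1) (.split (nat_lit 0xa) (nat_lit 2) (.split (nat_lit 0xa) (nat_lit 3) (.split (nat_lit 0xa) (nat_lit 4) (.split (nat_lit 0xa) (nat_lit 6) (.split (nat_lit 0xa) (nat_lit 8) (.split (nat_lit 0xa) (nat_lit 9) (.split (nat_lit 0xa) (nat_lit 5) (.unj (nat_lit 0x155) (nat_lit 0x10002000300040003) (nat_lit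 0x115400) (nat_lit 0x10000000100020002000200000000000000000000)) (.unj (nat_lit 0x40005) (nat_lit 0x1000000000000000000000000000000010001) (nat_lit 0x105400) (nat_lit 0x10000000000010001000100000000000000000000))) (.non (nat_lit 0) (nat_lit 5) (nat_lit 0x154000) (nat_lit 0x10001000100010000000000000000000000000000))) (.non (nat_lit 0) (nat_lit 5) (nat_lit 0x114000) (nat_lit 0x10000000100010000000000000000000000000000))) (.non (nat_lit 0) (nat_lit 5) (nat_lit 0x105000) (nat_lit 0x10000000000010001000000000000000000000000))) (.non (nat_lit 0) (nat_lit 5) (nat_lit 0x155144) (nat_lit 0x30002000300040002000000020001000000010000))) (.non (nat_lit 0) (nat_lit 5) (nat_lit 0x115150) (nat_lit 0x20000000100020001000000010002000100000000))) (.non (nat_lit 0) (nat_lit 5) (nat_lit 0x154014) (nat_lit 0x10001000100010000000000000000000100010000))) (.star (nat_lit 0xa) (nat_lit 1) (nat_lit 7))) (.star (nat_lit 0xa) (nat_lit 0) (nat_lit 7)))) (.split (nat_lit 0xa) (nat_lit 0) (.split (nat_lit 0xa) (nat_lit 1) (.split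 (nat_lit 0xa) (nat_lit 2) (.split (nat_lit 0xa) (nat_lit 3) (.split (nat_lit 0xa) (nat_lit 4) (.split (nat_lit 0xa) (nat_lit 5) (.split (nat_lit 0xa) (nat_lit 7) (.split (nat_lit 0xa) (nat_lit 8) (.split (nat_lit 0xa) (nat_lit 9) (.unj (nat_lit 0x40005) (nat_lit 0x1000000000000000000000000000000010001) (nat_lit 0x105400) (nat_lit 0x10000000000010002000200000000000000000000)) (.non (nat_lit 0) (nat_lit 5) (nat_lit 0x155000) (nat_lit 0x10001000100010001000000000000000000000000))) (.non (nat_lit 0) (nat_lit 5) (nat_lit 0x115000) (nat_lit 0x10000000100010001000000000000000000000000))) (.non (nat_lit 0) (nat_lit 5) (nat_lit 0x105000) (nat_lit 0x10000000000010001000000000000000000000000))) (.non (nat_lit 0) (nat_lit 7) (nat_lit 0x101400) (nat_lit 0x10000000000000001000100000000000000000000))) (.non (nat_lit 0) (nat_lit 5) (nat_lit 0x155154) (nat_lit 0x10001000100010001000000010001000100010000))) (.non (nat_lit 0) (nat_lit 5) (nat_lit 0x155054) (nat_lit 0x10001000100010001000000000001000100010000))) (.non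 (nat_lit 0) (nat_lit 5) (nat_lit 0x155014) (nat_lit 0x10001000100010001000000000000000100010000))) (.non (nat_lit 0) (nat_lit 5) (nat_lit 0x155004) (nat_lit 0x10001000100010001000000000000000000010000))) (.non (nat_lit 1) (nat_lit 5) (nat_lit 0x155001) (nat_lit 0x10001000100010001000000000000000000000001))))

noncomputable def t1538_29 : Tr := (.ex (nat_lit 6) (.pd (.cons (nat_lit 0) (nat_lit 8) (nat_lit 0) (nat_lit 0x31065532110) (nat_lit 0xf423ff423f00000f423fb71ae1f156f423f7a11d7a11b3d08800000) (.cons (nat_lit 0) (nat_lit 9) (nat_lit 0) (nat_lit 0x30765532110) (nat_lit 0xf423f00000f423fb71aea2c2804737f423f7a11d7a11b7a11900000) (.cons (nat_lit 1) (nat_lit 8) (nat_lit 0) (nat_lit 0x30065532200) (nat_lit 0xf423ff423f00000f423fb71ae1f156f423f7a11d7a11b00000b71ae) (.cons (nat_lit 1) (nat_lit 9) (nat_lit 0) (nat_lit 0x30765532200) (nat_lit 0xf423f00000f423fb71aea2c2804737f423f7a11d7a11b00000f423f) (.cons (nat_lit 2) (nat_lit 9) (nat_lit 0) (nat_lit 0x30765533000) (nat_lit 0xf423f00000f423fb71aea2c2804737f423f7a11d00000f423f54591)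 (.cons (nat_lit 3) (nat_lit 9) (nat_lit 0) (nat_lit 0xa0765540100) (nat_lit 0xf423f00000f423fb71aea2c2804737f423f00000f423fb71ae1f156) .nil)))))) (.leaf (.cons (nat_lit 0x40005) (nat_lit 0x1000000000000000000000000000000010001) (.cons (nat_lit 0x100055) (nat_lit 0x10000000000000000000000000002000300040003) .nil)) .nil)) (.split (nat_lit 0xb) (nat_lit 0) (.split (nat_lit 0xb) (nat_lit 1) (.split (nat_lit 0xb) (nat_lit 2) (.split (nat_lit 0xb) (nat_lit 3) (.split (nat_lit 0xb) (nat_lit 4) (.split (nat_lit 0xb) (nat_lit 5) (.split (nat_lit 0xb) (nat_lit 7) (.split (nat_lit 0xb) (nat_lit 8) (.split (nat_lit 0xb) (nat_lit 9) (.split (nat_lit 0xb) (nat_lit 0xa) (.unj (nat_lit 0x40005) (nat_lit 0x1000000000000000000000000000000010001) (nat_lit 0x405400) (nat_lit 0x100000000000000010002000200000000000000000000)) (.non (nat_lit 0) (nat_lit 5) (nat_lit 0x555054) (nat_lit 0x100010001000100010001000000000001000100010000))) (.non (nat_lit 0) (nat_lit 5) (nat_lit 0x455000) (nat_lit 0x100000001000100010001000000000000000000000000)))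 (.non (nat_lit 0) (nat_lit 5) (nat_lit 0x415000) (nat_lit 0x100000000000100010001000000000000000000000000))) (.non (nat_lit 0) (nat_lit 5) (nat_lit 0x405000) (nat_lit 0x100000000000000010001000000000000000000000000))) (.non (nat_lit 0) (nat_lit 7) (nat_lit 0x401400) (nat_lit 0x100000000000000000001000100000000000000000000))) (.non (nat_lit 0) (nat_lit 5) (nat_lit 0x554154) (nat_lit 0x200030003000200010000000000040006000500040000))) (.non (nat_lit 0) (nat_lit 5) (nat_lit 0x500150) (nat_lit 0x100010000000000000000000000010002000100000000))) (.non (nat_lit 0) (nat_lit 5) (nat_lit 0x455014) (nat_lit 0x100000001000100010001000000000000000100010000))) (.non (nat_lit 0) (nat_lit 5) (nat_lit 0x455004) (nat_lit 0x100000001000100010001000000000000000000010000))) (.non (nat_lit 1) (nat_lit 5) (nat_lit 0x455001) (nat_lit 0x100000001000100010001000000000000000000000001))))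

noncomputable def t1538_30 : Tr := (.ex (nat_lit 6) (.pd (.cons (nat_lit 0) (nat_lit 8) (nat_lit 0) (nat_lit 0x31065532110) (nat_lit 0xf423ff423f00000f423fb71ae1f156f423f7a11d7a11b3d08800000) (.cons (nat_lit 0) (nat_lit 9) (nat_lit 0) (nat_lit 0x30765532110) (nat_lit 0xf423f00000f423fb71aea2c2804737f423f7a11d7a11b7a11900000) (.cons (nat_lit 1) (nat_lit 8) (nat_lit 0) (nat_lit 0x30065532200) (nat_lit 0xf423ff423f00000f423fb71ae1f156f423f7a11d7a11b000007a11e) (.cons (nat_lit 1) (nat_lit 9) (nat_lit 0) (nat_lit 0x30765532200) (nat_lit 0xf423f00000f423fb71aea2c2804737f423f7a11d7a11b00000f423f) (.cons (nat_lit 2) (nat_lit 9) (nat_lit 0) (nat_lit 0x30765533000) (nat_lit 0xf423f00000f423fb71aea2c2804737f423f7a11d00000f423f54591) (.cons (nat_lit 3) (nat_lit 9) (nat_lit 0) (nat_lit 0xa0765540100) (nat_lit 0xf423f00000f423fb71aea2c2804737f423f00000f423fb71ae1f156) .nil)))))) (.leaf (.cons (nat_lit 0x40005) (nat_lit 0x1000000000000000000000000000000010001) (.cons (nat_lit 0x100055) (nat_lit 0x10000000000000000000000000002000300040003)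 .nil)) .nil)) (.split (nat_lit 0xb) (nat_lit 0) (.split (nat_lit 0xb) (nat_lit 1) (.split (nat_lit 0xb) (nat_lit 2) (.split (nat_lit 0xb) (nat_lit 3) (.split (nat_lit 0xb) (nat_lit 4) (.split (nat_lit 0xb) (nat_lit 5) (.split (nat_lit 0xb) (nat_lit 7) (.split (nat_lit 0xb) (nat_lit 8) (.split (nat_lit 0xb) (nat_lit 9) (.split (nat_lit 0xb) (nat_lit 0xa) (.unj (nat_lit 0x40005) (nat_lit 0x1000000000000000000000000000000010001) (nat_lit 0x405400) (nat_lit 0x100000000000000010002000200000000000000000000)) (.non (nat_lit 0) (nat_lit 5) (nat_lit 0x555054) (nat_lit 0x100010001000100010001000000000001000100010000))) (.non (nat_lit 0) (nat_lit 5) (nat_lit 0x455000) (nat_lit 0x100000001000100010001000000000000000000000000))) (.non (nat_lit 0) (nat_lit 5) (nat_lit 0x415000) (nat_lit 0x100000000000100010001000000000000000000000000))) (.non (nat_lit 0) (nat_lit 5) (nat_lit 0x405000) (nat_lit 0x100000000000000010001000000000000000000000000))) (.non (nat_lit 0) (nat_lit 7) (nat_lit 0x401400) (nat_lit 0x100000000000000000001000100000000000000000000)))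 (.non (nat_lit 0) (nat_lit 5) (nat_lit 0x554154) (nat_lit 0x200030003000200010000000000040006000500040000))) (.non (nat_lit 0) (nat_lit 5) (nat_lit 0x500150) (nat_lit 0x100010000000000000000000000010002000100000000))) (.non (nat_lit 0) (nat_lit 5) (nat_lit 0x455014) (nat_lit 0x100000001000100010001000000000000000100010000))) (.non (nat_lit 0) (nat_lit 5) (nat_lit 0x455004) (nat_lit 0x100000001000100010001000000000000000000010000))) (.non (nat_lit 1) (nat_lit 5) (nat_lit 0x4a8001) (nat_lit 0x200000003000200010000000000000000000000000004))))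

noncomputable def t1538_31 : Tr := (.ex (nat_lit 5) (.split (nat_lit 9) (nat_lit 1) (.split (nat_lit 4) (nat_lit 3) (.split (nat_lit 0xa) (nat_lit 3) (.split (nat_lit 9) (nat_lit 8) (.split (nat_lit 9) (nat_lit 0) (.pd (.cons (nat_lit 0) (nat_lit 6) (nat_lit 0) (nat_lit 0x31980532110) (nat_lit 0xf423fa2c28b71aef423f00000f423ff423f7a11d7a11b1e83f00000) (.cons (nat_lit 1) (nat_lit 6) (nat_lit 0) (nat_lit 0x30980532200) (nat_lit 0xf423fa2c28b71aef423f00000f423ff423f7a11d7a11b0000098965) .nil)) t1538_29) (.split (nat_lit 9) (nat_lit 0) (.pd (.cons (nat_lit 0) (nat_lit 6) (nat_lit 0) (nat_lit 0x31980532110) (nat_lit 0xf423fa2c28b71aef423f00000f423ff423f7a11d7a11b1e83f00000) (.cons (nat_lit 1) (nat_lit 6) (nat_lit 0) (nat_lit 0x30980532200) (nat_lit 0xf423fa2c28b71aef423f00000f423ff423f7a11d7a11b000003d08b) .nil)) t1538_30) (.non (nat_lit 1) (nat_lit 5) (nat_lit 0x55001) (nat_lit 0x4000300020001000000000000000000000003)))) (.non (nat_lit 0) (nat_lit 5) (nat_lit 0x6a004) (nat_lit 0x4000300020001000000000000000000020000)))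 (.non (nat_lit 0) (nat_lit 5) (nat_lit 0x200150) (nat_lit 0x10000000000000000000000010002000100000000))) (.non (nat_lit 0) (nat_lit 5) (nat_lit 0x100250) (nat_lit 0x10000000000000000000000010002000100000000))) (.non (nat_lit 0) (nat_lit 5) (nat_lit 0xa8014) (nat_lit 0x3000200010000000000000000000200040000))) (.split (nat_lit 0xb) (nat_lit 0) (.split (nat_lit 0xb) (nat_lit 1) (.split (nat_lit 0xb) (nat_lit 2) (.split (nat_lit 0xb) (nat_lit 3) (.split (nat_lit 0xb) (nat_lit 4) (.split (nat_lit 0xb) (nat_lit 6) (.split (nat_lit 0xb) (nat_lit 7) (.split (nat_lit 0xb) (nat_lit 8) (.split (nat_lit 0xb) (nat_lit 9) (.split (nat_lit 0xb) (nat_lit 0xa) (.unj (nat_lit 0x40005) (nat_lit 0x1000000000000000000000000000000010001) (nat_lit 0x405400) (nat_lit 0x100000000000000010002000200000000000000000000)) (.non (nat_lit 0) (nat_lit 5) (nat_lit 0x554154) (nat_lit 0x200040003000200010000000000030006000500040000))) (.non (nat_lit 0) (nat_lit 5) (nat_lit 0x455054) (nat_lit 0x200000004000300020001000000000001000200030000)))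 (.non (nat_lit 0) (nat_lit 5) (nat_lit 0x555054) (nat_lit 0x300010005000600040002000000000002000300040000))) (.non (nat_lit 0) (nat_lit 5) (nat_lit 0x555154) (nat_lit 0x100010002000200020001000000010002000200020000))) (.non (nat_lit 0) (nat_lit 7) (nat_lit 0x401400) (nat_lit 0x100000000000000000001000100000000000000000000))) (.non (nat_lit 0) (nat_lit 5) (nat_lit 0x554154) (nat_lit 0x200030003000200010000000000040006000500040000))) (.non (nat_lit 0) (nat_lit 5) (nat_lit 0x500150) (nat_lit 0x100010000000000000000000000010002000100000000))) (.non (nat_lit 0) (nat_lit 5) (nat_lit 0x555054) (nat_lit 0x300020004000300020001000000000004000600050000))) (.star (nat_lit 0xb) (nat_lit 1) (nat_lit 5))) (.star (nat_lit 0xb) (nat_lit 0) (nat_lit 5))))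

noncomputable def t1538_32 : Tr := (.ex (nat_lit 3) (.ex (nat_lit 5) t1538_28 (.split (nat_lit 0xa) (nat_lit 0) (.split (nat_lit 0xa) (nat_lit 1) (.split (nat_lit 0xa) (nat_lit 2) (.split (nat_lit 0xa) (nat_lit 3) (.split (nat_lit 0xa) (nat_lit 4) (.split (nat_lit 0xa) (nat_lit 6) (.split (nat_lit 0xa) (nat_lit 8) (.split (nat_lit 0xa) (nat_lit 9) (.split (nat_lit 0xa) (nat_lit 7) (.unj (nat_lit 0x40005) (nat_lit 0x1000000000000000000000000000000010001) (nat_lit 0x105400) (nat_lit 0x10000000000010002000200000000000000000000)) (.unj (nat_lit 0x40005) (nat_lit 0x1000000000000000000000000000000010001) (nat_lit 0x105400) (nat_lit 0x10000000000010001000100000000000000000000))) (.non (nat_lit 0) (nat_lit 5) (nat_lit 0x155054) (nat_lit 0x20004000300020001000000000001000200030000))) (.non (nat_lit 0) (nat_lit 5) (nat_lit 0x155154) (nat_lit 0x30005000600040002000000010002000300040000))) (.non (nat_lit 0) (nat_lit 7) (nat_lit 0x101400) (nat_lit 0x10000000000000001000100000000000000000000))) (.non (nat_lit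 0) (nat_lit 7) (nat_lit 0x101540) (nat_lit 0x30000000000000003000400020001000000000000))) (.non (nat_lit 0) (nat_lit 7) (nat_lit 0x101540) (nat_lit 0x30000000000000003000400010002000000000000))) (.non (nat_lit 0) (nat_lit 5) (nat_lit 0x155154) (nat_lit 0x30004000300020001000000020004000600050000))) (.star (nat_lit 0xa) (nat_lit 1) (nat_lit 5))) (.star (nat_lit 0xa) (nat_lit 0) (nat_lit 5)))) (.split (nat_lit 0xa) (nat_lit 1) (.split (nat_lit 0xa) (nat_lit 2) (.split (nat_lit 0xa) (nat_lit 4) (.split (nat_lit 0xa) (nat_lit 5) (.split (nat_lit 0xa) (nat_lit 6) (.split (nat_lit 0xa) (nat_lit 7) (.split (nat_lit 0xa) (nat_lit 8) (.split (nat_lit 0xa) (nat_lit 9) (.split (nat_lit 0xa) (nat_lit 0) (.st (nat_lit 7) (nat_lit 0) (nat_lit 5) (nat_lit 0x155154) (nat_lit 0x10002000200020001000000010002000200020000) (nat_lit 1) (nat_lit 1) t1538_31) (.split (nat_lit 0xa) (nat_lit 0) (.split (nat_lit 0xa) (nat_lit 3) (.split (nat_lit 9) (nat_lit 0) (.split (nat_lit 9) (nat_lit 1) (.sup (nat_lit 0x3000d00160020001a00000000000000000000)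 (nat_lit 0x50000000000000000000000030006000500030003)) (.non (nat_lit 0) (nat_lit 5) (nat_lit 0xa8014) (nat_lit 0x3000200010000000000000000000200040000))) (.non (nat_lit 1) (nat_lit 5) (nat_lit 0x1a8001) (nat_lit 0x20003000200010000000000000000000000000004))) (.non (nat_lit 0) (nat_lit 5) (nat_lit 0x200150) (nat_lit 0x10000000000000000000000010002000100000000))) (.non (nat_lit 1) (nat_lit 5) (nat_lit 0x250081) (nat_lit 0x20002000100000000000000000001000000000003)))) (.non (nat_lit 0) (nat_lit 5) (nat_lit 0x155144) (nat_lit 0x30004000300020001000000010002000000020000))) (.non (nat_lit 0) (nat_lit 5) (nat_lit 0x154150) (nat_lit 0x20001000200010000000000010002000100000000))) (.non (nat_lit 0) (nat_lit 5) (nat_lit 0x115150) (nat_lit 0x20000000100020001000000010002000100000000))) (.non (nat_lit 0) (nat_lit 5) (nat_lit 0x155054) (nat_lit 0x10001000100010001000000000001000100010000))) (.non (nat_lit 0) (nat_lit 7) (nat_lit 0x101540) (nat_lit 0x30000000000000003000400010002000000000000))) (.non (nat_lit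 0) (nat_lit 5) (nat_lit 0x100140) (nat_lit 0x10000000000000000000000010001000000000000))) (.non (nat_lit 0) (nat_lit 5) (nat_lit 0x100050) (nat_lit 0x10000000000000000000000000001000100000000))) (.non (nat_lit 0) (nat_lit 5) (nat_lit 0x100054) (nat_lit 0x10000000000000000000000000001000100010000))))

noncomputable def t1538_33 : Tr := (.ex (nat_lit 0xa) (.ex (nat_lit 0xb) (.split (nat_lit 0xb) (nat_lit 0xa) (.pd (.cons (nat_lit 2) (nat_lit 9) (nat_lit 0) (nat_lit 0xa00765533000) (nat_lit 0xf423fb71ae00000f423fb71aea2c2804737f423fb71ae00000f423f02f7a) .nil) (.leaf (.cons (nat_lit 0x40005) (nat_lit 0x1000000000000000000000000000000010001) (.cons (nat_lit 0x100015) (nat_lit 0x10000000000000000000000000000000100020002) .nil)) .nil)) (.leaf (.cons (nat_lit 0x500005) (nat_lit 0x100010000000000000000000000000000000000010001) .nil) .nil)) (.split (nat_lit 0xc) (nat_lit 0) (.split (nat_lit 0xc) (nat_lit 1) (.split (nat_lit 0xc) (nat_lit 2) (.split (nat_lit 0xc) (nat_lit 3) (.split (nat_lit 0xc) (nat_lit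 5) (.split (nat_lit 0xc) (nat_lit 6) (.split (nat_lit 0xc) (nat_lit 7) (.split (nat_lit 0xc) (nat_lit 8) (.split (nat_lit 0xc) (nat_lit 9) (.split (nat_lit 0xc) (nat_lit 0xa) (.split (nat_lit 0xc) (nat_lit 4) (.leaf (.cons (nat_lit 0x1500005) (nat_lit 0x1000200030000000000000000000000000000000000030004) .nil) .nil) (.leaf (.cons (nat_lit 0x1500005) (nat_lit 0x1000200030000000000000000000000000000000000030004) .nil) .nil)) (.non (nat_lit 0) (nat_lit 5) (nat_lit 0x1500000) (nat_lit 0x1000100010000000000000000000000000000000000000000))) (.non (nat_lit 0) (nat_lit 5) (nat_lit 0x1555004) (nat_lit 0x3000200010004000300020001000000000000000000020000))) (.non (nat_lit 0) (nat_lit 5) (nat_lit 0x1455004) (nat_lit 0x2000100000002000300020001000000000000000000010000))) (.non (nat_lit 0) (nat_lit 5) (nat_lit 0x1555004) (nat_lit 0x3000200010002000300040002000000000000000000010000))) (.non (nat_lit 0) (nat_lit 7) (nat_lit 0x1501400) (nat_lit 0x3000200010000000000000004000300000000000000000000))) (.non (nat_lit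 0) (nat_lit 7) (nat_lit 0x1501400) (nat_lit 0x3000200010000000000000003000400000000000000000000))) (.non (nat_lit 0) (nat_lit 5) (nat_lit 0x1540154) (nat_lit 0x3000200010001000000000000000000020004000300020000))) (.non (nat_lit 0) (nat_lit 5) (nat_lit 0x1550054) (nat_lit 0x3000200010002000100000000000000000002000400030000))) (.non (nat_lit 0) (nat_lit 5) (nat_lit 0x1554014) (nat_lit 0x3000200010003000200010000000000000000000200040000))) (.non (nat_lit 1) (nat_lit 5) (nat_lit 0x1500001) (nat_lit 0x1000100010000000000000000000000000000000000000001)))) (.split (nat_lit 0xc) (nat_lit 0) (.split (nat_lit 0xc) (nat_lit 1) (.split (nat_lit 0xc) (nat_lit 2) (.split (nat_lit 0xc) (nat_lit 3) (.split (nat_lit 0xc) (nat_lit 4) (.split (nat_lit 0xc) (nat_lit 5) (.split (nat_lit 0xc) (nat_lit 6) (.split (nat_lit 0xc) (nat_lit 7) (.split (nat_lit 0xc) (nat_lit 8) (.split (nat_lit 0xc) (nat_lit 9) (.split (nat_lit 0xc) (nat_lit 0xb) (.leaf (.cons (nat_lit 0x1500005) (nat_lit 0x1000100020000000000000000000000000000000000020002)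 .nil) .nil) (.non (nat_lit 0) (nat_lit 5) (nat_lit 0x1500000) (nat_lit 0x1000100010000000000000000000000000000000000000000))) (.non (nat_lit 0) (nat_lit 5) (nat_lit 0x1555004) (nat_lit 0x3000100020004000300020001000000000000000000020000))) (.non (nat_lit 0) (nat_lit 5) (nat_lit 0x1155004) (nat_lit 0x2000000010002000300020001000000000000000000010000))) (.non (nat_lit 0) (nat_lit 5) (nat_lit 0x1555004) (nat_lit 0x3000100020002000300040002000000000000000000010000))) (.non (nat_lit 0) (nat_lit 7) (nat_lit 0x1501400) (nat_lit 0x3000100020000000000000004000300000000000000000000))) (.non (nat_lit 0) (nat_lit 7) (nat_lit 0x1501400) (nat_lit 0x3000100020000000000000003000400000000000000000000))) (.non (nat_lit 1) (nat_lit 5) (nat_lit 0x1555101) (nat_lit 0x4000300060004000300020001000000020000000000000005))) (.non (nat_lit 0) (nat_lit 5) (nat_lit 0x1540154) (nat_lit 0x3000100020001000000000000000000020004000300020000))) (.non (nat_lit 0) (nat_lit 5) (nat_lit 0x1550054) (nat_lit 0x3000100020002000100000000000000000002000400030000)))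 (.non (nat_lit 0) (nat_lit 5) (nat_lit 0x1554014) (nat_lit 0x3000100020003000200010000000000000000000200040000))) (.non (nat_lit 1) (nat_lit 5) (nat_lit 0x1100001) (nat_lit 0x1000000010000000000000000000000000000000000000001))))

noncomputable def t1538_34 : Tr := (.pd (.cons (nat_lit 0) (nat_lit 6) (nat_lit 0) (nat_lit 0xa1980532110) (nat_lit 0xf423fa2c28b71aef423f00000f423ff423fb71aea2c283d08b00000) (.cons (nat_lit 0) (nat_lit 8) (nat_lit 0) (nat_lit 0xa1065532110) (nat_lit 0xf423ff423f00000f423fb71ae1f156f423fb71aea2c285b8d400000) (.cons (nat_lit 0) (nat_lit 9) (nat_lit 0) (nat_lit 0xa0765532110) (nat_lit 0xf423f00000f423fb71aea2c2804737f423fb71aea2c289896500000) (.cons (nat_lit 1) (nat_lit 6) (nat_lit 0) (nat_lit 0x980532200) (nat_lit 0xf423fa2c28b71aef423f00000f423ff423fb71aea2c28000005b8d4) (.cons (nat_lit 1) (nat_lit 8) (nat_lit 0) (nat_lit 0x65532200) (nat_lit 0xf423ff423f00000f423fb71ae1f156f423fb71aea2c28000007a11d) (.cons (nat_lit 1) (nat_lit 9) (nat_lit 0) (nat_lit 0x765532200) (nat_lit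 0xf423f00000f423fb71aea2c2804737f423fb71aea2c2800000b71ae) .nil)))))) (.ex (nat_lit 0xa) (.pd (.cons (nat_lit 2) (nat_lit 9) (nat_lit 0) (nat_lit 0x765533000) (nat_lit 0xf423f00000f423fb71aea2c2804737f423fb71ae00000f423f17500) .nil) (.leaf (.cons (nat_lit 0x40005) (nat_lit 0x1000000000000000000000000000000010001) (.cons (nat_lit 0x100015) (nat_lit 0x10000000000000000000000000000000100020002) .nil)) .nil)) (.split (nat_lit 0xb) (nat_lit 0) (.split (nat_lit 0xb) (nat_lit 1) (.split (nat_lit 0xb) (nat_lit 2) (.split (nat_lit 0xb) (nat_lit 3) (.split (nat_lit 0xb) (nat_lit 5) (.split (nat_lit 0xb) (nat_lit 6) (.split (nat_lit 0xb) (nat_lit 7) (.split (nat_lit 0xb) (nat_lit 8) (.split (nat_lit 0xb) (nat_lit 9) (.split (nat_lit 0xb) (nat_lit 4) t1538_33 (.leaf (.cons (nat_lit 0x40005) (nat_lit 0x1000000000000000000000000000000010001) (.cons (nat_lit 0x500105) (nat_lit 0x200030000000000000000000000010000000000030004) (.cons (nat_lit 0x100015) (nat_lit 0x10000000000000000000000000000000100020002) .nil)))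 .nil)) (.non (nat_lit 0) (nat_lit 5) (nat_lit 0x554014) (nat_lit 0x200010003000200010000000000000000000100020000))) (.non (nat_lit 0) (nat_lit 5) (nat_lit 0x555004) (nat_lit 0x200010002000300020001000000000000000000010000))) (.non (nat_lit 0) (nat_lit 5) (nat_lit 0x555054) (nat_lit 0x400020004000500060003000000000001000200030000))) (.non (nat_lit 1) (nat_lit 5) (nat_lit 0x555001) (nat_lit 0x100010001000100010001000000000000000000000001))) (.non (nat_lit 1) (nat_lit 7) (nat_lit 0x501401) (nat_lit 0x300020000000000000003000400000000000000000001))) (.non (nat_lit 0) (nat_lit 5) (nat_lit 0x554154) (nat_lit 0x400020003000200010000000000030006000500040000))) (.non (nat_lit 0) (nat_lit 5) (nat_lit 0x555054) (nat_lit 0x400020004000300020001000000000003000600050000))) (.non (nat_lit 0) (nat_lit 5) (nat_lit 0x550054) (nat_lit 0x200010002000100000000000000000001000200030000))) (.non (nat_lit 1) (nat_lit 5) (nat_lit 0x500001) (nat_lit 0x100010000000000000000000000000000000000000001)))))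

noncomputable def t1538_35 : Tr := (.ex (nat_lit 0xa) (.ex (nat_lit 0xb) (.split (nat_lit 0xb) (nat_lit 0xa) (.pd (.cons (nat_lit 2) (nat_lit 9) (nat_lit 0) (nat_lit 0xa00765533000) (nat_lit 0xf423fb71ae00000f423fb71aea2c2804737f423f7a11e00000f423f02f7a) .nil) (.leaf (.cons (nat_lit 0x40005) (nat_lit 0x1000000000000000000000000000000010001) (.cons (nat_lit 0x100015) (nat_lit 0x10000000000000000000000000000000100020002) .nil)) .nil)) (.leaf (.cons (nat_lit 0x500005) (nat_lit 0x100010000000000000000000000000000000000010001) .nil) .nil)) (.split (nat_lit 0xc) (nat_lit 0) (.split (nat_lit 0xc) (nat_lit 1) (.split (nat_lit 0xc) (nat_lit 2) (.split (nat_lit 0xc) (nat_lit 3) (.split (nat_lit 0xc) (nat_lit 4) (.split (nat_lit 0xc) (nat_lit 5) (.split (nat_lit 0xc) (nat_lit 6) (.split (nat_lit 0xc) (nat_lit 7) (.split (nat_lit 0xc) (nat_lit 8) (.split (nat_lit 0xc) (nat_lit 9) (.split (nat_lit 0xc) (nat_lit 0xa) (.leaf (.cons (nat_lit 0x1500005) (nat_lit 0x1000200030000000000000000000000000000000000030004)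 .nil) .nil) (.non (nat_lit 0) (nat_lit 5) (nat_lit 0x1500000) (nat_lit 0x1000100010000000000000000000000000000000000000000))) (.non (nat_lit 0) (nat_lit 5) (nat_lit 0x1555004) (nat_lit 0x3000200010004000300020001000000000000000000020000))) (.non (nat_lit 0) (nat_lit 5) (nat_lit 0x1455004) (nat_lit 0x2000100000002000300020001000000000000000000010000))) (.non (nat_lit 0) (nat_lit 5) (nat_lit 0x1555004) (nat_lit 0x3000200010002000300040002000000000000000000010000))) (.non (nat_lit 0) (nat_lit 7) (nat_lit 0x1501400) (nat_lit 0x3000200010000000000000004000300000000000000000000))) (.non (nat_lit 0) (nat_lit 7) (nat_lit 0x1501400) (nat_lit 0x3000200010000000000000003000400000000000000000000))) (.non (nat_lit 0) (nat_lit 5) (nat_lit 0x2800250) (nat_lit 0x2000100000000000000000000000000030004000200000000))) (.non (nat_lit 0) (nat_lit 5) (nat_lit 0x1000250) (nat_lit 0x1000000000000000000000000000000010002000100000000))) (.non (nat_lit 0) (nat_lit 5) (nat_lit 0x1550054) (nat_lit 0x3000200010002000100000000000000000002000400030000)))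 (.non (nat_lit 0) (nat_lit 5) (nat_lit 0x1554014) (nat_lit 0x3000200010003000200010000000000000000000200040000))) (.non (nat_lit 1) (nat_lit 5) (nat_lit 0x1500001) (nat_lit 0x1000100010000000000000000000000000000000000000001)))) (.split (nat_lit 0xc) (nat_lit 0) (.split (nat_lit 0xc) (nat_lit 1) (.split (nat_lit 0xc) (nat_lit 2) (.split (nat_lit 0xc) (nat_lit 3) (.split (nat_lit 0xc) (nat_lit 4) (.split (nat_lit 0xc) (nat_lit 5) (.split (nat_lit 0xc) (nat_lit 6) (.split (nat_lit 0xc) (nat_lit 7) (.split (nat_lit 0xc) (nat_lit 8) (.split (nat_lit 0xc) (nat_lit 9) (.split (nat_lit 0xc) (nat_lit 0xb) (.leaf (.cons (nat_lit 0x1500005) (nat_lit 0x1000100020000000000000000000000000000000000020002) .nil) .nil) (.non (nat_lit 0) (nat_lit 5) (nat_lit 0x1500000) (nat_lit 0x1000100010000000000000000000000000000000000000000))) (.non (nat_lit 0) (nat_lit 5) (nat_lit 0x1555004) (nat_lit 0x3000100020004000300020001000000000000000000020000))) (.non (nat_lit 0) (nat_lit 5) (nat_lit 0x1155004) (nat_lit 0x2000000010002000300020001000000000000000000010000)))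 (.non (nat_lit 0) (nat_lit 5) (nat_lit 0x1555004) (nat_lit 0x3000100020002000300040002000000000000000000010000))) (.non (nat_lit 0) (nat_lit 7) (nat_lit 0x1501400) (nat_lit 0x3000100020000000000000004000300000000000000000000))) (.non (nat_lit 0) (nat_lit 7) (nat_lit 0x1501400) (nat_lit 0x3000100020000000000000003000400000000000000000000))) (.non (nat_lit 0) (nat_lit 5) (nat_lit 0x2200250) (nat_lit 0x2000000010000000000000000000000030004000200000000))) (.non (nat_lit 0) (nat_lit 5) (nat_lit 0x1000250) (nat_lit 0x1000000000000000000000000000000010002000100000000))) (.non (nat_lit 0) (nat_lit 5) (nat_lit 0x1550054) (nat_lit 0x3000100020002000100000000000000000002000400030000))) (.non (nat_lit 0) (nat_lit 5) (nat_lit 0x1554014) (nat_lit 0x3000100020003000200010000000000000000000200040000))) (.non (nat_lit 1) (nat_lit 5) (nat_lit 0x1100001) (nat_lit 0x1000000010000000000000000000000000000000000000001))))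

noncomputable def t1538_36 : Tr := (.pd (.cons (nat_lit 0) (nat_lit 6) (nat_lit 0) (nat_lit 0xa1980532110) (nat_lit 0xf423fa2c28b71aef423f00000f423ff423f7a11e7a11c1e84000000) (.cons (nat_lit 0) (nat_lit 8) (nat_lit 0) (nat_lit 0xa1065532110) (nat_lit 0xf423ff423f00000f423fb71ae1f156f423f7a11e7a11c3d08900000) (.cons (nat_lit 0) (nat_lit 9) (nat_lit 0) (nat_lit 0xa0765532110) (nat_lit 0xf423f00000f423fb71aea2c2804737f423f7a11e7a11c7a11a00000) (.cons (nat_lit 1) (nat_lit 6) (nat_lit 0) (nat_lit 0x980532200) (nat_lit 0xf423fa2c28b71aef423f00000f423ff423f7a11e7a11c000005b8d4) (.cons (nat_lit 1) (nat_lit 8) (nat_lit 0) (nat_lit 0x65532200) (nat_lit 0xf423ff423f00000f423fb71ae1f156f423f7a11e7a11c000007a11d) (.cons (nat_lit 1) (nat_lit 9) (nat_lit 0) (nat_lit 0x765532200) (nat_lit 0xf423f00000f423fb71aea2c2804737f423f7a11e7a11c00000b71ae) .nil)))))) (.ex (nat_lit 0xa) (.pd (.cons (nat_lit 2) (nat_lit 9) (nat_lit 0) (nat_lit 0x765533000) (nat_lit 0xf423f00000f423fb71aea2c2804737f423f7a11e00000f423f17500)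 .nil) (.leaf (.cons (nat_lit 0x40005) (nat_lit 0x1000000000000000000000000000000010001) (.cons (nat_lit 0x100015) (nat_lit 0x10000000000000000000000000000000100020002) .nil)) .nil)) (.split (nat_lit 0xb) (nat_lit 0) (.split (nat_lit 0xb) (nat_lit 1) (.split (nat_lit 0xb) (nat_lit 2) (.split (nat_lit 0xb) (nat_lit 3) (.split (nat_lit 0xb) (nat_lit 4) (.split (nat_lit 0xb) (nat_lit 5) (.split (nat_lit 0xb) (nat_lit 6) (.split (nat_lit 0xb) (nat_lit 7) (.split (nat_lit 0xb) (nat_lit 8) (.split (nat_lit 0xb) (nat_lit 9) t1538_35 (.non (nat_lit 0) (nat_lit 5) (nat_lit 0x554014) (nat_lit 0x200010003000200010000000000000000000100020000))) (.non (nat_lit 0) (nat_lit 5) (nat_lit 0x555004) (nat_lit 0x200010002000300020001000000000000000000010000))) (.non (nat_lit 0) (nat_lit 5) (nat_lit 0x555054) (nat_lit 0x400020004000500060003000000000001000200030000))) (.non (nat_lit 1) (nat_lit 5) (nat_lit 0x555001) (nat_lit 0x100010001000100010001000000000000000000000001))) (.non (nat_lit 1) (nat_lit 7) (nat_lit 0x501401)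 (nat_lit 0x300020000000000000003000400000000000000000001))) (.non (nat_lit 0) (nat_lit 5) (nat_lit 0xa00250) (nat_lit 0x200010000000000000000000000030004000200000000))) (.non (nat_lit 0) (nat_lit 5) (nat_lit 0x400250) (nat_lit 0x100000000000000000000000000010002000100000000))) (.non (nat_lit 0) (nat_lit 5) (nat_lit 0x555054) (nat_lit 0x400020004000300020001000000000003000600050000))) (.non (nat_lit 0) (nat_lit 5) (nat_lit 0x550054) (nat_lit 0x200010002000100000000000000000001000200030000))) (.non (nat_lit 1) (nat_lit 5) (nat_lit 0x500001) (nat_lit 0x100010000000000000000000000000000000000000001)))))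

noncomputable def t1538_37 : Tr := (.split (nat_lit 4) (nat_lit 3) (.split (nat_lit 9) (nat_lit 8) (.split (nat_lit 9) (nat_lit 0) (.split (nat_lit 0xa) (nat_lit 0) t1538_34 (.split (nat_lit 0xa) (nat_lit 0) (.pd (.cons (nat_lit 0) (nat_lit 6) (nat_lit 0) (nat_lit 0xa1980532110) (nat_lit 0xf423fa2c28b71aef423f00000f423ff423fb71aea2c283d08b00000) (.cons (nat_lit 0) (nat_lit 8) (nat_lit 0) (nat_lit 0xa1065532110) (nat_lit 0xf423ff423f00000f423fb71ae1f156f423fb71aea2c285b8d400000) (.cons (nat_lit 0) (nat_lit 9) (nat_lit 0) (nat_lit 0xa0765532110) (nat_lit 0xf423f00000f423fb71aea2c2804737f423fb71aea2c289896500000) (.cons (nat_lit 1) (nat_lit 6) (nat_lit 0) (nat_lit 0x980532200) (nat_lit 0xf423fa2c28b71aef423f00000f423ff423fb71aea2c28000001e844) (.cons (nat_lit 1) (nat_lit 8) (nat_lit 0) (nat_lit 0x65532200) (nat_lit 0xf423ff423f00000f423fb71ae1f156f423fb71aea2c28000003d08d) (.cons (nat_lit 1) (nat_lit 9) (nat_lit 0) (nat_lit 0x765532200) (nat_lit 0xf423f00000f423fb71aea2c2804737f423fb71aea2c28000007a11e)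 .nil)))))) (.leaf (.cons (nat_lit 0x100005) (nat_lit 0x10000000000000000000000000000000000010001) .nil) .nil)) (.non (nat_lit 1) (nat_lit 5) (nat_lit 0x154001) (nat_lit 0x30003000200010000000000000000000000000004)))) (.non (nat_lit 1) (nat_lit 5) (nat_lit 0x1a8001) (nat_lit 0x20003000200010000000000000000000000000004))) (.non (nat_lit 0) (nat_lit 5) (nat_lit 0x6a004) (nat_lit 0x4000300020001000000000000000000020000))) (.split (nat_lit 4) (nat_lit 3) (.split (nat_lit 9) (nat_lit 8) (.split (nat_lit 9) (nat_lit 0) (.split (nat_lit 0xa) (nat_lit 0) t1538_36 (.split (nat_lit 0xa) (nat_lit 0) (.pd (.cons (nat_lit 0) (nat_lit 6) (nat_lit 0) (nat_lit 0xa1980532110) (nat_lit 0xf423fa2c28b71aef423f00000f423ff423f7a11e7a11c1e84000000) (.cons (nat_lit 0) (nat_lit 8) (nat_lit 0) (nat_lit 0xa1065532110) (nat_lit 0xf423ff423f00000f423fb71ae1f156f423f7a11e7a11c3d08900000) (.cons (nat_lit 0) (nat_lit 9) (nat_lit 0) (nat_lit 0xa0765532110) (nat_lit 0xf423f00000f423fb71aea2c2804737f423f7a11e7a11c7a11a00000) (.cons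 (nat_lit 1) (nat_lit 6) (nat_lit 0) (nat_lit 0x980532200) (nat_lit 0xf423fa2c28b71aef423f00000f423ff423f7a11e7a11c000001e844) (.cons (nat_lit 1) (nat_lit 8) (nat_lit 0) (nat_lit 0x65532200) (nat_lit 0xf423ff423f00000f423fb71ae1f156f423f7a11e7a11c000003d08d) (.cons (nat_lit 1) (nat_lit 9) (nat_lit 0) (nat_lit 0x765532200) (nat_lit 0xf423f00000f423fb71aea2c2804737f423f7a11e7a11c000007a11e) .nil)))))) (.leaf (.cons (nat_lit 0x100005) (nat_lit 0x10000000000000000000000000000000000010001) .nil) .nil)) (.non (nat_lit 1) (nat_lit 5) (nat_lit 0x154001) (nat_lit 0x30003000200010000000000000000000000000004)))) (.non (nat_lit 1) (nat_lit 5) (nat_lit 0x1a8001) (nat_lit 0x20003000200010000000000000000000000000004))) (.non (nat_lit 0) (nat_lit 5) (nat_lit 0x6a004) (nat_lit 0x4000300020001000000000000000000020000))) (.non (nat_lit 0) (nat_lit 5) (nat_lit 0x40154) (nat_lit 0x1000000000000000000030004000300020000))))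

noncomputable def t1538_38 : Tr := (.ex (nat_lit 6) (.ex (nat_lit 7) (.split (nat_lit 9) (nat_lit 1) t1538_37 (.non (nat_lit 0) (nat_lit 5) (nat_lit 0xa8014) (nat_lit 0x3000200010000000000000000000200040000))) (.split (nat_lit 0xb) (nat_lit 0) (.split (nat_lit 0xb) (nat_lit 1) (.split (nat_lit 0xb) (nat_lit 2) (.split (nat_lit 0xb) (nat_lit 3) (.split (nat_lit 0xb) (nat_lit 4) (.split (nat_lit 0xb) (nat_lit 6) (.split (nat_lit 0xb) (nat_lit 8) (.split (nat_lit 0xb) (nat_lit 9) (.split (nat_lit 0xb) (nat_lit 0xa) (.split (nat_lit 0xb) (nat_lit 5) (.unj (nat_lit 0x100015) (nat_lit 0x10000000000000000000000000000000100020002) (nat_lit 0x415400) (nat_lit 0x100000000000100020002000200000000000000000000)) (.unj (nat_lit 0x40005) (nat_lit 0x1000000000000000000000000000000010001) (nat_lit 0x405400) (nat_lit 0x100000000000000010001000100000000000000000000))) (.non (nat_lit 0) (nat_lit 5) (nat_lit 0x555054) (nat_lit 0x400020004000500060003000000000001000200030000))) (.non (nat_lit 0) (nat_lit 5) (nat_lit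 0x454000) (nat_lit 0x100000001000100010000000000000000000000000000))) (.non (nat_lit 0) (nat_lit 5) (nat_lit 0x414000) (nat_lit 0x100000000000100010000000000000000000000000000))) (.non (nat_lit 0) (nat_lit 5) (nat_lit 0x405000) (nat_lit 0x100000000000000010001000000000000000000000000))) (.non (nat_lit 0) (nat_lit 5) (nat_lit 0x455144) (nat_lit 0x300000002000300040002000000020001000000010000))) (.non (nat_lit 0) (nat_lit 5) (nat_lit 0x415150) (nat_lit 0x200000000000100020001000000010002000100000000))) (.non (nat_lit 0) (nat_lit 5) (nat_lit 0x454014) (nat_lit 0x100000001000100010000000000000000000100010000))) (.star (nat_lit 0xb) (nat_lit 1) (nat_lit 7))) (.star (nat_lit 0xb) (nat_lit 0) (nat_lit 7)))) (.split (nat_lit 0xb) (nat_lit 0) (.split (nat_lit 0xb) (nat_lit 1) (.split (nat_lit 0xb) (nat_lit 2) (.split (nat_lit 0xb) (nat_lit 3) (.split (nat_lit 0xb) (nat_lit 4) (.split (nat_lit 0xb) (nat_lit 5) (.split (nat_lit 0xb) (nat_lit 7) (.split (nat_lit 0xb) (nat_lit 8) (.split (nat_lit 0xb) (nat_lit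 9) (.split (nat_lit 0xb) (nat_lit 0xa) (.unj (nat_lit 0x40005) (nat_lit 0x1000000000000000000000000000000010001) (nat_lit 0x405400) (nat_lit 0x100000000000000010002000200000000000000000000)) (.non (nat_lit 1) (nat_lit 5) (nat_lit 0x555001) (nat_lit 0x100010001000100010001000000000000000000000001))) (.non (nat_lit 0) (nat_lit 5) (nat_lit 0x455000) (nat_lit 0x100000001000100010001000000000000000000000000))) (.non (nat_lit 0) (nat_lit 5) (nat_lit 0x415000) (nat_lit 0x100000000000100010001000000000000000000000000))) (.non (nat_lit 0) (nat_lit 5) (nat_lit 0x405000) (nat_lit 0x100000000000000010001000000000000000000000000))) (.non (nat_lit 0) (nat_lit 7) (nat_lit 0x401400) (nat_lit 0x100000000000000000001000100000000000000000000))) (.non (nat_lit 0) (nat_lit 5) (nat_lit 0x455154) (nat_lit 0x100000001000100010001000000010001000100010000))) (.non (nat_lit 0) (nat_lit 5) (nat_lit 0x455054) (nat_lit 0x100000001000100010001000000000001000100010000))) (.non (nat_lit 0) (nat_lit 5) (nat_lit 0x455014) (nat_lit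 0x100000001000100010001000000000000000100010000))) (.non (nat_lit 0) (nat_lit 5) (nat_lit 0x455004) (nat_lit 0x100000001000100010001000000000000000000010000))) (.non (nat_lit 1) (nat_lit 5) (nat_lit 0x455001) (nat_lit 0x100000001000100010001000000000000000000000001))))

noncomputable def t1538_39 : Tr := (.pd (.cons (nat_lit 0) (nat_lit 6) (nat_lit 0) (nat_lit 0xba1980532110) (nat_lit 0xf423ff423fa2c28b71aef423f00000f423ff423fb71aea2c283d08b00000) (.cons (nat_lit 1) (nat_lit 6) (nat_lit 0) (nat_lit 0x980532200) (nat_lit 0xf423ff423fa2c28b71aef423f00000f423ff423fb71aea2c28000001e843) .nil)) (.ex (nat_lit 6) (.pd (.cons (nat_lit 0) (nat_lit 8) (nat_lit 0) (nat_lit 0xba1065532110) (nat_lit 0xf423ff423ff423f00000f423fb71ae1f156f423fb71aea2c285b8d400000) (.cons (nat_lit 0) (nat_lit 9) (nat_lit 0) (nat_lit 0xba0765532110) (nat_lit 0xf423ff423f00000f423fb71aea2c2804737f423fb71aea2c289896500000) (.cons (nat_lit 1) (nat_lit 8) (nat_lit 0) (nat_lit 0x65532200) (nat_lit 0xf423ff423ff423f00000f423fb71ae1f156f423fb71aea2c28000003d08c)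 (.cons (nat_lit 1) (nat_lit 9) (nat_lit 0) (nat_lit 0x765532200) (nat_lit 0xf423ff423f00000f423fb71aea2c2804737f423fb71aea2c28000007a11d) .nil)))) (.leaf (.cons (nat_lit 0x500005) (nat_lit 0x100010000000000000000000000000000000000020002) .nil) .nil)) (.split (nat_lit 0xc) (nat_lit 0) (.split (nat_lit 0xc) (nat_lit 1) (.split (nat_lit 0xc) (nat_lit 2) (.split (nat_lit 0xc) (nat_lit 3) (.split (nat_lit 0xc) (nat_lit 4) (.split (nat_lit 0xc) (nat_lit 5) (.split (nat_lit 0xc) (nat_lit 7) (.split (nat_lit 0xc) (nat_lit 8) (.split (nat_lit 0xc) (nat_lit 9) (.split (nat_lit 0xc) (nat_lit 0xa) (.split (nat_lit 0xc) (nat_lit 0xb) (.unj (nat_lit 0x40005) (nat_lit 0x1000000000000000000000000000000010001) (nat_lit 0x1005400) (nat_lit 0x1000000000000000000010002000200000000000000000000)) (.non (nat_lit 1) (nat_lit 5) (nat_lit 0x1455001) (nat_lit 0x1000100000001000100010001000000000000000000000001))) (.non (nat_lit 1) (nat_lit 5) (nat_lit 0x1155001) (nat_lit 0x1000000010001000100010001000000000000000000000001)))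 (.non (nat_lit 0) (nat_lit 5) (nat_lit 0x1055000) (nat_lit 0x1000000000001000100010001000000000000000000000000))) (.non (nat_lit 0) (nat_lit 5) (nat_lit 0x1015000) (nat_lit 0x1000000000000000100010001000000000000000000000000))) (.non (nat_lit 0) (nat_lit 5) (nat_lit 0x1005000) (nat_lit 0x1000000000000000000010001000000000000000000000000))) (.non (nat_lit 0) (nat_lit 7) (nat_lit 0x1001400) (nat_lit 0x1000000000000000000000001000100000000000000000000))) (.non (nat_lit 0) (nat_lit 5) (nat_lit 0x1055154) (nat_lit 0x1000000000001000100010001000000010001000100010000))) (.non (nat_lit 0) (nat_lit 5) (nat_lit 0x1055054) (nat_lit 0x1000000000001000100010001000000000001000100010000))) (.non (nat_lit 0) (nat_lit 5) (nat_lit 0x1055014) (nat_lit 0x1000000000001000100010001000000000000000100010000))) (.non (nat_lit 0) (nat_lit 5) (nat_lit 0x1055004) (nat_lit 0x1000000000001000100010001000000000000000000010000))) (.non (nat_lit 1) (nat_lit 5) (nat_lit 0x1540001) (nat_lit 0x1000100010001000000000000000000000000000000000002)))))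

noncomputable def t1538_40 : Tr := (.pd (.cons (nat_lit 0) (nat_lit 6) (nat_lit 0) (nat_lit 0xba1980532110) (nat_lit 0xf423ff423fa2c28b71aef423f00000f423ff423f7a11e7a11c1e84000000) (.cons (nat_lit 1) (nat_lit 6) (nat_lit 0) (nat_lit 0x980532200) (nat_lit 0xf423ff423fa2c28b71aef423f00000f423ff423f7a11e7a11c000001e843) .nil)) (.ex (nat_lit 6) (.pd (.cons (nat_lit 0) (nat_lit 8) (nat_lit 0) (nat_lit 0xba1065532110) (nat_lit 0xf423ff423ff423f00000f423fb71ae1f156f423f7a11e7a11c3d08900000) (.cons (nat_lit 0) (nat_lit 9) (nat_lit 0) (nat_lit 0xba0765532110) (nat_lit 0xf423ff423f00000f423fb71aea2c2804737f423f7a11e7a11c7a11a00000) (.cons (nat_lit 1) (nat_lit 8) (nat_lit 0) (nat_lit 0x65532200) (nat_lit 0xf423ff423ff423f00000f423fb71ae1f156f423f7a11e7a11c000003d08c) (.cons (nat_lit 1) (nat_lit 9) (nat_lit 0) (nat_lit 0x765532200) (nat_lit 0xf423ff423f00000f423fb71aea2c2804737f423f7a11e7a11c000007a11d) .nil)))) (.leaf (.cons (nat_lit 0x500005) (nat_lit 0x100010000000000000000000000000000000000020002) .nil)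 .nil)) (.split (nat_lit 0xc) (nat_lit 0) (.split (nat_lit 0xc) (nat_lit 1) (.split (nat_lit 0xc) (nat_lit 2) (.split (nat_lit 0xc) (nat_lit 3) (.split (nat_lit 0xc) (nat_lit 4) (.split (nat_lit 0xc) (nat_lit 5) (.split (nat_lit 0xc) (nat_lit 7) (.split (nat_lit 0xc) (nat_lit 8) (.split (nat_lit 0xc) (nat_lit 9) (.split (nat_lit 0xc) (nat_lit 0xa) (.split (nat_lit 0xc) (nat_lit 0xb) (.unj (nat_lit 0x40005) (nat_lit 0x1000000000000000000000000000000010001) (nat_lit 0x1005400) (nat_lit 0x1000000000000000000010002000200000000000000000000)) (.non (nat_lit 1) (nat_lit 5) (nat_lit 0x1455001) (nat_lit 0x1000100000001000100010001000000000000000000000001))) (.non (nat_lit 1) (nat_lit 5) (nat_lit 0x1155001) (nat_lit 0x1000000010001000100010001000000000000000000000001))) (.non (nat_lit 0) (nat_lit 5) (nat_lit 0x1055000) (nat_lit 0x1000000000001000100010001000000000000000000000000))) (.non (nat_lit 0) (nat_lit 5) (nat_lit 0x1015000) (nat_lit 0x1000000000000000100010001000000000000000000000000))) (.non (nat_lit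 0) (nat_lit 5) (nat_lit 0x1005000) (nat_lit 0x1000000000000000000010001000000000000000000000000))) (.non (nat_lit 0) (nat_lit 7) (nat_lit 0x1001400) (nat_lit 0x1000000000000000000000001000100000000000000000000))) (.non (nat_lit 0) (nat_lit 5) (nat_lit 0x2002250) (nat_lit 0x2000000000000000000000001000000030004000200000000))) (.non (nat_lit 0) (nat_lit 5) (nat_lit 0x1000250) (nat_lit 0x1000000000000000000000000000000010002000100000000))) (.non (nat_lit 0) (nat_lit 5) (nat_lit 0x1055014) (nat_lit 0x1000000000001000100010001000000000000000100010000))) (.non (nat_lit 0) (nat_lit 5) (nat_lit 0x1055004) (nat_lit 0x1000000000001000100010001000000000000000000010000))) (.non (nat_lit 1) (nat_lit 5) (nat_lit 0x1540001) (nat_lit 0x1000100010001000000000000000000000000000000000002)))))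

noncomputable def t1538_41 : Tr := (.ex (nat_lit 5) (.split (nat_lit 9) (nat_lit 1) (.split (nat_lit 4) (nat_lit 3) (.split (nat_lit 9) (nat_lit 8) (.split (nat_lit 9) (nat_lit 0) (.split (nat_lit 0xa) (nat_lit 0) (.split (nat_lit 0xb) (nat_lit 0) t1538_39 (.non (nat_lit 1) (nat_lit 5) (nat_lit 0x940001) (nat_lit 0x100010001000000000000000000000000000000000002))) (.non (nat_lit 1) (nat_lit 5) (nat_lit 0x640001) (nat_lit 0x100010001000000000000000000000000000000000002))) (.non (nat_lit 1) (nat_lit 5) (nat_lit 0x580001) (nat_lit 0x100010001000000000000000000000000000000000002))) (.non (nat_lit 0) (nat_lit 5) (nat_lit 0x6a004) (nat_lit 0x4000300020001000000000000000000020000))) (.split (nat_lit 4) (nat_lit 3) (.split (nat_lit 9) (nat_lit 8) (.split (nat_lit 9) (nat_lit 0) (.split (nat_lit 0xa) (nat_lit 0) (.split (nat_lit 0xb) (nat_lit 0) t1538_40 (.non (nat_lit 1) (nat_lit 5) (nat_lit 0x940001) (nat_lit 0x100010001000000000000000000000000000000000002))) (.non (nat_lit 1) (nat_lit 5) (nat_lit 0x640001)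 (nat_lit 0x100010001000000000000000000000000000000000002))) (.non (nat_lit 1) (nat_lit 5) (nat_lit 0x580001) (nat_lit 0x100010001000000000000000000000000000000000002))) (.non (nat_lit 0) (nat_lit 5) (nat_lit 0x6a004) (nat_lit 0x4000300020001000000000000000000020000))) (.non (nat_lit 0) (nat_lit 5) (nat_lit 0x40154) (nat_lit 0x1000000000000000000030004000300020000)))) (.non (nat_lit 0) (nat_lit 5) (nat_lit 0xa8014) (nat_lit 0x3000200010000000000000000000200040000))) (.split (nat_lit 0xc) (nat_lit 0) (.split (nat_lit 0xc) (nat_lit 1) (.split (nat_lit 0xc) (nat_lit 2) (.split (nat_lit 0xc) (nat_lit 3) (.split (nat_lit 0xc) (nat_lit 4) (.split (nat_lit 0xc) (nat_lit 6) (.split (nat_lit 0xc) (nat_lit 7) (.split (nat_lit 0xc) (nat_lit 8) (.split (nat_lit 0xc) (nat_lit 9) (.split (nat_lit 0xc) (nat_lit 0xa) (.split (nat_lit 0xc) (nat_lit 0xb) (.unj (nat_lit 0x40005) (nat_lit 0x1000000000000000000000000000000010001) (nat_lit 0x1005400) (nat_lit 0x1000000000000000000010002000200000000000000000000)) (.non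 (nat_lit 1) (nat_lit 7) (nat_lit 0x1401401) (nat_lit 0x3000200000000000000000003000400000000000000000001))) (.non (nat_lit 1) (nat_lit 7) (nat_lit 0x1101401) (nat_lit 0x3000000020000000000000003000400000000000000000001))) (.non (nat_lit 0) (nat_lit 5) (nat_lit 0x1055054) (nat_lit 0x2000000000004000300020001000000000001000200030000))) (.non (nat_lit 0) (nat_lit 5) (nat_lit 0x1055154) (nat_lit 0x3000000000005000600040002000000010002000300040000))) (.non (nat_lit 1) (nat_lit 5) (nat_lit 0x1555001) (nat_lit 0x1000100010002000200020001000000000000000000000002))) (.non (nat_lit 0) (nat_lit 7) (nat_lit 0x1001400) (nat_lit 0x1000000000000000000000001000100000000000000000000))) (.non (nat_lit 0) (nat_lit 7) (nat_lit 0x1001540) (nat_lit 0x3000000000000000000000003000400020001000000000000))) (.non (nat_lit 0) (nat_lit 7) (nat_lit 0x1001540) (nat_lit 0x3000000000000000000000003000400010002000000000000))) (.non (nat_lit 0) (nat_lit 5) (nat_lit 0x1055154) (nat_lit 0x3000000000004000300020001000000020004000600050000)))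 (.star (nat_lit 0xc) (nat_lit 1) (nat_lit 5))) (.star (nat_lit 0xc) (nat_lit 0) (nat_lit 5))))

noncomputable def t1538_42 : Tr := (.ex (nat_lit 0) (.ex (nat_lit 5) t1538_38 (.split (nat_lit 0xb) (nat_lit 0) (.split (nat_lit 0xb) (nat_lit 1) (.split (nat_lit 0xb) (nat_lit 2) (.split (nat_lit 0xb) (nat_lit 3) (.split (nat_lit 0xb) (nat_lit 4) (.split (nat_lit 0xb) (nat_lit 6) (.split (nat_lit 0xb) (nat_lit 8) (.split (nat_lit 0xb) (nat_lit 9) (.split (nat_lit 0xb) (nat_lit 0xa) (.split (nat_lit 0xb) (nat_lit 7) (.unj (nat_lit 0x40005) (nat_lit 0x1000000000000000000000000000000010001) (nat_lit 0x405400) (nat_lit 0x100000000000000010002000200000000000000000000)) (.unj (nat_lit 0x40005) (nat_lit 0x1000000000000000000000000000000010001) (nat_lit 0x405400) (nat_lit 0x100000000000000010001000100000000000000000000))) (.non (nat_lit 1) (nat_lit 7) (nat_lit 0x501401) (nat_lit 0x300020000000000000003000400000000000000000001))) (.non (nat_lit 0) (nat_lit 5) (nat_lit 0x455054) (nat_lit 0x200000004000300020001000000000001000200030000)))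 (.non (nat_lit 0) (nat_lit 5) (nat_lit 0x455154) (nat_lit 0x300000005000600040002000000010002000300040000))) (.non (nat_lit 0) (nat_lit 7) (nat_lit 0x401400) (nat_lit 0x100000000000000000001000100000000000000000000))) (.non (nat_lit 0) (nat_lit 7) (nat_lit 0x401540) (nat_lit 0x300000000000000000003000400020001000000000000))) (.non (nat_lit 0) (nat_lit 7) (nat_lit 0x401540) (nat_lit 0x300000000000000000003000400010002000000000000))) (.non (nat_lit 0) (nat_lit 5) (nat_lit 0x455154) (nat_lit 0x300000004000300020001000000020004000600050000))) (.star (nat_lit 0xb) (nat_lit 1) (nat_lit 5))) (.star (nat_lit 0xb) (nat_lit 0) (nat_lit 5)))) (.split (nat_lit 0xb) (nat_lit 1) (.split (nat_lit 0xb) (nat_lit 2) (.split (nat_lit 0xb) (nat_lit 3) (.split (nat_lit 0xb) (nat_lit 4) (.split (nat_lit 0xb) (nat_lit 5) (.split (nat_lit 0xb) (nat_lit 6) (.split (nat_lit 0xb) (nat_lit 7) (.split (nat_lit 0xb) (nat_lit 8) (.split (nat_lit 0xb) (nat_lit 9) (.split (nat_lit 0xb) (nat_lit 0xa) (.st (nat_lit 7) (nat_lit 1)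 (nat_lit 5) (nat_lit 0x555001) (nat_lit 0x100010002000200020001000000000000000000000002) (nat_lit 1) (nat_lit 1) t1538_41) (.non (nat_lit 1) (nat_lit 5) (nat_lit 0x500001) (nat_lit 0x100010000000000000000000000000000000000000001))) (.non (nat_lit 0) (nat_lit 5) (nat_lit 0x455054) (nat_lit 0x200000004000300020001000000000001000200030000))) (.non (nat_lit 0) (nat_lit 5) (nat_lit 0x455154) (nat_lit 0x300000005000600040002000000010002000300040000))) (.star (nat_lit 0xb) (nat_lit 0) (nat_lit 7))) (.non (nat_lit 1) (nat_lit 5) (nat_lit 0x455001) (nat_lit 0x100000001000100010001000000000000000000000001))) (.star (nat_lit 0xb) (nat_lit 0) (nat_lit 5))) (.non (nat_lit 1) (nat_lit 5) (nat_lit 0x554141) (nat_lit 0x300020003000200010000000000020001000000000004))) (.non (nat_lit 1) (nat_lit 5) (nat_lit 0x554141) (nat_lit 0x300020003000200010000000000010002000000000004))) (.non (nat_lit 0) (nat_lit 5) (nat_lit 0x455154) (nat_lit 0x300000004000300020001000000020004000600050000))) (.non (nat_lit 0) (nat_lit 5)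 (nat_lit 0x454154) (nat_lit 0x200000003000200010000000000010002000300040000))))

noncomputable def t1538_43 : Tr := (.ex (nat_lit 7) (.split (nat_lit 9) (nat_lit 1) (.split (nat_lit 4) (nat_lit 3) (.split (nat_lit 0xa) (nat_lit 4) (.split (nat_lit 9) (nat_lit 8) (.split (nat_lit 9) (nat_lit 0) (.split (nat_lit 0xa) (nat_lit 0) (.pd (.cons (nat_lit 0) (nat_lit 6) (nat_lit 0) (nat_lit 0x41980532110) (nat_lit 0xf423fa2c28b71aef423f00000f423fb71aea2c289896536ee300000) (.cons (nat_lit 0) (nat_lit 8) (nat_lit 0) (nat_lit 0x41065532110) (nat_lit 0xf423ff423f00000f423fb71ae1f156b71aea2c28989655572c00000) (.cons (nat_lit 0) (nat_lit 9) (nat_lit 0) (nat_lit 0x40765532110) (nat_lit 0xf423f00000f423fb71aea2c2804737b71aea2c2898965927bd00000) (.cons (nat_lit 1) (nat_lit 6) (nat_lit 0) (nat_lit 0x9805a4300) (nat_lit 0x98965a2c28b71aef423f00000f423fa2c28b71aef423f0000036ee3) (.cons (nat_lit 1) (nat_lit 8) (nat_lit 0) (nat_lit 0x655a4300) (nat_lit 0x98965f423f00000f423fb71ae1f156a2c28b71aef423f000005572c) (.cons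 (nat_lit 1) (nat_lit 9) (nat_lit 0) (nat_lit 0x7655a4300) (nat_lit 0x9896500000f423fb71aea2c2804737a2c28b71aef423f00000927bd) .nil)))))) (.leaf (.cons (nat_lit 0x40005) (nat_lit 0x1000000000000000000000000000000010001) (.cons (nat_lit 0x100145) (nat_lit 0x30000000000000000000000020001000000030004) (.cons (nat_lit 0x100015) (nat_lit 0x10000000000000000000000000000000100020002) .nil))) .nil)) (.non (nat_lit 1) (nat_lit 5) (nat_lit 0x250201) (nat_lit 0x20002000100000000000000010000000000000003))) (.non (nat_lit 1) (nat_lit 5) (nat_lit 0x1a8001) (nat_lit 0x20003000200010000000000000000000000000004))) (.non (nat_lit 0) (nat_lit 5) (nat_lit 0x6a004) (nat_lit 0x4000300020001000000000000000000020000))) (.non (nat_lit 1) (nat_lit 5) (nat_lit 0x140281) (nat_lit 0x30001000000000000000000020001000000000002))) (.non (nat_lit 0) (nat_lit 5) (nat_lit 0x200254) (nat_lit 0x10000000000000000000000020003000200010000))) (.non (nat_lit 0) (nat_lit 5) (nat_lit 0xa8014) (nat_lit 0x3000200010000000000000000000200040000)))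 (.split (nat_lit 0xb) (nat_lit 0) (.split (nat_lit 0xb) (nat_lit 1) (.split (nat_lit 0xb) (nat_lit 2) (.split (nat_lit 0xb) (nat_lit 3) (.split (nat_lit 0xb) (nat_lit 4) (.split (nat_lit 0xb) (nat_lit 6) (.split (nat_lit 0xb) (nat_lit 8) (.split (nat_lit 0xb) (nat_lit 9) (.split (nat_lit 0xb) (nat_lit 0xa) (.split (nat_lit 0xb) (nat_lit 5) (.unj (nat_lit 0x100015) (nat_lit 0x10000000000000000000000000000000100020002) (nat_lit 0x415400) (nat_lit 0x100000000000100020002000200000000000000000000)) (.unj (nat_lit 0x40005) (nat_lit 0x1000000000000000000000000000000010001) (nat_lit 0x405400) (nat_lit 0x100000000000000010001000100000000000000000000))) (.non (nat_lit 0) (nat_lit 5) (nat_lit 0x555150) (nat_lit 0x500040002000400060003000000030002000100000000))) (.non (nat_lit 0) (nat_lit 5) (nat_lit 0x454000) (nat_lit 0x100000001000100010000000000000000000000000000))) (.non (nat_lit 0) (nat_lit 5) (nat_lit 0x414000) (nat_lit 0x100000000000100010000000000000000000000000000))) (.non (nat_lit 0) (nat_lit 5)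 (nat_lit 0x405000) (nat_lit 0x100000000000000010001000000000000000000000000))) (.non (nat_lit 0) (nat_lit 5) (nat_lit 0x515140) (nat_lit 0x200010000000100020001000000020001000000000000))) (.non (nat_lit 0) (nat_lit 5) (nat_lit 0x415150) (nat_lit 0x200000000000100020001000000010002000100000000))) (.non (nat_lit 0) (nat_lit 5) (nat_lit 0x555150) (nat_lit 0x500010002000400060003000000020003000400000000))) (.star (nat_lit 0xb) (nat_lit 1) (nat_lit 7))) (.star (nat_lit 0xb) (nat_lit 0) (nat_lit 7))))

noncomputable def t1538_44 : Tr := (.ex (nat_lit 5) (.ex (nat_lit 6) t1538_43 (.split (nat_lit 0xb) (nat_lit 0) (.split (nat_lit 0xb) (nat_lit 1) (.split (nat_lit 0xb) (nat_lit 2) (.split (nat_lit 0xb) (nat_lit 3) (.split (nat_lit 0xb) (nat_lit 4) (.split (nat_lit 0xb) (nat_lit 5) (.split (nat_lit 0xb) (nat_lit 7) (.split (nat_lit 0xb) (nat_lit 8) (.split (nat_lit 0xb) (nat_lit 9) (.split (nat_lit 0xb) (nat_lit 0xa) (.unj (nat_lit 0x40005) (nat_lit 0x1000000000000000000000000000000010001) (nat_lit 0x405400)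 (nat_lit 0x100000000000000010002000200000000000000000000)) (.non (nat_lit 0) (nat_lit 5) (nat_lit 0x555154) (nat_lit 0x100010001000100010001000000010001000100010000))) (.non (nat_lit 0) (nat_lit 5) (nat_lit 0x455000) (nat_lit 0x100000001000100010001000000000000000000000000))) (.non (nat_lit 0) (nat_lit 5) (nat_lit 0x415000) (nat_lit 0x100000000000100010001000000000000000000000000))) (.non (nat_lit 0) (nat_lit 5) (nat_lit 0x405000) (nat_lit 0x100000000000000010001000000000000000000000000))) (.non (nat_lit 0) (nat_lit 7) (nat_lit 0x401400) (nat_lit 0x100000000000000000001000100000000000000000000))) (.non (nat_lit 0) (nat_lit 5) (nat_lit 0x555150) (nat_lit 0x500030001000200030004000000060004000200000000))) (.non (nat_lit 0) (nat_lit 5) (nat_lit 0x555150) (nat_lit 0x500020001000200030004000000040006000300000000))) (.non (nat_lit 0) (nat_lit 5) (nat_lit 0x455014) (nat_lit 0x100000001000100010001000000000000000100010000))) (.non (nat_lit 0) (nat_lit 5) (nat_lit 0x455004) (nat_lit 0x100000001000100010001000000000000000000010000)))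 (.non (nat_lit 1) (nat_lit 5) (nat_lit 0x455001) (nat_lit 0x100000001000100010001000000000000000000000001)))) (.split (nat_lit 0xb) (nat_lit 0) (.split (nat_lit 0xb) (nat_lit 1) (.split (nat_lit 0xb) (nat_lit 2) (.split (nat_lit 0xb) (nat_lit 3) (.split (nat_lit 0xb) (nat_lit 4) (.split (nat_lit 0xb) (nat_lit 6) (.split (nat_lit 0xb) (nat_lit 8) (.split (nat_lit 0xb) (nat_lit 9) (.split (nat_lit 0xb) (nat_lit 0xa) (.split (nat_lit 0xb) (nat_lit 7) (.unj (nat_lit 0x40005) (nat_lit 0x1000000000000000000000000000000010001) (nat_lit 0x405400) (nat_lit 0x100000000000000010002000200000000000000000000)) (.unj (nat_lit 0x40005) (nat_lit 0x1000000000000000000000000000000010001) (nat_lit 0x405400) (nat_lit 0x100000000000000010001000100000000000000000000))) (.non (nat_lit 0) (nat_lit 7) (nat_lit 0x501500) (nat_lit 0x300020000000000000003000400010000000000000000))) (.non (nat_lit 0) (nat_lit 5) (nat_lit 0x455054) (nat_lit 0x200000004000300020001000000000001000200030000))) (.non (nat_lit 0) (nat_lit 5) (nat_lit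 0x455154) (nat_lit 0x300000005000600040002000000010002000300040000))) (.non (nat_lit 0) (nat_lit 7) (nat_lit 0x401400) (nat_lit 0x100000000000000000001000100000000000000000000))) (.non (nat_lit 0) (nat_lit 7) (nat_lit 0x501500) (nat_lit 0x300010000000000000003000400020000000000000000))) (.non (nat_lit 0) (nat_lit 5) (nat_lit 0x554154) (nat_lit 0x300020003000200010000000000040006000500040000))) (.non (nat_lit 0) (nat_lit 5) (nat_lit 0x550154) (nat_lit 0x200010002000100000000000000020003000400030000))) (.star (nat_lit 0xb) (nat_lit 1) (nat_lit 5))) (.star (nat_lit 0xb) (nat_lit 0) (nat_lit 5))))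

noncomputable def t1538_45 : Tr := (.split (nat_lit 9) (nat_lit 1) (.ex (nat_lit 0) t1538_24 (.split (nat_lit 0xa) (nat_lit 5) (.split (nat_lit 0xa) (nat_lit 6) (.split (nat_lit 0xa) (nat_lit 7) (.split (nat_lit 0xa) (nat_lit 8) (.split (nat_lit 0xa) (nat_lit 9) t1538_25 (.non (nat_lit 1) (nat_lit 5) (nat_lit 0x140001) (nat_lit 0x10001000000000000000000000000000000000001))) (.non (nat_lit 1) (nat_lit 5) (nat_lit 0x150001) (nat_lit 0x10001000100000000000000000000000000000001))) (.star (nat_lit 0xa) (nat_lit 0) (nat_lit 7))) (.non (nat_lit 1) (nat_lit 5) (nat_lit 0x155001) (nat_lit 0x10001000100010001000000000000000000000001))) (.star (nat_lit 0xa) (nat_lit 0) (nat_lit 5)))) (.st (nat_lit 1) (nat_lit 0) (nat_lit 5) (nat_lit 0x54154) (nat_lit 0x3000200010000000000010002000300040000) (nat_lit 1) (nat_lit 2) (.st (nat_lit 2) (nat_lit 0) (nat_lit 5) (nat_lit 0x55154) (nat_lit 0x4000300020001000000020004000600050000) (nat_lit 1) (nat_lit 3) (.st (nat_lit 8) (nat_lit 0) (nat_lit 5) (nat_lit 0x55154) (nat_lit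 0x5000600040002000000010002000300040000) (nat_lit 1) (nat_lit 3) (.st (nat_lit 9) (nat_lit 0) (nat_lit 5) (nat_lit 0x55054) (nat_lit 0x4000300020001000000000001000200030000) (nat_lit 1) (nat_lit 2) (.ex (nat_lit 0) t1538_32 (.split (nat_lit 0xa) (nat_lit 1) (.split (nat_lit 0xa) (nat_lit 2) (.split (nat_lit 0xa) (nat_lit 5) (.split (nat_lit 0xa) (nat_lit 6) (.split (nat_lit 0xa) (nat_lit 7) (.split (nat_lit 0xa) (nat_lit 8) (.split (nat_lit 0xa) (nat_lit 9) (.split (nat_lit 0xa) (nat_lit 3) (.split (nat_lit 0xa) (nat_lit 4) t1538_42 t1538_44) (.split (nat_lit 0xa) (nat_lit 4) (.split (nat_lit 0xa) (nat_lit 0) (.split (nat_lit 0xa) (nat_lit 3) (.split (nat_lit 9) (nat_lit 0) (.split (nat_lit 9) (nat_lit 1) (.sup (nat_lit 0x3000d00160020001a00000000000000000000) (nat_lit 0x50000000000000000000000030006000500030003)) (.non (nat_lit 0) (nat_lit 5) (nat_lit 0xa8014) (nat_lit 0x3000200010000000000000000000200040000))) (.non (nat_lit 1) (nat_lit 5) (nat_lit 0x1a8001) (nat_lit 0x20003000200010000000000000000000000000004)))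 (.non (nat_lit 0) (nat_lit 5) (nat_lit 0x200150) (nat_lit 0x10000000000000000000000010002000100000000))) (.non (nat_lit 1) (nat_lit 5) (nat_lit 0x250081) (nat_lit 0x20002000100000000000000000001000000000003))) (.non (nat_lit 0) (nat_lit 5) (nat_lit 0x100140) (nat_lit 0x10000000000000000000000010001000000000000)))) (.non (nat_lit 0) (nat_lit 5) (nat_lit 0x155054) (nat_lit 0x20004000300020001000000000001000200030000))) (.non (nat_lit 0) (nat_lit 5) (nat_lit 0x155154) (nat_lit 0x30005000600040002000000010002000300040000))) (.star (nat_lit 0xa) (nat_lit 0) (nat_lit 7))) (.non (nat_lit 1) (nat_lit 5) (nat_lit 0x155001) (nat_lit 0x10001000100010001000000000000000000000001))) (.star (nat_lit 0xa) (nat_lit 0) (nat_lit 5))) (.non (nat_lit 0) (nat_lit 5) (nat_lit 0x155154) (nat_lit 0x30004000300020001000000020004000600050000))) (.non (nat_lit 0) (nat_lit 5) (nat_lit 0x154154) (nat_lit 0x20003000200010000000000010002000300040000)))))))))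

noncomputable def t1538 : Tr := (.split (nat_lit 8) (nat_lit 2) (.split (nat_lit 8) (nat_lit 3) (.split (nat_lit 7) (nat_lit 3) (.split (nat_lit 6) (nat_lit 2) (.split (nat_lit 6) (nat_lit 3) (.split (nat_lit 6) (nat_lit 4) (.split (nat_lit 5) (nat_lit 3) (.split (nat_lit 5) (nat_lit 4) (.split (nat_lit 9) (nat_lit 0) t1538_16 (.split (nat_lit 9) (nat_lit 2) (.split (nat_lit 9) (nat_lit 3) (.split (nat_lit 9) (nat_lit 4) (.split (nat_lit 8) (nat_lit 4) (.split (nat_lit 7) (nat_lit 4) t1538_45 (.non (nat_lit 1) (nat_lit 5) (nat_lit 0x55151) (nat_lit 0x2000300040002000000030002000100000001))) (.non (nat_lit 1) (nat_lit 5) (nat_lit 0x55141) (nat_lit 0x2000300020001000000020001000000000001))) (.non (nat_lit 1) (nat_lit 5) (nat_lit 0x55151) (nat_lit 0x4000300020001000000030002000100000002))) (.non (nat_lit 1) (nat_lit 5) (nat_lit 0x50151) (nat_lit 0x2000100000000000000010002000100000001))) (.non (nat_lit 1) (nat_lit 5) (nat_lit 0x55151) (nat_lit 0x4000300020001000000010002000300000002)))) (.non (nat_lit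 0) (nat_lit 7) (nat_lit 0x1550) (nat_lit 0x3000400030002000100000000))) (.non (nat_lit 0) (nat_lit 7) (nat_lit 0x1550) (nat_lit 0x2000200010002000100000000))) (.non (nat_lit 0) (nat_lit 7) (nat_lit 0x1550) (nat_lit 0x4000300030002000100000000))) (.non (nat_lit 0) (nat_lit 7) (nat_lit 0x1550) (nat_lit 0x2000200010002000100000000))) (.non (nat_lit 0) (nat_lit 7) (nat_lit 0x1550) (nat_lit 0x4000300010002000300000000))) (.non (nat_lit 0) (nat_lit 5) (nat_lit 0x15150) (nat_lit 0x100020001000000010002000100000000))) (.non (nat_lit 0) (nat_lit 5) (nat_lit 0x54150) (nat_lit 0x1000200010000000000010002000100000000))) (.non (nat_lit 0) (nat_lit 5) (nat_lit 0x54054) (nat_lit 0x1000200010000000000000001000200010000)))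

noncomputable def t1539_1 : Tr := (.ex (nat_lit 0) (.pd (.cons (nat_lit 2) (nat_lit 5) (nat_lit 0) (nat_lit 0x8487033000) (nat_lit 0xf423f65b97b71aef423f0000061a795b8cc00000f423f54591) (.cons (nat_lit 2) (nat_lit 6) (nat_lit 0) (nat_lit 0x8480533000) (nat_lit 0xf423f7a11df423f00000f423f7a11b7a11900000f423f54591) (.cons (nat_lit 2) (nat_lit 7) (nat_lit 0) (nat_lit 0x8405533000) (nat_lit 0xf423fb71ae00000f423f54591a2c289896500000f423f54591) (.cons (nat_lit 2) (nat_lit 8) (nat_lit 0) (nat_lit 0x9065533000) (nat_lit 0xf423f00000f423fb71ae1f156f423fb71ae00000f423f54591) (.cons (nat_lit 3) (nat_lit 5) (nat_lit 0) (nat_lit 0x8487040100) (nat_lit 0xf423f65b97b71aef423f0000061a7900000f423fb71ae1f156) (.cons (nat_lit 3) (nat_lit 6) (nat_lit 0) (nat_lit 0x8480540100) (nat_lit 0xf423f7a11df423f00000f423f7a11b00000f423fb71ae1f156) (.cons (nat_lit 3) (nat_lit 7) (nat_lit 0) (nat_lit 0x8405540100) (nat_lit 0xf423fb71ae00000f423f54591a2c2800000f423fb71ae1f156) (.cons (nat_lit 3) (nat_lit 8) (nat_lit 0) (nat_lit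 0x9065540100) (nat_lit 0xf423f00000f423fb71ae1f156f423f00000f423fb71ae1f156) (.cons (nat_lit 4) (nat_lit 5) (nat_lit 0) (nat_lit 0x8766002100) (nat_lit 0xf423fb71aea2c28989650000000000f423fb71aea2c2804737) (.cons (nat_lit 4) (nat_lit 6) (nat_lit 0) (nat_lit 0x8770502100) (nat_lit 0xf423fb71aea2c2800000f423f00000f423fb71aea2c2804737) (.cons (nat_lit 4) (nat_lit 7) (nat_lit 0) (nat_lit 0x8805502100) (nat_lit 0xf423fb71ae00000f423f5459100000f423fb71aea2c2804737) (.cons (nat_lit 4) (nat_lit 8) (nat_lit 0) (nat_lit 0x9065502100) (nat_lit 0xf423f00000f423fb71ae1f15600000f423fb71aea2c2804737) (.cons (nat_lit 4) (nat_lit 9) (nat_lit 0) (nat_lit 0x765502100) (nat_lit 0xf423fb71aea2c280473700000f423fb71aea2c2804737) .nil))))))))))))) (.l31 (nat_lit 0x4321098765))) (.split (nat_lit 0xa) (nat_lit 1) (.split (nat_lit 0xa) (nat_lit 2) (.split (nat_lit 0xa) (nat_lit 3) (.split (nat_lit 0xa) (nat_lit 4) (.split (nat_lit 0xa) (nat_lit 5) (.split (nat_lit 0xa) (nat_lit 6) (.split (nat_lit 0xa) (nat_lit 7) (.split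 (nat_lit 0xa) (nat_lit 8) (.split (nat_lit 0xa) (nat_lit 9) (.unj (nat_lit 0x100015) (nat_lit 0x10000000000000000000000000000000100020002) (nat_lit 0x15500) (nat_lit 0x200030004000300010000000000000000)) (.non (nat_lit 0) (nat_lit 5) (nat_lit 0x155140) (nat_lit 0x10002000300020001000000020001000000000000))) (.star (nat_lit 0xa) (nat_lit 0) (nat_lit 8))) (.non (nat_lit 0) (nat_lit 5) (nat_lit 0x155100) (nat_lit 0x10001000200020001000000010000000000000000))) (.non (nat_lit 0) (nat_lit 5) (nat_lit 0x155150) (nat_lit 0x10002000400030002000000030002000100000000))) (.star (nat_lit 0xa) (nat_lit 0) (nat_lit 5))) (.non (nat_lit 0) (nat_lit 5) (nat_lit 0x154140) (nat_lit 0x10001000200010000000000020001000000000000))) (.non (nat_lit 0) (nat_lit 5) (nat_lit 0x154150) (nat_lit 0x10001000200010000000000020002000100000000))) (.non (nat_lit 0) (nat_lit 5) (nat_lit 0x154154) (nat_lit 0x10001000200010000000000020002000200010000))) (.non (nat_lit 0) (nat_lit 5) (nat_lit 0x155154) (nat_lit 0x10003000600040002000000050004000300020000))))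

noncomputable def t1539_2 : Tr := (.ex (nat_lit 0) (.pd (.cons (nat_lit 2) (nat_lit 5) (nat_lit 0) (nat_lit 0x3987033000) (nat_lit 0x98965a2c28b71aef423f00000f423f5572c00000f423f54591) (.cons (nat_lit 2) (nat_lit 6) (nat_lit 0) (nat_lit 0x3980533000) (nat_lit 0xa2c28b71aef423f00000f423ff423f5b8d400000f423f54591) (.cons (nat_lit 2) (nat_lit 7) (nat_lit 0) (nat_lit 0x3905533000) (nat_lit 0xb71aef423f00000f423f54591f423f65b9700000f423f54591) (.cons (nat_lit 2) (nat_lit 8) (nat_lit 0) (nat_lit 0x3065533000) (nat_lit 0xf423f00000f423fb71ae1f156f423f7a11d00000f423f54591) (.cons (nat_lit 2) (nat_lit 9) (nat_lit 0) (nat_lit 0x765533000) (nat_lit 0xf423fb71aea2c2804737f423fb71ae00000f423f54591) (.cons (nat_lit 3) (nat_lit 5) (nat_lit 0) (nat_lit 0x8766040100) (nat_lit 0xf423fb71aea2c289896500000f423f00000f423fb71ae1f156) (.cons (nat_lit 3) (nat_lit 6) (nat_lit 0) (nat_lit 0x8770540100) (nat_lit 0xf423fb71aea2c2800000f423ff423f00000f423fb71ae1f156) (.cons (nat_lit 3) (nat_lit 7) (nat_lit 0) (nat_lit 0x8805540100)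 (nat_lit 0xf423fb71ae00000f423f54591f423f00000f423fb71ae1f156) (.cons (nat_lit 3) (nat_lit 8) (nat_lit 0) (nat_lit 0x9065540100) (nat_lit 0xf423f00000f423fb71ae1f156f423f00000f423fb71ae1f156) (.cons (nat_lit 3) (nat_lit 9) (nat_lit 0) (nat_lit 0x765540100) (nat_lit 0xf423fb71aea2c2804737f423f00000f423fb71ae1f156) (.cons (nat_lit 4) (nat_lit 9) (nat_lit 0) (nat_lit 0x765502100) (nat_lit 0xf423fb71aea2c280473700000f423fb71aea2c2804737) .nil))))))))))) (.l31 (nat_lit 0x9876543210))) (.split (nat_lit 0xa) (nat_lit 1) (.split (nat_lit 0xa) (nat_lit 2) (.split (nat_lit 0xa) (nat_lit 3) (.split (nat_lit 0xa) (nat_lit 4) (.split (nat_lit 0xa) (nat_lit 5) (.split (nat_lit 0xa) (nat_lit 6) (.split (nat_lit 0xa) (nat_lit 7) (.split (nat_lit 0xa) (nat_lit 8) (.split (nat_lit 0xa) (nat_lit 9) (.unj (nat_lit 0x100015) (nat_lit 0x10000000000000000000000000000000100020002) (nat_lit 0x55400) (nat_lit 0x1000200030004000300000000000000000000)) (.non (nat_lit 0) (nat_lit 5) (nat_lit 0x150150) (nat_lit 0x10002000100000000000000010002000100000000)))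 (.star (nat_lit 0xa) (nat_lit 0) (nat_lit 8))) (.non (nat_lit 0) (nat_lit 5) (nat_lit 0x155150) (nat_lit 0x10002000200020001000000010002000100000000))) (.non (nat_lit 0) (nat_lit 5) (nat_lit 0x155154) (nat_lit 0x10005000400030002000000030006000400020000))) (.star (nat_lit 0xa) (nat_lit 0) (nat_lit 5))) (.non (nat_lit 0) (nat_lit 5) (nat_lit 0x150154) (nat_lit 0x10002000100000000000000020003000200010000))) (.non (nat_lit 0) (nat_lit 5) (nat_lit 0x140150) (nat_lit 0x10001000000000000000000010002000100000000))) (.non (nat_lit 0) (nat_lit 5) (nat_lit 0x140154) (nat_lit 0x10001000000000000000000010002000200010000))) (.non (nat_lit 0) (nat_lit 5) (nat_lit 0x154154) (nat_lit 0x10003000200010000000000020004000300020000))))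

noncomputable def t1539_3 : Tr := (.split (nat_lit 9) (nat_lit 3) (.split (nat_lit 9) (nat_lit 4) (.split (nat_lit 8) (nat_lit 4) .uj (.st (nat_lit 1) (nat_lit 0) (nat_lit 5) (nat_lit 0x55154) (nat_lit 0x3000600040002000000050004000300020000) (nat_lit 1) (nat_lit 1) (.st (nat_lit 2) (nat_lit 0) (nat_lit 5) (nat_lit 0x54154) (nat_lit 0x1000200010000000000020002000200010000) (nat_lit 1) (nat_lit 1) (.st (nat_lit 3) (nat_lit 0) (nat_lit 5) (nat_lit 0x54150) (nat_lit 0x1000200010000000000020002000100000000) (nat_lit 1) (nat_lit 1) (.st (nat_lit 4) (nat_lit 0) (nat_lit 5) (nat_lit 0x54140) (nat_lit 0x1000200010000000000020001000000000000) (nat_lit 1) (nat_lit 1) (.st (nat_lit 7) (nat_lit 0) (nat_lit 5) (nat_lit 0x55100) (nat_lit 0x1000200020001000000010000000000000000) (nat_lit 1) (nat_lit 1) (.st (nat_lit 8) (nat_lit 0) (nat_lit 5) (nat_lit 0x54100) (nat_lit 0x1000200010000000000010000000000000000) (nat_lit 1) (nat_lit 1) (.st (nat_lit 9) (nat_lit 0) (nat_lit 5) (nat_lit 0x55140) (nat_lit 0x2000300020001000000020001000000000000)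 (nat_lit 1) (nat_lit 1) (.split (nat_lit 4) (nat_lit 3) (.split (nat_lit 8) (nat_lit 4) (.split (nat_lit 9) (nat_lit 8) (.pd (.cons (nat_lit 0) (nat_lit 6) (nat_lit 0) (nat_lit 0x8480532110) (nat_lit 0xf423f7a11df423f00000f423f7a11b7a1197a1177a11500000) (.cons (nat_lit 0) (nat_lit 7) (nat_lit 0) (nat_lit 0x8405532110) (nat_lit 0xf423fb71ae00000f423f54591a2c2898965927bd8e6a200000) (.cons (nat_lit 1) (nat_lit 6) (nat_lit 0) (nat_lit 0x8480532200) (nat_lit 0xf423f7a11df423f00000f423f7a11b7a1197a11700000f423f) (.cons (nat_lit 1) (nat_lit 7) (nat_lit 0) (nat_lit 0x8405532200) (nat_lit 0xf423fb71ae00000f423f54591a2c2898965927bd00000f423f) .nil)))) t1539_1) (.non (nat_lit 0) (nat_lit 5) (nat_lit 0x94100) (nat_lit 0x1000200010000000000010000000000000000))) (.non (nat_lit 0) (nat_lit 5) (nat_lit 0xa8100) (nat_lit 0x1000200010000000000020000000000000000))) (.non (nat_lit 0) (nat_lit 5) (nat_lit 0xa8240) (nat_lit 0x1000200010000000000020002000000000000))))))))))) (.split (nat_lit 8) (nat_lit 4) (.sup (nat_lit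 0x100040007000a0008) (nat_lit 0x100040007000a000800000000000000000000)) (.non (nat_lit 0) (nat_lit 5) (nat_lit 0x50100) (nat_lit 0x1000100000000000000010000000000000000)))) (.split (nat_lit 9) (nat_lit 4) (.split (nat_lit 8) (nat_lit 4) (.st (nat_lit 1) (nat_lit 0) (nat_lit 5) (nat_lit 0x54154) (nat_lit 0x3000200010000000000020004000300020000) (nat_lit 1) (nat_lit 1) (.st (nat_lit 2) (nat_lit 0) (nat_lit 5) (nat_lit 0x40154) (nat_lit 0x1000000000000000000010002000200010000) (nat_lit 1) (nat_lit 1) (.st (nat_lit 3) (nat_lit 0) (nat_lit 5) (nat_lit 0x40150) (nat_lit 0x1000000000000000000010002000100000000) (nat_lit 1) (nat_lit 1) (.st (nat_lit 7) (nat_lit 0) (nat_lit 5) (nat_lit 0x55150) (nat_lit 0x2000200020001000000010002000100000000) (nat_lit 1) (nat_lit 1) (.st (nat_lit 8) (nat_lit 0) (nat_lit 5) (nat_lit 0x54150) (nat_lit 0x2000200010000000000010002000100000000) (nat_lit 1) (nat_lit 1) (.split (nat_lit 4) (nat_lit 3) (.pd (.cons (nat_lit 0) (nat_lit 9) (nat_lit 0) (nat_lit 0x765532110) (nat_lit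 0xf423fb71aea2c2804737f423fb71aea2c289896500000) (.cons (nat_lit 1) (nat_lit 9) (nat_lit 0) (nat_lit 0x765532200) (nat_lit 0xf423fb71aea2c2804737f423fb71aea2c2800000f423f) .nil)) (.st (nat_lit 9) (nat_lit 0) (nat_lit 5) (nat_lit 0x50150) (nat_lit 0x2000100000000000000010002000100000000) (nat_lit 1) (nat_lit 1) (.split (nat_lit 9) (nat_lit 3) (.split (nat_lit 9) (nat_lit 8) (.pd (.cons (nat_lit 0) (nat_lit 6) (nat_lit 0) (nat_lit 0x3980532110) (nat_lit 0xa2c28b71aef423f00000f423ff423f5b8d45160d3d07c00000) (.cons (nat_lit 0) (nat_lit 7) (nat_lit 0) (nat_lit 0x3905532110) (nat_lit 0xb71aef423f00000f423f54591f423f65b9761a795b8cc00000) (.cons (nat_lit 1) (nat_lit 6) (nat_lit 0) (nat_lit 0x3980532200) (nat_lit 0xa2c28b71aef423f00000f423ff423f5b8d45160d00000f423f) (.cons (nat_lit 1) (nat_lit 7) (nat_lit 0) (nat_lit 0x3905532200) (nat_lit 0xb71aef423f00000f423f54591f423f65b9761a7900000f423f) .nil)))) (.st (nat_lit 4) (nat_lit 0) (nat_lit 5) (nat_lit 0x50154) (nat_lit 0x2000100000000000000020003000200010000)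 (nat_lit 1) (nat_lit 1) t1539_2)) (.non (nat_lit 0) (nat_lit 5) (nat_lit 0x6a040) (nat_lit 0x4000300020001000000000002000000000000))) (.non (nat_lit 0) (nat_lit 5) (nat_lit 0xa8140) (nat_lit 0x3000200010000000000020004000000000000))))) (.non (nat_lit 0) (nat_lit 5) (nat_lit 0x40250) (nat_lit 0x1000000000000000000010002000100000000)))))))) (.non (nat_lit 0) (nat_lit 5) (nat_lit 0x50140) (nat_lit 0x1000100000000000000010001000000000000))) (.non (nat_lit 0) (nat_lit 5) (nat_lit 0x40140) (nat_lit 0x1000000000000000000010001000000000000))))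

noncomputable def t1539_4 : Tr := (.ex (nat_lit 0) (.pd (.cons (nat_lit 2) (nat_lit 5) (nat_lit 0) (nat_lit 0x8766033000) (nat_lit 0xf423fb71aea2c289896500000f423fb71ae00000f423f54591) (.cons (nat_lit 2) (nat_lit 6) (nat_lit 0) (nat_lit 0x8770533000) (nat_lit 0xf423fb71aea2c2800000f423ff423fb71ae00000f423f54591) (.cons (nat_lit 2) (nat_lit 7) (nat_lit 0) (nat_lit 0x8805533000) (nat_lit 0xf423fb71ae00000f423f54591f423fb71ae00000f423f54591) (.cons (nat_lit 2) (nat_lit 8) (nat_lit 0) (nat_lit 0x9065533000) (nat_lit 0xf423f00000f423fb71ae1f156f423fb71ae00000f423f54591) (.cons (nat_lit 2) (nat_lit 9) (nat_lit 0) (nat_lit 0x765533000) (nat_lit 0xf423fb71aea2c2804737f423fb71ae00000f423f54591) (.cons (nat_lit 3) (nat_lit 8) (nat_lit 0) (nat_lit 0x2065540100) (nat_lit 0xf423f00000f423fb71ae1f156f423f00000b71aea2c2804737) (.cons (nat_lit 3) (nat_lit 9) (nat_lit 0) (nat_lit 0x765540100) (nat_lit 0xf423fb71aea2c2804737f423f00000f423fb71ae1f156) (.cons (nat_lit 4) (nat_lit 9) (nat_lit 0) (nat_lit 0x765502100)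 (nat_lit 0xf423fb71aea2c280473700000f423fb71aea2c2804737) .nil)))))))) (.leaf (.cons (nat_lit 0x50015) (nat_lit 0x2000100000000000000000000000300040003) (.cons (nat_lit 0x40055) (nat_lit 0x1000000000000000000000001000200020002) .nil)) (.cons (nat_lit 0x1111011110) (nat_lit 0x100001) (nat_lit 0xe) (nat_lit 0x4567032010) (.cons (nat_lit 0x1110011110) (nat_lit 0x1000001) (nat_lit 0xd) (nat_lit 0x4560032010) (.cons (nat_lit 0x1100011110) (nat_lit 0x10000001) (nat_lit 0xc) (nat_lit 0x4500032010) (.cons (nat_lit 0x1000011110) (nat_lit 0x100000001) (nat_lit 8) (nat_lit 0x2000043010) (.cons (nat_lit 0x1111011100) (nat_lit 0x100010) (nat_lit 5) (nat_lit 0x3456001200) (.cons (nat_lit 0x1110011100) (nat_lit 0x1000010) (nat_lit 4) (nat_lit 0x3450001200) (.cons (nat_lit 0x1100011100) (nat_lit 0x10000010) (nat_lit 3) (nat_lit 0x3400001200) (.cons (nat_lit 0x1000000111) (nat_lit 0x100001000) (nat_lit 0x10) (nat_lit 0x3000000210) .nil)))))))))) (.split (nat_lit 0xa) (nat_lit 1) (.split (nat_lit 0xa) (nat_lit 2)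 (.split (nat_lit 0xa) (nat_lit 3) (.split (nat_lit 0xa) (nat_lit 4) (.split (nat_lit 0xa) (nat_lit 5) (.split (nat_lit 0xa) (nat_lit 6) (.split (nat_lit 0xa) (nat_lit 7) (.split (nat_lit 0xa) (nat_lit 8) (.split (nat_lit 0xa) (nat_lit 9) (.sup (nat_lit 0x5000000000000000000000000000000020009000a) (nat_lit 0x100040007000a000800000000000000000000)) (.non (nat_lit 0) (nat_lit 5) (nat_lit 0x155150) (nat_lit 0x20004000300020001000000010002000300000000))) (.star (nat_lit 0xa) (nat_lit 0) (nat_lit 8))) (.non (nat_lit 0) (nat_lit 5) (nat_lit 0x155054) (nat_lit 0x10002000200020001000000000001000200010000))) (.non (nat_lit 0) (nat_lit 5) (nat_lit 0x155154) (nat_lit 0x10005000400030002000000020004000600030000))) (.star (nat_lit 0xa) (nat_lit 0) (nat_lit 5))) (.non (nat_lit 0) (nat_lit 5) (nat_lit 0x154154) (nat_lit 0x10003000200010000000000020003000400020000))) (.non (nat_lit 0) (nat_lit 5) (nat_lit 0x140154) (nat_lit 0x10001000000000000000000010002000200010000))) (.non (nat_lit 0) (nat_lit 5) (nat_lit 0x140054)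 (nat_lit 0x10001000000000000000000000001000200010000))) (.non (nat_lit 0) (nat_lit 5) (nat_lit 0x150154) (nat_lit 0x10002000100000000000000010002000300020000))))

noncomputable def t1539_5 : Tr := (.split (nat_lit 9) (nat_lit 3) (.split (nat_lit 9) (nat_lit 4) (.split (nat_lit 8) (nat_lit 4) (.st (nat_lit 1) (nat_lit 0) (nat_lit 5) (nat_lit 0x50154) (nat_lit 0x2000100000000000000010002000300020000) (nat_lit 1) (nat_lit 1) (.st (nat_lit 2) (nat_lit 0) (nat_lit 5) (nat_lit 0x40054) (nat_lit 0x1000000000000000000000001000200010000) (nat_lit 1) (nat_lit 1) (.st (nat_lit 3) (nat_lit 0) (nat_lit 5) (nat_lit 0x40154) (nat_lit 0x1000000000000000000010002000200010000) (nat_lit 1) (nat_lit 1) (.st (nat_lit 7) (nat_lit 0) (nat_lit 5) (nat_lit 0x55054) (nat_lit 0x2000200020001000000000001000200010000) (nat_lit 1) (nat_lit 1) (.st (nat_lit 8) (nat_lit 0) (nat_lit 5) (nat_lit 0x54054) (nat_lit 0x2000200010000000000000001000200010000) (nat_lit 1) (nat_lit 1) (.split (nat_lit 4) (nat_lit 3) (.pd (.cons (nat_lit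 0) (nat_lit 9) (nat_lit 0) (nat_lit 0x765532110) (nat_lit 0xf423fb71aea2c2804737f423fb71aea2c289896500000) (.cons (nat_lit 1) (nat_lit 9) (nat_lit 0) (nat_lit 0x765532200) (nat_lit 0xf423fb71aea2c2804737f423fb71aea2c2800000f423f) .nil)) (.st (nat_lit 9) (nat_lit 0) (nat_lit 5) (nat_lit 0x55150) (nat_lit 0x4000300020001000000010002000300000000) (nat_lit 1) (nat_lit 2) (.split (nat_lit 9) (nat_lit 2) (.split (nat_lit 9) (nat_lit 8) (.pd (.cons (nat_lit 0) (nat_lit 6) (nat_lit 0) (nat_lit 0x2980532110) (nat_lit 0xa2c28b71aef423f00000f423ff423fb71ae4734e22dfa00000) (.cons (nat_lit 0) (nat_lit 7) (nat_lit 0) (nat_lit 0x2905532110) (nat_lit 0xb71aef423f00000f423f54591f423fb71ae516113d08500000) (.cons (nat_lit 1) (nat_lit 6) (nat_lit 0) (nat_lit 0x2980532200) (nat_lit 0xa2c28b71aef423f00000f423ff423fb71ae4734e00000f423f) (.cons (nat_lit 1) (nat_lit 7) (nat_lit 0) (nat_lit 0x2905532200) (nat_lit 0xb71aef423f00000f423f54591f423fb71ae5161100000f423f) .nil)))) (.st (nat_lit 4) (nat_lit 0) (nat_lit 5) (nat_lit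 0x54154) (nat_lit 0x3000200010000000000020003000400020000) (nat_lit 1) (nat_lit 1) t1539_4)) (.non (nat_lit 0) (nat_lit 5) (nat_lit 0x6a010) (nat_lit 0x4000300020001000000000000000200000000))) (.non (nat_lit 0) (nat_lit 5) (nat_lit 0xa8050) (nat_lit 0x3000200010000000000000002000400000000))))) (.non (nat_lit 0) (nat_lit 5) (nat_lit 0x40254) (nat_lit 0x1000000000000000000010002000200010000)))))))) (.non (nat_lit 0) (nat_lit 5) (nat_lit 0x50150) (nat_lit 0x1000100000000000000010001000100000000))) (.non (nat_lit 0) (nat_lit 5) (nat_lit 0x40150) (nat_lit 0x1000000000000000000010001000100000000))) (.non (nat_lit 0) (nat_lit 5) (nat_lit 0x40050) (nat_lit 0x1000000000000000000000001000100000000)))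

noncomputable def t1539 : Tr := (.split (nat_lit 8) (nat_lit 3) (.split (nat_lit 7) (nat_lit 2) (.split (nat_lit 7) (nat_lit 3) (.split (nat_lit 7) (nat_lit 4) (.split (nat_lit 9) (nat_lit 2) t1539_3 t1539_5) (.non (nat_lit 0) (nat_lit 8) (nat_lit 0x5540) (nat_lit 0x30004000300020001000000000000))) (.non (nat_lit 0) (nat_lit 5) (nat_lit 0x15150) (nat_lit 0x100020001000000010002000100000000))) (.non (nat_lit 0) (nat_lit 5) (nat_lit 0x15054) (nat_lit 0x100020001000000000001000200010000))) (.non (nat_lit 0) (nat_lit 5) (nat_lit 0x54150) (nat_lit 0x1000200010000000000010002000100000000)))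

noncomputable def t1540_1 : Tr := (.ex (nat_lit 0) (.pd (.cons (nat_lit 2) (nat_lit 5) (nat_lit 0) (nat_lit 0x3987033000) (nat_lit 0x98965a2c28b71aef423f00000f423f5572c00000f423f54591) (.cons (nat_lit 2) (nat_lit 6) (nat_lit 0) (nat_lit 0x3980533000) (nat_lit 0xa2c28b71aef423f00000f423ff423f5b8d400000f423f54591) (.cons (nat_lit 2) (nat_lit 7) (nat_lit 0) (nat_lit 0x3905533000) (nat_lit 0xb71aef423f00000f423f54591f423f65b9700000f423f54591) (.cons (nat_lit 2) (nat_lit 8) (nat_lit 0) (nat_lit 0x3065533000) (nat_lit 0xf423f00000f423fb71ae1f156f423f7a11d00000f423f54591) (.cons (nat_lit 2) (nat_lit 9) (nat_lit 0) (nat_lit 0x765533000) (nat_lit 0xf423fb71aea2c2804737f423fb71ae00000f423f54591) (.cons (nat_lit 3) (nat_lit 5) (nat_lit 0) (nat_lit 0x8766040100) (nat_lit 0xf423fb71aea2c289896500000f423f00000f423fb71ae1f156) (.cons (nat_lit 3) (nat_lit 6) (nat_lit 0) (nat_lit 0x8770540100) (nat_lit 0xf423fb71aea2c2800000f423ff423f00000f423fb71ae1f156) (.cons (nat_lit 3) (nat_lit 7) (nat_lit 0) (nat_lit 0x8805540100)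 (nat_lit 0xf423fb71ae00000f423f54591f423f00000f423fb71ae1f156) (.cons (nat_lit 3) (nat_lit 8) (nat_lit 0) (nat_lit 0x9065540100) (nat_lit 0xf423f00000f423fb71ae1f156f423f00000f423fb71ae1f156) (.cons (nat_lit 3) (nat_lit 9) (nat_lit 0) (nat_lit 0x765540100) (nat_lit 0xf423fb71aea2c2804737f423f00000f423fb71ae1f156) (.cons (nat_lit 4) (nat_lit 9) (nat_lit 0) (nat_lit 0x765502100) (nat_lit 0xf423fb71aea2c280473700000f423fb71aea2c2804737) .nil))))))))))) (.l31 (nat_lit 0x9876543210))) (.split (nat_lit 0xa) (nat_lit 1) (.split (nat_lit 0xa) (nat_lit 2) (.split (nat_lit 0xa) (nat_lit 3) (.split (nat_lit 0xa) (nat_lit 4) (.split (nat_lit 0xa) (nat_lit 5) (.split (nat_lit 0xa) (nat_lit 6) (.split (nat_lit 0xa) (nat_lit 7) (.split (nat_lit 0xa) (nat_lit 8) (.split (nat_lit 0xa) (nat_lit 9) (.unj (nat_lit 0x100015) (nat_lit 0x10000000000000000000000000000000100020002) (nat_lit 0x55400) (nat_lit 0x1000200030004000300000000000000000000)) (.star (nat_lit 0xa) (nat_lit 0) (nat_lit 9))) (.non (nat_lit 0) (nat_lit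 5) (nat_lit 0x154150) (nat_lit 0x10002000200010000000000010002000100000000))) (.non (nat_lit 0) (nat_lit 5) (nat_lit 0x155150) (nat_lit 0x10002000200020001000000010002000100000000))) (.non (nat_lit 0) (nat_lit 5) (nat_lit 0x155154) (nat_lit 0x10005000400030002000000030006000400020000))) (.star (nat_lit 0xa) (nat_lit 0) (nat_lit 5))) (.non (nat_lit 0) (nat_lit 5) (nat_lit 0x150154) (nat_lit 0x10002000100000000000000020003000200010000))) (.non (nat_lit 0) (nat_lit 5) (nat_lit 0x140150) (nat_lit 0x10001000000000000000000010002000100000000))) (.non (nat_lit 0) (nat_lit 5) (nat_lit 0x140154) (nat_lit 0x10001000000000000000000010002000200010000))) (.non (nat_lit 0) (nat_lit 5) (nat_lit 0x154154) (nat_lit 0x10003000200010000000000020004000300020000))))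

noncomputable def t1540 : Tr := (.split (nat_lit 9) (nat_lit 3) (.split (nat_lit 9) (nat_lit 4) .uj (.sup (nat_lit 0x100040007000a0008) (nat_lit 0x100040007000a000800000000000000000000))) (.split (nat_lit 9) (nat_lit 4) (.st (nat_lit 1) (nat_lit 0) (nat_lit 5) (nat_lit 0x54154) (nat_lit 0x3000200010000000000020004000300020000) (nat_lit 1) (nat_lit 1) (.st (nat_lit 2) (nat_lit 0) (nat_lit 5) (nat_lit 0x40154) (nat_lit 0x1000000000000000000010002000200010000) (nat_lit 1) (nat_lit 1) (.st (nat_lit 3) (nat_lit 0) (nat_lit 5) (nat_lit 0x40150) (nat_lit 0x1000000000000000000010002000100000000) (nat_lit 1) (nat_lit 1) (.st (nat_lit 4) (nat_lit 0) (nat_lit 5) (nat_lit 0x50154) (nat_lit 0x2000100000000000000020003000200010000) (nat_lit 1) (nat_lit 1) (.st (nat_lit 9) (nat_lit 0) (nat_lit 5) (nat_lit 0x50150) (nat_lit 0x2000100000000000000010002000100000000) (nat_lit 1) (nat_lit 1) (.split (nat_lit 4) (nat_lit 3) (.split (nat_lit 9) (nat_lit 3) (.split (nat_lit 9) (nat_lit 8) (.pd (.cons (nat_lit 0) (nat_lit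 6) (nat_lit 0) (nat_lit 0x3980532110) (nat_lit 0xa2c28b71aef423f00000f423ff423f5b8d45160d3d07c00000) (.cons (nat_lit 0) (nat_lit 7) (nat_lit 0) (nat_lit 0x3905532110) (nat_lit 0xb71aef423f00000f423f54591f423f65b9761a795b8cc00000) (.cons (nat_lit 0) (nat_lit 8) (nat_lit 0) (nat_lit 0x3065532110) (nat_lit 0xf423f00000f423fb71ae1f156f423f7a11d7a11b7a11900000) (.cons (nat_lit 1) (nat_lit 6) (nat_lit 0) (nat_lit 0x3980532200) (nat_lit 0xa2c28b71aef423f00000f423ff423f5b8d45160d00000f423f) (.cons (nat_lit 1) (nat_lit 7) (nat_lit 0) (nat_lit 0x3905532200) (nat_lit 0xb71aef423f00000f423f54591f423f65b9761a7900000f423f) (.cons (nat_lit 1) (nat_lit 8) (nat_lit 0) (nat_lit 0x3065532200) (nat_lit 0xf423f00000f423fb71ae1f156f423f7a11d7a11b00000f423f) .nil)))))) t1540_1) (.non (nat_lit 0) (nat_lit 5) (nat_lit 0x6a040) (nat_lit 0x4000300020001000000000002000000000000))) (.non (nat_lit 0) (nat_lit 5) (nat_lit 0xa8140) (nat_lit 0x3000200010000000000020004000000000000))) (.non (nat_lit 0) (nat_lit 5) (nat_lit 0x40250)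 (nat_lit 0x1000000000000000000010002000100000000)))))))) (.non (nat_lit 0) (nat_lit 5) (nat_lit 0x40140) (nat_lit 0x1000000000000000000010001000000000000))))

noncomputable def t1541_1 : Tr := (.ex (nat_lit 9) (.pd (.cons (nat_lit 0) (nat_lit 5) (nat_lit 0) (nat_lit 0x8747032110) (nat_lit 0xf423fb71ae65b97f423f0000061a795b8cc515fe3d05a00000) (.cons (nat_lit 1) (nat_lit 5) (nat_lit 0) (nat_lit 0x8747032200) (nat_lit 0xf423fb71ae65b97f423f0000061a795b8cc515fe00000f423f) (.cons (nat_lit 2) (nat_lit 5) (nat_lit 0) (nat_lit 0x8747033000) (nat_lit 0xf423fb71ae65b97f423f0000061a795b8cc00000f423f54591) (.cons (nat_lit 3) (nat_lit 5) (nat_lit 0) (nat_lit 0x8747040100) (nat_lit 0xf423fb71ae65b97f423f0000061a7900000f423fb71ae1f156) (.cons (nat_lit 4) (nat_lit 5) (nat_lit 0) (nat_lit 0x8766002100) (nat_lit 0xf423fb71aea2c28989650000000000f423fb71aea2c2804737) .nil))))) (.leaf (.cons (nat_lit 0x5540) (nat_lit 0x30004000300020001000000000000) (.cons (nat_lit 0x15500) (nat_lit 0x100020002000200010000000000000000)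 .nil)) (.cons (nat_lit 0x1111011110) (nat_lit 0x100001) (nat_lit 0xe) (nat_lit 0x3201045670) (.cons (nat_lit 0x1110011110) (nat_lit 0x1000001) (nat_lit 5) (nat_lit 0x6540032100) (.cons (nat_lit 0x1111011100) (nat_lit 0x100010) (nat_lit 0xd) (nat_lit 0x3201045600) (.cons (nat_lit 0x1110011100) (nat_lit 0x1000010) (nat_lit 4) (nat_lit 0x5430021000) (.cons (nat_lit 0x1111011000) (nat_lit 0x100100) (nat_lit 0xc) (nat_lit 0x5401023000) (.cons (nat_lit 0x1110011000) (nat_lit 0x1000100) (nat_lit 3) (nat_lit 0x4320010000) (.cons (nat_lit 0x1111010000) (nat_lit 0x101000) (nat_lit 8) (nat_lit 0x4302010000) (.cons (nat_lit 0x11110000) (nat_lit 0x100001000) (nat_lit 0x10) (nat_lit 0x21030000) .nil)))))))))) (.split (nat_lit 0xa) (nat_lit 0) (.split (nat_lit 0xa) (nat_lit 1) (.split (nat_lit 0xa) (nat_lit 2) (.split (nat_lit 0xa) (nat_lit 3) (.split (nat_lit 0xa) (nat_lit 4) (.split (nat_lit 0xa) (nat_lit 5) (.split (nat_lit 0xa) (nat_lit 6) (.split (nat_lit 0xa) (nat_lit 7) (.split (nat_lit 0xa) (nat_lit 8)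 (.split (nat_lit 0xa) (nat_lit 9) (.par (nat_lit 0x155150) (nat_lit 0x10002000300040002000000030002000100000000)) (.sup (nat_lit 0x20003000300030005000400000000000000000000) (nat_lit 0x10006000b0010000d))) (.non (nat_lit 0) (nat_lit 6) (nat_lit 0x150000) (nat_lit 0x10001000100000000000000000000000000000000))) (.non (nat_lit 0) (nat_lit 6) (nat_lit 0x154000) (nat_lit 0x10001000100010000000000000000000000000000))) (.non (nat_lit 0) (nat_lit 7) (nat_lit 0x151400) (nat_lit 0x30002000100000004000300000000000000000000))) (.non (nat_lit 0) (nat_lit 7) (nat_lit 0x151400) (nat_lit 0x30002000100000003000400000000000000000000))) (.non (nat_lit 0) (nat_lit 6) (nat_lit 0x154100) (nat_lit 0x10001000100010000000000010000000000000000))) (.non (nat_lit 0) (nat_lit 6) (nat_lit 0x154140) (nat_lit 0x10001000100010000000000010001000000000000))) (.non (nat_lit 0) (nat_lit 6) (nat_lit 0x154150) (nat_lit 0x10001000100010000000000010001000100000000))) (.non (nat_lit 0) (nat_lit 6) (nat_lit 0x154154) (nat_lit 0x10001000100010000000000010001000100010000)))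 (.non (nat_lit 2) (nat_lit 6) (nat_lit 0x150005) (nat_lit 0x30002000100000000000000000000000000030004))))

noncomputable def t1541_2 : Tr := (.ex (nat_lit 7) (.pd (.cons (nat_lit 3) (nat_lit 8) (nat_lit 0) (nat_lit 0x9047640100) (nat_lit 0xf423f00000437a254591f423f174ea00000f423fb71ae1f156) (.cons (nat_lit 4) (nat_lit 8) (nat_lit 0) (nat_lit 0x9065502100) (nat_lit 0xf423f00000f423fb71ae1f15600000f423fb71aea2c2804737) .nil)) (.ex (nat_lit 8) (.pd (.cons (nat_lit 4) (nat_lit 9) (nat_lit 0) (nat_lit 0x765502100) (nat_lit 0xf423fb71aea2c280473700000f423fb71aea2c2804737) .nil) t1541_1) (.split (nat_lit 0xa) (nat_lit 0) (.split (nat_lit 0xa) (nat_lit 1) (.split (nat_lit 0xa) (nat_lit 2) (.split (nat_lit 0xa) (nat_lit 3) (.split (nat_lit 0xa) (nat_lit 4) (.split (nat_lit 0xa) (nat_lit 5) (.split (nat_lit 0xa) (nat_lit 6) (.split (nat_lit 0xa) (nat_lit 7) (.split (nat_lit 0xa) (nat_lit 9) (.sup (nat_lit 0x3000300070007000a000800000000000000000000) (nat_lit 0x3000d00160020001a)) (.non (nat_lit 0) (nat_lit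 6) (nat_lit 0x150000) (nat_lit 0x10001000100000000000000000000000000000000))) (.non (nat_lit 0) (nat_lit 6) (nat_lit 0x114000) (nat_lit 0x10000000100010000000000000000000000000000))) (.non (nat_lit 0) (nat_lit 7) (nat_lit 0x151400) (nat_lit 0x30001000200000004000300000000000000000000))) (.non (nat_lit 0) (nat_lit 6) (nat_lit 0x154554) (nat_lit 0x40003000600050000000200040003000200010000))) (.non (nat_lit 0) (nat_lit 6) (nat_lit 0x114100) (nat_lit 0x10000000100010000000000010000000000000000))) (.non (nat_lit 0) (nat_lit 6) (nat_lit 0x114140) (nat_lit 0x10000000100010000000000010001000000000000))) (.non (nat_lit 0) (nat_lit 6) (nat_lit 0x114150) (nat_lit 0x10000000100010000000000010001000100000000))) (.non (nat_lit 0) (nat_lit 6) (nat_lit 0x114154) (nat_lit 0x10000000100010000000000010001000100010000))) (.non (nat_lit 2) (nat_lit 6) (nat_lit 0x150005) (nat_lit 0x30001000200000000000000000000000000030004))))) (.split (nat_lit 0xa) (nat_lit 0) (.split (nat_lit 0xa) (nat_lit 1) (.split (nat_lit 0xa)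 (nat_lit 2) (.split (nat_lit 0xa) (nat_lit 3) (.split (nat_lit 0xa) (nat_lit 4) (.split (nat_lit 0xa) (nat_lit 5) (.split (nat_lit 0xa) (nat_lit 8) (.split (nat_lit 0xa) (nat_lit 9) (.split (nat_lit 0xa) (nat_lit 6) (.sup (nat_lit 0x100040007000a0008) (nat_lit 0x3000000030007000a000800000000000000000000)) (.sup (nat_lit 0x7000f00170020001a) (nat_lit 0x30000000100010005000400000000000000000000))) (.non (nat_lit 0) (nat_lit 6) (nat_lit 0x154000) (nat_lit 0x10001000100010000000000000000000000000000))) (.non (nat_lit 0) (nat_lit 6) (nat_lit 0x114000) (nat_lit 0x10000000100010000000000000000000000000000))) (.non (nat_lit 0) (nat_lit 6) (nat_lit 0x154540) (nat_lit 0x20001000200030000000100020001000000000000))) (.non (nat_lit 0) (nat_lit 6) (nat_lit 0x104100) (nat_lit 0x10000000000010000000000010000000000000000))) (.non (nat_lit 0) (nat_lit 6) (nat_lit 0x104140) (nat_lit 0x10000000000010000000000010001000000000000))) (.non (nat_lit 0) (nat_lit 6) (nat_lit 0x104150) (nat_lit 0x10000000000010000000000010001000100000000)))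 (.star (nat_lit 0xa) (nat_lit 1) (nat_lit 7))) (.star (nat_lit 0xa) (nat_lit 0) (nat_lit 7))))

noncomputable def t1541_3 : Tr := (.ex (nat_lit 5) (.ex (nat_lit 6) t1541_2 (.split (nat_lit 0xa) (nat_lit 0) (.split (nat_lit 0xa) (nat_lit 1) (.split (nat_lit 0xa) (nat_lit 2) (.split (nat_lit 0xa) (nat_lit 3) (.split (nat_lit 0xa) (nat_lit 4) (.split (nat_lit 0xa) (nat_lit 5) (.split (nat_lit 0xa) (nat_lit 8) (.split (nat_lit 0xa) (nat_lit 9) (.split (nat_lit 0xa) (nat_lit 7) (.sup (nat_lit 0x30000000000010005000400000000000000000000) (nat_lit 0x10002000300050004)) (.sup (nat_lit 0x7000f00170020001a) (nat_lit 0x30000000100010005000400000000000000000000))) (.non (nat_lit 0) (nat_lit 7) (nat_lit 0x151400) (nat_lit 0x30002000100000004000300000000000000000000))) (.non (nat_lit 0) (nat_lit 7) (nat_lit 0x151400) (nat_lit 0x30001000200000004000300000000000000000000))) (.non (nat_lit 0) (nat_lit 7) (nat_lit 0x101400) (nat_lit 0x10000000000000001000100000000000000000000))) (.non (nat_lit 0) (nat_lit 6) (nat_lit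 0x154154) (nat_lit 0x20001000200030000000000040003000200010000))) (.non (nat_lit 0) (nat_lit 7) (nat_lit 0x101540) (nat_lit 0x30000000000000004000300010002000000000000))) (.non (nat_lit 0) (nat_lit 7) (nat_lit 0x101450) (nat_lit 0x30000000000000004000300000001000200000000))) (.star (nat_lit 0xa) (nat_lit 1) (nat_lit 6))) (.star (nat_lit 0xa) (nat_lit 0) (nat_lit 6)))) (.split (nat_lit 0xa) (nat_lit 0) (.split (nat_lit 0xa) (nat_lit 1) (.split (nat_lit 0xa) (nat_lit 2) (.split (nat_lit 0xa) (nat_lit 3) (.split (nat_lit 0xa) (nat_lit 4) (.split (nat_lit 0xa) (nat_lit 6) (.split (nat_lit 0xa) (nat_lit 7) (.split (nat_lit 0xa) (nat_lit 8) (.split (nat_lit 0xa) (nat_lit 9) (.sup (nat_lit 0x50000000000020009000a00000000000000000000) (nat_lit 0x100040007000a0008)) (.non (nat_lit 0) (nat_lit 7) (nat_lit 0x151400) (nat_lit 0x30002000100000003000400000000000000000000))) (.non (nat_lit 0) (nat_lit 6) (nat_lit 0x154554) (nat_lit 0x40003000600050000000200040003000200010000))) (.non (nat_lit 0) (nat_lit 6) (nat_lit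 0x154540) (nat_lit 0x20001000200030000000100020001000000000000))) (.non (nat_lit 0) (nat_lit 7) (nat_lit 0x101400) (nat_lit 0x10000000000000001000100000000000000000000))) (.non (nat_lit 0) (nat_lit 6) (nat_lit 0x114550) (nat_lit 0x20000000100020000000100030002000100000000))) (.non (nat_lit 0) (nat_lit 6) (nat_lit 0x104554) (nat_lit 0x20000000000010000000100020003000200010000))) (.non (nat_lit 0) (nat_lit 6) (nat_lit 0x154554) (nat_lit 0x40001000200030000000200040005000600030000))) (.non (nat_lit 0) (nat_lit 7) (nat_lit 0x101414) (nat_lit 0x30000000000000003000400000000000100020000))) (.non (nat_lit 2) (nat_lit 7) (nat_lit 0x101405) (nat_lit 0x10000000000000001000100000000000000010001))))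

noncomputable def t1541_4 : Tr := (.ex (nat_lit 2) (.pd (.cons (nat_lit 3) (nat_lit 6) (nat_lit 0) (nat_lit 0x8740540100) (nat_lit 0xf423fb71aea2c2800000f423f9896500000f423fb71ae1f156) (.cons (nat_lit 3) (nat_lit 7) (nat_lit 0) (nat_lit 0x8805540100) (nat_lit 0xf423fb71ae00000f423f54591f423f00000f423fb71ae1f156) .nil)) (.ex (nat_lit 3) (.pd (.cons (nat_lit 4) (nat_lit 6) (nat_lit 0) (nat_lit 0x8770502100) (nat_lit 0xf423fb71aea2c2800000f423f00000f423fb71aea2c2804737) (.cons (nat_lit 4) (nat_lit 7) (nat_lit 0) (nat_lit 0x8805502100) (nat_lit 0xf423fb71ae00000f423f5459100000f423fb71aea2c2804737) .nil)) t1541_3) (.split (nat_lit 0xa) (nat_lit 0) (.split (nat_lit 0xa) (nat_lit 1) (.split (nat_lit 0xa) (nat_lit 2) (.split (nat_lit 0xa) (nat_lit 4) (.split (nat_lit 0xa) (nat_lit 5) (.split (nat_lit 0xa) (nat_lit 6) (.split (nat_lit 0xa) (nat_lit 7) (.split (nat_lit 0xa) (nat_lit 8) (.split (nat_lit 0xa) (nat_lit 9) (.unj (nat_lit 0x100055) (nat_lit 0x10000000000000000000000000002000300040003) (nat_lit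 0x55400) (nat_lit 0x1000200030004000300000000000000000000)) (.non (nat_lit 0) (nat_lit 6) (nat_lit 0x154140) (nat_lit 0x10001000100010000000000010001000000000000))) (.non (nat_lit 0) (nat_lit 6) (nat_lit 0x114140) (nat_lit 0x10000000100010000000000010001000000000000))) (.non (nat_lit 0) (nat_lit 6) (nat_lit 0x104140) (nat_lit 0x10000000000010000000000010001000000000000))) (.non (nat_lit 0) (nat_lit 7) (nat_lit 0x101540) (nat_lit 0x30000000000000004000300010002000000000000))) (.non (nat_lit 0) (nat_lit 6) (nat_lit 0x104554) (nat_lit 0x20000000000010000000100020003000200010000))) (.non (nat_lit 0) (nat_lit 6) (nat_lit 0x100140) (nat_lit 0x10000000000000000000000010001000000000000))) (.non (nat_lit 0) (nat_lit 6) (nat_lit 0x100050) (nat_lit 0x10000000000000000000000000001000100000000))) (.non (nat_lit 0) (nat_lit 6) (nat_lit 0x100054) (nat_lit 0x10000000000000000000000000001000100010000))) (.non (nat_lit 2) (nat_lit 6) (nat_lit 0x100145) (nat_lit 0x30000000000000000000000010002000000030004))))) (.split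 (nat_lit 0xa) (nat_lit 1) (.split (nat_lit 0xa) (nat_lit 3) (.split (nat_lit 0xa) (nat_lit 4) (.split (nat_lit 0xa) (nat_lit 5) (.split (nat_lit 0xa) (nat_lit 6) (.split (nat_lit 0xa) (nat_lit 7) (.split (nat_lit 0xa) (nat_lit 8) (.split (nat_lit 0xa) (nat_lit 9) (.split (nat_lit 0xa) (nat_lit 0) (.unj (nat_lit 0x100055) (nat_lit 0x10000000000000000000000000001000200020002) (nat_lit 0x55400) (nat_lit 0x1000200030004000300000000000000000000)) (.unj (nat_lit 0x100015) (nat_lit 0x10000000000000000000000000000000100010001) (nat_lit 0x15500) (nat_lit 0x100020002000200010000000000000000))) (.non (nat_lit 0) (nat_lit 6) (nat_lit 0x154150) (nat_lit 0x10001000100010000000000010001000100000000))) (.non (nat_lit 0) (nat_lit 6) (nat_lit 0x114150) (nat_lit 0x10000000100010000000000010001000100000000))) (.non (nat_lit 0) (nat_lit 6) (nat_lit 0x104150) (nat_lit 0x10000000000010000000000010001000100000000))) (.non (nat_lit 0) (nat_lit 7) (nat_lit 0x101450) (nat_lit 0x30000000000000004000300000001000200000000)))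 (.non (nat_lit 0) (nat_lit 6) (nat_lit 0x154554) (nat_lit 0x40001000200030000000200040005000600030000))) (.non (nat_lit 0) (nat_lit 6) (nat_lit 0x100150) (nat_lit 0x10000000000000000000000010001000100000000))) (.non (nat_lit 0) (nat_lit 6) (nat_lit 0x100050) (nat_lit 0x10000000000000000000000000001000100000000))) (.non (nat_lit 0) (nat_lit 6) (nat_lit 0x100014) (nat_lit 0x10000000000000000000000000000000100010000))))

noncomputable def t1541_5 : Tr := (.split (nat_lit 0xa) (nat_lit 2) (.split (nat_lit 0xa) (nat_lit 3) (.split (nat_lit 0xa) (nat_lit 5) (.split (nat_lit 0xa) (nat_lit 8) (.split (nat_lit 0xa) (nat_lit 9) (.unj (nat_lit 0x100015) (nat_lit 0x10000000000000000000000000000000100020002) (nat_lit 0x15500) (nat_lit 0x100020002000200010000000000000000)) (.unj (nat_lit 0x100015) (nat_lit 0x10000000000000000000000000000000100020002) (nat_lit 0x15500) (nat_lit 0x100020002000200010000000000000000))) (.split (nat_lit 0xa) (nat_lit 9) (.sup (nat_lit 0x5000000000000000000000000000000020009000a)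 (nat_lit 0x7000a000800040001000000000000)) (.non (nat_lit 0) (nat_lit 6) (nat_lit 0x150000) (nat_lit 0x10001000100000000000000000000000000000000)))) (.split (nat_lit 0xa) (nat_lit 8) (.split (nat_lit 0xa) (nat_lit 9) (.split (nat_lit 0xa) (nat_lit 0) (.split (nat_lit 0xa) (nat_lit 5) (.sup (nat_lit 0x200000000000000000000000000000005000a0009) (nat_lit 0x5000a000a000600050000000000000000)) (.non (nat_lit 0) (nat_lit 7) (nat_lit 0x101400) (nat_lit 0x10000000000000001000100000000000000000000))) (.non (nat_lit 1) (nat_lit 7) (nat_lit 0x101401) (nat_lit 0x10000000000000001000100000000000000000001))) (.non (nat_lit 0) (nat_lit 7) (nat_lit 0x151400) (nat_lit 0x30002000100000003000400000000000000000000))) (.non (nat_lit 0) (nat_lit 6) (nat_lit 0x154554) (nat_lit 0x40003000600050000000200040003000200010000)))) (.split (nat_lit 0xa) (nat_lit 5) (.split (nat_lit 0xa) (nat_lit 8) (.split (nat_lit 0xa) (nat_lit 9) (.unj (nat_lit 0x100015) (nat_lit 0x10000000000000000000000000000000100020002) (nat_lit 0x15500)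 (nat_lit 0x100020002000200010000000000000000)) (.non (nat_lit 0) (nat_lit 6) (nat_lit 0x154140) (nat_lit 0x10001000100010000000000010001000000000000))) (.non (nat_lit 0) (nat_lit 6) (nat_lit 0x114140) (nat_lit 0x10000000100010000000000010001000000000000))) (.non (nat_lit 0) (nat_lit 6) (nat_lit 0x104554) (nat_lit 0x20000000000010000000100020003000200010000)))) (.split (nat_lit 0xa) (nat_lit 3) (.split (nat_lit 0xa) (nat_lit 5) (.split (nat_lit 0xa) (nat_lit 8) (.split (nat_lit 0xa) (nat_lit 9) (.unj (nat_lit 0x100015) (nat_lit 0x10000000000000000000000000000000100010001) (nat_lit 0x15500) (nat_lit 0x100020002000200010000000000000000)) (.non (nat_lit 0) (nat_lit 6) (nat_lit 0x154150) (nat_lit 0x10001000100010000000000010001000100000000))) (.non (nat_lit 0) (nat_lit 6) (nat_lit 0x114150) (nat_lit 0x10000000100010000000000010001000100000000))) (.non (nat_lit 0) (nat_lit 6) (nat_lit 0x154554) (nat_lit 0x40001000200030000000200040005000600030000))) (.non (nat_lit 0) (nat_lit 6) (nat_lit 0x100050) (nat_lit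 0x10000000000000000000000000001000100000000))))

noncomputable def t1541_6 : Tr := (.ex (nat_lit 0) (.ex (nat_lit 1) (.split (nat_lit 4) (nat_lit 3) (.split (nat_lit 7) (nat_lit 4) (.split (nat_lit 9) (nat_lit 8) (.pd (.cons (nat_lit 2) (nat_lit 6) (nat_lit 0) (nat_lit 0x8740533000) (nat_lit 0xf423fb71aea2c2800000f423f98965927bd00000f423f54591) (.cons (nat_lit 2) (nat_lit 7) (nat_lit 0) (nat_lit 0x8805533000) (nat_lit 0xf423fb71ae00000f423f54591f423fb71ae00000f423f54591) .nil)) t1541_4) (.sup (nat_lit 0x100040007000a0008) (nat_lit 0x500070007000a000800000000000000000000))) (.non (nat_lit 0) (nat_lit 6) (nat_lit 0xa8140) (nat_lit 0x1000200030000000000040002000000000000))) (.non (nat_lit 0) (nat_lit 6) (nat_lit 0x28250) (nat_lit 0x100020000000000030004000200000000))) (.split (nat_lit 0xa) (nat_lit 2) (.split (nat_lit 0xa) (nat_lit 3) (.split (nat_lit 0xa) (nat_lit 4) (.split (nat_lit 0xa) (nat_lit 5) (.split (nat_lit 0xa) (nat_lit 6) (.split (nat_lit 0xa) (nat_lit 7) (.split (nat_lit 0xa) (nat_lit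 8) (.split (nat_lit 0xa) (nat_lit 9) (.split (nat_lit 0xa) (nat_lit 0) (.unj (nat_lit 0x100015) (nat_lit 0x10000000000000000000000000000000100020002) (nat_lit 0x15500) (nat_lit 0x100020002000200010000000000000000)) (.unj (nat_lit 0x100005) (nat_lit 0x10000000000000000000000000000000000010001) (nat_lit 0x5540) (nat_lit 0x30004000300020001000000000000))) (.non (nat_lit 0) (nat_lit 6) (nat_lit 0x154154) (nat_lit 0x10001000100010000000000010001000100010000))) (.non (nat_lit 0) (nat_lit 6) (nat_lit 0x114154) (nat_lit 0x10000000100010000000000010001000100010000))) (.star (nat_lit 0xa) (nat_lit 1) (nat_lit 7))) (.star (nat_lit 0xa) (nat_lit 1) (nat_lit 6))) (.non (nat_lit 0) (nat_lit 7) (nat_lit 0x101414) (nat_lit 0x30000000000000003000400000000000100020000))) (.non (nat_lit 0) (nat_lit 6) (nat_lit 0x100154) (nat_lit 0x10000000000000000000000010001000100010000))) (.non (nat_lit 0) (nat_lit 6) (nat_lit 0x100054) (nat_lit 0x10000000000000000000000000001000100010000))) (.non (nat_lit 0) (nat_lit 6) (nat_lit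 0x100014) (nat_lit 0x10000000000000000000000000000000100010000)))) (.split (nat_lit 0xa) (nat_lit 4) (.split (nat_lit 0xa) (nat_lit 6) (.split (nat_lit 0xa) (nat_lit 7) (.split (nat_lit 0xa) (nat_lit 1) t1541_5 (.split (nat_lit 0xa) (nat_lit 2) (.split (nat_lit 0xa) (nat_lit 3) (.split (nat_lit 0xa) (nat_lit 5) (.split (nat_lit 0xa) (nat_lit 8) (.split (nat_lit 0xa) (nat_lit 9) (.unj (nat_lit 0x100005) (nat_lit 0x10000000000000000000000000000000000010001) (nat_lit 0x5540) (nat_lit 0x30004000300020001000000000000)) (.non (nat_lit 0) (nat_lit 6) (nat_lit 0x154154) (nat_lit 0x10001000100010000000000010001000100010000))) (.non (nat_lit 0) (nat_lit 6) (nat_lit 0x114154) (nat_lit 0x10000000100010000000000010001000100010000))) (.non (nat_lit 0) (nat_lit 7) (nat_lit 0x101414) (nat_lit 0x30000000000000003000400000000000100020000))) (.non (nat_lit 0) (nat_lit 6) (nat_lit 0x100054) (nat_lit 0x10000000000000000000000000001000100010000))) (.non (nat_lit 0) (nat_lit 6) (nat_lit 0x100014) (nat_lit 0x10000000000000000000000000000000100010000))))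 (.star (nat_lit 0xa) (nat_lit 0) (nat_lit 7))) (.star (nat_lit 0xa) (nat_lit 0) (nat_lit 6))) (.non (nat_lit 0) (nat_lit 6) (nat_lit 0x154154) (nat_lit 0x20001000200030000000000040003000200010000))))

noncomputable def t1541_7 : Tr := (.pd (.cons (nat_lit 0) (nat_lit 8) (nat_lit 0) (nat_lit 0x9065532110) (nat_lit 0xf423f00000f423fb71ae1f156f423fb71aea2c289896500000) (.cons (nat_lit 1) (nat_lit 8) (nat_lit 0) (nat_lit 0x9065532200) (nat_lit 0xf423f00000f423fb71ae1f156f423fb71aea2c2800000f423f) (.cons (nat_lit 2) (nat_lit 8) (nat_lit 0) (nat_lit 0x9065533000) (nat_lit 0xf423f00000f423fb71ae1f156f423fb71ae00000f423f54591) (.cons (nat_lit 3) (nat_lit 8) (nat_lit 0) (nat_lit 0x9065540100) (nat_lit 0xf423f00000f423fb71ae1f156f423f00000f423fb71ae1f156) (.cons (nat_lit 4) (nat_lit 8) (nat_lit 0) (nat_lit 0x9065502100) (nat_lit 0xf423f00000f423fb71ae1f15600000f423fb71aea2c2804737) (.cons (nat_lit 4) (nat_lit 9) (nat_lit 0) (nat_lit 0x765502100) (nat_lit 0xf423fb71aea2c280473700000f423fb71aea2c2804737) .nil))))))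 (.ex (nat_lit 9) (.pd (.cons (nat_lit 0) (nat_lit 5) (nat_lit 0) (nat_lit 0x8487032110) (nat_lit 0xf423f65b97b71aef423f0000061a795b8cc515fe3d05a00000) (.cons (nat_lit 1) (nat_lit 5) (nat_lit 0) (nat_lit 0x8487032200) (nat_lit 0xf423f65b97b71aef423f0000061a795b8cc515fe00000f423f) (.cons (nat_lit 2) (nat_lit 5) (nat_lit 0) (nat_lit 0x8487033000) (nat_lit 0xf423f65b97b71aef423f0000061a795b8cc00000f423f54591) (.cons (nat_lit 3) (nat_lit 5) (nat_lit 0) (nat_lit 0x8487040100) (nat_lit 0xf423f65b97b71aef423f0000061a7900000f423fb71ae1f156) (.cons (nat_lit 4) (nat_lit 5) (nat_lit 0) (nat_lit 0x8766002100) (nat_lit 0xf423fb71aea2c28989650000000000f423fb71aea2c2804737) .nil))))) (.l31 (nat_lit 0x4321098765))) (.split (nat_lit 0xa) (nat_lit 0) (.split (nat_lit 0xa) (nat_lit 1) (.split (nat_lit 0xa) (nat_lit 2) (.split (nat_lit 0xa) (nat_lit 3) (.split (nat_lit 0xa) (nat_lit 4) (.split (nat_lit 0xa) (nat_lit 5) (.split (nat_lit 0xa) (nat_lit 6) (.split (nat_lit 0xa) (nat_lit 7) (.split (nat_lit 0xa) (nat_lit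 8) (.sup (nat_lit 0x10002000300060009000700000000000000000000) (nat_lit 0x10006000b0010000d)) (.non (nat_lit 0) (nat_lit 6) (nat_lit 0x150000) (nat_lit 0x10001000100000000000000000000000000000000))) (.non (nat_lit 0) (nat_lit 6) (nat_lit 0x154000) (nat_lit 0x10001000100010000000000000000000000000000))) (.non (nat_lit 0) (nat_lit 7) (nat_lit 0x151400) (nat_lit 0x30002000100000004000300000000000000000000))) (.non (nat_lit 0) (nat_lit 6) (nat_lit 0x154550) (nat_lit 0x20003000400020000000100030002000100000000))) (.non (nat_lit 0) (nat_lit 6) (nat_lit 0x150100) (nat_lit 0x10001000100000000000000010000000000000000))) (.non (nat_lit 0) (nat_lit 6) (nat_lit 0x150140) (nat_lit 0x10001000100000000000000010001000000000000))) (.non (nat_lit 0) (nat_lit 6) (nat_lit 0x150150) (nat_lit 0x10001000100000000000000010001000100000000))) (.non (nat_lit 0) (nat_lit 6) (nat_lit 0x150154) (nat_lit 0x10001000100000000000000010001000100010000))) (.non (nat_lit 1) (nat_lit 6) (nat_lit 0x154151) (nat_lit 0x20003000400020000000000030002000100000001)))))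

noncomputable def t1541_8 : Tr := (.ex (nat_lit 6) (.ex (nat_lit 7) t1541_7 (.split (nat_lit 0xa) (nat_lit 0) (.split (nat_lit 0xa) (nat_lit 1) (.split (nat_lit 0xa) (nat_lit 2) (.split (nat_lit 0xa) (nat_lit 3) (.split (nat_lit 0xa) (nat_lit 4) (.split (nat_lit 0xa) (nat_lit 5) (.split (nat_lit 0xa) (nat_lit 8) (.split (nat_lit 0xa) (nat_lit 9) (.split (nat_lit 0xa) (nat_lit 6) (.sup (nat_lit 0x10002000300050004) (nat_lit 0x20000000100030005000400000000000000000000)) (.unj (nat_lit 0x105000) (nat_lit 0x10000000000010001000000000000000000000000) (nat_lit 0x155) (nat_lit 0x10002000300040003))) (.non (nat_lit 0) (nat_lit 6) (nat_lit 0x154000) (nat_lit 0x10001000100010000000000000000000000000000))) (.non (nat_lit 0) (nat_lit 6) (nat_lit 0x114000) (nat_lit 0x10000000100010000000000000000000000000000))) (.non (nat_lit 0) (nat_lit 6) (nat_lit 0x154550) (nat_lit 0x20002000400030000000100030002000100000000))) (.non (nat_lit 0) (nat_lit 6) (nat_lit 0x114100) (nat_lit 0x10000000100010000000000010000000000000000)))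 (.non (nat_lit 0) (nat_lit 6) (nat_lit 0x114140) (nat_lit 0x10000000100010000000000010001000000000000))) (.non (nat_lit 0) (nat_lit 6) (nat_lit 0x114150) (nat_lit 0x10000000100010000000000010001000100000000))) (.star (nat_lit 0xa) (nat_lit 1) (nat_lit 7))) (.star (nat_lit 0xa) (nat_lit 0) (nat_lit 7)))) (.split (nat_lit 0xa) (nat_lit 0) (.split (nat_lit 0xa) (nat_lit 1) (.split (nat_lit 0xa) (nat_lit 2) (.split (nat_lit 0xa) (nat_lit 3) (.split (nat_lit 0xa) (nat_lit 4) (.split (nat_lit 0xa) (nat_lit 5) (.split (nat_lit 0xa) (nat_lit 8) (.split (nat_lit 0xa) (nat_lit 9) (.split (nat_lit 0xa) (nat_lit 7) (.unj (nat_lit 0x105400) (nat_lit 0x10000000000010002000200000000000000000000) (nat_lit 0x155) (nat_lit 0x10002000300040003)) (.unj (nat_lit 0x105000) (nat_lit 0x10000000000010001000000000000000000000000) (nat_lit 0x155) (nat_lit 0x10002000300040003))) (.non (nat_lit 0) (nat_lit 7) (nat_lit 0x151400) (nat_lit 0x30002000100000004000300000000000000000000))) (.non (nat_lit 0) (nat_lit 6) (nat_lit 0x154100)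 (nat_lit 0x10001000200010000000000010000000000000000))) (.non (nat_lit 0) (nat_lit 7) (nat_lit 0x101400) (nat_lit 0x10000000000000001000100000000000000000000))) (.non (nat_lit 0) (nat_lit 6) (nat_lit 0x154140) (nat_lit 0x10001000200010000000000020001000000000000))) (.non (nat_lit 0) (nat_lit 6) (nat_lit 0x154150) (nat_lit 0x10001000200010000000000020002000100000000))) (.non (nat_lit 0) (nat_lit 6) (nat_lit 0x154154) (nat_lit 0x10001000200010000000000020002000200010000))) (.star (nat_lit 0xa) (nat_lit 1) (nat_lit 6))) (.star (nat_lit 0xa) (nat_lit 0) (nat_lit 6))))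

noncomputable def t1541_9 : Tr := (.split (nat_lit 4) (nat_lit 3) (.split (nat_lit 8) (nat_lit 4) (.split (nat_lit 9) (nat_lit 8) (.pd (.cons (nat_lit 2) (nat_lit 6) (nat_lit 0) (nat_lit 0x8480533000) (nat_lit 0xf423f7a11df423f00000f423f7a11b7a11900000f423f54591) (.cons (nat_lit 2) (nat_lit 7) (nat_lit 0) (nat_lit 0x8405533000) (nat_lit 0xf423fb71ae00000f423f54591a2c289896500000f423f54591) (.cons (nat_lit 3) (nat_lit 6) (nat_lit 0) (nat_lit 0x8480540100) (nat_lit 0xf423f7a11df423f00000f423f7a11b00000f423fb71ae1f156) (.cons (nat_lit 3) (nat_lit 7) (nat_lit 0) (nat_lit 0x8405540100) (nat_lit 0xf423fb71ae00000f423f54591a2c2800000f423fb71ae1f156) (.cons (nat_lit 4) (nat_lit 6) (nat_lit 0) (nat_lit 0x8770502100) (nat_lit 0xf423fb71aea2c2800000f423f00000f423fb71aea2c2804737) (.cons (nat_lit 4) (nat_lit 7) (nat_lit 0) (nat_lit 0x8805502100) (nat_lit 0xf423fb71ae00000f423f5459100000f423fb71aea2c2804737) .nil)))))) (.ex (nat_lit 5) t1541_8 (.split (nat_lit 0xa) (nat_lit 0) (.split (nat_lit 0xa) (nat_lit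 1) (.split (nat_lit 0xa) (nat_lit 2) (.split (nat_lit 0xa) (nat_lit 3) (.split (nat_lit 0xa) (nat_lit 4) (.split (nat_lit 0xa) (nat_lit 6) (.split (nat_lit 0xa) (nat_lit 7) (.split (nat_lit 0xa) (nat_lit 8) (.split (nat_lit 0xa) (nat_lit 9) (.unj (nat_lit 0x105400) (nat_lit 0x10000000000010002000200000000000000000000) (nat_lit 0x155) (nat_lit 0x10002000300040003)) (.non (nat_lit 0) (nat_lit 6) (nat_lit 0x154550) (nat_lit 0x20003000400020000000100030002000100000000))) (.non (nat_lit 0) (nat_lit 6) (nat_lit 0x154100) (nat_lit 0x10001000200010000000000010000000000000000))) (.non (nat_lit 0) (nat_lit 6) (nat_lit 0x154550) (nat_lit 0x20002000400030000000100030002000100000000))) (.non (nat_lit 0) (nat_lit 7) (nat_lit 0x101400) (nat_lit 0x10000000000000001000100000000000000000000))) (.non (nat_lit 0) (nat_lit 6) (nat_lit 0x154140) (nat_lit 0x10001000200010000000000020001000000000000))) (.non (nat_lit 0) (nat_lit 6) (nat_lit 0x154150) (nat_lit 0x10001000200010000000000020002000100000000))) (.non (nat_lit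 0) (nat_lit 6) (nat_lit 0x154154) (nat_lit 0x10001000200010000000000020002000200010000))) (.non (nat_lit 0) (nat_lit 7) (nat_lit 0x101414) (nat_lit 0x30000000000000003000400000000000100020000))) (.non (nat_lit 2) (nat_lit 7) (nat_lit 0x101405) (nat_lit 0x10000000000000001000100000000000000010001))))) (.non (nat_lit 0) (nat_lit 6) (nat_lit 0x94100) (nat_lit 0x1000200010000000000010000000000000000))) (.non (nat_lit 0) (nat_lit 6) (nat_lit 0xa8100) (nat_lit 0x1000200010000000000020000000000000000))) (.non (nat_lit 0) (nat_lit 6) (nat_lit 0xa8240) (nat_lit 0x1000200010000000000020002000000000000)))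

noncomputable def t1541_10 : Tr := (.ex (nat_lit 0) (.ex (nat_lit 1) t1541_9 (.split (nat_lit 0xa) (nat_lit 2) (.split (nat_lit 0xa) (nat_lit 3) (.split (nat_lit 0xa) (nat_lit 4) (.split (nat_lit 0xa) (nat_lit 5) (.split (nat_lit 0xa) (nat_lit 6) (.split (nat_lit 0xa) (nat_lit 7) (.split (nat_lit 0xa) (nat_lit 8) (.split (nat_lit 0xa) (nat_lit 9) (.split (nat_lit 0xa) (nat_lit 0) (.unj (nat_lit 0x100015) (nat_lit 0x10000000000000000000000000000000100020002) (nat_lit 0x15500) (nat_lit 0x200030004000300010000000000000000)) (.unj (nat_lit 0x100005) (nat_lit 0x10000000000000000000000000000000000010001) (nat_lit 0x15500) (nat_lit 0x200030004000300010000000000000000))) (.non (nat_lit 0) (nat_lit 6) (nat_lit 0x150154) (nat_lit 0x10001000100000000000000010001000100010000))) (.non (nat_lit 0) (nat_lit 6) (nat_lit 0x154100) (nat_lit 0x10001000200010000000000010000000000000000))) (.star (nat_lit 0xa) (nat_lit 1) (nat_lit 7))) (.star (nat_lit 0xa) (nat_lit 1) (nat_lit 6))) (.non (nat_lit 0) (nat_lit 7) (nat_lit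 0x101414) (nat_lit 0x30000000000000003000400000000000100020000))) (.non (nat_lit 0) (nat_lit 6) (nat_lit 0x154140) (nat_lit 0x10001000200010000000000020001000000000000))) (.non (nat_lit 0) (nat_lit 6) (nat_lit 0x154150) (nat_lit 0x10001000200010000000000020002000100000000))) (.non (nat_lit 0) (nat_lit 6) (nat_lit 0x100014) (nat_lit 0x10000000000000000000000000000000100010000)))) (.split (nat_lit 0xa) (nat_lit 2) (.split (nat_lit 0xa) (nat_lit 3) (.split (nat_lit 0xa) (nat_lit 4) (.split (nat_lit 0xa) (nat_lit 6) (.split (nat_lit 0xa) (nat_lit 7) (.split (nat_lit 0xa) (nat_lit 8) (.split (nat_lit 0xa) (nat_lit 9) (.split (nat_lit 0xa) (nat_lit 1) (.split (nat_lit 0xa) (nat_lit 5) (.unj (nat_lit 0x100015) (nat_lit 0x10000000000000000000000000000000100020002) (nat_lit 0x15500) (nat_lit 0x200030004000300010000000000000000)) (.split (nat_lit 0xa) (nat_lit 0) (.split (nat_lit 0xa) (nat_lit 5) (.split (nat_lit 9) (nat_lit 8) (.split (nat_lit 8) (nat_lit 4) (.split (nat_lit 4) (nat_lit 3) (.sup (nat_lit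 0x2000500060007000500020000000000000000) (nat_lit 0x10000000000000000000000000002000500080007)) (.non (nat_lit 0) (nat_lit 6) (nat_lit 0xa8240) (nat_lit 0x1000200010000000000020002000000000000))) (.non (nat_lit 0) (nat_lit 6) (nat_lit 0xa8100) (nat_lit 0x1000200010000000000020000000000000000))) (.non (nat_lit 0) (nat_lit 6) (nat_lit 0x94100) (nat_lit 0x1000200010000000000010000000000000000))) (.non (nat_lit 0) (nat_lit 7) (nat_lit 0x101400) (nat_lit 0x10000000000000001000100000000000000000000))) (.non (nat_lit 1) (nat_lit 7) (nat_lit 0x101401) (nat_lit 0x10000000000000001000100000000000000000001)))) (.split (nat_lit 0xa) (nat_lit 5) (.unj (nat_lit 0x100005) (nat_lit 0x10000000000000000000000000000000000010001) (nat_lit 0x15500) (nat_lit 0x200030004000300010000000000000000)) (.non (nat_lit 0) (nat_lit 7) (nat_lit 0x101414) (nat_lit 0x30000000000000003000400000000000100020000)))) (.non (nat_lit 1) (nat_lit 6) (nat_lit 0x154151) (nat_lit 0x20003000400020000000000030002000100000001))) (.non (nat_lit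 0) (nat_lit 6) (nat_lit 0x154100) (nat_lit 0x10001000200010000000000010000000000000000))) (.star (nat_lit 0xa) (nat_lit 0) (nat_lit 7))) (.star (nat_lit 0xa) (nat_lit 0) (nat_lit 6))) (.non (nat_lit 0) (nat_lit 6) (nat_lit 0x154140) (nat_lit 0x10001000200010000000000020001000000000000))) (.non (nat_lit 0) (nat_lit 6) (nat_lit 0x154150) (nat_lit 0x10001000200010000000000020002000100000000))) (.non (nat_lit 0) (nat_lit 6) (nat_lit 0x154154) (nat_lit 0x10001000200010000000000020002000200010000))))

noncomputable def t1541_11 : Tr := (.ex (nat_lit 7) (.pd (.cons (nat_lit 0) (nat_lit 5) (nat_lit 0) (nat_lit 0x3987032110) (nat_lit 0x98965a2c28b71aef423f00000f423f5572c45c091e82a00000) (.cons (nat_lit 0) (nat_lit 8) (nat_lit 0) (nat_lit 0x3065532110) (nat_lit 0xf423f00000f423fb71ae1f156f423f7a11d7a11b7a11900000) (.cons (nat_lit 0) (nat_lit 9) (nat_lit 0) (nat_lit 0x765532110) (nat_lit 0xf423fb71aea2c2804737f423fb71aea2c289896500000) (.cons (nat_lit 1) (nat_lit 5) (nat_lit 0) (nat_lit 0x3987032200) (nat_lit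 0x98965a2c28b71aef423f00000f423f5572c45c0900000f423f) (.cons (nat_lit 1) (nat_lit 8) (nat_lit 0) (nat_lit 0x3065532200) (nat_lit 0xf423f00000f423fb71ae1f156f423f7a11d7a11b00000f423f) (.cons (nat_lit 1) (nat_lit 9) (nat_lit 0) (nat_lit 0x765532200) (nat_lit 0xf423fb71aea2c2804737f423fb71aea2c2800000f423f) (.cons (nat_lit 2) (nat_lit 5) (nat_lit 0) (nat_lit 0x3987033000) (nat_lit 0x98965a2c28b71aef423f00000f423f5572c00000f423f54591) (.cons (nat_lit 2) (nat_lit 8) (nat_lit 0) (nat_lit 0x3065533000) (nat_lit 0xf423f00000f423fb71ae1f156f423f7a11d00000f423f54591) (.cons (nat_lit 2) (nat_lit 9) (nat_lit 0) (nat_lit 0x765533000) (nat_lit 0xf423fb71aea2c2804737f423fb71ae00000f423f54591) (.cons (nat_lit 3) (nat_lit 5) (nat_lit 0) (nat_lit 0x8766040100) (nat_lit 0xf423fb71aea2c289896500000f423f00000f423fb71ae1f156) (.cons (nat_lit 3) (nat_lit 8) (nat_lit 0) (nat_lit 0x9065540100) (nat_lit 0xf423f00000f423fb71ae1f156f423f00000f423fb71ae1f156) (.cons (nat_lit 3) (nat_lit 9) (nat_lit 0) (nat_lit 0x765540100)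 (nat_lit 0xf423fb71aea2c2804737f423f00000f423fb71ae1f156) (.cons (nat_lit 4) (nat_lit 9) (nat_lit 0) (nat_lit 0x765502100) (nat_lit 0xf423fb71aea2c280473700000f423fb71aea2c2804737) .nil))))))))))))) (.l31 (nat_lit 0x9876543210))) (.split (nat_lit 0xa) (nat_lit 0) (.split (nat_lit 0xa) (nat_lit 1) (.split (nat_lit 0xa) (nat_lit 2) (.split (nat_lit 0xa) (nat_lit 3) (.split (nat_lit 0xa) (nat_lit 4) (.split (nat_lit 0xa) (nat_lit 5) (.split (nat_lit 0xa) (nat_lit 8) (.split (nat_lit 0xa) (nat_lit 9) (.split (nat_lit 0xa) (nat_lit 6) (.unj (nat_lit 0x155) (nat_lit 0x10002000300040003) (nat_lit 0x115400) (nat_lit 0x10000000100020002000200000000000000000000)) (.unj (nat_lit 0x105000) (nat_lit 0x10000000000010001000000000000000000000000) (nat_lit 0x155) (nat_lit 0x10002000300040003))) (.non (nat_lit 0) (nat_lit 6) (nat_lit 0x154000) (nat_lit 0x10001000100010000000000000000000000000000))) (.non (nat_lit 0) (nat_lit 6) (nat_lit 0x114000) (nat_lit 0x10000000100010000000000000000000000000000))) (.non (nat_lit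 0) (nat_lit 6) (nat_lit 0x154554) (nat_lit 0x20005000400030000000100030006000400020000))) (.non (nat_lit 0) (nat_lit 6) (nat_lit 0x154140) (nat_lit 0x10001000100010000000000010001000000000000))) (.non (nat_lit 0) (nat_lit 6) (nat_lit 0x154040) (nat_lit 0x10001000100010000000000000001000000000000))) (.non (nat_lit 0) (nat_lit 6) (nat_lit 0x154050) (nat_lit 0x10001000100010000000000000001000100000000))) (.star (nat_lit 0xa) (nat_lit 1) (nat_lit 7))) (.star (nat_lit 0xa) (nat_lit 0) (nat_lit 7))))

noncomputable def t1541_12 : Tr := (.ex (nat_lit 5) (.ex (nat_lit 6) t1541_11 (.split (nat_lit 0xa) (nat_lit 0) (.split (nat_lit 0xa) (nat_lit 1) (.split (nat_lit 0xa) (nat_lit 2) (.split (nat_lit 0xa) (nat_lit 3) (.split (nat_lit 0xa) (nat_lit 4) (.split (nat_lit 0xa) (nat_lit 5) (.split (nat_lit 0xa) (nat_lit 8) (.split (nat_lit 0xa) (nat_lit 9) (.split (nat_lit 0xa) (nat_lit 7) (.unj (nat_lit 0x105400) (nat_lit 0x10000000000010002000200000000000000000000) (nat_lit 0x155) (nat_lit 0x10002000300040003))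 (.unj (nat_lit 0x105000) (nat_lit 0x10000000000010001000000000000000000000000) (nat_lit 0x155) (nat_lit 0x10002000300040003))) (.non (nat_lit 0) (nat_lit 6) (nat_lit 0x150150) (nat_lit 0x10002000100000000000000010002000100000000))) (.non (nat_lit 0) (nat_lit 6) (nat_lit 0x154150) (nat_lit 0x10002000200010000000000010002000100000000))) (.non (nat_lit 0) (nat_lit 7) (nat_lit 0x101400) (nat_lit 0x10000000000000001000100000000000000000000))) (.non (nat_lit 0) (nat_lit 6) (nat_lit 0x150154) (nat_lit 0x10002000100000000000000020003000200010000))) (.non (nat_lit 0) (nat_lit 6) (nat_lit 0x140150) (nat_lit 0x10001000000000000000000010002000100000000))) (.non (nat_lit 0) (nat_lit 6) (nat_lit 0x140154) (nat_lit 0x10001000000000000000000010002000200010000))) (.star (nat_lit 0xa) (nat_lit 1) (nat_lit 6))) (.star (nat_lit 0xa) (nat_lit 0) (nat_lit 6)))) (.split (nat_lit 0xa) (nat_lit 0) (.split (nat_lit 0xa) (nat_lit 1) (.split (nat_lit 0xa) (nat_lit 2) (.split (nat_lit 0xa) (nat_lit 3) (.split (nat_lit 0xa)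 (nat_lit 4) (.split (nat_lit 0xa) (nat_lit 6) (.split (nat_lit 0xa) (nat_lit 7) (.split (nat_lit 0xa) (nat_lit 8) (.split (nat_lit 0xa) (nat_lit 9) (.unj (nat_lit 0x105400) (nat_lit 0x10000000000010002000200000000000000000000) (nat_lit 0x155) (nat_lit 0x10002000300040003)) (.non (nat_lit 0) (nat_lit 6) (nat_lit 0x154540) (nat_lit 0x20003000200010000000100010002000000000000))) (.non (nat_lit 0) (nat_lit 6) (nat_lit 0x154150) (nat_lit 0x10002000200010000000000010002000100000000))) (.non (nat_lit 0) (nat_lit 6) (nat_lit 0x154554) (nat_lit 0x20005000400030000000100030006000400020000))) (.non (nat_lit 0) (nat_lit 7) (nat_lit 0x101400) (nat_lit 0x10000000000000001000100000000000000000000))) (.non (nat_lit 0) (nat_lit 6) (nat_lit 0x154550) (nat_lit 0x20003000200010000000100030004000200000000))) (.non (nat_lit 0) (nat_lit 6) (nat_lit 0x140150) (nat_lit 0x10001000000000000000000010002000100000000))) (.non (nat_lit 0) (nat_lit 6) (nat_lit 0x154550) (nat_lit 0x20003000200010000000100020004000300000000)))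 (.non (nat_lit 0) (nat_lit 6) (nat_lit 0x154154) (nat_lit 0x10003000200010000000000020004000300020000))) (.non (nat_lit 2) (nat_lit 7) (nat_lit 0x101405) (nat_lit 0x10000000000000001000100000000000000010001))))

noncomputable def t1541_13 : Tr := (.ex (nat_lit 0) (.split (nat_lit 4) (nat_lit 3) (.split (nat_lit 9) (nat_lit 3) (.split (nat_lit 9) (nat_lit 8) (.pd (.cons (nat_lit 2) (nat_lit 6) (nat_lit 0) (nat_lit 0x3980533000) (nat_lit 0xa2c28b71aef423f00000f423ff423f5b8d400000f423f54591) (.cons (nat_lit 2) (nat_lit 7) (nat_lit 0) (nat_lit 0x3905533000) (nat_lit 0xb71aef423f00000f423f54591f423f65b9700000f423f54591) (.cons (nat_lit 3) (nat_lit 6) (nat_lit 0) (nat_lit 0x8770540100) (nat_lit 0xf423fb71aea2c2800000f423ff423f00000f423fb71ae1f156) (.cons (nat_lit 3) (nat_lit 7) (nat_lit 0) (nat_lit 0x8805540100) (nat_lit 0xf423fb71ae00000f423f54591f423f00000f423fb71ae1f156) .nil)))) t1541_12) (.non (nat_lit 0) (nat_lit 6) (nat_lit 0x68140) (nat_lit 0x3000200010000000000010002000000000000))) (.non (nat_lit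 0) (nat_lit 6) (nat_lit 0xa8140) (nat_lit 0x3000200010000000000020004000000000000))) (.non (nat_lit 0) (nat_lit 6) (nat_lit 0x40250) (nat_lit 0x1000000000000000000010002000100000000))) (.split (nat_lit 0xa) (nat_lit 1) (.split (nat_lit 0xa) (nat_lit 2) (.split (nat_lit 0xa) (nat_lit 3) (.split (nat_lit 0xa) (nat_lit 4) (.split (nat_lit 0xa) (nat_lit 6) (.split (nat_lit 0xa) (nat_lit 7) (.split (nat_lit 0xa) (nat_lit 8) (.split (nat_lit 0xa) (nat_lit 9) (.split (nat_lit 0xa) (nat_lit 5) (.unj (nat_lit 0x100015) (nat_lit 0x10000000000000000000000000000000100020002) (nat_lit 0x55400) (nat_lit 0x1000200030004000300000000000000000000)) (.split (nat_lit 0xa) (nat_lit 0) (.split (nat_lit 0xa) (nat_lit 5) (.split (nat_lit 9) (nat_lit 3) (.split (nat_lit 9) (nat_lit 8) (.sup (nat_lit 0x10000000200050008000700000000000000000000) (nat_lit 0x2000000000000000000020005000600070005)) (.non (nat_lit 0) (nat_lit 6) (nat_lit 0x68140) (nat_lit 0x3000200010000000000010002000000000000))) (.non (nat_lit 0) (nat_lit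 6) (nat_lit 0xa8140) (nat_lit 0x3000200010000000000020004000000000000))) (.non (nat_lit 0) (nat_lit 7) (nat_lit 0x101400) (nat_lit 0x10000000000000001000100000000000000000000))) (.non (nat_lit 1) (nat_lit 7) (nat_lit 0x101401) (nat_lit 0x10000000000000001000100000000000000000001)))) (.non (nat_lit 0) (nat_lit 6) (nat_lit 0x150150) (nat_lit 0x10002000100000000000000010002000100000000))) (.non (nat_lit 0) (nat_lit 6) (nat_lit 0x154150) (nat_lit 0x10002000200010000000000010002000100000000))) (.star (nat_lit 0xa) (nat_lit 0) (nat_lit 7))) (.star (nat_lit 0xa) (nat_lit 0) (nat_lit 6))) (.non (nat_lit 0) (nat_lit 6) (nat_lit 0x150154) (nat_lit 0x10002000100000000000000020003000200010000))) (.non (nat_lit 0) (nat_lit 6) (nat_lit 0x140150) (nat_lit 0x10001000000000000000000010002000100000000))) (.non (nat_lit 0) (nat_lit 6) (nat_lit 0x140154) (nat_lit 0x10001000000000000000000010002000200010000))) (.non (nat_lit 0) (nat_lit 6) (nat_lit 0x154154) (nat_lit 0x10003000200010000000000020004000300020000))))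

noncomputable def t1541_14 : Tr := (.split (nat_lit 9) (nat_lit 3) (.split (nat_lit 9) (nat_lit 4) (.split (nat_lit 8) (nat_lit 4) (.split (nat_lit 7) (nat_lit 3) (.split (nat_lit 7) (nat_lit 4) .uj (.st (nat_lit 4) (nat_lit 0) (nat_lit 6) (nat_lit 0x54154) (nat_lit 0x1000200030000000000040003000200010000) (nat_lit 1) (nat_lit 2) t1541_6)) (.split (nat_lit 7) (nat_lit 4) (.split (nat_lit 7) (nat_lit 3) (.split (nat_lit 4) (nat_lit 3) (.par (nat_lit 0x15150) (nat_lit 0x100020001000000010002000100000000)) (.non (nat_lit 0) (nat_lit 6) (nat_lit 0x4250) (nat_lit 0x10000000000010002000100000000))) (.non (nat_lit 0) (nat_lit 6) (nat_lit 0xa8140) (nat_lit 0x1000200030000000000020004000000000000))) (.non (nat_lit 0) (nat_lit 6) (nat_lit 0x4140) (nat_lit 0x10000000000010001000000000000)))) (.split (nat_lit 7) (nat_lit 3) (.split (nat_lit 7) (nat_lit 4) (.st (nat_lit 2) (nat_lit 0) (nat_lit 6) (nat_lit 0x54154) (nat_lit 0x1000200010000000000020002000200010000) (nat_lit 1) (nat_lit 1) (.st (nat_lit 3) (nat_lit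 0) (nat_lit 6) (nat_lit 0x54150) (nat_lit 0x1000200010000000000020002000100000000) (nat_lit 1) (nat_lit 1) (.st (nat_lit 4) (nat_lit 0) (nat_lit 6) (nat_lit 0x54140) (nat_lit 0x1000200010000000000020001000000000000) (nat_lit 1) (nat_lit 1) (.st (nat_lit 8) (nat_lit 0) (nat_lit 6) (nat_lit 0x54100) (nat_lit 0x1000200010000000000010000000000000000) (nat_lit 1) (nat_lit 1) t1541_10)))) (.non (nat_lit 0) (nat_lit 6) (nat_lit 0x14100) (nat_lit 0x100010000000000010000000000000000))) (.non (nat_lit 0) (nat_lit 6) (nat_lit 0x14140) (nat_lit 0x100010000000000010001000000000000)))) (.split (nat_lit 8) (nat_lit 4) (.split (nat_lit 7) (nat_lit 3) (.split (nat_lit 7) (nat_lit 4) (.sup (nat_lit 0x100040007000a0008) (nat_lit 0x100040007000a000800000000000000000000)) (.non (nat_lit 0) (nat_lit 6) (nat_lit 0x54100) (nat_lit 0x1000100010000000000010000000000000000))) (.non (nat_lit 0) (nat_lit 6) (nat_lit 0x54140) (nat_lit 0x1000100010000000000010001000000000000))) (.non (nat_lit 0) (nat_lit 6) (nat_lit 0x50100)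 (nat_lit 0x1000100000000000000010000000000000000)))) (.split (nat_lit 9) (nat_lit 4) (.split (nat_lit 8) (nat_lit 4) (.split (nat_lit 7) (nat_lit 3) (.split (nat_lit 7) (nat_lit 4) (.st (nat_lit 1) (nat_lit 0) (nat_lit 6) (nat_lit 0x54154) (nat_lit 0x3000200010000000000020004000300020000) (nat_lit 1) (nat_lit 1) (.st (nat_lit 2) (nat_lit 0) (nat_lit 6) (nat_lit 0x40154) (nat_lit 0x1000000000000000000010002000200010000) (nat_lit 1) (nat_lit 1) (.st (nat_lit 3) (nat_lit 0) (nat_lit 6) (nat_lit 0x40150) (nat_lit 0x1000000000000000000010002000100000000) (nat_lit 1) (nat_lit 1) (.st (nat_lit 8) (nat_lit 0) (nat_lit 6) (nat_lit 0x54150) (nat_lit 0x2000200010000000000010002000100000000) (nat_lit 1) (nat_lit 1) (.st (nat_lit 9) (nat_lit 0) (nat_lit 6) (nat_lit 0x50150) (nat_lit 0x2000100000000000000010002000100000000) (nat_lit 1) (nat_lit 1) (.st (nat_lit 4) (nat_lit 0) (nat_lit 6) (nat_lit 0x50154) (nat_lit 0x2000100000000000000020003000200010000) (nat_lit 1) (nat_lit 1) t1541_13)))))) (.non (nat_lit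 0) (nat_lit 6) (nat_lit 0x54140) (nat_lit 0x1000100010000000000010001000000000000))) (.non (nat_lit 0) (nat_lit 6) (nat_lit 0x54040) (nat_lit 0x1000100010000000000000001000000000000))) (.non (nat_lit 0) (nat_lit 6) (nat_lit 0x50140) (nat_lit 0x1000100000000000000010001000000000000))) (.non (nat_lit 0) (nat_lit 6) (nat_lit 0x40140) (nat_lit 0x1000000000000000000010001000000000000))))

noncomputable def t1541_15 : Tr := (.split (nat_lit 4) (nat_lit 3) (.pd (.cons (nat_lit 0) (nat_lit 5) (nat_lit 0) (nat_lit 0x2987032110) (nat_lit 0x98965a2c28b71aef423f00000f423fb71ae411a60f41200000) (.cons (nat_lit 0) (nat_lit 8) (nat_lit 0) (nat_lit 0x2065532110) (nat_lit 0xf423f00000f423fb71ae1f156f423fb71ae65b9761a7900000) (.cons (nat_lit 0) (nat_lit 9) (nat_lit 0) (nat_lit 0x765532110) (nat_lit 0xf423fb71aea2c2804737f423fb71aea2c289896500000) (.cons (nat_lit 1) (nat_lit 5) (nat_lit 0) (nat_lit 0x2987032200) (nat_lit 0x98965a2c28b71aef423f00000f423fb71ae411a600000f423f) (.cons (nat_lit 1) (nat_lit 8) (nat_lit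 0) (nat_lit 0x2065532200) (nat_lit 0xf423f00000f423fb71ae1f156f423fb71ae65b9700000f423f) (.cons (nat_lit 1) (nat_lit 9) (nat_lit 0) (nat_lit 0x765532200) (nat_lit 0xf423fb71aea2c2804737f423fb71aea2c2800000f423f) (.cons (nat_lit 2) (nat_lit 5) (nat_lit 0) (nat_lit 0x8766033000) (nat_lit 0xf423fb71aea2c289896500000f423fb71ae00000f423f54591) (.cons (nat_lit 2) (nat_lit 8) (nat_lit 0) (nat_lit 0x9065533000) (nat_lit 0xf423f00000f423fb71ae1f156f423fb71ae00000f423f54591) (.cons (nat_lit 2) (nat_lit 9) (nat_lit 0) (nat_lit 0x765533000) (nat_lit 0xf423fb71aea2c2804737f423fb71ae00000f423f54591) (.cons (nat_lit 3) (nat_lit 8) (nat_lit 0) (nat_lit 0x2065540100) (nat_lit 0xf423f00000f423fb71ae1f156f423f00000b71aea2c2804737) (.cons (nat_lit 3) (nat_lit 9) (nat_lit 0) (nat_lit 0x765540100) (nat_lit 0xf423fb71aea2c2804737f423f00000f423fb71ae1f156) (.cons (nat_lit 4) (nat_lit 9) (nat_lit 0) (nat_lit 0x765502100) (nat_lit 0xf423fb71aea2c280473700000f423fb71aea2c2804737) .nil)))))))))))) (.leaf (.cons (nat_lit 0x50015)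 (nat_lit 0x2000100000000000000000000000300040003) (.cons (nat_lit 0x40055) (nat_lit 0x1000000000000000000000001000200020002) .nil)) (.cons (nat_lit 0x1111011110) (nat_lit 0x100001) (nat_lit 0xe) (nat_lit 0x4567032010) (.cons (nat_lit 0x1110011110) (nat_lit 0x1000001) (nat_lit 0xd) (nat_lit 0x4560032010) (.cons (nat_lit 0x1100011110) (nat_lit 0x10000001) (nat_lit 0xc) (nat_lit 0x4500032010) (.cons (nat_lit 0x1000011110) (nat_lit 0x100000001) (nat_lit 8) (nat_lit 0x2000043010) (.cons (nat_lit 0x1111011100) (nat_lit 0x100010) (nat_lit 5) (nat_lit 0x3456001200) (.cons (nat_lit 0x1110011100) (nat_lit 0x1000010) (nat_lit 4) (nat_lit 0x3450001200) (.cons (nat_lit 0x1100011100) (nat_lit 0x10000010) (nat_lit 3) (nat_lit 0x3400001200) (.cons (nat_lit 0x1000000111) (nat_lit 0x100001000) (nat_lit 0x10) (nat_lit 0x3000000210) .nil)))))))))) (.non (nat_lit 0) (nat_lit 6) (nat_lit 0x40254) (nat_lit 0x1000000000000000000010002000200010000)))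

noncomputable def t1541_16 : Tr := (.ex (nat_lit 6) (.ex (nat_lit 7) (.split (nat_lit 9) (nat_lit 2) t1541_15 (.non (nat_lit 0) (nat_lit 6) (nat_lit 0xa8050) (nat_lit 0x3000200010000000000000002000400000000))) (.split (nat_lit 0xa) (nat_lit 0) (.split (nat_lit 0xa) (nat_lit 1) (.split (nat_lit 0xa) (nat_lit 2) (.split (nat_lit 0xa) (nat_lit 3) (.split (nat_lit 0xa) (nat_lit 4) (.split (nat_lit 0xa) (nat_lit 5) (.split (nat_lit 0xa) (nat_lit 8) (.split (nat_lit 0xa) (nat_lit 9) (.split (nat_lit 0xa) (nat_lit 6) (.unj (nat_lit 0x155) (nat_lit 0x10002000300040003) (nat_lit 0x115400) (nat_lit 0x10000000100020002000200000000000000000000)) (.unj (nat_lit 0x105000) (nat_lit 0x10000000000010001000000000000000000000000) (nat_lit 0x155) (nat_lit 0x10002000300040003))) (.non (nat_lit 0) (nat_lit 6) (nat_lit 0x154000) (nat_lit 0x10001000100010000000000000000000000000000))) (.non (nat_lit 0) (nat_lit 6) (nat_lit 0x114000) (nat_lit 0x10000000100010000000000000000000000000000))) (.non (nat_lit 0) (nat_lit 6)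 (nat_lit 0x154554) (nat_lit 0x20005000400030000000100020004000600030000))) (.non (nat_lit 0) (nat_lit 6) (nat_lit 0x154150) (nat_lit 0x10001000100010000000000010001000100000000))) (.non (nat_lit 0) (nat_lit 6) (nat_lit 0x154050) (nat_lit 0x10001000100010000000000000001000100000000))) (.non (nat_lit 0) (nat_lit 6) (nat_lit 0x154010) (nat_lit 0x10001000100010000000000000000000100000000))) (.star (nat_lit 0xa) (nat_lit 1) (nat_lit 7))) (.star (nat_lit 0xa) (nat_lit 0) (nat_lit 7)))) (.split (nat_lit 0xa) (nat_lit 0) (.split (nat_lit 0xa) (nat_lit 1) (.split (nat_lit 0xa) (nat_lit 2) (.split (nat_lit 0xa) (nat_lit 3) (.split (nat_lit 0xa) (nat_lit 4) (.split (nat_lit 0xa) (nat_lit 5) (.split (nat_lit 0xa) (nat_lit 8) (.split (nat_lit 0xa) (nat_lit 9) (.split (nat_lit 0xa) (nat_lit 7) (.unj (nat_lit 0x105400) (nat_lit 0x10000000000010002000200000000000000000000) (nat_lit 0x155) (nat_lit 0x10002000300040003)) (.unj (nat_lit 0x105000) (nat_lit 0x10000000000010001000000000000000000000000) (nat_lit 0x155)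 (nat_lit 0x10002000300040003))) (.non (nat_lit 0) (nat_lit 6) (nat_lit 0x150054) (nat_lit 0x10002000100000000000000000001000200010000))) (.non (nat_lit 0) (nat_lit 6) (nat_lit 0x154054) (nat_lit 0x10002000200010000000000000001000200010000))) (.non (nat_lit 0) (nat_lit 7) (nat_lit 0x101400) (nat_lit 0x10000000000000001000100000000000000000000))) (.non (nat_lit 0) (nat_lit 6) (nat_lit 0x154154) (nat_lit 0x10003000200010000000000020003000400020000))) (.non (nat_lit 0) (nat_lit 6) (nat_lit 0x140154) (nat_lit 0x10001000000000000000000010002000200010000))) (.non (nat_lit 0) (nat_lit 6) (nat_lit 0x140054) (nat_lit 0x10001000000000000000000000001000200010000))) (.star (nat_lit 0xa) (nat_lit 1) (nat_lit 6))) (.star (nat_lit 0xa) (nat_lit 0) (nat_lit 6))))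

noncomputable def t1541_17 : Tr := (.ex (nat_lit 0) (.split (nat_lit 9) (nat_lit 8) (.pd (.cons (nat_lit 2) (nat_lit 6) (nat_lit 0x11000) (nat_lit 0x8770534000) (nat_lit 0xf423fb71aea2c2800000f423f000010000100000f423f54591) (.cons (nat_lit 2) (nat_lit 7) (nat_lit 0x11000) (nat_lit 0x8805534000) (nat_lit 0xf423fb71ae00000f423f54591000010000100000f423f54591) .nil)) (.ex (nat_lit 5) t1541_16 (.split (nat_lit 0xa) (nat_lit 0) (.split (nat_lit 0xa) (nat_lit 1) (.split (nat_lit 0xa) (nat_lit 2) (.split (nat_lit 0xa) (nat_lit 3) (.split (nat_lit 0xa) (nat_lit 4) (.split (nat_lit 0xa) (nat_lit 6) (.split (nat_lit 0xa) (nat_lit 7) (.split (nat_lit 0xa) (nat_lit 8) (.split (nat_lit 0xa) (nat_lit 9) (.unj (nat_lit 0x105400) (nat_lit 0x10000000000010002000200000000000000000000) (nat_lit 0x155) (nat_lit 0x10002000300040003)) (.non (nat_lit 0) (nat_lit 6) (nat_lit 0x154450) (nat_lit 0x20003000200010000000100000001000200000000))) (.non (nat_lit 0) (nat_lit 6) (nat_lit 0x154054) (nat_lit 0x10002000200010000000000000001000200010000)))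 (.non (nat_lit 0) (nat_lit 6) (nat_lit 0x154554) (nat_lit 0x20005000400030000000100020004000600030000))) (.non (nat_lit 0) (nat_lit 7) (nat_lit 0x101400) (nat_lit 0x10000000000000001000100000000000000000000))) (.non (nat_lit 0) (nat_lit 6) (nat_lit 0x154154) (nat_lit 0x10003000200010000000000020003000400020000))) (.non (nat_lit 0) (nat_lit 6) (nat_lit 0x154454) (nat_lit 0x20003000200010000000100000003000400020000))) (.non (nat_lit 0) (nat_lit 6) (nat_lit 0x150550) (nat_lit 0x20002000100000000000100010002000300000000))) (.non (nat_lit 0) (nat_lit 6) (nat_lit 0x154454) (nat_lit 0x20003000200010000000100000002000400030000))) (.non (nat_lit 2) (nat_lit 7) (nat_lit 0x101405) (nat_lit 0x10000000000000001000100000000000000010001))))) (.non (nat_lit 0) (nat_lit 6) (nat_lit 0x68050) (nat_lit 0x3000200010000000000000001000200000000))) (.split (nat_lit 0xa) (nat_lit 1) (.split (nat_lit 0xa) (nat_lit 2) (.split (nat_lit 0xa) (nat_lit 3) (.split (nat_lit 0xa) (nat_lit 4) (.split (nat_lit 0xa) (nat_lit 6) (.split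 (nat_lit 0xa) (nat_lit 7) (.split (nat_lit 0xa) (nat_lit 8) (.split (nat_lit 0xa) (nat_lit 9) (.split (nat_lit 0xa) (nat_lit 5) (.sup (nat_lit 0x5000000000000000000000000000000020009000a) (nat_lit 0x100040007000a000800000000000000000000)) (.split (nat_lit 0xa) (nat_lit 0) (.sup (nat_lit 0x2000000000005000a000900000000000000000000) (nat_lit 0x5000000000000000000000005000a000a0006)) (.non (nat_lit 1) (nat_lit 7) (nat_lit 0x101401) (nat_lit 0x10000000000000001000100000000000000000001)))) (.non (nat_lit 0) (nat_lit 6) (nat_lit 0x150054) (nat_lit 0x10002000100000000000000000001000200010000))) (.non (nat_lit 0) (nat_lit 6) (nat_lit 0x154054) (nat_lit 0x10002000200010000000000000001000200010000))) (.star (nat_lit 0xa) (nat_lit 0) (nat_lit 7))) (.star (nat_lit 0xa) (nat_lit 0) (nat_lit 6))) (.non (nat_lit 0) (nat_lit 6) (nat_lit 0x154154) (nat_lit 0x10003000200010000000000020003000400020000))) (.non (nat_lit 0) (nat_lit 6) (nat_lit 0x140154) (nat_lit 0x10001000000000000000000010002000200010000))) (.non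 (nat_lit 0) (nat_lit 6) (nat_lit 0x140054) (nat_lit 0x10001000000000000000000000001000200010000))) (.non (nat_lit 0) (nat_lit 6) (nat_lit 0x150154) (nat_lit 0x10002000100000000000000010002000300020000))))

noncomputable def t1541_18 : Tr := (.ex (nat_lit 9) (.split (nat_lit 9) (nat_lit 8) (.pd (.cons (nat_lit 0) (nat_lit 5) (nat_lit 0) (nat_lit 0x1987032110) (nat_lit 0x98965a2c28b71aef423f00000f423fb71aea2c2836ee300000) (.cons (nat_lit 1) (nat_lit 5) (nat_lit 0) (nat_lit 0x8766032200) (nat_lit 0xf423fb71aea2c289896500000f423fb71aea2c2800000f423f) (.cons (nat_lit 2) (nat_lit 7) (nat_lit 0) (nat_lit 0x1905533000) (nat_lit 0xb71aef423f00000f423f54591f423fb71ae00000a2c2804737) (.cons (nat_lit 2) (nat_lit 8) (nat_lit 0) (nat_lit 0x1065533000) (nat_lit 0xf423f00000f423fb71ae1f156f423fb71ae00000b71ae1f156) .nil)))) (.leaf (.cons (nat_lit 0x54005) (nat_lit 0x3000200010000000000000000000000040003) (.cons (nat_lit 0x40015) (nat_lit 0x1000000000000000000000000000100020002) .nil)) (.cons (nat_lit 0x1100000011)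 (nat_lit 0x10000100) (nat_lit 0x10) (nat_lit 0x2300000010) .nil))) (.non (nat_lit 0) (nat_lit 6) (nat_lit 0x68014) (nat_lit 0x3000200010000000000000000000100020000))) (.split (nat_lit 0xa) (nat_lit 0) (.split (nat_lit 0xa) (nat_lit 1) (.split (nat_lit 0xa) (nat_lit 2) (.split (nat_lit 0xa) (nat_lit 3) (.split (nat_lit 0xa) (nat_lit 4) (.split (nat_lit 0xa) (nat_lit 5) (.split (nat_lit 0xa) (nat_lit 6) (.split (nat_lit 0xa) (nat_lit 7) (.split (nat_lit 0xa) (nat_lit 8) (.split (nat_lit 0xa) (nat_lit 9) (.split (nat_lit 9) (nat_lit 8) (.par (nat_lit 0x155054) (nat_lit 0x20004000300020001000000000001000200030000)) (.non (nat_lit 0) (nat_lit 6) (nat_lit 0x160004) (nat_lit 0x10002000100000000000000000000000000010000))) (.non (nat_lit 0) (nat_lit 6) (nat_lit 0x250004) (nat_lit 0x10002000100000000000000000000000000010000))) (.non (nat_lit 0) (nat_lit 6) (nat_lit 0x150000) (nat_lit 0x10001000100000000000000000000000000000000))) (.non (nat_lit 0) (nat_lit 6) (nat_lit 0x154000) (nat_lit 0x10001000100010000000000000000000000000000)))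 (.non (nat_lit 0) (nat_lit 7) (nat_lit 0x151400) (nat_lit 0x30002000100000004000300000000000000000000))) (.non (nat_lit 0) (nat_lit 6) (nat_lit 0x154414) (nat_lit 0x20003000200010000000100000000000100020000))) (.non (nat_lit 0) (nat_lit 6) (nat_lit 0x154114) (nat_lit 0x20003000200010000000000010000000100020000))) (.non (nat_lit 0) (nat_lit 6) (nat_lit 0x140054) (nat_lit 0x10001000000000000000000000001000100010000))) (.non (nat_lit 0) (nat_lit 6) (nat_lit 0x140014) (nat_lit 0x10001000000000000000000000000000100010000))) (.non (nat_lit 0) (nat_lit 6) (nat_lit 0x140004) (nat_lit 0x10001000000000000000000000000000000010000))) (.non (nat_lit 3) (nat_lit 9) (nat_lit 0x100015) (nat_lit 0x10000000000000000000000000000000100020002))))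

noncomputable def t1541_19 : Tr := (.pd (.cons (nat_lit 0) (nat_lit 8) (nat_lit 0) (nat_lit 0x1065532110) (nat_lit 0xf423f00000f423fb71ae1f156f423fb71aea2c285b8d400000) (.cons (nat_lit 1) (nat_lit 8) (nat_lit 0) (nat_lit 0x9065532200) (nat_lit 0xf423f00000f423fb71ae1f156f423fb71aea2c2800000f423f) .nil)) (.ex (nat_lit 8) (.pd (.cons (nat_lit 0) (nat_lit 9) (nat_lit 0) (nat_lit 0x765532110) (nat_lit 0xf423fb71aea2c2804737f423fb71aea2c289896500000) (.cons (nat_lit 1) (nat_lit 9) (nat_lit 0) (nat_lit 0x765532200) (nat_lit 0xf423fb71aea2c2804737f423fb71aea2c2800000f423f) (.cons (nat_lit 2) (nat_lit 9) (nat_lit 0) (nat_lit 0x765533000) (nat_lit 0xf423fb71aea2c2804737f423fb71ae00000f423f54591) (.cons (nat_lit 3) (nat_lit 9) (nat_lit 0) (nat_lit 0x765540100) (nat_lit 0xf423fb71aea2c2804737f423f00000f423fb71ae1f156) (.cons (nat_lit 4) (nat_lit 9) (nat_lit 0) (nat_lit 0x765502100) (nat_lit 0xf423fb71aea2c280473700000f423fb71aea2c2804737) .nil))))) t1541_18) (.split (nat_lit 0xa) (nat_lit 1) (.split (nat_lit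 0xa) (nat_lit 2) (.split (nat_lit 0xa) (nat_lit 3) (.split (nat_lit 0xa) (nat_lit 4) (.split (nat_lit 0xa) (nat_lit 5) (.split (nat_lit 0xa) (nat_lit 6) (.split (nat_lit 0xa) (nat_lit 7) (.split (nat_lit 0xa) (nat_lit 9) (.split (nat_lit 0xa) (nat_lit 0) (.unj (nat_lit 0x155) (nat_lit 0x10002000300040003) (nat_lit 0x115400) (nat_lit 0x10000000200030004000300000000000000000000)) (.split (nat_lit 0xa) (nat_lit 8) (.split (nat_lit 9) (nat_lit 8) (.par (nat_lit 0x155154) (nat_lit 0x30005000600040002000000010002000300040000)) (.non (nat_lit 0) (nat_lit 6) (nat_lit 0x194000) (nat_lit 0x10001000200010000000000000000000000000000))) (.non (nat_lit 0) (nat_lit 6) (nat_lit 0x254000) (nat_lit 0x10001000200010000000000000000000000000000)))) (.non (nat_lit 0) (nat_lit 6) (nat_lit 0x150000) (nat_lit 0x10001000100000000000000000000000000000000))) (.non (nat_lit 0) (nat_lit 6) (nat_lit 0x114000) (nat_lit 0x10000000100010000000000000000000000000000))) (.non (nat_lit 0) (nat_lit 7) (nat_lit 0x151400) (nat_lit 0x30001000200000004000300000000000000000000)))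 (.non (nat_lit 0) (nat_lit 6) (nat_lit 0x154554) (nat_lit 0x40005000600030000000200010002000300040000))) (.non (nat_lit 0) (nat_lit 6) (nat_lit 0x150154) (nat_lit 0x10001000100000000000000010001000100010000))) (.non (nat_lit 0) (nat_lit 6) (nat_lit 0x154150) (nat_lit 0x20001000200010000000000010002000100000000))) (.non (nat_lit 0) (nat_lit 6) (nat_lit 0x150014) (nat_lit 0x10001000100000000000000000000000100010000))) (.non (nat_lit 0) (nat_lit 6) (nat_lit 0x150004) (nat_lit 0x10001000100000000000000000000000000010000)))))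

noncomputable def t1541_20 : Tr := (.ex (nat_lit 7) (.split (nat_lit 9) (nat_lit 1) (.split (nat_lit 4) (nat_lit 3) t1541_19 (.split (nat_lit 4) (nat_lit 3) (.pd (.cons (nat_lit 0) (nat_lit 8) (nat_lit 0) (nat_lit 0x1065532110) (nat_lit 0xf423f00000f423fb71ae1f156f423f7a11e7a11c3d08900000) (.cons (nat_lit 1) (nat_lit 8) (nat_lit 0) (nat_lit 0x9065532200) (nat_lit 0xf423f00000f423fb71ae1f156f423f7a11e7a11c00000f423f) .nil)) (.st (nat_lit 8) (nat_lit 0) (nat_lit 6) (nat_lit 0x54254) (nat_lit 0x2000200010000000000010002000200020000) (nat_lit 1) (nat_lit 1) (.pd (.cons (nat_lit 0) (nat_lit 9) (nat_lit 0) (nat_lit 0x765532110) (nat_lit 0xf423fb71aea2c2804737f423f7a11e7a11c7a11a00000) (.cons (nat_lit 1) (nat_lit 9) (nat_lit 0) (nat_lit 0x765532200) (nat_lit 0xf423fb71aea2c2804737f423f7a11e7a11c00000f423f) (.cons (nat_lit 2) (nat_lit 9) (nat_lit 0) (nat_lit 0x765533000) (nat_lit 0xf423fb71aea2c2804737f423f7a11e00000f423f54591) (.cons (nat_lit 3) (nat_lit 9) (nat_lit 0) (nat_lit 0x765540100) (nat_lit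 0xf423fb71aea2c2804737f423f00000f423fb71ae1f156) (.cons (nat_lit 4) (nat_lit 9) (nat_lit 0) (nat_lit 0x765502100) (nat_lit 0xf423fb71aea2c280473700000f423fb71aea2c2804737) .nil))))) (.st (nat_lit 9) (nat_lit 0) (nat_lit 6) (nat_lit 0x50254) (nat_lit 0x2000100000000000000010002000200020000) (nat_lit 1) (nat_lit 1) (.split (nat_lit 9) (nat_lit 8) (.pd (.cons (nat_lit 0) (nat_lit 5) (nat_lit 0) (nat_lit 0x1987032110) (nat_lit 0x98965a2c28b71aef423f00000f423f7a11e7a11c1869800000) (.cons (nat_lit 1) (nat_lit 5) (nat_lit 0) (nat_lit 0x8766032200) (nat_lit 0xf423fb71aea2c289896500000f423f7a11e7a11c00000f423f) (.cons (nat_lit 2) (nat_lit 7) (nat_lit 0) (nat_lit 0x1905533000) (nat_lit 0xb71aef423f00000f423f54591f423f7a11e00000a2c2804737) (.cons (nat_lit 2) (nat_lit 8) (nat_lit 0) (nat_lit 0x1065533000) (nat_lit 0xf423f00000f423fb71ae1f156f423f7a11e00000b71ae1f156) .nil)))) (.leaf (.cons (nat_lit 0x54005) (nat_lit 0x3000200010000000000000000000000040003) (.cons (nat_lit 0x40015) (nat_lit 0x1000000000000000000000000000100020002)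 .nil)) (.cons (nat_lit 0x1100000011) (nat_lit 0x10000100) (nat_lit 0x10) (nat_lit 0x2300000010) .nil))) (.non (nat_lit 0) (nat_lit 6) (nat_lit 0x68014) (nat_lit 0x3000200010000000000000000000100020000))))))) (.non (nat_lit 0) (nat_lit 6) (nat_lit 0x40154) (nat_lit 0x1000000000000000000030004000300020000)))) (.non (nat_lit 0) (nat_lit 6) (nat_lit 0xa8014) (nat_lit 0x3000200010000000000000000000200040000))) (.split (nat_lit 0xa) (nat_lit 0) (.split (nat_lit 0xa) (nat_lit 1) (.split (nat_lit 0xa) (nat_lit 2) (.split (nat_lit 0xa) (nat_lit 3) (.split (nat_lit 0xa) (nat_lit 4) (.split (nat_lit 0xa) (nat_lit 8) (.split (nat_lit 0xa) (nat_lit 9) (.split (nat_lit 0xa) (nat_lit 5) (.split (nat_lit 0xa) (nat_lit 6) (.unj (nat_lit 0x155) (nat_lit 0x10002000300040003) (nat_lit 0x115400) (nat_lit 0x10000000100020002000200000000000000000000)) (.unj (nat_lit 0x105000) (nat_lit 0x10000000000010001000000000000000000000000) (nat_lit 0x40015) (nat_lit 0x1000000000000000000000000000100020002))) (.split (nat_lit 0xa)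 (nat_lit 6) (.unj (nat_lit 0x40015) (nat_lit 0x1000000000000000000000000000100020002) (nat_lit 0x105400) (nat_lit 0x10000000000010001000100000000000000000000)) (.non (nat_lit 0) (nat_lit 7) (nat_lit 0x101400) (nat_lit 0x10000000000000001000100000000000000000000)))) (.non (nat_lit 0) (nat_lit 6) (nat_lit 0x154000) (nat_lit 0x10001000100010000000000000000000000000000))) (.non (nat_lit 0) (nat_lit 6) (nat_lit 0x114000) (nat_lit 0x10000000100010000000000000000000000000000))) (.non (nat_lit 0) (nat_lit 6) (nat_lit 0x154154) (nat_lit 0x10001000100010000000000010001000100010000))) (.non (nat_lit 0) (nat_lit 6) (nat_lit 0x154054) (nat_lit 0x10001000100010000000000000001000100010000))) (.non (nat_lit 0) (nat_lit 6) (nat_lit 0x154014) (nat_lit 0x10001000100010000000000000000000100010000))) (.star (nat_lit 0xa) (nat_lit 1) (nat_lit 7))) (.star (nat_lit 0xa) (nat_lit 0) (nat_lit 7))))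

noncomputable def t1541_21 : Tr := (.ex (nat_lit 5) (.ex (nat_lit 6) t1541_20 (.split (nat_lit 0xa) (nat_lit 0) (.split (nat_lit 0xa) (nat_lit 1) (.split (nat_lit 0xa) (nat_lit 2) (.split (nat_lit 0xa) (nat_lit 3) (.split (nat_lit 0xa) (nat_lit 4) (.split (nat_lit 0xa) (nat_lit 5) (.split (nat_lit 0xa) (nat_lit 8) (.split (nat_lit 0xa) (nat_lit 9) (.split (nat_lit 0xa) (nat_lit 7) (.unj (nat_lit 0x40015) (nat_lit 0x1000000000000000000000000000100020002) (nat_lit 0x105400) (nat_lit 0x10000000000010002000200000000000000000000)) (.unj (nat_lit 0x105000) (nat_lit 0x10000000000010001000000000000000000000000) (nat_lit 0x40015) (nat_lit 0x1000000000000000000000000000100020002))) (.non (nat_lit 0) (nat_lit 7) (nat_lit 0x151400) (nat_lit 0x30002000100000004000300000000000000000000))) (.non (nat_lit 0) (nat_lit 7) (nat_lit 0x151400) (nat_lit 0x30001000200000004000300000000000000000000))) (.non (nat_lit 0) (nat_lit 7) (nat_lit 0x101400) (nat_lit 0x10000000000000001000100000000000000000000))) (.non (nat_lit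 0) (nat_lit 7) (nat_lit 0x101540) (nat_lit 0x30000000000000004000300020001000000000000))) (.non (nat_lit 0) (nat_lit 7) (nat_lit 0x101540) (nat_lit 0x30000000000000004000300010002000000000000))) (.non (nat_lit 0) (nat_lit 7) (nat_lit 0x101450) (nat_lit 0x30000000000000004000300000001000200000000))) (.star (nat_lit 0xa) (nat_lit 1) (nat_lit 6))) (.star (nat_lit 0xa) (nat_lit 0) (nat_lit 6)))) (.split (nat_lit 0xa) (nat_lit 1) (.split (nat_lit 0xa) (nat_lit 2) (.split (nat_lit 0xa) (nat_lit 3) (.split (nat_lit 0xa) (nat_lit 4) (.split (nat_lit 0xa) (nat_lit 6) (.split (nat_lit 0xa) (nat_lit 8) (.split (nat_lit 0xa) (nat_lit 9) (.split (nat_lit 0xa) (nat_lit 0) (.split (nat_lit 0xa) (nat_lit 7) (.unj (nat_lit 0x40015) (nat_lit 0x1000000000000000000000000000100020002) (nat_lit 0x105400) (nat_lit 0x10000000000010002000200000000000000000000)) (.unj (nat_lit 0x40015) (nat_lit 0x1000000000000000000000000000100020002) (nat_lit 0x105400) (nat_lit 0x10000000000010001000100000000000000000000))) (.split (nat_lit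 0xa) (nat_lit 7) (.split (nat_lit 0xa) (nat_lit 0) (.sup (nat_lit 0x50000000000000000000000000005000a0006) (nat_lit 0x2000000000005000a000900000000000000000000)) (.non (nat_lit 1) (nat_lit 7) (nat_lit 0x101401) (nat_lit 0x10000000000000001000100000000000000000001))) (.star (nat_lit 0xa) (nat_lit 0) (nat_lit 7)))) (.non (nat_lit 0) (nat_lit 6) (nat_lit 0x154414) (nat_lit 0x20003000200010000000100000000000100020000))) (.non (nat_lit 0) (nat_lit 6) (nat_lit 0x154554) (nat_lit 0x40005000600030000000200010002000300040000))) (.non (nat_lit 0) (nat_lit 7) (nat_lit 0x101400) (nat_lit 0x10000000000000001000100000000000000000000))) (.non (nat_lit 0) (nat_lit 7) (nat_lit 0x101540) (nat_lit 0x30000000000000003000400020001000000000000))) (.non (nat_lit 0) (nat_lit 6) (nat_lit 0x154554) (nat_lit 0x40003000200010000000200030006000500040000))) (.non (nat_lit 0) (nat_lit 6) (nat_lit 0x140554) (nat_lit 0x20001000000000000000100010002000300020000))) (.non (nat_lit 0) (nat_lit 6) (nat_lit 0x150454) (nat_lit 0x20002000100000000000100000001000200030000))))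

noncomputable def t1541_22 : Tr := (.ex (nat_lit 7) (.pd (.cons (nat_lit 0) (nat_lit 5) (nat_lit 0) (nat_lit 0x31987032110) (nat_lit 0xf423f98965a2c28b71aef423f00000f423f7a11d7a11b1869700000) (.cons (nat_lit 0) (nat_lit 8) (nat_lit 0) (nat_lit 0x31065532110) (nat_lit 0xf423ff423f00000f423fb71ae1f156f423f7a11d7a11b3d08800000) (.cons (nat_lit 0) (nat_lit 9) (nat_lit 0) (nat_lit 0x30765532110) (nat_lit 0xf423f00000f423fb71aea2c2804737f423f7a11d7a11b7a11900000) (.cons (nat_lit 1) (nat_lit 5) (nat_lit 0) (nat_lit 0x38766032200) (nat_lit 0xf423ff423fb71aea2c289896500000f423f7a11d7a11b00000f423f) (.cons (nat_lit 1) (nat_lit 8) (nat_lit 0) (nat_lit 0x39065532200) (nat_lit 0xf423ff423f00000f423fb71ae1f156f423f7a11d7a11b00000f423f) (.cons (nat_lit 1) (nat_lit 9) (nat_lit 0) (nat_lit 0x30765532200) (nat_lit 0xf423f00000f423fb71aea2c2804737f423f7a11d7a11b00000f423f) (.cons (nat_lit 2) (nat_lit 8) (nat_lit 0) (nat_lit 0x31065533000) (nat_lit 0xf423ff423f00000f423fb71ae1f156f423f7a11d00000b71ae1f156) (.cons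 (nat_lit 2) (nat_lit 9) (nat_lit 0) (nat_lit 0x30765533000) (nat_lit 0xf423f00000f423fb71aea2c2804737f423f7a11d00000f423f54591) (.cons (nat_lit 3) (nat_lit 9) (nat_lit 0) (nat_lit 0xa0765540100) (nat_lit 0xf423f00000f423fb71aea2c2804737f423f00000f423fb71ae1f156) .nil))))))))) (.leaf (.cons (nat_lit 0x54005) (nat_lit 0x3000200010000000000000000000000040003) (.cons (nat_lit 0x40015) (nat_lit 0x1000000000000000000000000000100020002) (.cons (nat_lit 0x100055) (nat_lit 0x10000000000000000000000000002000300040003) .nil))) (.cons (nat_lit 0x1100000011) (nat_lit 0x10000100) (nat_lit 0x10) (nat_lit 0x2300000010) .nil))) (.split (nat_lit 0xb) (nat_lit 0) (.split (nat_lit 0xb) (nat_lit 1) (.split (nat_lit 0xb) (nat_lit 2) (.split (nat_lit 0xb) (nat_lit 3) (.split (nat_lit 0xb) (nat_lit 4) (.split (nat_lit 0xb) (nat_lit 8) (.split (nat_lit 0xb) (nat_lit 9) (.split (nat_lit 0xb) (nat_lit 0xa) (.split (nat_lit 0xb) (nat_lit 5) (.split (nat_lit 0xb) (nat_lit 6) (.unj (nat_lit 0x155) (nat_lit 0x10002000300040003)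 (nat_lit 0x415400) (nat_lit 0x100000000000100020002000200000000000000000000)) (.unj (nat_lit 0x405000) (nat_lit 0x100000000000000010001000000000000000000000000) (nat_lit 0x40015) (nat_lit 0x1000000000000000000000000000100020002))) (.split (nat_lit 0xb) (nat_lit 6) (.unj (nat_lit 0x40015) (nat_lit 0x1000000000000000000000000000100020002) (nat_lit 0x405400) (nat_lit 0x100000000000000010001000100000000000000000000)) (.non (nat_lit 0) (nat_lit 7) (nat_lit 0x401400) (nat_lit 0x100000000000000000001000100000000000000000000)))) (.non (nat_lit 0) (nat_lit 6) (nat_lit 0x554054) (nat_lit 0x100010001000100010000000000000001000100010000))) (.non (nat_lit 0) (nat_lit 6) (nat_lit 0x454000) (nat_lit 0x100000001000100010000000000000000000000000000))) (.non (nat_lit 0) (nat_lit 6) (nat_lit 0x414000) (nat_lit 0x100000000000100010000000000000000000000000000))) (.non (nat_lit 0) (nat_lit 6) (nat_lit 0x544154) (nat_lit 0x200020001000000010000000000030004000300020000))) (.non (nat_lit 0) (nat_lit 6) (nat_lit 0x500150)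 (nat_lit 0x100010000000000000000000000010002000100000000))) (.non (nat_lit 0) (nat_lit 6) (nat_lit 0x454014) (nat_lit 0x100000001000100010000000000000000000100010000))) (.star (nat_lit 0xb) (nat_lit 1) (nat_lit 7))) (.star (nat_lit 0xb) (nat_lit 0) (nat_lit 7))))

noncomputable def t1541_23 : Tr := (.ex (nat_lit 5) (.ex (nat_lit 6) t1541_22 (.split (nat_lit 0xb) (nat_lit 0) (.split (nat_lit 0xb) (nat_lit 1) (.split (nat_lit 0xb) (nat_lit 2) (.split (nat_lit 0xb) (nat_lit 3) (.split (nat_lit 0xb) (nat_lit 4) (.split (nat_lit 0xb) (nat_lit 5) (.split (nat_lit 0xb) (nat_lit 8) (.split (nat_lit 0xb) (nat_lit 9) (.split (nat_lit 0xb) (nat_lit 0xa) (.split (nat_lit 0xb) (nat_lit 7) (.unj (nat_lit 0x40015) (nat_lit 0x1000000000000000000000000000100020002) (nat_lit 0x405400) (nat_lit 0x100000000000000010002000200000000000000000000)) (.unj (nat_lit 0x405000) (nat_lit 0x100000000000000010001000000000000000000000000) (nat_lit 0x40015) (nat_lit 0x1000000000000000000000000000100020002))) (.non (nat_lit 0) (nat_lit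 6) (nat_lit 0x554154) (nat_lit 0x200040003000200010000000000030006000500040000))) (.non (nat_lit 0) (nat_lit 6) (nat_lit 0x550154) (nat_lit 0x100010002000100000000000000010002000200020000))) (.non (nat_lit 0) (nat_lit 6) (nat_lit 0x554154) (nat_lit 0x100010002000200010000000000010002000200020000))) (.non (nat_lit 0) (nat_lit 7) (nat_lit 0x401400) (nat_lit 0x100000000000000000001000100000000000000000000))) (.non (nat_lit 0) (nat_lit 6) (nat_lit 0x554154) (nat_lit 0x200030003000200010000000000040006000500040000))) (.non (nat_lit 0) (nat_lit 6) (nat_lit 0x500150) (nat_lit 0x100010000000000000000000000010002000100000000))) (.non (nat_lit 0) (nat_lit 6) (nat_lit 0x500154) (nat_lit 0x100010000000000000000000000010002000200010000))) (.star (nat_lit 0xb) (nat_lit 1) (nat_lit 6))) (.star (nat_lit 0xb) (nat_lit 0) (nat_lit 6)))) (.split (nat_lit 0xb) (nat_lit 0) (.split (nat_lit 0xb) (nat_lit 1) (.split (nat_lit 0xb) (nat_lit 2) (.split (nat_lit 0xb) (nat_lit 3) (.split (nat_lit 0xb) (nat_lit 4) (.split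 (nat_lit 0xb) (nat_lit 6) (.split (nat_lit 0xb) (nat_lit 8) (.split (nat_lit 0xb) (nat_lit 9) (.split (nat_lit 0xb) (nat_lit 0xa) (.split (nat_lit 0xb) (nat_lit 7) (.unj (nat_lit 0x40015) (nat_lit 0x1000000000000000000000000000100020002) (nat_lit 0x405400) (nat_lit 0x100000000000000010002000200000000000000000000)) (.unj (nat_lit 0x40015) (nat_lit 0x1000000000000000000000000000100020002) (nat_lit 0x405400) (nat_lit 0x100000000000000010001000100000000000000000000))) (.non (nat_lit 0) (nat_lit 6) (nat_lit 0x554154) (nat_lit 0x200040003000200010000000000030006000500040000))) (.non (nat_lit 0) (nat_lit 6) (nat_lit 0x454414) (nat_lit 0x200000003000200010000000100000000000100020000))) (.non (nat_lit 0) (nat_lit 6) (nat_lit 0x554454) (nat_lit 0x400010005000600030000000200000002000300040000))) (.non (nat_lit 0) (nat_lit 7) (nat_lit 0x401400) (nat_lit 0x100000000000000000001000100000000000000000000))) (.non (nat_lit 0) (nat_lit 6) (nat_lit 0x554154) (nat_lit 0x200030003000200010000000000040006000500040000)))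 (.non (nat_lit 0) (nat_lit 6) (nat_lit 0x500150) (nat_lit 0x100010000000000000000000000010002000100000000))) (.non (nat_lit 0) (nat_lit 6) (nat_lit 0x540454) (nat_lit 0x200010001000000000000000100000002000300020000))) (.non (nat_lit 0) (nat_lit 6) (nat_lit 0x554054) (nat_lit 0x200010003000200010000000000000002000300040000))) (.non (nat_lit 2) (nat_lit 7) (nat_lit 0x440005) (nat_lit 0x100000001000000000000000000000000000000020002))))

noncomputable def t1541_24 : Tr := (.ex (nat_lit 2) (.ex (nat_lit 3) t1541_21 (.split (nat_lit 0xa) (nat_lit 1) (.split (nat_lit 0xa) (nat_lit 2) (.split (nat_lit 0xa) (nat_lit 4) (.split (nat_lit 0xa) (nat_lit 5) (.split (nat_lit 0xa) (nat_lit 6) (.split (nat_lit 0xa) (nat_lit 7) (.split (nat_lit 0xa) (nat_lit 8) (.split (nat_lit 0xa) (nat_lit 9) (.split (nat_lit 0xa) (nat_lit 0) (.st (nat_lit 8) (nat_lit 0) (nat_lit 6) (nat_lit 0x154154) (nat_lit 0x10002000200010000000000010002000200020000) (nat_lit 1) (nat_lit 1) (.st (nat_lit 9) (nat_lit 0) (nat_lit 6) (nat_lit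 0x150154) (nat_lit 0x10002000100000000000000010002000200020000) (nat_lit 1) (nat_lit 1) (.split (nat_lit 9) (nat_lit 1) (.split (nat_lit 9) (nat_lit 8) (.split (nat_lit 4) (nat_lit 3) (.split (nat_lit 0xa) (nat_lit 3) (.pd (.cons (nat_lit 2) (nat_lit 7) (nat_lit 0) (nat_lit 0x31905533000) (nat_lit 0xf423fb71aef423f00000f423f54591f423f7a11d00000a2c2804737) .nil) t1541_23) (.non (nat_lit 0) (nat_lit 6) (nat_lit 0x200150) (nat_lit 0x10000000000000000000000010002000100000000))) (.non (nat_lit 0) (nat_lit 6) (nat_lit 0x100250) (nat_lit 0x10000000000000000000000010002000100000000))) (.non (nat_lit 0) (nat_lit 6) (nat_lit 0x68014) (nat_lit 0x3000200010000000000000000000100020000))) (.non (nat_lit 0) (nat_lit 6) (nat_lit 0xa8014) (nat_lit 0x3000200010000000000000000000200040000))))) (.sup (nat_lit 0x6000e00170020001a00000000000000000000) (nat_lit 0x50000000000000000000000030006000400020004))) (.non (nat_lit 0) (nat_lit 6) (nat_lit 0x140054) (nat_lit 0x10001000000000000000000000001000100010000))) (.non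 (nat_lit 0) (nat_lit 6) (nat_lit 0x154150) (nat_lit 0x20001000200010000000000010002000100000000))) (.non (nat_lit 0) (nat_lit 6) (nat_lit 0x154054) (nat_lit 0x10001000100010000000000000001000100010000))) (.non (nat_lit 0) (nat_lit 7) (nat_lit 0x101540) (nat_lit 0x30000000000000004000300010002000000000000))) (.non (nat_lit 0) (nat_lit 6) (nat_lit 0x154554) (nat_lit 0x40003000200010000000200030006000500040000))) (.non (nat_lit 0) (nat_lit 6) (nat_lit 0x100140) (nat_lit 0x10000000000000000000000010001000000000000))) (.non (nat_lit 0) (nat_lit 6) (nat_lit 0x100050) (nat_lit 0x10000000000000000000000000001000100000000))) (.non (nat_lit 0) (nat_lit 6) (nat_lit 0x100054) (nat_lit 0x10000000000000000000000000001000100010000)))) (.split (nat_lit 0xa) (nat_lit 1) (.split (nat_lit 0xa) (nat_lit 3) (.split (nat_lit 0xa) (nat_lit 4) (.split (nat_lit 0xa) (nat_lit 5) (.split (nat_lit 0xa) (nat_lit 6) (.split (nat_lit 0xa) (nat_lit 7) (.split (nat_lit 0xa) (nat_lit 8) (.split (nat_lit 0xa) (nat_lit 9) (.split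 (nat_lit 0xa) (nat_lit 0) (.split (nat_lit 0xa) (nat_lit 2) (.split (nat_lit 9) (nat_lit 1) (.sup (nat_lit 0x3000d00160020001a00000000000000000000) (nat_lit 0x40000000000000000000000030005000800060005)) (.non (nat_lit 0) (nat_lit 6) (nat_lit 0x1a0014) (nat_lit 0x10002000100000000000000000000000200030000))) (.non (nat_lit 0) (nat_lit 6) (nat_lit 0x200054) (nat_lit 0x10000000000000000000000000001000200010000))) (.sup (nat_lit 0x9000000000000000000000000000000080007000a) (nat_lit 0x100040007000a000800000000000000000000))) (.non (nat_lit 0) (nat_lit 6) (nat_lit 0x140014) (nat_lit 0x10001000000000000000000000000000100010000))) (.non (nat_lit 0) (nat_lit 6) (nat_lit 0x150014) (nat_lit 0x10001000100000000000000000000000100010000))) (.non (nat_lit 0) (nat_lit 6) (nat_lit 0x154014) (nat_lit 0x10001000100010000000000000000000100010000))) (.non (nat_lit 0) (nat_lit 7) (nat_lit 0x101450) (nat_lit 0x30000000000000004000300000001000200000000))) (.non (nat_lit 0) (nat_lit 6) (nat_lit 0x140554) (nat_lit 0x20001000000000000000100010002000300020000)))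 (.non (nat_lit 0) (nat_lit 6) (nat_lit 0x100150) (nat_lit 0x10000000000000000000000010001000100000000))) (.non (nat_lit 0) (nat_lit 6) (nat_lit 0x100050) (nat_lit 0x10000000000000000000000000001000100000000))) (.non (nat_lit 0) (nat_lit 6) (nat_lit 0x100014) (nat_lit 0x10000000000000000000000000000000100010000))))

noncomputable def t1541_25 : Tr := (.split (nat_lit 0xa) (nat_lit 5) (.split (nat_lit 0xa) (nat_lit 8) (.split (nat_lit 0xa) (nat_lit 9) (.split (nat_lit 0xa) (nat_lit 0) (.split (nat_lit 9) (nat_lit 1) (.sup (nat_lit 0x3000d00160020001a00000000000000000000) (nat_lit 0x30000000000000000000000020003000500060007)) (.non (nat_lit 0) (nat_lit 6) (nat_lit 0xa8014) (nat_lit 0x3000200010000000000000000000200040000))) (.split (nat_lit 0xa) (nat_lit 0) (.split (nat_lit 9) (nat_lit 1) (.sup (nat_lit 0x7000000000000000000000000000000000006000a) (nat_lit 0x100040007000a000800000000000000000000)) (.non (nat_lit 0) (nat_lit 6) (nat_lit 0xa8014) (nat_lit 0x3000200010000000000000000000200040000))) (.sup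 (nat_lit 0x8000000000000000000000000000000000004000a) (nat_lit 0x100040007000a000800000000000000000000)))) (.split (nat_lit 0xa) (nat_lit 9) (.split (nat_lit 9) (nat_lit 1) (.split (nat_lit 9) (nat_lit 8) (.par (nat_lit 0x155054) (nat_lit 0x20004000300020001000000000001000200030000)) (.non (nat_lit 0) (nat_lit 6) (nat_lit 0x160004) (nat_lit 0x10002000100000000000000000000000000010000))) (.non (nat_lit 0) (nat_lit 6) (nat_lit 0x2a0004) (nat_lit 0x10002000100000000000000000000000000020000))) (.non (nat_lit 0) (nat_lit 6) (nat_lit 0x250004) (nat_lit 0x10002000100000000000000000000000000010000)))) (.split (nat_lit 0xa) (nat_lit 9) (.split (nat_lit 0xa) (nat_lit 8) (.split (nat_lit 9) (nat_lit 1) (.split (nat_lit 9) (nat_lit 8) (.split (nat_lit 4) (nat_lit 3) (.par (nat_lit 0x155154) (nat_lit 0x30005000600040002000000010002000300040000)) (.non (nat_lit 0) (nat_lit 6) (nat_lit 0x154254) (nat_lit 0x10002000200010000000000010002000200020000))) (.non (nat_lit 0) (nat_lit 6) (nat_lit 0x194000) (nat_lit 0x10001000200010000000000000000000000000000)))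 (.non (nat_lit 0) (nat_lit 6) (nat_lit 0x2a8004) (nat_lit 0x10002000200010000000000000000000000020000))) (.non (nat_lit 0) (nat_lit 6) (nat_lit 0x254000) (nat_lit 0x10001000200010000000000000000000000000000))) (.non (nat_lit 0) (nat_lit 6) (nat_lit 0x150000) (nat_lit 0x10001000100000000000000000000000000000000)))) (.split (nat_lit 0xa) (nat_lit 8) (.split (nat_lit 0xa) (nat_lit 9) (.split (nat_lit 0xa) (nat_lit 0) (.sup (nat_lit 0x50000000000000000000000000005000a0006) (nat_lit 0x2000000000005000a000900000000000000000000)) (.non (nat_lit 1) (nat_lit 7) (nat_lit 0x101401) (nat_lit 0x10000000000000001000100000000000000000001))) (.non (nat_lit 0) (nat_lit 6) (nat_lit 0x154414) (nat_lit 0x20003000200010000000100000000000100020000))) (.non (nat_lit 0) (nat_lit 6) (nat_lit 0x154554) (nat_lit 0x40005000600030000000200010002000300040000))))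

noncomputable def t1541_26 : Tr := (.split (nat_lit 0xa) (nat_lit 2) (.split (nat_lit 0xa) (nat_lit 3) (.split (nat_lit 0xa) (nat_lit 4) t1541_25 (.split (nat_lit 0xa) (nat_lit 5) (.split (nat_lit 0xa) (nat_lit 8) (.split (nat_lit 0xa) (nat_lit 9) (.split (nat_lit 0xa) (nat_lit 0) (.split (nat_lit 0xa) (nat_lit 4) (.split (nat_lit 9) (nat_lit 1) (.sup (nat_lit 0x1000300060008000600000000000000000000) (nat_lit 0x10000000000000000000000010001000100010001)) (.non (nat_lit 0) (nat_lit 6) (nat_lit 0xa8014) (nat_lit 0x3000200010000000000000000000200040000))) (.non (nat_lit 1) (nat_lit 6) (nat_lit 0x1002a1) (nat_lit 0x40000000000000000000000030002000100000002))) (.sup (nat_lit 0x30007000c0010000d00000000000000000000) (nat_lit 0x20000000000000000000000020001000100010002))) (.non (nat_lit 0) (nat_lit 6) (nat_lit 0x154114) (nat_lit 0x20003000200010000000000010000000100020000))) (.non (nat_lit 0) (nat_lit 6) (nat_lit 0x150154) (nat_lit 0x10001000100000000000000010001000100010000))) (.non (nat_lit 0) (nat_lit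 7) (nat_lit 0x101540) (nat_lit 0x30000000000000003000400020001000000000000)))) (.split (nat_lit 0xa) (nat_lit 4) (.split (nat_lit 0xa) (nat_lit 5) (.split (nat_lit 0xa) (nat_lit 8) (.split (nat_lit 0xa) (nat_lit 9) (.sup (nat_lit 0x6000e00170020001a00000000000000000000) (nat_lit 0x50000000000000000000000030006000400020004)) (.non (nat_lit 0) (nat_lit 6) (nat_lit 0x140054) (nat_lit 0x10001000000000000000000000001000100010000))) (.non (nat_lit 0) (nat_lit 6) (nat_lit 0x154150) (nat_lit 0x20001000200010000000000010002000100000000))) (.non (nat_lit 0) (nat_lit 6) (nat_lit 0x154554) (nat_lit 0x40003000200010000000200030006000500040000))) (.non (nat_lit 0) (nat_lit 6) (nat_lit 0x100140) (nat_lit 0x10000000000000000000000010001000000000000)))) (.split (nat_lit 0xa) (nat_lit 3) (.split (nat_lit 0xa) (nat_lit 4) (.split (nat_lit 0xa) (nat_lit 5) (.split (nat_lit 0xa) (nat_lit 8) (.split (nat_lit 0xa) (nat_lit 9) (.sup (nat_lit 0x9000000000000000000000000000000080007000a) (nat_lit 0x100040007000a000800000000000000000000))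 (.non (nat_lit 0) (nat_lit 6) (nat_lit 0x140014) (nat_lit 0x10001000000000000000000000000000100010000))) (.non (nat_lit 0) (nat_lit 6) (nat_lit 0x150014) (nat_lit 0x10001000100000000000000000000000100010000))) (.non (nat_lit 0) (nat_lit 6) (nat_lit 0x140554) (nat_lit 0x20001000000000000000100010002000300020000))) (.non (nat_lit 0) (nat_lit 6) (nat_lit 0x100150) (nat_lit 0x10000000000000000000000010001000100000000))) (.non (nat_lit 0) (nat_lit 6) (nat_lit 0x100050) (nat_lit 0x10000000000000000000000000001000100000000))))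

noncomputable def t1541_27 : Tr := (.split (nat_lit 9) (nat_lit 1) (.split (nat_lit 9) (nat_lit 2) t1541_14 (.split (nat_lit 9) (nat_lit 3) (.split (nat_lit 9) (nat_lit 4) (.split (nat_lit 8) (nat_lit 4) (.split (nat_lit 7) (nat_lit 3) (.split (nat_lit 7) (nat_lit 4) (.st (nat_lit 1) (nat_lit 0) (nat_lit 6) (nat_lit 0x50154) (nat_lit 0x2000100000000000000010002000300020000) (nat_lit 1) (nat_lit 1) (.st (nat_lit 2) (nat_lit 0) (nat_lit 6) (nat_lit 0x40054) (nat_lit 0x1000000000000000000000001000200010000) (nat_lit 1) (nat_lit 1) (.st (nat_lit 3) (nat_lit 0) (nat_lit 6) (nat_lit 0x40154) (nat_lit 0x1000000000000000000010002000200010000) (nat_lit 1) (nat_lit 1) (.st (nat_lit 8) (nat_lit 0) (nat_lit 6) (nat_lit 0x54054) (nat_lit 0x2000200010000000000000001000200010000) (nat_lit 1) (nat_lit 1) (.st (nat_lit 9) (nat_lit 0) (nat_lit 6) (nat_lit 0x50054) (nat_lit 0x2000100000000000000000001000200010000) (nat_lit 1) (nat_lit 1) (.st (nat_lit 4) (nat_lit 0) (nat_lit 6) (nat_lit 0x54154) (nat_lit 0x3000200010000000000020003000400020000)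 (nat_lit 1) (nat_lit 1) t1541_17)))))) (.non (nat_lit 0) (nat_lit 6) (nat_lit 0x54150) (nat_lit 0x1000100010000000000010001000100000000))) (.non (nat_lit 0) (nat_lit 6) (nat_lit 0x54050) (nat_lit 0x1000100010000000000000001000100000000))) (.non (nat_lit 0) (nat_lit 6) (nat_lit 0x50150) (nat_lit 0x1000100000000000000010001000100000000))) (.non (nat_lit 0) (nat_lit 6) (nat_lit 0x40150) (nat_lit 0x1000000000000000000010001000100000000))) (.non (nat_lit 0) (nat_lit 6) (nat_lit 0x40050) (nat_lit 0x1000000000000000000000001000100000000)))) (.split (nat_lit 9) (nat_lit 2) (.split (nat_lit 9) (nat_lit 3) (.split (nat_lit 9) (nat_lit 4) (.split (nat_lit 8) (nat_lit 4) (.split (nat_lit 7) (nat_lit 3) (.split (nat_lit 7) (nat_lit 4) (.st (nat_lit 1) (nat_lit 0) (nat_lit 6) (nat_lit 0x54154) (nat_lit 0x3000200010000000000010002000300040000) (nat_lit 1) (nat_lit 2) (.ex (nat_lit 0) t1541_24 (.split (nat_lit 0xa) (nat_lit 1) (.split (nat_lit 0xa) (nat_lit 6) (.split (nat_lit 0xa) (nat_lit 7) t1541_26 (.star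 (nat_lit 0xa) (nat_lit 0) (nat_lit 7))) (.star (nat_lit 0xa) (nat_lit 0) (nat_lit 6))) (.non (nat_lit 0) (nat_lit 6) (nat_lit 0x154154) (nat_lit 0x20003000200010000000000010002000300040000))))) (.non (nat_lit 0) (nat_lit 6) (nat_lit 0x54154) (nat_lit 0x1000100010000000000010001000100010000))) (.non (nat_lit 0) (nat_lit 6) (nat_lit 0x54054) (nat_lit 0x1000100010000000000000001000100010000))) (.non (nat_lit 0) (nat_lit 6) (nat_lit 0x50154) (nat_lit 0x1000100000000000000010001000100010000))) (.non (nat_lit 0) (nat_lit 6) (nat_lit 0x40154) (nat_lit 0x1000000000000000000010001000100010000))) (.non (nat_lit 0) (nat_lit 6) (nat_lit 0x40054) (nat_lit 0x1000000000000000000000001000100010000))) (.non (nat_lit 0) (nat_lit 6) (nat_lit 0x40014) (nat_lit 0x1000000000000000000000000000100010000))))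

noncomputable def t1541_28 : Tr := (.split (nat_lit 9) (nat_lit 8) (.split (nat_lit 9) (nat_lit 0) (.pd (.cons (nat_lit 0) (nat_lit 5) (nat_lit 0) (nat_lit 0x8766032110) (nat_lit 0xf423fb71aea2c289896500000f423fb71aea2c289896500000) (.cons (nat_lit 1) (nat_lit 5) (nat_lit 0) (nat_lit 0x987032200) (nat_lit 0x98965a2c28b71aef423f00000f423fb71aea2c2800000927bd) (.cons (nat_lit 2) (nat_lit 7) (nat_lit 0) (nat_lit 0x905533000) (nat_lit 0xb71aef423f00000f423f54591f423fb71ae00000f423f02f7a) (.cons (nat_lit 2) (nat_lit 8) (nat_lit 0) (nat_lit 0x65533000) (nat_lit 0xf423f00000f423fb71ae1f156f423fb71ae00000f423f17500) .nil)))) (.leaf (.cons (nat_lit 0x54005) (nat_lit 0x3000200010000000000000000000000030004) (.cons (nat_lit 0x40015) (nat_lit 0x1000000000000000000000000000100020002) .nil)) (.cons (nat_lit 0x1100000001) (nat_lit 0x10000010) (nat_lit 1) (nat_lit 0x1200000000) (.cons (nat_lit 0x1100000011) (nat_lit 0x10000100) (nat_lit 0x10) (nat_lit 0x2300000001) .nil)))) (.split (nat_lit 9) (nat_lit 0) (.pd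 (.cons (nat_lit 0) (nat_lit 5) (nat_lit 0) (nat_lit 0x8766032110) (nat_lit 0xf423fb71aea2c289896500000f423fb71aea2c289896500000) (.cons (nat_lit 1) (nat_lit 5) (nat_lit 0) (nat_lit 0x987032200) (nat_lit 0x98965a2c28b71aef423f00000f423fb71aea2c280000030d3b) .nil)) (.leaf (.cons (nat_lit 0x40005) (nat_lit 0x1000000000000000000000000000000010001) .nil) (.cons (nat_lit 0x1100000001) (nat_lit 0x10000010) (nat_lit 6) (nat_lit 0x1200000000) .nil))) (.pd (.cons (nat_lit 0) (nat_lit 5) (nat_lit 0) (nat_lit 0x8766032110) (nat_lit 0xf423fb71aea2c289896500000f423fb71aea2c289896500000) .nil) (.split (nat_lit 9) (nat_lit 0) (.leaf (.cons (nat_lit 0x55001) (nat_lit 0x4000300020001000000000000000000000003) (.cons (nat_lit 0x40005) (nat_lit 0x1000000000000000000000000000000010001) .nil)) (.cons (nat_lit 0x1110000001) (nat_lit 0x1000010) (nat_lit 0x10) (nat_lit 0x1230000000) .nil)) (.non (nat_lit 1) (nat_lit 6) (nat_lit 0xf0001) (nat_lit 0x2000100000000000000000000000000000003)))))) (.split (nat_lit 9) (nat_lit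 8) (.split (nat_lit 9) (nat_lit 0) (.pd (.cons (nat_lit 0) (nat_lit 5) (nat_lit 0) (nat_lit 0x8766032110) (nat_lit 0xf423f7a11e7a11c7a11a00000f423fb71aea2c289896500000) (.cons (nat_lit 2) (nat_lit 8) (nat_lit 0) (nat_lit 0x65533000) (nat_lit 0xf423f00000f423fb71ae1f156f423fb71ae00000f423f17500) .nil)) (.leaf (.cons (nat_lit 0x6a001) (nat_lit 0x4000300020001000000000000000000000002) (.cons (nat_lit 0x50005) (nat_lit 0x1000100000000000000000000000000010001) (.cons (nat_lit 0x40015) (nat_lit 0x1000000000000000000000000000100020002) .nil))) (.cons (nat_lit 0x1100000001) (nat_lit 0x10000010) (nat_lit 6) (nat_lit 0x1000000002) .nil))) (.non (nat_lit 1) (nat_lit 6) (nat_lit 0x90001) (nat_lit 0x1000100000000000000000000000000000001))) (.non (nat_lit 1) (nat_lit 6) (nat_lit 0x54001) (nat_lit 0x2000200010000000000000000000000000001))))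

noncomputable def t1541_29 : Tr := (.ex (nat_lit 0xa) (.pd (.cons (nat_lit 2) (nat_lit 8) (nat_lit 0) (nat_lit 0x90065533000) (nat_lit 0xf423fb71ae00000f423fb71ae1f156f423fb71ae00000f423f02f7a) .nil) (.leaf (.cons (nat_lit 0x150005) (nat_lit 0x10002000100000000000000000000000000020002) (.cons (nat_lit 0x40015) (nat_lit 0x1000000000000000000000000000100020002) .nil)) (.cons (nat_lit 0x11111000001) (nat_lit 0x100010) (nat_lit 9) (nat_lit 0x20345000001) (.cons (nat_lit 0x11110000001) (nat_lit 0x1000010) (nat_lit 8) (nat_lit 0x20340000001) (.cons (nat_lit 0x11100000001) (nat_lit 0x10000010) (nat_lit 7) (nat_lit 0x30200000001) (.cons (nat_lit 0x11000000001) (nat_lit 0x100000010) (nat_lit 1) (nat_lit 0x21000000000) .nil)))))) (.split (nat_lit 0xb) (nat_lit 0) (.split (nat_lit 0xb) (nat_lit 1) (.split (nat_lit 0xb) (nat_lit 2) (.split (nat_lit 0xb) (nat_lit 3) (.split (nat_lit 0xb) (nat_lit 4) (.split (nat_lit 0xb) (nat_lit 5) (.split (nat_lit 0xb) (nat_lit 6) (.split (nat_lit 0xb) (nat_lit 7) (.split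 (nat_lit 0xb) (nat_lit 8) (.split (nat_lit 0xb) (nat_lit 9) (.st (nat_lit 0xa) (nat_lit 1) (nat_lit 6) (nat_lit 0x550001) (nat_lit 0x100020002000100000000000000000000000000000001) (nat_lit 1) (nat_lit 1) (.st (nat_lit 0xb) (nat_lit 1) (nat_lit 5) (nat_lit 0x555001) (nat_lit 0x200030004000300020001000000000000000000000002) (nat_lit 1) (nat_lit 1) (.split (nat_lit 0xb) (nat_lit 0xa) (.leaf (.cons (nat_lit 0x540005) (nat_lit 0x100020003000000000000000000000000000000030004) .nil) (.cons (nat_lit 0x111111000001) (nat_lit 0x100010) (nat_lit 0xd) (nat_lit 0x320456000001) (.cons (nat_lit 0x111110000001) (nat_lit 0x1000010) (nat_lit 0xc) (nat_lit 0x540230000001) (.cons (nat_lit 0x111100000001) (nat_lit 0x10000010) (nat_lit 8) (nat_lit 0x430200000001) .nil)))) (.non (nat_lit 1) (nat_lit 6) (nat_lit 0x950001) (nat_lit 0x100020002000100000000000000000000000000000001))))) (.non (nat_lit 0) (nat_lit 6) (nat_lit 0x540000) (nat_lit 0x100010001000000000000000000000000000000000000))) (.non (nat_lit 0) (nat_lit 6)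 (nat_lit 0x550000) (nat_lit 0x100010001000100000000000000000000000000000000))) (.non (nat_lit 0) (nat_lit 6) (nat_lit 0x554000) (nat_lit 0x100010001000100010000000000000000000000000000))) (.non (nat_lit 0) (nat_lit 7) (nat_lit 0x541400) (nat_lit 0x300020001000000000004000300000000000000000000))) (.non (nat_lit 0) (nat_lit 7) (nat_lit 0x541400) (nat_lit 0x300020001000000000003000400000000000000000000))) (.non (nat_lit 1) (nat_lit 6) (nat_lit 0x554151) (nat_lit 0x400050006000400020000000000030002000100000003))) (.non (nat_lit 0) (nat_lit 6) (nat_lit 0x554154) (nat_lit 0x500040003000200010000000000030006000400020000))) (.non (nat_lit 0) (nat_lit 6) (nat_lit 0x554154) (nat_lit 0x500040003000200010000000000020004000600030000))) (.non (nat_lit 3) (nat_lit 9) (nat_lit 0x400015) (nat_lit 0x100000000000000000000000000000000000100020002))) (.non (nat_lit 1) (nat_lit 6) (nat_lit 0x540001) (nat_lit 0x100010001000000000000000000000000000000000001))))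

noncomputable def t1541_30 : Tr := (.split (nat_lit 0xa) (nat_lit 0) (.split (nat_lit 0xa) (nat_lit 1) (.split (nat_lit 0xa) (nat_lit 2) (.split (nat_lit 0xa) (nat_lit 3) (.split (nat_lit 0xa) (nat_lit 5) (.split (nat_lit 0xa) (nat_lit 6) (.split (nat_lit 0xa) (nat_lit 7) (.split (nat_lit 0xa) (nat_lit 8) (.split (nat_lit 0xa) (nat_lit 4) (.st (nat_lit 9) (nat_lit 1) (nat_lit 6) (nat_lit 0x150001) (nat_lit 0x10002000100000000000000000000000000000001) (nat_lit 1) (nat_lit 1) (.split (nat_lit 9) (nat_lit 8) (.split (nat_lit 0xa) (nat_lit 9) (.split (nat_lit 9) (nat_lit 0) (.pd (.cons (nat_lit 0) (nat_lit 5) (nat_lit 0) (nat_lit 0x98766032110) (nat_lit 0xf423fb71aea2c2898965927bd00000f423fb71aea2c289896500000) (.cons (nat_lit 1) (nat_lit 5) (nat_lit 0) (nat_lit 0x90987032200) (nat_lit 0xf423f5b8d4a2c28b71aef423f00000f423fb71aea2c28000005160d) .nil)) t1541_29) (.non (nat_lit 1) (nat_lit 6) (nat_lit 0x2a0001) (nat_lit 0x10002000100000000000000000000000000000002))) (.non (nat_lit 1) (nat_lit 6) (nat_lit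 0x250001) (nat_lit 0x10002000100000000000000000000000000000001))) (.non (nat_lit 1) (nat_lit 6) (nat_lit 0x160001) (nat_lit 0x10002000100000000000000000000000000000001)))) (.split (nat_lit 0xa) (nat_lit 4) (.split (nat_lit 0xa) (nat_lit 9) (.split (nat_lit 9) (nat_lit 0) (.split (nat_lit 9) (nat_lit 8) (.par (nat_lit 0x155141) (nat_lit 0x30004000300020001000000020001000000000002)) (.non (nat_lit 0) (nat_lit 6) (nat_lit 0x168100) (nat_lit 0x20003000200010000000000010000000000000000))) (.non (nat_lit 1) (nat_lit 6) (nat_lit 0x2a0001) (nat_lit 0x10002000100000000000000000000000000000002))) (.non (nat_lit 0) (nat_lit 6) (nat_lit 0x1a8100) (nat_lit 0x40003000200010000000000020000000000000000))) (.non (nat_lit 0) (nat_lit 6) (nat_lit 0x2a0140) (nat_lit 0x30002000100000000000000040002000000000000)))) (.non (nat_lit 0) (nat_lit 6) (nat_lit 0x150000) (nat_lit 0x10001000100000000000000000000000000000000))) (.non (nat_lit 0) (nat_lit 6) (nat_lit 0x154000) (nat_lit 0x10001000100010000000000000000000000000000)))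 (.non (nat_lit 0) (nat_lit 7) (nat_lit 0x151400) (nat_lit 0x30002000100000004000300000000000000000000))) (.non (nat_lit 0) (nat_lit 7) (nat_lit 0x151400) (nat_lit 0x30002000100000003000400000000000000000000))) (.non (nat_lit 1) (nat_lit 6) (nat_lit 0x150151) (nat_lit 0x20002000100000000000000010002000100000001))) (.non (nat_lit 4) (nat_lit 9) (nat_lit 0x100055) (nat_lit 0x10000000000000000000000000001000200020002))) (.non (nat_lit 3) (nat_lit 9) (nat_lit 0x100015) (nat_lit 0x10000000000000000000000000000000100020002))) (.non (nat_lit 1) (nat_lit 6) (nat_lit 0x140001) (nat_lit 0x10001000000000000000000000000000000000001)))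

noncomputable def t1541_31 : Tr := (.ex (nat_lit 8) (.pd (.cons (nat_lit 0) (nat_lit 9) (nat_lit 0) (nat_lit 0x765532110) (nat_lit 0xf423fb71aea2c2804737f423fb71aea2c289896500000) (.cons (nat_lit 1) (nat_lit 9) (nat_lit 0) (nat_lit 0x765532200) (nat_lit 0xf423fb71aea2c2804737f423fb71aea2c2800000f423f) (.cons (nat_lit 2) (nat_lit 9) (nat_lit 0) (nat_lit 0x765533000) (nat_lit 0xf423fb71aea2c2804737f423fb71ae00000f423f54591) (.cons (nat_lit 3) (nat_lit 9) (nat_lit 0) (nat_lit 0x765540100) (nat_lit 0xf423fb71aea2c2804737f423f00000f423fb71ae1f156) (.cons (nat_lit 4) (nat_lit 9) (nat_lit 0) (nat_lit 0x765502100) (nat_lit 0xf423fb71aea2c280473700000f423fb71aea2c2804737) .nil))))) (.ex (nat_lit 9) t1541_28 t1541_30)) (.split (nat_lit 0xa) (nat_lit 0) (.split (nat_lit 0xa) (nat_lit 2) (.split (nat_lit 0xa) (nat_lit 3) (.split (nat_lit 0xa) (nat_lit 5) (.split (nat_lit 0xa) (nat_lit 6) (.split (nat_lit 0xa) (nat_lit 7) (.split (nat_lit 0xa) (nat_lit 9) (.split (nat_lit 0xa) (nat_lit 1) (.split (nat_lit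 0xa) (nat_lit 4) (.unj (nat_lit 0x155) (nat_lit 0x10002000300040003) (nat_lit 0x115400) (nat_lit 0x10000000200030004000300000000000000000000)) (.sup (nat_lit 0x100040007000a0008) (nat_lit 0x1000000040007000a000800000000000000000000))) (.split (nat_lit 0xa) (nat_lit 4) (.split (nat_lit 0xa) (nat_lit 1) (.split (nat_lit 0xa) (nat_lit 8) (.split (nat_lit 9) (nat_lit 8) (.par (nat_lit 0x155154) (nat_lit 0x50003000600040002000000010002000300040000)) (.non (nat_lit 0) (nat_lit 6) (nat_lit 0x194000) (nat_lit 0x10001000200010000000000000000000000000000))) (.non (nat_lit 0) (nat_lit 6) (nat_lit 0x254000) (nat_lit 0x10001000200010000000000000000000000000000))) (.non (nat_lit 0) (nat_lit 6) (nat_lit 0x2a8004) (nat_lit 0x20001000200010000000000000000000000020000))) (.non (nat_lit 0) (nat_lit 6) (nat_lit 0x154104) (nat_lit 0x20001000200010000000000010000000000010000)))) (.non (nat_lit 0) (nat_lit 6) (nat_lit 0x150000) (nat_lit 0x10001000100000000000000000000000000000000))) (.non (nat_lit 0) (nat_lit 6) (nat_lit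 0x114000) (nat_lit 0x10000000100010000000000000000000000000000))) (.non (nat_lit 0) (nat_lit 7) (nat_lit 0x151400) (nat_lit 0x30001000200000004000300000000000000000000))) (.non (nat_lit 0) (nat_lit 7) (nat_lit 0x151400) (nat_lit 0x30001000200000003000400000000000000000000))) (.non (nat_lit 0) (nat_lit 6) (nat_lit 0x154150) (nat_lit 0x20001000200010000000000010002000100000000))) (.non (nat_lit 0) (nat_lit 6) (nat_lit 0x154054) (nat_lit 0x20001000200010000000000000001000200010000))) (.non (nat_lit 1) (nat_lit 6) (nat_lit 0x150001) (nat_lit 0x10001000100000000000000000000000000000001))))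

noncomputable def t1541_32 : Tr := (.split (nat_lit 4) (nat_lit 3) (.pd (.cons (nat_lit 0) (nat_lit 8) (nat_lit 0) (nat_lit 0x9065532110) (nat_lit 0xf423f00000f423fb71ae1f156f423f7a11e7a11c7a11a00000) (.cons (nat_lit 1) (nat_lit 8) (nat_lit 0x1000000001) (nat_lit 0x65532209) (nat_lit 0x100000f423fb71ae1f156f423f7a11e7a11c0000000001) .nil)) (.st (nat_lit 8) (nat_lit 1) (nat_lit 6) (nat_lit 0xa8001) (nat_lit 0x2000200010000000000000000000000000002) (nat_lit 2) (nat_lit 1) (.pd (.cons (nat_lit 0) (nat_lit 9) (nat_lit 0) (nat_lit 0x765532110) (nat_lit 0xf423fb71aea2c2804737f423f7a11e7a11c7a11a00000) (.cons (nat_lit 1) (nat_lit 9) (nat_lit 0) (nat_lit 0x765532200) (nat_lit 0xf423fb71aea2c2804737f423f7a11e7a11c00000f423f) (.cons (nat_lit 2) (nat_lit 9) (nat_lit 0) (nat_lit 0x765533000) (nat_lit 0xf423fb71aea2c2804737f423f7a11e00000f423f54591) (.cons (nat_lit 3) (nat_lit 9) (nat_lit 0) (nat_lit 0x765540100) (nat_lit 0xf423fb71aea2c2804737f423f00000f423fb71ae1f156) (.cons (nat_lit 4) (nat_lit 9) (nat_lit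 0) (nat_lit 0x765502100) (nat_lit 0xf423fb71aea2c280473700000f423fb71aea2c2804737) .nil))))) (.st (nat_lit 9) (nat_lit 1) (nat_lit 6) (nat_lit 0xa0001) (nat_lit 0x2000100000000000000000000000000000002) (nat_lit 2) (nat_lit 1) (.split (nat_lit 9) (nat_lit 8) (.split (nat_lit 9) (nat_lit 0) (.pd (.cons (nat_lit 0) (nat_lit 5) (nat_lit 0) (nat_lit 0x8766032110) (nat_lit 0xf423fb71aea2c289896500000f423f7a11e7a11c7a11a00000) (.cons (nat_lit 1) (nat_lit 5) (nat_lit 0) (nat_lit 0x987032200) (nat_lit 0x98965a2c28b71aef423f00000f423f7a11e7a11c0000030d3b) .nil)) (.leaf (.cons (nat_lit 0x40005) (nat_lit 0x1000000000000000000000000000000010001) .nil) (.cons (nat_lit 0x1100000001) (nat_lit 0x10000010) (nat_lit 6) (nat_lit 0x1200000000) .nil))) (.pd (.cons (nat_lit 0) (nat_lit 5) (nat_lit 0) (nat_lit 0x8766032110) (nat_lit 0xf423fb71aea2c289896500000f423f7a11e7a11c7a11a00000) .nil) (.st (nat_lit 4) (nat_lit 0) (nat_lit 6) (nat_lit 0x254) (nat_lit 0x20003000200010000) (nat_lit 2) (nat_lit 1) (.split (nat_lit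 9) (nat_lit 0) (.leaf (.cons (nat_lit 0x55001) (nat_lit 0x4000300020001000000000000000000000003) (.cons (nat_lit 0x40005) (nat_lit 0x1000000000000000000000000000000010001) .nil)) (.cons (nat_lit 0x1110000001) (nat_lit 0x1000010) (nat_lit 0x10) (nat_lit 0x1230000000) .nil)) (.non (nat_lit 1) (nat_lit 6) (nat_lit 0xf0001) (nat_lit 0x2000100000000000000000000000000000003)))))) (.non (nat_lit 1) (nat_lit 6) (nat_lit 0x90001) (nat_lit 0x1000100000000000000000000000000000001))))))) (.sup (nat_lit 0x8000a000700040001) (nat_lit 0x100040007000a000800000000000000000000)))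

noncomputable def t1541_33 : Tr := (.split (nat_lit 0xa) (nat_lit 9) (.split (nat_lit 0xa) (nat_lit 2) (.split (nat_lit 0xa) (nat_lit 3) (.split (nat_lit 0xa) (nat_lit 4) (.split (nat_lit 0xa) (nat_lit 5) (.split (nat_lit 0xa) (nat_lit 6) (.unj (nat_lit 0x155) (nat_lit 0x10002000300040003) (nat_lit 0x115400) (nat_lit 0x10000000100020002000200000000000000000000)) (.unj (nat_lit 0x105000) (nat_lit 0x10000000000010001000000000000000000000000) (nat_lit 0x40015) (nat_lit 0x1000000000000000000000000000100020002))) (.split (nat_lit 0xa) (nat_lit 6) (.unj (nat_lit 0x40015) (nat_lit 0x1000000000000000000000000000100020002) (nat_lit 0x105400) (nat_lit 0x10000000000010001000100000000000000000000)) (.non (nat_lit 0) (nat_lit 7) (nat_lit 0x101400) (nat_lit 0x10000000000000001000100000000000000000000)))) (.split (nat_lit 0xa) (nat_lit 5) (.split (nat_lit 0xa) (nat_lit 6) (.unj (nat_lit 0x40015) (nat_lit 0x1000000000000000000000000000100020002) (nat_lit 0x105500) (nat_lit 0x20000000000030004000300010000000000000000))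 (.non (nat_lit 0) (nat_lit 7) (nat_lit 0x101540) (nat_lit 0x30000000000000004000300020001000000000000))) (.non (nat_lit 0) (nat_lit 6) (nat_lit 0x154550) (nat_lit 0x40001000200030000000200030002000100000000)))) (.split (nat_lit 0xa) (nat_lit 4) (.split (nat_lit 0xa) (nat_lit 5) (.split (nat_lit 0xa) (nat_lit 6) (.sup (nat_lit 0x500000000000000000000000000020009000a) (nat_lit 0x4000000000007000a000800000001000000000000)) (.non (nat_lit 0) (nat_lit 7) (nat_lit 0x101540) (nat_lit 0x30000000000000004000300010002000000000000))) (.non (nat_lit 0) (nat_lit 6) (nat_lit 0x104550) (nat_lit 0x20000000000010000000100010002000100000000))) (.non (nat_lit 0) (nat_lit 6) (nat_lit 0x100140) (nat_lit 0x10000000000000000000000010001000000000000)))) (.split (nat_lit 0xa) (nat_lit 3) (.split (nat_lit 0xa) (nat_lit 4) (.split (nat_lit 0xa) (nat_lit 5) (.split (nat_lit 0xa) (nat_lit 6) (.split (nat_lit 0xa) (nat_lit 2) (.sup (nat_lit 0x50009000e00140010) (nat_lit 0x100000007000e0014001000000000000000000000)) (.non (nat_lit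 0) (nat_lit 6) (nat_lit 0x228050) (nat_lit 0x30000000100020000000000000002000400000000))) (.non (nat_lit 0) (nat_lit 7) (nat_lit 0x101450) (nat_lit 0x30000000000000004000300000001000200000000))) (.non (nat_lit 0) (nat_lit 6) (nat_lit 0x154550) (nat_lit 0x40001000200030000000200010002000300000000))) (.non (nat_lit 0) (nat_lit 6) (nat_lit 0x100150) (nat_lit 0x10000000000000000000000010001000100000000))) (.non (nat_lit 0) (nat_lit 6) (nat_lit 0x100050) (nat_lit 0x10000000000000000000000000001000100000000)))) (.non (nat_lit 0) (nat_lit 6) (nat_lit 0x154000) (nat_lit 0x10001000100010000000000000000000000000000)))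

noncomputable def t1541_34 : Tr := (.ex (nat_lit 5) (.ex (nat_lit 6) (.ex (nat_lit 7) (.split (nat_lit 4) (nat_lit 3) (.pd (.cons (nat_lit 0) (nat_lit 8) (nat_lit 0) (nat_lit 0x9065532110) (nat_lit 0xf423f00000f423fb71ae1f156f423fb71aea2c289896500000) (.cons (nat_lit 1) (nat_lit 8) (nat_lit 0x1000000001) (nat_lit 0x65532209) (nat_lit 0x100000f423fb71ae1f156f423fb71aea2c280000000001) .nil)) t1541_31) (.split (nat_lit 9) (nat_lit 0) (.sup (nat_lit 0x7000a000a000a0006) (nat_lit 0x100040007000a000800000000000000000000)) t1541_32)) (.split (nat_lit 0xa) (nat_lit 0) (.split (nat_lit 0xa) (nat_lit 1) (.split (nat_lit 0xa) (nat_lit 8) t1541_33 (.non (nat_lit 0) (nat_lit 6) (nat_lit 0x114000) (nat_lit 0x10000000100010000000000000000000000000000))) (.star (nat_lit 0xa) (nat_lit 1) (nat_lit 7))) (.star (nat_lit 0xa) (nat_lit 0) (nat_lit 7)))) (.split (nat_lit 0xa) (nat_lit 0) (.split (nat_lit 0xa) (nat_lit 1) (.split (nat_lit 0xa) (nat_lit 2) (.split (nat_lit 0xa) (nat_lit 3) (.split (nat_lit 0xa) (nat_lit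 4) (.split (nat_lit 0xa) (nat_lit 5) (.split (nat_lit 0xa) (nat_lit 8) (.split (nat_lit 0xa) (nat_lit 9) (.split (nat_lit 0xa) (nat_lit 7) (.unj (nat_lit 0x40015) (nat_lit 0x1000000000000000000000000000100020002) (nat_lit 0x105400) (nat_lit 0x10000000000010002000200000000000000000000)) (.unj (nat_lit 0x105000) (nat_lit 0x10000000000010001000000000000000000000000) (nat_lit 0x40015) (nat_lit 0x1000000000000000000000000000100020002))) (.non (nat_lit 0) (nat_lit 7) (nat_lit 0x151400) (nat_lit 0x30002000100000004000300000000000000000000))) (.non (nat_lit 0) (nat_lit 7) (nat_lit 0x151400) (nat_lit 0x30001000200000004000300000000000000000000))) (.non (nat_lit 0) (nat_lit 7) (nat_lit 0x101400) (nat_lit 0x10000000000000001000100000000000000000000))) (.non (nat_lit 0) (nat_lit 7) (nat_lit 0x101540) (nat_lit 0x30000000000000004000300020001000000000000))) (.non (nat_lit 0) (nat_lit 7) (nat_lit 0x101540) (nat_lit 0x30000000000000004000300010002000000000000))) (.non (nat_lit 0) (nat_lit 7) (nat_lit 0x101450)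 (nat_lit 0x30000000000000004000300000001000200000000))) (.star (nat_lit 0xa) (nat_lit 1) (nat_lit 6))) (.star (nat_lit 0xa) (nat_lit 0) (nat_lit 6)))) (.split (nat_lit 0xa) (nat_lit 0) (.split (nat_lit 0xa) (nat_lit 1) (.split (nat_lit 0xa) (nat_lit 2) (.split (nat_lit 0xa) (nat_lit 3) (.split (nat_lit 0xa) (nat_lit 4) (.split (nat_lit 0xa) (nat_lit 6) (.split (nat_lit 0xa) (nat_lit 8) (.split (nat_lit 0xa) (nat_lit 9) (.split (nat_lit 0xa) (nat_lit 7) (.unj (nat_lit 0x40015) (nat_lit 0x1000000000000000000000000000100020002) (nat_lit 0x105400) (nat_lit 0x10000000000010002000200000000000000000000)) (.unj (nat_lit 0x40015) (nat_lit 0x1000000000000000000000000000100020002) (nat_lit 0x105400) (nat_lit 0x10000000000010001000100000000000000000000))) (.non (nat_lit 0) (nat_lit 7) (nat_lit 0x151400) (nat_lit 0x30002000100000003000400000000000000000000))) (.non (nat_lit 0) (nat_lit 7) (nat_lit 0x151400) (nat_lit 0x30001000200000003000400000000000000000000))) (.non (nat_lit 0) (nat_lit 7) (nat_lit 0x101400)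 (nat_lit 0x10000000000000001000100000000000000000000))) (.non (nat_lit 0) (nat_lit 7) (nat_lit 0x101540) (nat_lit 0x30000000000000003000400020001000000000000))) (.non (nat_lit 0) (nat_lit 7) (nat_lit 0x101540) (nat_lit 0x30000000000000003000400010002000000000000))) (.non (nat_lit 0) (nat_lit 7) (nat_lit 0x101450) (nat_lit 0x30000000000000003000400000001000200000000))) (.non (nat_lit 0) (nat_lit 7) (nat_lit 0x101414) (nat_lit 0x30000000000000003000400000000000100020000))) (.non (nat_lit 1) (nat_lit 7) (nat_lit 0x141401) (nat_lit 0x30001000000000003000400000000000000000002))))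

noncomputable def t1541_35 : Tr := (.split (nat_lit 9) (nat_lit 0) (.pd (.cons (nat_lit 0) (nat_lit 5) (nat_lit 0) (nat_lit 0x38766032110) (nat_lit 0xf423ff423fb71aea2c289896500000f423f7a11d7a11b7a11900000) (.cons (nat_lit 0) (nat_lit 8) (nat_lit 0) (nat_lit 0x39065532110) (nat_lit 0xf423ff423f00000f423fb71ae1f156f423f7a11d7a11b7a11900000) (.cons (nat_lit 0) (nat_lit 9) (nat_lit 0) (nat_lit 0x30765532110) (nat_lit 0xf423f00000f423fb71aea2c2804737f423f7a11d7a11b7a11900000) (.cons (nat_lit 1) (nat_lit 5) (nat_lit 0) (nat_lit 0x30987032200) (nat_lit 0xf423f98965a2c28b71aef423f00000f423f7a11d7a11b0000030d3b) (.cons (nat_lit 1) (nat_lit 8) (nat_lit 0) (nat_lit 0x30065532200) (nat_lit 0xf423ff423f00000f423fb71ae1f156f423f7a11d7a11b000007a11e) (.cons (nat_lit 1) (nat_lit 9) (nat_lit 0) (nat_lit 0x30765532200) (nat_lit 0xf423f00000f423fb71aea2c2804737f423f7a11d7a11b00000f423f) (.cons (nat_lit 2) (nat_lit 9) (nat_lit 0) (nat_lit 0x30765533000) (nat_lit 0xf423f00000f423fb71aea2c2804737f423f7a11d00000f423f54591)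 (.cons (nat_lit 3) (nat_lit 9) (nat_lit 0) (nat_lit 0xa0765540100) (nat_lit 0xf423f00000f423fb71aea2c2804737f423f00000f423fb71ae1f156) .nil)))))))) (.leaf (.cons (nat_lit 0x40005) (nat_lit 0x1000000000000000000000000000000010001) (.cons (nat_lit 0x100055) (nat_lit 0x10000000000000000000000000002000300040003) .nil)) (.cons (nat_lit 0x1100000001) (nat_lit 0x10000010) (nat_lit 6) (nat_lit 0x1200000000) .nil))) (.pd (.cons (nat_lit 0) (nat_lit 5) (nat_lit 0) (nat_lit 0x38766032110) (nat_lit 0xf423ff423fb71aea2c289896500000f423f7a11d7a11b7a11900000) (.cons (nat_lit 0) (nat_lit 8) (nat_lit 0) (nat_lit 0x39065532110) (nat_lit 0xf423ff423f00000f423fb71ae1f156f423f7a11d7a11b7a11900000) (.cons (nat_lit 0) (nat_lit 9) (nat_lit 0) (nat_lit 0x30765532110) (nat_lit 0xf423f00000f423fb71aea2c2804737f423f7a11d7a11b7a11900000) (.cons (nat_lit 1) (nat_lit 8) (nat_lit 0x1000000001) (nat_lit 0x30065532209) (nat_lit 0xf423f0000100000f423fb71ae1f156f423f7a11d7a11b0000000001) (.cons (nat_lit 1) (nat_lit 9) (nat_lit 0)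 (nat_lit 0x30765532200) (nat_lit 0xf423f00000f423fb71aea2c2804737f423f7a11d7a11b00000f423f) (.cons (nat_lit 2) (nat_lit 9) (nat_lit 0) (nat_lit 0x30765533000) (nat_lit 0xf423f00000f423fb71aea2c2804737f423f7a11d00000f423f54591) (.cons (nat_lit 3) (nat_lit 9) (nat_lit 0) (nat_lit 0xa0765540100) (nat_lit 0xf423f00000f423fb71aea2c2804737f423f00000f423fb71ae1f156) .nil))))))) (.split (nat_lit 9) (nat_lit 0) (.leaf (.cons (nat_lit 0x55001) (nat_lit 0x4000300020001000000000000000000000003) (.cons (nat_lit 0x40005) (nat_lit 0x1000000000000000000000000000000010001) (.cons (nat_lit 0x100055) (nat_lit 0x10000000000000000000000000002000300040003) .nil))) (.cons (nat_lit 0x1110000001) (nat_lit 0x1000010) (nat_lit 0x10) (nat_lit 0x1230000000) .nil)) (.non (nat_lit 1) (nat_lit 6) (nat_lit 0xf0001) (nat_lit 0x2000100000000000000000000000000000003)))))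

noncomputable def t1541_36 : Tr := (.ex (nat_lit 6) (.ex (nat_lit 7) (.split (nat_lit 4) (nat_lit 3) (.split (nat_lit 9) (nat_lit 8) t1541_35 (.non (nat_lit 1) (nat_lit 6) (nat_lit 0x90001) (nat_lit 0x1000100000000000000000000000000000001))) (.non (nat_lit 0) (nat_lit 6) (nat_lit 0x100250) (nat_lit 0x10000000000000000000000010002000100000000))) (.split (nat_lit 0xb) (nat_lit 0) (.split (nat_lit 0xb) (nat_lit 1) (.split (nat_lit 0xb) (nat_lit 2) (.split (nat_lit 0xb) (nat_lit 3) (.split (nat_lit 0xb) (nat_lit 4) (.split (nat_lit 0xb) (nat_lit 8) (.split (nat_lit 0xb) (nat_lit 9) (.split (nat_lit 0xb) (nat_lit 0xa) (.split (nat_lit 0xb) (nat_lit 5) (.split (nat_lit 0xb) (nat_lit 6) (.unj (nat_lit 0x155) (nat_lit 0x10002000300040003) (nat_lit 0x415400) (nat_lit 0x100000000000100020002000200000000000000000000)) (.unj (nat_lit 0x40005) (nat_lit 0x1000000000000000000000000000000010001) (nat_lit 0x405000) (nat_lit 0x100000000000000010001000000000000000000000000))) (.split (nat_lit 0xb) (nat_lit 6) (.unj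 (nat_lit 0x40005) (nat_lit 0x1000000000000000000000000000000010001) (nat_lit 0x405400) (nat_lit 0x100000000000000010001000100000000000000000000)) (.non (nat_lit 0) (nat_lit 7) (nat_lit 0x401400) (nat_lit 0x100000000000000000001000100000000000000000000)))) (.non (nat_lit 0) (nat_lit 6) (nat_lit 0x554154) (nat_lit 0x400050001000200030000000000030006000400020000))) (.non (nat_lit 0) (nat_lit 6) (nat_lit 0x454000) (nat_lit 0x100000001000100010000000000000000000000000000))) (.non (nat_lit 0) (nat_lit 6) (nat_lit 0x414000) (nat_lit 0x100000000000100010000000000000000000000000000))) (.non (nat_lit 0) (nat_lit 6) (nat_lit 0x554154) (nat_lit 0x400030001000200030000000000050006000400020000))) (.non (nat_lit 0) (nat_lit 6) (nat_lit 0x500150) (nat_lit 0x100010000000000000000000000010002000100000000))) (.non (nat_lit 0) (nat_lit 6) (nat_lit 0x500154) (nat_lit 0x100010000000000000000000000010002000200010000))) (.star (nat_lit 0xb) (nat_lit 1) (nat_lit 7))) (.star (nat_lit 0xb) (nat_lit 0) (nat_lit 7)))) (.split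 (nat_lit 0xb) (nat_lit 0) (.split (nat_lit 0xb) (nat_lit 1) (.split (nat_lit 0xb) (nat_lit 2) (.split (nat_lit 0xb) (nat_lit 3) (.split (nat_lit 0xb) (nat_lit 4) (.split (nat_lit 0xb) (nat_lit 5) (.split (nat_lit 0xb) (nat_lit 8) (.split (nat_lit 0xb) (nat_lit 9) (.split (nat_lit 0xb) (nat_lit 0xa) (.split (nat_lit 0xb) (nat_lit 7) (.unj (nat_lit 0x40005) (nat_lit 0x1000000000000000000000000000000010001) (nat_lit 0x405400) (nat_lit 0x100000000000000010002000200000000000000000000)) (.unj (nat_lit 0x40005) (nat_lit 0x1000000000000000000000000000000010001) (nat_lit 0x405000) (nat_lit 0x100000000000000010001000000000000000000000000))) (.non (nat_lit 0) (nat_lit 7) (nat_lit 0x501440) (nat_lit 0x300020000000000000004000300000001000000000000))) (.non (nat_lit 0) (nat_lit 7) (nat_lit 0x451400) (nat_lit 0x300000002000100000004000300000000000000000000))) (.non (nat_lit 0) (nat_lit 7) (nat_lit 0x451400) (nat_lit 0x300000001000200000004000300000000000000000000))) (.non (nat_lit 0) (nat_lit 7) (nat_lit 0x401400)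 (nat_lit 0x100000000000000000001000100000000000000000000))) (.non (nat_lit 0) (nat_lit 7) (nat_lit 0x401540) (nat_lit 0x300000000000000000004000300020001000000000000))) (.non (nat_lit 0) (nat_lit 6) (nat_lit 0x500150) (nat_lit 0x100010000000000000000000000010002000100000000))) (.non (nat_lit 0) (nat_lit 6) (nat_lit 0x500154) (nat_lit 0x100010000000000000000000000010002000200010000))) (.star (nat_lit 0xb) (nat_lit 1) (nat_lit 6))) (.star (nat_lit 0xb) (nat_lit 0) (nat_lit 6))))

noncomputable def t1541_37 : Tr := (.split (nat_lit 0xa) (nat_lit 0) (.split (nat_lit 0xa) (nat_lit 7) (.split (nat_lit 0xa) (nat_lit 3) (.split (nat_lit 9) (nat_lit 0) (.sup (nat_lit 0x20006000b0010000d00000000000000000000) (nat_lit 0x20000000000000000000000020005000500050003)) (.st (nat_lit 8) (nat_lit 1) (nat_lit 6) (nat_lit 0xa8001) (nat_lit 0x2000200010000000000000000000000000002) (nat_lit 2) (nat_lit 1) (.st (nat_lit 9) (nat_lit 1) (nat_lit 6) (nat_lit 0xa0001) (nat_lit 0x2000100000000000000000000000000000002) (nat_lit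 2) (nat_lit 1) (.st (nat_lit 3) (nat_lit 0) (nat_lit 6) (nat_lit 0x100150) (nat_lit 0x10000000000000000000000010002000100000000) (nat_lit 1) (nat_lit 1) (.ex (nat_lit 5) t1541_36 (.split (nat_lit 0xb) (nat_lit 0) (.split (nat_lit 0xb) (nat_lit 1) (.split (nat_lit 0xb) (nat_lit 2) (.split (nat_lit 0xb) (nat_lit 3) (.split (nat_lit 0xb) (nat_lit 4) (.split (nat_lit 0xb) (nat_lit 6) (.split (nat_lit 0xb) (nat_lit 8) (.split (nat_lit 0xb) (nat_lit 9) (.split (nat_lit 0xb) (nat_lit 0xa) (.split (nat_lit 0xb) (nat_lit 7) (.unj (nat_lit 0x40005) (nat_lit 0x1000000000000000000000000000000010001) (nat_lit 0x405400) (nat_lit 0x100000000000000010002000200000000000000000000)) (.unj (nat_lit 0x40005) (nat_lit 0x1000000000000000000000000000000010001) (nat_lit 0x405400) (nat_lit 0x100000000000000010001000100000000000000000000))) (.non (nat_lit 0) (nat_lit 7) (nat_lit 0x501440) (nat_lit 0x300020000000000000003000400000001000000000000))) (.non (nat_lit 0) (nat_lit 7) (nat_lit 0x451400) (nat_lit 0x300000002000100000003000400000000000000000000)))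 (.non (nat_lit 0) (nat_lit 7) (nat_lit 0x451400) (nat_lit 0x300000001000200000003000400000000000000000000))) (.non (nat_lit 0) (nat_lit 7) (nat_lit 0x401400) (nat_lit 0x100000000000000000001000100000000000000000000))) (.non (nat_lit 0) (nat_lit 7) (nat_lit 0x401540) (nat_lit 0x300000000000000000003000400020001000000000000))) (.non (nat_lit 0) (nat_lit 6) (nat_lit 0x500150) (nat_lit 0x100010000000000000000000000010002000100000000))) (.non (nat_lit 0) (nat_lit 6) (nat_lit 0x500154) (nat_lit 0x100010000000000000000000000010002000200010000))) (.non (nat_lit 0) (nat_lit 7) (nat_lit 0x401414) (nat_lit 0x300000000000000000003000400000000000100020000))) (.non (nat_lit 1) (nat_lit 6) (nat_lit 0x4a8001) (nat_lit 0x200000003000200010000000000000000000000000004)))))))) (.non (nat_lit 0) (nat_lit 6) (nat_lit 0x200150) (nat_lit 0x10000000000000000000000010002000100000000))) (.sup (nat_lit 0x500000000000000000000000000020009000a) (nat_lit 0x4000000000007000a000800000001000000000000))) (.split (nat_lit 0xa) (nat_lit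 7) (.sup (nat_lit 0x6000e00170020001a00000000000000000000) (nat_lit 0x40000000000000000000000030006000500040002)) (.star (nat_lit 0xa) (nat_lit 0) (nat_lit 7))))

noncomputable def t1541_38 : Tr := (.split (nat_lit 0xa) (nat_lit 4) (.split (nat_lit 0xa) (nat_lit 5) (.split (nat_lit 0xa) (nat_lit 6) (.split (nat_lit 0xa) (nat_lit 8) (.split (nat_lit 0xa) (nat_lit 0) (.split (nat_lit 0xa) (nat_lit 7) (.split (nat_lit 0xa) (nat_lit 9) (.split (nat_lit 0xa) (nat_lit 2) (.split (nat_lit 9) (nat_lit 0) (.sup (nat_lit 0x50000000000000000000000000005000a000a0006) (nat_lit 0x100040007000a000800000000000000000000)) (.split (nat_lit 9) (nat_lit 0) (.sup (nat_lit 0x20006000b0010000d00000000000000000000) (nat_lit 0x20000000000000000000000020003000500040002)) (.split (nat_lit 9) (nat_lit 0) (.sup (nat_lit 0x3000d00160020001a00000000000000000000) (nat_lit 0x50000000000000000000000030006000a00080004)) (.non (nat_lit 1) (nat_lit 6) (nat_lit 0xf0001) (nat_lit 0x2000100000000000000000000000000000003))))) (.non (nat_lit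 0) (nat_lit 6) (nat_lit 0x200054) (nat_lit 0x10000000000000000000000000001000200010000))) (.split (nat_lit 0xa) (nat_lit 2) (.split (nat_lit 0xa) (nat_lit 9) (.split (nat_lit 9) (nat_lit 0) (.sup (nat_lit 0x3000c00160020001a00000000000000000000) (nat_lit 0x20000000000000000000000020005000700070005)) (.non (nat_lit 1) (nat_lit 6) (nat_lit 0x2a0001) (nat_lit 0x10002000100000000000000000000000000000002))) (.non (nat_lit 0) (nat_lit 6) (nat_lit 0x1a8010) (nat_lit 0x40003000200010000000000000000000200000000))) (.non (nat_lit 0) (nat_lit 6) (nat_lit 0x2a0050) (nat_lit 0x30002000100000000000000000002000400000000)))) (.split (nat_lit 0xa) (nat_lit 9) (.split (nat_lit 0xa) (nat_lit 2) (.sup (nat_lit 0x50009000e00140010) (nat_lit 0x100000007000e0014001000000000000000000000)) (.non (nat_lit 0) (nat_lit 6) (nat_lit 0x228050) (nat_lit 0x30000000100020000000000000002000400000000))) (.non (nat_lit 0) (nat_lit 6) (nat_lit 0x154000) (nat_lit 0x10001000100010000000000000000000000000000)))) (.split (nat_lit 0xa)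 (nat_lit 7) (.split (nat_lit 0xa) (nat_lit 9) (.sup (nat_lit 0x800000000000000000000000000000009000a0007) (nat_lit 0x100040007000a000800000000000000000000)) (.non (nat_lit 1) (nat_lit 6) (nat_lit 0x140001) (nat_lit 0x10001000000000000000000000000000000000001))) (.star (nat_lit 0xa) (nat_lit 0) (nat_lit 7)))) (.non (nat_lit 0) (nat_lit 6) (nat_lit 0x154054) (nat_lit 0x20001000200010000000000000001000200010000))) (.non (nat_lit 0) (nat_lit 7) (nat_lit 0x101450) (nat_lit 0x30000000000000004000300000001000200000000))) (.non (nat_lit 0) (nat_lit 7) (nat_lit 0x101450) (nat_lit 0x30000000000000003000400000001000200000000))) (.non (nat_lit 0) (nat_lit 6) (nat_lit 0x100150) (nat_lit 0x10000000000000000000000010001000100000000)))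

noncomputable def t1541_39 : Tr := (.split (nat_lit 0xa) (nat_lit 5) (.split (nat_lit 0xa) (nat_lit 6) (.split (nat_lit 0xa) (nat_lit 7) (.split (nat_lit 0xa) (nat_lit 0) (.split (nat_lit 0xa) (nat_lit 8) (.split (nat_lit 0xa) (nat_lit 9) (.split (nat_lit 0xa) (nat_lit 1) (.split (nat_lit 9) (nat_lit 0) (.sup (nat_lit 0x500000000000000000000000000000005000a0006) (nat_lit 0x100040007000a000800000000000000000000)) (.split (nat_lit 9) (nat_lit 0) (.sup (nat_lit 0x20007000b0010000d00000000000000000000) (nat_lit 0x20000000000000000000000010002000300040002)) (.sup (nat_lit 0x3000d00160020001a00000000000000000000) (nat_lit 0x40000000000000000000000020004000600080004)))) (.sup (nat_lit 0x30007000c0010000d00000000000000000000) (nat_lit 0x20000000000000000000000010001000200030001))) (.split (nat_lit 0xa) (nat_lit 1) (.split (nat_lit 0xa) (nat_lit 9) (.split (nat_lit 9) (nat_lit 0) (.sup (nat_lit 0x3000d00160020001a00000000000000000000) (nat_lit 0x20000000000000000000000020004000500070004)) (.non (nat_lit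 1) (nat_lit 6) (nat_lit 0x2a0001) (nat_lit 0x10002000100000000000000000000000000000002))) (.non (nat_lit 0) (nat_lit 6) (nat_lit 0x1a8004) (nat_lit 0x40003000200010000000000000000000000020000))) (.non (nat_lit 0) (nat_lit 6) (nat_lit 0x2a0014) (nat_lit 0x30002000100000000000000000000000200040000)))) (.split (nat_lit 0xa) (nat_lit 9) (.split (nat_lit 0xa) (nat_lit 1) (.split (nat_lit 0xa) (nat_lit 8) (.split (nat_lit 9) (nat_lit 8) (.split (nat_lit 4) (nat_lit 3) (.par (nat_lit 0x155154) (nat_lit 0x50003000600040002000000010002000300040000)) (.non (nat_lit 0) (nat_lit 6) (nat_lit 0x154254) (nat_lit 0x20001000200010000000000010002000200020000))) (.non (nat_lit 0) (nat_lit 6) (nat_lit 0x194000) (nat_lit 0x10001000200010000000000000000000000000000))) (.non (nat_lit 0) (nat_lit 6) (nat_lit 0x254000) (nat_lit 0x10001000200010000000000000000000000000000))) (.non (nat_lit 0) (nat_lit 6) (nat_lit 0x2a8004) (nat_lit 0x20001000200010000000000000000000000020000))) (.non (nat_lit 0) (nat_lit 6) (nat_lit 0x150000)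 (nat_lit 0x10001000100000000000000000000000000000000)))) (.split (nat_lit 0xa) (nat_lit 8) (.split (nat_lit 0xa) (nat_lit 9) (.sup (nat_lit 0x900000000000000000000000000000000000a0007) (nat_lit 0x100040007000a000800000000000000000000)) (.non (nat_lit 1) (nat_lit 6) (nat_lit 0x140001) (nat_lit 0x10001000000000000000000000000000000000001))) (.non (nat_lit 1) (nat_lit 6) (nat_lit 0x150001) (nat_lit 0x10001000100000000000000000000000000000001)))) (.star (nat_lit 0xa) (nat_lit 1) (nat_lit 7))) (.star (nat_lit 0xa) (nat_lit 1) (nat_lit 6))) (.non (nat_lit 0) (nat_lit 7) (nat_lit 0x101414) (nat_lit 0x30000000000000003000400000000000100020000)))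

noncomputable def t1541_40 : Tr := (.split (nat_lit 0xa) (nat_lit 1) (.split (nat_lit 0xa) (nat_lit 2) (.split (nat_lit 0xa) (nat_lit 3) (.split (nat_lit 0xa) (nat_lit 4) (.split (nat_lit 0xa) (nat_lit 0) (.split (nat_lit 9) (nat_lit 0) (.sup (nat_lit 0x20006000b0010000d00000000000000000000) (nat_lit 0x10000000000000000000000010002000300040003)) (.non (nat_lit 1) (nat_lit 6) (nat_lit 0x1a8001) (nat_lit 0x20003000200010000000000000000000000000004))) (.split (nat_lit 0xa) (nat_lit 0) (.split (nat_lit 9) (nat_lit 0) (.sup (nat_lit 0x20007000b0010000d00000000000000000000) (nat_lit 0x20000000000000000000000010001000200030002)) (.non (nat_lit 1) (nat_lit 6) (nat_lit 0x280001) (nat_lit 0x10001000000000000000000000000000000000002))) (.non (nat_lit 1) (nat_lit 6) (nat_lit 0x154001) (nat_lit 0x30003000200010000000000000000000000000004)))) (.split (nat_lit 0xa) (nat_lit 0) (.split (nat_lit 0xa) (nat_lit 4) (.split (nat_lit 9) (nat_lit 0) (.sup (nat_lit 0x1000300060008000600000000000000000000) (nat_lit 0x10000000000000000000000010001000100010001))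 (.non (nat_lit 1) (nat_lit 6) (nat_lit 0x1a8001) (nat_lit 0x20003000200010000000000000000000000000004))) (.non (nat_lit 1) (nat_lit 6) (nat_lit 0x140281) (nat_lit 0x30001000000000000000000020001000000000002))) (.non (nat_lit 1) (nat_lit 6) (nat_lit 0x250201) (nat_lit 0x20002000100000000000000010000000000000003)))) (.split (nat_lit 0xa) (nat_lit 4) (.sup (nat_lit 0x6000e00170020001a00000000000000000000) (nat_lit 0x40000000000000000000000030006000500040002)) (.non (nat_lit 0) (nat_lit 6) (nat_lit 0x100140) (nat_lit 0x10000000000000000000000010001000000000000)))) (.split (nat_lit 0xa) (nat_lit 3) (.split (nat_lit 0xa) (nat_lit 4) (.sup (nat_lit 0x800000000000000000000000000000009000a0007) (nat_lit 0x100040007000a000800000000000000000000)) (.non (nat_lit 0) (nat_lit 6) (nat_lit 0x100150) (nat_lit 0x10000000000000000000000010001000100000000))) (.non (nat_lit 0) (nat_lit 6) (nat_lit 0x100050) (nat_lit 0x10000000000000000000000000001000100000000)))) (.split (nat_lit 0xa) (nat_lit 2) (.split (nat_lit 0xa)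 (nat_lit 3) (.split (nat_lit 0xa) (nat_lit 4) (.sup (nat_lit 0x900000000000000000000000000000000000a0007) (nat_lit 0x100040007000a000800000000000000000000)) (.non (nat_lit 0) (nat_lit 6) (nat_lit 0x100154) (nat_lit 0x10000000000000000000000010001000100010000))) (.non (nat_lit 0) (nat_lit 6) (nat_lit 0x100054) (nat_lit 0x10000000000000000000000000001000100010000))) (.non (nat_lit 0) (nat_lit 6) (nat_lit 0x100014) (nat_lit 0x10000000000000000000000000000000100010000))))

noncomputable def t1541_41 : Tr := (.split (nat_lit 7) (nat_lit 3) (.split (nat_lit 7) (nat_lit 4) (.ex (nat_lit 0) (.ex (nat_lit 1) (.ex (nat_lit 2) (.ex (nat_lit 3) t1541_34 (.split (nat_lit 0xa) (nat_lit 1) (.split (nat_lit 0xa) (nat_lit 2) (.split (nat_lit 0xa) (nat_lit 4) (.split (nat_lit 0xa) (nat_lit 5) (.split (nat_lit 0xa) (nat_lit 6) (.split (nat_lit 0xa) (nat_lit 8) (.split (nat_lit 0xa) (nat_lit 9) t1541_37 (.non (nat_lit 1) (nat_lit 6) (nat_lit 0x150151) (nat_lit 0x20002000100000000000000010002000100000001))) (.non (nat_lit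 0) (nat_lit 6) (nat_lit 0x154150) (nat_lit 0x20001000200010000000000010002000100000000))) (.non (nat_lit 0) (nat_lit 7) (nat_lit 0x101540) (nat_lit 0x30000000000000004000300010002000000000000))) (.non (nat_lit 0) (nat_lit 7) (nat_lit 0x101540) (nat_lit 0x30000000000000003000400010002000000000000))) (.non (nat_lit 0) (nat_lit 6) (nat_lit 0x100140) (nat_lit 0x10000000000000000000000010001000000000000))) (.non (nat_lit 0) (nat_lit 6) (nat_lit 0x100050) (nat_lit 0x10000000000000000000000000001000100000000))) (.non (nat_lit 0) (nat_lit 6) (nat_lit 0x100054) (nat_lit 0x10000000000000000000000000001000100010000)))) (.split (nat_lit 0xa) (nat_lit 1) (.split (nat_lit 0xa) (nat_lit 3) t1541_38 (.non (nat_lit 0) (nat_lit 6) (nat_lit 0x100050) (nat_lit 0x10000000000000000000000000001000100000000))) (.non (nat_lit 0) (nat_lit 6) (nat_lit 0x100014) (nat_lit 0x10000000000000000000000000000000100010000)))) (.split (nat_lit 0xa) (nat_lit 2) (.split (nat_lit 0xa) (nat_lit 3) (.split (nat_lit 0xa) (nat_lit 4) t1541_39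 (.non (nat_lit 0) (nat_lit 6) (nat_lit 0x100154) (nat_lit 0x10000000000000000000000010001000100010000))) (.non (nat_lit 0) (nat_lit 6) (nat_lit 0x100054) (nat_lit 0x10000000000000000000000000001000100010000))) (.non (nat_lit 0) (nat_lit 6) (nat_lit 0x100014) (nat_lit 0x10000000000000000000000000000000100010000)))) (.split (nat_lit 0xa) (nat_lit 5) (.split (nat_lit 0xa) (nat_lit 6) (.split (nat_lit 0xa) (nat_lit 7) (.split (nat_lit 0xa) (nat_lit 8) (.split (nat_lit 0xa) (nat_lit 9) t1541_40 (.non (nat_lit 1) (nat_lit 6) (nat_lit 0x140001) (nat_lit 0x10001000000000000000000000000000000000001))) (.non (nat_lit 1) (nat_lit 6) (nat_lit 0x150001) (nat_lit 0x10001000100000000000000000000000000000001))) (.star (nat_lit 0xa) (nat_lit 0) (nat_lit 7))) (.star (nat_lit 0xa) (nat_lit 0) (nat_lit 6))) (.non (nat_lit 1) (nat_lit 7) (nat_lit 0x141401) (nat_lit 0x30001000000000003000400000000000000000002)))) (.sup (nat_lit 0x500000000000000000000000000020009000a) (nat_lit 0x7000a000800040001000000000000))) (.split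 (nat_lit 7) (nat_lit 4) (.split (nat_lit 9) (nat_lit 0) (.split (nat_lit 9) (nat_lit 8) (.sup (nat_lit 0x3000b0010000d00020004000000000000) (nat_lit 0x60000000000000000000000000005000f000f)) (.non (nat_lit 0) (nat_lit 6) (nat_lit 0x94150) (nat_lit 0x1000200020000000000010002000100000000))) (.non (nat_lit 1) (nat_lit 6) (nat_lit 0xa82a1) (nat_lit 0x2000200020000000000010002000100000002))) (.non (nat_lit 0) (nat_lit 6) (nat_lit 0x4140) (nat_lit 0x10000000000010001000000000000))))

noncomputable def t1541_42 : Tr := (.split (nat_lit 9) (nat_lit 2) (.split (nat_lit 9) (nat_lit 4) (.split (nat_lit 8) (nat_lit 4) t1541_41 (.split (nat_lit 7) (nat_lit 3) (.split (nat_lit 7) (nat_lit 4) (.split (nat_lit 9) (nat_lit 0) (.split (nat_lit 9) (nat_lit 8) (.split (nat_lit 8) (nat_lit 4) (.split (nat_lit 4) (nat_lit 3) (.par (nat_lit 0x55141) (nat_lit 0x2000300020001000000020001000000000001)) (.non (nat_lit 0) (nat_lit 6) (nat_lit 0xa8240) (nat_lit 0x1000200010000000000020002000000000000))) (.non (nat_lit 0)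 (nat_lit 6) (nat_lit 0xa8100) (nat_lit 0x1000200010000000000020000000000000000))) (.non (nat_lit 0) (nat_lit 6) (nat_lit 0x94100) (nat_lit 0x1000200010000000000010000000000000000))) (.non (nat_lit 1) (nat_lit 6) (nat_lit 0xa8201) (nat_lit 0x2000200010000000000010000000000000002))) (.non (nat_lit 0) (nat_lit 6) (nat_lit 0x14100) (nat_lit 0x100010000000000010000000000000000))) (.non (nat_lit 0) (nat_lit 6) (nat_lit 0x14140) (nat_lit 0x100010000000000010001000000000000)))) (.split (nat_lit 8) (nat_lit 4) (.split (nat_lit 7) (nat_lit 3) (.split (nat_lit 7) (nat_lit 4) (.split (nat_lit 9) (nat_lit 0) (.split (nat_lit 9) (nat_lit 4) (.split (nat_lit 9) (nat_lit 8) (.split (nat_lit 4) (nat_lit 3) (.par (nat_lit 0x55151) (nat_lit 0x4000300020001000000030002000100000002)) (.non (nat_lit 0) (nat_lit 6) (nat_lit 0xa0250) (nat_lit 0x2000100000000000000030004000200000000))) (.non (nat_lit 0) (nat_lit 6) (nat_lit 0x68140) (nat_lit 0x3000200010000000000020001000000000000))) (.non (nat_lit 0) (nat_lit 6) (nat_lit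 0xa8140) (nat_lit 0x3000200010000000000040002000000000000))) (.non (nat_lit 1) (nat_lit 6) (nat_lit 0xa0201) (nat_lit 0x2000100000000000000010000000000000002))) (.non (nat_lit 0) (nat_lit 6) (nat_lit 0x54100) (nat_lit 0x1000100010000000000010000000000000000))) (.non (nat_lit 0) (nat_lit 6) (nat_lit 0x54140) (nat_lit 0x1000100010000000000010001000000000000))) (.non (nat_lit 0) (nat_lit 6) (nat_lit 0x50100) (nat_lit 0x1000100000000000000010000000000000000)))) (.split (nat_lit 9) (nat_lit 4) (.split (nat_lit 8) (nat_lit 4) (.split (nat_lit 7) (nat_lit 3) (.split (nat_lit 7) (nat_lit 4) (.split (nat_lit 9) (nat_lit 0) (.split (nat_lit 9) (nat_lit 2) (.split (nat_lit 9) (nat_lit 8) (.split (nat_lit 4) (nat_lit 3) (.par (nat_lit 0x55151) (nat_lit 0x4000300020001000000010002000300000002)) (.non (nat_lit 0) (nat_lit 6) (nat_lit 0x40254) (nat_lit 0x1000000000000000000010002000200010000))) (.non (nat_lit 0) (nat_lit 6) (nat_lit 0x68050) (nat_lit 0x3000200010000000000000001000200000000))) (.non (nat_lit 0)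 (nat_lit 6) (nat_lit 0xa8050) (nat_lit 0x3000200010000000000000002000400000000))) (.non (nat_lit 1) (nat_lit 6) (nat_lit 0xa0021) (nat_lit 0x2000100000000000000000000000100000002))) (.non (nat_lit 0) (nat_lit 6) (nat_lit 0x54150) (nat_lit 0x1000100010000000000010001000100000000))) (.non (nat_lit 0) (nat_lit 6) (nat_lit 0x54050) (nat_lit 0x1000100010000000000000001000100000000))) (.non (nat_lit 0) (nat_lit 6) (nat_lit 0x50150) (nat_lit 0x1000100000000000000010001000100000000))) (.non (nat_lit 0) (nat_lit 6) (nat_lit 0x40150) (nat_lit 0x1000000000000000000010001000100000000))))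

noncomputable def t1541_43 : Tr := (.ex (nat_lit 9) (.split (nat_lit 9) (nat_lit 8) (.split (nat_lit 9) (nat_lit 0) (.pd (.cons (nat_lit 0) (nat_lit 5) (nat_lit 0) (nat_lit 0x1987032110) (nat_lit 0x98965a2c28b71aef423f00000f423fb71aea2c2836ee300000) (.cons (nat_lit 1) (nat_lit 5) (nat_lit 0) (nat_lit 0x987032200) (nat_lit 0x98965a2c28b71aef423f00000f423fb71aea2c2800000927bd) .nil)) (.leaf (.cons (nat_lit 0x40005) (nat_lit 0x1000000000000000000000000000000010001) .nil) .nil)) (.split (nat_lit 9) (nat_lit 0) (.pd (.cons (nat_lit 0) (nat_lit 5) (nat_lit 0) (nat_lit 0x1987032110) (nat_lit 0x98965a2c28b71aef423f00000f423fb71aea2c2836ee300000) (.cons (nat_lit 1) (nat_lit 5) (nat_lit 0) (nat_lit 0x987032200) (nat_lit 0x98965a2c28b71aef423f00000f423fb71aea2c280000030d3b) .nil)) (.leaf (.cons (nat_lit 0x40005) (nat_lit 0x1000000000000000000000000000000010001) .nil) .nil)) (.pd (.cons (nat_lit 0) (nat_lit 5) (nat_lit 0) (nat_lit 0x1987032110) (nat_lit 0x98965a2c28b71aef423f00000f423fb71aea2c2836ee300000)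 .nil) (.leaf (.cons (nat_lit 0x55001) (nat_lit 0x4000300020001000000000000000000000003) (.cons (nat_lit 0x40005) (nat_lit 0x1000000000000000000000000000000010001) .nil)) .nil)))) (.non (nat_lit 0) (nat_lit 6) (nat_lit 0x68014) (nat_lit 0x3000200010000000000000000000100020000))) (.split (nat_lit 0xa) (nat_lit 0) (.split (nat_lit 0xa) (nat_lit 1) (.split (nat_lit 0xa) (nat_lit 2) (.split (nat_lit 0xa) (nat_lit 3) (.split (nat_lit 0xa) (nat_lit 4) (.split (nat_lit 0xa) (nat_lit 5) (.split (nat_lit 0xa) (nat_lit 6) (.split (nat_lit 0xa) (nat_lit 7) (.split (nat_lit 0xa) (nat_lit 8) (.split (nat_lit 0xa) (nat_lit 9) (.split (nat_lit 9) (nat_lit 8) (.par (nat_lit 0x155054) (nat_lit 0x20004000300020001000000000001000200030000)) (.non (nat_lit 0) (nat_lit 6) (nat_lit 0x160004) (nat_lit 0x10002000100000000000000000000000000010000))) (.non (nat_lit 0) (nat_lit 6) (nat_lit 0x250004) (nat_lit 0x10002000100000000000000000000000000010000))) (.non (nat_lit 0) (nat_lit 6) (nat_lit 0x150000) (nat_lit 0x10001000100000000000000000000000000000000)))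 (.non (nat_lit 0) (nat_lit 6) (nat_lit 0x154000) (nat_lit 0x10001000100010000000000000000000000000000))) (.non (nat_lit 0) (nat_lit 7) (nat_lit 0x151400) (nat_lit 0x30002000100000004000300000000000000000000))) (.non (nat_lit 0) (nat_lit 6) (nat_lit 0x154414) (nat_lit 0x20003000200010000000100000000000100020000))) (.non (nat_lit 0) (nat_lit 6) (nat_lit 0x154114) (nat_lit 0x20003000200010000000000010000000100020000))) (.non (nat_lit 0) (nat_lit 6) (nat_lit 0x140054) (nat_lit 0x10001000000000000000000000001000100010000))) (.non (nat_lit 0) (nat_lit 6) (nat_lit 0x140014) (nat_lit 0x10001000000000000000000000000000100010000))) (.non (nat_lit 0) (nat_lit 6) (nat_lit 0x140004) (nat_lit 0x10001000000000000000000000000000000010000))) (.non (nat_lit 1) (nat_lit 6) (nat_lit 0x140001) (nat_lit 0x10001000000000000000000000000000000000001))))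

noncomputable def t1541_44 : Tr := (.split (nat_lit 4) (nat_lit 3) (.pd (.cons (nat_lit 0) (nat_lit 8) (nat_lit 0) (nat_lit 0x1065532110) (nat_lit 0xf423f00000f423fb71ae1f156f423f7a11e7a11c3d08900000) (.cons (nat_lit 1) (nat_lit 8) (nat_lit 0x1000000001) (nat_lit 0x65532209) (nat_lit 0x100000f423fb71ae1f156f423f7a11e7a11c0000000001) .nil)) (.st (nat_lit 8) (nat_lit 0) (nat_lit 6) (nat_lit 0x54254) (nat_lit 0x2000200010000000000010002000200020000) (nat_lit 1) (nat_lit 1) (.pd (.cons (nat_lit 0) (nat_lit 9) (nat_lit 0) (nat_lit 0x765532110) (nat_lit 0xf423fb71aea2c2804737f423f7a11e7a11c7a11a00000) (.cons (nat_lit 1) (nat_lit 9) (nat_lit 0) (nat_lit 0x765532200) (nat_lit 0xf423fb71aea2c2804737f423f7a11e7a11c00000f423f) (.cons (nat_lit 2) (nat_lit 9) (nat_lit 0) (nat_lit 0x765533000) (nat_lit 0xf423fb71aea2c2804737f423f7a11e00000f423f54591) (.cons (nat_lit 3) (nat_lit 9) (nat_lit 0) (nat_lit 0x765540100) (nat_lit 0xf423fb71aea2c2804737f423f00000f423fb71ae1f156) (.cons (nat_lit 4) (nat_lit 9) (nat_lit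 0) (nat_lit 0x765502100) (nat_lit 0xf423fb71aea2c280473700000f423fb71aea2c2804737) .nil))))) (.st (nat_lit 9) (nat_lit 0) (nat_lit 6) (nat_lit 0x50254) (nat_lit 0x2000100000000000000010002000200020000) (nat_lit 1) (nat_lit 1) (.split (nat_lit 9) (nat_lit 8) (.split (nat_lit 9) (nat_lit 0) (.pd (.cons (nat_lit 0) (nat_lit 5) (nat_lit 0) (nat_lit 0x1987032110) (nat_lit 0x98965a2c28b71aef423f00000f423f7a11e7a11c1869800000) (.cons (nat_lit 1) (nat_lit 5) (nat_lit 0) (nat_lit 0x987032200) (nat_lit 0x98965a2c28b71aef423f00000f423f7a11e7a11c00000927bd) .nil)) (.leaf (.cons (nat_lit 0x40005) (nat_lit 0x1000000000000000000000000000000010001) .nil) .nil)) (.split (nat_lit 9) (nat_lit 0) (.pd (.cons (nat_lit 0) (nat_lit 5) (nat_lit 0) (nat_lit 0x1987032110) (nat_lit 0x98965a2c28b71aef423f00000f423f7a11e7a11c1869800000) (.cons (nat_lit 1) (nat_lit 5) (nat_lit 0) (nat_lit 0x987032200) (nat_lit 0x98965a2c28b71aef423f00000f423f7a11e7a11c0000030d3b) .nil)) (.leaf (.cons (nat_lit 0x40005) (nat_lit 0x1000000000000000000000000000000010001)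 .nil) .nil)) (.pd (.cons (nat_lit 0) (nat_lit 5) (nat_lit 0) (nat_lit 0x1987032110) (nat_lit 0x98965a2c28b71aef423f00000f423f7a11e7a11c1869800000) .nil) (.leaf (.cons (nat_lit 0x55001) (nat_lit 0x4000300020001000000000000000000000003) (.cons (nat_lit 0x40005) (nat_lit 0x1000000000000000000000000000000010001) .nil)) .nil)))) (.non (nat_lit 0) (nat_lit 6) (nat_lit 0x68014) (nat_lit 0x3000200010000000000000000000100020000))))))) (.non (nat_lit 0) (nat_lit 6) (nat_lit 0x40154) (nat_lit 0x1000000000000000000030004000300020000)))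

noncomputable def t1541_45 : Tr := (.ex (nat_lit 7) (.split (nat_lit 9) (nat_lit 1) (.split (nat_lit 4) (nat_lit 3) (.pd (.cons (nat_lit 0) (nat_lit 8) (nat_lit 0) (nat_lit 0x1065532110) (nat_lit 0xf423f00000f423fb71ae1f156f423fb71aea2c285b8d400000) (.cons (nat_lit 1) (nat_lit 8) (nat_lit 0x1000000001) (nat_lit 0x65532209) (nat_lit 0x100000f423fb71ae1f156f423fb71aea2c280000000001) .nil)) (.ex (nat_lit 8) (.pd (.cons (nat_lit 0) (nat_lit 9) (nat_lit 0) (nat_lit 0x765532110) (nat_lit 0xf423fb71aea2c2804737f423fb71aea2c289896500000) (.cons (nat_lit 1) (nat_lit 9) (nat_lit 0) (nat_lit 0x765532200) (nat_lit 0xf423fb71aea2c2804737f423fb71aea2c2800000f423f) (.cons (nat_lit 2) (nat_lit 9) (nat_lit 0) (nat_lit 0x765533000) (nat_lit 0xf423fb71aea2c2804737f423fb71ae00000f423f54591) (.cons (nat_lit 3) (nat_lit 9) (nat_lit 0) (nat_lit 0x765540100) (nat_lit 0xf423fb71aea2c2804737f423f00000f423fb71ae1f156) (.cons (nat_lit 4) (nat_lit 9) (nat_lit 0) (nat_lit 0x765502100) (nat_lit 0xf423fb71aea2c280473700000f423fb71aea2c2804737)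 .nil))))) t1541_43) (.split (nat_lit 0xa) (nat_lit 0) (.split (nat_lit 0xa) (nat_lit 1) (.split (nat_lit 0xa) (nat_lit 2) (.split (nat_lit 0xa) (nat_lit 3) (.split (nat_lit 0xa) (nat_lit 4) (.split (nat_lit 0xa) (nat_lit 5) (.split (nat_lit 0xa) (nat_lit 6) (.split (nat_lit 0xa) (nat_lit 7) (.split (nat_lit 0xa) (nat_lit 9) (.unj (nat_lit 0x155) (nat_lit 0x10002000300040003) (nat_lit 0x115400) (nat_lit 0x10000000200030004000300000000000000000000)) (.non (nat_lit 0) (nat_lit 6) (nat_lit 0x150000) (nat_lit 0x10001000100000000000000000000000000000000))) (.non (nat_lit 0) (nat_lit 6) (nat_lit 0x114000) (nat_lit 0x10000000100010000000000000000000000000000))) (.non (nat_lit 0) (nat_lit 7) (nat_lit 0x151400) (nat_lit 0x30001000200000004000300000000000000000000))) (.non (nat_lit 0) (nat_lit 6) (nat_lit 0x154554) (nat_lit 0x40005000600030000000200010002000300040000))) (.non (nat_lit 0) (nat_lit 6) (nat_lit 0x150154) (nat_lit 0x10001000100000000000000010001000100010000))) (.non (nat_lit 0) (nat_lit 6) (nat_lit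 0x154150) (nat_lit 0x20001000200010000000000010002000100000000))) (.non (nat_lit 0) (nat_lit 6) (nat_lit 0x150014) (nat_lit 0x10001000100000000000000000000000100010000))) (.non (nat_lit 0) (nat_lit 6) (nat_lit 0x150004) (nat_lit 0x10001000100000000000000000000000000010000))) (.non (nat_lit 1) (nat_lit 6) (nat_lit 0x150001) (nat_lit 0x10001000100000000000000000000000000000001))))) t1541_44) (.non (nat_lit 0) (nat_lit 6) (nat_lit 0xa8014) (nat_lit 0x3000200010000000000000000000200040000))) (.split (nat_lit 0xa) (nat_lit 0) (.split (nat_lit 0xa) (nat_lit 1) (.split (nat_lit 0xa) (nat_lit 2) (.split (nat_lit 0xa) (nat_lit 3) (.split (nat_lit 0xa) (nat_lit 4) (.split (nat_lit 0xa) (nat_lit 8) (.split (nat_lit 0xa) (nat_lit 9) (.split (nat_lit 0xa) (nat_lit 5) (.split (nat_lit 0xa) (nat_lit 6) (.unj (nat_lit 0x155) (nat_lit 0x10002000300040003) (nat_lit 0x115400) (nat_lit 0x10000000100020002000200000000000000000000)) (.unj (nat_lit 0x40005) (nat_lit 0x1000000000000000000000000000000010001) (nat_lit 0x105000)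 (nat_lit 0x10000000000010001000000000000000000000000))) (.split (nat_lit 0xa) (nat_lit 6) (.unj (nat_lit 0x40005) (nat_lit 0x1000000000000000000000000000000010001) (nat_lit 0x105400) (nat_lit 0x10000000000010001000100000000000000000000)) (.non (nat_lit 0) (nat_lit 7) (nat_lit 0x101400) (nat_lit 0x10000000000000001000100000000000000000000)))) (.non (nat_lit 0) (nat_lit 6) (nat_lit 0x154000) (nat_lit 0x10001000100010000000000000000000000000000))) (.non (nat_lit 0) (nat_lit 6) (nat_lit 0x114000) (nat_lit 0x10000000100010000000000000000000000000000))) (.non (nat_lit 0) (nat_lit 6) (nat_lit 0x154154) (nat_lit 0x10001000100010000000000010001000100010000))) (.non (nat_lit 0) (nat_lit 6) (nat_lit 0x154054) (nat_lit 0x10001000100010000000000000001000100010000))) (.non (nat_lit 0) (nat_lit 6) (nat_lit 0x154014) (nat_lit 0x10001000100010000000000000000000100010000))) (.star (nat_lit 0xa) (nat_lit 1) (nat_lit 7))) (.star (nat_lit 0xa) (nat_lit 0) (nat_lit 7))))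

noncomputable def t1541_46 : Tr := (.ex (nat_lit 5) (.ex (nat_lit 6) t1541_45 (.split (nat_lit 0xa) (nat_lit 0) (.split (nat_lit 0xa) (nat_lit 1) (.split (nat_lit 0xa) (nat_lit 2) (.split (nat_lit 0xa) (nat_lit 3) (.split (nat_lit 0xa) (nat_lit 4) (.split (nat_lit 0xa) (nat_lit 5) (.split (nat_lit 0xa) (nat_lit 8) (.split (nat_lit 0xa) (nat_lit 9) (.split (nat_lit 0xa) (nat_lit 7) (.unj (nat_lit 0x40005) (nat_lit 0x1000000000000000000000000000000010001) (nat_lit 0x105400) (nat_lit 0x10000000000010002000200000000000000000000)) (.unj (nat_lit 0x40005) (nat_lit 0x1000000000000000000000000000000010001) (nat_lit 0x105000) (nat_lit 0x10000000000010001000000000000000000000000))) (.non (nat_lit 0) (nat_lit 7) (nat_lit 0x151400) (nat_lit 0x30002000100000004000300000000000000000000))) (.non (nat_lit 0) (nat_lit 7) (nat_lit 0x151400) (nat_lit 0x30001000200000004000300000000000000000000))) (.non (nat_lit 0) (nat_lit 7) (nat_lit 0x101400) (nat_lit 0x10000000000000001000100000000000000000000))) (.non (nat_lit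 0) (nat_lit 7) (nat_lit 0x101540) (nat_lit 0x30000000000000004000300020001000000000000))) (.non (nat_lit 0) (nat_lit 7) (nat_lit 0x101540) (nat_lit 0x30000000000000004000300010002000000000000))) (.non (nat_lit 0) (nat_lit 7) (nat_lit 0x101450) (nat_lit 0x30000000000000004000300000001000200000000))) (.star (nat_lit 0xa) (nat_lit 1) (nat_lit 6))) (.star (nat_lit 0xa) (nat_lit 0) (nat_lit 6)))) (.split (nat_lit 0xa) (nat_lit 0) (.split (nat_lit 0xa) (nat_lit 1) (.split (nat_lit 0xa) (nat_lit 2) (.split (nat_lit 0xa) (nat_lit 3) (.split (nat_lit 0xa) (nat_lit 4) (.split (nat_lit 0xa) (nat_lit 6) (.split (nat_lit 0xa) (nat_lit 8) (.split (nat_lit 0xa) (nat_lit 9) (.split (nat_lit 0xa) (nat_lit 7) (.unj (nat_lit 0x40005) (nat_lit 0x1000000000000000000000000000000010001) (nat_lit 0x105400) (nat_lit 0x10000000000010002000200000000000000000000)) (.unj (nat_lit 0x40005) (nat_lit 0x1000000000000000000000000000000010001) (nat_lit 0x105400) (nat_lit 0x10000000000010001000100000000000000000000))) (.non (nat_lit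 0) (nat_lit 6) (nat_lit 0x154414) (nat_lit 0x20003000200010000000100000000000100020000))) (.non (nat_lit 0) (nat_lit 6) (nat_lit 0x154554) (nat_lit 0x40005000600030000000200010002000300040000))) (.non (nat_lit 0) (nat_lit 7) (nat_lit 0x101400) (nat_lit 0x10000000000000001000100000000000000000000))) (.non (nat_lit 0) (nat_lit 7) (nat_lit 0x101540) (nat_lit 0x30000000000000003000400020001000000000000))) (.non (nat_lit 0) (nat_lit 6) (nat_lit 0x154554) (nat_lit 0x40003000200010000000200030006000500040000))) (.non (nat_lit 0) (nat_lit 6) (nat_lit 0x140554) (nat_lit 0x20001000000000000000100010002000300020000))) (.non (nat_lit 0) (nat_lit 6) (nat_lit 0x150454) (nat_lit 0x20002000100000000000100000001000200030000))) (.non (nat_lit 1) (nat_lit 7) (nat_lit 0x141401) (nat_lit 0x30001000000000003000400000000000000000002))))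

noncomputable def t1541_47 : Tr := (.split (nat_lit 9) (nat_lit 0) (.pd (.cons (nat_lit 0) (nat_lit 5) (nat_lit 0) (nat_lit 0x31987032110) (nat_lit 0xf423f98965a2c28b71aef423f00000f423f7a11d7a11b1869700000) (.cons (nat_lit 0) (nat_lit 8) (nat_lit 0) (nat_lit 0x31065532110) (nat_lit 0xf423ff423f00000f423fb71ae1f156f423f7a11d7a11b3d08800000) (.cons (nat_lit 0) (nat_lit 9) (nat_lit 0) (nat_lit 0x30765532110) (nat_lit 0xf423f00000f423fb71aea2c2804737f423f7a11d7a11b7a11900000) (.cons (nat_lit 1) (nat_lit 5) (nat_lit 0) (nat_lit 0x30987032200) (nat_lit 0xf423f98965a2c28b71aef423f00000f423f7a11d7a11b0000030d3b) (.cons (nat_lit 1) (nat_lit 8) (nat_lit 0) (nat_lit 0x30065532200) (nat_lit 0xf423ff423f00000f423fb71ae1f156f423f7a11d7a11b000007a11e) (.cons (nat_lit 1) (nat_lit 9) (nat_lit 0) (nat_lit 0x30765532200) (nat_lit 0xf423f00000f423fb71aea2c2804737f423f7a11d7a11b00000f423f) (.cons (nat_lit 2) (nat_lit 9) (nat_lit 0) (nat_lit 0x30765533000) (nat_lit 0xf423f00000f423fb71aea2c2804737f423f7a11d00000f423f54591)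 (.cons (nat_lit 3) (nat_lit 9) (nat_lit 0) (nat_lit 0xa0765540100) (nat_lit 0xf423f00000f423fb71aea2c2804737f423f00000f423fb71ae1f156) .nil)))))))) (.leaf (.cons (nat_lit 0x40005) (nat_lit 0x1000000000000000000000000000000010001) (.cons (nat_lit 0x100055) (nat_lit 0x10000000000000000000000000002000300040003) .nil)) .nil)) (.pd (.cons (nat_lit 0) (nat_lit 5) (nat_lit 0) (nat_lit 0x31987032110) (nat_lit 0xf423f98965a2c28b71aef423f00000f423f7a11d7a11b1869700000) (.cons (nat_lit 0) (nat_lit 8) (nat_lit 0) (nat_lit 0x31065532110) (nat_lit 0xf423ff423f00000f423fb71ae1f156f423f7a11d7a11b3d08800000) (.cons (nat_lit 0) (nat_lit 9) (nat_lit 0) (nat_lit 0x30765532110) (nat_lit 0xf423f00000f423fb71aea2c2804737f423f7a11d7a11b7a11900000) (.cons (nat_lit 1) (nat_lit 8) (nat_lit 0x1000000001) (nat_lit 0x30065532209) (nat_lit 0xf423f0000100000f423fb71ae1f156f423f7a11d7a11b0000000001) (.cons (nat_lit 1) (nat_lit 9) (nat_lit 0) (nat_lit 0x30765532200) (nat_lit 0xf423f00000f423fb71aea2c2804737f423f7a11d7a11b00000f423f)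 (.cons (nat_lit 2) (nat_lit 9) (nat_lit 0) (nat_lit 0x30765533000) (nat_lit 0xf423f00000f423fb71aea2c2804737f423f7a11d00000f423f54591) (.cons (nat_lit 3) (nat_lit 9) (nat_lit 0) (nat_lit 0xa0765540100) (nat_lit 0xf423f00000f423fb71aea2c2804737f423f00000f423fb71ae1f156) .nil))))))) (.leaf (.cons (nat_lit 0x55001) (nat_lit 0x4000300020001000000000000000000000003) (.cons (nat_lit 0x40005) (nat_lit 0x1000000000000000000000000000000010001) (.cons (nat_lit 0x100055) (nat_lit 0x10000000000000000000000000002000300040003) .nil))) .nil)))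

noncomputable def t1541_48 : Tr := (.ex (nat_lit 7) (.split (nat_lit 9) (nat_lit 1) (.split (nat_lit 4) (nat_lit 3) (.split (nat_lit 0xa) (nat_lit 3) (.split (nat_lit 9) (nat_lit 8) (.split (nat_lit 9) (nat_lit 0) (.pd (.cons (nat_lit 0) (nat_lit 5) (nat_lit 0) (nat_lit 0x31987032110) (nat_lit 0xf423f98965a2c28b71aef423f00000f423f7a11d7a11b1869700000) (.cons (nat_lit 0) (nat_lit 8) (nat_lit 0) (nat_lit 0x31065532110) (nat_lit 0xf423ff423f00000f423fb71ae1f156f423f7a11d7a11b3d08800000) (.cons (nat_lit 0) (nat_lit 9) (nat_lit 0) (nat_lit 0x30765532110) (nat_lit 0xf423f00000f423fb71aea2c2804737f423f7a11d7a11b7a11900000) (.cons (nat_lit 1) (nat_lit 5) (nat_lit 0) (nat_lit 0x30987032200) (nat_lit 0xf423f98965a2c28b71aef423f00000f423f7a11d7a11b00000927bd) (.cons (nat_lit 1) (nat_lit 8) (nat_lit 0) (nat_lit 0x30065532200) (nat_lit 0xf423ff423f00000f423fb71ae1f156f423f7a11d7a11b00000b71ae) (.cons (nat_lit 1) (nat_lit 9) (nat_lit 0) (nat_lit 0x30765532200) (nat_lit 0xf423f00000f423fb71aea2c2804737f423f7a11d7a11b00000f423f)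 (.cons (nat_lit 2) (nat_lit 9) (nat_lit 0) (nat_lit 0x30765533000) (nat_lit 0xf423f00000f423fb71aea2c2804737f423f7a11d00000f423f54591) (.cons (nat_lit 3) (nat_lit 9) (nat_lit 0) (nat_lit 0xa0765540100) (nat_lit 0xf423f00000f423fb71aea2c2804737f423f00000f423fb71ae1f156) .nil)))))))) (.leaf (.cons (nat_lit 0x40005) (nat_lit 0x1000000000000000000000000000000010001) (.cons (nat_lit 0x100055) (nat_lit 0x10000000000000000000000000002000300040003) .nil)) .nil)) t1541_47) (.non (nat_lit 0) (nat_lit 6) (nat_lit 0x68014) (nat_lit 0x3000200010000000000000000000100020000))) (.non (nat_lit 0) (nat_lit 6) (nat_lit 0x200150) (nat_lit 0x10000000000000000000000010002000100000000))) (.non (nat_lit 0) (nat_lit 6) (nat_lit 0x100250) (nat_lit 0x10000000000000000000000010002000100000000))) (.non (nat_lit 0) (nat_lit 6) (nat_lit 0xa8014) (nat_lit 0x3000200010000000000000000000200040000))) (.split (nat_lit 0xb) (nat_lit 0) (.split (nat_lit 0xb) (nat_lit 1) (.split (nat_lit 0xb) (nat_lit 2) (.split (nat_lit 0xb) (nat_lit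 3) (.split (nat_lit 0xb) (nat_lit 4) (.split (nat_lit 0xb) (nat_lit 8) (.split (nat_lit 0xb) (nat_lit 9) (.split (nat_lit 0xb) (nat_lit 0xa) (.split (nat_lit 0xb) (nat_lit 5) (.split (nat_lit 0xb) (nat_lit 6) (.unj (nat_lit 0x155) (nat_lit 0x10002000300040003) (nat_lit 0x415400) (nat_lit 0x100000000000100020002000200000000000000000000)) (.unj (nat_lit 0x40005) (nat_lit 0x1000000000000000000000000000000010001) (nat_lit 0x405000) (nat_lit 0x100000000000000010001000000000000000000000000))) (.split (nat_lit 0xb) (nat_lit 6) (.unj (nat_lit 0x40005) (nat_lit 0x1000000000000000000000000000000010001) (nat_lit 0x405400) (nat_lit 0x100000000000000010001000100000000000000000000)) (.non (nat_lit 0) (nat_lit 7) (nat_lit 0x401400) (nat_lit 0x100000000000000000001000100000000000000000000)))) (.non (nat_lit 0) (nat_lit 6) (nat_lit 0x554054) (nat_lit 0x100010001000100010000000000000001000100010000))) (.non (nat_lit 0) (nat_lit 6) (nat_lit 0x454000) (nat_lit 0x100000001000100010000000000000000000000000000))) (.non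 (nat_lit 0) (nat_lit 6) (nat_lit 0x414000) (nat_lit 0x100000000000100010000000000000000000000000000))) (.non (nat_lit 0) (nat_lit 6) (nat_lit 0x544154) (nat_lit 0x200020001000000010000000000030004000300020000))) (.non (nat_lit 0) (nat_lit 6) (nat_lit 0x500150) (nat_lit 0x100010000000000000000000000010002000100000000))) (.non (nat_lit 0) (nat_lit 6) (nat_lit 0x454014) (nat_lit 0x100000001000100010000000000000000000100010000))) (.star (nat_lit 0xb) (nat_lit 1) (nat_lit 7))) (.star (nat_lit 0xb) (nat_lit 0) (nat_lit 7))))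

noncomputable def t1541_49 : Tr := (.ex (nat_lit 5) (.ex (nat_lit 6) t1541_48 (.split (nat_lit 0xb) (nat_lit 0) (.split (nat_lit 0xb) (nat_lit 1) (.split (nat_lit 0xb) (nat_lit 2) (.split (nat_lit 0xb) (nat_lit 3) (.split (nat_lit 0xb) (nat_lit 4) (.split (nat_lit 0xb) (nat_lit 5) (.split (nat_lit 0xb) (nat_lit 8) (.split (nat_lit 0xb) (nat_lit 9) (.split (nat_lit 0xb) (nat_lit 0xa) (.split (nat_lit 0xb) (nat_lit 7) (.unj (nat_lit 0x40005) (nat_lit 0x1000000000000000000000000000000010001) (nat_lit 0x405400) (nat_lit 0x100000000000000010002000200000000000000000000)) (.unj (nat_lit 0x40005) (nat_lit 0x1000000000000000000000000000000010001) (nat_lit 0x405000) (nat_lit 0x100000000000000010001000000000000000000000000))) (.non (nat_lit 0) (nat_lit 6) (nat_lit 0x554154) (nat_lit 0x200040003000200010000000000030006000500040000))) (.non (nat_lit 0) (nat_lit 6) (nat_lit 0x550154) (nat_lit 0x100010002000100000000000000010002000200020000))) (.non (nat_lit 0) (nat_lit 6) (nat_lit 0x554154) (nat_lit 0x100010002000200010000000000010002000200020000)))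 (.non (nat_lit 0) (nat_lit 7) (nat_lit 0x401400) (nat_lit 0x100000000000000000001000100000000000000000000))) (.non (nat_lit 0) (nat_lit 6) (nat_lit 0x554154) (nat_lit 0x200030003000200010000000000040006000500040000))) (.non (nat_lit 0) (nat_lit 6) (nat_lit 0x500150) (nat_lit 0x100010000000000000000000000010002000100000000))) (.non (nat_lit 0) (nat_lit 6) (nat_lit 0x500154) (nat_lit 0x100010000000000000000000000010002000200010000))) (.star (nat_lit 0xb) (nat_lit 1) (nat_lit 6))) (.star (nat_lit 0xb) (nat_lit 0) (nat_lit 6)))) (.split (nat_lit 0xb) (nat_lit 0) (.split (nat_lit 0xb) (nat_lit 1) (.split (nat_lit 0xb) (nat_lit 2) (.split (nat_lit 0xb) (nat_lit 3) (.split (nat_lit 0xb) (nat_lit 4) (.split (nat_lit 0xb) (nat_lit 6) (.split (nat_lit 0xb) (nat_lit 8) (.split (nat_lit 0xb) (nat_lit 9) (.split (nat_lit 0xb) (nat_lit 0xa) (.split (nat_lit 0xb) (nat_lit 7) (.unj (nat_lit 0x40005) (nat_lit 0x1000000000000000000000000000000010001) (nat_lit 0x405400) (nat_lit 0x100000000000000010002000200000000000000000000))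 (.unj (nat_lit 0x40005) (nat_lit 0x1000000000000000000000000000000010001) (nat_lit 0x405400) (nat_lit 0x100000000000000010001000100000000000000000000))) (.non (nat_lit 0) (nat_lit 6) (nat_lit 0x554154) (nat_lit 0x200040003000200010000000000030006000500040000))) (.non (nat_lit 0) (nat_lit 6) (nat_lit 0x454414) (nat_lit 0x200000003000200010000000100000000000100020000))) (.non (nat_lit 0) (nat_lit 6) (nat_lit 0x554454) (nat_lit 0x400010005000600030000000200000002000300040000))) (.non (nat_lit 0) (nat_lit 7) (nat_lit 0x401400) (nat_lit 0x100000000000000000001000100000000000000000000))) (.non (nat_lit 0) (nat_lit 6) (nat_lit 0x554154) (nat_lit 0x200030003000200010000000000040006000500040000))) (.non (nat_lit 0) (nat_lit 6) (nat_lit 0x500150) (nat_lit 0x100010000000000000000000000010002000100000000))) (.non (nat_lit 0) (nat_lit 6) (nat_lit 0x540454) (nat_lit 0x200010001000000000000000100000002000300020000))) (.non (nat_lit 0) (nat_lit 6) (nat_lit 0x554054) (nat_lit 0x200010003000200010000000000000002000300040000)))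 (.non (nat_lit 1) (nat_lit 7) (nat_lit 0x441401) (nat_lit 0x300000001000000000003000400000000000000000002))))

noncomputable def t1541_50 : Tr := (.ex (nat_lit 2) (.ex (nat_lit 3) t1541_46 (.split (nat_lit 0xa) (nat_lit 1) (.split (nat_lit 0xa) (nat_lit 2) (.split (nat_lit 0xa) (nat_lit 4) (.split (nat_lit 0xa) (nat_lit 5) (.split (nat_lit 0xa) (nat_lit 6) (.split (nat_lit 0xa) (nat_lit 7) (.split (nat_lit 0xa) (nat_lit 8) (.split (nat_lit 0xa) (nat_lit 9) (.split (nat_lit 0xa) (nat_lit 0) (.st (nat_lit 8) (nat_lit 0) (nat_lit 6) (nat_lit 0x154154) (nat_lit 0x10002000200010000000000010002000200020000) (nat_lit 1) (nat_lit 1) (.st (nat_lit 9) (nat_lit 0) (nat_lit 6) (nat_lit 0x150154) (nat_lit 0x10002000100000000000000010002000200020000) (nat_lit 1) (nat_lit 1) t1541_49)) (.split (nat_lit 0xa) (nat_lit 0) (.split (nat_lit 0xa) (nat_lit 3) (.split (nat_lit 9) (nat_lit 0) (.split (nat_lit 9) (nat_lit 1) (.sup (nat_lit 0x3000d00160020001a00000000000000000000) (nat_lit 0x50000000000000000000000030006000500030003))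 (.non (nat_lit 0) (nat_lit 6) (nat_lit 0xa8014) (nat_lit 0x3000200010000000000000000000200040000))) (.non (nat_lit 1) (nat_lit 6) (nat_lit 0x1a8001) (nat_lit 0x20003000200010000000000000000000000000004))) (.non (nat_lit 0) (nat_lit 6) (nat_lit 0x200150) (nat_lit 0x10000000000000000000000010002000100000000))) (.non (nat_lit 1) (nat_lit 6) (nat_lit 0x250081) (nat_lit 0x20002000100000000000000000001000000000003)))) (.non (nat_lit 0) (nat_lit 6) (nat_lit 0x140054) (nat_lit 0x10001000000000000000000000001000100010000))) (.non (nat_lit 0) (nat_lit 6) (nat_lit 0x154150) (nat_lit 0x20001000200010000000000010002000100000000))) (.non (nat_lit 0) (nat_lit 6) (nat_lit 0x154054) (nat_lit 0x10001000100010000000000000001000100010000))) (.non (nat_lit 0) (nat_lit 7) (nat_lit 0x101540) (nat_lit 0x30000000000000004000300010002000000000000))) (.non (nat_lit 0) (nat_lit 6) (nat_lit 0x154554) (nat_lit 0x40003000200010000000200030006000500040000))) (.non (nat_lit 0) (nat_lit 6) (nat_lit 0x100140) (nat_lit 0x10000000000000000000000010001000000000000)))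 (.non (nat_lit 0) (nat_lit 6) (nat_lit 0x100050) (nat_lit 0x10000000000000000000000000001000100000000))) (.non (nat_lit 0) (nat_lit 6) (nat_lit 0x100054) (nat_lit 0x10000000000000000000000000001000100010000)))) (.split (nat_lit 0xa) (nat_lit 1) (.split (nat_lit 0xa) (nat_lit 3) (.split (nat_lit 0xa) (nat_lit 4) (.split (nat_lit 0xa) (nat_lit 5) (.split (nat_lit 0xa) (nat_lit 6) (.split (nat_lit 0xa) (nat_lit 7) (.split (nat_lit 0xa) (nat_lit 8) (.split (nat_lit 0xa) (nat_lit 9) (.split (nat_lit 0xa) (nat_lit 0) (.split (nat_lit 0xa) (nat_lit 2) (.split (nat_lit 9) (nat_lit 1) (.split (nat_lit 9) (nat_lit 8) (.split (nat_lit 4) (nat_lit 3) (.par (nat_lit 0x155154) (nat_lit 0x30004000300020001000000020004000600050000)) (.non (nat_lit 0) (nat_lit 6) (nat_lit 0x100254) (nat_lit 0x10000000000000000000000010002000200010000))) (.non (nat_lit 0) (nat_lit 6) (nat_lit 0x68014) (nat_lit 0x3000200010000000000000000000100020000))) (.non (nat_lit 0) (nat_lit 6) (nat_lit 0x1a0014) (nat_lit 0x10002000100000000000000000000000200030000)))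 (.non (nat_lit 0) (nat_lit 6) (nat_lit 0x200054) (nat_lit 0x10000000000000000000000000001000200010000))) (.split (nat_lit 0xa) (nat_lit 0) (.split (nat_lit 0xa) (nat_lit 2) (.split (nat_lit 9) (nat_lit 0) (.split (nat_lit 9) (nat_lit 1) (.sup (nat_lit 0x20006000b0010000d00000000000000000000) (nat_lit 0x20000000000000000000000010002000300020001)) (.non (nat_lit 0) (nat_lit 6) (nat_lit 0x1a0014) (nat_lit 0x10002000100000000000000000000000200030000))) (.non (nat_lit 1) (nat_lit 6) (nat_lit 0x1a8001) (nat_lit 0x20003000200010000000000000000000000000004))) (.non (nat_lit 0) (nat_lit 6) (nat_lit 0x200054) (nat_lit 0x10000000000000000000000000001000200010000))) (.non (nat_lit 1) (nat_lit 6) (nat_lit 0x250021) (nat_lit 0x20002000100000000000000000000000100000003)))) (.non (nat_lit 0) (nat_lit 6) (nat_lit 0x140014) (nat_lit 0x10001000000000000000000000000000100010000))) (.non (nat_lit 0) (nat_lit 6) (nat_lit 0x150014) (nat_lit 0x10001000100000000000000000000000100010000))) (.non (nat_lit 0) (nat_lit 6)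 (nat_lit 0x154014) (nat_lit 0x10001000100010000000000000000000100010000))) (.non (nat_lit 0) (nat_lit 7) (nat_lit 0x101450) (nat_lit 0x30000000000000004000300000001000200000000))) (.non (nat_lit 0) (nat_lit 6) (nat_lit 0x140554) (nat_lit 0x20001000000000000000100010002000300020000))) (.non (nat_lit 0) (nat_lit 6) (nat_lit 0x100150) (nat_lit 0x10000000000000000000000010001000100000000))) (.non (nat_lit 0) (nat_lit 6) (nat_lit 0x100050) (nat_lit 0x10000000000000000000000000001000100000000))) (.non (nat_lit 0) (nat_lit 6) (nat_lit 0x100014) (nat_lit 0x10000000000000000000000000000000100010000))))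

noncomputable def t1541_51 : Tr := (.ex (nat_lit 0xa) (.ex (nat_lit 0xb) (.split (nat_lit 0xb) (nat_lit 0xa) (.pd (.cons (nat_lit 2) (nat_lit 9) (nat_lit 0) (nat_lit 0xa00765533000) (nat_lit 0xf423fb71ae00000f423fb71aea2c2804737f423fb71ae00000f423f02f7a) .nil) (.leaf (.cons (nat_lit 0x40005) (nat_lit 0x1000000000000000000000000000000010001) (.cons (nat_lit 0x100015) (nat_lit 0x10000000000000000000000000000000100020002) .nil)) .nil)) (.leaf (.cons (nat_lit 0x500005) (nat_lit 0x100010000000000000000000000000000000000010001) .nil) .nil)) (.split (nat_lit 0xc) (nat_lit 0) (.split (nat_lit 0xc) (nat_lit 1) (.split (nat_lit 0xc) (nat_lit 2) (.split (nat_lit 0xc) (nat_lit 3) (.split (nat_lit 0xc) (nat_lit 5) (.split (nat_lit 0xc) (nat_lit 6) (.split (nat_lit 0xc) (nat_lit 7) (.split (nat_lit 0xc) (nat_lit 8) (.split (nat_lit 0xc) (nat_lit 9) (.split (nat_lit 0xc) (nat_lit 0xa) (.split (nat_lit 0xc) (nat_lit 4) (.leaf (.cons (nat_lit 0x1500005) (nat_lit 0x1000200030000000000000000000000000000000000030004)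 .nil) .nil) (.leaf (.cons (nat_lit 0x1500005) (nat_lit 0x1000200030000000000000000000000000000000000030004) .nil) .nil)) (.non (nat_lit 0) (nat_lit 6) (nat_lit 0x1500000) (nat_lit 0x1000100010000000000000000000000000000000000000000))) (.non (nat_lit 0) (nat_lit 6) (nat_lit 0x1454014) (nat_lit 0x2000100000003000200010000000000000000000100020000))) (.non (nat_lit 0) (nat_lit 6) (nat_lit 0x1554014) (nat_lit 0x3000200010003000400020000000000000000000100020000))) (.non (nat_lit 1) (nat_lit 6) (nat_lit 0x1554001) (nat_lit 0x1000100010001000100010000000000000000000000000001))) (.non (nat_lit 0) (nat_lit 7) (nat_lit 0x1501400) (nat_lit 0x3000200010000000000000004000300000000000000000000))) (.non (nat_lit 0) (nat_lit 7) (nat_lit 0x1501400) (nat_lit 0x3000200010000000000000003000400000000000000000000))) (.non (nat_lit 0) (nat_lit 6) (nat_lit 0x1540154) (nat_lit 0x3000200010001000000000000000000020004000300020000))) (.non (nat_lit 0) (nat_lit 6) (nat_lit 0x1550054) (nat_lit 0x3000200010002000100000000000000000002000400030000)))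 (.non (nat_lit 0) (nat_lit 6) (nat_lit 0x1554014) (nat_lit 0x3000200010003000200010000000000000000000200040000))) (.non (nat_lit 1) (nat_lit 6) (nat_lit 0x1500001) (nat_lit 0x1000100010000000000000000000000000000000000000001)))) (.split (nat_lit 0xc) (nat_lit 0) (.split (nat_lit 0xc) (nat_lit 1) (.split (nat_lit 0xc) (nat_lit 2) (.split (nat_lit 0xc) (nat_lit 3) (.split (nat_lit 0xc) (nat_lit 4) (.split (nat_lit 0xc) (nat_lit 5) (.split (nat_lit 0xc) (nat_lit 6) (.split (nat_lit 0xc) (nat_lit 7) (.split (nat_lit 0xc) (nat_lit 8) (.split (nat_lit 0xc) (nat_lit 9) (.split (nat_lit 0xc) (nat_lit 0xb) (.leaf (.cons (nat_lit 0x1500005) (nat_lit 0x1000100020000000000000000000000000000000000020002) .nil) .nil) (.non (nat_lit 0) (nat_lit 6) (nat_lit 0x1500000) (nat_lit 0x1000100010000000000000000000000000000000000000000))) (.non (nat_lit 0) (nat_lit 6) (nat_lit 0x1154014) (nat_lit 0x2000000010003000200010000000000000000000100020000))) (.non (nat_lit 0) (nat_lit 6) (nat_lit 0x1554014) (nat_lit 0x3000100020003000400020000000000000000000100020000)))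 (.non (nat_lit 1) (nat_lit 6) (nat_lit 0x1154001) (nat_lit 0x1000000010001000100010000000000000000000000000001))) (.non (nat_lit 0) (nat_lit 7) (nat_lit 0x1501400) (nat_lit 0x3000100020000000000000004000300000000000000000000))) (.non (nat_lit 0) (nat_lit 7) (nat_lit 0x1501400) (nat_lit 0x3000100020000000000000003000400000000000000000000))) (.non (nat_lit 1) (nat_lit 6) (nat_lit 0x1550141) (nat_lit 0x3000200040002000100000000000000020001000000000003))) (.non (nat_lit 0) (nat_lit 6) (nat_lit 0x1540154) (nat_lit 0x3000100020001000000000000000000020004000300020000))) (.non (nat_lit 0) (nat_lit 6) (nat_lit 0x1550054) (nat_lit 0x3000100020002000100000000000000000002000400030000))) (.non (nat_lit 0) (nat_lit 6) (nat_lit 0x1554014) (nat_lit 0x3000100020003000200010000000000000000000200040000))) (.non (nat_lit 1) (nat_lit 6) (nat_lit 0x1100001) (nat_lit 0x1000000010000000000000000000000000000000000000001))))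

noncomputable def t1541_52 : Tr := (.ex (nat_lit 9) (.split (nat_lit 9) (nat_lit 8) (.pd (.cons (nat_lit 0) (nat_lit 5) (nat_lit 0) (nat_lit 0xa1987032110) (nat_lit 0xf423f98965a2c28b71aef423f00000f423fb71aea2c2836ee300000) (.cons (nat_lit 1) (nat_lit 5) (nat_lit 0) (nat_lit 0x987032200) (nat_lit 0xf423f98965a2c28b71aef423f00000f423fb71aea2c28000005572c) .nil)) (.ex (nat_lit 0xa) (.pd (.cons (nat_lit 2) (nat_lit 9) (nat_lit 0) (nat_lit 0x765533000) (nat_lit 0xf423f00000f423fb71aea2c2804737f423fb71ae00000f423f17500) .nil) (.leaf (.cons (nat_lit 0x40005) (nat_lit 0x1000000000000000000000000000000010001) (.cons (nat_lit 0x100015) (nat_lit 0x10000000000000000000000000000000100020002) .nil)) .nil)) (.split (nat_lit 0xb) (nat_lit 0) (.split (nat_lit 0xb) (nat_lit 1) (.split (nat_lit 0xb) (nat_lit 2) (.split (nat_lit 0xb) (nat_lit 3) (.split (nat_lit 0xb) (nat_lit 5) (.split (nat_lit 0xb) (nat_lit 6) (.split (nat_lit 0xb) (nat_lit 7) (.split (nat_lit 0xb) (nat_lit 8) (.split (nat_lit 0xb) (nat_lit 9)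 (.split (nat_lit 0xb) (nat_lit 4) t1541_51 (.leaf (.cons (nat_lit 0x40005) (nat_lit 0x1000000000000000000000000000000010001) (.cons (nat_lit 0x500105) (nat_lit 0x200030000000000000000000000010000000000030004) (.cons (nat_lit 0x100015) (nat_lit 0x10000000000000000000000000000000100020002) .nil))) .nil)) (.non (nat_lit 0) (nat_lit 6) (nat_lit 0x554014) (nat_lit 0x200010003000200010000000000000000000100020000))) (.non (nat_lit 0) (nat_lit 6) (nat_lit 0x554154) (nat_lit 0x400020005000600030000000000010002000300040000))) (.non (nat_lit 1) (nat_lit 6) (nat_lit 0x554001) (nat_lit 0x100010001000100010000000000000000000000000001))) (.non (nat_lit 1) (nat_lit 7) (nat_lit 0x501401) (nat_lit 0x300020000000000000004000300000000000000000001))) (.non (nat_lit 1) (nat_lit 7) (nat_lit 0x501401) (nat_lit 0x300020000000000000003000400000000000000000001))) (.non (nat_lit 0) (nat_lit 6) (nat_lit 0x554154) (nat_lit 0x400020003000200010000000000030006000500040000))) (.non (nat_lit 0) (nat_lit 6) (nat_lit 0x540154) (nat_lit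 0x200010001000000000000000000010002000300020000))) (.non (nat_lit 0) (nat_lit 6) (nat_lit 0x550054) (nat_lit 0x200010002000100000000000000000001000200030000))) (.non (nat_lit 1) (nat_lit 6) (nat_lit 0x500001) (nat_lit 0x100010000000000000000000000000000000000000001))))) (.non (nat_lit 0) (nat_lit 6) (nat_lit 0x68014) (nat_lit 0x3000200010000000000000000000100020000))) (.split (nat_lit 0xb) (nat_lit 0) (.split (nat_lit 0xb) (nat_lit 1) (.split (nat_lit 0xb) (nat_lit 2) (.split (nat_lit 0xb) (nat_lit 3) (.split (nat_lit 0xb) (nat_lit 4) (.split (nat_lit 0xb) (nat_lit 5) (.split (nat_lit 0xb) (nat_lit 6) (.split (nat_lit 0xb) (nat_lit 7) (.split (nat_lit 0xb) (nat_lit 8) (.split (nat_lit 0xb) (nat_lit 0xa) (.split (nat_lit 0xb) (nat_lit 9) (.split (nat_lit 9) (nat_lit 8) (.par (nat_lit 0x455054) (nat_lit 0x200000004000300020001000000000001000200030000)) (.non (nat_lit 0) (nat_lit 6) (nat_lit 0x460004) (nat_lit 0x100000002000100000000000000000000000000010000))) (.non (nat_lit 0) (nat_lit 6) (nat_lit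 0x850004) (nat_lit 0x100000002000100000000000000000000000000010000))) (.non (nat_lit 0) (nat_lit 6) (nat_lit 0x554014) (nat_lit 0x200010003000200010000000000000000000100020000))) (.non (nat_lit 0) (nat_lit 6) (nat_lit 0x450000) (nat_lit 0x100000001000100000000000000000000000000000000))) (.non (nat_lit 0) (nat_lit 6) (nat_lit 0x454000) (nat_lit 0x100000001000100010000000000000000000000000000))) (.non (nat_lit 0) (nat_lit 7) (nat_lit 0x451400) (nat_lit 0x300000002000100000004000300000000000000000000))) (.non (nat_lit 0) (nat_lit 6) (nat_lit 0x454414) (nat_lit 0x200000003000200010000000100000000000100020000))) (.non (nat_lit 0) (nat_lit 6) (nat_lit 0x454114) (nat_lit 0x200000003000200010000000000010000000100020000))) (.non (nat_lit 0) (nat_lit 6) (nat_lit 0x440054) (nat_lit 0x100000001000000000000000000000001000100010000))) (.non (nat_lit 0) (nat_lit 6) (nat_lit 0x440014) (nat_lit 0x100000001000000000000000000000000000100010000))) (.non (nat_lit 0) (nat_lit 6) (nat_lit 0x440004) (nat_lit 0x100000001000000000000000000000000000000010000)))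 (.non (nat_lit 1) (nat_lit 6) (nat_lit 0x440001) (nat_lit 0x100000001000000000000000000000000000000000001))))

noncomputable def t1541_53 : Tr := (.split (nat_lit 0xa) (nat_lit 0) (.pd (.cons (nat_lit 0) (nat_lit 8) (nat_lit 0) (nat_lit 0xa1065532110) (nat_lit 0xf423ff423f00000f423fb71ae1f156f423fb71aea2c285b8d400000) (.cons (nat_lit 1) (nat_lit 8) (nat_lit 0) (nat_lit 0x65532200) (nat_lit 0xf423ff423f00000f423fb71ae1f156f423fb71aea2c28000007a11d) .nil)) (.ex (nat_lit 8) (.pd (.cons (nat_lit 0) (nat_lit 9) (nat_lit 0) (nat_lit 0xa0765532110) (nat_lit 0xf423f00000f423fb71aea2c2804737f423fb71aea2c289896500000) (.cons (nat_lit 1) (nat_lit 9) (nat_lit 0) (nat_lit 0x765532200) (nat_lit 0xf423f00000f423fb71aea2c2804737f423fb71aea2c2800000b71ae) .nil)) t1541_52) (.split (nat_lit 0xb) (nat_lit 0) (.split (nat_lit 0xb) (nat_lit 1) (.split (nat_lit 0xb) (nat_lit 2) (.split (nat_lit 0xb) (nat_lit 3) (.split (nat_lit 0xb) (nat_lit 4) (.split (nat_lit 0xb) (nat_lit 5) (.split (nat_lit 0xb) (nat_lit 6) (.split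 (nat_lit 0xb) (nat_lit 7) (.split (nat_lit 0xb) (nat_lit 9) (.split (nat_lit 0xb) (nat_lit 0xa) (.unj (nat_lit 0x100015) (nat_lit 0x10000000000000000000000000000000100020002) (nat_lit 0x415400) (nat_lit 0x100000000000200030004000300000000000000000000)) (.non (nat_lit 0) (nat_lit 6) (nat_lit 0x554154) (nat_lit 0x400020005000600030000000000010002000300040000))) (.non (nat_lit 0) (nat_lit 6) (nat_lit 0x450000) (nat_lit 0x100000001000100000000000000000000000000000000))) (.non (nat_lit 0) (nat_lit 6) (nat_lit 0x414000) (nat_lit 0x100000000000100010000000000000000000000000000))) (.non (nat_lit 0) (nat_lit 7) (nat_lit 0x451400) (nat_lit 0x300000001000200000004000300000000000000000000))) (.non (nat_lit 0) (nat_lit 6) (nat_lit 0x454554) (nat_lit 0x400000005000600030000000200010002000300040000))) (.non (nat_lit 0) (nat_lit 6) (nat_lit 0x450154) (nat_lit 0x100000001000100000000000000010001000100010000))) (.non (nat_lit 0) (nat_lit 6) (nat_lit 0x454150) (nat_lit 0x200000001000200010000000000010002000100000000)))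 (.non (nat_lit 0) (nat_lit 6) (nat_lit 0x450014) (nat_lit 0x100000001000100000000000000000000000100010000))) (.non (nat_lit 0) (nat_lit 6) (nat_lit 0x450004) (nat_lit 0x100000001000100000000000000000000000000010000))) (.non (nat_lit 1) (nat_lit 6) (nat_lit 0x450001) (nat_lit 0x100000001000100000000000000000000000000000001))))) (.split (nat_lit 0xa) (nat_lit 0) (.pd (.cons (nat_lit 0) (nat_lit 8) (nat_lit 0) (nat_lit 0xa1065532110) (nat_lit 0xf423ff423f00000f423fb71ae1f156f423fb71aea2c285b8d400000) (.cons (nat_lit 1) (nat_lit 8) (nat_lit 0) (nat_lit 0x65532200) (nat_lit 0xf423ff423f00000f423fb71ae1f156f423fb71aea2c28000003d08d) .nil)) (.st (nat_lit 8) (nat_lit 1) (nat_lit 6) (nat_lit 0x254001) (nat_lit 0x10002000200010000000000000000000000000002) (nat_lit 1) (nat_lit 1) (.pd (.cons (nat_lit 0) (nat_lit 9) (nat_lit 0) (nat_lit 0xa0765532110) (nat_lit 0xf423f00000f423fb71aea2c2804737f423fb71aea2c289896500000) (.cons (nat_lit 1) (nat_lit 9) (nat_lit 0) (nat_lit 0x765532200) (nat_lit 0xf423f00000f423fb71aea2c2804737f423fb71aea2c28000007a11e)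 .nil)) (.st (nat_lit 9) (nat_lit 1) (nat_lit 6) (nat_lit 0x250001) (nat_lit 0x10002000100000000000000000000000000000002) (nat_lit 1) (nat_lit 1) (.split (nat_lit 9) (nat_lit 8) (.pd (.cons (nat_lit 0) (nat_lit 5) (nat_lit 0) (nat_lit 0xa1987032110) (nat_lit 0xf423f98965a2c28b71aef423f00000f423fb71aea2c2836ee300000) (.cons (nat_lit 1) (nat_lit 5) (nat_lit 0) (nat_lit 0x987032200) (nat_lit 0xf423f98965a2c28b71aef423f00000f423fb71aea2c28000001869c) .nil)) (.leaf (.cons (nat_lit 0x100005) (nat_lit 0x10000000000000000000000000000000000010001) .nil) .nil)) (.non (nat_lit 0) (nat_lit 6) (nat_lit 0x68014) (nat_lit 0x3000200010000000000000000000100020000))))))) (.non (nat_lit 1) (nat_lit 6) (nat_lit 0x154001) (nat_lit 0x30003000200010000000000000000000000000004))))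

noncomputable def t1541_54 : Tr := (.ex (nat_lit 0xa) (.ex (nat_lit 0xb) (.split (nat_lit 0xb) (nat_lit 0xa) (.pd (.cons (nat_lit 2) (nat_lit 9) (nat_lit 0) (nat_lit 0xa00765533000) (nat_lit 0xf423fb71ae00000f423fb71aea2c2804737f423f7a11e00000f423f02f7a) .nil) (.leaf (.cons (nat_lit 0x40005) (nat_lit 0x1000000000000000000000000000000010001) (.cons (nat_lit 0x100015) (nat_lit 0x10000000000000000000000000000000100020002) .nil)) .nil)) (.leaf (.cons (nat_lit 0x500005) (nat_lit 0x100010000000000000000000000000000000000010001) .nil) .nil)) (.split (nat_lit 0xc) (nat_lit 0) (.split (nat_lit 0xc) (nat_lit 1) (.split (nat_lit 0xc) (nat_lit 2) (.split (nat_lit 0xc) (nat_lit 3) (.split (nat_lit 0xc) (nat_lit 4) (.split (nat_lit 0xc) (nat_lit 5) (.split (nat_lit 0xc) (nat_lit 6) (.split (nat_lit 0xc) (nat_lit 7) (.split (nat_lit 0xc) (nat_lit 8) (.split (nat_lit 0xc) (nat_lit 9) (.split (nat_lit 0xc) (nat_lit 0xa) (.leaf (.cons (nat_lit 0x1500005) (nat_lit 0x1000200030000000000000000000000000000000000030004)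 .nil) .nil) (.non (nat_lit 0) (nat_lit 6) (nat_lit 0x1500000) (nat_lit 0x1000100010000000000000000000000000000000000000000))) (.non (nat_lit 0) (nat_lit 6) (nat_lit 0x1454014) (nat_lit 0x2000100000003000200010000000000000000000100020000))) (.non (nat_lit 0) (nat_lit 6) (nat_lit 0x1554014) (nat_lit 0x3000200010003000400020000000000000000000100020000))) (.non (nat_lit 1) (nat_lit 6) (nat_lit 0x1554001) (nat_lit 0x1000100010001000100010000000000000000000000000001))) (.non (nat_lit 0) (nat_lit 7) (nat_lit 0x1501400) (nat_lit 0x3000200010000000000000004000300000000000000000000))) (.non (nat_lit 0) (nat_lit 7) (nat_lit 0x1501400) (nat_lit 0x3000200010000000000000003000400000000000000000000))) (.non (nat_lit 0) (nat_lit 6) (nat_lit 0x2800250) (nat_lit 0x2000100000000000000000000000000030004000200000000))) (.non (nat_lit 0) (nat_lit 6) (nat_lit 0x1000250) (nat_lit 0x1000000000000000000000000000000010002000100000000))) (.non (nat_lit 0) (nat_lit 6) (nat_lit 0x1550054) (nat_lit 0x3000200010002000100000000000000000002000400030000)))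 (.non (nat_lit 0) (nat_lit 6) (nat_lit 0x1554014) (nat_lit 0x3000200010003000200010000000000000000000200040000))) (.non (nat_lit 1) (nat_lit 6) (nat_lit 0x1500001) (nat_lit 0x1000100010000000000000000000000000000000000000001)))) (.split (nat_lit 0xc) (nat_lit 0) (.split (nat_lit 0xc) (nat_lit 1) (.split (nat_lit 0xc) (nat_lit 2) (.split (nat_lit 0xc) (nat_lit 3) (.split (nat_lit 0xc) (nat_lit 4) (.split (nat_lit 0xc) (nat_lit 5) (.split (nat_lit 0xc) (nat_lit 6) (.split (nat_lit 0xc) (nat_lit 7) (.split (nat_lit 0xc) (nat_lit 8) (.split (nat_lit 0xc) (nat_lit 9) (.split (nat_lit 0xc) (nat_lit 0xb) (.leaf (.cons (nat_lit 0x1500005) (nat_lit 0x1000100020000000000000000000000000000000000020002) .nil) .nil) (.non (nat_lit 0) (nat_lit 6) (nat_lit 0x1500000) (nat_lit 0x1000100010000000000000000000000000000000000000000))) (.non (nat_lit 0) (nat_lit 6) (nat_lit 0x1154014) (nat_lit 0x2000000010003000200010000000000000000000100020000))) (.non (nat_lit 0) (nat_lit 6) (nat_lit 0x1554014) (nat_lit 0x3000100020003000400020000000000000000000100020000)))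 (.non (nat_lit 1) (nat_lit 6) (nat_lit 0x1154001) (nat_lit 0x1000000010001000100010000000000000000000000000001))) (.non (nat_lit 0) (nat_lit 7) (nat_lit 0x1501400) (nat_lit 0x3000100020000000000000004000300000000000000000000))) (.non (nat_lit 0) (nat_lit 7) (nat_lit 0x1501400) (nat_lit 0x3000100020000000000000003000400000000000000000000))) (.non (nat_lit 0) (nat_lit 6) (nat_lit 0x2200250) (nat_lit 0x2000000010000000000000000000000030004000200000000))) (.non (nat_lit 0) (nat_lit 6) (nat_lit 0x1000250) (nat_lit 0x1000000000000000000000000000000010002000100000000))) (.non (nat_lit 0) (nat_lit 6) (nat_lit 0x1550054) (nat_lit 0x3000100020002000100000000000000000002000400030000))) (.non (nat_lit 0) (nat_lit 6) (nat_lit 0x1554014) (nat_lit 0x3000100020003000200010000000000000000000200040000))) (.non (nat_lit 1) (nat_lit 6) (nat_lit 0x1100001) (nat_lit 0x1000000010000000000000000000000000000000000000001))))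

noncomputable def t1541_55 : Tr := (.pd (.cons (nat_lit 0) (nat_lit 9) (nat_lit 0) (nat_lit 0xa0765532110) (nat_lit 0xf423f00000f423fb71aea2c2804737f423f7a11e7a11c7a11a00000) (.cons (nat_lit 1) (nat_lit 9) (nat_lit 0) (nat_lit 0x765532200) (nat_lit 0xf423f00000f423fb71aea2c2804737f423f7a11e7a11c00000b71ae) .nil)) (.st (nat_lit 9) (nat_lit 0) (nat_lit 6) (nat_lit 0x50254) (nat_lit 0x2000100000000000000010002000200020000) (nat_lit 1) (nat_lit 1) (.split (nat_lit 9) (nat_lit 8) (.pd (.cons (nat_lit 0) (nat_lit 5) (nat_lit 0) (nat_lit 0xa1987032110) (nat_lit 0xf423f98965a2c28b71aef423f00000f423f7a11e7a11c1869800000) (.cons (nat_lit 1) (nat_lit 5) (nat_lit 0) (nat_lit 0x987032200) (nat_lit 0xf423f98965a2c28b71aef423f00000f423f7a11e7a11c000005572c) .nil)) (.ex (nat_lit 0xa) (.pd (.cons (nat_lit 2) (nat_lit 9) (nat_lit 0) (nat_lit 0x765533000) (nat_lit 0xf423f00000f423fb71aea2c2804737f423f7a11e00000f423f17500) .nil) (.leaf (.cons (nat_lit 0x40005) (nat_lit 0x1000000000000000000000000000000010001) (.cons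 (nat_lit 0x100015) (nat_lit 0x10000000000000000000000000000000100020002) .nil)) .nil)) (.split (nat_lit 0xb) (nat_lit 0) (.split (nat_lit 0xb) (nat_lit 1) (.split (nat_lit 0xb) (nat_lit 2) (.split (nat_lit 0xb) (nat_lit 3) (.split (nat_lit 0xb) (nat_lit 4) (.split (nat_lit 0xb) (nat_lit 5) (.split (nat_lit 0xb) (nat_lit 6) (.split (nat_lit 0xb) (nat_lit 7) (.split (nat_lit 0xb) (nat_lit 8) (.split (nat_lit 0xb) (nat_lit 9) t1541_54 (.non (nat_lit 0) (nat_lit 6) (nat_lit 0x554014) (nat_lit 0x200010003000200010000000000000000000100020000))) (.non (nat_lit 0) (nat_lit 6) (nat_lit 0x454254) (nat_lit 0x100000002000200010000000000010002000200020000))) (.non (nat_lit 1) (nat_lit 6) (nat_lit 0x554001) (nat_lit 0x100010001000100010000000000000000000000000001))) (.non (nat_lit 1) (nat_lit 7) (nat_lit 0x501401) (nat_lit 0x300020000000000000004000300000000000000000001))) (.non (nat_lit 1) (nat_lit 7) (nat_lit 0x501401) (nat_lit 0x300020000000000000003000400000000000000000001))) (.non (nat_lit 0) (nat_lit 6)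 (nat_lit 0xa00250) (nat_lit 0x200010000000000000000000000030004000200000000))) (.non (nat_lit 0) (nat_lit 6) (nat_lit 0x400250) (nat_lit 0x100000000000000000000000000010002000100000000))) (.non (nat_lit 0) (nat_lit 6) (nat_lit 0x400254) (nat_lit 0x100000000000000000000000000010002000200010000))) (.non (nat_lit 0) (nat_lit 6) (nat_lit 0x550054) (nat_lit 0x200010002000100000000000000000001000200030000))) (.non (nat_lit 1) (nat_lit 6) (nat_lit 0x500001) (nat_lit 0x100010000000000000000000000000000000000000001))))) (.non (nat_lit 0) (nat_lit 6) (nat_lit 0x68014) (nat_lit 0x3000200010000000000000000000100020000)))))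

noncomputable def t1541_56 : Tr := (.split (nat_lit 9) (nat_lit 1) (.split (nat_lit 4) (nat_lit 3) (.split (nat_lit 9) (nat_lit 0) t1541_53 (.non (nat_lit 1) (nat_lit 6) (nat_lit 0x1a8001) (nat_lit 0x20003000200010000000000000000000000000004))) (.split (nat_lit 4) (nat_lit 3) (.split (nat_lit 9) (nat_lit 0) (.split (nat_lit 0xa) (nat_lit 0) (.pd (.cons (nat_lit 0) (nat_lit 8) (nat_lit 0) (nat_lit 0xa1065532110) (nat_lit 0xf423ff423f00000f423fb71ae1f156f423f7a11e7a11c3d08900000) (.cons (nat_lit 1) (nat_lit 8) (nat_lit 0) (nat_lit 0x65532200) (nat_lit 0xf423ff423f00000f423fb71ae1f156f423f7a11e7a11c000007a11d) .nil)) (.st (nat_lit 8) (nat_lit 0) (nat_lit 6) (nat_lit 0x54254) (nat_lit 0x2000200010000000000010002000200020000) (nat_lit 1) (nat_lit 1) t1541_55)) (.split (nat_lit 0xa) (nat_lit 0) (.pd (.cons (nat_lit 0) (nat_lit 8) (nat_lit 0) (nat_lit 0xa1065532110) (nat_lit 0xf423ff423f00000f423fb71ae1f156f423f7a11e7a11c3d08900000) (.cons (nat_lit 1) (nat_lit 8) (nat_lit 0) (nat_lit 0x65532200) (nat_lit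 0xf423ff423f00000f423fb71ae1f156f423f7a11e7a11c000003d08d) .nil)) (.st (nat_lit 8) (nat_lit 0) (nat_lit 6) (nat_lit 0x54254) (nat_lit 0x2000200010000000000010002000200020000) (nat_lit 1) (nat_lit 1) (.pd (.cons (nat_lit 0) (nat_lit 9) (nat_lit 0) (nat_lit 0xa0765532110) (nat_lit 0xf423f00000f423fb71aea2c2804737f423f7a11e7a11c7a11a00000) (.cons (nat_lit 1) (nat_lit 9) (nat_lit 0) (nat_lit 0x765532200) (nat_lit 0xf423f00000f423fb71aea2c2804737f423f7a11e7a11c000007a11e) .nil)) (.st (nat_lit 9) (nat_lit 0) (nat_lit 6) (nat_lit 0x50254) (nat_lit 0x2000100000000000000010002000200020000) (nat_lit 1) (nat_lit 1) (.split (nat_lit 9) (nat_lit 8) (.pd (.cons (nat_lit 0) (nat_lit 5) (nat_lit 0) (nat_lit 0xa1987032110) (nat_lit 0xf423f98965a2c28b71aef423f00000f423f7a11e7a11c1869800000) (.cons (nat_lit 1) (nat_lit 5) (nat_lit 0) (nat_lit 0x987032200) (nat_lit 0xf423f98965a2c28b71aef423f00000f423f7a11e7a11c000001869c) .nil)) (.leaf (.cons (nat_lit 0x100005) (nat_lit 0x10000000000000000000000000000000000010001)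 .nil) .nil)) (.non (nat_lit 0) (nat_lit 6) (nat_lit 0x68014) (nat_lit 0x3000200010000000000000000000100020000))))))) (.non (nat_lit 1) (nat_lit 6) (nat_lit 0x154001) (nat_lit 0x30003000200010000000000000000000000000004)))) (.non (nat_lit 1) (nat_lit 6) (nat_lit 0x1a8001) (nat_lit 0x20003000200010000000000000000000000000004))) (.non (nat_lit 0) (nat_lit 6) (nat_lit 0x40154) (nat_lit 0x1000000000000000000030004000300020000)))) (.non (nat_lit 0) (nat_lit 6) (nat_lit 0xa8014) (nat_lit 0x3000200010000000000000000000200040000)))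

noncomputable def t1541_57 : Tr := (.ex (nat_lit 6) (.ex (nat_lit 7) t1541_56 (.split (nat_lit 0xb) (nat_lit 0) (.split (nat_lit 0xb) (nat_lit 1) (.split (nat_lit 0xb) (nat_lit 2) (.split (nat_lit 0xb) (nat_lit 3) (.split (nat_lit 0xb) (nat_lit 4) (.split (nat_lit 0xb) (nat_lit 8) (.split (nat_lit 0xb) (nat_lit 9) (.split (nat_lit 0xb) (nat_lit 0xa) (.split (nat_lit 0xb) (nat_lit 5) (.split (nat_lit 0xb) (nat_lit 6) (.unj (nat_lit 0x100015) (nat_lit 0x10000000000000000000000000000000100020002) (nat_lit 0x415400) (nat_lit 0x100000000000100020002000200000000000000000000)) (.unj (nat_lit 0x40005) (nat_lit 0x1000000000000000000000000000000010001) (nat_lit 0x405000) (nat_lit 0x100000000000000010001000000000000000000000000))) (.split (nat_lit 0xb) (nat_lit 6) (.unj (nat_lit 0x40005) (nat_lit 0x1000000000000000000000000000000010001) (nat_lit 0x405400) (nat_lit 0x100000000000000010001000100000000000000000000)) (.non (nat_lit 0) (nat_lit 7) (nat_lit 0x401400) (nat_lit 0x100000000000000000001000100000000000000000000))))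 (.non (nat_lit 1) (nat_lit 6) (nat_lit 0x554001) (nat_lit 0x100010001000100010000000000000000000000000001))) (.non (nat_lit 0) (nat_lit 6) (nat_lit 0x454000) (nat_lit 0x100000001000100010000000000000000000000000000))) (.non (nat_lit 0) (nat_lit 6) (nat_lit 0x414000) (nat_lit 0x100000000000100010000000000000000000000000000))) (.non (nat_lit 0) (nat_lit 6) (nat_lit 0x454154) (nat_lit 0x100000001000100010000000000010001000100010000))) (.non (nat_lit 0) (nat_lit 6) (nat_lit 0x454054) (nat_lit 0x100000001000100010000000000000001000100010000))) (.non (nat_lit 0) (nat_lit 6) (nat_lit 0x454014) (nat_lit 0x100000001000100010000000000000000000100010000))) (.star (nat_lit 0xb) (nat_lit 1) (nat_lit 7))) (.star (nat_lit 0xb) (nat_lit 0) (nat_lit 7)))) (.split (nat_lit 0xb) (nat_lit 0) (.split (nat_lit 0xb) (nat_lit 1) (.split (nat_lit 0xb) (nat_lit 2) (.split (nat_lit 0xb) (nat_lit 3) (.split (nat_lit 0xb) (nat_lit 4) (.split (nat_lit 0xb) (nat_lit 5) (.split (nat_lit 0xb) (nat_lit 8) (.split (nat_lit 0xb)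 (nat_lit 9) (.split (nat_lit 0xb) (nat_lit 0xa) (.split (nat_lit 0xb) (nat_lit 7) (.unj (nat_lit 0x40005) (nat_lit 0x1000000000000000000000000000000010001) (nat_lit 0x405400) (nat_lit 0x100000000000000010002000200000000000000000000)) (.unj (nat_lit 0x40005) (nat_lit 0x1000000000000000000000000000000010001) (nat_lit 0x405000) (nat_lit 0x100000000000000010001000000000000000000000000))) (.non (nat_lit 1) (nat_lit 7) (nat_lit 0x501401) (nat_lit 0x300020000000000000004000300000000000000000001))) (.non (nat_lit 0) (nat_lit 7) (nat_lit 0x451400) (nat_lit 0x300000002000100000004000300000000000000000000))) (.non (nat_lit 0) (nat_lit 7) (nat_lit 0x451400) (nat_lit 0x300000001000200000004000300000000000000000000))) (.non (nat_lit 0) (nat_lit 7) (nat_lit 0x401400) (nat_lit 0x100000000000000000001000100000000000000000000))) (.non (nat_lit 0) (nat_lit 7) (nat_lit 0x401540) (nat_lit 0x300000000000000000004000300020001000000000000))) (.non (nat_lit 0) (nat_lit 7) (nat_lit 0x401540) (nat_lit 0x300000000000000000004000300010002000000000000)))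 (.non (nat_lit 0) (nat_lit 7) (nat_lit 0x401450) (nat_lit 0x300000000000000000004000300000001000200000000))) (.star (nat_lit 0xb) (nat_lit 1) (nat_lit 6))) (.star (nat_lit 0xb) (nat_lit 0) (nat_lit 6))))

noncomputable def t1541_58 : Tr := (.split (nat_lit 4) (nat_lit 3) (.split (nat_lit 9) (nat_lit 8) (.split (nat_lit 9) (nat_lit 0) (.split (nat_lit 0xa) (nat_lit 0) (.split (nat_lit 0xb) (nat_lit 0) (.pd (.cons (nat_lit 0) (nat_lit 5) (nat_lit 0) (nat_lit 0xba1987032110) (nat_lit 0xf423ff423f98965a2c28b71aef423f00000f423fb71aea2c2836ee300000) (.cons (nat_lit 0) (nat_lit 8) (nat_lit 0) (nat_lit 0xba1065532110) (nat_lit 0xf423ff423ff423f00000f423fb71ae1f156f423fb71aea2c285b8d400000) (.cons (nat_lit 0) (nat_lit 9) (nat_lit 0) (nat_lit 0xba0765532110) (nat_lit 0xf423ff423f00000f423fb71aea2c2804737f423fb71aea2c289896500000) (.cons (nat_lit 1) (nat_lit 5) (nat_lit 0) (nat_lit 0x987032200) (nat_lit 0xf423ff423f98965a2c28b71aef423f00000f423fb71aea2c28000001869b) (.cons (nat_lit 1) (nat_lit 8) (nat_lit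 0) (nat_lit 0x65532200) (nat_lit 0xf423ff423ff423f00000f423fb71ae1f156f423fb71aea2c28000003d08c) (.cons (nat_lit 1) (nat_lit 9) (nat_lit 0) (nat_lit 0x765532200) (nat_lit 0xf423ff423f00000f423fb71aea2c2804737f423fb71aea2c28000007a11d) .nil)))))) (.leaf (.cons (nat_lit 0x500005) (nat_lit 0x100010000000000000000000000000000000000020002) .nil) .nil)) (.non (nat_lit 1) (nat_lit 6) (nat_lit 0x940001) (nat_lit 0x100010001000000000000000000000000000000000002))) (.non (nat_lit 1) (nat_lit 6) (nat_lit 0x640001) (nat_lit 0x100010001000000000000000000000000000000000002))) (.non (nat_lit 1) (nat_lit 6) (nat_lit 0x580001) (nat_lit 0x100010001000000000000000000000000000000000002))) (.non (nat_lit 0) (nat_lit 6) (nat_lit 0x68014) (nat_lit 0x3000200010000000000000000000100020000))) (.split (nat_lit 4) (nat_lit 3) (.split (nat_lit 9) (nat_lit 8) (.split (nat_lit 9) (nat_lit 0) (.split (nat_lit 0xa) (nat_lit 0) (.split (nat_lit 0xb) (nat_lit 0) (.pd (.cons (nat_lit 0) (nat_lit 5) (nat_lit 0) (nat_lit 0xba1987032110)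 (nat_lit 0xf423ff423f98965a2c28b71aef423f00000f423f7a11e7a11c1869800000) (.cons (nat_lit 0) (nat_lit 8) (nat_lit 0) (nat_lit 0xba1065532110) (nat_lit 0xf423ff423ff423f00000f423fb71ae1f156f423f7a11e7a11c3d08900000) (.cons (nat_lit 0) (nat_lit 9) (nat_lit 0) (nat_lit 0xba0765532110) (nat_lit 0xf423ff423f00000f423fb71aea2c2804737f423f7a11e7a11c7a11a00000) (.cons (nat_lit 1) (nat_lit 5) (nat_lit 0) (nat_lit 0x987032200) (nat_lit 0xf423ff423f98965a2c28b71aef423f00000f423f7a11e7a11c000001869b) (.cons (nat_lit 1) (nat_lit 8) (nat_lit 0) (nat_lit 0x65532200) (nat_lit 0xf423ff423ff423f00000f423fb71ae1f156f423f7a11e7a11c000003d08c) (.cons (nat_lit 1) (nat_lit 9) (nat_lit 0) (nat_lit 0x765532200) (nat_lit 0xf423ff423f00000f423fb71aea2c2804737f423f7a11e7a11c000007a11d) .nil)))))) (.leaf (.cons (nat_lit 0x500005) (nat_lit 0x100010000000000000000000000000000000000020002) .nil) .nil)) (.non (nat_lit 1) (nat_lit 6) (nat_lit 0x940001) (nat_lit 0x100010001000000000000000000000000000000000002))) (.non (nat_lit 1)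 (nat_lit 6) (nat_lit 0x640001) (nat_lit 0x100010001000000000000000000000000000000000002))) (.non (nat_lit 1) (nat_lit 6) (nat_lit 0x580001) (nat_lit 0x100010001000000000000000000000000000000000002))) (.non (nat_lit 0) (nat_lit 6) (nat_lit 0x68014) (nat_lit 0x3000200010000000000000000000100020000))) (.non (nat_lit 0) (nat_lit 6) (nat_lit 0x40154) (nat_lit 0x1000000000000000000030004000300020000))))

noncomputable def t1541_59 : Tr := (.ex (nat_lit 6) (.ex (nat_lit 7) (.split (nat_lit 9) (nat_lit 1) t1541_58 (.non (nat_lit 0) (nat_lit 6) (nat_lit 0xa8014) (nat_lit 0x3000200010000000000000000000200040000))) (.split (nat_lit 0xc) (nat_lit 0) (.split (nat_lit 0xc) (nat_lit 1) (.split (nat_lit 0xc) (nat_lit 2) (.split (nat_lit 0xc) (nat_lit 3) (.split (nat_lit 0xc) (nat_lit 4) (.split (nat_lit 0xc) (nat_lit 8) (.split (nat_lit 0xc) (nat_lit 9) (.split (nat_lit 0xc) (nat_lit 0xa) (.split (nat_lit 0xc) (nat_lit 0xb) (.split (nat_lit 0xc) (nat_lit 5) (.split (nat_lit 0xc) (nat_lit 6) (.unj (nat_lit 0x100015)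 (nat_lit 0x10000000000000000000000000000000100020002) (nat_lit 0x1015400) (nat_lit 0x1000000000000000100020002000200000000000000000000)) (.unj (nat_lit 0x40005) (nat_lit 0x1000000000000000000000000000000010001) (nat_lit 0x1005000) (nat_lit 0x1000000000000000000010001000000000000000000000000))) (.split (nat_lit 0xc) (nat_lit 6) (.unj (nat_lit 0x40005) (nat_lit 0x1000000000000000000000000000000010001) (nat_lit 0x1005400) (nat_lit 0x1000000000000000000010001000100000000000000000000)) (.non (nat_lit 0) (nat_lit 7) (nat_lit 0x1001400) (nat_lit 0x1000000000000000000000001000100000000000000000000)))) (.non (nat_lit 1) (nat_lit 6) (nat_lit 0x1454001) (nat_lit 0x1000100000001000100010000000000000000000000000001))) (.non (nat_lit 1) (nat_lit 6) (nat_lit 0x1154001) (nat_lit 0x1000000010001000100010000000000000000000000000001))) (.non (nat_lit 0) (nat_lit 6) (nat_lit 0x1054000) (nat_lit 0x1000000000001000100010000000000000000000000000000))) (.non (nat_lit 0) (nat_lit 6) (nat_lit 0x1014000) (nat_lit 0x1000000000000000100010000000000000000000000000000)))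 (.non (nat_lit 0) (nat_lit 6) (nat_lit 0x1054154) (nat_lit 0x1000000000001000100010000000000010001000100010000))) (.non (nat_lit 0) (nat_lit 6) (nat_lit 0x1054054) (nat_lit 0x1000000000001000100010000000000000001000100010000))) (.non (nat_lit 0) (nat_lit 6) (nat_lit 0x1054014) (nat_lit 0x1000000000001000100010000000000000000000100010000))) (.star (nat_lit 0xc) (nat_lit 1) (nat_lit 7))) (.star (nat_lit 0xc) (nat_lit 0) (nat_lit 7)))) (.split (nat_lit 0xc) (nat_lit 0) (.split (nat_lit 0xc) (nat_lit 1) (.split (nat_lit 0xc) (nat_lit 2) (.split (nat_lit 0xc) (nat_lit 3) (.split (nat_lit 0xc) (nat_lit 4) (.split (nat_lit 0xc) (nat_lit 5) (.split (nat_lit 0xc) (nat_lit 8) (.split (nat_lit 0xc) (nat_lit 9) (.split (nat_lit 0xc) (nat_lit 0xa) (.split (nat_lit 0xc) (nat_lit 0xb) (.split (nat_lit 0xc) (nat_lit 7) (.unj (nat_lit 0x40005) (nat_lit 0x1000000000000000000000000000000010001) (nat_lit 0x1005400) (nat_lit 0x1000000000000000000010002000200000000000000000000)) (.unj (nat_lit 0x40005) (nat_lit 0x1000000000000000000000000000000010001)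 (nat_lit 0x1005000) (nat_lit 0x1000000000000000000010001000000000000000000000000))) (.non (nat_lit 1) (nat_lit 7) (nat_lit 0x1401401) (nat_lit 0x3000200000000000000000004000300000000000000000001))) (.non (nat_lit 1) (nat_lit 7) (nat_lit 0x1101401) (nat_lit 0x3000000020000000000000004000300000000000000000001))) (.non (nat_lit 0) (nat_lit 7) (nat_lit 0x1051400) (nat_lit 0x3000000000002000100000004000300000000000000000000))) (.non (nat_lit 0) (nat_lit 7) (nat_lit 0x1051400) (nat_lit 0x3000000000001000200000004000300000000000000000000))) (.non (nat_lit 0) (nat_lit 7) (nat_lit 0x1001400) (nat_lit 0x1000000000000000000000001000100000000000000000000))) (.non (nat_lit 0) (nat_lit 7) (nat_lit 0x1001540) (nat_lit 0x3000000000000000000000004000300020001000000000000))) (.non (nat_lit 0) (nat_lit 7) (nat_lit 0x1001540) (nat_lit 0x3000000000000000000000004000300010002000000000000))) (.non (nat_lit 0) (nat_lit 7) (nat_lit 0x1001450) (nat_lit 0x3000000000000000000000004000300000001000200000000))) (.star (nat_lit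 0xc) (nat_lit 1) (nat_lit 6))) (.star (nat_lit 0xc) (nat_lit 0) (nat_lit 6))))

noncomputable def t1541_60 : Tr := (.split (nat_lit 0xb) (nat_lit 8) (.split (nat_lit 0xb) (nat_lit 9) (.split (nat_lit 0xb) (nat_lit 0xa) (.st (nat_lit 8) (nat_lit 1) (nat_lit 6) (nat_lit 0x554001) (nat_lit 0x100010002000200010000000000000000000000000002) (nat_lit 1) (nat_lit 1) (.st (nat_lit 9) (nat_lit 1) (nat_lit 6) (nat_lit 0x550001) (nat_lit 0x100010002000100000000000000000000000000000002) (nat_lit 1) (nat_lit 1) (.ex (nat_lit 5) t1541_59 (.split (nat_lit 0xc) (nat_lit 0) (.split (nat_lit 0xc) (nat_lit 1) (.split (nat_lit 0xc) (nat_lit 2) (.split (nat_lit 0xc) (nat_lit 3) (.split (nat_lit 0xc) (nat_lit 4) (.split (nat_lit 0xc) (nat_lit 6) (.split (nat_lit 0xc) (nat_lit 8) (.split (nat_lit 0xc) (nat_lit 9) (.split (nat_lit 0xc) (nat_lit 0xa) (.split (nat_lit 0xc) (nat_lit 0xb) (.split (nat_lit 0xc) (nat_lit 7) (.unj (nat_lit 0x40005) (nat_lit 0x1000000000000000000000000000000010001) (nat_lit 0x1005400) (nat_lit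 0x1000000000000000000010002000200000000000000000000)) (.unj (nat_lit 0x40005) (nat_lit 0x1000000000000000000000000000000010001) (nat_lit 0x1005400) (nat_lit 0x1000000000000000000010001000100000000000000000000))) (.non (nat_lit 1) (nat_lit 6) (nat_lit 0x1554401) (nat_lit 0x2000300020003000200010000000100000000000000000004))) (.non (nat_lit 1) (nat_lit 6) (nat_lit 0x1554401) (nat_lit 0x2000200030003000200010000000100000000000000000004))) (.non (nat_lit 0) (nat_lit 6) (nat_lit 0x1054414) (nat_lit 0x2000000000003000200010000000100000000000100020000))) (.non (nat_lit 0) (nat_lit 6) (nat_lit 0x1054554) (nat_lit 0x4000000000005000600030000000200010002000300040000))) (.non (nat_lit 0) (nat_lit 7) (nat_lit 0x1001400) (nat_lit 0x1000000000000000000000001000100000000000000000000))) (.non (nat_lit 0) (nat_lit 7) (nat_lit 0x1001540) (nat_lit 0x3000000000000000000000003000400020001000000000000))) (.non (nat_lit 0) (nat_lit 6) (nat_lit 0x1054554) (nat_lit 0x4000000000003000200010000000200030006000500040000)))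 (.non (nat_lit 0) (nat_lit 6) (nat_lit 0x1040554) (nat_lit 0x2000000000001000000000000000100010002000300020000))) (.non (nat_lit 0) (nat_lit 6) (nat_lit 0x1050454) (nat_lit 0x2000000000002000100000000000100000001000200030000))) (.non (nat_lit 1) (nat_lit 6) (nat_lit 0x1540001) (nat_lit 0x1000100010001000000000000000000000000000000000002)))))) (.non (nat_lit 1) (nat_lit 6) (nat_lit 0x500001) (nat_lit 0x100010000000000000000000000000000000000000001))) (.non (nat_lit 1) (nat_lit 6) (nat_lit 0x440001) (nat_lit 0x100000001000000000000000000000000000000000001))) (.non (nat_lit 1) (nat_lit 6) (nat_lit 0x450001) (nat_lit 0x100000001000100000000000000000000000000000001)))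

noncomputable def t1541_61 : Tr := (.ex (nat_lit 0) (.ex (nat_lit 5) t1541_57 (.split (nat_lit 0xb) (nat_lit 0) (.split (nat_lit 0xb) (nat_lit 1) (.split (nat_lit 0xb) (nat_lit 2) (.split (nat_lit 0xb) (nat_lit 3) (.split (nat_lit 0xb) (nat_lit 4) (.split (nat_lit 0xb) (nat_lit 6) (.split (nat_lit 0xb) (nat_lit 8) (.split (nat_lit 0xb) (nat_lit 9) (.split (nat_lit 0xb) (nat_lit 0xa) (.split (nat_lit 0xb) (nat_lit 7) (.unj (nat_lit 0x40005) (nat_lit 0x1000000000000000000000000000000010001) (nat_lit 0x405400) (nat_lit 0x100000000000000010002000200000000000000000000)) (.unj (nat_lit 0x40005) (nat_lit 0x1000000000000000000000000000000010001) (nat_lit 0x405400) (nat_lit 0x100000000000000010001000100000000000000000000))) (.non (nat_lit 1) (nat_lit 7) (nat_lit 0x501401) (nat_lit 0x300020000000000000003000400000000000000000001))) (.non (nat_lit 0) (nat_lit 6) (nat_lit 0x454414) (nat_lit 0x200000003000200010000000100000000000100020000))) (.non (nat_lit 0) (nat_lit 6) (nat_lit 0x454554) (nat_lit 0x400000005000600030000000200010002000300040000)))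 (.non (nat_lit 0) (nat_lit 7) (nat_lit 0x401400) (nat_lit 0x100000000000000000001000100000000000000000000))) (.non (nat_lit 0) (nat_lit 7) (nat_lit 0x401540) (nat_lit 0x300000000000000000003000400020001000000000000))) (.non (nat_lit 0) (nat_lit 6) (nat_lit 0x454554) (nat_lit 0x400000003000200010000000200030006000500040000))) (.non (nat_lit 0) (nat_lit 6) (nat_lit 0x440554) (nat_lit 0x200000001000000000000000100010002000300020000))) (.non (nat_lit 0) (nat_lit 6) (nat_lit 0x450454) (nat_lit 0x200000002000100000000000100000001000200030000))) (.non (nat_lit 1) (nat_lit 7) (nat_lit 0x501401) (nat_lit 0x300010000000000000003000400000000000000000002)))) (.split (nat_lit 0xb) (nat_lit 1) (.split (nat_lit 0xb) (nat_lit 2) (.split (nat_lit 0xb) (nat_lit 3) (.split (nat_lit 0xb) (nat_lit 4) (.split (nat_lit 0xb) (nat_lit 5) (.split (nat_lit 0xb) (nat_lit 6) (.split (nat_lit 0xb) (nat_lit 7) t1541_60 (.star (nat_lit 0xb) (nat_lit 0) (nat_lit 7))) (.star (nat_lit 0xb) (nat_lit 0) (nat_lit 6))) (.non (nat_lit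 1) (nat_lit 7) (nat_lit 0x501401) (nat_lit 0x300010000000000000003000400000000000000000002))) (.non (nat_lit 1) (nat_lit 6) (nat_lit 0x554141) (nat_lit 0x300020003000200010000000000020001000000000004))) (.non (nat_lit 1) (nat_lit 6) (nat_lit 0x554141) (nat_lit 0x300020003000200010000000000010002000000000004))) (.non (nat_lit 1) (nat_lit 6) (nat_lit 0x554051) (nat_lit 0x300020003000200010000000000000001000200000004))) (.non (nat_lit 0) (nat_lit 6) (nat_lit 0x454154) (nat_lit 0x200000003000200010000000000010002000300040000))))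

noncomputable def t1541_62 : Tr := (.ex (nat_lit 8) (.split (nat_lit 9) (nat_lit 8) (.pd (.cons (nat_lit 0) (nat_lit 5) (nat_lit 0) (nat_lit 0x41987032110) (nat_lit 0xf423f98965a2c28b71aef423f00000b71aea2c289896530d3b00000) (.cons (nat_lit 0) (nat_lit 9) (nat_lit 0) (nat_lit 0x40765532110) (nat_lit 0xf423f00000f423fb71aea2c2804737b71aea2c2898965927bd00000) (.cons (nat_lit 1) (nat_lit 5) (nat_lit 0) (nat_lit 0x9870a4300) (nat_lit 0x9896598965a2c28b71aef423f00000a2c28b71aef423f0000030d3b) (.cons (nat_lit 1) (nat_lit 9) (nat_lit 0) (nat_lit 0x7655a4300) (nat_lit 0x9896500000f423fb71aea2c2804737a2c28b71aef423f00000927bd) .nil)))) (.leaf (.cons (nat_lit 0x40005) (nat_lit 0x1000000000000000000000000000000010001) (.cons (nat_lit 0x100145) (nat_lit 0x30000000000000000000000020001000000030004) (.cons (nat_lit 0x100015) (nat_lit 0x10000000000000000000000000000000100020002) .nil))) .nil)) (.non (nat_lit 0) (nat_lit 6) (nat_lit 0x68014) (nat_lit 0x3000200010000000000000000000100020000))) (.split (nat_lit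 0xb) (nat_lit 0) (.split (nat_lit 0xb) (nat_lit 1) (.split (nat_lit 0xb) (nat_lit 2) (.split (nat_lit 0xb) (nat_lit 3) (.split (nat_lit 0xb) (nat_lit 4) (.split (nat_lit 0xb) (nat_lit 5) (.split (nat_lit 0xb) (nat_lit 6) (.split (nat_lit 0xb) (nat_lit 7) (.split (nat_lit 0xb) (nat_lit 9) (.split (nat_lit 0xb) (nat_lit 0xa) (.unj (nat_lit 0x100015) (nat_lit 0x10000000000000000000000000000000100020002) (nat_lit 0x415400) (nat_lit 0x100000000000200030004000300000000000000000000)) (.non (nat_lit 0) (nat_lit 6) (nat_lit 0x554114) (nat_lit 0x300020003000400020000000000010000000100020000))) (.non (nat_lit 0) (nat_lit 6) (nat_lit 0x450000) (nat_lit 0x100000001000100000000000000000000000000000000))) (.non (nat_lit 0) (nat_lit 6) (nat_lit 0x414000) (nat_lit 0x100000000000100010000000000000000000000000000))) (.non (nat_lit 0) (nat_lit 7) (nat_lit 0x451400) (nat_lit 0x300000001000200000004000300000000000000000000))) (.non (nat_lit 0) (nat_lit 6) (nat_lit 0x454554) (nat_lit 0x400000005000600030000000200010002000300040000)))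 (.non (nat_lit 0) (nat_lit 6) (nat_lit 0x554140) (nat_lit 0x200010001000200010000000000020001000000000000))) (.non (nat_lit 0) (nat_lit 6) (nat_lit 0x454150) (nat_lit 0x200000001000200010000000000010002000100000000))) (.non (nat_lit 0) (nat_lit 6) (nat_lit 0x450014) (nat_lit 0x100000001000100000000000000000000000100010000))) (.non (nat_lit 0) (nat_lit 6) (nat_lit 0x450004) (nat_lit 0x100000001000100000000000000000000000000010000))) (.non (nat_lit 1) (nat_lit 6) (nat_lit 0x450001) (nat_lit 0x100000001000100000000000000000000000000000001))))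

noncomputable def t1541_63 : Tr := (.ex (nat_lit 7) (.split (nat_lit 9) (nat_lit 1) (.split (nat_lit 4) (nat_lit 3) (.split (nat_lit 0xa) (nat_lit 4) (.split (nat_lit 9) (nat_lit 0) (.split (nat_lit 0xa) (nat_lit 0) (.pd (.cons (nat_lit 0) (nat_lit 8) (nat_lit 0) (nat_lit 0x41065532110) (nat_lit 0xf423ff423f00000f423fb71ae1f156b71aea2c28989655572c00000) (.cons (nat_lit 1) (nat_lit 8) (nat_lit 0) (nat_lit 0x655a4300) (nat_lit 0x98965f423f00000f423fb71ae1f156a2c28b71aef423f000005572c) .nil)) t1541_62) (.non (nat_lit 1) (nat_lit 6) (nat_lit 0x250201) (nat_lit 0x20002000100000000000000010000000000000003))) (.non (nat_lit 1) (nat_lit 6) (nat_lit 0x1a8001) (nat_lit 0x20003000200010000000000000000000000000004))) (.non (nat_lit 1) (nat_lit 6) (nat_lit 0x140281) (nat_lit 0x30001000000000000000000020001000000000002))) (.non (nat_lit 0) (nat_lit 6) (nat_lit 0x200254) (nat_lit 0x10000000000000000000000020003000200010000))) (.non (nat_lit 0) (nat_lit 6) (nat_lit 0xa8014) (nat_lit 0x3000200010000000000000000000200040000)))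 (.split (nat_lit 0xb) (nat_lit 0) (.split (nat_lit 0xb) (nat_lit 1) (.split (nat_lit 0xb) (nat_lit 2) (.split (nat_lit 0xb) (nat_lit 3) (.split (nat_lit 0xb) (nat_lit 4) (.split (nat_lit 0xb) (nat_lit 8) (.split (nat_lit 0xb) (nat_lit 9) (.split (nat_lit 0xb) (nat_lit 0xa) (.split (nat_lit 0xb) (nat_lit 5) (.split (nat_lit 0xb) (nat_lit 6) (.unj (nat_lit 0x100015) (nat_lit 0x10000000000000000000000000000000100020002) (nat_lit 0x415400) (nat_lit 0x100000000000100020002000200000000000000000000)) (.unj (nat_lit 0x40005) (nat_lit 0x1000000000000000000000000000000010001) (nat_lit 0x405000) (nat_lit 0x100000000000000010001000000000000000000000000))) (.split (nat_lit 0xb) (nat_lit 6) (.unj (nat_lit 0x40005) (nat_lit 0x1000000000000000000000000000000010001) (nat_lit 0x405400) (nat_lit 0x100000000000000010001000100000000000000000000)) (.non (nat_lit 0) (nat_lit 7) (nat_lit 0x401400) (nat_lit 0x100000000000000000001000100000000000000000000)))) (.non (nat_lit 0) (nat_lit 6) (nat_lit 0x554154) (nat_lit 0x100010001000100010000000000010001000100010000)))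 (.non (nat_lit 0) (nat_lit 6) (nat_lit 0x454000) (nat_lit 0x100000001000100010000000000000000000000000000))) (.non (nat_lit 0) (nat_lit 6) (nat_lit 0x414000) (nat_lit 0x100000000000100010000000000000000000000000000))) (.non (nat_lit 0) (nat_lit 6) (nat_lit 0x514154) (nat_lit 0x300020000000100020000000000040003000200010000))) (.non (nat_lit 0) (nat_lit 6) (nat_lit 0x454054) (nat_lit 0x100000001000100010000000000000001000100010000))) (.non (nat_lit 0) (nat_lit 6) (nat_lit 0x454014) (nat_lit 0x100000001000100010000000000000000000100010000))) (.star (nat_lit 0xb) (nat_lit 1) (nat_lit 7))) (.star (nat_lit 0xb) (nat_lit 0) (nat_lit 7))))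

noncomputable def t1541_64 : Tr := (.ex (nat_lit 5) (.ex (nat_lit 6) t1541_63 (.split (nat_lit 0xb) (nat_lit 0) (.split (nat_lit 0xb) (nat_lit 1) (.split (nat_lit 0xb) (nat_lit 2) (.split (nat_lit 0xb) (nat_lit 3) (.split (nat_lit 0xb) (nat_lit 4) (.split (nat_lit 0xb) (nat_lit 5) (.split (nat_lit 0xb) (nat_lit 8) (.split (nat_lit 0xb) (nat_lit 9) (.split (nat_lit 0xb) (nat_lit 0xa) (.split (nat_lit 0xb) (nat_lit 7) (.unj (nat_lit 0x40005) (nat_lit 0x1000000000000000000000000000000010001) (nat_lit 0x405400) (nat_lit 0x100000000000000010002000200000000000000000000)) (.unj (nat_lit 0x40005) (nat_lit 0x1000000000000000000000000000000010001) (nat_lit 0x405000) (nat_lit 0x100000000000000010001000000000000000000000000))) (.non (nat_lit 0) (nat_lit 7) (nat_lit 0x501500) (nat_lit 0x300020000000000000004000300010000000000000000))) (.non (nat_lit 0) (nat_lit 6) (nat_lit 0x554154) (nat_lit 0x300010006000400020000000000020003000400050000))) (.non (nat_lit 0) (nat_lit 7) (nat_lit 0x451400) (nat_lit 0x300000001000200000004000300000000000000000000)))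 (.non (nat_lit 0) (nat_lit 7) (nat_lit 0x401400) (nat_lit 0x100000000000000000001000100000000000000000000))) (.non (nat_lit 0) (nat_lit 7) (nat_lit 0x501500) (nat_lit 0x300010000000000000004000300020000000000000000))) (.non (nat_lit 0) (nat_lit 6) (nat_lit 0x554154) (nat_lit 0x300020003000200010000000000040006000500040000))) (.non (nat_lit 0) (nat_lit 6) (nat_lit 0x550154) (nat_lit 0x200010002000100000000000000020003000400030000))) (.star (nat_lit 0xb) (nat_lit 1) (nat_lit 6))) (.star (nat_lit 0xb) (nat_lit 0) (nat_lit 6)))) (.split (nat_lit 0xb) (nat_lit 0) (.split (nat_lit 0xb) (nat_lit 1) (.split (nat_lit 0xb) (nat_lit 2) (.split (nat_lit 0xb) (nat_lit 3) (.split (nat_lit 0xb) (nat_lit 4) (.split (nat_lit 0xb) (nat_lit 6) (.split (nat_lit 0xb) (nat_lit 8) (.split (nat_lit 0xb) (nat_lit 9) (.split (nat_lit 0xb) (nat_lit 0xa) (.split (nat_lit 0xb) (nat_lit 7) (.unj (nat_lit 0x40005) (nat_lit 0x1000000000000000000000000000000010001) (nat_lit 0x405400) (nat_lit 0x100000000000000010002000200000000000000000000))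 (.unj (nat_lit 0x40005) (nat_lit 0x1000000000000000000000000000000010001) (nat_lit 0x405400) (nat_lit 0x100000000000000010001000100000000000000000000))) (.non (nat_lit 0) (nat_lit 7) (nat_lit 0x501500) (nat_lit 0x300020000000000000003000400010000000000000000))) (.non (nat_lit 0) (nat_lit 6) (nat_lit 0x454414) (nat_lit 0x200000003000200010000000100000000000100020000))) (.non (nat_lit 0) (nat_lit 6) (nat_lit 0x454554) (nat_lit 0x400000005000600030000000200010002000300040000))) (.non (nat_lit 0) (nat_lit 7) (nat_lit 0x401400) (nat_lit 0x100000000000000000001000100000000000000000000))) (.non (nat_lit 0) (nat_lit 6) (nat_lit 0x550554) (nat_lit 0x400030002000100000000000200060005000400030000))) (.non (nat_lit 0) (nat_lit 6) (nat_lit 0x554154) (nat_lit 0x300020003000200010000000000040006000500040000))) (.non (nat_lit 0) (nat_lit 6) (nat_lit 0x550154) (nat_lit 0x200010002000100000000000000020003000400030000))) (.non (nat_lit 0) (nat_lit 6) (nat_lit 0x450454) (nat_lit 0x200000002000100000000000100000001000200030000)))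 (.non (nat_lit 1) (nat_lit 6) (nat_lit 0x550501) (nat_lit 0x200020002000100000000000100010000000000000003))))

noncomputable def t1541_65 : Tr := (.split (nat_lit 0xa) (nat_lit 5) (.split (nat_lit 0xa) (nat_lit 6) (.split (nat_lit 0xa) (nat_lit 7) (.split (nat_lit 0xa) (nat_lit 8) (.split (nat_lit 0xa) (nat_lit 9) (.split (nat_lit 0xa) (nat_lit 2) (.split (nat_lit 0xa) (nat_lit 3) (.split (nat_lit 0xa) (nat_lit 4) t1541_61 (.st (nat_lit 9) (nat_lit 0) (nat_lit 6) (nat_lit 0x154154) (nat_lit 0x10006000400020000000000020003000400050000) (nat_lit 1) (nat_lit 3) t1541_64)) (.split (nat_lit 0xa) (nat_lit 4) (.split (nat_lit 0xa) (nat_lit 0) (.split (nat_lit 0xa) (nat_lit 3) (.split (nat_lit 9) (nat_lit 0) (.split (nat_lit 9) (nat_lit 1) (.sup (nat_lit 0x3000d00160020001a00000000000000000000) (nat_lit 0x50000000000000000000000030006000500030003)) (.non (nat_lit 0) (nat_lit 6) (nat_lit 0xa8014) (nat_lit 0x3000200010000000000000000000200040000))) (.non (nat_lit 1) (nat_lit 6) (nat_lit 0x1a8001) (nat_lit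 0x20003000200010000000000000000000000000004))) (.non (nat_lit 0) (nat_lit 6) (nat_lit 0x200150) (nat_lit 0x10000000000000000000000010002000100000000))) (.non (nat_lit 1) (nat_lit 6) (nat_lit 0x250081) (nat_lit 0x20002000100000000000000000001000000000003))) (.non (nat_lit 0) (nat_lit 6) (nat_lit 0x100140) (nat_lit 0x10000000000000000000000010001000000000000)))) (.split (nat_lit 0xa) (nat_lit 3) (.split (nat_lit 0xa) (nat_lit 4) (.split (nat_lit 0xa) (nat_lit 0) (.split (nat_lit 0xa) (nat_lit 2) (.split (nat_lit 9) (nat_lit 0) (.split (nat_lit 9) (nat_lit 1) (.sup (nat_lit 0x20006000b0010000d00000000000000000000) (nat_lit 0x20000000000000000000000010002000300020001)) (.non (nat_lit 0) (nat_lit 6) (nat_lit 0x1a0014) (nat_lit 0x10002000100000000000000000000000200030000))) (.non (nat_lit 1) (nat_lit 6) (nat_lit 0x1a8001) (nat_lit 0x20003000200010000000000000000000000000004))) (.non (nat_lit 0) (nat_lit 6) (nat_lit 0x200054) (nat_lit 0x10000000000000000000000000001000200010000))) (.non (nat_lit 1) (nat_lit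 6) (nat_lit 0x250021) (nat_lit 0x20002000100000000000000000000000100000003))) (.non (nat_lit 0) (nat_lit 6) (nat_lit 0x100150) (nat_lit 0x10000000000000000000000010001000100000000))) (.non (nat_lit 0) (nat_lit 6) (nat_lit 0x100050) (nat_lit 0x10000000000000000000000000001000100000000)))) (.non (nat_lit 1) (nat_lit 6) (nat_lit 0x140001) (nat_lit 0x10001000000000000000000000000000000000001))) (.non (nat_lit 1) (nat_lit 6) (nat_lit 0x150001) (nat_lit 0x10001000100000000000000000000000000000001))) (.star (nat_lit 0xa) (nat_lit 0) (nat_lit 7))) (.star (nat_lit 0xa) (nat_lit 0) (nat_lit 6))) (.non (nat_lit 1) (nat_lit 7) (nat_lit 0x141401) (nat_lit 0x30001000000000003000400000000000000000002)))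

noncomputable def t1541 : Tr := (.split (nat_lit 8) (nat_lit 2) (.split (nat_lit 8) (nat_lit 3) (.split (nat_lit 6) (nat_lit 3) (.split (nat_lit 6) (nat_lit 4) (.split (nat_lit 5) (nat_lit 2) (.split (nat_lit 5) (nat_lit 3) (.split (nat_lit 5) (nat_lit 4) (.split (nat_lit 9) (nat_lit 0) t1541_27 (.split (nat_lit 9) (nat_lit 3) (.split (nat_lit 9) (nat_lit 1) t1541_42 (.split (nat_lit 9) (nat_lit 2) (.split (nat_lit 9) (nat_lit 4) (.split (nat_lit 8) (nat_lit 4) (.split (nat_lit 7) (nat_lit 3) (.split (nat_lit 7) (nat_lit 4) (.st (nat_lit 1) (nat_lit 0) (nat_lit 6) (nat_lit 0x54154) (nat_lit 0x3000200010000000000010002000300040000) (nat_lit 1) (nat_lit 2) (.ex (nat_lit 0) t1541_50 (.split (nat_lit 0xa) (nat_lit 1) t1541_65 (.non (nat_lit 0) (nat_lit 6) (nat_lit 0x154154) (nat_lit 0x20003000200010000000000010002000300040000))))) (.non (nat_lit 0) (nat_lit 6) (nat_lit 0x54154) (nat_lit 0x1000100010000000000010001000100010000))) (.non (nat_lit 0) (nat_lit 6) (nat_lit 0x54054) (nat_lit 0x1000100010000000000000001000100010000)))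 (.non (nat_lit 0) (nat_lit 6) (nat_lit 0x50154) (nat_lit 0x1000100000000000000010001000100010000))) (.non (nat_lit 0) (nat_lit 6) (nat_lit 0x40154) (nat_lit 0x1000000000000000000010001000100010000))) (.non (nat_lit 0) (nat_lit 6) (nat_lit 0x40014) (nat_lit 0x1000000000000000000000000000100010000)))) (.non (nat_lit 1) (nat_lit 6) (nat_lit 0x50151) (nat_lit 0x2000100000000000000010002000100000001)))) (.non (nat_lit 0) (nat_lit 7) (nat_lit 0x1550) (nat_lit 0x3000400030002000100000000))) (.non (nat_lit 0) (nat_lit 7) (nat_lit 0x1550) (nat_lit 0x2000200010002000100000000))) (.non (nat_lit 0) (nat_lit 7) (nat_lit 0x1550) (nat_lit 0x3000400010002000300000000))) (.non (nat_lit 0) (nat_lit 7) (nat_lit 0x1550) (nat_lit 0x4000300030002000100000000))) (.non (nat_lit 0) (nat_lit 7) (nat_lit 0x1550) (nat_lit 0x2000200010002000100000000))) (.non (nat_lit 0) (nat_lit 6) (nat_lit 0x54150) (nat_lit 0x1000200010000000000010002000100000000))) (.non (nat_lit 0) (nat_lit 6) (nat_lit 0x54054) (nat_lit 0x1000200010000000000000001000200010000)))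

noncomputable def D18 : RL := (.cons (nat_lit 0x2222222222222222222222222222222222222222222222222222222222222222222222222222222222222222222222222222222b222aaaaa222222b2322aaa2222222223232aa22222222222325aaa2222222222252aa222222222aaaaa2b222222222aaaaab2322222222aa2a223232222222a222222325222222a222222252) t1538 (.cons (nat_lit 0x2222222222222222222222222222222222222222222222222222222222222222222222222222222222222222222222222222222b222aaa22222222b2322aa22222222223232aaa2222222222325222222222222225222222222222aaa222b222222222aaa22b2322222222a2a222323222222222222223252222222222222252) t1539 (.cons (nat_lit 0x2222222222222222222222222222222222222222222222222222222222222222222222222222222222222222222222222222222b222aa222222222b232222222222222232322222222222222325222222222222225222222222222a22222b222222222a2222b2322222222222222323222222222222223252222222222222252) t1540 (.cons (nat_lit 0x2222222222222222222222222222222222222222222222222222222222222222222222222222222222222222222222222222222b222aaaaa222222b2322aaa2222222223232aa22222222222325aa22222222222252aaa22222222aaaaa2b222222222aaaaab2322222222aa22a23232222222a222222325222222a222222252)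 t1541 .nil))))

theorem cov_D18 : Cov 1538 1542 := by
  have h1 : rl D18 (nat_lit 1538) = true := by decide +kernel
  have h2 : 1538 + rlen D18 = 1542 := by decide +kernel
  exact cov_of h1 h2

end MP86a502
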