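import Pool.Agent.Lib.MP_86a502_gt.U.Rlc
import Pool.Agent.Lib.MP_86a502_gt.U.D18

set_option autoImplicit false
set_option maxRecDepth 1000000
set_option linter.all false

/-! Certificates, numbers 160 to 185. -/

namespace MP86a502

noncomputable def t160_1 : Tr := (.st (nat_lit 0) (nat_lit 2) (nat_lit 3) (nat_lit 0x505) (nat_lit 0x200020000000000010002) (nat_lit 1) (nat_lit 1) (.st (nat_lit 5) (nat_lit 1) (nat_lit 3) (nat_lit 0x501) (nat_lit 0x200020000000000000001) (nat_lit 1) (nat_lit 1) (.ex (nat_lit 2) (.pd (.cons (nat_lit 0) (nat_lit 3) (nat_lit 0x110110) (nat_lit 0x450120) (nat_lit 0x10000100000000010000100000) (.cons (nat_lit 0) (nat_lit 4) (nat_lit 0x110) (nat_lit 0x503120) (nat_lit 0xf423f00000f423f000010000100000) .nil)) (.ex (nat_lit 3) (.pd (.cons (nat_lit 0) (nat_lit 5) (nat_lit 0x110) (nat_lit 0x33120) (nat_lit 0xf423f7a11e000010000100000) (.cons (nat_lit 1) (nat_lit 5) (nat_lit 0) (nat_lit 0x33200) (nat_lit 0xf423f7a11ef423f00000f423f) (.cons (nat_lit 2) (nat_lit 5)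 (nat_lit 0) (nat_lit 0x33000) (nat_lit 0xf423f7a11e00000f423fb71ae) .nil))) (.split (nat_lit 5) (nat_lit 4) (.split (nat_lit 5) (nat_lit 0) (.leaf .nil (.cons (nat_lit 0x100001) (nat_lit 0x10010) (nat_lit 0) (nat_lit 0x100000) .nil)) (.non (nat_lit 1) (nat_lit 3) (nat_lit 0x501) (nat_lit 0x100010000000000000001))) (.non (nat_lit 1) (nat_lit 3) (nat_lit 0x701) (nat_lit 0x200010000000000000001)))) (.split (nat_lit 6) (nat_lit 0) (.split (nat_lit 6) (nat_lit 1) (.split (nat_lit 6) (nat_lit 2) (.split (nat_lit 6) (nat_lit 4) (.split (nat_lit 6) (nat_lit 5) (.split (nat_lit 6) (nat_lit 3) (.split (nat_lit 5) (nat_lit 0) (.sup (nat_lit 0x700080003) (nat_lit 0x2000200040004000000000000)) (.non (nat_lit 1) (nat_lit 3) (nat_lit 0x501) (nat_lit 0x100010000000000000001))) (.unj (nat_lit 0x15) (nat_lit 0x200020001) (nat_lit 0x2240) (nat_lit 0x1000000010002000000000000))) (.non (nat_lit 1) (nat_lit 3) (nat_lit 0x1501) (nat_lit 0x1000200020000000000000001))) (.non (nat_lit 1) (nat_lit 3) (nat_lit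 0x1501) (nat_lit 0x1000200020000000000000001))) (.star (nat_lit 6) (nat_lit 2) (nat_lit 3))) (.star (nat_lit 6) (nat_lit 1) (nat_lit 3))) (.non (nat_lit 2) (nat_lit 3) (nat_lit 0x1505) (nat_lit 0x1000200020000000000010002))))) (.split (nat_lit 6) (nat_lit 0) (.split (nat_lit 6) (nat_lit 1) (.split (nat_lit 6) (nat_lit 3) (.split (nat_lit 6) (nat_lit 4) (.split (nat_lit 6) (nat_lit 5) (.unj (nat_lit 0x1014) (nat_lit 0x1000000000000000200020000) (nat_lit 0x540) (nat_lit 0x100010001000000000000)) (.non (nat_lit 1) (nat_lit 3) (nat_lit 0x1501) (nat_lit 0x1000200020000000000000001))) (.star (nat_lit 6) (nat_lit 2) (nat_lit 4))) (.star (nat_lit 6) (nat_lit 2) (nat_lit 3))) (.non (nat_lit 2) (nat_lit 3) (nat_lit 0x1505) (nat_lit 0x1000400030000000000020003))) (.non (nat_lit 1) (nat_lit 3) (nat_lit 0x1511) (nat_lit 0x2000400030000000100000003))))))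

noncomputable def t160 : Tr := (.split (nat_lit 5) (nat_lit 0) .uj (.st (nat_lit 1) (nat_lit 2) (nat_lit 3) (nat_lit 0x505) (nat_lit 0x400030000000000020003) (nat_lit 1) (nat_lit 1) (.st (nat_lit 4) (nat_lit 1) (nat_lit 3) (nat_lit 0x501) (nat_lit 0x200020000000000000001) (nat_lit 1) (nat_lit 1) t160_1)))

noncomputable def t161 : Tr := (.split (nat_lit 4) (nat_lit 0) .uj (.st (nat_lit 1) (nat_lit 2) (nat_lit 3) (nat_lit 0x505) (nat_lit 0x300040000000000020003) (nat_lit 1) (nat_lit 1) (.st (nat_lit 3) (nat_lit 2) (nat_lit 5) (nat_lit 0x185) (nat_lit 0x30002000000010002) (nat_lit 2) (nat_lit 1) (.st (nat_lit 5) (nat_lit 1) (nat_lit 3) (nat_lit 0x501) (nat_lit 0x200020000000000000001) (nat_lit 1) (nat_lit 1) (.pd (.cons (nat_lit 1) (nat_lit 4) (nat_lit 0) (nat_lit 0x503200) (nat_lit 0xf423f00000f423ff423f00000f423f) (.cons (nat_lit 2) (nat_lit 4) (nat_lit 0) (nat_lit 0x503000) (nat_lit 0xf423f00000f423f00000f423fb71ae) .nil)) (.ex (nat_lit 2) (.pd (.cons (nat_lit 0) (nat_lit 3) (nat_lit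 0x110110) (nat_lit 0x450120) (nat_lit 0x10000100000000010000100000) (.cons (nat_lit 0) (nat_lit 4) (nat_lit 0x110) (nat_lit 0x503120) (nat_lit 0xf423f00000f423f000010000100000) (.cons (nat_lit 0) (nat_lit 5) (nat_lit 0x110) (nat_lit 0x33120) (nat_lit 0xf423f7a11e000010000100000) .nil))) (.leaf .nil .nil)) (.split (nat_lit 6) (nat_lit 0) (.split (nat_lit 6) (nat_lit 1) (.split (nat_lit 6) (nat_lit 3) (.split (nat_lit 6) (nat_lit 4) (.split (nat_lit 6) (nat_lit 5) (.unj (nat_lit 0x1014) (nat_lit 0x1000000000000000200020000) (nat_lit 0x540) (nat_lit 0x100010001000000000000)) (.star (nat_lit 6) (nat_lit 2) (nat_lit 5))) (.non (nat_lit 1) (nat_lit 3) (nat_lit 0x1501) (nat_lit 0x1000200020000000000000001))) (.star (nat_lit 6) (nat_lit 2) (nat_lit 3))) (.non (nat_lit 2) (nat_lit 3) (nat_lit 0x1505) (nat_lit 0x1000300040000000000020003))) (.non (nat_lit 1) (nat_lit 3) (nat_lit 0x1511) (nat_lit 0x2000300040000000100000003)))))))))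

noncomputable def t162_1 : Tr := (.ex (nat_lit 2) (.pd (.cons (nat_lit 0) (nat_lit 4) (nat_lit 0x110) (nat_lit 0x503120) (nat_lit 0xf423f00000f423f000010000100000) (.cons (nat_lit 0) (nat_lit 5) (nat_lit 0x110) (nat_lit 0x33120) (nat_lit 0xf423f7a11e000010000100000) .nil)) (.ex (nat_lit 5) (.pd (.cons (nat_lit 0) (nat_lit 3) (nat_lit 0x110110) (nat_lit 0x450120) (nat_lit 0x10000100000000010000100000) (.cons (nat_lit 1) (nat_lit 3) (nat_lit 0x110000) (nat_lit 0x450200) (nat_lit 0x10000100000f423f00000f423f) (.cons (nat_lit 2) (nat_lit 3) (nat_lit 0x110000) (nat_lit 0x450000) (nat_lit 0x1000010000000000f423fb71ae) .nil))) (.split (nat_lit 5) (nat_lit 4) (.split (nat_lit 3) (nat_lit 0) (.leaf .nil (.cons (nat_lit 0x1001) (nat_lit 0x10010) (nat_lit 0) (nat_lit 0x1000) .nil)) (.non (nat_lit 1) (nat_lit 5) (nat_lit 0x181) (nat_lit 0x10001000000000001))) (.split (nat_lit 5) (nat_lit 4) (.split (nat_lit 3) (nat_lit 0) (.sup (nat_lit 0x9000a0004) (nat_lit 0x9000a0004000000000000)) (.non (nat_lit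 1) (nat_lit 5) (nat_lit 0x181) (nat_lit 0x10001000000000001))) (.split (nat_lit 3) (nat_lit 0) (.sup (nat_lit 0x500050002) (nat_lit 0x500050001000000000000)) (.non (nat_lit 1) (nat_lit 5) (nat_lit 0x181) (nat_lit 0x10001000000000001)))))) (.split (nat_lit 6) (nat_lit 0) (.split (nat_lit 6) (nat_lit 1) (.split (nat_lit 6) (nat_lit 2) (.split (nat_lit 6) (nat_lit 3) (.split (nat_lit 6) (nat_lit 4) (.split (nat_lit 6) (nat_lit 5) (.split (nat_lit 5) (nat_lit 4) (.split (nat_lit 3) (nat_lit 0) (.sup (nat_lit 0x700080003) (nat_lit 0x2000400040001000000000000)) (.non (nat_lit 1) (nat_lit 5) (nat_lit 0x181) (nat_lit 0x10001000000000001))) (.unj (nat_lit 0x15) (nat_lit 0x200020001) (nat_lit 0x3d00) (nat_lit 0x1000200030000000000000000))) (.unj (nat_lit 0x15) (nat_lit 0x200020001) (nat_lit 0x1500) (nat_lit 0x1000100010000000000000000))) (.non (nat_lit 2) (nat_lit 5) (nat_lit 0x2245) (nat_lit 0x1000000020003000000010002))) (.non (nat_lit 1) (nat_lit 5) (nat_lit 0x1241) (nat_lit 0x1000000010002000000000001)))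 (.star (nat_lit 6) (nat_lit 2) (nat_lit 5))) (.star (nat_lit 6) (nat_lit 1) (nat_lit 5))) (.non (nat_lit 2) (nat_lit 5) (nat_lit 0x1245) (nat_lit 0x1000000010002000000010002))))) (.split (nat_lit 6) (nat_lit 0) (.split (nat_lit 6) (nat_lit 3) (.split (nat_lit 6) (nat_lit 4) (.split (nat_lit 6) (nat_lit 5) (.split (nat_lit 6) (nat_lit 1) (.unj (nat_lit 0x1014) (nat_lit 0x1000000000000000200020000) (nat_lit 0x540) (nat_lit 0x100010001000000000000)) (.unj (nat_lit 0x1014) (nat_lit 0x1000000000000000100010000) (nat_lit 0x540) (nat_lit 0x100010001000000000000))) (.star (nat_lit 6) (nat_lit 2) (nat_lit 5))) (.star (nat_lit 6) (nat_lit 2) (nat_lit 4))) (.non (nat_lit 1) (nat_lit 5) (nat_lit 0x1241) (nat_lit 0x1000000010002000000000001))) (.non (nat_lit 2) (nat_lit 5) (nat_lit 0x1245) (nat_lit 0x1000000010002000000010002))))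

noncomputable def t162 : Tr := (.split (nat_lit 3) (nat_lit 0) .uj (.st (nat_lit 4) (nat_lit 2) (nat_lit 5) (nat_lit 0x245) (nat_lit 0x20003000000010002) (nat_lit 2) (nat_lit 1) (.st (nat_lit 0) (nat_lit 2) (nat_lit 5) (nat_lit 0x245) (nat_lit 0x10002000000010002) (nat_lit 1) (nat_lit 1) (.st (nat_lit 3) (nat_lit 1) (nat_lit 5) (nat_lit 0x241) (nat_lit 0x10002000000000001) (nat_lit 1) (nat_lit 1) (.ex (nat_lit 1) t162_1 (.split (nat_lit 6) (nat_lit 0) (.split (nat_lit 6) (nat_lit 3) (.split (nat_lit 6) (nat_lit 4) (.split (nat_lit 6) (nat_lit 5) (.split (nat_lit 6) (nat_lit 2) (.unj (nat_lit 0x1014) (nat_lit 0x1000000000000000200020000) (nat_lit 0x540) (nat_lit 0x100010001000000000000)) (.unj (nat_lit 0x1014) (nat_lit 0x1000000000000000100010000) (nat_lit 0x540) (nat_lit 0x100010001000000000000))) (.star (nat_lit 6) (nat_lit 1) (nat_lit 5))) (.star (nat_lit 6) (nat_lit 1) (nat_lit 4))) (.non (nat_lit 1) (nat_lit 5) (nat_lit 0x1241) (nat_lit 0x1000000010002000000000001))) (.non (nat_lit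 2) (nat_lit 4) (nat_lit 0x1005) (nat_lit 0x1000000000000000000010001))))))))

noncomputable def t164 : Tr := (.split (nat_lit 4) (nat_lit 0) .uj (.st (nat_lit 1) (nat_lit 2) (nat_lit 3) (nat_lit 0x505) (nat_lit 0x300040000000000020003) (nat_lit 1) (nat_lit 1) (.st (nat_lit 3) (nat_lit 1) (nat_lit 5) (nat_lit 0x141) (nat_lit 0x20002000000000001) (nat_lit 1) (nat_lit 1) (.st (nat_lit 5) (nat_lit 1) (nat_lit 3) (nat_lit 0x501) (nat_lit 0x200020000000000000001) (nat_lit 1) (nat_lit 1) (.pd (.cons (nat_lit 1) (nat_lit 4) (nat_lit 0) (nat_lit 0x503200) (nat_lit 0xf423f00000f423ff423f00000f423f) (.cons (nat_lit 2) (nat_lit 4) (nat_lit 0) (nat_lit 0x503000) (nat_lit 0xf423f00000f423f00000f423fb71ae) .nil)) (.ex (nat_lit 2) (.pd (.cons (nat_lit 0) (nat_lit 3) (nat_lit 0x110110) (nat_lit 0x450120) (nat_lit 0x10000100000000010000100000) (.cons (nat_lit 0) (nat_lit 4) (nat_lit 0x110) (nat_lit 0x503120) (nat_lit 0xf423f00000f423f000010000100000) (.cons (nat_lit 0) (nat_lit 5) (nat_lit 0x11110) (nat_lit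 0x34120) (nat_lit 0x100001000010000100000) .nil))) (.leaf .nil .nil)) (.split (nat_lit 6) (nat_lit 0) (.split (nat_lit 6) (nat_lit 1) (.split (nat_lit 6) (nat_lit 3) (.split (nat_lit 6) (nat_lit 4) (.split (nat_lit 6) (nat_lit 5) (.unj (nat_lit 0x1014) (nat_lit 0x1000000000000000200020000) (nat_lit 0x540) (nat_lit 0x100010001000000000000)) (.star (nat_lit 6) (nat_lit 2) (nat_lit 5))) (.non (nat_lit 1) (nat_lit 3) (nat_lit 0x1501) (nat_lit 0x1000200020000000000000001))) (.star (nat_lit 6) (nat_lit 2) (nat_lit 3))) (.non (nat_lit 2) (nat_lit 3) (nat_lit 0x1505) (nat_lit 0x1000300040000000000020003))) (.non (nat_lit 1) (nat_lit 3) (nat_lit 0x1511) (nat_lit 0x2000300040000000100000003)))))))))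

noncomputable def t165_1 : Tr := (.ex (nat_lit 1) (.ex (nat_lit 2) (.pd (.cons (nat_lit 0) (nat_lit 3) (nat_lit 0x110110) (nat_lit 0x450120) (nat_lit 0x10000100000000010000100000) (.cons (nat_lit 0) (nat_lit 4) (nat_lit 0x101110) (nat_lit 0x305120) (nat_lit 0x10000000001000010000100000) .nil)) (.ex (nat_lit 4) (.pd (.cons (nat_lit 0) (nat_lit 5) (nat_lit 0x11110) (nat_lit 0x34120) (nat_lit 0x100001000010000100000) (.cons (nat_lit 1) (nat_lit 5) (nat_lit 0x11000) (nat_lit 0x34200) (nat_lit 0x100001f423f00000f423f) (.cons (nat_lit 2) (nat_lit 5) (nat_lit 0x11000) (nat_lit 0x34000) (nat_lit 0x10000100000f423fb71ae) .nil))) (.leaf .nil .nil)) (.split (nat_lit 6) (nat_lit 0) (.split (nat_lit 6) (nat_lit 1) (.split (nat_lit 6) (nat_lit 2) (.split (nat_lit 6) (nat_lit 3) (.split (nat_lit 6) (nat_lit 5) (.split (nat_lit 6) (nat_lit 4) (.split (nat_lit 5) (nat_lit 0) (.sup (nat_lit 0x700080003) (nat_lit 0x1000200030003000000000000)) (.non (nat_lit 1) (nat_lit 4) (nat_lit 0x841) (nat_lit 0x100000001000000000001)))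 (.split (nat_lit 6) (nat_lit 4) (.split (nat_lit 5) (nat_lit 0) (.sup (nat_lit 0x700080004) (nat_lit 0x2000100030002000000000000)) (.non (nat_lit 1) (nat_lit 3) (nat_lit 0x1a01) (nat_lit 0x1000100010000000000000001))) (.non (nat_lit 2) (nat_lit 3) (nat_lit 0x1505) (nat_lit 0x3000300040000000000010002)))) (.non (nat_lit 1) (nat_lit 3) (nat_lit 0x1500) (nat_lit 0x1000100010000000000000000))) (.non (nat_lit 2) (nat_lit 4) (nat_lit 0x2485) (nat_lit 0x1000300000002000000010002))) (.star (nat_lit 6) (nat_lit 2) (nat_lit 4))) (.star (nat_lit 6) (nat_lit 1) (nat_lit 4))) (.non (nat_lit 1) (nat_lit 3) (nat_lit 0x1501) (nat_lit 0x1000100010000000000000001))))) (.split (nat_lit 6) (nat_lit 0) (.split (nat_lit 6) (nat_lit 3) (.split (nat_lit 6) (nat_lit 4) (.split (nat_lit 6) (nat_lit 5) (.split (nat_lit 6) (nat_lit 1) (.unj (nat_lit 0x1014) (nat_lit 0x1000000000000000200020000) (nat_lit 0x540) (nat_lit 0x100010001000000000000)) (.unj (nat_lit 0x1014) (nat_lit 0x1000000000000000100010000) (nat_lit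 0x540) (nat_lit 0x100010001000000000000))) (.non (nat_lit 1) (nat_lit 4) (nat_lit 0x1481) (nat_lit 0x1000200000001000000000001))) (.star (nat_lit 6) (nat_lit 2) (nat_lit 4))) (.star (nat_lit 6) (nat_lit 2) (nat_lit 3))) (.non (nat_lit 2) (nat_lit 4) (nat_lit 0x1485) (nat_lit 0x1000200000001000000010002)))) (.split (nat_lit 6) (nat_lit 0) (.split (nat_lit 6) (nat_lit 3) (.split (nat_lit 6) (nat_lit 4) (.split (nat_lit 6) (nat_lit 5) (.split (nat_lit 6) (nat_lit 2) (.unj (nat_lit 0x1014) (nat_lit 0x1000000000000000200020000) (nat_lit 0x540) (nat_lit 0x100010001000000000000)) (.unj (nat_lit 0x1014) (nat_lit 0x1000000000000000100010000) (nat_lit 0x540) (nat_lit 0x100010001000000000000))) (.non (nat_lit 1) (nat_lit 4) (nat_lit 0x1481) (nat_lit 0x1000200000001000000000001))) (.star (nat_lit 6) (nat_lit 1) (nat_lit 4))) (.star (nat_lit 6) (nat_lit 1) (nat_lit 3))) (.non (nat_lit 2) (nat_lit 3) (nat_lit 0x1005) (nat_lit 0x1000000000000000000010001))))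

noncomputable def t165 : Tr := (.split (nat_lit 5) (nat_lit 0) .uj (.st (nat_lit 3) (nat_lit 2) (nat_lit 4) (nat_lit 0x485) (nat_lit 0x300000002000000010002) (nat_lit 2) (nat_lit 1) t165_1))

noncomputable def t166_1 : Tr := (.pd (.cons (nat_lit 0) (nat_lit 3) (nat_lit 0x110110) (nat_lit 0x450120) (nat_lit 0x10000100000000010000100000) (.cons (nat_lit 0) (nat_lit 5) (nat_lit 0x11110) (nat_lit 0x34120) (nat_lit 0x100001000010000100000) .nil)) (.ex (nat_lit 3) (.ex (nat_lit 5) (.pd (.cons (nat_lit 0) (nat_lit 4) (nat_lit 0x101110) (nat_lit 0x305120) (nat_lit 0x10000000001000010000100000) (.cons (nat_lit 1) (nat_lit 4) (nat_lit 0x101000) (nat_lit 0x305200) (nat_lit 0x10000000001f423f00000f423f) (.cons (nat_lit 2) (nat_lit 4) (nat_lit 0x101000) (nat_lit 0x305000) (nat_lit 0x1000000000100000f423fb71ae) .nil))) (.leaf .nil .nil)) (.split (nat_lit 6) (nat_lit 0) (.split (nat_lit 6) (nat_lit 1) (.split (nat_lit 6) (nat_lit 2) (.split (nat_lit 6) (nat_lit 4) (.split (nat_lit 6) (nat_lit 3) (.split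 (nat_lit 6) (nat_lit 5) (.split (nat_lit 5) (nat_lit 3) (.split (nat_lit 5) (nat_lit 4) (.split (nat_lit 4) (nat_lit 0) (.sup (nat_lit 0x700080003) (nat_lit 0x1000300010002000000000000)) (.non (nat_lit 2) (nat_lit 3) (nat_lit 0x2a05) (nat_lit 0x1000200030000000000020004))) (.non (nat_lit 2) (nat_lit 3) (nat_lit 0x2905) (nat_lit 0x1000200030000000000010002))) (.sup (nat_lit 0xe00100007) (nat_lit 0x2000500010004000000000000))) (.unj (nat_lit 0x15) (nat_lit 0x200020001) (nat_lit 0x1840) (nat_lit 0x1000100000001000000000000))) (.unj (nat_lit 0x15) (nat_lit 0x200020001) (nat_lit 0x1440) (nat_lit 0x1000100000001000000000000))) (.non (nat_lit 1) (nat_lit 3) (nat_lit 0x1500) (nat_lit 0x1000100010000000000000000))) (.star (nat_lit 6) (nat_lit 2) (nat_lit 5))) (.star (nat_lit 6) (nat_lit 1) (nat_lit 5))) (.non (nat_lit 1) (nat_lit 3) (nat_lit 0x1501) (nat_lit 0x1000100010000000000000001)))) (.split (nat_lit 6) (nat_lit 0) (.split (nat_lit 6) (nat_lit 1) (.split (nat_lit 6) (nat_lit 2) (.split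 (nat_lit 6) (nat_lit 4) (.split (nat_lit 6) (nat_lit 5) (.split (nat_lit 6) (nat_lit 3) (.split (nat_lit 5) (nat_lit 3) (.split (nat_lit 5) (nat_lit 4) (.split (nat_lit 4) (nat_lit 0) (.sup (nat_lit 0x700080003) (nat_lit 0x1000200010003000000000000)) (.non (nat_lit 2) (nat_lit 5) (nat_lit 0x2285) (nat_lit 0x1000000030002000000020004))) (.sup (nat_lit 0x1c0020000e) (nat_lit 0x4000800020009000000000000))) (.sup (nat_lit 0xe00100007) (nat_lit 0x2000400010005000000000000))) (.unj (nat_lit 0x15) (nat_lit 0x200020001) (nat_lit 0x2840) (nat_lit 0x1000100000002000000000000))) (.unj (nat_lit 0x15) (nat_lit 0x200020001) (nat_lit 0x1440) (nat_lit 0x1000100000001000000000000))) (.non (nat_lit 1) (nat_lit 5) (nat_lit 0x1140) (nat_lit 0x1000000010001000000000000))) (.star (nat_lit 6) (nat_lit 2) (nat_lit 3))) (.star (nat_lit 6) (nat_lit 1) (nat_lit 3))) (.non (nat_lit 1) (nat_lit 5) (nat_lit 0x1141) (nat_lit 0x1000000010001000000000001)))))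

noncomputable def t166 : Tr := (.split (nat_lit 4) (nat_lit 0) .uj (.ex (nat_lit 1) (.ex (nat_lit 2) t166_1 (.split (nat_lit 6) (nat_lit 3) (.split (nat_lit 6) (nat_lit 5) (.split (nat_lit 6) (nat_lit 0) (.split (nat_lit 6) (nat_lit 1) (.split (nat_lit 6) (nat_lit 4) (.unj (nat_lit 0x1014) (nat_lit 0x1000000000000000200020000) (nat_lit 0x540) (nat_lit 0x100010001000000000000)) (.split (nat_lit 6) (nat_lit 2) (.split (nat_lit 6) (nat_lit 4) (.split (nat_lit 5) (nat_lit 3) (.split (nat_lit 5) (nat_lit 4) (.split (nat_lit 4) (nat_lit 0) (.sup (nat_lit 0x600040006000000000000) (nat_lit 0x2000000000000000800080002)) (.non (nat_lit 1) (nat_lit 3) (nat_lit 0x2a01) (nat_lit 0x1000100020000000000000002))) (.non (nat_lit 1) (nat_lit 3) (nat_lit 0x1901) (nat_lit 0x1000100020000000000000001))) (.sup (nat_lit 0x2000000000000000500050000) (nat_lit 0x500020005000000000000))) (.non (nat_lit 1) (nat_lit 3) (nat_lit 0x2501) (nat_lit 0x1000100020000000000000001))) (.non (nat_lit 1) (nat_lit 3) (nat_lit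 0x1521) (nat_lit 0x2000100020000000100000001)))) (.split (nat_lit 6) (nat_lit 4) (.unj (nat_lit 0x1014) (nat_lit 0x1000000000000000100010000) (nat_lit 0x540) (nat_lit 0x100010001000000000000)) (.non (nat_lit 2) (nat_lit 3) (nat_lit 0x1105) (nat_lit 0x1000000010000000000010001)))) (.split (nat_lit 6) (nat_lit 1) (.split (nat_lit 6) (nat_lit 4) (.unj (nat_lit 0x1014) (nat_lit 0x1000000000000000200020000) (nat_lit 0x540) (nat_lit 0x100010001000000000000)) (.non (nat_lit 1) (nat_lit 3) (nat_lit 0x1101) (nat_lit 0x1000000010000000000000001))) (.non (nat_lit 2) (nat_lit 3) (nat_lit 0x1005) (nat_lit 0x1000000000000000000010001)))) (.star (nat_lit 6) (nat_lit 2) (nat_lit 5))) (.star (nat_lit 6) (nat_lit 2) (nat_lit 3)))) (.split (nat_lit 6) (nat_lit 0) (.split (nat_lit 6) (nat_lit 3) (.split (nat_lit 6) (nat_lit 4) (.split (nat_lit 6) (nat_lit 5) (.split (nat_lit 6) (nat_lit 2) (.unj (nat_lit 0x1014) (nat_lit 0x1000000000000000200020000) (nat_lit 0x540) (nat_lit 0x100010001000000000000)) (.unj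 (nat_lit 0x1014) (nat_lit 0x1000000000000000100010000) (nat_lit 0x540) (nat_lit 0x100010001000000000000))) (.star (nat_lit 6) (nat_lit 1) (nat_lit 5))) (.non (nat_lit 2) (nat_lit 3) (nat_lit 0x1105) (nat_lit 0x1000000010000000000010001))) (.star (nat_lit 6) (nat_lit 1) (nat_lit 3))) (.non (nat_lit 2) (nat_lit 3) (nat_lit 0x1005) (nat_lit 0x1000000000000000000010001)))))

noncomputable def t167_1 : Tr := (.ex (nat_lit 8) (.split (nat_lit 7) (nat_lit 0) (.split (nat_lit 7) (nat_lit 3) (.split (nat_lit 8) (nat_lit 7) (.pd (.cons (nat_lit 1) (nat_lit 5) (nat_lit 0x1000100) (nat_lit 0x702037600) (nat_lit 0xf423f65b970000100000f423fb71ae000010000061a79) (.cons (nat_lit 2) (nat_lit 5) (nat_lit 0) (nat_lit 0x706037000) (nat_lit 0xf423f65b97f423f00000f423fb71ae00000f423f249e8) .nil)) (.split (nat_lit 6) (nat_lit 2) (.leaf (.cons (nat_lit 0x1014) (nat_lit 0x1000000000000000200020000) (.cons (nat_lit 0x14540) (nat_lit 0x100020000000300040003000000000000) .nil)) (.cons (nat_lit 0x1110100) (nat_lit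 0x1010) (nat_lit 0x10) (nat_lit 0x2100300) .nil)) (.non (nat_lit 1) (nat_lit 3) (nat_lit 0x1510) (nat_lit 0x1000100010000000100000000)))) (.non (nat_lit 1) (nat_lit 4) (nat_lit 0x24041) (nat_lit 0x100020000000000000001000000000001))) (.non (nat_lit 1) (nat_lit 4) (nat_lit 0x14081) (nat_lit 0x100020000000000000001000000000001))) (.non (nat_lit 1) (nat_lit 4) (nat_lit 0x28081) (nat_lit 0x100020000000000000001000000000002))) (.split (nat_lit 9) (nat_lit 0) (.split (nat_lit 9) (nat_lit 1) (.split (nat_lit 9) (nat_lit 2) (.split (nat_lit 9) (nat_lit 3) (.split (nat_lit 9) (nat_lit 4) (.split (nat_lit 9) (nat_lit 5) (.split (nat_lit 9) (nat_lit 6) (.split (nat_lit 9) (nat_lit 7) (.split (nat_lit 9) (nat_lit 8) (.split (nat_lit 8) (nat_lit 7) (.split (nat_lit 7) (nat_lit 0) (.split (nat_lit 7) (nat_lit 3) (.par (nat_lit 0x54145) (nat_lit 0x1000200030000000000010002000000010002)) (.non (nat_lit 1) (nat_lit 4) (nat_lit 0x14081) (nat_lit 0x100020000000000000001000000000001))) (.non (nat_lit 1)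 (nat_lit 4) (nat_lit 0x28081) (nat_lit 0x100020000000000000001000000000002))) (.non (nat_lit 1) (nat_lit 4) (nat_lit 0x24041) (nat_lit 0x100020000000000000001000000000001))) (.non (nat_lit 1) (nat_lit 4) (nat_lit 0x94041) (nat_lit 0x1000200020000000000000001000000000001))) (.non (nat_lit 1) (nat_lit 3) (nat_lit 0x54000) (nat_lit 0x1000100010000000000000000000000000000))) (.non (nat_lit 1) (nat_lit 3) (nat_lit 0x51500) (nat_lit 0x2000100000003000400030000000000000000))) (.non (nat_lit 1) (nat_lit 3) (nat_lit 0x54500) (nat_lit 0x3000200010000000400030000000000000000))) (.non (nat_lit 1) (nat_lit 3) (nat_lit 0x54500) (nat_lit 0x3000200010000000300040000000000000000))) (.non (nat_lit 1) (nat_lit 4) (nat_lit 0x54040) (nat_lit 0x1000100010000000000000001000000000000))) (.non (nat_lit 1) (nat_lit 3) (nat_lit 0x41510) (nat_lit 0x1000000000003000400030000000200000000))) (.non (nat_lit 2) (nat_lit 3) (nat_lit 0x54005) (nat_lit 0x1000100010000000000000000000000010001))) (.non (nat_lit 1) (nat_lit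 3) (nat_lit 0x54001) (nat_lit 0x1000100010000000000000000000000000001))))

noncomputable def t167_2 : Tr := (.ex (nat_lit 7) (.split (nat_lit 7) (nat_lit 3) (.split (nat_lit 7) (nat_lit 0) (.pd (.cons (nat_lit 0) (nat_lit 6) (nat_lit 0x110) (nat_lit 0x30433120) (nat_lit 0xf423f00000f423f5459106711000010000100000) (.cons (nat_lit 1) (nat_lit 5) (nat_lit 0x1000100) (nat_lit 0x2037600) (nat_lit 0xa2c280000100000f423fb71ae000010000098965) (.cons (nat_lit 2) (nat_lit 5) (nat_lit 0) (nat_lit 0x6037000) (nat_lit 0xa2c28f423f00000f423fb71ae00000f423f5b8d4) .nil))) (.split (nat_lit 6) (nat_lit 2) (.leaf (.cons (nat_lit 0x1014) (nat_lit 0x1000000000000000200020000) (.cons (nat_lit 0x4541) (nat_lit 0x20000000300040003000000000001) .nil)) (.cons (nat_lit 0x1110100) (nat_lit 0x1010) (nat_lit 0x10) (nat_lit 0x2100300) .nil)) (.non (nat_lit 1) (nat_lit 3) (nat_lit 0x1510) (nat_lit 0x1000100010000000100000000)))) (.split (nat_lit 7) (nat_lit 0) (.pd (.cons (nat_lit 0) (nat_lit 6) (nat_lit 0x110) (nat_lit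 0x30433120) (nat_lit 0xf423f00000f423f5459106711000010000100000) (.cons (nat_lit 1) (nat_lit 5) (nat_lit 0x1000100) (nat_lit 0x2037600) (nat_lit 0xa2c280000100000f423fb71ae00001000003d08b) .nil)) (.split (nat_lit 6) (nat_lit 2) (.leaf (.cons (nat_lit 0x1014) (nat_lit 0x1000000000000000200020000) (.cons (nat_lit 0x4541) (nat_lit 0x10000000100010001000000000001) (.cons (nat_lit 0x8285) (nat_lit 0x30000000000010002000000020004) .nil))) (.cons (nat_lit 0x1110100) (nat_lit 0x1010) (nat_lit 0x10) (nat_lit 0x2100300) .nil)) (.non (nat_lit 1) (nat_lit 3) (nat_lit 0x1510) (nat_lit 0x1000100010000000100000000)))) (.non (nat_lit 2) (nat_lit 4) (nat_lit 0x4045) (nat_lit 0x20000000000000001000000010002)))) (.split (nat_lit 7) (nat_lit 0) (.sup (nat_lit 0x9000a0004) (nat_lit 0x300000008000a0007000000000000)) (.non (nat_lit 1) (nat_lit 4) (nat_lit 0x8041) (nat_lit 0x10000000000000001000000000001)))) (.split (nat_lit 8) (nat_lit 0) (.split (nat_lit 8) (nat_lit 1) (.split (nat_lit 8) (nat_lit 2) (.split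 (nat_lit 8) (nat_lit 3) (.split (nat_lit 8) (nat_lit 4) (.split (nat_lit 8) (nat_lit 5) (.split (nat_lit 8) (nat_lit 6) (.st (nat_lit 7) (nat_lit 1) (nat_lit 4) (nat_lit 0x14041) (nat_lit 0x100020000000000000001000000000001) (nat_lit 1) (nat_lit 1) t167_1) (.non (nat_lit 1) (nat_lit 3) (nat_lit 0x15500) (nat_lit 0x200010003000400030000000000000000))) (.non (nat_lit 1) (nat_lit 3) (nat_lit 0x11500) (nat_lit 0x100000001000200020000000000000000))) (.non (nat_lit 1) (nat_lit 3) (nat_lit 0x11500) (nat_lit 0x100000001000200020000000000000000))) (.non (nat_lit 1) (nat_lit 4) (nat_lit 0x14040) (nat_lit 0x100010000000000000001000000000000))) (.non (nat_lit 1) (nat_lit 3) (nat_lit 0x11510) (nat_lit 0x100000003000400030000000200000000))) (.non (nat_lit 2) (nat_lit 3) (nat_lit 0x14005) (nat_lit 0x100010000000000000000000000010001))) (.non (nat_lit 1) (nat_lit 3) (nat_lit 0x14001) (nat_lit 0x100010000000000000000000000000001))))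

noncomputable def t167_3 : Tr := (.split (nat_lit 8) (nat_lit 7) (.st (nat_lit 0) (nat_lit 2) (nat_lit 3) (nat_lit 0x14005) (nat_lit 0x100010000000000000000000000010002) (nat_lit 1) (nat_lit 1) (.st (nat_lit 7) (nat_lit 2) (nat_lit 4) (nat_lit 0x14045) (nat_lit 0x100020000000000000001000000010002) (nat_lit 1) (nat_lit 1) (.ex (nat_lit 3) (.split (nat_lit 7) (nat_lit 3) (.split (nat_lit 7) (nat_lit 0) (.split (nat_lit 8) (nat_lit 0) (.pd (.cons (nat_lit 0) (nat_lit 6) (nat_lit 0x110) (nat_lit 0x830433120) (nat_lit 0xf423ff423f00000f423f5459106711000010000100000) (.cons (nat_lit 1) (nat_lit 5) (nat_lit 0x1000100) (nat_lit 0x2037600) (nat_lit 0xf423fa2c280000100000f423fb71ae00001000005b8d4) (.cons (nat_lit 2) (nat_lit 5) (nat_lit 0) (nat_lit 0x6037000) (nat_lit 0xf423fa2c28f423f00000f423fb71ae00000f423f1e843) .nil))) (.split (nat_lit 6) (nat_lit 2) (.leaf (.cons (nat_lit 0x1014) (nat_lit 0x1000000000000000200020000) (.cons (nat_lit 0x4541) (nat_lit 0x20000000300040003000000000001) .nil))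 (.cons (nat_lit 0x1110100) (nat_lit 0x1010) (nat_lit 0x10) (nat_lit 0x2100300) .nil)) (.non (nat_lit 1) (nat_lit 3) (nat_lit 0x1510) (nat_lit 0x1000100010000000100000000)))) (.non (nat_lit 2) (nat_lit 3) (nat_lit 0x24005) (nat_lit 0x100010000000000000000000000010002))) (.non (nat_lit 2) (nat_lit 3) (nat_lit 0x18005) (nat_lit 0x100010000000000000000000000010002))) (.non (nat_lit 2) (nat_lit 4) (nat_lit 0x14085) (nat_lit 0x100020000000000000001000000010002))) (.split (nat_lit 9) (nat_lit 0) (.split (nat_lit 9) (nat_lit 1) (.split (nat_lit 9) (nat_lit 2) (.split (nat_lit 9) (nat_lit 4) (.split (nat_lit 9) (nat_lit 5) (.split (nat_lit 9) (nat_lit 6) (.split (nat_lit 9) (nat_lit 7) (.split (nat_lit 9) (nat_lit 8) (.sup (nat_lit 0x9000a0004) (nat_lit 0x30000000100000008000a0007000000000000)) (.non (nat_lit 1) (nat_lit 4) (nat_lit 0x54041) (nat_lit 0x1000100010000000000000001000000000001))) (.non (nat_lit 1) (nat_lit 4) (nat_lit 0x44040) (nat_lit 0x1000000010000000000000001000000000000))) (.non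 (nat_lit 1) (nat_lit 3) (nat_lit 0x41510) (nat_lit 0x1000000000002000200020000000100000000))) (.non (nat_lit 1) (nat_lit 3) (nat_lit 0x41500) (nat_lit 0x1000000000001000200020000000000000000))) (.non (nat_lit 1) (nat_lit 3) (nat_lit 0x41500) (nat_lit 0x1000000000001000200020000000000000000))) (.star (nat_lit 9) (nat_lit 2) (nat_lit 3))) (.star (nat_lit 9) (nat_lit 1) (nat_lit 3))) (.non (nat_lit 1) (nat_lit 4) (nat_lit 0x44041) (nat_lit 0x1000000010000000000000001000000000001)))))) (.non (nat_lit 1) (nat_lit 3) (nat_lit 0x14001) (nat_lit 0x100010000000000000000000000000001)))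

noncomputable def t167_4 : Tr := (.split (nat_lit 7) (nat_lit 1) (.split (nat_lit 7) (nat_lit 2) (.split (nat_lit 7) (nat_lit 4) (.split (nat_lit 7) (nat_lit 5) (.split (nat_lit 7) (nat_lit 6) (.split (nat_lit 7) (nat_lit 0) (.split (nat_lit 7) (nat_lit 3) (.split (nat_lit 6) (nat_lit 2) (.sup (nat_lit 0x30001000700080005000000000000) (nat_lit 0x500060003)) (.non (nat_lit 1) (nat_lit 3) (nat_lit 0x1510) (nat_lit 0x1000100010000000100000000))) (.unj (nat_lit 0x15) (nat_lit 0x200020001) (nat_lit 0x4540) (nat_lit 0x10000000100010001000000000000))) (.ex (nat_lit 0) (.ex (nat_lit 3) t167_2 (.split (nat_lit 8) (nat_lit 0) (.split (nat_lit 8) (nat_lit 1) (.split (nat_lit 8) (nat_lit 2) (.split (nat_lit 8) (nat_lit 4) (.split (nat_lit 8) (nat_lit 5) (.split (nat_lit 8) (nat_lit 6) (.split (nat_lit 8) (nat_lit 7) (.sup (nat_lit 0x9000a0004) (nat_lit 0x3000100000008000a0007000000000000)) (.non (nat_lit 1) (nat_lit 4) (nat_lit 0x14040) (nat_lit 0x100010000000000000001000000000000))) (.non (nat_lit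 1) (nat_lit 3) (nat_lit 0x11510) (nat_lit 0x100000002000200020000000100000000))) (.non (nat_lit 1) (nat_lit 3) (nat_lit 0x11500) (nat_lit 0x100000001000200020000000000000000))) (.non (nat_lit 1) (nat_lit 3) (nat_lit 0x11500) (nat_lit 0x100000001000200020000000000000000))) (.star (nat_lit 8) (nat_lit 2) (nat_lit 3))) (.star (nat_lit 8) (nat_lit 1) (nat_lit 3))) (.non (nat_lit 1) (nat_lit 4) (nat_lit 0x14041) (nat_lit 0x100010000000000000001000000000001)))) (.split (nat_lit 8) (nat_lit 1) (.split (nat_lit 8) (nat_lit 2) (.split (nat_lit 8) (nat_lit 3) (.split (nat_lit 8) (nat_lit 4) (.split (nat_lit 8) (nat_lit 5) (.split (nat_lit 8) (nat_lit 6) t167_3 (.non (nat_lit 1) (nat_lit 3) (nat_lit 0x11510) (nat_lit 0x100000002000200020000000100000000))) (.non (nat_lit 1) (nat_lit 3) (nat_lit 0x11500) (nat_lit 0x100000001000200020000000000000000))) (.non (nat_lit 1) (nat_lit 3) (nat_lit 0x11500) (nat_lit 0x100000001000200020000000000000000))) (.non (nat_lit 1) (nat_lit 4) (nat_lit 0x14041) (nat_lit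 0x100010000000000000001000000000001))) (.non (nat_lit 1) (nat_lit 3) (nat_lit 0x11510) (nat_lit 0x100000003000400030000000200000000))) (.non (nat_lit 2) (nat_lit 3) (nat_lit 0x10005) (nat_lit 0x100000000000000000000000000010001))))) (.non (nat_lit 1) (nat_lit 3) (nat_lit 0x5510) (nat_lit 0x10002000200020000000100000000))) (.non (nat_lit 1) (nat_lit 3) (nat_lit 0x5500) (nat_lit 0x10001000200020000000000000000))) (.non (nat_lit 1) (nat_lit 3) (nat_lit 0x5500) (nat_lit 0x10001000200020000000000000000))) (.star (nat_lit 7) (nat_lit 2) (nat_lit 3))) (.star (nat_lit 7) (nat_lit 1) (nat_lit 3)))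

noncomputable def t167 : Tr := (.split (nat_lit 6) (nat_lit 0) (.split (nat_lit 6) (nat_lit 1) (.split (nat_lit 6) (nat_lit 2) .uj (.st (nat_lit 2) (nat_lit 1) (nat_lit 3) (nat_lit 0x1510) (nat_lit 0x3000400030000000200000000) (nat_lit 1) (nat_lit 1) (.st (nat_lit 6) (nat_lit 1) (nat_lit 3) (nat_lit 0x1510) (nat_lit 0x2000200020000000100000000) (nat_lit 1) (nat_lit 1) (.ex (nat_lit 1) (.ex (nat_lit 3) (.pd (.cons (nat_lit 0) (nat_lit 6) (nat_lit 0x110) (nat_lit 0x433120) (nat_lit 0xf423f54591437a2000010000100000) (.cons (nat_lit 1) (nat_lit 5) (nat_lit 0x1000100) (nat_lit 0x2033600) (nat_lit 0x100000f423fb71ae0000100000f423f) (.cons (nat_lit 1) (nat_lit 6) (nat_lit 0) (nat_lit 0x433200) (nat_lit 0xf423f54591437a2f423f00000f423f) (.cons (nat_lit 2) (nat_lit 5) (nat_lit 0) (nat_lit 0x6033000) (nat_lit 0xf423f00000f423fb71ae00000f423fb71ae) (.cons (nat_lit 2) (nat_lit 6) (nat_lit 0) (nat_lit 0x433000) (nat_lit 0xf423f54591437a200000f423fb71ae) .nil))))) (.split (nat_lit 6) (nat_lit 2)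 (.leaf (.cons (nat_lit 0x1014) (nat_lit 0x1000000000000000200020000) .nil) (.cons (nat_lit 0x1110100) (nat_lit 0x1010) (nat_lit 0x10) (nat_lit 0x2100300) .nil)) (.non (nat_lit 1) (nat_lit 3) (nat_lit 0x1510) (nat_lit 0x1000100010000000100000000)))) t167_4) (.split (nat_lit 7) (nat_lit 0) (.split (nat_lit 7) (nat_lit 2) (.split (nat_lit 7) (nat_lit 3) (.split (nat_lit 7) (nat_lit 4) (.split (nat_lit 7) (nat_lit 5) (.split (nat_lit 7) (nat_lit 6) (.split (nat_lit 7) (nat_lit 1) (.split (nat_lit 6) (nat_lit 2) (.sup (nat_lit 0x3000800080004000000000000) (nat_lit 0x20000000000000000000200040002)) (.non (nat_lit 1) (nat_lit 3) (nat_lit 0x1510) (nat_lit 0x1000100010000000100000000))) (.sup (nat_lit 0x3000800080004000000000000) (nat_lit 0x20000000000000000000100030001))) (.non (nat_lit 1) (nat_lit 3) (nat_lit 0x5510) (nat_lit 0x10002000200020000000100000000))) (.non (nat_lit 1) (nat_lit 3) (nat_lit 0x5500) (nat_lit 0x10001000200020000000000000000))) (.star (nat_lit 7) (nat_lit 1) (nat_lit 4)))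 (.star (nat_lit 7) (nat_lit 1) (nat_lit 3))) (.non (nat_lit 1) (nat_lit 3) (nat_lit 0x5510) (nat_lit 0x10003000400030000000200000000))) (.non (nat_lit 2) (nat_lit 3) (nat_lit 0x4005) (nat_lit 0x10000000000000000000000010001))))))) (.non (nat_lit 2) (nat_lit 3) (nat_lit 0x1505) (nat_lit 0x3000400030000000000020001))) (.non (nat_lit 2) (nat_lit 3) (nat_lit 0x1505) (nat_lit 0x3000400030000000000010002)))

noncomputable def t170_1 : Tr := (.pd (.cons (nat_lit 0) (nat_lit 4) (nat_lit 0x110) (nat_lit 0x5503120) (nat_lit 0xf423fb71ae00000f423f000010000100000) (.cons (nat_lit 0) (nat_lit 5) (nat_lit 0x110) (nat_lit 0x6033120) (nat_lit 0xf423f00000f423fb71ae000010000100000) .nil)) (.ex (nat_lit 5) (.pd (.cons (nat_lit 0) (nat_lit 6) (nat_lit 0x110) (nat_lit 0x433120) (nat_lit 0xf423f54591437a2000010000100000) .nil) (.ex (nat_lit 6) (.pd (.cons (nat_lit 0) (nat_lit 3) (nat_lit 0x110) (nat_lit 0x5440120) (nat_lit 0xf423fb71ae1f15600000000010000100000) (.cons (nat_lit 1) (nat_lit 3) (nat_lit 0)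 (nat_lit 0x5440200) (nat_lit 0xf423fb71ae1f15600000f423f00000f423f) (.cons (nat_lit 2) (nat_lit 3) (nat_lit 0) (nat_lit 0x5440000) (nat_lit 0xf423fb71ae1f1560000000000f423fb71ae) .nil))) (.split (nat_lit 3) (nat_lit 0) (.leaf (.cons (nat_lit 0x541) (nat_lit 0x100010001000000000001) .nil) (.cons (nat_lit 0x11001) (nat_lit 0x100010) (nat_lit 6) (nat_lit 0x21000) .nil)) (.non (nat_lit 2) (nat_lit 5) (nat_lit 0x145) (nat_lit 0x10002000000010002)))) (.split (nat_lit 7) (nat_lit 0) (.split (nat_lit 7) (nat_lit 1) (.split (nat_lit 7) (nat_lit 2) (.split (nat_lit 7) (nat_lit 3) (.split (nat_lit 7) (nat_lit 4) (.split (nat_lit 7) (nat_lit 5) (.sup (nat_lit 0x20005000800060001000000000000) (nat_lit 0x700080003)) (.non (nat_lit 1) (nat_lit 4) (nat_lit 0x5400) (nat_lit 0x10001000100000000000000000000))) (.non (nat_lit 2) (nat_lit 5) (nat_lit 0x8285) (nat_lit 0x10000000000020003000000020004))) (.non (nat_lit 1) (nat_lit 5) (nat_lit 0x8281) (nat_lit 0x10000000000010002000000000002))) (.non (nat_lit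 0) (nat_lit 4) (nat_lit 0x4014) (nat_lit 0x10000000000000000000200020000))) (.non (nat_lit 2) (nat_lit 5) (nat_lit 0x4285) (nat_lit 0x10000000000010002000000020003))) (.non (nat_lit 1) (nat_lit 5) (nat_lit 0x5281) (nat_lit 0x20001000000010002000000000003))))) (.split (nat_lit 7) (nat_lit 0) (.split (nat_lit 7) (nat_lit 1) (.split (nat_lit 7) (nat_lit 2) (.split (nat_lit 7) (nat_lit 3) (.split (nat_lit 7) (nat_lit 4) (.split (nat_lit 7) (nat_lit 6) (.unj (nat_lit 0x15) (nat_lit 0x200020001) (nat_lit 0x5500) (nat_lit 0x10001000200020000000000000000)) (.non (nat_lit 1) (nat_lit 4) (nat_lit 0x5400) (nat_lit 0x10001000100000000000000000000))) (.non (nat_lit 2) (nat_lit 5) (nat_lit 0x8285) (nat_lit 0x10000000000020003000000020004))) (.non (nat_lit 1) (nat_lit 5) (nat_lit 0x8281) (nat_lit 0x10000000000010002000000000002))) (.star (nat_lit 7) (nat_lit 2) (nat_lit 5))) (.star (nat_lit 7) (nat_lit 1) (nat_lit 5))) (.non (nat_lit 2) (nat_lit 4) (nat_lit 0x4085) (nat_lit 0x10000000000000001000000010002)))))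

noncomputable def t170_2 : Tr := (.split (nat_lit 3) (nat_lit 0) (.sup (nat_lit 0x9000a0004) (nat_lit 0x5000a00090002000000000000)) (.st (nat_lit 1) (nat_lit 2) (nat_lit 5) (nat_lit 0x285) (nat_lit 0x10002000000020003) (nat_lit 1) (nat_lit 1) (.st (nat_lit 3) (nat_lit 1) (nat_lit 5) (nat_lit 0x281) (nat_lit 0x10002000000000002) (nat_lit 2) (nat_lit 1) (.st (nat_lit 4) (nat_lit 2) (nat_lit 5) (nat_lit 0x285) (nat_lit 0x20003000000020004) (nat_lit 2) (nat_lit 1) (.st (nat_lit 0) (nat_lit 2) (nat_lit 4) (nat_lit 0x85) (nat_lit 0x1000000010002) (nat_lit 1) (nat_lit 1) (.ex (nat_lit 2) t170_1 (.split (nat_lit 7) (nat_lit 0) (.split (nat_lit 7) (nat_lit 1) (.split (nat_lit 7) (nat_lit 3) (.split (nat_lit 7) (nat_lit 4) (.split (nat_lit 7) (nat_lit 5) (.split (nat_lit 7) (nat_lit 6) (.unj (nat_lit 0x4014) (nat_lit 0x10000000000000000000200020000) (nat_lit 0x1540) (nat_lit 0x1000200020001000000000000)) (.split (nat_lit 7) (nat_lit 2) (.split (nat_lit 7) (nat_lit 6) (.sup (nat_lit 0x40000000000000000000a00090000)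 (nat_lit 0x20009000a0005000000000000)) (.st (nat_lit 2) (nat_lit 1) (nat_lit 4) (nat_lit 0x6810) (nat_lit 0x30002000100000000000200000000) (nat_lit 1) (nat_lit 1) (.st (nat_lit 5) (nat_lit 1) (nat_lit 4) (nat_lit 0x6810) (nat_lit 0x40003000200000000000200000000) (nat_lit 2) (nat_lit 1) (.st (nat_lit 6) (nat_lit 1) (nat_lit 4) (nat_lit 0x9400) (nat_lit 0x10002000100000000000000000000) (nat_lit 1) (nat_lit 1) (.st (nat_lit 7) (nat_lit 1) (nat_lit 4) (nat_lit 0x6010) (nat_lit 0x20001000000000000000100000000) (nat_lit 1) (nat_lit 1) (.split (nat_lit 3) (nat_lit 0) (.split (nat_lit 7) (nat_lit 6) (.leaf (.cons (nat_lit 0x5500) (nat_lit 0x10001000100010000000000000000) (.cons (nat_lit 0x4014) (nat_lit 0x10000000000000000000200020000) (.cons (nat_lit 0x541) (nat_lit 0x100010001000000000001) .nil))) (.cons (nat_lit 0x11100100) (nat_lit 0x10010) (nat_lit 0xf) (nat_lit 0x12300000) (.cons (nat_lit 0x11011) (nat_lit 0x100100) (nat_lit 0xf) (nat_lit 0x32001) .nil))) (.non (nat_lit 1) (nat_lit 4)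 (nat_lit 0x5410) (nat_lit 0x20002000100000000000100000000))) (.non (nat_lit 2) (nat_lit 5) (nat_lit 0x145) (nat_lit 0x10002000000010002)))))))) (.sup (nat_lit 0x40000000000000000000500030000) (nat_lit 0x400050003000000000001)))) (.star (nat_lit 7) (nat_lit 2) (nat_lit 5))) (.star (nat_lit 7) (nat_lit 2) (nat_lit 4))) (.non (nat_lit 1) (nat_lit 5) (nat_lit 0x8281) (nat_lit 0x10000000000010002000000000002))) (.non (nat_lit 2) (nat_lit 5) (nat_lit 0x4285) (nat_lit 0x10000000000010002000000020003))) (.non (nat_lit 1) (nat_lit 5) (nat_lit 0x4291) (nat_lit 0x20000000000010002000100000003)))))))))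

noncomputable def t170_3 : Tr := (.pd (.cons (nat_lit 0) (nat_lit 4) (nat_lit 0x110) (nat_lit 0x5503120) (nat_lit 0xf423fb71ae00000f423f000010000100000) (.cons (nat_lit 0) (nat_lit 5) (nat_lit 0x110) (nat_lit 0x6033120) (nat_lit 0xf423f00000f423fb71ae000010000100000) .nil)) (.ex (nat_lit 3) (.ex (nat_lit 4) (.pd (.cons (nat_lit 0) (nat_lit 3) (nat_lit 0x110) (nat_lit 0x5440120) (nat_lit 0xf423fb71ae1f15600000000010000100000) (.cons (nat_lit 0) (nat_lit 6) (nat_lit 0x110) (nat_lit 0x433120) (nat_lit 0xf423f54591437a2000010000100000) (.cons (nat_lit 1) (nat_lit 6) (nat_lit 0) (nat_lit 0x433200) (nat_lit 0xf423f54591437a2f423f00000f423f) (.cons (nat_lit 2) (nat_lit 6) (nat_lit 0) (nat_lit 0x433000) (nat_lit 0xf423f54591437a200000f423fb71ae) .nil)))) (.split (nat_lit 6) (nat_lit 0) (.leaf (.cons (nat_lit 0x1501) (nat_lit 0x1000100010000000000000001) .nil) (.cons (nat_lit 0x1100001) (nat_lit 0x10010) (nat_lit 6) (nat_lit 0x1200000) .nil)) (.non (nat_lit 2) (nat_lit 4) (nat_lit 0x1405) (nat_lit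 0x2000100000000000000010002)))) (.split (nat_lit 7) (nat_lit 0) (.split (nat_lit 7) (nat_lit 1) (.split (nat_lit 7) (nat_lit 2) (.split (nat_lit 7) (nat_lit 3) (.split (nat_lit 7) (nat_lit 5) (.split (nat_lit 7) (nat_lit 6) (.unj (nat_lit 0x15) (nat_lit 0x200020001) (nat_lit 0x4540) (nat_lit 0x10000000200020001000000000000)) (.non (nat_lit 1) (nat_lit 4) (nat_lit 0xa801) (nat_lit 0x10002000100000000000000000002))) (.non (nat_lit 2) (nat_lit 4) (nat_lit 0xa805) (nat_lit 0x10003000200000000000000020004))) (.non (nat_lit 1) (nat_lit 5) (nat_lit 0x4140) (nat_lit 0x10000000000010001000000000000))) (.star (nat_lit 7) (nat_lit 2) (nat_lit 4))) (.star (nat_lit 7) (nat_lit 1) (nat_lit 4))) (.non (nat_lit 2) (nat_lit 4) (nat_lit 0x6005) (nat_lit 0x10001000000000000000000010002)))) (.split (nat_lit 7) (nat_lit 0) (.split (nat_lit 7) (nat_lit 1) (.split (nat_lit 7) (nat_lit 2) (.split (nat_lit 7) (nat_lit 4) (.split (nat_lit 7) (nat_lit 5) (.split (nat_lit 7) (nat_lit 6) (.sup (nat_lit 0x20001000600080005000000000000)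 (nat_lit 0x700080003)) (.non (nat_lit 1) (nat_lit 4) (nat_lit 0xa801) (nat_lit 0x10002000100000000000000000002))) (.non (nat_lit 2) (nat_lit 4) (nat_lit 0xa805) (nat_lit 0x10003000200000000000000020004))) (.non (nat_lit 1) (nat_lit 5) (nat_lit 0x4140) (nat_lit 0x10000000000010001000000000000))) (.non (nat_lit 0) (nat_lit 4) (nat_lit 0x4014) (nat_lit 0x10000000000000000000200020000))) (.non (nat_lit 2) (nat_lit 4) (nat_lit 0x6805) (nat_lit 0x10002000100000000000000020003))) (.non (nat_lit 1) (nat_lit 4) (nat_lit 0x6841) (nat_lit 0x20002000100000001000000000003)))))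

noncomputable def t170_4 : Tr := (.st (nat_lit 1) (nat_lit 2) (nat_lit 4) (nat_lit 0x2805) (nat_lit 0x2000100000000000000020003) (nat_lit 1) (nat_lit 1) (.st (nat_lit 5) (nat_lit 2) (nat_lit 4) (nat_lit 0x2805) (nat_lit 0x3000200000000000000020004) (nat_lit 2) (nat_lit 1) (.st (nat_lit 6) (nat_lit 1) (nat_lit 4) (nat_lit 0x2801) (nat_lit 0x2000100000000000000000002) (nat_lit 2) (nat_lit 1) (.st (nat_lit 0) (nat_lit 2) (nat_lit 4) (nat_lit 0x2005) (nat_lit 0x1000000000000000000010002) (nat_lit 1) (nat_lit 1) (.ex (nat_lit 2) t170_3 (.split (nat_lit 7) (nat_lit 0) (.split (nat_lit 7) (nat_lit 1) (.split (nat_lit 7) (nat_lit 4) (.split (nat_lit 7) (nat_lit 5) (.split (nat_lit 7) (nat_lit 6) (.split (nat_lit 7) (nat_lit 3) (.unj (nat_lit 0x4014) (nat_lit 0x10000000000000000000200020000) (nat_lit 0x1540) (nat_lit 0x1000200020001000000000000)) (.split (nat_lit 7) (nat_lit 2) (.split (nat_lit 7) (nat_lit 3) (.sup (nat_lit 0x40000000000000000000a00090000) (nat_lit 0x5000a00090002000000000000))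 (.st (nat_lit 2) (nat_lit 1) (nat_lit 5) (nat_lit 0x4290) (nat_lit 0x30000000000010002000200000000) (nat_lit 1) (nat_lit 1) (.st (nat_lit 3) (nat_lit 1) (nat_lit 5) (nat_lit 0x8140) (nat_lit 0x10000000000010002000000000000) (nat_lit 1) (nat_lit 1) (.st (nat_lit 4) (nat_lit 1) (nat_lit 5) (nat_lit 0x4290) (nat_lit 0x40000000000020003000200000000) (nat_lit 2) (nat_lit 1) (.st (nat_lit 7) (nat_lit 1) (nat_lit 4) (nat_lit 0x4090) (nat_lit 0x20000000000000001000100000000) (nat_lit 1) (nat_lit 1) (.split (nat_lit 6) (nat_lit 0) (.split (nat_lit 7) (nat_lit 3) (.leaf (.cons (nat_lit 0x4014) (nat_lit 0x10000000000000000000200020000) (.cons (nat_lit 0x1501) (nat_lit 0x1000100010000000000000001) (.cons (nat_lit 0x4540) (nat_lit 0x10000000100010001000000000000) .nil))) (.cons (nat_lit 0x10011100) (nat_lit 0x100010) (nat_lit 0xf) (nat_lit 0x10032000) (.cons (nat_lit 0x1100011) (nat_lit 0x10100) (nat_lit 0xf) (nat_lit 0x2300001) .nil))) (.non (nat_lit 1) (nat_lit 5) (nat_lit 0x4150) (nat_lit 0x20000000000010002000100000000)))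 (.non (nat_lit 2) (nat_lit 4) (nat_lit 0x1405) (nat_lit 0x2000100000000000000010002)))))))) (.sup (nat_lit 0x40000000000000000000500030000) (nat_lit 0x3000500040000000000000001)))) (.non (nat_lit 1) (nat_lit 4) (nat_lit 0xa801) (nat_lit 0x10002000100000000000000000002))) (.star (nat_lit 7) (nat_lit 2) (nat_lit 5))) (.star (nat_lit 7) (nat_lit 2) (nat_lit 4))) (.non (nat_lit 2) (nat_lit 4) (nat_lit 0x6805) (nat_lit 0x10002000100000000000000020003))) (.non (nat_lit 1) (nat_lit 4) (nat_lit 0x6811) (nat_lit 0x20002000100000000000100000003))))))))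

noncomputable def t170_5 : Tr := (.ex (nat_lit 4) (.ex (nat_lit 5) (.split (nat_lit 6) (nat_lit 0) (.split (nat_lit 3) (nat_lit 0) (.pd (.cons (nat_lit 0) (nat_lit 3) (nat_lit 0x110) (nat_lit 0x5440120) (nat_lit 0xf423fb71ae1f15600000000010000100000) (.cons (nat_lit 0) (nat_lit 6) (nat_lit 0x110) (nat_lit 0x433120) (nat_lit 0xf423f54591437a2000010000100000) (.cons (nat_lit 1) (nat_lit 3) (nat_lit 0) (nat_lit 0x650200) (nat_lit 0x437a254591f423f00000f423f00000174ea) (.cons (nat_lit 1) (nat_lit 6) (nat_lit 0) (nat_lit 0x430200) (nat_lit 0xf423f54591437a2f423f00000174ea) .nil)))) (.leaf (.cons (nat_lit 0x1505) (nat_lit 0x3000400030000000000010002) (.cons (nat_lit 0x545) (nat_lit 0x300040003000000010002) .nil)) .nil)) (.non (nat_lit 2) (nat_lit 4) (nat_lit 0x1085) (nat_lit 0x1000000000001000000010002))) (.non (nat_lit 2) (nat_lit 4) (nat_lit 0x2045) (nat_lit 0x1000000000001000000010002))) (.split (nat_lit 7) (nat_lit 0) (.split (nat_lit 7) (nat_lit 1) (.split (nat_lit 7) (nat_lit 2) (.split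 (nat_lit 7) (nat_lit 3) (.split (nat_lit 7) (nat_lit 6) (.split (nat_lit 7) (nat_lit 4) (.split (nat_lit 7) (nat_lit 5) (.split (nat_lit 6) (nat_lit 0) (.sup (nat_lit 0x500050002) (nat_lit 0x30001000500040000000000000000)) (.non (nat_lit 1) (nat_lit 4) (nat_lit 0xa841) (nat_lit 0x10003000200000002000000000004))) (.non (nat_lit 2) (nat_lit 4) (nat_lit 0x9445) (nat_lit 0x10002000200000001000000010002))) (.unj (nat_lit 0x15) (nat_lit 0x200020001) (nat_lit 0x4500) (nat_lit 0x10000000100010000000000000000))) (.non (nat_lit 1) (nat_lit 4) (nat_lit 0x5400) (nat_lit 0x10001000100000000000000000000))) (.non (nat_lit 1) (nat_lit 4) (nat_lit 0x5441) (nat_lit 0x10001000100000001000000000001))) (.star (nat_lit 7) (nat_lit 2) (nat_lit 5))) (.star (nat_lit 7) (nat_lit 1) (nat_lit 5))) (.non (nat_lit 1) (nat_lit 4) (nat_lit 0x5401) (nat_lit 0x10001000100000000000000000001)))) (.split (nat_lit 7) (nat_lit 0) (.split (nat_lit 7) (nat_lit 1) (.split (nat_lit 7) (nat_lit 2) (.split (nat_lit 7) (nat_lit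 3) (.split (nat_lit 7) (nat_lit 6) (.split (nat_lit 7) (nat_lit 5) (.split (nat_lit 7) (nat_lit 4) (.split (nat_lit 6) (nat_lit 0) (.sup (nat_lit 0x9000a0004) (nat_lit 0x500020009000a0000000000000000)) (.non (nat_lit 2) (nat_lit 4) (nat_lit 0x2045) (nat_lit 0x1000000000001000000010002))) (.non (nat_lit 2) (nat_lit 5) (nat_lit 0x9145) (nat_lit 0x10001000000020002000000010002))) (.unj (nat_lit 0x15) (nat_lit 0x200020001) (nat_lit 0x4500) (nat_lit 0x10000000100010000000000000000))) (.non (nat_lit 1) (nat_lit 5) (nat_lit 0x5141) (nat_lit 0x10001000000010001000000000001))) (.non (nat_lit 1) (nat_lit 5) (nat_lit 0x4140) (nat_lit 0x10000000000010001000000000000))) (.star (nat_lit 7) (nat_lit 2) (nat_lit 4))) (.star (nat_lit 7) (nat_lit 1) (nat_lit 4))) (.non (nat_lit 1) (nat_lit 5) (nat_lit 0x4141) (nat_lit 0x10000000000010001000000000001))))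

noncomputable def t170 : Tr := (.split (nat_lit 6) (nat_lit 0) (.split (nat_lit 3) (nat_lit 0) .uj t170_2) (.split (nat_lit 3) (nat_lit 0) (.split (nat_lit 6) (nat_lit 0) (.sup (nat_lit 0x9000a0004) (nat_lit 0x20009000a0005000000000000)) t170_4) (.st (nat_lit 0) (nat_lit 2) (nat_lit 4) (nat_lit 0x1045) (nat_lit 0x1000000000001000000010002) (nat_lit 1) (nat_lit 1) (.st (nat_lit 3) (nat_lit 2) (nat_lit 5) (nat_lit 0x1145) (nat_lit 0x1000000010002000000010002) (nat_lit 1) (nat_lit 1) (.st (nat_lit 6) (nat_lit 2) (nat_lit 4) (nat_lit 0x1445) (nat_lit 0x2000100000001000000010002) (nat_lit 1) (nat_lit 1) (.ex (nat_lit 1) (.ex (nat_lit 2) (.pd (.cons (nat_lit 0) (nat_lit 4) (nat_lit 0x110) (nat_lit 0x5503120) (nat_lit 0xf423fb71ae00000f423f000010000100000) (.cons (nat_lit 0) (nat_lit 5) (nat_lit 0x110) (nat_lit 0x6033120) (nat_lit 0xf423f00000f423fb71ae000010000100000) .nil)) t170_5) (.split (nat_lit 7) (nat_lit 0) (.split (nat_lit 7) (nat_lit 3) (.split (nat_lit 7) (nat_lit 4) (.split (nat_lit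 7) (nat_lit 5) (.split (nat_lit 7) (nat_lit 6) (.split (nat_lit 7) (nat_lit 1) (.unj (nat_lit 0x4014) (nat_lit 0x10000000000000000000200020000) (nat_lit 0x1540) (nat_lit 0x1000200020001000000000000)) (.unj (nat_lit 0x4014) (nat_lit 0x10000000000000000000100010000) (nat_lit 0x1540) (nat_lit 0x1000200020001000000000000))) (.non (nat_lit 2) (nat_lit 4) (nat_lit 0x5445) (nat_lit 0x10002000100000001000000010002))) (.star (nat_lit 7) (nat_lit 2) (nat_lit 5))) (.star (nat_lit 7) (nat_lit 2) (nat_lit 4))) (.non (nat_lit 2) (nat_lit 5) (nat_lit 0x5145) (nat_lit 0x10001000000010002000000010002))) (.non (nat_lit 2) (nat_lit 4) (nat_lit 0x5045) (nat_lit 0x10001000000000001000000010002)))) (.split (nat_lit 7) (nat_lit 0) (.split (nat_lit 7) (nat_lit 3) (.split (nat_lit 7) (nat_lit 4) (.split (nat_lit 7) (nat_lit 5) (.split (nat_lit 7) (nat_lit 6) (.split (nat_lit 7) (nat_lit 2) (.unj (nat_lit 0x4014) (nat_lit 0x10000000000000000000200020000) (nat_lit 0x1540) (nat_lit 0x1000200020001000000000000))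 (.unj (nat_lit 0x4014) (nat_lit 0x10000000000000000000100010000) (nat_lit 0x1540) (nat_lit 0x1000200020001000000000000))) (.non (nat_lit 2) (nat_lit 4) (nat_lit 0x5005) (nat_lit 0x10001000000000000000000010001))) (.star (nat_lit 7) (nat_lit 1) (nat_lit 5))) (.star (nat_lit 7) (nat_lit 1) (nat_lit 4))) (.non (nat_lit 2) (nat_lit 4) (nat_lit 0x4045) (nat_lit 0x10000000000000001000000010001))) (.non (nat_lit 2) (nat_lit 4) (nat_lit 0x4005) (nat_lit 0x10000000000000000000000010001)))))))))

noncomputable def t171_1 : Tr := (.ex (nat_lit 3) (.pd (.cons (nat_lit 0) (nat_lit 6) (nat_lit 0x110) (nat_lit 0x433120) (nat_lit 0xf423fb71ae1f156000010000100000) (.cons (nat_lit 1) (nat_lit 5) (nat_lit 0x1000100) (nat_lit 0x2033600) (nat_lit 0x100000f423f545910000100000f423f) (.cons (nat_lit 1) (nat_lit 6) (nat_lit 0) (nat_lit 0x433200) (nat_lit 0xf423fb71ae1f156f423f00000f423f) (.cons (nat_lit 2) (nat_lit 5) (nat_lit 0) (nat_lit 0x6033000) (nat_lit 0xf423f00000f423f5459100000f423fb71ae) (.cons (nat_lit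 2) (nat_lit 6) (nat_lit 0) (nat_lit 0x433000) (nat_lit 0xf423fb71ae1f15600000f423fb71ae) .nil))))) (.split (nat_lit 6) (nat_lit 2) (.leaf (.cons (nat_lit 0x1014) (nat_lit 0x1000000000000000200020000) .nil) (.cons (nat_lit 0x1000100) (nat_lit 0x100010) (nat_lit 0) (nat_lit 0x1000000) .nil)) (.non (nat_lit 1) (nat_lit 3) (nat_lit 0x2410) (nat_lit 0x1000100000000000100000000)))) (.split (nat_lit 7) (nat_lit 1) (.split (nat_lit 7) (nat_lit 2) (.split (nat_lit 7) (nat_lit 4) (.split (nat_lit 7) (nat_lit 5) (.split (nat_lit 7) (nat_lit 6) (.split (nat_lit 7) (nat_lit 0) (.unj (nat_lit 0x15) (nat_lit 0x200020001) (nat_lit 0x4540) (nat_lit 0x10000000100020002000000000000)) (.split (nat_lit 7) (nat_lit 0) (.sup (nat_lit 0x9000a0004) (nat_lit 0x200000005000a0009000000000000)) (.st (nat_lit 0) (nat_lit 2) (nat_lit 3) (nat_lit 0x8005) (nat_lit 0x10000000000000000000000010002) (nat_lit 1) (nat_lit 1) (.st (nat_lit 3) (nat_lit 2) (nat_lit 4) (nat_lit 0x8085) (nat_lit 0x30000000000000002000000020004)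 (nat_lit 2) (nat_lit 1) (.st (nat_lit 7) (nat_lit 1) (nat_lit 4) (nat_lit 0x8081) (nat_lit 0x20000000000000001000000000002) (nat_lit 2) (nat_lit 1) (.split (nat_lit 7) (nat_lit 0) (.split (nat_lit 6) (nat_lit 2) (.split (nat_lit 6) (nat_lit 5) (.split (nat_lit 7) (nat_lit 3) (.leaf (.cons (nat_lit 0x1014) (nat_lit 0x1000000000000000200020000) (.cons (nat_lit 0x4540) (nat_lit 0x10000000100020002000000000000) (.cons (nat_lit 0x4141) (nat_lit 0x10000000000010001000000000001) .nil))) (.cons (nat_lit 0x1110100) (nat_lit 0x1010) (nat_lit 0xf) (nat_lit 0x1230000) (.cons (nat_lit 0x10001011) (nat_lit 0x10100) (nat_lit 0xf) (nat_lit 0x20003001) .nil))) (.non (nat_lit 1) (nat_lit 4) (nat_lit 0x8041) (nat_lit 0x10000000000000001000000000001))) (.non (nat_lit 1) (nat_lit 3) (nat_lit 0x1510) (nat_lit 0x2000200010000000100000000))) (.non (nat_lit 1) (nat_lit 3) (nat_lit 0x2410) (nat_lit 0x1000100000000000100000000))) (.non (nat_lit 2) (nat_lit 4) (nat_lit 0x4045) (nat_lit 0x20000000000000001000000010002))))))))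 (.non (nat_lit 1) (nat_lit 3) (nat_lit 0x5810) (nat_lit 0x10002000100000000000100000000))) (.non (nat_lit 1) (nat_lit 3) (nat_lit 0x6500) (nat_lit 0x10001000200010000000000000000))) (.non (nat_lit 1) (nat_lit 3) (nat_lit 0x9a10) (nat_lit 0x10004000300020000000200000000))) (.star (nat_lit 7) (nat_lit 2) (nat_lit 3))) (.star (nat_lit 7) (nat_lit 1) (nat_lit 3))))

noncomputable def t171 : Tr := (.split (nat_lit 6) (nat_lit 0) (.split (nat_lit 6) (nat_lit 1) (.split (nat_lit 6) (nat_lit 2) .uj (.st (nat_lit 2) (nat_lit 1) (nat_lit 3) (nat_lit 0x1a10) (nat_lit 0x3000200010000000200000000) (nat_lit 1) (nat_lit 1) (.st (nat_lit 4) (nat_lit 1) (nat_lit 3) (nat_lit 0x1a10) (nat_lit 0x4000300020000000200000000) (nat_lit 2) (nat_lit 1) (.st (nat_lit 6) (nat_lit 1) (nat_lit 3) (nat_lit 0x1810) (nat_lit 0x2000100000000000100000000) (nat_lit 1) (nat_lit 1) (.ex (nat_lit 1) t171_1 (.split (nat_lit 7) (nat_lit 0) (.split (nat_lit 7) (nat_lit 2) (.split (nat_lit 7) (nat_lit 3) (.split (nat_lit 7) (nat_lit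 4) (.split (nat_lit 7) (nat_lit 5) (.split (nat_lit 7) (nat_lit 6) (.split (nat_lit 7) (nat_lit 1) (.split (nat_lit 6) (nat_lit 2) (.sup (nat_lit 0x3000600080006000000000000) (nat_lit 0x20000000000000000000300050002)) (.non (nat_lit 1) (nat_lit 3) (nat_lit 0x2410) (nat_lit 0x1000100000000000100000000))) (.sup (nat_lit 0x8000d0010000c000000000000) (nat_lit 0x50000000000000000000200070003))) (.non (nat_lit 1) (nat_lit 3) (nat_lit 0x5810) (nat_lit 0x10002000100000000000100000000))) (.non (nat_lit 1) (nat_lit 3) (nat_lit 0x6500) (nat_lit 0x10001000200010000000000000000))) (.star (nat_lit 7) (nat_lit 1) (nat_lit 4))) (.star (nat_lit 7) (nat_lit 1) (nat_lit 3))) (.non (nat_lit 1) (nat_lit 3) (nat_lit 0x5a10) (nat_lit 0x10003000200010000000200000000))) (.non (nat_lit 2) (nat_lit 3) (nat_lit 0x4005) (nat_lit 0x10000000000000000000000010001)))))))) (.non (nat_lit 2) (nat_lit 3) (nat_lit 0x1a05) (nat_lit 0x3000200010000000000020001))) (.non (nat_lit 2) (nat_lit 3) (nat_lit 0x1a05) (nat_lit 0x3000200010000000000010002)))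

noncomputable def t172 : Tr := (.split (nat_lit 6) (nat_lit 0) (.split (nat_lit 4) (nat_lit 0) .uj (.st (nat_lit 1) (nat_lit 2) (nat_lit 5) (nat_lit 0x145) (nat_lit 0x40003000000020003) (nat_lit 1) (nat_lit 1) (.st (nat_lit 3) (nat_lit 1) (nat_lit 5) (nat_lit 0x141) (nat_lit 0x20002000000000001) (nat_lit 1) (nat_lit 1) (.st (nat_lit 4) (nat_lit 1) (nat_lit 3) (nat_lit 0x2501) (nat_lit 0x1000200020000000000000001) (nat_lit 1) (nat_lit 1) (.st (nat_lit 6) (nat_lit 1) (nat_lit 3) (nat_lit 0x2501) (nat_lit 0x2000300020000000000000001) (nat_lit 2) (nat_lit 1) (.pd (.cons (nat_lit 1) (nat_lit 4) (nat_lit 0x1100000) (nat_lit 0x5603200) (nat_lit 0x10000100000f423ff423f00000f423f) (.cons (nat_lit 2) (nat_lit 4) (nat_lit 0x1100000) (nat_lit 0x5603000) (nat_lit 0x10000100000f423f00000f423fb71ae) .nil)) (.ex (nat_lit 2) (.split (nat_lit 6) (nat_lit 5) (.pd (.cons (nat_lit 0) (nat_lit 3) (nat_lit 0x110) (nat_lit 0x5440120) (nat_lit 0xf423f7a11e7a11c00000000010000100000) (.cons (nat_lit 0) (nat_lit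 4) (nat_lit 0x110) (nat_lit 0x5503120) (nat_lit 0xf423f7a11e00000f423f000010000100000) (.cons (nat_lit 0) (nat_lit 5) (nat_lit 0x110) (nat_lit 0x6033120) (nat_lit 0xf423f00000f423f54591000010000100000) (.cons (nat_lit 0) (nat_lit 6) (nat_lit 0x110) (nat_lit 0x433120) (nat_lit 0xf423fb71ae1f156000010000100000) .nil)))) (.leaf (.cons (nat_lit 0x541) (nat_lit 0x100020002000000000001) .nil) .nil)) (.non (nat_lit 2) (nat_lit 3) (nat_lit 0x1505) (nat_lit 0x3000400030000000000010002))) (.split (nat_lit 7) (nat_lit 0) (.split (nat_lit 7) (nat_lit 1) (.split (nat_lit 7) (nat_lit 3) (.split (nat_lit 7) (nat_lit 4) (.split (nat_lit 7) (nat_lit 5) (.split (nat_lit 7) (nat_lit 6) (.unj (nat_lit 0x4014) (nat_lit 0x10000000000000000000200020000) (nat_lit 0x1540) (nat_lit 0x1000100010001000000000000)) (.non (nat_lit 1) (nat_lit 3) (nat_lit 0x5a10) (nat_lit 0x20003000200010000000100000000))) (.star (nat_lit 7) (nat_lit 2) (nat_lit 5))) (.non (nat_lit 1) (nat_lit 3) (nat_lit 0x6501) (nat_lit 0x10001000200020000000000000001)))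 (.star (nat_lit 7) (nat_lit 2) (nat_lit 3))) (.non (nat_lit 2) (nat_lit 5) (nat_lit 0x4145) (nat_lit 0x10000000000040003000000020003))) (.non (nat_lit 1) (nat_lit 5) (nat_lit 0x4151) (nat_lit 0x20000000000040003000100000003)))))))))) (.non (nat_lit 2) (nat_lit 3) (nat_lit 0x1a05) (nat_lit 0x3000200010000000000010002)))

noncomputable def t174_1 : Tr := (.ex (nat_lit 5) (.pd (.cons (nat_lit 0) (nat_lit 6) (nat_lit 0x110) (nat_lit 0x433120) (nat_lit 0xf423fb71ae1f156000010000100000) .nil) (.ex (nat_lit 6) (.split (nat_lit 6) (nat_lit 5) (.pd (.cons (nat_lit 0) (nat_lit 3) (nat_lit 0x110) (nat_lit 0x5440120) (nat_lit 0xf423f7a11e7a11c00000000010000100000) (.cons (nat_lit 1) (nat_lit 3) (nat_lit 0) (nat_lit 0x5440200) (nat_lit 0xf423f7a11e7a11c00000f423f00000f423f) (.cons (nat_lit 2) (nat_lit 3) (nat_lit 0) (nat_lit 0x5440000) (nat_lit 0xf423f7a11e7a11c0000000000f423fb71ae) .nil))) (.split (nat_lit 3) (nat_lit 0) (.leaf (.cons (nat_lit 0x541) (nat_lit 0x100020002000000000001) .nil) (.cons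 (nat_lit 0x1001) (nat_lit 0x10010) (nat_lit 0) (nat_lit 0x1000) .nil)) (.non (nat_lit 1) (nat_lit 5) (nat_lit 0x141) (nat_lit 0x10001000000000001)))) (.split (nat_lit 6) (nat_lit 5) (.split (nat_lit 3) (nat_lit 0) (.sup (nat_lit 0x500050002) (nat_lit 0x4000500030001000000000000)) (.non (nat_lit 1) (nat_lit 5) (nat_lit 0x141) (nat_lit 0x10001000000000001))) (.nol (nat_lit 0x3500) (nat_lit 0x1000200010000000000000000)))) (.split (nat_lit 7) (nat_lit 0) (.split (nat_lit 7) (nat_lit 1) (.split (nat_lit 7) (nat_lit 2) (.split (nat_lit 7) (nat_lit 3) (.split (nat_lit 7) (nat_lit 4) (.split (nat_lit 7) (nat_lit 5) (.split (nat_lit 7) (nat_lit 6) (.split (nat_lit 6) (nat_lit 5) (.split (nat_lit 3) (nat_lit 0) (.sup (nat_lit 0x20005000500040001000000000000) (nat_lit 0x700080003)) (.non (nat_lit 1) (nat_lit 5) (nat_lit 0x141) (nat_lit 0x10001000000000001))) (.unj (nat_lit 0x15) (nat_lit 0x200020001) (nat_lit 0x5500) (nat_lit 0x10002000200010000000000000000))) (.non (nat_lit 1) (nat_lit 4) (nat_lit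 0x6400) (nat_lit 0x10001000100000000000000000000))) (.non (nat_lit 1) (nat_lit 4) (nat_lit 0x5400) (nat_lit 0x10001000100000000000000000000))) (.non (nat_lit 1) (nat_lit 5) (nat_lit 0x4141) (nat_lit 0x10000000000020002000000000001))) (.non (nat_lit 1) (nat_lit 5) (nat_lit 0x4141) (nat_lit 0x10000000000020002000000000001))) (.non (nat_lit 0) (nat_lit 4) (nat_lit 0x4014) (nat_lit 0x10000000000000000000200020000))) (.non (nat_lit 2) (nat_lit 5) (nat_lit 0x4145) (nat_lit 0x10000000000030004000000020003))) (.non (nat_lit 1) (nat_lit 5) (nat_lit 0x5141) (nat_lit 0x20001000000030004000000000003))))) (.split (nat_lit 7) (nat_lit 0) (.split (nat_lit 7) (nat_lit 1) (.split (nat_lit 7) (nat_lit 2) (.split (nat_lit 7) (nat_lit 3) (.split (nat_lit 7) (nat_lit 4) (.split (nat_lit 7) (nat_lit 6) (.unj (nat_lit 0x15) (nat_lit 0x200020001) (nat_lit 0x6500) (nat_lit 0x10001000200010000000000000000)) (.non (nat_lit 1) (nat_lit 4) (nat_lit 0x5400) (nat_lit 0x10001000100000000000000000000))) (.non (nat_lit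 1) (nat_lit 5) (nat_lit 0x4141) (nat_lit 0x10000000000020002000000000001))) (.non (nat_lit 1) (nat_lit 5) (nat_lit 0x4141) (nat_lit 0x10000000000020002000000000001))) (.star (nat_lit 7) (nat_lit 2) (nat_lit 5))) (.star (nat_lit 7) (nat_lit 1) (nat_lit 5))) (.non (nat_lit 2) (nat_lit 4) (nat_lit 0x6445) (nat_lit 0x20001000200000001000000010002))))

noncomputable def t174 : Tr := (.split (nat_lit 6) (nat_lit 0) (.split (nat_lit 3) (nat_lit 0) .uj (.st (nat_lit 1) (nat_lit 2) (nat_lit 5) (nat_lit 0x145) (nat_lit 0x30004000000020003) (nat_lit 1) (nat_lit 1) (.st (nat_lit 3) (nat_lit 1) (nat_lit 5) (nat_lit 0x141) (nat_lit 0x20002000000000001) (nat_lit 1) (nat_lit 1) (.st (nat_lit 4) (nat_lit 1) (nat_lit 5) (nat_lit 0x141) (nat_lit 0x20002000000000001) (nat_lit 1) (nat_lit 1) (.st (nat_lit 0) (nat_lit 2) (nat_lit 5) (nat_lit 0x145) (nat_lit 0x20002000000010002) (nat_lit 1) (nat_lit 1) (.ex (nat_lit 2) (.pd (.cons (nat_lit 0) (nat_lit 4) (nat_lit 0x1100110) (nat_lit 0x5603120) (nat_lit 0x10000100000f423f000010000100000)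 (.cons (nat_lit 0) (nat_lit 5) (nat_lit 0x110) (nat_lit 0x6033120) (nat_lit 0xf423f00000f423f54591000010000100000) .nil)) t174_1) (.split (nat_lit 7) (nat_lit 0) (.split (nat_lit 7) (nat_lit 1) (.split (nat_lit 7) (nat_lit 3) (.split (nat_lit 7) (nat_lit 4) (.split (nat_lit 7) (nat_lit 5) (.split (nat_lit 7) (nat_lit 6) (.unj (nat_lit 0x4014) (nat_lit 0x10000000000000000000200020000) (nat_lit 0x1540) (nat_lit 0x1000100010001000000000000)) (.split (nat_lit 7) (nat_lit 2) (.split (nat_lit 7) (nat_lit 6) (.sup (nat_lit 0x40000000000000000000a00090000) (nat_lit 0x30007000a0008000000000000)) (.non (nat_lit 1) (nat_lit 4) (nat_lit 0x6400) (nat_lit 0x10001000100000000000000000000))) (.non (nat_lit 1) (nat_lit 4) (nat_lit 0xa410) (nat_lit 0x10001000100000000000100000000)))) (.star (nat_lit 7) (nat_lit 2) (nat_lit 5))) (.star (nat_lit 7) (nat_lit 2) (nat_lit 4))) (.non (nat_lit 1) (nat_lit 5) (nat_lit 0x4141) (nat_lit 0x10000000000020002000000000001))) (.non (nat_lit 2) (nat_lit 5) (nat_lit 0x4145)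 (nat_lit 0x10000000000030004000000020003))) (.non (nat_lit 1) (nat_lit 5) (nat_lit 0x4151) (nat_lit 0x20000000000030004000100000003))))))))) (.split (nat_lit 3) (nat_lit 0) (.split (nat_lit 6) (nat_lit 0) (.sup (nat_lit 0x9000a0004) (nat_lit 0x30007000a0008000000000000)) (.non (nat_lit 1) (nat_lit 4) (nat_lit 0x2401) (nat_lit 0x1000100000000000000000001))) (.non (nat_lit 2) (nat_lit 4) (nat_lit 0x1845) (nat_lit 0x2000100000001000000010002))))

noncomputable def t178_1 : Tr := (.ex (nat_lit 7) (.split (nat_lit 7) (nat_lit 5) (.split (nat_lit 7) (nat_lit 0) (.pd (.cons (nat_lit 0) (nat_lit 6) (nat_lit 0x110) (nat_lit 0x50433120) (nat_lit 0xf423f00000b71aea2c2804737000010000100000) (.cons (nat_lit 1) (nat_lit 4) (nat_lit 0x1000100) (nat_lit 0x2703600) (nat_lit 0xb71ae00001f423f00000f423f0000100000a2c28) (.cons (nat_lit 2) (nat_lit 4) (nat_lit 0) (nat_lit 0x6703000) (nat_lit 0xb71aef423ff423f00000f423f00000f423f65b97) .nil))) (.leaf (.cons (nat_lit 0x1014) (nat_lit 0x1000000000000000200020000)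 (.cons (nat_lit 0x4541) (nat_lit 0x20000000300040003000000000001) .nil)) (.cons (nat_lit 0x11110011) (nat_lit 0x1100) (nat_lit 4) (nat_lit 0x25340001) .nil))) (.non (nat_lit 2) (nat_lit 3) (nat_lit 0x8a05) (nat_lit 0x30000000200010000000000020004))) (.non (nat_lit 1) (nat_lit 3) (nat_lit 0x6a01) (nat_lit 0x40001000300020000000000000002))) (.split (nat_lit 8) (nat_lit 0) (.split (nat_lit 8) (nat_lit 1) (.split (nat_lit 8) (nat_lit 2) (.split (nat_lit 8) (nat_lit 3) (.split (nat_lit 8) (nat_lit 4) (.split (nat_lit 8) (nat_lit 5) (.split (nat_lit 8) (nat_lit 6) (.st (nat_lit 7) (nat_lit 1) (nat_lit 3) (nat_lit 0x14401) (nat_lit 0x100020000000100000000000000000001) (nat_lit 1) (nat_lit 1) (.st (nat_lit 8) (nat_lit 2) (nat_lit 3) (nat_lit 0x14505) (nat_lit 0x200030000000200010000000000010002) (nat_lit 1) (nat_lit 1) (.split (nat_lit 7) (nat_lit 0) (.split (nat_lit 7) (nat_lit 5) (.split (nat_lit 8) (nat_lit 7) (.pd (.cons (nat_lit 1) (nat_lit 4) (nat_lit 0x1000100) (nat_lit 0x702703600) (nat_lit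 0xf423f7a11d00001f423f00000f423f00001000007a11b) (.cons (nat_lit 2) (nat_lit 4) (nat_lit 0) (nat_lit 0x706703000) (nat_lit 0xf423f7a11df423ff423f00000f423f00000f423f3d08a) .nil)) (.split (nat_lit 6) (nat_lit 2) (.leaf (.cons (nat_lit 0x1014) (nat_lit 0x1000000000000000200020000) (.cons (nat_lit 0x14540) (nat_lit 0x100020000000300040003000000000000) .nil)) (.cons (nat_lit 0x111110101) (nat_lit 0x1010) (nat_lit 0xa) (nat_lit 0x205340601) .nil)) (.non (nat_lit 1) (nat_lit 3) (nat_lit 0x15521) (nat_lit 0x100020002000200020000000100000001)))) (.non (nat_lit 1) (nat_lit 3) (nat_lit 0x24401) (nat_lit 0x100020000000100000000000000000001))) (.non (nat_lit 1) (nat_lit 3) (nat_lit 0x29500) (nat_lit 0x100020001000300020000000000000000))) (.non (nat_lit 1) (nat_lit 3) (nat_lit 0x28801) (nat_lit 0x100020000000100000000000000000002))))) (.non (nat_lit 1) (nat_lit 3) (nat_lit 0x15500) (nat_lit 0x100010001000100010000000000000000))) (.non (nat_lit 1) (nat_lit 3) (nat_lit 0x14400) (nat_lit 0x100010000000100000000000000000000)))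 (.non (nat_lit 1) (nat_lit 3) (nat_lit 0x14500) (nat_lit 0x100010000000100010000000000000000))) (.non (nat_lit 1) (nat_lit 5) (nat_lit 0x11140) (nat_lit 0x100000001000000020002000000000000))) (.non (nat_lit 1) (nat_lit 3) (nat_lit 0x15510) (nat_lit 0x100010001000100010000000100000000))) (.non (nat_lit 2) (nat_lit 3) (nat_lit 0x14005) (nat_lit 0x100010000000000000000000000010001))) (.non (nat_lit 1) (nat_lit 3) (nat_lit 0x14001) (nat_lit 0x100010000000000000000000000000001))))

noncomputable def t178_2 : Tr := (.split (nat_lit 7) (nat_lit 0) (.split (nat_lit 7) (nat_lit 5) (.split (nat_lit 6) (nat_lit 2) (.sup (nat_lit 0x30001000500080006000000000000) (nat_lit 0x700080004)) (.non (nat_lit 1) (nat_lit 5) (nat_lit 0x1150) (nat_lit 0x1000000010001000100000000))) (.unj (nat_lit 0x15) (nat_lit 0x200020001) (nat_lit 0x4540) (nat_lit 0x10000000100010001000000000000))) (.ex (nat_lit 0) (.ex (nat_lit 5) t178_1 (.split (nat_lit 8) (nat_lit 0) (.split (nat_lit 8) (nat_lit 1) (.split (nat_lit 8)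 (nat_lit 2) (.split (nat_lit 8) (nat_lit 3) (.split (nat_lit 8) (nat_lit 4) (.split (nat_lit 8) (nat_lit 6) (.split (nat_lit 8) (nat_lit 7) (.sup (nat_lit 0x9000a0004) (nat_lit 0x3000100000007000a0008000000000000)) (.non (nat_lit 1) (nat_lit 3) (nat_lit 0x14400) (nat_lit 0x100010000000100000000000000000000))) (.non (nat_lit 1) (nat_lit 3) (nat_lit 0x11500) (nat_lit 0x100000001000100010000000000000000))) (.non (nat_lit 1) (nat_lit 3) (nat_lit 0x10500) (nat_lit 0x100000000000100010000000000000000))) (.non (nat_lit 1) (nat_lit 5) (nat_lit 0x11140) (nat_lit 0x100000001000000020002000000000000))) (.star (nat_lit 8) (nat_lit 2) (nat_lit 5))) (.star (nat_lit 8) (nat_lit 1) (nat_lit 5))) (.non (nat_lit 1) (nat_lit 3) (nat_lit 0x14401) (nat_lit 0x100010000000100000000000000000001)))) (.split (nat_lit 8) (nat_lit 1) (.split (nat_lit 8) (nat_lit 2) (.split (nat_lit 8) (nat_lit 3) (.split (nat_lit 8) (nat_lit 4) (.split (nat_lit 8) (nat_lit 5) (.split (nat_lit 8) (nat_lit 6) (.split (nat_lit 8)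 (nat_lit 7) (.split (nat_lit 8) (nat_lit 0) (.split (nat_lit 7) (nat_lit 0) (.split (nat_lit 7) (nat_lit 5) (.split (nat_lit 6) (nat_lit 2) (.sup (nat_lit 0x2000400080006000000000000) (nat_lit 0x200000000000000000000000500060004)) (.non (nat_lit 1) (nat_lit 5) (nat_lit 0x1150) (nat_lit 0x1000000010001000100000000))) (.non (nat_lit 1) (nat_lit 3) (nat_lit 0x14a01) (nat_lit 0x100030000000200010000000000000002))) (.non (nat_lit 1) (nat_lit 3) (nat_lit 0x18a01) (nat_lit 0x200030000000200010000000000000004))) (.non (nat_lit 2) (nat_lit 3) (nat_lit 0x24005) (nat_lit 0x100010000000000000000000000010002))) (.non (nat_lit 1) (nat_lit 3) (nat_lit 0x14001) (nat_lit 0x100010000000000000000000000000001))) (.non (nat_lit 1) (nat_lit 3) (nat_lit 0x15501) (nat_lit 0x100010001000100010000000000000001))) (.non (nat_lit 1) (nat_lit 3) (nat_lit 0x14401) (nat_lit 0x100010000000100000000000000000001))) (.non (nat_lit 1) (nat_lit 3) (nat_lit 0x14501) (nat_lit 0x100010000000100010000000000000001))) (.non (nat_lit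 1) (nat_lit 5) (nat_lit 0x11140) (nat_lit 0x100000001000000020002000000000000))) (.non (nat_lit 1) (nat_lit 3) (nat_lit 0x15511) (nat_lit 0x100010001000100010000000100000001))) (.non (nat_lit 2) (nat_lit 3) (nat_lit 0x10005) (nat_lit 0x100000000000000000000000000010001)))))

noncomputable def t178_3 : Tr := (.st (nat_lit 2) (nat_lit 1) (nat_lit 5) (nat_lit 0x1150) (nat_lit 0x3000000040003000200000000) (nat_lit 1) (nat_lit 1) (.st (nat_lit 6) (nat_lit 1) (nat_lit 5) (nat_lit 0x1150) (nat_lit 0x2000000020002000100000000) (nat_lit 1) (nat_lit 1) (.ex (nat_lit 1) (.ex (nat_lit 5) (.pd (.cons (nat_lit 0) (nat_lit 6) (nat_lit 0x110) (nat_lit 0x433120) (nat_lit 0xf423fb71ae1f156000010000100000) (.cons (nat_lit 1) (nat_lit 4) (nat_lit 0x1000100) (nat_lit 0x2503600) (nat_lit 0x1f423f00000f423f0000100000f423f) (.cons (nat_lit 1) (nat_lit 6) (nat_lit 0) (nat_lit 0x433200) (nat_lit 0xf423fb71ae1f156f423f00000f423f) (.cons (nat_lit 2) (nat_lit 4) (nat_lit 0) (nat_lit 0x6503000) (nat_lit 0xf423ff423f00000f423f00000f423fb71ae)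 (.cons (nat_lit 2) (nat_lit 6) (nat_lit 0) (nat_lit 0x433000) (nat_lit 0xf423fb71ae1f15600000f423fb71ae) .nil))))) (.split (nat_lit 6) (nat_lit 2) (.leaf (.cons (nat_lit 0x1014) (nat_lit 0x1000000000000000200020000) .nil) (.cons (nat_lit 0x1000100) (nat_lit 0x10010) (nat_lit 0) (nat_lit 0x1000000) .nil)) (.non (nat_lit 1) (nat_lit 5) (nat_lit 0x1150) (nat_lit 0x1000000010001000100000000)))) (.split (nat_lit 7) (nat_lit 1) (.split (nat_lit 7) (nat_lit 2) (.split (nat_lit 7) (nat_lit 3) (.split (nat_lit 7) (nat_lit 4) (.split (nat_lit 7) (nat_lit 6) t178_2 (.non (nat_lit 1) (nat_lit 3) (nat_lit 0x5500) (nat_lit 0x10001000100010000000000000000))) (.non (nat_lit 1) (nat_lit 3) (nat_lit 0x4500) (nat_lit 0x10000000100010000000000000000))) (.non (nat_lit 1) (nat_lit 5) (nat_lit 0x5140) (nat_lit 0x10001000000020002000000000000))) (.star (nat_lit 7) (nat_lit 2) (nat_lit 5))) (.star (nat_lit 7) (nat_lit 1) (nat_lit 5)))) (.split (nat_lit 7) (nat_lit 0) (.split (nat_lit 7) (nat_lit 2) (.split (nat_lit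 7) (nat_lit 3) (.split (nat_lit 7) (nat_lit 4) (.split (nat_lit 7) (nat_lit 5) (.split (nat_lit 7) (nat_lit 6) (.split (nat_lit 7) (nat_lit 1) (.split (nat_lit 6) (nat_lit 2) (.sup (nat_lit 0x3000400080006000000000000) (nat_lit 0x20000000000000000000300050002)) (.non (nat_lit 1) (nat_lit 5) (nat_lit 0x1150) (nat_lit 0x1000000010001000100000000))) (.sup (nat_lit 0xe0000000000000000000b00140000) (nat_lit 0x4000a00140010000000000000))) (.non (nat_lit 1) (nat_lit 5) (nat_lit 0x5150) (nat_lit 0x10002000000020002000100000000))) (.star (nat_lit 7) (nat_lit 1) (nat_lit 5))) (.non (nat_lit 1) (nat_lit 5) (nat_lit 0x5140) (nat_lit 0x10001000000020002000000000000))) (.star (nat_lit 7) (nat_lit 1) (nat_lit 3))) (.non (nat_lit 1) (nat_lit 5) (nat_lit 0x5150) (nat_lit 0x10003000000040003000200000000))) (.non (nat_lit 2) (nat_lit 3) (nat_lit 0x4005) (nat_lit 0x10000000000000000000000010001))))))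

noncomputable def t178 : Tr := (.split (nat_lit 6) (nat_lit 0) (.split (nat_lit 6) (nat_lit 1) (.split (nat_lit 6) (nat_lit 2) .uj t178_3) (.non (nat_lit 2) (nat_lit 5) (nat_lit 0x1145) (nat_lit 0x3000000040003000000020001))) (.non (nat_lit 2) (nat_lit 5) (nat_lit 0x1145) (nat_lit 0x3000000040003000000010002)))

noncomputable def t185_1 : Tr := (.split (nat_lit 7) (nat_lit 6) (.pd (.cons (nat_lit 0) (nat_lit 3) (nat_lit 0x110) (nat_lit 0x65440120) (nat_lit 0xf423fb71aea2c289896500000000010000100000) (.cons (nat_lit 0) (nat_lit 4) (nat_lit 0x110) (nat_lit 0x65503120) (nat_lit 0xf423fb71aea2c2800000f423f000010000100000) .nil)) (.ex (nat_lit 3) (.split (nat_lit 5) (nat_lit 0) (.pd (.cons (nat_lit 0) (nat_lit 5) (nat_lit 0x110) (nat_lit 0x66033120) (nat_lit 0xf423fb71ae00000f423f54591000010000100000) (.cons (nat_lit 0) (nat_lit 6) (nat_lit 0x110) (nat_lit 0x70433120) (nat_lit 0xf423f00000f423fb71ae1f156000010000100000) (.cons (nat_lit 0) (nat_lit 7) (nat_lit 0x110) (nat_lit 0x5433120) (nat_lit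 0xf423fb71aea2c2804737000010000100000) (.cons (nat_lit 1) (nat_lit 5) (nat_lit 0) (nat_lit 0x66033200) (nat_lit 0xf423fb71ae00000f423f54591f423f00000f423f) (.cons (nat_lit 1) (nat_lit 6) (nat_lit 0) (nat_lit 0x70054200) (nat_lit 0xf423f00000437a254591f423ff423f00000174ea) (.cons (nat_lit 2) (nat_lit 5) (nat_lit 0) (nat_lit 0x66033000) (nat_lit 0xf423fb71ae00000f423f5459100000f423fb71ae) .nil)))))) (.leaf (.cons (nat_lit 0x1541) (nat_lit 0x1000200020002000000000001) (.cons (nat_lit 0x545) (nat_lit 0x300040003000000010002) .nil)) .nil)) (.non (nat_lit 1) (nat_lit 3) (nat_lit 0x2a01) (nat_lit 0x1000200010000000000000002))) (.split (nat_lit 8) (nat_lit 0) (.split (nat_lit 8) (nat_lit 1) (.split (nat_lit 8) (nat_lit 2) (.split (nat_lit 8) (nat_lit 4) (.split (nat_lit 8) (nat_lit 5) (.split (nat_lit 8) (nat_lit 6) (.split (nat_lit 8) (nat_lit 7) (.split (nat_lit 8) (nat_lit 3) (.split (nat_lit 5) (nat_lit 0) (.sup (nat_lit 0x9000a0004) (nat_lit 0x50000000000020009000a000000000000)) (.non (nat_lit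 1) (nat_lit 3) (nat_lit 0x2a01) (nat_lit 0x1000200010000000000000002))) (.unj (nat_lit 0x15) (nat_lit 0x200020001) (nat_lit 0x10140) (nat_lit 0x100000000000000010001000000000000))) (.unj (nat_lit 0x15) (nat_lit 0x200020001) (nat_lit 0x15140) (nat_lit 0x300020001000000030004000000000000))) (.non (nat_lit 1) (nat_lit 3) (nat_lit 0x15501) (nat_lit 0x100010002000200010000000000000001))) (.non (nat_lit 1) (nat_lit 3) (nat_lit 0x11501) (nat_lit 0x100000001000200010000000000000001))) (.non (nat_lit 2) (nat_lit 3) (nat_lit 0x15505) (nat_lit 0x100010002000300020000000000010002))) (.star (nat_lit 8) (nat_lit 2) (nat_lit 3))) (.star (nat_lit 8) (nat_lit 1) (nat_lit 3))) (.non (nat_lit 2) (nat_lit 3) (nat_lit 0x11505) (nat_lit 0x100000001000200010000000000010002))))) (.non (nat_lit 1) (nat_lit 3) (nat_lit 0x9501) (nat_lit 0x10002000200010000000000000001)))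

noncomputable def t185_2 : Tr := (.st (nat_lit 0) (nat_lit 2) (nat_lit 3) (nat_lit 0x1505) (nat_lit 0x1000200010000000000010002) (nat_lit 1) (nat_lit 1) (.st (nat_lit 4) (nat_lit 2) (nat_lit 3) (nat_lit 0x5505) (nat_lit 0x10002000300020000000000010002) (nat_lit 1) (nat_lit 1) (.st (nat_lit 5) (nat_lit 1) (nat_lit 3) (nat_lit 0x1501) (nat_lit 0x1000200010000000000000001) (nat_lit 1) (nat_lit 1) (.st (nat_lit 6) (nat_lit 1) (nat_lit 3) (nat_lit 0x5501) (nat_lit 0x10002000200010000000000000001) (nat_lit 1) (nat_lit 1) (.ex (nat_lit 1) (.ex (nat_lit 2) t185_1 (.split (nat_lit 8) (nat_lit 0) (.split (nat_lit 8) (nat_lit 3) (.split (nat_lit 8) (nat_lit 4) (.split (nat_lit 8) (nat_lit 5) (.split (nat_lit 8) (nat_lit 6) (.split (nat_lit 8) (nat_lit 1) (.split (nat_lit 8) (nat_lit 7) (.unj (nat_lit 0x10014) (nat_lit 0x100000000000000000000000200020000) (nat_lit 0x5540) (nat_lit 0x10002000300040003000000000000)) (.sup (nat_lit 0x500000000000000000000000a00080000) (nat_lit 0x30007000a0008000000000001)))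 (.split (nat_lit 8) (nat_lit 7) (.unj (nat_lit 0x10014) (nat_lit 0x100000000000000000000000100010000) (nat_lit 0x5540) (nat_lit 0x10002000300040003000000000000)) (.non (nat_lit 2) (nat_lit 3) (nat_lit 0x15405) (nat_lit 0x100010001000100000000000000010001)))) (.non (nat_lit 1) (nat_lit 3) (nat_lit 0x15501) (nat_lit 0x100010002000200010000000000000001))) (.non (nat_lit 1) (nat_lit 3) (nat_lit 0x11501) (nat_lit 0x100000001000200010000000000000001))) (.star (nat_lit 8) (nat_lit 2) (nat_lit 4))) (.star (nat_lit 8) (nat_lit 2) (nat_lit 3))) (.non (nat_lit 2) (nat_lit 3) (nat_lit 0x11505) (nat_lit 0x100000001000200010000000000010002)))) (.split (nat_lit 8) (nat_lit 0) (.split (nat_lit 8) (nat_lit 3) (.split (nat_lit 8) (nat_lit 4) (.split (nat_lit 8) (nat_lit 5) (.split (nat_lit 8) (nat_lit 6) (.split (nat_lit 8) (nat_lit 7) (.split (nat_lit 8) (nat_lit 2) (.unj (nat_lit 0x10014) (nat_lit 0x100000000000000000000000200020000) (nat_lit 0x5540) (nat_lit 0x10002000300040003000000000000)) (.unj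 (nat_lit 0x10014) (nat_lit 0x100000000000000000000000100010000) (nat_lit 0x5540) (nat_lit 0x10002000300040003000000000000))) (.non (nat_lit 2) (nat_lit 3) (nat_lit 0x15405) (nat_lit 0x100010001000100000000000000010001))) (.non (nat_lit 1) (nat_lit 3) (nat_lit 0x15501) (nat_lit 0x100010002000200010000000000000001))) (.non (nat_lit 1) (nat_lit 3) (nat_lit 0x11501) (nat_lit 0x100000001000200010000000000000001))) (.star (nat_lit 8) (nat_lit 1) (nat_lit 4))) (.star (nat_lit 8) (nat_lit 1) (nat_lit 3))) (.non (nat_lit 2) (nat_lit 3) (nat_lit 0x10005) (nat_lit 0x100000000000000000000000000010001))))))))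

noncomputable def t185_3 : Tr := (.st (nat_lit 8) (nat_lit 1) (nat_lit 3) (nat_lit 0x55410) (nat_lit 0x1000200020002000100000000000100000000) (nat_lit 1) (nat_lit 1) (.split (nat_lit 9) (nat_lit 8) (.ex (nat_lit 9) (.leaf (.cons (nat_lit 0x1014) (nat_lit 0x1000000000000000200020000) (.cons (nat_lit 0x1550) (nat_lit 0x2000300040003000100000000) .nil)) (.cons (nat_lit 0x1111110100) (nat_lit 0x1010) (nat_lit 0xd) (nat_lit 0x6540230100) (.cons (nat_lit 0x1111100100) (nat_lit 0x10010) (nat_lit 9) (nat_lit 0x5430200100) .nil))) (.split (nat_lit 0xa) (nat_lit 0) (.split (nat_lit 0xa) (nat_lit 1) (.split (nat_lit 0xa) (nat_lit 2) (.split (nat_lit 0xa) (nat_lit 3) (.split (nat_lit 0xa) (nat_lit 4) (.split (nat_lit 0xa) (nat_lit 5) (.split (nat_lit 0xa) (nat_lit 6) (.split (nat_lit 0xa) (nat_lit 7) (.split (nat_lit 0xa) (nat_lit 8) (.st (nat_lit 9) (nat_lit 1) (nat_lit 3) (nat_lit 0x155410) (nat_lit 0x10002000200020002000100000000000100000000) (nat_lit 1) (nat_lit 1) (.st (nat_lit 0xa) (nat_lit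 1) (nat_lit 3) (nat_lit 0x155510) (nat_lit 0x20003000400050006000400020000000300000000) (nat_lit 1) (nat_lit 1) (.split (nat_lit 0xa) (nat_lit 9) (.leaf (.cons (nat_lit 0x1014) (nat_lit 0x1000000000000000200020000) (.cons (nat_lit 0x1550) (nat_lit 0x2000300040003000100000000) .nil)) (.cons (nat_lit 0x11111110100) (nat_lit 0x1010) (nat_lit 0xe) (nat_lit 0x76540230100) (.cons (nat_lit 0x11111000100) (nat_lit 0x100010) (nat_lit 4) (nat_lit 0x54321000000) .nil))) (.non (nat_lit 1) (nat_lit 3) (nat_lit 0x255410) (nat_lit 0x10002000200020002000100000000000100000000))))) (.non (nat_lit 1) (nat_lit 3) (nat_lit 0x150000) (nat_lit 0x10001000100000000000000000000000000000000))) (.non (nat_lit 1) (nat_lit 3) (nat_lit 0x154000) (nat_lit 0x10001000100010000000000000000000000000000))) (.non (nat_lit 1) (nat_lit 3) (nat_lit 0x155000) (nat_lit 0x10001000100010001000000000000000000000000))) (.non (nat_lit 1) (nat_lit 3) (nat_lit 0x155400) (nat_lit 0x10001000100010001000100000000000000000000))) (.non (nat_lit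 1) (nat_lit 3) (nat_lit 0x155500) (nat_lit 0x10001000100010001000100010000000000000000))) (.non (nat_lit 0) (nat_lit 6) (nat_lit 0x150140) (nat_lit 0x30002000100000000000000030004000000000000))) (.non (nat_lit 1) (nat_lit 3) (nat_lit 0x155010) (nat_lit 0x10001000100010001000000000000000100000000))) (.non (nat_lit 0) (nat_lit 6) (nat_lit 0x100014) (nat_lit 0x10000000000000000000000000000000200020000))) (.non (nat_lit 1) (nat_lit 3) (nat_lit 0x155511) (nat_lit 0x20003000400050006000400020000000300000001)))) (.non (nat_lit 1) (nat_lit 3) (nat_lit 0x95410) (nat_lit 0x1000200020002000100000000000100000000))))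

noncomputable def t185_4 : Tr := (.split (nat_lit 8) (nat_lit 0) (.st (nat_lit 7) (nat_lit 1) (nat_lit 3) (nat_lit 0x15410) (nat_lit 0x100020002000100000000000100000000) (nat_lit 1) (nat_lit 1) (.split (nat_lit 8) (nat_lit 7) (.ex (nat_lit 8) (.leaf (.cons (nat_lit 0x1014) (nat_lit 0x1000000000000000200020000) (.cons (nat_lit 0x1550) (nat_lit 0x2000300040003000100000000) .nil)) (.cons (nat_lit 0x111110100) (nat_lit 0x1010) (nat_lit 0xc) (nat_lit 0x540230100) .nil)) (.split (nat_lit 9) (nat_lit 1) (.split (nat_lit 9) (nat_lit 2) (.split (nat_lit 9) (nat_lit 3) (.split (nat_lit 9) (nat_lit 4) (.split (nat_lit 9) (nat_lit 5) (.split (nat_lit 9) (nat_lit 6) (.split (nat_lit 9) (nat_lit 7) (.split (nat_lit 9) (nat_lit 0) t185_3 (.st (nat_lit 8) (nat_lit 1) (nat_lit 3) (nat_lit 0x55410) (nat_lit 0x1000200020002000100000000000100000000) (nat_lit 1) (nat_lit 1) (.st (nat_lit 9) (nat_lit 1) (nat_lit 3) (nat_lit 0x55411) (nat_lit 0x2000200020002000100000000000100000001) (nat_lit 1) (nat_lit 1)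 (.split (nat_lit 9) (nat_lit 8) (.split (nat_lit 9) (nat_lit 0) (.leaf (.cons (nat_lit 0x1014) (nat_lit 0x1000000000000000200020000) (.cons (nat_lit 0x1550) (nat_lit 0x2000300040003000100000000) .nil)) (.cons (nat_lit 0x1111110101) (nat_lit 0x1010) (nat_lit 0xe) (nat_lit 0x6540230107) (.cons (nat_lit 0x1111000101) (nat_lit 0x100010) (nat_lit 4) (nat_lit 0x1234000500) .nil))) (.non (nat_lit 1) (nat_lit 3) (nat_lit 0xaa821) (nat_lit 0x2000200020002000100000000000100000002))) (.non (nat_lit 1) (nat_lit 3) (nat_lit 0x95410) (nat_lit 0x1000200020002000100000000000100000000)))))) (.non (nat_lit 1) (nat_lit 3) (nat_lit 0x54000) (nat_lit 0x1000100010000000000000000000000000000))) (.non (nat_lit 1) (nat_lit 3) (nat_lit 0x55000) (nat_lit 0x1000100010001000000000000000000000000))) (.non (nat_lit 1) (nat_lit 3) (nat_lit 0x55400) (nat_lit 0x1000100010001000100000000000000000000))) (.non (nat_lit 1) (nat_lit 3) (nat_lit 0x55500) (nat_lit 0x1000100010001000100010000000000000000))) (.non (nat_lit 0)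 (nat_lit 6) (nat_lit 0x54140) (nat_lit 0x3000200010000000000030004000000000000))) (.non (nat_lit 1) (nat_lit 3) (nat_lit 0x55010) (nat_lit 0x1000100010001000000000000000100000000))) (.non (nat_lit 0) (nat_lit 6) (nat_lit 0x40014) (nat_lit 0x1000000000000000000000000000200020000)))) (.non (nat_lit 1) (nat_lit 3) (nat_lit 0x25410) (nat_lit 0x100020002000100000000000100000000)))) (.st (nat_lit 7) (nat_lit 1) (nat_lit 3) (nat_lit 0x15410) (nat_lit 0x100020002000100000000000100000000) (nat_lit 1) (nat_lit 1) (.st (nat_lit 8) (nat_lit 1) (nat_lit 3) (nat_lit 0x15411) (nat_lit 0x200020002000100000000000100000001) (nat_lit 1) (nat_lit 1) (.split (nat_lit 8) (nat_lit 7) (.split (nat_lit 8) (nat_lit 0) (.leaf (.cons (nat_lit 0x1014) (nat_lit 0x1000000000000000200020000) (.cons (nat_lit 0x1550) (nat_lit 0x2000300040003000100000000) .nil)) (.cons (nat_lit 0x111110101) (nat_lit 0x1010) (nat_lit 0xd) (nat_lit 0x540230106) (.cons (nat_lit 0x111100101) (nat_lit 0x10010) (nat_lit 9) (nat_lit 0x430200105)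 .nil))) (.non (nat_lit 1) (nat_lit 3) (nat_lit 0x2a821) (nat_lit 0x200020002000100000000000100000002))) (.non (nat_lit 1) (nat_lit 3) (nat_lit 0x25410) (nat_lit 0x100020002000100000000000100000000))))))

noncomputable def t185_5 : Tr := (.ex (nat_lit 0xa) (.leaf (.cons (nat_lit 0x1014) (nat_lit 0x1000000000000000200020000) (.cons (nat_lit 0x1550) (nat_lit 0x2000300040003000100000000) .nil)) (.cons (nat_lit 0x11011110100) (nat_lit 0x1010) (nat_lit 0xd) (nat_lit 0x65040230100) (.cons (nat_lit 0x11011100100) (nat_lit 0x10010) (nat_lit 9) (nat_lit 0x54030200100) .nil))) (.split (nat_lit 0xb) (nat_lit 0) (.split (nat_lit 0xb) (nat_lit 1) (.split (nat_lit 0xb) (nat_lit 2) (.split (nat_lit 0xb) (nat_lit 3) (.split (nat_lit 0xb) (nat_lit 4) (.split (nat_lit 0xb) (nat_lit 5) (.split (nat_lit 0xb) (nat_lit 6) (.split (nat_lit 0xb) (nat_lit 7) (.split (nat_lit 0xb) (nat_lit 8) (.split (nat_lit 0xb) (nat_lit 9) (.st (nat_lit 0xa) (nat_lit 1) (nat_lit 3) (nat_lit 0x545410) (nat_lit 0x100020002000000020002000100000000000100000000)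 (nat_lit 1) (nat_lit 1) (.st (nat_lit 0xb) (nat_lit 1) (nat_lit 3) (nat_lit 0x545510) (nat_lit 0x200030004000000050006000400020000000300000000) (nat_lit 1) (nat_lit 1) (.split (nat_lit 0xb) (nat_lit 0xa) (.leaf (.cons (nat_lit 0x1014) (nat_lit 0x1000000000000000200020000) (.cons (nat_lit 0x1550) (nat_lit 0x2000300040003000100000000) .nil)) (.cons (nat_lit 0x111011110100) (nat_lit 0x1010) (nat_lit 0xe) (nat_lit 0x765040230100) (.cons (nat_lit 0x111011000100) (nat_lit 0x100010) (nat_lit 4) (nat_lit 0x543021000000) .nil))) (.non (nat_lit 1) (nat_lit 3) (nat_lit 0x945410) (nat_lit 0x100020002000000020002000100000000000100000000))))) (.non (nat_lit 1) (nat_lit 3) (nat_lit 0x540000) (nat_lit 0x100010001000000000000000000000000000000000000))) (.non (nat_lit 1) (nat_lit 3) (nat_lit 0x555510) (nat_lit 0x200030004000100050006000400020000000300000000))) (.non (nat_lit 1) (nat_lit 3) (nat_lit 0x544000) (nat_lit 0x100010001000000010000000000000000000000000000))) (.non (nat_lit 1) (nat_lit 3) (nat_lit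 0x545000) (nat_lit 0x100010001000000010001000000000000000000000000))) (.non (nat_lit 1) (nat_lit 3) (nat_lit 0x545400) (nat_lit 0x100010001000000010001000100000000000000000000))) (.non (nat_lit 1) (nat_lit 3) (nat_lit 0x545500) (nat_lit 0x100010001000000010001000100010000000000000000))) (.non (nat_lit 0) (nat_lit 6) (nat_lit 0x540140) (nat_lit 0x300020001000000000000000000030004000000000000))) (.non (nat_lit 1) (nat_lit 3) (nat_lit 0x545010) (nat_lit 0x100010001000000010001000000000000000100000000))) (.non (nat_lit 0) (nat_lit 6) (nat_lit 0x400014) (nat_lit 0x100000000000000000000000000000000000200020000))) (.non (nat_lit 1) (nat_lit 3) (nat_lit 0x545511) (nat_lit 0x200030004000000050006000400020000000300000001))))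

noncomputable def t185_6 : Tr := (.split (nat_lit 9) (nat_lit 8) (.st (nat_lit 7) (nat_lit 1) (nat_lit 3) (nat_lit 0x45410) (nat_lit 0x1000000020002000100000000000100000000) (nat_lit 1) (nat_lit 1) (.split (nat_lit 9) (nat_lit 7) (.ex (nat_lit 9) (.leaf (.cons (nat_lit 0x1014) (nat_lit 0x1000000000000000200020000) (.cons (nat_lit 0x1550) (nat_lit 0x2000300040003000100000000) .nil)) (.cons (nat_lit 0x1011110100) (nat_lit 0x1010) (nat_lit 0xc) (nat_lit 0x5040230100) .nil)) (.split (nat_lit 0xa) (nat_lit 0) (.split (nat_lit 0xa) (nat_lit 1) (.split (nat_lit 0xa) (nat_lit 2) (.split (nat_lit 0xa) (nat_lit 3) (.split (nat_lit 0xa) (nat_lit 4) (.split (nat_lit 0xa) (nat_lit 5) (.split (nat_lit 0xa) (nat_lit 6) (.split (nat_lit 0xa) (nat_lit 7) (.split (nat_lit 0xa) (nat_lit 8) (.st (nat_lit 9) (nat_lit 1) (nat_lit 3) (nat_lit 0x145410) (nat_lit 0x10002000000020002000100000000000100000000) (nat_lit 1) (nat_lit 1) (.split (nat_lit 0xa) (nat_lit 9) t185_5 (.non (nat_lit 1) (nat_lit 3) (nat_lit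 0x245410) (nat_lit 0x10002000000020002000100000000000100000000)))) (.non (nat_lit 1) (nat_lit 3) (nat_lit 0x155511) (nat_lit 0x30004000200050006000400020000000300000001))) (.non (nat_lit 1) (nat_lit 3) (nat_lit 0x144000) (nat_lit 0x10001000000010000000000000000000000000000))) (.non (nat_lit 1) (nat_lit 3) (nat_lit 0x145000) (nat_lit 0x10001000000010001000000000000000000000000))) (.non (nat_lit 1) (nat_lit 3) (nat_lit 0x145400) (nat_lit 0x10001000000010001000100000000000000000000))) (.non (nat_lit 1) (nat_lit 3) (nat_lit 0x145500) (nat_lit 0x10001000000010001000100010000000000000000))) (.non (nat_lit 0) (nat_lit 6) (nat_lit 0x144140) (nat_lit 0x30002000000010000000000030004000000000000))) (.non (nat_lit 1) (nat_lit 3) (nat_lit 0x145010) (nat_lit 0x10001000000010001000000000000000100000000))) (.non (nat_lit 0) (nat_lit 6) (nat_lit 0x100014) (nat_lit 0x10000000000000000000000000000000200020000))) (.non (nat_lit 1) (nat_lit 3) (nat_lit 0x155511) (nat_lit 0x30004000100050006000400020000000300000002))))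 (.non (nat_lit 1) (nat_lit 3) (nat_lit 0x85410) (nat_lit 0x1000000020002000100000000000100000000)))) (.st (nat_lit 0) (nat_lit 1) (nat_lit 3) (nat_lit 0x55511) (nat_lit 0x4000300050006000400020000000300000002) (nat_lit 1) (nat_lit 1) (.st (nat_lit 7) (nat_lit 1) (nat_lit 3) (nat_lit 0x45410) (nat_lit 0x1000000020002000100000000000100000000) (nat_lit 1) (nat_lit 1) (.st (nat_lit 8) (nat_lit 1) (nat_lit 3) (nat_lit 0x55411) (nat_lit 0x2000200020002000100000000000100000001) (nat_lit 1) (nat_lit 1) (.st (nat_lit 9) (nat_lit 1) (nat_lit 3) (nat_lit 0x55410) (nat_lit 0x2000100020002000100000000000100000000) (nat_lit 1) (nat_lit 1) (.split (nat_lit 9) (nat_lit 7) (.split (nat_lit 9) (nat_lit 8) (.leaf (.cons (nat_lit 0x1014) (nat_lit 0x1000000000000000200020000) (.cons (nat_lit 0x1550) (nat_lit 0x2000300040003000100000000) .nil)) (.cons (nat_lit 0x1111110101) (nat_lit 0x1010) (nat_lit 0xe) (nat_lit 0x5640230107) (.cons (nat_lit 0x1111000101) (nat_lit 0x100010) (nat_lit 4) (nat_lit 0x2134000500)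 .nil))) (.non (nat_lit 1) (nat_lit 3) (nat_lit 0x65410) (nat_lit 0x2000100020002000100000000000100000000))) (.non (nat_lit 1) (nat_lit 3) (nat_lit 0xa5400) (nat_lit 0x2000100030002000100000000000000000000))))))))

noncomputable def t185_7 : Tr := (.ex (nat_lit 0xa) (.leaf (.cons (nat_lit 0x1014) (nat_lit 0x1000000000000000200020000) (.cons (nat_lit 0x1550) (nat_lit 0x2000300040003000100000000) .nil)) (.cons (nat_lit 0x11011110100) (nat_lit 0x1010) (nat_lit 0xd) (nat_lit 0x65040230100) (.cons (nat_lit 0x11011100100) (nat_lit 0x10010) (nat_lit 9) (nat_lit 0x54030200100) .nil))) (.split (nat_lit 0xb) (nat_lit 0) (.split (nat_lit 0xb) (nat_lit 1) (.split (nat_lit 0xb) (nat_lit 2) (.split (nat_lit 0xb) (nat_lit 3) (.split (nat_lit 0xb) (nat_lit 4) (.split (nat_lit 0xb) (nat_lit 5) (.split (nat_lit 0xb) (nat_lit 6) (.split (nat_lit 0xb) (nat_lit 7) (.split (nat_lit 0xb) (nat_lit 8) (.split (nat_lit 0xb) (nat_lit 9) (.st (nat_lit 0xa) (nat_lit 1) (nat_lit 3) (nat_lit 0x545410) (nat_lit 0x100020002000000020002000100000000000100000000)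 (nat_lit 1) (nat_lit 1) (.st (nat_lit 0xb) (nat_lit 1) (nat_lit 3) (nat_lit 0x545510) (nat_lit 0x200030004000000050006000400020000000300000000) (nat_lit 1) (nat_lit 1) (.split (nat_lit 0xb) (nat_lit 0xa) (.leaf (.cons (nat_lit 0x1014) (nat_lit 0x1000000000000000200020000) (.cons (nat_lit 0x1550) (nat_lit 0x2000300040003000100000000) .nil)) (.cons (nat_lit 0x111011110100) (nat_lit 0x1010) (nat_lit 0xe) (nat_lit 0x765040230100) (.cons (nat_lit 0x111011000100) (nat_lit 0x100010) (nat_lit 4) (nat_lit 0x543021000000) .nil))) (.non (nat_lit 1) (nat_lit 3) (nat_lit 0x945410) (nat_lit 0x100020002000000020002000100000000000100000000))))) (.non (nat_lit 1) (nat_lit 3) (nat_lit 0x540000) (nat_lit 0x100010001000000000000000000000000000000000000))) (.non (nat_lit 1) (nat_lit 3) (nat_lit 0x555510) (nat_lit 0x200030004000100050006000400020000000300000000))) (.non (nat_lit 1) (nat_lit 3) (nat_lit 0x544000) (nat_lit 0x100010001000000010000000000000000000000000000))) (.non (nat_lit 1) (nat_lit 3) (nat_lit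 0x545000) (nat_lit 0x100010001000000010001000000000000000000000000))) (.non (nat_lit 1) (nat_lit 3) (nat_lit 0x545400) (nat_lit 0x100010001000000010001000100000000000000000000))) (.non (nat_lit 1) (nat_lit 3) (nat_lit 0x545500) (nat_lit 0x100010001000000010001000100010000000000000000))) (.non (nat_lit 0) (nat_lit 6) (nat_lit 0x540140) (nat_lit 0x300020001000000000000000000030004000000000000))) (.non (nat_lit 1) (nat_lit 3) (nat_lit 0x545010) (nat_lit 0x100010001000000010001000000000000000100000000))) (.non (nat_lit 0) (nat_lit 6) (nat_lit 0x400014) (nat_lit 0x100000000000000000000000000000000000200020000))) (.non (nat_lit 1) (nat_lit 3) (nat_lit 0x565411) (nat_lit 0x200020002000100020002000100000000000100000002))))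

noncomputable def t185_8 : Tr := (.split (nat_lit 9) (nat_lit 4) (.split (nat_lit 9) (nat_lit 5) (.split (nat_lit 9) (nat_lit 6) (.split (nat_lit 9) (nat_lit 8) (.st (nat_lit 7) (nat_lit 1) (nat_lit 3) (nat_lit 0x45410) (nat_lit 0x1000000020002000100000000000100000000) (nat_lit 1) (nat_lit 1) (.split (nat_lit 9) (nat_lit 7) (.ex (nat_lit 9) (.leaf (.cons (nat_lit 0x1014) (nat_lit 0x1000000000000000200020000) (.cons (nat_lit 0x1550) (nat_lit 0x2000300040003000100000000) .nil)) (.cons (nat_lit 0x1011110100) (nat_lit 0x1010) (nat_lit 0xc) (nat_lit 0x5040230100) .nil)) (.split (nat_lit 0xa) (nat_lit 0) (.split (nat_lit 0xa) (nat_lit 1) (.split (nat_lit 0xa) (nat_lit 2) (.split (nat_lit 0xa) (nat_lit 3) (.split (nat_lit 0xa) (nat_lit 4) (.split (nat_lit 0xa) (nat_lit 5) (.split (nat_lit 0xa) (nat_lit 6) (.split (nat_lit 0xa) (nat_lit 7) (.split (nat_lit 0xa) (nat_lit 8) (.st (nat_lit 9) (nat_lit 1) (nat_lit 3) (nat_lit 0x145410) (nat_lit 0x10002000000020002000100000000000100000000) (nat_lit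 1) (nat_lit 1) (.split (nat_lit 0xa) (nat_lit 9) t185_7 (.non (nat_lit 1) (nat_lit 3) (nat_lit 0x245410) (nat_lit 0x10002000000020002000100000000000100000000)))) (.non (nat_lit 1) (nat_lit 3) (nat_lit 0x2aa821) (nat_lit 0x20002000200020002000100000000000100000002))) (.non (nat_lit 1) (nat_lit 3) (nat_lit 0x144000) (nat_lit 0x10001000000010000000000000000000000000000))) (.non (nat_lit 1) (nat_lit 3) (nat_lit 0x145000) (nat_lit 0x10001000000010001000000000000000000000000))) (.non (nat_lit 1) (nat_lit 3) (nat_lit 0x145400) (nat_lit 0x10001000000010001000100000000000000000000))) (.non (nat_lit 1) (nat_lit 3) (nat_lit 0x145500) (nat_lit 0x10001000000010001000100010000000000000000))) (.non (nat_lit 0) (nat_lit 6) (nat_lit 0x144140) (nat_lit 0x30002000000010000000000030004000000000000))) (.non (nat_lit 1) (nat_lit 3) (nat_lit 0x145010) (nat_lit 0x10001000000010001000000000000000100000000))) (.non (nat_lit 0) (nat_lit 6) (nat_lit 0x100014) (nat_lit 0x10000000000000000000000000000000200020000)))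 (.non (nat_lit 1) (nat_lit 3) (nat_lit 0x165411) (nat_lit 0x20002000100020002000100000000000100000002)))) (.non (nat_lit 1) (nat_lit 3) (nat_lit 0x85410) (nat_lit 0x1000000020002000100000000000100000000)))) (.non (nat_lit 1) (nat_lit 3) (nat_lit 0xaa821) (nat_lit 0x2000200020002000100000000000100000002))) (.non (nat_lit 1) (nat_lit 3) (nat_lit 0x45000) (nat_lit 0x1000000010001000000000000000000000000))) (.non (nat_lit 1) (nat_lit 3) (nat_lit 0x45400) (nat_lit 0x1000000010001000100000000000000000000))) (.non (nat_lit 1) (nat_lit 3) (nat_lit 0x45500) (nat_lit 0x1000000010001000100010000000000000000)))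

noncomputable def t185_9 : Tr := (.split (nat_lit 8) (nat_lit 0) (.ex (nat_lit 7) (.leaf (.cons (nat_lit 0x1014) (nat_lit 0x1000000000000000200020000) (.cons (nat_lit 0x1550) (nat_lit 0x2000300040003000100000000) .nil)) (.cons (nat_lit 0x11110100) (nat_lit 0x1010) (nat_lit 8) (nat_lit 0x20340100) (.cons (nat_lit 0x11100100) (nat_lit 0x10010) (nat_lit 7) (nat_lit 0x30200100) .nil))) (.split (nat_lit 9) (nat_lit 1) (.split (nat_lit 9) (nat_lit 2) (.split (nat_lit 9) (nat_lit 3) (.split (nat_lit 9) (nat_lit 4) (.split (nat_lit 9) (nat_lit 5) (.split (nat_lit 9) (nat_lit 6) (.split (nat_lit 9) (nat_lit 0) t185_6 (.split (nat_lit 9) (nat_lit 8) (.st (nat_lit 0) (nat_lit 1) (nat_lit 3) (nat_lit 0x55411) (nat_lit 0x2000100020002000100000000000100000002) (nat_lit 1) (nat_lit 1) (.st (nat_lit 7) (nat_lit 1) (nat_lit 3) (nat_lit 0x45410) (nat_lit 0x1000000020002000100000000000100000000) (nat_lit 1) (nat_lit 1) (.st (nat_lit 8) (nat_lit 1) (nat_lit 3) (nat_lit 0x55511) (nat_lit 0x4000200050006000400020000000300000003)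 (nat_lit 1) (nat_lit 1) (.st (nat_lit 9) (nat_lit 1) (nat_lit 3) (nat_lit 0x45411) (nat_lit 0x2000000020002000100000000000100000001) (nat_lit 1) (nat_lit 1) (.split (nat_lit 9) (nat_lit 7) (.split (nat_lit 9) (nat_lit 0) (.leaf (.cons (nat_lit 0x1014) (nat_lit 0x1000000000000000200020000) (.cons (nat_lit 0x1550) (nat_lit 0x2000300040003000100000000) .nil)) (.cons (nat_lit 0x1111110101) (nat_lit 0x1010) (nat_lit 0xe) (nat_lit 0x5740230106) (.cons (nat_lit 0x1111000101) (nat_lit 0x100010) (nat_lit 4) (nat_lit 0x3521000004) .nil))) (.non (nat_lit 1) (nat_lit 3) (nat_lit 0x9a001) (nat_lit 0x3000200020001000000000000000000000004))) (.non (nat_lit 1) (nat_lit 3) (nat_lit 0x85410) (nat_lit 0x1000000020002000100000000000100000000))))))) (.non (nat_lit 1) (nat_lit 3) (nat_lit 0x50001) (nat_lit 0x1000100000000000000000000000000000001)))) (.non (nat_lit 1) (nat_lit 3) (nat_lit 0x45000) (nat_lit 0x1000000010001000000000000000000000000))) (.non (nat_lit 1) (nat_lit 3) (nat_lit 0x45400) (nat_lit 0x1000000010001000100000000000000000000)))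 (.non (nat_lit 1) (nat_lit 3) (nat_lit 0x45500) (nat_lit 0x1000000010001000100010000000000000000))) (.non (nat_lit 0) (nat_lit 6) (nat_lit 0x40540) (nat_lit 0x1000000000000000100020002000000000000))) (.non (nat_lit 1) (nat_lit 3) (nat_lit 0x45010) (nat_lit 0x1000000010001000000000000000100000000))) (.non (nat_lit 0) (nat_lit 6) (nat_lit 0x40014) (nat_lit 0x1000000000000000000000000000200020000)))) (.st (nat_lit 0) (nat_lit 2) (nat_lit 3) (nat_lit 0x20005) (nat_lit 0x100000000000000000000000000010002) (nat_lit 1) (nat_lit 1) (.split (nat_lit 8) (nat_lit 0) (.ex (nat_lit 8) (.ex (nat_lit 7) (.leaf (.cons (nat_lit 0x1014) (nat_lit 0x1000000000000000200020000) (.cons (nat_lit 0x1550) (nat_lit 0x2000300040003000100000000) .nil)) (.cons (nat_lit 0x11110100) (nat_lit 0x1010) (nat_lit 8) (nat_lit 0x20340100) (.cons (nat_lit 0x11100100) (nat_lit 0x10010) (nat_lit 7) (nat_lit 0x30200100) .nil))) (.split (nat_lit 9) (nat_lit 0) (.split (nat_lit 9) (nat_lit 1) (.split (nat_lit 9) (nat_lit 2) (.split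 (nat_lit 9) (nat_lit 3) t185_8 (.non (nat_lit 0) (nat_lit 6) (nat_lit 0x40540) (nat_lit 0x1000000000000000100020002000000000000))) (.non (nat_lit 1) (nat_lit 3) (nat_lit 0x45010) (nat_lit 0x1000000010001000000000000000100000000))) (.non (nat_lit 0) (nat_lit 6) (nat_lit 0x40014) (nat_lit 0x1000000000000000000000000000200020000))) (.non (nat_lit 1) (nat_lit 3) (nat_lit 0x65411) (nat_lit 0x2000100020002000100000000000100000002)))) (.split (nat_lit 9) (nat_lit 0) (.split (nat_lit 9) (nat_lit 1) (.split (nat_lit 9) (nat_lit 2) (.split (nat_lit 9) (nat_lit 3) (.split (nat_lit 9) (nat_lit 4) (.split (nat_lit 9) (nat_lit 5) (.split (nat_lit 9) (nat_lit 6) (.split (nat_lit 9) (nat_lit 7) (.sup (nat_lit 0x30006000b0010000d000000000000) (nat_lit 0x4000700000000000000000000000200050008)) (.non (nat_lit 1) (nat_lit 3) (nat_lit 0xaa821) (nat_lit 0x2000200020002000100000000000100000002))) (.non (nat_lit 1) (nat_lit 3) (nat_lit 0x45410) (nat_lit 0x1000000010002000100000000000100000000))) (.non (nat_lit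 1) (nat_lit 3) (nat_lit 0x45510) (nat_lit 0x1000000010002000200010000000100000000))) (.non (nat_lit 1) (nat_lit 3) (nat_lit 0xaaa21) (nat_lit 0x2000200010002000200020000000100000002))) (.non (nat_lit 2) (nat_lit 4) (nat_lit 0xa0085) (nat_lit 0x2000300000000000000000001000000020004))) (.non (nat_lit 1) (nat_lit 3) (nat_lit 0xaa821) (nat_lit 0x2000200010002000100000000000200000002))) (.non (nat_lit 2) (nat_lit 3) (nat_lit 0x50005) (nat_lit 0x1000100000000000000000000000000010001))) (.non (nat_lit 1) (nat_lit 3) (nat_lit 0x50001) (nat_lit 0x1000100000000000000000000000000000001)))) (.sup (nat_lit 0x30006000b0010000d000000000000) (nat_lit 0x600000000000000000000000200050008)))))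

noncomputable def t185_10 : Tr := (.st (nat_lit 7) (nat_lit 1) (nat_lit 3) (nat_lit 0x15410) (nat_lit 0x100020002000100000000000100000000) (nat_lit 1) (nat_lit 1) (.st (nat_lit 8) (nat_lit 1) (nat_lit 3) (nat_lit 0x15411) (nat_lit 0x200020002000100000000000100000001) (nat_lit 1) (nat_lit 1) (.split (nat_lit 8) (nat_lit 7) (.split (nat_lit 8) (nat_lit 0) (.ex (nat_lit 0) (.leaf (.cons (nat_lit 0x1014) (nat_lit 0x1000000000000000200020000) (.cons (nat_lit 0x1550) (nat_lit 0x2000300040003000100000000) .nil)) (.cons (nat_lit 0x111110101) (nat_lit 0x1010) (nat_lit 0xd) (nat_lit 0x540230106) (.cons (nat_lit 0x111100101) (nat_lit 0x10010) (nat_lit 9) (nat_lit 0x430200105) .nil))) (.split (nat_lit 9) (nat_lit 1) (.split (nat_lit 9) (nat_lit 2) (.split (nat_lit 9) (nat_lit 3) (.split (nat_lit 9) (nat_lit 4) (.split (nat_lit 9) (nat_lit 5) (.split (nat_lit 9) (nat_lit 6) (.split (nat_lit 9) (nat_lit 7) (.split (nat_lit 9) (nat_lit 8) (.st (nat_lit 0) (nat_lit 1) (nat_lit 3) (nat_lit 0x55411)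 (nat_lit 0x1000200020002000100000000000100000002) (nat_lit 1) (nat_lit 1) (.st (nat_lit 9) (nat_lit 1) (nat_lit 3) (nat_lit 0x55511) (nat_lit 0x2000400050006000400020000000300000003) (nat_lit 1) (nat_lit 1) (.split (nat_lit 9) (nat_lit 0) (.leaf (.cons (nat_lit 0x1014) (nat_lit 0x1000000000000000200020000) (.cons (nat_lit 0x1550) (nat_lit 0x2000300040003000100000000) .nil)) (.cons (nat_lit 0x1111110101) (nat_lit 0x1010) (nat_lit 0xe) (nat_lit 0x7540230106) (.cons (nat_lit 0x1111000101) (nat_lit 0x100010) (nat_lit 4) (nat_lit 0x5321000004) .nil))) (.non (nat_lit 1) (nat_lit 3) (nat_lit 0x95411) (nat_lit 0x1000200020002000100000000000100000002))))) (.non (nat_lit 1) (nat_lit 3) (nat_lit 0x50001) (nat_lit 0x1000100000000000000000000000000000001))) (.non (nat_lit 1) (nat_lit 3) (nat_lit 0x55410) (nat_lit 0x1000100020002000100000000000100000000))) (.non (nat_lit 1) (nat_lit 3) (nat_lit 0x45410) (nat_lit 0x1000000010002000100000000000100000000))) (.non (nat_lit 1) (nat_lit 3) (nat_lit 0x45510)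 (nat_lit 0x1000000010002000200010000000100000000))) (.non (nat_lit 1) (nat_lit 3) (nat_lit 0x55501) (nat_lit 0x1000100010001000100010000000000000001))) (.non (nat_lit 0) (nat_lit 6) (nat_lit 0x40540) (nat_lit 0x1000000000000000100020002000000000000))) (.non (nat_lit 1) (nat_lit 3) (nat_lit 0x55510) (nat_lit 0x1000100020003000200010000000200000000))) (.non (nat_lit 2) (nat_lit 3) (nat_lit 0x40005) (nat_lit 0x1000000000000000000000000000000010001)))) (.non (nat_lit 1) (nat_lit 3) (nat_lit 0x2a821) (nat_lit 0x200020002000100000000000100000002))) (.non (nat_lit 1) (nat_lit 3) (nat_lit 0x25410) (nat_lit 0x100020002000100000000000100000000)))))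

noncomputable def t185_11 : Tr := (.pd (.cons (nat_lit 0) (nat_lit 6) (nat_lit 0x110) (nat_lit 0x70433120) (nat_lit 0xf423f00000f423fb71ae1f156000010000100000) (.cons (nat_lit 1) (nat_lit 5) (nat_lit 0) (nat_lit 0x62033200) (nat_lit 0xf423fb71ae00000f423f54591a2c2800000f423f) (.cons (nat_lit 1) (nat_lit 6) (nat_lit 0) (nat_lit 0x70433200) (nat_lit 0xf423f00000f423fb71ae1f156f423f00000f423f) (.cons (nat_lit 2) (nat_lit 5) (nat_lit 0) (nat_lit 0x66033000) (nat_lit 0xf423fb71ae00000f423f5459100000f423fb71ae) (.cons (nat_lit 2) (nat_lit 6) (nat_lit 0) (nat_lit 0x70433000) (nat_lit 0xf423f00000f423fb71ae1f15600000f423fb71ae) (.cons (nat_lit 2) (nat_lit 7) (nat_lit 0) (nat_lit 0x5433000) (nat_lit 0xf423fb71aea2c280473700000f423fb71ae) .nil)))))) (.ex (nat_lit 0) (.ex (nat_lit 7) (.leaf (.cons (nat_lit 0x1014) (nat_lit 0x1000000000000000200020000) (.cons (nat_lit 0x1550) (nat_lit 0x2000300040003000100000000) .nil)) (.cons (nat_lit 0x11110100) (nat_lit 0x1010) (nat_lit 8) (nat_lit 0x20340100)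 (.cons (nat_lit 0x11100100) (nat_lit 0x10010) (nat_lit 7) (nat_lit 0x30200100) .nil))) (.split (nat_lit 8) (nat_lit 1) (.split (nat_lit 8) (nat_lit 2) (.split (nat_lit 8) (nat_lit 3) (.split (nat_lit 8) (nat_lit 4) (.split (nat_lit 8) (nat_lit 5) (.split (nat_lit 8) (nat_lit 6) t185_4 (.non (nat_lit 1) (nat_lit 3) (nat_lit 0x15000) (nat_lit 0x100010001000000000000000000000000))) (.non (nat_lit 1) (nat_lit 3) (nat_lit 0x15400) (nat_lit 0x100010001000100000000000000000000))) (.non (nat_lit 1) (nat_lit 3) (nat_lit 0x15500) (nat_lit 0x100010001000100010000000000000000))) (.non (nat_lit 0) (nat_lit 6) (nat_lit 0x10540) (nat_lit 0x100000000000100020002000000000000))) (.non (nat_lit 1) (nat_lit 3) (nat_lit 0x15010) (nat_lit 0x100010001000000000000000100000000))) (.non (nat_lit 0) (nat_lit 6) (nat_lit 0x10014) (nat_lit 0x100000000000000000000000200020000)))) (.split (nat_lit 8) (nat_lit 1) (.split (nat_lit 8) (nat_lit 2) (.split (nat_lit 8) (nat_lit 3) (.split (nat_lit 8) (nat_lit 4) (.split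 (nat_lit 8) (nat_lit 5) (.split (nat_lit 8) (nat_lit 6) (.split (nat_lit 8) (nat_lit 7) t185_9 t185_10) (.non (nat_lit 1) (nat_lit 3) (nat_lit 0x15410) (nat_lit 0x100010002000100000000000100000000))) (.non (nat_lit 1) (nat_lit 3) (nat_lit 0x15510) (nat_lit 0x100010002000200010000000100000000))) (.non (nat_lit 0) (nat_lit 6) (nat_lit 0x10540) (nat_lit 0x100000000000100020002000000000000))) (.non (nat_lit 0) (nat_lit 6) (nat_lit 0x10540) (nat_lit 0x100000000000100020002000000000000))) (.non (nat_lit 0) (nat_lit 6) (nat_lit 0x10014) (nat_lit 0x100000000000000000000000200020000))) (.non (nat_lit 2) (nat_lit 3) (nat_lit 0x10005) (nat_lit 0x100000000000000000000000000010001)))))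

noncomputable def t185_12 : Tr := (.ex (nat_lit 3) (.ex (nat_lit 4) (.split (nat_lit 6) (nat_lit 2) (.split (nat_lit 7) (nat_lit 6) t185_11 (.non (nat_lit 1) (nat_lit 3) (nat_lit 0x9410) (nat_lit 0x10002000100000000000100000000))) (.non (nat_lit 1) (nat_lit 3) (nat_lit 0xa810) (nat_lit 0x10002000100000000000200000000))) (.split (nat_lit 8) (nat_lit 1) (.split (nat_lit 8) (nat_lit 2) (.split (nat_lit 8) (nat_lit 5) (.split (nat_lit 8) (nat_lit 6) (.split (nat_lit 8) (nat_lit 7) (.split (nat_lit 8) (nat_lit 0) (.split (nat_lit 8) (nat_lit 3) (.unj (nat_lit 0x15) (nat_lit 0x200020001) (nat_lit 0x10540) (nat_lit 0x100000000000100020002000000000000)) (.unj (nat_lit 0x15) (nat_lit 0x200020001) (nat_lit 0x10140) (nat_lit 0x100000000000000010001000000000000))) (.split (nat_lit 8) (nat_lit 3) (.sup (nat_lit 0x2000000000000000500050000) (nat_lit 0x300000000000100050004000000000000)) (.unj (nat_lit 0x1014) (nat_lit 0x1000000000000000200020000) (nat_lit 0x10140) (nat_lit 0x100000000000000010001000000000000))))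 (.non (nat_lit 1) (nat_lit 3) (nat_lit 0x15500) (nat_lit 0x100010001000100010000000000000000))) (.non (nat_lit 1) (nat_lit 3) (nat_lit 0x11500) (nat_lit 0x100000001000100010000000000000000))) (.non (nat_lit 1) (nat_lit 3) (nat_lit 0x10500) (nat_lit 0x100000000000100010000000000000000))) (.star (nat_lit 8) (nat_lit 2) (nat_lit 4))) (.star (nat_lit 8) (nat_lit 1) (nat_lit 4)))) (.split (nat_lit 8) (nat_lit 1) (.split (nat_lit 8) (nat_lit 2) (.split (nat_lit 8) (nat_lit 5) (.split (nat_lit 8) (nat_lit 6) (.split (nat_lit 8) (nat_lit 0) (.split (nat_lit 8) (nat_lit 4) (.split (nat_lit 8) (nat_lit 7) (.unj (nat_lit 0x15) (nat_lit 0x200020001) (nat_lit 0x10540) (nat_lit 0x100000000000100020002000000000000)) (.unj (nat_lit 0x15) (nat_lit 0x200020001) (nat_lit 0x10540) (nat_lit 0x100000000000100020002000000000000))) (.split (nat_lit 8) (nat_lit 7) (.unj (nat_lit 0x15) (nat_lit 0x200020001) (nat_lit 0x10140) (nat_lit 0x100000000000000010001000000000000)) (.non (nat_lit 1) (nat_lit 3) (nat_lit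 0x15500) (nat_lit 0x100010001000100010000000000000000)))) (.split (nat_lit 8) (nat_lit 7) (.split (nat_lit 8) (nat_lit 4) (.sup (nat_lit 0x4000000000000000a00090000) (nat_lit 0x50000000000020009000a000000000000)) (.unj (nat_lit 0x1014) (nat_lit 0x1000000000000000200020000) (nat_lit 0x10140) (nat_lit 0x100000000000000010001000000000000))) (.non (nat_lit 1) (nat_lit 4) (nat_lit 0x15451) (nat_lit 0x200020002000100000001000100000001)))) (.non (nat_lit 1) (nat_lit 3) (nat_lit 0x15410) (nat_lit 0x100010002000100000000000100000000))) (.non (nat_lit 1) (nat_lit 3) (nat_lit 0x15510) (nat_lit 0x100010002000200010000000100000000))) (.star (nat_lit 8) (nat_lit 2) (nat_lit 3))) (.star (nat_lit 8) (nat_lit 1) (nat_lit 3))))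

noncomputable def t185_13 : Tr := (.ex (nat_lit 0xa) (.ex (nat_lit 9) (.leaf (.cons (nat_lit 0x10014) (nat_lit 0x100000000000000000000000200020000) (.cons (nat_lit 0x1550) (nat_lit 0x2000300040003000100000000) .nil)) (.cons (nat_lit 0x1111000100) (nat_lit 0x100010) (nat_lit 3) (nat_lit 0x4301000200) .nil)) (.split (nat_lit 0xb) (nat_lit 0) (.split (nat_lit 0xb) (nat_lit 2) (.split (nat_lit 0xb) (nat_lit 3) (.split (nat_lit 0xb) (nat_lit 4) (.split (nat_lit 0xb) (nat_lit 5) (.split (nat_lit 0xb) (nat_lit 6) (.split (nat_lit 0xb) (nat_lit 7) (.split (nat_lit 0xb) (nat_lit 8) (.split (nat_lit 0xb) (nat_lit 0xa) (.split (nat_lit 0xb) (nat_lit 1) (.st (nat_lit 9) (nat_lit 1) (nat_lit 3) (nat_lit 0x455410) (nat_lit 0x100000002000200010002000100000000000200000000) (nat_lit 1) (nat_lit 1) (.st (nat_lit 0xb) (nat_lit 1) (nat_lit 3) (nat_lit 0x455510) (nat_lit 0x200000003000400030006000400020000000500000000) (nat_lit 1) (nat_lit 1) (.split (nat_lit 0xb) (nat_lit 9) (.leaf (.cons (nat_lit 0x10014)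 (nat_lit 0x100000000000000000000000200020000) (.cons (nat_lit 0x1550) (nat_lit 0x2000300040003000100000000) .nil)) (.cons (nat_lit 0x101111110100) (nat_lit 0x1010) (nat_lit 0xe) (nat_lit 0x706510230400) (.cons (nat_lit 0x101111100100) (nat_lit 0x10010) (nat_lit 0xa) (nat_lit 0x605420100300) .nil))) (.non (nat_lit 1) (nat_lit 3) (nat_lit 0x855410) (nat_lit 0x100000002000200010002000100000000000200000000))))) (.sup (nat_lit 0x40007000b0010000d000000000000) (nat_lit 0x300030002000100000000000000000000000100040004))) (.non (nat_lit 1) (nat_lit 3) (nat_lit 0x555510) (nat_lit 0x200010003000400030006000400020000000500000000))) (.non (nat_lit 1) (nat_lit 3) (nat_lit 0x450000) (nat_lit 0x100000001000100000000000000000000000000000000))) (.non (nat_lit 1) (nat_lit 3) (nat_lit 0x455010) (nat_lit 0x100000001000100010001000000000000000100000000))) (.non (nat_lit 1) (nat_lit 3) (nat_lit 0x451010) (nat_lit 0x100000001000100000001000000000000000100000000))) (.non (nat_lit 1) (nat_lit 3) (nat_lit 0x451410)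 (nat_lit 0x100000001000100000001000100000000000100000000))) (.non (nat_lit 1) (nat_lit 3) (nat_lit 0x451510) (nat_lit 0x100000001000100000001000100010000000100000000))) (.non (nat_lit 1) (nat_lit 5) (nat_lit 0x450140) (nat_lit 0x300000002000100000000000000030004000000000000))) (.non (nat_lit 1) (nat_lit 3) (nat_lit 0x450010) (nat_lit 0x100000001000100000000000000000000000100000000))) (.non (nat_lit 1) (nat_lit 3) (nat_lit 0x655411) (nat_lit 0x200010002000200010002000100000000000200000002)))) (.split (nat_lit 0xb) (nat_lit 0) (.split (nat_lit 0xb) (nat_lit 1) (.split (nat_lit 0xb) (nat_lit 2) (.split (nat_lit 0xb) (nat_lit 3) (.split (nat_lit 0xb) (nat_lit 4) (.split (nat_lit 0xb) (nat_lit 5) (.split (nat_lit 0xb) (nat_lit 6) (.split (nat_lit 0xb) (nat_lit 7) (.split (nat_lit 0xb) (nat_lit 8) (.split (nat_lit 0xb) (nat_lit 9) (.sup (nat_lit 0x7000d00160020001a000000000000) (nat_lit 0x6000d000100020000000000000000000000030009000e)) (.non (nat_lit 1) (nat_lit 3) (nat_lit 0x555510) (nat_lit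 0x200010003000400030006000400020000000500000000))) (.non (nat_lit 1) (nat_lit 3) (nat_lit 0x455410) (nat_lit 0x100000001000200010002000100000000000200000000))) (.non (nat_lit 1) (nat_lit 3) (nat_lit 0x555410) (nat_lit 0x200010001000200030004000200000000000300000000))) (.non (nat_lit 1) (nat_lit 3) (nat_lit 0x405410) (nat_lit 0x100000000000000010002000100000000000100000000))) (.non (nat_lit 1) (nat_lit 3) (nat_lit 0x555410) (nat_lit 0x200010001000200020004000300000000000300000000))) (.non (nat_lit 1) (nat_lit 3) (nat_lit 0x455510) (nat_lit 0x100000001000200020004000300020000000300000000))) (.non (nat_lit 2) (nat_lit 4) (nat_lit 0xa00085) (nat_lit 0x200030000000000000000000000000001000000020004))) (.non (nat_lit 1) (nat_lit 3) (nat_lit 0x555010) (nat_lit 0x200010001000200010002000000000000000300000000))) (.non (nat_lit 2) (nat_lit 3) (nat_lit 0x500005) (nat_lit 0x100010000000000000000000000000000000000010001))) (.non (nat_lit 1) (nat_lit 3) (nat_lit 0x500001) (nat_lit 0x100010000000000000000000000000000000000000001))))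

noncomputable def t185_14 : Tr := (.split (nat_lit 0xa) (nat_lit 0) (.ex (nat_lit 9) (.leaf (.cons (nat_lit 0x10014) (nat_lit 0x100000000000000000000000200020000) (.cons (nat_lit 0x1550) (nat_lit 0x2000300040003000100000000) .nil)) (.cons (nat_lit 0x1111000100) (nat_lit 0x100010) (nat_lit 3) (nat_lit 0x4301000200) .nil)) (.split (nat_lit 0xb) (nat_lit 0) (.split (nat_lit 0xb) (nat_lit 2) (.split (nat_lit 0xb) (nat_lit 3) (.split (nat_lit 0xb) (nat_lit 4) (.split (nat_lit 0xb) (nat_lit 5) (.split (nat_lit 0xb) (nat_lit 6) (.split (nat_lit 0xb) (nat_lit 7) (.split (nat_lit 0xb) (nat_lit 8) (.split (nat_lit 0xb) (nat_lit 0xa) (.split (nat_lit 0xb) (nat_lit 1) (.st (nat_lit 9) (nat_lit 1) (nat_lit 3) (nat_lit 0x455410) (nat_lit 0x100000002000200010002000100000000000200000000) (nat_lit 1) (nat_lit 1) (.st (nat_lit 0xb) (nat_lit 1) (nat_lit 3) (nat_lit 0x455510) (nat_lit 0x200000003000400030006000400020000000500000000) (nat_lit 1) (nat_lit 1) (.split (nat_lit 0xb) (nat_lit 9) (.leaf (.cons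 (nat_lit 0x10014) (nat_lit 0x100000000000000000000000200020000) (.cons (nat_lit 0x1550) (nat_lit 0x2000300040003000100000000) .nil)) (.cons (nat_lit 0x101111110100) (nat_lit 0x1010) (nat_lit 0xe) (nat_lit 0x706510230400) (.cons (nat_lit 0x101111100100) (nat_lit 0x10010) (nat_lit 0xa) (nat_lit 0x605420100300) .nil))) (.non (nat_lit 1) (nat_lit 3) (nat_lit 0x855410) (nat_lit 0x100000002000200010002000100000000000200000000))))) (.sup (nat_lit 0x30007000b0010000d000000000000) (nat_lit 0x300010003000200000000000000000000000100040003))) (.non (nat_lit 1) (nat_lit 3) (nat_lit 0x555510) (nat_lit 0x200010003000400030006000400020000000500000000))) (.non (nat_lit 1) (nat_lit 3) (nat_lit 0x450000) (nat_lit 0x100000001000100000000000000000000000000000000))) (.non (nat_lit 1) (nat_lit 3) (nat_lit 0x455010) (nat_lit 0x100000001000100010001000000000000000100000000))) (.non (nat_lit 1) (nat_lit 3) (nat_lit 0x451010) (nat_lit 0x100000001000100000001000000000000000100000000))) (.non (nat_lit 1) (nat_lit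 3) (nat_lit 0x451410) (nat_lit 0x100000001000100000001000100000000000100000000))) (.non (nat_lit 1) (nat_lit 3) (nat_lit 0x451510) (nat_lit 0x100000001000100000001000100010000000100000000))) (.non (nat_lit 1) (nat_lit 5) (nat_lit 0x450140) (nat_lit 0x300000002000100000000000000030004000000000000))) (.non (nat_lit 1) (nat_lit 3) (nat_lit 0x450010) (nat_lit 0x100000001000100000000000000000000000100000000))) (.non (nat_lit 1) (nat_lit 3) (nat_lit 0x455511) (nat_lit 0x200000003000400030006000400020000000500000001)))) (.st (nat_lit 0) (nat_lit 2) (nat_lit 3) (nat_lit 0x200005) (nat_lit 0x10000000000000000000000000000000000010002) (nat_lit 1) (nat_lit 1) (.split (nat_lit 0xa) (nat_lit 0) t185_13 (.sup (nat_lit 0x6000d00160020001a000000000000) (nat_lit 0xb000100020000000000000000000000030009000d)))))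

noncomputable def t185_15 : Tr := (.ex (nat_lit 0) (.ex (nat_lit 9) (.leaf (.cons (nat_lit 0x10014) (nat_lit 0x100000000000000000000000200020000) (.cons (nat_lit 0x1550) (nat_lit 0x2000300040003000100000000) .nil)) (.cons (nat_lit 0x1111000100) (nat_lit 0x100010) (nat_lit 3) (nat_lit 0x4301000200) .nil)) (.split (nat_lit 0xa) (nat_lit 0) (.split (nat_lit 0xa) (nat_lit 2) (.split (nat_lit 0xa) (nat_lit 3) (.split (nat_lit 0xa) (nat_lit 4) (.split (nat_lit 0xa) (nat_lit 5) (.split (nat_lit 0xa) (nat_lit 6) (.split (nat_lit 0xa) (nat_lit 7) (.split (nat_lit 0xa) (nat_lit 8) (.split (nat_lit 0xa) (nat_lit 1) (.st (nat_lit 9) (nat_lit 1) (nat_lit 3) (nat_lit 0x155410) (nat_lit 0x10002000200010002000100000000000200000000) (nat_lit 1) (nat_lit 1) (.st (nat_lit 0xa) (nat_lit 1) (nat_lit 3) (nat_lit 0x155510) (nat_lit 0x20003000400030006000400020000000500000000) (nat_lit 1) (nat_lit 1) (.split (nat_lit 0xa) (nat_lit 9) (.leaf (.cons (nat_lit 0x10014) (nat_lit 0x100000000000000000000000200020000)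 (.cons (nat_lit 0x1550) (nat_lit 0x2000300040003000100000000) .nil)) (.cons (nat_lit 0x11111110100) (nat_lit 0x1010) (nat_lit 0xe) (nat_lit 0x76510230400) (.cons (nat_lit 0x11111100100) (nat_lit 0x10010) (nat_lit 0xa) (nat_lit 0x65420100300) .nil))) (.non (nat_lit 1) (nat_lit 3) (nat_lit 0x255410) (nat_lit 0x10002000200010002000100000000000200000000))))) (.sup (nat_lit 0x30006000b0010000d000000000000) (nat_lit 0x30003000200000000000000000000000200040002))) (.non (nat_lit 1) (nat_lit 3) (nat_lit 0x150000) (nat_lit 0x10001000100000000000000000000000000000000))) (.non (nat_lit 1) (nat_lit 3) (nat_lit 0x155010) (nat_lit 0x10001000100010001000000000000000100000000))) (.non (nat_lit 1) (nat_lit 3) (nat_lit 0x151010) (nat_lit 0x10001000100000001000000000000000100000000))) (.non (nat_lit 1) (nat_lit 3) (nat_lit 0x151410) (nat_lit 0x10001000100000001000100000000000100000000))) (.non (nat_lit 1) (nat_lit 3) (nat_lit 0x151510) (nat_lit 0x10001000100000001000100010000000100000000))) (.non (nat_lit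 1) (nat_lit 5) (nat_lit 0x150140) (nat_lit 0x30002000100000000000000030004000000000000))) (.non (nat_lit 1) (nat_lit 3) (nat_lit 0x150010) (nat_lit 0x10001000100000000000000000000000100000000))) (.non (nat_lit 1) (nat_lit 3) (nat_lit 0x155511) (nat_lit 0x20003000400030006000400020000000500000001)))) (.split (nat_lit 0xa) (nat_lit 1) (.split (nat_lit 0xa) (nat_lit 2) (.split (nat_lit 0xa) (nat_lit 3) (.split (nat_lit 0xa) (nat_lit 4) (.split (nat_lit 0xa) (nat_lit 5) (.split (nat_lit 0xa) (nat_lit 6) (.split (nat_lit 0xa) (nat_lit 7) (.split (nat_lit 0xa) (nat_lit 8) (.split (nat_lit 0xa) (nat_lit 9) t185_14 (.non (nat_lit 1) (nat_lit 3) (nat_lit 0x155511) (nat_lit 0x20003000400030006000400020000000500000001))) (.non (nat_lit 1) (nat_lit 3) (nat_lit 0x155410) (nat_lit 0x10001000200010002000100000000000200000000))) (.non (nat_lit 1) (nat_lit 3) (nat_lit 0x115510) (nat_lit 0x10000000100020003000200010000000200000000))) (.non (nat_lit 1) (nat_lit 3) (nat_lit 0x105410) (nat_lit 0x10000000000010002000100000000000100000000)))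 (.non (nat_lit 1) (nat_lit 3) (nat_lit 0x105510) (nat_lit 0x10000000000010002000200010000000100000000))) (.non (nat_lit 1) (nat_lit 3) (nat_lit 0x155510) (nat_lit 0x10001000200020004000300020000000300000000))) (.non (nat_lit 1) (nat_lit 6) (nat_lit 0x100540) (nat_lit 0x10000000000000000000100020002000000000000))) (.non (nat_lit 1) (nat_lit 3) (nat_lit 0x115410) (nat_lit 0x10000000100010002000100000000000200000000))) (.non (nat_lit 2) (nat_lit 3) (nat_lit 0x100005) (nat_lit 0x10000000000000000000000000000000000010001))))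

noncomputable def t185_16 : Tr := (.ex (nat_lit 8) (.leaf (.cons (nat_lit 0x10014) (nat_lit 0x100000000000000000000000200020000) (.cons (nat_lit 0x1550) (nat_lit 0x2000300040003000100000000) .nil)) (.cons (nat_lit 0x111000100) (nat_lit 0x100010) (nat_lit 2) (nat_lit 0x301000200) .nil)) (.split (nat_lit 9) (nat_lit 2) (.split (nat_lit 9) (nat_lit 3) (.split (nat_lit 9) (nat_lit 4) (.split (nat_lit 9) (nat_lit 5) (.split (nat_lit 9) (nat_lit 6) (.split (nat_lit 9) (nat_lit 7) (.split (nat_lit 9) (nat_lit 0) (.split (nat_lit 9) (nat_lit 1) (.st (nat_lit 8) (nat_lit 1) (nat_lit 3) (nat_lit 0x55410) (nat_lit 0x1000200010002000100000000000200000000) (nat_lit 1) (nat_lit 1) (.split (nat_lit 9) (nat_lit 8) t185_15 (.non (nat_lit 1) (nat_lit 3) (nat_lit 0x95410) (nat_lit 0x1000200010002000100000000000200000000)))) (.sup (nat_lit 0x30006000b0010000d000000000000) (nat_lit 0x3000200000000000000000000000200040002))) (.split (nat_lit 9) (nat_lit 1) (.st (nat_lit 0) (nat_lit 1) (nat_lit 3) (nat_lit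 0x55511) (nat_lit 0x3000400030006000400020000000500000002) (nat_lit 1) (nat_lit 1) (.st (nat_lit 8) (nat_lit 1) (nat_lit 3) (nat_lit 0x55410) (nat_lit 0x1000200010002000100000000000200000000) (nat_lit 1) (nat_lit 1) (.st (nat_lit 9) (nat_lit 1) (nat_lit 3) (nat_lit 0x55411) (nat_lit 0x2000200010002000100000000000200000001) (nat_lit 1) (nat_lit 1) (.split (nat_lit 9) (nat_lit 0) (.split (nat_lit 9) (nat_lit 8) (.leaf (.cons (nat_lit 0x10014) (nat_lit 0x100000000000000000000000200020000) (.cons (nat_lit 0x1550) (nat_lit 0x2000300040003000100000000) .nil)) (.cons (nat_lit 0x1111110101) (nat_lit 0x1010) (nat_lit 0xe) (nat_lit 0x6510230407) (.cons (nat_lit 0x1111100101) (nat_lit 0x10010) (nat_lit 0xa) (nat_lit 0x5420100306) .nil))) (.non (nat_lit 1) (nat_lit 3) (nat_lit 0x95410) (nat_lit 0x1000200010002000100000000000200000000))) (.non (nat_lit 1) (nat_lit 3) (nat_lit 0xaa821) (nat_lit 0x2000200010002000100000000000200000002)))))) (.non (nat_lit 2) (nat_lit 3) (nat_lit 0x40005) (nat_lit 0x1000000000000000000000000000000010001))))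 (.non (nat_lit 1) (nat_lit 3) (nat_lit 0x55010) (nat_lit 0x1000100010001000000000000000100000000))) (.non (nat_lit 1) (nat_lit 3) (nat_lit 0x51010) (nat_lit 0x1000100000001000000000000000100000000))) (.non (nat_lit 1) (nat_lit 3) (nat_lit 0x51410) (nat_lit 0x1000100000001000100000000000100000000))) (.non (nat_lit 1) (nat_lit 3) (nat_lit 0x51510) (nat_lit 0x1000100000001000100010000000100000000))) (.non (nat_lit 1) (nat_lit 5) (nat_lit 0x50150) (nat_lit 0x3000200000000000000030004000100000000))) (.non (nat_lit 1) (nat_lit 3) (nat_lit 0x50010) (nat_lit 0x1000100000000000000000000000100000000))))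

noncomputable def t185_17 : Tr := (.ex (nat_lit 3) (.ex (nat_lit 4) (.split (nat_lit 6) (nat_lit 2) (.split (nat_lit 8) (nat_lit 2) (.split (nat_lit 7) (nat_lit 6) (.pd (.cons (nat_lit 1) (nat_lit 5) (nat_lit 0) (nat_lit 0x262033200) (nat_lit 0xf423ff423fb71ae00000f423f5459165b9700000f423f) (.cons (nat_lit 1) (nat_lit 6) (nat_lit 0) (nat_lit 0x270433200) (nat_lit 0xf423ff423f00000f423fb71ae1f156b71ae00000f423f) (.cons (nat_lit 2) (nat_lit 5) (nat_lit 0) (nat_lit 0x866033000) (nat_lit 0xf423ff423fb71ae00000f423f5459100000f423fb71ae) (.cons (nat_lit 2) (nat_lit 6) (nat_lit 0) (nat_lit 0x870433000) (nat_lit 0xf423ff423f00000f423fb71ae1f15600000f423fb71ae) (.cons (nat_lit 2) (nat_lit 7) (nat_lit 0) (nat_lit 0x805433000) (nat_lit 0xf423f00000f423fb71aea2c280473700000f423fb71ae) .nil))))) t185_16) (.non (nat_lit 1) (nat_lit 3) (nat_lit 0x9410) (nat_lit 0x10002000100000000000100000000))) (.non (nat_lit 1) (nat_lit 3) (nat_lit 0x25410) (nat_lit 0x100010002000100000000000200000000))) (.non (nat_lit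 1) (nat_lit 3) (nat_lit 0xa810) (nat_lit 0x10002000100000000000200000000))) (.split (nat_lit 9) (nat_lit 1) (.split (nat_lit 9) (nat_lit 2) (.split (nat_lit 9) (nat_lit 5) (.split (nat_lit 9) (nat_lit 6) (.split (nat_lit 9) (nat_lit 7) (.split (nat_lit 9) (nat_lit 8) (.split (nat_lit 9) (nat_lit 0) (.split (nat_lit 9) (nat_lit 3) (.unj (nat_lit 0x15) (nat_lit 0x200020001) (nat_lit 0x40540) (nat_lit 0x1000000000000000100020002000000000000)) (.unj (nat_lit 0x15) (nat_lit 0x200020001) (nat_lit 0x40140) (nat_lit 0x1000000000000000000010001000000000000))) (.split (nat_lit 9) (nat_lit 3) (.unj (nat_lit 0x10014) (nat_lit 0x100000000000000000000000200020000) (nat_lit 0x40540) (nat_lit 0x1000000000000000100020002000000000000)) (.unj (nat_lit 0x1014) (nat_lit 0x1000000000000000200020000) (nat_lit 0x40140) (nat_lit 0x1000000000000000000010001000000000000)))) (.non (nat_lit 1) (nat_lit 3) (nat_lit 0x51510) (nat_lit 0x1000100000001000100010000000100000000))) (.non (nat_lit 1) (nat_lit 3) (nat_lit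 0x45500) (nat_lit 0x1000000010001000100010000000000000000))) (.non (nat_lit 1) (nat_lit 3) (nat_lit 0x41500) (nat_lit 0x1000000000001000100010000000000000000))) (.non (nat_lit 1) (nat_lit 3) (nat_lit 0x40500) (nat_lit 0x1000000000000000100010000000000000000))) (.star (nat_lit 9) (nat_lit 2) (nat_lit 4))) (.star (nat_lit 9) (nat_lit 1) (nat_lit 4)))) (.split (nat_lit 9) (nat_lit 1) (.split (nat_lit 9) (nat_lit 2) (.split (nat_lit 9) (nat_lit 5) (.split (nat_lit 9) (nat_lit 6) (.split (nat_lit 9) (nat_lit 7) (.split (nat_lit 9) (nat_lit 0) (.split (nat_lit 9) (nat_lit 4) (.split (nat_lit 9) (nat_lit 8) (.unj (nat_lit 0x15) (nat_lit 0x200020001) (nat_lit 0x40540) (nat_lit 0x1000000000000000100020002000000000000)) (.unj (nat_lit 0x15) (nat_lit 0x200020001) (nat_lit 0x40540) (nat_lit 0x1000000000000000100020002000000000000))) (.split (nat_lit 9) (nat_lit 8) (.unj (nat_lit 0x15) (nat_lit 0x200020001) (nat_lit 0x40140) (nat_lit 0x1000000000000000000010001000000000000)) (.non (nat_lit 1) (nat_lit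 3) (nat_lit 0x51510) (nat_lit 0x1000100000001000100010000000100000000)))) (.split (nat_lit 9) (nat_lit 8) (.split (nat_lit 9) (nat_lit 4) (.unj (nat_lit 0x10014) (nat_lit 0x100000000000000000000000200020000) (nat_lit 0x40540) (nat_lit 0x1000000000000000100020002000000000000)) (.unj (nat_lit 0x1014) (nat_lit 0x1000000000000000200020000) (nat_lit 0x40140) (nat_lit 0x1000000000000000000010001000000000000))) (.non (nat_lit 1) (nat_lit 4) (nat_lit 0x55451) (nat_lit 0x2000200010002000100000001000200000001)))) (.non (nat_lit 1) (nat_lit 3) (nat_lit 0x55510) (nat_lit 0x1000100020003000200010000000200000000))) (.non (nat_lit 1) (nat_lit 3) (nat_lit 0x45410) (nat_lit 0x1000000010002000100000000000100000000))) (.non (nat_lit 1) (nat_lit 3) (nat_lit 0x45510) (nat_lit 0x1000000010002000200010000000100000000))) (.star (nat_lit 9) (nat_lit 2) (nat_lit 3))) (.star (nat_lit 9) (nat_lit 1) (nat_lit 3))))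

noncomputable def t185_18 : Tr := (.split (nat_lit 8) (nat_lit 0) (.split (nat_lit 6) (nat_lit 2) (.split (nat_lit 8) (nat_lit 2) (.split (nat_lit 7) (nat_lit 6) (.pd (.cons (nat_lit 1) (nat_lit 5) (nat_lit 0) (nat_lit 0x62033800) (nat_lit 0x98965f423fb71ae00000f423f54591a2c2800000927bd) (.cons (nat_lit 1) (nat_lit 6) (nat_lit 0) (nat_lit 0x70433800) (nat_lit 0xb71aef423f00000f423fb71ae1f156f423f00000a2c28) (.cons (nat_lit 2) (nat_lit 5) (nat_lit 0) (nat_lit 0x66033000) (nat_lit 0xf423ff423fb71ae00000f423f5459100000f423f7a11d) (.cons (nat_lit 2) (nat_lit 6) (nat_lit 0) (nat_lit 0x70433000) (nat_lit 0xf423ff423f00000f423fb71ae1f15600000f423f7a11d) (.cons (nat_lit 2) (nat_lit 7) (nat_lit 0) (nat_lit 0x5433000) (nat_lit 0xf423f00000f423fb71aea2c280473700000f423f7a11d) .nil))))) (.ex (nat_lit 0) (.leaf (.cons (nat_lit 0x10014) (nat_lit 0x100000000000000000000000200020000) (.cons (nat_lit 0x1550) (nat_lit 0x2000300040003000100000000) .nil)) (.cons (nat_lit 0x111000101) (nat_lit 0x100010)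 (nat_lit 3) (nat_lit 0x143000200) .nil)) (.split (nat_lit 9) (nat_lit 1) (.split (nat_lit 9) (nat_lit 2) (.split (nat_lit 9) (nat_lit 3) (.split (nat_lit 9) (nat_lit 4) (.split (nat_lit 9) (nat_lit 5) (.split (nat_lit 9) (nat_lit 6) (.split (nat_lit 9) (nat_lit 7) (.split (nat_lit 9) (nat_lit 8) (.sup (nat_lit 0x30006000b0010000d000000000000) (nat_lit 0x2000300000000000000000000000200040004)) (.non (nat_lit 1) (nat_lit 3) (nat_lit 0x50001) (nat_lit 0x1000100000000000000000000000000000001))) (.non (nat_lit 1) (nat_lit 3) (nat_lit 0x55510) (nat_lit 0x1000100020003000200010000000200000000))) (.non (nat_lit 1) (nat_lit 3) (nat_lit 0x45410) (nat_lit 0x1000000010002000100000000000100000000))) (.non (nat_lit 1) (nat_lit 3) (nat_lit 0x45510) (nat_lit 0x1000000010002000200010000000100000000))) (.non (nat_lit 1) (nat_lit 3) (nat_lit 0x51511) (nat_lit 0x1000100000001000100010000000100000001))) (.non (nat_lit 1) (nat_lit 5) (nat_lit 0x50141) (nat_lit 0x3000100000000000000030004000000000002))) (.non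 (nat_lit 1) (nat_lit 3) (nat_lit 0x55410) (nat_lit 0x1000100010002000100000000000200000000))) (.non (nat_lit 2) (nat_lit 3) (nat_lit 0x40005) (nat_lit 0x1000000000000000000000000000000010001))))) (.non (nat_lit 1) (nat_lit 3) (nat_lit 0x9410) (nat_lit 0x10002000100000000000100000000))) (.non (nat_lit 1) (nat_lit 3) (nat_lit 0x25410) (nat_lit 0x100010002000100000000000200000000))) (.non (nat_lit 1) (nat_lit 3) (nat_lit 0xa810) (nat_lit 0x10002000100000000000200000000))) (.non (nat_lit 1) (nat_lit 3) (nat_lit 0x2a821) (nat_lit 0x200010002000100000000000200000002)))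

noncomputable def t185_19 : Tr := (.split (nat_lit 8) (nat_lit 0) (.split (nat_lit 8) (nat_lit 1) (.st (nat_lit 2) (nat_lit 1) (nat_lit 3) (nat_lit 0x15410) (nat_lit 0x100010002000100000000000200000000) (nat_lit 1) (nat_lit 1) (.st (nat_lit 7) (nat_lit 1) (nat_lit 3) (nat_lit 0x15510) (nat_lit 0x100020003000200010000000200000000) (nat_lit 1) (nat_lit 1) t185_17)) (.split (nat_lit 8) (nat_lit 1) (.split (nat_lit 8) (nat_lit 2) (.split (nat_lit 7) (nat_lit 6) (.split (nat_lit 6) (nat_lit 2) (.sup (nat_lit 0x30006000b0010000d000000000000) (nat_lit 0x300000000000000000000000200040002)) (.non (nat_lit 1) (nat_lit 3) (nat_lit 0xa810) (nat_lit 0x10002000100000000000200000000))) (.non (nat_lit 1) (nat_lit 3) (nat_lit 0x9410) (nat_lit 0x10002000100000000000100000000))) (.non (nat_lit 1) (nat_lit 3) (nat_lit 0x25410) (nat_lit 0x100010002000100000000000200000000))) (.split (nat_lit 8) (nat_lit 1) (.split (nat_lit 8) (nat_lit 2) (.split (nat_lit 7) (nat_lit 6) (.split (nat_lit 6) (nat_lit 2) (.sup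 (nat_lit 0x9000000000000000000000004000a0000) (nat_lit 0x200040007000a0008000000000000)) (.non (nat_lit 1) (nat_lit 3) (nat_lit 0xa810) (nat_lit 0x10002000100000000000200000000))) (.non (nat_lit 1) (nat_lit 3) (nat_lit 0x9410) (nat_lit 0x10002000100000000000100000000))) (.non (nat_lit 1) (nat_lit 3) (nat_lit 0x25410) (nat_lit 0x100010002000100000000000200000000))) (.sup (nat_lit 0x7000f00170020001a000000000000) (nat_lit 0x500000000000000000000000100060003))))) (.split (nat_lit 8) (nat_lit 1) (.st (nat_lit 4) (nat_lit 1) (nat_lit 3) (nat_lit 0x15511) (nat_lit 0x200020004000300020000000300000001) (nat_lit 1) (nat_lit 1) (.st (nat_lit 2) (nat_lit 1) (nat_lit 3) (nat_lit 0x15410) (nat_lit 0x100010002000100000000000200000000) (nat_lit 1) (nat_lit 1) (.st (nat_lit 7) (nat_lit 1) (nat_lit 3) (nat_lit 0x15510) (nat_lit 0x100020003000200010000000200000000) (nat_lit 1) (nat_lit 1) (.st (nat_lit 8) (nat_lit 1) (nat_lit 3) (nat_lit 0x15411) (nat_lit 0x200010002000100000000000200000001) (nat_lit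 1) (nat_lit 1) (.ex (nat_lit 3) t185_18 (.split (nat_lit 9) (nat_lit 1) (.split (nat_lit 9) (nat_lit 2) (.split (nat_lit 9) (nat_lit 4) (.split (nat_lit 9) (nat_lit 5) (.split (nat_lit 9) (nat_lit 6) (.split (nat_lit 9) (nat_lit 7) (.split (nat_lit 9) (nat_lit 8) (.split (nat_lit 9) (nat_lit 0) (.unj (nat_lit 0x15) (nat_lit 0x200020001) (nat_lit 0x40540) (nat_lit 0x1000000000000000100020002000000000000)) (.unj (nat_lit 0x10014) (nat_lit 0x100000000000000000000000200020000) (nat_lit 0x40540) (nat_lit 0x1000000000000000100020002000000000000))) (.non (nat_lit 1) (nat_lit 3) (nat_lit 0x55411) (nat_lit 0x1000200010002000100000000000200000001))) (.non (nat_lit 1) (nat_lit 3) (nat_lit 0x55510) (nat_lit 0x1000100020003000200010000000200000000))) (.non (nat_lit 1) (nat_lit 3) (nat_lit 0x45410) (nat_lit 0x1000000010002000100000000000100000000))) (.non (nat_lit 1) (nat_lit 3) (nat_lit 0x45510) (nat_lit 0x1000000010002000200010000000100000000))) (.non (nat_lit 1) (nat_lit 3) (nat_lit 0x55511) (nat_lit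 0x1000200020004000300020000000300000001))) (.star (nat_lit 9) (nat_lit 2) (nat_lit 3))) (.star (nat_lit 9) (nat_lit 1) (nat_lit 3)))))))) (.non (nat_lit 2) (nat_lit 3) (nat_lit 0x10005) (nat_lit 0x100000000000000000000000000010001))))

noncomputable def t185_20 : Tr := (.split (nat_lit 0xa) (nat_lit 9) (.ex (nat_lit 0xa) (.leaf (.cons (nat_lit 0x40014) (nat_lit 0x1000000000000000000000000000200020000) (.cons (nat_lit 0x1550) (nat_lit 0x2000300040003000100000000) .nil)) (.cons (nat_lit 0x11011000100) (nat_lit 0x100010) (nat_lit 3) (nat_lit 0x43001000200) .nil)) (.split (nat_lit 0xb) (nat_lit 0) (.split (nat_lit 0xb) (nat_lit 2) (.split (nat_lit 0xb) (nat_lit 3) (.split (nat_lit 0xb) (nat_lit 4) (.split (nat_lit 0xb) (nat_lit 5) (.split (nat_lit 0xb) (nat_lit 6) (.split (nat_lit 0xb) (nat_lit 7) (.split (nat_lit 0xb) (nat_lit 8) (.split (nat_lit 0xb) (nat_lit 9) (.split (nat_lit 0xb) (nat_lit 1) (.st (nat_lit 0xa) (nat_lit 1) (nat_lit 3) (nat_lit 0x545410) (nat_lit 0x100020002000000010002000100000000000200000000)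 (nat_lit 1) (nat_lit 1) (.st (nat_lit 0xb) (nat_lit 1) (nat_lit 3) (nat_lit 0x545510) (nat_lit 0x200030004000000030006000400020000000500000000) (nat_lit 1) (nat_lit 1) (.split (nat_lit 0xb) (nat_lit 0xa) (.leaf (.cons (nat_lit 0x40014) (nat_lit 0x1000000000000000000000000000200020000) (.cons (nat_lit 0x1550) (nat_lit 0x2000300040003000100000000) .nil)) (.cons (nat_lit 0x111011110100) (nat_lit 0x1010) (nat_lit 0xe) (nat_lit 0x765010230400) (.cons (nat_lit 0x111011100100) (nat_lit 0x10010) (nat_lit 0xa) (nat_lit 0x654020100300) .nil))) (.non (nat_lit 1) (nat_lit 3) (nat_lit 0x945410) (nat_lit 0x100020002000000010002000100000000000200000000))))) (.sup (nat_lit 0x40007000c0010000d000000000000) (nat_lit 0x300020001000200000000000000000000000100040002))) (.non (nat_lit 1) (nat_lit 3) (nat_lit 0x540000) (nat_lit 0x100010001000000000000000000000000000000000000))) (.non (nat_lit 1) (nat_lit 3) (nat_lit 0x555510) (nat_lit 0x200030004000100030006000400020000000500000000))) (.non (nat_lit 1) (nat_lit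 3) (nat_lit 0x545010) (nat_lit 0x100010001000000010001000000000000000100000000))) (.non (nat_lit 1) (nat_lit 3) (nat_lit 0x541010) (nat_lit 0x100010001000000000001000000000000000100000000))) (.non (nat_lit 1) (nat_lit 3) (nat_lit 0x541410) (nat_lit 0x100010001000000000001000100000000000100000000))) (.non (nat_lit 1) (nat_lit 3) (nat_lit 0x541510) (nat_lit 0x100010001000000000001000100010000000100000000))) (.non (nat_lit 1) (nat_lit 5) (nat_lit 0x540140) (nat_lit 0x300020001000000000000000000030004000000000000))) (.non (nat_lit 1) (nat_lit 3) (nat_lit 0x540010) (nat_lit 0x100010001000000000000000000000000000100000000))) (.non (nat_lit 1) (nat_lit 3) (nat_lit 0x545511) (nat_lit 0x200030004000000030006000400020000000500000001)))) (.non (nat_lit 1) (nat_lit 3) (nat_lit 0x245410) (nat_lit 0x10002000000010002000100000000000200000000)))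

noncomputable def t185_21 : Tr := (.split (nat_lit 9) (nat_lit 1) (.split (nat_lit 9) (nat_lit 8) (.st (nat_lit 2) (nat_lit 1) (nat_lit 3) (nat_lit 0x45410) (nat_lit 0x1000000010002000100000000000200000000) (nat_lit 1) (nat_lit 1) (.split (nat_lit 9) (nat_lit 2) (.ex (nat_lit 9) (.leaf (.cons (nat_lit 0x40014) (nat_lit 0x1000000000000000000000000000200020000) (.cons (nat_lit 0x1550) (nat_lit 0x2000300040003000100000000) .nil)) (.cons (nat_lit 0x1011000100) (nat_lit 0x100010) (nat_lit 2) (nat_lit 0x3001000200) .nil)) (.split (nat_lit 0xa) (nat_lit 2) (.split (nat_lit 0xa) (nat_lit 3) (.split (nat_lit 0xa) (nat_lit 4) (.split (nat_lit 0xa) (nat_lit 5) (.split (nat_lit 0xa) (nat_lit 6) (.split (nat_lit 0xa) (nat_lit 7) (.split (nat_lit 0xa) (nat_lit 0) (.split (nat_lit 0xa) (nat_lit 1) (.split (nat_lit 0xa) (nat_lit 8) (.st (nat_lit 9) (nat_lit 1) (nat_lit 3) (nat_lit 0x145410) (nat_lit 0x10002000000010002000100000000000200000000) (nat_lit 1) (nat_lit 1) t185_20) (.sup (nat_lit 0x30006000b0010000d000000000000)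 (nat_lit 0x30002000300000000000000000000000200040002))) (.split (nat_lit 0xa) (nat_lit 8) (.sup (nat_lit 0x40007000b0010000d000000000000) (nat_lit 0x30002000200000000000000000000000100040002)) (.non (nat_lit 2) (nat_lit 3) (nat_lit 0x110004) (nat_lit 0x10000000100000000000000000000000000010000)))) (.split (nat_lit 0xa) (nat_lit 1) (.split (nat_lit 0xa) (nat_lit 8) (.sup (nat_lit 0x30006000b0010000d000000000000) (nat_lit 0x30002000200000000000000000000000200040003)) (.non (nat_lit 1) (nat_lit 3) (nat_lit 0x155411) (nat_lit 0x20002000100010002000100000000000200000001))) (.non (nat_lit 2) (nat_lit 3) (nat_lit 0x100005) (nat_lit 0x10000000000000000000000000000000000010001)))) (.non (nat_lit 1) (nat_lit 3) (nat_lit 0x145010) (nat_lit 0x10001000000010001000000000000000100000000))) (.non (nat_lit 1) (nat_lit 3) (nat_lit 0x141010) (nat_lit 0x10001000000000001000000000000000100000000))) (.non (nat_lit 1) (nat_lit 3) (nat_lit 0x141410) (nat_lit 0x10001000000000001000100000000000100000000))) (.non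 (nat_lit 1) (nat_lit 3) (nat_lit 0x141510) (nat_lit 0x10001000000000001000100010000000100000000))) (.non (nat_lit 1) (nat_lit 5) (nat_lit 0x140150) (nat_lit 0x30002000000000000000000030004000100000000))) (.non (nat_lit 1) (nat_lit 3) (nat_lit 0x140010) (nat_lit 0x10001000000000000000000000000000100000000)))) (.non (nat_lit 1) (nat_lit 3) (nat_lit 0x85410) (nat_lit 0x1000000010002000100000000000200000000)))) (.sup (nat_lit 0x30006000b0010000d000000000000) (nat_lit 0x2000300000000000000000000000200040002))) (.split (nat_lit 9) (nat_lit 8) (.sup (nat_lit 0x30007000b0010000d000000000000) (nat_lit 0x2000200000000000000000000000100040002)) (.non (nat_lit 2) (nat_lit 3) (nat_lit 0x50004) (nat_lit 0x1000100000000000000000000000000010000))))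

noncomputable def t185_22 : Tr := (.ex (nat_lit 0xa) (.leaf (.cons (nat_lit 0x10014) (nat_lit 0x100000000000000000000000200020000) (.cons (nat_lit 0x1550) (nat_lit 0x2000300040003000100000000) .nil)) (.cons (nat_lit 0x11011110100) (nat_lit 0x1010) (nat_lit 0xd) (nat_lit 0x65040230100) (.cons (nat_lit 0x11011100100) (nat_lit 0x10010) (nat_lit 9) (nat_lit 0x54030200100) .nil))) (.split (nat_lit 0xb) (nat_lit 0) (.split (nat_lit 0xb) (nat_lit 2) (.split (nat_lit 0xb) (nat_lit 3) (.split (nat_lit 0xb) (nat_lit 4) (.split (nat_lit 0xb) (nat_lit 5) (.split (nat_lit 0xb) (nat_lit 6) (.split (nat_lit 0xb) (nat_lit 7) (.split (nat_lit 0xb) (nat_lit 8) (.split (nat_lit 0xb) (nat_lit 9) (.split (nat_lit 0xb) (nat_lit 1) (.st (nat_lit 0xa) (nat_lit 1) (nat_lit 3) (nat_lit 0x545410) (nat_lit 0x100020002000000020002000100000000000100000000) (nat_lit 1) (nat_lit 1) (.st (nat_lit 0xb) (nat_lit 1) (nat_lit 3) (nat_lit 0x545510) (nat_lit 0x200030004000000050006000400020000000300000000) (nat_lit 1) (nat_lit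 1) (.split (nat_lit 0xb) (nat_lit 0xa) (.leaf (.cons (nat_lit 0x10014) (nat_lit 0x100000000000000000000000200020000) (.cons (nat_lit 0x1550) (nat_lit 0x2000300040003000100000000) .nil)) (.cons (nat_lit 0x111011110100) (nat_lit 0x1010) (nat_lit 0xe) (nat_lit 0x765040230100) (.cons (nat_lit 0x111011000100) (nat_lit 0x100010) (nat_lit 4) (nat_lit 0x543021000000) .nil))) (.non (nat_lit 1) (nat_lit 3) (nat_lit 0x945410) (nat_lit 0x100020002000000020002000100000000000100000000))))) (.sup (nat_lit 0x2000000050007000c0010000d000000000000) (nat_lit 0x300010000000300000000000000000000000200060003))) (.non (nat_lit 1) (nat_lit 3) (nat_lit 0x540000) (nat_lit 0x100010001000000000000000000000000000000000000))) (.non (nat_lit 1) (nat_lit 3) (nat_lit 0x555510) (nat_lit 0x200030004000100050006000400020000000300000000))) (.non (nat_lit 1) (nat_lit 3) (nat_lit 0x544000) (nat_lit 0x100010001000000010000000000000000000000000000))) (.non (nat_lit 1) (nat_lit 3) (nat_lit 0x545000) (nat_lit 0x100010001000000010001000000000000000000000000)))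 (.non (nat_lit 1) (nat_lit 3) (nat_lit 0x545400) (nat_lit 0x100010001000000010001000100000000000000000000))) (.non (nat_lit 1) (nat_lit 3) (nat_lit 0x545500) (nat_lit 0x100010001000000010001000100010000000000000000))) (.non (nat_lit 1) (nat_lit 5) (nat_lit 0x540140) (nat_lit 0x300020001000000000000000000030004000000000000))) (.non (nat_lit 1) (nat_lit 3) (nat_lit 0x545010) (nat_lit 0x100010001000000010001000000000000000100000000))) (.non (nat_lit 1) (nat_lit 3) (nat_lit 0x545511) (nat_lit 0x200030004000000050006000400020000000300000001))))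

noncomputable def t185_23 : Tr := (.split (nat_lit 0xa) (nat_lit 0) (.split (nat_lit 0xa) (nat_lit 1) (.split (nat_lit 0xa) (nat_lit 8) (.st (nat_lit 9) (nat_lit 1) (nat_lit 3) (nat_lit 0x145410) (nat_lit 0x10002000000020002000100000000000100000000) (nat_lit 1) (nat_lit 1) (.split (nat_lit 0xa) (nat_lit 9) t185_22 (.non (nat_lit 1) (nat_lit 3) (nat_lit 0x245410) (nat_lit 0x10002000000020002000100000000000100000000)))) (.st (nat_lit 8) (nat_lit 1) (nat_lit 3) (nat_lit 0x155510) (nat_lit 0x30004000200050006000400020000000300000000) (nat_lit 1) (nat_lit 1) (.st (nat_lit 9) (nat_lit 1) (nat_lit 3) (nat_lit 0x145410) (nat_lit 0x10002000000020002000100000000000100000000) (nat_lit 1) (nat_lit 1) (.st (nat_lit 0xa) (nat_lit 1) (nat_lit 3) (nat_lit 0x155410) (nat_lit 0x20002000100020002000100000000000100000000) (nat_lit 1) (nat_lit 1) (.split (nat_lit 0xa) (nat_lit 8) (.split (nat_lit 0xa) (nat_lit 9) (.leaf (.cons (nat_lit 0x10014) (nat_lit 0x100000000000000000000000200020000) (.cons (nat_lit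 0x1550) (nat_lit 0x2000300040003000100000000) .nil)) (.cons (nat_lit 0x11111110100) (nat_lit 0x1010) (nat_lit 0xe) (nat_lit 0x65740230100) (.cons (nat_lit 0x11111000100) (nat_lit 0x100010) (nat_lit 4) (nat_lit 0x43521000000) .nil))) (.non (nat_lit 1) (nat_lit 3) (nat_lit 0x265000) (nat_lit 0x20003000100020001000000000000000000000000))) (.non (nat_lit 1) (nat_lit 3) (nat_lit 0x165410) (nat_lit 0x20002000100020002000100000000000100000000))))))) (.split (nat_lit 0xa) (nat_lit 8) (.sup (nat_lit 0x30006000b0010000d000000000000) (nat_lit 0x20000000300000000000000000000000200050003)) (.non (nat_lit 2) (nat_lit 3) (nat_lit 0x110004) (nat_lit 0x10000000100000000000000000000000000010000)))) (.split (nat_lit 0xa) (nat_lit 1) (.split (nat_lit 0xa) (nat_lit 8) (.st (nat_lit 0) (nat_lit 1) (nat_lit 3) (nat_lit 0x145511) (nat_lit 0x30004000000050006000400020000000300000002) (nat_lit 1) (nat_lit 1) (.st (nat_lit 9) (nat_lit 1) (nat_lit 3) (nat_lit 0x145410) (nat_lit 0x10002000000020002000100000000000100000000)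 (nat_lit 1) (nat_lit 1) (.st (nat_lit 0xa) (nat_lit 1) (nat_lit 3) (nat_lit 0x145411) (nat_lit 0x20002000000020002000100000000000100000001) (nat_lit 1) (nat_lit 1) (.split (nat_lit 0xa) (nat_lit 0) (.split (nat_lit 0xa) (nat_lit 9) (.leaf (.cons (nat_lit 0x10014) (nat_lit 0x100000000000000000000000200020000) (.cons (nat_lit 0x1550) (nat_lit 0x2000300040003000100000000) .nil)) (.cons (nat_lit 0x11011110101) (nat_lit 0x1010) (nat_lit 0xe) (nat_lit 0x65040230107) (.cons (nat_lit 0x11011000101) (nat_lit 0x100010) (nat_lit 4) (nat_lit 0x12034000500) .nil))) (.non (nat_lit 1) (nat_lit 3) (nat_lit 0x245410) (nat_lit 0x10002000000020002000100000000000100000000))) (.non (nat_lit 1) (nat_lit 3) (nat_lit 0x28a821) (nat_lit 0x20002000000020002000100000000000100000002)))))) (.non (nat_lit 1) (nat_lit 3) (nat_lit 0x155411) (nat_lit 0x20002000100020002000100000000000100000001))) (.non (nat_lit 2) (nat_lit 3) (nat_lit 0x100005) (nat_lit 0x10000000000000000000000000000000000010001))))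

noncomputable def t185_24 : Tr := (.split (nat_lit 9) (nat_lit 8) (.st (nat_lit 2) (nat_lit 1) (nat_lit 3) (nat_lit 0x45510) (nat_lit 0x1000000020003000200010000000200000000) (nat_lit 1) (nat_lit 1) (.st (nat_lit 7) (nat_lit 1) (nat_lit 3) (nat_lit 0x45410) (nat_lit 0x1000000020002000100000000000100000000) (nat_lit 1) (nat_lit 1) (.split (nat_lit 9) (nat_lit 7) (.ex (nat_lit 9) (.leaf (.cons (nat_lit 0x10014) (nat_lit 0x100000000000000000000000200020000) (.cons (nat_lit 0x1550) (nat_lit 0x2000300040003000100000000) .nil)) (.cons (nat_lit 0x1011110100) (nat_lit 0x1010) (nat_lit 0xc) (nat_lit 0x5040230100) .nil)) (.split (nat_lit 0xa) (nat_lit 2) (.split (nat_lit 0xa) (nat_lit 3) (.split (nat_lit 0xa) (nat_lit 4) (.split (nat_lit 0xa) (nat_lit 5) (.split (nat_lit 0xa) (nat_lit 6) (.split (nat_lit 0xa) (nat_lit 7) t185_23 (.non (nat_lit 1) (nat_lit 3) (nat_lit 0x144000) (nat_lit 0x10001000000010000000000000000000000000000))) (.non (nat_lit 1) (nat_lit 3) (nat_lit 0x145000) (nat_lit 0x10001000000010001000000000000000000000000)))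 (.non (nat_lit 1) (nat_lit 3) (nat_lit 0x145400) (nat_lit 0x10001000000010001000100000000000000000000))) (.non (nat_lit 1) (nat_lit 3) (nat_lit 0x145500) (nat_lit 0x10001000000010001000100010000000000000000))) (.non (nat_lit 1) (nat_lit 5) (nat_lit 0x144140) (nat_lit 0x30002000000010000000000030004000000000000))) (.non (nat_lit 1) (nat_lit 3) (nat_lit 0x145010) (nat_lit 0x10001000000010001000000000000000100000000)))) (.non (nat_lit 1) (nat_lit 3) (nat_lit 0x85410) (nat_lit 0x1000000020002000100000000000100000000))))) (.st (nat_lit 2) (nat_lit 1) (nat_lit 3) (nat_lit 0x45510) (nat_lit 0x1000000020003000200010000000200000000) (nat_lit 1) (nat_lit 1) (.st (nat_lit 7) (nat_lit 1) (nat_lit 3) (nat_lit 0x45410) (nat_lit 0x1000000020002000100000000000100000000) (nat_lit 1) (nat_lit 1) (.st (nat_lit 8) (nat_lit 2) (nat_lit 3) (nat_lit 0x55505) (nat_lit 0x5000600040003000200010000000000040002) (nat_lit 1) (nat_lit 3) (.st (nat_lit 9) (nat_lit 1) (nat_lit 3) (nat_lit 0x55410) (nat_lit 0x2000100020002000100000000000100000000)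 (nat_lit 1) (nat_lit 1) (.split (nat_lit 9) (nat_lit 7) (.split (nat_lit 9) (nat_lit 8) (.leaf (.cons (nat_lit 0x10014) (nat_lit 0x100000000000000000000000200020000) (.cons (nat_lit 0x1550) (nat_lit 0x2000300040003000100000000) .nil)) (.cons (nat_lit 0x1111110100) (nat_lit 0x1010) (nat_lit 0xd) (nat_lit 0x5640230100) (.cons (nat_lit 0x1111100100) (nat_lit 0x10010) (nat_lit 9) (nat_lit 0x4530200100) .nil))) (.non (nat_lit 1) (nat_lit 3) (nat_lit 0x65410) (nat_lit 0x2000100020002000100000000000100000000))) (.non (nat_lit 1) (nat_lit 3) (nat_lit 0xa5400) (nat_lit 0x2000100030002000100000000000000000000))))))))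

noncomputable def t185_25 : Tr := (.split (nat_lit 9) (nat_lit 0) (.split (nat_lit 9) (nat_lit 1) t185_24 (.split (nat_lit 9) (nat_lit 8) (.st (nat_lit 0) (nat_lit 2) (nat_lit 3) (nat_lit 0x55505) (nat_lit 0x5000300040003000200010000000000060004) (nat_lit 1) (nat_lit 2) (.st (nat_lit 1) (nat_lit 2) (nat_lit 3) (nat_lit 0x50005) (nat_lit 0x1000100000000000000000000000000020001) (nat_lit 1) (nat_lit 1) (.st (nat_lit 2) (nat_lit 1) (nat_lit 3) (nat_lit 0x45510) (nat_lit 0x1000000020003000200010000000200000000) (nat_lit 1) (nat_lit 1) (.st (nat_lit 7) (nat_lit 1) (nat_lit 3) (nat_lit 0x45410) (nat_lit 0x1000000020002000100000000000100000000) (nat_lit 1) (nat_lit 1) (.st (nat_lit 8) (nat_lit 2) (nat_lit 3) (nat_lit 0x55505) (nat_lit 0x5000400040003000200010000000000060003) (nat_lit 1) (nat_lit 2) (.st (nat_lit 9) (nat_lit 2) (nat_lit 3) (nat_lit 0x54005) (nat_lit 0x2000100010000000000000000000000020001) (nat_lit 1) (nat_lit 1) (.split (nat_lit 9) (nat_lit 7) (.leaf (.cons (nat_lit 0x40014)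 (nat_lit 0x1000000000000000000000000000200020000) (.cons (nat_lit 0x1550) (nat_lit 0x2000300040003000100000000) .nil)) (.cons (nat_lit 0x1011110100) (nat_lit 0x1010) (nat_lit 0xc) (nat_lit 0x5040230100) .nil)) (.non (nat_lit 1) (nat_lit 3) (nat_lit 0x85410) (nat_lit 0x1000000020002000100000000000100000000))))))))) (.non (nat_lit 2) (nat_lit 3) (nat_lit 0x50004) (nat_lit 0x1000100000000000000000000000000010000)))) (.split (nat_lit 9) (nat_lit 1) (.split (nat_lit 9) (nat_lit 8) (.st (nat_lit 0) (nat_lit 2) (nat_lit 3) (nat_lit 0x55505) (nat_lit 0x5000200040003000200010000000000040006) (nat_lit 1) (nat_lit 3) (.st (nat_lit 2) (nat_lit 1) (nat_lit 3) (nat_lit 0x45510) (nat_lit 0x1000000020003000200010000000200000000) (nat_lit 1) (nat_lit 1) (.st (nat_lit 7) (nat_lit 1) (nat_lit 3) (nat_lit 0x45410) (nat_lit 0x1000000020002000100000000000100000000) (nat_lit 1) (nat_lit 1) (.st (nat_lit 9) (nat_lit 1) (nat_lit 3) (nat_lit 0x45411) (nat_lit 0x2000000020002000100000000000100000001) (nat_lit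 1) (nat_lit 1) (.split (nat_lit 9) (nat_lit 0) (.split (nat_lit 9) (nat_lit 7) (.leaf (.cons (nat_lit 0x10014) (nat_lit 0x100000000000000000000000200020000) (.cons (nat_lit 0x1550) (nat_lit 0x2000300040003000100000000) .nil)) (.cons (nat_lit 0x1011110101) (nat_lit 0x1010) (nat_lit 0xd) (nat_lit 0x5040230106) (.cons (nat_lit 0x1011100101) (nat_lit 0x10010) (nat_lit 9) (nat_lit 0x4030200105) .nil))) (.non (nat_lit 1) (nat_lit 3) (nat_lit 0x85410) (nat_lit 0x1000000020002000100000000000100000000))) (.non (nat_lit 1) (nat_lit 3) (nat_lit 0x8a821) (nat_lit 0x2000000020002000100000000000100000002))))))) (.non (nat_lit 1) (nat_lit 3) (nat_lit 0x55411) (nat_lit 0x2000100020002000100000000000100000001))) (.non (nat_lit 2) (nat_lit 3) (nat_lit 0x40005) (nat_lit 0x1000000000000000000000000000000010001))))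

noncomputable def t185_26 : Tr := (.pd (.cons (nat_lit 1) (nat_lit 5) (nat_lit 0) (nat_lit 0x862033200) (nat_lit 0xf423ff423fb71ae00000f423f54591a2c2800000f423f) (.cons (nat_lit 1) (nat_lit 6) (nat_lit 0) (nat_lit 0x870433200) (nat_lit 0xf423ff423f00000f423fb71ae1f156f423f00000f423f) (.cons (nat_lit 2) (nat_lit 5) (nat_lit 0) (nat_lit 0x166033000) (nat_lit 0xf423ff423fb71ae00000f423f5459100000b71aea2c28) (.cons (nat_lit 2) (nat_lit 6) (nat_lit 0) (nat_lit 0x170433000) (nat_lit 0xf423ff423f00000f423fb71ae1f15600000b71aea2c28) (.cons (nat_lit 2) (nat_lit 7) (nat_lit 0) (nat_lit 0x105433000) (nat_lit 0xf423f00000f423fb71aea2c280473700000b71aea2c28) .nil))))) (.ex (nat_lit 7) (.ex (nat_lit 2) (.leaf (.cons (nat_lit 0x10014) (nat_lit 0x100000000000000000000000200020000) (.cons (nat_lit 0x1550) (nat_lit 0x2000300040003000100000000) .nil)) (.cons (nat_lit 0x11110100) (nat_lit 0x1010) (nat_lit 8) (nat_lit 0x20340100) (.cons (nat_lit 0x11100100) (nat_lit 0x10010) (nat_lit 7) (nat_lit 0x30200100)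 .nil))) (.split (nat_lit 9) (nat_lit 3) (.split (nat_lit 9) (nat_lit 4) (.split (nat_lit 9) (nat_lit 5) (.split (nat_lit 9) (nat_lit 6) (.split (nat_lit 9) (nat_lit 7) (.split (nat_lit 9) (nat_lit 0) t185_21 (.split (nat_lit 9) (nat_lit 1) (.split (nat_lit 9) (nat_lit 8) (.sup (nat_lit 0x30006000b0010000d000000000000) (nat_lit 0x2000200000000000000000000000200040003)) (.non (nat_lit 1) (nat_lit 3) (nat_lit 0x55411) (nat_lit 0x2000100010002000100000000000200000001))) (.non (nat_lit 2) (nat_lit 3) (nat_lit 0x40005) (nat_lit 0x1000000000000000000000000000000010001)))) (.non (nat_lit 1) (nat_lit 3) (nat_lit 0x45010) (nat_lit 0x1000000010001000000000000000100000000))) (.non (nat_lit 1) (nat_lit 3) (nat_lit 0x41010) (nat_lit 0x1000000000001000000000000000100000000))) (.non (nat_lit 1) (nat_lit 3) (nat_lit 0x41410) (nat_lit 0x1000000000001000100000000000100000000))) (.star (nat_lit 9) (nat_lit 2) (nat_lit 4))) (.star (nat_lit 9) (nat_lit 2) (nat_lit 3)))) (.split (nat_lit 9) (nat_lit 2) (.split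 (nat_lit 9) (nat_lit 3) (.split (nat_lit 9) (nat_lit 4) (.split (nat_lit 9) (nat_lit 5) (.split (nat_lit 9) (nat_lit 6) t185_25 (.non (nat_lit 1) (nat_lit 3) (nat_lit 0x45000) (nat_lit 0x1000000010001000000000000000000000000))) (.non (nat_lit 1) (nat_lit 3) (nat_lit 0x45400) (nat_lit 0x1000000010001000100000000000000000000))) (.non (nat_lit 1) (nat_lit 3) (nat_lit 0x45500) (nat_lit 0x1000000010001000100010000000000000000))) (.non (nat_lit 1) (nat_lit 5) (nat_lit 0x45140) (nat_lit 0x3000000020001000000030004000000000000))) (.non (nat_lit 1) (nat_lit 3) (nat_lit 0x45010) (nat_lit 0x1000000010001000000000000000100000000)))))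

noncomputable def t185_27 : Tr := (.ex (nat_lit 3) (.ex (nat_lit 4) (.split (nat_lit 6) (nat_lit 2) (.split (nat_lit 7) (nat_lit 6) (.split (nat_lit 8) (nat_lit 1) t185_26 (.sup (nat_lit 0x6000d00160020001a000000000000) (nat_lit 0x7000000000000000000000003000a0005))) (.non (nat_lit 1) (nat_lit 3) (nat_lit 0x9410) (nat_lit 0x10002000100000000000100000000))) (.non (nat_lit 1) (nat_lit 3) (nat_lit 0xa810) (nat_lit 0x10002000100000000000200000000))) (.split (nat_lit 9) (nat_lit 1) (.split (nat_lit 9) (nat_lit 2) (.split (nat_lit 9) (nat_lit 5) (.split (nat_lit 9) (nat_lit 6) (.split (nat_lit 9) (nat_lit 7) (.split (nat_lit 9) (nat_lit 0) (.split (nat_lit 9) (nat_lit 3) (.split (nat_lit 9) (nat_lit 8) (.unj (nat_lit 0x15) (nat_lit 0x200020001) (nat_lit 0x40540) (nat_lit 0x1000000000000000100020002000000000000)) (.unj (nat_lit 0x15) (nat_lit 0x200020001) (nat_lit 0x40540) (nat_lit 0x1000000000000000100020002000000000000))) (.split (nat_lit 9) (nat_lit 8) (.unj (nat_lit 0x15) (nat_lit 0x200020001)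 (nat_lit 0x40140) (nat_lit 0x1000000000000000000010001000000000000)) (.unj (nat_lit 0x15) (nat_lit 0x200020001) (nat_lit 0x40140) (nat_lit 0x1000000000000000000010001000000000000)))) (.split (nat_lit 9) (nat_lit 8) (.split (nat_lit 9) (nat_lit 3) (.unj (nat_lit 0x10014) (nat_lit 0x100000000000000000000000200020000) (nat_lit 0x40540) (nat_lit 0x1000000000000000100020002000000000000)) (.unj (nat_lit 0x1014) (nat_lit 0x1000000000000000200020000) (nat_lit 0x40140) (nat_lit 0x1000000000000000000010001000000000000))) (.non (nat_lit 1) (nat_lit 3) (nat_lit 0x55511) (nat_lit 0x2000100010002000200020000000100000001)))) (.non (nat_lit 1) (nat_lit 3) (nat_lit 0x45500) (nat_lit 0x1000000010001000100010000000000000000))) (.non (nat_lit 1) (nat_lit 3) (nat_lit 0x41500) (nat_lit 0x1000000000001000100010000000000000000))) (.non (nat_lit 1) (nat_lit 3) (nat_lit 0x40500) (nat_lit 0x1000000000000000100010000000000000000))) (.star (nat_lit 9) (nat_lit 2) (nat_lit 4))) (.star (nat_lit 9) (nat_lit 1) (nat_lit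 4)))) (.split (nat_lit 9) (nat_lit 1) (.split (nat_lit 9) (nat_lit 2) (.split (nat_lit 9) (nat_lit 5) (.split (nat_lit 9) (nat_lit 6) (.split (nat_lit 9) (nat_lit 0) (.split (nat_lit 9) (nat_lit 4) (.split (nat_lit 9) (nat_lit 7) (.split (nat_lit 9) (nat_lit 8) (.unj (nat_lit 0x15) (nat_lit 0x200020001) (nat_lit 0x40540) (nat_lit 0x1000000000000000100020002000000000000)) (.unj (nat_lit 0x15) (nat_lit 0x200020001) (nat_lit 0x40540) (nat_lit 0x1000000000000000100020002000000000000))) (.split (nat_lit 9) (nat_lit 8) (.unj (nat_lit 0x15) (nat_lit 0x200020001) (nat_lit 0x40540) (nat_lit 0x1000000000000000100020002000000000000)) (.non (nat_lit 1) (nat_lit 4) (nat_lit 0x55450) (nat_lit 0x2000100020002000100000001000100000000)))) (.split (nat_lit 9) (nat_lit 7) (.split (nat_lit 9) (nat_lit 8) (.unj (nat_lit 0x15) (nat_lit 0x200020001) (nat_lit 0x40140) (nat_lit 0x1000000000000000000010001000000000000)) (.unj (nat_lit 0x15) (nat_lit 0x200020001) (nat_lit 0x40140) (nat_lit 0x1000000000000000000010001000000000000)))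 (.non (nat_lit 1) (nat_lit 3) (nat_lit 0x45500) (nat_lit 0x1000000010001000100010000000000000000)))) (.split (nat_lit 9) (nat_lit 7) (.split (nat_lit 9) (nat_lit 8) (.split (nat_lit 9) (nat_lit 4) (.unj (nat_lit 0x10014) (nat_lit 0x100000000000000000000000200020000) (nat_lit 0x40540) (nat_lit 0x1000000000000000100020002000000000000)) (.unj (nat_lit 0x1014) (nat_lit 0x1000000000000000200020000) (nat_lit 0x40140) (nat_lit 0x1000000000000000000010001000000000000))) (.non (nat_lit 2) (nat_lit 3) (nat_lit 0x50005) (nat_lit 0x1000100000000000000000000000000010001))) (.non (nat_lit 1) (nat_lit 4) (nat_lit 0x45451) (nat_lit 0x2000000020002000100000001000100000001)))) (.non (nat_lit 1) (nat_lit 3) (nat_lit 0x45410) (nat_lit 0x1000000010002000100000000000100000000))) (.non (nat_lit 1) (nat_lit 3) (nat_lit 0x45510) (nat_lit 0x1000000010002000200010000000100000000))) (.star (nat_lit 9) (nat_lit 2) (nat_lit 3))) (.star (nat_lit 9) (nat_lit 1) (nat_lit 3))))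

noncomputable def t185_28 : Tr := (.pd (.cons (nat_lit 1) (nat_lit 5) (nat_lit 0) (nat_lit 0x762033200) (nat_lit 0xf423fb71aea2c2800000f423f545919896500000f423f) (.cons (nat_lit 1) (nat_lit 6) (nat_lit 0) (nat_lit 0x770433200) (nat_lit 0xf423fb71ae00000f423fb71ae1f156f423f00000f423f) (.cons (nat_lit 2) (nat_lit 5) (nat_lit 0) (nat_lit 0x187033000) (nat_lit 0xa2c28b71aef423f00000f423f545910000098965927bd) (.cons (nat_lit 2) (nat_lit 6) (nat_lit 0) (nat_lit 0x180433000) (nat_lit 0xb71aef423f00000f423fb71ae1f15600000a2c2898965) (.cons (nat_lit 2) (nat_lit 7) (nat_lit 0) (nat_lit 0x105433000) (nat_lit 0xf423f00000f423fb71aea2c280473700000b71aea2c28) .nil))))) (.ex (nat_lit 8) (.leaf (.cons (nat_lit 0x10014) (nat_lit 0x100000000000000000000000200020000) (.cons (nat_lit 0x1550) (nat_lit 0x2000300040003000100000000) .nil)) (.cons (nat_lit 0x111110100) (nat_lit 0x1010) (nat_lit 0xc) (nat_lit 0x540230100) .nil)) (.split (nat_lit 9) (nat_lit 0) (.split (nat_lit 9) (nat_lit 1) (.split (nat_lit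 9) (nat_lit 2) (.split (nat_lit 9) (nat_lit 3) (.split (nat_lit 9) (nat_lit 4) (.split (nat_lit 9) (nat_lit 5) (.split (nat_lit 9) (nat_lit 6) (.split (nat_lit 9) (nat_lit 7) (.st (nat_lit 0) (nat_lit 2) (nat_lit 3) (nat_lit 0x55405) (nat_lit 0x2000400030002000100000000000000030002) (nat_lit 1) (nat_lit 1) (.st (nat_lit 1) (nat_lit 2) (nat_lit 3) (nat_lit 0x54005) (nat_lit 0x1000200010000000000000000000000020001) (nat_lit 1) (nat_lit 1) (.st (nat_lit 8) (nat_lit 1) (nat_lit 3) (nat_lit 0x55410) (nat_lit 0x1000200020002000100000000000100000000) (nat_lit 1) (nat_lit 1) (.st (nat_lit 9) (nat_lit 2) (nat_lit 3) (nat_lit 0x55005) (nat_lit 0x2000300020001000000000000000000020001) (nat_lit 1) (nat_lit 1) (.split (nat_lit 9) (nat_lit 8) (.leaf (.cons (nat_lit 0x10014) (nat_lit 0x100000000000000000000000200020000) (.cons (nat_lit 0x1550) (nat_lit 0x2000300040003000100000000) .nil)) (.cons (nat_lit 0x1111110100) (nat_lit 0x1010) (nat_lit 0xd) (nat_lit 0x6540230100) (.cons (nat_lit 0x1111100100)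 (nat_lit 0x10010) (nat_lit 9) (nat_lit 0x5430200100) .nil))) (.non (nat_lit 1) (nat_lit 3) (nat_lit 0x95410) (nat_lit 0x1000200020002000100000000000100000000))))))) (.non (nat_lit 1) (nat_lit 3) (nat_lit 0x54000) (nat_lit 0x1000100010000000000000000000000000000))) (.non (nat_lit 1) (nat_lit 3) (nat_lit 0x55000) (nat_lit 0x1000100010001000000000000000000000000))) (.non (nat_lit 1) (nat_lit 3) (nat_lit 0x55400) (nat_lit 0x1000100010001000100000000000000000000))) (.non (nat_lit 1) (nat_lit 3) (nat_lit 0x55500) (nat_lit 0x1000100010001000100010000000000000000))) (.non (nat_lit 2) (nat_lit 4) (nat_lit 0x55045) (nat_lit 0x2000300020001000000000001000000020001))) (.non (nat_lit 1) (nat_lit 3) (nat_lit 0x55010) (nat_lit 0x1000100010001000000000000000100000000))) (.non (nat_lit 2) (nat_lit 3) (nat_lit 0x50004) (nat_lit 0x1000100000000000000000000000000010000))) (.non (nat_lit 2) (nat_lit 3) (nat_lit 0x50005) (nat_lit 0x1000100000000000000000000000000010001)))))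

noncomputable def t185_29 : Tr := (.ex (nat_lit 3) (.ex (nat_lit 4) (.split (nat_lit 6) (nat_lit 2) (.split (nat_lit 7) (nat_lit 6) (.split (nat_lit 8) (nat_lit 7) (.split (nat_lit 8) (nat_lit 1) t185_28 (.non (nat_lit 2) (nat_lit 3) (nat_lit 0x2a005) (nat_lit 0x300020001000000000000000000040002))) (.non (nat_lit 1) (nat_lit 3) (nat_lit 0x25410) (nat_lit 0x100020002000100000000000100000000))) (.non (nat_lit 1) (nat_lit 3) (nat_lit 0x29500) (nat_lit 0x100020003000200010000000000000000))) (.non (nat_lit 1) (nat_lit 3) (nat_lit 0xa810) (nat_lit 0x10002000100000000000200000000))) (.split (nat_lit 9) (nat_lit 0) (.split (nat_lit 9) (nat_lit 1) (.split (nat_lit 9) (nat_lit 2) (.split (nat_lit 9) (nat_lit 5) (.split (nat_lit 9) (nat_lit 6) (.split (nat_lit 9) (nat_lit 7) (.split (nat_lit 9) (nat_lit 8) (.split (nat_lit 9) (nat_lit 3) (.unj (nat_lit 0x15) (nat_lit 0x200020001) (nat_lit 0x40540) (nat_lit 0x1000000000000000100020002000000000000)) (.unj (nat_lit 0x15) (nat_lit 0x200020001) (nat_lit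 0x40140) (nat_lit 0x1000000000000000000010001000000000000))) (.non (nat_lit 1) (nat_lit 3) (nat_lit 0x55500) (nat_lit 0x1000100010001000100010000000000000000))) (.non (nat_lit 1) (nat_lit 3) (nat_lit 0x45500) (nat_lit 0x1000000010001000100010000000000000000))) (.non (nat_lit 1) (nat_lit 3) (nat_lit 0x41500) (nat_lit 0x1000000000001000100010000000000000000))) (.non (nat_lit 1) (nat_lit 3) (nat_lit 0x40500) (nat_lit 0x1000000000000000100010000000000000000))) (.star (nat_lit 9) (nat_lit 2) (nat_lit 4))) (.star (nat_lit 9) (nat_lit 1) (nat_lit 4))) (.non (nat_lit 2) (nat_lit 3) (nat_lit 0x55505) (nat_lit 0x1000100010001000100010000000000010001)))) (.split (nat_lit 9) (nat_lit 1) (.split (nat_lit 9) (nat_lit 2) (.split (nat_lit 9) (nat_lit 5) (.split (nat_lit 9) (nat_lit 6) (.split (nat_lit 9) (nat_lit 7) (.split (nat_lit 9) (nat_lit 8) (.split (nat_lit 9) (nat_lit 0) (.split (nat_lit 9) (nat_lit 4) (.unj (nat_lit 0x15) (nat_lit 0x200020001) (nat_lit 0x40540) (nat_lit 0x1000000000000000100020002000000000000))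 (.unj (nat_lit 0x15) (nat_lit 0x200020001) (nat_lit 0x40140) (nat_lit 0x1000000000000000000010001000000000000))) (.split (nat_lit 9) (nat_lit 4) (.unj (nat_lit 0x10014) (nat_lit 0x100000000000000000000000200020000) (nat_lit 0x40540) (nat_lit 0x1000000000000000100020002000000000000)) (.non (nat_lit 2) (nat_lit 3) (nat_lit 0x55505) (nat_lit 0x1000100010001000100010000000000010001)))) (.non (nat_lit 2) (nat_lit 4) (nat_lit 0x55045) (nat_lit 0x2000300020001000000000001000000020001))) (.non (nat_lit 1) (nat_lit 3) (nat_lit 0x55410) (nat_lit 0x1000100020002000100000000000100000000))) (.non (nat_lit 1) (nat_lit 3) (nat_lit 0x45410) (nat_lit 0x1000000010002000100000000000100000000))) (.non (nat_lit 1) (nat_lit 3) (nat_lit 0x45510) (nat_lit 0x1000000010002000200010000000100000000))) (.star (nat_lit 9) (nat_lit 2) (nat_lit 3))) (.star (nat_lit 9) (nat_lit 1) (nat_lit 3))))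

noncomputable def t185_30 : Tr := (.ex (nat_lit 1) (.ex (nat_lit 2) t185_12 (.split (nat_lit 8) (nat_lit 3) (.split (nat_lit 8) (nat_lit 4) (.split (nat_lit 8) (nat_lit 5) (.split (nat_lit 8) (nat_lit 6) (.split (nat_lit 8) (nat_lit 7) t185_19 (.non (nat_lit 1) (nat_lit 3) (nat_lit 0x15010) (nat_lit 0x100010001000000000000000100000000))) (.non (nat_lit 1) (nat_lit 3) (nat_lit 0x11010) (nat_lit 0x100000001000000000000000100000000))) (.non (nat_lit 1) (nat_lit 3) (nat_lit 0x11410) (nat_lit 0x100000001000100000000000100000000))) (.star (nat_lit 8) (nat_lit 2) (nat_lit 4))) (.star (nat_lit 8) (nat_lit 2) (nat_lit 3)))) (.split (nat_lit 8) (nat_lit 0) (.split (nat_lit 8) (nat_lit 3) (.split (nat_lit 8) (nat_lit 4) (.split (nat_lit 8) (nat_lit 5) (.split (nat_lit 8) (nat_lit 6) (.split (nat_lit 8) (nat_lit 2) (.split (nat_lit 8) (nat_lit 7) t185_27 (.st (nat_lit 2) (nat_lit 1) (nat_lit 3) (nat_lit 0x15510) (nat_lit 0x100020003000200010000000200000000) (nat_lit 1) (nat_lit 1) (.st (nat_lit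 7) (nat_lit 1) (nat_lit 3) (nat_lit 0x15410) (nat_lit 0x100020002000100000000000100000000) (nat_lit 1) (nat_lit 1) t185_29))) (.split (nat_lit 8) (nat_lit 7) (.split (nat_lit 8) (nat_lit 1) (.split (nat_lit 8) (nat_lit 2) (.split (nat_lit 7) (nat_lit 6) (.split (nat_lit 6) (nat_lit 2) (.sup (nat_lit 0x30006000b0010000d000000000000) (nat_lit 0x300000000000000000000000200040002)) (.non (nat_lit 1) (nat_lit 3) (nat_lit 0xa810) (nat_lit 0x10002000100000000000200000000))) (.non (nat_lit 1) (nat_lit 3) (nat_lit 0x9410) (nat_lit 0x10002000100000000000100000000))) (.non (nat_lit 1) (nat_lit 3) (nat_lit 0x25410) (nat_lit 0x100010002000100000000000200000000))) (.split (nat_lit 8) (nat_lit 1) (.split (nat_lit 8) (nat_lit 2) (.split (nat_lit 7) (nat_lit 6) (.split (nat_lit 6) (nat_lit 2) (.sup (nat_lit 0x9000000000000000000000004000a0000) (nat_lit 0x200040007000a0008000000000000)) (.non (nat_lit 1) (nat_lit 3) (nat_lit 0xa810) (nat_lit 0x10002000100000000000200000000))) (.non (nat_lit 1) (nat_lit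 3) (nat_lit 0x9410) (nat_lit 0x10002000100000000000100000000))) (.non (nat_lit 1) (nat_lit 3) (nat_lit 0x25410) (nat_lit 0x100010002000100000000000200000000))) (.sup (nat_lit 0x7000f00170020001a000000000000) (nat_lit 0x500000000000000000000000100060003)))) (.non (nat_lit 1) (nat_lit 3) (nat_lit 0x15010) (nat_lit 0x100010001000000000000000100000000)))) (.non (nat_lit 1) (nat_lit 3) (nat_lit 0x15410) (nat_lit 0x100010002000100000000000100000000))) (.non (nat_lit 1) (nat_lit 3) (nat_lit 0x15510) (nat_lit 0x100010002000200010000000100000000))) (.star (nat_lit 8) (nat_lit 1) (nat_lit 4))) (.star (nat_lit 8) (nat_lit 1) (nat_lit 3))) (.non (nat_lit 2) (nat_lit 3) (nat_lit 0x10005) (nat_lit 0x100000000000000000000000000010001))))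

noncomputable def t185_31 : Tr := (.split (nat_lit 8) (nat_lit 6) (.split (nat_lit 8) (nat_lit 7) (.st (nat_lit 0) (nat_lit 2) (nat_lit 3) (nat_lit 0x15405) (nat_lit 0x100010002000100000000000000020002) (nat_lit 1) (nat_lit 1) (.split (nat_lit 8) (nat_lit 0) (.ex (nat_lit 8) (.leaf (.cons (nat_lit 0x1014) (nat_lit 0x1000000000000000200020000) (.cons (nat_lit 0x1544) (nat_lit 0x2000300040003000000010000) .nil)) (.cons (nat_lit 0x111000011) (nat_lit 0x100100) (nat_lit 3) (nat_lit 0x401000023) .nil)) (.split (nat_lit 9) (nat_lit 0) (.split (nat_lit 9) (nat_lit 1) (.split (nat_lit 9) (nat_lit 2) (.split (nat_lit 9) (nat_lit 3) (.split (nat_lit 9) (nat_lit 4) (.split (nat_lit 9) (nat_lit 5) (.split (nat_lit 9) (nat_lit 6) (.split (nat_lit 9) (nat_lit 7) (.st (nat_lit 8) (nat_lit 2) (nat_lit 3) (nat_lit 0x55405) (nat_lit 0x1000200010002000100000000000000020002) (nat_lit 1) (nat_lit 1) (.st (nat_lit 9) (nat_lit 2) (nat_lit 3) (nat_lit 0x55505) (nat_lit 0x2000300030006000400020000000000050004)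 (nat_lit 1) (nat_lit 1) (.split (nat_lit 9) (nat_lit 8) (.leaf (.cons (nat_lit 0x1014) (nat_lit 0x1000000000000000200020000) (.cons (nat_lit 0x1544) (nat_lit 0x2000300040003000000010000) .nil)) (.cons (nat_lit 0x1111110011) (nat_lit 0x1100) (nat_lit 0xe) (nat_lit 0x7610230045) (.cons (nat_lit 0x1111100011) (nat_lit 0x10100) (nat_lit 0xa) (nat_lit 0x6520100034) .nil))) (.non (nat_lit 2) (nat_lit 3) (nat_lit 0x95405) (nat_lit 0x1000200010002000100000000000000020002))))) (.non (nat_lit 2) (nat_lit 3) (nat_lit 0x55005) (nat_lit 0x1000100010001000000000000000000010001))) (.non (nat_lit 2) (nat_lit 3) (nat_lit 0x45404) (nat_lit 0x1000000010002000100000000000000010000))) (.non (nat_lit 2) (nat_lit 3) (nat_lit 0x45504) (nat_lit 0x1000000010002000200010000000000010000))) (.non (nat_lit 2) (nat_lit 3) (nat_lit 0x51505) (nat_lit 0x1000100000001000100010000000000010001))) (.non (nat_lit 0) (nat_lit 6) (nat_lit 0x40540) (nat_lit 0x1000000000000000100020002000000000000))) (.non (nat_lit 0) (nat_lit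 6) (nat_lit 0x40014) (nat_lit 0x1000000000000000000000000000200020000))) (.non (nat_lit 2) (nat_lit 3) (nat_lit 0x50005) (nat_lit 0x1000100000000000000000000000000010001))) (.non (nat_lit 1) (nat_lit 3) (nat_lit 0x50001) (nat_lit 0x1000100000000000000000000000000000001)))) (.non (nat_lit 2) (nat_lit 3) (nat_lit 0x25405) (nat_lit 0x100010002000100000000000000020002)))) (.non (nat_lit 2) (nat_lit 3) (nat_lit 0x15005) (nat_lit 0x100010001000000000000000000010001))) (.non (nat_lit 2) (nat_lit 3) (nat_lit 0x15404) (nat_lit 0x100010002000100000000000000010000)))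

noncomputable def t185_32 : Tr := (.ex (nat_lit 4) (.split (nat_lit 6) (nat_lit 1) (.split (nat_lit 7) (nat_lit 6) (.pd (.cons (nat_lit 0) (nat_lit 6) (nat_lit 0x110) (nat_lit 0x70433120) (nat_lit 0xf423f00000f423fb71ae1f156000010000100000) (.cons (nat_lit 1) (nat_lit 5) (nat_lit 0) (nat_lit 0x66033200) (nat_lit 0xf423fb71ae00000f423f54591f423f00000f423f) (.cons (nat_lit 1) (nat_lit 6) (nat_lit 0) (nat_lit 0x70433200) (nat_lit 0xf423f00000f423fb71ae1f156f423f00000f423f) (.cons (nat_lit 1) (nat_lit 7) (nat_lit 0) (nat_lit 0x5433200) (nat_lit 0xf423fb71aea2c2804737f423f00000f423f) (.cons (nat_lit 2) (nat_lit 5) (nat_lit 0) (nat_lit 0x61033000) (nat_lit 0xf423fb71ae00000f423f5459100000a2c2898965) (.cons (nat_lit 2) (nat_lit 6) (nat_lit 0) (nat_lit 0x70433000) (nat_lit 0xf423f00000f423fb71ae1f15600000f423fb71ae) .nil)))))) (.ex (nat_lit 0) (.leaf (.cons (nat_lit 0x1014) (nat_lit 0x1000000000000000200020000) (.cons (nat_lit 0x1544) (nat_lit 0x2000300040003000000010000) .nil)) (.cons (nat_lit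 0x11000011) (nat_lit 0x100100) (nat_lit 2) (nat_lit 0x32000010) .nil)) (.split (nat_lit 8) (nat_lit 1) (.split (nat_lit 8) (nat_lit 2) (.split (nat_lit 8) (nat_lit 3) (.split (nat_lit 8) (nat_lit 4) (.split (nat_lit 8) (nat_lit 5) t185_31 (.non (nat_lit 2) (nat_lit 3) (nat_lit 0x15504) (nat_lit 0x100010002000200010000000000010000))) (.non (nat_lit 2) (nat_lit 3) (nat_lit 0x11505) (nat_lit 0x100000001000100010000000000010001))) (.non (nat_lit 0) (nat_lit 6) (nat_lit 0x10540) (nat_lit 0x100000000000100020002000000000000))) (.non (nat_lit 0) (nat_lit 6) (nat_lit 0x10014) (nat_lit 0x100000000000000000000000200020000))) (.non (nat_lit 2) (nat_lit 3) (nat_lit 0x10005) (nat_lit 0x100000000000000000000000000010001))))) (.non (nat_lit 2) (nat_lit 3) (nat_lit 0x9404) (nat_lit 0x10002000100000000000000010000))) (.non (nat_lit 2) (nat_lit 3) (nat_lit 0xa804) (nat_lit 0x10002000100000000000000020000))) (.split (nat_lit 8) (nat_lit 0) (.split (nat_lit 8) (nat_lit 1) (.split (nat_lit 8) (nat_lit 2)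 (.split (nat_lit 8) (nat_lit 5) (.split (nat_lit 8) (nat_lit 6) (.split (nat_lit 8) (nat_lit 7) (.split (nat_lit 8) (nat_lit 3) (.unj (nat_lit 0x15) (nat_lit 0x200020001) (nat_lit 0x10540) (nat_lit 0x100000000000100020002000000000000)) (.unj (nat_lit 0x15) (nat_lit 0x200020001) (nat_lit 0x10140) (nat_lit 0x100000000000000010001000000000000))) (.non (nat_lit 1) (nat_lit 3) (nat_lit 0x15500) (nat_lit 0x100010001000100010000000000000000))) (.non (nat_lit 1) (nat_lit 3) (nat_lit 0x11500) (nat_lit 0x100000001000100010000000000000000))) (.non (nat_lit 1) (nat_lit 3) (nat_lit 0x10500) (nat_lit 0x100000000000100010000000000000000))) (.star (nat_lit 8) (nat_lit 2) (nat_lit 4))) (.star (nat_lit 8) (nat_lit 1) (nat_lit 4))) (.non (nat_lit 2) (nat_lit 3) (nat_lit 0x11505) (nat_lit 0x100000001000100010000000000010001))))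

noncomputable def t185_33 : Tr := (.st (nat_lit 0) (nat_lit 2) (nat_lit 3) (nat_lit 0x45405) (nat_lit 0x1000000010002000100000000000000020002) (nat_lit 1) (nat_lit 1) (.split (nat_lit 9) (nat_lit 0) (.ex (nat_lit 9) (.leaf (.cons (nat_lit 0x10014) (nat_lit 0x100000000000000000000000200020000) (.cons (nat_lit 0x1544) (nat_lit 0x2000300040003000000010000) .nil)) (.cons (nat_lit 0x1011000011) (nat_lit 0x100100) (nat_lit 3) (nat_lit 0x4001000023) .nil)) (.split (nat_lit 0xa) (nat_lit 0) (.split (nat_lit 0xa) (nat_lit 1) (.split (nat_lit 0xa) (nat_lit 3) (.split (nat_lit 0xa) (nat_lit 4) (.split (nat_lit 0xa) (nat_lit 5) (.split (nat_lit 0xa) (nat_lit 6) (.split (nat_lit 0xa) (nat_lit 7) (.split (nat_lit 0xa) (nat_lit 8) (.split (nat_lit 0xa) (nat_lit 2) (.st (nat_lit 9) (nat_lit 2) (nat_lit 3) (nat_lit 0x145405) (nat_lit 0x10002000000010002000100000000000000020002) (nat_lit 1) (nat_lit 1) (.st (nat_lit 0xa) (nat_lit 2) (nat_lit 3) (nat_lit 0x145505) (nat_lit 0x20003000000030006000400020000000000050004)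 (nat_lit 1) (nat_lit 1) (.split (nat_lit 0xa) (nat_lit 9) (.leaf (.cons (nat_lit 0x10014) (nat_lit 0x100000000000000000000000200020000) (.cons (nat_lit 0x1544) (nat_lit 0x2000300040003000000010000) .nil)) (.cons (nat_lit 0x11011110011) (nat_lit 0x1100) (nat_lit 0xe) (nat_lit 0x76010230045) (.cons (nat_lit 0x11011100011) (nat_lit 0x10100) (nat_lit 0xa) (nat_lit 0x65020100034) .nil))) (.non (nat_lit 2) (nat_lit 3) (nat_lit 0x245405) (nat_lit 0x10002000000010002000100000000000000020002))))) (.sup (nat_lit 0x30006000b0010000d000000000000) (nat_lit 0x30003000200000000000000000000000400020002))) (.non (nat_lit 2) (nat_lit 3) (nat_lit 0x155505) (nat_lit 0x20003000100030006000400020000000000050004))) (.non (nat_lit 2) (nat_lit 3) (nat_lit 0x145005) (nat_lit 0x10001000000010001000000000000000000010001))) (.non (nat_lit 2) (nat_lit 3) (nat_lit 0x105404) (nat_lit 0x10000000000010002000100000000000000010000))) (.non (nat_lit 2) (nat_lit 3) (nat_lit 0x105504) (nat_lit 0x10000000000010002000200010000000000010000)))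 (.non (nat_lit 2) (nat_lit 3) (nat_lit 0x141505) (nat_lit 0x10001000000000001000100010000000000010001))) (.non (nat_lit 1) (nat_lit 5) (nat_lit 0x140141) (nat_lit 0x30002000000000000000000030004000000000001))) (.non (nat_lit 2) (nat_lit 3) (nat_lit 0x140005) (nat_lit 0x10001000000000000000000000000000000010001))) (.non (nat_lit 1) (nat_lit 3) (nat_lit 0x140001) (nat_lit 0x10001000000000000000000000000000000000001)))) (.non (nat_lit 2) (nat_lit 3) (nat_lit 0x85405) (nat_lit 0x1000000010002000100000000000000020002))))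

noncomputable def t185_34 : Tr := (.st (nat_lit 0) (nat_lit 2) (nat_lit 3) (nat_lit 0x45405) (nat_lit 0x1000000010002000100000000000000020002) (nat_lit 1) (nat_lit 1) (.split (nat_lit 9) (nat_lit 0) (.ex (nat_lit 9) (.leaf (.cons (nat_lit 0x10014) (nat_lit 0x100000000000000000000000100010000) (.cons (nat_lit 0x1544) (nat_lit 0x2000300040003000000010000) .nil)) (.cons (nat_lit 0x1011000011) (nat_lit 0x100100) (nat_lit 3) (nat_lit 0x4001000023) .nil)) (.split (nat_lit 0xa) (nat_lit 0) (.split (nat_lit 0xa) (nat_lit 1) (.split (nat_lit 0xa) (nat_lit 3) (.split (nat_lit 0xa) (nat_lit 4) (.split (nat_lit 0xa) (nat_lit 5) (.split (nat_lit 0xa) (nat_lit 6) (.split (nat_lit 0xa) (nat_lit 7) (.split (nat_lit 0xa) (nat_lit 8) (.split (nat_lit 0xa) (nat_lit 2) (.st (nat_lit 9) (nat_lit 2) (nat_lit 3) (nat_lit 0x145405) (nat_lit 0x10002000000010002000100000000000000020002) (nat_lit 1) (nat_lit 1) (.st (nat_lit 0xa) (nat_lit 2) (nat_lit 3) (nat_lit 0x145505) (nat_lit 0x20003000000030006000400020000000000050004)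 (nat_lit 1) (nat_lit 1) (.split (nat_lit 0xa) (nat_lit 9) (.leaf (.cons (nat_lit 0x10014) (nat_lit 0x100000000000000000000000100010000) (.cons (nat_lit 0x1544) (nat_lit 0x2000300040003000000010000) .nil)) (.cons (nat_lit 0x11011110011) (nat_lit 0x1100) (nat_lit 0xe) (nat_lit 0x76010230045) (.cons (nat_lit 0x11011100011) (nat_lit 0x10100) (nat_lit 0xa) (nat_lit 0x65020100034) .nil))) (.non (nat_lit 2) (nat_lit 3) (nat_lit 0x245405) (nat_lit 0x10002000000010002000100000000000000020002))))) (.sup (nat_lit 0x40007000c0010000d000000000000) (nat_lit 0x30002000300000000000000000000000400010001))) (.non (nat_lit 2) (nat_lit 3) (nat_lit 0x155505) (nat_lit 0x20003000100030006000400020000000000050004))) (.non (nat_lit 2) (nat_lit 3) (nat_lit 0x145005) (nat_lit 0x10001000000010001000000000000000000010001))) (.non (nat_lit 2) (nat_lit 3) (nat_lit 0x105404) (nat_lit 0x10000000000010002000100000000000000010000))) (.non (nat_lit 2) (nat_lit 3) (nat_lit 0x105504) (nat_lit 0x10000000000010002000200010000000000010000)))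 (.non (nat_lit 2) (nat_lit 3) (nat_lit 0x141505) (nat_lit 0x10001000000000001000100010000000000010001))) (.non (nat_lit 1) (nat_lit 5) (nat_lit 0x140141) (nat_lit 0x30002000000000000000000030004000000000001))) (.non (nat_lit 2) (nat_lit 3) (nat_lit 0x140005) (nat_lit 0x10001000000000000000000000000000000010001))) (.non (nat_lit 1) (nat_lit 3) (nat_lit 0x140001) (nat_lit 0x10001000000000000000000000000000000000001)))) (.non (nat_lit 2) (nat_lit 3) (nat_lit 0x85405) (nat_lit 0x1000000010002000100000000000000020002))))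

noncomputable def t185_35 : Tr := (.split (nat_lit 8) (nat_lit 2) (.ex (nat_lit 0) (.leaf (.cons (nat_lit 0x10014) (nat_lit 0x100000000000000000000000100010000) (.cons (nat_lit 0x1544) (nat_lit 0x2000300040003000000010000) .nil)) (.cons (nat_lit 0x11000011) (nat_lit 0x100100) (nat_lit 2) (nat_lit 0x32000010) .nil)) (.split (nat_lit 9) (nat_lit 1) (.split (nat_lit 9) (nat_lit 3) (.split (nat_lit 9) (nat_lit 4) (.split (nat_lit 9) (nat_lit 5) (.split (nat_lit 9) (nat_lit 6) (.split (nat_lit 9) (nat_lit 7) (.split (nat_lit 9) (nat_lit 2) (.split (nat_lit 9) (nat_lit 8) t185_34 (.sup (nat_lit 0x30007000b0010000d000000000000) (nat_lit 0x3000400000000000000000000000400010002))) (.split (nat_lit 9) (nat_lit 8) (.sup (nat_lit 0x40007000b0010000d000000000000) (nat_lit 0x3000300000000000000000000000400010002)) (.non (nat_lit 1) (nat_lit 3) (nat_lit 0x50010) (nat_lit 0x1000100000000000000000000000100000000)))) (.non (nat_lit 2) (nat_lit 3) (nat_lit 0x45005) (nat_lit 0x1000000010001000000000000000000010001)))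 (.non (nat_lit 2) (nat_lit 3) (nat_lit 0x45404) (nat_lit 0x1000000010002000100000000000000010000))) (.non (nat_lit 2) (nat_lit 3) (nat_lit 0x45504) (nat_lit 0x1000000010002000200010000000000010000))) (.non (nat_lit 2) (nat_lit 3) (nat_lit 0x41505) (nat_lit 0x1000000000001000100010000000000010001))) (.non (nat_lit 1) (nat_lit 6) (nat_lit 0x40540) (nat_lit 0x1000000000000000100020002000000000000))) (.non (nat_lit 2) (nat_lit 3) (nat_lit 0x40005) (nat_lit 0x1000000000000000000000000000000010001)))) (.split (nat_lit 8) (nat_lit 2) (.ex (nat_lit 0) (.leaf (.cons (nat_lit 0x10014) (nat_lit 0x100000000000000000000000100010000) (.cons (nat_lit 0x1544) (nat_lit 0x2000300040003000000010000) .nil)) (.cons (nat_lit 0x11000011) (nat_lit 0x100100) (nat_lit 2) (nat_lit 0x32000010) .nil)) (.split (nat_lit 9) (nat_lit 1) (.split (nat_lit 9) (nat_lit 3) (.split (nat_lit 9) (nat_lit 4) (.split (nat_lit 9) (nat_lit 5) (.split (nat_lit 9) (nat_lit 6) (.split (nat_lit 9) (nat_lit 7) (.split (nat_lit 9) (nat_lit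 2) (.split (nat_lit 9) (nat_lit 8) (.sup (nat_lit 0x6000c00160020001a000000000000) (nat_lit 0x1000800000000000000000000000a00040002)) (.sup (nat_lit 0xf001e002e00400033000000000000) (nat_lit 0xb001100000000000000000000000e00010006))) (.split (nat_lit 9) (nat_lit 8) (.sup (nat_lit 0x1e003c005d00800066000000000000) (nat_lit 0x13001700000000000000000000001d0001000a)) (.non (nat_lit 1) (nat_lit 3) (nat_lit 0x50010) (nat_lit 0x1000100000000000000000000000100000000)))) (.non (nat_lit 2) (nat_lit 3) (nat_lit 0x45005) (nat_lit 0x1000000010001000000000000000000010001))) (.non (nat_lit 2) (nat_lit 3) (nat_lit 0x45404) (nat_lit 0x1000000010002000100000000000000010000))) (.non (nat_lit 2) (nat_lit 3) (nat_lit 0x45504) (nat_lit 0x1000000010002000200010000000000010000))) (.non (nat_lit 2) (nat_lit 3) (nat_lit 0x41505) (nat_lit 0x1000000000001000100010000000000010001))) (.non (nat_lit 1) (nat_lit 6) (nat_lit 0x40540) (nat_lit 0x1000000000000000100020002000000000000))) (.non (nat_lit 2) (nat_lit 3)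 (nat_lit 0x40005) (nat_lit 0x1000000000000000000000000000000010001)))) (.sup (nat_lit 0x900000000000000000000000a00030000) (nat_lit 0x200040007000a0008000000000000))))

noncomputable def t185_36 : Tr := (.pd (.cons (nat_lit 1) (nat_lit 5) (nat_lit 0x100000100) (nat_lit 0x266033800) (nat_lit 0x1f423fb71ae00000f423f545910000100000f423f) (.cons (nat_lit 1) (nat_lit 6) (nat_lit 0x100000100) (nat_lit 0x270433800) (nat_lit 0x1f423f00000f423fb71ae1f1560000100000f423f) (.cons (nat_lit 1) (nat_lit 7) (nat_lit 0x100000100) (nat_lit 0x205433800) (nat_lit 0x100000f423fb71aea2c28047370000100000f423f) (.cons (nat_lit 2) (nat_lit 5) (nat_lit 0) (nat_lit 0x861033000) (nat_lit 0xf423ff423fb71ae00000f423f5459100000a2c2898965) (.cons (nat_lit 2) (nat_lit 6) (nat_lit 0) (nat_lit 0x870433000) (nat_lit 0xf423ff423f00000f423fb71ae1f15600000f423fb71ae) .nil))))) (.split (nat_lit 8) (nat_lit 2) (.ex (nat_lit 0) (.leaf (.cons (nat_lit 0x10014) (nat_lit 0x100000000000000000000000200020000) (.cons (nat_lit 0x1544)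 (nat_lit 0x2000300040003000000010000) .nil)) (.cons (nat_lit 0x11000011) (nat_lit 0x100100) (nat_lit 2) (nat_lit 0x32000010) .nil)) (.split (nat_lit 9) (nat_lit 1) (.split (nat_lit 9) (nat_lit 3) (.split (nat_lit 9) (nat_lit 4) (.split (nat_lit 9) (nat_lit 5) (.split (nat_lit 9) (nat_lit 6) (.split (nat_lit 9) (nat_lit 7) (.split (nat_lit 9) (nat_lit 2) (.split (nat_lit 9) (nat_lit 8) t185_33 (.st (nat_lit 0) (nat_lit 2) (nat_lit 3) (nat_lit 0x45405) (nat_lit 0x1000000010002000100000000000000020002) (nat_lit 1) (nat_lit 1) (.st (nat_lit 8) (nat_lit 2) (nat_lit 3) (nat_lit 0x55505) (nat_lit 0x3000200030006000400020000000000050004) (nat_lit 1) (nat_lit 1) (.st (nat_lit 9) (nat_lit 2) (nat_lit 3) (nat_lit 0x55405) (nat_lit 0x2000100010002000100000000000000020002) (nat_lit 1) (nat_lit 1) (.split (nat_lit 9) (nat_lit 0) (.split (nat_lit 9) (nat_lit 8) (.leaf (.cons (nat_lit 0x10014) (nat_lit 0x100000000000000000000000200020000) (.cons (nat_lit 0x1544) (nat_lit 0x2000300040003000000010000)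 .nil)) (.cons (nat_lit 0x1111110011) (nat_lit 0x1100) (nat_lit 0xe) (nat_lit 0x6710230045) (.cons (nat_lit 0x1111100011) (nat_lit 0x10100) (nat_lit 0xa) (nat_lit 0x5620100034) .nil))) (.non (nat_lit 2) (nat_lit 3) (nat_lit 0x65405) (nat_lit 0x2000100010002000100000000000000020002))) (.non (nat_lit 2) (nat_lit 3) (nat_lit 0xa1005) (nat_lit 0x2000100000001000000000000000000020003))))))) (.split (nat_lit 9) (nat_lit 8) (.sup (nat_lit 0x30006000b0010000d000000000000) (nat_lit 0x3000200000000000000000000000400020002)) (.non (nat_lit 1) (nat_lit 3) (nat_lit 0x50010) (nat_lit 0x1000100000000000000000000000100000000)))) (.non (nat_lit 2) (nat_lit 3) (nat_lit 0x45005) (nat_lit 0x1000000010001000000000000000000010001))) (.non (nat_lit 2) (nat_lit 3) (nat_lit 0x45404) (nat_lit 0x1000000010002000100000000000000010000))) (.non (nat_lit 2) (nat_lit 3) (nat_lit 0x45504) (nat_lit 0x1000000010002000200010000000000010000))) (.non (nat_lit 2) (nat_lit 3) (nat_lit 0x41505) (nat_lit 0x1000000000001000100010000000000010001)))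 (.non (nat_lit 1) (nat_lit 6) (nat_lit 0x40540) (nat_lit 0x1000000000000000100020002000000000000))) (.non (nat_lit 2) (nat_lit 3) (nat_lit 0x40005) (nat_lit 0x1000000000000000000000000000000010001)))) t185_35))

noncomputable def t185_37 : Tr := (.ex (nat_lit 3) (.ex (nat_lit 4) (.split (nat_lit 6) (nat_lit 1) (.split (nat_lit 7) (nat_lit 6) t185_36 (.non (nat_lit 2) (nat_lit 3) (nat_lit 0x9404) (nat_lit 0x10002000100000000000000010000))) (.non (nat_lit 2) (nat_lit 3) (nat_lit 0xa804) (nat_lit 0x10002000100000000000000020000))) (.split (nat_lit 9) (nat_lit 0) (.split (nat_lit 9) (nat_lit 1) (.split (nat_lit 9) (nat_lit 2) (.split (nat_lit 9) (nat_lit 5) (.split (nat_lit 9) (nat_lit 6) (.split (nat_lit 9) (nat_lit 7) (.split (nat_lit 9) (nat_lit 3) (.split (nat_lit 9) (nat_lit 8) (.unj (nat_lit 0x15) (nat_lit 0x200020001) (nat_lit 0x40540) (nat_lit 0x1000000000000000100020002000000000000)) (.unj (nat_lit 0x15) (nat_lit 0x200020001) (nat_lit 0x40540) (nat_lit 0x1000000000000000100020002000000000000)))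 (.split (nat_lit 9) (nat_lit 8) (.unj (nat_lit 0x15) (nat_lit 0x200020001) (nat_lit 0x40140) (nat_lit 0x1000000000000000000010001000000000000)) (.unj (nat_lit 0x15) (nat_lit 0x200020001) (nat_lit 0x40140) (nat_lit 0x1000000000000000000010001000000000000)))) (.non (nat_lit 1) (nat_lit 3) (nat_lit 0x45500) (nat_lit 0x1000000010001000100010000000000000000))) (.non (nat_lit 1) (nat_lit 3) (nat_lit 0x41500) (nat_lit 0x1000000000001000100010000000000000000))) (.non (nat_lit 1) (nat_lit 3) (nat_lit 0x40500) (nat_lit 0x1000000000000000100010000000000000000))) (.star (nat_lit 9) (nat_lit 2) (nat_lit 4))) (.star (nat_lit 9) (nat_lit 1) (nat_lit 4))) (.non (nat_lit 2) (nat_lit 3) (nat_lit 0x41505) (nat_lit 0x1000000000001000100010000000000010001)))) (.split (nat_lit 9) (nat_lit 1) (.split (nat_lit 9) (nat_lit 2) (.split (nat_lit 9) (nat_lit 5) (.split (nat_lit 9) (nat_lit 6) (.split (nat_lit 9) (nat_lit 7) (.split (nat_lit 9) (nat_lit 0) (.split (nat_lit 9) (nat_lit 4) (.split (nat_lit 9) (nat_lit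 8) (.unj (nat_lit 0x15) (nat_lit 0x200020001) (nat_lit 0x40540) (nat_lit 0x1000000000000000100020002000000000000)) (.unj (nat_lit 0x15) (nat_lit 0x200020001) (nat_lit 0x40540) (nat_lit 0x1000000000000000100020002000000000000))) (.split (nat_lit 9) (nat_lit 8) (.unj (nat_lit 0x15) (nat_lit 0x200020001) (nat_lit 0x40140) (nat_lit 0x1000000000000000000010001000000000000)) (.unj (nat_lit 0x15) (nat_lit 0x200020001) (nat_lit 0x40140) (nat_lit 0x1000000000000000000010001000000000000)))) (.split (nat_lit 9) (nat_lit 4) (.split (nat_lit 9) (nat_lit 8) (.unj (nat_lit 0x10014) (nat_lit 0x100000000000000000000000200020000) (nat_lit 0x40540) (nat_lit 0x1000000000000000100020002000000000000)) (.non (nat_lit 2) (nat_lit 4) (nat_lit 0x55445) (nat_lit 0x2000100010002000100000001000000020002))) (.non (nat_lit 2) (nat_lit 3) (nat_lit 0x41505) (nat_lit 0x1000000000001000100010000000000010001)))) (.non (nat_lit 2) (nat_lit 3) (nat_lit 0x45505) (nat_lit 0x1000000020003000200010000000000020001))) (.non (nat_lit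 2) (nat_lit 3) (nat_lit 0x45404) (nat_lit 0x1000000010002000100000000000000010000))) (.non (nat_lit 2) (nat_lit 3) (nat_lit 0x45504) (nat_lit 0x1000000010002000200010000000000010000))) (.star (nat_lit 9) (nat_lit 2) (nat_lit 3))) (.star (nat_lit 9) (nat_lit 1) (nat_lit 3))))

noncomputable def t185_38 : Tr := (.split (nat_lit 8) (nat_lit 2) (.split (nat_lit 6) (nat_lit 1) (.split (nat_lit 7) (nat_lit 6) (.pd (.cons (nat_lit 1) (nat_lit 5) (nat_lit 0) (nat_lit 0x66033800) (nat_lit 0xb71aef423fb71ae00000f423f54591f423f00000a2c28) (.cons (nat_lit 1) (nat_lit 6) (nat_lit 0) (nat_lit 0x70433800) (nat_lit 0xb71aef423f00000f423fb71ae1f156f423f00000a2c28) (.cons (nat_lit 1) (nat_lit 7) (nat_lit 0) (nat_lit 0x5433800) (nat_lit 0xb71ae00000f423fb71aea2c2804737f423f00000a2c28) (.cons (nat_lit 2) (nat_lit 5) (nat_lit 0) (nat_lit 0x61033000) (nat_lit 0xf423ff423fb71ae00000f423f5459100000a2c285b8d4) (.cons (nat_lit 2) (nat_lit 6) (nat_lit 0) (nat_lit 0x70433000) (nat_lit 0xf423ff423f00000f423fb71ae1f15600000f423f7a11d)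 .nil))))) (.ex (nat_lit 8) (.leaf (.cons (nat_lit 0x10014) (nat_lit 0x100000000000000000000000200020000) (.cons (nat_lit 0x1544) (nat_lit 0x2000300040003000000010000) .nil)) (.cons (nat_lit 0x111000011) (nat_lit 0x100100) (nat_lit 3) (nat_lit 0x401000023) .nil)) (.split (nat_lit 9) (nat_lit 0) (.split (nat_lit 9) (nat_lit 1) (.split (nat_lit 9) (nat_lit 2) (.split (nat_lit 9) (nat_lit 3) (.split (nat_lit 9) (nat_lit 4) (.split (nat_lit 9) (nat_lit 5) (.split (nat_lit 9) (nat_lit 6) (.split (nat_lit 9) (nat_lit 7) (.sup (nat_lit 0x30006000b0010000d000000000000) (nat_lit 0x2000400000000000000000000000400020003)) (.non (nat_lit 2) (nat_lit 3) (nat_lit 0x55005) (nat_lit 0x1000100010001000000000000000000010001))) (.non (nat_lit 1) (nat_lit 3) (nat_lit 0x55411) (nat_lit 0x2000200010002000100000000000100000001))) (.non (nat_lit 1) (nat_lit 3) (nat_lit 0x51511) (nat_lit 0x2000200000001000200010000000100000001))) (.non (nat_lit 2) (nat_lit 3) (nat_lit 0x51505) (nat_lit 0x1000100000001000100010000000000010001)))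 (.non (nat_lit 1) (nat_lit 5) (nat_lit 0x50150) (nat_lit 0x3000200000000000000030004000100000000))) (.non (nat_lit 1) (nat_lit 3) (nat_lit 0x50010) (nat_lit 0x1000100000000000000000000000100000000))) (.non (nat_lit 2) (nat_lit 3) (nat_lit 0x50005) (nat_lit 0x1000100000000000000000000000000010001))) (.non (nat_lit 1) (nat_lit 3) (nat_lit 0x50001) (nat_lit 0x1000100000000000000000000000000000001))))) (.non (nat_lit 2) (nat_lit 3) (nat_lit 0x9404) (nat_lit 0x10002000100000000000000010000))) (.non (nat_lit 2) (nat_lit 3) (nat_lit 0xa804) (nat_lit 0x10002000100000000000000020000))) (.split (nat_lit 8) (nat_lit 2) (.split (nat_lit 7) (nat_lit 6) (.split (nat_lit 6) (nat_lit 1) (.sup (nat_lit 0x30007000b0010000d000000000000) (nat_lit 0x400000000000000000000000400010002)) (.non (nat_lit 2) (nat_lit 3) (nat_lit 0xa804) (nat_lit 0x10002000100000000000000020000))) (.non (nat_lit 2) (nat_lit 3) (nat_lit 0x9404) (nat_lit 0x10002000100000000000000010000))) (.sup (nat_lit 0x7000f00170020001a000000000000)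 (nat_lit 0x700000000000000000000000700010004))))

noncomputable def t185_39 : Tr := (.ex (nat_lit 2) (.ex (nat_lit 3) t185_32 (.split (nat_lit 8) (nat_lit 1) (.split (nat_lit 8) (nat_lit 2) (.split (nat_lit 8) (nat_lit 5) (.split (nat_lit 8) (nat_lit 6) (.split (nat_lit 8) (nat_lit 7) (.split (nat_lit 8) (nat_lit 0) (.split (nat_lit 8) (nat_lit 4) (.unj (nat_lit 0x15) (nat_lit 0x200020001) (nat_lit 0x10540) (nat_lit 0x100000000000100020002000000000000)) (.unj (nat_lit 0x15) (nat_lit 0x200020001) (nat_lit 0x10140) (nat_lit 0x100000000000000010001000000000000))) (.split (nat_lit 8) (nat_lit 4) (.sup (nat_lit 0x40000000000000009000a0000) (nat_lit 0x50000000000020009000a000000000000)) (.non (nat_lit 2) (nat_lit 3) (nat_lit 0x11505) (nat_lit 0x100000001000100010000000000010001)))) (.non (nat_lit 2) (nat_lit 3) (nat_lit 0x15505) (nat_lit 0x100020003000200010000000000020001))) (.non (nat_lit 2) (nat_lit 3) (nat_lit 0x15404) (nat_lit 0x100010002000100000000000000010000))) (.non (nat_lit 2) (nat_lit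 3) (nat_lit 0x15504) (nat_lit 0x100010002000200010000000000010000))) (.star (nat_lit 8) (nat_lit 2) (nat_lit 3))) (.star (nat_lit 8) (nat_lit 1) (nat_lit 3)))) (.split (nat_lit 8) (nat_lit 1) (.split (nat_lit 8) (nat_lit 3) (.split (nat_lit 8) (nat_lit 4) (.split (nat_lit 8) (nat_lit 5) (.split (nat_lit 8) (nat_lit 6) (.split (nat_lit 8) (nat_lit 7) (.split (nat_lit 8) (nat_lit 0) t185_37 (.st (nat_lit 4) (nat_lit 2) (nat_lit 3) (nat_lit 0x15505) (nat_lit 0x100020004000300020000000000030002) (nat_lit 1) (nat_lit 1) (.st (nat_lit 0) (nat_lit 2) (nat_lit 3) (nat_lit 0x15405) (nat_lit 0x100010002000100000000000000020002) (nat_lit 1) (nat_lit 1) (.ex (nat_lit 3) (.split (nat_lit 8) (nat_lit 0) t185_38 (.non (nat_lit 2) (nat_lit 3) (nat_lit 0x25405) (nat_lit 0x100010002000100000000000000020002))) (.split (nat_lit 9) (nat_lit 0) (.split (nat_lit 9) (nat_lit 1) (.split (nat_lit 9) (nat_lit 2) (.split (nat_lit 9) (nat_lit 4) (.split (nat_lit 9) (nat_lit 5) (.split (nat_lit 9) (nat_lit 6) (.split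 (nat_lit 9) (nat_lit 7) (.split (nat_lit 9) (nat_lit 8) (.unj (nat_lit 0x15) (nat_lit 0x200020001) (nat_lit 0x40540) (nat_lit 0x1000000000000000100020002000000000000)) (.unj (nat_lit 0x15) (nat_lit 0x200020001) (nat_lit 0x40540) (nat_lit 0x1000000000000000100020002000000000000))) (.non (nat_lit 2) (nat_lit 3) (nat_lit 0x45505) (nat_lit 0x1000000020003000200010000000000020001))) (.non (nat_lit 2) (nat_lit 3) (nat_lit 0x45404) (nat_lit 0x1000000010002000100000000000000010000))) (.non (nat_lit 2) (nat_lit 3) (nat_lit 0x45504) (nat_lit 0x1000000010002000200010000000000010000))) (.non (nat_lit 2) (nat_lit 3) (nat_lit 0x55505) (nat_lit 0x1000100020004000300020000000000030002))) (.star (nat_lit 9) (nat_lit 2) (nat_lit 3))) (.star (nat_lit 9) (nat_lit 1) (nat_lit 3))) (.non (nat_lit 2) (nat_lit 3) (nat_lit 0x55405) (nat_lit 0x1000100010002000100000000000000020002))))))) (.non (nat_lit 2) (nat_lit 3) (nat_lit 0x15505) (nat_lit 0x100020003000200010000000000020001))) (.non (nat_lit 2) (nat_lit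 3) (nat_lit 0x15404) (nat_lit 0x100010002000100000000000000010000))) (.non (nat_lit 2) (nat_lit 3) (nat_lit 0x15504) (nat_lit 0x100010002000200010000000000010000))) (.star (nat_lit 8) (nat_lit 2) (nat_lit 4))) (.star (nat_lit 8) (nat_lit 2) (nat_lit 3))) (.non (nat_lit 2) (nat_lit 3) (nat_lit 0x15405) (nat_lit 0x100010002000100000000000000020001))))

noncomputable def t185_40 : Tr := (.ex (nat_lit 3) (.ex (nat_lit 4) (.split (nat_lit 6) (nat_lit 2) (.split (nat_lit 7) (nat_lit 6) (.split (nat_lit 6) (nat_lit 1) (.pd (.cons (nat_lit 0) (nat_lit 6) (nat_lit 0x110) (nat_lit 0x70433120) (nat_lit 0xf423f00000f423fb71ae1f156000010000100000) (.cons (nat_lit 1) (nat_lit 5) (nat_lit 0) (nat_lit 0x62033200) (nat_lit 0xf423fb71ae00000f423f54591a2c2800000f423f) (.cons (nat_lit 1) (nat_lit 6) (nat_lit 0) (nat_lit 0x70433200) (nat_lit 0xf423f00000f423fb71ae1f156f423f00000f423f) (.cons (nat_lit 2) (nat_lit 5) (nat_lit 0) (nat_lit 0x61033000) (nat_lit 0xf423fb71ae00000f423f5459100000a2c2898965) (.cons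 (nat_lit 2) (nat_lit 6) (nat_lit 0) (nat_lit 0x70433000) (nat_lit 0xf423f00000f423fb71ae1f15600000f423fb71ae) .nil))))) (.leaf (.cons (nat_lit 0x1014) (nat_lit 0x1000000000000000100010000) (.cons (nat_lit 0x1550) (nat_lit 0x2000300040003000100000000) (.cons (nat_lit 0x1544) (nat_lit 0x2000300040003000000010000) .nil))) .nil)) (.non (nat_lit 2) (nat_lit 3) (nat_lit 0xa804) (nat_lit 0x10002000100000000000000020000))) (.non (nat_lit 1) (nat_lit 3) (nat_lit 0x9410) (nat_lit 0x10002000100000000000100000000))) (.non (nat_lit 1) (nat_lit 3) (nat_lit 0xa810) (nat_lit 0x10002000100000000000200000000))) (.split (nat_lit 8) (nat_lit 0) (.split (nat_lit 8) (nat_lit 1) (.split (nat_lit 8) (nat_lit 2) (.split (nat_lit 8) (nat_lit 5) (.split (nat_lit 8) (nat_lit 6) (.split (nat_lit 8) (nat_lit 7) (.split (nat_lit 8) (nat_lit 3) (.unj (nat_lit 0x15) (nat_lit 0x200020001) (nat_lit 0x10540) (nat_lit 0x100000000000100020002000000000000)) (.unj (nat_lit 0x15) (nat_lit 0x200020001) (nat_lit 0x10140) (nat_lit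 0x100000000000000010001000000000000))) (.non (nat_lit 1) (nat_lit 3) (nat_lit 0x15500) (nat_lit 0x100010001000100010000000000000000))) (.non (nat_lit 1) (nat_lit 3) (nat_lit 0x11500) (nat_lit 0x100000001000100010000000000000000))) (.non (nat_lit 1) (nat_lit 3) (nat_lit 0x10500) (nat_lit 0x100000000000100010000000000000000))) (.star (nat_lit 8) (nat_lit 2) (nat_lit 4))) (.star (nat_lit 8) (nat_lit 1) (nat_lit 4))) (.non (nat_lit 2) (nat_lit 3) (nat_lit 0x11505) (nat_lit 0x100000001000100010000000000010001)))) (.split (nat_lit 8) (nat_lit 1) (.split (nat_lit 8) (nat_lit 2) (.split (nat_lit 8) (nat_lit 5) (.split (nat_lit 8) (nat_lit 6) (.split (nat_lit 8) (nat_lit 7) (.split (nat_lit 8) (nat_lit 0) (.split (nat_lit 8) (nat_lit 4) (.unj (nat_lit 0x15) (nat_lit 0x200020001) (nat_lit 0x10540) (nat_lit 0x100000000000100020002000000000000)) (.unj (nat_lit 0x15) (nat_lit 0x200020001) (nat_lit 0x10140) (nat_lit 0x100000000000000010001000000000000))) (.split (nat_lit 8) (nat_lit 4) (.sup (nat_lit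 0x1000000000000000500050000) (nat_lit 0x300000000000100050005000000000000)) (.non (nat_lit 2) (nat_lit 3) (nat_lit 0x11505) (nat_lit 0x100000001000100010000000000010001)))) (.non (nat_lit 2) (nat_lit 3) (nat_lit 0x15505) (nat_lit 0x100020003000200010000000000020001))) (.non (nat_lit 1) (nat_lit 3) (nat_lit 0x15410) (nat_lit 0x100010002000100000000000100000000))) (.non (nat_lit 1) (nat_lit 3) (nat_lit 0x15510) (nat_lit 0x100010002000200010000000100000000))) (.star (nat_lit 8) (nat_lit 2) (nat_lit 3))) (.star (nat_lit 8) (nat_lit 1) (nat_lit 3))))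

noncomputable def t185_41 : Tr := (.ex (nat_lit 3) (.ex (nat_lit 4) (.split (nat_lit 6) (nat_lit 2) (.split (nat_lit 8) (nat_lit 2) (.split (nat_lit 7) (nat_lit 6) (.split (nat_lit 6) (nat_lit 1) (.pd (.cons (nat_lit 1) (nat_lit 5) (nat_lit 0) (nat_lit 0x262033200) (nat_lit 0xf423ff423fb71ae00000f423f5459165b9700000f423f) (.cons (nat_lit 1) (nat_lit 6) (nat_lit 0) (nat_lit 0x270433200) (nat_lit 0xf423ff423f00000f423fb71ae1f156b71ae00000f423f) (.cons (nat_lit 2) (nat_lit 5) (nat_lit 0) (nat_lit 0x861033000) (nat_lit 0xf423ff423fb71ae00000f423f5459100000a2c2898965) (.cons (nat_lit 2) (nat_lit 6) (nat_lit 0) (nat_lit 0x870433000) (nat_lit 0xf423ff423f00000f423fb71ae1f15600000f423fb71ae) .nil)))) (.leaf (.cons (nat_lit 0x10014) (nat_lit 0x100000000000000000000000200020000) (.cons (nat_lit 0x1550) (nat_lit 0x2000300040003000100000000) (.cons (nat_lit 0x1544) (nat_lit 0x2000300040003000000010000) .nil))) .nil)) (.non (nat_lit 2) (nat_lit 3) (nat_lit 0xa804) (nat_lit 0x10002000100000000000000020000)))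 (.non (nat_lit 1) (nat_lit 3) (nat_lit 0x9410) (nat_lit 0x10002000100000000000100000000))) (.non (nat_lit 1) (nat_lit 3) (nat_lit 0x25410) (nat_lit 0x100010002000100000000000200000000))) (.non (nat_lit 1) (nat_lit 3) (nat_lit 0xa810) (nat_lit 0x10002000100000000000200000000))) (.split (nat_lit 9) (nat_lit 0) (.split (nat_lit 9) (nat_lit 1) (.split (nat_lit 9) (nat_lit 2) (.split (nat_lit 9) (nat_lit 5) (.split (nat_lit 9) (nat_lit 6) (.split (nat_lit 9) (nat_lit 7) (.split (nat_lit 9) (nat_lit 8) (.split (nat_lit 9) (nat_lit 3) (.unj (nat_lit 0x15) (nat_lit 0x200020001) (nat_lit 0x40540) (nat_lit 0x1000000000000000100020002000000000000)) (.unj (nat_lit 0x15) (nat_lit 0x200020001) (nat_lit 0x40140) (nat_lit 0x1000000000000000000010001000000000000))) (.non (nat_lit 1) (nat_lit 3) (nat_lit 0x51510) (nat_lit 0x1000100000001000100010000000100000000))) (.non (nat_lit 1) (nat_lit 3) (nat_lit 0x45500) (nat_lit 0x1000000010001000100010000000000000000))) (.non (nat_lit 1) (nat_lit 3) (nat_lit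 0x41500) (nat_lit 0x1000000000001000100010000000000000000))) (.non (nat_lit 1) (nat_lit 3) (nat_lit 0x40500) (nat_lit 0x1000000000000000100010000000000000000))) (.star (nat_lit 9) (nat_lit 2) (nat_lit 4))) (.star (nat_lit 9) (nat_lit 1) (nat_lit 4))) (.non (nat_lit 2) (nat_lit 3) (nat_lit 0x41505) (nat_lit 0x1000000000001000100010000000000010001)))) (.split (nat_lit 9) (nat_lit 1) (.split (nat_lit 9) (nat_lit 2) (.split (nat_lit 9) (nat_lit 5) (.split (nat_lit 9) (nat_lit 6) (.split (nat_lit 9) (nat_lit 7) (.split (nat_lit 9) (nat_lit 0) (.split (nat_lit 9) (nat_lit 4) (.split (nat_lit 9) (nat_lit 8) (.unj (nat_lit 0x15) (nat_lit 0x200020001) (nat_lit 0x40540) (nat_lit 0x1000000000000000100020002000000000000)) (.unj (nat_lit 0x15) (nat_lit 0x200020001) (nat_lit 0x40540) (nat_lit 0x1000000000000000100020002000000000000))) (.split (nat_lit 9) (nat_lit 8) (.unj (nat_lit 0x15) (nat_lit 0x200020001) (nat_lit 0x40140) (nat_lit 0x1000000000000000000010001000000000000)) (.non (nat_lit 1) (nat_lit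 3) (nat_lit 0x51510) (nat_lit 0x1000100000001000100010000000100000000)))) (.split (nat_lit 9) (nat_lit 4) (.split (nat_lit 9) (nat_lit 8) (.unj (nat_lit 0x10014) (nat_lit 0x100000000000000000000000200020000) (nat_lit 0x40540) (nat_lit 0x1000000000000000100020002000000000000)) (.non (nat_lit 1) (nat_lit 4) (nat_lit 0x55451) (nat_lit 0x2000200010002000100000001000200000001))) (.non (nat_lit 2) (nat_lit 3) (nat_lit 0x41505) (nat_lit 0x1000000000001000100010000000000010001)))) (.non (nat_lit 1) (nat_lit 3) (nat_lit 0x55510) (nat_lit 0x1000100020003000200010000000200000000))) (.non (nat_lit 1) (nat_lit 3) (nat_lit 0x45410) (nat_lit 0x1000000010002000100000000000100000000))) (.non (nat_lit 1) (nat_lit 3) (nat_lit 0x45510) (nat_lit 0x1000000010002000200010000000100000000))) (.star (nat_lit 9) (nat_lit 2) (nat_lit 3))) (.star (nat_lit 9) (nat_lit 1) (nat_lit 3))))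

noncomputable def t185_42 : Tr := (.st (nat_lit 4) (nat_lit 1) (nat_lit 3) (nat_lit 0x15511) (nat_lit 0x200020004000300020000000300000001) (nat_lit 1) (nat_lit 1) (.ex (nat_lit 3) (.split (nat_lit 8) (nat_lit 0) (.split (nat_lit 6) (nat_lit 2) (.split (nat_lit 8) (nat_lit 2) (.split (nat_lit 7) (nat_lit 6) (.split (nat_lit 6) (nat_lit 1) (.pd (.cons (nat_lit 1) (nat_lit 5) (nat_lit 0) (nat_lit 0x62033800) (nat_lit 0x98965f423fb71ae00000f423f54591a2c2800000927bd) (.cons (nat_lit 1) (nat_lit 6) (nat_lit 0) (nat_lit 0x70433800) (nat_lit 0xb71aef423f00000f423fb71ae1f156f423f00000a2c28) (.cons (nat_lit 2) (nat_lit 5) (nat_lit 0) (nat_lit 0x61033000) (nat_lit 0xf423ff423fb71ae00000f423f5459100000a2c285b8d4) (.cons (nat_lit 2) (nat_lit 6) (nat_lit 0) (nat_lit 0x70433000) (nat_lit 0xf423ff423f00000f423fb71ae1f15600000f423f7a11d) .nil)))) (.leaf (.cons (nat_lit 0x10014) (nat_lit 0x100000000000000000000000200020000) (.cons (nat_lit 0x1550) (nat_lit 0x2000300040003000100000000) (.cons (nat_lit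 0x1544) (nat_lit 0x2000300040003000000010000) .nil))) .nil)) (.non (nat_lit 2) (nat_lit 3) (nat_lit 0xa804) (nat_lit 0x10002000100000000000000020000))) (.non (nat_lit 1) (nat_lit 3) (nat_lit 0x9410) (nat_lit 0x10002000100000000000100000000))) (.non (nat_lit 1) (nat_lit 3) (nat_lit 0x25410) (nat_lit 0x100010002000100000000000200000000))) (.non (nat_lit 1) (nat_lit 3) (nat_lit 0xa810) (nat_lit 0x10002000100000000000200000000))) (.non (nat_lit 1) (nat_lit 3) (nat_lit 0x2a821) (nat_lit 0x200010002000100000000000200000002))) (.split (nat_lit 9) (nat_lit 0) (.split (nat_lit 9) (nat_lit 1) (.split (nat_lit 9) (nat_lit 2) (.split (nat_lit 9) (nat_lit 4) (.split (nat_lit 9) (nat_lit 5) (.split (nat_lit 9) (nat_lit 6) (.split (nat_lit 9) (nat_lit 7) (.split (nat_lit 9) (nat_lit 8) (.unj (nat_lit 0x15) (nat_lit 0x200020001) (nat_lit 0x40540) (nat_lit 0x1000000000000000100020002000000000000)) (.non (nat_lit 1) (nat_lit 3) (nat_lit 0x55411) (nat_lit 0x1000200010002000100000000000200000001))) (.non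 (nat_lit 1) (nat_lit 3) (nat_lit 0x55510) (nat_lit 0x1000100020003000200010000000200000000))) (.non (nat_lit 1) (nat_lit 3) (nat_lit 0x45410) (nat_lit 0x1000000010002000100000000000100000000))) (.non (nat_lit 1) (nat_lit 3) (nat_lit 0x45510) (nat_lit 0x1000000010002000200010000000100000000))) (.non (nat_lit 1) (nat_lit 3) (nat_lit 0x55511) (nat_lit 0x1000200020004000300020000000300000001))) (.star (nat_lit 9) (nat_lit 2) (nat_lit 3))) (.star (nat_lit 9) (nat_lit 1) (nat_lit 3))) (.non (nat_lit 2) (nat_lit 3) (nat_lit 0x55405) (nat_lit 0x1000100010002000100000000000000020002)))))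

noncomputable def t185_43 : Tr := (.ex (nat_lit 3) (.ex (nat_lit 4) (.split (nat_lit 6) (nat_lit 0) (.pd (.cons (nat_lit 0) (nat_lit 5) (nat_lit 0x110) (nat_lit 0x66033120) (nat_lit 0xf423fb71ae00000f423f54591000010000100000) (.cons (nat_lit 0) (nat_lit 6) (nat_lit 0x110) (nat_lit 0x70433120) (nat_lit 0xf423f00000f423fb71ae1f156000010000100000) (.cons (nat_lit 0) (nat_lit 7) (nat_lit 0x110) (nat_lit 0x5433120) (nat_lit 0xf423fb71aea2c2804737000010000100000) (.cons (nat_lit 1) (nat_lit 5) (nat_lit 0) (nat_lit 0x60033200) (nat_lit 0xf423fb71ae00000f423f54591f423f00000a2c28) (.cons (nat_lit 1) (nat_lit 6) (nat_lit 0) (nat_lit 0x70433200) (nat_lit 0xf423f00000f423fb71ae1f156f423f00000f423f) (.cons (nat_lit 2) (nat_lit 5) (nat_lit 0) (nat_lit 0x60033000) (nat_lit 0xf423fb71ae00000f423f5459100000f423f65b97) (.cons (nat_lit 2) (nat_lit 6) (nat_lit 0) (nat_lit 0x70433000) (nat_lit 0xf423f00000f423fb71ae1f15600000f423fb71ae) .nil))))))) (.leaf (.cons (nat_lit 0x1541) (nat_lit 0x2000300040003000000000001)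 .nil) (.cons (nat_lit 0x11110001) (nat_lit 0x1010) (nat_lit 8) (nat_lit 0x20340001) (.cons (nat_lit 0x11100001) (nat_lit 0x10010) (nat_lit 7) (nat_lit 0x30200001) (.cons (nat_lit 0x11000001) (nat_lit 0x100010) (nat_lit 1) (nat_lit 0x21000000) (.cons (nat_lit 0x11000011) (nat_lit 0x100100) (nat_lit 2) (nat_lit 0x32000001) .nil)))))) (.non (nat_lit 1) (nat_lit 3) (nat_lit 0xa801) (nat_lit 0x10002000100000000000000000002))) (.split (nat_lit 8) (nat_lit 0) (.split (nat_lit 8) (nat_lit 1) (.split (nat_lit 8) (nat_lit 2) (.split (nat_lit 8) (nat_lit 5) (.split (nat_lit 8) (nat_lit 6) (.split (nat_lit 8) (nat_lit 7) (.split (nat_lit 8) (nat_lit 3) (.unj (nat_lit 0x15) (nat_lit 0x200020001) (nat_lit 0x10540) (nat_lit 0x100000000000100020002000000000000)) (.unj (nat_lit 0x15) (nat_lit 0x200020001) (nat_lit 0x10140) (nat_lit 0x100000000000000010001000000000000))) (.non (nat_lit 1) (nat_lit 3) (nat_lit 0x15500) (nat_lit 0x100010001000100010000000000000000))) (.non (nat_lit 1) (nat_lit 3) (nat_lit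 0x11500) (nat_lit 0x100000001000100010000000000000000))) (.non (nat_lit 1) (nat_lit 3) (nat_lit 0x10500) (nat_lit 0x100000000000100010000000000000000))) (.star (nat_lit 8) (nat_lit 2) (nat_lit 4))) (.star (nat_lit 8) (nat_lit 1) (nat_lit 4))) (.non (nat_lit 1) (nat_lit 3) (nat_lit 0x11501) (nat_lit 0x100000001000100010000000000000001)))) (.split (nat_lit 8) (nat_lit 0) (.split (nat_lit 8) (nat_lit 1) (.split (nat_lit 8) (nat_lit 2) (.split (nat_lit 8) (nat_lit 5) (.split (nat_lit 8) (nat_lit 6) (.split (nat_lit 8) (nat_lit 7) (.split (nat_lit 8) (nat_lit 4) (.unj (nat_lit 0x15) (nat_lit 0x200020001) (nat_lit 0x10540) (nat_lit 0x100000000000100020002000000000000)) (.unj (nat_lit 0x15) (nat_lit 0x200020001) (nat_lit 0x10140) (nat_lit 0x100000000000000010001000000000000))) (.non (nat_lit 2) (nat_lit 3) (nat_lit 0x15505) (nat_lit 0x100020003000200010000000000010002))) (.non (nat_lit 1) (nat_lit 3) (nat_lit 0x15401) (nat_lit 0x100010002000100000000000000000001))) (.non (nat_lit 1) (nat_lit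 3) (nat_lit 0x15501) (nat_lit 0x100010002000200010000000000000001))) (.star (nat_lit 8) (nat_lit 2) (nat_lit 3))) (.star (nat_lit 8) (nat_lit 1) (nat_lit 3))) (.non (nat_lit 2) (nat_lit 3) (nat_lit 0x15405) (nat_lit 0x100010002000100000000000000010002))))

noncomputable def t185_44 : Tr := (.st (nat_lit 0) (nat_lit 2) (nat_lit 3) (nat_lit 0x5405) (nat_lit 0x10002000100000000000000010002) (nat_lit 1) (nat_lit 1) (.st (nat_lit 7) (nat_lit 2) (nat_lit 3) (nat_lit 0x5505) (nat_lit 0x20003000200010000000000010002) (nat_lit 1) (nat_lit 1) (.ex (nat_lit 1) (.ex (nat_lit 2) (.split (nat_lit 7) (nat_lit 6) (.pd (.cons (nat_lit 0) (nat_lit 3) (nat_lit 0x110) (nat_lit 0x65440120) (nat_lit 0xf423fb71aea2c289896500000000010000100000) (.cons (nat_lit 0) (nat_lit 4) (nat_lit 0x110) (nat_lit 0x65503120) (nat_lit 0xf423fb71aea2c2800000f423f000010000100000) .nil)) t185_43) (.non (nat_lit 1) (nat_lit 3) (nat_lit 0x9401) (nat_lit 0x10002000100000000000000000001))) (.split (nat_lit 8) (nat_lit 0) (.split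 (nat_lit 8) (nat_lit 3) (.split (nat_lit 8) (nat_lit 4) (.split (nat_lit 8) (nat_lit 5) (.split (nat_lit 8) (nat_lit 6) (.split (nat_lit 8) (nat_lit 7) (.split (nat_lit 8) (nat_lit 1) (.unj (nat_lit 0x10014) (nat_lit 0x100000000000000000000000200020000) (nat_lit 0x5540) (nat_lit 0x10002000300040003000000000000)) (.unj (nat_lit 0x10014) (nat_lit 0x100000000000000000000000100010000) (nat_lit 0x5540) (nat_lit 0x10002000300040003000000000000))) (.non (nat_lit 2) (nat_lit 3) (nat_lit 0x15505) (nat_lit 0x100020003000200010000000000010002))) (.non (nat_lit 1) (nat_lit 3) (nat_lit 0x15401) (nat_lit 0x100010002000100000000000000000001))) (.non (nat_lit 1) (nat_lit 3) (nat_lit 0x15501) (nat_lit 0x100010002000200010000000000000001))) (.star (nat_lit 8) (nat_lit 2) (nat_lit 4))) (.star (nat_lit 8) (nat_lit 2) (nat_lit 3))) (.non (nat_lit 2) (nat_lit 3) (nat_lit 0x15405) (nat_lit 0x100010002000100000000000000010002)))) (.split (nat_lit 8) (nat_lit 0) (.split (nat_lit 8) (nat_lit 3) (.split (nat_lit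 8) (nat_lit 4) (.split (nat_lit 8) (nat_lit 5) (.split (nat_lit 8) (nat_lit 6) (.split (nat_lit 8) (nat_lit 7) (.split (nat_lit 8) (nat_lit 2) (.unj (nat_lit 0x10014) (nat_lit 0x100000000000000000000000200020000) (nat_lit 0x5540) (nat_lit 0x10002000300040003000000000000)) (.unj (nat_lit 0x10014) (nat_lit 0x100000000000000000000000100010000) (nat_lit 0x5540) (nat_lit 0x10002000300040003000000000000))) (.non (nat_lit 2) (nat_lit 3) (nat_lit 0x15005) (nat_lit 0x100010001000000000000000000010001))) (.non (nat_lit 1) (nat_lit 3) (nat_lit 0x15401) (nat_lit 0x100010002000100000000000000000001))) (.non (nat_lit 1) (nat_lit 3) (nat_lit 0x15501) (nat_lit 0x100010002000200010000000000000001))) (.star (nat_lit 8) (nat_lit 1) (nat_lit 4))) (.star (nat_lit 8) (nat_lit 1) (nat_lit 3))) (.non (nat_lit 2) (nat_lit 3) (nat_lit 0x10005) (nat_lit 0x100000000000000000000000000010001))))))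

noncomputable def t185_45 : Tr := (.split (nat_lit 6) (nat_lit 0) (.split (nat_lit 6) (nat_lit 1) (.split (nat_lit 6) (nat_lit 2) (.split (nat_lit 5) (nat_lit 0) .uj t185_2) (.split (nat_lit 5) (nat_lit 0) (.st (nat_lit 5) (nat_lit 1) (nat_lit 3) (nat_lit 0x5510) (nat_lit 0x10002000200010000000100000000) (nat_lit 1) (nat_lit 1) (.st (nat_lit 6) (nat_lit 1) (nat_lit 3) (nat_lit 0x5410) (nat_lit 0x10002000100000000000100000000) (nat_lit 1) (nat_lit 1) t185_30)) (.non (nat_lit 1) (nat_lit 3) (nat_lit 0x5511) (nat_lit 0x10002000200010000000100000001)))) (.split (nat_lit 5) (nat_lit 0) (.split (nat_lit 6) (nat_lit 2) (.st (nat_lit 1) (nat_lit 2) (nat_lit 3) (nat_lit 0x5405) (nat_lit 0x10002000100000000000000020001) (nat_lit 1) (nat_lit 1) (.st (nat_lit 5) (nat_lit 2) (nat_lit 3) (nat_lit 0x5504) (nat_lit 0x10002000200010000000000010000) (nat_lit 1) (nat_lit 1) (.st (nat_lit 6) (nat_lit 2) (nat_lit 3) (nat_lit 0x5404) (nat_lit 0x10002000100000000000000010000) (nat_lit 1) (nat_lit 1) (.st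 (nat_lit 7) (nat_lit 2) (nat_lit 3) (nat_lit 0x5505) (nat_lit 0x20003000200010000000000020001) (nat_lit 1) (nat_lit 1) t185_39)))) (.st (nat_lit 1) (nat_lit 2) (nat_lit 3) (nat_lit 0x5405) (nat_lit 0x10002000100000000000000020001) (nat_lit 1) (nat_lit 1) (.st (nat_lit 5) (nat_lit 1) (nat_lit 3) (nat_lit 0x5510) (nat_lit 0x10002000200010000000100000000) (nat_lit 1) (nat_lit 1) (.ex (nat_lit 2) t185_40 (.split (nat_lit 8) (nat_lit 1) (.split (nat_lit 8) (nat_lit 3) (.split (nat_lit 8) (nat_lit 4) (.split (nat_lit 8) (nat_lit 5) (.split (nat_lit 8) (nat_lit 6) (.split (nat_lit 8) (nat_lit 7) (.split (nat_lit 8) (nat_lit 0) t185_41 t185_42) (.non (nat_lit 1) (nat_lit 3) (nat_lit 0x15010) (nat_lit 0x100010001000000000000000100000000))) (.non (nat_lit 1) (nat_lit 3) (nat_lit 0x11010) (nat_lit 0x100000001000000000000000100000000))) (.non (nat_lit 1) (nat_lit 3) (nat_lit 0x11410) (nat_lit 0x100000001000100000000000100000000))) (.star (nat_lit 8) (nat_lit 2) (nat_lit 4))) (.star (nat_lit 8) (nat_lit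 2) (nat_lit 3))) (.non (nat_lit 2) (nat_lit 3) (nat_lit 0x15405) (nat_lit 0x100010002000100000000000000020001))))))) (.non (nat_lit 2) (nat_lit 3) (nat_lit 0x1405) (nat_lit 0x1000100000000000000010001)))) (.split (nat_lit 6) (nat_lit 1) (.split (nat_lit 6) (nat_lit 2) (.split (nat_lit 5) (nat_lit 0) (.st (nat_lit 5) (nat_lit 1) (nat_lit 3) (nat_lit 0x5501) (nat_lit 0x10002000200010000000000000001) (nat_lit 1) (nat_lit 1) (.st (nat_lit 6) (nat_lit 1) (nat_lit 3) (nat_lit 0x5401) (nat_lit 0x10002000100000000000000000001) (nat_lit 1) (nat_lit 1) t185_44)) (.non (nat_lit 1) (nat_lit 3) (nat_lit 0x1401) (nat_lit 0x1000100000000000000000001))) (.non (nat_lit 1) (nat_lit 3) (nat_lit 0x5411) (nat_lit 0x10002000100000000000100000001))) (.non (nat_lit 2) (nat_lit 3) (nat_lit 0x1005) (nat_lit 0x1000000000000000000010001))))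

noncomputable def t185_46 : Tr := (.ex (nat_lit 0) (.ex (nat_lit 8) (.leaf (.cons (nat_lit 0x4014) (nat_lit 0x10000000000000000000200020000) .nil) (.cons (nat_lit 0x111110100) (nat_lit 0x1010) (nat_lit 9) (nat_lit 0x203450100) (.cons (nat_lit 0x111100100) (nat_lit 0x10010) (nat_lit 8) (nat_lit 0x203400100) (.cons (nat_lit 0x111000100) (nat_lit 0x100010) (nat_lit 7) (nat_lit 0x302000100) (.cons (nat_lit 0x110000100) (nat_lit 0x1000010) (nat_lit 1) (nat_lit 0x210000000) .nil))))) (.split (nat_lit 9) (nat_lit 0) (.split (nat_lit 9) (nat_lit 1) (.split (nat_lit 9) (nat_lit 2) (.split (nat_lit 9) (nat_lit 3) (.split (nat_lit 9) (nat_lit 4) (.split (nat_lit 9) (nat_lit 5) (.split (nat_lit 9) (nat_lit 6) (.split (nat_lit 9) (nat_lit 7) (.st (nat_lit 8) (nat_lit 1) (nat_lit 3) (nat_lit 0x55010) (nat_lit 0x1000200020001000000000000000100000000) (nat_lit 1) (nat_lit 1) (.st (nat_lit 9) (nat_lit 1) (nat_lit 3) (nat_lit 0x55510) (nat_lit 0x2000300040003000200010000000200000000) (nat_lit 1) (nat_lit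 1) (.split (nat_lit 9) (nat_lit 8) (.leaf (.cons (nat_lit 0x4014) (nat_lit 0x10000000000000000000200020000) .nil) (.cons (nat_lit 0x1111110100) (nat_lit 0x1010) (nat_lit 0xd) (nat_lit 0x3204560100) (.cons (nat_lit 0x1111100100) (nat_lit 0x10010) (nat_lit 0xc) (nat_lit 0x5402300100) (.cons (nat_lit 0x1111000100) (nat_lit 0x100010) (nat_lit 8) (nat_lit 0x4302000100) .nil)))) (.non (nat_lit 1) (nat_lit 3) (nat_lit 0x95010) (nat_lit 0x1000200020001000000000000000100000000))))) (.non (nat_lit 1) (nat_lit 3) (nat_lit 0x54000) (nat_lit 0x1000100010000000000000000000000000000))) (.non (nat_lit 1) (nat_lit 3) (nat_lit 0x55000) (nat_lit 0x1000100010001000000000000000000000000))) (.non (nat_lit 1) (nat_lit 3) (nat_lit 0x55400) (nat_lit 0x1000100010001000100000000000000000000))) (.non (nat_lit 1) (nat_lit 3) (nat_lit 0x55500) (nat_lit 0x1000100010001000100010000000000000000))) (.non (nat_lit 1) (nat_lit 5) (nat_lit 0x54140) (nat_lit 0x3000200010000000000030004000000000000))) (.non (nat_lit 1) (nat_lit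 3) (nat_lit 0x54010) (nat_lit 0x1000100010000000000000000000100000000))) (.non (nat_lit 0) (nat_lit 7) (nat_lit 0x40014) (nat_lit 0x1000000000000000000000000000200020000))) (.non (nat_lit 1) (nat_lit 3) (nat_lit 0x55511) (nat_lit 0x2000300040003000200010000000200000001)))) (.split (nat_lit 9) (nat_lit 1) (.split (nat_lit 9) (nat_lit 2) (.split (nat_lit 9) (nat_lit 3) (.split (nat_lit 9) (nat_lit 4) (.split (nat_lit 9) (nat_lit 5) (.split (nat_lit 9) (nat_lit 6) (.split (nat_lit 9) (nat_lit 7) (.split (nat_lit 9) (nat_lit 8) (.sup (nat_lit 0x100020006000b0010000d000000000000) (nat_lit 0x2000000000000000000000000000400050004)) (.non (nat_lit 1) (nat_lit 3) (nat_lit 0x55511) (nat_lit 0x2000300040003000200010000000200000001))) (.non (nat_lit 1) (nat_lit 3) (nat_lit 0x55010) (nat_lit 0x1000100020001000000000000000100000000))) (.non (nat_lit 1) (nat_lit 3) (nat_lit 0x55410) (nat_lit 0x1000100020002000100000000000100000000))) (.non (nat_lit 1) (nat_lit 3) (nat_lit 0x55510) (nat_lit 0x1000100020002000200010000000100000000)))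 (.non (nat_lit 2) (nat_lit 5) (nat_lit 0x40145) (nat_lit 0x3000000000000000000040003000000010002))) (.non (nat_lit 2) (nat_lit 5) (nat_lit 0x40145) (nat_lit 0x3000000000000000000030004000000010002))) (.non (nat_lit 1) (nat_lit 3) (nat_lit 0x55511) (nat_lit 0x2000200040003000200010000000300000001))) (.non (nat_lit 2) (nat_lit 3) (nat_lit 0x40005) (nat_lit 0x1000000000000000000000000000000010001))))

noncomputable def t185_47 : Tr := (.pd (.cons (nat_lit 0) (nat_lit 7) (nat_lit 0x110) (nat_lit 0x5433120) (nat_lit 0xf423fb71aea2c2804737000010000100000) (.cons (nat_lit 1) (nat_lit 7) (nat_lit 0) (nat_lit 0x5433200) (nat_lit 0xf423fb71aea2c2804737f423f00000f423f) (.cons (nat_lit 2) (nat_lit 7) (nat_lit 0) (nat_lit 0x5433000) (nat_lit 0xf423fb71aea2c280473700000f423fb71ae) .nil))) (.ex (nat_lit 7) (.leaf (.cons (nat_lit 0x4014) (nat_lit 0x10000000000000000000200020000) .nil) (.cons (nat_lit 0x11100100) (nat_lit 0x10010) (nat_lit 2) (nat_lit 0x12300000) (.cons (nat_lit 0x11000100) (nat_lit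 0x100010) (nat_lit 1) (nat_lit 0x12000000) (.cons (nat_lit 0x10000100) (nat_lit 0x1000010) (nat_lit 0) (nat_lit 0x10000000) .nil)))) (.split (nat_lit 8) (nat_lit 1) (.split (nat_lit 8) (nat_lit 2) (.split (nat_lit 8) (nat_lit 3) (.split (nat_lit 8) (nat_lit 4) (.split (nat_lit 8) (nat_lit 5) (.split (nat_lit 8) (nat_lit 6) (.split (nat_lit 8) (nat_lit 0) (.st (nat_lit 7) (nat_lit 1) (nat_lit 3) (nat_lit 0x15010) (nat_lit 0x100020001000000000000000100000000) (nat_lit 1) (nat_lit 1) (.split (nat_lit 8) (nat_lit 7) t185_46 (.non (nat_lit 1) (nat_lit 3) (nat_lit 0x25010) (nat_lit 0x100020001000000000000000100000000)))) (.st (nat_lit 0) (nat_lit 1) (nat_lit 3) (nat_lit 0x15511) (nat_lit 0x300040003000200010000000200000002) (nat_lit 1) (nat_lit 1) (.st (nat_lit 7) (nat_lit 1) (nat_lit 3) (nat_lit 0x15010) (nat_lit 0x100020001000000000000000100000000) (nat_lit 1) (nat_lit 1) (.st (nat_lit 8) (nat_lit 1) (nat_lit 3) (nat_lit 0x15011) (nat_lit 0x200020001000000000000000100000001) (nat_lit 1)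 (nat_lit 1) (.split (nat_lit 8) (nat_lit 0) (.split (nat_lit 8) (nat_lit 7) (.leaf (.cons (nat_lit 0x4014) (nat_lit 0x10000000000000000000200020000) .nil) (.cons (nat_lit 0x111110101) (nat_lit 0x1010) (nat_lit 0xd) (nat_lit 0x204560103) (.cons (nat_lit 0x111100101) (nat_lit 0x10010) (nat_lit 0xc) (nat_lit 0x402300105) (.cons (nat_lit 0x111000101) (nat_lit 0x100010) (nat_lit 8) (nat_lit 0x302000104) .nil)))) (.non (nat_lit 1) (nat_lit 3) (nat_lit 0x25010) (nat_lit 0x100020001000000000000000100000000))) (.non (nat_lit 1) (nat_lit 3) (nat_lit 0x2a021) (nat_lit 0x200020001000000000000000100000002))))))) (.non (nat_lit 1) (nat_lit 3) (nat_lit 0x15000) (nat_lit 0x100010001000000000000000000000000))) (.non (nat_lit 1) (nat_lit 3) (nat_lit 0x15400) (nat_lit 0x100010001000100000000000000000000))) (.non (nat_lit 1) (nat_lit 3) (nat_lit 0x15500) (nat_lit 0x100010001000100010000000000000000))) (.non (nat_lit 1) (nat_lit 5) (nat_lit 0x15140) (nat_lit 0x300020001000000030004000000000000))) (.non (nat_lit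 1) (nat_lit 3) (nat_lit 0x14010) (nat_lit 0x100010000000000000000000100000000))) (.non (nat_lit 0) (nat_lit 7) (nat_lit 0x10014) (nat_lit 0x100000000000000000000000200020000)))))

noncomputable def t185_48 : Tr := (.ex (nat_lit 5) (.pd (.cons (nat_lit 1) (nat_lit 6) (nat_lit 0) (nat_lit 0x20433200) (nat_lit 0xf423f00000f423fb71ae1f156b71ae00000f423f) (.cons (nat_lit 2) (nat_lit 6) (nat_lit 0) (nat_lit 0x70433000) (nat_lit 0xf423f00000f423fb71ae1f15600000f423fb71ae) .nil)) (.ex (nat_lit 6) t185_47 (.split (nat_lit 8) (nat_lit 0) (.split (nat_lit 8) (nat_lit 2) (.split (nat_lit 8) (nat_lit 3) (.split (nat_lit 8) (nat_lit 4) (.split (nat_lit 8) (nat_lit 5) (.split (nat_lit 8) (nat_lit 7) (.split (nat_lit 8) (nat_lit 1) (.unj (nat_lit 0x15) (nat_lit 0x200020001) (nat_lit 0x11540) (nat_lit 0x100000002000300040003000000000000)) (.leaf (.cons (nat_lit 0x10014) (nat_lit 0x100000000000000000000000200020000) (.cons (nat_lit 0x11540) (nat_lit 0x100000002000300040003000000000000) .nil)) .nil)) (.non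 (nat_lit 1) (nat_lit 3) (nat_lit 0x15000) (nat_lit 0x100010001000000000000000000000000))) (.non (nat_lit 1) (nat_lit 3) (nat_lit 0x11400) (nat_lit 0x100000001000100000000000000000000))) (.non (nat_lit 1) (nat_lit 3) (nat_lit 0x11500) (nat_lit 0x100000001000100010000000000000000))) (.non (nat_lit 1) (nat_lit 5) (nat_lit 0x15140) (nat_lit 0x300010002000000030004000000000000))) (.non (nat_lit 1) (nat_lit 3) (nat_lit 0x15010) (nat_lit 0x100010001000000000000000100000000))) (.non (nat_lit 1) (nat_lit 3) (nat_lit 0x15511) (nat_lit 0x200020003000200010000000100000001))))) (.split (nat_lit 8) (nat_lit 2) (.split (nat_lit 8) (nat_lit 4) (.split (nat_lit 8) (nat_lit 6) (.split (nat_lit 8) (nat_lit 7) (.split (nat_lit 8) (nat_lit 0) (.split (nat_lit 8) (nat_lit 1) (.split (nat_lit 8) (nat_lit 3) (.unj (nat_lit 0x15) (nat_lit 0x200020001) (nat_lit 0x11540) (nat_lit 0x100000001000200020002000000000000)) (.unj (nat_lit 0x15) (nat_lit 0x200020001) (nat_lit 0x10540) (nat_lit 0x100000000000100010001000000000000)))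 (.split (nat_lit 8) (nat_lit 3) (.split (nat_lit 8) (nat_lit 1) (.sup (nat_lit 0x9000a0005) (nat_lit 0x1000000030007000a0008000000000000)) (.non (nat_lit 2) (nat_lit 3) (nat_lit 0x22a04) (nat_lit 0x200000001000200010000000000020000))) (.star (nat_lit 8) (nat_lit 1) (nat_lit 3)))) (.split (nat_lit 8) (nat_lit 1) (.split (nat_lit 8) (nat_lit 3) (.sup (nat_lit 0x9000a0004) (nat_lit 0x1000000030007000a0008000000000000)) (.non (nat_lit 2) (nat_lit 5) (nat_lit 0x10145) (nat_lit 0x300000000000000030004000000010002))) (.non (nat_lit 2) (nat_lit 3) (nat_lit 0x10005) (nat_lit 0x100000000000000000000000000010001)))) (.non (nat_lit 1) (nat_lit 3) (nat_lit 0x15400) (nat_lit 0x100010001000100000000000000000000))) (.non (nat_lit 1) (nat_lit 3) (nat_lit 0x11400) (nat_lit 0x100000001000100000000000000000000))) (.non (nat_lit 1) (nat_lit 3) (nat_lit 0x10500) (nat_lit 0x100000000000100010000000000000000))) (.non (nat_lit 1) (nat_lit 3) (nat_lit 0x15410) (nat_lit 0x100010001000100000000000100000000))))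

noncomputable def t185_49 : Tr := (.ex (nat_lit 4) (.split (nat_lit 7) (nat_lit 2) (.split (nat_lit 7) (nat_lit 6) (.pd (.cons (nat_lit 1) (nat_lit 5) (nat_lit 0) (nat_lit 0x27033200) (nat_lit 0xb71aef423f00000f423f54591a2c2800000f423f) (.cons (nat_lit 2) (nat_lit 5) (nat_lit 0) (nat_lit 0x66033000) (nat_lit 0xf423fb71ae00000f423f5459100000f423fb71ae) .nil)) t185_48) (.non (nat_lit 1) (nat_lit 3) (nat_lit 0x6a10) (nat_lit 0x40003000200010000000200000000))) (.split (nat_lit 7) (nat_lit 2) (.split (nat_lit 7) (nat_lit 6) (.pd (.cons (nat_lit 1) (nat_lit 5) (nat_lit 0) (nat_lit 0x27033200) (nat_lit 0xb71aef423f00000f423f545915161200000f423f) (.cons (nat_lit 2) (nat_lit 5) (nat_lit 0) (nat_lit 0x66033000) (nat_lit 0xf423fb71ae00000f423f5459100000f423fb71ae) .nil)) (.st (nat_lit 5) (nat_lit 1) (nat_lit 3) (nat_lit 0xaa10) (nat_lit 0x20002000200010000000200000000) (nat_lit 2) (nat_lit 1) (.pd (.cons (nat_lit 1) (nat_lit 6) (nat_lit 0) (nat_lit 0x20433200) (nat_lit 0xf423f00000f423fb71ae1f1567a11e00000f423f)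 (.cons (nat_lit 2) (nat_lit 6) (nat_lit 0) (nat_lit 0x70433000) (nat_lit 0xf423f00000f423fb71ae1f15600000f423fb71ae) .nil)) (.st (nat_lit 6) (nat_lit 1) (nat_lit 3) (nat_lit 0xa810) (nat_lit 0x20002000100000000000200000000) (nat_lit 2) (nat_lit 1) (.pd (.cons (nat_lit 0) (nat_lit 7) (nat_lit 0x110) (nat_lit 0x5433120) (nat_lit 0xf423fb71aea2c2804737000010000100000) (.cons (nat_lit 1) (nat_lit 7) (nat_lit 0) (nat_lit 0x5433200) (nat_lit 0xf423fb71aea2c2804737f423f00000f423f) (.cons (nat_lit 2) (nat_lit 7) (nat_lit 0) (nat_lit 0x5433000) (nat_lit 0xf423fb71aea2c280473700000f423fb71ae) .nil))) (.st (nat_lit 7) (nat_lit 1) (nat_lit 3) (nat_lit 0xa010) (nat_lit 0x20001000000000000000200000000) (nat_lit 2) (nat_lit 1) (.leaf (.cons (nat_lit 0x4014) (nat_lit 0x10000000000000000000100010000) .nil) (.cons (nat_lit 0x11000100) (nat_lit 0x100010) (nat_lit 6) (nat_lit 0x12000000) .nil)))))))) (.non (nat_lit 1) (nat_lit 3) (nat_lit 0x9010) (nat_lit 0x10001000000000000000100000000))) (.non (nat_lit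 1) (nat_lit 3) (nat_lit 0x5510) (nat_lit 0x40003000200010000000300000000)))) (.split (nat_lit 8) (nat_lit 1) (.split (nat_lit 8) (nat_lit 2) (.split (nat_lit 8) (nat_lit 5) (.split (nat_lit 8) (nat_lit 6) (.split (nat_lit 8) (nat_lit 7) (.split (nat_lit 8) (nat_lit 0) (.split (nat_lit 8) (nat_lit 3) (.unj (nat_lit 0x15) (nat_lit 0x200020001) (nat_lit 0x10540) (nat_lit 0x100000000000100020002000000000000)) (.unj (nat_lit 0x15) (nat_lit 0x200020001) (nat_lit 0x10140) (nat_lit 0x100000000000000010001000000000000))) (.split (nat_lit 8) (nat_lit 3) (.unj (nat_lit 0x4014) (nat_lit 0x10000000000000000000200020000) (nat_lit 0x10540) (nat_lit 0x100000000000100020002000000000000)) (.unj (nat_lit 0x4014) (nat_lit 0x10000000000000000000200020000) (nat_lit 0x10140) (nat_lit 0x100000000000000010001000000000000)))) (.non (nat_lit 1) (nat_lit 3) (nat_lit 0x15500) (nat_lit 0x100010001000100010000000000000000))) (.non (nat_lit 1) (nat_lit 3) (nat_lit 0x11500) (nat_lit 0x100000001000100010000000000000000)))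 (.non (nat_lit 1) (nat_lit 3) (nat_lit 0x10500) (nat_lit 0x100000000000100010000000000000000))) (.star (nat_lit 8) (nat_lit 2) (nat_lit 4))) (.star (nat_lit 8) (nat_lit 1) (nat_lit 4))))

noncomputable def t185_50 : Tr := (.ex (nat_lit 2) (.ex (nat_lit 3) t185_49 (.split (nat_lit 8) (nat_lit 1) (.split (nat_lit 8) (nat_lit 2) (.split (nat_lit 8) (nat_lit 0) (.split (nat_lit 8) (nat_lit 4) (.split (nat_lit 8) (nat_lit 5) (.split (nat_lit 8) (nat_lit 6) (.split (nat_lit 8) (nat_lit 7) (.unj (nat_lit 0x15) (nat_lit 0x200020001) (nat_lit 0x10540) (nat_lit 0x100000000000100020002000000000000)) (.unj (nat_lit 0x15) (nat_lit 0x200020001) (nat_lit 0x10540) (nat_lit 0x100000000000100020002000000000000))) (.split (nat_lit 8) (nat_lit 7) (.unj (nat_lit 0x15) (nat_lit 0x200020001) (nat_lit 0x10540) (nat_lit 0x100000000000100020002000000000000)) (.non (nat_lit 1) (nat_lit 3) (nat_lit 0x15000) (nat_lit 0x100010001000000000000000000000000)))) (.split (nat_lit 8) (nat_lit 6) (.split (nat_lit 8) (nat_lit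 7) (.unj (nat_lit 0x15) (nat_lit 0x200020001) (nat_lit 0x10540) (nat_lit 0x100000000000100010001000000000000)) (.non (nat_lit 1) (nat_lit 3) (nat_lit 0x15400) (nat_lit 0x100010001000100000000000000000000))) (.non (nat_lit 1) (nat_lit 3) (nat_lit 0x11400) (nat_lit 0x100000001000100000000000000000000)))) (.split (nat_lit 8) (nat_lit 5) (.split (nat_lit 8) (nat_lit 6) (.split (nat_lit 8) (nat_lit 7) (.unj (nat_lit 0x15) (nat_lit 0x200020001) (nat_lit 0x10140) (nat_lit 0x100000000000000010001000000000000)) (.non (nat_lit 1) (nat_lit 3) (nat_lit 0x15500) (nat_lit 0x100010001000100010000000000000000))) (.non (nat_lit 1) (nat_lit 3) (nat_lit 0x11500) (nat_lit 0x100000001000100010000000000000000))) (.non (nat_lit 1) (nat_lit 3) (nat_lit 0x10500) (nat_lit 0x100000000000100010000000000000000)))) (.split (nat_lit 8) (nat_lit 6) (.split (nat_lit 8) (nat_lit 7) (.split (nat_lit 8) (nat_lit 4) (.split (nat_lit 8) (nat_lit 5) (.unj (nat_lit 0x4014) (nat_lit 0x10000000000000000000200020000) (nat_lit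 0x10540) (nat_lit 0x100000000000100020002000000000000)) (.unj (nat_lit 0x4014) (nat_lit 0x10000000000000000000200020000) (nat_lit 0x10540) (nat_lit 0x100000000000100010001000000000000))) (.split (nat_lit 8) (nat_lit 5) (.unj (nat_lit 0x4014) (nat_lit 0x10000000000000000000200020000) (nat_lit 0x10140) (nat_lit 0x100000000000000010001000000000000)) (.non (nat_lit 1) (nat_lit 3) (nat_lit 0x10500) (nat_lit 0x100000000000100010000000000000000)))) (.non (nat_lit 1) (nat_lit 4) (nat_lit 0x15051) (nat_lit 0x200020001000000000001000100000001))) (.non (nat_lit 1) (nat_lit 3) (nat_lit 0x15511) (nat_lit 0x200020003000200010000000100000001)))) (.star (nat_lit 8) (nat_lit 2) (nat_lit 3))) (.star (nat_lit 8) (nat_lit 1) (nat_lit 3)))) (.split (nat_lit 8) (nat_lit 3) (.split (nat_lit 8) (nat_lit 4) (.split (nat_lit 8) (nat_lit 5) (.split (nat_lit 8) (nat_lit 6) (.split (nat_lit 8) (nat_lit 7) (.split (nat_lit 8) (nat_lit 0) (.split (nat_lit 8) (nat_lit 1) (.split (nat_lit 8) (nat_lit 2) (.split (nat_lit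 7) (nat_lit 2) (.sup (nat_lit 0x20007000b0010000d000000000000) (nat_lit 0x100000000000000000000000300030002)) (.non (nat_lit 1) (nat_lit 3) (nat_lit 0x1a810) (nat_lit 0x200030002000100000000000400000000))) (.split (nat_lit 8) (nat_lit 2) (.split (nat_lit 7) (nat_lit 2) (.sup (nat_lit 0x700000000000000000000000a00090000) (nat_lit 0x100040007000a0008000000000000)) (.non (nat_lit 1) (nat_lit 3) (nat_lit 0x28010) (nat_lit 0x100010000000000000000000200000000))) (.non (nat_lit 1) (nat_lit 3) (nat_lit 0x15410) (nat_lit 0x300030002000100000000000400000000)))) (.sup (nat_lit 0x8000000000000000000000007000a0000) (nat_lit 0x100040007000a0008000000000000))) (.split (nat_lit 8) (nat_lit 1) (.split (nat_lit 8) (nat_lit 0) (.split (nat_lit 8) (nat_lit 2) (.split (nat_lit 7) (nat_lit 2) (.sup (nat_lit 0x10004000600080006000000000000) (nat_lit 0x100000000000000000000000100010001)) (.non (nat_lit 1) (nat_lit 3) (nat_lit 0x1a810) (nat_lit 0x200030002000100000000000400000000))) (.non (nat_lit 1) (nat_lit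 3) (nat_lit 0x1a021) (nat_lit 0x400020001000000000000000300000002))) (.sup (nat_lit 0x30007000c0010000d000000000000) (nat_lit 0x200000000000000000000000100020002))) (.non (nat_lit 2) (nat_lit 3) (nat_lit 0x10005) (nat_lit 0x100000000000000000000000000010001)))) (.non (nat_lit 1) (nat_lit 3) (nat_lit 0x14010) (nat_lit 0x100010000000000000000000100000000))) (.non (nat_lit 1) (nat_lit 3) (nat_lit 0x15010) (nat_lit 0x100010001000000000000000100000000))) (.non (nat_lit 1) (nat_lit 3) (nat_lit 0x15410) (nat_lit 0x100010001000100000000000100000000))) (.star (nat_lit 8) (nat_lit 2) (nat_lit 4))) (.star (nat_lit 8) (nat_lit 2) (nat_lit 3))))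

noncomputable def t185_51 : Tr := (.st (nat_lit 4) (nat_lit 2) (nat_lit 3) (nat_lit 0x15505) (nat_lit 0x300020004000300020000000000020001) (nat_lit 1) (nat_lit 1) (.st (nat_lit 5) (nat_lit 1) (nat_lit 3) (nat_lit 0x15500) (nat_lit 0x100010002000200010000000000000000) (nat_lit 1) (nat_lit 1) (.ex (nat_lit 3) (.split (nat_lit 7) (nat_lit 2) (.split (nat_lit 7) (nat_lit 6) (.split (nat_lit 8) (nat_lit 6) (.split (nat_lit 8) (nat_lit 1) (.pd (.cons (nat_lit 1) (nat_lit 5) (nat_lit 0) (nat_lit 0x627033200) (nat_lit 0xf423fa2c28b71ae00000f423f545919896500000f423f) (.cons (nat_lit 1) (nat_lit 6) (nat_lit 0) (nat_lit 0x820433200) (nat_lit 0xf423ff423f00000f423fb71ae1f156b71ae00000f423f) (.cons (nat_lit 2) (nat_lit 5) (nat_lit 0) (nat_lit 0x168033000) (nat_lit 0xa2c28f423fb71ae00000f423f545910000098965927bd) (.cons (nat_lit 2) (nat_lit 6) (nat_lit 0) (nat_lit 0x170433000) (nat_lit 0xf423ff423f00000f423fb71ae1f15600000b71aea2c28) .nil)))) (.leaf (.cons (nat_lit 0x10014) (nat_lit 0x100000000000000000000000200020000)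 (.cons (nat_lit 0x11540) (nat_lit 0x100000002000300040003000000000000) .nil)) .nil)) (.non (nat_lit 2) (nat_lit 3) (nat_lit 0x2a804) (nat_lit 0x200010002000100000000000000020000))) (.non (nat_lit 1) (nat_lit 3) (nat_lit 0x25400) (nat_lit 0x100010002000100000000000000000000))) (.non (nat_lit 1) (nat_lit 3) (nat_lit 0x19400) (nat_lit 0x100010002000100000000000000000000))) (.non (nat_lit 1) (nat_lit 3) (nat_lit 0x2a810) (nat_lit 0x100020002000100000000000200000000))) (.split (nat_lit 9) (nat_lit 1) (.split (nat_lit 9) (nat_lit 2) (.split (nat_lit 9) (nat_lit 4) (.split (nat_lit 9) (nat_lit 5) (.split (nat_lit 9) (nat_lit 6) (.split (nat_lit 9) (nat_lit 7) (.split (nat_lit 9) (nat_lit 8) (.split (nat_lit 9) (nat_lit 0) (.unj (nat_lit 0x15) (nat_lit 0x200020001) (nat_lit 0x40540) (nat_lit 0x1000000000000000100020002000000000000)) (.unj (nat_lit 0x4014) (nat_lit 0x10000000000000000000200020000) (nat_lit 0x40540) (nat_lit 0x1000000000000000100020002000000000000))) (.non (nat_lit 1) (nat_lit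 3) (nat_lit 0x55510) (nat_lit 0x1000200020003000200010000000100000000))) (.non (nat_lit 1) (nat_lit 3) (nat_lit 0x55410) (nat_lit 0x1000100020002000100000000000100000000))) (.non (nat_lit 1) (nat_lit 3) (nat_lit 0x55400) (nat_lit 0x1000100010002000100000000000000000000))) (.non (nat_lit 1) (nat_lit 3) (nat_lit 0x55500) (nat_lit 0x1000100010002000200010000000000000000))) (.non (nat_lit 2) (nat_lit 3) (nat_lit 0x55505) (nat_lit 0x1000300020004000300020000000000020001))) (.star (nat_lit 9) (nat_lit 2) (nat_lit 3))) (.star (nat_lit 9) (nat_lit 1) (nat_lit 3))))))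

noncomputable def t185_52 : Tr := (.ex (nat_lit 2) (.ex (nat_lit 3) (.split (nat_lit 7) (nat_lit 2) (.split (nat_lit 7) (nat_lit 6) (.split (nat_lit 5) (nat_lit 0) (.pd (.cons (nat_lit 0) (nat_lit 7) (nat_lit 0x110) (nat_lit 0x5433120) (nat_lit 0xf423fb71aea2c2804737000010000100000) (.cons (nat_lit 1) (nat_lit 5) (nat_lit 0) (nat_lit 0x27033200) (nat_lit 0xb71aef423f00000f423f54591a2c2800000f423f) (.cons (nat_lit 1) (nat_lit 6) (nat_lit 0) (nat_lit 0x20054200) (nat_lit 0xf423f00000437a254591f423fb71ae00000174ea) (.cons (nat_lit 2) (nat_lit 5) (nat_lit 0) (nat_lit 0x66033000) (nat_lit 0xf423fb71ae00000f423f5459100000f423fb71ae) .nil)))) (.leaf (.cons (nat_lit 0x4014) (nat_lit 0x10000000000000000000200020000) (.cons (nat_lit 0x1541) (nat_lit 0x1000200020002000000000001) (.cons (nat_lit 0x545) (nat_lit 0x300040003000000010002) .nil))) (.cons (nat_lit 0x11110011) (nat_lit 0x1100) (nat_lit 0xc) (nat_lit 0x54010032) .nil))) (.non (nat_lit 1) (nat_lit 3) (nat_lit 0x2a01) (nat_lit 0x1000200010000000000000002)))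 (.non (nat_lit 1) (nat_lit 3) (nat_lit 0x6a10) (nat_lit 0x40003000200010000000200000000))) (.non (nat_lit 1) (nat_lit 3) (nat_lit 0x5521) (nat_lit 0x20002000200010000000100000001))) (.split (nat_lit 8) (nat_lit 0) (.split (nat_lit 8) (nat_lit 1) (.split (nat_lit 8) (nat_lit 2) (.split (nat_lit 8) (nat_lit 4) (.split (nat_lit 8) (nat_lit 5) (.split (nat_lit 8) (nat_lit 6) (.split (nat_lit 8) (nat_lit 7) (.unj (nat_lit 0x4014) (nat_lit 0x10000000000000000000200020000) (nat_lit 0x10540) (nat_lit 0x100000000000100020002000000000000)) (.non (nat_lit 1) (nat_lit 3) (nat_lit 0x15511) (nat_lit 0x100020002000200010000000100000001))) (.non (nat_lit 1) (nat_lit 3) (nat_lit 0x15501) (nat_lit 0x100010002000200010000000000000001))) (.non (nat_lit 1) (nat_lit 3) (nat_lit 0x11501) (nat_lit 0x100000001000200010000000000000001))) (.non (nat_lit 2) (nat_lit 3) (nat_lit 0x15505) (nat_lit 0x100010002000300020000000000010002))) (.star (nat_lit 8) (nat_lit 2) (nat_lit 3))) (.star (nat_lit 8) (nat_lit 1) (nat_lit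 3))) (.non (nat_lit 2) (nat_lit 3) (nat_lit 0x11505) (nat_lit 0x100000001000200010000000000010002)))) (.split (nat_lit 8) (nat_lit 0) (.split (nat_lit 8) (nat_lit 3) (.split (nat_lit 8) (nat_lit 4) (.split (nat_lit 8) (nat_lit 5) (.split (nat_lit 8) (nat_lit 6) (.split (nat_lit 8) (nat_lit 7) (.split (nat_lit 8) (nat_lit 1) (.sup (nat_lit 0x500000000000000000000000a00080000) (nat_lit 0x30007000a0008000000000001)) (.sup (nat_lit 0x400000000000000000000000500030000) (nat_lit 0x2000300050004000000000001))) (.non (nat_lit 1) (nat_lit 3) (nat_lit 0x14010) (nat_lit 0x100010000000000000000000100000000))) (.non (nat_lit 1) (nat_lit 3) (nat_lit 0x15010) (nat_lit 0x100010001000000000000000100000000))) (.non (nat_lit 1) (nat_lit 3) (nat_lit 0x15410) (nat_lit 0x100010001000100000000000100000000))) (.star (nat_lit 8) (nat_lit 2) (nat_lit 4))) (.star (nat_lit 8) (nat_lit 2) (nat_lit 3))) (.non (nat_lit 1) (nat_lit 3) (nat_lit 0x15411) (nat_lit 0x100010001000100000000000100000001))))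

noncomputable def t185_53 : Tr := (.split (nat_lit 5) (nat_lit 0) (.ex (nat_lit 1) t185_50 (.split (nat_lit 8) (nat_lit 0) (.split (nat_lit 8) (nat_lit 3) (.split (nat_lit 8) (nat_lit 4) (.split (nat_lit 8) (nat_lit 2) (.split (nat_lit 8) (nat_lit 5) (.split (nat_lit 8) (nat_lit 6) (.split (nat_lit 8) (nat_lit 7) (.split (nat_lit 8) (nat_lit 1) (.split (nat_lit 7) (nat_lit 2) (.sup (nat_lit 0x10003000600080006000000000000) (nat_lit 0x100000000000000000000000100020001)) (.split (nat_lit 7) (nat_lit 2) (.sup (nat_lit 0x20006000b0010000d000000000000) (nat_lit 0x200000000000000000000000200040002)) (.non (nat_lit 1) (nat_lit 3) (nat_lit 0x5510) (nat_lit 0x40003000200010000000300000000)))) (.sup (nat_lit 0x3900000000000000000000002c00500000) (nat_lit 0x6001f003700500041000000000000))) (.split (nat_lit 8) (nat_lit 1) (.split (nat_lit 8) (nat_lit 7) (.split (nat_lit 7) (nat_lit 2) (.sup (nat_lit 0x3000d00160020001a000000000000) (nat_lit 0x200000000000000000000000500070003)) (.non (nat_lit 1)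 (nat_lit 3) (nat_lit 0x2a010) (nat_lit 0x100020001000000000000000200000000))) (.non (nat_lit 1) (nat_lit 3) (nat_lit 0x25010) (nat_lit 0x100020001000000000000000100000000))) (.non (nat_lit 2) (nat_lit 3) (nat_lit 0x2a005) (nat_lit 0x300020001000000000000000000040002)))) (.split (nat_lit 8) (nat_lit 7) t185_51 (.non (nat_lit 1) (nat_lit 3) (nat_lit 0x15000) (nat_lit 0x100010001000000000000000000000000)))) (.split (nat_lit 8) (nat_lit 6) (.split (nat_lit 8) (nat_lit 7) (.split (nat_lit 8) (nat_lit 1) (.sup (nat_lit 0x9000a0005) (nat_lit 0x1000000030007000a0008000000000000)) (.non (nat_lit 2) (nat_lit 3) (nat_lit 0x22a04) (nat_lit 0x200000001000200010000000000020000))) (.non (nat_lit 1) (nat_lit 3) (nat_lit 0x15400) (nat_lit 0x100010001000100000000000000000000))) (.non (nat_lit 1) (nat_lit 3) (nat_lit 0x11400) (nat_lit 0x100000001000100000000000000000000)))) (.split (nat_lit 8) (nat_lit 5) (.split (nat_lit 8) (nat_lit 6) (.split (nat_lit 8) (nat_lit 7) (.sup (nat_lit 0x8000000000000000000000007000a0000)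 (nat_lit 0x100040007000a0008000000000000)) (.non (nat_lit 1) (nat_lit 3) (nat_lit 0x14010) (nat_lit 0x100010000000000000000000100000000))) (.non (nat_lit 1) (nat_lit 3) (nat_lit 0x15010) (nat_lit 0x100010001000000000000000100000000))) (.non (nat_lit 1) (nat_lit 3) (nat_lit 0x15410) (nat_lit 0x100010001000100000000000100000000)))) (.star (nat_lit 8) (nat_lit 1) (nat_lit 4))) (.star (nat_lit 8) (nat_lit 1) (nat_lit 3))) (.non (nat_lit 2) (nat_lit 3) (nat_lit 0x10005) (nat_lit 0x100000000000000000000000000010001)))) (.st (nat_lit 0) (nat_lit 2) (nat_lit 3) (nat_lit 0x1505) (nat_lit 0x1000200010000000000010002) (nat_lit 1) (nat_lit 1) (.st (nat_lit 4) (nat_lit 2) (nat_lit 3) (nat_lit 0x5505) (nat_lit 0x10002000300020000000000010002) (nat_lit 1) (nat_lit 1) (.st (nat_lit 5) (nat_lit 1) (nat_lit 3) (nat_lit 0x1501) (nat_lit 0x1000200010000000000000001) (nat_lit 1) (nat_lit 1) (.st (nat_lit 6) (nat_lit 1) (nat_lit 3) (nat_lit 0x5501) (nat_lit 0x10002000200010000000000000001) (nat_lit 1) (nat_lit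 1) (.st (nat_lit 7) (nat_lit 1) (nat_lit 3) (nat_lit 0x5511) (nat_lit 0x20002000200010000000100000001) (nat_lit 1) (nat_lit 1) (.ex (nat_lit 1) t185_52 (.split (nat_lit 8) (nat_lit 0) (.split (nat_lit 8) (nat_lit 3) (.split (nat_lit 8) (nat_lit 4) (.split (nat_lit 8) (nat_lit 5) (.split (nat_lit 8) (nat_lit 6) (.split (nat_lit 8) (nat_lit 7) (.split (nat_lit 8) (nat_lit 2) (.sup (nat_lit 0x5000000000000000000000009000a0000) (nat_lit 0x30007000a0008000000000001)) (.sup (nat_lit 0x400000000000000000000000500030000) (nat_lit 0x2000300050004000000000001))) (.non (nat_lit 1) (nat_lit 3) (nat_lit 0x15511) (nat_lit 0x100020002000200010000000100000001))) (.non (nat_lit 1) (nat_lit 3) (nat_lit 0x15501) (nat_lit 0x100010002000200010000000000000001))) (.non (nat_lit 1) (nat_lit 3) (nat_lit 0x11501) (nat_lit 0x100000001000200010000000000000001))) (.star (nat_lit 8) (nat_lit 1) (nat_lit 4))) (.star (nat_lit 8) (nat_lit 1) (nat_lit 3))) (.non (nat_lit 2) (nat_lit 3) (nat_lit 0x10005) (nat_lit 0x100000000000000000000000000010001))))))))))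

noncomputable def t185_54 : Tr := (.ex (nat_lit 4) (.split (nat_lit 7) (nat_lit 2) (.split (nat_lit 7) (nat_lit 6) (.split (nat_lit 6) (nat_lit 1) (.pd (.cons (nat_lit 1) (nat_lit 5) (nat_lit 0) (nat_lit 0x27033200) (nat_lit 0xb71aef423f00000f423f54591a2c2800000f423f) (.cons (nat_lit 1) (nat_lit 6) (nat_lit 0) (nat_lit 0x20433200) (nat_lit 0xf423f00000f423fb71ae1f156b71ae00000f423f) (.cons (nat_lit 1) (nat_lit 7) (nat_lit 0) (nat_lit 0x5433200) (nat_lit 0xf423fb71aea2c2804737f423f00000f423f) (.cons (nat_lit 2) (nat_lit 5) (nat_lit 0) (nat_lit 0x61033000) (nat_lit 0xf423fb71ae00000f423f5459100000a2c2898965) (.cons (nat_lit 2) (nat_lit 6) (nat_lit 0) (nat_lit 0x70433000) (nat_lit 0xf423f00000f423fb71ae1f15600000f423fb71ae) .nil))))) (.leaf (.cons (nat_lit 0x4014) (nat_lit 0x10000000000000000000200020000) (.cons (nat_lit 0x1544) (nat_lit 0x2000300040003000000010000) .nil)) .nil)) (.non (nat_lit 2) (nat_lit 3) (nat_lit 0xa804) (nat_lit 0x10002000100000000000000020000))) (.non (nat_lit 1)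 (nat_lit 3) (nat_lit 0x6a10) (nat_lit 0x40003000200010000000200000000))) (.split (nat_lit 7) (nat_lit 2) (.split (nat_lit 7) (nat_lit 6) (.split (nat_lit 6) (nat_lit 1) (.pd (.cons (nat_lit 1) (nat_lit 5) (nat_lit 0) (nat_lit 0x27033200) (nat_lit 0xb71aef423f00000f423f545915161200000f423f) (.cons (nat_lit 1) (nat_lit 6) (nat_lit 0) (nat_lit 0x20433200) (nat_lit 0xf423f00000f423fb71ae1f1567a11e00000f423f) (.cons (nat_lit 1) (nat_lit 7) (nat_lit 0) (nat_lit 0x5433200) (nat_lit 0xf423fb71aea2c2804737f423f00000f423f) (.cons (nat_lit 2) (nat_lit 5) (nat_lit 0) (nat_lit 0x61033000) (nat_lit 0xf423fb71ae00000f423f5459100000a2c2898965) (.cons (nat_lit 2) (nat_lit 6) (nat_lit 0) (nat_lit 0x70433000) (nat_lit 0xf423f00000f423fb71ae1f15600000f423fb71ae) .nil))))) (.leaf (.cons (nat_lit 0x4014) (nat_lit 0x10000000000000000000100010000) (.cons (nat_lit 0x1544) (nat_lit 0x2000300040003000000010000) .nil)) .nil)) (.non (nat_lit 2) (nat_lit 3) (nat_lit 0xa804) (nat_lit 0x10002000100000000000000020000)))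 (.non (nat_lit 1) (nat_lit 3) (nat_lit 0x9010) (nat_lit 0x10001000000000000000100000000))) (.non (nat_lit 1) (nat_lit 3) (nat_lit 0x5510) (nat_lit 0x40003000200010000000300000000)))) (.split (nat_lit 8) (nat_lit 0) (.split (nat_lit 8) (nat_lit 1) (.split (nat_lit 8) (nat_lit 2) (.split (nat_lit 8) (nat_lit 5) (.split (nat_lit 8) (nat_lit 6) (.split (nat_lit 8) (nat_lit 7) (.split (nat_lit 8) (nat_lit 3) (.unj (nat_lit 0x15) (nat_lit 0x200020001) (nat_lit 0x10540) (nat_lit 0x100000000000100020002000000000000)) (.unj (nat_lit 0x15) (nat_lit 0x200020001) (nat_lit 0x10140) (nat_lit 0x100000000000000010001000000000000))) (.non (nat_lit 1) (nat_lit 3) (nat_lit 0x15500) (nat_lit 0x100010001000100010000000000000000))) (.non (nat_lit 1) (nat_lit 3) (nat_lit 0x11500) (nat_lit 0x100000001000100010000000000000000))) (.non (nat_lit 1) (nat_lit 3) (nat_lit 0x10500) (nat_lit 0x100000000000100010000000000000000))) (.star (nat_lit 8) (nat_lit 2) (nat_lit 4))) (.star (nat_lit 8) (nat_lit 1) (nat_lit 4)))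 (.non (nat_lit 2) (nat_lit 3) (nat_lit 0x11505) (nat_lit 0x100000001000100010000000000010001))))

noncomputable def t185_55 : Tr := (.ex (nat_lit 3) (.ex (nat_lit 4) (.split (nat_lit 6) (nat_lit 0) (.split (nat_lit 7) (nat_lit 2) (.split (nat_lit 7) (nat_lit 6) (.pd (.cons (nat_lit 0) (nat_lit 7) (nat_lit 0x110) (nat_lit 0x5433120) (nat_lit 0xf423fb71aea2c2804737000010000100000) (.cons (nat_lit 1) (nat_lit 5) (nat_lit 0) (nat_lit 0x60033700) (nat_lit 0xb71aea2c2800000f423f54591f423f0000098965) (.cons (nat_lit 1) (nat_lit 6) (nat_lit 0) (nat_lit 0x20433200) (nat_lit 0xf423f00000f423fb71ae1f156b71ae00000f423f) (.cons (nat_lit 2) (nat_lit 5) (nat_lit 0) (nat_lit 0x60033000) (nat_lit 0xf423fb71ae00000f423f5459100000f423f65b97) (.cons (nat_lit 2) (nat_lit 6) (nat_lit 0) (nat_lit 0x70433000) (nat_lit 0xf423f00000f423fb71ae1f15600000f423fb71ae) .nil))))) (.leaf (.cons (nat_lit 0x4014) (nat_lit 0x10000000000000000000200020000) (.cons (nat_lit 0x1541) (nat_lit 0x2000300040003000000000001) .nil))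 .nil)) (.non (nat_lit 1) (nat_lit 3) (nat_lit 0x6a10) (nat_lit 0x40003000200010000000200000000))) (.non (nat_lit 1) (nat_lit 3) (nat_lit 0x5421) (nat_lit 0x20002000100000000000100000001))) (.non (nat_lit 1) (nat_lit 3) (nat_lit 0xa801) (nat_lit 0x10002000100000000000000000002))) (.split (nat_lit 8) (nat_lit 0) (.split (nat_lit 8) (nat_lit 1) (.split (nat_lit 8) (nat_lit 2) (.split (nat_lit 8) (nat_lit 5) (.split (nat_lit 8) (nat_lit 6) (.split (nat_lit 8) (nat_lit 7) (.split (nat_lit 8) (nat_lit 3) (.unj (nat_lit 0x15) (nat_lit 0x200020001) (nat_lit 0x10540) (nat_lit 0x100000000000100020002000000000000)) (.unj (nat_lit 0x15) (nat_lit 0x200020001) (nat_lit 0x10140) (nat_lit 0x100000000000000010001000000000000))) (.non (nat_lit 1) (nat_lit 3) (nat_lit 0x15500) (nat_lit 0x100010001000100010000000000000000))) (.non (nat_lit 1) (nat_lit 3) (nat_lit 0x11500) (nat_lit 0x100000001000100010000000000000000))) (.non (nat_lit 1) (nat_lit 3) (nat_lit 0x10500) (nat_lit 0x100000000000100010000000000000000)))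 (.star (nat_lit 8) (nat_lit 2) (nat_lit 4))) (.star (nat_lit 8) (nat_lit 1) (nat_lit 4))) (.non (nat_lit 1) (nat_lit 3) (nat_lit 0x11501) (nat_lit 0x100000001000100010000000000000001)))) (.split (nat_lit 8) (nat_lit 0) (.split (nat_lit 8) (nat_lit 1) (.split (nat_lit 8) (nat_lit 2) (.split (nat_lit 8) (nat_lit 5) (.split (nat_lit 8) (nat_lit 6) (.split (nat_lit 8) (nat_lit 7) (.split (nat_lit 8) (nat_lit 4) (.unj (nat_lit 0x15) (nat_lit 0x200020001) (nat_lit 0x10540) (nat_lit 0x100000000000100020002000000000000)) (.unj (nat_lit 0x15) (nat_lit 0x200020001) (nat_lit 0x10140) (nat_lit 0x100000000000000010001000000000000))) (.non (nat_lit 1) (nat_lit 3) (nat_lit 0x15411) (nat_lit 0x100020002000100000000000100000001))) (.non (nat_lit 1) (nat_lit 3) (nat_lit 0x15401) (nat_lit 0x100010002000100000000000000000001))) (.non (nat_lit 1) (nat_lit 3) (nat_lit 0x15501) (nat_lit 0x100010002000200010000000000000001))) (.star (nat_lit 8) (nat_lit 2) (nat_lit 3))) (.star (nat_lit 8) (nat_lit 1) (nat_lit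 3))) (.non (nat_lit 1) (nat_lit 3) (nat_lit 0x15511) (nat_lit 0x100020003000200010000000100000002))))

noncomputable def t185_56 : Tr := (.split (nat_lit 8) (nat_lit 1) (.st (nat_lit 4) (nat_lit 1) (nat_lit 3) (nat_lit 0x15511) (nat_lit 0x100030004000300020000000200000002) (nat_lit 1) (nat_lit 1) (.ex (nat_lit 3) (.split (nat_lit 6) (nat_lit 0) (.split (nat_lit 7) (nat_lit 2) (.split (nat_lit 8) (nat_lit 2) (.split (nat_lit 7) (nat_lit 6) (.pd (.cons (nat_lit 1) (nat_lit 5) (nat_lit 0) (nat_lit 0x260033700) (nat_lit 0xf423fa2c289896500000f423f54591b71ae00000927bd) (.cons (nat_lit 1) (nat_lit 6) (nat_lit 0) (nat_lit 0x220433200) (nat_lit 0xf423ff423f00000f423fb71ae1f1567a11d00000f423f) (.cons (nat_lit 2) (nat_lit 5) (nat_lit 0) (nat_lit 0x860033000) (nat_lit 0xf423ff423fb71ae00000f423f5459100000f423f65b97) (.cons (nat_lit 2) (nat_lit 6) (nat_lit 0) (nat_lit 0x870433000) (nat_lit 0xf423ff423f00000f423fb71ae1f15600000f423fb71ae) .nil)))) (.leaf (.cons (nat_lit 0x10014) (nat_lit 0x100000000000000000000000200020000)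 (.cons (nat_lit 0x1541) (nat_lit 0x2000300040003000000000001) .nil)) .nil)) (.non (nat_lit 1) (nat_lit 3) (nat_lit 0x16810) (nat_lit 0x100030002000100000000000200000000))) (.non (nat_lit 1) (nat_lit 3) (nat_lit 0x25411) (nat_lit 0x100020002000100000000000200000001))) (.non (nat_lit 1) (nat_lit 3) (nat_lit 0x1a810) (nat_lit 0x200030002000100000000000400000000))) (.non (nat_lit 1) (nat_lit 3) (nat_lit 0xa801) (nat_lit 0x10002000100000000000000000002))) (.split (nat_lit 9) (nat_lit 0) (.split (nat_lit 9) (nat_lit 1) (.split (nat_lit 9) (nat_lit 2) (.split (nat_lit 9) (nat_lit 4) (.split (nat_lit 9) (nat_lit 5) (.split (nat_lit 9) (nat_lit 6) (.split (nat_lit 9) (nat_lit 7) (.split (nat_lit 9) (nat_lit 8) (.unj (nat_lit 0x15) (nat_lit 0x200020001) (nat_lit 0x40540) (nat_lit 0x1000000000000000100020002000000000000)) (.unj (nat_lit 0x15) (nat_lit 0x200020001) (nat_lit 0x40540) (nat_lit 0x1000000000000000100020002000000000000))) (.non (nat_lit 1) (nat_lit 3) (nat_lit 0x45411) (nat_lit 0x1000000020002000100000000000100000001)))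 (.non (nat_lit 1) (nat_lit 3) (nat_lit 0x45401) (nat_lit 0x1000000010002000100000000000000000001))) (.non (nat_lit 1) (nat_lit 3) (nat_lit 0x45501) (nat_lit 0x1000000010002000200010000000000000001))) (.non (nat_lit 1) (nat_lit 3) (nat_lit 0x55511) (nat_lit 0x1000100030004000300020000000200000002))) (.star (nat_lit 9) (nat_lit 2) (nat_lit 3))) (.star (nat_lit 9) (nat_lit 1) (nat_lit 3))) (.non (nat_lit 1) (nat_lit 3) (nat_lit 0x45511) (nat_lit 0x1000000020003000200010000000100000002))))) (.sup (nat_lit 0x400000000000000000000000500030000) (nat_lit 0x2000300050004000000000001)))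

noncomputable def t185_57 : Tr := (.split (nat_lit 8) (nat_lit 7) (.split (nat_lit 8) (nat_lit 2) (.st (nat_lit 4) (nat_lit 2) (nat_lit 3) (nat_lit 0x15505) (nat_lit 0x100020004000300020000000000020003) (nat_lit 1) (nat_lit 1) (.ex (nat_lit 3) (.split (nat_lit 6) (nat_lit 0) (.split (nat_lit 7) (nat_lit 2) (.split (nat_lit 7) (nat_lit 6) (.split (nat_lit 8) (nat_lit 1) (.pd (.cons (nat_lit 1) (nat_lit 5) (nat_lit 0) (nat_lit 0x860033700) (nat_lit 0xf423fb71aea2c2800000f423f54591f423f0000098965) (.cons (nat_lit 1) (nat_lit 6) (nat_lit 0) (nat_lit 0x820433200) (nat_lit 0xf423ff423f00000f423fb71ae1f156b71ae00000f423f) (.cons (nat_lit 2) (nat_lit 5) (nat_lit 0) (nat_lit 0x160033000) (nat_lit 0xf423ff423fb71ae00000f423f5459100000b71ae51611) (.cons (nat_lit 2) (nat_lit 6) (nat_lit 0) (nat_lit 0x170433000) (nat_lit 0xf423ff423f00000f423fb71ae1f15600000b71aea2c28) .nil)))) (.leaf (.cons (nat_lit 0x10014) (nat_lit 0x100000000000000000000000200020000) (.cons (nat_lit 0x1541) (nat_lit 0x2000300040003000000000001)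 .nil)) .nil)) (.non (nat_lit 2) (nat_lit 3) (nat_lit 0x25405) (nat_lit 0x100010002000100000000000000020002))) (.non (nat_lit 1) (nat_lit 3) (nat_lit 0x6a10) (nat_lit 0x40003000200010000000200000000))) (.non (nat_lit 1) (nat_lit 3) (nat_lit 0x5421) (nat_lit 0x20002000100000000000100000001))) (.non (nat_lit 1) (nat_lit 3) (nat_lit 0xa801) (nat_lit 0x10002000100000000000000000002))) (.split (nat_lit 9) (nat_lit 0) (.split (nat_lit 9) (nat_lit 1) (.split (nat_lit 9) (nat_lit 2) (.split (nat_lit 9) (nat_lit 4) (.split (nat_lit 9) (nat_lit 5) (.split (nat_lit 9) (nat_lit 6) (.split (nat_lit 9) (nat_lit 7) (.split (nat_lit 9) (nat_lit 8) (.unj (nat_lit 0x15) (nat_lit 0x200020001) (nat_lit 0x40540) (nat_lit 0x1000000000000000100020002000000000000)) (.unj (nat_lit 0x15) (nat_lit 0x200020001) (nat_lit 0x40540) (nat_lit 0x1000000000000000100020002000000000000))) (.non (nat_lit 1) (nat_lit 3) (nat_lit 0x45411) (nat_lit 0x1000000020002000100000000000100000001))) (.non (nat_lit 1) (nat_lit 3) (nat_lit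 0x45401) (nat_lit 0x1000000010002000100000000000000000001))) (.non (nat_lit 1) (nat_lit 3) (nat_lit 0x45501) (nat_lit 0x1000000010002000200010000000000000001))) (.non (nat_lit 2) (nat_lit 3) (nat_lit 0x55505) (nat_lit 0x1000100020004000300020000000000020003))) (.star (nat_lit 9) (nat_lit 2) (nat_lit 3))) (.star (nat_lit 9) (nat_lit 1) (nat_lit 3))) (.non (nat_lit 1) (nat_lit 3) (nat_lit 0x45511) (nat_lit 0x1000000020003000200010000000100000002))))) (.sup (nat_lit 0x400000000000000000000000500030000) (nat_lit 0x2000300050004000000000001))) (.non (nat_lit 1) (nat_lit 3) (nat_lit 0x15411) (nat_lit 0x100020002000100000000000100000001)))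

noncomputable def t185_58 : Tr := (.split (nat_lit 6) (nat_lit 0) (.split (nat_lit 6) (nat_lit 1) t185_53 (.split (nat_lit 5) (nat_lit 0) (.st (nat_lit 5) (nat_lit 2) (nat_lit 3) (nat_lit 0x5504) (nat_lit 0x10002000200010000000000010000) (nat_lit 1) (nat_lit 1) (.st (nat_lit 6) (nat_lit 2) (nat_lit 3) (nat_lit 0x5404) (nat_lit 0x10002000100000000000000010000) (nat_lit 1) (nat_lit 1) (.ex (nat_lit 3) t185_54 (.split (nat_lit 8) (nat_lit 1) (.split (nat_lit 8) (nat_lit 2) (.split (nat_lit 8) (nat_lit 5) (.split (nat_lit 8) (nat_lit 6) (.split (nat_lit 8) (nat_lit 7) (.split (nat_lit 8) (nat_lit 0) (.split (nat_lit 8) (nat_lit 4) (.unj (nat_lit 0x15) (nat_lit 0x200020001) (nat_lit 0x10540) (nat_lit 0x100000000000100020002000000000000)) (.unj (nat_lit 0x15) (nat_lit 0x200020001) (nat_lit 0x10140) (nat_lit 0x100000000000000010001000000000000))) (.split (nat_lit 8) (nat_lit 4) (.unj (nat_lit 0x4014) (nat_lit 0x10000000000000000000200020000) (nat_lit 0x10540) (nat_lit 0x100000000000100020002000000000000))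 (.non (nat_lit 2) (nat_lit 3) (nat_lit 0x11505) (nat_lit 0x100000001000100010000000000010001)))) (.non (nat_lit 2) (nat_lit 3) (nat_lit 0x15505) (nat_lit 0x100020003000200010000000000020001))) (.non (nat_lit 2) (nat_lit 3) (nat_lit 0x15404) (nat_lit 0x100010002000100000000000000010000))) (.non (nat_lit 2) (nat_lit 3) (nat_lit 0x15504) (nat_lit 0x100010002000200010000000000010000))) (.star (nat_lit 8) (nat_lit 2) (nat_lit 3))) (.star (nat_lit 8) (nat_lit 1) (nat_lit 3)))))) (.non (nat_lit 2) (nat_lit 3) (nat_lit 0x1405) (nat_lit 0x1000100000000000000010001)))) (.split (nat_lit 6) (nat_lit 1) (.split (nat_lit 5) (nat_lit 0) (.st (nat_lit 5) (nat_lit 1) (nat_lit 3) (nat_lit 0x5501) (nat_lit 0x10002000200010000000000000001) (nat_lit 1) (nat_lit 1) (.st (nat_lit 6) (nat_lit 1) (nat_lit 3) (nat_lit 0x5401) (nat_lit 0x10002000100000000000000000001) (nat_lit 1) (nat_lit 1) (.ex (nat_lit 1) (.ex (nat_lit 2) t185_55 (.split (nat_lit 8) (nat_lit 0) (.split (nat_lit 8) (nat_lit 3) (.split (nat_lit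 8) (nat_lit 4) (.split (nat_lit 8) (nat_lit 5) (.split (nat_lit 8) (nat_lit 6) (.split (nat_lit 8) (nat_lit 7) t185_56 (.non (nat_lit 1) (nat_lit 3) (nat_lit 0x14010) (nat_lit 0x100010000000000000000000100000000))) (.non (nat_lit 1) (nat_lit 3) (nat_lit 0x15010) (nat_lit 0x100010001000000000000000100000000))) (.non (nat_lit 1) (nat_lit 3) (nat_lit 0x15410) (nat_lit 0x100010001000100000000000100000000))) (.star (nat_lit 8) (nat_lit 2) (nat_lit 4))) (.star (nat_lit 8) (nat_lit 2) (nat_lit 3))) (.non (nat_lit 1) (nat_lit 3) (nat_lit 0x15011) (nat_lit 0x100010001000000000000000100000001)))) (.split (nat_lit 8) (nat_lit 0) (.split (nat_lit 8) (nat_lit 3) (.split (nat_lit 8) (nat_lit 4) (.split (nat_lit 8) (nat_lit 5) (.split (nat_lit 8) (nat_lit 6) t185_57 (.non (nat_lit 1) (nat_lit 3) (nat_lit 0x15401) (nat_lit 0x100010002000100000000000000000001))) (.non (nat_lit 1) (nat_lit 3) (nat_lit 0x15501) (nat_lit 0x100010002000200010000000000000001))) (.star (nat_lit 8) (nat_lit 1) (nat_lit 4)))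 (.star (nat_lit 8) (nat_lit 1) (nat_lit 3))) (.non (nat_lit 1) (nat_lit 3) (nat_lit 0x15511) (nat_lit 0x100020003000200010000000100000002)))))) (.non (nat_lit 1) (nat_lit 3) (nat_lit 0x1401) (nat_lit 0x1000100000000000000000001))) (.non (nat_lit 2) (nat_lit 3) (nat_lit 0x1005) (nat_lit 0x1000000000000000000010001))))

noncomputable def t185_59 : Tr := (.ex (nat_lit 0) (.ex (nat_lit 8) (.leaf (.cons (nat_lit 0x4014) (nat_lit 0x10000000000000000000200020000) .nil) (.cons (nat_lit 0x111110011) (nat_lit 0x1100) (nat_lit 5) (nat_lit 0x632100045) (.cons (nat_lit 0x111100011) (nat_lit 0x10100) (nat_lit 4) (nat_lit 0x521000034) (.cons (nat_lit 0x111000011) (nat_lit 0x100100) (nat_lit 3) (nat_lit 0x410000023) .nil)))) (.split (nat_lit 9) (nat_lit 0) (.split (nat_lit 9) (nat_lit 1) (.split (nat_lit 9) (nat_lit 2) (.split (nat_lit 9) (nat_lit 3) (.split (nat_lit 9) (nat_lit 4) (.split (nat_lit 9) (nat_lit 5) (.split (nat_lit 9) (nat_lit 6) (.split (nat_lit 9) (nat_lit 7) (.sup (nat_lit 0x10006000b0010000d000000000000)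 (nat_lit 0x1000200000000000000000000000300040003)) (.non (nat_lit 2) (nat_lit 3) (nat_lit 0x54005) (nat_lit 0x1000100010000000000000000000000010001))) (.non (nat_lit 2) (nat_lit 3) (nat_lit 0x55504) (nat_lit 0x2000100020003000200010000000000010000))) (.non (nat_lit 2) (nat_lit 3) (nat_lit 0x55405) (nat_lit 0x1000100010001000100000000000000010001))) (.non (nat_lit 2) (nat_lit 3) (nat_lit 0x55505) (nat_lit 0x1000100010001000100010000000000010001))) (.non (nat_lit 1) (nat_lit 5) (nat_lit 0x50141) (nat_lit 0x3000200000000000000030004000000000001))) (.non (nat_lit 0) (nat_lit 7) (nat_lit 0x40014) (nat_lit 0x1000000000000000000000000000200020000))) (.non (nat_lit 2) (nat_lit 3) (nat_lit 0x50005) (nat_lit 0x1000100000000000000000000000000010001))) (.non (nat_lit 1) (nat_lit 3) (nat_lit 0x50001) (nat_lit 0x1000100000000000000000000000000000001)))) (.split (nat_lit 9) (nat_lit 1) (.split (nat_lit 9) (nat_lit 2) (.split (nat_lit 9) (nat_lit 3) (.split (nat_lit 9) (nat_lit 4) (.split (nat_lit 9)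 (nat_lit 5) (.split (nat_lit 9) (nat_lit 6) (.split (nat_lit 9) (nat_lit 7) (.split (nat_lit 9) (nat_lit 8) (.sup (nat_lit 0x20006000b0010000d000000000000) (nat_lit 0x1000100000000000000000000000300030003)) (.non (nat_lit 1) (nat_lit 3) (nat_lit 0x50001) (nat_lit 0x1000100000000000000000000000000000001))) (.non (nat_lit 2) (nat_lit 3) (nat_lit 0x44005) (nat_lit 0x1000000010000000000000000000000010001))) (.non (nat_lit 2) (nat_lit 3) (nat_lit 0x45005) (nat_lit 0x1000000010001000000000000000000010001))) (.non (nat_lit 2) (nat_lit 3) (nat_lit 0x45405) (nat_lit 0x1000000010001000100000000000000010001))) (.non (nat_lit 2) (nat_lit 3) (nat_lit 0x45505) (nat_lit 0x1000000010001000100010000000000010001))) (.non (nat_lit 1) (nat_lit 5) (nat_lit 0x50141) (nat_lit 0x3000100000000000000030004000000000002))) (.non (nat_lit 0) (nat_lit 7) (nat_lit 0x40014) (nat_lit 0x1000000000000000000000000000200020000))) (.non (nat_lit 2) (nat_lit 3) (nat_lit 0x40005) (nat_lit 0x1000000000000000000000000000000010001))))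

noncomputable def t185_60 : Tr := (.ex (nat_lit 7) (.ex (nat_lit 0) (.leaf (.cons (nat_lit 0x4014) (nat_lit 0x10000000000000000000200020000) .nil) (.cons (nat_lit 0x11100011) (nat_lit 0x10100) (nat_lit 3) (nat_lit 0x23400010) (.cons (nat_lit 0x11000011) (nat_lit 0x100100) (nat_lit 2) (nat_lit 0x23000010) .nil))) (.split (nat_lit 8) (nat_lit 1) (.split (nat_lit 8) (nat_lit 2) (.split (nat_lit 8) (nat_lit 3) (.split (nat_lit 8) (nat_lit 4) (.split (nat_lit 8) (nat_lit 5) (.split (nat_lit 8) (nat_lit 6) (.split (nat_lit 8) (nat_lit 7) (.split (nat_lit 8) (nat_lit 0) t185_59 (.sup (nat_lit 0x20006000b0010000d000000000000) (nat_lit 0x200000000000000000000000300030003))) (.non (nat_lit 2) (nat_lit 3) (nat_lit 0x14005) (nat_lit 0x100010000000000000000000000010001))) (.non (nat_lit 2) (nat_lit 3) (nat_lit 0x15005) (nat_lit 0x100010001000000000000000000010001))) (.non (nat_lit 2) (nat_lit 3) (nat_lit 0x15405) (nat_lit 0x100010001000100000000000000010001))) (.non (nat_lit 2) (nat_lit 3) (nat_lit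 0x15505) (nat_lit 0x100010001000100010000000000010001))) (.non (nat_lit 2) (nat_lit 5) (nat_lit 0x10145) (nat_lit 0x300000000000000030004000000010002))) (.non (nat_lit 0) (nat_lit 7) (nat_lit 0x10014) (nat_lit 0x100000000000000000000000200020000))) (.non (nat_lit 2) (nat_lit 3) (nat_lit 0x10005) (nat_lit 0x100000000000000000000000000010001)))) (.split (nat_lit 8) (nat_lit 0) (.split (nat_lit 8) (nat_lit 1) (.split (nat_lit 8) (nat_lit 2) (.split (nat_lit 8) (nat_lit 3) (.split (nat_lit 8) (nat_lit 4) (.split (nat_lit 8) (nat_lit 5) (.split (nat_lit 8) (nat_lit 6) (.st (nat_lit 0) (nat_lit 2) (nat_lit 3) (nat_lit 0x15505) (nat_lit 0x200040003000200010000000000030002) (nat_lit 1) (nat_lit 1) (.st (nat_lit 7) (nat_lit 2) (nat_lit 3) (nat_lit 0x15004) (nat_lit 0x100020001000000000000000000010000) (nat_lit 1) (nat_lit 1) (.st (nat_lit 8) (nat_lit 2) (nat_lit 3) (nat_lit 0x15405) (nat_lit 0x200030002000100000000000000020001) (nat_lit 1) (nat_lit 1) (.split (nat_lit 8) (nat_lit 7) (.leaf (.cons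 (nat_lit 0x4014) (nat_lit 0x10000000000000000000200020000) .nil) (.cons (nat_lit 0x111000011) (nat_lit 0x100100) (nat_lit 8) (nat_lit 0x201000034) (.cons (nat_lit 0x110000011) (nat_lit 0x1000100) (nat_lit 2) (nat_lit 0x320000010) .nil))) (.non (nat_lit 2) (nat_lit 3) (nat_lit 0x25004) (nat_lit 0x100020001000000000000000000010000)))))) (.non (nat_lit 1) (nat_lit 3) (nat_lit 0x15000) (nat_lit 0x100010001000000000000000000000000))) (.non (nat_lit 1) (nat_lit 3) (nat_lit 0x15400) (nat_lit 0x100010001000100000000000000000000))) (.non (nat_lit 1) (nat_lit 3) (nat_lit 0x15500) (nat_lit 0x100010001000100010000000000000000))) (.non (nat_lit 2) (nat_lit 4) (nat_lit 0x15445) (nat_lit 0x200030002000100000001000000020001))) (.non (nat_lit 0) (nat_lit 7) (nat_lit 0x10014) (nat_lit 0x100000000000000000000000200020000))) (.non (nat_lit 2) (nat_lit 3) (nat_lit 0x14004) (nat_lit 0x100010000000000000000000000010000))) (.non (nat_lit 2) (nat_lit 3) (nat_lit 0x14005) (nat_lit 0x100010000000000000000000000010001))))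

noncomputable def t185_61 : Tr := (.ex (nat_lit 5) (.pd (.cons (nat_lit 1) (nat_lit 6) (nat_lit 0) (nat_lit 0x70433200) (nat_lit 0xf423f00000f423fb71ae1f156f423f00000f423f) (.cons (nat_lit 2) (nat_lit 6) (nat_lit 0) (nat_lit 0x10433000) (nat_lit 0xf423f00000f423fb71ae1f15600000b71aea2c28) .nil)) (.ex (nat_lit 6) (.pd (.cons (nat_lit 0) (nat_lit 7) (nat_lit 0x110) (nat_lit 0x5433120) (nat_lit 0xf423fb71aea2c2804737000010000100000) (.cons (nat_lit 1) (nat_lit 7) (nat_lit 0) (nat_lit 0x5433200) (nat_lit 0xf423fb71aea2c2804737f423f00000f423f) (.cons (nat_lit 2) (nat_lit 7) (nat_lit 0) (nat_lit 0x5433000) (nat_lit 0xf423fb71aea2c280473700000f423fb71ae) .nil))) t185_60) (.split (nat_lit 8) (nat_lit 0) (.split (nat_lit 8) (nat_lit 1) (.split (nat_lit 8) (nat_lit 3) (.split (nat_lit 8) (nat_lit 4) (.split (nat_lit 8) (nat_lit 5) (.split (nat_lit 8) (nat_lit 7) (.split (nat_lit 8) (nat_lit 2) (.unj (nat_lit 0x15) (nat_lit 0x200020001) (nat_lit 0x11540) (nat_lit 0x100000002000300040003000000000000))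 (.leaf (.cons (nat_lit 0x10014) (nat_lit 0x100000000000000000000000200020000) (.cons (nat_lit 0x11540) (nat_lit 0x100000002000300040003000000000000) .nil)) .nil)) (.non (nat_lit 1) (nat_lit 3) (nat_lit 0x15000) (nat_lit 0x100010001000000000000000000000000))) (.non (nat_lit 1) (nat_lit 3) (nat_lit 0x11400) (nat_lit 0x100000001000100000000000000000000))) (.non (nat_lit 1) (nat_lit 3) (nat_lit 0x11500) (nat_lit 0x100000001000100010000000000000000))) (.non (nat_lit 1) (nat_lit 5) (nat_lit 0x15140) (nat_lit 0x300010002000000030004000000000000))) (.non (nat_lit 2) (nat_lit 3) (nat_lit 0x15004) (nat_lit 0x100010001000000000000000000010000))) (.non (nat_lit 2) (nat_lit 3) (nat_lit 0x15005) (nat_lit 0x100010001000000000000000000010001))))) (.split (nat_lit 8) (nat_lit 0) (.split (nat_lit 8) (nat_lit 1) (.split (nat_lit 8) (nat_lit 4) (.split (nat_lit 8) (nat_lit 6) (.split (nat_lit 8) (nat_lit 7) (.split (nat_lit 8) (nat_lit 2) (.split (nat_lit 8) (nat_lit 3) (.unj (nat_lit 0x15) (nat_lit 0x200020001)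 (nat_lit 0x11540) (nat_lit 0x100000001000200020002000000000000)) (.unj (nat_lit 0x15) (nat_lit 0x200020001) (nat_lit 0x10540) (nat_lit 0x100000000000100010001000000000000))) (.split (nat_lit 8) (nat_lit 3) (.split (nat_lit 8) (nat_lit 2) (.sup (nat_lit 0x8000a0005) (nat_lit 0x1000000030007000a0008000000000000)) (.non (nat_lit 1) (nat_lit 3) (nat_lit 0x22a10) (nat_lit 0x200000001000200010000000200000000))) (.star (nat_lit 8) (nat_lit 2) (nat_lit 3)))) (.non (nat_lit 1) (nat_lit 3) (nat_lit 0x15400) (nat_lit 0x100010001000100000000000000000000))) (.non (nat_lit 1) (nat_lit 3) (nat_lit 0x11400) (nat_lit 0x100000001000100000000000000000000))) (.non (nat_lit 1) (nat_lit 3) (nat_lit 0x10500) (nat_lit 0x100000000000100010000000000000000))) (.non (nat_lit 2) (nat_lit 3) (nat_lit 0x15404) (nat_lit 0x100010001000100000000000000010000))) (.non (nat_lit 2) (nat_lit 3) (nat_lit 0x15405) (nat_lit 0x100010001000100000000000000010001))))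

noncomputable def t185_62 : Tr := (.ex (nat_lit 3) (.ex (nat_lit 4) (.split (nat_lit 7) (nat_lit 1) (.split (nat_lit 7) (nat_lit 6) (.pd (.cons (nat_lit 1) (nat_lit 5) (nat_lit 0) (nat_lit 0x66033200) (nat_lit 0xf423fb71ae00000f423f54591f423f00000f423f) (.cons (nat_lit 2) (nat_lit 5) (nat_lit 0) (nat_lit 0x17033000) (nat_lit 0xb71aef423f00000f423f5459100000a2c2898965) .nil)) t185_61) (.non (nat_lit 2) (nat_lit 3) (nat_lit 0x6a04) (nat_lit 0x40003000200010000000000020000))) (.non (nat_lit 2) (nat_lit 3) (nat_lit 0xa805) (nat_lit 0x30002000100000000000000040002))) (.split (nat_lit 8) (nat_lit 0) (.split (nat_lit 8) (nat_lit 1) (.split (nat_lit 8) (nat_lit 2) (.split (nat_lit 8) (nat_lit 5) (.split (nat_lit 8) (nat_lit 6) (.split (nat_lit 8) (nat_lit 7) (.split (nat_lit 8) (nat_lit 3) (.unj (nat_lit 0x15) (nat_lit 0x200020001) (nat_lit 0x10540) (nat_lit 0x100000000000100020002000000000000)) (.unj (nat_lit 0x15) (nat_lit 0x200020001) (nat_lit 0x10140) (nat_lit 0x100000000000000010001000000000000)))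 (.non (nat_lit 1) (nat_lit 3) (nat_lit 0x15500) (nat_lit 0x100010001000100010000000000000000))) (.non (nat_lit 1) (nat_lit 3) (nat_lit 0x11500) (nat_lit 0x100000001000100010000000000000000))) (.non (nat_lit 1) (nat_lit 3) (nat_lit 0x10500) (nat_lit 0x100000000000100010000000000000000))) (.star (nat_lit 8) (nat_lit 2) (nat_lit 4))) (.star (nat_lit 8) (nat_lit 1) (nat_lit 4))) (.non (nat_lit 2) (nat_lit 3) (nat_lit 0x15505) (nat_lit 0x100010001000100010000000000010001)))) (.split (nat_lit 8) (nat_lit 1) (.split (nat_lit 8) (nat_lit 2) (.split (nat_lit 8) (nat_lit 7) (.split (nat_lit 8) (nat_lit 0) (.split (nat_lit 8) (nat_lit 4) (.split (nat_lit 8) (nat_lit 5) (.split (nat_lit 8) (nat_lit 6) (.unj (nat_lit 0x15) (nat_lit 0x200020001) (nat_lit 0x10540) (nat_lit 0x100000000000100020002000000000000)) (.unj (nat_lit 0x15) (nat_lit 0x200020001) (nat_lit 0x10540) (nat_lit 0x100000000000100020002000000000000))) (.split (nat_lit 8) (nat_lit 6) (.unj (nat_lit 0x15) (nat_lit 0x200020001) (nat_lit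 0x10540) (nat_lit 0x100000000000100010001000000000000)) (.non (nat_lit 1) (nat_lit 3) (nat_lit 0x11400) (nat_lit 0x100000001000100000000000000000000)))) (.split (nat_lit 8) (nat_lit 5) (.split (nat_lit 8) (nat_lit 6) (.unj (nat_lit 0x15) (nat_lit 0x200020001) (nat_lit 0x10140) (nat_lit 0x100000000000000010001000000000000)) (.non (nat_lit 1) (nat_lit 3) (nat_lit 0x11500) (nat_lit 0x100000001000100010000000000000000))) (.non (nat_lit 1) (nat_lit 3) (nat_lit 0x10500) (nat_lit 0x100000000000100010000000000000000)))) (.split (nat_lit 8) (nat_lit 4) (.split (nat_lit 8) (nat_lit 5) (.split (nat_lit 8) (nat_lit 6) (.unj (nat_lit 0x4014) (nat_lit 0x10000000000000000000200020000) (nat_lit 0x10540) (nat_lit 0x100000000000100020002000000000000)) (.non (nat_lit 1) (nat_lit 4) (nat_lit 0x15441) (nat_lit 0x200010002000100000001000000000001))) (.non (nat_lit 2) (nat_lit 3) (nat_lit 0x15405) (nat_lit 0x100010001000100000000000000010001))) (.non (nat_lit 2) (nat_lit 3) (nat_lit 0x15505) (nat_lit 0x100010001000100010000000000010001))))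 (.non (nat_lit 2) (nat_lit 4) (nat_lit 0x15445) (nat_lit 0x200030002000100000001000000020001))) (.star (nat_lit 8) (nat_lit 2) (nat_lit 3))) (.star (nat_lit 8) (nat_lit 1) (nat_lit 3))))

noncomputable def t185_63 : Tr := (.st (nat_lit 4) (nat_lit 2) (nat_lit 3) (nat_lit 0x15505) (nat_lit 0x200030004000300020000000000020001) (nat_lit 1) (nat_lit 1) (.st (nat_lit 5) (nat_lit 1) (nat_lit 3) (nat_lit 0x15500) (nat_lit 0x100010002000200010000000000000000) (nat_lit 1) (nat_lit 1) (.ex (nat_lit 3) (.split (nat_lit 8) (nat_lit 2) (.split (nat_lit 7) (nat_lit 6) (.split (nat_lit 8) (nat_lit 6) (.split (nat_lit 7) (nat_lit 1) (.pd (.cons (nat_lit 1) (nat_lit 5) (nat_lit 0) (nat_lit 0x268033200) (nat_lit 0xa2c28f423fb71ae00000f423f545919896500000f423f) (.cons (nat_lit 1) (nat_lit 6) (nat_lit 0) (nat_lit 0x270433200) (nat_lit 0xf423ff423f00000f423fb71ae1f156b71ae00000f423f) (.cons (nat_lit 2) (nat_lit 5) (nat_lit 0) (nat_lit 0x617033000) (nat_lit 0xf423fa2c28b71ae00000f423f545910000098965927bd)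 (.cons (nat_lit 2) (nat_lit 6) (nat_lit 0) (nat_lit 0x810433000) (nat_lit 0xf423ff423f00000f423fb71ae1f15600000b71aea2c28) .nil)))) (.leaf (.cons (nat_lit 0x10014) (nat_lit 0x100000000000000000000000200020000) (.cons (nat_lit 0x11540) (nat_lit 0x100000002000300040003000000000000) .nil)) .nil)) (.non (nat_lit 2) (nat_lit 3) (nat_lit 0x2a804) (nat_lit 0x100020002000100000000000000020000))) (.non (nat_lit 1) (nat_lit 3) (nat_lit 0x25400) (nat_lit 0x100010002000100000000000000000000))) (.non (nat_lit 1) (nat_lit 3) (nat_lit 0x19400) (nat_lit 0x100010002000100000000000000000000))) (.non (nat_lit 1) (nat_lit 3) (nat_lit 0x2a810) (nat_lit 0x200010002000100000000000200000000))) (.split (nat_lit 9) (nat_lit 1) (.split (nat_lit 9) (nat_lit 2) (.split (nat_lit 9) (nat_lit 4) (.split (nat_lit 9) (nat_lit 5) (.split (nat_lit 9) (nat_lit 6) (.split (nat_lit 9) (nat_lit 7) (.split (nat_lit 9) (nat_lit 8) (.split (nat_lit 9) (nat_lit 0) (.unj (nat_lit 0x15) (nat_lit 0x200020001) (nat_lit 0x40540) (nat_lit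 0x1000000000000000100020002000000000000)) (.unj (nat_lit 0x4014) (nat_lit 0x10000000000000000000200020000) (nat_lit 0x40540) (nat_lit 0x1000000000000000100020002000000000000))) (.non (nat_lit 1) (nat_lit 3) (nat_lit 0x55410) (nat_lit 0x1000200010002000100000000000100000000))) (.non (nat_lit 1) (nat_lit 3) (nat_lit 0x55510) (nat_lit 0x1000200020003000200010000000100000000))) (.non (nat_lit 1) (nat_lit 3) (nat_lit 0x55400) (nat_lit 0x1000100010002000100000000000000000000))) (.non (nat_lit 1) (nat_lit 3) (nat_lit 0x55500) (nat_lit 0x1000100010002000200010000000000000000))) (.non (nat_lit 2) (nat_lit 3) (nat_lit 0x55505) (nat_lit 0x1000200030004000300020000000000020001))) (.star (nat_lit 9) (nat_lit 2) (nat_lit 3))) (.star (nat_lit 9) (nat_lit 1) (nat_lit 3))))))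

noncomputable def t185_64 : Tr := (.split (nat_lit 8) (nat_lit 0) (.split (nat_lit 8) (nat_lit 1) (.split (nat_lit 8) (nat_lit 5) (.split (nat_lit 8) (nat_lit 6) (.split (nat_lit 8) (nat_lit 7) (.split (nat_lit 8) (nat_lit 2) (.split (nat_lit 7) (nat_lit 1) (.sup (nat_lit 0x20007000b0010000d000000000000) (nat_lit 0x200000000000000000000000300030001)) (.non (nat_lit 2) (nat_lit 3) (nat_lit 0xa805) (nat_lit 0x30002000100000000000000040002))) (.sup (nat_lit 0x39000000000000000000000050002c0000) (nat_lit 0x6001f003700500041000000000000))) (.split (nat_lit 8) (nat_lit 2) (.split (nat_lit 8) (nat_lit 7) (.split (nat_lit 7) (nat_lit 1) (.sup (nat_lit 0x90031005800800068000000000000) (nat_lit 0x70000000000000000000000180017000b)) (.non (nat_lit 2) (nat_lit 3) (nat_lit 0x2a004) (nat_lit 0x100020001000000000000000000020000))) (.non (nat_lit 1) (nat_lit 3) (nat_lit 0x1a810) (nat_lit 0x400030002000100000000000200000000))) (.split (nat_lit 8) (nat_lit 2) (.split (nat_lit 8) (nat_lit 7) (.split (nat_lit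 7) (nat_lit 1) (.sup (nat_lit 0x2900000000000000000000005000390000) (nat_lit 0x6001f003700500041000000000000)) (.non (nat_lit 2) (nat_lit 3) (nat_lit 0x2a004) (nat_lit 0x100020001000000000000000000020000))) (.non (nat_lit 1) (nat_lit 3) (nat_lit 0x24010) (nat_lit 0x100010000000000000000000100000000))) (.non (nat_lit 1) (nat_lit 3) (nat_lit 0x15410) (nat_lit 0x400030002000100000000000300000000))))) (.split (nat_lit 8) (nat_lit 7) t185_63 (.non (nat_lit 1) (nat_lit 3) (nat_lit 0x15000) (nat_lit 0x100010001000000000000000000000000)))) (.split (nat_lit 8) (nat_lit 6) (.split (nat_lit 8) (nat_lit 7) (.split (nat_lit 8) (nat_lit 2) (.sup (nat_lit 0x8000a0005) (nat_lit 0x1000000030007000a0008000000000000)) (.non (nat_lit 1) (nat_lit 3) (nat_lit 0x22a10) (nat_lit 0x200000001000200010000000200000000))) (.non (nat_lit 1) (nat_lit 3) (nat_lit 0x15400) (nat_lit 0x100010001000100000000000000000000))) (.non (nat_lit 1) (nat_lit 3) (nat_lit 0x11400) (nat_lit 0x100000001000100000000000000000000))))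 (.split (nat_lit 8) (nat_lit 5) (.split (nat_lit 8) (nat_lit 6) (.split (nat_lit 8) (nat_lit 7) (.sup (nat_lit 0x800000000000000000000000a00070000) (nat_lit 0x100040007000a0008000000000000)) (.non (nat_lit 2) (nat_lit 3) (nat_lit 0x14004) (nat_lit 0x100010000000000000000000000010000))) (.non (nat_lit 2) (nat_lit 3) (nat_lit 0x15004) (nat_lit 0x100010001000000000000000000010000))) (.non (nat_lit 2) (nat_lit 3) (nat_lit 0x15404) (nat_lit 0x100010001000100000000000000010000)))) (.split (nat_lit 8) (nat_lit 1) (.split (nat_lit 8) (nat_lit 5) (.split (nat_lit 8) (nat_lit 6) (.split (nat_lit 8) (nat_lit 7) (.split (nat_lit 8) (nat_lit 0) (.split (nat_lit 8) (nat_lit 2) (.split (nat_lit 7) (nat_lit 1) (.sup (nat_lit 0x10004000600080006000000000000) (nat_lit 0x100000000000000000000000100010001)) (.non (nat_lit 2) (nat_lit 3) (nat_lit 0x1a005) (nat_lit 0x100020001000000000000000000030002))) (.sup (nat_lit 0x39000000000000000000000050002c0000) (nat_lit 0x6001f003700500041000000000000))) (.sup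 (nat_lit 0x30007000c0010000d000000000000) (nat_lit 0x200000000000000000000000200010002))) (.non (nat_lit 2) (nat_lit 3) (nat_lit 0x14005) (nat_lit 0x100010000000000000000000000010001))) (.non (nat_lit 1) (nat_lit 3) (nat_lit 0x15411) (nat_lit 0x200010002000100000000000100000001))) (.non (nat_lit 1) (nat_lit 3) (nat_lit 0x11511) (nat_lit 0x200000001000200010000000100000001))) (.non (nat_lit 2) (nat_lit 3) (nat_lit 0x10005) (nat_lit 0x100000000000000000000000000010001))))

noncomputable def t185_65 : Tr := (.ex (nat_lit 3) (.ex (nat_lit 4) (.split (nat_lit 6) (nat_lit 2) (.split (nat_lit 7) (nat_lit 6) (.split (nat_lit 7) (nat_lit 1) (.pd (.cons (nat_lit 1) (nat_lit 5) (nat_lit 0) (nat_lit 0x62033200) (nat_lit 0xf423fb71ae00000f423f54591a2c2800000f423f) (.cons (nat_lit 1) (nat_lit 6) (nat_lit 0) (nat_lit 0x70433200) (nat_lit 0xf423f00000f423fb71ae1f156f423f00000f423f) (.cons (nat_lit 2) (nat_lit 5) (nat_lit 0) (nat_lit 0x17033000) (nat_lit 0xb71aef423f00000f423f5459100000a2c2898965) (.cons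 (nat_lit 2) (nat_lit 6) (nat_lit 0) (nat_lit 0x10433000) (nat_lit 0xf423f00000f423fb71ae1f15600000b71aea2c28) (.cons (nat_lit 2) (nat_lit 7) (nat_lit 0) (nat_lit 0x5433000) (nat_lit 0xf423fb71aea2c280473700000f423fb71ae) .nil))))) (.leaf (.cons (nat_lit 0x4014) (nat_lit 0x10000000000000000000200020000) (.cons (nat_lit 0x1550) (nat_lit 0x2000300040003000100000000) .nil)) .nil)) (.non (nat_lit 2) (nat_lit 3) (nat_lit 0xa805) (nat_lit 0x30002000100000000000000040002))) (.non (nat_lit 1) (nat_lit 3) (nat_lit 0x9410) (nat_lit 0x10002000100000000000100000000))) (.non (nat_lit 1) (nat_lit 3) (nat_lit 0xa810) (nat_lit 0x10002000100000000000200000000))) (.split (nat_lit 8) (nat_lit 0) (.split (nat_lit 8) (nat_lit 1) (.split (nat_lit 8) (nat_lit 2) (.split (nat_lit 8) (nat_lit 5) (.split (nat_lit 8) (nat_lit 6) (.split (nat_lit 8) (nat_lit 7) (.split (nat_lit 8) (nat_lit 3) (.unj (nat_lit 0x15) (nat_lit 0x200020001) (nat_lit 0x10540) (nat_lit 0x100000000000100020002000000000000)) (.unj (nat_lit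 0x15) (nat_lit 0x200020001) (nat_lit 0x10140) (nat_lit 0x100000000000000010001000000000000))) (.non (nat_lit 1) (nat_lit 3) (nat_lit 0x15500) (nat_lit 0x100010001000100010000000000000000))) (.non (nat_lit 1) (nat_lit 3) (nat_lit 0x11500) (nat_lit 0x100000001000100010000000000000000))) (.non (nat_lit 1) (nat_lit 3) (nat_lit 0x10500) (nat_lit 0x100000000000100010000000000000000))) (.star (nat_lit 8) (nat_lit 2) (nat_lit 4))) (.star (nat_lit 8) (nat_lit 1) (nat_lit 4))) (.non (nat_lit 2) (nat_lit 3) (nat_lit 0x15505) (nat_lit 0x100010001000100010000000000010001)))) (.split (nat_lit 8) (nat_lit 1) (.split (nat_lit 8) (nat_lit 2) (.split (nat_lit 8) (nat_lit 5) (.split (nat_lit 8) (nat_lit 6) (.split (nat_lit 8) (nat_lit 7) (.split (nat_lit 8) (nat_lit 0) (.split (nat_lit 8) (nat_lit 4) (.unj (nat_lit 0x15) (nat_lit 0x200020001) (nat_lit 0x10540) (nat_lit 0x100000000000100020002000000000000)) (.unj (nat_lit 0x15) (nat_lit 0x200020001) (nat_lit 0x10140) (nat_lit 0x100000000000000010001000000000000)))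 (.split (nat_lit 8) (nat_lit 4) (.unj (nat_lit 0x4014) (nat_lit 0x10000000000000000000200020000) (nat_lit 0x10540) (nat_lit 0x100000000000100020002000000000000)) (.non (nat_lit 2) (nat_lit 3) (nat_lit 0x15505) (nat_lit 0x100010001000100010000000000010001)))) (.non (nat_lit 2) (nat_lit 4) (nat_lit 0x15445) (nat_lit 0x200030002000100000001000000020001))) (.non (nat_lit 1) (nat_lit 3) (nat_lit 0x15410) (nat_lit 0x100010002000100000000000100000000))) (.non (nat_lit 1) (nat_lit 3) (nat_lit 0x15510) (nat_lit 0x100010002000200010000000100000000))) (.star (nat_lit 8) (nat_lit 2) (nat_lit 3))) (.star (nat_lit 8) (nat_lit 1) (nat_lit 3))))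

noncomputable def t185_66 : Tr := (.ex (nat_lit 5) (.pd (.cons (nat_lit 1) (nat_lit 6) (nat_lit 0) (nat_lit 0x20433200) (nat_lit 0xf423f00000f423fb71ae1f156b71ae00000f423f) (.cons (nat_lit 2) (nat_lit 6) (nat_lit 0) (nat_lit 0x10433000) (nat_lit 0xf423f00000f423fb71ae1f15600000b71aea2c28) .nil)) (.ex (nat_lit 6) (.pd (.cons (nat_lit 0) (nat_lit 7) (nat_lit 0x110) (nat_lit 0x5433120) (nat_lit 0xf423fb71aea2c2804737000010000100000) (.cons (nat_lit 1) (nat_lit 7) (nat_lit 0) (nat_lit 0x5433200) (nat_lit 0xf423fb71aea2c2804737f423f00000f423f) (.cons (nat_lit 2) (nat_lit 7) (nat_lit 0) (nat_lit 0x5433000) (nat_lit 0xf423fb71aea2c280473700000f423fb71ae) .nil))) (.leaf (.cons (nat_lit 0x4014) (nat_lit 0x10000000000000000000100010000) .nil) .nil)) (.split (nat_lit 8) (nat_lit 0) (.split (nat_lit 8) (nat_lit 1) (.split (nat_lit 8) (nat_lit 2) (.split (nat_lit 8) (nat_lit 3) (.split (nat_lit 8) (nat_lit 4) (.split (nat_lit 8) (nat_lit 5) (.split (nat_lit 8) (nat_lit 7) (.unj (nat_lit 0x15) (nat_lit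 0x200020001) (nat_lit 0x11540) (nat_lit 0x100000002000300040003000000000000)) (.non (nat_lit 1) (nat_lit 3) (nat_lit 0x15000) (nat_lit 0x100010001000000000000000000000000))) (.non (nat_lit 1) (nat_lit 3) (nat_lit 0x11400) (nat_lit 0x100000001000100000000000000000000))) (.non (nat_lit 1) (nat_lit 3) (nat_lit 0x11500) (nat_lit 0x100000001000100010000000000000000))) (.non (nat_lit 1) (nat_lit 5) (nat_lit 0x15140) (nat_lit 0x300010002000000030004000000000000))) (.non (nat_lit 1) (nat_lit 3) (nat_lit 0x15010) (nat_lit 0x100010001000000000000000100000000))) (.non (nat_lit 2) (nat_lit 3) (nat_lit 0x15004) (nat_lit 0x100010001000000000000000000010000))) (.non (nat_lit 1) (nat_lit 3) (nat_lit 0x15511) (nat_lit 0x200020003000200010000000100000001))))) (.split (nat_lit 8) (nat_lit 0) (.split (nat_lit 8) (nat_lit 1) (.split (nat_lit 8) (nat_lit 2) (.split (nat_lit 8) (nat_lit 4) (.split (nat_lit 8) (nat_lit 6) (.split (nat_lit 8) (nat_lit 7) (.split (nat_lit 8) (nat_lit 3) (.unj (nat_lit 0x15) (nat_lit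 0x200020001) (nat_lit 0x11540) (nat_lit 0x100000001000200020002000000000000)) (.unj (nat_lit 0x15) (nat_lit 0x200020001) (nat_lit 0x10540) (nat_lit 0x100000000000100010001000000000000))) (.non (nat_lit 1) (nat_lit 3) (nat_lit 0x15400) (nat_lit 0x100010001000100000000000000000000))) (.non (nat_lit 1) (nat_lit 3) (nat_lit 0x11400) (nat_lit 0x100000001000100000000000000000000))) (.non (nat_lit 1) (nat_lit 3) (nat_lit 0x10500) (nat_lit 0x100000000000100010000000000000000))) (.non (nat_lit 1) (nat_lit 3) (nat_lit 0x15410) (nat_lit 0x100010001000100000000000100000000))) (.non (nat_lit 2) (nat_lit 3) (nat_lit 0x15404) (nat_lit 0x100010001000100000000000000010000))) (.non (nat_lit 2) (nat_lit 3) (nat_lit 0x15405) (nat_lit 0x100010001000100000000000000010001))))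

noncomputable def t185_67 : Tr := (.ex (nat_lit 4) (.split (nat_lit 7) (nat_lit 2) (.split (nat_lit 7) (nat_lit 6) (.split (nat_lit 7) (nat_lit 1) (.pd (.cons (nat_lit 1) (nat_lit 5) (nat_lit 0) (nat_lit 0x27033200) (nat_lit 0xb71aef423f00000f423f54591a2c2800000f423f) (.cons (nat_lit 2) (nat_lit 5) (nat_lit 0) (nat_lit 0x17033000) (nat_lit 0xb71aef423f00000f423f5459100000a2c2898965) .nil)) t185_66) (.non (nat_lit 2) (nat_lit 3) (nat_lit 0xa805) (nat_lit 0x30002000100000000000000040002))) (.non (nat_lit 1) (nat_lit 3) (nat_lit 0x6a10) (nat_lit 0x40003000200010000000200000000))) (.split (nat_lit 7) (nat_lit 2) (.split (nat_lit 7) (nat_lit 6) (.split (nat_lit 7) (nat_lit 1) (.pd (.cons (nat_lit 1) (nat_lit 5) (nat_lit 0) (nat_lit 0x27033200) (nat_lit 0xb71aef423f00000f423f545915161200000f423f) (.cons (nat_lit 2) (nat_lit 5) (nat_lit 0) (nat_lit 0x17033000) (nat_lit 0xb71aef423f00000f423f5459100000a2c2898965) .nil)) (.st (nat_lit 5) (nat_lit 1) (nat_lit 3) (nat_lit 0xaa10) (nat_lit 0x20002000200010000000200000000)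 (nat_lit 2) (nat_lit 1) (.pd (.cons (nat_lit 1) (nat_lit 6) (nat_lit 0) (nat_lit 0x20433200) (nat_lit 0xf423f00000f423fb71ae1f1567a11e00000f423f) (.cons (nat_lit 2) (nat_lit 6) (nat_lit 0) (nat_lit 0x10433000) (nat_lit 0xf423f00000f423fb71ae1f15600000b71aea2c28) .nil)) (.st (nat_lit 6) (nat_lit 1) (nat_lit 3) (nat_lit 0xa810) (nat_lit 0x20002000100000000000200000000) (nat_lit 2) (nat_lit 1) (.pd (.cons (nat_lit 0) (nat_lit 7) (nat_lit 0x110) (nat_lit 0x5433120) (nat_lit 0xf423fb71aea2c2804737000010000100000) (.cons (nat_lit 1) (nat_lit 7) (nat_lit 0) (nat_lit 0x5433200) (nat_lit 0xf423fb71aea2c2804737f423f00000f423f) (.cons (nat_lit 2) (nat_lit 7) (nat_lit 0) (nat_lit 0x5433000) (nat_lit 0xf423fb71aea2c280473700000f423fb71ae) .nil))) (.leaf (.cons (nat_lit 0x4014) (nat_lit 0x10000000000000000000100010000) .nil) .nil)))))) (.non (nat_lit 2) (nat_lit 3) (nat_lit 0xa805) (nat_lit 0x30002000100000000000000040002))) (.non (nat_lit 1) (nat_lit 3) (nat_lit 0x9010) (nat_lit 0x10001000000000000000100000000)))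 (.non (nat_lit 1) (nat_lit 3) (nat_lit 0x5510) (nat_lit 0x40003000200010000000300000000)))) (.split (nat_lit 8) (nat_lit 0) (.split (nat_lit 8) (nat_lit 1) (.split (nat_lit 8) (nat_lit 2) (.split (nat_lit 8) (nat_lit 5) (.split (nat_lit 8) (nat_lit 6) (.split (nat_lit 8) (nat_lit 7) (.split (nat_lit 8) (nat_lit 3) (.unj (nat_lit 0x15) (nat_lit 0x200020001) (nat_lit 0x10540) (nat_lit 0x100000000000100020002000000000000)) (.unj (nat_lit 0x15) (nat_lit 0x200020001) (nat_lit 0x10140) (nat_lit 0x100000000000000010001000000000000))) (.non (nat_lit 1) (nat_lit 3) (nat_lit 0x15500) (nat_lit 0x100010001000100010000000000000000))) (.non (nat_lit 1) (nat_lit 3) (nat_lit 0x11500) (nat_lit 0x100000001000100010000000000000000))) (.non (nat_lit 1) (nat_lit 3) (nat_lit 0x10500) (nat_lit 0x100000000000100010000000000000000))) (.star (nat_lit 8) (nat_lit 2) (nat_lit 4))) (.star (nat_lit 8) (nat_lit 1) (nat_lit 4))) (.non (nat_lit 2) (nat_lit 3) (nat_lit 0x15505) (nat_lit 0x100010001000100010000000000010001))))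

noncomputable def t185_68 : Tr := (.ex (nat_lit 5) (.pd (.cons (nat_lit 1) (nat_lit 6) (nat_lit 0) (nat_lit 0x220433200) (nat_lit 0xf423ff423f00000f423fb71ae1f1567a11d00000f423f) (.cons (nat_lit 2) (nat_lit 6) (nat_lit 0) (nat_lit 0x810433000) (nat_lit 0xf423ff423f00000f423fb71ae1f15600000b71aea2c28) .nil)) (.ex (nat_lit 6) (.pd (.cons (nat_lit 1) (nat_lit 7) (nat_lit 0) (nat_lit 0x205433200) (nat_lit 0xf423f00000f423fb71aea2c2804737b71ae00000f423f) (.cons (nat_lit 2) (nat_lit 7) (nat_lit 0) (nat_lit 0x805433000) (nat_lit 0xf423f00000f423fb71aea2c280473700000f423fb71ae) .nil)) (.leaf (.cons (nat_lit 0x10014) (nat_lit 0x100000000000000000000000200020000) .nil) .nil)) (.split (nat_lit 9) (nat_lit 0) (.split (nat_lit 9) (nat_lit 1) (.split (nat_lit 9) (nat_lit 2) (.split (nat_lit 9) (nat_lit 3) (.split (nat_lit 9) (nat_lit 4) (.split (nat_lit 9) (nat_lit 5) (.split (nat_lit 9) (nat_lit 7) (.split (nat_lit 9) (nat_lit 8) (.unj (nat_lit 0x15) (nat_lit 0x200020001) (nat_lit 0x41540) (nat_lit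 0x1000000000002000300040003000000000000)) (.non (nat_lit 1) (nat_lit 3) (nat_lit 0x55010) (nat_lit 0x1000100010001000000000000000100000000))) (.non (nat_lit 1) (nat_lit 3) (nat_lit 0x45000) (nat_lit 0x1000000010001000000000000000000000000))) (.non (nat_lit 1) (nat_lit 3) (nat_lit 0x41400) (nat_lit 0x1000000000001000100000000000000000000))) (.non (nat_lit 1) (nat_lit 3) (nat_lit 0x41500) (nat_lit 0x1000000000001000100010000000000000000))) (.non (nat_lit 1) (nat_lit 5) (nat_lit 0x45140) (nat_lit 0x3000000010002000000030004000000000000))) (.non (nat_lit 1) (nat_lit 3) (nat_lit 0x45010) (nat_lit 0x1000000010001000000000000000100000000))) (.non (nat_lit 2) (nat_lit 3) (nat_lit 0x45004) (nat_lit 0x1000000010001000000000000000000010000))) (.non (nat_lit 1) (nat_lit 3) (nat_lit 0x45511) (nat_lit 0x2000000020003000200010000000100000001))))) (.split (nat_lit 9) (nat_lit 0) (.split (nat_lit 9) (nat_lit 1) (.split (nat_lit 9) (nat_lit 2) (.split (nat_lit 9) (nat_lit 4) (.split (nat_lit 9) (nat_lit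 6) (.split (nat_lit 9) (nat_lit 7) (.split (nat_lit 9) (nat_lit 8) (.split (nat_lit 9) (nat_lit 3) (.unj (nat_lit 0x15) (nat_lit 0x200020001) (nat_lit 0x41540) (nat_lit 0x1000000000001000200020002000000000000)) (.unj (nat_lit 0x15) (nat_lit 0x200020001) (nat_lit 0x40540) (nat_lit 0x1000000000000000100010001000000000000))) (.non (nat_lit 1) (nat_lit 3) (nat_lit 0x55410) (nat_lit 0x1000100010001000100000000000100000000))) (.non (nat_lit 1) (nat_lit 3) (nat_lit 0x45400) (nat_lit 0x1000000010001000100000000000000000000))) (.non (nat_lit 1) (nat_lit 3) (nat_lit 0x41400) (nat_lit 0x1000000000001000100000000000000000000))) (.non (nat_lit 1) (nat_lit 3) (nat_lit 0x40500) (nat_lit 0x1000000000000000100010000000000000000))) (.non (nat_lit 1) (nat_lit 3) (nat_lit 0x45410) (nat_lit 0x1000000010001000100000000000100000000))) (.non (nat_lit 2) (nat_lit 3) (nat_lit 0x45404) (nat_lit 0x1000000010001000100000000000000010000))) (.non (nat_lit 2) (nat_lit 3) (nat_lit 0x45405) (nat_lit 0x1000000010001000100000000000000010001))))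

noncomputable def t185_69 : Tr := (.ex (nat_lit 4) (.split (nat_lit 7) (nat_lit 2) (.split (nat_lit 8) (nat_lit 2) (.split (nat_lit 7) (nat_lit 6) (.split (nat_lit 7) (nat_lit 1) (.pd (.cons (nat_lit 1) (nat_lit 5) (nat_lit 0) (nat_lit 0x227033200) (nat_lit 0xf423fb71aef423f00000f423f5459165b9700000f423f) (.cons (nat_lit 2) (nat_lit 5) (nat_lit 0) (nat_lit 0x817033000) (nat_lit 0xf423fb71aef423f00000f423f5459100000a2c2898965) .nil)) t185_68) (.non (nat_lit 2) (nat_lit 3) (nat_lit 0xa805) (nat_lit 0x30002000100000000000000040002))) (.non (nat_lit 1) (nat_lit 3) (nat_lit 0x16810) (nat_lit 0x100030002000100000000000200000000))) (.split (nat_lit 8) (nat_lit 2) (.split (nat_lit 7) (nat_lit 6) (.split (nat_lit 7) (nat_lit 1) (.pd (.cons (nat_lit 1) (nat_lit 5) (nat_lit 0) (nat_lit 0x227033200) (nat_lit 0xf423fb71aef423f00000f423f5459128b0700000f423f) (.cons (nat_lit 2) (nat_lit 5) (nat_lit 0) (nat_lit 0x817033000) (nat_lit 0xf423fb71aef423f00000f423f5459100000a2c2898965) .nil)) (.st (nat_lit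 5) (nat_lit 1) (nat_lit 3) (nat_lit 0x25510) (nat_lit 0x100020002000200010000000200000000) (nat_lit 1) (nat_lit 1) (.pd (.cons (nat_lit 1) (nat_lit 6) (nat_lit 0) (nat_lit 0x220433200) (nat_lit 0xf423ff423f00000f423fb71ae1f1563d08d00000f423f) (.cons (nat_lit 2) (nat_lit 6) (nat_lit 0) (nat_lit 0x810433000) (nat_lit 0xf423ff423f00000f423fb71ae1f15600000b71aea2c28) .nil)) (.st (nat_lit 6) (nat_lit 1) (nat_lit 3) (nat_lit 0x25410) (nat_lit 0x100020002000100000000000200000000) (nat_lit 1) (nat_lit 1) (.pd (.cons (nat_lit 1) (nat_lit 7) (nat_lit 0) (nat_lit 0x205433200) (nat_lit 0xf423f00000f423fb71aea2c28047377a11e00000f423f) (.cons (nat_lit 2) (nat_lit 7) (nat_lit 0) (nat_lit 0x805433000) (nat_lit 0xf423f00000f423fb71aea2c280473700000f423fb71ae) .nil)) (.leaf (.cons (nat_lit 0x10014) (nat_lit 0x100000000000000000000000100010000) .nil) .nil)))))) (.non (nat_lit 2) (nat_lit 3) (nat_lit 0xa805) (nat_lit 0x30002000100000000000000040002))) (.non (nat_lit 1) (nat_lit 3) (nat_lit 0x26010) (nat_lit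 0x100020001000000000000000200000000))) (.non (nat_lit 1) (nat_lit 3) (nat_lit 0x15410) (nat_lit 0x300030002000100000000000400000000)))) (.non (nat_lit 1) (nat_lit 3) (nat_lit 0x1a810) (nat_lit 0x200030002000100000000000400000000))) (.split (nat_lit 9) (nat_lit 0) (.split (nat_lit 9) (nat_lit 1) (.split (nat_lit 9) (nat_lit 2) (.split (nat_lit 9) (nat_lit 5) (.split (nat_lit 9) (nat_lit 6) (.split (nat_lit 9) (nat_lit 7) (.split (nat_lit 9) (nat_lit 8) (.split (nat_lit 9) (nat_lit 3) (.unj (nat_lit 0x15) (nat_lit 0x200020001) (nat_lit 0x40540) (nat_lit 0x1000000000000000100020002000000000000)) (.unj (nat_lit 0x15) (nat_lit 0x200020001) (nat_lit 0x40140) (nat_lit 0x1000000000000000000010001000000000000))) (.non (nat_lit 1) (nat_lit 3) (nat_lit 0x55510) (nat_lit 0x1000100010001000100010000000100000000))) (.non (nat_lit 1) (nat_lit 3) (nat_lit 0x45500) (nat_lit 0x1000000010001000100010000000000000000))) (.non (nat_lit 1) (nat_lit 3) (nat_lit 0x41500) (nat_lit 0x1000000000001000100010000000000000000)))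 (.non (nat_lit 1) (nat_lit 3) (nat_lit 0x40500) (nat_lit 0x1000000000000000100010000000000000000))) (.star (nat_lit 9) (nat_lit 2) (nat_lit 4))) (.star (nat_lit 9) (nat_lit 1) (nat_lit 4))) (.non (nat_lit 2) (nat_lit 3) (nat_lit 0x45505) (nat_lit 0x1000000010001000100010000000000010001))))

noncomputable def t185_70 : Tr := (.ex (nat_lit 3) t185_69 (.split (nat_lit 9) (nat_lit 1) (.split (nat_lit 9) (nat_lit 2) (.split (nat_lit 9) (nat_lit 7) (.split (nat_lit 9) (nat_lit 0) (.split (nat_lit 9) (nat_lit 4) (.split (nat_lit 9) (nat_lit 5) (.split (nat_lit 9) (nat_lit 6) (.split (nat_lit 9) (nat_lit 8) (.unj (nat_lit 0x15) (nat_lit 0x200020001) (nat_lit 0x40540) (nat_lit 0x1000000000000000100020002000000000000)) (.unj (nat_lit 0x15) (nat_lit 0x200020001) (nat_lit 0x40540) (nat_lit 0x1000000000000000100020002000000000000))) (.split (nat_lit 9) (nat_lit 8) (.unj (nat_lit 0x15) (nat_lit 0x200020001) (nat_lit 0x40540) (nat_lit 0x1000000000000000100020002000000000000)) (.non (nat_lit 1) (nat_lit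 3) (nat_lit 0x55010) (nat_lit 0x1000100010001000000000000000100000000)))) (.split (nat_lit 9) (nat_lit 6) (.split (nat_lit 9) (nat_lit 8) (.unj (nat_lit 0x15) (nat_lit 0x200020001) (nat_lit 0x40540) (nat_lit 0x1000000000000000100010001000000000000)) (.non (nat_lit 1) (nat_lit 3) (nat_lit 0x55410) (nat_lit 0x1000100010001000100000000000100000000))) (.non (nat_lit 1) (nat_lit 3) (nat_lit 0x41400) (nat_lit 0x1000000000001000100000000000000000000)))) (.split (nat_lit 9) (nat_lit 5) (.split (nat_lit 9) (nat_lit 6) (.split (nat_lit 9) (nat_lit 8) (.unj (nat_lit 0x15) (nat_lit 0x200020001) (nat_lit 0x40140) (nat_lit 0x1000000000000000000010001000000000000)) (.non (nat_lit 1) (nat_lit 3) (nat_lit 0x55510) (nat_lit 0x1000100010001000100010000000100000000))) (.non (nat_lit 1) (nat_lit 3) (nat_lit 0x41500) (nat_lit 0x1000000000001000100010000000000000000))) (.non (nat_lit 1) (nat_lit 3) (nat_lit 0x40500) (nat_lit 0x1000000000000000100010000000000000000)))) (.split (nat_lit 9) (nat_lit 4) (.split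 (nat_lit 9) (nat_lit 5) (.split (nat_lit 9) (nat_lit 6) (.split (nat_lit 9) (nat_lit 8) (.unj (nat_lit 0x4014) (nat_lit 0x10000000000000000000100010000) (nat_lit 0x40540) (nat_lit 0x1000000000000000100020002000000000000)) (.unj (nat_lit 0x4014) (nat_lit 0x10000000000000000000100010000) (nat_lit 0x40540) (nat_lit 0x1000000000000000100020002000000000000))) (.non (nat_lit 1) (nat_lit 3) (nat_lit 0x45511) (nat_lit 0x2000000020003000200010000000100000001))) (.non (nat_lit 2) (nat_lit 3) (nat_lit 0x45405) (nat_lit 0x1000000010001000100000000000000010001))) (.non (nat_lit 2) (nat_lit 3) (nat_lit 0x45505) (nat_lit 0x1000000010001000100010000000000010001)))) (.non (nat_lit 1) (nat_lit 4) (nat_lit 0x55450) (nat_lit 0x2000100030002000100000001000200000000))) (.star (nat_lit 9) (nat_lit 2) (nat_lit 3))) (.star (nat_lit 9) (nat_lit 1) (nat_lit 3))))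

noncomputable def t185_71 : Tr := (.split (nat_lit 8) (nat_lit 6) (.split (nat_lit 8) (nat_lit 7) (.split (nat_lit 8) (nat_lit 0) (.split (nat_lit 8) (nat_lit 1) t185_70 (.split (nat_lit 8) (nat_lit 1) (.split (nat_lit 8) (nat_lit 2) (.split (nat_lit 7) (nat_lit 1) (.split (nat_lit 7) (nat_lit 2) (.sup (nat_lit 0xa00000000000000000000000a000a0000) (nat_lit 0x100040007000a0008000000000000)) (.non (nat_lit 1) (nat_lit 3) (nat_lit 0x1a810) (nat_lit 0x200030002000100000000000400000000))) (.non (nat_lit 2) (nat_lit 3) (nat_lit 0x1a804) (nat_lit 0x200030002000100000000000000040000))) (.split (nat_lit 8) (nat_lit 2) (.split (nat_lit 7) (nat_lit 1) (.split (nat_lit 7) (nat_lit 2) (.sup (nat_lit 0xa00000000000000000000000900080000) (nat_lit 0x100040007000a0008000000000000)) (.non (nat_lit 1) (nat_lit 3) (nat_lit 0x28010) (nat_lit 0x100010000000000000000000200000000))) (.non (nat_lit 2) (nat_lit 3) (nat_lit 0x1a804) (nat_lit 0x200030002000100000000000000040000))) (.non (nat_lit 1) (nat_lit 3)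 (nat_lit 0x15410) (nat_lit 0x300030002000100000000000400000000)))) (.non (nat_lit 2) (nat_lit 3) (nat_lit 0x24005) (nat_lit 0x100010000000000000000000000020001)))) (.split (nat_lit 8) (nat_lit 1) (.split (nat_lit 8) (nat_lit 0) (.split (nat_lit 8) (nat_lit 2) (.split (nat_lit 7) (nat_lit 1) (.split (nat_lit 7) (nat_lit 2) (.sup (nat_lit 0x10006000b0010000d000000000000) (nat_lit 0x200000000000000000000000200020002)) (.non (nat_lit 1) (nat_lit 3) (nat_lit 0x1a810) (nat_lit 0x200030002000100000000000400000000))) (.non (nat_lit 2) (nat_lit 3) (nat_lit 0x1a005) (nat_lit 0x100020001000000000000000000030002))) (.non (nat_lit 1) (nat_lit 3) (nat_lit 0x1a021) (nat_lit 0x400020001000000000000000300000002))) (.split (nat_lit 8) (nat_lit 0) (.split (nat_lit 8) (nat_lit 2) (.split (nat_lit 7) (nat_lit 1) (.split (nat_lit 7) (nat_lit 2) (.sup (nat_lit 0x20007000b0010000d000000000000) (nat_lit 0x200000000000000000000000100010002)) (.non (nat_lit 1) (nat_lit 3) (nat_lit 0x1a810) (nat_lit 0x200030002000100000000000400000000)))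 (.non (nat_lit 2) (nat_lit 3) (nat_lit 0x28005) (nat_lit 0x100010000000000000000000000020002))) (.non (nat_lit 1) (nat_lit 3) (nat_lit 0x20011) (nat_lit 0x100000000000000000000000100000001))) (.non (nat_lit 1) (nat_lit 3) (nat_lit 0x15011) (nat_lit 0x400020001000000000000000300000003)))) (.non (nat_lit 2) (nat_lit 3) (nat_lit 0x10005) (nat_lit 0x100000000000000000000000000010001)))) (.non (nat_lit 1) (nat_lit 3) (nat_lit 0x14010) (nat_lit 0x100010000000000000000000100000000))) (.non (nat_lit 1) (nat_lit 3) (nat_lit 0x15010) (nat_lit 0x100010001000000000000000100000000)))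

noncomputable def t185_72 : Tr := (.split (nat_lit 7) (nat_lit 2) (.split (nat_lit 7) (nat_lit 6) (.split (nat_lit 7) (nat_lit 1) (.split (nat_lit 8) (nat_lit 1) (.pd (.cons (nat_lit 1) (nat_lit 5) (nat_lit 0) (nat_lit 0x827033200) (nat_lit 0xf423fb71aef423f00000f423f54591a2c2800000f423f) (.cons (nat_lit 1) (nat_lit 6) (nat_lit 0) (nat_lit 0x820433200) (nat_lit 0xf423ff423f00000f423fb71ae1f156b71ae00000f423f) (.cons (nat_lit 1) (nat_lit 7) (nat_lit 0) (nat_lit 0x805433200) (nat_lit 0xf423f00000f423fb71aea2c2804737f423f00000f423f) (.cons (nat_lit 2) (nat_lit 5) (nat_lit 0) (nat_lit 0x117033000) (nat_lit 0xf423fb71aef423f00000f423f545910000065b9761a79) (.cons (nat_lit 2) (nat_lit 6) (nat_lit 0) (nat_lit 0x110433000) (nat_lit 0xf423ff423f00000f423fb71ae1f156000007a11d7a11b) (.cons (nat_lit 2) (nat_lit 7) (nat_lit 0) (nat_lit 0x105433000) (nat_lit 0xf423f00000f423fb71aea2c280473700000b71aea2c28) .nil)))))) (.leaf (.cons (nat_lit 0x10014) (nat_lit 0x100000000000000000000000200020000) .nil)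 .nil)) (.non (nat_lit 2) (nat_lit 3) (nat_lit 0x24005) (nat_lit 0x100010000000000000000000000020001))) (.non (nat_lit 2) (nat_lit 3) (nat_lit 0x1a804) (nat_lit 0x200030002000100000000000000040000))) (.non (nat_lit 1) (nat_lit 3) (nat_lit 0x6a10) (nat_lit 0x40003000200010000000200000000))) (.split (nat_lit 7) (nat_lit 2) (.split (nat_lit 7) (nat_lit 6) (.split (nat_lit 7) (nat_lit 1) (.split (nat_lit 8) (nat_lit 1) (.pd (.cons (nat_lit 1) (nat_lit 5) (nat_lit 0) (nat_lit 0x827033200) (nat_lit 0xf423fb71aef423f00000f423f545915161200000f423f) (.cons (nat_lit 1) (nat_lit 6) (nat_lit 0) (nat_lit 0x820433200) (nat_lit 0xf423ff423f00000f423fb71ae1f1567a11e00000f423f) (.cons (nat_lit 1) (nat_lit 7) (nat_lit 0) (nat_lit 0x805433200) (nat_lit 0xf423f00000f423fb71aea2c2804737f423f00000f423f) (.cons (nat_lit 2) (nat_lit 5) (nat_lit 0) (nat_lit 0x117033000) (nat_lit 0xf423fb71aef423f00000f423f545910000065b9761a79) (.cons (nat_lit 2) (nat_lit 6) (nat_lit 0) (nat_lit 0x110433000) (nat_lit 0xf423ff423f00000f423fb71ae1f156000007a11d7a11b)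 (.cons (nat_lit 2) (nat_lit 7) (nat_lit 0) (nat_lit 0x105433000) (nat_lit 0xf423f00000f423fb71aea2c280473700000b71aea2c28) .nil)))))) (.leaf (.cons (nat_lit 0x10014) (nat_lit 0x100000000000000000000000200020000) .nil) .nil)) (.non (nat_lit 2) (nat_lit 3) (nat_lit 0x24005) (nat_lit 0x100010000000000000000000000020001))) (.non (nat_lit 2) (nat_lit 3) (nat_lit 0x1a804) (nat_lit 0x200030002000100000000000000040000))) (.non (nat_lit 1) (nat_lit 3) (nat_lit 0x9010) (nat_lit 0x10001000000000000000100000000))) (.non (nat_lit 1) (nat_lit 3) (nat_lit 0x5510) (nat_lit 0x40003000200010000000300000000))))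

noncomputable def t185_73 : Tr := (.split (nat_lit 8) (nat_lit 2) (.st (nat_lit 5) (nat_lit 2) (nat_lit 3) (nat_lit 0x15505) (nat_lit 0x100020002000200010000000000020001) (nat_lit 1) (nat_lit 1) (.st (nat_lit 6) (nat_lit 2) (nat_lit 3) (nat_lit 0x15405) (nat_lit 0x100020002000100000000000000020001) (nat_lit 1) (nat_lit 1) (.ex (nat_lit 3) (.ex (nat_lit 4) t185_72 (.split (nat_lit 9) (nat_lit 0) (.split (nat_lit 9) (nat_lit 1) (.split (nat_lit 9) (nat_lit 2) (.split (nat_lit 9) (nat_lit 5) (.split (nat_lit 9) (nat_lit 6) (.split (nat_lit 9) (nat_lit 7) (.split (nat_lit 9) (nat_lit 8) (.split (nat_lit 9) (nat_lit 3) (.unj (nat_lit 0x15) (nat_lit 0x200020001) (nat_lit 0x40540) (nat_lit 0x1000000000000000100020002000000000000)) (.unj (nat_lit 0x15) (nat_lit 0x200020001) (nat_lit 0x40140) (nat_lit 0x1000000000000000000010001000000000000))) (.non (nat_lit 2) (nat_lit 3) (nat_lit 0x55504) (nat_lit 0x1000100010001000100010000000000010000))) (.non (nat_lit 1) (nat_lit 3) (nat_lit 0x45500) (nat_lit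 0x1000000010001000100010000000000000000))) (.non (nat_lit 1) (nat_lit 3) (nat_lit 0x41500) (nat_lit 0x1000000000001000100010000000000000000))) (.non (nat_lit 1) (nat_lit 3) (nat_lit 0x40500) (nat_lit 0x1000000000000000100010000000000000000))) (.star (nat_lit 9) (nat_lit 2) (nat_lit 4))) (.star (nat_lit 9) (nat_lit 1) (nat_lit 4))) (.non (nat_lit 2) (nat_lit 3) (nat_lit 0x45505) (nat_lit 0x1000000010001000100010000000000010001)))) (.split (nat_lit 9) (nat_lit 0) (.split (nat_lit 9) (nat_lit 1) (.split (nat_lit 9) (nat_lit 2) (.split (nat_lit 9) (nat_lit 5) (.split (nat_lit 9) (nat_lit 6) (.split (nat_lit 9) (nat_lit 7) (.split (nat_lit 9) (nat_lit 8) (.split (nat_lit 9) (nat_lit 4) (.unj (nat_lit 0x15) (nat_lit 0x200020001) (nat_lit 0x40540) (nat_lit 0x1000000000000000100020002000000000000)) (.unj (nat_lit 0x15) (nat_lit 0x200020001) (nat_lit 0x40140) (nat_lit 0x1000000000000000000010001000000000000))) (.non (nat_lit 2) (nat_lit 4) (nat_lit 0x55445) (nat_lit 0x2000300030002000100000001000000040002)))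 (.non (nat_lit 2) (nat_lit 3) (nat_lit 0x55005) (nat_lit 0x1000100020001000000000000000000020001))) (.non (nat_lit 2) (nat_lit 3) (nat_lit 0x55405) (nat_lit 0x1000100020002000100000000000000020001))) (.non (nat_lit 2) (nat_lit 3) (nat_lit 0x55505) (nat_lit 0x1000100020002000200010000000000020001))) (.star (nat_lit 9) (nat_lit 2) (nat_lit 3))) (.star (nat_lit 9) (nat_lit 1) (nat_lit 3))) (.non (nat_lit 2) (nat_lit 4) (nat_lit 0x55445) (nat_lit 0x2000200030002000100000001000000040003)))))) (.split (nat_lit 8) (nat_lit 1) (.split (nat_lit 8) (nat_lit 2) (.split (nat_lit 7) (nat_lit 1) (.split (nat_lit 7) (nat_lit 2) (.sup (nat_lit 0xa00000000000000000000000a000a0000) (nat_lit 0x100040007000a0008000000000000)) (.non (nat_lit 1) (nat_lit 3) (nat_lit 0x1a810) (nat_lit 0x200030002000100000000000400000000))) (.non (nat_lit 2) (nat_lit 3) (nat_lit 0x1a804) (nat_lit 0x200030002000100000000000000040000))) (.split (nat_lit 8) (nat_lit 2) (.split (nat_lit 7) (nat_lit 1) (.split (nat_lit 7) (nat_lit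 2) (.sup (nat_lit 0xa00000000000000000000000900080000) (nat_lit 0x100040007000a0008000000000000)) (.non (nat_lit 1) (nat_lit 3) (nat_lit 0x28010) (nat_lit 0x100010000000000000000000200000000))) (.non (nat_lit 2) (nat_lit 3) (nat_lit 0x1a804) (nat_lit 0x200030002000100000000000000040000))) (.non (nat_lit 1) (nat_lit 3) (nat_lit 0x15410) (nat_lit 0x300030002000100000000000400000000)))) (.non (nat_lit 2) (nat_lit 3) (nat_lit 0x24005) (nat_lit 0x100010000000000000000000000020001))))

noncomputable def t185_74 : Tr := (.ex (nat_lit 1) (.ex (nat_lit 2) (.ex (nat_lit 3) t185_67 (.split (nat_lit 8) (nat_lit 1) (.split (nat_lit 8) (nat_lit 2) (.split (nat_lit 8) (nat_lit 7) (.split (nat_lit 8) (nat_lit 0) (.split (nat_lit 8) (nat_lit 4) (.split (nat_lit 8) (nat_lit 5) (.split (nat_lit 8) (nat_lit 6) (.unj (nat_lit 0x15) (nat_lit 0x200020001) (nat_lit 0x10540) (nat_lit 0x100000000000100020002000000000000)) (.unj (nat_lit 0x15) (nat_lit 0x200020001) (nat_lit 0x10540) (nat_lit 0x100000000000100020002000000000000)))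 (.split (nat_lit 8) (nat_lit 6) (.unj (nat_lit 0x15) (nat_lit 0x200020001) (nat_lit 0x10540) (nat_lit 0x100000000000100010001000000000000)) (.non (nat_lit 1) (nat_lit 3) (nat_lit 0x11400) (nat_lit 0x100000001000100000000000000000000)))) (.split (nat_lit 8) (nat_lit 5) (.split (nat_lit 8) (nat_lit 6) (.unj (nat_lit 0x15) (nat_lit 0x200020001) (nat_lit 0x10140) (nat_lit 0x100000000000000010001000000000000)) (.non (nat_lit 1) (nat_lit 3) (nat_lit 0x11500) (nat_lit 0x100000001000100010000000000000000))) (.non (nat_lit 1) (nat_lit 3) (nat_lit 0x10500) (nat_lit 0x100000000000100010000000000000000)))) (.split (nat_lit 8) (nat_lit 4) (.split (nat_lit 8) (nat_lit 5) (.split (nat_lit 8) (nat_lit 6) (.unj (nat_lit 0x4014) (nat_lit 0x10000000000000000000100010000) (nat_lit 0x10540) (nat_lit 0x100000000000100020002000000000000)) (.non (nat_lit 1) (nat_lit 3) (nat_lit 0x15511) (nat_lit 0x200020003000200010000000100000001))) (.non (nat_lit 2) (nat_lit 3) (nat_lit 0x15405) (nat_lit 0x100010001000100000000000000010001)))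 (.non (nat_lit 2) (nat_lit 3) (nat_lit 0x15505) (nat_lit 0x100010001000100010000000000010001)))) (.non (nat_lit 2) (nat_lit 4) (nat_lit 0x15445) (nat_lit 0x200030002000100000001000000020001))) (.star (nat_lit 8) (nat_lit 2) (nat_lit 3))) (.star (nat_lit 8) (nat_lit 1) (nat_lit 3)))) (.split (nat_lit 8) (nat_lit 3) (.split (nat_lit 8) (nat_lit 4) (.split (nat_lit 8) (nat_lit 5) t185_71 (.non (nat_lit 1) (nat_lit 3) (nat_lit 0x15410) (nat_lit 0x100010001000100000000000100000000))) (.star (nat_lit 8) (nat_lit 2) (nat_lit 4))) (.star (nat_lit 8) (nat_lit 2) (nat_lit 3)))) (.split (nat_lit 8) (nat_lit 0) (.split (nat_lit 8) (nat_lit 3) (.split (nat_lit 8) (nat_lit 4) (.split (nat_lit 8) (nat_lit 5) (.split (nat_lit 8) (nat_lit 6) (.split (nat_lit 8) (nat_lit 7) t185_73 (.non (nat_lit 2) (nat_lit 3) (nat_lit 0x14004) (nat_lit 0x100010000000000000000000000010000))) (.non (nat_lit 2) (nat_lit 3) (nat_lit 0x15004) (nat_lit 0x100010001000000000000000000010000))) (.non (nat_lit 2) (nat_lit 3) (nat_lit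 0x15404) (nat_lit 0x100010001000100000000000000010000))) (.star (nat_lit 8) (nat_lit 1) (nat_lit 4))) (.star (nat_lit 8) (nat_lit 1) (nat_lit 3))) (.non (nat_lit 2) (nat_lit 3) (nat_lit 0x10005) (nat_lit 0x100000000000000000000000000010001))))

noncomputable def t185_75 : Tr := (.split (nat_lit 8) (nat_lit 6) (.split (nat_lit 8) (nat_lit 7) (.st (nat_lit 0) (nat_lit 1) (nat_lit 3) (nat_lit 0x15411) (nat_lit 0x100020002000100000000000100000002) (nat_lit 1) (nat_lit 1) (.split (nat_lit 8) (nat_lit 0) (.ex (nat_lit 8) (.leaf (.cons (nat_lit 0x1014) (nat_lit 0x1000000000000000200020000) (.cons (nat_lit 0x1550) (nat_lit 0x2000300040003000100000000) .nil)) (.cons (nat_lit 0x111110101) (nat_lit 0x1010) (nat_lit 0xd) (nat_lit 0x640230105) (.cons (nat_lit 0x111100101) (nat_lit 0x10010) (nat_lit 9) (nat_lit 0x530200104) .nil))) (.split (nat_lit 9) (nat_lit 0) (.split (nat_lit 9) (nat_lit 1) (.split (nat_lit 9) (nat_lit 2) (.split (nat_lit 9) (nat_lit 3) (.split (nat_lit 9) (nat_lit 4) (.split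 (nat_lit 9) (nat_lit 5) (.split (nat_lit 9) (nat_lit 6) (.split (nat_lit 9) (nat_lit 7) (.st (nat_lit 8) (nat_lit 1) (nat_lit 3) (nat_lit 0x55411) (nat_lit 0x1000200020002000100000000000100000002) (nat_lit 1) (nat_lit 1) (.st (nat_lit 9) (nat_lit 1) (nat_lit 3) (nat_lit 0x55511) (nat_lit 0x2000300050006000400020000000300000004) (nat_lit 1) (nat_lit 1) (.split (nat_lit 9) (nat_lit 8) (.leaf (.cons (nat_lit 0x1014) (nat_lit 0x1000000000000000200020000) (.cons (nat_lit 0x1550) (nat_lit 0x2000300040003000100000000) .nil)) (.cons (nat_lit 0x1111110101) (nat_lit 0x1010) (nat_lit 0xe) (nat_lit 0x7640230105) (.cons (nat_lit 0x1111000101) (nat_lit 0x100010) (nat_lit 4) (nat_lit 0x5421000003) .nil))) (.non (nat_lit 1) (nat_lit 3) (nat_lit 0x95411) (nat_lit 0x1000200020002000100000000000100000002))))) (.non (nat_lit 1) (nat_lit 3) (nat_lit 0x54001) (nat_lit 0x1000100010000000000000000000000000001))) (.non (nat_lit 1) (nat_lit 3) (nat_lit 0x45410) (nat_lit 0x1000000010002000100000000000100000000)))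 (.non (nat_lit 1) (nat_lit 3) (nat_lit 0x45510) (nat_lit 0x1000000010002000200010000000100000000))) (.non (nat_lit 1) (nat_lit 3) (nat_lit 0x55501) (nat_lit 0x1000100010001000100010000000000000001))) (.non (nat_lit 2) (nat_lit 4) (nat_lit 0x55445) (nat_lit 0x2000300030002000100000001000000020004))) (.non (nat_lit 1) (nat_lit 3) (nat_lit 0x55011) (nat_lit 0x1000100010001000000000000000100000001))) (.non (nat_lit 2) (nat_lit 3) (nat_lit 0x50005) (nat_lit 0x1000100000000000000000000000000010001))) (.non (nat_lit 1) (nat_lit 3) (nat_lit 0x50001) (nat_lit 0x1000100000000000000000000000000000001)))) (.non (nat_lit 1) (nat_lit 3) (nat_lit 0x25411) (nat_lit 0x100020002000100000000000100000002)))) (.non (nat_lit 1) (nat_lit 3) (nat_lit 0x14001) (nat_lit 0x100010000000000000000000000000001))) (.non (nat_lit 1) (nat_lit 3) (nat_lit 0x15410) (nat_lit 0x100010002000100000000000100000000)))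

noncomputable def t185_76 : Tr := (.ex (nat_lit 4) (.split (nat_lit 7) (nat_lit 0) (.split (nat_lit 6) (nat_lit 2) (.split (nat_lit 7) (nat_lit 6) (.pd (.cons (nat_lit 0) (nat_lit 6) (nat_lit 0x110) (nat_lit 0x70433120) (nat_lit 0xf423f00000f423fb71ae1f156000010000100000) (.cons (nat_lit 1) (nat_lit 5) (nat_lit 0) (nat_lit 0x7033600) (nat_lit 0xa2c28b71ae00000f423f54591f423f0000098965) (.cons (nat_lit 1) (nat_lit 6) (nat_lit 0) (nat_lit 0x433200) (nat_lit 0xf423f00000f423fb71ae1f156f423f00000b71ae) (.cons (nat_lit 2) (nat_lit 5) (nat_lit 0) (nat_lit 0x7033000) (nat_lit 0xb71aef423f00000f423f5459100000f423f65b97) (.cons (nat_lit 2) (nat_lit 6) (nat_lit 0) (nat_lit 0x433000) (nat_lit 0xf423f00000f423fb71ae1f15600000f423f7a11d) (.cons (nat_lit 2) (nat_lit 7) (nat_lit 0) (nat_lit 0x5433000) (nat_lit 0xf423fb71aea2c280473700000f423fb71ae) .nil)))))) (.ex (nat_lit 0) (.leaf (.cons (nat_lit 0x1014) (nat_lit 0x1000000000000000200020000) (.cons (nat_lit 0x1550) (nat_lit 0x2000300040003000100000000)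 .nil)) (.cons (nat_lit 0x11110101) (nat_lit 0x1010) (nat_lit 0xc) (nat_lit 0x40230105) .nil)) (.split (nat_lit 8) (nat_lit 1) (.split (nat_lit 8) (nat_lit 2) (.split (nat_lit 8) (nat_lit 3) (.split (nat_lit 8) (nat_lit 4) (.split (nat_lit 8) (nat_lit 5) t185_75 (.non (nat_lit 1) (nat_lit 3) (nat_lit 0x15510) (nat_lit 0x100010002000200010000000100000000))) (.non (nat_lit 1) (nat_lit 3) (nat_lit 0x15501) (nat_lit 0x100010001000100010000000000000001))) (.non (nat_lit 0) (nat_lit 6) (nat_lit 0x10540) (nat_lit 0x100000000000100020002000000000000))) (.non (nat_lit 1) (nat_lit 3) (nat_lit 0x15011) (nat_lit 0x100010001000000000000000100000001))) (.non (nat_lit 2) (nat_lit 3) (nat_lit 0x10005) (nat_lit 0x100000000000000000000000000010001))))) (.non (nat_lit 1) (nat_lit 3) (nat_lit 0x9410) (nat_lit 0x10002000100000000000100000000))) (.non (nat_lit 1) (nat_lit 3) (nat_lit 0xa810) (nat_lit 0x10002000100000000000200000000))) (.non (nat_lit 1) (nat_lit 3) (nat_lit 0xa821) (nat_lit 0x20002000100000000000100000002)))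 (.split (nat_lit 8) (nat_lit 0) (.split (nat_lit 8) (nat_lit 1) (.split (nat_lit 8) (nat_lit 2) (.split (nat_lit 8) (nat_lit 5) (.split (nat_lit 8) (nat_lit 6) (.split (nat_lit 8) (nat_lit 7) (.split (nat_lit 8) (nat_lit 3) (.unj (nat_lit 0x15) (nat_lit 0x200020001) (nat_lit 0x10540) (nat_lit 0x100000000000100020002000000000000)) (.unj (nat_lit 0x15) (nat_lit 0x200020001) (nat_lit 0x10140) (nat_lit 0x100000000000000010001000000000000))) (.non (nat_lit 1) (nat_lit 3) (nat_lit 0x15500) (nat_lit 0x100010001000100010000000000000000))) (.non (nat_lit 1) (nat_lit 3) (nat_lit 0x11500) (nat_lit 0x100000001000100010000000000000000))) (.non (nat_lit 1) (nat_lit 3) (nat_lit 0x10500) (nat_lit 0x100000000000100010000000000000000))) (.star (nat_lit 8) (nat_lit 2) (nat_lit 4))) (.star (nat_lit 8) (nat_lit 1) (nat_lit 4))) (.non (nat_lit 1) (nat_lit 3) (nat_lit 0x15501) (nat_lit 0x100010001000100010000000000000001))))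

noncomputable def t185_77 : Tr := (.pd (.cons (nat_lit 1) (nat_lit 5) (nat_lit 0) (nat_lit 0x807033600) (nat_lit 0xf423fa2c28b71ae00000f423f54591f423f0000098965) (.cons (nat_lit 1) (nat_lit 6) (nat_lit 0) (nat_lit 0x800433200) (nat_lit 0xf423ff423f00000f423fb71ae1f156f423f00000b71ae) (.cons (nat_lit 2) (nat_lit 5) (nat_lit 0) (nat_lit 0x107033000) (nat_lit 0xf423fb71aef423f00000f423f5459100000b71ae51611) (.cons (nat_lit 2) (nat_lit 6) (nat_lit 0) (nat_lit 0x100433000) (nat_lit 0xf423ff423f00000f423fb71ae1f15600000b71ae65b97) (.cons (nat_lit 2) (nat_lit 7) (nat_lit 0) (nat_lit 0x105433000) (nat_lit 0xf423f00000f423fb71aea2c280473700000b71aea2c28) .nil))))) (.ex (nat_lit 0) (.leaf (.cons (nat_lit 0x10014) (nat_lit 0x100000000000000000000000200020000) (.cons (nat_lit 0x1550) (nat_lit 0x2000300040003000100000000) .nil)) (.cons (nat_lit 0x11110101) (nat_lit 0x1010) (nat_lit 0xc) (nat_lit 0x40230105) .nil)) (.split (nat_lit 9) (nat_lit 1) (.split (nat_lit 9) (nat_lit 2) (.split (nat_lit 9)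 (nat_lit 3) (.split (nat_lit 9) (nat_lit 4) (.split (nat_lit 9) (nat_lit 5) (.split (nat_lit 9) (nat_lit 6) (.split (nat_lit 9) (nat_lit 7) (.split (nat_lit 9) (nat_lit 8) (.st (nat_lit 0) (nat_lit 1) (nat_lit 3) (nat_lit 0x45411) (nat_lit 0x1000000020002000100000000000100000002) (nat_lit 1) (nat_lit 1) (.st (nat_lit 1) (nat_lit 2) (nat_lit 3) (nat_lit 0x54005) (nat_lit 0x1000100010000000000000000000000020002) (nat_lit 1) (nat_lit 1) (.st (nat_lit 8) (nat_lit 2) (nat_lit 3) (nat_lit 0x55405) (nat_lit 0x2000200030002000100000000000000030004) (nat_lit 1) (nat_lit 1) (.st (nat_lit 9) (nat_lit 2) (nat_lit 3) (nat_lit 0x55005) (nat_lit 0x2000100020001000000000000000000020003) (nat_lit 1) (nat_lit 1) (.split (nat_lit 9) (nat_lit 0) (.leaf (.cons (nat_lit 0x10014) (nat_lit 0x100000000000000000000000200020000) (.cons (nat_lit 0x1550) (nat_lit 0x2000300040003000100000000) .nil)) (.cons (nat_lit 0x1011110101) (nat_lit 0x1010) (nat_lit 0xd) (nat_lit 0x6040230105) (.cons (nat_lit 0x1011100101) (nat_lit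 0x10010) (nat_lit 9) (nat_lit 0x5030200104) .nil))) (.non (nat_lit 1) (nat_lit 3) (nat_lit 0x85411) (nat_lit 0x1000000020002000100000000000100000002))))))) (.non (nat_lit 2) (nat_lit 3) (nat_lit 0x50005) (nat_lit 0x1000100000000000000000000000000010001))) (.non (nat_lit 1) (nat_lit 3) (nat_lit 0x44001) (nat_lit 0x1000000010000000000000000000000000001))) (.non (nat_lit 1) (nat_lit 3) (nat_lit 0x45410) (nat_lit 0x1000000010002000100000000000100000000))) (.non (nat_lit 1) (nat_lit 3) (nat_lit 0x45510) (nat_lit 0x1000000010002000200010000000100000000))) (.non (nat_lit 1) (nat_lit 3) (nat_lit 0x45501) (nat_lit 0x1000000010001000100010000000000000001))) (.non (nat_lit 2) (nat_lit 4) (nat_lit 0x55045) (nat_lit 0x2000100020001000000000001000000020003))) (.non (nat_lit 1) (nat_lit 3) (nat_lit 0x45011) (nat_lit 0x1000000010001000000000000000100000001))) (.non (nat_lit 2) (nat_lit 3) (nat_lit 0x40005) (nat_lit 0x1000000000000000000000000000000010001)))))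

noncomputable def t185_78 : Tr := (.ex (nat_lit 4) (.split (nat_lit 7) (nat_lit 0) (.split (nat_lit 6) (nat_lit 2) (.split (nat_lit 7) (nat_lit 6) (.split (nat_lit 8) (nat_lit 1) t185_77 (.split (nat_lit 8) (nat_lit 1) (.pd (.cons (nat_lit 1) (nat_lit 5) (nat_lit 0) (nat_lit 0x807033600) (nat_lit 0xf423fa2c28b71ae00000f423f54591f423f0000098965) (.cons (nat_lit 1) (nat_lit 6) (nat_lit 0) (nat_lit 0x800433200) (nat_lit 0xf423ff423f00000f423fb71ae1f156f423f00000b71ae) (.cons (nat_lit 2) (nat_lit 5) (nat_lit 0) (nat_lit 0x107033000) (nat_lit 0xf423fb71aef423f00000f423f54591000007a11e28b05) (.cons (nat_lit 2) (nat_lit 6) (nat_lit 0) (nat_lit 0x100433000) (nat_lit 0xf423ff423f00000f423fb71ae1f156000007a11e3d08b) (.cons (nat_lit 2) (nat_lit 7) (nat_lit 0) (nat_lit 0x105433000) (nat_lit 0xf423f00000f423fb71aea2c2804737000007a11e7a11c) .nil))))) (.st (nat_lit 0) (nat_lit 2) (nat_lit 3) (nat_lit 0x24005) (nat_lit 0x100010000000000000000000000020002) (nat_lit 1) (nat_lit 1) (.leaf (.cons (nat_lit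 0x10014) (nat_lit 0x100000000000000000000000100010000) (.cons (nat_lit 0x1550) (nat_lit 0x2000300040003000100000000) .nil)) (.cons (nat_lit 0x11110101) (nat_lit 0x1010) (nat_lit 0xc) (nat_lit 0x40230105) .nil)))) (.non (nat_lit 2) (nat_lit 3) (nat_lit 0x15005) (nat_lit 0x300020001000000000000000000040003)))) (.non (nat_lit 1) (nat_lit 3) (nat_lit 0x9410) (nat_lit 0x10002000100000000000100000000))) (.non (nat_lit 1) (nat_lit 3) (nat_lit 0xa810) (nat_lit 0x10002000100000000000200000000))) (.non (nat_lit 1) (nat_lit 3) (nat_lit 0xa821) (nat_lit 0x20002000100000000000100000002))) (.split (nat_lit 9) (nat_lit 0) (.split (nat_lit 9) (nat_lit 1) (.split (nat_lit 9) (nat_lit 2) (.split (nat_lit 9) (nat_lit 5) (.split (nat_lit 9) (nat_lit 6) (.split (nat_lit 9) (nat_lit 7) (.split (nat_lit 9) (nat_lit 8) (.split (nat_lit 9) (nat_lit 3) (.unj (nat_lit 0x15) (nat_lit 0x200020001) (nat_lit 0x40540) (nat_lit 0x1000000000000000100020002000000000000)) (.unj (nat_lit 0x15) (nat_lit 0x200020001) (nat_lit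 0x40140) (nat_lit 0x1000000000000000000010001000000000000))) (.non (nat_lit 2) (nat_lit 3) (nat_lit 0x55505) (nat_lit 0x1000100010001000100010000000000010001))) (.non (nat_lit 1) (nat_lit 3) (nat_lit 0x45500) (nat_lit 0x1000000010001000100010000000000000000))) (.non (nat_lit 1) (nat_lit 3) (nat_lit 0x41500) (nat_lit 0x1000000000001000100010000000000000000))) (.non (nat_lit 1) (nat_lit 3) (nat_lit 0x40500) (nat_lit 0x1000000000000000100010000000000000000))) (.star (nat_lit 9) (nat_lit 2) (nat_lit 4))) (.star (nat_lit 9) (nat_lit 1) (nat_lit 4))) (.non (nat_lit 1) (nat_lit 3) (nat_lit 0x45501) (nat_lit 0x1000000010001000100010000000000000001))))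

noncomputable def t185_79 : Tr := (.ex (nat_lit 1) (.ex (nat_lit 3) t185_76 (.split (nat_lit 8) (nat_lit 1) (.split (nat_lit 8) (nat_lit 2) (.split (nat_lit 8) (nat_lit 5) (.split (nat_lit 8) (nat_lit 6) (.split (nat_lit 8) (nat_lit 7) (.split (nat_lit 8) (nat_lit 0) (.split (nat_lit 8) (nat_lit 4) (.unj (nat_lit 0x15) (nat_lit 0x200020001) (nat_lit 0x10540) (nat_lit 0x100000000000100020002000000000000)) (.unj (nat_lit 0x15) (nat_lit 0x200020001) (nat_lit 0x10140) (nat_lit 0x100000000000000010001000000000000))) (.split (nat_lit 8) (nat_lit 4) (.sup (nat_lit 0x4000000000000000a00090000) (nat_lit 0x50000000000020009000a000000000000)) (.non (nat_lit 1) (nat_lit 3) (nat_lit 0x15501) (nat_lit 0x100010001000100010000000000000001)))) (.non (nat_lit 1) (nat_lit 3) (nat_lit 0x15411) (nat_lit 0x100020002000100000000000100000001))) (.non (nat_lit 1) (nat_lit 3) (nat_lit 0x15410) (nat_lit 0x100010002000100000000000100000000))) (.non (nat_lit 1) (nat_lit 3) (nat_lit 0x15510) (nat_lit 0x100010002000200010000000100000000)))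 (.star (nat_lit 8) (nat_lit 2) (nat_lit 3))) (.star (nat_lit 8) (nat_lit 1) (nat_lit 3)))) (.split (nat_lit 8) (nat_lit 0) (.split (nat_lit 8) (nat_lit 2) (.split (nat_lit 8) (nat_lit 3) (.split (nat_lit 8) (nat_lit 4) (.split (nat_lit 8) (nat_lit 5) (.split (nat_lit 8) (nat_lit 6) (.split (nat_lit 8) (nat_lit 7) (.ex (nat_lit 3) t185_78 (.split (nat_lit 9) (nat_lit 0) (.split (nat_lit 9) (nat_lit 1) (.split (nat_lit 9) (nat_lit 2) (.split (nat_lit 9) (nat_lit 5) (.split (nat_lit 9) (nat_lit 6) (.split (nat_lit 9) (nat_lit 7) (.split (nat_lit 9) (nat_lit 4) (.split (nat_lit 9) (nat_lit 8) (.unj (nat_lit 0x15) (nat_lit 0x200020001) (nat_lit 0x40540) (nat_lit 0x1000000000000000100020002000000000000)) (.unj (nat_lit 0x15) (nat_lit 0x200020001) (nat_lit 0x40540) (nat_lit 0x1000000000000000100020002000000000000))) (.split (nat_lit 9) (nat_lit 8) (.unj (nat_lit 0x15) (nat_lit 0x200020001) (nat_lit 0x40140) (nat_lit 0x1000000000000000000010001000000000000)) (.non (nat_lit 2) (nat_lit 3) (nat_lit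 0x55505) (nat_lit 0x1000100010001000100010000000000010001)))) (.non (nat_lit 1) (nat_lit 3) (nat_lit 0x45411) (nat_lit 0x1000000020002000100000000000100000001))) (.non (nat_lit 1) (nat_lit 3) (nat_lit 0x45410) (nat_lit 0x1000000010002000100000000000100000000))) (.non (nat_lit 1) (nat_lit 3) (nat_lit 0x45510) (nat_lit 0x1000000010002000200010000000100000000))) (.star (nat_lit 9) (nat_lit 2) (nat_lit 3))) (.star (nat_lit 9) (nat_lit 1) (nat_lit 3))) (.non (nat_lit 2) (nat_lit 4) (nat_lit 0x55045) (nat_lit 0x2000100020001000000000001000000020003)))) (.non (nat_lit 1) (nat_lit 3) (nat_lit 0x15411) (nat_lit 0x100020002000100000000000100000001))) (.non (nat_lit 1) (nat_lit 3) (nat_lit 0x15410) (nat_lit 0x100010002000100000000000100000000))) (.non (nat_lit 1) (nat_lit 3) (nat_lit 0x15510) (nat_lit 0x100010002000200010000000100000000))) (.star (nat_lit 8) (nat_lit 1) (nat_lit 4))) (.star (nat_lit 8) (nat_lit 1) (nat_lit 3))) (.non (nat_lit 1) (nat_lit 3) (nat_lit 0x15511) (nat_lit 0x100020003000200010000000200000001)))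 (.non (nat_lit 2) (nat_lit 3) (nat_lit 0x10005) (nat_lit 0x100000000000000000000000000010001))))

noncomputable def t185_80 : Tr := (.ex (nat_lit 3) (.ex (nat_lit 4) (.split (nat_lit 7) (nat_lit 0) (.split (nat_lit 7) (nat_lit 2) (.split (nat_lit 7) (nat_lit 6) (.pd (.cons (nat_lit 0) (nat_lit 7) (nat_lit 0x110) (nat_lit 0x5433120) (nat_lit 0xf423fb71aea2c2804737000010000100000) (.cons (nat_lit 1) (nat_lit 5) (nat_lit 0) (nat_lit 0x7033700) (nat_lit 0x7a11df423f00000f423f54591f423f000007a11b) (.cons (nat_lit 1) (nat_lit 6) (nat_lit 0) (nat_lit 0x433700) (nat_lit 0xb71ae00000f423fb71ae1f156f423f00000a2c28) (.cons (nat_lit 1) (nat_lit 7) (nat_lit 0) (nat_lit 0x5433200) (nat_lit 0xf423fb71aea2c2804737f423f00000f423f) (.cons (nat_lit 2) (nat_lit 5) (nat_lit 0) (nat_lit 0x7033000) (nat_lit 0xb71aef423f00000f423f5459100000f423f65b97) (.cons (nat_lit 2) (nat_lit 6) (nat_lit 0) (nat_lit 0x433000) (nat_lit 0xf423f00000f423fb71ae1f15600000f423f7a11d) (.cons (nat_lit 2) (nat_lit 7) (nat_lit 0)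 (nat_lit 0x5433000) (nat_lit 0xf423fb71aea2c280473700000f423fb71ae) .nil))))))) (.leaf (.cons (nat_lit 0x4014) (nat_lit 0x10000000000000000000200020000) .nil) .nil)) (.non (nat_lit 1) (nat_lit 3) (nat_lit 0x6a10) (nat_lit 0x40003000200010000000200000000))) (.non (nat_lit 1) (nat_lit 3) (nat_lit 0x5021) (nat_lit 0x20001000000000000000100000001))) (.non (nat_lit 1) (nat_lit 3) (nat_lit 0xa021) (nat_lit 0x20001000000000000000100000002))) (.split (nat_lit 8) (nat_lit 0) (.split (nat_lit 8) (nat_lit 1) (.split (nat_lit 8) (nat_lit 2) (.split (nat_lit 8) (nat_lit 5) (.split (nat_lit 8) (nat_lit 6) (.split (nat_lit 8) (nat_lit 7) (.split (nat_lit 8) (nat_lit 3) (.unj (nat_lit 0x15) (nat_lit 0x200020001) (nat_lit 0x10540) (nat_lit 0x100000000000100020002000000000000)) (.unj (nat_lit 0x15) (nat_lit 0x200020001) (nat_lit 0x10140) (nat_lit 0x100000000000000010001000000000000))) (.non (nat_lit 1) (nat_lit 3) (nat_lit 0x15500) (nat_lit 0x100010001000100010000000000000000))) (.non (nat_lit 1) (nat_lit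 3) (nat_lit 0x11500) (nat_lit 0x100000001000100010000000000000000))) (.non (nat_lit 1) (nat_lit 3) (nat_lit 0x10500) (nat_lit 0x100000000000100010000000000000000))) (.star (nat_lit 8) (nat_lit 2) (nat_lit 4))) (.star (nat_lit 8) (nat_lit 1) (nat_lit 4))) (.non (nat_lit 1) (nat_lit 3) (nat_lit 0x15501) (nat_lit 0x100010001000100010000000000000001)))) (.split (nat_lit 8) (nat_lit 1) (.split (nat_lit 8) (nat_lit 2) (.split (nat_lit 8) (nat_lit 5) (.split (nat_lit 8) (nat_lit 6) (.split (nat_lit 8) (nat_lit 7) (.split (nat_lit 8) (nat_lit 0) (.split (nat_lit 8) (nat_lit 4) (.unj (nat_lit 0x15) (nat_lit 0x200020001) (nat_lit 0x10540) (nat_lit 0x100000000000100020002000000000000)) (.unj (nat_lit 0x15) (nat_lit 0x200020001) (nat_lit 0x10140) (nat_lit 0x100000000000000010001000000000000))) (.split (nat_lit 8) (nat_lit 4) (.unj (nat_lit 0x4014) (nat_lit 0x10000000000000000000200020000) (nat_lit 0x10540) (nat_lit 0x100000000000100020002000000000000)) (.non (nat_lit 1) (nat_lit 3) (nat_lit 0x15501)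 (nat_lit 0x100010001000100010000000000000001)))) (.non (nat_lit 1) (nat_lit 3) (nat_lit 0x15011) (nat_lit 0x100020001000000000000000100000001))) (.non (nat_lit 1) (nat_lit 3) (nat_lit 0x15411) (nat_lit 0x100020002000100000000000100000001))) (.non (nat_lit 1) (nat_lit 3) (nat_lit 0x15511) (nat_lit 0x100020002000200010000000100000001))) (.star (nat_lit 8) (nat_lit 2) (nat_lit 3))) (.star (nat_lit 8) (nat_lit 1) (nat_lit 3))))

noncomputable def t185_81 : Tr := (.ex (nat_lit 1) (.ex (nat_lit 2) t185_80 (.split (nat_lit 8) (nat_lit 0) (.split (nat_lit 8) (nat_lit 3) (.split (nat_lit 8) (nat_lit 4) (.split (nat_lit 8) (nat_lit 5) (.split (nat_lit 8) (nat_lit 6) (.split (nat_lit 8) (nat_lit 7) (.split (nat_lit 8) (nat_lit 1) (.split (nat_lit 8) (nat_lit 2) (.split (nat_lit 7) (nat_lit 0) (.split (nat_lit 7) (nat_lit 2) (.sup (nat_lit 0x90031005800800068000000000000) (nat_lit 0xb00000000000000000000001700180007)) (.non (nat_lit 1) (nat_lit 3) (nat_lit 0x1a810) (nat_lit 0x200030002000100000000000400000000)))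 (.non (nat_lit 1) (nat_lit 3) (nat_lit 0xa021) (nat_lit 0x20001000000000000000100000002))) (.non (nat_lit 1) (nat_lit 3) (nat_lit 0x25011) (nat_lit 0x100020001000000000000000200000001))) (.sup (nat_lit 0x8000000000000000000000007000a0000) (nat_lit 0x100040007000a0008000000000000))) (.non (nat_lit 1) (nat_lit 3) (nat_lit 0x14010) (nat_lit 0x100010000000000000000000100000000))) (.non (nat_lit 1) (nat_lit 3) (nat_lit 0x15010) (nat_lit 0x100010001000000000000000100000000))) (.non (nat_lit 1) (nat_lit 3) (nat_lit 0x15410) (nat_lit 0x100010001000100000000000100000000))) (.star (nat_lit 8) (nat_lit 2) (nat_lit 4))) (.star (nat_lit 8) (nat_lit 2) (nat_lit 3))) (.non (nat_lit 1) (nat_lit 3) (nat_lit 0x14011) (nat_lit 0x100010000000000000000000100000001)))) (.split (nat_lit 8) (nat_lit 0) (.split (nat_lit 8) (nat_lit 3) (.split (nat_lit 8) (nat_lit 4) (.split (nat_lit 8) (nat_lit 5) (.split (nat_lit 8) (nat_lit 6) (.split (nat_lit 8) (nat_lit 7) (.split (nat_lit 8) (nat_lit 2) (.split (nat_lit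 8) (nat_lit 1) (.split (nat_lit 7) (nat_lit 0) (.split (nat_lit 7) (nat_lit 2) (.sup (nat_lit 0x3000d00160020001a000000000000) (nat_lit 0x300000000000000000000000500070002)) (.non (nat_lit 1) (nat_lit 3) (nat_lit 0x5021) (nat_lit 0x20001000000000000000100000001))) (.non (nat_lit 1) (nat_lit 3) (nat_lit 0xa021) (nat_lit 0x20001000000000000000100000002))) (.sup (nat_lit 0x3900000000000000000000002c00500000) (nat_lit 0x6001f003700500041000000000000))) (.sup (nat_lit 0x8000000000000000000000007000a0000) (nat_lit 0x100040007000a0008000000000000))) (.non (nat_lit 1) (nat_lit 3) (nat_lit 0x15011) (nat_lit 0x100020001000000000000000100000001))) (.non (nat_lit 1) (nat_lit 3) (nat_lit 0x15411) (nat_lit 0x100020002000100000000000100000001))) (.non (nat_lit 1) (nat_lit 3) (nat_lit 0x15511) (nat_lit 0x100020002000200010000000100000001))) (.star (nat_lit 8) (nat_lit 1) (nat_lit 4))) (.star (nat_lit 8) (nat_lit 1) (nat_lit 3))) (.non (nat_lit 2) (nat_lit 3) (nat_lit 0x10005) (nat_lit 0x100000000000000000000000000010001))))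

noncomputable def t185 : Tr := (.split (nat_lit 7) (nat_lit 0) (.split (nat_lit 7) (nat_lit 1) (.split (nat_lit 7) (nat_lit 2) t185_45 (.split (nat_lit 6) (nat_lit 2) t185_58 (.non (nat_lit 1) (nat_lit 3) (nat_lit 0x5010) (nat_lit 0x10001000000000000000100000000)))) (.split (nat_lit 6) (nat_lit 0) (.split (nat_lit 6) (nat_lit 1) (.split (nat_lit 5) (nat_lit 0) (.split (nat_lit 7) (nat_lit 2) (.split (nat_lit 6) (nat_lit 2) (.ex (nat_lit 1) (.ex (nat_lit 2) t185_62 (.split (nat_lit 8) (nat_lit 3) (.split (nat_lit 8) (nat_lit 4) t185_64 (.star (nat_lit 8) (nat_lit 2) (nat_lit 4))) (.star (nat_lit 8) (nat_lit 2) (nat_lit 3)))) (.split (nat_lit 8) (nat_lit 0) (.split (nat_lit 8) (nat_lit 3) (.split (nat_lit 8) (nat_lit 4) (.split (nat_lit 8) (nat_lit 5) (.split (nat_lit 8) (nat_lit 6) (.split (nat_lit 8) (nat_lit 7) (.split (nat_lit 8) (nat_lit 2) (.split (nat_lit 8) (nat_lit 1) (.split (nat_lit 7) (nat_lit 1) (.sup (nat_lit 0x20006000b0010000d000000000000) (nat_lit 0x100000000000000000000000300030001))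 (.non (nat_lit 2) (nat_lit 3) (nat_lit 0x1a804) (nat_lit 0x200030002000100000000000000040000))) (.non (nat_lit 2) (nat_lit 3) (nat_lit 0x24005) (nat_lit 0x100010000000000000000000000020001))) (.sup (nat_lit 0x800000000000000000000000a00070000) (nat_lit 0x100040007000a0008000000000000))) (.non (nat_lit 2) (nat_lit 3) (nat_lit 0x14004) (nat_lit 0x100010000000000000000000000010000))) (.non (nat_lit 2) (nat_lit 3) (nat_lit 0x15004) (nat_lit 0x100010001000000000000000000010000))) (.non (nat_lit 2) (nat_lit 3) (nat_lit 0x15404) (nat_lit 0x100010001000100000000000000010000))) (.star (nat_lit 8) (nat_lit 1) (nat_lit 4))) (.star (nat_lit 8) (nat_lit 1) (nat_lit 3))) (.non (nat_lit 2) (nat_lit 3) (nat_lit 0x10005) (nat_lit 0x100000000000000000000000000010001)))) (.st (nat_lit 5) (nat_lit 1) (nat_lit 3) (nat_lit 0x5510) (nat_lit 0x10002000200010000000100000000) (nat_lit 1) (nat_lit 1) (.st (nat_lit 6) (nat_lit 1) (nat_lit 3) (nat_lit 0x5410) (nat_lit 0x10002000100000000000100000000) (nat_lit 1)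 (nat_lit 1) t185_65))) (.split (nat_lit 6) (nat_lit 2) t185_74 (.non (nat_lit 1) (nat_lit 3) (nat_lit 0x5010) (nat_lit 0x10001000000000000000100000000)))) (.non (nat_lit 2) (nat_lit 3) (nat_lit 0x5405) (nat_lit 0x10001000100000000000000010001))) (.non (nat_lit 2) (nat_lit 3) (nat_lit 0x5004) (nat_lit 0x10001000000000000000000010000))) (.non (nat_lit 2) (nat_lit 3) (nat_lit 0x5005) (nat_lit 0x10001000000000000000000010001)))) (.split (nat_lit 7) (nat_lit 1) (.split (nat_lit 6) (nat_lit 0) (.split (nat_lit 6) (nat_lit 1) (.split (nat_lit 5) (nat_lit 0) (.split (nat_lit 7) (nat_lit 2) (.split (nat_lit 6) (nat_lit 2) (.split (nat_lit 7) (nat_lit 0) (.sup (nat_lit 0x9000a0004) (nat_lit 0x100040007000a0008000000000000)) (.non (nat_lit 2) (nat_lit 3) (nat_lit 0xa805) (nat_lit 0x30002000100000000000000020004))) (.st (nat_lit 2) (nat_lit 1) (nat_lit 3) (nat_lit 0x5511) (nat_lit 0x20003000200010000000200000001) (nat_lit 1) (nat_lit 1) (.st (nat_lit 5) (nat_lit 1) (nat_lit 3) (nat_lit 0x5510) (nat_lit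 0x10002000200010000000100000000) (nat_lit 1) (nat_lit 1) (.st (nat_lit 6) (nat_lit 1) (nat_lit 3) (nat_lit 0x5410) (nat_lit 0x10002000100000000000100000000) (nat_lit 1) (nat_lit 1) (.st (nat_lit 7) (nat_lit 1) (nat_lit 3) (nat_lit 0x5411) (nat_lit 0x20002000100000000000100000001) (nat_lit 1) (nat_lit 1) t185_79))))) (.split (nat_lit 6) (nat_lit 2) (.st (nat_lit 5) (nat_lit 1) (nat_lit 3) (nat_lit 0x5511) (nat_lit 0x20002000200010000000100000001) (nat_lit 1) (nat_lit 1) (.st (nat_lit 6) (nat_lit 1) (nat_lit 3) (nat_lit 0x5411) (nat_lit 0x20002000100000000000100000001) (nat_lit 1) (nat_lit 1) t185_81)) (.non (nat_lit 1) (nat_lit 3) (nat_lit 0x5010) (nat_lit 0x10001000000000000000100000000)))) (.non (nat_lit 1) (nat_lit 3) (nat_lit 0x5401) (nat_lit 0x10001000100000000000000000001))) (.non (nat_lit 2) (nat_lit 3) (nat_lit 0x5005) (nat_lit 0x10001000000000000000000010001))) (.non (nat_lit 1) (nat_lit 3) (nat_lit 0x5001) (nat_lit 0x10001000000000000000000000001))) (.non (nat_lit 2) (nat_lit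 3) (nat_lit 0x4005) (nat_lit 0x10000000000000000000000010001))))

noncomputable def D1_24 : RL := (.cons (nat_lit 0x2222222222222222222222222222222222222222222222222222222222222222222222222222222222222222222222222222222222222222222222222222222222222222222222222222222222b23222222222222b232222222222222232c22222222222232c222222222222222222f22222222222222f232222222222222232) .uj (.cons (nat_lit 0x22222222222222222222222222222222222222222222222222222222222222222222222222222222222222222222222222222222222222222222222222222222222222222b222aaa22222222b2322aaa222222222323222a2222222222325222222222222225222222222222aa2222f222222222aa222f2322222222aaa22232) t185 .nil))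

noncomputable def D1_12 : RL := (.cons (nat_lit 0x2222222222222222222222222222222222222222222222222222222222222222222222222222222222222222222222222222222222222222222222222222222222222222222222222222222222c2222a222222222c232222222222222232522a222222222225222222222222222222f22222222222222f23222222222a2a2232) t172 (.cons (nat_lit 0x2222222222222222222222222222222222222222222222222222222222222222222222222222222222222222222222222222222222222222222222222222222222222222222222222222222222c22222222222222c2322222222222222325222222222222225222222222222222222f22222222222222f232222222222222232) .uj (.cons (nat_lit 0x2222222222222222222222222222222222222222222222222222222222222222222222222222222222222222222222222222222222222222222222222222222222222222222222222222222222c2222a222222222c2322222222222222325222222222222225222a22222222222222f22222222222222f23222222222a22a232) t174 (.cons (nat_lit 0x2222222222222222222222222222222222222222222222222222222222222222222222222222222222222222222222222222222222222222222222222222222222222222222222222222222222c22222222222222c23222a2222222222325222222222222225222222222222222222f22222222222222f232222222222a22232)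 (.split (nat_lit 5) (nat_lit 0) .uj (.non (nat_lit 2) (nat_lit 6) (nat_lit 0x545) (nat_lit 0x300040003000000010002))) (.cons (nat_lit 0x2222222222222222222222222222222222222222222222222222222222222222222222222222222222222222222222222222222222222222222222222222222222222222222222222222222222c22222222222222c2322222222222222325222222222222225222222222222222222f22222222222222f232222222222222232) .uj (.cons (nat_lit 0x222222222222222222222222222222222222222222222222222222222222222222222222222222222222222222222222222222222222222222222222222222222222222222222222222222222223222a222222222223222a2222222223325222222222222225222222222222222222f22222222222222f23222222222aa22232) (.split (nat_lit 6) (nat_lit 0) (.split (nat_lit 5) (nat_lit 0) .uj (.split (nat_lit 5) (nat_lit 0) (.sup (nat_lit 0x500050002) (nat_lit 0x3000100050004000000000000)) (.non (nat_lit 2) (nat_lit 3) (nat_lit 0x2a05) (nat_lit 0x1000300020000000000020004)))) (.split (nat_lit 5) (nat_lit 0) (.split (nat_lit 6) (nat_lit 0) (.sup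 (nat_lit 0x500050002) (nat_lit 0x1000300050004000000000000)) (.non (nat_lit 2) (nat_lit 3) (nat_lit 0x2a05) (nat_lit 0x3000100020000000000020004))) (.non (nat_lit 1) (nat_lit 3) (nat_lit 0x1501) (nat_lit 0x1000100010000000000000001)))) (.cons (nat_lit 0x2222222222222222222222222222222222222222222222222222222222222222222222222222222222222222222222222222222222222222222222222222222222222222222222222222222222232aaa222222222223222222222222233252222222222222252222222222222a2222f2222222222a222f23222222222a222232) t178 (.cons (nat_lit 0x222222222222222222222222222222222222222222222222222222222222222222222222222222222222222222222222222222222222222222222222222222222222222222222222222222222223222a22222222222322222222222223325222222222222225222222222222222222f22222222222222f23222222222a222232) (.split (nat_lit 6) (nat_lit 0) .uj (.non (nat_lit 2) (nat_lit 5) (nat_lit 0x1145) (nat_lit 0x3000000040003000000010002))) (.cons (nat_lit 0x222222222222222222222222222222222222222222222222222222222222222222222222222222222222222222222222222222222222222222222222222222222222222222222222222222222223222222222222222322222222222223325222222222222225222222222222222222f22222222222222f232222222222222232)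 .uj (.cons (nat_lit 0x2222222222222222222222222222222222222222222222222222222222222222222222222222222222222222222222222222222222222222222222222222222222222222222222222222222222b2322a222222222b23222a222222222232c22222222222232c222222222222222222f22222222222222f23222222222aa22232) (.split (nat_lit 6) (nat_lit 0) (.split (nat_lit 5) (nat_lit 0) .uj (.split (nat_lit 6) (nat_lit 5) (.split (nat_lit 5) (nat_lit 0) (.sup (nat_lit 0x9000a0004) (nat_lit 0x700040009000a000000000000)) (.non (nat_lit 1) (nat_lit 3) (nat_lit 0x2a01) (nat_lit 0x1000200010000000000000002))) (.non (nat_lit 1) (nat_lit 3) (nat_lit 0x2501) (nat_lit 0x1000200010000000000000001)))) (.split (nat_lit 5) (nat_lit 0) (.split (nat_lit 6) (nat_lit 0) (.sup (nat_lit 0x9000a0004) (nat_lit 0x40007000a0009000000000000)) (.non (nat_lit 1) (nat_lit 4) (nat_lit 0x2881) (nat_lit 0x2000100000001000000000002))) (.non (nat_lit 1) (nat_lit 3) (nat_lit 0x1401) (nat_lit 0x1000100000000000000000001)))) (.cons (nat_lit 0x2222222222222222222222222222222222222222222222222222222222222222222222222222222222222222222222222222222222222222222222222222222222222222222222222222222222b2322a222222222b232222222222222232c22a22222222232c222222222222222222f22222222222222f23222222222a2a2232)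 (.split (nat_lit 4) (nat_lit 0) (.split (nat_lit 6) (nat_lit 0) .uj (.split (nat_lit 6) (nat_lit 0) (.sup (nat_lit 0x9000a0004) (nat_lit 0x40007000a0009000000000000)) (.non (nat_lit 1) (nat_lit 5) (nat_lit 0x2181) (nat_lit 0x1000000010001000000000001)))) (.non (nat_lit 2) (nat_lit 5) (nat_lit 0x2185) (nat_lit 0x1000000030002000000010002))) (.cons (nat_lit 0x2222222222222222222222222222222222222222222222222222222222222222222222222222222222222222222222222222222222222222222222222222222222222222222222222222222222b23222222222222b23222a222222222232c22222222222232c222222222222222222f22222222222222f232222222222a22232) (.split (nat_lit 5) (nat_lit 0) .uj (.split (nat_lit 6) (nat_lit 5) (.split (nat_lit 5) (nat_lit 0) (.sup (nat_lit 0x9000a0004) (nat_lit 0x700040009000a000000000000)) (.non (nat_lit 1) (nat_lit 3) (nat_lit 0x2a01) (nat_lit 0x1000200010000000000000002))) (.non (nat_lit 1) (nat_lit 3) (nat_lit 0x2501) (nat_lit 0x1000200010000000000000001)))) D1_24))))))))))))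

noncomputable def D1 : RL := (.cons (nat_lit 0x222222222222222222222222222222222222222222222222222222222222222222222222222222222222222222222222222222222222222222222222222222222222222222222222222222222222222222222222222d222a2222222222d24222222222222224222222222222222222f22222222222222f232222222222a22232) t160 (.cons (nat_lit 0x222222222222222222222222222222222222222222222222222222222222222222222222222222222222222222222222222222222222222222222222222222222222222222222222222222222222222222222222222d22222222222222d2422a222222222224222222222222222222f22222222222222f2322222222222a2232) t161 (.cons (nat_lit 0x222222222222222222222222222222222222222222222222222222222222222222222222222222222222222222222222222222222222222222222222222222222222222222222222222222222222222222222222222d22222222222222d24222222222222224222a22222222222222f22222222222222f23222222222222a232) t162 (.cons (nat_lit 0x222222222222222222222222222222222222222222222222222222222222222222222222222222222222222222222222222222222222222222222222222222222222222222222222222222222222222222222222222d222a2222222222d2d22222222222222d222222222222222222f22222222222222f232222222222a22232)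 (.split (nat_lit 5) (nat_lit 0) .uj (.split (nat_lit 5) (nat_lit 0) (.sup (nat_lit 0x9000a0004) (nat_lit 0x4000a0008000000000000)) (.non (nat_lit 1) (nat_lit 3) (nat_lit 0x501) (nat_lit 0x100010000000000000001)))) (.cons (nat_lit 0x222222222222222222222222222222222222222222222222222222222222222222222222222222222222222222222222222222222222222222222222222222222222222222222222222222222222222222222222222d22222222222222d2d22a22222222222d222222222222222222f22222222222222f2322222222222a2232) t164 (.cons (nat_lit 0x222222222222222222222222222222222222222222222222222222222222222222222222222222222222222222222222222222222222222222222222222222222222222222222222222222222222222222222222222bc22a2222222222b2b2222222222222cb222222222222222222f22222222222222f232222222222a22232) t165 (.cons (nat_lit 0x222222222222222222222222222222222222222222222222222222222222222222222222222222222222222222222222222222222222222222222222222222222222222222222222222222222222222222222222222bc2222222222222b2b22a2222222222cb222222222222222222f22222222222222f2322222222222a2232)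 t166 (.cons (nat_lit 0x2222222222222222222222222222222222222222222222222222222222222222222222222222222222222222222222222222222222222222222222222222222222222222222222222222222222322aaa222222222325222222222222225232222222222222232222222222222a2222f2222222222a222f23222222222a222232) t167 (.cons (nat_lit 0x222222222222222222222222222222222222222222222222222222222222222222222222222222222222222222222222222222222222222222222222222222222222222222222222222222222232222a22222222232522222222222222523222222222222223222222222222222222f22222222222222f23222222222a222232) (.split (nat_lit 6) (nat_lit 0) .uj (.non (nat_lit 2) (nat_lit 3) (nat_lit 0x1505) (nat_lit 0x3000400030000000000010002))) (.cons (nat_lit 0x222222222222222222222222222222222222222222222222222222222222222222222222222222222222222222222222222222222222222222222222222222222222222222222222222222222232222222222222232522222222222222523222222222222223222222222222222222f22222222222222f232222222222222232) .uj (.cons (nat_lit 0x222222222222222222222222222222222222222222222222222222222222222222222222222222222222222222222222222222222222222222222222222222222222222222222222222222222232222a22222222232522222222222222523222222222222223222a22222222222222f22222222222222f23222222222a22a232)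 t170 (.cons (nat_lit 0x2222222222222222222222222222222222222222222222222222222222222222222222222222222222222222222222222222222222222222222222222222222222222222222222222222222222c22aaa222222222c23222222222222223252222222222222252222222222222a2222f2222222222a222f23222222222a222232) t171 D1_12))))))))))))

theorem cov_D1 : Cov 160 186 := by
  have h1 : rl D1 (nat_lit 160) = true := by decide +kernel
  have h2 : 160 + rlen D1 = 186 := by decide +kernel
  exact cov_of h1 h2

end MP86a502
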