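import Pool.Agent.Lib.MP_86a502_gt.U.Rlc
import Pool.Agent.Lib.MP_86a502_gt.U.D01

set_option autoImplicit false
set_option maxRecDepth 1000000
set_option linter.all false

/-! Certificates, numbers 0 to 159. -/

namespace MP86a502

noncomputable def t11_1 : Tr := (.ex (nat_lit 6) (.split (nat_lit 6) (nat_lit 2) (.pd (.cons (nat_lit 0) (nat_lit 4) (nat_lit 0x100010) (nat_lit 0x2102250) (nat_lit 0xf423f0000100000f423f7a11d0000100000) (.cons (nat_lit 0) (nat_lit 5) (nat_lit 0) (nat_lit 0x2032210) (nat_lit 0xf423f00000f423f5459106711f423f00000) (.cons (nat_lit 1) (nat_lit 4) (nat_lit 0) (nat_lit 0x2502200) (nat_lit 0xf423ff423f00000f423f7a11d00000f423f) (.cons (nat_lit 1) (nat_lit 5) (nat_lit 0) (nat_lit 0x2032200) (nat_lit 0xf423f00000f423f545910671100000f423f) .nil)))) (.split (nat_lit 5) (nat_lit 1) (.leaf .nil (.cons (nat_lit 0x111010) (nat_lit 0x101) (nat_lit 0x10) (nat_lit 0x210030) .nil)) (.non (nat_lit 0) (nat_lit 2) (nat_lit 0x544) (nat_lit 0x100010001000000010000)))) (.unj (nat_lit 5) (nat_lit 0x10001)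 (nat_lit 0x1150) (nat_lit 0x1000000010001000100000000))) (.split (nat_lit 7) (nat_lit 1) (.split (nat_lit 7) (nat_lit 2) (.split (nat_lit 7) (nat_lit 3) (.split (nat_lit 7) (nat_lit 4) (.split (nat_lit 7) (nat_lit 5) (.split (nat_lit 7) (nat_lit 0) (.unj (nat_lit 5) (nat_lit 0x10001) (nat_lit 0x5150) (nat_lit 0x10002000000030004000300000000)) (.split (nat_lit 7) (nat_lit 0) (.split (nat_lit 7) (nat_lit 6) (.split (nat_lit 6) (nat_lit 2) (.split (nat_lit 5) (nat_lit 1) (.sup (nat_lit 0x1000100070008000500000000) (nat_lit 0x20000000000000000000000040005)) (.non (nat_lit 0) (nat_lit 2) (nat_lit 0x544) (nat_lit 0x100010001000000010000))) (.unj (nat_lit 5) (nat_lit 0x10001) (nat_lit 0x1150) (nat_lit 0x1000000010001000100000000))) (.split (nat_lit 7) (nat_lit 6) (.split (nat_lit 6) (nat_lit 2) (.split (nat_lit 5) (nat_lit 1) (.sup (nat_lit 0x1000200070008000400000000) (nat_lit 0x20000000000000000000000040005)) (.non (nat_lit 0) (nat_lit 2) (nat_lit 0x544) (nat_lit 0x100010001000000010000))) (.non (nat_lit 0) (nat_lit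 3) (nat_lit 0x6010) (nat_lit 0x10001000000000000000100000000))) (.non (nat_lit 1) (nat_lit 3) (nat_lit 0x5011) (nat_lit 0x20002000000000000000100000001)))) (.split (nat_lit 7) (nat_lit 0) (.split (nat_lit 7) (nat_lit 6) (.split (nat_lit 6) (nat_lit 2) (.split (nat_lit 5) (nat_lit 1) (.sup (nat_lit 0x1000200070008000400000000) (nat_lit 0x20000000000000000000000020004)) (.non (nat_lit 0) (nat_lit 2) (nat_lit 0x544) (nat_lit 0x100010001000000010000))) (.non (nat_lit 1) (nat_lit 3) (nat_lit 0xa011) (nat_lit 0x10001000000000000000100000001))) (.non (nat_lit 1) (nat_lit 2) (nat_lit 0x9001) (nat_lit 0x10001000000000000000000000001))) (.split (nat_lit 7) (nat_lit 0) (.split (nat_lit 7) (nat_lit 6) (.sup (nat_lit 0x5000b001e0020001200000000) (nat_lit 0x8000000000000000000000007000d)) (.non (nat_lit 1) (nat_lit 2) (nat_lit 0x5001) (nat_lit 0x10001000000000000000000000001))) (.non (nat_lit 1) (nat_lit 2) (nat_lit 0xf001) (nat_lit 0x20001000000000000000000000003)))))) (.non (nat_lit 0) (nat_lit 2) (nat_lit 0x5540) (nat_lit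 0x20001000300040003000000000000))) (.non (nat_lit 0) (nat_lit 2) (nat_lit 0x4540) (nat_lit 0x10000000100020002000000000000))) (.non (nat_lit 0) (nat_lit 2) (nat_lit 0x4540) (nat_lit 0x10000000100020002000000000000))) (.non (nat_lit 0) (nat_lit 3) (nat_lit 0x5010) (nat_lit 0x10001000000000000000100000000))) (.non (nat_lit 0) (nat_lit 2) (nat_lit 0x4544) (nat_lit 0x10000000300040003000000020000))))

noncomputable def t11_2 : Tr := (.ex (nat_lit 6) (.split (nat_lit 6) (nat_lit 2) (.pd (.cons (nat_lit 0) (nat_lit 4) (nat_lit 0) (nat_lit 0x2502210) (nat_lit 0xf423ff423f00000f423f7a11df423f00000) (.cons (nat_lit 0) (nat_lit 5) (nat_lit 0) (nat_lit 0x2032210) (nat_lit 0xf423f00000f423f5459106711f423f00000) (.cons (nat_lit 1) (nat_lit 4) (nat_lit 0x100001) (nat_lit 0x2002205) (nat_lit 0xf423f0000100000f423f7a11d0000000001) (.cons (nat_lit 1) (nat_lit 5) (nat_lit 0) (nat_lit 0x2032200) (nat_lit 0xf423f00000f423f545910671100000f423f) .nil)))) (.split (nat_lit 5) (nat_lit 0) (.leaf .nil (.cons (nat_lit 0x111001) (nat_lit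 0x110) (nat_lit 0x10) (nat_lit 0x210003) .nil)) (.non (nat_lit 1) (nat_lit 2) (nat_lit 0x541) (nat_lit 0x100010001000000000001)))) (.unj (nat_lit 5) (nat_lit 0x10001) (nat_lit 0x1150) (nat_lit 0x1000000010001000100000000))) (.split (nat_lit 7) (nat_lit 0) (.split (nat_lit 7) (nat_lit 2) (.split (nat_lit 7) (nat_lit 3) (.split (nat_lit 7) (nat_lit 4) (.split (nat_lit 7) (nat_lit 5) (.split (nat_lit 7) (nat_lit 1) (.unj (nat_lit 5) (nat_lit 0x10001) (nat_lit 0x5150) (nat_lit 0x10002000000030004000300000000)) (.split (nat_lit 7) (nat_lit 1) (.split (nat_lit 7) (nat_lit 6) (.split (nat_lit 6) (nat_lit 2) (.split (nat_lit 5) (nat_lit 0) (.sup (nat_lit 0x1000100070008000500000000) (nat_lit 0x20000000000000000000000050004)) (.non (nat_lit 1) (nat_lit 2) (nat_lit 0x541) (nat_lit 0x100010001000000000001))) (.unj (nat_lit 5) (nat_lit 0x10001) (nat_lit 0x1150) (nat_lit 0x1000000010001000100000000))) (.split (nat_lit 7) (nat_lit 6) (.split (nat_lit 6) (nat_lit 2) (.split (nat_lit 5) (nat_lit 0) (.sup (nat_lit 0x1000200070008000400000000)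 (nat_lit 0x20000000000000000000000050004)) (.non (nat_lit 1) (nat_lit 2) (nat_lit 0x541) (nat_lit 0x100010001000000000001))) (.non (nat_lit 0) (nat_lit 3) (nat_lit 0x6010) (nat_lit 0x10001000000000000000100000000))) (.non (nat_lit 0) (nat_lit 3) (nat_lit 0x5014) (nat_lit 0x20002000000000000000100010000)))) (.split (nat_lit 7) (nat_lit 1) (.split (nat_lit 7) (nat_lit 6) (.split (nat_lit 6) (nat_lit 2) (.split (nat_lit 5) (nat_lit 0) (.sup (nat_lit 0x1000200070008000400000000) (nat_lit 0x20000000000000000000000040002)) (.non (nat_lit 1) (nat_lit 2) (nat_lit 0x541) (nat_lit 0x100010001000000000001))) (.non (nat_lit 0) (nat_lit 3) (nat_lit 0xa014) (nat_lit 0x10001000000000000000100010000))) (.non (nat_lit 0) (nat_lit 2) (nat_lit 0x9004) (nat_lit 0x10001000000000000000000010000))) (.split (nat_lit 7) (nat_lit 1) (.split (nat_lit 7) (nat_lit 6) (.sup (nat_lit 0x5000b001e0020001200000000) (nat_lit 0x800000000000000000000000d0007)) (.non (nat_lit 0) (nat_lit 2) (nat_lit 0x5004) (nat_lit 0x10001000000000000000000010000)))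 (.non (nat_lit 0) (nat_lit 2) (nat_lit 0xf004) (nat_lit 0x20001000000000000000000030000)))))) (.non (nat_lit 0) (nat_lit 2) (nat_lit 0x5540) (nat_lit 0x20001000300040003000000000000))) (.non (nat_lit 0) (nat_lit 2) (nat_lit 0x4540) (nat_lit 0x10000000100020002000000000000))) (.non (nat_lit 0) (nat_lit 2) (nat_lit 0x4540) (nat_lit 0x10000000100020002000000000000))) (.non (nat_lit 0) (nat_lit 3) (nat_lit 0x5010) (nat_lit 0x10001000000000000000100000000))) (.non (nat_lit 1) (nat_lit 2) (nat_lit 0x4541) (nat_lit 0x10000000300040003000000000002))))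

noncomputable def t11_3 : Tr := (.split (nat_lit 6) (nat_lit 3) (.split (nat_lit 6) (nat_lit 4) (.split (nat_lit 6) (nat_lit 5) (.ex (nat_lit 2) (.ex (nat_lit 6) (.split (nat_lit 6) (nat_lit 2) (.pd (.cons (nat_lit 0) (nat_lit 4) (nat_lit 0x100010) (nat_lit 0x2102250) (nat_lit 0xf423f0000100000f423f7a11d0000100000) (.cons (nat_lit 0) (nat_lit 5) (nat_lit 0) (nat_lit 0x2032210) (nat_lit 0xf423f00000f423f5459106711f423f00000) (.cons (nat_lit 1) (nat_lit 4) (nat_lit 0x100001) (nat_lit 0x2002205) (nat_lit 0xf423f0000100000f423f7a11d0000000001) (.cons (nat_lit 1) (nat_lit 5) (nat_lit 0) (nat_lit 0x2032200) (nat_lit 0xf423f00000f423f545910671100000f423f) .nil)))) (.leaf .nil .nil)) (.unj (nat_lit 5) (nat_lit 0x10001) (nat_lit 0x1150) (nat_lit 0x1000000010001000100000000))) (.split (nat_lit 7) (nat_lit 0) (.split (nat_lit 7) (nat_lit 1) (.split (nat_lit 7) (nat_lit 2) (.split (nat_lit 7) (nat_lit 3) (.split (nat_lit 7) (nat_lit 4) (.split (nat_lit 7) (nat_lit 5) (.unj (nat_lit 5) (nat_lit 0x10001) (nat_lit 0x5150)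 (nat_lit 0x10002000000030004000300000000)) (.non (nat_lit 0) (nat_lit 2) (nat_lit 0x5540) (nat_lit 0x20001000300040003000000000000))) (.non (nat_lit 0) (nat_lit 2) (nat_lit 0x4540) (nat_lit 0x10000000100020002000000000000))) (.non (nat_lit 0) (nat_lit 2) (nat_lit 0x4540) (nat_lit 0x10000000100020002000000000000))) (.non (nat_lit 0) (nat_lit 3) (nat_lit 0x5010) (nat_lit 0x10001000000000000000100000000))) (.non (nat_lit 0) (nat_lit 2) (nat_lit 0x4544) (nat_lit 0x10000000300040003000000020000))) (.non (nat_lit 1) (nat_lit 2) (nat_lit 0x4541) (nat_lit 0x10000000300040003000000000002)))) (.split (nat_lit 7) (nat_lit 0) (.split (nat_lit 7) (nat_lit 1) (.split (nat_lit 7) (nat_lit 3) (.split (nat_lit 7) (nat_lit 4) (.split (nat_lit 7) (nat_lit 5) (.split (nat_lit 7) (nat_lit 6) (.unj (nat_lit 5) (nat_lit 0x10001) (nat_lit 0x5150) (nat_lit 0x10001000000020002000200000000)) (.non (nat_lit 0) (nat_lit 3) (nat_lit 0x5010) (nat_lit 0x10001000000000000000100000000))) (.non (nat_lit 0) (nat_lit 2) (nat_lit 0x4544) (nat_lit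 0x10000000200020002000000010000))) (.non (nat_lit 0) (nat_lit 2) (nat_lit 0x4540) (nat_lit 0x10000000100020002000000000000))) (.non (nat_lit 0) (nat_lit 2) (nat_lit 0x4540) (nat_lit 0x10000000100020002000000000000))) (.star (nat_lit 7) (nat_lit 1) (nat_lit 2))) (.star (nat_lit 7) (nat_lit 0) (nat_lit 2)))) (.non (nat_lit 0) (nat_lit 2) (nat_lit 0x1544) (nat_lit 0x1000200020002000000010000))) (.non (nat_lit 0) (nat_lit 2) (nat_lit 0x1540) (nat_lit 0x1000100020002000000000000))) (.non (nat_lit 0) (nat_lit 2) (nat_lit 0x1540) (nat_lit 0x1000100020002000000000000)))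

noncomputable def t11_4 : Tr := (.split (nat_lit 5) (nat_lit 1) (.st (nat_lit 0) (nat_lit 1) (nat_lit 2) (nat_lit 0x541) (nat_lit 0x300040003000000000002) (nat_lit 1) (nat_lit 1) (.st (nat_lit 5) (nat_lit 1) (nat_lit 2) (nat_lit 0x541) (nat_lit 0x200020002000000000001) (nat_lit 1) (nat_lit 1) (.ex (nat_lit 2) (.pd (.cons (nat_lit 0) (nat_lit 4) (nat_lit 0) (nat_lit 0x502210) (nat_lit 0xf423f00000f423fb71aef423f00000) (.cons (nat_lit 0) (nat_lit 5) (nat_lit 0) (nat_lit 0x32210) (nat_lit 0xf423f54591437a2f423f00000) (.cons (nat_lit 1) (nat_lit 4) (nat_lit 0x100001) (nat_lit 0x2205) (nat_lit 0x100000f423fb71ae0000000001) (.cons (nat_lit 1) (nat_lit 5) (nat_lit 0) (nat_lit 0x32200) (nat_lit 0xf423f54591437a200000f423f) .nil)))) (.split (nat_lit 5) (nat_lit 0) (.leaf .nil (.cons (nat_lit 0x111001) (nat_lit 0x110) (nat_lit 0x10) (nat_lit 0x210003) .nil)) (.non (nat_lit 1) (nat_lit 2) (nat_lit 0x541) (nat_lit 0x100010001000000000001)))) (.split (nat_lit 6) (nat_lit 0) (.split (nat_lit 6) (nat_lit 1) (.split (nat_lit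 6) (nat_lit 3) (.split (nat_lit 6) (nat_lit 4) (.split (nat_lit 6) (nat_lit 5) (.ex (nat_lit 2) t11_2 (.split (nat_lit 7) (nat_lit 0) (.split (nat_lit 7) (nat_lit 1) (.split (nat_lit 7) (nat_lit 3) (.split (nat_lit 7) (nat_lit 4) (.split (nat_lit 7) (nat_lit 5) (.split (nat_lit 7) (nat_lit 6) (.unj (nat_lit 5) (nat_lit 0x10001) (nat_lit 0x5150) (nat_lit 0x10001000000020002000200000000)) (.non (nat_lit 0) (nat_lit 3) (nat_lit 0x5010) (nat_lit 0x10001000000000000000100000000))) (.non (nat_lit 1) (nat_lit 2) (nat_lit 0x4541) (nat_lit 0x10000000200020002000000000001))) (.non (nat_lit 0) (nat_lit 2) (nat_lit 0x4540) (nat_lit 0x10000000100020002000000000000))) (.non (nat_lit 0) (nat_lit 2) (nat_lit 0x4540) (nat_lit 0x10000000100020002000000000000))) (.star (nat_lit 7) (nat_lit 1) (nat_lit 2))) (.star (nat_lit 7) (nat_lit 0) (nat_lit 2)))) (.non (nat_lit 1) (nat_lit 2) (nat_lit 0x1541) (nat_lit 0x1000200020002000000000001))) (.non (nat_lit 0) (nat_lit 2) (nat_lit 0x1540) (nat_lit 0x1000100020002000000000000))) (.non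 (nat_lit 0) (nat_lit 2) (nat_lit 0x1540) (nat_lit 0x1000100020002000000000000))) (.star (nat_lit 6) (nat_lit 1) (nat_lit 2))) (.star (nat_lit 6) (nat_lit 0) (nat_lit 2)))))) (.ex (nat_lit 2) (.pd (.cons (nat_lit 0) (nat_lit 4) (nat_lit 0x100010) (nat_lit 0x102250) (nat_lit 0x100000f423fb71ae0000100000) (.cons (nat_lit 0) (nat_lit 5) (nat_lit 0) (nat_lit 0x32210) (nat_lit 0xf423f54591437a2f423f00000) (.cons (nat_lit 1) (nat_lit 4) (nat_lit 0x100001) (nat_lit 0x2205) (nat_lit 0x100000f423fb71ae0000000001) (.cons (nat_lit 1) (nat_lit 5) (nat_lit 0) (nat_lit 0x32200) (nat_lit 0xf423f54591437a200000f423f) .nil)))) (.leaf .nil .nil)) (.split (nat_lit 6) (nat_lit 0) (.split (nat_lit 6) (nat_lit 1) t11_3 (.star (nat_lit 6) (nat_lit 1) (nat_lit 2))) (.star (nat_lit 6) (nat_lit 0) (nat_lit 2)))))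

noncomputable def t11 : Tr := (.split (nat_lit 5) (nat_lit 0) (.split (nat_lit 5) (nat_lit 1) .uj (.st (nat_lit 1) (nat_lit 0) (nat_lit 2) (nat_lit 0x544) (nat_lit 0x300040003000000020000) (nat_lit 1) (nat_lit 1) (.st (nat_lit 5) (nat_lit 0) (nat_lit 2) (nat_lit 0x544) (nat_lit 0x200020002000000010000) (nat_lit 1) (nat_lit 1) (.ex (nat_lit 2) (.pd (.cons (nat_lit 0) (nat_lit 4) (nat_lit 0x100010) (nat_lit 0x102250) (nat_lit 0x100000f423fb71ae0000100000) (.cons (nat_lit 0) (nat_lit 5) (nat_lit 0) (nat_lit 0x32210) (nat_lit 0xf423f54591437a2f423f00000) (.cons (nat_lit 1) (nat_lit 4) (nat_lit 0) (nat_lit 0x502200) (nat_lit 0xf423f00000f423fb71ae00000f423f) (.cons (nat_lit 1) (nat_lit 5) (nat_lit 0) (nat_lit 0x32200) (nat_lit 0xf423f54591437a200000f423f) .nil)))) (.split (nat_lit 5) (nat_lit 1) (.leaf .nil (.cons (nat_lit 0x111010) (nat_lit 0x101) (nat_lit 0x10) (nat_lit 0x210030) .nil)) (.non (nat_lit 0) (nat_lit 2) (nat_lit 0x544) (nat_lit 0x100010001000000010000)))) (.split (nat_lit 6) (nat_lit 0) (.split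 (nat_lit 6) (nat_lit 1) (.split (nat_lit 6) (nat_lit 3) (.split (nat_lit 6) (nat_lit 4) (.split (nat_lit 6) (nat_lit 5) (.ex (nat_lit 2) t11_1 (.split (nat_lit 7) (nat_lit 0) (.split (nat_lit 7) (nat_lit 1) (.split (nat_lit 7) (nat_lit 3) (.split (nat_lit 7) (nat_lit 4) (.split (nat_lit 7) (nat_lit 5) (.split (nat_lit 7) (nat_lit 6) (.unj (nat_lit 5) (nat_lit 0x10001) (nat_lit 0x5150) (nat_lit 0x10001000000020002000200000000)) (.non (nat_lit 0) (nat_lit 3) (nat_lit 0x5010) (nat_lit 0x10001000000000000000100000000))) (.non (nat_lit 0) (nat_lit 2) (nat_lit 0x4544) (nat_lit 0x10000000200020002000000010000))) (.non (nat_lit 0) (nat_lit 2) (nat_lit 0x4540) (nat_lit 0x10000000100020002000000000000))) (.non (nat_lit 0) (nat_lit 2) (nat_lit 0x4540) (nat_lit 0x10000000100020002000000000000))) (.star (nat_lit 7) (nat_lit 1) (nat_lit 2))) (.star (nat_lit 7) (nat_lit 0) (nat_lit 2)))) (.non (nat_lit 0) (nat_lit 2) (nat_lit 0x1544) (nat_lit 0x1000200020002000000010000))) (.non (nat_lit 0) (nat_lit 2) (nat_lit 0x1540) (nat_lit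 0x1000100020002000000000000))) (.non (nat_lit 0) (nat_lit 2) (nat_lit 0x1540) (nat_lit 0x1000100020002000000000000))) (.star (nat_lit 6) (nat_lit 1) (nat_lit 2))) (.star (nat_lit 6) (nat_lit 0) (nat_lit 2))))))) t11_4)

noncomputable def t15_1 : Tr := (.split (nat_lit 5) (nat_lit 1) (.st (nat_lit 3) (nat_lit 1) (nat_lit 2) (nat_lit 0x681) (nat_lit 0x400030002000000000002) (nat_lit 2) (nat_lit 1) (.st (nat_lit 0) (nat_lit 1) (nat_lit 2) (nat_lit 0x681) (nat_lit 0x300020001000000000002) (nat_lit 1) (nat_lit 1) (.st (nat_lit 5) (nat_lit 1) (nat_lit 2) (nat_lit 0x601) (nat_lit 0x200010000000000000001) (nat_lit 1) (nat_lit 1) (.ex (nat_lit 2) (.pd (.cons (nat_lit 0) (nat_lit 4) (nat_lit 0) (nat_lit 0x502210) (nat_lit 0xf423f00000f423f54591f423f00000) (.cons (nat_lit 0) (nat_lit 5) (nat_lit 0) (nat_lit 0x32210) (nat_lit 0xf423fb71ae1f156f423f00000) (.cons (nat_lit 1) (nat_lit 4) (nat_lit 0x100001) (nat_lit 0x2205) (nat_lit 0x100000f423f545910000000001) (.cons (nat_lit 1) (nat_lit 5) (nat_lit 0) (nat_lit 0x32200)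 (nat_lit 0xf423fb71ae1f15600000f423f) .nil)))) (.split (nat_lit 5) (nat_lit 4) (.split (nat_lit 5) (nat_lit 0) (.leaf .nil (.cons (nat_lit 0x110001) (nat_lit 0x1010) (nat_lit 6) (nat_lit 0x100002) .nil)) (.non (nat_lit 1) (nat_lit 2) (nat_lit 0x901) (nat_lit 0x100010000000000000001))) (.non (nat_lit 1) (nat_lit 2) (nat_lit 0x541) (nat_lit 0x200020001000000000001)))) (.split (nat_lit 6) (nat_lit 0) (.split (nat_lit 6) (nat_lit 1) (.split (nat_lit 6) (nat_lit 3) (.split (nat_lit 6) (nat_lit 4) (.split (nat_lit 6) (nat_lit 5) (.unj (nat_lit 5) (nat_lit 0x10001) (nat_lit 0x1150) (nat_lit 0x1000000010002000200000000)) (.non (nat_lit 1) (nat_lit 2) (nat_lit 0x1601) (nat_lit 0x1000200010000000000000001))) (.non (nat_lit 0) (nat_lit 2) (nat_lit 0x1940) (nat_lit 0x1000100020001000000000000))) (.non (nat_lit 1) (nat_lit 2) (nat_lit 0x2681) (nat_lit 0x1000400030002000000000002))) (.star (nat_lit 6) (nat_lit 1) (nat_lit 2))) (.star (nat_lit 6) (nat_lit 0) (nat_lit 2))))))) (.st (nat_lit 3) (nat_lit 0) (nat_lit 2) (nat_lit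 0x684) (nat_lit 0x400030002000000020000) (nat_lit 2) (nat_lit 1) (.ex (nat_lit 2) (.pd (.cons (nat_lit 0) (nat_lit 4) (nat_lit 0x100010) (nat_lit 0x102250) (nat_lit 0x100000f423f545910000100000) (.cons (nat_lit 0) (nat_lit 5) (nat_lit 0) (nat_lit 0x32210) (nat_lit 0xf423fb71ae1f156f423f00000) (.cons (nat_lit 1) (nat_lit 4) (nat_lit 0x100001) (nat_lit 0x2205) (nat_lit 0x100000f423f545910000000001) (.cons (nat_lit 1) (nat_lit 5) (nat_lit 0) (nat_lit 0x32200) (nat_lit 0xf423fb71ae1f15600000f423f) .nil)))) (.leaf .nil .nil)) (.split (nat_lit 6) (nat_lit 0) (.split (nat_lit 6) (nat_lit 1) (.split (nat_lit 6) (nat_lit 3) (.split (nat_lit 6) (nat_lit 4) (.split (nat_lit 6) (nat_lit 5) (.unj (nat_lit 5) (nat_lit 0x10001) (nat_lit 0x1150) (nat_lit 0x1000000010002000200000000)) (.non (nat_lit 0) (nat_lit 2) (nat_lit 0x1604) (nat_lit 0x1000200010000000000010000))) (.non (nat_lit 0) (nat_lit 2) (nat_lit 0x1940) (nat_lit 0x1000100020001000000000000))) (.non (nat_lit 0) (nat_lit 2) (nat_lit 0x2684) (nat_lit 0x1000400030002000000020000)))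 (.star (nat_lit 6) (nat_lit 1) (nat_lit 2))) (.star (nat_lit 6) (nat_lit 0) (nat_lit 2))))))

noncomputable def t15 : Tr := (.split (nat_lit 5) (nat_lit 0) (.split (nat_lit 5) (nat_lit 1) .uj (.st (nat_lit 3) (nat_lit 0) (nat_lit 2) (nat_lit 0x684) (nat_lit 0x400030002000000020000) (nat_lit 2) (nat_lit 1) (.st (nat_lit 1) (nat_lit 0) (nat_lit 2) (nat_lit 0x684) (nat_lit 0x300020001000000020000) (nat_lit 1) (nat_lit 1) (.st (nat_lit 5) (nat_lit 0) (nat_lit 2) (nat_lit 0x604) (nat_lit 0x200010000000000010000) (nat_lit 1) (nat_lit 1) (.ex (nat_lit 2) (.pd (.cons (nat_lit 0) (nat_lit 4) (nat_lit 0x100010) (nat_lit 0x102250) (nat_lit 0x100000f423f545910000100000) (.cons (nat_lit 0) (nat_lit 5) (nat_lit 0) (nat_lit 0x32210) (nat_lit 0xf423fb71ae1f156f423f00000) (.cons (nat_lit 1) (nat_lit 4) (nat_lit 0) (nat_lit 0x502200) (nat_lit 0xf423f00000f423f5459100000f423f) (.cons (nat_lit 1) (nat_lit 5) (nat_lit 0) (nat_lit 0x32200) (nat_lit 0xf423fb71ae1f15600000f423f) .nil)))) (.split (nat_lit 5) (nat_lit 1) (.leaf .nil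 (.cons (nat_lit 0x100010) (nat_lit 0x10001) (nat_lit 0) (nat_lit 0x100000) .nil)) (.non (nat_lit 0) (nat_lit 2) (nat_lit 0x904) (nat_lit 0x100010000000000010000)))) (.split (nat_lit 6) (nat_lit 0) (.split (nat_lit 6) (nat_lit 1) (.split (nat_lit 6) (nat_lit 3) (.split (nat_lit 6) (nat_lit 4) (.split (nat_lit 6) (nat_lit 5) (.unj (nat_lit 5) (nat_lit 0x10001) (nat_lit 0x1150) (nat_lit 0x1000000010002000200000000)) (.non (nat_lit 0) (nat_lit 2) (nat_lit 0x1604) (nat_lit 0x1000200010000000000010000))) (.non (nat_lit 0) (nat_lit 2) (nat_lit 0x1940) (nat_lit 0x1000100020001000000000000))) (.non (nat_lit 0) (nat_lit 2) (nat_lit 0x2684) (nat_lit 0x1000400030002000000020000))) (.star (nat_lit 6) (nat_lit 1) (nat_lit 2))) (.star (nat_lit 6) (nat_lit 0) (nat_lit 2)))))))) t15_1)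

noncomputable def t22_1 : Tr := (.ex (nat_lit 4) (.ex (nat_lit 6) (.split (nat_lit 6) (nat_lit 4) (.pd (.cons (nat_lit 0) (nat_lit 3) (nat_lit 0x100010) (nat_lit 0x4140250) (nat_lit 0xf423f00001b71ae00000f423f0000100000) (.cons (nat_lit 0) (nat_lit 5) (nat_lit 0) (nat_lit 0x4032210) (nat_lit 0xf423f00000b71aea2c2804737f423f00000) (.cons (nat_lit 1) (nat_lit 3) (nat_lit 0) (nat_lit 0x4540200) (nat_lit 0xf423ff423fb71ae00000f423f00000f423f) (.cons (nat_lit 1) (nat_lit 5) (nat_lit 0) (nat_lit 0x4032200) (nat_lit 0xf423f00000b71aea2c280473700000f423f) .nil)))) (.split (nat_lit 5) (nat_lit 1) (.leaf .nil (.cons (nat_lit 0x100010) (nat_lit 0x1001) (nat_lit 0) (nat_lit 0x100000) .nil)) (.non (nat_lit 0) (nat_lit 4) (nat_lit 0x454) (nat_lit 0x100000001000100010000)))) (.unj (nat_lit 5) (nat_lit 0x10001) (nat_lit 0x1150) (nat_lit 0x1000000010001000100000000))) (.split (nat_lit 7) (nat_lit 1) (.split (nat_lit 7) (nat_lit 2) (.split (nat_lit 7) (nat_lit 3) (.split (nat_lit 7) (nat_lit 4) (.split (nat_lit 7) (nat_lit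 5) (.split (nat_lit 7) (nat_lit 0) (.unj (nat_lit 5) (nat_lit 0x10001) (nat_lit 0x5150) (nat_lit 0x10002000000030004000300000000)) (.split (nat_lit 7) (nat_lit 0) (.split (nat_lit 7) (nat_lit 6) (.split (nat_lit 6) (nat_lit 4) (.split (nat_lit 5) (nat_lit 1) (.sup (nat_lit 0x1000200040008000600000000) (nat_lit 0x20000000000000000000000050006)) (.non (nat_lit 0) (nat_lit 4) (nat_lit 0x454) (nat_lit 0x100000001000100010000))) (.non (nat_lit 0) (nat_lit 2) (nat_lit 0xa540) (nat_lit 0x10002000100030002000000000000))) (.non (nat_lit 1) (nat_lit 2) (nat_lit 0x6281) (nat_lit 0x40003000000020001000000000002))) (.split (nat_lit 7) (nat_lit 0) (.split (nat_lit 7) (nat_lit 6) (.sup (nat_lit 0x2000500090010000c00000000) (nat_lit 0x50000000000000000000000050008)) (.non (nat_lit 1) (nat_lit 2) (nat_lit 0x9001) (nat_lit 0x10001000000000000000000000001))) (.non (nat_lit 1) (nat_lit 2) (nat_lit 0x5141) (nat_lit 0x40003000000020001000000000003))))) (.non (nat_lit 0) (nat_lit 2) (nat_lit 0x5540) (nat_lit 0x10001000100010001000000000000)))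 (.non (nat_lit 0) (nat_lit 2) (nat_lit 0x5100) (nat_lit 0x10001000000010000000000000000))) (.non (nat_lit 0) (nat_lit 2) (nat_lit 0x5140) (nat_lit 0x10001000000010001000000000000))) (.non (nat_lit 0) (nat_lit 4) (nat_lit 0x4450) (nat_lit 0x10000000100000002000200000000))) (.non (nat_lit 0) (nat_lit 2) (nat_lit 0x5544) (nat_lit 0x10001000100010001000000010000)))) (.split (nat_lit 7) (nat_lit 0) (.split (nat_lit 7) (nat_lit 1) (.split (nat_lit 7) (nat_lit 2) (.split (nat_lit 7) (nat_lit 3) (.split (nat_lit 7) (nat_lit 5) (.split (nat_lit 7) (nat_lit 6) (.unj (nat_lit 5) (nat_lit 0x10001) (nat_lit 0x5150) (nat_lit 0x10001000000020002000200000000)) (.non (nat_lit 0) (nat_lit 2) (nat_lit 0x5100) (nat_lit 0x10001000000010000000000000000))) (.non (nat_lit 0) (nat_lit 2) (nat_lit 0x4540) (nat_lit 0x10000000100010001000000000000))) (.non (nat_lit 0) (nat_lit 2) (nat_lit 0x4140) (nat_lit 0x10000000000010001000000000000))) (.non (nat_lit 0) (nat_lit 4) (nat_lit 0x4450) (nat_lit 0x10000000100000002000200000000))) (.star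 (nat_lit 7) (nat_lit 1) (nat_lit 4))) (.star (nat_lit 7) (nat_lit 0) (nat_lit 4))))

noncomputable def t22_2 : Tr := (.ex (nat_lit 4) (.ex (nat_lit 6) (.split (nat_lit 6) (nat_lit 4) (.pd (.cons (nat_lit 0) (nat_lit 3) (nat_lit 0) (nat_lit 0x4540210) (nat_lit 0xf423ff423fb71ae00000f423ff423f00000) (.cons (nat_lit 0) (nat_lit 5) (nat_lit 0) (nat_lit 0x4032210) (nat_lit 0xf423f00000b71aea2c2804737f423f00000) (.cons (nat_lit 1) (nat_lit 3) (nat_lit 0x100001) (nat_lit 0x4040205) (nat_lit 0xf423f00001b71ae00000f423f0000000001) (.cons (nat_lit 1) (nat_lit 5) (nat_lit 0) (nat_lit 0x4032200) (nat_lit 0xf423f00000b71aea2c280473700000f423f) .nil)))) (.split (nat_lit 5) (nat_lit 0) (.leaf .nil (.cons (nat_lit 0x100001) (nat_lit 0x1010) (nat_lit 0) (nat_lit 0x100000) .nil)) (.non (nat_lit 1) (nat_lit 4) (nat_lit 0x451) (nat_lit 0x100000001000100000001)))) (.unj (nat_lit 5) (nat_lit 0x10001) (nat_lit 0x1150) (nat_lit 0x1000000010001000100000000))) (.split (nat_lit 7) (nat_lit 0) (.split (nat_lit 7) (nat_lit 2) (.split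 (nat_lit 7) (nat_lit 3) (.split (nat_lit 7) (nat_lit 4) (.split (nat_lit 7) (nat_lit 5) (.split (nat_lit 7) (nat_lit 1) (.unj (nat_lit 5) (nat_lit 0x10001) (nat_lit 0x5150) (nat_lit 0x10002000000030004000300000000)) (.split (nat_lit 7) (nat_lit 1) (.split (nat_lit 7) (nat_lit 6) (.split (nat_lit 6) (nat_lit 4) (.split (nat_lit 5) (nat_lit 0) (.sup (nat_lit 0x1000200040008000600000000) (nat_lit 0x20000000000000000000000060005)) (.non (nat_lit 1) (nat_lit 4) (nat_lit 0x451) (nat_lit 0x100000001000100000001))) (.non (nat_lit 0) (nat_lit 2) (nat_lit 0xa540) (nat_lit 0x10002000100030002000000000000))) (.non (nat_lit 0) (nat_lit 2) (nat_lit 0x6284) (nat_lit 0x40003000000020001000000020000))) (.split (nat_lit 7) (nat_lit 1) (.split (nat_lit 7) (nat_lit 6) (.sup (nat_lit 0x2000500090010000c00000000) (nat_lit 0x50000000000000000000000080005)) (.non (nat_lit 0) (nat_lit 2) (nat_lit 0x9004) (nat_lit 0x10001000000000000000000010000))) (.non (nat_lit 0) (nat_lit 2) (nat_lit 0x5144) (nat_lit 0x40003000000020001000000030000)))))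 (.non (nat_lit 0) (nat_lit 2) (nat_lit 0x5540) (nat_lit 0x10001000100010001000000000000))) (.non (nat_lit 0) (nat_lit 2) (nat_lit 0x5100) (nat_lit 0x10001000000010000000000000000))) (.non (nat_lit 0) (nat_lit 2) (nat_lit 0x5140) (nat_lit 0x10001000000010001000000000000))) (.non (nat_lit 0) (nat_lit 4) (nat_lit 0x4450) (nat_lit 0x10000000100000002000200000000))) (.non (nat_lit 1) (nat_lit 2) (nat_lit 0x5541) (nat_lit 0x10001000100010001000000000001)))) (.split (nat_lit 7) (nat_lit 0) (.split (nat_lit 7) (nat_lit 1) (.split (nat_lit 7) (nat_lit 2) (.split (nat_lit 7) (nat_lit 3) (.split (nat_lit 7) (nat_lit 5) (.split (nat_lit 7) (nat_lit 6) (.unj (nat_lit 5) (nat_lit 0x10001) (nat_lit 0x5150) (nat_lit 0x10001000000020002000200000000)) (.non (nat_lit 0) (nat_lit 2) (nat_lit 0x5100) (nat_lit 0x10001000000010000000000000000))) (.non (nat_lit 0) (nat_lit 2) (nat_lit 0x4540) (nat_lit 0x10000000100010001000000000000))) (.non (nat_lit 0) (nat_lit 2) (nat_lit 0x4140) (nat_lit 0x10000000000010001000000000000))) (.non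 (nat_lit 0) (nat_lit 4) (nat_lit 0x4450) (nat_lit 0x10000000100000002000200000000))) (.star (nat_lit 7) (nat_lit 1) (nat_lit 4))) (.star (nat_lit 7) (nat_lit 0) (nat_lit 4))))

noncomputable def t22_3 : Tr := (.split (nat_lit 6) (nat_lit 2) (.split (nat_lit 6) (nat_lit 3) (.split (nat_lit 6) (nat_lit 5) (.ex (nat_lit 4) (.ex (nat_lit 6) (.split (nat_lit 6) (nat_lit 4) (.pd (.cons (nat_lit 0) (nat_lit 3) (nat_lit 0x100010) (nat_lit 0x4140250) (nat_lit 0xf423f00001b71ae00000f423f0000100000) (.cons (nat_lit 0) (nat_lit 5) (nat_lit 0) (nat_lit 0x4032210) (nat_lit 0xf423f00000b71aea2c2804737f423f00000) (.cons (nat_lit 1) (nat_lit 3) (nat_lit 0x100001) (nat_lit 0x4040205) (nat_lit 0xf423f00001b71ae00000f423f0000000001) (.cons (nat_lit 1) (nat_lit 5) (nat_lit 0) (nat_lit 0x4032200) (nat_lit 0xf423f00000b71aea2c280473700000f423f) .nil)))) (.leaf .nil .nil)) (.unj (nat_lit 5) (nat_lit 0x10001) (nat_lit 0x1150) (nat_lit 0x1000000010001000100000000))) (.split (nat_lit 7) (nat_lit 0) (.split (nat_lit 7) (nat_lit 1) (.split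 (nat_lit 7) (nat_lit 2) (.split (nat_lit 7) (nat_lit 3) (.split (nat_lit 7) (nat_lit 4) (.split (nat_lit 7) (nat_lit 5) (.unj (nat_lit 5) (nat_lit 0x10001) (nat_lit 0x5150) (nat_lit 0x10002000000030004000300000000)) (.non (nat_lit 0) (nat_lit 2) (nat_lit 0x5540) (nat_lit 0x10001000100010001000000000000))) (.non (nat_lit 0) (nat_lit 2) (nat_lit 0x5100) (nat_lit 0x10001000000010000000000000000))) (.non (nat_lit 0) (nat_lit 2) (nat_lit 0x5140) (nat_lit 0x10001000000010001000000000000))) (.non (nat_lit 0) (nat_lit 4) (nat_lit 0x4450) (nat_lit 0x10000000100000002000200000000))) (.non (nat_lit 0) (nat_lit 2) (nat_lit 0x5544) (nat_lit 0x10001000100010001000000010000))) (.non (nat_lit 1) (nat_lit 2) (nat_lit 0x5541) (nat_lit 0x10001000100010001000000000001)))) (.split (nat_lit 7) (nat_lit 0) (.split (nat_lit 7) (nat_lit 1) (.split (nat_lit 7) (nat_lit 2) (.split (nat_lit 7) (nat_lit 3) (.split (nat_lit 7) (nat_lit 5) (.split (nat_lit 7) (nat_lit 6) (.unj (nat_lit 5) (nat_lit 0x10001) (nat_lit 0x5150) (nat_lit 0x10001000000020002000200000000))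 (.non (nat_lit 0) (nat_lit 2) (nat_lit 0x5100) (nat_lit 0x10001000000010000000000000000))) (.non (nat_lit 0) (nat_lit 2) (nat_lit 0x4540) (nat_lit 0x10000000100010001000000000000))) (.non (nat_lit 0) (nat_lit 2) (nat_lit 0x4140) (nat_lit 0x10000000000010001000000000000))) (.non (nat_lit 0) (nat_lit 4) (nat_lit 0x4450) (nat_lit 0x10000000100000002000200000000))) (.star (nat_lit 7) (nat_lit 1) (nat_lit 4))) (.star (nat_lit 7) (nat_lit 0) (nat_lit 4)))) (.non (nat_lit 0) (nat_lit 2) (nat_lit 0x1540) (nat_lit 0x1000100010001000000000000))) (.non (nat_lit 0) (nat_lit 2) (nat_lit 0x1140) (nat_lit 0x1000000010001000000000000))) (.non (nat_lit 0) (nat_lit 4) (nat_lit 0x1450) (nat_lit 0x1000100000002000200000000)))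

noncomputable def t22 : Tr := (.split (nat_lit 5) (nat_lit 0) (.split (nat_lit 5) (nat_lit 1) .uj (.st (nat_lit 1) (nat_lit 0) (nat_lit 4) (nat_lit 0x454) (nat_lit 0x300000004000300020000) (nat_lit 1) (nat_lit 1) (.st (nat_lit 5) (nat_lit 0) (nat_lit 4) (nat_lit 0x454) (nat_lit 0x200000002000200010000) (nat_lit 1) (nat_lit 1) (.ex (nat_lit 4) (.pd (.cons (nat_lit 0) (nat_lit 3) (nat_lit 0x100010) (nat_lit 0x140250) (nat_lit 0x1f423f00000f423f0000100000) (.cons (nat_lit 0) (nat_lit 5) (nat_lit 0) (nat_lit 0x32210) (nat_lit 0xf423fb71ae1f156f423f00000) (.cons (nat_lit 1) (nat_lit 3) (nat_lit 0) (nat_lit 0x540200) (nat_lit 0xf423ff423f00000f423f00000f423f) (.cons (nat_lit 1) (nat_lit 5) (nat_lit 0) (nat_lit 0x32200) (nat_lit 0xf423fb71ae1f15600000f423f) .nil)))) (.split (nat_lit 5) (nat_lit 1) (.leaf .nil (.cons (nat_lit 0x100010) (nat_lit 0x1001) (nat_lit 0) (nat_lit 0x100000) .nil)) (.non (nat_lit 0) (nat_lit 4) (nat_lit 0x454) (nat_lit 0x100000001000100010000)))) (.split (nat_lit 6) (nat_lit 0) (.split (nat_lit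 6) (nat_lit 1) (.split (nat_lit 6) (nat_lit 2) (.split (nat_lit 6) (nat_lit 3) (.split (nat_lit 6) (nat_lit 5) t22_1 (.non (nat_lit 0) (nat_lit 2) (nat_lit 0x1540) (nat_lit 0x1000100010001000000000000))) (.non (nat_lit 0) (nat_lit 2) (nat_lit 0x1140) (nat_lit 0x1000000010001000000000000))) (.non (nat_lit 0) (nat_lit 4) (nat_lit 0x1450) (nat_lit 0x1000100000002000200000000))) (.star (nat_lit 6) (nat_lit 1) (nat_lit 4))) (.star (nat_lit 6) (nat_lit 0) (nat_lit 4))))))) (.split (nat_lit 5) (nat_lit 1) (.st (nat_lit 0) (nat_lit 1) (nat_lit 4) (nat_lit 0x451) (nat_lit 0x300000004000300000002) (nat_lit 1) (nat_lit 1) (.st (nat_lit 5) (nat_lit 1) (nat_lit 4) (nat_lit 0x451) (nat_lit 0x200000002000200000001) (nat_lit 1) (nat_lit 1) (.ex (nat_lit 4) (.pd (.cons (nat_lit 0) (nat_lit 3) (nat_lit 0) (nat_lit 0x540210) (nat_lit 0xf423ff423f00000f423ff423f00000) (.cons (nat_lit 0) (nat_lit 5) (nat_lit 0) (nat_lit 0x32210) (nat_lit 0xf423fb71ae1f156f423f00000) (.cons (nat_lit 1) (nat_lit 3) (nat_lit 0x100001) (nat_lit 0x40205)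 (nat_lit 0x1f423f00000f423f0000000001) (.cons (nat_lit 1) (nat_lit 5) (nat_lit 0) (nat_lit 0x32200) (nat_lit 0xf423fb71ae1f15600000f423f) .nil)))) (.split (nat_lit 5) (nat_lit 0) (.leaf .nil (.cons (nat_lit 0x100001) (nat_lit 0x1010) (nat_lit 0) (nat_lit 0x100000) .nil)) (.non (nat_lit 1) (nat_lit 4) (nat_lit 0x451) (nat_lit 0x100000001000100000001)))) (.split (nat_lit 6) (nat_lit 0) (.split (nat_lit 6) (nat_lit 1) (.split (nat_lit 6) (nat_lit 2) (.split (nat_lit 6) (nat_lit 3) (.split (nat_lit 6) (nat_lit 5) t22_2 (.non (nat_lit 0) (nat_lit 2) (nat_lit 0x1540) (nat_lit 0x1000100010001000000000000))) (.non (nat_lit 0) (nat_lit 2) (nat_lit 0x1140) (nat_lit 0x1000000010001000000000000))) (.non (nat_lit 0) (nat_lit 4) (nat_lit 0x1450) (nat_lit 0x1000100000002000200000000))) (.star (nat_lit 6) (nat_lit 1) (nat_lit 4))) (.star (nat_lit 6) (nat_lit 0) (nat_lit 4)))))) (.ex (nat_lit 4) (.pd (.cons (nat_lit 0) (nat_lit 3) (nat_lit 0x100010) (nat_lit 0x140250) (nat_lit 0x1f423f00000f423f0000100000) (.cons (nat_lit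 0) (nat_lit 5) (nat_lit 0) (nat_lit 0x32210) (nat_lit 0xf423fb71ae1f156f423f00000) (.cons (nat_lit 1) (nat_lit 3) (nat_lit 0x100001) (nat_lit 0x40205) (nat_lit 0x1f423f00000f423f0000000001) (.cons (nat_lit 1) (nat_lit 5) (nat_lit 0) (nat_lit 0x32200) (nat_lit 0xf423fb71ae1f15600000f423f) .nil)))) (.leaf .nil .nil)) (.split (nat_lit 6) (nat_lit 0) (.split (nat_lit 6) (nat_lit 1) t22_3 (.star (nat_lit 6) (nat_lit 1) (nat_lit 4))) (.star (nat_lit 6) (nat_lit 0) (nat_lit 4))))))

noncomputable def t29_1 : Tr := (.split (nat_lit 8) (nat_lit 7) (.ex (nat_lit 8) (.leaf (.cons (nat_lit 0x554) (nat_lit 0x200030004000300010000) .nil) (.cons (nat_lit 0x111100010) (nat_lit 0x10001) (nat_lit 3) (nat_lit 0x430100020) .nil)) (.split (nat_lit 9) (nat_lit 1) (.split (nat_lit 9) (nat_lit 2) (.split (nat_lit 9) (nat_lit 3) (.split (nat_lit 9) (nat_lit 4) (.split (nat_lit 9) (nat_lit 5) (.split (nat_lit 9) (nat_lit 6) (.split (nat_lit 9) (nat_lit 7) (.split (nat_lit 9) (nat_lit 0) (.st (nat_lit 8) (nat_lit 0) (nat_lit 2) (nat_lit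 0x55504) (nat_lit 0x1000200020001000200010000000000020000) (nat_lit 1) (nat_lit 1) (.st (nat_lit 9) (nat_lit 0) (nat_lit 2) (nat_lit 0x55544) (nat_lit 0x2000300040003000600040002000000050000) (nat_lit 1) (nat_lit 1) (.split (nat_lit 9) (nat_lit 8) (.leaf (.cons (nat_lit 0x554) (nat_lit 0x200030004000300010000) .nil) (.cons (nat_lit 0x1111111010) (nat_lit 0x101) (nat_lit 0xe) (nat_lit 0x7651023040) (.cons (nat_lit 0x1111110010) (nat_lit 0x1001) (nat_lit 0xa) (nat_lit 0x6542010030) .nil))) (.non (nat_lit 0) (nat_lit 2) (nat_lit 0x95504) (nat_lit 0x1000200020001000200010000000000020000))))) (.st (nat_lit 8) (nat_lit 0) (nat_lit 2) (nat_lit 0x55504) (nat_lit 0x1000200020001000200010000000000020000) (nat_lit 1) (nat_lit 1) (.st (nat_lit 9) (nat_lit 0) (nat_lit 2) (nat_lit 0x55544) (nat_lit 0x2000300040003000600040002000000050000) (nat_lit 1) (nat_lit 1) (.split (nat_lit 9) (nat_lit 8) (.leaf (.cons (nat_lit 0x554) (nat_lit 0x200030004000300010000) .nil) (.cons (nat_lit 0x1111111010) (nat_lit 0x101) (nat_lit 0xe)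 (nat_lit 0x7651023040) (.cons (nat_lit 0x1111110010) (nat_lit 0x1001) (nat_lit 0xa) (nat_lit 0x6542010030) .nil))) (.non (nat_lit 0) (nat_lit 2) (nat_lit 0x95504) (nat_lit 0x1000200020001000200010000000000020000)))))) (.non (nat_lit 0) (nat_lit 2) (nat_lit 0x54000) (nat_lit 0x1000100010000000000000000000000000000))) (.non (nat_lit 0) (nat_lit 2) (nat_lit 0x55404) (nat_lit 0x1000100010001000100000000000000010000))) (.non (nat_lit 0) (nat_lit 2) (nat_lit 0x54404) (nat_lit 0x1000100010000000100000000000000010000))) (.non (nat_lit 0) (nat_lit 2) (nat_lit 0x54504) (nat_lit 0x1000100010000000100010000000000010000))) (.non (nat_lit 0) (nat_lit 2) (nat_lit 0x54544) (nat_lit 0x1000100010000000100010001000000010000))) (.non (nat_lit 0) (nat_lit 4) (nat_lit 0x54050) (nat_lit 0x3000200010000000000000003000400000000))) (.non (nat_lit 0) (nat_lit 2) (nat_lit 0x54004) (nat_lit 0x1000100010000000000000000000000010000)))) (.non (nat_lit 0) (nat_lit 2) (nat_lit 0x25504) (nat_lit 0x100020001000200010000000000020000)))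

noncomputable def t29_2 : Tr := (.split (nat_lit 8) (nat_lit 2) (.split (nat_lit 8) (nat_lit 3) (.split (nat_lit 8) (nat_lit 4) (.split (nat_lit 8) (nat_lit 5) (.split (nat_lit 8) (nat_lit 6) (.split (nat_lit 8) (nat_lit 0) (.st (nat_lit 7) (nat_lit 0) (nat_lit 2) (nat_lit 0x15504) (nat_lit 0x100020001000200010000000000020000) (nat_lit 1) (nat_lit 1) t29_1) (.st (nat_lit 7) (nat_lit 0) (nat_lit 2) (nat_lit 0x15504) (nat_lit 0x100020001000200010000000000020000) (nat_lit 1) (nat_lit 1) (.split (nat_lit 8) (nat_lit 7) (.split (nat_lit 8) (nat_lit 0) (.ex (nat_lit 8) (.leaf (.cons (nat_lit 0x554) (nat_lit 0x200030004000300010000) .nil) (.cons (nat_lit 0x111100010) (nat_lit 0x10001) (nat_lit 3) (nat_lit 0x430100020) .nil)) (.split (nat_lit 9) (nat_lit 0) (.split (nat_lit 9) (nat_lit 1) (.split (nat_lit 9) (nat_lit 2) (.split (nat_lit 9) (nat_lit 3) (.split (nat_lit 9) (nat_lit 4) (.split (nat_lit 9) (nat_lit 5) (.split (nat_lit 9) (nat_lit 6) (.split (nat_lit 9) (nat_lit 7) (.sup (nat_lit 0x30007000b0010000d00000000)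 (nat_lit 0x2000400030000000000000000000000010003)) (.non (nat_lit 0) (nat_lit 2) (nat_lit 0x54000) (nat_lit 0x1000100010000000000000000000000000000))) (.non (nat_lit 0) (nat_lit 2) (nat_lit 0x55404) (nat_lit 0x1000100010001000100000000000000010000))) (.non (nat_lit 0) (nat_lit 2) (nat_lit 0x54404) (nat_lit 0x1000100010000000100000000000000010000))) (.non (nat_lit 0) (nat_lit 2) (nat_lit 0x54504) (nat_lit 0x1000100010000000100010000000000010000))) (.non (nat_lit 0) (nat_lit 2) (nat_lit 0x54544) (nat_lit 0x1000100010000000100010001000000010000))) (.non (nat_lit 0) (nat_lit 4) (nat_lit 0x54050) (nat_lit 0x3000200010000000000000003000400000000))) (.non (nat_lit 0) (nat_lit 2) (nat_lit 0x54004) (nat_lit 0x1000100010000000000000000000000010000))) (.non (nat_lit 1) (nat_lit 2) (nat_lit 0x50001) (nat_lit 0x1000100000000000000000000000000000001)))) (.sup (nat_lit 0x30007000b0010000d00000000) (nat_lit 0x300020000000000000000000000010003))) (.non (nat_lit 0) (nat_lit 2) (nat_lit 0x25504) (nat_lit 0x100020001000200010000000000020000)))))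 (.non (nat_lit 0) (nat_lit 2) (nat_lit 0x15404) (nat_lit 0x100010001000100000000000000010000))) (.non (nat_lit 0) (nat_lit 2) (nat_lit 0x14404) (nat_lit 0x100010000000100000000000000010000))) (.non (nat_lit 0) (nat_lit 2) (nat_lit 0x14504) (nat_lit 0x100010000000100010000000000010000))) (.non (nat_lit 0) (nat_lit 2) (nat_lit 0x14544) (nat_lit 0x100010000000100010001000000010000))) (.non (nat_lit 0) (nat_lit 4) (nat_lit 0x14054) (nat_lit 0x300020000000000000003000400010000)))

noncomputable def t29_3 : Tr := (.split (nat_lit 7) (nat_lit 3) (.split (nat_lit 7) (nat_lit 4) (.split (nat_lit 7) (nat_lit 5) (.split (nat_lit 7) (nat_lit 6) (.split (nat_lit 7) (nat_lit 0) (.st (nat_lit 1) (nat_lit 0) (nat_lit 2) (nat_lit 0x5504) (nat_lit 0x10001000200010000000000020000) (nat_lit 1) (nat_lit 1) (.split (nat_lit 7) (nat_lit 1) (.ex (nat_lit 7) (.leaf (.cons (nat_lit 0x554) (nat_lit 0x200030004000300010000) .nil) (.cons (nat_lit 0x11100010) (nat_lit 0x10001) (nat_lit 2) (nat_lit 0x30100020) .nil)) (.split (nat_lit 8)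 (nat_lit 1) t29_2 (.non (nat_lit 0) (nat_lit 2) (nat_lit 0x14004) (nat_lit 0x100010000000000000000000000010000)))) (.non (nat_lit 0) (nat_lit 2) (nat_lit 0x9504) (nat_lit 0x10001000200010000000000020000)))) (.st (nat_lit 1) (nat_lit 0) (nat_lit 2) (nat_lit 0x5504) (nat_lit 0x10001000200010000000000020000) (nat_lit 1) (nat_lit 1) (.split (nat_lit 7) (nat_lit 1) (.split (nat_lit 7) (nat_lit 0) (.ex (nat_lit 7) (.leaf (.cons (nat_lit 0x554) (nat_lit 0x200030004000300010000) .nil) (.cons (nat_lit 0x11100010) (nat_lit 0x10001) (nat_lit 2) (nat_lit 0x30100020) .nil)) (.split (nat_lit 8) (nat_lit 0) (.split (nat_lit 8) (nat_lit 1) (.split (nat_lit 8) (nat_lit 2) (.split (nat_lit 8) (nat_lit 3) (.split (nat_lit 8) (nat_lit 4) (.split (nat_lit 8) (nat_lit 5) (.split (nat_lit 8) (nat_lit 6) (.sup (nat_lit 0x30006000b0010000d00000000) (nat_lit 0x200030000000000000000000000020003)) (.non (nat_lit 0) (nat_lit 2) (nat_lit 0x15404) (nat_lit 0x100010001000100000000000000010000))) (.non (nat_lit 0) (nat_lit 2) (nat_lit 0x14404)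 (nat_lit 0x100010000000100000000000000010000))) (.non (nat_lit 0) (nat_lit 2) (nat_lit 0x14504) (nat_lit 0x100010000000100010000000000010000))) (.non (nat_lit 0) (nat_lit 2) (nat_lit 0x14544) (nat_lit 0x100010000000100010001000000010000))) (.non (nat_lit 0) (nat_lit 4) (nat_lit 0x14054) (nat_lit 0x300020000000000000003000400010000))) (.non (nat_lit 0) (nat_lit 2) (nat_lit 0x14004) (nat_lit 0x100010000000000000000000000010000))) (.non (nat_lit 1) (nat_lit 2) (nat_lit 0x14001) (nat_lit 0x100010000000000000000000000000001)))) (.sup (nat_lit 0x30007000b0010000d00000000) (nat_lit 0x30000000000000000000000010003))) (.non (nat_lit 0) (nat_lit 2) (nat_lit 0x9504) (nat_lit 0x10001000200010000000000020000))))) (.non (nat_lit 0) (nat_lit 2) (nat_lit 0x5404) (nat_lit 0x10001000100000000000000010000))) (.non (nat_lit 0) (nat_lit 2) (nat_lit 0x4404) (nat_lit 0x10000000100000000000000010000))) (.non (nat_lit 0) (nat_lit 2) (nat_lit 0x4504) (nat_lit 0x10000000100010000000000010000))) (.star (nat_lit 7) (nat_lit 1) (nat_lit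 3)))

noncomputable def t29_4 : Tr := (.ex (nat_lit 8) (.leaf (.cons (nat_lit 0x554) (nat_lit 0x200030004000300010000) .nil) (.cons (nat_lit 0x111111010) (nat_lit 0x101) (nat_lit 0xd) (nat_lit 0x654023010) (.cons (nat_lit 0x111110010) (nat_lit 0x1001) (nat_lit 9) (nat_lit 0x543020010) .nil))) (.split (nat_lit 9) (nat_lit 1) (.split (nat_lit 9) (nat_lit 2) (.split (nat_lit 9) (nat_lit 3) (.split (nat_lit 9) (nat_lit 4) (.split (nat_lit 9) (nat_lit 5) (.split (nat_lit 9) (nat_lit 6) (.split (nat_lit 9) (nat_lit 7) (.split (nat_lit 9) (nat_lit 0) (.st (nat_lit 8) (nat_lit 0) (nat_lit 2) (nat_lit 0x55504) (nat_lit 0x1000200020002000200010000000000010000) (nat_lit 1) (nat_lit 1) (.st (nat_lit 9) (nat_lit 0) (nat_lit 2) (nat_lit 0x55544) (nat_lit 0x2000300040005000600040002000000030000) (nat_lit 1) (nat_lit 1) (.split (nat_lit 9) (nat_lit 8) (.leaf (.cons (nat_lit 0x554) (nat_lit 0x200030004000300010000) .nil) (.cons (nat_lit 0x1111111010) (nat_lit 0x101) (nat_lit 0xe) (nat_lit 0x7654023010) (.cons (nat_lit 0x1111100010)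 (nat_lit 0x10001) (nat_lit 4) (nat_lit 0x5432100000) .nil))) (.non (nat_lit 0) (nat_lit 2) (nat_lit 0x95504) (nat_lit 0x1000200020002000200010000000000010000))))) (.st (nat_lit 8) (nat_lit 0) (nat_lit 2) (nat_lit 0x55504) (nat_lit 0x1000200020002000200010000000000010000) (nat_lit 1) (nat_lit 1) (.st (nat_lit 9) (nat_lit 0) (nat_lit 2) (nat_lit 0x55544) (nat_lit 0x2000300040005000600040002000000030000) (nat_lit 1) (nat_lit 1) (.split (nat_lit 9) (nat_lit 8) (.leaf (.cons (nat_lit 0x554) (nat_lit 0x200030004000300010000) .nil) (.cons (nat_lit 0x1111111010) (nat_lit 0x101) (nat_lit 0xe) (nat_lit 0x7654023010) (.cons (nat_lit 0x1111100010) (nat_lit 0x10001) (nat_lit 4) (nat_lit 0x5432100000) .nil))) (.non (nat_lit 0) (nat_lit 2) (nat_lit 0x95504) (nat_lit 0x1000200020002000200010000000000010000)))))) (.non (nat_lit 0) (nat_lit 2) (nat_lit 0x54000) (nat_lit 0x1000100010000000000000000000000000000))) (.non (nat_lit 0) (nat_lit 2) (nat_lit 0x55000) (nat_lit 0x1000100010001000000000000000000000000))) (.non (nat_lit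 0) (nat_lit 2) (nat_lit 0x55400) (nat_lit 0x1000100010001000100000000000000000000))) (.non (nat_lit 0) (nat_lit 2) (nat_lit 0x55500) (nat_lit 0x1000100010001000100010000000000000000))) (.non (nat_lit 0) (nat_lit 2) (nat_lit 0x55540) (nat_lit 0x1000100010001000100010001000000000000))) (.non (nat_lit 0) (nat_lit 4) (nat_lit 0x54050) (nat_lit 0x3000200010000000000000003000400000000))) (.non (nat_lit 0) (nat_lit 2) (nat_lit 0x55404) (nat_lit 0x1000100010001000100000000000000010000))))

noncomputable def t29_5 : Tr := (.split (nat_lit 8) (nat_lit 0) (.ex (nat_lit 8) (.leaf (.cons (nat_lit 0x554) (nat_lit 0x200030004000300010000) .nil) (.cons (nat_lit 0x111111010) (nat_lit 0x101) (nat_lit 0xd) (nat_lit 0x654023010) (.cons (nat_lit 0x111110010) (nat_lit 0x1001) (nat_lit 9) (nat_lit 0x543020010) .nil))) (.split (nat_lit 9) (nat_lit 0) (.split (nat_lit 9) (nat_lit 1) (.split (nat_lit 9) (nat_lit 2) (.split (nat_lit 9) (nat_lit 3) (.split (nat_lit 9) (nat_lit 4) (.split (nat_lit 9) (nat_lit 5) (.split (nat_lit 9) (nat_lit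 6) (.split (nat_lit 9) (nat_lit 7) (.st (nat_lit 0) (nat_lit 1) (nat_lit 2) (nat_lit 0x55541) (nat_lit 0x3000600050004000300020001000000000004) (nat_lit 1) (nat_lit 2) (.st (nat_lit 8) (nat_lit 0) (nat_lit 2) (nat_lit 0x55504) (nat_lit 0x1000200020002000200010000000000010000) (nat_lit 1) (nat_lit 1) (.st (nat_lit 9) (nat_lit 0) (nat_lit 2) (nat_lit 0x55544) (nat_lit 0x2000300040005000600040002000000030000) (nat_lit 1) (nat_lit 1) (.split (nat_lit 9) (nat_lit 8) (.leaf (.cons (nat_lit 0x554) (nat_lit 0x200030004000300010000) .nil) (.cons (nat_lit 0x1111111010) (nat_lit 0x101) (nat_lit 0xe) (nat_lit 0x7654023010) (.cons (nat_lit 0x1111100010) (nat_lit 0x10001) (nat_lit 4) (nat_lit 0x5432100000) .nil))) (.non (nat_lit 0) (nat_lit 2) (nat_lit 0x95504) (nat_lit 0x1000200020002000200010000000000010000)))))) (.non (nat_lit 0) (nat_lit 2) (nat_lit 0x54000) (nat_lit 0x1000100010000000000000000000000000000))) (.non (nat_lit 0) (nat_lit 2) (nat_lit 0x55000) (nat_lit 0x1000100010001000000000000000000000000))) (.non (nat_lit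 0) (nat_lit 2) (nat_lit 0x55400) (nat_lit 0x1000100010001000100000000000000000000))) (.non (nat_lit 0) (nat_lit 2) (nat_lit 0x55500) (nat_lit 0x1000100010001000100010000000000000000))) (.non (nat_lit 0) (nat_lit 2) (nat_lit 0x55540) (nat_lit 0x1000100010001000100010001000000000000))) (.non (nat_lit 0) (nat_lit 4) (nat_lit 0x54050) (nat_lit 0x3000200010000000000000003000400000000))) (.non (nat_lit 0) (nat_lit 2) (nat_lit 0x55404) (nat_lit 0x1000100010001000100000000000000010000))) (.non (nat_lit 1) (nat_lit 2) (nat_lit 0x50001) (nat_lit 0x1000100000000000000000000000000000001)))) (.st (nat_lit 0) (nat_lit 1) (nat_lit 2) (nat_lit 0x2a001) (nat_lit 0x300020001000000000000000000000004) (nat_lit 1) (nat_lit 2) (.st (nat_lit 8) (nat_lit 1) (nat_lit 2) (nat_lit 0x28001) (nat_lit 0x200010000000000000000000000000002) (nat_lit 2) (nat_lit 1) (.leaf (.cons (nat_lit 0x554) (nat_lit 0x200030004000300010000) .nil) (.cons (nat_lit 0x111111010) (nat_lit 0x101) (nat_lit 0xd) (nat_lit 0x654023010) (.cons (nat_lit 0x111110010)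 (nat_lit 0x1001) (nat_lit 9) (nat_lit 0x543020010) .nil))))))

noncomputable def t29_6 : Tr := (.split (nat_lit 8) (nat_lit 5) (.split (nat_lit 8) (nat_lit 6) (.st (nat_lit 7) (nat_lit 0) (nat_lit 2) (nat_lit 0x15504) (nat_lit 0x100020002000200010000000000010000) (nat_lit 1) (nat_lit 1) (.split (nat_lit 8) (nat_lit 7) (.ex (nat_lit 8) (.leaf (.cons (nat_lit 0x554) (nat_lit 0x200030004000300010000) .nil) (.cons (nat_lit 0x111111010) (nat_lit 0x101) (nat_lit 0xd) (nat_lit 0x654023010) (.cons (nat_lit 0x111110010) (nat_lit 0x1001) (nat_lit 9) (nat_lit 0x543020010) .nil))) (.split (nat_lit 9) (nat_lit 0) (.split (nat_lit 9) (nat_lit 1) (.split (nat_lit 9) (nat_lit 2) (.split (nat_lit 9) (nat_lit 3) (.split (nat_lit 9) (nat_lit 4) (.split (nat_lit 9) (nat_lit 5) (.split (nat_lit 9) (nat_lit 6) (.split (nat_lit 9) (nat_lit 7) (.st (nat_lit 0) (nat_lit 1) (nat_lit 2) (nat_lit 0x55401) (nat_lit 0x1000200030002000100000000000000000002) (nat_lit 1) (nat_lit 1) (.st (nat_lit 8) (nat_lit 0) (nat_lit 2) (nat_lit 0x55504)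 (nat_lit 0x1000200020002000200010000000000010000) (nat_lit 1) (nat_lit 1) (.st (nat_lit 9) (nat_lit 0) (nat_lit 2) (nat_lit 0x55544) (nat_lit 0x2000300040005000600040002000000030000) (nat_lit 1) (nat_lit 1) (.split (nat_lit 9) (nat_lit 8) (.leaf (.cons (nat_lit 0x554) (nat_lit 0x200030004000300010000) .nil) (.cons (nat_lit 0x1111111010) (nat_lit 0x101) (nat_lit 0xe) (nat_lit 0x7654023010) (.cons (nat_lit 0x1111100010) (nat_lit 0x10001) (nat_lit 4) (nat_lit 0x5432100000) .nil))) (.non (nat_lit 0) (nat_lit 2) (nat_lit 0x95504) (nat_lit 0x1000200020002000200010000000000010000)))))) (.non (nat_lit 0) (nat_lit 2) (nat_lit 0x54000) (nat_lit 0x1000100010000000000000000000000000000))) (.non (nat_lit 0) (nat_lit 2) (nat_lit 0x55000) (nat_lit 0x1000100010001000000000000000000000000))) (.non (nat_lit 0) (nat_lit 2) (nat_lit 0x55400) (nat_lit 0x1000100010001000100000000000000000000))) (.non (nat_lit 0) (nat_lit 2) (nat_lit 0x55500) (nat_lit 0x1000100010001000100010000000000000000))) (.non (nat_lit 0) (nat_lit 2) (nat_lit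 0x55540) (nat_lit 0x1000100010001000100010001000000000000))) (.non (nat_lit 1) (nat_lit 3) (nat_lit 0x55511) (nat_lit 0x2000300040003000200010000000100000002))) (.non (nat_lit 0) (nat_lit 2) (nat_lit 0x55404) (nat_lit 0x1000100010001000100000000000000010000))) (.non (nat_lit 1) (nat_lit 2) (nat_lit 0x54001) (nat_lit 0x1000100010000000000000000000000000001)))) (.non (nat_lit 0) (nat_lit 2) (nat_lit 0x25504) (nat_lit 0x100020002000200010000000000010000)))) (.non (nat_lit 0) (nat_lit 2) (nat_lit 0x15000) (nat_lit 0x100010001000000000000000000000000))) (.non (nat_lit 0) (nat_lit 2) (nat_lit 0x15400) (nat_lit 0x100010001000100000000000000000000)))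

noncomputable def t29_7 : Tr := (.split (nat_lit 7) (nat_lit 0) (.st (nat_lit 1) (nat_lit 0) (nat_lit 2) (nat_lit 0x5544) (nat_lit 0x10002000300020001000000020000) (nat_lit 1) (nat_lit 1) (.st (nat_lit 6) (nat_lit 0) (nat_lit 2) (nat_lit 0x5504) (nat_lit 0x10002000200010000000000010000) (nat_lit 1) (nat_lit 1) (.split (nat_lit 7) (nat_lit 6) (.ex (nat_lit 7) (.leaf (.cons (nat_lit 0x554) (nat_lit 0x200030004000300010000) .nil) (.cons (nat_lit 0x11111010) (nat_lit 0x101) (nat_lit 0xc) (nat_lit 0x54023010) .nil)) (.split (nat_lit 8) (nat_lit 1) (.split (nat_lit 8) (nat_lit 2) (.split (nat_lit 8) (nat_lit 3) (.split (nat_lit 8) (nat_lit 4) (.split (nat_lit 8) (nat_lit 5) (.split (nat_lit 8) (nat_lit 6) (.split (nat_lit 8) (nat_lit 0) (.st (nat_lit 7) (nat_lit 0) (nat_lit 2) (nat_lit 0x15504) (nat_lit 0x100020002000200010000000000010000) (nat_lit 1) (nat_lit 1) (.split (nat_lit 8) (nat_lit 7) t29_4 (.non (nat_lit 0) (nat_lit 2) (nat_lit 0x25504) (nat_lit 0x100020002000200010000000000010000)))) (.st (nat_lit 7)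 (nat_lit 0) (nat_lit 2) (nat_lit 0x15504) (nat_lit 0x100020002000200010000000000010000) (nat_lit 1) (nat_lit 1) (.split (nat_lit 8) (nat_lit 7) t29_5 (.non (nat_lit 0) (nat_lit 2) (nat_lit 0x25504) (nat_lit 0x100020002000200010000000000010000))))) (.non (nat_lit 0) (nat_lit 2) (nat_lit 0x15000) (nat_lit 0x100010001000000000000000000000000))) (.non (nat_lit 0) (nat_lit 2) (nat_lit 0x15400) (nat_lit 0x100010001000100000000000000000000))) (.non (nat_lit 0) (nat_lit 2) (nat_lit 0x15500) (nat_lit 0x100010001000100010000000000000000))) (.non (nat_lit 0) (nat_lit 2) (nat_lit 0x15540) (nat_lit 0x100010001000100010001000000000000))) (.non (nat_lit 0) (nat_lit 4) (nat_lit 0x15050) (nat_lit 0x300020001000000000003000400000000))) (.non (nat_lit 0) (nat_lit 2) (nat_lit 0x15404) (nat_lit 0x100010001000100000000000000010000)))) (.non (nat_lit 0) (nat_lit 2) (nat_lit 0x9504) (nat_lit 0x10002000200010000000000010000))))) (.st (nat_lit 1) (nat_lit 0) (nat_lit 2) (nat_lit 0x5544) (nat_lit 0x10002000300020001000000020000) (nat_lit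 1) (nat_lit 1) (.st (nat_lit 6) (nat_lit 0) (nat_lit 2) (nat_lit 0x5504) (nat_lit 0x10002000200010000000000010000) (nat_lit 1) (nat_lit 1) (.split (nat_lit 7) (nat_lit 6) (.split (nat_lit 7) (nat_lit 0) (.ex (nat_lit 7) (.leaf (.cons (nat_lit 0x554) (nat_lit 0x200030004000300010000) .nil) (.cons (nat_lit 0x11111010) (nat_lit 0x101) (nat_lit 0xc) (nat_lit 0x54023010) .nil)) (.split (nat_lit 8) (nat_lit 0) (.split (nat_lit 8) (nat_lit 1) (.split (nat_lit 8) (nat_lit 2) (.split (nat_lit 8) (nat_lit 3) (.split (nat_lit 8) (nat_lit 4) t29_6 (.non (nat_lit 0) (nat_lit 2) (nat_lit 0x15500) (nat_lit 0x100010001000100010000000000000000))) (.non (nat_lit 0) (nat_lit 2) (nat_lit 0x15540) (nat_lit 0x100010001000100010001000000000000))) (.non (nat_lit 0) (nat_lit 4) (nat_lit 0x15050) (nat_lit 0x300020001000000000003000400000000))) (.non (nat_lit 0) (nat_lit 2) (nat_lit 0x15404) (nat_lit 0x100010001000100000000000000010000))) (.non (nat_lit 1) (nat_lit 2) (nat_lit 0x14001) (nat_lit 0x100010000000000000000000000000001))))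 (.st (nat_lit 0) (nat_lit 1) (nat_lit 2) (nat_lit 0xa801) (nat_lit 0x30002000100000000000000000004) (nat_lit 1) (nat_lit 2) (.st (nat_lit 7) (nat_lit 1) (nat_lit 2) (nat_lit 0xa001) (nat_lit 0x20001000000000000000000000002) (nat_lit 2) (nat_lit 1) (.leaf (.cons (nat_lit 0x554) (nat_lit 0x200030004000300010000) .nil) (.cons (nat_lit 0x11111010) (nat_lit 0x101) (nat_lit 0xc) (nat_lit 0x54023010) .nil))))) (.non (nat_lit 0) (nat_lit 2) (nat_lit 0x9504) (nat_lit 0x10002000200010000000000010000))))))

noncomputable def t29_8 : Tr := (.ex (nat_lit 3) (.split (nat_lit 5) (nat_lit 1) (.split (nat_lit 6) (nat_lit 5) (.pd (.cons (nat_lit 0) (nat_lit 4) (nat_lit 0) (nat_lit 0x5102210) (nat_lit 0xf423fb71ae00000f423f54591a2c2800000) (.cons (nat_lit 0) (nat_lit 5) (nat_lit 0) (nat_lit 0x6032210) (nat_lit 0xf423f00000f423fb71ae1f156f423f00000) (.cons (nat_lit 1) (nat_lit 4) (nat_lit 0) (nat_lit 0x5502200) (nat_lit 0xf423fb71ae00000f423f5459100000f423f) (.cons (nat_lit 1) (nat_lit 5) (nat_lit 0) (nat_lit 0x6032200) (nat_lit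 0xf423f00000f423fb71ae1f15600000f423f) (.cons (nat_lit 1) (nat_lit 6) (nat_lit 0) (nat_lit 0x432200) (nat_lit 0xf423fb71aea2c280473700000f423f) .nil))))) (.ex (nat_lit 6) (.ex (nat_lit 1) (.leaf (.cons (nat_lit 0x554) (nat_lit 0x200030004000300010000) .nil) (.cons (nat_lit 0x1111010) (nat_lit 0x101) (nat_lit 8) (nat_lit 0x2034010) (.cons (nat_lit 0x1110010) (nat_lit 0x1001) (nat_lit 7) (nat_lit 0x3020010) .nil))) (.split (nat_lit 7) (nat_lit 2) t29_3 (.star (nat_lit 7) (nat_lit 1) (nat_lit 2)))) (.split (nat_lit 7) (nat_lit 1) (.split (nat_lit 7) (nat_lit 2) (.split (nat_lit 7) (nat_lit 3) (.split (nat_lit 7) (nat_lit 4) (.split (nat_lit 7) (nat_lit 5) t29_7 (.non (nat_lit 0) (nat_lit 2) (nat_lit 0x5400) (nat_lit 0x10001000100000000000000000000))) (.non (nat_lit 0) (nat_lit 2) (nat_lit 0x5500) (nat_lit 0x10001000100010000000000000000))) (.non (nat_lit 0) (nat_lit 2) (nat_lit 0x5540) (nat_lit 0x10001000100010001000000000000))) (.non (nat_lit 0) (nat_lit 4) (nat_lit 0x5450) (nat_lit 0x30002000100000003000400000000)))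 (.non (nat_lit 0) (nat_lit 2) (nat_lit 0x5404) (nat_lit 0x10001000100000000000000010000))))) (.non (nat_lit 0) (nat_lit 2) (nat_lit 0x2504) (nat_lit 0x1000200010000000000010000))) (.non (nat_lit 0) (nat_lit 2) (nat_lit 0x2a04) (nat_lit 0x1000200010000000000020000))) (.split (nat_lit 7) (nat_lit 0) (.split (nat_lit 7) (nat_lit 1) (.split (nat_lit 7) (nat_lit 4) (.split (nat_lit 7) (nat_lit 5) (.split (nat_lit 7) (nat_lit 6) (.split (nat_lit 7) (nat_lit 2) (.unj (nat_lit 5) (nat_lit 0x10001) (nat_lit 0x4150) (nat_lit 0x10000000000010002000200000000)) (.unj (nat_lit 5) (nat_lit 0x10001) (nat_lit 0x4050) (nat_lit 0x10000000000000001000100000000))) (.non (nat_lit 0) (nat_lit 2) (nat_lit 0x5540) (nat_lit 0x10001000100010001000000000000))) (.non (nat_lit 0) (nat_lit 2) (nat_lit 0x4540) (nat_lit 0x10000000100010001000000000000))) (.non (nat_lit 0) (nat_lit 2) (nat_lit 0x4140) (nat_lit 0x10000000000010001000000000000))) (.star (nat_lit 7) (nat_lit 1) (nat_lit 3))) (.star (nat_lit 7) (nat_lit 0) (nat_lit 3))))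

noncomputable def t29_9 : Tr := (.ex (nat_lit 8) (.leaf (.cons (nat_lit 0x551) (nat_lit 0x200030004000300000001) .nil) (.cons (nat_lit 0x111100001) (nat_lit 0x10010) (nat_lit 3) (nat_lit 0x430100002) .nil)) (.split (nat_lit 9) (nat_lit 0) (.split (nat_lit 9) (nat_lit 2) (.split (nat_lit 9) (nat_lit 3) (.split (nat_lit 9) (nat_lit 4) (.split (nat_lit 9) (nat_lit 5) (.split (nat_lit 9) (nat_lit 6) (.split (nat_lit 9) (nat_lit 7) (.split (nat_lit 9) (nat_lit 1) (.st (nat_lit 8) (nat_lit 1) (nat_lit 2) (nat_lit 0x55501) (nat_lit 0x1000200020001000200010000000000000002) (nat_lit 1) (nat_lit 1) (.st (nat_lit 9) (nat_lit 1) (nat_lit 2) (nat_lit 0x55541) (nat_lit 0x2000300040003000600040002000000000005) (nat_lit 1) (nat_lit 1) (.split (nat_lit 9) (nat_lit 8) (.leaf (.cons (nat_lit 0x551) (nat_lit 0x200030004000300000001) .nil) (.cons (nat_lit 0x1111111001) (nat_lit 0x110) (nat_lit 0xe) (nat_lit 0x7651023004) (.cons (nat_lit 0x1111110001) (nat_lit 0x1010) (nat_lit 0xa) (nat_lit 0x6542010003) .nil))) (.non (nat_lit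 1) (nat_lit 2) (nat_lit 0x95501) (nat_lit 0x1000200020001000200010000000000000002))))) (.st (nat_lit 8) (nat_lit 1) (nat_lit 2) (nat_lit 0x55501) (nat_lit 0x1000200020001000200010000000000000002) (nat_lit 1) (nat_lit 1) (.st (nat_lit 9) (nat_lit 1) (nat_lit 2) (nat_lit 0x55541) (nat_lit 0x2000300040003000600040002000000000005) (nat_lit 1) (nat_lit 1) (.split (nat_lit 9) (nat_lit 1) (.split (nat_lit 9) (nat_lit 8) (.leaf (.cons (nat_lit 0x551) (nat_lit 0x200030004000300000001) .nil) (.cons (nat_lit 0x1111111001) (nat_lit 0x110) (nat_lit 0xe) (nat_lit 0x7651023004) (.cons (nat_lit 0x1111110001) (nat_lit 0x1010) (nat_lit 0xa) (nat_lit 0x6542010003) .nil))) (.non (nat_lit 1) (nat_lit 2) (nat_lit 0x95501) (nat_lit 0x1000200020001000200010000000000000002))) (.sup (nat_lit 0x30007000b0010000d00000000) (nat_lit 0x4000300020000000000000000000000030001)))))) (.non (nat_lit 0) (nat_lit 2) (nat_lit 0x54000) (nat_lit 0x1000100010000000000000000000000000000))) (.non (nat_lit 1) (nat_lit 2) (nat_lit 0x55401) (nat_lit 0x1000100010001000100000000000000000001)))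 (.non (nat_lit 1) (nat_lit 2) (nat_lit 0x54401) (nat_lit 0x1000100010000000100000000000000000001))) (.non (nat_lit 1) (nat_lit 2) (nat_lit 0x54501) (nat_lit 0x1000100010000000100010000000000000001))) (.non (nat_lit 1) (nat_lit 2) (nat_lit 0x54541) (nat_lit 0x1000100010000000100010001000000000001))) (.non (nat_lit 0) (nat_lit 4) (nat_lit 0x54050) (nat_lit 0x3000200010000000000000003000400000000))) (.non (nat_lit 1) (nat_lit 2) (nat_lit 0x54001) (nat_lit 0x1000100010000000000000000000000000001))))

noncomputable def t29_10 : Tr := (.split (nat_lit 8) (nat_lit 3) (.split (nat_lit 8) (nat_lit 4) (.split (nat_lit 8) (nat_lit 5) (.split (nat_lit 8) (nat_lit 6) (.split (nat_lit 8) (nat_lit 1) (.st (nat_lit 7) (nat_lit 1) (nat_lit 2) (nat_lit 0x15501) (nat_lit 0x100020001000200010000000000000002) (nat_lit 1) (nat_lit 1) (.split (nat_lit 8) (nat_lit 7) t29_9 (.non (nat_lit 1) (nat_lit 2) (nat_lit 0x25501) (nat_lit 0x100020001000200010000000000000002)))) (.st (nat_lit 7) (nat_lit 1) (nat_lit 2) (nat_lit 0x15501) (nat_lit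 0x100020001000200010000000000000002) (nat_lit 1) (nat_lit 1) (.split (nat_lit 8) (nat_lit 1) (.split (nat_lit 8) (nat_lit 7) (.ex (nat_lit 8) (.leaf (.cons (nat_lit 0x551) (nat_lit 0x200030004000300000001) .nil) (.cons (nat_lit 0x111100001) (nat_lit 0x10010) (nat_lit 3) (nat_lit 0x430100002) .nil)) (.split (nat_lit 9) (nat_lit 0) (.split (nat_lit 9) (nat_lit 1) (.split (nat_lit 9) (nat_lit 2) (.split (nat_lit 9) (nat_lit 3) (.split (nat_lit 9) (nat_lit 4) (.split (nat_lit 9) (nat_lit 5) (.split (nat_lit 9) (nat_lit 6) (.split (nat_lit 9) (nat_lit 7) (.sup (nat_lit 0x30007000b0010000d00000000) (nat_lit 0x2000400030000000000000000000000030001)) (.non (nat_lit 0) (nat_lit 2) (nat_lit 0x54000) (nat_lit 0x1000100010000000000000000000000000000))) (.non (nat_lit 1) (nat_lit 2) (nat_lit 0x55401) (nat_lit 0x1000100010001000100000000000000000001))) (.non (nat_lit 0) (nat_lit 2) (nat_lit 0x55504) (nat_lit 0x2000200010001000200010000000000010000))) (.non (nat_lit 0) (nat_lit 2) (nat_lit 0x54544) (nat_lit 0x2000200010000000100020001000000010000)))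 (.non (nat_lit 1) (nat_lit 2) (nat_lit 0x54541) (nat_lit 0x1000100010000000100010001000000000001))) (.non (nat_lit 0) (nat_lit 4) (nat_lit 0x54050) (nat_lit 0x3000200010000000000000003000400000000))) (.non (nat_lit 0) (nat_lit 2) (nat_lit 0x50004) (nat_lit 0x1000100000000000000000000000000010000))) (.non (nat_lit 1) (nat_lit 2) (nat_lit 0x54001) (nat_lit 0x1000100010000000000000000000000000001)))) (.non (nat_lit 1) (nat_lit 2) (nat_lit 0x25501) (nat_lit 0x100020001000200010000000000000002))) (.sup (nat_lit 0x30007000b0010000d00000000) (nat_lit 0x300020000000000000000000000030001))))) (.non (nat_lit 1) (nat_lit 2) (nat_lit 0x15401) (nat_lit 0x100010001000100000000000000000001))) (.non (nat_lit 1) (nat_lit 2) (nat_lit 0x14401) (nat_lit 0x100010000000100000000000000000001))) (.non (nat_lit 1) (nat_lit 2) (nat_lit 0x14501) (nat_lit 0x100010000000100010000000000000001))) (.non (nat_lit 1) (nat_lit 2) (nat_lit 0x14541) (nat_lit 0x100010000000100010001000000000001)))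

noncomputable def t29_11 : Tr := (.split (nat_lit 7) (nat_lit 4) (.split (nat_lit 7) (nat_lit 5) (.split (nat_lit 7) (nat_lit 6) (.split (nat_lit 7) (nat_lit 1) (.st (nat_lit 0) (nat_lit 1) (nat_lit 2) (nat_lit 0x5501) (nat_lit 0x10001000200010000000000000002) (nat_lit 1) (nat_lit 1) (.split (nat_lit 7) (nat_lit 0) (.ex (nat_lit 7) (.leaf (.cons (nat_lit 0x551) (nat_lit 0x200030004000300000001) .nil) (.cons (nat_lit 0x11100001) (nat_lit 0x10010) (nat_lit 2) (nat_lit 0x30100002) .nil)) (.split (nat_lit 8) (nat_lit 0) (.split (nat_lit 8) (nat_lit 2) t29_10 (.non (nat_lit 0) (nat_lit 5) (nat_lit 0x10150) (nat_lit 0x100000000000000010002000200000000))) (.non (nat_lit 1) (nat_lit 2) (nat_lit 0x14001) (nat_lit 0x100010000000000000000000000000001)))) (.non (nat_lit 1) (nat_lit 2) (nat_lit 0x9501) (nat_lit 0x10001000200010000000000000002)))) (.st (nat_lit 0) (nat_lit 1) (nat_lit 2) (nat_lit 0x5501) (nat_lit 0x10001000200010000000000000002) (nat_lit 1) (nat_lit 1) (.split (nat_lit 7) (nat_lit 1) (.split (nat_lit 7)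 (nat_lit 0) (.ex (nat_lit 7) (.leaf (.cons (nat_lit 0x551) (nat_lit 0x200030004000300000001) .nil) (.cons (nat_lit 0x11100001) (nat_lit 0x10010) (nat_lit 2) (nat_lit 0x30100002) .nil)) (.split (nat_lit 8) (nat_lit 0) (.split (nat_lit 8) (nat_lit 1) (.split (nat_lit 8) (nat_lit 2) (.split (nat_lit 8) (nat_lit 3) (.split (nat_lit 8) (nat_lit 4) (.split (nat_lit 8) (nat_lit 5) (.split (nat_lit 8) (nat_lit 6) (.sup (nat_lit 0x30006000b0010000d00000000) (nat_lit 0x200030000000000000000000000030002)) (.non (nat_lit 1) (nat_lit 2) (nat_lit 0x15401) (nat_lit 0x100010001000100000000000000000001))) (.non (nat_lit 1) (nat_lit 2) (nat_lit 0x14401) (nat_lit 0x100010000000100000000000000000001))) (.non (nat_lit 1) (nat_lit 2) (nat_lit 0x14501) (nat_lit 0x100010000000100010000000000000001))) (.non (nat_lit 1) (nat_lit 2) (nat_lit 0x14541) (nat_lit 0x100010000000100010001000000000001))) (.non (nat_lit 0) (nat_lit 4) (nat_lit 0x14054) (nat_lit 0x300020000000000000003000400010000))) (.non (nat_lit 0) (nat_lit 2) (nat_lit 0x14004)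 (nat_lit 0x100010000000000000000000000010000))) (.non (nat_lit 1) (nat_lit 2) (nat_lit 0x14001) (nat_lit 0x100010000000000000000000000000001)))) (.non (nat_lit 1) (nat_lit 2) (nat_lit 0x9501) (nat_lit 0x10001000200010000000000000002))) (.sup (nat_lit 0x30007000b0010000d00000000) (nat_lit 0x30000000000000000000000030001))))) (.non (nat_lit 1) (nat_lit 2) (nat_lit 0x5401) (nat_lit 0x10001000100000000000000000001))) (.non (nat_lit 1) (nat_lit 2) (nat_lit 0x4401) (nat_lit 0x10000000100000000000000000001))) (.non (nat_lit 1) (nat_lit 2) (nat_lit 0x4501) (nat_lit 0x10000000100010000000000000001)))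

noncomputable def t29_12 : Tr := (.ex (nat_lit 8) (.leaf (.cons (nat_lit 0x551) (nat_lit 0x200030004000300000001) .nil) (.cons (nat_lit 0x111111001) (nat_lit 0x110) (nat_lit 0xd) (nat_lit 0x654023001) (.cons (nat_lit 0x111110001) (nat_lit 0x1010) (nat_lit 9) (nat_lit 0x543020001) .nil))) (.split (nat_lit 9) (nat_lit 0) (.split (nat_lit 9) (nat_lit 2) (.split (nat_lit 9) (nat_lit 3) (.split (nat_lit 9) (nat_lit 4) (.split (nat_lit 9) (nat_lit 5) (.split (nat_lit 9) (nat_lit 6) (.split (nat_lit 9) (nat_lit 7) (.split (nat_lit 9) (nat_lit 1) (.st (nat_lit 8) (nat_lit 1) (nat_lit 2) (nat_lit 0x55501) (nat_lit 0x1000200020002000200010000000000000001) (nat_lit 1) (nat_lit 1) (.st (nat_lit 9) (nat_lit 1) (nat_lit 2) (nat_lit 0x55541) (nat_lit 0x2000300040005000600040002000000000003) (nat_lit 1) (nat_lit 1) (.split (nat_lit 9) (nat_lit 8) (.leaf (.cons (nat_lit 0x551) (nat_lit 0x200030004000300000001) .nil) (.cons (nat_lit 0x1111111001) (nat_lit 0x110) (nat_lit 0xe) (nat_lit 0x7654023001) (.cons (nat_lit 0x1111100001)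 (nat_lit 0x10010) (nat_lit 4) (nat_lit 0x5432100000) .nil))) (.non (nat_lit 1) (nat_lit 2) (nat_lit 0x95501) (nat_lit 0x1000200020002000200010000000000000001))))) (.st (nat_lit 8) (nat_lit 0) (nat_lit 2) (nat_lit 0x55544) (nat_lit 0x4000600050004000300020001000000020000) (nat_lit 1) (nat_lit 3) (.st (nat_lit 9) (nat_lit 1) (nat_lit 2) (nat_lit 0x55541) (nat_lit 0x2000300040005000600040002000000000003) (nat_lit 1) (nat_lit 1) (.split (nat_lit 9) (nat_lit 1) (.split (nat_lit 9) (nat_lit 8) (.leaf (.cons (nat_lit 0x551) (nat_lit 0x200030004000300000001) .nil) (.cons (nat_lit 0x1111111001) (nat_lit 0x110) (nat_lit 0xe) (nat_lit 0x7654023001) (.cons (nat_lit 0x1111100001) (nat_lit 0x10010) (nat_lit 4) (nat_lit 0x5432100000) .nil))) (.non (nat_lit 0) (nat_lit 2) (nat_lit 0x6a004) (nat_lit 0x4000300020001000000000000000000020000))) (.sup (nat_lit 0x100040006000b0010000d00000000) (nat_lit 0x5000200000000000000000000000000050002)))))) (.non (nat_lit 0) (nat_lit 2) (nat_lit 0x54000) (nat_lit 0x1000100010000000000000000000000000000)))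 (.non (nat_lit 0) (nat_lit 2) (nat_lit 0x55000) (nat_lit 0x1000100010001000000000000000000000000))) (.non (nat_lit 0) (nat_lit 2) (nat_lit 0x55400) (nat_lit 0x1000100010001000100000000000000000000))) (.non (nat_lit 0) (nat_lit 2) (nat_lit 0x55500) (nat_lit 0x1000100010001000100010000000000000000))) (.non (nat_lit 0) (nat_lit 2) (nat_lit 0x55540) (nat_lit 0x1000100010001000100010001000000000000))) (.non (nat_lit 0) (nat_lit 4) (nat_lit 0x54050) (nat_lit 0x3000200010000000000000003000400000000))) (.non (nat_lit 1) (nat_lit 2) (nat_lit 0x55401) (nat_lit 0x1000100010001000100000000000000000001))))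

noncomputable def t29_13 : Tr := (.split (nat_lit 8) (nat_lit 1) (.split (nat_lit 8) (nat_lit 7) (.ex (nat_lit 8) (.leaf (.cons (nat_lit 0x551) (nat_lit 0x200030004000300000001) .nil) (.cons (nat_lit 0x111111001) (nat_lit 0x110) (nat_lit 0xd) (nat_lit 0x654023001) (.cons (nat_lit 0x111110001) (nat_lit 0x1010) (nat_lit 9) (nat_lit 0x543020001) .nil))) (.split (nat_lit 9) (nat_lit 0) (.split (nat_lit 9) (nat_lit 1) (.split (nat_lit 9) (nat_lit 2) (.split (nat_lit 9) (nat_lit 3) (.split (nat_lit 9) (nat_lit 4) (.split (nat_lit 9) (nat_lit 5) (.split (nat_lit 9) (nat_lit 6) (.split (nat_lit 9) (nat_lit 7) (.st (nat_lit 1) (nat_lit 0) (nat_lit 2) (nat_lit 0x55544) (nat_lit 0x3000600050004000300020001000000040000) (nat_lit 1) (nat_lit 2) (.st (nat_lit 8) (nat_lit 0) (nat_lit 2) (nat_lit 0x54004) (nat_lit 0x1000200010000000000000000000000010000) (nat_lit 1) (nat_lit 1) (.st (nat_lit 9) (nat_lit 0) (nat_lit 2) (nat_lit 0x55544) (nat_lit 0x4000600050004000300020001000000030000) (nat_lit 1) (nat_lit 2) (.split (nat_lit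 9) (nat_lit 8) (.leaf (.cons (nat_lit 0x551) (nat_lit 0x200030004000300000001) .nil) (.cons (nat_lit 0x1111111001) (nat_lit 0x110) (nat_lit 0xe) (nat_lit 0x7654023001) (.cons (nat_lit 0x1111100001) (nat_lit 0x10010) (nat_lit 4) (nat_lit 0x5432100000) .nil))) (.non (nat_lit 0) (nat_lit 2) (nat_lit 0x94004) (nat_lit 0x1000200010000000000000000000000010000)))))) (.non (nat_lit 0) (nat_lit 2) (nat_lit 0x54000) (nat_lit 0x1000100010000000000000000000000000000))) (.non (nat_lit 0) (nat_lit 2) (nat_lit 0x55000) (nat_lit 0x1000100010001000000000000000000000000))) (.non (nat_lit 0) (nat_lit 2) (nat_lit 0x55400) (nat_lit 0x1000100010001000100000000000000000000))) (.non (nat_lit 0) (nat_lit 2) (nat_lit 0x55500) (nat_lit 0x1000100010001000100010000000000000000))) (.non (nat_lit 0) (nat_lit 2) (nat_lit 0x55540) (nat_lit 0x1000100010001000100010001000000000000))) (.non (nat_lit 0) (nat_lit 4) (nat_lit 0x54050) (nat_lit 0x3000200010000000000000003000400000000))) (.non (nat_lit 0) (nat_lit 2) (nat_lit 0x50004) (nat_lit 0x1000100000000000000000000000000010000)))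 (.non (nat_lit 1) (nat_lit 2) (nat_lit 0x55401) (nat_lit 0x1000100010001000100000000000000000001)))) (.non (nat_lit 0) (nat_lit 2) (nat_lit 0x1a804) (nat_lit 0x400030002000100000000000000020000))) (.st (nat_lit 1) (nat_lit 0) (nat_lit 2) (nat_lit 0x2a004) (nat_lit 0x300020001000000000000000000040000) (nat_lit 1) (nat_lit 2) (.st (nat_lit 8) (nat_lit 0) (nat_lit 2) (nat_lit 0x28004) (nat_lit 0x200010000000000000000000000020000) (nat_lit 2) (nat_lit 1) (.split (nat_lit 8) (nat_lit 1) (.split (nat_lit 8) (nat_lit 7) (.leaf (.cons (nat_lit 0x551) (nat_lit 0x200030004000300000001) .nil) (.cons (nat_lit 0x111111001) (nat_lit 0x110) (nat_lit 0xd) (nat_lit 0x654023001) (.cons (nat_lit 0x111110001) (nat_lit 0x1010) (nat_lit 9) (nat_lit 0x543020001) .nil))) (.non (nat_lit 0) (nat_lit 2) (nat_lit 0x24004) (nat_lit 0x100010000000000000000000000010000))) (.non (nat_lit 0) (nat_lit 2) (nat_lit 0x15404) (nat_lit 0x400030002000100000000000000030000))))))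

noncomputable def t29_14 : Tr := (.split (nat_lit 8) (nat_lit 5) (.split (nat_lit 8) (nat_lit 6) (.st (nat_lit 7) (nat_lit 0) (nat_lit 2) (nat_lit 0x15004) (nat_lit 0x100020001000000000000000000010000) (nat_lit 1) (nat_lit 1) (.split (nat_lit 8) (nat_lit 7) (.ex (nat_lit 8) (.leaf (.cons (nat_lit 0x551) (nat_lit 0x200030004000300000001) .nil) (.cons (nat_lit 0x111111001) (nat_lit 0x110) (nat_lit 0xd) (nat_lit 0x654023001) (.cons (nat_lit 0x111110001) (nat_lit 0x1010) (nat_lit 9) (nat_lit 0x543020001) .nil))) (.split (nat_lit 9) (nat_lit 0) (.split (nat_lit 9) (nat_lit 1) (.split (nat_lit 9) (nat_lit 2) (.split (nat_lit 9) (nat_lit 3) (.split (nat_lit 9) (nat_lit 4) (.split (nat_lit 9) (nat_lit 5) (.split (nat_lit 9) (nat_lit 6) (.split (nat_lit 9) (nat_lit 7) (.st (nat_lit 1) (nat_lit 0) (nat_lit 2) (nat_lit 0x55404) (nat_lit 0x1000200030002000100000000000000020000) (nat_lit 1) (nat_lit 1) (.st (nat_lit 8) (nat_lit 0) (nat_lit 2) (nat_lit 0x55004) (nat_lit 0x1000200020001000000000000000000010000) (nat_lit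 1) (nat_lit 1) (.st (nat_lit 9) (nat_lit 0) (nat_lit 2) (nat_lit 0x55504) (nat_lit 0x2000300040003000200010000000000020000) (nat_lit 1) (nat_lit 1) (.split (nat_lit 9) (nat_lit 8) (.leaf (.cons (nat_lit 0x551) (nat_lit 0x200030004000300000001) .nil) (.cons (nat_lit 0x1111111010) (nat_lit 0x101) (nat_lit 0xe) (nat_lit 0x3204567010) .nil)) (.non (nat_lit 0) (nat_lit 2) (nat_lit 0x95004) (nat_lit 0x1000200020001000000000000000000010000)))))) (.non (nat_lit 0) (nat_lit 2) (nat_lit 0x54000) (nat_lit 0x1000100010000000000000000000000000000))) (.non (nat_lit 0) (nat_lit 2) (nat_lit 0x55000) (nat_lit 0x1000100010001000000000000000000000000))) (.non (nat_lit 0) (nat_lit 2) (nat_lit 0x55400) (nat_lit 0x1000100010001000100000000000000000000))) (.non (nat_lit 0) (nat_lit 2) (nat_lit 0x55500) (nat_lit 0x1000100010001000100010000000000000000))) (.non (nat_lit 0) (nat_lit 2) (nat_lit 0x55540) (nat_lit 0x1000100010001000100010001000000000000))) (.non (nat_lit 0) (nat_lit 3) (nat_lit 0x55514) (nat_lit 0x2000300040003000200010000000100020000)))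 (.non (nat_lit 0) (nat_lit 2) (nat_lit 0x54004) (nat_lit 0x1000100010000000000000000000000010000))) (.non (nat_lit 1) (nat_lit 2) (nat_lit 0x55401) (nat_lit 0x1000100010001000100000000000000000001)))) (.non (nat_lit 0) (nat_lit 2) (nat_lit 0x25004) (nat_lit 0x100020001000000000000000000010000)))) (.non (nat_lit 0) (nat_lit 2) (nat_lit 0x15000) (nat_lit 0x100010001000000000000000000000000))) (.non (nat_lit 0) (nat_lit 2) (nat_lit 0x15400) (nat_lit 0x100010001000100000000000000000000)))

noncomputable def t29_15 : Tr := (.split (nat_lit 7) (nat_lit 1) (.st (nat_lit 0) (nat_lit 1) (nat_lit 2) (nat_lit 0x5541) (nat_lit 0x10002000300020001000000000002) (nat_lit 1) (nat_lit 1) (.st (nat_lit 6) (nat_lit 1) (nat_lit 2) (nat_lit 0x5501) (nat_lit 0x10002000200010000000000000001) (nat_lit 1) (nat_lit 1) (.split (nat_lit 7) (nat_lit 6) (.ex (nat_lit 7) (.leaf (.cons (nat_lit 0x551) (nat_lit 0x200030004000300000001) .nil) (.cons (nat_lit 0x11111001) (nat_lit 0x110) (nat_lit 0xc) (nat_lit 0x54023001) .nil)) (.split (nat_lit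 8) (nat_lit 0) (.split (nat_lit 8) (nat_lit 2) (.split (nat_lit 8) (nat_lit 3) (.split (nat_lit 8) (nat_lit 4) (.split (nat_lit 8) (nat_lit 5) (.split (nat_lit 8) (nat_lit 6) (.split (nat_lit 8) (nat_lit 1) (.st (nat_lit 7) (nat_lit 1) (nat_lit 2) (nat_lit 0x15501) (nat_lit 0x100020002000200010000000000000001) (nat_lit 1) (nat_lit 1) (.split (nat_lit 8) (nat_lit 7) t29_12 (.non (nat_lit 1) (nat_lit 2) (nat_lit 0x25501) (nat_lit 0x100020002000200010000000000000001)))) (.st (nat_lit 7) (nat_lit 1) (nat_lit 2) (nat_lit 0x15501) (nat_lit 0x100020002000200010000000000000001) (nat_lit 1) (nat_lit 1) t29_13)) (.non (nat_lit 0) (nat_lit 2) (nat_lit 0x15000) (nat_lit 0x100010001000000000000000000000000))) (.non (nat_lit 0) (nat_lit 2) (nat_lit 0x15400) (nat_lit 0x100010001000100000000000000000000))) (.non (nat_lit 0) (nat_lit 2) (nat_lit 0x15500) (nat_lit 0x100010001000100010000000000000000))) (.non (nat_lit 0) (nat_lit 2) (nat_lit 0x15540) (nat_lit 0x100010001000100010001000000000000))) (.non (nat_lit 0) (nat_lit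 4) (nat_lit 0x15050) (nat_lit 0x300020001000000000003000400000000))) (.non (nat_lit 1) (nat_lit 2) (nat_lit 0x15401) (nat_lit 0x100010001000100000000000000000001)))) (.non (nat_lit 1) (nat_lit 2) (nat_lit 0x9501) (nat_lit 0x10002000200010000000000000001))))) (.st (nat_lit 0) (nat_lit 1) (nat_lit 2) (nat_lit 0x5541) (nat_lit 0x10002000300020001000000000002) (nat_lit 1) (nat_lit 1) (.st (nat_lit 6) (nat_lit 1) (nat_lit 2) (nat_lit 0x5501) (nat_lit 0x10002000200010000000000000001) (nat_lit 1) (nat_lit 1) (.split (nat_lit 7) (nat_lit 1) (.split (nat_lit 7) (nat_lit 6) (.ex (nat_lit 7) (.leaf (.cons (nat_lit 0x551) (nat_lit 0x200030004000300000001) .nil) (.cons (nat_lit 0x11111001) (nat_lit 0x110) (nat_lit 0xc) (nat_lit 0x54023001) .nil)) (.split (nat_lit 8) (nat_lit 0) (.split (nat_lit 8) (nat_lit 1) (.split (nat_lit 8) (nat_lit 2) (.split (nat_lit 8) (nat_lit 3) (.split (nat_lit 8) (nat_lit 4) t29_14 (.non (nat_lit 0) (nat_lit 2) (nat_lit 0x15500) (nat_lit 0x100010001000100010000000000000000))) (.non (nat_lit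 0) (nat_lit 2) (nat_lit 0x15540) (nat_lit 0x100010001000100010001000000000000))) (.non (nat_lit 0) (nat_lit 4) (nat_lit 0x15050) (nat_lit 0x300020001000000000003000400000000))) (.non (nat_lit 0) (nat_lit 2) (nat_lit 0x14004) (nat_lit 0x100010000000000000000000000010000))) (.non (nat_lit 1) (nat_lit 2) (nat_lit 0x15401) (nat_lit 0x100010001000100000000000000000001)))) (.non (nat_lit 0) (nat_lit 2) (nat_lit 0x6a04) (nat_lit 0x40003000200010000000000020000))) (.st (nat_lit 1) (nat_lit 0) (nat_lit 2) (nat_lit 0xa804) (nat_lit 0x30002000100000000000000040000) (nat_lit 1) (nat_lit 2) (.st (nat_lit 7) (nat_lit 0) (nat_lit 2) (nat_lit 0xa004) (nat_lit 0x20001000000000000000000020000) (nat_lit 2) (nat_lit 1) (.split (nat_lit 7) (nat_lit 1) (.split (nat_lit 7) (nat_lit 6) (.leaf (.cons (nat_lit 0x551) (nat_lit 0x200030004000300000001) .nil) (.cons (nat_lit 0x11111001) (nat_lit 0x110) (nat_lit 0xc) (nat_lit 0x54023001) .nil)) (.non (nat_lit 0) (nat_lit 2) (nat_lit 0x9004) (nat_lit 0x10001000000000000000000010000))) (.non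 (nat_lit 0) (nat_lit 2) (nat_lit 0x5504) (nat_lit 0x40003000200010000000000030000)))))))))

noncomputable def t29_16 : Tr := (.ex (nat_lit 3) (.split (nat_lit 5) (nat_lit 0) (.split (nat_lit 6) (nat_lit 5) (.pd (.cons (nat_lit 0) (nat_lit 4) (nat_lit 0) (nat_lit 0x5502210) (nat_lit 0xf423fb71ae00000f423f54591f423f00000) (.cons (nat_lit 0) (nat_lit 5) (nat_lit 0) (nat_lit 0x6032210) (nat_lit 0xf423f00000f423fb71ae1f156f423f00000) (.cons (nat_lit 0) (nat_lit 6) (nat_lit 0) (nat_lit 0x432210) (nat_lit 0xf423fb71aea2c2804737f423f00000) (.cons (nat_lit 1) (nat_lit 4) (nat_lit 0) (nat_lit 0x5002200) (nat_lit 0xf423fb71ae00000f423f5459100000a2c28) (.cons (nat_lit 1) (nat_lit 5) (nat_lit 0) (nat_lit 0x6032200) (nat_lit 0xf423f00000f423fb71ae1f15600000f423f) .nil))))) (.ex (nat_lit 6) (.ex (nat_lit 0) (.leaf (.cons (nat_lit 0x551) (nat_lit 0x200030004000300000001) .nil) (.cons (nat_lit 0x1111001) (nat_lit 0x110) (nat_lit 8) (nat_lit 0x2034001) (.cons (nat_lit 0x1110001) (nat_lit 0x1010) (nat_lit 7) (nat_lit 0x3020001)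 .nil))) (.split (nat_lit 7) (nat_lit 2) (.split (nat_lit 7) (nat_lit 3) t29_11 (.star (nat_lit 7) (nat_lit 0) (nat_lit 3))) (.star (nat_lit 7) (nat_lit 0) (nat_lit 2)))) (.split (nat_lit 7) (nat_lit 0) (.split (nat_lit 7) (nat_lit 2) (.split (nat_lit 7) (nat_lit 3) (.split (nat_lit 7) (nat_lit 4) (.split (nat_lit 7) (nat_lit 5) t29_15 (.non (nat_lit 0) (nat_lit 2) (nat_lit 0x5400) (nat_lit 0x10001000100000000000000000000))) (.non (nat_lit 0) (nat_lit 2) (nat_lit 0x5500) (nat_lit 0x10001000100010000000000000000))) (.non (nat_lit 0) (nat_lit 2) (nat_lit 0x5540) (nat_lit 0x10001000100010001000000000000))) (.non (nat_lit 0) (nat_lit 4) (nat_lit 0x5450) (nat_lit 0x30002000100000003000400000000))) (.non (nat_lit 1) (nat_lit 2) (nat_lit 0x5401) (nat_lit 0x10001000100000000000000000001))))) (.non (nat_lit 1) (nat_lit 2) (nat_lit 0x2501) (nat_lit 0x1000200010000000000000001))) (.non (nat_lit 1) (nat_lit 2) (nat_lit 0x2a01) (nat_lit 0x1000200010000000000000002))) (.split (nat_lit 7) (nat_lit 0) (.split (nat_lit 7) (nat_lit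 1) (.split (nat_lit 7) (nat_lit 4) (.split (nat_lit 7) (nat_lit 5) (.split (nat_lit 7) (nat_lit 6) (.split (nat_lit 7) (nat_lit 2) (.unj (nat_lit 5) (nat_lit 0x10001) (nat_lit 0x4150) (nat_lit 0x10000000000010002000200000000)) (.unj (nat_lit 5) (nat_lit 0x10001) (nat_lit 0x4050) (nat_lit 0x10000000000000001000100000000))) (.non (nat_lit 0) (nat_lit 2) (nat_lit 0x5540) (nat_lit 0x10001000100010001000000000000))) (.non (nat_lit 0) (nat_lit 2) (nat_lit 0x4540) (nat_lit 0x10000000100010001000000000000))) (.non (nat_lit 0) (nat_lit 2) (nat_lit 0x4140) (nat_lit 0x10000000000010001000000000000))) (.star (nat_lit 7) (nat_lit 1) (nat_lit 3))) (.star (nat_lit 7) (nat_lit 0) (nat_lit 3))))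

noncomputable def t29_17 : Tr := (.ex (nat_lit 2) (.ex (nat_lit 3) (.split (nat_lit 5) (nat_lit 1) (.split (nat_lit 6) (nat_lit 5) (.split (nat_lit 5) (nat_lit 0) (.pd (.cons (nat_lit 0) (nat_lit 4) (nat_lit 0) (nat_lit 0x5102210) (nat_lit 0xf423fb71ae00000f423f54591a2c2800000) (.cons (nat_lit 0) (nat_lit 5) (nat_lit 0) (nat_lit 0x6032210) (nat_lit 0xf423f00000f423fb71ae1f156f423f00000) (.cons (nat_lit 1) (nat_lit 4) (nat_lit 0) (nat_lit 0x5002200) (nat_lit 0xf423fb71ae00000f423f5459100000a2c28) (.cons (nat_lit 1) (nat_lit 5) (nat_lit 0) (nat_lit 0x6032200) (nat_lit 0xf423f00000f423fb71ae1f15600000f423f) .nil)))) (.leaf (.cons (nat_lit 0x554) (nat_lit 0x200030004000300010000) (.cons (nat_lit 0x551) (nat_lit 0x200030004000300000001) .nil)) .nil)) (.non (nat_lit 1) (nat_lit 2) (nat_lit 0x2a01) (nat_lit 0x1000200010000000000000002))) (.non (nat_lit 0) (nat_lit 2) (nat_lit 0x2504) (nat_lit 0x1000200010000000000010000))) (.non (nat_lit 0) (nat_lit 2) (nat_lit 0x2a04) (nat_lit 0x1000200010000000000020000))) (.split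 (nat_lit 7) (nat_lit 0) (.split (nat_lit 7) (nat_lit 1) (.split (nat_lit 7) (nat_lit 4) (.split (nat_lit 7) (nat_lit 5) (.split (nat_lit 7) (nat_lit 6) (.split (nat_lit 7) (nat_lit 2) (.unj (nat_lit 5) (nat_lit 0x10001) (nat_lit 0x4150) (nat_lit 0x10000000000010002000200000000)) (.unj (nat_lit 5) (nat_lit 0x10001) (nat_lit 0x4050) (nat_lit 0x10000000000000001000100000000))) (.non (nat_lit 0) (nat_lit 2) (nat_lit 0x5540) (nat_lit 0x10001000100010001000000000000))) (.non (nat_lit 0) (nat_lit 2) (nat_lit 0x4540) (nat_lit 0x10000000100010001000000000000))) (.non (nat_lit 0) (nat_lit 2) (nat_lit 0x4140) (nat_lit 0x10000000000010001000000000000))) (.star (nat_lit 7) (nat_lit 1) (nat_lit 3))) (.star (nat_lit 7) (nat_lit 0) (nat_lit 3)))) (.split (nat_lit 7) (nat_lit 0) (.split (nat_lit 7) (nat_lit 1) (.split (nat_lit 7) (nat_lit 4) (.split (nat_lit 7) (nat_lit 5) (.split (nat_lit 7) (nat_lit 3) (.split (nat_lit 7) (nat_lit 6) (.unj (nat_lit 5) (nat_lit 0x10001) (nat_lit 0x4150) (nat_lit 0x10000000000010002000200000000))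 (.unj (nat_lit 5) (nat_lit 0x10001) (nat_lit 0x4150) (nat_lit 0x10000000000010002000200000000))) (.split (nat_lit 7) (nat_lit 6) (.unj (nat_lit 5) (nat_lit 0x10001) (nat_lit 0x4050) (nat_lit 0x10000000000000001000100000000)) (.non (nat_lit 0) (nat_lit 2) (nat_lit 0x5540) (nat_lit 0x10001000100010001000000000000)))) (.non (nat_lit 0) (nat_lit 2) (nat_lit 0x5504) (nat_lit 0x10001000200010000000000010000))) (.non (nat_lit 0) (nat_lit 2) (nat_lit 0x5544) (nat_lit 0x10001000200020001000000010000))) (.star (nat_lit 7) (nat_lit 1) (nat_lit 2))) (.star (nat_lit 7) (nat_lit 0) (nat_lit 2))))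

noncomputable def t29_18 : Tr := (.split (nat_lit 5) (nat_lit 0) (.split (nat_lit 5) (nat_lit 1) .uj (.st (nat_lit 4) (nat_lit 0) (nat_lit 2) (nat_lit 0x1544) (nat_lit 0x1000200020001000000010000) (nat_lit 1) (nat_lit 1) (.st (nat_lit 5) (nat_lit 0) (nat_lit 2) (nat_lit 0x1504) (nat_lit 0x1000200010000000000010000) (nat_lit 1) (nat_lit 1) (.ex (nat_lit 2) t29_8 (.split (nat_lit 7) (nat_lit 0) (.split (nat_lit 7) (nat_lit 1) (.split (nat_lit 7) (nat_lit 4) (.split (nat_lit 7) (nat_lit 5) (.split (nat_lit 7) (nat_lit 3) (.split (nat_lit 7) (nat_lit 6) (.unj (nat_lit 5) (nat_lit 0x10001) (nat_lit 0x4150) (nat_lit 0x10000000000010002000200000000)) (.unj (nat_lit 5) (nat_lit 0x10001) (nat_lit 0x4150) (nat_lit 0x10000000000010002000200000000))) (.split (nat_lit 7) (nat_lit 6) (.unj (nat_lit 5) (nat_lit 0x10001) (nat_lit 0x4050) (nat_lit 0x10000000000000001000100000000)) (.non (nat_lit 0) (nat_lit 2) (nat_lit 0x5540) (nat_lit 0x10001000100010001000000000000)))) (.non (nat_lit 0) (nat_lit 2) (nat_lit 0x5504) (nat_lit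 0x10001000200010000000000010000))) (.non (nat_lit 0) (nat_lit 2) (nat_lit 0x5544) (nat_lit 0x10001000200020001000000010000))) (.star (nat_lit 7) (nat_lit 1) (nat_lit 2))) (.star (nat_lit 7) (nat_lit 0) (nat_lit 2))))))) (.split (nat_lit 5) (nat_lit 1) (.st (nat_lit 4) (nat_lit 1) (nat_lit 2) (nat_lit 0x1541) (nat_lit 0x1000200020001000000000001) (nat_lit 1) (nat_lit 1) (.st (nat_lit 5) (nat_lit 1) (nat_lit 2) (nat_lit 0x1501) (nat_lit 0x1000200010000000000000001) (nat_lit 1) (nat_lit 1) (.ex (nat_lit 2) t29_16 (.split (nat_lit 7) (nat_lit 0) (.split (nat_lit 7) (nat_lit 1) (.split (nat_lit 7) (nat_lit 4) (.split (nat_lit 7) (nat_lit 5) (.split (nat_lit 7) (nat_lit 3) (.split (nat_lit 7) (nat_lit 6) (.unj (nat_lit 5) (nat_lit 0x10001) (nat_lit 0x4150) (nat_lit 0x10000000000010002000200000000)) (.unj (nat_lit 5) (nat_lit 0x10001) (nat_lit 0x4150) (nat_lit 0x10000000000010002000200000000))) (.split (nat_lit 7) (nat_lit 6) (.unj (nat_lit 5) (nat_lit 0x10001) (nat_lit 0x4050) (nat_lit 0x10000000000000001000100000000))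 (.non (nat_lit 0) (nat_lit 2) (nat_lit 0x5540) (nat_lit 0x10001000100010001000000000000)))) (.non (nat_lit 1) (nat_lit 2) (nat_lit 0x5501) (nat_lit 0x10001000200010000000000000001))) (.non (nat_lit 1) (nat_lit 2) (nat_lit 0x5541) (nat_lit 0x10001000200020001000000000001))) (.star (nat_lit 7) (nat_lit 1) (nat_lit 2))) (.star (nat_lit 7) (nat_lit 0) (nat_lit 2)))))) (.st (nat_lit 4) (nat_lit 0) (nat_lit 2) (nat_lit 0x1544) (nat_lit 0x1000200020001000000010000) (nat_lit 1) (nat_lit 1) t29_17)))

noncomputable def t29_19 : Tr := (.ex (nat_lit 7) (.ex (nat_lit 1) (.leaf .nil (.cons (nat_lit 0x11111010) (nat_lit 0x101) (nat_lit 9) (nat_lit 0x20345010) (.cons (nat_lit 0x11110010) (nat_lit 0x1001) (nat_lit 8) (nat_lit 0x20340010) (.cons (nat_lit 0x11100010) (nat_lit 0x10001) (nat_lit 7) (nat_lit 0x30200010) (.cons (nat_lit 0x11000010) (nat_lit 0x100001) (nat_lit 1) (nat_lit 0x21000000) .nil))))) (.split (nat_lit 8) (nat_lit 2) (.split (nat_lit 8) (nat_lit 3) (.split (nat_lit 8) (nat_lit 4) (.split (nat_lit 8) (nat_lit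 5) (.split (nat_lit 8) (nat_lit 6) (.split (nat_lit 8) (nat_lit 7) (.split (nat_lit 8) (nat_lit 0) (.sup (nat_lit 0x100020007000b0010000d00000000) (nat_lit 0x200000000000000000000000000040004)) (.sup (nat_lit 0x10002000400060008000600000000) (nat_lit 0x100000000000000000000000000010001))) (.non (nat_lit 0) (nat_lit 2) (nat_lit 0x15004) (nat_lit 0x100010001000000000000000000010000))) (.non (nat_lit 0) (nat_lit 2) (nat_lit 0x11004) (nat_lit 0x100000001000000000000000000010000))) (.non (nat_lit 0) (nat_lit 2) (nat_lit 0x11404) (nat_lit 0x100000001000100000000000000010000))) (.non (nat_lit 0) (nat_lit 2) (nat_lit 0x11504) (nat_lit 0x100000001000100010000000000010000))) (.star (nat_lit 8) (nat_lit 1) (nat_lit 3))) (.star (nat_lit 8) (nat_lit 1) (nat_lit 2)))) (.split (nat_lit 8) (nat_lit 1) (.split (nat_lit 8) (nat_lit 2) (.split (nat_lit 8) (nat_lit 3) (.split (nat_lit 8) (nat_lit 4) (.split (nat_lit 8) (nat_lit 5) (.split (nat_lit 8) (nat_lit 6) (.split (nat_lit 8) (nat_lit 0) (.st (nat_lit 1) (nat_lit 0) (nat_lit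 2) (nat_lit 0x15504) (nat_lit 0x100020003000200010000000000020000) (nat_lit 1) (nat_lit 1) (.st (nat_lit 7) (nat_lit 0) (nat_lit 2) (nat_lit 0x15404) (nat_lit 0x100020002000100000000000000010000) (nat_lit 1) (nat_lit 1) (.st (nat_lit 8) (nat_lit 0) (nat_lit 2) (nat_lit 0x15544) (nat_lit 0x200030004000300020001000000020000) (nat_lit 1) (nat_lit 1) (.split (nat_lit 8) (nat_lit 7) (.leaf .nil (.cons (nat_lit 0x111111010) (nat_lit 0x101) (nat_lit 0xd) (nat_lit 0x320456010) (.cons (nat_lit 0x111110010) (nat_lit 0x1001) (nat_lit 0xc) (nat_lit 0x540230010) (.cons (nat_lit 0x111100010) (nat_lit 0x10001) (nat_lit 8) (nat_lit 0x430200010) .nil)))) (.non (nat_lit 0) (nat_lit 2) (nat_lit 0x25404) (nat_lit 0x100020002000100000000000000010000)))))) (.sup (nat_lit 0x20007000b0010000d00000000) (nat_lit 0x200000000000000000000000000030004))) (.non (nat_lit 0) (nat_lit 2) (nat_lit 0x15000) (nat_lit 0x100010001000000000000000000000000))) (.non (nat_lit 0) (nat_lit 2) (nat_lit 0x15400) (nat_lit 0x100010001000100000000000000000000)))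 (.non (nat_lit 0) (nat_lit 2) (nat_lit 0x15500) (nat_lit 0x100010001000100010000000000000000))) (.non (nat_lit 0) (nat_lit 2) (nat_lit 0x15540) (nat_lit 0x100010001000100010001000000000000))) (.non (nat_lit 0) (nat_lit 4) (nat_lit 0x15050) (nat_lit 0x300020001000000000003000400000000))) (.non (nat_lit 0) (nat_lit 2) (nat_lit 0x15004) (nat_lit 0x100010001000000000000000000010000))))

noncomputable def t29_20 : Tr := (.ex (nat_lit 5) (.pd (.cons (nat_lit 0) (nat_lit 6) (nat_lit 0) (nat_lit 0x432210) (nat_lit 0xf423fb71aea2c2804737f423f00000) (.cons (nat_lit 1) (nat_lit 6) (nat_lit 0) (nat_lit 0x432200) (nat_lit 0xf423fb71aea2c280473700000f423f) .nil)) (.ex (nat_lit 6) (.ex (nat_lit 1) (.leaf .nil (.cons (nat_lit 0x1110010) (nat_lit 0x1001) (nat_lit 2) (nat_lit 0x1230000) (.cons (nat_lit 0x1100010) (nat_lit 0x10001) (nat_lit 1) (nat_lit 0x1200000) (.cons (nat_lit 0x1000010) (nat_lit 0x100001) (nat_lit 0) (nat_lit 0x1000000) .nil)))) (.split (nat_lit 7) (nat_lit 2) (.split (nat_lit 7) (nat_lit 3) (.split (nat_lit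 7) (nat_lit 4) (.split (nat_lit 7) (nat_lit 5) (.split (nat_lit 7) (nat_lit 6) (.split (nat_lit 7) (nat_lit 0) (.sup (nat_lit 0x20006000b0010000d00000000) (nat_lit 0x20000000000000000000000030003)) (.sup (nat_lit 0x1000400060008000600000000) (nat_lit 0x10000000000000000000000010001))) (.non (nat_lit 0) (nat_lit 2) (nat_lit 0x5004) (nat_lit 0x10001000000000000000000010000))) (.non (nat_lit 0) (nat_lit 2) (nat_lit 0x5404) (nat_lit 0x10001000100000000000000010000))) (.non (nat_lit 0) (nat_lit 2) (nat_lit 0x5504) (nat_lit 0x10001000100010000000000010000))) (.star (nat_lit 7) (nat_lit 1) (nat_lit 3))) (.star (nat_lit 7) (nat_lit 1) (nat_lit 2)))) (.split (nat_lit 7) (nat_lit 1) (.split (nat_lit 7) (nat_lit 2) (.split (nat_lit 7) (nat_lit 3) (.split (nat_lit 7) (nat_lit 4) (.split (nat_lit 7) (nat_lit 5) (.split (nat_lit 7) (nat_lit 0) (.st (nat_lit 6) (nat_lit 0) (nat_lit 2) (nat_lit 0x5404) (nat_lit 0x10002000100000000000000010000) (nat_lit 1) (nat_lit 1) (.split (nat_lit 7) (nat_lit 6) t29_19 (.non (nat_lit 0)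 (nat_lit 2) (nat_lit 0x9404) (nat_lit 0x10002000100000000000000010000)))) (.leaf .nil .nil)) (.non (nat_lit 0) (nat_lit 2) (nat_lit 0x5400) (nat_lit 0x10001000100000000000000000000))) (.non (nat_lit 0) (nat_lit 2) (nat_lit 0x5500) (nat_lit 0x10001000100010000000000000000))) (.non (nat_lit 0) (nat_lit 2) (nat_lit 0x5540) (nat_lit 0x10001000100010001000000000000))) (.non (nat_lit 0) (nat_lit 4) (nat_lit 0x5450) (nat_lit 0x30002000100000003000400000000))) (.non (nat_lit 0) (nat_lit 2) (nat_lit 0x5004) (nat_lit 0x10001000000000000000000010000))))) (.split (nat_lit 7) (nat_lit 1) (.split (nat_lit 7) (nat_lit 2) (.split (nat_lit 7) (nat_lit 3) (.split (nat_lit 7) (nat_lit 4) (.split (nat_lit 7) (nat_lit 6) (.split (nat_lit 7) (nat_lit 0) (.unj (nat_lit 5) (nat_lit 0x10001) (nat_lit 0x4550) (nat_lit 0x10000000200030004000300000000)) (.leaf (.cons (nat_lit 0x4550) (nat_lit 0x10000000200030004000300000000) .nil) .nil)) (.non (nat_lit 0) (nat_lit 2) (nat_lit 0x5400) (nat_lit 0x10001000100000000000000000000))) (.non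 (nat_lit 0) (nat_lit 2) (nat_lit 0x4500) (nat_lit 0x10000000100010000000000000000))) (.non (nat_lit 0) (nat_lit 2) (nat_lit 0x4540) (nat_lit 0x10000000100010001000000000000))) (.non (nat_lit 0) (nat_lit 4) (nat_lit 0x5450) (nat_lit 0x30001000200000003000400000000))) (.non (nat_lit 0) (nat_lit 2) (nat_lit 0x5404) (nat_lit 0x10001000100000000000000010000))))

noncomputable def t29_21 : Tr := (.split (nat_lit 6) (nat_lit 1) (.split (nat_lit 6) (nat_lit 5) (.pd (.cons (nat_lit 0) (nat_lit 4) (nat_lit 0) (nat_lit 0x1602210) (nat_lit 0xb71aef423f00000f423f54591a2c2800000) (.cons (nat_lit 1) (nat_lit 4) (nat_lit 0) (nat_lit 0x5502200) (nat_lit 0xf423fb71ae00000f423f5459100000f423f) .nil)) (.ex (nat_lit 4) (.pd (.cons (nat_lit 0) (nat_lit 5) (nat_lit 0) (nat_lit 0x1032210) (nat_lit 0xf423f00000f423fb71ae1f156b71ae00000) (.cons (nat_lit 1) (nat_lit 5) (nat_lit 0) (nat_lit 0x6032200) (nat_lit 0xf423f00000f423fb71ae1f15600000f423f) .nil)) t29_20) (.split (nat_lit 7) (nat_lit 1) (.split (nat_lit 7) (nat_lit 3) (.split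 (nat_lit 7) (nat_lit 5) (.split (nat_lit 7) (nat_lit 6) (.split (nat_lit 7) (nat_lit 0) (.split (nat_lit 7) (nat_lit 2) (.unj (nat_lit 5) (nat_lit 0x10001) (nat_lit 0x4550) (nat_lit 0x10000000100020002000200000000)) (.unj (nat_lit 5) (nat_lit 0x10001) (nat_lit 0x4150) (nat_lit 0x10000000000010001000100000000))) (.split (nat_lit 7) (nat_lit 2) (.split (nat_lit 7) (nat_lit 0) (.sup (nat_lit 0x200000005000b0010000d00000000) (nat_lit 0x2000000000000000000080008)) (.non (nat_lit 1) (nat_lit 2) (nat_lit 0x8a81) (nat_lit 0x20000000100020001000000000002))) (.star (nat_lit 7) (nat_lit 0) (nat_lit 2)))) (.non (nat_lit 0) (nat_lit 2) (nat_lit 0x5500) (nat_lit 0x10001000100010000000000000000))) (.non (nat_lit 0) (nat_lit 2) (nat_lit 0x4500) (nat_lit 0x10000000100010000000000000000))) (.non (nat_lit 0) (nat_lit 2) (nat_lit 0x4140) (nat_lit 0x10000000000010001000000000000))) (.non (nat_lit 0) (nat_lit 2) (nat_lit 0x5504) (nat_lit 0x10001000100010000000000010000))))) (.non (nat_lit 0) (nat_lit 2) (nat_lit 0x1a84) (nat_lit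 0x4000300020001000000020000))) (.split (nat_lit 6) (nat_lit 1) (.split (nat_lit 6) (nat_lit 5) (.pd (.cons (nat_lit 0) (nat_lit 4) (nat_lit 0) (nat_lit 0x1602210) (nat_lit 0xb71aef423f00000f423f545915161200000) (.cons (nat_lit 1) (nat_lit 4) (nat_lit 0) (nat_lit 0x5502200) (nat_lit 0xf423fb71ae00000f423f5459100000f423f) .nil)) (.st (nat_lit 4) (nat_lit 0) (nat_lit 2) (nat_lit 0x2a84) (nat_lit 0x2000200020001000000020000) (nat_lit 2) (nat_lit 1) (.pd (.cons (nat_lit 0) (nat_lit 5) (nat_lit 0) (nat_lit 0x1032210) (nat_lit 0xf423f00000f423fb71ae1f1567a11e00000) (.cons (nat_lit 1) (nat_lit 5) (nat_lit 0) (nat_lit 0x6032200) (nat_lit 0xf423f00000f423fb71ae1f15600000f423f) .nil)) (.st (nat_lit 5) (nat_lit 0) (nat_lit 2) (nat_lit 0x2a04) (nat_lit 0x2000200010000000000020000) (nat_lit 2) (nat_lit 1) (.pd (.cons (nat_lit 0) (nat_lit 6) (nat_lit 0) (nat_lit 0x432210) (nat_lit 0xf423fb71aea2c2804737f423f00000) (.cons (nat_lit 1) (nat_lit 6) (nat_lit 0) (nat_lit 0x432200) (nat_lit 0xf423fb71aea2c280473700000f423f) .nil))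 (.st (nat_lit 1) (nat_lit 0) (nat_lit 2) (nat_lit 0x2a04) (nat_lit 0x3000200010000000000040000) (nat_lit 1) (nat_lit 2) (.st (nat_lit 6) (nat_lit 0) (nat_lit 2) (nat_lit 0x2804) (nat_lit 0x2000100000000000000020000) (nat_lit 2) (nat_lit 1) (.leaf .nil (.cons (nat_lit 0x1100010) (nat_lit 0x10001) (nat_lit 6) (nat_lit 0x1200000) .nil))))))))) (.non (nat_lit 0) (nat_lit 2) (nat_lit 0x2404) (nat_lit 0x1000100000000000000010000))) (.non (nat_lit 0) (nat_lit 2) (nat_lit 0x1544) (nat_lit 0x4000300020001000000030000))))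

noncomputable def t29_22 : Tr := (.ex (nat_lit 3) (.split (nat_lit 6) (nat_lit 1) (.split (nat_lit 6) (nat_lit 5) (.split (nat_lit 5) (nat_lit 0) (.pd (.cons (nat_lit 0) (nat_lit 4) (nat_lit 0) (nat_lit 0x1602210) (nat_lit 0xb71aef423f00000f423f54591a2c2800000) (.cons (nat_lit 0) (nat_lit 5) (nat_lit 0) (nat_lit 0x1032210) (nat_lit 0xf423f00000f423fb71ae1f156b71ae00000) (.cons (nat_lit 0) (nat_lit 6) (nat_lit 0) (nat_lit 0x432210) (nat_lit 0xf423fb71aea2c2804737f423f00000) (.cons (nat_lit 1) (nat_lit 4) (nat_lit 0) (nat_lit 0x5002200) (nat_lit 0xf423fb71ae00000f423f5459100000a2c28) (.cons (nat_lit 1) (nat_lit 5) (nat_lit 0) (nat_lit 0x6032200) (nat_lit 0xf423f00000f423fb71ae1f15600000f423f) .nil))))) (.leaf (.cons (nat_lit 0x551) (nat_lit 0x200030004000300000001) .nil) .nil)) (.non (nat_lit 1) (nat_lit 2) (nat_lit 0x2a01) (nat_lit 0x1000200010000000000000002))) (.non (nat_lit 0) (nat_lit 2) (nat_lit 0x1a84) (nat_lit 0x4000300020001000000020000))) (.split (nat_lit 6) (nat_lit 1) (.split (nat_lit 6) (nat_lit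 5) (.split (nat_lit 5) (nat_lit 0) (.pd (.cons (nat_lit 0) (nat_lit 4) (nat_lit 0) (nat_lit 0x1602210) (nat_lit 0xb71aef423f00000f423f545915161200000) (.cons (nat_lit 0) (nat_lit 5) (nat_lit 0) (nat_lit 0x1032210) (nat_lit 0xf423f00000f423fb71ae1f1567a11e00000) (.cons (nat_lit 0) (nat_lit 6) (nat_lit 0) (nat_lit 0x432210) (nat_lit 0xf423fb71aea2c2804737f423f00000) (.cons (nat_lit 1) (nat_lit 4) (nat_lit 0) (nat_lit 0x5002200) (nat_lit 0xf423fb71ae00000f423f5459100000a2c28) (.cons (nat_lit 1) (nat_lit 5) (nat_lit 0) (nat_lit 0x6032200) (nat_lit 0xf423f00000f423fb71ae1f15600000f423f) .nil))))) (.leaf (.cons (nat_lit 0x551) (nat_lit 0x200030004000300000001) .nil) .nil)) (.non (nat_lit 1) (nat_lit 2) (nat_lit 0x2a01) (nat_lit 0x1000200010000000000000002))) (.non (nat_lit 0) (nat_lit 2) (nat_lit 0x2404) (nat_lit 0x1000100000000000000010000))) (.non (nat_lit 0) (nat_lit 2) (nat_lit 0x1544) (nat_lit 0x4000300020001000000030000)))) (.split (nat_lit 7) (nat_lit 0) (.split (nat_lit 7) (nat_lit 1) (.split (nat_lit 7)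 (nat_lit 4) (.split (nat_lit 7) (nat_lit 5) (.split (nat_lit 7) (nat_lit 6) (.split (nat_lit 7) (nat_lit 2) (.unj (nat_lit 5) (nat_lit 0x10001) (nat_lit 0x4150) (nat_lit 0x10000000000010002000200000000)) (.unj (nat_lit 5) (nat_lit 0x10001) (nat_lit 0x4050) (nat_lit 0x10000000000000001000100000000))) (.non (nat_lit 0) (nat_lit 2) (nat_lit 0x5540) (nat_lit 0x10001000100010001000000000000))) (.non (nat_lit 0) (nat_lit 2) (nat_lit 0x4540) (nat_lit 0x10000000100010001000000000000))) (.non (nat_lit 0) (nat_lit 2) (nat_lit 0x4140) (nat_lit 0x10000000000010001000000000000))) (.star (nat_lit 7) (nat_lit 1) (nat_lit 3))) (.star (nat_lit 7) (nat_lit 0) (nat_lit 3))))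

noncomputable def t29_23 : Tr := (.split (nat_lit 5) (nat_lit 0) (.ex (nat_lit 2) (.ex (nat_lit 3) t29_21 (.split (nat_lit 7) (nat_lit 0) (.split (nat_lit 7) (nat_lit 1) (.split (nat_lit 7) (nat_lit 4) (.split (nat_lit 7) (nat_lit 5) (.split (nat_lit 7) (nat_lit 6) (.split (nat_lit 7) (nat_lit 2) (.unj (nat_lit 5) (nat_lit 0x10001) (nat_lit 0x4150) (nat_lit 0x10000000000010002000200000000)) (.unj (nat_lit 5) (nat_lit 0x10001) (nat_lit 0x4050) (nat_lit 0x10000000000000001000100000000))) (.non (nat_lit 0) (nat_lit 2) (nat_lit 0x5540) (nat_lit 0x10001000100010001000000000000))) (.non (nat_lit 0) (nat_lit 2) (nat_lit 0x4540) (nat_lit 0x10000000100010001000000000000))) (.non (nat_lit 0) (nat_lit 2) (nat_lit 0x4140) (nat_lit 0x10000000000010001000000000000))) (.star (nat_lit 7) (nat_lit 1) (nat_lit 3))) (.star (nat_lit 7) (nat_lit 0) (nat_lit 3)))) (.split (nat_lit 7) (nat_lit 0) (.split (nat_lit 7) (nat_lit 1) (.split (nat_lit 7) (nat_lit 3) (.split (nat_lit 7) (nat_lit 4) (.split (nat_lit 7) (nat_lit 5) (.split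 (nat_lit 7) (nat_lit 6) (.unj (nat_lit 5) (nat_lit 0x10001) (nat_lit 0x4150) (nat_lit 0x10000000000010002000200000000)) (.unj (nat_lit 5) (nat_lit 0x10001) (nat_lit 0x4150) (nat_lit 0x10000000000010002000200000000))) (.split (nat_lit 7) (nat_lit 6) (.unj (nat_lit 5) (nat_lit 0x10001) (nat_lit 0x4150) (nat_lit 0x10000000000010002000200000000)) (.non (nat_lit 0) (nat_lit 2) (nat_lit 0x5400) (nat_lit 0x10001000100000000000000000000)))) (.split (nat_lit 7) (nat_lit 5) (.split (nat_lit 7) (nat_lit 6) (.unj (nat_lit 5) (nat_lit 0x10001) (nat_lit 0x4150) (nat_lit 0x10000000000010001000100000000)) (.non (nat_lit 0) (nat_lit 2) (nat_lit 0x5500) (nat_lit 0x10001000100010000000000000000))) (.non (nat_lit 0) (nat_lit 2) (nat_lit 0x4500) (nat_lit 0x10000000100010000000000000000)))) (.split (nat_lit 7) (nat_lit 4) (.split (nat_lit 7) (nat_lit 5) (.split (nat_lit 7) (nat_lit 6) (.unj (nat_lit 5) (nat_lit 0x10001) (nat_lit 0x4050) (nat_lit 0x10000000000000001000100000000)) (.non (nat_lit 0) (nat_lit 2) (nat_lit 0x5540) (nat_lit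 0x10001000100010001000000000000))) (.non (nat_lit 0) (nat_lit 2) (nat_lit 0x4540) (nat_lit 0x10000000100010001000000000000))) (.non (nat_lit 0) (nat_lit 2) (nat_lit 0x4140) (nat_lit 0x10000000000010001000000000000)))) (.star (nat_lit 7) (nat_lit 1) (nat_lit 2))) (.star (nat_lit 7) (nat_lit 0) (nat_lit 2)))) (.st (nat_lit 4) (nat_lit 1) (nat_lit 2) (nat_lit 0x1541) (nat_lit 0x1000200020001000000000001) (nat_lit 1) (nat_lit 1) (.st (nat_lit 5) (nat_lit 1) (nat_lit 2) (nat_lit 0x1501) (nat_lit 0x1000200010000000000000001) (nat_lit 1) (nat_lit 1) (.ex (nat_lit 2) t29_22 (.split (nat_lit 7) (nat_lit 0) (.split (nat_lit 7) (nat_lit 1) (.split (nat_lit 7) (nat_lit 4) (.split (nat_lit 7) (nat_lit 5) (.split (nat_lit 7) (nat_lit 3) (.split (nat_lit 7) (nat_lit 6) (.unj (nat_lit 5) (nat_lit 0x10001) (nat_lit 0x4150) (nat_lit 0x10000000000010002000200000000)) (.unj (nat_lit 5) (nat_lit 0x10001) (nat_lit 0x4150) (nat_lit 0x10000000000010002000200000000))) (.split (nat_lit 7) (nat_lit 6) (.unj (nat_lit 5) (nat_lit 0x10001)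 (nat_lit 0x4050) (nat_lit 0x10000000000000001000100000000)) (.non (nat_lit 0) (nat_lit 2) (nat_lit 0x5540) (nat_lit 0x10001000100010001000000000000)))) (.non (nat_lit 1) (nat_lit 2) (nat_lit 0x5501) (nat_lit 0x10001000200010000000000000001))) (.non (nat_lit 1) (nat_lit 2) (nat_lit 0x5541) (nat_lit 0x10001000200020001000000000001))) (.star (nat_lit 7) (nat_lit 1) (nat_lit 2))) (.star (nat_lit 7) (nat_lit 0) (nat_lit 2)))))))

noncomputable def t29_24 : Tr := (.ex (nat_lit 7) (.ex (nat_lit 0) (.leaf .nil (.cons (nat_lit 0x11111001) (nat_lit 0x110) (nat_lit 9) (nat_lit 0x20345001) (.cons (nat_lit 0x11110001) (nat_lit 0x1010) (nat_lit 8) (nat_lit 0x20340001) (.cons (nat_lit 0x11100001) (nat_lit 0x10010) (nat_lit 7) (nat_lit 0x30200001) (.cons (nat_lit 0x11000001) (nat_lit 0x100010) (nat_lit 1) (nat_lit 0x21000000) .nil))))) (.split (nat_lit 8) (nat_lit 2) (.split (nat_lit 8) (nat_lit 3) (.split (nat_lit 8) (nat_lit 4) (.split (nat_lit 8) (nat_lit 5) (.split (nat_lit 8) (nat_lit 6) (.split (nat_lit 8) (nat_lit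 7) (.split (nat_lit 8) (nat_lit 1) (.sup (nat_lit 0x100020007000b0010000d00000000) (nat_lit 0x200000000000000000000000000040004)) (.sup (nat_lit 0x10002000400060008000600000000) (nat_lit 0x100000000000000000000000000010001))) (.non (nat_lit 1) (nat_lit 2) (nat_lit 0x15001) (nat_lit 0x100010001000000000000000000000001))) (.non (nat_lit 1) (nat_lit 2) (nat_lit 0x11001) (nat_lit 0x100000001000000000000000000000001))) (.non (nat_lit 1) (nat_lit 2) (nat_lit 0x11401) (nat_lit 0x100000001000100000000000000000001))) (.non (nat_lit 1) (nat_lit 2) (nat_lit 0x11501) (nat_lit 0x100000001000100010000000000000001))) (.star (nat_lit 8) (nat_lit 0) (nat_lit 3))) (.star (nat_lit 8) (nat_lit 0) (nat_lit 2)))) (.split (nat_lit 8) (nat_lit 0) (.split (nat_lit 8) (nat_lit 2) (.split (nat_lit 8) (nat_lit 3) (.split (nat_lit 8) (nat_lit 4) (.split (nat_lit 8) (nat_lit 5) (.split (nat_lit 8) (nat_lit 6) (.split (nat_lit 8) (nat_lit 1) (.st (nat_lit 0) (nat_lit 1) (nat_lit 2) (nat_lit 0x15501) (nat_lit 0x100020003000200010000000000000002)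 (nat_lit 1) (nat_lit 1) (.st (nat_lit 7) (nat_lit 1) (nat_lit 2) (nat_lit 0x15401) (nat_lit 0x100020002000100000000000000000001) (nat_lit 1) (nat_lit 1) (.st (nat_lit 8) (nat_lit 1) (nat_lit 2) (nat_lit 0x15541) (nat_lit 0x200030004000300020001000000000002) (nat_lit 1) (nat_lit 1) (.split (nat_lit 8) (nat_lit 7) (.leaf .nil (.cons (nat_lit 0x111111001) (nat_lit 0x110) (nat_lit 0xd) (nat_lit 0x320456001) (.cons (nat_lit 0x111110001) (nat_lit 0x1010) (nat_lit 0xc) (nat_lit 0x540230001) (.cons (nat_lit 0x111100001) (nat_lit 0x10010) (nat_lit 8) (nat_lit 0x430200001) .nil)))) (.non (nat_lit 1) (nat_lit 2) (nat_lit 0x25401) (nat_lit 0x100020002000100000000000000000001)))))) (.sup (nat_lit 0x20007000b0010000d00000000) (nat_lit 0x200000000000000000000000000040003))) (.non (nat_lit 0) (nat_lit 2) (nat_lit 0x15000) (nat_lit 0x100010001000000000000000000000000))) (.non (nat_lit 0) (nat_lit 2) (nat_lit 0x15400) (nat_lit 0x100010001000100000000000000000000))) (.non (nat_lit 0) (nat_lit 2) (nat_lit 0x15500) (nat_lit 0x100010001000100010000000000000000)))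 (.non (nat_lit 0) (nat_lit 2) (nat_lit 0x15540) (nat_lit 0x100010001000100010001000000000000))) (.non (nat_lit 0) (nat_lit 4) (nat_lit 0x15050) (nat_lit 0x300020001000000000003000400000000))) (.non (nat_lit 1) (nat_lit 2) (nat_lit 0x15001) (nat_lit 0x100010001000000000000000000000001))))

noncomputable def t29_25 : Tr := (.ex (nat_lit 5) (.pd (.cons (nat_lit 0) (nat_lit 6) (nat_lit 0) (nat_lit 0x432210) (nat_lit 0xf423fb71aea2c2804737f423f00000) (.cons (nat_lit 1) (nat_lit 6) (nat_lit 0) (nat_lit 0x432200) (nat_lit 0xf423fb71aea2c280473700000f423f) .nil)) (.ex (nat_lit 6) (.ex (nat_lit 0) (.leaf .nil (.cons (nat_lit 0x1110001) (nat_lit 0x1010) (nat_lit 2) (nat_lit 0x1230000) (.cons (nat_lit 0x1100001) (nat_lit 0x10010) (nat_lit 1) (nat_lit 0x1200000) (.cons (nat_lit 0x1000001) (nat_lit 0x100010) (nat_lit 0) (nat_lit 0x1000000) .nil)))) (.split (nat_lit 7) (nat_lit 2) (.split (nat_lit 7) (nat_lit 3) (.split (nat_lit 7) (nat_lit 4) (.split (nat_lit 7) (nat_lit 5) (.split (nat_lit 7) (nat_lit 6) (.split (nat_lit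 7) (nat_lit 1) (.sup (nat_lit 0x20006000b0010000d00000000) (nat_lit 0x20000000000000000000000030003)) (.sup (nat_lit 0x1000400060008000600000000) (nat_lit 0x10000000000000000000000010001))) (.non (nat_lit 1) (nat_lit 2) (nat_lit 0x5001) (nat_lit 0x10001000000000000000000000001))) (.non (nat_lit 1) (nat_lit 2) (nat_lit 0x5401) (nat_lit 0x10001000100000000000000000001))) (.non (nat_lit 1) (nat_lit 2) (nat_lit 0x5501) (nat_lit 0x10001000100010000000000000001))) (.star (nat_lit 7) (nat_lit 0) (nat_lit 3))) (.star (nat_lit 7) (nat_lit 0) (nat_lit 2)))) (.split (nat_lit 7) (nat_lit 0) (.split (nat_lit 7) (nat_lit 2) (.split (nat_lit 7) (nat_lit 3) (.split (nat_lit 7) (nat_lit 4) (.split (nat_lit 7) (nat_lit 5) (.split (nat_lit 7) (nat_lit 1) (.st (nat_lit 6) (nat_lit 1) (nat_lit 2) (nat_lit 0x5401) (nat_lit 0x10002000100000000000000000001) (nat_lit 1) (nat_lit 1) (.split (nat_lit 7) (nat_lit 6) t29_24 (.non (nat_lit 1) (nat_lit 2) (nat_lit 0x9401) (nat_lit 0x10002000100000000000000000001)))) (.leaf .nil .nil)) (.non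 (nat_lit 0) (nat_lit 2) (nat_lit 0x5400) (nat_lit 0x10001000100000000000000000000))) (.non (nat_lit 0) (nat_lit 2) (nat_lit 0x5500) (nat_lit 0x10001000100010000000000000000))) (.non (nat_lit 0) (nat_lit 2) (nat_lit 0x5540) (nat_lit 0x10001000100010001000000000000))) (.non (nat_lit 0) (nat_lit 4) (nat_lit 0x5450) (nat_lit 0x30002000100000003000400000000))) (.non (nat_lit 1) (nat_lit 2) (nat_lit 0x5001) (nat_lit 0x10001000000000000000000000001))))) (.split (nat_lit 7) (nat_lit 0) (.split (nat_lit 7) (nat_lit 2) (.split (nat_lit 7) (nat_lit 3) (.split (nat_lit 7) (nat_lit 4) (.split (nat_lit 7) (nat_lit 6) (.split (nat_lit 7) (nat_lit 1) (.unj (nat_lit 5) (nat_lit 0x10001) (nat_lit 0x4550) (nat_lit 0x10000000200030004000300000000)) (.leaf (.cons (nat_lit 0x4550) (nat_lit 0x10000000200030004000300000000) .nil) .nil)) (.non (nat_lit 0) (nat_lit 2) (nat_lit 0x5400) (nat_lit 0x10001000100000000000000000000))) (.non (nat_lit 0) (nat_lit 2) (nat_lit 0x4500) (nat_lit 0x10000000100010000000000000000))) (.non (nat_lit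 0) (nat_lit 2) (nat_lit 0x4540) (nat_lit 0x10000000100010001000000000000))) (.non (nat_lit 0) (nat_lit 4) (nat_lit 0x5450) (nat_lit 0x30001000200000003000400000000))) (.non (nat_lit 1) (nat_lit 2) (nat_lit 0x5401) (nat_lit 0x10001000100000000000000000001))))

noncomputable def t29_26 : Tr := (.split (nat_lit 6) (nat_lit 0) (.split (nat_lit 6) (nat_lit 5) (.pd (.cons (nat_lit 0) (nat_lit 4) (nat_lit 0) (nat_lit 0x5502210) (nat_lit 0xf423fb71ae00000f423f54591f423f00000) (.cons (nat_lit 1) (nat_lit 4) (nat_lit 0) (nat_lit 0x602200) (nat_lit 0xb71aef423f00000f423f5459100000a2c28) .nil)) (.ex (nat_lit 4) (.pd (.cons (nat_lit 0) (nat_lit 5) (nat_lit 0) (nat_lit 0x6032210) (nat_lit 0xf423f00000f423fb71ae1f156f423f00000) (.cons (nat_lit 1) (nat_lit 5) (nat_lit 0) (nat_lit 0x32200) (nat_lit 0xf423f00000f423fb71ae1f15600000b71ae) .nil)) t29_25) (.split (nat_lit 7) (nat_lit 0) (.split (nat_lit 7) (nat_lit 3) (.split (nat_lit 7) (nat_lit 5) (.split (nat_lit 7) (nat_lit 6) (.split (nat_lit 7) (nat_lit 1) (.split (nat_lit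 7) (nat_lit 2) (.unj (nat_lit 5) (nat_lit 0x10001) (nat_lit 0x4550) (nat_lit 0x10000000100020002000200000000)) (.unj (nat_lit 5) (nat_lit 0x10001) (nat_lit 0x4150) (nat_lit 0x10000000000010001000100000000))) (.split (nat_lit 7) (nat_lit 2) (.split (nat_lit 7) (nat_lit 1) (.sup (nat_lit 0x200000005000b0010000d00000000) (nat_lit 0x2000000000000000000080008)) (.non (nat_lit 0) (nat_lit 2) (nat_lit 0x8a84) (nat_lit 0x20000000100020001000000020000))) (.star (nat_lit 7) (nat_lit 1) (nat_lit 2)))) (.non (nat_lit 0) (nat_lit 2) (nat_lit 0x5500) (nat_lit 0x10001000100010000000000000000))) (.non (nat_lit 0) (nat_lit 2) (nat_lit 0x4500) (nat_lit 0x10000000100010000000000000000))) (.non (nat_lit 0) (nat_lit 2) (nat_lit 0x4140) (nat_lit 0x10000000000010001000000000000))) (.non (nat_lit 1) (nat_lit 2) (nat_lit 0x5501) (nat_lit 0x10001000100010000000000000001))))) (.non (nat_lit 1) (nat_lit 2) (nat_lit 0x1a81) (nat_lit 0x4000300020001000000000002))) (.split (nat_lit 6) (nat_lit 0) (.split (nat_lit 6) (nat_lit 5) (.pd (.cons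 (nat_lit 0) (nat_lit 4) (nat_lit 0) (nat_lit 0x5502210) (nat_lit 0xf423fb71ae00000f423f54591f423f00000) (.cons (nat_lit 1) (nat_lit 4) (nat_lit 0) (nat_lit 0x602200) (nat_lit 0xb71aef423f00000f423f545910000051612) .nil)) (.st (nat_lit 4) (nat_lit 1) (nat_lit 2) (nat_lit 0x2a81) (nat_lit 0x2000200020001000000000002) (nat_lit 2) (nat_lit 1) (.pd (.cons (nat_lit 0) (nat_lit 5) (nat_lit 0) (nat_lit 0x6032210) (nat_lit 0xf423f00000f423fb71ae1f156f423f00000) (.cons (nat_lit 1) (nat_lit 5) (nat_lit 0) (nat_lit 0x32200) (nat_lit 0xf423f00000f423fb71ae1f156000007a11e) .nil)) (.st (nat_lit 5) (nat_lit 1) (nat_lit 2) (nat_lit 0x2a01) (nat_lit 0x2000200010000000000000002) (nat_lit 2) (nat_lit 1) (.pd (.cons (nat_lit 0) (nat_lit 6) (nat_lit 0) (nat_lit 0x432210) (nat_lit 0xf423fb71aea2c2804737f423f00000) (.cons (nat_lit 1) (nat_lit 6) (nat_lit 0) (nat_lit 0x432200) (nat_lit 0xf423fb71aea2c280473700000f423f) .nil)) (.st (nat_lit 0) (nat_lit 1) (nat_lit 2) (nat_lit 0x2a01) (nat_lit 0x3000200010000000000000004) (nat_lit 1)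 (nat_lit 2) (.st (nat_lit 6) (nat_lit 1) (nat_lit 2) (nat_lit 0x2801) (nat_lit 0x2000100000000000000000002) (nat_lit 2) (nat_lit 1) (.leaf .nil (.cons (nat_lit 0x1100001) (nat_lit 0x10010) (nat_lit 6) (nat_lit 0x1200000) .nil))))))))) (.non (nat_lit 1) (nat_lit 2) (nat_lit 0x2401) (nat_lit 0x1000100000000000000000001))) (.non (nat_lit 1) (nat_lit 2) (nat_lit 0x1541) (nat_lit 0x4000300020001000000000003))))

noncomputable def t29_27 : Tr := (.ex (nat_lit 2) (.ex (nat_lit 3) (.split (nat_lit 5) (nat_lit 1) (.split (nat_lit 6) (nat_lit 5) (.split (nat_lit 6) (nat_lit 0) (.pd (.cons (nat_lit 0) (nat_lit 4) (nat_lit 0) (nat_lit 0x5102210) (nat_lit 0xf423fb71ae00000f423f54591a2c2800000) (.cons (nat_lit 0) (nat_lit 5) (nat_lit 0) (nat_lit 0x6032210) (nat_lit 0xf423f00000f423fb71ae1f156f423f00000) (.cons (nat_lit 1) (nat_lit 4) (nat_lit 0) (nat_lit 0x602200) (nat_lit 0xb71aef423f00000f423f5459100000a2c28) (.cons (nat_lit 1) (nat_lit 5) (nat_lit 0) (nat_lit 0x32200) (nat_lit 0xf423f00000f423fb71ae1f15600000b71ae) (.cons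 (nat_lit 1) (nat_lit 6) (nat_lit 0) (nat_lit 0x432200) (nat_lit 0xf423fb71aea2c280473700000f423f) .nil))))) (.leaf (.cons (nat_lit 0x554) (nat_lit 0x200030004000300010000) .nil) .nil)) (.split (nat_lit 6) (nat_lit 0) (.pd (.cons (nat_lit 0) (nat_lit 4) (nat_lit 0) (nat_lit 0x5102210) (nat_lit 0xf423fb71ae00000f423f54591a2c2800000) (.cons (nat_lit 0) (nat_lit 5) (nat_lit 0) (nat_lit 0x6032210) (nat_lit 0xf423f00000f423fb71ae1f156f423f00000) (.cons (nat_lit 1) (nat_lit 4) (nat_lit 0) (nat_lit 0x602200) (nat_lit 0xb71aef423f00000f423f545910000051612) (.cons (nat_lit 1) (nat_lit 5) (nat_lit 0) (nat_lit 0x32200) (nat_lit 0xf423f00000f423fb71ae1f156000007a11e) (.cons (nat_lit 1) (nat_lit 6) (nat_lit 0) (nat_lit 0x432200) (nat_lit 0xf423fb71aea2c280473700000f423f) .nil))))) (.leaf (.cons (nat_lit 0x554) (nat_lit 0x200030004000300010000) .nil) .nil)) (.non (nat_lit 1) (nat_lit 2) (nat_lit 0x1541) (nat_lit 0x4000300020001000000000003)))) (.non (nat_lit 0) (nat_lit 2) (nat_lit 0x2504) (nat_lit 0x1000200010000000000010000)))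 (.non (nat_lit 0) (nat_lit 2) (nat_lit 0x2a04) (nat_lit 0x1000200010000000000020000))) (.split (nat_lit 7) (nat_lit 0) (.split (nat_lit 7) (nat_lit 1) (.split (nat_lit 7) (nat_lit 4) (.split (nat_lit 7) (nat_lit 5) (.split (nat_lit 7) (nat_lit 6) (.split (nat_lit 7) (nat_lit 2) (.unj (nat_lit 5) (nat_lit 0x10001) (nat_lit 0x4150) (nat_lit 0x10000000000010002000200000000)) (.unj (nat_lit 5) (nat_lit 0x10001) (nat_lit 0x4050) (nat_lit 0x10000000000000001000100000000))) (.non (nat_lit 0) (nat_lit 2) (nat_lit 0x5540) (nat_lit 0x10001000100010001000000000000))) (.non (nat_lit 0) (nat_lit 2) (nat_lit 0x4540) (nat_lit 0x10000000100010001000000000000))) (.non (nat_lit 0) (nat_lit 2) (nat_lit 0x4140) (nat_lit 0x10000000000010001000000000000))) (.star (nat_lit 7) (nat_lit 1) (nat_lit 3))) (.star (nat_lit 7) (nat_lit 0) (nat_lit 3)))) (.split (nat_lit 7) (nat_lit 0) (.split (nat_lit 7) (nat_lit 1) (.split (nat_lit 7) (nat_lit 4) (.split (nat_lit 7) (nat_lit 5) (.split (nat_lit 7) (nat_lit 3) (.split (nat_lit 7) (nat_lit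 6) (.unj (nat_lit 5) (nat_lit 0x10001) (nat_lit 0x4150) (nat_lit 0x10000000000010002000200000000)) (.unj (nat_lit 5) (nat_lit 0x10001) (nat_lit 0x4150) (nat_lit 0x10000000000010002000200000000))) (.split (nat_lit 7) (nat_lit 6) (.unj (nat_lit 5) (nat_lit 0x10001) (nat_lit 0x4050) (nat_lit 0x10000000000000001000100000000)) (.non (nat_lit 0) (nat_lit 2) (nat_lit 0x5540) (nat_lit 0x10001000100010001000000000000)))) (.non (nat_lit 0) (nat_lit 2) (nat_lit 0x5504) (nat_lit 0x10001000200010000000000010000))) (.non (nat_lit 0) (nat_lit 2) (nat_lit 0x5544) (nat_lit 0x10001000200020001000000010000))) (.star (nat_lit 7) (nat_lit 1) (nat_lit 2))) (.star (nat_lit 7) (nat_lit 0) (nat_lit 2))))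

noncomputable def t29_28 : Tr := (.split (nat_lit 5) (nat_lit 1) (.ex (nat_lit 2) (.ex (nat_lit 3) t29_26 (.split (nat_lit 7) (nat_lit 0) (.split (nat_lit 7) (nat_lit 1) (.split (nat_lit 7) (nat_lit 4) (.split (nat_lit 7) (nat_lit 5) (.split (nat_lit 7) (nat_lit 6) (.split (nat_lit 7) (nat_lit 2) (.unj (nat_lit 5) (nat_lit 0x10001) (nat_lit 0x4150) (nat_lit 0x10000000000010002000200000000)) (.unj (nat_lit 5) (nat_lit 0x10001) (nat_lit 0x4050) (nat_lit 0x10000000000000001000100000000))) (.non (nat_lit 0) (nat_lit 2) (nat_lit 0x5540) (nat_lit 0x10001000100010001000000000000))) (.non (nat_lit 0) (nat_lit 2) (nat_lit 0x4540) (nat_lit 0x10000000100010001000000000000))) (.non (nat_lit 0) (nat_lit 2) (nat_lit 0x4140) (nat_lit 0x10000000000010001000000000000))) (.star (nat_lit 7) (nat_lit 1) (nat_lit 3))) (.star (nat_lit 7) (nat_lit 0) (nat_lit 3)))) (.split (nat_lit 7) (nat_lit 0) (.split (nat_lit 7) (nat_lit 1) (.split (nat_lit 7) (nat_lit 3) (.split (nat_lit 7) (nat_lit 4) (.split (nat_lit 7) (nat_lit 5) (.split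 (nat_lit 7) (nat_lit 6) (.unj (nat_lit 5) (nat_lit 0x10001) (nat_lit 0x4150) (nat_lit 0x10000000000010002000200000000)) (.unj (nat_lit 5) (nat_lit 0x10001) (nat_lit 0x4150) (nat_lit 0x10000000000010002000200000000))) (.split (nat_lit 7) (nat_lit 6) (.unj (nat_lit 5) (nat_lit 0x10001) (nat_lit 0x4150) (nat_lit 0x10000000000010002000200000000)) (.non (nat_lit 0) (nat_lit 2) (nat_lit 0x5400) (nat_lit 0x10001000100000000000000000000)))) (.split (nat_lit 7) (nat_lit 5) (.split (nat_lit 7) (nat_lit 6) (.unj (nat_lit 5) (nat_lit 0x10001) (nat_lit 0x4150) (nat_lit 0x10000000000010001000100000000)) (.non (nat_lit 0) (nat_lit 2) (nat_lit 0x5500) (nat_lit 0x10001000100010000000000000000))) (.non (nat_lit 0) (nat_lit 2) (nat_lit 0x4500) (nat_lit 0x10000000100010000000000000000)))) (.split (nat_lit 7) (nat_lit 4) (.split (nat_lit 7) (nat_lit 5) (.split (nat_lit 7) (nat_lit 6) (.unj (nat_lit 5) (nat_lit 0x10001) (nat_lit 0x4050) (nat_lit 0x10000000000000001000100000000)) (.non (nat_lit 0) (nat_lit 2) (nat_lit 0x5540) (nat_lit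 0x10001000100010001000000000000))) (.non (nat_lit 0) (nat_lit 2) (nat_lit 0x4540) (nat_lit 0x10000000100010001000000000000))) (.non (nat_lit 0) (nat_lit 2) (nat_lit 0x4140) (nat_lit 0x10000000000010001000000000000)))) (.star (nat_lit 7) (nat_lit 1) (nat_lit 2))) (.star (nat_lit 7) (nat_lit 0) (nat_lit 2)))) (.st (nat_lit 4) (nat_lit 0) (nat_lit 2) (nat_lit 0x1544) (nat_lit 0x1000200020001000000010000) (nat_lit 1) (nat_lit 1) (.st (nat_lit 5) (nat_lit 0) (nat_lit 2) (nat_lit 0x1504) (nat_lit 0x1000200010000000000010000) (nat_lit 1) (nat_lit 1) t29_27)))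

noncomputable def t29_29 : Tr := (.split (nat_lit 6) (nat_lit 0) (.pd (.cons (nat_lit 0) (nat_lit 4) (nat_lit 0) (nat_lit 0x1602210) (nat_lit 0xb71aef423f00000f423f54591a2c2800000) (.cons (nat_lit 1) (nat_lit 4) (nat_lit 0) (nat_lit 0x602200) (nat_lit 0xb71aef423f00000f423f5459100000a2c28) .nil)) (.ex (nat_lit 4) (.pd (.cons (nat_lit 0) (nat_lit 5) (nat_lit 0) (nat_lit 0x1032210) (nat_lit 0xf423f00000f423fb71ae1f156b71ae00000) (.cons (nat_lit 1) (nat_lit 5) (nat_lit 0) (nat_lit 0x32200) (nat_lit 0xf423f00000f423fb71ae1f15600000b71ae) .nil)) (.ex (nat_lit 5) (.pd (.cons (nat_lit 0) (nat_lit 6) (nat_lit 0) (nat_lit 0x432210) (nat_lit 0xf423fb71aea2c2804737f423f00000) (.cons (nat_lit 1) (nat_lit 6) (nat_lit 0) (nat_lit 0x432200) (nat_lit 0xf423fb71aea2c280473700000f423f) .nil)) (.leaf .nil .nil)) (.split (nat_lit 7) (nat_lit 0) (.split (nat_lit 7) (nat_lit 1) (.split (nat_lit 7) (nat_lit 2) (.split (nat_lit 7) (nat_lit 3) (.split (nat_lit 7) (nat_lit 4) (.split (nat_lit 7) (nat_lit 6) (.unj (nat_lit 5) (nat_lit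 0x10001) (nat_lit 0x4550) (nat_lit 0x10000000200030004000300000000)) (.non (nat_lit 0) (nat_lit 2) (nat_lit 0x5400) (nat_lit 0x10001000100000000000000000000))) (.non (nat_lit 0) (nat_lit 2) (nat_lit 0x4500) (nat_lit 0x10000000100010000000000000000))) (.non (nat_lit 0) (nat_lit 2) (nat_lit 0x4540) (nat_lit 0x10000000100010001000000000000))) (.non (nat_lit 0) (nat_lit 4) (nat_lit 0x5450) (nat_lit 0x30001000200000003000400000000))) (.non (nat_lit 0) (nat_lit 2) (nat_lit 0x5404) (nat_lit 0x10001000100000000000000010000))) (.non (nat_lit 1) (nat_lit 2) (nat_lit 0x5401) (nat_lit 0x10001000100000000000000000001))))) (.split (nat_lit 7) (nat_lit 0) (.split (nat_lit 7) (nat_lit 1) (.split (nat_lit 7) (nat_lit 3) (.split (nat_lit 7) (nat_lit 5) (.split (nat_lit 7) (nat_lit 6) (.split (nat_lit 7) (nat_lit 2) (.unj (nat_lit 5) (nat_lit 0x10001) (nat_lit 0x4550) (nat_lit 0x10000000100020002000200000000)) (.unj (nat_lit 5) (nat_lit 0x10001) (nat_lit 0x4150) (nat_lit 0x10000000000010001000100000000))) (.non (nat_lit 0) (nat_lit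 2) (nat_lit 0x5500) (nat_lit 0x10001000100010000000000000000))) (.non (nat_lit 0) (nat_lit 2) (nat_lit 0x4500) (nat_lit 0x10000000100010000000000000000))) (.non (nat_lit 0) (nat_lit 2) (nat_lit 0x4140) (nat_lit 0x10000000000010001000000000000))) (.non (nat_lit 0) (nat_lit 2) (nat_lit 0x5504) (nat_lit 0x10001000100010000000000010000))) (.non (nat_lit 1) (nat_lit 2) (nat_lit 0x5501) (nat_lit 0x10001000100010000000000000001))))) (.split (nat_lit 6) (nat_lit 0) (.pd (.cons (nat_lit 0) (nat_lit 4) (nat_lit 0) (nat_lit 0x1602210) (nat_lit 0xb71aef423f00000f423f54591a2c2800000) (.cons (nat_lit 1) (nat_lit 4) (nat_lit 0) (nat_lit 0x602200) (nat_lit 0xb71aef423f00000f423f545910000051612) .nil)) (.st (nat_lit 4) (nat_lit 1) (nat_lit 2) (nat_lit 0x2a81) (nat_lit 0x2000200020001000000000002) (nat_lit 2) (nat_lit 1) (.pd (.cons (nat_lit 0) (nat_lit 5) (nat_lit 0) (nat_lit 0x1032210) (nat_lit 0xf423f00000f423fb71ae1f156b71ae00000) (.cons (nat_lit 1) (nat_lit 5) (nat_lit 0) (nat_lit 0x32200) (nat_lit 0xf423f00000f423fb71ae1f156000007a11e)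 .nil)) (.st (nat_lit 5) (nat_lit 1) (nat_lit 2) (nat_lit 0x2a01) (nat_lit 0x2000200010000000000000002) (nat_lit 2) (nat_lit 1) (.pd (.cons (nat_lit 0) (nat_lit 6) (nat_lit 0) (nat_lit 0x432210) (nat_lit 0xf423fb71aea2c2804737f423f00000) (.cons (nat_lit 1) (nat_lit 6) (nat_lit 0) (nat_lit 0x432200) (nat_lit 0xf423fb71aea2c280473700000f423f) .nil)) (.leaf .nil .nil)))))) (.non (nat_lit 1) (nat_lit 2) (nat_lit 0x1541) (nat_lit 0x4000300020001000000000003))))

noncomputable def t29_30 : Tr := (.ex (nat_lit 3) (.split (nat_lit 6) (nat_lit 1) (.split (nat_lit 6) (nat_lit 5) t29_29 (.non (nat_lit 0) (nat_lit 2) (nat_lit 0x1a84) (nat_lit 0x4000300020001000000020000))) (.split (nat_lit 6) (nat_lit 1) (.split (nat_lit 6) (nat_lit 5) (.split (nat_lit 6) (nat_lit 0) (.pd (.cons (nat_lit 0) (nat_lit 4) (nat_lit 0) (nat_lit 0x1602210) (nat_lit 0xb71aef423f00000f423f545915161200000) (.cons (nat_lit 1) (nat_lit 4) (nat_lit 0) (nat_lit 0x602200) (nat_lit 0xb71aef423f00000f423f5459100000a2c28) .nil)) (.st (nat_lit 4) (nat_lit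 0) (nat_lit 2) (nat_lit 0x2a84) (nat_lit 0x2000200020001000000020000) (nat_lit 2) (nat_lit 1) (.pd (.cons (nat_lit 0) (nat_lit 5) (nat_lit 0) (nat_lit 0x1032210) (nat_lit 0xf423f00000f423fb71ae1f1567a11e00000) (.cons (nat_lit 1) (nat_lit 5) (nat_lit 0) (nat_lit 0x32200) (nat_lit 0xf423f00000f423fb71ae1f15600000b71ae) .nil)) (.st (nat_lit 5) (nat_lit 0) (nat_lit 2) (nat_lit 0x2a04) (nat_lit 0x2000200010000000000020000) (nat_lit 2) (nat_lit 1) (.pd (.cons (nat_lit 0) (nat_lit 6) (nat_lit 0) (nat_lit 0x432210) (nat_lit 0xf423fb71aea2c2804737f423f00000) (.cons (nat_lit 1) (nat_lit 6) (nat_lit 0) (nat_lit 0x432200) (nat_lit 0xf423fb71aea2c280473700000f423f) .nil)) (.leaf .nil .nil)))))) (.split (nat_lit 6) (nat_lit 0) (.pd (.cons (nat_lit 0) (nat_lit 4) (nat_lit 0) (nat_lit 0x1602210) (nat_lit 0xb71aef423f00000f423f545915161200000) (.cons (nat_lit 1) (nat_lit 4) (nat_lit 0) (nat_lit 0x602200) (nat_lit 0xb71aef423f00000f423f545910000051612) .nil)) (.st (nat_lit 4) (nat_lit 0) (nat_lit 2) (nat_lit 0x2a84) (nat_lit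 0x2000200020001000000020000) (nat_lit 2) (nat_lit 1) (.pd (.cons (nat_lit 0) (nat_lit 5) (nat_lit 0) (nat_lit 0x1032210) (nat_lit 0xf423f00000f423fb71ae1f1567a11e00000) (.cons (nat_lit 1) (nat_lit 5) (nat_lit 0) (nat_lit 0x32200) (nat_lit 0xf423f00000f423fb71ae1f156000007a11e) .nil)) (.st (nat_lit 5) (nat_lit 0) (nat_lit 2) (nat_lit 0x2a04) (nat_lit 0x2000200010000000000020000) (nat_lit 2) (nat_lit 1) (.pd (.cons (nat_lit 0) (nat_lit 6) (nat_lit 0) (nat_lit 0x432210) (nat_lit 0xf423fb71aea2c2804737f423f00000) (.cons (nat_lit 1) (nat_lit 6) (nat_lit 0) (nat_lit 0x432200) (nat_lit 0xf423fb71aea2c280473700000f423f) .nil)) (.leaf .nil .nil)))))) (.non (nat_lit 1) (nat_lit 2) (nat_lit 0x1541) (nat_lit 0x4000300020001000000000003)))) (.non (nat_lit 0) (nat_lit 2) (nat_lit 0x2404) (nat_lit 0x1000100000000000000010000))) (.non (nat_lit 0) (nat_lit 2) (nat_lit 0x1544) (nat_lit 0x4000300020001000000030000)))) (.split (nat_lit 7) (nat_lit 0) (.split (nat_lit 7) (nat_lit 1) (.split (nat_lit 7) (nat_lit 4) (.split (nat_lit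 7) (nat_lit 5) (.split (nat_lit 7) (nat_lit 6) (.split (nat_lit 7) (nat_lit 2) (.unj (nat_lit 5) (nat_lit 0x10001) (nat_lit 0x4150) (nat_lit 0x10000000000010002000200000000)) (.unj (nat_lit 5) (nat_lit 0x10001) (nat_lit 0x4050) (nat_lit 0x10000000000000001000100000000))) (.non (nat_lit 0) (nat_lit 2) (nat_lit 0x5540) (nat_lit 0x10001000100010001000000000000))) (.non (nat_lit 0) (nat_lit 2) (nat_lit 0x4540) (nat_lit 0x10000000100010001000000000000))) (.non (nat_lit 0) (nat_lit 2) (nat_lit 0x4140) (nat_lit 0x10000000000010001000000000000))) (.star (nat_lit 7) (nat_lit 1) (nat_lit 3))) (.star (nat_lit 7) (nat_lit 0) (nat_lit 3))))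

noncomputable def t29 : Tr := (.split (nat_lit 6) (nat_lit 0) (.split (nat_lit 6) (nat_lit 1) t29_18 (.split (nat_lit 5) (nat_lit 1) t29_23 (.non (nat_lit 0) (nat_lit 2) (nat_lit 0x1404) (nat_lit 0x1000100000000000000010000)))) (.split (nat_lit 5) (nat_lit 0) (.split (nat_lit 6) (nat_lit 1) t29_28 (.split (nat_lit 5) (nat_lit 1) (.ex (nat_lit 2) t29_30 (.split (nat_lit 7) (nat_lit 0) (.split (nat_lit 7) (nat_lit 1) (.split (nat_lit 7) (nat_lit 3) (.split (nat_lit 7) (nat_lit 4) (.split (nat_lit 7) (nat_lit 5) (.split (nat_lit 7) (nat_lit 6) (.unj (nat_lit 5) (nat_lit 0x10001) (nat_lit 0x4150) (nat_lit 0x10000000000010002000200000000)) (.unj (nat_lit 5) (nat_lit 0x10001) (nat_lit 0x4150) (nat_lit 0x10000000000010002000200000000))) (.split (nat_lit 7) (nat_lit 6) (.unj (nat_lit 5) (nat_lit 0x10001) (nat_lit 0x4150) (nat_lit 0x10000000000010002000200000000)) (.non (nat_lit 0) (nat_lit 2) (nat_lit 0x5400) (nat_lit 0x10001000100000000000000000000)))) (.split (nat_lit 7) (nat_lit 5) (.split (nat_lit 7) (nat_lit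 6) (.unj (nat_lit 5) (nat_lit 0x10001) (nat_lit 0x4150) (nat_lit 0x10000000000010001000100000000)) (.non (nat_lit 0) (nat_lit 2) (nat_lit 0x5500) (nat_lit 0x10001000100010000000000000000))) (.non (nat_lit 0) (nat_lit 2) (nat_lit 0x4500) (nat_lit 0x10000000100010000000000000000)))) (.split (nat_lit 7) (nat_lit 4) (.split (nat_lit 7) (nat_lit 5) (.split (nat_lit 7) (nat_lit 6) (.unj (nat_lit 5) (nat_lit 0x10001) (nat_lit 0x4050) (nat_lit 0x10000000000000001000100000000)) (.non (nat_lit 0) (nat_lit 2) (nat_lit 0x5540) (nat_lit 0x10001000100010001000000000000))) (.non (nat_lit 0) (nat_lit 2) (nat_lit 0x4540) (nat_lit 0x10000000100010001000000000000))) (.non (nat_lit 0) (nat_lit 2) (nat_lit 0x4140) (nat_lit 0x10000000000010001000000000000)))) (.star (nat_lit 7) (nat_lit 1) (nat_lit 2))) (.star (nat_lit 7) (nat_lit 0) (nat_lit 2)))) (.non (nat_lit 0) (nat_lit 2) (nat_lit 0x1404) (nat_lit 0x1000100000000000000010000)))) (.non (nat_lit 1) (nat_lit 2) (nat_lit 0x1401) (nat_lit 0x1000100000000000000000001))))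

noncomputable def t30_1 : Tr := (.ex (nat_lit 7) (.ex (nat_lit 1) (.leaf .nil (.cons (nat_lit 0x11111010) (nat_lit 0x101) (nat_lit 9) (nat_lit 0x20345010) (.cons (nat_lit 0x11110010) (nat_lit 0x1001) (nat_lit 8) (nat_lit 0x20340010) (.cons (nat_lit 0x11100010) (nat_lit 0x10001) (nat_lit 7) (nat_lit 0x30200010) (.cons (nat_lit 0x11000010) (nat_lit 0x100001) (nat_lit 1) (nat_lit 0x21000000) .nil))))) (.split (nat_lit 8) (nat_lit 2) (.split (nat_lit 8) (nat_lit 3) (.split (nat_lit 8) (nat_lit 4) (.split (nat_lit 8) (nat_lit 5) (.split (nat_lit 8) (nat_lit 6) (.split (nat_lit 8) (nat_lit 7) (.split (nat_lit 8) (nat_lit 0) (.sup (nat_lit 0x100020007000b0010000d00000000) (nat_lit 0x200000000000000000000000000040004)) (.sup (nat_lit 0x10002000400060008000600000000) (nat_lit 0x100000000000000000000000000010001))) (.non (nat_lit 0) (nat_lit 2) (nat_lit 0x15004) (nat_lit 0x100010001000000000000000000010000))) (.non (nat_lit 0) (nat_lit 2) (nat_lit 0x11004) (nat_lit 0x100000001000000000000000000010000))) (.non (nat_lit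 0) (nat_lit 2) (nat_lit 0x11404) (nat_lit 0x100000001000100000000000000010000))) (.star (nat_lit 8) (nat_lit 1) (nat_lit 4))) (.non (nat_lit 0) (nat_lit 2) (nat_lit 0x11544) (nat_lit 0x100000001000100010001000000010000))) (.star (nat_lit 8) (nat_lit 1) (nat_lit 2)))) (.split (nat_lit 8) (nat_lit 1) (.split (nat_lit 8) (nat_lit 2) (.split (nat_lit 8) (nat_lit 3) (.split (nat_lit 8) (nat_lit 4) (.split (nat_lit 8) (nat_lit 5) (.split (nat_lit 8) (nat_lit 6) (.split (nat_lit 8) (nat_lit 0) (.st (nat_lit 1) (nat_lit 0) (nat_lit 2) (nat_lit 0x15504) (nat_lit 0x100020003000200010000000000020000) (nat_lit 1) (nat_lit 1) (.st (nat_lit 7) (nat_lit 0) (nat_lit 2) (nat_lit 0x15404) (nat_lit 0x100020002000100000000000000010000) (nat_lit 1) (nat_lit 1) (.st (nat_lit 8) (nat_lit 0) (nat_lit 2) (nat_lit 0x15544) (nat_lit 0x200030004000300020001000000020000) (nat_lit 1) (nat_lit 1) (.split (nat_lit 8) (nat_lit 7) (.leaf .nil (.cons (nat_lit 0x111111010) (nat_lit 0x101) (nat_lit 0xd) (nat_lit 0x320456010) (.cons (nat_lit 0x111110010)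 (nat_lit 0x1001) (nat_lit 0xc) (nat_lit 0x540230010) (.cons (nat_lit 0x111100010) (nat_lit 0x10001) (nat_lit 8) (nat_lit 0x430200010) .nil)))) (.non (nat_lit 0) (nat_lit 2) (nat_lit 0x25404) (nat_lit 0x100020002000100000000000000010000)))))) (.sup (nat_lit 0x20007000b0010000d00000000) (nat_lit 0x200000000000000000000000000030004))) (.non (nat_lit 0) (nat_lit 2) (nat_lit 0x15000) (nat_lit 0x100010001000000000000000000000000))) (.non (nat_lit 0) (nat_lit 2) (nat_lit 0x15400) (nat_lit 0x100010001000100000000000000000000))) (.non (nat_lit 0) (nat_lit 2) (nat_lit 0x15500) (nat_lit 0x100010001000100010000000000000000))) (.non (nat_lit 0) (nat_lit 2) (nat_lit 0x15540) (nat_lit 0x100010001000100010001000000000000))) (.non (nat_lit 0) (nat_lit 4) (nat_lit 0x15050) (nat_lit 0x300020001000000000003000400000000))) (.non (nat_lit 0) (nat_lit 2) (nat_lit 0x15004) (nat_lit 0x100010001000000000000000000010000))))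

noncomputable def t30_2 : Tr := (.ex (nat_lit 6) (.split (nat_lit 6) (nat_lit 1) (.split (nat_lit 6) (nat_lit 5) (.pd (.cons (nat_lit 0) (nat_lit 3) (nat_lit 0) (nat_lit 0x1650210) (nat_lit 0xa2c28b71aef423f00000f423f9896500000) (.cons (nat_lit 1) (nat_lit 3) (nat_lit 0) (nat_lit 0x5440200) (nat_lit 0xf423fb71aea2c2800000f423f00000f423f) .nil)) (.ex (nat_lit 1) (.leaf .nil (.cons (nat_lit 0x1110010) (nat_lit 0x1001) (nat_lit 2) (nat_lit 0x1230000) (.cons (nat_lit 0x1100010) (nat_lit 0x10001) (nat_lit 1) (nat_lit 0x1200000) (.cons (nat_lit 0x1000010) (nat_lit 0x100001) (nat_lit 0) (nat_lit 0x1000000) .nil)))) (.split (nat_lit 7) (nat_lit 2) (.split (nat_lit 7) (nat_lit 3) (.split (nat_lit 7) (nat_lit 4) (.split (nat_lit 7) (nat_lit 5) (.split (nat_lit 7) (nat_lit 6) (.split (nat_lit 7) (nat_lit 0) (.sup (nat_lit 0x20006000b0010000d00000000) (nat_lit 0x20000000000000000000000030003)) (.sup (nat_lit 0x1000400060008000600000000) (nat_lit 0x10000000000000000000000010001))) (.non (nat_lit 0) (nat_lit 2) (nat_lit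 0x5004) (nat_lit 0x10001000000000000000000010000))) (.non (nat_lit 0) (nat_lit 2) (nat_lit 0x5404) (nat_lit 0x10001000100000000000000010000))) (.star (nat_lit 7) (nat_lit 1) (nat_lit 4))) (.non (nat_lit 0) (nat_lit 2) (nat_lit 0x5544) (nat_lit 0x10001000100010001000000010000))) (.star (nat_lit 7) (nat_lit 1) (nat_lit 2))))) (.non (nat_lit 0) (nat_lit 2) (nat_lit 0x1a84) (nat_lit 0x4000300020001000000020000))) (.split (nat_lit 6) (nat_lit 1) (.split (nat_lit 6) (nat_lit 5) (.pd (.cons (nat_lit 0) (nat_lit 3) (nat_lit 0) (nat_lit 0x1650210) (nat_lit 0xa2c28b71aef423f00000f423f3d08b00000) (.cons (nat_lit 1) (nat_lit 3) (nat_lit 0) (nat_lit 0x5440200) (nat_lit 0xf423fb71aea2c2800000f423f00000f423f) .nil)) (.st (nat_lit 1) (nat_lit 0) (nat_lit 2) (nat_lit 0x2a04) (nat_lit 0x3000200010000000000040000) (nat_lit 1) (nat_lit 2) (.leaf .nil (.cons (nat_lit 0x1100010) (nat_lit 0x10001) (nat_lit 6) (nat_lit 0x1200000) .nil)))) (.non (nat_lit 0) (nat_lit 2) (nat_lit 0x2404) (nat_lit 0x1000100000000000000010000))) (.non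 (nat_lit 0) (nat_lit 2) (nat_lit 0x1544) (nat_lit 0x4000300020001000000030000)))) (.split (nat_lit 7) (nat_lit 1) (.split (nat_lit 7) (nat_lit 2) (.split (nat_lit 7) (nat_lit 3) (.split (nat_lit 7) (nat_lit 4) (.split (nat_lit 7) (nat_lit 5) (.split (nat_lit 7) (nat_lit 0) (.st (nat_lit 6) (nat_lit 0) (nat_lit 2) (nat_lit 0x5404) (nat_lit 0x10002000100000000000000010000) (nat_lit 1) (nat_lit 1) (.split (nat_lit 6) (nat_lit 1) (.split (nat_lit 6) (nat_lit 5) (.split (nat_lit 7) (nat_lit 6) (.pd (.cons (nat_lit 0) (nat_lit 3) (nat_lit 0) (nat_lit 0x61650210) (nat_lit 0xf423f65b97b71aef423f00000f423f61a7900000) (.cons (nat_lit 1) (nat_lit 3) (nat_lit 0) (nat_lit 0x65440200) (nat_lit 0xf423fb71aea2c289896500000f423f00000f423f) .nil)) t30_1) (.non (nat_lit 0) (nat_lit 2) (nat_lit 0x9404) (nat_lit 0x10002000100000000000000010000))) (.non (nat_lit 0) (nat_lit 2) (nat_lit 0xa540) (nat_lit 0x10002000300020001000000000000))) (.non (nat_lit 0) (nat_lit 2) (nat_lit 0xa804) (nat_lit 0x10002000100000000000000020000))))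 (.st (nat_lit 6) (nat_lit 0) (nat_lit 2) (nat_lit 0x5404) (nat_lit 0x10002000100000000000000010000) (nat_lit 1) (nat_lit 1) (.split (nat_lit 6) (nat_lit 1) (.split (nat_lit 6) (nat_lit 5) (.split (nat_lit 7) (nat_lit 6) (.split (nat_lit 7) (nat_lit 0) (.pd (.cons (nat_lit 0) (nat_lit 3) (nat_lit 0) (nat_lit 0x61650210) (nat_lit 0xf423f65b97b71aef423f00000f423f61a7900000) (.cons (nat_lit 1) (nat_lit 3) (nat_lit 0) (nat_lit 0x7650200) (nat_lit 0x98965a2c28b71aef423f00000f423f00000927bd) .nil)) (.leaf .nil .nil)) (.sup (nat_lit 0x20006000b0010000d00000000) (nat_lit 0x10000000000000000000000020003))) (.non (nat_lit 0) (nat_lit 2) (nat_lit 0x9404) (nat_lit 0x10002000100000000000000010000))) (.non (nat_lit 0) (nat_lit 2) (nat_lit 0xa540) (nat_lit 0x10002000300020001000000000000))) (.non (nat_lit 0) (nat_lit 2) (nat_lit 0xa804) (nat_lit 0x10002000100000000000000020000))))) (.non (nat_lit 0) (nat_lit 2) (nat_lit 0x5400) (nat_lit 0x10001000100000000000000000000))) (.non (nat_lit 0) (nat_lit 2) (nat_lit 0x5500) (nat_lit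 0x10001000100010000000000000000))) (.non (nat_lit 0) (nat_lit 2) (nat_lit 0x5540) (nat_lit 0x10001000100010001000000000000))) (.non (nat_lit 0) (nat_lit 4) (nat_lit 0x5450) (nat_lit 0x30002000100000003000400000000))) (.non (nat_lit 0) (nat_lit 2) (nat_lit 0x5004) (nat_lit 0x10001000000000000000000010000))))

noncomputable def t30_3 : Tr := (.ex (nat_lit 4) (.pd (.cons (nat_lit 0) (nat_lit 5) (nat_lit 0x1000010) (nat_lit 0x1032260) (nat_lit 0x100000f423fb71ae1f1560000100000) (.cons (nat_lit 1) (nat_lit 5) (nat_lit 0) (nat_lit 0x6032200) (nat_lit 0xf423f00000f423fb71ae1f15600000f423f) .nil)) (.ex (nat_lit 5) (.pd (.cons (nat_lit 0) (nat_lit 6) (nat_lit 0) (nat_lit 0x432210) (nat_lit 0xf423fb71aea2c2804737f423f00000) (.cons (nat_lit 1) (nat_lit 6) (nat_lit 0) (nat_lit 0x432200) (nat_lit 0xf423fb71aea2c280473700000f423f) .nil)) t30_2) (.split (nat_lit 7) (nat_lit 1) (.split (nat_lit 7) (nat_lit 2) (.split (nat_lit 7) (nat_lit 3) (.split (nat_lit 7) (nat_lit 4) (.split (nat_lit 7) (nat_lit 6) (.split (nat_lit 7)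 (nat_lit 0) (.unj (nat_lit 5) (nat_lit 0x10001) (nat_lit 0x4550) (nat_lit 0x10000000200030004000300000000)) (.st (nat_lit 5) (nat_lit 0) (nat_lit 2) (nat_lit 0x5500) (nat_lit 0x10001000200010000000000000000) (nat_lit 1) (nat_lit 1) (.st (nat_lit 6) (nat_lit 0) (nat_lit 2) (nat_lit 0x5504) (nat_lit 0x10002000200010000000000010000) (nat_lit 1) (nat_lit 1) (.st (nat_lit 7) (nat_lit 0) (nat_lit 2) (nat_lit 0x5544) (nat_lit 0x20002000300020001000000010000) (nat_lit 1) (nat_lit 1) (.split (nat_lit 6) (nat_lit 1) (.split (nat_lit 6) (nat_lit 5) (.split (nat_lit 7) (nat_lit 5) (.split (nat_lit 7) (nat_lit 0) (.pd (.cons (nat_lit 0) (nat_lit 3) (nat_lit 0) (nat_lit 0x51650210) (nat_lit 0xf423f7a11b7a11df423f00000f423f7a11900000) (.cons (nat_lit 1) (nat_lit 3) (nat_lit 0) (nat_lit 0x5750200) (nat_lit 0x7a11bf423f7a11df423f00000f423f000007a119) .nil)) (.leaf (.cons (nat_lit 0x4550) (nat_lit 0x10000000200030004000300000000) .nil) .nil)) (.non (nat_lit 1) (nat_lit 2) (nat_lit 0xaa01) (nat_lit 0x20001000200010000000000000002)))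 (.non (nat_lit 0) (nat_lit 2) (nat_lit 0x9500) (nat_lit 0x10001000200010000000000000000))) (.non (nat_lit 0) (nat_lit 2) (nat_lit 0x6500) (nat_lit 0x10001000200010000000000000000))) (.non (nat_lit 0) (nat_lit 2) (nat_lit 0xaa04) (nat_lit 0x10002000200010000000000020000))))))) (.non (nat_lit 0) (nat_lit 2) (nat_lit 0x5400) (nat_lit 0x10001000100000000000000000000))) (.non (nat_lit 0) (nat_lit 2) (nat_lit 0x4500) (nat_lit 0x10000000100010000000000000000))) (.non (nat_lit 0) (nat_lit 2) (nat_lit 0x4540) (nat_lit 0x10000000100010001000000000000))) (.non (nat_lit 0) (nat_lit 4) (nat_lit 0x5450) (nat_lit 0x30001000200000003000400000000))) (.non (nat_lit 0) (nat_lit 2) (nat_lit 0x5404) (nat_lit 0x10001000100000000000000010000))))) (.split (nat_lit 7) (nat_lit 0) (.split (nat_lit 7) (nat_lit 1) (.split (nat_lit 7) (nat_lit 3) (.split (nat_lit 7) (nat_lit 5) (.split (nat_lit 7) (nat_lit 6) (.split (nat_lit 7) (nat_lit 2) (.unj (nat_lit 5) (nat_lit 0x10001) (nat_lit 0x4550) (nat_lit 0x10000000100020002000200000000))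 (.unj (nat_lit 5) (nat_lit 0x10001) (nat_lit 0x4150) (nat_lit 0x10000000000010001000100000000))) (.non (nat_lit 0) (nat_lit 2) (nat_lit 0x5500) (nat_lit 0x10001000100010000000000000000))) (.non (nat_lit 0) (nat_lit 2) (nat_lit 0x4500) (nat_lit 0x10000000100010000000000000000))) (.non (nat_lit 0) (nat_lit 2) (nat_lit 0x4140) (nat_lit 0x10000000000010001000000000000))) (.star (nat_lit 7) (nat_lit 1) (nat_lit 4))) (.star (nat_lit 7) (nat_lit 0) (nat_lit 4))))

noncomputable def t30_4 : Tr := (.ex (nat_lit 7) (.ex (nat_lit 0) (.leaf .nil (.cons (nat_lit 0x11111001) (nat_lit 0x110) (nat_lit 9) (nat_lit 0x20345001) (.cons (nat_lit 0x11110001) (nat_lit 0x1010) (nat_lit 8) (nat_lit 0x20340001) (.cons (nat_lit 0x11100001) (nat_lit 0x10010) (nat_lit 7) (nat_lit 0x30200001) (.cons (nat_lit 0x11000001) (nat_lit 0x100010) (nat_lit 1) (nat_lit 0x21000000) .nil))))) (.split (nat_lit 8) (nat_lit 2) (.split (nat_lit 8) (nat_lit 3) (.split (nat_lit 8) (nat_lit 4) (.split (nat_lit 8) (nat_lit 5) (.split (nat_lit 8) (nat_lit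 6) (.split (nat_lit 8) (nat_lit 7) (.split (nat_lit 8) (nat_lit 1) (.sup (nat_lit 0x100020007000b0010000d00000000) (nat_lit 0x200000000000000000000000000040004)) (.sup (nat_lit 0x10002000400060008000600000000) (nat_lit 0x100000000000000000000000000010001))) (.non (nat_lit 1) (nat_lit 2) (nat_lit 0x15001) (nat_lit 0x100010001000000000000000000000001))) (.non (nat_lit 1) (nat_lit 2) (nat_lit 0x11001) (nat_lit 0x100000001000000000000000000000001))) (.non (nat_lit 1) (nat_lit 2) (nat_lit 0x11401) (nat_lit 0x100000001000100000000000000000001))) (.star (nat_lit 8) (nat_lit 0) (nat_lit 4))) (.non (nat_lit 1) (nat_lit 2) (nat_lit 0x11541) (nat_lit 0x100000001000100010001000000000001))) (.star (nat_lit 8) (nat_lit 0) (nat_lit 2)))) (.split (nat_lit 8) (nat_lit 0) (.split (nat_lit 8) (nat_lit 2) (.split (nat_lit 8) (nat_lit 3) (.split (nat_lit 8) (nat_lit 4) (.split (nat_lit 8) (nat_lit 5) (.split (nat_lit 8) (nat_lit 6) (.split (nat_lit 8) (nat_lit 1) (.st (nat_lit 0) (nat_lit 1) (nat_lit 2) (nat_lit 0x15501) (nat_lit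 0x100020003000200010000000000000002) (nat_lit 1) (nat_lit 1) (.st (nat_lit 7) (nat_lit 1) (nat_lit 2) (nat_lit 0x15401) (nat_lit 0x100020002000100000000000000000001) (nat_lit 1) (nat_lit 1) (.st (nat_lit 8) (nat_lit 1) (nat_lit 2) (nat_lit 0x15541) (nat_lit 0x200030004000300020001000000000002) (nat_lit 1) (nat_lit 1) (.split (nat_lit 8) (nat_lit 7) (.leaf .nil (.cons (nat_lit 0x111111001) (nat_lit 0x110) (nat_lit 0xd) (nat_lit 0x320456001) (.cons (nat_lit 0x111110001) (nat_lit 0x1010) (nat_lit 0xc) (nat_lit 0x540230001) (.cons (nat_lit 0x111100001) (nat_lit 0x10010) (nat_lit 8) (nat_lit 0x430200001) .nil)))) (.non (nat_lit 1) (nat_lit 2) (nat_lit 0x25401) (nat_lit 0x100020002000100000000000000000001)))))) (.sup (nat_lit 0x20007000b0010000d00000000) (nat_lit 0x200000000000000000000000000040003))) (.non (nat_lit 0) (nat_lit 2) (nat_lit 0x15000) (nat_lit 0x100010001000000000000000000000000))) (.non (nat_lit 0) (nat_lit 2) (nat_lit 0x15400) (nat_lit 0x100010001000100000000000000000000))) (.non (nat_lit 0) (nat_lit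 2) (nat_lit 0x15500) (nat_lit 0x100010001000100010000000000000000))) (.non (nat_lit 0) (nat_lit 2) (nat_lit 0x15540) (nat_lit 0x100010001000100010001000000000000))) (.non (nat_lit 0) (nat_lit 4) (nat_lit 0x15050) (nat_lit 0x300020001000000000003000400000000))) (.non (nat_lit 1) (nat_lit 2) (nat_lit 0x15001) (nat_lit 0x100010001000000000000000000000001))))

noncomputable def t30_5 : Tr := (.split (nat_lit 7) (nat_lit 2) (.split (nat_lit 7) (nat_lit 3) (.split (nat_lit 7) (nat_lit 4) (.split (nat_lit 7) (nat_lit 5) (.split (nat_lit 7) (nat_lit 1) (.st (nat_lit 6) (nat_lit 1) (nat_lit 2) (nat_lit 0x5401) (nat_lit 0x10002000100000000000000000001) (nat_lit 1) (nat_lit 1) (.split (nat_lit 6) (nat_lit 5) (.split (nat_lit 7) (nat_lit 6) (.split (nat_lit 6) (nat_lit 0) (.pd (.cons (nat_lit 0) (nat_lit 3) (nat_lit 0) (nat_lit 0x65440210) (nat_lit 0xf423fb71aea2c289896500000f423ff423f00000) (.cons (nat_lit 1) (nat_lit 3) (nat_lit 0) (nat_lit 0x60650200) (nat_lit 0xf423f65b97b71aef423f00000f423f0000061a79) .nil)) t30_4)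 (.non (nat_lit 1) (nat_lit 2) (nat_lit 0xa801) (nat_lit 0x10002000100000000000000000002))) (.non (nat_lit 1) (nat_lit 2) (nat_lit 0x9401) (nat_lit 0x10002000100000000000000000001))) (.non (nat_lit 0) (nat_lit 2) (nat_lit 0xa540) (nat_lit 0x10002000300020001000000000000)))) (.st (nat_lit 6) (nat_lit 1) (nat_lit 2) (nat_lit 0x5401) (nat_lit 0x10002000100000000000000000001) (nat_lit 1) (nat_lit 1) (.split (nat_lit 7) (nat_lit 1) (.split (nat_lit 6) (nat_lit 5) (.split (nat_lit 7) (nat_lit 6) (.split (nat_lit 6) (nat_lit 0) (.pd (.cons (nat_lit 0) (nat_lit 3) (nat_lit 0) (nat_lit 0x17650210) (nat_lit 0x98965a2c28b71aef423f00000f423f927bd00000) (.cons (nat_lit 1) (nat_lit 3) (nat_lit 0) (nat_lit 0x60650200) (nat_lit 0xf423f65b97b71aef423f00000f423f0000061a79) .nil)) (.leaf .nil .nil)) (.non (nat_lit 1) (nat_lit 2) (nat_lit 0xa801) (nat_lit 0x10002000100000000000000000002))) (.non (nat_lit 0) (nat_lit 2) (nat_lit 0x6a04) (nat_lit 0x40003000200010000000000020000))) (.non (nat_lit 0) (nat_lit 2) (nat_lit 0xa540) (nat_lit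 0x10002000300020001000000000000))) (.split (nat_lit 7) (nat_lit 1) (.split (nat_lit 7) (nat_lit 6) (.split (nat_lit 6) (nat_lit 0) (.sup (nat_lit 0x20006000b0010000d00000000) (nat_lit 0x10000000000000000000000030002)) (.non (nat_lit 1) (nat_lit 2) (nat_lit 0xa801) (nat_lit 0x10002000100000000000000000002))) (.non (nat_lit 0) (nat_lit 2) (nat_lit 0x9004) (nat_lit 0x10001000000000000000000010000))) (.non (nat_lit 0) (nat_lit 2) (nat_lit 0x5504) (nat_lit 0x40003000200010000000000030000)))))) (.non (nat_lit 0) (nat_lit 2) (nat_lit 0x5400) (nat_lit 0x10001000100000000000000000000))) (.non (nat_lit 0) (nat_lit 2) (nat_lit 0x5500) (nat_lit 0x10001000100010000000000000000))) (.non (nat_lit 0) (nat_lit 2) (nat_lit 0x5540) (nat_lit 0x10001000100010001000000000000))) (.non (nat_lit 0) (nat_lit 4) (nat_lit 0x5450) (nat_lit 0x30002000100000003000400000000)))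

noncomputable def t30_6 : Tr := (.ex (nat_lit 5) (.pd (.cons (nat_lit 0) (nat_lit 6) (nat_lit 0) (nat_lit 0x432210) (nat_lit 0xf423fb71aea2c2804737f423f00000) (.cons (nat_lit 1) (nat_lit 6) (nat_lit 0) (nat_lit 0x432200) (nat_lit 0xf423fb71aea2c280473700000f423f) .nil)) (.ex (nat_lit 6) (.split (nat_lit 6) (nat_lit 5) (.split (nat_lit 6) (nat_lit 0) (.pd (.cons (nat_lit 0) (nat_lit 3) (nat_lit 0) (nat_lit 0x5440210) (nat_lit 0xf423fb71aea2c2800000f423ff423f00000) (.cons (nat_lit 1) (nat_lit 3) (nat_lit 0) (nat_lit 0x650200) (nat_lit 0xa2c28b71aef423f00000f423f0000098965) .nil)) (.ex (nat_lit 0) (.leaf .nil (.cons (nat_lit 0x1110001) (nat_lit 0x1010) (nat_lit 2) (nat_lit 0x1230000) (.cons (nat_lit 0x1100001) (nat_lit 0x10010) (nat_lit 1) (nat_lit 0x1200000) (.cons (nat_lit 0x1000001) (nat_lit 0x100010) (nat_lit 0) (nat_lit 0x1000000) .nil)))) (.split (nat_lit 7) (nat_lit 2) (.split (nat_lit 7) (nat_lit 3) (.split (nat_lit 7) (nat_lit 4) (.split (nat_lit 7) (nat_lit 5) (.split (nat_lit 7) (nat_lit 6) (.split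 (nat_lit 7) (nat_lit 1) (.sup (nat_lit 0x20006000b0010000d00000000) (nat_lit 0x20000000000000000000000030003)) (.sup (nat_lit 0x1000400060008000600000000) (nat_lit 0x10000000000000000000000010001))) (.non (nat_lit 1) (nat_lit 2) (nat_lit 0x5001) (nat_lit 0x10001000000000000000000000001))) (.non (nat_lit 1) (nat_lit 2) (nat_lit 0x5401) (nat_lit 0x10001000100000000000000000001))) (.star (nat_lit 7) (nat_lit 0) (nat_lit 4))) (.non (nat_lit 1) (nat_lit 2) (nat_lit 0x5541) (nat_lit 0x10001000100010001000000000001))) (.star (nat_lit 7) (nat_lit 0) (nat_lit 2))))) (.split (nat_lit 6) (nat_lit 0) (.pd (.cons (nat_lit 0) (nat_lit 3) (nat_lit 0) (nat_lit 0x5440210) (nat_lit 0xf423fb71aea2c2800000f423ff423f00000) (.cons (nat_lit 1) (nat_lit 3) (nat_lit 0) (nat_lit 0x650200) (nat_lit 0xa2c28b71aef423f00000f423f000003d08b) .nil)) (.st (nat_lit 0) (nat_lit 1) (nat_lit 2) (nat_lit 0x2a01) (nat_lit 0x3000200010000000000000004) (nat_lit 1) (nat_lit 2) (.leaf .nil (.cons (nat_lit 0x1100001) (nat_lit 0x10010) (nat_lit 6) (nat_lit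 0x1200000) .nil)))) (.non (nat_lit 1) (nat_lit 2) (nat_lit 0x1541) (nat_lit 0x4000300020001000000000003)))) (.non (nat_lit 1) (nat_lit 2) (nat_lit 0x1a81) (nat_lit 0x4000300020001000000000002))) (.split (nat_lit 7) (nat_lit 0) t30_5 (.non (nat_lit 1) (nat_lit 2) (nat_lit 0x5001) (nat_lit 0x10001000000000000000000000001))))) (.split (nat_lit 7) (nat_lit 0) (.split (nat_lit 7) (nat_lit 2) (.split (nat_lit 7) (nat_lit 3) (.split (nat_lit 7) (nat_lit 4) (.split (nat_lit 7) (nat_lit 6) (.split (nat_lit 7) (nat_lit 1) (.unj (nat_lit 5) (nat_lit 0x10001) (nat_lit 0x4550) (nat_lit 0x10000000200030004000300000000)) (.st (nat_lit 5) (nat_lit 0) (nat_lit 2) (nat_lit 0x5500) (nat_lit 0x10001000200010000000000000000) (nat_lit 1) (nat_lit 1) (.st (nat_lit 6) (nat_lit 0) (nat_lit 2) (nat_lit 0x5544) (nat_lit 0x20002000300020001000000010000) (nat_lit 1) (nat_lit 1) (.st (nat_lit 7) (nat_lit 0) (nat_lit 2) (nat_lit 0x5504) (nat_lit 0x20001000200010000000000010000) (nat_lit 1) (nat_lit 1) (.split (nat_lit 7) (nat_lit 1) (.split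 (nat_lit 6) (nat_lit 5) (.split (nat_lit 7) (nat_lit 5) (.split (nat_lit 6) (nat_lit 0) (.pd (.cons (nat_lit 0) (nat_lit 3) (nat_lit 0) (nat_lit 0x15750210) (nat_lit 0x7a11bf423f7a11df423f00000f423f7a11900000) (.cons (nat_lit 1) (nat_lit 3) (nat_lit 0) (nat_lit 0x50650200) (nat_lit 0xf423f7a11b7a11df423f00000f423f000007a119) .nil)) (.leaf (.cons (nat_lit 0x4550) (nat_lit 0x10000000200030004000300000000) .nil) .nil)) (.non (nat_lit 1) (nat_lit 2) (nat_lit 0xaa01) (nat_lit 0x10002000200010000000000000002))) (.non (nat_lit 0) (nat_lit 2) (nat_lit 0x9500) (nat_lit 0x10001000200010000000000000000))) (.non (nat_lit 0) (nat_lit 2) (nat_lit 0x6500) (nat_lit 0x10001000200010000000000000000))) (.non (nat_lit 0) (nat_lit 2) (nat_lit 0xaa04) (nat_lit 0x20001000200010000000000020000))))))) (.non (nat_lit 0) (nat_lit 2) (nat_lit 0x5400) (nat_lit 0x10001000100000000000000000000))) (.non (nat_lit 0) (nat_lit 2) (nat_lit 0x4500) (nat_lit 0x10000000100010000000000000000))) (.non (nat_lit 0) (nat_lit 2) (nat_lit 0x4540) (nat_lit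 0x10000000100010001000000000000))) (.non (nat_lit 0) (nat_lit 4) (nat_lit 0x5450) (nat_lit 0x30001000200000003000400000000))) (.non (nat_lit 1) (nat_lit 2) (nat_lit 0x5401) (nat_lit 0x10001000100000000000000000001))))

noncomputable def t30_7 : Tr := (.ex (nat_lit 2) (.ex (nat_lit 3) (.ex (nat_lit 4) (.pd (.cons (nat_lit 0) (nat_lit 5) (nat_lit 0) (nat_lit 0x6032210) (nat_lit 0xf423f00000f423fb71ae1f156f423f00000) (.cons (nat_lit 1) (nat_lit 5) (nat_lit 0x1000001) (nat_lit 0x32206) (nat_lit 0x100000f423fb71ae1f1560000000001) .nil)) t30_6) (.split (nat_lit 7) (nat_lit 0) (.split (nat_lit 7) (nat_lit 1) (.split (nat_lit 7) (nat_lit 3) (.split (nat_lit 7) (nat_lit 5) (.split (nat_lit 7) (nat_lit 6) (.split (nat_lit 7) (nat_lit 2) (.unj (nat_lit 5) (nat_lit 0x10001) (nat_lit 0x4550) (nat_lit 0x10000000100020002000200000000)) (.unj (nat_lit 5) (nat_lit 0x10001) (nat_lit 0x4150) (nat_lit 0x10000000000010001000100000000))) (.non (nat_lit 0) (nat_lit 2) (nat_lit 0x5500) (nat_lit 0x10001000100010000000000000000)))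 (.non (nat_lit 0) (nat_lit 2) (nat_lit 0x4500) (nat_lit 0x10000000100010000000000000000))) (.non (nat_lit 0) (nat_lit 2) (nat_lit 0x4140) (nat_lit 0x10000000000010001000000000000))) (.star (nat_lit 7) (nat_lit 1) (nat_lit 4))) (.star (nat_lit 7) (nat_lit 0) (nat_lit 4)))) (.split (nat_lit 7) (nat_lit 0) (.split (nat_lit 7) (nat_lit 2) (.split (nat_lit 7) (nat_lit 4) (.split (nat_lit 7) (nat_lit 5) (.split (nat_lit 7) (nat_lit 6) (.split (nat_lit 7) (nat_lit 1) (.unj (nat_lit 5) (nat_lit 0x10001) (nat_lit 0x4150) (nat_lit 0x10000000000010002000200000000)) (.split (nat_lit 7) (nat_lit 1) (.sup (nat_lit 0x20000000100040008000600000000) (nat_lit 0x2000000000000000000050006)) (.non (nat_lit 0) (nat_lit 4) (nat_lit 0x4054) (nat_lit 0x10000000000000001000100010000)))) (.non (nat_lit 0) (nat_lit 2) (nat_lit 0x5540) (nat_lit 0x10001000100010001000000000000))) (.non (nat_lit 0) (nat_lit 2) (nat_lit 0x4540) (nat_lit 0x10000000100010001000000000000))) (.non (nat_lit 0) (nat_lit 2) (nat_lit 0x4140) (nat_lit 0x10000000000010001000000000000)))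 (.non (nat_lit 0) (nat_lit 4) (nat_lit 0x4050) (nat_lit 0x10000000000000001000100000000))) (.non (nat_lit 1) (nat_lit 2) (nat_lit 0x5541) (nat_lit 0x10001000100010001000000000001)))) (.split (nat_lit 7) (nat_lit 0) (.split (nat_lit 7) (nat_lit 1) (.split (nat_lit 7) (nat_lit 3) (.split (nat_lit 7) (nat_lit 5) (.split (nat_lit 7) (nat_lit 6) (.split (nat_lit 7) (nat_lit 4) (.unj (nat_lit 5) (nat_lit 0x10001) (nat_lit 0x4150) (nat_lit 0x10000000000010002000200000000)) (.unj (nat_lit 5) (nat_lit 0x10001) (nat_lit 0x4150) (nat_lit 0x10000000000010001000100000000))) (.non (nat_lit 0) (nat_lit 4) (nat_lit 0x5450) (nat_lit 0x30002000100000003000400000000))) (.non (nat_lit 0) (nat_lit 4) (nat_lit 0x5450) (nat_lit 0x30001000200000003000400000000))) (.non (nat_lit 0) (nat_lit 4) (nat_lit 0x4050) (nat_lit 0x10000000000000001000100000000))) (.star (nat_lit 7) (nat_lit 1) (nat_lit 2))) (.star (nat_lit 7) (nat_lit 0) (nat_lit 2))))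

noncomputable def t30_8 : Tr := (.ex (nat_lit 6) (.split (nat_lit 6) (nat_lit 1) (.split (nat_lit 6) (nat_lit 5) (.split (nat_lit 6) (nat_lit 0) (.pd (.cons (nat_lit 0) (nat_lit 3) (nat_lit 0) (nat_lit 0x1650210) (nat_lit 0xa2c28b71aef423f00000f423f9896500000) (.cons (nat_lit 1) (nat_lit 3) (nat_lit 0) (nat_lit 0x650200) (nat_lit 0xa2c28b71aef423f00000f423f0000098965) .nil)) (.leaf .nil .nil)) (.split (nat_lit 6) (nat_lit 0) (.pd (.cons (nat_lit 0) (nat_lit 3) (nat_lit 0) (nat_lit 0x1650210) (nat_lit 0xa2c28b71aef423f00000f423f9896500000) (.cons (nat_lit 1) (nat_lit 3) (nat_lit 0) (nat_lit 0x650200) (nat_lit 0xa2c28b71aef423f00000f423f000003d08b) .nil)) (.leaf .nil .nil)) (.non (nat_lit 1) (nat_lit 2) (nat_lit 0x1541) (nat_lit 0x4000300020001000000000003)))) (.non (nat_lit 0) (nat_lit 2) (nat_lit 0x1a84) (nat_lit 0x4000300020001000000020000))) (.split (nat_lit 6) (nat_lit 1) (.split (nat_lit 6) (nat_lit 5) (.split (nat_lit 6) (nat_lit 0) (.pd (.cons (nat_lit 0) (nat_lit 3) (nat_lit 0) (nat_lit 0x1650210)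 (nat_lit 0xa2c28b71aef423f00000f423f3d08b00000) (.cons (nat_lit 1) (nat_lit 3) (nat_lit 0) (nat_lit 0x650200) (nat_lit 0xa2c28b71aef423f00000f423f0000098965) .nil)) (.leaf .nil .nil)) (.split (nat_lit 6) (nat_lit 0) (.pd (.cons (nat_lit 0) (nat_lit 3) (nat_lit 0) (nat_lit 0x1650210) (nat_lit 0xa2c28b71aef423f00000f423f3d08b00000) (.cons (nat_lit 1) (nat_lit 3) (nat_lit 0) (nat_lit 0x650200) (nat_lit 0xa2c28b71aef423f00000f423f000003d08b) .nil)) (.leaf .nil .nil)) (.non (nat_lit 1) (nat_lit 2) (nat_lit 0x1541) (nat_lit 0x4000300020001000000000003)))) (.non (nat_lit 0) (nat_lit 2) (nat_lit 0x2404) (nat_lit 0x1000100000000000000010000))) (.non (nat_lit 0) (nat_lit 2) (nat_lit 0x1544) (nat_lit 0x4000300020001000000030000)))) (.split (nat_lit 7) (nat_lit 0) (.split (nat_lit 7) (nat_lit 1) (.split (nat_lit 7) (nat_lit 2) (.split (nat_lit 7) (nat_lit 3) (.split (nat_lit 7) (nat_lit 4) (.split (nat_lit 7) (nat_lit 5) (.st (nat_lit 6) (nat_lit 0) (nat_lit 2) (nat_lit 0x5404) (nat_lit 0x10002000100000000000000010000)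 (nat_lit 1) (nat_lit 1) (.split (nat_lit 6) (nat_lit 1) (.split (nat_lit 6) (nat_lit 5) (.split (nat_lit 7) (nat_lit 6) (.split (nat_lit 6) (nat_lit 0) (.pd (.cons (nat_lit 0) (nat_lit 3) (nat_lit 0) (nat_lit 0x61650210) (nat_lit 0xf423f65b97b71aef423f00000f423f61a7900000) (.cons (nat_lit 1) (nat_lit 3) (nat_lit 0) (nat_lit 0x60650200) (nat_lit 0xf423f65b97b71aef423f00000f423f0000061a79) .nil)) (.leaf .nil .nil)) (.non (nat_lit 1) (nat_lit 2) (nat_lit 0xa801) (nat_lit 0x10002000100000000000000000002))) (.non (nat_lit 0) (nat_lit 2) (nat_lit 0x9404) (nat_lit 0x10002000100000000000000010000))) (.non (nat_lit 0) (nat_lit 2) (nat_lit 0xa540) (nat_lit 0x10002000300020001000000000000))) (.non (nat_lit 0) (nat_lit 2) (nat_lit 0xa804) (nat_lit 0x10002000100000000000000020000)))) (.non (nat_lit 0) (nat_lit 2) (nat_lit 0x5400) (nat_lit 0x10001000100000000000000000000))) (.non (nat_lit 0) (nat_lit 2) (nat_lit 0x5500) (nat_lit 0x10001000100010000000000000000))) (.non (nat_lit 0) (nat_lit 2) (nat_lit 0x5540) (nat_lit 0x10001000100010001000000000000)))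 (.non (nat_lit 0) (nat_lit 4) (nat_lit 0x5450) (nat_lit 0x30002000100000003000400000000))) (.non (nat_lit 0) (nat_lit 2) (nat_lit 0x5004) (nat_lit 0x10001000000000000000000010000))) (.non (nat_lit 1) (nat_lit 2) (nat_lit 0x5001) (nat_lit 0x10001000000000000000000000001))))

noncomputable def t30_9 : Tr := (.ex (nat_lit 3) (.ex (nat_lit 4) (.pd (.cons (nat_lit 0) (nat_lit 5) (nat_lit 0x1000010) (nat_lit 0x1032260) (nat_lit 0x100000f423fb71ae1f1560000100000) (.cons (nat_lit 1) (nat_lit 5) (nat_lit 0x1000001) (nat_lit 0x32206) (nat_lit 0x100000f423fb71ae1f1560000000001) .nil)) (.ex (nat_lit 5) (.pd (.cons (nat_lit 0) (nat_lit 6) (nat_lit 0) (nat_lit 0x432210) (nat_lit 0xf423fb71aea2c2804737f423f00000) (.cons (nat_lit 1) (nat_lit 6) (nat_lit 0) (nat_lit 0x432200) (nat_lit 0xf423fb71aea2c280473700000f423f) .nil)) t30_8) (.split (nat_lit 7) (nat_lit 0) (.split (nat_lit 7) (nat_lit 1) (.split (nat_lit 7) (nat_lit 2) (.split (nat_lit 7) (nat_lit 3) (.split (nat_lit 7) (nat_lit 4) (.split (nat_lit 7) (nat_lit 6) (.unj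 (nat_lit 5) (nat_lit 0x10001) (nat_lit 0x4550) (nat_lit 0x10000000200030004000300000000)) (.non (nat_lit 0) (nat_lit 2) (nat_lit 0x5400) (nat_lit 0x10001000100000000000000000000))) (.non (nat_lit 0) (nat_lit 2) (nat_lit 0x4500) (nat_lit 0x10000000100010000000000000000))) (.non (nat_lit 0) (nat_lit 2) (nat_lit 0x4540) (nat_lit 0x10000000100010001000000000000))) (.non (nat_lit 0) (nat_lit 4) (nat_lit 0x5450) (nat_lit 0x30001000200000003000400000000))) (.non (nat_lit 0) (nat_lit 2) (nat_lit 0x5404) (nat_lit 0x10001000100000000000000010000))) (.non (nat_lit 1) (nat_lit 2) (nat_lit 0x5401) (nat_lit 0x10001000100000000000000000001))))) (.split (nat_lit 7) (nat_lit 0) (.split (nat_lit 7) (nat_lit 1) (.split (nat_lit 7) (nat_lit 3) (.split (nat_lit 7) (nat_lit 5) (.split (nat_lit 7) (nat_lit 6) (.split (nat_lit 7) (nat_lit 2) (.unj (nat_lit 5) (nat_lit 0x10001) (nat_lit 0x4550) (nat_lit 0x10000000100020002000200000000)) (.unj (nat_lit 5) (nat_lit 0x10001) (nat_lit 0x4150) (nat_lit 0x10000000000010001000100000000)))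 (.non (nat_lit 0) (nat_lit 2) (nat_lit 0x5500) (nat_lit 0x10001000100010000000000000000))) (.non (nat_lit 0) (nat_lit 2) (nat_lit 0x4500) (nat_lit 0x10000000100010000000000000000))) (.non (nat_lit 0) (nat_lit 2) (nat_lit 0x4140) (nat_lit 0x10000000000010001000000000000))) (.star (nat_lit 7) (nat_lit 1) (nat_lit 4))) (.star (nat_lit 7) (nat_lit 0) (nat_lit 4)))) (.split (nat_lit 7) (nat_lit 0) (.split (nat_lit 7) (nat_lit 1) (.split (nat_lit 7) (nat_lit 2) (.split (nat_lit 7) (nat_lit 4) (.split (nat_lit 7) (nat_lit 5) (.split (nat_lit 7) (nat_lit 6) (.unj (nat_lit 5) (nat_lit 0x10001) (nat_lit 0x4150) (nat_lit 0x10000000000010002000200000000)) (.non (nat_lit 0) (nat_lit 2) (nat_lit 0x5540) (nat_lit 0x10001000100010001000000000000))) (.non (nat_lit 0) (nat_lit 2) (nat_lit 0x4540) (nat_lit 0x10000000100010001000000000000))) (.non (nat_lit 0) (nat_lit 2) (nat_lit 0x4140) (nat_lit 0x10000000000010001000000000000))) (.non (nat_lit 0) (nat_lit 4) (nat_lit 0x4050) (nat_lit 0x10000000000000001000100000000))) (.non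 (nat_lit 0) (nat_lit 2) (nat_lit 0x5544) (nat_lit 0x10001000100010001000000010000))) (.non (nat_lit 1) (nat_lit 2) (nat_lit 0x5541) (nat_lit 0x10001000100010001000000000001))))

noncomputable def t30 : Tr := (.split (nat_lit 6) (nat_lit 0) (.split (nat_lit 6) (nat_lit 1) .uj (.ex (nat_lit 2) (.ex (nat_lit 3) t30_3 (.split (nat_lit 7) (nat_lit 1) (.split (nat_lit 7) (nat_lit 2) (.split (nat_lit 7) (nat_lit 4) (.split (nat_lit 7) (nat_lit 5) (.split (nat_lit 7) (nat_lit 6) (.split (nat_lit 7) (nat_lit 0) (.unj (nat_lit 5) (nat_lit 0x10001) (nat_lit 0x4150) (nat_lit 0x10000000000010002000200000000)) (.split (nat_lit 7) (nat_lit 0) (.sup (nat_lit 0x20000000100040008000600000000) (nat_lit 0x2000000000000000000060005)) (.non (nat_lit 1) (nat_lit 4) (nat_lit 0x4051) (nat_lit 0x10000000000000001000100000001)))) (.non (nat_lit 0) (nat_lit 2) (nat_lit 0x5540) (nat_lit 0x10001000100010001000000000000))) (.non (nat_lit 0) (nat_lit 2) (nat_lit 0x4540) (nat_lit 0x10000000100010001000000000000))) (.non (nat_lit 0) (nat_lit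 2) (nat_lit 0x4140) (nat_lit 0x10000000000010001000000000000))) (.non (nat_lit 0) (nat_lit 4) (nat_lit 0x4050) (nat_lit 0x10000000000000001000100000000))) (.non (nat_lit 0) (nat_lit 2) (nat_lit 0x5544) (nat_lit 0x10001000100010001000000010000)))) (.split (nat_lit 7) (nat_lit 0) (.split (nat_lit 7) (nat_lit 1) (.split (nat_lit 7) (nat_lit 3) (.split (nat_lit 7) (nat_lit 5) (.split (nat_lit 7) (nat_lit 6) (.split (nat_lit 7) (nat_lit 4) (.unj (nat_lit 5) (nat_lit 0x10001) (nat_lit 0x4150) (nat_lit 0x10000000000010002000200000000)) (.unj (nat_lit 5) (nat_lit 0x10001) (nat_lit 0x4150) (nat_lit 0x10000000000010001000100000000))) (.non (nat_lit 0) (nat_lit 4) (nat_lit 0x5450) (nat_lit 0x30002000100000003000400000000))) (.non (nat_lit 0) (nat_lit 4) (nat_lit 0x5450) (nat_lit 0x30001000200000003000400000000))) (.non (nat_lit 0) (nat_lit 4) (nat_lit 0x4050) (nat_lit 0x10000000000000001000100000000))) (.star (nat_lit 7) (nat_lit 1) (nat_lit 2))) (.star (nat_lit 7) (nat_lit 0) (nat_lit 2))))) (.split (nat_lit 6) (nat_lit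 1) t30_7 (.ex (nat_lit 2) t30_9 (.split (nat_lit 7) (nat_lit 0) (.split (nat_lit 7) (nat_lit 1) (.split (nat_lit 7) (nat_lit 3) (.split (nat_lit 7) (nat_lit 5) (.split (nat_lit 7) (nat_lit 6) (.split (nat_lit 7) (nat_lit 4) (.unj (nat_lit 5) (nat_lit 0x10001) (nat_lit 0x4150) (nat_lit 0x10000000000010002000200000000)) (.unj (nat_lit 5) (nat_lit 0x10001) (nat_lit 0x4150) (nat_lit 0x10000000000010001000100000000))) (.non (nat_lit 0) (nat_lit 4) (nat_lit 0x5450) (nat_lit 0x30002000100000003000400000000))) (.non (nat_lit 0) (nat_lit 4) (nat_lit 0x5450) (nat_lit 0x30001000200000003000400000000))) (.non (nat_lit 0) (nat_lit 4) (nat_lit 0x4050) (nat_lit 0x10000000000000001000100000000))) (.star (nat_lit 7) (nat_lit 1) (nat_lit 2))) (.star (nat_lit 7) (nat_lit 0) (nat_lit 2))))))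

noncomputable def t33_1 : Tr := (.split (nat_lit 6) (nat_lit 1) (.split (nat_lit 6) (nat_lit 5) (.pd (.cons (nat_lit 0) (nat_lit 2) (nat_lit 0) (nat_lit 0x1654010) (nat_lit 0x98965a2c28b71aef423f00000927bd00000) (.cons (nat_lit 1) (nat_lit 2) (nat_lit 0) (nat_lit 0x5433000) (nat_lit 0xf423fb71aea2c28989650000000000f423f) .nil)) (.ex (nat_lit 1) (.leaf .nil (.cons (nat_lit 0x1110010) (nat_lit 0x1001) (nat_lit 2) (nat_lit 0x1230000) (.cons (nat_lit 0x1100010) (nat_lit 0x10001) (nat_lit 1) (nat_lit 0x1200000) (.cons (nat_lit 0x1000010) (nat_lit 0x100001) (nat_lit 0) (nat_lit 0x1000000) .nil)))) (.split (nat_lit 7) (nat_lit 2) (.split (nat_lit 7) (nat_lit 3) (.split (nat_lit 7) (nat_lit 4) (.split (nat_lit 7) (nat_lit 5) (.split (nat_lit 7) (nat_lit 6) (.split (nat_lit 7) (nat_lit 0) (.sup (nat_lit 0x20006000b0010000d00000000) (nat_lit 0x20000000000000000000000030003)) (.sup (nat_lit 0x1000400060008000600000000) (nat_lit 0x10000000000000000000000010001))) (.non (nat_lit 0) (nat_lit 3) (nat_lit 0x5004) (nat_lit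 0x10001000000000000000000010000))) (.non (nat_lit 0) (nat_lit 3) (nat_lit 0x5404) (nat_lit 0x10001000100000000000000010000))) (.star (nat_lit 7) (nat_lit 1) (nat_lit 4))) (.star (nat_lit 7) (nat_lit 1) (nat_lit 3))) (.non (nat_lit 0) (nat_lit 4) (nat_lit 0x5054) (nat_lit 0x30001000000000003000400020000))))) (.split (nat_lit 6) (nat_lit 5) (.pd (.cons (nat_lit 1) (nat_lit 2) (nat_lit 0) (nat_lit 0x5433000) (nat_lit 0xf423f7a11e7a11c7a11a0000000000f423f) .nil) (.st (nat_lit 1) (nat_lit 0) (nat_lit 3) (nat_lit 0x1a04) (nat_lit 0x3000200010000000000020000) (nat_lit 1) (nat_lit 1) (.leaf (.cons (nat_lit 0x1a84) (nat_lit 0x4000300020001000000020000) .nil) (.cons (nat_lit 0x1100010) (nat_lit 0x10001) (nat_lit 6) (nat_lit 0x1000020) .nil)))) (.non (nat_lit 0) (nat_lit 3) (nat_lit 0x1504) (nat_lit 0x2000200010000000000010000)))) (.split (nat_lit 6) (nat_lit 1) (.split (nat_lit 6) (nat_lit 5) (.pd (.cons (nat_lit 0) (nat_lit 2) (nat_lit 0) (nat_lit 0x1654010) (nat_lit 0x98965a2c28b71aef423f0000030d3b00000) (.cons (nat_lit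 1) (nat_lit 2) (nat_lit 0) (nat_lit 0x5433000) (nat_lit 0xf423fb71aea2c28989650000000000f423f) .nil)) (.st (nat_lit 1) (nat_lit 0) (nat_lit 3) (nat_lit 0x2a04) (nat_lit 0x3000200010000000000040000) (nat_lit 1) (nat_lit 2) (.leaf .nil (.cons (nat_lit 0x1100010) (nat_lit 0x10001) (nat_lit 6) (nat_lit 0x1200000) .nil)))) (.non (nat_lit 0) (nat_lit 3) (nat_lit 0x2404) (nat_lit 0x1000100000000000000010000))) (.split (nat_lit 6) (nat_lit 5) (.pd (.cons (nat_lit 1) (nat_lit 2) (nat_lit 0) (nat_lit 0x5433000) (nat_lit 0xf423fb71aea2c28989650000000000f423f) .nil) (.st (nat_lit 1) (nat_lit 0) (nat_lit 3) (nat_lit 0x1404) (nat_lit 0x2000100000000000000020000) (nat_lit 1) (nat_lit 1) (.split (nat_lit 6) (nat_lit 1) (.leaf (.cons (nat_lit 0x1544) (nat_lit 0x4000300020001000000030000) .nil) (.cons (nat_lit 0x1110010) (nat_lit 0x1001) (nat_lit 0x10) (nat_lit 0x1230000) .nil)) (.non (nat_lit 0) (nat_lit 3) (nat_lit 0x3c04) (nat_lit 0x2000100000000000000030000))))) (.non (nat_lit 0) (nat_lit 3) (nat_lit 0x1404) (nat_lit 0x1000100000000000000010000)))))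

noncomputable def t33_2 : Tr := (.ex (nat_lit 7) (.ex (nat_lit 1) (.leaf .nil (.cons (nat_lit 0x11111010) (nat_lit 0x101) (nat_lit 9) (nat_lit 0x20345010) (.cons (nat_lit 0x11110010) (nat_lit 0x1001) (nat_lit 8) (nat_lit 0x20340010) (.cons (nat_lit 0x11100010) (nat_lit 0x10001) (nat_lit 7) (nat_lit 0x30200010) (.cons (nat_lit 0x11000010) (nat_lit 0x100001) (nat_lit 1) (nat_lit 0x21000000) .nil))))) (.split (nat_lit 8) (nat_lit 2) (.split (nat_lit 8) (nat_lit 3) (.split (nat_lit 8) (nat_lit 4) (.split (nat_lit 8) (nat_lit 5) (.split (nat_lit 8) (nat_lit 6) (.split (nat_lit 8) (nat_lit 7) (.split (nat_lit 8) (nat_lit 0) (.sup (nat_lit 0x100020007000b0010000d00000000) (nat_lit 0x200000000000000000000000000040004)) (.sup (nat_lit 0x10002000400060008000600000000) (nat_lit 0x100000000000000000000000000010001))) (.non (nat_lit 0) (nat_lit 3) (nat_lit 0x15004) (nat_lit 0x100010001000000000000000000010000))) (.non (nat_lit 0) (nat_lit 3) (nat_lit 0x11004) (nat_lit 0x100000001000000000000000000010000))) (.non (nat_lit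 0) (nat_lit 3) (nat_lit 0x11404) (nat_lit 0x100000001000100000000000000010000))) (.star (nat_lit 8) (nat_lit 1) (nat_lit 4))) (.star (nat_lit 8) (nat_lit 1) (nat_lit 3))) (.non (nat_lit 0) (nat_lit 4) (nat_lit 0x11054) (nat_lit 0x300000001000000000003000400020000)))) (.split (nat_lit 8) (nat_lit 1) (.split (nat_lit 8) (nat_lit 2) (.split (nat_lit 8) (nat_lit 3) (.split (nat_lit 8) (nat_lit 4) (.split (nat_lit 8) (nat_lit 5) (.split (nat_lit 8) (nat_lit 6) (.split (nat_lit 8) (nat_lit 0) (.st (nat_lit 1) (nat_lit 0) (nat_lit 3) (nat_lit 0x15504) (nat_lit 0x100020003000200010000000000020000) (nat_lit 1) (nat_lit 1) (.st (nat_lit 7) (nat_lit 0) (nat_lit 3) (nat_lit 0x15404) (nat_lit 0x100020002000100000000000000010000) (nat_lit 1) (nat_lit 1) (.st (nat_lit 8) (nat_lit 0) (nat_lit 2) (nat_lit 0x15544) (nat_lit 0x200030004000300020001000000020000) (nat_lit 1) (nat_lit 1) (.split (nat_lit 8) (nat_lit 7) (.leaf .nil (.cons (nat_lit 0x111111010) (nat_lit 0x101) (nat_lit 0xd) (nat_lit 0x320456010) (.cons (nat_lit 0x111110010)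 (nat_lit 0x1001) (nat_lit 0xc) (nat_lit 0x540230010) (.cons (nat_lit 0x111100010) (nat_lit 0x10001) (nat_lit 8) (nat_lit 0x430200010) .nil)))) (.non (nat_lit 0) (nat_lit 3) (nat_lit 0x25404) (nat_lit 0x100020002000100000000000000010000)))))) (.sup (nat_lit 0x20007000b0010000d00000000) (nat_lit 0x200000000000000000000000000030004))) (.non (nat_lit 0) (nat_lit 3) (nat_lit 0x15000) (nat_lit 0x100010001000000000000000000000000))) (.non (nat_lit 0) (nat_lit 3) (nat_lit 0x15400) (nat_lit 0x100010001000100000000000000000000))) (.non (nat_lit 0) (nat_lit 3) (nat_lit 0x15500) (nat_lit 0x100010001000100010000000000000000))) (.non (nat_lit 0) (nat_lit 4) (nat_lit 0x15050) (nat_lit 0x300020001000000000004000300000000))) (.non (nat_lit 0) (nat_lit 4) (nat_lit 0x15050) (nat_lit 0x300020001000000000003000400000000))) (.non (nat_lit 0) (nat_lit 3) (nat_lit 0x15004) (nat_lit 0x100010001000000000000000000010000))))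

noncomputable def t33_3 : Tr := (.pd (.cons (nat_lit 0) (nat_lit 6) (nat_lit 0) (nat_lit 0x432210) (nat_lit 0xf423fb71aea2c2804737f423f00000) (.cons (nat_lit 1) (nat_lit 6) (nat_lit 0) (nat_lit 0x432200) (nat_lit 0xf423fb71aea2c280473700000f423f) .nil)) (.ex (nat_lit 6) t33_1 (.split (nat_lit 7) (nat_lit 1) (.split (nat_lit 7) (nat_lit 2) (.split (nat_lit 7) (nat_lit 3) (.split (nat_lit 7) (nat_lit 4) (.split (nat_lit 7) (nat_lit 5) (.split (nat_lit 7) (nat_lit 0) (.st (nat_lit 6) (nat_lit 0) (nat_lit 3) (nat_lit 0x5404) (nat_lit 0x10002000100000000000000010000) (nat_lit 1) (nat_lit 1) (.split (nat_lit 6) (nat_lit 1) (.split (nat_lit 6) (nat_lit 5) (.split (nat_lit 7) (nat_lit 6) (.pd (.cons (nat_lit 0) (nat_lit 2) (nat_lit 0) (nat_lit 0x61654010) (nat_lit 0xf423f5b8d4a2c28b71aef423f000005160d00000) (.cons (nat_lit 1) (nat_lit 2) (nat_lit 0) (nat_lit 0x65433000) (nat_lit 0xf423fb71aea2c2898965927bd0000000000f423f) .nil)) t33_2) (.non (nat_lit 0) (nat_lit 3) (nat_lit 0x9404) (nat_lit 0x10002000100000000000000010000)))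 (.non (nat_lit 0) (nat_lit 3) (nat_lit 0x5804) (nat_lit 0x10002000100000000000000010000))) (.non (nat_lit 0) (nat_lit 3) (nat_lit 0xa804) (nat_lit 0x10002000100000000000000020000)))) (.st (nat_lit 6) (nat_lit 0) (nat_lit 3) (nat_lit 0x5404) (nat_lit 0x10002000100000000000000010000) (nat_lit 1) (nat_lit 1) (.split (nat_lit 6) (nat_lit 1) (.split (nat_lit 6) (nat_lit 5) (.split (nat_lit 7) (nat_lit 6) (.split (nat_lit 7) (nat_lit 0) (.pd (.cons (nat_lit 0) (nat_lit 2) (nat_lit 0) (nat_lit 0x61654010) (nat_lit 0xf423f5b8d4a2c28b71aef423f000005160d00000) (.cons (nat_lit 1) (nat_lit 2) (nat_lit 0) (nat_lit 0x7654000) (nat_lit 0x927bd98965a2c28b71aef423f00000000008e6a2) .nil)) (.leaf .nil .nil)) (.sup (nat_lit 0x20006000b0010000d00000000) (nat_lit 0x10000000000000000000000020003))) (.non (nat_lit 0) (nat_lit 3) (nat_lit 0x9404) (nat_lit 0x10002000100000000000000010000))) (.non (nat_lit 0) (nat_lit 3) (nat_lit 0x5804) (nat_lit 0x10002000100000000000000010000))) (.non (nat_lit 0) (nat_lit 3) (nat_lit 0xa804) (nat_lit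 0x10002000100000000000000020000))))) (.non (nat_lit 0) (nat_lit 3) (nat_lit 0x5400) (nat_lit 0x10001000100000000000000000000))) (.non (nat_lit 0) (nat_lit 3) (nat_lit 0x5500) (nat_lit 0x10001000100010000000000000000))) (.non (nat_lit 0) (nat_lit 4) (nat_lit 0x5450) (nat_lit 0x30002000100000004000300000000))) (.non (nat_lit 0) (nat_lit 4) (nat_lit 0x5450) (nat_lit 0x30002000100000003000400000000))) (.non (nat_lit 0) (nat_lit 3) (nat_lit 0x5004) (nat_lit 0x10001000000000000000000010000)))))

noncomputable def t33_4 : Tr := (.ex (nat_lit 4) (.pd (.cons (nat_lit 0) (nat_lit 5) (nat_lit 0x1000010) (nat_lit 0x1032260) (nat_lit 0x100000f423fb71ae1f1560000100000) (.cons (nat_lit 1) (nat_lit 5) (nat_lit 0) (nat_lit 0x6032200) (nat_lit 0xf423f00000f423fb71ae1f15600000f423f) .nil)) (.ex (nat_lit 5) t33_3 (.split (nat_lit 7) (nat_lit 1) (.split (nat_lit 7) (nat_lit 2) (.split (nat_lit 7) (nat_lit 3) (.split (nat_lit 7) (nat_lit 4) (.split (nat_lit 7) (nat_lit 6) (.split (nat_lit 7) (nat_lit 0) (.unj (nat_lit 5) (nat_lit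 0x10001) (nat_lit 0x4550) (nat_lit 0x10000000200030004000300000000)) (.st (nat_lit 5) (nat_lit 0) (nat_lit 3) (nat_lit 0x5500) (nat_lit 0x10001000200010000000000000000) (nat_lit 1) (nat_lit 1) (.st (nat_lit 6) (nat_lit 0) (nat_lit 3) (nat_lit 0x5504) (nat_lit 0x10002000200010000000000010000) (nat_lit 1) (nat_lit 1) (.st (nat_lit 7) (nat_lit 1) (nat_lit 3) (nat_lit 0x5501) (nat_lit 0x20001000200010000000000000001) (nat_lit 1) (nat_lit 1) (.split (nat_lit 6) (nat_lit 1) (.split (nat_lit 6) (nat_lit 5) (.split (nat_lit 7) (nat_lit 5) (.split (nat_lit 7) (nat_lit 0) (.pd (.cons (nat_lit 0) (nat_lit 2) (nat_lit 0) (nat_lit 0x51654010) (nat_lit 0xf423f61a7965b97b71aef423f000005b8cc00000) (.cons (nat_lit 1) (nat_lit 2) (nat_lit 0) (nat_lit 0x5754000) (nat_lit 0x61a79f423f65b97b71aef423f00000000005b8cc) .nil)) (.leaf (.cons (nat_lit 0x4550) (nat_lit 0x10000000200030004000300000000) .nil) .nil)) (.non (nat_lit 1) (nat_lit 3) (nat_lit 0xaa01) (nat_lit 0x20001000200010000000000000002))) (.non (nat_lit 0) (nat_lit 3)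 (nat_lit 0x9500) (nat_lit 0x10001000200010000000000000000))) (.non (nat_lit 0) (nat_lit 3) (nat_lit 0x6500) (nat_lit 0x10001000200010000000000000000))) (.non (nat_lit 0) (nat_lit 3) (nat_lit 0xaa04) (nat_lit 0x10002000200010000000000020000))))))) (.non (nat_lit 0) (nat_lit 3) (nat_lit 0x5400) (nat_lit 0x10001000100000000000000000000))) (.non (nat_lit 0) (nat_lit 3) (nat_lit 0x4500) (nat_lit 0x10000000100010000000000000000))) (.non (nat_lit 0) (nat_lit 4) (nat_lit 0x5450) (nat_lit 0x30001000200000004000300000000))) (.non (nat_lit 0) (nat_lit 4) (nat_lit 0x5450) (nat_lit 0x30001000200000003000400000000))) (.non (nat_lit 0) (nat_lit 3) (nat_lit 0x5404) (nat_lit 0x10001000100000000000000010000))))) (.split (nat_lit 7) (nat_lit 0) (.split (nat_lit 7) (nat_lit 1) (.split (nat_lit 7) (nat_lit 5) (.split (nat_lit 7) (nat_lit 6) (.split (nat_lit 7) (nat_lit 2) (.split (nat_lit 7) (nat_lit 3) (.unj (nat_lit 5) (nat_lit 0x10001) (nat_lit 0x4550) (nat_lit 0x10000000100020002000200000000)) (.unj (nat_lit 5) (nat_lit 0x10001)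 (nat_lit 0x4140) (nat_lit 0x10000000000010001000000000000))) (.split (nat_lit 7) (nat_lit 3) (.unj (nat_lit 5) (nat_lit 0x10001) (nat_lit 0x4150) (nat_lit 0x10000000000010001000100000000)) (.non (nat_lit 0) (nat_lit 4) (nat_lit 0x4050) (nat_lit 0x10000000000000001000100000000)))) (.non (nat_lit 0) (nat_lit 3) (nat_lit 0x5500) (nat_lit 0x10001000100010000000000000000))) (.non (nat_lit 0) (nat_lit 3) (nat_lit 0x4500) (nat_lit 0x10000000100010000000000000000))) (.star (nat_lit 7) (nat_lit 1) (nat_lit 4))) (.star (nat_lit 7) (nat_lit 0) (nat_lit 4))))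

noncomputable def t33_5 : Tr := (.split (nat_lit 6) (nat_lit 5) (.split (nat_lit 6) (nat_lit 0) (.pd (.cons (nat_lit 0) (nat_lit 2) (nat_lit 0) (nat_lit 0x5433010) (nat_lit 0xf423fb71aea2c289896500000f423f00000) (.cons (nat_lit 1) (nat_lit 2) (nat_lit 0) (nat_lit 0x654000) (nat_lit 0x98965a2c28b71aef423f0000000000927bd) .nil)) (.ex (nat_lit 0) (.leaf .nil (.cons (nat_lit 0x1110001) (nat_lit 0x1010) (nat_lit 2) (nat_lit 0x1230000) (.cons (nat_lit 0x1100001) (nat_lit 0x10010) (nat_lit 1) (nat_lit 0x1200000) (.cons (nat_lit 0x1000001) (nat_lit 0x100010) (nat_lit 0) (nat_lit 0x1000000) .nil)))) (.split (nat_lit 7) (nat_lit 2) (.split (nat_lit 7) (nat_lit 3) (.split (nat_lit 7) (nat_lit 4) (.split (nat_lit 7) (nat_lit 5) (.split (nat_lit 7) (nat_lit 6) (.split (nat_lit 7) (nat_lit 1) (.sup (nat_lit 0x20006000b0010000d00000000) (nat_lit 0x20000000000000000000000030003)) (.sup (nat_lit 0x1000400060008000600000000) (nat_lit 0x10000000000000000000000010001))) (.non (nat_lit 1) (nat_lit 3) (nat_lit 0x5001) (nat_lit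 0x10001000000000000000000000001))) (.non (nat_lit 1) (nat_lit 3) (nat_lit 0x5401) (nat_lit 0x10001000100000000000000000001))) (.star (nat_lit 7) (nat_lit 0) (nat_lit 4))) (.star (nat_lit 7) (nat_lit 0) (nat_lit 3))) (.non (nat_lit 1) (nat_lit 4) (nat_lit 0x5051) (nat_lit 0x30001000000000003000400000002))))) (.split (nat_lit 6) (nat_lit 0) (.pd (.cons (nat_lit 0) (nat_lit 2) (nat_lit 0) (nat_lit 0x5433010) (nat_lit 0xf423fb71aea2c289896500000f423f00000) (.cons (nat_lit 1) (nat_lit 2) (nat_lit 0) (nat_lit 0x654000) (nat_lit 0x98965a2c28b71aef423f000000000030d3b) .nil)) (.st (nat_lit 0) (nat_lit 1) (nat_lit 3) (nat_lit 0x2a01) (nat_lit 0x3000200010000000000000004) (nat_lit 1) (nat_lit 2) (.leaf .nil (.cons (nat_lit 0x1100001) (nat_lit 0x10010) (nat_lit 6) (nat_lit 0x1200000) .nil)))) (.pd (.cons (nat_lit 0) (nat_lit 2) (nat_lit 0) (nat_lit 0x5433010) (nat_lit 0xf423fb71aea2c289896500000f423f00000) .nil) (.st (nat_lit 0) (nat_lit 1) (nat_lit 3) (nat_lit 0x1401) (nat_lit 0x2000100000000000000000002) (nat_lit 1)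 (nat_lit 1) (.split (nat_lit 6) (nat_lit 0) (.leaf (.cons (nat_lit 0x1541) (nat_lit 0x4000300020001000000000003) .nil) (.cons (nat_lit 0x1110001) (nat_lit 0x1010) (nat_lit 0x10) (nat_lit 0x1230000) .nil)) (.non (nat_lit 1) (nat_lit 3) (nat_lit 0x3c01) (nat_lit 0x2000100000000000000000003))))))) (.split (nat_lit 6) (nat_lit 5) (.pd (.cons (nat_lit 0) (nat_lit 2) (nat_lit 0) (nat_lit 0x5433010) (nat_lit 0xf423f7a11e7a11c7a11a00000f423f00000) .nil) (.st (nat_lit 0) (nat_lit 1) (nat_lit 3) (nat_lit 0x1a01) (nat_lit 0x3000200010000000000000002) (nat_lit 1) (nat_lit 1) (.split (nat_lit 6) (nat_lit 0) (.leaf (.cons (nat_lit 0x1a81) (nat_lit 0x4000300020001000000000002) .nil) (.cons (nat_lit 0x1100001) (nat_lit 0x10010) (nat_lit 6) (nat_lit 0x1000002) .nil)) (.non (nat_lit 1) (nat_lit 3) (nat_lit 0x2401) (nat_lit 0x1000100000000000000000001))))) (.non (nat_lit 1) (nat_lit 3) (nat_lit 0x1501) (nat_lit 0x2000200010000000000000001))))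

noncomputable def t33_6 : Tr := (.ex (nat_lit 7) (.ex (nat_lit 0) (.leaf .nil (.cons (nat_lit 0x11111001) (nat_lit 0x110) (nat_lit 9) (nat_lit 0x20345001) (.cons (nat_lit 0x11110001) (nat_lit 0x1010) (nat_lit 8) (nat_lit 0x20340001) (.cons (nat_lit 0x11100001) (nat_lit 0x10010) (nat_lit 7) (nat_lit 0x30200001) (.cons (nat_lit 0x11000001) (nat_lit 0x100010) (nat_lit 1) (nat_lit 0x21000000) .nil))))) (.split (nat_lit 8) (nat_lit 2) (.split (nat_lit 8) (nat_lit 3) (.split (nat_lit 8) (nat_lit 4) (.split (nat_lit 8) (nat_lit 5) (.split (nat_lit 8) (nat_lit 6) (.split (nat_lit 8) (nat_lit 7) (.split (nat_lit 8) (nat_lit 1) (.sup (nat_lit 0x100020007000b0010000d00000000) (nat_lit 0x200000000000000000000000000040004)) (.sup (nat_lit 0x10002000400060008000600000000) (nat_lit 0x100000000000000000000000000010001))) (.non (nat_lit 1) (nat_lit 3) (nat_lit 0x15001) (nat_lit 0x100010001000000000000000000000001))) (.non (nat_lit 1) (nat_lit 3) (nat_lit 0x11001) (nat_lit 0x100000001000000000000000000000001))) (.non (nat_lit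 1) (nat_lit 3) (nat_lit 0x11401) (nat_lit 0x100000001000100000000000000000001))) (.star (nat_lit 8) (nat_lit 0) (nat_lit 4))) (.star (nat_lit 8) (nat_lit 0) (nat_lit 3))) (.non (nat_lit 1) (nat_lit 4) (nat_lit 0x11051) (nat_lit 0x300000001000000000003000400000002)))) (.split (nat_lit 8) (nat_lit 0) (.split (nat_lit 8) (nat_lit 2) (.split (nat_lit 8) (nat_lit 3) (.split (nat_lit 8) (nat_lit 4) (.split (nat_lit 8) (nat_lit 5) (.split (nat_lit 8) (nat_lit 6) (.split (nat_lit 8) (nat_lit 1) (.st (nat_lit 0) (nat_lit 1) (nat_lit 3) (nat_lit 0x15501) (nat_lit 0x100020003000200010000000000000002) (nat_lit 1) (nat_lit 1) (.st (nat_lit 7) (nat_lit 1) (nat_lit 3) (nat_lit 0x15401) (nat_lit 0x100020002000100000000000000000001) (nat_lit 1) (nat_lit 1) (.st (nat_lit 8) (nat_lit 1) (nat_lit 2) (nat_lit 0x15541) (nat_lit 0x200030004000300020001000000000002) (nat_lit 1) (nat_lit 1) (.split (nat_lit 8) (nat_lit 7) (.leaf .nil (.cons (nat_lit 0x111111001) (nat_lit 0x110) (nat_lit 0xd) (nat_lit 0x320456001) (.cons (nat_lit 0x111110001)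 (nat_lit 0x1010) (nat_lit 0xc) (nat_lit 0x540230001) (.cons (nat_lit 0x111100001) (nat_lit 0x10010) (nat_lit 8) (nat_lit 0x430200001) .nil)))) (.non (nat_lit 1) (nat_lit 3) (nat_lit 0x25401) (nat_lit 0x100020002000100000000000000000001)))))) (.sup (nat_lit 0x20007000b0010000d00000000) (nat_lit 0x200000000000000000000000000040003))) (.non (nat_lit 0) (nat_lit 3) (nat_lit 0x15000) (nat_lit 0x100010001000000000000000000000000))) (.non (nat_lit 0) (nat_lit 3) (nat_lit 0x15400) (nat_lit 0x100010001000100000000000000000000))) (.non (nat_lit 0) (nat_lit 3) (nat_lit 0x15500) (nat_lit 0x100010001000100010000000000000000))) (.non (nat_lit 0) (nat_lit 4) (nat_lit 0x15050) (nat_lit 0x300020001000000000004000300000000))) (.non (nat_lit 0) (nat_lit 4) (nat_lit 0x15050) (nat_lit 0x300020001000000000003000400000000))) (.non (nat_lit 1) (nat_lit 3) (nat_lit 0x15001) (nat_lit 0x100010001000000000000000000000001))))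

noncomputable def t33_7 : Tr := (.split (nat_lit 7) (nat_lit 2) (.split (nat_lit 7) (nat_lit 3) (.split (nat_lit 7) (nat_lit 4) (.split (nat_lit 7) (nat_lit 5) (.split (nat_lit 7) (nat_lit 1) (.st (nat_lit 6) (nat_lit 1) (nat_lit 3) (nat_lit 0x5401) (nat_lit 0x10002000100000000000000000001) (nat_lit 1) (nat_lit 1) (.split (nat_lit 6) (nat_lit 5) (.split (nat_lit 7) (nat_lit 6) (.split (nat_lit 6) (nat_lit 0) (.pd (.cons (nat_lit 0) (nat_lit 2) (nat_lit 0) (nat_lit 0x65433010) (nat_lit 0xf423fb71aea2c2898965927bd00000f423f00000) (.cons (nat_lit 1) (nat_lit 2) (nat_lit 0) (nat_lit 0x60654000) (nat_lit 0xf423f5b8d4a2c28b71aef423f00000000005160d) .nil)) t33_6) (.non (nat_lit 1) (nat_lit 3) (nat_lit 0xa801) (nat_lit 0x10002000100000000000000000002))) (.non (nat_lit 1) (nat_lit 3) (nat_lit 0x9401) (nat_lit 0x10002000100000000000000000001))) (.non (nat_lit 1) (nat_lit 3) (nat_lit 0x5801) (nat_lit 0x10002000100000000000000000001)))) (.st (nat_lit 6) (nat_lit 1) (nat_lit 3) (nat_lit 0x5401) (nat_lit 0x10002000100000000000000000001)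 (nat_lit 1) (nat_lit 1) (.split (nat_lit 7) (nat_lit 1) (.split (nat_lit 6) (nat_lit 5) (.split (nat_lit 7) (nat_lit 6) (.split (nat_lit 6) (nat_lit 0) (.pd (.cons (nat_lit 0) (nat_lit 2) (nat_lit 0) (nat_lit 0x17654010) (nat_lit 0x927bd98965a2c28b71aef423f000008e6a200000) (.cons (nat_lit 1) (nat_lit 2) (nat_lit 0) (nat_lit 0x60654000) (nat_lit 0xf423f5b8d4a2c28b71aef423f00000000005160d) .nil)) (.leaf .nil .nil)) (.non (nat_lit 1) (nat_lit 3) (nat_lit 0xa801) (nat_lit 0x10002000100000000000000000002))) (.non (nat_lit 0) (nat_lit 3) (nat_lit 0x6a04) (nat_lit 0x40003000200010000000000020000))) (.non (nat_lit 0) (nat_lit 3) (nat_lit 0x5a04) (nat_lit 0x20003000200010000000000010000))) (.split (nat_lit 7) (nat_lit 1) (.split (nat_lit 7) (nat_lit 6) (.split (nat_lit 6) (nat_lit 0) (.sup (nat_lit 0x20006000b0010000d00000000) (nat_lit 0x10000000000000000000000030002)) (.non (nat_lit 1) (nat_lit 3) (nat_lit 0xa801) (nat_lit 0x10002000100000000000000000002))) (.non (nat_lit 0) (nat_lit 3) (nat_lit 0x9004) (nat_lit 0x10001000000000000000000010000)))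 (.non (nat_lit 0) (nat_lit 3) (nat_lit 0x5504) (nat_lit 0x40003000200010000000000030000)))))) (.non (nat_lit 0) (nat_lit 3) (nat_lit 0x5400) (nat_lit 0x10001000100000000000000000000))) (.non (nat_lit 0) (nat_lit 3) (nat_lit 0x5500) (nat_lit 0x10001000100010000000000000000))) (.non (nat_lit 0) (nat_lit 4) (nat_lit 0x5450) (nat_lit 0x30002000100000004000300000000))) (.non (nat_lit 0) (nat_lit 4) (nat_lit 0x5450) (nat_lit 0x30002000100000003000400000000)))

noncomputable def t33_8 : Tr := (.pd (.cons (nat_lit 0) (nat_lit 5) (nat_lit 0) (nat_lit 0x6032210) (nat_lit 0xf423f00000f423fb71ae1f156f423f00000) (.cons (nat_lit 1) (nat_lit 5) (nat_lit 0x1000001) (nat_lit 0x32206) (nat_lit 0x100000f423fb71ae1f1560000000001) .nil)) (.ex (nat_lit 5) (.pd (.cons (nat_lit 0) (nat_lit 6) (nat_lit 0) (nat_lit 0x432210) (nat_lit 0xf423fb71aea2c2804737f423f00000) (.cons (nat_lit 1) (nat_lit 6) (nat_lit 0) (nat_lit 0x432200) (nat_lit 0xf423fb71aea2c280473700000f423f) .nil)) (.ex (nat_lit 6) t33_5 (.split (nat_lit 7) (nat_lit 0)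 t33_7 (.non (nat_lit 1) (nat_lit 3) (nat_lit 0x5001) (nat_lit 0x10001000000000000000000000001))))) (.split (nat_lit 7) (nat_lit 0) (.split (nat_lit 7) (nat_lit 2) (.split (nat_lit 7) (nat_lit 3) (.split (nat_lit 7) (nat_lit 4) (.split (nat_lit 7) (nat_lit 6) (.split (nat_lit 7) (nat_lit 1) (.unj (nat_lit 5) (nat_lit 0x10001) (nat_lit 0x4550) (nat_lit 0x10000000200030004000300000000)) (.st (nat_lit 5) (nat_lit 0) (nat_lit 3) (nat_lit 0x5500) (nat_lit 0x10001000200010000000000000000) (nat_lit 1) (nat_lit 1) (.st (nat_lit 6) (nat_lit 1) (nat_lit 3) (nat_lit 0x5501) (nat_lit 0x10002000200010000000000000001) (nat_lit 1) (nat_lit 1) (.st (nat_lit 7) (nat_lit 0) (nat_lit 3) (nat_lit 0x5504) (nat_lit 0x20001000200010000000000010000) (nat_lit 1) (nat_lit 1) (.split (nat_lit 7) (nat_lit 1) (.split (nat_lit 6) (nat_lit 5) (.split (nat_lit 7) (nat_lit 5) (.split (nat_lit 6) (nat_lit 0) (.pd (.cons (nat_lit 0) (nat_lit 2) (nat_lit 0) (nat_lit 0x15754010) (nat_lit 0x61a79f423f65b97b71aef423f000005b8cc00000) (.cons (nat_lit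 1) (nat_lit 2) (nat_lit 0) (nat_lit 0x50654000) (nat_lit 0xf423f61a7965b97b71aef423f00000000005b8cc) .nil)) (.leaf (.cons (nat_lit 0x4550) (nat_lit 0x10000000200030004000300000000) .nil) .nil)) (.non (nat_lit 1) (nat_lit 3) (nat_lit 0xaa01) (nat_lit 0x10002000200010000000000000002))) (.non (nat_lit 0) (nat_lit 3) (nat_lit 0x9500) (nat_lit 0x10001000200010000000000000000))) (.non (nat_lit 0) (nat_lit 3) (nat_lit 0x6500) (nat_lit 0x10001000200010000000000000000))) (.non (nat_lit 0) (nat_lit 3) (nat_lit 0xaa04) (nat_lit 0x20001000200010000000000020000))))))) (.non (nat_lit 0) (nat_lit 3) (nat_lit 0x5400) (nat_lit 0x10001000100000000000000000000))) (.non (nat_lit 0) (nat_lit 3) (nat_lit 0x4500) (nat_lit 0x10000000100010000000000000000))) (.non (nat_lit 0) (nat_lit 4) (nat_lit 0x5450) (nat_lit 0x30001000200000004000300000000))) (.non (nat_lit 0) (nat_lit 4) (nat_lit 0x5450) (nat_lit 0x30001000200000003000400000000))) (.non (nat_lit 1) (nat_lit 3) (nat_lit 0x5401) (nat_lit 0x10001000100000000000000000001)))))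

noncomputable def t33_9 : Tr := (.ex (nat_lit 2) (.ex (nat_lit 3) (.ex (nat_lit 4) t33_8 (.split (nat_lit 7) (nat_lit 0) (.split (nat_lit 7) (nat_lit 1) (.split (nat_lit 7) (nat_lit 5) (.split (nat_lit 7) (nat_lit 6) (.split (nat_lit 7) (nat_lit 2) (.split (nat_lit 7) (nat_lit 3) (.unj (nat_lit 5) (nat_lit 0x10001) (nat_lit 0x4550) (nat_lit 0x10000000100020002000200000000)) (.unj (nat_lit 5) (nat_lit 0x10001) (nat_lit 0x4140) (nat_lit 0x10000000000010001000000000000))) (.split (nat_lit 7) (nat_lit 3) (.unj (nat_lit 5) (nat_lit 0x10001) (nat_lit 0x4150) (nat_lit 0x10000000000010001000100000000)) (.non (nat_lit 0) (nat_lit 4) (nat_lit 0x4050) (nat_lit 0x10000000000000001000100000000)))) (.non (nat_lit 0) (nat_lit 3) (nat_lit 0x5500) (nat_lit 0x10001000100010000000000000000))) (.non (nat_lit 0) (nat_lit 3) (nat_lit 0x4500) (nat_lit 0x10000000100010000000000000000))) (.star (nat_lit 7) (nat_lit 1) (nat_lit 4))) (.star (nat_lit 7) (nat_lit 0) (nat_lit 4)))) (.split (nat_lit 7) (nat_lit 0) (.split (nat_lit 7) (nat_lit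 1) (.split (nat_lit 7) (nat_lit 2) (.split (nat_lit 7) (nat_lit 5) (.split (nat_lit 7) (nat_lit 6) (.split (nat_lit 7) (nat_lit 4) (.unj (nat_lit 5) (nat_lit 0x10001) (nat_lit 0x4150) (nat_lit 0x10000000000010002000200000000)) (.unj (nat_lit 5) (nat_lit 0x10001) (nat_lit 0x4140) (nat_lit 0x10000000000010001000000000000))) (.non (nat_lit 0) (nat_lit 4) (nat_lit 0x5450) (nat_lit 0x30002000100000004000300000000))) (.non (nat_lit 0) (nat_lit 4) (nat_lit 0x5450) (nat_lit 0x30001000200000004000300000000))) (.non (nat_lit 0) (nat_lit 4) (nat_lit 0x4050) (nat_lit 0x10000000000000001000100000000))) (.star (nat_lit 7) (nat_lit 1) (nat_lit 3))) (.star (nat_lit 7) (nat_lit 0) (nat_lit 3)))) (.split (nat_lit 7) (nat_lit 0) (.split (nat_lit 7) (nat_lit 3) (.split (nat_lit 7) (nat_lit 5) (.split (nat_lit 7) (nat_lit 6) (.split (nat_lit 7) (nat_lit 1) (.split (nat_lit 7) (nat_lit 4) (.unj (nat_lit 5) (nat_lit 0x10001) (nat_lit 0x4150) (nat_lit 0x10000000000010002000200000000)) (.unj (nat_lit 5) (nat_lit 0x10001) (nat_lit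 0x4150) (nat_lit 0x10000000000010001000100000000))) (.split (nat_lit 7) (nat_lit 4) (.split (nat_lit 7) (nat_lit 1) (.split (nat_lit 7) (nat_lit 2) (.split (nat_lit 6) (nat_lit 0) (.split (nat_lit 6) (nat_lit 5) (.sup (nat_lit 0x10000000100050008000700000000) (nat_lit 0x2000000000000000000040005)) (.sup (nat_lit 0x30000000200090010000e00000000) (nat_lit 0x300000000000000000008000a))) (.sup (nat_lit 0x20000000100040008000700000000) (nat_lit 0x2000000000000000000020004))) (.non (nat_lit 0) (nat_lit 4) (nat_lit 0x4050) (nat_lit 0x10000000000000001000100000000))) (.non (nat_lit 0) (nat_lit 4) (nat_lit 0x4054) (nat_lit 0x10000000000000001000100010000))) (.star (nat_lit 7) (nat_lit 1) (nat_lit 4)))) (.non (nat_lit 0) (nat_lit 4) (nat_lit 0x5450) (nat_lit 0x30002000100000003000400000000))) (.non (nat_lit 0) (nat_lit 4) (nat_lit 0x5450) (nat_lit 0x30001000200000003000400000000))) (.non (nat_lit 0) (nat_lit 4) (nat_lit 0x4050) (nat_lit 0x10000000000000001000100000000))) (.non (nat_lit 1) (nat_lit 4) (nat_lit 0x5051)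 (nat_lit 0x30001000000000003000400000002))))

noncomputable def t33_10 : Tr := (.split (nat_lit 6) (nat_lit 1) (.split (nat_lit 6) (nat_lit 5) (.split (nat_lit 6) (nat_lit 0) (.pd (.cons (nat_lit 0) (nat_lit 2) (nat_lit 0) (nat_lit 0x1654010) (nat_lit 0x98965a2c28b71aef423f00000927bd00000) (.cons (nat_lit 1) (nat_lit 2) (nat_lit 0) (nat_lit 0x654000) (nat_lit 0x98965a2c28b71aef423f0000000000927bd) .nil)) (.leaf .nil .nil)) (.split (nat_lit 6) (nat_lit 0) (.pd (.cons (nat_lit 0) (nat_lit 2) (nat_lit 0) (nat_lit 0x1654010) (nat_lit 0x98965a2c28b71aef423f00000927bd00000) (.cons (nat_lit 1) (nat_lit 2) (nat_lit 0) (nat_lit 0x654000) (nat_lit 0x98965a2c28b71aef423f000000000030d3b) .nil)) (.leaf .nil .nil)) (.pd (.cons (nat_lit 0) (nat_lit 2) (nat_lit 0) (nat_lit 0x1654010) (nat_lit 0x98965a2c28b71aef423f00000927bd00000) .nil) (.leaf (.cons (nat_lit 0x1541) (nat_lit 0x4000300020001000000000003) .nil) .nil)))) (.leaf (.cons (nat_lit 0x1a84) (nat_lit 0x4000300020001000000020000) (.cons (nat_lit 0x1a81) (nat_lit 0x4000300020001000000000002)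 .nil)) .nil)) (.split (nat_lit 6) (nat_lit 1) (.split (nat_lit 6) (nat_lit 5) (.split (nat_lit 6) (nat_lit 0) (.pd (.cons (nat_lit 0) (nat_lit 2) (nat_lit 0) (nat_lit 0x1654010) (nat_lit 0x98965a2c28b71aef423f0000030d3b00000) (.cons (nat_lit 1) (nat_lit 2) (nat_lit 0) (nat_lit 0x654000) (nat_lit 0x98965a2c28b71aef423f0000000000927bd) .nil)) (.leaf .nil .nil)) (.split (nat_lit 6) (nat_lit 0) (.pd (.cons (nat_lit 0) (nat_lit 2) (nat_lit 0) (nat_lit 0x1654010) (nat_lit 0x98965a2c28b71aef423f0000030d3b00000) (.cons (nat_lit 1) (nat_lit 2) (nat_lit 0) (nat_lit 0x654000) (nat_lit 0x98965a2c28b71aef423f000000000030d3b) .nil)) (.leaf .nil .nil)) (.pd (.cons (nat_lit 0) (nat_lit 2) (nat_lit 0) (nat_lit 0x1654010) (nat_lit 0x98965a2c28b71aef423f0000030d3b00000) .nil) (.leaf (.cons (nat_lit 0x1541) (nat_lit 0x4000300020001000000000003) .nil) .nil)))) (.non (nat_lit 0) (nat_lit 3) (nat_lit 0x2404) (nat_lit 0x1000100000000000000010000))) (.split (nat_lit 6) (nat_lit 0) (.split (nat_lit 6) (nat_lit 5) (.pd (.cons (nat_lit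 1) (nat_lit 2) (nat_lit 0) (nat_lit 0x654000) (nat_lit 0x98965a2c28b71aef423f0000000000927bd) .nil) (.leaf (.cons (nat_lit 0x1544) (nat_lit 0x4000300020001000000030000) .nil) .nil)) (.non (nat_lit 0) (nat_lit 3) (nat_lit 0x1404) (nat_lit 0x1000100000000000000010000))) (.split (nat_lit 6) (nat_lit 0) (.split (nat_lit 6) (nat_lit 5) (.pd (.cons (nat_lit 1) (nat_lit 2) (nat_lit 0) (nat_lit 0x654000) (nat_lit 0x98965a2c28b71aef423f000000000030d3b) .nil) (.leaf (.cons (nat_lit 0x1544) (nat_lit 0x4000300020001000000030000) .nil) .nil)) (.non (nat_lit 0) (nat_lit 3) (nat_lit 0x1404) (nat_lit 0x1000100000000000000010000))) (.leaf (.cons (nat_lit 0x1544) (nat_lit 0x4000300020001000000030000) (.cons (nat_lit 0x1541) (nat_lit 0x4000300020001000000000003) .nil)) .nil)))))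

noncomputable def t33_11 : Tr := (.ex (nat_lit 5) (.pd (.cons (nat_lit 0) (nat_lit 6) (nat_lit 0) (nat_lit 0x432210) (nat_lit 0xf423fb71aea2c2804737f423f00000) (.cons (nat_lit 1) (nat_lit 6) (nat_lit 0) (nat_lit 0x432200) (nat_lit 0xf423fb71aea2c280473700000f423f) .nil)) (.ex (nat_lit 6) t33_10 (.split (nat_lit 7) (nat_lit 0) (.split (nat_lit 7) (nat_lit 1) (.split (nat_lit 7) (nat_lit 2) (.split (nat_lit 7) (nat_lit 3) (.split (nat_lit 7) (nat_lit 4) (.split (nat_lit 7) (nat_lit 5) (.st (nat_lit 6) (nat_lit 0) (nat_lit 3) (nat_lit 0x5404) (nat_lit 0x10002000100000000000000010000) (nat_lit 1) (nat_lit 1) (.split (nat_lit 6) (nat_lit 1) (.split (nat_lit 6) (nat_lit 5) (.split (nat_lit 7) (nat_lit 6) (.split (nat_lit 6) (nat_lit 0) (.pd (.cons (nat_lit 0) (nat_lit 2) (nat_lit 0) (nat_lit 0x61654010) (nat_lit 0xf423f5b8d4a2c28b71aef423f000005160d00000) (.cons (nat_lit 1) (nat_lit 2) (nat_lit 0) (nat_lit 0x60654000) (nat_lit 0xf423f5b8d4a2c28b71aef423f00000000005160d) .nil)) (.leaf .nil .nil)) (.non (nat_lit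 1) (nat_lit 3) (nat_lit 0xa801) (nat_lit 0x10002000100000000000000000002))) (.non (nat_lit 0) (nat_lit 3) (nat_lit 0x9404) (nat_lit 0x10002000100000000000000010000))) (.non (nat_lit 0) (nat_lit 3) (nat_lit 0x5804) (nat_lit 0x10002000100000000000000010000))) (.non (nat_lit 0) (nat_lit 3) (nat_lit 0xa804) (nat_lit 0x10002000100000000000000020000)))) (.non (nat_lit 0) (nat_lit 3) (nat_lit 0x5400) (nat_lit 0x10001000100000000000000000000))) (.non (nat_lit 0) (nat_lit 3) (nat_lit 0x5500) (nat_lit 0x10001000100010000000000000000))) (.non (nat_lit 0) (nat_lit 4) (nat_lit 0x5450) (nat_lit 0x30002000100000004000300000000))) (.non (nat_lit 0) (nat_lit 4) (nat_lit 0x5450) (nat_lit 0x30002000100000003000400000000))) (.non (nat_lit 0) (nat_lit 3) (nat_lit 0x5004) (nat_lit 0x10001000000000000000000010000))) (.non (nat_lit 1) (nat_lit 3) (nat_lit 0x5001) (nat_lit 0x10001000000000000000000000001))))) (.split (nat_lit 7) (nat_lit 0) (.split (nat_lit 7) (nat_lit 1) (.split (nat_lit 7) (nat_lit 2) (.split (nat_lit 7) (nat_lit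 3) (.split (nat_lit 7) (nat_lit 4) (.split (nat_lit 7) (nat_lit 6) (.unj (nat_lit 5) (nat_lit 0x10001) (nat_lit 0x4550) (nat_lit 0x10000000200030004000300000000)) (.non (nat_lit 0) (nat_lit 3) (nat_lit 0x5400) (nat_lit 0x10001000100000000000000000000))) (.non (nat_lit 0) (nat_lit 3) (nat_lit 0x4500) (nat_lit 0x10000000100010000000000000000))) (.non (nat_lit 0) (nat_lit 4) (nat_lit 0x5450) (nat_lit 0x30001000200000004000300000000))) (.non (nat_lit 0) (nat_lit 4) (nat_lit 0x5450) (nat_lit 0x30001000200000003000400000000))) (.non (nat_lit 0) (nat_lit 3) (nat_lit 0x5404) (nat_lit 0x10001000100000000000000010000))) (.non (nat_lit 1) (nat_lit 3) (nat_lit 0x5401) (nat_lit 0x10001000100000000000000000001))))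

noncomputable def t33_12 : Tr := (.ex (nat_lit 2) (.ex (nat_lit 3) (.ex (nat_lit 4) (.pd (.cons (nat_lit 0) (nat_lit 5) (nat_lit 0x1000010) (nat_lit 0x1032260) (nat_lit 0x100000f423fb71ae1f1560000100000) (.cons (nat_lit 1) (nat_lit 5) (nat_lit 0x1000001) (nat_lit 0x32206) (nat_lit 0x100000f423fb71ae1f1560000000001) .nil)) t33_11) (.split (nat_lit 7) (nat_lit 0) (.split (nat_lit 7) (nat_lit 1) (.split (nat_lit 7) (nat_lit 5) (.split (nat_lit 7) (nat_lit 6) (.split (nat_lit 7) (nat_lit 2) (.split (nat_lit 7) (nat_lit 3) (.unj (nat_lit 5) (nat_lit 0x10001) (nat_lit 0x4550) (nat_lit 0x10000000100020002000200000000)) (.unj (nat_lit 5) (nat_lit 0x10001) (nat_lit 0x4140) (nat_lit 0x10000000000010001000000000000))) (.split (nat_lit 7) (nat_lit 3) (.unj (nat_lit 5) (nat_lit 0x10001) (nat_lit 0x4150) (nat_lit 0x10000000000010001000100000000)) (.non (nat_lit 0) (nat_lit 4) (nat_lit 0x4050) (nat_lit 0x10000000000000001000100000000)))) (.non (nat_lit 0) (nat_lit 3) (nat_lit 0x5500) (nat_lit 0x10001000100010000000000000000)))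 (.non (nat_lit 0) (nat_lit 3) (nat_lit 0x4500) (nat_lit 0x10000000100010000000000000000))) (.star (nat_lit 7) (nat_lit 1) (nat_lit 4))) (.star (nat_lit 7) (nat_lit 0) (nat_lit 4)))) (.split (nat_lit 7) (nat_lit 0) (.split (nat_lit 7) (nat_lit 1) (.split (nat_lit 7) (nat_lit 2) (.split (nat_lit 7) (nat_lit 5) (.split (nat_lit 7) (nat_lit 6) (.split (nat_lit 7) (nat_lit 4) (.unj (nat_lit 5) (nat_lit 0x10001) (nat_lit 0x4150) (nat_lit 0x10000000000010002000200000000)) (.unj (nat_lit 5) (nat_lit 0x10001) (nat_lit 0x4140) (nat_lit 0x10000000000010001000000000000))) (.non (nat_lit 0) (nat_lit 4) (nat_lit 0x5450) (nat_lit 0x30002000100000004000300000000))) (.non (nat_lit 0) (nat_lit 4) (nat_lit 0x5450) (nat_lit 0x30001000200000004000300000000))) (.non (nat_lit 0) (nat_lit 4) (nat_lit 0x4050) (nat_lit 0x10000000000000001000100000000))) (.star (nat_lit 7) (nat_lit 1) (nat_lit 3))) (.star (nat_lit 7) (nat_lit 0) (nat_lit 3)))) (.split (nat_lit 7) (nat_lit 0) (.split (nat_lit 7) (nat_lit 1) (.split (nat_lit 7) (nat_lit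 3) (.split (nat_lit 7) (nat_lit 5) (.split (nat_lit 7) (nat_lit 6) (.split (nat_lit 7) (nat_lit 4) (.unj (nat_lit 5) (nat_lit 0x10001) (nat_lit 0x4150) (nat_lit 0x10000000000010002000200000000)) (.unj (nat_lit 5) (nat_lit 0x10001) (nat_lit 0x4150) (nat_lit 0x10000000000010001000100000000))) (.non (nat_lit 0) (nat_lit 4) (nat_lit 0x5450) (nat_lit 0x30002000100000003000400000000))) (.non (nat_lit 0) (nat_lit 4) (nat_lit 0x5450) (nat_lit 0x30001000200000003000400000000))) (.non (nat_lit 0) (nat_lit 4) (nat_lit 0x4050) (nat_lit 0x10000000000000001000100000000))) (.non (nat_lit 0) (nat_lit 4) (nat_lit 0x5054) (nat_lit 0x30001000000000003000400020000))) (.non (nat_lit 1) (nat_lit 4) (nat_lit 0x5051) (nat_lit 0x30001000000000003000400000002))))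

noncomputable def t33 : Tr := (.split (nat_lit 6) (nat_lit 0) (.split (nat_lit 6) (nat_lit 1) .uj (.ex (nat_lit 2) (.ex (nat_lit 3) t33_4 (.split (nat_lit 7) (nat_lit 0) (.split (nat_lit 7) (nat_lit 1) (.split (nat_lit 7) (nat_lit 2) (.split (nat_lit 7) (nat_lit 5) (.split (nat_lit 7) (nat_lit 6) (.split (nat_lit 7) (nat_lit 4) (.unj (nat_lit 5) (nat_lit 0x10001) (nat_lit 0x4150) (nat_lit 0x10000000000010002000200000000)) (.unj (nat_lit 5) (nat_lit 0x10001) (nat_lit 0x4140) (nat_lit 0x10000000000010001000000000000))) (.non (nat_lit 0) (nat_lit 4) (nat_lit 0x5450) (nat_lit 0x30002000100000004000300000000))) (.non (nat_lit 0) (nat_lit 4) (nat_lit 0x5450) (nat_lit 0x30001000200000004000300000000))) (.non (nat_lit 0) (nat_lit 4) (nat_lit 0x4050) (nat_lit 0x10000000000000001000100000000))) (.star (nat_lit 7) (nat_lit 1) (nat_lit 3))) (.star (nat_lit 7) (nat_lit 0) (nat_lit 3)))) (.split (nat_lit 7) (nat_lit 1) (.split (nat_lit 7) (nat_lit 3) (.split (nat_lit 7) (nat_lit 5) (.split (nat_lit 7) (nat_lit 6) (.split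 (nat_lit 7) (nat_lit 0) (.split (nat_lit 7) (nat_lit 4) (.unj (nat_lit 5) (nat_lit 0x10001) (nat_lit 0x4150) (nat_lit 0x10000000000010002000200000000)) (.unj (nat_lit 5) (nat_lit 0x10001) (nat_lit 0x4150) (nat_lit 0x10000000000010001000100000000))) (.split (nat_lit 7) (nat_lit 4) (.split (nat_lit 7) (nat_lit 0) (.split (nat_lit 7) (nat_lit 2) (.split (nat_lit 6) (nat_lit 1) (.split (nat_lit 6) (nat_lit 5) (.sup (nat_lit 0x10000000100050008000700000000) (nat_lit 0x2000000000000000000050004)) (.sup (nat_lit 0x30000000200090010000e00000000) (nat_lit 0x30000000000000000000a0008))) (.sup (nat_lit 0x20000000100040008000700000000) (nat_lit 0x2000000000000000000040002))) (.non (nat_lit 0) (nat_lit 4) (nat_lit 0x4050) (nat_lit 0x10000000000000001000100000000))) (.non (nat_lit 1) (nat_lit 4) (nat_lit 0x4051) (nat_lit 0x10000000000000001000100000001))) (.star (nat_lit 7) (nat_lit 0) (nat_lit 4)))) (.non (nat_lit 0) (nat_lit 4) (nat_lit 0x5450) (nat_lit 0x30002000100000003000400000000))) (.non (nat_lit 0) (nat_lit 4)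 (nat_lit 0x5450) (nat_lit 0x30001000200000003000400000000))) (.non (nat_lit 0) (nat_lit 4) (nat_lit 0x4050) (nat_lit 0x10000000000000001000100000000))) (.non (nat_lit 0) (nat_lit 4) (nat_lit 0x5054) (nat_lit 0x30001000000000003000400020000))))) (.split (nat_lit 6) (nat_lit 1) t33_9 t33_12))

noncomputable def t39_1 : Tr := (.pd (.cons (nat_lit 0) (nat_lit 4) (nat_lit 0x100010) (nat_lit 0x6102250) (nat_lit 0xf423f0000100000f423f545910000100000) (.cons (nat_lit 1) (nat_lit 4) (nat_lit 0) (nat_lit 0x6502200) (nat_lit 0xf423ff423f00000f423f5459100000f423f) (.cons (nat_lit 1) (nat_lit 6) (nat_lit 0) (nat_lit 0x432200) (nat_lit 0xf423fb71aea2c280473700000f423f) .nil))) (.ex (nat_lit 6) (.pd (.cons (nat_lit 0) (nat_lit 5) (nat_lit 0) (nat_lit 0x4032210) (nat_lit 0xf423f00000b71aea2c2804737f423f00000) (.cons (nat_lit 1) (nat_lit 5) (nat_lit 0) (nat_lit 0x4032200) (nat_lit 0xf423f00000b71aea2c280473700000f423f) .nil)) (.split (nat_lit 5) (nat_lit 1) (.ex (nat_lit 1) (.leaf (.cons (nat_lit 0x554) (nat_lit 0x200030004000300010000)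 .nil) (.cons (nat_lit 0x100010) (nat_lit 0x10001) (nat_lit 0) (nat_lit 0x100000) .nil)) (.split (nat_lit 7) (nat_lit 2) (.split (nat_lit 7) (nat_lit 3) (.split (nat_lit 7) (nat_lit 4) (.split (nat_lit 7) (nat_lit 5) (.split (nat_lit 7) (nat_lit 6) (.split (nat_lit 7) (nat_lit 0) (.sup (nat_lit 0x3000100060008000600000000) (nat_lit 0x20000000000000000000000030003)) (.sup (nat_lit 0x3000300070008000600000000) (nat_lit 0x10000000000000000000000010002))) (.non (nat_lit 0) (nat_lit 2) (nat_lit 0x5504) (nat_lit 0x10001000100010000000000010000))) (.non (nat_lit 0) (nat_lit 2) (nat_lit 0x4404) (nat_lit 0x10000000100000000000000010000))) (.non (nat_lit 0) (nat_lit 2) (nat_lit 0x5540) (nat_lit 0x10001000100020001000000000000))) (.star (nat_lit 7) (nat_lit 1) (nat_lit 3))) (.star (nat_lit 7) (nat_lit 1) (nat_lit 2)))) (.non (nat_lit 0) (nat_lit 2) (nat_lit 0x2a84) (nat_lit 0x1000200020001000000020000)))) (.split (nat_lit 7) (nat_lit 1) (.split (nat_lit 7) (nat_lit 2) (.split (nat_lit 7) (nat_lit 3) (.split (nat_lit 7)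 (nat_lit 4) (.split (nat_lit 7) (nat_lit 5) (.split (nat_lit 7) (nat_lit 0) (.unj (nat_lit 5) (nat_lit 0x10001) (nat_lit 0x5150) (nat_lit 0x10002000000030004000300000000)) (.split (nat_lit 7) (nat_lit 0) (.split (nat_lit 7) (nat_lit 6) (.split (nat_lit 5) (nat_lit 1) (.sup (nat_lit 0x50002000b0010000d00000000) (nat_lit 0x20000000000000000000000080008)) (.non (nat_lit 0) (nat_lit 2) (nat_lit 0x2a84) (nat_lit 0x1000200020001000000020000))) (.non (nat_lit 0) (nat_lit 2) (nat_lit 0x9540) (nat_lit 0x10002000100020001000000000000))) (.non (nat_lit 1) (nat_lit 2) (nat_lit 0xaa81) (nat_lit 0x20002000100020001000000000002)))) (.non (nat_lit 0) (nat_lit 2) (nat_lit 0x5500) (nat_lit 0x10001000100010000000000000000))) (.non (nat_lit 0) (nat_lit 2) (nat_lit 0x5100) (nat_lit 0x10001000000010000000000000000))) (.non (nat_lit 0) (nat_lit 2) (nat_lit 0x5140) (nat_lit 0x10001000000010001000000000000))) (.non (nat_lit 1) (nat_lit 6) (nat_lit 0x4150) (nat_lit 0x10000000000010002000200000000))) (.non (nat_lit 0) (nat_lit 2) (nat_lit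 0x5504) (nat_lit 0x10001000100010000000000010000)))))

noncomputable def t39_2 : Tr := (.pd (.cons (nat_lit 0) (nat_lit 4) (nat_lit 0) (nat_lit 0x6502210) (nat_lit 0xf423ff423f00000f423f54591f423f00000) (.cons (nat_lit 0) (nat_lit 6) (nat_lit 0) (nat_lit 0x432210) (nat_lit 0xf423fb71aea2c2804737f423f00000) (.cons (nat_lit 1) (nat_lit 4) (nat_lit 0x100001) (nat_lit 0x6002205) (nat_lit 0xf423f0000100000f423f545910000000001) .nil))) (.ex (nat_lit 6) (.pd (.cons (nat_lit 0) (nat_lit 5) (nat_lit 0) (nat_lit 0x4032210) (nat_lit 0xf423f00000b71aea2c2804737f423f00000) (.cons (nat_lit 1) (nat_lit 5) (nat_lit 0) (nat_lit 0x4032200) (nat_lit 0xf423f00000b71aea2c280473700000f423f) .nil)) (.split (nat_lit 5) (nat_lit 0) (.ex (nat_lit 0) (.leaf (.cons (nat_lit 0x551) (nat_lit 0x200030004000300000001) .nil) (.cons (nat_lit 0x100001) (nat_lit 0x10010) (nat_lit 0) (nat_lit 0x100000) .nil)) (.split (nat_lit 7) (nat_lit 2) (.split (nat_lit 7) (nat_lit 3) (.split (nat_lit 7) (nat_lit 4) (.split (nat_lit 7) (nat_lit 5) (.split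 (nat_lit 7) (nat_lit 6) (.split (nat_lit 7) (nat_lit 1) (.sup (nat_lit 0x3000100060008000600000000) (nat_lit 0x20000000000000000000000030003)) (.sup (nat_lit 0x3000300070008000600000000) (nat_lit 0x10000000000000000000000020001))) (.non (nat_lit 1) (nat_lit 2) (nat_lit 0x5501) (nat_lit 0x10001000100010000000000000001))) (.non (nat_lit 1) (nat_lit 2) (nat_lit 0x4401) (nat_lit 0x10000000100000000000000000001))) (.non (nat_lit 0) (nat_lit 2) (nat_lit 0x5540) (nat_lit 0x10001000100020001000000000000))) (.star (nat_lit 7) (nat_lit 0) (nat_lit 3))) (.star (nat_lit 7) (nat_lit 0) (nat_lit 2)))) (.non (nat_lit 1) (nat_lit 2) (nat_lit 0x2a81) (nat_lit 0x1000200020001000000000002)))) (.split (nat_lit 7) (nat_lit 0) (.split (nat_lit 7) (nat_lit 2) (.split (nat_lit 7) (nat_lit 3) (.split (nat_lit 7) (nat_lit 4) (.split (nat_lit 7) (nat_lit 5) (.split (nat_lit 7) (nat_lit 1) (.unj (nat_lit 5) (nat_lit 0x10001) (nat_lit 0x5150) (nat_lit 0x10002000000030004000300000000)) (.split (nat_lit 7) (nat_lit 1) (.split (nat_lit 7)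 (nat_lit 6) (.split (nat_lit 5) (nat_lit 0) (.sup (nat_lit 0x50002000b0010000d00000000) (nat_lit 0x20000000000000000000000080008)) (.non (nat_lit 1) (nat_lit 2) (nat_lit 0x2a81) (nat_lit 0x1000200020001000000000002))) (.non (nat_lit 0) (nat_lit 2) (nat_lit 0x9540) (nat_lit 0x10002000100020001000000000000))) (.non (nat_lit 0) (nat_lit 2) (nat_lit 0xaa84) (nat_lit 0x20002000100020001000000020000)))) (.non (nat_lit 0) (nat_lit 2) (nat_lit 0x5500) (nat_lit 0x10001000100010000000000000000))) (.non (nat_lit 0) (nat_lit 2) (nat_lit 0x5100) (nat_lit 0x10001000000010000000000000000))) (.non (nat_lit 0) (nat_lit 2) (nat_lit 0x5140) (nat_lit 0x10001000000010001000000000000))) (.non (nat_lit 0) (nat_lit 6) (nat_lit 0x4150) (nat_lit 0x10000000000010002000200000000))) (.non (nat_lit 1) (nat_lit 2) (nat_lit 0x5501) (nat_lit 0x10001000100010000000000000001)))))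

noncomputable def t39_3 : Tr := (.ex (nat_lit 2) (.ex (nat_lit 3) (.pd (.cons (nat_lit 0) (nat_lit 4) (nat_lit 0x100010) (nat_lit 0x6102250) (nat_lit 0xf423f0000100000f423f545910000100000) (.cons (nat_lit 1) (nat_lit 4) (nat_lit 0x100001) (nat_lit 0x6002205) (nat_lit 0xf423f0000100000f423f545910000000001) .nil)) (.ex (nat_lit 6) (.pd (.cons (nat_lit 0) (nat_lit 5) (nat_lit 0) (nat_lit 0x4032210) (nat_lit 0xf423f00000b71aea2c2804737f423f00000) (.cons (nat_lit 1) (nat_lit 5) (nat_lit 0) (nat_lit 0x4032200) (nat_lit 0xf423f00000b71aea2c280473700000f423f) .nil)) (.leaf (.cons (nat_lit 0x554) (nat_lit 0x200030004000300010000) (.cons (nat_lit 0x551) (nat_lit 0x200030004000300000001) .nil)) .nil)) (.split (nat_lit 7) (nat_lit 0) (.split (nat_lit 7) (nat_lit 1) (.split (nat_lit 7) (nat_lit 3) (.split (nat_lit 7) (nat_lit 4) (.split (nat_lit 7) (nat_lit 5) (.split (nat_lit 7) (nat_lit 2) (.unj (nat_lit 5) (nat_lit 0x10001) (nat_lit 0x5150) (nat_lit 0x10002000000030004000300000000)) (.unj (nat_lit 5) (nat_lit 0x10001)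 (nat_lit 0x4150) (nat_lit 0x10000000000010002000200000000))) (.non (nat_lit 0) (nat_lit 2) (nat_lit 0x5500) (nat_lit 0x10001000100010000000000000000))) (.non (nat_lit 0) (nat_lit 2) (nat_lit 0x5100) (nat_lit 0x10001000000010000000000000000))) (.non (nat_lit 0) (nat_lit 2) (nat_lit 0x5140) (nat_lit 0x10001000000010001000000000000))) (.non (nat_lit 0) (nat_lit 2) (nat_lit 0x5504) (nat_lit 0x10001000100010000000000010000))) (.non (nat_lit 1) (nat_lit 2) (nat_lit 0x5501) (nat_lit 0x10001000100010000000000000001))))) (.split (nat_lit 7) (nat_lit 0) (.split (nat_lit 7) (nat_lit 1) (.split (nat_lit 7) (nat_lit 4) (.split (nat_lit 7) (nat_lit 5) (.split (nat_lit 7) (nat_lit 6) (.split (nat_lit 7) (nat_lit 2) (.unj (nat_lit 5) (nat_lit 0x10001) (nat_lit 0x4150) (nat_lit 0x10000000000010002000200000000)) (.unj (nat_lit 5) (nat_lit 0x10001) (nat_lit 0x4050) (nat_lit 0x10000000000000001000100000000))) (.non (nat_lit 0) (nat_lit 2) (nat_lit 0x5140) (nat_lit 0x10001000000010001000000000000))) (.non (nat_lit 0) (nat_lit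 2) (nat_lit 0x4540) (nat_lit 0x10000000100010001000000000000))) (.non (nat_lit 0) (nat_lit 2) (nat_lit 0x4140) (nat_lit 0x10000000000010001000000000000))) (.star (nat_lit 7) (nat_lit 1) (nat_lit 3))) (.star (nat_lit 7) (nat_lit 0) (nat_lit 3)))) (.split (nat_lit 7) (nat_lit 0) (.split (nat_lit 7) (nat_lit 1) (.split (nat_lit 7) (nat_lit 4) (.split (nat_lit 7) (nat_lit 5) (.split (nat_lit 7) (nat_lit 3) (.split (nat_lit 7) (nat_lit 6) (.unj (nat_lit 5) (nat_lit 0x10001) (nat_lit 0x4150) (nat_lit 0x10000000000010002000200000000)) (.unj (nat_lit 5) (nat_lit 0x10001) (nat_lit 0x4150) (nat_lit 0x10000000000010002000200000000))) (.split (nat_lit 7) (nat_lit 6) (.unj (nat_lit 5) (nat_lit 0x10001) (nat_lit 0x4050) (nat_lit 0x10000000000000001000100000000)) (.non (nat_lit 0) (nat_lit 2) (nat_lit 0x5140) (nat_lit 0x10001000000010001000000000000)))) (.non (nat_lit 0) (nat_lit 2) (nat_lit 0x5544) (nat_lit 0x10001000200020001000000010000))) (.non (nat_lit 0) (nat_lit 2) (nat_lit 0x5540) (nat_lit 0x10001000100020001000000000000)))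 (.star (nat_lit 7) (nat_lit 1) (nat_lit 2))) (.star (nat_lit 7) (nat_lit 0) (nat_lit 2))))

noncomputable def t39_4 : Tr := (.split (nat_lit 5) (nat_lit 0) (.split (nat_lit 5) (nat_lit 1) .uj (.st (nat_lit 5) (nat_lit 0) (nat_lit 2) (nat_lit 0x1544) (nat_lit 0x1000200020001000000010000) (nat_lit 1) (nat_lit 1) (.ex (nat_lit 2) (.ex (nat_lit 3) t39_1 (.split (nat_lit 7) (nat_lit 0) (.split (nat_lit 7) (nat_lit 1) (.split (nat_lit 7) (nat_lit 4) (.split (nat_lit 7) (nat_lit 5) (.split (nat_lit 7) (nat_lit 6) (.split (nat_lit 7) (nat_lit 2) (.unj (nat_lit 5) (nat_lit 0x10001) (nat_lit 0x4150) (nat_lit 0x10000000000010002000200000000)) (.unj (nat_lit 5) (nat_lit 0x10001) (nat_lit 0x4050) (nat_lit 0x10000000000000001000100000000))) (.non (nat_lit 0) (nat_lit 2) (nat_lit 0x5140) (nat_lit 0x10001000000010001000000000000))) (.non (nat_lit 0) (nat_lit 2) (nat_lit 0x4540) (nat_lit 0x10000000100010001000000000000))) (.non (nat_lit 0) (nat_lit 2) (nat_lit 0x4140) (nat_lit 0x10000000000010001000000000000))) (.star (nat_lit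 7) (nat_lit 1) (nat_lit 3))) (.star (nat_lit 7) (nat_lit 0) (nat_lit 3)))) (.split (nat_lit 7) (nat_lit 0) (.split (nat_lit 7) (nat_lit 1) (.split (nat_lit 7) (nat_lit 4) (.split (nat_lit 7) (nat_lit 5) (.split (nat_lit 7) (nat_lit 3) (.split (nat_lit 7) (nat_lit 6) (.unj (nat_lit 5) (nat_lit 0x10001) (nat_lit 0x4150) (nat_lit 0x10000000000010002000200000000)) (.unj (nat_lit 5) (nat_lit 0x10001) (nat_lit 0x4150) (nat_lit 0x10000000000010002000200000000))) (.split (nat_lit 7) (nat_lit 6) (.unj (nat_lit 5) (nat_lit 0x10001) (nat_lit 0x4050) (nat_lit 0x10000000000000001000100000000)) (.non (nat_lit 0) (nat_lit 2) (nat_lit 0x5140) (nat_lit 0x10001000000010001000000000000)))) (.non (nat_lit 0) (nat_lit 2) (nat_lit 0x5544) (nat_lit 0x10001000200020001000000010000))) (.non (nat_lit 0) (nat_lit 2) (nat_lit 0x5540) (nat_lit 0x10001000100020001000000000000))) (.star (nat_lit 7) (nat_lit 1) (nat_lit 2))) (.star (nat_lit 7) (nat_lit 0) (nat_lit 2)))))) (.split (nat_lit 5) (nat_lit 1) (.st (nat_lit 5) (nat_lit 1) (nat_lit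 2) (nat_lit 0x1541) (nat_lit 0x1000200020001000000000001) (nat_lit 1) (nat_lit 1) (.ex (nat_lit 2) (.ex (nat_lit 3) t39_2 (.split (nat_lit 7) (nat_lit 0) (.split (nat_lit 7) (nat_lit 1) (.split (nat_lit 7) (nat_lit 4) (.split (nat_lit 7) (nat_lit 5) (.split (nat_lit 7) (nat_lit 6) (.split (nat_lit 7) (nat_lit 2) (.unj (nat_lit 5) (nat_lit 0x10001) (nat_lit 0x4150) (nat_lit 0x10000000000010002000200000000)) (.unj (nat_lit 5) (nat_lit 0x10001) (nat_lit 0x4050) (nat_lit 0x10000000000000001000100000000))) (.non (nat_lit 0) (nat_lit 2) (nat_lit 0x5140) (nat_lit 0x10001000000010001000000000000))) (.non (nat_lit 0) (nat_lit 2) (nat_lit 0x4540) (nat_lit 0x10000000100010001000000000000))) (.non (nat_lit 0) (nat_lit 2) (nat_lit 0x4140) (nat_lit 0x10000000000010001000000000000))) (.star (nat_lit 7) (nat_lit 1) (nat_lit 3))) (.star (nat_lit 7) (nat_lit 0) (nat_lit 3)))) (.split (nat_lit 7) (nat_lit 0) (.split (nat_lit 7) (nat_lit 1) (.split (nat_lit 7) (nat_lit 4) (.split (nat_lit 7) (nat_lit 5) (.split (nat_lit 7) (nat_lit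 3) (.split (nat_lit 7) (nat_lit 6) (.unj (nat_lit 5) (nat_lit 0x10001) (nat_lit 0x4150) (nat_lit 0x10000000000010002000200000000)) (.unj (nat_lit 5) (nat_lit 0x10001) (nat_lit 0x4150) (nat_lit 0x10000000000010002000200000000))) (.split (nat_lit 7) (nat_lit 6) (.unj (nat_lit 5) (nat_lit 0x10001) (nat_lit 0x4050) (nat_lit 0x10000000000000001000100000000)) (.non (nat_lit 0) (nat_lit 2) (nat_lit 0x5140) (nat_lit 0x10001000000010001000000000000)))) (.non (nat_lit 1) (nat_lit 2) (nat_lit 0x5541) (nat_lit 0x10001000200020001000000000001))) (.non (nat_lit 0) (nat_lit 2) (nat_lit 0x5540) (nat_lit 0x10001000100020001000000000000))) (.star (nat_lit 7) (nat_lit 1) (nat_lit 2))) (.star (nat_lit 7) (nat_lit 0) (nat_lit 2))))) t39_3))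

noncomputable def t39_5 : Tr := (.pd (.cons (nat_lit 0) (nat_lit 4) (nat_lit 0x1000010) (nat_lit 0x1502260) (nat_lit 0x1f423f00000f423f545910000100000) (.cons (nat_lit 1) (nat_lit 4) (nat_lit 0) (nat_lit 0x6502200) (nat_lit 0xf423ff423f00000f423f5459100000f423f) (.cons (nat_lit 1) (nat_lit 5) (nat_lit 0) (nat_lit 0x4032200) (nat_lit 0xf423f00000b71aea2c280473700000f423f) .nil))) (.ex (nat_lit 5) (.pd (.cons (nat_lit 0) (nat_lit 6) (nat_lit 0) (nat_lit 0x432210) (nat_lit 0xf423fb71aea2c2804737f423f00000) (.cons (nat_lit 1) (nat_lit 6) (nat_lit 0) (nat_lit 0x432200) (nat_lit 0xf423fb71aea2c280473700000f423f) .nil)) (.split (nat_lit 6) (nat_lit 1) (.ex (nat_lit 1) (.leaf (.cons (nat_lit 0x1154) (nat_lit 0x2000000030004000300010000) .nil) (.cons (nat_lit 0x1000010) (nat_lit 0x10001) (nat_lit 0) (nat_lit 0x1000000) .nil)) (.split (nat_lit 7) (nat_lit 2) (.split (nat_lit 7) (nat_lit 3) (.split (nat_lit 7) (nat_lit 4) (.split (nat_lit 7) (nat_lit 5) (.split (nat_lit 7) (nat_lit 6) (.split (nat_lit 7) (nat_lit 0)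 (.sup (nat_lit 0x1000300060008000600000000) (nat_lit 0x20000000000000000000000030003)) (.sup (nat_lit 0x3000300070008000600000000) (nat_lit 0x10000000000000000000000010002))) (.non (nat_lit 0) (nat_lit 2) (nat_lit 0x5004) (nat_lit 0x10001000000000000000000010000))) (.non (nat_lit 0) (nat_lit 2) (nat_lit 0x5504) (nat_lit 0x10001000100010000000000010000))) (.non (nat_lit 0) (nat_lit 2) (nat_lit 0x5540) (nat_lit 0x10001000100020001000000000000))) (.star (nat_lit 7) (nat_lit 1) (nat_lit 3))) (.star (nat_lit 7) (nat_lit 1) (nat_lit 2)))) (.non (nat_lit 0) (nat_lit 2) (nat_lit 0x2a84) (nat_lit 0x2000100020001000000020000)))) (.split (nat_lit 7) (nat_lit 1) (.split (nat_lit 7) (nat_lit 2) (.split (nat_lit 7) (nat_lit 3) (.split (nat_lit 7) (nat_lit 4) (.split (nat_lit 7) (nat_lit 6) (.split (nat_lit 7) (nat_lit 0) (.unj (nat_lit 5) (nat_lit 0x10001) (nat_lit 0x4550) (nat_lit 0x10000000200030004000300000000)) (.split (nat_lit 7) (nat_lit 0) (.split (nat_lit 7) (nat_lit 5) (.split (nat_lit 6) (nat_lit 1) (.sup (nat_lit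 0x20005000b0010000d00000000) (nat_lit 0x20000000000000000000000080008)) (.non (nat_lit 0) (nat_lit 2) (nat_lit 0x2a84) (nat_lit 0x2000100020001000000020000))) (.non (nat_lit 0) (nat_lit 2) (nat_lit 0x9540) (nat_lit 0x10001000200020001000000000000))) (.non (nat_lit 1) (nat_lit 2) (nat_lit 0xaa81) (nat_lit 0x20001000200020001000000000002)))) (.non (nat_lit 0) (nat_lit 2) (nat_lit 0x5500) (nat_lit 0x10001000100010000000000000000))) (.non (nat_lit 0) (nat_lit 2) (nat_lit 0x4500) (nat_lit 0x10000000100010000000000000000))) (.non (nat_lit 0) (nat_lit 2) (nat_lit 0x4540) (nat_lit 0x10000000100010001000000000000))) (.non (nat_lit 1) (nat_lit 5) (nat_lit 0x4150) (nat_lit 0x10000000000010002000200000000))) (.non (nat_lit 0) (nat_lit 2) (nat_lit 0x5504) (nat_lit 0x10001000100010000000000010000)))))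

noncomputable def t39_6 : Tr := (.split (nat_lit 5) (nat_lit 0) (.st (nat_lit 6) (nat_lit 0) (nat_lit 2) (nat_lit 0x1544) (nat_lit 0x2000100020001000000010000) (nat_lit 1) (nat_lit 1) (.ex (nat_lit 2) (.ex (nat_lit 3) t39_5 (.split (nat_lit 7) (nat_lit 0) (.split (nat_lit 7) (nat_lit 1) (.split (nat_lit 7) (nat_lit 4) (.split (nat_lit 7) (nat_lit 5) (.split (nat_lit 7) (nat_lit 6) (.split (nat_lit 7) (nat_lit 2) (.unj (nat_lit 5) (nat_lit 0x10001) (nat_lit 0x4150) (nat_lit 0x10000000000010002000200000000)) (.unj (nat_lit 5) (nat_lit 0x10001) (nat_lit 0x4050) (nat_lit 0x10000000000000001000100000000))) (.non (nat_lit 0) (nat_lit 2) (nat_lit 0x5140) (nat_lit 0x10001000000010001000000000000))) (.non (nat_lit 0) (nat_lit 2) (nat_lit 0x4540) (nat_lit 0x10000000100010001000000000000))) (.non (nat_lit 0) (nat_lit 2) (nat_lit 0x4140) (nat_lit 0x10000000000010001000000000000))) (.star (nat_lit 7) (nat_lit 1) (nat_lit 3))) (.star (nat_lit 7) (nat_lit 0) (nat_lit 3)))) (.split (nat_lit 7) (nat_lit 0) (.split (nat_lit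 7) (nat_lit 1) (.split (nat_lit 7) (nat_lit 4) (.split (nat_lit 7) (nat_lit 6) (.split (nat_lit 7) (nat_lit 3) (.split (nat_lit 7) (nat_lit 5) (.unj (nat_lit 5) (nat_lit 0x10001) (nat_lit 0x4150) (nat_lit 0x10000000000010002000200000000)) (.unj (nat_lit 5) (nat_lit 0x10001) (nat_lit 0x4150) (nat_lit 0x10000000000010002000200000000))) (.split (nat_lit 7) (nat_lit 5) (.unj (nat_lit 5) (nat_lit 0x10001) (nat_lit 0x4050) (nat_lit 0x10000000000000001000100000000)) (.non (nat_lit 0) (nat_lit 2) (nat_lit 0x4540) (nat_lit 0x10000000100010001000000000000)))) (.non (nat_lit 0) (nat_lit 2) (nat_lit 0x5544) (nat_lit 0x10002000100020001000000010000))) (.non (nat_lit 0) (nat_lit 2) (nat_lit 0x5540) (nat_lit 0x10001000100020001000000000000))) (.star (nat_lit 7) (nat_lit 1) (nat_lit 2))) (.star (nat_lit 7) (nat_lit 0) (nat_lit 2))))) (.st (nat_lit 5) (nat_lit 1) (nat_lit 2) (nat_lit 0x1541) (nat_lit 0x1000200020001000000000001) (nat_lit 1) (nat_lit 1) (.st (nat_lit 6) (nat_lit 0) (nat_lit 2) (nat_lit 0x1544) (nat_lit 0x2000100020001000000010000)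 (nat_lit 1) (nat_lit 1) (.ex (nat_lit 2) (.ex (nat_lit 3) (.pd (.cons (nat_lit 0) (nat_lit 4) (nat_lit 0x1000010) (nat_lit 0x1502260) (nat_lit 0x1f423f00000f423f545910000100000) (.cons (nat_lit 0) (nat_lit 6) (nat_lit 0) (nat_lit 0x432210) (nat_lit 0xf423fb71aea2c2804737f423f00000) (.cons (nat_lit 1) (nat_lit 4) (nat_lit 0x100001) (nat_lit 0x6002205) (nat_lit 0xf423f0000100000f423f545910000000001) (.cons (nat_lit 1) (nat_lit 5) (nat_lit 0) (nat_lit 0x4032200) (nat_lit 0xf423f00000b71aea2c280473700000f423f) .nil)))) (.leaf (.cons (nat_lit 0x1154) (nat_lit 0x2000000030004000300010000) (.cons (nat_lit 0x551) (nat_lit 0x200030004000300000001) .nil)) .nil)) (.split (nat_lit 7) (nat_lit 0) (.split (nat_lit 7) (nat_lit 1) (.split (nat_lit 7) (nat_lit 4) (.split (nat_lit 7) (nat_lit 5) (.split (nat_lit 7) (nat_lit 6) (.split (nat_lit 7) (nat_lit 2) (.unj (nat_lit 5) (nat_lit 0x10001) (nat_lit 0x4150) (nat_lit 0x10000000000010002000200000000)) (.unj (nat_lit 5) (nat_lit 0x10001) (nat_lit 0x4050) (nat_lit 0x10000000000000001000100000000)))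 (.non (nat_lit 0) (nat_lit 2) (nat_lit 0x5140) (nat_lit 0x10001000000010001000000000000))) (.non (nat_lit 0) (nat_lit 2) (nat_lit 0x4540) (nat_lit 0x10000000100010001000000000000))) (.non (nat_lit 0) (nat_lit 2) (nat_lit 0x4140) (nat_lit 0x10000000000010001000000000000))) (.star (nat_lit 7) (nat_lit 1) (nat_lit 3))) (.star (nat_lit 7) (nat_lit 0) (nat_lit 3)))) (.split (nat_lit 7) (nat_lit 0) (.split (nat_lit 7) (nat_lit 1) (.split (nat_lit 7) (nat_lit 4) (.split (nat_lit 7) (nat_lit 5) (.split (nat_lit 7) (nat_lit 6) (.split (nat_lit 7) (nat_lit 3) (.unj (nat_lit 5) (nat_lit 0x10001) (nat_lit 0x4150) (nat_lit 0x10000000000010002000200000000)) (.unj (nat_lit 5) (nat_lit 0x10001) (nat_lit 0x4050) (nat_lit 0x10000000000000001000100000000))) (.non (nat_lit 0) (nat_lit 2) (nat_lit 0x5544) (nat_lit 0x10002000100020001000000010000))) (.non (nat_lit 1) (nat_lit 2) (nat_lit 0x5541) (nat_lit 0x10001000200020001000000000001))) (.non (nat_lit 0) (nat_lit 2) (nat_lit 0x5540) (nat_lit 0x10001000100020001000000000000)))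 (.star (nat_lit 7) (nat_lit 1) (nat_lit 2))) (.star (nat_lit 7) (nat_lit 0) (nat_lit 2)))))))

noncomputable def t39_7 : Tr := (.pd (.cons (nat_lit 0) (nat_lit 4) (nat_lit 0) (nat_lit 0x6502210) (nat_lit 0xf423ff423f00000f423f54591f423f00000) (.cons (nat_lit 0) (nat_lit 5) (nat_lit 0) (nat_lit 0x4032210) (nat_lit 0xf423f00000b71aea2c2804737f423f00000) (.cons (nat_lit 1) (nat_lit 4) (nat_lit 0x1000001) (nat_lit 0x502206) (nat_lit 0x1f423f00000f423f545910000000001) .nil))) (.ex (nat_lit 5) (.pd (.cons (nat_lit 0) (nat_lit 6) (nat_lit 0) (nat_lit 0x432210) (nat_lit 0xf423fb71aea2c2804737f423f00000) (.cons (nat_lit 1) (nat_lit 6) (nat_lit 0) (nat_lit 0x432200) (nat_lit 0xf423fb71aea2c280473700000f423f) .nil)) (.split (nat_lit 6) (nat_lit 0) (.ex (nat_lit 0) (.leaf (.cons (nat_lit 0x1151) (nat_lit 0x2000000030004000300000001) .nil) (.cons (nat_lit 0x1000001) (nat_lit 0x10010) (nat_lit 0) (nat_lit 0x1000000) .nil)) (.split (nat_lit 7) (nat_lit 2) (.split (nat_lit 7) (nat_lit 3) (.split (nat_lit 7) (nat_lit 4) (.split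 (nat_lit 7) (nat_lit 5) (.split (nat_lit 7) (nat_lit 6) (.split (nat_lit 7) (nat_lit 1) (.sup (nat_lit 0x1000300060008000600000000) (nat_lit 0x20000000000000000000000030003)) (.sup (nat_lit 0x3000300070008000600000000) (nat_lit 0x10000000000000000000000020001))) (.non (nat_lit 1) (nat_lit 2) (nat_lit 0x5001) (nat_lit 0x10001000000000000000000000001))) (.non (nat_lit 1) (nat_lit 2) (nat_lit 0x5501) (nat_lit 0x10001000100010000000000000001))) (.non (nat_lit 0) (nat_lit 2) (nat_lit 0x5540) (nat_lit 0x10001000100020001000000000000))) (.star (nat_lit 7) (nat_lit 0) (nat_lit 3))) (.star (nat_lit 7) (nat_lit 0) (nat_lit 2)))) (.non (nat_lit 1) (nat_lit 2) (nat_lit 0x2a81) (nat_lit 0x2000100020001000000000002)))) (.split (nat_lit 7) (nat_lit 0) (.split (nat_lit 7) (nat_lit 2) (.split (nat_lit 7) (nat_lit 3) (.split (nat_lit 7) (nat_lit 4) (.split (nat_lit 7) (nat_lit 6) (.split (nat_lit 7) (nat_lit 1) (.unj (nat_lit 5) (nat_lit 0x10001) (nat_lit 0x4550) (nat_lit 0x10000000200030004000300000000)) (.split (nat_lit 7)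 (nat_lit 1) (.split (nat_lit 7) (nat_lit 5) (.split (nat_lit 6) (nat_lit 0) (.sup (nat_lit 0x20005000b0010000d00000000) (nat_lit 0x20000000000000000000000080008)) (.non (nat_lit 1) (nat_lit 2) (nat_lit 0x2a81) (nat_lit 0x2000100020001000000000002))) (.non (nat_lit 0) (nat_lit 2) (nat_lit 0x9540) (nat_lit 0x10001000200020001000000000000))) (.non (nat_lit 0) (nat_lit 2) (nat_lit 0xaa84) (nat_lit 0x20001000200020001000000020000)))) (.non (nat_lit 0) (nat_lit 2) (nat_lit 0x5500) (nat_lit 0x10001000100010000000000000000))) (.non (nat_lit 0) (nat_lit 2) (nat_lit 0x4500) (nat_lit 0x10000000100010000000000000000))) (.non (nat_lit 0) (nat_lit 2) (nat_lit 0x4540) (nat_lit 0x10000000100010001000000000000))) (.non (nat_lit 0) (nat_lit 5) (nat_lit 0x4150) (nat_lit 0x10000000000010002000200000000))) (.non (nat_lit 1) (nat_lit 2) (nat_lit 0x5501) (nat_lit 0x10001000100010000000000000001)))))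

noncomputable def t39_8 : Tr := (.split (nat_lit 5) (nat_lit 1) (.st (nat_lit 6) (nat_lit 1) (nat_lit 2) (nat_lit 0x1541) (nat_lit 0x2000100020001000000000001) (nat_lit 1) (nat_lit 1) (.ex (nat_lit 2) (.ex (nat_lit 3) t39_7 (.split (nat_lit 7) (nat_lit 0) (.split (nat_lit 7) (nat_lit 1) (.split (nat_lit 7) (nat_lit 4) (.split (nat_lit 7) (nat_lit 5) (.split (nat_lit 7) (nat_lit 6) (.split (nat_lit 7) (nat_lit 2) (.unj (nat_lit 5) (nat_lit 0x10001) (nat_lit 0x4150) (nat_lit 0x10000000000010002000200000000)) (.unj (nat_lit 5) (nat_lit 0x10001) (nat_lit 0x4050) (nat_lit 0x10000000000000001000100000000))) (.non (nat_lit 0) (nat_lit 2) (nat_lit 0x5140) (nat_lit 0x10001000000010001000000000000))) (.non (nat_lit 0) (nat_lit 2) (nat_lit 0x4540) (nat_lit 0x10000000100010001000000000000))) (.non (nat_lit 0) (nat_lit 2) (nat_lit 0x4140) (nat_lit 0x10000000000010001000000000000))) (.star (nat_lit 7) (nat_lit 1) (nat_lit 3))) (.star (nat_lit 7) (nat_lit 0) (nat_lit 3)))) (.split (nat_lit 7) (nat_lit 0) (.split (nat_lit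 7) (nat_lit 1) (.split (nat_lit 7) (nat_lit 4) (.split (nat_lit 7) (nat_lit 6) (.split (nat_lit 7) (nat_lit 3) (.split (nat_lit 7) (nat_lit 5) (.unj (nat_lit 5) (nat_lit 0x10001) (nat_lit 0x4150) (nat_lit 0x10000000000010002000200000000)) (.unj (nat_lit 5) (nat_lit 0x10001) (nat_lit 0x4150) (nat_lit 0x10000000000010002000200000000))) (.split (nat_lit 7) (nat_lit 5) (.unj (nat_lit 5) (nat_lit 0x10001) (nat_lit 0x4050) (nat_lit 0x10000000000000001000100000000)) (.non (nat_lit 0) (nat_lit 2) (nat_lit 0x4540) (nat_lit 0x10000000100010001000000000000)))) (.non (nat_lit 1) (nat_lit 2) (nat_lit 0x5541) (nat_lit 0x10002000100020001000000000001))) (.non (nat_lit 0) (nat_lit 2) (nat_lit 0x5540) (nat_lit 0x10001000100020001000000000000))) (.star (nat_lit 7) (nat_lit 1) (nat_lit 2))) (.star (nat_lit 7) (nat_lit 0) (nat_lit 2))))) (.st (nat_lit 5) (nat_lit 0) (nat_lit 2) (nat_lit 0x1544) (nat_lit 0x1000200020001000000010000) (nat_lit 1) (nat_lit 1) (.st (nat_lit 6) (nat_lit 1) (nat_lit 2) (nat_lit 0x1541) (nat_lit 0x2000100020001000000000001)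 (nat_lit 1) (nat_lit 1) (.ex (nat_lit 2) (.ex (nat_lit 3) (.pd (.cons (nat_lit 0) (nat_lit 4) (nat_lit 0x100010) (nat_lit 0x6102250) (nat_lit 0xf423f0000100000f423f545910000100000) (.cons (nat_lit 0) (nat_lit 5) (nat_lit 0) (nat_lit 0x4032210) (nat_lit 0xf423f00000b71aea2c2804737f423f00000) (.cons (nat_lit 1) (nat_lit 4) (nat_lit 0x1000001) (nat_lit 0x502206) (nat_lit 0x1f423f00000f423f545910000000001) (.cons (nat_lit 1) (nat_lit 6) (nat_lit 0) (nat_lit 0x432200) (nat_lit 0xf423fb71aea2c280473700000f423f) .nil)))) (.leaf (.cons (nat_lit 0x554) (nat_lit 0x200030004000300010000) (.cons (nat_lit 0x1151) (nat_lit 0x2000000030004000300000001) .nil)) .nil)) (.split (nat_lit 7) (nat_lit 0) (.split (nat_lit 7) (nat_lit 1) (.split (nat_lit 7) (nat_lit 4) (.split (nat_lit 7) (nat_lit 5) (.split (nat_lit 7) (nat_lit 6) (.split (nat_lit 7) (nat_lit 2) (.unj (nat_lit 5) (nat_lit 0x10001) (nat_lit 0x4150) (nat_lit 0x10000000000010002000200000000)) (.unj (nat_lit 5) (nat_lit 0x10001) (nat_lit 0x4050) (nat_lit 0x10000000000000001000100000000)))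 (.non (nat_lit 0) (nat_lit 2) (nat_lit 0x5140) (nat_lit 0x10001000000010001000000000000))) (.non (nat_lit 0) (nat_lit 2) (nat_lit 0x4540) (nat_lit 0x10000000100010001000000000000))) (.non (nat_lit 0) (nat_lit 2) (nat_lit 0x4140) (nat_lit 0x10000000000010001000000000000))) (.star (nat_lit 7) (nat_lit 1) (nat_lit 3))) (.star (nat_lit 7) (nat_lit 0) (nat_lit 3)))) (.split (nat_lit 7) (nat_lit 0) (.split (nat_lit 7) (nat_lit 1) (.split (nat_lit 7) (nat_lit 4) (.split (nat_lit 7) (nat_lit 5) (.split (nat_lit 7) (nat_lit 6) (.split (nat_lit 7) (nat_lit 3) (.unj (nat_lit 5) (nat_lit 0x10001) (nat_lit 0x4150) (nat_lit 0x10000000000010002000200000000)) (.unj (nat_lit 5) (nat_lit 0x10001) (nat_lit 0x4050) (nat_lit 0x10000000000000001000100000000))) (.non (nat_lit 1) (nat_lit 2) (nat_lit 0x5541) (nat_lit 0x10002000100020001000000000001))) (.non (nat_lit 0) (nat_lit 2) (nat_lit 0x5544) (nat_lit 0x10001000200020001000000010000))) (.non (nat_lit 0) (nat_lit 2) (nat_lit 0x5540) (nat_lit 0x10001000100020001000000000000)))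 (.star (nat_lit 7) (nat_lit 1) (nat_lit 2))) (.star (nat_lit 7) (nat_lit 0) (nat_lit 2)))))))

noncomputable def t39_9 : Tr := (.ex (nat_lit 2) (.ex (nat_lit 3) (.pd (.cons (nat_lit 0) (nat_lit 4) (nat_lit 0x1000010) (nat_lit 0x1502260) (nat_lit 0x1f423f00000f423f545910000100000) (.cons (nat_lit 1) (nat_lit 4) (nat_lit 0x1000001) (nat_lit 0x502206) (nat_lit 0x1f423f00000f423f545910000000001) .nil)) (.ex (nat_lit 5) (.pd (.cons (nat_lit 0) (nat_lit 6) (nat_lit 0) (nat_lit 0x432210) (nat_lit 0xf423fb71aea2c2804737f423f00000) (.cons (nat_lit 1) (nat_lit 6) (nat_lit 0) (nat_lit 0x432200) (nat_lit 0xf423fb71aea2c280473700000f423f) .nil)) (.leaf (.cons (nat_lit 0x1154) (nat_lit 0x2000000030004000300010000) (.cons (nat_lit 0x1151) (nat_lit 0x2000000030004000300000001) .nil)) .nil)) (.split (nat_lit 7) (nat_lit 0) (.split (nat_lit 7) (nat_lit 1) (.split (nat_lit 7) (nat_lit 3) (.split (nat_lit 7) (nat_lit 4) (.split (nat_lit 7) (nat_lit 6) (.split (nat_lit 7) (nat_lit 2) (.unj (nat_lit 5) (nat_lit 0x10001) (nat_lit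 0x4550) (nat_lit 0x10000000200030004000300000000)) (.unj (nat_lit 5) (nat_lit 0x10001) (nat_lit 0x4150) (nat_lit 0x10000000000010002000200000000))) (.non (nat_lit 0) (nat_lit 2) (nat_lit 0x5500) (nat_lit 0x10001000100010000000000000000))) (.non (nat_lit 0) (nat_lit 2) (nat_lit 0x4500) (nat_lit 0x10000000100010000000000000000))) (.non (nat_lit 0) (nat_lit 2) (nat_lit 0x4540) (nat_lit 0x10000000100010001000000000000))) (.non (nat_lit 0) (nat_lit 2) (nat_lit 0x5504) (nat_lit 0x10001000100010000000000010000))) (.non (nat_lit 1) (nat_lit 2) (nat_lit 0x5501) (nat_lit 0x10001000100010000000000000001))))) (.split (nat_lit 7) (nat_lit 0) (.split (nat_lit 7) (nat_lit 1) (.split (nat_lit 7) (nat_lit 4) (.split (nat_lit 7) (nat_lit 5) (.split (nat_lit 7) (nat_lit 6) (.split (nat_lit 7) (nat_lit 2) (.unj (nat_lit 5) (nat_lit 0x10001) (nat_lit 0x4150) (nat_lit 0x10000000000010002000200000000)) (.unj (nat_lit 5) (nat_lit 0x10001) (nat_lit 0x4050) (nat_lit 0x10000000000000001000100000000))) (.non (nat_lit 0) (nat_lit 2) (nat_lit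 0x5140) (nat_lit 0x10001000000010001000000000000))) (.non (nat_lit 0) (nat_lit 2) (nat_lit 0x4540) (nat_lit 0x10000000100010001000000000000))) (.non (nat_lit 0) (nat_lit 2) (nat_lit 0x4140) (nat_lit 0x10000000000010001000000000000))) (.star (nat_lit 7) (nat_lit 1) (nat_lit 3))) (.star (nat_lit 7) (nat_lit 0) (nat_lit 3)))) (.split (nat_lit 7) (nat_lit 0) (.split (nat_lit 7) (nat_lit 1) (.split (nat_lit 7) (nat_lit 4) (.split (nat_lit 7) (nat_lit 6) (.split (nat_lit 7) (nat_lit 3) (.split (nat_lit 7) (nat_lit 5) (.unj (nat_lit 5) (nat_lit 0x10001) (nat_lit 0x4150) (nat_lit 0x10000000000010002000200000000)) (.unj (nat_lit 5) (nat_lit 0x10001) (nat_lit 0x4150) (nat_lit 0x10000000000010002000200000000))) (.split (nat_lit 7) (nat_lit 5) (.unj (nat_lit 5) (nat_lit 0x10001) (nat_lit 0x4050) (nat_lit 0x10000000000000001000100000000)) (.non (nat_lit 0) (nat_lit 2) (nat_lit 0x4540) (nat_lit 0x10000000100010001000000000000)))) (.non (nat_lit 0) (nat_lit 2) (nat_lit 0x5544) (nat_lit 0x10002000100020001000000010000)))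 (.non (nat_lit 0) (nat_lit 2) (nat_lit 0x5540) (nat_lit 0x10001000100020001000000000000))) (.star (nat_lit 7) (nat_lit 1) (nat_lit 2))) (.star (nat_lit 7) (nat_lit 0) (nat_lit 2))))

noncomputable def t39 : Tr := (.split (nat_lit 6) (nat_lit 0) (.split (nat_lit 6) (nat_lit 1) t39_4 (.split (nat_lit 5) (nat_lit 1) t39_6 (.non (nat_lit 0) (nat_lit 2) (nat_lit 0x1504) (nat_lit 0x1000100010000000000010000)))) (.split (nat_lit 5) (nat_lit 0) (.split (nat_lit 6) (nat_lit 1) t39_8 (.split (nat_lit 5) (nat_lit 1) t39_9 (.non (nat_lit 0) (nat_lit 2) (nat_lit 0x1504) (nat_lit 0x1000100010000000000010000)))) (.non (nat_lit 1) (nat_lit 2) (nat_lit 0x1501) (nat_lit 0x1000100010000000000000001))))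

noncomputable def t46_1 : Tr := (.st (nat_lit 5) (nat_lit 0) (nat_lit 2) (nat_lit 0x1504) (nat_lit 0x1000200010000000000010000) (nat_lit 1) (nat_lit 1) (.st (nat_lit 6) (nat_lit 0) (nat_lit 3) (nat_lit 0x1514) (nat_lit 0x2000200010000000100010000) (nat_lit 1) (nat_lit 1) (.ex (nat_lit 2) (.ex (nat_lit 3) (.split (nat_lit 5) (nat_lit 1) (.pd (.cons (nat_lit 0) (nat_lit 4) (nat_lit 0) (nat_lit 0x5102610) (nat_lit 0x7a11c7a11a00000f423f7a11e7a11800000) (.cons (nat_lit 0) (nat_lit 5) (nat_lit 0) (nat_lit 0x2032210) (nat_lit 0xf423f00000f423fb71ae14581f423f00000) (.cons (nat_lit 0) (nat_lit 6) (nat_lit 0) (nat_lit 0x154310) (nat_lit 0x7a11a7a11c7a11ef423f7a11800000) (.cons (nat_lit 1) (nat_lit 4) (nat_lit 0) (nat_lit 0x2602200) (nat_lit 0xb71aef423f00000f423f28b0700000f423f) (.cons (nat_lit 1) (nat_lit 5) (nat_lit 0) (nat_lit 0x2032200) (nat_lit 0xf423f00000f423fb71ae1458100000f423f) (.cons (nat_lit 1) (nat_lit 6) (nat_lit 0) (nat_lit 0x432200) (nat_lit 0xf423fb71aea2c283d08b00000f423f) .nil)))))) (.leaf .nil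 .nil)) (.non (nat_lit 0) (nat_lit 2) (nat_lit 0x2a04) (nat_lit 0x1000200010000000000020000))) (.split (nat_lit 7) (nat_lit 0) (.split (nat_lit 7) (nat_lit 1) (.split (nat_lit 7) (nat_lit 4) (.split (nat_lit 7) (nat_lit 5) (.split (nat_lit 7) (nat_lit 6) (.split (nat_lit 7) (nat_lit 2) (.unj (nat_lit 5) (nat_lit 0x10001) (nat_lit 0x8290) (nat_lit 0x10000000000010002000200000000)) (.unj (nat_lit 5) (nat_lit 0x10001) (nat_lit 0x4050) (nat_lit 0x10000000000000001000100000000))) (.non (nat_lit 0) (nat_lit 2) (nat_lit 0x5540) (nat_lit 0x10001000100010001000000000000))) (.non (nat_lit 0) (nat_lit 2) (nat_lit 0x4540) (nat_lit 0x10000000100010001000000000000))) (.non (nat_lit 0) (nat_lit 2) (nat_lit 0x4140) (nat_lit 0x10000000000010001000000000000))) (.star (nat_lit 7) (nat_lit 1) (nat_lit 3))) (.star (nat_lit 7) (nat_lit 0) (nat_lit 3)))) (.split (nat_lit 7) (nat_lit 0) (.split (nat_lit 7) (nat_lit 1) (.split (nat_lit 7) (nat_lit 4) (.split (nat_lit 7) (nat_lit 5) (.split (nat_lit 7) (nat_lit 6) (.split (nat_lit 7)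 (nat_lit 3) (.unj (nat_lit 5) (nat_lit 0x10001) (nat_lit 0x5090) (nat_lit 0x10001000000000001000200000000)) (.unj (nat_lit 5) (nat_lit 0x10001) (nat_lit 0x4050) (nat_lit 0x10000000000000001000100000000))) (.non (nat_lit 0) (nat_lit 3) (nat_lit 0x5010) (nat_lit 0x10001000000000000000100000000))) (.non (nat_lit 0) (nat_lit 2) (nat_lit 0x5504) (nat_lit 0x10001000200010000000000010000))) (.non (nat_lit 0) (nat_lit 2) (nat_lit 0x5544) (nat_lit 0x10001000200020001000000010000))) (.star (nat_lit 7) (nat_lit 1) (nat_lit 2))) (.star (nat_lit 7) (nat_lit 0) (nat_lit 2))))))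

noncomputable def t46_2 : Tr := (.st (nat_lit 5) (nat_lit 1) (nat_lit 2) (nat_lit 0x1501) (nat_lit 0x1000200010000000000000001) (nat_lit 1) (nat_lit 1) (.st (nat_lit 6) (nat_lit 1) (nat_lit 3) (nat_lit 0x1511) (nat_lit 0x2000200010000000100000001) (nat_lit 1) (nat_lit 1) (.ex (nat_lit 2) (.ex (nat_lit 3) (.split (nat_lit 5) (nat_lit 0) (.pd (.cons (nat_lit 0) (nat_lit 4) (nat_lit 0) (nat_lit 0x2602210) (nat_lit 0xb71aef423f00000f423f28b07f423f00000) (.cons (nat_lit 0) (nat_lit 5) (nat_lit 0) (nat_lit 0x2032210) (nat_lit 0xf423f00000f423fb71ae14581f423f00000) (.cons (nat_lit 0) (nat_lit 6) (nat_lit 0) (nat_lit 0x432210) (nat_lit 0xf423fb71aea2c283d08bf423f00000) (.cons (nat_lit 1) (nat_lit 4) (nat_lit 0) (nat_lit 0x5002600) (nat_lit 0x7a11c7a11a00000f423f7a11e000007a118) (.cons (nat_lit 1) (nat_lit 5) (nat_lit 0) (nat_lit 0x2032200) (nat_lit 0xf423f00000f423fb71ae1458100000f423f) (.cons (nat_lit 1) (nat_lit 6) (nat_lit 0) (nat_lit 0x54300) (nat_lit 0x7a11a7a11c7a11ef423f000007a118) .nil)))))) (.leaf .nil .nil))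 (.non (nat_lit 1) (nat_lit 2) (nat_lit 0x2a01) (nat_lit 0x1000200010000000000000002))) (.split (nat_lit 7) (nat_lit 0) (.split (nat_lit 7) (nat_lit 1) (.split (nat_lit 7) (nat_lit 4) (.split (nat_lit 7) (nat_lit 5) (.split (nat_lit 7) (nat_lit 6) (.split (nat_lit 7) (nat_lit 2) (.unj (nat_lit 5) (nat_lit 0x10001) (nat_lit 0x8290) (nat_lit 0x10000000000010002000200000000)) (.unj (nat_lit 5) (nat_lit 0x10001) (nat_lit 0x4050) (nat_lit 0x10000000000000001000100000000))) (.non (nat_lit 0) (nat_lit 2) (nat_lit 0x5540) (nat_lit 0x10001000100010001000000000000))) (.non (nat_lit 0) (nat_lit 2) (nat_lit 0x4540) (nat_lit 0x10000000100010001000000000000))) (.non (nat_lit 0) (nat_lit 2) (nat_lit 0x4140) (nat_lit 0x10000000000010001000000000000))) (.star (nat_lit 7) (nat_lit 1) (nat_lit 3))) (.star (nat_lit 7) (nat_lit 0) (nat_lit 3)))) (.split (nat_lit 7) (nat_lit 0) (.split (nat_lit 7) (nat_lit 1) (.split (nat_lit 7) (nat_lit 4) (.split (nat_lit 7) (nat_lit 5) (.split (nat_lit 7) (nat_lit 6) (.split (nat_lit 7) (nat_lit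 3) (.unj (nat_lit 5) (nat_lit 0x10001) (nat_lit 0x5090) (nat_lit 0x10001000000000001000200000000)) (.unj (nat_lit 5) (nat_lit 0x10001) (nat_lit 0x4050) (nat_lit 0x10000000000000001000100000000))) (.non (nat_lit 0) (nat_lit 3) (nat_lit 0x5010) (nat_lit 0x10001000000000000000100000000))) (.non (nat_lit 0) (nat_lit 3) (nat_lit 0x5410) (nat_lit 0x10001000100000000000100000000))) (.non (nat_lit 0) (nat_lit 3) (nat_lit 0x5510) (nat_lit 0x10001000100010000000100000000))) (.star (nat_lit 7) (nat_lit 1) (nat_lit 2))) (.star (nat_lit 7) (nat_lit 0) (nat_lit 2))))))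

noncomputable def t46_3 : Tr := (.st (nat_lit 6) (nat_lit 0) (nat_lit 3) (nat_lit 0x1514) (nat_lit 0x2000200010000000100010000) (nat_lit 1) (nat_lit 1) (.ex (nat_lit 2) (.ex (nat_lit 3) (.split (nat_lit 5) (nat_lit 1) (.split (nat_lit 5) (nat_lit 0) (.pd (.cons (nat_lit 0) (nat_lit 4) (nat_lit 0) (nat_lit 0x5102610) (nat_lit 0x7a11c7a11a00000f423f7a11e7a11800000) (.cons (nat_lit 0) (nat_lit 5) (nat_lit 0) (nat_lit 0x2032210) (nat_lit 0xf423f00000f423fb71ae14581f423f00000) (.cons (nat_lit 0) (nat_lit 6) (nat_lit 0) (nat_lit 0x154310) (nat_lit 0x7a11a7a11c7a11ef423f7a11800000) (.cons (nat_lit 1) (nat_lit 4) (nat_lit 0) (nat_lit 0x5002600) (nat_lit 0x7a11c7a11a00000f423f7a11e000007a118) (.cons (nat_lit 1) (nat_lit 5) (nat_lit 0) (nat_lit 0x2032200) (nat_lit 0xf423f00000f423fb71ae1458100000f423f) (.cons (nat_lit 1) (nat_lit 6) (nat_lit 0) (nat_lit 0x54300) (nat_lit 0x7a11a7a11c7a11ef423f000007a118) .nil)))))) (.leaf .nil .nil)) (.non (nat_lit 1) (nat_lit 2) (nat_lit 0x2a01) (nat_lit 0x1000200010000000000000002)))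 (.non (nat_lit 0) (nat_lit 2) (nat_lit 0x2a04) (nat_lit 0x1000200010000000000020000))) (.split (nat_lit 7) (nat_lit 0) (.split (nat_lit 7) (nat_lit 1) (.split (nat_lit 7) (nat_lit 4) (.split (nat_lit 7) (nat_lit 5) (.split (nat_lit 7) (nat_lit 6) (.split (nat_lit 7) (nat_lit 2) (.unj (nat_lit 5) (nat_lit 0x10001) (nat_lit 0x8290) (nat_lit 0x10000000000010002000200000000)) (.unj (nat_lit 5) (nat_lit 0x10001) (nat_lit 0x4050) (nat_lit 0x10000000000000001000100000000))) (.non (nat_lit 0) (nat_lit 2) (nat_lit 0x5540) (nat_lit 0x10001000100010001000000000000))) (.non (nat_lit 0) (nat_lit 2) (nat_lit 0x4540) (nat_lit 0x10000000100010001000000000000))) (.non (nat_lit 0) (nat_lit 2) (nat_lit 0x4140) (nat_lit 0x10000000000010001000000000000))) (.star (nat_lit 7) (nat_lit 1) (nat_lit 3))) (.star (nat_lit 7) (nat_lit 0) (nat_lit 3)))) (.split (nat_lit 7) (nat_lit 0) (.split (nat_lit 7) (nat_lit 1) (.split (nat_lit 7) (nat_lit 4) (.split (nat_lit 7) (nat_lit 5) (.split (nat_lit 7) (nat_lit 6) (.split (nat_lit 7) (nat_lit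 3) (.unj (nat_lit 5) (nat_lit 0x10001) (nat_lit 0x5090) (nat_lit 0x10001000000000001000200000000)) (.unj (nat_lit 5) (nat_lit 0x10001) (nat_lit 0x4050) (nat_lit 0x10000000000000001000100000000))) (.non (nat_lit 0) (nat_lit 3) (nat_lit 0x5010) (nat_lit 0x10001000000000000000100000000))) (.non (nat_lit 0) (nat_lit 2) (nat_lit 0x5504) (nat_lit 0x10001000200010000000000010000))) (.non (nat_lit 0) (nat_lit 2) (nat_lit 0x5544) (nat_lit 0x10001000200020001000000010000))) (.star (nat_lit 7) (nat_lit 1) (nat_lit 2))) (.star (nat_lit 7) (nat_lit 0) (nat_lit 2)))))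

noncomputable def t46 : Tr := (.split (nat_lit 5) (nat_lit 0) (.split (nat_lit 5) (nat_lit 1) .uj (.st (nat_lit 4) (nat_lit 0) (nat_lit 2) (nat_lit 0x1544) (nat_lit 0x1000200020001000000010000) (nat_lit 1) (nat_lit 1) t46_1)) (.split (nat_lit 5) (nat_lit 1) (.st (nat_lit 4) (nat_lit 1) (nat_lit 2) (nat_lit 0x1541) (nat_lit 0x1000200020001000000000001) (nat_lit 1) (nat_lit 1) t46_2) (.st (nat_lit 4) (nat_lit 0) (nat_lit 2) (nat_lit 0x1544) (nat_lit 0x1000200020001000000010000) (nat_lit 1) (nat_lit 1) (.st (nat_lit 5) (nat_lit 0) (nat_lit 2) (nat_lit 0x1504) (nat_lit 0x1000200010000000000010000) (nat_lit 1) (nat_lit 1) t46_3))))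

noncomputable def t81_1 : Tr := (.pd (.cons (nat_lit 0) (nat_lit 5) (nat_lit 0x110) (nat_lit 0x66033120) (nat_lit 0xf423fb71ae00000f423f54591000010000100000) (.cons (nat_lit 0) (nat_lit 6) (nat_lit 0x110) (nat_lit 0x70433120) (nat_lit 0xf423f00000f423fb71ae1f156000010000100000) (.cons (nat_lit 0) (nat_lit 7) (nat_lit 0x110) (nat_lit 0x5433120) (nat_lit 0xf423fb71aea2c2804737000010000100000) (.cons (nat_lit 1) (nat_lit 5) (nat_lit 0) (nat_lit 0x60033200) (nat_lit 0xf423fb71ae00000f423f54591f423f00000a2c28) (.cons (nat_lit 1) (nat_lit 6) (nat_lit 0) (nat_lit 0x70433200) (nat_lit 0xf423f00000f423fb71ae1f156f423f00000f423f) (.cons (nat_lit 2) (nat_lit 6) (nat_lit 0) (nat_lit 0x70433000) (nat_lit 0xf423f00000f423fb71ae1f15600000f423fb71ae) .nil)))))) (.ex (nat_lit 7) (.pd (.cons (nat_lit 2) (nat_lit 3) (nat_lit 0) (nat_lit 0x60650000) (nat_lit 0xf423f65b97b71aef423f0000000000f423f249e8) (.cons (nat_lit 2) (nat_lit 4) (nat_lit 0) (nat_lit 0x60603000) (nat_lit 0xf423f7a11df423f00000f423f00000f423f3d08a) (.cons (nat_lit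 2) (nat_lit 5) (nat_lit 0) (nat_lit 0x60033000) (nat_lit 0xf423fb71ae00000f423f5459100000f423f65b97) .nil))) (.leaf (.cons (nat_lit 0x1541) (nat_lit 0x2000300040003000000000001) .nil) (.cons (nat_lit 0x11110001) (nat_lit 0x1010) (nat_lit 8) (nat_lit 0x20340001) (.cons (nat_lit 0x11100001) (nat_lit 0x10010) (nat_lit 7) (nat_lit 0x30200001) (.cons (nat_lit 0x11000001) (nat_lit 0x100010) (nat_lit 1) (nat_lit 0x21000000) (.cons (nat_lit 0x11000011) (nat_lit 0x100100) (nat_lit 2) (nat_lit 0x32000001) .nil)))))) (.split (nat_lit 8) (nat_lit 0) (.split (nat_lit 8) (nat_lit 1) (.split (nat_lit 8) (nat_lit 2) (.split (nat_lit 8) (nat_lit 3) (.split (nat_lit 8) (nat_lit 4) (.split (nat_lit 8) (nat_lit 5) (.split (nat_lit 8) (nat_lit 6) (.split (nat_lit 8) (nat_lit 7) (.par (nat_lit 0x15505) (nat_lit 0x100020003000200010000000000010002)) (.non (nat_lit 1) (nat_lit 3) (nat_lit 0x25401) (nat_lit 0x100020002000100000000000000000001))) (.non (nat_lit 0) (nat_lit 3) (nat_lit 0x15000) (nat_lit 0x100010001000000000000000000000000)))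 (.non (nat_lit 0) (nat_lit 3) (nat_lit 0x15400) (nat_lit 0x100010001000100000000000000000000))) (.non (nat_lit 0) (nat_lit 3) (nat_lit 0x15500) (nat_lit 0x100010001000100010000000000000000))) (.non (nat_lit 0) (nat_lit 5) (nat_lit 0x15140) (nat_lit 0x300020001000000030004000000000000))) (.non (nat_lit 0) (nat_lit 3) (nat_lit 0x10014) (nat_lit 0x100000000000000000000000200020000))) (.non (nat_lit 0) (nat_lit 3) (nat_lit 0x10014) (nat_lit 0x100000000000000000000000200020000))) (.non (nat_lit 1) (nat_lit 3) (nat_lit 0x15001) (nat_lit 0x100010001000000000000000000000001)))))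

noncomputable def t81_2 : Tr := (.ex (nat_lit 0) (.ex (nat_lit 3) (.ex (nat_lit 4) (.split (nat_lit 6) (nat_lit 0) (.split (nat_lit 7) (nat_lit 6) t81_1 (.non (nat_lit 1) (nat_lit 3) (nat_lit 0x9401) (nat_lit 0x10002000100000000000000000001))) (.non (nat_lit 1) (nat_lit 3) (nat_lit 0xa801) (nat_lit 0x10002000100000000000000000002))) (.split (nat_lit 8) (nat_lit 0) (.split (nat_lit 8) (nat_lit 1) (.split (nat_lit 8) (nat_lit 2) (.split (nat_lit 8) (nat_lit 5) (.split (nat_lit 8) (nat_lit 6) (.split (nat_lit 8) (nat_lit 7) (.split (nat_lit 8) (nat_lit 3) (.unj (nat_lit 0x15) (nat_lit 0x200020001) (nat_lit 0x10540) (nat_lit 0x100000000000100020002000000000000)) (.unj (nat_lit 0x15) (nat_lit 0x200020001) (nat_lit 0x10140) (nat_lit 0x100000000000000010001000000000000))) (.non (nat_lit 0) (nat_lit 3) (nat_lit 0x15500) (nat_lit 0x100010001000100010000000000000000))) (.non (nat_lit 0) (nat_lit 3) (nat_lit 0x11500) (nat_lit 0x100000001000100010000000000000000))) (.non (nat_lit 0) (nat_lit 3) (nat_lit 0x10500) (nat_lit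 0x100000000000100010000000000000000))) (.non (nat_lit 0) (nat_lit 3) (nat_lit 0x10014) (nat_lit 0x100000000000000000000000200020000))) (.star (nat_lit 8) (nat_lit 1) (nat_lit 4))) (.star (nat_lit 8) (nat_lit 0) (nat_lit 4)))) (.split (nat_lit 8) (nat_lit 0) (.split (nat_lit 8) (nat_lit 1) (.split (nat_lit 8) (nat_lit 2) (.split (nat_lit 8) (nat_lit 5) (.split (nat_lit 8) (nat_lit 6) (.split (nat_lit 8) (nat_lit 4) (.split (nat_lit 8) (nat_lit 7) (.unj (nat_lit 0x15) (nat_lit 0x200020001) (nat_lit 0x10540) (nat_lit 0x100000000000100020002000000000000)) (.unj (nat_lit 0x15) (nat_lit 0x200020001) (nat_lit 0x10540) (nat_lit 0x100000000000100020002000000000000))) (.split (nat_lit 8) (nat_lit 7) (.unj (nat_lit 0x15) (nat_lit 0x200020001) (nat_lit 0x10140) (nat_lit 0x100000000000000010001000000000000)) (.non (nat_lit 0) (nat_lit 3) (nat_lit 0x15500) (nat_lit 0x100010001000100010000000000000000)))) (.non (nat_lit 1) (nat_lit 3) (nat_lit 0x15401) (nat_lit 0x100010002000100000000000000000001))) (.non (nat_lit 1) (nat_lit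 3) (nat_lit 0x15501) (nat_lit 0x100010002000200010000000000000001))) (.non (nat_lit 0) (nat_lit 3) (nat_lit 0x10014) (nat_lit 0x100000000000000000000000200020000))) (.star (nat_lit 8) (nat_lit 1) (nat_lit 3))) (.star (nat_lit 8) (nat_lit 0) (nat_lit 3)))) (.split (nat_lit 8) (nat_lit 1) (.split (nat_lit 8) (nat_lit 2) (.split (nat_lit 8) (nat_lit 3) (.split (nat_lit 8) (nat_lit 4) (.split (nat_lit 8) (nat_lit 5) (.split (nat_lit 8) (nat_lit 6) (.split (nat_lit 8) (nat_lit 7) (.split (nat_lit 8) (nat_lit 0) (.split (nat_lit 7) (nat_lit 6) (.split (nat_lit 6) (nat_lit 0) (.par (nat_lit 0x15405) (nat_lit 0x100010002000100000000000000010002)) (.non (nat_lit 1) (nat_lit 3) (nat_lit 0xa801) (nat_lit 0x10002000100000000000000000002))) (.non (nat_lit 1) (nat_lit 3) (nat_lit 0x9401) (nat_lit 0x10002000100000000000000000001))) (.non (nat_lit 1) (nat_lit 3) (nat_lit 0x25401) (nat_lit 0x100010002000100000000000000000002))) (.non (nat_lit 1) (nat_lit 3) (nat_lit 0x15001) (nat_lit 0x100010001000000000000000000000001)))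 (.non (nat_lit 1) (nat_lit 3) (nat_lit 0x11001) (nat_lit 0x100000001000000000000000000000001))) (.non (nat_lit 1) (nat_lit 3) (nat_lit 0x11401) (nat_lit 0x100000001000100000000000000000001))) (.star (nat_lit 8) (nat_lit 0) (nat_lit 4))) (.star (nat_lit 8) (nat_lit 0) (nat_lit 3))) (.non (nat_lit 0) (nat_lit 3) (nat_lit 0x10014) (nat_lit 0x100000000000000000000000200020000))) (.non (nat_lit 0) (nat_lit 3) (nat_lit 0x10014) (nat_lit 0x100000000000000000000000200020000))))

noncomputable def t81 : Tr := (.split (nat_lit 7) (nat_lit 0) (.split (nat_lit 6) (nat_lit 0) .uj (.st (nat_lit 5) (nat_lit 1) (nat_lit 3) (nat_lit 0x5501) (nat_lit 0x10002000200010000000000000001) (nat_lit 1) (nat_lit 1) (.st (nat_lit 6) (nat_lit 1) (nat_lit 3) (nat_lit 0x5401) (nat_lit 0x10002000100000000000000000001) (nat_lit 1) (nat_lit 1) t81_2))) (.split (nat_lit 6) (nat_lit 0) (.split (nat_lit 7) (nat_lit 0) (.sup (nat_lit 0x9000a0004) (nat_lit 0x100040007000a0008000000000000)) (.split (nat_lit 7) (nat_lit 0) (.sup (nat_lit 0x240028000f)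 (nat_lit 0x3000f001c00280020000000000000)) (.non (nat_lit 1) (nat_lit 3) (nat_lit 0x5501) (nat_lit 0x40003000200010000000000000003)))) (.non (nat_lit 1) (nat_lit 3) (nat_lit 0x5001) (nat_lit 0x10001000000000000000000000001))))

noncomputable def t85_1 : Tr := (.ex (nat_lit 3) (.ex (nat_lit 4) (.split (nat_lit 7) (nat_lit 6) (.split (nat_lit 7) (nat_lit 0) (.pd (.cons (nat_lit 0) (nat_lit 3) (nat_lit 0x110) (nat_lit 0x65440120) (nat_lit 0xf423fb71aea2c289896500000000010000100000) (.cons (nat_lit 0) (nat_lit 6) (nat_lit 0x110) (nat_lit 0x70433120) (nat_lit 0xf423f00000f423fb71ae1f156000010000100000) (.cons (nat_lit 0) (nat_lit 7) (nat_lit 0x110) (nat_lit 0x5433120) (nat_lit 0xf423fb71aea2c2804737000010000100000) (.cons (nat_lit 1) (nat_lit 6) (nat_lit 0) (nat_lit 0x433200) (nat_lit 0xf423f00000f423fb71ae1f156f423f0000054591) (.cons (nat_lit 1) (nat_lit 7) (nat_lit 0) (nat_lit 0x5433200) (nat_lit 0xf423fb71aea2c2804737f423f00000f423f) (.cons (nat_lit 2) (nat_lit 6) (nat_lit 0) (nat_lit 0x433000) (nat_lit 0xf423f00000f423fb71ae1f15600000f423f17500)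 (.cons (nat_lit 2) (nat_lit 7) (nat_lit 0) (nat_lit 0x5433000) (nat_lit 0xf423fb71aea2c280473700000f423fb71ae) .nil))))))) (.leaf (.cons (nat_lit 0x5501) (nat_lit 0x40003000200010000000000000003) (.cons (nat_lit 0x5005) (nat_lit 0x20001000000000000000000010002) .nil)) (.cons (nat_lit 0x11100001) (nat_lit 0x10010) (nat_lit 0x10) (nat_lit 0x12300000) .nil))) (.non (nat_lit 1) (nat_lit 4) (nat_lit 0xf001) (nat_lit 0x20001000000000000000000000003))) (.non (nat_lit 1) (nat_lit 4) (nat_lit 0x5001) (nat_lit 0x10001000000000000000000000001))) (.split (nat_lit 8) (nat_lit 0) (.split (nat_lit 8) (nat_lit 1) (.split (nat_lit 8) (nat_lit 2) (.split (nat_lit 8) (nat_lit 3) (.split (nat_lit 8) (nat_lit 5) (.split (nat_lit 8) (nat_lit 6) (.split (nat_lit 8) (nat_lit 7) (.unj (nat_lit 0x15) (nat_lit 0x200020001) (nat_lit 0x10540) (nat_lit 0x100000000000100020002000000000000)) (.non (nat_lit 0) (nat_lit 5) (nat_lit 0x15140) (nat_lit 0x300020001000000040003000000000000))) (.non (nat_lit 0) (nat_lit 5) (nat_lit 0x15140) (nat_lit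 0x300010002000000040003000000000000))) (.non (nat_lit 1) (nat_lit 4) (nat_lit 0x15401) (nat_lit 0x100040003000200000000000000000003))) (.non (nat_lit 0) (nat_lit 5) (nat_lit 0x10140) (nat_lit 0x100000000000000010001000000000000))) (.non (nat_lit 0) (nat_lit 4) (nat_lit 0x10014) (nat_lit 0x100000000000000000000000200020000))) (.star (nat_lit 8) (nat_lit 1) (nat_lit 4))) (.star (nat_lit 8) (nat_lit 0) (nat_lit 4)))) (.split (nat_lit 8) (nat_lit 0) (.split (nat_lit 8) (nat_lit 1) (.split (nat_lit 8) (nat_lit 2) (.split (nat_lit 8) (nat_lit 4) (.split (nat_lit 8) (nat_lit 5) (.split (nat_lit 8) (nat_lit 6) (.split (nat_lit 8) (nat_lit 7) (.unj (nat_lit 0x15) (nat_lit 0x200020001) (nat_lit 0x10540) (nat_lit 0x100000000000100020002000000000000)) (.non (nat_lit 0) (nat_lit 5) (nat_lit 0x15140) (nat_lit 0x300020001000000030004000000000000))) (.non (nat_lit 0) (nat_lit 5) (nat_lit 0x15140) (nat_lit 0x300010002000000030004000000000000))) (.non (nat_lit 1) (nat_lit 4) (nat_lit 0x15401) (nat_lit 0x100040003000200000000000000000003)))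 (.non (nat_lit 0) (nat_lit 5) (nat_lit 0x10140) (nat_lit 0x100000000000000010001000000000000))) (.non (nat_lit 0) (nat_lit 4) (nat_lit 0x10014) (nat_lit 0x100000000000000000000000200020000))) (.non (nat_lit 0) (nat_lit 4) (nat_lit 0x10014) (nat_lit 0x100000000000000000000000200020000))) (.non (nat_lit 1) (nat_lit 4) (nat_lit 0x15001) (nat_lit 0x100020001000000000000000000000002))))

noncomputable def t85 : Tr := (.split (nat_lit 7) (nat_lit 0) .uj (.split (nat_lit 7) (nat_lit 0) (.sup (nat_lit 0x9000a0004) (nat_lit 0x100040007000a0008000000000000)) (.split (nat_lit 7) (nat_lit 0) (.sup (nat_lit 0x240028000f) (nat_lit 0x3000f001c00280020000000000000)) (.st (nat_lit 0) (nat_lit 1) (nat_lit 4) (nat_lit 0x5001) (nat_lit 0x20001000000000000000000000002) (nat_lit 1) (nat_lit 1) (.st (nat_lit 5) (nat_lit 1) (nat_lit 4) (nat_lit 0x5401) (nat_lit 0x40003000200000000000000000003) (nat_lit 1) (nat_lit 1) (.st (nat_lit 6) (nat_lit 1) (nat_lit 4) (nat_lit 0x5401) (nat_lit 0x20002000100000000000000000002) (nat_lit 1) (nat_lit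 1) (.st (nat_lit 7) (nat_lit 1) (nat_lit 4) (nat_lit 0x5001) (nat_lit 0x20001000000000000000000000002) (nat_lit 1) (nat_lit 1) t85_1)))))))

noncomputable def t133_1 : Tr := (.ex (nat_lit 3) (.ex (nat_lit 4) (.pd (.cons (nat_lit 0) (nat_lit 5) (nat_lit 0x110) (nat_lit 0x66033120) (nat_lit 0xf423fb71ae00000f423f54591000010000100000) (.cons (nat_lit 0) (nat_lit 6) (nat_lit 0x110) (nat_lit 0x70433120) (nat_lit 0xf423f00000f423fb71ae1f156000010000100000) (.cons (nat_lit 0) (nat_lit 7) (nat_lit 0x110) (nat_lit 0x5433120) (nat_lit 0xf423fb71aea2c2804737000010000100000) (.cons (nat_lit 1) (nat_lit 5) (nat_lit 0) (nat_lit 0x60033200) (nat_lit 0xf423fb71ae00000f423f54591f423f00000a2c28) (.cons (nat_lit 1) (nat_lit 6) (nat_lit 0) (nat_lit 0x70433200) (nat_lit 0xf423f00000f423fb71ae1f156f423f00000f423f) (.cons (nat_lit 2) (nat_lit 5) (nat_lit 0) (nat_lit 0x60033000) (nat_lit 0xf423fb71ae00000f423f5459100000f423f65b97) (.cons (nat_lit 2) (nat_lit 6) (nat_lit 0) (nat_lit 0x70433000) (nat_lit 0xf423f00000f423fb71ae1f15600000f423fb71ae)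 .nil))))))) (.leaf (.cons (nat_lit 0x1541) (nat_lit 0x2000300040003000000000001) .nil) (.cons (nat_lit 0x11110001) (nat_lit 0x1010) (nat_lit 8) (nat_lit 0x20340001) (.cons (nat_lit 0x11100001) (nat_lit 0x10010) (nat_lit 7) (nat_lit 0x30200001) (.cons (nat_lit 0x11000001) (nat_lit 0x100010) (nat_lit 1) (nat_lit 0x21000000) (.cons (nat_lit 0x11000011) (nat_lit 0x100100) (nat_lit 2) (nat_lit 0x32000001) .nil)))))) (.split (nat_lit 8) (nat_lit 0) (.split (nat_lit 8) (nat_lit 1) (.split (nat_lit 8) (nat_lit 2) (.split (nat_lit 8) (nat_lit 5) (.split (nat_lit 8) (nat_lit 6) (.split (nat_lit 8) (nat_lit 7) (.split (nat_lit 8) (nat_lit 3) (.unj (nat_lit 0x15) (nat_lit 0x200020001) (nat_lit 0x10540) (nat_lit 0x100000000000100020002000000000000)) (.unj (nat_lit 0x15) (nat_lit 0x200020001) (nat_lit 0x10140) (nat_lit 0x100000000000000010001000000000000))) (.non (nat_lit 0) (nat_lit 3) (nat_lit 0x15500) (nat_lit 0x100010001000100010000000000000000))) (.non (nat_lit 0) (nat_lit 3) (nat_lit 0x11500) (nat_lit 0x100000001000100010000000000000000)))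 (.non (nat_lit 0) (nat_lit 3) (nat_lit 0x10500) (nat_lit 0x100000000000100010000000000000000))) (.star (nat_lit 8) (nat_lit 2) (nat_lit 4))) (.non (nat_lit 0) (nat_lit 3) (nat_lit 0x10014) (nat_lit 0x100000000000000000000000200020000))) (.star (nat_lit 8) (nat_lit 0) (nat_lit 4)))) (.split (nat_lit 8) (nat_lit 0) (.split (nat_lit 8) (nat_lit 1) (.split (nat_lit 8) (nat_lit 2) (.split (nat_lit 8) (nat_lit 5) (.split (nat_lit 8) (nat_lit 6) (.split (nat_lit 8) (nat_lit 7) (.split (nat_lit 8) (nat_lit 4) (.unj (nat_lit 0x15) (nat_lit 0x200020001) (nat_lit 0x10540) (nat_lit 0x100000000000100020002000000000000)) (.unj (nat_lit 0x15) (nat_lit 0x200020001) (nat_lit 0x10140) (nat_lit 0x100000000000000010001000000000000))) (.non (nat_lit 2) (nat_lit 3) (nat_lit 0x15505) (nat_lit 0x100020003000200010000000000010002))) (.non (nat_lit 2) (nat_lit 3) (nat_lit 0x15401) (nat_lit 0x100010002000100000000000000000001))) (.non (nat_lit 2) (nat_lit 3) (nat_lit 0x15501) (nat_lit 0x100010002000200010000000000000001))) (.star (nat_lit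 8) (nat_lit 2) (nat_lit 3))) (.non (nat_lit 0) (nat_lit 3) (nat_lit 0x10014) (nat_lit 0x100000000000000000000000200020000))) (.star (nat_lit 8) (nat_lit 0) (nat_lit 3))))

noncomputable def t133 : Tr := (.split (nat_lit 7) (nat_lit 0) (.split (nat_lit 6) (nat_lit 0) .uj (.st (nat_lit 0) (nat_lit 2) (nat_lit 3) (nat_lit 0x5405) (nat_lit 0x10002000100000000000000010002) (nat_lit 1) (nat_lit 1) (.st (nat_lit 5) (nat_lit 2) (nat_lit 3) (nat_lit 0x5501) (nat_lit 0x10002000200010000000000000001) (nat_lit 1) (nat_lit 1) (.st (nat_lit 6) (nat_lit 2) (nat_lit 3) (nat_lit 0x5401) (nat_lit 0x10002000100000000000000000001) (nat_lit 1) (nat_lit 1) (.st (nat_lit 7) (nat_lit 2) (nat_lit 3) (nat_lit 0x5505) (nat_lit 0x20003000200010000000000010002) (nat_lit 1) (nat_lit 1) (.split (nat_lit 6) (nat_lit 0) (.split (nat_lit 7) (nat_lit 6) (.pd (.cons (nat_lit 1) (nat_lit 3) (nat_lit 0) (nat_lit 0x60650200) (nat_lit 0xf423f65b97b71aef423f00000f423f0000061a79) (.cons (nat_lit 1) (nat_lit 4) (nat_lit 0) (nat_lit 0x60603200) (nat_lit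 0xf423f7a11df423f00000f423ff423f000007a11b) .nil)) t133_1) (.non (nat_lit 2) (nat_lit 3) (nat_lit 0x9401) (nat_lit 0x10002000100000000000000000001))) (.non (nat_lit 2) (nat_lit 3) (nat_lit 0xa801) (nat_lit 0x10002000100000000000000000002)))))))) (.split (nat_lit 6) (nat_lit 0) (.split (nat_lit 7) (nat_lit 0) (.sup (nat_lit 0x9000a0004) (nat_lit 0x100040007000a0008000000000000)) (.non (nat_lit 2) (nat_lit 3) (nat_lit 0xa805) (nat_lit 0x30002000100000000000000020004))) (.non (nat_lit 2) (nat_lit 3) (nat_lit 0x5001) (nat_lit 0x10001000000000000000000000001))))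

noncomputable def t159_1 : Tr := (.split (nat_lit 8) (nat_lit 3) (.split (nat_lit 8) (nat_lit 4) (.split (nat_lit 8) (nat_lit 5) (.split (nat_lit 8) (nat_lit 6) (.st (nat_lit 7) (nat_lit 2) (nat_lit 4) (nat_lit 0x15045) (nat_lit 0x100020002000000000001000000010002) (nat_lit 1) (nat_lit 1) (.split (nat_lit 8) (nat_lit 7) (.ex (nat_lit 8) (.leaf .nil (.cons (nat_lit 0x111001011) (nat_lit 0x10100) (nat_lit 9) (nat_lit 0x543002010) (.cons (nat_lit 0x111011011) (nat_lit 0x100100) (nat_lit 0xd) (nat_lit 0x654032010) .nil))) (.split (nat_lit 9) (nat_lit 0) (.split (nat_lit 9) (nat_lit 1) (.split (nat_lit 9) (nat_lit 2) (.split (nat_lit 9) (nat_lit 3) (.split (nat_lit 9) (nat_lit 4) (.split (nat_lit 9) (nat_lit 5) (.split (nat_lit 9) (nat_lit 6) (.split (nat_lit 9) (nat_lit 7) (.st (nat_lit 8) (nat_lit 2) (nat_lit 4) (nat_lit 0x55045) (nat_lit 0x1000200020002000000000001000000010002) (nat_lit 1) (nat_lit 1) (.st (nat_lit 9) (nat_lit 2) (nat_lit 5) (nat_lit 0x55145) (nat_lit 0x2000300040005000000020004000000030006)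 (nat_lit 1) (nat_lit 1) (.split (nat_lit 9) (nat_lit 8) (.leaf .nil (.cons (nat_lit 0x1111001001) (nat_lit 0x10010) (nat_lit 4) (nat_lit 0x5432000001) (.cons (nat_lit 0x1111011011) (nat_lit 0x100100) (nat_lit 0xe) (nat_lit 0x7654032010) .nil))) (.non (nat_lit 2) (nat_lit 4) (nat_lit 0x95045) (nat_lit 0x1000200020002000000000001000000010002))))) (.non (nat_lit 1) (nat_lit 4) (nat_lit 0x54000) (nat_lit 0x1000100010000000000000000000000000000))) (.non (nat_lit 1) (nat_lit 4) (nat_lit 0x55000) (nat_lit 0x1000100010001000000000000000000000000))) (.non (nat_lit 0) (nat_lit 3) (nat_lit 0x40500) (nat_lit 0x1000000000000000200020000000000000000))) (.non (nat_lit 1) (nat_lit 5) (nat_lit 0x55141) (nat_lit 0x1000100010001000000010001000000000001))) (.non (nat_lit 1) (nat_lit 4) (nat_lit 0x55041) (nat_lit 0x1000100010001000000000001000000000001))) (.non (nat_lit 0) (nat_lit 4) (nat_lit 0x40014) (nat_lit 0x1000000000000000000000000000200020000))) (.non (nat_lit 2) (nat_lit 4) (nat_lit 0x55005) (nat_lit 0x1000100010001000000000000000000010001)))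 (.non (nat_lit 1) (nat_lit 4) (nat_lit 0x55001) (nat_lit 0x1000100010001000000000000000000000001)))) (.non (nat_lit 2) (nat_lit 4) (nat_lit 0x25045) (nat_lit 0x100020002000000000001000000010002)))) (.non (nat_lit 1) (nat_lit 4) (nat_lit 0x15000) (nat_lit 0x100010001000000000000000000000000))) (.non (nat_lit 0) (nat_lit 3) (nat_lit 0x10500) (nat_lit 0x100000000000200020000000000000000))) (.non (nat_lit 1) (nat_lit 5) (nat_lit 0x15141) (nat_lit 0x100010001000000010001000000000001))) (.non (nat_lit 1) (nat_lit 4) (nat_lit 0x15041) (nat_lit 0x100010001000000000001000000000001)))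

noncomputable def t159_2 : Tr := (.ex (nat_lit 0) (.leaf .nil (.cons (nat_lit 0x1001) (nat_lit 0x10010) (nat_lit 0) (nat_lit 0x1000) .nil)) (.split (nat_lit 6) (nat_lit 1) (.split (nat_lit 6) (nat_lit 2) (.split (nat_lit 6) (nat_lit 3) (.split (nat_lit 6) (nat_lit 4) (.split (nat_lit 6) (nat_lit 5) (.st (nat_lit 0) (nat_lit 2) (nat_lit 4) (nat_lit 0x1045) (nat_lit 0x1000000000001000000010002) (nat_lit 1) (nat_lit 1) (.split (nat_lit 6) (nat_lit 0) (.ex (nat_lit 6) (.leaf .nil (.cons (nat_lit 0x1001001) (nat_lit 0x10010) (nat_lit 1) (nat_lit 0x2000001) .nil)) (.split (nat_lit 7) (nat_lit 0) (.split (nat_lit 7) (nat_lit 1) (.split (nat_lit 7) (nat_lit 2) (.split (nat_lit 7) (nat_lit 3) (.split (nat_lit 7) (nat_lit 4) (.split (nat_lit 7) (nat_lit 5) (.st (nat_lit 6) (nat_lit 2) (nat_lit 4) (nat_lit 0x5045) (nat_lit 0x10002000000000001000000010002) (nat_lit 1) (nat_lit 1) (.split (nat_lit 7) (nat_lit 6) (.ex (nat_lit 7) (.leaf .nil (.cons (nat_lit 0x11011001) (nat_lit 0x100010) (nat_lit 3) (nat_lit 0x43001002)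 .nil)) (.split (nat_lit 8) (nat_lit 0) (.split (nat_lit 8) (nat_lit 1) (.split (nat_lit 8) (nat_lit 2) t159_1 (.non (nat_lit 0) (nat_lit 4) (nat_lit 0x10014) (nat_lit 0x100000000000000000000000200020000))) (.non (nat_lit 2) (nat_lit 4) (nat_lit 0x15005) (nat_lit 0x100010001000000000000000000010001))) (.non (nat_lit 1) (nat_lit 4) (nat_lit 0x15001) (nat_lit 0x100010001000000000000000000000001)))) (.non (nat_lit 2) (nat_lit 4) (nat_lit 0x9045) (nat_lit 0x10002000000000001000000010002)))) (.non (nat_lit 0) (nat_lit 3) (nat_lit 0x4500) (nat_lit 0x10000000200020000000000000000))) (.non (nat_lit 1) (nat_lit 5) (nat_lit 0x5141) (nat_lit 0x10001000000010001000000000001))) (.non (nat_lit 1) (nat_lit 4) (nat_lit 0x5041) (nat_lit 0x10001000000000001000000000001))) (.non (nat_lit 0) (nat_lit 4) (nat_lit 0x4014) (nat_lit 0x10000000000000000000200020000))) (.non (nat_lit 2) (nat_lit 4) (nat_lit 0x5005) (nat_lit 0x10001000000000000000000010001))) (.non (nat_lit 1) (nat_lit 4) (nat_lit 0x5001) (nat_lit 0x10001000000000000000000000001))))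 (.non (nat_lit 2) (nat_lit 4) (nat_lit 0x2045) (nat_lit 0x1000000000001000000010002)))) (.non (nat_lit 0) (nat_lit 3) (nat_lit 0x1500) (nat_lit 0x1000200020000000000000000))) (.non (nat_lit 1) (nat_lit 5) (nat_lit 0x1141) (nat_lit 0x1000000010001000000000001))) (.non (nat_lit 1) (nat_lit 4) (nat_lit 0x1041) (nat_lit 0x1000000000001000000000001))) (.non (nat_lit 0) (nat_lit 4) (nat_lit 0x1014) (nat_lit 0x1000000000000000200020000))) (.non (nat_lit 2) (nat_lit 4) (nat_lit 0x1005) (nat_lit 0x1000000000000000000010001))))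

noncomputable def t159_3 : Tr := (.split (nat_lit 8) (nat_lit 3) (.split (nat_lit 8) (nat_lit 4) (.split (nat_lit 8) (nat_lit 5) (.split (nat_lit 8) (nat_lit 6) (.st (nat_lit 7) (nat_lit 1) (nat_lit 5) (nat_lit 0x15141) (nat_lit 0x100020002000000010002000000000001) (nat_lit 1) (nat_lit 1) (.split (nat_lit 8) (nat_lit 7) (.ex (nat_lit 8) (.leaf .nil (.cons (nat_lit 0x111011001) (nat_lit 0x100010) (nat_lit 9) (nat_lit 0x543020001) (.cons (nat_lit 0x111011011) (nat_lit 0x100100) (nat_lit 0xd) (nat_lit 0x654010032) .nil))) (.split (nat_lit 9) (nat_lit 0) (.split (nat_lit 9) (nat_lit 1) (.split (nat_lit 9) (nat_lit 2) (.split (nat_lit 9) (nat_lit 3) (.split (nat_lit 9) (nat_lit 4) (.split (nat_lit 9) (nat_lit 5) (.split (nat_lit 9) (nat_lit 6) (.split (nat_lit 9) (nat_lit 7) (.st (nat_lit 8) (nat_lit 1) (nat_lit 5) (nat_lit 0x55141) (nat_lit 0x1000200020002000000010002000000000001) (nat_lit 1) (nat_lit 1) (.st (nat_lit 9) (nat_lit 2) (nat_lit 5) (nat_lit 0x55145) (nat_lit 0x2000300040005000000030006000000020004)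 (nat_lit 1) (nat_lit 1) (.split (nat_lit 9) (nat_lit 8) (.leaf .nil (.cons (nat_lit 0x1111001001) (nat_lit 0x10010) (nat_lit 4) (nat_lit 0x5432001000) (.cons (nat_lit 0x1111011011) (nat_lit 0x100100) (nat_lit 0xe) (nat_lit 0x7654010032) .nil))) (.non (nat_lit 1) (nat_lit 5) (nat_lit 0x95141) (nat_lit 0x1000200020002000000010002000000000001))))) (.non (nat_lit 1) (nat_lit 4) (nat_lit 0x54000) (nat_lit 0x1000100010000000000000000000000000000))) (.non (nat_lit 1) (nat_lit 4) (nat_lit 0x55000) (nat_lit 0x1000100010001000000000000000000000000))) (.non (nat_lit 0) (nat_lit 3) (nat_lit 0x40500) (nat_lit 0x1000000000000000200020000000000000000))) (.non (nat_lit 1) (nat_lit 5) (nat_lit 0x55140) (nat_lit 0x1000100010001000000010001000000000000))) (.non (nat_lit 1) (nat_lit 4) (nat_lit 0x55040) (nat_lit 0x1000100010001000000000001000000000000))) (.non (nat_lit 0) (nat_lit 4) (nat_lit 0x40014) (nat_lit 0x1000000000000000000000000000200020000))) (.non (nat_lit 2) (nat_lit 4) (nat_lit 0x55045) (nat_lit 0x1000100010001000000000001000000010001)))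 (.non (nat_lit 1) (nat_lit 4) (nat_lit 0x55041) (nat_lit 0x1000100010001000000000001000000000001)))) (.non (nat_lit 1) (nat_lit 5) (nat_lit 0x25141) (nat_lit 0x100020002000000010002000000000001)))) (.non (nat_lit 1) (nat_lit 4) (nat_lit 0x15000) (nat_lit 0x100010001000000000000000000000000))) (.non (nat_lit 0) (nat_lit 3) (nat_lit 0x10500) (nat_lit 0x100000000000200020000000000000000))) (.non (nat_lit 1) (nat_lit 5) (nat_lit 0x15140) (nat_lit 0x100010001000000010001000000000000))) (.non (nat_lit 1) (nat_lit 4) (nat_lit 0x15040) (nat_lit 0x100010001000000000001000000000000)))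

noncomputable def t159_4 : Tr := (.split (nat_lit 6) (nat_lit 0) (.split (nat_lit 6) (nat_lit 1) (.split (nat_lit 6) (nat_lit 2) (.split (nat_lit 6) (nat_lit 4) (.split (nat_lit 6) (nat_lit 5) (.st (nat_lit 0) (nat_lit 2) (nat_lit 5) (nat_lit 0x1145) (nat_lit 0x1000000010002000000010002) (nat_lit 1) (nat_lit 1) (.st (nat_lit 3) (nat_lit 1) (nat_lit 5) (nat_lit 0x1141) (nat_lit 0x1000000010002000000000001) (nat_lit 1) (nat_lit 1) (.split (nat_lit 6) (nat_lit 3) (.ex (nat_lit 6) (.leaf .nil (.cons (nat_lit 0x1001001) (nat_lit 0x10010) (nat_lit 1) (nat_lit 0x2001000) .nil)) (.split (nat_lit 7) (nat_lit 0) (.split (nat_lit 7) (nat_lit 1) (.split (nat_lit 7) (nat_lit 2) (.split (nat_lit 7) (nat_lit 3) (.split (nat_lit 7) (nat_lit 4) (.split (nat_lit 7) (nat_lit 5) (.st (nat_lit 6) (nat_lit 1) (nat_lit 5) (nat_lit 0x5141) (nat_lit 0x10002000000010002000000000001) (nat_lit 1) (nat_lit 1) (.split (nat_lit 7) (nat_lit 6) (.ex (nat_lit 7) (.leaf .nil (.cons (nat_lit 0x11001011) (nat_lit 0x10100) (nat_lit 3) (nat_lit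 0x43002001) .nil)) (.split (nat_lit 8) (nat_lit 0) (.split (nat_lit 8) (nat_lit 1) (.split (nat_lit 8) (nat_lit 2) t159_3 (.non (nat_lit 0) (nat_lit 4) (nat_lit 0x10014) (nat_lit 0x100000000000000000000000200020000))) (.non (nat_lit 2) (nat_lit 4) (nat_lit 0x15045) (nat_lit 0x100010001000000000001000000010001))) (.non (nat_lit 1) (nat_lit 4) (nat_lit 0x15041) (nat_lit 0x100010001000000000001000000000001)))) (.non (nat_lit 1) (nat_lit 5) (nat_lit 0x9141) (nat_lit 0x10002000000010002000000000001)))) (.non (nat_lit 0) (nat_lit 3) (nat_lit 0x4500) (nat_lit 0x10000000200020000000000000000))) (.non (nat_lit 1) (nat_lit 5) (nat_lit 0x5140) (nat_lit 0x10001000000010001000000000000))) (.non (nat_lit 1) (nat_lit 4) (nat_lit 0x5040) (nat_lit 0x10001000000000001000000000000))) (.non (nat_lit 0) (nat_lit 4) (nat_lit 0x4014) (nat_lit 0x10000000000000000000200020000))) (.non (nat_lit 2) (nat_lit 4) (nat_lit 0x5045) (nat_lit 0x10001000000000001000000010001))) (.non (nat_lit 1) (nat_lit 4) (nat_lit 0x5041) (nat_lit 0x10001000000000001000000000001))))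 (.non (nat_lit 1) (nat_lit 5) (nat_lit 0x2141) (nat_lit 0x1000000010002000000000001))))) (.non (nat_lit 0) (nat_lit 3) (nat_lit 0x1500) (nat_lit 0x1000200020000000000000000))) (.non (nat_lit 1) (nat_lit 5) (nat_lit 0x1140) (nat_lit 0x1000000010001000000000000))) (.non (nat_lit 0) (nat_lit 4) (nat_lit 0x1014) (nat_lit 0x1000000000000000200020000))) (.non (nat_lit 2) (nat_lit 4) (nat_lit 0x1045) (nat_lit 0x1000000000001000000010001))) (.non (nat_lit 1) (nat_lit 4) (nat_lit 0x1041) (nat_lit 0x1000000000001000000000001)))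

noncomputable def t159_5 : Tr := (.pd (.cons (nat_lit 0) (nat_lit 4) (nat_lit 0x110) (nat_lit 0x503120) (nat_lit 0xf423f00000f423f000010000100000) (.cons (nat_lit 0) (nat_lit 5) (nat_lit 0x110) (nat_lit 0x33120) (nat_lit 0xf423fb71ae000010000100000) .nil)) (.ex (nat_lit 4) (.ex (nat_lit 5) (.pd (.cons (nat_lit 0) (nat_lit 3) (nat_lit 0x110110) (nat_lit 0x450120) (nat_lit 0x10000100000000010000100000) (.cons (nat_lit 1) (nat_lit 3) (nat_lit 0x110000) (nat_lit 0x450200) (nat_lit 0x10000100000f423f00000f423f) (.cons (nat_lit 2) (nat_lit 3) (nat_lit 0x110000) (nat_lit 0x450000) (nat_lit 0x1000010000000000f423fb71ae) .nil))) (.split (nat_lit 3) (nat_lit 0) (.ex (nat_lit 3) t159_2 t159_4) (.st (nat_lit 0) (nat_lit 2) (nat_lit 4) (nat_lit 0x85) (nat_lit 0x1000000010002) (nat_lit 1) (nat_lit 1) (.st (nat_lit 3) (nat_lit 1) (nat_lit 5) (nat_lit 0x281) (nat_lit 0x10002000000000002) (nat_lit 2) (nat_lit 1) (.split (nat_lit 3) (nat_lit 0) (.leaf .nil (.cons (nat_lit 0x11001) (nat_lit 0x100010) (nat_lit 6) (nat_lit 0x21000)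 .nil)) (.non (nat_lit 2) (nat_lit 5) (nat_lit 0x145) (nat_lit 0x10002000000010002))))))) (.split (nat_lit 6) (nat_lit 1) (.split (nat_lit 6) (nat_lit 2) (.split (nat_lit 6) (nat_lit 0) (.split (nat_lit 6) (nat_lit 3) (.split (nat_lit 6) (nat_lit 4) (.unj (nat_lit 0x15) (nat_lit 0x200020001) (nat_lit 0x1500) (nat_lit 0x1000200020000000000000000)) (.unj (nat_lit 0x15) (nat_lit 0x200020001) (nat_lit 0x1500) (nat_lit 0x1000100010000000000000000))) (.split (nat_lit 6) (nat_lit 4) (.unj (nat_lit 0x15) (nat_lit 0x200020001) (nat_lit 0x1500) (nat_lit 0x1000200020000000000000000)) (.non (nat_lit 1) (nat_lit 5) (nat_lit 0x1140) (nat_lit 0x1000000010001000000000000)))) (.split (nat_lit 6) (nat_lit 3) (.split (nat_lit 6) (nat_lit 4) (.leaf (.cons (nat_lit 0x1500) (nat_lit 0x1000200020000000000000000) .nil) .nil) (.non (nat_lit 1) (nat_lit 5) (nat_lit 0x1141) (nat_lit 0x1000000010001000000000001))) (.non (nat_lit 1) (nat_lit 4) (nat_lit 0x1041) (nat_lit 0x1000000000001000000000001)))) (.star (nat_lit 6) (nat_lit 2) (nat_lit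 5))) (.star (nat_lit 6) (nat_lit 1) (nat_lit 5)))) (.split (nat_lit 6) (nat_lit 0) (.split (nat_lit 6) (nat_lit 1) (.split (nat_lit 6) (nat_lit 2) (.split (nat_lit 6) (nat_lit 3) (.split (nat_lit 6) (nat_lit 5) (.unj (nat_lit 0x15) (nat_lit 0x200020001) (nat_lit 0x1500) (nat_lit 0x1000200020000000000000000)) (.unj (nat_lit 0x15) (nat_lit 0x200020001) (nat_lit 0x1500) (nat_lit 0x1000100010000000000000000))) (.non (nat_lit 1) (nat_lit 5) (nat_lit 0x1140) (nat_lit 0x1000000010001000000000000))) (.star (nat_lit 6) (nat_lit 2) (nat_lit 4))) (.star (nat_lit 6) (nat_lit 1) (nat_lit 4))) (.non (nat_lit 1) (nat_lit 5) (nat_lit 0x1141) (nat_lit 0x1000000010001000000000001)))))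

noncomputable def t159_6 : Tr := (.split (nat_lit 6) (nat_lit 0) (.split (nat_lit 6) (nat_lit 1) (.split (nat_lit 6) (nat_lit 3) (.unj (nat_lit 0x1014) (nat_lit 0x1000000000000000200020000) (nat_lit 0x540) (nat_lit 0x200020001000000000000)) (.ex (nat_lit 4) (.ex (nat_lit 5) (.pd (.cons (nat_lit 1) (nat_lit 3) (nat_lit 0x1110100) (nat_lit 0x2450600) (nat_lit 0x10000100001000000000100000f423f) (.cons (nat_lit 2) (nat_lit 3) (nat_lit 0x110000) (nat_lit 0x6450000) (nat_lit 0xf423f00001000010000000000f423fb71ae) .nil)) (.leaf (.cons (nat_lit 0x1014) (nat_lit 0x1000000000000000200020000) .nil) .nil)) (.split (nat_lit 7) (nat_lit 0) (.split (nat_lit 7) (nat_lit 1) (.split (nat_lit 7) (nat_lit 2) (.split (nat_lit 7) (nat_lit 3) (.split (nat_lit 7) (nat_lit 6) (.split (nat_lit 7) (nat_lit 4) (.unj (nat_lit 0x15) (nat_lit 0x200020001) (nat_lit 0x4500) (nat_lit 0x10000000200020000000000000000)) (.unj (nat_lit 0x15) (nat_lit 0x200020001) (nat_lit 0x4500) (nat_lit 0x10000000100010000000000000000))) (.non (nat_lit 1) (nat_lit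 5) (nat_lit 0x5151) (nat_lit 0x10002000000010002000100000001))) (.non (nat_lit 1) (nat_lit 5) (nat_lit 0x5141) (nat_lit 0x10001000000010002000000000001))) (.star (nat_lit 7) (nat_lit 2) (nat_lit 5))) (.star (nat_lit 7) (nat_lit 1) (nat_lit 5))) (.non (nat_lit 2) (nat_lit 5) (nat_lit 0x5145) (nat_lit 0x10001000000010002000000010002)))) (.split (nat_lit 7) (nat_lit 0) (.split (nat_lit 7) (nat_lit 1) (.split (nat_lit 7) (nat_lit 2) (.split (nat_lit 7) (nat_lit 3) (.split (nat_lit 7) (nat_lit 6) (.split (nat_lit 7) (nat_lit 5) (.unj (nat_lit 0x15) (nat_lit 0x200020001) (nat_lit 0x4500) (nat_lit 0x10000000200020000000000000000)) (.unj (nat_lit 0x15) (nat_lit 0x200020001) (nat_lit 0x4500) (nat_lit 0x10000000100010000000000000000))) (.non (nat_lit 1) (nat_lit 5) (nat_lit 0x5140) (nat_lit 0x10001000000010001000000000000))) (.non (nat_lit 1) (nat_lit 5) (nat_lit 0x4140) (nat_lit 0x10000000000010001000000000000))) (.star (nat_lit 7) (nat_lit 2) (nat_lit 4))) (.star (nat_lit 7) (nat_lit 1) (nat_lit 4))) (.non (nat_lit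 1) (nat_lit 5) (nat_lit 0x4141) (nat_lit 0x10000000000010001000000000001))))) (.split (nat_lit 6) (nat_lit 3) (.unj (nat_lit 0x1014) (nat_lit 0x1000000000000000100010000) (nat_lit 0x540) (nat_lit 0x200020001000000000000)) (.non (nat_lit 2) (nat_lit 4) (nat_lit 0x1045) (nat_lit 0x1000000000001000000010001)))) (.split (nat_lit 6) (nat_lit 1) (.split (nat_lit 6) (nat_lit 3) (.unj (nat_lit 0x1014) (nat_lit 0x1000000000000000200020000) (nat_lit 0x540) (nat_lit 0x200020001000000000000)) (.non (nat_lit 1) (nat_lit 4) (nat_lit 0x1041) (nat_lit 0x1000000000001000000000001))) (.non (nat_lit 2) (nat_lit 4) (nat_lit 0x1005) (nat_lit 0x1000000000000000000010001))))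

noncomputable def t159 : Tr := (.split (nat_lit 3) (nat_lit 0) .uj (.ex (nat_lit 1) (.ex (nat_lit 2) t159_5 (.split (nat_lit 6) (nat_lit 4) (.split (nat_lit 6) (nat_lit 5) t159_6 (.star (nat_lit 6) (nat_lit 2) (nat_lit 5))) (.star (nat_lit 6) (nat_lit 2) (nat_lit 4)))) (.split (nat_lit 6) (nat_lit 0) (.split (nat_lit 6) (nat_lit 3) (.split (nat_lit 6) (nat_lit 4) (.split (nat_lit 6) (nat_lit 5) (.split (nat_lit 6) (nat_lit 2) (.unj (nat_lit 0x1014) (nat_lit 0x1000000000000000200020000) (nat_lit 0x540) (nat_lit 0x200020001000000000000)) (.unj (nat_lit 0x1014) (nat_lit 0x1000000000000000100010000) (nat_lit 0x540) (nat_lit 0x200020001000000000000))) (.star (nat_lit 6) (nat_lit 1) (nat_lit 5))) (.star (nat_lit 6) (nat_lit 1) (nat_lit 4))) (.non (nat_lit 2) (nat_lit 4) (nat_lit 0x1045) (nat_lit 0x1000000000001000000010001))) (.non (nat_lit 2) (nat_lit 4) (nat_lit 0x1005) (nat_lit 0x1000000000000000000010001)))))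

noncomputable def D0_156 : RL := (.skip (.skip (.skip (.cons (nat_lit 0x222222222222222222222222222222222222222222222222222222222222222222222222222222222222222222222222222222222222222222222222222222222222222222222222222222222222222222222222222f22222222222222f23222222222222223222a22222222222222f22222222222222f23222222222222a232) t159 .nil))))

noncomputable def D0_144 : RL := (.cons (nat_lit 0x222222222222222222222222222222222222222222222222222222222222222222222222222222222222222222222222222222222222222222222222222222222222222222322222222222222232222222222222332322222222222222325222222222222225222222222222222222f22222222222222f232222222222222232) .uj (.cons (nat_lit 0x222222222222222222222222222222222222222222222222222222222222222222222222222222222222222222222222222222222222222222222222222222222222222222322222222222222232222222222222332322222222222222325222222222222225222222222222222222f22222222222222f232222222222222232) .uj (.cons (nat_lit 0x222222222222222222222222222222222222222222222222222222222222222222222222222222222222222222222222222222222222222222222222222222222222222222322222222222222232222222222222332322222222222222325222222222222225222222222222222222f22222222222222f232222222222222232)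 .uj (.cons (nat_lit 0x222222222222222222222222222222222222222222222222222222222222222222222222222222222222222222222222222222222222222222222222222222222222222222322222222222222232222222222222332322222222222222325222222222222225222222222222222222f22222222222222f232222222222222232) .uj (.cons (nat_lit 0x222222222222222222222222222222222222222222222222222222222222222222222222222222222222222222222222222222222222222222222222222222222222222222322222222222222232222222222222332322222222222222325222222222222225222222222222222222f22222222222222f232222222222222232) .uj (.cons (nat_lit 0x222222222222222222222222222222222222222222222222222222222222222222222222222222222222222222222222222222222222222222222222222222222222222222322222222222222232222222222222332322222222222222325222222222222225222222222222222222f22222222222222f232222222222222232) .uj (.cons (nat_lit 0x222222222222222222222222222222222222222222222222222222222222222222222222222222222222222222222222222222222222222222222222222222222222222223223222222222223232222a22222222232322222222222222324222222222223224222222222222222222f22222222222222f23222222222a222232)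 (.split (nat_lit 6) (nat_lit 0) .uj (.split (nat_lit 6) (nat_lit 0) (.sup (nat_lit 0x500050002) (nat_lit 0x30001000300050005000000000000)) (.non (nat_lit 2) (nat_lit 3) (nat_lit 0xa801) (nat_lit 0x10002000100000000000000000002)))) (.cons (nat_lit 0x222222222222222222222222222222222222222222222222222222222222222222222222222222222222222222222222222222222222222222222222222222222222222223223222222222223232222222222222232322222222222222324222222222223224222222222222222222f22222222222222f232222222222222232) .uj (.cons (nat_lit 0x222222222222222222222222222222222222222222222222222222222222222222222222222222222222222222222222222222222222222222222222222222222222222223223222222222223232222222222222232322222222222222324222222222223224222222222222222222f22222222222222f232222222222222232) .uj (.cons (nat_lit 0x222222222222222222222222222222222222222222222222222222222222222222222222222222222222222222222222222222222222222222222222222222222222222223223222222222223232222222222222232322222222222222324222222222223224222222222222222222f22222222222222f232222222222222232)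 .uj (.cons (nat_lit 0x222222222222222222222222222222222222222222222222222222222222222222222222222222222222222222222222222222222222222222222222222222222222222223223222222222223232222222222222232322222222222222324222222222223224222222222222222222f22222222222222f232222222222222232) .uj (.cons (nat_lit 0x222222222222222222222222222222222222222222222222222222222222222222222222222222222222222222222222222222222222222222222222222222222222222223223222222222223232222222222222232322222222222222324222222222223224222222222222222222f22222222222222f232222222222222232) .uj D0_156))))))))))))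

noncomputable def D0_132 : RL := (.cons (nat_lit 0x2222222222222222222222222222222222222222222222222222222222222222222222222222222222222222222222222222222222222222222222222222222222222222222222222222222222b23222222222222b232222222222222232c22222222222232c222222222222222222f22222222222222f232222222222222232) .uj (.cons (nat_lit 0x22222222222222222222222222222222222222222222222222222222222222222222222222222222222222222222222222222222222222222222222222222222222222222b22222a22222222b232222a22222222232322222222222222325222222222222225222222222222222222f22222222222222f2322222222aa222232) t133 (.cons (nat_lit 0x22222222222222222222222222222222222222222222222222222222222222222222222222222222222222222222222222222222222222222222222222222222222222222b22222a22222222b232222222222222232322222222222222325222222222222225222222222222222222f22222222222222f2322222222a2222232) (.split (nat_lit 7) (nat_lit 0) .uj (.split (nat_lit 7) (nat_lit 0) (.sup (nat_lit 0x9000a0004) (nat_lit 0x100040007000a0008000000000000)) (.non (nat_lit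 2) (nat_lit 3) (nat_lit 0xa805) (nat_lit 0x30002000100000000000000020004)))) (.cons (nat_lit 0x22222222222222222222222222222222222222222222222222222222222222222222222222222222222222222222222222222222222222222222222222222222222222222b22222222222222b232222222222222232322222222222222325222222222222225222222222222222222f22222222222222f232222222222222232) .uj (.cons (nat_lit 0x22222222222222222222222222222222222222222222222222222222222222222222222222222222222222222222222222222222222222222222222222222222222222222b22222222222222b232222222222222232322222222222222325222222222222225222222222222222222f22222222222222f232222222222222232) .uj (.cons (nat_lit 0x22222222222222222222222222222222222222222222222222222222222222222222222222222222222222222222222222222222222222222222222222222222222222222b22222a22222222b232222222222222232322222222222222325222222222222225222222222222222222f22222222222222f2322222222a2222232) (.split (nat_lit 7) (nat_lit 0) .uj (.split (nat_lit 7) (nat_lit 0) (.sup (nat_lit 0x9000a0004) (nat_lit 0x100040007000a0008000000000000))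 (.non (nat_lit 2) (nat_lit 4) (nat_lit 0xa805) (nat_lit 0x30002000100000000000000020004)))) (.cons (nat_lit 0x22222222222222222222222222222222222222222222222222222222222222222222222222222222222222222222222222222222222222222222222222222222222222222b22222222222222b232222222222222232322222222222222325222222222222225222222222222222222f22222222222222f232222222222222232) .uj (.cons (nat_lit 0x22222222222222222222222222222222222222222222222222222222222222222222222222222222222222222222222222222222222222222222222222222222222222222b22222222222222b232222222222222232322222222222222325222222222222225222222222222222222f22222222222222f232222222222222232) .uj (.cons (nat_lit 0x22222222222222222222222222222222222222222222222222222222222222222222222222222222222222222222222222222222222222222222222222222222222222222b22222222222222b232222222222222232322222222222222325222222222222225222222222222222222f22222222222222f232222222222222232) .uj (.cons (nat_lit 0x22222222222222222222222222222222222222222222222222222222222222222222222222222222222222222222222222222222222222222222222222222222222222222b22222222222222b232222222222222232322222222222222325222222222222225222222222222222222f22222222222222f232222222222222232)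 .uj (.cons (nat_lit 0x22222222222222222222222222222222222222222222222222222222222222222222222222222222222222222222222222222222222222222222222222222222222222222b22222222222222b232222222222222232322222222222222325222222222222225222222222222222222f22222222222222f232222222222222232) .uj (.cons (nat_lit 0x22222222222222222222222222222222222222222222222222222222222222222222222222222222222222222222222222222222222222222222222222222222222222222232222a222222222232222a22222222332322222222222222325222222222222225222222222222222222f22222222222222f2322222222aa222232) (.split (nat_lit 7) (nat_lit 0) (.split (nat_lit 6) (nat_lit 0) .uj (.sup (nat_lit 0x9000a0004) (nat_lit 0x300010007000a0008000000000000))) (.split (nat_lit 6) (nat_lit 0) (.sup (nat_lit 0x9000a0004) (nat_lit 0x100030007000a0008000000000000)) (.non (nat_lit 2) (nat_lit 3) (nat_lit 0x5401) (nat_lit 0x10001000100000000000000000001)))) D0_144))))))))))))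

noncomputable def D0_120 : RL := (.cons (nat_lit 0x2222222222222222222222222222222222222222222222222222222222222222222222222222222222222222222222222222222222222222222222222222222222222222222222222222222222c22222222222222c2322222222222222325222222222222225222222222222222222f22222222222222f232222222222222232) .uj (.cons (nat_lit 0x2222222222222222222222222222222222222222222222222222222222222222222222222222222222222222222222222222222222222222222222222222222222222222222222222222222222c22222222222222c2322222222222222325222222222222225222222222222222222f22222222222222f232222222222222232) .uj (.cons (nat_lit 0x2222222222222222222222222222222222222222222222222222222222222222222222222222222222222222222222222222222222222222222222222222222222222222222222222222222222c22222222222222c2322222222222222325222222222222225222222222222222222f22222222222222f232222222222222232) .uj (.cons (nat_lit 0x2222222222222222222222222222222222222222222222222222222222222222222222222222222222222222222222222222222222222222222222222222222222222222222222222222222222c22222222222222c2322222222222222325222222222222225222222222222222222f22222222222222f232222222222222232)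 .uj (.cons (nat_lit 0x2222222222222222222222222222222222222222222222222222222222222222222222222222222222222222222222222222222222222222222222222222222222222222222222222222222222c22222222222222c2322222222222222325222222222222225222222222222222222f22222222222222f232222222222222232) .uj (.cons (nat_lit 0x222222222222222222222222222222222222222222222222222222222222222222222222222222222222222222222222222222222222222222222222222222222222222222222222222222222223222222222222222322222222222223325222222222222225222222222222222222f22222222222222f232222222222222232) .uj (.cons (nat_lit 0x222222222222222222222222222222222222222222222222222222222222222222222222222222222222222222222222222222222222222222222222222222222222222222222222222222222223222a22222222222322222222222223325222222222222225222222222222222222f22222222222222f23222222222a222232) (.split (nat_lit 6) (nat_lit 0) .uj (.non (nat_lit 2) (nat_lit 5) (nat_lit 0x1145) (nat_lit 0x3000000040003000000010002))) (.cons (nat_lit 0x222222222222222222222222222222222222222222222222222222222222222222222222222222222222222222222222222222222222222222222222222222222222222222222222222222222223222222222222222322222222222223325222222222222225222222222222222222f22222222222222f232222222222222232)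 .uj (.cons (nat_lit 0x222222222222222222222222222222222222222222222222222222222222222222222222222222222222222222222222222222222222222222222222222222222222222222222222222222222223222222222222222322222222222223325222222222222225222222222222222222f22222222222222f232222222222222232) .uj (.cons (nat_lit 0x2222222222222222222222222222222222222222222222222222222222222222222222222222222222222222222222222222222222222222222222222222222222222222222222222222222222b23222222222222b232222222222222232c22222222222232c222222222222222222f22222222222222f232222222222222232) .uj (.cons (nat_lit 0x2222222222222222222222222222222222222222222222222222222222222222222222222222222222222222222222222222222222222222222222222222222222222222222222222222222222b23222222222222b232222222222222232c22222222222232c222222222222222222f22222222222222f232222222222222232) .uj (.cons (nat_lit 0x2222222222222222222222222222222222222222222222222222222222222222222222222222222222222222222222222222222222222222222222222222222222222222222222222222222222b23222222222222b232222222222222232c22222222222232c222222222222222222f22222222222222f232222222222222232)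 .uj D0_132))))))))))))

noncomputable def D0_108 : RL := (.cons (nat_lit 0x222222222222222222222222222222222222222222222222222222222222222222222222222222222222222222222222222222222222222222222222222222222222222222222222222222222222222222222222222d22222222222222d24222222222222224222222222222222222f22222222222222f232222222222222232) .uj (.cons (nat_lit 0x222222222222222222222222222222222222222222222222222222222222222222222222222222222222222222222222222222222222222222222222222222222222222222222222222222222222222222222222222d22222222222222d24222222222222224222222222222222222f22222222222222f232222222222222232) .uj (.cons (nat_lit 0x222222222222222222222222222222222222222222222222222222222222222222222222222222222222222222222222222222222222222222222222222222222222222222222222222222222222222222222222222d22222222222222d24222222222222224222222222222222222f22222222222222f232222222222222232) .uj (.cons (nat_lit 0x222222222222222222222222222222222222222222222222222222222222222222222222222222222222222222222222222222222222222222222222222222222222222222222222222222222222222222222222222d22222222222222d2d22222222222222d222222222222222222f22222222222222f232222222222222232)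 .uj (.cons (nat_lit 0x222222222222222222222222222222222222222222222222222222222222222222222222222222222222222222222222222222222222222222222222222222222222222222222222222222222222222222222222222d22222222222222d2d22222222222222d222222222222222222f22222222222222f232222222222222232) .uj (.cons (nat_lit 0x222222222222222222222222222222222222222222222222222222222222222222222222222222222222222222222222222222222222222222222222222222222222222222222222222222222222222222222222222bc2222222222222b2b2222222222222cb222222222222222222f22222222222222f232222222222222232) .uj (.cons (nat_lit 0x222222222222222222222222222222222222222222222222222222222222222222222222222222222222222222222222222222222222222222222222222222222222222222222222222222222222222222222222222bc2222222222222b2b2222222222222cb222222222222222222f22222222222222f232222222222222232) .uj (.cons (nat_lit 0x222222222222222222222222222222222222222222222222222222222222222222222222222222222222222222222222222222222222222222222222222222222222222222222222222222222232222a22222222232522222222222222523222222222222223222222222222222222f22222222222222f23222222222a222232)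 (.split (nat_lit 6) (nat_lit 0) .uj (.non (nat_lit 2) (nat_lit 3) (nat_lit 0x1505) (nat_lit 0x3000400030000000000010002))) (.cons (nat_lit 0x222222222222222222222222222222222222222222222222222222222222222222222222222222222222222222222222222222222222222222222222222222222222222222222222222222222232222222222222232522222222222222523222222222222223222222222222222222f22222222222222f232222222222222232) .uj (.cons (nat_lit 0x222222222222222222222222222222222222222222222222222222222222222222222222222222222222222222222222222222222222222222222222222222222222222222222222222222222232222222222222232522222222222222523222222222222223222222222222222222f22222222222222f232222222222222232) .uj (.cons (nat_lit 0x222222222222222222222222222222222222222222222222222222222222222222222222222222222222222222222222222222222222222222222222222222222222222222222222222222222232222222222222232522222222222222523222222222222223222222222222222222f22222222222222f232222222222222232) .uj (.cons (nat_lit 0x2222222222222222222222222222222222222222222222222222222222222222222222222222222222222222222222222222222222222222222222222222222222222222222222222222222222c2222a222222222c2322222222222222325222222222222225222222222222222222f22222222222222f23222222222a222232)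 (.split (nat_lit 6) (nat_lit 0) .uj (.non (nat_lit 2) (nat_lit 3) (nat_lit 0x1a05) (nat_lit 0x3000200010000000000010002))) D0_120))))))))))))

noncomputable def D0_96 : RL := (.cons (nat_lit 0x222222222222222222222222222222222222222222222222222222222222222222222222222222222222222222222222222222222222222222222222222222222222222222322222222222222232222222222222332322222222222222325222222222222225222222222222222222f22222222222222f232222222222222232) .uj (.cons (nat_lit 0x222222222222222222222222222222222222222222222222222222222222222222222222222222222222222222222222222222222222222222222222222222222222222222322222222222222232222222222222332322222222222222325222222222222225222222222222222222f22222222222222f232222222222222232) .uj (.cons (nat_lit 0x222222222222222222222222222222222222222222222222222222222222222222222222222222222222222222222222222222222222222222222222222222222222222223223222222222223232222a22222222232322222222222222324222222222223224222222222222222222f22222222222222f23222222222a222232) (.split (nat_lit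 6) (nat_lit 0) .uj (.split (nat_lit 6) (nat_lit 0) (.sup (nat_lit 0x500050002) (nat_lit 0x30001000300050005000000000000)) (.non (nat_lit 1) (nat_lit 3) (nat_lit 0xa801) (nat_lit 0x10002000100000000000000000002)))) (.cons (nat_lit 0x222222222222222222222222222222222222222222222222222222222222222222222222222222222222222222222222222222222222222222222222222222222222222223223222222222223232222222222222232322222222222222324222222222223224222222222222222222f22222222222222f232222222222222232) .uj (.cons (nat_lit 0x222222222222222222222222222222222222222222222222222222222222222222222222222222222222222222222222222222222222222222222222222222222222222223223222222222223232222222222222232322222222222222324222222222223224222222222222222222f22222222222222f232222222222222232) .uj (.cons (nat_lit 0x222222222222222222222222222222222222222222222222222222222222222222222222222222222222222222222222222222222222222222222222222222222222222223223222222222223232222222222222232322222222222222324222222222223224222222222222222222f22222222222222f232222222222222232)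 .uj (.cons (nat_lit 0x222222222222222222222222222222222222222222222222222222222222222222222222222222222222222222222222222222222222222222222222222222222222222223223222222222223232222222222222232322222222222222324222222222223224222222222222222222f22222222222222f232222222222222232) .uj (.cons (nat_lit 0x222222222222222222222222222222222222222222222222222222222222222222222222222222222222222222222222222222222222222222222222222222222222222223223222222222223232222222222222232322222222222222324222222222223224222222222222222222f22222222222222f232222222222222232) .uj (.skip (.skip (.cons (nat_lit 0x222222222222222222222222222222222222222222222222222222222222222222222222222222222222222222222222222222222222222222222222222222222222222222222222222222222222222222222222222f22222222222222f23222222222222223222222222222222222f22222222222222f232222222222222232) .uj (.cons (nat_lit 0x222222222222222222222222222222222222222222222222222222222222222222222222222222222222222222222222222222222222222222222222222222222222222222222222222222222222222222222222222f22222222222222f23222222222222223222222222222222222f22222222222222f232222222222222232)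 .uj D0_108))))))))))))

noncomputable def D0_84 : RL := (.cons (nat_lit 0x22222222222222222222222222222222222222222222222222222222222222222222222222222222222222222222222222222222222222222222222222222222222222222b22222222222222b232222222222222232322222222222222325222222222222225222222222222222222f22222222222222f232222222222222232) .uj (.cons (nat_lit 0x22222222222222222222222222222222222222222222222222222222222222222222222222222222222222222222222222222222222222222222222222222222222222222b22222a22222222b232222222222222232322222222222222325222222222222225222222222222222222f22222222222222f2322222222a2222232) t85 (.cons (nat_lit 0x22222222222222222222222222222222222222222222222222222222222222222222222222222222222222222222222222222222222222222222222222222222222222222b22222222222222b232222222222222232322222222222222325222222222222225222222222222222222f22222222222222f232222222222222232) .uj (.cons (nat_lit 0x22222222222222222222222222222222222222222222222222222222222222222222222222222222222222222222222222222222222222222222222222222222222222222b22222222222222b232222222222222232322222222222222325222222222222225222222222222222222f22222222222222f232222222222222232)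 .uj (.cons (nat_lit 0x22222222222222222222222222222222222222222222222222222222222222222222222222222222222222222222222222222222222222222222222222222222222222222b22222222222222b232222222222222232322222222222222325222222222222225222222222222222222f22222222222222f232222222222222232) .uj (.cons (nat_lit 0x22222222222222222222222222222222222222222222222222222222222222222222222222222222222222222222222222222222222222222222222222222222222222222b22222222222222b232222222222222232322222222222222325222222222222225222222222222222222f22222222222222f232222222222222232) .uj (.cons (nat_lit 0x22222222222222222222222222222222222222222222222222222222222222222222222222222222222222222222222222222222222222222222222222222222222222222b22222222222222b232222222222222232322222222222222325222222222222225222222222222222222f22222222222222f232222222222222232) .uj (.cons (nat_lit 0x22222222222222222222222222222222222222222222222222222222222222222222222222222222222222222222222222222222222222222222222222222222222222222232222a222222222232222a22222222332322222222222222325222222222222225222222222222222222f22222222222222f2322222222aa222232)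 (.split (nat_lit 7) (nat_lit 0) (.split (nat_lit 6) (nat_lit 0) .uj (.sup (nat_lit 0x9000a0004) (nat_lit 0x300010007000a0008000000000000))) (.split (nat_lit 6) (nat_lit 0) (.sup (nat_lit 0x9000a0004) (nat_lit 0x100030007000a0008000000000000)) (.non (nat_lit 1) (nat_lit 3) (nat_lit 0x5401) (nat_lit 0x10001000100000000000000000001)))) (.cons (nat_lit 0x222222222222222222222222222222222222222222222222222222222222222222222222222222222222222222222222222222222222222222222222222222222222222222322222222222222232222222222222332322222222222222325222222222222225222222222222222222f22222222222222f232222222222222232) .uj (.cons (nat_lit 0x222222222222222222222222222222222222222222222222222222222222222222222222222222222222222222222222222222222222222222222222222222222222222222322222222222222232222222222222332322222222222222325222222222222225222222222222222222f22222222222222f232222222222222232) .uj (.cons (nat_lit 0x222222222222222222222222222222222222222222222222222222222222222222222222222222222222222222222222222222222222222222222222222222222222222222322222222222222232222222222222332322222222222222325222222222222225222222222222222222f22222222222222f232222222222222232)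 .uj (.cons (nat_lit 0x222222222222222222222222222222222222222222222222222222222222222222222222222222222222222222222222222222222222222222222222222222222222222222322222222222222232222222222222332322222222222222325222222222222225222222222222222222f22222222222222f232222222222222232) .uj D0_96))))))))))))

noncomputable def D0_72 : RL := (.cons (nat_lit 0x2222222222222222222222222222222222222222222222222222222222222222222222222222222222222222222222222222222222222222222222222222222222222222222222222222222222c22222222222222c2322222222222222325222222222222225222222222222222222f22222222222222f232222222222222232) .uj (.cons (nat_lit 0x222222222222222222222222222222222222222222222222222222222222222222222222222222222222222222222222222222222222222222222222222222222222222222222222222222222223222222222222222322222222222223325222222222222225222222222222222222f22222222222222f232222222222222232) .uj (.cons (nat_lit 0x222222222222222222222222222222222222222222222222222222222222222222222222222222222222222222222222222222222222222222222222222222222222222222222222222222222223222a22222222222322222222222223325222222222222225222222222222222222f22222222222222f23222222222a222232)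 (.split (nat_lit 6) (nat_lit 0) .uj (.split (nat_lit 6) (nat_lit 0) (.sup (nat_lit 0x500050002) (nat_lit 0x1000300050004000000000000)) (.non (nat_lit 1) (nat_lit 5) (nat_lit 0x1141) (nat_lit 0x1000000010001000000000001)))) (.cons (nat_lit 0x222222222222222222222222222222222222222222222222222222222222222222222222222222222222222222222222222222222222222222222222222222222222222222222222222222222223222222222222222322222222222223325222222222222225222222222222222222f22222222222222f232222222222222232) .uj (.cons (nat_lit 0x222222222222222222222222222222222222222222222222222222222222222222222222222222222222222222222222222222222222222222222222222222222222222222222222222222222223222222222222222322222222222223325222222222222225222222222222222222f22222222222222f232222222222222232) .uj (.cons (nat_lit 0x2222222222222222222222222222222222222222222222222222222222222222222222222222222222222222222222222222222222222222222222222222222222222222222222222222222222b23222222222222b232222222222222232c22222222222232c222222222222222222f22222222222222f232222222222222232)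 .uj (.cons (nat_lit 0x2222222222222222222222222222222222222222222222222222222222222222222222222222222222222222222222222222222222222222222222222222222222222222222222222222222222b23222222222222b232222222222222232c22222222222232c222222222222222222f22222222222222f232222222222222232) .uj (.cons (nat_lit 0x2222222222222222222222222222222222222222222222222222222222222222222222222222222222222222222222222222222222222222222222222222222222222222222222222222222222b23222222222222b232222222222222232c22222222222232c222222222222222222f22222222222222f232222222222222232) .uj (.cons (nat_lit 0x2222222222222222222222222222222222222222222222222222222222222222222222222222222222222222222222222222222222222222222222222222222222222222222222222222222222b23222222222222b232222222222222232c22222222222232c222222222222222222f22222222222222f232222222222222232) .uj (.cons (nat_lit 0x22222222222222222222222222222222222222222222222222222222222222222222222222222222222222222222222222222222222222222222222222222222222222222b22222a22222222b232222a22222222232322222222222222325222222222222225222222222222222222f22222222222222f2322222222aa222232)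 t81 (.cons (nat_lit 0x22222222222222222222222222222222222222222222222222222222222222222222222222222222222222222222222222222222222222222222222222222222222222222b22222a22222222b232222222222222232322222222222222325222222222222225222222222222222222f22222222222222f2322222222a2222232) (.split (nat_lit 7) (nat_lit 0) .uj (.split (nat_lit 7) (nat_lit 0) (.sup (nat_lit 0x9000a0004) (nat_lit 0x100040007000a0008000000000000)) (.split (nat_lit 7) (nat_lit 0) (.sup (nat_lit 0x240028000f) (nat_lit 0x3000f001c00280020000000000000)) (.non (nat_lit 1) (nat_lit 3) (nat_lit 0x5501) (nat_lit 0x40003000200010000000000000003))))) (.cons (nat_lit 0x22222222222222222222222222222222222222222222222222222222222222222222222222222222222222222222222222222222222222222222222222222222222222222b22222222222222b232222222222222232322222222222222325222222222222225222222222222222222f22222222222222f232222222222222232) .uj D0_84))))))))))))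

noncomputable def D0_60 : RL := (.cons (nat_lit 0x222222222222222222222222222222222222222222222222222222222222222222222222222222222222222222222222222222222222222222222222222222222222222222222222222222222222222222222222222d22222222222222d2d22222222222222d222222222222222222f22222222222222f232222222222222232) .uj (.cons (nat_lit 0x222222222222222222222222222222222222222222222222222222222222222222222222222222222222222222222222222222222222222222222222222222222222222222222222222222222222222222222222222bc2222222222222b2b2222222222222cb222222222222222222f22222222222222f232222222222222232) .uj (.cons (nat_lit 0x222222222222222222222222222222222222222222222222222222222222222222222222222222222222222222222222222222222222222222222222222222222222222222222222222222222222222222222222222bc2222222222222b2b2222222222222cb222222222222222222f22222222222222f232222222222222232) .uj (.cons (nat_lit 0x222222222222222222222222222222222222222222222222222222222222222222222222222222222222222222222222222222222222222222222222222222222222222222222222222222222232222a22222222232522222222222222523222222222222223222222222222222222f22222222222222f23222222222a222232)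 (.split (nat_lit 6) (nat_lit 0) .uj (.split (nat_lit 6) (nat_lit 0) (.sup (nat_lit 0x9000a0004) (nat_lit 0x20009000a0005000000000000)) (.non (nat_lit 1) (nat_lit 3) (nat_lit 0x1501) (nat_lit 0x1000100010000000000000001)))) (.cons (nat_lit 0x222222222222222222222222222222222222222222222222222222222222222222222222222222222222222222222222222222222222222222222222222222222222222222222222222222222232222222222222232522222222222222523222222222222223222222222222222222f22222222222222f232222222222222232) .uj (.cons (nat_lit 0x222222222222222222222222222222222222222222222222222222222222222222222222222222222222222222222222222222222222222222222222222222222222222222222222222222222232222222222222232522222222222222523222222222222223222222222222222222f22222222222222f232222222222222232) .uj (.cons (nat_lit 0x222222222222222222222222222222222222222222222222222222222222222222222222222222222222222222222222222222222222222222222222222222222222222222222222222222222232222222222222232522222222222222523222222222222223222222222222222222f22222222222222f232222222222222232)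 .uj (.cons (nat_lit 0x2222222222222222222222222222222222222222222222222222222222222222222222222222222222222222222222222222222222222222222222222222222222222222222222222222222222c2222a222222222c2322222222222222325222222222222225222222222222222222f22222222222222f23222222222a222232) (.split (nat_lit 6) (nat_lit 0) .uj (.split (nat_lit 6) (nat_lit 0) (.sup (nat_lit 0x9000a0004) (nat_lit 0x30007000a0008000000000000)) (.non (nat_lit 1) (nat_lit 3) (nat_lit 0x2401) (nat_lit 0x1000100000000000000000001)))) (.cons (nat_lit 0x2222222222222222222222222222222222222222222222222222222222222222222222222222222222222222222222222222222222222222222222222222222222222222222222222222222222c22222222222222c2322222222222222325222222222222225222222222222222222f22222222222222f232222222222222232) .uj (.cons (nat_lit 0x2222222222222222222222222222222222222222222222222222222222222222222222222222222222222222222222222222222222222222222222222222222222222222222222222222222222c22222222222222c2322222222222222325222222222222225222222222222222222f22222222222222f232222222222222232)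 .uj (.cons (nat_lit 0x2222222222222222222222222222222222222222222222222222222222222222222222222222222222222222222222222222222222222222222222222222222222222222222222222222222222c22222222222222c2322222222222222325222222222222225222222222222222222f22222222222222f232222222222222232) .uj (.cons (nat_lit 0x2222222222222222222222222222222222222222222222222222222222222222222222222222222222222222222222222222222222222222222222222222222222222222222222222222222222c22222222222222c2322222222222222325222222222222225222222222222222222f22222222222222f232222222222222232) .uj D0_72))))))))))))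

noncomputable def D0_48 : RL := (.cons (nat_lit 0x2222222222222222222222222222222222222222222222222222222222222222222222222222222222222222222222222222222222222222222222222222222222222222222222222222222222322322222222222323222222222222223232222222222222232422222222222322422222222222222222282222222222222282) .uj (.cons (nat_lit 0x2222222222222222222222222222222222222222222222222222222222222222222222222222222222222222222222222222222222222222222222222222222222222222222222222222222222322322222222222323222222222222223232222222222222232422222222222322422222222222222222282222222222222282) .uj (.cons (nat_lit 0x2222222222222222222222222222222222222222222222222222222222222222222222222222222222222222222222222222222222222222222222222222222222222222222222222222222222322322222222222323222222222222223232222222222222232422222222222322422222222222222222282222222222222282) .uj (.cons (nat_lit 0x2222222222222222222222222222222222222222222222222222222222222222222222222222222222222222222222222222222222222222222222222222222222222222222222222222222222322322222222222323222222222222223232222222222222232422222222222322422222222222222222282222222222222282)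 .uj (.skip (.cons (nat_lit 0x222222222222222222222222222222222222222222222222222222222222222222222222222222222222222222222222222222222222222222222222222222222222222222222222222222222222222222222222222f22222222222222f23222222222222223222222222222222222f22222222222222f232222222222222232) .uj (.cons (nat_lit 0x222222222222222222222222222222222222222222222222222222222222222222222222222222222222222222222222222222222222222222222222222222222222222222222222222222222222222222222222222f22222222222222f23222222222222223222222222222222222f22222222222222f232222222222222232) .uj (.cons (nat_lit 0x222222222222222222222222222222222222222222222222222222222222222222222222222222222222222222222222222222222222222222222222222222222222222222222222222222222222222222222222222f22222222222222f23222222222222223222222222222222222f22222222222222f232222222222222232) .uj (.cons (nat_lit 0x222222222222222222222222222222222222222222222222222222222222222222222222222222222222222222222222222222222222222222222222222222222222222222222222222222222222222222222222222d22222222222222d24222222222222224222222222222222222f22222222222222f232222222222222232)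 .uj (.cons (nat_lit 0x222222222222222222222222222222222222222222222222222222222222222222222222222222222222222222222222222222222222222222222222222222222222222222222222222222222222222222222222222d22222222222222d24222222222222224222222222222222222f22222222222222f232222222222222232) .uj (.cons (nat_lit 0x222222222222222222222222222222222222222222222222222222222222222222222222222222222222222222222222222222222222222222222222222222222222222222222222222222222222222222222222222d22222222222222d24222222222222224222222222222222222f22222222222222f232222222222222232) .uj (.cons (nat_lit 0x222222222222222222222222222222222222222222222222222222222222222222222222222222222222222222222222222222222222222222222222222222222222222222222222222222222222222222222222222d22222222222222d2d22222222222222d222222222222222222f22222222222222f232222222222222232) .uj D0_60))))))))))))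

noncomputable def D0_36 : RL := (.cons (nat_lit 0x2222222222222222222222222222222222222222222222222222222222222222222222222222222222222222222222222222222222222222222222222222222222222222222222222222222222b22222222222222b23222222222222223232222222222222232522222222222222522222222222222222282222222222222282) .uj (.cons (nat_lit 0x2222222222222222222222222222222222222222222222222222222222222222222222222222222222222222222222222222222222222222222222222222222222222222222222222222222222b22222222222222b23222222222222223232222222222222232522222222222222522222222222222222282222222222222282) .uj (.cons (nat_lit 0x2222222222222222222222222222222222222222222222222222222222222222222222222222222222222222222222222222222222222222222222222222222222222222222222222222222222b22222222222222b23222222222222223232222222222222232522222222222222522222222222222222282222222222222282) .uj (.cons (nat_lit 0x22222222222222222222222222222222222222222222222222222222222222222222222222222222222222222222222222222222222222222222222222222222222222222222222222222222222322aa22222222222322aa222222222332322222222222222325222222222222225222222222222aa22228222222222aa22282)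 t39 (.cons (nat_lit 0x2222222222222222222222222222222222222222222222222222222222222222222222222222222222222222222222222222222222222222222222222222222222222222222222222222222222232222222222222223222222222222233232222222222222232522222222222222522222222222222222282222222222222282) .uj (.cons (nat_lit 0x2222222222222222222222222222222222222222222222222222222222222222222222222222222222222222222222222222222222222222222222222222222222222222222222222222222222232222222222222223222222222222233232222222222222232522222222222222522222222222222222282222222222222282) .uj (.cons (nat_lit 0x2222222222222222222222222222222222222222222222222222222222222222222222222222222222222222222222222222222222222222222222222222222222222222222222222222222222232222222222222223222222222222233232222222222222232522222222222222522222222222222222282222222222222282) .uj (.cons (nat_lit 0x2222222222222222222222222222222222222222222222222222222222222222222222222222222222222222222222222222222222222222222222222222222222222222222222222222222222232222222222222223222222222222233232222222222222232522222222222222522222222222222222282222222222222282)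 .uj (.cons (nat_lit 0x2222222222222222222222222222222222222222222222222222222222222222222222222222222222222222222222222222222222222222222222222222222222222222222222222222222222232222222222222223222222222222233232222222222222232522222222222222522222222222222222282222222222222282) .uj (.cons (nat_lit 0x2222222222222222222222222222222222222222222222222222222222222222222222222222222222222222222222222222222222222222222222222222222222222222222222222222222222232222222222222223222222222222233232222222222222232522222222222222522222222222222222282222222222222282) .uj (.cons (nat_lit 0x222222222222222222222222222222222222222222222222222222222222222222222222222222222222222222222222222222222222222222222222222222222222222222222222222222222232232222222222232322aa2222222222323222222222222223242222222222232242222222222222a222282222222222a22282) t46 (.cons (nat_lit 0x2222222222222222222222222222222222222222222222222222222222222222222222222222222222222222222222222222222222222222222222222222222222222222222222222222222222322322222222222323222222222222223232222222222222232422222222222322422222222222222222282222222222222282)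 .uj D0_48))))))))))))

noncomputable def D0_24 : RL := (.cons (nat_lit 0x2222222222222222222222222222222222222222222222222222222222222222222222222222222222222222222222222222222222222222222222222222222222222222222222222222222222222222222222222222322222222222222232222222222222332522222222222222522222222222222222282222222222222282) .uj (.cons (nat_lit 0x222222222222222222222222222222222222222222222222222222222222222222222222222222222222222222222222222222222222222222222222222222222222222222222222222222222222222222222222222b23222222222222b232222222222222232c22222222222232c22222222222222222282222222222222282) .uj (.cons (nat_lit 0x222222222222222222222222222222222222222222222222222222222222222222222222222222222222222222222222222222222222222222222222222222222222222222222222222222222222222222222222222b23222222222222b232222222222222232c22222222222232c22222222222222222282222222222222282) .uj (.cons (nat_lit 0x222222222222222222222222222222222222222222222222222222222222222222222222222222222222222222222222222222222222222222222222222222222222222222222222222222222222222222222222222b23222222222222b232222222222222232c22222222222232c22222222222222222282222222222222282)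 .uj (.cons (nat_lit 0x222222222222222222222222222222222222222222222222222222222222222222222222222222222222222222222222222222222222222222222222222222222222222222222222222222222222222222222222222b23222222222222b232222222222222232c22222222222232c22222222222222222282222222222222282) .uj (.cons (nat_lit 0x2222222222222222222222222222222222222222222222222222222222222222222222222222222222222222222222222222222222222222222222222222222222222222222222222222222222b222aa222222222b2322aa222222222232322222222222222325222222222222225222222222222aa22228222222222aa22282) t29 (.cons (nat_lit 0x2222222222222222222222222222222222222222222222222222222222222222222222222222222222222222222222222222222222222222222222222222222222222222222222222222222222b222aa222222222b232222222222222232322222222222222325222222222222225222222222222a222228222222222a222282) t30 (.cons (nat_lit 0x2222222222222222222222222222222222222222222222222222222222222222222222222222222222222222222222222222222222222222222222222222222222222222222222222222222222b22222222222222b23222222222222223232222222222222232522222222222222522222222222222222282222222222222282)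 .uj (.cons (nat_lit 0x2222222222222222222222222222222222222222222222222222222222222222222222222222222222222222222222222222222222222222222222222222222222222222222222222222222222b22222222222222b23222222222222223232222222222222232522222222222222522222222222222222282222222222222282) .uj (.cons (nat_lit 0x2222222222222222222222222222222222222222222222222222222222222222222222222222222222222222222222222222222222222222222222222222222222222222222222222222222222b222aa222222222b232222222222222232322222222222222325222222222222225222222222222a222228222222222a222282) t33 (.cons (nat_lit 0x2222222222222222222222222222222222222222222222222222222222222222222222222222222222222222222222222222222222222222222222222222222222222222222222222222222222b22222222222222b23222222222222223232222222222222232522222222222222522222222222222222282222222222222282) .uj (.cons (nat_lit 0x2222222222222222222222222222222222222222222222222222222222222222222222222222222222222222222222222222222222222222222222222222222222222222222222222222222222b22222222222222b23222222222222223232222222222222232522222222222222522222222222222222282222222222222282)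 .uj D0_36))))))))))))

noncomputable def D0_12 : RL := (.cons (nat_lit 0x2222222222222222222222222222222222222222222222222222222222222222222222222222222222222222222222222222222222222222222222222222222222222222222222222222222222222222222222222223222222222222223252222222222222252322222222222222322222222222222222282222222222222282) .uj (.cons (nat_lit 0x2222222222222222222222222222222222222222222222222222222222222222222222222222222222222222222222222222222222222222222222222222222222222222222222222222222222222222222222222223222222222222223252222222222222252322222222222222322222222222222222282222222222222282) .uj (.cons (nat_lit 0x2222222222222222222222222222222222222222222222222222222222222222222222222222222222222222222222222222222222222222222222222222222222222222222222222222222222222222222222222223222222222222223252222222222222252322222222222222322222222222222222282222222222222282) .uj (.cons (nat_lit 0x222222222222222222222222222222222222222222222222222222222222222222222222222222222222222222222222222222222222222222222222222222222222222222222222222222222222222222222222222c22aa2222222222c23222222222222223252222222222222252222222222222a222282222222222a22282)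 t15 (.cons (nat_lit 0x222222222222222222222222222222222222222222222222222222222222222222222222222222222222222222222222222222222222222222222222222222222222222222222222222222222222222222222222222c22222222222222c232222222222222232522222222222222522222222222222222282222222222222282) .uj (.cons (nat_lit 0x222222222222222222222222222222222222222222222222222222222222222222222222222222222222222222222222222222222222222222222222222222222222222222222222222222222222222222222222222c22222222222222c232222222222222232522222222222222522222222222222222282222222222222282) .uj (.cons (nat_lit 0x222222222222222222222222222222222222222222222222222222222222222222222222222222222222222222222222222222222222222222222222222222222222222222222222222222222222222222222222222c22222222222222c232222222222222232522222222222222522222222222222222282222222222222282) .uj (.cons (nat_lit 0x222222222222222222222222222222222222222222222222222222222222222222222222222222222222222222222222222222222222222222222222222222222222222222222222222222222222222222222222222c22222222222222c232222222222222232522222222222222522222222222222222282222222222222282)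 .uj (.cons (nat_lit 0x222222222222222222222222222222222222222222222222222222222222222222222222222222222222222222222222222222222222222222222222222222222222222222222222222222222222222222222222222c22222222222222c232222222222222232522222222222222522222222222222222282222222222222282) .uj (.cons (nat_lit 0x2222222222222222222222222222222222222222222222222222222222222222222222222222222222222222222222222222222222222222222222222222222222222222222222222222222222222222222222222222322222222222222232222222222222332522222222222222522222222222222222282222222222222282) .uj (.cons (nat_lit 0x222222222222222222222222222222222222222222222222222222222222222222222222222222222222222222222222222222222222222222222222222222222222222222222222222222222222222222222222222232aa2222222222223222222222222233252222222222222252222222222222a222282222222222a22282) t22 (.cons (nat_lit 0x2222222222222222222222222222222222222222222222222222222222222222222222222222222222222222222222222222222222222222222222222222222222222222222222222222222222222222222222222222322222222222222232222222222222332522222222222222522222222222222222282222222222222282)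 .uj D0_24))))))))))))

noncomputable def D0 : RL := (.cons (nat_lit 0x2222222222222222222222222222222222222222222222222222222222222222222222222222222222222222222222222222222222222222222222222222222222222222222222222222222222222222222222222222222222222222222222222222222222222822222222222222822222222222222222282222222222222282) .uj (.cons (nat_lit 0x22222222222222222222222222222222222222222222222222222222222222222222222222222222222222222222222222222222222222222222222222222222222222222222222222222222222222222222222222222222222222222222f22222222222222f2322222222222222322222222222222222282222222222222282) .uj (.cons (nat_lit 0x22222222222222222222222222222222222222222222222222222222222222222222222222222222222222222222222222222222222222222222222222222222222222222222222222222222222222222222222222222222222222222222f22222222222222f2322222222222222322222222222222222282222222222222282) .uj (.cons (nat_lit 0x22222222222222222222222222222222222222222222222222222222222222222222222222222222222222222222222222222222222222222222222222222222222222222222222222222222222222222222222222222222222222222222f22222222222222f2322222222222222322222222222222222282222222222222282)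 .uj (.cons (nat_lit 0x22222222222222222222222222222222222222222222222222222222222222222222222222222222222222222222222222222222222222222222222222222222222222222222222222222222222222222222222222222222222222222222d22222222222222d2422222222222222422222222222222222282222222222222282) .uj (.cons (nat_lit 0x22222222222222222222222222222222222222222222222222222222222222222222222222222222222222222222222222222222222222222222222222222222222222222222222222222222222222222222222222222222222222222222d22222222222222d2422222222222222422222222222222222282222222222222282) .uj (.cons (nat_lit 0x22222222222222222222222222222222222222222222222222222222222222222222222222222222222222222222222222222222222222222222222222222222222222222222222222222222222222222222222222222222222222222222d22222222222222d2422222222222222422222222222222222282222222222222282) .uj (.cons (nat_lit 0x22222222222222222222222222222222222222222222222222222222222222222222222222222222222222222222222222222222222222222222222222222222222222222222222222222222222222222222222222222222222222222222d22222222222222d2d22222222222222d22222222222222222282222222222222282)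 .uj (.cons (nat_lit 0x22222222222222222222222222222222222222222222222222222222222222222222222222222222222222222222222222222222222222222222222222222222222222222222222222222222222222222222222222222222222222222222d22222222222222d2d22222222222222d22222222222222222282222222222222282) .uj (.cons (nat_lit 0x22222222222222222222222222222222222222222222222222222222222222222222222222222222222222222222222222222222222222222222222222222222222222222222222222222222222222222222222222222222222222222222bc2222222222222b2b2222222222222cb22222222222222222282222222222222282) .uj (.cons (nat_lit 0x22222222222222222222222222222222222222222222222222222222222222222222222222222222222222222222222222222222222222222222222222222222222222222222222222222222222222222222222222222222222222222222bc2222222222222b2b2222222222222cb22222222222222222282222222222222282) .uj (.cons (nat_lit 0x222222222222222222222222222222222222222222222222222222222222222222222222222222222222222222222222222222222222222222222222222222222222222222222222222222222222222222222222222322aa2222222222325222222222222225232222222222222232222222222222a222282222222222a22282)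 t11 D0_12))))))))))))

theorem cov_D0 : Cov 0 160 := by
  have h1 : rl D0 (nat_lit 0) = true := by decide +kernel
  have h2 : 0 + rlen D0 = 160 := by decide +kernel
  exact cov_of h1 h2

end MP86a502
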