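import Pool.Agent.Lib.MP_86a502_gt.U.Rlc

set_option autoImplicit false
set_option maxRecDepth 1000000
set_option linter.all false

/-! Certificates, numbers 759 to 761. -/

namespace MP86a502

noncomputable def t759_1 : Tr := (.st (nat_lit 1) (nat_lit 2) (nat_lit 4) (nat_lit 0x15445) (nat_lit 0x400030002000100000002000000020003) (nat_lit 1) (nat_lit 1) (.st (nat_lit 2) (nat_lit 1) (nat_lit 4) (nat_lit 0x15451) (nat_lit 0x400030002000100000003000200000002) (nat_lit 1) (nat_lit 1) (.st (nat_lit 3) (nat_lit 1) (nat_lit 4) (nat_lit 0x14051) (nat_lit 0x200010000000000000002000100000001) (nat_lit 1) (nat_lit 1) (.st (nat_lit 6) (nat_lit 1) (nat_lit 4) (nat_lit 0x15441) (nat_lit 0x200020002000100000001000000000001) (nat_lit 1) (nat_lit 1) (.st (nat_lit 7) (nat_lit 1) (nat_lit 4) (nat_lit 0x15041) (nat_lit 0x200020001000000000001000000000001) (nat_lit 1) (nat_lit 1) (.pd (.cons (nat_lit 0) (nat_lit 8) (nat_lit 0) (nat_lit 0x65442110) (nat_lit 0xf423fb71aea2c2804737f423fb71ae1f15600000) (.cons (nat_lit 1) (nat_lit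 8) (nat_lit 0) (nat_lit 0x65442200) (nat_lit 0xf423fb71aea2c2804737f423fb71ae00000f423f) (.cons (nat_lit 2) (nat_lit 8) (nat_lit 0) (nat_lit 0x65443000) (nat_lit 0xf423fb71aea2c2804737f423f00000f423fb71ae) (.cons (nat_lit 3) (nat_lit 8) (nat_lit 0) (nat_lit 0x65440100) (nat_lit 0xf423fb71aea2c280473700000f423f54591437a2) .nil)))) (.st (nat_lit 8) (nat_lit 1) (nat_lit 4) (nat_lit 0x14041) (nat_lit 0x200010000000000000001000000000001) (nat_lit 1) (nat_lit 1) (.split (nat_lit 8) (nat_lit 3) (.split (nat_lit 8) (nat_lit 0) (.split (nat_lit 8) (nat_lit 7) (.pd (.cons (nat_lit 0) (nat_lit 7) (nat_lit 0) (nat_lit 0x305442110) (nat_lit 0xf423f00000f423fb71ae1f156b71aea2c280473700000) (.cons (nat_lit 1) (nat_lit 5) (nat_lit 0) (nat_lit 0x87048300) (nat_lit 0x51611b71aef423f00000f423fb71aef423f000003d085) (.cons (nat_lit 1) (nat_lit 6) (nat_lit 0) (nat_lit 0x80448300) (nat_lit 0x65b97f423f00000f423f54591b71aef423f0000061a79) (.cons (nat_lit 2) (nat_lit 5) (nat_lit 0) (nat_lit 0x87048000) (nat_lit 0x65b97b71aef423f00000f423ff423f00000f423f249e8)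 (.cons (nat_lit 2) (nat_lit 6) (nat_lit 0) (nat_lit 0x80448000) (nat_lit 0x7a11df423f00000f423f54591f423f00000f423f3d08a) (.cons (nat_lit 3) (nat_lit 7) (nat_lit 0) (nat_lit 0x5440100) (nat_lit 0xf423f00000f423fb71ae1f15600000f423f5459106711) .nil)))))) (.leaf (.cons (nat_lit 0x14054) (nat_lit 0x200010000000000000003000400030000) (.cons (nat_lit 0x14015) (nat_lit 0x200010000000000000000000300040003) .nil)) .nil)) (.non (nat_lit 1) (nat_lit 4) (nat_lit 0x1a840) (nat_lit 0x400030002000100000002000000000000))) (.non (nat_lit 1) (nat_lit 4) (nat_lit 0x28081) (nat_lit 0x200010000000000000001000000000002))) (.non (nat_lit 1) (nat_lit 4) (nat_lit 0x2a050) (nat_lit 0x300020001000000000004000200000000))))))))))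

noncomputable def t759 : Tr := (.split (nat_lit 6) (nat_lit 0) (.split (nat_lit 6) (nat_lit 3) (.split (nat_lit 8) (nat_lit 0) (.split (nat_lit 8) (nat_lit 3) .uj (.sup (nat_lit 0x20009000a0005) (nat_lit 0x100040007000a00080000000000000000))) (.split (nat_lit 8) (nat_lit 3) (.sup (nat_lit 0x5000a00090002) (nat_lit 0x100040007000a00080000000000000000)) (.st (nat_lit 0) (nat_lit 1) (nat_lit 4) (nat_lit 0x15051) (nat_lit 0x300020001000000000002000100000002) (nat_lit 1) (nat_lit 1) t759_1))) (.non (nat_lit 1) (nat_lit 7) (nat_lit 0x1550) (nat_lit 0x3000400030002000100000000))) (.non (nat_lit 2) (nat_lit 7) (nat_lit 0x1505) (nat_lit 0x3000400030000000000010002)))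

noncomputable def t761_1 : Tr := (.split (nat_lit 9) (nat_lit 5) (.split (nat_lit 9) (nat_lit 6) (.split (nat_lit 9) (nat_lit 7) (.ex (nat_lit 8) (.split (nat_lit 9) (nat_lit 8) (.pd (.cons (nat_lit 0) (nat_lit 4) (nat_lit 0) (nat_lit 0x8765502110) (nat_lit 0xf423fb71aea2c2898965927bd00000f423fb71ae1f15600000) (.cons (nat_lit 1) (nat_lit 4) (nat_lit 0) (nat_lit 0x8765502200) (nat_lit 0xf423fb71aea2c2898965927bd00000f423fb71ae00000f423f) (.cons (nat_lit 2) (nat_lit 4) (nat_lit 0) (nat_lit 0x8765503000) (nat_lit 0xf423fb71aea2c2898965927bd00000f423f00000f423fb71ae) (.cons (nat_lit 3) (nat_lit 4) (nat_lit 0) (nat_lit 0x8765500100) (nat_lit 0xf423fb71aea2c2898965927bd0000000000f423f54591437a2) .nil)))) (.leaf (.cons (nat_lit 0x554) (nat_lit 0x100010001000100010000) (.cons (nat_lit 0x1540) (nat_lit 0x1000200020001000000000000) .nil)) (.cons (nat_lit 0x11110) (nat_lit 0x100001) (nat_lit 0x10) (nat_lit 0x32100) .nil))) (.sup (nat_lit 0x8000b000b000b000b00070000000000000000) (nat_lit 0x4000f00100008))) (.split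 (nat_lit 0xa) (nat_lit 0) (.split (nat_lit 0xa) (nat_lit 1) (.split (nat_lit 0xa) (nat_lit 2) (.split (nat_lit 0xa) (nat_lit 3) (.split (nat_lit 0xa) (nat_lit 4) (.split (nat_lit 0xa) (nat_lit 5) (.split (nat_lit 0xa) (nat_lit 6) (.split (nat_lit 0xa) (nat_lit 7) (.split (nat_lit 0xa) (nat_lit 9) (.sup (nat_lit 0x50005000b000b000b000b00070000000000000000) (nat_lit 0x4000f00100008)) (.non (nat_lit 1) (nat_lit 5) (nat_lit 0x150000) (nat_lit 0x10001000100000000000000000000000000000000))) (.non (nat_lit 1) (nat_lit 5) (nat_lit 0x114000) (nat_lit 0x10000000100010000000000000000000000000000))) (.non (nat_lit 1) (nat_lit 5) (nat_lit 0x115000) (nat_lit 0x10000000100010001000000000000000000000000))) (.non (nat_lit 1) (nat_lit 6) (nat_lit 0x150500) (nat_lit 0x30001000200000000000400030000000000000000))) (.non (nat_lit 1) (nat_lit 6) (nat_lit 0x150500) (nat_lit 0x30001000200000000000300040000000000000000))) (.non (nat_lit 1) (nat_lit 5) (nat_lit 0x154150) (nat_lit 0x20001000200010000000000010002000100000000)))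 (.non (nat_lit 1) (nat_lit 6) (nat_lit 0x100550) (nat_lit 0x10000000000000000000300040003000200000000))) (.non (nat_lit 0) (nat_lit 5) (nat_lit 0x150014) (nat_lit 0x30001000200000000000000000000000300040000))) (.non (nat_lit 3) (nat_lit 5) (nat_lit 0x110015) (nat_lit 0x20000000100000000000000000000000300040003)))) (.non (nat_lit 1) (nat_lit 5) (nat_lit 0x54000) (nat_lit 0x1000100010000000000000000000000000000))) (.non (nat_lit 1) (nat_lit 5) (nat_lit 0x55000) (nat_lit 0x1000100010001000000000000000000000000))) (.non (nat_lit 1) (nat_lit 6) (nat_lit 0x54500) (nat_lit 0x3000200010000000400030000000000000000)))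

noncomputable def t761_2 : Tr := (.ex (nat_lit 7) (.pd (.cons (nat_lit 3) (nat_lit 8) (nat_lit 0) (nat_lit 0x65440100) (nat_lit 0xf423fb71aea2c280473700000f423f54591437a2) .nil) (.ex (nat_lit 8) (.pd (.cons (nat_lit 0) (nat_lit 4) (nat_lit 0) (nat_lit 0x765502110) (nat_lit 0xf423fb71aea2c289896500000f423fb71ae1f15600000) (.cons (nat_lit 1) (nat_lit 4) (nat_lit 0) (nat_lit 0x765502200) (nat_lit 0xf423fb71aea2c289896500000f423fb71ae00000f423f) (.cons (nat_lit 2) (nat_lit 4) (nat_lit 0) (nat_lit 0x765503000) (nat_lit 0xf423fb71aea2c289896500000f423f00000f423fb71ae) (.cons (nat_lit 3) (nat_lit 4) (nat_lit 0) (nat_lit 0x765500100) (nat_lit 0xf423fb71aea2c28989650000000000f423f54591437a2) .nil)))) (.leaf (.cons (nat_lit 0x554) (nat_lit 0x100010001000100010000) (.cons (nat_lit 0x1540) (nat_lit 0x1000200020001000000000000) .nil)) (.cons (nat_lit 0x11110) (nat_lit 0x100001) (nat_lit 0x10) (nat_lit 0x32100) .nil))) (.split (nat_lit 9) (nat_lit 0) (.split (nat_lit 9) (nat_lit 1) (.split (nat_lit 9) (nat_lit 2)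 (.split (nat_lit 9) (nat_lit 3) (.split (nat_lit 9) (nat_lit 4) t761_1 (.non (nat_lit 1) (nat_lit 6) (nat_lit 0x54500) (nat_lit 0x3000200010000000300040000000000000000))) (.non (nat_lit 1) (nat_lit 6) (nat_lit 0x50540) (nat_lit 0x2000100000000000300040003000000000000))) (.non (nat_lit 1) (nat_lit 6) (nat_lit 0x40550) (nat_lit 0x1000000000000000300040003000200000000))) (.non (nat_lit 0) (nat_lit 5) (nat_lit 0x54014) (nat_lit 0x3000200010000000000000000000300040000))) (.non (nat_lit 3) (nat_lit 5) (nat_lit 0x50015) (nat_lit 0x2000100000000000000000000000300040003))))) (.split (nat_lit 9) (nat_lit 0) (.split (nat_lit 9) (nat_lit 1) (.split (nat_lit 9) (nat_lit 2) (.split (nat_lit 9) (nat_lit 3) (.split (nat_lit 9) (nat_lit 4) (.split (nat_lit 9) (nat_lit 5) (.split (nat_lit 9) (nat_lit 6) (.split (nat_lit 9) (nat_lit 8) (.sup (nat_lit 0x50005000b000b000b00070000000000000000) (nat_lit 0x4000f00100008)) (.non (nat_lit 1) (nat_lit 5) (nat_lit 0x54000) (nat_lit 0x1000100010000000000000000000000000000))) (.non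 (nat_lit 1) (nat_lit 5) (nat_lit 0x45000) (nat_lit 0x1000000010001000000000000000000000000))) (.non (nat_lit 1) (nat_lit 6) (nat_lit 0x54500) (nat_lit 0x3000100020000000400030000000000000000))) (.non (nat_lit 1) (nat_lit 6) (nat_lit 0x54500) (nat_lit 0x3000100020000000300040000000000000000))) (.non (nat_lit 1) (nat_lit 5) (nat_lit 0x55150) (nat_lit 0x2000100020001000000010002000100000000))) (.non (nat_lit 1) (nat_lit 6) (nat_lit 0x40550) (nat_lit 0x1000000000000000300040003000200000000))) (.non (nat_lit 0) (nat_lit 5) (nat_lit 0x54014) (nat_lit 0x3000100020000000000000000000300040000))) (.non (nat_lit 3) (nat_lit 5) (nat_lit 0x44015) (nat_lit 0x2000000010000000000000000000300040003))))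

noncomputable def t761_3 : Tr := (.ex (nat_lit 1) (.split (nat_lit 4) (nat_lit 3) (.split (nat_lit 8) (nat_lit 7) (.pd (.cons (nat_lit 0) (nat_lit 5) (nat_lit 0) (nat_lit 0x766032110) (nat_lit 0xf423fb71aea2c2800000f423fb71aea2c280473700000) (.cons (nat_lit 3) (nat_lit 5) (nat_lit 0) (nat_lit 0x766040100) (nat_lit 0xf423fb71aea2c2800000f423f00000f423f54591437a2) (.cons (nat_lit 3) (nat_lit 6) (nat_lit 0) (nat_lit 0x770440100) (nat_lit 0xf423fb71ae00000f423f5459100000f423f54591437a2) .nil))) (.ex (nat_lit 6) (.pd (.cons (nat_lit 3) (nat_lit 7) (nat_lit 0) (nat_lit 0x805440100) (nat_lit 0xf423f00000f423fb71ae1f15600000f423f54591437a2) .nil) t761_2) (.split (nat_lit 9) (nat_lit 0) (.split (nat_lit 9) (nat_lit 1) (.split (nat_lit 9) (nat_lit 2) (.split (nat_lit 9) (nat_lit 3) (.split (nat_lit 9) (nat_lit 4) (.split (nat_lit 9) (nat_lit 5) (.split (nat_lit 9) (nat_lit 7) (.split (nat_lit 9) (nat_lit 8) (.sup (nat_lit 0x20009000a0005) (nat_lit 0x500000005000a000a00060000000000000000)) (.non (nat_lit 1) (nat_lit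 5) (nat_lit 0x55000) (nat_lit 0x1000100010001000000000000000000000000))) (.non (nat_lit 1) (nat_lit 5) (nat_lit 0x45000) (nat_lit 0x1000000010001000000000000000000000000))) (.non (nat_lit 1) (nat_lit 6) (nat_lit 0x40540) (nat_lit 0x1000000000000000200020001000000000000))) (.non (nat_lit 1) (nat_lit 6) (nat_lit 0x40540) (nat_lit 0x1000000000000000200020001000000000000))) (.non (nat_lit 1) (nat_lit 6) (nat_lit 0x40550) (nat_lit 0x1000000000000000200020002000100000000))) (.star (nat_lit 9) (nat_lit 2) (nat_lit 6))) (.star (nat_lit 9) (nat_lit 1) (nat_lit 6))) (.non (nat_lit 3) (nat_lit 5) (nat_lit 0x41015) (nat_lit 0x2000000000001000000000000000300040003))))) (.sup (nat_lit 0x20009000a0005) (nat_lit 0x7000a000a000a00060000000000000000))) (.non (nat_lit 1) (nat_lit 6) (nat_lit 0x540) (nat_lit 0x100010001000000000000))) (.split (nat_lit 9) (nat_lit 0) (.split (nat_lit 9) (nat_lit 2) (.split (nat_lit 9) (nat_lit 3) (.split (nat_lit 9) (nat_lit 4) (.split (nat_lit 9) (nat_lit 5) (.split (nat_lit 9) (nat_lit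 6) (.split (nat_lit 9) (nat_lit 7) (.split (nat_lit 9) (nat_lit 8) (.unj (nat_lit 0x40015) (nat_lit 0x1000000000000000000000000000200020001) (nat_lit 0x15500) (nat_lit 0x100020003000400030000000000000000)) (.sup (nat_lit 0x50000000000000000000000000006000a0005) (nat_lit 0x5000a00090002000000000000))) (.split (nat_lit 9) (nat_lit 8) (.sup (nat_lit 0x50000000000000000000000000006000a0005) (nat_lit 0x5000a00090002000000000000)) (.non (nat_lit 1) (nat_lit 5) (nat_lit 0x54000) (nat_lit 0x1000100010000000000000000000000000000)))) (.star (nat_lit 9) (nat_lit 1) (nat_lit 6))) (.star (nat_lit 9) (nat_lit 1) (nat_lit 5))) (.non (nat_lit 1) (nat_lit 6) (nat_lit 0x40540) (nat_lit 0x1000000000000000200020001000000000000))) (.non (nat_lit 1) (nat_lit 6) (nat_lit 0x40550) (nat_lit 0x1000000000000000200020002000100000000))) (.non (nat_lit 1) (nat_lit 6) (nat_lit 0x40550) (nat_lit 0x1000000000000000300040003000200000000))) (.non (nat_lit 2) (nat_lit 5) (nat_lit 0x40005) (nat_lit 0x1000000000000000000000000000000010001))))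

noncomputable def t761_4 : Tr := (.ex (nat_lit 8) (.split (nat_lit 9) (nat_lit 0) (.pd (.cons (nat_lit 0) (nat_lit 4) (nat_lit 0) (nat_lit 0x8765502110) (nat_lit 0xf423fb71aea2c2898965927bd00000f423fb71ae1f15600000) (.cons (nat_lit 1) (nat_lit 4) (nat_lit 0) (nat_lit 0x987602200) (nat_lit 0x927bd98965a2c28b71aef423f00000f423fb71ae000008e6a2) (.cons (nat_lit 2) (nat_lit 4) (nat_lit 0) (nat_lit 0x987603000) (nat_lit 0x927bd98965a2c28b71aef423f00000f423f00000f423f51611) .nil))) (.ex (nat_lit 9) (.pd (.cons (nat_lit 3) (nat_lit 8) (nat_lit 0) (nat_lit 0x65440100) (nat_lit 0xf423f00000f423fb71aea2c280473700000f423f5459106711) .nil) (.leaf (.cons (nat_lit 0x554) (nat_lit 0x100010001000100010000) (.cons (nat_lit 0x1540) (nat_lit 0x1000200020001000000000000) (.cons (nat_lit 0x50015) (nat_lit 0x2000100000000000000000000000300040003) .nil))) (.cons (nat_lit 0x11110) (nat_lit 0x100001) (nat_lit 0x10) (nat_lit 0x32100) .nil))) (.split (nat_lit 0xa) (nat_lit 0) (.split (nat_lit 0xa) (nat_lit 1) (.split (nat_lit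 0xa) (nat_lit 2) (.split (nat_lit 0xa) (nat_lit 3) (.split (nat_lit 0xa) (nat_lit 4) (.split (nat_lit 0xa) (nat_lit 5) (.split (nat_lit 0xa) (nat_lit 6) (.split (nat_lit 0xa) (nat_lit 7) (.split (nat_lit 0xa) (nat_lit 8) (.sup (nat_lit 0x20005000800070001000000000000) (nat_lit 0x20005000200000000000000000000000500070006)) (.non (nat_lit 1) (nat_lit 5) (nat_lit 0x150000) (nat_lit 0x10001000100000000000000000000000000000000))) (.non (nat_lit 1) (nat_lit 5) (nat_lit 0x154000) (nat_lit 0x10001000100010000000000000000000000000000))) (.non (nat_lit 1) (nat_lit 5) (nat_lit 0x155000) (nat_lit 0x10001000100010001000000000000000000000000))) (.non (nat_lit 1) (nat_lit 6) (nat_lit 0x150500) (nat_lit 0x30002000100000000000400030000000000000000))) (.non (nat_lit 1) (nat_lit 5) (nat_lit 0x155141) (nat_lit 0x30004000300020001000000020001000000000002))) (.non (nat_lit 1) (nat_lit 5) (nat_lit 0x155141) (nat_lit 0x30004000300020001000000010002000000000002))) (.non (nat_lit 1) (nat_lit 5) (nat_lit 0x155051) (nat_lit 0x30004000300020001000000000001000200000002)))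 (.non (nat_lit 2) (nat_lit 5) (nat_lit 0x140005) (nat_lit 0x10001000000000000000000000000000000010001))) (.non (nat_lit 1) (nat_lit 5) (nat_lit 0x140001) (nat_lit 0x10001000000000000000000000000000000000001))))) (.non (nat_lit 2) (nat_lit 5) (nat_lit 0xa8005) (nat_lit 0x3000200010000000000000000000000020004))) (.split (nat_lit 0xa) (nat_lit 0) (.split (nat_lit 0xa) (nat_lit 1) (.split (nat_lit 0xa) (nat_lit 2) (.split (nat_lit 0xa) (nat_lit 3) (.split (nat_lit 0xa) (nat_lit 4) (.split (nat_lit 0xa) (nat_lit 5) (.split (nat_lit 0xa) (nat_lit 6) (.split (nat_lit 0xa) (nat_lit 7) (.split (nat_lit 0xa) (nat_lit 9) (.split (nat_lit 0xa) (nat_lit 8) (.split (nat_lit 9) (nat_lit 0) (.par (nat_lit 0x155405) (nat_lit 0x20003000400030002000100000000000000010002)) (.non (nat_lit 1) (nat_lit 5) (nat_lit 0x2a8001) (nat_lit 0x10002000200010000000000000000000000000002))) (.non (nat_lit 1) (nat_lit 5) (nat_lit 0x254000) (nat_lit 0x10001000200010000000000000000000000000000))) (.non (nat_lit 1) (nat_lit 5) (nat_lit 0x150000)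 (nat_lit 0x10001000100000000000000000000000000000000))) (.non (nat_lit 1) (nat_lit 5) (nat_lit 0x114000) (nat_lit 0x10000000100010000000000000000000000000000))) (.non (nat_lit 1) (nat_lit 5) (nat_lit 0x115000) (nat_lit 0x10000000100010001000000000000000000000000))) (.non (nat_lit 1) (nat_lit 6) (nat_lit 0x150500) (nat_lit 0x30001000200000000000400030000000000000000))) (.non (nat_lit 1) (nat_lit 5) (nat_lit 0x155101) (nat_lit 0x20002000300020001000000010000000000000001))) (.non (nat_lit 1) (nat_lit 5) (nat_lit 0x154150) (nat_lit 0x20001000200010000000000010002000100000000))) (.non (nat_lit 1) (nat_lit 5) (nat_lit 0x155011) (nat_lit 0x20002000300020001000000000000000100000001))) (.non (nat_lit 2) (nat_lit 5) (nat_lit 0x150005) (nat_lit 0x10001000100000000000000000000000000010001))) (.non (nat_lit 1) (nat_lit 5) (nat_lit 0x150001) (nat_lit 0x10001000100000000000000000000000000000001))))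

noncomputable def t761_5 : Tr := (.ex (nat_lit 6) (.ex (nat_lit 7) t761_4 (.split (nat_lit 0xa) (nat_lit 0) (.split (nat_lit 0xa) (nat_lit 1) (.split (nat_lit 0xa) (nat_lit 2) (.split (nat_lit 0xa) (nat_lit 3) (.split (nat_lit 0xa) (nat_lit 4) (.split (nat_lit 0xa) (nat_lit 5) (.split (nat_lit 0xa) (nat_lit 6) (.split (nat_lit 0xa) (nat_lit 8) (.split (nat_lit 0xa) (nat_lit 9) (.sup (nat_lit 0x20000000200050006000700050000000000000000) (nat_lit 0x2000000000000000000000001000700080005)) (.non (nat_lit 1) (nat_lit 5) (nat_lit 0x154000) (nat_lit 0x10001000100010000000000000000000000000000))) (.non (nat_lit 1) (nat_lit 5) (nat_lit 0x114000) (nat_lit 0x10000000100010000000000000000000000000000))) (.non (nat_lit 1) (nat_lit 5) (nat_lit 0x105000) (nat_lit 0x10000000000010001000000000000000000000000))) (.non (nat_lit 1) (nat_lit 6) (nat_lit 0x114500) (nat_lit 0x30000000100020000000400030000000000000000))) (.non (nat_lit 1) (nat_lit 5) (nat_lit 0x155141) (nat_lit 0x30002000300040002000000020001000000000001)))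 (.non (nat_lit 1) (nat_lit 5) (nat_lit 0x115150) (nat_lit 0x20000000100020001000000010002000100000000))) (.non (nat_lit 1) (nat_lit 5) (nat_lit 0x155051) (nat_lit 0x30002000300040002000000000001000200000001))) (.non (nat_lit 2) (nat_lit 5) (nat_lit 0x154005) (nat_lit 0x10001000100010000000000000000000000010001))) (.non (nat_lit 1) (nat_lit 5) (nat_lit 0x154001) (nat_lit 0x10001000100010000000000000000000000000001)))) (.split (nat_lit 0xa) (nat_lit 0) (.split (nat_lit 0xa) (nat_lit 1) (.split (nat_lit 0xa) (nat_lit 2) (.split (nat_lit 0xa) (nat_lit 3) (.split (nat_lit 0xa) (nat_lit 4) (.split (nat_lit 0xa) (nat_lit 5) (.split (nat_lit 0xa) (nat_lit 7) (.split (nat_lit 0xa) (nat_lit 8) (.split (nat_lit 0xa) (nat_lit 9) (.sup (nat_lit 0x20009000a0005) (nat_lit 0x5000000000005000a000a00060000000000000000)) (.non (nat_lit 1) (nat_lit 5) (nat_lit 0x155000) (nat_lit 0x10001000100010001000000000000000000000000))) (.non (nat_lit 1) (nat_lit 5) (nat_lit 0x115000) (nat_lit 0x10000000100010001000000000000000000000000)))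 (.non (nat_lit 1) (nat_lit 5) (nat_lit 0x105000) (nat_lit 0x10000000000010001000000000000000000000000))) (.non (nat_lit 1) (nat_lit 6) (nat_lit 0x100540) (nat_lit 0x10000000000000000000200020001000000000000))) (.non (nat_lit 1) (nat_lit 6) (nat_lit 0x100540) (nat_lit 0x10000000000000000000200020001000000000000))) (.non (nat_lit 1) (nat_lit 6) (nat_lit 0x100550) (nat_lit 0x10000000000000000000200020002000100000000))) (.star (nat_lit 0xa) (nat_lit 2) (nat_lit 6))) (.star (nat_lit 0xa) (nat_lit 1) (nat_lit 6))) (.non (nat_lit 1) (nat_lit 5) (nat_lit 0x155001) (nat_lit 0x10001000100010001000000000000000000000001))))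

noncomputable def t761_6 : Tr := (.ex (nat_lit 0) (.ex (nat_lit 1) (.split (nat_lit 4) (nat_lit 3) (.split (nat_lit 8) (nat_lit 7) (.split (nat_lit 9) (nat_lit 8) (.pd (.cons (nat_lit 0) (nat_lit 5) (nat_lit 0) (nat_lit 0x8766032110) (nat_lit 0xf423fb71aea2c289896500000f423fb71aea2c280473700000) .nil) t761_5) (.non (nat_lit 1) (nat_lit 5) (nat_lit 0x6a001) (nat_lit 0x4000300020001000000000000000000000002))) (.non (nat_lit 1) (nat_lit 5) (nat_lit 0x5a001) (nat_lit 0x2000300020001000000000000000000000001))) (.non (nat_lit 1) (nat_lit 6) (nat_lit 0x540) (nat_lit 0x100010001000000000000))) (.split (nat_lit 0xa) (nat_lit 0) (.split (nat_lit 0xa) (nat_lit 2) (.split (nat_lit 0xa) (nat_lit 3) (.split (nat_lit 0xa) (nat_lit 4) (.split (nat_lit 0xa) (nat_lit 5) (.split (nat_lit 0xa) (nat_lit 6) (.split (nat_lit 0xa) (nat_lit 7) (.split (nat_lit 0xa) (nat_lit 8) (.split (nat_lit 0xa) (nat_lit 9) (.unj (nat_lit 0x100015) (nat_lit 0x10000000000000000000000000000000200020001) (nat_lit 0x15500) (nat_lit 0x100020003000400030000000000000000))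 (.non (nat_lit 2) (nat_lit 5) (nat_lit 0x140005) (nat_lit 0x10001000000000000000000000000000000010001))) (.non (nat_lit 2) (nat_lit 5) (nat_lit 0x150005) (nat_lit 0x10001000100000000000000000000000000010001))) (.non (nat_lit 2) (nat_lit 5) (nat_lit 0x154005) (nat_lit 0x10001000100010000000000000000000000010001))) (.star (nat_lit 0xa) (nat_lit 1) (nat_lit 6))) (.star (nat_lit 0xa) (nat_lit 1) (nat_lit 5))) (.non (nat_lit 1) (nat_lit 6) (nat_lit 0x100540) (nat_lit 0x10000000000000000000200020001000000000000))) (.non (nat_lit 1) (nat_lit 6) (nat_lit 0x100550) (nat_lit 0x10000000000000000000200020002000100000000))) (.non (nat_lit 1) (nat_lit 6) (nat_lit 0x100550) (nat_lit 0x10000000000000000000300040003000200000000))) (.non (nat_lit 2) (nat_lit 5) (nat_lit 0x100005) (nat_lit 0x10000000000000000000000000000000000010001)))) (.split (nat_lit 0xa) (nat_lit 1) (.split (nat_lit 0xa) (nat_lit 2) (.split (nat_lit 0xa) (nat_lit 3) (.split (nat_lit 0xa) (nat_lit 4) (.split (nat_lit 0xa) (nat_lit 5) (.split (nat_lit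 0xa) (nat_lit 6) (.split (nat_lit 0xa) (nat_lit 7) (.split (nat_lit 0xa) (nat_lit 8) (.split (nat_lit 0xa) (nat_lit 9) (.sup (nat_lit 0x5000a00090002000000000000) (nat_lit 0x500050000000000000000000000000006000a000a)) (.non (nat_lit 1) (nat_lit 5) (nat_lit 0x140001) (nat_lit 0x10001000000000000000000000000000000000001))) (.non (nat_lit 1) (nat_lit 5) (nat_lit 0x150001) (nat_lit 0x10001000100000000000000000000000000000001))) (.non (nat_lit 1) (nat_lit 5) (nat_lit 0x154001) (nat_lit 0x10001000100010000000000000000000000000001))) (.non (nat_lit 1) (nat_lit 5) (nat_lit 0x155001) (nat_lit 0x10001000100010001000000000000000000000001))) (.non (nat_lit 1) (nat_lit 6) (nat_lit 0x100540) (nat_lit 0x10000000000000000000200020001000000000000))) (.non (nat_lit 1) (nat_lit 6) (nat_lit 0x100540) (nat_lit 0x10000000000000000000200020001000000000000))) (.non (nat_lit 1) (nat_lit 6) (nat_lit 0x100550) (nat_lit 0x10000000000000000000200020002000100000000))) (.non (nat_lit 1) (nat_lit 6) (nat_lit 0x100550) (nat_lit 0x10000000000000000000300040003000200000000)))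 (.non (nat_lit 2) (nat_lit 5) (nat_lit 0x100005) (nat_lit 0x10000000000000000000000000000000000010001))))

noncomputable def t761_7 : Tr := (.ex (nat_lit 6) (.split (nat_lit 9) (nat_lit 0) (.pd (.cons (nat_lit 3) (nat_lit 7) (nat_lit 0) (nat_lit 0x805440100) (nat_lit 0xf423ff423f00000f423fb71ae1f15600000f423f5459106711) .nil) (.ex (nat_lit 8) (.pd (.cons (nat_lit 0) (nat_lit 4) (nat_lit 0) (nat_lit 0x7765502110) (nat_lit 0xf423ff423f7a11d7a11b7a11900000f423fb71ae1f15600000) (.cons (nat_lit 1) (nat_lit 4) (nat_lit 0) (nat_lit 0x797602200) (nat_lit 0x61a79f423f65b97b71aef423f00000f423fb71ae000005b8cc) (.cons (nat_lit 2) (nat_lit 4) (nat_lit 0) (nat_lit 0x797603000) (nat_lit 0x61a79f423f65b97b71aef423f00000f423f00000f423f1e83b) .nil))) (.leaf (.cons (nat_lit 0x554) (nat_lit 0x100010001000100010000) (.cons (nat_lit 0x1540) (nat_lit 0x1000200020001000000000000) (.cons (nat_lit 0x44015) (nat_lit 0x2000000010000000000000000000300040003) .nil))) (.cons (nat_lit 0x11110) (nat_lit 0x100001) (nat_lit 0x10) (nat_lit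 0x32100) .nil))) (.split (nat_lit 0xa) (nat_lit 0) (.split (nat_lit 0xa) (nat_lit 1) (.split (nat_lit 0xa) (nat_lit 2) (.split (nat_lit 0xa) (nat_lit 3) (.split (nat_lit 0xa) (nat_lit 4) (.split (nat_lit 0xa) (nat_lit 5) (.split (nat_lit 0xa) (nat_lit 6) (.split (nat_lit 0xa) (nat_lit 7) (.split (nat_lit 0xa) (nat_lit 9) (.split (nat_lit 0xa) (nat_lit 8) (.par (nat_lit 0x155401) (nat_lit 0x10002000200030002000100000000000000000001)) (.non (nat_lit 1) (nat_lit 5) (nat_lit 0x255000) (nat_lit 0x10001000200020001000000000000000000000000))) (.non (nat_lit 1) (nat_lit 5) (nat_lit 0x154000) (nat_lit 0x10001000100010000000000000000000000000000))) (.non (nat_lit 1) (nat_lit 5) (nat_lit 0x114000) (nat_lit 0x10000000100010000000000000000000000000000))) (.non (nat_lit 1) (nat_lit 5) (nat_lit 0x115000) (nat_lit 0x10000000100010001000000000000000000000000))) (.non (nat_lit 1) (nat_lit 6) (nat_lit 0x114500) (nat_lit 0x30000000200010000000400030000000000000000))) (.non (nat_lit 1) (nat_lit 5) (nat_lit 0x155151) (nat_lit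 0x40004000500060003000000030002000100000002))) (.non (nat_lit 1) (nat_lit 5) (nat_lit 0x155150) (nat_lit 0x20001000200020001000000010002000100000000))) (.non (nat_lit 1) (nat_lit 5) (nat_lit 0x155151) (nat_lit 0x40004000500060003000000010002000300000002))) (.non (nat_lit 2) (nat_lit 5) (nat_lit 0x154005) (nat_lit 0x10001000100010000000000000000000000010001))) (.non (nat_lit 1) (nat_lit 5) (nat_lit 0x154001) (nat_lit 0x10001000100010000000000000000000000000001))))) (.non (nat_lit 1) (nat_lit 5) (nat_lit 0xaa001) (nat_lit 0x2000100020001000000000000000000000002))) (.split (nat_lit 0xa) (nat_lit 0) (.split (nat_lit 0xa) (nat_lit 1) (.split (nat_lit 0xa) (nat_lit 2) (.split (nat_lit 0xa) (nat_lit 3) (.split (nat_lit 0xa) (nat_lit 4) (.split (nat_lit 0xa) (nat_lit 5) (.split (nat_lit 0xa) (nat_lit 7) (.split (nat_lit 0xa) (nat_lit 8) (.split (nat_lit 0xa) (nat_lit 9) (.sup (nat_lit 0x20009000a0005) (nat_lit 0x5000000000005000a000a00060000000000000000)) (.non (nat_lit 1) (nat_lit 5) (nat_lit 0x145000) (nat_lit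 0x10001000000010001000000000000000000000000))) (.non (nat_lit 1) (nat_lit 5) (nat_lit 0x115000) (nat_lit 0x10000000100010001000000000000000000000000))) (.non (nat_lit 1) (nat_lit 5) (nat_lit 0x105000) (nat_lit 0x10000000000010001000000000000000000000000))) (.non (nat_lit 1) (nat_lit 6) (nat_lit 0x100540) (nat_lit 0x10000000000000000000200020001000000000000))) (.non (nat_lit 1) (nat_lit 5) (nat_lit 0x155151) (nat_lit 0x40004000300060005000000030002000100000002))) (.non (nat_lit 1) (nat_lit 5) (nat_lit 0x155150) (nat_lit 0x20001000100020002000000010002000100000000))) (.star (nat_lit 0xa) (nat_lit 2) (nat_lit 6))) (.star (nat_lit 0xa) (nat_lit 1) (nat_lit 6))) (.non (nat_lit 1) (nat_lit 5) (nat_lit 0x145001) (nat_lit 0x10001000000010001000000000000000000000001))))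

noncomputable def t761_8 : Tr := (.split (nat_lit 9) (nat_lit 7) (.split (nat_lit 9) (nat_lit 8) (.split (nat_lit 9) (nat_lit 0) (.split (nat_lit 8) (nat_lit 7) (.split (nat_lit 4) (nat_lit 3) (.sup (nat_lit 0x40007000b000f000c0000000000000000) (nat_lit 0x5000000000000000000000001000d0010000b)) (.non (nat_lit 1) (nat_lit 6) (nat_lit 0x540) (nat_lit 0x100010001000000000000))) (.sup (nat_lit 0x400050006000600040000000000000000) (nat_lit 0x3000000000000000000000001000700080005))) (.unj (nat_lit 0x40015) (nat_lit 0x1000000000000000000000000000100010001) (nat_lit 0x15500) (nat_lit 0x100020003000400030000000000000000))) t761_6) (.split (nat_lit 9) (nat_lit 8) (.st (nat_lit 0) (nat_lit 2) (nat_lit 5) (nat_lit 0x55005) (nat_lit 0x2000100020001000000000000000000010002) (nat_lit 1) (nat_lit 1) (.st (nat_lit 7) (nat_lit 1) (nat_lit 5) (nat_lit 0x55000) (nat_lit 0x1000100020001000000000000000000000000) (nat_lit 1) (nat_lit 1) (.st (nat_lit 9) (nat_lit 1) (nat_lit 5) (nat_lit 0x55001) (nat_lit 0x2000100020001000000000000000000000001)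 (nat_lit 1) (nat_lit 1) (.ex (nat_lit 1) (.split (nat_lit 4) (nat_lit 3) (.split (nat_lit 8) (nat_lit 7) (.split (nat_lit 9) (nat_lit 7) (.pd (.cons (nat_lit 0) (nat_lit 5) (nat_lit 0) (nat_lit 0x7766032110) (nat_lit 0xf423ff423f7a11d7a11b00000f423fb71aea2c280473700000) .nil) t761_7) (.non (nat_lit 1) (nat_lit 5) (nat_lit 0x95000) (nat_lit 0x1000100020001000000000000000000000000))) (.non (nat_lit 1) (nat_lit 5) (nat_lit 0x65000) (nat_lit 0x1000100020001000000000000000000000000))) (.non (nat_lit 1) (nat_lit 6) (nat_lit 0x540) (nat_lit 0x100010001000000000000))) (.split (nat_lit 0xa) (nat_lit 0) (.split (nat_lit 0xa) (nat_lit 2) (.split (nat_lit 0xa) (nat_lit 3) (.split (nat_lit 0xa) (nat_lit 4) (.split (nat_lit 0xa) (nat_lit 5) (.split (nat_lit 0xa) (nat_lit 6) (.split (nat_lit 0xa) (nat_lit 7) (.split (nat_lit 0xa) (nat_lit 8) (.split (nat_lit 0xa) (nat_lit 9) (.unj (nat_lit 0x100015) (nat_lit 0x10000000000000000000000000000000200020001) (nat_lit 0x15500) (nat_lit 0x100020003000400030000000000000000))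 (.non (nat_lit 1) (nat_lit 5) (nat_lit 0x155001) (nat_lit 0x10002000100020001000000000000000000000001))) (.non (nat_lit 2) (nat_lit 5) (nat_lit 0x154005) (nat_lit 0x10001000100010000000000000000000000010001))) (.non (nat_lit 1) (nat_lit 5) (nat_lit 0x155000) (nat_lit 0x10001000100020001000000000000000000000000))) (.star (nat_lit 0xa) (nat_lit 1) (nat_lit 6))) (.star (nat_lit 0xa) (nat_lit 1) (nat_lit 5))) (.non (nat_lit 1) (nat_lit 6) (nat_lit 0x100540) (nat_lit 0x10000000000000000000200020001000000000000))) (.non (nat_lit 1) (nat_lit 6) (nat_lit 0x100550) (nat_lit 0x10000000000000000000200020002000100000000))) (.non (nat_lit 1) (nat_lit 6) (nat_lit 0x100550) (nat_lit 0x10000000000000000000300040003000200000000))) (.non (nat_lit 2) (nat_lit 5) (nat_lit 0x100005) (nat_lit 0x10000000000000000000000000000000000010001))))))) (.non (nat_lit 1) (nat_lit 5) (nat_lit 0x54000) (nat_lit 0x1000100010000000000000000000000000000))))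

noncomputable def t761_9 : Tr := (.ex (nat_lit 9) (.split (nat_lit 9) (nat_lit 0) (.pd (.cons (nat_lit 0) (nat_lit 4) (nat_lit 0) (nat_lit 0x6765502110) (nat_lit 0xf423ff423fb71ae65b9761a7900000f423fb71ae1f15600000) (.cons (nat_lit 1) (nat_lit 4) (nat_lit 0) (nat_lit 0x769602200) (nat_lit 0x61a79f423fb71ae65b97f423f00000f423fb71ae000005b8cc) (.cons (nat_lit 2) (nat_lit 4) (nat_lit 0) (nat_lit 0x769603000) (nat_lit 0x61a79f423fb71ae65b97f423f00000f423f00000f423f1e83b) (.cons (nat_lit 3) (nat_lit 6) (nat_lit 0) (nat_lit 0x770440100) (nat_lit 0xf423ff423fb71ae00000f423f5459100000f423f5459106711) .nil)))) (.leaf (.cons (nat_lit 0x554) (nat_lit 0x100010001000100010000) (.cons (nat_lit 0x1540) (nat_lit 0x1000200020001000000000000) (.cons (nat_lit 0x41015) (nat_lit 0x2000000000001000000000000000300040003) .nil))) (.cons (nat_lit 0x11110) (nat_lit 0x100001) (nat_lit 0x10) (nat_lit 0x32100) .nil))) (.non (nat_lit 2) (nat_lit 5) (nat_lit 0x8a005) (nat_lit 0x3000000010002000000000000000000020004))) (.split (nat_lit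 0xa) (nat_lit 0) (.split (nat_lit 0xa) (nat_lit 1) (.split (nat_lit 0xa) (nat_lit 2) (.split (nat_lit 0xa) (nat_lit 3) (.split (nat_lit 0xa) (nat_lit 4) (.split (nat_lit 0xa) (nat_lit 5) (.split (nat_lit 0xa) (nat_lit 6) (.split (nat_lit 0xa) (nat_lit 7) (.split (nat_lit 0xa) (nat_lit 8) (.split (nat_lit 0xa) (nat_lit 9) (.split (nat_lit 9) (nat_lit 0) (.par (nat_lit 0x145401) (nat_lit 0x10002000000010002000100000000000000000001)) (.non (nat_lit 1) (nat_lit 5) (nat_lit 0x282001) (nat_lit 0x10002000000000001000000000000000000000002))) (.non (nat_lit 1) (nat_lit 5) (nat_lit 0x241001) (nat_lit 0x10002000000000001000000000000000000000001))) (.non (nat_lit 1) (nat_lit 5) (nat_lit 0x155000) (nat_lit 0x10001000100010001000000000000000000000000))) (.non (nat_lit 1) (nat_lit 5) (nat_lit 0x145000) (nat_lit 0x10001000000010001000000000000000000000000))) (.non (nat_lit 1) (nat_lit 5) (nat_lit 0x141000) (nat_lit 0x10001000000000001000000000000000000000000))) (.non (nat_lit 1) (nat_lit 6) (nat_lit 0x100540) (nat_lit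 0x10000000000000000000200020001000000000000))) (.non (nat_lit 1) (nat_lit 5) (nat_lit 0x155141) (nat_lit 0x30004000100020003000000020001000000000002))) (.non (nat_lit 1) (nat_lit 5) (nat_lit 0x155141) (nat_lit 0x30004000100020003000000010002000000000002))) (.non (nat_lit 1) (nat_lit 5) (nat_lit 0x155051) (nat_lit 0x30004000100020003000000000001000200000002))) (.non (nat_lit 2) (nat_lit 5) (nat_lit 0x140005) (nat_lit 0x10001000000000000000000000000000000010001))) (.non (nat_lit 1) (nat_lit 5) (nat_lit 0x140001) (nat_lit 0x10001000000000000000000000000000000000001))))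

noncomputable def t761_10 : Tr := (.ex (nat_lit 7) (.ex (nat_lit 8) t761_9 (.split (nat_lit 0xa) (nat_lit 0) (.split (nat_lit 0xa) (nat_lit 1) (.split (nat_lit 0xa) (nat_lit 2) (.split (nat_lit 0xa) (nat_lit 3) (.split (nat_lit 0xa) (nat_lit 4) (.split (nat_lit 0xa) (nat_lit 5) (.split (nat_lit 0xa) (nat_lit 6) (.split (nat_lit 0xa) (nat_lit 7) (.split (nat_lit 0xa) (nat_lit 9) (.split (nat_lit 0xa) (nat_lit 8) (.split (nat_lit 9) (nat_lit 0) (.par (nat_lit 0x155405) (nat_lit 0x10003000200030004000200000000000000010002)) (.non (nat_lit 2) (nat_lit 5) (nat_lit 0x8a005) (nat_lit 0x3000000010002000000000000000000020004))) (.split (nat_lit 0xa) (nat_lit 8) (.split (nat_lit 9) (nat_lit 0) (.sup (nat_lit 0x70002000a000b000b000900050000000000000000) (nat_lit 0x5001000100007)) (.non (nat_lit 1) (nat_lit 5) (nat_lit 0x1aa001) (nat_lit 0x10001000100010001000000000000000000000001))) (.non (nat_lit 1) (nat_lit 5) (nat_lit 0x155000) (nat_lit 0x30001000400030002000000000000000000000000)))) (.non (nat_lit 1) (nat_lit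 5) (nat_lit 0x155000) (nat_lit 0x10001000100010001000000000000000000000000))) (.non (nat_lit 1) (nat_lit 5) (nat_lit 0x114000) (nat_lit 0x10000000100010000000000000000000000000000))) (.non (nat_lit 1) (nat_lit 5) (nat_lit 0x115000) (nat_lit 0x10000000100010001000000000000000000000000))) (.non (nat_lit 1) (nat_lit 6) (nat_lit 0x114500) (nat_lit 0x30000000200010000000400030000000000000000))) (.non (nat_lit 1) (nat_lit 6) (nat_lit 0x114500) (nat_lit 0x30000000200010000000300040000000000000000))) (.non (nat_lit 1) (nat_lit 6) (nat_lit 0x110540) (nat_lit 0x20000000100000000000300040003000000000000))) (.non (nat_lit 1) (nat_lit 6) (nat_lit 0x100550) (nat_lit 0x10000000000000000000300040003000200000000))) (.non (nat_lit 2) (nat_lit 5) (nat_lit 0x155005) (nat_lit 0x10001000100010001000000000000000000010001))) (.non (nat_lit 1) (nat_lit 5) (nat_lit 0x155001) (nat_lit 0x10001000100010001000000000000000000000001)))) (.split (nat_lit 0xa) (nat_lit 0) (.split (nat_lit 0xa) (nat_lit 1) (.split (nat_lit 0xa) (nat_lit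 2) (.split (nat_lit 0xa) (nat_lit 3) (.split (nat_lit 0xa) (nat_lit 4) (.split (nat_lit 0xa) (nat_lit 5) (.split (nat_lit 0xa) (nat_lit 6) (.split (nat_lit 0xa) (nat_lit 8) (.split (nat_lit 0xa) (nat_lit 9) (.split (nat_lit 0xa) (nat_lit 7) (.split (nat_lit 9) (nat_lit 0) (.sup (nat_lit 0x500020005000b000b000900050000000000000000) (nat_lit 0x5001000100007)) (.non (nat_lit 1) (nat_lit 5) (nat_lit 0x2aa001) (nat_lit 0x10002000100020002000000000000000000000002))) (.non (nat_lit 1) (nat_lit 5) (nat_lit 0x215000) (nat_lit 0x10000000100020001000000000000000000000000))) (.non (nat_lit 1) (nat_lit 5) (nat_lit 0x145000) (nat_lit 0x10001000000010001000000000000000000000000))) (.non (nat_lit 1) (nat_lit 5) (nat_lit 0x114000) (nat_lit 0x10000000100010000000000000000000000000000))) (.non (nat_lit 1) (nat_lit 5) (nat_lit 0x105000) (nat_lit 0x10000000000010001000000000000000000000000))) (.non (nat_lit 1) (nat_lit 6) (nat_lit 0x114500) (nat_lit 0x30000000100020000000400030000000000000000))) (.non (nat_lit 1) (nat_lit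 5) (nat_lit 0x155141) (nat_lit 0x30002000200040003000000020001000000000001))) (.non (nat_lit 1) (nat_lit 5) (nat_lit 0x115150) (nat_lit 0x20000000100020001000000010002000100000000))) (.non (nat_lit 1) (nat_lit 5) (nat_lit 0x155051) (nat_lit 0x30002000200040003000000000001000200000001))) (.non (nat_lit 2) (nat_lit 5) (nat_lit 0x145005) (nat_lit 0x10001000000010001000000000000000000010001))) (.non (nat_lit 1) (nat_lit 5) (nat_lit 0x145001) (nat_lit 0x10001000000010001000000000000000000000001))))

noncomputable def t761_11 : Tr := (.ex (nat_lit 1) (.split (nat_lit 4) (nat_lit 3) (.split (nat_lit 9) (nat_lit 6) (.split (nat_lit 8) (nat_lit 7) (.pd (.cons (nat_lit 0) (nat_lit 5) (nat_lit 0) (nat_lit 0x6766032110) (nat_lit 0xf423ff423fb71ae65b9700000f423fb71aea2c280473700000) .nil) (.ex (nat_lit 6) t761_10 (.split (nat_lit 0xa) (nat_lit 0) (.split (nat_lit 0xa) (nat_lit 1) (.split (nat_lit 0xa) (nat_lit 2) (.split (nat_lit 0xa) (nat_lit 3) (.split (nat_lit 0xa) (nat_lit 4) (.split (nat_lit 0xa) (nat_lit 5)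 (.split (nat_lit 0xa) (nat_lit 7) (.split (nat_lit 0xa) (nat_lit 8) (.split (nat_lit 0xa) (nat_lit 9) (.sup (nat_lit 0x20009000a0005) (nat_lit 0x5000000000005000a000a00060000000000000000)) (.non (nat_lit 1) (nat_lit 5) (nat_lit 0x141000) (nat_lit 0x10001000000000001000000000000000000000000))) (.non (nat_lit 1) (nat_lit 5) (nat_lit 0x115000) (nat_lit 0x10000000100010001000000000000000000000000))) (.non (nat_lit 1) (nat_lit 5) (nat_lit 0x105000) (nat_lit 0x10000000000010001000000000000000000000000))) (.non (nat_lit 1) (nat_lit 6) (nat_lit 0x100540) (nat_lit 0x10000000000000000000200020001000000000000))) (.non (nat_lit 1) (nat_lit 5) (nat_lit 0x155101) (nat_lit 0x20002000100020003000000010000000000000001))) (.non (nat_lit 1) (nat_lit 5) (nat_lit 0x145150) (nat_lit 0x20001000000010002000000010002000100000000))) (.star (nat_lit 0xa) (nat_lit 2) (nat_lit 6))) (.star (nat_lit 0xa) (nat_lit 1) (nat_lit 6))) (.non (nat_lit 1) (nat_lit 5) (nat_lit 0x141001) (nat_lit 0x10001000000000001000000000000000000000001)))))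 (.sup (nat_lit 0x20009000a0005) (nat_lit 0x7000a000a000a00060000000000000000))) (.non (nat_lit 1) (nat_lit 5) (nat_lit 0x6a001) (nat_lit 0x4000100020003000000000000000000000002))) (.non (nat_lit 1) (nat_lit 6) (nat_lit 0x540) (nat_lit 0x100010001000000000000))) (.split (nat_lit 0xa) (nat_lit 0) (.split (nat_lit 0xa) (nat_lit 2) (.split (nat_lit 0xa) (nat_lit 3) (.split (nat_lit 0xa) (nat_lit 4) (.split (nat_lit 0xa) (nat_lit 5) (.split (nat_lit 0xa) (nat_lit 6) (.split (nat_lit 0xa) (nat_lit 7) (.split (nat_lit 0xa) (nat_lit 8) (.split (nat_lit 0xa) (nat_lit 9) (.unj (nat_lit 0x100015) (nat_lit 0x10000000000000000000000000000000200020001) (nat_lit 0x15500) (nat_lit 0x100020003000400030000000000000000)) (.non (nat_lit 2) (nat_lit 5) (nat_lit 0x140005) (nat_lit 0x10001000000000000000000000000000000010001))) (.non (nat_lit 2) (nat_lit 5) (nat_lit 0x155005) (nat_lit 0x10001000100010001000000000000000000010001))) (.non (nat_lit 2) (nat_lit 5) (nat_lit 0x145005) (nat_lit 0x10001000000010001000000000000000000010001)))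 (.star (nat_lit 0xa) (nat_lit 1) (nat_lit 6))) (.star (nat_lit 0xa) (nat_lit 1) (nat_lit 5))) (.non (nat_lit 1) (nat_lit 6) (nat_lit 0x100540) (nat_lit 0x10000000000000000000200020001000000000000))) (.non (nat_lit 1) (nat_lit 6) (nat_lit 0x100550) (nat_lit 0x10000000000000000000200020002000100000000))) (.non (nat_lit 1) (nat_lit 6) (nat_lit 0x100550) (nat_lit 0x10000000000000000000300040003000200000000))) (.non (nat_lit 2) (nat_lit 5) (nat_lit 0x100005) (nat_lit 0x10000000000000000000000000000000000010001))))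

noncomputable def t761_12 : Tr := (.split (nat_lit 9) (nat_lit 2) (.split (nat_lit 9) (nat_lit 3) (.split (nat_lit 9) (nat_lit 4) (.split (nat_lit 9) (nat_lit 5) (.split (nat_lit 9) (nat_lit 6) t761_8 (.split (nat_lit 9) (nat_lit 7) (.split (nat_lit 9) (nat_lit 8) (.ex (nat_lit 0) t761_11 (.split (nat_lit 0xa) (nat_lit 1) (.split (nat_lit 0xa) (nat_lit 2) (.split (nat_lit 0xa) (nat_lit 3) (.split (nat_lit 0xa) (nat_lit 4) (.split (nat_lit 0xa) (nat_lit 5) (.split (nat_lit 0xa) (nat_lit 6) (.split (nat_lit 0xa) (nat_lit 7) (.split (nat_lit 0xa) (nat_lit 8) (.split (nat_lit 0xa) (nat_lit 9) (.split (nat_lit 0xa) (nat_lit 0) (.split (nat_lit 9) (nat_lit 0) (.split (nat_lit 9) (nat_lit 6) (.sup (nat_lit 0x7000100000000000000000000000000100014000e) (nat_lit 0x50009000e001400100000000000000000)) (.non (nat_lit 1) (nat_lit 5) (nat_lit 0x14a001) (nat_lit 0x10003000000010002000000000000000000000002))) (.non (nat_lit 1) (nat_lit 5) (nat_lit 0x18a001) (nat_lit 0x20003000000010002000000000000000000000004))) (.non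 (nat_lit 2) (nat_lit 5) (nat_lit 0x240005) (nat_lit 0x10001000000000000000000000000000000010002))) (.non (nat_lit 1) (nat_lit 5) (nat_lit 0x140001) (nat_lit 0x10001000000000000000000000000000000000001))) (.non (nat_lit 1) (nat_lit 5) (nat_lit 0x155001) (nat_lit 0x10001000100010001000000000000000000000001))) (.non (nat_lit 1) (nat_lit 5) (nat_lit 0x145001) (nat_lit 0x10001000000010001000000000000000000000001))) (.non (nat_lit 1) (nat_lit 5) (nat_lit 0x141001) (nat_lit 0x10001000000000001000000000000000000000001))) (.non (nat_lit 1) (nat_lit 6) (nat_lit 0x100540) (nat_lit 0x10000000000000000000200020001000000000000))) (.non (nat_lit 1) (nat_lit 6) (nat_lit 0x100540) (nat_lit 0x10000000000000000000200020001000000000000))) (.non (nat_lit 1) (nat_lit 6) (nat_lit 0x100550) (nat_lit 0x10000000000000000000200020002000100000000))) (.non (nat_lit 1) (nat_lit 6) (nat_lit 0x100550) (nat_lit 0x10000000000000000000300040003000200000000))) (.non (nat_lit 2) (nat_lit 5) (nat_lit 0x100005) (nat_lit 0x10000000000000000000000000000000000010001))))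 (.non (nat_lit 1) (nat_lit 5) (nat_lit 0x55000) (nat_lit 0x1000100010001000000000000000000000000))) (.non (nat_lit 1) (nat_lit 5) (nat_lit 0x45000) (nat_lit 0x1000000010001000000000000000000000000)))) (.non (nat_lit 1) (nat_lit 6) (nat_lit 0x40540) (nat_lit 0x1000000000000000200020001000000000000))) (.non (nat_lit 1) (nat_lit 6) (nat_lit 0x40540) (nat_lit 0x1000000000000000200020001000000000000))) (.non (nat_lit 1) (nat_lit 6) (nat_lit 0x40550) (nat_lit 0x1000000000000000200020002000100000000))) (.non (nat_lit 1) (nat_lit 6) (nat_lit 0x40550) (nat_lit 0x1000000000000000300040003000200000000)))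

noncomputable def t761_13 : Tr := (.split (nat_lit 9) (nat_lit 6) (.split (nat_lit 9) (nat_lit 7) (.ex (nat_lit 8) (.split (nat_lit 9) (nat_lit 8) (.pd (.cons (nat_lit 0) (nat_lit 4) (nat_lit 0) (nat_lit 0x8765502110) (nat_lit 0xf423fb71aea2c2898965927bd00000f423fb71ae1f15600000) (.cons (nat_lit 1) (nat_lit 4) (nat_lit 0) (nat_lit 0x8765502200) (nat_lit 0xf423fb71aea2c2898965927bd00000f423fb71ae00000f423f) (.cons (nat_lit 2) (nat_lit 4) (nat_lit 0) (nat_lit 0x8765503000) (nat_lit 0xf423fb71aea2c2898965927bd00000f423f00000f423fb71ae) (.cons (nat_lit 3) (nat_lit 4) (nat_lit 0) (nat_lit 0x8765500100) (nat_lit 0xf423fb71aea2c2898965927bd0000000000f423f54591437a2) .nil)))) (.leaf (.cons (nat_lit 0x1501) (nat_lit 0x1000200020000000000000001) (.cons (nat_lit 0x515) (nat_lit 0x100010000000100010001) .nil)) (.cons (nat_lit 0x10001) (nat_lit 0x100010) (nat_lit 0) (nat_lit 0x10000) (.cons (nat_lit 0x10011) (nat_lit 0x100100) (nat_lit 1) (nat_lit 0x20001) .nil)))) (.sup (nat_lit 0x8000b000b000b000b00070000000000000000)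 (nat_lit 0x80010000f0004))) (.split (nat_lit 0xa) (nat_lit 0) (.split (nat_lit 0xa) (nat_lit 1) (.split (nat_lit 0xa) (nat_lit 2) (.split (nat_lit 0xa) (nat_lit 3) (.split (nat_lit 0xa) (nat_lit 4) (.split (nat_lit 0xa) (nat_lit 5) (.split (nat_lit 0xa) (nat_lit 6) (.split (nat_lit 0xa) (nat_lit 7) (.split (nat_lit 0xa) (nat_lit 9) (.sup (nat_lit 0x50005000b000b000b000b00070000000000000000) (nat_lit 0x80010000f0004)) (.non (nat_lit 1) (nat_lit 5) (nat_lit 0x150000) (nat_lit 0x10001000100000000000000000000000000000000))) (.non (nat_lit 1) (nat_lit 5) (nat_lit 0x114000) (nat_lit 0x10000000100010000000000000000000000000000))) (.non (nat_lit 1) (nat_lit 5) (nat_lit 0x115000) (nat_lit 0x10000000100010001000000000000000000000000))) (.non (nat_lit 1) (nat_lit 6) (nat_lit 0x150500) (nat_lit 0x30001000200000000000400030000000000000000))) (.non (nat_lit 1) (nat_lit 6) (nat_lit 0x150500) (nat_lit 0x30001000200000000000300040000000000000000))) (.non (nat_lit 0) (nat_lit 5) (nat_lit 0x110054) (nat_lit 0x20000000100000000000000000003000400030000)))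 (.non (nat_lit 3) (nat_lit 5) (nat_lit 0x150014) (nat_lit 0x30001000200000000000000000000000400030000))) (.non (nat_lit 2) (nat_lit 6) (nat_lit 0x100505) (nat_lit 0x10000000000000000000300040000000000020003))) (.non (nat_lit 1) (nat_lit 6) (nat_lit 0x110501) (nat_lit 0x20000000100000000000300040000000000000003)))) (.non (nat_lit 1) (nat_lit 5) (nat_lit 0x54000) (nat_lit 0x1000100010000000000000000000000000000))) (.non (nat_lit 1) (nat_lit 5) (nat_lit 0x55000) (nat_lit 0x1000100010001000000000000000000000000)))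

noncomputable def t761_14 : Tr := (.ex (nat_lit 7) (.pd (.cons (nat_lit 0) (nat_lit 8) (nat_lit 0) (nat_lit 0x65442110) (nat_lit 0xf423fb71aea2c2804737f423fb71ae1f15600000) .nil) (.ex (nat_lit 8) (.pd (.cons (nat_lit 0) (nat_lit 4) (nat_lit 0) (nat_lit 0x765502110) (nat_lit 0xf423fb71aea2c289896500000f423fb71ae1f15600000) (.cons (nat_lit 1) (nat_lit 4) (nat_lit 0) (nat_lit 0x765502200) (nat_lit 0xf423fb71aea2c289896500000f423fb71ae00000f423f) (.cons (nat_lit 2) (nat_lit 4) (nat_lit 0) (nat_lit 0x765503000) (nat_lit 0xf423fb71aea2c289896500000f423f00000f423fb71ae) (.cons (nat_lit 3) (nat_lit 4) (nat_lit 0) (nat_lit 0x765500100) (nat_lit 0xf423fb71aea2c28989650000000000f423f54591437a2) .nil)))) (.leaf (.cons (nat_lit 0x1501) (nat_lit 0x1000200020000000000000001) (.cons (nat_lit 0x515) (nat_lit 0x100010000000100010001) .nil)) (.cons (nat_lit 0x10001) (nat_lit 0x100010) (nat_lit 0) (nat_lit 0x10000) (.cons (nat_lit 0x10011) (nat_lit 0x100100) (nat_lit 1) (nat_lit 0x20001) .nil)))) (.split (nat_lit 9) (nat_lit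 0) (.split (nat_lit 9) (nat_lit 1) (.split (nat_lit 9) (nat_lit 2) (.split (nat_lit 9) (nat_lit 3) (.split (nat_lit 9) (nat_lit 4) (.split (nat_lit 9) (nat_lit 5) t761_13 (.non (nat_lit 1) (nat_lit 6) (nat_lit 0x54500) (nat_lit 0x3000200010000000400030000000000000000))) (.non (nat_lit 1) (nat_lit 6) (nat_lit 0x54500) (nat_lit 0x3000200010000000300040000000000000000))) (.non (nat_lit 0) (nat_lit 5) (nat_lit 0x50054) (nat_lit 0x2000100000000000000000003000400030000))) (.non (nat_lit 3) (nat_lit 5) (nat_lit 0x54014) (nat_lit 0x3000200010000000000000000000400030000))) (.non (nat_lit 2) (nat_lit 6) (nat_lit 0x40505) (nat_lit 0x1000000000000000300040000000000020003))) (.non (nat_lit 1) (nat_lit 6) (nat_lit 0x50501) (nat_lit 0x2000100000000000300040000000000000003))))) (.split (nat_lit 9) (nat_lit 0) (.split (nat_lit 9) (nat_lit 1) (.split (nat_lit 9) (nat_lit 2) (.split (nat_lit 9) (nat_lit 3) (.split (nat_lit 9) (nat_lit 4) (.split (nat_lit 9) (nat_lit 5) (.split (nat_lit 9) (nat_lit 6) (.split (nat_lit 9)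 (nat_lit 8) (.sup (nat_lit 0x50005000b000b000b00070000000000000000) (nat_lit 0x80010000f0004)) (.non (nat_lit 1) (nat_lit 5) (nat_lit 0x54000) (nat_lit 0x1000100010000000000000000000000000000))) (.non (nat_lit 1) (nat_lit 5) (nat_lit 0x45000) (nat_lit 0x1000000010001000000000000000000000000))) (.non (nat_lit 1) (nat_lit 6) (nat_lit 0x54500) (nat_lit 0x3000100020000000400030000000000000000))) (.non (nat_lit 1) (nat_lit 6) (nat_lit 0x54500) (nat_lit 0x3000100020000000300040000000000000000))) (.non (nat_lit 0) (nat_lit 5) (nat_lit 0x44054) (nat_lit 0x2000000010000000000000003000400030000))) (.non (nat_lit 3) (nat_lit 5) (nat_lit 0x54014) (nat_lit 0x3000100020000000000000000000400030000))) (.non (nat_lit 2) (nat_lit 6) (nat_lit 0x40505) (nat_lit 0x1000000000000000300040000000000020003))) (.non (nat_lit 1) (nat_lit 6) (nat_lit 0x44501) (nat_lit 0x2000000010000000300040000000000000003))))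

noncomputable def t761_15 : Tr := (.ex (nat_lit 8) (.split (nat_lit 9) (nat_lit 3) (.split (nat_lit 9) (nat_lit 8) (.pd (.cons (nat_lit 1) (nat_lit 4) (nat_lit 0) (nat_lit 0x3987602200) (nat_lit 0x927bd98965a2c28b71aef423f000008e6a28b82100000f423f) (.cons (nat_lit 2) (nat_lit 4) (nat_lit 0) (nat_lit 0x3987603000) (nat_lit 0x927bd98965a2c28b71aef423f000008e6a200000f423fb71ae) (.cons (nat_lit 3) (nat_lit 4) (nat_lit 0) (nat_lit 0x8765500100) (nat_lit 0xf423fb71aea2c2898965927bd0000000000f423f54591437a2) .nil))) (.ex (nat_lit 9) (.pd (.cons (nat_lit 0) (nat_lit 8) (nat_lit 0) (nat_lit 0x3065442110) (nat_lit 0xf423f00000f423fb71aea2c2804737b71aea2c280473700000) .nil) (.leaf (.cons (nat_lit 0x50054) (nat_lit 0x2000100000000000000000003000400030000) (.cons (nat_lit 0x1501) (nat_lit 0x1000200020000000000000001) (.cons (nat_lit 0x515) (nat_lit 0x100010000000100010001) .nil))) (.cons (nat_lit 0x110011) (nat_lit 0x1000100) (nat_lit 0x10) (nat_lit 0x10032) .nil))) (.split (nat_lit 0xa) (nat_lit 0) (.split (nat_lit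 0xa) (nat_lit 1) (.split (nat_lit 0xa) (nat_lit 2) (.split (nat_lit 0xa) (nat_lit 3) (.split (nat_lit 0xa) (nat_lit 4) (.split (nat_lit 0xa) (nat_lit 5) (.split (nat_lit 0xa) (nat_lit 6) (.split (nat_lit 0xa) (nat_lit 7) (.split (nat_lit 0xa) (nat_lit 8) (.sup (nat_lit 0x20005000800070000000000000001) (nat_lit 0x20005000200000000000000000006000700050000)) (.non (nat_lit 1) (nat_lit 5) (nat_lit 0x150000) (nat_lit 0x10001000100000000000000000000000000000000))) (.non (nat_lit 1) (nat_lit 5) (nat_lit 0x154000) (nat_lit 0x10001000100010000000000000000000000000000))) (.non (nat_lit 1) (nat_lit 5) (nat_lit 0x155000) (nat_lit 0x10001000100010001000000000000000000000000))) (.non (nat_lit 1) (nat_lit 6) (nat_lit 0x150500) (nat_lit 0x30002000100000000000400030000000000000000))) (.non (nat_lit 1) (nat_lit 5) (nat_lit 0x154150) (nat_lit 0x20003000200010000000000010002000100000000))) (.non (nat_lit 1) (nat_lit 5) (nat_lit 0x140040) (nat_lit 0x10001000000000000000000000001000000000000))) (.non (nat_lit 1) (nat_lit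 5) (nat_lit 0x140050) (nat_lit 0x10001000000000000000000000001000100000000))) (.non (nat_lit 2) (nat_lit 5) (nat_lit 0x155045) (nat_lit 0x30004000300020001000000000002000000020001))) (.non (nat_lit 1) (nat_lit 5) (nat_lit 0x155141) (nat_lit 0x30004000300020001000000010002000000000002))))) (.non (nat_lit 1) (nat_lit 5) (nat_lit 0x6a040) (nat_lit 0x4000300020001000000000002000000000000))) (.non (nat_lit 1) (nat_lit 5) (nat_lit 0xa8050) (nat_lit 0x3000200010000000000000004000200000000))) (.split (nat_lit 0xa) (nat_lit 0) (.split (nat_lit 0xa) (nat_lit 1) (.split (nat_lit 0xa) (nat_lit 2) (.split (nat_lit 0xa) (nat_lit 3) (.split (nat_lit 0xa) (nat_lit 4) (.split (nat_lit 0xa) (nat_lit 5) (.split (nat_lit 0xa) (nat_lit 6) (.split (nat_lit 0xa) (nat_lit 7) (.split (nat_lit 0xa) (nat_lit 9) (.split (nat_lit 0xa) (nat_lit 8) (.split (nat_lit 9) (nat_lit 3) (.split (nat_lit 9) (nat_lit 8) (.par (nat_lit 0x155450) (nat_lit 0x20003000400030002000100000002000100000000)) (.non (nat_lit 1) (nat_lit 5) (nat_lit 0x194000)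 (nat_lit 0x10001000200010000000000000000000000000000))) (.non (nat_lit 1) (nat_lit 5) (nat_lit 0x2a8040) (nat_lit 0x10002000200010000000000000002000000000000))) (.non (nat_lit 1) (nat_lit 5) (nat_lit 0x254000) (nat_lit 0x10001000200010000000000000000000000000000))) (.non (nat_lit 1) (nat_lit 5) (nat_lit 0x150000) (nat_lit 0x10001000100000000000000000000000000000000))) (.non (nat_lit 1) (nat_lit 5) (nat_lit 0x114000) (nat_lit 0x10000000100010000000000000000000000000000))) (.non (nat_lit 1) (nat_lit 5) (nat_lit 0x115000) (nat_lit 0x10000000100010001000000000000000000000000))) (.non (nat_lit 1) (nat_lit 6) (nat_lit 0x150500) (nat_lit 0x30001000200000000000400030000000000000000))) (.non (nat_lit 1) (nat_lit 5) (nat_lit 0x155140) (nat_lit 0x20002000300020001000000010001000000000000))) (.non (nat_lit 1) (nat_lit 5) (nat_lit 0x150040) (nat_lit 0x10001000100000000000000000001000000000000))) (.non (nat_lit 1) (nat_lit 5) (nat_lit 0x150050) (nat_lit 0x10001000100000000000000000001000100000000))) (.non (nat_lit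 2) (nat_lit 5) (nat_lit 0x155044) (nat_lit 0x20002000300020001000000000001000000010000))) (.non (nat_lit 1) (nat_lit 5) (nat_lit 0x155041) (nat_lit 0x20002000300020001000000000001000000000001))))

noncomputable def t761_16 : Tr := (.ex (nat_lit 6) (.ex (nat_lit 7) t761_15 (.split (nat_lit 0xa) (nat_lit 0) (.split (nat_lit 0xa) (nat_lit 1) (.split (nat_lit 0xa) (nat_lit 2) (.split (nat_lit 0xa) (nat_lit 3) (.split (nat_lit 0xa) (nat_lit 4) (.split (nat_lit 0xa) (nat_lit 5) (.split (nat_lit 0xa) (nat_lit 6) (.split (nat_lit 0xa) (nat_lit 8) (.split (nat_lit 0xa) (nat_lit 9) (.split (nat_lit 0xa) (nat_lit 7) (.split (nat_lit 9) (nat_lit 3) (.split (nat_lit 9) (nat_lit 8) (.sup (nat_lit 0x20000000200050006000700050000000000000000) (nat_lit 0x2000000000000000000000005000800070001)) (.non (nat_lit 1) (nat_lit 5) (nat_lit 0x195000) (nat_lit 0x10001000200020001000000000000000000000000))) (.non (nat_lit 1) (nat_lit 5) (nat_lit 0x2aa040) (nat_lit 0x10002000200020001000000000002000000000000))) (.non (nat_lit 1)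 (nat_lit 5) (nat_lit 0x215000) (nat_lit 0x10000000100020001000000000000000000000000))) (.non (nat_lit 1) (nat_lit 5) (nat_lit 0x154000) (nat_lit 0x10001000100010000000000000000000000000000))) (.non (nat_lit 1) (nat_lit 5) (nat_lit 0x114000) (nat_lit 0x10000000100010000000000000000000000000000))) (.non (nat_lit 1) (nat_lit 5) (nat_lit 0x105000) (nat_lit 0x10000000000010001000000000000000000000000))) (.non (nat_lit 1) (nat_lit 6) (nat_lit 0x114500) (nat_lit 0x30000000100020000000400030000000000000000))) (.non (nat_lit 1) (nat_lit 5) (nat_lit 0x155141) (nat_lit 0x30002000300040002000000020001000000000001))) (.non (nat_lit 1) (nat_lit 5) (nat_lit 0x154040) (nat_lit 0x10001000100010000000000000001000000000000))) (.non (nat_lit 1) (nat_lit 5) (nat_lit 0x154050) (nat_lit 0x10001000100010000000000000001000100000000))) (.non (nat_lit 2) (nat_lit 5) (nat_lit 0x155045) (nat_lit 0x30002000300040002000000000001000000020001))) (.non (nat_lit 1) (nat_lit 5) (nat_lit 0x155141) (nat_lit 0x30002000300040002000000010001000000000002))))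 (.split (nat_lit 0xa) (nat_lit 0) (.split (nat_lit 0xa) (nat_lit 1) (.split (nat_lit 0xa) (nat_lit 2) (.split (nat_lit 0xa) (nat_lit 3) (.split (nat_lit 0xa) (nat_lit 4) (.split (nat_lit 0xa) (nat_lit 5) (.split (nat_lit 0xa) (nat_lit 7) (.split (nat_lit 0xa) (nat_lit 8) (.split (nat_lit 0xa) (nat_lit 9) (.sup (nat_lit 0x5000a00090002) (nat_lit 0x5000000000005000a000a00060000000000000000)) (.non (nat_lit 1) (nat_lit 5) (nat_lit 0x155000) (nat_lit 0x10001000100010001000000000000000000000000))) (.non (nat_lit 1) (nat_lit 5) (nat_lit 0x115000) (nat_lit 0x10000000100010001000000000000000000000000))) (.non (nat_lit 1) (nat_lit 5) (nat_lit 0x105000) (nat_lit 0x10000000000010001000000000000000000000000))) (.non (nat_lit 1) (nat_lit 6) (nat_lit 0x100501) (nat_lit 0x10000000000000000000200020000000000000001))) (.non (nat_lit 1) (nat_lit 6) (nat_lit 0x100501) (nat_lit 0x10000000000000000000200020000000000000001))) (.non (nat_lit 1) (nat_lit 5) (nat_lit 0x155040) (nat_lit 0x10001000100010001000000000001000000000000)))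 (.star (nat_lit 0xa) (nat_lit 2) (nat_lit 6))) (.star (nat_lit 0xa) (nat_lit 1) (nat_lit 6))) (.non (nat_lit 2) (nat_lit 6) (nat_lit 0x100505) (nat_lit 0x10000000000000000000200020000000000010002))))

noncomputable def t761_17 : Tr := (.pd (.cons (nat_lit 0) (nat_lit 7) (nat_lit 0) (nat_lit 0x3805442110) (nat_lit 0xf423ff423f00000f423fb71ae1f156b71aea2c280473700000) .nil) (.ex (nat_lit 8) (.split (nat_lit 9) (nat_lit 7) (.pd (.cons (nat_lit 1) (nat_lit 4) (nat_lit 0) (nat_lit 0x3797602200) (nat_lit 0x61a79f423f65b97b71aef423f000005b8cc515fe00000f423f) (.cons (nat_lit 2) (nat_lit 4) (nat_lit 0) (nat_lit 0x3797603000) (nat_lit 0x61a79f423f65b97b71aef423f000005b8cc00000f423fb71ae) (.cons (nat_lit 3) (nat_lit 4) (nat_lit 0) (nat_lit 0x7765500100) (nat_lit 0xf423ff423f7a11d7a11b7a1190000000000f423f54591437a2) .nil))) (.leaf (.cons (nat_lit 0x44054) (nat_lit 0x2000000010000000000000003000400030000) (.cons (nat_lit 0x1501) (nat_lit 0x1000200020000000000000001) (.cons (nat_lit 0x515) (nat_lit 0x100010000000100010001)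 .nil))) (.cons (nat_lit 0x110011) (nat_lit 0x1000100) (nat_lit 0x10) (nat_lit 0x10032) .nil))) (.non (nat_lit 1) (nat_lit 5) (nat_lit 0x95000) (nat_lit 0x1000100020001000000000000000000000000))) (.split (nat_lit 0xa) (nat_lit 0) (.split (nat_lit 0xa) (nat_lit 1) (.split (nat_lit 0xa) (nat_lit 2) (.split (nat_lit 0xa) (nat_lit 3) (.split (nat_lit 0xa) (nat_lit 4) (.split (nat_lit 0xa) (nat_lit 5) (.split (nat_lit 0xa) (nat_lit 6) (.split (nat_lit 0xa) (nat_lit 7) (.split (nat_lit 0xa) (nat_lit 9) (.split (nat_lit 0xa) (nat_lit 8) (.split (nat_lit 9) (nat_lit 7) (.par (nat_lit 0x155440) (nat_lit 0x10002000200030002000100000001000000000000)) (.non (nat_lit 1) (nat_lit 5) (nat_lit 0x95000) (nat_lit 0x1000100020001000000000000000000000000))) (.non (nat_lit 1) (nat_lit 5) (nat_lit 0x255000) (nat_lit 0x10001000200020001000000000000000000000000))) (.non (nat_lit 1) (nat_lit 5) (nat_lit 0x154000) (nat_lit 0x10001000100010000000000000000000000000000))) (.non (nat_lit 1) (nat_lit 5) (nat_lit 0x114000) (nat_lit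 0x10000000100010000000000000000000000000000))) (.non (nat_lit 1) (nat_lit 5) (nat_lit 0x115000) (nat_lit 0x10000000100010001000000000000000000000000))) (.non (nat_lit 1) (nat_lit 6) (nat_lit 0x114500) (nat_lit 0x30000000200010000000400030000000000000000))) (.non (nat_lit 1) (nat_lit 5) (nat_lit 0x155150) (nat_lit 0x20003000300040002000000010002000100000000))) (.non (nat_lit 1) (nat_lit 5) (nat_lit 0x154040) (nat_lit 0x10001000100010000000000000001000000000000))) (.non (nat_lit 1) (nat_lit 5) (nat_lit 0x154050) (nat_lit 0x10001000100010000000000000001000100000000))) (.non (nat_lit 2) (nat_lit 5) (nat_lit 0x155145) (nat_lit 0x40004000500060003000000010002000000030002))) (.non (nat_lit 1) (nat_lit 5) (nat_lit 0x155051) (nat_lit 0x20003000300040002000000000002000100000001)))))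

noncomputable def t761_18 : Tr := (.split (nat_lit 9) (nat_lit 7) (.split (nat_lit 9) (nat_lit 8) (.sup (nat_lit 0x40007000b000f000c0000000000000000) (nat_lit 0x500000000000000000000000b0010000d0001)) (.ex (nat_lit 3) t761_16 (.split (nat_lit 0xa) (nat_lit 0) (.split (nat_lit 0xa) (nat_lit 1) (.split (nat_lit 0xa) (nat_lit 2) (.split (nat_lit 0xa) (nat_lit 4) (.split (nat_lit 0xa) (nat_lit 5) (.split (nat_lit 0xa) (nat_lit 6) (.split (nat_lit 0xa) (nat_lit 7) (.split (nat_lit 0xa) (nat_lit 8) (.split (nat_lit 0xa) (nat_lit 9) (.sup (nat_lit 0x5000a00090000000000000002) (nat_lit 0x5000500000000000000000000000a000a00060000)) (.non (nat_lit 1) (nat_lit 5) (nat_lit 0x140040) (nat_lit 0x10001000000000000000000000001000000000000))) (.non (nat_lit 1) (nat_lit 5) (nat_lit 0x150040) (nat_lit 0x10001000100000000000000000001000000000000))) (.non (nat_lit 1) (nat_lit 5) (nat_lit 0x154040) (nat_lit 0x10001000100010000000000000001000000000000))) (.non (nat_lit 1) (nat_lit 5) (nat_lit 0x155040) (nat_lit 0x10001000100010001000000000001000000000000)))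 (.non (nat_lit 1) (nat_lit 6) (nat_lit 0x140540) (nat_lit 0x30001000000000000000400030002000000000000))) (.non (nat_lit 1) (nat_lit 5) (nat_lit 0x154151) (nat_lit 0x30003000200010000000000020004000200000001))) (.non (nat_lit 1) (nat_lit 5) (nat_lit 0x100050) (nat_lit 0x10000000000000000000000000001000100000000))) (.non (nat_lit 2) (nat_lit 6) (nat_lit 0x100505) (nat_lit 0x10000000000000000000300040000000000020003))) (.non (nat_lit 1) (nat_lit 5) (nat_lit 0x154151) (nat_lit 0x30003000200010000000000010004000200000002))))) (.split (nat_lit 9) (nat_lit 8) (.st (nat_lit 3) (nat_lit 1) (nat_lit 5) (nat_lit 0x55050) (nat_lit 0x2000100020001000000000002000100000000) (nat_lit 1) (nat_lit 1) (.st (nat_lit 7) (nat_lit 1) (nat_lit 5) (nat_lit 0x55000) (nat_lit 0x1000100020001000000000000000000000000) (nat_lit 1) (nat_lit 1) (.st (nat_lit 9) (nat_lit 1) (nat_lit 5) (nat_lit 0x55040) (nat_lit 0x2000100020001000000000001000000000000) (nat_lit 1) (nat_lit 1) (.ex (nat_lit 6) (.split (nat_lit 9) (nat_lit 3) t761_17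 (.non (nat_lit 1) (nat_lit 5) (nat_lit 0xaa040) (nat_lit 0x2000100020001000000000002000000000000))) (.split (nat_lit 0xa) (nat_lit 0) (.split (nat_lit 0xa) (nat_lit 1) (.split (nat_lit 0xa) (nat_lit 2) (.split (nat_lit 0xa) (nat_lit 3) (.split (nat_lit 0xa) (nat_lit 4) (.split (nat_lit 0xa) (nat_lit 5) (.split (nat_lit 0xa) (nat_lit 7) (.split (nat_lit 0xa) (nat_lit 8) (.split (nat_lit 0xa) (nat_lit 9) (.sup (nat_lit 0x5000a00090002) (nat_lit 0x5000000000005000a000a00060000000000000000)) (.non (nat_lit 1) (nat_lit 5) (nat_lit 0x145000) (nat_lit 0x10001000000010001000000000000000000000000))) (.non (nat_lit 1) (nat_lit 5) (nat_lit 0x115000) (nat_lit 0x10000000100010001000000000000000000000000))) (.non (nat_lit 1) (nat_lit 5) (nat_lit 0x105000) (nat_lit 0x10000000000010001000000000000000000000000))) (.non (nat_lit 1) (nat_lit 6) (nat_lit 0x100501) (nat_lit 0x10000000000000000000200020000000000000001))) (.non (nat_lit 1) (nat_lit 5) (nat_lit 0x155150) (nat_lit 0x20003000200040003000000010002000100000000)))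 (.non (nat_lit 1) (nat_lit 5) (nat_lit 0x145040) (nat_lit 0x10001000000010001000000000001000000000000))) (.star (nat_lit 0xa) (nat_lit 2) (nat_lit 6))) (.star (nat_lit 0xa) (nat_lit 1) (nat_lit 6))) (.non (nat_lit 1) (nat_lit 5) (nat_lit 0x155051) (nat_lit 0x20003000200040003000000000002000100000001))))))) (.non (nat_lit 1) (nat_lit 5) (nat_lit 0x54000) (nat_lit 0x1000100010000000000000000000000000000))))

noncomputable def t761_19 : Tr := (.ex (nat_lit 9) (.split (nat_lit 9) (nat_lit 3) (.split (nat_lit 9) (nat_lit 6) (.pd (.cons (nat_lit 0) (nat_lit 6) (nat_lit 0) (nat_lit 0x3770442110) (nat_lit 0xf423ff423fb71ae00000f423f54591b71aea2c280473700000) (.cons (nat_lit 1) (nat_lit 4) (nat_lit 0) (nat_lit 0x3769602200) (nat_lit 0x61a79f423fb71ae65b97f423f000005b8cc515fe00000f423f) (.cons (nat_lit 2) (nat_lit 4) (nat_lit 0) (nat_lit 0x3769603000) (nat_lit 0x61a79f423fb71ae65b97f423f000005b8cc00000f423fb71ae) (.cons (nat_lit 3) (nat_lit 4) (nat_lit 0) (nat_lit 0x6765500100) (nat_lit 0xf423ff423fb71ae65b9761a790000000000f423f54591437a2)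 .nil)))) (.leaf (.cons (nat_lit 0x41054) (nat_lit 0x2000000000001000000000003000400030000) (.cons (nat_lit 0x41540) (nat_lit 0x2000000000003000400030001000000000000) (.cons (nat_lit 0x515) (nat_lit 0x100010000000100010001) .nil))) (.cons (nat_lit 0x1111101100) (nat_lit 0x10010) (nat_lit 0xd) (nat_lit 0x4320105600) (.cons (nat_lit 0x1111001100) (nat_lit 0x100010) (nat_lit 4) (nat_lit 0x2543001000) .nil)))) (.non (nat_lit 1) (nat_lit 5) (nat_lit 0x6a040) (nat_lit 0x4000100020003000000000002000000000000))) (.non (nat_lit 1) (nat_lit 5) (nat_lit 0x8a050) (nat_lit 0x3000000010002000000000004000200000000))) (.split (nat_lit 0xa) (nat_lit 0) (.split (nat_lit 0xa) (nat_lit 1) (.split (nat_lit 0xa) (nat_lit 2) (.split (nat_lit 0xa) (nat_lit 3) (.split (nat_lit 0xa) (nat_lit 4) (.split (nat_lit 0xa) (nat_lit 5) (.split (nat_lit 0xa) (nat_lit 6) (.split (nat_lit 0xa) (nat_lit 7) (.split (nat_lit 0xa) (nat_lit 8) (.split (nat_lit 0xa) (nat_lit 9) (.split (nat_lit 9) (nat_lit 3) (.split (nat_lit 9) (nat_lit 6) (.par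 (nat_lit 0x145440) (nat_lit 0x10002000000010002000100000001000000000000)) (.non (nat_lit 1) (nat_lit 5) (nat_lit 0x295000) (nat_lit 0x10002000100020003000000000000000000000000))) (.non (nat_lit 1) (nat_lit 5) (nat_lit 0x282040) (nat_lit 0x10002000000000001000000000002000000000000))) (.non (nat_lit 1) (nat_lit 5) (nat_lit 0x241040) (nat_lit 0x10002000000000001000000000001000000000000))) (.non (nat_lit 1) (nat_lit 5) (nat_lit 0x155000) (nat_lit 0x10001000100010001000000000000000000000000))) (.non (nat_lit 1) (nat_lit 5) (nat_lit 0x145000) (nat_lit 0x10001000000010001000000000000000000000000))) (.non (nat_lit 1) (nat_lit 5) (nat_lit 0x141000) (nat_lit 0x10001000000000001000000000000000000000000))) (.non (nat_lit 1) (nat_lit 6) (nat_lit 0x140540) (nat_lit 0x30002000000000000000400030001000000000000))) (.non (nat_lit 1) (nat_lit 5) (nat_lit 0x145150) (nat_lit 0x20003000000010002000000010002000100000000))) (.non (nat_lit 1) (nat_lit 5) (nat_lit 0x140040) (nat_lit 0x10001000000000000000000000001000000000000)))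 (.non (nat_lit 1) (nat_lit 5) (nat_lit 0x140050) (nat_lit 0x10001000000000000000000000001000100000000))) (.non (nat_lit 2) (nat_lit 5) (nat_lit 0x155045) (nat_lit 0x30004000100020003000000000002000000020001))) (.non (nat_lit 1) (nat_lit 5) (nat_lit 0x155141) (nat_lit 0x30004000100020003000000010002000000000002))))

noncomputable def t761_20 : Tr := (.ex (nat_lit 7) (.ex (nat_lit 8) t761_19 (.split (nat_lit 0xa) (nat_lit 0) (.split (nat_lit 0xa) (nat_lit 1) (.split (nat_lit 0xa) (nat_lit 2) (.split (nat_lit 0xa) (nat_lit 3) (.split (nat_lit 0xa) (nat_lit 4) (.split (nat_lit 0xa) (nat_lit 5) (.split (nat_lit 0xa) (nat_lit 6) (.split (nat_lit 0xa) (nat_lit 7) (.split (nat_lit 0xa) (nat_lit 9) (.split (nat_lit 0xa) (nat_lit 8) (.split (nat_lit 9) (nat_lit 3) (.split (nat_lit 9) (nat_lit 6) (.par (nat_lit 0x155450) (nat_lit 0x10003000200030004000200000002000100000000)) (.non (nat_lit 1) (nat_lit 5) (nat_lit 0x6a040) (nat_lit 0x4000100020003000000000002000000000000))) (.non (nat_lit 1) (nat_lit 5) (nat_lit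 0x8a050) (nat_lit 0x3000000010002000000000004000200000000))) (.split (nat_lit 0xa) (nat_lit 8) (.split (nat_lit 9) (nat_lit 3) (.sup (nat_lit 0x70002000a000b000b000900050000000000000000) (nat_lit 0x7001000100005)) (.non (nat_lit 1) (nat_lit 5) (nat_lit 0x1aa040) (nat_lit 0x10001000100010001000000000001000000000000))) (.non (nat_lit 1) (nat_lit 5) (nat_lit 0x155000) (nat_lit 0x30001000400030002000000000000000000000000)))) (.non (nat_lit 1) (nat_lit 5) (nat_lit 0x155000) (nat_lit 0x10001000100010001000000000000000000000000))) (.non (nat_lit 1) (nat_lit 5) (nat_lit 0x114000) (nat_lit 0x10000000100010000000000000000000000000000))) (.non (nat_lit 1) (nat_lit 5) (nat_lit 0x115000) (nat_lit 0x10000000100010001000000000000000000000000))) (.non (nat_lit 1) (nat_lit 6) (nat_lit 0x114500) (nat_lit 0x30000000200010000000400030000000000000000))) (.non (nat_lit 1) (nat_lit 6) (nat_lit 0x114500) (nat_lit 0x30000000200010000000300040000000000000000))) (.non (nat_lit 1) (nat_lit 5) (nat_lit 0x155040) (nat_lit 0x10001000100010001000000000001000000000000)))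 (.non (nat_lit 1) (nat_lit 5) (nat_lit 0x155050) (nat_lit 0x10001000100010001000000000001000100000000))) (.non (nat_lit 2) (nat_lit 6) (nat_lit 0x100505) (nat_lit 0x10000000000000000000300040000000000020003))) (.non (nat_lit 1) (nat_lit 6) (nat_lit 0x110501) (nat_lit 0x20000000100000000000300040000000000000003)))) (.split (nat_lit 0xa) (nat_lit 0) (.split (nat_lit 0xa) (nat_lit 1) (.split (nat_lit 0xa) (nat_lit 2) (.split (nat_lit 0xa) (nat_lit 3) (.split (nat_lit 0xa) (nat_lit 4) (.split (nat_lit 0xa) (nat_lit 5) (.split (nat_lit 0xa) (nat_lit 6) (.split (nat_lit 0xa) (nat_lit 8) (.split (nat_lit 0xa) (nat_lit 9) (.split (nat_lit 0xa) (nat_lit 7) (.split (nat_lit 9) (nat_lit 3) (.sup (nat_lit 0x500020005000b000b000900050000000000000000) (nat_lit 0x7001000100005)) (.non (nat_lit 1) (nat_lit 5) (nat_lit 0x2aa040) (nat_lit 0x10002000100020002000000000002000000000000))) (.non (nat_lit 1) (nat_lit 5) (nat_lit 0x215000) (nat_lit 0x10000000100020001000000000000000000000000))) (.non (nat_lit 1) (nat_lit 5)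 (nat_lit 0x145000) (nat_lit 0x10001000000010001000000000000000000000000))) (.non (nat_lit 1) (nat_lit 5) (nat_lit 0x114000) (nat_lit 0x10000000100010000000000000000000000000000))) (.non (nat_lit 1) (nat_lit 5) (nat_lit 0x105000) (nat_lit 0x10000000000010001000000000000000000000000))) (.non (nat_lit 1) (nat_lit 6) (nat_lit 0x114500) (nat_lit 0x30000000100020000000400030000000000000000))) (.non (nat_lit 1) (nat_lit 5) (nat_lit 0x155141) (nat_lit 0x30002000200040003000000020001000000000001))) (.non (nat_lit 1) (nat_lit 5) (nat_lit 0x145040) (nat_lit 0x10001000000010001000000000001000000000000))) (.non (nat_lit 1) (nat_lit 5) (nat_lit 0x145050) (nat_lit 0x10001000000010001000000000001000100000000))) (.non (nat_lit 2) (nat_lit 5) (nat_lit 0x155045) (nat_lit 0x30002000200040003000000000001000000020001))) (.non (nat_lit 1) (nat_lit 5) (nat_lit 0x155141) (nat_lit 0x30002000200040003000000010001000000000002))))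

noncomputable def t761_21 : Tr := (.ex (nat_lit 3) (.ex (nat_lit 6) t761_20 (.split (nat_lit 0xa) (nat_lit 0) (.split (nat_lit 0xa) (nat_lit 1) (.split (nat_lit 0xa) (nat_lit 2) (.split (nat_lit 0xa) (nat_lit 3) (.split (nat_lit 0xa) (nat_lit 4) (.split (nat_lit 0xa) (nat_lit 5) (.split (nat_lit 0xa) (nat_lit 7) (.split (nat_lit 0xa) (nat_lit 8) (.split (nat_lit 0xa) (nat_lit 9) (.sup (nat_lit 0x5000a00090002) (nat_lit 0x5000000000005000a000a00060000000000000000)) (.non (nat_lit 1) (nat_lit 5) (nat_lit 0x141000) (nat_lit 0x10001000000000001000000000000000000000000))) (.non (nat_lit 1) (nat_lit 5) (nat_lit 0x115000) (nat_lit 0x10000000100010001000000000000000000000000))) (.non (nat_lit 1) (nat_lit 5) (nat_lit 0x105000) (nat_lit 0x10000000000010001000000000000000000000000))) (.non (nat_lit 1) (nat_lit 6) (nat_lit 0x100501) (nat_lit 0x10000000000000000000200020000000000000001))) (.non (nat_lit 1) (nat_lit 5) (nat_lit 0x155140) (nat_lit 0x20002000100020003000000010001000000000000))) (.non (nat_lit 1) (nat_lit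 5) (nat_lit 0x141040) (nat_lit 0x10001000000000001000000000001000000000000))) (.star (nat_lit 0xa) (nat_lit 2) (nat_lit 6))) (.star (nat_lit 0xa) (nat_lit 1) (nat_lit 6))) (.non (nat_lit 1) (nat_lit 5) (nat_lit 0x155041) (nat_lit 0x20002000100020003000000000001000000000001)))) (.split (nat_lit 0xa) (nat_lit 0) (.split (nat_lit 0xa) (nat_lit 1) (.split (nat_lit 0xa) (nat_lit 2) (.split (nat_lit 0xa) (nat_lit 4) (.split (nat_lit 0xa) (nat_lit 5) (.split (nat_lit 0xa) (nat_lit 6) (.split (nat_lit 0xa) (nat_lit 7) (.split (nat_lit 0xa) (nat_lit 8) (.split (nat_lit 0xa) (nat_lit 9) (.sup (nat_lit 0x40007000b000f000b0000000000000000) (nat_lit 0x5000000000000000000000000000a0010000d0001)) (.non (nat_lit 1) (nat_lit 5) (nat_lit 0x140040) (nat_lit 0x10001000000000000000000000001000000000000))) (.non (nat_lit 1) (nat_lit 5) (nat_lit 0x155040) (nat_lit 0x10001000100010001000000000001000000000000))) (.non (nat_lit 1) (nat_lit 5) (nat_lit 0x145040) (nat_lit 0x10001000000010001000000000001000000000000))) (.non (nat_lit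 1) (nat_lit 5) (nat_lit 0x141040) (nat_lit 0x10001000000000001000000000001000000000000))) (.non (nat_lit 1) (nat_lit 6) (nat_lit 0x140540) (nat_lit 0x30001000000000000000400030002000000000000))) (.non (nat_lit 1) (nat_lit 5) (nat_lit 0x145151) (nat_lit 0x30003000000010002000000020004000200000001))) (.non (nat_lit 1) (nat_lit 5) (nat_lit 0x100050) (nat_lit 0x10000000000000000000000000001000100000000))) (.non (nat_lit 2) (nat_lit 6) (nat_lit 0x100505) (nat_lit 0x10000000000000000000300040000000000020003))) (.non (nat_lit 1) (nat_lit 5) (nat_lit 0x145151) (nat_lit 0x30003000000010002000000010004000200000002))))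

noncomputable def t761_22 : Tr := (.pd (.cons (nat_lit 3) (nat_lit 5) (nat_lit 0) (nat_lit 0x766000100) (nat_lit 0xf423fb71aea2c2800000f423f00000f423f5459106711) .nil) (.ex (nat_lit 3) (.pd (.cons (nat_lit 0) (nat_lit 5) (nat_lit 0) (nat_lit 0x766042110) (nat_lit 0xf423fb71aea2c2800000f423ff423fb71ae1f15600000) (.cons (nat_lit 0) (nat_lit 6) (nat_lit 0) (nat_lit 0x770442110) (nat_lit 0xf423fb71ae00000f423f54591f423fb71ae1f15600000) .nil)) (.ex (nat_lit 6) (.pd (.cons (nat_lit 0) (nat_lit 7) (nat_lit 0) (nat_lit 0x805442110) (nat_lit 0xf423f00000f423fb71ae1f156f423fb71ae1f15600000) .nil) t761_14) (.split (nat_lit 9) (nat_lit 0) (.split (nat_lit 9) (nat_lit 1) (.split (nat_lit 9) (nat_lit 2) (.split (nat_lit 9) (nat_lit 3) (.split (nat_lit 9) (nat_lit 4) (.split (nat_lit 9) (nat_lit 5) (.split (nat_lit 9) (nat_lit 7) (.split (nat_lit 9) (nat_lit 8) (.sup (nat_lit 0x5000a00090002) (nat_lit 0x500000005000a000a00060000000000000000)) (.non (nat_lit 1) (nat_lit 5) (nat_lit 0x55000) (nat_lit 0x1000100010001000000000000000000000000)))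 (.non (nat_lit 1) (nat_lit 5) (nat_lit 0x45000) (nat_lit 0x1000000010001000000000000000000000000))) (.non (nat_lit 1) (nat_lit 6) (nat_lit 0x40501) (nat_lit 0x1000000000000000200020000000000000001))) (.non (nat_lit 1) (nat_lit 6) (nat_lit 0x40501) (nat_lit 0x1000000000000000200020000000000000001))) (.non (nat_lit 0) (nat_lit 5) (nat_lit 0x41054) (nat_lit 0x2000000000001000000000003000400030000))) (.star (nat_lit 9) (nat_lit 2) (nat_lit 6))) (.star (nat_lit 9) (nat_lit 1) (nat_lit 6))) (.non (nat_lit 2) (nat_lit 6) (nat_lit 0x40505) (nat_lit 0x1000000000000000200020000000000010002))))) (.split (nat_lit 9) (nat_lit 0) (.split (nat_lit 9) (nat_lit 1) (.split (nat_lit 9) (nat_lit 2) (.split (nat_lit 9) (nat_lit 4) (.split (nat_lit 9) (nat_lit 5) (.split (nat_lit 9) (nat_lit 6) t761_18 (.split (nat_lit 9) (nat_lit 7) (.split (nat_lit 9) (nat_lit 8) t761_21 (.non (nat_lit 1) (nat_lit 5) (nat_lit 0x55000) (nat_lit 0x1000100010001000000000000000000000000))) (.non (nat_lit 1) (nat_lit 5) (nat_lit 0x45000) (nat_lit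 0x1000000010001000000000000000000000000)))) (.non (nat_lit 1) (nat_lit 6) (nat_lit 0x40550) (nat_lit 0x3000000000000000400030002000100000000))) (.non (nat_lit 1) (nat_lit 6) (nat_lit 0x40550) (nat_lit 0x3000000000000000300040002000100000000))) (.non (nat_lit 1) (nat_lit 5) (nat_lit 0x40050) (nat_lit 0x1000000000000000000000001000100000000))) (.non (nat_lit 2) (nat_lit 6) (nat_lit 0x40505) (nat_lit 0x1000000000000000300040000000000020003))) (.non (nat_lit 1) (nat_lit 6) (nat_lit 0x40541) (nat_lit 0x2000000000000000300040001000000000003)))))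

noncomputable def t761_23 : Tr := (.split (nat_lit 4) (nat_lit 0) (.split (nat_lit 4) (nat_lit 3) .uj (.st (nat_lit 2) (nat_lit 1) (nat_lit 6) (nat_lit 0x550) (nat_lit 0x300040003000200000000) (nat_lit 1) (nat_lit 1) (.st (nat_lit 3) (nat_lit 1) (nat_lit 6) (nat_lit 0x550) (nat_lit 0x200020002000100000000) (nat_lit 1) (nat_lit 1) (.st (nat_lit 4) (nat_lit 1) (nat_lit 6) (nat_lit 0x540) (nat_lit 0x200020001000000000000) (nat_lit 1) (nat_lit 1) (.st (nat_lit 5) (nat_lit 1) (nat_lit 6) (nat_lit 0x540) (nat_lit 0x200020001000000000000) (nat_lit 1) (nat_lit 1) (.ex (nat_lit 0) t761_3 (.split (nat_lit 9) (nat_lit 1) t761_12 (.non (nat_lit 2) (nat_lit 5) (nat_lit 0x40005) (nat_lit 0x1000000000000000000000000000000010001))))))))) (.split (nat_lit 4) (nat_lit 3) (.st (nat_lit 0) (nat_lit 2) (nat_lit 6) (nat_lit 0x505) (nat_lit 0x200020000000000010002) (nat_lit 1) (nat_lit 1) (.st (nat_lit 1) (nat_lit 2) (nat_lit 6) (nat_lit 0x505) (nat_lit 0x300040000000000020003) (nat_lit 1) (nat_lit 1) (.st (nat_lit 4) (nat_lit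 1) (nat_lit 6) (nat_lit 0x501) (nat_lit 0x200020000000000000001) (nat_lit 1) (nat_lit 1) (.st (nat_lit 5) (nat_lit 1) (nat_lit 6) (nat_lit 0x501) (nat_lit 0x200020000000000000001) (nat_lit 1) (nat_lit 1) (.ex (nat_lit 2) (.split (nat_lit 4) (nat_lit 0) (.split (nat_lit 8) (nat_lit 7) t761_22 (.sup (nat_lit 0x5000a00090002) (nat_lit 0x7000a000a000a00060000000000000000))) (.non (nat_lit 1) (nat_lit 6) (nat_lit 0x501) (nat_lit 0x100010000000000000001))) (.split (nat_lit 9) (nat_lit 0) (.split (nat_lit 9) (nat_lit 1) (.split (nat_lit 9) (nat_lit 3) (.split (nat_lit 9) (nat_lit 4) (.split (nat_lit 9) (nat_lit 5) (.split (nat_lit 9) (nat_lit 6) (.split (nat_lit 9) (nat_lit 7) (.split (nat_lit 9) (nat_lit 8) (.unj (nat_lit 0x40054) (nat_lit 0x1000000000000000000000001000200020000) (nat_lit 0x15500) (nat_lit 0x100020003000400030000000000000000)) (.sup (nat_lit 0x5000a00090000000000000002) (nat_lit 0x5000000000000000000000005000a00060000))) (.split (nat_lit 9) (nat_lit 8) (.sup (nat_lit 0x5000a00090000000000000002)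 (nat_lit 0x5000000000000000000000005000a00060000)) (.non (nat_lit 1) (nat_lit 5) (nat_lit 0x54000) (nat_lit 0x1000100010000000000000000000000000000)))) (.star (nat_lit 9) (nat_lit 2) (nat_lit 6))) (.star (nat_lit 9) (nat_lit 2) (nat_lit 5))) (.non (nat_lit 1) (nat_lit 6) (nat_lit 0x40550) (nat_lit 0x3000000000000000300040001000200000000))) (.non (nat_lit 1) (nat_lit 5) (nat_lit 0x40050) (nat_lit 0x1000000000000000000000001000100000000))) (.non (nat_lit 2) (nat_lit 6) (nat_lit 0x40505) (nat_lit 0x1000000000000000300040000000000020003))) (.non (nat_lit 1) (nat_lit 6) (nat_lit 0x40511) (nat_lit 0x2000000000000000300040000000100000003)))))))) (.non (nat_lit 1) (nat_lit 6) (nat_lit 0x541) (nat_lit 0x200020001000000000001))))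

noncomputable def t761_24 : Tr := (.pd (.cons (nat_lit 0) (nat_lit 7) (nat_lit 0) (nat_lit 0x805442110) (nat_lit 0xf423f00000f423fb71ae1f156f423fb71ae1f15600000) (.cons (nat_lit 1) (nat_lit 7) (nat_lit 0) (nat_lit 0x805442200) (nat_lit 0xf423f00000f423fb71ae1f156f423fb71ae00000f423f) (.cons (nat_lit 2) (nat_lit 7) (nat_lit 0) (nat_lit 0x805443000) (nat_lit 0xf423f00000f423fb71ae1f156f423f00000f423fb71ae) (.cons (nat_lit 3) (nat_lit 7) (nat_lit 0) (nat_lit 0x805440100) (nat_lit 0xf423f00000f423fb71ae1f15600000f423f54591437a2) (.cons (nat_lit 3) (nat_lit 8) (nat_lit 0) (nat_lit 0x65440100) (nat_lit 0xf423fb71aea2c280473700000f423f54591437a2) .nil))))) (.ex (nat_lit 8) (.split (nat_lit 7) (nat_lit 3) (.pd (.cons (nat_lit 1) (nat_lit 4) (nat_lit 0) (nat_lit 0x737602200) (nat_lit 0xf423f65b97b71aef423f0000061a795b8cc00000f423f) (.cons (nat_lit 2) (nat_lit 4) (nat_lit 0) (nat_lit 0x737603000) (nat_lit 0xf423f65b97b71aef423f0000061a7900000f423fb71ae) (.cons (nat_lit 3) (nat_lit 4) (nat_lit 0) (nat_lit 0x765500100)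 (nat_lit 0xf423fb71aea2c28989650000000000f423f54591437a2) .nil))) (.leaf (.cons (nat_lit 0x14054) (nat_lit 0x100020000000000000003000400030000) (.cons (nat_lit 0x5540) (nat_lit 0x20003000400030001000000000000) .nil)) (.cons (nat_lit 0x111001100) (nat_lit 0x100010) (nat_lit 8) (nat_lit 0x201003400) (.cons (nat_lit 0x110001100) (nat_lit 0x1000010) (nat_lit 2) (nat_lit 0x320001000) (.cons (nat_lit 0x110001000) (nat_lit 0x1000100) (nat_lit 1) (nat_lit 0x210000000) .nil))))) (.non (nat_lit 1) (nat_lit 5) (nat_lit 0x2a040) (nat_lit 0x100020001000000000002000000000000))) (.split (nat_lit 9) (nat_lit 0) (.split (nat_lit 9) (nat_lit 1) (.split (nat_lit 9) (nat_lit 2) (.split (nat_lit 9) (nat_lit 3) (.split (nat_lit 9) (nat_lit 4) (.split (nat_lit 9) (nat_lit 5) (.split (nat_lit 9) (nat_lit 6) (.split (nat_lit 9) (nat_lit 7) (.split (nat_lit 9) (nat_lit 8) (.split (nat_lit 7) (nat_lit 3) (.par (nat_lit 0x55450) (nat_lit 0x1000200030002000100000002000100000000)) (.non (nat_lit 1) (nat_lit 5) (nat_lit 0x2a040) (nat_lit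 0x100020001000000000002000000000000))) (.non (nat_lit 1) (nat_lit 5) (nat_lit 0x95040) (nat_lit 0x1000200020001000000000001000000000000))) (.non (nat_lit 1) (nat_lit 5) (nat_lit 0x54000) (nat_lit 0x1000100010000000000000000000000000000))) (.non (nat_lit 1) (nat_lit 5) (nat_lit 0x55000) (nat_lit 0x1000100010001000000000000000000000000))) (.non (nat_lit 1) (nat_lit 6) (nat_lit 0x54500) (nat_lit 0x3000200010000000400030000000000000000))) (.non (nat_lit 1) (nat_lit 6) (nat_lit 0x54500) (nat_lit 0x3000200010000000300040000000000000000))) (.non (nat_lit 1) (nat_lit 5) (nat_lit 0x54040) (nat_lit 0x1000100010000000000000001000000000000))) (.non (nat_lit 1) (nat_lit 5) (nat_lit 0x54050) (nat_lit 0x1000100010000000000000001000100000000))) (.non (nat_lit 3) (nat_lit 5) (nat_lit 0x54014) (nat_lit 0x3000200010000000000000000000300040000))) (.non (nat_lit 3) (nat_lit 5) (nat_lit 0x50015) (nat_lit 0x2000100000000000000000000000300040003)))))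

noncomputable def t761_25 : Tr := (.ex (nat_lit 4) (.ex (nat_lit 5) (.ex (nat_lit 6) t761_24 (.split (nat_lit 9) (nat_lit 0) (.split (nat_lit 9) (nat_lit 1) (.split (nat_lit 9) (nat_lit 2) (.split (nat_lit 9) (nat_lit 3) (.split (nat_lit 9) (nat_lit 7) (.split (nat_lit 9) (nat_lit 8) (.split (nat_lit 9) (nat_lit 4) (.split (nat_lit 9) (nat_lit 5) (.sup (nat_lit 0x20009000a0005) (nat_lit 0x3000000010007000a00080000000000000000)) (.unj (nat_lit 0x41400) (nat_lit 0x1000000000001000100000000000000000000) (nat_lit 0x55) (nat_lit 0x1000200020001))) (.split (nat_lit 9) (nat_lit 5) (.unj (nat_lit 0x55) (nat_lit 0x1000200020001) (nat_lit 0x41500) (nat_lit 0x1000000000001000100010000000000000000)) (.non (nat_lit 1) (nat_lit 6) (nat_lit 0x40500) (nat_lit 0x1000000000000000100010000000000000000)))) (.non (nat_lit 1) (nat_lit 5) (nat_lit 0x55000) (nat_lit 0x1000100010001000000000000000000000000))) (.non (nat_lit 1) (nat_lit 5) (nat_lit 0x45000) (nat_lit 0x1000000010001000000000000000000000000))) (.non (nat_lit 1)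 (nat_lit 5) (nat_lit 0x45040) (nat_lit 0x1000000010001000000000001000000000000))) (.star (nat_lit 9) (nat_lit 2) (nat_lit 6))) (.star (nat_lit 9) (nat_lit 1) (nat_lit 6))) (.non (nat_lit 3) (nat_lit 5) (nat_lit 0x41015) (nat_lit 0x2000000000001000000000000000300040003)))) (.split (nat_lit 9) (nat_lit 0) (.split (nat_lit 9) (nat_lit 1) (.split (nat_lit 9) (nat_lit 2) (.split (nat_lit 9) (nat_lit 3) (.split (nat_lit 9) (nat_lit 4) (.split (nat_lit 9) (nat_lit 7) (.split (nat_lit 9) (nat_lit 8) (.split (nat_lit 9) (nat_lit 6) (.unj (nat_lit 0x55) (nat_lit 0x1000200020001) (nat_lit 0x41500) (nat_lit 0x1000000000001000200020000000000000000)) (.unj (nat_lit 0x41400) (nat_lit 0x1000000000001000100000000000000000000) (nat_lit 0x55) (nat_lit 0x1000200020001))) (.non (nat_lit 1) (nat_lit 6) (nat_lit 0x54500) (nat_lit 0x3000200010000000400030000000000000000))) (.non (nat_lit 1) (nat_lit 5) (nat_lit 0x55040) (nat_lit 0x1000100020001000000000001000000000000))) (.non (nat_lit 1) (nat_lit 6) (nat_lit 0x40500) (nat_lit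 0x1000000000000000100010000000000000000))) (.non (nat_lit 1) (nat_lit 5) (nat_lit 0x55050) (nat_lit 0x1000100020001000000000002000100000000))) (.star (nat_lit 9) (nat_lit 2) (nat_lit 5))) (.star (nat_lit 9) (nat_lit 1) (nat_lit 5))) (.non (nat_lit 2) (nat_lit 6) (nat_lit 0x40505) (nat_lit 0x3000000000000000400030000000000010002)))) (.split (nat_lit 9) (nat_lit 0) (.split (nat_lit 9) (nat_lit 1) (.split (nat_lit 9) (nat_lit 2) (.split (nat_lit 9) (nat_lit 3) (.split (nat_lit 9) (nat_lit 5) (.split (nat_lit 9) (nat_lit 7) (.split (nat_lit 9) (nat_lit 8) (.split (nat_lit 9) (nat_lit 6) (.unj (nat_lit 0x55) (nat_lit 0x1000200020001) (nat_lit 0x41500) (nat_lit 0x1000000000001000200020000000000000000)) (.unj (nat_lit 0x55) (nat_lit 0x1000200020001) (nat_lit 0x41500) (nat_lit 0x1000000000001000100010000000000000000))) (.non (nat_lit 1) (nat_lit 6) (nat_lit 0x54500) (nat_lit 0x3000200010000000300040000000000000000))) (.non (nat_lit 1) (nat_lit 5) (nat_lit 0x55040) (nat_lit 0x1000100020001000000000001000000000000)))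 (.non (nat_lit 1) (nat_lit 6) (nat_lit 0x40500) (nat_lit 0x1000000000000000100010000000000000000))) (.non (nat_lit 1) (nat_lit 5) (nat_lit 0x55050) (nat_lit 0x1000100020001000000000002000100000000))) (.non (nat_lit 1) (nat_lit 6) (nat_lit 0x40550) (nat_lit 0x3000000000000000300040001000200000000))) (.non (nat_lit 2) (nat_lit 6) (nat_lit 0x40505) (nat_lit 0x3000000000000000300040000000000020001))) (.non (nat_lit 2) (nat_lit 6) (nat_lit 0x40505) (nat_lit 0x3000000000000000300040000000000010002))))

noncomputable def t761_26 : Tr := (.ex (nat_lit 1) (.ex (nat_lit 2) (.split (nat_lit 8) (nat_lit 7) (.pd (.cons (nat_lit 3) (nat_lit 5) (nat_lit 0) (nat_lit 0x766040100) (nat_lit 0xf423fb71aea2c2800000f423f00000f423f54591437a2) (.cons (nat_lit 3) (nat_lit 6) (nat_lit 0) (nat_lit 0x770440100) (nat_lit 0xf423fb71ae00000f423f5459100000f423f54591437a2) .nil)) t761_25) (.non (nat_lit 1) (nat_lit 5) (nat_lit 0x25040) (nat_lit 0x100020001000000000001000000000000))) (.split (nat_lit 9) (nat_lit 3) (.split (nat_lit 9)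 (nat_lit 4) (.split (nat_lit 9) (nat_lit 5) (.split (nat_lit 9) (nat_lit 6) (.split (nat_lit 9) (nat_lit 7) (.split (nat_lit 9) (nat_lit 8) (.split (nat_lit 9) (nat_lit 0) (.split (nat_lit 9) (nat_lit 1) (.unj (nat_lit 0x40015) (nat_lit 0x1000000000000000000000000000200020001) (nat_lit 0x15500) (nat_lit 0x100020003000400030000000000000000)) (.unj (nat_lit 0x40014) (nat_lit 0x1000000000000000000000000000100010000) (nat_lit 0x15500) (nat_lit 0x100020003000400030000000000000000))) (.split (nat_lit 9) (nat_lit 1) (.unj (nat_lit 0x40015) (nat_lit 0x1000000000000000000000000000100010001) (nat_lit 0x15500) (nat_lit 0x100020003000400030000000000000000)) (.non (nat_lit 2) (nat_lit 5) (nat_lit 0x40005) (nat_lit 0x1000000000000000000000000000000010001)))) (.non (nat_lit 1) (nat_lit 5) (nat_lit 0x54050) (nat_lit 0x1000100010000000000000001000100000000))) (.non (nat_lit 1) (nat_lit 5) (nat_lit 0x55040) (nat_lit 0x1000100020001000000000001000000000000))) (.star (nat_lit 9) (nat_lit 2) (nat_lit 6))) (.star (nat_lit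 9) (nat_lit 2) (nat_lit 5))) (.non (nat_lit 1) (nat_lit 6) (nat_lit 0x40550) (nat_lit 0x3000000000000000300040001000200000000))) (.non (nat_lit 1) (nat_lit 5) (nat_lit 0x40050) (nat_lit 0x1000000000000000000000001000100000000)))) (.split (nat_lit 9) (nat_lit 0) (.split (nat_lit 9) (nat_lit 3) (.split (nat_lit 9) (nat_lit 4) (.split (nat_lit 9) (nat_lit 5) (.split (nat_lit 9) (nat_lit 6) (.split (nat_lit 9) (nat_lit 7) (.split (nat_lit 9) (nat_lit 2) (.split (nat_lit 9) (nat_lit 8) (.unj (nat_lit 0x40015) (nat_lit 0x1000000000000000000000000000200020001) (nat_lit 0x15500) (nat_lit 0x100020003000400030000000000000000)) (.sup (nat_lit 0x50000000000000000000000000006000a0005) (nat_lit 0x40007000a00080001000000000000))) (.split (nat_lit 9) (nat_lit 8) (.unj (nat_lit 0x40014) (nat_lit 0x1000000000000000000000000000100010000) (nat_lit 0x15500) (nat_lit 0x100020003000400030000000000000000)) (.non (nat_lit 1) (nat_lit 5) (nat_lit 0x54050) (nat_lit 0x1000100010000000000000001000100000000)))) (.non (nat_lit 1)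 (nat_lit 5) (nat_lit 0x55040) (nat_lit 0x1000100020001000000000001000000000000))) (.star (nat_lit 9) (nat_lit 1) (nat_lit 6))) (.star (nat_lit 9) (nat_lit 1) (nat_lit 5))) (.non (nat_lit 2) (nat_lit 6) (nat_lit 0x40505) (nat_lit 0x3000000000000000300040000000000020001))) (.non (nat_lit 1) (nat_lit 5) (nat_lit 0x55050) (nat_lit 0x1000100020001000000000002000100000000))) (.non (nat_lit 2) (nat_lit 5) (nat_lit 0x40005) (nat_lit 0x1000000000000000000000000000000010001))))

noncomputable def t761_27 : Tr := (.st (nat_lit 7) (nat_lit 1) (nat_lit 5) (nat_lit 0x15040) (nat_lit 0x100020001000000000001000000000000) (nat_lit 1) (nat_lit 1) (.ex (nat_lit 0) t761_26 (.split (nat_lit 9) (nat_lit 1) (.split (nat_lit 9) (nat_lit 3) (.split (nat_lit 9) (nat_lit 4) (.split (nat_lit 9) (nat_lit 5) (.split (nat_lit 9) (nat_lit 7) (.split (nat_lit 9) (nat_lit 2) (.split (nat_lit 9) (nat_lit 6) (.split (nat_lit 9) (nat_lit 8) (.sup (nat_lit 0x7000e00170020001a0000000000000000) (nat_lit 0x700000000000000000000000100110014000d))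 (.split (nat_lit 9) (nat_lit 8) (.split (nat_lit 8) (nat_lit 7) (.split (nat_lit 7) (nat_lit 3) (.par (nat_lit 0x55450) (nat_lit 0x1000200030002000100000002000100000000)) (.non (nat_lit 1) (nat_lit 5) (nat_lit 0x2a040) (nat_lit 0x100020001000000000002000000000000))) (.non (nat_lit 1) (nat_lit 5) (nat_lit 0x25040) (nat_lit 0x100020001000000000001000000000000))) (.non (nat_lit 1) (nat_lit 5) (nat_lit 0x95040) (nat_lit 0x1000200020001000000000001000000000000)))) (.split (nat_lit 9) (nat_lit 8) (.split (nat_lit 9) (nat_lit 0) (.split (nat_lit 9) (nat_lit 6) (.split (nat_lit 8) (nat_lit 7) (.split (nat_lit 7) (nat_lit 3) (.sup (nat_lit 0x300020004000b0010000d0000000000000000) (nat_lit 0x5000f000f0006)) (.non (nat_lit 1) (nat_lit 5) (nat_lit 0x2a040) (nat_lit 0x100020001000000000002000000000000))) (.non (nat_lit 1) (nat_lit 5) (nat_lit 0x25040) (nat_lit 0x100020001000000000001000000000000))) (.non (nat_lit 1) (nat_lit 5) (nat_lit 0x95040) (nat_lit 0x1000100020002000000000001000000000000))) (.non (nat_lit 1)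 (nat_lit 5) (nat_lit 0xaa081) (nat_lit 0x2000100020002000000000001000000000002))) (.non (nat_lit 1) (nat_lit 5) (nat_lit 0x55000) (nat_lit 0x1000100010001000000000000000000000000)))) (.split (nat_lit 9) (nat_lit 6) (.split (nat_lit 9) (nat_lit 8) (.unj (nat_lit 0x40015) (nat_lit 0x1000000000000000000000000000100010001) (nat_lit 0x15500) (nat_lit 0x100020003000400030000000000000000)) (.non (nat_lit 1) (nat_lit 5) (nat_lit 0x54050) (nat_lit 0x1000100010000000000000001000100000000))) (.star (nat_lit 9) (nat_lit 2) (nat_lit 6)))) (.non (nat_lit 1) (nat_lit 5) (nat_lit 0x55040) (nat_lit 0x1000100020001000000000001000000000000))) (.non (nat_lit 2) (nat_lit 6) (nat_lit 0x40505) (nat_lit 0x3000000000000000400030000000000010002))) (.non (nat_lit 2) (nat_lit 6) (nat_lit 0x40505) (nat_lit 0x3000000000000000300040000000000010002))) (.non (nat_lit 1) (nat_lit 5) (nat_lit 0x55050) (nat_lit 0x1000100020001000000000002000100000000))) (.non (nat_lit 2) (nat_lit 5) (nat_lit 0x40005) (nat_lit 0x1000000000000000000000000000000010001)))))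

noncomputable def t761_28 : Tr := (.ex (nat_lit 6) (.pd (.cons (nat_lit 0) (nat_lit 7) (nat_lit 0) (nat_lit 0x805442110) (nat_lit 0xf423f00000f423fb71ae1f156f423fb71ae1f15600000) .nil) (.ex (nat_lit 8) (.split (nat_lit 7) (nat_lit 3) (.pd (.cons (nat_lit 1) (nat_lit 4) (nat_lit 0) (nat_lit 0x737602200) (nat_lit 0xf423f65b97b71aef423f0000061a795b8cc00000f423f) (.cons (nat_lit 2) (nat_lit 4) (nat_lit 0) (nat_lit 0x737603000) (nat_lit 0xf423f65b97b71aef423f0000061a7900000f423fb71ae) (.cons (nat_lit 3) (nat_lit 4) (nat_lit 0) (nat_lit 0x765500100) (nat_lit 0xf423fb71aea2c28989650000000000f423f54591437a2) .nil))) (.leaf (.cons (nat_lit 0x14054) (nat_lit 0x100020000000000000003000400030000) (.cons (nat_lit 0x5540) (nat_lit 0x20003000400030001000000000000) (.cons (nat_lit 0x1501) (nat_lit 0x1000200020000000000000001) (.cons (nat_lit 0x515) (nat_lit 0x100010000000100010001) .nil)))) (.cons (nat_lit 0x110011) (nat_lit 0x1000100) (nat_lit 0x10) (nat_lit 0x10032) .nil))) (.non (nat_lit 1) (nat_lit 5) (nat_lit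 0x2a040) (nat_lit 0x100020001000000000002000000000000))) (.split (nat_lit 9) (nat_lit 0) (.split (nat_lit 9) (nat_lit 1) (.split (nat_lit 9) (nat_lit 2) (.split (nat_lit 9) (nat_lit 3) (.split (nat_lit 9) (nat_lit 4) (.split (nat_lit 9) (nat_lit 5) (.split (nat_lit 9) (nat_lit 6) (.split (nat_lit 9) (nat_lit 7) (.split (nat_lit 9) (nat_lit 8) (.split (nat_lit 7) (nat_lit 3) (.par (nat_lit 0x55450) (nat_lit 0x1000200030002000100000002000100000000)) (.non (nat_lit 1) (nat_lit 5) (nat_lit 0x2a040) (nat_lit 0x100020001000000000002000000000000))) (.non (nat_lit 1) (nat_lit 5) (nat_lit 0x95040) (nat_lit 0x1000200020001000000000001000000000000))) (.non (nat_lit 1) (nat_lit 5) (nat_lit 0x54000) (nat_lit 0x1000100010000000000000000000000000000))) (.non (nat_lit 1) (nat_lit 5) (nat_lit 0x55000) (nat_lit 0x1000100010001000000000000000000000000))) (.non (nat_lit 1) (nat_lit 6) (nat_lit 0x54500) (nat_lit 0x3000200010000000400030000000000000000))) (.non (nat_lit 1) (nat_lit 6) (nat_lit 0x54500) (nat_lit 0x3000200010000000300040000000000000000)))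 (.non (nat_lit 1) (nat_lit 5) (nat_lit 0x54040) (nat_lit 0x1000100010000000000000001000000000000))) (.non (nat_lit 1) (nat_lit 5) (nat_lit 0x54050) (nat_lit 0x1000100010000000000000001000100000000))) (.non (nat_lit 2) (nat_lit 6) (nat_lit 0x40505) (nat_lit 0x1000000000000000300040000000000020003))) (.non (nat_lit 1) (nat_lit 6) (nat_lit 0x50501) (nat_lit 0x2000100000000000300040000000000000003))))) (.split (nat_lit 9) (nat_lit 0) (.split (nat_lit 9) (nat_lit 1) (.split (nat_lit 9) (nat_lit 2) (.split (nat_lit 9) (nat_lit 3) (.split (nat_lit 9) (nat_lit 4) (.split (nat_lit 9) (nat_lit 5) (.split (nat_lit 9) (nat_lit 7) (.split (nat_lit 9) (nat_lit 8) (.split (nat_lit 9) (nat_lit 6) (.split (nat_lit 7) (nat_lit 3) (.par (nat_lit 0x55440) (nat_lit 0x1000100020002000100000001000000000000)) (.non (nat_lit 1) (nat_lit 5) (nat_lit 0x2a040) (nat_lit 0x100020001000000000002000000000000))) (.non (nat_lit 1) (nat_lit 5) (nat_lit 0x95040) (nat_lit 0x1000100020002000000000001000000000000))) (.non (nat_lit 1) (nat_lit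 5) (nat_lit 0x55000) (nat_lit 0x1000100010001000000000000000000000000))) (.non (nat_lit 1) (nat_lit 5) (nat_lit 0x45000) (nat_lit 0x1000000010001000000000000000000000000))) (.non (nat_lit 1) (nat_lit 6) (nat_lit 0x40501) (nat_lit 0x1000000000000000200020000000000000001))) (.non (nat_lit 1) (nat_lit 6) (nat_lit 0x40501) (nat_lit 0x1000000000000000200020000000000000001))) (.non (nat_lit 1) (nat_lit 5) (nat_lit 0x45040) (nat_lit 0x1000000010001000000000001000000000000))) (.star (nat_lit 9) (nat_lit 2) (nat_lit 6))) (.star (nat_lit 9) (nat_lit 1) (nat_lit 6))) (.non (nat_lit 2) (nat_lit 5) (nat_lit 0x55145) (nat_lit 0x2000100020002000000010001000000010002))))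

noncomputable def t761_29 : Tr := (.split (nat_lit 7) (nat_lit 3) t761_23 (.split (nat_lit 4) (nat_lit 3) (.split (nat_lit 4) (nat_lit 0) (.st (nat_lit 3) (nat_lit 1) (nat_lit 5) (nat_lit 0x15050) (nat_lit 0x100020001000000000002000100000000) (nat_lit 1) (nat_lit 1) t761_27) (.st (nat_lit 0) (nat_lit 2) (nat_lit 6) (nat_lit 0x505) (nat_lit 0x200020000000000010002) (nat_lit 1) (nat_lit 1) (.st (nat_lit 1) (nat_lit 2) (nat_lit 6) (nat_lit 0x505) (nat_lit 0x300040000000000020003) (nat_lit 1) (nat_lit 1) (.st (nat_lit 3) (nat_lit 1) (nat_lit 5) (nat_lit 0x15050) (nat_lit 0x100020001000000000002000100000000) (nat_lit 1) (nat_lit 1) (.st (nat_lit 4) (nat_lit 1) (nat_lit 6) (nat_lit 0x501) (nat_lit 0x200020000000000000001) (nat_lit 1) (nat_lit 1) (.st (nat_lit 5) (nat_lit 1) (nat_lit 6) (nat_lit 0x501) (nat_lit 0x200020000000000000001) (nat_lit 1) (nat_lit 1) (.st (nat_lit 7) (nat_lit 1) (nat_lit 5) (nat_lit 0x15040) (nat_lit 0x100020001000000000001000000000000) (nat_lit 1) (nat_lit 1) (.ex (nat_lit 2) (.split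 (nat_lit 4) (nat_lit 0) (.split (nat_lit 8) (nat_lit 7) (.pd (.cons (nat_lit 3) (nat_lit 5) (nat_lit 0) (nat_lit 0x766000100) (nat_lit 0xf423fb71aea2c2800000f423f00000f423f5459106711) .nil) t761_28) (.non (nat_lit 1) (nat_lit 5) (nat_lit 0x25040) (nat_lit 0x100020001000000000001000000000000))) (.non (nat_lit 1) (nat_lit 6) (nat_lit 0x501) (nat_lit 0x100010000000000000001))) (.split (nat_lit 9) (nat_lit 0) (.split (nat_lit 9) (nat_lit 1) (.split (nat_lit 9) (nat_lit 3) (.split (nat_lit 9) (nat_lit 4) (.split (nat_lit 9) (nat_lit 5) (.split (nat_lit 9) (nat_lit 6) (.split (nat_lit 9) (nat_lit 7) (.split (nat_lit 9) (nat_lit 8) (.sup (nat_lit 0x5000a00090000000000000002) (nat_lit 0x5000000000000000000000005000a00060000)) (.non (nat_lit 1) (nat_lit 5) (nat_lit 0x54050) (nat_lit 0x1000100010000000000000001000100000000))) (.non (nat_lit 1) (nat_lit 5) (nat_lit 0x55040) (nat_lit 0x1000100020001000000000001000000000000))) (.star (nat_lit 9) (nat_lit 2) (nat_lit 6))) (.star (nat_lit 9) (nat_lit 2) (nat_lit 5)))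 (.non (nat_lit 1) (nat_lit 6) (nat_lit 0x40550) (nat_lit 0x3000000000000000300040001000200000000))) (.non (nat_lit 1) (nat_lit 5) (nat_lit 0x40050) (nat_lit 0x1000000000000000000000001000100000000))) (.non (nat_lit 2) (nat_lit 6) (nat_lit 0x40505) (nat_lit 0x1000000000000000300040000000000020003))) (.non (nat_lit 1) (nat_lit 6) (nat_lit 0x40511) (nat_lit 0x2000000000000000300040000000100000003))))))))))) (.non (nat_lit 1) (nat_lit 5) (nat_lit 0x15150) (nat_lit 0x100020001000000010002000100000000))))

noncomputable def t761_30 : Tr := (.pd (.cons (nat_lit 0) (nat_lit 7) (nat_lit 0) (nat_lit 0x805442110) (nat_lit 0xf423f00000f423fb71ae1f156f423fb71ae1f15600000) (.cons (nat_lit 0) (nat_lit 8) (nat_lit 0) (nat_lit 0x65442110) (nat_lit 0xf423fb71aea2c2804737f423fb71ae1f15600000) (.cons (nat_lit 1) (nat_lit 7) (nat_lit 0) (nat_lit 0x805442200) (nat_lit 0xf423f00000f423fb71ae1f156f423fb71ae00000f423f) (.cons (nat_lit 2) (nat_lit 7) (nat_lit 0) (nat_lit 0x805443000) (nat_lit 0xf423f00000f423fb71ae1f156f423f00000f423fb71ae)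 (.cons (nat_lit 3) (nat_lit 7) (nat_lit 0) (nat_lit 0x805440100) (nat_lit 0xf423f00000f423fb71ae1f15600000f423f54591437a2) .nil))))) (.ex (nat_lit 8) (.split (nat_lit 7) (nat_lit 0) (.pd (.cons (nat_lit 0) (nat_lit 4) (nat_lit 0) (nat_lit 0x765502110) (nat_lit 0xf423fb71aea2c289896500000f423fb71ae1f15600000) (.cons (nat_lit 1) (nat_lit 4) (nat_lit 0) (nat_lit 0x707602200) (nat_lit 0xf423f65b97b71aef423f00000f423fb71ae0000061a79) (.cons (nat_lit 2) (nat_lit 4) (nat_lit 0) (nat_lit 0x707603000) (nat_lit 0xf423f65b97b71aef423f00000f423f00000f423f249e8) .nil))) (.leaf (.cons (nat_lit 0x5501) (nat_lit 0x20003000400030000000000000001) (.cons (nat_lit 0x14015) (nat_lit 0x100020000000000000000000300040003) .nil)) (.cons (nat_lit 0x111100001) (nat_lit 0x10010) (nat_lit 8) (nat_lit 0x203400001) (.cons (nat_lit 0x111000001) (nat_lit 0x100010) (nat_lit 7) (nat_lit 0x302000001) (.cons (nat_lit 0x110000001) (nat_lit 0x1000010) (nat_lit 1) (nat_lit 0x210000000) (.cons (nat_lit 0x110000011) (nat_lit 0x1000100) (nat_lit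 2) (nat_lit 0x320000001) .nil)))))) (.non (nat_lit 1) (nat_lit 5) (nat_lit 0x2a001) (nat_lit 0x100020001000000000000000000000002))) (.split (nat_lit 9) (nat_lit 0) (.split (nat_lit 9) (nat_lit 1) (.split (nat_lit 9) (nat_lit 2) (.split (nat_lit 9) (nat_lit 3) (.split (nat_lit 9) (nat_lit 4) (.split (nat_lit 9) (nat_lit 5) (.split (nat_lit 9) (nat_lit 6) (.split (nat_lit 9) (nat_lit 7) (.split (nat_lit 9) (nat_lit 8) (.split (nat_lit 7) (nat_lit 0) (.par (nat_lit 0x55405) (nat_lit 0x1000200030002000100000000000000010002)) (.non (nat_lit 1) (nat_lit 5) (nat_lit 0x2a001) (nat_lit 0x100020001000000000000000000000002))) (.non (nat_lit 1) (nat_lit 5) (nat_lit 0x95001) (nat_lit 0x1000200020001000000000000000000000001))) (.non (nat_lit 1) (nat_lit 5) (nat_lit 0x54000) (nat_lit 0x1000100010000000000000000000000000000))) (.non (nat_lit 1) (nat_lit 5) (nat_lit 0x55000) (nat_lit 0x1000100010001000000000000000000000000))) (.non (nat_lit 1) (nat_lit 6) (nat_lit 0x54500) (nat_lit 0x3000200010000000400030000000000000000)))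 (.non (nat_lit 1) (nat_lit 6) (nat_lit 0x54500) (nat_lit 0x3000200010000000300040000000000000000))) (.non (nat_lit 0) (nat_lit 5) (nat_lit 0x50054) (nat_lit 0x2000100000000000000000003000400030000))) (.non (nat_lit 0) (nat_lit 5) (nat_lit 0x54014) (nat_lit 0x3000200010000000000000000000400030000))) (.non (nat_lit 2) (nat_lit 5) (nat_lit 0x54005) (nat_lit 0x1000100010000000000000000000000010001))) (.non (nat_lit 1) (nat_lit 5) (nat_lit 0x54001) (nat_lit 0x1000100010000000000000000000000000001)))))

noncomputable def t761_31 : Tr := (.ex (nat_lit 4) (.ex (nat_lit 5) (.ex (nat_lit 6) t761_30 (.split (nat_lit 9) (nat_lit 0) (.split (nat_lit 9) (nat_lit 1) (.split (nat_lit 9) (nat_lit 2) (.split (nat_lit 9) (nat_lit 3) (.split (nat_lit 9) (nat_lit 7) (.split (nat_lit 9) (nat_lit 8) (.split (nat_lit 9) (nat_lit 4) (.split (nat_lit 9) (nat_lit 5) (.sup (nat_lit 0x5000a00090002) (nat_lit 0x3000000010007000a00080000000000000000)) (.unj (nat_lit 0x41400) (nat_lit 0x1000000000001000100000000000000000000) (nat_lit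 0x55) (nat_lit 0x1000200020001))) (.split (nat_lit 9) (nat_lit 5) (.unj (nat_lit 0x55) (nat_lit 0x1000200020001) (nat_lit 0x41500) (nat_lit 0x1000000000001000100010000000000000000)) (.non (nat_lit 1) (nat_lit 6) (nat_lit 0x40500) (nat_lit 0x1000000000000000100010000000000000000)))) (.non (nat_lit 1) (nat_lit 5) (nat_lit 0x55000) (nat_lit 0x1000100010001000000000000000000000000))) (.non (nat_lit 1) (nat_lit 5) (nat_lit 0x45000) (nat_lit 0x1000000010001000000000000000000000000))) (.non (nat_lit 0) (nat_lit 5) (nat_lit 0x41054) (nat_lit 0x2000000000001000000000003000400030000))) (.star (nat_lit 9) (nat_lit 2) (nat_lit 6))) (.star (nat_lit 9) (nat_lit 1) (nat_lit 6))) (.non (nat_lit 1) (nat_lit 5) (nat_lit 0x45001) (nat_lit 0x1000000010001000000000000000000000001)))) (.split (nat_lit 9) (nat_lit 0) (.split (nat_lit 9) (nat_lit 1) (.split (nat_lit 9) (nat_lit 2) (.split (nat_lit 9) (nat_lit 3) (.split (nat_lit 9) (nat_lit 4) (.split (nat_lit 9) (nat_lit 7) (.split (nat_lit 9) (nat_lit 8) (.split (nat_lit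 9) (nat_lit 6) (.unj (nat_lit 0x55) (nat_lit 0x1000200020001) (nat_lit 0x41500) (nat_lit 0x1000000000001000200020000000000000000)) (.unj (nat_lit 0x41400) (nat_lit 0x1000000000001000100000000000000000000) (nat_lit 0x55) (nat_lit 0x1000200020001))) (.non (nat_lit 1) (nat_lit 6) (nat_lit 0x54500) (nat_lit 0x3000200010000000400030000000000000000))) (.non (nat_lit 1) (nat_lit 5) (nat_lit 0x55001) (nat_lit 0x1000100020001000000000000000000000001))) (.non (nat_lit 1) (nat_lit 6) (nat_lit 0x40500) (nat_lit 0x1000000000000000100010000000000000000))) (.non (nat_lit 1) (nat_lit 6) (nat_lit 0x40550) (nat_lit 0x3000000000000000400030002000100000000))) (.star (nat_lit 9) (nat_lit 2) (nat_lit 5))) (.star (nat_lit 9) (nat_lit 1) (nat_lit 5))) (.non (nat_lit 1) (nat_lit 6) (nat_lit 0x44501) (nat_lit 0x3000000010000000400030000000000000002)))) (.split (nat_lit 9) (nat_lit 0) (.split (nat_lit 9) (nat_lit 1) (.split (nat_lit 9) (nat_lit 2) (.split (nat_lit 9) (nat_lit 3) (.split (nat_lit 9) (nat_lit 5) (.split (nat_lit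 9) (nat_lit 7) (.split (nat_lit 9) (nat_lit 8) (.split (nat_lit 9) (nat_lit 6) (.unj (nat_lit 0x55) (nat_lit 0x1000200020001) (nat_lit 0x41500) (nat_lit 0x1000000000001000200020000000000000000)) (.unj (nat_lit 0x55) (nat_lit 0x1000200020001) (nat_lit 0x41500) (nat_lit 0x1000000000001000100010000000000000000))) (.non (nat_lit 1) (nat_lit 6) (nat_lit 0x54500) (nat_lit 0x3000200010000000300040000000000000000))) (.non (nat_lit 1) (nat_lit 5) (nat_lit 0x55001) (nat_lit 0x1000100020001000000000000000000000001))) (.non (nat_lit 1) (nat_lit 6) (nat_lit 0x40500) (nat_lit 0x1000000000000000100010000000000000000))) (.non (nat_lit 1) (nat_lit 6) (nat_lit 0x40550) (nat_lit 0x3000000000000000300040002000100000000))) (.non (nat_lit 1) (nat_lit 6) (nat_lit 0x40550) (nat_lit 0x3000000000000000300040001000200000000))) (.non (nat_lit 2) (nat_lit 6) (nat_lit 0x40505) (nat_lit 0x3000000000000000300040000000000020001))) (.non (nat_lit 1) (nat_lit 6) (nat_lit 0x44501) (nat_lit 0x3000000010000000300040000000000000002))))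

noncomputable def t761_32 : Tr := (.ex (nat_lit 3) (.split (nat_lit 8) (nat_lit 7) (.pd (.cons (nat_lit 0) (nat_lit 5) (nat_lit 0) (nat_lit 0x766042110) (nat_lit 0xf423fb71aea2c2800000f423ff423fb71ae1f15600000) (.cons (nat_lit 0) (nat_lit 6) (nat_lit 0) (nat_lit 0x770442110) (nat_lit 0xf423fb71ae00000f423f54591f423fb71ae1f15600000) .nil)) t761_31) (.non (nat_lit 1) (nat_lit 5) (nat_lit 0x25001) (nat_lit 0x100020001000000000000000000000001))) (.split (nat_lit 9) (nat_lit 0) (.split (nat_lit 9) (nat_lit 2) (.split (nat_lit 9) (nat_lit 4) (.split (nat_lit 9) (nat_lit 5) (.split (nat_lit 9) (nat_lit 7) (.split (nat_lit 9) (nat_lit 1) (.split (nat_lit 9) (nat_lit 6) (.split (nat_lit 9) (nat_lit 8) (.sup (nat_lit 0x7000e00170020001a0000000000000000) (nat_lit 0x700000000000000000000000d001400110001)) (.split (nat_lit 9) (nat_lit 8) (.split (nat_lit 8) (nat_lit 7) (.split (nat_lit 7) (nat_lit 0) (.par (nat_lit 0x55405) (nat_lit 0x1000200030002000100000000000000010002)) (.non (nat_lit 1) (nat_lit 5) (nat_lit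 0x2a001) (nat_lit 0x100020001000000000000000000000002))) (.non (nat_lit 1) (nat_lit 5) (nat_lit 0x5a040) (nat_lit 0x2000300020001000000000001000000000000))) (.non (nat_lit 1) (nat_lit 5) (nat_lit 0x6a040) (nat_lit 0x4000300020001000000000002000000000000)))) (.split (nat_lit 9) (nat_lit 8) (.split (nat_lit 9) (nat_lit 3) (.split (nat_lit 9) (nat_lit 6) (.split (nat_lit 8) (nat_lit 7) (.split (nat_lit 7) (nat_lit 0) (.sup (nat_lit 0x300020004000b0010000d0000000000000000) (nat_lit 0x6000f000f0005)) (.non (nat_lit 1) (nat_lit 5) (nat_lit 0x2a001) (nat_lit 0x100020001000000000000000000000002))) (.non (nat_lit 1) (nat_lit 5) (nat_lit 0x25001) (nat_lit 0x100020001000000000000000000000001))) (.non (nat_lit 1) (nat_lit 5) (nat_lit 0x6a040) (nat_lit 0x4000100020003000000000002000000000000))) (.non (nat_lit 1) (nat_lit 5) (nat_lit 0x8a050) (nat_lit 0x3000000010002000000000004000200000000))) (.non (nat_lit 1) (nat_lit 5) (nat_lit 0x55000) (nat_lit 0x1000100010001000000000000000000000000)))) (.split (nat_lit 9) (nat_lit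 6) (.split (nat_lit 9) (nat_lit 8) (.unj (nat_lit 0x40054) (nat_lit 0x1000000000000000000000001000100010000) (nat_lit 0x15500) (nat_lit 0x100020003000400030000000000000000)) (.non (nat_lit 2) (nat_lit 5) (nat_lit 0x54005) (nat_lit 0x1000100010000000000000000000000010001))) (.star (nat_lit 9) (nat_lit 1) (nat_lit 6)))) (.non (nat_lit 1) (nat_lit 5) (nat_lit 0x55001) (nat_lit 0x1000100020001000000000000000000000001))) (.non (nat_lit 1) (nat_lit 6) (nat_lit 0x40550) (nat_lit 0x3000000000000000400030002000100000000))) (.non (nat_lit 1) (nat_lit 6) (nat_lit 0x40550) (nat_lit 0x3000000000000000300040002000100000000))) (.non (nat_lit 1) (nat_lit 5) (nat_lit 0x40050) (nat_lit 0x1000000000000000000000001000100000000))) (.non (nat_lit 2) (nat_lit 5) (nat_lit 0x55005) (nat_lit 0x1000100020001000000000000000000010002))))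

noncomputable def t761_33 : Tr := (.ex (nat_lit 1) (.ex (nat_lit 2) t761_32 (.split (nat_lit 9) (nat_lit 0) (.split (nat_lit 9) (nat_lit 3) (.split (nat_lit 9) (nat_lit 4) (.split (nat_lit 9) (nat_lit 5) (.split (nat_lit 9) (nat_lit 6) (.split (nat_lit 9) (nat_lit 7) (.split (nat_lit 9) (nat_lit 1) (.split (nat_lit 9) (nat_lit 8) (.unj (nat_lit 0x40054) (nat_lit 0x1000000000000000000000001000200020000) (nat_lit 0x15500) (nat_lit 0x100020003000400030000000000000000)) (.sup (nat_lit 0x5000000000000000000000005000a00060000) (nat_lit 0x40007000a00080000000000000001))) (.split (nat_lit 9) (nat_lit 8) (.unj (nat_lit 0x40014) (nat_lit 0x1000000000000000000000000000100010000) (nat_lit 0x15500) (nat_lit 0x100020003000400030000000000000000)) (.non (nat_lit 2) (nat_lit 5) (nat_lit 0x54005) (nat_lit 0x1000100010000000000000000000000010001)))) (.non (nat_lit 1) (nat_lit 5) (nat_lit 0x55001) (nat_lit 0x1000100020001000000000000000000000001))) (.star (nat_lit 9) (nat_lit 2) (nat_lit 6))) (.star (nat_lit 9) (nat_lit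 2) (nat_lit 5))) (.non (nat_lit 1) (nat_lit 6) (nat_lit 0x40550) (nat_lit 0x3000000000000000300040001000200000000))) (.non (nat_lit 1) (nat_lit 5) (nat_lit 0x40050) (nat_lit 0x1000000000000000000000001000100000000))) (.non (nat_lit 2) (nat_lit 5) (nat_lit 0x55005) (nat_lit 0x1000100020001000000000000000000010002)))) (.split (nat_lit 9) (nat_lit 0) (.split (nat_lit 9) (nat_lit 4) (.split (nat_lit 9) (nat_lit 5) (.split (nat_lit 9) (nat_lit 6) (.split (nat_lit 9) (nat_lit 7) (.split (nat_lit 9) (nat_lit 8) (.split (nat_lit 9) (nat_lit 2) (.split (nat_lit 9) (nat_lit 3) (.unj (nat_lit 0x40054) (nat_lit 0x1000000000000000000000001000200020000) (nat_lit 0x15500) (nat_lit 0x100020003000400030000000000000000)) (.unj (nat_lit 0x40054) (nat_lit 0x1000000000000000000000001000100010000) (nat_lit 0x15500) (nat_lit 0x100020003000400030000000000000000))) (.split (nat_lit 9) (nat_lit 3) (.unj (nat_lit 0x40014) (nat_lit 0x1000000000000000000000000000100010000) (nat_lit 0x15500) (nat_lit 0x100020003000400030000000000000000))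 (.non (nat_lit 1) (nat_lit 5) (nat_lit 0x40050) (nat_lit 0x1000000000000000000000001000100000000)))) (.non (nat_lit 2) (nat_lit 5) (nat_lit 0x54005) (nat_lit 0x1000100010000000000000000000000010001))) (.non (nat_lit 1) (nat_lit 5) (nat_lit 0x55001) (nat_lit 0x1000100020001000000000000000000000001))) (.star (nat_lit 9) (nat_lit 1) (nat_lit 6))) (.star (nat_lit 9) (nat_lit 1) (nat_lit 5))) (.non (nat_lit 2) (nat_lit 6) (nat_lit 0x40505) (nat_lit 0x3000000000000000300040000000000020001))) (.non (nat_lit 2) (nat_lit 5) (nat_lit 0x40005) (nat_lit 0x1000000000000000000000000000000010001))))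

noncomputable def t761_34 : Tr := (.ex (nat_lit 6) (.pd (.cons (nat_lit 3) (nat_lit 7) (nat_lit 0) (nat_lit 0x805440100) (nat_lit 0xf423f00000f423fb71ae1f15600000f423f54591437a2) .nil) (.ex (nat_lit 8) (.split (nat_lit 7) (nat_lit 0) (.pd (.cons (nat_lit 0) (nat_lit 4) (nat_lit 0) (nat_lit 0x765502110) (nat_lit 0xf423fb71aea2c289896500000f423fb71ae1f15600000) (.cons (nat_lit 1) (nat_lit 4) (nat_lit 0) (nat_lit 0x707602200) (nat_lit 0xf423f65b97b71aef423f00000f423fb71ae0000061a79) (.cons (nat_lit 2) (nat_lit 4) (nat_lit 0) (nat_lit 0x707603000) (nat_lit 0xf423f65b97b71aef423f00000f423f00000f423f249e8) .nil))) (.leaf (.cons (nat_lit 0x554) (nat_lit 0x100010001000100010000) (.cons (nat_lit 0x1540) (nat_lit 0x1000200020001000000000000) (.cons (nat_lit 0x14015) (nat_lit 0x100020000000000000000000300040003) (.cons (nat_lit 0x5501) (nat_lit 0x20003000400030000000000000001) .nil)))) (.cons (nat_lit 0x11110) (nat_lit 0x100001) (nat_lit 0x10) (nat_lit 0x32100) .nil))) (.non (nat_lit 1) (nat_lit 5) (nat_lit 0x2a001)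 (nat_lit 0x100020001000000000000000000000002))) (.split (nat_lit 9) (nat_lit 0) (.split (nat_lit 9) (nat_lit 1) (.split (nat_lit 9) (nat_lit 2) (.split (nat_lit 9) (nat_lit 3) (.split (nat_lit 9) (nat_lit 4) (.split (nat_lit 9) (nat_lit 5) (.split (nat_lit 9) (nat_lit 6) (.split (nat_lit 9) (nat_lit 7) (.split (nat_lit 9) (nat_lit 8) (.split (nat_lit 7) (nat_lit 0) (.par (nat_lit 0x55405) (nat_lit 0x1000200030002000100000000000000010002)) (.non (nat_lit 1) (nat_lit 5) (nat_lit 0x2a001) (nat_lit 0x100020001000000000000000000000002))) (.non (nat_lit 1) (nat_lit 5) (nat_lit 0x95001) (nat_lit 0x1000200020001000000000000000000000001))) (.non (nat_lit 1) (nat_lit 5) (nat_lit 0x54000) (nat_lit 0x1000100010000000000000000000000000000))) (.non (nat_lit 1) (nat_lit 5) (nat_lit 0x55000) (nat_lit 0x1000100010001000000000000000000000000))) (.non (nat_lit 1) (nat_lit 6) (nat_lit 0x54500) (nat_lit 0x3000200010000000400030000000000000000))) (.non (nat_lit 1) (nat_lit 6) (nat_lit 0x54500) (nat_lit 0x3000200010000000300040000000000000000)))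 (.non (nat_lit 1) (nat_lit 5) (nat_lit 0x55151) (nat_lit 0x2000200020001000000010002000100000001))) (.non (nat_lit 1) (nat_lit 6) (nat_lit 0x40550) (nat_lit 0x1000000000000000300040003000200000000))) (.non (nat_lit 2) (nat_lit 5) (nat_lit 0x54005) (nat_lit 0x1000100010000000000000000000000010001))) (.non (nat_lit 1) (nat_lit 5) (nat_lit 0x54001) (nat_lit 0x1000100010000000000000000000000000001))))) (.split (nat_lit 9) (nat_lit 0) (.split (nat_lit 9) (nat_lit 1) (.split (nat_lit 9) (nat_lit 2) (.split (nat_lit 9) (nat_lit 3) (.split (nat_lit 9) (nat_lit 4) (.split (nat_lit 9) (nat_lit 5) (.split (nat_lit 9) (nat_lit 7) (.split (nat_lit 9) (nat_lit 8) (.split (nat_lit 9) (nat_lit 6) (.split (nat_lit 7) (nat_lit 0) (.par (nat_lit 0x55401) (nat_lit 0x1000100020002000100000000000000000001)) (.non (nat_lit 1) (nat_lit 5) (nat_lit 0x2a001) (nat_lit 0x100020001000000000000000000000002))) (.non (nat_lit 1) (nat_lit 5) (nat_lit 0x95001) (nat_lit 0x1000100020002000000000000000000000001))) (.non (nat_lit 1) (nat_lit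 5) (nat_lit 0x55000) (nat_lit 0x1000100010001000000000000000000000000))) (.non (nat_lit 1) (nat_lit 5) (nat_lit 0x45000) (nat_lit 0x1000000010001000000000000000000000000))) (.non (nat_lit 1) (nat_lit 6) (nat_lit 0x40540) (nat_lit 0x1000000000000000200020001000000000000))) (.non (nat_lit 1) (nat_lit 6) (nat_lit 0x40540) (nat_lit 0x1000000000000000200020001000000000000))) (.non (nat_lit 1) (nat_lit 5) (nat_lit 0x55151) (nat_lit 0x2000100020002000000010002000100000001))) (.star (nat_lit 9) (nat_lit 2) (nat_lit 6))) (.star (nat_lit 9) (nat_lit 1) (nat_lit 6))) (.non (nat_lit 1) (nat_lit 5) (nat_lit 0x45001) (nat_lit 0x1000000010001000000000000000000000001))))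

noncomputable def t761_35 : Tr := (.split (nat_lit 4) (nat_lit 0) (.split (nat_lit 4) (nat_lit 3) (.st (nat_lit 0) (nat_lit 2) (nat_lit 5) (nat_lit 0x15005) (nat_lit 0x100020001000000000000000000010002) (nat_lit 1) (nat_lit 1) (.st (nat_lit 7) (nat_lit 1) (nat_lit 5) (nat_lit 0x15001) (nat_lit 0x100020001000000000000000000000001) (nat_lit 1) (nat_lit 1) t761_33)) (.st (nat_lit 0) (nat_lit 2) (nat_lit 5) (nat_lit 0x15005) (nat_lit 0x100020001000000000000000000010002) (nat_lit 1) (nat_lit 1) (.st (nat_lit 2) (nat_lit 1) (nat_lit 6) (nat_lit 0x550) (nat_lit 0x300040003000200000000) (nat_lit 1) (nat_lit 1) (.st (nat_lit 3) (nat_lit 1) (nat_lit 6) (nat_lit 0x550) (nat_lit 0x200020002000100000000) (nat_lit 1) (nat_lit 1) (.st (nat_lit 4) (nat_lit 1) (nat_lit 6) (nat_lit 0x540) (nat_lit 0x200020001000000000000) (nat_lit 1) (nat_lit 1) (.st (nat_lit 5) (nat_lit 1) (nat_lit 6) (nat_lit 0x540) (nat_lit 0x200020001000000000000) (nat_lit 1) (nat_lit 1) (.st (nat_lit 7) (nat_lit 1) (nat_lit 5) (nat_lit 0x15001)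 (nat_lit 0x100020001000000000000000000000001) (nat_lit 1) (nat_lit 1) (.ex (nat_lit 1) (.split (nat_lit 4) (nat_lit 3) (.split (nat_lit 8) (nat_lit 7) (.pd (.cons (nat_lit 0) (nat_lit 5) (nat_lit 0) (nat_lit 0x766032110) (nat_lit 0xf423fb71aea2c2800000f423fb71aea2c280473700000) .nil) t761_34) (.non (nat_lit 1) (nat_lit 5) (nat_lit 0x25001) (nat_lit 0x100020001000000000000000000000001))) (.non (nat_lit 1) (nat_lit 6) (nat_lit 0x540) (nat_lit 0x100010001000000000000))) (.split (nat_lit 9) (nat_lit 0) (.split (nat_lit 9) (nat_lit 2) (.split (nat_lit 9) (nat_lit 3) (.split (nat_lit 9) (nat_lit 4) (.split (nat_lit 9) (nat_lit 5) (.split (nat_lit 9) (nat_lit 6) (.split (nat_lit 9) (nat_lit 7) (.split (nat_lit 9) (nat_lit 8) (.sup (nat_lit 0x50000000000000000000000000006000a0005) (nat_lit 0x5000a00090002000000000000)) (.non (nat_lit 2) (nat_lit 5) (nat_lit 0x54005) (nat_lit 0x1000100010000000000000000000000010001))) (.non (nat_lit 1) (nat_lit 5) (nat_lit 0x55001) (nat_lit 0x1000100020001000000000000000000000001)))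 (.star (nat_lit 9) (nat_lit 1) (nat_lit 6))) (.star (nat_lit 9) (nat_lit 1) (nat_lit 5))) (.non (nat_lit 1) (nat_lit 6) (nat_lit 0x40540) (nat_lit 0x1000000000000000200020001000000000000))) (.non (nat_lit 1) (nat_lit 6) (nat_lit 0x40550) (nat_lit 0x1000000000000000200020002000100000000))) (.non (nat_lit 1) (nat_lit 6) (nat_lit 0x40550) (nat_lit 0x1000000000000000300040003000200000000))) (.non (nat_lit 2) (nat_lit 5) (nat_lit 0x40005) (nat_lit 0x1000000000000000000000000000000010001))))))))))) (.non (nat_lit 1) (nat_lit 6) (nat_lit 0x14501) (nat_lit 0x100020000000300040000000000000003)))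

noncomputable def t761_36 : Tr := (.ex (nat_lit 8) (.split (nat_lit 8) (nat_lit 3) (.pd (.cons (nat_lit 0) (nat_lit 7) (nat_lit 0) (nat_lit 0x305442110) (nat_lit 0xf423f00000f423fb71ae1f156b71aea2c280473700000) (.cons (nat_lit 1) (nat_lit 4) (nat_lit 0) (nat_lit 0x387602200) (nat_lit 0x98965a2c28b71aef423f00000927bd8e6a200000f423f) (.cons (nat_lit 2) (nat_lit 4) (nat_lit 0) (nat_lit 0x387603000) (nat_lit 0x98965a2c28b71aef423f00000927bd00000f423fb71ae) (.cons (nat_lit 3) (nat_lit 4) (nat_lit 0) (nat_lit 0x765500100) (nat_lit 0xf423fb71aea2c28989650000000000f423f54591437a2) .nil)))) (.leaf (.cons (nat_lit 0x14054) (nat_lit 0x200010000000000000003000400030000) (.cons (nat_lit 0x1501) (nat_lit 0x1000200020000000000000001) (.cons (nat_lit 0x515) (nat_lit 0x100010000000100010001) .nil))) (.cons (nat_lit 0x110011) (nat_lit 0x1000100) (nat_lit 0x10) (nat_lit 0x10032) .nil))) (.non (nat_lit 1) (nat_lit 5) (nat_lit 0x2a050) (nat_lit 0x300020001000000000004000200000000))) (.split (nat_lit 9) (nat_lit 0) (.split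 (nat_lit 9) (nat_lit 1) (.split (nat_lit 9) (nat_lit 2) (.split (nat_lit 9) (nat_lit 3) (.split (nat_lit 9) (nat_lit 4) (.split (nat_lit 9) (nat_lit 5) (.split (nat_lit 9) (nat_lit 6) (.split (nat_lit 9) (nat_lit 7) (.st (nat_lit 8) (nat_lit 1) (nat_lit 5) (nat_lit 0x54040) (nat_lit 0x1000200010000000000000001000000000000) (nat_lit 1) (nat_lit 1) (.split (nat_lit 8) (nat_lit 3) (.split (nat_lit 9) (nat_lit 8) (.pd (.cons (nat_lit 1) (nat_lit 4) (nat_lit 0) (nat_lit 0x8387602200) (nat_lit 0xf423f5b8d4a2c28b71aef423f000005160d3d07c00000f423f) (.cons (nat_lit 2) (nat_lit 4) (nat_lit 0) (nat_lit 0x8387603000) (nat_lit 0xf423f5b8d4a2c28b71aef423f000005160d00000f423fb71ae) (.cons (nat_lit 3) (nat_lit 4) (nat_lit 0) (nat_lit 0x8765500100) (nat_lit 0xf423fb71aea2c2898965927bd0000000000f423f54591437a2) .nil))) (.leaf (.cons (nat_lit 0x50054) (nat_lit 0x1000200000000000000000003000400030000) (.cons (nat_lit 0x1501) (nat_lit 0x1000200020000000000000001) (.cons (nat_lit 0x515) (nat_lit 0x100010000000100010001) .nil)))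 (.cons (nat_lit 0x110011) (nat_lit 0x1000100) (nat_lit 0x10) (nat_lit 0x10032) .nil))) (.non (nat_lit 1) (nat_lit 5) (nat_lit 0x94040) (nat_lit 0x1000200010000000000000001000000000000))) (.non (nat_lit 1) (nat_lit 5) (nat_lit 0xa8040) (nat_lit 0x1000200010000000000000002000000000000)))) (.non (nat_lit 1) (nat_lit 5) (nat_lit 0x54000) (nat_lit 0x1000100010000000000000000000000000000))) (.non (nat_lit 1) (nat_lit 5) (nat_lit 0x55000) (nat_lit 0x1000100010001000000000000000000000000))) (.non (nat_lit 1) (nat_lit 6) (nat_lit 0x54500) (nat_lit 0x3000200010000000400030000000000000000))) (.non (nat_lit 1) (nat_lit 5) (nat_lit 0x55150) (nat_lit 0x2000300020001000000010002000100000000))) (.non (nat_lit 1) (nat_lit 5) (nat_lit 0x50040) (nat_lit 0x1000100000000000000000001000000000000))) (.non (nat_lit 1) (nat_lit 5) (nat_lit 0x50050) (nat_lit 0x1000100000000000000000001000100000000))) (.non (nat_lit 2) (nat_lit 6) (nat_lit 0x40505) (nat_lit 0x1000000000000000300040000000000020003))) (.non (nat_lit 1) (nat_lit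 5) (nat_lit 0x55051) (nat_lit 0x2000300020001000000000002000100000001))))

noncomputable def t761_37 : Tr := (.ex (nat_lit 9) (.split (nat_lit 9) (nat_lit 7) (.pd (.cons (nat_lit 1) (nat_lit 4) (nat_lit 0) (nat_lit 0x7387602200) (nat_lit 0xf423f61a7965b97b71aef423f000005b8cc515fe00000f423f) (.cons (nat_lit 2) (nat_lit 4) (nat_lit 0) (nat_lit 0x7387603000) (nat_lit 0xf423f61a7965b97b71aef423f000005b8cc00000f423fb71ae) (.cons (nat_lit 3) (nat_lit 4) (nat_lit 0) (nat_lit 0x7765500100) (nat_lit 0xf423ff423f7a11d7a11b7a1190000000000f423f54591437a2) .nil))) (.leaf (.cons (nat_lit 0x14054) (nat_lit 0x200010000000000000003000400030000) (.cons (nat_lit 0x45500) (nat_lit 0x1000000020003000400030000000000000000) (.cons (nat_lit 0x1501) (nat_lit 0x1000200020000000000000001) (.cons (nat_lit 0x515) (nat_lit 0x100010000000100010001) .nil)))) (.cons (nat_lit 0x110011) (nat_lit 0x1000100) (nat_lit 0x10) (nat_lit 0x10032) .nil))) (.non (nat_lit 1) (nat_lit 5) (nat_lit 0x95000) (nat_lit 0x1000100020001000000000000000000000000)))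 (.split (nat_lit 0xa) (nat_lit 0) (.split (nat_lit 0xa) (nat_lit 1) (.split (nat_lit 0xa) (nat_lit 2) (.split (nat_lit 0xa) (nat_lit 3) (.split (nat_lit 0xa) (nat_lit 4) (.split (nat_lit 0xa) (nat_lit 5) (.split (nat_lit 0xa) (nat_lit 6) (.split (nat_lit 0xa) (nat_lit 7) (.split (nat_lit 0xa) (nat_lit 8) (.split (nat_lit 0xa) (nat_lit 9) (.split (nat_lit 9) (nat_lit 7) (.par (nat_lit 0x155440) (nat_lit 0x10002000200030002000100000001000000000000)) (.non (nat_lit 1) (nat_lit 5) (nat_lit 0x95000) (nat_lit 0x1000100020001000000000000000000000000))) (.non (nat_lit 1) (nat_lit 5) (nat_lit 0x255000) (nat_lit 0x10002000100020001000000000000000000000000))) (.non (nat_lit 1) (nat_lit 5) (nat_lit 0x154000) (nat_lit 0x10001000100010000000000000000000000000000))) (.non (nat_lit 1) (nat_lit 5) (nat_lit 0x144000) (nat_lit 0x10001000000010000000000000000000000000000))) (.non (nat_lit 1) (nat_lit 5) (nat_lit 0x145000) (nat_lit 0x10001000000010001000000000000000000000000))) (.non (nat_lit 1) (nat_lit 6) (nat_lit 0x144500)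 (nat_lit 0x30002000000010000000400030000000000000000))) (.non (nat_lit 1) (nat_lit 5) (nat_lit 0x155150) (nat_lit 0x20003000300040002000000010002000100000000))) (.non (nat_lit 1) (nat_lit 5) (nat_lit 0x154040) (nat_lit 0x10001000100010000000000000001000000000000))) (.non (nat_lit 1) (nat_lit 5) (nat_lit 0x154050) (nat_lit 0x10001000100010000000000000001000100000000))) (.non (nat_lit 2) (nat_lit 5) (nat_lit 0x155145) (nat_lit 0x40005000400060003000000010002000000030002))) (.non (nat_lit 1) (nat_lit 5) (nat_lit 0x155051) (nat_lit 0x20003000300040002000000000002000100000001))))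

noncomputable def t761_38 : Tr := (.ex (nat_lit 6) (.ex (nat_lit 7) (.pd (.cons (nat_lit 0) (nat_lit 8) (nat_lit 0) (nat_lit 0x65442110) (nat_lit 0xf423fb71aea2c2804737f423fb71ae1f15600000) .nil) t761_36) (.split (nat_lit 9) (nat_lit 0) (.split (nat_lit 9) (nat_lit 1) (.split (nat_lit 9) (nat_lit 2) (.split (nat_lit 9) (nat_lit 3) (.split (nat_lit 9) (nat_lit 4) (.split (nat_lit 9) (nat_lit 5) (.split (nat_lit 9) (nat_lit 6) (.split (nat_lit 9) (nat_lit 8) (.st (nat_lit 7) (nat_lit 1) (nat_lit 5) (nat_lit 0x55000) (nat_lit 0x1000100020001000000000000000000000000) (nat_lit 1) (nat_lit 1) (.st (nat_lit 8) (nat_lit 1) (nat_lit 5) (nat_lit 0x55040) (nat_lit 0x1000200020001000000000001000000000000) (nat_lit 1) (nat_lit 1) (.split (nat_lit 8) (nat_lit 3) (.pd (.cons (nat_lit 0) (nat_lit 7) (nat_lit 0) (nat_lit 0x9305442110) (nat_lit 0xf423ff423f00000f423fb71ae1f156b71aea2c280473700000) .nil) t761_37) (.non (nat_lit 1) (nat_lit 5) (nat_lit 0xaa040) (nat_lit 0x1000200020001000000000002000000000000))))) (.non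 (nat_lit 1) (nat_lit 5) (nat_lit 0x54000) (nat_lit 0x1000100010000000000000000000000000000))) (.non (nat_lit 1) (nat_lit 5) (nat_lit 0x45000) (nat_lit 0x1000000010001000000000000000000000000))) (.non (nat_lit 1) (nat_lit 6) (nat_lit 0x54500) (nat_lit 0x3000100020000000400030000000000000000))) (.non (nat_lit 1) (nat_lit 5) (nat_lit 0x55151) (nat_lit 0x3000300040002000000020002000100000001))) (.non (nat_lit 1) (nat_lit 5) (nat_lit 0x54040) (nat_lit 0x1000100010000000000000001000000000000))) (.non (nat_lit 1) (nat_lit 5) (nat_lit 0x54050) (nat_lit 0x1000100010000000000000001000100000000))) (.non (nat_lit 2) (nat_lit 6) (nat_lit 0x40505) (nat_lit 0x1000000000000000300040000000000020003))) (.non (nat_lit 1) (nat_lit 5) (nat_lit 0x55151) (nat_lit 0x3000300040002000000010002000100000002)))) (.split (nat_lit 9) (nat_lit 0) (.split (nat_lit 9) (nat_lit 1) (.split (nat_lit 9) (nat_lit 2) (.split (nat_lit 9) (nat_lit 3) (.split (nat_lit 9) (nat_lit 4) (.split (nat_lit 9) (nat_lit 5) (.split (nat_lit 9) (nat_lit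 7) (.split (nat_lit 9) (nat_lit 8) (.sup (nat_lit 0x5000a00090002) (nat_lit 0x500000005000a000a00060000000000000000)) (.non (nat_lit 1) (nat_lit 5) (nat_lit 0x55000) (nat_lit 0x1000100010001000000000000000000000000))) (.non (nat_lit 1) (nat_lit 5) (nat_lit 0x45000) (nat_lit 0x1000000010001000000000000000000000000))) (.non (nat_lit 1) (nat_lit 6) (nat_lit 0x40501) (nat_lit 0x1000000000000000200020000000000000001))) (.non (nat_lit 1) (nat_lit 6) (nat_lit 0x40501) (nat_lit 0x1000000000000000200020000000000000001))) (.non (nat_lit 1) (nat_lit 5) (nat_lit 0x55040) (nat_lit 0x1000100010001000000000001000000000000))) (.star (nat_lit 9) (nat_lit 2) (nat_lit 6))) (.star (nat_lit 9) (nat_lit 1) (nat_lit 6))) (.non (nat_lit 2) (nat_lit 6) (nat_lit 0x40505) (nat_lit 0x1000000000000000200020000000000010002))))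

noncomputable def t761_39 : Tr := (.ex (nat_lit 2) (.split (nat_lit 4) (nat_lit 0) (.split (nat_lit 8) (nat_lit 7) (.pd (.cons (nat_lit 3) (nat_lit 5) (nat_lit 0) (nat_lit 0x766000100) (nat_lit 0xf423fb71aea2c2800000f423f00000f423f5459106711) .nil) (.ex (nat_lit 3) t761_38 (.split (nat_lit 9) (nat_lit 0) (.split (nat_lit 9) (nat_lit 1) (.split (nat_lit 9) (nat_lit 2) (.split (nat_lit 9) (nat_lit 4) (.split (nat_lit 9) (nat_lit 5) (.split (nat_lit 9) (nat_lit 6) (.split (nat_lit 9) (nat_lit 7) (.split (nat_lit 9) (nat_lit 8) (.sup (nat_lit 0x5000a00090000000000000002) (nat_lit 0x500050000000000000000000a000a00060000)) (.non (nat_lit 1) (nat_lit 5) (nat_lit 0x50040) (nat_lit 0x1000100000000000000000001000000000000))) (.non (nat_lit 1) (nat_lit 5) (nat_lit 0x54040) (nat_lit 0x1000100010000000000000001000000000000))) (.non (nat_lit 1) (nat_lit 5) (nat_lit 0x55040) (nat_lit 0x1000100010001000000000001000000000000))) (.non (nat_lit 1) (nat_lit 6) (nat_lit 0x50540) (nat_lit 0x3000100000000000400030002000000000000)))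 (.non (nat_lit 1) (nat_lit 5) (nat_lit 0x55151) (nat_lit 0x3000300020001000000020004000200000001))) (.non (nat_lit 1) (nat_lit 5) (nat_lit 0x40050) (nat_lit 0x1000000000000000000000001000100000000))) (.non (nat_lit 2) (nat_lit 6) (nat_lit 0x40505) (nat_lit 0x1000000000000000300040000000000020003))) (.non (nat_lit 1) (nat_lit 5) (nat_lit 0x55151) (nat_lit 0x3000300020001000000010004000200000002))))) (.non (nat_lit 1) (nat_lit 5) (nat_lit 0x1a050) (nat_lit 0x300020001000000000002000100000000))) (.non (nat_lit 1) (nat_lit 6) (nat_lit 0x501) (nat_lit 0x100010000000000000001))) (.split (nat_lit 9) (nat_lit 0) (.split (nat_lit 9) (nat_lit 1) (.split (nat_lit 9) (nat_lit 3) (.split (nat_lit 9) (nat_lit 4) (.split (nat_lit 9) (nat_lit 5) (.split (nat_lit 9) (nat_lit 6) (.split (nat_lit 9) (nat_lit 7) (.split (nat_lit 9) (nat_lit 8) (.sup (nat_lit 0x5000a00090000000000000002) (nat_lit 0x5000000000000000000000005000a00060000)) (.non (nat_lit 1) (nat_lit 5) (nat_lit 0x50050) (nat_lit 0x1000100000000000000000001000100000000)))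 (.non (nat_lit 1) (nat_lit 5) (nat_lit 0x54050) (nat_lit 0x1000100010000000000000001000100000000))) (.star (nat_lit 9) (nat_lit 2) (nat_lit 6))) (.star (nat_lit 9) (nat_lit 2) (nat_lit 5))) (.non (nat_lit 1) (nat_lit 6) (nat_lit 0x40550) (nat_lit 0x3000000000000000300040001000200000000))) (.non (nat_lit 1) (nat_lit 5) (nat_lit 0x40050) (nat_lit 0x1000000000000000000000001000100000000))) (.non (nat_lit 2) (nat_lit 6) (nat_lit 0x40505) (nat_lit 0x1000000000000000300040000000000020003))) (.non (nat_lit 1) (nat_lit 6) (nat_lit 0x40511) (nat_lit 0x2000000000000000300040000000100000003))))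

noncomputable def t761_40 : Tr := (.ex (nat_lit 8) (.split (nat_lit 8) (nat_lit 7) (.pd (.cons (nat_lit 1) (nat_lit 4) (nat_lit 0) (nat_lit 0x287602200) (nat_lit 0x98965a2c28b71aef423f00000f423f5572c00000f423f) (.cons (nat_lit 2) (nat_lit 4) (nat_lit 0) (nat_lit 0x765503000) (nat_lit 0xf423fb71aea2c289896500000f423f00000f423fb71ae) .nil)) (.leaf (.cons (nat_lit 0x15014) (nat_lit 0x300020001000000000000000400030000) (.cons (nat_lit 0x10054) (nat_lit 0x100000000000000000001000200020000) (.cons (nat_lit 0x10015) (nat_lit 0x100000000000000000000000200020001) .nil))) (.cons (nat_lit 0x111001100) (nat_lit 0x100010) (nat_lit 3) (nat_lit 0x234000100) (.cons (nat_lit 0x110001100) (nat_lit 0x1000010) (nat_lit 2) (nat_lit 0x230000100) .nil)))) (.non (nat_lit 1) (nat_lit 5) (nat_lit 0x1a050) (nat_lit 0x300020001000000000001000200000000))) (.split (nat_lit 9) (nat_lit 0) (.split (nat_lit 9) (nat_lit 1) (.split (nat_lit 9) (nat_lit 2) (.split (nat_lit 9) (nat_lit 3) (.split (nat_lit 9) (nat_lit 4) (.split (nat_lit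 9) (nat_lit 5) (.split (nat_lit 9) (nat_lit 6) (.split (nat_lit 9) (nat_lit 7) (.st (nat_lit 8) (nat_lit 1) (nat_lit 5) (nat_lit 0x54010) (nat_lit 0x1000200010000000000000000000100000000) (nat_lit 1) (nat_lit 1) (.split (nat_lit 8) (nat_lit 7) (.split (nat_lit 9) (nat_lit 8) (.pd (.cons (nat_lit 1) (nat_lit 4) (nat_lit 0) (nat_lit 0x8287602200) (nat_lit 0xf423f5b8d4a2c28b71aef423f00000f423f1457c00000f423f) (.cons (nat_lit 2) (nat_lit 4) (nat_lit 0) (nat_lit 0x8765503000) (nat_lit 0xf423fb71aea2c2898965927bd00000f423f00000f423fb71ae) .nil)) (.st (nat_lit 9) (nat_lit 1) (nat_lit 5) (nat_lit 0x55050) (nat_lit 0x2000300020001000000000001000200000000) (nat_lit 1) (nat_lit 1) (.leaf (.cons (nat_lit 0x54014) (nat_lit 0x1000200010000000000000000000200020000) (.cons (nat_lit 0x10054) (nat_lit 0x100000000000000000001000200020000) (.cons (nat_lit 0x10015) (nat_lit 0x100000000000000000000000200020001) .nil))) (.cons (nat_lit 0x1110001100) (nat_lit 0x1000010) (nat_lit 8) (nat_lit 0x2010004300) (.cons (nat_lit 0x1100001100)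 (nat_lit 0x10000010) (nat_lit 2) (nat_lit 0x3200000100) .nil))))) (.non (nat_lit 1) (nat_lit 5) (nat_lit 0x94010) (nat_lit 0x1000200010000000000000000000100000000))) (.non (nat_lit 1) (nat_lit 5) (nat_lit 0x58010) (nat_lit 0x1000200010000000000000000000100000000)))) (.non (nat_lit 1) (nat_lit 5) (nat_lit 0x54000) (nat_lit 0x1000100010000000000000000000000000000))) (.non (nat_lit 1) (nat_lit 5) (nat_lit 0x55000) (nat_lit 0x1000100010001000000000000000000000000))) (.non (nat_lit 1) (nat_lit 6) (nat_lit 0x54500) (nat_lit 0x3000200010000000400030000000000000000))) (.non (nat_lit 1) (nat_lit 5) (nat_lit 0x55150) (nat_lit 0x2000300020001000000010001000200000000))) (.non (nat_lit 1) (nat_lit 5) (nat_lit 0x50050) (nat_lit 0x1000100000000000000000001000100000000))) (.non (nat_lit 1) (nat_lit 5) (nat_lit 0x50010) (nat_lit 0x1000100000000000000000000000100000000))) (.non (nat_lit 0) (nat_lit 8) (nat_lit 0x40054) (nat_lit 0x1000000000000000000000001000200020000))) (.non (nat_lit 1) (nat_lit 5) (nat_lit 0x55051)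 (nat_lit 0x2000300020001000000000001000200000001))))

noncomputable def t761_41 : Tr := (.ex (nat_lit 7) (.pd (.cons (nat_lit 0) (nat_lit 8) (nat_lit 0) (nat_lit 0x65442110) (nat_lit 0xf423fb71aea2c2804737f423fb71ae1f15600000) (.cons (nat_lit 1) (nat_lit 8) (nat_lit 0) (nat_lit 0x65442200) (nat_lit 0xf423fb71aea2c2804737f423fb71ae00000f423f) (.cons (nat_lit 2) (nat_lit 8) (nat_lit 0) (nat_lit 0x65443000) (nat_lit 0xf423fb71aea2c2804737f423f00000f423fb71ae) (.cons (nat_lit 3) (nat_lit 8) (nat_lit 0) (nat_lit 0x65440100) (nat_lit 0xf423fb71aea2c280473700000f423f54591437a2) .nil)))) t761_40) (.split (nat_lit 9) (nat_lit 2) (.split (nat_lit 9) (nat_lit 3) (.split (nat_lit 9) (nat_lit 4) (.split (nat_lit 9) (nat_lit 5) (.split (nat_lit 9) (nat_lit 6) (.split (nat_lit 9) (nat_lit 8) (.split (nat_lit 9) (nat_lit 0) (.split (nat_lit 9) (nat_lit 1) (.unj (nat_lit 0x55) (nat_lit 0x1000200020001) (nat_lit 0x45500) (nat_lit 0x1000000020003000400030000000000000000)) (.st (nat_lit 7) (nat_lit 1) (nat_lit 5) (nat_lit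 0x55000) (nat_lit 0x1000100020001000000000000000000000000) (nat_lit 1) (nat_lit 1) (.st (nat_lit 8) (nat_lit 1) (nat_lit 5) (nat_lit 0x55010) (nat_lit 0x1000200020001000000000000000100000000) (nat_lit 1) (nat_lit 1) (.st (nat_lit 9) (nat_lit 2) (nat_lit 5) (nat_lit 0x55004) (nat_lit 0x2000100020001000000000000000000010000) (nat_lit 1) (nat_lit 1) (.split (nat_lit 8) (nat_lit 7) (.split (nat_lit 9) (nat_lit 7) (.split (nat_lit 9) (nat_lit 1) (.pd (.cons (nat_lit 1) (nat_lit 4) (nat_lit 0) (nat_lit 0x7287602200) (nat_lit 0xf423f61a7965b97b71aef423f00000f423f1e83b00000f423f) (.cons (nat_lit 2) (nat_lit 4) (nat_lit 0) (nat_lit 0x1797603000) (nat_lit 0x61a79f423f65b97b71aef423f00000f423f000005b8cc515fe) .nil)) (.leaf (.cons (nat_lit 0x50014) (nat_lit 0x1000100000000000000000000000200020000) (.cons (nat_lit 0x45500) (nat_lit 0x1000000020003000400030000000000000000) .nil)) .nil)) (.non (nat_lit 2) (nat_lit 5) (nat_lit 0xaa004) (nat_lit 0x2000100020001000000000000000000020000))) (.non (nat_lit 1) (nat_lit 5)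 (nat_lit 0x95000) (nat_lit 0x1000100020001000000000000000000000000))) (.non (nat_lit 1) (nat_lit 5) (nat_lit 0x65000) (nat_lit 0x1000100020001000000000000000000000000))))))) (.split (nat_lit 9) (nat_lit 1) (.sup (nat_lit 0x5000a00090002) (nat_lit 0x1000000040007000a00080000000000000000)) (.non (nat_lit 2) (nat_lit 5) (nat_lit 0x40005) (nat_lit 0x1000000000000000000000000000000010001)))) (.non (nat_lit 1) (nat_lit 5) (nat_lit 0x54000) (nat_lit 0x1000100010000000000000000000000000000))) (.non (nat_lit 1) (nat_lit 5) (nat_lit 0x45000) (nat_lit 0x1000000010001000000000000000000000000))) (.non (nat_lit 1) (nat_lit 6) (nat_lit 0x54500) (nat_lit 0x3000100020000000400030000000000000000))) (.non (nat_lit 1) (nat_lit 6) (nat_lit 0x54500) (nat_lit 0x3000100020000000300040000000000000000))) (.non (nat_lit 1) (nat_lit 5) (nat_lit 0x54050) (nat_lit 0x1000100010000000000000001000100000000))) (.non (nat_lit 1) (nat_lit 5) (nat_lit 0x54010) (nat_lit 0x1000100010000000000000000000100000000))))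

noncomputable def t761_42 : Tr := (.ex (nat_lit 5) (.ex (nat_lit 6) (.split (nat_lit 8) (nat_lit 2) (.pd (.cons (nat_lit 1) (nat_lit 7) (nat_lit 0) (nat_lit 0x205442200) (nat_lit 0xf423f00000f423fb71ae1f156f423f7a11d00000f423f) (.cons (nat_lit 2) (nat_lit 7) (nat_lit 0) (nat_lit 0x805443000) (nat_lit 0xf423f00000f423fb71ae1f156f423f00000f423fb71ae) .nil)) t761_41) (.non (nat_lit 1) (nat_lit 5) (nat_lit 0x2a050) (nat_lit 0x300020001000000000002000400000000))) (.split (nat_lit 9) (nat_lit 1) (.split (nat_lit 9) (nat_lit 2) (.split (nat_lit 9) (nat_lit 3) (.split (nat_lit 9) (nat_lit 7) (.split (nat_lit 9) (nat_lit 8) (.split (nat_lit 9) (nat_lit 0) (.split (nat_lit 9) (nat_lit 4) (.split (nat_lit 9) (nat_lit 5) (.unj (nat_lit 0x55) (nat_lit 0x1000200020001) (nat_lit 0x45500) (nat_lit 0x1000000010002000200020000000000000000)) (.unj (nat_lit 0x41400) (nat_lit 0x1000000000001000100000000000000000000) (nat_lit 0x55) (nat_lit 0x1000200020001))) (.split (nat_lit 9) (nat_lit 5) (.unj (nat_lit 0x55) (nat_lit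 0x1000200020001) (nat_lit 0x41500) (nat_lit 0x1000000000001000100010000000000000000)) (.non (nat_lit 1) (nat_lit 6) (nat_lit 0x40500) (nat_lit 0x1000000000000000100010000000000000000)))) (.split (nat_lit 9) (nat_lit 4) (.split (nat_lit 9) (nat_lit 5) (.sup (nat_lit 0x5000a00090002) (nat_lit 0x1000000030007000a00080000000000000000)) (.non (nat_lit 2) (nat_lit 6) (nat_lit 0x40505) (nat_lit 0x3000000000000000400030000000000010002))) (.non (nat_lit 2) (nat_lit 6) (nat_lit 0x40505) (nat_lit 0x3000000000000000300040000000000010002)))) (.non (nat_lit 1) (nat_lit 5) (nat_lit 0x55000) (nat_lit 0x1000100010001000000000000000000000000))) (.non (nat_lit 1) (nat_lit 5) (nat_lit 0x45000) (nat_lit 0x1000000010001000000000000000000000000))) (.non (nat_lit 1) (nat_lit 5) (nat_lit 0x55050) (nat_lit 0x1000100010001000000000001000100000000))) (.star (nat_lit 9) (nat_lit 2) (nat_lit 6))) (.star (nat_lit 9) (nat_lit 1) (nat_lit 6)))) (.split (nat_lit 9) (nat_lit 0) (.split (nat_lit 9) (nat_lit 1) (.split (nat_lit 9) (nat_lit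 2) (.split (nat_lit 9) (nat_lit 3) (.split (nat_lit 9) (nat_lit 4) (.split (nat_lit 9) (nat_lit 7) (.split (nat_lit 9) (nat_lit 8) (.split (nat_lit 9) (nat_lit 6) (.unj (nat_lit 0x55) (nat_lit 0x1000200020001) (nat_lit 0x41500) (nat_lit 0x1000000000001000200020000000000000000)) (.unj (nat_lit 0x41400) (nat_lit 0x1000000000001000100000000000000000000) (nat_lit 0x55) (nat_lit 0x1000200020001))) (.non (nat_lit 1) (nat_lit 6) (nat_lit 0x54500) (nat_lit 0x3000200010000000400030000000000000000))) (.non (nat_lit 1) (nat_lit 6) (nat_lit 0x54500) (nat_lit 0x3000100020000000400030000000000000000))) (.non (nat_lit 1) (nat_lit 6) (nat_lit 0x40500) (nat_lit 0x1000000000000000100010000000000000000))) (.non (nat_lit 1) (nat_lit 6) (nat_lit 0x40550) (nat_lit 0x3000000000000000400030002000100000000))) (.star (nat_lit 9) (nat_lit 2) (nat_lit 5))) (.star (nat_lit 9) (nat_lit 1) (nat_lit 5))) (.non (nat_lit 2) (nat_lit 6) (nat_lit 0x40505) (nat_lit 0x3000000000000000400030000000000010002))))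

noncomputable def t761_43 : Tr := (.ex (nat_lit 3) (.ex (nat_lit 4) t761_42 (.split (nat_lit 9) (nat_lit 0) (.split (nat_lit 9) (nat_lit 1) (.split (nat_lit 9) (nat_lit 2) (.split (nat_lit 9) (nat_lit 3) (.split (nat_lit 9) (nat_lit 5) (.split (nat_lit 9) (nat_lit 7) (.split (nat_lit 9) (nat_lit 8) (.split (nat_lit 9) (nat_lit 6) (.unj (nat_lit 0x55) (nat_lit 0x1000200020001) (nat_lit 0x41500) (nat_lit 0x1000000000001000200020000000000000000)) (.unj (nat_lit 0x55) (nat_lit 0x1000200020001) (nat_lit 0x41500) (nat_lit 0x1000000000001000100010000000000000000))) (.non (nat_lit 1) (nat_lit 5) (nat_lit 0x55150) (nat_lit 0x2000300020001000000010001000200000000))) (.non (nat_lit 1) (nat_lit 6) (nat_lit 0x54500) (nat_lit 0x3000100020000000300040000000000000000))) (.non (nat_lit 1) (nat_lit 6) (nat_lit 0x40500) (nat_lit 0x1000000000000000100010000000000000000))) (.non (nat_lit 1) (nat_lit 6) (nat_lit 0x40550) (nat_lit 0x3000000000000000300040002000100000000))) (.non (nat_lit 1) (nat_lit 6) (nat_lit 0x50510) (nat_lit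 0x3000100000000000300040000000200000000))) (.non (nat_lit 2) (nat_lit 6) (nat_lit 0x40505) (nat_lit 0x3000000000000000300040000000000020001))) (.non (nat_lit 2) (nat_lit 6) (nat_lit 0x40505) (nat_lit 0x3000000000000000300040000000000010002)))) (.split (nat_lit 9) (nat_lit 2) (.split (nat_lit 9) (nat_lit 4) (.split (nat_lit 9) (nat_lit 5) (.split (nat_lit 9) (nat_lit 6) (.split (nat_lit 9) (nat_lit 7) (.split (nat_lit 9) (nat_lit 8) (.split (nat_lit 9) (nat_lit 0) (.split (nat_lit 9) (nat_lit 1) (.split (nat_lit 9) (nat_lit 3) (.split (nat_lit 8) (nat_lit 2) (.sup (nat_lit 0x3000c00160020001a0000000000000000) (nat_lit 0x2000000000000000000000005000700070004)) (.non (nat_lit 1) (nat_lit 5) (nat_lit 0x68050) (nat_lit 0x1000200010000000000000002000300000000))) (.split (nat_lit 9) (nat_lit 3) (.split (nat_lit 8) (nat_lit 2) (.sup (nat_lit 0x20007000b0010000d0000000000000000) (nat_lit 0x2000000000000000000000003000300030001)) (.non (nat_lit 1) (nat_lit 5) (nat_lit 0xa0050) (nat_lit 0x1000100000000000000000002000200000000)))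 (.non (nat_lit 1) (nat_lit 5) (nat_lit 0x54050) (nat_lit 0x3000200010000000000000004000300000000)))) (.sup (nat_lit 0x90000000000000000000000080007000a0000) (nat_lit 0x100040007000a00080000000000000000))) (.split (nat_lit 9) (nat_lit 1) (.split (nat_lit 9) (nat_lit 0) (.split (nat_lit 9) (nat_lit 3) (.split (nat_lit 8) (nat_lit 2) (.sup (nat_lit 0x100030006000800060000000000000000) (nat_lit 0x1000000000000000000000001000100010001)) (.non (nat_lit 1) (nat_lit 5) (nat_lit 0x68050) (nat_lit 0x1000200010000000000000002000300000000))) (.non (nat_lit 1) (nat_lit 5) (nat_lit 0x600a1) (nat_lit 0x4000100000000000000000003000200000002))) (.sup (nat_lit 0x7000f00170020001a0000000000000000) (nat_lit 0x5000000000000000000000003000100030006))) (.non (nat_lit 2) (nat_lit 5) (nat_lit 0x40005) (nat_lit 0x1000000000000000000000000000000010001)))) (.non (nat_lit 1) (nat_lit 5) (nat_lit 0x50050) (nat_lit 0x1000100000000000000000001000100000000))) (.non (nat_lit 1) (nat_lit 5) (nat_lit 0x54050) (nat_lit 0x1000100010000000000000001000100000000)))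 (.non (nat_lit 1) (nat_lit 5) (nat_lit 0x55050) (nat_lit 0x1000100010001000000000001000100000000))) (.non (nat_lit 1) (nat_lit 6) (nat_lit 0x40550) (nat_lit 0x3000000000000000400030002000100000000))) (.non (nat_lit 1) (nat_lit 6) (nat_lit 0x40550) (nat_lit 0x3000000000000000300040002000100000000))) (.non (nat_lit 1) (nat_lit 5) (nat_lit 0x40050) (nat_lit 0x1000000000000000000000001000100000000))))

noncomputable def t761_44 : Tr := (.ex (nat_lit 6) (.split (nat_lit 8) (nat_lit 2) (.split (nat_lit 8) (nat_lit 7) (.split (nat_lit 9) (nat_lit 7) (.split (nat_lit 9) (nat_lit 1) (.pd (.cons (nat_lit 1) (nat_lit 4) (nat_lit 0) (nat_lit 0x7287602200) (nat_lit 0xf423f61a7965b97b71aef423f00000f423f1e83b00000f423f) (.cons (nat_lit 1) (nat_lit 7) (nat_lit 0) (nat_lit 0x9205442200) (nat_lit 0xf423ff423f00000f423fb71ae1f156f423f7a11d00000f423f) (.cons (nat_lit 2) (nat_lit 4) (nat_lit 0) (nat_lit 0x1797603000) (nat_lit 0x61a79f423f65b97b71aef423f00000f423f000005b8cc515fe) (.cons (nat_lit 2) (nat_lit 7) (nat_lit 0)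 (nat_lit 0x1805443000) (nat_lit 0xf423ff423f00000f423fb71ae1f156f423f00000b71aea2c28) .nil)))) (.leaf (.cons (nat_lit 0x50014) (nat_lit 0x1000100000000000000000000000200020000) (.cons (nat_lit 0x45500) (nat_lit 0x1000000020003000400030000000000000000) .nil)) .nil)) (.non (nat_lit 2) (nat_lit 5) (nat_lit 0xaa004) (nat_lit 0x2000100020001000000000000000000020000))) (.non (nat_lit 1) (nat_lit 5) (nat_lit 0x95000) (nat_lit 0x1000100020001000000000000000000000000))) (.non (nat_lit 1) (nat_lit 5) (nat_lit 0x65000) (nat_lit 0x1000100020001000000000000000000000000))) (.non (nat_lit 1) (nat_lit 5) (nat_lit 0xaa010) (nat_lit 0x1000200020001000000000000000200000000))) (.split (nat_lit 0xa) (nat_lit 0) (.split (nat_lit 0xa) (nat_lit 1) (.split (nat_lit 0xa) (nat_lit 2) (.split (nat_lit 0xa) (nat_lit 3) (.split (nat_lit 0xa) (nat_lit 4) (.split (nat_lit 0xa) (nat_lit 7) (.split (nat_lit 0xa) (nat_lit 8) (.split (nat_lit 0xa) (nat_lit 9) (.split (nat_lit 0xa) (nat_lit 5) (.unj (nat_lit 0x55) (nat_lit 0x1000200020001)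 (nat_lit 0x105500) (nat_lit 0x10000000000010002000200020000000000000000)) (.unj (nat_lit 0x101400) (nat_lit 0x10000000000000001000100000000000000000000) (nat_lit 0x55) (nat_lit 0x1000200020001))) (.non (nat_lit 1) (nat_lit 5) (nat_lit 0x145000) (nat_lit 0x10001000000010001000000000000000000000000))) (.non (nat_lit 1) (nat_lit 5) (nat_lit 0x115000) (nat_lit 0x10000000100010001000000000000000000000000))) (.non (nat_lit 1) (nat_lit 5) (nat_lit 0x105000) (nat_lit 0x10000000000010001000000000000000000000000))) (.non (nat_lit 1) (nat_lit 5) (nat_lit 0x155150) (nat_lit 0x20002000300040003000000010001000200000000))) (.non (nat_lit 1) (nat_lit 5) (nat_lit 0x115050) (nat_lit 0x10000000100010001000000000001000100000000))) (.star (nat_lit 0xa) (nat_lit 2) (nat_lit 6))) (.star (nat_lit 0xa) (nat_lit 1) (nat_lit 6))) (.non (nat_lit 1) (nat_lit 5) (nat_lit 0x155051) (nat_lit 0x20002000300040003000000000001000200000001))))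

noncomputable def t761_45 : Tr := (.ex (nat_lit 4) (.ex (nat_lit 5) t761_44 (.split (nat_lit 0xa) (nat_lit 0) (.split (nat_lit 0xa) (nat_lit 1) (.split (nat_lit 0xa) (nat_lit 2) (.split (nat_lit 0xa) (nat_lit 3) (.split (nat_lit 0xa) (nat_lit 4) (.split (nat_lit 0xa) (nat_lit 7) (.split (nat_lit 0xa) (nat_lit 8) (.split (nat_lit 0xa) (nat_lit 9) (.split (nat_lit 0xa) (nat_lit 6) (.unj (nat_lit 0x55) (nat_lit 0x1000200020001) (nat_lit 0x101500) (nat_lit 0x10000000000000001000200020000000000000000)) (.unj (nat_lit 0x101400) (nat_lit 0x10000000000000001000100000000000000000000) (nat_lit 0x55) (nat_lit 0x1000200020001))) (.non (nat_lit 1) (nat_lit 6) (nat_lit 0x144500) (nat_lit 0x30002000000010000000400030000000000000000))) (.non (nat_lit 1) (nat_lit 5) (nat_lit 0x155010) (nat_lit 0x10001000200020001000000000000000100000000))) (.non (nat_lit 1) (nat_lit 5) (nat_lit 0x155000) (nat_lit 0x10001000100020001000000000000000000000000))) (.non (nat_lit 1) (nat_lit 6) (nat_lit 0x100500) (nat_lit 0x10000000000000000000100010000000000000000)))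 (.non (nat_lit 1) (nat_lit 6) (nat_lit 0x100550) (nat_lit 0x30000000000000000000400030002000100000000))) (.star (nat_lit 0xa) (nat_lit 2) (nat_lit 5))) (.star (nat_lit 0xa) (nat_lit 1) (nat_lit 5))) (.non (nat_lit 2) (nat_lit 6) (nat_lit 0x100505) (nat_lit 0x30000000000000000000400030000000000010002)))) (.split (nat_lit 0xa) (nat_lit 0) (.split (nat_lit 0xa) (nat_lit 1) (.split (nat_lit 0xa) (nat_lit 2) (.split (nat_lit 0xa) (nat_lit 3) (.split (nat_lit 0xa) (nat_lit 5) (.split (nat_lit 0xa) (nat_lit 6) (.split (nat_lit 0xa) (nat_lit 7) (.split (nat_lit 0xa) (nat_lit 8) (.split (nat_lit 0xa) (nat_lit 9) (.unj (nat_lit 0x55) (nat_lit 0x1000200020001) (nat_lit 0x101500) (nat_lit 0x10000000000000001000200020000000000000000)) (.non (nat_lit 1) (nat_lit 5) (nat_lit 0x155150) (nat_lit 0x20003000300040002000000010001000200000000))) (.non (nat_lit 1) (nat_lit 5) (nat_lit 0x155010) (nat_lit 0x10001000200020001000000000000000100000000))) (.non (nat_lit 1) (nat_lit 5) (nat_lit 0x155000) (nat_lit 0x10001000100020001000000000000000000000000)))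 (.non (nat_lit 1) (nat_lit 5) (nat_lit 0x155150) (nat_lit 0x20002000300040003000000010001000200000000))) (.non (nat_lit 1) (nat_lit 6) (nat_lit 0x100500) (nat_lit 0x10000000000000000000100010000000000000000))) (.non (nat_lit 1) (nat_lit 6) (nat_lit 0x100550) (nat_lit 0x30000000000000000000300040002000100000000))) (.non (nat_lit 1) (nat_lit 5) (nat_lit 0x155050) (nat_lit 0x10001000200020001000000000001000200000000))) (.non (nat_lit 2) (nat_lit 5) (nat_lit 0x155005) (nat_lit 0x10002000100020001000000000000000000020001))) (.non (nat_lit 2) (nat_lit 6) (nat_lit 0x100505) (nat_lit 0x30000000000000000000300040000000000010002))))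

noncomputable def t761_46 : Tr := (.split (nat_lit 9) (nat_lit 5) (.split (nat_lit 9) (nat_lit 6) (.split (nat_lit 9) (nat_lit 2) (.split (nat_lit 9) (nat_lit 3) (.split (nat_lit 9) (nat_lit 7) (.split (nat_lit 9) (nat_lit 8) (.split (nat_lit 9) (nat_lit 1) (.split (nat_lit 8) (nat_lit 2) (.sup (nat_lit 0x50000000000000000000000000006000a0005) (nat_lit 0x100040007000a00080000000000000000)) (.non (nat_lit 1) (nat_lit 5) (nat_lit 0x2a050) (nat_lit 0x300020001000000000002000400000000))) (.sup (nat_lit 0x6000f00170020001a0000000000000000) (nat_lit 0x4000000000000000000000001000200060003))) (.split (nat_lit 9) (nat_lit 1) (.split (nat_lit 9) (nat_lit 8) (.split (nat_lit 8) (nat_lit 2) (.sup (nat_lit 0x10006000b0010000d0000000000000000) (nat_lit 0x1000000000000000000000001000200030002)) (.non (nat_lit 1) (nat_lit 5) (nat_lit 0xa8010) (nat_lit 0x1000200010000000000000000000200000000))) (.non (nat_lit 1) (nat_lit 5) (nat_lit 0x94010) (nat_lit 0x1000200010000000000000000000100000000))) (.non (nat_lit 2) (nat_lit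 5) (nat_lit 0xa8005) (nat_lit 0x3000200010000000000000000000000040002)))) (.split (nat_lit 9) (nat_lit 8) (.st (nat_lit 7) (nat_lit 1) (nat_lit 5) (nat_lit 0x55000) (nat_lit 0x1000100020001000000000000000000000000) (nat_lit 1) (nat_lit 1) (.st (nat_lit 8) (nat_lit 1) (nat_lit 5) (nat_lit 0x55010) (nat_lit 0x1000200020001000000000000000100000000) (nat_lit 1) (nat_lit 1) (.st (nat_lit 9) (nat_lit 2) (nat_lit 5) (nat_lit 0x55004) (nat_lit 0x2000100020001000000000000000000010000) (nat_lit 1) (nat_lit 1) t761_45))) (.non (nat_lit 1) (nat_lit 5) (nat_lit 0x54000) (nat_lit 0x1000100010000000000000000000000000000)))) (.split (nat_lit 9) (nat_lit 7) (.split (nat_lit 9) (nat_lit 8) (.sup (nat_lit 0x90000000000000000000000080007000a0000) (nat_lit 0x100040007000a00080000000000000000)) (.non (nat_lit 1) (nat_lit 5) (nat_lit 0x50050) (nat_lit 0x1000100000000000000000001000100000000))) (.non (nat_lit 1) (nat_lit 5) (nat_lit 0x54050) (nat_lit 0x1000100010000000000000001000100000000)))) (.split (nat_lit 9) (nat_lit 3)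 (.split (nat_lit 9) (nat_lit 7) (.split (nat_lit 9) (nat_lit 8) (.sup (nat_lit 0x90000000000000000000000000007000a0000) (nat_lit 0x100040007000a00080000000000000000)) (.non (nat_lit 1) (nat_lit 5) (nat_lit 0x50010) (nat_lit 0x1000100000000000000000000000100000000))) (.non (nat_lit 1) (nat_lit 5) (nat_lit 0x54010) (nat_lit 0x1000100010000000000000000000100000000))) (.non (nat_lit 1) (nat_lit 5) (nat_lit 0x40050) (nat_lit 0x1000000000000000000000001000100000000)))) (.star (nat_lit 9) (nat_lit 1) (nat_lit 6))) (.star (nat_lit 9) (nat_lit 1) (nat_lit 5)))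

noncomputable def t761_47 : Tr := (.split (nat_lit 9) (nat_lit 5) (.split (nat_lit 9) (nat_lit 8) (.split (nat_lit 9) (nat_lit 2) (.split (nat_lit 9) (nat_lit 3) (.split (nat_lit 9) (nat_lit 6) (.split (nat_lit 9) (nat_lit 7) (.split (nat_lit 9) (nat_lit 0) (.split (nat_lit 8) (nat_lit 2) (.sup (nat_lit 0x3000d00160020001a0000000000000000) (nat_lit 0x3000000000000000000000003000700080005)) (.non (nat_lit 1) (nat_lit 5) (nat_lit 0x2a050) (nat_lit 0x300020001000000000002000400000000))) (.split (nat_lit 9) (nat_lit 0) (.split (nat_lit 8) (nat_lit 2) (.sup (nat_lit 0x70000000000000000000000000006000a000a) (nat_lit 0x100040007000a00080000000000000000)) (.non (nat_lit 1) (nat_lit 5) (nat_lit 0x2a050) (nat_lit 0x300020001000000000002000400000000))) (.sup (nat_lit 0x800000000000000000000000000020007000a) (nat_lit 0x100040007000a00080000000000000000)))) (.sup (nat_lit 0x5000a00090002) (nat_lit 0x1000000040007000a00080000000000000000))) (.split (nat_lit 9) (nat_lit 7) (.sup (nat_lit 0x5000a00090002) (nat_lit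 0x1000000030007000a00080000000000000000)) (.non (nat_lit 1) (nat_lit 5) (nat_lit 0x45000) (nat_lit 0x1000000010001000000000000000000000000)))) (.split (nat_lit 9) (nat_lit 6) (.split (nat_lit 9) (nat_lit 7) (.split (nat_lit 9) (nat_lit 0) (.split (nat_lit 9) (nat_lit 3) (.split (nat_lit 8) (nat_lit 2) (.sup (nat_lit 0x100030006000800060000000000000000) (nat_lit 0x1000000000000000000000001000100010001)) (.non (nat_lit 1) (nat_lit 5) (nat_lit 0x68050) (nat_lit 0x1000200010000000000000002000300000000))) (.non (nat_lit 1) (nat_lit 5) (nat_lit 0x600a1) (nat_lit 0x4000100000000000000000003000200000002))) (.sup (nat_lit 0x7000f00170020001a0000000000000000) (nat_lit 0x5000000000000000000000003000100030006))) (.non (nat_lit 1) (nat_lit 5) (nat_lit 0x54050) (nat_lit 0x1000100010000000000000001000100000000))) (.non (nat_lit 1) (nat_lit 5) (nat_lit 0x55050) (nat_lit 0x1000100010001000000000001000100000000)))) (.split (nat_lit 9) (nat_lit 3) (.split (nat_lit 9) (nat_lit 6) (.split (nat_lit 9) (nat_lit 7) (.sup (nat_lit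 0x80000000000000000000000000007000a0009) (nat_lit 0x100040007000a00080000000000000000)) (.non (nat_lit 1) (nat_lit 5) (nat_lit 0x54010) (nat_lit 0x1000100010000000000000000000100000000))) (.star (nat_lit 9) (nat_lit 2) (nat_lit 6))) (.non (nat_lit 1) (nat_lit 5) (nat_lit 0x40050) (nat_lit 0x1000000000000000000000001000100000000)))) (.non (nat_lit 1) (nat_lit 5) (nat_lit 0x55051) (nat_lit 0x2000300020001000000000001000200000001))) (.non (nat_lit 2) (nat_lit 6) (nat_lit 0x40505) (nat_lit 0x3000000000000000400030000000000010002)))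

noncomputable def t761_48 : Tr := (.ex (nat_lit 5) (.ex (nat_lit 6) (.split (nat_lit 7) (nat_lit 0) (.split (nat_lit 8) (nat_lit 2) (.split (nat_lit 8) (nat_lit 7) (.pd (.cons (nat_lit 0) (nat_lit 8) (nat_lit 0) (nat_lit 0x65442110) (nat_lit 0xf423fb71aea2c2804737f423fb71ae1f15600000) (.cons (nat_lit 1) (nat_lit 4) (nat_lit 0) (nat_lit 0x707602800) (nat_lit 0xa2c284734eb71aef423f00000f423fb71ae0000022dfa) (.cons (nat_lit 1) (nat_lit 7) (nat_lit 0) (nat_lit 0x205442200) (nat_lit 0xf423f00000f423fb71ae1f156f423f7a11d00000f423f) (.cons (nat_lit 2) (nat_lit 4) (nat_lit 0) (nat_lit 0x707603000) (nat_lit 0xf423f65b97b71aef423f00000f423f00000f423f249e8) (.cons (nat_lit 2) (nat_lit 7) (nat_lit 0) (nat_lit 0x805443000) (nat_lit 0xf423f00000f423fb71ae1f156f423f00000f423fb71ae) .nil))))) (.leaf (.cons (nat_lit 0x15014) (nat_lit 0x300020001000000000000000400030000) (.cons (nat_lit 0x10054) (nat_lit 0x100000000000000000001000200020000) (.cons (nat_lit 0x5501) (nat_lit 0x20003000400030000000000000001) (.cons (nat_lit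 0x10015) (nat_lit 0x100000000000000000000000200020001) .nil)))) .nil)) (.non (nat_lit 1) (nat_lit 5) (nat_lit 0x1a050) (nat_lit 0x300020001000000000001000200000000))) (.non (nat_lit 1) (nat_lit 5) (nat_lit 0x2a050) (nat_lit 0x300020001000000000002000400000000))) (.non (nat_lit 1) (nat_lit 5) (nat_lit 0x2a001) (nat_lit 0x100020001000000000000000000000002))) (.split (nat_lit 9) (nat_lit 0) (.split (nat_lit 9) (nat_lit 1) (.split (nat_lit 9) (nat_lit 2) (.split (nat_lit 9) (nat_lit 3) (.split (nat_lit 9) (nat_lit 4) (.split (nat_lit 9) (nat_lit 7) (.split (nat_lit 9) (nat_lit 8) (.split (nat_lit 9) (nat_lit 5) (.sup (nat_lit 0x5000a00090002) (nat_lit 0x3000000010007000a00080000000000000000)) (.unj (nat_lit 0x41400) (nat_lit 0x1000000000001000100000000000000000000) (nat_lit 0x55) (nat_lit 0x1000200020001))) (.non (nat_lit 1) (nat_lit 5) (nat_lit 0x55000) (nat_lit 0x1000100010001000000000000000000000000))) (.non (nat_lit 1) (nat_lit 5) (nat_lit 0x45000) (nat_lit 0x1000000010001000000000000000000000000)))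 (.non (nat_lit 1) (nat_lit 5) (nat_lit 0x55151) (nat_lit 0x2000300040003000000010001000200000002))) (.non (nat_lit 1) (nat_lit 5) (nat_lit 0x55050) (nat_lit 0x1000100010001000000000001000100000000))) (.star (nat_lit 9) (nat_lit 2) (nat_lit 6))) (.star (nat_lit 9) (nat_lit 1) (nat_lit 6))) (.non (nat_lit 1) (nat_lit 5) (nat_lit 0x45001) (nat_lit 0x1000000010001000000000000000000000001)))) (.split (nat_lit 9) (nat_lit 0) (.split (nat_lit 9) (nat_lit 1) (.split (nat_lit 9) (nat_lit 2) (.split (nat_lit 9) (nat_lit 3) (.split (nat_lit 9) (nat_lit 4) (.split (nat_lit 9) (nat_lit 7) (.split (nat_lit 9) (nat_lit 8) (.split (nat_lit 9) (nat_lit 6) (.unj (nat_lit 0x55) (nat_lit 0x1000200020001) (nat_lit 0x41500) (nat_lit 0x1000000000001000200020000000000000000)) (.unj (nat_lit 0x41400) (nat_lit 0x1000000000001000100000000000000000000) (nat_lit 0x55) (nat_lit 0x1000200020001))) (.non (nat_lit 1) (nat_lit 5) (nat_lit 0x55011) (nat_lit 0x1000200020001000000000000000100000001))) (.non (nat_lit 1) (nat_lit 5) (nat_lit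 0x55001) (nat_lit 0x1000100020001000000000000000000000001))) (.non (nat_lit 1) (nat_lit 6) (nat_lit 0x40500) (nat_lit 0x1000000000000000100010000000000000000))) (.non (nat_lit 1) (nat_lit 6) (nat_lit 0x40550) (nat_lit 0x3000000000000000400030002000100000000))) (.star (nat_lit 9) (nat_lit 2) (nat_lit 5))) (.star (nat_lit 9) (nat_lit 1) (nat_lit 5))) (.non (nat_lit 1) (nat_lit 6) (nat_lit 0x44501) (nat_lit 0x3000000010000000400030000000000000002))))

noncomputable def t761_49 : Tr := (.ex (nat_lit 6) (.split (nat_lit 7) (nat_lit 0) (.split (nat_lit 8) (nat_lit 2) (.split (nat_lit 9) (nat_lit 3) (.split (nat_lit 8) (nat_lit 7) (.pd (.cons (nat_lit 1) (nat_lit 4) (nat_lit 0) (nat_lit 0x3707602800) (nat_lit 0xf423f98965411a6b71aef423f00000b71aea2c28000000f412) (.cons (nat_lit 1) (nat_lit 7) (nat_lit 0) (nat_lit 0x3205442200) (nat_lit 0xf423ff423f00000f423fb71ae1f156b71ae65b9700000f423f) (.cons (nat_lit 2) (nat_lit 4) (nat_lit 0) (nat_lit 0x3707603000) (nat_lit 0xf423ff423f65b97b71aef423f00000b71ae00000f423f249e8)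 (.cons (nat_lit 2) (nat_lit 7) (nat_lit 0) (nat_lit 0x3805443000) (nat_lit 0xf423ff423f00000f423fb71ae1f156b71ae00000f423fb71ae) .nil)))) (.st (nat_lit 9) (nat_lit 1) (nat_lit 4) (nat_lit 0x55451) (nat_lit 0x2000500060004000200000003000400000003) (nat_lit 1) (nat_lit 1) (.pd (.cons (nat_lit 0) (nat_lit 8) (nat_lit 0) (nat_lit 0x3065442110) (nat_lit 0xf423f00000f423fb71aea2c2804737b71aea2c280473700000) .nil) (.leaf (.cons (nat_lit 0x15014) (nat_lit 0x300020001000000000000000400030000) (.cons (nat_lit 0x10054) (nat_lit 0x100000000000000000001000200020000) (.cons (nat_lit 0x5501) (nat_lit 0x20003000400030000000000000001) (.cons (nat_lit 0x10015) (nat_lit 0x100000000000000000000000200020001) .nil)))) .nil)))) (.non (nat_lit 1) (nat_lit 5) (nat_lit 0x1a050) (nat_lit 0x300020001000000000001000200000000))) (.non (nat_lit 1) (nat_lit 5) (nat_lit 0x95051) (nat_lit 0x1000200020001000000000002000200000001))) (.non (nat_lit 1) (nat_lit 5) (nat_lit 0x68050) (nat_lit 0x1000200010000000000000002000300000000))) (.non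 (nat_lit 1) (nat_lit 5) (nat_lit 0x2a001) (nat_lit 0x100020001000000000000000000000002))) (.split (nat_lit 0xa) (nat_lit 0) (.split (nat_lit 0xa) (nat_lit 1) (.split (nat_lit 0xa) (nat_lit 2) (.split (nat_lit 0xa) (nat_lit 3) (.split (nat_lit 0xa) (nat_lit 4) (.split (nat_lit 0xa) (nat_lit 7) (.split (nat_lit 0xa) (nat_lit 8) (.split (nat_lit 0xa) (nat_lit 9) (.split (nat_lit 0xa) (nat_lit 5) (.sup (nat_lit 0x5000a00090002) (nat_lit 0x30000000000010007000a00080000000000000000)) (.unj (nat_lit 0x101400) (nat_lit 0x10000000000000001000100000000000000000000) (nat_lit 0x55) (nat_lit 0x1000200020001))) (.non (nat_lit 1) (nat_lit 5) (nat_lit 0x155050) (nat_lit 0x10001000100010001000000000001000100000000))) (.non (nat_lit 1) (nat_lit 5) (nat_lit 0x115000) (nat_lit 0x10000000100010001000000000000000000000000))) (.non (nat_lit 1) (nat_lit 5) (nat_lit 0x105000) (nat_lit 0x10000000000010001000000000000000000000000))) (.non (nat_lit 1) (nat_lit 5) (nat_lit 0x115151) (nat_lit 0x20000000300040003000000010001000200000002)))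 (.non (nat_lit 1) (nat_lit 5) (nat_lit 0x115050) (nat_lit 0x10000000100010001000000000001000100000000))) (.star (nat_lit 0xa) (nat_lit 2) (nat_lit 6))) (.star (nat_lit 0xa) (nat_lit 1) (nat_lit 6))) (.non (nat_lit 1) (nat_lit 5) (nat_lit 0x105001) (nat_lit 0x10000000000010001000000000000000000000001))))

noncomputable def t761_50 : Tr := (.ex (nat_lit 4) (.ex (nat_lit 5) t761_49 (.split (nat_lit 0xa) (nat_lit 0) (.split (nat_lit 0xa) (nat_lit 1) (.split (nat_lit 0xa) (nat_lit 2) (.split (nat_lit 0xa) (nat_lit 3) (.split (nat_lit 0xa) (nat_lit 4) (.split (nat_lit 0xa) (nat_lit 7) (.split (nat_lit 0xa) (nat_lit 8) (.split (nat_lit 0xa) (nat_lit 9) (.split (nat_lit 0xa) (nat_lit 6) (.unj (nat_lit 0x55) (nat_lit 0x1000200020001) (nat_lit 0x101500) (nat_lit 0x10000000000000001000200020000000000000000)) (.unj (nat_lit 0x101400) (nat_lit 0x10000000000000001000100000000000000000000) (nat_lit 0x55) (nat_lit 0x1000200020001))) (.non (nat_lit 1) (nat_lit 6) (nat_lit 0x140540) (nat_lit 0x30002000000000000000400030001000000000000)))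 (.non (nat_lit 1) (nat_lit 5) (nat_lit 0x115011) (nat_lit 0x10000000200020001000000000000000100000001))) (.non (nat_lit 1) (nat_lit 5) (nat_lit 0x115001) (nat_lit 0x10000000100020001000000000000000000000001))) (.non (nat_lit 1) (nat_lit 6) (nat_lit 0x100500) (nat_lit 0x10000000000000000000100010000000000000000))) (.non (nat_lit 1) (nat_lit 5) (nat_lit 0x155051) (nat_lit 0x10001000200020001000000000002000200000001))) (.star (nat_lit 0xa) (nat_lit 2) (nat_lit 5))) (.star (nat_lit 0xa) (nat_lit 1) (nat_lit 5))) (.non (nat_lit 1) (nat_lit 6) (nat_lit 0x104501) (nat_lit 0x30000000000010000000400030000000000000002)))) (.split (nat_lit 0xa) (nat_lit 0) (.split (nat_lit 0xa) (nat_lit 1) (.split (nat_lit 0xa) (nat_lit 2) (.split (nat_lit 0xa) (nat_lit 3) (.split (nat_lit 0xa) (nat_lit 5) (.split (nat_lit 0xa) (nat_lit 6) (.split (nat_lit 0xa) (nat_lit 7) (.split (nat_lit 0xa) (nat_lit 8) (.split (nat_lit 0xa) (nat_lit 9) (.unj (nat_lit 0x55) (nat_lit 0x1000200020001) (nat_lit 0x101500) (nat_lit 0x10000000000000001000200020000000000000000))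 (.non (nat_lit 1) (nat_lit 6) (nat_lit 0x140540) (nat_lit 0x30002000000000000000300040001000000000000))) (.non (nat_lit 1) (nat_lit 5) (nat_lit 0x115150) (nat_lit 0x20000000300020001000000010001000200000000))) (.non (nat_lit 1) (nat_lit 5) (nat_lit 0x115001) (nat_lit 0x10000000100020001000000000000000000000001))) (.non (nat_lit 1) (nat_lit 5) (nat_lit 0x115151) (nat_lit 0x20000000300040003000000010001000200000002))) (.non (nat_lit 1) (nat_lit 6) (nat_lit 0x100500) (nat_lit 0x10000000000000000000100010000000000000000))) (.non (nat_lit 1) (nat_lit 5) (nat_lit 0x155051) (nat_lit 0x10001000200020001000000000002000200000001))) (.non (nat_lit 1) (nat_lit 5) (nat_lit 0x154150) (nat_lit 0x20001000200010000000000010002000300000000))) (.non (nat_lit 2) (nat_lit 6) (nat_lit 0x100505) (nat_lit 0x30000000000000000000300040000000000020001))) (.non (nat_lit 1) (nat_lit 5) (nat_lit 0x115151) (nat_lit 0x20000000300040002000000010001000200000003))))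

noncomputable def t761_51 : Tr := (.ex (nat_lit 6) (.split (nat_lit 7) (nat_lit 0) (.split (nat_lit 8) (nat_lit 2) (.split (nat_lit 8) (nat_lit 7) (.split (nat_lit 9) (nat_lit 1) (.pd (.cons (nat_lit 1) (nat_lit 4) (nat_lit 0) (nat_lit 0x9707602800) (nat_lit 0xf423fa2c284734eb71aef423f00000f423fb71ae0000022dfa) (.cons (nat_lit 1) (nat_lit 7) (nat_lit 0) (nat_lit 0x9205442200) (nat_lit 0xf423ff423f00000f423fb71ae1f156f423f7a11d00000f423f) (.cons (nat_lit 2) (nat_lit 4) (nat_lit 0) (nat_lit 0x1707603000) (nat_lit 0xf423ff423f65b97b71aef423f00000f423f00000b71ae10462) (.cons (nat_lit 2) (nat_lit 7) (nat_lit 0) (nat_lit 0x1805443000) (nat_lit 0xf423ff423f00000f423fb71ae1f156f423f00000b71aea2c28) .nil)))) (.leaf (.cons (nat_lit 0x50014) (nat_lit 0x1000100000000000000000000000200020000) (.cons (nat_lit 0x40054) (nat_lit 0x1000000000000000000000001000200020000) (.cons (nat_lit 0x5501) (nat_lit 0x20003000400030000000000000001) .nil))) .nil)) (.non (nat_lit 2) (nat_lit 5) (nat_lit 0x95005) (nat_lit 0x1000100020001000000000000000000020002)))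 (.non (nat_lit 1) (nat_lit 5) (nat_lit 0x1a050) (nat_lit 0x300020001000000000001000200000000))) (.non (nat_lit 1) (nat_lit 5) (nat_lit 0x2a050) (nat_lit 0x300020001000000000002000400000000))) (.non (nat_lit 1) (nat_lit 5) (nat_lit 0x2a001) (nat_lit 0x100020001000000000000000000000002))) (.split (nat_lit 0xa) (nat_lit 0) (.split (nat_lit 0xa) (nat_lit 1) (.split (nat_lit 0xa) (nat_lit 2) (.split (nat_lit 0xa) (nat_lit 3) (.split (nat_lit 0xa) (nat_lit 4) (.split (nat_lit 0xa) (nat_lit 7) (.split (nat_lit 0xa) (nat_lit 8) (.split (nat_lit 0xa) (nat_lit 9) (.split (nat_lit 0xa) (nat_lit 5) (.unj (nat_lit 0x40054) (nat_lit 0x1000000000000000000000001000200020000) (nat_lit 0x105500) (nat_lit 0x10000000000010002000200020000000000000000)) (.unj (nat_lit 0x101400) (nat_lit 0x10000000000000001000100000000000000000000) (nat_lit 0x55) (nat_lit 0x1000200020001))) (.non (nat_lit 1) (nat_lit 5) (nat_lit 0x155051) (nat_lit 0x20001000300040003000000000001000200000002))) (.non (nat_lit 1) (nat_lit 5) (nat_lit 0x115000)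 (nat_lit 0x10000000100010001000000000000000000000000))) (.non (nat_lit 1) (nat_lit 5) (nat_lit 0x105000) (nat_lit 0x10000000000010001000000000000000000000000))) (.non (nat_lit 1) (nat_lit 5) (nat_lit 0x115151) (nat_lit 0x20000000300040003000000010001000200000002))) (.non (nat_lit 1) (nat_lit 5) (nat_lit 0x115050) (nat_lit 0x10000000100010001000000000001000100000000))) (.star (nat_lit 0xa) (nat_lit 2) (nat_lit 6))) (.star (nat_lit 0xa) (nat_lit 1) (nat_lit 6))) (.non (nat_lit 1) (nat_lit 5) (nat_lit 0x105001) (nat_lit 0x10000000000010001000000000000000000000001))))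

noncomputable def t761_52 : Tr := (.ex (nat_lit 4) (.ex (nat_lit 5) t761_51 (.split (nat_lit 0xa) (nat_lit 0) (.split (nat_lit 0xa) (nat_lit 1) (.split (nat_lit 0xa) (nat_lit 2) (.split (nat_lit 0xa) (nat_lit 3) (.split (nat_lit 0xa) (nat_lit 4) (.split (nat_lit 0xa) (nat_lit 7) (.split (nat_lit 0xa) (nat_lit 8) (.split (nat_lit 0xa) (nat_lit 9) (.split (nat_lit 0xa) (nat_lit 6) (.unj (nat_lit 0x55) (nat_lit 0x1000200020001) (nat_lit 0x101500) (nat_lit 0x10000000000000001000200020000000000000000)) (.unj (nat_lit 0x101400) (nat_lit 0x10000000000000001000100000000000000000000) (nat_lit 0x55) (nat_lit 0x1000200020001))) (.non (nat_lit 2) (nat_lit 6) (nat_lit 0x140504) (nat_lit 0x30002000000000000000400030000000000010000))) (.non (nat_lit 1) (nat_lit 5) (nat_lit 0x115011) (nat_lit 0x10000000200020001000000000000000100000001))) (.non (nat_lit 1) (nat_lit 5) (nat_lit 0x115001) (nat_lit 0x10000000100020001000000000000000000000001))) (.non (nat_lit 1) (nat_lit 6) (nat_lit 0x100500) (nat_lit 0x10000000000000000000100010000000000000000)))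 (.non (nat_lit 1) (nat_lit 6) (nat_lit 0x100550) (nat_lit 0x30000000000000000000400030002000100000000))) (.star (nat_lit 0xa) (nat_lit 2) (nat_lit 5))) (.star (nat_lit 0xa) (nat_lit 1) (nat_lit 5))) (.non (nat_lit 1) (nat_lit 6) (nat_lit 0x104501) (nat_lit 0x30000000000010000000400030000000000000002)))) (.split (nat_lit 0xa) (nat_lit 0) (.split (nat_lit 0xa) (nat_lit 1) (.split (nat_lit 0xa) (nat_lit 2) (.split (nat_lit 0xa) (nat_lit 3) (.split (nat_lit 0xa) (nat_lit 5) (.split (nat_lit 0xa) (nat_lit 6) (.split (nat_lit 0xa) (nat_lit 7) (.split (nat_lit 0xa) (nat_lit 8) (.split (nat_lit 0xa) (nat_lit 9) (.unj (nat_lit 0x55) (nat_lit 0x1000200020001) (nat_lit 0x101500) (nat_lit 0x10000000000000001000200020000000000000000)) (.non (nat_lit 2) (nat_lit 6) (nat_lit 0x140504) (nat_lit 0x30002000000000000000300040000000000010000))) (.non (nat_lit 1) (nat_lit 5) (nat_lit 0x115150) (nat_lit 0x20000000300020001000000010001000200000000))) (.non (nat_lit 1) (nat_lit 5) (nat_lit 0x115001) (nat_lit 0x10000000100020001000000000000000000000001)))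 (.non (nat_lit 1) (nat_lit 5) (nat_lit 0x115151) (nat_lit 0x20000000300040003000000010001000200000002))) (.non (nat_lit 1) (nat_lit 6) (nat_lit 0x100500) (nat_lit 0x10000000000000000000100010000000000000000))) (.non (nat_lit 1) (nat_lit 6) (nat_lit 0x100550) (nat_lit 0x30000000000000000000300040002000100000000))) (.non (nat_lit 1) (nat_lit 5) (nat_lit 0x115051) (nat_lit 0x10000000200020001000000000001000200000001))) (.non (nat_lit 2) (nat_lit 5) (nat_lit 0x155005) (nat_lit 0x10001000100020001000000000000000000020002))) (.non (nat_lit 1) (nat_lit 5) (nat_lit 0x115151) (nat_lit 0x20000000300040002000000010001000200000003))))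

noncomputable def t761_53 : Tr := (.ex (nat_lit 1) (.ex (nat_lit 3) (.ex (nat_lit 4) t761_48 (.split (nat_lit 9) (nat_lit 0) (.split (nat_lit 9) (nat_lit 1) (.split (nat_lit 9) (nat_lit 2) (.split (nat_lit 9) (nat_lit 3) (.split (nat_lit 9) (nat_lit 5) (.split (nat_lit 9) (nat_lit 6) (.split (nat_lit 9) (nat_lit 7) (.split (nat_lit 9) (nat_lit 8) (.unj (nat_lit 0x55) (nat_lit 0x1000200020001) (nat_lit 0x41500) (nat_lit 0x1000000000001000200020000000000000000)) (.non (nat_lit 1) (nat_lit 5) (nat_lit 0x55150) (nat_lit 0x2000300020001000000010001000200000000))) (.non (nat_lit 1) (nat_lit 5) (nat_lit 0x55001) (nat_lit 0x1000100020001000000000000000000000001))) (.non (nat_lit 1) (nat_lit 5) (nat_lit 0x55151) (nat_lit 0x2000300040003000000010001000200000002))) (.non (nat_lit 1) (nat_lit 6) (nat_lit 0x40500) (nat_lit 0x1000000000000000100010000000000000000))) (.non (nat_lit 1) (nat_lit 6) (nat_lit 0x40550) (nat_lit 0x3000000000000000300040002000100000000))) (.non (nat_lit 1) (nat_lit 5) (nat_lit 0x55051) (nat_lit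 0x1000200020001000000000001000200000001))) (.non (nat_lit 2) (nat_lit 6) (nat_lit 0x40505) (nat_lit 0x3000000000000000300040000000000020001))) (.non (nat_lit 1) (nat_lit 5) (nat_lit 0x55151) (nat_lit 0x2000300040002000000010001000200000003)))) (.split (nat_lit 9) (nat_lit 0) (.split (nat_lit 9) (nat_lit 2) (.split (nat_lit 9) (nat_lit 4) (.split (nat_lit 9) (nat_lit 5) (.split (nat_lit 9) (nat_lit 6) (.split (nat_lit 9) (nat_lit 7) (.split (nat_lit 9) (nat_lit 8) (.split (nat_lit 9) (nat_lit 1) (.st (nat_lit 3) (nat_lit 1) (nat_lit 5) (nat_lit 0x55051) (nat_lit 0x1000200020001000000000002000200000001) (nat_lit 1) (nat_lit 1) t761_50) (.sup (nat_lit 0x4000000000000000000000004000500030000) (nat_lit 0x20003000500040000000000000001))) (.non (nat_lit 1) (nat_lit 5) (nat_lit 0x50050) (nat_lit 0x1000100000000000000000001000100000000))) (.non (nat_lit 1) (nat_lit 5) (nat_lit 0x54050) (nat_lit 0x1000100010000000000000001000100000000))) (.non (nat_lit 1) (nat_lit 5) (nat_lit 0x55050) (nat_lit 0x1000100010001000000000001000100000000)))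 (.non (nat_lit 1) (nat_lit 6) (nat_lit 0x40550) (nat_lit 0x3000000000000000400030002000100000000))) (.non (nat_lit 1) (nat_lit 6) (nat_lit 0x40550) (nat_lit 0x3000000000000000300040002000100000000))) (.non (nat_lit 1) (nat_lit 5) (nat_lit 0x40050) (nat_lit 0x1000000000000000000000001000100000000))) (.non (nat_lit 1) (nat_lit 5) (nat_lit 0x54051) (nat_lit 0x1000100010000000000000001000100000001)))) (.split (nat_lit 9) (nat_lit 0) (.split (nat_lit 9) (nat_lit 2) (.split (nat_lit 9) (nat_lit 4) (.split (nat_lit 9) (nat_lit 5) (.split (nat_lit 9) (nat_lit 6) (.split (nat_lit 9) (nat_lit 7) (.split (nat_lit 9) (nat_lit 8) (.split (nat_lit 9) (nat_lit 3) t761_52 (.sup (nat_lit 0x4000000000000000000000004000500030000) (nat_lit 0x20003000500040000000000000001))) (.non (nat_lit 1) (nat_lit 5) (nat_lit 0x55011) (nat_lit 0x1000200020001000000000000000100000001))) (.non (nat_lit 1) (nat_lit 5) (nat_lit 0x55001) (nat_lit 0x1000100020001000000000000000000000001))) (.star (nat_lit 9) (nat_lit 1) (nat_lit 6))) (.star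 (nat_lit 9) (nat_lit 1) (nat_lit 5))) (.non (nat_lit 2) (nat_lit 6) (nat_lit 0x40505) (nat_lit 0x3000000000000000300040000000000020001))) (.non (nat_lit 1) (nat_lit 5) (nat_lit 0x55051) (nat_lit 0x1000200020001000000000001000200000001))) (.non (nat_lit 2) (nat_lit 5) (nat_lit 0x40005) (nat_lit 0x1000000000000000000000000000000010001))))

noncomputable def t761_54 : Tr := (.split (nat_lit 7) (nat_lit 0) (.split (nat_lit 4) (nat_lit 0) (.ex (nat_lit 0) (.ex (nat_lit 1) (.ex (nat_lit 2) t761_43 (.split (nat_lit 9) (nat_lit 3) (.split (nat_lit 9) (nat_lit 4) (.split (nat_lit 9) (nat_lit 5) (.split (nat_lit 9) (nat_lit 6) (.split (nat_lit 9) (nat_lit 7) (.split (nat_lit 9) (nat_lit 8) (.split (nat_lit 9) (nat_lit 0) (.split (nat_lit 9) (nat_lit 1) (.split (nat_lit 9) (nat_lit 2) (.split (nat_lit 8) (nat_lit 2) (.sup (nat_lit 0x20007000b0010000d0000000000000000) (nat_lit 0x1000000000000000000000001000300030001)) (.non (nat_lit 1) (nat_lit 5) (nat_lit 0x6a010) (nat_lit 0x2000300020001000000000000000400000000)))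 (.non (nat_lit 1) (nat_lit 5) (nat_lit 0x90050) (nat_lit 0x1000100000000000000000001000200000000))) (.sup (nat_lit 0x90000000000000000000000000007000a0000) (nat_lit 0x100040007000a00080000000000000000))) (.split (nat_lit 9) (nat_lit 1) (.sup (nat_lit 0x80000000000000000000000000007000a0009) (nat_lit 0x100040007000a00080000000000000000)) (.non (nat_lit 2) (nat_lit 5) (nat_lit 0x40005) (nat_lit 0x1000000000000000000000000000000010001)))) (.non (nat_lit 1) (nat_lit 5) (nat_lit 0x50010) (nat_lit 0x1000100000000000000000000000100000000))) (.non (nat_lit 1) (nat_lit 5) (nat_lit 0x54010) (nat_lit 0x1000100010000000000000000000100000000))) (.star (nat_lit 9) (nat_lit 2) (nat_lit 6))) (.star (nat_lit 9) (nat_lit 2) (nat_lit 5))) (.non (nat_lit 1) (nat_lit 6) (nat_lit 0x50510) (nat_lit 0x3000100000000000300040000000200000000))) (.non (nat_lit 1) (nat_lit 5) (nat_lit 0x40050) (nat_lit 0x1000000000000000000000001000100000000)))) (.split (nat_lit 9) (nat_lit 0) (.split (nat_lit 9) (nat_lit 4) t761_46 (.non (nat_lit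 2) (nat_lit 6) (nat_lit 0x40505) (nat_lit 0x3000000000000000300040000000000020001))) (.non (nat_lit 2) (nat_lit 5) (nat_lit 0x40005) (nat_lit 0x1000000000000000000000000000000010001)))) (.split (nat_lit 9) (nat_lit 1) (.split (nat_lit 9) (nat_lit 4) t761_47 (.non (nat_lit 2) (nat_lit 6) (nat_lit 0x40505) (nat_lit 0x3000000000000000300040000000000010002))) (.non (nat_lit 2) (nat_lit 5) (nat_lit 0x40005) (nat_lit 0x1000000000000000000000000000000010001)))) (.sup (nat_lit 0x5000a00090000000000000002) (nat_lit 0x500000000000000000005000a00060000))) (.split (nat_lit 4) (nat_lit 0) (.st (nat_lit 0) (nat_lit 2) (nat_lit 5) (nat_lit 0x15005) (nat_lit 0x100020001000000000000000000010002) (nat_lit 1) (nat_lit 1) (.st (nat_lit 2) (nat_lit 1) (nat_lit 5) (nat_lit 0x15051) (nat_lit 0x200020001000000000001000200000001) (nat_lit 1) (nat_lit 1) (.st (nat_lit 7) (nat_lit 1) (nat_lit 5) (nat_lit 0x15001) (nat_lit 0x100020001000000000000000000000001) (nat_lit 1) (nat_lit 1) (.st (nat_lit 8) (nat_lit 1) (nat_lit 5) (nat_lit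 0x15011) (nat_lit 0x200020001000000000000000100000001) (nat_lit 1) (nat_lit 1) t761_53)))) (.non (nat_lit 1) (nat_lit 6) (nat_lit 0x14501) (nat_lit 0x100020000000300040000000000000003))))

noncomputable def t761_55 : Tr := (.ex (nat_lit 8) (.split (nat_lit 8) (nat_lit 7) (.pd (.cons (nat_lit 1) (nat_lit 4) (nat_lit 0) (nat_lit 0x765502200) (nat_lit 0xf423fb71aea2c289896500000f423fb71ae00000f423f) (.cons (nat_lit 2) (nat_lit 4) (nat_lit 0) (nat_lit 0x187603000) (nat_lit 0x98965a2c28b71aef423f00000f423f00000927bd8e6a2) .nil)) (.leaf (.cons (nat_lit 0x15014) (nat_lit 0x300020001000000000000000300040000) (.cons (nat_lit 0x10054) (nat_lit 0x100000000000000000001000200020000) (.cons (nat_lit 0x10015) (nat_lit 0x100000000000000000000000200020001) .nil))) (.cons (nat_lit 0x111000011) (nat_lit 0x100100) (nat_lit 3) (nat_lit 0x234000010) (.cons (nat_lit 0x110000011) (nat_lit 0x1000100) (nat_lit 2) (nat_lit 0x230000010) .nil)))) (.non (nat_lit 2) (nat_lit 5) (nat_lit 0x1a005) (nat_lit 0x300020001000000000000000000020001)))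 (.split (nat_lit 9) (nat_lit 0) (.split (nat_lit 9) (nat_lit 1) (.split (nat_lit 9) (nat_lit 2) (.split (nat_lit 9) (nat_lit 3) (.split (nat_lit 9) (nat_lit 4) (.split (nat_lit 9) (nat_lit 5) (.split (nat_lit 9) (nat_lit 6) (.split (nat_lit 9) (nat_lit 7) (.st (nat_lit 8) (nat_lit 2) (nat_lit 5) (nat_lit 0x54004) (nat_lit 0x1000200010000000000000000000000010000) (nat_lit 1) (nat_lit 1) (.split (nat_lit 8) (nat_lit 7) (.split (nat_lit 9) (nat_lit 8) (.pd (.cons (nat_lit 1) (nat_lit 4) (nat_lit 0) (nat_lit 0x8765502200) (nat_lit 0xf423fb71aea2c2898965927bd00000f423fb71ae00000f423f) (.cons (nat_lit 2) (nat_lit 4) (nat_lit 0) (nat_lit 0x8187603000) (nat_lit 0xf423f5b8d4a2c28b71aef423f00000f423f000005160d3d07c) .nil)) (.st (nat_lit 9) (nat_lit 2) (nat_lit 5) (nat_lit 0x55005) (nat_lit 0x2000300020001000000000000000000020001) (nat_lit 1) (nat_lit 1) (.leaf (.cons (nat_lit 0x54014) (nat_lit 0x1000200010000000000000000000200020000) (.cons (nat_lit 0x10054) (nat_lit 0x100000000000000000001000200020000) (.cons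 (nat_lit 0x10015) (nat_lit 0x100000000000000000000000200020001) .nil))) (.cons (nat_lit 0x1110000011) (nat_lit 0x1000100) (nat_lit 8) (nat_lit 0x2010000034) (.cons (nat_lit 0x1100000011) (nat_lit 0x10000100) (nat_lit 2) (nat_lit 0x3200000010) .nil))))) (.non (nat_lit 2) (nat_lit 5) (nat_lit 0x94004) (nat_lit 0x1000200010000000000000000000000010000))) (.non (nat_lit 2) (nat_lit 5) (nat_lit 0x58004) (nat_lit 0x1000200010000000000000000000000010000)))) (.non (nat_lit 1) (nat_lit 5) (nat_lit 0x54000) (nat_lit 0x1000100010000000000000000000000000000))) (.non (nat_lit 1) (nat_lit 5) (nat_lit 0x55000) (nat_lit 0x1000100010001000000000000000000000000))) (.non (nat_lit 1) (nat_lit 6) (nat_lit 0x54500) (nat_lit 0x3000200010000000400030000000000000000))) (.non (nat_lit 1) (nat_lit 6) (nat_lit 0x54500) (nat_lit 0x3000200010000000300040000000000000000))) (.non (nat_lit 2) (nat_lit 5) (nat_lit 0x55045) (nat_lit 0x2000300020001000000000001000000020001))) (.non (nat_lit 0) (nat_lit 8) (nat_lit 0x40054) (nat_lit 0x1000000000000000000000001000200020000)))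 (.non (nat_lit 2) (nat_lit 5) (nat_lit 0x50004) (nat_lit 0x1000100000000000000000000000000010000))) (.non (nat_lit 2) (nat_lit 5) (nat_lit 0x50005) (nat_lit 0x1000100000000000000000000000000010001))))

noncomputable def t761_56 : Tr := (.ex (nat_lit 7) (.pd (.cons (nat_lit 0) (nat_lit 8) (nat_lit 0) (nat_lit 0x65442110) (nat_lit 0xf423fb71aea2c2804737f423fb71ae1f15600000) (.cons (nat_lit 1) (nat_lit 8) (nat_lit 0) (nat_lit 0x65442200) (nat_lit 0xf423fb71aea2c2804737f423fb71ae00000f423f) (.cons (nat_lit 2) (nat_lit 8) (nat_lit 0) (nat_lit 0x65443000) (nat_lit 0xf423fb71aea2c2804737f423f00000f423fb71ae) (.cons (nat_lit 3) (nat_lit 8) (nat_lit 0) (nat_lit 0x65440100) (nat_lit 0xf423fb71aea2c280473700000f423f54591437a2) .nil)))) t761_55) (.split (nat_lit 9) (nat_lit 0) (.split (nat_lit 9) (nat_lit 1) (.split (nat_lit 9) (nat_lit 4) (.split (nat_lit 9) (nat_lit 5) (.split (nat_lit 9) (nat_lit 6) (.split (nat_lit 9) (nat_lit 8) (.split (nat_lit 9) (nat_lit 2) (.split (nat_lit 9) (nat_lit 3) (.unj (nat_lit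 0x55) (nat_lit 0x1000200020001) (nat_lit 0x45500) (nat_lit 0x1000000020003000400030000000000000000)) (.sup (nat_lit 0x20009000a0005) (nat_lit 0x1000000040007000a00080000000000000000))) (.split (nat_lit 9) (nat_lit 3) (.st (nat_lit 7) (nat_lit 1) (nat_lit 5) (nat_lit 0x55000) (nat_lit 0x1000100020001000000000000000000000000) (nat_lit 1) (nat_lit 1) (.st (nat_lit 8) (nat_lit 2) (nat_lit 5) (nat_lit 0x55004) (nat_lit 0x1000200020001000000000000000000010000) (nat_lit 1) (nat_lit 1) (.st (nat_lit 9) (nat_lit 1) (nat_lit 5) (nat_lit 0x55010) (nat_lit 0x2000100020001000000000000000100000000) (nat_lit 1) (nat_lit 1) (.split (nat_lit 9) (nat_lit 2) (.split (nat_lit 8) (nat_lit 7) (.split (nat_lit 9) (nat_lit 7) (.pd (.cons (nat_lit 1) (nat_lit 4) (nat_lit 0) (nat_lit 0x2797602200) (nat_lit 0x61a79f423f65b97b71aef423f00000f423f1e83b00000f423f) (.cons (nat_lit 2) (nat_lit 4) (nat_lit 0) (nat_lit 0x7187603000) (nat_lit 0xf423f61a7965b97b71aef423f00000f423f000005b8cc515fe) .nil)) (.leaf (.cons (nat_lit 0x50014) (nat_lit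 0x1000100000000000000000000000200020000) (.cons (nat_lit 0x45500) (nat_lit 0x1000000020003000400030000000000000000) .nil)) .nil)) (.non (nat_lit 1) (nat_lit 5) (nat_lit 0x95000) (nat_lit 0x1000100020001000000000000000000000000))) (.non (nat_lit 1) (nat_lit 5) (nat_lit 0x65000) (nat_lit 0x1000100020001000000000000000000000000))) (.non (nat_lit 1) (nat_lit 5) (nat_lit 0xaa010) (nat_lit 0x2000100020001000000000000000200000000)))))) (.non (nat_lit 1) (nat_lit 5) (nat_lit 0x40050) (nat_lit 0x1000000000000000000000001000100000000)))) (.non (nat_lit 1) (nat_lit 5) (nat_lit 0x54000) (nat_lit 0x1000100010000000000000000000000000000))) (.non (nat_lit 1) (nat_lit 5) (nat_lit 0x45000) (nat_lit 0x1000000010001000000000000000000000000))) (.non (nat_lit 1) (nat_lit 6) (nat_lit 0x54500) (nat_lit 0x3000100020000000400030000000000000000))) (.non (nat_lit 1) (nat_lit 6) (nat_lit 0x54500) (nat_lit 0x3000100020000000300040000000000000000))) (.non (nat_lit 2) (nat_lit 5) (nat_lit 0x54004) (nat_lit 0x1000100010000000000000000000000010000)))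 (.non (nat_lit 2) (nat_lit 5) (nat_lit 0x54005) (nat_lit 0x1000100010000000000000000000000010001))))

noncomputable def t761_57 : Tr := (.ex (nat_lit 5) (.ex (nat_lit 6) (.split (nat_lit 8) (nat_lit 1) (.pd (.cons (nat_lit 1) (nat_lit 7) (nat_lit 0) (nat_lit 0x805442200) (nat_lit 0xf423f00000f423fb71ae1f156f423fb71ae00000f423f) (.cons (nat_lit 2) (nat_lit 7) (nat_lit 0) (nat_lit 0x105443000) (nat_lit 0xf423f00000f423fb71ae1f156f423f00000b71aea2c28) .nil)) t761_56) (.non (nat_lit 2) (nat_lit 5) (nat_lit 0x2a005) (nat_lit 0x300020001000000000000000000040002))) (.split (nat_lit 9) (nat_lit 0) (.split (nat_lit 9) (nat_lit 1) (.split (nat_lit 9) (nat_lit 2) (.split (nat_lit 9) (nat_lit 7) (.split (nat_lit 9) (nat_lit 8) (.split (nat_lit 9) (nat_lit 3) (.split (nat_lit 9) (nat_lit 4) (.split (nat_lit 9) (nat_lit 5) (.unj (nat_lit 0x55) (nat_lit 0x1000200020001) (nat_lit 0x45500) (nat_lit 0x1000000010002000200020000000000000000)) (.unj (nat_lit 0x41400) (nat_lit 0x1000000000001000100000000000000000000) (nat_lit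 0x55) (nat_lit 0x1000200020001))) (.split (nat_lit 9) (nat_lit 5) (.unj (nat_lit 0x55) (nat_lit 0x1000200020001) (nat_lit 0x41500) (nat_lit 0x1000000000001000100010000000000000000)) (.non (nat_lit 1) (nat_lit 6) (nat_lit 0x40500) (nat_lit 0x1000000000000000100010000000000000000)))) (.split (nat_lit 9) (nat_lit 4) (.split (nat_lit 9) (nat_lit 5) (.sup (nat_lit 0x20009000a0005) (nat_lit 0x1000000030007000a00080000000000000000)) (.non (nat_lit 1) (nat_lit 6) (nat_lit 0x40550) (nat_lit 0x3000000000000000400030002000100000000))) (.non (nat_lit 1) (nat_lit 6) (nat_lit 0x40550) (nat_lit 0x3000000000000000300040002000100000000)))) (.non (nat_lit 1) (nat_lit 5) (nat_lit 0x55000) (nat_lit 0x1000100010001000000000000000000000000))) (.non (nat_lit 1) (nat_lit 5) (nat_lit 0x45000) (nat_lit 0x1000000010001000000000000000000000000))) (.star (nat_lit 9) (nat_lit 2) (nat_lit 6))) (.star (nat_lit 9) (nat_lit 1) (nat_lit 6))) (.non (nat_lit 2) (nat_lit 5) (nat_lit 0x55005) (nat_lit 0x1000100010001000000000000000000010001))))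 (.split (nat_lit 9) (nat_lit 0) (.split (nat_lit 9) (nat_lit 1) (.split (nat_lit 9) (nat_lit 2) (.split (nat_lit 9) (nat_lit 3) (.split (nat_lit 9) (nat_lit 4) (.split (nat_lit 9) (nat_lit 7) (.split (nat_lit 9) (nat_lit 8) (.split (nat_lit 9) (nat_lit 6) (.unj (nat_lit 0x55) (nat_lit 0x1000200020001) (nat_lit 0x41500) (nat_lit 0x1000000000001000200020000000000000000)) (.unj (nat_lit 0x41400) (nat_lit 0x1000000000001000100000000000000000000) (nat_lit 0x55) (nat_lit 0x1000200020001))) (.non (nat_lit 1) (nat_lit 6) (nat_lit 0x54500) (nat_lit 0x3000200010000000400030000000000000000))) (.non (nat_lit 1) (nat_lit 6) (nat_lit 0x54500) (nat_lit 0x3000100020000000400030000000000000000))) (.non (nat_lit 1) (nat_lit 6) (nat_lit 0x40500) (nat_lit 0x1000000000000000100010000000000000000))) (.non (nat_lit 1) (nat_lit 6) (nat_lit 0x40550) (nat_lit 0x3000000000000000400030002000100000000))) (.star (nat_lit 9) (nat_lit 2) (nat_lit 5))) (.star (nat_lit 9) (nat_lit 1) (nat_lit 5))) (.non (nat_lit 2) (nat_lit 6) (nat_lit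 0x40505) (nat_lit 0x3000000000000000400030000000000010002))))

noncomputable def t761_58 : Tr := (.split (nat_lit 9) (nat_lit 5) (.split (nat_lit 9) (nat_lit 8) (.split (nat_lit 9) (nat_lit 0) (.split (nat_lit 9) (nat_lit 1) (.split (nat_lit 9) (nat_lit 6) (.split (nat_lit 9) (nat_lit 7) (.split (nat_lit 9) (nat_lit 3) (.split (nat_lit 8) (nat_lit 1) (.sup (nat_lit 0x3000d00160020001a0000000000000000) (nat_lit 0x3000000000000000000000005000800070003)) (.non (nat_lit 2) (nat_lit 5) (nat_lit 0x2a005) (nat_lit 0x300020001000000000000000000040002))) (.split (nat_lit 9) (nat_lit 3) (.split (nat_lit 8) (nat_lit 1) (.sup (nat_lit 0x700000000000000000000000a000a00060000) (nat_lit 0x100040007000a00080000000000000000)) (.non (nat_lit 2) (nat_lit 5) (nat_lit 0x2a005) (nat_lit 0x300020001000000000000000000040002))) (.sup (nat_lit 0x800000000000000000000000a000700020000) (nat_lit 0x100040007000a00080000000000000000)))) (.sup (nat_lit 0x20009000a0005) (nat_lit 0x1000000040007000a00080000000000000000))) (.split (nat_lit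 9) (nat_lit 7) (.sup (nat_lit 0x20009000a0005) (nat_lit 0x1000000030007000a00080000000000000000)) (.non (nat_lit 1) (nat_lit 5) (nat_lit 0x45000) (nat_lit 0x1000000010001000000000000000000000000)))) (.split (nat_lit 9) (nat_lit 6) (.split (nat_lit 9) (nat_lit 7) (.sup (nat_lit 0x8000000000000000000000009000a00070000) (nat_lit 0x100040007000a00080000000000000000)) (.non (nat_lit 2) (nat_lit 5) (nat_lit 0x54004) (nat_lit 0x1000100010000000000000000000000010000))) (.star (nat_lit 9) (nat_lit 1) (nat_lit 6)))) (.split (nat_lit 9) (nat_lit 1) (.split (nat_lit 9) (nat_lit 6) (.split (nat_lit 9) (nat_lit 7) (.split (nat_lit 9) (nat_lit 0) (.split (nat_lit 9) (nat_lit 3) (.split (nat_lit 8) (nat_lit 1) (.sup (nat_lit 0x100030006000800060000000000000000) (nat_lit 0x1000000000000000000000001000100010001)) (.non (nat_lit 2) (nat_lit 5) (nat_lit 0x68005) (nat_lit 0x1000200010000000000000000000000030002))) (.sup (nat_lit 0x7000f00170020001a0000000000000000) (nat_lit 0x5000000000000000000000006000300010003))) (.non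 (nat_lit 2) (nat_lit 5) (nat_lit 0x90085) (nat_lit 0x2000100000000000000000001000000020003))) (.non (nat_lit 1) (nat_lit 5) (nat_lit 0x55041) (nat_lit 0x2000100020001000000000001000000000001))) (.non (nat_lit 2) (nat_lit 5) (nat_lit 0x55005) (nat_lit 0x1000100010001000000000000000000010001))) (.non (nat_lit 2) (nat_lit 5) (nat_lit 0x40005) (nat_lit 0x1000000000000000000000000000000010001)))) (.non (nat_lit 2) (nat_lit 5) (nat_lit 0x55045) (nat_lit 0x2000300020001000000000001000000020001))) (.non (nat_lit 1) (nat_lit 6) (nat_lit 0x40550) (nat_lit 0x3000000000000000400030002000100000000)))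

noncomputable def t761_59 : Tr := (.ex (nat_lit 6) (.split (nat_lit 9) (nat_lit 2) (.split (nat_lit 8) (nat_lit 7) (.split (nat_lit 9) (nat_lit 7) (.split (nat_lit 8) (nat_lit 1) (.pd (.cons (nat_lit 1) (nat_lit 4) (nat_lit 0) (nat_lit 0x2797602200) (nat_lit 0x61a79f423f65b97b71aef423f00000f423f1e83b00000f423f) (.cons (nat_lit 1) (nat_lit 7) (nat_lit 0) (nat_lit 0x2805442200) (nat_lit 0xf423ff423f00000f423fb71ae1f156f423f7a11d00000f423f) (.cons (nat_lit 2) (nat_lit 4) (nat_lit 0) (nat_lit 0x7187603000) (nat_lit 0xf423f61a7965b97b71aef423f00000f423f000005b8cc515fe) (.cons (nat_lit 2) (nat_lit 7) (nat_lit 0) (nat_lit 0x9105443000) (nat_lit 0xf423ff423f00000f423fb71ae1f156f423f00000b71aea2c28) .nil)))) (.leaf (.cons (nat_lit 0x50014) (nat_lit 0x1000100000000000000000000000200020000) (.cons (nat_lit 0x45500) (nat_lit 0x1000000020003000400030000000000000000) .nil)) .nil)) (.non (nat_lit 2) (nat_lit 5) (nat_lit 0xaa004) (nat_lit 0x1000200020001000000000000000000020000))) (.non (nat_lit 1) (nat_lit 5) (nat_lit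 0x95000) (nat_lit 0x1000100020001000000000000000000000000))) (.non (nat_lit 1) (nat_lit 5) (nat_lit 0x65000) (nat_lit 0x1000100020001000000000000000000000000))) (.non (nat_lit 1) (nat_lit 5) (nat_lit 0xaa010) (nat_lit 0x2000100020001000000000000000200000000))) (.split (nat_lit 0xa) (nat_lit 0) (.split (nat_lit 0xa) (nat_lit 1) (.split (nat_lit 0xa) (nat_lit 2) (.split (nat_lit 0xa) (nat_lit 3) (.split (nat_lit 0xa) (nat_lit 4) (.split (nat_lit 0xa) (nat_lit 7) (.split (nat_lit 0xa) (nat_lit 8) (.split (nat_lit 0xa) (nat_lit 9) (.split (nat_lit 0xa) (nat_lit 5) (.unj (nat_lit 0x55) (nat_lit 0x1000200020001) (nat_lit 0x105500) (nat_lit 0x10000000000010002000200020000000000000000)) (.unj (nat_lit 0x101400) (nat_lit 0x10000000000000001000100000000000000000000) (nat_lit 0x55) (nat_lit 0x1000200020001))) (.non (nat_lit 1) (nat_lit 5) (nat_lit 0x145000) (nat_lit 0x10001000000010001000000000000000000000000))) (.non (nat_lit 1) (nat_lit 5) (nat_lit 0x115000) (nat_lit 0x10000000100010001000000000000000000000000)))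 (.non (nat_lit 1) (nat_lit 5) (nat_lit 0x105000) (nat_lit 0x10000000000010001000000000000000000000000))) (.non (nat_lit 1) (nat_lit 5) (nat_lit 0x155150) (nat_lit 0x20003000200040003000000010001000200000000))) (.non (nat_lit 1) (nat_lit 5) (nat_lit 0x145050) (nat_lit 0x10001000000010001000000000001000100000000))) (.star (nat_lit 0xa) (nat_lit 2) (nat_lit 6))) (.star (nat_lit 0xa) (nat_lit 1) (nat_lit 6))) (.non (nat_lit 1) (nat_lit 5) (nat_lit 0x155051) (nat_lit 0x20003000200040003000000000001000200000001))))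

noncomputable def t761_60 : Tr := (.ex (nat_lit 4) (.ex (nat_lit 5) t761_59 (.split (nat_lit 0xa) (nat_lit 0) (.split (nat_lit 0xa) (nat_lit 1) (.split (nat_lit 0xa) (nat_lit 2) (.split (nat_lit 0xa) (nat_lit 3) (.split (nat_lit 0xa) (nat_lit 4) (.split (nat_lit 0xa) (nat_lit 7) (.split (nat_lit 0xa) (nat_lit 8) (.split (nat_lit 0xa) (nat_lit 9) (.split (nat_lit 0xa) (nat_lit 6) (.unj (nat_lit 0x55) (nat_lit 0x1000200020001) (nat_lit 0x101500) (nat_lit 0x10000000000000001000200020000000000000000)) (.unj (nat_lit 0x101400) (nat_lit 0x10000000000000001000100000000000000000000) (nat_lit 0x55) (nat_lit 0x1000200020001))) (.non (nat_lit 1) (nat_lit 5) (nat_lit 0x155010) (nat_lit 0x10002000100020001000000000000000100000000))) (.non (nat_lit 1) (nat_lit 6) (nat_lit 0x114500) (nat_lit 0x30000000200010000000400030000000000000000))) (.non (nat_lit 1) (nat_lit 5) (nat_lit 0x155000) (nat_lit 0x10001000100020001000000000000000000000000))) (.non (nat_lit 1) (nat_lit 6) (nat_lit 0x100500) (nat_lit 0x10000000000000000000100010000000000000000)))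 (.non (nat_lit 1) (nat_lit 6) (nat_lit 0x100550) (nat_lit 0x30000000000000000000400030002000100000000))) (.star (nat_lit 0xa) (nat_lit 2) (nat_lit 5))) (.star (nat_lit 0xa) (nat_lit 1) (nat_lit 5))) (.non (nat_lit 2) (nat_lit 6) (nat_lit 0x100505) (nat_lit 0x30000000000000000000400030000000000010002)))) (.split (nat_lit 0xa) (nat_lit 0) (.split (nat_lit 0xa) (nat_lit 1) (.split (nat_lit 0xa) (nat_lit 2) (.split (nat_lit 0xa) (nat_lit 3) (.split (nat_lit 0xa) (nat_lit 5) (.split (nat_lit 0xa) (nat_lit 6) (.split (nat_lit 0xa) (nat_lit 7) (.split (nat_lit 0xa) (nat_lit 8) (.split (nat_lit 0xa) (nat_lit 9) (.unj (nat_lit 0x55) (nat_lit 0x1000200020001) (nat_lit 0x101500) (nat_lit 0x10000000000000001000200020000000000000000)) (.non (nat_lit 1) (nat_lit 5) (nat_lit 0x155010) (nat_lit 0x10002000100020001000000000000000100000000))) (.non (nat_lit 1) (nat_lit 5) (nat_lit 0x155150) (nat_lit 0x20003000300040002000000010001000200000000))) (.non (nat_lit 1) (nat_lit 5) (nat_lit 0x155000) (nat_lit 0x10001000100020001000000000000000000000000)))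 (.non (nat_lit 1) (nat_lit 5) (nat_lit 0x155150) (nat_lit 0x20003000200040003000000010001000200000000))) (.non (nat_lit 1) (nat_lit 6) (nat_lit 0x100500) (nat_lit 0x10000000000000000000100010000000000000000))) (.non (nat_lit 1) (nat_lit 6) (nat_lit 0x100550) (nat_lit 0x30000000000000000000300040002000100000000))) (.non (nat_lit 1) (nat_lit 5) (nat_lit 0x155050) (nat_lit 0x10002000100020001000000000001000200000000))) (.non (nat_lit 2) (nat_lit 5) (nat_lit 0x155005) (nat_lit 0x10001000200020001000000000000000000020001))) (.non (nat_lit 2) (nat_lit 6) (nat_lit 0x100505) (nat_lit 0x30000000000000000000300040000000000010002))))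

noncomputable def t761_61 : Tr := (.split (nat_lit 9) (nat_lit 5) (.split (nat_lit 9) (nat_lit 6) (.split (nat_lit 9) (nat_lit 0) (.split (nat_lit 9) (nat_lit 1) (.split (nat_lit 9) (nat_lit 7) (.split (nat_lit 9) (nat_lit 8) (.split (nat_lit 9) (nat_lit 2) (.split (nat_lit 8) (nat_lit 1) (.sup (nat_lit 0x5000000000000000000000005000a00060000) (nat_lit 0x100040007000a00080000000000000000)) (.non (nat_lit 2) (nat_lit 5) (nat_lit 0x2a005) (nat_lit 0x300020001000000000000000000040002))) (.sup (nat_lit 0x6000f00170020001a0000000000000000) (nat_lit 0x4000000000000000000000003000600020001))) (.split (nat_lit 9) (nat_lit 2) (.split (nat_lit 9) (nat_lit 8) (.split (nat_lit 8) (nat_lit 1) (.sup (nat_lit 0x10006000b0010000d0000000000000000) (nat_lit 0x1000000000000000000000002000300020001)) (.non (nat_lit 2) (nat_lit 5) (nat_lit 0xa8004) (nat_lit 0x1000200010000000000000000000000020000))) (.non (nat_lit 1) (nat_lit 5) (nat_lit 0x6a010) (nat_lit 0x4000300020001000000000000000200000000))) (.non (nat_lit 1) (nat_lit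 5) (nat_lit 0xa8050) (nat_lit 0x3000200010000000000000002000400000000)))) (.split (nat_lit 9) (nat_lit 8) (.st (nat_lit 7) (nat_lit 1) (nat_lit 5) (nat_lit 0x55000) (nat_lit 0x1000100020001000000000000000000000000) (nat_lit 1) (nat_lit 1) (.st (nat_lit 8) (nat_lit 2) (nat_lit 5) (nat_lit 0x55004) (nat_lit 0x1000200020001000000000000000000010000) (nat_lit 1) (nat_lit 1) (.st (nat_lit 9) (nat_lit 1) (nat_lit 5) (nat_lit 0x55010) (nat_lit 0x2000100020001000000000000000100000000) (nat_lit 1) (nat_lit 1) t761_60))) (.non (nat_lit 1) (nat_lit 5) (nat_lit 0x54000) (nat_lit 0x1000100010000000000000000000000000000)))) (.split (nat_lit 9) (nat_lit 7) (.split (nat_lit 9) (nat_lit 8) (.sup (nat_lit 0x9000000000000000000000000000a00070000) (nat_lit 0x100040007000a00080000000000000000)) (.non (nat_lit 2) (nat_lit 5) (nat_lit 0x50004) (nat_lit 0x1000100000000000000000000000000010000))) (.non (nat_lit 2) (nat_lit 5) (nat_lit 0x54004) (nat_lit 0x1000100010000000000000000000000010000)))) (.split (nat_lit 9) (nat_lit 1)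 (.split (nat_lit 9) (nat_lit 7) (.split (nat_lit 9) (nat_lit 8) (.sup (nat_lit 0x9000000000000000000000000000a00070008) (nat_lit 0x100040007000a00080000000000000000)) (.non (nat_lit 2) (nat_lit 5) (nat_lit 0x50005) (nat_lit 0x1000100000000000000000000000000010001))) (.non (nat_lit 1) (nat_lit 5) (nat_lit 0x55011) (nat_lit 0x2000100020001000000000000000100000001))) (.non (nat_lit 2) (nat_lit 5) (nat_lit 0x40005) (nat_lit 0x1000000000000000000000000000000010001)))) (.star (nat_lit 9) (nat_lit 2) (nat_lit 6))) (.star (nat_lit 9) (nat_lit 2) (nat_lit 5)))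

noncomputable def t761_62 : Tr := (.ex (nat_lit 1) (.ex (nat_lit 2) (.ex (nat_lit 3) (.ex (nat_lit 4) t761_57 (.split (nat_lit 9) (nat_lit 0) (.split (nat_lit 9) (nat_lit 1) (.split (nat_lit 9) (nat_lit 2) (.split (nat_lit 9) (nat_lit 3) (.split (nat_lit 9) (nat_lit 5) (.split (nat_lit 9) (nat_lit 7) (.split (nat_lit 9) (nat_lit 8) (.split (nat_lit 9) (nat_lit 6) (.unj (nat_lit 0x55) (nat_lit 0x1000200020001) (nat_lit 0x41500) (nat_lit 0x1000000000001000200020000000000000000)) (.unj (nat_lit 0x55) (nat_lit 0x1000200020001) (nat_lit 0x41500) (nat_lit 0x1000000000001000100010000000000000000))) (.non (nat_lit 1) (nat_lit 6) (nat_lit 0x54500) (nat_lit 0x3000200010000000300040000000000000000))) (.non (nat_lit 1) (nat_lit 6) (nat_lit 0x54500) (nat_lit 0x3000100020000000300040000000000000000))) (.non (nat_lit 1) (nat_lit 6) (nat_lit 0x40500) (nat_lit 0x1000000000000000100010000000000000000))) (.non (nat_lit 1) (nat_lit 6) (nat_lit 0x40550) (nat_lit 0x3000000000000000300040002000100000000))) (.non (nat_lit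 1) (nat_lit 6) (nat_lit 0x40550) (nat_lit 0x3000000000000000300040001000200000000))) (.non (nat_lit 2) (nat_lit 6) (nat_lit 0x50504) (nat_lit 0x3000100000000000300040000000000020000))) (.non (nat_lit 2) (nat_lit 6) (nat_lit 0x40505) (nat_lit 0x3000000000000000300040000000000010002)))) (.split (nat_lit 9) (nat_lit 2) (.split (nat_lit 9) (nat_lit 4) t761_58 (.non (nat_lit 1) (nat_lit 6) (nat_lit 0x40550) (nat_lit 0x3000000000000000300040002000100000000))) (.non (nat_lit 1) (nat_lit 5) (nat_lit 0x40050) (nat_lit 0x1000000000000000000000001000100000000)))) (.split (nat_lit 9) (nat_lit 3) (.split (nat_lit 9) (nat_lit 4) t761_61 (.non (nat_lit 1) (nat_lit 6) (nat_lit 0x40550) (nat_lit 0x3000000000000000300040001000200000000))) (.non (nat_lit 1) (nat_lit 5) (nat_lit 0x40050) (nat_lit 0x1000000000000000000000001000100000000)))) (.split (nat_lit 9) (nat_lit 0) (.split (nat_lit 9) (nat_lit 4) (.split (nat_lit 9) (nat_lit 5) (.split (nat_lit 9) (nat_lit 6) (.split (nat_lit 9) (nat_lit 7) (.split (nat_lit 9) (nat_lit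 8) (.split (nat_lit 9) (nat_lit 2) (.split (nat_lit 9) (nat_lit 3) (.split (nat_lit 9) (nat_lit 1) (.split (nat_lit 8) (nat_lit 1) (.sup (nat_lit 0x20007000b0010000d0000000000000000) (nat_lit 0x1000000000000000000000001000300030001)) (.non (nat_lit 2) (nat_lit 5) (nat_lit 0x6a004) (nat_lit 0x2000300020001000000000000000000040000))) (.non (nat_lit 2) (nat_lit 5) (nat_lit 0x90005) (nat_lit 0x1000100000000000000000000000000020001))) (.sup (nat_lit 0x8000000000000000000000009000a00070000) (nat_lit 0x100040007000a00080000000000000000))) (.split (nat_lit 9) (nat_lit 3) (.sup (nat_lit 0x9000000000000000000000000000a00070000) (nat_lit 0x100040007000a00080000000000000000)) (.non (nat_lit 1) (nat_lit 5) (nat_lit 0x40050) (nat_lit 0x1000000000000000000000001000100000000)))) (.non (nat_lit 2) (nat_lit 5) (nat_lit 0x50004) (nat_lit 0x1000100000000000000000000000000010000))) (.non (nat_lit 2) (nat_lit 5) (nat_lit 0x54004) (nat_lit 0x1000100010000000000000000000000010000))) (.star (nat_lit 9) (nat_lit 1) (nat_lit 6)))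 (.star (nat_lit 9) (nat_lit 1) (nat_lit 5))) (.non (nat_lit 2) (nat_lit 6) (nat_lit 0x50504) (nat_lit 0x3000100000000000300040000000000020000))) (.non (nat_lit 2) (nat_lit 5) (nat_lit 0x40005) (nat_lit 0x1000000000000000000000000000000010001))))

noncomputable def t761_63 : Tr := (.ex (nat_lit 5) (.ex (nat_lit 6) (.split (nat_lit 7) (nat_lit 3) (.split (nat_lit 8) (nat_lit 7) (.split (nat_lit 8) (nat_lit 1) (.pd (.cons (nat_lit 1) (nat_lit 4) (nat_lit 0) (nat_lit 0x737602200) (nat_lit 0xf423f65b97b71aef423f0000061a795b8cc00000f423f) (.cons (nat_lit 1) (nat_lit 7) (nat_lit 0) (nat_lit 0x805442200) (nat_lit 0xf423f00000f423fb71ae1f156f423fb71ae00000f423f) (.cons (nat_lit 2) (nat_lit 4) (nat_lit 0) (nat_lit 0x187607000) (nat_lit 0x61a7965b97b71aef423f00000f423f000005b8cc515fe) (.cons (nat_lit 2) (nat_lit 7) (nat_lit 0) (nat_lit 0x105443000) (nat_lit 0xf423f00000f423fb71ae1f156f423f00000b71aea2c28) (.cons (nat_lit 3) (nat_lit 8) (nat_lit 0) (nat_lit 0x65440100) (nat_lit 0xf423fb71aea2c280473700000f423f54591437a2)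 .nil))))) (.leaf (.cons (nat_lit 0x15014) (nat_lit 0x300020001000000000000000300040000) (.cons (nat_lit 0x10054) (nat_lit 0x100000000000000000001000200020000) (.cons (nat_lit 0x5540) (nat_lit 0x20003000400030001000000000000) (.cons (nat_lit 0x10015) (nat_lit 0x100000000000000000000000200020001) .nil)))) .nil)) (.non (nat_lit 2) (nat_lit 5) (nat_lit 0x2a084) (nat_lit 0x200020001000000000001000000020000))) (.non (nat_lit 1) (nat_lit 5) (nat_lit 0x25040) (nat_lit 0x100020001000000000001000000000000))) (.non (nat_lit 1) (nat_lit 5) (nat_lit 0x2a040) (nat_lit 0x100020001000000000002000000000000))) (.split (nat_lit 9) (nat_lit 0) (.split (nat_lit 9) (nat_lit 1) (.split (nat_lit 9) (nat_lit 2) (.split (nat_lit 9) (nat_lit 3) (.split (nat_lit 9) (nat_lit 4) (.split (nat_lit 9) (nat_lit 7) (.split (nat_lit 9) (nat_lit 8) (.split (nat_lit 9) (nat_lit 5) (.sup (nat_lit 0x20009000a0005) (nat_lit 0x3000000010007000a00080000000000000000)) (.unj (nat_lit 0x41400) (nat_lit 0x1000000000001000100000000000000000000) (nat_lit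 0x55) (nat_lit 0x1000200020001))) (.non (nat_lit 1) (nat_lit 5) (nat_lit 0x55000) (nat_lit 0x1000100010001000000000000000000000000))) (.non (nat_lit 1) (nat_lit 5) (nat_lit 0x45000) (nat_lit 0x1000000010001000000000000000000000000))) (.non (nat_lit 2) (nat_lit 5) (nat_lit 0x55145) (nat_lit 0x2000300040003000000010002000000020001))) (.non (nat_lit 1) (nat_lit 5) (nat_lit 0x45040) (nat_lit 0x1000000010001000000000001000000000000))) (.star (nat_lit 9) (nat_lit 2) (nat_lit 6))) (.star (nat_lit 9) (nat_lit 1) (nat_lit 6))) (.non (nat_lit 2) (nat_lit 5) (nat_lit 0x55005) (nat_lit 0x1000100010001000000000000000000010001)))) (.split (nat_lit 9) (nat_lit 0) (.split (nat_lit 9) (nat_lit 1) (.split (nat_lit 9) (nat_lit 2) (.split (nat_lit 9) (nat_lit 3) (.split (nat_lit 9) (nat_lit 4) (.split (nat_lit 9) (nat_lit 7) (.split (nat_lit 9) (nat_lit 8) (.split (nat_lit 9) (nat_lit 6) (.unj (nat_lit 0x55) (nat_lit 0x1000200020001) (nat_lit 0x41500) (nat_lit 0x1000000000001000200020000000000000000)) (.unj (nat_lit 0x41400)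 (nat_lit 0x1000000000001000100000000000000000000) (nat_lit 0x55) (nat_lit 0x1000200020001))) (.non (nat_lit 1) (nat_lit 6) (nat_lit 0x54500) (nat_lit 0x3000200010000000400030000000000000000))) (.non (nat_lit 1) (nat_lit 5) (nat_lit 0x55040) (nat_lit 0x1000100020001000000000001000000000000))) (.non (nat_lit 1) (nat_lit 6) (nat_lit 0x40500) (nat_lit 0x1000000000000000100010000000000000000))) (.non (nat_lit 1) (nat_lit 5) (nat_lit 0x55050) (nat_lit 0x1000100020001000000000002000100000000))) (.star (nat_lit 9) (nat_lit 2) (nat_lit 5))) (.star (nat_lit 9) (nat_lit 1) (nat_lit 5))) (.non (nat_lit 2) (nat_lit 6) (nat_lit 0x40505) (nat_lit 0x3000000000000000400030000000000010002))))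

noncomputable def t761_64 : Tr := (.ex (nat_lit 6) (.split (nat_lit 9) (nat_lit 2) (.split (nat_lit 7) (nat_lit 3) (.split (nat_lit 8) (nat_lit 7) (.split (nat_lit 8) (nat_lit 1) (.pd (.cons (nat_lit 1) (nat_lit 4) (nat_lit 0) (nat_lit 0x2737602200) (nat_lit 0xf423ff423f65b97b71aef423f0000061a791e83b00000f423f) (.cons (nat_lit 1) (nat_lit 7) (nat_lit 0) (nat_lit 0x2805442200) (nat_lit 0xf423ff423f00000f423fb71ae1f156f423f7a11d00000f423f) (.cons (nat_lit 2) (nat_lit 4) (nat_lit 0) (nat_lit 0x9187607000) (nat_lit 0xf423f61a7965b97b71aef423f00000f423f000005b8cc515fe) (.cons (nat_lit 2) (nat_lit 7) (nat_lit 0) (nat_lit 0x9105443000) (nat_lit 0xf423ff423f00000f423fb71ae1f156f423f00000b71aea2c28) .nil)))) (.leaf (.cons (nat_lit 0x50014) (nat_lit 0x1000100000000000000000000000200020000) (.cons (nat_lit 0x5540) (nat_lit 0x20003000400030001000000000000) (.cons (nat_lit 0x40015) (nat_lit 0x1000000000000000000000000000200020001) .nil))) .nil)) (.non (nat_lit 2) (nat_lit 5) (nat_lit 0x2a084) (nat_lit 0x200020001000000000001000000020000)))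 (.non (nat_lit 1) (nat_lit 5) (nat_lit 0x25040) (nat_lit 0x100020001000000000001000000000000))) (.non (nat_lit 1) (nat_lit 5) (nat_lit 0x2a040) (nat_lit 0x100020001000000000002000000000000))) (.non (nat_lit 1) (nat_lit 5) (nat_lit 0x95050) (nat_lit 0x1000100020001000000000002000200000000))) (.split (nat_lit 0xa) (nat_lit 0) (.split (nat_lit 0xa) (nat_lit 1) (.split (nat_lit 0xa) (nat_lit 2) (.split (nat_lit 0xa) (nat_lit 3) (.split (nat_lit 0xa) (nat_lit 4) (.split (nat_lit 0xa) (nat_lit 7) (.split (nat_lit 0xa) (nat_lit 8) (.split (nat_lit 0xa) (nat_lit 9) (.split (nat_lit 0xa) (nat_lit 5) (.unj (nat_lit 0x40015) (nat_lit 0x1000000000000000000000000000200020001) (nat_lit 0x105500) (nat_lit 0x10000000000010002000200020000000000000000)) (.unj (nat_lit 0x101400) (nat_lit 0x10000000000000001000100000000000000000000) (nat_lit 0x55) (nat_lit 0x1000200020001))) (.non (nat_lit 1) (nat_lit 5) (nat_lit 0x145050) (nat_lit 0x10001000000010001000000000001000100000000))) (.non (nat_lit 1) (nat_lit 5) (nat_lit 0x115000)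 (nat_lit 0x10000000100010001000000000000000000000000))) (.non (nat_lit 1) (nat_lit 5) (nat_lit 0x105000) (nat_lit 0x10000000000010001000000000000000000000000))) (.non (nat_lit 1) (nat_lit 5) (nat_lit 0x155150) (nat_lit 0x20001000200040003000000010003000200000000))) (.non (nat_lit 1) (nat_lit 5) (nat_lit 0x105040) (nat_lit 0x10000000000010001000000000001000000000000))) (.star (nat_lit 0xa) (nat_lit 2) (nat_lit 6))) (.star (nat_lit 0xa) (nat_lit 1) (nat_lit 6))) (.non (nat_lit 1) (nat_lit 5) (nat_lit 0x155051) (nat_lit 0x20001000200040003000000000003000200000001))))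

noncomputable def t761_65 : Tr := (.ex (nat_lit 4) (.ex (nat_lit 5) t761_64 (.split (nat_lit 0xa) (nat_lit 0) (.split (nat_lit 0xa) (nat_lit 1) (.split (nat_lit 0xa) (nat_lit 2) (.split (nat_lit 0xa) (nat_lit 3) (.split (nat_lit 0xa) (nat_lit 4) (.split (nat_lit 0xa) (nat_lit 7) (.split (nat_lit 0xa) (nat_lit 8) (.split (nat_lit 0xa) (nat_lit 9) (.split (nat_lit 0xa) (nat_lit 6) (.unj (nat_lit 0x55) (nat_lit 0x1000200020001) (nat_lit 0x101500) (nat_lit 0x10000000000000001000200020000000000000000)) (.unj (nat_lit 0x101400) (nat_lit 0x10000000000000001000100000000000000000000) (nat_lit 0x55) (nat_lit 0x1000200020001))) (.non (nat_lit 1) (nat_lit 6) (nat_lit 0x140510) (nat_lit 0x30002000000000000000400030000000100000000))) (.non (nat_lit 1) (nat_lit 6) (nat_lit 0x114500) (nat_lit 0x30000000200010000000400030000000000000000))) (.non (nat_lit 1) (nat_lit 5) (nat_lit 0x115040) (nat_lit 0x10000000100020001000000000001000000000000))) (.non (nat_lit 1) (nat_lit 6) (nat_lit 0x100500) (nat_lit 0x10000000000000000000100010000000000000000)))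 (.non (nat_lit 1) (nat_lit 5) (nat_lit 0x115050) (nat_lit 0x10000000100020001000000000002000100000000))) (.star (nat_lit 0xa) (nat_lit 2) (nat_lit 5))) (.star (nat_lit 0xa) (nat_lit 1) (nat_lit 5))) (.non (nat_lit 2) (nat_lit 6) (nat_lit 0x100505) (nat_lit 0x30000000000000000000400030000000000010002)))) (.split (nat_lit 0xa) (nat_lit 0) (.split (nat_lit 0xa) (nat_lit 1) (.split (nat_lit 0xa) (nat_lit 2) (.split (nat_lit 0xa) (nat_lit 3) (.split (nat_lit 0xa) (nat_lit 5) (.split (nat_lit 0xa) (nat_lit 6) (.split (nat_lit 0xa) (nat_lit 7) (.split (nat_lit 0xa) (nat_lit 8) (.split (nat_lit 0xa) (nat_lit 9) (.unj (nat_lit 0x55) (nat_lit 0x1000200020001) (nat_lit 0x101500) (nat_lit 0x10000000000000001000200020000000000000000)) (.non (nat_lit 1) (nat_lit 6) (nat_lit 0x140510) (nat_lit 0x30002000000000000000300040000000100000000))) (.non (nat_lit 1) (nat_lit 5) (nat_lit 0x155150) (nat_lit 0x20001000300040002000000010003000200000000))) (.non (nat_lit 1) (nat_lit 5) (nat_lit 0x115040) (nat_lit 0x10000000100020001000000000001000000000000)))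 (.non (nat_lit 1) (nat_lit 5) (nat_lit 0x155150) (nat_lit 0x20001000200040003000000010003000200000000))) (.non (nat_lit 1) (nat_lit 6) (nat_lit 0x100500) (nat_lit 0x10000000000000000000100010000000000000000))) (.non (nat_lit 1) (nat_lit 5) (nat_lit 0x115050) (nat_lit 0x10000000100020001000000000002000100000000))) (.non (nat_lit 1) (nat_lit 5) (nat_lit 0x155050) (nat_lit 0x10001000100020001000000000002000200000000))) (.non (nat_lit 2) (nat_lit 5) (nat_lit 0x115045) (nat_lit 0x10000000200020001000000000001000000020001))) (.non (nat_lit 2) (nat_lit 6) (nat_lit 0x100505) (nat_lit 0x30000000000000000000300040000000000010002))))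

noncomputable def t761_66 : Tr := (.ex (nat_lit 6) (.split (nat_lit 7) (nat_lit 3) (.split (nat_lit 8) (nat_lit 7) (.split (nat_lit 9) (nat_lit 0) (.split (nat_lit 8) (nat_lit 1) (.pd (.cons (nat_lit 1) (nat_lit 4) (nat_lit 0) (nat_lit 0x737602200) (nat_lit 0xf423ff423f65b97b71aef423f0000061a795b8cc00000b71ae) (.cons (nat_lit 1) (nat_lit 7) (nat_lit 0) (nat_lit 0x805442200) (nat_lit 0xf423ff423f00000f423fb71ae1f156f423fb71ae00000b71ae) (.cons (nat_lit 2) (nat_lit 4) (nat_lit 0) (nat_lit 0x187607000) (nat_lit 0xf423f61a7965b97b71aef423f00000f423f000005b8cc1456d) (.cons (nat_lit 2) (nat_lit 7) (nat_lit 0) (nat_lit 0x105443000) (nat_lit 0xf423ff423f00000f423fb71ae1f156f423f00000b71ae65b97) .nil)))) (.st (nat_lit 9) (nat_lit 2) (nat_lit 4) (nat_lit 0x55445) (nat_lit 0x2000500060004000200000003000000040003) (nat_lit 1) (nat_lit 1) (.pd (.cons (nat_lit 3) (nat_lit 8) (nat_lit 0) (nat_lit 0x65440100) (nat_lit 0xf423f00000f423fb71aea2c280473700000f423f5459106711) .nil) (.leaf (.cons (nat_lit 0x15014) (nat_lit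 0x300020001000000000000000300040000) (.cons (nat_lit 0x10054) (nat_lit 0x100000000000000000001000200020000) (.cons (nat_lit 0x5540) (nat_lit 0x20003000400030001000000000000) (.cons (nat_lit 0x10015) (nat_lit 0x100000000000000000000000200020001) .nil)))) .nil)))) (.non (nat_lit 2) (nat_lit 5) (nat_lit 0x2a084) (nat_lit 0x200020001000000000001000000020000))) (.non (nat_lit 2) (nat_lit 5) (nat_lit 0x95045) (nat_lit 0x1000200020001000000000001000000020002))) (.non (nat_lit 1) (nat_lit 5) (nat_lit 0x25040) (nat_lit 0x100020001000000000001000000000000))) (.non (nat_lit 1) (nat_lit 5) (nat_lit 0x2a040) (nat_lit 0x100020001000000000002000000000000))) (.split (nat_lit 0xa) (nat_lit 0) (.split (nat_lit 0xa) (nat_lit 1) (.split (nat_lit 0xa) (nat_lit 2) (.split (nat_lit 0xa) (nat_lit 3) (.split (nat_lit 0xa) (nat_lit 4) (.split (nat_lit 0xa) (nat_lit 7) (.split (nat_lit 0xa) (nat_lit 8) (.split (nat_lit 0xa) (nat_lit 9) (.split (nat_lit 0xa) (nat_lit 5) (.sup (nat_lit 0x20009000a0005) (nat_lit 0x30000000000010007000a00080000000000000000))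 (.unj (nat_lit 0x101400) (nat_lit 0x10000000000000001000100000000000000000000) (nat_lit 0x55) (nat_lit 0x1000200020001))) (.non (nat_lit 2) (nat_lit 5) (nat_lit 0x155005) (nat_lit 0x10001000100010001000000000000000000010001))) (.non (nat_lit 1) (nat_lit 5) (nat_lit 0x115000) (nat_lit 0x10000000100010001000000000000000000000000))) (.non (nat_lit 1) (nat_lit 5) (nat_lit 0x105000) (nat_lit 0x10000000000010001000000000000000000000000))) (.non (nat_lit 2) (nat_lit 5) (nat_lit 0x115145) (nat_lit 0x20000000300040003000000010002000000020001))) (.non (nat_lit 1) (nat_lit 5) (nat_lit 0x105040) (nat_lit 0x10000000000010001000000000001000000000000))) (.star (nat_lit 0xa) (nat_lit 2) (nat_lit 6))) (.star (nat_lit 0xa) (nat_lit 1) (nat_lit 6))) (.non (nat_lit 2) (nat_lit 5) (nat_lit 0x115005) (nat_lit 0x10000000100010001000000000000000000010001))))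

noncomputable def t761_67 : Tr := (.ex (nat_lit 4) (.ex (nat_lit 5) t761_66 (.split (nat_lit 0xa) (nat_lit 0) (.split (nat_lit 0xa) (nat_lit 1) (.split (nat_lit 0xa) (nat_lit 2) (.split (nat_lit 0xa) (nat_lit 3) (.split (nat_lit 0xa) (nat_lit 4) (.split (nat_lit 0xa) (nat_lit 7) (.split (nat_lit 0xa) (nat_lit 8) (.split (nat_lit 0xa) (nat_lit 9) (.split (nat_lit 0xa) (nat_lit 6) (.unj (nat_lit 0x55) (nat_lit 0x1000200020001) (nat_lit 0x101500) (nat_lit 0x10000000000000001000200020000000000000000)) (.unj (nat_lit 0x101400) (nat_lit 0x10000000000000001000100000000000000000000) (nat_lit 0x55) (nat_lit 0x1000200020001))) (.non (nat_lit 1) (nat_lit 6) (nat_lit 0x140501) (nat_lit 0x30002000000000000000400030000000000000001))) (.non (nat_lit 1) (nat_lit 6) (nat_lit 0x114500) (nat_lit 0x30000000200010000000400030000000000000000))) (.non (nat_lit 1) (nat_lit 5) (nat_lit 0x115040) (nat_lit 0x10000000100020001000000000001000000000000))) (.non (nat_lit 1) (nat_lit 6) (nat_lit 0x100500) (nat_lit 0x10000000000000000000100010000000000000000)))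 (.non (nat_lit 1) (nat_lit 5) (nat_lit 0x115050) (nat_lit 0x10000000100020001000000000002000100000000))) (.star (nat_lit 0xa) (nat_lit 2) (nat_lit 5))) (.star (nat_lit 0xa) (nat_lit 1) (nat_lit 5))) (.non (nat_lit 1) (nat_lit 6) (nat_lit 0x140501) (nat_lit 0x30001000000000000000400030000000000000002)))) (.split (nat_lit 0xa) (nat_lit 0) (.split (nat_lit 0xa) (nat_lit 1) (.split (nat_lit 0xa) (nat_lit 2) (.split (nat_lit 0xa) (nat_lit 3) (.split (nat_lit 0xa) (nat_lit 5) (.split (nat_lit 0xa) (nat_lit 6) (.split (nat_lit 0xa) (nat_lit 7) (.split (nat_lit 0xa) (nat_lit 8) (.split (nat_lit 0xa) (nat_lit 9) (.unj (nat_lit 0x55) (nat_lit 0x1000200020001) (nat_lit 0x101500) (nat_lit 0x10000000000000001000200020000000000000000)) (.non (nat_lit 1) (nat_lit 6) (nat_lit 0x140501) (nat_lit 0x30002000000000000000300040000000000000001))) (.non (nat_lit 1) (nat_lit 6) (nat_lit 0x114500) (nat_lit 0x30000000200010000000300040000000000000000))) (.non (nat_lit 1) (nat_lit 5) (nat_lit 0x115040) (nat_lit 0x10000000100020001000000000001000000000000)))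 (.non (nat_lit 2) (nat_lit 5) (nat_lit 0x115145) (nat_lit 0x20000000300040003000000010002000000020001))) (.non (nat_lit 1) (nat_lit 6) (nat_lit 0x100500) (nat_lit 0x10000000000000000000100010000000000000000))) (.non (nat_lit 1) (nat_lit 5) (nat_lit 0x115050) (nat_lit 0x10000000100020001000000000002000100000000))) (.non (nat_lit 1) (nat_lit 6) (nat_lit 0x100550) (nat_lit 0x30000000000000000000300040001000200000000))) (.non (nat_lit 2) (nat_lit 5) (nat_lit 0x154105) (nat_lit 0x20001000200010000000000010000000000030002))) (.non (nat_lit 1) (nat_lit 6) (nat_lit 0x140501) (nat_lit 0x30001000000000000000300040000000000000002))))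

noncomputable def t761_68 : Tr := (.split (nat_lit 9) (nat_lit 4) (.split (nat_lit 9) (nat_lit 5) (.split (nat_lit 9) (nat_lit 6) (.split (nat_lit 9) (nat_lit 7) (.split (nat_lit 9) (nat_lit 8) (.split (nat_lit 9) (nat_lit 2) (.st (nat_lit 0) (nat_lit 2) (nat_lit 5) (nat_lit 0x55045) (nat_lit 0x1000200020001000000000001000000020002) (nat_lit 1) (nat_lit 1) (.ex (nat_lit 2) t761_67 (.split (nat_lit 0xa) (nat_lit 0) (.split (nat_lit 0xa) (nat_lit 1) (.split (nat_lit 0xa) (nat_lit 3) (.split (nat_lit 0xa) (nat_lit 4) (.split (nat_lit 0xa) (nat_lit 5) (.split (nat_lit 0xa) (nat_lit 6) (.split (nat_lit 0xa) (nat_lit 7) (.split (nat_lit 0xa) (nat_lit 8) (.split (nat_lit 0xa) (nat_lit 9) (.split (nat_lit 0xa) (nat_lit 2) (.split (nat_lit 9) (nat_lit 0) (.split (nat_lit 8) (nat_lit 1) (.sup (nat_lit 0x10007000b0010000d0001000000000000) (nat_lit 0x20002000000000000000000000000000500050003)) (.non (nat_lit 2) (nat_lit 5) (nat_lit 0x2a084) (nat_lit 0x200020001000000000001000000020000))) (.non (nat_lit 2) (nat_lit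 5) (nat_lit 0x95045) (nat_lit 0x1000200020001000000000001000000020002))) (.non (nat_lit 1) (nat_lit 5) (nat_lit 0x215050) (nat_lit 0x10000000100020001000000000002000200000000))) (.sup (nat_lit 0x100040006000800060001000000000000) (nat_lit 0x20002000000000000000000000000000200020002))) (.non (nat_lit 1) (nat_lit 5) (nat_lit 0x114050) (nat_lit 0x10000000100010000000000000001000100000000))) (.non (nat_lit 1) (nat_lit 5) (nat_lit 0x115040) (nat_lit 0x10000000100020001000000000001000000000000))) (.star (nat_lit 0xa) (nat_lit 2) (nat_lit 6))) (.star (nat_lit 0xa) (nat_lit 2) (nat_lit 5))) (.non (nat_lit 1) (nat_lit 6) (nat_lit 0x100550) (nat_lit 0x30000000000000000000300040001000200000000))) (.non (nat_lit 1) (nat_lit 5) (nat_lit 0x100050) (nat_lit 0x10000000000000000000000000001000100000000))) (.non (nat_lit 2) (nat_lit 5) (nat_lit 0x115045) (nat_lit 0x10000000200020001000000000001000000020001))) (.non (nat_lit 2) (nat_lit 5) (nat_lit 0x155045) (nat_lit 0x10001000200020001000000000001000000020002))))) (.sup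 (nat_lit 0x4000000000000000000000000000300050004) (nat_lit 0x20003000500040001000000000000))) (.non (nat_lit 2) (nat_lit 5) (nat_lit 0x55044) (nat_lit 0x1000200020001000000000001000000010000))) (.non (nat_lit 1) (nat_lit 5) (nat_lit 0x55040) (nat_lit 0x1000100020001000000000001000000000000))) (.non (nat_lit 2) (nat_lit 5) (nat_lit 0x55005) (nat_lit 0x1000100010001000000000000000000010001))) (.non (nat_lit 2) (nat_lit 6) (nat_lit 0x40505) (nat_lit 0x3000000000000000400030000000000010002))) (.non (nat_lit 2) (nat_lit 6) (nat_lit 0x40505) (nat_lit 0x3000000000000000300040000000000010002)))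

noncomputable def t761_69 : Tr := (.st (nat_lit 8) (nat_lit 2) (nat_lit 5) (nat_lit 0x15044) (nat_lit 0x200020001000000000001000000010000) (nat_lit 1) (nat_lit 1) (.ex (nat_lit 0) (.ex (nat_lit 2) (.ex (nat_lit 4) t761_63 (.split (nat_lit 9) (nat_lit 0) (.split (nat_lit 9) (nat_lit 1) (.split (nat_lit 9) (nat_lit 2) (.split (nat_lit 9) (nat_lit 3) (.split (nat_lit 9) (nat_lit 5) (.split (nat_lit 9) (nat_lit 6) (.split (nat_lit 9) (nat_lit 7) (.split (nat_lit 9) (nat_lit 8) (.unj (nat_lit 0x55) (nat_lit 0x1000200020001) (nat_lit 0x41500) (nat_lit 0x1000000000001000200020000000000000000)) (.non (nat_lit 1) (nat_lit 6) (nat_lit 0x54500) (nat_lit 0x3000200010000000300040000000000000000))) (.non (nat_lit 1) (nat_lit 5) (nat_lit 0x55040) (nat_lit 0x1000100020001000000000001000000000000))) (.non (nat_lit 2) (nat_lit 5) (nat_lit 0x55145) (nat_lit 0x2000300040003000000010002000000020001))) (.non (nat_lit 1) (nat_lit 6) (nat_lit 0x40500) (nat_lit 0x1000000000000000100010000000000000000))) (.non (nat_lit 1) (nat_lit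 5) (nat_lit 0x55050) (nat_lit 0x1000100020001000000000002000100000000))) (.non (nat_lit 1) (nat_lit 6) (nat_lit 0x40550) (nat_lit 0x3000000000000000300040001000200000000))) (.non (nat_lit 2) (nat_lit 5) (nat_lit 0x55045) (nat_lit 0x1000200020001000000000001000000020001))) (.non (nat_lit 2) (nat_lit 6) (nat_lit 0x40505) (nat_lit 0x3000000000000000300040000000000010002)))) (.split (nat_lit 9) (nat_lit 1) (.split (nat_lit 9) (nat_lit 3) (.split (nat_lit 9) (nat_lit 4) (.split (nat_lit 9) (nat_lit 5) (.split (nat_lit 9) (nat_lit 6) (.split (nat_lit 9) (nat_lit 7) (.split (nat_lit 9) (nat_lit 8) (.split (nat_lit 9) (nat_lit 0) t761_65 (.sup (nat_lit 0x4000000000000000000000000000300050004) (nat_lit 0x20003000500040001000000000000))) (.non (nat_lit 1) (nat_lit 5) (nat_lit 0x54050) (nat_lit 0x1000100010000000000000001000100000000))) (.non (nat_lit 1) (nat_lit 5) (nat_lit 0x55040) (nat_lit 0x1000100020001000000000001000000000000))) (.star (nat_lit 9) (nat_lit 2) (nat_lit 6))) (.star (nat_lit 9) (nat_lit 2) (nat_lit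 5))) (.non (nat_lit 1) (nat_lit 6) (nat_lit 0x40550) (nat_lit 0x3000000000000000300040001000200000000))) (.non (nat_lit 1) (nat_lit 5) (nat_lit 0x40050) (nat_lit 0x1000000000000000000000001000100000000))) (.non (nat_lit 2) (nat_lit 5) (nat_lit 0x55045) (nat_lit 0x1000200020001000000000001000000020001)))) (.split (nat_lit 9) (nat_lit 1) (.split (nat_lit 9) (nat_lit 3) t761_68 (.non (nat_lit 1) (nat_lit 5) (nat_lit 0x55050) (nat_lit 0x1000100020001000000000002000100000000))) (.non (nat_lit 2) (nat_lit 5) (nat_lit 0x40005) (nat_lit 0x1000000000000000000000000000000010001)))))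

noncomputable def t761_70 : Tr := (.split (nat_lit 7) (nat_lit 3) (.split (nat_lit 4) (nat_lit 3) (.ex (nat_lit 0) t761_62 (.split (nat_lit 9) (nat_lit 1) (.split (nat_lit 9) (nat_lit 4) (.split (nat_lit 9) (nat_lit 5) (.split (nat_lit 9) (nat_lit 6) (.split (nat_lit 9) (nat_lit 7) (.split (nat_lit 9) (nat_lit 8) (.split (nat_lit 9) (nat_lit 2) (.split (nat_lit 9) (nat_lit 3) (.split (nat_lit 9) (nat_lit 0) (.split (nat_lit 8) (nat_lit 1) (.sup (nat_lit 0x3000c00160020001a0000000000000000) (nat_lit 0x2000000000000000000000004000700070005)) (.non (nat_lit 2) (nat_lit 5) (nat_lit 0x68005) (nat_lit 0x1000200010000000000000000000000030002))) (.split (nat_lit 9) (nat_lit 0) (.split (nat_lit 8) (nat_lit 1) (.sup (nat_lit 0x20007000b0010000d0000000000000000) (nat_lit 0x2000000000000000000000001000300030003)) (.non (nat_lit 2) (nat_lit 5) (nat_lit 0xa0005) (nat_lit 0x1000100000000000000000000000000020002))) (.non (nat_lit 2) (nat_lit 5) (nat_lit 0x54005) (nat_lit 0x3000200010000000000000000000000030004))))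 (.split (nat_lit 9) (nat_lit 0) (.split (nat_lit 9) (nat_lit 3) (.split (nat_lit 8) (nat_lit 1) (.sup (nat_lit 0x100030006000800060000000000000000) (nat_lit 0x1000000000000000000000001000100010001)) (.non (nat_lit 2) (nat_lit 5) (nat_lit 0x68005) (nat_lit 0x1000200010000000000000000000000030002))) (.sup (nat_lit 0x7000f00170020001a0000000000000000) (nat_lit 0x5000000000000000000000006000300010003))) (.non (nat_lit 2) (nat_lit 5) (nat_lit 0x90085) (nat_lit 0x2000100000000000000000001000000020003)))) (.split (nat_lit 9) (nat_lit 3) (.sup (nat_lit 0x9000000000000000000000000000a00070008) (nat_lit 0x100040007000a00080000000000000000)) (.non (nat_lit 1) (nat_lit 5) (nat_lit 0x40050) (nat_lit 0x1000000000000000000000001000100000000)))) (.non (nat_lit 2) (nat_lit 5) (nat_lit 0x50005) (nat_lit 0x1000100000000000000000000000000010001))) (.non (nat_lit 2) (nat_lit 5) (nat_lit 0x54005) (nat_lit 0x1000100010000000000000000000000010001))) (.non (nat_lit 2) (nat_lit 5) (nat_lit 0x55005) (nat_lit 0x1000100010001000000000000000000010001)))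 (.non (nat_lit 2) (nat_lit 6) (nat_lit 0x40505) (nat_lit 0x3000000000000000400030000000000010002))) (.non (nat_lit 2) (nat_lit 6) (nat_lit 0x40505) (nat_lit 0x3000000000000000300040000000000010002))) (.non (nat_lit 2) (nat_lit 5) (nat_lit 0x40005) (nat_lit 0x1000000000000000000000000000000010001)))) (.sup (nat_lit 0x5000000000000000000000006000a0005) (nat_lit 0x5000a00090002000000000000))) (.split (nat_lit 4) (nat_lit 3) (.st (nat_lit 1) (nat_lit 2) (nat_lit 5) (nat_lit 0x15045) (nat_lit 0x200020001000000000001000000020001) (nat_lit 1) (nat_lit 1) (.st (nat_lit 3) (nat_lit 1) (nat_lit 5) (nat_lit 0x15050) (nat_lit 0x100020001000000000002000100000000) (nat_lit 1) (nat_lit 1) (.st (nat_lit 7) (nat_lit 1) (nat_lit 5) (nat_lit 0x15040) (nat_lit 0x100020001000000000001000000000000) (nat_lit 1) (nat_lit 1) t761_69))) (.non (nat_lit 1) (nat_lit 5) (nat_lit 0x15150) (nat_lit 0x100020001000000010002000100000000))))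

noncomputable def t761_71 : Tr := (.ex (nat_lit 6) (.split (nat_lit 8) (nat_lit 3) (.split (nat_lit 8) (nat_lit 7) (.split (nat_lit 8) (nat_lit 1) (.pd (.cons (nat_lit 0) (nat_lit 8) (nat_lit 0) (nat_lit 0x65442110) (nat_lit 0xf423fb71aea2c2804737f423fb71ae1f15600000) (.cons (nat_lit 1) (nat_lit 4) (nat_lit 0) (nat_lit 0x387602200) (nat_lit 0x98965a2c28b71aef423f00000927bd8e6a200000f423f) (.cons (nat_lit 1) (nat_lit 7) (nat_lit 0) (nat_lit 0x305442200) (nat_lit 0xf423f00000f423fb71ae1f156b71aea2c2800000f423f) (.cons (nat_lit 1) (nat_lit 8) (nat_lit 0) (nat_lit 0x65442200) (nat_lit 0xf423fb71aea2c2804737f423fb71ae00000f423f) (.cons (nat_lit 2) (nat_lit 4) (nat_lit 0) (nat_lit 0x187608000) (nat_lit 0x5b8d4a2c28b71aef423f00000f423f000005160d3d07c) (.cons (nat_lit 2) (nat_lit 7) (nat_lit 0) (nat_lit 0x105448000) (nat_lit 0xb71ae00000f423fb71ae1f156f423f00000a2c2898965) (.cons (nat_lit 2) (nat_lit 8) (nat_lit 0) (nat_lit 0x65443000) (nat_lit 0xf423fb71aea2c2804737f423f00000f423fb71ae) (.cons (nat_lit 3)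 (nat_lit 8) (nat_lit 0) (nat_lit 0x65440100) (nat_lit 0xf423fb71aea2c280473700000f423f54591437a2) .nil)))))))) (.leaf (.cons (nat_lit 0x15014) (nat_lit 0x300020001000000000000000300040000) (.cons (nat_lit 0x10054) (nat_lit 0x100000000000000000001000100010000) (.cons (nat_lit 0x10015) (nat_lit 0x100000000000000000000000200020001) .nil))) .nil)) (.non (nat_lit 2) (nat_lit 5) (nat_lit 0x28084) (nat_lit 0x200010000000000000001000000020000))) (.non (nat_lit 1) (nat_lit 5) (nat_lit 0x1a050) (nat_lit 0x300020001000000000002000100000000))) (.non (nat_lit 1) (nat_lit 5) (nat_lit 0x2a050) (nat_lit 0x300020001000000000004000200000000))) (.split (nat_lit 9) (nat_lit 0) (.split (nat_lit 9) (nat_lit 1) (.split (nat_lit 9) (nat_lit 2) (.split (nat_lit 9) (nat_lit 3) (.split (nat_lit 9) (nat_lit 7) (.split (nat_lit 9) (nat_lit 8) (.split (nat_lit 9) (nat_lit 4) (.split (nat_lit 9) (nat_lit 5) (.unj (nat_lit 0x55) (nat_lit 0x1000200020001) (nat_lit 0x45500) (nat_lit 0x1000000010002000200020000000000000000)) (.unj (nat_lit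 0x41400) (nat_lit 0x1000000000001000100000000000000000000) (nat_lit 0x55) (nat_lit 0x1000200020001))) (.split (nat_lit 9) (nat_lit 5) (.unj (nat_lit 0x55) (nat_lit 0x1000200020001) (nat_lit 0x41500) (nat_lit 0x1000000000001000100010000000000000000)) (.non (nat_lit 1) (nat_lit 6) (nat_lit 0x40500) (nat_lit 0x1000000000000000100010000000000000000)))) (.non (nat_lit 1) (nat_lit 5) (nat_lit 0x55000) (nat_lit 0x1000100010001000000000000000000000000))) (.non (nat_lit 1) (nat_lit 5) (nat_lit 0x45000) (nat_lit 0x1000000010001000000000000000000000000))) (.non (nat_lit 1) (nat_lit 5) (nat_lit 0x55040) (nat_lit 0x1000100010001000000000001000000000000))) (.star (nat_lit 9) (nat_lit 2) (nat_lit 6))) (.star (nat_lit 9) (nat_lit 1) (nat_lit 6))) (.non (nat_lit 2) (nat_lit 5) (nat_lit 0x55005) (nat_lit 0x1000100010001000000000000000000010001))))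

noncomputable def t761_72 : Tr := (.ex (nat_lit 2) (.ex (nat_lit 4) (.ex (nat_lit 5) t761_71 (.split (nat_lit 9) (nat_lit 0) (.split (nat_lit 9) (nat_lit 1) (.split (nat_lit 9) (nat_lit 2) (.split (nat_lit 9) (nat_lit 3) (.split (nat_lit 9) (nat_lit 4) (.split (nat_lit 9) (nat_lit 7) (.split (nat_lit 9) (nat_lit 8) (.split (nat_lit 9) (nat_lit 6) (.unj (nat_lit 0x55) (nat_lit 0x1000200020001) (nat_lit 0x41500) (nat_lit 0x1000000000001000200020000000000000000)) (.unj (nat_lit 0x41400) (nat_lit 0x1000000000001000100000000000000000000) (nat_lit 0x55) (nat_lit 0x1000200020001))) (.non (nat_lit 1) (nat_lit 6) (nat_lit 0x54500) (nat_lit 0x3000200010000000400030000000000000000))) (.non (nat_lit 1) (nat_lit 6) (nat_lit 0x54500) (nat_lit 0x3000100020000000400030000000000000000))) (.non (nat_lit 1) (nat_lit 6) (nat_lit 0x40500) (nat_lit 0x1000000000000000100010000000000000000))) (.non (nat_lit 1) (nat_lit 6) (nat_lit 0x50540) (nat_lit 0x3000100000000000400030002000000000000))) (.star (nat_lit 9) (nat_lit 2) (nat_lit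 5))) (.star (nat_lit 9) (nat_lit 1) (nat_lit 5))) (.non (nat_lit 2) (nat_lit 6) (nat_lit 0x40505) (nat_lit 0x3000000000000000400030000000000010002)))) (.split (nat_lit 9) (nat_lit 0) (.split (nat_lit 9) (nat_lit 1) (.split (nat_lit 9) (nat_lit 2) (.split (nat_lit 9) (nat_lit 3) (.split (nat_lit 9) (nat_lit 5) (.split (nat_lit 9) (nat_lit 7) (.split (nat_lit 9) (nat_lit 8) (.split (nat_lit 9) (nat_lit 6) (.unj (nat_lit 0x55) (nat_lit 0x1000200020001) (nat_lit 0x41500) (nat_lit 0x1000000000001000200020000000000000000)) (.unj (nat_lit 0x55) (nat_lit 0x1000200020001) (nat_lit 0x41500) (nat_lit 0x1000000000001000100010000000000000000))) (.non (nat_lit 1) (nat_lit 5) (nat_lit 0x55150) (nat_lit 0x2000300020001000000010002000100000000))) (.non (nat_lit 1) (nat_lit 6) (nat_lit 0x54500) (nat_lit 0x3000100020000000300040000000000000000))) (.non (nat_lit 1) (nat_lit 6) (nat_lit 0x40500) (nat_lit 0x1000000000000000100010000000000000000))) (.non (nat_lit 1) (nat_lit 6) (nat_lit 0x50540) (nat_lit 0x3000100000000000300040002000000000000)))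 (.non (nat_lit 1) (nat_lit 6) (nat_lit 0x40550) (nat_lit 0x3000000000000000300040001000200000000))) (.non (nat_lit 2) (nat_lit 5) (nat_lit 0x54045) (nat_lit 0x1000200010000000000000001000000020001))) (.non (nat_lit 2) (nat_lit 6) (nat_lit 0x40505) (nat_lit 0x3000000000000000300040000000000010002)))) (.split (nat_lit 9) (nat_lit 1) (.split (nat_lit 9) (nat_lit 3) (.split (nat_lit 9) (nat_lit 4) (.split (nat_lit 9) (nat_lit 5) (.split (nat_lit 9) (nat_lit 6) (.split (nat_lit 9) (nat_lit 7) (.split (nat_lit 9) (nat_lit 8) (.split (nat_lit 9) (nat_lit 0) (.split (nat_lit 9) (nat_lit 2) (.split (nat_lit 8) (nat_lit 1) (.split (nat_lit 8) (nat_lit 3) (.sup (nat_lit 0x10006000b0010000d0000000000000000) (nat_lit 0x2000000000000000000000001000300020001)) (.non (nat_lit 1) (nat_lit 5) (nat_lit 0x68050) (nat_lit 0x1000200010000000000000003000200000000))) (.non (nat_lit 2) (nat_lit 5) (nat_lit 0x28084) (nat_lit 0x200010000000000000001000000020000))) (.split (nat_lit 9) (nat_lit 2) (.split (nat_lit 8) (nat_lit 1)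 (.sup (nat_lit 0x7000000000000000000000000000a00060000) (nat_lit 0x100040007000a00080000000000000000)) (.non (nat_lit 2) (nat_lit 5) (nat_lit 0x28084) (nat_lit 0x200010000000000000001000000020000))) (.non (nat_lit 1) (nat_lit 5) (nat_lit 0x54050) (nat_lit 0x3000200010000000000000003000400000000)))) (.sup (nat_lit 0x9000000000000000000000000000a00070008) (nat_lit 0x100040007000a00080000000000000000))) (.non (nat_lit 1) (nat_lit 5) (nat_lit 0x50050) (nat_lit 0x1000100000000000000000001000100000000))) (.non (nat_lit 1) (nat_lit 5) (nat_lit 0x54050) (nat_lit 0x1000100010000000000000001000100000000))) (.star (nat_lit 9) (nat_lit 2) (nat_lit 6))) (.star (nat_lit 9) (nat_lit 2) (nat_lit 5))) (.non (nat_lit 1) (nat_lit 6) (nat_lit 0x40550) (nat_lit 0x3000000000000000300040001000200000000))) (.non (nat_lit 1) (nat_lit 5) (nat_lit 0x40050) (nat_lit 0x1000000000000000000000001000100000000))) (.non (nat_lit 2) (nat_lit 5) (nat_lit 0x54045) (nat_lit 0x1000200010000000000000001000000020001))))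

noncomputable def t761_73 : Tr := (.pd (.cons (nat_lit 0) (nat_lit 8) (nat_lit 0) (nat_lit 0x65442110) (nat_lit 0xf423fb71aea2c2804737f423fb71ae1f15600000) (.cons (nat_lit 1) (nat_lit 8) (nat_lit 0) (nat_lit 0x65442200) (nat_lit 0xf423fb71aea2c2804737f423fb71ae00000f423f) (.cons (nat_lit 2) (nat_lit 8) (nat_lit 0) (nat_lit 0x65443000) (nat_lit 0xf423fb71aea2c2804737f423f00000f423fb71ae) (.cons (nat_lit 3) (nat_lit 8) (nat_lit 0) (nat_lit 0x65440100) (nat_lit 0xf423fb71aea2c280473700000f423f54591437a2) .nil)))) (.ex (nat_lit 8) (.split (nat_lit 8) (nat_lit 7) (.pd (.cons (nat_lit 1) (nat_lit 4) (nat_lit 0) (nat_lit 0x287602200) (nat_lit 0x98965a2c28b71aef423f00000f423f5572c00000f423f) (.cons (nat_lit 2) (nat_lit 4) (nat_lit 0) (nat_lit 0x187603000) (nat_lit 0x98965a2c28b71aef423f00000f423f00000927bd8e6a2) .nil)) (.leaf (.cons (nat_lit 0x10014) (nat_lit 0x100000000000000000000000100010000) .nil) .nil)) (.non (nat_lit 1) (nat_lit 5) (nat_lit 0x1a050) (nat_lit 0x300020001000000000001000200000000))) (.split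 (nat_lit 9) (nat_lit 0) (.split (nat_lit 9) (nat_lit 1) (.split (nat_lit 9) (nat_lit 2) (.split (nat_lit 9) (nat_lit 3) (.split (nat_lit 9) (nat_lit 4) (.split (nat_lit 9) (nat_lit 5) (.split (nat_lit 9) (nat_lit 6) (.split (nat_lit 9) (nat_lit 7) (.st (nat_lit 8) (nat_lit 1) (nat_lit 5) (nat_lit 0x54010) (nat_lit 0x1000200010000000000000000000100000000) (nat_lit 1) (nat_lit 1) (.split (nat_lit 8) (nat_lit 7) (.split (nat_lit 9) (nat_lit 8) (.pd (.cons (nat_lit 1) (nat_lit 4) (nat_lit 0) (nat_lit 0x8287602200) (nat_lit 0xf423f5b8d4a2c28b71aef423f00000f423f1457c00000f423f) (.cons (nat_lit 2) (nat_lit 4) (nat_lit 0) (nat_lit 0x8187603000) (nat_lit 0xf423f5b8d4a2c28b71aef423f00000f423f000005160d3d07c) .nil)) (.leaf (.cons (nat_lit 0x10014) (nat_lit 0x100000000000000000000000100010000) .nil) .nil)) (.non (nat_lit 1) (nat_lit 5) (nat_lit 0x94010) (nat_lit 0x1000200010000000000000000000100000000))) (.non (nat_lit 1) (nat_lit 5) (nat_lit 0x58010) (nat_lit 0x1000200010000000000000000000100000000)))) (.non (nat_lit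 1) (nat_lit 5) (nat_lit 0x54000) (nat_lit 0x1000100010000000000000000000000000000))) (.non (nat_lit 1) (nat_lit 5) (nat_lit 0x55000) (nat_lit 0x1000100010001000000000000000000000000))) (.non (nat_lit 1) (nat_lit 6) (nat_lit 0x54500) (nat_lit 0x3000200010000000400030000000000000000))) (.non (nat_lit 1) (nat_lit 5) (nat_lit 0x55150) (nat_lit 0x2000300020001000000010001000200000000))) (.non (nat_lit 1) (nat_lit 5) (nat_lit 0x50050) (nat_lit 0x1000100000000000000000001000100000000))) (.non (nat_lit 1) (nat_lit 5) (nat_lit 0x50010) (nat_lit 0x1000100000000000000000000000100000000))) (.non (nat_lit 2) (nat_lit 5) (nat_lit 0x50004) (nat_lit 0x1000100000000000000000000000000010000))) (.non (nat_lit 1) (nat_lit 5) (nat_lit 0x55051) (nat_lit 0x2000300020001000000000001000200000001)))))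

noncomputable def t761_74 : Tr := (.ex (nat_lit 6) (.split (nat_lit 8) (nat_lit 2) (.split (nat_lit 8) (nat_lit 1) (.pd (.cons (nat_lit 1) (nat_lit 7) (nat_lit 0) (nat_lit 0x205442200) (nat_lit 0xf423f00000f423fb71ae1f156f423f7a11d00000f423f) (.cons (nat_lit 2) (nat_lit 7) (nat_lit 0) (nat_lit 0x105443000) (nat_lit 0xf423f00000f423fb71ae1f156f423f00000b71aea2c28) .nil)) (.ex (nat_lit 7) t761_73 (.split (nat_lit 9) (nat_lit 0) (.split (nat_lit 9) (nat_lit 1) (.split (nat_lit 9) (nat_lit 2) (.split (nat_lit 9) (nat_lit 3) (.split (nat_lit 9) (nat_lit 4) (.split (nat_lit 9) (nat_lit 5) (.split (nat_lit 9) (nat_lit 6) (.split (nat_lit 9) (nat_lit 8) (.unj (nat_lit 0x55) (nat_lit 0x1000200020001) (nat_lit 0x45500) (nat_lit 0x1000000020003000400030000000000000000)) (.non (nat_lit 1) (nat_lit 5) (nat_lit 0x54000) (nat_lit 0x1000100010000000000000000000000000000))) (.non (nat_lit 1) (nat_lit 5) (nat_lit 0x45000) (nat_lit 0x1000000010001000000000000000000000000))) (.non (nat_lit 1) (nat_lit 6) (nat_lit 0x54500)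 (nat_lit 0x3000100020000000400030000000000000000))) (.non (nat_lit 1) (nat_lit 6) (nat_lit 0x54500) (nat_lit 0x3000100020000000300040000000000000000))) (.non (nat_lit 1) (nat_lit 5) (nat_lit 0x54050) (nat_lit 0x1000100010000000000000001000100000000))) (.non (nat_lit 1) (nat_lit 5) (nat_lit 0x54010) (nat_lit 0x1000100010000000000000000000100000000))) (.non (nat_lit 2) (nat_lit 5) (nat_lit 0x54004) (nat_lit 0x1000100010000000000000000000000010000))) (.non (nat_lit 2) (nat_lit 5) (nat_lit 0x54005) (nat_lit 0x1000100010000000000000000000000010001))))) (.non (nat_lit 2) (nat_lit 5) (nat_lit 0x2a005) (nat_lit 0x300020001000000000000000000040002))) (.non (nat_lit 1) (nat_lit 5) (nat_lit 0x2a050) (nat_lit 0x300020001000000000002000400000000))) (.split (nat_lit 9) (nat_lit 0) (.split (nat_lit 9) (nat_lit 1) (.split (nat_lit 9) (nat_lit 2) (.split (nat_lit 9) (nat_lit 3) (.split (nat_lit 9) (nat_lit 7) (.split (nat_lit 9) (nat_lit 8) (.split (nat_lit 9) (nat_lit 4) (.split (nat_lit 9) (nat_lit 5) (.unj (nat_lit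 0x55) (nat_lit 0x1000200020001) (nat_lit 0x45500) (nat_lit 0x1000000010002000200020000000000000000)) (.unj (nat_lit 0x10014) (nat_lit 0x100000000000000000000000100010000) (nat_lit 0x41400) (nat_lit 0x1000000000001000100000000000000000000))) (.split (nat_lit 9) (nat_lit 5) (.unj (nat_lit 0x10014) (nat_lit 0x100000000000000000000000100010000) (nat_lit 0x41500) (nat_lit 0x1000000000001000100010000000000000000)) (.non (nat_lit 1) (nat_lit 6) (nat_lit 0x40500) (nat_lit 0x1000000000000000100010000000000000000)))) (.non (nat_lit 1) (nat_lit 5) (nat_lit 0x55000) (nat_lit 0x1000100010001000000000000000000000000))) (.non (nat_lit 1) (nat_lit 5) (nat_lit 0x45000) (nat_lit 0x1000000010001000000000000000000000000))) (.non (nat_lit 1) (nat_lit 5) (nat_lit 0x55050) (nat_lit 0x1000100010001000000000001000100000000))) (.star (nat_lit 9) (nat_lit 2) (nat_lit 6))) (.star (nat_lit 9) (nat_lit 1) (nat_lit 6))) (.non (nat_lit 2) (nat_lit 5) (nat_lit 0x55005) (nat_lit 0x1000100010001000000000000000000010001))))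

noncomputable def t761_75 : Tr := (.ex (nat_lit 8) (.split (nat_lit 8) (nat_lit 7) (.pd (.cons (nat_lit 1) (nat_lit 4) (nat_lit 0) (nat_lit 0x3287602200) (nat_lit 0xf423f98965a2c28b71aef423f00000b71ae411a600000f423f) (.cons (nat_lit 2) (nat_lit 4) (nat_lit 0) (nat_lit 0x3187603000) (nat_lit 0xf423f98965a2c28b71aef423f00000b71ae00000927bd8e6a2) .nil)) (.ex (nat_lit 9) (.pd (.cons (nat_lit 0) (nat_lit 8) (nat_lit 0) (nat_lit 0x3065442110) (nat_lit 0xf423f00000f423fb71aea2c2804737b71aea2c280473700000) .nil) (.leaf (.cons (nat_lit 0x10014) (nat_lit 0x100000000000000000000000100010000) .nil) .nil)) (.split (nat_lit 0xa) (nat_lit 0) (.split (nat_lit 0xa) (nat_lit 1) (.split (nat_lit 0xa) (nat_lit 2) (.split (nat_lit 0xa) (nat_lit 3) (.split (nat_lit 0xa) (nat_lit 4) (.split (nat_lit 0xa) (nat_lit 5) (.split (nat_lit 0xa) (nat_lit 6) (.split (nat_lit 0xa) (nat_lit 7) (.split (nat_lit 0xa) (nat_lit 8) (.leaf (.cons (nat_lit 0x10014) (nat_lit 0x100000000000000000000000100010000) (.cons (nat_lit 0x140054) (nat_lit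 0x10002000000000000000000000003000400030000) .nil)) .nil) (.non (nat_lit 1) (nat_lit 5) (nat_lit 0x150050) (nat_lit 0x10001000100000000000000000001000100000000))) (.non (nat_lit 1) (nat_lit 5) (nat_lit 0x154050) (nat_lit 0x10001000100010000000000000001000100000000))) (.non (nat_lit 1) (nat_lit 5) (nat_lit 0x155050) (nat_lit 0x10001000100010001000000000001000100000000))) (.non (nat_lit 1) (nat_lit 6) (nat_lit 0x140540) (nat_lit 0x30002000000000000000400030001000000000000))) (.non (nat_lit 1) (nat_lit 6) (nat_lit 0x140540) (nat_lit 0x30002000000000000000300040001000000000000))) (.non (nat_lit 1) (nat_lit 5) (nat_lit 0x140040) (nat_lit 0x10001000000000000000000000001000000000000))) (.non (nat_lit 1) (nat_lit 5) (nat_lit 0x140050) (nat_lit 0x10001000000000000000000000001000100000000))) (.non (nat_lit 2) (nat_lit 5) (nat_lit 0x155045) (nat_lit 0x30002000300020001000000000001000000040002))) (.non (nat_lit 3) (nat_lit 8) (nat_lit 0x140015) (nat_lit 0x20001000000000000000000000000000300040003))))) (.non (nat_lit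 1) (nat_lit 5) (nat_lit 0x1a050) (nat_lit 0x300020001000000000001000200000000))) (.split (nat_lit 0xa) (nat_lit 0) (.split (nat_lit 0xa) (nat_lit 1) (.split (nat_lit 0xa) (nat_lit 2) (.split (nat_lit 0xa) (nat_lit 3) (.split (nat_lit 0xa) (nat_lit 4) (.split (nat_lit 0xa) (nat_lit 5) (.split (nat_lit 0xa) (nat_lit 6) (.split (nat_lit 0xa) (nat_lit 7) (.split (nat_lit 0xa) (nat_lit 9) (.split (nat_lit 0xa) (nat_lit 8) (.split (nat_lit 8) (nat_lit 7) (.par (nat_lit 0x155450) (nat_lit 0x20001000400030002000100000002000300000000)) (.non (nat_lit 1) (nat_lit 5) (nat_lit 0x118010) (nat_lit 0x10000000200010000000000000000000100000000))) (.non (nat_lit 1) (nat_lit 5) (nat_lit 0x214010) (nat_lit 0x10000000200010000000000000000000100000000))) (.non (nat_lit 1) (nat_lit 5) (nat_lit 0x150050) (nat_lit 0x10001000100000000000000000001000100000000))) (.non (nat_lit 1) (nat_lit 5) (nat_lit 0x114000) (nat_lit 0x10000000100010000000000000000000000000000))) (.non (nat_lit 1) (nat_lit 5) (nat_lit 0x115000) (nat_lit 0x10000000100010001000000000000000000000000)))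 (.non (nat_lit 1) (nat_lit 6) (nat_lit 0x114500) (nat_lit 0x30000000200010000000400030000000000000000))) (.non (nat_lit 1) (nat_lit 5) (nat_lit 0x115150) (nat_lit 0x20000000300020001000000010001000200000000))) (.non (nat_lit 1) (nat_lit 5) (nat_lit 0x110050) (nat_lit 0x10000000100000000000000000001000100000000))) (.non (nat_lit 1) (nat_lit 5) (nat_lit 0x110010) (nat_lit 0x10000000100000000000000000000000100000000))) (.non (nat_lit 2) (nat_lit 5) (nat_lit 0x110004) (nat_lit 0x10000000100000000000000000000000000010000))) (.non (nat_lit 1) (nat_lit 5) (nat_lit 0x115051) (nat_lit 0x20000000300020001000000000001000200000001))))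

noncomputable def t761_76 : Tr := (.split (nat_lit 9) (nat_lit 3) (.split (nat_lit 8) (nat_lit 1) (.pd (.cons (nat_lit 1) (nat_lit 7) (nat_lit 0) (nat_lit 0x3205442200) (nat_lit 0xf423ff423f00000f423fb71ae1f156b71ae65b9700000f423f) (.cons (nat_lit 2) (nat_lit 7) (nat_lit 0) (nat_lit 0x3105443000) (nat_lit 0xf423ff423f00000f423fb71ae1f156b71ae00000b71aea2c28) .nil)) (.ex (nat_lit 7) (.pd (.cons (nat_lit 1) (nat_lit 8) (nat_lit 0) (nat_lit 0x3065442200) (nat_lit 0xf423f00000f423fb71aea2c2804737b71aea2c2800000f423f) (.cons (nat_lit 2) (nat_lit 8) (nat_lit 0) (nat_lit 0x3065443000) (nat_lit 0xf423f00000f423fb71aea2c2804737b71ae00000f423fb71ae) (.cons (nat_lit 3) (nat_lit 8) (nat_lit 0) (nat_lit 0x9065440100) (nat_lit 0xf423f00000f423fb71aea2c280473700000f423f54591437a2) .nil))) t761_75) (.split (nat_lit 0xa) (nat_lit 0) (.split (nat_lit 0xa) (nat_lit 1) (.split (nat_lit 0xa) (nat_lit 2) (.split (nat_lit 0xa) (nat_lit 3) (.split (nat_lit 0xa) (nat_lit 4) (.split (nat_lit 0xa) (nat_lit 5) (.split (nat_lit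 0xa) (nat_lit 6) (.split (nat_lit 0xa) (nat_lit 8) (.split (nat_lit 0xa) (nat_lit 9) (.unj (nat_lit 0x55) (nat_lit 0x1000200020001) (nat_lit 0x105500) (nat_lit 0x10000000000020003000400030000000000000000)) (.non (nat_lit 1) (nat_lit 5) (nat_lit 0x154050) (nat_lit 0x10001000100010000000000000001000100000000))) (.non (nat_lit 1) (nat_lit 5) (nat_lit 0x114000) (nat_lit 0x10000000100010000000000000000000000000000))) (.non (nat_lit 1) (nat_lit 5) (nat_lit 0x105000) (nat_lit 0x10000000000010001000000000000000000000000))) (.non (nat_lit 1) (nat_lit 6) (nat_lit 0x114500) (nat_lit 0x30000000100020000000400030000000000000000))) (.non (nat_lit 1) (nat_lit 6) (nat_lit 0x114500) (nat_lit 0x30000000100020000000300040000000000000000))) (.non (nat_lit 1) (nat_lit 5) (nat_lit 0x114050) (nat_lit 0x10000000100010000000000000001000100000000))) (.non (nat_lit 1) (nat_lit 5) (nat_lit 0x114010) (nat_lit 0x10000000100010000000000000000000100000000))) (.non (nat_lit 2) (nat_lit 5) (nat_lit 0x114004) (nat_lit 0x10000000100010000000000000000000000010000)))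 (.non (nat_lit 2) (nat_lit 5) (nat_lit 0x114005) (nat_lit 0x10000000100010000000000000000000000010001))))) (.non (nat_lit 2) (nat_lit 5) (nat_lit 0x2a005) (nat_lit 0x300020001000000000000000000040002))) (.split (nat_lit 9) (nat_lit 3) (.split (nat_lit 8) (nat_lit 1) (.pd (.cons (nat_lit 1) (nat_lit 7) (nat_lit 0) (nat_lit 0x3205442200) (nat_lit 0xf423ff423f00000f423fb71ae1f1567a11e3d08b00000f423f) (.cons (nat_lit 2) (nat_lit 7) (nat_lit 0) (nat_lit 0x3105443000) (nat_lit 0xf423ff423f00000f423fb71ae1f1567a11e00000b71aea2c28) .nil)) (.st (nat_lit 7) (nat_lit 1) (nat_lit 5) (nat_lit 0x95050) (nat_lit 0x1000200020001000000000002000200000000) (nat_lit 1) (nat_lit 1) (.pd (.cons (nat_lit 1) (nat_lit 8) (nat_lit 0) (nat_lit 0x3065442200) (nat_lit 0xf423f00000f423fb71aea2c28047377a11e7a11c00000f423f) (.cons (nat_lit 2) (nat_lit 8) (nat_lit 0) (nat_lit 0x3065443000) (nat_lit 0xf423f00000f423fb71aea2c28047377a11e00000f423fb71ae) (.cons (nat_lit 3) (nat_lit 8) (nat_lit 0) (nat_lit 0x9065440100) (nat_lit 0xf423f00000f423fb71aea2c280473700000f423f54591437a2)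 .nil))) (.st (nat_lit 8) (nat_lit 1) (nat_lit 5) (nat_lit 0x94050) (nat_lit 0x1000200010000000000000002000200000000) (nat_lit 1) (nat_lit 1) (.split (nat_lit 8) (nat_lit 7) (.pd (.cons (nat_lit 1) (nat_lit 4) (nat_lit 0) (nat_lit 0x3287602200) (nat_lit 0xf423f98965a2c28b71aef423f000007a11e1869a00000f423f) (.cons (nat_lit 2) (nat_lit 4) (nat_lit 0) (nat_lit 0x3187603000) (nat_lit 0xf423f98965a2c28b71aef423f000007a11e00000927bd8e6a2) .nil)) (.leaf (.cons (nat_lit 0x10014) (nat_lit 0x100000000000000000000000100010000) (.cons (nat_lit 0x40054) (nat_lit 0x1000000000000000000000001000100010000) .nil)) .nil)) (.non (nat_lit 1) (nat_lit 5) (nat_lit 0x98050) (nat_lit 0x1000200010000000000000002000200000000))))))) (.non (nat_lit 2) (nat_lit 5) (nat_lit 0x2a005) (nat_lit 0x300020001000000000000000000040002))) (.non (nat_lit 1) (nat_lit 5) (nat_lit 0x54050) (nat_lit 0x3000200010000000000000004000300000000))))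

noncomputable def t761_77 : Tr := (.ex (nat_lit 5) (.ex (nat_lit 6) (.split (nat_lit 8) (nat_lit 2) t761_76 (.non (nat_lit 1) (nat_lit 5) (nat_lit 0x68050) (nat_lit 0x1000200010000000000000002000300000000))) (.split (nat_lit 0xa) (nat_lit 0) (.split (nat_lit 0xa) (nat_lit 1) (.split (nat_lit 0xa) (nat_lit 2) (.split (nat_lit 0xa) (nat_lit 3) (.split (nat_lit 0xa) (nat_lit 7) (.split (nat_lit 0xa) (nat_lit 8) (.split (nat_lit 0xa) (nat_lit 9) (.split (nat_lit 0xa) (nat_lit 4) (.split (nat_lit 0xa) (nat_lit 5) (.unj (nat_lit 0x55) (nat_lit 0x1000200020001) (nat_lit 0x105500) (nat_lit 0x10000000000010002000200020000000000000000)) (.unj (nat_lit 0x10014) (nat_lit 0x100000000000000000000000100010000) (nat_lit 0x101400) (nat_lit 0x10000000000000001000100000000000000000000))) (.split (nat_lit 0xa) (nat_lit 5) (.unj (nat_lit 0x10014) (nat_lit 0x100000000000000000000000100010000) (nat_lit 0x101500) (nat_lit 0x10000000000000001000100010000000000000000)) (.non (nat_lit 1) (nat_lit 6) (nat_lit 0x100500) (nat_lit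 0x10000000000000000000100010000000000000000)))) (.non (nat_lit 1) (nat_lit 5) (nat_lit 0x155050) (nat_lit 0x10001000100010001000000000001000100000000))) (.non (nat_lit 1) (nat_lit 5) (nat_lit 0x115000) (nat_lit 0x10000000100010001000000000000000000000000))) (.non (nat_lit 1) (nat_lit 5) (nat_lit 0x105000) (nat_lit 0x10000000000010001000000000000000000000000))) (.non (nat_lit 1) (nat_lit 5) (nat_lit 0x115050) (nat_lit 0x10000000100010001000000000001000100000000))) (.star (nat_lit 0xa) (nat_lit 2) (nat_lit 6))) (.star (nat_lit 0xa) (nat_lit 1) (nat_lit 6))) (.non (nat_lit 2) (nat_lit 5) (nat_lit 0x115005) (nat_lit 0x10000000100010001000000000000000000010001)))) (.split (nat_lit 0xa) (nat_lit 0) (.split (nat_lit 0xa) (nat_lit 1) (.split (nat_lit 0xa) (nat_lit 2) (.split (nat_lit 0xa) (nat_lit 3) (.split (nat_lit 0xa) (nat_lit 4) (.split (nat_lit 0xa) (nat_lit 7) (.split (nat_lit 0xa) (nat_lit 8) (.split (nat_lit 0xa) (nat_lit 9) (.split (nat_lit 0xa) (nat_lit 6) (.unj (nat_lit 0x10014) (nat_lit 0x100000000000000000000000100010000)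 (nat_lit 0x101500) (nat_lit 0x10000000000000001000200020000000000000000)) (.unj (nat_lit 0x10014) (nat_lit 0x100000000000000000000000100010000) (nat_lit 0x101400) (nat_lit 0x10000000000000001000100000000000000000000))) (.non (nat_lit 1) (nat_lit 6) (nat_lit 0x140540) (nat_lit 0x30002000000000000000400030001000000000000))) (.non (nat_lit 1) (nat_lit 6) (nat_lit 0x114500) (nat_lit 0x30000000200010000000400030000000000000000))) (.non (nat_lit 1) (nat_lit 6) (nat_lit 0x114500) (nat_lit 0x30000000100020000000400030000000000000000))) (.non (nat_lit 1) (nat_lit 6) (nat_lit 0x100500) (nat_lit 0x10000000000000000000100010000000000000000))) (.non (nat_lit 1) (nat_lit 6) (nat_lit 0x140540) (nat_lit 0x30001000000000000000400030002000000000000))) (.star (nat_lit 0xa) (nat_lit 2) (nat_lit 5))) (.star (nat_lit 0xa) (nat_lit 1) (nat_lit 5))) (.non (nat_lit 2) (nat_lit 6) (nat_lit 0x100505) (nat_lit 0x30000000000000000000400030000000000010002))))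

noncomputable def t761_78 : Tr := (.ex (nat_lit 6) (.split (nat_lit 8) (nat_lit 2) (.split (nat_lit 9) (nat_lit 3) (.split (nat_lit 0xa) (nat_lit 3) (.split (nat_lit 8) (nat_lit 7) (.split (nat_lit 8) (nat_lit 1) (.pd (.cons (nat_lit 1) (nat_lit 4) (nat_lit 0) (nat_lit 0x33287602200) (nat_lit 0xf423ff423f98965a2c28b71aef423f000007a11d1869900000f423f) (.cons (nat_lit 1) (nat_lit 7) (nat_lit 0) (nat_lit 0x33205442200) (nat_lit 0xf423ff423ff423f00000f423fb71ae1f1567a11d3d08a00000f423f) (.cons (nat_lit 1) (nat_lit 8) (nat_lit 0) (nat_lit 0x33065442200) (nat_lit 0xf423ff423f00000f423fb71aea2c28047377a11d7a11b00000f423f) (.cons (nat_lit 2) (nat_lit 4) (nat_lit 0) (nat_lit 0x33187603000) (nat_lit 0xf423ff423f98965a2c28b71aef423f000007a11d00000927bd8e6a2) (.cons (nat_lit 2) (nat_lit 7) (nat_lit 0) (nat_lit 0x33105443000) (nat_lit 0xf423ff423ff423f00000f423fb71ae1f1567a11d00000b71aea2c28) (.cons (nat_lit 2) (nat_lit 8) (nat_lit 0) (nat_lit 0x33065443000) (nat_lit 0xf423ff423f00000f423fb71aea2c28047377a11d00000f423fb71ae)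 (.cons (nat_lit 3) (nat_lit 8) (nat_lit 0) (nat_lit 0xa9065440100) (nat_lit 0xf423ff423f00000f423fb71aea2c280473700000f423f54591437a2) .nil))))))) (.leaf (.cons (nat_lit 0x10014) (nat_lit 0x100000000000000000000000100010000) (.cons (nat_lit 0x140054) (nat_lit 0x10001000000000000000000000002000200020000) .nil)) .nil)) (.non (nat_lit 2) (nat_lit 5) (nat_lit 0x2a005) (nat_lit 0x300020001000000000000000000040002))) (.non (nat_lit 1) (nat_lit 5) (nat_lit 0x158050) (nat_lit 0x10001000200010000000000000002000200000000))) (.non (nat_lit 1) (nat_lit 5) (nat_lit 0x240050) (nat_lit 0x10001000000000000000000000002000100000000))) (.non (nat_lit 1) (nat_lit 5) (nat_lit 0x180050) (nat_lit 0x10001000000000000000000000002000100000000))) (.non (nat_lit 1) (nat_lit 5) (nat_lit 0x160050) (nat_lit 0x10001000100000000000000000002000200000000))) (.split (nat_lit 0xb) (nat_lit 0) (.split (nat_lit 0xb) (nat_lit 1) (.split (nat_lit 0xb) (nat_lit 2) (.split (nat_lit 0xb) (nat_lit 3) (.split (nat_lit 0xb) (nat_lit 7) (.split (nat_lit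 0xb) (nat_lit 8) (.split (nat_lit 0xb) (nat_lit 9) (.split (nat_lit 0xb) (nat_lit 0xa) (.split (nat_lit 0xb) (nat_lit 4) (.split (nat_lit 0xb) (nat_lit 5) (.unj (nat_lit 0x55) (nat_lit 0x1000200020001) (nat_lit 0x405500) (nat_lit 0x100000000000000010002000200020000000000000000)) (.unj (nat_lit 0x10014) (nat_lit 0x100000000000000000000000100010000) (nat_lit 0x401400) (nat_lit 0x100000000000000000001000100000000000000000000))) (.split (nat_lit 0xb) (nat_lit 5) (.unj (nat_lit 0x10014) (nat_lit 0x100000000000000000000000100010000) (nat_lit 0x401500) (nat_lit 0x100000000000000000001000100010000000000000000)) (.non (nat_lit 1) (nat_lit 6) (nat_lit 0x400500) (nat_lit 0x100000000000000000000000100010000000000000000)))) (.non (nat_lit 1) (nat_lit 5) (nat_lit 0x515050) (nat_lit 0x100010000000100010001000000000001000100000000))) (.non (nat_lit 1) (nat_lit 5) (nat_lit 0x455050) (nat_lit 0x100000001000100010001000000000001000100000000))) (.non (nat_lit 1) (nat_lit 5) (nat_lit 0x415000) (nat_lit 0x100000000000100010001000000000000000000000000)))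 (.non (nat_lit 1) (nat_lit 5) (nat_lit 0x405000) (nat_lit 0x100000000000000010001000000000000000000000000))) (.non (nat_lit 1) (nat_lit 5) (nat_lit 0x540050) (nat_lit 0x100010001000000000000000000000002000100000000))) (.star (nat_lit 0xb) (nat_lit 2) (nat_lit 6))) (.star (nat_lit 0xb) (nat_lit 1) (nat_lit 6))) (.non (nat_lit 2) (nat_lit 5) (nat_lit 0x415005) (nat_lit 0x100000000000100010001000000000000000000010001))))

noncomputable def t761_79 : Tr := (.ex (nat_lit 4) (.ex (nat_lit 5) t761_78 (.split (nat_lit 0xb) (nat_lit 0) (.split (nat_lit 0xb) (nat_lit 1) (.split (nat_lit 0xb) (nat_lit 2) (.split (nat_lit 0xb) (nat_lit 3) (.split (nat_lit 0xb) (nat_lit 4) (.split (nat_lit 0xb) (nat_lit 7) (.split (nat_lit 0xb) (nat_lit 8) (.split (nat_lit 0xb) (nat_lit 9) (.split (nat_lit 0xb) (nat_lit 0xa) (.split (nat_lit 0xb) (nat_lit 6) (.unj (nat_lit 0x10014) (nat_lit 0x100000000000000000000000100010000) (nat_lit 0x401500) (nat_lit 0x100000000000000000001000200020000000000000000)) (.unj (nat_lit 0x10014) (nat_lit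 0x100000000000000000000000100010000) (nat_lit 0x401400) (nat_lit 0x100000000000000000001000100000000000000000000))) (.non (nat_lit 1) (nat_lit 6) (nat_lit 0x500540) (nat_lit 0x300020000000000000000000400030001000000000000))) (.non (nat_lit 1) (nat_lit 6) (nat_lit 0x440540) (nat_lit 0x300000002000000000000000400030001000000000000))) (.non (nat_lit 1) (nat_lit 5) (nat_lit 0x554050) (nat_lit 0x100010001000200010000000000000002000200000000))) (.non (nat_lit 1) (nat_lit 5) (nat_lit 0x555050) (nat_lit 0x100010001000200020001000000000002000200000000))) (.non (nat_lit 1) (nat_lit 6) (nat_lit 0x400500) (nat_lit 0x100000000000000000000000100010000000000000000))) (.non (nat_lit 1) (nat_lit 5) (nat_lit 0x540050) (nat_lit 0x100010001000000000000000000000002000100000000))) (.star (nat_lit 0xb) (nat_lit 2) (nat_lit 5))) (.star (nat_lit 0xb) (nat_lit 1) (nat_lit 5))) (.non (nat_lit 2) (nat_lit 6) (nat_lit 0x400505) (nat_lit 0x300000000000000000000000400030000000000010002)))) (.split (nat_lit 0xb) (nat_lit 0) (.split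 (nat_lit 0xb) (nat_lit 1) (.split (nat_lit 0xb) (nat_lit 2) (.split (nat_lit 0xb) (nat_lit 3) (.split (nat_lit 0xb) (nat_lit 5) (.split (nat_lit 0xb) (nat_lit 7) (.split (nat_lit 0xb) (nat_lit 8) (.split (nat_lit 0xb) (nat_lit 9) (.split (nat_lit 0xb) (nat_lit 0xa) (.split (nat_lit 0xb) (nat_lit 6) (.unj (nat_lit 0x10014) (nat_lit 0x100000000000000000000000100010000) (nat_lit 0x401500) (nat_lit 0x100000000000000000001000200020000000000000000)) (.unj (nat_lit 0x10014) (nat_lit 0x100000000000000000000000100010000) (nat_lit 0x401500) (nat_lit 0x100000000000000000001000100010000000000000000))) (.non (nat_lit 1) (nat_lit 5) (nat_lit 0x554150) (nat_lit 0x200030002000200010000000000010004000300000000))) (.non (nat_lit 1) (nat_lit 5) (nat_lit 0x554150) (nat_lit 0x200020003000200010000000000010004000300000000))) (.non (nat_lit 1) (nat_lit 5) (nat_lit 0x554050) (nat_lit 0x100010001000200010000000000000002000200000000))) (.non (nat_lit 1) (nat_lit 5) (nat_lit 0x555050) (nat_lit 0x100010001000200020001000000000002000200000000)))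 (.non (nat_lit 1) (nat_lit 6) (nat_lit 0x400500) (nat_lit 0x100000000000000000000000100010000000000000000))) (.non (nat_lit 1) (nat_lit 5) (nat_lit 0x540050) (nat_lit 0x100010001000000000000000000000002000100000000))) (.non (nat_lit 1) (nat_lit 5) (nat_lit 0x550050) (nat_lit 0x100010001000100000000000000000002000200000000))) (.non (nat_lit 2) (nat_lit 6) (nat_lit 0x410504) (nat_lit 0x300000000000100000000000300040000000000020000))) (.non (nat_lit 2) (nat_lit 6) (nat_lit 0x400505) (nat_lit 0x300000000000000000000000300040000000000010002))))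

noncomputable def t761_80 : Tr := (.ex (nat_lit 3) (.ex (nat_lit 4) t761_77 (.split (nat_lit 0xa) (nat_lit 0) (.split (nat_lit 0xa) (nat_lit 1) (.split (nat_lit 0xa) (nat_lit 2) (.split (nat_lit 0xa) (nat_lit 3) (.split (nat_lit 0xa) (nat_lit 5) (.split (nat_lit 0xa) (nat_lit 7) (.split (nat_lit 0xa) (nat_lit 8) (.split (nat_lit 0xa) (nat_lit 9) (.split (nat_lit 0xa) (nat_lit 6) (.unj (nat_lit 0x10014) (nat_lit 0x100000000000000000000000100010000) (nat_lit 0x101500) (nat_lit 0x10000000000000001000200020000000000000000)) (.unj (nat_lit 0x10014) (nat_lit 0x100000000000000000000000100010000) (nat_lit 0x101500) (nat_lit 0x10000000000000001000100010000000000000000))) (.non (nat_lit 1) (nat_lit 6) (nat_lit 0x140540) (nat_lit 0x30002000000000000000300040001000000000000))) (.non (nat_lit 1) (nat_lit 5) (nat_lit 0x115150) (nat_lit 0x20000000300020001000000010001000200000000))) (.non (nat_lit 1) (nat_lit 6) (nat_lit 0x114500) (nat_lit 0x30000000100020000000300040000000000000000))) (.non (nat_lit 1) (nat_lit 6)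 (nat_lit 0x100500) (nat_lit 0x10000000000000000000100010000000000000000))) (.non (nat_lit 1) (nat_lit 6) (nat_lit 0x140540) (nat_lit 0x30001000000000000000300040002000000000000))) (.non (nat_lit 1) (nat_lit 5) (nat_lit 0x154150) (nat_lit 0x20001000200010000000000010002000300000000))) (.non (nat_lit 2) (nat_lit 6) (nat_lit 0x110504) (nat_lit 0x30000000100000000000300040000000000020000))) (.non (nat_lit 2) (nat_lit 6) (nat_lit 0x100505) (nat_lit 0x30000000000000000000300040000000000010002)))) (.split (nat_lit 0xa) (nat_lit 1) (.split (nat_lit 0xa) (nat_lit 2) (.split (nat_lit 0xa) (nat_lit 4) (.split (nat_lit 0xa) (nat_lit 5) (.split (nat_lit 0xa) (nat_lit 6) (.split (nat_lit 0xa) (nat_lit 7) (.split (nat_lit 0xa) (nat_lit 8) (.split (nat_lit 0xa) (nat_lit 9) (.split (nat_lit 0xa) (nat_lit 0) (.st (nat_lit 7) (nat_lit 1) (nat_lit 5) (nat_lit 0x155050) (nat_lit 0x10001000200020001000000000002000200000000) (nat_lit 1) (nat_lit 1) (.st (nat_lit 8) (nat_lit 1) (nat_lit 5) (nat_lit 0x154050) (nat_lit 0x10001000200010000000000000002000200000000)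 (nat_lit 1) (nat_lit 1) t761_79)) (.split (nat_lit 0xa) (nat_lit 0) (.split (nat_lit 0xa) (nat_lit 3) (.split (nat_lit 9) (nat_lit 3) (.split (nat_lit 8) (nat_lit 1) (.split (nat_lit 8) (nat_lit 2) (.sup (nat_lit 0x3000d00160020001a0000000000000000) (nat_lit 0x40003000000000000000000000005000300030004)) (.non (nat_lit 1) (nat_lit 5) (nat_lit 0x160050) (nat_lit 0x10001000100000000000000000002000200000000))) (.non (nat_lit 2) (nat_lit 5) (nat_lit 0x128005) (nat_lit 0x10000000200010000000000000000000000030002))) (.non (nat_lit 1) (nat_lit 5) (nat_lit 0x180050) (nat_lit 0x10001000000000000000000000002000100000000))) (.non (nat_lit 1) (nat_lit 5) (nat_lit 0x240050) (nat_lit 0x10001000000000000000000000002000100000000))) (.non (nat_lit 1) (nat_lit 5) (nat_lit 0x2800a1) (nat_lit 0x20001000000000000000000000002000100000002)))) (.non (nat_lit 1) (nat_lit 5) (nat_lit 0x140040) (nat_lit 0x10001000000000000000000000001000000000000))) (.non (nat_lit 1) (nat_lit 5) (nat_lit 0x110050) (nat_lit 0x10000000100000000000000000001000100000000)))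 (.non (nat_lit 1) (nat_lit 5) (nat_lit 0x114050) (nat_lit 0x10000000100010000000000000001000100000000))) (.non (nat_lit 1) (nat_lit 5) (nat_lit 0x115050) (nat_lit 0x10000000100010001000000000001000100000000))) (.non (nat_lit 1) (nat_lit 6) (nat_lit 0x140540) (nat_lit 0x30001000000000000000400030002000000000000))) (.non (nat_lit 1) (nat_lit 6) (nat_lit 0x140540) (nat_lit 0x30001000000000000000300040002000000000000))) (.non (nat_lit 1) (nat_lit 5) (nat_lit 0x100050) (nat_lit 0x10000000000000000000000000001000100000000))) (.non (nat_lit 2) (nat_lit 5) (nat_lit 0x155045) (nat_lit 0x30001000300020001000000000002000000040002))))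

noncomputable def t761_81 : Tr := (.ex (nat_lit 8) (.split (nat_lit 8) (nat_lit 7) (.pd (.cons (nat_lit 1) (nat_lit 4) (nat_lit 0) (nat_lit 0x287609300) (nat_lit 0x8b82198965a2c28b71aef423f000008e6a2927bd0000089540) (.cons (nat_lit 2) (nat_lit 4) (nat_lit 0) (nat_lit 0x187609000) (nat_lit 0xb71ae98965a2c28b71aef423f00000f423f00000927bd3d08b) .nil)) (.ex (nat_lit 9) (.pd (.cons (nat_lit 0) (nat_lit 8) (nat_lit 0) (nat_lit 0x3065442110) (nat_lit 0xf423f00000f423fb71aea2c2804737b71aea2c280473700000) (.cons (nat_lit 3) (nat_lit 8) (nat_lit 0) (nat_lit 0x65440100) (nat_lit 0xf423f00000f423fb71aea2c280473700000f423f5459106711) .nil)) (.leaf (.cons (nat_lit 0x10014) (nat_lit 0x100000000000000000000000100010000) .nil) .nil)) (.split (nat_lit 0xa) (nat_lit 0) (.split (nat_lit 0xa) (nat_lit 1) (.split (nat_lit 0xa) (nat_lit 2) (.split (nat_lit 0xa) (nat_lit 3) (.split (nat_lit 0xa) (nat_lit 4) (.split (nat_lit 0xa) (nat_lit 5) (.split (nat_lit 0xa) (nat_lit 6) (.split (nat_lit 0xa) (nat_lit 7) (.split (nat_lit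 0xa) (nat_lit 8) (.sup (nat_lit 0x3000d00160020001a0000000000000000) (nat_lit 0x30006000000000000000000000005000300030005)) (.non (nat_lit 1) (nat_lit 5) (nat_lit 0x150050) (nat_lit 0x10001000100000000000000000001000100000000))) (.non (nat_lit 1) (nat_lit 5) (nat_lit 0x154050) (nat_lit 0x10001000100010000000000000001000100000000))) (.non (nat_lit 1) (nat_lit 5) (nat_lit 0x155050) (nat_lit 0x10001000100010001000000000001000100000000))) (.non (nat_lit 1) (nat_lit 6) (nat_lit 0x140540) (nat_lit 0x30002000000000000000400030001000000000000))) (.non (nat_lit 1) (nat_lit 5) (nat_lit 0x155151) (nat_lit 0x40006000300020001000000020005000400000003))) (.non (nat_lit 1) (nat_lit 5) (nat_lit 0x140040) (nat_lit 0x10001000000000000000000000001000000000000))) (.non (nat_lit 1) (nat_lit 5) (nat_lit 0x140050) (nat_lit 0x10001000000000000000000000001000100000000))) (.non (nat_lit 2) (nat_lit 5) (nat_lit 0x140005) (nat_lit 0x10001000000000000000000000000000000010001))) (.non (nat_lit 1) (nat_lit 5) (nat_lit 0x140001) (nat_lit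 0x10001000000000000000000000000000000000001))))) (.non (nat_lit 1) (nat_lit 5) (nat_lit 0x1a050) (nat_lit 0x300020001000000000001000200000000))) (.split (nat_lit 0xa) (nat_lit 0) (.split (nat_lit 0xa) (nat_lit 1) (.split (nat_lit 0xa) (nat_lit 2) (.split (nat_lit 0xa) (nat_lit 3) (.split (nat_lit 0xa) (nat_lit 4) (.split (nat_lit 0xa) (nat_lit 5) (.split (nat_lit 0xa) (nat_lit 6) (.split (nat_lit 0xa) (nat_lit 7) (.split (nat_lit 0xa) (nat_lit 9) (.sup (nat_lit 0x100000003000c00160020001a0000000000000000) (nat_lit 0x4000000000000000000000004000400040004)) (.non (nat_lit 1) (nat_lit 5) (nat_lit 0x150050) (nat_lit 0x10001000100000000000000000001000100000000))) (.non (nat_lit 1) (nat_lit 5) (nat_lit 0x114000) (nat_lit 0x10000000100010000000000000000000000000000))) (.non (nat_lit 1) (nat_lit 5) (nat_lit 0x115000) (nat_lit 0x10000000100010001000000000000000000000000))) (.non (nat_lit 1) (nat_lit 6) (nat_lit 0x114500) (nat_lit 0x30000000200010000000400030000000000000000))) (.non (nat_lit 1) (nat_lit 5) (nat_lit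 0x115150) (nat_lit 0x20000000300020001000000010001000200000000))) (.non (nat_lit 1) (nat_lit 5) (nat_lit 0x110050) (nat_lit 0x10000000100000000000000000001000100000000))) (.non (nat_lit 1) (nat_lit 5) (nat_lit 0x110010) (nat_lit 0x10000000100000000000000000000000100000000))) (.non (nat_lit 2) (nat_lit 5) (nat_lit 0x110004) (nat_lit 0x10000000100000000000000000000000000010000))) (.non (nat_lit 1) (nat_lit 5) (nat_lit 0x150051) (nat_lit 0x10001000100000000000000000001000100000001))))

noncomputable def t761_82 : Tr := (.ex (nat_lit 6) (.split (nat_lit 9) (nat_lit 0) (.split (nat_lit 8) (nat_lit 2) (.split (nat_lit 9) (nat_lit 3) (.split (nat_lit 8) (nat_lit 1) (.pd (.cons (nat_lit 1) (nat_lit 7) (nat_lit 0) (nat_lit 0x205449300) (nat_lit 0x98965f423f00000f423fb71ae1f156a2c28b71ae00000927bd) (.cons (nat_lit 2) (nat_lit 7) (nat_lit 0) (nat_lit 0x105449000) (nat_lit 0xb71aef423f00000f423fb71ae1f156f423f00000b71ae51611) .nil)) (.ex (nat_lit 7) (.pd (.cons (nat_lit 1) (nat_lit 8) (nat_lit 0) (nat_lit 0x65449300)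 (nat_lit 0xa2c2800000f423fb71aea2c2804737b71aef423f0000098965) (.cons (nat_lit 2) (nat_lit 8) (nat_lit 0) (nat_lit 0x65449000) (nat_lit 0xb71ae00000f423fb71aea2c2804737f423f00000f423f65b97) .nil)) t761_81) (.split (nat_lit 0xa) (nat_lit 0) (.split (nat_lit 0xa) (nat_lit 1) (.split (nat_lit 0xa) (nat_lit 2) (.split (nat_lit 0xa) (nat_lit 3) (.split (nat_lit 0xa) (nat_lit 4) (.split (nat_lit 0xa) (nat_lit 5) (.split (nat_lit 0xa) (nat_lit 6) (.split (nat_lit 0xa) (nat_lit 8) (.split (nat_lit 0xa) (nat_lit 9) (.unj (nat_lit 0x55) (nat_lit 0x1000200020001) (nat_lit 0x105500) (nat_lit 0x10000000000020003000400030000000000000000)) (.non (nat_lit 1) (nat_lit 5) (nat_lit 0x154050) (nat_lit 0x10001000100010000000000000001000100000000))) (.non (nat_lit 1) (nat_lit 5) (nat_lit 0x114000) (nat_lit 0x10000000100010000000000000000000000000000))) (.non (nat_lit 1) (nat_lit 5) (nat_lit 0x105000) (nat_lit 0x10000000000010001000000000000000000000000))) (.non (nat_lit 1) (nat_lit 6) (nat_lit 0x114500) (nat_lit 0x30000000100020000000400030000000000000000)))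 (.non (nat_lit 1) (nat_lit 5) (nat_lit 0x155151) (nat_lit 0x40002000500060003000000020003000400000001))) (.non (nat_lit 1) (nat_lit 5) (nat_lit 0x114050) (nat_lit 0x10000000100010000000000000001000100000000))) (.non (nat_lit 1) (nat_lit 5) (nat_lit 0x114010) (nat_lit 0x10000000100010000000000000000000100000000))) (.non (nat_lit 2) (nat_lit 5) (nat_lit 0x114004) (nat_lit 0x10000000100010000000000000000000000010000))) (.non (nat_lit 1) (nat_lit 5) (nat_lit 0x154051) (nat_lit 0x10001000100010000000000000001000100000001))))) (.non (nat_lit 2) (nat_lit 5) (nat_lit 0x68005) (nat_lit 0x1000200010000000000000000000000030002))) (.non (nat_lit 1) (nat_lit 5) (nat_lit 0x600a1) (nat_lit 0x4000100000000000000000003000200000002))) (.non (nat_lit 1) (nat_lit 5) (nat_lit 0x68050) (nat_lit 0x1000200010000000000000002000300000000))) (.non (nat_lit 2) (nat_lit 5) (nat_lit 0x90085) (nat_lit 0x2000100000000000000000001000000020003))) (.split (nat_lit 0xa) (nat_lit 0) (.split (nat_lit 0xa) (nat_lit 1) (.split (nat_lit 0xa)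 (nat_lit 2) (.split (nat_lit 0xa) (nat_lit 3) (.split (nat_lit 0xa) (nat_lit 7) (.split (nat_lit 0xa) (nat_lit 8) (.split (nat_lit 0xa) (nat_lit 9) (.split (nat_lit 0xa) (nat_lit 4) (.split (nat_lit 0xa) (nat_lit 5) (.unj (nat_lit 0x55) (nat_lit 0x1000200020001) (nat_lit 0x105500) (nat_lit 0x10000000000010002000200020000000000000000)) (.unj (nat_lit 0x10014) (nat_lit 0x100000000000000000000000100010000) (nat_lit 0x101400) (nat_lit 0x10000000000000001000100000000000000000000))) (.split (nat_lit 0xa) (nat_lit 5) (.unj (nat_lit 0x10014) (nat_lit 0x100000000000000000000000100010000) (nat_lit 0x101500) (nat_lit 0x10000000000000001000100010000000000000000)) (.non (nat_lit 1) (nat_lit 6) (nat_lit 0x100500) (nat_lit 0x10000000000000000000100010000000000000000)))) (.non (nat_lit 1) (nat_lit 5) (nat_lit 0x155050) (nat_lit 0x10001000100010001000000000001000100000000))) (.non (nat_lit 1) (nat_lit 5) (nat_lit 0x115000) (nat_lit 0x10000000100010001000000000000000000000000))) (.non (nat_lit 1) (nat_lit 5) (nat_lit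 0x105000) (nat_lit 0x10000000000010001000000000000000000000000))) (.non (nat_lit 1) (nat_lit 5) (nat_lit 0x115050) (nat_lit 0x10000000100010001000000000001000100000000))) (.star (nat_lit 0xa) (nat_lit 2) (nat_lit 6))) (.star (nat_lit 0xa) (nat_lit 1) (nat_lit 6))) (.non (nat_lit 1) (nat_lit 5) (nat_lit 0x155051) (nat_lit 0x10001000100010001000000000001000100000001))))

noncomputable def t761_83 : Tr := (.ex (nat_lit 4) (.ex (nat_lit 5) t761_82 (.split (nat_lit 0xa) (nat_lit 0) (.split (nat_lit 0xa) (nat_lit 1) (.split (nat_lit 0xa) (nat_lit 2) (.split (nat_lit 0xa) (nat_lit 3) (.split (nat_lit 0xa) (nat_lit 4) (.split (nat_lit 0xa) (nat_lit 7) (.split (nat_lit 0xa) (nat_lit 8) (.split (nat_lit 0xa) (nat_lit 9) (.split (nat_lit 0xa) (nat_lit 6) (.unj (nat_lit 0x10014) (nat_lit 0x100000000000000000000000100010000) (nat_lit 0x101500) (nat_lit 0x10000000000000001000200020000000000000000)) (.unj (nat_lit 0x10014) (nat_lit 0x100000000000000000000000100010000) (nat_lit 0x101400) (nat_lit 0x10000000000000001000100000000000000000000)))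 (.non (nat_lit 1) (nat_lit 6) (nat_lit 0x140540) (nat_lit 0x30002000000000000000400030001000000000000))) (.non (nat_lit 1) (nat_lit 6) (nat_lit 0x114500) (nat_lit 0x30000000200010000000400030000000000000000))) (.non (nat_lit 1) (nat_lit 6) (nat_lit 0x114500) (nat_lit 0x30000000100020000000400030000000000000000))) (.non (nat_lit 1) (nat_lit 6) (nat_lit 0x100500) (nat_lit 0x10000000000000000000100010000000000000000))) (.non (nat_lit 1) (nat_lit 6) (nat_lit 0x140540) (nat_lit 0x30001000000000000000400030002000000000000))) (.star (nat_lit 0xa) (nat_lit 2) (nat_lit 5))) (.star (nat_lit 0xa) (nat_lit 1) (nat_lit 5))) (.non (nat_lit 1) (nat_lit 6) (nat_lit 0x140501) (nat_lit 0x30001000000000000000400030000000000000002)))) (.split (nat_lit 0xa) (nat_lit 0) (.split (nat_lit 0xa) (nat_lit 1) (.split (nat_lit 0xa) (nat_lit 2) (.split (nat_lit 0xa) (nat_lit 3) (.split (nat_lit 0xa) (nat_lit 5) (.split (nat_lit 0xa) (nat_lit 7) (.split (nat_lit 0xa) (nat_lit 8) (.split (nat_lit 0xa) (nat_lit 9) (.split (nat_lit 0xa)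 (nat_lit 6) (.unj (nat_lit 0x10014) (nat_lit 0x100000000000000000000000100010000) (nat_lit 0x101500) (nat_lit 0x10000000000000001000200020000000000000000)) (.unj (nat_lit 0x10014) (nat_lit 0x100000000000000000000000100010000) (nat_lit 0x101500) (nat_lit 0x10000000000000001000100010000000000000000))) (.non (nat_lit 1) (nat_lit 5) (nat_lit 0x155151) (nat_lit 0x40006000300020001000000020005000400000003))) (.non (nat_lit 1) (nat_lit 5) (nat_lit 0x115150) (nat_lit 0x20000000300020001000000010001000200000000))) (.non (nat_lit 1) (nat_lit 5) (nat_lit 0x155151) (nat_lit 0x40002000500060003000000020003000400000001))) (.non (nat_lit 1) (nat_lit 6) (nat_lit 0x100500) (nat_lit 0x10000000000000000000100010000000000000000))) (.non (nat_lit 1) (nat_lit 5) (nat_lit 0x150151) (nat_lit 0x20002000100000000000000010003000200000001))) (.non (nat_lit 1) (nat_lit 5) (nat_lit 0x154150) (nat_lit 0x20001000200010000000000010002000300000000))) (.non (nat_lit 2) (nat_lit 5) (nat_lit 0x154105) (nat_lit 0x20001000200010000000000010000000000030002)))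 (.non (nat_lit 1) (nat_lit 6) (nat_lit 0x140501) (nat_lit 0x30001000000000000000300040000000000000002))))

noncomputable def t761_84 : Tr := (.split (nat_lit 9) (nat_lit 0) (.split (nat_lit 9) (nat_lit 1) t761_80 (.split (nat_lit 9) (nat_lit 1) (.split (nat_lit 9) (nat_lit 3) (.split (nat_lit 8) (nat_lit 1) (.split (nat_lit 8) (nat_lit 2) (.sup (nat_lit 0x10006000b0010000d0000000000000000) (nat_lit 0x2000000000000000000000002000200020001)) (.non (nat_lit 1) (nat_lit 5) (nat_lit 0x68050) (nat_lit 0x1000200010000000000000002000300000000))) (.non (nat_lit 2) (nat_lit 5) (nat_lit 0x6a004) (nat_lit 0x2000300020001000000000000000000040000))) (.non (nat_lit 2) (nat_lit 5) (nat_lit 0x50085) (nat_lit 0x2000100000000000000000001000000020001))) (.non (nat_lit 2) (nat_lit 5) (nat_lit 0x94084) (nat_lit 0x2000200010000000000000001000000030000)))) (.split (nat_lit 9) (nat_lit 1) (.ex (nat_lit 3) t761_83 (.split (nat_lit 0xa) (nat_lit 0) (.split (nat_lit 0xa) (nat_lit 1) (.split (nat_lit 0xa) (nat_lit 2) (.split (nat_lit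 0xa) (nat_lit 4) (.split (nat_lit 0xa) (nat_lit 5) (.split (nat_lit 0xa) (nat_lit 6) (.split (nat_lit 0xa) (nat_lit 7) (.split (nat_lit 0xa) (nat_lit 8) (.split (nat_lit 0xa) (nat_lit 9) (.split (nat_lit 0xa) (nat_lit 3) (.split (nat_lit 9) (nat_lit 0) (.split (nat_lit 9) (nat_lit 3) (.split (nat_lit 8) (nat_lit 1) (.split (nat_lit 8) (nat_lit 2) (.sup (nat_lit 0x3000d00160020001a0000000000000000) (nat_lit 0x30004000000000000000000000005000300030004)) (.non (nat_lit 1) (nat_lit 5) (nat_lit 0x160050) (nat_lit 0x10001000100000000000000000002000200000000))) (.non (nat_lit 2) (nat_lit 5) (nat_lit 0x68005) (nat_lit 0x1000200010000000000000000000000030002))) (.non (nat_lit 1) (nat_lit 5) (nat_lit 0x180050) (nat_lit 0x10001000000000000000000000002000100000000))) (.non (nat_lit 1) (nat_lit 5) (nat_lit 0x2800a1) (nat_lit 0x10002000000000000000000000002000100000002))) (.non (nat_lit 1) (nat_lit 5) (nat_lit 0x240050) (nat_lit 0x10001000000000000000000000002000100000000))) (.non (nat_lit 1) (nat_lit 5) (nat_lit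 0x140040) (nat_lit 0x10001000000000000000000000001000000000000))) (.non (nat_lit 1) (nat_lit 5) (nat_lit 0x110050) (nat_lit 0x10000000100000000000000000001000100000000))) (.non (nat_lit 1) (nat_lit 5) (nat_lit 0x114050) (nat_lit 0x10000000100010000000000000001000100000000))) (.non (nat_lit 1) (nat_lit 5) (nat_lit 0x115050) (nat_lit 0x10000000100010001000000000001000100000000))) (.non (nat_lit 1) (nat_lit 6) (nat_lit 0x140540) (nat_lit 0x30001000000000000000400030002000000000000))) (.non (nat_lit 1) (nat_lit 5) (nat_lit 0x150151) (nat_lit 0x20002000100000000000000010003000200000001))) (.non (nat_lit 1) (nat_lit 5) (nat_lit 0x100050) (nat_lit 0x10000000000000000000000000001000100000000))) (.non (nat_lit 2) (nat_lit 5) (nat_lit 0x140045) (nat_lit 0x10001000000000000000000000001000000010001))) (.non (nat_lit 1) (nat_lit 5) (nat_lit 0x140041) (nat_lit 0x10001000000000000000000000001000000000001)))) (.non (nat_lit 2) (nat_lit 5) (nat_lit 0x40005) (nat_lit 0x1000000000000000000000000000000010001))))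

noncomputable def t761_85 : Tr := (.ex (nat_lit 3) (.ex (nat_lit 4) (.ex (nat_lit 5) t761_74 (.split (nat_lit 9) (nat_lit 0) (.split (nat_lit 9) (nat_lit 1) (.split (nat_lit 9) (nat_lit 2) (.split (nat_lit 9) (nat_lit 3) (.split (nat_lit 9) (nat_lit 4) (.split (nat_lit 9) (nat_lit 7) (.split (nat_lit 9) (nat_lit 8) (.split (nat_lit 9) (nat_lit 6) (.unj (nat_lit 0x10014) (nat_lit 0x100000000000000000000000100010000) (nat_lit 0x41500) (nat_lit 0x1000000000001000200020000000000000000)) (.unj (nat_lit 0x10014) (nat_lit 0x100000000000000000000000100010000) (nat_lit 0x41400) (nat_lit 0x1000000000001000100000000000000000000))) (.non (nat_lit 1) (nat_lit 6) (nat_lit 0x54500) (nat_lit 0x3000200010000000400030000000000000000))) (.non (nat_lit 1) (nat_lit 6) (nat_lit 0x54500) (nat_lit 0x3000100020000000400030000000000000000))) (.non (nat_lit 1) (nat_lit 6) (nat_lit 0x40500) (nat_lit 0x1000000000000000100010000000000000000))) (.non (nat_lit 1) (nat_lit 6) (nat_lit 0x40550) (nat_lit 0x3000000000000000400030002000100000000)))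 (.star (nat_lit 9) (nat_lit 2) (nat_lit 5))) (.star (nat_lit 9) (nat_lit 1) (nat_lit 5))) (.non (nat_lit 2) (nat_lit 6) (nat_lit 0x40505) (nat_lit 0x3000000000000000400030000000000010002)))) (.split (nat_lit 9) (nat_lit 0) (.split (nat_lit 9) (nat_lit 1) (.split (nat_lit 9) (nat_lit 2) (.split (nat_lit 9) (nat_lit 3) (.split (nat_lit 9) (nat_lit 5) (.split (nat_lit 9) (nat_lit 7) (.split (nat_lit 9) (nat_lit 8) (.split (nat_lit 9) (nat_lit 6) (.unj (nat_lit 0x10014) (nat_lit 0x100000000000000000000000100010000) (nat_lit 0x41500) (nat_lit 0x1000000000001000200020000000000000000)) (.unj (nat_lit 0x10014) (nat_lit 0x100000000000000000000000100010000) (nat_lit 0x41500) (nat_lit 0x1000000000001000100010000000000000000))) (.non (nat_lit 1) (nat_lit 5) (nat_lit 0x55150) (nat_lit 0x2000300020001000000010001000200000000))) (.non (nat_lit 1) (nat_lit 6) (nat_lit 0x54500) (nat_lit 0x3000100020000000300040000000000000000))) (.non (nat_lit 1) (nat_lit 6) (nat_lit 0x40500) (nat_lit 0x1000000000000000100010000000000000000)))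 (.non (nat_lit 1) (nat_lit 6) (nat_lit 0x40550) (nat_lit 0x3000000000000000300040002000100000000))) (.non (nat_lit 1) (nat_lit 6) (nat_lit 0x50510) (nat_lit 0x3000100000000000300040000000200000000))) (.non (nat_lit 2) (nat_lit 6) (nat_lit 0x50504) (nat_lit 0x3000100000000000300040000000000020000))) (.non (nat_lit 2) (nat_lit 6) (nat_lit 0x40505) (nat_lit 0x3000000000000000300040000000000010002)))) (.split (nat_lit 9) (nat_lit 2) (.split (nat_lit 9) (nat_lit 4) (.split (nat_lit 9) (nat_lit 5) (.split (nat_lit 9) (nat_lit 6) (.split (nat_lit 9) (nat_lit 7) (.split (nat_lit 9) (nat_lit 8) t761_84 (.non (nat_lit 1) (nat_lit 5) (nat_lit 0x50050) (nat_lit 0x1000100000000000000000001000100000000))) (.non (nat_lit 1) (nat_lit 5) (nat_lit 0x54050) (nat_lit 0x1000100010000000000000001000100000000))) (.non (nat_lit 1) (nat_lit 5) (nat_lit 0x55050) (nat_lit 0x1000100010001000000000001000100000000))) (.non (nat_lit 1) (nat_lit 6) (nat_lit 0x40550) (nat_lit 0x3000000000000000400030002000100000000))) (.non (nat_lit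 1) (nat_lit 6) (nat_lit 0x40550) (nat_lit 0x3000000000000000300040002000100000000))) (.non (nat_lit 1) (nat_lit 5) (nat_lit 0x40050) (nat_lit 0x1000000000000000000000001000100000000))))

noncomputable def t761_86 : Tr := (.ex (nat_lit 6) (.split (nat_lit 8) (nat_lit 2) (.split (nat_lit 9) (nat_lit 2) (.split (nat_lit 8) (nat_lit 7) (.split (nat_lit 8) (nat_lit 1) (.pd (.cons (nat_lit 1) (nat_lit 4) (nat_lit 0) (nat_lit 0x2287602200) (nat_lit 0xf423f98965a2c28b71aef423f00000f423f1869b00000f423f) (.cons (nat_lit 1) (nat_lit 7) (nat_lit 0) (nat_lit 0x2205442200) (nat_lit 0xf423ff423f00000f423fb71ae1f156f423f3d08c00000f423f) (.cons (nat_lit 1) (nat_lit 8) (nat_lit 0) (nat_lit 0x2065442200) (nat_lit 0xf423f00000f423fb71aea2c2804737f423f7a11d00000f423f) (.cons (nat_lit 2) (nat_lit 4) (nat_lit 0) (nat_lit 0x9187603000) (nat_lit 0xf423f98965a2c28b71aef423f00000f423f00000927bd8e6a2) (.cons (nat_lit 2) (nat_lit 7) (nat_lit 0) (nat_lit 0x9105443000) (nat_lit 0xf423ff423f00000f423fb71ae1f156f423f00000b71aea2c28)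 (.cons (nat_lit 2) (nat_lit 8) (nat_lit 0) (nat_lit 0x9065443000) (nat_lit 0xf423f00000f423fb71aea2c2804737f423f00000f423fb71ae) .nil)))))) (.leaf (.cons (nat_lit 0x10014) (nat_lit 0x100000000000000000000000100010000) (.cons (nat_lit 0x40054) (nat_lit 0x1000000000000000000000001000200020000) (.cons (nat_lit 0x40015) (nat_lit 0x1000000000000000000000000000200020001) .nil))) .nil)) (.non (nat_lit 2) (nat_lit 5) (nat_lit 0x2a005) (nat_lit 0x300020001000000000000000000040002))) (.non (nat_lit 1) (nat_lit 5) (nat_lit 0x5a010) (nat_lit 0x1000300020001000000000000000200000000))) (.non (nat_lit 1) (nat_lit 5) (nat_lit 0x90050) (nat_lit 0x1000100000000000000000001000200000000))) (.non (nat_lit 1) (nat_lit 5) (nat_lit 0x6a010) (nat_lit 0x2000300020001000000000000000400000000))) (.split (nat_lit 0xa) (nat_lit 0) (.split (nat_lit 0xa) (nat_lit 1) (.split (nat_lit 0xa) (nat_lit 2) (.split (nat_lit 0xa) (nat_lit 3) (.split (nat_lit 0xa) (nat_lit 7) (.split (nat_lit 0xa) (nat_lit 8) (.split (nat_lit 0xa) (nat_lit 9)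 (.split (nat_lit 0xa) (nat_lit 4) (.split (nat_lit 0xa) (nat_lit 5) (.unj (nat_lit 0x55) (nat_lit 0x1000200020001) (nat_lit 0x105500) (nat_lit 0x10000000000010002000200020000000000000000)) (.unj (nat_lit 0x10014) (nat_lit 0x100000000000000000000000100010000) (nat_lit 0x101400) (nat_lit 0x10000000000000001000100000000000000000000))) (.split (nat_lit 0xa) (nat_lit 5) (.unj (nat_lit 0x10014) (nat_lit 0x100000000000000000000000100010000) (nat_lit 0x101500) (nat_lit 0x10000000000000001000100010000000000000000)) (.non (nat_lit 1) (nat_lit 6) (nat_lit 0x100500) (nat_lit 0x10000000000000000000100010000000000000000)))) (.non (nat_lit 1) (nat_lit 5) (nat_lit 0x155010) (nat_lit 0x10001000100010001000000000000000100000000))) (.non (nat_lit 1) (nat_lit 5) (nat_lit 0x115000) (nat_lit 0x10000000100010001000000000000000000000000))) (.non (nat_lit 1) (nat_lit 5) (nat_lit 0x105000) (nat_lit 0x10000000000010001000000000000000000000000))) (.non (nat_lit 1) (nat_lit 5) (nat_lit 0x115050) (nat_lit 0x10000000100010001000000000001000100000000)))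 (.star (nat_lit 0xa) (nat_lit 2) (nat_lit 6))) (.star (nat_lit 0xa) (nat_lit 1) (nat_lit 6))) (.non (nat_lit 2) (nat_lit 5) (nat_lit 0x115005) (nat_lit 0x10000000100010001000000000000000000010001))))

noncomputable def t761_87 : Tr := (.ex (nat_lit 4) (.ex (nat_lit 5) t761_86 (.split (nat_lit 0xa) (nat_lit 0) (.split (nat_lit 0xa) (nat_lit 1) (.split (nat_lit 0xa) (nat_lit 2) (.split (nat_lit 0xa) (nat_lit 3) (.split (nat_lit 0xa) (nat_lit 4) (.split (nat_lit 0xa) (nat_lit 7) (.split (nat_lit 0xa) (nat_lit 8) (.split (nat_lit 0xa) (nat_lit 9) (.split (nat_lit 0xa) (nat_lit 6) (.unj (nat_lit 0x10014) (nat_lit 0x100000000000000000000000100010000) (nat_lit 0x101500) (nat_lit 0x10000000000000001000200020000000000000000)) (.unj (nat_lit 0x10014) (nat_lit 0x100000000000000000000000100010000) (nat_lit 0x101400) (nat_lit 0x10000000000000001000100000000000000000000))) (.non (nat_lit 1) (nat_lit 6) (nat_lit 0x140510) (nat_lit 0x30002000000000000000400030000000100000000))) (.non (nat_lit 1) (nat_lit 5) (nat_lit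 0x154050) (nat_lit 0x10001000200010000000000000001000200000000))) (.non (nat_lit 1) (nat_lit 5) (nat_lit 0x155050) (nat_lit 0x10001000200020001000000000001000200000000))) (.non (nat_lit 1) (nat_lit 6) (nat_lit 0x100500) (nat_lit 0x10000000000000000000100010000000000000000))) (.non (nat_lit 1) (nat_lit 6) (nat_lit 0x100550) (nat_lit 0x30000000000000000000400030002000100000000))) (.star (nat_lit 0xa) (nat_lit 2) (nat_lit 5))) (.star (nat_lit 0xa) (nat_lit 1) (nat_lit 5))) (.non (nat_lit 2) (nat_lit 6) (nat_lit 0x100505) (nat_lit 0x30000000000000000000400030000000000010002)))) (.split (nat_lit 0xa) (nat_lit 0) (.split (nat_lit 0xa) (nat_lit 1) (.split (nat_lit 0xa) (nat_lit 2) (.split (nat_lit 0xa) (nat_lit 3) (.split (nat_lit 0xa) (nat_lit 5) (.split (nat_lit 0xa) (nat_lit 7) (.split (nat_lit 0xa) (nat_lit 8) (.split (nat_lit 0xa) (nat_lit 9) (.split (nat_lit 0xa) (nat_lit 6) (.unj (nat_lit 0x10014) (nat_lit 0x100000000000000000000000100010000) (nat_lit 0x101500) (nat_lit 0x10000000000000001000200020000000000000000))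 (.unj (nat_lit 0x10014) (nat_lit 0x100000000000000000000000100010000) (nat_lit 0x101500) (nat_lit 0x10000000000000001000100010000000000000000))) (.non (nat_lit 1) (nat_lit 5) (nat_lit 0x155150) (nat_lit 0x20003000300020001000000010002000400000000))) (.non (nat_lit 1) (nat_lit 5) (nat_lit 0x155110) (nat_lit 0x20001000300020001000000010000000200000000))) (.non (nat_lit 1) (nat_lit 5) (nat_lit 0x155050) (nat_lit 0x10001000200020001000000000001000200000000))) (.non (nat_lit 1) (nat_lit 6) (nat_lit 0x100500) (nat_lit 0x10000000000000000000100010000000000000000))) (.non (nat_lit 1) (nat_lit 5) (nat_lit 0x155150) (nat_lit 0x20002000300020001000000010003000400000000))) (.non (nat_lit 1) (nat_lit 5) (nat_lit 0x150050) (nat_lit 0x10001000100000000000000000001000200000000))) (.non (nat_lit 2) (nat_lit 6) (nat_lit 0x110504) (nat_lit 0x30000000100000000000300040000000000020000))) (.non (nat_lit 2) (nat_lit 6) (nat_lit 0x100505) (nat_lit 0x30000000000000000000300040000000000010002))))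

noncomputable def t761_88 : Tr := (.ex (nat_lit 6) (.split (nat_lit 8) (nat_lit 2) (.split (nat_lit 8) (nat_lit 7) (.split (nat_lit 8) (nat_lit 1) (.split (nat_lit 9) (nat_lit 1) (.pd (.cons (nat_lit 1) (nat_lit 4) (nat_lit 0) (nat_lit 0x9287602200) (nat_lit 0xf423f98965a2c28b71aef423f00000f423f5572c00000f423f) (.cons (nat_lit 1) (nat_lit 7) (nat_lit 0) (nat_lit 0x9205442200) (nat_lit 0xf423ff423f00000f423fb71ae1f156f423f7a11d00000f423f) (.cons (nat_lit 1) (nat_lit 8) (nat_lit 0) (nat_lit 0x9065442200) (nat_lit 0xf423f00000f423fb71aea2c2804737f423fb71ae00000f423f) (.cons (nat_lit 2) (nat_lit 4) (nat_lit 0) (nat_lit 0x1187603000) (nat_lit 0xf423f98965a2c28b71aef423f00000f423f000005572c45c09) (.cons (nat_lit 2) (nat_lit 7) (nat_lit 0) (nat_lit 0x1105443000) (nat_lit 0xf423ff423f00000f423fb71ae1f156f423f000007a11d7a11b) (.cons (nat_lit 2) (nat_lit 8) (nat_lit 0) (nat_lit 0x1065443000) (nat_lit 0xf423f00000f423fb71aea2c2804737f423f00000b71aea2c28) .nil)))))) (.leaf (.cons (nat_lit 0x10014) (nat_lit 0x100000000000000000000000100010000)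 (.cons (nat_lit 0x40054) (nat_lit 0x1000000000000000000000001000200020000) (.cons (nat_lit 0x40015) (nat_lit 0x1000000000000000000000000000200020001) .nil))) .nil)) (.non (nat_lit 2) (nat_lit 5) (nat_lit 0x90005) (nat_lit 0x1000100000000000000000000000000020001))) (.non (nat_lit 2) (nat_lit 5) (nat_lit 0x6a004) (nat_lit 0x2000300020001000000000000000000040000))) (.non (nat_lit 1) (nat_lit 5) (nat_lit 0x1a050) (nat_lit 0x300020001000000000001000200000000))) (.non (nat_lit 1) (nat_lit 5) (nat_lit 0x2a050) (nat_lit 0x300020001000000000002000400000000))) (.split (nat_lit 0xa) (nat_lit 0) (.split (nat_lit 0xa) (nat_lit 1) (.split (nat_lit 0xa) (nat_lit 2) (.split (nat_lit 0xa) (nat_lit 3) (.split (nat_lit 0xa) (nat_lit 7) (.split (nat_lit 0xa) (nat_lit 8) (.split (nat_lit 0xa) (nat_lit 9) (.split (nat_lit 0xa) (nat_lit 4) (.split (nat_lit 0xa) (nat_lit 5) (.unj (nat_lit 0x55) (nat_lit 0x1000200020001) (nat_lit 0x105500) (nat_lit 0x10000000000010002000200020000000000000000)) (.unj (nat_lit 0x10014) (nat_lit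 0x100000000000000000000000100010000) (nat_lit 0x101400) (nat_lit 0x10000000000000001000100000000000000000000))) (.split (nat_lit 0xa) (nat_lit 5) (.unj (nat_lit 0x10014) (nat_lit 0x100000000000000000000000100010000) (nat_lit 0x101500) (nat_lit 0x10000000000000001000100010000000000000000)) (.non (nat_lit 1) (nat_lit 6) (nat_lit 0x100500) (nat_lit 0x10000000000000000000100010000000000000000)))) (.non (nat_lit 2) (nat_lit 5) (nat_lit 0x155004) (nat_lit 0x10001000100010001000000000000000000010000))) (.non (nat_lit 1) (nat_lit 5) (nat_lit 0x115000) (nat_lit 0x10000000100010001000000000000000000000000))) (.non (nat_lit 1) (nat_lit 5) (nat_lit 0x105000) (nat_lit 0x10000000000010001000000000000000000000000))) (.non (nat_lit 1) (nat_lit 5) (nat_lit 0x115050) (nat_lit 0x10000000100010001000000000001000100000000))) (.star (nat_lit 0xa) (nat_lit 2) (nat_lit 6))) (.star (nat_lit 0xa) (nat_lit 1) (nat_lit 6))) (.non (nat_lit 2) (nat_lit 5) (nat_lit 0x115005) (nat_lit 0x10000000100010001000000000000000000010001))))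

noncomputable def t761_89 : Tr := (.ex (nat_lit 4) (.ex (nat_lit 5) t761_88 (.split (nat_lit 0xa) (nat_lit 0) (.split (nat_lit 0xa) (nat_lit 1) (.split (nat_lit 0xa) (nat_lit 2) (.split (nat_lit 0xa) (nat_lit 3) (.split (nat_lit 0xa) (nat_lit 4) (.split (nat_lit 0xa) (nat_lit 7) (.split (nat_lit 0xa) (nat_lit 8) (.split (nat_lit 0xa) (nat_lit 9) (.split (nat_lit 0xa) (nat_lit 6) (.unj (nat_lit 0x10014) (nat_lit 0x100000000000000000000000100010000) (nat_lit 0x101500) (nat_lit 0x10000000000000001000200020000000000000000)) (.unj (nat_lit 0x10014) (nat_lit 0x100000000000000000000000100010000) (nat_lit 0x101400) (nat_lit 0x10000000000000001000100000000000000000000))) (.non (nat_lit 2) (nat_lit 6) (nat_lit 0x140504) (nat_lit 0x30002000000000000000400030000000000010000))) (.non (nat_lit 1) (nat_lit 6) (nat_lit 0x114500) (nat_lit 0x30000000200010000000400030000000000000000))) (.non (nat_lit 1) (nat_lit 6) (nat_lit 0x114500) (nat_lit 0x30000000100020000000400030000000000000000))) (.non (nat_lit 1) (nat_lit 6)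 (nat_lit 0x100500) (nat_lit 0x10000000000000000000100010000000000000000))) (.non (nat_lit 1) (nat_lit 6) (nat_lit 0x100550) (nat_lit 0x30000000000000000000400030002000100000000))) (.star (nat_lit 0xa) (nat_lit 2) (nat_lit 5))) (.star (nat_lit 0xa) (nat_lit 1) (nat_lit 5))) (.non (nat_lit 2) (nat_lit 6) (nat_lit 0x100505) (nat_lit 0x30000000000000000000400030000000000010002)))) (.split (nat_lit 0xa) (nat_lit 0) (.split (nat_lit 0xa) (nat_lit 1) (.split (nat_lit 0xa) (nat_lit 2) (.split (nat_lit 0xa) (nat_lit 3) (.split (nat_lit 0xa) (nat_lit 5) (.split (nat_lit 0xa) (nat_lit 7) (.split (nat_lit 0xa) (nat_lit 8) (.split (nat_lit 0xa) (nat_lit 9) (.split (nat_lit 0xa) (nat_lit 6) (.unj (nat_lit 0x10014) (nat_lit 0x100000000000000000000000100010000) (nat_lit 0x101500) (nat_lit 0x10000000000000001000200020000000000000000)) (.unj (nat_lit 0x10014) (nat_lit 0x100000000000000000000000100010000) (nat_lit 0x101500) (nat_lit 0x10000000000000001000100010000000000000000))) (.non (nat_lit 2) (nat_lit 5) (nat_lit 0x155105)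 (nat_lit 0x20003000300020001000000010000000000040002))) (.non (nat_lit 1) (nat_lit 5) (nat_lit 0x115150) (nat_lit 0x20000000300020001000000010001000200000000))) (.non (nat_lit 1) (nat_lit 6) (nat_lit 0x114500) (nat_lit 0x30000000100020000000300040000000000000000))) (.non (nat_lit 1) (nat_lit 6) (nat_lit 0x100500) (nat_lit 0x10000000000000000000100010000000000000000))) (.non (nat_lit 1) (nat_lit 6) (nat_lit 0x100550) (nat_lit 0x30000000000000000000300040002000100000000))) (.non (nat_lit 1) (nat_lit 6) (nat_lit 0x110510) (nat_lit 0x30000000100000000000300040000000200000000))) (.non (nat_lit 2) (nat_lit 5) (nat_lit 0x150005) (nat_lit 0x10001000100000000000000000000000000020001))) (.non (nat_lit 2) (nat_lit 5) (nat_lit 0x155105) (nat_lit 0x20002000300020001000000010000000000040003))))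

noncomputable def t761_90 : Tr := (.ex (nat_lit 1) (.ex (nat_lit 2) t761_85 (.split (nat_lit 9) (nat_lit 3) (.split (nat_lit 9) (nat_lit 4) (.split (nat_lit 9) (nat_lit 5) (.split (nat_lit 9) (nat_lit 6) (.split (nat_lit 9) (nat_lit 7) (.split (nat_lit 9) (nat_lit 8) (.split (nat_lit 9) (nat_lit 0) (.split (nat_lit 9) (nat_lit 1) (.st (nat_lit 7) (nat_lit 1) (nat_lit 5) (nat_lit 0x55050) (nat_lit 0x1000200020001000000000001000200000000) (nat_lit 1) (nat_lit 1) (.st (nat_lit 8) (nat_lit 1) (nat_lit 5) (nat_lit 0x54050) (nat_lit 0x1000200010000000000000001000200000000) (nat_lit 1) (nat_lit 1) t761_87)) (.split (nat_lit 9) (nat_lit 1) (.split (nat_lit 9) (nat_lit 2) (.split (nat_lit 8) (nat_lit 1) (.split (nat_lit 8) (nat_lit 2) (.sup (nat_lit 0x20006000b0010000d0000000000000000) (nat_lit 0x2000000000000000000000001000200020001)) (.non (nat_lit 1) (nat_lit 5) (nat_lit 0x6a010) (nat_lit 0x2000300020001000000000000000400000000))) (.non (nat_lit 2) (nat_lit 5) (nat_lit 0x6a004) (nat_lit 0x2000300020001000000000000000000040000)))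 (.non (nat_lit 1) (nat_lit 5) (nat_lit 0x90050) (nat_lit 0x1000100000000000000000001000200000000))) (.non (nat_lit 2) (nat_lit 5) (nat_lit 0x90005) (nat_lit 0x1000100000000000000000000000000020001)))) (.split (nat_lit 9) (nat_lit 1) (.split (nat_lit 9) (nat_lit 0) (.split (nat_lit 9) (nat_lit 2) (.split (nat_lit 8) (nat_lit 1) (.split (nat_lit 8) (nat_lit 2) (.sup (nat_lit 0x10006000b0010000d0000000000000000) (nat_lit 0x2000000000000000000000001000200020002)) (.non (nat_lit 1) (nat_lit 5) (nat_lit 0x6a010) (nat_lit 0x2000300020001000000000000000400000000))) (.non (nat_lit 2) (nat_lit 5) (nat_lit 0x68005) (nat_lit 0x1000200010000000000000000000000030002))) (.non (nat_lit 1) (nat_lit 5) (nat_lit 0x90050) (nat_lit 0x1000100000000000000000001000200000000))) (.non (nat_lit 1) (nat_lit 5) (nat_lit 0xa00a1) (nat_lit 0x2000100000000000000000001000200000002))) (.non (nat_lit 2) (nat_lit 5) (nat_lit 0x40005) (nat_lit 0x1000000000000000000000000000000010001)))) (.non (nat_lit 1) (nat_lit 5) (nat_lit 0x50010) (nat_lit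 0x1000100000000000000000000000100000000))) (.non (nat_lit 1) (nat_lit 5) (nat_lit 0x54010) (nat_lit 0x1000100010000000000000000000100000000))) (.star (nat_lit 9) (nat_lit 2) (nat_lit 6))) (.star (nat_lit 9) (nat_lit 2) (nat_lit 5))) (.non (nat_lit 1) (nat_lit 6) (nat_lit 0x50510) (nat_lit 0x3000100000000000300040000000200000000))) (.non (nat_lit 1) (nat_lit 5) (nat_lit 0x40050) (nat_lit 0x1000000000000000000000001000100000000)))) (.split (nat_lit 9) (nat_lit 0) (.split (nat_lit 9) (nat_lit 4) (.split (nat_lit 9) (nat_lit 5) (.split (nat_lit 9) (nat_lit 6) (.split (nat_lit 9) (nat_lit 7) (.split (nat_lit 9) (nat_lit 8) (.split (nat_lit 9) (nat_lit 2) (.split (nat_lit 9) (nat_lit 3) (.st (nat_lit 7) (nat_lit 2) (nat_lit 5) (nat_lit 0x55005) (nat_lit 0x1000200020001000000000000000000020001) (nat_lit 1) (nat_lit 1) (.st (nat_lit 8) (nat_lit 2) (nat_lit 5) (nat_lit 0x54005) (nat_lit 0x1000200010000000000000000000000020001) (nat_lit 1) (nat_lit 1) t761_89)) (.split (nat_lit 9) (nat_lit 1) (.split (nat_lit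 9) (nat_lit 3) (.split (nat_lit 8) (nat_lit 1) (.split (nat_lit 8) (nat_lit 2) (.sup (nat_lit 0x10006000b0010000d0000000000000000) (nat_lit 0x2000000000000000000000002000200020001)) (.non (nat_lit 1) (nat_lit 5) (nat_lit 0x68050) (nat_lit 0x1000200010000000000000002000300000000))) (.non (nat_lit 2) (nat_lit 5) (nat_lit 0x6a004) (nat_lit 0x2000300020001000000000000000000040000))) (.non (nat_lit 2) (nat_lit 5) (nat_lit 0x50085) (nat_lit 0x2000100000000000000000001000000020001))) (.non (nat_lit 2) (nat_lit 5) (nat_lit 0x94084) (nat_lit 0x2000200010000000000000001000000030000)))) (.split (nat_lit 9) (nat_lit 3) (.split (nat_lit 9) (nat_lit 1) (.split (nat_lit 9) (nat_lit 2) (.split (nat_lit 8) (nat_lit 1) (.split (nat_lit 8) (nat_lit 2) (.sup (nat_lit 0x20006000b0010000d0000000000000000) (nat_lit 0x2000000000000000000000001000200020001)) (.non (nat_lit 1) (nat_lit 5) (nat_lit 0x6a010) (nat_lit 0x2000300020001000000000000000400000000))) (.non (nat_lit 2) (nat_lit 5) (nat_lit 0x6a004) (nat_lit 0x2000300020001000000000000000000040000)))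 (.non (nat_lit 1) (nat_lit 5) (nat_lit 0x90050) (nat_lit 0x1000100000000000000000001000200000000))) (.non (nat_lit 2) (nat_lit 5) (nat_lit 0x90005) (nat_lit 0x1000100000000000000000000000000020001))) (.non (nat_lit 1) (nat_lit 5) (nat_lit 0x40050) (nat_lit 0x1000000000000000000000001000100000000)))) (.non (nat_lit 2) (nat_lit 5) (nat_lit 0x50004) (nat_lit 0x1000100000000000000000000000000010000))) (.non (nat_lit 2) (nat_lit 5) (nat_lit 0x54004) (nat_lit 0x1000100010000000000000000000000010000))) (.star (nat_lit 9) (nat_lit 1) (nat_lit 6))) (.star (nat_lit 9) (nat_lit 1) (nat_lit 5))) (.non (nat_lit 2) (nat_lit 6) (nat_lit 0x50504) (nat_lit 0x3000100000000000300040000000000020000))) (.non (nat_lit 2) (nat_lit 5) (nat_lit 0x40005) (nat_lit 0x1000000000000000000000000000000010001))))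

noncomputable def t761_91 : Tr := (.ex (nat_lit 8) (.split (nat_lit 8) (nat_lit 7) (.pd (.cons (nat_lit 1) (nat_lit 4) (nat_lit 0) (nat_lit 0x287602200) (nat_lit 0xf423f98965a2c28b71aef423f00000f423f5572c00000b71ae) (.cons (nat_lit 2) (nat_lit 4) (nat_lit 0) (nat_lit 0x187603000) (nat_lit 0xf423f98965a2c28b71aef423f00000f423f00000927bd51611) .nil)) (.ex (nat_lit 9) (.pd (.cons (nat_lit 3) (nat_lit 8) (nat_lit 0) (nat_lit 0x65440100) (nat_lit 0xf423f00000f423fb71aea2c280473700000f423f5459106711) .nil) (.leaf (.cons (nat_lit 0x10014) (nat_lit 0x100000000000000000000000100010000) .nil) .nil)) (.split (nat_lit 0xa) (nat_lit 0) (.split (nat_lit 0xa) (nat_lit 1) (.split (nat_lit 0xa) (nat_lit 2) (.split (nat_lit 0xa) (nat_lit 3) (.split (nat_lit 0xa) (nat_lit 4) (.split (nat_lit 0xa) (nat_lit 5) (.split (nat_lit 0xa) (nat_lit 6) (.split (nat_lit 0xa) (nat_lit 7) (.split (nat_lit 0xa) (nat_lit 8) (.leaf (.cons (nat_lit 0x10014) (nat_lit 0x100000000000000000000000100010000) (.cons (nat_lit 0x140015) (nat_lit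 0x10002000000000000000000000000000300040003) .nil)) .nil) (.non (nat_lit 1) (nat_lit 5) (nat_lit 0x155050) (nat_lit 0x20001000300020001000000000001000200000000))) (.non (nat_lit 1) (nat_lit 5) (nat_lit 0x155051) (nat_lit 0x30002000300040002000000000001000200000001))) (.non (nat_lit 2) (nat_lit 5) (nat_lit 0x155005) (nat_lit 0x10001000100010001000000000000000000010001))) (.non (nat_lit 1) (nat_lit 6) (nat_lit 0x140501) (nat_lit 0x30002000000000000000400030000000000000001))) (.non (nat_lit 1) (nat_lit 6) (nat_lit 0x140501) (nat_lit 0x30002000000000000000300040000000000000001))) (.non (nat_lit 0) (nat_lit 8) (nat_lit 0x140054) (nat_lit 0x20001000000000000000000000003000400030000))) (.non (nat_lit 1) (nat_lit 5) (nat_lit 0x155051) (nat_lit 0x30002000300020001000000000002000400000001))) (.non (nat_lit 2) (nat_lit 5) (nat_lit 0x140005) (nat_lit 0x10001000000000000000000000000000000010001))) (.non (nat_lit 1) (nat_lit 5) (nat_lit 0x140001) (nat_lit 0x10001000000000000000000000000000000000001))))) (.non (nat_lit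 1) (nat_lit 5) (nat_lit 0x1a050) (nat_lit 0x300020001000000000001000200000000))) (.split (nat_lit 0xa) (nat_lit 0) (.split (nat_lit 0xa) (nat_lit 1) (.split (nat_lit 0xa) (nat_lit 2) (.split (nat_lit 0xa) (nat_lit 3) (.split (nat_lit 0xa) (nat_lit 4) (.split (nat_lit 0xa) (nat_lit 5) (.split (nat_lit 0xa) (nat_lit 6) (.split (nat_lit 0xa) (nat_lit 7) (.split (nat_lit 0xa) (nat_lit 9) (.split (nat_lit 0xa) (nat_lit 8) (.split (nat_lit 8) (nat_lit 7) (.par (nat_lit 0x155405) (nat_lit 0x20001000400030002000100000000000000030002)) (.non (nat_lit 1) (nat_lit 5) (nat_lit 0x118010) (nat_lit 0x10000000200010000000000000000000100000000))) (.non (nat_lit 1) (nat_lit 5) (nat_lit 0x214010) (nat_lit 0x10000000200010000000000000000000100000000))) (.non (nat_lit 1) (nat_lit 5) (nat_lit 0x155050) (nat_lit 0x20001000300020001000000000001000200000000))) (.non (nat_lit 1) (nat_lit 5) (nat_lit 0x114000) (nat_lit 0x10000000100010000000000000000000000000000))) (.non (nat_lit 1) (nat_lit 5) (nat_lit 0x115000) (nat_lit 0x10000000100010001000000000000000000000000)))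 (.non (nat_lit 1) (nat_lit 6) (nat_lit 0x114500) (nat_lit 0x30000000200010000000400030000000000000000))) (.non (nat_lit 1) (nat_lit 5) (nat_lit 0x115150) (nat_lit 0x20000000300020001000000010001000200000000))) (.non (nat_lit 1) (nat_lit 5) (nat_lit 0x110050) (nat_lit 0x10000000100000000000000000001000100000000))) (.non (nat_lit 1) (nat_lit 5) (nat_lit 0x110010) (nat_lit 0x10000000100000000000000000000000100000000))) (.non (nat_lit 2) (nat_lit 5) (nat_lit 0x110004) (nat_lit 0x10000000100000000000000000000000000010000))) (.non (nat_lit 1) (nat_lit 5) (nat_lit 0x115051) (nat_lit 0x20000000300020001000000000001000200000001))))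

noncomputable def t761_92 : Tr := (.split (nat_lit 9) (nat_lit 0) (.split (nat_lit 8) (nat_lit 1) (.pd (.cons (nat_lit 1) (nat_lit 7) (nat_lit 0) (nat_lit 0x205442200) (nat_lit 0xf423ff423f00000f423fb71ae1f156f423f7a11d00000b71ae) (.cons (nat_lit 2) (nat_lit 7) (nat_lit 0) (nat_lit 0x105443000) (nat_lit 0xf423ff423f00000f423fb71ae1f156f423f00000b71ae65b97) .nil)) (.ex (nat_lit 7) (.pd (.cons (nat_lit 0) (nat_lit 8) (nat_lit 0) (nat_lit 0x9065442110) (nat_lit 0xf423f00000f423fb71aea2c2804737f423fb71ae1f15600000) (.cons (nat_lit 1) (nat_lit 8) (nat_lit 0) (nat_lit 0x65442200) (nat_lit 0xf423f00000f423fb71aea2c2804737f423fb71ae00000b71ae) (.cons (nat_lit 2) (nat_lit 8) (nat_lit 0) (nat_lit 0x65443000) (nat_lit 0xf423f00000f423fb71aea2c2804737f423f00000f423f7a11d) .nil))) t761_91) (.split (nat_lit 0xa) (nat_lit 0) (.split (nat_lit 0xa) (nat_lit 1) (.split (nat_lit 0xa) (nat_lit 2) (.split (nat_lit 0xa) (nat_lit 3) (.split (nat_lit 0xa) (nat_lit 4) (.split (nat_lit 0xa) (nat_lit 5) (.split (nat_lit 0xa)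 (nat_lit 6) (.split (nat_lit 0xa) (nat_lit 8) (.split (nat_lit 0xa) (nat_lit 9) (.unj (nat_lit 0x55) (nat_lit 0x1000200020001) (nat_lit 0x105500) (nat_lit 0x10000000000020003000400030000000000000000)) (.non (nat_lit 1) (nat_lit 5) (nat_lit 0x155051) (nat_lit 0x30002000300040002000000000001000200000001))) (.non (nat_lit 1) (nat_lit 5) (nat_lit 0x114000) (nat_lit 0x10000000100010000000000000000000000000000))) (.non (nat_lit 1) (nat_lit 5) (nat_lit 0x105000) (nat_lit 0x10000000000010001000000000000000000000000))) (.non (nat_lit 1) (nat_lit 6) (nat_lit 0x114500) (nat_lit 0x30000000100020000000400030000000000000000))) (.non (nat_lit 1) (nat_lit 6) (nat_lit 0x114500) (nat_lit 0x30000000100020000000300040000000000000000))) (.non (nat_lit 1) (nat_lit 5) (nat_lit 0x114050) (nat_lit 0x10000000100010000000000000001000100000000))) (.non (nat_lit 1) (nat_lit 5) (nat_lit 0x114010) (nat_lit 0x10000000100010000000000000000000100000000))) (.non (nat_lit 2) (nat_lit 5) (nat_lit 0x114004) (nat_lit 0x10000000100010000000000000000000000010000)))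 (.non (nat_lit 1) (nat_lit 5) (nat_lit 0x155051) (nat_lit 0x30001000300040002000000000001000200000002))))) (.non (nat_lit 2) (nat_lit 5) (nat_lit 0x68005) (nat_lit 0x1000200010000000000000000000000030002))) (.split (nat_lit 9) (nat_lit 0) (.split (nat_lit 8) (nat_lit 1) (.pd (.cons (nat_lit 1) (nat_lit 7) (nat_lit 0) (nat_lit 0x205442200) (nat_lit 0xf423ff423f00000f423fb71ae1f156f423f7a11d000007a11e) (.cons (nat_lit 2) (nat_lit 7) (nat_lit 0) (nat_lit 0x105443000) (nat_lit 0xf423ff423f00000f423fb71ae1f156f423f00000b71ae28b07) .nil)) (.st (nat_lit 7) (nat_lit 2) (nat_lit 5) (nat_lit 0x95005) (nat_lit 0x1000200020001000000000000000000020002) (nat_lit 1) (nat_lit 1) (.pd (.cons (nat_lit 0) (nat_lit 8) (nat_lit 0) (nat_lit 0x9065442110) (nat_lit 0xf423f00000f423fb71aea2c2804737f423fb71ae1f15600000) (.cons (nat_lit 1) (nat_lit 8) (nat_lit 0) (nat_lit 0x65442200) (nat_lit 0xf423f00000f423fb71aea2c2804737f423fb71ae000007a11e) (.cons (nat_lit 2) (nat_lit 8) (nat_lit 0) (nat_lit 0x65443000) (nat_lit 0xf423f00000f423fb71aea2c2804737f423f00000f423f3d08d)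 .nil))) (.st (nat_lit 8) (nat_lit 2) (nat_lit 5) (nat_lit 0x94005) (nat_lit 0x1000200010000000000000000000000020002) (nat_lit 1) (nat_lit 1) (.split (nat_lit 8) (nat_lit 7) (.pd (.cons (nat_lit 1) (nat_lit 4) (nat_lit 0) (nat_lit 0x287602200) (nat_lit 0xf423f98965a2c28b71aef423f00000f423f5572c000007a11e) (.cons (nat_lit 2) (nat_lit 4) (nat_lit 0) (nat_lit 0x187603000) (nat_lit 0xf423f98965a2c28b71aef423f00000f423f00000927bd14581) .nil)) (.leaf (.cons (nat_lit 0x10014) (nat_lit 0x100000000000000000000000100010000) (.cons (nat_lit 0x40015) (nat_lit 0x1000000000000000000000000000100010001) .nil)) .nil)) (.non (nat_lit 1) (nat_lit 5) (nat_lit 0x1a050) (nat_lit 0x300020001000000000001000200000000))))))) (.non (nat_lit 2) (nat_lit 5) (nat_lit 0xa0005) (nat_lit 0x1000100000000000000000000000000020002))) (.non (nat_lit 2) (nat_lit 5) (nat_lit 0x54005) (nat_lit 0x3000200010000000000000000000000030004))))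

noncomputable def t761_93 : Tr := (.ex (nat_lit 5) (.ex (nat_lit 6) (.split (nat_lit 8) (nat_lit 2) t761_92 (.non (nat_lit 1) (nat_lit 5) (nat_lit 0x2a050) (nat_lit 0x300020001000000000002000400000000))) (.split (nat_lit 0xa) (nat_lit 0) (.split (nat_lit 0xa) (nat_lit 1) (.split (nat_lit 0xa) (nat_lit 2) (.split (nat_lit 0xa) (nat_lit 3) (.split (nat_lit 0xa) (nat_lit 7) (.split (nat_lit 0xa) (nat_lit 8) (.split (nat_lit 0xa) (nat_lit 9) (.split (nat_lit 0xa) (nat_lit 4) (.split (nat_lit 0xa) (nat_lit 5) (.unj (nat_lit 0x55) (nat_lit 0x1000200020001) (nat_lit 0x105500) (nat_lit 0x10000000000010002000200020000000000000000)) (.unj (nat_lit 0x10014) (nat_lit 0x100000000000000000000000100010000) (nat_lit 0x101400) (nat_lit 0x10000000000000001000100000000000000000000))) (.split (nat_lit 0xa) (nat_lit 5) (.unj (nat_lit 0x10014) (nat_lit 0x100000000000000000000000100010000) (nat_lit 0x101500) (nat_lit 0x10000000000000001000100010000000000000000)) (.non (nat_lit 1) (nat_lit 6) (nat_lit 0x100500) (nat_lit 0x10000000000000000000100010000000000000000))))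 (.non (nat_lit 2) (nat_lit 5) (nat_lit 0x155005) (nat_lit 0x10001000100010001000000000000000000010001))) (.non (nat_lit 1) (nat_lit 5) (nat_lit 0x115000) (nat_lit 0x10000000100010001000000000000000000000000))) (.non (nat_lit 1) (nat_lit 5) (nat_lit 0x105000) (nat_lit 0x10000000000010001000000000000000000000000))) (.non (nat_lit 1) (nat_lit 5) (nat_lit 0x115050) (nat_lit 0x10000000100010001000000000001000100000000))) (.star (nat_lit 0xa) (nat_lit 2) (nat_lit 6))) (.star (nat_lit 0xa) (nat_lit 1) (nat_lit 6))) (.non (nat_lit 2) (nat_lit 5) (nat_lit 0x115005) (nat_lit 0x10000000100010001000000000000000000010001)))) (.split (nat_lit 0xa) (nat_lit 0) (.split (nat_lit 0xa) (nat_lit 1) (.split (nat_lit 0xa) (nat_lit 2) (.split (nat_lit 0xa) (nat_lit 3) (.split (nat_lit 0xa) (nat_lit 4) (.split (nat_lit 0xa) (nat_lit 7) (.split (nat_lit 0xa) (nat_lit 8) (.split (nat_lit 0xa) (nat_lit 9) (.split (nat_lit 0xa) (nat_lit 6) (.unj (nat_lit 0x10014) (nat_lit 0x100000000000000000000000100010000) (nat_lit 0x101500)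 (nat_lit 0x10000000000000001000200020000000000000000)) (.unj (nat_lit 0x10014) (nat_lit 0x100000000000000000000000100010000) (nat_lit 0x101400) (nat_lit 0x10000000000000001000100000000000000000000))) (.non (nat_lit 1) (nat_lit 6) (nat_lit 0x140501) (nat_lit 0x30002000000000000000400030000000000000001))) (.non (nat_lit 1) (nat_lit 6) (nat_lit 0x114500) (nat_lit 0x30000000200010000000400030000000000000000))) (.non (nat_lit 1) (nat_lit 6) (nat_lit 0x114500) (nat_lit 0x30000000100020000000400030000000000000000))) (.non (nat_lit 1) (nat_lit 6) (nat_lit 0x100500) (nat_lit 0x10000000000000000000100010000000000000000))) (.non (nat_lit 1) (nat_lit 6) (nat_lit 0x100550) (nat_lit 0x30000000000000000000400030002000100000000))) (.star (nat_lit 0xa) (nat_lit 2) (nat_lit 5))) (.star (nat_lit 0xa) (nat_lit 1) (nat_lit 5))) (.non (nat_lit 1) (nat_lit 6) (nat_lit 0x140501) (nat_lit 0x30001000000000000000400030000000000000002))))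

noncomputable def t761_94 : Tr := (.split (nat_lit 0xb) (nat_lit 0xa) (.ex (nat_lit 0xa) (.pd (.cons (nat_lit 0) (nat_lit 8) (nat_lit 0x101000000000) (nat_lit 0x93b065442110) (nat_lit 0x1f423f0000100000f423fb71aea2c2804737b71aea2c280473700000) .nil) (.leaf (.cons (nat_lit 0x10014) (nat_lit 0x100000000000000000000000100010000) (.cons (nat_lit 0x440015) (nat_lit 0x100000002000000000000000000000000000300040003) .nil)) .nil)) (.split (nat_lit 0xc) (nat_lit 0) (.split (nat_lit 0xc) (nat_lit 1) (.split (nat_lit 0xc) (nat_lit 2) (.split (nat_lit 0xc) (nat_lit 3) (.split (nat_lit 0xc) (nat_lit 4) (.split (nat_lit 0xc) (nat_lit 5) (.split (nat_lit 0xc) (nat_lit 6) (.split (nat_lit 0xc) (nat_lit 7) (.split (nat_lit 0xc) (nat_lit 8) (.split (nat_lit 0xc) (nat_lit 9) (.split (nat_lit 0xc) (nat_lit 0xb) (.leaf (.cons (nat_lit 0x10014) (nat_lit 0x100000000000000000000000100010000) (.cons (nat_lit 0x1100054) (nat_lit 0x1000000020000000000000000000000000003000400030000) (.cons (nat_lit 0x440015) (nat_lit 0x100000002000000000000000000000000000300040003)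 .nil))) .nil) (.leaf (.cons (nat_lit 0x10014) (nat_lit 0x100000000000000000000000100010000) (.cons (nat_lit 0x1100054) (nat_lit 0x1000000020000000000000000000000000003000400030000) (.cons (nat_lit 0x440015) (nat_lit 0x100000002000000000000000000000000000300040003) .nil))) .nil)) (.non (nat_lit 2) (nat_lit 5) (nat_lit 0x1555005) (nat_lit 0x4000300020006000300020001000000000000000000040005))) (.non (nat_lit 1) (nat_lit 5) (nat_lit 0x1110050) (nat_lit 0x1000000010000000100000000000000000001000100000000))) (.non (nat_lit 1) (nat_lit 5) (nat_lit 0x1114050) (nat_lit 0x1000000010000000100010000000000000001000100000000))) (.non (nat_lit 1) (nat_lit 5) (nat_lit 0x1115050) (nat_lit 0x1000000010000000100010001000000000001000100000000))) (.non (nat_lit 1) (nat_lit 6) (nat_lit 0x1100540) (nat_lit 0x3000000020000000000000000000400030001000000000000))) (.non (nat_lit 1) (nat_lit 6) (nat_lit 0x1100540) (nat_lit 0x3000000020000000000000000000300040001000000000000))) (.non (nat_lit 1) (nat_lit 5) (nat_lit 0x1100040) (nat_lit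 0x1000000010000000000000000000000000001000000000000))) (.non (nat_lit 1) (nat_lit 5) (nat_lit 0x1100050) (nat_lit 0x1000000010000000000000000000000000001000100000000))) (.non (nat_lit 2) (nat_lit 5) (nat_lit 0x1154005) (nat_lit 0x2000000010001000200010000000000000000000000030002))) (.non (nat_lit 2) (nat_lit 5) (nat_lit 0x1550005) (nat_lit 0x2000100010002000100000000000000000000000000020003)))) (.leaf (.cons (nat_lit 0x10014) (nat_lit 0x100000000000000000000000100010000) (.cons (nat_lit 0x500054) (nat_lit 0x100020000000000000000000000000003000400030000) (.cons (nat_lit 0x440015) (nat_lit 0x100000002000000000000000000000000000300040003) .nil))) .nil))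

noncomputable def t761_95 : Tr := (.ex (nat_lit 9) (.pd (.cons (nat_lit 3) (nat_lit 8) (nat_lit 0) (nat_lit 0xa0065440100) (nat_lit 0xf423ff423f00000f423fb71aea2c280473700000f423f5459106711) .nil) (.ex (nat_lit 0xa) (.pd (.cons (nat_lit 0) (nat_lit 8) (nat_lit 0) (nat_lit 0x39065442110) (nat_lit 0xf423ff423f00000f423fb71aea2c2804737b71aea2c280473700000) .nil) (.leaf (.cons (nat_lit 0x10014) (nat_lit 0x100000000000000000000000100010000) .nil) .nil)) (.split (nat_lit 0xb) (nat_lit 0) (.split (nat_lit 0xb) (nat_lit 1) (.split (nat_lit 0xb) (nat_lit 2) (.split (nat_lit 0xb) (nat_lit 3) (.split (nat_lit 0xb) (nat_lit 4) (.split (nat_lit 0xb) (nat_lit 5) (.split (nat_lit 0xb) (nat_lit 6) (.split (nat_lit 0xb) (nat_lit 7) (.split (nat_lit 0xb) (nat_lit 8) (.split (nat_lit 0xb) (nat_lit 9) (.leaf (.cons (nat_lit 0x10014) (nat_lit 0x100000000000000000000000100010000) (.cons (nat_lit 0x500054) (nat_lit 0x100020000000000000000000000000003000400030000) .nil)) .nil) (.non (nat_lit 3) (nat_lit 8) (nat_lit 0x440015)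 (nat_lit 0x100000002000000000000000000000000000300040003))) (.non (nat_lit 1) (nat_lit 5) (nat_lit 0x510050) (nat_lit 0x100010000000100000000000000000001000100000000))) (.non (nat_lit 1) (nat_lit 5) (nat_lit 0x514050) (nat_lit 0x100010000000100010000000000000001000100000000))) (.non (nat_lit 1) (nat_lit 5) (nat_lit 0x515050) (nat_lit 0x100010000000100010001000000000001000100000000))) (.non (nat_lit 1) (nat_lit 6) (nat_lit 0x500540) (nat_lit 0x300020000000000000000000400030001000000000000))) (.non (nat_lit 1) (nat_lit 6) (nat_lit 0x500540) (nat_lit 0x300020000000000000000000300040001000000000000))) (.non (nat_lit 1) (nat_lit 5) (nat_lit 0x500040) (nat_lit 0x100010000000000000000000000000001000000000000))) (.non (nat_lit 1) (nat_lit 5) (nat_lit 0x500050) (nat_lit 0x100010000000000000000000000000001000100000000))) (.non (nat_lit 2) (nat_lit 5) (nat_lit 0x554005) (nat_lit 0x200010001000200010000000000000000000000030002))) (.non (nat_lit 2) (nat_lit 5) (nat_lit 0x554045) (nat_lit 0x300020002000200010000000000000001000000030004)))))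 (.split (nat_lit 0xb) (nat_lit 0) (.split (nat_lit 0xb) (nat_lit 1) (.split (nat_lit 0xb) (nat_lit 2) (.split (nat_lit 0xb) (nat_lit 3) (.split (nat_lit 0xb) (nat_lit 4) (.split (nat_lit 0xb) (nat_lit 5) (.split (nat_lit 0xb) (nat_lit 6) (.split (nat_lit 0xb) (nat_lit 7) (.split (nat_lit 0xb) (nat_lit 8) t761_94 (.non (nat_lit 1) (nat_lit 5) (nat_lit 0x455050) (nat_lit 0x200000001000300020001000000000001000200000000))) (.non (nat_lit 1) (nat_lit 5) (nat_lit 0x455051) (nat_lit 0x300000002000300040002000000000001000200000001))) (.non (nat_lit 2) (nat_lit 5) (nat_lit 0x455005) (nat_lit 0x100000001000100010001000000000000000000010001))) (.non (nat_lit 1) (nat_lit 6) (nat_lit 0x440501) (nat_lit 0x300000002000000000000000400030000000000000001))) (.non (nat_lit 1) (nat_lit 6) (nat_lit 0x440501) (nat_lit 0x300000002000000000000000300040000000000000001))) (.non (nat_lit 1) (nat_lit 5) (nat_lit 0x554051) (nat_lit 0x300020002000200010000000000000004000300000001))) (.non (nat_lit 1) (nat_lit 5) (nat_lit 0x554050)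 (nat_lit 0x200010001000200010000000000000002000300000000))) (.non (nat_lit 2) (nat_lit 5) (nat_lit 0x440005) (nat_lit 0x100000001000000000000000000000000000000010001))) (.non (nat_lit 1) (nat_lit 5) (nat_lit 0x440001) (nat_lit 0x100000001000000000000000000000000000000000001))))

noncomputable def t761_96 : Tr := (.pd (.cons (nat_lit 1) (nat_lit 8) (nat_lit 0) (nat_lit 0x30065442200) (nat_lit 0xf423ff423f00000f423fb71aea2c2804737b71aea2c2800000b71ae) (.cons (nat_lit 2) (nat_lit 8) (nat_lit 0) (nat_lit 0x30065443000) (nat_lit 0xf423ff423f00000f423fb71aea2c2804737b71ae00000f423f7a11d) .nil)) (.ex (nat_lit 8) (.split (nat_lit 8) (nat_lit 7) (.pd (.cons (nat_lit 1) (nat_lit 4) (nat_lit 0) (nat_lit 0x30287602200) (nat_lit 0xf423ff423f98965a2c28b71aef423f00000b71ae411a600000b71ae) (.cons (nat_lit 2) (nat_lit 4) (nat_lit 0) (nat_lit 0x30187603000) (nat_lit 0xf423ff423f98965a2c28b71aef423f00000b71ae00000927bd51611) .nil)) t761_95) (.non (nat_lit 1) (nat_lit 5) (nat_lit 0x1a050) (nat_lit 0x300020001000000000001000200000000)))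 (.split (nat_lit 0xb) (nat_lit 0) (.split (nat_lit 0xb) (nat_lit 1) (.split (nat_lit 0xb) (nat_lit 2) (.split (nat_lit 0xb) (nat_lit 3) (.split (nat_lit 0xb) (nat_lit 4) (.split (nat_lit 0xb) (nat_lit 5) (.split (nat_lit 0xb) (nat_lit 6) (.split (nat_lit 0xb) (nat_lit 7) (.split (nat_lit 0xb) (nat_lit 9) (.split (nat_lit 0xb) (nat_lit 0xa) (.split (nat_lit 0xb) (nat_lit 8) (.split (nat_lit 8) (nat_lit 7) (.par (nat_lit 0x455405) (nat_lit 0x200000001000400030002000100000000000000030002)) (.non (nat_lit 1) (nat_lit 5) (nat_lit 0x418010) (nat_lit 0x100000000000200010000000000000000000100000000))) (.non (nat_lit 1) (nat_lit 5) (nat_lit 0x814010) (nat_lit 0x100000000000200010000000000000000000100000000))) (.non (nat_lit 1) (nat_lit 5) (nat_lit 0x510050) (nat_lit 0x100010000000100000000000000000001000100000000))) (.non (nat_lit 1) (nat_lit 5) (nat_lit 0x455050) (nat_lit 0x200000001000300020001000000000001000200000000))) (.non (nat_lit 1) (nat_lit 5) (nat_lit 0x414000) (nat_lit 0x100000000000100010000000000000000000000000000)))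 (.non (nat_lit 1) (nat_lit 5) (nat_lit 0x415000) (nat_lit 0x100000000000100010001000000000000000000000000))) (.non (nat_lit 1) (nat_lit 6) (nat_lit 0x414500) (nat_lit 0x300000000000200010000000400030000000000000000))) (.non (nat_lit 1) (nat_lit 5) (nat_lit 0x415150) (nat_lit 0x200000000000300020001000000010001000200000000))) (.non (nat_lit 1) (nat_lit 5) (nat_lit 0x410050) (nat_lit 0x100000000000100000000000000000001000100000000))) (.non (nat_lit 1) (nat_lit 5) (nat_lit 0x410010) (nat_lit 0x100000000000100000000000000000000000100000000))) (.non (nat_lit 2) (nat_lit 5) (nat_lit 0x410004) (nat_lit 0x100000000000100000000000000000000000000010000))) (.non (nat_lit 1) (nat_lit 5) (nat_lit 0x554051) (nat_lit 0x300010001000400020000000000000002000300000002)))))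

noncomputable def t761_97 : Tr := (.st (nat_lit 8) (nat_lit 2) (nat_lit 5) (nat_lit 0x94005) (nat_lit 0x1000200010000000000000000000000020002) (nat_lit 1) (nat_lit 1) (.split (nat_lit 8) (nat_lit 7) (.pd (.cons (nat_lit 1) (nat_lit 4) (nat_lit 0) (nat_lit 0x30287602200) (nat_lit 0xf423ff423f98965a2c28b71aef423f00000b71ae411a6000007a11e) (.cons (nat_lit 2) (nat_lit 4) (nat_lit 0) (nat_lit 0x30187603000) (nat_lit 0xf423ff423f98965a2c28b71aef423f00000b71ae00000927bd14581) .nil)) (.ex (nat_lit 0xa) (.pd (.cons (nat_lit 0) (nat_lit 8) (nat_lit 0) (nat_lit 0x39065442110) (nat_lit 0xf423ff423f00000f423fb71aea2c2804737b71aea2c280473700000) .nil) (.leaf (.cons (nat_lit 0x10014) (nat_lit 0x100000000000000000000000100010000) (.cons (nat_lit 0x40015) (nat_lit 0x1000000000000000000000000000100010001) .nil)) .nil)) (.split (nat_lit 0xb) (nat_lit 0) (.split (nat_lit 0xb) (nat_lit 1) (.split (nat_lit 0xb) (nat_lit 2) (.split (nat_lit 0xb) (nat_lit 3) (.split (nat_lit 0xb) (nat_lit 4) (.split (nat_lit 0xb) (nat_lit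 5) (.split (nat_lit 0xb) (nat_lit 6) (.split (nat_lit 0xb) (nat_lit 7) (.split (nat_lit 0xb) (nat_lit 8) (.split (nat_lit 0xb) (nat_lit 9) (.leaf (.cons (nat_lit 0x10014) (nat_lit 0x100000000000000000000000100010000) (.cons (nat_lit 0x500054) (nat_lit 0x100020000000000000000000000000003000400030000) (.cons (nat_lit 0x40015) (nat_lit 0x1000000000000000000000000000100010001) .nil))) .nil) (.non (nat_lit 2) (nat_lit 5) (nat_lit 0xa80005) (nat_lit 0x200010003000000000000000000000000000000020004))) (.non (nat_lit 1) (nat_lit 5) (nat_lit 0x510050) (nat_lit 0x100010000000100000000000000000001000100000000))) (.non (nat_lit 1) (nat_lit 5) (nat_lit 0x514050) (nat_lit 0x100010000000100010000000000000001000100000000))) (.non (nat_lit 1) (nat_lit 5) (nat_lit 0x515050) (nat_lit 0x100010000000100010001000000000001000100000000))) (.non (nat_lit 1) (nat_lit 6) (nat_lit 0x500540) (nat_lit 0x300020000000000000000000400030001000000000000))) (.non (nat_lit 1) (nat_lit 6) (nat_lit 0x500540) (nat_lit 0x300020000000000000000000300040001000000000000)))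 (.non (nat_lit 1) (nat_lit 5) (nat_lit 0x500040) (nat_lit 0x100010000000000000000000000000001000000000000))) (.non (nat_lit 1) (nat_lit 5) (nat_lit 0x500050) (nat_lit 0x100010000000000000000000000000001000100000000))) (.non (nat_lit 2) (nat_lit 5) (nat_lit 0x490005) (nat_lit 0x100000001000100000000000000000000000000020002))) (.non (nat_lit 2) (nat_lit 5) (nat_lit 0x480005) (nat_lit 0x100000001000000000000000000000000000000010002))))) (.non (nat_lit 1) (nat_lit 5) (nat_lit 0x1a050) (nat_lit 0x300020001000000000001000200000000))))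

noncomputable def t761_98 : Tr := (.split (nat_lit 9) (nat_lit 0) (.split (nat_lit 8) (nat_lit 1) (.pd (.cons (nat_lit 1) (nat_lit 7) (nat_lit 0) (nat_lit 0x30205442200) (nat_lit 0xf423ff423ff423f00000f423fb71ae1f156b71ae65b9700000b71ae) (.cons (nat_lit 2) (nat_lit 7) (nat_lit 0) (nat_lit 0x30105443000) (nat_lit 0xf423ff423ff423f00000f423fb71ae1f156b71ae00000b71ae65b97) .nil)) (.ex (nat_lit 7) t761_96 (.split (nat_lit 0xb) (nat_lit 0) (.split (nat_lit 0xb) (nat_lit 1) (.split (nat_lit 0xb) (nat_lit 2) (.split (nat_lit 0xb) (nat_lit 3) (.split (nat_lit 0xb) (nat_lit 4) (.split (nat_lit 0xb) (nat_lit 5) (.split (nat_lit 0xb) (nat_lit 6) (.split (nat_lit 0xb) (nat_lit 8) (.split (nat_lit 0xb) (nat_lit 9) (.split (nat_lit 0xb) (nat_lit 0xa) (.unj (nat_lit 0x55) (nat_lit 0x1000200020001) (nat_lit 0x405500) (nat_lit 0x100000000000000020003000400030000000000000000)) (.non (nat_lit 1) (nat_lit 5) (nat_lit 0x514050) (nat_lit 0x100010000000100010000000000000001000100000000))) (.non (nat_lit 1) (nat_lit 5) (nat_lit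 0x455051) (nat_lit 0x300000002000300040002000000000001000200000001))) (.non (nat_lit 1) (nat_lit 5) (nat_lit 0x414000) (nat_lit 0x100000000000100010000000000000000000000000000))) (.non (nat_lit 1) (nat_lit 5) (nat_lit 0x405000) (nat_lit 0x100000000000000010001000000000000000000000000))) (.non (nat_lit 1) (nat_lit 6) (nat_lit 0x414500) (nat_lit 0x300000000000100020000000400030000000000000000))) (.non (nat_lit 1) (nat_lit 6) (nat_lit 0x414500) (nat_lit 0x300000000000100020000000300040000000000000000))) (.non (nat_lit 1) (nat_lit 5) (nat_lit 0x414050) (nat_lit 0x100000000000100010000000000000001000100000000))) (.non (nat_lit 1) (nat_lit 5) (nat_lit 0x414010) (nat_lit 0x100000000000100010000000000000000000100000000))) (.non (nat_lit 2) (nat_lit 5) (nat_lit 0x414004) (nat_lit 0x100000000000100010000000000000000000000010000))) (.non (nat_lit 1) (nat_lit 5) (nat_lit 0x455051) (nat_lit 0x300000001000300040002000000000001000200000002))))) (.non (nat_lit 2) (nat_lit 5) (nat_lit 0x68005) (nat_lit 0x1000200010000000000000000000000030002)))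 (.split (nat_lit 9) (nat_lit 0) (.split (nat_lit 8) (nat_lit 1) (.pd (.cons (nat_lit 1) (nat_lit 7) (nat_lit 0) (nat_lit 0x30205442200) (nat_lit 0xf423ff423ff423f00000f423fb71ae1f156b71ae65b97000007a11e) (.cons (nat_lit 2) (nat_lit 7) (nat_lit 0) (nat_lit 0x30105443000) (nat_lit 0xf423ff423ff423f00000f423fb71ae1f156b71ae00000b71ae28b07) .nil)) (.st (nat_lit 7) (nat_lit 2) (nat_lit 5) (nat_lit 0x95005) (nat_lit 0x1000200020001000000000000000000020002) (nat_lit 1) (nat_lit 1) (.pd (.cons (nat_lit 1) (nat_lit 8) (nat_lit 0) (nat_lit 0x30065442200) (nat_lit 0xf423ff423f00000f423fb71aea2c2804737b71aea2c28000007a11e) (.cons (nat_lit 2) (nat_lit 8) (nat_lit 0) (nat_lit 0x30065443000) (nat_lit 0xf423ff423f00000f423fb71aea2c2804737b71ae00000f423f3d08d) .nil)) t761_97))) (.non (nat_lit 2) (nat_lit 5) (nat_lit 0xa0005) (nat_lit 0x1000100000000000000000000000000020002))) (.non (nat_lit 2) (nat_lit 5) (nat_lit 0x54005) (nat_lit 0x3000200010000000000000000000000030004))))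

noncomputable def t761_99 : Tr := (.st (nat_lit 8) (nat_lit 1) (nat_lit 5) (nat_lit 0x214050) (nat_lit 0x10000000200010000000000000002000200000000) (nat_lit 1) (nat_lit 1) (.split (nat_lit 8) (nat_lit 7) (.pd (.cons (nat_lit 1) (nat_lit 4) (nat_lit 0) (nat_lit 0x30287602200) (nat_lit 0xf423ff423f98965a2c28b71aef423f000007a11e1869a00000b71ae) (.cons (nat_lit 2) (nat_lit 4) (nat_lit 0) (nat_lit 0x30187603000) (nat_lit 0xf423ff423f98965a2c28b71aef423f000007a11e00000927bd51611) .nil)) (.ex (nat_lit 9) (.pd (.cons (nat_lit 3) (nat_lit 8) (nat_lit 0) (nat_lit 0xa0065440100) (nat_lit 0xf423ff423f00000f423fb71aea2c280473700000f423f5459106711) .nil) (.leaf (.cons (nat_lit 0x10014) (nat_lit 0x100000000000000000000000100010000) (.cons (nat_lit 0x100054) (nat_lit 0x10000000000000000000000000001000100010000) .nil)) .nil)) (.split (nat_lit 0xb) (nat_lit 0) (.split (nat_lit 0xb) (nat_lit 1) (.split (nat_lit 0xb) (nat_lit 2) (.split (nat_lit 0xb) (nat_lit 3) (.split (nat_lit 0xb) (nat_lit 4) (.split (nat_lit 0xb) (nat_lit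 5) (.split (nat_lit 0xb) (nat_lit 6) (.split (nat_lit 0xb) (nat_lit 7) (.split (nat_lit 0xb) (nat_lit 8) (.split (nat_lit 0xb) (nat_lit 0xa) (.leaf (.cons (nat_lit 0x10014) (nat_lit 0x100000000000000000000000100010000) (.cons (nat_lit 0x100054) (nat_lit 0x10000000000000000000000000001000100010000) (.cons (nat_lit 0x440015) (nat_lit 0x100000002000000000000000000000000000300040003) .nil))) .nil) (.non (nat_lit 1) (nat_lit 5) (nat_lit 0xa80050) (nat_lit 0x200030001000000000000000000000004000200000000))) (.non (nat_lit 1) (nat_lit 5) (nat_lit 0x614050) (nat_lit 0x100010000000200010000000000000002000200000000))) (.non (nat_lit 1) (nat_lit 5) (nat_lit 0x615050) (nat_lit 0x100010000000200020001000000000002000200000000))) (.non (nat_lit 2) (nat_lit 5) (nat_lit 0x455005) (nat_lit 0x100000001000100010001000000000000000000010001))) (.non (nat_lit 1) (nat_lit 6) (nat_lit 0x440501) (nat_lit 0x300000002000000000000000400030000000000000001))) (.non (nat_lit 1) (nat_lit 6) (nat_lit 0x440501) (nat_lit 0x300000002000000000000000300040000000000000001)))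 (.non (nat_lit 1) (nat_lit 5) (nat_lit 0x600050) (nat_lit 0x100010000000000000000000000000002000100000000))) (.non (nat_lit 1) (nat_lit 5) (nat_lit 0x610050) (nat_lit 0x100010000000100000000000000000002000200000000))) (.non (nat_lit 2) (nat_lit 5) (nat_lit 0x440005) (nat_lit 0x100000001000000000000000000000000000000010001))) (.non (nat_lit 1) (nat_lit 5) (nat_lit 0x440001) (nat_lit 0x100000001000000000000000000000000000000000001))))) (.non (nat_lit 1) (nat_lit 5) (nat_lit 0x218050) (nat_lit 0x10000000200010000000000000002000200000000))))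

noncomputable def t761_100 : Tr := (.split (nat_lit 9) (nat_lit 0) (.split (nat_lit 8) (nat_lit 1) (.pd (.cons (nat_lit 1) (nat_lit 7) (nat_lit 0) (nat_lit 0x30205442200) (nat_lit 0xf423ff423ff423f00000f423fb71ae1f1567a11e3d08b00000b71ae) (.cons (nat_lit 2) (nat_lit 7) (nat_lit 0) (nat_lit 0x30105443000) (nat_lit 0xf423ff423ff423f00000f423fb71ae1f1567a11e00000b71ae65b97) .nil)) (.st (nat_lit 7) (nat_lit 1) (nat_lit 5) (nat_lit 0x215050) (nat_lit 0x10000000200020001000000000002000200000000) (nat_lit 1) (nat_lit 1) (.pd (.cons (nat_lit 1) (nat_lit 8) (nat_lit 0) (nat_lit 0x30065442200) (nat_lit 0xf423ff423f00000f423fb71aea2c28047377a11e7a11c00000b71ae) (.cons (nat_lit 2) (nat_lit 8) (nat_lit 0) (nat_lit 0x30065443000) (nat_lit 0xf423ff423f00000f423fb71aea2c28047377a11e00000f423f7a11d) .nil)) t761_99))) (.non (nat_lit 2) (nat_lit 5) (nat_lit 0x68005) (nat_lit 0x1000200010000000000000000000000030002))) (.split (nat_lit 9) (nat_lit 0) (.split (nat_lit 8) (nat_lit 1) (.pd (.cons (nat_lit 1) (nat_lit 7) (nat_lit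 0) (nat_lit 0x30205442200) (nat_lit 0xf423ff423ff423f00000f423fb71ae1f1567a11e3d08b000007a11e) (.cons (nat_lit 2) (nat_lit 7) (nat_lit 0) (nat_lit 0x30105443000) (nat_lit 0xf423ff423ff423f00000f423fb71ae1f1567a11e00000b71ae28b07) .nil)) (.st (nat_lit 7) (nat_lit 1) (nat_lit 5) (nat_lit 0x215050) (nat_lit 0x10000000200020001000000000002000200000000) (nat_lit 1) (nat_lit 1) (.pd (.cons (nat_lit 1) (nat_lit 8) (nat_lit 0) (nat_lit 0x30065442200) (nat_lit 0xf423ff423f00000f423fb71aea2c28047377a11e7a11c000007a11e) (.cons (nat_lit 2) (nat_lit 8) (nat_lit 0) (nat_lit 0x30065443000) (nat_lit 0xf423ff423f00000f423fb71aea2c28047377a11e00000f423f3d08d) .nil)) (.st (nat_lit 8) (nat_lit 1) (nat_lit 5) (nat_lit 0x214050) (nat_lit 0x10000000200010000000000000002000200000000) (nat_lit 1) (nat_lit 1) (.split (nat_lit 8) (nat_lit 7) (.pd (.cons (nat_lit 1) (nat_lit 4) (nat_lit 0) (nat_lit 0x30287602200) (nat_lit 0xf423ff423f98965a2c28b71aef423f000007a11e1869a000007a11e) (.cons (nat_lit 2) (nat_lit 4) (nat_lit 0) (nat_lit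 0x30187603000) (nat_lit 0xf423ff423f98965a2c28b71aef423f000007a11e00000927bd14581) .nil)) (.leaf (.cons (nat_lit 0x10014) (nat_lit 0x100000000000000000000000100010000) (.cons (nat_lit 0x100054) (nat_lit 0x10000000000000000000000000001000100010000) (.cons (nat_lit 0x40015) (nat_lit 0x1000000000000000000000000000100010001) .nil))) .nil)) (.non (nat_lit 1) (nat_lit 5) (nat_lit 0x218050) (nat_lit 0x10000000200010000000000000002000200000000))))))) (.non (nat_lit 2) (nat_lit 5) (nat_lit 0xa0005) (nat_lit 0x1000100000000000000000000000000020002))) (.non (nat_lit 2) (nat_lit 5) (nat_lit 0x54005) (nat_lit 0x3000200010000000000000000000000030004))))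

noncomputable def t761_101 : Tr := (.ex (nat_lit 5) (.ex (nat_lit 6) (.split (nat_lit 8) (nat_lit 2) (.split (nat_lit 0xa) (nat_lit 3) t761_98 (.split (nat_lit 0xa) (nat_lit 3) t761_100 (.non (nat_lit 1) (nat_lit 5) (nat_lit 0x114050) (nat_lit 0x30000000200010000000000000004000300000000)))) (.non (nat_lit 1) (nat_lit 5) (nat_lit 0x128050) (nat_lit 0x10000000200010000000000000002000300000000))) (.split (nat_lit 0xb) (nat_lit 0) (.split (nat_lit 0xb) (nat_lit 1) (.split (nat_lit 0xb) (nat_lit 2) (.split (nat_lit 0xb) (nat_lit 3) (.split (nat_lit 0xb) (nat_lit 7) (.split (nat_lit 0xb) (nat_lit 8) (.split (nat_lit 0xb) (nat_lit 9) (.split (nat_lit 0xb) (nat_lit 0xa) (.split (nat_lit 0xb) (nat_lit 4) (.split (nat_lit 0xb) (nat_lit 5) (.unj (nat_lit 0x55) (nat_lit 0x1000200020001) (nat_lit 0x405500) (nat_lit 0x100000000000000010002000200020000000000000000)) (.unj (nat_lit 0x10014) (nat_lit 0x100000000000000000000000100010000) (nat_lit 0x401400) (nat_lit 0x100000000000000000001000100000000000000000000))) (.split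 (nat_lit 0xb) (nat_lit 5) (.unj (nat_lit 0x10014) (nat_lit 0x100000000000000000000000100010000) (nat_lit 0x401500) (nat_lit 0x100000000000000000001000100010000000000000000)) (.non (nat_lit 1) (nat_lit 6) (nat_lit 0x400500) (nat_lit 0x100000000000000000000000100010000000000000000)))) (.non (nat_lit 1) (nat_lit 5) (nat_lit 0x515050) (nat_lit 0x100010000000100010001000000000001000100000000))) (.non (nat_lit 2) (nat_lit 5) (nat_lit 0x455005) (nat_lit 0x100000001000100010001000000000000000000010001))) (.non (nat_lit 1) (nat_lit 5) (nat_lit 0x415000) (nat_lit 0x100000000000100010001000000000000000000000000))) (.non (nat_lit 1) (nat_lit 5) (nat_lit 0x405000) (nat_lit 0x100000000000000010001000000000000000000000000))) (.non (nat_lit 1) (nat_lit 5) (nat_lit 0x415050) (nat_lit 0x100000000000100010001000000000001000100000000))) (.star (nat_lit 0xb) (nat_lit 2) (nat_lit 6))) (.star (nat_lit 0xb) (nat_lit 1) (nat_lit 6))) (.non (nat_lit 2) (nat_lit 5) (nat_lit 0x415005) (nat_lit 0x100000000000100010001000000000000000000010001))))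 (.split (nat_lit 0xb) (nat_lit 0) (.split (nat_lit 0xb) (nat_lit 1) (.split (nat_lit 0xb) (nat_lit 2) (.split (nat_lit 0xb) (nat_lit 3) (.split (nat_lit 0xb) (nat_lit 4) (.split (nat_lit 0xb) (nat_lit 7) (.split (nat_lit 0xb) (nat_lit 8) (.split (nat_lit 0xb) (nat_lit 9) (.split (nat_lit 0xb) (nat_lit 0xa) (.split (nat_lit 0xb) (nat_lit 6) (.unj (nat_lit 0x10014) (nat_lit 0x100000000000000000000000100010000) (nat_lit 0x401500) (nat_lit 0x100000000000000000001000200020000000000000000)) (.unj (nat_lit 0x10014) (nat_lit 0x100000000000000000000000100010000) (nat_lit 0x401400) (nat_lit 0x100000000000000000001000100000000000000000000))) (.non (nat_lit 1) (nat_lit 6) (nat_lit 0x500540) (nat_lit 0x300020000000000000000000400030001000000000000))) (.non (nat_lit 1) (nat_lit 6) (nat_lit 0x440501) (nat_lit 0x300000002000000000000000400030000000000000001))) (.non (nat_lit 1) (nat_lit 6) (nat_lit 0x414500) (nat_lit 0x300000000000200010000000400030000000000000000))) (.non (nat_lit 1) (nat_lit 6) (nat_lit 0x414500)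 (nat_lit 0x300000000000100020000000400030000000000000000))) (.non (nat_lit 1) (nat_lit 6) (nat_lit 0x400500) (nat_lit 0x100000000000000000000000100010000000000000000))) (.non (nat_lit 1) (nat_lit 6) (nat_lit 0x500540) (nat_lit 0x300010000000000000000000400030002000000000000))) (.star (nat_lit 0xb) (nat_lit 2) (nat_lit 5))) (.star (nat_lit 0xb) (nat_lit 1) (nat_lit 5))) (.non (nat_lit 1) (nat_lit 6) (nat_lit 0x440501) (nat_lit 0x300000001000000000000000400030000000000000002))))

noncomputable def t761_102 : Tr := (.pd (.cons (nat_lit 1) (nat_lit 4) (nat_lit 0) (nat_lit 0x330287602200) (nat_lit 0xf423ff423ff423f98965a2c28b71aef423f000007a11d1869900000b71ae) (.cons (nat_lit 1) (nat_lit 7) (nat_lit 0) (nat_lit 0x330205442200) (nat_lit 0xf423ff423ff423ff423f00000f423fb71ae1f1567a11d3d08a00000b71ae) (.cons (nat_lit 1) (nat_lit 8) (nat_lit 0) (nat_lit 0x330065442200) (nat_lit 0xf423ff423ff423f00000f423fb71aea2c28047377a11d7a11b00000b71ae) (.cons (nat_lit 2) (nat_lit 4) (nat_lit 0) (nat_lit 0x330187603000) (nat_lit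 0xf423ff423ff423f98965a2c28b71aef423f000007a11d00000927bd51611) (.cons (nat_lit 2) (nat_lit 7) (nat_lit 0) (nat_lit 0x330105443000) (nat_lit 0xf423ff423ff423ff423f00000f423fb71ae1f1567a11d00000b71ae65b97) (.cons (nat_lit 2) (nat_lit 8) (nat_lit 0) (nat_lit 0x330065443000) (nat_lit 0xf423ff423ff423f00000f423fb71aea2c28047377a11d00000f423f7a11d) .nil)))))) (.ex (nat_lit 9) (.pd (.cons (nat_lit 3) (nat_lit 8) (nat_lit 0) (nat_lit 0xba0065440100) (nat_lit 0xf423ff423ff423f00000f423fb71aea2c280473700000f423f5459106711) .nil) (.leaf (.cons (nat_lit 0x10014) (nat_lit 0x100000000000000000000000100010000) (.cons (nat_lit 0x500054) (nat_lit 0x100010000000000000000000000000002000200020000) .nil)) .nil)) (.split (nat_lit 0xc) (nat_lit 0) (.split (nat_lit 0xc) (nat_lit 1) (.split (nat_lit 0xc) (nat_lit 2) (.split (nat_lit 0xc) (nat_lit 3) (.split (nat_lit 0xc) (nat_lit 4) (.split (nat_lit 0xc) (nat_lit 5) (.split (nat_lit 0xc) (nat_lit 6) (.split (nat_lit 0xc) (nat_lit 7) (.split (nat_lit 0xc) (nat_lit 8) (.split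 (nat_lit 0xc) (nat_lit 0xa) (.split (nat_lit 0xc) (nat_lit 0xb) (.leaf (.cons (nat_lit 0x10014) (nat_lit 0x100000000000000000000000100010000) (.cons (nat_lit 0x500054) (nat_lit 0x100010000000000000000000000000002000200020000) (.cons (nat_lit 0x1040015) (nat_lit 0x1000000000002000000000000000000000000000300040003) .nil))) .nil) (.non (nat_lit 1) (nat_lit 5) (nat_lit 0x1554050) (nat_lit 0x2000300020001000200010000000000000004000300000000))) (.non (nat_lit 1) (nat_lit 5) (nat_lit 0x1554050) (nat_lit 0x2000200030001000200010000000000000004000300000000))) (.non (nat_lit 1) (nat_lit 5) (nat_lit 0x1514050) (nat_lit 0x1000100010000000200010000000000000002000200000000))) (.non (nat_lit 1) (nat_lit 5) (nat_lit 0x1515050) (nat_lit 0x1000100010000000200020001000000000002000200000000))) (.non (nat_lit 2) (nat_lit 5) (nat_lit 0x1055005) (nat_lit 0x1000000000001000100010001000000000000000000010001))) (.non (nat_lit 1) (nat_lit 6) (nat_lit 0x1040501) (nat_lit 0x3000000000002000000000000000400030000000000000001))) (.non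 (nat_lit 1) (nat_lit 6) (nat_lit 0x1040501) (nat_lit 0x3000000000002000000000000000300040000000000000001))) (.non (nat_lit 1) (nat_lit 5) (nat_lit 0x1500050) (nat_lit 0x1000100010000000000000000000000000002000100000000))) (.non (nat_lit 1) (nat_lit 5) (nat_lit 0x1510050) (nat_lit 0x1000100010000000100000000000000000002000200000000))) (.non (nat_lit 2) (nat_lit 5) (nat_lit 0x1040005) (nat_lit 0x1000000000001000000000000000000000000000000010001))) (.non (nat_lit 1) (nat_lit 5) (nat_lit 0x1040001) (nat_lit 0x1000000000001000000000000000000000000000000000001)))))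

noncomputable def t761_103 : Tr := (.ex (nat_lit 6) (.split (nat_lit 8) (nat_lit 2) (.split (nat_lit 0xa) (nat_lit 3) (.split (nat_lit 0xb) (nat_lit 3) (.split (nat_lit 8) (nat_lit 7) (.split (nat_lit 9) (nat_lit 0) (.split (nat_lit 8) (nat_lit 1) t761_102 (.non (nat_lit 2) (nat_lit 5) (nat_lit 0x68005) (nat_lit 0x1000200010000000000000000000000030002))) (.split (nat_lit 9) (nat_lit 0) (.split (nat_lit 8) (nat_lit 1) (.pd (.cons (nat_lit 1) (nat_lit 4) (nat_lit 0) (nat_lit 0x330287602200) (nat_lit 0xf423ff423ff423f98965a2c28b71aef423f000007a11d18699000007a11e) (.cons (nat_lit 1) (nat_lit 7) (nat_lit 0) (nat_lit 0x330205442200) (nat_lit 0xf423ff423ff423ff423f00000f423fb71ae1f1567a11d3d08a000007a11e) (.cons (nat_lit 1) (nat_lit 8) (nat_lit 0) (nat_lit 0x330065442200) (nat_lit 0xf423ff423ff423f00000f423fb71aea2c28047377a11d7a11b000007a11e) (.cons (nat_lit 2) (nat_lit 4) (nat_lit 0) (nat_lit 0x330187603000) (nat_lit 0xf423ff423ff423f98965a2c28b71aef423f000007a11d00000927bd14581) (.cons (nat_lit 2) (nat_lit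 7) (nat_lit 0) (nat_lit 0x330105443000) (nat_lit 0xf423ff423ff423ff423f00000f423fb71ae1f1567a11d00000b71ae28b07) (.cons (nat_lit 2) (nat_lit 8) (nat_lit 0) (nat_lit 0x330065443000) (nat_lit 0xf423ff423ff423f00000f423fb71aea2c28047377a11d00000f423f3d08d) .nil)))))) (.leaf (.cons (nat_lit 0x10014) (nat_lit 0x100000000000000000000000100010000) (.cons (nat_lit 0x500054) (nat_lit 0x100010000000000000000000000000002000200020000) (.cons (nat_lit 0x40015) (nat_lit 0x1000000000000000000000000000100010001) .nil))) .nil)) (.non (nat_lit 2) (nat_lit 5) (nat_lit 0xa0005) (nat_lit 0x1000100000000000000000000000000020002))) (.non (nat_lit 2) (nat_lit 5) (nat_lit 0x54005) (nat_lit 0x3000200010000000000000000000000030004)))) (.non (nat_lit 1) (nat_lit 5) (nat_lit 0x518050) (nat_lit 0x100010000000200010000000000000002000200000000))) (.non (nat_lit 1) (nat_lit 5) (nat_lit 0x900050) (nat_lit 0x100010000000000000000000000000002000100000000))) (.non (nat_lit 1) (nat_lit 5) (nat_lit 0x600050) (nat_lit 0x100010000000000000000000000000002000100000000)))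 (.non (nat_lit 1) (nat_lit 5) (nat_lit 0x520050) (nat_lit 0x100010000000100000000000000000002000200000000))) (.split (nat_lit 0xc) (nat_lit 0) (.split (nat_lit 0xc) (nat_lit 1) (.split (nat_lit 0xc) (nat_lit 2) (.split (nat_lit 0xc) (nat_lit 3) (.split (nat_lit 0xc) (nat_lit 7) (.split (nat_lit 0xc) (nat_lit 8) (.split (nat_lit 0xc) (nat_lit 9) (.split (nat_lit 0xc) (nat_lit 0xa) (.split (nat_lit 0xc) (nat_lit 0xb) (.split (nat_lit 0xc) (nat_lit 4) (.split (nat_lit 0xc) (nat_lit 5) (.unj (nat_lit 0x55) (nat_lit 0x1000200020001) (nat_lit 0x1005500) (nat_lit 0x1000000000000000000010002000200020000000000000000)) (.unj (nat_lit 0x10014) (nat_lit 0x100000000000000000000000100010000) (nat_lit 0x1001400) (nat_lit 0x1000000000000000000000001000100000000000000000000))) (.split (nat_lit 0xc) (nat_lit 5) (.unj (nat_lit 0x10014) (nat_lit 0x100000000000000000000000100010000) (nat_lit 0x1001500) (nat_lit 0x1000000000000000000000001000100010000000000000000)) (.non (nat_lit 1) (nat_lit 6) (nat_lit 0x1000500) (nat_lit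 0x1000000000000000000000000000100010000000000000000)))) (.non (nat_lit 1) (nat_lit 5) (nat_lit 0x1415050) (nat_lit 0x1000100000000000100010001000000000001000100000000))) (.non (nat_lit 1) (nat_lit 5) (nat_lit 0x1115050) (nat_lit 0x1000000010000000100010001000000000001000100000000))) (.non (nat_lit 2) (nat_lit 5) (nat_lit 0x1055005) (nat_lit 0x1000000000001000100010001000000000000000000010001))) (.non (nat_lit 1) (nat_lit 5) (nat_lit 0x1015000) (nat_lit 0x1000000000000000100010001000000000000000000000000))) (.non (nat_lit 1) (nat_lit 5) (nat_lit 0x1005000) (nat_lit 0x1000000000000000000010001000000000000000000000000))) (.non (nat_lit 1) (nat_lit 5) (nat_lit 0x1500050) (nat_lit 0x1000100010000000000000000000000000002000100000000))) (.star (nat_lit 0xc) (nat_lit 2) (nat_lit 6))) (.star (nat_lit 0xc) (nat_lit 1) (nat_lit 6))) (.non (nat_lit 2) (nat_lit 5) (nat_lit 0x1015005) (nat_lit 0x1000000000000000100010001000000000000000000010001))))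

noncomputable def t761_104 : Tr := (.ex (nat_lit 4) (.ex (nat_lit 5) t761_103 (.split (nat_lit 0xc) (nat_lit 0) (.split (nat_lit 0xc) (nat_lit 1) (.split (nat_lit 0xc) (nat_lit 2) (.split (nat_lit 0xc) (nat_lit 3) (.split (nat_lit 0xc) (nat_lit 4) (.split (nat_lit 0xc) (nat_lit 7) (.split (nat_lit 0xc) (nat_lit 8) (.split (nat_lit 0xc) (nat_lit 9) (.split (nat_lit 0xc) (nat_lit 0xa) (.split (nat_lit 0xc) (nat_lit 0xb) (.split (nat_lit 0xc) (nat_lit 6) (.unj (nat_lit 0x10014) (nat_lit 0x100000000000000000000000100010000) (nat_lit 0x1001500) (nat_lit 0x1000000000000000000000001000200020000000000000000)) (.unj (nat_lit 0x10014) (nat_lit 0x100000000000000000000000100010000) (nat_lit 0x1001400) (nat_lit 0x1000000000000000000000001000100000000000000000000))) (.non (nat_lit 1) (nat_lit 6) (nat_lit 0x1400540) (nat_lit 0x3000200000000000000000000000400030001000000000000))) (.non (nat_lit 1) (nat_lit 6) (nat_lit 0x1100540) (nat_lit 0x3000000020000000000000000000400030001000000000000))) (.non (nat_lit 1) (nat_lit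 6) (nat_lit 0x1040501) (nat_lit 0x3000000000002000000000000000400030000000000000001))) (.non (nat_lit 1) (nat_lit 5) (nat_lit 0x1514050) (nat_lit 0x1000100010000000200010000000000000002000200000000))) (.non (nat_lit 1) (nat_lit 5) (nat_lit 0x1515050) (nat_lit 0x1000100010000000200020001000000000002000200000000))) (.non (nat_lit 1) (nat_lit 6) (nat_lit 0x1000500) (nat_lit 0x1000000000000000000000000000100010000000000000000))) (.non (nat_lit 1) (nat_lit 5) (nat_lit 0x1500050) (nat_lit 0x1000100010000000000000000000000000002000100000000))) (.star (nat_lit 0xc) (nat_lit 2) (nat_lit 5))) (.star (nat_lit 0xc) (nat_lit 1) (nat_lit 5))) (.non (nat_lit 1) (nat_lit 6) (nat_lit 0x1040501) (nat_lit 0x3000000000001000000000000000400030000000000000002)))) (.split (nat_lit 0xc) (nat_lit 0) (.split (nat_lit 0xc) (nat_lit 1) (.split (nat_lit 0xc) (nat_lit 2) (.split (nat_lit 0xc) (nat_lit 3) (.split (nat_lit 0xc) (nat_lit 5) (.split (nat_lit 0xc) (nat_lit 7) (.split (nat_lit 0xc) (nat_lit 8) (.split (nat_lit 0xc) (nat_lit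 9) (.split (nat_lit 0xc) (nat_lit 0xa) (.split (nat_lit 0xc) (nat_lit 0xb) (.split (nat_lit 0xc) (nat_lit 6) (.unj (nat_lit 0x10014) (nat_lit 0x100000000000000000000000100010000) (nat_lit 0x1001500) (nat_lit 0x1000000000000000000000001000200020000000000000000)) (.unj (nat_lit 0x10014) (nat_lit 0x100000000000000000000000100010000) (nat_lit 0x1001500) (nat_lit 0x1000000000000000000000001000100010000000000000000))) (.non (nat_lit 1) (nat_lit 5) (nat_lit 0x1514150) (nat_lit 0x2000300020000000200010000000000010004000300000000))) (.non (nat_lit 1) (nat_lit 5) (nat_lit 0x1514150) (nat_lit 0x2000200030000000200010000000000010004000300000000))) (.non (nat_lit 1) (nat_lit 6) (nat_lit 0x1040501) (nat_lit 0x3000000000002000000000000000300040000000000000001))) (.non (nat_lit 1) (nat_lit 5) (nat_lit 0x1514050) (nat_lit 0x1000100010000000200010000000000000002000200000000))) (.non (nat_lit 1) (nat_lit 5) (nat_lit 0x1515050) (nat_lit 0x1000100010000000200020001000000000002000200000000))) (.non (nat_lit 1) (nat_lit 6)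 (nat_lit 0x1000500) (nat_lit 0x1000000000000000000000000000100010000000000000000))) (.non (nat_lit 1) (nat_lit 5) (nat_lit 0x1500050) (nat_lit 0x1000100010000000000000000000000000002000100000000))) (.non (nat_lit 1) (nat_lit 5) (nat_lit 0x1510050) (nat_lit 0x1000100010000000100000000000000000002000200000000))) (.non (nat_lit 2) (nat_lit 5) (nat_lit 0x1054105) (nat_lit 0x2000000000001000200010000000000010000000000030002))) (.non (nat_lit 1) (nat_lit 6) (nat_lit 0x1040501) (nat_lit 0x3000000000001000000000000000300040000000000000002))))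

noncomputable def t761_105 : Tr := (.ex (nat_lit 3) (.ex (nat_lit 4) t761_101 (.split (nat_lit 0xb) (nat_lit 0) (.split (nat_lit 0xb) (nat_lit 1) (.split (nat_lit 0xb) (nat_lit 2) (.split (nat_lit 0xb) (nat_lit 3) (.split (nat_lit 0xb) (nat_lit 5) (.split (nat_lit 0xb) (nat_lit 7) (.split (nat_lit 0xb) (nat_lit 8) (.split (nat_lit 0xb) (nat_lit 9) (.split (nat_lit 0xb) (nat_lit 0xa) (.split (nat_lit 0xb) (nat_lit 6) (.unj (nat_lit 0x10014) (nat_lit 0x100000000000000000000000100010000) (nat_lit 0x401500) (nat_lit 0x100000000000000000001000200020000000000000000)) (.unj (nat_lit 0x10014) (nat_lit 0x100000000000000000000000100010000) (nat_lit 0x401500) (nat_lit 0x100000000000000000001000100010000000000000000))) (.non (nat_lit 1) (nat_lit 6) (nat_lit 0x500540) (nat_lit 0x300020000000000000000000300040001000000000000))) (.non (nat_lit 1) (nat_lit 6) (nat_lit 0x440501) (nat_lit 0x300000002000000000000000300040000000000000001))) (.non (nat_lit 1) (nat_lit 5) (nat_lit 0x415150) (nat_lit 0x200000000000300020001000000010001000200000000)))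 (.non (nat_lit 1) (nat_lit 6) (nat_lit 0x414500) (nat_lit 0x300000000000100020000000300040000000000000000))) (.non (nat_lit 1) (nat_lit 6) (nat_lit 0x400500) (nat_lit 0x100000000000000000000000100010000000000000000))) (.non (nat_lit 1) (nat_lit 6) (nat_lit 0x500540) (nat_lit 0x300010000000000000000000300040002000000000000))) (.non (nat_lit 1) (nat_lit 5) (nat_lit 0x514150) (nat_lit 0x200010000000200010000000000010002000300000000))) (.non (nat_lit 2) (nat_lit 5) (nat_lit 0x454105) (nat_lit 0x200000001000200010000000000010000000000030002))) (.non (nat_lit 1) (nat_lit 6) (nat_lit 0x440501) (nat_lit 0x300000001000000000000000300040000000000000002)))) (.split (nat_lit 0xb) (nat_lit 0) (.split (nat_lit 0xb) (nat_lit 1) (.split (nat_lit 0xb) (nat_lit 2) (.split (nat_lit 0xb) (nat_lit 4) (.split (nat_lit 0xb) (nat_lit 5) (.split (nat_lit 0xb) (nat_lit 6) (.split (nat_lit 0xb) (nat_lit 7) (.split (nat_lit 0xb) (nat_lit 8) (.split (nat_lit 0xb) (nat_lit 9) (.split (nat_lit 0xb) (nat_lit 0xa) (.st (nat_lit 7) (nat_lit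 1) (nat_lit 5) (nat_lit 0x515050) (nat_lit 0x100010000000200020001000000000002000200000000) (nat_lit 1) (nat_lit 1) (.st (nat_lit 8) (nat_lit 1) (nat_lit 5) (nat_lit 0x514050) (nat_lit 0x100010000000200010000000000000002000200000000) (nat_lit 1) (nat_lit 1) t761_104)) (.non (nat_lit 1) (nat_lit 5) (nat_lit 0x500040) (nat_lit 0x100010000000000000000000000000001000000000000))) (.non (nat_lit 1) (nat_lit 5) (nat_lit 0x554051) (nat_lit 0x300020002000200010000000000000004000300000001))) (.non (nat_lit 1) (nat_lit 5) (nat_lit 0x410050) (nat_lit 0x100000000000100000000000000000001000100000000))) (.non (nat_lit 1) (nat_lit 5) (nat_lit 0x414050) (nat_lit 0x100000000000100010000000000000001000100000000))) (.non (nat_lit 1) (nat_lit 5) (nat_lit 0x415050) (nat_lit 0x100000000000100010001000000000001000100000000))) (.non (nat_lit 1) (nat_lit 6) (nat_lit 0x500540) (nat_lit 0x300010000000000000000000400030002000000000000))) (.non (nat_lit 1) (nat_lit 6) (nat_lit 0x500540) (nat_lit 0x300010000000000000000000300040002000000000000)))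 (.non (nat_lit 1) (nat_lit 5) (nat_lit 0x400050) (nat_lit 0x100000000000000000000000000000001000100000000))) (.non (nat_lit 2) (nat_lit 5) (nat_lit 0x454045) (nat_lit 0x200000001000200010000000000000001000000030002))) (.non (nat_lit 1) (nat_lit 5) (nat_lit 0x554051) (nat_lit 0x300020001000200010000000000000004000300000002))))

noncomputable def t761_106 : Tr := (.ex (nat_lit 7) (.split (nat_lit 8) (nat_lit 7) (.pd (.cons (nat_lit 1) (nat_lit 4) (nat_lit 0) (nat_lit 0x9028760a300) (nat_lit 0x8b8218954098965a2c28b71aef423f000008e6a2927bd0000087a1f) (.cons (nat_lit 1) (nat_lit 8) (nat_lit 0) (nat_lit 0x9006544a300) (nat_lit 0xa2c289896500000f423fb71aea2c2804737b71aef423f00000927bd) (.cons (nat_lit 2) (nat_lit 4) (nat_lit 0) (nat_lit 0x9018760a000) (nat_lit 0xb71aea2c2898965a2c28b71aef423f00000f423f00000927bd32dc8) (.cons (nat_lit 2) (nat_lit 8) (nat_lit 0) (nat_lit 0x9006544a000) (nat_lit 0xb71aea2c2800000f423fb71aea2c2804737f423f00000f423f5b8d4) .nil)))) (.leaf (.cons (nat_lit 0x10014) (nat_lit 0x100000000000000000000000100010000)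 (.cons (nat_lit 0x140054) (nat_lit 0x20001000000000000000000000003000400030000) (.cons (nat_lit 0x140015) (nat_lit 0x10002000000000000000000000000000300040003) .nil))) .nil)) (.non (nat_lit 1) (nat_lit 5) (nat_lit 0x1a050) (nat_lit 0x300020001000000000001000200000000))) (.split (nat_lit 0xb) (nat_lit 0) (.split (nat_lit 0xb) (nat_lit 1) (.split (nat_lit 0xb) (nat_lit 2) (.split (nat_lit 0xb) (nat_lit 3) (.split (nat_lit 0xb) (nat_lit 4) (.split (nat_lit 0xb) (nat_lit 5) (.split (nat_lit 0xb) (nat_lit 6) (.split (nat_lit 0xb) (nat_lit 8) (.split (nat_lit 0xb) (nat_lit 9) (.split (nat_lit 0xb) (nat_lit 0xa) (.unj (nat_lit 0x55) (nat_lit 0x1000200020001) (nat_lit 0x405500) (nat_lit 0x100000000000000020003000400030000000000000000)) (.non (nat_lit 1) (nat_lit 5) (nat_lit 0x555040) (nat_lit 0x200020001000100020001000000000001000000000000))) (.non (nat_lit 1) (nat_lit 5) (nat_lit 0x554050) (nat_lit 0x100010001000100010000000000000001000100000000))) (.non (nat_lit 1) (nat_lit 5) (nat_lit 0x414000) (nat_lit 0x100000000000100010000000000000000000000000000)))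 (.non (nat_lit 1) (nat_lit 5) (nat_lit 0x405000) (nat_lit 0x100000000000000010001000000000000000000000000))) (.non (nat_lit 1) (nat_lit 6) (nat_lit 0x414500) (nat_lit 0x300000000000100020000000400030000000000000000))) (.non (nat_lit 1) (nat_lit 5) (nat_lit 0x555150) (nat_lit 0x400020001000500060003000000020003000400000000))) (.non (nat_lit 1) (nat_lit 5) (nat_lit 0x414050) (nat_lit 0x100000000000100010000000000000001000100000000))) (.non (nat_lit 1) (nat_lit 5) (nat_lit 0x414010) (nat_lit 0x100000000000100010000000000000000000100000000))) (.non (nat_lit 2) (nat_lit 5) (nat_lit 0x414004) (nat_lit 0x100000000000100010000000000000000000000010000))) (.non (nat_lit 1) (nat_lit 5) (nat_lit 0x554051) (nat_lit 0x100010001000100010000000000000001000100000001))))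

noncomputable def t761_107 : Tr := (.ex (nat_lit 6) (.split (nat_lit 9) (nat_lit 0) (.split (nat_lit 8) (nat_lit 2) (.split (nat_lit 0xa) (nat_lit 3) (.split (nat_lit 0xa) (nat_lit 9) (.split (nat_lit 8) (nat_lit 1) (.pd (.cons (nat_lit 1) (nat_lit 7) (nat_lit 0) (nat_lit 0x9020544a300) (nat_lit 0x98965927bdf423f00000f423fb71ae1f156a2c28b71ae000008e6a2) (.cons (nat_lit 2) (nat_lit 7) (nat_lit 0) (nat_lit 0x9010544a000) (nat_lit 0xb71aea2c28f423f00000f423fb71ae1f156f423f00000b71ae4734e) .nil)) t761_106) (.non (nat_lit 2) (nat_lit 5) (nat_lit 0x68005) (nat_lit 0x1000200010000000000000000000000030002))) (.non (nat_lit 1) (nat_lit 5) (nat_lit 0x2400a1) (nat_lit 0x30004000000000000000000000002000100000002))) (.non (nat_lit 1) (nat_lit 5) (nat_lit 0x290050) (nat_lit 0x20001000100000000000000000003000200000000))) (.non (nat_lit 1) (nat_lit 5) (nat_lit 0x128050) (nat_lit 0x10000000200010000000000000002000300000000))) (.non (nat_lit 2) (nat_lit 5) (nat_lit 0x290005) (nat_lit 0x10002000100000000000000000000000000020003)))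 (.split (nat_lit 0xb) (nat_lit 0) (.split (nat_lit 0xb) (nat_lit 1) (.split (nat_lit 0xb) (nat_lit 2) (.split (nat_lit 0xb) (nat_lit 3) (.split (nat_lit 0xb) (nat_lit 7) (.split (nat_lit 0xb) (nat_lit 8) (.split (nat_lit 0xb) (nat_lit 9) (.split (nat_lit 0xb) (nat_lit 0xa) (.split (nat_lit 0xb) (nat_lit 4) (.split (nat_lit 0xb) (nat_lit 5) (.unj (nat_lit 0x55) (nat_lit 0x1000200020001) (nat_lit 0x405500) (nat_lit 0x100000000000000010002000200020000000000000000)) (.unj (nat_lit 0x10014) (nat_lit 0x100000000000000000000000100010000) (nat_lit 0x401400) (nat_lit 0x100000000000000000001000100000000000000000000))) (.split (nat_lit 0xb) (nat_lit 5) (.unj (nat_lit 0x10014) (nat_lit 0x100000000000000000000000100010000) (nat_lit 0x401500) (nat_lit 0x100000000000000000001000100010000000000000000)) (.non (nat_lit 1) (nat_lit 6) (nat_lit 0x400500) (nat_lit 0x100000000000000000000000100010000000000000000)))) (.non (nat_lit 1) (nat_lit 5) (nat_lit 0x515050) (nat_lit 0x100010000000100010001000000000001000100000000)))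 (.non (nat_lit 1) (nat_lit 5) (nat_lit 0x555050) (nat_lit 0x100010001000100010001000000000001000100000000))) (.non (nat_lit 1) (nat_lit 5) (nat_lit 0x415000) (nat_lit 0x100000000000100010001000000000000000000000000))) (.non (nat_lit 1) (nat_lit 5) (nat_lit 0x405000) (nat_lit 0x100000000000000010001000000000000000000000000))) (.non (nat_lit 1) (nat_lit 5) (nat_lit 0x551050) (nat_lit 0x200020001000100000001000000000003000200000000))) (.star (nat_lit 0xb) (nat_lit 2) (nat_lit 6))) (.star (nat_lit 0xb) (nat_lit 1) (nat_lit 6))) (.non (nat_lit 1) (nat_lit 5) (nat_lit 0x555051) (nat_lit 0x100010001000100010001000000000001000100000001))))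

noncomputable def t761_108 : Tr := (.ex (nat_lit 4) (.ex (nat_lit 5) t761_107 (.split (nat_lit 0xb) (nat_lit 0) (.split (nat_lit 0xb) (nat_lit 1) (.split (nat_lit 0xb) (nat_lit 2) (.split (nat_lit 0xb) (nat_lit 3) (.split (nat_lit 0xb) (nat_lit 4) (.split (nat_lit 0xb) (nat_lit 7) (.split (nat_lit 0xb) (nat_lit 8) (.split (nat_lit 0xb) (nat_lit 9) (.split (nat_lit 0xb) (nat_lit 0xa) (.split (nat_lit 0xb) (nat_lit 6) (.unj (nat_lit 0x10014) (nat_lit 0x100000000000000000000000100010000) (nat_lit 0x401500) (nat_lit 0x100000000000000000001000200020000000000000000)) (.unj (nat_lit 0x10014) (nat_lit 0x100000000000000000000000100010000) (nat_lit 0x401400) (nat_lit 0x100000000000000000001000100000000000000000000))) (.non (nat_lit 1) (nat_lit 5) (nat_lit 0x555051) (nat_lit 0x300060004000300020001000000000005000400000002))) (.non (nat_lit 1) (nat_lit 6) (nat_lit 0x540500) (nat_lit 0x300010002000000000000000400030000000000000000))) (.non (nat_lit 1) (nat_lit 5) (nat_lit 0x555051) (nat_lit 0x300030002000600040002000000000004000500000001)))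 (.non (nat_lit 1) (nat_lit 6) (nat_lit 0x414500) (nat_lit 0x300000000000100020000000400030000000000000000))) (.non (nat_lit 1) (nat_lit 6) (nat_lit 0x400500) (nat_lit 0x100000000000000000000000100010000000000000000))) (.non (nat_lit 1) (nat_lit 5) (nat_lit 0x554051) (nat_lit 0x200030002000200010000000000000004000300000001))) (.star (nat_lit 0xb) (nat_lit 2) (nat_lit 5))) (.star (nat_lit 0xb) (nat_lit 1) (nat_lit 5))) (.non (nat_lit 1) (nat_lit 6) (nat_lit 0x440501) (nat_lit 0x300000001000000000000000400030000000000000002)))) (.split (nat_lit 0xb) (nat_lit 0) (.split (nat_lit 0xb) (nat_lit 1) (.split (nat_lit 0xb) (nat_lit 2) (.split (nat_lit 0xb) (nat_lit 3) (.split (nat_lit 0xb) (nat_lit 5) (.split (nat_lit 0xb) (nat_lit 7) (.split (nat_lit 0xb) (nat_lit 8) (.split (nat_lit 0xb) (nat_lit 9) (.split (nat_lit 0xb) (nat_lit 0xa) (.split (nat_lit 0xb) (nat_lit 6) (.unj (nat_lit 0x10014) (nat_lit 0x100000000000000000000000100010000) (nat_lit 0x401500) (nat_lit 0x100000000000000000001000200020000000000000000))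 (.unj (nat_lit 0x10014) (nat_lit 0x100000000000000000000000100010000) (nat_lit 0x401500) (nat_lit 0x100000000000000000001000100010000000000000000))) (.non (nat_lit 1) (nat_lit 5) (nat_lit 0x555150) (nat_lit 0x400060003000300020001000000020005000400000000))) (.non (nat_lit 1) (nat_lit 5) (nat_lit 0x554151) (nat_lit 0x400050006000200010000000000020004000300000003))) (.non (nat_lit 1) (nat_lit 5) (nat_lit 0x415150) (nat_lit 0x200000000000300020001000000010001000200000000))) (.non (nat_lit 1) (nat_lit 5) (nat_lit 0x555150) (nat_lit 0x400020001000500060003000000020003000400000000))) (.non (nat_lit 1) (nat_lit 6) (nat_lit 0x400500) (nat_lit 0x100000000000000000000000100010000000000000000))) (.non (nat_lit 1) (nat_lit 5) (nat_lit 0x550150) (nat_lit 0x200020001000100000000000000010003000200000000))) (.non (nat_lit 1) (nat_lit 5) (nat_lit 0x555050) (nat_lit 0x200020001000300020001000000000003000400000000))) (.non (nat_lit 2) (nat_lit 5) (nat_lit 0x555005) (nat_lit 0x200010002000300020001000000000000000000040003)))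 (.non (nat_lit 1) (nat_lit 6) (nat_lit 0x440501) (nat_lit 0x300000001000000000000000300040000000000000002))))

noncomputable def t761_109 : Tr := (.ex (nat_lit 3) (.ex (nat_lit 4) t761_93 (.split (nat_lit 0xa) (nat_lit 0) (.split (nat_lit 0xa) (nat_lit 1) (.split (nat_lit 0xa) (nat_lit 2) (.split (nat_lit 0xa) (nat_lit 3) (.split (nat_lit 0xa) (nat_lit 5) (.split (nat_lit 0xa) (nat_lit 7) (.split (nat_lit 0xa) (nat_lit 8) (.split (nat_lit 0xa) (nat_lit 9) (.split (nat_lit 0xa) (nat_lit 6) (.unj (nat_lit 0x10014) (nat_lit 0x100000000000000000000000100010000) (nat_lit 0x101500) (nat_lit 0x10000000000000001000200020000000000000000)) (.unj (nat_lit 0x10014) (nat_lit 0x100000000000000000000000100010000) (nat_lit 0x101500) (nat_lit 0x10000000000000001000100010000000000000000))) (.non (nat_lit 1) (nat_lit 6) (nat_lit 0x140501) (nat_lit 0x30002000000000000000300040000000000000001))) (.non (nat_lit 1) (nat_lit 5) (nat_lit 0x115150) (nat_lit 0x20000000300020001000000010001000200000000))) (.non (nat_lit 1) (nat_lit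 6) (nat_lit 0x114500) (nat_lit 0x30000000100020000000300040000000000000000))) (.non (nat_lit 1) (nat_lit 6) (nat_lit 0x100500) (nat_lit 0x10000000000000000000100010000000000000000))) (.non (nat_lit 1) (nat_lit 6) (nat_lit 0x100550) (nat_lit 0x30000000000000000000300040002000100000000))) (.non (nat_lit 1) (nat_lit 6) (nat_lit 0x110510) (nat_lit 0x30000000100000000000300040000000200000000))) (.non (nat_lit 2) (nat_lit 5) (nat_lit 0x154105) (nat_lit 0x20001000200010000000000010000000000030002))) (.non (nat_lit 1) (nat_lit 6) (nat_lit 0x140501) (nat_lit 0x30001000000000000000300040000000000000002)))) (.split (nat_lit 0xa) (nat_lit 1) (.split (nat_lit 0xa) (nat_lit 2) (.split (nat_lit 0xa) (nat_lit 4) (.split (nat_lit 0xa) (nat_lit 5) (.split (nat_lit 0xa) (nat_lit 6) (.split (nat_lit 0xa) (nat_lit 7) (.split (nat_lit 0xa) (nat_lit 8) (.split (nat_lit 0xa) (nat_lit 0) (.split (nat_lit 0xa) (nat_lit 9) t761_105 (.st (nat_lit 8) (nat_lit 1) (nat_lit 5) (nat_lit 0x155051) (nat_lit 0x30002000600040002000000000004000500000001)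 (nat_lit 1) (nat_lit 3) t761_108)) (.split (nat_lit 0xa) (nat_lit 9) (.split (nat_lit 0xa) (nat_lit 0) (.split (nat_lit 0xa) (nat_lit 3) (.split (nat_lit 9) (nat_lit 0) (.split (nat_lit 8) (nat_lit 1) (.split (nat_lit 8) (nat_lit 2) (.sup (nat_lit 0x3000d00160020001a0000000000000000) (nat_lit 0x40003000000000000000000000004000300030005)) (.non (nat_lit 1) (nat_lit 5) (nat_lit 0x128050) (nat_lit 0x10000000200010000000000000002000300000000))) (.non (nat_lit 2) (nat_lit 5) (nat_lit 0x160005) (nat_lit 0x10001000100000000000000000000000000020002))) (.non (nat_lit 2) (nat_lit 5) (nat_lit 0x180005) (nat_lit 0x10001000000000000000000000000000000010002))) (.non (nat_lit 1) (nat_lit 5) (nat_lit 0x1400a1) (nat_lit 0x30001000000000000000000000002000100000002))) (.non (nat_lit 1) (nat_lit 5) (nat_lit 0x2400a1) (nat_lit 0x30002000000000000000000000002000100000004))) (.non (nat_lit 1) (nat_lit 5) (nat_lit 0x140001) (nat_lit 0x10001000000000000000000000000000000000001)))) (.non (nat_lit 1) (nat_lit 5) (nat_lit 0x110050)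 (nat_lit 0x10000000100000000000000000001000100000000))) (.non (nat_lit 1) (nat_lit 5) (nat_lit 0x114050) (nat_lit 0x10000000100010000000000000001000100000000))) (.non (nat_lit 1) (nat_lit 5) (nat_lit 0x115050) (nat_lit 0x10000000100010001000000000001000100000000))) (.non (nat_lit 1) (nat_lit 6) (nat_lit 0x100550) (nat_lit 0x30000000000000000000400030002000100000000))) (.non (nat_lit 1) (nat_lit 6) (nat_lit 0x100550) (nat_lit 0x30000000000000000000300040002000100000000))) (.non (nat_lit 1) (nat_lit 5) (nat_lit 0x100050) (nat_lit 0x10000000000000000000000000001000100000000))) (.non (nat_lit 2) (nat_lit 5) (nat_lit 0x154045) (nat_lit 0x20001000200010000000000000001000000030002))))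

noncomputable def t761_110 : Tr := (.split (nat_lit 9) (nat_lit 0) (.split (nat_lit 8) (nat_lit 1) (.pd (.cons (nat_lit 1) (nat_lit 4) (nat_lit 0) (nat_lit 0x20287602200) (nat_lit 0xf423ff423f98965a2c28b71aef423f00000f423f1869b00000b71ae) (.cons (nat_lit 1) (nat_lit 7) (nat_lit 0) (nat_lit 0x20205442200) (nat_lit 0xf423ff423ff423f00000f423fb71ae1f156f423f3d08c00000b71ae) (.cons (nat_lit 1) (nat_lit 8) (nat_lit 0) (nat_lit 0x20065442200) (nat_lit 0xf423ff423f00000f423fb71aea2c2804737f423f7a11d00000b71ae) (.cons (nat_lit 2) (nat_lit 4) (nat_lit 0) (nat_lit 0xa0187603000) (nat_lit 0xf423ff423f98965a2c28b71aef423f00000f423f00000927bd51611) (.cons (nat_lit 2) (nat_lit 7) (nat_lit 0) (nat_lit 0xa0105443000) (nat_lit 0xf423ff423ff423f00000f423fb71ae1f156f423f00000b71ae65b97) (.cons (nat_lit 2) (nat_lit 8) (nat_lit 0) (nat_lit 0xa0065443000) (nat_lit 0xf423ff423f00000f423fb71aea2c2804737f423f00000f423f7a11d) .nil)))))) (.leaf (.cons (nat_lit 0x10014) (nat_lit 0x100000000000000000000000100010000) (.cons (nat_lit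 0x100054) (nat_lit 0x10000000000000000000000000001000200020000) (.cons (nat_lit 0x100015) (nat_lit 0x10000000000000000000000000000000200020001) .nil))) .nil)) (.non (nat_lit 2) (nat_lit 5) (nat_lit 0x68005) (nat_lit 0x1000200010000000000000000000000030002))) (.split (nat_lit 9) (nat_lit 0) (.split (nat_lit 8) (nat_lit 1) (.pd (.cons (nat_lit 1) (nat_lit 4) (nat_lit 0) (nat_lit 0x20287602200) (nat_lit 0xf423ff423f98965a2c28b71aef423f00000f423f1869b000007a11e) (.cons (nat_lit 1) (nat_lit 7) (nat_lit 0) (nat_lit 0x20205442200) (nat_lit 0xf423ff423ff423f00000f423fb71ae1f156f423f3d08c000007a11e) (.cons (nat_lit 1) (nat_lit 8) (nat_lit 0) (nat_lit 0x20065442200) (nat_lit 0xf423ff423f00000f423fb71aea2c2804737f423f7a11d000007a11e) (.cons (nat_lit 2) (nat_lit 4) (nat_lit 0) (nat_lit 0xa0187603000) (nat_lit 0xf423ff423f98965a2c28b71aef423f00000f423f00000927bd14581) (.cons (nat_lit 2) (nat_lit 7) (nat_lit 0) (nat_lit 0xa0105443000) (nat_lit 0xf423ff423ff423f00000f423fb71ae1f156f423f00000b71ae28b07) (.cons (nat_lit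 2) (nat_lit 8) (nat_lit 0) (nat_lit 0xa0065443000) (nat_lit 0xf423ff423f00000f423fb71aea2c2804737f423f00000f423f3d08d) .nil)))))) (.leaf (.cons (nat_lit 0x10014) (nat_lit 0x100000000000000000000000100010000) (.cons (nat_lit 0x100054) (nat_lit 0x10000000000000000000000000001000200020000) (.cons (nat_lit 0x100015) (nat_lit 0x10000000000000000000000000000000200020001) .nil))) .nil)) (.non (nat_lit 2) (nat_lit 5) (nat_lit 0xa0005) (nat_lit 0x1000100000000000000000000000000020002))) (.non (nat_lit 2) (nat_lit 5) (nat_lit 0x54005) (nat_lit 0x3000200010000000000000000000000030004))))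

noncomputable def t761_111 : Tr := (.ex (nat_lit 5) (.ex (nat_lit 6) (.split (nat_lit 8) (nat_lit 2) (.split (nat_lit 0xa) (nat_lit 2) (.split (nat_lit 8) (nat_lit 7) t761_110 (.non (nat_lit 1) (nat_lit 5) (nat_lit 0x11a010) (nat_lit 0x10000000300020001000000000000000200000000))) (.non (nat_lit 1) (nat_lit 5) (nat_lit 0x210050) (nat_lit 0x10000000100000000000000000001000200000000))) (.non (nat_lit 1) (nat_lit 5) (nat_lit 0x12a010) (nat_lit 0x20000000300020001000000000000000400000000))) (.split (nat_lit 0xb) (nat_lit 0) (.split (nat_lit 0xb) (nat_lit 1) (.split (nat_lit 0xb) (nat_lit 2) (.split (nat_lit 0xb) (nat_lit 3) (.split (nat_lit 0xb) (nat_lit 7) (.split (nat_lit 0xb) (nat_lit 8) (.split (nat_lit 0xb) (nat_lit 9) (.split (nat_lit 0xb) (nat_lit 0xa) (.split (nat_lit 0xb) (nat_lit 4) (.split (nat_lit 0xb) (nat_lit 5) (.unj (nat_lit 0x55) (nat_lit 0x1000200020001) (nat_lit 0x405500) (nat_lit 0x100000000000000010002000200020000000000000000)) (.unj (nat_lit 0x10014) (nat_lit 0x100000000000000000000000100010000)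 (nat_lit 0x401400) (nat_lit 0x100000000000000000001000100000000000000000000))) (.split (nat_lit 0xb) (nat_lit 5) (.unj (nat_lit 0x10014) (nat_lit 0x100000000000000000000000100010000) (nat_lit 0x401500) (nat_lit 0x100000000000000000001000100010000000000000000)) (.non (nat_lit 1) (nat_lit 6) (nat_lit 0x400500) (nat_lit 0x100000000000000000000000100010000000000000000)))) (.non (nat_lit 1) (nat_lit 5) (nat_lit 0x515010) (nat_lit 0x100010000000100010001000000000000000100000000))) (.non (nat_lit 2) (nat_lit 5) (nat_lit 0x455005) (nat_lit 0x100000001000100010001000000000000000000010001))) (.non (nat_lit 1) (nat_lit 5) (nat_lit 0x415000) (nat_lit 0x100000000000100010001000000000000000000000000))) (.non (nat_lit 1) (nat_lit 5) (nat_lit 0x405000) (nat_lit 0x100000000000000010001000000000000000000000000))) (.non (nat_lit 1) (nat_lit 5) (nat_lit 0x415050) (nat_lit 0x100000000000100010001000000000001000100000000))) (.star (nat_lit 0xb) (nat_lit 2) (nat_lit 6))) (.star (nat_lit 0xb) (nat_lit 1) (nat_lit 6))) (.non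 (nat_lit 2) (nat_lit 5) (nat_lit 0x415005) (nat_lit 0x100000000000100010001000000000000000000010001)))) (.split (nat_lit 0xb) (nat_lit 0) (.split (nat_lit 0xb) (nat_lit 1) (.split (nat_lit 0xb) (nat_lit 2) (.split (nat_lit 0xb) (nat_lit 3) (.split (nat_lit 0xb) (nat_lit 4) (.split (nat_lit 0xb) (nat_lit 7) (.split (nat_lit 0xb) (nat_lit 8) (.split (nat_lit 0xb) (nat_lit 9) (.split (nat_lit 0xb) (nat_lit 0xa) (.split (nat_lit 0xb) (nat_lit 6) (.unj (nat_lit 0x10014) (nat_lit 0x100000000000000000000000100010000) (nat_lit 0x401500) (nat_lit 0x100000000000000000001000200020000000000000000)) (.unj (nat_lit 0x10014) (nat_lit 0x100000000000000000000000100010000) (nat_lit 0x401400) (nat_lit 0x100000000000000000001000100000000000000000000))) (.non (nat_lit 1) (nat_lit 6) (nat_lit 0x500510) (nat_lit 0x300020000000000000000000400030000000100000000))) (.non (nat_lit 1) (nat_lit 6) (nat_lit 0x440501) (nat_lit 0x300000002000000000000000400030000000000000001))) (.non (nat_lit 1) (nat_lit 5) (nat_lit 0x514050) (nat_lit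 0x100010000000200010000000000000001000200000000))) (.non (nat_lit 1) (nat_lit 5) (nat_lit 0x515050) (nat_lit 0x100010000000200020001000000000001000200000000))) (.non (nat_lit 1) (nat_lit 6) (nat_lit 0x400500) (nat_lit 0x100000000000000000000000100010000000000000000))) (.non (nat_lit 1) (nat_lit 6) (nat_lit 0x400550) (nat_lit 0x300000000000000000000000400030002000100000000))) (.star (nat_lit 0xb) (nat_lit 2) (nat_lit 5))) (.star (nat_lit 0xb) (nat_lit 1) (nat_lit 5))) (.non (nat_lit 1) (nat_lit 6) (nat_lit 0x440501) (nat_lit 0x300000001000000000000000400030000000000000002))))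

noncomputable def t761_112 : Tr := (.split (nat_lit 0xa) (nat_lit 1) (.st (nat_lit 7) (nat_lit 1) (nat_lit 5) (nat_lit 0x115050) (nat_lit 0x10000000200020001000000000001000200000000) (nat_lit 1) (nat_lit 1) (.st (nat_lit 8) (nat_lit 1) (nat_lit 5) (nat_lit 0x114050) (nat_lit 0x10000000200010000000000000001000200000000) (nat_lit 1) (nat_lit 1) (.ex (nat_lit 4) t761_111 (.split (nat_lit 0xb) (nat_lit 0) (.split (nat_lit 0xb) (nat_lit 1) (.split (nat_lit 0xb) (nat_lit 2) (.split (nat_lit 0xb) (nat_lit 3) (.split (nat_lit 0xb) (nat_lit 5) (.split (nat_lit 0xb) (nat_lit 7) (.split (nat_lit 0xb) (nat_lit 8) (.split (nat_lit 0xb) (nat_lit 9) (.split (nat_lit 0xb) (nat_lit 0xa) (.split (nat_lit 0xb) (nat_lit 6) (.unj (nat_lit 0x10014) (nat_lit 0x100000000000000000000000100010000) (nat_lit 0x401500) (nat_lit 0x100000000000000000001000200020000000000000000)) (.unj (nat_lit 0x10014) (nat_lit 0x100000000000000000000000100010000) (nat_lit 0x401500) (nat_lit 0x100000000000000000001000100010000000000000000))) (.non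 (nat_lit 1) (nat_lit 5) (nat_lit 0x515150) (nat_lit 0x200030000000300020001000000010002000400000000))) (.non (nat_lit 1) (nat_lit 6) (nat_lit 0x440501) (nat_lit 0x300000002000000000000000300040000000000000001))) (.non (nat_lit 1) (nat_lit 5) (nat_lit 0x515110) (nat_lit 0x200010000000300020001000000010000000200000000))) (.non (nat_lit 1) (nat_lit 5) (nat_lit 0x515050) (nat_lit 0x100010000000200020001000000000001000200000000))) (.non (nat_lit 1) (nat_lit 6) (nat_lit 0x400500) (nat_lit 0x100000000000000000000000100010000000000000000))) (.non (nat_lit 1) (nat_lit 5) (nat_lit 0x515150) (nat_lit 0x200020000000300020001000000010003000400000000))) (.non (nat_lit 1) (nat_lit 5) (nat_lit 0x510050) (nat_lit 0x100010000000100000000000000000001000200000000))) (.non (nat_lit 2) (nat_lit 5) (nat_lit 0x454105) (nat_lit 0x200000001000200010000000000010000000000030002))) (.non (nat_lit 1) (nat_lit 6) (nat_lit 0x440501) (nat_lit 0x300000001000000000000000300040000000000000002)))))) (.split (nat_lit 0xa) (nat_lit 1) (.split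 (nat_lit 0xa) (nat_lit 2) (.split (nat_lit 9) (nat_lit 0) (.split (nat_lit 8) (nat_lit 1) (.split (nat_lit 8) (nat_lit 2) (.sup (nat_lit 0x4000d00160020001a0000000000000000) (nat_lit 0x30001000000000000000000000001000300030002)) (.non (nat_lit 1) (nat_lit 5) (nat_lit 0x12a010) (nat_lit 0x20000000300020001000000000000000400000000))) (.non (nat_lit 2) (nat_lit 5) (nat_lit 0x12a004) (nat_lit 0x20000000300020001000000000000000000040000))) (.non (nat_lit 2) (nat_lit 5) (nat_lit 0x190005) (nat_lit 0x10001000100000000000000000000000000020002))) (.non (nat_lit 1) (nat_lit 5) (nat_lit 0x210050) (nat_lit 0x10000000100000000000000000001000200000000))) (.non (nat_lit 2) (nat_lit 5) (nat_lit 0x210005) (nat_lit 0x10000000100000000000000000000000000020001))))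

noncomputable def t761_113 : Tr := (.ex (nat_lit 6) (.split (nat_lit 8) (nat_lit 2) (.split (nat_lit 8) (nat_lit 7) (.split (nat_lit 9) (nat_lit 0) (.split (nat_lit 8) (nat_lit 1) (.split (nat_lit 0xa) (nat_lit 1) (.pd (.cons (nat_lit 1) (nat_lit 4) (nat_lit 0) (nat_lit 0xa0287602200) (nat_lit 0xf423ff423f98965a2c28b71aef423f00000f423f5572c00000b71ae) (.cons (nat_lit 1) (nat_lit 7) (nat_lit 0) (nat_lit 0xa0205442200) (nat_lit 0xf423ff423ff423f00000f423fb71ae1f156f423f7a11d00000b71ae) (.cons (nat_lit 1) (nat_lit 8) (nat_lit 0) (nat_lit 0xa0065442200) (nat_lit 0xf423ff423f00000f423fb71aea2c2804737f423fb71ae00000b71ae) (.cons (nat_lit 2) (nat_lit 4) (nat_lit 0) (nat_lit 0x10187603000) (nat_lit 0xf423ff423f98965a2c28b71aef423f00000f423f000005572c08b78) (.cons (nat_lit 2) (nat_lit 7) (nat_lit 0) (nat_lit 0x10105443000) (nat_lit 0xf423ff423ff423f00000f423fb71ae1f156f423f000007a11d3d08a) (.cons (nat_lit 2) (nat_lit 8) (nat_lit 0) (nat_lit 0x10065443000) (nat_lit 0xf423ff423f00000f423fb71aea2c2804737f423f00000b71ae65b97)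 .nil)))))) (.leaf (.cons (nat_lit 0x10014) (nat_lit 0x100000000000000000000000100010000) (.cons (nat_lit 0x100054) (nat_lit 0x10000000000000000000000000001000200020000) (.cons (nat_lit 0x100015) (nat_lit 0x10000000000000000000000000000000200020001) .nil))) .nil)) (.non (nat_lit 2) (nat_lit 5) (nat_lit 0x210005) (nat_lit 0x10000000100000000000000000000000000020001))) (.non (nat_lit 2) (nat_lit 5) (nat_lit 0x12a004) (nat_lit 0x20000000300020001000000000000000000040000))) (.non (nat_lit 2) (nat_lit 5) (nat_lit 0x190005) (nat_lit 0x10001000100000000000000000000000000020002))) (.non (nat_lit 1) (nat_lit 5) (nat_lit 0x1a050) (nat_lit 0x300020001000000000001000200000000))) (.non (nat_lit 1) (nat_lit 5) (nat_lit 0x2a050) (nat_lit 0x300020001000000000002000400000000))) (.split (nat_lit 0xb) (nat_lit 0) (.split (nat_lit 0xb) (nat_lit 1) (.split (nat_lit 0xb) (nat_lit 2) (.split (nat_lit 0xb) (nat_lit 3) (.split (nat_lit 0xb) (nat_lit 4) (.split (nat_lit 0xb) (nat_lit 7) (.split (nat_lit 0xb) (nat_lit 8) (.split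 (nat_lit 0xb) (nat_lit 9) (.split (nat_lit 0xb) (nat_lit 0xa) (.split (nat_lit 0xb) (nat_lit 5) (.unj (nat_lit 0x55) (nat_lit 0x1000200020001) (nat_lit 0x405500) (nat_lit 0x100000000000000010002000200020000000000000000)) (.unj (nat_lit 0x10014) (nat_lit 0x100000000000000000000000100010000) (nat_lit 0x401400) (nat_lit 0x100000000000000000001000100000000000000000000))) (.non (nat_lit 2) (nat_lit 5) (nat_lit 0x515004) (nat_lit 0x100010000000100010001000000000000000000010000))) (.non (nat_lit 2) (nat_lit 5) (nat_lit 0x455005) (nat_lit 0x100000001000100010001000000000000000000010001))) (.non (nat_lit 1) (nat_lit 5) (nat_lit 0x415000) (nat_lit 0x100000000000100010001000000000000000000000000))) (.non (nat_lit 1) (nat_lit 5) (nat_lit 0x405000) (nat_lit 0x100000000000000010001000000000000000000000000))) (.non (nat_lit 2) (nat_lit 5) (nat_lit 0x555105) (nat_lit 0x200030002000500040003000000010000000000060004))) (.non (nat_lit 1) (nat_lit 5) (nat_lit 0x415050) (nat_lit 0x100000000000100010001000000000001000100000000)))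 (.star (nat_lit 0xb) (nat_lit 2) (nat_lit 6))) (.star (nat_lit 0xb) (nat_lit 1) (nat_lit 6))) (.non (nat_lit 2) (nat_lit 5) (nat_lit 0x550005) (nat_lit 0x100010001000100000000000000000000000000020002))))

noncomputable def t761_114 : Tr := (.ex (nat_lit 4) (.ex (nat_lit 5) t761_113 (.split (nat_lit 0xb) (nat_lit 0) (.split (nat_lit 0xb) (nat_lit 1) (.split (nat_lit 0xb) (nat_lit 2) (.split (nat_lit 0xb) (nat_lit 3) (.split (nat_lit 0xb) (nat_lit 4) (.split (nat_lit 0xb) (nat_lit 7) (.split (nat_lit 0xb) (nat_lit 8) (.split (nat_lit 0xb) (nat_lit 9) (.split (nat_lit 0xb) (nat_lit 0xa) (.split (nat_lit 0xb) (nat_lit 6) (.unj (nat_lit 0x10014) (nat_lit 0x100000000000000000000000100010000) (nat_lit 0x401500) (nat_lit 0x100000000000000000001000200020000000000000000)) (.unj (nat_lit 0x10014) (nat_lit 0x100000000000000000000000100010000) (nat_lit 0x401400) (nat_lit 0x100000000000000000001000100000000000000000000))) (.non (nat_lit 2) (nat_lit 5) (nat_lit 0x554005) (nat_lit 0x100020001000200010000000000000000000000030002)))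 (.non (nat_lit 1) (nat_lit 6) (nat_lit 0x440501) (nat_lit 0x300000002000000000000000400030000000000000001))) (.non (nat_lit 1) (nat_lit 6) (nat_lit 0x414500) (nat_lit 0x300000000000200010000000400030000000000000000))) (.non (nat_lit 1) (nat_lit 6) (nat_lit 0x414500) (nat_lit 0x300000000000100020000000400030000000000000000))) (.non (nat_lit 1) (nat_lit 6) (nat_lit 0x400500) (nat_lit 0x100000000000000000000000100010000000000000000))) (.non (nat_lit 1) (nat_lit 6) (nat_lit 0x400550) (nat_lit 0x300000000000000000000000400030002000100000000))) (.star (nat_lit 0xb) (nat_lit 2) (nat_lit 5))) (.star (nat_lit 0xb) (nat_lit 1) (nat_lit 5))) (.non (nat_lit 1) (nat_lit 6) (nat_lit 0x440501) (nat_lit 0x300000001000000000000000400030000000000000002)))) (.split (nat_lit 0xb) (nat_lit 0) (.split (nat_lit 0xb) (nat_lit 1) (.split (nat_lit 0xb) (nat_lit 2) (.split (nat_lit 0xb) (nat_lit 3) (.split (nat_lit 0xb) (nat_lit 5) (.split (nat_lit 0xb) (nat_lit 6) (.split (nat_lit 0xb) (nat_lit 7) (.split (nat_lit 0xb) (nat_lit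 8) (.split (nat_lit 0xb) (nat_lit 9) (.split (nat_lit 0xb) (nat_lit 0xa) (.unj (nat_lit 0x10014) (nat_lit 0x100000000000000000000000100010000) (nat_lit 0x401500) (nat_lit 0x100000000000000000001000200020000000000000000)) (.non (nat_lit 2) (nat_lit 5) (nat_lit 0x554005) (nat_lit 0x100020001000200010000000000000000000000030002))) (.non (nat_lit 1) (nat_lit 6) (nat_lit 0x440501) (nat_lit 0x300000002000000000000000300040000000000000001))) (.non (nat_lit 1) (nat_lit 5) (nat_lit 0x415150) (nat_lit 0x200000000000300020001000000010001000200000000))) (.non (nat_lit 1) (nat_lit 6) (nat_lit 0x414500) (nat_lit 0x300000000000100020000000300040000000000000000))) (.non (nat_lit 2) (nat_lit 5) (nat_lit 0x555105) (nat_lit 0x200030002000500040003000000010000000000060004))) (.non (nat_lit 1) (nat_lit 6) (nat_lit 0x400500) (nat_lit 0x100000000000000000000000100010000000000000000))) (.non (nat_lit 1) (nat_lit 6) (nat_lit 0x400550) (nat_lit 0x300000000000000000000000300040002000100000000))) (.non (nat_lit 1) (nat_lit 6) (nat_lit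 0x410510) (nat_lit 0x300000000000100000000000300040000000200000000))) (.non (nat_lit 2) (nat_lit 5) (nat_lit 0x510005) (nat_lit 0x100010000000100000000000000000000000000020001))) (.non (nat_lit 1) (nat_lit 6) (nat_lit 0x440501) (nat_lit 0x300000001000000000000000300040000000000000002))))

noncomputable def t761_115 : Tr := (.ex (nat_lit 1) (.ex (nat_lit 2) t761_109 (.split (nat_lit 0xa) (nat_lit 0) (.split (nat_lit 0xa) (nat_lit 3) (.split (nat_lit 0xa) (nat_lit 4) (.split (nat_lit 0xa) (nat_lit 5) (.split (nat_lit 0xa) (nat_lit 6) (.split (nat_lit 0xa) (nat_lit 7) (.split (nat_lit 0xa) (nat_lit 8) (.split (nat_lit 0xa) (nat_lit 9) t761_112 (.non (nat_lit 1) (nat_lit 5) (nat_lit 0x155051) (nat_lit 0x30002000300020001000000000002000400000001))) (.non (nat_lit 1) (nat_lit 5) (nat_lit 0x110010) (nat_lit 0x10000000100000000000000000000000100000000))) (.non (nat_lit 1) (nat_lit 5) (nat_lit 0x114010) (nat_lit 0x10000000100010000000000000000000100000000))) (.star (nat_lit 0xa) (nat_lit 2) (nat_lit 6))) (.star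 (nat_lit 0xa) (nat_lit 2) (nat_lit 5))) (.non (nat_lit 1) (nat_lit 6) (nat_lit 0x110510) (nat_lit 0x30000000100000000000300040000000200000000))) (.non (nat_lit 1) (nat_lit 5) (nat_lit 0x100050) (nat_lit 0x10000000000000000000000000001000100000000))) (.non (nat_lit 1) (nat_lit 5) (nat_lit 0x155051) (nat_lit 0x30001000300020001000000000002000400000002)))) (.split (nat_lit 0xa) (nat_lit 0) (.split (nat_lit 0xa) (nat_lit 3) (.split (nat_lit 0xa) (nat_lit 4) (.split (nat_lit 0xa) (nat_lit 5) (.split (nat_lit 0xa) (nat_lit 6) (.split (nat_lit 0xa) (nat_lit 7) (.split (nat_lit 0xa) (nat_lit 8) (.split (nat_lit 0xa) (nat_lit 9) (.split (nat_lit 0xa) (nat_lit 2) (.st (nat_lit 7) (nat_lit 2) (nat_lit 5) (nat_lit 0x115005) (nat_lit 0x10000000200020001000000000000000000020001) (nat_lit 1) (nat_lit 1) (.st (nat_lit 8) (nat_lit 2) (nat_lit 5) (nat_lit 0x114005) (nat_lit 0x10000000200010000000000000000000000020001) (nat_lit 1) (nat_lit 1) t761_114)) (.split (nat_lit 0xa) (nat_lit 1) (.split (nat_lit 0xa) (nat_lit 2)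 (.split (nat_lit 9) (nat_lit 0) (.split (nat_lit 8) (nat_lit 1) (.split (nat_lit 8) (nat_lit 2) (.sup (nat_lit 0x4000d00160020001a0000000000000000) (nat_lit 0x30001000000000000000000000001000300030002)) (.non (nat_lit 1) (nat_lit 5) (nat_lit 0x12a010) (nat_lit 0x20000000300020001000000000000000400000000))) (.non (nat_lit 2) (nat_lit 5) (nat_lit 0x12a004) (nat_lit 0x20000000300020001000000000000000000040000))) (.non (nat_lit 2) (nat_lit 5) (nat_lit 0x190005) (nat_lit 0x10001000100000000000000000000000000020002))) (.non (nat_lit 1) (nat_lit 5) (nat_lit 0x210050) (nat_lit 0x10000000100000000000000000001000200000000))) (.non (nat_lit 2) (nat_lit 5) (nat_lit 0x210005) (nat_lit 0x10000000100000000000000000000000000020001)))) (.non (nat_lit 2) (nat_lit 5) (nat_lit 0x140005) (nat_lit 0x10001000000000000000000000000000000010001))) (.non (nat_lit 2) (nat_lit 5) (nat_lit 0x110004) (nat_lit 0x10000000100000000000000000000000000010000))) (.non (nat_lit 2) (nat_lit 5) (nat_lit 0x114004) (nat_lit 0x10000000100010000000000000000000000010000)))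 (.star (nat_lit 0xa) (nat_lit 1) (nat_lit 6))) (.star (nat_lit 0xa) (nat_lit 1) (nat_lit 5))) (.non (nat_lit 2) (nat_lit 5) (nat_lit 0x154105) (nat_lit 0x20001000200010000000000010000000000030002))) (.non (nat_lit 2) (nat_lit 5) (nat_lit 0x154045) (nat_lit 0x20001000200010000000000000001000000030002))) (.non (nat_lit 2) (nat_lit 5) (nat_lit 0x100005) (nat_lit 0x10000000000000000000000000000000000010001))))

noncomputable def t761_116 : Tr := (.ex (nat_lit 6) (.split (nat_lit 9) (nat_lit 0) (.split (nat_lit 0xa) (nat_lit 0) (.split (nat_lit 8) (nat_lit 2) (.split (nat_lit 8) (nat_lit 7) (.split (nat_lit 8) (nat_lit 1) (.pd (.cons (nat_lit 0) (nat_lit 8) (nat_lit 0) (nat_lit 0xa9065442110) (nat_lit 0xf423ff423f00000f423fb71aea2c2804737f423fb71ae1f15600000) (.cons (nat_lit 1) (nat_lit 4) (nat_lit 0) (nat_lit 0x287602200) (nat_lit 0xf423ff423f98965a2c28b71aef423f00000f423f5572c000007a11d) (.cons (nat_lit 1) (nat_lit 7) (nat_lit 0) (nat_lit 0x205442200) (nat_lit 0xf423ff423ff423f00000f423fb71ae1f156f423f7a11d000007a11d)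 (.cons (nat_lit 1) (nat_lit 8) (nat_lit 0) (nat_lit 0x65442200) (nat_lit 0xf423ff423f00000f423fb71aea2c2804737f423fb71ae000007a11d) (.cons (nat_lit 2) (nat_lit 4) (nat_lit 0) (nat_lit 0x187603000) (nat_lit 0xf423ff423f98965a2c28b71aef423f00000f423f00000927bd14580) (.cons (nat_lit 2) (nat_lit 7) (nat_lit 0) (nat_lit 0x105443000) (nat_lit 0xf423ff423ff423f00000f423fb71ae1f156f423f00000b71ae28b06) (.cons (nat_lit 2) (nat_lit 8) (nat_lit 0) (nat_lit 0x65443000) (nat_lit 0xf423ff423f00000f423fb71aea2c2804737f423f00000f423f3d08c) .nil))))))) (.leaf (.cons (nat_lit 0x10014) (nat_lit 0x100000000000000000000000100010000) (.cons (nat_lit 0x140015) (nat_lit 0x10001000000000000000000000000000200020002) .nil)) .nil)) (.non (nat_lit 2) (nat_lit 5) (nat_lit 0x160005) (nat_lit 0x10001000100000000000000000000000000020002))) (.non (nat_lit 1) (nat_lit 5) (nat_lit 0x1a050) (nat_lit 0x300020001000000000001000200000000))) (.non (nat_lit 1) (nat_lit 5) (nat_lit 0x2a050) (nat_lit 0x300020001000000000002000400000000))) (.non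 (nat_lit 2) (nat_lit 5) (nat_lit 0x240005) (nat_lit 0x10001000000000000000000000000000000010002))) (.non (nat_lit 2) (nat_lit 5) (nat_lit 0x180005) (nat_lit 0x10001000000000000000000000000000000010002))) (.split (nat_lit 0xb) (nat_lit 0) (.split (nat_lit 0xb) (nat_lit 1) (.split (nat_lit 0xb) (nat_lit 2) (.split (nat_lit 0xb) (nat_lit 3) (.split (nat_lit 0xb) (nat_lit 7) (.split (nat_lit 0xb) (nat_lit 8) (.split (nat_lit 0xb) (nat_lit 9) (.split (nat_lit 0xb) (nat_lit 0xa) (.split (nat_lit 0xb) (nat_lit 4) (.split (nat_lit 0xb) (nat_lit 5) (.unj (nat_lit 0x55) (nat_lit 0x1000200020001) (nat_lit 0x405500) (nat_lit 0x100000000000000010002000200020000000000000000)) (.unj (nat_lit 0x10014) (nat_lit 0x100000000000000000000000100010000) (nat_lit 0x401400) (nat_lit 0x100000000000000000001000100000000000000000000))) (.split (nat_lit 0xb) (nat_lit 5) (.unj (nat_lit 0x10014) (nat_lit 0x100000000000000000000000100010000) (nat_lit 0x401500) (nat_lit 0x100000000000000000001000100010000000000000000)) (.non (nat_lit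 1) (nat_lit 6) (nat_lit 0x400500) (nat_lit 0x100000000000000000000000100010000000000000000)))) (.non (nat_lit 2) (nat_lit 5) (nat_lit 0x515005) (nat_lit 0x100010000000100010001000000000000000000010001))) (.non (nat_lit 2) (nat_lit 5) (nat_lit 0x455005) (nat_lit 0x100000001000100010001000000000000000000010001))) (.non (nat_lit 1) (nat_lit 5) (nat_lit 0x415000) (nat_lit 0x100000000000100010001000000000000000000000000))) (.non (nat_lit 1) (nat_lit 5) (nat_lit 0x405000) (nat_lit 0x100000000000000010001000000000000000000000000))) (.non (nat_lit 1) (nat_lit 5) (nat_lit 0x415050) (nat_lit 0x100000000000100010001000000000001000100000000))) (.star (nat_lit 0xb) (nat_lit 2) (nat_lit 6))) (.star (nat_lit 0xb) (nat_lit 1) (nat_lit 6))) (.non (nat_lit 2) (nat_lit 5) (nat_lit 0x540005) (nat_lit 0x100010001000000000000000000000000000000010002))))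

noncomputable def t761_117 : Tr := (.ex (nat_lit 4) (.ex (nat_lit 5) t761_116 (.split (nat_lit 0xb) (nat_lit 0) (.split (nat_lit 0xb) (nat_lit 1) (.split (nat_lit 0xb) (nat_lit 2) (.split (nat_lit 0xb) (nat_lit 3) (.split (nat_lit 0xb) (nat_lit 4) (.split (nat_lit 0xb) (nat_lit 7) (.split (nat_lit 0xb) (nat_lit 8) (.split (nat_lit 0xb) (nat_lit 9) (.split (nat_lit 0xb) (nat_lit 0xa) (.split (nat_lit 0xb) (nat_lit 6) (.unj (nat_lit 0x10014) (nat_lit 0x100000000000000000000000100010000) (nat_lit 0x401500) (nat_lit 0x100000000000000000001000200020000000000000000)) (.unj (nat_lit 0x10014) (nat_lit 0x100000000000000000000000100010000) (nat_lit 0x401400) (nat_lit 0x100000000000000000001000100000000000000000000))) (.non (nat_lit 1) (nat_lit 6) (nat_lit 0x500501) (nat_lit 0x300020000000000000000000400030000000000000001))) (.non (nat_lit 1) (nat_lit 6) (nat_lit 0x440501) (nat_lit 0x300000002000000000000000400030000000000000001))) (.non (nat_lit 1) (nat_lit 6) (nat_lit 0x414500) (nat_lit 0x300000000000200010000000400030000000000000000)))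 (.non (nat_lit 1) (nat_lit 6) (nat_lit 0x414500) (nat_lit 0x300000000000100020000000400030000000000000000))) (.non (nat_lit 1) (nat_lit 6) (nat_lit 0x400500) (nat_lit 0x100000000000000000000000100010000000000000000))) (.non (nat_lit 1) (nat_lit 6) (nat_lit 0x400550) (nat_lit 0x300000000000000000000000400030002000100000000))) (.star (nat_lit 0xb) (nat_lit 2) (nat_lit 5))) (.star (nat_lit 0xb) (nat_lit 1) (nat_lit 5))) (.non (nat_lit 1) (nat_lit 6) (nat_lit 0x500501) (nat_lit 0x300010000000000000000000400030000000000000002)))) (.split (nat_lit 0xb) (nat_lit 0) (.split (nat_lit 0xb) (nat_lit 1) (.split (nat_lit 0xb) (nat_lit 2) (.split (nat_lit 0xb) (nat_lit 3) (.split (nat_lit 0xb) (nat_lit 5) (.split (nat_lit 0xb) (nat_lit 7) (.split (nat_lit 0xb) (nat_lit 8) (.split (nat_lit 0xb) (nat_lit 9) (.split (nat_lit 0xb) (nat_lit 0xa) (.split (nat_lit 0xb) (nat_lit 6) (.unj (nat_lit 0x10014) (nat_lit 0x100000000000000000000000100010000) (nat_lit 0x401500) (nat_lit 0x100000000000000000001000200020000000000000000))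 (.unj (nat_lit 0x10014) (nat_lit 0x100000000000000000000000100010000) (nat_lit 0x401500) (nat_lit 0x100000000000000000001000100010000000000000000))) (.non (nat_lit 1) (nat_lit 6) (nat_lit 0x500501) (nat_lit 0x300020000000000000000000300040000000000000001))) (.non (nat_lit 1) (nat_lit 6) (nat_lit 0x440501) (nat_lit 0x300000002000000000000000300040000000000000001))) (.non (nat_lit 1) (nat_lit 5) (nat_lit 0x415150) (nat_lit 0x200000000000300020001000000010001000200000000))) (.non (nat_lit 1) (nat_lit 6) (nat_lit 0x414500) (nat_lit 0x300000000000100020000000300040000000000000000))) (.non (nat_lit 1) (nat_lit 6) (nat_lit 0x400500) (nat_lit 0x100000000000000000000000100010000000000000000))) (.non (nat_lit 1) (nat_lit 6) (nat_lit 0x400550) (nat_lit 0x300000000000000000000000300040002000100000000))) (.non (nat_lit 1) (nat_lit 6) (nat_lit 0x410510) (nat_lit 0x300000000000100000000000300040000000200000000))) (.non (nat_lit 2) (nat_lit 5) (nat_lit 0x550005) (nat_lit 0x100010001000100000000000000000000000000020002)))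 (.non (nat_lit 1) (nat_lit 6) (nat_lit 0x500501) (nat_lit 0x300010000000000000000000300040000000000000002))))

noncomputable def t761_118 : Tr := (.pd (.cons (nat_lit 1) (nat_lit 4) (nat_lit 0) (nat_lit 0x300287602200) (nat_lit 0xf423ff423ff423f98965a2c28b71aef423f00000b71ae411a6000007a11d) (.cons (nat_lit 1) (nat_lit 7) (nat_lit 0) (nat_lit 0x300205442200) (nat_lit 0xf423ff423ff423ff423f00000f423fb71ae1f156b71ae65b97000007a11d) (.cons (nat_lit 1) (nat_lit 8) (nat_lit 0) (nat_lit 0x300065442200) (nat_lit 0xf423ff423ff423f00000f423fb71aea2c2804737b71aea2c28000007a11d) (.cons (nat_lit 2) (nat_lit 4) (nat_lit 0) (nat_lit 0x300187603000) (nat_lit 0xf423ff423ff423f98965a2c28b71aef423f00000b71ae00000927bd14580) (.cons (nat_lit 2) (nat_lit 7) (nat_lit 0) (nat_lit 0x300105443000) (nat_lit 0xf423ff423ff423ff423f00000f423fb71ae1f156b71ae00000b71ae28b06) (.cons (nat_lit 2) (nat_lit 8) (nat_lit 0) (nat_lit 0x300065443000) (nat_lit 0xf423ff423ff423f00000f423fb71aea2c2804737b71ae00000f423f3d08c) .nil)))))) (.ex (nat_lit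 0xb) (.pd (.cons (nat_lit 0) (nat_lit 8) (nat_lit 0) (nat_lit 0x3a9065442110) (nat_lit 0xf423ff423ff423f00000f423fb71aea2c2804737b71aea2c280473700000) .nil) (.leaf (.cons (nat_lit 0x10014) (nat_lit 0x100000000000000000000000100010000) (.cons (nat_lit 0x140015) (nat_lit 0x10001000000000000000000000000000200020002) .nil)) .nil)) (.split (nat_lit 0xc) (nat_lit 0) (.split (nat_lit 0xc) (nat_lit 1) (.split (nat_lit 0xc) (nat_lit 2) (.split (nat_lit 0xc) (nat_lit 3) (.split (nat_lit 0xc) (nat_lit 4) (.split (nat_lit 0xc) (nat_lit 5) (.split (nat_lit 0xc) (nat_lit 6) (.split (nat_lit 0xc) (nat_lit 7) (.split (nat_lit 0xc) (nat_lit 8) (.split (nat_lit 0xc) (nat_lit 9) (.split (nat_lit 0xc) (nat_lit 0xa) (.leaf (.cons (nat_lit 0x10014) (nat_lit 0x100000000000000000000000100010000) (.cons (nat_lit 0x1400054) (nat_lit 0x1000200000000000000000000000000000003000400030000) (.cons (nat_lit 0x140015) (nat_lit 0x10001000000000000000000000000000200020002) .nil))) .nil) (.non (nat_lit 2) (nat_lit 5) (nat_lit 0x1554005)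 (nat_lit 0x2000100030002000200010000000000000000000000030004))) (.non (nat_lit 2) (nat_lit 5) (nat_lit 0x1554005) (nat_lit 0x2000100020003000200010000000000000000000000030004))) (.non (nat_lit 1) (nat_lit 5) (nat_lit 0x1410050) (nat_lit 0x1000100000000000100000000000000000001000100000000))) (.non (nat_lit 1) (nat_lit 5) (nat_lit 0x1414050) (nat_lit 0x1000100000000000100010000000000000001000100000000))) (.non (nat_lit 1) (nat_lit 5) (nat_lit 0x1415050) (nat_lit 0x1000100000000000100010001000000000001000100000000))) (.non (nat_lit 1) (nat_lit 6) (nat_lit 0x1400540) (nat_lit 0x3000200000000000000000000000400030001000000000000))) (.non (nat_lit 1) (nat_lit 6) (nat_lit 0x1400540) (nat_lit 0x3000200000000000000000000000300040001000000000000))) (.non (nat_lit 1) (nat_lit 5) (nat_lit 0x1400040) (nat_lit 0x1000100000000000000000000000000000001000000000000))) (.non (nat_lit 1) (nat_lit 5) (nat_lit 0x1400050) (nat_lit 0x1000100000000000000000000000000000001000100000000))) (.non (nat_lit 2) (nat_lit 5) (nat_lit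 0x1150005) (nat_lit 0x1000000010001000100000000000000000000000000020002))) (.non (nat_lit 2) (nat_lit 5) (nat_lit 0x1140005) (nat_lit 0x1000000010001000000000000000000000000000000010002)))))

noncomputable def t761_119 : Tr := (.ex (nat_lit 6) (.split (nat_lit 9) (nat_lit 0) (.split (nat_lit 0xa) (nat_lit 0) (.split (nat_lit 8) (nat_lit 2) (.split (nat_lit 0xb) (nat_lit 3) (.split (nat_lit 8) (nat_lit 7) (.split (nat_lit 8) (nat_lit 1) t761_118 (.non (nat_lit 2) (nat_lit 5) (nat_lit 0x160005) (nat_lit 0x10001000100000000000000000000000000020002))) (.non (nat_lit 1) (nat_lit 5) (nat_lit 0x1a050) (nat_lit 0x300020001000000000001000200000000))) (.split (nat_lit 0xb) (nat_lit 3) (.split (nat_lit 8) (nat_lit 7) (.split (nat_lit 8) (nat_lit 1) (.pd (.cons (nat_lit 1) (nat_lit 4) (nat_lit 0) (nat_lit 0x300287602200) (nat_lit 0xf423ff423ff423f98965a2c28b71aef423f000007a11e1869a000007a11d) (.cons (nat_lit 1) (nat_lit 7) (nat_lit 0) (nat_lit 0x300205442200) (nat_lit 0xf423ff423ff423ff423f00000f423fb71ae1f1567a11e3d08b000007a11d)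 (.cons (nat_lit 1) (nat_lit 8) (nat_lit 0) (nat_lit 0x300065442200) (nat_lit 0xf423ff423ff423f00000f423fb71aea2c28047377a11e7a11c000007a11d) (.cons (nat_lit 2) (nat_lit 4) (nat_lit 0) (nat_lit 0x300187603000) (nat_lit 0xf423ff423ff423f98965a2c28b71aef423f000007a11e00000927bd14580) (.cons (nat_lit 2) (nat_lit 7) (nat_lit 0) (nat_lit 0x300105443000) (nat_lit 0xf423ff423ff423ff423f00000f423fb71ae1f1567a11e00000b71ae28b06) (.cons (nat_lit 2) (nat_lit 8) (nat_lit 0) (nat_lit 0x300065443000) (nat_lit 0xf423ff423ff423f00000f423fb71aea2c28047377a11e00000f423f3d08c) .nil)))))) (.leaf (.cons (nat_lit 0x10014) (nat_lit 0x100000000000000000000000100010000) (.cons (nat_lit 0x400054) (nat_lit 0x100000000000000000000000000000001000100010000) (.cons (nat_lit 0x140015) (nat_lit 0x10001000000000000000000000000000200020002) .nil))) .nil)) (.non (nat_lit 2) (nat_lit 5) (nat_lit 0x160005) (nat_lit 0x10001000100000000000000000000000000020002))) (.non (nat_lit 1) (nat_lit 5) (nat_lit 0x818050) (nat_lit 0x100000000000200010000000000000002000200000000)))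 (.non (nat_lit 1) (nat_lit 5) (nat_lit 0x414050) (nat_lit 0x300000000000200010000000000000004000300000000)))) (.non (nat_lit 1) (nat_lit 5) (nat_lit 0x428050) (nat_lit 0x100000000000200010000000000000002000300000000))) (.non (nat_lit 2) (nat_lit 5) (nat_lit 0x240005) (nat_lit 0x10001000000000000000000000000000000010002))) (.non (nat_lit 2) (nat_lit 5) (nat_lit 0x180005) (nat_lit 0x10001000000000000000000000000000000010002))) (.split (nat_lit 0xc) (nat_lit 0) (.split (nat_lit 0xc) (nat_lit 1) (.split (nat_lit 0xc) (nat_lit 2) (.split (nat_lit 0xc) (nat_lit 3) (.split (nat_lit 0xc) (nat_lit 7) (.split (nat_lit 0xc) (nat_lit 8) (.split (nat_lit 0xc) (nat_lit 9) (.split (nat_lit 0xc) (nat_lit 0xa) (.split (nat_lit 0xc) (nat_lit 0xb) (.split (nat_lit 0xc) (nat_lit 4) (.split (nat_lit 0xc) (nat_lit 5) (.unj (nat_lit 0x55) (nat_lit 0x1000200020001) (nat_lit 0x1005500) (nat_lit 0x1000000000000000000010002000200020000000000000000)) (.unj (nat_lit 0x10014) (nat_lit 0x100000000000000000000000100010000) (nat_lit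 0x1001400) (nat_lit 0x1000000000000000000000001000100000000000000000000))) (.split (nat_lit 0xc) (nat_lit 5) (.unj (nat_lit 0x10014) (nat_lit 0x100000000000000000000000100010000) (nat_lit 0x1001500) (nat_lit 0x1000000000000000000000001000100010000000000000000)) (.non (nat_lit 1) (nat_lit 6) (nat_lit 0x1000500) (nat_lit 0x1000000000000000000000000000100010000000000000000)))) (.non (nat_lit 1) (nat_lit 5) (nat_lit 0x1415050) (nat_lit 0x1000100000000000100010001000000000001000100000000))) (.non (nat_lit 2) (nat_lit 5) (nat_lit 0x1115005) (nat_lit 0x1000000010000000100010001000000000000000000010001))) (.non (nat_lit 2) (nat_lit 5) (nat_lit 0x1055005) (nat_lit 0x1000000000001000100010001000000000000000000010001))) (.non (nat_lit 1) (nat_lit 5) (nat_lit 0x1015000) (nat_lit 0x1000000000000000100010001000000000000000000000000))) (.non (nat_lit 1) (nat_lit 5) (nat_lit 0x1005000) (nat_lit 0x1000000000000000000010001000000000000000000000000))) (.non (nat_lit 1) (nat_lit 5) (nat_lit 0x1015050) (nat_lit 0x1000000000000000100010001000000000001000100000000)))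 (.star (nat_lit 0xc) (nat_lit 2) (nat_lit 6))) (.star (nat_lit 0xc) (nat_lit 1) (nat_lit 6))) (.non (nat_lit 2) (nat_lit 5) (nat_lit 0x1140005) (nat_lit 0x1000000010001000000000000000000000000000000010002))))

noncomputable def t761_120 : Tr := (.ex (nat_lit 4) (.ex (nat_lit 5) t761_119 (.split (nat_lit 0xc) (nat_lit 0) (.split (nat_lit 0xc) (nat_lit 1) (.split (nat_lit 0xc) (nat_lit 2) (.split (nat_lit 0xc) (nat_lit 3) (.split (nat_lit 0xc) (nat_lit 4) (.split (nat_lit 0xc) (nat_lit 7) (.split (nat_lit 0xc) (nat_lit 8) (.split (nat_lit 0xc) (nat_lit 9) (.split (nat_lit 0xc) (nat_lit 0xa) (.split (nat_lit 0xc) (nat_lit 0xb) (.split (nat_lit 0xc) (nat_lit 6) (.unj (nat_lit 0x10014) (nat_lit 0x100000000000000000000000100010000) (nat_lit 0x1001500) (nat_lit 0x1000000000000000000000001000200020000000000000000)) (.unj (nat_lit 0x10014) (nat_lit 0x100000000000000000000000100010000) (nat_lit 0x1001400) (nat_lit 0x1000000000000000000000001000100000000000000000000))) (.non (nat_lit 1) (nat_lit 6) (nat_lit 0x1400540)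 (nat_lit 0x3000200000000000000000000000400030001000000000000))) (.non (nat_lit 1) (nat_lit 6) (nat_lit 0x1100501) (nat_lit 0x3000000020000000000000000000400030000000000000001))) (.non (nat_lit 1) (nat_lit 6) (nat_lit 0x1040501) (nat_lit 0x3000000000002000000000000000400030000000000000001))) (.non (nat_lit 1) (nat_lit 6) (nat_lit 0x1014500) (nat_lit 0x3000000000000000200010000000400030000000000000000))) (.non (nat_lit 1) (nat_lit 6) (nat_lit 0x1014500) (nat_lit 0x3000000000000000100020000000400030000000000000000))) (.non (nat_lit 1) (nat_lit 6) (nat_lit 0x1000500) (nat_lit 0x1000000000000000000000000000100010000000000000000))) (.non (nat_lit 1) (nat_lit 6) (nat_lit 0x1400540) (nat_lit 0x3000100000000000000000000000400030002000000000000))) (.star (nat_lit 0xc) (nat_lit 2) (nat_lit 5))) (.star (nat_lit 0xc) (nat_lit 1) (nat_lit 5))) (.non (nat_lit 1) (nat_lit 6) (nat_lit 0x1100501) (nat_lit 0x3000000010000000000000000000400030000000000000002)))) (.split (nat_lit 0xc) (nat_lit 0) (.split (nat_lit 0xc) (nat_lit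 1) (.split (nat_lit 0xc) (nat_lit 2) (.split (nat_lit 0xc) (nat_lit 3) (.split (nat_lit 0xc) (nat_lit 5) (.split (nat_lit 0xc) (nat_lit 7) (.split (nat_lit 0xc) (nat_lit 8) (.split (nat_lit 0xc) (nat_lit 9) (.split (nat_lit 0xc) (nat_lit 0xa) (.split (nat_lit 0xc) (nat_lit 0xb) (.split (nat_lit 0xc) (nat_lit 6) (.unj (nat_lit 0x10014) (nat_lit 0x100000000000000000000000100010000) (nat_lit 0x1001500) (nat_lit 0x1000000000000000000000001000200020000000000000000)) (.unj (nat_lit 0x10014) (nat_lit 0x100000000000000000000000100010000) (nat_lit 0x1001500) (nat_lit 0x1000000000000000000000001000100010000000000000000))) (.non (nat_lit 1) (nat_lit 6) (nat_lit 0x1400540) (nat_lit 0x3000200000000000000000000000300040001000000000000))) (.non (nat_lit 1) (nat_lit 6) (nat_lit 0x1100501) (nat_lit 0x3000000020000000000000000000300040000000000000001))) (.non (nat_lit 1) (nat_lit 6) (nat_lit 0x1040501) (nat_lit 0x3000000000002000000000000000300040000000000000001))) (.non (nat_lit 1) (nat_lit 5) (nat_lit 0x1015150) (nat_lit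 0x2000000000000000300020001000000010001000200000000))) (.non (nat_lit 1) (nat_lit 6) (nat_lit 0x1014500) (nat_lit 0x3000000000000000100020000000300040000000000000000))) (.non (nat_lit 1) (nat_lit 6) (nat_lit 0x1000500) (nat_lit 0x1000000000000000000000000000100010000000000000000))) (.non (nat_lit 1) (nat_lit 6) (nat_lit 0x1400540) (nat_lit 0x3000100000000000000000000000300040002000000000000))) (.non (nat_lit 1) (nat_lit 5) (nat_lit 0x1414150) (nat_lit 0x2000100000000000200010000000000010002000300000000))) (.non (nat_lit 2) (nat_lit 5) (nat_lit 0x1150005) (nat_lit 0x1000000010001000100000000000000000000000000020002))) (.non (nat_lit 1) (nat_lit 6) (nat_lit 0x1100501) (nat_lit 0x3000000010000000000000000000300040000000000000002))))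

noncomputable def t761_121 : Tr := (.ex (nat_lit 6) (.split (nat_lit 9) (nat_lit 0) (.split (nat_lit 0xa) (nat_lit 0) (.split (nat_lit 8) (nat_lit 2) (.split (nat_lit 0xb) (nat_lit 3) (.split (nat_lit 0xc) (nat_lit 3) (.split (nat_lit 8) (nat_lit 7) (.split (nat_lit 8) (nat_lit 1) (.pd (.cons (nat_lit 1) (nat_lit 4) (nat_lit 0) (nat_lit 0x3300287602200) (nat_lit 0xf423ff423ff423ff423f98965a2c28b71aef423f000007a11d18699000007a11d) (.cons (nat_lit 1) (nat_lit 7) (nat_lit 0) (nat_lit 0x3300205442200) (nat_lit 0xf423ff423ff423ff423ff423f00000f423fb71ae1f1567a11d3d08a000007a11d) (.cons (nat_lit 1) (nat_lit 8) (nat_lit 0) (nat_lit 0x3300065442200) (nat_lit 0xf423ff423ff423ff423f00000f423fb71aea2c28047377a11d7a11b000007a11d) (.cons (nat_lit 2) (nat_lit 4) (nat_lit 0) (nat_lit 0x3300187603000) (nat_lit 0xf423ff423ff423ff423f98965a2c28b71aef423f000007a11d00000927bd14580) (.cons (nat_lit 2) (nat_lit 7) (nat_lit 0) (nat_lit 0x3300105443000) (nat_lit 0xf423ff423ff423ff423ff423f00000f423fb71ae1f1567a11d00000b71ae28b06)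 (.cons (nat_lit 2) (nat_lit 8) (nat_lit 0) (nat_lit 0x3300065443000) (nat_lit 0xf423ff423ff423ff423f00000f423fb71aea2c28047377a11d00000f423f3d08c) .nil)))))) (.leaf (.cons (nat_lit 0x10014) (nat_lit 0x100000000000000000000000100010000) (.cons (nat_lit 0x1400054) (nat_lit 0x1000100000000000000000000000000000002000200020000) (.cons (nat_lit 0x140015) (nat_lit 0x10001000000000000000000000000000200020002) .nil))) .nil)) (.non (nat_lit 2) (nat_lit 5) (nat_lit 0x160005) (nat_lit 0x10001000100000000000000000000000000020002))) (.non (nat_lit 1) (nat_lit 5) (nat_lit 0x1418050) (nat_lit 0x1000100000000000200010000000000000002000200000000))) (.non (nat_lit 1) (nat_lit 5) (nat_lit 0x2400050) (nat_lit 0x1000100000000000000000000000000000002000100000000))) (.non (nat_lit 1) (nat_lit 5) (nat_lit 0x1800050) (nat_lit 0x1000100000000000000000000000000000002000100000000))) (.non (nat_lit 1) (nat_lit 5) (nat_lit 0x1420050) (nat_lit 0x1000100000000000100000000000000000002000200000000))) (.non (nat_lit 2) (nat_lit 5) (nat_lit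 0x240005) (nat_lit 0x10001000000000000000000000000000000010002))) (.non (nat_lit 2) (nat_lit 5) (nat_lit 0x180005) (nat_lit 0x10001000000000000000000000000000000010002))) (.split (nat_lit 0xd) (nat_lit 0) (.split (nat_lit 0xd) (nat_lit 1) (.split (nat_lit 0xd) (nat_lit 2) (.split (nat_lit 0xd) (nat_lit 3) (.split (nat_lit 0xd) (nat_lit 7) (.split (nat_lit 0xd) (nat_lit 8) (.split (nat_lit 0xd) (nat_lit 9) (.split (nat_lit 0xd) (nat_lit 0xa) (.split (nat_lit 0xd) (nat_lit 0xb) (.split (nat_lit 0xd) (nat_lit 0xc) (.split (nat_lit 0xd) (nat_lit 4) (.split (nat_lit 0xd) (nat_lit 5) (.unj (nat_lit 0x55) (nat_lit 0x1000200020001) (nat_lit 0x4005500) (nat_lit 0x10000000000000000000000010002000200020000000000000000)) (.unj (nat_lit 0x10014) (nat_lit 0x100000000000000000000000100010000) (nat_lit 0x4001400) (nat_lit 0x10000000000000000000000000001000100000000000000000000))) (.split (nat_lit 0xd) (nat_lit 5) (.unj (nat_lit 0x10014) (nat_lit 0x100000000000000000000000100010000) (nat_lit 0x4001500) (nat_lit 0x10000000000000000000000000001000100010000000000000000))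 (.non (nat_lit 1) (nat_lit 6) (nat_lit 0x4000500) (nat_lit 0x10000000000000000000000000000000100010000000000000000)))) (.non (nat_lit 1) (nat_lit 5) (nat_lit 0x5015050) (nat_lit 0x10001000000000000000100010001000000000001000100000000))) (.non (nat_lit 1) (nat_lit 5) (nat_lit 0x4415050) (nat_lit 0x10000000100000000000100010001000000000001000100000000))) (.non (nat_lit 2) (nat_lit 5) (nat_lit 0x4115005) (nat_lit 0x10000000000010000000100010001000000000000000000010001))) (.non (nat_lit 2) (nat_lit 5) (nat_lit 0x4055005) (nat_lit 0x10000000000000001000100010001000000000000000000010001))) (.non (nat_lit 1) (nat_lit 5) (nat_lit 0x4015000) (nat_lit 0x10000000000000000000100010001000000000000000000000000))) (.non (nat_lit 1) (nat_lit 5) (nat_lit 0x4005000) (nat_lit 0x10000000000000000000000010001000000000000000000000000))) (.non (nat_lit 1) (nat_lit 5) (nat_lit 0x5400050) (nat_lit 0x10001000100000000000000000000000000000002000100000000))) (.star (nat_lit 0xd) (nat_lit 2) (nat_lit 6))) (.star (nat_lit 0xd) (nat_lit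 1) (nat_lit 6))) (.non (nat_lit 1) (nat_lit 5) (nat_lit 0x5555051) (nat_lit 0x20001000100010001000200020002000000000002000200000002))))

noncomputable def t761_122 : Tr := (.ex (nat_lit 4) (.ex (nat_lit 5) t761_121 (.split (nat_lit 0xd) (nat_lit 0) (.split (nat_lit 0xd) (nat_lit 1) (.split (nat_lit 0xd) (nat_lit 2) (.split (nat_lit 0xd) (nat_lit 3) (.split (nat_lit 0xd) (nat_lit 4) (.split (nat_lit 0xd) (nat_lit 7) (.split (nat_lit 0xd) (nat_lit 8) (.split (nat_lit 0xd) (nat_lit 9) (.split (nat_lit 0xd) (nat_lit 0xa) (.split (nat_lit 0xd) (nat_lit 0xb) (.split (nat_lit 0xd) (nat_lit 0xc) (.split (nat_lit 0xd) (nat_lit 6) (.unj (nat_lit 0x10014) (nat_lit 0x100000000000000000000000100010000) (nat_lit 0x4001500) (nat_lit 0x10000000000000000000000000001000200020000000000000000)) (.unj (nat_lit 0x10014) (nat_lit 0x100000000000000000000000100010000) (nat_lit 0x4001400) (nat_lit 0x10000000000000000000000000001000100000000000000000000))) (.non (nat_lit 1) (nat_lit 6) (nat_lit 0x5000540) (nat_lit 0x30002000000000000000000000000000400030001000000000000)))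 (.non (nat_lit 1) (nat_lit 6) (nat_lit 0x4400540) (nat_lit 0x30000000200000000000000000000000400030001000000000000))) (.non (nat_lit 1) (nat_lit 6) (nat_lit 0x4100501) (nat_lit 0x30000000000020000000000000000000400030000000000000001))) (.non (nat_lit 1) (nat_lit 6) (nat_lit 0x4040501) (nat_lit 0x30000000000000002000000000000000400030000000000000001))) (.non (nat_lit 1) (nat_lit 5) (nat_lit 0x5414050) (nat_lit 0x10001000100000000000200010000000000000002000200000000))) (.non (nat_lit 1) (nat_lit 5) (nat_lit 0x5415050) (nat_lit 0x10001000100000000000200020001000000000002000200000000))) (.non (nat_lit 1) (nat_lit 6) (nat_lit 0x4000500) (nat_lit 0x10000000000000000000000000000000100010000000000000000))) (.non (nat_lit 1) (nat_lit 5) (nat_lit 0x5400050) (nat_lit 0x10001000100000000000000000000000000000002000100000000))) (.star (nat_lit 0xd) (nat_lit 2) (nat_lit 5))) (.star (nat_lit 0xd) (nat_lit 1) (nat_lit 5))) (.non (nat_lit 1) (nat_lit 6) (nat_lit 0x4100501) (nat_lit 0x30000000000010000000000000000000400030000000000000002))))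 (.split (nat_lit 0xd) (nat_lit 0) (.split (nat_lit 0xd) (nat_lit 1) (.split (nat_lit 0xd) (nat_lit 2) (.split (nat_lit 0xd) (nat_lit 3) (.split (nat_lit 0xd) (nat_lit 5) (.split (nat_lit 0xd) (nat_lit 7) (.split (nat_lit 0xd) (nat_lit 8) (.split (nat_lit 0xd) (nat_lit 9) (.split (nat_lit 0xd) (nat_lit 0xa) (.split (nat_lit 0xd) (nat_lit 0xb) (.split (nat_lit 0xd) (nat_lit 0xc) (.split (nat_lit 0xd) (nat_lit 6) (.unj (nat_lit 0x10014) (nat_lit 0x100000000000000000000000100010000) (nat_lit 0x4001500) (nat_lit 0x10000000000000000000000000001000200020000000000000000)) (.unj (nat_lit 0x10014) (nat_lit 0x100000000000000000000000100010000) (nat_lit 0x4001500) (nat_lit 0x10000000000000000000000000001000100010000000000000000))) (.non (nat_lit 1) (nat_lit 5) (nat_lit 0x5414150) (nat_lit 0x20003000200000000000200010000000000010004000300000000))) (.non (nat_lit 1) (nat_lit 5) (nat_lit 0x5414150) (nat_lit 0x20002000300000000000200010000000000010004000300000000))) (.non (nat_lit 1) (nat_lit 6) (nat_lit 0x4100501)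 (nat_lit 0x30000000000020000000000000000000300040000000000000001))) (.non (nat_lit 1) (nat_lit 6) (nat_lit 0x4040501) (nat_lit 0x30000000000000002000000000000000300040000000000000001))) (.non (nat_lit 1) (nat_lit 5) (nat_lit 0x5414050) (nat_lit 0x10001000100000000000200010000000000000002000200000000))) (.non (nat_lit 1) (nat_lit 5) (nat_lit 0x5415050) (nat_lit 0x10001000100000000000200020001000000000002000200000000))) (.non (nat_lit 1) (nat_lit 6) (nat_lit 0x4000500) (nat_lit 0x10000000000000000000000000000000100010000000000000000))) (.non (nat_lit 1) (nat_lit 5) (nat_lit 0x5400050) (nat_lit 0x10001000100000000000000000000000000000002000100000000))) (.non (nat_lit 1) (nat_lit 5) (nat_lit 0x5410050) (nat_lit 0x10001000100000000000100000000000000000002000200000000))) (.non (nat_lit 2) (nat_lit 5) (nat_lit 0x4150005) (nat_lit 0x10000000000010001000100000000000000000000000000020002))) (.non (nat_lit 1) (nat_lit 6) (nat_lit 0x4100501) (nat_lit 0x30000000000010000000000000000000300040000000000000002))))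

noncomputable def t761_123 : Tr := (.split (nat_lit 0xb) (nat_lit 5) (.split (nat_lit 0xb) (nat_lit 6) (.split (nat_lit 0xb) (nat_lit 7) (.split (nat_lit 0xb) (nat_lit 8) (.split (nat_lit 0xb) (nat_lit 9) (.split (nat_lit 0xb) (nat_lit 0xa) (.ex (nat_lit 3) t761_120 (.split (nat_lit 0xc) (nat_lit 0) (.split (nat_lit 0xc) (nat_lit 1) (.split (nat_lit 0xc) (nat_lit 2) (.split (nat_lit 0xc) (nat_lit 4) (.split (nat_lit 0xc) (nat_lit 5) (.split (nat_lit 0xc) (nat_lit 6) (.split (nat_lit 0xc) (nat_lit 7) (.split (nat_lit 0xc) (nat_lit 8) (.split (nat_lit 0xc) (nat_lit 9) (.split (nat_lit 0xc) (nat_lit 0xa) (.split (nat_lit 0xc) (nat_lit 0xb) t761_122 (.non (nat_lit 1) (nat_lit 5) (nat_lit 0x1400040) (nat_lit 0x1000100000000000000000000000000000001000000000000))) (.non (nat_lit 1) (nat_lit 5) (nat_lit 0x1514051) (nat_lit 0x3000200020000000200010000000000000004000300000001))) (.non (nat_lit 1) (nat_lit 5) (nat_lit 0x1454051) (nat_lit 0x3000200000002000200010000000000000004000300000001))) (.non (nat_lit 1)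 (nat_lit 5) (nat_lit 0x1010050) (nat_lit 0x1000000000000000100000000000000000001000100000000))) (.non (nat_lit 1) (nat_lit 5) (nat_lit 0x1014050) (nat_lit 0x1000000000000000100010000000000000001000100000000))) (.non (nat_lit 1) (nat_lit 5) (nat_lit 0x1015050) (nat_lit 0x1000000000000000100010001000000000001000100000000))) (.non (nat_lit 1) (nat_lit 6) (nat_lit 0x1400540) (nat_lit 0x3000100000000000000000000000400030002000000000000))) (.non (nat_lit 1) (nat_lit 6) (nat_lit 0x1400540) (nat_lit 0x3000100000000000000000000000300040002000000000000))) (.non (nat_lit 1) (nat_lit 5) (nat_lit 0x1000050) (nat_lit 0x1000000000000000000000000000000000001000100000000))) (.non (nat_lit 2) (nat_lit 5) (nat_lit 0x1150005) (nat_lit 0x1000000010001000100000000000000000000000000020002))) (.non (nat_lit 1) (nat_lit 5) (nat_lit 0x1540051) (nat_lit 0x2000100010001000000000000000000000002000100000002)))) (.non (nat_lit 2) (nat_lit 5) (nat_lit 0x554045) (nat_lit 0x200030002000200010000000000000001000000030004))) (.non (nat_lit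 2) (nat_lit 5) (nat_lit 0x554045) (nat_lit 0x200020003000200010000000000000001000000030004))) (.non (nat_lit 1) (nat_lit 5) (nat_lit 0x410050) (nat_lit 0x100000000000100000000000000000001000100000000))) (.non (nat_lit 1) (nat_lit 5) (nat_lit 0x414050) (nat_lit 0x100000000000100010000000000000001000100000000))) (.non (nat_lit 1) (nat_lit 5) (nat_lit 0x415050) (nat_lit 0x100000000000100010001000000000001000100000000))) (.non (nat_lit 1) (nat_lit 6) (nat_lit 0x400550) (nat_lit 0x300000000000000000000000400030002000100000000)))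

noncomputable def t761_124 : Tr := (.ex (nat_lit 6) (.split (nat_lit 9) (nat_lit 0) (.split (nat_lit 0xa) (nat_lit 0) (.split (nat_lit 8) (nat_lit 2) (.split (nat_lit 0xb) (nat_lit 2) (.split (nat_lit 8) (nat_lit 7) (.split (nat_lit 8) (nat_lit 1) (.pd (.cons (nat_lit 1) (nat_lit 4) (nat_lit 0) (nat_lit 0x200287602200) (nat_lit 0xf423ff423ff423f98965a2c28b71aef423f00000f423f1869b000007a11d) (.cons (nat_lit 1) (nat_lit 7) (nat_lit 0) (nat_lit 0x200205442200) (nat_lit 0xf423ff423ff423ff423f00000f423fb71ae1f156f423f3d08c000007a11d) (.cons (nat_lit 1) (nat_lit 8) (nat_lit 0) (nat_lit 0x200065442200) (nat_lit 0xf423ff423ff423f00000f423fb71aea2c2804737f423f7a11d000007a11d) (.cons (nat_lit 2) (nat_lit 4) (nat_lit 0) (nat_lit 0xb00187603000) (nat_lit 0xf423ff423ff423f98965a2c28b71aef423f00000f423f00000927bd14580) (.cons (nat_lit 2) (nat_lit 7) (nat_lit 0) (nat_lit 0xb00105443000) (nat_lit 0xf423ff423ff423ff423f00000f423fb71ae1f156f423f00000b71ae28b06) (.cons (nat_lit 2) (nat_lit 8) (nat_lit 0) (nat_lit 0xb00065443000)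 (nat_lit 0xf423ff423ff423f00000f423fb71aea2c2804737f423f00000f423f3d08c) .nil)))))) (.leaf (.cons (nat_lit 0x10014) (nat_lit 0x100000000000000000000000100010000) (.cons (nat_lit 0x400054) (nat_lit 0x100000000000000000000000000000001000200020000) (.cons (nat_lit 0x400015) (nat_lit 0x100000000000000000000000000000000000200020001) .nil))) .nil)) (.non (nat_lit 2) (nat_lit 5) (nat_lit 0x160005) (nat_lit 0x10001000100000000000000000000000000020002))) (.non (nat_lit 1) (nat_lit 5) (nat_lit 0x41a010) (nat_lit 0x100000000000300020001000000000000000200000000))) (.non (nat_lit 1) (nat_lit 5) (nat_lit 0x810050) (nat_lit 0x100000000000100000000000000000001000200000000))) (.non (nat_lit 1) (nat_lit 5) (nat_lit 0x42a010) (nat_lit 0x200000000000300020001000000000000000400000000))) (.non (nat_lit 2) (nat_lit 5) (nat_lit 0x240005) (nat_lit 0x10001000000000000000000000000000000010002))) (.non (nat_lit 2) (nat_lit 5) (nat_lit 0x180005) (nat_lit 0x10001000000000000000000000000000000010002))) (.split (nat_lit 0xc) (nat_lit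 0) (.split (nat_lit 0xc) (nat_lit 1) (.split (nat_lit 0xc) (nat_lit 2) (.split (nat_lit 0xc) (nat_lit 3) (.split (nat_lit 0xc) (nat_lit 7) (.split (nat_lit 0xc) (nat_lit 8) (.split (nat_lit 0xc) (nat_lit 9) (.split (nat_lit 0xc) (nat_lit 0xa) (.split (nat_lit 0xc) (nat_lit 0xb) (.split (nat_lit 0xc) (nat_lit 4) (.split (nat_lit 0xc) (nat_lit 5) (.unj (nat_lit 0x55) (nat_lit 0x1000200020001) (nat_lit 0x1005500) (nat_lit 0x1000000000000000000010002000200020000000000000000)) (.unj (nat_lit 0x10014) (nat_lit 0x100000000000000000000000100010000) (nat_lit 0x1001400) (nat_lit 0x1000000000000000000000001000100000000000000000000))) (.split (nat_lit 0xc) (nat_lit 5) (.unj (nat_lit 0x10014) (nat_lit 0x100000000000000000000000100010000) (nat_lit 0x1001500) (nat_lit 0x1000000000000000000000001000100010000000000000000)) (.non (nat_lit 1) (nat_lit 6) (nat_lit 0x1000500) (nat_lit 0x1000000000000000000000000000100010000000000000000)))) (.non (nat_lit 1) (nat_lit 5) (nat_lit 0x1415010) (nat_lit 0x1000100000000000100010001000000000000000100000000)))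 (.non (nat_lit 2) (nat_lit 5) (nat_lit 0x1115005) (nat_lit 0x1000000010000000100010001000000000000000000010001))) (.non (nat_lit 2) (nat_lit 5) (nat_lit 0x1055005) (nat_lit 0x1000000000001000100010001000000000000000000010001))) (.non (nat_lit 1) (nat_lit 5) (nat_lit 0x1015000) (nat_lit 0x1000000000000000100010001000000000000000000000000))) (.non (nat_lit 1) (nat_lit 5) (nat_lit 0x1005000) (nat_lit 0x1000000000000000000010001000000000000000000000000))) (.non (nat_lit 1) (nat_lit 5) (nat_lit 0x1015050) (nat_lit 0x1000000000000000100010001000000000001000100000000))) (.star (nat_lit 0xc) (nat_lit 2) (nat_lit 6))) (.star (nat_lit 0xc) (nat_lit 1) (nat_lit 6))) (.non (nat_lit 1) (nat_lit 5) (nat_lit 0x1555051) (nat_lit 0x2000100010001000200020002000000000001000200000002))))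

noncomputable def t761_125 : Tr := (.ex (nat_lit 4) (.ex (nat_lit 5) t761_124 (.split (nat_lit 0xc) (nat_lit 0) (.split (nat_lit 0xc) (nat_lit 1) (.split (nat_lit 0xc) (nat_lit 2) (.split (nat_lit 0xc) (nat_lit 3) (.split (nat_lit 0xc) (nat_lit 4) (.split (nat_lit 0xc) (nat_lit 7) (.split (nat_lit 0xc) (nat_lit 8) (.split (nat_lit 0xc) (nat_lit 9) (.split (nat_lit 0xc) (nat_lit 0xa) (.split (nat_lit 0xc) (nat_lit 0xb) (.split (nat_lit 0xc) (nat_lit 6) (.unj (nat_lit 0x10014) (nat_lit 0x100000000000000000000000100010000) (nat_lit 0x1001500) (nat_lit 0x1000000000000000000000001000200020000000000000000)) (.unj (nat_lit 0x10014) (nat_lit 0x100000000000000000000000100010000) (nat_lit 0x1001400) (nat_lit 0x1000000000000000000000001000100000000000000000000))) (.non (nat_lit 1) (nat_lit 6) (nat_lit 0x1400510) (nat_lit 0x3000200000000000000000000000400030000000100000000))) (.non (nat_lit 1) (nat_lit 6) (nat_lit 0x1100501) (nat_lit 0x3000000020000000000000000000400030000000000000001))) (.non (nat_lit 1) (nat_lit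 6) (nat_lit 0x1040501) (nat_lit 0x3000000000002000000000000000400030000000000000001))) (.non (nat_lit 1) (nat_lit 5) (nat_lit 0x1414050) (nat_lit 0x1000100000000000200010000000000000001000200000000))) (.non (nat_lit 1) (nat_lit 5) (nat_lit 0x1415050) (nat_lit 0x1000100000000000200020001000000000001000200000000))) (.non (nat_lit 1) (nat_lit 6) (nat_lit 0x1000500) (nat_lit 0x1000000000000000000000000000100010000000000000000))) (.non (nat_lit 1) (nat_lit 6) (nat_lit 0x1000550) (nat_lit 0x3000000000000000000000000000400030002000100000000))) (.star (nat_lit 0xc) (nat_lit 2) (nat_lit 5))) (.star (nat_lit 0xc) (nat_lit 1) (nat_lit 5))) (.non (nat_lit 1) (nat_lit 6) (nat_lit 0x1100501) (nat_lit 0x3000000010000000000000000000400030000000000000002)))) (.split (nat_lit 0xc) (nat_lit 0) (.split (nat_lit 0xc) (nat_lit 1) (.split (nat_lit 0xc) (nat_lit 2) (.split (nat_lit 0xc) (nat_lit 3) (.split (nat_lit 0xc) (nat_lit 5) (.split (nat_lit 0xc) (nat_lit 7) (.split (nat_lit 0xc) (nat_lit 8) (.split (nat_lit 0xc) (nat_lit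 9) (.split (nat_lit 0xc) (nat_lit 0xa) (.split (nat_lit 0xc) (nat_lit 0xb) (.split (nat_lit 0xc) (nat_lit 6) (.unj (nat_lit 0x10014) (nat_lit 0x100000000000000000000000100010000) (nat_lit 0x1001500) (nat_lit 0x1000000000000000000000001000200020000000000000000)) (.unj (nat_lit 0x10014) (nat_lit 0x100000000000000000000000100010000) (nat_lit 0x1001500) (nat_lit 0x1000000000000000000000001000100010000000000000000))) (.non (nat_lit 1) (nat_lit 5) (nat_lit 0x1415150) (nat_lit 0x2000300000000000300020001000000010002000400000000))) (.non (nat_lit 1) (nat_lit 6) (nat_lit 0x1100501) (nat_lit 0x3000000020000000000000000000300040000000000000001))) (.non (nat_lit 1) (nat_lit 6) (nat_lit 0x1040501) (nat_lit 0x3000000000002000000000000000300040000000000000001))) (.non (nat_lit 1) (nat_lit 5) (nat_lit 0x1415110) (nat_lit 0x2000100000000000300020001000000010000000200000000))) (.non (nat_lit 1) (nat_lit 5) (nat_lit 0x1415050) (nat_lit 0x1000100000000000200020001000000000001000200000000))) (.non (nat_lit 1) (nat_lit 6)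 (nat_lit 0x1000500) (nat_lit 0x1000000000000000000000000000100010000000000000000))) (.non (nat_lit 1) (nat_lit 5) (nat_lit 0x1415150) (nat_lit 0x2000200000000000300020001000000010003000400000000))) (.non (nat_lit 1) (nat_lit 5) (nat_lit 0x1410050) (nat_lit 0x1000100000000000100000000000000000001000200000000))) (.non (nat_lit 2) (nat_lit 5) (nat_lit 0x1150005) (nat_lit 0x1000000010001000100000000000000000000000000020002))) (.non (nat_lit 1) (nat_lit 6) (nat_lit 0x1100501) (nat_lit 0x3000000010000000000000000000300040000000000000002))))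

noncomputable def t761_126 : Tr := (.split (nat_lit 0xa) (nat_lit 3) (.st (nat_lit 1) (nat_lit 2) (nat_lit 5) (nat_lit 0x150005) (nat_lit 0x10001000100000000000000000000000000020002) (nat_lit 1) (nat_lit 1) (.st (nat_lit 7) (nat_lit 2) (nat_lit 5) (nat_lit 0x155005) (nat_lit 0x10001000200020001000000000000000000020002) (nat_lit 1) (nat_lit 1) (.st (nat_lit 8) (nat_lit 2) (nat_lit 5) (nat_lit 0x154005) (nat_lit 0x10001000200010000000000000000000000020002) (nat_lit 1) (nat_lit 1) (.ex (nat_lit 2) (.ex (nat_lit 3) t761_117 (.split (nat_lit 0xb) (nat_lit 0) (.split (nat_lit 0xb) (nat_lit 1) (.split (nat_lit 0xb) (nat_lit 2) (.split (nat_lit 0xb) (nat_lit 4) t761_123 (.non (nat_lit 1) (nat_lit 6) (nat_lit 0x400550) (nat_lit 0x300000000000000000000000300040002000100000000))) (.non (nat_lit 1) (nat_lit 5) (nat_lit 0x400050) (nat_lit 0x100000000000000000000000000000001000100000000))) (.non (nat_lit 2) (nat_lit 5) (nat_lit 0x550005) (nat_lit 0x100010001000100000000000000000000000000020002))) (.non (nat_lit 2)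 (nat_lit 5) (nat_lit 0x540005) (nat_lit 0x100010001000000000000000000000000000000010002)))) (.split (nat_lit 0xb) (nat_lit 0) (.split (nat_lit 0xb) (nat_lit 1) (.split (nat_lit 0xb) (nat_lit 3) (.split (nat_lit 0xb) (nat_lit 4) (.split (nat_lit 0xb) (nat_lit 5) (.split (nat_lit 0xb) (nat_lit 6) (.split (nat_lit 0xb) (nat_lit 7) (.split (nat_lit 0xb) (nat_lit 8) (.split (nat_lit 0xb) (nat_lit 9) (.split (nat_lit 0xb) (nat_lit 0xa) t761_125 (.non (nat_lit 1) (nat_lit 5) (nat_lit 0x515051) (nat_lit 0x300020000000300020001000000000002000400000001))) (.non (nat_lit 1) (nat_lit 5) (nat_lit 0x455051) (nat_lit 0x300000002000300020001000000000002000400000001))) (.non (nat_lit 1) (nat_lit 5) (nat_lit 0x410010) (nat_lit 0x100000000000100000000000000000000000100000000))) (.non (nat_lit 1) (nat_lit 5) (nat_lit 0x414010) (nat_lit 0x100000000000100010000000000000000000100000000))) (.star (nat_lit 0xb) (nat_lit 2) (nat_lit 6))) (.star (nat_lit 0xb) (nat_lit 2) (nat_lit 5))) (.non (nat_lit 1) (nat_lit 6) (nat_lit 0x410510)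 (nat_lit 0x300000000000100000000000300040000000200000000))) (.non (nat_lit 1) (nat_lit 5) (nat_lit 0x400050) (nat_lit 0x100000000000000000000000000000001000100000000))) (.non (nat_lit 2) (nat_lit 5) (nat_lit 0x550005) (nat_lit 0x100010001000100000000000000000000000000020002))) (.non (nat_lit 1) (nat_lit 5) (nat_lit 0x550051) (nat_lit 0x200010001000100000000000000000001000200000002))))))) (.split (nat_lit 0xa) (nat_lit 0) (.split (nat_lit 0xa) (nat_lit 3) (.split (nat_lit 9) (nat_lit 0) (.split (nat_lit 8) (nat_lit 1) (.split (nat_lit 8) (nat_lit 2) (.sup (nat_lit 0x3000d00160020001a0000000000000000) (nat_lit 0x40003000000000000000000000004000300030005)) (.non (nat_lit 1) (nat_lit 5) (nat_lit 0x128050) (nat_lit 0x10000000200010000000000000002000300000000))) (.non (nat_lit 2) (nat_lit 5) (nat_lit 0x160005) (nat_lit 0x10001000100000000000000000000000000020002))) (.non (nat_lit 2) (nat_lit 5) (nat_lit 0x180005) (nat_lit 0x10001000000000000000000000000000000010002))) (.non (nat_lit 1) (nat_lit 5) (nat_lit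 0x1400a1) (nat_lit 0x30001000000000000000000000002000100000002))) (.non (nat_lit 1) (nat_lit 5) (nat_lit 0x2400a1) (nat_lit 0x30002000000000000000000000002000100000004))))

noncomputable def t761_127 : Tr := (.ex (nat_lit 8) (.split (nat_lit 8) (nat_lit 7) (.pd (.cons (nat_lit 1) (nat_lit 4) (nat_lit 0) (nat_lit 0x287609300) (nat_lit 0x8b82198965a2c28b71aef423f000008e6a2927bd0000089540) (.cons (nat_lit 2) (nat_lit 4) (nat_lit 0) (nat_lit 0x187609000) (nat_lit 0xb71ae98965a2c28b71aef423f00000f423f00000927bd3d08b) .nil)) (.ex (nat_lit 9) (.pd (.cons (nat_lit 0) (nat_lit 8) (nat_lit 0) (nat_lit 0x3065442110) (nat_lit 0xf423f00000f423fb71aea2c2804737b71aea2c280473700000) (.cons (nat_lit 3) (nat_lit 8) (nat_lit 0) (nat_lit 0x65440100) (nat_lit 0xf423f00000f423fb71aea2c280473700000f423f5459106711) .nil)) (.leaf (.cons (nat_lit 0x10014) (nat_lit 0x100000000000000000000000100010000) .nil) .nil)) (.split (nat_lit 0xa) (nat_lit 0) (.split (nat_lit 0xa) (nat_lit 1) (.split (nat_lit 0xa) (nat_lit 2) (.split (nat_lit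 0xa) (nat_lit 3) (.split (nat_lit 0xa) (nat_lit 4) (.split (nat_lit 0xa) (nat_lit 5) (.split (nat_lit 0xa) (nat_lit 6) (.split (nat_lit 0xa) (nat_lit 7) (.split (nat_lit 0xa) (nat_lit 8) (.sup (nat_lit 0x3000d00160020001a0000000000000000) (nat_lit 0x30006000000000000000000000005000300030005)) (.non (nat_lit 1) (nat_lit 5) (nat_lit 0x150050) (nat_lit 0x10001000100000000000000000001000100000000))) (.non (nat_lit 1) (nat_lit 5) (nat_lit 0x154050) (nat_lit 0x10001000100010000000000000001000100000000))) (.non (nat_lit 1) (nat_lit 5) (nat_lit 0x155050) (nat_lit 0x10001000100010001000000000001000100000000))) (.non (nat_lit 1) (nat_lit 6) (nat_lit 0x140540) (nat_lit 0x30002000000000000000400030001000000000000))) (.non (nat_lit 1) (nat_lit 5) (nat_lit 0x155151) (nat_lit 0x40006000300020001000000020005000400000003))) (.non (nat_lit 1) (nat_lit 5) (nat_lit 0x140040) (nat_lit 0x10001000000000000000000000001000000000000))) (.non (nat_lit 1) (nat_lit 5) (nat_lit 0x140050) (nat_lit 0x10001000000000000000000000001000100000000)))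 (.non (nat_lit 2) (nat_lit 5) (nat_lit 0x140005) (nat_lit 0x10001000000000000000000000000000000010001))) (.non (nat_lit 1) (nat_lit 5) (nat_lit 0x140001) (nat_lit 0x10001000000000000000000000000000000000001))))) (.non (nat_lit 1) (nat_lit 5) (nat_lit 0x1a050) (nat_lit 0x300020001000000000001000200000000))) (.split (nat_lit 0xa) (nat_lit 0) (.split (nat_lit 0xa) (nat_lit 1) (.split (nat_lit 0xa) (nat_lit 2) (.split (nat_lit 0xa) (nat_lit 3) (.split (nat_lit 0xa) (nat_lit 4) (.split (nat_lit 0xa) (nat_lit 5) (.split (nat_lit 0xa) (nat_lit 6) (.split (nat_lit 0xa) (nat_lit 7) (.split (nat_lit 0xa) (nat_lit 9) (.sup (nat_lit 0x100000003000c00160020001a0000000000000000) (nat_lit 0x4000000000000000000000004000400040004)) (.non (nat_lit 1) (nat_lit 5) (nat_lit 0x150050) (nat_lit 0x10001000100000000000000000001000100000000))) (.non (nat_lit 1) (nat_lit 5) (nat_lit 0x114000) (nat_lit 0x10000000100010000000000000000000000000000))) (.non (nat_lit 1) (nat_lit 5) (nat_lit 0x115000) (nat_lit 0x10000000100010001000000000000000000000000)))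 (.non (nat_lit 1) (nat_lit 6) (nat_lit 0x114500) (nat_lit 0x30000000200010000000400030000000000000000))) (.non (nat_lit 1) (nat_lit 5) (nat_lit 0x115150) (nat_lit 0x20000000300020001000000010001000200000000))) (.non (nat_lit 1) (nat_lit 5) (nat_lit 0x110050) (nat_lit 0x10000000100000000000000000001000100000000))) (.non (nat_lit 1) (nat_lit 5) (nat_lit 0x110010) (nat_lit 0x10000000100000000000000000000000100000000))) (.non (nat_lit 2) (nat_lit 5) (nat_lit 0x110004) (nat_lit 0x10000000100000000000000000000000000010000))) (.non (nat_lit 1) (nat_lit 5) (nat_lit 0x150051) (nat_lit 0x10001000100000000000000000001000100000001))))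

noncomputable def t761_128 : Tr := (.ex (nat_lit 6) (.split (nat_lit 9) (nat_lit 0) (.split (nat_lit 8) (nat_lit 2) (.split (nat_lit 9) (nat_lit 3) (.split (nat_lit 8) (nat_lit 1) (.pd (.cons (nat_lit 1) (nat_lit 7) (nat_lit 0) (nat_lit 0x205449300) (nat_lit 0x98965f423f00000f423fb71ae1f156a2c28b71ae00000927bd) (.cons (nat_lit 2) (nat_lit 7) (nat_lit 0) (nat_lit 0x105449000) (nat_lit 0xb71aef423f00000f423fb71ae1f156f423f00000b71ae51611) .nil)) (.ex (nat_lit 7) (.pd (.cons (nat_lit 1) (nat_lit 8) (nat_lit 0) (nat_lit 0x65449300) (nat_lit 0xa2c2800000f423fb71aea2c2804737b71aef423f0000098965) (.cons (nat_lit 2) (nat_lit 8) (nat_lit 0) (nat_lit 0x65449000) (nat_lit 0xb71ae00000f423fb71aea2c2804737f423f00000f423f65b97) .nil)) t761_127) (.split (nat_lit 0xa) (nat_lit 0) (.split (nat_lit 0xa) (nat_lit 1) (.split (nat_lit 0xa) (nat_lit 2) (.split (nat_lit 0xa) (nat_lit 3) (.split (nat_lit 0xa) (nat_lit 4) (.split (nat_lit 0xa) (nat_lit 5) (.split (nat_lit 0xa) (nat_lit 6) (.split (nat_lit 0xa) (nat_lit 8) (.split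 (nat_lit 0xa) (nat_lit 9) (.unj (nat_lit 0x55) (nat_lit 0x1000200020001) (nat_lit 0x105500) (nat_lit 0x10000000000020003000400030000000000000000)) (.non (nat_lit 1) (nat_lit 5) (nat_lit 0x154050) (nat_lit 0x10001000100010000000000000001000100000000))) (.non (nat_lit 1) (nat_lit 5) (nat_lit 0x114000) (nat_lit 0x10000000100010000000000000000000000000000))) (.non (nat_lit 1) (nat_lit 5) (nat_lit 0x105000) (nat_lit 0x10000000000010001000000000000000000000000))) (.non (nat_lit 1) (nat_lit 6) (nat_lit 0x114500) (nat_lit 0x30000000100020000000400030000000000000000))) (.non (nat_lit 1) (nat_lit 5) (nat_lit 0x155151) (nat_lit 0x40002000500060003000000020003000400000001))) (.non (nat_lit 1) (nat_lit 5) (nat_lit 0x114050) (nat_lit 0x10000000100010000000000000001000100000000))) (.non (nat_lit 1) (nat_lit 5) (nat_lit 0x114010) (nat_lit 0x10000000100010000000000000000000100000000))) (.non (nat_lit 2) (nat_lit 5) (nat_lit 0x114004) (nat_lit 0x10000000100010000000000000000000000010000))) (.non (nat_lit 1) (nat_lit 5)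 (nat_lit 0x154051) (nat_lit 0x10001000100010000000000000001000100000001))))) (.non (nat_lit 2) (nat_lit 5) (nat_lit 0x68005) (nat_lit 0x1000200010000000000000000000000030002))) (.non (nat_lit 1) (nat_lit 5) (nat_lit 0x600a1) (nat_lit 0x4000100000000000000000003000200000002))) (.non (nat_lit 1) (nat_lit 5) (nat_lit 0x68050) (nat_lit 0x1000200010000000000000002000300000000))) (.non (nat_lit 2) (nat_lit 5) (nat_lit 0x90085) (nat_lit 0x2000100000000000000000001000000020003))) (.split (nat_lit 0xa) (nat_lit 0) (.split (nat_lit 0xa) (nat_lit 1) (.split (nat_lit 0xa) (nat_lit 2) (.split (nat_lit 0xa) (nat_lit 3) (.split (nat_lit 0xa) (nat_lit 7) (.split (nat_lit 0xa) (nat_lit 8) (.split (nat_lit 0xa) (nat_lit 9) (.split (nat_lit 0xa) (nat_lit 4) (.split (nat_lit 0xa) (nat_lit 5) (.unj (nat_lit 0x55) (nat_lit 0x1000200020001) (nat_lit 0x105500) (nat_lit 0x10000000000010002000200020000000000000000)) (.unj (nat_lit 0x10014) (nat_lit 0x100000000000000000000000100010000) (nat_lit 0x101400) (nat_lit 0x10000000000000001000100000000000000000000)))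 (.split (nat_lit 0xa) (nat_lit 5) (.unj (nat_lit 0x10014) (nat_lit 0x100000000000000000000000100010000) (nat_lit 0x101500) (nat_lit 0x10000000000000001000100010000000000000000)) (.non (nat_lit 1) (nat_lit 6) (nat_lit 0x100500) (nat_lit 0x10000000000000000000100010000000000000000)))) (.non (nat_lit 1) (nat_lit 5) (nat_lit 0x155050) (nat_lit 0x10001000100010001000000000001000100000000))) (.non (nat_lit 1) (nat_lit 5) (nat_lit 0x115000) (nat_lit 0x10000000100010001000000000000000000000000))) (.non (nat_lit 1) (nat_lit 5) (nat_lit 0x105000) (nat_lit 0x10000000000010001000000000000000000000000))) (.non (nat_lit 1) (nat_lit 5) (nat_lit 0x115050) (nat_lit 0x10000000100010001000000000001000100000000))) (.star (nat_lit 0xa) (nat_lit 2) (nat_lit 6))) (.star (nat_lit 0xa) (nat_lit 1) (nat_lit 6))) (.non (nat_lit 1) (nat_lit 5) (nat_lit 0x155051) (nat_lit 0x10001000100010001000000000001000100000001))))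

noncomputable def t761_129 : Tr := (.ex (nat_lit 4) (.ex (nat_lit 5) t761_128 (.split (nat_lit 0xa) (nat_lit 0) (.split (nat_lit 0xa) (nat_lit 1) (.split (nat_lit 0xa) (nat_lit 2) (.split (nat_lit 0xa) (nat_lit 3) (.split (nat_lit 0xa) (nat_lit 4) (.split (nat_lit 0xa) (nat_lit 7) (.split (nat_lit 0xa) (nat_lit 8) (.split (nat_lit 0xa) (nat_lit 9) (.split (nat_lit 0xa) (nat_lit 6) (.unj (nat_lit 0x10014) (nat_lit 0x100000000000000000000000100010000) (nat_lit 0x101500) (nat_lit 0x10000000000000001000200020000000000000000)) (.unj (nat_lit 0x10014) (nat_lit 0x100000000000000000000000100010000) (nat_lit 0x101400) (nat_lit 0x10000000000000001000100000000000000000000))) (.non (nat_lit 1) (nat_lit 6) (nat_lit 0x140540) (nat_lit 0x30002000000000000000400030001000000000000))) (.non (nat_lit 1) (nat_lit 6) (nat_lit 0x114500) (nat_lit 0x30000000200010000000400030000000000000000))) (.non (nat_lit 1) (nat_lit 6) (nat_lit 0x114500) (nat_lit 0x30000000100020000000400030000000000000000))) (.non (nat_lit 1) (nat_lit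 6) (nat_lit 0x100500) (nat_lit 0x10000000000000000000100010000000000000000))) (.non (nat_lit 1) (nat_lit 6) (nat_lit 0x140540) (nat_lit 0x30001000000000000000400030002000000000000))) (.star (nat_lit 0xa) (nat_lit 2) (nat_lit 5))) (.star (nat_lit 0xa) (nat_lit 1) (nat_lit 5))) (.non (nat_lit 1) (nat_lit 6) (nat_lit 0x140501) (nat_lit 0x30001000000000000000400030000000000000002)))) (.split (nat_lit 0xa) (nat_lit 0) (.split (nat_lit 0xa) (nat_lit 1) (.split (nat_lit 0xa) (nat_lit 2) (.split (nat_lit 0xa) (nat_lit 3) (.split (nat_lit 0xa) (nat_lit 5) (.split (nat_lit 0xa) (nat_lit 7) (.split (nat_lit 0xa) (nat_lit 8) (.split (nat_lit 0xa) (nat_lit 9) (.split (nat_lit 0xa) (nat_lit 6) (.unj (nat_lit 0x10014) (nat_lit 0x100000000000000000000000100010000) (nat_lit 0x101500) (nat_lit 0x10000000000000001000200020000000000000000)) (.unj (nat_lit 0x10014) (nat_lit 0x100000000000000000000000100010000) (nat_lit 0x101500) (nat_lit 0x10000000000000001000100010000000000000000))) (.non (nat_lit 1) (nat_lit 5) (nat_lit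 0x155151) (nat_lit 0x40006000300020001000000020005000400000003))) (.non (nat_lit 1) (nat_lit 5) (nat_lit 0x115150) (nat_lit 0x20000000300020001000000010001000200000000))) (.non (nat_lit 1) (nat_lit 5) (nat_lit 0x155151) (nat_lit 0x40002000500060003000000020003000400000001))) (.non (nat_lit 1) (nat_lit 6) (nat_lit 0x100500) (nat_lit 0x10000000000000000000100010000000000000000))) (.non (nat_lit 1) (nat_lit 5) (nat_lit 0x150151) (nat_lit 0x20002000100000000000000010003000200000001))) (.non (nat_lit 1) (nat_lit 5) (nat_lit 0x154150) (nat_lit 0x20001000200010000000000010002000300000000))) (.non (nat_lit 2) (nat_lit 5) (nat_lit 0x154105) (nat_lit 0x20001000200010000000000010000000000030002))) (.non (nat_lit 1) (nat_lit 6) (nat_lit 0x140501) (nat_lit 0x30001000000000000000300040000000000000002))))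

noncomputable def t761_130 : Tr := (.ex (nat_lit 0) (.ex (nat_lit 3) t761_129 (.split (nat_lit 0xa) (nat_lit 0) (.split (nat_lit 0xa) (nat_lit 1) (.split (nat_lit 0xa) (nat_lit 2) (.split (nat_lit 0xa) (nat_lit 4) (.split (nat_lit 0xa) (nat_lit 5) (.split (nat_lit 0xa) (nat_lit 6) (.split (nat_lit 0xa) (nat_lit 7) (.split (nat_lit 0xa) (nat_lit 8) (.split (nat_lit 0xa) (nat_lit 9) (.split (nat_lit 0xa) (nat_lit 3) (.split (nat_lit 9) (nat_lit 0) (.split (nat_lit 9) (nat_lit 3) (.split (nat_lit 8) (nat_lit 1) (.split (nat_lit 8) (nat_lit 2) (.sup (nat_lit 0x3000d00160020001a0000000000000000) (nat_lit 0x30004000000000000000000000005000300030004)) (.non (nat_lit 1) (nat_lit 5) (nat_lit 0x160050) (nat_lit 0x10001000100000000000000000002000200000000))) (.non (nat_lit 2) (nat_lit 5) (nat_lit 0x68005) (nat_lit 0x1000200010000000000000000000000030002))) (.non (nat_lit 1) (nat_lit 5) (nat_lit 0x180050) (nat_lit 0x10001000000000000000000000002000100000000))) (.non (nat_lit 1) (nat_lit 5) (nat_lit 0x2800a1) (nat_lit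 0x10002000000000000000000000002000100000002))) (.non (nat_lit 1) (nat_lit 5) (nat_lit 0x240050) (nat_lit 0x10001000000000000000000000002000100000000))) (.non (nat_lit 1) (nat_lit 5) (nat_lit 0x140040) (nat_lit 0x10001000000000000000000000001000000000000))) (.non (nat_lit 1) (nat_lit 5) (nat_lit 0x110050) (nat_lit 0x10000000100000000000000000001000100000000))) (.non (nat_lit 1) (nat_lit 5) (nat_lit 0x114050) (nat_lit 0x10000000100010000000000000001000100000000))) (.non (nat_lit 1) (nat_lit 5) (nat_lit 0x115050) (nat_lit 0x10000000100010001000000000001000100000000))) (.non (nat_lit 1) (nat_lit 6) (nat_lit 0x140540) (nat_lit 0x30001000000000000000400030002000000000000))) (.non (nat_lit 1) (nat_lit 5) (nat_lit 0x150151) (nat_lit 0x20002000100000000000000010003000200000001))) (.non (nat_lit 1) (nat_lit 5) (nat_lit 0x100050) (nat_lit 0x10000000000000000000000000001000100000000))) (.non (nat_lit 2) (nat_lit 5) (nat_lit 0x140045) (nat_lit 0x10001000000000000000000000001000000010001))) (.non (nat_lit 1) (nat_lit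 5) (nat_lit 0x140041) (nat_lit 0x10001000000000000000000000001000000000001)))) (.split (nat_lit 0xa) (nat_lit 1) (.split (nat_lit 0xa) (nat_lit 2) (.split (nat_lit 0xa) (nat_lit 3) (.split (nat_lit 0xa) (nat_lit 4) (.split (nat_lit 0xa) (nat_lit 5) (.split (nat_lit 0xa) (nat_lit 6) (.split (nat_lit 0xa) (nat_lit 7) (.split (nat_lit 0xa) (nat_lit 8) (.split (nat_lit 0xa) (nat_lit 9) (.split (nat_lit 0xa) (nat_lit 0) (.split (nat_lit 9) (nat_lit 0) (.split (nat_lit 9) (nat_lit 3) (.split (nat_lit 8) (nat_lit 1) (.split (nat_lit 8) (nat_lit 2) (.sup (nat_lit 0x3000d00160020001a0000000000000000) (nat_lit 0x30004000000000000000000000004000300030005)) (.non (nat_lit 1) (nat_lit 5) (nat_lit 0x68050) (nat_lit 0x1000200010000000000000002000300000000))) (.non (nat_lit 2) (nat_lit 5) (nat_lit 0x160005) (nat_lit 0x10001000100000000000000000000000000020002))) (.non (nat_lit 1) (nat_lit 5) (nat_lit 0x1400a1) (nat_lit 0x10003000000000000000000000002000100000002))) (.non (nat_lit 1) (nat_lit 5) (nat_lit 0x1800a1) (nat_lit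 0x20003000000000000000000000002000100000004))) (.non (nat_lit 2) (nat_lit 5) (nat_lit 0x240005) (nat_lit 0x10001000000000000000000000000000000010002))) (.non (nat_lit 1) (nat_lit 5) (nat_lit 0x140001) (nat_lit 0x10001000000000000000000000000000000000001))) (.non (nat_lit 1) (nat_lit 5) (nat_lit 0x150051) (nat_lit 0x10001000100000000000000000001000100000001))) (.non (nat_lit 1) (nat_lit 5) (nat_lit 0x154051) (nat_lit 0x10001000100010000000000000001000100000001))) (.non (nat_lit 1) (nat_lit 5) (nat_lit 0x155051) (nat_lit 0x10001000100010001000000000001000100000001))) (.non (nat_lit 1) (nat_lit 6) (nat_lit 0x140501) (nat_lit 0x30001000000000000000400030000000000000002))) (.non (nat_lit 1) (nat_lit 6) (nat_lit 0x140501) (nat_lit 0x30001000000000000000300040000000000000002))) (.non (nat_lit 1) (nat_lit 5) (nat_lit 0x140041) (nat_lit 0x10001000000000000000000000001000000000001))) (.non (nat_lit 1) (nat_lit 5) (nat_lit 0x140051) (nat_lit 0x10001000000000000000000000001000100000001))) (.non (nat_lit 2) (nat_lit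 5) (nat_lit 0x100005) (nat_lit 0x10000000000000000000000000000000000010001))))

noncomputable def t761_131 : Tr := (.split (nat_lit 9) (nat_lit 7) (.split (nat_lit 9) (nat_lit 8) (.split (nat_lit 9) (nat_lit 2) (.split (nat_lit 9) (nat_lit 3) (.ex (nat_lit 0) t761_115 (.split (nat_lit 0xa) (nat_lit 1) (.split (nat_lit 0xa) (nat_lit 2) (.split (nat_lit 0xa) (nat_lit 4) (.split (nat_lit 0xa) (nat_lit 5) (.split (nat_lit 0xa) (nat_lit 6) (.split (nat_lit 0xa) (nat_lit 7) (.split (nat_lit 0xa) (nat_lit 8) (.split (nat_lit 0xa) (nat_lit 9) t761_126 (.non (nat_lit 1) (nat_lit 5) (nat_lit 0x140001) (nat_lit 0x10001000000000000000000000000000000000001))) (.non (nat_lit 1) (nat_lit 5) (nat_lit 0x115051) (nat_lit 0x20000000300020001000000000001000200000001))) (.non (nat_lit 1) (nat_lit 5) (nat_lit 0x155051) (nat_lit 0x30001000300040002000000000001000200000002))) (.non (nat_lit 2) (nat_lit 5) (nat_lit 0x115005) (nat_lit 0x10000000100010001000000000000000000010001))) (.non (nat_lit 1) (nat_lit 6) (nat_lit 0x140501)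 (nat_lit 0x30001000000000000000400030000000000000002))) (.non (nat_lit 1) (nat_lit 6) (nat_lit 0x140501) (nat_lit 0x30001000000000000000300040000000000000002))) (.non (nat_lit 1) (nat_lit 5) (nat_lit 0x155051) (nat_lit 0x30001000300020001000000000002000400000002))) (.non (nat_lit 2) (nat_lit 5) (nat_lit 0x100005) (nat_lit 0x10000000000000000000000000000000000010001)))) (.st (nat_lit 1) (nat_lit 2) (nat_lit 5) (nat_lit 0x55045) (nat_lit 0x2000300020001000000000001000000040003) (nat_lit 1) (nat_lit 2) (.st (nat_lit 2) (nat_lit 1) (nat_lit 5) (nat_lit 0x55051) (nat_lit 0x2000300020001000000000003000400000001) (nat_lit 1) (nat_lit 2) t761_130))) (.split (nat_lit 9) (nat_lit 3) (.split (nat_lit 9) (nat_lit 0) (.split (nat_lit 9) (nat_lit 2) (.split (nat_lit 8) (nat_lit 1) (.split (nat_lit 8) (nat_lit 2) (.sup (nat_lit 0x10006000b0010000d0000000000000000) (nat_lit 0x2000000000000000000000001000200020002)) (.non (nat_lit 1) (nat_lit 5) (nat_lit 0x6a010) (nat_lit 0x2000300020001000000000000000400000000))) (.non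 (nat_lit 2) (nat_lit 5) (nat_lit 0x68005) (nat_lit 0x1000200010000000000000000000000030002))) (.non (nat_lit 1) (nat_lit 5) (nat_lit 0x90050) (nat_lit 0x1000100000000000000000001000200000000))) (.non (nat_lit 1) (nat_lit 5) (nat_lit 0xa00a1) (nat_lit 0x2000100000000000000000001000200000002))) (.non (nat_lit 1) (nat_lit 5) (nat_lit 0x40050) (nat_lit 0x1000000000000000000000001000100000000)))) (.non (nat_lit 1) (nat_lit 5) (nat_lit 0x55051) (nat_lit 0x2000300020001000000000001000200000001))) (.non (nat_lit 2) (nat_lit 5) (nat_lit 0x54005) (nat_lit 0x1000100010000000000000000000000010001)))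

noncomputable def t761_132 : Tr := (.split (nat_lit 8) (nat_lit 2) (.split (nat_lit 8) (nat_lit 3) t761_70 (.split (nat_lit 7) (nat_lit 3) (.split (nat_lit 4) (nat_lit 3) (.st (nat_lit 1) (nat_lit 2) (nat_lit 5) (nat_lit 0x14045) (nat_lit 0x200010000000000000001000000020001) (nat_lit 1) (nat_lit 1) (.st (nat_lit 3) (nat_lit 2) (nat_lit 5) (nat_lit 0x15045) (nat_lit 0x300020001000000000002000000020001) (nat_lit 1) (nat_lit 1) (.st (nat_lit 7) (nat_lit 2) (nat_lit 5) (nat_lit 0x15044) (nat_lit 0x200020001000000000001000000010000) (nat_lit 1) (nat_lit 1) (.st (nat_lit 8) (nat_lit 2) (nat_lit 5) (nat_lit 0x14044) (nat_lit 0x200010000000000000001000000010000) (nat_lit 1) (nat_lit 1) (.ex (nat_lit 0) t761_72 (.split (nat_lit 9) (nat_lit 1) (.split (nat_lit 9) (nat_lit 3) (.split (nat_lit 9) (nat_lit 4) (.split (nat_lit 9) (nat_lit 5) (.split (nat_lit 9) (nat_lit 6) (.split (nat_lit 9) (nat_lit 7) (.split (nat_lit 9) (nat_lit 8) (.split (nat_lit 9) (nat_lit 2) (.split (nat_lit 9) (nat_lit 0) (.split (nat_lit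 8) (nat_lit 1) (.split (nat_lit 8) (nat_lit 3) (.split (nat_lit 8) (nat_lit 7) (.par (nat_lit 0x55445) (nat_lit 0x1000400030002000100000002000000030002)) (.non (nat_lit 1) (nat_lit 5) (nat_lit 0x1a050) (nat_lit 0x300020001000000000002000100000000))) (.non (nat_lit 1) (nat_lit 5) (nat_lit 0x2a050) (nat_lit 0x300020001000000000004000200000000))) (.non (nat_lit 2) (nat_lit 5) (nat_lit 0x28084) (nat_lit 0x200010000000000000001000000020000))) (.non (nat_lit 2) (nat_lit 5) (nat_lit 0x94045) (nat_lit 0x1000200010000000000000001000000020002))) (.sup (nat_lit 0x9000000000000000000000000000a00070008) (nat_lit 0x100040007000a00080000000000000000))) (.non (nat_lit 1) (nat_lit 5) (nat_lit 0x55051) (nat_lit 0x2000300020001000000000002000100000001))) (.non (nat_lit 2) (nat_lit 5) (nat_lit 0x55044) (nat_lit 0x1000200020001000000000001000000010000))) (.non (nat_lit 2) (nat_lit 5) (nat_lit 0x55005) (nat_lit 0x1000100010001000000000000000000010001))) (.non (nat_lit 2) (nat_lit 6) (nat_lit 0x40505) (nat_lit 0x3000000000000000400030000000000010002)))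 (.non (nat_lit 2) (nat_lit 6) (nat_lit 0x40505) (nat_lit 0x3000000000000000300040000000000010002))) (.non (nat_lit 2) (nat_lit 5) (nat_lit 0x50045) (nat_lit 0x1000100000000000000000001000000010001))) (.non (nat_lit 2) (nat_lit 5) (nat_lit 0x40005) (nat_lit 0x1000000000000000000000000000000010001)))))))) (.non (nat_lit 1) (nat_lit 6) (nat_lit 0x14540) (nat_lit 0x200010000000300040003000000000000))) (.non (nat_lit 1) (nat_lit 5) (nat_lit 0x14040) (nat_lit 0x100010000000000000001000000000000)))) (.split (nat_lit 8) (nat_lit 3) (.split (nat_lit 7) (nat_lit 3) (.split (nat_lit 4) (nat_lit 3) (.ex (nat_lit 0) t761_90 (.split (nat_lit 9) (nat_lit 1) (.split (nat_lit 9) (nat_lit 4) (.split (nat_lit 9) (nat_lit 5) (.split (nat_lit 9) (nat_lit 6) t761_131 (.non (nat_lit 2) (nat_lit 5) (nat_lit 0x55005) (nat_lit 0x1000100010001000000000000000000010001))) (.non (nat_lit 2) (nat_lit 6) (nat_lit 0x40505) (nat_lit 0x3000000000000000400030000000000010002))) (.non (nat_lit 2) (nat_lit 6) (nat_lit 0x40505) (nat_lit 0x3000000000000000300040000000000010002)))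 (.non (nat_lit 2) (nat_lit 5) (nat_lit 0x40005) (nat_lit 0x1000000000000000000000000000000010001)))) (.non (nat_lit 1) (nat_lit 6) (nat_lit 0x10550) (nat_lit 0x100000000000300040003000200000000))) (.non (nat_lit 1) (nat_lit 5) (nat_lit 0x14050) (nat_lit 0x100010000000000000001000100000000))) (.non (nat_lit 1) (nat_lit 5) (nat_lit 0x10050) (nat_lit 0x100000000000000000001000100000000))))

noncomputable def t761_133 : Tr := (.ex (nat_lit 8) (.split (nat_lit 8) (nat_lit 0) (.pd (.cons (nat_lit 0) (nat_lit 4) (nat_lit 0) (nat_lit 0x765502110) (nat_lit 0xf423fb71aea2c289896500000f423fb71ae1f15600000) (.cons (nat_lit 1) (nat_lit 4) (nat_lit 0) (nat_lit 0x87602200) (nat_lit 0x98965a2c28b71aef423f00000f423fb71ae00000927bd) (.cons (nat_lit 2) (nat_lit 4) (nat_lit 0) (nat_lit 0x87603000) (nat_lit 0x98965a2c28b71aef423f00000f423f00000f423f5572c) (.cons (nat_lit 3) (nat_lit 7) (nat_lit 0) (nat_lit 0x5440100) (nat_lit 0xf423f00000f423fb71ae1f15600000f423f5459106711) .nil)))) (.leaf (.cons (nat_lit 0x554) (nat_lit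 0x100010001000100010000) (.cons (nat_lit 0x1540) (nat_lit 0x1000200020001000000000000) (.cons (nat_lit 0x14015) (nat_lit 0x200010000000000000000000300040003) .nil))) (.cons (nat_lit 0x11110) (nat_lit 0x100001) (nat_lit 0x10) (nat_lit 0x32100) .nil))) (.non (nat_lit 2) (nat_lit 5) (nat_lit 0x2a005) (nat_lit 0x300020001000000000000000000020004))) (.split (nat_lit 9) (nat_lit 0) (.split (nat_lit 9) (nat_lit 1) (.split (nat_lit 9) (nat_lit 2) (.split (nat_lit 9) (nat_lit 3) (.split (nat_lit 9) (nat_lit 4) (.split (nat_lit 9) (nat_lit 5) (.split (nat_lit 9) (nat_lit 6) (.split (nat_lit 9) (nat_lit 7) (.st (nat_lit 8) (nat_lit 1) (nat_lit 5) (nat_lit 0x54001) (nat_lit 0x1000200010000000000000000000000000001) (nat_lit 1) (nat_lit 1) (.split (nat_lit 9) (nat_lit 8) (.split (nat_lit 8) (nat_lit 0) (.pd (.cons (nat_lit 0) (nat_lit 4) (nat_lit 0) (nat_lit 0x8765502110) (nat_lit 0xf423fb71aea2c2898965927bd00000f423fb71ae1f15600000) (.cons (nat_lit 1) (nat_lit 4) (nat_lit 0) (nat_lit 0x8087602200) (nat_lit 0xf423f5b8d4a2c28b71aef423f00000f423fb71ae000005160d)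 (.cons (nat_lit 2) (nat_lit 4) (nat_lit 0) (nat_lit 0x8087603000) (nat_lit 0xf423f5b8d4a2c28b71aef423f00000f423f00000f423f1457c) .nil))) (.leaf (.cons (nat_lit 0x554) (nat_lit 0x100010001000100010000) (.cons (nat_lit 0x1540) (nat_lit 0x1000200020001000000000000) (.cons (nat_lit 0x50015) (nat_lit 0x1000200000000000000000000000300040003) .nil))) (.cons (nat_lit 0x11110) (nat_lit 0x100001) (nat_lit 0x10) (nat_lit 0x32100) .nil))) (.non (nat_lit 1) (nat_lit 5) (nat_lit 0xa8001) (nat_lit 0x1000200010000000000000000000000000002))) (.non (nat_lit 1) (nat_lit 5) (nat_lit 0x94001) (nat_lit 0x1000200010000000000000000000000000001)))) (.non (nat_lit 1) (nat_lit 5) (nat_lit 0x54000) (nat_lit 0x1000100010000000000000000000000000000))) (.non (nat_lit 1) (nat_lit 5) (nat_lit 0x55000) (nat_lit 0x1000100010001000000000000000000000000))) (.non (nat_lit 1) (nat_lit 6) (nat_lit 0x54500) (nat_lit 0x3000200010000000400030000000000000000))) (.non (nat_lit 1) (nat_lit 6) (nat_lit 0x54500) (nat_lit 0x3000200010000000300040000000000000000)))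 (.non (nat_lit 1) (nat_lit 5) (nat_lit 0x54151) (nat_lit 0x2000200010000000000010002000100000001))) (.non (nat_lit 1) (nat_lit 6) (nat_lit 0x40550) (nat_lit 0x1000000000000000300040003000200000000))) (.non (nat_lit 2) (nat_lit 5) (nat_lit 0x50005) (nat_lit 0x1000100000000000000000000000000010001))) (.non (nat_lit 1) (nat_lit 5) (nat_lit 0x50001) (nat_lit 0x1000100000000000000000000000000000001))))

noncomputable def t761_134 : Tr := (.ex (nat_lit 9) (.split (nat_lit 9) (nat_lit 7) (.pd (.cons (nat_lit 0) (nat_lit 4) (nat_lit 0) (nat_lit 0x7765502110) (nat_lit 0xf423ff423f7a11d7a11b7a11900000f423fb71ae1f15600000) (.cons (nat_lit 1) (nat_lit 4) (nat_lit 0) (nat_lit 0x7087602200) (nat_lit 0xf423f61a7965b97b71aef423f00000f423fb71ae000005b8cc) (.cons (nat_lit 2) (nat_lit 4) (nat_lit 0) (nat_lit 0x7087603000) (nat_lit 0xf423f61a7965b97b71aef423f00000f423f00000f423f1e83b) .nil))) (.leaf (.cons (nat_lit 0x554) (nat_lit 0x100010001000100010000) (.cons (nat_lit 0x1540) (nat_lit 0x1000200020001000000000000) (.cons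 (nat_lit 0x14015) (nat_lit 0x200010000000000000000000300040003) (.cons (nat_lit 0x45500) (nat_lit 0x1000000020003000400030000000000000000) .nil)))) (.cons (nat_lit 0x11110) (nat_lit 0x100001) (nat_lit 0x10) (nat_lit 0x32100) .nil))) (.non (nat_lit 1) (nat_lit 5) (nat_lit 0x95000) (nat_lit 0x1000100020001000000000000000000000000))) (.split (nat_lit 0xa) (nat_lit 0) (.split (nat_lit 0xa) (nat_lit 1) (.split (nat_lit 0xa) (nat_lit 2) (.split (nat_lit 0xa) (nat_lit 3) (.split (nat_lit 0xa) (nat_lit 4) (.split (nat_lit 0xa) (nat_lit 5) (.split (nat_lit 0xa) (nat_lit 6) (.split (nat_lit 0xa) (nat_lit 7) (.split (nat_lit 0xa) (nat_lit 8) (.split (nat_lit 0xa) (nat_lit 9) (.split (nat_lit 9) (nat_lit 7) (.par (nat_lit 0x155401) (nat_lit 0x10002000200030002000100000000000000000001)) (.non (nat_lit 1) (nat_lit 5) (nat_lit 0x95000) (nat_lit 0x1000100020001000000000000000000000000))) (.non (nat_lit 1) (nat_lit 5) (nat_lit 0x255000) (nat_lit 0x10002000100020001000000000000000000000000))) (.non (nat_lit 1) (nat_lit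 5) (nat_lit 0x154000) (nat_lit 0x10001000100010000000000000000000000000000))) (.non (nat_lit 1) (nat_lit 5) (nat_lit 0x144000) (nat_lit 0x10001000000010000000000000000000000000000))) (.non (nat_lit 1) (nat_lit 5) (nat_lit 0x145000) (nat_lit 0x10001000000010001000000000000000000000000))) (.non (nat_lit 1) (nat_lit 6) (nat_lit 0x144500) (nat_lit 0x30002000000010000000400030000000000000000))) (.non (nat_lit 1) (nat_lit 5) (nat_lit 0x155151) (nat_lit 0x40005000400060003000000030002000100000002))) (.non (nat_lit 1) (nat_lit 5) (nat_lit 0x155150) (nat_lit 0x20002000100020001000000010002000100000000))) (.non (nat_lit 1) (nat_lit 5) (nat_lit 0x155151) (nat_lit 0x40005000400060003000000010002000300000002))) (.non (nat_lit 2) (nat_lit 5) (nat_lit 0x154005) (nat_lit 0x10001000100010000000000000000000000010001))) (.non (nat_lit 1) (nat_lit 5) (nat_lit 0x154001) (nat_lit 0x10001000100010000000000000000000000000001))))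

noncomputable def t761_135 : Tr := (.ex (nat_lit 6) (.ex (nat_lit 7) (.pd (.cons (nat_lit 3) (nat_lit 8) (nat_lit 0) (nat_lit 0x65440100) (nat_lit 0xf423fb71aea2c280473700000f423f54591437a2) .nil) t761_133) (.split (nat_lit 9) (nat_lit 0) (.split (nat_lit 9) (nat_lit 1) (.split (nat_lit 9) (nat_lit 2) (.split (nat_lit 9) (nat_lit 3) (.split (nat_lit 9) (nat_lit 4) (.split (nat_lit 9) (nat_lit 5) (.split (nat_lit 9) (nat_lit 6) (.split (nat_lit 9) (nat_lit 8) (.st (nat_lit 7) (nat_lit 1) (nat_lit 5) (nat_lit 0x55000) (nat_lit 0x1000100020001000000000000000000000000) (nat_lit 1) (nat_lit 1) (.st (nat_lit 8) (nat_lit 1) (nat_lit 5) (nat_lit 0x55001) (nat_lit 0x1000200020001000000000000000000000001) (nat_lit 1) (nat_lit 1) (.split (nat_lit 8) (nat_lit 0) (.pd (.cons (nat_lit 3) (nat_lit 7) (nat_lit 0) (nat_lit 0x9005440100) (nat_lit 0xf423ff423f00000f423fb71ae1f15600000f423f5459106711) .nil) t761_134) (.non (nat_lit 1) (nat_lit 5) (nat_lit 0xaa001) (nat_lit 0x1000200020001000000000000000000000002))))) (.non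 (nat_lit 1) (nat_lit 5) (nat_lit 0x54000) (nat_lit 0x1000100010000000000000000000000000000))) (.non (nat_lit 1) (nat_lit 5) (nat_lit 0x45000) (nat_lit 0x1000000010001000000000000000000000000))) (.non (nat_lit 1) (nat_lit 6) (nat_lit 0x54500) (nat_lit 0x3000100020000000400030000000000000000))) (.non (nat_lit 1) (nat_lit 6) (nat_lit 0x54500) (nat_lit 0x3000100020000000300040000000000000000))) (.non (nat_lit 1) (nat_lit 5) (nat_lit 0x55150) (nat_lit 0x2000100020001000000010002000100000000))) (.non (nat_lit 1) (nat_lit 6) (nat_lit 0x40550) (nat_lit 0x1000000000000000300040003000200000000))) (.non (nat_lit 2) (nat_lit 5) (nat_lit 0x54005) (nat_lit 0x1000100010000000000000000000000010001))) (.non (nat_lit 1) (nat_lit 5) (nat_lit 0x54001) (nat_lit 0x1000100010000000000000000000000000001)))) (.split (nat_lit 9) (nat_lit 0) (.split (nat_lit 9) (nat_lit 1) (.split (nat_lit 9) (nat_lit 2) (.split (nat_lit 9) (nat_lit 3) (.split (nat_lit 9) (nat_lit 4) (.split (nat_lit 9) (nat_lit 5) (.split (nat_lit 9) (nat_lit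 7) (.split (nat_lit 9) (nat_lit 8) (.sup (nat_lit 0x20009000a0005) (nat_lit 0x500000005000a000a00060000000000000000)) (.non (nat_lit 1) (nat_lit 5) (nat_lit 0x55000) (nat_lit 0x1000100010001000000000000000000000000))) (.non (nat_lit 1) (nat_lit 5) (nat_lit 0x45000) (nat_lit 0x1000000010001000000000000000000000000))) (.non (nat_lit 1) (nat_lit 6) (nat_lit 0x40540) (nat_lit 0x1000000000000000200020001000000000000))) (.non (nat_lit 1) (nat_lit 6) (nat_lit 0x40540) (nat_lit 0x1000000000000000200020001000000000000))) (.non (nat_lit 1) (nat_lit 6) (nat_lit 0x40550) (nat_lit 0x1000000000000000200020002000100000000))) (.star (nat_lit 9) (nat_lit 2) (nat_lit 6))) (.star (nat_lit 9) (nat_lit 1) (nat_lit 6))) (.non (nat_lit 1) (nat_lit 5) (nat_lit 0x55001) (nat_lit 0x1000100010001000000000000000000000001))))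

noncomputable def t761_136 : Tr := (.ex (nat_lit 0) (.ex (nat_lit 1) (.split (nat_lit 4) (nat_lit 3) (.split (nat_lit 8) (nat_lit 7) (.pd (.cons (nat_lit 0) (nat_lit 5) (nat_lit 0) (nat_lit 0x766032110) (nat_lit 0xf423fb71aea2c2800000f423fb71aea2c280473700000) .nil) t761_135) (.non (nat_lit 2) (nat_lit 5) (nat_lit 0x1a005) (nat_lit 0x300020001000000000000000000010002))) (.non (nat_lit 1) (nat_lit 6) (nat_lit 0x540) (nat_lit 0x100010001000000000000))) (.split (nat_lit 9) (nat_lit 0) (.split (nat_lit 9) (nat_lit 2) (.split (nat_lit 9) (nat_lit 3) (.split (nat_lit 9) (nat_lit 4) (.split (nat_lit 9) (nat_lit 5) (.split (nat_lit 9) (nat_lit 6) (.split (nat_lit 9) (nat_lit 7) (.split (nat_lit 9) (nat_lit 8) (.sup (nat_lit 0x50000000000000000000000000006000a0005) (nat_lit 0x5000a00090002000000000000)) (.non (nat_lit 2) (nat_lit 5) (nat_lit 0x50005) (nat_lit 0x1000100000000000000000000000000010001))) (.non (nat_lit 2) (nat_lit 5) (nat_lit 0x54005) (nat_lit 0x1000100010000000000000000000000010001))) (.star (nat_lit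 9) (nat_lit 1) (nat_lit 6))) (.star (nat_lit 9) (nat_lit 1) (nat_lit 5))) (.non (nat_lit 1) (nat_lit 6) (nat_lit 0x40540) (nat_lit 0x1000000000000000200020001000000000000))) (.non (nat_lit 1) (nat_lit 6) (nat_lit 0x40550) (nat_lit 0x1000000000000000200020002000100000000))) (.non (nat_lit 1) (nat_lit 6) (nat_lit 0x40550) (nat_lit 0x1000000000000000300040003000200000000))) (.non (nat_lit 2) (nat_lit 5) (nat_lit 0x40005) (nat_lit 0x1000000000000000000000000000000010001)))) (.split (nat_lit 9) (nat_lit 1) (.split (nat_lit 9) (nat_lit 2) (.split (nat_lit 9) (nat_lit 3) (.split (nat_lit 9) (nat_lit 4) (.split (nat_lit 9) (nat_lit 5) (.split (nat_lit 9) (nat_lit 6) (.split (nat_lit 9) (nat_lit 7) (.split (nat_lit 9) (nat_lit 8) (.sup (nat_lit 0x5000a00090002000000000000) (nat_lit 0x50005000000000000000000000006000a000a)) (.non (nat_lit 1) (nat_lit 5) (nat_lit 0x50001) (nat_lit 0x1000100000000000000000000000000000001))) (.non (nat_lit 1) (nat_lit 5) (nat_lit 0x54001) (nat_lit 0x1000100010000000000000000000000000001)))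 (.non (nat_lit 1) (nat_lit 5) (nat_lit 0x55001) (nat_lit 0x1000100010001000000000000000000000001))) (.non (nat_lit 1) (nat_lit 6) (nat_lit 0x40540) (nat_lit 0x1000000000000000200020001000000000000))) (.non (nat_lit 1) (nat_lit 6) (nat_lit 0x40540) (nat_lit 0x1000000000000000200020001000000000000))) (.non (nat_lit 1) (nat_lit 6) (nat_lit 0x40550) (nat_lit 0x1000000000000000200020002000100000000))) (.non (nat_lit 1) (nat_lit 6) (nat_lit 0x40550) (nat_lit 0x1000000000000000300040003000200000000))) (.non (nat_lit 2) (nat_lit 5) (nat_lit 0x40005) (nat_lit 0x1000000000000000000000000000000010001))))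

noncomputable def t761_137 : Tr := (.ex (nat_lit 6) (.split (nat_lit 8) (nat_lit 3) (.split (nat_lit 8) (nat_lit 0) (.split (nat_lit 8) (nat_lit 7) (.pd (.cons (nat_lit 0) (nat_lit 7) (nat_lit 0) (nat_lit 0x305442110) (nat_lit 0xf423f00000f423fb71ae1f156b71aea2c280473700000) (.cons (nat_lit 0) (nat_lit 8) (nat_lit 0) (nat_lit 0x65442110) (nat_lit 0xf423fb71aea2c2804737f423fb71ae1f15600000) (.cons (nat_lit 1) (nat_lit 4) (nat_lit 0) (nat_lit 0x87608300) (nat_lit 0x4734ea2c28b71aef423f00000b71aef423f0000022dfa) (.cons (nat_lit 1) (nat_lit 7) (nat_lit 0) (nat_lit 0x5448300) (nat_lit 0xa2c2800000f423fb71ae1f156b71aef423f0000098965) (.cons (nat_lit 1) (nat_lit 8) (nat_lit 0) (nat_lit 0x65442200) (nat_lit 0xf423fb71aea2c2804737f423fb71ae00000f423f) (.cons (nat_lit 2) (nat_lit 4) (nat_lit 0) (nat_lit 0x87608000) (nat_lit 0x5b8d4a2c28b71aef423f00000f423f00000f423f1457c) (.cons (nat_lit 2) (nat_lit 7) (nat_lit 0) (nat_lit 0x5448000) (nat_lit 0xb71ae00000f423fb71ae1f156f423f00000f423f65b97) (.cons (nat_lit 2)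 (nat_lit 8) (nat_lit 0) (nat_lit 0x65443000) (nat_lit 0xf423fb71aea2c2804737f423f00000f423fb71ae) (.cons (nat_lit 3) (nat_lit 7) (nat_lit 0) (nat_lit 0x5440100) (nat_lit 0xf423f00000f423fb71ae1f15600000f423f5459106711) (.cons (nat_lit 3) (nat_lit 8) (nat_lit 0) (nat_lit 0x65440100) (nat_lit 0xf423fb71aea2c280473700000f423f54591437a2) .nil)))))))))) (.leaf (.cons (nat_lit 0x14054) (nat_lit 0x200010000000000000003000400030000) (.cons (nat_lit 0x14015) (nat_lit 0x200010000000000000000000300040003) .nil)) .nil)) (.non (nat_lit 1) (nat_lit 5) (nat_lit 0x1a050) (nat_lit 0x300020001000000000002000100000000))) (.non (nat_lit 1) (nat_lit 5) (nat_lit 0x28081) (nat_lit 0x200010000000000000001000000000002))) (.non (nat_lit 1) (nat_lit 5) (nat_lit 0x2a050) (nat_lit 0x300020001000000000004000200000000))) (.split (nat_lit 9) (nat_lit 0) (.split (nat_lit 9) (nat_lit 1) (.split (nat_lit 9) (nat_lit 2) (.split (nat_lit 9) (nat_lit 3) (.split (nat_lit 9) (nat_lit 7) (.split (nat_lit 9) (nat_lit 8) (.split (nat_lit 9) (nat_lit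 4) (.split (nat_lit 9) (nat_lit 5) (.unj (nat_lit 0x55) (nat_lit 0x1000200020001) (nat_lit 0x45500) (nat_lit 0x1000000010002000200020000000000000000)) (.unj (nat_lit 0x41400) (nat_lit 0x1000000000001000100000000000000000000) (nat_lit 0x55) (nat_lit 0x1000200020001))) (.split (nat_lit 9) (nat_lit 5) (.unj (nat_lit 0x55) (nat_lit 0x1000200020001) (nat_lit 0x41500) (nat_lit 0x1000000000001000100010000000000000000)) (.non (nat_lit 1) (nat_lit 6) (nat_lit 0x40500) (nat_lit 0x1000000000000000100010000000000000000)))) (.non (nat_lit 1) (nat_lit 5) (nat_lit 0x55000) (nat_lit 0x1000100010001000000000000000000000000))) (.non (nat_lit 1) (nat_lit 5) (nat_lit 0x45000) (nat_lit 0x1000000010001000000000000000000000000))) (.non (nat_lit 1) (nat_lit 5) (nat_lit 0x55040) (nat_lit 0x1000100010001000000000001000000000000))) (.star (nat_lit 9) (nat_lit 2) (nat_lit 6))) (.star (nat_lit 9) (nat_lit 1) (nat_lit 6))) (.non (nat_lit 1) (nat_lit 5) (nat_lit 0x55001) (nat_lit 0x1000100010001000000000000000000000001))))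

noncomputable def t761_138 : Tr := (.ex (nat_lit 2) (.ex (nat_lit 4) (.ex (nat_lit 5) t761_137 (.split (nat_lit 9) (nat_lit 0) (.split (nat_lit 9) (nat_lit 1) (.split (nat_lit 9) (nat_lit 2) (.split (nat_lit 9) (nat_lit 3) (.split (nat_lit 9) (nat_lit 4) (.split (nat_lit 9) (nat_lit 7) (.split (nat_lit 9) (nat_lit 8) (.split (nat_lit 9) (nat_lit 6) (.unj (nat_lit 0x55) (nat_lit 0x1000200020001) (nat_lit 0x41500) (nat_lit 0x1000000000001000200020000000000000000)) (.unj (nat_lit 0x41400) (nat_lit 0x1000000000001000100000000000000000000) (nat_lit 0x55) (nat_lit 0x1000200020001))) (.non (nat_lit 1) (nat_lit 5) (nat_lit 0x54041) (nat_lit 0x1000200010000000000000001000000000001))) (.non (nat_lit 1) (nat_lit 5) (nat_lit 0x55041) (nat_lit 0x1000200020001000000000001000000000001))) (.non (nat_lit 1) (nat_lit 6) (nat_lit 0x40500) (nat_lit 0x1000000000000000100010000000000000000))) (.non (nat_lit 1) (nat_lit 5) (nat_lit 0x54051) (nat_lit 0x1000200010000000000000002000100000001))) (.star (nat_lit 9) (nat_lit 2)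 (nat_lit 5))) (.star (nat_lit 9) (nat_lit 1) (nat_lit 5))) (.non (nat_lit 1) (nat_lit 5) (nat_lit 0x55051) (nat_lit 0x1000300020001000000000002000100000002)))) (.split (nat_lit 9) (nat_lit 0) (.split (nat_lit 9) (nat_lit 1) (.split (nat_lit 9) (nat_lit 2) (.split (nat_lit 9) (nat_lit 3) (.split (nat_lit 9) (nat_lit 5) (.split (nat_lit 9) (nat_lit 7) (.split (nat_lit 9) (nat_lit 8) (.split (nat_lit 9) (nat_lit 6) (.unj (nat_lit 0x55) (nat_lit 0x1000200020001) (nat_lit 0x41500) (nat_lit 0x1000000000001000200020000000000000000)) (.unj (nat_lit 0x55) (nat_lit 0x1000200020001) (nat_lit 0x41500) (nat_lit 0x1000000000001000100010000000000000000))) (.non (nat_lit 1) (nat_lit 5) (nat_lit 0x55150) (nat_lit 0x2000300020001000000010002000100000000))) (.non (nat_lit 1) (nat_lit 5) (nat_lit 0x55041) (nat_lit 0x1000200020001000000000001000000000001))) (.non (nat_lit 1) (nat_lit 6) (nat_lit 0x40500) (nat_lit 0x1000000000000000100010000000000000000))) (.non (nat_lit 1) (nat_lit 5) (nat_lit 0x54051) (nat_lit 0x1000200010000000000000002000100000001)))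 (.non (nat_lit 1) (nat_lit 6) (nat_lit 0x40550) (nat_lit 0x3000000000000000300040001000200000000))) (.non (nat_lit 2) (nat_lit 6) (nat_lit 0x40505) (nat_lit 0x3000000000000000300040000000000020001))) (.non (nat_lit 1) (nat_lit 5) (nat_lit 0x55051) (nat_lit 0x1000300020001000000000002000100000002)))) (.split (nat_lit 9) (nat_lit 0) (.split (nat_lit 9) (nat_lit 3) (.split (nat_lit 9) (nat_lit 4) (.split (nat_lit 9) (nat_lit 5) (.split (nat_lit 9) (nat_lit 6) (.split (nat_lit 9) (nat_lit 7) (.split (nat_lit 9) (nat_lit 8) (.split (nat_lit 9) (nat_lit 1) (.sup (nat_lit 0x5000000000000000000000000000a00090002) (nat_lit 0x100040007000a00080000000000000000)) (.unj (nat_lit 0x40014) (nat_lit 0x1000000000000000000000000000100010000) (nat_lit 0x15500) (nat_lit 0x100020003000400030000000000000000))) (.non (nat_lit 1) (nat_lit 5) (nat_lit 0x50050) (nat_lit 0x1000100000000000000000001000100000000))) (.non (nat_lit 1) (nat_lit 5) (nat_lit 0x54050) (nat_lit 0x1000100010000000000000001000100000000))) (.star (nat_lit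 9) (nat_lit 2) (nat_lit 6))) (.star (nat_lit 9) (nat_lit 2) (nat_lit 5))) (.non (nat_lit 1) (nat_lit 6) (nat_lit 0x40550) (nat_lit 0x3000000000000000300040001000200000000))) (.non (nat_lit 1) (nat_lit 5) (nat_lit 0x40050) (nat_lit 0x1000000000000000000000001000100000000))) (.non (nat_lit 1) (nat_lit 5) (nat_lit 0x50051) (nat_lit 0x1000100000000000000000001000100000001))))

noncomputable def t761_139 : Tr := (.split (nat_lit 8) (nat_lit 3) (.split (nat_lit 7) (nat_lit 3) (.split (nat_lit 4) (nat_lit 3) (.sup (nat_lit 0x5000a00090002) (nat_lit 0x100040007000a00080000000000000000)) (.st (nat_lit 2) (nat_lit 1) (nat_lit 6) (nat_lit 0x550) (nat_lit 0x300040003000200000000) (nat_lit 1) (nat_lit 1) (.st (nat_lit 3) (nat_lit 1) (nat_lit 6) (nat_lit 0x550) (nat_lit 0x200020002000100000000) (nat_lit 1) (nat_lit 1) (.st (nat_lit 4) (nat_lit 1) (nat_lit 6) (nat_lit 0x540) (nat_lit 0x200020001000000000000) (nat_lit 1) (nat_lit 1) (.st (nat_lit 5) (nat_lit 1) (nat_lit 6) (nat_lit 0x540) (nat_lit 0x200020001000000000000)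 (nat_lit 1) (nat_lit 1) t761_136))))) (.split (nat_lit 4) (nat_lit 3) (.split (nat_lit 8) (nat_lit 0) (.split (nat_lit 8) (nat_lit 7) (.split (nat_lit 7) (nat_lit 3) (.par (nat_lit 0x15451) (nat_lit 0x200030002000100000002000100000001)) (.non (nat_lit 1) (nat_lit 5) (nat_lit 0x2a040) (nat_lit 0x100020001000000000002000000000000))) (.non (nat_lit 1) (nat_lit 5) (nat_lit 0x25040) (nat_lit 0x100020001000000000001000000000000))) (.non (nat_lit 1) (nat_lit 5) (nat_lit 0x2a081) (nat_lit 0x200020001000000000001000000000002))) (.non (nat_lit 1) (nat_lit 5) (nat_lit 0x15150) (nat_lit 0x100020001000000010002000100000000)))) (.split (nat_lit 7) (nat_lit 3) (.split (nat_lit 4) (nat_lit 3) (.st (nat_lit 0) (nat_lit 1) (nat_lit 5) (nat_lit 0x15051) (nat_lit 0x300020001000000000002000100000002) (nat_lit 1) (nat_lit 1) (.st (nat_lit 3) (nat_lit 1) (nat_lit 5) (nat_lit 0x14051) (nat_lit 0x200010000000000000002000100000001) (nat_lit 1) (nat_lit 1) (.st (nat_lit 7) (nat_lit 1) (nat_lit 5) (nat_lit 0x15041) (nat_lit 0x200020001000000000001000000000001)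 (nat_lit 1) (nat_lit 1) (.st (nat_lit 8) (nat_lit 1) (nat_lit 5) (nat_lit 0x14041) (nat_lit 0x200010000000000000001000000000001) (nat_lit 1) (nat_lit 1) (.ex (nat_lit 1) t761_138 (.split (nat_lit 9) (nat_lit 0) (.split (nat_lit 9) (nat_lit 3) (.split (nat_lit 9) (nat_lit 4) (.split (nat_lit 9) (nat_lit 5) (.split (nat_lit 9) (nat_lit 6) (.split (nat_lit 9) (nat_lit 7) (.split (nat_lit 9) (nat_lit 8) (.split (nat_lit 9) (nat_lit 2) (.sup (nat_lit 0x50000000000000000000000000008000a0002) (nat_lit 0x100040007000a00080000000000000000)) (.unj (nat_lit 0x40014) (nat_lit 0x1000000000000000000000000000100010000) (nat_lit 0x15500) (nat_lit 0x100020003000400030000000000000000))) (.non (nat_lit 1) (nat_lit 5) (nat_lit 0x54041) (nat_lit 0x1000200010000000000000001000000000001))) (.non (nat_lit 1) (nat_lit 5) (nat_lit 0x55041) (nat_lit 0x1000200020001000000000001000000000001))) (.star (nat_lit 9) (nat_lit 1) (nat_lit 6))) (.star (nat_lit 9) (nat_lit 1) (nat_lit 5))) (.non (nat_lit 2) (nat_lit 6) (nat_lit 0x40505)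 (nat_lit 0x3000000000000000300040000000000020001))) (.non (nat_lit 1) (nat_lit 5) (nat_lit 0x54051) (nat_lit 0x1000200010000000000000002000100000001))) (.non (nat_lit 1) (nat_lit 5) (nat_lit 0x55051) (nat_lit 0x1000300020001000000000002000100000002)))))))) (.non (nat_lit 1) (nat_lit 5) (nat_lit 0x14151) (nat_lit 0x200010000000000010002000100000001))) (.non (nat_lit 1) (nat_lit 5) (nat_lit 0x14040) (nat_lit 0x100010000000000000001000000000000))))

noncomputable def t761_140 : Tr := (.ex (nat_lit 6) (.split (nat_lit 8) (nat_lit 0) (.split (nat_lit 8) (nat_lit 2) (.split (nat_lit 8) (nat_lit 7) (.pd (.cons (nat_lit 0) (nat_lit 8) (nat_lit 0) (nat_lit 0x65442110) (nat_lit 0xf423fb71aea2c2804737f423fb71ae1f15600000) (.cons (nat_lit 1) (nat_lit 4) (nat_lit 0) (nat_lit 0x87602800) (nat_lit 0x4734ea2c28b71aef423f00000f423fb71ae0000022dfa) (.cons (nat_lit 1) (nat_lit 7) (nat_lit 0) (nat_lit 0x5442800) (nat_lit 0xa2c2800000f423fb71ae1f156f423fb71ae0000098965) (.cons (nat_lit 1) (nat_lit 8) (nat_lit 0) (nat_lit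 0x65442200) (nat_lit 0xf423fb71aea2c2804737f423fb71ae00000f423f) (.cons (nat_lit 2) (nat_lit 4) (nat_lit 0) (nat_lit 0x87603000) (nat_lit 0x98965a2c28b71aef423f00000f423f00000f423f5572c) (.cons (nat_lit 2) (nat_lit 7) (nat_lit 0) (nat_lit 0x5443000) (nat_lit 0xf423f00000f423fb71ae1f156f423f00000f423f7a11d) (.cons (nat_lit 2) (nat_lit 8) (nat_lit 0) (nat_lit 0x65443000) (nat_lit 0xf423fb71aea2c2804737f423f00000f423fb71ae) (.cons (nat_lit 3) (nat_lit 8) (nat_lit 0) (nat_lit 0x65440100) (nat_lit 0xf423fb71aea2c280473700000f423f54591437a2) .nil)))))))) (.leaf (.cons (nat_lit 0x15014) (nat_lit 0x300020001000000000000000400030000) (.cons (nat_lit 0x10054) (nat_lit 0x100000000000000000001000200020000) (.cons (nat_lit 0x10015) (nat_lit 0x100000000000000000000000100010001) .nil))) .nil)) (.non (nat_lit 1) (nat_lit 5) (nat_lit 0x1a050) (nat_lit 0x300020001000000000001000200000000))) (.non (nat_lit 1) (nat_lit 5) (nat_lit 0x2a050) (nat_lit 0x300020001000000000002000400000000))) (.non (nat_lit 1) (nat_lit 5) (nat_lit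 0x28021) (nat_lit 0x200010000000000000000000100000002))) (.split (nat_lit 9) (nat_lit 0) (.split (nat_lit 9) (nat_lit 1) (.split (nat_lit 9) (nat_lit 2) (.split (nat_lit 9) (nat_lit 3) (.split (nat_lit 9) (nat_lit 7) (.split (nat_lit 9) (nat_lit 8) (.split (nat_lit 9) (nat_lit 4) (.split (nat_lit 9) (nat_lit 5) (.unj (nat_lit 0x55) (nat_lit 0x1000200020001) (nat_lit 0x45500) (nat_lit 0x1000000010002000200020000000000000000)) (.unj (nat_lit 0x41400) (nat_lit 0x1000000000001000100000000000000000000) (nat_lit 0x55) (nat_lit 0x1000200020001))) (.split (nat_lit 9) (nat_lit 5) (.unj (nat_lit 0x55) (nat_lit 0x1000200020001) (nat_lit 0x41500) (nat_lit 0x1000000000001000100010000000000000000)) (.non (nat_lit 1) (nat_lit 6) (nat_lit 0x40500) (nat_lit 0x1000000000000000100010000000000000000)))) (.non (nat_lit 1) (nat_lit 5) (nat_lit 0x55000) (nat_lit 0x1000100010001000000000000000000000000))) (.non (nat_lit 1) (nat_lit 5) (nat_lit 0x45000) (nat_lit 0x1000000010001000000000000000000000000))) (.non (nat_lit 1) (nat_lit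 5) (nat_lit 0x55050) (nat_lit 0x1000100010001000000000001000100000000))) (.star (nat_lit 9) (nat_lit 2) (nat_lit 6))) (.star (nat_lit 9) (nat_lit 1) (nat_lit 6))) (.non (nat_lit 1) (nat_lit 5) (nat_lit 0x55001) (nat_lit 0x1000100010001000000000000000000000001))))

noncomputable def t761_141 : Tr := (.ex (nat_lit 3) (.ex (nat_lit 4) (.ex (nat_lit 5) t761_140 (.split (nat_lit 9) (nat_lit 0) (.split (nat_lit 9) (nat_lit 1) (.split (nat_lit 9) (nat_lit 2) (.split (nat_lit 9) (nat_lit 3) (.split (nat_lit 9) (nat_lit 4) (.split (nat_lit 9) (nat_lit 7) (.split (nat_lit 9) (nat_lit 8) (.split (nat_lit 9) (nat_lit 6) (.unj (nat_lit 0x55) (nat_lit 0x1000200020001) (nat_lit 0x41500) (nat_lit 0x1000000000001000200020000000000000000)) (.unj (nat_lit 0x41400) (nat_lit 0x1000000000001000100000000000000000000) (nat_lit 0x55) (nat_lit 0x1000200020001))) (.non (nat_lit 1) (nat_lit 5) (nat_lit 0x54011) (nat_lit 0x1000200010000000000000000000100000001))) (.non (nat_lit 1) (nat_lit 5) (nat_lit 0x55011) (nat_lit 0x1000200020001000000000000000100000001)))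 (.non (nat_lit 1) (nat_lit 6) (nat_lit 0x40500) (nat_lit 0x1000000000000000100010000000000000000))) (.non (nat_lit 1) (nat_lit 6) (nat_lit 0x40550) (nat_lit 0x3000000000000000400030002000100000000))) (.star (nat_lit 9) (nat_lit 2) (nat_lit 5))) (.star (nat_lit 9) (nat_lit 1) (nat_lit 5))) (.non (nat_lit 1) (nat_lit 5) (nat_lit 0x55051) (nat_lit 0x1000300020001000000000001000200000002)))) (.split (nat_lit 9) (nat_lit 0) (.split (nat_lit 9) (nat_lit 1) (.split (nat_lit 9) (nat_lit 2) (.split (nat_lit 9) (nat_lit 3) (.split (nat_lit 9) (nat_lit 5) (.split (nat_lit 9) (nat_lit 7) (.split (nat_lit 9) (nat_lit 8) (.split (nat_lit 9) (nat_lit 6) (.unj (nat_lit 0x55) (nat_lit 0x1000200020001) (nat_lit 0x41500) (nat_lit 0x1000000000001000200020000000000000000)) (.unj (nat_lit 0x55) (nat_lit 0x1000200020001) (nat_lit 0x41500) (nat_lit 0x1000000000001000100010000000000000000))) (.non (nat_lit 1) (nat_lit 5) (nat_lit 0x55150) (nat_lit 0x2000300020001000000010001000200000000))) (.non (nat_lit 1) (nat_lit 5) (nat_lit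 0x55011) (nat_lit 0x1000200020001000000000000000100000001))) (.non (nat_lit 1) (nat_lit 6) (nat_lit 0x40500) (nat_lit 0x1000000000000000100010000000000000000))) (.non (nat_lit 1) (nat_lit 6) (nat_lit 0x40550) (nat_lit 0x3000000000000000300040002000100000000))) (.non (nat_lit 1) (nat_lit 5) (nat_lit 0x54051) (nat_lit 0x1000200010000000000000001000200000001))) (.non (nat_lit 2) (nat_lit 6) (nat_lit 0x40505) (nat_lit 0x3000000000000000300040000000000020001))) (.non (nat_lit 1) (nat_lit 5) (nat_lit 0x55051) (nat_lit 0x1000300020001000000000001000200000002)))) (.split (nat_lit 9) (nat_lit 0) (.split (nat_lit 9) (nat_lit 2) (.split (nat_lit 9) (nat_lit 4) (.split (nat_lit 9) (nat_lit 5) (.split (nat_lit 9) (nat_lit 6) (.split (nat_lit 9) (nat_lit 7) (.split (nat_lit 9) (nat_lit 8) (.split (nat_lit 9) (nat_lit 1) (.split (nat_lit 9) (nat_lit 3) (.split (nat_lit 8) (nat_lit 0) (.split (nat_lit 8) (nat_lit 2) (.split (nat_lit 8) (nat_lit 7) (.par (nat_lit 0x55451) (nat_lit 0x1000400030002000100000002000300000002))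 (.non (nat_lit 1) (nat_lit 5) (nat_lit 0x1a050) (nat_lit 0x300020001000000000001000200000000))) (.non (nat_lit 1) (nat_lit 5) (nat_lit 0x68050) (nat_lit 0x1000200010000000000000002000300000000))) (.non (nat_lit 1) (nat_lit 5) (nat_lit 0x28021) (nat_lit 0x200010000000000000000000100000002))) (.non (nat_lit 1) (nat_lit 5) (nat_lit 0x94051) (nat_lit 0x1000200010000000000000002000200000001))) (.sup (nat_lit 0x90000000000000000000000080007000a0000) (nat_lit 0x100040007000a00080000000000000000))) (.non (nat_lit 1) (nat_lit 5) (nat_lit 0x50050) (nat_lit 0x1000100000000000000000001000100000000))) (.non (nat_lit 1) (nat_lit 5) (nat_lit 0x54050) (nat_lit 0x1000100010000000000000001000100000000))) (.non (nat_lit 1) (nat_lit 5) (nat_lit 0x55050) (nat_lit 0x1000100010001000000000001000100000000))) (.non (nat_lit 1) (nat_lit 6) (nat_lit 0x40550) (nat_lit 0x3000000000000000400030002000100000000))) (.non (nat_lit 1) (nat_lit 6) (nat_lit 0x40550) (nat_lit 0x3000000000000000300040002000100000000))) (.non (nat_lit 1) (nat_lit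 5) (nat_lit 0x40050) (nat_lit 0x1000000000000000000000001000100000000))) (.non (nat_lit 1) (nat_lit 5) (nat_lit 0x50051) (nat_lit 0x1000100000000000000000001000100000001))))

noncomputable def t761_142 : Tr := (.split (nat_lit 4) (nat_lit 3) (.st (nat_lit 0) (nat_lit 1) (nat_lit 5) (nat_lit 0x15051) (nat_lit 0x300020001000000000001000200000002) (nat_lit 1) (nat_lit 1) (.st (nat_lit 2) (nat_lit 1) (nat_lit 5) (nat_lit 0x14051) (nat_lit 0x200010000000000000001000200000001) (nat_lit 1) (nat_lit 1) (.st (nat_lit 7) (nat_lit 1) (nat_lit 5) (nat_lit 0x15011) (nat_lit 0x200020001000000000000000100000001) (nat_lit 1) (nat_lit 1) (.st (nat_lit 8) (nat_lit 1) (nat_lit 5) (nat_lit 0x14011) (nat_lit 0x200010000000000000000000100000001) (nat_lit 1) (nat_lit 1) (.ex (nat_lit 1) t761_141 (.split (nat_lit 9) (nat_lit 0) (.split (nat_lit 9) (nat_lit 2) (.split (nat_lit 9) (nat_lit 4) (.split (nat_lit 9) (nat_lit 5) (.split (nat_lit 9) (nat_lit 6) (.split (nat_lit 9) (nat_lit 7) (.split (nat_lit 9) (nat_lit 8) (.split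 (nat_lit 9) (nat_lit 3) (.split (nat_lit 9) (nat_lit 1) (.split (nat_lit 8) (nat_lit 0) (.split (nat_lit 8) (nat_lit 2) (.sup (nat_lit 0x10006000b0010000d0000000000000000) (nat_lit 0x2000000000000000000000001000200030001)) (.non (nat_lit 1) (nat_lit 5) (nat_lit 0x2a050) (nat_lit 0x300020001000000000002000400000000))) (.non (nat_lit 1) (nat_lit 5) (nat_lit 0x28021) (nat_lit 0x200010000000000000000000100000002))) (.split (nat_lit 9) (nat_lit 1) (.split (nat_lit 8) (nat_lit 0) (.split (nat_lit 8) (nat_lit 2) (.sup (nat_lit 0x70000000000000000000000000006000a0000) (nat_lit 0x100040007000a00080000000000000000)) (.non (nat_lit 1) (nat_lit 5) (nat_lit 0x2a050) (nat_lit 0x300020001000000000002000400000000))) (.non (nat_lit 1) (nat_lit 5) (nat_lit 0x28021) (nat_lit 0x200010000000000000000000100000002))) (.non (nat_lit 2) (nat_lit 5) (nat_lit 0x54005) (nat_lit 0x3000200010000000000000000000000040003)))) (.sup (nat_lit 0x90000000000000000000000080007000a0000) (nat_lit 0x100040007000a00080000000000000000))) (.non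 (nat_lit 1) (nat_lit 5) (nat_lit 0x54011) (nat_lit 0x1000200010000000000000000000100000001))) (.non (nat_lit 1) (nat_lit 5) (nat_lit 0x55011) (nat_lit 0x1000200020001000000000000000100000001))) (.star (nat_lit 9) (nat_lit 1) (nat_lit 6))) (.star (nat_lit 9) (nat_lit 1) (nat_lit 5))) (.non (nat_lit 2) (nat_lit 6) (nat_lit 0x40505) (nat_lit 0x3000000000000000300040000000000020001))) (.non (nat_lit 1) (nat_lit 5) (nat_lit 0x54051) (nat_lit 0x1000200010000000000000001000200000001))) (.non (nat_lit 1) (nat_lit 5) (nat_lit 0x55051) (nat_lit 0x1000300020001000000000001000200000002)))))))) (.non (nat_lit 1) (nat_lit 6) (nat_lit 0x10550) (nat_lit 0x100000000000300040003000200000000)))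

noncomputable def t761 : Tr := (.split (nat_lit 8) (nat_lit 0) (.split (nat_lit 8) (nat_lit 1) (.split (nat_lit 8) (nat_lit 2) (.split (nat_lit 8) (nat_lit 3) (.split (nat_lit 7) (nat_lit 0) t761_29 (.split (nat_lit 7) (nat_lit 3) t761_35 (.non (nat_lit 1) (nat_lit 5) (nat_lit 0x15041) (nat_lit 0x100020001000000000001000000000001)))) (.split (nat_lit 7) (nat_lit 3) (.split (nat_lit 4) (nat_lit 3) (.split (nat_lit 7) (nat_lit 0) (.split (nat_lit 4) (nat_lit 0) (.sup (nat_lit 0x20009000a0005) (nat_lit 0x100040007000a00080000000000000000)) (.st (nat_lit 0) (nat_lit 2) (nat_lit 6) (nat_lit 0x505) (nat_lit 0x200020000000000010002) (nat_lit 1) (nat_lit 1) (.st (nat_lit 1) (nat_lit 2) (nat_lit 6) (nat_lit 0x505) (nat_lit 0x300040000000000020003) (nat_lit 1) (nat_lit 1) (.st (nat_lit 4) (nat_lit 1) (nat_lit 6) (nat_lit 0x501) (nat_lit 0x200020000000000000001) (nat_lit 1) (nat_lit 1) (.st (nat_lit 5) (nat_lit 1) (nat_lit 6) (nat_lit 0x501) (nat_lit 0x200020000000000000001) (nat_lit 1) (nat_lit 1) t761_39)))))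 (.split (nat_lit 4) (nat_lit 0) (.split (nat_lit 8) (nat_lit 3) (.split (nat_lit 8) (nat_lit 7) (.split (nat_lit 7) (nat_lit 0) (.par (nat_lit 0x15445) (nat_lit 0x200030002000100000001000000010002)) (.non (nat_lit 1) (nat_lit 5) (nat_lit 0x2a001) (nat_lit 0x100020001000000000000000000000002))) (.non (nat_lit 1) (nat_lit 5) (nat_lit 0x1a050) (nat_lit 0x300020001000000000002000100000000))) (.non (nat_lit 1) (nat_lit 5) (nat_lit 0x2a050) (nat_lit 0x300020001000000000004000200000000))) (.non (nat_lit 1) (nat_lit 6) (nat_lit 0x14501) (nat_lit 0x100020000000300040000000000000003)))) (.non (nat_lit 1) (nat_lit 6) (nat_lit 0x14540) (nat_lit 0x200010000000300040003000000000000))) (.non (nat_lit 1) (nat_lit 5) (nat_lit 0x14040) (nat_lit 0x100010000000000000001000000000000)))) (.split (nat_lit 8) (nat_lit 3) (.split (nat_lit 7) (nat_lit 3) (.split (nat_lit 4) (nat_lit 3) t761_54 (.non (nat_lit 1) (nat_lit 6) (nat_lit 0x10550) (nat_lit 0x100000000000300040003000200000000))) (.non (nat_lit 1) (nat_lit 5) (nat_lit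 0x14050) (nat_lit 0x100010000000000000001000100000000))) (.non (nat_lit 1) (nat_lit 5) (nat_lit 0x10050) (nat_lit 0x100000000000000000001000100000000)))) (.split (nat_lit 7) (nat_lit 0) (.split (nat_lit 4) (nat_lit 0) t761_132 (.non (nat_lit 2) (nat_lit 6) (nat_lit 0x10505) (nat_lit 0x100000000000300040000000000020003))) (.non (nat_lit 2) (nat_lit 5) (nat_lit 0x14005) (nat_lit 0x100010000000000000000000000010001)))) (.split (nat_lit 8) (nat_lit 1) (.split (nat_lit 7) (nat_lit 0) (.split (nat_lit 4) (nat_lit 0) (.split (nat_lit 8) (nat_lit 2) t761_139 (.split (nat_lit 8) (nat_lit 3) (.split (nat_lit 7) (nat_lit 3) t761_142 (.non (nat_lit 1) (nat_lit 5) (nat_lit 0x14050) (nat_lit 0x100010000000000000001000100000000))) (.non (nat_lit 1) (nat_lit 5) (nat_lit 0x10050) (nat_lit 0x100000000000000000001000100000000)))) (.non (nat_lit 1) (nat_lit 6) (nat_lit 0x14501) (nat_lit 0x200010000000300040000000000000003))) (.non (nat_lit 1) (nat_lit 5) (nat_lit 0x14001) (nat_lit 0x100010000000000000000000000000001)))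 (.non (nat_lit 2) (nat_lit 5) (nat_lit 0x10005) (nat_lit 0x100000000000000000000000000010001))))

noncomputable def D10 : RL := (.cons (nat_lit 0x222222222222222222222222222222222222222222222222222222222222222222222222222222222222222222222222222222222222222222222222b222a22a2222222b23222222222222223232a22a222222222325222222222222225222222222222a2a222322222222222222325222222222222225232222222a2a222232) t759 (.cons (nat_lit 0x222222222222222222222222222222222222222222222222222222222222222222222222222222222222222222222222222222222222222222222222b22222222222222b232222222222222232322222222222222325222222222222225222222222222222222322222222222222325222222222222225232222222222222232) .uj (.cons (nat_lit 0x222222222222222222222222222222222222222222222222222222222222222222222222222222222222222222222222222222222222222222222222b222aaaa2222222b2322a22a22222222323222222222222223252222222222222252a22a2222222aa22a23222222222a222232522222222a222225232222222aa22a2232) t761 .nil)))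

theorem cov_D10 : Cov 759 762 := by
  have h1 : rl D10 (nat_lit 759) = true := by decide +kernel
  have h2 : 759 + rlen D10 = 762 := by decide +kernel
  exact cov_of h1 h2

end MP86a502
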