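import Pool.Agent.Lib.MP_86a502_gt.U.Rlc
import Pool.Agent.Lib.MP_86a502_gt.U.D10

set_option autoImplicit false
set_option maxRecDepth 1000000
set_option linter.all false

/-! Certificates, numbers 1121 to 1121. -/

namespace MP86a502

noncomputable def t1121_1 : Tr := (.pd (.cons (nat_lit 3) (nat_lit 4) (nat_lit 0) (nat_lit 0x765500100) (nat_lit 0xf423fb71aea2c28989650000000000f423fb71ae1f156) (.cons (nat_lit 3) (nat_lit 5) (nat_lit 0) (nat_lit 0x766040100) (nat_lit 0xf423fb71aea2c2800000f423f00000f423fb71ae1f156) .nil)) (.ex (nat_lit 4) (.split (nat_lit 6) (nat_lit 3) (.pd (.cons (nat_lit 0) (nat_lit 6) (nat_lit 0) (nat_lit 0x770441110) (nat_lit 0xf423fb71ae00000f423f54591f423ff423f7a11d00000) (.cons (nat_lit 1) (nat_lit 6) (nat_lit 0) (nat_lit 0x770443200) (nat_lit 0xf423fb71ae00000f423f54591f423ff423f00000f423f) (.cons (nat_lit 1) (nat_lit 7) (nat_lit 0) (nat_lit 0x803653200) (nat_lit 0xf423f00000437a254591f423f174eaf423f00000f423f) (.cons (nat_lit 2) (nat_lit 6) (nat_lit 0) (nat_lit 0x770441000)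 (nat_lit 0xf423fb71ae00000f423f54591f423f00000b71ae1f156) (.cons (nat_lit 3) (nat_lit 6) (nat_lit 0) (nat_lit 0x770440100) (nat_lit 0xf423fb71ae00000f423f5459100000f423fb71ae1f156) (.cons (nat_lit 3) (nat_lit 7) (nat_lit 0) (nat_lit 0x805440100) (nat_lit 0xf423f00000f423fb71ae1f15600000f423fb71ae1f156) (.cons (nat_lit 3) (nat_lit 8) (nat_lit 0) (nat_lit 0x65440100) (nat_lit 0xf423fb71aea2c280473700000f423fb71ae1f156) .nil))))))) (.leaf (.cons (nat_lit 0x1544) (nat_lit 0x3000400030002000000010000) (.cons (nat_lit 0x5540) (nat_lit 0x10002000200020001000000000000) (.cons (nat_lit 0x5045) (nat_lit 0x10002000000000003000000040003) .nil))) .nil)) (.non (nat_lit 0) (nat_lit 4) (nat_lit 0xa840) (nat_lit 0x10002000100000002000000000000))) (.split (nat_lit 9) (nat_lit 0) (.split (nat_lit 9) (nat_lit 1) (.split (nat_lit 9) (nat_lit 2) (.split (nat_lit 9) (nat_lit 3) (.split (nat_lit 9) (nat_lit 5) (.split (nat_lit 9) (nat_lit 6) (.split (nat_lit 9) (nat_lit 7) (.split (nat_lit 9) (nat_lit 8) (.sup (nat_lit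 0x20005000a0008) (nat_lit 0x50000000000020009000a0000000000000000)) (.non (nat_lit 0) (nat_lit 4) (nat_lit 0x55454) (nat_lit 0x1000200030004000200000003000100020000))) (.non (nat_lit 0) (nat_lit 4) (nat_lit 0x55440) (nat_lit 0x1000100020002000100000001000000000000))) (.non (nat_lit 0) (nat_lit 4) (nat_lit 0x45440) (nat_lit 0x1000000010002000100000001000000000000))) (.non (nat_lit 0) (nat_lit 4) (nat_lit 0x55444) (nat_lit 0x1000100020003000200000002000000010000))) (.non (nat_lit 0) (nat_lit 4) (nat_lit 0x45444) (nat_lit 0x1000000010002000100000002000000010000))) (.non (nat_lit 3) (nat_lit 5) (nat_lit 0x40115) (nat_lit 0x2000000000000000000010000000300040003))) (.star (nat_lit 9) (nat_lit 1) (nat_lit 4))) (.star (nat_lit 9) (nat_lit 0) (nat_lit 4)))))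

noncomputable def t1121_2 : Tr := (.split (nat_lit 8) (nat_lit 7) (.pd (.cons (nat_lit 3) (nat_lit 4) (nat_lit 0) (nat_lit 0x2765500100) (nat_lit 0xf423ff423fb71aea2c28989650000000000b71aea2c2804737) .nil) (.st (nat_lit 8) (nat_lit 0) (nat_lit 4) (nat_lit 0x15454) (nat_lit 0x200030004000200000003000100020000) (nat_lit 1) (nat_lit 1) (.ex (nat_lit 4) (.split (nat_lit 9) (nat_lit 4) (.pd (.cons (nat_lit 1) (nat_lit 6) (nat_lit 0) (nat_lit 0x2770493200) (nat_lit 0x437a2f423fb71ae00000f423f54591f423f174ea00000f423f) (.cons (nat_lit 2) (nat_lit 6) (nat_lit 0) (nat_lit 0x4770441000) (nat_lit 0xf423ff423fb71ae00000f423f17500f423f00000b71ae1f156) .nil)) (.split (nat_lit 6) (nat_lit 3) (.leaf (.cons (nat_lit 0x40514) (nat_lit 0x3000000000000000300040000000200010000) (.cons (nat_lit 0x41500) (nat_lit 0x1000000000001000200020000000000000000) (.cons (nat_lit 0x5045) (nat_lit 0x10002000000000003000000040003) (.cons (nat_lit 0x40115) (nat_lit 0x2000000000000000000010000000300040003) .nil)))) (.cons (nat_lit 0x1111101110)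 (nat_lit 0x10001) (nat_lit 0xe) (nat_lit 0x7320104650) .nil)) (.non (nat_lit 0) (nat_lit 4) (nat_lit 0xa840) (nat_lit 0x10002000100000002000000000000)))) (.sup (nat_lit 0x2000000000000000400050000000000000000) (nat_lit 0x3000100050004))) (.split (nat_lit 0xa) (nat_lit 0) (.split (nat_lit 0xa) (nat_lit 1) (.split (nat_lit 0xa) (nat_lit 2) (.split (nat_lit 0xa) (nat_lit 3) (.split (nat_lit 0xa) (nat_lit 5) (.split (nat_lit 0xa) (nat_lit 6) (.split (nat_lit 0xa) (nat_lit 7) (.split (nat_lit 0xa) (nat_lit 8) (.split (nat_lit 0xa) (nat_lit 9) (.sup (nat_lit 0x20005000a0008) (nat_lit 0x500000000000000020009000a0000000000000000)) (.non (nat_lit 0) (nat_lit 4) (nat_lit 0x155454) (nat_lit 0x10002000200040006000300000005000300040000))) (.non (nat_lit 0) (nat_lit 4) (nat_lit 0x115454) (nat_lit 0x10000000200030004000200000003000100020000))) (.non (nat_lit 0) (nat_lit 4) (nat_lit 0x115440) (nat_lit 0x10000000100020002000100000001000000000000))) (.non (nat_lit 0) (nat_lit 4) (nat_lit 0x105440) (nat_lit 0x10000000000010002000100000001000000000000)))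 (.non (nat_lit 0) (nat_lit 4) (nat_lit 0x115444) (nat_lit 0x10000000100020003000200000002000000010000))) (.non (nat_lit 0) (nat_lit 4) (nat_lit 0x105444) (nat_lit 0x10000000000010002000100000002000000010000))) (.non (nat_lit 0) (nat_lit 4) (nat_lit 0x145454) (nat_lit 0x10001000000010002000100000002000200020000))) (.star (nat_lit 0xa) (nat_lit 1) (nat_lit 4))) (.star (nat_lit 0xa) (nat_lit 0) (nat_lit 4)))))) (.non (nat_lit 0) (nat_lit 4) (nat_lit 0x25440) (nat_lit 0x100020002000100000001000000000000)))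

noncomputable def t1121_3 : Tr := (.ex (nat_lit 0) (.ex (nat_lit 2) (.split (nat_lit 8) (nat_lit 7) t1121_1 (.non (nat_lit 0) (nat_lit 4) (nat_lit 0x25440) (nat_lit 0x100020002000100000001000000000000))) (.split (nat_lit 9) (nat_lit 1) (.split (nat_lit 9) (nat_lit 3) (.split (nat_lit 9) (nat_lit 5) (.split (nat_lit 9) (nat_lit 6) (.split (nat_lit 9) (nat_lit 7) (.split (nat_lit 9) (nat_lit 8) (.split (nat_lit 9) (nat_lit 0) (.split (nat_lit 9) (nat_lit 4) (.split (nat_lit 9) (nat_lit 2) (.split (nat_lit 8) (nat_lit 7) (.split (nat_lit 6) (nat_lit 3) (.sup (nat_lit 0x40008000b0010000d0000000000000000) (nat_lit 0x40000000000000000000000010008000d000a)) (.non (nat_lit 0) (nat_lit 4) (nat_lit 0xa840) (nat_lit 0x10002000100000002000000000000))) (.non (nat_lit 0) (nat_lit 4) (nat_lit 0x25440) (nat_lit 0x100020002000100000001000000000000))) (.non (nat_lit 0) (nat_lit 4) (nat_lit 0x85454) (nat_lit 0x1000000010002000100000002000200020000))) (.st (nat_lit 2) (nat_lit 0) (nat_lit 4) (nat_lit 0x45454) (nat_lit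 0x1000000010002000100000002000200020000) (nat_lit 1) (nat_lit 1) (.st (nat_lit 9) (nat_lit 0) (nat_lit 4) (nat_lit 0x55454) (nat_lit 0x2000200040006000300000005000300040000) (nat_lit 1) (nat_lit 1) (.split (nat_lit 9) (nat_lit 2) t1121_2 (.non (nat_lit 0) (nat_lit 4) (nat_lit 0x85454) (nat_lit 0x1000000010002000100000002000200020000)))))) (.split (nat_lit 9) (nat_lit 4) (.unj (nat_lit 0x40015) (nat_lit 0x1000000000000000000000000000100010001) (nat_lit 0x15500) (nat_lit 0x100020003000400030000000000000000)) (.star (nat_lit 9) (nat_lit 0) (nat_lit 4)))) (.non (nat_lit 0) (nat_lit 4) (nat_lit 0x55054) (nat_lit 0x1000100010001000000000001000100010000))) (.non (nat_lit 0) (nat_lit 4) (nat_lit 0x55440) (nat_lit 0x1000100020002000100000001000000000000))) (.non (nat_lit 0) (nat_lit 4) (nat_lit 0x45440) (nat_lit 0x1000000010002000100000001000000000000))) (.non (nat_lit 0) (nat_lit 4) (nat_lit 0x55444) (nat_lit 0x1000100020003000200000002000000010000))) (.non (nat_lit 0) (nat_lit 4) (nat_lit 0x45444) (nat_lit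 0x1000000010002000100000002000000010000))) (.non (nat_lit 0) (nat_lit 4) (nat_lit 0x40014) (nat_lit 0x1000000000000000000000000000100010000)))) (.split (nat_lit 9) (nat_lit 1) (.split (nat_lit 9) (nat_lit 3) (.split (nat_lit 9) (nat_lit 4) (.split (nat_lit 9) (nat_lit 5) (.split (nat_lit 9) (nat_lit 6) (.split (nat_lit 9) (nat_lit 7) (.split (nat_lit 9) (nat_lit 8) (.split (nat_lit 9) (nat_lit 2) (.unj (nat_lit 0x40015) (nat_lit 0x1000000000000000000000000000100020002) (nat_lit 0x15500) (nat_lit 0x100020003000400030000000000000000)) (.unj (nat_lit 0x40015) (nat_lit 0x1000000000000000000000000000100010001) (nat_lit 0x15500) (nat_lit 0x100020003000400030000000000000000))) (.non (nat_lit 0) (nat_lit 4) (nat_lit 0x55454) (nat_lit 0x1000200030004000200000003000100020000))) (.non (nat_lit 0) (nat_lit 4) (nat_lit 0x55440) (nat_lit 0x1000100020002000100000001000000000000))) (.non (nat_lit 0) (nat_lit 4) (nat_lit 0x45440) (nat_lit 0x1000000010002000100000001000000000000))) (.star (nat_lit 9) (nat_lit 0) (nat_lit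 5))) (.star (nat_lit 9) (nat_lit 0) (nat_lit 4))) (.non (nat_lit 0) (nat_lit 4) (nat_lit 0x45444) (nat_lit 0x1000000010002000100000002000000010000))) (.non (nat_lit 0) (nat_lit 4) (nat_lit 0x45454) (nat_lit 0x1000000010002000100000002000100020000))))

noncomputable def t1121_4 : Tr := (.pd (.cons (nat_lit 2) (nat_lit 4) (nat_lit 0) (nat_lit 0x765501000) (nat_lit 0xf423fb71aea2c289896500000f423f00000b71ae1f156) (.cons (nat_lit 2) (nat_lit 5) (nat_lit 0) (nat_lit 0x766041000) (nat_lit 0xf423fb71aea2c2800000f423ff423f00000b71ae1f156) .nil)) (.ex (nat_lit 4) (.split (nat_lit 6) (nat_lit 2) (.pd (.cons (nat_lit 0) (nat_lit 6) (nat_lit 0) (nat_lit 0x770441110) (nat_lit 0xf423fb71ae00000f423f54591f423ff423f7a11d00000) (.cons (nat_lit 1) (nat_lit 6) (nat_lit 0) (nat_lit 0x770443200) (nat_lit 0xf423fb71ae00000f423f54591f423ff423f00000f423f) (.cons (nat_lit 1) (nat_lit 7) (nat_lit 0) (nat_lit 0x802653200) (nat_lit 0xf423f00000437a254591f423ff423f174ea00000f423f) (.cons (nat_lit 2) (nat_lit 6) (nat_lit 0) (nat_lit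 0x770441000) (nat_lit 0xf423fb71ae00000f423f54591f423f00000b71ae1f156) (.cons (nat_lit 2) (nat_lit 7) (nat_lit 0) (nat_lit 0x805441000) (nat_lit 0xf423f00000f423fb71ae1f156f423f00000b71ae1f156) (.cons (nat_lit 2) (nat_lit 8) (nat_lit 0) (nat_lit 0x65441000) (nat_lit 0xf423fb71aea2c2804737f423f00000b71ae1f156) (.cons (nat_lit 3) (nat_lit 6) (nat_lit 0) (nat_lit 0x770440100) (nat_lit 0xf423fb71ae00000f423f5459100000f423fb71ae1f156) .nil))))))) (.leaf (.cons (nat_lit 0x1514) (nat_lit 0x3000400030000000200010000) (.cons (nat_lit 0x5510) (nat_lit 0x10002000200020000000100000000) (.cons (nat_lit 0x5015) (nat_lit 0x10002000000000000000300040003) .nil))) .nil)) (.non (nat_lit 0) (nat_lit 4) (nat_lit 0xa810) (nat_lit 0x10002000100000000000200000000))) (.split (nat_lit 9) (nat_lit 0) (.split (nat_lit 9) (nat_lit 1) (.split (nat_lit 9) (nat_lit 2) (.split (nat_lit 9) (nat_lit 3) (.split (nat_lit 9) (nat_lit 5) (.split (nat_lit 9) (nat_lit 6) (.split (nat_lit 9) (nat_lit 7) (.split (nat_lit 9) (nat_lit 8) (.sup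 (nat_lit 0x50002000a0008) (nat_lit 0x50000000000020009000a0000000000000000)) (.non (nat_lit 0) (nat_lit 4) (nat_lit 0x55454) (nat_lit 0x1000200030004000200000001000300020000))) (.non (nat_lit 0) (nat_lit 4) (nat_lit 0x55410) (nat_lit 0x1000100020002000100000000000100000000))) (.non (nat_lit 0) (nat_lit 4) (nat_lit 0x45410) (nat_lit 0x1000000010002000100000000000100000000))) (.non (nat_lit 0) (nat_lit 4) (nat_lit 0x55414) (nat_lit 0x1000100020003000200000000000200010000))) (.non (nat_lit 2) (nat_lit 5) (nat_lit 0x40145) (nat_lit 0x2000000000000000000010003000000040003))) (.non (nat_lit 0) (nat_lit 4) (nat_lit 0x45414) (nat_lit 0x1000000010002000100000000000200010000))) (.star (nat_lit 9) (nat_lit 1) (nat_lit 4))) (.star (nat_lit 9) (nat_lit 0) (nat_lit 4)))))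

noncomputable def t1121_5 : Tr := (.split (nat_lit 8) (nat_lit 7) (.pd (.cons (nat_lit 2) (nat_lit 4) (nat_lit 0) (nat_lit 0x3765501000) (nat_lit 0xf423ff423fb71aea2c289896500000b71ae00000a2c2804737) .nil) (.st (nat_lit 8) (nat_lit 0) (nat_lit 4) (nat_lit 0x15454) (nat_lit 0x200030004000200000001000300020000) (nat_lit 1) (nat_lit 1) (.ex (nat_lit 4) (.split (nat_lit 9) (nat_lit 4) (.pd (.cons (nat_lit 1) (nat_lit 6) (nat_lit 0) (nat_lit 0x3770493200) (nat_lit 0x437a2f423fb71ae00000f423f54591174eaf423f00000f423f) (.cons (nat_lit 3) (nat_lit 6) (nat_lit 0) (nat_lit 0x4770440100) (nat_lit 0xf423ff423fb71ae00000f423f1750000000f423fb71ae1f156) .nil)) (.split (nat_lit 6) (nat_lit 2) (.leaf (.cons (nat_lit 0x40544) (nat_lit 0x3000000000000000300040002000000010000) (.cons (nat_lit 0x41500) (nat_lit 0x1000000000001000200020000000000000000) (.cons (nat_lit 0x40145) (nat_lit 0x2000000000000000000010003000000040003) (.cons (nat_lit 0x5015) (nat_lit 0x10002000000000000000300040003) .nil)))) (.cons (nat_lit 0x1111101110)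 (nat_lit 0x10001) (nat_lit 0xe) (nat_lit 0x7320106450) .nil)) (.non (nat_lit 0) (nat_lit 4) (nat_lit 0xa810) (nat_lit 0x10002000100000000000200000000)))) (.sup (nat_lit 0x2000000000000000400050000000000000000) (nat_lit 0x1000300050004))) (.split (nat_lit 0xa) (nat_lit 0) (.split (nat_lit 0xa) (nat_lit 1) (.split (nat_lit 0xa) (nat_lit 2) (.split (nat_lit 0xa) (nat_lit 3) (.split (nat_lit 0xa) (nat_lit 5) (.split (nat_lit 0xa) (nat_lit 6) (.split (nat_lit 0xa) (nat_lit 7) (.split (nat_lit 0xa) (nat_lit 8) (.split (nat_lit 0xa) (nat_lit 9) (.sup (nat_lit 0x50002000a0008) (nat_lit 0x500000000000000020009000a0000000000000000)) (.non (nat_lit 0) (nat_lit 4) (nat_lit 0x155454) (nat_lit 0x10002000200040006000300000003000500040000))) (.non (nat_lit 0) (nat_lit 4) (nat_lit 0x115454) (nat_lit 0x10000000200030004000200000001000300020000))) (.non (nat_lit 0) (nat_lit 4) (nat_lit 0x115410) (nat_lit 0x10000000100020002000100000000000100000000))) (.non (nat_lit 0) (nat_lit 4) (nat_lit 0x105410) (nat_lit 0x10000000000010002000100000000000100000000)))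 (.non (nat_lit 0) (nat_lit 4) (nat_lit 0x115414) (nat_lit 0x10000000100020003000200000000000200010000))) (.non (nat_lit 0) (nat_lit 4) (nat_lit 0x145454) (nat_lit 0x10001000000010002000100000002000200020000))) (.non (nat_lit 0) (nat_lit 4) (nat_lit 0x105414) (nat_lit 0x10000000000010002000100000000000200010000))) (.star (nat_lit 0xa) (nat_lit 1) (nat_lit 4))) (.star (nat_lit 0xa) (nat_lit 0) (nat_lit 4)))))) (.non (nat_lit 0) (nat_lit 4) (nat_lit 0x25410) (nat_lit 0x100020002000100000000000100000000)))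

noncomputable def t1121_6 : Tr := (.ex (nat_lit 0) (.ex (nat_lit 3) (.split (nat_lit 8) (nat_lit 7) t1121_4 (.non (nat_lit 0) (nat_lit 4) (nat_lit 0x25410) (nat_lit 0x100020002000100000000000100000000))) (.split (nat_lit 9) (nat_lit 1) (.split (nat_lit 9) (nat_lit 2) (.split (nat_lit 9) (nat_lit 5) (.split (nat_lit 9) (nat_lit 6) (.split (nat_lit 9) (nat_lit 7) (.split (nat_lit 9) (nat_lit 8) (.split (nat_lit 9) (nat_lit 0) (.split (nat_lit 9) (nat_lit 4) (.split (nat_lit 9) (nat_lit 3) (.split (nat_lit 8) (nat_lit 7) (.split (nat_lit 6) (nat_lit 2) (.sup (nat_lit 0x40008000b0010000d0000000000000000) (nat_lit 0x40000000000000000000000080001000d000a)) (.non (nat_lit 0) (nat_lit 4) (nat_lit 0xa810) (nat_lit 0x10002000100000000000200000000))) (.non (nat_lit 0) (nat_lit 4) (nat_lit 0x25410) (nat_lit 0x100020002000100000000000100000000))) (.non (nat_lit 0) (nat_lit 4) (nat_lit 0x85454) (nat_lit 0x1000000010002000100000002000200020000))) (.st (nat_lit 3) (nat_lit 0) (nat_lit 4) (nat_lit 0x45454) (nat_lit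 0x1000000010002000100000002000200020000) (nat_lit 1) (nat_lit 1) (.st (nat_lit 9) (nat_lit 0) (nat_lit 4) (nat_lit 0x55454) (nat_lit 0x2000200040006000300000003000500040000) (nat_lit 1) (nat_lit 1) (.split (nat_lit 9) (nat_lit 3) t1121_5 (.non (nat_lit 0) (nat_lit 4) (nat_lit 0x85454) (nat_lit 0x1000000010002000100000002000200020000)))))) (.split (nat_lit 9) (nat_lit 4) (.unj (nat_lit 0x40045) (nat_lit 0x1000000000000000000000001000000010001) (nat_lit 0x15500) (nat_lit 0x100020003000400030000000000000000)) (.star (nat_lit 9) (nat_lit 0) (nat_lit 4)))) (.non (nat_lit 0) (nat_lit 4) (nat_lit 0x55054) (nat_lit 0x1000100010001000000000001000100010000))) (.non (nat_lit 0) (nat_lit 4) (nat_lit 0x55410) (nat_lit 0x1000100020002000100000000000100000000))) (.non (nat_lit 0) (nat_lit 4) (nat_lit 0x45410) (nat_lit 0x1000000010002000100000000000100000000))) (.non (nat_lit 0) (nat_lit 4) (nat_lit 0x55414) (nat_lit 0x1000100020003000200000000000200010000))) (.non (nat_lit 0) (nat_lit 4) (nat_lit 0x45414) (nat_lit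 0x1000000010002000100000000000200010000))) (.non (nat_lit 0) (nat_lit 4) (nat_lit 0x40044) (nat_lit 0x1000000000000000000000001000000010000)))) (.split (nat_lit 9) (nat_lit 1) (.split (nat_lit 9) (nat_lit 2) (.split (nat_lit 9) (nat_lit 4) (.split (nat_lit 9) (nat_lit 5) (.split (nat_lit 9) (nat_lit 6) (.split (nat_lit 9) (nat_lit 7) (.split (nat_lit 9) (nat_lit 8) (.split (nat_lit 9) (nat_lit 3) (.unj (nat_lit 0x40045) (nat_lit 0x1000000000000000000000001000000020002) (nat_lit 0x15500) (nat_lit 0x100020003000400030000000000000000)) (.unj (nat_lit 0x40045) (nat_lit 0x1000000000000000000000001000000010001) (nat_lit 0x15500) (nat_lit 0x100020003000400030000000000000000))) (.non (nat_lit 0) (nat_lit 4) (nat_lit 0x55454) (nat_lit 0x1000200030004000200000001000300020000))) (.non (nat_lit 0) (nat_lit 4) (nat_lit 0x55410) (nat_lit 0x1000100020002000100000000000100000000))) (.non (nat_lit 0) (nat_lit 4) (nat_lit 0x45410) (nat_lit 0x1000000010002000100000000000100000000))) (.star (nat_lit 9) (nat_lit 0) (nat_lit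 5))) (.star (nat_lit 9) (nat_lit 0) (nat_lit 4))) (.non (nat_lit 0) (nat_lit 4) (nat_lit 0x45414) (nat_lit 0x1000000010002000100000000000200010000))) (.non (nat_lit 0) (nat_lit 4) (nat_lit 0x45454) (nat_lit 0x1000000010002000100000001000200020000))))

noncomputable def t1121_7 : Tr := (.ex (nat_lit 4) (.split (nat_lit 7) (nat_lit 3) (.pd (.cons (nat_lit 0) (nat_lit 6) (nat_lit 0) (nat_lit 0x730441110) (nat_lit 0xf423fb71ae00000f423f54591a2c28f423f5b8d400000) (.cons (nat_lit 0) (nat_lit 7) (nat_lit 0) (nat_lit 0x805441110) (nat_lit 0xf423f00000f423fb71ae1f156f423ff423f7a11d00000) (.cons (nat_lit 1) (nat_lit 6) (nat_lit 0) (nat_lit 0x730443200) (nat_lit 0xf423fb71ae00000f423f54591a2c28f423f00000f423f) (.cons (nat_lit 1) (nat_lit 7) (nat_lit 0) (nat_lit 0x805443200) (nat_lit 0xf423f00000f423fb71ae1f156f423ff423f00000f423f) (.cons (nat_lit 2) (nat_lit 7) (nat_lit 0) (nat_lit 0x805441000) (nat_lit 0xf423f00000f423fb71ae1f156f423f00000b71ae1f156) (.cons (nat_lit 3) (nat_lit 6) (nat_lit 0) (nat_lit 0x770440100)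 (nat_lit 0xf423fb71ae00000f423f5459100000f423fb71ae1f156) (.cons (nat_lit 3) (nat_lit 7) (nat_lit 0) (nat_lit 0x805440100) (nat_lit 0xf423f00000f423fb71ae1f15600000f423fb71ae1f156) (.cons (nat_lit 3) (nat_lit 8) (nat_lit 0) (nat_lit 0x65440100) (nat_lit 0xf423fb71aea2c280473700000f423fb71ae1f156) .nil)))))))) (.leaf (.cons (nat_lit 0x5540) (nat_lit 0x20003000400030001000000000000) (.cons (nat_lit 0x14045) (nat_lit 0x100020000000000000003000000040003) .nil)) (.cons (nat_lit 0x111001110) (nat_lit 0x100001) (nat_lit 9) (nat_lit 0x201003540) (.cons (nat_lit 0x110001110) (nat_lit 0x1000001) (nat_lit 3) (nat_lit 0x430002010) (.cons (nat_lit 0x111101000) (nat_lit 0x10010) (nat_lit 8) (nat_lit 0x203401000) (.cons (nat_lit 0x111001000) (nat_lit 0x100010) (nat_lit 7) (nat_lit 0x302001000) (.cons (nat_lit 0x110001000) (nat_lit 0x1000010) (nat_lit 1) (nat_lit 0x210000000) .nil))))))) (.non (nat_lit 0) (nat_lit 4) (nat_lit 0x2a040) (nat_lit 0x100020001000000000002000000000000))) (.split (nat_lit 9) (nat_lit 0)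 (.split (nat_lit 9) (nat_lit 1) (.split (nat_lit 9) (nat_lit 2) (.split (nat_lit 9) (nat_lit 3) (.split (nat_lit 9) (nat_lit 5) (.split (nat_lit 9) (nat_lit 6) (.split (nat_lit 9) (nat_lit 7) (.split (nat_lit 9) (nat_lit 8) (.unj (nat_lit 0x55) (nat_lit 0x1000100020002) (nat_lit 0x41500) (nat_lit 0x1000000000001000200020000000000000000)) (.non (nat_lit 0) (nat_lit 4) (nat_lit 0x55444) (nat_lit 0x1000200030002000100000002000000010000))) (.non (nat_lit 0) (nat_lit 4) (nat_lit 0x55040) (nat_lit 0x1000100020001000000000001000000000000))) (.non (nat_lit 0) (nat_lit 4) (nat_lit 0x55440) (nat_lit 0x1000100020002000100000001000000000000))) (.non (nat_lit 0) (nat_lit 4) (nat_lit 0x55454) (nat_lit 0x1000200040003000200000003000100020000))) (.non (nat_lit 0) (nat_lit 4) (nat_lit 0x55044) (nat_lit 0x1000100020001000000000002000000010000))) (.non (nat_lit 3) (nat_lit 5) (nat_lit 0x40115) (nat_lit 0x2000000000000000000010000000300040003))) (.star (nat_lit 9) (nat_lit 1) (nat_lit 4))) (.star (nat_lit 9) (nat_lit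 0) (nat_lit 4))))

noncomputable def t1121_8 : Tr := (.ex (nat_lit 0) (.ex (nat_lit 2) (.split (nat_lit 8) (nat_lit 7) (.pd (.cons (nat_lit 3) (nat_lit 4) (nat_lit 0) (nat_lit 0x765500100) (nat_lit 0xf423fb71aea2c28989650000000000f423fb71ae1f156) (.cons (nat_lit 3) (nat_lit 5) (nat_lit 0) (nat_lit 0x766040100) (nat_lit 0xf423fb71aea2c2800000f423f00000f423fb71ae1f156) .nil)) t1121_7) (.non (nat_lit 0) (nat_lit 4) (nat_lit 0x25040) (nat_lit 0x100020001000000000001000000000000))) (.split (nat_lit 9) (nat_lit 1) (.split (nat_lit 9) (nat_lit 3) (.split (nat_lit 9) (nat_lit 5) (.split (nat_lit 9) (nat_lit 6) (.split (nat_lit 9) (nat_lit 7) (.split (nat_lit 9) (nat_lit 8) (.split (nat_lit 9) (nat_lit 0) (.split (nat_lit 9) (nat_lit 4) (.sup (nat_lit 0x7000e00170020001a0000000000000000) (nat_lit 0x5000000000000000000000001000b0011000d)) (.sup (nat_lit 0x50002000a0008) (nat_lit 0x2000000000005000a00090000000000000000))) (.split (nat_lit 9) (nat_lit 4) (.unj (nat_lit 0x40015) (nat_lit 0x1000000000000000000000000000100010001)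 (nat_lit 0x15500) (nat_lit 0x100020003000400030000000000000000)) (.star (nat_lit 9) (nat_lit 0) (nat_lit 4)))) (.non (nat_lit 0) (nat_lit 4) (nat_lit 0x55444) (nat_lit 0x1000200030002000100000002000000010000))) (.non (nat_lit 0) (nat_lit 4) (nat_lit 0x55040) (nat_lit 0x1000100020001000000000001000000000000))) (.non (nat_lit 0) (nat_lit 4) (nat_lit 0x55440) (nat_lit 0x1000100020002000100000001000000000000))) (.non (nat_lit 0) (nat_lit 4) (nat_lit 0x45454) (nat_lit 0x1000000010001000100000001000100010000))) (.non (nat_lit 0) (nat_lit 4) (nat_lit 0x55044) (nat_lit 0x1000100020001000000000002000000010000))) (.non (nat_lit 0) (nat_lit 4) (nat_lit 0x40014) (nat_lit 0x1000000000000000000000000000100010000)))) (.split (nat_lit 9) (nat_lit 1) (.split (nat_lit 9) (nat_lit 3) (.split (nat_lit 9) (nat_lit 4) (.split (nat_lit 9) (nat_lit 5) (.split (nat_lit 9) (nat_lit 6) (.split (nat_lit 9) (nat_lit 7) (.split (nat_lit 9) (nat_lit 8) (.split (nat_lit 9) (nat_lit 2) (.unj (nat_lit 0x40015) (nat_lit 0x1000000000000000000000000000100020002)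 (nat_lit 0x15500) (nat_lit 0x100020003000400030000000000000000)) (.unj (nat_lit 0x40015) (nat_lit 0x1000000000000000000000000000100010001) (nat_lit 0x15500) (nat_lit 0x100020003000400030000000000000000))) (.non (nat_lit 0) (nat_lit 4) (nat_lit 0x55444) (nat_lit 0x1000200030002000100000002000000010000))) (.non (nat_lit 0) (nat_lit 4) (nat_lit 0x55040) (nat_lit 0x1000100020001000000000001000000000000))) (.non (nat_lit 0) (nat_lit 4) (nat_lit 0x55440) (nat_lit 0x1000100020002000100000001000000000000))) (.star (nat_lit 9) (nat_lit 0) (nat_lit 5))) (.star (nat_lit 9) (nat_lit 0) (nat_lit 4))) (.non (nat_lit 0) (nat_lit 4) (nat_lit 0x55044) (nat_lit 0x1000100020001000000000002000000010000))) (.non (nat_lit 0) (nat_lit 4) (nat_lit 0x55054) (nat_lit 0x1000100020001000000000002000100020000))))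

noncomputable def t1121_9 : Tr := (.split (nat_lit 7) (nat_lit 3) (.split (nat_lit 6) (nat_lit 2) (.split (nat_lit 6) (nat_lit 3) .uj (.st (nat_lit 1) (nat_lit 0) (nat_lit 4) (nat_lit 0x5454) (nat_lit 0x10002000100000002000100020000) (nat_lit 1) (nat_lit 1) (.st (nat_lit 3) (nat_lit 0) (nat_lit 4) (nat_lit 0x5444) (nat_lit 0x10002000100000002000000010000) (nat_lit 1) (nat_lit 1) (.st (nat_lit 5) (nat_lit 0) (nat_lit 4) (nat_lit 0x15444) (nat_lit 0x100020003000200000002000000010000) (nat_lit 1) (nat_lit 1) (.st (nat_lit 6) (nat_lit 0) (nat_lit 4) (nat_lit 0x5440) (nat_lit 0x10002000100000001000000000000) (nat_lit 1) (nat_lit 1) (.st (nat_lit 7) (nat_lit 0) (nat_lit 4) (nat_lit 0x15440) (nat_lit 0x100020002000100000001000000000000) (nat_lit 1) (nat_lit 1) t1121_3)))))) (.split (nat_lit 6) (nat_lit 3) (.st (nat_lit 1) (nat_lit 0) (nat_lit 4) (nat_lit 0x5454) (nat_lit 0x10002000100000001000200020000) (nat_lit 1) (nat_lit 1) (.st (nat_lit 2) (nat_lit 0) (nat_lit 4) (nat_lit 0x5414) (nat_lit 0x10002000100000000000200010000)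 (nat_lit 1) (nat_lit 1) (.st (nat_lit 5) (nat_lit 0) (nat_lit 4) (nat_lit 0x15414) (nat_lit 0x100020003000200000000000200010000) (nat_lit 1) (nat_lit 1) (.st (nat_lit 6) (nat_lit 0) (nat_lit 4) (nat_lit 0x5410) (nat_lit 0x10002000100000000000100000000) (nat_lit 1) (nat_lit 1) (.st (nat_lit 7) (nat_lit 0) (nat_lit 4) (nat_lit 0x15410) (nat_lit 0x100020002000100000000000100000000) (nat_lit 1) (nat_lit 1) t1121_6))))) (.non (nat_lit 0) (nat_lit 4) (nat_lit 0x5450) (nat_lit 0x10002000100000001000100000000)))) (.split (nat_lit 6) (nat_lit 2) (.split (nat_lit 6) (nat_lit 3) (.st (nat_lit 1) (nat_lit 0) (nat_lit 4) (nat_lit 0x15054) (nat_lit 0x100020001000000000002000100020000) (nat_lit 1) (nat_lit 1) (.st (nat_lit 3) (nat_lit 0) (nat_lit 4) (nat_lit 0x15044) (nat_lit 0x100020001000000000002000000010000) (nat_lit 1) (nat_lit 1) (.st (nat_lit 5) (nat_lit 0) (nat_lit 4) (nat_lit 0x15454) (nat_lit 0x200040003000200000003000100020000) (nat_lit 1) (nat_lit 1) (.st (nat_lit 6) (nat_lit 0) (nat_lit 4) (nat_lit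 0x15440) (nat_lit 0x100020002000100000001000000000000) (nat_lit 1) (nat_lit 1) (.st (nat_lit 7) (nat_lit 0) (nat_lit 4) (nat_lit 0x15040) (nat_lit 0x100020001000000000001000000000000) (nat_lit 1) (nat_lit 1) (.st (nat_lit 8) (nat_lit 0) (nat_lit 4) (nat_lit 0x15444) (nat_lit 0x200030002000100000002000000010000) (nat_lit 1) (nat_lit 1) t1121_8)))))) (.non (nat_lit 0) (nat_lit 4) (nat_lit 0x5040) (nat_lit 0x10001000000000001000000000000))) (.non (nat_lit 0) (nat_lit 4) (nat_lit 0x15450) (nat_lit 0x100020002000100000001000100000000))))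

noncomputable def t1121_10 : Tr := (.ex (nat_lit 4) (.split (nat_lit 7) (nat_lit 2) (.pd (.cons (nat_lit 0) (nat_lit 6) (nat_lit 0) (nat_lit 0x720441110) (nat_lit 0xf423fb71ae00000f423f54591f423fa2c285b8d400000) (.cons (nat_lit 0) (nat_lit 7) (nat_lit 0) (nat_lit 0x805441110) (nat_lit 0xf423f00000f423fb71ae1f156f423ff423f7a11d00000) (.cons (nat_lit 1) (nat_lit 6) (nat_lit 0) (nat_lit 0x720443200) (nat_lit 0xf423fb71ae00000f423f54591f423fa2c2800000f423f) (.cons (nat_lit 1) (nat_lit 7) (nat_lit 0) (nat_lit 0x805443200) (nat_lit 0xf423f00000f423fb71ae1f156f423ff423f00000f423f) (.cons (nat_lit 2) (nat_lit 6) (nat_lit 0) (nat_lit 0x770441000) (nat_lit 0xf423fb71ae00000f423f54591f423f00000b71ae1f156) (.cons (nat_lit 2) (nat_lit 7) (nat_lit 0) (nat_lit 0x805441000) (nat_lit 0xf423f00000f423fb71ae1f156f423f00000b71ae1f156) (.cons (nat_lit 2) (nat_lit 8) (nat_lit 0) (nat_lit 0x65441000) (nat_lit 0xf423fb71aea2c2804737f423f00000b71ae1f156) (.cons (nat_lit 3) (nat_lit 7) (nat_lit 0) (nat_lit 0x805440100) (nat_lit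 0xf423f00000f423fb71ae1f15600000f423fb71ae1f156) .nil)))))))) (.leaf (.cons (nat_lit 0x5510) (nat_lit 0x20003000400030000000100000000) (.cons (nat_lit 0x14015) (nat_lit 0x100020000000000000000000300040003) .nil)) (.cons (nat_lit 0x111001110) (nat_lit 0x100001) (nat_lit 9) (nat_lit 0x201005340) (.cons (nat_lit 0x110001110) (nat_lit 0x1000001) (nat_lit 3) (nat_lit 0x430000210) (.cons (nat_lit 0x111100100) (nat_lit 0x10010) (nat_lit 8) (nat_lit 0x203400100) (.cons (nat_lit 0x111000100) (nat_lit 0x100010) (nat_lit 7) (nat_lit 0x302000100) (.cons (nat_lit 0x110000100) (nat_lit 0x1000010) (nat_lit 1) (nat_lit 0x210000000) .nil))))))) (.non (nat_lit 0) (nat_lit 4) (nat_lit 0x2a010) (nat_lit 0x100020001000000000000000200000000))) (.split (nat_lit 9) (nat_lit 0) (.split (nat_lit 9) (nat_lit 1) (.split (nat_lit 9) (nat_lit 2) (.split (nat_lit 9) (nat_lit 3) (.split (nat_lit 9) (nat_lit 5) (.split (nat_lit 9) (nat_lit 6) (.split (nat_lit 9) (nat_lit 7) (.split (nat_lit 9) (nat_lit 8) (.unj (nat_lit 0x55) (nat_lit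 0x1000100020002) (nat_lit 0x41500) (nat_lit 0x1000000000001000200020000000000000000)) (.non (nat_lit 0) (nat_lit 4) (nat_lit 0x55414) (nat_lit 0x1000200030002000100000000000200010000))) (.non (nat_lit 0) (nat_lit 4) (nat_lit 0x55010) (nat_lit 0x1000100020001000000000000000100000000))) (.non (nat_lit 0) (nat_lit 4) (nat_lit 0x55410) (nat_lit 0x1000100020002000100000000000100000000))) (.non (nat_lit 0) (nat_lit 4) (nat_lit 0x55454) (nat_lit 0x1000200040003000200000001000300020000))) (.non (nat_lit 2) (nat_lit 5) (nat_lit 0x40145) (nat_lit 0x2000000000000000000010003000000040003))) (.non (nat_lit 0) (nat_lit 4) (nat_lit 0x55014) (nat_lit 0x1000100020001000000000000000200010000))) (.star (nat_lit 9) (nat_lit 1) (nat_lit 4))) (.star (nat_lit 9) (nat_lit 0) (nat_lit 4))))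

noncomputable def t1121_11 : Tr := (.ex (nat_lit 0) (.ex (nat_lit 3) (.split (nat_lit 8) (nat_lit 7) (.pd (.cons (nat_lit 2) (nat_lit 4) (nat_lit 0) (nat_lit 0x765501000) (nat_lit 0xf423fb71aea2c289896500000f423f00000b71ae1f156) (.cons (nat_lit 2) (nat_lit 5) (nat_lit 0) (nat_lit 0x766041000) (nat_lit 0xf423fb71aea2c2800000f423ff423f00000b71ae1f156) .nil)) t1121_10) (.non (nat_lit 0) (nat_lit 4) (nat_lit 0x25010) (nat_lit 0x100020001000000000000000100000000))) (.split (nat_lit 9) (nat_lit 1) (.split (nat_lit 9) (nat_lit 2) (.split (nat_lit 9) (nat_lit 5) (.split (nat_lit 9) (nat_lit 6) (.split (nat_lit 9) (nat_lit 7) (.split (nat_lit 9) (nat_lit 8) (.split (nat_lit 9) (nat_lit 0) (.split (nat_lit 9) (nat_lit 4) (.sup (nat_lit 0x7000e00170020001a0000000000000000) (nat_lit 0x500000000000000000000000b00010011000d)) (.sup (nat_lit 0x20005000a0008) (nat_lit 0x2000000000005000a00090000000000000000))) (.split (nat_lit 9) (nat_lit 4) (.unj (nat_lit 0x40045) (nat_lit 0x1000000000000000000000001000000010001)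 (nat_lit 0x15500) (nat_lit 0x100020003000400030000000000000000)) (.star (nat_lit 9) (nat_lit 0) (nat_lit 4)))) (.non (nat_lit 0) (nat_lit 4) (nat_lit 0x55414) (nat_lit 0x1000200030002000100000000000200010000))) (.non (nat_lit 0) (nat_lit 4) (nat_lit 0x55010) (nat_lit 0x1000100020001000000000000000100000000))) (.non (nat_lit 0) (nat_lit 4) (nat_lit 0x55410) (nat_lit 0x1000100020002000100000000000100000000))) (.non (nat_lit 0) (nat_lit 4) (nat_lit 0x45454) (nat_lit 0x1000000010001000100000001000100010000))) (.non (nat_lit 0) (nat_lit 4) (nat_lit 0x55014) (nat_lit 0x1000100020001000000000000000200010000))) (.non (nat_lit 0) (nat_lit 4) (nat_lit 0x40044) (nat_lit 0x1000000000000000000000001000000010000)))) (.split (nat_lit 9) (nat_lit 1) (.split (nat_lit 9) (nat_lit 2) (.split (nat_lit 9) (nat_lit 4) (.split (nat_lit 9) (nat_lit 5) (.split (nat_lit 9) (nat_lit 6) (.split (nat_lit 9) (nat_lit 7) (.split (nat_lit 9) (nat_lit 8) (.split (nat_lit 9) (nat_lit 3) (.unj (nat_lit 0x40045) (nat_lit 0x1000000000000000000000001000000020002)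 (nat_lit 0x15500) (nat_lit 0x100020003000400030000000000000000)) (.unj (nat_lit 0x40045) (nat_lit 0x1000000000000000000000001000000010001) (nat_lit 0x15500) (nat_lit 0x100020003000400030000000000000000))) (.non (nat_lit 0) (nat_lit 4) (nat_lit 0x55414) (nat_lit 0x1000200030002000100000000000200010000))) (.non (nat_lit 0) (nat_lit 4) (nat_lit 0x55010) (nat_lit 0x1000100020001000000000000000100000000))) (.non (nat_lit 0) (nat_lit 4) (nat_lit 0x55410) (nat_lit 0x1000100020002000100000000000100000000))) (.star (nat_lit 9) (nat_lit 0) (nat_lit 5))) (.star (nat_lit 9) (nat_lit 0) (nat_lit 4))) (.non (nat_lit 0) (nat_lit 4) (nat_lit 0x55014) (nat_lit 0x1000100020001000000000000000200010000))) (.non (nat_lit 0) (nat_lit 4) (nat_lit 0x55054) (nat_lit 0x1000100020001000000000001000200020000))))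

noncomputable def t1121_12 : Tr := (.ex (nat_lit 0xa) (.leaf (.cons (nat_lit 0x5501) (nat_lit 0x20003000400030000000000000001) (.cons (nat_lit 0x54005) (nat_lit 0x1000200030000000000000000000000030004) .nil)) (.cons (nat_lit 0x11111100001) (nat_lit 0x10010) (nat_lit 0xd) (nat_lit 0x65402300001) (.cons (nat_lit 0x11111000001) (nat_lit 0x100010) (nat_lit 9) (nat_lit 0x54302000001) .nil))) (.split (nat_lit 0xb) (nat_lit 0) (.split (nat_lit 0xb) (nat_lit 1) (.split (nat_lit 0xb) (nat_lit 2) (.split (nat_lit 0xb) (nat_lit 3) (.split (nat_lit 0xb) (nat_lit 4) (.split (nat_lit 0xb) (nat_lit 5) (.split (nat_lit 0xb) (nat_lit 6) (.split (nat_lit 0xb) (nat_lit 7) (.split (nat_lit 0xb) (nat_lit 8) (.split (nat_lit 0xb) (nat_lit 9) (.st (nat_lit 0xa) (nat_lit 1) (nat_lit 4) (nat_lit 0x555001) (nat_lit 0x100020002000200020001000000000000000000000001) (nat_lit 1) (nat_lit 1) (.st (nat_lit 0xb) (nat_lit 1) (nat_lit 4) (nat_lit 0x555401) (nat_lit 0x200030004000500060004000200000000000000000003) (nat_lit 1) (nat_lit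 1) (.split (nat_lit 0xb) (nat_lit 0xa) (.leaf (.cons (nat_lit 0x5501) (nat_lit 0x20003000400030000000000000001) (.cons (nat_lit 0x54005) (nat_lit 0x1000200030000000000000000000000030004) .nil)) (.cons (nat_lit 0x111111100001) (nat_lit 0x10010) (nat_lit 0xe) (nat_lit 0x765402300001) (.cons (nat_lit 0x111110000001) (nat_lit 0x1000010) (nat_lit 4) (nat_lit 0x543210000000) .nil))) (.non (nat_lit 1) (nat_lit 4) (nat_lit 0x955001) (nat_lit 0x100020002000200020001000000000000000000000001))))) (.non (nat_lit 0) (nat_lit 4) (nat_lit 0x540000) (nat_lit 0x100010001000000000000000000000000000000000000))) (.non (nat_lit 0) (nat_lit 4) (nat_lit 0x550000) (nat_lit 0x100010001000100000000000000000000000000000000))) (.non (nat_lit 0) (nat_lit 4) (nat_lit 0x554000) (nat_lit 0x100010001000100010000000000000000000000000000))) (.non (nat_lit 0) (nat_lit 4) (nat_lit 0x555000) (nat_lit 0x100010001000100010001000000000000000000000000))) (.non (nat_lit 0) (nat_lit 4) (nat_lit 0x555400) (nat_lit 0x100010001000100010001000100000000000000000000)))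 (.non (nat_lit 0) (nat_lit 6) (nat_lit 0x540500) (nat_lit 0x300020001000000000000000300040000000000000000))) (.non (nat_lit 1) (nat_lit 4) (nat_lit 0x555441) (nat_lit 0x200030004000500060004000200000001000000000003))) (.non (nat_lit 1) (nat_lit 4) (nat_lit 0x555411) (nat_lit 0x200030004000500060004000200000000000100000003))) (.non (nat_lit 2) (nat_lit 7) (nat_lit 0x540005) (nat_lit 0x300020001000000000000000000000000000000040003))) (.non (nat_lit 1) (nat_lit 4) (nat_lit 0x554001) (nat_lit 0x100010001000100010000000000000000000000000001))))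

noncomputable def t1121_13 : Tr := (.split (nat_lit 9) (nat_lit 4) (.split (nat_lit 9) (nat_lit 5) (.split (nat_lit 9) (nat_lit 6) (.split (nat_lit 9) (nat_lit 7) (.st (nat_lit 8) (nat_lit 1) (nat_lit 4) (nat_lit 0x55001) (nat_lit 0x1000200020001000000000000000000000001) (nat_lit 1) (nat_lit 1) (.split (nat_lit 9) (nat_lit 8) (.ex (nat_lit 9) (.leaf (.cons (nat_lit 0x5501) (nat_lit 0x20003000400030000000000000001) (.cons (nat_lit 0x54005) (nat_lit 0x1000200030000000000000000000000030004) .nil)) (.cons (nat_lit 0x1111100001) (nat_lit 0x10010) (nat_lit 0xc) (nat_lit 0x5402300001) .nil)) (.split (nat_lit 0xa) (nat_lit 0) (.split (nat_lit 0xa) (nat_lit 1) (.split (nat_lit 0xa) (nat_lit 2) (.split (nat_lit 0xa) (nat_lit 3) (.split (nat_lit 0xa) (nat_lit 4) (.split (nat_lit 0xa) (nat_lit 5) (.split (nat_lit 0xa) (nat_lit 6) (.split (nat_lit 0xa) (nat_lit 7) (.split (nat_lit 0xa) (nat_lit 8) (.st (nat_lit 9) (nat_lit 1) (nat_lit 4) (nat_lit 0x155001) (nat_lit 0x10002000200020001000000000000000000000001)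 (nat_lit 1) (nat_lit 1) (.split (nat_lit 0xa) (nat_lit 9) t1121_12 (.non (nat_lit 1) (nat_lit 4) (nat_lit 0x255001) (nat_lit 0x10002000200020001000000000000000000000001)))) (.non (nat_lit 0) (nat_lit 4) (nat_lit 0x150000) (nat_lit 0x10001000100000000000000000000000000000000))) (.non (nat_lit 0) (nat_lit 4) (nat_lit 0x154000) (nat_lit 0x10001000100010000000000000000000000000000))) (.non (nat_lit 0) (nat_lit 4) (nat_lit 0x155000) (nat_lit 0x10001000100010001000000000000000000000000))) (.non (nat_lit 0) (nat_lit 4) (nat_lit 0x155400) (nat_lit 0x10001000100010001000100000000000000000000))) (.non (nat_lit 0) (nat_lit 6) (nat_lit 0x150500) (nat_lit 0x30002000100000000000300040000000000000000))) (.non (nat_lit 2) (nat_lit 7) (nat_lit 0x140045) (nat_lit 0x20001000000000000000000000003000000040003))) (.non (nat_lit 3) (nat_lit 7) (nat_lit 0x140015) (nat_lit 0x20001000000000000000000000000000300040003))) (.non (nat_lit 2) (nat_lit 7) (nat_lit 0x150005) (nat_lit 0x30002000100000000000000000000000000040003)))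 (.non (nat_lit 1) (nat_lit 4) (nat_lit 0x154001) (nat_lit 0x10001000100010000000000000000000000000001)))) (.non (nat_lit 1) (nat_lit 4) (nat_lit 0x95001) (nat_lit 0x1000200020001000000000000000000000001)))) (.non (nat_lit 0) (nat_lit 4) (nat_lit 0x54000) (nat_lit 0x1000100010000000000000000000000000000))) (.non (nat_lit 0) (nat_lit 4) (nat_lit 0x55000) (nat_lit 0x1000100010001000000000000000000000000))) (.non (nat_lit 0) (nat_lit 4) (nat_lit 0x55400) (nat_lit 0x1000100010001000100000000000000000000))) (.non (nat_lit 0) (nat_lit 6) (nat_lit 0x54500) (nat_lit 0x3000200010000000300040000000000000000)))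

noncomputable def t1121_14 : Tr := (.ex (nat_lit 5) (.split (nat_lit 7) (nat_lit 0) (.split (nat_lit 8) (nat_lit 7) (.pd (.cons (nat_lit 0) (nat_lit 6) (nat_lit 0) (nat_lit 0x770441110) (nat_lit 0xf423fb71ae00000f423f54591f423ff423f7a11d00000) (.cons (nat_lit 0) (nat_lit 7) (nat_lit 0) (nat_lit 0x805441110) (nat_lit 0xf423f00000f423fb71ae1f156f423ff423f7a11d00000) (.cons (nat_lit 0) (nat_lit 8) (nat_lit 0) (nat_lit 0x65441110) (nat_lit 0xf423fb71aea2c2804737f423ff423f7a11d00000) (.cons (nat_lit 1) (nat_lit 6) (nat_lit 0) (nat_lit 0x700443200) (nat_lit 0xf423fb71ae00000f423f54591f423ff423f00000a2c28) (.cons (nat_lit 1) (nat_lit 7) (nat_lit 0) (nat_lit 0x805443200) (nat_lit 0xf423f00000f423fb71ae1f156f423ff423f00000f423f) (.cons (nat_lit 2) (nat_lit 7) (nat_lit 0) (nat_lit 0x805441000) (nat_lit 0xf423f00000f423fb71ae1f156f423f00000b71ae1f156) (.cons (nat_lit 3) (nat_lit 7) (nat_lit 0) (nat_lit 0x805440100) (nat_lit 0xf423f00000f423fb71ae1f15600000f423fb71ae1f156) .nil))))))) (.ex (nat_lit 8) (.leaf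 (.cons (nat_lit 0x5501) (nat_lit 0x20003000400030000000000000001) (.cons (nat_lit 0x15005) (nat_lit 0x100020001000000000000000000020002) (.cons (nat_lit 0x4045) (nat_lit 0x10000000000000001000000020002) (.cons (nat_lit 0x4015) (nat_lit 0x10000000000000000000100020002) .nil)))) (.cons (nat_lit 0x111100001) (nat_lit 0x10010) (nat_lit 8) (nat_lit 0x203400001) (.cons (nat_lit 0x111000001) (nat_lit 0x100010) (nat_lit 7) (nat_lit 0x302000001) .nil))) (.split (nat_lit 9) (nat_lit 0) (.split (nat_lit 9) (nat_lit 1) (.split (nat_lit 9) (nat_lit 2) (.split (nat_lit 9) (nat_lit 3) t1121_13 (.non (nat_lit 2) (nat_lit 7) (nat_lit 0x50045) (nat_lit 0x2000100000000000000000003000000040003))) (.non (nat_lit 3) (nat_lit 7) (nat_lit 0x50015) (nat_lit 0x2000100000000000000000000000300040003))) (.non (nat_lit 2) (nat_lit 7) (nat_lit 0x40045) (nat_lit 0x1000000000000000000000001000000020002))) (.non (nat_lit 1) (nat_lit 4) (nat_lit 0x54001) (nat_lit 0x1000100010000000000000000000000000001))))) (.non (nat_lit 1) (nat_lit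 4) (nat_lit 0x25001) (nat_lit 0x100020001000000000000000000000001))) (.non (nat_lit 1) (nat_lit 4) (nat_lit 0x2a001) (nat_lit 0x100020001000000000000000000000002))) (.split (nat_lit 9) (nat_lit 0) (.split (nat_lit 9) (nat_lit 1) (.split (nat_lit 9) (nat_lit 6) (.split (nat_lit 9) (nat_lit 7) (.split (nat_lit 9) (nat_lit 8) (.split (nat_lit 9) (nat_lit 2) (.split (nat_lit 9) (nat_lit 3) (.split (nat_lit 9) (nat_lit 4) (.unj (nat_lit 0x55) (nat_lit 0x1000100020002) (nat_lit 0x41500) (nat_lit 0x1000000000001000200020000000000000000)) (.unj (nat_lit 0x40500) (nat_lit 0x1000000000000000100010000000000000000) (nat_lit 0x55) (nat_lit 0x1000100020002))) (.split (nat_lit 9) (nat_lit 4) (.sup (nat_lit 0x1000300050004) (nat_lit 0x1000000000003000500040000000000000000)) (.unj (nat_lit 0x40500) (nat_lit 0x1000000000000000100010000000000000000) (nat_lit 0x4015) (nat_lit 0x10000000000000000000100020002)))) (.split (nat_lit 9) (nat_lit 3) (.split (nat_lit 9) (nat_lit 4) (.sup (nat_lit 0x3000100050004) (nat_lit 0x1000000000003000500040000000000000000))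 (.unj (nat_lit 0x40500) (nat_lit 0x1000000000000000100010000000000000000) (nat_lit 0x4045) (nat_lit 0x10000000000000001000000020002))) (.non (nat_lit 0) (nat_lit 4) (nat_lit 0x40054) (nat_lit 0x1000000000000000000000001000100010000)))) (.non (nat_lit 0) (nat_lit 4) (nat_lit 0x55400) (nat_lit 0x1000100010001000100000000000000000000))) (.non (nat_lit 0) (nat_lit 4) (nat_lit 0x45400) (nat_lit 0x1000000010001000100000000000000000000))) (.non (nat_lit 0) (nat_lit 4) (nat_lit 0x41400) (nat_lit 0x1000000000001000100000000000000000000))) (.star (nat_lit 9) (nat_lit 1) (nat_lit 5))) (.star (nat_lit 9) (nat_lit 0) (nat_lit 5))))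

noncomputable def t1121_15 : Tr := (.ex (nat_lit 0xb) (.leaf (.cons (nat_lit 0x5501) (nat_lit 0x20003000400030000000000000001) (.cons (nat_lit 0x114005) (nat_lit 0x10000000200030000000000000000000000030004) .nil)) (.cons (nat_lit 0x110111100001) (nat_lit 0x10010) (nat_lit 0xd) (nat_lit 0x650402300001) (.cons (nat_lit 0x110111000001) (nat_lit 0x100010) (nat_lit 9) (nat_lit 0x540302000001) .nil))) (.split (nat_lit 0xc) (nat_lit 0) (.split (nat_lit 0xc) (nat_lit 1) (.split (nat_lit 0xc) (nat_lit 2) (.split (nat_lit 0xc) (nat_lit 3) (.split (nat_lit 0xc) (nat_lit 4) (.split (nat_lit 0xc) (nat_lit 5) (.split (nat_lit 0xc) (nat_lit 6) (.split (nat_lit 0xc) (nat_lit 7) (.split (nat_lit 0xc) (nat_lit 8) (.split (nat_lit 0xc) (nat_lit 9) (.split (nat_lit 0xc) (nat_lit 0xa) (.st (nat_lit 0xb) (nat_lit 1) (nat_lit 4) (nat_lit 0x1515001) (nat_lit 0x1000200020000000200020001000000000000000000000001) (nat_lit 1) (nat_lit 1) (.st (nat_lit 0xc) (nat_lit 1) (nat_lit 4) (nat_lit 0x1515401) (nat_lit 0x2000300040000000500060004000200000000000000000003)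 (nat_lit 1) (nat_lit 1) (.split (nat_lit 0xc) (nat_lit 0xb) (.leaf (.cons (nat_lit 0x5501) (nat_lit 0x20003000400030000000000000001) (.cons (nat_lit 0x114005) (nat_lit 0x10000000200030000000000000000000000030004) .nil)) (.cons (nat_lit 0x1110111100001) (nat_lit 0x10010) (nat_lit 0xe) (nat_lit 0x7650402300001) (.cons (nat_lit 0x1110110000001) (nat_lit 0x1000010) (nat_lit 4) (nat_lit 0x5430210000000) .nil))) (.non (nat_lit 1) (nat_lit 4) (nat_lit 0x2515001) (nat_lit 0x1000200020000000200020001000000000000000000000001))))) (.non (nat_lit 0) (nat_lit 4) (nat_lit 0x1500000) (nat_lit 0x1000100010000000000000000000000000000000000000000))) (.non (nat_lit 1) (nat_lit 4) (nat_lit 0x1555401) (nat_lit 0x2000300040001000500060004000200000000000000000003))) (.non (nat_lit 0) (nat_lit 4) (nat_lit 0x1510000) (nat_lit 0x1000100010000000100000000000000000000000000000000))) (.non (nat_lit 0) (nat_lit 4) (nat_lit 0x1514000) (nat_lit 0x1000100010000000100010000000000000000000000000000))) (.non (nat_lit 0) (nat_lit 4)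 (nat_lit 0x1515000) (nat_lit 0x1000100010000000100010001000000000000000000000000))) (.non (nat_lit 0) (nat_lit 4) (nat_lit 0x1515400) (nat_lit 0x1000100010000000100010001000100000000000000000000))) (.non (nat_lit 0) (nat_lit 6) (nat_lit 0x1500500) (nat_lit 0x3000200010000000000000000000300040000000000000000))) (.non (nat_lit 0) (nat_lit 4) (nat_lit 0x1554054) (nat_lit 0x5000400030003000200010000000000000006000200040000))) (.non (nat_lit 1) (nat_lit 4) (nat_lit 0x1515411) (nat_lit 0x2000300040000000500060004000200000000000100000003))) (.non (nat_lit 0) (nat_lit 4) (nat_lit 0x1554054) (nat_lit 0x5000400030002000200010000000000000004000300060000))) (.non (nat_lit 1) (nat_lit 4) (nat_lit 0x1514001) (nat_lit 0x1000100010000000100010000000000000000000000000001))))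

noncomputable def t1121_16 : Tr := (.split (nat_lit 0xa) (nat_lit 7) (.split (nat_lit 0xa) (nat_lit 9) (.st (nat_lit 8) (nat_lit 1) (nat_lit 4) (nat_lit 0x115001) (nat_lit 0x10000000200020001000000000000000000000001) (nat_lit 1) (nat_lit 1) (.split (nat_lit 0xa) (nat_lit 8) (.ex (nat_lit 0xa) (.leaf (.cons (nat_lit 0x5501) (nat_lit 0x20003000400030000000000000001) (.cons (nat_lit 0x114005) (nat_lit 0x10000000200030000000000000000000000030004) .nil)) (.cons (nat_lit 0x10111100001) (nat_lit 0x10010) (nat_lit 0xc) (nat_lit 0x50402300001) .nil)) (.split (nat_lit 0xb) (nat_lit 0) (.split (nat_lit 0xb) (nat_lit 1) (.split (nat_lit 0xb) (nat_lit 2) (.split (nat_lit 0xb) (nat_lit 3) (.split (nat_lit 0xb) (nat_lit 4) (.split (nat_lit 0xb) (nat_lit 5) (.split (nat_lit 0xb) (nat_lit 6) (.split (nat_lit 0xb) (nat_lit 7) (.split (nat_lit 0xb) (nat_lit 8) (.split (nat_lit 0xb) (nat_lit 9) (.st (nat_lit 0xa) (nat_lit 1) (nat_lit 4) (nat_lit 0x515001) (nat_lit 0x100020000000200020001000000000000000000000001) (nat_lit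 1) (nat_lit 1) (.split (nat_lit 0xb) (nat_lit 0xa) t1121_15 (.non (nat_lit 1) (nat_lit 4) (nat_lit 0x915001) (nat_lit 0x100020000000200020001000000000000000000000001)))) (.non (nat_lit 1) (nat_lit 4) (nat_lit 0x555441) (nat_lit 0x300040002000500060004000200000001000000000003))) (.non (nat_lit 0) (nat_lit 4) (nat_lit 0x510000) (nat_lit 0x100010000000100000000000000000000000000000000))) (.non (nat_lit 0) (nat_lit 4) (nat_lit 0x514000) (nat_lit 0x100010000000100010000000000000000000000000000))) (.non (nat_lit 0) (nat_lit 4) (nat_lit 0x515000) (nat_lit 0x100010000000100010001000000000000000000000000))) (.non (nat_lit 0) (nat_lit 4) (nat_lit 0x515400) (nat_lit 0x100010000000100010001000100000000000000000000))) (.non (nat_lit 0) (nat_lit 6) (nat_lit 0x510500) (nat_lit 0x300020000000100000000000300040000000000000000))) (.non (nat_lit 0) (nat_lit 4) (nat_lit 0x555054) (nat_lit 0x500040003000300020001000000000006000200040000))) (.non (nat_lit 3) (nat_lit 7) (nat_lit 0x500015) (nat_lit 0x200010000000000000000000000000000000300040003)))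 (.non (nat_lit 0) (nat_lit 4) (nat_lit 0x555054) (nat_lit 0x500040002000300020001000000000004000300060000))) (.non (nat_lit 1) (nat_lit 4) (nat_lit 0x514001) (nat_lit 0x100010000000100010000000000000000000000000001)))) (.non (nat_lit 1) (nat_lit 4) (nat_lit 0x215001) (nat_lit 0x10000000200020001000000000000000000000001)))) (.non (nat_lit 2) (nat_lit 7) (nat_lit 0x140045) (nat_lit 0x10002000000000000000000000003000000040003))) (.non (nat_lit 0) (nat_lit 4) (nat_lit 0x114000) (nat_lit 0x10000000100010000000000000000000000000000)))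

noncomputable def t1121_17 : Tr := (.split (nat_lit 0xd) (nat_lit 1) (.split (nat_lit 0xd) (nat_lit 2) (.split (nat_lit 0xd) (nat_lit 3) (.split (nat_lit 0xd) (nat_lit 4) (.split (nat_lit 0xd) (nat_lit 5) (.split (nat_lit 0xd) (nat_lit 6) (.split (nat_lit 0xd) (nat_lit 7) (.split (nat_lit 0xd) (nat_lit 8) (.split (nat_lit 0xd) (nat_lit 9) (.split (nat_lit 0xd) (nat_lit 0xa) (.split (nat_lit 0xd) (nat_lit 0xb) (.st (nat_lit 0xc) (nat_lit 1) (nat_lit 4) (nat_lit 0x5415001) (nat_lit 0x10002000200000000000200020001000000000000000000000001) (nat_lit 1) (nat_lit 1) (.st (nat_lit 0xd) (nat_lit 1) (nat_lit 4) (nat_lit 0x5415401) (nat_lit 0x20003000400000000000500060004000200000000000000000003) (nat_lit 1) (nat_lit 1) (.split (nat_lit 0xd) (nat_lit 0xc) (.leaf (.cons (nat_lit 0x5501) (nat_lit 0x20003000400030000000000000001) (.cons (nat_lit 0x414005) (nat_lit 0x100000000000200030000000000000000000000030004) (.cons (nat_lit 0x140045) (nat_lit 0x10002000000000000000000000003000000040003) .nil))) (.cons (nat_lit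 0x11100111100001) (nat_lit 0x10010) (nat_lit 0xe) (nat_lit 0x76500402300001) (.cons (nat_lit 0x11100110000001) (nat_lit 0x1000010) (nat_lit 4) (nat_lit 0x54300210000000) .nil))) (.non (nat_lit 1) (nat_lit 4) (nat_lit 0x9415001) (nat_lit 0x10002000200000000000200020001000000000000000000000001))))) (.non (nat_lit 0) (nat_lit 4) (nat_lit 0x5400000) (nat_lit 0x10001000100000000000000000000000000000000000000000000))) (.non (nat_lit 1) (nat_lit 4) (nat_lit 0x5515401) (nat_lit 0x20003000400010000000500060004000200000000000000000003))) (.non (nat_lit 0) (nat_lit 4) (nat_lit 0x5554044) (nat_lit 0x50004000300030006000200010000000000000004000000020000))) (.non (nat_lit 0) (nat_lit 4) (nat_lit 0x5410000) (nat_lit 0x10001000100000000000100000000000000000000000000000000))) (.non (nat_lit 0) (nat_lit 4) (nat_lit 0x5414000) (nat_lit 0x10001000100000000000100010000000000000000000000000000))) (.non (nat_lit 0) (nat_lit 4) (nat_lit 0x5415000) (nat_lit 0x10001000100000000000100010001000000000000000000000000))) (.non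 (nat_lit 0) (nat_lit 4) (nat_lit 0x5415400) (nat_lit 0x10001000100000000000100010001000100000000000000000000))) (.non (nat_lit 0) (nat_lit 6) (nat_lit 0x5400500) (nat_lit 0x30002000100000000000000000000000300040000000000000000))) (.non (nat_lit 0) (nat_lit 4) (nat_lit 0x5554044) (nat_lit 0x50004000300020004000200010000000000000006000000030000))) (.non (nat_lit 1) (nat_lit 4) (nat_lit 0x5415411) (nat_lit 0x20003000400000000000500060004000200000000000100000003))) (.non (nat_lit 0) (nat_lit 4) (nat_lit 0x5540054) (nat_lit 0x30002000100010002000000000000000000000003000200040000)))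

noncomputable def t1121_18 : Tr := (.split (nat_lit 0xc) (nat_lit 0) (.split (nat_lit 0xc) (nat_lit 1) (.split (nat_lit 0xc) (nat_lit 2) (.split (nat_lit 0xc) (nat_lit 3) (.split (nat_lit 0xc) (nat_lit 4) (.split (nat_lit 0xc) (nat_lit 5) (.split (nat_lit 0xc) (nat_lit 6) (.split (nat_lit 0xc) (nat_lit 7) (.split (nat_lit 0xc) (nat_lit 8) (.split (nat_lit 0xc) (nat_lit 9) (.split (nat_lit 0xc) (nat_lit 0xa) (.st (nat_lit 0xb) (nat_lit 1) (nat_lit 4) (nat_lit 0x1415001) (nat_lit 0x1000200000000000200020001000000000000000000000001) (nat_lit 1) (nat_lit 1) (.split (nat_lit 0xc) (nat_lit 0xb) (.ex (nat_lit 0xc) (.leaf (.cons (nat_lit 0x5501) (nat_lit 0x20003000400030000000000000001) (.cons (nat_lit 0x414005) (nat_lit 0x100000000000200030000000000000000000000030004) (.cons (nat_lit 0x140045) (nat_lit 0x10002000000000000000000000003000000040003) .nil))) (.cons (nat_lit 0x1100111100001) (nat_lit 0x10010) (nat_lit 0xd) (nat_lit 0x6500402300001) (.cons (nat_lit 0x1100111000001) (nat_lit 0x100010) (nat_lit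 9) (nat_lit 0x5400302000001) .nil))) (.split (nat_lit 0xd) (nat_lit 0) t1121_17 (.non (nat_lit 1) (nat_lit 4) (nat_lit 0x5414001) (nat_lit 0x10001000100000000000100010000000000000000000000000001)))) (.non (nat_lit 1) (nat_lit 4) (nat_lit 0x2415001) (nat_lit 0x1000200000000000200020001000000000000000000000001)))) (.non (nat_lit 1) (nat_lit 4) (nat_lit 0x1555401) (nat_lit 0x3000400020001000500060004000200000000000000000003))) (.non (nat_lit 0) (nat_lit 4) (nat_lit 0x1555044) (nat_lit 0x5000400030006000300020001000000000004000000020000))) (.non (nat_lit 0) (nat_lit 4) (nat_lit 0x1410000) (nat_lit 0x1000100000000000100000000000000000000000000000000))) (.non (nat_lit 0) (nat_lit 4) (nat_lit 0x1414000) (nat_lit 0x1000100000000000100010000000000000000000000000000))) (.non (nat_lit 0) (nat_lit 4) (nat_lit 0x1415000) (nat_lit 0x1000100000000000100010001000000000000000000000000))) (.non (nat_lit 0) (nat_lit 4) (nat_lit 0x1415400) (nat_lit 0x1000100000000000100010001000100000000000000000000))) (.non (nat_lit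 0) (nat_lit 6) (nat_lit 0x1410500) (nat_lit 0x3000200000000000100000000000300040000000000000000))) (.non (nat_lit 0) (nat_lit 4) (nat_lit 0x1555044) (nat_lit 0x5000400020004000300020001000000000006000000030000))) (.non (nat_lit 3) (nat_lit 7) (nat_lit 0x1400015) (nat_lit 0x2000100000000000000000000000000000000000300040003))) (.non (nat_lit 0) (nat_lit 4) (nat_lit 0x1550054) (nat_lit 0x3000200010002000100000000000000000003000200040000))) (.non (nat_lit 1) (nat_lit 4) (nat_lit 0x1414001) (nat_lit 0x1000100000000000100010000000000000000000000000001)))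

noncomputable def t1121_19 : Tr := (.ex (nat_lit 8) (.leaf (.cons (nat_lit 0x5501) (nat_lit 0x20003000400030000000000000001) (.cons (nat_lit 0x15005) (nat_lit 0x100020001000000000000000000020002) (.cons (nat_lit 0x140045) (nat_lit 0x10002000000000000000000000003000000040003) (.cons (nat_lit 0x4015) (nat_lit 0x10000000000000000000100020002) .nil)))) (.cons (nat_lit 0x111100001) (nat_lit 0x10010) (nat_lit 8) (nat_lit 0x203400001) (.cons (nat_lit 0x111000001) (nat_lit 0x100010) (nat_lit 7) (nat_lit 0x302000001) .nil))) (.split (nat_lit 0xb) (nat_lit 0) (.split (nat_lit 0xb) (nat_lit 1) (.split (nat_lit 0xb) (nat_lit 2) (.split (nat_lit 0xb) (nat_lit 3) (.split (nat_lit 0xb) (nat_lit 4) (.split (nat_lit 0xb) (nat_lit 5) (.split (nat_lit 0xb) (nat_lit 6) (.split (nat_lit 0xb) (nat_lit 7) (.split (nat_lit 0xb) (nat_lit 9) (.split (nat_lit 0xb) (nat_lit 0xa) (.st (nat_lit 8) (nat_lit 1) (nat_lit 4) (nat_lit 0x415001) (nat_lit 0x100000000000200020001000000000000000000000001) (nat_lit 1) (nat_lit 1) (.split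 (nat_lit 0xb) (nat_lit 8) (.ex (nat_lit 0xb) (.leaf (.cons (nat_lit 0x5501) (nat_lit 0x20003000400030000000000000001) (.cons (nat_lit 0x414005) (nat_lit 0x100000000000200030000000000000000000000030004) (.cons (nat_lit 0x140045) (nat_lit 0x10002000000000000000000000003000000040003) .nil))) (.cons (nat_lit 0x100111100001) (nat_lit 0x10010) (nat_lit 0xc) (nat_lit 0x500402300001) .nil)) t1121_18) (.non (nat_lit 1) (nat_lit 4) (nat_lit 0x815001) (nat_lit 0x100000000000200020001000000000000000000000001)))) (.non (nat_lit 1) (nat_lit 4) (nat_lit 0x555441) (nat_lit 0x400030002000500060004000200000001000000000003))) (.non (nat_lit 0) (nat_lit 4) (nat_lit 0x555444) (nat_lit 0x500030006000400030002000100000004000000020000))) (.non (nat_lit 0) (nat_lit 4) (nat_lit 0x414000) (nat_lit 0x100000000000100010000000000000000000000000000))) (.non (nat_lit 0) (nat_lit 4) (nat_lit 0x415000) (nat_lit 0x100000000000100010001000000000000000000000000))) (.non (nat_lit 0) (nat_lit 4) (nat_lit 0x415400) (nat_lit 0x100000000000100010001000100000000000000000000)))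 (.non (nat_lit 0) (nat_lit 6) (nat_lit 0x414500) (nat_lit 0x300000000000200010000000300040000000000000000))) (.non (nat_lit 0) (nat_lit 4) (nat_lit 0x555444) (nat_lit 0x500020004000400030002000100000006000000030000))) (.non (nat_lit 3) (nat_lit 7) (nat_lit 0x410015) (nat_lit 0x200000000000100000000000000000000000300040003))) (.non (nat_lit 0) (nat_lit 4) (nat_lit 0x554054) (nat_lit 0x300010002000200010000000000000003000200040000))) (.non (nat_lit 1) (nat_lit 4) (nat_lit 0x414001) (nat_lit 0x100000000000100010000000000000000000000000001))))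

noncomputable def t1121_20 : Tr := (.split (nat_lit 0xa) (nat_lit 9) t1121_19 (.st (nat_lit 9) (nat_lit 0) (nat_lit 4) (nat_lit 0x240040) (nat_lit 0x10002000000000000000000000001000000000000) (nat_lit 1) (nat_lit 1) (.st (nat_lit 0xa) (nat_lit 0) (nat_lit 4) (nat_lit 0x240044) (nat_lit 0x20003000000000000000000000002000000010000) (nat_lit 2) (nat_lit 1) (.split (nat_lit 0xa) (nat_lit 9) (.ex (nat_lit 8) (.leaf (.cons (nat_lit 0x5501) (nat_lit 0x20003000400030000000000000001) (.cons (nat_lit 0x15005) (nat_lit 0x100020001000000000000000000020002) (.cons (nat_lit 0x140045) (nat_lit 0x10001000000000000000000000001000000010001) (.cons (nat_lit 0x4015) (nat_lit 0x10000000000000000000100020002) .nil)))) (.cons (nat_lit 0x111100001) (nat_lit 0x10010) (nat_lit 8) (nat_lit 0x203400001) (.cons (nat_lit 0x111000001) (nat_lit 0x100010) (nat_lit 7) (nat_lit 0x302000001) .nil))) (.split (nat_lit 0xb) (nat_lit 0) (.split (nat_lit 0xb) (nat_lit 1) (.split (nat_lit 0xb) (nat_lit 2) (.split (nat_lit 0xb) (nat_lit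 3) (.split (nat_lit 0xb) (nat_lit 4) (.split (nat_lit 0xb) (nat_lit 5) (.split (nat_lit 0xb) (nat_lit 6) (.split (nat_lit 0xb) (nat_lit 7) (.split (nat_lit 0xb) (nat_lit 9) (.split (nat_lit 0xb) (nat_lit 0xa) (.sup (nat_lit 0x20000000000040007000b0010000d0000000000000000) (nat_lit 0x50007000000000000000000000007000300070002)) (.non (nat_lit 0) (nat_lit 4) (nat_lit 0xa60040) (nat_lit 0x200030004000100000000000000000002000000000000))) (.non (nat_lit 0) (nat_lit 4) (nat_lit 0x640040) (nat_lit 0x100010002000000000000000000000001000000000000))) (.non (nat_lit 0) (nat_lit 4) (nat_lit 0x414000) (nat_lit 0x100000000000100010000000000000000000000000000))) (.non (nat_lit 0) (nat_lit 4) (nat_lit 0x415000) (nat_lit 0x100000000000100010001000000000000000000000000))) (.non (nat_lit 0) (nat_lit 4) (nat_lit 0x415400) (nat_lit 0x100000000000100010001000100000000000000000000))) (.non (nat_lit 0) (nat_lit 6) (nat_lit 0x414500) (nat_lit 0x300000000000200010000000300040000000000000000))) (.non (nat_lit 0) (nat_lit 4)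 (nat_lit 0x640044) (nat_lit 0x100010002000000000000000000000002000000010000))) (.non (nat_lit 3) (nat_lit 7) (nat_lit 0x410015) (nat_lit 0x200000000000100000000000000000000000300040003))) (.non (nat_lit 0) (nat_lit 4) (nat_lit 0x640054) (nat_lit 0x100010002000000000000000000000002000100020000))) (.non (nat_lit 1) (nat_lit 4) (nat_lit 0x414001) (nat_lit 0x100000000000100010000000000000000000000000001)))) (.non (nat_lit 0) (nat_lit 4) (nat_lit 0x140054) (nat_lit 0x30004000000000000000000000003000100020000))))))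

noncomputable def t1121_21 : Tr := (.ex (nat_lit 9) (.pd (.cons (nat_lit 2) (nat_lit 7) (nat_lit 0) (nat_lit 0x3805441000) (nat_lit 0xf423ff423f00000f423fb71ae1f156b71ae00000a2c2804737) .nil) (.ex (nat_lit 8) (.leaf (.cons (nat_lit 0x5501) (nat_lit 0x20003000400030000000000000001) (.cons (nat_lit 0x15005) (nat_lit 0x100020001000000000000000000020002) (.cons (nat_lit 0x4045) (nat_lit 0x10000000000000001000000020002) (.cons (nat_lit 0x4015) (nat_lit 0x10000000000000000000100020002) .nil)))) (.cons (nat_lit 0x111100001) (nat_lit 0x10010) (nat_lit 8) (nat_lit 0x203400001) (.cons (nat_lit 0x111000001) (nat_lit 0x100010) (nat_lit 7) (nat_lit 0x302000001) .nil))) (.split (nat_lit 0xa) (nat_lit 0) (.split (nat_lit 0xa) (nat_lit 1) (.split (nat_lit 0xa) (nat_lit 2) (.split (nat_lit 0xa) (nat_lit 3) (.split (nat_lit 0xa) (nat_lit 4) (.split (nat_lit 0xa) (nat_lit 5) (.split (nat_lit 0xa) (nat_lit 6) t1121_16 (.non (nat_lit 0) (nat_lit 4) (nat_lit 0x115000) (nat_lit 0x10000000100010001000000000000000000000000)))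 (.non (nat_lit 0) (nat_lit 4) (nat_lit 0x115400) (nat_lit 0x10000000100010001000100000000000000000000))) (.non (nat_lit 0) (nat_lit 6) (nat_lit 0x114500) (nat_lit 0x30000000200010000000300040000000000000000))) (.non (nat_lit 0) (nat_lit 4) (nat_lit 0x155454) (nat_lit 0x50003000400030002000100000006000200040000))) (.non (nat_lit 3) (nat_lit 7) (nat_lit 0x110015) (nat_lit 0x20000000100000000000000000000000300040003))) (.non (nat_lit 0) (nat_lit 4) (nat_lit 0x155454) (nat_lit 0x50002000400030002000100000004000300060000))) (.non (nat_lit 1) (nat_lit 4) (nat_lit 0x114001) (nat_lit 0x10000000100010000000000000000000000000001))))) (.split (nat_lit 0xa) (nat_lit 0) (.split (nat_lit 0xa) (nat_lit 1) (.split (nat_lit 0xa) (nat_lit 2) (.split (nat_lit 0xa) (nat_lit 3) (.split (nat_lit 0xa) (nat_lit 4) (.split (nat_lit 0xa) (nat_lit 5) (.split (nat_lit 0xa) (nat_lit 6) (.split (nat_lit 0xa) (nat_lit 7) (.split (nat_lit 0xa) (nat_lit 8) t1121_20 (.st (nat_lit 8) (nat_lit 0) (nat_lit 4) (nat_lit 0x155440) (nat_lit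 0x30002000400030002000100000001000000000000) (nat_lit 1) (nat_lit 2) (.st (nat_lit 9) (nat_lit 0) (nat_lit 4) (nat_lit 0x155444) (nat_lit 0x50006000400030002000100000004000000020000) (nat_lit 1) (nat_lit 3) (.st (nat_lit 0xa) (nat_lit 0) (nat_lit 4) (nat_lit 0x155044) (nat_lit 0x40003000300020001000000000002000000010000) (nat_lit 1) (nat_lit 2) (.split (nat_lit 0xa) (nat_lit 8) (.split (nat_lit 0xa) (nat_lit 9) (.leaf (.cons (nat_lit 0x5501) (nat_lit 0x20003000400030000000000000001) (.cons (nat_lit 0x114005) (nat_lit 0x10000000200030000000000000000000000030004) (.cons (nat_lit 0x140045) (nat_lit 0x10002000000000000000000000003000000040003) .nil))) (.cons (nat_lit 0x11111101001) (nat_lit 0x10010) (nat_lit 0xe) (nat_lit 0x56402307001) (.cons (nat_lit 0x11110001001) (nat_lit 0x1000010) (nat_lit 4) (nat_lit 0x34210005000) .nil))) (.non (nat_lit 0) (nat_lit 4) (nat_lit 0x268040) (nat_lit 0x30004000200010000000000000002000000000000))) (.non (nat_lit 0) (nat_lit 4) (nat_lit 0x295000) (nat_lit 0x20001000300020001000000000000000000000000)))))))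 (.non (nat_lit 0) (nat_lit 4) (nat_lit 0x155454) (nat_lit 0x50004000300060004000200000003000100020000))) (.non (nat_lit 0) (nat_lit 4) (nat_lit 0x155454) (nat_lit 0x50004000200040006000300000003000100020000))) (.non (nat_lit 0) (nat_lit 6) (nat_lit 0x140540) (nat_lit 0x30002000000000000000400030001000000000000))) (.non (nat_lit 0) (nat_lit 6) (nat_lit 0x140540) (nat_lit 0x30002000000000000000300040001000000000000))) (.non (nat_lit 0) (nat_lit 4) (nat_lit 0x140040) (nat_lit 0x10001000000000000000000000001000000000000))) (.non (nat_lit 0) (nat_lit 4) (nat_lit 0x140054) (nat_lit 0x10001000000000000000000000001000100010000))) (.non (nat_lit 0) (nat_lit 4) (nat_lit 0x140044) (nat_lit 0x10001000000000000000000000001000000010000))) (.non (nat_lit 3) (nat_lit 7) (nat_lit 0x100015) (nat_lit 0x10000000000000000000000000000000100020002))))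

noncomputable def t1121_22 : Tr := (.pd (.cons (nat_lit 0) (nat_lit 6) (nat_lit 0) (nat_lit 0x3770441110) (nat_lit 0xf423ff423fb71ae00000f423f545917a11ef423f3d08b00000) (.cons (nat_lit 0) (nat_lit 7) (nat_lit 0) (nat_lit 0x3805441110) (nat_lit 0xf423ff423f00000f423fb71ae1f1567a11ef423f3d08b00000) (.cons (nat_lit 0) (nat_lit 8) (nat_lit 0) (nat_lit 0x3065441110) (nat_lit 0xf423f00000f423fb71aea2c28047377a11ef423f3d08b00000) (.cons (nat_lit 1) (nat_lit 6) (nat_lit 0) (nat_lit 0x3700443200) (nat_lit 0xf423ff423fb71ae00000f423f545917a11ef423f00000a2c28) (.cons (nat_lit 1) (nat_lit 7) (nat_lit 0) (nat_lit 0x3805443200) (nat_lit 0xf423ff423f00000f423fb71ae1f1567a11ef423f00000f423f) (.cons (nat_lit 3) (nat_lit 7) (nat_lit 0) (nat_lit 0x9805440100) (nat_lit 0xf423ff423f00000f423fb71ae1f15600000f423fb71ae1f156) .nil)))))) (.st (nat_lit 9) (nat_lit 0) (nat_lit 4) (nat_lit 0x80054) (nat_lit 0x2000000000000000000000003000100020000) (nat_lit 2) (nat_lit 1) (.ex (nat_lit 8) (.leaf (.cons (nat_lit 0x5501) (nat_lit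 0x20003000400030000000000000001) (.cons (nat_lit 0x15005) (nat_lit 0x100020001000000000000000000020002) (.cons (nat_lit 0x40045) (nat_lit 0x1000000000000000000000001000000010001) (.cons (nat_lit 0x4015) (nat_lit 0x10000000000000000000100020002) .nil)))) (.cons (nat_lit 0x111100001) (nat_lit 0x10010) (nat_lit 8) (nat_lit 0x203400001) (.cons (nat_lit 0x111000001) (nat_lit 0x100010) (nat_lit 7) (nat_lit 0x302000001) .nil))) (.split (nat_lit 0xa) (nat_lit 0) (.split (nat_lit 0xa) (nat_lit 1) (.split (nat_lit 0xa) (nat_lit 2) (.split (nat_lit 0xa) (nat_lit 3) (.split (nat_lit 0xa) (nat_lit 4) (.split (nat_lit 0xa) (nat_lit 5) (.split (nat_lit 0xa) (nat_lit 6) (.split (nat_lit 0xa) (nat_lit 7) (.split (nat_lit 0xa) (nat_lit 9) (.sup (nat_lit 0x2000000040007000b0010000d0000000000000000) (nat_lit 0x5000000000000000000000007000300070002)) (.non (nat_lit 0) (nat_lit 4) (nat_lit 0x2a0044) (nat_lit 0x20003000100000000000000000004000000020000))) (.non (nat_lit 0) (nat_lit 4) (nat_lit 0x114000) (nat_lit 0x10000000100010000000000000000000000000000)))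 (.non (nat_lit 0) (nat_lit 4) (nat_lit 0x115000) (nat_lit 0x10000000100010001000000000000000000000000))) (.non (nat_lit 0) (nat_lit 4) (nat_lit 0x115400) (nat_lit 0x10000000100010001000100000000000000000000))) (.non (nat_lit 0) (nat_lit 6) (nat_lit 0x114500) (nat_lit 0x30000000200010000000300040000000000000000))) (.non (nat_lit 0) (nat_lit 4) (nat_lit 0x180044) (nat_lit 0x10001000000000000000000000002000000010000))) (.non (nat_lit 3) (nat_lit 7) (nat_lit 0x110015) (nat_lit 0x20000000100000000000000000000000300040003))) (.non (nat_lit 0) (nat_lit 4) (nat_lit 0x180054) (nat_lit 0x10001000000000000000000000002000100020000))) (.non (nat_lit 1) (nat_lit 4) (nat_lit 0x114001) (nat_lit 0x10000000100010000000000000000000000000001))))))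

noncomputable def t1121_23 : Tr := (.ex (nat_lit 5) (.split (nat_lit 9) (nat_lit 3) (.split (nat_lit 7) (nat_lit 0) (.split (nat_lit 8) (nat_lit 7) (.pd (.cons (nat_lit 0) (nat_lit 6) (nat_lit 0) (nat_lit 0x3770441110) (nat_lit 0xf423ff423fb71ae00000f423f54591b71aef423f65b9700000) (.cons (nat_lit 0) (nat_lit 7) (nat_lit 0) (nat_lit 0x3805441110) (nat_lit 0xf423ff423f00000f423fb71ae1f156b71aef423f65b9700000) (.cons (nat_lit 0) (nat_lit 8) (nat_lit 0) (nat_lit 0x3065441110) (nat_lit 0xf423f00000f423fb71aea2c2804737b71aef423f65b9700000) (.cons (nat_lit 1) (nat_lit 6) (nat_lit 0) (nat_lit 0x3700443200) (nat_lit 0xf423ff423fb71ae00000f423f54591b71aef423f00000a2c28) (.cons (nat_lit 1) (nat_lit 7) (nat_lit 0) (nat_lit 0x3805443200) (nat_lit 0xf423ff423f00000f423fb71ae1f156b71aef423f00000f423f) (.cons (nat_lit 3) (nat_lit 7) (nat_lit 0) (nat_lit 0x9805440100) (nat_lit 0xf423ff423f00000f423fb71ae1f15600000f423fb71ae1f156) .nil)))))) t1121_21) (.non (nat_lit 1) (nat_lit 4) (nat_lit 0x25001) (nat_lit 0x100020001000000000000000000000001)))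 (.non (nat_lit 1) (nat_lit 4) (nat_lit 0x2a001) (nat_lit 0x100020001000000000000000000000002))) (.split (nat_lit 9) (nat_lit 3) (.split (nat_lit 7) (nat_lit 0) (.split (nat_lit 8) (nat_lit 7) t1121_22 (.non (nat_lit 1) (nat_lit 4) (nat_lit 0x25001) (nat_lit 0x100020001000000000000000000000001))) (.non (nat_lit 1) (nat_lit 4) (nat_lit 0x2a001) (nat_lit 0x100020001000000000000000000000002))) (.sup (nat_lit 0x7000f00170020001a0000000000000000) (nat_lit 0xb00000000000000000000000e0005000a0001)))) (.split (nat_lit 0xa) (nat_lit 0) (.split (nat_lit 0xa) (nat_lit 1) (.split (nat_lit 0xa) (nat_lit 3) (.split (nat_lit 0xa) (nat_lit 6) (.split (nat_lit 0xa) (nat_lit 7) (.split (nat_lit 0xa) (nat_lit 8) (.split (nat_lit 0xa) (nat_lit 2) (.split (nat_lit 0xa) (nat_lit 4) (.split (nat_lit 0xa) (nat_lit 9) (.unj (nat_lit 0x55) (nat_lit 0x1000100020002) (nat_lit 0x101500) (nat_lit 0x10000000000000001000200020000000000000000)) (.unj (nat_lit 0x55) (nat_lit 0x1000100020002) (nat_lit 0x101500) (nat_lit 0x10000000000000001000200020000000000000000)))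 (.split (nat_lit 0xa) (nat_lit 9) (.unj (nat_lit 0x100500) (nat_lit 0x10000000000000000000100010000000000000000) (nat_lit 0x55) (nat_lit 0x1000100020002)) (.unj (nat_lit 0x100500) (nat_lit 0x10000000000000000000100010000000000000000) (nat_lit 0x55) (nat_lit 0x1000100020002)))) (.split (nat_lit 0xa) (nat_lit 9) (.split (nat_lit 0xa) (nat_lit 4) (.sup (nat_lit 0x3000100050004) (nat_lit 0x10000000000000003000500040000000000000000)) (.unj (nat_lit 0x100500) (nat_lit 0x10000000000000000000100010000000000000000) (nat_lit 0x4045) (nat_lit 0x10000000000000001000000020002))) (.non (nat_lit 0) (nat_lit 4) (nat_lit 0x140054) (nat_lit 0x10001000000000000000000000001000100010000)))) (.non (nat_lit 0) (nat_lit 4) (nat_lit 0x115400) (nat_lit 0x10000000100010001000100000000000000000000))) (.non (nat_lit 0) (nat_lit 4) (nat_lit 0x105400) (nat_lit 0x10000000000010001000100000000000000000000))) (.non (nat_lit 0) (nat_lit 4) (nat_lit 0x101400) (nat_lit 0x10000000000000001000100000000000000000000))) (.non (nat_lit 0)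 (nat_lit 4) (nat_lit 0x155454) (nat_lit 0x50003000100020003000400000006000200040000))) (.star (nat_lit 0xa) (nat_lit 1) (nat_lit 5))) (.star (nat_lit 0xa) (nat_lit 0) (nat_lit 5))))

noncomputable def t1121_24 : Tr := (.split (nat_lit 0xa) (nat_lit 6) (.split (nat_lit 0xa) (nat_lit 7) (.split (nat_lit 0xa) (nat_lit 2) (.split (nat_lit 0xa) (nat_lit 3) (.split (nat_lit 0xa) (nat_lit 5) (.split (nat_lit 0xa) (nat_lit 8) (.split (nat_lit 0xa) (nat_lit 9) (.unj (nat_lit 0x55) (nat_lit 0x1000100020002) (nat_lit 0x101500) (nat_lit 0x10000000000000001000200020000000000000000)) (.unj (nat_lit 0x55) (nat_lit 0x1000100020002) (nat_lit 0x101500) (nat_lit 0x10000000000000001000200020000000000000000))) (.split (nat_lit 0xa) (nat_lit 9) (.unj (nat_lit 0x55) (nat_lit 0x1000100020002) (nat_lit 0x101500) (nat_lit 0x10000000000000001000200020000000000000000)) (.non (nat_lit 0) (nat_lit 5) (nat_lit 0x155144) (nat_lit 0x40003000300020001000000020002000000010000)))) (.split (nat_lit 0xa) (nat_lit 8) (.split (nat_lit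 0xa) (nat_lit 9) (.unj (nat_lit 0x100500) (nat_lit 0x10000000000000000000100010000000000000000) (nat_lit 0x55) (nat_lit 0x1000100020002)) (.unj (nat_lit 0x100500) (nat_lit 0x10000000000000000000100010000000000000000) (nat_lit 0x55) (nat_lit 0x1000100020002))) (.non (nat_lit 0) (nat_lit 4) (nat_lit 0x115400) (nat_lit 0x10000000100010001000100000000000000000000)))) (.split (nat_lit 0xa) (nat_lit 5) (.split (nat_lit 0xa) (nat_lit 8) (.split (nat_lit 0xa) (nat_lit 9) (.sup (nat_lit 0x20005000a0008) (nat_lit 0x20000000000000005000a00090000000000000000)) (.non (nat_lit 0) (nat_lit 4) (nat_lit 0x140040) (nat_lit 0x10001000000000000000000000001000000000000))) (.non (nat_lit 0) (nat_lit 4) (nat_lit 0x155454) (nat_lit 0x50003000400030002000100000006000200040000))) (.non (nat_lit 0) (nat_lit 4) (nat_lit 0x155454) (nat_lit 0x50003000100020003000400000006000200040000)))) (.split (nat_lit 0xa) (nat_lit 3) (.split (nat_lit 0xa) (nat_lit 8) (.split (nat_lit 0xa) (nat_lit 9) (.split (nat_lit 0xa) (nat_lit 5) (.sup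 (nat_lit 0x50002000a0008) (nat_lit 0x20000000000000005000a00090000000000000000)) (.unj (nat_lit 0x100500) (nat_lit 0x10000000000000000000100010000000000000000) (nat_lit 0x4045) (nat_lit 0x10000000000000001000000020002))) (.non (nat_lit 0) (nat_lit 4) (nat_lit 0x140054) (nat_lit 0x10001000000000000000000000001000100010000))) (.non (nat_lit 0) (nat_lit 5) (nat_lit 0x115154) (nat_lit 0x40000000300020001000000020001000300020000))) (.non (nat_lit 0) (nat_lit 4) (nat_lit 0x100054) (nat_lit 0x10000000000000000000000000001000100010000)))) (.non (nat_lit 1) (nat_lit 4) (nat_lit 0x115001) (nat_lit 0x10000000100020001000000000000000000000001))) (.non (nat_lit 1) (nat_lit 4) (nat_lit 0x115401) (nat_lit 0x10000000100020002000100000000000000000001)))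

noncomputable def t1121_25 : Tr := (.pd (.cons (nat_lit 0) (nat_lit 6) (nat_lit 0) (nat_lit 0x33770441110) (nat_lit 0xf423ff423ff423fb71ae00000f423f545917a11df423f3d08a00000) (.cons (nat_lit 0) (nat_lit 7) (nat_lit 0) (nat_lit 0x33805441110) (nat_lit 0xf423ff423ff423f00000f423fb71ae1f1567a11df423f3d08a00000) (.cons (nat_lit 0) (nat_lit 8) (nat_lit 0) (nat_lit 0x33065441110) (nat_lit 0xf423ff423f00000f423fb71aea2c28047377a11df423f3d08a00000) (.cons (nat_lit 1) (nat_lit 6) (nat_lit 0) (nat_lit 0x33700443200) (nat_lit 0xf423ff423ff423fb71ae00000f423f545917a11df423f00000a2c28) (.cons (nat_lit 1) (nat_lit 7) (nat_lit 0) (nat_lit 0x33805443200) (nat_lit 0xf423ff423ff423f00000f423fb71ae1f1567a11df423f00000f423f) (.cons (nat_lit 3) (nat_lit 7) (nat_lit 0) (nat_lit 0xa9805440100) (nat_lit 0xf423ff423ff423f00000f423fb71ae1f15600000f423fb71ae1f156) .nil)))))) (.ex (nat_lit 8) (.leaf (.cons (nat_lit 0x5501) (nat_lit 0x20003000400030000000000000001) (.cons (nat_lit 0x15005) (nat_lit 0x100020001000000000000000000020002)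 (.cons (nat_lit 0x140045) (nat_lit 0x10001000000000000000000000002000000020002) (.cons (nat_lit 0x4015) (nat_lit 0x10000000000000000000100020002) .nil)))) (.cons (nat_lit 0x111100001) (nat_lit 0x10010) (nat_lit 8) (nat_lit 0x203400001) (.cons (nat_lit 0x111000001) (nat_lit 0x100010) (nat_lit 7) (nat_lit 0x302000001) .nil))) (.split (nat_lit 0xb) (nat_lit 0) (.split (nat_lit 0xb) (nat_lit 1) (.split (nat_lit 0xb) (nat_lit 2) (.split (nat_lit 0xb) (nat_lit 3) (.split (nat_lit 0xb) (nat_lit 4) (.split (nat_lit 0xb) (nat_lit 5) (.split (nat_lit 0xb) (nat_lit 6) (.split (nat_lit 0xb) (nat_lit 7) (.split (nat_lit 0xb) (nat_lit 9) (.split (nat_lit 0xb) (nat_lit 0xa) (.sup (nat_lit 0x20000000000040007000b0010000d0000000000000000) (nat_lit 0x30003000000000000000000000007000300070002)) (.non (nat_lit 0) (nat_lit 4) (nat_lit 0x555054) (nat_lit 0x400050003000300020001000000000006000200040000))) (.non (nat_lit 0) (nat_lit 4) (nat_lit 0x555054) (nat_lit 0x400030005000300020001000000000006000200040000))) (.non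 (nat_lit 0) (nat_lit 4) (nat_lit 0x414000) (nat_lit 0x100000000000100010000000000000000000000000000))) (.non (nat_lit 0) (nat_lit 4) (nat_lit 0x415000) (nat_lit 0x100000000000100010001000000000000000000000000))) (.non (nat_lit 0) (nat_lit 4) (nat_lit 0x415400) (nat_lit 0x100000000000100010001000100000000000000000000))) (.non (nat_lit 0) (nat_lit 6) (nat_lit 0x414500) (nat_lit 0x300000000000200010000000300040000000000000000))) (.non (nat_lit 0) (nat_lit 4) (nat_lit 0x540044) (nat_lit 0x100010001000000000000000000000002000000010000))) (.non (nat_lit 3) (nat_lit 7) (nat_lit 0x410015) (nat_lit 0x200000000000100000000000000000000000300040003))) (.non (nat_lit 0) (nat_lit 4) (nat_lit 0x540054) (nat_lit 0x100010001000000000000000000000002000100020000))) (.non (nat_lit 1) (nat_lit 4) (nat_lit 0x414001) (nat_lit 0x100000000000100010000000000000000000000000001)))))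

noncomputable def t1121_26 : Tr := (.split (nat_lit 0xb) (nat_lit 7) (.split (nat_lit 0xb) (nat_lit 2) (.split (nat_lit 0xb) (nat_lit 5) (.split (nat_lit 0xb) (nat_lit 8) (.split (nat_lit 0xb) (nat_lit 9) (.split (nat_lit 0xb) (nat_lit 0xa) (.unj (nat_lit 0x55) (nat_lit 0x1000100020002) (nat_lit 0x401500) (nat_lit 0x100000000000000000001000200020000000000000000)) (.unj (nat_lit 0x55) (nat_lit 0x1000100020002) (nat_lit 0x401500) (nat_lit 0x100000000000000000001000200020000000000000000))) (.split (nat_lit 0xb) (nat_lit 0xa) (.unj (nat_lit 0x55) (nat_lit 0x1000100020002) (nat_lit 0x401500) (nat_lit 0x100000000000000000001000200020000000000000000)) (.non (nat_lit 0) (nat_lit 4) (nat_lit 0x540040) (nat_lit 0x100010001000000000000000000000001000000000000)))) (.split (nat_lit 0xb) (nat_lit 9) (.split (nat_lit 0xb) (nat_lit 0xa) (.unj (nat_lit 0x55) (nat_lit 0x1000100020002) (nat_lit 0x401500) (nat_lit 0x100000000000000000001000200020000000000000000)) (.non (nat_lit 0) (nat_lit 4) (nat_lit 0x555054) (nat_lit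 0x400050003000300020001000000000006000200040000))) (.non (nat_lit 0) (nat_lit 4) (nat_lit 0x555054) (nat_lit 0x400030005000300020001000000000006000200040000)))) (.split (nat_lit 0xb) (nat_lit 8) (.split (nat_lit 0xb) (nat_lit 9) (.split (nat_lit 0xb) (nat_lit 0xa) (.unj (nat_lit 0x400500) (nat_lit 0x100000000000000000000000100010000000000000000) (nat_lit 0x55) (nat_lit 0x1000100020002)) (.non (nat_lit 0) (nat_lit 4) (nat_lit 0x545454) (nat_lit 0x400050003000000010002000300000006000200040000))) (.non (nat_lit 0) (nat_lit 4) (nat_lit 0x545454) (nat_lit 0x400030005000000010002000300000006000200040000))) (.non (nat_lit 0) (nat_lit 4) (nat_lit 0x415400) (nat_lit 0x100000000000100010001000100000000000000000000)))) (.split (nat_lit 0xb) (nat_lit 8) (.split (nat_lit 0xb) (nat_lit 9) (.split (nat_lit 0xb) (nat_lit 0xa) (.split (nat_lit 0xb) (nat_lit 5) (.unj (nat_lit 0x401500) (nat_lit 0x100000000000000000001000200020000000000000000) (nat_lit 0x140045) (nat_lit 0x10001000000000000000000000002000000020002))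 (.unj (nat_lit 0x400500) (nat_lit 0x100000000000000000000000100010000000000000000) (nat_lit 0x4045) (nat_lit 0x10000000000000001000000020002))) (.non (nat_lit 0) (nat_lit 4) (nat_lit 0x500054) (nat_lit 0x100010000000000000000000000000001000100010000))) (.non (nat_lit 0) (nat_lit 4) (nat_lit 0x440054) (nat_lit 0x100000001000000000000000000000001000100010000))) (.non (nat_lit 0) (nat_lit 5) (nat_lit 0x550154) (nat_lit 0x200010001000100000000000000010002000200020000)))) (.non (nat_lit 1) (nat_lit 4) (nat_lit 0x415001) (nat_lit 0x100000000000100020001000000000000000000000001)))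

noncomputable def t1121_27 : Tr := (.ex (nat_lit 4) (.ex (nat_lit 5) (.split (nat_lit 9) (nat_lit 3) (.split (nat_lit 0xa) (nat_lit 3) (.split (nat_lit 7) (nat_lit 0) (.split (nat_lit 8) (nat_lit 7) t1121_25 (.non (nat_lit 1) (nat_lit 4) (nat_lit 0x25001) (nat_lit 0x100020001000000000000000000000001))) (.non (nat_lit 1) (nat_lit 4) (nat_lit 0x2a001) (nat_lit 0x100020001000000000000000000000002))) (.non (nat_lit 0) (nat_lit 4) (nat_lit 0x240044) (nat_lit 0x10001000000000000000000000002000000010000))) (.non (nat_lit 0) (nat_lit 4) (nat_lit 0x180044) (nat_lit 0x10001000000000000000000000002000000010000))) (.split (nat_lit 0xb) (nat_lit 0) (.split (nat_lit 0xb) (nat_lit 1) (.split (nat_lit 0xb) (nat_lit 3) (.split (nat_lit 0xb) (nat_lit 6) (.split (nat_lit 0xb) (nat_lit 7) (.split (nat_lit 0xb) (nat_lit 8) (.split (nat_lit 0xb) (nat_lit 9) (.split (nat_lit 0xb) (nat_lit 0xa) (.split (nat_lit 0xb) (nat_lit 2) (.split (nat_lit 0xb) (nat_lit 4) (.unj (nat_lit 0x55) (nat_lit 0x1000100020002) (nat_lit 0x401500)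 (nat_lit 0x100000000000000000001000200020000000000000000)) (.unj (nat_lit 0x400500) (nat_lit 0x100000000000000000000000100010000000000000000) (nat_lit 0x55) (nat_lit 0x1000100020002))) (.split (nat_lit 0xb) (nat_lit 4) (.unj (nat_lit 0x401500) (nat_lit 0x100000000000000000001000200020000000000000000) (nat_lit 0x140045) (nat_lit 0x10001000000000000000000000002000000020002)) (.unj (nat_lit 0x400500) (nat_lit 0x100000000000000000000000100010000000000000000) (nat_lit 0x4045) (nat_lit 0x10000000000000001000000020002)))) (.non (nat_lit 0) (nat_lit 4) (nat_lit 0x545454) (nat_lit 0x400050003000000010002000300000006000200040000))) (.non (nat_lit 0) (nat_lit 4) (nat_lit 0x545454) (nat_lit 0x400030005000000010002000300000006000200040000))) (.non (nat_lit 0) (nat_lit 4) (nat_lit 0x415400) (nat_lit 0x100000000000100010001000100000000000000000000))) (.non (nat_lit 0) (nat_lit 4) (nat_lit 0x405400) (nat_lit 0x100000000000000010001000100000000000000000000))) (.non (nat_lit 0) (nat_lit 4) (nat_lit 0x401400) (nat_lit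 0x100000000000000000001000100000000000000000000))) (.non (nat_lit 0) (nat_lit 4) (nat_lit 0x540044) (nat_lit 0x100010001000000000000000000000002000000010000))) (.star (nat_lit 0xb) (nat_lit 1) (nat_lit 5))) (.star (nat_lit 0xb) (nat_lit 0) (nat_lit 5)))) (.split (nat_lit 0xb) (nat_lit 0) (.split (nat_lit 0xb) (nat_lit 1) (.split (nat_lit 0xb) (nat_lit 3) (.split (nat_lit 0xb) (nat_lit 6) t1121_26 (.non (nat_lit 1) (nat_lit 4) (nat_lit 0x415401) (nat_lit 0x100000000000100020002000100000000000000000001))) (.non (nat_lit 0) (nat_lit 4) (nat_lit 0x540044) (nat_lit 0x100010001000000000000000000000002000000010000))) (.star (nat_lit 0xb) (nat_lit 1) (nat_lit 4))) (.star (nat_lit 0xb) (nat_lit 0) (nat_lit 4))))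

noncomputable def t1121_28 : Tr := (.ex (nat_lit 4) (.split (nat_lit 9) (nat_lit 3) (.split (nat_lit 8) (nat_lit 7) (.split (nat_lit 9) (nat_lit 8) (.split (nat_lit 7) (nat_lit 0) (.pd (.cons (nat_lit 0) (nat_lit 6) (nat_lit 0) (nat_lit 0x3980441110) (nat_lit 0xa2c28b71aef423f00000f423f5459198965f423f5572c00000) (.cons (nat_lit 0) (nat_lit 7) (nat_lit 0) (nat_lit 0x3905441110) (nat_lit 0xb71aef423f00000f423fb71ae1f156a2c28f423f5b8d400000) (.cons (nat_lit 0) (nat_lit 8) (nat_lit 0) (nat_lit 0x3065441110) (nat_lit 0xf423f00000f423fb71aea2c2804737b71aef423f65b9700000) (.cons (nat_lit 1) (nat_lit 6) (nat_lit 0) (nat_lit 0x8700449200) (nat_lit 0xb71aea2c289896500000f423f54591f423ff423f00000927bd) (.cons (nat_lit 1) (nat_lit 7) (nat_lit 0) (nat_lit 0x3905443200) (nat_lit 0xb71aef423f00000f423fb71ae1f156a2c28f423f00000f423f) (.cons (nat_lit 3) (nat_lit 7) (nat_lit 0) (nat_lit 0x8805440100) (nat_lit 0xf423fb71ae00000f423fb71ae1f15600000f423fb71ae1f156) .nil)))))) (.leaf (.cons (nat_lit 0x5501) (nat_lit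 0x20003000400030000000000000001) (.cons (nat_lit 0x54005) (nat_lit 0x1000200030000000000000000000000030004) (.cons (nat_lit 0x50045) (nat_lit 0x2000100000000000000000003000000040003) .nil))) (.cons (nat_lit 0x1111101001) (nat_lit 0x10010) (nat_lit 0xd) (nat_lit 0x5402306001) (.cons (nat_lit 0x1111001001) (nat_lit 0x100010) (nat_lit 9) (nat_lit 0x4302005001) .nil)))) (.non (nat_lit 1) (nat_lit 4) (nat_lit 0x2a001) (nat_lit 0x100020001000000000000000000000002))) (.non (nat_lit 0) (nat_lit 4) (nat_lit 0x6a040) (nat_lit 0x4000300020001000000000002000000000000))) (.non (nat_lit 0) (nat_lit 4) (nat_lit 0xa5400) (nat_lit 0x1000200030002000100000000000000000000))) (.non (nat_lit 0) (nat_lit 4) (nat_lit 0xa8044) (nat_lit 0x3000200010000000000000004000000020000))) (.split (nat_lit 0xa) (nat_lit 0) (.split (nat_lit 0xa) (nat_lit 1) (.split (nat_lit 0xa) (nat_lit 3) (.split (nat_lit 0xa) (nat_lit 5) (.split (nat_lit 0xa) (nat_lit 6) (.split (nat_lit 0xa) (nat_lit 7) (.split (nat_lit 0xa) (nat_lit 8) (.split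 (nat_lit 0xa) (nat_lit 9) (.split (nat_lit 0xa) (nat_lit 2) (.unj (nat_lit 0x55) (nat_lit 0x1000100020002) (nat_lit 0x101500) (nat_lit 0x10000000000000001000200020000000000000000)) (.unj (nat_lit 0x101500) (nat_lit 0x10000000000000001000200020000000000000000) (nat_lit 0x50045) (nat_lit 0x2000100000000000000000003000000040003))) (.non (nat_lit 0) (nat_lit 4) (nat_lit 0x155054) (nat_lit 0x20004000300020001000000000003000100020000))) (.non (nat_lit 0) (nat_lit 4) (nat_lit 0x155444) (nat_lit 0x20003000400030002000100000002000000010000))) (.non (nat_lit 0) (nat_lit 4) (nat_lit 0x155454) (nat_lit 0x30004000500060004000200000003000100020000))) (.non (nat_lit 1) (nat_lit 4) (nat_lit 0x115401) (nat_lit 0x10000000100020002000100000000000000000001))) (.non (nat_lit 1) (nat_lit 4) (nat_lit 0x155441) (nat_lit 0x10002000300040003000200000001000000000002))) (.non (nat_lit 0) (nat_lit 4) (nat_lit 0x155454) (nat_lit 0x30005000400030002000100000006000200040000))) (.star (nat_lit 0xa) (nat_lit 1) (nat_lit 4))) (.star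 (nat_lit 0xa) (nat_lit 0) (nat_lit 4))))

noncomputable def t1121_29 : Tr := (.split (nat_lit 9) (nat_lit 8) (.ex (nat_lit 3) (.ex (nat_lit 4) t1121_23 (.split (nat_lit 0xa) (nat_lit 0) (.split (nat_lit 0xa) (nat_lit 1) t1121_24 (.star (nat_lit 0xa) (nat_lit 1) (nat_lit 4))) (.star (nat_lit 0xa) (nat_lit 0) (nat_lit 4)))) (.split (nat_lit 0xa) (nat_lit 1) (.split (nat_lit 0xa) (nat_lit 2) (.split (nat_lit 0xa) (nat_lit 5) (.split (nat_lit 0xa) (nat_lit 6) (.split (nat_lit 0xa) (nat_lit 7) (.split (nat_lit 0xa) (nat_lit 8) (.split (nat_lit 0xa) (nat_lit 9) (.split (nat_lit 0xa) (nat_lit 0) (.split (nat_lit 0xa) (nat_lit 4) (.st (nat_lit 3) (nat_lit 0) (nat_lit 4) (nat_lit 0x140044) (nat_lit 0x10001000000000000000000000002000000010000) (nat_lit 1) (nat_lit 1) t1121_27) (.sup (nat_lit 0x20005000a0008) (nat_lit 0x20000000000000005000a00090000000000000000))) (.split (nat_lit 0xa) (nat_lit 4) (.split (nat_lit 0xa) (nat_lit 0) (.split (nat_lit 0xa) (nat_lit 3) (.split (nat_lit 9) (nat_lit 3) (.split (nat_lit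 8) (nat_lit 7) (.split (nat_lit 7) (nat_lit 0) (.sup (nat_lit 0x30007000b0010000d0000000000000000) (nat_lit 0x30002000000000000000000000004000200040001)) (.non (nat_lit 1) (nat_lit 4) (nat_lit 0x2a001) (nat_lit 0x100020001000000000000000000000002))) (.non (nat_lit 1) (nat_lit 4) (nat_lit 0x25001) (nat_lit 0x100020001000000000000000000000001))) (.non (nat_lit 0) (nat_lit 4) (nat_lit 0x180044) (nat_lit 0x10001000000000000000000000002000000010000))) (.non (nat_lit 0) (nat_lit 4) (nat_lit 0x240044) (nat_lit 0x10001000000000000000000000002000000010000))) (.non (nat_lit 1) (nat_lit 4) (nat_lit 0x215001) (nat_lit 0x10000000100020001000000000000000000000002))) (.star (nat_lit 0xa) (nat_lit 0) (nat_lit 4)))) (.non (nat_lit 0) (nat_lit 4) (nat_lit 0x140040) (nat_lit 0x10001000000000000000000000001000000000000))) (.non (nat_lit 0) (nat_lit 4) (nat_lit 0x155454) (nat_lit 0x50003000400030002000100000006000200040000))) (.non (nat_lit 0) (nat_lit 4) (nat_lit 0x155044) (nat_lit 0x20001000100020001000000000002000000010000)))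 (.non (nat_lit 0) (nat_lit 4) (nat_lit 0x145444) (nat_lit 0x20001000000010002000100000002000000010000))) (.non (nat_lit 0) (nat_lit 4) (nat_lit 0x155454) (nat_lit 0x50003000100020003000400000006000200040000))) (.non (nat_lit 0) (nat_lit 4) (nat_lit 0x100054) (nat_lit 0x10000000000000000000000000001000100010000))) (.non (nat_lit 0) (nat_lit 4) (nat_lit 0x100044) (nat_lit 0x10000000000000000000000000001000000010000)))) (.st (nat_lit 5) (nat_lit 1) (nat_lit 4) (nat_lit 0x55441) (nat_lit 0x2000300040003000200000001000000000002) (nat_lit 1) (nat_lit 1) (.st (nat_lit 3) (nat_lit 0) (nat_lit 4) (nat_lit 0x55454) (nat_lit 0x5000400030002000100000006000200040000) (nat_lit 1) (nat_lit 3) (.st (nat_lit 8) (nat_lit 0) (nat_lit 4) (nat_lit 0x55444) (nat_lit 0x3000400030002000100000002000000010000) (nat_lit 1) (nat_lit 2) (.st (nat_lit 9) (nat_lit 0) (nat_lit 4) (nat_lit 0x55054) (nat_lit 0x4000300020001000000000003000100020000) (nat_lit 1) (nat_lit 2) t1121_28)))))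

noncomputable def t1121_30 : Tr := (.split (nat_lit 8) (nat_lit 7) (.pd (.cons (nat_lit 0) (nat_lit 6) (nat_lit 0) (nat_lit 0x3770441110) (nat_lit 0xf423ff423fb71ae00000f423f54591b71aef423f65b9700000) (.cons (nat_lit 0) (nat_lit 7) (nat_lit 0) (nat_lit 0x3805441110) (nat_lit 0xf423ff423f00000f423fb71ae1f156b71aef423f65b9700000) (.cons (nat_lit 0) (nat_lit 8) (nat_lit 0) (nat_lit 0x3065441110) (nat_lit 0xf423f00000f423fb71aea2c2804737b71aef423f65b9700000) (.cons (nat_lit 1) (nat_lit 6) (nat_lit 0) (nat_lit 0x700449200) (nat_lit 0xb71aef423fb71ae00000f423f54591f423ff423f0000051611) (.cons (nat_lit 1) (nat_lit 7) (nat_lit 0) (nat_lit 0x805449200) (nat_lit 0xb71aef423f00000f423fb71ae1f156f423ff423f00000a2c28) .nil))))) (.ex (nat_lit 3) (.leaf (.cons (nat_lit 0x5501) (nat_lit 0x20003000400030000000000000001) (.cons (nat_lit 0x44005) (nat_lit 0x1000000010000000000000000000000020002) (.cons (nat_lit 0x40045) (nat_lit 0x1000000000000000000000001000000010001) (.cons (nat_lit 0x40015) (nat_lit 0x1000000000000000000000000000100020002)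 .nil)))) (.cons (nat_lit 0x1110001001) (nat_lit 0x1000010) (nat_lit 3) (nat_lit 0x1430000002) .nil)) (.split (nat_lit 0xa) (nat_lit 0) (.split (nat_lit 0xa) (nat_lit 1) (.split (nat_lit 0xa) (nat_lit 2) (.split (nat_lit 0xa) (nat_lit 4) (.split (nat_lit 0xa) (nat_lit 5) (.split (nat_lit 0xa) (nat_lit 6) (.split (nat_lit 0xa) (nat_lit 7) (.split (nat_lit 0xa) (nat_lit 8) (.split (nat_lit 0xa) (nat_lit 9) (.sup (nat_lit 0x30007000b0010000d0000000000000000) (nat_lit 0x20003000000000000000000000004000200040001)) (.non (nat_lit 0) (nat_lit 4) (nat_lit 0x140040) (nat_lit 0x10001000000000000000000000001000000000000))) (.non (nat_lit 0) (nat_lit 4) (nat_lit 0x155454) (nat_lit 0x50003000400030002000100000006000200040000))) (.non (nat_lit 0) (nat_lit 4) (nat_lit 0x155044) (nat_lit 0x20001000100020001000000000002000000010000))) (.non (nat_lit 0) (nat_lit 4) (nat_lit 0x145444) (nat_lit 0x20001000000010002000100000002000000010000))) (.non (nat_lit 0) (nat_lit 4) (nat_lit 0x155454) (nat_lit 0x50003000100020003000400000006000200040000)))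 (.non (nat_lit 0) (nat_lit 6) (nat_lit 0x140540) (nat_lit 0x30001000000000000000300040002000000000000))) (.non (nat_lit 0) (nat_lit 4) (nat_lit 0x100054) (nat_lit 0x10000000000000000000000000001000100010000))) (.non (nat_lit 0) (nat_lit 4) (nat_lit 0x100044) (nat_lit 0x10000000000000000000000000001000000010000))) (.non (nat_lit 1) (nat_lit 4) (nat_lit 0x155001) (nat_lit 0x10001000100020001000000000000000000000002))))) (.non (nat_lit 1) (nat_lit 4) (nat_lit 0x25001) (nat_lit 0x100020001000000000000000000000001)))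

noncomputable def t1121_31 : Tr := (.split (nat_lit 9) (nat_lit 5) (.split (nat_lit 9) (nat_lit 8) (.st (nat_lit 5) (nat_lit 1) (nat_lit 4) (nat_lit 0x55441) (nat_lit 0x2000200040003000200000001000000000003) (nat_lit 1) (nat_lit 1) (.st (nat_lit 8) (nat_lit 1) (nat_lit 4) (nat_lit 0x55401) (nat_lit 0x1000200030002000100000000000000000002) (nat_lit 1) (nat_lit 1) (.st (nat_lit 9) (nat_lit 1) (nat_lit 4) (nat_lit 0x55041) (nat_lit 0x2000100020001000000000001000000000002) (nat_lit 1) (nat_lit 1) (.ex (nat_lit 4) (.split (nat_lit 9) (nat_lit 3) (.split (nat_lit 7) (nat_lit 0) (.split (nat_lit 9) (nat_lit 0) t1121_30 (.non (nat_lit 1) (nat_lit 4) (nat_lit 0x95001) (nat_lit 0x1000100020001000000000000000000000002))) (.non (nat_lit 1) (nat_lit 4) (nat_lit 0x2a001) (nat_lit 0x100020001000000000000000000000002))) (.non (nat_lit 1) (nat_lit 4) (nat_lit 0x55081) (nat_lit 0x2000100020001000000000001000000000002))) (.split (nat_lit 0xa) (nat_lit 0) (.split (nat_lit 0xa) (nat_lit 1) (.split (nat_lit 0xa) (nat_lit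 5) (.split (nat_lit 0xa) (nat_lit 6) (.split (nat_lit 0xa) (nat_lit 7) (.split (nat_lit 0xa) (nat_lit 8) (.split (nat_lit 0xa) (nat_lit 9) (.split (nat_lit 0xa) (nat_lit 2) (.split (nat_lit 0xa) (nat_lit 3) (.unj (nat_lit 0x55) (nat_lit 0x1000100020002) (nat_lit 0x101500) (nat_lit 0x10000000000000001000200020000000000000000)) (.unj (nat_lit 0x40015) (nat_lit 0x1000000000000000000000000000100020002) (nat_lit 0x101500) (nat_lit 0x10000000000000001000200020000000000000000))) (.split (nat_lit 0xa) (nat_lit 3) (.unj (nat_lit 0x40045) (nat_lit 0x1000000000000000000000001000000010001) (nat_lit 0x101500) (nat_lit 0x10000000000000001000200020000000000000000)) (.non (nat_lit 0) (nat_lit 4) (nat_lit 0x100054) (nat_lit 0x10000000000000000000000000001000100010000)))) (.non (nat_lit 1) (nat_lit 4) (nat_lit 0x155041) (nat_lit 0x10002000100020001000000000001000000000002))) (.non (nat_lit 1) (nat_lit 4) (nat_lit 0x155401) (nat_lit 0x10001000200030002000100000000000000000002))) (.non (nat_lit 1) (nat_lit 4) (nat_lit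 0x115001) (nat_lit 0x10000000100020001000000000000000000000001))) (.non (nat_lit 1) (nat_lit 4) (nat_lit 0x115401) (nat_lit 0x10000000100020002000100000000000000000001))) (.non (nat_lit 1) (nat_lit 4) (nat_lit 0x155441) (nat_lit 0x10002000200040003000200000001000000000003))) (.star (nat_lit 0xa) (nat_lit 1) (nat_lit 4))) (.star (nat_lit 0xa) (nat_lit 0) (nat_lit 4))))))) (.non (nat_lit 1) (nat_lit 4) (nat_lit 0x54001) (nat_lit 0x1000100010000000000000000000000000001))) (.star (nat_lit 9) (nat_lit 0) (nat_lit 5)))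

noncomputable def t1121_32 : Tr := (.ex (nat_lit 3) (.ex (nat_lit 4) t1121_14 (.split (nat_lit 9) (nat_lit 0) (.split (nat_lit 9) (nat_lit 1) (.split (nat_lit 9) (nat_lit 6) (.split (nat_lit 9) (nat_lit 7) (.split (nat_lit 9) (nat_lit 2) (.split (nat_lit 9) (nat_lit 3) (.split (nat_lit 9) (nat_lit 5) (.split (nat_lit 9) (nat_lit 8) (.unj (nat_lit 0x55) (nat_lit 0x1000100020002) (nat_lit 0x41500) (nat_lit 0x1000000000001000200020000000000000000)) (.unj (nat_lit 0x55) (nat_lit 0x1000100020002) (nat_lit 0x41500) (nat_lit 0x1000000000001000200020000000000000000))) (.split (nat_lit 9) (nat_lit 8) (.unj (nat_lit 0x40500) (nat_lit 0x1000000000000000100010000000000000000) (nat_lit 0x55) (nat_lit 0x1000100020002)) (.non (nat_lit 0) (nat_lit 4) (nat_lit 0x55400) (nat_lit 0x1000100010001000100000000000000000000)))) (.split (nat_lit 9) (nat_lit 8) (.split (nat_lit 9) (nat_lit 5) (.sup (nat_lit 0x20005000a0008) (nat_lit 0x2000000000005000a00090000000000000000)) (.unj (nat_lit 0x40500) (nat_lit 0x1000000000000000100010000000000000000)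 (nat_lit 0x4015) (nat_lit 0x10000000000000000000100020002))) (.non (nat_lit 0) (nat_lit 5) (nat_lit 0x55154) (nat_lit 0x4000300020001000000020003000100020000)))) (.split (nat_lit 9) (nat_lit 3) (.split (nat_lit 9) (nat_lit 8) (.split (nat_lit 9) (nat_lit 5) (.sup (nat_lit 0x50002000a0008) (nat_lit 0x2000000000005000a00090000000000000000)) (.unj (nat_lit 0x40500) (nat_lit 0x1000000000000000100010000000000000000) (nat_lit 0x4045) (nat_lit 0x10000000000000001000000020002))) (.non (nat_lit 0) (nat_lit 5) (nat_lit 0x55154) (nat_lit 0x4000300020001000000020001000300020000))) (.non (nat_lit 0) (nat_lit 4) (nat_lit 0x40054) (nat_lit 0x1000000000000000000000001000100010000)))) (.non (nat_lit 1) (nat_lit 4) (nat_lit 0x55001) (nat_lit 0x1000100020001000000000000000000000001))) (.non (nat_lit 1) (nat_lit 4) (nat_lit 0x55401) (nat_lit 0x1000100020002000100000000000000000001))) (.star (nat_lit 9) (nat_lit 1) (nat_lit 4))) (.star (nat_lit 9) (nat_lit 0) (nat_lit 4)))) (.split (nat_lit 9) (nat_lit 1) (.split (nat_lit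 9) (nat_lit 2) (.split (nat_lit 9) (nat_lit 6) (.split (nat_lit 9) (nat_lit 7) (.split (nat_lit 9) (nat_lit 0) (.split (nat_lit 9) (nat_lit 4) (.split (nat_lit 9) (nat_lit 5) t1121_29 (.split (nat_lit 9) (nat_lit 8) (.sup (nat_lit 0x1000300050004) (nat_lit 0x1000000000003000500040000000000000000)) (.non (nat_lit 0) (nat_lit 4) (nat_lit 0x55400) (nat_lit 0x1000100010001000100000000000000000000)))) (.split (nat_lit 9) (nat_lit 8) (.split (nat_lit 9) (nat_lit 5) (.sup (nat_lit 0x20005000a0008) (nat_lit 0x2000000000005000a00090000000000000000)) (.unj (nat_lit 0x40500) (nat_lit 0x1000000000000000100010000000000000000) (nat_lit 0x4015) (nat_lit 0x10000000000000000000100020002))) (.non (nat_lit 0) (nat_lit 5) (nat_lit 0x55154) (nat_lit 0x4000300020001000000020003000100020000)))) (.split (nat_lit 9) (nat_lit 4) t1121_31 (.star (nat_lit 9) (nat_lit 0) (nat_lit 4)))) (.non (nat_lit 1) (nat_lit 4) (nat_lit 0x55001) (nat_lit 0x1000100020001000000000000000000000001))) (.non (nat_lit 1) (nat_lit 4) (nat_lit 0x55401)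 (nat_lit 0x1000100020002000100000000000000000001))) (.non (nat_lit 0) (nat_lit 4) (nat_lit 0x40054) (nat_lit 0x1000000000000000000000001000100010000))) (.non (nat_lit 0) (nat_lit 4) (nat_lit 0x40044) (nat_lit 0x1000000000000000000000001000000010000))))

noncomputable def t1121_33 : Tr := (.ex (nat_lit 0xb) (.leaf (.cons (nat_lit 0x5501) (nat_lit 0x20003000400030000000000000001) (.cons (nat_lit 0x114005) (nat_lit 0x10000000200030000000000000000000000030004) .nil)) (.cons (nat_lit 0x110111100001) (nat_lit 0x10010) (nat_lit 0xd) (nat_lit 0x650402300001) (.cons (nat_lit 0x110111000001) (nat_lit 0x100010) (nat_lit 9) (nat_lit 0x540302000001) .nil))) (.split (nat_lit 0xc) (nat_lit 0) (.split (nat_lit 0xc) (nat_lit 1) (.split (nat_lit 0xc) (nat_lit 2) (.split (nat_lit 0xc) (nat_lit 3) (.split (nat_lit 0xc) (nat_lit 4) (.split (nat_lit 0xc) (nat_lit 5) (.split (nat_lit 0xc) (nat_lit 6) (.split (nat_lit 0xc) (nat_lit 7) (.split (nat_lit 0xc) (nat_lit 8) (.split (nat_lit 0xc) (nat_lit 9) (.split (nat_lit 0xc)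 (nat_lit 0xa) (.st (nat_lit 0xb) (nat_lit 1) (nat_lit 4) (nat_lit 0x1515001) (nat_lit 0x1000200020000000200020001000000000000000000000001) (nat_lit 1) (nat_lit 1) (.st (nat_lit 0xc) (nat_lit 1) (nat_lit 4) (nat_lit 0x1515401) (nat_lit 0x2000300040000000500060004000200000000000000000003) (nat_lit 1) (nat_lit 1) (.split (nat_lit 0xc) (nat_lit 0xb) (.leaf (.cons (nat_lit 0x5501) (nat_lit 0x20003000400030000000000000001) (.cons (nat_lit 0x114005) (nat_lit 0x10000000200030000000000000000000000030004) .nil)) (.cons (nat_lit 0x1110111100001) (nat_lit 0x10010) (nat_lit 0xe) (nat_lit 0x7650402300001) (.cons (nat_lit 0x1110110000001) (nat_lit 0x1000010) (nat_lit 4) (nat_lit 0x5430210000000) .nil))) (.non (nat_lit 1) (nat_lit 4) (nat_lit 0x2515001) (nat_lit 0x1000200020000000200020001000000000000000000000001))))) (.non (nat_lit 0) (nat_lit 4) (nat_lit 0x1500000) (nat_lit 0x1000100010000000000000000000000000000000000000000))) (.non (nat_lit 1) (nat_lit 4) (nat_lit 0x1555401) (nat_lit 0x2000300040001000500060004000200000000000000000003)))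 (.non (nat_lit 0) (nat_lit 4) (nat_lit 0x1510000) (nat_lit 0x1000100010000000100000000000000000000000000000000))) (.non (nat_lit 0) (nat_lit 4) (nat_lit 0x1514000) (nat_lit 0x1000100010000000100010000000000000000000000000000))) (.non (nat_lit 0) (nat_lit 4) (nat_lit 0x1515000) (nat_lit 0x1000100010000000100010001000000000000000000000000))) (.non (nat_lit 0) (nat_lit 4) (nat_lit 0x1515400) (nat_lit 0x1000100010000000100010001000100000000000000000000))) (.non (nat_lit 0) (nat_lit 6) (nat_lit 0x1500500) (nat_lit 0x3000200010000000000000000000300040000000000000000))) (.non (nat_lit 1) (nat_lit 4) (nat_lit 0x1515441) (nat_lit 0x2000300040000000500060004000200000001000000000003))) (.non (nat_lit 0) (nat_lit 4) (nat_lit 0x1554054) (nat_lit 0x5000400030003000200010000000000000002000600040000))) (.non (nat_lit 0) (nat_lit 4) (nat_lit 0x1554054) (nat_lit 0x5000400030002000200010000000000000003000400060000))) (.non (nat_lit 1) (nat_lit 4) (nat_lit 0x1514001) (nat_lit 0x1000100010000000100010000000000000000000000000001))))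

noncomputable def t1121_34 : Tr := (.split (nat_lit 0xa) (nat_lit 7) (.split (nat_lit 0xa) (nat_lit 9) (.st (nat_lit 8) (nat_lit 1) (nat_lit 4) (nat_lit 0x115001) (nat_lit 0x10000000200020001000000000000000000000001) (nat_lit 1) (nat_lit 1) (.split (nat_lit 0xa) (nat_lit 8) (.ex (nat_lit 0xa) (.leaf (.cons (nat_lit 0x5501) (nat_lit 0x20003000400030000000000000001) (.cons (nat_lit 0x114005) (nat_lit 0x10000000200030000000000000000000000030004) .nil)) (.cons (nat_lit 0x10111100001) (nat_lit 0x10010) (nat_lit 0xc) (nat_lit 0x50402300001) .nil)) (.split (nat_lit 0xb) (nat_lit 0) (.split (nat_lit 0xb) (nat_lit 1) (.split (nat_lit 0xb) (nat_lit 2) (.split (nat_lit 0xb) (nat_lit 3) (.split (nat_lit 0xb) (nat_lit 4) (.split (nat_lit 0xb) (nat_lit 5) (.split (nat_lit 0xb) (nat_lit 6) (.split (nat_lit 0xb) (nat_lit 7) (.split (nat_lit 0xb) (nat_lit 8) (.split (nat_lit 0xb) (nat_lit 9) (.st (nat_lit 0xa) (nat_lit 1) (nat_lit 4) (nat_lit 0x515001) (nat_lit 0x100020000000200020001000000000000000000000001) (nat_lit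 1) (nat_lit 1) (.split (nat_lit 0xb) (nat_lit 0xa) t1121_33 (.non (nat_lit 1) (nat_lit 4) (nat_lit 0x915001) (nat_lit 0x100020000000200020001000000000000000000000001)))) (.non (nat_lit 1) (nat_lit 4) (nat_lit 0x555411) (nat_lit 0x300040002000500060004000200000000000100000003))) (.non (nat_lit 0) (nat_lit 4) (nat_lit 0x510000) (nat_lit 0x100010000000100000000000000000000000000000000))) (.non (nat_lit 0) (nat_lit 4) (nat_lit 0x514000) (nat_lit 0x100010000000100010000000000000000000000000000))) (.non (nat_lit 0) (nat_lit 4) (nat_lit 0x515000) (nat_lit 0x100010000000100010001000000000000000000000000))) (.non (nat_lit 0) (nat_lit 4) (nat_lit 0x515400) (nat_lit 0x100010000000100010001000100000000000000000000))) (.non (nat_lit 0) (nat_lit 6) (nat_lit 0x510500) (nat_lit 0x300020000000100000000000300040000000000000000))) (.non (nat_lit 2) (nat_lit 7) (nat_lit 0x500045) (nat_lit 0x200010000000000000000000000000003000000040003))) (.non (nat_lit 0) (nat_lit 4) (nat_lit 0x555054) (nat_lit 0x500040003000300020001000000000002000600040000)))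 (.non (nat_lit 0) (nat_lit 4) (nat_lit 0x555054) (nat_lit 0x500040002000300020001000000000003000400060000))) (.non (nat_lit 1) (nat_lit 4) (nat_lit 0x514001) (nat_lit 0x100010000000100010000000000000000000000000001)))) (.non (nat_lit 1) (nat_lit 4) (nat_lit 0x215001) (nat_lit 0x10000000200020001000000000000000000000001)))) (.non (nat_lit 3) (nat_lit 7) (nat_lit 0x140015) (nat_lit 0x10002000000000000000000000000000300040003))) (.non (nat_lit 0) (nat_lit 4) (nat_lit 0x114000) (nat_lit 0x10000000100010000000000000000000000000000)))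

noncomputable def t1121_35 : Tr := (.split (nat_lit 0xd) (nat_lit 1) (.split (nat_lit 0xd) (nat_lit 2) (.split (nat_lit 0xd) (nat_lit 3) (.split (nat_lit 0xd) (nat_lit 4) (.split (nat_lit 0xd) (nat_lit 5) (.split (nat_lit 0xd) (nat_lit 6) (.split (nat_lit 0xd) (nat_lit 7) (.split (nat_lit 0xd) (nat_lit 8) (.split (nat_lit 0xd) (nat_lit 9) (.split (nat_lit 0xd) (nat_lit 0xa) (.split (nat_lit 0xd) (nat_lit 0xb) (.st (nat_lit 0xc) (nat_lit 1) (nat_lit 4) (nat_lit 0x5415001) (nat_lit 0x10002000200000000000200020001000000000000000000000001) (nat_lit 1) (nat_lit 1) (.st (nat_lit 0xd) (nat_lit 1) (nat_lit 4) (nat_lit 0x5415401) (nat_lit 0x20003000400000000000500060004000200000000000000000003) (nat_lit 1) (nat_lit 1) (.split (nat_lit 0xd) (nat_lit 0xc) (.leaf (.cons (nat_lit 0x5501) (nat_lit 0x20003000400030000000000000001) (.cons (nat_lit 0x414005) (nat_lit 0x100000000000200030000000000000000000000030004) (.cons (nat_lit 0x140015) (nat_lit 0x10002000000000000000000000000000300040003) .nil))) (.cons (nat_lit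 0x11100111100001) (nat_lit 0x10010) (nat_lit 0xe) (nat_lit 0x76500402300001) (.cons (nat_lit 0x11100110000001) (nat_lit 0x1000010) (nat_lit 4) (nat_lit 0x54300210000000) .nil))) (.non (nat_lit 1) (nat_lit 4) (nat_lit 0x9415001) (nat_lit 0x10002000200000000000200020001000000000000000000000001))))) (.non (nat_lit 0) (nat_lit 4) (nat_lit 0x5400000) (nat_lit 0x10001000100000000000000000000000000000000000000000000))) (.non (nat_lit 1) (nat_lit 4) (nat_lit 0x5515401) (nat_lit 0x20003000400010000000500060004000200000000000000000003))) (.non (nat_lit 0) (nat_lit 4) (nat_lit 0x5554014) (nat_lit 0x50004000300030006000200010000000000000000000400020000))) (.non (nat_lit 0) (nat_lit 4) (nat_lit 0x5410000) (nat_lit 0x10001000100000000000100000000000000000000000000000000))) (.non (nat_lit 0) (nat_lit 4) (nat_lit 0x5414000) (nat_lit 0x10001000100000000000100010000000000000000000000000000))) (.non (nat_lit 0) (nat_lit 4) (nat_lit 0x5415000) (nat_lit 0x10001000100000000000100010001000000000000000000000000))) (.non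 (nat_lit 0) (nat_lit 4) (nat_lit 0x5415400) (nat_lit 0x10001000100000000000100010001000100000000000000000000))) (.non (nat_lit 0) (nat_lit 6) (nat_lit 0x5400500) (nat_lit 0x30002000100000000000000000000000300040000000000000000))) (.non (nat_lit 1) (nat_lit 4) (nat_lit 0x5415441) (nat_lit 0x20003000400000000000500060004000200000001000000000003))) (.non (nat_lit 0) (nat_lit 4) (nat_lit 0x5554014) (nat_lit 0x50004000300020004000200010000000000000000000600030000))) (.non (nat_lit 0) (nat_lit 4) (nat_lit 0x5540054) (nat_lit 0x30002000100010002000000000000000000000002000300040000)))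

noncomputable def t1121_36 : Tr := (.split (nat_lit 0xc) (nat_lit 0) (.split (nat_lit 0xc) (nat_lit 1) (.split (nat_lit 0xc) (nat_lit 2) (.split (nat_lit 0xc) (nat_lit 3) (.split (nat_lit 0xc) (nat_lit 4) (.split (nat_lit 0xc) (nat_lit 5) (.split (nat_lit 0xc) (nat_lit 6) (.split (nat_lit 0xc) (nat_lit 7) (.split (nat_lit 0xc) (nat_lit 8) (.split (nat_lit 0xc) (nat_lit 9) (.split (nat_lit 0xc) (nat_lit 0xa) (.st (nat_lit 0xb) (nat_lit 1) (nat_lit 4) (nat_lit 0x1415001) (nat_lit 0x1000200000000000200020001000000000000000000000001) (nat_lit 1) (nat_lit 1) (.split (nat_lit 0xc) (nat_lit 0xb) (.ex (nat_lit 0xc) (.leaf (.cons (nat_lit 0x5501) (nat_lit 0x20003000400030000000000000001) (.cons (nat_lit 0x414005) (nat_lit 0x100000000000200030000000000000000000000030004) (.cons (nat_lit 0x140015) (nat_lit 0x10002000000000000000000000000000300040003) .nil))) (.cons (nat_lit 0x1100111100001) (nat_lit 0x10010) (nat_lit 0xd) (nat_lit 0x6500402300001) (.cons (nat_lit 0x1100111000001) (nat_lit 0x100010) (nat_lit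 9) (nat_lit 0x5400302000001) .nil))) (.split (nat_lit 0xd) (nat_lit 0) t1121_35 (.non (nat_lit 1) (nat_lit 4) (nat_lit 0x5414001) (nat_lit 0x10001000100000000000100010000000000000000000000000001)))) (.non (nat_lit 1) (nat_lit 4) (nat_lit 0x2415001) (nat_lit 0x1000200000000000200020001000000000000000000000001)))) (.non (nat_lit 1) (nat_lit 4) (nat_lit 0x1555401) (nat_lit 0x3000400020001000500060004000200000000000000000003))) (.non (nat_lit 0) (nat_lit 4) (nat_lit 0x1555014) (nat_lit 0x5000400030006000300020001000000000000000400020000))) (.non (nat_lit 0) (nat_lit 4) (nat_lit 0x1410000) (nat_lit 0x1000100000000000100000000000000000000000000000000))) (.non (nat_lit 0) (nat_lit 4) (nat_lit 0x1414000) (nat_lit 0x1000100000000000100010000000000000000000000000000))) (.non (nat_lit 0) (nat_lit 4) (nat_lit 0x1415000) (nat_lit 0x1000100000000000100010001000000000000000000000000))) (.non (nat_lit 0) (nat_lit 4) (nat_lit 0x1415400) (nat_lit 0x1000100000000000100010001000100000000000000000000))) (.non (nat_lit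 0) (nat_lit 6) (nat_lit 0x1410500) (nat_lit 0x3000200000000000100000000000300040000000000000000))) (.non (nat_lit 2) (nat_lit 7) (nat_lit 0x1400045) (nat_lit 0x2000100000000000000000000000000000003000000040003))) (.non (nat_lit 0) (nat_lit 4) (nat_lit 0x1555014) (nat_lit 0x5000400020004000300020001000000000000000600030000))) (.non (nat_lit 0) (nat_lit 4) (nat_lit 0x1550054) (nat_lit 0x3000200010002000100000000000000000002000300040000))) (.non (nat_lit 1) (nat_lit 4) (nat_lit 0x1414001) (nat_lit 0x1000100000000000100010000000000000000000000000001)))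

noncomputable def t1121_37 : Tr := (.ex (nat_lit 8) (.leaf (.cons (nat_lit 0x5501) (nat_lit 0x20003000400030000000000000001) (.cons (nat_lit 0x15005) (nat_lit 0x100020001000000000000000000020002) (.cons (nat_lit 0x4045) (nat_lit 0x10000000000000001000000020002) (.cons (nat_lit 0x140015) (nat_lit 0x10002000000000000000000000000000300040003) .nil)))) (.cons (nat_lit 0x111100001) (nat_lit 0x10010) (nat_lit 8) (nat_lit 0x203400001) (.cons (nat_lit 0x111000001) (nat_lit 0x100010) (nat_lit 7) (nat_lit 0x302000001) .nil))) (.split (nat_lit 0xb) (nat_lit 0) (.split (nat_lit 0xb) (nat_lit 1) (.split (nat_lit 0xb) (nat_lit 2) (.split (nat_lit 0xb) (nat_lit 3) (.split (nat_lit 0xb) (nat_lit 4) (.split (nat_lit 0xb) (nat_lit 5) (.split (nat_lit 0xb) (nat_lit 6) (.split (nat_lit 0xb) (nat_lit 7) (.split (nat_lit 0xb) (nat_lit 9) (.split (nat_lit 0xb) (nat_lit 0xa) (.st (nat_lit 8) (nat_lit 1) (nat_lit 4) (nat_lit 0x415001) (nat_lit 0x100000000000200020001000000000000000000000001) (nat_lit 1) (nat_lit 1) (.split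 (nat_lit 0xb) (nat_lit 8) (.ex (nat_lit 0xb) (.leaf (.cons (nat_lit 0x5501) (nat_lit 0x20003000400030000000000000001) (.cons (nat_lit 0x414005) (nat_lit 0x100000000000200030000000000000000000000030004) (.cons (nat_lit 0x140015) (nat_lit 0x10002000000000000000000000000000300040003) .nil))) (.cons (nat_lit 0x100111100001) (nat_lit 0x10010) (nat_lit 0xc) (nat_lit 0x500402300001) .nil)) t1121_36) (.non (nat_lit 1) (nat_lit 4) (nat_lit 0x815001) (nat_lit 0x100000000000200020001000000000000000000000001)))) (.non (nat_lit 1) (nat_lit 4) (nat_lit 0x555411) (nat_lit 0x400030002000500060004000200000000000100000003))) (.non (nat_lit 0) (nat_lit 4) (nat_lit 0x555414) (nat_lit 0x500030006000400030002000100000000000400020000))) (.non (nat_lit 0) (nat_lit 4) (nat_lit 0x414000) (nat_lit 0x100000000000100010000000000000000000000000000))) (.non (nat_lit 0) (nat_lit 4) (nat_lit 0x415000) (nat_lit 0x100000000000100010001000000000000000000000000))) (.non (nat_lit 0) (nat_lit 4) (nat_lit 0x415400) (nat_lit 0x100000000000100010001000100000000000000000000)))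 (.non (nat_lit 0) (nat_lit 6) (nat_lit 0x414500) (nat_lit 0x300000000000200010000000300040000000000000000))) (.non (nat_lit 2) (nat_lit 7) (nat_lit 0x410045) (nat_lit 0x200000000000100000000000000000003000000040003))) (.non (nat_lit 0) (nat_lit 4) (nat_lit 0x555414) (nat_lit 0x500020004000400030002000100000000000600030000))) (.non (nat_lit 0) (nat_lit 4) (nat_lit 0x554054) (nat_lit 0x300010002000200010000000000000002000300040000))) (.non (nat_lit 1) (nat_lit 4) (nat_lit 0x414001) (nat_lit 0x100000000000100010000000000000000000000000001))))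

noncomputable def t1121_38 : Tr := (.split (nat_lit 0xa) (nat_lit 9) t1121_37 (.st (nat_lit 9) (nat_lit 0) (nat_lit 4) (nat_lit 0x240010) (nat_lit 0x10002000000000000000000000000000100000000) (nat_lit 1) (nat_lit 1) (.st (nat_lit 0xa) (nat_lit 0) (nat_lit 4) (nat_lit 0x240014) (nat_lit 0x20003000000000000000000000000000200010000) (nat_lit 2) (nat_lit 1) (.split (nat_lit 0xa) (nat_lit 9) (.ex (nat_lit 8) (.leaf (.cons (nat_lit 0x5501) (nat_lit 0x20003000400030000000000000001) (.cons (nat_lit 0x15005) (nat_lit 0x100020001000000000000000000020002) (.cons (nat_lit 0x4045) (nat_lit 0x10000000000000001000000020002) (.cons (nat_lit 0x140015) (nat_lit 0x10001000000000000000000000000000100010001) .nil)))) (.cons (nat_lit 0x111100001) (nat_lit 0x10010) (nat_lit 8) (nat_lit 0x203400001) (.cons (nat_lit 0x111000001) (nat_lit 0x100010) (nat_lit 7) (nat_lit 0x302000001) .nil))) (.split (nat_lit 0xb) (nat_lit 0) (.split (nat_lit 0xb) (nat_lit 1) (.split (nat_lit 0xb) (nat_lit 2) (.split (nat_lit 0xb) (nat_lit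 3) (.split (nat_lit 0xb) (nat_lit 4) (.split (nat_lit 0xb) (nat_lit 5) (.split (nat_lit 0xb) (nat_lit 6) (.split (nat_lit 0xb) (nat_lit 7) (.split (nat_lit 0xb) (nat_lit 9) (.split (nat_lit 0xb) (nat_lit 0xa) (.sup (nat_lit 0x20000000000040007000b0010000d0000000000000000) (nat_lit 0x50007000000000000000000000003000700070002)) (.non (nat_lit 0) (nat_lit 4) (nat_lit 0xa60010) (nat_lit 0x200030004000100000000000000000000000200000000))) (.non (nat_lit 0) (nat_lit 4) (nat_lit 0x640010) (nat_lit 0x100010002000000000000000000000000000100000000))) (.non (nat_lit 0) (nat_lit 4) (nat_lit 0x414000) (nat_lit 0x100000000000100010000000000000000000000000000))) (.non (nat_lit 0) (nat_lit 4) (nat_lit 0x415000) (nat_lit 0x100000000000100010001000000000000000000000000))) (.non (nat_lit 0) (nat_lit 4) (nat_lit 0x415400) (nat_lit 0x100000000000100010001000100000000000000000000))) (.non (nat_lit 0) (nat_lit 6) (nat_lit 0x414500) (nat_lit 0x300000000000200010000000300040000000000000000))) (.non (nat_lit 2) (nat_lit 7)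 (nat_lit 0x410045) (nat_lit 0x200000000000100000000000000000003000000040003))) (.non (nat_lit 0) (nat_lit 4) (nat_lit 0x640014) (nat_lit 0x100010002000000000000000000000000000200010000))) (.non (nat_lit 0) (nat_lit 4) (nat_lit 0x640054) (nat_lit 0x100010002000000000000000000000001000200020000))) (.non (nat_lit 1) (nat_lit 4) (nat_lit 0x414001) (nat_lit 0x100000000000100010000000000000000000000000001)))) (.non (nat_lit 0) (nat_lit 4) (nat_lit 0x140054) (nat_lit 0x30004000000000000000000000001000300020000))))))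

noncomputable def t1121_39 : Tr := (.ex (nat_lit 9) (.pd (.cons (nat_lit 3) (nat_lit 7) (nat_lit 0) (nat_lit 0x2805440100) (nat_lit 0xf423ff423f00000f423fb71ae1f15600000b71aea2c2804737) .nil) (.ex (nat_lit 8) (.leaf (.cons (nat_lit 0x5501) (nat_lit 0x20003000400030000000000000001) (.cons (nat_lit 0x15005) (nat_lit 0x100020001000000000000000000020002) (.cons (nat_lit 0x4045) (nat_lit 0x10000000000000001000000020002) (.cons (nat_lit 0x4015) (nat_lit 0x10000000000000000000100020002) .nil)))) (.cons (nat_lit 0x111100001) (nat_lit 0x10010) (nat_lit 8) (nat_lit 0x203400001) (.cons (nat_lit 0x111000001) (nat_lit 0x100010) (nat_lit 7) (nat_lit 0x302000001) .nil))) (.split (nat_lit 0xa) (nat_lit 0) (.split (nat_lit 0xa) (nat_lit 1) (.split (nat_lit 0xa) (nat_lit 2) (.split (nat_lit 0xa) (nat_lit 3) (.split (nat_lit 0xa) (nat_lit 4) (.split (nat_lit 0xa) (nat_lit 5) (.split (nat_lit 0xa) (nat_lit 6) t1121_34 (.non (nat_lit 0) (nat_lit 4) (nat_lit 0x115000) (nat_lit 0x10000000100010001000000000000000000000000)))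 (.non (nat_lit 0) (nat_lit 4) (nat_lit 0x115400) (nat_lit 0x10000000100010001000100000000000000000000))) (.non (nat_lit 0) (nat_lit 6) (nat_lit 0x114500) (nat_lit 0x30000000200010000000300040000000000000000))) (.non (nat_lit 2) (nat_lit 7) (nat_lit 0x110045) (nat_lit 0x20000000100000000000000000003000000040003))) (.non (nat_lit 0) (nat_lit 4) (nat_lit 0x155454) (nat_lit 0x50003000400030002000100000002000600040000))) (.non (nat_lit 0) (nat_lit 4) (nat_lit 0x155454) (nat_lit 0x50002000400030002000100000003000400060000))) (.non (nat_lit 1) (nat_lit 4) (nat_lit 0x114001) (nat_lit 0x10000000100010000000000000000000000000001))))) (.split (nat_lit 0xa) (nat_lit 0) (.split (nat_lit 0xa) (nat_lit 1) (.split (nat_lit 0xa) (nat_lit 2) (.split (nat_lit 0xa) (nat_lit 3) (.split (nat_lit 0xa) (nat_lit 4) (.split (nat_lit 0xa) (nat_lit 5) (.split (nat_lit 0xa) (nat_lit 6) (.split (nat_lit 0xa) (nat_lit 7) (.split (nat_lit 0xa) (nat_lit 8) t1121_38 (.st (nat_lit 8) (nat_lit 0) (nat_lit 4) (nat_lit 0x155410) (nat_lit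 0x30002000400030002000100000000000100000000) (nat_lit 1) (nat_lit 2) (.st (nat_lit 9) (nat_lit 0) (nat_lit 4) (nat_lit 0x155414) (nat_lit 0x50006000400030002000100000000000400020000) (nat_lit 1) (nat_lit 3) (.st (nat_lit 0xa) (nat_lit 0) (nat_lit 4) (nat_lit 0x155014) (nat_lit 0x40003000300020001000000000000000200010000) (nat_lit 1) (nat_lit 2) (.split (nat_lit 0xa) (nat_lit 8) (.split (nat_lit 0xa) (nat_lit 9) (.leaf (.cons (nat_lit 0x5501) (nat_lit 0x20003000400030000000000000001) (.cons (nat_lit 0x114005) (nat_lit 0x10000000200030000000000000000000000030004) (.cons (nat_lit 0x140015) (nat_lit 0x10002000000000000000000000000000300040003) .nil))) (.cons (nat_lit 0x11111100101) (nat_lit 0x10010) (nat_lit 0xe) (nat_lit 0x56402300701) (.cons (nat_lit 0x11110000101) (nat_lit 0x1000010) (nat_lit 4) (nat_lit 0x34210000500) .nil))) (.non (nat_lit 0) (nat_lit 4) (nat_lit 0x268010) (nat_lit 0x30004000200010000000000000000000200000000))) (.non (nat_lit 0) (nat_lit 4) (nat_lit 0x295000) (nat_lit 0x20001000300020001000000000000000000000000)))))))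 (.non (nat_lit 0) (nat_lit 4) (nat_lit 0x155454) (nat_lit 0x50004000300060004000200000001000300020000))) (.non (nat_lit 0) (nat_lit 4) (nat_lit 0x155454) (nat_lit 0x50004000200040006000300000001000300020000))) (.non (nat_lit 0) (nat_lit 6) (nat_lit 0x140510) (nat_lit 0x30002000000000000000400030000000100000000))) (.non (nat_lit 0) (nat_lit 6) (nat_lit 0x140510) (nat_lit 0x30002000000000000000300040000000100000000))) (.non (nat_lit 0) (nat_lit 4) (nat_lit 0x140054) (nat_lit 0x10001000000000000000000000001000100010000))) (.non (nat_lit 0) (nat_lit 4) (nat_lit 0x140010) (nat_lit 0x10001000000000000000000000000000100000000))) (.non (nat_lit 0) (nat_lit 4) (nat_lit 0x140014) (nat_lit 0x10001000000000000000000000000000100010000))) (.non (nat_lit 2) (nat_lit 7) (nat_lit 0x100045) (nat_lit 0x10000000000000000000000000001000000020002))))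

noncomputable def t1121_40 : Tr := (.pd (.cons (nat_lit 0) (nat_lit 6) (nat_lit 0) (nat_lit 0x2770441110) (nat_lit 0xf423ff423fb71ae00000f423f54591f423f7a11e3d08b00000) (.cons (nat_lit 0) (nat_lit 7) (nat_lit 0) (nat_lit 0x2805441110) (nat_lit 0xf423ff423f00000f423fb71ae1f156f423f7a11e3d08b00000) (.cons (nat_lit 0) (nat_lit 8) (nat_lit 0) (nat_lit 0x2065441110) (nat_lit 0xf423f00000f423fb71aea2c2804737f423f7a11e3d08b00000) (.cons (nat_lit 1) (nat_lit 6) (nat_lit 0) (nat_lit 0x2700443200) (nat_lit 0xf423ff423fb71ae00000f423f54591f423f7a11e00000a2c28) (.cons (nat_lit 1) (nat_lit 7) (nat_lit 0) (nat_lit 0x2805443200) (nat_lit 0xf423ff423f00000f423fb71ae1f156f423f7a11e00000f423f) (.cons (nat_lit 2) (nat_lit 7) (nat_lit 0) (nat_lit 0x9805441000) (nat_lit 0xf423ff423f00000f423fb71ae1f156f423f00000b71ae1f156) .nil)))))) (.st (nat_lit 9) (nat_lit 0) (nat_lit 4) (nat_lit 0x80054) (nat_lit 0x2000000000000000000000001000300020000) (nat_lit 2) (nat_lit 1) (.ex (nat_lit 8) (.leaf (.cons (nat_lit 0x5501) (nat_lit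 0x20003000400030000000000000001) (.cons (nat_lit 0x15005) (nat_lit 0x100020001000000000000000000020002) (.cons (nat_lit 0x4045) (nat_lit 0x10000000000000001000000020002) (.cons (nat_lit 0x40015) (nat_lit 0x1000000000000000000000000000100010001) .nil)))) (.cons (nat_lit 0x111100001) (nat_lit 0x10010) (nat_lit 8) (nat_lit 0x203400001) (.cons (nat_lit 0x111000001) (nat_lit 0x100010) (nat_lit 7) (nat_lit 0x302000001) .nil))) (.split (nat_lit 0xa) (nat_lit 0) (.split (nat_lit 0xa) (nat_lit 1) (.split (nat_lit 0xa) (nat_lit 2) (.split (nat_lit 0xa) (nat_lit 3) (.split (nat_lit 0xa) (nat_lit 4) (.split (nat_lit 0xa) (nat_lit 5) (.split (nat_lit 0xa) (nat_lit 6) (.split (nat_lit 0xa) (nat_lit 7) (.split (nat_lit 0xa) (nat_lit 9) (.sup (nat_lit 0x2000000040007000b0010000d0000000000000000) (nat_lit 0x5000000000000000000000003000700070002)) (.non (nat_lit 0) (nat_lit 4) (nat_lit 0x2a0014) (nat_lit 0x20003000100000000000000000000000400020000))) (.non (nat_lit 0) (nat_lit 4) (nat_lit 0x114000) (nat_lit 0x10000000100010000000000000000000000000000)))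 (.non (nat_lit 0) (nat_lit 4) (nat_lit 0x115000) (nat_lit 0x10000000100010001000000000000000000000000))) (.non (nat_lit 0) (nat_lit 4) (nat_lit 0x115400) (nat_lit 0x10000000100010001000100000000000000000000))) (.non (nat_lit 0) (nat_lit 6) (nat_lit 0x114500) (nat_lit 0x30000000200010000000300040000000000000000))) (.non (nat_lit 2) (nat_lit 7) (nat_lit 0x110045) (nat_lit 0x20000000100000000000000000003000000040003))) (.non (nat_lit 0) (nat_lit 4) (nat_lit 0x180014) (nat_lit 0x10001000000000000000000000000000200010000))) (.non (nat_lit 0) (nat_lit 4) (nat_lit 0x180054) (nat_lit 0x10001000000000000000000000001000200020000))) (.non (nat_lit 1) (nat_lit 4) (nat_lit 0x114001) (nat_lit 0x10000000100010000000000000000000000000001))))))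

noncomputable def t1121_41 : Tr := (.ex (nat_lit 5) (.split (nat_lit 9) (nat_lit 2) (.split (nat_lit 7) (nat_lit 0) (.split (nat_lit 8) (nat_lit 7) (.pd (.cons (nat_lit 0) (nat_lit 6) (nat_lit 0) (nat_lit 0x2770441110) (nat_lit 0xf423ff423fb71ae00000f423f54591f423fb71ae65b9700000) (.cons (nat_lit 0) (nat_lit 7) (nat_lit 0) (nat_lit 0x2805441110) (nat_lit 0xf423ff423f00000f423fb71ae1f156f423fb71ae65b9700000) (.cons (nat_lit 0) (nat_lit 8) (nat_lit 0) (nat_lit 0x2065441110) (nat_lit 0xf423f00000f423fb71aea2c2804737f423fb71ae65b9700000) (.cons (nat_lit 1) (nat_lit 6) (nat_lit 0) (nat_lit 0x2700443200) (nat_lit 0xf423ff423fb71ae00000f423f54591f423fb71ae00000a2c28) (.cons (nat_lit 1) (nat_lit 7) (nat_lit 0) (nat_lit 0x2805443200) (nat_lit 0xf423ff423f00000f423fb71ae1f156f423fb71ae00000f423f) (.cons (nat_lit 2) (nat_lit 7) (nat_lit 0) (nat_lit 0x9805441000) (nat_lit 0xf423ff423f00000f423fb71ae1f156f423f00000b71ae1f156) .nil)))))) t1121_39) (.non (nat_lit 1) (nat_lit 4) (nat_lit 0x25001) (nat_lit 0x100020001000000000000000000000001)))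 (.non (nat_lit 1) (nat_lit 4) (nat_lit 0x2a001) (nat_lit 0x100020001000000000000000000000002))) (.split (nat_lit 9) (nat_lit 2) (.split (nat_lit 7) (nat_lit 0) (.split (nat_lit 8) (nat_lit 7) t1121_40 (.non (nat_lit 1) (nat_lit 4) (nat_lit 0x25001) (nat_lit 0x100020001000000000000000000000001))) (.non (nat_lit 1) (nat_lit 4) (nat_lit 0x2a001) (nat_lit 0x100020001000000000000000000000002))) (.sup (nat_lit 0x7000f00170020001a0000000000000000) (nat_lit 0xb000000000000000000000005000e000a0001)))) (.split (nat_lit 0xa) (nat_lit 0) (.split (nat_lit 0xa) (nat_lit 1) (.split (nat_lit 0xa) (nat_lit 2) (.split (nat_lit 0xa) (nat_lit 6) (.split (nat_lit 0xa) (nat_lit 7) (.split (nat_lit 0xa) (nat_lit 8) (.split (nat_lit 0xa) (nat_lit 3) (.split (nat_lit 0xa) (nat_lit 4) (.split (nat_lit 0xa) (nat_lit 9) (.unj (nat_lit 0x55) (nat_lit 0x1000100020002) (nat_lit 0x101500) (nat_lit 0x10000000000000001000200020000000000000000)) (.unj (nat_lit 0x55) (nat_lit 0x1000100020002) (nat_lit 0x101500) (nat_lit 0x10000000000000001000200020000000000000000)))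 (.split (nat_lit 0xa) (nat_lit 9) (.unj (nat_lit 0x100500) (nat_lit 0x10000000000000000000100010000000000000000) (nat_lit 0x55) (nat_lit 0x1000100020002)) (.unj (nat_lit 0x100500) (nat_lit 0x10000000000000000000100010000000000000000) (nat_lit 0x55) (nat_lit 0x1000100020002)))) (.split (nat_lit 0xa) (nat_lit 9) (.split (nat_lit 0xa) (nat_lit 4) (.sup (nat_lit 0x1000300050004) (nat_lit 0x10000000000000003000500040000000000000000)) (.unj (nat_lit 0x100500) (nat_lit 0x10000000000000000000100010000000000000000) (nat_lit 0x4015) (nat_lit 0x10000000000000000000100020002))) (.non (nat_lit 0) (nat_lit 4) (nat_lit 0x140054) (nat_lit 0x10001000000000000000000000001000100010000)))) (.non (nat_lit 0) (nat_lit 4) (nat_lit 0x115400) (nat_lit 0x10000000100010001000100000000000000000000))) (.non (nat_lit 0) (nat_lit 4) (nat_lit 0x105400) (nat_lit 0x10000000000010001000100000000000000000000))) (.non (nat_lit 0) (nat_lit 4) (nat_lit 0x101400) (nat_lit 0x10000000000000001000100000000000000000000))) (.non (nat_lit 0)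 (nat_lit 4) (nat_lit 0x155454) (nat_lit 0x50003000100020003000400000002000600040000))) (.star (nat_lit 0xa) (nat_lit 1) (nat_lit 5))) (.star (nat_lit 0xa) (nat_lit 0) (nat_lit 5))))

noncomputable def t1121_42 : Tr := (.split (nat_lit 0xa) (nat_lit 6) (.split (nat_lit 0xa) (nat_lit 7) (.split (nat_lit 0xa) (nat_lit 2) (.split (nat_lit 0xa) (nat_lit 3) (.split (nat_lit 0xa) (nat_lit 5) (.split (nat_lit 0xa) (nat_lit 8) (.split (nat_lit 0xa) (nat_lit 9) (.unj (nat_lit 0x55) (nat_lit 0x1000100020002) (nat_lit 0x101500) (nat_lit 0x10000000000000001000200020000000000000000)) (.unj (nat_lit 0x55) (nat_lit 0x1000100020002) (nat_lit 0x101500) (nat_lit 0x10000000000000001000200020000000000000000))) (.split (nat_lit 0xa) (nat_lit 9) (.unj (nat_lit 0x55) (nat_lit 0x1000100020002) (nat_lit 0x101500) (nat_lit 0x10000000000000001000200020000000000000000)) (.non (nat_lit 0) (nat_lit 5) (nat_lit 0x155114) (nat_lit 0x40003000300020001000000020000000200010000)))) (.split (nat_lit 0xa) (nat_lit 8) (.split (nat_lit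 0xa) (nat_lit 9) (.unj (nat_lit 0x100500) (nat_lit 0x10000000000000000000100010000000000000000) (nat_lit 0x55) (nat_lit 0x1000100020002)) (.unj (nat_lit 0x100500) (nat_lit 0x10000000000000000000100010000000000000000) (nat_lit 0x55) (nat_lit 0x1000100020002))) (.non (nat_lit 0) (nat_lit 4) (nat_lit 0x115400) (nat_lit 0x10000000100010001000100000000000000000000)))) (.split (nat_lit 0xa) (nat_lit 8) (.split (nat_lit 0xa) (nat_lit 9) (.split (nat_lit 0xa) (nat_lit 5) (.sup (nat_lit 0x20005000a0008) (nat_lit 0x20000000000000005000a00090000000000000000)) (.unj (nat_lit 0x100500) (nat_lit 0x10000000000000000000100010000000000000000) (nat_lit 0x4015) (nat_lit 0x10000000000000000000100020002))) (.non (nat_lit 0) (nat_lit 4) (nat_lit 0x140054) (nat_lit 0x10001000000000000000000000001000100010000))) (.non (nat_lit 0) (nat_lit 5) (nat_lit 0x115154) (nat_lit 0x40000000300020001000000020003000100020000)))) (.split (nat_lit 0xa) (nat_lit 3) (.split (nat_lit 0xa) (nat_lit 5) (.split (nat_lit 0xa) (nat_lit 8) (.split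 (nat_lit 0xa) (nat_lit 9) (.sup (nat_lit 0x50002000a0008) (nat_lit 0x20000000000000005000a00090000000000000000)) (.non (nat_lit 0) (nat_lit 4) (nat_lit 0x140010) (nat_lit 0x10001000000000000000000000000000100000000))) (.non (nat_lit 0) (nat_lit 4) (nat_lit 0x155454) (nat_lit 0x50003000400030002000100000002000600040000))) (.non (nat_lit 0) (nat_lit 4) (nat_lit 0x155454) (nat_lit 0x50003000100020003000400000002000600040000))) (.non (nat_lit 0) (nat_lit 4) (nat_lit 0x100054) (nat_lit 0x10000000000000000000000000001000100010000)))) (.non (nat_lit 1) (nat_lit 4) (nat_lit 0x115001) (nat_lit 0x10000000100020001000000000000000000000001))) (.non (nat_lit 1) (nat_lit 4) (nat_lit 0x115401) (nat_lit 0x10000000100020002000100000000000000000001)))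

noncomputable def t1121_43 : Tr := (.split (nat_lit 0xb) (nat_lit 9) (.split (nat_lit 0xb) (nat_lit 0xa) (.st (nat_lit 8) (nat_lit 1) (nat_lit 4) (nat_lit 0x415001) (nat_lit 0x100000000000200020001000000000000000000000001) (nat_lit 1) (nat_lit 1) (.split (nat_lit 0xb) (nat_lit 8) (.ex (nat_lit 0xb) (.leaf (.cons (nat_lit 0x5501) (nat_lit 0x20003000400030000000000000001) (.cons (nat_lit 0x414005) (nat_lit 0x100000000000200030000000000000000000000030004) .nil)) (.cons (nat_lit 0x100111100001) (nat_lit 0x10010) (nat_lit 0xc) (nat_lit 0x500402300001) .nil)) (.split (nat_lit 0xc) (nat_lit 0) (.split (nat_lit 0xc) (nat_lit 1) (.split (nat_lit 0xc) (nat_lit 2) (.split (nat_lit 0xc) (nat_lit 3) (.split (nat_lit 0xc) (nat_lit 4) (.split (nat_lit 0xc) (nat_lit 5) (.split (nat_lit 0xc) (nat_lit 6) (.split (nat_lit 0xc) (nat_lit 7) (.split (nat_lit 0xc) (nat_lit 8) (.split (nat_lit 0xc) (nat_lit 9) (.split (nat_lit 0xc) (nat_lit 0xa) (.sup (nat_lit 0x30006000000000009000c00160020001a0000000000000000) (nat_lit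 0x5000500000000000000000000000b000b00100007)) (.non (nat_lit 1) (nat_lit 4) (nat_lit 0x1515441) (nat_lit 0x3000400020000000500060004000200000001000000000003))) (.non (nat_lit 1) (nat_lit 4) (nat_lit 0x1455411) (nat_lit 0x3000400000002000500060004000200000000000100000003))) (.non (nat_lit 0) (nat_lit 4) (nat_lit 0x1410000) (nat_lit 0x1000100000000000100000000000000000000000000000000))) (.non (nat_lit 0) (nat_lit 4) (nat_lit 0x1414000) (nat_lit 0x1000100000000000100010000000000000000000000000000))) (.non (nat_lit 0) (nat_lit 4) (nat_lit 0x1415000) (nat_lit 0x1000100000000000100010001000000000000000000000000))) (.non (nat_lit 0) (nat_lit 4) (nat_lit 0x1415400) (nat_lit 0x1000100000000000100010001000100000000000000000000))) (.non (nat_lit 0) (nat_lit 6) (nat_lit 0x1410500) (nat_lit 0x3000200000000000100000000000300040000000000000000))) (.non (nat_lit 0) (nat_lit 4) (nat_lit 0x1550054) (nat_lit 0x3000200020001000100000000000000000004000200030000))) (.non (nat_lit 0) (nat_lit 4) (nat_lit 0x1550054) (nat_lit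 0x3000200010002000100000000000000000002000400030000))) (.non (nat_lit 0) (nat_lit 4) (nat_lit 0x1540054) (nat_lit 0x2000100010001000000000000000000000002000200030000))) (.non (nat_lit 1) (nat_lit 4) (nat_lit 0x1414001) (nat_lit 0x1000100000000000100010000000000000000000000000001)))) (.non (nat_lit 1) (nat_lit 4) (nat_lit 0x815001) (nat_lit 0x100000000000200020001000000000000000000000001)))) (.non (nat_lit 2) (nat_lit 7) (nat_lit 0x500045) (nat_lit 0x100020000000000000000000000000003000000040003))) (.non (nat_lit 3) (nat_lit 7) (nat_lit 0x440015) (nat_lit 0x100000002000000000000000000000000000300040003)))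

noncomputable def t1121_44 : Tr := (.split (nat_lit 0xb) (nat_lit 8) (.split (nat_lit 0xb) (nat_lit 0xa) (.ex (nat_lit 8) (.leaf (.cons (nat_lit 0x5501) (nat_lit 0x20003000400030000000000000001) (.cons (nat_lit 0x15005) (nat_lit 0x100020001000000000000000000020002) (.cons (nat_lit 0x500045) (nat_lit 0x100020000000000000000000000000003000000040003) (.cons (nat_lit 0x4015) (nat_lit 0x10000000000000000000100020002) .nil)))) (.cons (nat_lit 0x111100001) (nat_lit 0x10010) (nat_lit 8) (nat_lit 0x203400001) (.cons (nat_lit 0x111000001) (nat_lit 0x100010) (nat_lit 7) (nat_lit 0x302000001) .nil))) (.split (nat_lit 0xc) (nat_lit 0) (.split (nat_lit 0xc) (nat_lit 1) (.split (nat_lit 0xc) (nat_lit 2) (.split (nat_lit 0xc) (nat_lit 3) (.split (nat_lit 0xc) (nat_lit 4) (.split (nat_lit 0xc) (nat_lit 5) (.split (nat_lit 0xc) (nat_lit 6) (.split (nat_lit 0xc) (nat_lit 7) (.split (nat_lit 0xc) (nat_lit 9) (.split (nat_lit 0xc) (nat_lit 0xa) (.split (nat_lit 0xc) (nat_lit 0xb) (.sup (nat_lit 0x200000000000000040006000b0010000d0000000000000000)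 (nat_lit 0x200040002000000000000000000000005000500070003)) (.non (nat_lit 1) (nat_lit 4) (nat_lit 0x1515441) (nat_lit 0x4000300020000000500060004000200000001000000000003))) (.non (nat_lit 0) (nat_lit 4) (nat_lit 0x1515444) (nat_lit 0x5000300060000000400030002000100000004000000020000))) (.non (nat_lit 3) (nat_lit 7) (nat_lit 0x1040015) (nat_lit 0x1000000000002000000000000000000000000000300040003))) (.non (nat_lit 0) (nat_lit 4) (nat_lit 0x1014000) (nat_lit 0x1000000000000000100010000000000000000000000000000))) (.non (nat_lit 0) (nat_lit 4) (nat_lit 0x1015000) (nat_lit 0x1000000000000000100010001000000000000000000000000))) (.non (nat_lit 0) (nat_lit 4) (nat_lit 0x1015400) (nat_lit 0x1000000000000000100010001000100000000000000000000))) (.non (nat_lit 0) (nat_lit 6) (nat_lit 0x1014500) (nat_lit 0x3000000000000000200010000000300040000000000000000))) (.non (nat_lit 0) (nat_lit 4) (nat_lit 0x1515444) (nat_lit 0x5000200040000000400030002000100000006000000030000))) (.non (nat_lit 0) (nat_lit 4) (nat_lit 0x1154054)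 (nat_lit 0x3000000010002000200010000000000000002000400030000))) (.non (nat_lit 0) (nat_lit 4) (nat_lit 0x1150054) (nat_lit 0x2000000010001000100000000000000000002000200030000))) (.non (nat_lit 1) (nat_lit 4) (nat_lit 0x1014001) (nat_lit 0x1000000000000000100010000000000000000000000000001)))) (.sup (nat_lit 0x30007000b0010000d0000000000000000) (nat_lit 0x400060002000000000000000000000006000400060001))) (.st (nat_lit 8) (nat_lit 0) (nat_lit 4) (nat_lit 0x515440) (nat_lit 0x300020000000400030002000100000001000000000000) (nat_lit 1) (nat_lit 2) (.st (nat_lit 0xa) (nat_lit 0) (nat_lit 4) (nat_lit 0x515444) (nat_lit 0x500060000000400030002000100000004000000020000) (nat_lit 1) (nat_lit 3) (.st (nat_lit 0xb) (nat_lit 0) (nat_lit 4) (nat_lit 0x515044) (nat_lit 0x400030000000300020001000000000002000000010000) (nat_lit 1) (nat_lit 2) (.split (nat_lit 0xb) (nat_lit 8) (.split (nat_lit 0xb) (nat_lit 0xa) (.leaf (.cons (nat_lit 0x5501) (nat_lit 0x20003000400030000000000000001) (.cons (nat_lit 0x414005) (nat_lit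 0x100000000000200030000000000000000000000030004) (.cons (nat_lit 0x500045) (nat_lit 0x100020000000000000000000000000003000000040003) .nil))) (.cons (nat_lit 0x110111101001) (nat_lit 0x10010) (nat_lit 0xe) (nat_lit 0x560402307001) (.cons (nat_lit 0x110110001001) (nat_lit 0x1000010) (nat_lit 4) (nat_lit 0x340210005000) .nil))) (.non (nat_lit 0) (nat_lit 4) (nat_lit 0x928040) (nat_lit 0x300040000000200010000000000000002000000000000))) (.non (nat_lit 0) (nat_lit 4) (nat_lit 0xa15000) (nat_lit 0x200010000000300020001000000000000000000000000)))))))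

noncomputable def t1121_45 : Tr := (.ex (nat_lit 0xa) (.pd (.cons (nat_lit 2) (nat_lit 7) (nat_lit 0) (nat_lit 0x39805441000) (nat_lit 0xf423ff423ff423f00000f423fb71ae1f156b71ae00000a2c2804737) .nil) (.ex (nat_lit 8) (.leaf (.cons (nat_lit 0x5501) (nat_lit 0x20003000400030000000000000001) (.cons (nat_lit 0x15005) (nat_lit 0x100020001000000000000000000020002) (.cons (nat_lit 0x4045) (nat_lit 0x10000000000000001000000020002) (.cons (nat_lit 0x4015) (nat_lit 0x10000000000000000000100020002) .nil)))) (.cons (nat_lit 0x111100001) (nat_lit 0x10010) (nat_lit 8) (nat_lit 0x203400001) (.cons (nat_lit 0x111000001) (nat_lit 0x100010) (nat_lit 7) (nat_lit 0x302000001) .nil))) (.split (nat_lit 0xb) (nat_lit 0) (.split (nat_lit 0xb) (nat_lit 1) (.split (nat_lit 0xb) (nat_lit 2) (.split (nat_lit 0xb) (nat_lit 3) (.split (nat_lit 0xb) (nat_lit 4) (.split (nat_lit 0xb) (nat_lit 5) (.split (nat_lit 0xb) (nat_lit 6) (.split (nat_lit 0xb) (nat_lit 7) t1121_43 (.non (nat_lit 0) (nat_lit 4) (nat_lit 0x414000) (nat_lit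 0x100000000000100010000000000000000000000000000))) (.non (nat_lit 0) (nat_lit 4) (nat_lit 0x415000) (nat_lit 0x100000000000100010001000000000000000000000000))) (.non (nat_lit 0) (nat_lit 4) (nat_lit 0x415400) (nat_lit 0x100000000000100010001000100000000000000000000))) (.non (nat_lit 0) (nat_lit 6) (nat_lit 0x414500) (nat_lit 0x300000000000200010000000300040000000000000000))) (.non (nat_lit 0) (nat_lit 4) (nat_lit 0x554054) (nat_lit 0x300020001000200010000000000000004000200030000))) (.non (nat_lit 0) (nat_lit 4) (nat_lit 0x554054) (nat_lit 0x300010002000200010000000000000002000400030000))) (.non (nat_lit 0) (nat_lit 4) (nat_lit 0x550054) (nat_lit 0x200010001000100000000000000000002000200030000))) (.non (nat_lit 1) (nat_lit 4) (nat_lit 0x414001) (nat_lit 0x100000000000100010000000000000000000000000001))))) (.split (nat_lit 0xb) (nat_lit 0) (.split (nat_lit 0xb) (nat_lit 1) (.split (nat_lit 0xb) (nat_lit 2) (.split (nat_lit 0xb) (nat_lit 3) (.split (nat_lit 0xb) (nat_lit 4) (.split (nat_lit 0xb) (nat_lit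 5) (.split (nat_lit 0xb) (nat_lit 6) (.split (nat_lit 0xb) (nat_lit 7) (.split (nat_lit 0xb) (nat_lit 9) t1121_44 (.non (nat_lit 0) (nat_lit 4) (nat_lit 0x540054) (nat_lit 0x100010001000000000000000000000001000100010000))) (.non (nat_lit 0) (nat_lit 4) (nat_lit 0x515454) (nat_lit 0x500040000000300060004000200000003000100020000))) (.non (nat_lit 0) (nat_lit 4) (nat_lit 0x515454) (nat_lit 0x500040000000200040006000300000003000100020000))) (.non (nat_lit 0) (nat_lit 6) (nat_lit 0x500540) (nat_lit 0x300020000000000000000000400030001000000000000))) (.non (nat_lit 0) (nat_lit 6) (nat_lit 0x500540) (nat_lit 0x300020000000000000000000300040001000000000000))) (.non (nat_lit 0) (nat_lit 4) (nat_lit 0x500040) (nat_lit 0x100010000000000000000000000000001000000000000))) (.non (nat_lit 0) (nat_lit 4) (nat_lit 0x500054) (nat_lit 0x100010000000000000000000000000001000100010000))) (.non (nat_lit 0) (nat_lit 4) (nat_lit 0x500044) (nat_lit 0x100010000000000000000000000000001000000010000))) (.non (nat_lit 3) (nat_lit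 7) (nat_lit 0x400015) (nat_lit 0x100000000000000000000000000000000000100020002))))

noncomputable def t1121_46 : Tr := (.pd (.cons (nat_lit 2) (nat_lit 7) (nat_lit 0x101000000000) (nat_lit 0x93b805441000) (nat_lit 0x1f423f00001f423f00000f423fb71ae1f156b71ae00000a2c2804737) .nil) (.split (nat_lit 0xb) (nat_lit 9) (.ex (nat_lit 8) (.leaf (.cons (nat_lit 0x5501) (nat_lit 0x20003000400030000000000000001) (.cons (nat_lit 0x15005) (nat_lit 0x100020001000000000000000000020002) (.cons (nat_lit 0x4045) (nat_lit 0x10000000000000001000000020002) (.cons (nat_lit 0x440015) (nat_lit 0x100000002000000000000000000000000000300040003) .nil)))) (.cons (nat_lit 0x111100001) (nat_lit 0x10010) (nat_lit 8) (nat_lit 0x203400001) (.cons (nat_lit 0x111000001) (nat_lit 0x100010) (nat_lit 7) (nat_lit 0x302000001) .nil))) (.split (nat_lit 0xc) (nat_lit 0) (.split (nat_lit 0xc) (nat_lit 1) (.split (nat_lit 0xc) (nat_lit 2) (.split (nat_lit 0xc) (nat_lit 3) (.split (nat_lit 0xc) (nat_lit 4) (.split (nat_lit 0xc) (nat_lit 5) (.split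 (nat_lit 0xc) (nat_lit 6) (.split (nat_lit 0xc) (nat_lit 7) (.split (nat_lit 0xc) (nat_lit 9) (.split (nat_lit 0xc) (nat_lit 0xa) (.split (nat_lit 0xc) (nat_lit 0xb) (.sup (nat_lit 0x200000000000000040006000b0010000d0000000000000000) (nat_lit 0x200020004000000000000000000000005000500070003)) (.non (nat_lit 1) (nat_lit 4) (nat_lit 0x1455411) (nat_lit 0x4000300000002000500060004000200000000000100000003))) (.non (nat_lit 2) (nat_lit 7) (nat_lit 0x1100045) (nat_lit 0x1000000020000000000000000000000000003000000040003))) (.non (nat_lit 0) (nat_lit 4) (nat_lit 0x1455414) (nat_lit 0x5000300000006000400030002000100000000000400020000))) (.non (nat_lit 0) (nat_lit 4) (nat_lit 0x1014000) (nat_lit 0x1000000000000000100010000000000000000000000000000))) (.non (nat_lit 0) (nat_lit 4) (nat_lit 0x1015000) (nat_lit 0x1000000000000000100010001000000000000000000000000))) (.non (nat_lit 0) (nat_lit 4) (nat_lit 0x1015400) (nat_lit 0x1000000000000000100010001000100000000000000000000))) (.non (nat_lit 0) (nat_lit 6) (nat_lit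 0x1014500) (nat_lit 0x3000000000000000200010000000300040000000000000000))) (.non (nat_lit 0) (nat_lit 4) (nat_lit 0x1154054) (nat_lit 0x3000000020001000200010000000000000004000200030000))) (.non (nat_lit 0) (nat_lit 4) (nat_lit 0x1455414) (nat_lit 0x5000200000004000400030002000100000000000600030000))) (.non (nat_lit 0) (nat_lit 4) (nat_lit 0x1150054) (nat_lit 0x2000000010001000100000000000000000002000200030000))) (.non (nat_lit 1) (nat_lit 4) (nat_lit 0x1014001) (nat_lit 0x1000000000000000100010000000000000000000000000001)))) (.sup (nat_lit 0x30007000b0010000d0000000000000000) (nat_lit 0x400020006000000000000000000000004000600060001))))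

noncomputable def t1121_47 : Tr := (.split (nat_lit 0xb) (nat_lit 9) (.ex (nat_lit 8) (.leaf (.cons (nat_lit 0x5501) (nat_lit 0x20003000400030000000000000001) (.cons (nat_lit 0x15005) (nat_lit 0x100020001000000000000000000020002) (.cons (nat_lit 0x1100045) (nat_lit 0x1000000020000000000000000000000000003000000040003) (.cons (nat_lit 0x440015) (nat_lit 0x100000002000000000000000000000000000300040003) .nil)))) (.cons (nat_lit 0x111100001) (nat_lit 0x10010) (nat_lit 8) (nat_lit 0x203400001) (.cons (nat_lit 0x111000001) (nat_lit 0x100010) (nat_lit 7) (nat_lit 0x302000001) .nil))) (.split (nat_lit 0xd) (nat_lit 0) (.split (nat_lit 0xd) (nat_lit 1) (.split (nat_lit 0xd) (nat_lit 2) (.split (nat_lit 0xd) (nat_lit 3) (.split (nat_lit 0xd) (nat_lit 4) (.split (nat_lit 0xd) (nat_lit 5) (.split (nat_lit 0xd) (nat_lit 6) (.split (nat_lit 0xd) (nat_lit 7) (.split (nat_lit 0xd) (nat_lit 9) (.split (nat_lit 0xd) (nat_lit 0xa) (.split (nat_lit 0xd) (nat_lit 0xb) (.split (nat_lit 0xd) (nat_lit 0xc) (.sup (nat_lit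 0x2000000000000000000040007000b0010000d0000000000000000) (nat_lit 0x2000200030003000000000000000000000005000500070002)) (.non (nat_lit 1) (nat_lit 4) (nat_lit 0x5115441) (nat_lit 0x40003000000020000000500060004000200000001000000000003))) (.non (nat_lit 1) (nat_lit 4) (nat_lit 0x4455411) (nat_lit 0x40000000300000002000500060004000200000000000100000003))) (.non (nat_lit 0) (nat_lit 4) (nat_lit 0x5115444) (nat_lit 0x50003000000060000000400030002000100000004000000020000))) (.non (nat_lit 0) (nat_lit 4) (nat_lit 0x4455414) (nat_lit 0x50000000300000006000400030002000100000000000400020000))) (.non (nat_lit 0) (nat_lit 4) (nat_lit 0x4014000) (nat_lit 0x10000000000000000000100010000000000000000000000000000))) (.non (nat_lit 0) (nat_lit 4) (nat_lit 0x4015000) (nat_lit 0x10000000000000000000100010001000000000000000000000000))) (.non (nat_lit 0) (nat_lit 4) (nat_lit 0x4015400) (nat_lit 0x10000000000000000000100010001000100000000000000000000))) (.non (nat_lit 0) (nat_lit 6) (nat_lit 0x4014500) (nat_lit 0x30000000000000000000200010000000300040000000000000000)))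 (.non (nat_lit 0) (nat_lit 4) (nat_lit 0x5115444) (nat_lit 0x50002000000040000000400030002000100000006000000030000))) (.non (nat_lit 0) (nat_lit 4) (nat_lit 0x4455414) (nat_lit 0x50000000200000004000400030002000100000000000600030000))) (.non (nat_lit 0) (nat_lit 4) (nat_lit 0x5540054) (nat_lit 0x20001000100020002000000000000000000000003000300040000))) (.non (nat_lit 1) (nat_lit 4) (nat_lit 0x4014001) (nat_lit 0x10000000000000000000100010000000000000000000000000001)))) (.sup (nat_lit 0x30007000b0010000d0000000000000000) (nat_lit 0x1000400030005000000000000000000000004000500050001)))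

noncomputable def t1121_48 : Tr := (.split (nat_lit 0xc) (nat_lit 5) (.split (nat_lit 0xc) (nat_lit 6) (.split (nat_lit 0xc) (nat_lit 7) (.split (nat_lit 0xc) (nat_lit 9) (.split (nat_lit 0xc) (nat_lit 0xb) (.split (nat_lit 0xc) (nat_lit 0) (.split (nat_lit 0xc) (nat_lit 8) (.split (nat_lit 0xc) (nat_lit 0xa) t1121_47 (.sup (nat_lit 0x30007000b0010000d0000000000000000) (nat_lit 0x4000100050003000000000000000000000005000400050001))) (.st (nat_lit 8) (nat_lit 0) (nat_lit 4) (nat_lit 0x1115440) (nat_lit 0x3000000020000000400030002000100000001000000000000) (nat_lit 1) (nat_lit 2) (.st (nat_lit 0xa) (nat_lit 0) (nat_lit 4) (nat_lit 0x1115444) (nat_lit 0x5000000060000000400030002000100000004000000020000) (nat_lit 1) (nat_lit 3) (.st (nat_lit 0xc) (nat_lit 0) (nat_lit 4) (nat_lit 0x1115044) (nat_lit 0x4000000030000000300020001000000000002000000010000) (nat_lit 1) (nat_lit 2) (.split (nat_lit 0xc) (nat_lit 8) (.split (nat_lit 0xc) (nat_lit 0xa) (.leaf (.cons (nat_lit 0x5501) (nat_lit 0x20003000400030000000000000001)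 (.cons (nat_lit 0x1014005) (nat_lit 0x1000000000000000200030000000000000000000000030004) (.cons (nat_lit 0x1100045) (nat_lit 0x1000000020000000000000000000000000003000000040003) (.cons (nat_lit 0x440015) (nat_lit 0x100000002000000000000000000000000000300040003) .nil)))) (.cons (nat_lit 0x1010111101001) (nat_lit 0x10010) (nat_lit 0xe) (nat_lit 0x5060402307001) (.cons (nat_lit 0x1010110001001) (nat_lit 0x1000010) (nat_lit 4) (nat_lit 0x3040210005000) .nil))) (.non (nat_lit 0) (nat_lit 4) (nat_lit 0x2128040) (nat_lit 0x3000000040000000200010000000000000002000000000000))) (.non (nat_lit 0) (nat_lit 4) (nat_lit 0x2215000) (nat_lit 0x2000000010000000300020001000000000000000000000000))))))) (.split (nat_lit 0xc) (nat_lit 8) (.sup (nat_lit 0x30007000b0010000d0000000000000000) (nat_lit 0x2000100030002000000000000000000000004000300040001)) (.non (nat_lit 1) (nat_lit 4) (nat_lit 0x1014001) (nat_lit 0x1000000000000000100010000000000000000000000000001)))) (.non (nat_lit 0) (nat_lit 4) (nat_lit 0x1540054) (nat_lit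 0x1000100010001000000000000000000000001000100010000))) (.non (nat_lit 0) (nat_lit 4) (nat_lit 0x1140054) (nat_lit 0x1000000010001000000000000000000000001000100010000))) (.non (nat_lit 0) (nat_lit 4) (nat_lit 0x1115454) (nat_lit 0x5000000040000000300060004000200000003000100020000))) (.non (nat_lit 0) (nat_lit 4) (nat_lit 0x1115454) (nat_lit 0x5000000040000000200040006000300000003000100020000))) (.non (nat_lit 0) (nat_lit 6) (nat_lit 0x1100540) (nat_lit 0x3000000020000000000000000000400030001000000000000)))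

noncomputable def t1121_49 : Tr := (.split (nat_lit 0xc) (nat_lit 0) (.split (nat_lit 0xc) (nat_lit 1) (.split (nat_lit 0xc) (nat_lit 2) (.split (nat_lit 0xc) (nat_lit 3) (.split (nat_lit 0xc) (nat_lit 4) (.split (nat_lit 0xc) (nat_lit 5) (.split (nat_lit 0xc) (nat_lit 6) (.split (nat_lit 0xc) (nat_lit 7) (.split (nat_lit 0xc) (nat_lit 8) (.split (nat_lit 0xc) (nat_lit 9) (.split (nat_lit 0xc) (nat_lit 0xb) (.split (nat_lit 0xc) (nat_lit 0xa) (.split (nat_lit 0xb) (nat_lit 8) (.split (nat_lit 0xb) (nat_lit 9) (.leaf (.cons (nat_lit 0x5501) (nat_lit 0x20003000400030000000000000001) (.cons (nat_lit 0x414005) (nat_lit 0x100000000000200030000000000000000000000030004) (.cons (nat_lit 0x1100045) (nat_lit 0x1000000020000000000000000000000000003000000040003) (.cons (nat_lit 0x440015) (nat_lit 0x100000002000000000000000000000000000300040003) .nil)))) (.cons (nat_lit 0x101111100101) (nat_lit 0x10010) (nat_lit 0xe) (nat_lit 0x506402300701) (.cons (nat_lit 0x101110000101) (nat_lit 0x1000010) (nat_lit 4) (nat_lit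 0x304210000500) .nil))) (.non (nat_lit 0) (nat_lit 4) (nat_lit 0x868010) (nat_lit 0x300000004000200010000000000000000000200000000))) (.non (nat_lit 0) (nat_lit 4) (nat_lit 0x895000) (nat_lit 0x200000001000300020001000000000000000000000000))) (.sup (nat_lit 0x10000000000040007000b0010000d0000000000000000) (nat_lit 0x4000000060001000000000000000000000006000400060002))) (.non (nat_lit 0) (nat_lit 4) (nat_lit 0x1555040) (nat_lit 0x3000400020002000300020001000000000001000000000000))) (.non (nat_lit 0) (nat_lit 4) (nat_lit 0x1555410) (nat_lit 0x4000500020006000400030002000100000000000300000000))) (.non (nat_lit 0) (nat_lit 4) (nat_lit 0x1555000) (nat_lit 0x2000200010001000300020001000000000000000000000000))) (.non (nat_lit 0) (nat_lit 4) (nat_lit 0x1515400) (nat_lit 0x2000100010000000200030002000100000000000000000000))) (.non (nat_lit 0) (nat_lit 4) (nat_lit 0x1515440) (nat_lit 0x3000100020000000200030004000200000001000000000000))) (.non (nat_lit 0) (nat_lit 4) (nat_lit 0x1555454) (nat_lit 0x1000100010001000100010001000100000001000100010000)))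 (.non (nat_lit 0) (nat_lit 6) (nat_lit 0x1100540) (nat_lit 0x3000000020000000000000000000300040001000000000000))) (.non (nat_lit 0) (nat_lit 4) (nat_lit 0x1100040) (nat_lit 0x1000000010000000000000000000000000001000000000000))) (.non (nat_lit 0) (nat_lit 4) (nat_lit 0x1555014) (nat_lit 0x4000400020005000300020001000000000000000600030000))) (.non (nat_lit 0) (nat_lit 4) (nat_lit 0x1100044) (nat_lit 0x1000000010000000000000000000000000001000000010000))) (.non (nat_lit 1) (nat_lit 4) (nat_lit 0x1555001) (nat_lit 0x2000200010001000300040002000000000000000000000003)))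

noncomputable def t1121_50 : Tr := (.split (nat_lit 0xb) (nat_lit 7) (.split (nat_lit 0xb) (nat_lit 0xa) (.split (nat_lit 0xb) (nat_lit 0) (.split (nat_lit 0xb) (nat_lit 8) (.ex (nat_lit 0xa) t1121_46 (.split (nat_lit 0xc) (nat_lit 1) (.split (nat_lit 0xc) (nat_lit 2) (.split (nat_lit 0xc) (nat_lit 3) (.split (nat_lit 0xc) (nat_lit 4) t1121_48 (.non (nat_lit 0) (nat_lit 6) (nat_lit 0x1100540) (nat_lit 0x3000000020000000000000000000300040001000000000000))) (.non (nat_lit 0) (nat_lit 4) (nat_lit 0x1100040) (nat_lit 0x1000000010000000000000000000000000001000000000000))) (.non (nat_lit 0) (nat_lit 4) (nat_lit 0x1100054) (nat_lit 0x1000000010000000000000000000000000001000100010000))) (.non (nat_lit 0) (nat_lit 4) (nat_lit 0x1100044) (nat_lit 0x1000000010000000000000000000000000001000000010000)))) (.st (nat_lit 8) (nat_lit 0) (nat_lit 4) (nat_lit 0x455410) (nat_lit 0x300000002000400030002000100000000000100000000) (nat_lit 1) (nat_lit 2) (.st (nat_lit 9) (nat_lit 0) (nat_lit 4) (nat_lit 0x455414) (nat_lit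 0x500000006000400030002000100000000000400020000) (nat_lit 1) (nat_lit 3) (.st (nat_lit 0xb) (nat_lit 0) (nat_lit 4) (nat_lit 0x455014) (nat_lit 0x400000003000300020001000000000000000200010000) (nat_lit 1) (nat_lit 2) (.ex (nat_lit 0xa) (.split (nat_lit 0xb) (nat_lit 8) (.split (nat_lit 0xb) (nat_lit 9) (.pd (.cons (nat_lit 2) (nat_lit 7) (nat_lit 0) (nat_lit 0x83b805441000) (nat_lit 0xb71aef423ff423fa2c2800000f423fb71ae1f156b71ae00000a2c2804737) .nil) (.leaf (.cons (nat_lit 0x5501) (nat_lit 0x20003000400030000000000000001) (.cons (nat_lit 0x414005) (nat_lit 0x100000000000200030000000000000000000000030004) (.cons (nat_lit 0x440015) (nat_lit 0x100000002000000000000000000000000000300040003) .nil))) (.cons (nat_lit 0x101111100101) (nat_lit 0x10010) (nat_lit 0xe) (nat_lit 0x506402300701) (.cons (nat_lit 0x101110000101) (nat_lit 0x1000010) (nat_lit 4) (nat_lit 0x304210000500) .nil)))) (.non (nat_lit 0) (nat_lit 4) (nat_lit 0x868010) (nat_lit 0x300000004000200010000000000000000000200000000))) (.non (nat_lit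 0) (nat_lit 4) (nat_lit 0x895000) (nat_lit 0x200000001000300020001000000000000000000000000))) t1121_49))))) (.split (nat_lit 0xb) (nat_lit 8) (.sup (nat_lit 0x6000d00160020001a0000000000000000) (nat_lit 0x400030006000000000000000000000006000700090003)) (.non (nat_lit 1) (nat_lit 4) (nat_lit 0x414001) (nat_lit 0x100000000000100010000000000000000000000000001)))) (.non (nat_lit 0) (nat_lit 4) (nat_lit 0x540054) (nat_lit 0x100010001000000000000000000000001000100010000))) (.non (nat_lit 0) (nat_lit 4) (nat_lit 0x455454) (nat_lit 0x500000004000300060004000200000001000300020000)))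

noncomputable def t1121_51 : Tr := (.split (nat_lit 0xa) (nat_lit 3) (.split (nat_lit 7) (nat_lit 0) (.split (nat_lit 8) (nat_lit 7) (.pd (.cons (nat_lit 0) (nat_lit 6) (nat_lit 0) (nat_lit 0x32770441110) (nat_lit 0xf423ff423ff423fb71ae00000f423f54591b71aeb71ae5161100000) (.cons (nat_lit 0) (nat_lit 7) (nat_lit 0) (nat_lit 0x32805441110) (nat_lit 0xf423ff423ff423f00000f423fb71ae1f156b71aeb71ae5161100000) (.cons (nat_lit 0) (nat_lit 8) (nat_lit 0) (nat_lit 0x32065441110) (nat_lit 0xf423ff423f00000f423fb71aea2c2804737b71aeb71ae5161100000) (.cons (nat_lit 1) (nat_lit 6) (nat_lit 0) (nat_lit 0x32700443200) (nat_lit 0xf423ff423ff423fb71ae00000f423f54591b71aeb71ae00000a2c28) (.cons (nat_lit 1) (nat_lit 7) (nat_lit 0) (nat_lit 0x32805443200) (nat_lit 0xf423ff423ff423f00000f423fb71ae1f156b71aeb71ae00000f423f) .nil))))) (.ex (nat_lit 9) (.pd (.cons (nat_lit 3) (nat_lit 7) (nat_lit 0) (nat_lit 0xa2805440100) (nat_lit 0xf423ff423ff423f00000f423fb71ae1f15600000b71aea2c2804737) .nil) t1121_45) (.split (nat_lit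 0xb) (nat_lit 1) (.split (nat_lit 0xb) (nat_lit 2) (.split (nat_lit 0xb) (nat_lit 3) (.split (nat_lit 0xb) (nat_lit 4) (.split (nat_lit 0xb) (nat_lit 5) (.split (nat_lit 0xb) (nat_lit 6) t1121_50 (.non (nat_lit 0) (nat_lit 4) (nat_lit 0x455454) (nat_lit 0x500000004000200040006000300000001000300020000))) (.non (nat_lit 0) (nat_lit 6) (nat_lit 0x440510) (nat_lit 0x300000002000000000000000400030000000100000000))) (.non (nat_lit 0) (nat_lit 6) (nat_lit 0x440510) (nat_lit 0x300000002000000000000000300040000000100000000))) (.non (nat_lit 0) (nat_lit 4) (nat_lit 0x440054) (nat_lit 0x100000001000000000000000000000001000100010000))) (.non (nat_lit 0) (nat_lit 4) (nat_lit 0x440010) (nat_lit 0x100000001000000000000000000000000000100000000))) (.non (nat_lit 0) (nat_lit 4) (nat_lit 0x440014) (nat_lit 0x100000001000000000000000000000000000100010000))))) (.non (nat_lit 1) (nat_lit 4) (nat_lit 0x25001) (nat_lit 0x100020001000000000000000000000001))) (.non (nat_lit 1) (nat_lit 4) (nat_lit 0x2a001) (nat_lit 0x100020001000000000000000000000002)))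 (.split (nat_lit 0xa) (nat_lit 3) (.split (nat_lit 8) (nat_lit 7) (.split (nat_lit 7) (nat_lit 0) (.sup (nat_lit 0x30007000b0010000d0000000000000000) (nat_lit 0x40002000000000000000000000006000400060001)) (.non (nat_lit 1) (nat_lit 4) (nat_lit 0x2a001) (nat_lit 0x100020001000000000000000000000002))) (.non (nat_lit 1) (nat_lit 4) (nat_lit 0x25001) (nat_lit 0x100020001000000000000000000000001))) (.non (nat_lit 0) (nat_lit 4) (nat_lit 0x140054) (nat_lit 0x30001000000000000000000000004000200030000))))

noncomputable def t1121_52 : Tr := (.ex (nat_lit 5) (.split (nat_lit 9) (nat_lit 2) t1121_51 (.split (nat_lit 0xa) (nat_lit 3) (.split (nat_lit 9) (nat_lit 2) (.split (nat_lit 8) (nat_lit 7) (.split (nat_lit 7) (nat_lit 0) (.sup (nat_lit 0x30007000b0010000d0000000000000000) (nat_lit 0x20004000000000000000000000004000600060001)) (.non (nat_lit 1) (nat_lit 4) (nat_lit 0x2a001) (nat_lit 0x100020001000000000000000000000002))) (.non (nat_lit 1) (nat_lit 4) (nat_lit 0x25001) (nat_lit 0x100020001000000000000000000000001)))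 (.non (nat_lit 0) (nat_lit 4) (nat_lit 0x140054) (nat_lit 0x10003000000000000000000000002000400030000))) (.non (nat_lit 0) (nat_lit 4) (nat_lit 0x280054) (nat_lit 0x10001000000000000000000000002000200020000)))) (.split (nat_lit 0xb) (nat_lit 0) (.split (nat_lit 0xb) (nat_lit 1) (.split (nat_lit 0xb) (nat_lit 2) (.split (nat_lit 0xb) (nat_lit 3) (.split (nat_lit 0xb) (nat_lit 6) (.split (nat_lit 0xb) (nat_lit 7) (.split (nat_lit 0xb) (nat_lit 8) (.split (nat_lit 0xb) (nat_lit 4) (.split (nat_lit 0xb) (nat_lit 9) (.split (nat_lit 0xb) (nat_lit 0xa) (.unj (nat_lit 0x55) (nat_lit 0x1000100020002) (nat_lit 0x401500) (nat_lit 0x100000000000000000001000200020000000000000000)) (.unj (nat_lit 0x55) (nat_lit 0x1000100020002) (nat_lit 0x401500) (nat_lit 0x100000000000000000001000200020000000000000000))) (.split (nat_lit 0xb) (nat_lit 0xa) (.unj (nat_lit 0x55) (nat_lit 0x1000100020002) (nat_lit 0x401500) (nat_lit 0x100000000000000000001000200020000000000000000)) (.non (nat_lit 0) (nat_lit 4) (nat_lit 0x541450)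 (nat_lit 0x300020002000000000001000200000001000100000000)))) (.split (nat_lit 0xb) (nat_lit 9) (.split (nat_lit 0xb) (nat_lit 0xa) (.unj (nat_lit 0x400500) (nat_lit 0x100000000000000000000000100010000000000000000) (nat_lit 0x55) (nat_lit 0x1000100020002)) (.unj (nat_lit 0x400500) (nat_lit 0x100000000000000000000000100010000000000000000) (nat_lit 0x55) (nat_lit 0x1000100020002))) (.split (nat_lit 0xb) (nat_lit 0xa) (.unj (nat_lit 0x400500) (nat_lit 0x100000000000000000000000100010000000000000000) (nat_lit 0x55) (nat_lit 0x1000100020002)) (.non (nat_lit 0) (nat_lit 4) (nat_lit 0x541450) (nat_lit 0x300020002000000000001000200000001000100000000))))) (.non (nat_lit 0) (nat_lit 4) (nat_lit 0x415400) (nat_lit 0x100000000000100010001000100000000000000000000))) (.non (nat_lit 0) (nat_lit 4) (nat_lit 0x405400) (nat_lit 0x100000000000000010001000100000000000000000000))) (.non (nat_lit 0) (nat_lit 4) (nat_lit 0x401400) (nat_lit 0x100000000000000000001000100000000000000000000))) (.non (nat_lit 0) (nat_lit 4)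 (nat_lit 0x541454) (nat_lit 0x300020001000000000001000200000004000200030000))) (.non (nat_lit 0) (nat_lit 4) (nat_lit 0x541454) (nat_lit 0x300010002000000000001000200000002000400030000))) (.star (nat_lit 0xb) (nat_lit 1) (nat_lit 5))) (.star (nat_lit 0xb) (nat_lit 0) (nat_lit 5))))

noncomputable def t1121_53 : Tr := (.split (nat_lit 0xb) (nat_lit 3) (.split (nat_lit 0xb) (nat_lit 5) (.split (nat_lit 0xb) (nat_lit 8) (.split (nat_lit 0xb) (nat_lit 9) (.split (nat_lit 0xb) (nat_lit 0xa) (.unj (nat_lit 0x55) (nat_lit 0x1000100020002) (nat_lit 0x401500) (nat_lit 0x100000000000000000001000200020000000000000000)) (.unj (nat_lit 0x55) (nat_lit 0x1000100020002) (nat_lit 0x401500) (nat_lit 0x100000000000000000001000200020000000000000000))) (.split (nat_lit 0xb) (nat_lit 0xa) (.unj (nat_lit 0x55) (nat_lit 0x1000100020002) (nat_lit 0x401500) (nat_lit 0x100000000000000000001000200020000000000000000)) (.non (nat_lit 0) (nat_lit 4) (nat_lit 0x540054) (nat_lit 0x100010001000000000000000000000001000100010000))))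 (.split (nat_lit 0xb) (nat_lit 9) (.split (nat_lit 0xb) (nat_lit 0xa) (.unj (nat_lit 0x55) (nat_lit 0x1000100020002) (nat_lit 0x401500) (nat_lit 0x100000000000000000001000200020000000000000000)) (.non (nat_lit 0) (nat_lit 5) (nat_lit 0x515144) (nat_lit 0x400030000000300020001000000020002000000010000))) (.non (nat_lit 0) (nat_lit 5) (nat_lit 0x455114) (nat_lit 0x400000003000300020001000000020000000200010000)))) (.split (nat_lit 0xb) (nat_lit 8) (.split (nat_lit 0xb) (nat_lit 9) (.split (nat_lit 0xb) (nat_lit 0xa) (.unj (nat_lit 0x400500) (nat_lit 0x100000000000000000000000100010000000000000000) (nat_lit 0x55) (nat_lit 0x1000100020002)) (.unj (nat_lit 0x400500) (nat_lit 0x100000000000000000000000100010000000000000000) (nat_lit 0x55) (nat_lit 0x1000100020002))) (.split (nat_lit 0xb) (nat_lit 0xa) (.unj (nat_lit 0x400500) (nat_lit 0x100000000000000000000000100010000000000000000) (nat_lit 0x55) (nat_lit 0x1000100020002)) (.non (nat_lit 0) (nat_lit 4) (nat_lit 0x541450) (nat_lit 0x300020002000000000001000200000001000100000000))))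 (.non (nat_lit 0) (nat_lit 4) (nat_lit 0x415400) (nat_lit 0x100000000000100010001000100000000000000000000)))) (.split (nat_lit 0xb) (nat_lit 5) (.split (nat_lit 0xb) (nat_lit 8) (.split (nat_lit 0xb) (nat_lit 9) (.split (nat_lit 0xb) (nat_lit 0xa) (.sup (nat_lit 0x20005000a0008) (nat_lit 0x200000000000000000005000a00090000000000000000)) (.non (nat_lit 0) (nat_lit 4) (nat_lit 0x500040) (nat_lit 0x100010000000000000000000000000001000000000000))) (.non (nat_lit 0) (nat_lit 4) (nat_lit 0x440054) (nat_lit 0x100000001000000000000000000000001000100010000))) (.non (nat_lit 0) (nat_lit 4) (nat_lit 0x554054) (nat_lit 0x300020001000200010000000000000004000200030000))) (.non (nat_lit 0) (nat_lit 4) (nat_lit 0x541454) (nat_lit 0x300020001000000000001000200000004000200030000))))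

noncomputable def t1121_54 : Tr := (.split (nat_lit 0xb) (nat_lit 7) (.split (nat_lit 0xb) (nat_lit 8) (.split (nat_lit 0xb) (nat_lit 9) (.split (nat_lit 0xb) (nat_lit 0xa) (.split (nat_lit 0xb) (nat_lit 0) (.split (nat_lit 0xb) (nat_lit 4) (.split (nat_lit 0xb) (nat_lit 3) (.split (nat_lit 0xa) (nat_lit 3) (.split (nat_lit 9) (nat_lit 2) (.split (nat_lit 8) (nat_lit 7) (.split (nat_lit 7) (nat_lit 0) (.sup (nat_lit 0x30007000b0010000d0000000000000000) (nat_lit 0x300030002000000000000000000000006000400060001)) (.non (nat_lit 1) (nat_lit 4) (nat_lit 0x2a001) (nat_lit 0x100020001000000000000000000000002))) (.non (nat_lit 1) (nat_lit 4) (nat_lit 0x25001) (nat_lit 0x100020001000000000000000000000001))) (.non (nat_lit 0) (nat_lit 4) (nat_lit 0x580054) (nat_lit 0x100010001000000000000000000000002000200020000))) (.non (nat_lit 0) (nat_lit 4) (nat_lit 0x600044) (nat_lit 0x100010000000000000000000000000002000000010000))) (.non (nat_lit 0) (nat_lit 4) (nat_lit 0x900044) (nat_lit 0x100010000000000000000000000000002000000010000)))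 (.sup (nat_lit 0x20005000a0008) (nat_lit 0x200000000000000000005000a00090000000000000000))) (.split (nat_lit 0xb) (nat_lit 4) (.split (nat_lit 0xb) (nat_lit 0) (.split (nat_lit 0xb) (nat_lit 3) (.split (nat_lit 0xa) (nat_lit 3) (.split (nat_lit 9) (nat_lit 2) (.split (nat_lit 8) (nat_lit 7) (.split (nat_lit 7) (nat_lit 0) (.sup (nat_lit 0x40007000b0010000d0000000000000000) (nat_lit 0x200020001000000000000000000000004000200040001)) (.non (nat_lit 1) (nat_lit 4) (nat_lit 0x2a001) (nat_lit 0x100020001000000000000000000000002))) (.non (nat_lit 1) (nat_lit 4) (nat_lit 0x25001) (nat_lit 0x100020001000000000000000000000001))) (.non (nat_lit 0) (nat_lit 4) (nat_lit 0x580054) (nat_lit 0x100010001000000000000000000000002000200020000))) (.non (nat_lit 0) (nat_lit 4) (nat_lit 0x600044) (nat_lit 0x100010000000000000000000000000002000000010000))) (.non (nat_lit 0) (nat_lit 4) (nat_lit 0x900044) (nat_lit 0x100010000000000000000000000000002000000010000))) (.non (nat_lit 1) (nat_lit 4) (nat_lit 0x815001) (nat_lit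 0x100000000000100020001000000000000000000000002))) (.star (nat_lit 0xb) (nat_lit 0) (nat_lit 4)))) (.non (nat_lit 0) (nat_lit 4) (nat_lit 0x500040) (nat_lit 0x100010000000000000000000000000001000000000000))) (.non (nat_lit 0) (nat_lit 4) (nat_lit 0x440054) (nat_lit 0x100000001000000000000000000000001000100010000))) (.non (nat_lit 0) (nat_lit 4) (nat_lit 0x554054) (nat_lit 0x300020001000200010000000000000004000200030000))) (.non (nat_lit 0) (nat_lit 4) (nat_lit 0x515044) (nat_lit 0x200010000000100020001000000000002000000010000)))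

noncomputable def t1121_55 : Tr := (.ex (nat_lit 9) (.pd (.cons (nat_lit 3) (nat_lit 7) (nat_lit 0) (nat_lit 0x82805440100) (nat_lit 0xf423ff423fb71ae00000f423fb71ae1f15600000b71aea2c2804737) .nil) (.leaf (.cons (nat_lit 0x5501) (nat_lit 0x20003000400030000000000000001) (.cons (nat_lit 0x114005) (nat_lit 0x10000000200030000000000000000000000030004) (.cons (nat_lit 0x110045) (nat_lit 0x20000000100000000000000000003000000040003) .nil))) (.cons (nat_lit 0x10111101001) (nat_lit 0x10010) (nat_lit 0xd) (nat_lit 0x50402306001) (.cons (nat_lit 0x10111001001) (nat_lit 0x100010) (nat_lit 9) (nat_lit 0x40302005001) .nil)))) (.split (nat_lit 0xb) (nat_lit 0) (.split (nat_lit 0xb) (nat_lit 1) (.split (nat_lit 0xb) (nat_lit 2) (.split (nat_lit 0xb) (nat_lit 3) (.split (nat_lit 0xb) (nat_lit 4) (.split (nat_lit 0xb) (nat_lit 5) (.split (nat_lit 0xb) (nat_lit 6) (.split (nat_lit 0xb) (nat_lit 7) (.split (nat_lit 0xb) (nat_lit 8) (.split (nat_lit 0xb) (nat_lit 0xa) (.leaf (.cons (nat_lit 0x5501) (nat_lit 0x20003000400030000000000000001)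 (.cons (nat_lit 0x114005) (nat_lit 0x10000000200030000000000000000000000030004) (.cons (nat_lit 0x110045) (nat_lit 0x20000000100000000000000000003000000040003) (.cons (nat_lit 0x440015) (nat_lit 0x100000002000000000000000000000000000300040003) .nil)))) (.cons (nat_lit 0x10111101001) (nat_lit 0x10010) (nat_lit 0xd) (nat_lit 0x50402306001) (.cons (nat_lit 0x10111001001) (nat_lit 0x100010) (nat_lit 9) (nat_lit 0x40302005001) .nil))) (.non (nat_lit 0) (nat_lit 4) (nat_lit 0x555050) (nat_lit 0x300040002000300020001000000000002000100000000))) (.non (nat_lit 0) (nat_lit 4) (nat_lit 0x555040) (nat_lit 0x200020001000300020001000000000001000000000000))) (.non (nat_lit 0) (nat_lit 4) (nat_lit 0x555400) (nat_lit 0x200010001000200030002000100000000000000000000))) (.non (nat_lit 0) (nat_lit 4) (nat_lit 0x555410) (nat_lit 0x300010002000200030004000200000000000100000000))) (.non (nat_lit 0) (nat_lit 4) (nat_lit 0x555454) (nat_lit 0x100010001000100010001000100000001000100010000))) (.non (nat_lit 0) (nat_lit 6) (nat_lit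 0x440510) (nat_lit 0x300000002000000000000000300040000000100000000))) (.non (nat_lit 0) (nat_lit 4) (nat_lit 0x555444) (nat_lit 0x400050002000400030002000100000006000000030000))) (.non (nat_lit 0) (nat_lit 4) (nat_lit 0x440010) (nat_lit 0x100000001000000000000000000000000000100000000))) (.non (nat_lit 0) (nat_lit 4) (nat_lit 0x440014) (nat_lit 0x100000001000000000000000000000000000100010000))) (.non (nat_lit 1) (nat_lit 4) (nat_lit 0x515401) (nat_lit 0x100010000000200030002000100000000000000000002))))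

noncomputable def t1121_56 : Tr := (.split (nat_lit 9) (nat_lit 2) (.split (nat_lit 0xa) (nat_lit 3) (.split (nat_lit 8) (nat_lit 7) (.split (nat_lit 0xa) (nat_lit 8) (.split (nat_lit 7) (nat_lit 0) (.pd (.cons (nat_lit 0) (nat_lit 6) (nat_lit 0) (nat_lit 0x32a80441110) (nat_lit 0xa2c28f423fb71aef423f00000f423f5459198965b71ae411a600000) (.cons (nat_lit 0) (nat_lit 7) (nat_lit 0) (nat_lit 0x32a05441110) (nat_lit 0xb71aef423ff423f00000f423fb71ae1f156a2c28b71ae4734e00000) (.cons (nat_lit 0) (nat_lit 8) (nat_lit 0) (nat_lit 0x32065441110) (nat_lit 0xf423ff423f00000f423fb71aea2c2804737b71aeb71ae5161100000) (.cons (nat_lit 1) (nat_lit 6) (nat_lit 0) (nat_lit 0x8270044a200) (nat_lit 0xb71aef423fa2c289896500000f423f54591f423fb71ae00000927bd) (.cons (nat_lit 1) (nat_lit 7) (nat_lit 0) (nat_lit 0x32a05443200) (nat_lit 0xb71aef423ff423f00000f423fb71ae1f156a2c28b71ae00000f423f) .nil))))) t1121_55) (.non (nat_lit 1) (nat_lit 4) (nat_lit 0x2a001) (nat_lit 0x100020001000000000000000000000002))) (.non (nat_lit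 0) (nat_lit 4) (nat_lit 0x12a040) (nat_lit 0x40000000300020001000000000002000000000000))) (.non (nat_lit 0) (nat_lit 4) (nat_lit 0x225400) (nat_lit 0x10000000200030002000100000000000000000000))) (.non (nat_lit 0) (nat_lit 4) (nat_lit 0x228044) (nat_lit 0x30000000200010000000000000004000000020000))) (.split (nat_lit 9) (nat_lit 2) (.split (nat_lit 0xa) (nat_lit 3) (.split (nat_lit 8) (nat_lit 7) (.split (nat_lit 0xa) (nat_lit 8) (.split (nat_lit 7) (nat_lit 0) (.pd (.cons (nat_lit 0) (nat_lit 6) (nat_lit 0) (nat_lit 0x32a80441110) (nat_lit 0xa2c28f423fb71aef423f00000f423f54591989657a11e1869a00000) (.cons (nat_lit 0) (nat_lit 7) (nat_lit 0) (nat_lit 0x32a05441110) (nat_lit 0xb71aef423ff423f00000f423fb71ae1f156a2c287a11e1e84200000) (.cons (nat_lit 0) (nat_lit 8) (nat_lit 0) (nat_lit 0x32065441110) (nat_lit 0xf423ff423f00000f423fb71aea2c2804737b71ae7a11e28b0500000) (.cons (nat_lit 1) (nat_lit 6) (nat_lit 0) (nat_lit 0x8270044a200) (nat_lit 0xb71aef423fa2c289896500000f423f54591f423f7a11e00000927bd) (.cons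 (nat_lit 1) (nat_lit 7) (nat_lit 0) (nat_lit 0x32a05443200) (nat_lit 0xb71aef423ff423f00000f423fb71ae1f156a2c287a11e00000f423f) .nil))))) (.leaf (.cons (nat_lit 0x5501) (nat_lit 0x20003000400030000000000000001) (.cons (nat_lit 0x114005) (nat_lit 0x10000000200030000000000000000000000030004) (.cons (nat_lit 0x110045) (nat_lit 0x20000000100000000000000000003000000040003) (.cons (nat_lit 0x40015) (nat_lit 0x1000000000000000000000000000100010001) .nil)))) (.cons (nat_lit 0x10111101001) (nat_lit 0x10010) (nat_lit 0xd) (nat_lit 0x50402306001) (.cons (nat_lit 0x10111001001) (nat_lit 0x100010) (nat_lit 9) (nat_lit 0x40302005001) .nil)))) (.non (nat_lit 1) (nat_lit 4) (nat_lit 0x2a001) (nat_lit 0x100020001000000000000000000000002))) (.non (nat_lit 0) (nat_lit 4) (nat_lit 0x12a040) (nat_lit 0x40000000300020001000000000002000000000000))) (.non (nat_lit 0) (nat_lit 4) (nat_lit 0x225400) (nat_lit 0x10000000200030002000100000000000000000000))) (.non (nat_lit 0) (nat_lit 4) (nat_lit 0x228044) (nat_lit 0x30000000200010000000000000004000000020000)))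 (.non (nat_lit 0) (nat_lit 4) (nat_lit 0x140054) (nat_lit 0x10003000000000000000000000002000400030000))))

noncomputable def t1121_57 : Tr := (.split (nat_lit 0xa) (nat_lit 8) (.ex (nat_lit 3) (.ex (nat_lit 4) t1121_52 (.split (nat_lit 0xb) (nat_lit 0) (.split (nat_lit 0xb) (nat_lit 1) (.split (nat_lit 0xb) (nat_lit 6) (.split (nat_lit 0xb) (nat_lit 7) (.split (nat_lit 0xb) (nat_lit 2) t1121_53 (.split (nat_lit 0xb) (nat_lit 3) (.split (nat_lit 0xb) (nat_lit 5) (.split (nat_lit 0xb) (nat_lit 8) (.split (nat_lit 0xb) (nat_lit 9) (.split (nat_lit 0xb) (nat_lit 0xa) (.sup (nat_lit 0x50002000a0008) (nat_lit 0x200000000000000000005000a00090000000000000000)) (.non (nat_lit 0) (nat_lit 4) (nat_lit 0x500054) (nat_lit 0x100010000000000000000000000000001000100010000))) (.non (nat_lit 0) (nat_lit 4) (nat_lit 0x440010) (nat_lit 0x100000001000000000000000000000000000100000000))) (.non (nat_lit 0) (nat_lit 4) (nat_lit 0x554054) (nat_lit 0x300010002000200010000000000000002000400030000))) (.non (nat_lit 0) (nat_lit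 4) (nat_lit 0x541454) (nat_lit 0x300010002000000000001000200000002000400030000))) (.non (nat_lit 0) (nat_lit 4) (nat_lit 0x400054) (nat_lit 0x100000000000000000000000000000001000100010000)))) (.non (nat_lit 1) (nat_lit 4) (nat_lit 0x415001) (nat_lit 0x100000000000100020001000000000000000000000001))) (.non (nat_lit 1) (nat_lit 4) (nat_lit 0x415401) (nat_lit 0x100000000000100020002000100000000000000000001))) (.star (nat_lit 0xb) (nat_lit 1) (nat_lit 4))) (.star (nat_lit 0xb) (nat_lit 0) (nat_lit 4)))) (.split (nat_lit 0xb) (nat_lit 1) (.split (nat_lit 0xb) (nat_lit 2) (.split (nat_lit 0xb) (nat_lit 5) (.split (nat_lit 0xb) (nat_lit 6) t1121_54 (.non (nat_lit 0) (nat_lit 4) (nat_lit 0x505444) (nat_lit 0x200010000000000010002000100000002000000010000))) (.non (nat_lit 0) (nat_lit 4) (nat_lit 0x541454) (nat_lit 0x300020001000000000001000200000004000200030000))) (.non (nat_lit 0) (nat_lit 4) (nat_lit 0x400054) (nat_lit 0x100000000000000000000000000000001000100010000))) (.non (nat_lit 0) (nat_lit 4) (nat_lit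 0x400044) (nat_lit 0x100000000000000000000000000000001000000010000)))) (.st (nat_lit 5) (nat_lit 1) (nat_lit 4) (nat_lit 0x115441) (nat_lit 0x20000000300040003000200000001000000000002) (nat_lit 1) (nat_lit 1) (.st (nat_lit 3) (nat_lit 0) (nat_lit 4) (nat_lit 0x154054) (nat_lit 0x30001000200010000000000000004000200030000) (nat_lit 1) (nat_lit 2) (.st (nat_lit 8) (nat_lit 0) (nat_lit 4) (nat_lit 0x115444) (nat_lit 0x30000000400030002000100000002000000010000) (nat_lit 1) (nat_lit 2) (.st (nat_lit 0xa) (nat_lit 0) (nat_lit 4) (nat_lit 0x115054) (nat_lit 0x40000000300020001000000000003000100020000) (nat_lit 1) (nat_lit 2) (.ex (nat_lit 4) t1121_56 (.split (nat_lit 0xb) (nat_lit 0) (.split (nat_lit 0xb) (nat_lit 1) (.split (nat_lit 0xb) (nat_lit 2) (.split (nat_lit 0xb) (nat_lit 3) (.split (nat_lit 0xb) (nat_lit 5) (.split (nat_lit 0xb) (nat_lit 6) (.split (nat_lit 0xb) (nat_lit 7) (.split (nat_lit 0xb) (nat_lit 8) (.split (nat_lit 0xb) (nat_lit 0xa) (.split (nat_lit 0xb) (nat_lit 9) (.unj (nat_lit 0x55)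 (nat_lit 0x1000100020002) (nat_lit 0x401500) (nat_lit 0x100000000000000000001000200020000000000000000)) (.unj (nat_lit 0x55) (nat_lit 0x1000100020002) (nat_lit 0x401500) (nat_lit 0x100000000000000000001000200020000000000000000))) (.non (nat_lit 0) (nat_lit 4) (nat_lit 0x515054) (nat_lit 0x200040000000300020001000000000003000100020000))) (.non (nat_lit 0) (nat_lit 4) (nat_lit 0x515444) (nat_lit 0x200030000000400030002000100000002000000010000))) (.non (nat_lit 0) (nat_lit 4) (nat_lit 0x515454) (nat_lit 0x300040000000500060004000200000003000100020000))) (.non (nat_lit 1) (nat_lit 4) (nat_lit 0x415401) (nat_lit 0x100000000000100020002000100000000000000000001))) (.non (nat_lit 1) (nat_lit 4) (nat_lit 0x515441) (nat_lit 0x100020000000300040003000200000001000000000002))) (.non (nat_lit 0) (nat_lit 4) (nat_lit 0x554054) (nat_lit 0x200030001000200010000000000000004000200030000))) (.non (nat_lit 0) (nat_lit 5) (nat_lit 0x554154) (nat_lit 0x400030003000200010000000000020004000600050000))) (.star (nat_lit 0xb)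 (nat_lit 1) (nat_lit 4))) (.star (nat_lit 0xb) (nat_lit 0) (nat_lit 4)))))))))

noncomputable def t1121_58 : Tr := (.split (nat_lit 0xa) (nat_lit 6) (.split (nat_lit 0xa) (nat_lit 7) (.split (nat_lit 0xa) (nat_lit 9) (.split (nat_lit 0xa) (nat_lit 0) (.split (nat_lit 0xa) (nat_lit 4) (.split (nat_lit 0xa) (nat_lit 5) t1121_57 (.split (nat_lit 0xa) (nat_lit 8) (.sup (nat_lit 0x1000300050004) (nat_lit 0x10000000000000003000500040000000000000000)) (.non (nat_lit 0) (nat_lit 4) (nat_lit 0x115400) (nat_lit 0x10000000100010001000100000000000000000000)))) (.split (nat_lit 0xa) (nat_lit 8) (.split (nat_lit 0xa) (nat_lit 5) (.sup (nat_lit 0x20005000a0008) (nat_lit 0x20000000000000005000a00090000000000000000)) (.unj (nat_lit 0x100500) (nat_lit 0x10000000000000000000100010000000000000000) (nat_lit 0x4015) (nat_lit 0x10000000000000000000100020002))) (.non (nat_lit 0) (nat_lit 5) (nat_lit 0x115154) (nat_lit 0x40000000300020001000000020003000100020000)))) (.split (nat_lit 0xa) (nat_lit 4) (.split (nat_lit 0xa)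 (nat_lit 5) (.split (nat_lit 0xa) (nat_lit 8) (.split (nat_lit 0xa) (nat_lit 0) (.split (nat_lit 0xa) (nat_lit 3) (.split (nat_lit 9) (nat_lit 2) (.split (nat_lit 8) (nat_lit 7) (.split (nat_lit 7) (nat_lit 0) (.sup (nat_lit 0x30006000b0010000d0000000000000000) (nat_lit 0x20001000000000000000000000003000300040002)) (.non (nat_lit 1) (nat_lit 4) (nat_lit 0x2a001) (nat_lit 0x100020001000000000000000000000002))) (.non (nat_lit 1) (nat_lit 4) (nat_lit 0x25001) (nat_lit 0x100020001000000000000000000000001))) (.split (nat_lit 9) (nat_lit 2) (.split (nat_lit 8) (nat_lit 7) (.split (nat_lit 7) (nat_lit 0) (.sup (nat_lit 0x30007000b0010000d0000000000000000) (nat_lit 0x20003000000000000000000000003000400040001)) (.non (nat_lit 1) (nat_lit 4) (nat_lit 0x2a001) (nat_lit 0x100020001000000000000000000000002))) (.non (nat_lit 1) (nat_lit 4) (nat_lit 0x25001) (nat_lit 0x100020001000000000000000000000001))) (.non (nat_lit 0) (nat_lit 4) (nat_lit 0x140054) (nat_lit 0x10003000000000000000000000002000400030000)))) (.non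 (nat_lit 1) (nat_lit 4) (nat_lit 0x115081) (nat_lit 0x20000000100020001000000000001000000000002))) (.non (nat_lit 1) (nat_lit 4) (nat_lit 0x215001) (nat_lit 0x10000000100020001000000000000000000000002))) (.non (nat_lit 1) (nat_lit 4) (nat_lit 0x114001) (nat_lit 0x10000000100010000000000000000000000000001))) (.star (nat_lit 0xa) (nat_lit 0) (nat_lit 5))) (.star (nat_lit 0xa) (nat_lit 0) (nat_lit 4)))) (.non (nat_lit 0) (nat_lit 4) (nat_lit 0x140054) (nat_lit 0x10001000000000000000000000001000100010000))) (.non (nat_lit 0) (nat_lit 4) (nat_lit 0x155454) (nat_lit 0x50001000300060004000200000004000200030000))) (.non (nat_lit 0) (nat_lit 4) (nat_lit 0x155454) (nat_lit 0x50001000200040006000300000004000200030000)))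

noncomputable def t1121_59 : Tr := (.pd (.cons (nat_lit 0) (nat_lit 6) (nat_lit 0) (nat_lit 0x22770441110) (nat_lit 0xf423ff423ff423fb71ae00000f423f54591f423f7a11d3d08a00000) (.cons (nat_lit 0) (nat_lit 7) (nat_lit 0) (nat_lit 0x22805441110) (nat_lit 0xf423ff423ff423f00000f423fb71ae1f156f423f7a11d3d08a00000) (.cons (nat_lit 0) (nat_lit 8) (nat_lit 0) (nat_lit 0x22065441110) (nat_lit 0xf423ff423f00000f423fb71aea2c2804737f423f7a11d3d08a00000) (.cons (nat_lit 1) (nat_lit 6) (nat_lit 0) (nat_lit 0x22700443200) (nat_lit 0xf423ff423ff423fb71ae00000f423f54591f423f7a11d00000a2c28) (.cons (nat_lit 1) (nat_lit 7) (nat_lit 0) (nat_lit 0x22805443200) (nat_lit 0xf423ff423ff423f00000f423fb71ae1f156f423f7a11d00000f423f) (.cons (nat_lit 2) (nat_lit 7) (nat_lit 0) (nat_lit 0xa9805441000) (nat_lit 0xf423ff423ff423f00000f423fb71ae1f156f423f00000b71ae1f156) .nil)))))) (.ex (nat_lit 8) (.leaf (.cons (nat_lit 0x5501) (nat_lit 0x20003000400030000000000000001) (.cons (nat_lit 0x15005) (nat_lit 0x100020001000000000000000000020002)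 (.cons (nat_lit 0x4045) (nat_lit 0x10000000000000001000000020002) (.cons (nat_lit 0x140015) (nat_lit 0x10001000000000000000000000000000200020002) .nil)))) (.cons (nat_lit 0x111100001) (nat_lit 0x10010) (nat_lit 8) (nat_lit 0x203400001) (.cons (nat_lit 0x111000001) (nat_lit 0x100010) (nat_lit 7) (nat_lit 0x302000001) .nil))) (.split (nat_lit 0xb) (nat_lit 0) (.split (nat_lit 0xb) (nat_lit 1) (.split (nat_lit 0xb) (nat_lit 2) (.split (nat_lit 0xb) (nat_lit 3) (.split (nat_lit 0xb) (nat_lit 4) (.split (nat_lit 0xb) (nat_lit 5) (.split (nat_lit 0xb) (nat_lit 6) (.split (nat_lit 0xb) (nat_lit 7) (.split (nat_lit 0xb) (nat_lit 9) (.split (nat_lit 0xb) (nat_lit 0xa) (.sup (nat_lit 0x20000000000040007000b0010000d0000000000000000) (nat_lit 0x30003000000000000000000000003000700070002)) (.non (nat_lit 0) (nat_lit 4) (nat_lit 0x555054) (nat_lit 0x400050003000300020001000000000002000600040000))) (.non (nat_lit 0) (nat_lit 4) (nat_lit 0x555054) (nat_lit 0x400030005000300020001000000000002000600040000))) (.non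 (nat_lit 0) (nat_lit 4) (nat_lit 0x414000) (nat_lit 0x100000000000100010000000000000000000000000000))) (.non (nat_lit 0) (nat_lit 4) (nat_lit 0x415000) (nat_lit 0x100000000000100010001000000000000000000000000))) (.non (nat_lit 0) (nat_lit 4) (nat_lit 0x415400) (nat_lit 0x100000000000100010001000100000000000000000000))) (.non (nat_lit 0) (nat_lit 6) (nat_lit 0x414500) (nat_lit 0x300000000000200010000000300040000000000000000))) (.non (nat_lit 2) (nat_lit 7) (nat_lit 0x410045) (nat_lit 0x200000000000100000000000000000003000000040003))) (.non (nat_lit 0) (nat_lit 4) (nat_lit 0x540014) (nat_lit 0x100010001000000000000000000000000000200010000))) (.non (nat_lit 0) (nat_lit 4) (nat_lit 0x540054) (nat_lit 0x100010001000000000000000000000001000200020000))) (.non (nat_lit 1) (nat_lit 4) (nat_lit 0x414001) (nat_lit 0x100000000000100010000000000000000000000000001)))))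

noncomputable def t1121_60 : Tr := (.split (nat_lit 0xb) (nat_lit 7) (.split (nat_lit 0xb) (nat_lit 3) (.split (nat_lit 0xb) (nat_lit 5) (.split (nat_lit 0xb) (nat_lit 8) (.split (nat_lit 0xb) (nat_lit 9) (.split (nat_lit 0xb) (nat_lit 0xa) (.unj (nat_lit 0x55) (nat_lit 0x1000100020002) (nat_lit 0x401500) (nat_lit 0x100000000000000000001000200020000000000000000)) (.unj (nat_lit 0x55) (nat_lit 0x1000100020002) (nat_lit 0x401500) (nat_lit 0x100000000000000000001000200020000000000000000))) (.split (nat_lit 0xb) (nat_lit 0xa) (.unj (nat_lit 0x55) (nat_lit 0x1000100020002) (nat_lit 0x401500) (nat_lit 0x100000000000000000001000200020000000000000000)) (.non (nat_lit 0) (nat_lit 4) (nat_lit 0x540010) (nat_lit 0x100010001000000000000000000000000000100000000)))) (.split (nat_lit 0xb) (nat_lit 9) (.split (nat_lit 0xb) (nat_lit 0xa) (.unj (nat_lit 0x55) (nat_lit 0x1000100020002) (nat_lit 0x401500) (nat_lit 0x100000000000000000001000200020000000000000000)) (.non (nat_lit 0) (nat_lit 4) (nat_lit 0x555054) (nat_lit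 0x400050003000300020001000000000002000600040000))) (.non (nat_lit 0) (nat_lit 4) (nat_lit 0x555054) (nat_lit 0x400030005000300020001000000000002000600040000)))) (.split (nat_lit 0xb) (nat_lit 8) (.split (nat_lit 0xb) (nat_lit 9) (.split (nat_lit 0xb) (nat_lit 0xa) (.unj (nat_lit 0x400500) (nat_lit 0x100000000000000000000000100010000000000000000) (nat_lit 0x55) (nat_lit 0x1000100020002)) (.non (nat_lit 0) (nat_lit 4) (nat_lit 0x545454) (nat_lit 0x400050003000000010002000300000002000600040000))) (.non (nat_lit 0) (nat_lit 4) (nat_lit 0x545454) (nat_lit 0x400030005000000010002000300000002000600040000))) (.non (nat_lit 0) (nat_lit 4) (nat_lit 0x415400) (nat_lit 0x100000000000100010001000100000000000000000000)))) (.split (nat_lit 0xb) (nat_lit 8) (.split (nat_lit 0xb) (nat_lit 9) (.split (nat_lit 0xb) (nat_lit 0xa) (.split (nat_lit 0xb) (nat_lit 5) (.unj (nat_lit 0x401500) (nat_lit 0x100000000000000000001000200020000000000000000) (nat_lit 0x140015) (nat_lit 0x10001000000000000000000000000000200020002))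 (.unj (nat_lit 0x400500) (nat_lit 0x100000000000000000000000100010000000000000000) (nat_lit 0x4015) (nat_lit 0x10000000000000000000100020002))) (.non (nat_lit 0) (nat_lit 4) (nat_lit 0x500054) (nat_lit 0x100010000000000000000000000000001000100010000))) (.non (nat_lit 0) (nat_lit 4) (nat_lit 0x440054) (nat_lit 0x100000001000000000000000000000001000100010000))) (.non (nat_lit 0) (nat_lit 5) (nat_lit 0x550154) (nat_lit 0x200010001000100000000000000010002000200020000)))) (.non (nat_lit 1) (nat_lit 4) (nat_lit 0x415001) (nat_lit 0x100000000000100020001000000000000000000000001)))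

noncomputable def t1121_61 : Tr := (.ex (nat_lit 4) (.ex (nat_lit 5) (.split (nat_lit 9) (nat_lit 2) (.split (nat_lit 0xa) (nat_lit 2) (.split (nat_lit 7) (nat_lit 0) (.split (nat_lit 8) (nat_lit 7) t1121_59 (.non (nat_lit 1) (nat_lit 4) (nat_lit 0x25001) (nat_lit 0x100020001000000000000000000000001))) (.non (nat_lit 1) (nat_lit 4) (nat_lit 0x2a001) (nat_lit 0x100020001000000000000000000000002))) (.non (nat_lit 0) (nat_lit 4) (nat_lit 0x240014) (nat_lit 0x10001000000000000000000000000000200010000))) (.non (nat_lit 0) (nat_lit 4) (nat_lit 0x180014) (nat_lit 0x10001000000000000000000000000000200010000))) (.split (nat_lit 0xb) (nat_lit 0) (.split (nat_lit 0xb) (nat_lit 1) (.split (nat_lit 0xb) (nat_lit 2) (.split (nat_lit 0xb) (nat_lit 6) (.split (nat_lit 0xb) (nat_lit 7) (.split (nat_lit 0xb) (nat_lit 8) (.split (nat_lit 0xb) (nat_lit 9) (.split (nat_lit 0xb) (nat_lit 0xa) (.split (nat_lit 0xb) (nat_lit 3) (.split (nat_lit 0xb) (nat_lit 4) (.unj (nat_lit 0x55) (nat_lit 0x1000100020002) (nat_lit 0x401500)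 (nat_lit 0x100000000000000000001000200020000000000000000)) (.unj (nat_lit 0x400500) (nat_lit 0x100000000000000000000000100010000000000000000) (nat_lit 0x55) (nat_lit 0x1000100020002))) (.split (nat_lit 0xb) (nat_lit 4) (.unj (nat_lit 0x401500) (nat_lit 0x100000000000000000001000200020000000000000000) (nat_lit 0x140015) (nat_lit 0x10001000000000000000000000000000200020002)) (.unj (nat_lit 0x400500) (nat_lit 0x100000000000000000000000100010000000000000000) (nat_lit 0x4015) (nat_lit 0x10000000000000000000100020002)))) (.non (nat_lit 0) (nat_lit 4) (nat_lit 0x545454) (nat_lit 0x400050003000000010002000300000002000600040000))) (.non (nat_lit 0) (nat_lit 4) (nat_lit 0x545454) (nat_lit 0x400030005000000010002000300000002000600040000))) (.non (nat_lit 0) (nat_lit 4) (nat_lit 0x415400) (nat_lit 0x100000000000100010001000100000000000000000000))) (.non (nat_lit 0) (nat_lit 4) (nat_lit 0x405400) (nat_lit 0x100000000000000010001000100000000000000000000))) (.non (nat_lit 0) (nat_lit 4) (nat_lit 0x401400) (nat_lit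 0x100000000000000000001000100000000000000000000))) (.non (nat_lit 0) (nat_lit 4) (nat_lit 0x540014) (nat_lit 0x100010001000000000000000000000000000200010000))) (.star (nat_lit 0xb) (nat_lit 1) (nat_lit 5))) (.star (nat_lit 0xb) (nat_lit 0) (nat_lit 5)))) (.split (nat_lit 0xb) (nat_lit 0) (.split (nat_lit 0xb) (nat_lit 1) (.split (nat_lit 0xb) (nat_lit 2) (.split (nat_lit 0xb) (nat_lit 6) t1121_60 (.non (nat_lit 1) (nat_lit 4) (nat_lit 0x415401) (nat_lit 0x100000000000100020002000100000000000000000001))) (.non (nat_lit 0) (nat_lit 4) (nat_lit 0x540014) (nat_lit 0x100010001000000000000000000000000000200010000))) (.star (nat_lit 0xb) (nat_lit 1) (nat_lit 4))) (.star (nat_lit 0xb) (nat_lit 0) (nat_lit 4))))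

noncomputable def t1121_62 : Tr := (.ex (nat_lit 4) (.split (nat_lit 9) (nat_lit 2) (.split (nat_lit 0xa) (nat_lit 2) (.split (nat_lit 0xb) (nat_lit 3) (.split (nat_lit 8) (nat_lit 7) (.split (nat_lit 0xb) (nat_lit 8) (.split (nat_lit 7) (nat_lit 0) (.pd (.cons (nat_lit 0) (nat_lit 6) (nat_lit 0) (nat_lit 0x322b80441110) (nat_lit 0xa2c28f423ff423fb71aef423f00000f423f54591989657a11d1869900000) (.cons (nat_lit 0) (nat_lit 7) (nat_lit 0) (nat_lit 0x322b05441110) (nat_lit 0xb71aef423ff423ff423f00000f423fb71ae1f156a2c287a11d1e84100000) (.cons (nat_lit 0) (nat_lit 8) (nat_lit 0) (nat_lit 0x322065441110) (nat_lit 0xf423ff423ff423f00000f423fb71aea2c2804737b71ae7a11d28b0400000) (.cons (nat_lit 1) (nat_lit 6) (nat_lit 0) (nat_lit 0x82270044b200) (nat_lit 0xb71aef423ff423fa2c289896500000f423f54591f423f7a11d00000927bd) (.cons (nat_lit 1) (nat_lit 7) (nat_lit 0) (nat_lit 0x322b05443200) (nat_lit 0xb71aef423ff423ff423f00000f423fb71ae1f156a2c287a11d00000f423f) .nil))))) (.leaf (.cons (nat_lit 0x5501) (nat_lit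 0x20003000400030000000000000001) (.cons (nat_lit 0x414005) (nat_lit 0x100000000000200030000000000000000000000030004) (.cons (nat_lit 0x410045) (nat_lit 0x200000000000100000000000000000003000000040003) (.cons (nat_lit 0x140015) (nat_lit 0x10001000000000000000000000000000200020002) .nil)))) (.cons (nat_lit 0x100111101001) (nat_lit 0x10010) (nat_lit 0xd) (nat_lit 0x500402306001) (.cons (nat_lit 0x100111001001) (nat_lit 0x100010) (nat_lit 9) (nat_lit 0x400302005001) .nil)))) (.non (nat_lit 1) (nat_lit 4) (nat_lit 0x2a001) (nat_lit 0x100020001000000000000000000000002))) (.non (nat_lit 0) (nat_lit 4) (nat_lit 0x42a040) (nat_lit 0x400000000000300020001000000000002000000000000))) (.non (nat_lit 0) (nat_lit 4) (nat_lit 0x825400) (nat_lit 0x100000000000200030002000100000000000000000000))) (.non (nat_lit 0) (nat_lit 4) (nat_lit 0x828044) (nat_lit 0x300000000000200010000000000000004000000020000))) (.non (nat_lit 0) (nat_lit 4) (nat_lit 0x240014) (nat_lit 0x10001000000000000000000000000000200010000))) (.non (nat_lit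 0) (nat_lit 4) (nat_lit 0x180014) (nat_lit 0x10001000000000000000000000000000200010000))) (.split (nat_lit 0xc) (nat_lit 0) (.split (nat_lit 0xc) (nat_lit 1) (.split (nat_lit 0xc) (nat_lit 2) (.split (nat_lit 0xc) (nat_lit 3) (.split (nat_lit 0xc) (nat_lit 5) (.split (nat_lit 0xc) (nat_lit 6) (.split (nat_lit 0xc) (nat_lit 7) (.split (nat_lit 0xc) (nat_lit 8) (.split (nat_lit 0xc) (nat_lit 9) (.split (nat_lit 0xc) (nat_lit 0xa) (.split (nat_lit 0xc) (nat_lit 0xb) (.unj (nat_lit 0x55) (nat_lit 0x1000100020002) (nat_lit 0x1001500) (nat_lit 0x1000000000000000000000001000200020000000000000000)) (.non (nat_lit 0) (nat_lit 4) (nat_lit 0x1550054) (nat_lit 0x1000200010001000100000000000000000002000200020000))) (.non (nat_lit 0) (nat_lit 4) (nat_lit 0x1554054) (nat_lit 0x2000300040003000200010000000000000004000600050000))) (.non (nat_lit 0) (nat_lit 4) (nat_lit 0x1554054) (nat_lit 0x2000300030004000200010000000000000004000600050000))) (.non (nat_lit 0) (nat_lit 4) (nat_lit 0x1415444) (nat_lit 0x2000300000000000400030002000100000002000000010000)))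 (.non (nat_lit 0) (nat_lit 4) (nat_lit 0x1555054) (nat_lit 0x1000200010001000200020001000000000002000200020000))) (.non (nat_lit 0) (nat_lit 4) (nat_lit 0x1555454) (nat_lit 0x1000200010001000200020002000100000002000200020000))) (.non (nat_lit 1) (nat_lit 4) (nat_lit 0x1415441) (nat_lit 0x1000200000000000300040003000200000001000000000002))) (.non (nat_lit 0) (nat_lit 4) (nat_lit 0x1540054) (nat_lit 0x1000100010001000000000000000000000002000200020000))) (.non (nat_lit 0) (nat_lit 4) (nat_lit 0x1140014) (nat_lit 0x1000000010001000000000000000000000000000200010000))) (.star (nat_lit 0xc) (nat_lit 1) (nat_lit 4))) (.star (nat_lit 0xc) (nat_lit 0) (nat_lit 4))))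

noncomputable def t1121_63 : Tr := (.split (nat_lit 0xb) (nat_lit 4) (.split (nat_lit 0xb) (nat_lit 5) (.split (nat_lit 0xb) (nat_lit 8) (.split (nat_lit 0xb) (nat_lit 3) (.split (nat_lit 0xa) (nat_lit 2) (.split (nat_lit 9) (nat_lit 2) (.split (nat_lit 8) (nat_lit 7) (.split (nat_lit 7) (nat_lit 0) (.sup (nat_lit 0x30007000b0010000d0000000000000000) (nat_lit 0x200030003000000000000000000000004000600060001)) (.non (nat_lit 1) (nat_lit 4) (nat_lit 0x2a001) (nat_lit 0x100020001000000000000000000000002))) (.non (nat_lit 1) (nat_lit 4) (nat_lit 0x25001) (nat_lit 0x100020001000000000000000000000001))) (.non (nat_lit 0) (nat_lit 4) (nat_lit 0x180014) (nat_lit 0x10001000000000000000000000000000200010000))) (.non (nat_lit 0) (nat_lit 4) (nat_lit 0x240014) (nat_lit 0x10001000000000000000000000000000200010000))) (.non (nat_lit 0) (nat_lit 4) (nat_lit 0x940054) (nat_lit 0x100010001000000000000000000000002000200020000))) (.st (nat_lit 5) (nat_lit 1) (nat_lit 4) (nat_lit 0x415441) (nat_lit 0x200000000000300040003000200000001000000000002)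 (nat_lit 1) (nat_lit 1) (.st (nat_lit 3) (nat_lit 0) (nat_lit 4) (nat_lit 0x540054) (nat_lit 0x100010001000000000000000000000002000200020000) (nat_lit 1) (nat_lit 1) (.st (nat_lit 8) (nat_lit 0) (nat_lit 4) (nat_lit 0x415444) (nat_lit 0x300000000000400030002000100000002000000010000) (nat_lit 1) (nat_lit 2) (.st (nat_lit 9) (nat_lit 0) (nat_lit 4) (nat_lit 0x554054) (nat_lit 0x300030004000200010000000000000004000600050000) (nat_lit 1) (nat_lit 2) (.st (nat_lit 0xa) (nat_lit 0) (nat_lit 4) (nat_lit 0x554054) (nat_lit 0x300040003000200010000000000000004000600050000) (nat_lit 1) (nat_lit 2) (.st (nat_lit 0xb) (nat_lit 0) (nat_lit 4) (nat_lit 0x550054) (nat_lit 0x200010001000100000000000000000002000200020000) (nat_lit 1) (nat_lit 1) t1121_62))))))) (.split (nat_lit 0xb) (nat_lit 8) (.unj (nat_lit 0x401500) (nat_lit 0x100000000000000000001000200020000000000000000) (nat_lit 0x140015) (nat_lit 0x10001000000000000000000000000000200020002)) (.non (nat_lit 0) (nat_lit 4) (nat_lit 0x415400) (nat_lit 0x100000000000100010001000100000000000000000000))))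 (.split (nat_lit 0xb) (nat_lit 8) (.split (nat_lit 0xb) (nat_lit 5) (.unj (nat_lit 0x401500) (nat_lit 0x100000000000000000001000200020000000000000000) (nat_lit 0x140015) (nat_lit 0x10001000000000000000000000000000200020002)) (.unj (nat_lit 0x400500) (nat_lit 0x100000000000000000000000100010000000000000000) (nat_lit 0x4015) (nat_lit 0x10000000000000000000100020002))) (.non (nat_lit 0) (nat_lit 5) (nat_lit 0x550154) (nat_lit 0x200010001000100000000000000010002000200020000))))

noncomputable def t1121_64 : Tr := (.split (nat_lit 0xa) (nat_lit 0) (.split (nat_lit 0xa) (nat_lit 4) (.st (nat_lit 2) (nat_lit 0) (nat_lit 4) (nat_lit 0x140014) (nat_lit 0x10001000000000000000000000000000200010000) (nat_lit 1) (nat_lit 1) (.ex (nat_lit 3) t1121_61 (.split (nat_lit 0xb) (nat_lit 1) (.split (nat_lit 0xb) (nat_lit 2) (.split (nat_lit 0xb) (nat_lit 6) (.split (nat_lit 0xb) (nat_lit 7) (.split (nat_lit 0xb) (nat_lit 9) (.split (nat_lit 0xb) (nat_lit 0xa) (.split (nat_lit 0xb) (nat_lit 0) t1121_63 (.split (nat_lit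 0xb) (nat_lit 4) (.split (nat_lit 0xb) (nat_lit 5) (.split (nat_lit 0xb) (nat_lit 8) (.split (nat_lit 0xb) (nat_lit 0) (.split (nat_lit 0xb) (nat_lit 3) (.split (nat_lit 0xa) (nat_lit 2) (.split (nat_lit 9) (nat_lit 2) (.split (nat_lit 8) (nat_lit 7) (.split (nat_lit 7) (nat_lit 0) (.sup (nat_lit 0x30007000b0010000d0000000000000000) (nat_lit 0x200020002000000000000000000000003000400040001)) (.non (nat_lit 1) (nat_lit 4) (nat_lit 0x2a001) (nat_lit 0x100020001000000000000000000000002))) (.non (nat_lit 1) (nat_lit 4) (nat_lit 0x25001) (nat_lit 0x100020001000000000000000000000001))) (.non (nat_lit 0) (nat_lit 4) (nat_lit 0x180014) (nat_lit 0x10001000000000000000000000000000200010000))) (.non (nat_lit 0) (nat_lit 4) (nat_lit 0x240014) (nat_lit 0x10001000000000000000000000000000200010000))) (.non (nat_lit 0) (nat_lit 4) (nat_lit 0x940054) (nat_lit 0x100010001000000000000000000000002000200020000))) (.non (nat_lit 1) (nat_lit 4) (nat_lit 0x815001) (nat_lit 0x100000000000100020001000000000000000000000002)))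 (.non (nat_lit 1) (nat_lit 4) (nat_lit 0x414001) (nat_lit 0x100000000000100010000000000000000000000000001))) (.star (nat_lit 0xb) (nat_lit 0) (nat_lit 5))) (.star (nat_lit 0xb) (nat_lit 0) (nat_lit 4)))) (.non (nat_lit 0) (nat_lit 4) (nat_lit 0x500054) (nat_lit 0x100010000000000000000000000000001000100010000))) (.non (nat_lit 0) (nat_lit 4) (nat_lit 0x440054) (nat_lit 0x100000001000000000000000000000001000100010000))) (.non (nat_lit 0) (nat_lit 4) (nat_lit 0x555054) (nat_lit 0x200010001000100020001000000000002000200020000))) (.non (nat_lit 0) (nat_lit 4) (nat_lit 0x545454) (nat_lit 0x200010001000000010002000100000002000200020000))) (.non (nat_lit 0) (nat_lit 4) (nat_lit 0x540014) (nat_lit 0x100010001000000000000000000000000000200010000))) (.non (nat_lit 0) (nat_lit 4) (nat_lit 0x400044) (nat_lit 0x100000000000000000000000000000001000000010000))))) (.sup (nat_lit 0x50002000a0008) (nat_lit 0x20000000000000005000a00090000000000000000))) (.split (nat_lit 0xa) (nat_lit 4) (.split (nat_lit 0xa) (nat_lit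 0) (.split (nat_lit 0xa) (nat_lit 2) (.split (nat_lit 9) (nat_lit 2) (.split (nat_lit 8) (nat_lit 7) (.split (nat_lit 7) (nat_lit 0) (.sup (nat_lit 0x30007000b0010000d0000000000000000) (nat_lit 0x30002000000000000000000000002000400040001)) (.non (nat_lit 1) (nat_lit 4) (nat_lit 0x2a001) (nat_lit 0x100020001000000000000000000000002))) (.non (nat_lit 1) (nat_lit 4) (nat_lit 0x25001) (nat_lit 0x100020001000000000000000000000001))) (.non (nat_lit 0) (nat_lit 4) (nat_lit 0x180014) (nat_lit 0x10001000000000000000000000000000200010000))) (.non (nat_lit 0) (nat_lit 4) (nat_lit 0x240014) (nat_lit 0x10001000000000000000000000000000200010000))) (.non (nat_lit 1) (nat_lit 4) (nat_lit 0x215001) (nat_lit 0x10000000100020001000000000000000000000002))) (.star (nat_lit 0xa) (nat_lit 0) (nat_lit 4))))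

noncomputable def t1121_65 : Tr := (.ex (nat_lit 4) (.split (nat_lit 9) (nat_lit 2) (.split (nat_lit 8) (nat_lit 7) (.split (nat_lit 9) (nat_lit 8) (.split (nat_lit 7) (nat_lit 0) (.pd (.cons (nat_lit 0) (nat_lit 6) (nat_lit 0) (nat_lit 0x2980441110) (nat_lit 0xa2c28b71aef423f00000f423f54591f423f989655572c00000) (.cons (nat_lit 0) (nat_lit 7) (nat_lit 0) (nat_lit 0x2905441110) (nat_lit 0xb71aef423f00000f423fb71ae1f156f423fa2c285b8d400000) (.cons (nat_lit 0) (nat_lit 8) (nat_lit 0) (nat_lit 0x2065441110) (nat_lit 0xf423f00000f423fb71aea2c2804737f423fb71ae65b9700000) (.cons (nat_lit 1) (nat_lit 6) (nat_lit 0) (nat_lit 0x8700443900) (nat_lit 0xb71aea2c289896500000f423f54591f423ff423f00000927bd) (.cons (nat_lit 1) (nat_lit 7) (nat_lit 0) (nat_lit 0x2905443200) (nat_lit 0xb71aef423f00000f423fb71ae1f156f423fa2c2800000f423f) (.cons (nat_lit 2) (nat_lit 7) (nat_lit 0) (nat_lit 0x8805441000) (nat_lit 0xf423fb71ae00000f423fb71ae1f156f423f00000b71ae1f156) .nil)))))) (.leaf (.cons (nat_lit 0x5501) (nat_lit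 0x20003000400030000000000000001) (.cons (nat_lit 0x54005) (nat_lit 0x1000200030000000000000000000000030004) (.cons (nat_lit 0x50015) (nat_lit 0x2000100000000000000000000000300040003) .nil))) (.cons (nat_lit 0x1111100101) (nat_lit 0x10010) (nat_lit 0xd) (nat_lit 0x5402300601) (.cons (nat_lit 0x1111000101) (nat_lit 0x100010) (nat_lit 9) (nat_lit 0x4302000501) .nil)))) (.non (nat_lit 1) (nat_lit 4) (nat_lit 0x2a001) (nat_lit 0x100020001000000000000000000000002))) (.non (nat_lit 0) (nat_lit 4) (nat_lit 0x6a010) (nat_lit 0x4000300020001000000000000000200000000))) (.non (nat_lit 0) (nat_lit 4) (nat_lit 0xa5400) (nat_lit 0x1000200030002000100000000000000000000))) (.non (nat_lit 0) (nat_lit 4) (nat_lit 0xa8014) (nat_lit 0x3000200010000000000000000000400020000))) (.split (nat_lit 0xa) (nat_lit 0) (.split (nat_lit 0xa) (nat_lit 1) (.split (nat_lit 0xa) (nat_lit 2) (.split (nat_lit 0xa) (nat_lit 5) (.split (nat_lit 0xa) (nat_lit 6) (.split (nat_lit 0xa) (nat_lit 7) (.split (nat_lit 0xa) (nat_lit 8) (.split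 (nat_lit 0xa) (nat_lit 9) (.split (nat_lit 0xa) (nat_lit 3) (.unj (nat_lit 0x55) (nat_lit 0x1000100020002) (nat_lit 0x101500) (nat_lit 0x10000000000000001000200020000000000000000)) (.unj (nat_lit 0x101500) (nat_lit 0x10000000000000001000200020000000000000000) (nat_lit 0x50015) (nat_lit 0x2000100000000000000000000000300040003))) (.non (nat_lit 0) (nat_lit 4) (nat_lit 0x155054) (nat_lit 0x20004000300020001000000000001000300020000))) (.non (nat_lit 0) (nat_lit 4) (nat_lit 0x155414) (nat_lit 0x20003000400030002000100000000000200010000))) (.non (nat_lit 0) (nat_lit 4) (nat_lit 0x155454) (nat_lit 0x30004000500060004000200000001000300020000))) (.non (nat_lit 1) (nat_lit 4) (nat_lit 0x115401) (nat_lit 0x10000000100020002000100000000000000000001))) (.non (nat_lit 1) (nat_lit 4) (nat_lit 0x155411) (nat_lit 0x10002000300040003000200000000000100000002))) (.non (nat_lit 0) (nat_lit 4) (nat_lit 0x155454) (nat_lit 0x30005000400030002000100000002000600040000))) (.star (nat_lit 0xa) (nat_lit 1) (nat_lit 4))) (.star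 (nat_lit 0xa) (nat_lit 0) (nat_lit 4))))

noncomputable def t1121_66 : Tr := (.pd (.cons (nat_lit 0) (nat_lit 6) (nat_lit 0) (nat_lit 0x32980441110) (nat_lit 0xf423fa2c28b71aef423f00000f423f54591b71ae98965411a600000) (.cons (nat_lit 0) (nat_lit 7) (nat_lit 0) (nat_lit 0x32905441110) (nat_lit 0xf423fb71aef423f00000f423fb71ae1f156b71aea2c284734e00000) (.cons (nat_lit 0) (nat_lit 8) (nat_lit 0) (nat_lit 0x32065441110) (nat_lit 0xf423ff423f00000f423fb71aea2c2804737b71aeb71ae5161100000) (.cons (nat_lit 1) (nat_lit 6) (nat_lit 0) (nat_lit 0x38700443900) (nat_lit 0xf423fb71aea2c289896500000f423f54591b71aef423f00000927bd) (.cons (nat_lit 1) (nat_lit 7) (nat_lit 0) (nat_lit 0x32905443200) (nat_lit 0xf423fb71aef423f00000f423fb71ae1f156b71aea2c2800000f423f) .nil))))) (.ex (nat_lit 0xa) (.pd (.cons (nat_lit 2) (nat_lit 7) (nat_lit 0) (nat_lit 0x38805441000) (nat_lit 0xf423ff423fb71ae00000f423fb71ae1f156b71ae00000a2c2804737) .nil) (.leaf (.cons (nat_lit 0x5501) (nat_lit 0x20003000400030000000000000001) (.cons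 (nat_lit 0x54005) (nat_lit 0x1000200030000000000000000000000030004) (.cons (nat_lit 0x50015) (nat_lit 0x2000100000000000000000000000300040003) .nil))) (.cons (nat_lit 0x1111100101) (nat_lit 0x10010) (nat_lit 0xd) (nat_lit 0x5402300601) (.cons (nat_lit 0x1111000101) (nat_lit 0x100010) (nat_lit 9) (nat_lit 0x4302000501) .nil)))) (.split (nat_lit 0xb) (nat_lit 0) (.split (nat_lit 0xb) (nat_lit 1) (.split (nat_lit 0xb) (nat_lit 2) (.split (nat_lit 0xb) (nat_lit 3) (.split (nat_lit 0xb) (nat_lit 4) (.split (nat_lit 0xb) (nat_lit 5) (.split (nat_lit 0xb) (nat_lit 6) (.split (nat_lit 0xb) (nat_lit 7) (.split (nat_lit 0xb) (nat_lit 8) (.split (nat_lit 0xb) (nat_lit 9) (.leaf (.cons (nat_lit 0x5501) (nat_lit 0x20003000400030000000000000001) (.cons (nat_lit 0x54005) (nat_lit 0x1000200030000000000000000000000030004) (.cons (nat_lit 0x500045) (nat_lit 0x100020000000000000000000000000003000000040003) (.cons (nat_lit 0x50015) (nat_lit 0x2000100000000000000000000000300040003) .nil)))) (.cons (nat_lit 0x1111100101)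 (nat_lit 0x10010) (nat_lit 0xd) (nat_lit 0x5402300601) (.cons (nat_lit 0x1111000101) (nat_lit 0x100010) (nat_lit 9) (nat_lit 0x4302000501) .nil))) (.non (nat_lit 0) (nat_lit 4) (nat_lit 0x555050) (nat_lit 0x300020004000300020001000000000001000200000000))) (.non (nat_lit 0) (nat_lit 4) (nat_lit 0x555440) (nat_lit 0x300020002000400030002000100000001000000000000))) (.non (nat_lit 0) (nat_lit 4) (nat_lit 0x555400) (nat_lit 0x200010001000200030002000100000000000000000000))) (.non (nat_lit 0) (nat_lit 4) (nat_lit 0x555440) (nat_lit 0x300020001000200030004000200000001000000000000))) (.non (nat_lit 0) (nat_lit 4) (nat_lit 0x555454) (nat_lit 0x100010001000100010001000100000001000100010000))) (.non (nat_lit 0) (nat_lit 6) (nat_lit 0x500540) (nat_lit 0x300020000000000000000000300040001000000000000))) (.non (nat_lit 0) (nat_lit 4) (nat_lit 0x500040) (nat_lit 0x100010000000000000000000000000001000000000000))) (.non (nat_lit 0) (nat_lit 4) (nat_lit 0x555414) (nat_lit 0x400020005000400030002000100000000000600030000)))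 (.non (nat_lit 0) (nat_lit 4) (nat_lit 0x500044) (nat_lit 0x100010000000000000000000000000001000000010000))) (.non (nat_lit 1) (nat_lit 4) (nat_lit 0x455401) (nat_lit 0x100000001000200030002000100000000000000000002)))))

noncomputable def t1121_67 : Tr := (.ex (nat_lit 4) (.split (nat_lit 9) (nat_lit 2) (.split (nat_lit 0xa) (nat_lit 3) (.split (nat_lit 8) (nat_lit 7) (.split (nat_lit 9) (nat_lit 8) (.split (nat_lit 7) (nat_lit 0) t1121_66 (.non (nat_lit 1) (nat_lit 4) (nat_lit 0x2a001) (nat_lit 0x100020001000000000000000000000002))) (.non (nat_lit 0) (nat_lit 4) (nat_lit 0x6a010) (nat_lit 0x4000300020001000000000000000200000000))) (.non (nat_lit 0) (nat_lit 4) (nat_lit 0xa5400) (nat_lit 0x1000200030002000100000000000000000000))) (.split (nat_lit 0xa) (nat_lit 3) (.split (nat_lit 8) (nat_lit 7) (.split (nat_lit 9) (nat_lit 8) (.split (nat_lit 7) (nat_lit 0) (.pd (.cons (nat_lit 0) (nat_lit 6) (nat_lit 0) (nat_lit 0x32980441110) (nat_lit 0xf423fa2c28b71aef423f00000f423f545917a11e989651869a00000) (.cons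 (nat_lit 0) (nat_lit 7) (nat_lit 0) (nat_lit 0x32905441110) (nat_lit 0xf423fb71aef423f00000f423fb71ae1f1567a11ea2c281e84200000) (.cons (nat_lit 0) (nat_lit 8) (nat_lit 0) (nat_lit 0x32065441110) (nat_lit 0xf423ff423f00000f423fb71aea2c28047377a11eb71ae28b0500000) (.cons (nat_lit 1) (nat_lit 6) (nat_lit 0) (nat_lit 0x38700443900) (nat_lit 0xf423fb71aea2c289896500000f423f545917a11ef423f00000927bd) (.cons (nat_lit 1) (nat_lit 7) (nat_lit 0) (nat_lit 0x32905443200) (nat_lit 0xf423fb71aef423f00000f423fb71ae1f1567a11ea2c2800000f423f) .nil))))) (.leaf (.cons (nat_lit 0x5501) (nat_lit 0x20003000400030000000000000001) (.cons (nat_lit 0x54005) (nat_lit 0x1000200030000000000000000000000030004) (.cons (nat_lit 0x100045) (nat_lit 0x10000000000000000000000000001000000010001) (.cons (nat_lit 0x50015) (nat_lit 0x2000100000000000000000000000300040003) .nil)))) (.cons (nat_lit 0x1111100101) (nat_lit 0x10010) (nat_lit 0xd) (nat_lit 0x5402300601) (.cons (nat_lit 0x1111000101) (nat_lit 0x100010) (nat_lit 9) (nat_lit 0x4302000501)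 .nil)))) (.non (nat_lit 1) (nat_lit 4) (nat_lit 0x2a001) (nat_lit 0x100020001000000000000000000000002))) (.non (nat_lit 0) (nat_lit 4) (nat_lit 0x6a010) (nat_lit 0x4000300020001000000000000000200000000))) (.non (nat_lit 0) (nat_lit 4) (nat_lit 0xa5400) (nat_lit 0x1000200030002000100000000000000000000))) (.non (nat_lit 0) (nat_lit 4) (nat_lit 0x140054) (nat_lit 0x30001000000000000000000000004000200030000)))) (.non (nat_lit 0) (nat_lit 4) (nat_lit 0xa8014) (nat_lit 0x3000200010000000000000000000400020000))) (.split (nat_lit 0xb) (nat_lit 0) (.split (nat_lit 0xb) (nat_lit 1) (.split (nat_lit 0xb) (nat_lit 2) (.split (nat_lit 0xb) (nat_lit 3) (.split (nat_lit 0xb) (nat_lit 5) (.split (nat_lit 0xb) (nat_lit 6) (.split (nat_lit 0xb) (nat_lit 7) (.split (nat_lit 0xb) (nat_lit 8) (.split (nat_lit 0xb) (nat_lit 9) (.split (nat_lit 0xb) (nat_lit 0xa) (.unj (nat_lit 0x55) (nat_lit 0x1000100020002) (nat_lit 0x401500) (nat_lit 0x100000000000000000001000200020000000000000000)) (.unj (nat_lit 0x55) (nat_lit 0x1000100020002)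 (nat_lit 0x401500) (nat_lit 0x100000000000000000001000200020000000000000000))) (.non (nat_lit 0) (nat_lit 4) (nat_lit 0x455054) (nat_lit 0x200000004000300020001000000000001000300020000))) (.non (nat_lit 0) (nat_lit 4) (nat_lit 0x455414) (nat_lit 0x200000003000400030002000100000000000200010000))) (.non (nat_lit 0) (nat_lit 4) (nat_lit 0x455454) (nat_lit 0x300000004000500060004000200000001000300020000))) (.non (nat_lit 1) (nat_lit 4) (nat_lit 0x415401) (nat_lit 0x100000000000100020002000100000000000000000001))) (.non (nat_lit 1) (nat_lit 4) (nat_lit 0x455411) (nat_lit 0x100000002000300040003000200000000000100000002))) (.non (nat_lit 0) (nat_lit 5) (nat_lit 0x554154) (nat_lit 0x400030003000200010000000000020006000400050000))) (.non (nat_lit 0) (nat_lit 4) (nat_lit 0x554054) (nat_lit 0x200010003000200010000000000000002000400030000))) (.star (nat_lit 0xb) (nat_lit 1) (nat_lit 4))) (.star (nat_lit 0xb) (nat_lit 0) (nat_lit 4))))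

noncomputable def t1121_68 : Tr := (.ex (nat_lit 4) (.split (nat_lit 9) (nat_lit 2) (.split (nat_lit 0xa) (nat_lit 3) (.split (nat_lit 0xb) (nat_lit 3) (.split (nat_lit 8) (nat_lit 7) (.split (nat_lit 9) (nat_lit 8) (.split (nat_lit 7) (nat_lit 0) (.pd (.cons (nat_lit 0) (nat_lit 6) (nat_lit 0) (nat_lit 0x332980441110) (nat_lit 0xf423ff423fa2c28b71aef423f00000f423f545917a11d989651869900000) (.cons (nat_lit 0) (nat_lit 7) (nat_lit 0) (nat_lit 0x332905441110) (nat_lit 0xf423ff423fb71aef423f00000f423fb71ae1f1567a11da2c281e84100000) (.cons (nat_lit 0) (nat_lit 8) (nat_lit 0) (nat_lit 0x332065441110) (nat_lit 0xf423ff423ff423f00000f423fb71aea2c28047377a11db71ae28b0400000) (.cons (nat_lit 1) (nat_lit 6) (nat_lit 0) (nat_lit 0x338700443900) (nat_lit 0xf423ff423fb71aea2c289896500000f423f545917a11df423f00000927bd) (.cons (nat_lit 1) (nat_lit 7) (nat_lit 0) (nat_lit 0x332905443200) (nat_lit 0xf423ff423fb71aef423f00000f423fb71ae1f1567a11da2c2800000f423f) .nil))))) (.leaf (.cons (nat_lit 0x5501) (nat_lit 0x20003000400030000000000000001)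 (.cons (nat_lit 0x54005) (nat_lit 0x1000200030000000000000000000000030004) (.cons (nat_lit 0x500045) (nat_lit 0x100010000000000000000000000000002000000020002) (.cons (nat_lit 0x50015) (nat_lit 0x2000100000000000000000000000300040003) .nil)))) (.cons (nat_lit 0x1111100101) (nat_lit 0x10010) (nat_lit 0xd) (nat_lit 0x5402300601) (.cons (nat_lit 0x1111000101) (nat_lit 0x100010) (nat_lit 9) (nat_lit 0x4302000501) .nil)))) (.non (nat_lit 1) (nat_lit 4) (nat_lit 0x2a001) (nat_lit 0x100020001000000000000000000000002))) (.non (nat_lit 0) (nat_lit 4) (nat_lit 0x6a010) (nat_lit 0x4000300020001000000000000000200000000))) (.non (nat_lit 0) (nat_lit 4) (nat_lit 0xa5400) (nat_lit 0x1000200030002000100000000000000000000))) (.non (nat_lit 0) (nat_lit 4) (nat_lit 0x900044) (nat_lit 0x100010000000000000000000000000002000000010000))) (.non (nat_lit 0) (nat_lit 4) (nat_lit 0x600044) (nat_lit 0x100010000000000000000000000000002000000010000))) (.non (nat_lit 0) (nat_lit 4) (nat_lit 0xa8014) (nat_lit 0x3000200010000000000000000000400020000)))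 (.split (nat_lit 0xc) (nat_lit 0) (.split (nat_lit 0xc) (nat_lit 1) (.split (nat_lit 0xc) (nat_lit 2) (.split (nat_lit 0xc) (nat_lit 3) (.split (nat_lit 0xc) (nat_lit 5) (.split (nat_lit 0xc) (nat_lit 6) (.split (nat_lit 0xc) (nat_lit 7) (.split (nat_lit 0xc) (nat_lit 8) (.split (nat_lit 0xc) (nat_lit 9) (.split (nat_lit 0xc) (nat_lit 0xa) (.split (nat_lit 0xc) (nat_lit 0xb) (.unj (nat_lit 0x55) (nat_lit 0x1000100020002) (nat_lit 0x1001500) (nat_lit 0x1000000000000000000000001000200020000000000000000)) (.non (nat_lit 0) (nat_lit 4) (nat_lit 0x1554054) (nat_lit 0x2000400030003000200010000000000000006000400050000))) (.non (nat_lit 0) (nat_lit 4) (nat_lit 0x1554054) (nat_lit 0x2000300040003000200010000000000000006000400050000))) (.non (nat_lit 0) (nat_lit 4) (nat_lit 0x1550054) (nat_lit 0x1000100010002000100000000000000000002000200020000))) (.non (nat_lit 0) (nat_lit 4) (nat_lit 0x1055414) (nat_lit 0x2000000000003000400030002000100000000000200010000))) (.non (nat_lit 0) (nat_lit 4) (nat_lit 0x1555054)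 (nat_lit 0x1000100010002000200020001000000000002000200020000))) (.non (nat_lit 0) (nat_lit 4) (nat_lit 0x1555454) (nat_lit 0x1000100010002000200020002000100000002000200020000))) (.non (nat_lit 1) (nat_lit 4) (nat_lit 0x1055411) (nat_lit 0x1000000000002000300040003000200000000000100000002))) (.non (nat_lit 0) (nat_lit 4) (nat_lit 0x1500044) (nat_lit 0x1000100010000000000000000000000000002000000010000))) (.non (nat_lit 0) (nat_lit 4) (nat_lit 0x1540054) (nat_lit 0x1000100010001000000000000000000000002000200020000))) (.star (nat_lit 0xc) (nat_lit 1) (nat_lit 4))) (.star (nat_lit 0xc) (nat_lit 0) (nat_lit 4))))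

noncomputable def t1121_69 : Tr := (.split (nat_lit 0xa) (nat_lit 6) (.split (nat_lit 0xa) (nat_lit 7) (.split (nat_lit 0xa) (nat_lit 8) (.split (nat_lit 0xa) (nat_lit 9) (.split (nat_lit 0xa) (nat_lit 4) (.ex (nat_lit 3) t1121_67 (.split (nat_lit 0xb) (nat_lit 0) (.split (nat_lit 0xb) (nat_lit 1) (.split (nat_lit 0xb) (nat_lit 2) (.split (nat_lit 0xb) (nat_lit 4) (.split (nat_lit 0xb) (nat_lit 5) (.split (nat_lit 0xb) (nat_lit 6) (.split (nat_lit 0xb) (nat_lit 7) (.split (nat_lit 0xb) (nat_lit 8) (.split (nat_lit 0xb) (nat_lit 9) (.split (nat_lit 0xb) (nat_lit 0xa) (.st (nat_lit 3) (nat_lit 0) (nat_lit 4) (nat_lit 0x500044) (nat_lit 0x100010000000000000000000000000002000000010000) (nat_lit 1) (nat_lit 1) (.st (nat_lit 0xa) (nat_lit 0) (nat_lit 4) (nat_lit 0x554054) (nat_lit 0x300040003000200010000000000000006000400050000) (nat_lit 1) (nat_lit 2) (.st (nat_lit 0xb) (nat_lit 0) (nat_lit 4) (nat_lit 0x554054) (nat_lit 0x400030003000200010000000000000006000400050000) (nat_lit 1) (nat_lit 2) t1121_68)))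 (.non (nat_lit 0) (nat_lit 4) (nat_lit 0x500040) (nat_lit 0x100010000000000000000000000000001000000000000))) (.non (nat_lit 0) (nat_lit 4) (nat_lit 0x555050) (nat_lit 0x300010004000300020001000000000002000200000000))) (.non (nat_lit 0) (nat_lit 4) (nat_lit 0x555440) (nat_lit 0x300010002000400030002000100000002000000000000))) (.non (nat_lit 0) (nat_lit 4) (nat_lit 0x455440) (nat_lit 0x200000001000200030002000100000001000000000000))) (.non (nat_lit 0) (nat_lit 4) (nat_lit 0x555440) (nat_lit 0x300010001000200030004000200000002000000000000))) (.non (nat_lit 0) (nat_lit 4) (nat_lit 0x554454) (nat_lit 0x400030003000200010000000200000006000400050000))) (.non (nat_lit 0) (nat_lit 5) (nat_lit 0x554154) (nat_lit 0x400030003000200010000000000020006000400050000))) (.non (nat_lit 0) (nat_lit 4) (nat_lit 0x400054) (nat_lit 0x100000000000000000000000000000001000100010000))) (.non (nat_lit 0) (nat_lit 4) (nat_lit 0x400044) (nat_lit 0x100000000000000000000000000000001000000010000))) (.non (nat_lit 1) (nat_lit 4)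 (nat_lit 0x455401) (nat_lit 0x100000001000200030002000100000000000000000002)))) (.unj (nat_lit 0x101500) (nat_lit 0x10000000000000001000200020000000000000000) (nat_lit 0x50015) (nat_lit 0x2000100000000000000000000000300040003))) (.non (nat_lit 0) (nat_lit 4) (nat_lit 0x140054) (nat_lit 0x10001000000000000000000000001000100010000))) (.non (nat_lit 0) (nat_lit 4) (nat_lit 0x155050) (nat_lit 0x20002000300020001000000000001000100000000))) (.non (nat_lit 0) (nat_lit 4) (nat_lit 0x155440) (nat_lit 0x20001000200030002000100000001000000000000))) (.non (nat_lit 0) (nat_lit 4) (nat_lit 0x155444) (nat_lit 0x30001000200030004000200000002000000010000)))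

noncomputable def t1121_70 : Tr := (.split (nat_lit 9) (nat_lit 8) (.ex (nat_lit 2) (.ex (nat_lit 3) (.ex (nat_lit 4) t1121_41 (.split (nat_lit 0xa) (nat_lit 0) (.split (nat_lit 0xa) (nat_lit 1) t1121_42 (.star (nat_lit 0xa) (nat_lit 1) (nat_lit 4))) (.star (nat_lit 0xa) (nat_lit 0) (nat_lit 4)))) (.split (nat_lit 0xa) (nat_lit 1) (.split (nat_lit 0xa) (nat_lit 2) t1121_58 (.non (nat_lit 0) (nat_lit 4) (nat_lit 0x100054) (nat_lit 0x10000000000000000000000000001000100010000))) (.non (nat_lit 0) (nat_lit 4) (nat_lit 0x100044) (nat_lit 0x10000000000000000000000000001000000010000)))) (.split (nat_lit 0xa) (nat_lit 1) (.split (nat_lit 0xa) (nat_lit 3) (.split (nat_lit 0xa) (nat_lit 5) (.split (nat_lit 0xa) (nat_lit 6) (.split (nat_lit 0xa) (nat_lit 7) (.split (nat_lit 0xa) (nat_lit 8) (.split (nat_lit 0xa) (nat_lit 9) t1121_64 (.non (nat_lit 0) (nat_lit 4) (nat_lit 0x140010) (nat_lit 0x10001000000000000000000000000000100000000))) (.non (nat_lit 0) (nat_lit 4) (nat_lit 0x155454) (nat_lit 0x50003000400030002000100000002000600040000)))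 (.non (nat_lit 0) (nat_lit 4) (nat_lit 0x155014) (nat_lit 0x20001000100020001000000000000000200010000))) (.non (nat_lit 0) (nat_lit 4) (nat_lit 0x145414) (nat_lit 0x20001000000010002000100000000000200010000))) (.non (nat_lit 0) (nat_lit 4) (nat_lit 0x155454) (nat_lit 0x50003000100020003000400000002000600040000))) (.non (nat_lit 0) (nat_lit 4) (nat_lit 0x100054) (nat_lit 0x10000000000000000000000000001000100010000))) (.non (nat_lit 0) (nat_lit 4) (nat_lit 0x100014) (nat_lit 0x10000000000000000000000000000000100010000)))) (.st (nat_lit 5) (nat_lit 1) (nat_lit 4) (nat_lit 0x55411) (nat_lit 0x2000300040003000200000000000100000002) (nat_lit 1) (nat_lit 1) (.st (nat_lit 2) (nat_lit 0) (nat_lit 4) (nat_lit 0x55454) (nat_lit 0x5000400030002000100000002000600040000) (nat_lit 1) (nat_lit 3) (.st (nat_lit 8) (nat_lit 0) (nat_lit 4) (nat_lit 0x55414) (nat_lit 0x3000400030002000100000000000200010000) (nat_lit 1) (nat_lit 2) (.st (nat_lit 9) (nat_lit 0) (nat_lit 4) (nat_lit 0x55054) (nat_lit 0x4000300020001000000000001000300020000)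 (nat_lit 1) (nat_lit 2) (.ex (nat_lit 3) t1121_65 (.split (nat_lit 0xa) (nat_lit 0) (.split (nat_lit 0xa) (nat_lit 1) (.split (nat_lit 0xa) (nat_lit 2) (.split (nat_lit 0xa) (nat_lit 5) t1121_69 (.non (nat_lit 0) (nat_lit 4) (nat_lit 0x155454) (nat_lit 0x10001000100010001000100000001000100010000))) (.non (nat_lit 0) (nat_lit 4) (nat_lit 0x100054) (nat_lit 0x10000000000000000000000000001000100010000))) (.non (nat_lit 0) (nat_lit 4) (nat_lit 0x100044) (nat_lit 0x10000000000000000000000000001000000010000))) (.non (nat_lit 1) (nat_lit 4) (nat_lit 0x155401) (nat_lit 0x10001000200030002000100000000000000000002)))))))))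

noncomputable def t1121_71 : Tr := (.split (nat_lit 8) (nat_lit 7) (.pd (.cons (nat_lit 0) (nat_lit 6) (nat_lit 0) (nat_lit 0x2770441110) (nat_lit 0xf423ff423fb71ae00000f423f54591f423fb71ae65b9700000) (.cons (nat_lit 0) (nat_lit 7) (nat_lit 0) (nat_lit 0x2805441110) (nat_lit 0xf423ff423f00000f423fb71ae1f156f423fb71ae65b9700000) (.cons (nat_lit 0) (nat_lit 8) (nat_lit 0) (nat_lit 0x2065441110) (nat_lit 0xf423f00000f423fb71aea2c2804737f423fb71ae65b9700000) (.cons (nat_lit 1) (nat_lit 6) (nat_lit 0) (nat_lit 0x700443900) (nat_lit 0xb71aef423fb71ae00000f423f54591f423ff423f0000051611) (.cons (nat_lit 1) (nat_lit 7) (nat_lit 0) (nat_lit 0x805443900) (nat_lit 0xb71aef423f00000f423fb71ae1f156f423ff423f00000a2c28) .nil))))) (.ex (nat_lit 2) (.leaf (.cons (nat_lit 0x5501) (nat_lit 0x20003000400030000000000000001) (.cons (nat_lit 0x44005) (nat_lit 0x1000000010000000000000000000000020002) (.cons (nat_lit 0x40045) (nat_lit 0x1000000000000000000000001000000020002) (.cons (nat_lit 0x40015) (nat_lit 0x1000000000000000000000000000100010001)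 .nil)))) (.cons (nat_lit 0x1110000101) (nat_lit 0x1000010) (nat_lit 3) (nat_lit 0x1430000002) .nil)) (.split (nat_lit 0xa) (nat_lit 0) (.split (nat_lit 0xa) (nat_lit 1) (.split (nat_lit 0xa) (nat_lit 3) (.split (nat_lit 0xa) (nat_lit 4) (.split (nat_lit 0xa) (nat_lit 5) (.split (nat_lit 0xa) (nat_lit 6) (.split (nat_lit 0xa) (nat_lit 7) (.split (nat_lit 0xa) (nat_lit 8) (.split (nat_lit 0xa) (nat_lit 9) (.sup (nat_lit 0x30007000b0010000d0000000000000000) (nat_lit 0x20003000000000000000000000002000400040001)) (.non (nat_lit 0) (nat_lit 4) (nat_lit 0x140010) (nat_lit 0x10001000000000000000000000000000100000000))) (.non (nat_lit 0) (nat_lit 4) (nat_lit 0x155454) (nat_lit 0x50003000400030002000100000002000600040000))) (.non (nat_lit 0) (nat_lit 4) (nat_lit 0x155014) (nat_lit 0x20001000100020001000000000000000200010000))) (.non (nat_lit 0) (nat_lit 4) (nat_lit 0x145414) (nat_lit 0x20001000000010002000100000000000200010000))) (.non (nat_lit 0) (nat_lit 4) (nat_lit 0x155454) (nat_lit 0x50003000100020003000400000002000600040000)))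 (.non (nat_lit 0) (nat_lit 6) (nat_lit 0x140510) (nat_lit 0x30001000000000000000300040000000200000000))) (.non (nat_lit 0) (nat_lit 4) (nat_lit 0x100054) (nat_lit 0x10000000000000000000000000001000100010000))) (.non (nat_lit 0) (nat_lit 4) (nat_lit 0x100014) (nat_lit 0x10000000000000000000000000000000100010000))) (.non (nat_lit 1) (nat_lit 4) (nat_lit 0x155001) (nat_lit 0x10001000100020001000000000000000000000002))))) (.non (nat_lit 1) (nat_lit 4) (nat_lit 0x25001) (nat_lit 0x100020001000000000000000000000001)))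

noncomputable def t1121_72 : Tr := (.split (nat_lit 9) (nat_lit 5) (.split (nat_lit 9) (nat_lit 8) (.st (nat_lit 5) (nat_lit 1) (nat_lit 4) (nat_lit 0x55411) (nat_lit 0x2000200040003000200000000000100000003) (nat_lit 1) (nat_lit 1) (.st (nat_lit 8) (nat_lit 1) (nat_lit 4) (nat_lit 0x55401) (nat_lit 0x1000200030002000100000000000000000002) (nat_lit 1) (nat_lit 1) (.st (nat_lit 9) (nat_lit 1) (nat_lit 4) (nat_lit 0x55011) (nat_lit 0x2000100020001000000000000000100000002) (nat_lit 1) (nat_lit 1) (.ex (nat_lit 4) (.split (nat_lit 9) (nat_lit 2) (.split (nat_lit 7) (nat_lit 0) (.split (nat_lit 9) (nat_lit 0) t1121_71 (.non (nat_lit 1) (nat_lit 4) (nat_lit 0x95001) (nat_lit 0x1000100020001000000000000000000000002))) (.non (nat_lit 1) (nat_lit 4) (nat_lit 0x2a001) (nat_lit 0x100020001000000000000000000000002))) (.non (nat_lit 1) (nat_lit 4) (nat_lit 0x55021) (nat_lit 0x2000100020001000000000000000100000002))) (.split (nat_lit 0xa) (nat_lit 0) (.split (nat_lit 0xa) (nat_lit 1) (.split (nat_lit 0xa) (nat_lit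 5) (.split (nat_lit 0xa) (nat_lit 6) (.split (nat_lit 0xa) (nat_lit 7) (.split (nat_lit 0xa) (nat_lit 8) (.split (nat_lit 0xa) (nat_lit 9) (.split (nat_lit 0xa) (nat_lit 2) (.split (nat_lit 0xa) (nat_lit 3) (.unj (nat_lit 0x55) (nat_lit 0x1000100020002) (nat_lit 0x101500) (nat_lit 0x10000000000000001000200020000000000000000)) (.unj (nat_lit 0x40015) (nat_lit 0x1000000000000000000000000000100010001) (nat_lit 0x101500) (nat_lit 0x10000000000000001000200020000000000000000))) (.split (nat_lit 0xa) (nat_lit 3) (.unj (nat_lit 0x40045) (nat_lit 0x1000000000000000000000001000000020002) (nat_lit 0x101500) (nat_lit 0x10000000000000001000200020000000000000000)) (.non (nat_lit 0) (nat_lit 4) (nat_lit 0x100054) (nat_lit 0x10000000000000000000000000001000100010000)))) (.non (nat_lit 1) (nat_lit 4) (nat_lit 0x155011) (nat_lit 0x10002000100020001000000000000000100000002))) (.non (nat_lit 1) (nat_lit 4) (nat_lit 0x155401) (nat_lit 0x10001000200030002000100000000000000000002))) (.non (nat_lit 1) (nat_lit 4) (nat_lit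 0x115001) (nat_lit 0x10000000100020001000000000000000000000001))) (.non (nat_lit 1) (nat_lit 4) (nat_lit 0x115401) (nat_lit 0x10000000100020002000100000000000000000001))) (.non (nat_lit 1) (nat_lit 4) (nat_lit 0x155411) (nat_lit 0x10002000200040003000200000000000100000003))) (.star (nat_lit 0xa) (nat_lit 1) (nat_lit 4))) (.star (nat_lit 0xa) (nat_lit 0) (nat_lit 4))))))) (.non (nat_lit 1) (nat_lit 4) (nat_lit 0x54001) (nat_lit 0x1000100010000000000000000000000000001))) (.star (nat_lit 9) (nat_lit 0) (nat_lit 5)))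

noncomputable def t1121_73 : Tr := (.split (nat_lit 0xa) (nat_lit 3) (.split (nat_lit 0xa) (nat_lit 9) (.sup (nat_lit 0x2000000040007000b0010000d0000000000000000) (nat_lit 0x3000000000000000000000003000300070002)) (.st (nat_lit 2) (nat_lit 0) (nat_lit 4) (nat_lit 0x155054) (nat_lit 0x40005000300020001000000000003000400060000) (nat_lit 1) (nat_lit 2) (.st (nat_lit 3) (nat_lit 0) (nat_lit 4) (nat_lit 0x155054) (nat_lit 0x40005000300020001000000000004000300060000) (nat_lit 1) (nat_lit 2) (.st (nat_lit 8) (nat_lit 0) (nat_lit 4) (nat_lit 0x155404) (nat_lit 0x30002000400030002000100000000000000010000) (nat_lit 1) (nat_lit 2) (.st (nat_lit 9) (nat_lit 0) (nat_lit 4) (nat_lit 0x155444) (nat_lit 0x50006000400030002000100000002000000040000) (nat_lit 1) (nat_lit 3) (.st (nat_lit 0xa) (nat_lit 0) (nat_lit 4) (nat_lit 0x155044) (nat_lit 0x40003000300020001000000000001000000020000) (nat_lit 1) (nat_lit 2) (.split (nat_lit 0xa) (nat_lit 8) (.split (nat_lit 0xa) (nat_lit 9) (.leaf (.cons (nat_lit 0x5501) (nat_lit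 0x20003000400030000000000000001) (.cons (nat_lit 0x150005) (nat_lit 0x20003000100000000000000000000000000040003) .nil)) (.cons (nat_lit 0x11111001110) (nat_lit 0x100001) (nat_lit 0xb) (nat_lit 0x43567002100) (.cons (nat_lit 0x11110001110) (nat_lit 0x1000001) (nat_lit 0xa) (nat_lit 0x43560002100) .nil))) (.non (nat_lit 0) (nat_lit 4) (nat_lit 0x268004) (nat_lit 0x30004000200010000000000000000000000020000))) (.non (nat_lit 0) (nat_lit 4) (nat_lit 0x295000) (nat_lit 0x20001000300020001000000000000000000000000))))))))) (.split (nat_lit 0xa) (nat_lit 9) (.st (nat_lit 2) (nat_lit 0) (nat_lit 4) (nat_lit 0x155054) (nat_lit 0x40003000300020001000000000005000400060000) (nat_lit 1) (nat_lit 2) (.st (nat_lit 3) (nat_lit 0) (nat_lit 4) (nat_lit 0x155444) (nat_lit 0x50002000400030002000100000006000000040000) (nat_lit 1) (nat_lit 3) (.st (nat_lit 8) (nat_lit 0) (nat_lit 4) (nat_lit 0x115444) (nat_lit 0x30000000400030002000100000002000000010000) (nat_lit 1) (nat_lit 2) (.st (nat_lit 9) (nat_lit 0) (nat_lit 4) (nat_lit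 0x155054) (nat_lit 0x40004000300020001000000000005000300060000) (nat_lit 1) (nat_lit 2) (.st (nat_lit 0xa) (nat_lit 0) (nat_lit 4) (nat_lit 0x155044) (nat_lit 0x40001000300020001000000000003000000020000) (nat_lit 1) (nat_lit 2) (.split (nat_lit 0xa) (nat_lit 3) (.split (nat_lit 0xa) (nat_lit 8) (.leaf (.cons (nat_lit 0x5501) (nat_lit 0x20003000400030000000000000001) (.cons (nat_lit 0x44005) (nat_lit 0x1000000010000000000000000000000020002) (.cons (nat_lit 0x40045) (nat_lit 0x1000000000000000000000001000000020002) (.cons (nat_lit 0x40015) (nat_lit 0x1000000000000000000000000000100020002) .nil)))) (.cons (nat_lit 0x11111001110) (nat_lit 0x100001) (nat_lit 0xb) (nat_lit 0x42567003100) (.cons (nat_lit 0x11110001110) (nat_lit 0x1000001) (nat_lit 0xa) (nat_lit 0x42560003100) .nil))) (.non (nat_lit 0) (nat_lit 4) (nat_lit 0x12a040) (nat_lit 0x40000000300020001000000000002000000000000))) (.non (nat_lit 0) (nat_lit 4) (nat_lit 0x260044) (nat_lit 0x20001000100000000000000000003000000020000)))))))) (.non (nat_lit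 0) (nat_lit 4) (nat_lit 0x140044) (nat_lit 0x10001000000000000000000000001000000010000))))

noncomputable def t1121_74 : Tr := (.split (nat_lit 0xa) (nat_lit 0) (.split (nat_lit 0xa) (nat_lit 1) (.split (nat_lit 0xa) (nat_lit 4) (.split (nat_lit 0xa) (nat_lit 5) (.split (nat_lit 0xa) (nat_lit 6) (.split (nat_lit 0xa) (nat_lit 7) (.split (nat_lit 0xa) (nat_lit 2) t1121_73 (.split (nat_lit 0xa) (nat_lit 3) (.split (nat_lit 0xa) (nat_lit 9) (.st (nat_lit 2) (nat_lit 0) (nat_lit 4) (nat_lit 0x155414) (nat_lit 0x50002000400030002000100000000000600040000) (nat_lit 1) (nat_lit 3) (.st (nat_lit 3) (nat_lit 0) (nat_lit 4) (nat_lit 0x155054) (nat_lit 0x40003000300020001000000000004000500060000) (nat_lit 1) (nat_lit 2) (.st (nat_lit 8) (nat_lit 0) (nat_lit 4) (nat_lit 0x115414) (nat_lit 0x30000000400030002000100000000000200010000) (nat_lit 1) (nat_lit 2) (.st (nat_lit 9) (nat_lit 0) (nat_lit 4) (nat_lit 0x155054) (nat_lit 0x40004000300020001000000000003000500060000) (nat_lit 1) (nat_lit 2) (.st (nat_lit 0xa)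 (nat_lit 0) (nat_lit 4) (nat_lit 0x155014) (nat_lit 0x40001000300020001000000000000000300020000) (nat_lit 1) (nat_lit 2) (.split (nat_lit 0xa) (nat_lit 2) (.split (nat_lit 0xa) (nat_lit 8) (.leaf (.cons (nat_lit 0x5501) (nat_lit 0x20003000400030000000000000001) (.cons (nat_lit 0x44005) (nat_lit 0x1000000010000000000000000000000020002) (.cons (nat_lit 0x40045) (nat_lit 0x1000000000000000000000001000000020002) (.cons (nat_lit 0x40015) (nat_lit 0x1000000000000000000000000000100020002) .nil)))) (.cons (nat_lit 0x11111001110) (nat_lit 0x100001) (nat_lit 0xb) (nat_lit 0x42567001300) (.cons (nat_lit 0x11110001110) (nat_lit 0x1000001) (nat_lit 0xa) (nat_lit 0x42560001300) .nil))) (.non (nat_lit 0) (nat_lit 4) (nat_lit 0x12a010) (nat_lit 0x40000000300020001000000000000000200000000))) (.non (nat_lit 0) (nat_lit 4) (nat_lit 0x260014) (nat_lit 0x20001000100000000000000000000000300020000)))))))) (.non (nat_lit 0) (nat_lit 4) (nat_lit 0x140014) (nat_lit 0x10001000000000000000000000000000100010000))) (.non (nat_lit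 0) (nat_lit 4) (nat_lit 0x100054) (nat_lit 0x10000000000000000000000000001000100010000)))) (.non (nat_lit 0) (nat_lit 4) (nat_lit 0x114000) (nat_lit 0x10000000100010000000000000000000000000000))) (.non (nat_lit 0) (nat_lit 4) (nat_lit 0x115000) (nat_lit 0x10000000100010001000000000000000000000000))) (.non (nat_lit 0) (nat_lit 4) (nat_lit 0x115400) (nat_lit 0x10000000100010001000100000000000000000000))) (.non (nat_lit 0) (nat_lit 6) (nat_lit 0x114500) (nat_lit 0x30000000200010000000300040000000000000000))) (.non (nat_lit 0) (nat_lit 4) (nat_lit 0x140054) (nat_lit 0x10001000000000000000000000001000100020000))) (.non (nat_lit 1) (nat_lit 4) (nat_lit 0x114001) (nat_lit 0x10000000100010000000000000000000000000001)))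

noncomputable def t1121_75 : Tr := (.ex (nat_lit 5) (.split (nat_lit 9) (nat_lit 1) (.split (nat_lit 7) (nat_lit 0) (.split (nat_lit 8) (nat_lit 7) (.pd (.cons (nat_lit 0) (nat_lit 6) (nat_lit 0) (nat_lit 0x1770441110) (nat_lit 0xf423ff423fb71ae00000f423f54591f423ff423f3d08c00000) (.cons (nat_lit 0) (nat_lit 7) (nat_lit 0) (nat_lit 0x1805441110) (nat_lit 0xf423ff423f00000f423fb71ae1f156f423ff423f3d08c00000) (.cons (nat_lit 0) (nat_lit 8) (nat_lit 0) (nat_lit 0x1065441110) (nat_lit 0xf423f00000f423fb71aea2c2804737f423ff423f3d08c00000) (.cons (nat_lit 1) (nat_lit 6) (nat_lit 0) (nat_lit 0x9700443200) (nat_lit 0xf423ff423fb71ae00000f423f54591f423ff423f00000a2c28) (.cons (nat_lit 1) (nat_lit 7) (nat_lit 0) (nat_lit 0x9805443200) (nat_lit 0xf423ff423f00000f423fb71ae1f156f423ff423f00000f423f) .nil))))) (.ex (nat_lit 8) (.leaf (.cons (nat_lit 0x5501) (nat_lit 0x20003000400030000000000000001) (.cons (nat_lit 0x44005) (nat_lit 0x1000000010000000000000000000000020002) (.cons (nat_lit 0x40045) (nat_lit 0x1000000000000000000000001000000020002)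 (.cons (nat_lit 0x40015) (nat_lit 0x1000000000000000000000000000100020002) .nil)))) (.cons (nat_lit 0x111100001) (nat_lit 0x10010) (nat_lit 8) (nat_lit 0x203400001) (.cons (nat_lit 0x111000001) (nat_lit 0x100010) (nat_lit 7) (nat_lit 0x302000001) .nil))) t1121_74)) (.non (nat_lit 1) (nat_lit 4) (nat_lit 0x25001) (nat_lit 0x100020001000000000000000000000001))) (.non (nat_lit 1) (nat_lit 4) (nat_lit 0x2a001) (nat_lit 0x100020001000000000000000000000002))) (.non (nat_lit 0) (nat_lit 4) (nat_lit 0x80054) (nat_lit 0x1000000000000000000000001000100020000))) (.split (nat_lit 0xa) (nat_lit 0) (.split (nat_lit 0xa) (nat_lit 1) (.split (nat_lit 0xa) (nat_lit 6) (.split (nat_lit 0xa) (nat_lit 7) (.split (nat_lit 0xa) (nat_lit 8) (.split (nat_lit 0xa) (nat_lit 2) (.split (nat_lit 0xa) (nat_lit 3) (.split (nat_lit 0xa) (nat_lit 4) (.split (nat_lit 0xa) (nat_lit 9) (.unj (nat_lit 0x55) (nat_lit 0x1000100020002) (nat_lit 0x101500) (nat_lit 0x10000000000000001000200020000000000000000)) (.unj (nat_lit 0x55) (nat_lit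 0x1000100020002) (nat_lit 0x101500) (nat_lit 0x10000000000000001000200020000000000000000))) (.split (nat_lit 0xa) (nat_lit 9) (.unj (nat_lit 0x100500) (nat_lit 0x10000000000000000000100010000000000000000) (nat_lit 0x55) (nat_lit 0x1000100020002)) (.unj (nat_lit 0x100500) (nat_lit 0x10000000000000000000100010000000000000000) (nat_lit 0x55) (nat_lit 0x1000100020002)))) (.split (nat_lit 0xa) (nat_lit 9) (.split (nat_lit 0xa) (nat_lit 4) (.unj (nat_lit 0x40015) (nat_lit 0x1000000000000000000000000000100020002) (nat_lit 0x101500) (nat_lit 0x10000000000000001000200020000000000000000)) (.unj (nat_lit 0x100500) (nat_lit 0x10000000000000000000100010000000000000000) (nat_lit 0x4015) (nat_lit 0x10000000000000000000100020002))) (.non (nat_lit 0) (nat_lit 4) (nat_lit 0x140044) (nat_lit 0x10001000000000000000000000001000000010000)))) (.split (nat_lit 0xa) (nat_lit 3) (.split (nat_lit 0xa) (nat_lit 9) (.split (nat_lit 0xa) (nat_lit 4) (.unj (nat_lit 0x40045) (nat_lit 0x1000000000000000000000001000000020002) (nat_lit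 0x101500) (nat_lit 0x10000000000000001000200020000000000000000)) (.unj (nat_lit 0x100500) (nat_lit 0x10000000000000000000100010000000000000000) (nat_lit 0x4045) (nat_lit 0x10000000000000001000000020002))) (.non (nat_lit 0) (nat_lit 4) (nat_lit 0x140014) (nat_lit 0x10001000000000000000000000000000100010000))) (.non (nat_lit 0) (nat_lit 4) (nat_lit 0x100054) (nat_lit 0x10000000000000000000000000001000100010000)))) (.non (nat_lit 0) (nat_lit 4) (nat_lit 0x115400) (nat_lit 0x10000000100010001000100000000000000000000))) (.non (nat_lit 0) (nat_lit 4) (nat_lit 0x105400) (nat_lit 0x10000000000010001000100000000000000000000))) (.non (nat_lit 0) (nat_lit 4) (nat_lit 0x101400) (nat_lit 0x10000000000000001000100000000000000000000))) (.star (nat_lit 0xa) (nat_lit 1) (nat_lit 5))) (.star (nat_lit 0xa) (nat_lit 0) (nat_lit 5))))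

noncomputable def t1121_76 : Tr := (.split (nat_lit 0xa) (nat_lit 7) (.split (nat_lit 0xa) (nat_lit 2) (.split (nat_lit 0xa) (nat_lit 3) (.split (nat_lit 0xa) (nat_lit 5) (.split (nat_lit 0xa) (nat_lit 8) (.split (nat_lit 0xa) (nat_lit 9) (.unj (nat_lit 0x55) (nat_lit 0x1000100020002) (nat_lit 0x101500) (nat_lit 0x10000000000000001000200020000000000000000)) (.unj (nat_lit 0x55) (nat_lit 0x1000100020002) (nat_lit 0x101500) (nat_lit 0x10000000000000001000200020000000000000000))) (.split (nat_lit 0xa) (nat_lit 9) (.unj (nat_lit 0x55) (nat_lit 0x1000100020002) (nat_lit 0x101500) (nat_lit 0x10000000000000001000200020000000000000000)) (.non (nat_lit 0) (nat_lit 5) (nat_lit 0x155144) (nat_lit 0x40003000300020001000000020001000000020000)))) (.split (nat_lit 0xa) (nat_lit 8) (.split (nat_lit 0xa) (nat_lit 9) (.unj (nat_lit 0x100500) (nat_lit 0x10000000000000000000100010000000000000000) (nat_lit 0x55) (nat_lit 0x1000100020002)) (.unj (nat_lit 0x100500) (nat_lit 0x10000000000000000000100010000000000000000)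 (nat_lit 0x55) (nat_lit 0x1000100020002))) (.non (nat_lit 0) (nat_lit 4) (nat_lit 0x115400) (nat_lit 0x10000000100010001000100000000000000000000)))) (.split (nat_lit 0xa) (nat_lit 8) (.split (nat_lit 0xa) (nat_lit 9) (.split (nat_lit 0xa) (nat_lit 5) (.unj (nat_lit 0x40015) (nat_lit 0x1000000000000000000000000000100020002) (nat_lit 0x101500) (nat_lit 0x10000000000000001000200020000000000000000)) (.unj (nat_lit 0x100500) (nat_lit 0x10000000000000000000100010000000000000000) (nat_lit 0x4015) (nat_lit 0x10000000000000000000100020002))) (.non (nat_lit 0) (nat_lit 4) (nat_lit 0x140044) (nat_lit 0x10001000000000000000000000001000000010000))) (.non (nat_lit 0) (nat_lit 5) (nat_lit 0x155144) (nat_lit 0x40001000300020001000000020003000000020000)))) (.split (nat_lit 0xa) (nat_lit 3) (.split (nat_lit 0xa) (nat_lit 8) (.split (nat_lit 0xa) (nat_lit 9) (.split (nat_lit 0xa) (nat_lit 5) (.unj (nat_lit 0x40045) (nat_lit 0x1000000000000000000000001000000020002) (nat_lit 0x101500) (nat_lit 0x10000000000000001000200020000000000000000))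 (.unj (nat_lit 0x100500) (nat_lit 0x10000000000000000000100010000000000000000) (nat_lit 0x4045) (nat_lit 0x10000000000000001000000020002))) (.non (nat_lit 0) (nat_lit 4) (nat_lit 0x140014) (nat_lit 0x10001000000000000000000000000000100010000))) (.non (nat_lit 0) (nat_lit 5) (nat_lit 0x155114) (nat_lit 0x40001000300020001000000020000000300020000))) (.non (nat_lit 0) (nat_lit 4) (nat_lit 0x100054) (nat_lit 0x10000000000000000000000000001000100010000)))) (.non (nat_lit 1) (nat_lit 4) (nat_lit 0x115001) (nat_lit 0x10000000100020001000000000000000000000001)))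

noncomputable def t1121_77 : Tr := (.ex (nat_lit 5) (.split (nat_lit 9) (nat_lit 1) (.split (nat_lit 8) (nat_lit 7) (.split (nat_lit 9) (nat_lit 8) (.split (nat_lit 7) (nat_lit 0) (.pd (.cons (nat_lit 0) (nat_lit 6) (nat_lit 0) (nat_lit 0x1980441110) (nat_lit 0xa2c28b71aef423f00000f423f54591f423ff423f1e84300000) (.cons (nat_lit 0) (nat_lit 7) (nat_lit 0) (nat_lit 0x1905441110) (nat_lit 0xb71aef423f00000f423fb71ae1f156f423ff423f28b0600000) (.cons (nat_lit 0) (nat_lit 8) (nat_lit 0) (nat_lit 0x1065441110) (nat_lit 0xf423f00000f423fb71aea2c2804737f423ff423f3d08c00000) (.cons (nat_lit 1) (nat_lit 6) (nat_lit 0) (nat_lit 0x8700443200) (nat_lit 0xf423fb71aea2c2800000f423f54591f423ff423f0000098965) (.cons (nat_lit 1) (nat_lit 7) (nat_lit 0) (nat_lit 0x8805443200) (nat_lit 0xf423fb71ae00000f423fb71ae1f156f423ff423f00000f423f) .nil))))) (.leaf (.cons (nat_lit 0x5501) (nat_lit 0x20003000400030000000000000001) (.cons (nat_lit 0x44005) (nat_lit 0x1000000010000000000000000000000020002) (.cons (nat_lit 0x40045)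 (nat_lit 0x1000000000000000000000001000000020002) (.cons (nat_lit 0x40015) (nat_lit 0x1000000000000000000000000000100020002) .nil)))) (.cons (nat_lit 0x1111101110) (nat_lit 0x10001) (nat_lit 0xb) (nat_lit 0x3456702100) (.cons (nat_lit 0x1111001110) (nat_lit 0x100001) (nat_lit 0xa) (nat_lit 0x3456002100) .nil)))) (.non (nat_lit 1) (nat_lit 4) (nat_lit 0x2a001) (nat_lit 0x100020001000000000000000000000002))) (.non (nat_lit 0) (nat_lit 4) (nat_lit 0x6a004) (nat_lit 0x4000300020001000000000000000000020000))) (.non (nat_lit 0) (nat_lit 4) (nat_lit 0xa5400) (nat_lit 0x1000200030002000100000000000000000000))) (.non (nat_lit 0) (nat_lit 4) (nat_lit 0xa8044) (nat_lit 0x3000200010000000000000002000000040000))) (.split (nat_lit 0xa) (nat_lit 0) (.split (nat_lit 0xa) (nat_lit 1) (.split (nat_lit 0xa) (nat_lit 2) (.split (nat_lit 0xa) (nat_lit 3) (.split (nat_lit 0xa) (nat_lit 6) (.split (nat_lit 0xa) (nat_lit 7) (.split (nat_lit 0xa) (nat_lit 8) (.split (nat_lit 0xa) (nat_lit 9) (.split (nat_lit 0xa) (nat_lit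 4) (.unj (nat_lit 0x55) (nat_lit 0x1000100020002) (nat_lit 0x101500) (nat_lit 0x10000000000000001000200020000000000000000)) (.unj (nat_lit 0x100500) (nat_lit 0x10000000000000000000100010000000000000000) (nat_lit 0x55) (nat_lit 0x1000100020002))) (.non (nat_lit 0) (nat_lit 4) (nat_lit 0x155400) (nat_lit 0x10001000100010001000100000000000000000000))) (.non (nat_lit 0) (nat_lit 4) (nat_lit 0x115400) (nat_lit 0x10000000100010001000100000000000000000000))) (.non (nat_lit 0) (nat_lit 4) (nat_lit 0x105400) (nat_lit 0x10000000000010001000100000000000000000000))) (.non (nat_lit 0) (nat_lit 4) (nat_lit 0x101400) (nat_lit 0x10000000000000001000100000000000000000000))) (.non (nat_lit 0) (nat_lit 4) (nat_lit 0x155444) (nat_lit 0x10001000100010001000100000001000000010000))) (.non (nat_lit 0) (nat_lit 4) (nat_lit 0x155414) (nat_lit 0x10001000100010001000100000000000100010000))) (.star (nat_lit 0xa) (nat_lit 1) (nat_lit 5))) (.star (nat_lit 0xa) (nat_lit 0) (nat_lit 5))))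

noncomputable def t1121_78 : Tr := (.split (nat_lit 9) (nat_lit 0) (.split (nat_lit 9) (nat_lit 8) (.st (nat_lit 1) (nat_lit 0) (nat_lit 4) (nat_lit 0x40054) (nat_lit 0x1000000000000000000000001000100020000) (nat_lit 1) (nat_lit 1) (.ex (nat_lit 4) t1121_75 (.split (nat_lit 0xa) (nat_lit 0) (.split (nat_lit 0xa) (nat_lit 1) (.split (nat_lit 0xa) (nat_lit 6) t1121_76 (.non (nat_lit 1) (nat_lit 4) (nat_lit 0x115401) (nat_lit 0x10000000100020002000100000000000000000001))) (.star (nat_lit 0xa) (nat_lit 1) (nat_lit 4))) (.star (nat_lit 0xa) (nat_lit 0) (nat_lit 4))))) (.st (nat_lit 1) (nat_lit 0) (nat_lit 4) (nat_lit 0x40054) (nat_lit 0x1000000000000000000000001000100020000) (nat_lit 1) (nat_lit 1) (.st (nat_lit 2) (nat_lit 0) (nat_lit 4) (nat_lit 0x55454) (nat_lit 0x5000400030002000100000003000400060000) (nat_lit 1) (nat_lit 2) (.st (nat_lit 3) (nat_lit 0) (nat_lit 4) (nat_lit 0x55454) (nat_lit 0x5000400030002000100000004000300060000) (nat_lit 1) (nat_lit 2) (.st (nat_lit 8) (nat_lit 0) (nat_lit 4)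 (nat_lit 0x55444) (nat_lit 0x3000400030002000100000001000000020000) (nat_lit 1) (nat_lit 2) (.st (nat_lit 9) (nat_lit 0) (nat_lit 4) (nat_lit 0x50054) (nat_lit 0x2000100000000000000000001000100020000) (nat_lit 1) (nat_lit 1) (.ex (nat_lit 4) t1121_77 (.split (nat_lit 0xa) (nat_lit 0) (.split (nat_lit 0xa) (nat_lit 1) (.split (nat_lit 0xa) (nat_lit 2) (.split (nat_lit 0xa) (nat_lit 3) (.split (nat_lit 0xa) (nat_lit 6) (.split (nat_lit 0xa) (nat_lit 7) (.split (nat_lit 0xa) (nat_lit 8) (.split (nat_lit 0xa) (nat_lit 9) (.split (nat_lit 0xa) (nat_lit 5) (.unj (nat_lit 0x55) (nat_lit 0x1000100020002) (nat_lit 0x101500) (nat_lit 0x10000000000000001000200020000000000000000)) (.unj (nat_lit 0x100500) (nat_lit 0x10000000000000000000100010000000000000000) (nat_lit 0x55) (nat_lit 0x1000100020002))) (.non (nat_lit 0) (nat_lit 4) (nat_lit 0x150054) (nat_lit 0x10002000100000000000000000001000100020000))) (.non (nat_lit 0) (nat_lit 4) (nat_lit 0x155444) (nat_lit 0x20003000400030002000100000001000000020000))) (.non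 (nat_lit 0) (nat_lit 4) (nat_lit 0x155054) (nat_lit 0x10002000200020001000000000001000100020000))) (.non (nat_lit 0) (nat_lit 4) (nat_lit 0x155454) (nat_lit 0x10002000200020002000100000001000100020000))) (.non (nat_lit 0) (nat_lit 4) (nat_lit 0x155454) (nat_lit 0x20005000400030002000100000004000300060000))) (.non (nat_lit 0) (nat_lit 4) (nat_lit 0x155454) (nat_lit 0x20005000400030002000100000003000400060000))) (.star (nat_lit 0xa) (nat_lit 1) (nat_lit 4))) (.star (nat_lit 0xa) (nat_lit 0) (nat_lit 4)))))))))) (.split (nat_lit 9) (nat_lit 8) (.split (nat_lit 9) (nat_lit 0) (.split (nat_lit 9) (nat_lit 1) (.split (nat_lit 8) (nat_lit 7) (.split (nat_lit 7) (nat_lit 0) (.sup (nat_lit 0x30007000b0010000d0000000000000000) (nat_lit 0x2000000000000000000000002000200040001)) (.non (nat_lit 1) (nat_lit 4) (nat_lit 0x2a001) (nat_lit 0x100020001000000000000000000000002))) (.non (nat_lit 1) (nat_lit 4) (nat_lit 0x25001) (nat_lit 0x100020001000000000000000000000001))) (.non (nat_lit 0) (nat_lit 4) (nat_lit 0x80054)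 (nat_lit 0x1000000000000000000000001000100020000))) (.non (nat_lit 1) (nat_lit 4) (nat_lit 0x95001) (nat_lit 0x1000100020001000000000000000000000002))) (.non (nat_lit 1) (nat_lit 4) (nat_lit 0x54001) (nat_lit 0x1000100010000000000000000000000000001))))

noncomputable def t1121_79 : Tr := (.ex (nat_lit 0xa) (.leaf (.cons (nat_lit 0x5501) (nat_lit 0x20003000400030000000000000001) (.cons (nat_lit 0x44005) (nat_lit 0x1000000010000000000000000000000020002) (.cons (nat_lit 0x40045) (nat_lit 0x1000000000000000000000001000000020002) (.cons (nat_lit 0x40015) (nat_lit 0x1000000000000000000000000000100020002) .nil)))) (.cons (nat_lit 0x11110000001) (nat_lit 0x1000010) (nat_lit 3) (nat_lit 0x43010000002) .nil)) (.split (nat_lit 0xb) (nat_lit 0) (.split (nat_lit 0xb) (nat_lit 2) (.split (nat_lit 0xb) (nat_lit 3) (.split (nat_lit 0xb) (nat_lit 4) (.split (nat_lit 0xb) (nat_lit 5) (.split (nat_lit 0xb) (nat_lit 6) (.split (nat_lit 0xb) (nat_lit 7) (.split (nat_lit 0xb) (nat_lit 8) (.split (nat_lit 0xb) (nat_lit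 9) (.split (nat_lit 0xb) (nat_lit 1) (.st (nat_lit 0xa) (nat_lit 1) (nat_lit 4) (nat_lit 0x555001) (nat_lit 0x100020002000100020001000000000000000000000002) (nat_lit 1) (nat_lit 1) (.st (nat_lit 0xb) (nat_lit 1) (nat_lit 4) (nat_lit 0x555401) (nat_lit 0x200030004000300060004000200000000000000000005) (nat_lit 1) (nat_lit 1) (.split (nat_lit 0xb) (nat_lit 0xa) (.leaf (.cons (nat_lit 0x5501) (nat_lit 0x20003000400030000000000000001) (.cons (nat_lit 0x540005) (nat_lit 0x100020003000000000000000000000000000000030004) .nil)) (.cons (nat_lit 0x111111100001) (nat_lit 0x10010) (nat_lit 0xe) (nat_lit 0x765102300004) (.cons (nat_lit 0x111111000001) (nat_lit 0x100010) (nat_lit 0xa) (nat_lit 0x654201000003) .nil))) (.non (nat_lit 1) (nat_lit 4) (nat_lit 0x955001) (nat_lit 0x100020002000100020001000000000000000000000002))))) (.sup (nat_lit 0x40007000b0010000d0000000000000000) (nat_lit 0x300020002000000000000000000000002000200040001))) (.non (nat_lit 0) (nat_lit 4) (nat_lit 0x540000) (nat_lit 0x100010001000000000000000000000000000000000000)))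 (.non (nat_lit 1) (nat_lit 4) (nat_lit 0x554001) (nat_lit 0x100010001000100010000000000000000000000000001))) (.non (nat_lit 1) (nat_lit 4) (nat_lit 0x544001) (nat_lit 0x100010001000000010000000000000000000000000001))) (.non (nat_lit 1) (nat_lit 4) (nat_lit 0x545001) (nat_lit 0x100010001000000010001000000000000000000000001))) (.non (nat_lit 1) (nat_lit 4) (nat_lit 0x545401) (nat_lit 0x100010001000000010001000100000000000000000001))) (.non (nat_lit 0) (nat_lit 6) (nat_lit 0x540500) (nat_lit 0x300020001000000000000000300040000000000000000))) (.non (nat_lit 1) (nat_lit 4) (nat_lit 0x555441) (nat_lit 0x200030004000300060004000200000001000000000005))) (.non (nat_lit 1) (nat_lit 4) (nat_lit 0x555411) (nat_lit 0x200030004000300060004000200000000000100000005))) (.non (nat_lit 1) (nat_lit 4) (nat_lit 0x540001) (nat_lit 0x100010001000000000000000000000000000000000001))))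

noncomputable def t1121_80 : Tr := (.pd (.cons (nat_lit 0) (nat_lit 6) (nat_lit 0) (nat_lit 0x9770441110) (nat_lit 0xf423ff423fb71ae00000f423f54591f423ff423f7a11d00000) (.cons (nat_lit 0) (nat_lit 7) (nat_lit 0) (nat_lit 0x9805441110) (nat_lit 0xf423ff423f00000f423fb71ae1f156f423ff423f7a11d00000) (.cons (nat_lit 0) (nat_lit 8) (nat_lit 0) (nat_lit 0x9065441110) (nat_lit 0xf423f00000f423fb71aea2c2804737f423ff423f7a11d00000) (.cons (nat_lit 1) (nat_lit 6) (nat_lit 0) (nat_lit 0x700443200) (nat_lit 0xf423ff423fb71ae00000f423f54591f423ff423f0000065b97) (.cons (nat_lit 1) (nat_lit 7) (nat_lit 0) (nat_lit 0x805443200) (nat_lit 0xf423ff423f00000f423fb71ae1f156f423ff423f00000b71ae) .nil))))) (.ex (nat_lit 9) (.leaf (.cons (nat_lit 0x5501) (nat_lit 0x20003000400030000000000000001) (.cons (nat_lit 0x44005) (nat_lit 0x1000000010000000000000000000000020002) (.cons (nat_lit 0x40045) (nat_lit 0x1000000000000000000000001000000020002) (.cons (nat_lit 0x40015) (nat_lit 0x1000000000000000000000000000100020002) .nil))))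 (.cons (nat_lit 0x1110000001) (nat_lit 0x1000010) (nat_lit 2) (nat_lit 0x3010000002) .nil)) (.split (nat_lit 0xa) (nat_lit 0) (.split (nat_lit 0xa) (nat_lit 4) (.split (nat_lit 0xa) (nat_lit 5) (.split (nat_lit 0xa) (nat_lit 6) (.split (nat_lit 0xa) (nat_lit 7) (.split (nat_lit 0xa) (nat_lit 8) (.split (nat_lit 0xa) (nat_lit 1) (.split (nat_lit 0xa) (nat_lit 2) (.split (nat_lit 0xa) (nat_lit 3) (.st (nat_lit 9) (nat_lit 1) (nat_lit 4) (nat_lit 0x155001) (nat_lit 0x10002000100020001000000000000000000000002) (nat_lit 1) (nat_lit 1) (.split (nat_lit 0xa) (nat_lit 9) t1121_79 (.non (nat_lit 1) (nat_lit 4) (nat_lit 0x255001) (nat_lit 0x10002000100020001000000000000000000000002)))) (.sup (nat_lit 0x6000c00160020001a0000000000000000) (nat_lit 0x60005000000000000000000000008000500090004))) (.split (nat_lit 0xa) (nat_lit 3) (.sup (nat_lit 0x6000c00160020001a0000000000000000) (nat_lit 0x60005000000000000000000000005000800090004)) (.non (nat_lit 0) (nat_lit 4) (nat_lit 0x100054) (nat_lit 0x10000000000000000000000000001000100010000))))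 (.split (nat_lit 0xa) (nat_lit 2) (.split (nat_lit 0xa) (nat_lit 3) (.sup (nat_lit 0x30007000b0010000d0000000000000000) (nat_lit 0x30002000000000000000000000002000200040001)) (.non (nat_lit 0) (nat_lit 4) (nat_lit 0x100044) (nat_lit 0x10000000000000000000000000001000000010000))) (.non (nat_lit 0) (nat_lit 4) (nat_lit 0x100014) (nat_lit 0x10000000000000000000000000000000100010000)))) (.non (nat_lit 1) (nat_lit 4) (nat_lit 0x154001) (nat_lit 0x10001000100010000000000000000000000000001))) (.non (nat_lit 1) (nat_lit 4) (nat_lit 0x144001) (nat_lit 0x10001000000010000000000000000000000000001))) (.non (nat_lit 1) (nat_lit 4) (nat_lit 0x145001) (nat_lit 0x10001000000010001000000000000000000000001))) (.non (nat_lit 1) (nat_lit 4) (nat_lit 0x145401) (nat_lit 0x10001000000010001000100000000000000000001))) (.non (nat_lit 0) (nat_lit 7) (nat_lit 0x101500) (nat_lit 0x10000000000000001000200020000000000000000))) (.non (nat_lit 1) (nat_lit 4) (nat_lit 0x140001) (nat_lit 0x10001000000000000000000000000000000000001)))))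

noncomputable def t1121_81 : Tr := (.ex (nat_lit 4) (.ex (nat_lit 5) (.split (nat_lit 7) (nat_lit 0) (.split (nat_lit 9) (nat_lit 0) (.split (nat_lit 8) (nat_lit 7) t1121_80 (.non (nat_lit 1) (nat_lit 4) (nat_lit 0x25001) (nat_lit 0x100020001000000000000000000000001))) (.non (nat_lit 1) (nat_lit 4) (nat_lit 0x95001) (nat_lit 0x1000100020001000000000000000000000002))) (.non (nat_lit 1) (nat_lit 4) (nat_lit 0x2a001) (nat_lit 0x100020001000000000000000000000002))) (.split (nat_lit 0xa) (nat_lit 0) (.split (nat_lit 0xa) (nat_lit 1) (.split (nat_lit 0xa) (nat_lit 6) (.split (nat_lit 0xa) (nat_lit 7) (.split (nat_lit 0xa) (nat_lit 8) (.split (nat_lit 0xa) (nat_lit 9) (.split (nat_lit 0xa) (nat_lit 2) (.split (nat_lit 0xa) (nat_lit 3) (.split (nat_lit 0xa) (nat_lit 4) (.unj (nat_lit 0x55) (nat_lit 0x1000100020002) (nat_lit 0x101500) (nat_lit 0x10000000000000001000200020000000000000000)) (.unj (nat_lit 0x100500) (nat_lit 0x10000000000000000000100010000000000000000) (nat_lit 0x55) (nat_lit 0x1000100020002)))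 (.split (nat_lit 0xa) (nat_lit 4) (.unj (nat_lit 0x40015) (nat_lit 0x1000000000000000000000000000100020002) (nat_lit 0x101500) (nat_lit 0x10000000000000001000200020000000000000000)) (.unj (nat_lit 0x100500) (nat_lit 0x10000000000000000000100010000000000000000) (nat_lit 0x4015) (nat_lit 0x10000000000000000000100020002)))) (.split (nat_lit 0xa) (nat_lit 3) (.split (nat_lit 0xa) (nat_lit 4) (.unj (nat_lit 0x40045) (nat_lit 0x1000000000000000000000001000000020002) (nat_lit 0x101500) (nat_lit 0x10000000000000001000200020000000000000000)) (.unj (nat_lit 0x100500) (nat_lit 0x10000000000000000000100010000000000000000) (nat_lit 0x4045) (nat_lit 0x10000000000000001000000020002))) (.non (nat_lit 0) (nat_lit 4) (nat_lit 0x100054) (nat_lit 0x10000000000000000000000000001000100010000)))) (.non (nat_lit 1) (nat_lit 4) (nat_lit 0x145401) (nat_lit 0x10001000000010001000100000000000000000001))) (.non (nat_lit 0) (nat_lit 4) (nat_lit 0x115400) (nat_lit 0x10000000100010001000100000000000000000000))) (.non (nat_lit 0)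 (nat_lit 4) (nat_lit 0x105400) (nat_lit 0x10000000000010001000100000000000000000000))) (.non (nat_lit 0) (nat_lit 4) (nat_lit 0x101400) (nat_lit 0x10000000000000001000100000000000000000000))) (.star (nat_lit 0xa) (nat_lit 1) (nat_lit 5))) (.star (nat_lit 0xa) (nat_lit 0) (nat_lit 5)))) (.split (nat_lit 0xa) (nat_lit 0) (.split (nat_lit 0xa) (nat_lit 1) (.split (nat_lit 0xa) (nat_lit 6) (.split (nat_lit 0xa) (nat_lit 7) (.split (nat_lit 0xa) (nat_lit 8) (.split (nat_lit 0xa) (nat_lit 2) (.split (nat_lit 0xa) (nat_lit 3) (.split (nat_lit 0xa) (nat_lit 5) (.split (nat_lit 0xa) (nat_lit 9) (.unj (nat_lit 0x55) (nat_lit 0x1000100020002) (nat_lit 0x101500) (nat_lit 0x10000000000000001000200020000000000000000)) (.unj (nat_lit 0x55) (nat_lit 0x1000100020002) (nat_lit 0x101500) (nat_lit 0x10000000000000001000200020000000000000000))) (.split (nat_lit 0xa) (nat_lit 9) (.unj (nat_lit 0x100500) (nat_lit 0x10000000000000000000100010000000000000000) (nat_lit 0x55) (nat_lit 0x1000100020002)) (.non (nat_lit 1) (nat_lit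 4) (nat_lit 0x145401) (nat_lit 0x10001000000010001000100000000000000000001)))) (.split (nat_lit 0xa) (nat_lit 9) (.split (nat_lit 0xa) (nat_lit 5) (.unj (nat_lit 0x40015) (nat_lit 0x1000000000000000000000000000100020002) (nat_lit 0x101500) (nat_lit 0x10000000000000001000200020000000000000000)) (.unj (nat_lit 0x100500) (nat_lit 0x10000000000000000000100010000000000000000) (nat_lit 0x4015) (nat_lit 0x10000000000000000000100020002))) (.non (nat_lit 1) (nat_lit 5) (nat_lit 0x155141) (nat_lit 0x20002000100020001000000010001000000000002)))) (.split (nat_lit 0xa) (nat_lit 3) (.split (nat_lit 0xa) (nat_lit 9) (.split (nat_lit 0xa) (nat_lit 5) (.unj (nat_lit 0x40045) (nat_lit 0x1000000000000000000000001000000020002) (nat_lit 0x101500) (nat_lit 0x10000000000000001000200020000000000000000)) (.unj (nat_lit 0x100500) (nat_lit 0x10000000000000000000100010000000000000000) (nat_lit 0x4045) (nat_lit 0x10000000000000001000000020002))) (.non (nat_lit 1) (nat_lit 5) (nat_lit 0x155111) (nat_lit 0x20002000100020001000000010000000100000002)))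 (.non (nat_lit 0) (nat_lit 4) (nat_lit 0x100054) (nat_lit 0x10000000000000000000000000001000100010000)))) (.non (nat_lit 1) (nat_lit 4) (nat_lit 0x155401) (nat_lit 0x10001000200030002000100000000000000000002))) (.non (nat_lit 1) (nat_lit 4) (nat_lit 0x115001) (nat_lit 0x10000000100020001000000000000000000000001))) (.non (nat_lit 1) (nat_lit 4) (nat_lit 0x115401) (nat_lit 0x10000000100020002000100000000000000000001))) (.star (nat_lit 0xa) (nat_lit 1) (nat_lit 4))) (.star (nat_lit 0xa) (nat_lit 0) (nat_lit 4))))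

noncomputable def t1121_82 : Tr := (.split (nat_lit 8) (nat_lit 7) (.pd (.cons (nat_lit 0) (nat_lit 6) (nat_lit 0) (nat_lit 0x3770441110) (nat_lit 0xf423ff423fb71ae00000f423f54591b71aef423f65b9700000) (.cons (nat_lit 0) (nat_lit 7) (nat_lit 0) (nat_lit 0x3805441110) (nat_lit 0xf423ff423f00000f423fb71ae1f156b71aef423f65b9700000) (.cons (nat_lit 0) (nat_lit 8) (nat_lit 0) (nat_lit 0x3065441110) (nat_lit 0xf423f00000f423fb71aea2c2804737b71aef423f65b9700000) (.cons (nat_lit 1) (nat_lit 6) (nat_lit 0) (nat_lit 0x700449200) (nat_lit 0xb71aef423fb71ae00000f423f54591f423ff423f0000051611) (.cons (nat_lit 1) (nat_lit 7) (nat_lit 0) (nat_lit 0x805449200) (nat_lit 0xb71aef423f00000f423fb71ae1f156f423ff423f00000a2c28) .nil))))) (.ex (nat_lit 3) (.leaf (.cons (nat_lit 0x5501) (nat_lit 0x20003000400030000000000000001) (.cons (nat_lit 0x44005) (nat_lit 0x1000000010000000000000000000000020002) (.cons (nat_lit 0x40045) (nat_lit 0x1000000000000000000000001000000010001) (.cons (nat_lit 0x40015) (nat_lit 0x1000000000000000000000000000100020002)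 .nil)))) (.cons (nat_lit 0x1110001001) (nat_lit 0x1000010) (nat_lit 3) (nat_lit 0x1430000002) .nil)) (.split (nat_lit 0xa) (nat_lit 0) (.split (nat_lit 0xa) (nat_lit 1) (.split (nat_lit 0xa) (nat_lit 2) (.split (nat_lit 0xa) (nat_lit 4) (.split (nat_lit 0xa) (nat_lit 5) (.split (nat_lit 0xa) (nat_lit 6) (.split (nat_lit 0xa) (nat_lit 7) (.split (nat_lit 0xa) (nat_lit 8) (.split (nat_lit 0xa) (nat_lit 9) (.sup (nat_lit 0x30007000b0010000d0000000000000000) (nat_lit 0x20003000000000000000000000004000200040001)) (.non (nat_lit 0) (nat_lit 4) (nat_lit 0x140040) (nat_lit 0x10001000000000000000000000001000000000000))) (.non (nat_lit 0) (nat_lit 4) (nat_lit 0x155454) (nat_lit 0x50003000400030002000100000006000200040000))) (.non (nat_lit 0) (nat_lit 4) (nat_lit 0x155044) (nat_lit 0x20001000100020001000000000002000000010000))) (.non (nat_lit 0) (nat_lit 4) (nat_lit 0x145444) (nat_lit 0x20001000000010002000100000002000000010000))) (.non (nat_lit 0) (nat_lit 4) (nat_lit 0x155454) (nat_lit 0x50003000100020003000400000006000200040000)))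 (.non (nat_lit 0) (nat_lit 6) (nat_lit 0x140540) (nat_lit 0x30001000000000000000300040002000000000000))) (.non (nat_lit 0) (nat_lit 4) (nat_lit 0x100054) (nat_lit 0x10000000000000000000000000001000100010000))) (.non (nat_lit 0) (nat_lit 4) (nat_lit 0x100044) (nat_lit 0x10000000000000000000000000001000000010000))) (.non (nat_lit 1) (nat_lit 4) (nat_lit 0x155001) (nat_lit 0x10001000100020001000000000000000000000002))))) (.non (nat_lit 1) (nat_lit 4) (nat_lit 0x25001) (nat_lit 0x100020001000000000000000000000001)))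

noncomputable def t1121_83 : Tr := (.split (nat_lit 9) (nat_lit 3) (.st (nat_lit 0) (nat_lit 1) (nat_lit 4) (nat_lit 0x55001) (nat_lit 0x1000100020001000000000000000000000002) (nat_lit 1) (nat_lit 1) (.st (nat_lit 8) (nat_lit 1) (nat_lit 4) (nat_lit 0x55401) (nat_lit 0x1000200030002000100000000000000000002) (nat_lit 1) (nat_lit 1) t1121_81)) (.st (nat_lit 5) (nat_lit 1) (nat_lit 4) (nat_lit 0x55441) (nat_lit 0x2000200040003000200000001000000000003) (nat_lit 1) (nat_lit 1) (.st (nat_lit 0) (nat_lit 1) (nat_lit 4) (nat_lit 0x55001) (nat_lit 0x1000100020001000000000000000000000002) (nat_lit 1) (nat_lit 1) (.st (nat_lit 8) (nat_lit 1) (nat_lit 4) (nat_lit 0x55401) (nat_lit 0x1000200030002000100000000000000000002) (nat_lit 1) (nat_lit 1) (.st (nat_lit 9) (nat_lit 1) (nat_lit 4) (nat_lit 0x55041) (nat_lit 0x2000100020001000000000001000000000002) (nat_lit 1) (nat_lit 1) (.ex (nat_lit 4) (.split (nat_lit 9) (nat_lit 3) (.split (nat_lit 7) (nat_lit 0) (.split (nat_lit 9) (nat_lit 0) t1121_82 (.non (nat_lit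 1) (nat_lit 4) (nat_lit 0x95001) (nat_lit 0x1000100020001000000000000000000000002))) (.non (nat_lit 1) (nat_lit 4) (nat_lit 0x2a001) (nat_lit 0x100020001000000000000000000000002))) (.non (nat_lit 1) (nat_lit 4) (nat_lit 0x55081) (nat_lit 0x2000100020001000000000001000000000002))) (.split (nat_lit 0xa) (nat_lit 0) (.split (nat_lit 0xa) (nat_lit 1) (.split (nat_lit 0xa) (nat_lit 5) (.split (nat_lit 0xa) (nat_lit 6) (.split (nat_lit 0xa) (nat_lit 7) (.split (nat_lit 0xa) (nat_lit 8) (.split (nat_lit 0xa) (nat_lit 9) (.split (nat_lit 0xa) (nat_lit 2) (.split (nat_lit 0xa) (nat_lit 3) (.unj (nat_lit 0x55) (nat_lit 0x1000100020002) (nat_lit 0x101500) (nat_lit 0x10000000000000001000200020000000000000000)) (.unj (nat_lit 0x40015) (nat_lit 0x1000000000000000000000000000100020002) (nat_lit 0x101500) (nat_lit 0x10000000000000001000200020000000000000000))) (.split (nat_lit 0xa) (nat_lit 3) (.unj (nat_lit 0x40045) (nat_lit 0x1000000000000000000000001000000010001) (nat_lit 0x101500) (nat_lit 0x10000000000000001000200020000000000000000))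 (.non (nat_lit 0) (nat_lit 4) (nat_lit 0x100054) (nat_lit 0x10000000000000000000000000001000100010000)))) (.non (nat_lit 1) (nat_lit 4) (nat_lit 0x155041) (nat_lit 0x10002000100020001000000000001000000000002))) (.non (nat_lit 1) (nat_lit 4) (nat_lit 0x155401) (nat_lit 0x10001000200030002000100000000000000000002))) (.non (nat_lit 1) (nat_lit 4) (nat_lit 0x115001) (nat_lit 0x10000000100020001000000000000000000000001))) (.non (nat_lit 1) (nat_lit 4) (nat_lit 0x115401) (nat_lit 0x10000000100020002000100000000000000000001))) (.non (nat_lit 1) (nat_lit 4) (nat_lit 0x155441) (nat_lit 0x10002000200040003000200000001000000000003))) (.star (nat_lit 0xa) (nat_lit 1) (nat_lit 4))) (.star (nat_lit 0xa) (nat_lit 0) (nat_lit 4)))))))))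

noncomputable def t1121_84 : Tr := (.split (nat_lit 8) (nat_lit 7) (.pd (.cons (nat_lit 0) (nat_lit 6) (nat_lit 0) (nat_lit 0x2770441110) (nat_lit 0xf423ff423fb71ae00000f423f54591f423fb71ae65b9700000) (.cons (nat_lit 0) (nat_lit 7) (nat_lit 0) (nat_lit 0x2805441110) (nat_lit 0xf423ff423f00000f423fb71ae1f156f423fb71ae65b9700000) (.cons (nat_lit 0) (nat_lit 8) (nat_lit 0) (nat_lit 0x2065441110) (nat_lit 0xf423f00000f423fb71aea2c2804737f423fb71ae65b9700000) (.cons (nat_lit 1) (nat_lit 6) (nat_lit 0) (nat_lit 0x700443900) (nat_lit 0xb71aef423fb71ae00000f423f54591f423ff423f0000051611) (.cons (nat_lit 1) (nat_lit 7) (nat_lit 0) (nat_lit 0x805443900) (nat_lit 0xb71aef423f00000f423fb71ae1f156f423ff423f00000a2c28) .nil))))) (.ex (nat_lit 2) (.leaf (.cons (nat_lit 0x5501) (nat_lit 0x20003000400030000000000000001) (.cons (nat_lit 0x44005) (nat_lit 0x1000000010000000000000000000000020002) (.cons (nat_lit 0x40045) (nat_lit 0x1000000000000000000000001000000020002) (.cons (nat_lit 0x40015) (nat_lit 0x1000000000000000000000000000100010001)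 .nil)))) (.cons (nat_lit 0x1110000101) (nat_lit 0x1000010) (nat_lit 3) (nat_lit 0x1430000002) .nil)) (.split (nat_lit 0xa) (nat_lit 0) (.split (nat_lit 0xa) (nat_lit 1) (.split (nat_lit 0xa) (nat_lit 3) (.split (nat_lit 0xa) (nat_lit 4) (.split (nat_lit 0xa) (nat_lit 5) (.split (nat_lit 0xa) (nat_lit 6) (.split (nat_lit 0xa) (nat_lit 7) (.split (nat_lit 0xa) (nat_lit 8) (.split (nat_lit 0xa) (nat_lit 9) (.sup (nat_lit 0x30007000b0010000d0000000000000000) (nat_lit 0x20003000000000000000000000002000400040001)) (.non (nat_lit 0) (nat_lit 4) (nat_lit 0x140010) (nat_lit 0x10001000000000000000000000000000100000000))) (.non (nat_lit 0) (nat_lit 4) (nat_lit 0x155454) (nat_lit 0x50003000400030002000100000002000600040000))) (.non (nat_lit 0) (nat_lit 4) (nat_lit 0x155014) (nat_lit 0x20001000100020001000000000000000200010000))) (.non (nat_lit 0) (nat_lit 4) (nat_lit 0x145414) (nat_lit 0x20001000000010002000100000000000200010000))) (.non (nat_lit 0) (nat_lit 4) (nat_lit 0x155454) (nat_lit 0x50003000100020003000400000002000600040000)))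 (.non (nat_lit 0) (nat_lit 6) (nat_lit 0x140510) (nat_lit 0x30001000000000000000300040000000200000000))) (.non (nat_lit 0) (nat_lit 4) (nat_lit 0x100054) (nat_lit 0x10000000000000000000000000001000100010000))) (.non (nat_lit 0) (nat_lit 4) (nat_lit 0x100014) (nat_lit 0x10000000000000000000000000000000100010000))) (.non (nat_lit 1) (nat_lit 4) (nat_lit 0x155001) (nat_lit 0x10001000100020001000000000000000000000002))))) (.non (nat_lit 1) (nat_lit 4) (nat_lit 0x25001) (nat_lit 0x100020001000000000000000000000001)))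

noncomputable def t1121_85 : Tr := (.split (nat_lit 9) (nat_lit 3) (.st (nat_lit 5) (nat_lit 1) (nat_lit 4) (nat_lit 0x55411) (nat_lit 0x2000200040003000200000000000100000003) (nat_lit 1) (nat_lit 1) (.st (nat_lit 0) (nat_lit 1) (nat_lit 4) (nat_lit 0x55001) (nat_lit 0x1000100020001000000000000000000000002) (nat_lit 1) (nat_lit 1) (.st (nat_lit 8) (nat_lit 1) (nat_lit 4) (nat_lit 0x55401) (nat_lit 0x1000200030002000100000000000000000002) (nat_lit 1) (nat_lit 1) (.st (nat_lit 9) (nat_lit 1) (nat_lit 4) (nat_lit 0x55011) (nat_lit 0x2000100020001000000000000000100000002) (nat_lit 1) (nat_lit 1) (.ex (nat_lit 4) (.split (nat_lit 9) (nat_lit 2) (.split (nat_lit 7) (nat_lit 0) (.split (nat_lit 9) (nat_lit 0) t1121_84 (.non (nat_lit 1) (nat_lit 4) (nat_lit 0x95001) (nat_lit 0x1000100020001000000000000000000000002))) (.non (nat_lit 1) (nat_lit 4) (nat_lit 0x2a001) (nat_lit 0x100020001000000000000000000000002))) (.non (nat_lit 1) (nat_lit 4) (nat_lit 0x55021) (nat_lit 0x2000100020001000000000000000100000002)))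 (.split (nat_lit 0xa) (nat_lit 0) (.split (nat_lit 0xa) (nat_lit 1) (.split (nat_lit 0xa) (nat_lit 5) (.split (nat_lit 0xa) (nat_lit 6) (.split (nat_lit 0xa) (nat_lit 7) (.split (nat_lit 0xa) (nat_lit 8) (.split (nat_lit 0xa) (nat_lit 9) (.split (nat_lit 0xa) (nat_lit 2) (.split (nat_lit 0xa) (nat_lit 3) (.unj (nat_lit 0x55) (nat_lit 0x1000100020002) (nat_lit 0x101500) (nat_lit 0x10000000000000001000200020000000000000000)) (.unj (nat_lit 0x40015) (nat_lit 0x1000000000000000000000000000100010001) (nat_lit 0x101500) (nat_lit 0x10000000000000001000200020000000000000000))) (.split (nat_lit 0xa) (nat_lit 3) (.unj (nat_lit 0x40045) (nat_lit 0x1000000000000000000000001000000020002) (nat_lit 0x101500) (nat_lit 0x10000000000000001000200020000000000000000)) (.non (nat_lit 0) (nat_lit 4) (nat_lit 0x100054) (nat_lit 0x10000000000000000000000000001000100010000)))) (.non (nat_lit 1) (nat_lit 4) (nat_lit 0x155011) (nat_lit 0x10002000100020001000000000000000100000002))) (.non (nat_lit 1) (nat_lit 4) (nat_lit 0x155401)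 (nat_lit 0x10001000200030002000100000000000000000002))) (.non (nat_lit 1) (nat_lit 4) (nat_lit 0x115001) (nat_lit 0x10000000100020001000000000000000000000001))) (.non (nat_lit 1) (nat_lit 4) (nat_lit 0x115401) (nat_lit 0x10000000100020002000100000000000000000001))) (.non (nat_lit 1) (nat_lit 4) (nat_lit 0x155411) (nat_lit 0x10002000200040003000200000000000100000003))) (.star (nat_lit 0xa) (nat_lit 1) (nat_lit 4))) (.star (nat_lit 0xa) (nat_lit 0) (nat_lit 4)))))))) (.non (nat_lit 0) (nat_lit 4) (nat_lit 0x40054) (nat_lit 0x1000000000000000000000001000100010000)))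

noncomputable def t1121_86 : Tr := (.ex (nat_lit 0) (.ex (nat_lit 1) (.ex (nat_lit 2) t1121_32 (.split (nat_lit 9) (nat_lit 1) (.split (nat_lit 9) (nat_lit 3) (.split (nat_lit 9) (nat_lit 6) (.split (nat_lit 9) (nat_lit 7) (.split (nat_lit 9) (nat_lit 0) (.split (nat_lit 9) (nat_lit 4) (.split (nat_lit 9) (nat_lit 5) t1121_70 (.split (nat_lit 9) (nat_lit 8) (.sup (nat_lit 0x3000100050004) (nat_lit 0x1000000000003000500040000000000000000)) (.non (nat_lit 0) (nat_lit 4) (nat_lit 0x55400) (nat_lit 0x1000100010001000100000000000000000000)))) (.split (nat_lit 9) (nat_lit 8) (.split (nat_lit 9) (nat_lit 5) (.sup (nat_lit 0x50002000a0008) (nat_lit 0x2000000000005000a00090000000000000000)) (.unj (nat_lit 0x40500) (nat_lit 0x1000000000000000100010000000000000000) (nat_lit 0x4045) (nat_lit 0x10000000000000001000000020002))) (.non (nat_lit 0) (nat_lit 5) (nat_lit 0x55154) (nat_lit 0x4000300020001000000020001000300020000)))) (.split (nat_lit 9) (nat_lit 4) t1121_72 (.star (nat_lit 9) (nat_lit 0) (nat_lit 4))))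 (.non (nat_lit 1) (nat_lit 4) (nat_lit 0x55001) (nat_lit 0x1000100020001000000000000000000000001))) (.non (nat_lit 1) (nat_lit 4) (nat_lit 0x55401) (nat_lit 0x1000100020002000100000000000000000001))) (.non (nat_lit 0) (nat_lit 4) (nat_lit 0x40054) (nat_lit 0x1000000000000000000000001000100010000))) (.non (nat_lit 0) (nat_lit 4) (nat_lit 0x40014) (nat_lit 0x1000000000000000000000000000100010000)))) (.split (nat_lit 9) (nat_lit 2) (.split (nat_lit 9) (nat_lit 3) (.split (nat_lit 9) (nat_lit 4) (.split (nat_lit 9) (nat_lit 5) (.split (nat_lit 9) (nat_lit 6) (.split (nat_lit 9) (nat_lit 7) t1121_78 (.non (nat_lit 0) (nat_lit 4) (nat_lit 0x55054) (nat_lit 0x2000100020001000000000001000100020000))) (.non (nat_lit 0) (nat_lit 4) (nat_lit 0x45454) (nat_lit 0x2000000010002000100000001000100020000))) (.star (nat_lit 9) (nat_lit 1) (nat_lit 5))) (.star (nat_lit 9) (nat_lit 1) (nat_lit 4))) (.non (nat_lit 0) (nat_lit 4) (nat_lit 0x40044) (nat_lit 0x1000000000000000000000001000000010000))) (.non (nat_lit 0) (nat_lit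 4) (nat_lit 0x40014) (nat_lit 0x1000000000000000000000000000100010000)))) (.split (nat_lit 9) (nat_lit 4) (.split (nat_lit 9) (nat_lit 5) (.split (nat_lit 9) (nat_lit 6) (.split (nat_lit 9) (nat_lit 7) (.split (nat_lit 9) (nat_lit 8) (.split (nat_lit 9) (nat_lit 1) (.split (nat_lit 9) (nat_lit 2) t1121_83 t1121_85) (.split (nat_lit 9) (nat_lit 2) (.split (nat_lit 9) (nat_lit 3) (.split (nat_lit 9) (nat_lit 0) (.split (nat_lit 9) (nat_lit 1) (.split (nat_lit 8) (nat_lit 7) (.split (nat_lit 7) (nat_lit 0) (.sup (nat_lit 0x30007000b0010000d0000000000000000) (nat_lit 0x2000000000000000000000002000200040001)) (.non (nat_lit 1) (nat_lit 4) (nat_lit 0x2a001) (nat_lit 0x100020001000000000000000000000002))) (.non (nat_lit 1) (nat_lit 4) (nat_lit 0x25001) (nat_lit 0x100020001000000000000000000000001))) (.non (nat_lit 0) (nat_lit 4) (nat_lit 0x80054) (nat_lit 0x1000000000000000000000001000100020000))) (.non (nat_lit 1) (nat_lit 4) (nat_lit 0x95001) (nat_lit 0x1000100020001000000000000000000000002))) (.non (nat_lit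 0) (nat_lit 4) (nat_lit 0x40044) (nat_lit 0x1000000000000000000000001000000010000))) (.non (nat_lit 0) (nat_lit 4) (nat_lit 0x40014) (nat_lit 0x1000000000000000000000000000100010000)))) (.non (nat_lit 1) (nat_lit 4) (nat_lit 0x54001) (nat_lit 0x1000100010000000000000000000000000001))) (.non (nat_lit 1) (nat_lit 4) (nat_lit 0x44001) (nat_lit 0x1000000010000000000000000000000000001))) (.non (nat_lit 1) (nat_lit 4) (nat_lit 0x45001) (nat_lit 0x1000000010001000000000000000000000001))) (.star (nat_lit 9) (nat_lit 0) (nat_lit 5))) (.star (nat_lit 9) (nat_lit 0) (nat_lit 4))))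

noncomputable def t1121_87 : Tr := (.ex (nat_lit 5) (.split (nat_lit 8) (nat_lit 3) (.split (nat_lit 8) (nat_lit 7) (.split (nat_lit 7) (nat_lit 0) (.pd (.cons (nat_lit 0) (nat_lit 6) (nat_lit 0) (nat_lit 0x380441110) (nat_lit 0xb71aef423f00000f423f54591a2c28f423f5b8d400000) (.cons (nat_lit 0) (nat_lit 7) (nat_lit 0) (nat_lit 0x305441110) (nat_lit 0xf423f00000f423fb71ae1f156b71aef423f65b9700000) (.cons (nat_lit 0) (nat_lit 8) (nat_lit 0) (nat_lit 0x65441110) (nat_lit 0xf423fb71aea2c2804737f423ff423f7a11d00000) (.cons (nat_lit 1) (nat_lit 6) (nat_lit 0) (nat_lit 0x700448200) (nat_lit 0xb71aea2c2800000f423f54591f423ff423f0000098965) (.cons (nat_lit 1) (nat_lit 7) (nat_lit 0) (nat_lit 0x305443200) (nat_lit 0xf423f00000f423fb71ae1f156b71aef423f00000f423f) (.cons (nat_lit 2) (nat_lit 7) (nat_lit 0) (nat_lit 0x305441000) (nat_lit 0xf423f00000f423fb71ae1f156b71ae00000a2c2804737) (.cons (nat_lit 3) (nat_lit 7) (nat_lit 0) (nat_lit 0x805440100) (nat_lit 0xf423f00000f423fb71ae1f15600000f423fb71ae1f156) .nil)))))))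 (.leaf (.cons (nat_lit 0x5501) (nat_lit 0x20003000400030000000000000001) (.cons (nat_lit 0x15005) (nat_lit 0x100020001000000000000000000020002) (.cons (nat_lit 0x4045) (nat_lit 0x10000000000000001000000020002) (.cons (nat_lit 0x4015) (nat_lit 0x10000000000000000000100020002) .nil)))) (.cons (nat_lit 0x111101001) (nat_lit 0x10010) (nat_lit 0xc) (nat_lit 0x402305001) .nil))) (.non (nat_lit 1) (nat_lit 4) (nat_lit 0x2a001) (nat_lit 0x100020001000000000000000000000002))) (.non (nat_lit 0) (nat_lit 4) (nat_lit 0x1a840) (nat_lit 0x400030002000100000002000000000000))) (.non (nat_lit 0) (nat_lit 4) (nat_lit 0x2a044) (nat_lit 0x300020001000000000004000000020000))) (.split (nat_lit 9) (nat_lit 0) (.split (nat_lit 9) (nat_lit 1) (.split (nat_lit 9) (nat_lit 2) (.split (nat_lit 9) (nat_lit 3) (.split (nat_lit 9) (nat_lit 6) (.split (nat_lit 9) (nat_lit 7) (.split (nat_lit 9) (nat_lit 8) (.split (nat_lit 9) (nat_lit 4) (.unj (nat_lit 0x55) (nat_lit 0x1000100020002) (nat_lit 0x41500) (nat_lit 0x1000000000001000200020000000000000000))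 (.unj (nat_lit 0x40500) (nat_lit 0x1000000000000000100010000000000000000) (nat_lit 0x55) (nat_lit 0x1000100020002))) (.non (nat_lit 0) (nat_lit 4) (nat_lit 0x55400) (nat_lit 0x1000100010001000100000000000000000000))) (.non (nat_lit 0) (nat_lit 4) (nat_lit 0x45400) (nat_lit 0x1000000010001000100000000000000000000))) (.non (nat_lit 0) (nat_lit 4) (nat_lit 0x41400) (nat_lit 0x1000000000001000100000000000000000000))) (.non (nat_lit 0) (nat_lit 4) (nat_lit 0x55440) (nat_lit 0x1000100010001000100000001000000000000))) (.non (nat_lit 0) (nat_lit 4) (nat_lit 0x55454) (nat_lit 0x1000100010001000100000001000100010000))) (.star (nat_lit 9) (nat_lit 1) (nat_lit 5))) (.star (nat_lit 9) (nat_lit 0) (nat_lit 5))))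

noncomputable def t1121_88 : Tr := (.ex (nat_lit 4) (.split (nat_lit 8) (nat_lit 3) (.split (nat_lit 9) (nat_lit 3) (.split (nat_lit 8) (nat_lit 7) (.split (nat_lit 7) (nat_lit 0) (.pd (.cons (nat_lit 0) (nat_lit 6) (nat_lit 0) (nat_lit 0x3380441110) (nat_lit 0xf423fb71aef423f00000f423f5459165b97f423f249e800000) (.cons (nat_lit 0) (nat_lit 7) (nat_lit 0) (nat_lit 0x3305441110) (nat_lit 0xf423ff423f00000f423fb71ae1f1567a11df423f3d08a00000) (.cons (nat_lit 0) (nat_lit 8) (nat_lit 0) (nat_lit 0x3065441110) (nat_lit 0xf423f00000f423fb71aea2c2804737b71aef423f65b9700000) (.cons (nat_lit 1) (nat_lit 6) (nat_lit 0) (nat_lit 0x3700448200) (nat_lit 0xf423fa2c289896500000f423f54591b71aef423f00000927bd) (.cons (nat_lit 1) (nat_lit 7) (nat_lit 0) (nat_lit 0x3305443200) (nat_lit 0xf423ff423f00000f423fb71ae1f1567a11df423f00000f423f) (.cons (nat_lit 3) (nat_lit 7) (nat_lit 0) (nat_lit 0x9805440100) (nat_lit 0xf423ff423f00000f423fb71ae1f15600000f423fb71ae1f156) .nil)))))) (.leaf (.cons (nat_lit 0x5501) (nat_lit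 0x20003000400030000000000000001) (.cons (nat_lit 0x15005) (nat_lit 0x100020001000000000000000000020002) (.cons (nat_lit 0x50045) (nat_lit 0x1000100000000000000000002000000020002) (.cons (nat_lit 0x4015) (nat_lit 0x10000000000000000000100020002) .nil)))) (.cons (nat_lit 0x1111101001) (nat_lit 0x10010) (nat_lit 0xd) (nat_lit 0x6402305001) (.cons (nat_lit 0x1111001001) (nat_lit 0x100010) (nat_lit 9) (nat_lit 0x5302004001) .nil)))) (.non (nat_lit 1) (nat_lit 4) (nat_lit 0x2a001) (nat_lit 0x100020001000000000000000000000002))) (.non (nat_lit 0) (nat_lit 4) (nat_lit 0x5a040) (nat_lit 0x1000300020001000000000002000000000000))) (.non (nat_lit 0) (nat_lit 4) (nat_lit 0x90044) (nat_lit 0x1000100000000000000000002000000010000))) (.non (nat_lit 0) (nat_lit 4) (nat_lit 0x6a040) (nat_lit 0x2000300020001000000000004000000000000))) (.split (nat_lit 0xa) (nat_lit 0) (.split (nat_lit 0xa) (nat_lit 1) (.split (nat_lit 0xa) (nat_lit 2) (.split (nat_lit 0xa) (nat_lit 3) (.split (nat_lit 0xa) (nat_lit 5) (.split (nat_lit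 0xa) (nat_lit 6) (.split (nat_lit 0xa) (nat_lit 7) (.split (nat_lit 0xa) (nat_lit 8) (.split (nat_lit 0xa) (nat_lit 9) (.unj (nat_lit 0x55) (nat_lit 0x1000100020002) (nat_lit 0x101500) (nat_lit 0x10000000000000001000200020000000000000000)) (.non (nat_lit 0) (nat_lit 4) (nat_lit 0x154054) (nat_lit 0x10002000200010000000000000003000100020000))) (.non (nat_lit 0) (nat_lit 4) (nat_lit 0x154044) (nat_lit 0x10001000200010000000000000002000000010000))) (.non (nat_lit 0) (nat_lit 4) (nat_lit 0x155044) (nat_lit 0x10001000200020001000000000002000000010000))) (.non (nat_lit 0) (nat_lit 4) (nat_lit 0x155444) (nat_lit 0x10001000200020002000100000002000000010000))) (.non (nat_lit 0) (nat_lit 4) (nat_lit 0x155454) (nat_lit 0x10003000500040003000200000006000200040000))) (.non (nat_lit 0) (nat_lit 4) (nat_lit 0x150044) (nat_lit 0x10001000100000000000000000002000000010000))) (.non (nat_lit 0) (nat_lit 4) (nat_lit 0x155054) (nat_lit 0x10002000300020001000000000004000200030000))) (.star (nat_lit 0xa) (nat_lit 1) (nat_lit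 4))) (.star (nat_lit 0xa) (nat_lit 0) (nat_lit 4))))

noncomputable def t1121_89 : Tr := (.ex (nat_lit 3) (.ex (nat_lit 4) t1121_87 (.split (nat_lit 9) (nat_lit 0) (.split (nat_lit 9) (nat_lit 1) (.split (nat_lit 9) (nat_lit 3) (.split (nat_lit 9) (nat_lit 6) (.split (nat_lit 9) (nat_lit 7) (.split (nat_lit 9) (nat_lit 8) (.split (nat_lit 9) (nat_lit 2) (.split (nat_lit 9) (nat_lit 5) (.unj (nat_lit 0x55) (nat_lit 0x1000100020002) (nat_lit 0x41500) (nat_lit 0x1000000000001000200020000000000000000)) (.unj (nat_lit 0x40500) (nat_lit 0x1000000000000000100010000000000000000) (nat_lit 0x55) (nat_lit 0x1000100020002))) (.split (nat_lit 9) (nat_lit 5) (.sup (nat_lit 0x50002000a0008) (nat_lit 0x2000000000005000a00090000000000000000)) (.non (nat_lit 0) (nat_lit 4) (nat_lit 0x55454) (nat_lit 0x1000100010001000100000001000100010000)))) (.non (nat_lit 0) (nat_lit 4) (nat_lit 0x55454) (nat_lit 0x2000400030002000100000003000100020000))) (.non (nat_lit 1) (nat_lit 4) (nat_lit 0x55001) (nat_lit 0x1000100020001000000000000000000000001)))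 (.non (nat_lit 1) (nat_lit 4) (nat_lit 0x55401) (nat_lit 0x1000100020002000100000000000000000001))) (.non (nat_lit 0) (nat_lit 5) (nat_lit 0x54154) (nat_lit 0x2000200010000000000010003000100020000))) (.star (nat_lit 9) (nat_lit 1) (nat_lit 4))) (.star (nat_lit 9) (nat_lit 0) (nat_lit 4)))) (.split (nat_lit 9) (nat_lit 0) (.split (nat_lit 9) (nat_lit 1) (.split (nat_lit 9) (nat_lit 2) (.split (nat_lit 9) (nat_lit 4) (.split (nat_lit 9) (nat_lit 5) (.split (nat_lit 9) (nat_lit 6) (.split (nat_lit 9) (nat_lit 7) (.split (nat_lit 9) (nat_lit 8) (.st (nat_lit 5) (nat_lit 0) (nat_lit 4) (nat_lit 0x55454) (nat_lit 0x3000500040003000200000006000200040000) (nat_lit 1) (nat_lit 1) (.st (nat_lit 3) (nat_lit 0) (nat_lit 4) (nat_lit 0x50044) (nat_lit 0x1000100000000000000000002000000010000) (nat_lit 1) (nat_lit 1) (.st (nat_lit 9) (nat_lit 0) (nat_lit 4) (nat_lit 0x54054) (nat_lit 0x2000200010000000000000003000100020000) (nat_lit 1) (nat_lit 1) t1121_88))) (.non (nat_lit 0) (nat_lit 4) (nat_lit 0x50040) (nat_lit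 0x1000100000000000000000001000000000000))) (.non (nat_lit 0) (nat_lit 4) (nat_lit 0x54040) (nat_lit 0x1000100010000000000000001000000000000))) (.non (nat_lit 0) (nat_lit 4) (nat_lit 0x55040) (nat_lit 0x1000100010001000000000001000000000000))) (.non (nat_lit 0) (nat_lit 4) (nat_lit 0x55440) (nat_lit 0x1000100010001000100000001000000000000))) (.non (nat_lit 0) (nat_lit 5) (nat_lit 0x54154) (nat_lit 0x2000200010000000000010003000100020000))) (.non (nat_lit 0) (nat_lit 4) (nat_lit 0x40054) (nat_lit 0x1000000000000000000000001000100010000))) (.non (nat_lit 0) (nat_lit 4) (nat_lit 0x40044) (nat_lit 0x1000000000000000000000001000000010000))) (.non (nat_lit 1) (nat_lit 4) (nat_lit 0x54041) (nat_lit 0x1000100010000000000000001000000000001))))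

noncomputable def t1121_90 : Tr := (.pd (.cons (nat_lit 0) (nat_lit 6) (nat_lit 0) (nat_lit 0x2380441110) (nat_lit 0xf423fb71aef423f00000f423f54591a2c28b71ae4734e00000) (.cons (nat_lit 0) (nat_lit 7) (nat_lit 0) (nat_lit 0x2305441110) (nat_lit 0xf423ff423f00000f423fb71ae1f156b71aeb71ae5161100000) (.cons (nat_lit 0) (nat_lit 8) (nat_lit 0) (nat_lit 0x2065441110) (nat_lit 0xf423f00000f423fb71aea2c2804737f423fb71ae65b9700000) (.cons (nat_lit 1) (nat_lit 6) (nat_lit 0) (nat_lit 0x2700448200) (nat_lit 0xf423fb71aea2c2800000f423f54591f423fb71ae0000098965) (.cons (nat_lit 1) (nat_lit 7) (nat_lit 0) (nat_lit 0x2305443200) (nat_lit 0xf423ff423f00000f423fb71ae1f156b71aeb71ae00000f423f) (.cons (nat_lit 2) (nat_lit 7) (nat_lit 0) (nat_lit 0x9305441000) (nat_lit 0xf423ff423f00000f423fb71ae1f156b71ae00000a2c2804737) .nil)))))) (.ex (nat_lit 9) (.pd (.cons (nat_lit 3) (nat_lit 7) (nat_lit 0) (nat_lit 0x2805440100) (nat_lit 0xf423ff423f00000f423fb71ae1f15600000b71aea2c2804737) .nil) (.leaf (.cons (nat_lit 0x5501)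 (nat_lit 0x20003000400030000000000000001) (.cons (nat_lit 0x15005) (nat_lit 0x100020001000000000000000000020002) (.cons (nat_lit 0x4045) (nat_lit 0x10000000000000001000000020002) (.cons (nat_lit 0x4015) (nat_lit 0x10000000000000000000100020002) .nil)))) (.cons (nat_lit 0x1110001110) (nat_lit 0x1000001) (nat_lit 4) (nat_lit 0x5100002430) .nil))) (.split (nat_lit 0xa) (nat_lit 0) (.split (nat_lit 0xa) (nat_lit 1) (.split (nat_lit 0xa) (nat_lit 2) (.split (nat_lit 0xa) (nat_lit 3) (.split (nat_lit 0xa) (nat_lit 4) (.split (nat_lit 0xa) (nat_lit 5) (.split (nat_lit 0xa) (nat_lit 6) (.split (nat_lit 0xa) (nat_lit 7) (.split (nat_lit 0xa) (nat_lit 8) (.leaf (.cons (nat_lit 0x5501) (nat_lit 0x20003000400030000000000000001) (.cons (nat_lit 0x15005) (nat_lit 0x100020001000000000000000000020002) (.cons (nat_lit 0x4045) (nat_lit 0x10000000000000001000000020002) (.cons (nat_lit 0x140015) (nat_lit 0x10002000000000000000000000000000300040003) .nil)))) (.cons (nat_lit 0x111101001) (nat_lit 0x10010) (nat_lit 0xc)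 (nat_lit 0x402305001) .nil)) (.non (nat_lit 0) (nat_lit 4) (nat_lit 0x155450) (nat_lit 0x30002000400030002000100000002000100000000))) (.non (nat_lit 0) (nat_lit 4) (nat_lit 0x155440) (nat_lit 0x20001000200030002000100000001000000000000))) (.non (nat_lit 0) (nat_lit 4) (nat_lit 0x155450) (nat_lit 0x30002000200030004000200000001000100000000))) (.non (nat_lit 0) (nat_lit 4) (nat_lit 0x155454) (nat_lit 0x10001000100010001000100000001000100010000))) (.non (nat_lit 0) (nat_lit 6) (nat_lit 0x140510) (nat_lit 0x30002000000000000000300040000000100000000))) (.non (nat_lit 0) (nat_lit 4) (nat_lit 0x140054) (nat_lit 0x10001000000000000000000000001000100010000))) (.non (nat_lit 0) (nat_lit 4) (nat_lit 0x140010) (nat_lit 0x10001000000000000000000000000000100000000))) (.non (nat_lit 0) (nat_lit 4) (nat_lit 0x140014) (nat_lit 0x10001000000000000000000000000000100010000))) (.non (nat_lit 1) (nat_lit 4) (nat_lit 0x115441) (nat_lit 0x10000000200030002000100000001000000000002)))))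

noncomputable def t1121_91 : Tr := (.ex (nat_lit 5) (.split (nat_lit 9) (nat_lit 2) (.split (nat_lit 8) (nat_lit 3) (.split (nat_lit 8) (nat_lit 7) (.split (nat_lit 7) (nat_lit 0) t1121_90 (.non (nat_lit 1) (nat_lit 4) (nat_lit 0x2a001) (nat_lit 0x100020001000000000000000000000002))) (.non (nat_lit 0) (nat_lit 4) (nat_lit 0x1a840) (nat_lit 0x400030002000100000002000000000000))) (.non (nat_lit 0) (nat_lit 4) (nat_lit 0x2a044) (nat_lit 0x300020001000000000004000000020000))) (.split (nat_lit 9) (nat_lit 2) (.split (nat_lit 8) (nat_lit 3) (.split (nat_lit 8) (nat_lit 7) (.split (nat_lit 7) (nat_lit 0) (.pd (.cons (nat_lit 0) (nat_lit 6) (nat_lit 0) (nat_lit 0x2380441110) (nat_lit 0xf423fb71aef423f00000f423f54591a2c287a11e1e84200000) (.cons (nat_lit 0) (nat_lit 7) (nat_lit 0) (nat_lit 0x2305441110) (nat_lit 0xf423ff423f00000f423fb71ae1f156b71ae7a11e28b0500000) (.cons (nat_lit 0) (nat_lit 8) (nat_lit 0) (nat_lit 0x2065441110) (nat_lit 0xf423f00000f423fb71aea2c2804737f423f7a11e3d08b00000) (.cons (nat_lit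 1) (nat_lit 6) (nat_lit 0) (nat_lit 0x2700448200) (nat_lit 0xf423fb71aea2c2800000f423f54591f423f7a11e0000098965) (.cons (nat_lit 1) (nat_lit 7) (nat_lit 0) (nat_lit 0x2305443200) (nat_lit 0xf423ff423f00000f423fb71ae1f156b71ae7a11e00000f423f) (.cons (nat_lit 2) (nat_lit 7) (nat_lit 0) (nat_lit 0x9305441000) (nat_lit 0xf423ff423f00000f423fb71ae1f156b71ae00000a2c2804737) .nil)))))) (.leaf (.cons (nat_lit 0x5501) (nat_lit 0x20003000400030000000000000001) (.cons (nat_lit 0x15005) (nat_lit 0x100020001000000000000000000020002) (.cons (nat_lit 0x4045) (nat_lit 0x10000000000000001000000020002) (.cons (nat_lit 0x40015) (nat_lit 0x1000000000000000000000000000100010001) .nil)))) (.cons (nat_lit 0x111101001) (nat_lit 0x10010) (nat_lit 0xc) (nat_lit 0x402305001) .nil))) (.non (nat_lit 1) (nat_lit 4) (nat_lit 0x2a001) (nat_lit 0x100020001000000000000000000000002))) (.non (nat_lit 0) (nat_lit 4) (nat_lit 0x1a840) (nat_lit 0x400030002000100000002000000000000))) (.non (nat_lit 0) (nat_lit 4) (nat_lit 0x2a044) (nat_lit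 0x300020001000000000004000000020000))) (.non (nat_lit 0) (nat_lit 4) (nat_lit 0x50054) (nat_lit 0x3000100000000000000000002000400030000)))) (.split (nat_lit 0xa) (nat_lit 0) (.split (nat_lit 0xa) (nat_lit 1) (.split (nat_lit 0xa) (nat_lit 2) (.split (nat_lit 0xa) (nat_lit 3) (.split (nat_lit 0xa) (nat_lit 6) (.split (nat_lit 0xa) (nat_lit 7) (.split (nat_lit 0xa) (nat_lit 8) (.split (nat_lit 0xa) (nat_lit 9) (.split (nat_lit 0xa) (nat_lit 4) (.unj (nat_lit 0x55) (nat_lit 0x1000100020002) (nat_lit 0x101500) (nat_lit 0x10000000000000001000200020000000000000000)) (.unj (nat_lit 0x100500) (nat_lit 0x10000000000000000000100010000000000000000) (nat_lit 0x55) (nat_lit 0x1000100020002))) (.non (nat_lit 0) (nat_lit 4) (nat_lit 0x155454) (nat_lit 0x10001000100010001000100000001000100010000))) (.non (nat_lit 0) (nat_lit 4) (nat_lit 0x115400) (nat_lit 0x10000000100010001000100000000000000000000))) (.non (nat_lit 0) (nat_lit 4) (nat_lit 0x105400) (nat_lit 0x10000000000010001000100000000000000000000))) (.non (nat_lit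 0) (nat_lit 4) (nat_lit 0x101400) (nat_lit 0x10000000000000001000100000000000000000000))) (.non (nat_lit 0) (nat_lit 4) (nat_lit 0x115440) (nat_lit 0x10000000100010001000100000001000000000000))) (.non (nat_lit 0) (nat_lit 4) (nat_lit 0x151454) (nat_lit 0x30002000100000001000200000002000400030000))) (.star (nat_lit 0xa) (nat_lit 1) (nat_lit 5))) (.star (nat_lit 0xa) (nat_lit 0) (nat_lit 5))))

noncomputable def t1121_92 : Tr := (.ex (nat_lit 5) (.split (nat_lit 9) (nat_lit 2) (.split (nat_lit 0xa) (nat_lit 2) (.split (nat_lit 8) (nat_lit 3) (.split (nat_lit 8) (nat_lit 7) (.split (nat_lit 7) (nat_lit 0) (.pd (.cons (nat_lit 0) (nat_lit 6) (nat_lit 0) (nat_lit 0x22380441110) (nat_lit 0xf423ff423fb71aef423f00000f423f54591a2c287a11d1e84100000) (.cons (nat_lit 0) (nat_lit 7) (nat_lit 0) (nat_lit 0x22305441110) (nat_lit 0xf423ff423ff423f00000f423fb71ae1f156b71ae7a11d28b0400000) (.cons (nat_lit 0) (nat_lit 8) (nat_lit 0) (nat_lit 0x22065441110) (nat_lit 0xf423ff423f00000f423fb71aea2c2804737f423f7a11d3d08a00000)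 (.cons (nat_lit 1) (nat_lit 6) (nat_lit 0) (nat_lit 0x22700448200) (nat_lit 0xf423ff423fb71aea2c2800000f423f54591f423f7a11d0000098965) (.cons (nat_lit 1) (nat_lit 7) (nat_lit 0) (nat_lit 0x22305443200) (nat_lit 0xf423ff423ff423f00000f423fb71ae1f156b71ae7a11d00000f423f) (.cons (nat_lit 2) (nat_lit 7) (nat_lit 0) (nat_lit 0xa9305441000) (nat_lit 0xf423ff423ff423f00000f423fb71ae1f156b71ae00000a2c2804737) .nil)))))) (.leaf (.cons (nat_lit 0x5501) (nat_lit 0x20003000400030000000000000001) (.cons (nat_lit 0x15005) (nat_lit 0x100020001000000000000000000020002) (.cons (nat_lit 0x4045) (nat_lit 0x10000000000000001000000020002) (.cons (nat_lit 0x140015) (nat_lit 0x10001000000000000000000000000000200020002) .nil)))) (.cons (nat_lit 0x11110001110) (nat_lit 0x1000001) (nat_lit 0xa) (nat_lit 0x21560004030) .nil))) (.non (nat_lit 1) (nat_lit 4) (nat_lit 0x2a001) (nat_lit 0x100020001000000000000000000000002))) (.non (nat_lit 0) (nat_lit 4) (nat_lit 0x1a840) (nat_lit 0x400030002000100000002000000000000))) (.non (nat_lit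 0) (nat_lit 4) (nat_lit 0x2a044) (nat_lit 0x300020001000000000004000000020000))) (.non (nat_lit 0) (nat_lit 4) (nat_lit 0x240014) (nat_lit 0x10001000000000000000000000000000200010000))) (.non (nat_lit 0) (nat_lit 4) (nat_lit 0x180014) (nat_lit 0x10001000000000000000000000000000200010000))) (.split (nat_lit 0xb) (nat_lit 0) (.split (nat_lit 0xb) (nat_lit 1) (.split (nat_lit 0xb) (nat_lit 2) (.split (nat_lit 0xb) (nat_lit 3) (.split (nat_lit 0xb) (nat_lit 6) (.split (nat_lit 0xb) (nat_lit 7) (.split (nat_lit 0xb) (nat_lit 8) (.split (nat_lit 0xb) (nat_lit 9) (.split (nat_lit 0xb) (nat_lit 0xa) (.split (nat_lit 0xb) (nat_lit 4) (.unj (nat_lit 0x55) (nat_lit 0x1000100020002) (nat_lit 0x401500) (nat_lit 0x100000000000000000001000200020000000000000000)) (.unj (nat_lit 0x400500) (nat_lit 0x100000000000000000000000100010000000000000000) (nat_lit 0x55) (nat_lit 0x1000100020002))) (.non (nat_lit 0) (nat_lit 4) (nat_lit 0x555054) (nat_lit 0x200040003000300020001000000000004000600050000))) (.non (nat_lit 0)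 (nat_lit 4) (nat_lit 0x555054) (nat_lit 0x200030004000300020001000000000004000600050000))) (.non (nat_lit 0) (nat_lit 4) (nat_lit 0x415400) (nat_lit 0x100000000000100010001000100000000000000000000))) (.non (nat_lit 0) (nat_lit 4) (nat_lit 0x405400) (nat_lit 0x100000000000000010001000100000000000000000000))) (.non (nat_lit 0) (nat_lit 4) (nat_lit 0x401400) (nat_lit 0x100000000000000000001000100000000000000000000))) (.non (nat_lit 0) (nat_lit 4) (nat_lit 0x415440) (nat_lit 0x100000000000100010001000100000001000000000000))) (.non (nat_lit 0) (nat_lit 4) (nat_lit 0x540014) (nat_lit 0x100010001000000000000000000000000000200010000))) (.star (nat_lit 0xb) (nat_lit 1) (nat_lit 5))) (.star (nat_lit 0xb) (nat_lit 0) (nat_lit 5))))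

noncomputable def t1121_93 : Tr := (.split (nat_lit 0xa) (nat_lit 5) (.split (nat_lit 0xa) (nat_lit 6) (.split (nat_lit 0xa) (nat_lit 7) (.split (nat_lit 0xa) (nat_lit 8) (.split (nat_lit 0xa) (nat_lit 9) (.st (nat_lit 2) (nat_lit 0) (nat_lit 4) (nat_lit 0x140014) (nat_lit 0x10001000000000000000000000000000200010000) (nat_lit 1) (nat_lit 1) (.st (nat_lit 9) (nat_lit 0) (nat_lit 4) (nat_lit 0x155054) (nat_lit 0x30004000300020001000000000004000600050000) (nat_lit 1) (nat_lit 2) (.st (nat_lit 0xa) (nat_lit 0) (nat_lit 4) (nat_lit 0x155054) (nat_lit 0x40003000300020001000000000004000600050000) (nat_lit 1) (nat_lit 2) (.ex (nat_lit 4) t1121_92 (.split (nat_lit 0xb) (nat_lit 0) (.split (nat_lit 0xb) (nat_lit 1) (.split (nat_lit 0xb) (nat_lit 2) (.split (nat_lit 0xb) (nat_lit 3) (.split (nat_lit 0xb) (nat_lit 6) (.split (nat_lit 0xb) (nat_lit 7) (.split (nat_lit 0xb) (nat_lit 8) (.split (nat_lit 0xb) (nat_lit 9) (.split (nat_lit 0xb) (nat_lit 0xa) (.split (nat_lit 0xb) (nat_lit 5) (.unj (nat_lit 0x55)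 (nat_lit 0x1000100020002) (nat_lit 0x401500) (nat_lit 0x100000000000000000001000200020000000000000000)) (.unj (nat_lit 0x400500) (nat_lit 0x100000000000000000000000100010000000000000000) (nat_lit 0x55) (nat_lit 0x1000100020002))) (.non (nat_lit 0) (nat_lit 4) (nat_lit 0x555054) (nat_lit 0x200040003000300020001000000000004000600050000))) (.non (nat_lit 0) (nat_lit 4) (nat_lit 0x555054) (nat_lit 0x200030004000300020001000000000004000600050000))) (.non (nat_lit 0) (nat_lit 4) (nat_lit 0x554054) (nat_lit 0x100010001000200010000000000000002000200020000))) (.non (nat_lit 0) (nat_lit 4) (nat_lit 0x555054) (nat_lit 0x100010001000200020001000000000002000200020000))) (.non (nat_lit 0) (nat_lit 4) (nat_lit 0x555454) (nat_lit 0x100010001000200020002000100000002000200020000))) (.non (nat_lit 0) (nat_lit 4) (nat_lit 0x550054) (nat_lit 0x100010001000100000000000000000002000200020000))) (.non (nat_lit 0) (nat_lit 4) (nat_lit 0x540014) (nat_lit 0x100010001000000000000000000000000000200010000))) (.star (nat_lit 0xb)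 (nat_lit 1) (nat_lit 4))) (.star (nat_lit 0xb) (nat_lit 0) (nat_lit 4))))))) (.non (nat_lit 0) (nat_lit 4) (nat_lit 0x140010) (nat_lit 0x10001000000000000000000000000000100000000))) (.non (nat_lit 0) (nat_lit 4) (nat_lit 0x155450) (nat_lit 0x30001000400030002000100000002000200000000))) (.non (nat_lit 0) (nat_lit 4) (nat_lit 0x115450) (nat_lit 0x20000000200030002000100000001000100000000))) (.non (nat_lit 0) (nat_lit 4) (nat_lit 0x155450) (nat_lit 0x30001000200030004000200000001000200000000))) (.non (nat_lit 0) (nat_lit 4) (nat_lit 0x151454) (nat_lit 0x30002000100000001000200000002000400030000)))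

noncomputable def t1121_94 : Tr := (.split (nat_lit 9) (nat_lit 7) (.split (nat_lit 9) (nat_lit 8) (.split (nat_lit 9) (nat_lit 4) (.st (nat_lit 3) (nat_lit 0) (nat_lit 4) (nat_lit 0x55054) (nat_lit 0x1000300020001000000000004000200030000) (nat_lit 1) (nat_lit 2) (.ex (nat_lit 2) (.ex (nat_lit 4) t1121_91 (.split (nat_lit 0xa) (nat_lit 0) (.split (nat_lit 0xa) (nat_lit 1) (.split (nat_lit 0xa) (nat_lit 2) (.split (nat_lit 0xa) (nat_lit 3) (.split (nat_lit 0xa) (nat_lit 6) (.split (nat_lit 0xa) (nat_lit 7) (.split (nat_lit 0xa) (nat_lit 8) (.split (nat_lit 0xa) (nat_lit 5) (.split (nat_lit 0xa) (nat_lit 9) (.unj (nat_lit 0x55) (nat_lit 0x1000100020002) (nat_lit 0x101500) (nat_lit 0x10000000000000001000200020000000000000000)) (.unj (nat_lit 0x55) (nat_lit 0x1000100020002) (nat_lit 0x101500) (nat_lit 0x10000000000000001000200020000000000000000))) (.split (nat_lit 0xa) (nat_lit 9) (.unj (nat_lit 0x100500) (nat_lit 0x10000000000000000000100010000000000000000) (nat_lit 0x55) (nat_lit 0x1000100020002))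 (.non (nat_lit 0) (nat_lit 4) (nat_lit 0x155454) (nat_lit 0x10001000100010001000100000001000100010000)))) (.non (nat_lit 0) (nat_lit 4) (nat_lit 0x115454) (nat_lit 0x20000000400030002000100000003000100020000))) (.non (nat_lit 0) (nat_lit 4) (nat_lit 0x155454) (nat_lit 0x30001000500060004000200000004000200030000))) (.non (nat_lit 1) (nat_lit 4) (nat_lit 0x115401) (nat_lit 0x10000000100020002000100000000000000000001))) (.non (nat_lit 0) (nat_lit 4) (nat_lit 0x155054) (nat_lit 0x20001000300020001000000000004000200030000))) (.non (nat_lit 0) (nat_lit 5) (nat_lit 0x155154) (nat_lit 0x40003000300020001000000020004000600050000))) (.star (nat_lit 0xa) (nat_lit 1) (nat_lit 4))) (.star (nat_lit 0xa) (nat_lit 0) (nat_lit 4)))) (.split (nat_lit 0xa) (nat_lit 0) (.split (nat_lit 0xa) (nat_lit 1) (.split (nat_lit 0xa) (nat_lit 3) (.split (nat_lit 0xa) (nat_lit 4) t1121_93 (.non (nat_lit 0) (nat_lit 5) (nat_lit 0x155154) (nat_lit 0x40003000300020001000000020004000600050000))) (.non (nat_lit 0) (nat_lit 4) (nat_lit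 0x100054) (nat_lit 0x10000000000000000000000000001000100010000))) (.non (nat_lit 0) (nat_lit 4) (nat_lit 0x100014) (nat_lit 0x10000000000000000000000000000000100010000))) (.non (nat_lit 1) (nat_lit 4) (nat_lit 0x115441) (nat_lit 0x10000000200030002000100000001000000000002))))) (.sup (nat_lit 0x50002000a0008) (nat_lit 0x2000000000005000a00090000000000000000))) (.non (nat_lit 0) (nat_lit 4) (nat_lit 0x50054) (nat_lit 0x1000100000000000000000001000100010000))) (.non (nat_lit 0) (nat_lit 4) (nat_lit 0x55450) (nat_lit 0x2000200030002000100000001000100000000)))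

noncomputable def t1121_95 : Tr := (.ex (nat_lit 5) (.split (nat_lit 9) (nat_lit 1) (.split (nat_lit 8) (nat_lit 3) (.split (nat_lit 8) (nat_lit 7) (.split (nat_lit 7) (nat_lit 0) (.pd (.cons (nat_lit 0) (nat_lit 6) (nat_lit 0) (nat_lit 0x1380441110) (nat_lit 0xf423fb71aef423f00000f423f54591a2c28f423f1e84300000) (.cons (nat_lit 0) (nat_lit 7) (nat_lit 0) (nat_lit 0x1305441110) (nat_lit 0xf423ff423f00000f423fb71ae1f156b71aef423f28b0600000) (.cons (nat_lit 0) (nat_lit 8) (nat_lit 0) (nat_lit 0x1065441110) (nat_lit 0xf423f00000f423fb71aea2c2804737f423ff423f3d08c00000) (.cons (nat_lit 1) (nat_lit 6) (nat_lit 0) (nat_lit 0x9700448200) (nat_lit 0xf423fb71aea2c2800000f423f54591f423ff423f0000098965) (.cons (nat_lit 1) (nat_lit 7) (nat_lit 0) (nat_lit 0x9305443200) (nat_lit 0xf423ff423f00000f423fb71ae1f156b71aef423f00000f423f) .nil))))) (.leaf (.cons (nat_lit 0x5501) (nat_lit 0x20003000400030000000000000001) (.cons (nat_lit 0x44005) (nat_lit 0x1000000010000000000000000000000020002) (.cons (nat_lit 0x40045)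 (nat_lit 0x1000000000000000000000001000000020002) (.cons (nat_lit 0x40015) (nat_lit 0x1000000000000000000000000000100020002) .nil)))) (.cons (nat_lit 0x1111101110) (nat_lit 0x10001) (nat_lit 0xb) (nat_lit 0x2456703100) (.cons (nat_lit 0x1111001110) (nat_lit 0x100001) (nat_lit 0xa) (nat_lit 0x2456003100) .nil)))) (.non (nat_lit 1) (nat_lit 4) (nat_lit 0x2a001) (nat_lit 0x100020001000000000000000000000002))) (.non (nat_lit 0) (nat_lit 4) (nat_lit 0x1a840) (nat_lit 0x400030002000100000002000000000000))) (.non (nat_lit 0) (nat_lit 4) (nat_lit 0x68044) (nat_lit 0x1000200010000000000000003000000020000))) (.non (nat_lit 0) (nat_lit 4) (nat_lit 0x80054) (nat_lit 0x1000000000000000000000001000100020000))) (.split (nat_lit 0xa) (nat_lit 0) (.split (nat_lit 0xa) (nat_lit 1) (.split (nat_lit 0xa) (nat_lit 2) (.split (nat_lit 0xa) (nat_lit 3) (.split (nat_lit 0xa) (nat_lit 6) (.split (nat_lit 0xa) (nat_lit 7) (.split (nat_lit 0xa) (nat_lit 8) (.split (nat_lit 0xa) (nat_lit 9) (.split (nat_lit 0xa) (nat_lit 4)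 (.unj (nat_lit 0x55) (nat_lit 0x1000100020002) (nat_lit 0x101500) (nat_lit 0x10000000000000001000200020000000000000000)) (.unj (nat_lit 0x100500) (nat_lit 0x10000000000000000000100010000000000000000) (nat_lit 0x55) (nat_lit 0x1000100020002))) (.non (nat_lit 0) (nat_lit 4) (nat_lit 0x155444) (nat_lit 0x10001000100010001000100000001000000010000))) (.non (nat_lit 0) (nat_lit 4) (nat_lit 0x115400) (nat_lit 0x10000000100010001000100000000000000000000))) (.non (nat_lit 0) (nat_lit 4) (nat_lit 0x105400) (nat_lit 0x10000000000010001000100000000000000000000))) (.non (nat_lit 0) (nat_lit 4) (nat_lit 0x101400) (nat_lit 0x10000000000000001000100000000000000000000))) (.non (nat_lit 0) (nat_lit 4) (nat_lit 0x115440) (nat_lit 0x10000000100010001000100000001000000000000))) (.non (nat_lit 0) (nat_lit 4) (nat_lit 0x154454) (nat_lit 0x20002000200010000000100000003000300040000))) (.star (nat_lit 0xa) (nat_lit 1) (nat_lit 5))) (.star (nat_lit 0xa) (nat_lit 0) (nat_lit 5))))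

noncomputable def t1121_96 : Tr := (.split (nat_lit 9) (nat_lit 3) (.split (nat_lit 9) (nat_lit 4) (.split (nat_lit 9) (nat_lit 5) (.split (nat_lit 9) (nat_lit 6) (.split (nat_lit 9) (nat_lit 7) (.split (nat_lit 9) (nat_lit 8) (.st (nat_lit 1) (nat_lit 0) (nat_lit 4) (nat_lit 0x40054) (nat_lit 0x1000000000000000000000001000100020000) (nat_lit 1) (nat_lit 1) (.st (nat_lit 2) (nat_lit 0) (nat_lit 4) (nat_lit 0x55454) (nat_lit 0x3000400030002000100000005000400060000) (nat_lit 1) (nat_lit 2) (.st (nat_lit 3) (nat_lit 0) (nat_lit 4) (nat_lit 0x50054) (nat_lit 0x1000100000000000000000002000100020000) (nat_lit 1) (nat_lit 1) (.st (nat_lit 9) (nat_lit 0) (nat_lit 4) (nat_lit 0x55454) (nat_lit 0x4000400030002000100000005000300060000) (nat_lit 1) (nat_lit 2) (.ex (nat_lit 4) t1121_95 (.split (nat_lit 0xa) (nat_lit 0) (.split (nat_lit 0xa) (nat_lit 1) (.split (nat_lit 0xa) (nat_lit 2) (.split (nat_lit 0xa) (nat_lit 3) (.split (nat_lit 0xa) (nat_lit 6) (.split (nat_lit 0xa) (nat_lit 7) (.split (nat_lit 0xa)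 (nat_lit 8) (.split (nat_lit 0xa) (nat_lit 9) (.split (nat_lit 0xa) (nat_lit 5) (.unj (nat_lit 0x55) (nat_lit 0x1000100020002) (nat_lit 0x101500) (nat_lit 0x10000000000000001000200020000000000000000)) (.unj (nat_lit 0x100500) (nat_lit 0x10000000000000000000100010000000000000000) (nat_lit 0x55) (nat_lit 0x1000100020002))) (.non (nat_lit 0) (nat_lit 4) (nat_lit 0x155454) (nat_lit 0x20004000400030002000100000005000300060000))) (.non (nat_lit 0) (nat_lit 4) (nat_lit 0x155444) (nat_lit 0x20001000400030002000100000003000000020000))) (.non (nat_lit 0) (nat_lit 4) (nat_lit 0x155054) (nat_lit 0x10001000200020001000000000002000100020000))) (.non (nat_lit 0) (nat_lit 4) (nat_lit 0x155454) (nat_lit 0x10001000200020002000100000002000100020000))) (.non (nat_lit 0) (nat_lit 4) (nat_lit 0x150054) (nat_lit 0x10001000100000000000000000002000100020000))) (.non (nat_lit 0) (nat_lit 4) (nat_lit 0x155454) (nat_lit 0x20003000400030002000100000005000400060000))) (.star (nat_lit 0xa) (nat_lit 1) (nat_lit 4))) (.star (nat_lit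 0xa) (nat_lit 0) (nat_lit 4)))))))) (.non (nat_lit 0) (nat_lit 4) (nat_lit 0x50044) (nat_lit 0x1000100000000000000000001000000010000))) (.non (nat_lit 0) (nat_lit 4) (nat_lit 0x54044) (nat_lit 0x1000100010000000000000001000000010000))) (.non (nat_lit 0) (nat_lit 4) (nat_lit 0x55044) (nat_lit 0x1000100010001000000000001000000010000))) (.star (nat_lit 9) (nat_lit 1) (nat_lit 5))) (.star (nat_lit 9) (nat_lit 1) (nat_lit 4))) (.non (nat_lit 0) (nat_lit 4) (nat_lit 0x40044) (nat_lit 0x1000000000000000000000001000000010000)))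

noncomputable def t1121_97 : Tr := (.split (nat_lit 8) (nat_lit 3) (.split (nat_lit 7) (nat_lit 0) (.split (nat_lit 7) (nat_lit 2) t1121_9 (.split (nat_lit 7) (nat_lit 3) (.split (nat_lit 6) (nat_lit 2) (.split (nat_lit 6) (nat_lit 3) (.st (nat_lit 1) (nat_lit 0) (nat_lit 4) (nat_lit 0x15054) (nat_lit 0x100020001000000000001000200020000) (nat_lit 1) (nat_lit 1) (.st (nat_lit 2) (nat_lit 0) (nat_lit 4) (nat_lit 0x15014) (nat_lit 0x100020001000000000000000200010000) (nat_lit 1) (nat_lit 1) (.st (nat_lit 5) (nat_lit 0) (nat_lit 4) (nat_lit 0x15454) (nat_lit 0x200040003000200000001000300020000) (nat_lit 1) (nat_lit 1) (.st (nat_lit 6) (nat_lit 0) (nat_lit 4) (nat_lit 0x15410) (nat_lit 0x100020002000100000000000100000000) (nat_lit 1) (nat_lit 1) (.st (nat_lit 7) (nat_lit 0) (nat_lit 4) (nat_lit 0x15010) (nat_lit 0x100020001000000000000000100000000) (nat_lit 1) (nat_lit 1) (.st (nat_lit 8) (nat_lit 0) (nat_lit 4) (nat_lit 0x15414) (nat_lit 0x200030002000100000000000200010000) (nat_lit 1) (nat_lit 1) t1121_11))))))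 (.non (nat_lit 0) (nat_lit 4) (nat_lit 0x15450) (nat_lit 0x100020002000100000001000100000000))) (.non (nat_lit 0) (nat_lit 4) (nat_lit 0x5010) (nat_lit 0x10001000000000000000100000000))) (.non (nat_lit 0) (nat_lit 4) (nat_lit 0x15050) (nat_lit 0x100020001000000000001000100000000)))) (.split (nat_lit 7) (nat_lit 2) (.split (nat_lit 7) (nat_lit 3) (.split (nat_lit 6) (nat_lit 2) (.split (nat_lit 6) (nat_lit 3) (.st (nat_lit 6) (nat_lit 1) (nat_lit 4) (nat_lit 0x15401) (nat_lit 0x100020002000100000000000000000001) (nat_lit 1) (nat_lit 1) (.st (nat_lit 7) (nat_lit 1) (nat_lit 4) (nat_lit 0x15001) (nat_lit 0x100020001000000000000000000000001) (nat_lit 1) (nat_lit 1) t1121_86)) (.non (nat_lit 1) (nat_lit 4) (nat_lit 0x15441) (nat_lit 0x100020002000100000001000000000001))) (.non (nat_lit 1) (nat_lit 4) (nat_lit 0x15411) (nat_lit 0x100020002000100000000000100000001))) (.non (nat_lit 1) (nat_lit 4) (nat_lit 0x15041) (nat_lit 0x100020001000000000001000000000001))) (.non (nat_lit 1) (nat_lit 4) (nat_lit 0x15011)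 (nat_lit 0x100020001000000000000000100000001)))) (.split (nat_lit 7) (nat_lit 2) (.split (nat_lit 7) (nat_lit 3) (.split (nat_lit 6) (nat_lit 2) (.split (nat_lit 6) (nat_lit 3) (.split (nat_lit 7) (nat_lit 0) (.sup (nat_lit 0x20005000a0008) (nat_lit 0x100040007000a00080000000000000000)) (.st (nat_lit 0) (nat_lit 1) (nat_lit 4) (nat_lit 0x15441) (nat_lit 0x200030002000100000001000000000002) (nat_lit 1) (nat_lit 1) (.st (nat_lit 6) (nat_lit 1) (nat_lit 4) (nat_lit 0x15401) (nat_lit 0x100020002000100000000000000000001) (nat_lit 1) (nat_lit 1) (.st (nat_lit 7) (nat_lit 1) (nat_lit 4) (nat_lit 0x15001) (nat_lit 0x100020001000000000000000000000001) (nat_lit 1) (nat_lit 1) (.st (nat_lit 8) (nat_lit 0) (nat_lit 4) (nat_lit 0x15454) (nat_lit 0x400030002000100000003000100020000) (nat_lit 1) (nat_lit 2) (.ex (nat_lit 1) (.ex (nat_lit 2) t1121_89 (.split (nat_lit 9) (nat_lit 0) (.split (nat_lit 9) (nat_lit 1) (.split (nat_lit 9) (nat_lit 3) (.split (nat_lit 9) (nat_lit 5) (.split (nat_lit 9) (nat_lit 6) t1121_94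 (.non (nat_lit 0) (nat_lit 4) (nat_lit 0x55054) (nat_lit 0x1000100010001000000000001000100010000))) (.non (nat_lit 0) (nat_lit 4) (nat_lit 0x55454) (nat_lit 0x1000100010001000100000001000100010000))) (.non (nat_lit 0) (nat_lit 4) (nat_lit 0x40054) (nat_lit 0x1000000000000000000000001000100010000))) (.non (nat_lit 0) (nat_lit 4) (nat_lit 0x40014) (nat_lit 0x1000000000000000000000000000100010000))) (.non (nat_lit 1) (nat_lit 4) (nat_lit 0x55441) (nat_lit 0x1000200030002000100000001000000000002)))) (.split (nat_lit 9) (nat_lit 0) (.split (nat_lit 9) (nat_lit 2) t1121_96 (.non (nat_lit 0) (nat_lit 4) (nat_lit 0x40014) (nat_lit 0x1000000000000000000000000000100010000))) (.non (nat_lit 1) (nat_lit 4) (nat_lit 0x55441) (nat_lit 0x1000200030002000100000001000000000002))))))))) (.non (nat_lit 0) (nat_lit 4) (nat_lit 0x15040) (nat_lit 0x100010001000000000001000000000000))) (.non (nat_lit 0) (nat_lit 4) (nat_lit 0x15054) (nat_lit 0x100010001000000000001000100010000))) (.non (nat_lit 0) (nat_lit 4) (nat_lit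 0x14040) (nat_lit 0x100010000000000000001000000000000))) (.non (nat_lit 0) (nat_lit 4) (nat_lit 0x14054) (nat_lit 0x100010000000000000001000100010000))))

noncomputable def t1121_98 : Tr := (.ex (nat_lit 5) (.split (nat_lit 8) (nat_lit 2) (.split (nat_lit 8) (nat_lit 7) (.split (nat_lit 7) (nat_lit 0) (.pd (.cons (nat_lit 0) (nat_lit 6) (nat_lit 0) (nat_lit 0x280441110) (nat_lit 0xb71aef423f00000f423f54591f423fa2c285b8d400000) (.cons (nat_lit 0) (nat_lit 7) (nat_lit 0) (nat_lit 0x205441110) (nat_lit 0xf423f00000f423fb71ae1f156f423fb71ae65b9700000) (.cons (nat_lit 0) (nat_lit 8) (nat_lit 0) (nat_lit 0x65441110) (nat_lit 0xf423fb71aea2c2804737f423ff423f7a11d00000) (.cons (nat_lit 1) (nat_lit 6) (nat_lit 0) (nat_lit 0x700443800) (nat_lit 0xb71aea2c2800000f423f54591f423ff423f0000098965) (.cons (nat_lit 1) (nat_lit 7) (nat_lit 0) (nat_lit 0x205443200) (nat_lit 0xf423f00000f423fb71ae1f156f423fb71ae00000f423f) (.cons (nat_lit 2) (nat_lit 7) (nat_lit 0) (nat_lit 0x805441000) (nat_lit 0xf423f00000f423fb71ae1f156f423f00000b71ae1f156)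 (.cons (nat_lit 3) (nat_lit 7) (nat_lit 0) (nat_lit 0x205440100) (nat_lit 0xf423f00000f423fb71ae1f15600000b71aea2c2804737) .nil))))))) (.leaf (.cons (nat_lit 0x5501) (nat_lit 0x20003000400030000000000000001) (.cons (nat_lit 0x15005) (nat_lit 0x100020001000000000000000000020002) (.cons (nat_lit 0x4045) (nat_lit 0x10000000000000001000000020002) (.cons (nat_lit 0x4015) (nat_lit 0x10000000000000000000100020002) .nil)))) (.cons (nat_lit 0x111100101) (nat_lit 0x10010) (nat_lit 0xc) (nat_lit 0x402300501) .nil))) (.non (nat_lit 1) (nat_lit 4) (nat_lit 0x2a001) (nat_lit 0x100020001000000000000000000000002))) (.non (nat_lit 0) (nat_lit 4) (nat_lit 0x1a810) (nat_lit 0x400030002000100000000000200000000))) (.non (nat_lit 0) (nat_lit 4) (nat_lit 0x2a014) (nat_lit 0x300020001000000000000000400020000))) (.split (nat_lit 9) (nat_lit 0) (.split (nat_lit 9) (nat_lit 1) (.split (nat_lit 9) (nat_lit 2) (.split (nat_lit 9) (nat_lit 3) (.split (nat_lit 9) (nat_lit 6) (.split (nat_lit 9) (nat_lit 7) (.split (nat_lit 9)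 (nat_lit 8) (.split (nat_lit 9) (nat_lit 4) (.unj (nat_lit 0x55) (nat_lit 0x1000100020002) (nat_lit 0x41500) (nat_lit 0x1000000000001000200020000000000000000)) (.unj (nat_lit 0x40500) (nat_lit 0x1000000000000000100010000000000000000) (nat_lit 0x55) (nat_lit 0x1000100020002))) (.non (nat_lit 0) (nat_lit 4) (nat_lit 0x55400) (nat_lit 0x1000100010001000100000000000000000000))) (.non (nat_lit 0) (nat_lit 4) (nat_lit 0x45400) (nat_lit 0x1000000010001000100000000000000000000))) (.non (nat_lit 0) (nat_lit 4) (nat_lit 0x41400) (nat_lit 0x1000000000001000100000000000000000000))) (.non (nat_lit 0) (nat_lit 4) (nat_lit 0x55454) (nat_lit 0x1000100010001000100000001000100010000))) (.non (nat_lit 0) (nat_lit 4) (nat_lit 0x55410) (nat_lit 0x1000100010001000100000000000100000000))) (.star (nat_lit 9) (nat_lit 1) (nat_lit 5))) (.star (nat_lit 9) (nat_lit 0) (nat_lit 5))))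

noncomputable def t1121_99 : Tr := (.pd (.cons (nat_lit 0) (nat_lit 6) (nat_lit 0) (nat_lit 0x3280441110) (nat_lit 0xf423fb71aef423f00000f423f54591b71aea2c284734e00000) (.cons (nat_lit 0) (nat_lit 7) (nat_lit 0) (nat_lit 0x3205441110) (nat_lit 0xf423ff423f00000f423fb71ae1f156b71aeb71ae5161100000) (.cons (nat_lit 0) (nat_lit 8) (nat_lit 0) (nat_lit 0x3065441110) (nat_lit 0xf423f00000f423fb71aea2c2804737b71aef423f65b9700000) (.cons (nat_lit 1) (nat_lit 6) (nat_lit 0) (nat_lit 0x3700443800) (nat_lit 0xf423fb71aea2c2800000f423f54591b71aef423f0000098965) (.cons (nat_lit 1) (nat_lit 7) (nat_lit 0) (nat_lit 0x3205443200) (nat_lit 0xf423ff423f00000f423fb71ae1f156b71aeb71ae00000f423f) (.cons (nat_lit 3) (nat_lit 7) (nat_lit 0) (nat_lit 0x9205440100) (nat_lit 0xf423ff423f00000f423fb71ae1f15600000b71aea2c2804737) .nil)))))) (.ex (nat_lit 9) (.pd (.cons (nat_lit 2) (nat_lit 7) (nat_lit 0) (nat_lit 0x3805441000) (nat_lit 0xf423ff423f00000f423fb71ae1f156b71ae00000a2c2804737) .nil) (.leaf (.cons (nat_lit 0x5501)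 (nat_lit 0x20003000400030000000000000001) (.cons (nat_lit 0x15005) (nat_lit 0x100020001000000000000000000020002) (.cons (nat_lit 0x4045) (nat_lit 0x10000000000000001000000020002) (.cons (nat_lit 0x4015) (nat_lit 0x10000000000000000000100020002) .nil)))) (.cons (nat_lit 0x1110001110) (nat_lit 0x1000001) (nat_lit 4) (nat_lit 0x5100004230) .nil))) (.split (nat_lit 0xa) (nat_lit 0) (.split (nat_lit 0xa) (nat_lit 1) (.split (nat_lit 0xa) (nat_lit 2) (.split (nat_lit 0xa) (nat_lit 3) (.split (nat_lit 0xa) (nat_lit 4) (.split (nat_lit 0xa) (nat_lit 5) (.split (nat_lit 0xa) (nat_lit 6) (.split (nat_lit 0xa) (nat_lit 7) (.split (nat_lit 0xa) (nat_lit 8) (.leaf (.cons (nat_lit 0x5501) (nat_lit 0x20003000400030000000000000001) (.cons (nat_lit 0x15005) (nat_lit 0x100020001000000000000000000020002) (.cons (nat_lit 0x140045) (nat_lit 0x10002000000000000000000000003000000040003) (.cons (nat_lit 0x4015) (nat_lit 0x10000000000000000000100020002) .nil)))) (.cons (nat_lit 0x111100101) (nat_lit 0x10010) (nat_lit 0xc)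 (nat_lit 0x402300501) .nil)) (.non (nat_lit 0) (nat_lit 4) (nat_lit 0x155450) (nat_lit 0x30002000400030002000100000001000200000000))) (.non (nat_lit 0) (nat_lit 4) (nat_lit 0x155410) (nat_lit 0x20001000200030002000100000000000100000000))) (.non (nat_lit 0) (nat_lit 4) (nat_lit 0x155450) (nat_lit 0x30002000200030004000200000001000100000000))) (.non (nat_lit 0) (nat_lit 4) (nat_lit 0x155454) (nat_lit 0x10001000100010001000100000001000100010000))) (.non (nat_lit 0) (nat_lit 6) (nat_lit 0x140540) (nat_lit 0x30002000000000000000300040001000000000000))) (.non (nat_lit 0) (nat_lit 4) (nat_lit 0x140040) (nat_lit 0x10001000000000000000000000001000000000000))) (.non (nat_lit 0) (nat_lit 4) (nat_lit 0x140054) (nat_lit 0x10001000000000000000000000001000100010000))) (.non (nat_lit 0) (nat_lit 4) (nat_lit 0x140044) (nat_lit 0x10001000000000000000000000001000000010000))) (.non (nat_lit 1) (nat_lit 4) (nat_lit 0x115411) (nat_lit 0x10000000200030002000100000000000100000002)))))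

noncomputable def t1121_100 : Tr := (.ex (nat_lit 5) (.split (nat_lit 8) (nat_lit 2) (.split (nat_lit 9) (nat_lit 3) (.split (nat_lit 8) (nat_lit 7) (.split (nat_lit 7) (nat_lit 0) t1121_99 (.non (nat_lit 1) (nat_lit 4) (nat_lit 0x2a001) (nat_lit 0x100020001000000000000000000000002))) (.non (nat_lit 0) (nat_lit 4) (nat_lit 0x1a810) (nat_lit 0x400030002000100000000000200000000))) (.split (nat_lit 9) (nat_lit 3) (.split (nat_lit 8) (nat_lit 7) (.split (nat_lit 7) (nat_lit 0) (.pd (.cons (nat_lit 0) (nat_lit 6) (nat_lit 0) (nat_lit 0x3280441110) (nat_lit 0xf423fb71aef423f00000f423f545917a11ea2c281e84200000) (.cons (nat_lit 0) (nat_lit 7) (nat_lit 0) (nat_lit 0x3205441110) (nat_lit 0xf423ff423f00000f423fb71ae1f1567a11eb71ae28b0500000) (.cons (nat_lit 0) (nat_lit 8) (nat_lit 0) (nat_lit 0x3065441110) (nat_lit 0xf423f00000f423fb71aea2c28047377a11ef423f3d08b00000) (.cons (nat_lit 1) (nat_lit 6) (nat_lit 0) (nat_lit 0x3700443800) (nat_lit 0xf423fb71aea2c2800000f423f545917a11ef423f0000098965) (.cons (nat_lit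 1) (nat_lit 7) (nat_lit 0) (nat_lit 0x3205443200) (nat_lit 0xf423ff423f00000f423fb71ae1f1567a11eb71ae00000f423f) (.cons (nat_lit 3) (nat_lit 7) (nat_lit 0) (nat_lit 0x9205440100) (nat_lit 0xf423ff423f00000f423fb71ae1f15600000b71aea2c2804737) .nil)))))) (.leaf (.cons (nat_lit 0x5501) (nat_lit 0x20003000400030000000000000001) (.cons (nat_lit 0x15005) (nat_lit 0x100020001000000000000000000020002) (.cons (nat_lit 0x40045) (nat_lit 0x1000000000000000000000001000000010001) (.cons (nat_lit 0x4015) (nat_lit 0x10000000000000000000100020002) .nil)))) (.cons (nat_lit 0x111100101) (nat_lit 0x10010) (nat_lit 0xc) (nat_lit 0x402300501) .nil))) (.non (nat_lit 1) (nat_lit 4) (nat_lit 0x2a001) (nat_lit 0x100020001000000000000000000000002))) (.non (nat_lit 0) (nat_lit 4) (nat_lit 0x1a810) (nat_lit 0x400030002000100000000000200000000))) (.non (nat_lit 0) (nat_lit 4) (nat_lit 0x50054) (nat_lit 0x3000100000000000000000004000200030000)))) (.non (nat_lit 0) (nat_lit 4) (nat_lit 0x2a014) (nat_lit 0x300020001000000000000000400020000)))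 (.split (nat_lit 0xa) (nat_lit 0) (.split (nat_lit 0xa) (nat_lit 1) (.split (nat_lit 0xa) (nat_lit 2) (.split (nat_lit 0xa) (nat_lit 3) (.split (nat_lit 0xa) (nat_lit 6) (.split (nat_lit 0xa) (nat_lit 7) (.split (nat_lit 0xa) (nat_lit 8) (.split (nat_lit 0xa) (nat_lit 9) (.split (nat_lit 0xa) (nat_lit 4) (.unj (nat_lit 0x55) (nat_lit 0x1000100020002) (nat_lit 0x101500) (nat_lit 0x10000000000000001000200020000000000000000)) (.unj (nat_lit 0x100500) (nat_lit 0x10000000000000000000100010000000000000000) (nat_lit 0x55) (nat_lit 0x1000100020002))) (.non (nat_lit 0) (nat_lit 4) (nat_lit 0x155454) (nat_lit 0x10001000100010001000100000001000100010000))) (.non (nat_lit 0) (nat_lit 4) (nat_lit 0x115400) (nat_lit 0x10000000100010001000100000000000000000000))) (.non (nat_lit 0) (nat_lit 4) (nat_lit 0x105400) (nat_lit 0x10000000000010001000100000000000000000000))) (.non (nat_lit 0) (nat_lit 4) (nat_lit 0x101400) (nat_lit 0x10000000000000001000100000000000000000000))) (.non (nat_lit 0) (nat_lit 4) (nat_lit 0x151454)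 (nat_lit 0x30002000100000001000200000004000200030000))) (.non (nat_lit 0) (nat_lit 4) (nat_lit 0x115410) (nat_lit 0x10000000100010001000100000000000100000000))) (.star (nat_lit 0xa) (nat_lit 1) (nat_lit 5))) (.star (nat_lit 0xa) (nat_lit 0) (nat_lit 5))))

noncomputable def t1121_101 : Tr := (.ex (nat_lit 5) (.split (nat_lit 8) (nat_lit 2) (.split (nat_lit 9) (nat_lit 3) (.split (nat_lit 0xa) (nat_lit 3) (.split (nat_lit 8) (nat_lit 7) (.split (nat_lit 7) (nat_lit 0) (.pd (.cons (nat_lit 0) (nat_lit 6) (nat_lit 0) (nat_lit 0x33280441110) (nat_lit 0xf423ff423fb71aef423f00000f423f545917a11da2c281e84100000) (.cons (nat_lit 0) (nat_lit 7) (nat_lit 0) (nat_lit 0x33205441110) (nat_lit 0xf423ff423ff423f00000f423fb71ae1f1567a11db71ae28b0400000) (.cons (nat_lit 0) (nat_lit 8) (nat_lit 0) (nat_lit 0x33065441110) (nat_lit 0xf423ff423f00000f423fb71aea2c28047377a11df423f3d08a00000) (.cons (nat_lit 1) (nat_lit 6) (nat_lit 0) (nat_lit 0x33700443800) (nat_lit 0xf423ff423fb71aea2c2800000f423f545917a11df423f0000098965)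 (.cons (nat_lit 1) (nat_lit 7) (nat_lit 0) (nat_lit 0x33205443200) (nat_lit 0xf423ff423ff423f00000f423fb71ae1f1567a11db71ae00000f423f) (.cons (nat_lit 3) (nat_lit 7) (nat_lit 0) (nat_lit 0xa9205440100) (nat_lit 0xf423ff423ff423f00000f423fb71ae1f15600000b71aea2c2804737) .nil)))))) (.leaf (.cons (nat_lit 0x5501) (nat_lit 0x20003000400030000000000000001) (.cons (nat_lit 0x15005) (nat_lit 0x100020001000000000000000000020002) (.cons (nat_lit 0x140045) (nat_lit 0x10001000000000000000000000002000000020002) (.cons (nat_lit 0x4015) (nat_lit 0x10000000000000000000100020002) .nil)))) (.cons (nat_lit 0x11110001110) (nat_lit 0x1000001) (nat_lit 0xa) (nat_lit 0x21560000430) .nil))) (.non (nat_lit 1) (nat_lit 4) (nat_lit 0x2a001) (nat_lit 0x100020001000000000000000000000002))) (.non (nat_lit 0) (nat_lit 4) (nat_lit 0x1a810) (nat_lit 0x400030002000100000000000200000000))) (.non (nat_lit 0) (nat_lit 4) (nat_lit 0x240044) (nat_lit 0x10001000000000000000000000002000000010000))) (.non (nat_lit 0) (nat_lit 4) (nat_lit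 0x180044) (nat_lit 0x10001000000000000000000000002000000010000))) (.non (nat_lit 0) (nat_lit 4) (nat_lit 0x2a014) (nat_lit 0x300020001000000000000000400020000))) (.split (nat_lit 0xb) (nat_lit 0) (.split (nat_lit 0xb) (nat_lit 1) (.split (nat_lit 0xb) (nat_lit 2) (.split (nat_lit 0xb) (nat_lit 3) (.split (nat_lit 0xb) (nat_lit 6) (.split (nat_lit 0xb) (nat_lit 7) (.split (nat_lit 0xb) (nat_lit 8) (.split (nat_lit 0xb) (nat_lit 9) (.split (nat_lit 0xb) (nat_lit 0xa) (.split (nat_lit 0xb) (nat_lit 4) (.unj (nat_lit 0x55) (nat_lit 0x1000100020002) (nat_lit 0x401500) (nat_lit 0x100000000000000000001000200020000000000000000)) (.unj (nat_lit 0x400500) (nat_lit 0x100000000000000000000000100010000000000000000) (nat_lit 0x55) (nat_lit 0x1000100020002))) (.non (nat_lit 0) (nat_lit 4) (nat_lit 0x555054) (nat_lit 0x200040003000300020001000000000006000400050000))) (.non (nat_lit 0) (nat_lit 4) (nat_lit 0x555054) (nat_lit 0x200030004000300020001000000000006000400050000))) (.non (nat_lit 0) (nat_lit 4) (nat_lit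 0x415400) (nat_lit 0x100000000000100010001000100000000000000000000))) (.non (nat_lit 0) (nat_lit 4) (nat_lit 0x405400) (nat_lit 0x100000000000000010001000100000000000000000000))) (.non (nat_lit 0) (nat_lit 4) (nat_lit 0x401400) (nat_lit 0x100000000000000000001000100000000000000000000))) (.non (nat_lit 0) (nat_lit 4) (nat_lit 0x540044) (nat_lit 0x100010001000000000000000000000002000000010000))) (.non (nat_lit 0) (nat_lit 4) (nat_lit 0x415410) (nat_lit 0x100000000000100010001000100000000000100000000))) (.star (nat_lit 0xb) (nat_lit 1) (nat_lit 5))) (.star (nat_lit 0xb) (nat_lit 0) (nat_lit 5))))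

noncomputable def t1121_102 : Tr := (.split (nat_lit 0xa) (nat_lit 5) (.split (nat_lit 0xa) (nat_lit 6) (.split (nat_lit 0xa) (nat_lit 7) (.split (nat_lit 0xa) (nat_lit 8) (.split (nat_lit 0xa) (nat_lit 9) (.st (nat_lit 3) (nat_lit 0) (nat_lit 4) (nat_lit 0x140044) (nat_lit 0x10001000000000000000000000002000000010000) (nat_lit 1) (nat_lit 1) (.st (nat_lit 9) (nat_lit 0) (nat_lit 4) (nat_lit 0x155054) (nat_lit 0x30004000300020001000000000006000400050000) (nat_lit 1) (nat_lit 2) (.st (nat_lit 0xa) (nat_lit 0) (nat_lit 4) (nat_lit 0x155054) (nat_lit 0x40003000300020001000000000006000400050000) (nat_lit 1) (nat_lit 2) (.ex (nat_lit 4) t1121_101 (.split (nat_lit 0xb) (nat_lit 0) (.split (nat_lit 0xb) (nat_lit 1) (.split (nat_lit 0xb) (nat_lit 2) (.split (nat_lit 0xb) (nat_lit 3) (.split (nat_lit 0xb) (nat_lit 6) (.split (nat_lit 0xb) (nat_lit 7) (.split (nat_lit 0xb) (nat_lit 8) (.split (nat_lit 0xb) (nat_lit 9) (.split (nat_lit 0xb) (nat_lit 0xa) (.split (nat_lit 0xb) (nat_lit 5) (.unj (nat_lit 0x55)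 (nat_lit 0x1000100020002) (nat_lit 0x401500) (nat_lit 0x100000000000000000001000200020000000000000000)) (.unj (nat_lit 0x400500) (nat_lit 0x100000000000000000000000100010000000000000000) (nat_lit 0x55) (nat_lit 0x1000100020002))) (.non (nat_lit 0) (nat_lit 4) (nat_lit 0x555054) (nat_lit 0x200040003000300020001000000000006000400050000))) (.non (nat_lit 0) (nat_lit 4) (nat_lit 0x555054) (nat_lit 0x200030004000300020001000000000006000400050000))) (.non (nat_lit 0) (nat_lit 4) (nat_lit 0x554054) (nat_lit 0x100010001000200010000000000000002000200020000))) (.non (nat_lit 0) (nat_lit 4) (nat_lit 0x555054) (nat_lit 0x100010001000200020001000000000002000200020000))) (.non (nat_lit 0) (nat_lit 4) (nat_lit 0x555454) (nat_lit 0x100010001000200020002000100000002000200020000))) (.non (nat_lit 0) (nat_lit 4) (nat_lit 0x540044) (nat_lit 0x100010001000000000000000000000002000000010000))) (.non (nat_lit 0) (nat_lit 4) (nat_lit 0x550054) (nat_lit 0x100010001000100000000000000000002000200020000))) (.star (nat_lit 0xb)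 (nat_lit 1) (nat_lit 4))) (.star (nat_lit 0xb) (nat_lit 0) (nat_lit 4))))))) (.non (nat_lit 0) (nat_lit 4) (nat_lit 0x140040) (nat_lit 0x10001000000000000000000000001000000000000))) (.non (nat_lit 0) (nat_lit 4) (nat_lit 0x155450) (nat_lit 0x30001000400030002000100000002000200000000))) (.non (nat_lit 0) (nat_lit 4) (nat_lit 0x115450) (nat_lit 0x20000000200030002000100000001000100000000))) (.non (nat_lit 0) (nat_lit 4) (nat_lit 0x155450) (nat_lit 0x30001000200030004000200000002000100000000))) (.non (nat_lit 0) (nat_lit 4) (nat_lit 0x151454) (nat_lit 0x30002000100000001000200000004000200030000)))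

noncomputable def t1121_103 : Tr := (.split (nat_lit 9) (nat_lit 6) (.split (nat_lit 9) (nat_lit 7) (.split (nat_lit 9) (nat_lit 8) (.split (nat_lit 9) (nat_lit 4) (.ex (nat_lit 3) (.ex (nat_lit 4) t1121_100 (.split (nat_lit 0xa) (nat_lit 0) (.split (nat_lit 0xa) (nat_lit 1) (.split (nat_lit 0xa) (nat_lit 2) (.split (nat_lit 0xa) (nat_lit 3) (.split (nat_lit 0xa) (nat_lit 6) (.split (nat_lit 0xa) (nat_lit 7) (.split (nat_lit 0xa) (nat_lit 8) (.split (nat_lit 0xa) (nat_lit 5) (.split (nat_lit 0xa) (nat_lit 9) (.unj (nat_lit 0x55) (nat_lit 0x1000100020002) (nat_lit 0x101500) (nat_lit 0x10000000000000001000200020000000000000000)) (.unj (nat_lit 0x55) (nat_lit 0x1000100020002) (nat_lit 0x101500) (nat_lit 0x10000000000000001000200020000000000000000))) (.split (nat_lit 0xa) (nat_lit 9) (.unj (nat_lit 0x100500) (nat_lit 0x10000000000000000000100010000000000000000) (nat_lit 0x55) (nat_lit 0x1000100020002)) (.non (nat_lit 0) (nat_lit 4) (nat_lit 0x155454) (nat_lit 0x10001000100010001000100000001000100010000))))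 (.non (nat_lit 0) (nat_lit 4) (nat_lit 0x115454) (nat_lit 0x20000000400030002000100000001000300020000))) (.non (nat_lit 0) (nat_lit 4) (nat_lit 0x155454) (nat_lit 0x30001000500060004000200000002000400030000))) (.non (nat_lit 1) (nat_lit 4) (nat_lit 0x115401) (nat_lit 0x10000000100020002000100000000000000000001))) (.non (nat_lit 0) (nat_lit 5) (nat_lit 0x155154) (nat_lit 0x40003000300020001000000020006000400050000))) (.non (nat_lit 0) (nat_lit 4) (nat_lit 0x155054) (nat_lit 0x20001000300020001000000000002000400030000))) (.star (nat_lit 0xa) (nat_lit 1) (nat_lit 4))) (.star (nat_lit 0xa) (nat_lit 0) (nat_lit 4)))) (.split (nat_lit 0xa) (nat_lit 0) (.split (nat_lit 0xa) (nat_lit 1) (.split (nat_lit 0xa) (nat_lit 2) (.split (nat_lit 0xa) (nat_lit 4) t1121_102 (.non (nat_lit 0) (nat_lit 5) (nat_lit 0x155154) (nat_lit 0x40003000300020001000000020006000400050000))) (.non (nat_lit 0) (nat_lit 4) (nat_lit 0x100054) (nat_lit 0x10000000000000000000000000001000100010000))) (.non (nat_lit 0) (nat_lit 4) (nat_lit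 0x100044) (nat_lit 0x10000000000000000000000000001000000010000))) (.non (nat_lit 1) (nat_lit 4) (nat_lit 0x115411) (nat_lit 0x10000000200030002000100000000000100000002)))) (.sup (nat_lit 0x20005000a0008) (nat_lit 0x2000000000005000a00090000000000000000))) (.non (nat_lit 0) (nat_lit 4) (nat_lit 0x50054) (nat_lit 0x1000100000000000000000001000100010000))) (.non (nat_lit 0) (nat_lit 4) (nat_lit 0x55450) (nat_lit 0x2000200030002000100000001000100000000))) (.non (nat_lit 0) (nat_lit 4) (nat_lit 0x55054) (nat_lit 0x1000100010001000000000001000100010000)))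

noncomputable def t1121_104 : Tr := (.ex (nat_lit 4) (.split (nat_lit 8) (nat_lit 2) (.split (nat_lit 9) (nat_lit 2) (.split (nat_lit 8) (nat_lit 7) (.split (nat_lit 7) (nat_lit 0) (.pd (.cons (nat_lit 0) (nat_lit 6) (nat_lit 0) (nat_lit 0x2280441110) (nat_lit 0xf423fb71aef423f00000f423f54591f423f65b97249e800000) (.cons (nat_lit 0) (nat_lit 7) (nat_lit 0) (nat_lit 0x2205441110) (nat_lit 0xf423ff423f00000f423fb71ae1f156f423f7a11d3d08a00000) (.cons (nat_lit 0) (nat_lit 8) (nat_lit 0) (nat_lit 0x2065441110) (nat_lit 0xf423f00000f423fb71aea2c2804737f423fb71ae65b9700000) (.cons (nat_lit 1) (nat_lit 6) (nat_lit 0) (nat_lit 0x2700443800) (nat_lit 0xf423fa2c289896500000f423f54591f423fb71ae00000927bd) (.cons (nat_lit 1) (nat_lit 7) (nat_lit 0) (nat_lit 0x2205443200) (nat_lit 0xf423ff423f00000f423fb71ae1f156f423f7a11d00000f423f) (.cons (nat_lit 2) (nat_lit 7) (nat_lit 0) (nat_lit 0x9805441000) (nat_lit 0xf423ff423f00000f423fb71ae1f156f423f00000b71ae1f156) .nil)))))) (.leaf (.cons (nat_lit 0x5501) (nat_lit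 0x20003000400030000000000000001) (.cons (nat_lit 0x15005) (nat_lit 0x100020001000000000000000000020002) (.cons (nat_lit 0x4045) (nat_lit 0x10000000000000001000000020002) (.cons (nat_lit 0x50015) (nat_lit 0x1000100000000000000000000000200020002) .nil)))) (.cons (nat_lit 0x1111100101) (nat_lit 0x10010) (nat_lit 0xd) (nat_lit 0x6402300501) (.cons (nat_lit 0x1111000101) (nat_lit 0x100010) (nat_lit 9) (nat_lit 0x5302000401) .nil)))) (.non (nat_lit 1) (nat_lit 4) (nat_lit 0x2a001) (nat_lit 0x100020001000000000000000000000002))) (.non (nat_lit 0) (nat_lit 4) (nat_lit 0x5a010) (nat_lit 0x1000300020001000000000000000200000000))) (.non (nat_lit 0) (nat_lit 4) (nat_lit 0x90014) (nat_lit 0x1000100000000000000000000000200010000))) (.non (nat_lit 0) (nat_lit 4) (nat_lit 0x6a010) (nat_lit 0x2000300020001000000000000000400000000))) (.split (nat_lit 0xa) (nat_lit 0) (.split (nat_lit 0xa) (nat_lit 1) (.split (nat_lit 0xa) (nat_lit 2) (.split (nat_lit 0xa) (nat_lit 3) (.split (nat_lit 0xa) (nat_lit 5) (.split (nat_lit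 0xa) (nat_lit 6) (.split (nat_lit 0xa) (nat_lit 7) (.split (nat_lit 0xa) (nat_lit 8) (.split (nat_lit 0xa) (nat_lit 9) (.unj (nat_lit 0x55) (nat_lit 0x1000100020002) (nat_lit 0x101500) (nat_lit 0x10000000000000001000200020000000000000000)) (.non (nat_lit 0) (nat_lit 4) (nat_lit 0x154054) (nat_lit 0x10002000200010000000000000001000300020000))) (.non (nat_lit 0) (nat_lit 4) (nat_lit 0x154014) (nat_lit 0x10001000200010000000000000000000200010000))) (.non (nat_lit 0) (nat_lit 4) (nat_lit 0x155014) (nat_lit 0x10001000200020001000000000000000200010000))) (.non (nat_lit 0) (nat_lit 4) (nat_lit 0x155414) (nat_lit 0x10001000200020002000100000000000200010000))) (.non (nat_lit 0) (nat_lit 4) (nat_lit 0x155454) (nat_lit 0x10003000500040003000200000002000600040000))) (.non (nat_lit 0) (nat_lit 4) (nat_lit 0x155054) (nat_lit 0x10002000300020001000000000002000400030000))) (.non (nat_lit 0) (nat_lit 4) (nat_lit 0x150014) (nat_lit 0x10001000100000000000000000000000200010000))) (.star (nat_lit 0xa) (nat_lit 1) (nat_lit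 4))) (.star (nat_lit 0xa) (nat_lit 0) (nat_lit 4))))

noncomputable def t1121_105 : Tr := (.ex (nat_lit 2) (.ex (nat_lit 3) (.ex (nat_lit 4) t1121_98 (.split (nat_lit 9) (nat_lit 0) (.split (nat_lit 9) (nat_lit 1) (.split (nat_lit 9) (nat_lit 2) (.split (nat_lit 9) (nat_lit 6) (.split (nat_lit 9) (nat_lit 7) (.split (nat_lit 9) (nat_lit 8) (.split (nat_lit 9) (nat_lit 3) (.split (nat_lit 9) (nat_lit 5) (.unj (nat_lit 0x55) (nat_lit 0x1000100020002) (nat_lit 0x41500) (nat_lit 0x1000000000001000200020000000000000000)) (.unj (nat_lit 0x40500) (nat_lit 0x1000000000000000100010000000000000000) (nat_lit 0x55) (nat_lit 0x1000100020002))) (.split (nat_lit 9) (nat_lit 5) (.sup (nat_lit 0x20005000a0008) (nat_lit 0x2000000000005000a00090000000000000000)) (.non (nat_lit 0) (nat_lit 4) (nat_lit 0x55454) (nat_lit 0x1000100010001000100000001000100010000)))) (.non (nat_lit 0) (nat_lit 4) (nat_lit 0x55454) (nat_lit 0x2000400030002000100000001000300020000))) (.non (nat_lit 1) (nat_lit 4) (nat_lit 0x55001) (nat_lit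 0x1000100020001000000000000000000000001))) (.non (nat_lit 1) (nat_lit 4) (nat_lit 0x55401) (nat_lit 0x1000100020002000100000000000000000001))) (.non (nat_lit 0) (nat_lit 5) (nat_lit 0x54154) (nat_lit 0x2000200010000000000010001000300020000))) (.star (nat_lit 9) (nat_lit 1) (nat_lit 4))) (.star (nat_lit 9) (nat_lit 0) (nat_lit 4)))) (.split (nat_lit 9) (nat_lit 0) (.split (nat_lit 9) (nat_lit 1) (.split (nat_lit 9) (nat_lit 2) (.split (nat_lit 9) (nat_lit 5) t1121_103 (.non (nat_lit 0) (nat_lit 4) (nat_lit 0x55454) (nat_lit 0x1000100010001000100000001000100010000))) (.non (nat_lit 0) (nat_lit 4) (nat_lit 0x40054) (nat_lit 0x1000000000000000000000001000100010000))) (.non (nat_lit 0) (nat_lit 4) (nat_lit 0x40044) (nat_lit 0x1000000000000000000000001000000010000))) (.non (nat_lit 1) (nat_lit 4) (nat_lit 0x55411) (nat_lit 0x1000200030002000100000000000100000002)))) (.split (nat_lit 9) (nat_lit 0) (.split (nat_lit 9) (nat_lit 1) (.split (nat_lit 9) (nat_lit 3) (.split (nat_lit 9) (nat_lit 4) (.split (nat_lit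 9) (nat_lit 5) (.split (nat_lit 9) (nat_lit 6) (.split (nat_lit 9) (nat_lit 7) (.split (nat_lit 9) (nat_lit 8) (.st (nat_lit 3) (nat_lit 0) (nat_lit 4) (nat_lit 0x55054) (nat_lit 0x2000300020001000000000002000400030000) (nat_lit 1) (nat_lit 1) (.st (nat_lit 5) (nat_lit 0) (nat_lit 4) (nat_lit 0x55454) (nat_lit 0x3000500040003000200000002000600040000) (nat_lit 1) (nat_lit 1) (.st (nat_lit 2) (nat_lit 0) (nat_lit 4) (nat_lit 0x50014) (nat_lit 0x1000100000000000000000000000200010000) (nat_lit 1) (nat_lit 1) (.st (nat_lit 9) (nat_lit 0) (nat_lit 4) (nat_lit 0x54054) (nat_lit 0x2000200010000000000000001000300020000) (nat_lit 1) (nat_lit 1) t1121_104)))) (.non (nat_lit 0) (nat_lit 4) (nat_lit 0x50010) (nat_lit 0x1000100000000000000000000000100000000))) (.non (nat_lit 0) (nat_lit 4) (nat_lit 0x54010) (nat_lit 0x1000100010000000000000000000100000000))) (.non (nat_lit 0) (nat_lit 4) (nat_lit 0x55010) (nat_lit 0x1000100010001000000000000000100000000))) (.non (nat_lit 0) (nat_lit 4) (nat_lit 0x55410) (nat_lit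 0x1000100010001000100000000000100000000))) (.non (nat_lit 0) (nat_lit 5) (nat_lit 0x54154) (nat_lit 0x2000200010000000000010001000300020000))) (.non (nat_lit 0) (nat_lit 4) (nat_lit 0x40054) (nat_lit 0x1000000000000000000000001000100010000))) (.non (nat_lit 0) (nat_lit 4) (nat_lit 0x40014) (nat_lit 0x1000000000000000000000000000100010000))) (.non (nat_lit 1) (nat_lit 4) (nat_lit 0x54011) (nat_lit 0x1000100010000000000000000000100000001))))

noncomputable def t1121_106 : Tr := (.ex (nat_lit 5) (.split (nat_lit 9) (nat_lit 1) (.split (nat_lit 8) (nat_lit 2) (.split (nat_lit 8) (nat_lit 7) (.split (nat_lit 7) (nat_lit 0) (.pd (.cons (nat_lit 0) (nat_lit 6) (nat_lit 0) (nat_lit 0x1280441110) (nat_lit 0xf423fb71aef423f00000f423f54591f423fa2c281e84300000) (.cons (nat_lit 0) (nat_lit 7) (nat_lit 0) (nat_lit 0x1205441110) (nat_lit 0xf423ff423f00000f423fb71ae1f156f423fb71ae28b0600000) (.cons (nat_lit 0) (nat_lit 8) (nat_lit 0) (nat_lit 0x1065441110) (nat_lit 0xf423f00000f423fb71aea2c2804737f423ff423f3d08c00000)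 (.cons (nat_lit 1) (nat_lit 6) (nat_lit 0) (nat_lit 0x9700443800) (nat_lit 0xf423fb71aea2c2800000f423f54591f423ff423f0000098965) (.cons (nat_lit 1) (nat_lit 7) (nat_lit 0) (nat_lit 0x9205443200) (nat_lit 0xf423ff423f00000f423fb71ae1f156f423fb71ae00000f423f) .nil))))) (.leaf (.cons (nat_lit 0x5501) (nat_lit 0x20003000400030000000000000001) (.cons (nat_lit 0x44005) (nat_lit 0x1000000010000000000000000000000020002) (.cons (nat_lit 0x40045) (nat_lit 0x1000000000000000000000001000000020002) (.cons (nat_lit 0x40015) (nat_lit 0x1000000000000000000000000000100020002) .nil)))) (.cons (nat_lit 0x1111101110) (nat_lit 0x10001) (nat_lit 0xb) (nat_lit 0x2456701300) (.cons (nat_lit 0x1111001110) (nat_lit 0x100001) (nat_lit 0xa) (nat_lit 0x2456001300) .nil)))) (.non (nat_lit 1) (nat_lit 4) (nat_lit 0x2a001) (nat_lit 0x100020001000000000000000000000002))) (.non (nat_lit 0) (nat_lit 4) (nat_lit 0x1a810) (nat_lit 0x400030002000100000000000200000000))) (.non (nat_lit 0) (nat_lit 4) (nat_lit 0x68014) (nat_lit 0x1000200010000000000000000000300020000)))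 (.non (nat_lit 0) (nat_lit 4) (nat_lit 0x80054) (nat_lit 0x1000000000000000000000001000100020000))) (.split (nat_lit 0xa) (nat_lit 0) (.split (nat_lit 0xa) (nat_lit 1) (.split (nat_lit 0xa) (nat_lit 2) (.split (nat_lit 0xa) (nat_lit 3) (.split (nat_lit 0xa) (nat_lit 6) (.split (nat_lit 0xa) (nat_lit 7) (.split (nat_lit 0xa) (nat_lit 8) (.split (nat_lit 0xa) (nat_lit 9) (.split (nat_lit 0xa) (nat_lit 4) (.unj (nat_lit 0x55) (nat_lit 0x1000100020002) (nat_lit 0x101500) (nat_lit 0x10000000000000001000200020000000000000000)) (.unj (nat_lit 0x100500) (nat_lit 0x10000000000000000000100010000000000000000) (nat_lit 0x55) (nat_lit 0x1000100020002))) (.non (nat_lit 0) (nat_lit 4) (nat_lit 0x155414) (nat_lit 0x10001000100010001000100000000000100010000))) (.non (nat_lit 0) (nat_lit 4) (nat_lit 0x115400) (nat_lit 0x10000000100010001000100000000000000000000))) (.non (nat_lit 0) (nat_lit 4) (nat_lit 0x105400) (nat_lit 0x10000000000010001000100000000000000000000))) (.non (nat_lit 0) (nat_lit 4) (nat_lit 0x101400)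 (nat_lit 0x10000000000000001000100000000000000000000))) (.non (nat_lit 0) (nat_lit 4) (nat_lit 0x154454) (nat_lit 0x20002000200010000000100000003000300040000))) (.non (nat_lit 0) (nat_lit 4) (nat_lit 0x115410) (nat_lit 0x10000000100010001000100000000000100000000))) (.star (nat_lit 0xa) (nat_lit 1) (nat_lit 5))) (.star (nat_lit 0xa) (nat_lit 0) (nat_lit 5))))

noncomputable def t1121_107 : Tr := (.split (nat_lit 9) (nat_lit 3) (.split (nat_lit 9) (nat_lit 4) (.split (nat_lit 9) (nat_lit 5) (.split (nat_lit 9) (nat_lit 6) (.split (nat_lit 9) (nat_lit 7) (.split (nat_lit 9) (nat_lit 8) (.st (nat_lit 1) (nat_lit 0) (nat_lit 4) (nat_lit 0x40054) (nat_lit 0x1000000000000000000000001000100020000) (nat_lit 1) (nat_lit 1) (.st (nat_lit 2) (nat_lit 0) (nat_lit 4) (nat_lit 0x50054) (nat_lit 0x1000100000000000000000001000200020000) (nat_lit 1) (nat_lit 1) (.st (nat_lit 3) (nat_lit 0) (nat_lit 4) (nat_lit 0x55454) (nat_lit 0x3000400030002000100000004000500060000) (nat_lit 1) (nat_lit 2) (.st (nat_lit 9) (nat_lit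 0) (nat_lit 4) (nat_lit 0x55454) (nat_lit 0x4000400030002000100000003000500060000) (nat_lit 1) (nat_lit 2) (.ex (nat_lit 4) t1121_106 (.split (nat_lit 0xa) (nat_lit 0) (.split (nat_lit 0xa) (nat_lit 1) (.split (nat_lit 0xa) (nat_lit 2) (.split (nat_lit 0xa) (nat_lit 3) (.split (nat_lit 0xa) (nat_lit 6) (.split (nat_lit 0xa) (nat_lit 7) (.split (nat_lit 0xa) (nat_lit 8) (.split (nat_lit 0xa) (nat_lit 9) (.split (nat_lit 0xa) (nat_lit 5) (.unj (nat_lit 0x55) (nat_lit 0x1000100020002) (nat_lit 0x101500) (nat_lit 0x10000000000000001000200020000000000000000)) (.unj (nat_lit 0x100500) (nat_lit 0x10000000000000000000100010000000000000000) (nat_lit 0x55) (nat_lit 0x1000100020002))) (.non (nat_lit 0) (nat_lit 4) (nat_lit 0x155454) (nat_lit 0x20004000400030002000100000003000500060000))) (.non (nat_lit 0) (nat_lit 4) (nat_lit 0x155414) (nat_lit 0x20001000400030002000100000000000300020000))) (.non (nat_lit 0) (nat_lit 4) (nat_lit 0x155054) (nat_lit 0x10001000200020001000000000001000200020000))) (.non (nat_lit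 0) (nat_lit 4) (nat_lit 0x155454) (nat_lit 0x10001000200020002000100000001000200020000))) (.non (nat_lit 0) (nat_lit 4) (nat_lit 0x155454) (nat_lit 0x20003000400030002000100000004000500060000))) (.non (nat_lit 0) (nat_lit 4) (nat_lit 0x150054) (nat_lit 0x10001000100000000000000000001000200020000))) (.star (nat_lit 0xa) (nat_lit 1) (nat_lit 4))) (.star (nat_lit 0xa) (nat_lit 0) (nat_lit 4)))))))) (.non (nat_lit 0) (nat_lit 4) (nat_lit 0x50014) (nat_lit 0x1000100000000000000000000000100010000))) (.non (nat_lit 0) (nat_lit 4) (nat_lit 0x54014) (nat_lit 0x1000100010000000000000000000100010000))) (.non (nat_lit 0) (nat_lit 4) (nat_lit 0x55014) (nat_lit 0x1000100010001000000000000000100010000))) (.star (nat_lit 9) (nat_lit 1) (nat_lit 5))) (.star (nat_lit 9) (nat_lit 1) (nat_lit 4))) (.non (nat_lit 0) (nat_lit 4) (nat_lit 0x40044) (nat_lit 0x1000000000000000000000001000000010000)))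

noncomputable def t1121_108 : Tr := (.ex (nat_lit 5) (.split (nat_lit 8) (nat_lit 1) (.split (nat_lit 8) (nat_lit 7) (.pd (.cons (nat_lit 0) (nat_lit 6) (nat_lit 0) (nat_lit 0x180441110) (nat_lit 0xb71aef423f00000f423f54591f423ff423f28b0600000) (.cons (nat_lit 0) (nat_lit 7) (nat_lit 0) (nat_lit 0x105441110) (nat_lit 0xf423f00000f423fb71ae1f156f423ff423f3d08c00000) (.cons (nat_lit 0) (nat_lit 8) (nat_lit 0) (nat_lit 0x65441110) (nat_lit 0xf423fb71aea2c2804737f423ff423f7a11d00000) (.cons (nat_lit 1) (nat_lit 6) (nat_lit 0) (nat_lit 0x770443200) (nat_lit 0xf423fb71ae00000f423f54591f423ff423f00000f423f) (.cons (nat_lit 1) (nat_lit 7) (nat_lit 0) (nat_lit 0x805443200) (nat_lit 0xf423f00000f423fb71ae1f156f423ff423f00000f423f) (.cons (nat_lit 1) (nat_lit 8) (nat_lit 0) (nat_lit 0x65443200) (nat_lit 0xf423fb71aea2c2804737f423ff423f00000f423f) (.cons (nat_lit 2) (nat_lit 8) (nat_lit 0) (nat_lit 0x65441000) (nat_lit 0xf423fb71aea2c2804737f423f00000b71ae1f156) (.cons (nat_lit 3) (nat_lit 8) (nat_lit 0) (nat_lit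 0x65440100) (nat_lit 0xf423fb71aea2c280473700000f423fb71ae1f156) .nil)))))))) (.leaf (.cons (nat_lit 0x15005) (nat_lit 0x300020001000000000000000000040003) (.cons (nat_lit 0x10045) (nat_lit 0x100000000000000000001000000020002) (.cons (nat_lit 0x10015) (nat_lit 0x100000000000000000000000100020002) .nil))) (.cons (nat_lit 0x111101110) (nat_lit 0x10001) (nat_lit 0xa) (nat_lit 0x345602100) (.cons (nat_lit 0x111001110) (nat_lit 0x100001) (nat_lit 9) (nat_lit 0x345002100) (.cons (nat_lit 0x110001110) (nat_lit 0x1000001) (nat_lit 8) (nat_lit 0x340002100) (.cons (nat_lit 0x100001110) (nat_lit 0x10000001) (nat_lit 7) (nat_lit 0x300002100) .nil)))))) (.non (nat_lit 0) (nat_lit 4) (nat_lit 0x1a804) (nat_lit 0x400030002000100000000000000020000))) (.non (nat_lit 0) (nat_lit 4) (nat_lit 0x2a044) (nat_lit 0x300020001000000000002000000040000))) (.split (nat_lit 9) (nat_lit 0) (.split (nat_lit 9) (nat_lit 1) (.split (nat_lit 9) (nat_lit 2) (.split (nat_lit 9) (nat_lit 3) (.split (nat_lit 9) (nat_lit 6) (.split (nat_lit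 9) (nat_lit 7) (.split (nat_lit 9) (nat_lit 8) (.split (nat_lit 9) (nat_lit 4) (.unj (nat_lit 0x55) (nat_lit 0x1000100020002) (nat_lit 0x41500) (nat_lit 0x1000000000001000200020000000000000000)) (.unj (nat_lit 0x40500) (nat_lit 0x1000000000000000100010000000000000000) (nat_lit 0x55) (nat_lit 0x1000100020002))) (.non (nat_lit 0) (nat_lit 4) (nat_lit 0x55400) (nat_lit 0x1000100010001000100000000000000000000))) (.non (nat_lit 0) (nat_lit 4) (nat_lit 0x45400) (nat_lit 0x1000000010001000100000000000000000000))) (.non (nat_lit 0) (nat_lit 4) (nat_lit 0x41400) (nat_lit 0x1000000000001000100000000000000000000))) (.non (nat_lit 0) (nat_lit 4) (nat_lit 0x55444) (nat_lit 0x1000100010001000100000001000000010000))) (.non (nat_lit 0) (nat_lit 4) (nat_lit 0x55414) (nat_lit 0x1000100010001000100000000000100010000))) (.star (nat_lit 9) (nat_lit 1) (nat_lit 5))) (.star (nat_lit 9) (nat_lit 0) (nat_lit 5))))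

noncomputable def t1121_109 : Tr := (.ex (nat_lit 3) (.ex (nat_lit 4) t1121_108 (.split (nat_lit 9) (nat_lit 0) (.split (nat_lit 9) (nat_lit 1) (.split (nat_lit 9) (nat_lit 2) (.split (nat_lit 9) (nat_lit 3) (.split (nat_lit 9) (nat_lit 6) (.split (nat_lit 9) (nat_lit 7) (.split (nat_lit 9) (nat_lit 8) (.split (nat_lit 9) (nat_lit 5) (.unj (nat_lit 0x55) (nat_lit 0x1000100020002) (nat_lit 0x41500) (nat_lit 0x1000000000001000200020000000000000000)) (.unj (nat_lit 0x40500) (nat_lit 0x1000000000000000100010000000000000000) (nat_lit 0x55) (nat_lit 0x1000100020002))) (.non (nat_lit 0) (nat_lit 4) (nat_lit 0x54054) (nat_lit 0x1000200010000000000000001000100020000))) (.non (nat_lit 0) (nat_lit 4) (nat_lit 0x55054) (nat_lit 0x1000200020001000000000001000100020000))) (.non (nat_lit 0) (nat_lit 4) (nat_lit 0x55454) (nat_lit 0x1000200020002000100000001000100020000))) (.non (nat_lit 0) (nat_lit 5) (nat_lit 0x55154) (nat_lit 0x2000300020001000000010003000200040000))) (.non (nat_lit 0) (nat_lit 5) (nat_lit 0x55154)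 (nat_lit 0x2000300020001000000010002000300040000))) (.star (nat_lit 9) (nat_lit 1) (nat_lit 4))) (.star (nat_lit 9) (nat_lit 0) (nat_lit 4)))) (.split (nat_lit 9) (nat_lit 1) (.split (nat_lit 9) (nat_lit 2) (.split (nat_lit 9) (nat_lit 4) (.split (nat_lit 9) (nat_lit 5) (.split (nat_lit 9) (nat_lit 6) (.split (nat_lit 9) (nat_lit 7) (.split (nat_lit 9) (nat_lit 8) (.split (nat_lit 9) (nat_lit 0) (.split (nat_lit 9) (nat_lit 3) (.split (nat_lit 8) (nat_lit 1) (.sup (nat_lit 0x3000d00160020001a0000000000000000) (nat_lit 0x2000000000000000000000004000300070005)) (.non (nat_lit 0) (nat_lit 4) (nat_lit 0x68044) (nat_lit 0x1000200010000000000000002000000030000))) (.non (nat_lit 0) (nat_lit 4) (nat_lit 0x90054) (nat_lit 0x1000100000000000000000002000100020000))) (.sup (nat_lit 0x900000000000000000000000800000007000a) (nat_lit 0x100040007000a00080000000000000000))) (.non (nat_lit 0) (nat_lit 4) (nat_lit 0x50044) (nat_lit 0x1000100000000000000000001000000010000))) (.non (nat_lit 0) (nat_lit 4) (nat_lit 0x54044)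 (nat_lit 0x1000100010000000000000001000000010000))) (.non (nat_lit 0) (nat_lit 4) (nat_lit 0x55044) (nat_lit 0x1000100010001000000000001000000010000))) (.non (nat_lit 0) (nat_lit 4) (nat_lit 0x55444) (nat_lit 0x1000100010001000100000001000000010000))) (.non (nat_lit 0) (nat_lit 5) (nat_lit 0x55154) (nat_lit 0x2000300020001000000010003000200040000))) (.non (nat_lit 0) (nat_lit 4) (nat_lit 0x40054) (nat_lit 0x1000000000000000000000001000100010000))) (.non (nat_lit 0) (nat_lit 4) (nat_lit 0x40044) (nat_lit 0x1000000000000000000000001000000010000))))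

noncomputable def t1121_110 : Tr := (.ex (nat_lit 0) (.ex (nat_lit 2) t1121_109 (.split (nat_lit 9) (nat_lit 1) (.split (nat_lit 9) (nat_lit 3) (.split (nat_lit 9) (nat_lit 4) (.split (nat_lit 9) (nat_lit 5) (.split (nat_lit 9) (nat_lit 6) (.split (nat_lit 9) (nat_lit 7) (.split (nat_lit 9) (nat_lit 8) (.split (nat_lit 9) (nat_lit 0) (.split (nat_lit 9) (nat_lit 2) (.split (nat_lit 8) (nat_lit 1) (.sup (nat_lit 0x3000d00160020001a0000000000000000) (nat_lit 0x2000000000000000000000003000400070005)) (.non (nat_lit 0) (nat_lit 4) (nat_lit 0x2a044) (nat_lit 0x300020001000000000002000000040000))) (.non (nat_lit 0) (nat_lit 4) (nat_lit 0x90054) (nat_lit 0x1000100000000000000000001000200020000))) (.sup (nat_lit 0x900000000000000000000000000080007000a) (nat_lit 0x100040007000a00080000000000000000))) (.non (nat_lit 0) (nat_lit 4) (nat_lit 0x50014) (nat_lit 0x1000100000000000000000000000100010000))) (.non (nat_lit 0) (nat_lit 4) (nat_lit 0x54014) (nat_lit 0x1000100010000000000000000000100010000))) (.non (nat_lit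 0) (nat_lit 4) (nat_lit 0x55014) (nat_lit 0x1000100010001000000000000000100010000))) (.non (nat_lit 0) (nat_lit 4) (nat_lit 0x55414) (nat_lit 0x1000100010001000100000000000100010000))) (.non (nat_lit 0) (nat_lit 5) (nat_lit 0x55154) (nat_lit 0x2000300020001000000010002000300040000))) (.non (nat_lit 0) (nat_lit 4) (nat_lit 0x40054) (nat_lit 0x1000000000000000000000001000100010000))) (.non (nat_lit 0) (nat_lit 4) (nat_lit 0x40014) (nat_lit 0x1000000000000000000000000000100010000)))) (.split (nat_lit 9) (nat_lit 1) (.split (nat_lit 9) (nat_lit 4) (.split (nat_lit 9) (nat_lit 5) (.split (nat_lit 9) (nat_lit 6) (.split (nat_lit 9) (nat_lit 7) (.split (nat_lit 9) (nat_lit 8) (.split (nat_lit 9) (nat_lit 2) (.split (nat_lit 9) (nat_lit 3) (.split (nat_lit 9) (nat_lit 0) (.split (nat_lit 8) (nat_lit 1) (.sup (nat_lit 0x20007000b0010000d0000000000000000) (nat_lit 0x1000000000000000000000001000100030003)) (.non (nat_lit 0) (nat_lit 4) (nat_lit 0x2a044) (nat_lit 0x300020001000000000002000000040000))) (.split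 (nat_lit 9) (nat_lit 0) (.split (nat_lit 8) (nat_lit 1) (.sup (nat_lit 0x700000000000000000000000000000006000a) (nat_lit 0x100040007000a00080000000000000000)) (.non (nat_lit 0) (nat_lit 4) (nat_lit 0x2a044) (nat_lit 0x300020001000000000002000000040000))) (.sup (nat_lit 0x800000000000000000000000000000004000a) (nat_lit 0x100040007000a00080000000000000000)))) (.sup (nat_lit 0x900000000000000000000000800000007000a) (nat_lit 0x100040007000a00080000000000000000))) (.split (nat_lit 9) (nat_lit 3) (.sup (nat_lit 0x900000000000000000000000000080007000a) (nat_lit 0x100040007000a00080000000000000000)) (.non (nat_lit 0) (nat_lit 4) (nat_lit 0x40054) (nat_lit 0x1000000000000000000000001000100010000)))) (.non (nat_lit 0) (nat_lit 4) (nat_lit 0x54054) (nat_lit 0x1000200010000000000000001000100020000))) (.non (nat_lit 0) (nat_lit 4) (nat_lit 0x55054) (nat_lit 0x1000200020001000000000001000100020000))) (.non (nat_lit 0) (nat_lit 4) (nat_lit 0x55454) (nat_lit 0x1000200020002000100000001000100020000))) (.star (nat_lit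 9) (nat_lit 0) (nat_lit 5))) (.star (nat_lit 9) (nat_lit 0) (nat_lit 4))) (.non (nat_lit 0) (nat_lit 4) (nat_lit 0x50054) (nat_lit 0x1000100000000000000000001000100020000))))

noncomputable def t1121_111 : Tr := (.ex (nat_lit 4) (.ex (nat_lit 5) (.split (nat_lit 8) (nat_lit 1) (.split (nat_lit 8) (nat_lit 7) (.split (nat_lit 7) (nat_lit 0) (.pd (.cons (nat_lit 0) (nat_lit 6) (nat_lit 0) (nat_lit 0x180441110) (nat_lit 0xb71aef423f00000f423f54591f423ff423f28b0600000) (.cons (nat_lit 0) (nat_lit 7) (nat_lit 0) (nat_lit 0x105441110) (nat_lit 0xf423f00000f423fb71ae1f156f423ff423f3d08c00000) (.cons (nat_lit 0) (nat_lit 8) (nat_lit 0) (nat_lit 0x65441110) (nat_lit 0xf423fb71aea2c2804737f423ff423f7a11d00000) (.cons (nat_lit 1) (nat_lit 6) (nat_lit 0) (nat_lit 0x700443200) (nat_lit 0xf423fb71ae00000f423f54591f423ff423f00000a2c28) (.cons (nat_lit 1) (nat_lit 7) (nat_lit 0) (nat_lit 0x805443200) (nat_lit 0xf423f00000f423fb71ae1f156f423ff423f00000f423f) .nil))))) (.leaf (.cons (nat_lit 0x5501) (nat_lit 0x20003000400030000000000000001)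 (.cons (nat_lit 0x14005) (nat_lit 0x100010000000000000000000000010001) (.cons (nat_lit 0x10045) (nat_lit 0x100000000000000000001000000020002) (.cons (nat_lit 0x10015) (nat_lit 0x100000000000000000000000100020002) .nil)))) .nil)) (.non (nat_lit 1) (nat_lit 4) (nat_lit 0x2a001) (nat_lit 0x100020001000000000000000000000002))) (.non (nat_lit 0) (nat_lit 4) (nat_lit 0x1a804) (nat_lit 0x400030002000100000000000000020000))) (.non (nat_lit 0) (nat_lit 4) (nat_lit 0x2a044) (nat_lit 0x300020001000000000002000000040000))) (.split (nat_lit 9) (nat_lit 0) (.split (nat_lit 9) (nat_lit 1) (.split (nat_lit 9) (nat_lit 2) (.split (nat_lit 9) (nat_lit 3) (.split (nat_lit 9) (nat_lit 6) (.split (nat_lit 9) (nat_lit 7) (.split (nat_lit 9) (nat_lit 8) (.split (nat_lit 9) (nat_lit 4) (.unj (nat_lit 0x55) (nat_lit 0x1000100020002) (nat_lit 0x41500) (nat_lit 0x1000000000001000200020000000000000000)) (.unj (nat_lit 0x40500) (nat_lit 0x1000000000000000100010000000000000000) (nat_lit 0x55) (nat_lit 0x1000100020002))) (.non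 (nat_lit 0) (nat_lit 4) (nat_lit 0x55400) (nat_lit 0x1000100010001000100000000000000000000))) (.non (nat_lit 0) (nat_lit 4) (nat_lit 0x45400) (nat_lit 0x1000000010001000100000000000000000000))) (.non (nat_lit 0) (nat_lit 4) (nat_lit 0x41400) (nat_lit 0x1000000000001000100000000000000000000))) (.non (nat_lit 0) (nat_lit 4) (nat_lit 0x55444) (nat_lit 0x1000100010001000100000001000000010000))) (.non (nat_lit 0) (nat_lit 4) (nat_lit 0x55414) (nat_lit 0x1000100010001000100000000000100010000))) (.star (nat_lit 9) (nat_lit 1) (nat_lit 5))) (.star (nat_lit 9) (nat_lit 0) (nat_lit 5)))) (.split (nat_lit 9) (nat_lit 0) (.split (nat_lit 9) (nat_lit 1) (.split (nat_lit 9) (nat_lit 2) (.split (nat_lit 9) (nat_lit 3) (.split (nat_lit 9) (nat_lit 6) (.split (nat_lit 9) (nat_lit 7) (.split (nat_lit 9) (nat_lit 8) (.split (nat_lit 9) (nat_lit 5) (.unj (nat_lit 0x55) (nat_lit 0x1000100020002) (nat_lit 0x41500) (nat_lit 0x1000000000001000200020000000000000000)) (.unj (nat_lit 0x40500) (nat_lit 0x1000000000000000100010000000000000000)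 (nat_lit 0x55) (nat_lit 0x1000100020002))) (.non (nat_lit 0) (nat_lit 4) (nat_lit 0x54054) (nat_lit 0x1000200010000000000000001000100020000))) (.non (nat_lit 0) (nat_lit 4) (nat_lit 0x55054) (nat_lit 0x1000200020001000000000001000100020000))) (.non (nat_lit 0) (nat_lit 4) (nat_lit 0x55454) (nat_lit 0x1000200020002000100000001000100020000))) (.non (nat_lit 0) (nat_lit 5) (nat_lit 0x55154) (nat_lit 0x2000300020001000000010003000200040000))) (.non (nat_lit 0) (nat_lit 5) (nat_lit 0x55154) (nat_lit 0x2000300020001000000010002000300040000))) (.star (nat_lit 9) (nat_lit 1) (nat_lit 4))) (.star (nat_lit 9) (nat_lit 0) (nat_lit 4))))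

noncomputable def t1121_112 : Tr := (.split (nat_lit 8) (nat_lit 1) (.split (nat_lit 8) (nat_lit 2) t1121_97 (.split (nat_lit 8) (nat_lit 3) (.split (nat_lit 7) (nat_lit 2) (.split (nat_lit 7) (nat_lit 3) (.split (nat_lit 6) (nat_lit 2) (.split (nat_lit 6) (nat_lit 3) (.split (nat_lit 7) (nat_lit 0) (.sup (nat_lit 0x50002000a0008) (nat_lit 0x100040007000a00080000000000000000)) (.st (nat_lit 0) (nat_lit 1) (nat_lit 4) (nat_lit 0x15411) (nat_lit 0x200030002000100000000000100000002) (nat_lit 1) (nat_lit 1) (.st (nat_lit 6) (nat_lit 1) (nat_lit 4) (nat_lit 0x15401) (nat_lit 0x100020002000100000000000000000001) (nat_lit 1) (nat_lit 1) (.st (nat_lit 7) (nat_lit 1) (nat_lit 4) (nat_lit 0x15001) (nat_lit 0x100020001000000000000000000000001) (nat_lit 1) (nat_lit 1) (.st (nat_lit 8) (nat_lit 0) (nat_lit 4) (nat_lit 0x15454) (nat_lit 0x400030002000100000001000300020000) (nat_lit 1) (nat_lit 2) (.ex (nat_lit 1) t1121_105 (.split (nat_lit 9) (nat_lit 0) (.split (nat_lit 9) (nat_lit 2) t1121_107 (.non (nat_lit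 0) (nat_lit 4) (nat_lit 0x40014) (nat_lit 0x1000000000000000000000000000100010000))) (.non (nat_lit 1) (nat_lit 4) (nat_lit 0x55411) (nat_lit 0x1000200030002000100000000000100000002))))))))) (.non (nat_lit 0) (nat_lit 4) (nat_lit 0x15054) (nat_lit 0x100010001000000000001000100010000))) (.non (nat_lit 0) (nat_lit 4) (nat_lit 0x15010) (nat_lit 0x100010001000000000000000100000000))) (.non (nat_lit 0) (nat_lit 4) (nat_lit 0x14054) (nat_lit 0x100010000000000000001000100010000))) (.non (nat_lit 0) (nat_lit 4) (nat_lit 0x14010) (nat_lit 0x100010000000000000000000100000000))) (.non (nat_lit 0) (nat_lit 4) (nat_lit 0x10054) (nat_lit 0x100000000000000000001000100010000)))) (.split (nat_lit 8) (nat_lit 2) (.split (nat_lit 8) (nat_lit 3) (.split (nat_lit 7) (nat_lit 2) (.split (nat_lit 7) (nat_lit 3) (.split (nat_lit 6) (nat_lit 2) (.split (nat_lit 6) (nat_lit 3) (.split (nat_lit 7) (nat_lit 0) (.st (nat_lit 1) (nat_lit 0) (nat_lit 4) (nat_lit 0x10054) (nat_lit 0x100000000000000000001000100020000) (nat_lit 1)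 (nat_lit 1) (.st (nat_lit 6) (nat_lit 0) (nat_lit 4) (nat_lit 0x15454) (nat_lit 0x200020002000100000001000100020000) (nat_lit 1) (nat_lit 1) (.st (nat_lit 7) (nat_lit 0) (nat_lit 4) (nat_lit 0x15054) (nat_lit 0x200020001000000000001000100020000) (nat_lit 1) (nat_lit 1) (.st (nat_lit 8) (nat_lit 0) (nat_lit 4) (nat_lit 0x14054) (nat_lit 0x200010000000000000001000100020000) (nat_lit 1) (nat_lit 1) t1121_110)))) (.st (nat_lit 6) (nat_lit 0) (nat_lit 4) (nat_lit 0x15454) (nat_lit 0x200020002000100000001000100020000) (nat_lit 1) (nat_lit 1) (.st (nat_lit 7) (nat_lit 0) (nat_lit 4) (nat_lit 0x15054) (nat_lit 0x200020001000000000001000100020000) (nat_lit 1) (nat_lit 1) t1121_111))) (.non (nat_lit 0) (nat_lit 4) (nat_lit 0x15044) (nat_lit 0x100010001000000000001000000010000))) (.non (nat_lit 0) (nat_lit 4) (nat_lit 0x15014) (nat_lit 0x100010001000000000000000100010000))) (.non (nat_lit 0) (nat_lit 4) (nat_lit 0x14044) (nat_lit 0x100010000000000000001000000010000))) (.non (nat_lit 0) (nat_lit 4) (nat_lit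 0x14014) (nat_lit 0x100010000000000000000000100010000))) (.non (nat_lit 0) (nat_lit 4) (nat_lit 0x10044) (nat_lit 0x100000000000000000001000000010000))) (.non (nat_lit 0) (nat_lit 4) (nat_lit 0x10014) (nat_lit 0x100000000000000000000000100010000))))

noncomputable def t1121_113 : Tr := (.ex (nat_lit 5) (.split (nat_lit 8) (nat_lit 0) (.split (nat_lit 8) (nat_lit 7) (.pd (.cons (nat_lit 0) (nat_lit 6) (nat_lit 0) (nat_lit 0x770441110) (nat_lit 0xf423fb71ae00000f423f54591f423ff423f7a11d00000) (.cons (nat_lit 0) (nat_lit 7) (nat_lit 0) (nat_lit 0x805441110) (nat_lit 0xf423f00000f423fb71ae1f156f423ff423f7a11d00000) (.cons (nat_lit 0) (nat_lit 8) (nat_lit 0) (nat_lit 0x65441110) (nat_lit 0xf423fb71aea2c2804737f423ff423f7a11d00000) (.cons (nat_lit 1) (nat_lit 6) (nat_lit 0) (nat_lit 0x80443200) (nat_lit 0xb71aef423f00000f423f54591f423ff423f0000051612) (.cons (nat_lit 1) (nat_lit 7) (nat_lit 0) (nat_lit 0x5443200) (nat_lit 0xf423f00000f423fb71ae1f156f423ff423f000007a11e) (.cons (nat_lit 1) (nat_lit 8) (nat_lit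 0) (nat_lit 0x65443200) (nat_lit 0xf423fb71aea2c2804737f423ff423f00000f423f) (.cons (nat_lit 2) (nat_lit 8) (nat_lit 0) (nat_lit 0x65441000) (nat_lit 0xf423fb71aea2c2804737f423f00000b71ae1f156) (.cons (nat_lit 3) (nat_lit 8) (nat_lit 0) (nat_lit 0x65440100) (nat_lit 0xf423fb71aea2c280473700000f423fb71ae1f156) .nil)))))))) (.leaf (.cons (nat_lit 0x10005) (nat_lit 0x100000000000000000000000000010001) .nil) (.cons (nat_lit 0x110000001) (nat_lit 0x1000010) (nat_lit 6) (nat_lit 0x120000000) .nil))) (.non (nat_lit 1) (nat_lit 4) (nat_lit 0x24001) (nat_lit 0x100010000000000000000000000000001))) (.non (nat_lit 1) (nat_lit 4) (nat_lit 0x15401) (nat_lit 0x400030002000100000000000000000003))) (.split (nat_lit 9) (nat_lit 0) (.split (nat_lit 9) (nat_lit 1) (.split (nat_lit 9) (nat_lit 6) (.split (nat_lit 9) (nat_lit 7) (.split (nat_lit 9) (nat_lit 8) (.split (nat_lit 9) (nat_lit 2) (.split (nat_lit 9) (nat_lit 3) (.split (nat_lit 9) (nat_lit 4) (.unj (nat_lit 0x10005) (nat_lit 0x100000000000000000000000000010001)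 (nat_lit 0x41500) (nat_lit 0x1000000000001000200020000000000000000)) (.unj (nat_lit 0x10005) (nat_lit 0x100000000000000000000000000010001) (nat_lit 0x40500) (nat_lit 0x1000000000000000100010000000000000000))) (.split (nat_lit 9) (nat_lit 4) (.unj (nat_lit 0x10005) (nat_lit 0x100000000000000000000000000010001) (nat_lit 0x41500) (nat_lit 0x1000000000001000200020000000000000000)) (.unj (nat_lit 0x10005) (nat_lit 0x100000000000000000000000000010001) (nat_lit 0x40500) (nat_lit 0x1000000000000000100010000000000000000)))) (.split (nat_lit 9) (nat_lit 3) (.split (nat_lit 9) (nat_lit 4) (.unj (nat_lit 0x10005) (nat_lit 0x100000000000000000000000000010001) (nat_lit 0x41500) (nat_lit 0x1000000000001000200020000000000000000)) (.unj (nat_lit 0x10005) (nat_lit 0x100000000000000000000000000010001) (nat_lit 0x40500) (nat_lit 0x1000000000000000100010000000000000000))) (.non (nat_lit 0) (nat_lit 4) (nat_lit 0x40054) (nat_lit 0x1000000000000000000000001000100010000)))) (.non (nat_lit 0) (nat_lit 4) (nat_lit 0x55400)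 (nat_lit 0x1000100010001000100000000000000000000))) (.non (nat_lit 0) (nat_lit 4) (nat_lit 0x45400) (nat_lit 0x1000000010001000100000000000000000000))) (.non (nat_lit 0) (nat_lit 4) (nat_lit 0x41400) (nat_lit 0x1000000000001000100000000000000000000))) (.star (nat_lit 9) (nat_lit 1) (nat_lit 5))) (.star (nat_lit 9) (nat_lit 0) (nat_lit 5))))

noncomputable def t1121_114 : Tr := (.ex (nat_lit 3) (.ex (nat_lit 4) t1121_113 (.split (nat_lit 9) (nat_lit 0) (.split (nat_lit 9) (nat_lit 1) (.split (nat_lit 9) (nat_lit 6) (.split (nat_lit 9) (nat_lit 7) (.split (nat_lit 9) (nat_lit 8) (.split (nat_lit 9) (nat_lit 2) (.split (nat_lit 9) (nat_lit 3) (.split (nat_lit 9) (nat_lit 5) (.unj (nat_lit 0x10005) (nat_lit 0x100000000000000000000000000010001) (nat_lit 0x41500) (nat_lit 0x1000000000001000200020000000000000000)) (.unj (nat_lit 0x10005) (nat_lit 0x100000000000000000000000000010001) (nat_lit 0x40500) (nat_lit 0x1000000000000000100010000000000000000))) (.split (nat_lit 9) (nat_lit 5) (.unj (nat_lit 0x10005)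 (nat_lit 0x100000000000000000000000000010001) (nat_lit 0x41500) (nat_lit 0x1000000000001000200020000000000000000)) (.unj (nat_lit 0x10005) (nat_lit 0x100000000000000000000000000010001) (nat_lit 0x40500) (nat_lit 0x1000000000000000100010000000000000000)))) (.split (nat_lit 9) (nat_lit 3) (.split (nat_lit 9) (nat_lit 5) (.unj (nat_lit 0x10005) (nat_lit 0x100000000000000000000000000010001) (nat_lit 0x41500) (nat_lit 0x1000000000001000200020000000000000000)) (.unj (nat_lit 0x10005) (nat_lit 0x100000000000000000000000000010001) (nat_lit 0x40500) (nat_lit 0x1000000000000000100010000000000000000))) (.non (nat_lit 0) (nat_lit 4) (nat_lit 0x40054) (nat_lit 0x1000000000000000000000001000100010000)))) (.non (nat_lit 1) (nat_lit 4) (nat_lit 0xa8001) (nat_lit 0x1000200010000000000000000000000000002))) (.non (nat_lit 1) (nat_lit 4) (nat_lit 0xaa001) (nat_lit 0x1000200020001000000000000000000000002))) (.non (nat_lit 1) (nat_lit 4) (nat_lit 0xaa801) (nat_lit 0x1000200020002000100000000000000000002))) (.star (nat_lit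 9) (nat_lit 1) (nat_lit 4))) (.star (nat_lit 9) (nat_lit 0) (nat_lit 4)))) (.split (nat_lit 9) (nat_lit 0) (.split (nat_lit 9) (nat_lit 1) (.split (nat_lit 9) (nat_lit 2) (.split (nat_lit 9) (nat_lit 6) (.split (nat_lit 9) (nat_lit 7) (.split (nat_lit 9) (nat_lit 8) (.split (nat_lit 9) (nat_lit 4) (.split (nat_lit 9) (nat_lit 5) (.split (nat_lit 9) (nat_lit 3) (.split (nat_lit 8) (nat_lit 0) (.sup (nat_lit 0x20006000b0010000d0000000000000000) (nat_lit 0x1000000000000000000000003000200040002)) (.non (nat_lit 1) (nat_lit 4) (nat_lit 0x15401) (nat_lit 0x400030002000100000000000000000003))) (.sup (nat_lit 0x30007000b0010000d0000000000000000) (nat_lit 0x3000000000000000000000004000200040001))) (.unj (nat_lit 0x10005) (nat_lit 0x100000000000000000000000000010001) (nat_lit 0x41500) (nat_lit 0x1000000000001000200020000000000000000))) (.split (nat_lit 9) (nat_lit 5) (.unj (nat_lit 0x10005) (nat_lit 0x100000000000000000000000000010001) (nat_lit 0x41500) (nat_lit 0x1000000000001000200020000000000000000)) (.unj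 (nat_lit 0x10005) (nat_lit 0x100000000000000000000000000010001) (nat_lit 0x40500) (nat_lit 0x1000000000000000100010000000000000000)))) (.non (nat_lit 1) (nat_lit 4) (nat_lit 0xa8001) (nat_lit 0x1000200010000000000000000000000000002))) (.non (nat_lit 1) (nat_lit 4) (nat_lit 0xaa001) (nat_lit 0x1000200020001000000000000000000000002))) (.non (nat_lit 1) (nat_lit 4) (nat_lit 0xaa801) (nat_lit 0x1000200020002000100000000000000000002))) (.non (nat_lit 0) (nat_lit 4) (nat_lit 0x40054) (nat_lit 0x1000000000000000000000001000100010000))) (.non (nat_lit 0) (nat_lit 4) (nat_lit 0x40044) (nat_lit 0x1000000000000000000000001000000010000))) (.non (nat_lit 1) (nat_lit 4) (nat_lit 0x6a001) (nat_lit 0x2000300020001000000000000000000000004))))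

noncomputable def t1121_115 : Tr := (.ex (nat_lit 1) (.ex (nat_lit 2) t1121_114 (.split (nat_lit 9) (nat_lit 0) (.split (nat_lit 9) (nat_lit 1) (.split (nat_lit 9) (nat_lit 3) (.split (nat_lit 9) (nat_lit 6) (.split (nat_lit 9) (nat_lit 7) (.split (nat_lit 9) (nat_lit 8) (.split (nat_lit 9) (nat_lit 4) (.split (nat_lit 9) (nat_lit 5) (.split (nat_lit 9) (nat_lit 2) (.split (nat_lit 8) (nat_lit 0) (.sup (nat_lit 0x20006000b0010000d0000000000000000) (nat_lit 0x1000000000000000000000002000300040002)) (.non (nat_lit 1) (nat_lit 4) (nat_lit 0x15401) (nat_lit 0x400030002000100000000000000000003))) (.sup (nat_lit 0x30007000b0010000d0000000000000000) (nat_lit 0x3000000000000000000000002000400040001))) (.unj (nat_lit 0x10005) (nat_lit 0x100000000000000000000000000010001) (nat_lit 0x41500) (nat_lit 0x1000000000001000200020000000000000000))) (.split (nat_lit 9) (nat_lit 5) (.unj (nat_lit 0x10005) (nat_lit 0x100000000000000000000000000010001) (nat_lit 0x41500) (nat_lit 0x1000000000001000200020000000000000000))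 (.unj (nat_lit 0x10005) (nat_lit 0x100000000000000000000000000010001) (nat_lit 0x40500) (nat_lit 0x1000000000000000100010000000000000000)))) (.non (nat_lit 1) (nat_lit 4) (nat_lit 0xa8001) (nat_lit 0x1000200010000000000000000000000000002))) (.non (nat_lit 1) (nat_lit 4) (nat_lit 0xaa001) (nat_lit 0x1000200020001000000000000000000000002))) (.non (nat_lit 1) (nat_lit 4) (nat_lit 0xaa801) (nat_lit 0x1000200020002000100000000000000000002))) (.non (nat_lit 0) (nat_lit 4) (nat_lit 0x40054) (nat_lit 0x1000000000000000000000001000100010000))) (.non (nat_lit 0) (nat_lit 4) (nat_lit 0x40014) (nat_lit 0x1000000000000000000000000000100010000))) (.non (nat_lit 1) (nat_lit 4) (nat_lit 0x6a001) (nat_lit 0x2000300020001000000000000000000000004)))) (.split (nat_lit 9) (nat_lit 0) (.split (nat_lit 9) (nat_lit 2) (.split (nat_lit 9) (nat_lit 3) (.split (nat_lit 9) (nat_lit 4) (.split (nat_lit 9) (nat_lit 5) (.split (nat_lit 9) (nat_lit 6) (.split (nat_lit 9) (nat_lit 7) (.split (nat_lit 9) (nat_lit 8) (.sup (nat_lit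 0x30007000b0010000d0000000000000000) (nat_lit 0x2000000000000000000000002000200040001)) (.non (nat_lit 1) (nat_lit 4) (nat_lit 0xa8001) (nat_lit 0x1000200010000000000000000000000000002))) (.non (nat_lit 0) (nat_lit 4) (nat_lit 0x55054) (nat_lit 0x2000100020001000000000001000100020000))) (.non (nat_lit 0) (nat_lit 4) (nat_lit 0x45454) (nat_lit 0x2000000010002000100000001000100020000))) (.star (nat_lit 9) (nat_lit 1) (nat_lit 5))) (.star (nat_lit 9) (nat_lit 1) (nat_lit 4))) (.non (nat_lit 0) (nat_lit 4) (nat_lit 0x40044) (nat_lit 0x1000000000000000000000001000000010000))) (.non (nat_lit 0) (nat_lit 4) (nat_lit 0x40014) (nat_lit 0x1000000000000000000000000000100010000))) (.non (nat_lit 1) (nat_lit 4) (nat_lit 0x6a001) (nat_lit 0x2000300020001000000000000000000000004))))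

noncomputable def t1121_116 : Tr := (.ex (nat_lit 4) (.split (nat_lit 8) (nat_lit 0) (.split (nat_lit 8) (nat_lit 7) (.split (nat_lit 6) (nat_lit 3) (.pd (.cons (nat_lit 0) (nat_lit 6) (nat_lit 0) (nat_lit 0x770441110) (nat_lit 0xf423fb71ae00000f423f54591f423ff423f7a11d00000) (.cons (nat_lit 1) (nat_lit 6) (nat_lit 0) (nat_lit 0x80443200) (nat_lit 0xb71aef423f00000f423f54591f423ff423f00000a2c28) (.cons (nat_lit 1) (nat_lit 7) (nat_lit 0) (nat_lit 0x3653200) (nat_lit 0xf423f00000437a254591f423f174eaf423f00000b71ae) (.cons (nat_lit 3) (nat_lit 8) (nat_lit 0) (nat_lit 0x65440100) (nat_lit 0xf423fb71aea2c280473700000f423fb71ae1f156) .nil)))) (.leaf (.cons (nat_lit 0x1544) (nat_lit 0x3000400030002000000010000) (.cons (nat_lit 0x5540) (nat_lit 0x10002000200020001000000000000) (.cons (nat_lit 0x15005) (nat_lit 0x300020001000000000000000000030004) (.cons (nat_lit 0x10045) (nat_lit 0x100000000000000000001000000020002) (.cons (nat_lit 0x10015) (nat_lit 0x100000000000000000000000100020002) .nil))))) (.cons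 (nat_lit 0x111101110) (nat_lit 0x10001) (nat_lit 0xd) (nat_lit 0x320104650) .nil))) (.non (nat_lit 0) (nat_lit 4) (nat_lit 0xa840) (nat_lit 0x10002000100000002000000000000))) (.non (nat_lit 0) (nat_lit 4) (nat_lit 0x25440) (nat_lit 0x100020002000100000001000000000000))) (.non (nat_lit 1) (nat_lit 4) (nat_lit 0x2a881) (nat_lit 0x200020002000100000001000000000002))) (.split (nat_lit 9) (nat_lit 0) (.split (nat_lit 9) (nat_lit 1) (.split (nat_lit 9) (nat_lit 3) (.split (nat_lit 9) (nat_lit 5) (.split (nat_lit 9) (nat_lit 6) (.split (nat_lit 9) (nat_lit 7) (.split (nat_lit 9) (nat_lit 8) (.split (nat_lit 9) (nat_lit 2) (.unj (nat_lit 0x10015) (nat_lit 0x100000000000000000000000100020002) (nat_lit 0x41500) (nat_lit 0x1000000000001000200020000000000000000)) (.split (nat_lit 9) (nat_lit 2) (.sup (nat_lit 0x50000000000000000000000020009000a) (nat_lit 0x2000000000005000a00090000000000000000)) (.non (nat_lit 0) (nat_lit 4) (nat_lit 0x85454) (nat_lit 0x1000000010002000100000002000200020000)))) (.non (nat_lit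 0) (nat_lit 4) (nat_lit 0x55454) (nat_lit 0x1000200030004000200000003000100020000))) (.non (nat_lit 0) (nat_lit 4) (nat_lit 0x55440) (nat_lit 0x1000100020002000100000001000000000000))) (.non (nat_lit 0) (nat_lit 4) (nat_lit 0x45440) (nat_lit 0x1000000010002000100000001000000000000))) (.non (nat_lit 0) (nat_lit 4) (nat_lit 0x55444) (nat_lit 0x1000100020003000200000002000000010000))) (.non (nat_lit 0) (nat_lit 4) (nat_lit 0x45444) (nat_lit 0x1000000010002000100000002000000010000))) (.star (nat_lit 9) (nat_lit 1) (nat_lit 4))) (.star (nat_lit 9) (nat_lit 0) (nat_lit 4))))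

noncomputable def t1121_117 : Tr := (.ex (nat_lit 4) (.split (nat_lit 9) (nat_lit 2) (.split (nat_lit 8) (nat_lit 0) (.split (nat_lit 8) (nat_lit 7) (.split (nat_lit 6) (nat_lit 3) (.pd (.cons (nat_lit 0) (nat_lit 6) (nat_lit 0) (nat_lit 0x2770441110) (nat_lit 0xf423ff423fb71ae00000f423f54591f423fb71ae65b9700000) (.cons (nat_lit 1) (nat_lit 6) (nat_lit 0) (nat_lit 0x2080443200) (nat_lit 0xf423fb71aef423f00000f423f54591f423fb71ae00000a2c28) (.cons (nat_lit 1) (nat_lit 7) (nat_lit 0) (nat_lit 0x2003653200) (nat_lit 0xf423ff423f00000437a254591f423f174eab71ae00000b71ae) (.cons (nat_lit 3) (nat_lit 8) (nat_lit 0) (nat_lit 0x2065440100) (nat_lit 0xf423f00000f423fb71aea2c280473700000b71aea2c2804737) .nil)))) (.leaf (.cons (nat_lit 0x1544) (nat_lit 0x3000400030002000000010000) (.cons (nat_lit 0x5540) (nat_lit 0x10002000200020001000000000000) (.cons (nat_lit 0x15005) (nat_lit 0x300020001000000000000000000030004) (.cons (nat_lit 0x10045) (nat_lit 0x100000000000000000001000000020002) (.cons (nat_lit 0x10015)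 (nat_lit 0x100000000000000000000000100020002) .nil))))) (.cons (nat_lit 0x1111101110) (nat_lit 0x10001) (nat_lit 0xe) (nat_lit 0x7320104650) .nil))) (.non (nat_lit 0) (nat_lit 4) (nat_lit 0xa840) (nat_lit 0x10002000100000002000000000000))) (.non (nat_lit 0) (nat_lit 4) (nat_lit 0x25440) (nat_lit 0x100020002000100000001000000000000))) (.non (nat_lit 1) (nat_lit 4) (nat_lit 0x2a881) (nat_lit 0x200020002000100000001000000000002))) (.non (nat_lit 0) (nat_lit 4) (nat_lit 0x85454) (nat_lit 0x1000000010002000100000002000200020000))) (.split (nat_lit 0xa) (nat_lit 0) (.split (nat_lit 0xa) (nat_lit 1) (.split (nat_lit 0xa) (nat_lit 2) (.split (nat_lit 0xa) (nat_lit 3) (.split (nat_lit 0xa) (nat_lit 5) (.split (nat_lit 0xa) (nat_lit 6) (.split (nat_lit 0xa) (nat_lit 7) (.split (nat_lit 0xa) (nat_lit 8) (.split (nat_lit 0xa) (nat_lit 9) (.unj (nat_lit 0x10015) (nat_lit 0x100000000000000000000000100020002) (nat_lit 0x101500) (nat_lit 0x10000000000000001000200020000000000000000)) (.non (nat_lit 0) (nat_lit 4)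 (nat_lit 0x155454) (nat_lit 0x10002000200040006000300000005000300040000))) (.non (nat_lit 0) (nat_lit 4) (nat_lit 0x115454) (nat_lit 0x10000000200030004000200000003000100020000))) (.non (nat_lit 0) (nat_lit 4) (nat_lit 0x115440) (nat_lit 0x10000000100020002000100000001000000000000))) (.non (nat_lit 0) (nat_lit 4) (nat_lit 0x105440) (nat_lit 0x10000000000010002000100000001000000000000))) (.non (nat_lit 0) (nat_lit 4) (nat_lit 0x115444) (nat_lit 0x10000000100020003000200000002000000010000))) (.non (nat_lit 0) (nat_lit 4) (nat_lit 0x105444) (nat_lit 0x10000000000010002000100000002000000010000))) (.non (nat_lit 0) (nat_lit 4) (nat_lit 0x145454) (nat_lit 0x10001000000010002000100000002000200020000))) (.star (nat_lit 0xa) (nat_lit 1) (nat_lit 4))) (.star (nat_lit 0xa) (nat_lit 0) (nat_lit 4))))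

noncomputable def t1121_118 : Tr := (.ex (nat_lit 0) (.ex (nat_lit 2) t1121_116 (.split (nat_lit 9) (nat_lit 1) (.split (nat_lit 9) (nat_lit 3) (.split (nat_lit 9) (nat_lit 5) (.split (nat_lit 9) (nat_lit 6) (.split (nat_lit 9) (nat_lit 7) (.split (nat_lit 9) (nat_lit 8) (.split (nat_lit 9) (nat_lit 0) (.split (nat_lit 9) (nat_lit 4) (.st (nat_lit 2) (nat_lit 0) (nat_lit 4) (nat_lit 0x45454) (nat_lit 0x1000000010002000100000002000200020000) (nat_lit 1) (nat_lit 1) (.st (nat_lit 9) (nat_lit 0) (nat_lit 4) (nat_lit 0x55454) (nat_lit 0x2000200040006000300000005000300040000) (nat_lit 1) (nat_lit 1) t1121_117)) (.split (nat_lit 9) (nat_lit 2) (.sup (nat_lit 0x50000000000000000000000020009000a) (nat_lit 0x2000000000005000a00090000000000000000)) (.non (nat_lit 0) (nat_lit 4) (nat_lit 0x85454) (nat_lit 0x1000000010002000100000002000200020000)))) (.split (nat_lit 9) (nat_lit 4) (.sup (nat_lit 0x4000000000000000000000000000400030005) (nat_lit 0x20003000500040001000000000000)) (.star (nat_lit 9) (nat_lit 0)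 (nat_lit 4)))) (.non (nat_lit 0) (nat_lit 4) (nat_lit 0x55054) (nat_lit 0x1000100010001000000000001000100010000))) (.non (nat_lit 0) (nat_lit 4) (nat_lit 0x55440) (nat_lit 0x1000100020002000100000001000000000000))) (.non (nat_lit 0) (nat_lit 4) (nat_lit 0x45440) (nat_lit 0x1000000010002000100000001000000000000))) (.non (nat_lit 0) (nat_lit 4) (nat_lit 0x55444) (nat_lit 0x1000100020003000200000002000000010000))) (.non (nat_lit 0) (nat_lit 4) (nat_lit 0x45444) (nat_lit 0x1000000010002000100000002000000010000))) (.non (nat_lit 0) (nat_lit 4) (nat_lit 0x40014) (nat_lit 0x1000000000000000000000000000100010000)))) (.split (nat_lit 9) (nat_lit 1) (.split (nat_lit 9) (nat_lit 3) (.split (nat_lit 9) (nat_lit 4) (.split (nat_lit 9) (nat_lit 5) (.split (nat_lit 9) (nat_lit 6) (.split (nat_lit 9) (nat_lit 7) (.split (nat_lit 9) (nat_lit 8) (.split (nat_lit 9) (nat_lit 2) (.sup (nat_lit 0x500000000000000000000000000050009000a) (nat_lit 0x30007000a00080001000000000000)) (.sup (nat_lit 0x4000000000000000000000000000400030005)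 (nat_lit 0x20003000500040001000000000000))) (.non (nat_lit 0) (nat_lit 4) (nat_lit 0x55454) (nat_lit 0x1000200030004000200000003000100020000))) (.non (nat_lit 0) (nat_lit 4) (nat_lit 0x55440) (nat_lit 0x1000100020002000100000001000000000000))) (.non (nat_lit 0) (nat_lit 4) (nat_lit 0x45440) (nat_lit 0x1000000010002000100000001000000000000))) (.star (nat_lit 9) (nat_lit 0) (nat_lit 5))) (.star (nat_lit 9) (nat_lit 0) (nat_lit 4))) (.non (nat_lit 0) (nat_lit 4) (nat_lit 0x45444) (nat_lit 0x1000000010002000100000002000000010000))) (.non (nat_lit 0) (nat_lit 4) (nat_lit 0x45454) (nat_lit 0x1000000010002000100000002000100020000))))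

noncomputable def t1121_119 : Tr := (.ex (nat_lit 4) (.split (nat_lit 8) (nat_lit 0) (.split (nat_lit 8) (nat_lit 7) (.split (nat_lit 6) (nat_lit 2) (.pd (.cons (nat_lit 0) (nat_lit 6) (nat_lit 0) (nat_lit 0x770441110) (nat_lit 0xf423fb71ae00000f423f54591f423ff423f7a11d00000) (.cons (nat_lit 1) (nat_lit 6) (nat_lit 0) (nat_lit 0x80443200) (nat_lit 0xb71aef423f00000f423f54591f423ff423f00000a2c28) (.cons (nat_lit 1) (nat_lit 7) (nat_lit 0) (nat_lit 0x2653200) (nat_lit 0xf423f00000437a254591f423ff423f174ea00000b71ae) (.cons (nat_lit 2) (nat_lit 8) (nat_lit 0) (nat_lit 0x65441000) (nat_lit 0xf423fb71aea2c2804737f423f00000b71ae1f156) .nil)))) (.leaf (.cons (nat_lit 0x1514) (nat_lit 0x3000400030000000200010000) (.cons (nat_lit 0x5510) (nat_lit 0x10002000200020000000100000000) (.cons (nat_lit 0x15005) (nat_lit 0x300020001000000000000000000030004) (.cons (nat_lit 0x10045) (nat_lit 0x100000000000000000001000000020002) (.cons (nat_lit 0x10015) (nat_lit 0x100000000000000000000000100020002) .nil))))) (.cons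 (nat_lit 0x111101110) (nat_lit 0x10001) (nat_lit 0xd) (nat_lit 0x320106450) .nil))) (.non (nat_lit 0) (nat_lit 4) (nat_lit 0xa810) (nat_lit 0x10002000100000000000200000000))) (.non (nat_lit 0) (nat_lit 4) (nat_lit 0x25410) (nat_lit 0x100020002000100000000000100000000))) (.non (nat_lit 1) (nat_lit 4) (nat_lit 0x2a821) (nat_lit 0x200020002000100000000000100000002))) (.split (nat_lit 9) (nat_lit 0) (.split (nat_lit 9) (nat_lit 1) (.split (nat_lit 9) (nat_lit 2) (.split (nat_lit 9) (nat_lit 5) (.split (nat_lit 9) (nat_lit 6) (.split (nat_lit 9) (nat_lit 7) (.split (nat_lit 9) (nat_lit 8) (.split (nat_lit 9) (nat_lit 3) (.unj (nat_lit 0x10045) (nat_lit 0x100000000000000000001000000020002) (nat_lit 0x41500) (nat_lit 0x1000000000001000200020000000000000000)) (.split (nat_lit 9) (nat_lit 3) (.sup (nat_lit 0x50000000000000000000200000009000a) (nat_lit 0x2000000000005000a00090000000000000000)) (.non (nat_lit 0) (nat_lit 4) (nat_lit 0x85454) (nat_lit 0x1000000010002000100000002000200020000)))) (.non (nat_lit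 0) (nat_lit 4) (nat_lit 0x55454) (nat_lit 0x1000200030004000200000001000300020000))) (.non (nat_lit 0) (nat_lit 4) (nat_lit 0x55410) (nat_lit 0x1000100020002000100000000000100000000))) (.non (nat_lit 0) (nat_lit 4) (nat_lit 0x45410) (nat_lit 0x1000000010002000100000000000100000000))) (.non (nat_lit 0) (nat_lit 4) (nat_lit 0x55414) (nat_lit 0x1000100020003000200000000000200010000))) (.non (nat_lit 0) (nat_lit 4) (nat_lit 0x45414) (nat_lit 0x1000000010002000100000000000200010000))) (.star (nat_lit 9) (nat_lit 1) (nat_lit 4))) (.star (nat_lit 9) (nat_lit 0) (nat_lit 4))))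

noncomputable def t1121_120 : Tr := (.ex (nat_lit 4) (.split (nat_lit 9) (nat_lit 3) (.split (nat_lit 8) (nat_lit 0) (.split (nat_lit 8) (nat_lit 7) (.split (nat_lit 6) (nat_lit 2) (.pd (.cons (nat_lit 0) (nat_lit 6) (nat_lit 0) (nat_lit 0x3770441110) (nat_lit 0xf423ff423fb71ae00000f423f54591b71aef423f65b9700000) (.cons (nat_lit 1) (nat_lit 6) (nat_lit 0) (nat_lit 0x3080443200) (nat_lit 0xf423fb71aef423f00000f423f54591b71aef423f00000a2c28) (.cons (nat_lit 1) (nat_lit 7) (nat_lit 0) (nat_lit 0x3002653200) (nat_lit 0xf423ff423f00000437a254591f423fb71ae174ea00000b71ae) (.cons (nat_lit 2) (nat_lit 8) (nat_lit 0) (nat_lit 0x3065441000) (nat_lit 0xf423f00000f423fb71aea2c2804737b71ae00000a2c2804737) .nil)))) (.leaf (.cons (nat_lit 0x1514) (nat_lit 0x3000400030000000200010000) (.cons (nat_lit 0x5510) (nat_lit 0x10002000200020000000100000000) (.cons (nat_lit 0x15005) (nat_lit 0x300020001000000000000000000030004) (.cons (nat_lit 0x10045) (nat_lit 0x100000000000000000001000000020002) (.cons (nat_lit 0x10015)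 (nat_lit 0x100000000000000000000000100020002) .nil))))) (.cons (nat_lit 0x1111101110) (nat_lit 0x10001) (nat_lit 0xe) (nat_lit 0x7320106450) .nil))) (.non (nat_lit 0) (nat_lit 4) (nat_lit 0xa810) (nat_lit 0x10002000100000000000200000000))) (.non (nat_lit 0) (nat_lit 4) (nat_lit 0x25410) (nat_lit 0x100020002000100000000000100000000))) (.non (nat_lit 1) (nat_lit 4) (nat_lit 0x2a821) (nat_lit 0x200020002000100000000000100000002))) (.non (nat_lit 0) (nat_lit 4) (nat_lit 0x85454) (nat_lit 0x1000000010002000100000002000200020000))) (.split (nat_lit 0xa) (nat_lit 0) (.split (nat_lit 0xa) (nat_lit 1) (.split (nat_lit 0xa) (nat_lit 2) (.split (nat_lit 0xa) (nat_lit 3) (.split (nat_lit 0xa) (nat_lit 5) (.split (nat_lit 0xa) (nat_lit 6) (.split (nat_lit 0xa) (nat_lit 7) (.split (nat_lit 0xa) (nat_lit 8) (.split (nat_lit 0xa) (nat_lit 9) (.unj (nat_lit 0x10045) (nat_lit 0x100000000000000000001000000020002) (nat_lit 0x101500) (nat_lit 0x10000000000000001000200020000000000000000)) (.non (nat_lit 0) (nat_lit 4)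 (nat_lit 0x155454) (nat_lit 0x10002000200040006000300000003000500040000))) (.non (nat_lit 0) (nat_lit 4) (nat_lit 0x115454) (nat_lit 0x10000000200030004000200000001000300020000))) (.non (nat_lit 0) (nat_lit 4) (nat_lit 0x115410) (nat_lit 0x10000000100020002000100000000000100000000))) (.non (nat_lit 0) (nat_lit 4) (nat_lit 0x105410) (nat_lit 0x10000000000010002000100000000000100000000))) (.non (nat_lit 0) (nat_lit 4) (nat_lit 0x115414) (nat_lit 0x10000000100020003000200000000000200010000))) (.non (nat_lit 0) (nat_lit 4) (nat_lit 0x145454) (nat_lit 0x10001000000010002000100000002000200020000))) (.non (nat_lit 0) (nat_lit 4) (nat_lit 0x105414) (nat_lit 0x10000000000010002000100000000000200010000))) (.star (nat_lit 0xa) (nat_lit 1) (nat_lit 4))) (.star (nat_lit 0xa) (nat_lit 0) (nat_lit 4))))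

noncomputable def t1121_121 : Tr := (.ex (nat_lit 0) (.ex (nat_lit 3) t1121_119 (.split (nat_lit 9) (nat_lit 1) (.split (nat_lit 9) (nat_lit 2) (.split (nat_lit 9) (nat_lit 5) (.split (nat_lit 9) (nat_lit 6) (.split (nat_lit 9) (nat_lit 7) (.split (nat_lit 9) (nat_lit 8) (.split (nat_lit 9) (nat_lit 0) (.split (nat_lit 9) (nat_lit 4) (.st (nat_lit 3) (nat_lit 0) (nat_lit 4) (nat_lit 0x45454) (nat_lit 0x1000000010002000100000002000200020000) (nat_lit 1) (nat_lit 1) (.st (nat_lit 9) (nat_lit 0) (nat_lit 4) (nat_lit 0x55454) (nat_lit 0x2000200040006000300000003000500040000) (nat_lit 1) (nat_lit 1) t1121_120)) (.split (nat_lit 9) (nat_lit 3) (.sup (nat_lit 0x50000000000000000000200000009000a) (nat_lit 0x2000000000005000a00090000000000000000)) (.non (nat_lit 0) (nat_lit 4) (nat_lit 0x85454) (nat_lit 0x1000000010002000100000002000200020000)))) (.split (nat_lit 9) (nat_lit 4) (.sup (nat_lit 0x4000000000000000000000004000000030005) (nat_lit 0x20003000500040000000100000000)) (.star (nat_lit 9) (nat_lit 0)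 (nat_lit 4)))) (.non (nat_lit 0) (nat_lit 4) (nat_lit 0x55054) (nat_lit 0x1000100010001000000000001000100010000))) (.non (nat_lit 0) (nat_lit 4) (nat_lit 0x55410) (nat_lit 0x1000100020002000100000000000100000000))) (.non (nat_lit 0) (nat_lit 4) (nat_lit 0x45410) (nat_lit 0x1000000010002000100000000000100000000))) (.non (nat_lit 0) (nat_lit 4) (nat_lit 0x55414) (nat_lit 0x1000100020003000200000000000200010000))) (.non (nat_lit 0) (nat_lit 4) (nat_lit 0x45414) (nat_lit 0x1000000010002000100000000000200010000))) (.non (nat_lit 0) (nat_lit 4) (nat_lit 0x40044) (nat_lit 0x1000000000000000000000001000000010000)))) (.split (nat_lit 9) (nat_lit 1) (.split (nat_lit 9) (nat_lit 2) (.split (nat_lit 9) (nat_lit 4) (.split (nat_lit 9) (nat_lit 5) (.split (nat_lit 9) (nat_lit 6) (.split (nat_lit 9) (nat_lit 7) (.split (nat_lit 9) (nat_lit 8) (.split (nat_lit 9) (nat_lit 3) (.sup (nat_lit 0x500000000000000000000000500000009000a) (nat_lit 0x30007000a00080000000100000000)) (.sup (nat_lit 0x4000000000000000000000004000000030005)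 (nat_lit 0x20003000500040000000100000000))) (.non (nat_lit 0) (nat_lit 4) (nat_lit 0x55454) (nat_lit 0x1000200030004000200000001000300020000))) (.non (nat_lit 0) (nat_lit 4) (nat_lit 0x55410) (nat_lit 0x1000100020002000100000000000100000000))) (.non (nat_lit 0) (nat_lit 4) (nat_lit 0x45410) (nat_lit 0x1000000010002000100000000000100000000))) (.star (nat_lit 9) (nat_lit 0) (nat_lit 5))) (.star (nat_lit 9) (nat_lit 0) (nat_lit 4))) (.non (nat_lit 0) (nat_lit 4) (nat_lit 0x45414) (nat_lit 0x1000000010002000100000000000200010000))) (.non (nat_lit 0) (nat_lit 4) (nat_lit 0x45454) (nat_lit 0x1000000010002000100000001000200020000))))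

noncomputable def t1121_122 : Tr := (.ex (nat_lit 4) (.split (nat_lit 9) (nat_lit 2) (.split (nat_lit 7) (nat_lit 3) (.split (nat_lit 8) (nat_lit 7) (.split (nat_lit 8) (nat_lit 0) (.pd (.cons (nat_lit 0) (nat_lit 6) (nat_lit 0) (nat_lit 0x2730441110) (nat_lit 0xf423ff423fb71ae00000f423f54591a2c28b71ae4734e00000) (.cons (nat_lit 0) (nat_lit 7) (nat_lit 0) (nat_lit 0x2805441110) (nat_lit 0xf423ff423f00000f423fb71ae1f156f423fb71ae65b9700000) (.cons (nat_lit 1) (nat_lit 6) (nat_lit 0) (nat_lit 0x2080447200) (nat_lit 0xf423fa2c28b71ae00000f423f54591f423fb71ae0000098965) (.cons (nat_lit 1) (nat_lit 7) (nat_lit 0) (nat_lit 0x2005443200) (nat_lit 0xf423ff423f00000f423fb71ae1f156f423fb71ae00000b71ae) (.cons (nat_lit 3) (nat_lit 8) (nat_lit 0) (nat_lit 0x2065440100) (nat_lit 0xf423f00000f423fb71aea2c280473700000b71aea2c2804737) .nil))))) (.leaf (.cons (nat_lit 0x5540) (nat_lit 0x20003000400030001000000000000) (.cons (nat_lit 0x15005) (nat_lit 0x300020001000000000000000000030004) (.cons (nat_lit 0x10045)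 (nat_lit 0x100000000000000000001000000020002) (.cons (nat_lit 0x10015) (nat_lit 0x100000000000000000000000100020002) .nil)))) .nil)) (.non (nat_lit 1) (nat_lit 4) (nat_lit 0x2a081) (nat_lit 0x200020001000000000001000000000002))) (.non (nat_lit 0) (nat_lit 4) (nat_lit 0x25040) (nat_lit 0x100020001000000000001000000000000))) (.non (nat_lit 0) (nat_lit 4) (nat_lit 0x2a040) (nat_lit 0x100020001000000000002000000000000))) (.non (nat_lit 0) (nat_lit 4) (nat_lit 0x95054) (nat_lit 0x1000100020001000000000002000200020000))) (.split (nat_lit 0xa) (nat_lit 0) (.split (nat_lit 0xa) (nat_lit 1) (.split (nat_lit 0xa) (nat_lit 2) (.split (nat_lit 0xa) (nat_lit 3) (.split (nat_lit 0xa) (nat_lit 5) (.split (nat_lit 0xa) (nat_lit 6) (.split (nat_lit 0xa) (nat_lit 7) (.split (nat_lit 0xa) (nat_lit 8) (.split (nat_lit 0xa) (nat_lit 9) (.unj (nat_lit 0x55) (nat_lit 0x1000100020002) (nat_lit 0x101500) (nat_lit 0x10000000000000001000200020000000000000000)) (.non (nat_lit 0) (nat_lit 4) (nat_lit 0x155454) (nat_lit 0x10002000300060004000200000005000300040000)))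 (.non (nat_lit 0) (nat_lit 4) (nat_lit 0x115444) (nat_lit 0x10000000200030002000100000002000000010000))) (.non (nat_lit 0) (nat_lit 4) (nat_lit 0x115040) (nat_lit 0x10000000100020001000000000001000000000000))) (.non (nat_lit 0) (nat_lit 4) (nat_lit 0x115440) (nat_lit 0x10000000100020002000100000001000000000000))) (.non (nat_lit 0) (nat_lit 4) (nat_lit 0x115454) (nat_lit 0x10000000200040003000200000003000100020000))) (.non (nat_lit 0) (nat_lit 4) (nat_lit 0x115044) (nat_lit 0x10000000100020001000000000002000000010000))) (.non (nat_lit 0) (nat_lit 4) (nat_lit 0x155054) (nat_lit 0x10001000100020001000000000002000200020000))) (.star (nat_lit 0xa) (nat_lit 1) (nat_lit 4))) (.star (nat_lit 0xa) (nat_lit 0) (nat_lit 4))))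

noncomputable def t1121_123 : Tr := (.ex (nat_lit 2) (.ex (nat_lit 4) (.split (nat_lit 7) (nat_lit 3) (.split (nat_lit 8) (nat_lit 7) (.split (nat_lit 8) (nat_lit 0) (.pd (.cons (nat_lit 0) (nat_lit 6) (nat_lit 0) (nat_lit 0x730441110) (nat_lit 0xf423fb71ae00000f423f54591a2c28f423f5b8d400000) (.cons (nat_lit 0) (nat_lit 7) (nat_lit 0) (nat_lit 0x805441110) (nat_lit 0xf423f00000f423fb71ae1f156f423ff423f7a11d00000) (.cons (nat_lit 1) (nat_lit 6) (nat_lit 0) (nat_lit 0x80447200) (nat_lit 0xa2c28b71ae00000f423f54591f423ff423f0000098965) (.cons (nat_lit 1) (nat_lit 7) (nat_lit 0) (nat_lit 0x5443200) (nat_lit 0xf423f00000f423fb71ae1f156f423ff423f00000b71ae) (.cons (nat_lit 3) (nat_lit 8) (nat_lit 0) (nat_lit 0x65440100) (nat_lit 0xf423fb71aea2c280473700000f423fb71ae1f156) .nil))))) (.leaf (.cons (nat_lit 0x5540) (nat_lit 0x20003000400030001000000000000) (.cons (nat_lit 0x15005) (nat_lit 0x300020001000000000000000000030004) (.cons (nat_lit 0x10045) (nat_lit 0x100000000000000000001000000020002) (.cons (nat_lit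 0x10015) (nat_lit 0x100000000000000000000000100020002) .nil)))) .nil)) (.non (nat_lit 1) (nat_lit 4) (nat_lit 0x2a081) (nat_lit 0x200020001000000000001000000000002))) (.non (nat_lit 0) (nat_lit 4) (nat_lit 0x25040) (nat_lit 0x100020001000000000001000000000000))) (.non (nat_lit 0) (nat_lit 4) (nat_lit 0x2a040) (nat_lit 0x100020001000000000002000000000000))) (.split (nat_lit 9) (nat_lit 0) (.split (nat_lit 9) (nat_lit 1) (.split (nat_lit 9) (nat_lit 3) (.split (nat_lit 9) (nat_lit 5) (.split (nat_lit 9) (nat_lit 6) (.split (nat_lit 9) (nat_lit 7) (.split (nat_lit 9) (nat_lit 8) (.split (nat_lit 9) (nat_lit 2) (.unj (nat_lit 0x55) (nat_lit 0x1000100020002) (nat_lit 0x41500) (nat_lit 0x1000000000001000200020000000000000000)) (.unj (nat_lit 0x10045) (nat_lit 0x100000000000000000001000000020002) (nat_lit 0x41500) (nat_lit 0x1000000000001000200020000000000000000))) (.non (nat_lit 0) (nat_lit 4) (nat_lit 0x55444) (nat_lit 0x1000200030002000100000002000000010000))) (.non (nat_lit 0) (nat_lit 4) (nat_lit 0x55040)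 (nat_lit 0x1000100020001000000000001000000000000))) (.non (nat_lit 0) (nat_lit 4) (nat_lit 0x55440) (nat_lit 0x1000100020002000100000001000000000000))) (.non (nat_lit 0) (nat_lit 4) (nat_lit 0x55454) (nat_lit 0x1000200040003000200000003000100020000))) (.non (nat_lit 0) (nat_lit 4) (nat_lit 0x55044) (nat_lit 0x1000100020001000000000002000000010000))) (.star (nat_lit 9) (nat_lit 1) (nat_lit 4))) (.star (nat_lit 9) (nat_lit 0) (nat_lit 4)))) (.split (nat_lit 9) (nat_lit 1) (.split (nat_lit 9) (nat_lit 3) (.split (nat_lit 9) (nat_lit 5) (.split (nat_lit 9) (nat_lit 6) (.split (nat_lit 9) (nat_lit 7) (.split (nat_lit 9) (nat_lit 8) (.split (nat_lit 9) (nat_lit 0) (.split (nat_lit 9) (nat_lit 4) (.st (nat_lit 2) (nat_lit 0) (nat_lit 4) (nat_lit 0x55054) (nat_lit 0x1000100020001000000000002000200020000) (nat_lit 1) (nat_lit 1) (.st (nat_lit 9) (nat_lit 0) (nat_lit 4) (nat_lit 0x55454) (nat_lit 0x2000300060004000200000005000300040000) (nat_lit 1) (nat_lit 1) t1121_122)) (.unj (nat_lit 0x10045) (nat_lit 0x100000000000000000001000000020002)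 (nat_lit 0x41500) (nat_lit 0x1000000000001000200020000000000000000))) (.split (nat_lit 9) (nat_lit 4) (.sup (nat_lit 0x4000000000000000000000000000400030005) (nat_lit 0x20003000500040001000000000000)) (.star (nat_lit 9) (nat_lit 0) (nat_lit 4)))) (.non (nat_lit 0) (nat_lit 4) (nat_lit 0x55444) (nat_lit 0x1000200030002000100000002000000010000))) (.non (nat_lit 0) (nat_lit 4) (nat_lit 0x55040) (nat_lit 0x1000100020001000000000001000000000000))) (.non (nat_lit 0) (nat_lit 4) (nat_lit 0x55440) (nat_lit 0x1000100020002000100000001000000000000))) (.non (nat_lit 0) (nat_lit 4) (nat_lit 0x45454) (nat_lit 0x1000000010001000100000001000100010000))) (.non (nat_lit 0) (nat_lit 4) (nat_lit 0x55044) (nat_lit 0x1000100020001000000000002000000010000))) (.non (nat_lit 0) (nat_lit 4) (nat_lit 0x40014) (nat_lit 0x1000000000000000000000000000100010000))))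

noncomputable def t1121_124 : Tr := (.ex (nat_lit 4) (.split (nat_lit 7) (nat_lit 3) (.split (nat_lit 8) (nat_lit 7) (.split (nat_lit 8) (nat_lit 0) (.split (nat_lit 9) (nat_lit 0) (.pd (.cons (nat_lit 0) (nat_lit 6) (nat_lit 0) (nat_lit 0x9730441110) (nat_lit 0xf423ff423fb71ae00000f423f54591a2c28f423f5b8d400000) (.cons (nat_lit 0) (nat_lit 7) (nat_lit 0) (nat_lit 0x9805441110) (nat_lit 0xf423ff423f00000f423fb71ae1f156f423ff423f7a11d00000) (.cons (nat_lit 1) (nat_lit 6) (nat_lit 0) (nat_lit 0x80447200) (nat_lit 0xf423fa2c28b71ae00000f423f54591f423ff423f000005b8d4) (.cons (nat_lit 1) (nat_lit 7) (nat_lit 0) (nat_lit 0x5443200) (nat_lit 0xf423ff423f00000f423fb71ae1f156f423ff423f000007a11d) .nil)))) (.leaf (.cons (nat_lit 0x5540) (nat_lit 0x20003000400030001000000000000) (.cons (nat_lit 0x50005) (nat_lit 0x1000100000000000000000000000000020002) (.cons (nat_lit 0x40015) (nat_lit 0x1000000000000000000000000000100020002) .nil))) .nil)) (.non (nat_lit 1) (nat_lit 4) (nat_lit 0x95041) (nat_lit 0x1000200020001000000000001000000000002)))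 (.non (nat_lit 1) (nat_lit 4) (nat_lit 0x6a001) (nat_lit 0x2000300020001000000000000000000000004))) (.non (nat_lit 0) (nat_lit 4) (nat_lit 0x25040) (nat_lit 0x100020001000000000001000000000000))) (.non (nat_lit 0) (nat_lit 4) (nat_lit 0x2a040) (nat_lit 0x100020001000000000002000000000000))) (.split (nat_lit 0xa) (nat_lit 0) (.split (nat_lit 0xa) (nat_lit 1) (.split (nat_lit 0xa) (nat_lit 3) (.split (nat_lit 0xa) (nat_lit 5) (.split (nat_lit 0xa) (nat_lit 6) (.split (nat_lit 0xa) (nat_lit 7) (.split (nat_lit 0xa) (nat_lit 8) (.split (nat_lit 0xa) (nat_lit 2) (.split (nat_lit 0xa) (nat_lit 9) (.unj (nat_lit 0x55) (nat_lit 0x1000100020002) (nat_lit 0x101500) (nat_lit 0x10000000000000001000200020000000000000000)) (.unj (nat_lit 0x55) (nat_lit 0x1000100020002) (nat_lit 0x101500) (nat_lit 0x10000000000000001000200020000000000000000))) (.split (nat_lit 0xa) (nat_lit 9) (.unj (nat_lit 0x10045) (nat_lit 0x100000000000000000001000000020002) (nat_lit 0x101500) (nat_lit 0x10000000000000001000200020000000000000000))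 (.non (nat_lit 0) (nat_lit 4) (nat_lit 0x155454) (nat_lit 0x20001000300060004000200000005000300040000)))) (.non (nat_lit 0) (nat_lit 4) (nat_lit 0x115444) (nat_lit 0x10000000200030002000100000002000000010000))) (.non (nat_lit 0) (nat_lit 4) (nat_lit 0x115040) (nat_lit 0x10000000100020001000000000001000000000000))) (.non (nat_lit 0) (nat_lit 4) (nat_lit 0x115440) (nat_lit 0x10000000100020002000100000001000000000000))) (.non (nat_lit 0) (nat_lit 4) (nat_lit 0x115454) (nat_lit 0x10000000200040003000200000003000100020000))) (.non (nat_lit 0) (nat_lit 4) (nat_lit 0x115044) (nat_lit 0x10000000100020001000000000002000000010000))) (.star (nat_lit 0xa) (nat_lit 1) (nat_lit 4))) (.star (nat_lit 0xa) (nat_lit 0) (nat_lit 4))))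

noncomputable def t1121_125 : Tr := (.split (nat_lit 7) (nat_lit 3) (.split (nat_lit 6) (nat_lit 2) (.split (nat_lit 6) (nat_lit 3) (.split (nat_lit 8) (nat_lit 0) (.sup (nat_lit 0x50005000a0006) (nat_lit 0x100040007000a00080000000000000000)) (.st (nat_lit 0) (nat_lit 1) (nat_lit 4) (nat_lit 0x2a001) (nat_lit 0x300020001000000000000000000000004) (nat_lit 1) (nat_lit 2) (.st (nat_lit 6) (nat_lit 1) (nat_lit 4) (nat_lit 0x2a801) (nat_lit 0x200020002000100000000000000000002) (nat_lit 2) (nat_lit 1) (.st (nat_lit 7) (nat_lit 1) (nat_lit 4) (nat_lit 0x2a001) (nat_lit 0x200020001000000000000000000000002) (nat_lit 2) (nat_lit 1) (.st (nat_lit 8) (nat_lit 1) (nat_lit 4) (nat_lit 0x28001) (nat_lit 0x200010000000000000000000000000002) (nat_lit 2) (nat_lit 1) t1121_115))))) (.st (nat_lit 1) (nat_lit 0) (nat_lit 4) (nat_lit 0x5454) (nat_lit 0x10002000100000002000100020000) (nat_lit 1) (nat_lit 1) (.st (nat_lit 3) (nat_lit 0) (nat_lit 4) (nat_lit 0x5444) (nat_lit 0x10002000100000002000000010000) (nat_lit 1)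 (nat_lit 1) (.st (nat_lit 5) (nat_lit 0) (nat_lit 4) (nat_lit 0x15444) (nat_lit 0x100020003000200000002000000010000) (nat_lit 1) (nat_lit 1) (.st (nat_lit 6) (nat_lit 0) (nat_lit 4) (nat_lit 0x5440) (nat_lit 0x10002000100000001000000000000) (nat_lit 1) (nat_lit 1) (.st (nat_lit 7) (nat_lit 0) (nat_lit 4) (nat_lit 0x15440) (nat_lit 0x100020002000100000001000000000000) (nat_lit 1) (nat_lit 1) (.st (nat_lit 8) (nat_lit 0) (nat_lit 4) (nat_lit 0x15454) (nat_lit 0x200030004000200000003000100020000) (nat_lit 1) (nat_lit 1) t1121_118))))))) (.split (nat_lit 6) (nat_lit 3) (.st (nat_lit 1) (nat_lit 0) (nat_lit 4) (nat_lit 0x5454) (nat_lit 0x10002000100000001000200020000) (nat_lit 1) (nat_lit 1) (.st (nat_lit 2) (nat_lit 0) (nat_lit 4) (nat_lit 0x5414) (nat_lit 0x10002000100000000000200010000) (nat_lit 1) (nat_lit 1) (.st (nat_lit 5) (nat_lit 0) (nat_lit 4) (nat_lit 0x15414) (nat_lit 0x100020003000200000000000200010000) (nat_lit 1) (nat_lit 1) (.st (nat_lit 6) (nat_lit 0) (nat_lit 4) (nat_lit 0x5410) (nat_lit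 0x10002000100000000000100000000) (nat_lit 1) (nat_lit 1) (.st (nat_lit 7) (nat_lit 0) (nat_lit 4) (nat_lit 0x15410) (nat_lit 0x100020002000100000000000100000000) (nat_lit 1) (nat_lit 1) (.st (nat_lit 8) (nat_lit 0) (nat_lit 4) (nat_lit 0x15454) (nat_lit 0x200030004000200000001000300020000) (nat_lit 1) (nat_lit 1) t1121_121)))))) (.non (nat_lit 0) (nat_lit 4) (nat_lit 0x5450) (nat_lit 0x10002000100000001000100000000)))) (.split (nat_lit 6) (nat_lit 2) (.split (nat_lit 6) (nat_lit 3) (.st (nat_lit 1) (nat_lit 0) (nat_lit 4) (nat_lit 0x15054) (nat_lit 0x100020001000000000002000100020000) (nat_lit 1) (nat_lit 1) (.st (nat_lit 5) (nat_lit 0) (nat_lit 4) (nat_lit 0x15454) (nat_lit 0x200040003000200000003000100020000) (nat_lit 1) (nat_lit 1) (.st (nat_lit 6) (nat_lit 0) (nat_lit 4) (nat_lit 0x15440) (nat_lit 0x100020002000100000001000000000000) (nat_lit 1) (nat_lit 1) (.st (nat_lit 7) (nat_lit 0) (nat_lit 4) (nat_lit 0x15040) (nat_lit 0x100020001000000000001000000000000) (nat_lit 1) (nat_lit 1) (.ex (nat_lit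 0) t1121_123 (.split (nat_lit 9) (nat_lit 1) (.split (nat_lit 9) (nat_lit 3) (.split (nat_lit 9) (nat_lit 4) (.split (nat_lit 9) (nat_lit 5) (.split (nat_lit 9) (nat_lit 6) (.split (nat_lit 9) (nat_lit 7) (.split (nat_lit 9) (nat_lit 8) (.split (nat_lit 9) (nat_lit 2) t1121_124 (.sup (nat_lit 0x4000000000000000000000000000400030005) (nat_lit 0x20003000500040001000000000000))) (.non (nat_lit 0) (nat_lit 4) (nat_lit 0x55444) (nat_lit 0x1000200030002000100000002000000010000))) (.non (nat_lit 0) (nat_lit 4) (nat_lit 0x55040) (nat_lit 0x1000100020001000000000001000000000000))) (.non (nat_lit 0) (nat_lit 4) (nat_lit 0x55440) (nat_lit 0x1000100020002000100000001000000000000))) (.star (nat_lit 9) (nat_lit 0) (nat_lit 5))) (.star (nat_lit 9) (nat_lit 0) (nat_lit 4))) (.non (nat_lit 0) (nat_lit 4) (nat_lit 0x55044) (nat_lit 0x1000100020001000000000002000000010000))) (.non (nat_lit 0) (nat_lit 4) (nat_lit 0x55054) (nat_lit 0x1000100020001000000000002000100020000)))))))) (.non (nat_lit 0) (nat_lit 4) (nat_lit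 0x5040) (nat_lit 0x10001000000000001000000000000))) (.non (nat_lit 0) (nat_lit 4) (nat_lit 0x15450) (nat_lit 0x100020002000100000001000100000000))))

noncomputable def t1121_126 : Tr := (.ex (nat_lit 4) (.split (nat_lit 7) (nat_lit 2) (.split (nat_lit 9) (nat_lit 3) (.split (nat_lit 8) (nat_lit 7) (.split (nat_lit 8) (nat_lit 0) (.pd (.cons (nat_lit 0) (nat_lit 6) (nat_lit 0) (nat_lit 0x3720441110) (nat_lit 0xf423ff423fb71ae00000f423f54591b71aea2c284734e00000) (.cons (nat_lit 0) (nat_lit 7) (nat_lit 0) (nat_lit 0x3805441110) (nat_lit 0xf423ff423f00000f423fb71ae1f156b71aef423f65b9700000) (.cons (nat_lit 1) (nat_lit 6) (nat_lit 0) (nat_lit 0x3080443700) (nat_lit 0xf423fa2c28b71ae00000f423f54591b71aef423f0000098965) (.cons (nat_lit 1) (nat_lit 7) (nat_lit 0) (nat_lit 0x3005443200) (nat_lit 0xf423ff423f00000f423fb71ae1f156b71aef423f00000b71ae) (.cons (nat_lit 2) (nat_lit 8) (nat_lit 0) (nat_lit 0x3065441000) (nat_lit 0xf423f00000f423fb71aea2c2804737b71ae00000a2c2804737) .nil))))) (.leaf (.cons (nat_lit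 0x5510) (nat_lit 0x20003000400030000000100000000) (.cons (nat_lit 0x15005) (nat_lit 0x300020001000000000000000000030004) (.cons (nat_lit 0x10045) (nat_lit 0x100000000000000000001000000020002) (.cons (nat_lit 0x10015) (nat_lit 0x100000000000000000000000100020002) .nil)))) .nil)) (.non (nat_lit 1) (nat_lit 4) (nat_lit 0x2a021) (nat_lit 0x200020001000000000000000100000002))) (.non (nat_lit 0) (nat_lit 4) (nat_lit 0x25010) (nat_lit 0x100020001000000000000000100000000))) (.non (nat_lit 0) (nat_lit 4) (nat_lit 0x95054) (nat_lit 0x1000100020001000000000002000200020000))) (.non (nat_lit 0) (nat_lit 4) (nat_lit 0x2a010) (nat_lit 0x100020001000000000000000200000000))) (.split (nat_lit 0xa) (nat_lit 0) (.split (nat_lit 0xa) (nat_lit 1) (.split (nat_lit 0xa) (nat_lit 2) (.split (nat_lit 0xa) (nat_lit 3) (.split (nat_lit 0xa) (nat_lit 5) (.split (nat_lit 0xa) (nat_lit 6) (.split (nat_lit 0xa) (nat_lit 7) (.split (nat_lit 0xa) (nat_lit 8) (.split (nat_lit 0xa) (nat_lit 9) (.unj (nat_lit 0x55) (nat_lit 0x1000100020002)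 (nat_lit 0x101500) (nat_lit 0x10000000000000001000200020000000000000000)) (.non (nat_lit 0) (nat_lit 4) (nat_lit 0x155454) (nat_lit 0x10002000300060004000200000003000500040000))) (.non (nat_lit 0) (nat_lit 4) (nat_lit 0x115414) (nat_lit 0x10000000200030002000100000000000200010000))) (.non (nat_lit 0) (nat_lit 4) (nat_lit 0x115010) (nat_lit 0x10000000100020001000000000000000100000000))) (.non (nat_lit 0) (nat_lit 4) (nat_lit 0x115410) (nat_lit 0x10000000100020002000100000000000100000000))) (.non (nat_lit 0) (nat_lit 4) (nat_lit 0x115454) (nat_lit 0x10000000200040003000200000001000300020000))) (.non (nat_lit 0) (nat_lit 4) (nat_lit 0x155054) (nat_lit 0x10001000100020001000000000002000200020000))) (.non (nat_lit 0) (nat_lit 4) (nat_lit 0x115014) (nat_lit 0x10000000100020001000000000000000200010000))) (.star (nat_lit 0xa) (nat_lit 1) (nat_lit 4))) (.star (nat_lit 0xa) (nat_lit 0) (nat_lit 4))))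

noncomputable def t1121_127 : Tr := (.ex (nat_lit 3) (.ex (nat_lit 4) (.split (nat_lit 7) (nat_lit 2) (.split (nat_lit 8) (nat_lit 7) (.split (nat_lit 8) (nat_lit 0) (.pd (.cons (nat_lit 0) (nat_lit 6) (nat_lit 0) (nat_lit 0x720441110) (nat_lit 0xf423fb71ae00000f423f54591f423fa2c285b8d400000) (.cons (nat_lit 0) (nat_lit 7) (nat_lit 0) (nat_lit 0x805441110) (nat_lit 0xf423f00000f423fb71ae1f156f423ff423f7a11d00000) (.cons (nat_lit 1) (nat_lit 6) (nat_lit 0) (nat_lit 0x80443700) (nat_lit 0xa2c28b71ae00000f423f54591f423ff423f0000098965) (.cons (nat_lit 1) (nat_lit 7) (nat_lit 0) (nat_lit 0x5443200) (nat_lit 0xf423f00000f423fb71ae1f156f423ff423f00000b71ae) (.cons (nat_lit 2) (nat_lit 8) (nat_lit 0) (nat_lit 0x65441000) (nat_lit 0xf423fb71aea2c2804737f423f00000b71ae1f156) .nil))))) (.leaf (.cons (nat_lit 0x5510) (nat_lit 0x20003000400030000000100000000) (.cons (nat_lit 0x15005) (nat_lit 0x300020001000000000000000000030004) (.cons (nat_lit 0x10045) (nat_lit 0x100000000000000000001000000020002) (.cons (nat_lit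 0x10015) (nat_lit 0x100000000000000000000000100020002) .nil)))) .nil)) (.non (nat_lit 1) (nat_lit 4) (nat_lit 0x2a021) (nat_lit 0x200020001000000000000000100000002))) (.non (nat_lit 0) (nat_lit 4) (nat_lit 0x25010) (nat_lit 0x100020001000000000000000100000000))) (.non (nat_lit 0) (nat_lit 4) (nat_lit 0x2a010) (nat_lit 0x100020001000000000000000200000000))) (.split (nat_lit 9) (nat_lit 0) (.split (nat_lit 9) (nat_lit 1) (.split (nat_lit 9) (nat_lit 2) (.split (nat_lit 9) (nat_lit 5) (.split (nat_lit 9) (nat_lit 6) (.split (nat_lit 9) (nat_lit 7) (.split (nat_lit 9) (nat_lit 8) (.split (nat_lit 9) (nat_lit 3) (.unj (nat_lit 0x55) (nat_lit 0x1000100020002) (nat_lit 0x41500) (nat_lit 0x1000000000001000200020000000000000000)) (.unj (nat_lit 0x10015) (nat_lit 0x100000000000000000000000100020002) (nat_lit 0x41500) (nat_lit 0x1000000000001000200020000000000000000))) (.non (nat_lit 0) (nat_lit 4) (nat_lit 0x55414) (nat_lit 0x1000200030002000100000000000200010000))) (.non (nat_lit 0) (nat_lit 4) (nat_lit 0x55010)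 (nat_lit 0x1000100020001000000000000000100000000))) (.non (nat_lit 0) (nat_lit 4) (nat_lit 0x55410) (nat_lit 0x1000100020002000100000000000100000000))) (.non (nat_lit 0) (nat_lit 4) (nat_lit 0x55454) (nat_lit 0x1000200040003000200000001000300020000))) (.non (nat_lit 0) (nat_lit 4) (nat_lit 0x55014) (nat_lit 0x1000100020001000000000000000200010000))) (.star (nat_lit 9) (nat_lit 1) (nat_lit 4))) (.star (nat_lit 9) (nat_lit 0) (nat_lit 4)))) (.split (nat_lit 9) (nat_lit 1) (.split (nat_lit 9) (nat_lit 2) (.split (nat_lit 9) (nat_lit 5) (.split (nat_lit 9) (nat_lit 6) (.split (nat_lit 9) (nat_lit 7) (.split (nat_lit 9) (nat_lit 8) (.split (nat_lit 9) (nat_lit 0) (.split (nat_lit 9) (nat_lit 4) (.st (nat_lit 3) (nat_lit 0) (nat_lit 4) (nat_lit 0x55054) (nat_lit 0x1000100020001000000000002000200020000) (nat_lit 1) (nat_lit 1) (.st (nat_lit 9) (nat_lit 0) (nat_lit 4) (nat_lit 0x55454) (nat_lit 0x2000300060004000200000003000500040000) (nat_lit 1) (nat_lit 1) t1121_126)) (.unj (nat_lit 0x10015) (nat_lit 0x100000000000000000000000100020002)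 (nat_lit 0x41500) (nat_lit 0x1000000000001000200020000000000000000))) (.split (nat_lit 9) (nat_lit 4) (.sup (nat_lit 0x4000000000000000000000004000000030005) (nat_lit 0x20003000500040000000100000000)) (.star (nat_lit 9) (nat_lit 0) (nat_lit 4)))) (.non (nat_lit 0) (nat_lit 4) (nat_lit 0x55414) (nat_lit 0x1000200030002000100000000000200010000))) (.non (nat_lit 0) (nat_lit 4) (nat_lit 0x55010) (nat_lit 0x1000100020001000000000000000100000000))) (.non (nat_lit 0) (nat_lit 4) (nat_lit 0x55410) (nat_lit 0x1000100020002000100000000000100000000))) (.non (nat_lit 0) (nat_lit 4) (nat_lit 0x45454) (nat_lit 0x1000000010001000100000001000100010000))) (.non (nat_lit 0) (nat_lit 4) (nat_lit 0x55014) (nat_lit 0x1000100020001000000000000000200010000))) (.non (nat_lit 0) (nat_lit 4) (nat_lit 0x40044) (nat_lit 0x1000000000000000000000001000000010000))))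

noncomputable def t1121_128 : Tr := (.ex (nat_lit 4) (.split (nat_lit 7) (nat_lit 2) (.split (nat_lit 8) (nat_lit 7) (.split (nat_lit 8) (nat_lit 0) (.split (nat_lit 9) (nat_lit 0) (.pd (.cons (nat_lit 0) (nat_lit 6) (nat_lit 0) (nat_lit 0x9720441110) (nat_lit 0xf423ff423fb71ae00000f423f54591f423fa2c285b8d400000) (.cons (nat_lit 0) (nat_lit 7) (nat_lit 0) (nat_lit 0x9805441110) (nat_lit 0xf423ff423f00000f423fb71ae1f156f423ff423f7a11d00000) (.cons (nat_lit 1) (nat_lit 6) (nat_lit 0) (nat_lit 0x80443700) (nat_lit 0xf423fa2c28b71ae00000f423f54591f423ff423f000005b8d4) (.cons (nat_lit 1) (nat_lit 7) (nat_lit 0) (nat_lit 0x5443200) (nat_lit 0xf423ff423f00000f423fb71ae1f156f423ff423f000007a11d) .nil)))) (.leaf (.cons (nat_lit 0x5510) (nat_lit 0x20003000400030000000100000000) (.cons (nat_lit 0x50005) (nat_lit 0x1000100000000000000000000000000020002) (.cons (nat_lit 0x40045) (nat_lit 0x1000000000000000000000001000000020002) .nil))) .nil)) (.non (nat_lit 1) (nat_lit 4) (nat_lit 0x95011) (nat_lit 0x1000200020001000000000000000100000002)))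 (.non (nat_lit 1) (nat_lit 4) (nat_lit 0x6a001) (nat_lit 0x2000300020001000000000000000000000004))) (.non (nat_lit 0) (nat_lit 4) (nat_lit 0x25010) (nat_lit 0x100020001000000000000000100000000))) (.non (nat_lit 0) (nat_lit 4) (nat_lit 0x2a010) (nat_lit 0x100020001000000000000000200000000))) (.split (nat_lit 0xa) (nat_lit 0) (.split (nat_lit 0xa) (nat_lit 1) (.split (nat_lit 0xa) (nat_lit 2) (.split (nat_lit 0xa) (nat_lit 5) (.split (nat_lit 0xa) (nat_lit 6) (.split (nat_lit 0xa) (nat_lit 7) (.split (nat_lit 0xa) (nat_lit 8) (.split (nat_lit 0xa) (nat_lit 3) (.split (nat_lit 0xa) (nat_lit 9) (.unj (nat_lit 0x55) (nat_lit 0x1000100020002) (nat_lit 0x101500) (nat_lit 0x10000000000000001000200020000000000000000)) (.unj (nat_lit 0x55) (nat_lit 0x1000100020002) (nat_lit 0x101500) (nat_lit 0x10000000000000001000200020000000000000000))) (.split (nat_lit 0xa) (nat_lit 9) (.unj (nat_lit 0x10015) (nat_lit 0x100000000000000000000000100020002) (nat_lit 0x101500) (nat_lit 0x10000000000000001000200020000000000000000))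 (.non (nat_lit 0) (nat_lit 4) (nat_lit 0x155454) (nat_lit 0x20001000300060004000200000003000500040000)))) (.non (nat_lit 0) (nat_lit 4) (nat_lit 0x115414) (nat_lit 0x10000000200030002000100000000000200010000))) (.non (nat_lit 0) (nat_lit 4) (nat_lit 0x115010) (nat_lit 0x10000000100020001000000000000000100000000))) (.non (nat_lit 0) (nat_lit 4) (nat_lit 0x115410) (nat_lit 0x10000000100020002000100000000000100000000))) (.non (nat_lit 0) (nat_lit 4) (nat_lit 0x115454) (nat_lit 0x10000000200040003000200000001000300020000))) (.non (nat_lit 0) (nat_lit 4) (nat_lit 0x115014) (nat_lit 0x10000000100020001000000000000000200010000))) (.star (nat_lit 0xa) (nat_lit 1) (nat_lit 4))) (.star (nat_lit 0xa) (nat_lit 0) (nat_lit 4))))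

noncomputable def t1121_129 : Tr := (.ex (nat_lit 5) (.split (nat_lit 8) (nat_lit 3) (.split (nat_lit 8) (nat_lit 7) (.split (nat_lit 8) (nat_lit 0) (.pd (.cons (nat_lit 0) (nat_lit 6) (nat_lit 0) (nat_lit 0x380441110) (nat_lit 0xb71aef423f00000f423f54591a2c28f423f5b8d400000) (.cons (nat_lit 0) (nat_lit 7) (nat_lit 0) (nat_lit 0x305441110) (nat_lit 0xf423f00000f423fb71ae1f156b71aef423f65b9700000) (.cons (nat_lit 0) (nat_lit 8) (nat_lit 0) (nat_lit 0x65441110) (nat_lit 0xf423fb71aea2c2804737f423ff423f7a11d00000) (.cons (nat_lit 1) (nat_lit 6) (nat_lit 0) (nat_lit 0x80448200) (nat_lit 0x7a11df423f00000f423f54591f423ff423f000007a11b) (.cons (nat_lit 1) (nat_lit 7) (nat_lit 0) (nat_lit 0x5448200) (nat_lit 0xb71ae00000f423fb71ae1f156f423ff423f00000a2c28) (.cons (nat_lit 1) (nat_lit 8) (nat_lit 0) (nat_lit 0x65443200) (nat_lit 0xf423fb71aea2c2804737f423ff423f00000f423f) (.cons (nat_lit 2) (nat_lit 8) (nat_lit 0) (nat_lit 0x65441000) (nat_lit 0xf423fb71aea2c2804737f423f00000b71ae1f156) (.cons (nat_lit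 3) (nat_lit 8) (nat_lit 0) (nat_lit 0x65440100) (nat_lit 0xf423fb71aea2c280473700000f423fb71ae1f156) .nil)))))))) (.leaf (.cons (nat_lit 0x15005) (nat_lit 0x300020001000000000000000000030004) (.cons (nat_lit 0x10045) (nat_lit 0x100000000000000000001000000010001) (.cons (nat_lit 0x10015) (nat_lit 0x100000000000000000000000100020002) .nil))) .nil)) (.non (nat_lit 1) (nat_lit 4) (nat_lit 0x28081) (nat_lit 0x200010000000000000001000000000002))) (.non (nat_lit 0) (nat_lit 4) (nat_lit 0x1a840) (nat_lit 0x400030002000100000002000000000000))) (.non (nat_lit 0) (nat_lit 4) (nat_lit 0x2a044) (nat_lit 0x300020001000000000004000000020000))) (.split (nat_lit 9) (nat_lit 0) (.split (nat_lit 9) (nat_lit 1) (.split (nat_lit 9) (nat_lit 2) (.split (nat_lit 9) (nat_lit 3) (.split (nat_lit 9) (nat_lit 6) (.split (nat_lit 9) (nat_lit 7) (.split (nat_lit 9) (nat_lit 8) (.split (nat_lit 9) (nat_lit 4) (.unj (nat_lit 0x55) (nat_lit 0x1000100020002) (nat_lit 0x41500) (nat_lit 0x1000000000001000200020000000000000000)) (.unj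 (nat_lit 0x40500) (nat_lit 0x1000000000000000100010000000000000000) (nat_lit 0x55) (nat_lit 0x1000100020002))) (.non (nat_lit 0) (nat_lit 4) (nat_lit 0x55400) (nat_lit 0x1000100010001000100000000000000000000))) (.non (nat_lit 0) (nat_lit 4) (nat_lit 0x45400) (nat_lit 0x1000000010001000100000000000000000000))) (.non (nat_lit 0) (nat_lit 4) (nat_lit 0x41400) (nat_lit 0x1000000000001000100000000000000000000))) (.non (nat_lit 0) (nat_lit 4) (nat_lit 0x55440) (nat_lit 0x1000100010001000100000001000000000000))) (.non (nat_lit 0) (nat_lit 4) (nat_lit 0x55454) (nat_lit 0x1000100010001000100000001000100010000))) (.star (nat_lit 9) (nat_lit 1) (nat_lit 5))) (.star (nat_lit 9) (nat_lit 0) (nat_lit 5))))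

noncomputable def t1121_130 : Tr := (.ex (nat_lit 4) (.split (nat_lit 8) (nat_lit 3) (.split (nat_lit 9) (nat_lit 3) (.split (nat_lit 8) (nat_lit 7) (.split (nat_lit 8) (nat_lit 0) (.pd (.cons (nat_lit 0) (nat_lit 6) (nat_lit 0) (nat_lit 0x3380441110) (nat_lit 0xf423fb71aef423f00000f423f5459165b97f423f249e800000) (.cons (nat_lit 0) (nat_lit 7) (nat_lit 0) (nat_lit 0x3305441110) (nat_lit 0xf423ff423f00000f423fb71ae1f1567a11df423f3d08a00000) (.cons (nat_lit 0) (nat_lit 8) (nat_lit 0) (nat_lit 0x3065441110) (nat_lit 0xf423f00000f423fb71aea2c2804737b71aef423f65b9700000) (.cons (nat_lit 1) (nat_lit 6) (nat_lit 0) (nat_lit 0x3080448200) (nat_lit 0xf423f65b97f423f00000f423f54591b71aef423f0000061a79) (.cons (nat_lit 1) (nat_lit 7) (nat_lit 0) (nat_lit 0x3005448200) (nat_lit 0xf423fa2c2800000f423fb71ae1f156b71aef423f0000098965) (.cons (nat_lit 1) (nat_lit 8) (nat_lit 0) (nat_lit 0x3065443200) (nat_lit 0xf423f00000f423fb71aea2c2804737b71aef423f00000f423f) (.cons (nat_lit 2) (nat_lit 8) (nat_lit 0) (nat_lit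 0x3065441000) (nat_lit 0xf423f00000f423fb71aea2c2804737b71ae00000a2c2804737) (.cons (nat_lit 3) (nat_lit 8) (nat_lit 0) (nat_lit 0x9065440100) (nat_lit 0xf423f00000f423fb71aea2c280473700000f423fb71ae1f156) .nil)))))))) (.leaf (.cons (nat_lit 0x15005) (nat_lit 0x300020001000000000000000000030004) (.cons (nat_lit 0x10045) (nat_lit 0x100000000000000000001000000010001) (.cons (nat_lit 0x10015) (nat_lit 0x100000000000000000000000100020002) .nil))) .nil)) (.non (nat_lit 1) (nat_lit 4) (nat_lit 0x28081) (nat_lit 0x200010000000000000001000000000002))) (.non (nat_lit 0) (nat_lit 4) (nat_lit 0x5a040) (nat_lit 0x1000300020001000000000002000000000000))) (.non (nat_lit 0) (nat_lit 4) (nat_lit 0x90044) (nat_lit 0x1000100000000000000000002000000010000))) (.non (nat_lit 0) (nat_lit 4) (nat_lit 0x6a040) (nat_lit 0x2000300020001000000000004000000000000))) (.split (nat_lit 0xa) (nat_lit 0) (.split (nat_lit 0xa) (nat_lit 1) (.split (nat_lit 0xa) (nat_lit 2) (.split (nat_lit 0xa) (nat_lit 3) (.split (nat_lit 0xa) (nat_lit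 5) (.split (nat_lit 0xa) (nat_lit 6) (.split (nat_lit 0xa) (nat_lit 7) (.split (nat_lit 0xa) (nat_lit 8) (.split (nat_lit 0xa) (nat_lit 9) (.unj (nat_lit 0x55) (nat_lit 0x1000100020002) (nat_lit 0x101500) (nat_lit 0x10000000000000001000200020000000000000000)) (.non (nat_lit 0) (nat_lit 4) (nat_lit 0x154054) (nat_lit 0x10002000200010000000000000003000100020000))) (.non (nat_lit 0) (nat_lit 4) (nat_lit 0x154044) (nat_lit 0x10001000200010000000000000002000000010000))) (.non (nat_lit 0) (nat_lit 4) (nat_lit 0x155044) (nat_lit 0x10001000200020001000000000002000000010000))) (.non (nat_lit 0) (nat_lit 4) (nat_lit 0x155444) (nat_lit 0x10001000200020002000100000002000000010000))) (.non (nat_lit 0) (nat_lit 4) (nat_lit 0x155454) (nat_lit 0x10003000500040003000200000006000200040000))) (.non (nat_lit 0) (nat_lit 4) (nat_lit 0x150044) (nat_lit 0x10001000100000000000000000002000000010000))) (.non (nat_lit 0) (nat_lit 4) (nat_lit 0x155054) (nat_lit 0x10002000300020001000000000004000200030000))) (.star (nat_lit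 0xa) (nat_lit 1) (nat_lit 4))) (.star (nat_lit 0xa) (nat_lit 0) (nat_lit 4))))

noncomputable def t1121_131 : Tr := (.ex (nat_lit 3) (.ex (nat_lit 4) t1121_129 (.split (nat_lit 9) (nat_lit 0) (.split (nat_lit 9) (nat_lit 1) (.split (nat_lit 9) (nat_lit 3) (.split (nat_lit 9) (nat_lit 6) (.split (nat_lit 9) (nat_lit 7) (.split (nat_lit 9) (nat_lit 8) (.split (nat_lit 9) (nat_lit 2) (.split (nat_lit 9) (nat_lit 5) (.unj (nat_lit 0x55) (nat_lit 0x1000100020002) (nat_lit 0x41500) (nat_lit 0x1000000000001000200020000000000000000)) (.unj (nat_lit 0x40500) (nat_lit 0x1000000000000000100010000000000000000) (nat_lit 0x55) (nat_lit 0x1000100020002))) (.split (nat_lit 9) (nat_lit 5) (.unj (nat_lit 0x10045) (nat_lit 0x100000000000000000001000000010001) (nat_lit 0x41500) (nat_lit 0x1000000000001000200020000000000000000)) (.non (nat_lit 0) (nat_lit 4) (nat_lit 0x55454) (nat_lit 0x1000100010001000100000001000100010000)))) (.non (nat_lit 0) (nat_lit 4) (nat_lit 0x55454) (nat_lit 0x2000400030002000100000003000100020000)))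 (.non (nat_lit 1) (nat_lit 4) (nat_lit 0x55041) (nat_lit 0x1000200020001000000000001000000000001))) (.non (nat_lit 1) (nat_lit 4) (nat_lit 0x55441) (nat_lit 0x1000200020002000100000001000000000001))) (.non (nat_lit 0) (nat_lit 5) (nat_lit 0x54154) (nat_lit 0x2000200010000000000010003000100020000))) (.star (nat_lit 9) (nat_lit 1) (nat_lit 4))) (.star (nat_lit 9) (nat_lit 0) (nat_lit 4)))) (.split (nat_lit 9) (nat_lit 0) (.split (nat_lit 9) (nat_lit 1) (.split (nat_lit 9) (nat_lit 2) (.split (nat_lit 9) (nat_lit 4) (.split (nat_lit 9) (nat_lit 5) (.split (nat_lit 9) (nat_lit 6) (.split (nat_lit 9) (nat_lit 7) (.split (nat_lit 9) (nat_lit 8) (.st (nat_lit 3) (nat_lit 0) (nat_lit 4) (nat_lit 0x50044) (nat_lit 0x1000100000000000000000002000000010000) (nat_lit 1) (nat_lit 1) (.st (nat_lit 5) (nat_lit 0) (nat_lit 4) (nat_lit 0x55454) (nat_lit 0x3000500040003000200000006000200040000) (nat_lit 1) (nat_lit 1) (.st (nat_lit 9) (nat_lit 0) (nat_lit 4) (nat_lit 0x54054) (nat_lit 0x2000200010000000000000003000100020000)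 (nat_lit 1) (nat_lit 1) t1121_130))) (.non (nat_lit 0) (nat_lit 4) (nat_lit 0x50040) (nat_lit 0x1000100000000000000000001000000000000))) (.non (nat_lit 0) (nat_lit 4) (nat_lit 0x54040) (nat_lit 0x1000100010000000000000001000000000000))) (.non (nat_lit 0) (nat_lit 4) (nat_lit 0x55040) (nat_lit 0x1000100010001000000000001000000000000))) (.non (nat_lit 0) (nat_lit 4) (nat_lit 0x55440) (nat_lit 0x1000100010001000100000001000000000000))) (.non (nat_lit 0) (nat_lit 5) (nat_lit 0x54154) (nat_lit 0x2000200010000000000010003000100020000))) (.non (nat_lit 0) (nat_lit 4) (nat_lit 0x40054) (nat_lit 0x1000000000000000000000001000100010000))) (.non (nat_lit 0) (nat_lit 4) (nat_lit 0x40044) (nat_lit 0x1000000000000000000000001000000010000))) (.non (nat_lit 1) (nat_lit 4) (nat_lit 0x50041) (nat_lit 0x1000100000000000000000001000000000001))))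

noncomputable def t1121_132 : Tr := (.ex (nat_lit 1) (.ex (nat_lit 2) t1121_131 (.split (nat_lit 9) (nat_lit 0) (.split (nat_lit 9) (nat_lit 1) (.split (nat_lit 9) (nat_lit 3) (.split (nat_lit 9) (nat_lit 5) (.split (nat_lit 9) (nat_lit 6) (.split (nat_lit 9) (nat_lit 7) (.split (nat_lit 9) (nat_lit 8) (.split (nat_lit 9) (nat_lit 4) (.split (nat_lit 9) (nat_lit 2) (.split (nat_lit 8) (nat_lit 0) (.split (nat_lit 8) (nat_lit 3) (.sup (nat_lit 0x3000c00160020001a0000000000000000) (nat_lit 0x2000000000000000000000002000500070005)) (.non (nat_lit 0) (nat_lit 4) (nat_lit 0x2a044) (nat_lit 0x300020001000000000004000000020000))) (.non (nat_lit 1) (nat_lit 4) (nat_lit 0x28081) (nat_lit 0x200010000000000000001000000000002))) (.split (nat_lit 9) (nat_lit 2) (.split (nat_lit 8) (nat_lit 0) (.sup (nat_lit 0x7000000000000000000000000000a000a0006) (nat_lit 0x100040007000a00080000000000000000)) (.non (nat_lit 1) (nat_lit 4) (nat_lit 0x28081) (nat_lit 0x200010000000000000001000000000002))) (.non (nat_lit 0) (nat_lit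 4) (nat_lit 0x50054) (nat_lit 0x3000100000000000000000002000400030000)))) (.unj (nat_lit 0x10045) (nat_lit 0x100000000000000000001000000010001) (nat_lit 0x41500) (nat_lit 0x1000000000001000200020000000000000000))) (.non (nat_lit 0) (nat_lit 4) (nat_lit 0x50054) (nat_lit 0x1000100000000000000000001000100010000))) (.non (nat_lit 0) (nat_lit 4) (nat_lit 0x55450) (nat_lit 0x2000200030002000100000001000100000000))) (.non (nat_lit 0) (nat_lit 4) (nat_lit 0x55054) (nat_lit 0x1000100010001000000000001000100010000))) (.non (nat_lit 0) (nat_lit 4) (nat_lit 0x55454) (nat_lit 0x1000100010001000100000001000100010000))) (.non (nat_lit 0) (nat_lit 4) (nat_lit 0x40054) (nat_lit 0x1000000000000000000000001000100010000))) (.non (nat_lit 0) (nat_lit 4) (nat_lit 0x40014) (nat_lit 0x1000000000000000000000000000100010000))) (.non (nat_lit 1) (nat_lit 4) (nat_lit 0x55451) (nat_lit 0x2000400030002000100000002000100000003)))) (.split (nat_lit 9) (nat_lit 2) (.split (nat_lit 9) (nat_lit 3) (.split (nat_lit 9) (nat_lit 4)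 (.split (nat_lit 9) (nat_lit 5) (.split (nat_lit 9) (nat_lit 6) (.split (nat_lit 9) (nat_lit 7) (.split (nat_lit 9) (nat_lit 8) (.split (nat_lit 9) (nat_lit 0) (.split (nat_lit 9) (nat_lit 1) (.split (nat_lit 8) (nat_lit 0) (.sup (nat_lit 0x50000000000000000000000000005000a0006) (nat_lit 0x100040007000a00080000000000000000)) (.non (nat_lit 1) (nat_lit 4) (nat_lit 0x28081) (nat_lit 0x200010000000000000001000000000002))) (.non (nat_lit 0) (nat_lit 4) (nat_lit 0x80054) (nat_lit 0x1000000000000000000000001000100020000))) (.sup (nat_lit 0x90000000000000000000000000000000a0007) (nat_lit 0x100040007000a00080000000000000000))) (.non (nat_lit 0) (nat_lit 4) (nat_lit 0x50044) (nat_lit 0x1000100000000000000000001000000010000))) (.non (nat_lit 0) (nat_lit 4) (nat_lit 0x54044) (nat_lit 0x1000100010000000000000001000000010000))) (.non (nat_lit 0) (nat_lit 4) (nat_lit 0x55044) (nat_lit 0x1000100010001000000000001000000010000))) (.star (nat_lit 9) (nat_lit 1) (nat_lit 5))) (.star (nat_lit 9) (nat_lit 1) (nat_lit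 4))) (.non (nat_lit 0) (nat_lit 4) (nat_lit 0x40044) (nat_lit 0x1000000000000000000000001000000010000))) (.non (nat_lit 0) (nat_lit 4) (nat_lit 0x40014) (nat_lit 0x1000000000000000000000000000100010000))))

noncomputable def t1121_133 : Tr := (.split (nat_lit 8) (nat_lit 3) (.split (nat_lit 7) (nat_lit 2) t1121_125 (.split (nat_lit 7) (nat_lit 3) (.split (nat_lit 6) (nat_lit 2) (.split (nat_lit 6) (nat_lit 3) (.st (nat_lit 1) (nat_lit 0) (nat_lit 4) (nat_lit 0x15054) (nat_lit 0x100020001000000000001000200020000) (nat_lit 1) (nat_lit 1) (.st (nat_lit 5) (nat_lit 0) (nat_lit 4) (nat_lit 0x15454) (nat_lit 0x200040003000200000001000300020000) (nat_lit 1) (nat_lit 1) (.st (nat_lit 6) (nat_lit 0) (nat_lit 4) (nat_lit 0x15410) (nat_lit 0x100020002000100000000000100000000) (nat_lit 1) (nat_lit 1) (.st (nat_lit 7) (nat_lit 0) (nat_lit 4) (nat_lit 0x15010) (nat_lit 0x100020001000000000000000100000000) (nat_lit 1) (nat_lit 1) (.ex (nat_lit 0) t1121_127 (.split (nat_lit 9) (nat_lit 1) (.split (nat_lit 9) (nat_lit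 2) (.split (nat_lit 9) (nat_lit 4) (.split (nat_lit 9) (nat_lit 5) (.split (nat_lit 9) (nat_lit 6) (.split (nat_lit 9) (nat_lit 7) (.split (nat_lit 9) (nat_lit 8) (.split (nat_lit 9) (nat_lit 3) t1121_128 (.sup (nat_lit 0x4000000000000000000000004000000030005) (nat_lit 0x20003000500040000000100000000))) (.non (nat_lit 0) (nat_lit 4) (nat_lit 0x55414) (nat_lit 0x1000200030002000100000000000200010000))) (.non (nat_lit 0) (nat_lit 4) (nat_lit 0x55010) (nat_lit 0x1000100020001000000000000000100000000))) (.non (nat_lit 0) (nat_lit 4) (nat_lit 0x55410) (nat_lit 0x1000100020002000100000000000100000000))) (.star (nat_lit 9) (nat_lit 0) (nat_lit 5))) (.star (nat_lit 9) (nat_lit 0) (nat_lit 4))) (.non (nat_lit 0) (nat_lit 4) (nat_lit 0x55014) (nat_lit 0x1000100020001000000000000000200010000))) (.non (nat_lit 0) (nat_lit 4) (nat_lit 0x55054) (nat_lit 0x1000100020001000000000001000200020000)))))))) (.non (nat_lit 0) (nat_lit 4) (nat_lit 0x15450) (nat_lit 0x100020002000100000001000100000000))) (.non (nat_lit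 0) (nat_lit 4) (nat_lit 0x5010) (nat_lit 0x10001000000000000000100000000))) (.non (nat_lit 0) (nat_lit 4) (nat_lit 0x15050) (nat_lit 0x100020001000000000001000100000000)))) (.split (nat_lit 7) (nat_lit 2) (.split (nat_lit 7) (nat_lit 3) (.split (nat_lit 6) (nat_lit 2) (.split (nat_lit 6) (nat_lit 3) (.st (nat_lit 6) (nat_lit 1) (nat_lit 4) (nat_lit 0x15441) (nat_lit 0x200020002000100000001000000000001) (nat_lit 1) (nat_lit 1) (.st (nat_lit 7) (nat_lit 1) (nat_lit 4) (nat_lit 0x15041) (nat_lit 0x200020001000000000001000000000001) (nat_lit 1) (nat_lit 1) (.ex (nat_lit 0) t1121_132 (.split (nat_lit 9) (nat_lit 2) (.split (nat_lit 9) (nat_lit 3) (.split (nat_lit 9) (nat_lit 4) (.split (nat_lit 9) (nat_lit 5) (.split (nat_lit 9) (nat_lit 6) (.split (nat_lit 9) (nat_lit 7) (.split (nat_lit 9) (nat_lit 8) (.split (nat_lit 9) (nat_lit 1) (.split (nat_lit 9) (nat_lit 0) (.split (nat_lit 8) (nat_lit 0) (.split (nat_lit 8) (nat_lit 3) (.sup (nat_lit 0x10006000b0010000d0000000000000000) (nat_lit 0x1000000000000000000000001000200030002))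 (.non (nat_lit 0) (nat_lit 4) (nat_lit 0x2a044) (nat_lit 0x300020001000000000004000000020000))) (.non (nat_lit 1) (nat_lit 4) (nat_lit 0x6a001) (nat_lit 0x2000300020001000000000000000000000004))) (.non (nat_lit 1) (nat_lit 4) (nat_lit 0x94041) (nat_lit 0x1000200010000000000000001000000000002))) (.sup (nat_lit 0x90000000000000000000000000000000a0007) (nat_lit 0x100040007000a00080000000000000000))) (.non (nat_lit 0) (nat_lit 4) (nat_lit 0x55454) (nat_lit 0x2000400030002000100000003000100020000))) (.non (nat_lit 1) (nat_lit 4) (nat_lit 0x54001) (nat_lit 0x1000100010000000000000000000000000001))) (.non (nat_lit 1) (nat_lit 4) (nat_lit 0x55001) (nat_lit 0x1000100010001000000000000000000000001))) (.star (nat_lit 9) (nat_lit 0) (nat_lit 5))) (.star (nat_lit 9) (nat_lit 0) (nat_lit 4))) (.non (nat_lit 1) (nat_lit 4) (nat_lit 0x50041) (nat_lit 0x1000100000000000000000001000000000001))) (.non (nat_lit 1) (nat_lit 4) (nat_lit 0x55451) (nat_lit 0x2000400030002000100000002000100000003)))))) (.non (nat_lit 0)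 (nat_lit 4) (nat_lit 0x15040) (nat_lit 0x100010001000000000001000000000000))) (.non (nat_lit 0) (nat_lit 4) (nat_lit 0x15054) (nat_lit 0x100010001000000000001000100010000))) (.non (nat_lit 0) (nat_lit 4) (nat_lit 0x14040) (nat_lit 0x100010000000000000001000000000000))) (.non (nat_lit 0) (nat_lit 4) (nat_lit 0x14054) (nat_lit 0x100010000000000000001000100010000))))

noncomputable def t1121_134 : Tr := (.ex (nat_lit 5) (.split (nat_lit 8) (nat_lit 2) (.split (nat_lit 8) (nat_lit 7) (.split (nat_lit 8) (nat_lit 0) (.pd (.cons (nat_lit 0) (nat_lit 6) (nat_lit 0) (nat_lit 0x280441110) (nat_lit 0xb71aef423f00000f423f54591f423fa2c285b8d400000) (.cons (nat_lit 0) (nat_lit 7) (nat_lit 0) (nat_lit 0x205441110) (nat_lit 0xf423f00000f423fb71ae1f156f423fb71ae65b9700000) (.cons (nat_lit 0) (nat_lit 8) (nat_lit 0) (nat_lit 0x65441110) (nat_lit 0xf423fb71aea2c2804737f423ff423f7a11d00000) (.cons (nat_lit 1) (nat_lit 6) (nat_lit 0) (nat_lit 0x80443800) (nat_lit 0x7a11df423f00000f423f54591f423ff423f000007a11b) (.cons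 (nat_lit 1) (nat_lit 7) (nat_lit 0) (nat_lit 0x5443800) (nat_lit 0xb71ae00000f423fb71ae1f156f423ff423f00000a2c28) (.cons (nat_lit 1) (nat_lit 8) (nat_lit 0) (nat_lit 0x65443200) (nat_lit 0xf423fb71aea2c2804737f423ff423f00000f423f) (.cons (nat_lit 2) (nat_lit 8) (nat_lit 0) (nat_lit 0x65441000) (nat_lit 0xf423fb71aea2c2804737f423f00000b71ae1f156) (.cons (nat_lit 3) (nat_lit 8) (nat_lit 0) (nat_lit 0x65440100) (nat_lit 0xf423fb71aea2c280473700000f423fb71ae1f156) .nil)))))))) (.leaf (.cons (nat_lit 0x15005) (nat_lit 0x300020001000000000000000000030004) (.cons (nat_lit 0x10045) (nat_lit 0x100000000000000000001000000020002) (.cons (nat_lit 0x10015) (nat_lit 0x100000000000000000000000100010001) .nil))) .nil)) (.non (nat_lit 1) (nat_lit 4) (nat_lit 0x28021) (nat_lit 0x200010000000000000000000100000002))) (.non (nat_lit 0) (nat_lit 4) (nat_lit 0x1a810) (nat_lit 0x400030002000100000000000200000000))) (.non (nat_lit 0) (nat_lit 4) (nat_lit 0x2a014) (nat_lit 0x300020001000000000000000400020000))) (.split (nat_lit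 9) (nat_lit 0) (.split (nat_lit 9) (nat_lit 1) (.split (nat_lit 9) (nat_lit 2) (.split (nat_lit 9) (nat_lit 3) (.split (nat_lit 9) (nat_lit 6) (.split (nat_lit 9) (nat_lit 7) (.split (nat_lit 9) (nat_lit 8) (.split (nat_lit 9) (nat_lit 4) (.unj (nat_lit 0x55) (nat_lit 0x1000100020002) (nat_lit 0x41500) (nat_lit 0x1000000000001000200020000000000000000)) (.unj (nat_lit 0x40500) (nat_lit 0x1000000000000000100010000000000000000) (nat_lit 0x55) (nat_lit 0x1000100020002))) (.non (nat_lit 0) (nat_lit 4) (nat_lit 0x55400) (nat_lit 0x1000100010001000100000000000000000000))) (.non (nat_lit 0) (nat_lit 4) (nat_lit 0x45400) (nat_lit 0x1000000010001000100000000000000000000))) (.non (nat_lit 0) (nat_lit 4) (nat_lit 0x41400) (nat_lit 0x1000000000001000100000000000000000000))) (.non (nat_lit 0) (nat_lit 4) (nat_lit 0x55454) (nat_lit 0x1000100010001000100000001000100010000))) (.non (nat_lit 0) (nat_lit 4) (nat_lit 0x55410) (nat_lit 0x1000100010001000100000000000100000000))) (.star (nat_lit 9) (nat_lit 1) (nat_lit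 5))) (.star (nat_lit 9) (nat_lit 0) (nat_lit 5))))

noncomputable def t1121_135 : Tr := (.ex (nat_lit 3) (.ex (nat_lit 4) t1121_134 (.split (nat_lit 9) (nat_lit 0) (.split (nat_lit 9) (nat_lit 1) (.split (nat_lit 9) (nat_lit 2) (.split (nat_lit 9) (nat_lit 6) (.split (nat_lit 9) (nat_lit 7) (.split (nat_lit 9) (nat_lit 8) (.split (nat_lit 9) (nat_lit 3) (.split (nat_lit 9) (nat_lit 5) (.unj (nat_lit 0x55) (nat_lit 0x1000100020002) (nat_lit 0x41500) (nat_lit 0x1000000000001000200020000000000000000)) (.unj (nat_lit 0x40500) (nat_lit 0x1000000000000000100010000000000000000) (nat_lit 0x55) (nat_lit 0x1000100020002))) (.split (nat_lit 9) (nat_lit 5) (.unj (nat_lit 0x10015) (nat_lit 0x100000000000000000000000100010001) (nat_lit 0x41500) (nat_lit 0x1000000000001000200020000000000000000)) (.non (nat_lit 0) (nat_lit 4) (nat_lit 0x55454) (nat_lit 0x1000100010001000100000001000100010000)))) (.non (nat_lit 0) (nat_lit 4) (nat_lit 0x55454) (nat_lit 0x2000400030002000100000001000300020000))) (.non (nat_lit 1)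 (nat_lit 4) (nat_lit 0x55011) (nat_lit 0x1000200020001000000000000000100000001))) (.non (nat_lit 1) (nat_lit 4) (nat_lit 0x55411) (nat_lit 0x1000200020002000100000000000100000001))) (.non (nat_lit 0) (nat_lit 5) (nat_lit 0x54154) (nat_lit 0x2000200010000000000010001000300020000))) (.star (nat_lit 9) (nat_lit 1) (nat_lit 4))) (.star (nat_lit 9) (nat_lit 0) (nat_lit 4)))) (.split (nat_lit 9) (nat_lit 0) (.split (nat_lit 9) (nat_lit 1) (.split (nat_lit 9) (nat_lit 2) (.split (nat_lit 9) (nat_lit 5) (.split (nat_lit 9) (nat_lit 6) (.split (nat_lit 9) (nat_lit 7) (.split (nat_lit 9) (nat_lit 8) (.split (nat_lit 9) (nat_lit 4) (.split (nat_lit 9) (nat_lit 3) (.split (nat_lit 8) (nat_lit 0) (.split (nat_lit 8) (nat_lit 2) (.sup (nat_lit 0x3000c00160020001a0000000000000000) (nat_lit 0x2000000000000000000000005000200070005)) (.non (nat_lit 0) (nat_lit 4) (nat_lit 0x2a014) (nat_lit 0x300020001000000000000000400020000))) (.non (nat_lit 1) (nat_lit 4) (nat_lit 0x28021) (nat_lit 0x200010000000000000000000100000002)))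 (.split (nat_lit 9) (nat_lit 3) (.split (nat_lit 8) (nat_lit 0) (.sup (nat_lit 0x700000000000000000000000a0000000a0006) (nat_lit 0x100040007000a00080000000000000000)) (.non (nat_lit 1) (nat_lit 4) (nat_lit 0x28021) (nat_lit 0x200010000000000000000000100000002))) (.non (nat_lit 0) (nat_lit 4) (nat_lit 0x50054) (nat_lit 0x3000100000000000000000004000200030000)))) (.unj (nat_lit 0x10015) (nat_lit 0x100000000000000000000000100010001) (nat_lit 0x41500) (nat_lit 0x1000000000001000200020000000000000000))) (.non (nat_lit 0) (nat_lit 4) (nat_lit 0x50054) (nat_lit 0x1000100000000000000000001000100010000))) (.non (nat_lit 0) (nat_lit 4) (nat_lit 0x55450) (nat_lit 0x2000200030002000100000001000100000000))) (.non (nat_lit 0) (nat_lit 4) (nat_lit 0x55054) (nat_lit 0x1000100010001000000000001000100010000))) (.non (nat_lit 0) (nat_lit 4) (nat_lit 0x55454) (nat_lit 0x1000100010001000100000001000100010000))) (.non (nat_lit 0) (nat_lit 4) (nat_lit 0x40054) (nat_lit 0x1000000000000000000000001000100010000))) (.non (nat_lit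 0) (nat_lit 4) (nat_lit 0x40044) (nat_lit 0x1000000000000000000000001000000010000))) (.non (nat_lit 1) (nat_lit 4) (nat_lit 0x55451) (nat_lit 0x2000400030002000100000001000200000003))))

noncomputable def t1121_136 : Tr := (.ex (nat_lit 4) (.split (nat_lit 8) (nat_lit 2) (.split (nat_lit 9) (nat_lit 2) (.split (nat_lit 8) (nat_lit 7) (.split (nat_lit 8) (nat_lit 0) (.pd (.cons (nat_lit 0) (nat_lit 6) (nat_lit 0) (nat_lit 0x2280441110) (nat_lit 0xf423fb71aef423f00000f423f54591f423f65b97249e800000) (.cons (nat_lit 0) (nat_lit 7) (nat_lit 0) (nat_lit 0x2205441110) (nat_lit 0xf423ff423f00000f423fb71ae1f156f423f7a11d3d08a00000) (.cons (nat_lit 0) (nat_lit 8) (nat_lit 0) (nat_lit 0x2065441110) (nat_lit 0xf423f00000f423fb71aea2c2804737f423fb71ae65b9700000) (.cons (nat_lit 1) (nat_lit 6) (nat_lit 0) (nat_lit 0x2080443800) (nat_lit 0xf423f65b97f423f00000f423f54591f423fb71ae0000061a79) (.cons (nat_lit 1) (nat_lit 7) (nat_lit 0) (nat_lit 0x2005443800) (nat_lit 0xf423fa2c2800000f423fb71ae1f156f423fb71ae0000098965)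 (.cons (nat_lit 1) (nat_lit 8) (nat_lit 0) (nat_lit 0x2065443200) (nat_lit 0xf423f00000f423fb71aea2c2804737f423fb71ae00000f423f) (.cons (nat_lit 2) (nat_lit 8) (nat_lit 0) (nat_lit 0x9065441000) (nat_lit 0xf423f00000f423fb71aea2c2804737f423f00000b71ae1f156) (.cons (nat_lit 3) (nat_lit 8) (nat_lit 0) (nat_lit 0x2065440100) (nat_lit 0xf423f00000f423fb71aea2c280473700000b71aea2c2804737) .nil)))))))) (.leaf (.cons (nat_lit 0x15005) (nat_lit 0x300020001000000000000000000030004) (.cons (nat_lit 0x10045) (nat_lit 0x100000000000000000001000000020002) (.cons (nat_lit 0x10015) (nat_lit 0x100000000000000000000000100010001) .nil))) .nil)) (.non (nat_lit 1) (nat_lit 4) (nat_lit 0x28021) (nat_lit 0x200010000000000000000000100000002))) (.non (nat_lit 0) (nat_lit 4) (nat_lit 0x5a010) (nat_lit 0x1000300020001000000000000000200000000))) (.non (nat_lit 0) (nat_lit 4) (nat_lit 0x90014) (nat_lit 0x1000100000000000000000000000200010000))) (.non (nat_lit 0) (nat_lit 4) (nat_lit 0x6a010) (nat_lit 0x2000300020001000000000000000400000000)))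 (.split (nat_lit 0xa) (nat_lit 0) (.split (nat_lit 0xa) (nat_lit 1) (.split (nat_lit 0xa) (nat_lit 2) (.split (nat_lit 0xa) (nat_lit 3) (.split (nat_lit 0xa) (nat_lit 5) (.split (nat_lit 0xa) (nat_lit 6) (.split (nat_lit 0xa) (nat_lit 7) (.split (nat_lit 0xa) (nat_lit 8) (.split (nat_lit 0xa) (nat_lit 9) (.unj (nat_lit 0x55) (nat_lit 0x1000100020002) (nat_lit 0x101500) (nat_lit 0x10000000000000001000200020000000000000000)) (.non (nat_lit 0) (nat_lit 4) (nat_lit 0x154054) (nat_lit 0x10002000200010000000000000001000300020000))) (.non (nat_lit 0) (nat_lit 4) (nat_lit 0x154014) (nat_lit 0x10001000200010000000000000000000200010000))) (.non (nat_lit 0) (nat_lit 4) (nat_lit 0x155014) (nat_lit 0x10001000200020001000000000000000200010000))) (.non (nat_lit 0) (nat_lit 4) (nat_lit 0x155414) (nat_lit 0x10001000200020002000100000000000200010000))) (.non (nat_lit 0) (nat_lit 4) (nat_lit 0x155454) (nat_lit 0x10003000500040003000200000002000600040000))) (.non (nat_lit 0) (nat_lit 4) (nat_lit 0x155054) (nat_lit 0x10002000300020001000000000002000400030000)))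 (.non (nat_lit 0) (nat_lit 4) (nat_lit 0x150014) (nat_lit 0x10001000100000000000000000000000200010000))) (.star (nat_lit 0xa) (nat_lit 1) (nat_lit 4))) (.star (nat_lit 0xa) (nat_lit 0) (nat_lit 4))))

noncomputable def t1121_137 : Tr := (.ex (nat_lit 1) (.ex (nat_lit 2) t1121_135 (.split (nat_lit 9) (nat_lit 0) (.split (nat_lit 9) (nat_lit 1) (.split (nat_lit 9) (nat_lit 3) (.split (nat_lit 9) (nat_lit 4) (.split (nat_lit 9) (nat_lit 5) (.split (nat_lit 9) (nat_lit 6) (.split (nat_lit 9) (nat_lit 7) (.split (nat_lit 9) (nat_lit 8) (.st (nat_lit 2) (nat_lit 0) (nat_lit 4) (nat_lit 0x50014) (nat_lit 0x1000100000000000000000000000200010000) (nat_lit 1) (nat_lit 1) (.st (nat_lit 3) (nat_lit 0) (nat_lit 4) (nat_lit 0x55054) (nat_lit 0x2000300020001000000000002000400030000) (nat_lit 1) (nat_lit 1) (.st (nat_lit 5) (nat_lit 0) (nat_lit 4) (nat_lit 0x55454) (nat_lit 0x3000500040003000200000002000600040000) (nat_lit 1) (nat_lit 1) (.st (nat_lit 9) (nat_lit 0) (nat_lit 4) (nat_lit 0x54054) (nat_lit 0x2000200010000000000000001000300020000)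 (nat_lit 1) (nat_lit 1) t1121_136)))) (.non (nat_lit 0) (nat_lit 4) (nat_lit 0x50010) (nat_lit 0x1000100000000000000000000000100000000))) (.non (nat_lit 0) (nat_lit 4) (nat_lit 0x54010) (nat_lit 0x1000100010000000000000000000100000000))) (.non (nat_lit 0) (nat_lit 4) (nat_lit 0x55010) (nat_lit 0x1000100010001000000000000000100000000))) (.non (nat_lit 0) (nat_lit 4) (nat_lit 0x55410) (nat_lit 0x1000100010001000100000000000100000000))) (.non (nat_lit 0) (nat_lit 5) (nat_lit 0x54154) (nat_lit 0x2000200010000000000010001000300020000))) (.non (nat_lit 0) (nat_lit 4) (nat_lit 0x40054) (nat_lit 0x1000000000000000000000001000100010000))) (.non (nat_lit 0) (nat_lit 4) (nat_lit 0x40014) (nat_lit 0x1000000000000000000000000000100010000))) (.non (nat_lit 1) (nat_lit 4) (nat_lit 0x50011) (nat_lit 0x1000100000000000000000000000100000001)))) (.split (nat_lit 9) (nat_lit 2) (.split (nat_lit 9) (nat_lit 3) (.split (nat_lit 9) (nat_lit 4) (.split (nat_lit 9) (nat_lit 5) (.split (nat_lit 9) (nat_lit 6) (.split (nat_lit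 9) (nat_lit 7) (.split (nat_lit 9) (nat_lit 8) (.split (nat_lit 9) (nat_lit 0) (.split (nat_lit 9) (nat_lit 1) (.split (nat_lit 8) (nat_lit 0) (.sup (nat_lit 0x50000000000000000000000050000000a0006) (nat_lit 0x100040007000a00080000000000000000)) (.non (nat_lit 1) (nat_lit 4) (nat_lit 0x28021) (nat_lit 0x200010000000000000000000100000002))) (.non (nat_lit 0) (nat_lit 4) (nat_lit 0x80054) (nat_lit 0x1000000000000000000000001000100020000))) (.sup (nat_lit 0x90000000000000000000000000000000a0007) (nat_lit 0x100040007000a00080000000000000000))) (.non (nat_lit 0) (nat_lit 4) (nat_lit 0x50014) (nat_lit 0x1000100000000000000000000000100010000))) (.non (nat_lit 0) (nat_lit 4) (nat_lit 0x54014) (nat_lit 0x1000100010000000000000000000100010000))) (.non (nat_lit 0) (nat_lit 4) (nat_lit 0x55014) (nat_lit 0x1000100010001000000000000000100010000))) (.star (nat_lit 9) (nat_lit 1) (nat_lit 5))) (.star (nat_lit 9) (nat_lit 1) (nat_lit 4))) (.non (nat_lit 0) (nat_lit 4) (nat_lit 0x40044) (nat_lit 0x1000000000000000000000001000000010000)))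 (.non (nat_lit 0) (nat_lit 4) (nat_lit 0x40014) (nat_lit 0x1000000000000000000000000000100010000))))

noncomputable def t1121_138 : Tr := (.split (nat_lit 8) (nat_lit 1) (.split (nat_lit 8) (nat_lit 7) (.split (nat_lit 8) (nat_lit 0) (.pd (.cons (nat_lit 0) (nat_lit 6) (nat_lit 0) (nat_lit 0x180441110) (nat_lit 0xb71aef423f00000f423f54591f423ff423f28b0600000) (.cons (nat_lit 0) (nat_lit 7) (nat_lit 0) (nat_lit 0x105441110) (nat_lit 0xf423f00000f423fb71ae1f156f423ff423f3d08c00000) (.cons (nat_lit 0) (nat_lit 8) (nat_lit 0) (nat_lit 0x65441110) (nat_lit 0xf423fb71aea2c2804737f423ff423f7a11d00000) (.cons (nat_lit 1) (nat_lit 6) (nat_lit 0) (nat_lit 0x80443200) (nat_lit 0xb71aef423f00000f423f54591f423ff423f00000a2c28) (.cons (nat_lit 1) (nat_lit 7) (nat_lit 0) (nat_lit 0x5443200) (nat_lit 0xf423f00000f423fb71ae1f156f423ff423f00000b71ae) (.cons (nat_lit 1) (nat_lit 8) (nat_lit 0) (nat_lit 0x65443200) (nat_lit 0xf423fb71aea2c2804737f423ff423f00000f423f) (.cons (nat_lit 2) (nat_lit 8) (nat_lit 0) (nat_lit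 0x65441000) (nat_lit 0xf423fb71aea2c2804737f423f00000b71ae1f156) (.cons (nat_lit 3) (nat_lit 8) (nat_lit 0) (nat_lit 0x65440100) (nat_lit 0xf423fb71aea2c280473700000f423fb71ae1f156) .nil)))))))) (.leaf (.cons (nat_lit 0x10005) (nat_lit 0x100000000000000000000000000010001) .nil) .nil)) (.split (nat_lit 8) (nat_lit 0) (.pd (.cons (nat_lit 0) (nat_lit 6) (nat_lit 0) (nat_lit 0x180441110) (nat_lit 0xb71aef423f00000f423f54591f423ff423f28b0600000) (.cons (nat_lit 0) (nat_lit 7) (nat_lit 0) (nat_lit 0x105441110) (nat_lit 0xf423f00000f423fb71ae1f156f423ff423f3d08c00000) (.cons (nat_lit 0) (nat_lit 8) (nat_lit 0) (nat_lit 0x65441110) (nat_lit 0xf423fb71aea2c2804737f423ff423f7a11d00000) (.cons (nat_lit 1) (nat_lit 6) (nat_lit 0) (nat_lit 0x80443200) (nat_lit 0xb71aef423f00000f423f54591f423ff423f0000051612) (.cons (nat_lit 1) (nat_lit 7) (nat_lit 0) (nat_lit 0x5443200) (nat_lit 0xf423f00000f423fb71ae1f156f423ff423f000007a11e) (.cons (nat_lit 1) (nat_lit 8) (nat_lit 0) (nat_lit 0x65443200) (nat_lit 0xf423fb71aea2c2804737f423ff423f00000f423f)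 (.cons (nat_lit 2) (nat_lit 8) (nat_lit 0) (nat_lit 0x65441000) (nat_lit 0xf423fb71aea2c2804737f423f00000b71ae1f156) (.cons (nat_lit 3) (nat_lit 8) (nat_lit 0) (nat_lit 0x65440100) (nat_lit 0xf423fb71aea2c280473700000f423fb71ae1f156) .nil)))))))) (.leaf (.cons (nat_lit 0x10005) (nat_lit 0x100000000000000000000000000010001) .nil) .nil)) (.non (nat_lit 1) (nat_lit 4) (nat_lit 0x15401) (nat_lit 0x400030002000100000000000000000003)))) (.non (nat_lit 0) (nat_lit 4) (nat_lit 0x1a804) (nat_lit 0x400030002000100000000000000020000))) (.non (nat_lit 0) (nat_lit 4) (nat_lit 0x2a044) (nat_lit 0x300020001000000000002000000040000)))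

noncomputable def t1121_139 : Tr := (.split (nat_lit 8) (nat_lit 7) (.split (nat_lit 8) (nat_lit 0) (.pd (.cons (nat_lit 0) (nat_lit 6) (nat_lit 0) (nat_lit 0x3180441110) (nat_lit 0xf423fb71aef423f00000f423f54591b71aef423f1458000000) (.cons (nat_lit 0) (nat_lit 7) (nat_lit 0) (nat_lit 0x3105441110) (nat_lit 0xf423ff423f00000f423fb71ae1f156b71aef423f28b0600000) (.cons (nat_lit 0) (nat_lit 8) (nat_lit 0) (nat_lit 0x3065441110) (nat_lit 0xf423f00000f423fb71aea2c2804737b71aef423f65b9700000) (.cons (nat_lit 1) (nat_lit 6) (nat_lit 0) (nat_lit 0x3080443200) (nat_lit 0xf423fb71aef423f00000f423f54591b71aef423f00000a2c28) (.cons (nat_lit 1) (nat_lit 7) (nat_lit 0) (nat_lit 0x3005443200) (nat_lit 0xf423ff423f00000f423fb71ae1f156b71aef423f00000b71ae) (.cons (nat_lit 1) (nat_lit 8) (nat_lit 0) (nat_lit 0x3065443200) (nat_lit 0xf423f00000f423fb71aea2c2804737b71aef423f00000f423f) (.cons (nat_lit 2) (nat_lit 8) (nat_lit 0) (nat_lit 0x3065441000) (nat_lit 0xf423f00000f423fb71aea2c2804737b71ae00000a2c2804737) (.cons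 (nat_lit 3) (nat_lit 8) (nat_lit 0) (nat_lit 0x9065440100) (nat_lit 0xf423f00000f423fb71aea2c280473700000f423fb71ae1f156) .nil)))))))) (.leaf (.cons (nat_lit 0x10005) (nat_lit 0x100000000000000000000000000010001) .nil) .nil)) (.split (nat_lit 8) (nat_lit 0) (.pd (.cons (nat_lit 0) (nat_lit 6) (nat_lit 0) (nat_lit 0x3180441110) (nat_lit 0xf423fb71aef423f00000f423f54591b71aef423f1458000000) (.cons (nat_lit 0) (nat_lit 7) (nat_lit 0) (nat_lit 0x3105441110) (nat_lit 0xf423ff423f00000f423fb71ae1f156b71aef423f28b0600000) (.cons (nat_lit 0) (nat_lit 8) (nat_lit 0) (nat_lit 0x3065441110) (nat_lit 0xf423f00000f423fb71aea2c2804737b71aef423f65b9700000) (.cons (nat_lit 1) (nat_lit 6) (nat_lit 0) (nat_lit 0x3080443200) (nat_lit 0xf423fb71aef423f00000f423f54591b71aef423f0000051612) (.cons (nat_lit 1) (nat_lit 7) (nat_lit 0) (nat_lit 0x3005443200) (nat_lit 0xf423ff423f00000f423fb71ae1f156b71aef423f000007a11e) (.cons (nat_lit 1) (nat_lit 8) (nat_lit 0) (nat_lit 0x3065443200) (nat_lit 0xf423f00000f423fb71aea2c2804737b71aef423f00000f423f)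 (.cons (nat_lit 2) (nat_lit 8) (nat_lit 0) (nat_lit 0x3065441000) (nat_lit 0xf423f00000f423fb71aea2c2804737b71ae00000a2c2804737) (.cons (nat_lit 3) (nat_lit 8) (nat_lit 0) (nat_lit 0x9065440100) (nat_lit 0xf423f00000f423fb71aea2c280473700000f423fb71ae1f156) .nil)))))))) (.leaf (.cons (nat_lit 0x10005) (nat_lit 0x100000000000000000000000000010001) .nil) .nil)) (.non (nat_lit 1) (nat_lit 4) (nat_lit 0x15401) (nat_lit 0x400030002000100000000000000000003)))) (.non (nat_lit 0) (nat_lit 4) (nat_lit 0x1a804) (nat_lit 0x400030002000100000000000000020000)))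

noncomputable def t1121_140 : Tr := (.split (nat_lit 9) (nat_lit 0) (.st (nat_lit 3) (nat_lit 0) (nat_lit 4) (nat_lit 0x50054) (nat_lit 0x1000100000000000000000002000100020000) (nat_lit 1) (nat_lit 1) (.st (nat_lit 5) (nat_lit 0) (nat_lit 4) (nat_lit 0x55454) (nat_lit 0x2000500040003000200000004000300060000) (nat_lit 1) (nat_lit 1) (.st (nat_lit 9) (nat_lit 0) (nat_lit 4) (nat_lit 0x55054) (nat_lit 0x2000300020001000000000003000200040000) (nat_lit 1) (nat_lit 1) (.ex (nat_lit 4) (.split (nat_lit 8) (nat_lit 1) (.split (nat_lit 9) (nat_lit 3) t1121_139 (.non (nat_lit 0) (nat_lit 4) (nat_lit 0x90054) (nat_lit 0x1000100000000000000000002000100020000))) (.non (nat_lit 0) (nat_lit 4) (nat_lit 0x68044) (nat_lit 0x1000200010000000000000002000000030000))) (.split (nat_lit 0xa) (nat_lit 0) (.split (nat_lit 0xa) (nat_lit 1) (.split (nat_lit 0xa) (nat_lit 2) (.split (nat_lit 0xa) (nat_lit 3) (.split (nat_lit 0xa) (nat_lit 5) (.split (nat_lit 0xa) (nat_lit 6) (.split (nat_lit 0xa) (nat_lit 7) (.split (nat_lit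 0xa) (nat_lit 8) (.split (nat_lit 0xa) (nat_lit 9) (.unj (nat_lit 0x10005) (nat_lit 0x100000000000000000000000000010001) (nat_lit 0x101500) (nat_lit 0x10000000000000001000200020000000000000000)) (.non (nat_lit 0) (nat_lit 4) (nat_lit 0x155054) (nat_lit 0x10002000300020001000000000003000200040000))) (.non (nat_lit 0) (nat_lit 4) (nat_lit 0x155444) (nat_lit 0x20001000400030002000100000002000000030000))) (.non (nat_lit 0) (nat_lit 4) (nat_lit 0x115054) (nat_lit 0x10000000200020001000000000001000100020000))) (.non (nat_lit 0) (nat_lit 4) (nat_lit 0x115454) (nat_lit 0x10000000200020002000100000001000100020000))) (.non (nat_lit 0) (nat_lit 4) (nat_lit 0x155454) (nat_lit 0x10002000500040003000200000004000300060000))) (.non (nat_lit 0) (nat_lit 4) (nat_lit 0x150054) (nat_lit 0x10001000100000000000000000002000100020000))) (.non (nat_lit 0) (nat_lit 4) (nat_lit 0x154054) (nat_lit 0x10001000200010000000000000002000200030000))) (.star (nat_lit 0xa) (nat_lit 1) (nat_lit 4))) (.star (nat_lit 0xa) (nat_lit 0) (nat_lit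 4))))))) (.split (nat_lit 9) (nat_lit 0) (.split (nat_lit 9) (nat_lit 3) (.split (nat_lit 8) (nat_lit 0) (.split (nat_lit 8) (nat_lit 1) (.sup (nat_lit 0x10006000b0010000d0000000000000000) (nat_lit 0x2000000000000000000000002000100020002)) (.non (nat_lit 0) (nat_lit 4) (nat_lit 0x68044) (nat_lit 0x1000200010000000000000002000000030000))) (.non (nat_lit 1) (nat_lit 4) (nat_lit 0x6a001) (nat_lit 0x2000300020001000000000000000000000004))) (.non (nat_lit 0) (nat_lit 4) (nat_lit 0x90054) (nat_lit 0x1000100000000000000000002000100020000))) (.non (nat_lit 1) (nat_lit 4) (nat_lit 0x94081) (nat_lit 0x2000200010000000000000001000000000003))))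

noncomputable def t1121_141 : Tr := (.ex (nat_lit 3) (.ex (nat_lit 4) (.ex (nat_lit 5) t1121_138 (.split (nat_lit 9) (nat_lit 0) (.split (nat_lit 9) (nat_lit 1) (.split (nat_lit 9) (nat_lit 2) (.split (nat_lit 9) (nat_lit 3) (.split (nat_lit 9) (nat_lit 6) (.split (nat_lit 9) (nat_lit 7) (.split (nat_lit 9) (nat_lit 8) (.split (nat_lit 9) (nat_lit 4) (.unj (nat_lit 0x10005) (nat_lit 0x100000000000000000000000000010001) (nat_lit 0x41500) (nat_lit 0x1000000000001000200020000000000000000)) (.unj (nat_lit 0x10005) (nat_lit 0x100000000000000000000000000010001) (nat_lit 0x40500) (nat_lit 0x1000000000000000100010000000000000000))) (.non (nat_lit 0) (nat_lit 4) (nat_lit 0x55400) (nat_lit 0x1000100010001000100000000000000000000))) (.non (nat_lit 0) (nat_lit 4) (nat_lit 0x45400) (nat_lit 0x1000000010001000100000000000000000000))) (.non (nat_lit 0) (nat_lit 4) (nat_lit 0x41400) (nat_lit 0x1000000000001000100000000000000000000))) (.non (nat_lit 0) (nat_lit 4) (nat_lit 0x55444) (nat_lit 0x1000100010001000100000001000000010000)))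 (.non (nat_lit 0) (nat_lit 4) (nat_lit 0x55414) (nat_lit 0x1000100010001000100000000000100010000))) (.star (nat_lit 9) (nat_lit 1) (nat_lit 5))) (.star (nat_lit 9) (nat_lit 0) (nat_lit 5)))) (.split (nat_lit 9) (nat_lit 0) (.split (nat_lit 9) (nat_lit 1) (.split (nat_lit 9) (nat_lit 2) (.split (nat_lit 9) (nat_lit 3) (.split (nat_lit 9) (nat_lit 6) (.split (nat_lit 9) (nat_lit 7) (.split (nat_lit 9) (nat_lit 8) (.split (nat_lit 9) (nat_lit 5) (.unj (nat_lit 0x10005) (nat_lit 0x100000000000000000000000000010001) (nat_lit 0x41500) (nat_lit 0x1000000000001000200020000000000000000)) (.unj (nat_lit 0x10005) (nat_lit 0x100000000000000000000000000010001) (nat_lit 0x40500) (nat_lit 0x1000000000000000100010000000000000000))) (.non (nat_lit 0) (nat_lit 4) (nat_lit 0x54054) (nat_lit 0x1000200010000000000000001000100020000))) (.non (nat_lit 0) (nat_lit 4) (nat_lit 0x55054) (nat_lit 0x1000200020001000000000001000100020000))) (.non (nat_lit 0) (nat_lit 4) (nat_lit 0x55454) (nat_lit 0x1000200020002000100000001000100020000)))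 (.non (nat_lit 0) (nat_lit 5) (nat_lit 0x55154) (nat_lit 0x2000300020001000000010003000200040000))) (.non (nat_lit 0) (nat_lit 5) (nat_lit 0x55154) (nat_lit 0x2000300020001000000010002000300040000))) (.star (nat_lit 9) (nat_lit 1) (nat_lit 4))) (.star (nat_lit 9) (nat_lit 0) (nat_lit 4)))) (.split (nat_lit 9) (nat_lit 1) (.split (nat_lit 9) (nat_lit 2) (.split (nat_lit 9) (nat_lit 4) (.split (nat_lit 9) (nat_lit 5) (.split (nat_lit 9) (nat_lit 6) (.split (nat_lit 9) (nat_lit 7) (.split (nat_lit 9) (nat_lit 8) t1121_140 (.non (nat_lit 0) (nat_lit 4) (nat_lit 0x50044) (nat_lit 0x1000100000000000000000001000000010000))) (.non (nat_lit 0) (nat_lit 4) (nat_lit 0x54044) (nat_lit 0x1000100010000000000000001000000010000))) (.non (nat_lit 0) (nat_lit 4) (nat_lit 0x55044) (nat_lit 0x1000100010001000000000001000000010000))) (.non (nat_lit 0) (nat_lit 4) (nat_lit 0x55444) (nat_lit 0x1000100010001000100000001000000010000))) (.non (nat_lit 0) (nat_lit 5) (nat_lit 0x55154) (nat_lit 0x2000300020001000000010003000200040000)))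 (.non (nat_lit 0) (nat_lit 4) (nat_lit 0x40054) (nat_lit 0x1000000000000000000000001000100010000))) (.non (nat_lit 0) (nat_lit 4) (nat_lit 0x40044) (nat_lit 0x1000000000000000000000001000000010000))))

noncomputable def t1121_142 : Tr := (.split (nat_lit 8) (nat_lit 7) (.split (nat_lit 8) (nat_lit 0) (.pd (.cons (nat_lit 0) (nat_lit 6) (nat_lit 0) (nat_lit 0x2180441110) (nat_lit 0xf423fb71aef423f00000f423f54591f423fb71ae1458000000) (.cons (nat_lit 0) (nat_lit 7) (nat_lit 0) (nat_lit 0x2105441110) (nat_lit 0xf423ff423f00000f423fb71ae1f156f423fb71ae28b0600000) (.cons (nat_lit 0) (nat_lit 8) (nat_lit 0) (nat_lit 0x2065441110) (nat_lit 0xf423f00000f423fb71aea2c2804737f423fb71ae65b9700000) (.cons (nat_lit 1) (nat_lit 6) (nat_lit 0) (nat_lit 0x2080443200) (nat_lit 0xf423fb71aef423f00000f423f54591f423fb71ae00000a2c28) (.cons (nat_lit 1) (nat_lit 7) (nat_lit 0) (nat_lit 0x2005443200) (nat_lit 0xf423ff423f00000f423fb71ae1f156f423fb71ae00000b71ae) (.cons (nat_lit 1) (nat_lit 8) (nat_lit 0) (nat_lit 0x2065443200)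 (nat_lit 0xf423f00000f423fb71aea2c2804737f423fb71ae00000f423f) (.cons (nat_lit 2) (nat_lit 8) (nat_lit 0) (nat_lit 0x9065441000) (nat_lit 0xf423f00000f423fb71aea2c2804737f423f00000b71ae1f156) (.cons (nat_lit 3) (nat_lit 8) (nat_lit 0) (nat_lit 0x2065440100) (nat_lit 0xf423f00000f423fb71aea2c280473700000b71aea2c2804737) .nil)))))))) (.leaf (.cons (nat_lit 0x10005) (nat_lit 0x100000000000000000000000000010001) .nil) .nil)) (.split (nat_lit 8) (nat_lit 0) (.pd (.cons (nat_lit 0) (nat_lit 6) (nat_lit 0) (nat_lit 0x2180441110) (nat_lit 0xf423fb71aef423f00000f423f54591f423fb71ae1458000000) (.cons (nat_lit 0) (nat_lit 7) (nat_lit 0) (nat_lit 0x2105441110) (nat_lit 0xf423ff423f00000f423fb71ae1f156f423fb71ae28b0600000) (.cons (nat_lit 0) (nat_lit 8) (nat_lit 0) (nat_lit 0x2065441110) (nat_lit 0xf423f00000f423fb71aea2c2804737f423fb71ae65b9700000) (.cons (nat_lit 1) (nat_lit 6) (nat_lit 0) (nat_lit 0x2080443200) (nat_lit 0xf423fb71aef423f00000f423f54591f423fb71ae0000051612) (.cons (nat_lit 1) (nat_lit 7) (nat_lit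 0) (nat_lit 0x2005443200) (nat_lit 0xf423ff423f00000f423fb71ae1f156f423fb71ae000007a11e) (.cons (nat_lit 1) (nat_lit 8) (nat_lit 0) (nat_lit 0x2065443200) (nat_lit 0xf423f00000f423fb71aea2c2804737f423fb71ae00000f423f) (.cons (nat_lit 2) (nat_lit 8) (nat_lit 0) (nat_lit 0x9065441000) (nat_lit 0xf423f00000f423fb71aea2c2804737f423f00000b71ae1f156) (.cons (nat_lit 3) (nat_lit 8) (nat_lit 0) (nat_lit 0x2065440100) (nat_lit 0xf423f00000f423fb71aea2c280473700000b71aea2c2804737) .nil)))))))) (.leaf (.cons (nat_lit 0x10005) (nat_lit 0x100000000000000000000000000010001) .nil) .nil)) (.non (nat_lit 1) (nat_lit 4) (nat_lit 0x15401) (nat_lit 0x400030002000100000000000000000003)))) (.non (nat_lit 0) (nat_lit 4) (nat_lit 0x1a804) (nat_lit 0x400030002000100000000000000020000)))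

noncomputable def t1121_143 : Tr := (.split (nat_lit 9) (nat_lit 0) (.st (nat_lit 2) (nat_lit 0) (nat_lit 4) (nat_lit 0x50054) (nat_lit 0x1000100000000000000000001000200020000) (nat_lit 1) (nat_lit 1) (.st (nat_lit 3) (nat_lit 0) (nat_lit 4) (nat_lit 0x54054) (nat_lit 0x1000200010000000000000002000200030000) (nat_lit 1) (nat_lit 1) (.st (nat_lit 5) (nat_lit 0) (nat_lit 4) (nat_lit 0x55454) (nat_lit 0x2000500040003000200000003000400060000) (nat_lit 1) (nat_lit 1) (.st (nat_lit 9) (nat_lit 0) (nat_lit 4) (nat_lit 0x55054) (nat_lit 0x2000300020001000000000002000300040000) (nat_lit 1) (nat_lit 1) (.ex (nat_lit 4) (.split (nat_lit 8) (nat_lit 1) (.split (nat_lit 9) (nat_lit 2) t1121_142 (.non (nat_lit 0) (nat_lit 4) (nat_lit 0x90054) (nat_lit 0x1000100000000000000000001000200020000))) (.non (nat_lit 0) (nat_lit 4) (nat_lit 0x2a044) (nat_lit 0x300020001000000000002000000040000))) (.split (nat_lit 0xa) (nat_lit 0) (.split (nat_lit 0xa) (nat_lit 1) (.split (nat_lit 0xa) (nat_lit 2) (.split (nat_lit 0xa)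 (nat_lit 3) (.split (nat_lit 0xa) (nat_lit 5) (.split (nat_lit 0xa) (nat_lit 6) (.split (nat_lit 0xa) (nat_lit 7) (.split (nat_lit 0xa) (nat_lit 8) (.split (nat_lit 0xa) (nat_lit 9) (.unj (nat_lit 0x10005) (nat_lit 0x100000000000000000000000000010001) (nat_lit 0x101500) (nat_lit 0x10000000000000001000200020000000000000000)) (.non (nat_lit 0) (nat_lit 4) (nat_lit 0x155054) (nat_lit 0x10002000300020001000000000002000300040000))) (.non (nat_lit 0) (nat_lit 4) (nat_lit 0x155414) (nat_lit 0x20001000400030002000100000000000200030000))) (.non (nat_lit 0) (nat_lit 4) (nat_lit 0x115054) (nat_lit 0x10000000200020001000000000001000100020000))) (.non (nat_lit 0) (nat_lit 4) (nat_lit 0x115454) (nat_lit 0x10000000200020002000100000001000100020000))) (.non (nat_lit 0) (nat_lit 4) (nat_lit 0x155454) (nat_lit 0x10002000500040003000200000003000400060000))) (.non (nat_lit 0) (nat_lit 4) (nat_lit 0x154054) (nat_lit 0x10001000200010000000000000002000200030000))) (.non (nat_lit 0) (nat_lit 4) (nat_lit 0x150054) (nat_lit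 0x10001000100000000000000000001000200020000))) (.star (nat_lit 0xa) (nat_lit 1) (nat_lit 4))) (.star (nat_lit 0xa) (nat_lit 0) (nat_lit 4)))))))) (.split (nat_lit 9) (nat_lit 0) (.split (nat_lit 9) (nat_lit 2) (.split (nat_lit 8) (nat_lit 0) (.split (nat_lit 8) (nat_lit 1) (.sup (nat_lit 0x10006000b0010000d0000000000000000) (nat_lit 0x2000000000000000000000001000200020002)) (.non (nat_lit 0) (nat_lit 4) (nat_lit 0x2a044) (nat_lit 0x300020001000000000002000000040000))) (.non (nat_lit 1) (nat_lit 4) (nat_lit 0x6a001) (nat_lit 0x2000300020001000000000000000000000004))) (.non (nat_lit 0) (nat_lit 4) (nat_lit 0x90054) (nat_lit 0x1000100000000000000000001000200020000))) (.non (nat_lit 1) (nat_lit 4) (nat_lit 0x94021) (nat_lit 0x2000200010000000000000000000100000003))))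

noncomputable def t1121_144 : Tr := (.ex (nat_lit 5) (.split (nat_lit 8) (nat_lit 1) (.split (nat_lit 8) (nat_lit 7) (.split (nat_lit 8) (nat_lit 0) (.split (nat_lit 9) (nat_lit 0) (.pd (.cons (nat_lit 0) (nat_lit 6) (nat_lit 0) (nat_lit 0x9180441110) (nat_lit 0xf423fb71aef423f00000f423f54591f423ff423f28b0600000) (.cons (nat_lit 0) (nat_lit 7) (nat_lit 0) (nat_lit 0x9105441110) (nat_lit 0xf423ff423f00000f423fb71ae1f156f423ff423f3d08c00000) (.cons (nat_lit 0) (nat_lit 8) (nat_lit 0) (nat_lit 0x9065441110) (nat_lit 0xf423f00000f423fb71aea2c2804737f423ff423f7a11d00000) (.cons (nat_lit 1) (nat_lit 6) (nat_lit 0) (nat_lit 0x80443200) (nat_lit 0xf423fb71aef423f00000f423f54591f423ff423f0000065b97) (.cons (nat_lit 1) (nat_lit 7) (nat_lit 0) (nat_lit 0x5443200) (nat_lit 0xf423ff423f00000f423fb71ae1f156f423ff423f000007a11d) (.cons (nat_lit 1) (nat_lit 8) (nat_lit 0) (nat_lit 0x65443200) (nat_lit 0xf423f00000f423fb71aea2c2804737f423ff423f00000b71ae) .nil)))))) (.leaf (.cons (nat_lit 0x10005) (nat_lit 0x100000000000000000000000000010001)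 (.cons (nat_lit 0x40045) (nat_lit 0x1000000000000000000000001000000020002) (.cons (nat_lit 0x40015) (nat_lit 0x1000000000000000000000000000100020002) .nil))) .nil)) (.split (nat_lit 9) (nat_lit 0) (.pd (.cons (nat_lit 0) (nat_lit 6) (nat_lit 0) (nat_lit 0x9180441110) (nat_lit 0xf423fb71aef423f00000f423f54591f423ff423f28b0600000) (.cons (nat_lit 0) (nat_lit 7) (nat_lit 0) (nat_lit 0x9105441110) (nat_lit 0xf423ff423f00000f423fb71ae1f156f423ff423f3d08c00000) (.cons (nat_lit 0) (nat_lit 8) (nat_lit 0) (nat_lit 0x9065441110) (nat_lit 0xf423f00000f423fb71aea2c2804737f423ff423f7a11d00000) (.cons (nat_lit 1) (nat_lit 6) (nat_lit 0) (nat_lit 0x80443200) (nat_lit 0xf423fb71aef423f00000f423f54591f423ff423f0000028b07) (.cons (nat_lit 1) (nat_lit 7) (nat_lit 0) (nat_lit 0x5443200) (nat_lit 0xf423ff423f00000f423fb71ae1f156f423ff423f000003d08d) (.cons (nat_lit 1) (nat_lit 8) (nat_lit 0) (nat_lit 0x65443200) (nat_lit 0xf423f00000f423fb71aea2c2804737f423ff423f000007a11e) .nil)))))) (.leaf (.cons (nat_lit 0x40005)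 (nat_lit 0x1000000000000000000000000000000010001) .nil) .nil)) (.non (nat_lit 1) (nat_lit 4) (nat_lit 0x55001) (nat_lit 0x3000300020001000000000000000000000004)))) (.non (nat_lit 1) (nat_lit 4) (nat_lit 0x6a001) (nat_lit 0x2000300020001000000000000000000000004))) (.non (nat_lit 0) (nat_lit 4) (nat_lit 0x1a804) (nat_lit 0x400030002000100000000000000020000))) (.non (nat_lit 0) (nat_lit 4) (nat_lit 0x2a044) (nat_lit 0x300020001000000000002000000040000))) (.split (nat_lit 0xa) (nat_lit 0) (.split (nat_lit 0xa) (nat_lit 1) (.split (nat_lit 0xa) (nat_lit 2) (.split (nat_lit 0xa) (nat_lit 3) (.split (nat_lit 0xa) (nat_lit 6) (.split (nat_lit 0xa) (nat_lit 7) (.split (nat_lit 0xa) (nat_lit 8) (.split (nat_lit 0xa) (nat_lit 9) (.split (nat_lit 0xa) (nat_lit 4) (.unj (nat_lit 0x10005) (nat_lit 0x100000000000000000000000000010001) (nat_lit 0x101500) (nat_lit 0x10000000000000001000200020000000000000000)) (.unj (nat_lit 0x10005) (nat_lit 0x100000000000000000000000000010001) (nat_lit 0x100500) (nat_lit 0x10000000000000000000100010000000000000000)))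 (.non (nat_lit 1) (nat_lit 4) (nat_lit 0x155401) (nat_lit 0x10001000100010001000100000000000000000001))) (.non (nat_lit 0) (nat_lit 4) (nat_lit 0x115400) (nat_lit 0x10000000100010001000100000000000000000000))) (.non (nat_lit 0) (nat_lit 4) (nat_lit 0x105400) (nat_lit 0x10000000000010001000100000000000000000000))) (.non (nat_lit 0) (nat_lit 4) (nat_lit 0x101400) (nat_lit 0x10000000000000001000100000000000000000000))) (.non (nat_lit 0) (nat_lit 4) (nat_lit 0x115444) (nat_lit 0x10000000100010001000100000001000000010000))) (.non (nat_lit 0) (nat_lit 4) (nat_lit 0x115414) (nat_lit 0x10000000100010001000100000000000100010000))) (.star (nat_lit 0xa) (nat_lit 1) (nat_lit 5))) (.star (nat_lit 0xa) (nat_lit 0) (nat_lit 5))))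

noncomputable def t1121_145 : Tr := (.split (nat_lit 9) (nat_lit 2) (.split (nat_lit 9) (nat_lit 3) (.ex (nat_lit 4) t1121_144 (.split (nat_lit 0xa) (nat_lit 0) (.split (nat_lit 0xa) (nat_lit 1) (.split (nat_lit 0xa) (nat_lit 2) (.split (nat_lit 0xa) (nat_lit 3) (.split (nat_lit 0xa) (nat_lit 6) (.split (nat_lit 0xa) (nat_lit 7) (.split (nat_lit 0xa) (nat_lit 8) (.split (nat_lit 0xa) (nat_lit 5) (.split (nat_lit 0xa) (nat_lit 9) (.unj (nat_lit 0x10005) (nat_lit 0x100000000000000000000000000010001) (nat_lit 0x101500) (nat_lit 0x10000000000000001000200020000000000000000)) (.unj (nat_lit 0x10005) (nat_lit 0x100000000000000000000000000010001) (nat_lit 0x101500) (nat_lit 0x10000000000000001000200020000000000000000))) (.split (nat_lit 0xa) (nat_lit 9) (.unj (nat_lit 0x10005) (nat_lit 0x100000000000000000000000000010001) (nat_lit 0x100500) (nat_lit 0x10000000000000000000100010000000000000000)) (.non (nat_lit 1) (nat_lit 4) (nat_lit 0x155401) (nat_lit 0x10001000100010001000100000000000000000001)))) (.non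 (nat_lit 0) (nat_lit 4) (nat_lit 0x114054) (nat_lit 0x10000000200010000000000000001000100020000))) (.non (nat_lit 0) (nat_lit 4) (nat_lit 0x115054) (nat_lit 0x10000000200020001000000000001000100020000))) (.non (nat_lit 0) (nat_lit 4) (nat_lit 0x115454) (nat_lit 0x10000000200020002000100000001000100020000))) (.non (nat_lit 0) (nat_lit 5) (nat_lit 0x115154) (nat_lit 0x20000000300020001000000010003000200040000))) (.non (nat_lit 0) (nat_lit 5) (nat_lit 0x115154) (nat_lit 0x20000000300020001000000010002000300040000))) (.star (nat_lit 0xa) (nat_lit 1) (nat_lit 4))) (.star (nat_lit 0xa) (nat_lit 0) (nat_lit 4)))) (.split (nat_lit 9) (nat_lit 0) (.split (nat_lit 9) (nat_lit 3) (.split (nat_lit 8) (nat_lit 0) (.split (nat_lit 8) (nat_lit 1) (.sup (nat_lit 0x10006000b0010000d0000000000000000) (nat_lit 0x2000000000000000000000002000100020002)) (.non (nat_lit 0) (nat_lit 4) (nat_lit 0x68044) (nat_lit 0x1000200010000000000000002000000030000))) (.non (nat_lit 1) (nat_lit 4) (nat_lit 0x6a001) (nat_lit 0x2000300020001000000000000000000000004)))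 (.non (nat_lit 0) (nat_lit 4) (nat_lit 0x90054) (nat_lit 0x1000100000000000000000002000100020000))) (.non (nat_lit 1) (nat_lit 4) (nat_lit 0x94081) (nat_lit 0x2000200010000000000000001000000000003)))) (.split (nat_lit 9) (nat_lit 3) (.split (nat_lit 9) (nat_lit 0) (.split (nat_lit 9) (nat_lit 2) (.split (nat_lit 8) (nat_lit 0) (.split (nat_lit 8) (nat_lit 1) (.sup (nat_lit 0x10006000b0010000d0000000000000000) (nat_lit 0x2000000000000000000000001000200020002)) (.non (nat_lit 0) (nat_lit 4) (nat_lit 0x2a044) (nat_lit 0x300020001000000000002000000040000))) (.non (nat_lit 1) (nat_lit 4) (nat_lit 0x6a001) (nat_lit 0x2000300020001000000000000000000000004))) (.non (nat_lit 0) (nat_lit 4) (nat_lit 0x90054) (nat_lit 0x1000100000000000000000001000200020000))) (.non (nat_lit 1) (nat_lit 4) (nat_lit 0x94021) (nat_lit 0x2000200010000000000000000000100000003))) (.non (nat_lit 0) (nat_lit 4) (nat_lit 0x40054) (nat_lit 0x1000000000000000000000001000100010000))))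

noncomputable def t1121_146 : Tr := (.split (nat_lit 7) (nat_lit 2) (.split (nat_lit 7) (nat_lit 3) (.split (nat_lit 6) (nat_lit 2) (.split (nat_lit 6) (nat_lit 3) (.st (nat_lit 1) (nat_lit 0) (nat_lit 4) (nat_lit 0x10054) (nat_lit 0x100000000000000000001000100020000) (nat_lit 1) (nat_lit 1) (.st (nat_lit 6) (nat_lit 0) (nat_lit 4) (nat_lit 0x15454) (nat_lit 0x200020002000100000001000100020000) (nat_lit 1) (nat_lit 1) (.st (nat_lit 7) (nat_lit 0) (nat_lit 4) (nat_lit 0x15054) (nat_lit 0x200020001000000000001000100020000) (nat_lit 1) (nat_lit 1) (.ex (nat_lit 0) (.ex (nat_lit 2) t1121_141 (.split (nat_lit 9) (nat_lit 1) (.split (nat_lit 9) (nat_lit 3) (.split (nat_lit 9) (nat_lit 4) (.split (nat_lit 9) (nat_lit 5) (.split (nat_lit 9) (nat_lit 6) (.split (nat_lit 9) (nat_lit 7) (.split (nat_lit 9) (nat_lit 8) t1121_143 (.non (nat_lit 0) (nat_lit 4) (nat_lit 0x50014) (nat_lit 0x1000100000000000000000000000100010000))) (.non (nat_lit 0) (nat_lit 4) (nat_lit 0x54014) (nat_lit 0x1000100010000000000000000000100010000)))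 (.non (nat_lit 0) (nat_lit 4) (nat_lit 0x55014) (nat_lit 0x1000100010001000000000000000100010000))) (.non (nat_lit 0) (nat_lit 4) (nat_lit 0x55414) (nat_lit 0x1000100010001000100000000000100010000))) (.non (nat_lit 0) (nat_lit 5) (nat_lit 0x55154) (nat_lit 0x2000300020001000000010002000300040000))) (.non (nat_lit 0) (nat_lit 4) (nat_lit 0x40054) (nat_lit 0x1000000000000000000000001000100010000))) (.non (nat_lit 0) (nat_lit 4) (nat_lit 0x40014) (nat_lit 0x1000000000000000000000000000100010000)))) (.split (nat_lit 9) (nat_lit 1) (.split (nat_lit 9) (nat_lit 4) (.split (nat_lit 9) (nat_lit 5) (.split (nat_lit 9) (nat_lit 6) (.split (nat_lit 9) (nat_lit 7) (.split (nat_lit 9) (nat_lit 8) t1121_145 (.non (nat_lit 0) (nat_lit 4) (nat_lit 0x54054) (nat_lit 0x1000200010000000000000001000100020000))) (.non (nat_lit 0) (nat_lit 4) (nat_lit 0x55054) (nat_lit 0x1000200020001000000000001000100020000))) (.non (nat_lit 0) (nat_lit 4) (nat_lit 0x55454) (nat_lit 0x1000200020002000100000001000100020000))) (.star (nat_lit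 9) (nat_lit 0) (nat_lit 5))) (.star (nat_lit 9) (nat_lit 0) (nat_lit 4))) (.non (nat_lit 0) (nat_lit 4) (nat_lit 0x50054) (nat_lit 0x1000100000000000000000001000100020000))))))) (.non (nat_lit 0) (nat_lit 4) (nat_lit 0x15044) (nat_lit 0x100010001000000000001000000010000))) (.non (nat_lit 0) (nat_lit 4) (nat_lit 0x15014) (nat_lit 0x100010001000000000000000100010000))) (.non (nat_lit 0) (nat_lit 4) (nat_lit 0x14044) (nat_lit 0x100010000000000000001000000010000))) (.non (nat_lit 0) (nat_lit 4) (nat_lit 0x14014) (nat_lit 0x100010000000000000000000100010000)))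

noncomputable def t1121_147 : Tr := (.split (nat_lit 8) (nat_lit 1) (.split (nat_lit 8) (nat_lit 2) t1121_133 (.split (nat_lit 8) (nat_lit 3) (.split (nat_lit 7) (nat_lit 2) (.split (nat_lit 7) (nat_lit 3) (.split (nat_lit 6) (nat_lit 2) (.split (nat_lit 6) (nat_lit 3) (.st (nat_lit 6) (nat_lit 1) (nat_lit 4) (nat_lit 0x15411) (nat_lit 0x200020002000100000000000100000001) (nat_lit 1) (nat_lit 1) (.st (nat_lit 7) (nat_lit 1) (nat_lit 4) (nat_lit 0x15011) (nat_lit 0x200020001000000000000000100000001) (nat_lit 1) (nat_lit 1) (.ex (nat_lit 0) t1121_137 (.split (nat_lit 9) (nat_lit 2) (.split (nat_lit 9) (nat_lit 3) (.split (nat_lit 9) (nat_lit 4) (.split (nat_lit 9) (nat_lit 5) (.split (nat_lit 9) (nat_lit 6) (.split (nat_lit 9) (nat_lit 7) (.split (nat_lit 9) (nat_lit 8) (.split (nat_lit 9) (nat_lit 1) (.split (nat_lit 9) (nat_lit 0) (.split (nat_lit 8) (nat_lit 0) (.split (nat_lit 8) (nat_lit 2) (.sup (nat_lit 0x10006000b0010000d0000000000000000) (nat_lit 0x1000000000000000000000002000100030002))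 (.non (nat_lit 0) (nat_lit 4) (nat_lit 0x2a014) (nat_lit 0x300020001000000000000000400020000))) (.non (nat_lit 1) (nat_lit 4) (nat_lit 0x6a001) (nat_lit 0x2000300020001000000000000000000000004))) (.non (nat_lit 1) (nat_lit 4) (nat_lit 0x94011) (nat_lit 0x1000200010000000000000000000100000002))) (.sup (nat_lit 0x90000000000000000000000000000000a0007) (nat_lit 0x100040007000a00080000000000000000))) (.non (nat_lit 0) (nat_lit 4) (nat_lit 0x55454) (nat_lit 0x2000400030002000100000001000300020000))) (.non (nat_lit 1) (nat_lit 4) (nat_lit 0x54001) (nat_lit 0x1000100010000000000000000000000000001))) (.non (nat_lit 1) (nat_lit 4) (nat_lit 0x55001) (nat_lit 0x1000100010001000000000000000000000001))) (.star (nat_lit 9) (nat_lit 0) (nat_lit 5))) (.star (nat_lit 9) (nat_lit 0) (nat_lit 4))) (.non (nat_lit 1) (nat_lit 4) (nat_lit 0x55451) (nat_lit 0x2000400030002000100000001000200000003))) (.non (nat_lit 1) (nat_lit 4) (nat_lit 0x50011) (nat_lit 0x1000100000000000000000000000100000001)))))) (.non (nat_lit 0)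 (nat_lit 4) (nat_lit 0x15054) (nat_lit 0x100010001000000000001000100010000))) (.non (nat_lit 0) (nat_lit 4) (nat_lit 0x15010) (nat_lit 0x100010001000000000000000100000000))) (.non (nat_lit 0) (nat_lit 4) (nat_lit 0x14054) (nat_lit 0x100010000000000000001000100010000))) (.non (nat_lit 0) (nat_lit 4) (nat_lit 0x14010) (nat_lit 0x100010000000000000000000100000000))) (.non (nat_lit 0) (nat_lit 4) (nat_lit 0x10054) (nat_lit 0x100000000000000000001000100010000)))) (.split (nat_lit 8) (nat_lit 2) (.split (nat_lit 8) (nat_lit 3) t1121_146 (.non (nat_lit 0) (nat_lit 4) (nat_lit 0x10044) (nat_lit 0x100000000000000000001000000010000))) (.non (nat_lit 0) (nat_lit 4) (nat_lit 0x10014) (nat_lit 0x100000000000000000000000100010000))))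

noncomputable def t1121 : Tr := (.split (nat_lit 7) (nat_lit 1) (.split (nat_lit 8) (nat_lit 0) t1121_112 (.split (nat_lit 7) (nat_lit 0) t1121_147 (.non (nat_lit 1) (nat_lit 4) (nat_lit 0x14001) (nat_lit 0x100010000000000000000000000000001)))) (.non (nat_lit 0) (nat_lit 4) (nat_lit 0x15054) (nat_lit 0x100020001000000000001000100020000)))

noncomputable def D14 : RL := (.cons (nat_lit 0x222222222222222222222222222222222222222222222222222222222222222222222222222222222222222222222222222222222222222222222222b222aaaa2222222b2322aaaa222222223232aa22222222222325222222222222225222222222222aaa2222322222222aaa2222322222222aa22233252222222aa2222252) t1121 .nil)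

theorem cov_D14 : Cov 1121 1122 := by
  have h1 : rl D14 (nat_lit 1121) = true := by decide +kernel
  have h2 : 1121 + rlen D14 = 1122 := by decide +kernel
  exact cov_of h1 h2

end MP86a502
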