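import Pool.Agent.Lib.MP_86a502_gt.U.Rlc
import Pool.Agent.Lib.MP_86a502_gt.U.D14

set_option autoImplicit false
set_option maxRecDepth 1000000
set_option linter.all false

/-! Certificates, numbers 1542 to 1547. -/

namespace MP86a502

noncomputable def t1542_1 : Tr := (.ex (nat_lit 9) (.pd (.cons (nat_lit 0) (nat_lit 5) (nat_lit 0) (nat_lit 0x8487032110) (nat_lit 0xf423f65b97b71aef423f0000061a795b8cc515fe3d05a00000) (.cons (nat_lit 0) (nat_lit 7) (nat_lit 0) (nat_lit 0x8405532110) (nat_lit 0xf423fb71ae00000f423f54591a2c2898965927bd8e6a200000) (.cons (nat_lit 1) (nat_lit 5) (nat_lit 0) (nat_lit 0x8487032200) (nat_lit 0xf423f65b97b71aef423f0000061a795b8cc515fe00000f423f) (.cons (nat_lit 1) (nat_lit 7) (nat_lit 0) (nat_lit 0x8405532200) (nat_lit 0xf423fb71ae00000f423f54591a2c2898965927bd00000f423f) (.cons (nat_lit 2) (nat_lit 5) (nat_lit 0) (nat_lit 0x8487033000) (nat_lit 0xf423f65b97b71aef423f0000061a795b8cc00000f423f54591) (.cons (nat_lit 2) (nat_lit 7) (nat_lit 0) (nat_lit 0x8405533000) (nat_lit 0xf423fb71ae00000f423f54591a2c289896500000f423f54591)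 (.cons (nat_lit 3) (nat_lit 5) (nat_lit 0) (nat_lit 0x8487040100) (nat_lit 0xf423f65b97b71aef423f0000061a7900000f423fb71ae1f156) (.cons (nat_lit 3) (nat_lit 7) (nat_lit 0) (nat_lit 0x8405540100) (nat_lit 0xf423fb71ae00000f423f54591a2c2800000f423fb71ae1f156) (.cons (nat_lit 4) (nat_lit 5) (nat_lit 0) (nat_lit 0x8766002100) (nat_lit 0xf423fb71aea2c28989650000000000f423fb71aea2c2804737) (.cons (nat_lit 4) (nat_lit 7) (nat_lit 0) (nat_lit 0x8805502100) (nat_lit 0xf423fb71ae00000f423f5459100000f423fb71aea2c2804737) .nil)))))))))) (.l31 (nat_lit 0x4321098765))) (.split (nat_lit 0xa) (nat_lit 0) (.split (nat_lit 0xa) (nat_lit 1) (.split (nat_lit 0xa) (nat_lit 2) (.split (nat_lit 0xa) (nat_lit 3) (.split (nat_lit 0xa) (nat_lit 4) (.split (nat_lit 0xa) (nat_lit 5) (.split (nat_lit 0xa) (nat_lit 6) (.split (nat_lit 0xa) (nat_lit 7) (.split (nat_lit 0xa) (nat_lit 8) (.sup (nat_lit 0x10002000300060009000700000000000000000000) (nat_lit 0x10006000b0010000d)) (.non (nat_lit 0) (nat_lit 6) (nat_lit 0x150000) (nat_lit 0x10001000100000000000000000000000000000000)))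 (.non (nat_lit 0) (nat_lit 6) (nat_lit 0x154000) (nat_lit 0x10001000100010000000000000000000000000000))) (.non (nat_lit 0) (nat_lit 8) (nat_lit 0x105400) (nat_lit 0x10000000000010002000200000000000000000000))) (.non (nat_lit 0) (nat_lit 6) (nat_lit 0x154550) (nat_lit 0x20003000400020000000100030002000100000000))) (.non (nat_lit 0) (nat_lit 6) (nat_lit 0x150100) (nat_lit 0x10001000100000000000000010000000000000000))) (.non (nat_lit 0) (nat_lit 6) (nat_lit 0x150140) (nat_lit 0x10001000100000000000000010001000000000000))) (.non (nat_lit 0) (nat_lit 6) (nat_lit 0x150150) (nat_lit 0x10001000100000000000000010001000100000000))) (.non (nat_lit 0) (nat_lit 6) (nat_lit 0x150154) (nat_lit 0x10001000100000000000000010001000100010000))) (.non (nat_lit 1) (nat_lit 6) (nat_lit 0x154151) (nat_lit 0x20003000400020000000000030002000100000001))))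

noncomputable def t1542_2 : Tr := (.split (nat_lit 8) (nat_lit 4) (.split (nat_lit 9) (nat_lit 8) (.pd (.cons (nat_lit 2) (nat_lit 6) (nat_lit 0) (nat_lit 0x8480533000) (nat_lit 0xf423f7a11df423f00000f423f7a11b7a11900000f423f54591) (.cons (nat_lit 2) (nat_lit 8) (nat_lit 0) (nat_lit 0x9065533000) (nat_lit 0xf423f00000f423fb71ae1f156f423fb71ae00000f423f54591) (.cons (nat_lit 3) (nat_lit 6) (nat_lit 0) (nat_lit 0x8480540100) (nat_lit 0xf423f7a11df423f00000f423f7a11b00000f423fb71ae1f156) (.cons (nat_lit 3) (nat_lit 8) (nat_lit 0) (nat_lit 0x9065540100) (nat_lit 0xf423f00000f423fb71ae1f156f423f00000f423fb71ae1f156) (.cons (nat_lit 4) (nat_lit 6) (nat_lit 0) (nat_lit 0x8770502100) (nat_lit 0xf423fb71aea2c2800000f423f00000f423fb71aea2c2804737) (.cons (nat_lit 4) (nat_lit 8) (nat_lit 0) (nat_lit 0x9065502100) (nat_lit 0xf423f00000f423fb71ae1f15600000f423fb71aea2c2804737) .nil)))))) (.ex (nat_lit 7) (.pd (.cons (nat_lit 4) (nat_lit 9) (nat_lit 0) (nat_lit 0x765502100) (nat_lit 0xf423fb71aea2c280473700000f423fb71aea2c2804737)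 .nil) t1542_1) (.split (nat_lit 0xa) (nat_lit 0) (.split (nat_lit 0xa) (nat_lit 1) (.split (nat_lit 0xa) (nat_lit 2) (.split (nat_lit 0xa) (nat_lit 3) (.split (nat_lit 0xa) (nat_lit 4) (.split (nat_lit 0xa) (nat_lit 5) (.split (nat_lit 0xa) (nat_lit 6) (.split (nat_lit 0xa) (nat_lit 8) (.split (nat_lit 0xa) (nat_lit 9) (.sup (nat_lit 0x10002000300050004) (nat_lit 0x20000000100030005000400000000000000000000)) (.non (nat_lit 0) (nat_lit 6) (nat_lit 0x154000) (nat_lit 0x10001000100010000000000000000000000000000))) (.non (nat_lit 0) (nat_lit 6) (nat_lit 0x114000) (nat_lit 0x10000000100010000000000000000000000000000))) (.non (nat_lit 0) (nat_lit 8) (nat_lit 0x105000) (nat_lit 0x10000000000010001000000000000000000000000))) (.non (nat_lit 0) (nat_lit 6) (nat_lit 0x154550) (nat_lit 0x20002000400030000000100030002000100000000))) (.non (nat_lit 0) (nat_lit 6) (nat_lit 0x114100) (nat_lit 0x10000000100010000000000010000000000000000))) (.non (nat_lit 0) (nat_lit 6) (nat_lit 0x114140) (nat_lit 0x10000000100010000000000010001000000000000)))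 (.non (nat_lit 0) (nat_lit 6) (nat_lit 0x114150) (nat_lit 0x10000000100010000000000010001000100000000))) (.non (nat_lit 0) (nat_lit 6) (nat_lit 0x114154) (nat_lit 0x10000000100010000000000010001000100010000))) (.non (nat_lit 1) (nat_lit 6) (nat_lit 0x154151) (nat_lit 0x20002000400030000000000030002000100000001))))) (.non (nat_lit 0) (nat_lit 6) (nat_lit 0x94100) (nat_lit 0x1000200010000000000010000000000000000))) (.non (nat_lit 0) (nat_lit 6) (nat_lit 0xa8100) (nat_lit 0x1000200010000000000020000000000000000)))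

noncomputable def t1542_3 : Tr := (.ex (nat_lit 0) (.ex (nat_lit 1) (.split (nat_lit 4) (nat_lit 3) t1542_2 (.non (nat_lit 0) (nat_lit 6) (nat_lit 0xa8240) (nat_lit 0x1000200010000000000020002000000000000))) (.split (nat_lit 0xa) (nat_lit 2) (.split (nat_lit 0xa) (nat_lit 3) (.split (nat_lit 0xa) (nat_lit 4) (.split (nat_lit 0xa) (nat_lit 5) (.split (nat_lit 0xa) (nat_lit 6) (.split (nat_lit 0xa) (nat_lit 7) (.split (nat_lit 0xa) (nat_lit 8) (.split (nat_lit 0xa) (nat_lit 9) (.split (nat_lit 0xa) (nat_lit 0) (.unj (nat_lit 0x100015) (nat_lit 0x10000000000000000000000000000000100020002) (nat_lit 0x15500) (nat_lit 0x200030004000300010000000000000000)) (.unj (nat_lit 0x100005) (nat_lit 0x10000000000000000000000000000000000010001) (nat_lit 0x15500) (nat_lit 0x200030004000300010000000000000000))) (.non (nat_lit 0) (nat_lit 6) (nat_lit 0x150154) (nat_lit 0x10001000100000000000000010001000100010000))) (.star (nat_lit 0xa) (nat_lit 1) (nat_lit 8))) (.non (nat_lit 0) (nat_lit 6) (nat_lit 0x114154) (nat_lit 0x10000000100010000000000010001000100010000)))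 (.star (nat_lit 0xa) (nat_lit 1) (nat_lit 6))) (.non (nat_lit 0) (nat_lit 8) (nat_lit 0x105400) (nat_lit 0x10000000000010002000200000000000000000000))) (.non (nat_lit 0) (nat_lit 6) (nat_lit 0x154140) (nat_lit 0x10001000200010000000000020001000000000000))) (.non (nat_lit 0) (nat_lit 6) (nat_lit 0x154150) (nat_lit 0x10001000200010000000000020002000100000000))) (.non (nat_lit 0) (nat_lit 6) (nat_lit 0x100014) (nat_lit 0x10000000000000000000000000000000100010000)))) (.split (nat_lit 0xa) (nat_lit 2) (.split (nat_lit 0xa) (nat_lit 3) (.split (nat_lit 0xa) (nat_lit 4) (.split (nat_lit 0xa) (nat_lit 5) (.split (nat_lit 0xa) (nat_lit 6) (.split (nat_lit 0xa) (nat_lit 7) (.split (nat_lit 0xa) (nat_lit 8) (.split (nat_lit 0xa) (nat_lit 9) (.split (nat_lit 0xa) (nat_lit 1) (.unj (nat_lit 0x100015) (nat_lit 0x10000000000000000000000000000000100020002) (nat_lit 0x15500) (nat_lit 0x200030004000300010000000000000000)) (.unj (nat_lit 0x100005) (nat_lit 0x10000000000000000000000000000000000010001) (nat_lit 0x15500) (nat_lit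 0x200030004000300010000000000000000))) (.non (nat_lit 1) (nat_lit 6) (nat_lit 0x154151) (nat_lit 0x20003000400020000000000030002000100000001))) (.star (nat_lit 0xa) (nat_lit 0) (nat_lit 8))) (.non (nat_lit 1) (nat_lit 6) (nat_lit 0x154151) (nat_lit 0x20002000400030000000000030002000100000001))) (.star (nat_lit 0xa) (nat_lit 0) (nat_lit 6))) (.non (nat_lit 0) (nat_lit 8) (nat_lit 0x105400) (nat_lit 0x10000000000010002000200000000000000000000))) (.non (nat_lit 0) (nat_lit 6) (nat_lit 0x154140) (nat_lit 0x10001000200010000000000020001000000000000))) (.non (nat_lit 0) (nat_lit 6) (nat_lit 0x154150) (nat_lit 0x10001000200010000000000020002000100000000))) (.non (nat_lit 0) (nat_lit 6) (nat_lit 0x154154) (nat_lit 0x10001000200010000000000020002000200010000))))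

noncomputable def t1542_4 : Tr := (.ex (nat_lit 7) (.pd (.cons (nat_lit 0) (nat_lit 5) (nat_lit 0) (nat_lit 0x3987032110) (nat_lit 0x98965a2c28b71aef423f00000f423f5572c45c091e82a00000) (.cons (nat_lit 0) (nat_lit 9) (nat_lit 0) (nat_lit 0x765532110) (nat_lit 0xf423fb71aea2c2804737f423fb71aea2c289896500000) (.cons (nat_lit 1) (nat_lit 5) (nat_lit 0) (nat_lit 0x3987032200) (nat_lit 0x98965a2c28b71aef423f00000f423f5572c45c0900000f423f) (.cons (nat_lit 1) (nat_lit 9) (nat_lit 0) (nat_lit 0x765532200) (nat_lit 0xf423fb71aea2c2804737f423fb71aea2c2800000f423f) (.cons (nat_lit 2) (nat_lit 5) (nat_lit 0) (nat_lit 0x3987033000) (nat_lit 0x98965a2c28b71aef423f00000f423f5572c00000f423f54591) (.cons (nat_lit 2) (nat_lit 9) (nat_lit 0) (nat_lit 0x765533000) (nat_lit 0xf423fb71aea2c2804737f423fb71ae00000f423f54591) (.cons (nat_lit 3) (nat_lit 5) (nat_lit 0) (nat_lit 0x8766040100) (nat_lit 0xf423fb71aea2c289896500000f423f00000f423fb71ae1f156) (.cons (nat_lit 3) (nat_lit 9) (nat_lit 0) (nat_lit 0x765540100) (nat_lit 0xf423fb71aea2c2804737f423f00000f423fb71ae1f156)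 (.cons (nat_lit 4) (nat_lit 9) (nat_lit 0) (nat_lit 0x765502100) (nat_lit 0xf423fb71aea2c280473700000f423fb71aea2c2804737) .nil))))))))) (.l31 (nat_lit 0x9876543210))) (.split (nat_lit 0xa) (nat_lit 0) (.split (nat_lit 0xa) (nat_lit 1) (.split (nat_lit 0xa) (nat_lit 2) (.split (nat_lit 0xa) (nat_lit 3) (.split (nat_lit 0xa) (nat_lit 4) (.split (nat_lit 0xa) (nat_lit 5) (.split (nat_lit 0xa) (nat_lit 6) (.split (nat_lit 0xa) (nat_lit 8) (.split (nat_lit 0xa) (nat_lit 9) (.unj (nat_lit 0x155) (nat_lit 0x10002000300040003) (nat_lit 0x115400) (nat_lit 0x10000000100020002000200000000000000000000)) (.non (nat_lit 0) (nat_lit 6) (nat_lit 0x154000) (nat_lit 0x10001000100010000000000000000000000000000))) (.non (nat_lit 0) (nat_lit 6) (nat_lit 0x114000) (nat_lit 0x10000000100010000000000000000000000000000))) (.non (nat_lit 0) (nat_lit 8) (nat_lit 0x105000) (nat_lit 0x10000000000010001000000000000000000000000))) (.non (nat_lit 0) (nat_lit 6) (nat_lit 0x154554) (nat_lit 0x20005000400030000000100030006000400020000)))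 (.non (nat_lit 0) (nat_lit 6) (nat_lit 0x154140) (nat_lit 0x10001000100010000000000010001000000000000))) (.non (nat_lit 0) (nat_lit 6) (nat_lit 0x154040) (nat_lit 0x10001000100010000000000000001000000000000))) (.non (nat_lit 0) (nat_lit 6) (nat_lit 0x154050) (nat_lit 0x10001000100010000000000000001000100000000))) (.non (nat_lit 0) (nat_lit 6) (nat_lit 0x154054) (nat_lit 0x10001000100010000000000000001000100010000))) (.non (nat_lit 1) (nat_lit 8) (nat_lit 0x105401) (nat_lit 0x20000000000030004000300000000000000000001))))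

noncomputable def t1542_5 : Tr := (.pd (.cons (nat_lit 0) (nat_lit 7) (nat_lit 0) (nat_lit 0x3905532110) (nat_lit 0xb71aef423f00000f423f54591f423f65b9761a795b8cc00000) (.cons (nat_lit 1) (nat_lit 7) (nat_lit 0) (nat_lit 0x3905532200) (nat_lit 0xb71aef423f00000f423f54591f423f65b9761a7900000f423f) .nil)) (.st (nat_lit 4) (nat_lit 0) (nat_lit 6) (nat_lit 0x50154) (nat_lit 0x2000100000000000000020003000200010000) (nat_lit 1) (nat_lit 1) (.ex (nat_lit 0) (.pd (.cons (nat_lit 2) (nat_lit 6) (nat_lit 0) (nat_lit 0x3980533000) (nat_lit 0xa2c28b71aef423f00000f423ff423f5b8d400000f423f54591) (.cons (nat_lit 2) (nat_lit 7) (nat_lit 0) (nat_lit 0x3905533000) (nat_lit 0xb71aef423f00000f423f54591f423f65b9700000f423f54591) (.cons (nat_lit 2) (nat_lit 8) (nat_lit 0) (nat_lit 0x3065533000) (nat_lit 0xf423f00000f423fb71ae1f156f423f7a11d00000f423f54591) (.cons (nat_lit 3) (nat_lit 6) (nat_lit 0) (nat_lit 0x8770540100) (nat_lit 0xf423fb71aea2c2800000f423ff423f00000f423fb71ae1f156) (.cons (nat_lit 3) (nat_lit 7) (nat_lit 0)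 (nat_lit 0x8805540100) (nat_lit 0xf423fb71ae00000f423f54591f423f00000f423fb71ae1f156) (.cons (nat_lit 3) (nat_lit 8) (nat_lit 0) (nat_lit 0x9065540100) (nat_lit 0xf423f00000f423fb71ae1f156f423f00000f423fb71ae1f156) .nil)))))) t1542_4) (.split (nat_lit 0xa) (nat_lit 1) (.split (nat_lit 0xa) (nat_lit 2) (.split (nat_lit 0xa) (nat_lit 3) (.split (nat_lit 0xa) (nat_lit 4) (.split (nat_lit 0xa) (nat_lit 5) (.split (nat_lit 0xa) (nat_lit 6) (.split (nat_lit 0xa) (nat_lit 7) (.split (nat_lit 0xa) (nat_lit 8) (.split (nat_lit 0xa) (nat_lit 9) (.unj (nat_lit 0x100015) (nat_lit 0x10000000000000000000000000000000100020002) (nat_lit 0x55400) (nat_lit 0x1000200030004000300000000000000000000)) (.non (nat_lit 0) (nat_lit 6) (nat_lit 0x150150) (nat_lit 0x10002000100000000000000010002000100000000))) (.star (nat_lit 0xa) (nat_lit 0) (nat_lit 8))) (.non (nat_lit 1) (nat_lit 8) (nat_lit 0x105401) (nat_lit 0x20000000000030004000300000000000000000001))) (.star (nat_lit 0xa) (nat_lit 0) (nat_lit 6))) (.non (nat_lit 0) (nat_lit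 8) (nat_lit 0x105400) (nat_lit 0x10000000000010002000200000000000000000000))) (.non (nat_lit 0) (nat_lit 6) (nat_lit 0x150154) (nat_lit 0x10002000100000000000000020003000200010000))) (.non (nat_lit 0) (nat_lit 6) (nat_lit 0x140150) (nat_lit 0x10001000000000000000000010002000100000000))) (.non (nat_lit 0) (nat_lit 6) (nat_lit 0x140154) (nat_lit 0x10001000000000000000000010002000200010000))) (.non (nat_lit 0) (nat_lit 6) (nat_lit 0x154154) (nat_lit 0x10003000200010000000000020004000300020000))))))

noncomputable def t1542_6 : Tr := (.ex (nat_lit 7) (.pd (.cons (nat_lit 0) (nat_lit 5) (nat_lit 0) (nat_lit 0x2987032110) (nat_lit 0x98965a2c28b71aef423f00000f423fb71ae411a60f41200000) (.cons (nat_lit 0) (nat_lit 9) (nat_lit 0) (nat_lit 0x765532110) (nat_lit 0xf423fb71aea2c2804737f423fb71aea2c289896500000) (.cons (nat_lit 1) (nat_lit 5) (nat_lit 0) (nat_lit 0x2987032200) (nat_lit 0x98965a2c28b71aef423f00000f423fb71ae411a600000f423f) (.cons (nat_lit 1) (nat_lit 9) (nat_lit 0) (nat_lit 0x765532200) (nat_lit 0xf423fb71aea2c2804737f423fb71aea2c2800000f423f)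 (.cons (nat_lit 2) (nat_lit 5) (nat_lit 0) (nat_lit 0x8766033000) (nat_lit 0xf423fb71aea2c289896500000f423fb71ae00000f423f54591) (.cons (nat_lit 2) (nat_lit 9) (nat_lit 0) (nat_lit 0x765533000) (nat_lit 0xf423fb71aea2c2804737f423fb71ae00000f423f54591) (.cons (nat_lit 3) (nat_lit 9) (nat_lit 0) (nat_lit 0x765540100) (nat_lit 0xf423fb71aea2c2804737f423f00000f423fb71ae1f156) (.cons (nat_lit 4) (nat_lit 9) (nat_lit 0) (nat_lit 0x765502100) (nat_lit 0xf423fb71aea2c280473700000f423fb71aea2c2804737) .nil)))))))) (.leaf (.cons (nat_lit 0x50015) (nat_lit 0x2000100000000000000000000000300040003) (.cons (nat_lit 0x40055) (nat_lit 0x1000000000000000000000001000200020002) .nil)) (.cons (nat_lit 0x1111011110) (nat_lit 0x100001) (nat_lit 0xe) (nat_lit 0x4567032010) (.cons (nat_lit 0x1110011110) (nat_lit 0x1000001) (nat_lit 0xd) (nat_lit 0x4560032010) (.cons (nat_lit 0x1100011110) (nat_lit 0x10000001) (nat_lit 0xc) (nat_lit 0x4500032010) (.cons (nat_lit 0x1000011110) (nat_lit 0x100000001) (nat_lit 8) (nat_lit 0x2000043010)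 (.cons (nat_lit 0x1111011100) (nat_lit 0x100010) (nat_lit 5) (nat_lit 0x3456001200) (.cons (nat_lit 0x1110011100) (nat_lit 0x1000010) (nat_lit 4) (nat_lit 0x3450001200) (.cons (nat_lit 0x1100011100) (nat_lit 0x10000010) (nat_lit 3) (nat_lit 0x3400001200) (.cons (nat_lit 0x1000000111) (nat_lit 0x100001000) (nat_lit 0x10) (nat_lit 0x3000000210) .nil)))))))))) (.split (nat_lit 0xa) (nat_lit 0) (.split (nat_lit 0xa) (nat_lit 1) (.split (nat_lit 0xa) (nat_lit 2) (.split (nat_lit 0xa) (nat_lit 3) (.split (nat_lit 0xa) (nat_lit 4) (.split (nat_lit 0xa) (nat_lit 5) (.split (nat_lit 0xa) (nat_lit 6) (.split (nat_lit 0xa) (nat_lit 8) (.split (nat_lit 0xa) (nat_lit 9) (.unj (nat_lit 0x155) (nat_lit 0x10002000300040003) (nat_lit 0x115400) (nat_lit 0x10000000100020002000200000000000000000000)) (.non (nat_lit 0) (nat_lit 6) (nat_lit 0x154000) (nat_lit 0x10001000100010000000000000000000000000000))) (.non (nat_lit 0) (nat_lit 6) (nat_lit 0x114000) (nat_lit 0x10000000100010000000000000000000000000000))) (.non (nat_lit 0)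 (nat_lit 8) (nat_lit 0x105000) (nat_lit 0x10000000000010001000000000000000000000000))) (.non (nat_lit 0) (nat_lit 6) (nat_lit 0x154554) (nat_lit 0x20005000400030000000100020004000600030000))) (.non (nat_lit 0) (nat_lit 6) (nat_lit 0x154150) (nat_lit 0x10001000100010000000000010001000100000000))) (.non (nat_lit 0) (nat_lit 6) (nat_lit 0x154050) (nat_lit 0x10001000100010000000000000001000100000000))) (.non (nat_lit 0) (nat_lit 6) (nat_lit 0x154010) (nat_lit 0x10001000100010000000000000000000100000000))) (.non (nat_lit 0) (nat_lit 6) (nat_lit 0x154014) (nat_lit 0x10001000100010000000000000000000100010000))) (.non (nat_lit 1) (nat_lit 8) (nat_lit 0x105401) (nat_lit 0x20000000000030004000300000000000000000001))))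

noncomputable def t1542_7 : Tr := (.split (nat_lit 9) (nat_lit 2) (.split (nat_lit 4) (nat_lit 3) (.split (nat_lit 9) (nat_lit 8) (.pd (.cons (nat_lit 0) (nat_lit 7) (nat_lit 0) (nat_lit 0x2905532110) (nat_lit 0xb71aef423f00000f423f54591f423fb71ae516113d08500000) (.cons (nat_lit 1) (nat_lit 7) (nat_lit 0) (nat_lit 0x2905532200) (nat_lit 0xb71aef423f00000f423f54591f423fb71ae5161100000f423f) .nil)) (.st (nat_lit 4) (nat_lit 0) (nat_lit 6) (nat_lit 0x54154) (nat_lit 0x3000200010000000000020003000400020000) (nat_lit 1) (nat_lit 1) (.ex (nat_lit 0) (.pd (.cons (nat_lit 2) (nat_lit 6) (nat_lit 0) (nat_lit 0x8770533000) (nat_lit 0xf423fb71aea2c2800000f423ff423fb71ae00000f423f54591) (.cons (nat_lit 2) (nat_lit 7) (nat_lit 0) (nat_lit 0x8805533000) (nat_lit 0xf423fb71ae00000f423f54591f423fb71ae00000f423f54591) (.cons (nat_lit 2) (nat_lit 8) (nat_lit 0) (nat_lit 0x9065533000) (nat_lit 0xf423f00000f423fb71ae1f156f423fb71ae00000f423f54591) (.cons (nat_lit 3) (nat_lit 8) (nat_lit 0) (nat_lit 0x2065540100) (nat_lit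 0xf423f00000f423fb71ae1f156f423f00000b71aea2c2804737) .nil)))) t1542_6) (.split (nat_lit 0xa) (nat_lit 1) (.split (nat_lit 0xa) (nat_lit 2) (.split (nat_lit 0xa) (nat_lit 3) (.split (nat_lit 0xa) (nat_lit 4) (.split (nat_lit 0xa) (nat_lit 5) (.split (nat_lit 0xa) (nat_lit 6) (.split (nat_lit 0xa) (nat_lit 7) (.split (nat_lit 0xa) (nat_lit 8) (.split (nat_lit 0xa) (nat_lit 9) (.sup (nat_lit 0x5000000000000000000000000000000020009000a) (nat_lit 0x100040007000a000800000000000000000000)) (.non (nat_lit 0) (nat_lit 6) (nat_lit 0x150054) (nat_lit 0x10002000100000000000000000001000200010000))) (.star (nat_lit 0xa) (nat_lit 0) (nat_lit 8))) (.non (nat_lit 1) (nat_lit 8) (nat_lit 0x105401) (nat_lit 0x20000000000030004000300000000000000000001))) (.star (nat_lit 0xa) (nat_lit 0) (nat_lit 6))) (.non (nat_lit 0) (nat_lit 8) (nat_lit 0x105400) (nat_lit 0x10000000000010002000200000000000000000000))) (.non (nat_lit 0) (nat_lit 6) (nat_lit 0x154154) (nat_lit 0x10003000200010000000000020003000400020000))) (.non (nat_lit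 0) (nat_lit 6) (nat_lit 0x140154) (nat_lit 0x10001000000000000000000010002000200010000))) (.non (nat_lit 0) (nat_lit 6) (nat_lit 0x140054) (nat_lit 0x10001000000000000000000000001000200010000))) (.non (nat_lit 0) (nat_lit 6) (nat_lit 0x150154) (nat_lit 0x10002000100000000000000010002000300020000)))))) (.non (nat_lit 0) (nat_lit 6) (nat_lit 0x68050) (nat_lit 0x3000200010000000000000001000200000000))) (.non (nat_lit 0) (nat_lit 6) (nat_lit 0x40254) (nat_lit 0x1000000000000000000010002000200010000))) (.non (nat_lit 0) (nat_lit 6) (nat_lit 0xa8050) (nat_lit 0x3000200010000000000000002000400000000)))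

noncomputable def t1542_8 : Tr := (.split (nat_lit 9) (nat_lit 2) (.split (nat_lit 9) (nat_lit 3) (.split (nat_lit 9) (nat_lit 4) (.split (nat_lit 8) (nat_lit 4) .uj (.st (nat_lit 2) (nat_lit 0) (nat_lit 6) (nat_lit 0x54154) (nat_lit 0x1000200010000000000020002000200010000) (nat_lit 1) (nat_lit 1) (.st (nat_lit 3) (nat_lit 0) (nat_lit 6) (nat_lit 0x54150) (nat_lit 0x1000200010000000000020002000100000000) (nat_lit 1) (nat_lit 1) (.st (nat_lit 4) (nat_lit 0) (nat_lit 6) (nat_lit 0x54140) (nat_lit 0x1000200010000000000020001000000000000) (nat_lit 1) (nat_lit 1) (.st (nat_lit 8) (nat_lit 0) (nat_lit 6) (nat_lit 0x54100) (nat_lit 0x1000200010000000000010000000000000000) (nat_lit 1) (nat_lit 1) t1542_3))))) (.split (nat_lit 8) (nat_lit 4) (.sup (nat_lit 0x100040007000a0008) (nat_lit 0x100040007000a000800000000000000000000)) (.non (nat_lit 0) (nat_lit 6) (nat_lit 0x50100) (nat_lit 0x1000100000000000000010000000000000000)))) (.split (nat_lit 9) (nat_lit 4) (.split (nat_lit 8) (nat_lit 4) (.st (nat_lit 1) (nat_lit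 0) (nat_lit 6) (nat_lit 0x54154) (nat_lit 0x3000200010000000000020004000300020000) (nat_lit 1) (nat_lit 1) (.st (nat_lit 2) (nat_lit 0) (nat_lit 6) (nat_lit 0x40154) (nat_lit 0x1000000000000000000010002000200010000) (nat_lit 1) (nat_lit 1) (.st (nat_lit 3) (nat_lit 0) (nat_lit 6) (nat_lit 0x40150) (nat_lit 0x1000000000000000000010002000100000000) (nat_lit 1) (nat_lit 1) (.st (nat_lit 8) (nat_lit 0) (nat_lit 6) (nat_lit 0x54150) (nat_lit 0x2000200010000000000010002000100000000) (nat_lit 1) (nat_lit 1) (.st (nat_lit 9) (nat_lit 0) (nat_lit 6) (nat_lit 0x50150) (nat_lit 0x2000100000000000000010002000100000000) (nat_lit 1) (nat_lit 1) (.split (nat_lit 4) (nat_lit 3) (.split (nat_lit 9) (nat_lit 3) (.split (nat_lit 9) (nat_lit 8) t1542_5 (.non (nat_lit 0) (nat_lit 6) (nat_lit 0x68140) (nat_lit 0x3000200010000000000010002000000000000))) (.non (nat_lit 0) (nat_lit 6) (nat_lit 0xa8140) (nat_lit 0x3000200010000000000020004000000000000))) (.non (nat_lit 0) (nat_lit 6) (nat_lit 0x40250) (nat_lit 0x1000000000000000000010002000100000000))))))))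 (.non (nat_lit 0) (nat_lit 6) (nat_lit 0x50140) (nat_lit 0x1000100000000000000010001000000000000))) (.non (nat_lit 0) (nat_lit 6) (nat_lit 0x40140) (nat_lit 0x1000000000000000000010001000000000000)))) (.split (nat_lit 9) (nat_lit 3) (.split (nat_lit 9) (nat_lit 4) (.split (nat_lit 8) (nat_lit 4) (.st (nat_lit 1) (nat_lit 0) (nat_lit 6) (nat_lit 0x50154) (nat_lit 0x2000100000000000000010002000300020000) (nat_lit 1) (nat_lit 1) (.st (nat_lit 2) (nat_lit 0) (nat_lit 6) (nat_lit 0x40054) (nat_lit 0x1000000000000000000000001000200010000) (nat_lit 1) (nat_lit 1) (.st (nat_lit 3) (nat_lit 0) (nat_lit 6) (nat_lit 0x40154) (nat_lit 0x1000000000000000000010002000200010000) (nat_lit 1) (nat_lit 1) (.st (nat_lit 8) (nat_lit 0) (nat_lit 6) (nat_lit 0x54054) (nat_lit 0x2000200010000000000000001000200010000) (nat_lit 1) (nat_lit 1) (.st (nat_lit 9) (nat_lit 0) (nat_lit 6) (nat_lit 0x50054) (nat_lit 0x2000100000000000000000001000200010000) (nat_lit 1) (nat_lit 1) t1542_7))))) (.non (nat_lit 0) (nat_lit 6) (nat_lit 0x50150)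 (nat_lit 0x1000100000000000000010001000100000000))) (.non (nat_lit 0) (nat_lit 6) (nat_lit 0x40150) (nat_lit 0x1000000000000000000010001000100000000))) (.non (nat_lit 0) (nat_lit 6) (nat_lit 0x40050) (nat_lit 0x1000000000000000000000001000100000000))))

noncomputable def t1542 : Tr := (.split (nat_lit 8) (nat_lit 3) (.split (nat_lit 7) (nat_lit 2) (.split (nat_lit 7) (nat_lit 3) (.split (nat_lit 7) (nat_lit 4) t1542_8 (.non (nat_lit 0) (nat_lit 8) (nat_lit 0x5540) (nat_lit 0x30004000300020001000000000000))) (.non (nat_lit 0) (nat_lit 8) (nat_lit 0x5540) (nat_lit 0x30004000300010002000000000000))) (.non (nat_lit 0) (nat_lit 8) (nat_lit 0x5450) (nat_lit 0x30004000300000001000200000000))) (.non (nat_lit 0) (nat_lit 6) (nat_lit 0x54150) (nat_lit 0x1000200010000000000010002000100000000)))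

noncomputable def t1543_1 : Tr := (.ex (nat_lit 0) (.pd (.cons (nat_lit 2) (nat_lit 5) (nat_lit 0) (nat_lit 0x3987033000) (nat_lit 0x98965a2c28b71aef423f00000f423f5572c00000f423f54591) (.cons (nat_lit 2) (nat_lit 6) (nat_lit 0) (nat_lit 0x3980533000) (nat_lit 0xa2c28b71aef423f00000f423ff423f5b8d400000f423f54591) (.cons (nat_lit 2) (nat_lit 7) (nat_lit 0) (nat_lit 0x3905533000) (nat_lit 0xb71aef423f00000f423f54591f423f65b9700000f423f54591) (.cons (nat_lit 2) (nat_lit 8) (nat_lit 0) (nat_lit 0x3065533000) (nat_lit 0xf423f00000f423fb71ae1f156f423f7a11d00000f423f54591) (.cons (nat_lit 2) (nat_lit 9) (nat_lit 0) (nat_lit 0x765533000) (nat_lit 0xf423fb71aea2c2804737f423fb71ae00000f423f54591) (.cons (nat_lit 3) (nat_lit 5) (nat_lit 0) (nat_lit 0x8766040100) (nat_lit 0xf423fb71aea2c289896500000f423f00000f423fb71ae1f156) (.cons (nat_lit 3) (nat_lit 6) (nat_lit 0) (nat_lit 0x8770540100) (nat_lit 0xf423fb71aea2c2800000f423ff423f00000f423fb71ae1f156) (.cons (nat_lit 3) (nat_lit 7) (nat_lit 0) (nat_lit 0x8805540100)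 (nat_lit 0xf423fb71ae00000f423f54591f423f00000f423fb71ae1f156) (.cons (nat_lit 3) (nat_lit 8) (nat_lit 0) (nat_lit 0x9065540100) (nat_lit 0xf423f00000f423fb71ae1f156f423f00000f423fb71ae1f156) (.cons (nat_lit 3) (nat_lit 9) (nat_lit 0) (nat_lit 0x765540100) (nat_lit 0xf423fb71aea2c2804737f423f00000f423fb71ae1f156) (.cons (nat_lit 4) (nat_lit 9) (nat_lit 0) (nat_lit 0x765502100) (nat_lit 0xf423fb71aea2c280473700000f423fb71aea2c2804737) .nil))))))))))) (.l31 (nat_lit 0x9876543210))) (.split (nat_lit 0xa) (nat_lit 1) (.split (nat_lit 0xa) (nat_lit 2) (.split (nat_lit 0xa) (nat_lit 3) (.split (nat_lit 0xa) (nat_lit 4) (.split (nat_lit 0xa) (nat_lit 5) (.split (nat_lit 0xa) (nat_lit 6) (.split (nat_lit 0xa) (nat_lit 7) (.split (nat_lit 0xa) (nat_lit 8) (.split (nat_lit 0xa) (nat_lit 9) (.unj (nat_lit 0x100015) (nat_lit 0x10000000000000000000000000000000100020002) (nat_lit 0x55400) (nat_lit 0x1000200030004000300000000000000000000)) (.star (nat_lit 0xa) (nat_lit 0) (nat_lit 9))) (.non (nat_lit 0) (nat_lit 6) (nat_lit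 0x154150) (nat_lit 0x10002000200010000000000010002000100000000))) (.non (nat_lit 0) (nat_lit 9) (nat_lit 0x115400) (nat_lit 0x10000000100020002000200000000000000000000))) (.star (nat_lit 0xa) (nat_lit 0) (nat_lit 6))) (.non (nat_lit 0) (nat_lit 9) (nat_lit 0x105400) (nat_lit 0x10000000000010002000200000000000000000000))) (.non (nat_lit 0) (nat_lit 6) (nat_lit 0x150154) (nat_lit 0x10002000100000000000000020003000200010000))) (.non (nat_lit 0) (nat_lit 6) (nat_lit 0x140150) (nat_lit 0x10001000000000000000000010002000100000000))) (.non (nat_lit 0) (nat_lit 6) (nat_lit 0x140154) (nat_lit 0x10001000000000000000000010002000200010000))) (.non (nat_lit 0) (nat_lit 6) (nat_lit 0x154154) (nat_lit 0x10003000200010000000000020004000300020000))))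

noncomputable def t1543 : Tr := (.split (nat_lit 9) (nat_lit 3) (.split (nat_lit 9) (nat_lit 4) .uj (.sup (nat_lit 0x100040007000a0008) (nat_lit 0x100040007000a000800000000000000000000))) (.split (nat_lit 9) (nat_lit 4) (.st (nat_lit 1) (nat_lit 0) (nat_lit 6) (nat_lit 0x54154) (nat_lit 0x3000200010000000000020004000300020000) (nat_lit 1) (nat_lit 1) (.st (nat_lit 2) (nat_lit 0) (nat_lit 6) (nat_lit 0x40154) (nat_lit 0x1000000000000000000010002000200010000) (nat_lit 1) (nat_lit 1) (.st (nat_lit 3) (nat_lit 0) (nat_lit 6) (nat_lit 0x40150) (nat_lit 0x1000000000000000000010002000100000000) (nat_lit 1) (nat_lit 1) (.st (nat_lit 4) (nat_lit 0) (nat_lit 6) (nat_lit 0x50154) (nat_lit 0x2000100000000000000020003000200010000) (nat_lit 1) (nat_lit 1) (.st (nat_lit 9) (nat_lit 0) (nat_lit 6) (nat_lit 0x50150) (nat_lit 0x2000100000000000000010002000100000000) (nat_lit 1) (nat_lit 1) (.split (nat_lit 4) (nat_lit 3) (.split (nat_lit 9) (nat_lit 3) (.split (nat_lit 9) (nat_lit 8) (.pd (.cons (nat_lit 0) (nat_lit 5)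 (nat_lit 0) (nat_lit 0x3987032110) (nat_lit 0x98965a2c28b71aef423f00000f423f5572c45c091e82a00000) (.cons (nat_lit 0) (nat_lit 7) (nat_lit 0) (nat_lit 0x3905532110) (nat_lit 0xb71aef423f00000f423f54591f423f65b9761a795b8cc00000) (.cons (nat_lit 0) (nat_lit 8) (nat_lit 0) (nat_lit 0x3065532110) (nat_lit 0xf423f00000f423fb71ae1f156f423f7a11d7a11b7a11900000) (.cons (nat_lit 1) (nat_lit 5) (nat_lit 0) (nat_lit 0x3987032200) (nat_lit 0x98965a2c28b71aef423f00000f423f5572c45c0900000f423f) (.cons (nat_lit 1) (nat_lit 7) (nat_lit 0) (nat_lit 0x3905532200) (nat_lit 0xb71aef423f00000f423f54591f423f65b9761a7900000f423f) (.cons (nat_lit 1) (nat_lit 8) (nat_lit 0) (nat_lit 0x3065532200) (nat_lit 0xf423f00000f423fb71ae1f156f423f7a11d7a11b00000f423f) .nil)))))) t1543_1) (.non (nat_lit 0) (nat_lit 6) (nat_lit 0x68140) (nat_lit 0x3000200010000000000010002000000000000))) (.non (nat_lit 0) (nat_lit 6) (nat_lit 0xa8140) (nat_lit 0x3000200010000000000020004000000000000))) (.non (nat_lit 0) (nat_lit 6) (nat_lit 0x40250) (nat_lit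 0x1000000000000000000010002000100000000)))))))) (.non (nat_lit 0) (nat_lit 6) (nat_lit 0x40140) (nat_lit 0x1000000000000000000010001000000000000))))

noncomputable def t1544_1 : Tr := (.ex (nat_lit 9) (.pd (.cons (nat_lit 0) (nat_lit 5) (nat_lit 0) (nat_lit 0x8487032110) (nat_lit 0xf423f65b97b71aef423f0000061a795b8cc515fe3d05a00000) (.cons (nat_lit 0) (nat_lit 6) (nat_lit 0) (nat_lit 0x8480532110) (nat_lit 0xf423f7a11df423f00000f423f7a11b7a1197a1177a11500000) (.cons (nat_lit 1) (nat_lit 5) (nat_lit 0) (nat_lit 0x8487032200) (nat_lit 0xf423f65b97b71aef423f0000061a795b8cc515fe00000f423f) (.cons (nat_lit 1) (nat_lit 6) (nat_lit 0) (nat_lit 0x8480532200) (nat_lit 0xf423f7a11df423f00000f423f7a11b7a1197a11700000f423f) (.cons (nat_lit 2) (nat_lit 5) (nat_lit 0) (nat_lit 0x8487033000) (nat_lit 0xf423f65b97b71aef423f0000061a795b8cc00000f423f54591) (.cons (nat_lit 2) (nat_lit 6) (nat_lit 0) (nat_lit 0x8480533000) (nat_lit 0xf423f7a11df423f00000f423f7a11b7a11900000f423f54591) (.cons (nat_lit 3) (nat_lit 5) (nat_lit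 0) (nat_lit 0x8487040100) (nat_lit 0xf423f65b97b71aef423f0000061a7900000f423fb71ae1f156) (.cons (nat_lit 3) (nat_lit 6) (nat_lit 0) (nat_lit 0x8480540100) (nat_lit 0xf423f7a11df423f00000f423f7a11b00000f423fb71ae1f156) (.cons (nat_lit 4) (nat_lit 5) (nat_lit 0) (nat_lit 0x8766002100) (nat_lit 0xf423fb71aea2c28989650000000000f423fb71aea2c2804737) (.cons (nat_lit 4) (nat_lit 6) (nat_lit 0) (nat_lit 0x8770502100) (nat_lit 0xf423fb71aea2c2800000f423f00000f423fb71aea2c2804737) .nil)))))))))) (.l31 (nat_lit 0x4321098765))) (.split (nat_lit 0xa) (nat_lit 0) (.split (nat_lit 0xa) (nat_lit 1) (.split (nat_lit 0xa) (nat_lit 2) (.split (nat_lit 0xa) (nat_lit 3) (.split (nat_lit 0xa) (nat_lit 4) (.split (nat_lit 0xa) (nat_lit 5) (.split (nat_lit 0xa) (nat_lit 6) (.split (nat_lit 0xa) (nat_lit 7) (.split (nat_lit 0xa) (nat_lit 8) (.sup (nat_lit 0x10002000300060009000700000000000000000000) (nat_lit 0x10006000b0010000d)) (.non (nat_lit 0) (nat_lit 7) (nat_lit 0x150000) (nat_lit 0x10001000100000000000000000000000000000000)))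 (.non (nat_lit 0) (nat_lit 8) (nat_lit 0x145400) (nat_lit 0x20001000000030004000300000000000000000000))) (.non (nat_lit 0) (nat_lit 7) (nat_lit 0x151400) (nat_lit 0x30002000100000004000300000000000000000000))) (.non (nat_lit 0) (nat_lit 7) (nat_lit 0x151400) (nat_lit 0x30002000100000003000400000000000000000000))) (.non (nat_lit 0) (nat_lit 7) (nat_lit 0x150100) (nat_lit 0x10001000100000000000000010000000000000000))) (.non (nat_lit 0) (nat_lit 7) (nat_lit 0x150140) (nat_lit 0x10001000100000000000000010001000000000000))) (.non (nat_lit 0) (nat_lit 7) (nat_lit 0x150150) (nat_lit 0x10001000100000000000000010001000100000000))) (.non (nat_lit 0) (nat_lit 7) (nat_lit 0x150154) (nat_lit 0x10001000100000000000000010001000100010000))) (.non (nat_lit 2) (nat_lit 7) (nat_lit 0x150005) (nat_lit 0x30002000100000000000000000000000000030004))))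

noncomputable def t1544_2 : Tr := (.ex (nat_lit 7) (.ex (nat_lit 8) (.pd (.cons (nat_lit 4) (nat_lit 9) (nat_lit 0) (nat_lit 0x765502100) (nat_lit 0xf423fb71aea2c280473700000f423fb71aea2c2804737) .nil) t1544_1) (.split (nat_lit 0xa) (nat_lit 0) (.split (nat_lit 0xa) (nat_lit 1) (.split (nat_lit 0xa) (nat_lit 2) (.split (nat_lit 0xa) (nat_lit 3) (.split (nat_lit 0xa) (nat_lit 4) (.split (nat_lit 0xa) (nat_lit 5) (.split (nat_lit 0xa) (nat_lit 6) (.split (nat_lit 0xa) (nat_lit 9) (.split (nat_lit 0xa) (nat_lit 7) (.sup (nat_lit 0x10001000300050007000500000000000000000000) (nat_lit 0x20007000b0010000d)) (.sup (nat_lit 0x7000f00170020001a) (nat_lit 0x30000000100050007000600000000000000000000))) (.non (nat_lit 0) (nat_lit 7) (nat_lit 0x150000) (nat_lit 0x10001000100000000000000000000000000000000))) (.non (nat_lit 0) (nat_lit 7) (nat_lit 0x151400) (nat_lit 0x30001000200000004000300000000000000000000))) (.non (nat_lit 0) (nat_lit 7) (nat_lit 0x151400) (nat_lit 0x30001000200000003000400000000000000000000))) (.non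 (nat_lit 0) (nat_lit 7) (nat_lit 0x110100) (nat_lit 0x10000000100000000000000010000000000000000))) (.non (nat_lit 0) (nat_lit 7) (nat_lit 0x110140) (nat_lit 0x10000000100000000000000010001000000000000))) (.non (nat_lit 0) (nat_lit 7) (nat_lit 0x110150) (nat_lit 0x10000000100000000000000010001000100000000))) (.star (nat_lit 0xa) (nat_lit 1) (nat_lit 8))) (.star (nat_lit 0xa) (nat_lit 0) (nat_lit 8)))) (.split (nat_lit 0xa) (nat_lit 0) (.split (nat_lit 0xa) (nat_lit 1) (.split (nat_lit 0xa) (nat_lit 2) (.split (nat_lit 0xa) (nat_lit 3) (.split (nat_lit 0xa) (nat_lit 4) (.split (nat_lit 0xa) (nat_lit 5) (.split (nat_lit 0xa) (nat_lit 6) (.split (nat_lit 0xa) (nat_lit 9) (.split (nat_lit 0xa) (nat_lit 8) (.sup (nat_lit 0x10002000300050004) (nat_lit 0x20000000100030005000400000000000000000000)) (.sup (nat_lit 0x7000f00170020001a) (nat_lit 0x30000000100050007000600000000000000000000))) (.non (nat_lit 0) (nat_lit 8) (nat_lit 0x145400) (nat_lit 0x20001000000030004000300000000000000000000))) (.non (nat_lit 0) (nat_lit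 8) (nat_lit 0x105000) (nat_lit 0x10000000000010001000000000000000000000000))) (.non (nat_lit 0) (nat_lit 8) (nat_lit 0x105400) (nat_lit 0x10000000000010001000100000000000000000000))) (.non (nat_lit 0) (nat_lit 8) (nat_lit 0x105500) (nat_lit 0x20000000000030004000300010000000000000000))) (.non (nat_lit 0) (nat_lit 8) (nat_lit 0x105440) (nat_lit 0x20000000000030004000300000001000000000000))) (.non (nat_lit 0) (nat_lit 8) (nat_lit 0x105410) (nat_lit 0x20000000000030004000300000000000100000000))) (.star (nat_lit 0xa) (nat_lit 1) (nat_lit 7))) (.star (nat_lit 0xa) (nat_lit 0) (nat_lit 7))))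

noncomputable def t1544_3 : Tr := (.ex (nat_lit 3) (.pd (.cons (nat_lit 4) (nat_lit 7) (nat_lit 0) (nat_lit 0x8805502100) (nat_lit 0xf423fb71ae00000f423f5459100000f423fb71aea2c2804737) (.cons (nat_lit 4) (nat_lit 8) (nat_lit 0) (nat_lit 0x9065502100) (nat_lit 0xf423f00000f423fb71ae1f15600000f423fb71aea2c2804737) .nil)) (.ex (nat_lit 4) t1544_2 (.split (nat_lit 0xa) (nat_lit 0) (.split (nat_lit 0xa) (nat_lit 1) (.split (nat_lit 0xa) (nat_lit 2) (.split (nat_lit 0xa) (nat_lit 3) (.split (nat_lit 0xa) (nat_lit 5) (.split (nat_lit 0xa) (nat_lit 6) (.split (nat_lit 0xa) (nat_lit 7) (.split (nat_lit 0xa) (nat_lit 8) (.split (nat_lit 0xa) (nat_lit 9) (.sup (nat_lit 0x90011001f002c002400000000000000000000) (nat_lit 0x30000000000000000000000050019002c00400034)) (.non (nat_lit 0) (nat_lit 7) (nat_lit 0x150100) (nat_lit 0x10001000100000000000000010000000000000000))) (.non (nat_lit 0) (nat_lit 7) (nat_lit 0x110100) (nat_lit 0x10000000100000000000000010000000000000000))) (.non (nat_lit 0) (nat_lit 8) (nat_lit 0x105500)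 (nat_lit 0x20000000000030004000300010000000000000000))) (.non (nat_lit 0) (nat_lit 7) (nat_lit 0x111500) (nat_lit 0x30000000100000004000300020000000000000000))) (.non (nat_lit 0) (nat_lit 7) (nat_lit 0x111500) (nat_lit 0x30000000100000003000400020000000000000000))) (.non (nat_lit 0) (nat_lit 7) (nat_lit 0x100140) (nat_lit 0x10000000000000000000000010001000000000000))) (.non (nat_lit 0) (nat_lit 7) (nat_lit 0x100150) (nat_lit 0x10000000000000000000000010001000100000000))) (.non (nat_lit 0) (nat_lit 7) (nat_lit 0x100154) (nat_lit 0x10000000000000000000000010001000100010000))) (.non (nat_lit 1) (nat_lit 7) (nat_lit 0x150151) (nat_lit 0x20001000200000000000000030002000100000001))))) (.split (nat_lit 0xa) (nat_lit 0) (.split (nat_lit 0xa) (nat_lit 1) (.split (nat_lit 0xa) (nat_lit 2) (.split (nat_lit 0xa) (nat_lit 4) (.split (nat_lit 0xa) (nat_lit 5) (.split (nat_lit 0xa) (nat_lit 6) (.split (nat_lit 0xa) (nat_lit 7) (.split (nat_lit 0xa) (nat_lit 8) (.split (nat_lit 0xa) (nat_lit 9) (.unj (nat_lit 0x100055)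 (nat_lit 0x10000000000000000000000000002000300040003) (nat_lit 0x55400) (nat_lit 0x1000200030004000300000000000000000000)) (.non (nat_lit 0) (nat_lit 7) (nat_lit 0x150140) (nat_lit 0x10001000100000000000000010001000000000000))) (.non (nat_lit 0) (nat_lit 7) (nat_lit 0x110140) (nat_lit 0x10000000100000000000000010001000000000000))) (.non (nat_lit 0) (nat_lit 8) (nat_lit 0x105440) (nat_lit 0x20000000000030004000300000001000000000000))) (.non (nat_lit 0) (nat_lit 7) (nat_lit 0x101540) (nat_lit 0x30000000000000004000300010002000000000000))) (.non (nat_lit 0) (nat_lit 7) (nat_lit 0x101540) (nat_lit 0x30000000000000003000400010002000000000000))) (.non (nat_lit 0) (nat_lit 7) (nat_lit 0x100140) (nat_lit 0x10000000000000000000000010001000000000000))) (.non (nat_lit 0) (nat_lit 7) (nat_lit 0x100050) (nat_lit 0x10000000000000000000000000001000100000000))) (.non (nat_lit 0) (nat_lit 7) (nat_lit 0x100054) (nat_lit 0x10000000000000000000000000001000100010000))) (.non (nat_lit 2) (nat_lit 7) (nat_lit 0x100145) (nat_lit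 0x30000000000000000000000010002000000030004))))

noncomputable def t1544_4 : Tr := (.ex (nat_lit 1) (.split (nat_lit 4) (nat_lit 3) (.split (nat_lit 8) (nat_lit 4) (.split (nat_lit 9) (nat_lit 8) (.pd (.cons (nat_lit 2) (nat_lit 7) (nat_lit 0) (nat_lit 0x8405533000) (nat_lit 0xf423fb71ae00000f423f54591a2c289896500000f423f54591) (.cons (nat_lit 2) (nat_lit 8) (nat_lit 0) (nat_lit 0x9065533000) (nat_lit 0xf423f00000f423fb71ae1f156f423fb71ae00000f423f54591) .nil)) (.ex (nat_lit 2) (.pd (.cons (nat_lit 3) (nat_lit 7) (nat_lit 0) (nat_lit 0x8405540100) (nat_lit 0xf423fb71ae00000f423f54591a2c2800000f423fb71ae1f156) (.cons (nat_lit 3) (nat_lit 8) (nat_lit 0) (nat_lit 0x9065540100) (nat_lit 0xf423f00000f423fb71ae1f156f423f00000f423fb71ae1f156) .nil)) t1544_3) (.split (nat_lit 0xa) (nat_lit 1) (.split (nat_lit 0xa) (nat_lit 3) (.split (nat_lit 0xa) (nat_lit 4) (.split (nat_lit 0xa) (nat_lit 5) (.split (nat_lit 0xa) (nat_lit 6) (.split (nat_lit 0xa) (nat_lit 7) (.split (nat_lit 0xa) (nat_lit 8) (.split (nat_lit 0xa)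 (nat_lit 9) (.split (nat_lit 0xa) (nat_lit 0) (.unj (nat_lit 0x100055) (nat_lit 0x10000000000000000000000000001000200020002) (nat_lit 0x55400) (nat_lit 0x1000200030004000300000000000000000000)) (.unj (nat_lit 0x100015) (nat_lit 0x10000000000000000000000000000000100010001) (nat_lit 0x15500) (nat_lit 0x200030004000300010000000000000000))) (.non (nat_lit 0) (nat_lit 7) (nat_lit 0x150150) (nat_lit 0x10001000100000000000000010001000100000000))) (.non (nat_lit 0) (nat_lit 7) (nat_lit 0x110150) (nat_lit 0x10000000100000000000000010001000100000000))) (.non (nat_lit 0) (nat_lit 8) (nat_lit 0x105410) (nat_lit 0x20000000000030004000300000000000100000000))) (.non (nat_lit 0) (nat_lit 7) (nat_lit 0x101450) (nat_lit 0x30000000000000004000300000001000200000000))) (.non (nat_lit 0) (nat_lit 7) (nat_lit 0x101450) (nat_lit 0x30000000000000003000400000001000200000000))) (.non (nat_lit 0) (nat_lit 7) (nat_lit 0x100150) (nat_lit 0x10000000000000000000000010001000100000000))) (.non (nat_lit 0) (nat_lit 7) (nat_lit 0x100050)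 (nat_lit 0x10000000000000000000000000001000100000000))) (.non (nat_lit 0) (nat_lit 7) (nat_lit 0x100014) (nat_lit 0x10000000000000000000000000000000100010000))))) (.sup (nat_lit 0x100040007000a0008) (nat_lit 0x300040007000a000800000000000000000000))) (.non (nat_lit 0) (nat_lit 7) (nat_lit 0xa0150) (nat_lit 0x1000200000000000000030002000100000000))) (.non (nat_lit 0) (nat_lit 7) (nat_lit 0xa0250) (nat_lit 0x1000200000000000000030004000200000000))) (.split (nat_lit 0xa) (nat_lit 2) (.split (nat_lit 0xa) (nat_lit 3) (.split (nat_lit 0xa) (nat_lit 4) (.split (nat_lit 0xa) (nat_lit 5) (.split (nat_lit 0xa) (nat_lit 6) (.split (nat_lit 0xa) (nat_lit 7) (.split (nat_lit 0xa) (nat_lit 8) (.split (nat_lit 0xa) (nat_lit 9) (.split (nat_lit 0xa) (nat_lit 0) (.unj (nat_lit 0x100015) (nat_lit 0x10000000000000000000000000000000100020002) (nat_lit 0x15500) (nat_lit 0x200030004000300010000000000000000)) (.unj (nat_lit 0x100005) (nat_lit 0x10000000000000000000000000000000000010001) (nat_lit 0x15500) (nat_lit 0x200030004000300010000000000000000)))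 (.non (nat_lit 0) (nat_lit 7) (nat_lit 0x150154) (nat_lit 0x10001000100000000000000010001000100010000))) (.star (nat_lit 0xa) (nat_lit 1) (nat_lit 8))) (.star (nat_lit 0xa) (nat_lit 1) (nat_lit 7))) (.non (nat_lit 0) (nat_lit 7) (nat_lit 0x101414) (nat_lit 0x30000000000000004000300000000000100020000))) (.non (nat_lit 0) (nat_lit 7) (nat_lit 0x101414) (nat_lit 0x30000000000000003000400000000000100020000))) (.non (nat_lit 0) (nat_lit 7) (nat_lit 0x100154) (nat_lit 0x10000000000000000000000010001000100010000))) (.non (nat_lit 0) (nat_lit 7) (nat_lit 0x100054) (nat_lit 0x10000000000000000000000000001000100010000))) (.non (nat_lit 0) (nat_lit 7) (nat_lit 0x100014) (nat_lit 0x10000000000000000000000000000000100010000))))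

noncomputable def t1544_5 : Tr := (.split (nat_lit 8) (nat_lit 3) (.split (nat_lit 8) (nat_lit 4) .uj (.ex (nat_lit 0) t1544_4 (.split (nat_lit 0xa) (nat_lit 4) (.split (nat_lit 0xa) (nat_lit 5) (.split (nat_lit 0xa) (nat_lit 6) (.split (nat_lit 0xa) (nat_lit 7) (.split (nat_lit 0xa) (nat_lit 8) (.split (nat_lit 0xa) (nat_lit 1) (.split (nat_lit 0xa) (nat_lit 2) (.split (nat_lit 0xa) (nat_lit 3) (.split (nat_lit 0xa) (nat_lit 9) (.unj (nat_lit 0x100015) (nat_lit 0x10000000000000000000000000000000100020002) (nat_lit 0x15500) (nat_lit 0x200030004000300010000000000000000)) (.unj (nat_lit 0x100015) (nat_lit 0x10000000000000000000000000000000100020002) (nat_lit 0x15500) (nat_lit 0x200030004000300010000000000000000))) (.split (nat_lit 0xa) (nat_lit 9) (.unj (nat_lit 0x100015) (nat_lit 0x10000000000000000000000000000000100020002) (nat_lit 0x15500) (nat_lit 0x200030004000300010000000000000000)) (.non (nat_lit 0) (nat_lit 7) (nat_lit 0x150140) (nat_lit 0x10001000100000000000000010001000000000000)))) (.split (nat_lit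 0xa) (nat_lit 3) (.split (nat_lit 0xa) (nat_lit 9) (.unj (nat_lit 0x100015) (nat_lit 0x10000000000000000000000000000000100010001) (nat_lit 0x15500) (nat_lit 0x200030004000300010000000000000000)) (.non (nat_lit 0) (nat_lit 7) (nat_lit 0x150150) (nat_lit 0x10001000100000000000000010001000100000000))) (.non (nat_lit 0) (nat_lit 7) (nat_lit 0x100050) (nat_lit 0x10000000000000000000000000001000100000000)))) (.split (nat_lit 0xa) (nat_lit 2) (.split (nat_lit 0xa) (nat_lit 3) (.split (nat_lit 0xa) (nat_lit 9) (.unj (nat_lit 0x100005) (nat_lit 0x10000000000000000000000000000000000010001) (nat_lit 0x15500) (nat_lit 0x200030004000300010000000000000000)) (.non (nat_lit 0) (nat_lit 7) (nat_lit 0x150154) (nat_lit 0x10001000100000000000000010001000100010000))) (.non (nat_lit 0) (nat_lit 7) (nat_lit 0x100054) (nat_lit 0x10000000000000000000000000001000100010000))) (.non (nat_lit 0) (nat_lit 7) (nat_lit 0x100014) (nat_lit 0x10000000000000000000000000000000100010000)))) (.star (nat_lit 0xa) (nat_lit 0) (nat_lit 8))) (.star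 (nat_lit 0xa) (nat_lit 0) (nat_lit 7))) (.non (nat_lit 0) (nat_lit 8) (nat_lit 0x105400) (nat_lit 0x10000000000010002000200000000000000000000))) (.non (nat_lit 0) (nat_lit 8) (nat_lit 0x105400) (nat_lit 0x10000000000010002000200000000000000000000))) (.non (nat_lit 1) (nat_lit 7) (nat_lit 0x150151) (nat_lit 0x20001000200000000000000030002000100000001))))) (.split (nat_lit 8) (nat_lit 4) (.split (nat_lit 9) (nat_lit 8) (.split (nat_lit 8) (nat_lit 3) (.split (nat_lit 4) (nat_lit 3) (.par (nat_lit 0x54150) (nat_lit 0x1000200010000000000010002000100000000)) (.non (nat_lit 0) (nat_lit 7) (nat_lit 0x10250) (nat_lit 0x100000000000000010002000100000000))) (.non (nat_lit 0) (nat_lit 7) (nat_lit 0x20150) (nat_lit 0x100000000000000010002000100000000))) (.non (nat_lit 0) (nat_lit 7) (nat_lit 0x90150) (nat_lit 0x1000200000000000000010002000100000000))) (.non (nat_lit 0) (nat_lit 7) (nat_lit 0x10140) (nat_lit 0x100000000000000010001000000000000))))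

noncomputable def t1544_6 : Tr := (.ex (nat_lit 8) (.pd (.cons (nat_lit 0) (nat_lit 5) (nat_lit 0) (nat_lit 0x3987032110) (nat_lit 0x98965a2c28b71aef423f00000f423f5572c45c091e82a00000) (.cons (nat_lit 0) (nat_lit 6) (nat_lit 0) (nat_lit 0x3980532110) (nat_lit 0xa2c28b71aef423f00000f423ff423f5b8d45160d3d07c00000) (.cons (nat_lit 0) (nat_lit 9) (nat_lit 0) (nat_lit 0x765532110) (nat_lit 0xf423fb71aea2c2804737f423fb71aea2c289896500000) (.cons (nat_lit 1) (nat_lit 5) (nat_lit 0) (nat_lit 0x3987032200) (nat_lit 0x98965a2c28b71aef423f00000f423f5572c45c0900000f423f) (.cons (nat_lit 1) (nat_lit 6) (nat_lit 0) (nat_lit 0x3980532200) (nat_lit 0xa2c28b71aef423f00000f423ff423f5b8d45160d00000f423f) (.cons (nat_lit 1) (nat_lit 9) (nat_lit 0) (nat_lit 0x765532200) (nat_lit 0xf423fb71aea2c2804737f423fb71aea2c2800000f423f) (.cons (nat_lit 2) (nat_lit 5) (nat_lit 0) (nat_lit 0x3987033000) (nat_lit 0x98965a2c28b71aef423f00000f423f5572c00000f423f54591) (.cons (nat_lit 2) (nat_lit 6) (nat_lit 0) (nat_lit 0x3980533000) (nat_lit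 0xa2c28b71aef423f00000f423ff423f5b8d400000f423f54591) (.cons (nat_lit 2) (nat_lit 9) (nat_lit 0) (nat_lit 0x765533000) (nat_lit 0xf423fb71aea2c2804737f423fb71ae00000f423f54591) (.cons (nat_lit 3) (nat_lit 5) (nat_lit 0) (nat_lit 0x8766040100) (nat_lit 0xf423fb71aea2c289896500000f423f00000f423fb71ae1f156) (.cons (nat_lit 3) (nat_lit 6) (nat_lit 0) (nat_lit 0x8770540100) (nat_lit 0xf423fb71aea2c2800000f423ff423f00000f423fb71ae1f156) (.cons (nat_lit 3) (nat_lit 9) (nat_lit 0) (nat_lit 0x765540100) (nat_lit 0xf423fb71aea2c2804737f423f00000f423fb71ae1f156) (.cons (nat_lit 4) (nat_lit 9) (nat_lit 0) (nat_lit 0x765502100) (nat_lit 0xf423fb71aea2c280473700000f423fb71aea2c2804737) .nil))))))))))))) (.l31 (nat_lit 0x9876543210))) (.split (nat_lit 0xa) (nat_lit 0) (.split (nat_lit 0xa) (nat_lit 1) (.split (nat_lit 0xa) (nat_lit 2) (.split (nat_lit 0xa) (nat_lit 3) (.split (nat_lit 0xa) (nat_lit 4) (.split (nat_lit 0xa) (nat_lit 5) (.split (nat_lit 0xa) (nat_lit 6) (.split (nat_lit 0xa) (nat_lit 9) (.split (nat_lit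 0xa) (nat_lit 7) (.unj (nat_lit 0x155) (nat_lit 0x10002000300040003) (nat_lit 0x115400) (nat_lit 0x10000000200030004000300000000000000000000)) (.unj (nat_lit 0x114000) (nat_lit 0x10000000100010000000000000000000000000000) (nat_lit 0x155) (nat_lit 0x10002000300040003))) (.non (nat_lit 0) (nat_lit 7) (nat_lit 0x150000) (nat_lit 0x10001000100000000000000000000000000000000))) (.non (nat_lit 0) (nat_lit 7) (nat_lit 0x151400) (nat_lit 0x30001000200000004000300000000000000000000))) (.non (nat_lit 0) (nat_lit 7) (nat_lit 0x151400) (nat_lit 0x30001000200000003000400000000000000000000))) (.non (nat_lit 0) (nat_lit 7) (nat_lit 0x150140) (nat_lit 0x10001000100000000000000010001000000000000))) (.non (nat_lit 0) (nat_lit 7) (nat_lit 0x150040) (nat_lit 0x10001000100000000000000000001000000000000))) (.non (nat_lit 0) (nat_lit 7) (nat_lit 0x150050) (nat_lit 0x10001000100000000000000000001000100000000))) (.star (nat_lit 0xa) (nat_lit 1) (nat_lit 8))) (.star (nat_lit 0xa) (nat_lit 0) (nat_lit 8))))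

noncomputable def t1544_7 : Tr := (.ex (nat_lit 1) (.split (nat_lit 4) (nat_lit 3) (.split (nat_lit 9) (nat_lit 3) (.split (nat_lit 9) (nat_lit 8) (.pd (.cons (nat_lit 2) (nat_lit 7) (nat_lit 0) (nat_lit 0x3905533000) (nat_lit 0xb71aef423f00000f423f54591f423f65b9700000f423f54591) (.cons (nat_lit 2) (nat_lit 8) (nat_lit 0) (nat_lit 0x3065533000) (nat_lit 0xf423f00000f423fb71ae1f156f423f7a11d00000f423f54591) (.cons (nat_lit 3) (nat_lit 7) (nat_lit 0) (nat_lit 0x8805540100) (nat_lit 0xf423fb71ae00000f423f54591f423f00000f423fb71ae1f156) (.cons (nat_lit 3) (nat_lit 8) (nat_lit 0) (nat_lit 0x9065540100) (nat_lit 0xf423f00000f423fb71ae1f156f423f00000f423fb71ae1f156) .nil)))) (.ex (nat_lit 7) t1544_6 (.split (nat_lit 0xa) (nat_lit 0) (.split (nat_lit 0xa) (nat_lit 1) (.split (nat_lit 0xa) (nat_lit 2) (.split (nat_lit 0xa) (nat_lit 3) (.split (nat_lit 0xa) (nat_lit 4) (.split (nat_lit 0xa) (nat_lit 5) (.split (nat_lit 0xa) (nat_lit 6) (.split (nat_lit 0xa) (nat_lit 9) (.split (nat_lit 0xa) (nat_lit 8) (.unj (nat_lit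 0x155) (nat_lit 0x10002000300040003) (nat_lit 0x115400) (nat_lit 0x10000000100020002000200000000000000000000)) (.unj (nat_lit 0x114000) (nat_lit 0x10000000100010000000000000000000000000000) (nat_lit 0x155) (nat_lit 0x10002000300040003))) (.non (nat_lit 0) (nat_lit 7) (nat_lit 0x150150) (nat_lit 0x10002000100000000000000010002000100000000))) (.non (nat_lit 0) (nat_lit 8) (nat_lit 0x105000) (nat_lit 0x10000000000010001000000000000000000000000))) (.non (nat_lit 0) (nat_lit 8) (nat_lit 0x105400) (nat_lit 0x10000000000010001000100000000000000000000))) (.non (nat_lit 0) (nat_lit 7) (nat_lit 0x150154) (nat_lit 0x10002000100000000000000020003000200010000))) (.non (nat_lit 0) (nat_lit 7) (nat_lit 0x140150) (nat_lit 0x10001000000000000000000010002000100000000))) (.non (nat_lit 0) (nat_lit 7) (nat_lit 0x140154) (nat_lit 0x10001000000000000000000010002000200010000))) (.star (nat_lit 0xa) (nat_lit 1) (nat_lit 7))) (.star (nat_lit 0xa) (nat_lit 0) (nat_lit 7))))) (.non (nat_lit 0) (nat_lit 7) (nat_lit 0x60150) (nat_lit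 0x2000100000000000000010002000100000000))) (.non (nat_lit 0) (nat_lit 7) (nat_lit 0x80150) (nat_lit 0x1000000000000000000010002000100000000))) (.non (nat_lit 0) (nat_lit 7) (nat_lit 0x40250) (nat_lit 0x1000000000000000000010002000100000000))) (.split (nat_lit 0xa) (nat_lit 2) (.split (nat_lit 0xa) (nat_lit 3) (.split (nat_lit 0xa) (nat_lit 4) (.split (nat_lit 0xa) (nat_lit 5) (.split (nat_lit 0xa) (nat_lit 6) (.split (nat_lit 0xa) (nat_lit 7) (.split (nat_lit 0xa) (nat_lit 8) (.split (nat_lit 0xa) (nat_lit 9) (.split (nat_lit 0xa) (nat_lit 0) (.unj (nat_lit 0x100015) (nat_lit 0x10000000000000000000000000000000100020002) (nat_lit 0x55400) (nat_lit 0x1000200030004000300000000000000000000)) (.unj (nat_lit 0x100005) (nat_lit 0x10000000000000000000000000000000000010001) (nat_lit 0x55400) (nat_lit 0x1000200030004000300000000000000000000))) (.non (nat_lit 0) (nat_lit 7) (nat_lit 0x150150) (nat_lit 0x10002000100000000000000010002000100000000))) (.star (nat_lit 0xa) (nat_lit 1) (nat_lit 8))) (.star (nat_lit 0xa)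 (nat_lit 1) (nat_lit 7))) (.non (nat_lit 0) (nat_lit 7) (nat_lit 0x101414) (nat_lit 0x30000000000000004000300000000000100020000))) (.non (nat_lit 0) (nat_lit 7) (nat_lit 0x101414) (nat_lit 0x30000000000000003000400000000000100020000))) (.non (nat_lit 0) (nat_lit 7) (nat_lit 0x100154) (nat_lit 0x10000000000000000000000010001000100010000))) (.non (nat_lit 0) (nat_lit 7) (nat_lit 0x140150) (nat_lit 0x10001000000000000000000010002000100000000))) (.non (nat_lit 0) (nat_lit 7) (nat_lit 0x100014) (nat_lit 0x10000000000000000000000000000000100010000))))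

noncomputable def t1544_8 : Tr := (.split (nat_lit 9) (nat_lit 3) (.split (nat_lit 9) (nat_lit 4) t1544_5 (.split (nat_lit 8) (nat_lit 3) (.split (nat_lit 8) (nat_lit 4) (.sup (nat_lit 0x100040007000a0008) (nat_lit 0x100040007000a000800000000000000000000)) (.non (nat_lit 0) (nat_lit 7) (nat_lit 0x50100) (nat_lit 0x1000100000000000000010000000000000000))) (.non (nat_lit 0) (nat_lit 7) (nat_lit 0x50140) (nat_lit 0x1000100000000000000010001000000000000)))) (.split (nat_lit 9) (nat_lit 4) (.split (nat_lit 8) (nat_lit 3) (.split (nat_lit 8) (nat_lit 4) (.st (nat_lit 2) (nat_lit 0) (nat_lit 7) (nat_lit 0x40154) (nat_lit 0x1000000000000000000010002000200010000) (nat_lit 1) (nat_lit 1) (.st (nat_lit 3) (nat_lit 0) (nat_lit 7) (nat_lit 0x40150) (nat_lit 0x1000000000000000000010002000100000000) (nat_lit 1) (nat_lit 1) (.st (nat_lit 9) (nat_lit 0) (nat_lit 7) (nat_lit 0x50150) (nat_lit 0x2000100000000000000010002000100000000) (nat_lit 1) (nat_lit 1) (.st (nat_lit 4) (nat_lit 0) (nat_lit 7) (nat_lit 0x50154) (nat_lit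 0x2000100000000000000020003000200010000) (nat_lit 1) (nat_lit 1) (.ex (nat_lit 0) t1544_7 (.split (nat_lit 0xa) (nat_lit 2) (.split (nat_lit 0xa) (nat_lit 3) (.split (nat_lit 0xa) (nat_lit 4) (.split (nat_lit 0xa) (nat_lit 5) (.split (nat_lit 0xa) (nat_lit 6) (.split (nat_lit 0xa) (nat_lit 7) (.split (nat_lit 0xa) (nat_lit 8) (.split (nat_lit 0xa) (nat_lit 9) (.split (nat_lit 0xa) (nat_lit 1) (.unj (nat_lit 0x100015) (nat_lit 0x10000000000000000000000000000000100020002) (nat_lit 0x55400) (nat_lit 0x1000200030004000300000000000000000000)) (.unj (nat_lit 0x100005) (nat_lit 0x10000000000000000000000000000000000010001) (nat_lit 0x55400) (nat_lit 0x1000200030004000300000000000000000000))) (.non (nat_lit 0) (nat_lit 7) (nat_lit 0x150150) (nat_lit 0x10002000100000000000000010002000100000000))) (.star (nat_lit 0xa) (nat_lit 0) (nat_lit 8))) (.star (nat_lit 0xa) (nat_lit 0) (nat_lit 7))) (.non (nat_lit 0) (nat_lit 8) (nat_lit 0x105400) (nat_lit 0x10000000000010002000200000000000000000000))) (.non (nat_lit 0) (nat_lit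 8) (nat_lit 0x105400) (nat_lit 0x10000000000010002000200000000000000000000))) (.non (nat_lit 0) (nat_lit 7) (nat_lit 0x150154) (nat_lit 0x10002000100000000000000020003000200010000))) (.non (nat_lit 0) (nat_lit 7) (nat_lit 0x140150) (nat_lit 0x10001000000000000000000010002000100000000))) (.non (nat_lit 0) (nat_lit 7) (nat_lit 0x140154) (nat_lit 0x10001000000000000000000010002000200010000)))))))) (.non (nat_lit 0) (nat_lit 7) (nat_lit 0x50140) (nat_lit 0x1000100000000000000010001000000000000))) (.non (nat_lit 0) (nat_lit 7) (nat_lit 0x50040) (nat_lit 0x1000100000000000000000001000000000000))) (.non (nat_lit 0) (nat_lit 7) (nat_lit 0x40140) (nat_lit 0x1000000000000000000010001000000000000))))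

noncomputable def t1544_9 : Tr := (.split (nat_lit 9) (nat_lit 8) (.pd (.cons (nat_lit 0) (nat_lit 5) (nat_lit 0) (nat_lit 0x2987032110) (nat_lit 0x98965a2c28b71aef423f00000f423fb71ae411a60f41200000) (.cons (nat_lit 0) (nat_lit 6) (nat_lit 0) (nat_lit 0x2980532110) (nat_lit 0xa2c28b71aef423f00000f423ff423fb71ae4734e22dfa00000) (.cons (nat_lit 0) (nat_lit 9) (nat_lit 0) (nat_lit 0x765532110) (nat_lit 0xf423fb71aea2c2804737f423fb71aea2c289896500000) (.cons (nat_lit 1) (nat_lit 5) (nat_lit 0) (nat_lit 0x2987032200) (nat_lit 0x98965a2c28b71aef423f00000f423fb71ae411a600000f423f) (.cons (nat_lit 1) (nat_lit 6) (nat_lit 0) (nat_lit 0x2980532200) (nat_lit 0xa2c28b71aef423f00000f423ff423fb71ae4734e00000f423f) (.cons (nat_lit 1) (nat_lit 9) (nat_lit 0) (nat_lit 0x765532200) (nat_lit 0xf423fb71aea2c2804737f423fb71aea2c2800000f423f) (.cons (nat_lit 2) (nat_lit 5) (nat_lit 0) (nat_lit 0x8766033000) (nat_lit 0xf423fb71aea2c289896500000f423fb71ae00000f423f54591) (.cons (nat_lit 2) (nat_lit 6) (nat_lit 0) (nat_lit 0x8770533000)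 (nat_lit 0xf423fb71aea2c2800000f423ff423fb71ae00000f423f54591) (.cons (nat_lit 2) (nat_lit 9) (nat_lit 0) (nat_lit 0x765533000) (nat_lit 0xf423fb71aea2c2804737f423fb71ae00000f423f54591) (.cons (nat_lit 3) (nat_lit 9) (nat_lit 0) (nat_lit 0x765540100) (nat_lit 0xf423fb71aea2c2804737f423f00000f423fb71ae1f156) (.cons (nat_lit 4) (nat_lit 9) (nat_lit 0) (nat_lit 0x765502100) (nat_lit 0xf423fb71aea2c280473700000f423fb71aea2c2804737) .nil))))))))))) (.st (nat_lit 4) (nat_lit 0) (nat_lit 5) (nat_lit 0x54154) (nat_lit 0x3000200010000000000020003000400020000) (nat_lit 1) (nat_lit 1) (.leaf (.cons (nat_lit 0x50015) (nat_lit 0x2000100000000000000000000000300040003) (.cons (nat_lit 0x40055) (nat_lit 0x1000000000000000000000001000200020002) .nil)) (.cons (nat_lit 0x1111011110) (nat_lit 0x100001) (nat_lit 0xe) (nat_lit 0x4567032010) (.cons (nat_lit 0x1110011110) (nat_lit 0x1000001) (nat_lit 0xd) (nat_lit 0x4560032010) (.cons (nat_lit 0x1100011110) (nat_lit 0x10000001) (nat_lit 0xc) (nat_lit 0x4500032010) (.cons (nat_lit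 0x1000011110) (nat_lit 0x100000001) (nat_lit 8) (nat_lit 0x2000043010) (.cons (nat_lit 0x1111011100) (nat_lit 0x100010) (nat_lit 5) (nat_lit 0x3456001200) (.cons (nat_lit 0x1110011100) (nat_lit 0x1000010) (nat_lit 4) (nat_lit 0x3450001200) (.cons (nat_lit 0x1100011100) (nat_lit 0x10000010) (nat_lit 3) (nat_lit 0x3400001200) (.cons (nat_lit 0x1000000111) (nat_lit 0x100001000) (nat_lit 0x10) (nat_lit 0x3000000210) .nil))))))))))) (.non (nat_lit 0) (nat_lit 7) (nat_lit 0x60054) (nat_lit 0x2000100000000000000000001000200010000)))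

noncomputable def t1544_10 : Tr := (.ex (nat_lit 7) (.ex (nat_lit 8) (.split (nat_lit 4) (nat_lit 3) t1544_9 (.non (nat_lit 0) (nat_lit 7) (nat_lit 0x40254) (nat_lit 0x1000000000000000000010002000200010000))) (.split (nat_lit 0xa) (nat_lit 0) (.split (nat_lit 0xa) (nat_lit 1) (.split (nat_lit 0xa) (nat_lit 2) (.split (nat_lit 0xa) (nat_lit 3) (.split (nat_lit 0xa) (nat_lit 4) (.split (nat_lit 0xa) (nat_lit 5) (.split (nat_lit 0xa) (nat_lit 6) (.split (nat_lit 0xa) (nat_lit 9) (.split (nat_lit 0xa) (nat_lit 7) (.unj (nat_lit 0x155) (nat_lit 0x10002000300040003) (nat_lit 0x115400) (nat_lit 0x10000000200030004000300000000000000000000)) (.unj (nat_lit 0x114000) (nat_lit 0x10000000100010000000000000000000000000000) (nat_lit 0x155) (nat_lit 0x10002000300040003))) (.non (nat_lit 0) (nat_lit 7) (nat_lit 0x150000) (nat_lit 0x10001000100000000000000000000000000000000))) (.non (nat_lit 0) (nat_lit 7) (nat_lit 0x151400) (nat_lit 0x30001000200000004000300000000000000000000))) (.non (nat_lit 0) (nat_lit 7) (nat_lit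 0x151400) (nat_lit 0x30001000200000003000400000000000000000000))) (.non (nat_lit 0) (nat_lit 7) (nat_lit 0x150150) (nat_lit 0x10001000100000000000000010001000100000000))) (.non (nat_lit 0) (nat_lit 7) (nat_lit 0x150050) (nat_lit 0x10001000100000000000000000001000100000000))) (.non (nat_lit 0) (nat_lit 7) (nat_lit 0x150010) (nat_lit 0x10001000100000000000000000000000100000000))) (.star (nat_lit 0xa) (nat_lit 1) (nat_lit 8))) (.star (nat_lit 0xa) (nat_lit 0) (nat_lit 8)))) (.split (nat_lit 0xa) (nat_lit 0) (.split (nat_lit 0xa) (nat_lit 1) (.split (nat_lit 0xa) (nat_lit 2) (.split (nat_lit 0xa) (nat_lit 3) (.split (nat_lit 0xa) (nat_lit 4) (.split (nat_lit 0xa) (nat_lit 5) (.split (nat_lit 0xa) (nat_lit 6) (.split (nat_lit 0xa) (nat_lit 9) (.split (nat_lit 0xa) (nat_lit 8) (.unj (nat_lit 0x155) (nat_lit 0x10002000300040003) (nat_lit 0x115400) (nat_lit 0x10000000100020002000200000000000000000000)) (.unj (nat_lit 0x114000) (nat_lit 0x10000000100010000000000000000000000000000) (nat_lit 0x155) (nat_lit 0x10002000300040003)))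 (.non (nat_lit 0) (nat_lit 7) (nat_lit 0x150054) (nat_lit 0x10002000100000000000000000001000200010000))) (.non (nat_lit 0) (nat_lit 8) (nat_lit 0x105000) (nat_lit 0x10000000000010001000000000000000000000000))) (.non (nat_lit 0) (nat_lit 8) (nat_lit 0x105400) (nat_lit 0x10000000000010001000100000000000000000000))) (.non (nat_lit 0) (nat_lit 8) (nat_lit 0x105500) (nat_lit 0x20000000000030004000300010000000000000000))) (.non (nat_lit 0) (nat_lit 7) (nat_lit 0x140154) (nat_lit 0x10001000000000000000000010002000200010000))) (.non (nat_lit 0) (nat_lit 7) (nat_lit 0x140054) (nat_lit 0x10001000000000000000000000001000200010000))) (.star (nat_lit 0xa) (nat_lit 1) (nat_lit 7))) (.star (nat_lit 0xa) (nat_lit 0) (nat_lit 7))))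

noncomputable def t1544_11 : Tr := (.split (nat_lit 8) (nat_lit 4) (.st (nat_lit 1) (nat_lit 0) (nat_lit 7) (nat_lit 0x50154) (nat_lit 0x2000100000000000000010002000300020000) (nat_lit 1) (nat_lit 1) (.st (nat_lit 2) (nat_lit 0) (nat_lit 7) (nat_lit 0x40054) (nat_lit 0x1000000000000000000000001000200010000) (nat_lit 1) (nat_lit 1) (.st (nat_lit 3) (nat_lit 0) (nat_lit 7) (nat_lit 0x40154) (nat_lit 0x1000000000000000000010002000200010000) (nat_lit 1) (nat_lit 1) (.st (nat_lit 9) (nat_lit 0) (nat_lit 7) (nat_lit 0x50054) (nat_lit 0x2000100000000000000000001000200010000) (nat_lit 1) (nat_lit 1) (.ex (nat_lit 0) (.split (nat_lit 9) (nat_lit 2) (.pd (.cons (nat_lit 2) (nat_lit 7) (nat_lit 0x1100011000) (nat_lit 0x8905534000) (nat_lit 0x10000100000f423f54591000010000100000f423f54591) (.cons (nat_lit 2) (nat_lit 8) (nat_lit 0x11000) (nat_lit 0x9065534000) (nat_lit 0xf423f00000f423fb71ae1f156000010000100000f423f54591) (.cons (nat_lit 3) (nat_lit 8) (nat_lit 0) (nat_lit 0x2065540100) (nat_lit 0xf423f00000f423fb71ae1f156f423f00000b71aea2c2804737)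 .nil))) t1544_10) (.non (nat_lit 0) (nat_lit 7) (nat_lit 0xa0150) (nat_lit 0x2000100000000000000010002000300000000))) (.split (nat_lit 0xa) (nat_lit 1) (.split (nat_lit 0xa) (nat_lit 2) (.split (nat_lit 0xa) (nat_lit 3) (.split (nat_lit 0xa) (nat_lit 5) (.split (nat_lit 0xa) (nat_lit 6) (.split (nat_lit 0xa) (nat_lit 7) (.split (nat_lit 0xa) (nat_lit 8) (.split (nat_lit 0xa) (nat_lit 9) (.split (nat_lit 0xa) (nat_lit 4) (.sup (nat_lit 0x5000000000000000000000000000000020009000a) (nat_lit 0x100040007000a000800000000000000000000)) (.unj (nat_lit 0x100145) (nat_lit 0x30000000000000000000000020001000000030004) (nat_lit 0x55400) (nat_lit 0x1000200030004000300000000000000000000))) (.non (nat_lit 0) (nat_lit 7) (nat_lit 0x150054) (nat_lit 0x10002000100000000000000000001000200010000))) (.star (nat_lit 0xa) (nat_lit 0) (nat_lit 8))) (.star (nat_lit 0xa) (nat_lit 0) (nat_lit 7))) (.non (nat_lit 0) (nat_lit 8) (nat_lit 0x105400) (nat_lit 0x10000000000010002000200000000000000000000))) (.non (nat_lit 0) (nat_lit 8)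 (nat_lit 0x105400) (nat_lit 0x10000000000010002000200000000000000000000))) (.non (nat_lit 0) (nat_lit 7) (nat_lit 0x140154) (nat_lit 0x10001000000000000000000010002000200010000))) (.non (nat_lit 0) (nat_lit 7) (nat_lit 0x140054) (nat_lit 0x10001000000000000000000000001000200010000))) (.non (nat_lit 0) (nat_lit 7) (nat_lit 0x150154) (nat_lit 0x10002000100000000000000010002000300020000)))))))) (.non (nat_lit 0) (nat_lit 7) (nat_lit 0x50150) (nat_lit 0x1000100000000000000010001000100000000)))

noncomputable def t1544 : Tr := (.split (nat_lit 7) (nat_lit 3) (.split (nat_lit 7) (nat_lit 4) (.split (nat_lit 9) (nat_lit 2) t1544_8 (.split (nat_lit 9) (nat_lit 3) (.split (nat_lit 9) (nat_lit 4) (.split (nat_lit 8) (nat_lit 3) t1544_11 (.non (nat_lit 0) (nat_lit 7) (nat_lit 0x50050) (nat_lit 0x1000100000000000000000001000100000000))) (.non (nat_lit 0) (nat_lit 7) (nat_lit 0x40150) (nat_lit 0x1000000000000000000010001000100000000))) (.non (nat_lit 0) (nat_lit 7) (nat_lit 0x40050) (nat_lit 0x1000000000000000000000001000100000000))))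 (.non (nat_lit 0) (nat_lit 8) (nat_lit 0x5540) (nat_lit 0x30004000300020001000000000000))) (.non (nat_lit 0) (nat_lit 8) (nat_lit 0x5540) (nat_lit 0x30004000300010002000000000000)))

noncomputable def t1545_1 : Tr := (.ex (nat_lit 0) (.pd (.cons (nat_lit 2) (nat_lit 5) (nat_lit 0) (nat_lit 0x3987033000) (nat_lit 0x98965a2c28b71aef423f00000f423f5572c00000f423f54591) (.cons (nat_lit 2) (nat_lit 6) (nat_lit 0) (nat_lit 0x3980533000) (nat_lit 0xa2c28b71aef423f00000f423ff423f5b8d400000f423f54591) (.cons (nat_lit 2) (nat_lit 7) (nat_lit 0) (nat_lit 0x3905533000) (nat_lit 0xb71aef423f00000f423f54591f423f65b9700000f423f54591) (.cons (nat_lit 2) (nat_lit 8) (nat_lit 0) (nat_lit 0x3065533000) (nat_lit 0xf423f00000f423fb71ae1f156f423f7a11d00000f423f54591) (.cons (nat_lit 2) (nat_lit 9) (nat_lit 0) (nat_lit 0x765533000) (nat_lit 0xf423fb71aea2c2804737f423fb71ae00000f423f54591) (.cons (nat_lit 3) (nat_lit 5) (nat_lit 0) (nat_lit 0x8766040100) (nat_lit 0xf423fb71aea2c289896500000f423f00000f423fb71ae1f156) (.cons (nat_lit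 3) (nat_lit 6) (nat_lit 0) (nat_lit 0x8770540100) (nat_lit 0xf423fb71aea2c2800000f423ff423f00000f423fb71ae1f156) (.cons (nat_lit 3) (nat_lit 7) (nat_lit 0) (nat_lit 0x8805540100) (nat_lit 0xf423fb71ae00000f423f54591f423f00000f423fb71ae1f156) (.cons (nat_lit 3) (nat_lit 8) (nat_lit 0) (nat_lit 0x9065540100) (nat_lit 0xf423f00000f423fb71ae1f156f423f00000f423fb71ae1f156) (.cons (nat_lit 3) (nat_lit 9) (nat_lit 0) (nat_lit 0x765540100) (nat_lit 0xf423fb71aea2c2804737f423f00000f423fb71ae1f156) (.cons (nat_lit 4) (nat_lit 9) (nat_lit 0) (nat_lit 0x765502100) (nat_lit 0xf423fb71aea2c280473700000f423fb71aea2c2804737) .nil))))))))))) (.l31 (nat_lit 0x9876543210))) (.split (nat_lit 0xa) (nat_lit 1) (.split (nat_lit 0xa) (nat_lit 2) (.split (nat_lit 0xa) (nat_lit 3) (.split (nat_lit 0xa) (nat_lit 4) (.split (nat_lit 0xa) (nat_lit 5) (.split (nat_lit 0xa) (nat_lit 6) (.split (nat_lit 0xa) (nat_lit 7) (.split (nat_lit 0xa) (nat_lit 8) (.split (nat_lit 0xa) (nat_lit 9) (.unj (nat_lit 0x100015) (nat_lit 0x10000000000000000000000000000000100020002)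 (nat_lit 0x55400) (nat_lit 0x1000200030004000300000000000000000000)) (.star (nat_lit 0xa) (nat_lit 0) (nat_lit 9))) (.non (nat_lit 0) (nat_lit 9) (nat_lit 0x115400) (nat_lit 0x10000000200030004000300000000000000000000))) (.star (nat_lit 0xa) (nat_lit 0) (nat_lit 7))) (.non (nat_lit 0) (nat_lit 9) (nat_lit 0x105400) (nat_lit 0x10000000000010002000200000000000000000000))) (.non (nat_lit 0) (nat_lit 9) (nat_lit 0x105400) (nat_lit 0x10000000000010002000200000000000000000000))) (.non (nat_lit 0) (nat_lit 7) (nat_lit 0x150154) (nat_lit 0x10002000100000000000000020003000200010000))) (.non (nat_lit 0) (nat_lit 7) (nat_lit 0x140150) (nat_lit 0x10001000000000000000000010002000100000000))) (.non (nat_lit 0) (nat_lit 7) (nat_lit 0x140154) (nat_lit 0x10001000000000000000000010002000200010000))) (.non (nat_lit 0) (nat_lit 5) (nat_lit 0x154154) (nat_lit 0x10003000200010000000000020004000300020000))))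

noncomputable def t1545 : Tr := (.split (nat_lit 9) (nat_lit 3) (.split (nat_lit 9) (nat_lit 4) .uj (.sup (nat_lit 0x100040007000a0008) (nat_lit 0x100040007000a000800000000000000000000))) (.split (nat_lit 9) (nat_lit 4) (.st (nat_lit 2) (nat_lit 0) (nat_lit 7) (nat_lit 0x40154) (nat_lit 0x1000000000000000000010002000200010000) (nat_lit 1) (nat_lit 1) (.st (nat_lit 3) (nat_lit 0) (nat_lit 7) (nat_lit 0x40150) (nat_lit 0x1000000000000000000010002000100000000) (nat_lit 1) (nat_lit 1) (.st (nat_lit 4) (nat_lit 0) (nat_lit 7) (nat_lit 0x50154) (nat_lit 0x2000100000000000000020003000200010000) (nat_lit 1) (nat_lit 1) (.st (nat_lit 9) (nat_lit 0) (nat_lit 7) (nat_lit 0x50150) (nat_lit 0x2000100000000000000010002000100000000) (nat_lit 1) (nat_lit 1) (.split (nat_lit 4) (nat_lit 3) (.split (nat_lit 9) (nat_lit 3) (.split (nat_lit 9) (nat_lit 8) (.pd (.cons (nat_lit 0) (nat_lit 5) (nat_lit 0) (nat_lit 0x3987032110) (nat_lit 0x98965a2c28b71aef423f00000f423f5572c45c091e82a00000) (.cons (nat_lit 0) (nat_lit 6) (nat_lit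 0) (nat_lit 0x3980532110) (nat_lit 0xa2c28b71aef423f00000f423ff423f5b8d45160d3d07c00000) (.cons (nat_lit 0) (nat_lit 8) (nat_lit 0) (nat_lit 0x3065532110) (nat_lit 0xf423f00000f423fb71ae1f156f423f7a11d7a11b7a11900000) (.cons (nat_lit 1) (nat_lit 5) (nat_lit 0) (nat_lit 0x3987032200) (nat_lit 0x98965a2c28b71aef423f00000f423f5572c45c0900000f423f) (.cons (nat_lit 1) (nat_lit 6) (nat_lit 0) (nat_lit 0x3980532200) (nat_lit 0xa2c28b71aef423f00000f423ff423f5b8d45160d00000f423f) (.cons (nat_lit 1) (nat_lit 8) (nat_lit 0) (nat_lit 0x3065532200) (nat_lit 0xf423f00000f423fb71ae1f156f423f7a11d7a11b00000f423f) .nil)))))) (.st (nat_lit 1) (nat_lit 0) (nat_lit 5) (nat_lit 0x54154) (nat_lit 0x3000200010000000000020004000300020000) (nat_lit 1) (nat_lit 1) t1545_1)) (.non (nat_lit 0) (nat_lit 7) (nat_lit 0x60150) (nat_lit 0x2000100000000000000010002000100000000))) (.non (nat_lit 0) (nat_lit 7) (nat_lit 0x80150) (nat_lit 0x1000000000000000000010002000100000000))) (.non (nat_lit 0) (nat_lit 7) (nat_lit 0x40250) (nat_lit 0x1000000000000000000010002000100000000)))))))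 (.non (nat_lit 0) (nat_lit 7) (nat_lit 0x40140) (nat_lit 0x1000000000000000000010001000000000000))))

noncomputable def t1546_1 : Tr := (.ex (nat_lit 9) (.split (nat_lit 9) (nat_lit 8) (.pd (.cons (nat_lit 0) (nat_lit 5) (nat_lit 0) (nat_lit 0x3987032110) (nat_lit 0x98965a2c28b71aef423f00000f423f5572c45c091e82a00000) (.cons (nat_lit 0) (nat_lit 6) (nat_lit 0) (nat_lit 0x3980532110) (nat_lit 0xa2c28b71aef423f00000f423ff423f5b8d45160d3d07c00000) (.cons (nat_lit 0) (nat_lit 7) (nat_lit 0) (nat_lit 0x3905532110) (nat_lit 0xb71aef423f00000f423f54591f423f65b9761a795b8cc00000) (.cons (nat_lit 1) (nat_lit 5) (nat_lit 0) (nat_lit 0x3987032200) (nat_lit 0x98965a2c28b71aef423f00000f423f5572c45c0900000f423f) (.cons (nat_lit 1) (nat_lit 6) (nat_lit 0) (nat_lit 0x3980532200) (nat_lit 0xa2c28b71aef423f00000f423ff423f5b8d45160d00000f423f) (.cons (nat_lit 1) (nat_lit 7) (nat_lit 0) (nat_lit 0x3905532200) (nat_lit 0xb71aef423f00000f423f54591f423f65b9761a7900000f423f) (.cons (nat_lit 2) (nat_lit 5) (nat_lit 0) (nat_lit 0x3987033000)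 (nat_lit 0x98965a2c28b71aef423f00000f423f5572c00000f423f54591) (.cons (nat_lit 2) (nat_lit 6) (nat_lit 0) (nat_lit 0x3980533000) (nat_lit 0xa2c28b71aef423f00000f423ff423f5b8d400000f423f54591) (.cons (nat_lit 2) (nat_lit 7) (nat_lit 0) (nat_lit 0x3905533000) (nat_lit 0xb71aef423f00000f423f54591f423f65b9700000f423f54591) (.cons (nat_lit 3) (nat_lit 5) (nat_lit 0) (nat_lit 0x8766040100) (nat_lit 0xf423fb71aea2c289896500000f423f00000f423fb71ae1f156) (.cons (nat_lit 3) (nat_lit 6) (nat_lit 0) (nat_lit 0x8770540100) (nat_lit 0xf423fb71aea2c2800000f423ff423f00000f423fb71ae1f156) (.cons (nat_lit 3) (nat_lit 7) (nat_lit 0) (nat_lit 0x8805540100) (nat_lit 0xf423fb71ae00000f423f54591f423f00000f423fb71ae1f156) .nil)))))))))))) (.l31 (nat_lit 0x9876543210))) (.sup (nat_lit 0x200040007000a0008) (nat_lit 0x100040007000a000800000000000000000000))) (.split (nat_lit 0xa) (nat_lit 0) (.split (nat_lit 0xa) (nat_lit 1) (.split (nat_lit 0xa) (nat_lit 2) (.split (nat_lit 0xa) (nat_lit 3) (.split (nat_lit 0xa) (nat_lit 4) (.split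 (nat_lit 0xa) (nat_lit 5) (.split (nat_lit 0xa) (nat_lit 6) (.split (nat_lit 0xa) (nat_lit 7) (.split (nat_lit 0xa) (nat_lit 8) (.sup (nat_lit 0x300050019002c0040003400000000000000000000) (nat_lit 0x90011001f002c0024)) (.non (nat_lit 0) (nat_lit 9) (nat_lit 0x115400) (nat_lit 0x10000000200030004000300000000000000000000))) (.non (nat_lit 0) (nat_lit 8) (nat_lit 0x145400) (nat_lit 0x20001000000030004000300000000000000000000))) (.non (nat_lit 0) (nat_lit 8) (nat_lit 0x105400) (nat_lit 0x10000000000010002000200000000000000000000))) (.non (nat_lit 0) (nat_lit 8) (nat_lit 0x105400) (nat_lit 0x10000000000010002000200000000000000000000))) (.non (nat_lit 0) (nat_lit 8) (nat_lit 0x140140) (nat_lit 0x10001000000000000000000010001000000000000))) (.non (nat_lit 0) (nat_lit 8) (nat_lit 0x140040) (nat_lit 0x10001000000000000000000000001000000000000))) (.non (nat_lit 0) (nat_lit 8) (nat_lit 0x140050) (nat_lit 0x10001000000000000000000000001000100000000))) (.star (nat_lit 0xa) (nat_lit 1) (nat_lit 9))) (.star (nat_lit 0xa)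 (nat_lit 0) (nat_lit 9))))

noncomputable def t1546_2 : Tr := (.ex (nat_lit 1) (.split (nat_lit 4) (nat_lit 3) (.split (nat_lit 9) (nat_lit 3) (.pd (.cons (nat_lit 2) (nat_lit 8) (nat_lit 0) (nat_lit 0x3065533000) (nat_lit 0xf423f00000f423fb71ae1f156f423f7a11d00000f423f54591) (.cons (nat_lit 2) (nat_lit 9) (nat_lit 0) (nat_lit 0x765533000) (nat_lit 0xf423fb71aea2c2804737f423fb71ae00000f423f54591) (.cons (nat_lit 3) (nat_lit 8) (nat_lit 0) (nat_lit 0x9065540100) (nat_lit 0xf423f00000f423fb71ae1f156f423f00000f423fb71ae1f156) (.cons (nat_lit 3) (nat_lit 9) (nat_lit 0) (nat_lit 0x765540100) (nat_lit 0xf423fb71aea2c2804737f423f00000f423fb71ae1f156) (.cons (nat_lit 4) (nat_lit 9) (nat_lit 0) (nat_lit 0x765502100) (nat_lit 0xf423fb71aea2c280473700000f423fb71aea2c2804737) .nil))))) (.ex (nat_lit 4) t1546_1 (.split (nat_lit 0xa) (nat_lit 0) (.split (nat_lit 0xa) (nat_lit 1) (.split (nat_lit 0xa) (nat_lit 2) (.split (nat_lit 0xa) (nat_lit 3) (.split (nat_lit 0xa) (nat_lit 5) (.split (nat_lit 0xa) (nat_lit 6) (.split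 (nat_lit 0xa) (nat_lit 7) (.split (nat_lit 0xa) (nat_lit 8) (.split (nat_lit 0xa) (nat_lit 9) (.sup (nat_lit 0x10006000b0010000d00000000000000000000) (nat_lit 0x10000000000000000000000020003000600090007)) (.non (nat_lit 0) (nat_lit 8) (nat_lit 0x140140) (nat_lit 0x10001000000000000000000010001000000000000))) (.non (nat_lit 0) (nat_lit 9) (nat_lit 0x115400) (nat_lit 0x10000000200030004000300000000000000000000))) (.non (nat_lit 0) (nat_lit 8) (nat_lit 0x105500) (nat_lit 0x20000000000030004000300010000000000000000))) (.non (nat_lit 0) (nat_lit 8) (nat_lit 0x105400) (nat_lit 0x10000000000010002000200000000000000000000))) (.non (nat_lit 0) (nat_lit 8) (nat_lit 0x105400) (nat_lit 0x10000000000010002000200000000000000000000))) (.non (nat_lit 0) (nat_lit 8) (nat_lit 0x100140) (nat_lit 0x10000000000000000000000010001000000000000))) (.non (nat_lit 0) (nat_lit 8) (nat_lit 0x100150) (nat_lit 0x10000000000000000000000010001000100000000))) (.non (nat_lit 0) (nat_lit 8) (nat_lit 0x100154) (nat_lit 0x10000000000000000000000010001000100010000)))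 (.non (nat_lit 2) (nat_lit 8) (nat_lit 0x100145) (nat_lit 0x30000000000000000000000020001000000030004))))) (.non (nat_lit 0) (nat_lit 8) (nat_lit 0x80150) (nat_lit 0x1000000000000000000010002000100000000))) (.non (nat_lit 0) (nat_lit 8) (nat_lit 0x40250) (nat_lit 0x1000000000000000000010002000100000000))) (.split (nat_lit 0xa) (nat_lit 2) (.split (nat_lit 0xa) (nat_lit 3) (.split (nat_lit 0xa) (nat_lit 4) (.split (nat_lit 0xa) (nat_lit 5) (.split (nat_lit 0xa) (nat_lit 6) (.split (nat_lit 0xa) (nat_lit 7) (.split (nat_lit 0xa) (nat_lit 8) (.split (nat_lit 0xa) (nat_lit 9) (.split (nat_lit 0xa) (nat_lit 0) (.unj (nat_lit 0x100015) (nat_lit 0x10000000000000000000000000000000100020002) (nat_lit 0x55400) (nat_lit 0x1000200030004000300000000000000000000)) (.unj (nat_lit 0x100005) (nat_lit 0x10000000000000000000000000000000000010001) (nat_lit 0x55400) (nat_lit 0x1000200030004000300000000000000000000))) (.star (nat_lit 0xa) (nat_lit 1) (nat_lit 9))) (.star (nat_lit 0xa) (nat_lit 1) (nat_lit 8))) (.non (nat_lit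 0) (nat_lit 8) (nat_lit 0x105404) (nat_lit 0x20000000000030004000300000000000000010000))) (.non (nat_lit 0) (nat_lit 8) (nat_lit 0x105400) (nat_lit 0x10000000000010002000200000000000000000000))) (.non (nat_lit 0) (nat_lit 8) (nat_lit 0x105400) (nat_lit 0x10000000000010002000200000000000000000000))) (.non (nat_lit 0) (nat_lit 8) (nat_lit 0x100154) (nat_lit 0x10000000000000000000000010001000100010000))) (.non (nat_lit 0) (nat_lit 8) (nat_lit 0x140150) (nat_lit 0x10001000000000000000000010002000100000000))) (.non (nat_lit 0) (nat_lit 8) (nat_lit 0x100014) (nat_lit 0x10000000000000000000000000000000100010000))))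

noncomputable def t1546 : Tr := (.split (nat_lit 9) (nat_lit 3) (.split (nat_lit 9) (nat_lit 4) .uj (.sup (nat_lit 0x100040007000a0008) (nat_lit 0x100040007000a000800000000000000000000))) (.split (nat_lit 9) (nat_lit 4) (.st (nat_lit 2) (nat_lit 0) (nat_lit 8) (nat_lit 0x40154) (nat_lit 0x1000000000000000000010002000200010000) (nat_lit 1) (nat_lit 1) (.st (nat_lit 3) (nat_lit 0) (nat_lit 8) (nat_lit 0x40150) (nat_lit 0x1000000000000000000010002000100000000) (nat_lit 1) (nat_lit 1) (.ex (nat_lit 0) t1546_2 (.split (nat_lit 0xa) (nat_lit 2) (.split (nat_lit 0xa) (nat_lit 3) (.split (nat_lit 0xa) (nat_lit 5) (.split (nat_lit 0xa) (nat_lit 6) (.split (nat_lit 0xa) (nat_lit 7) (.split (nat_lit 0xa) (nat_lit 8) (.split (nat_lit 0xa) (nat_lit 9) (.split (nat_lit 0xa) (nat_lit 1) (.split (nat_lit 0xa) (nat_lit 4) (.unj (nat_lit 0x100015) (nat_lit 0x10000000000000000000000000000000100020002) (nat_lit 0x55400) (nat_lit 0x1000200030004000300000000000000000000)) (.unj (nat_lit 0x100015) (nat_lit 0x10000000000000000000000000000000100020002)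 (nat_lit 0x55400) (nat_lit 0x1000200030004000300000000000000000000))) (.split (nat_lit 0xa) (nat_lit 4) (.unj (nat_lit 0x100005) (nat_lit 0x10000000000000000000000000000000000010001) (nat_lit 0x55400) (nat_lit 0x1000200030004000300000000000000000000)) (.non (nat_lit 0) (nat_lit 8) (nat_lit 0x100154) (nat_lit 0x10000000000000000000000010001000100010000)))) (.star (nat_lit 0xa) (nat_lit 0) (nat_lit 9))) (.star (nat_lit 0xa) (nat_lit 0) (nat_lit 8))) (.non (nat_lit 0) (nat_lit 9) (nat_lit 0x115400) (nat_lit 0x10000000100020002000200000000000000000000))) (.non (nat_lit 0) (nat_lit 8) (nat_lit 0x105400) (nat_lit 0x10000000000010002000200000000000000000000))) (.non (nat_lit 0) (nat_lit 8) (nat_lit 0x105400) (nat_lit 0x10000000000010002000200000000000000000000))) (.non (nat_lit 0) (nat_lit 8) (nat_lit 0x140150) (nat_lit 0x10001000000000000000000010002000100000000))) (.non (nat_lit 0) (nat_lit 8) (nat_lit 0x140154) (nat_lit 0x10001000000000000000000010002000200010000)))))) (.non (nat_lit 0) (nat_lit 8) (nat_lit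 0x40140) (nat_lit 0x1000000000000000000010001000000000000))))

noncomputable def t1547_1 : Tr := (.ex (nat_lit 8) (.pd (.cons (nat_lit 4) (nat_lit 9) (nat_lit 0) (nat_lit 0x765502100) (nat_lit 0xf423fb71aea2c280473700000f423fb71aea2c2804737) .nil) (.ex (nat_lit 9) (.pd (.cons (nat_lit 4) (nat_lit 8) (nat_lit 0) (nat_lit 0x7065502100) (nat_lit 0xf423f00000b71aea2c280473700000f423fb71aea2c2804737) .nil) (.leaf (.cons (nat_lit 0x1500) (nat_lit 0x1000100010000000000000000) .nil) (.cons (nat_lit 0x111000) (nat_lit 0x1000100) (nat_lit 6) (nat_lit 0x12000) .nil))) (.split (nat_lit 0xa) (nat_lit 0) (.split (nat_lit 0xa) (nat_lit 1) (.split (nat_lit 0xa) (nat_lit 2) (.split (nat_lit 0xa) (nat_lit 3) (.split (nat_lit 0xa) (nat_lit 4) (.split (nat_lit 0xa) (nat_lit 5) (.split (nat_lit 0xa) (nat_lit 6) (.split (nat_lit 0xa) (nat_lit 7) (.split (nat_lit 0xa) (nat_lit 8) (.sup (nat_lit 0x20003000200050004000200000000000000000000) (nat_lit 0x20006000b0010000d)) (.non (nat_lit 0) (nat_lit 5) (nat_lit 0x154000) (nat_lit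 0x10001000100010000000000000000000000000000))) (.non (nat_lit 0) (nat_lit 5) (nat_lit 0x144000) (nat_lit 0x10001000000010000000000000000000000000000))) (.non (nat_lit 0) (nat_lit 5) (nat_lit 0x145000) (nat_lit 0x10001000000010001000000000000000000000000))) (.non (nat_lit 0) (nat_lit 6) (nat_lit 0x280940) (nat_lit 0x20001000000000000000300040002000000000000))) (.non (nat_lit 0) (nat_lit 6) (nat_lit 0x100940) (nat_lit 0x10000000000000000000100020001000000000000))) (.non (nat_lit 0) (nat_lit 5) (nat_lit 0x155150) (nat_lit 0x20002000100020001000000010002000100000000))) (.non (nat_lit 0) (nat_lit 5) (nat_lit 0x155054) (nat_lit 0x20002000100020001000000000001000200010000))) (.non (nat_lit 2) (nat_lit 5) (nat_lit 0x144005) (nat_lit 0x30002000000010000000000000000000000040003))) (.non (nat_lit 2) (nat_lit 5) (nat_lit 0x144005) (nat_lit 0x30002000000010000000000000000000000030004))))) (.split (nat_lit 0xa) (nat_lit 0) (.split (nat_lit 0xa) (nat_lit 1) (.split (nat_lit 0xa) (nat_lit 2) (.split (nat_lit 0xa) (nat_lit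 3) (.split (nat_lit 0xa) (nat_lit 4) (.split (nat_lit 0xa) (nat_lit 5) (.split (nat_lit 0xa) (nat_lit 6) (.split (nat_lit 0xa) (nat_lit 7) (.split (nat_lit 0xa) (nat_lit 9) (.sup (nat_lit 0x20002000300050004000200000000000000000000) (nat_lit 0x20006000b0010000d)) (.non (nat_lit 0) (nat_lit 5) (nat_lit 0x154000) (nat_lit 0x10001000100010000000000000000000000000000))) (.non (nat_lit 0) (nat_lit 5) (nat_lit 0x114000) (nat_lit 0x10000000100010000000000000000000000000000))) (.non (nat_lit 0) (nat_lit 5) (nat_lit 0x115000) (nat_lit 0x10000000100010001000000000000000000000000))) (.non (nat_lit 0) (nat_lit 6) (nat_lit 0x220940) (nat_lit 0x20000000100000000000300040002000000000000))) (.non (nat_lit 0) (nat_lit 6) (nat_lit 0x100940) (nat_lit 0x10000000000000000000100020001000000000000))) (.non (nat_lit 0) (nat_lit 5) (nat_lit 0x155150) (nat_lit 0x20001000200020001000000010002000100000000))) (.non (nat_lit 0) (nat_lit 5) (nat_lit 0x155054) (nat_lit 0x20001000200020001000000000001000200010000))) (.non (nat_lit 2) (nat_lit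 5) (nat_lit 0x114005) (nat_lit 0x30000000200010000000000000000000000040003))) (.non (nat_lit 2) (nat_lit 5) (nat_lit 0x114005) (nat_lit 0x30000000200010000000000000000000000030004))))

noncomputable def t1547_2 : Tr := (.ex (nat_lit 1) (.split (nat_lit 4) (nat_lit 3) (.split (nat_lit 5) (nat_lit 4) (.pd (.cons (nat_lit 2) (nat_lit 5) (nat_lit 0) (nat_lit 0x7766033000) (nat_lit 0xf423ff423f7a11d7a11b00000f423fb71ae00000f423f54591) (.cons (nat_lit 2) (nat_lit 6) (nat_lit 0) (nat_lit 0x7770433000) (nat_lit 0xf423ff423f7a11d00000f423f7a11e7a11c00000f423f54591) (.cons (nat_lit 3) (nat_lit 5) (nat_lit 0) (nat_lit 0x7766040100) (nat_lit 0xf423ff423f7a11d7a11b00000f423f00000f423fb71ae1f156) (.cons (nat_lit 3) (nat_lit 6) (nat_lit 0) (nat_lit 0x7770440100) (nat_lit 0xf423ff423f7a11d00000f423f7a11e00000f423fb71ae1f156) (.cons (nat_lit 4) (nat_lit 5) (nat_lit 0) (nat_lit 0x7766002100) (nat_lit 0xf423ff423f7a11d7a11b0000000000f423fb71aea2c2804737) (.cons (nat_lit 4) (nat_lit 6) (nat_lit 0) (nat_lit 0x7770502100) (nat_lit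 0xf423ff423f7a11d00000f423f00000f423fb71aea2c2804737) .nil)))))) (.ex (nat_lit 6) (.pd (.cons (nat_lit 4) (nat_lit 7) (nat_lit 0) (nat_lit 0x9805502100) (nat_lit 0xf423ff423f00000f423f5459100000f423fb71aea2c2804737) .nil) t1547_1) (.split (nat_lit 0xa) (nat_lit 0) (.split (nat_lit 0xa) (nat_lit 1) (.split (nat_lit 0xa) (nat_lit 2) (.split (nat_lit 0xa) (nat_lit 3) (.split (nat_lit 0xa) (nat_lit 4) (.split (nat_lit 0xa) (nat_lit 5) (.split (nat_lit 0xa) (nat_lit 7) (.split (nat_lit 0xa) (nat_lit 8) (.split (nat_lit 0xa) (nat_lit 9) (.sup (nat_lit 0x10001000100020002000100000000000000000000) (nat_lit 0x10003000600080006)) (.non (nat_lit 0) (nat_lit 5) (nat_lit 0x145000) (nat_lit 0x10001000000010001000000000000000000000000))) (.non (nat_lit 0) (nat_lit 5) (nat_lit 0x115000) (nat_lit 0x10000000100010001000000000000000000000000))) (.non (nat_lit 0) (nat_lit 5) (nat_lit 0x105000) (nat_lit 0x10000000000010001000000000000000000000000))) (.non (nat_lit 0) (nat_lit 6) (nat_lit 0x200950) (nat_lit 0x10000000000000000000200030002000100000000)))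 (.non (nat_lit 0) (nat_lit 6) (nat_lit 0x100940) (nat_lit 0x10000000000000000000100020001000000000000))) (.non (nat_lit 0) (nat_lit 5) (nat_lit 0x155150) (nat_lit 0x20001000100020002000000010002000100000000))) (.non (nat_lit 0) (nat_lit 5) (nat_lit 0x155054) (nat_lit 0x20001000100020002000000000001000200010000))) (.star (nat_lit 0xa) (nat_lit 1) (nat_lit 6))) (.star (nat_lit 0xa) (nat_lit 0) (nat_lit 6))))) (.non (nat_lit 0) (nat_lit 6) (nat_lit 0x554) (nat_lit 0x300040003000200010000))) (.non (nat_lit 0) (nat_lit 6) (nat_lit 0x640) (nat_lit 0x100010001000000000000))) (.split (nat_lit 0xa) (nat_lit 2) (.split (nat_lit 0xa) (nat_lit 3) (.split (nat_lit 0xa) (nat_lit 4) (.split (nat_lit 0xa) (nat_lit 5) (.split (nat_lit 0xa) (nat_lit 6) (.split (nat_lit 0xa) (nat_lit 7) (.split (nat_lit 0xa) (nat_lit 0) (.split (nat_lit 0xa) (nat_lit 8) (.split (nat_lit 0xa) (nat_lit 9) (.unj (nat_lit 0x1500) (nat_lit 0x1000100010000000000000000) (nat_lit 0x100015) (nat_lit 0x10000000000000000000000000000000100020002)) (.unj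 (nat_lit 0x1500) (nat_lit 0x1000100010000000000000000) (nat_lit 0x100015) (nat_lit 0x10000000000000000000000000000000100020002))) (.split (nat_lit 0xa) (nat_lit 9) (.unj (nat_lit 0x1500) (nat_lit 0x1000100010000000000000000) (nat_lit 0x100015) (nat_lit 0x10000000000000000000000000000000100020002)) (.non (nat_lit 0) (nat_lit 5) (nat_lit 0x154000) (nat_lit 0x10001000100010000000000000000000000000000)))) (.split (nat_lit 0xa) (nat_lit 8) (.split (nat_lit 0xa) (nat_lit 9) (.unj (nat_lit 0x100005) (nat_lit 0x10000000000000000000000000000000000010001) (nat_lit 0x1500) (nat_lit 0x1000100010000000000000000)) (.unj (nat_lit 0x100005) (nat_lit 0x10000000000000000000000000000000000010001) (nat_lit 0x1500) (nat_lit 0x1000100010000000000000000))) (.split (nat_lit 0xa) (nat_lit 9) (.unj (nat_lit 0x100005) (nat_lit 0x10000000000000000000000000000000000010001) (nat_lit 0x1500) (nat_lit 0x1000100010000000000000000)) (.non (nat_lit 0) (nat_lit 5) (nat_lit 0x154000) (nat_lit 0x10001000100010000000000000000000000000000)))))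 (.non (nat_lit 0) (nat_lit 5) (nat_lit 0x155000) (nat_lit 0x10001000100020001000000000000000000000000))) (.star (nat_lit 0xa) (nat_lit 1) (nat_lit 6))) (.star (nat_lit 0xa) (nat_lit 1) (nat_lit 5))) (.non (nat_lit 0) (nat_lit 5) (nat_lit 0x100154) (nat_lit 0x10000000000000000000000010001000100010000))) (.non (nat_lit 0) (nat_lit 5) (nat_lit 0x100054) (nat_lit 0x10000000000000000000000000001000100010000))) (.non (nat_lit 0) (nat_lit 5) (nat_lit 0x100014) (nat_lit 0x10000000000000000000000000000000100010000))))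

noncomputable def t1547_3 : Tr := (.split (nat_lit 5) (nat_lit 4) (.sup (nat_lit 0x100040007000a0008) (nat_lit 0x50005000a000a000600000000000000000000)) (.st (nat_lit 2) (nat_lit 0) (nat_lit 6) (nat_lit 0x954) (nat_lit 0x100020002000200010000) (nat_lit 1) (nat_lit 1) (.st (nat_lit 3) (nat_lit 0) (nat_lit 6) (nat_lit 0x950) (nat_lit 0x100020002000100000000) (nat_lit 1) (nat_lit 1) (.st (nat_lit 5) (nat_lit 0) (nat_lit 6) (nat_lit 0x950) (nat_lit 0x200030002000100000000) (nat_lit 2) (nat_lit 1) (.st (nat_lit 4) (nat_lit 0) (nat_lit 6) (nat_lit 0x940) (nat_lit 0x100020001000000000000) (nat_lit 1) (nat_lit 1) (.ex (nat_lit 0) t1547_2 (.split (nat_lit 0xa) (nat_lit 2) (.split (nat_lit 0xa) (nat_lit 3) (.split (nat_lit 0xa) (nat_lit 4) (.split (nat_lit 0xa) (nat_lit 5) (.split (nat_lit 0xa) (nat_lit 6) (.split (nat_lit 0xa) (nat_lit 7) (.split (nat_lit 0xa) (nat_lit 1) (.split (nat_lit 0xa) (nat_lit 8) (.split (nat_lit 0xa) (nat_lit 9) (.unj (nat_lit 0x1500) (nat_lit 0x1000100010000000000000000) (nat_lit 0x100015)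 (nat_lit 0x10000000000000000000000000000000100020002)) (.unj (nat_lit 0x1500) (nat_lit 0x1000100010000000000000000) (nat_lit 0x100015) (nat_lit 0x10000000000000000000000000000000100020002))) (.split (nat_lit 0xa) (nat_lit 9) (.unj (nat_lit 0x1500) (nat_lit 0x1000100010000000000000000) (nat_lit 0x100015) (nat_lit 0x10000000000000000000000000000000100020002)) (.non (nat_lit 0) (nat_lit 5) (nat_lit 0x154000) (nat_lit 0x10001000100010000000000000000000000000000)))) (.split (nat_lit 0xa) (nat_lit 8) (.split (nat_lit 0xa) (nat_lit 9) (.unj (nat_lit 0x100005) (nat_lit 0x10000000000000000000000000000000000010001) (nat_lit 0x1500) (nat_lit 0x1000100010000000000000000)) (.unj (nat_lit 0x100005) (nat_lit 0x10000000000000000000000000000000000010001) (nat_lit 0x1500) (nat_lit 0x1000100010000000000000000))) (.split (nat_lit 0xa) (nat_lit 9) (.unj (nat_lit 0x100005) (nat_lit 0x10000000000000000000000000000000000010001) (nat_lit 0x1500) (nat_lit 0x1000100010000000000000000)) (.non (nat_lit 0) (nat_lit 5) (nat_lit 0x154000)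 (nat_lit 0x10001000100010000000000000000000000000000))))) (.non (nat_lit 0) (nat_lit 5) (nat_lit 0x155000) (nat_lit 0x10001000100020001000000000000000000000000))) (.star (nat_lit 0xa) (nat_lit 0) (nat_lit 6))) (.star (nat_lit 0xa) (nat_lit 0) (nat_lit 5))) (.non (nat_lit 0) (nat_lit 6) (nat_lit 0x100940) (nat_lit 0x10000000000000000000100020001000000000000))) (.non (nat_lit 0) (nat_lit 6) (nat_lit 0x100950) (nat_lit 0x10000000000000000000100020002000100000000))) (.non (nat_lit 0) (nat_lit 6) (nat_lit 0x100954) (nat_lit 0x10000000000000000000100020002000200010000)))))))))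

noncomputable def t1547_4 : Tr := (.split (nat_lit 0xa) (nat_lit 9) (.ex (nat_lit 9) (.pd (.cons (nat_lit 3) (nat_lit 8) (nat_lit 0) (nat_lit 0xa7065540100) (nat_lit 0xf423ff423f00000b71aea2c2804737f423f00000f423fb71ae1f156) .nil) (.leaf (.cons (nat_lit 0x1550) (nat_lit 0x2000200010002000100000000) (.cons (nat_lit 0x5440) (nat_lit 0x10002000200000001000000000000) (.cons (nat_lit 0x115400) (nat_lit 0x10000000200030004000300000000000000000000) (.cons (nat_lit 0x455) (nat_lit 0x100000002000300040003) .nil)))) (.cons (nat_lit 0x111110) (nat_lit 0x1000001) (nat_lit 8) (nat_lit 0x210340) (.cons (nat_lit 0x111100) (nat_lit 0x1000010) (nat_lit 7) (nat_lit 0x320100) .nil)))) (.split (nat_lit 0xb) (nat_lit 0) (.split (nat_lit 0xb) (nat_lit 1) (.split (nat_lit 0xb) (nat_lit 2) (.split (nat_lit 0xb) (nat_lit 3) (.split (nat_lit 0xb) (nat_lit 4) (.split (nat_lit 0xb) (nat_lit 5) (.split (nat_lit 0xb) (nat_lit 6) (.split (nat_lit 0xb) (nat_lit 7) (.split (nat_lit 0xb) (nat_lit 8) (.split (nat_lit 0xb) (nat_lit 0xa)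 (.leaf (.cons (nat_lit 0x1550) (nat_lit 0x2000200010002000100000000) (.cons (nat_lit 0x445400) (nat_lit 0x100000002000000030004000300000000000000000000) (.cons (nat_lit 0x115400) (nat_lit 0x10000000200030004000300000000000000000000) (.cons (nat_lit 0x455) (nat_lit 0x100000002000300040003) .nil)))) (.cons (nat_lit 0x111110) (nat_lit 0x1000001) (nat_lit 8) (nat_lit 0x210340) (.cons (nat_lit 0x111100) (nat_lit 0x1000010) (nat_lit 7) (nat_lit 0x320100) .nil))) (.non (nat_lit 0) (nat_lit 5) (nat_lit 0x554000) (nat_lit 0x100010001000100010000000000000000000000000000))) (.non (nat_lit 0) (nat_lit 5) (nat_lit 0x454000) (nat_lit 0x100000001000100010000000000000000000000000000))) (.non (nat_lit 0) (nat_lit 5) (nat_lit 0x444000) (nat_lit 0x100000001000000010000000000000000000000000000))) (.non (nat_lit 0) (nat_lit 5) (nat_lit 0x445000) (nat_lit 0x100000001000000010001000000000000000000000000))) (.non (nat_lit 0) (nat_lit 6) (nat_lit 0x454554) (nat_lit 0x400000003000100020000000500030006000400020000))) (.non (nat_lit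 0) (nat_lit 5) (nat_lit 0x555150) (nat_lit 0x400020005000400060003000000030002000100000000))) (.non (nat_lit 0) (nat_lit 5) (nat_lit 0x455150) (nat_lit 0x200000002000100020001000000010002000100000000))) (.non (nat_lit 0) (nat_lit 5) (nat_lit 0x555150) (nat_lit 0x400020005000400060003000000010002000300000000))) (.non (nat_lit 0) (nat_lit 5) (nat_lit 0x555054) (nat_lit 0x400020005000400060003000000000001000200030000))) (.non (nat_lit 2) (nat_lit 5) (nat_lit 0x444005) (nat_lit 0x300000002000000010000000000000000000000030004)))) (.non (nat_lit 0) (nat_lit 5) (nat_lit 0x154000) (nat_lit 0x10001000100010000000000000000000000000000)))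

noncomputable def t1547_5 : Tr := (.ex (nat_lit 8) (.pd (.cons (nat_lit 3) (nat_lit 9) (nat_lit 0) (nat_lit 0x765540100) (nat_lit 0xf423fb71aea2c2804737f423f00000f423fb71ae1f156) .nil) (.ex (nat_lit 9) (.pd (.cons (nat_lit 3) (nat_lit 8) (nat_lit 0) (nat_lit 0x7065540100) (nat_lit 0xf423f00000b71aea2c2804737f423f00000f423fb71ae1f156) .nil) (.leaf (.cons (nat_lit 0x1550) (nat_lit 0x2000200010002000100000000) (.cons (nat_lit 0x5440) (nat_lit 0x10002000200000001000000000000) (.cons (nat_lit 0x455) (nat_lit 0x100000002000300040003) .nil))) (.cons (nat_lit 0x111110) (nat_lit 0x1000001) (nat_lit 8) (nat_lit 0x210340) (.cons (nat_lit 0x111100) (nat_lit 0x1000010) (nat_lit 7) (nat_lit 0x320100) .nil)))) (.split (nat_lit 0xa) (nat_lit 0) (.split (nat_lit 0xa) (nat_lit 1) (.split (nat_lit 0xa) (nat_lit 2) (.split (nat_lit 0xa) (nat_lit 3) (.split (nat_lit 0xa) (nat_lit 4) (.split (nat_lit 0xa) (nat_lit 5) (.split (nat_lit 0xa) (nat_lit 6) (.split (nat_lit 0xa) (nat_lit 7) (.split (nat_lit 0xa) (nat_lit 8) (.leaf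 (.cons (nat_lit 0x1550) (nat_lit 0x2000200010002000100000000) (.cons (nat_lit 0x145400) (nat_lit 0x10002000000030004000300000000000000000000) (.cons (nat_lit 0x5440) (nat_lit 0x10002000200000001000000000000) (.cons (nat_lit 0x455) (nat_lit 0x100000002000300040003) .nil)))) (.cons (nat_lit 0x111110) (nat_lit 0x1000001) (nat_lit 8) (nat_lit 0x210340) (.cons (nat_lit 0x111100) (nat_lit 0x1000010) (nat_lit 7) (nat_lit 0x320100) .nil))) (.non (nat_lit 0) (nat_lit 5) (nat_lit 0x154000) (nat_lit 0x10001000100010000000000000000000000000000))) (.non (nat_lit 0) (nat_lit 5) (nat_lit 0x144000) (nat_lit 0x10001000000010000000000000000000000000000))) (.non (nat_lit 0) (nat_lit 5) (nat_lit 0x145000) (nat_lit 0x10001000000010001000000000000000000000000))) (.non (nat_lit 0) (nat_lit 6) (nat_lit 0x154554) (nat_lit 0x40003000100020000000500030006000400020000))) (.non (nat_lit 0) (nat_lit 6) (nat_lit 0x154554) (nat_lit 0x40003000100020000000300050006000400020000))) (.non (nat_lit 0) (nat_lit 5) (nat_lit 0x155150) (nat_lit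 0x20002000100020001000000010002000100000000))) (.non (nat_lit 0) (nat_lit 5) (nat_lit 0x155054) (nat_lit 0x20002000100020001000000000001000200010000))) (.non (nat_lit 2) (nat_lit 5) (nat_lit 0x144005) (nat_lit 0x30002000000010000000000000000000000040003))) (.non (nat_lit 2) (nat_lit 5) (nat_lit 0x144005) (nat_lit 0x30002000000010000000000000000000000030004))))) (.split (nat_lit 0xa) (nat_lit 0) (.split (nat_lit 0xa) (nat_lit 1) (.split (nat_lit 0xa) (nat_lit 2) (.split (nat_lit 0xa) (nat_lit 3) (.split (nat_lit 0xa) (nat_lit 4) (.split (nat_lit 0xa) (nat_lit 5) (.split (nat_lit 0xa) (nat_lit 6) (.split (nat_lit 0xa) (nat_lit 7) t1547_4 (.non (nat_lit 0) (nat_lit 5) (nat_lit 0x114000) (nat_lit 0x10000000100010000000000000000000000000000))) (.non (nat_lit 0) (nat_lit 5) (nat_lit 0x115000) (nat_lit 0x10000000100010001000000000000000000000000))) (.non (nat_lit 0) (nat_lit 6) (nat_lit 0x154554) (nat_lit 0x40001000300020000000500030006000400020000))) (.non (nat_lit 0) (nat_lit 6) (nat_lit 0x154554) (nat_lit 0x40001000300020000000300050006000400020000)))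 (.non (nat_lit 0) (nat_lit 5) (nat_lit 0x155150) (nat_lit 0x20001000200020001000000010002000100000000))) (.non (nat_lit 0) (nat_lit 5) (nat_lit 0x155054) (nat_lit 0x20001000200020001000000000001000200010000))) (.non (nat_lit 2) (nat_lit 5) (nat_lit 0x114005) (nat_lit 0x30000000200010000000000000000000000040003))) (.non (nat_lit 2) (nat_lit 5) (nat_lit 0x114005) (nat_lit 0x30000000200010000000000000000000000030004))))

noncomputable def t1547_6 : Tr := (.split (nat_lit 0xb) (nat_lit 1) (.split (nat_lit 0xb) (nat_lit 2) (.split (nat_lit 0xb) (nat_lit 3) (.split (nat_lit 0xb) (nat_lit 6) (.split (nat_lit 0xb) (nat_lit 7) (.split (nat_lit 0xb) (nat_lit 8) (.split (nat_lit 0xb) (nat_lit 9) (.split (nat_lit 0xb) (nat_lit 4) (.split (nat_lit 0xb) (nat_lit 5) (.sup (nat_lit 0x200040003000300060006000100000000000000000000) (nat_lit 0x30007000b0010000d)) (.sup (nat_lit 0x200030002000200040004000100000000000000000000) (nat_lit 0x30007000b0010000d))) (.split (nat_lit 0xb) (nat_lit 5) (.st (nat_lit 8) (nat_lit 0) (nat_lit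 5) (nat_lit 0x555140) (nat_lit 0x300040003000400060005000000020001000000000000) (nat_lit 1) (nat_lit 2) (.st (nat_lit 9) (nat_lit 0) (nat_lit 5) (nat_lit 0x555140) (nat_lit 0x300040004000300060005000000020001000000000000) (nat_lit 1) (nat_lit 2) (.st (nat_lit 0xa) (nat_lit 0) (nat_lit 5) (nat_lit 0x555000) (nat_lit 0x100020001000100020002000000000000000000000000) (nat_lit 1) (nat_lit 1) (.st (nat_lit 0xb) (nat_lit 0) (nat_lit 5) (nat_lit 0x555100) (nat_lit 0x200020001000100020002000000010000000000000000) (nat_lit 1) (nat_lit 1) (.split (nat_lit 0xb) (nat_lit 4) (.split (nat_lit 0xb) (nat_lit 0xa) (.leaf (.cons (nat_lit 0x501500) (nat_lit 0x200030000000000000004000300010000000000000000) (.cons (nat_lit 0x455) (nat_lit 0x100000002000300040003) .nil)) (.cons (nat_lit 0x110000111110) (nat_lit 0x1000001) (nat_lit 0xd) (nat_lit 0x560000140230) (.cons (nat_lit 0x110000111100) (nat_lit 0x1000010) (nat_lit 9) (nat_lit 0x450000230100) .nil))) (.non (nat_lit 0) (nat_lit 5) (nat_lit 0x955000) (nat_lit 0x100020001000100020002000000000000000000000000)))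 (.non (nat_lit 0) (nat_lit 5) (nat_lit 0xaaa100) (nat_lit 0x200020001000100020002000000020000000000000000))))))) (.non (nat_lit 0) (nat_lit 6) (nat_lit 0x400540) (nat_lit 0x100000000000000000000000100010001000000000000)))) (.non (nat_lit 0) (nat_lit 5) (nat_lit 0x545000) (nat_lit 0x100010001000000010001000000000000000000000000))) (.non (nat_lit 0) (nat_lit 5) (nat_lit 0x515000) (nat_lit 0x100010000000100010001000000000000000000000000))) (.non (nat_lit 0) (nat_lit 5) (nat_lit 0x505000) (nat_lit 0x100010000000000010001000000000000000000000000))) (.non (nat_lit 0) (nat_lit 5) (nat_lit 0x501000) (nat_lit 0x100010000000000000001000000000000000000000000))) (.non (nat_lit 0) (nat_lit 5) (nat_lit 0x555150) (nat_lit 0x200020001000100020002000000010002000100000000))) (.non (nat_lit 0) (nat_lit 5) (nat_lit 0x555054) (nat_lit 0x200020001000100020002000000000001000200010000))) (.non (nat_lit 2) (nat_lit 5) (nat_lit 0x501005) (nat_lit 0x300020000000000000001000000000000000000040003)))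

noncomputable def t1547_7 : Tr := (.split (nat_lit 0xa) (nat_lit 8) (.split (nat_lit 0xa) (nat_lit 9) (.split (nat_lit 0xa) (nat_lit 4) (.split (nat_lit 0xa) (nat_lit 5) (.st (nat_lit 6) (nat_lit 0) (nat_lit 5) (nat_lit 0x155000) (nat_lit 0x10001000100020002000000000000000000000000) (nat_lit 1) (nat_lit 1) (.ex (nat_lit 0xa) (.split (nat_lit 0xa) (nat_lit 6) (.pd (.cons (nat_lit 3) (nat_lit 7) (nat_lit 0) (nat_lit 0x69805540100) (nat_lit 0xf423ff423ff423f00000b71ae1f156f423f00000f423fb71ae1f156) .nil) (.leaf (.cons (nat_lit 0x101440) (nat_lit 0x10000000000000002000200000001000000000000) (.cons (nat_lit 0x105400) (nat_lit 0x10000000000010002000200000000000000000000) (.cons (nat_lit 0x455) (nat_lit 0x100000002000300040003) .nil))) (.cons (nat_lit 0x111110) (nat_lit 0x1000001) (nat_lit 8) (nat_lit 0x210340) (.cons (nat_lit 0x111100) (nat_lit 0x1000010) (nat_lit 7) (nat_lit 0x320100) .nil)))) (.non (nat_lit 0) (nat_lit 5) (nat_lit 0x255000) (nat_lit 0x10001000100020002000000000000000000000000))) (.split (nat_lit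 0xb) (nat_lit 0) t1547_6 (.non (nat_lit 2) (nat_lit 5) (nat_lit 0x501005) (nat_lit 0x300020000000000000001000000000000000000030004))))) (.sup (nat_lit 0x20002000200040004000100000000000000000000) (nat_lit 0x30007000b0010000d))) (.split (nat_lit 0xa) (nat_lit 5) (.st (nat_lit 6) (nat_lit 0) (nat_lit 5) (nat_lit 0x155000) (nat_lit 0x10001000100020002000000000000000000000000) (nat_lit 1) (nat_lit 1) (.st (nat_lit 0xa) (nat_lit 0) (nat_lit 5) (nat_lit 0x155100) (nat_lit 0x20001000100020002000000010000000000000000) (nat_lit 1) (nat_lit 1) (.split (nat_lit 0xa) (nat_lit 4) (.split (nat_lit 0xa) (nat_lit 6) (.pd (.cons (nat_lit 3) (nat_lit 7) (nat_lit 0) (nat_lit 0x4980a640100) (nat_lit 0x437a2f423ff423f0000054591f423f174ea00000f423fb71ae1f156) .nil) (.leaf (.cons (nat_lit 0x101440) (nat_lit 0x10000000000000002000200000001000000000000) (.cons (nat_lit 0x105400) (nat_lit 0x10000000000010002000200000000000000000000) (.cons (nat_lit 0x455) (nat_lit 0x100000002000300040003) .nil))) (.cons (nat_lit 0x10000111110) (nat_lit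 0x1000001) (nat_lit 0xc) (nat_lit 0x50000140230) .nil))) (.non (nat_lit 0) (nat_lit 5) (nat_lit 0x255000) (nat_lit 0x10001000100020002000000000000000000000000))) (.non (nat_lit 0) (nat_lit 5) (nat_lit 0x2aa100) (nat_lit 0x20001000100020002000000020000000000000000))))) (.non (nat_lit 0) (nat_lit 6) (nat_lit 0x100540) (nat_lit 0x10000000000000000000100010001000000000000)))) (.non (nat_lit 0) (nat_lit 5) (nat_lit 0x145000) (nat_lit 0x10001000000010001000000000000000000000000))) (.non (nat_lit 0) (nat_lit 5) (nat_lit 0x115000) (nat_lit 0x10000000100010001000000000000000000000000)))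

noncomputable def t1547_8 : Tr := (.split (nat_lit 0xc) (nat_lit 1) (.split (nat_lit 0xc) (nat_lit 2) (.split (nat_lit 0xc) (nat_lit 3) (.split (nat_lit 0xc) (nat_lit 4) (.split (nat_lit 0xc) (nat_lit 5) (.split (nat_lit 0xc) (nat_lit 7) (.split (nat_lit 0xc) (nat_lit 8) (.split (nat_lit 0xc) (nat_lit 9) (.split (nat_lit 0xc) (nat_lit 0xa) (.split (nat_lit 0xc) (nat_lit 6) (.st (nat_lit 0xb) (nat_lit 0) (nat_lit 6) (nat_lit 0x1500550) (nat_lit 0x1000200020000000000000000000200010002000100000000) (nat_lit 1) (nat_lit 1) (.st (nat_lit 0xc) (nat_lit 0) (nat_lit 6) (nat_lit 0x1500554) (nat_lit 0x2000300040000000000000000000500030006000400020000) (nat_lit 1) (nat_lit 1) (.split (nat_lit 0xc) (nat_lit 0xb) (.split (nat_lit 0xb) (nat_lit 0xa) (.split (nat_lit 0xa) (nat_lit 5) (.leaf (.cons (nat_lit 0x1501400) (nat_lit 0x1000200030000000000000003000400000000000000000000) (.cons (nat_lit 0x455) (nat_lit 0x100000002000300040003) .nil)) (.cons (nat_lit 0x1110000111110) (nat_lit 0x1000001) (nat_lit 0xe) (nat_lit 0x7650000410230)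 (.cons (nat_lit 0x1110000111100) (nat_lit 0x1000010) (nat_lit 0xa) (nat_lit 0x6540000320100) .nil))) (.non (nat_lit 0) (nat_lit 6) (nat_lit 0x2a00440) (nat_lit 0x1000200030000000000000000000400000002000000000000))) (.non (nat_lit 0) (nat_lit 6) (nat_lit 0x2900440) (nat_lit 0x1000200030000000000000000000200000001000000000000))) (.non (nat_lit 0) (nat_lit 6) (nat_lit 0x2500550) (nat_lit 0x1000200020000000000000000000200010002000100000000))))) (.sup (nat_lit 0x3000200020002000200040004000100000000000000000000) (nat_lit 0x40007000b0010000d))) (.non (nat_lit 0) (nat_lit 5) (nat_lit 0x1500000) (nat_lit 0x1000100010000000000000000000000000000000000000000))) (.non (nat_lit 0) (nat_lit 6) (nat_lit 0x1540554) (nat_lit 0x2000300040001000000000000000500030006000400020000))) (.non (nat_lit 0) (nat_lit 6) (nat_lit 0x1510554) (nat_lit 0x2000300040000000100000000000500030006000400020000))) (.non (nat_lit 0) (nat_lit 5) (nat_lit 0x1055000) (nat_lit 0x1000000000001000100020001000000000000000000000000))) (.non (nat_lit 0)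 (nat_lit 6) (nat_lit 0x1500400) (nat_lit 0x1000100010000000000000000000100000000000000000000))) (.non (nat_lit 0) (nat_lit 6) (nat_lit 0x1500540) (nat_lit 0x1000100010000000000000000000100010001000000000000))) (.non (nat_lit 0) (nat_lit 6) (nat_lit 0x1500440) (nat_lit 0x1000100010000000000000000000100000001000000000000))) (.non (nat_lit 0) (nat_lit 6) (nat_lit 0x1500450) (nat_lit 0x1000100010000000000000000000100000001000100000000))) (.non (nat_lit 0) (nat_lit 6) (nat_lit 0x1500454) (nat_lit 0x1000100010000000000000000000100000001000100010000)))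

noncomputable def t1547_9 : Tr := (.split (nat_lit 0xb) (nat_lit 0) (.split (nat_lit 0xb) (nat_lit 1) (.split (nat_lit 0xb) (nat_lit 2) (.split (nat_lit 0xb) (nat_lit 3) (.split (nat_lit 0xb) (nat_lit 4) (.split (nat_lit 0xb) (nat_lit 5) (.split (nat_lit 0xb) (nat_lit 7) (.split (nat_lit 0xb) (nat_lit 8) (.split (nat_lit 0xb) (nat_lit 9) (.split (nat_lit 0xb) (nat_lit 6) (.st (nat_lit 0xa) (nat_lit 0) (nat_lit 6) (nat_lit 0x500550) (nat_lit 0x100020000000000000000000200010002000100000000) (nat_lit 1) (nat_lit 1) (.ex (nat_lit 0xb) (.split (nat_lit 0xa) (nat_lit 5) (.split (nat_lit 0xb) (nat_lit 0xa) (.pd (.cons (nat_lit 3) (nat_lit 7) (nat_lit 0) (nat_lit 0xa59805540100) (nat_lit 0xf423fb71aef423ff423f00000f423f02f7af423f00000f423fb71ae1f156) .nil) (.leaf (.cons (nat_lit 0x101440) (nat_lit 0x10000000000000002000200000001000000000000) (.cons (nat_lit 0x105400) (nat_lit 0x10000000000010002000200000000000000000000) (.cons (nat_lit 0x455) (nat_lit 0x100000002000300040003) .nil))) (.cons (nat_lit 0x110000111000)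 (nat_lit 0x1000100) (nat_lit 3) (nat_lit 0x430000201000) .nil))) (.non (nat_lit 0) (nat_lit 6) (nat_lit 0x900550) (nat_lit 0x100020000000000000000000200010002000100000000))) (.non (nat_lit 0) (nat_lit 6) (nat_lit 0xa00540) (nat_lit 0x100020000000000000000000300010002000000000000))) (.split (nat_lit 0xc) (nat_lit 0) t1547_8 (.non (nat_lit 2) (nat_lit 5) (nat_lit 0x1500005) (nat_lit 0x3000200010000000000000000000000000000000000030004))))) (.sup (nat_lit 0x300020002000200040004000100000000000000000000) (nat_lit 0x30007000b0010000d))) (.non (nat_lit 0) (nat_lit 6) (nat_lit 0x544554) (nat_lit 0x300040002000000010000000500030006000400020000))) (.non (nat_lit 0) (nat_lit 6) (nat_lit 0x514554) (nat_lit 0x300040000000200010000000500030006000400020000))) (.non (nat_lit 0) (nat_lit 5) (nat_lit 0x455000) (nat_lit 0x100000001000100020001000000000000000000000000))) (.non (nat_lit 0) (nat_lit 6) (nat_lit 0x500400) (nat_lit 0x100010000000000000000000100000000000000000000))) (.non (nat_lit 0) (nat_lit 6) (nat_lit 0x500540)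 (nat_lit 0x100010000000000000000000100010001000000000000))) (.non (nat_lit 0) (nat_lit 6) (nat_lit 0x500440) (nat_lit 0x100010000000000000000000100000001000000000000))) (.non (nat_lit 0) (nat_lit 6) (nat_lit 0x500450) (nat_lit 0x100010000000000000000000100000001000100000000))) (.non (nat_lit 0) (nat_lit 6) (nat_lit 0x500454) (nat_lit 0x100010000000000000000000100000001000100010000))) (.non (nat_lit 2) (nat_lit 6) (nat_lit 0x500405) (nat_lit 0x300020000000000000000000100000000000000030004)))

noncomputable def t1547_10 : Tr := (.split (nat_lit 0xa) (nat_lit 8) (.split (nat_lit 0xa) (nat_lit 9) (.split (nat_lit 0xa) (nat_lit 6) (.st (nat_lit 5) (nat_lit 0) (nat_lit 6) (nat_lit 0x100550) (nat_lit 0x10000000000000000000200010002000100000000) (nat_lit 1) (nat_lit 1) (.ex (nat_lit 6) (.ex (nat_lit 0xa) (.split (nat_lit 0xa) (nat_lit 5) (.pd (.cons (nat_lit 3) (nat_lit 7) (nat_lit 0) (nat_lit 0x59805540100) (nat_lit 0xf423ff423ff423f00000f423f17500f423f00000f423fb71ae1f156) .nil) (.leaf (.cons (nat_lit 0x101440)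 (nat_lit 0x10000000000000002000200000001000000000000) (.cons (nat_lit 0x105400) (nat_lit 0x10000000000010002000200000000000000000000) (.cons (nat_lit 0x455) (nat_lit 0x100000002000300040003) .nil))) (.cons (nat_lit 0x10000111000) (nat_lit 0x1000100) (nat_lit 2) (nat_lit 0x30000201000) .nil))) (.non (nat_lit 0) (nat_lit 6) (nat_lit 0x200550) (nat_lit 0x10000000000000000000200010002000100000000))) t1547_9) (.split (nat_lit 0xb) (nat_lit 0) (.split (nat_lit 0xb) (nat_lit 1) (.split (nat_lit 0xb) (nat_lit 2) (.split (nat_lit 0xb) (nat_lit 3) (.split (nat_lit 0xb) (nat_lit 4) (.split (nat_lit 0xb) (nat_lit 5) (.split (nat_lit 0xb) (nat_lit 7) (.split (nat_lit 0xb) (nat_lit 8) (.split (nat_lit 0xb) (nat_lit 9) (.split (nat_lit 0xb) (nat_lit 0xa) (.sup (nat_lit 0x5000200050005000b000b000300000000000000000000) (nat_lit 0x6000d00160020001a)) (.sup (nat_lit 0x300020002000200040004000100000000000000000000) (nat_lit 0x30007000b0010000d))) (.non (nat_lit 0) (nat_lit 5) (nat_lit 0x445000) (nat_lit 0x100000001000000010001000000000000000000000000)))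 (.non (nat_lit 0) (nat_lit 5) (nat_lit 0x415000) (nat_lit 0x100000000000100010001000000000000000000000000))) (.non (nat_lit 0) (nat_lit 5) (nat_lit 0x405000) (nat_lit 0x100000000000000010001000000000000000000000000))) (.non (nat_lit 0) (nat_lit 6) (nat_lit 0x500550) (nat_lit 0x100010000000000000000000200010002000100000000))) (.non (nat_lit 0) (nat_lit 6) (nat_lit 0x500554) (nat_lit 0x100010000000000000000000200020003000200010000))) (.non (nat_lit 0) (nat_lit 5) (nat_lit 0x455150) (nat_lit 0x200000001000100020002000000010002000100000000))) (.non (nat_lit 0) (nat_lit 5) (nat_lit 0x455054) (nat_lit 0x200000001000100020002000000000001000200010000))) (.star (nat_lit 0xb) (nat_lit 1) (nat_lit 6))) (.star (nat_lit 0xb) (nat_lit 0) (nat_lit 6))))) (.sup (nat_lit 0x20002000200040004000100000000000000000000) (nat_lit 0x30007000b0010000d))) (.non (nat_lit 0) (nat_lit 6) (nat_lit 0x154554) (nat_lit 0x40003000100020000000500030006000400020000))) (.non (nat_lit 0) (nat_lit 6) (nat_lit 0x154554) (nat_lit 0x40001000300020000000500030006000400020000)))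

noncomputable def t1547_11 : Tr := (.ex (nat_lit 0xb) (.leaf (.cons (nat_lit 0x101540) (nat_lit 0x10000000000000003000400020003000000000000) (.cons (nat_lit 0x455) (nat_lit 0x100000002000300040003) .nil)) (.cons (nat_lit 0x110000111110) (nat_lit 0x1000001) (nat_lit 0xd) (nat_lit 0x650000140230) (.cons (nat_lit 0x110000111100) (nat_lit 0x1000010) (nat_lit 9) (nat_lit 0x540000230100) .nil))) (.split (nat_lit 0xc) (nat_lit 0) (.split (nat_lit 0xc) (nat_lit 1) (.split (nat_lit 0xc) (nat_lit 2) (.split (nat_lit 0xc) (nat_lit 3) (.split (nat_lit 0xc) (nat_lit 4) (.split (nat_lit 0xc) (nat_lit 5) (.split (nat_lit 0xc) (nat_lit 6) (.split (nat_lit 0xc) (nat_lit 7) (.split (nat_lit 0xc) (nat_lit 8) (.split (nat_lit 0xc) (nat_lit 9) (.split (nat_lit 0xc) (nat_lit 0xa) (.st (nat_lit 0xb) (nat_lit 0) (nat_lit 6) (nat_lit 0x1500550) (nat_lit 0x1000200020000000000000000000100020002000100000000) (nat_lit 1) (nat_lit 1) (.st (nat_lit 0xc) (nat_lit 0) (nat_lit 6) (nat_lit 0x1500554) (nat_lit 0x2000300040000000000000000000300050006000400020000)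 (nat_lit 1) (nat_lit 1) (.split (nat_lit 0xc) (nat_lit 0xb) (.leaf (.cons (nat_lit 0x101540) (nat_lit 0x10000000000000003000400020003000000000000) (.cons (nat_lit 0x455) (nat_lit 0x100000002000300040003) .nil)) (.cons (nat_lit 0x1110000111110) (nat_lit 0x1000001) (nat_lit 0xe) (nat_lit 0x7650000140230) (.cons (nat_lit 0x1110000111000) (nat_lit 0x1000100) (nat_lit 4) (nat_lit 0x5430000021000) .nil))) (.non (nat_lit 0) (nat_lit 6) (nat_lit 0x2500550) (nat_lit 0x1000200020000000000000000000100020002000100000000))))) (.non (nat_lit 0) (nat_lit 5) (nat_lit 0x1500000) (nat_lit 0x1000100010000000000000000000000000000000000000000))) (.non (nat_lit 0) (nat_lit 6) (nat_lit 0x1540554) (nat_lit 0x2000300040001000000000000000300050006000400020000))) (.non (nat_lit 0) (nat_lit 6) (nat_lit 0x1510554) (nat_lit 0x2000300040000000100000000000300050006000400020000))) (.non (nat_lit 0) (nat_lit 5) (nat_lit 0x1055000) (nat_lit 0x1000000000001000100020001000000000000000000000000))) (.non (nat_lit 3) (nat_lit 7) (nat_lit 0x1501400)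 (nat_lit 0x3000200010000000000000004000300000000000000000000))) (.non (nat_lit 0) (nat_lit 6) (nat_lit 0x1500540) (nat_lit 0x1000100010000000000000000000100010001000000000000))) (.non (nat_lit 0) (nat_lit 5) (nat_lit 0x1500100) (nat_lit 0x1000100010000000000000000000000010000000000000000))) (.non (nat_lit 0) (nat_lit 5) (nat_lit 0x1500140) (nat_lit 0x1000100010000000000000000000000010001000000000000))) (.non (nat_lit 0) (nat_lit 5) (nat_lit 0x1500150) (nat_lit 0x1000100010000000000000000000000010001000100000000))) (.non (nat_lit 0) (nat_lit 5) (nat_lit 0x1500154) (nat_lit 0x1000100010000000000000000000000010001000100010000))) (.non (nat_lit 2) (nat_lit 5) (nat_lit 0x1500005) (nat_lit 0x3000200010000000000000000000000000000000000030004))))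

noncomputable def t1547_12 : Tr := (.split (nat_lit 0xd) (nat_lit 1) (.split (nat_lit 0xd) (nat_lit 2) (.split (nat_lit 0xd) (nat_lit 3) (.split (nat_lit 0xd) (nat_lit 4) (.split (nat_lit 0xd) (nat_lit 5) (.split (nat_lit 0xd) (nat_lit 6) (.split (nat_lit 0xd) (nat_lit 7) (.split (nat_lit 0xd) (nat_lit 8) (.split (nat_lit 0xd) (nat_lit 9) (.split (nat_lit 0xd) (nat_lit 0xa) (.split (nat_lit 0xd) (nat_lit 0xb) (.st (nat_lit 0xc) (nat_lit 0) (nat_lit 6) (nat_lit 0x5100550) (nat_lit 0x10002000000020000000000000000000100020002000100000000) (nat_lit 1) (nat_lit 1) (.st (nat_lit 0xd) (nat_lit 0) (nat_lit 6) (nat_lit 0x5100554) (nat_lit 0x20003000000040000000000000000000300050006000400020000) (nat_lit 1) (nat_lit 1) (.split (nat_lit 0xd) (nat_lit 0xc) (.leaf (.cons (nat_lit 0x101540) (nat_lit 0x10000000000000003000400020003000000000000) (.cons (nat_lit 0x445400) (nat_lit 0x100000002000000030004000300000000000000000000) (.cons (nat_lit 0x455) (nat_lit 0x100000002000300040003) .nil))) (.cons (nat_lit 0x11010000111110)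 (nat_lit 0x1000001) (nat_lit 0xe) (nat_lit 0x76050000140230) (.cons (nat_lit 0x11010000111000) (nat_lit 0x1000100) (nat_lit 4) (nat_lit 0x54030000021000) .nil))) (.non (nat_lit 0) (nat_lit 6) (nat_lit 0x9100550) (nat_lit 0x10002000000020000000000000000000100020002000100000000))))) (.non (nat_lit 0) (nat_lit 6) (nat_lit 0x5500554) (nat_lit 0x20003000100040000000000000000000300050006000400020000))) (.non (nat_lit 0) (nat_lit 5) (nat_lit 0x5100000) (nat_lit 0x10001000000010000000000000000000000000000000000000000))) (.non (nat_lit 0) (nat_lit 5) (nat_lit 0x4455000) (nat_lit 0x10000000100000002000100020001000000000000000000000000))) (.non (nat_lit 0) (nat_lit 5) (nat_lit 0x5555100) (nat_lit 0x40003000200020004000500060003000000010000000000000000))) (.non (nat_lit 0) (nat_lit 5) (nat_lit 0x4055000) (nat_lit 0x10000000000000001000100020001000000000000000000000000))) (.non (nat_lit 0) (nat_lit 5) (nat_lit 0x5555100) (nat_lit 0x40003000200020004000300060005000000010000000000000000))) (.non (nat_lit 0) (nat_lit 6)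 (nat_lit 0x5100540) (nat_lit 0x10001000000010000000000000000000100010001000000000000))) (.non (nat_lit 0) (nat_lit 5) (nat_lit 0x5100100) (nat_lit 0x10001000000010000000000000000000000010000000000000000))) (.non (nat_lit 0) (nat_lit 5) (nat_lit 0x5100140) (nat_lit 0x10001000000010000000000000000000000010001000000000000))) (.non (nat_lit 0) (nat_lit 5) (nat_lit 0x5100150) (nat_lit 0x10001000000010000000000000000000000010001000100000000))) (.non (nat_lit 0) (nat_lit 5) (nat_lit 0x5100154) (nat_lit 0x10001000000010000000000000000000000010001000100010000)))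

noncomputable def t1547_13 : Tr := (.ex (nat_lit 0xb) (.ex (nat_lit 0xc) (.leaf (.cons (nat_lit 0x101540) (nat_lit 0x10000000000000003000400020003000000000000) (.cons (nat_lit 0x445400) (nat_lit 0x100000002000000030004000300000000000000000000) (.cons (nat_lit 0x455) (nat_lit 0x100000002000300040003) .nil))) (.cons (nat_lit 0x1010000111110) (nat_lit 0x1000001) (nat_lit 0xd) (nat_lit 0x6050000140230) (.cons (nat_lit 0x1010000111100) (nat_lit 0x1000010) (nat_lit 9) (nat_lit 0x5040000230100) .nil))) (.split (nat_lit 0xd) (nat_lit 0) t1547_12 (.non (nat_lit 2) (nat_lit 5) (nat_lit 0x5100005) (nat_lit 0x30002000000010000000000000000000000000000000000030004)))) (.split (nat_lit 0xd) (nat_lit 0) (.split (nat_lit 0xd) (nat_lit 1) (.split (nat_lit 0xd) (nat_lit 2) (.split (nat_lit 0xd) (nat_lit 3) (.split (nat_lit 0xd) (nat_lit 4) (.split (nat_lit 0xd) (nat_lit 5) (.split (nat_lit 0xd) (nat_lit 6) (.split (nat_lit 0xd) (nat_lit 7) (.split (nat_lit 0xd) (nat_lit 8) (.split (nat_lit 0xd) (nat_lit 9) (.split (nat_lit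 0xd) (nat_lit 0xa) (.split (nat_lit 0xd) (nat_lit 0xc) (.sup (nat_lit 0x50000000a00000010000b00150010000700000000000000000000) (nat_lit 0x300000006000000000000000000000009000c00160020001a)) (.non (nat_lit 0) (nat_lit 6) (nat_lit 0x5500554) (nat_lit 0x20003000100040000000000000000000300050006000400020000))) (.non (nat_lit 0) (nat_lit 5) (nat_lit 0x5555100) (nat_lit 0x20001000200020002000100020001000000010000000000000000))) (.non (nat_lit 0) (nat_lit 5) (nat_lit 0x4440000) (nat_lit 0x10000000100000001000000000000000000000000000000000000))) (.non (nat_lit 0) (nat_lit 5) (nat_lit 0x4454000) (nat_lit 0x10000000100000001000100010000000000000000000000000000))) (.non (nat_lit 0) (nat_lit 5) (nat_lit 0x4444000) (nat_lit 0x10000000100000001000000010000000000000000000000000000))) (.non (nat_lit 0) (nat_lit 5) (nat_lit 0x4445000) (nat_lit 0x10000000100000001000000010001000000000000000000000000))) (.non (nat_lit 0) (nat_lit 6) (nat_lit 0x5500550) (nat_lit 0x20001000100020000000000000000000300030004000200000000))) (.non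 (nat_lit 0) (nat_lit 5) (nat_lit 0x5554140) (nat_lit 0x50002000400040003000100020000000000060003000000000000))) (.non (nat_lit 0) (nat_lit 5) (nat_lit 0x5540150) (nat_lit 0x30001000200020001000000000000000000030004000200000000))) (.non (nat_lit 0) (nat_lit 5) (nat_lit 0x4455054) (nat_lit 0x20000000200000002000100020001000000000001000200010000))) (.non (nat_lit 0) (nat_lit 6) (nat_lit 0x5100554) (nat_lit 0x10001000000020000000000000000000200030004000300020000))) (.non (nat_lit 2) (nat_lit 5) (nat_lit 0x4440005) (nat_lit 0x30000000200000001000000000000000000000000000000030004))))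

noncomputable def t1547_14 : Tr := (.split (nat_lit 0xa) (nat_lit 4) (.split (nat_lit 0xb) (nat_lit 9) (.ex (nat_lit 0xa) (.leaf (.cons (nat_lit 0x101540) (nat_lit 0x10000000000000003000400020003000000000000) (.cons (nat_lit 0x445400) (nat_lit 0x100000002000000030004000300000000000000000000) (.cons (nat_lit 0x455) (nat_lit 0x100000002000300040003) .nil))) (.cons (nat_lit 0x10000111110) (nat_lit 0x1000001) (nat_lit 0xc) (nat_lit 0x50000140230) .nil)) (.split (nat_lit 0xc) (nat_lit 0) (.split (nat_lit 0xc) (nat_lit 1) (.split (nat_lit 0xc) (nat_lit 2) (.split (nat_lit 0xc) (nat_lit 3) (.split (nat_lit 0xc) (nat_lit 4) (.split (nat_lit 0xc) (nat_lit 5) (.split (nat_lit 0xc) (nat_lit 6) (.split (nat_lit 0xc) (nat_lit 7) (.split (nat_lit 0xc) (nat_lit 8) (.split (nat_lit 0xc) (nat_lit 9) (.split (nat_lit 0xc) (nat_lit 0xb) (.st (nat_lit 0xa) (nat_lit 0) (nat_lit 6) (nat_lit 0x1100550) (nat_lit 0x1000000020000000000000000000100020002000100000000) (nat_lit 1) (nat_lit 1) (.split (nat_lit 0xc) (nat_lit 0xa) t1547_13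 (.non (nat_lit 0) (nat_lit 6) (nat_lit 0x2100550) (nat_lit 0x1000000020000000000000000000100020002000100000000)))) (.non (nat_lit 0) (nat_lit 6) (nat_lit 0x1540554) (nat_lit 0x3000200040001000000000000000300050006000400020000))) (.non (nat_lit 0) (nat_lit 5) (nat_lit 0x1455000) (nat_lit 0x1000100000002000100020001000000000000000000000000))) (.non (nat_lit 0) (nat_lit 5) (nat_lit 0x1555140) (nat_lit 0x4000200030004000500060003000000020001000000000000))) (.non (nat_lit 0) (nat_lit 5) (nat_lit 0x1055000) (nat_lit 0x1000000000001000100020001000000000000000000000000))) (.non (nat_lit 0) (nat_lit 5) (nat_lit 0x1555140) (nat_lit 0x4000200030004000300060005000000020001000000000000))) (.non (nat_lit 0) (nat_lit 6) (nat_lit 0x1100540) (nat_lit 0x1000000010000000000000000000100010001000000000000))) (.non (nat_lit 0) (nat_lit 5) (nat_lit 0x1100100) (nat_lit 0x1000000010000000000000000000000010000000000000000))) (.non (nat_lit 0) (nat_lit 5) (nat_lit 0x1100140) (nat_lit 0x1000000010000000000000000000000010001000000000000)))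 (.non (nat_lit 0) (nat_lit 5) (nat_lit 0x1100150) (nat_lit 0x1000000010000000000000000000000010001000100000000))) (.non (nat_lit 0) (nat_lit 5) (nat_lit 0x1100154) (nat_lit 0x1000000010000000000000000000000010001000100010000))) (.non (nat_lit 2) (nat_lit 5) (nat_lit 0x1100105) (nat_lit 0x3000000020000000000000000000000010000000000030004)))) (.non (nat_lit 0) (nat_lit 5) (nat_lit 0x855000) (nat_lit 0x100000002000100020001000000000000000000000000))) (.non (nat_lit 0) (nat_lit 6) (nat_lit 0x200550) (nat_lit 0x10000000000000000000100020002000100000000)))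

noncomputable def t1547_15 : Tr := (.ex (nat_lit 9) (.pd (.cons (nat_lit 3) (nat_lit 8) (nat_lit 0x10000010000) (nat_lit 0x470655a0100) (nat_lit 0x1f423f00000b71aea2c28047370000100000f423fb71ae1f156) .nil) (.split (nat_lit 0xa) (nat_lit 4) (.ex (nat_lit 0xa) (.leaf (.cons (nat_lit 0x101540) (nat_lit 0x10000000000000003000400020003000000000000) (.cons (nat_lit 0x455) (nat_lit 0x100000002000300040003) .nil)) (.cons (nat_lit 0x10000111110) (nat_lit 0x1000001) (nat_lit 0xc) (nat_lit 0x50000140230) .nil)) (.split (nat_lit 0xb) (nat_lit 0) (.split (nat_lit 0xb) (nat_lit 1) (.split (nat_lit 0xb) (nat_lit 2) (.split (nat_lit 0xb) (nat_lit 3) (.split (nat_lit 0xb) (nat_lit 4) (.split (nat_lit 0xb) (nat_lit 5) (.split (nat_lit 0xb) (nat_lit 6) (.split (nat_lit 0xb) (nat_lit 7) (.split (nat_lit 0xb) (nat_lit 8) (.split (nat_lit 0xb) (nat_lit 9) (.st (nat_lit 0xa) (nat_lit 0) (nat_lit 6) (nat_lit 0x500550) (nat_lit 0x100020000000000000000000100020002000100000000) (nat_lit 1) (nat_lit 1) (.split (nat_lit 0xb) (nat_lit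 0xa) t1547_11 (.non (nat_lit 0) (nat_lit 6) (nat_lit 0x900550) (nat_lit 0x100020000000000000000000100020002000100000000)))) (.non (nat_lit 0) (nat_lit 6) (nat_lit 0x544554) (nat_lit 0x300040002000000010000000300050006000400020000))) (.non (nat_lit 0) (nat_lit 6) (nat_lit 0x514554) (nat_lit 0x300040000000200010000000300050006000400020000))) (.non (nat_lit 0) (nat_lit 5) (nat_lit 0x455000) (nat_lit 0x100000001000100020001000000000000000000000000))) (.non (nat_lit 3) (nat_lit 7) (nat_lit 0x501500) (nat_lit 0x300020000000000000004000300010000000000000000))) (.non (nat_lit 0) (nat_lit 6) (nat_lit 0x500540) (nat_lit 0x100010000000000000000000100010001000000000000))) (.non (nat_lit 0) (nat_lit 5) (nat_lit 0x500100) (nat_lit 0x100010000000000000000000000010000000000000000))) (.non (nat_lit 0) (nat_lit 5) (nat_lit 0x500140) (nat_lit 0x100010000000000000000000000010001000000000000))) (.non (nat_lit 0) (nat_lit 5) (nat_lit 0x500150) (nat_lit 0x100010000000000000000000000010001000100000000))) (.non (nat_lit 0) (nat_lit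 5) (nat_lit 0x500154) (nat_lit 0x100010000000000000000000000010001000100010000))) (.non (nat_lit 2) (nat_lit 5) (nat_lit 0x500105) (nat_lit 0x300020000000000000000000000010000000000030004)))) (.non (nat_lit 0) (nat_lit 6) (nat_lit 0x200550) (nat_lit 0x10000000000000000000100020002000100000000)))) (.split (nat_lit 0xb) (nat_lit 0) (.split (nat_lit 0xb) (nat_lit 1) (.split (nat_lit 0xb) (nat_lit 2) (.split (nat_lit 0xb) (nat_lit 3) (.split (nat_lit 0xb) (nat_lit 4) (.split (nat_lit 0xb) (nat_lit 5) (.split (nat_lit 0xb) (nat_lit 6) (.split (nat_lit 0xb) (nat_lit 7) (.split (nat_lit 0xb) (nat_lit 8) (.split (nat_lit 0xb) (nat_lit 0xa) (.st (nat_lit 9) (nat_lit 0) (nat_lit 5) (nat_lit 0x455000) (nat_lit 0x100000002000100020001000000000000000000000000) (nat_lit 1) (nat_lit 1) t1547_14) (.non (nat_lit 0) (nat_lit 6) (nat_lit 0x544554) (nat_lit 0x300040002000000010000000300050006000400020000))) (.non (nat_lit 0) (nat_lit 5) (nat_lit 0x454000) (nat_lit 0x100000001000100010000000000000000000000000000))) (.non (nat_lit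 0) (nat_lit 5) (nat_lit 0x444000) (nat_lit 0x100000001000000010000000000000000000000000000))) (.non (nat_lit 0) (nat_lit 5) (nat_lit 0x445000) (nat_lit 0x100000001000000010001000000000000000000000000))) (.non (nat_lit 0) (nat_lit 6) (nat_lit 0x554550) (nat_lit 0x400020003000100020000000500040006000300000000))) (.non (nat_lit 0) (nat_lit 5) (nat_lit 0x555140) (nat_lit 0x200010002000100020001000000020001000000000000))) (.non (nat_lit 0) (nat_lit 5) (nat_lit 0x455150) (nat_lit 0x200000002000100020001000000010002000100000000))) (.non (nat_lit 0) (nat_lit 5) (nat_lit 0x455054) (nat_lit 0x200000002000100020001000000000001000200010000))) (.non (nat_lit 0) (nat_lit 6) (nat_lit 0x544554) (nat_lit 0x300020002000000010000000300040006000500040000))) (.non (nat_lit 2) (nat_lit 5) (nat_lit 0x444005) (nat_lit 0x300000002000000010000000000000000000000030004))))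

noncomputable def t1547_16 : Tr := (.split (nat_lit 0xd) (nat_lit 1) (.split (nat_lit 0xd) (nat_lit 2) (.split (nat_lit 0xd) (nat_lit 3) (.split (nat_lit 0xd) (nat_lit 4) (.split (nat_lit 0xd) (nat_lit 5) (.split (nat_lit 0xd) (nat_lit 6) (.split (nat_lit 0xd) (nat_lit 7) (.split (nat_lit 0xd) (nat_lit 8) (.split (nat_lit 0xd) (nat_lit 9) (.split (nat_lit 0xd) (nat_lit 0xa) (.split (nat_lit 0xd) (nat_lit 0xb) (.st (nat_lit 0xc) (nat_lit 0) (nat_lit 6) (nat_lit 0x5100550) (nat_lit 0x10002000000020000000000000000000100020002000100000000) (nat_lit 1) (nat_lit 1) (.st (nat_lit 0xd) (nat_lit 0) (nat_lit 6) (nat_lit 0x5100554) (nat_lit 0x20003000000040000000000000000000300050006000400020000) (nat_lit 1) (nat_lit 1) (.split (nat_lit 0xd) (nat_lit 0xc) (.leaf (.cons (nat_lit 0x101540) (nat_lit 0x10000000000000003000400020003000000000000) (.cons (nat_lit 0x415400) (nat_lit 0x100000000000200030004000300000000000000000000) (.cons (nat_lit 0x455) (nat_lit 0x100000002000300040003) .nil))) (.cons (nat_lit 0x11010000111110)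 (nat_lit 0x1000001) (nat_lit 0xe) (nat_lit 0x76050000140230) (.cons (nat_lit 0x11010000111000) (nat_lit 0x1000100) (nat_lit 4) (nat_lit 0x54030000021000) .nil))) (.non (nat_lit 0) (nat_lit 6) (nat_lit 0x9100550) (nat_lit 0x10002000000020000000000000000000100020002000100000000))))) (.non (nat_lit 0) (nat_lit 6) (nat_lit 0x5500554) (nat_lit 0x20003000100040000000000000000000300050006000400020000))) (.non (nat_lit 0) (nat_lit 5) (nat_lit 0x5100000) (nat_lit 0x10001000000010000000000000000000000000000000000000000))) (.non (nat_lit 0) (nat_lit 5) (nat_lit 0x5555100) (nat_lit 0x40003000200020005000400060003000000010000000000000000))) (.non (nat_lit 0) (nat_lit 5) (nat_lit 0x4455000) (nat_lit 0x10000000100000001000200020001000000000000000000000000))) (.non (nat_lit 0) (nat_lit 5) (nat_lit 0x4055000) (nat_lit 0x10000000000000001000100020001000000000000000000000000))) (.non (nat_lit 0) (nat_lit 5) (nat_lit 0x5555100) (nat_lit 0x40003000200020003000400060005000000010000000000000000))) (.non (nat_lit 0) (nat_lit 6)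 (nat_lit 0x5100540) (nat_lit 0x10001000000010000000000000000000100010001000000000000))) (.non (nat_lit 0) (nat_lit 5) (nat_lit 0x5100100) (nat_lit 0x10001000000010000000000000000000000010000000000000000))) (.non (nat_lit 0) (nat_lit 5) (nat_lit 0x5100140) (nat_lit 0x10001000000010000000000000000000000010001000000000000))) (.non (nat_lit 0) (nat_lit 5) (nat_lit 0x5100150) (nat_lit 0x10001000000010000000000000000000000010001000100000000))) (.non (nat_lit 0) (nat_lit 5) (nat_lit 0x5100154) (nat_lit 0x10001000000010000000000000000000000010001000100010000)))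

noncomputable def t1547_17 : Tr := (.ex (nat_lit 0xb) (.ex (nat_lit 0xc) (.leaf (.cons (nat_lit 0x101540) (nat_lit 0x10000000000000003000400020003000000000000) (.cons (nat_lit 0x415400) (nat_lit 0x100000000000200030004000300000000000000000000) (.cons (nat_lit 0x455) (nat_lit 0x100000002000300040003) .nil))) (.cons (nat_lit 0x1010000111110) (nat_lit 0x1000001) (nat_lit 0xd) (nat_lit 0x6050000140230) (.cons (nat_lit 0x1010000111100) (nat_lit 0x1000010) (nat_lit 9) (nat_lit 0x5040000230100) .nil))) (.split (nat_lit 0xd) (nat_lit 0) t1547_16 (.non (nat_lit 2) (nat_lit 5) (nat_lit 0x5100005) (nat_lit 0x30002000000010000000000000000000000000000000000030004)))) (.split (nat_lit 0xd) (nat_lit 0) (.split (nat_lit 0xd) (nat_lit 1) (.split (nat_lit 0xd) (nat_lit 2) (.split (nat_lit 0xd) (nat_lit 3) (.split (nat_lit 0xd) (nat_lit 4) (.split (nat_lit 0xd) (nat_lit 5) (.split (nat_lit 0xd) (nat_lit 6) (.split (nat_lit 0xd) (nat_lit 7) (.split (nat_lit 0xd) (nat_lit 8) (.split (nat_lit 0xd) (nat_lit 9) (.split (nat_lit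 0xd) (nat_lit 0xa) (.split (nat_lit 0xd) (nat_lit 0xc) (.sup (nat_lit 0x50000000a0000000b001000150010000700000000000000000000) (nat_lit 0x300000006000000000000000000000009000c00160020001a)) (.non (nat_lit 0) (nat_lit 6) (nat_lit 0x5500554) (nat_lit 0x20003000100040000000000000000000300050006000400020000))) (.non (nat_lit 0) (nat_lit 5) (nat_lit 0x5555100) (nat_lit 0x20001000200020001000200020001000000010000000000000000))) (.non (nat_lit 0) (nat_lit 5) (nat_lit 0x4454000) (nat_lit 0x10000000100000001000100010000000000000000000000000000))) (.non (nat_lit 0) (nat_lit 5) (nat_lit 0x4410000) (nat_lit 0x10000000100000000000100000000000000000000000000000000))) (.non (nat_lit 0) (nat_lit 5) (nat_lit 0x4414000) (nat_lit 0x10000000100000000000100010000000000000000000000000000))) (.non (nat_lit 0) (nat_lit 5) (nat_lit 0x4415000) (nat_lit 0x10000000100000000000100010001000000000000000000000000))) (.non (nat_lit 0) (nat_lit 6) (nat_lit 0x5500550) (nat_lit 0x20001000100020000000000000000000300030004000200000000))) (.non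 (nat_lit 0) (nat_lit 5) (nat_lit 0x5554140) (nat_lit 0x50002000400040001000300020000000000060003000000000000))) (.non (nat_lit 0) (nat_lit 5) (nat_lit 0x5510150) (nat_lit 0x30001000200020000000100000000000000030004000200000000))) (.non (nat_lit 0) (nat_lit 5) (nat_lit 0x4455054) (nat_lit 0x20000000200000001000200020001000000000001000200010000))) (.non (nat_lit 0) (nat_lit 6) (nat_lit 0x5100554) (nat_lit 0x10001000000020000000000000000000200030004000300020000))) (.non (nat_lit 2) (nat_lit 5) (nat_lit 0x4410005) (nat_lit 0x30000000200000000000100000000000000000000000000030004))))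

noncomputable def t1547_18 : Tr := (.split (nat_lit 0xa) (nat_lit 4) (.split (nat_lit 0xb) (nat_lit 8) (.ex (nat_lit 0xa) (.leaf (.cons (nat_lit 0x101540) (nat_lit 0x10000000000000003000400020003000000000000) (.cons (nat_lit 0x415400) (nat_lit 0x100000000000200030004000300000000000000000000) (.cons (nat_lit 0x455) (nat_lit 0x100000002000300040003) .nil))) (.cons (nat_lit 0x10000111110) (nat_lit 0x1000001) (nat_lit 0xc) (nat_lit 0x50000140230) .nil)) (.split (nat_lit 0xc) (nat_lit 0) (.split (nat_lit 0xc) (nat_lit 1) (.split (nat_lit 0xc) (nat_lit 2) (.split (nat_lit 0xc) (nat_lit 3) (.split (nat_lit 0xc) (nat_lit 4) (.split (nat_lit 0xc) (nat_lit 5) (.split (nat_lit 0xc) (nat_lit 6) (.split (nat_lit 0xc) (nat_lit 7) (.split (nat_lit 0xc) (nat_lit 8) (.split (nat_lit 0xc) (nat_lit 9) (.split (nat_lit 0xc) (nat_lit 0xb) (.st (nat_lit 0xa) (nat_lit 0) (nat_lit 6) (nat_lit 0x1100550) (nat_lit 0x1000000020000000000000000000100020002000100000000) (nat_lit 1) (nat_lit 1) (.split (nat_lit 0xc) (nat_lit 0xa) t1547_17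 (.non (nat_lit 0) (nat_lit 6) (nat_lit 0x2100550) (nat_lit 0x1000000020000000000000000000100020002000100000000)))) (.non (nat_lit 0) (nat_lit 6) (nat_lit 0x1510554) (nat_lit 0x3000200040000000100000000000300050006000400020000))) (.non (nat_lit 0) (nat_lit 5) (nat_lit 0x1555140) (nat_lit 0x4000200030005000400060003000000020001000000000000))) (.non (nat_lit 0) (nat_lit 5) (nat_lit 0x1455000) (nat_lit 0x1000100000001000200020001000000000000000000000000))) (.non (nat_lit 0) (nat_lit 5) (nat_lit 0x1055000) (nat_lit 0x1000000000001000100020001000000000000000000000000))) (.non (nat_lit 0) (nat_lit 5) (nat_lit 0x1555140) (nat_lit 0x4000200030003000400060005000000020001000000000000))) (.non (nat_lit 0) (nat_lit 6) (nat_lit 0x1100540) (nat_lit 0x1000000010000000000000000000100010001000000000000))) (.non (nat_lit 0) (nat_lit 5) (nat_lit 0x1100100) (nat_lit 0x1000000010000000000000000000000010000000000000000))) (.non (nat_lit 0) (nat_lit 5) (nat_lit 0x1100140) (nat_lit 0x1000000010000000000000000000000010001000000000000)))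 (.non (nat_lit 0) (nat_lit 5) (nat_lit 0x1100150) (nat_lit 0x1000000010000000000000000000000010001000100000000))) (.non (nat_lit 0) (nat_lit 5) (nat_lit 0x1100154) (nat_lit 0x1000000010000000000000000000000010001000100010000))) (.non (nat_lit 2) (nat_lit 5) (nat_lit 0x1100105) (nat_lit 0x3000000020000000000000000000000010000000000030004)))) (.non (nat_lit 0) (nat_lit 5) (nat_lit 0x855000) (nat_lit 0x100000001000200020001000000000000000000000000))) (.non (nat_lit 0) (nat_lit 6) (nat_lit 0x200550) (nat_lit 0x10000000000000000000100020002000100000000)))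

noncomputable def t1547_19 : Tr := (.split (nat_lit 0xb) (nat_lit 7) (.split (nat_lit 0xb) (nat_lit 9) (.split (nat_lit 0xb) (nat_lit 0xa) (.st (nat_lit 8) (nat_lit 0) (nat_lit 5) (nat_lit 0x455000) (nat_lit 0x100000001000200020001000000000000000000000000) (nat_lit 1) (nat_lit 1) (.ex (nat_lit 9) (.pd (.cons (nat_lit 3) (nat_lit 8) (nat_lit 0x10000010000) (nat_lit 0xb470655a0100) (nat_lit 0xf423f00001f423f00000b71aea2c28047370000100000f423fb71ae1f156) .nil) t1547_18) (.split (nat_lit 0xc) (nat_lit 0) (.split (nat_lit 0xc) (nat_lit 1) (.split (nat_lit 0xc) (nat_lit 2) (.split (nat_lit 0xc) (nat_lit 3) (.split (nat_lit 0xc) (nat_lit 4) (.split (nat_lit 0xc) (nat_lit 5) (.split (nat_lit 0xc) (nat_lit 6) (.split (nat_lit 0xc) (nat_lit 7) (.split (nat_lit 0xc) (nat_lit 8) (.split (nat_lit 0xc) (nat_lit 0xa) (.split (nat_lit 0xc) (nat_lit 0xb) (.sup (nat_lit 0x30003000000070007000a0007000200000000000000000000) (nat_lit 0x20000000000000000000000040007000b0010000d)) (.non (nat_lit 0) (nat_lit 5) (nat_lit 0x1454000)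 (nat_lit 0x1000100000001000100010000000000000000000000000000))) (.non (nat_lit 0) (nat_lit 5) (nat_lit 0x1555140) (nat_lit 0x4000200030005000400060003000000020001000000000000))) (.non (nat_lit 0) (nat_lit 5) (nat_lit 0x1054000) (nat_lit 0x1000000000001000100010000000000000000000000000000))) (.non (nat_lit 0) (nat_lit 5) (nat_lit 0x1044000) (nat_lit 0x1000000000001000000010000000000000000000000000000))) (.non (nat_lit 0) (nat_lit 5) (nat_lit 0x1045000) (nat_lit 0x1000000000001000000010001000000000000000000000000))) (.non (nat_lit 0) (nat_lit 6) (nat_lit 0x1154550) (nat_lit 0x4000000020003000100020000000500040006000300000000))) (.non (nat_lit 0) (nat_lit 5) (nat_lit 0x1155140) (nat_lit 0x2000000010002000100020001000000020001000000000000))) (.non (nat_lit 0) (nat_lit 5) (nat_lit 0x1555140) (nat_lit 0x4000200010005000400060003000000020003000000000000))) (.non (nat_lit 0) (nat_lit 5) (nat_lit 0x1455150) (nat_lit 0x4000200000005000400060003000000010002000300000000))) (.non (nat_lit 0) (nat_lit 5) (nat_lit 0x1455054)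 (nat_lit 0x4000200000005000400060003000000000001000200030000))) (.non (nat_lit 2) (nat_lit 5) (nat_lit 0x1044005) (nat_lit 0x3000000000002000000010000000000000000000000030004))))) (.non (nat_lit 0) (nat_lit 6) (nat_lit 0x514554) (nat_lit 0x300040000000200010000000300050006000400020000))) (.non (nat_lit 0) (nat_lit 5) (nat_lit 0x454000) (nat_lit 0x100000001000100010000000000000000000000000000))) (.non (nat_lit 0) (nat_lit 5) (nat_lit 0x414000) (nat_lit 0x100000000000100010000000000000000000000000000)))

noncomputable def t1547_20 : Tr := (.split (nat_lit 0xb) (nat_lit 2) (.split (nat_lit 0xb) (nat_lit 3) (.split (nat_lit 0xb) (nat_lit 4) (.split (nat_lit 0xb) (nat_lit 5) (.split (nat_lit 0xb) (nat_lit 7) (.split (nat_lit 0xb) (nat_lit 8) (.split (nat_lit 0xb) (nat_lit 9) (.split (nat_lit 0xb) (nat_lit 0xa) (.sup (nat_lit 0x300000003000300070007000200000000000000000000) (nat_lit 0x20000000000000000000000040007000b0010000d)) (.st (nat_lit 6) (nat_lit 0) (nat_lit 5) (nat_lit 0x455000) (nat_lit 0x100000001000100020002000000000000000000000000)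 (nat_lit 1) (nat_lit 1) (.st (nat_lit 8) (nat_lit 0) (nat_lit 5) (nat_lit 0x555140) (nat_lit 0x400030003000400060005000000020001000000000000) (nat_lit 1) (nat_lit 2) (.st (nat_lit 9) (nat_lit 0) (nat_lit 5) (nat_lit 0x555140) (nat_lit 0x400030004000300060005000000020001000000000000) (nat_lit 1) (nat_lit 2) (.st (nat_lit 0xa) (nat_lit 0) (nat_lit 5) (nat_lit 0x555100) (nat_lit 0x200020001000100020002000000010000000000000000) (nat_lit 1) (nat_lit 1) (.st (nat_lit 0xb) (nat_lit 0) (nat_lit 5) (nat_lit 0x555000) (nat_lit 0x200010001000100020002000000000000000000000000) (nat_lit 1) (nat_lit 1) (.split (nat_lit 0xb) (nat_lit 0xa) (.split (nat_lit 0xa) (nat_lit 4) (.leaf (.cons (nat_lit 0x501500) (nat_lit 0x300020000000000000004000300010000000000000000) (.cons (nat_lit 0x455) (nat_lit 0x100000002000300040003) .nil)) (.cons (nat_lit 0x110000111110) (nat_lit 0x1000001) (nat_lit 0xd) (nat_lit 0x650000140230) (.cons (nat_lit 0x110000111100) (nat_lit 0x1000010) (nat_lit 9) (nat_lit 0x540000230100) .nil))) (.non (nat_lit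 0) (nat_lit 5) (nat_lit 0xaaa100) (nat_lit 0x200020001000100020002000000020000000000000000))) (.non (nat_lit 0) (nat_lit 5) (nat_lit 0x655000) (nat_lit 0x200010001000100020002000000000000000000000000))))))))) (.non (nat_lit 0) (nat_lit 5) (nat_lit 0x445000) (nat_lit 0x100000001000000010001000000000000000000000000))) (.non (nat_lit 0) (nat_lit 5) (nat_lit 0x415000) (nat_lit 0x100000000000100010001000000000000000000000000))) (.non (nat_lit 0) (nat_lit 5) (nat_lit 0x405000) (nat_lit 0x100000000000000010001000000000000000000000000))) (.non (nat_lit 0) (nat_lit 6) (nat_lit 0x500554) (nat_lit 0x100010000000000000000000200020003000200010000))) (.non (nat_lit 0) (nat_lit 5) (nat_lit 0x555140) (nat_lit 0x200010001000100020002000000020001000000000000))) (.non (nat_lit 0) (nat_lit 5) (nat_lit 0x455150) (nat_lit 0x200000001000100020002000000010002000100000000))) (.non (nat_lit 0) (nat_lit 5) (nat_lit 0x455054) (nat_lit 0x200000001000100020002000000000001000200010000)))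

noncomputable def t1547_21 : Tr := (.split (nat_lit 0xa) (nat_lit 6) (.st (nat_lit 5) (nat_lit 0) (nat_lit 6) (nat_lit 0x100554) (nat_lit 0x10000000000000000000200020003000200010000) (nat_lit 1) (nat_lit 1) (.st (nat_lit 4) (nat_lit 0) (nat_lit 6) (nat_lit 0x100550) (nat_lit 0x10000000000000000000100020002000100000000) (nat_lit 1) (nat_lit 1) (.ex (nat_lit 6) (.pd (.cons (nat_lit 3) (nat_lit 7) (nat_lit 0x10000010000) (nat_lit 0x498055a0100) (nat_lit 0x1f423ff423f00000f423f545910000100000f423fb71ae1f156) .nil) (.ex (nat_lit 8) (.pd (.cons (nat_lit 3) (nat_lit 9) (nat_lit 0x10000010000) (nat_lit 0x407655a0100) (nat_lit 0x100000f423fb71aea2c28047370000100000f423fb71ae1f156) .nil) t1547_15) (.split (nat_lit 0xb) (nat_lit 0) (.split (nat_lit 0xb) (nat_lit 1) (.split (nat_lit 0xb) (nat_lit 2) (.split (nat_lit 0xb) (nat_lit 3) (.split (nat_lit 0xb) (nat_lit 4) (.split (nat_lit 0xb) (nat_lit 5) (.split (nat_lit 0xb) (nat_lit 6) t1547_19 (.non (nat_lit 0) (nat_lit 5) (nat_lit 0x415000) (nat_lit 0x100000000000100010001000000000000000000000000)))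 (.non (nat_lit 0) (nat_lit 6) (nat_lit 0x554550) (nat_lit 0x400020001000300020000000500040006000300000000))) (.non (nat_lit 0) (nat_lit 5) (nat_lit 0x555140) (nat_lit 0x200010001000200020001000000020001000000000000))) (.non (nat_lit 0) (nat_lit 5) (nat_lit 0x455150) (nat_lit 0x200000001000200020001000000010002000100000000))) (.non (nat_lit 0) (nat_lit 5) (nat_lit 0x455054) (nat_lit 0x200000001000200020001000000000001000200010000))) (.non (nat_lit 0) (nat_lit 6) (nat_lit 0x514554) (nat_lit 0x300020000000200010000000300040006000500040000))) (.non (nat_lit 2) (nat_lit 5) (nat_lit 0x414005) (nat_lit 0x300000000000200010000000000000000000000030004))))) (.split (nat_lit 0xb) (nat_lit 0) (.split (nat_lit 0xb) (nat_lit 1) t1547_20 (.star (nat_lit 0xb) (nat_lit 1) (nat_lit 6))) (.star (nat_lit 0xb) (nat_lit 0) (nat_lit 6)))))) (.st (nat_lit 4) (nat_lit 0) (nat_lit 5) (nat_lit 0x155140) (nat_lit 0x20001000100020002000000020001000000000000) (nat_lit 1) (nat_lit 1) (.st (nat_lit 5) (nat_lit 0) (nat_lit 6) (nat_lit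 0x100554) (nat_lit 0x10000000000000000000200020003000200010000) (nat_lit 1) (nat_lit 1) (.st (nat_lit 6) (nat_lit 0) (nat_lit 5) (nat_lit 0x155000) (nat_lit 0x10001000100020002000000000000000000000000) (nat_lit 1) (nat_lit 1) (.st (nat_lit 0xa) (nat_lit 0) (nat_lit 5) (nat_lit 0x155100) (nat_lit 0x20001000100020002000000010000000000000000) (nat_lit 1) (nat_lit 1) (.split (nat_lit 0xa) (nat_lit 4) (.split (nat_lit 0xa) (nat_lit 6) (.pd (.cons (nat_lit 3) (nat_lit 7) (nat_lit 0) (nat_lit 0x4980a640100) (nat_lit 0x437a2f423ff423f0000054591f423f174ea00000f423fb71ae1f156) .nil) (.leaf (.cons (nat_lit 0x101440) (nat_lit 0x10000000000000002000200000001000000000000) (.cons (nat_lit 0x105400) (nat_lit 0x10000000000010002000200000000000000000000) (.cons (nat_lit 0x455) (nat_lit 0x100000002000300040003) .nil))) (.cons (nat_lit 0x10000111110) (nat_lit 0x1000001) (nat_lit 0xc) (nat_lit 0x50000140230) .nil))) (.non (nat_lit 0) (nat_lit 5) (nat_lit 0x255000) (nat_lit 0x10001000100020002000000000000000000000000))) (.non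 (nat_lit 0) (nat_lit 5) (nat_lit 0x2aa100) (nat_lit 0x20001000100020002000000020000000000000000))))))))

noncomputable def t1547_22 : Tr := (.ex (nat_lit 4) (.ex (nat_lit 5) (.ex (nat_lit 6) (.pd (.cons (nat_lit 2) (nat_lit 7) (nat_lit 0) (nat_lit 0x9805333000) (nat_lit 0xf423ff423f00000f423f54591f423f0671100000f423f54591) (.cons (nat_lit 3) (nat_lit 7) (nat_lit 0) (nat_lit 0x9805540100) (nat_lit 0xf423ff423f00000f423f54591f423f00000f423fb71ae1f156) .nil)) t1547_5) (.split (nat_lit 0xa) (nat_lit 0) (.split (nat_lit 0xa) (nat_lit 1) (.split (nat_lit 0xa) (nat_lit 2) (.split (nat_lit 0xa) (nat_lit 3) (.split (nat_lit 0xa) (nat_lit 7) t1547_7 (.non (nat_lit 0) (nat_lit 5) (nat_lit 0x105000) (nat_lit 0x10000000000010001000000000000000000000000))) (.non (nat_lit 0) (nat_lit 5) (nat_lit 0x155150) (nat_lit 0x20001000100020002000000010002000100000000))) (.non (nat_lit 0) (nat_lit 5) (nat_lit 0x155054) (nat_lit 0x20001000100020002000000000001000200010000))) (.star (nat_lit 0xa) (nat_lit 1) (nat_lit 6))) (.star (nat_lit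 0xa) (nat_lit 0) (nat_lit 6)))) (.split (nat_lit 0xa) (nat_lit 0) (.split (nat_lit 0xa) (nat_lit 1) (.split (nat_lit 0xa) (nat_lit 2) (.split (nat_lit 0xa) (nat_lit 3) (.split (nat_lit 0xa) (nat_lit 4) (.split (nat_lit 0xa) (nat_lit 7) t1547_10 (.non (nat_lit 0) (nat_lit 5) (nat_lit 0x155000) (nat_lit 0x10001000100020001000000000000000000000000))) (.non (nat_lit 0) (nat_lit 6) (nat_lit 0x100540) (nat_lit 0x10000000000000000000100010001000000000000))) (.non (nat_lit 0) (nat_lit 6) (nat_lit 0x100440) (nat_lit 0x10000000000000000000100000001000000000000))) (.non (nat_lit 0) (nat_lit 6) (nat_lit 0x100450) (nat_lit 0x10000000000000000000100000001000100000000))) (.star (nat_lit 0xa) (nat_lit 1) (nat_lit 5))) (.star (nat_lit 0xa) (nat_lit 0) (nat_lit 5)))) (.split (nat_lit 0xa) (nat_lit 0) (.split (nat_lit 0xa) (nat_lit 1) (.split (nat_lit 0xa) (nat_lit 2) (.split (nat_lit 0xa) (nat_lit 3) (.split (nat_lit 0xa) (nat_lit 5) (.split (nat_lit 0xa) (nat_lit 7) (.split (nat_lit 0xa) (nat_lit 8) (.split (nat_lit 0xa)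 (nat_lit 9) t1547_21 (.non (nat_lit 0) (nat_lit 6) (nat_lit 0x154554) (nat_lit 0x40003000100020000000300050006000400020000))) (.non (nat_lit 0) (nat_lit 6) (nat_lit 0x154554) (nat_lit 0x40001000300020000000300050006000400020000))) (.non (nat_lit 0) (nat_lit 5) (nat_lit 0x155000) (nat_lit 0x10001000100020001000000000000000000000000))) (.non (nat_lit 0) (nat_lit 6) (nat_lit 0x100540) (nat_lit 0x10000000000000000000100010001000000000000))) (.non (nat_lit 0) (nat_lit 5) (nat_lit 0x100140) (nat_lit 0x10000000000000000000000010001000000000000))) (.non (nat_lit 0) (nat_lit 5) (nat_lit 0x100150) (nat_lit 0x10000000000000000000000010001000100000000))) (.non (nat_lit 0) (nat_lit 5) (nat_lit 0x100154) (nat_lit 0x10000000000000000000000010001000100010000))) (.non (nat_lit 2) (nat_lit 5) (nat_lit 0x100145) (nat_lit 0x30000000000000000000000020001000000030004))))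

noncomputable def t1547_23 : Tr := (.ex (nat_lit 1) (.split (nat_lit 4) (nat_lit 3) (.split (nat_lit 5) (nat_lit 3) (.pd (.cons (nat_lit 2) (nat_lit 5) (nat_lit 0) (nat_lit 0x7766033000) (nat_lit 0xf423ff423f7a11d7a11b00000f423fb71ae00000f423f54591) (.cons (nat_lit 2) (nat_lit 6) (nat_lit 0) (nat_lit 0x7770333000) (nat_lit 0xf423ff423f7a11d00000f423ff423f7a11d00000f423f54591) (.cons (nat_lit 3) (nat_lit 5) (nat_lit 0) (nat_lit 0x7766040100) (nat_lit 0xf423ff423f7a11d7a11b00000f423f00000f423fb71ae1f156) (.cons (nat_lit 3) (nat_lit 6) (nat_lit 0) (nat_lit 0x7770540100) (nat_lit 0xf423ff423f7a11d00000f423ff423f00000f423fb71ae1f156) (.cons (nat_lit 4) (nat_lit 5) (nat_lit 0) (nat_lit 0x7766002100) (nat_lit 0xf423ff423f7a11d7a11b0000000000f423fb71aea2c2804737) .nil))))) t1547_22) (.non (nat_lit 0) (nat_lit 6) (nat_lit 0x950) (nat_lit 0x100010002000100000000))) (.non (nat_lit 0) (nat_lit 6) (nat_lit 0x650) (nat_lit 0x100010002000100000000))) (.split (nat_lit 0xa) (nat_lit 2) (.split (nat_lit 0xa) (nat_lit 3)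 (.split (nat_lit 0xa) (nat_lit 4) (.split (nat_lit 0xa) (nat_lit 5) (.split (nat_lit 0xa) (nat_lit 6) (.split (nat_lit 0xa) (nat_lit 7) (.split (nat_lit 0xa) (nat_lit 0) (.split (nat_lit 0xa) (nat_lit 8) (.split (nat_lit 0xa) (nat_lit 9) (.unj (nat_lit 0x100015) (nat_lit 0x10000000000000000000000000000000100020002) (nat_lit 0x55400) (nat_lit 0x1000100020002000200000000000000000000)) (.sup (nat_lit 0x30000000000000000000000000000000100050004) (nat_lit 0x30005000500000001000000000000))) (.split (nat_lit 0xa) (nat_lit 9) (.sup (nat_lit 0x30000000000000000000000000000000100050004) (nat_lit 0x30005000500000001000000000000)) (.non (nat_lit 0) (nat_lit 5) (nat_lit 0x154000) (nat_lit 0x10001000100010000000000000000000000000000)))) (.split (nat_lit 0xa) (nat_lit 8) (.split (nat_lit 0xa) (nat_lit 9) (.unj (nat_lit 0x100005) (nat_lit 0x10000000000000000000000000000000000010001) (nat_lit 0x5440) (nat_lit 0x10002000200000001000000000000)) (.unj (nat_lit 0x100005) (nat_lit 0x10000000000000000000000000000000000010001)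 (nat_lit 0x5440) (nat_lit 0x10002000200000001000000000000))) (.split (nat_lit 0xa) (nat_lit 9) (.unj (nat_lit 0x100005) (nat_lit 0x10000000000000000000000000000000000010001) (nat_lit 0x5440) (nat_lit 0x10002000200000001000000000000)) (.non (nat_lit 0) (nat_lit 5) (nat_lit 0x154000) (nat_lit 0x10001000100010000000000000000000000000000))))) (.non (nat_lit 0) (nat_lit 5) (nat_lit 0x155000) (nat_lit 0x10001000100020001000000000000000000000000))) (.star (nat_lit 0xa) (nat_lit 1) (nat_lit 6))) (.star (nat_lit 0xa) (nat_lit 1) (nat_lit 5))) (.non (nat_lit 0) (nat_lit 5) (nat_lit 0x100154) (nat_lit 0x10000000000000000000000010001000100010000))) (.non (nat_lit 0) (nat_lit 5) (nat_lit 0x100054) (nat_lit 0x10000000000000000000000000001000100010000))) (.non (nat_lit 0) (nat_lit 5) (nat_lit 0x100014) (nat_lit 0x10000000000000000000000000000000100010000))))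

noncomputable def t1547_24 : Tr := (.st (nat_lit 3) (nat_lit 0) (nat_lit 6) (nat_lit 0x550) (nat_lit 0x100010002000100000000) (nat_lit 1) (nat_lit 1) (.ex (nat_lit 0) t1547_23 (.split (nat_lit 0xa) (nat_lit 2) (.split (nat_lit 0xa) (nat_lit 3) (.split (nat_lit 0xa) (nat_lit 5) (.split (nat_lit 0xa) (nat_lit 6) (.split (nat_lit 0xa) (nat_lit 7) (.split (nat_lit 0xa) (nat_lit 1) (.split (nat_lit 0xa) (nat_lit 4) (.split (nat_lit 0xa) (nat_lit 8) (.split (nat_lit 0xa) (nat_lit 9) (.unj (nat_lit 0x100015) (nat_lit 0x10000000000000000000000000000000100020002) (nat_lit 0x55400) (nat_lit 0x1000100020002000200000000000000000000)) (.sup (nat_lit 0x5000000000000000000000000000000020009000a) (nat_lit 0x5000a000900000002000000000000))) (.split (nat_lit 0xa) (nat_lit 9) (.sup (nat_lit 0x5000000000000000000000000000000020009000a) (nat_lit 0x5000a000900000002000000000000)) (.non (nat_lit 0) (nat_lit 5) (nat_lit 0x154000) (nat_lit 0x10001000100010000000000000000000000000000)))) (.split (nat_lit 0xa) (nat_lit 8) (.split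 (nat_lit 0xa) (nat_lit 9) (.unj (nat_lit 0x100015) (nat_lit 0x10000000000000000000000000000000100020002) (nat_lit 0x55400) (nat_lit 0x1000100020002000200000000000000000000)) (.non (nat_lit 0) (nat_lit 6) (nat_lit 0x154554) (nat_lit 0x40003000100020000000300050006000400020000))) (.non (nat_lit 0) (nat_lit 6) (nat_lit 0x154554) (nat_lit 0x40001000300020000000300050006000400020000)))) (.split (nat_lit 0xa) (nat_lit 4) (.split (nat_lit 0xa) (nat_lit 8) (.split (nat_lit 0xa) (nat_lit 9) (.unj (nat_lit 0x100005) (nat_lit 0x10000000000000000000000000000000000010001) (nat_lit 0x5440) (nat_lit 0x10002000200000001000000000000)) (.unj (nat_lit 0x100005) (nat_lit 0x10000000000000000000000000000000000010001) (nat_lit 0x5440) (nat_lit 0x10002000200000001000000000000))) (.split (nat_lit 0xa) (nat_lit 9) (.unj (nat_lit 0x100005) (nat_lit 0x10000000000000000000000000000000000010001) (nat_lit 0x5440) (nat_lit 0x10002000200000001000000000000)) (.non (nat_lit 0) (nat_lit 5) (nat_lit 0x154000) (nat_lit 0x10001000100010000000000000000000000000000))))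 (.non (nat_lit 0) (nat_lit 5) (nat_lit 0x100154) (nat_lit 0x10000000000000000000000010001000100010000)))) (.non (nat_lit 0) (nat_lit 5) (nat_lit 0x155000) (nat_lit 0x10001000100020001000000000000000000000000))) (.star (nat_lit 0xa) (nat_lit 0) (nat_lit 6))) (.star (nat_lit 0xa) (nat_lit 0) (nat_lit 5))) (.non (nat_lit 0) (nat_lit 6) (nat_lit 0x100550) (nat_lit 0x10000000000000000000100010002000100000000))) (.non (nat_lit 0) (nat_lit 6) (nat_lit 0x100554) (nat_lit 0x10000000000000000000100010002000200010000)))))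

noncomputable def t1547_25 : Tr := (.pd (.cons (nat_lit 2) (nat_lit 5) (nat_lit 0) (nat_lit 0x7764033000) (nat_lit 0xf423ff423f7a11d7a11b000007a1197a11700000f423f54591) (.cons (nat_lit 2) (nat_lit 6) (nat_lit 0) (nat_lit 0x7770533000) (nat_lit 0xf423ff423f7a11d00000f423ff423fb71ae00000f423f54591) (.cons (nat_lit 3) (nat_lit 5) (nat_lit 0) (nat_lit 0x7764040100) (nat_lit 0xf423ff423f7a11d7a11b000007a11900000f423fb71ae1f156) (.cons (nat_lit 3) (nat_lit 6) (nat_lit 0) (nat_lit 0x7770540100) (nat_lit 0xf423ff423f7a11d00000f423ff423f00000f423fb71ae1f156) (.cons (nat_lit 4) (nat_lit 5) (nat_lit 0) (nat_lit 0x7766002100) (nat_lit 0xf423ff423f7a11d7a11b0000000000f423fb71aea2c2804737) (.cons (nat_lit 4) (nat_lit 6) (nat_lit 0) (nat_lit 0x7770502100) (nat_lit 0xf423ff423f7a11d00000f423f00000f423fb71aea2c2804737) .nil)))))) (.ex (nat_lit 5) (.pd (.cons (nat_lit 2) (nat_lit 7) (nat_lit 0) (nat_lit 0x9804633000) (nat_lit 0xf423ff423f0000054591f423f437a2174ea00000f423f54591) (.cons (nat_lit 3) (nat_lit 7) (nat_lit 0)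 (nat_lit 0x9804640100) (nat_lit 0xf423ff423f0000054591f423f437a200000f423fb71ae1f156) (.cons (nat_lit 4) (nat_lit 7) (nat_lit 0) (nat_lit 0x9805502100) (nat_lit 0xf423ff423f00000f423f5459100000f423fb71aea2c2804737) (.cons (nat_lit 4) (nat_lit 8) (nat_lit 0) (nat_lit 0x7065502100) (nat_lit 0xf423f00000b71aea2c280473700000f423fb71aea2c2804737) (.cons (nat_lit 4) (nat_lit 9) (nat_lit 0) (nat_lit 0x765502100) (nat_lit 0xf423fb71aea2c280473700000f423fb71aea2c2804737) .nil))))) (.leaf (.cons (nat_lit 0x1550) (nat_lit 0x4000300030002000100000000) (.cons (nat_lit 0x5500) (nat_lit 0x10002000200010000000000000000) .nil)) (.cons (nat_lit 0x1111011100) (nat_lit 0x100010) (nat_lit 0xa) (nat_lit 0x2103045600) (.cons (nat_lit 0x1111011000) (nat_lit 0x100100) (nat_lit 9) (nat_lit 0x2103045000) .nil)))) (.split (nat_lit 0xa) (nat_lit 0) (.split (nat_lit 0xa) (nat_lit 1) (.split (nat_lit 0xa) (nat_lit 2) (.split (nat_lit 0xa) (nat_lit 3) (.split (nat_lit 0xa) (nat_lit 4) (.split (nat_lit 0xa) (nat_lit 6) (.split (nat_lit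 0xa) (nat_lit 7) (.split (nat_lit 0xa) (nat_lit 8) (.split (nat_lit 0xa) (nat_lit 9) (.sup (nat_lit 0x10001000100030003000300000000000000000000) (nat_lit 0x20007000b0010000d)) (.non (nat_lit 0) (nat_lit 5) (nat_lit 0x155154) (nat_lit 0x20004000300060005000000040003000200010000))) (.non (nat_lit 0) (nat_lit 5) (nat_lit 0x155154) (nat_lit 0x20003000400060005000000040003000200010000))) (.non (nat_lit 0) (nat_lit 5) (nat_lit 0x155000) (nat_lit 0x10001000100020001000000000000000000000000))) (.non (nat_lit 0) (nat_lit 5) (nat_lit 0x155100) (nat_lit 0x10001000100020002000000010000000000000000))) (.non (nat_lit 0) (nat_lit 5) (nat_lit 0x155140) (nat_lit 0x10001000100020002000000020001000000000000))) (.non (nat_lit 0) (nat_lit 5) (nat_lit 0x155150) (nat_lit 0x10001000100020002000000020002000100000000))) (.non (nat_lit 0) (nat_lit 5) (nat_lit 0x155154) (nat_lit 0x10001000100020002000000020002000200010000))) (.star (nat_lit 0xa) (nat_lit 1) (nat_lit 5))) (.star (nat_lit 0xa) (nat_lit 0) (nat_lit 5)))))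

noncomputable def t1547_26 : Tr := (.ex (nat_lit 0) (.ex (nat_lit 1) (.split (nat_lit 4) (nat_lit 3) (.split (nat_lit 6) (nat_lit 4) t1547_25 (.non (nat_lit 0) (nat_lit 5) (nat_lit 0xaa100) (nat_lit 0x1000100020002000000020000000000000000))) (.non (nat_lit 0) (nat_lit 5) (nat_lit 0xaa240) (nat_lit 0x1000100020002000000020002000000000000))) (.split (nat_lit 0xa) (nat_lit 2) (.split (nat_lit 0xa) (nat_lit 3) (.split (nat_lit 0xa) (nat_lit 4) (.split (nat_lit 0xa) (nat_lit 5) (.split (nat_lit 0xa) (nat_lit 6) (.split (nat_lit 0xa) (nat_lit 7) (.split (nat_lit 0xa) (nat_lit 8) (.split (nat_lit 0xa) (nat_lit 9) (.split (nat_lit 0xa) (nat_lit 0) (.unj (nat_lit 0x100015) (nat_lit 0x10000000000000000000000000000000100020002) (nat_lit 0x5500) (nat_lit 0x10002000200010000000000000000)) (.unj (nat_lit 0x100005) (nat_lit 0x10000000000000000000000000000000000010001) (nat_lit 0x5500) (nat_lit 0x10002000200010000000000000000))) (.non (nat_lit 0) (nat_lit 5) (nat_lit 0x155144) (nat_lit 0x20003000200040003000000020001000000010000)))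 (.non (nat_lit 0) (nat_lit 5) (nat_lit 0x155144) (nat_lit 0x20002000300040003000000020001000000010000))) (.non (nat_lit 0) (nat_lit 5) (nat_lit 0x155000) (nat_lit 0x10001000100020001000000000000000000000000))) (.star (nat_lit 0xa) (nat_lit 1) (nat_lit 6))) (.star (nat_lit 0xa) (nat_lit 1) (nat_lit 5))) (.non (nat_lit 0) (nat_lit 5) (nat_lit 0x155140) (nat_lit 0x10001000100020002000000020001000000000000))) (.non (nat_lit 0) (nat_lit 5) (nat_lit 0x155150) (nat_lit 0x10001000100020002000000020002000100000000))) (.non (nat_lit 0) (nat_lit 5) (nat_lit 0x100014) (nat_lit 0x10000000000000000000000000000000100010000)))) (.split (nat_lit 0xa) (nat_lit 2) (.split (nat_lit 0xa) (nat_lit 3) (.split (nat_lit 0xa) (nat_lit 4) (.split (nat_lit 0xa) (nat_lit 5) (.split (nat_lit 0xa) (nat_lit 6) (.split (nat_lit 0xa) (nat_lit 7) (.split (nat_lit 0xa) (nat_lit 8) (.split (nat_lit 0xa) (nat_lit 9) (.split (nat_lit 0xa) (nat_lit 1) (.unj (nat_lit 0x100015) (nat_lit 0x10000000000000000000000000000000100020002) (nat_lit 0x5500)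 (nat_lit 0x10002000200010000000000000000)) (.unj (nat_lit 0x100005) (nat_lit 0x10000000000000000000000000000000000010001) (nat_lit 0x5500) (nat_lit 0x10002000200010000000000000000))) (.non (nat_lit 0) (nat_lit 5) (nat_lit 0x155154) (nat_lit 0x20004000300060005000000040003000200010000))) (.non (nat_lit 0) (nat_lit 5) (nat_lit 0x155154) (nat_lit 0x20003000400060005000000040003000200010000))) (.non (nat_lit 0) (nat_lit 5) (nat_lit 0x155000) (nat_lit 0x10001000100020001000000000000000000000000))) (.star (nat_lit 0xa) (nat_lit 0) (nat_lit 6))) (.star (nat_lit 0xa) (nat_lit 0) (nat_lit 5))) (.non (nat_lit 0) (nat_lit 5) (nat_lit 0x155140) (nat_lit 0x10001000100020002000000020001000000000000))) (.non (nat_lit 0) (nat_lit 5) (nat_lit 0x155150) (nat_lit 0x10001000100020002000000020002000100000000))) (.non (nat_lit 0) (nat_lit 5) (nat_lit 0x155154) (nat_lit 0x10001000100020002000000020002000200010000))))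

noncomputable def t1547_27 : Tr := (.ex (nat_lit 0xa) (.ex (nat_lit 0xb) (.split (nat_lit 0xa) (nat_lit 5) (.split (nat_lit 0xb) (nat_lit 0xa) (.pd (.cons (nat_lit 4) (nat_lit 7) (nat_lit 0) (nat_lit 0xa59805502100) (nat_lit 0xf423fb71aef423ff423f00000f423f02f7a00000f423fb71aea2c2804737) .nil) (.leaf (.cons (nat_lit 0x1500) (nat_lit 0x1000100010000000000000000) (.cons (nat_lit 0x105400) (nat_lit 0x10000000000010002000200000000000000000000) .nil)) .nil)) (.leaf (.cons (nat_lit 0x501400) (nat_lit 0x100010000000000000001000100000000000000000000) .nil) .nil)) (.non (nat_lit 0) (nat_lit 6) (nat_lit 0xa00540) (nat_lit 0x100020000000000000000000300020001000000000000))) (.split (nat_lit 0xc) (nat_lit 0) (.split (nat_lit 0xc) (nat_lit 1) (.split (nat_lit 0xc) (nat_lit 2) (.split (nat_lit 0xc) (nat_lit 3) (.split (nat_lit 0xc) (nat_lit 4) (.split (nat_lit 0xc) (nat_lit 5) (.split (nat_lit 0xc) (nat_lit 6) (.split (nat_lit 0xc) (nat_lit 7) (.split (nat_lit 0xc) (nat_lit 8) (.split (nat_lit 0xc) (nat_lit 9) (.split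 (nat_lit 0xc) (nat_lit 0xa) (.leaf (.cons (nat_lit 0x1501400) (nat_lit 0x1000200030000000000000003000400000000000000000000) .nil) .nil) (.non (nat_lit 0) (nat_lit 5) (nat_lit 0x1500000) (nat_lit 0x1000100010000000000000000000000000000000000000000))) (.non (nat_lit 0) (nat_lit 5) (nat_lit 0x1455140) (nat_lit 0x2000100000003000200040003000000020001000000000000))) (.non (nat_lit 0) (nat_lit 5) (nat_lit 0x1455140) (nat_lit 0x2000100000002000300040003000000020001000000000000))) (.non (nat_lit 0) (nat_lit 5) (nat_lit 0x1055000) (nat_lit 0x1000000000001000100020001000000000000000000000000))) (.non (nat_lit 0) (nat_lit 5) (nat_lit 0x1055100) (nat_lit 0x1000000000001000100020002000000010000000000000000))) (.non (nat_lit 0) (nat_lit 6) (nat_lit 0x1500400) (nat_lit 0x1000100010000000000000000000100000000000000000000))) (.non (nat_lit 0) (nat_lit 5) (nat_lit 0x1545140) (nat_lit 0x3000200010001000000020003000000040002000000000000))) (.non (nat_lit 0) (nat_lit 5) (nat_lit 0x1505150) (nat_lit 0x3000200010000000000010002000000030004000200000000)))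 (.non (nat_lit 0) (nat_lit 5) (nat_lit 0x1501154) (nat_lit 0x3000200010000000000000001000000020003000400020000))) (.non (nat_lit 0) (nat_lit 6) (nat_lit 0x1500554) (nat_lit 0x1000100010000000000000000000100010001000100010000))) (.non (nat_lit 2) (nat_lit 5) (nat_lit 0x1500005) (nat_lit 0x3000200010000000000000000000000000000000000030004)))) (.split (nat_lit 0xc) (nat_lit 0) (.split (nat_lit 0xc) (nat_lit 1) (.split (nat_lit 0xc) (nat_lit 2) (.split (nat_lit 0xc) (nat_lit 3) (.split (nat_lit 0xc) (nat_lit 4) (.split (nat_lit 0xc) (nat_lit 5) (.split (nat_lit 0xc) (nat_lit 6) (.split (nat_lit 0xc) (nat_lit 7) (.split (nat_lit 0xc) (nat_lit 8) (.split (nat_lit 0xc) (nat_lit 9) (.split (nat_lit 0xc) (nat_lit 0xb) (.leaf (.cons (nat_lit 0x1501400) (nat_lit 0x1000100020000000000000002000200000000000000000000) .nil) .nil) (.non (nat_lit 0) (nat_lit 5) (nat_lit 0x1500000) (nat_lit 0x1000100010000000000000000000000000000000000000000))) (.non (nat_lit 0) (nat_lit 5) (nat_lit 0x1155140) (nat_lit 0x2000000010003000200040003000000020001000000000000)))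 (.non (nat_lit 0) (nat_lit 5) (nat_lit 0x1155140) (nat_lit 0x2000000010002000300040003000000020001000000000000))) (.non (nat_lit 0) (nat_lit 5) (nat_lit 0x1055000) (nat_lit 0x1000000000001000100020001000000000000000000000000))) (.non (nat_lit 0) (nat_lit 5) (nat_lit 0x1055100) (nat_lit 0x1000000000001000100020002000000010000000000000000))) (.non (nat_lit 0) (nat_lit 6) (nat_lit 0x1100400) (nat_lit 0x1000000010000000000000000000100000000000000000000))) (.non (nat_lit 0) (nat_lit 5) (nat_lit 0x1545140) (nat_lit 0x3000100020001000000020003000000040002000000000000))) (.non (nat_lit 0) (nat_lit 5) (nat_lit 0x1505150) (nat_lit 0x3000100020000000000010002000000030004000200000000))) (.non (nat_lit 0) (nat_lit 5) (nat_lit 0x1501154) (nat_lit 0x3000100020000000000000001000000020003000400020000))) (.non (nat_lit 0) (nat_lit 6) (nat_lit 0x1100554) (nat_lit 0x1000000010000000000000000000100010001000100010000))) (.non (nat_lit 2) (nat_lit 5) (nat_lit 0x1500005) (nat_lit 0x3000100020000000000000000000000000000000000030004))))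

noncomputable def t1547_28 : Tr := (.ex (nat_lit 5) (.ex (nat_lit 0xa) (.split (nat_lit 0xa) (nat_lit 5) (.pd (.cons (nat_lit 4) (nat_lit 7) (nat_lit 0) (nat_lit 0x59805502100) (nat_lit 0xf423ff423ff423f00000f423f1750000000f423fb71aea2c2804737) .nil) (.leaf (.cons (nat_lit 0x1500) (nat_lit 0x1000100010000000000000000) (.cons (nat_lit 0x105400) (nat_lit 0x10000000000010002000200000000000000000000) .nil)) .nil)) (.leaf (.cons (nat_lit 0x101400) (nat_lit 0x10000000000000001000100000000000000000000) .nil) .nil)) (.split (nat_lit 0xb) (nat_lit 0) (.split (nat_lit 0xb) (nat_lit 1) (.split (nat_lit 0xb) (nat_lit 2) (.split (nat_lit 0xb) (nat_lit 3) (.split (nat_lit 0xb) (nat_lit 4) (.split (nat_lit 0xb) (nat_lit 5) (.split (nat_lit 0xb) (nat_lit 6) (.split (nat_lit 0xb) (nat_lit 7) (.split (nat_lit 0xb) (nat_lit 8) (.split (nat_lit 0xb) (nat_lit 9) t1547_27 (.non (nat_lit 0) (nat_lit 5) (nat_lit 0x555140) (nat_lit 0x200010003000200040003000000020001000000000000))) (.non (nat_lit 0) (nat_lit 5) (nat_lit 0x555140)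 (nat_lit 0x200010002000300040003000000020001000000000000))) (.non (nat_lit 0) (nat_lit 5) (nat_lit 0x455000) (nat_lit 0x100000001000100020001000000000000000000000000))) (.non (nat_lit 0) (nat_lit 5) (nat_lit 0x455100) (nat_lit 0x100000001000100020002000000010000000000000000))) (.non (nat_lit 0) (nat_lit 6) (nat_lit 0x500400) (nat_lit 0x100010000000000000000000100000000000000000000))) (.non (nat_lit 0) (nat_lit 5) (nat_lit 0x455140) (nat_lit 0x100000001000100020002000000020001000000000000))) (.non (nat_lit 0) (nat_lit 5) (nat_lit 0x455150) (nat_lit 0x100000001000100020002000000020002000100000000))) (.non (nat_lit 0) (nat_lit 5) (nat_lit 0x545154) (nat_lit 0x400020001000000020003000000040005000600030000))) (.non (nat_lit 0) (nat_lit 6) (nat_lit 0x500554) (nat_lit 0x100010000000000000000000100010001000100010000))) (.non (nat_lit 2) (nat_lit 6) (nat_lit 0x500405) (nat_lit 0x300020000000000000000000100000000000000030004)))) (.split (nat_lit 0xb) (nat_lit 0) (.split (nat_lit 0xb) (nat_lit 1) (.split (nat_lit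 0xb) (nat_lit 2) (.split (nat_lit 0xb) (nat_lit 3) (.split (nat_lit 0xb) (nat_lit 4) (.split (nat_lit 0xb) (nat_lit 6) (.split (nat_lit 0xb) (nat_lit 7) (.split (nat_lit 0xb) (nat_lit 8) (.split (nat_lit 0xb) (nat_lit 9) (.split (nat_lit 0xb) (nat_lit 0xa) (.leaf (.cons (nat_lit 0x501400) (nat_lit 0x100010000000000000002000200000000000000000000) .nil) .nil) (.non (nat_lit 0) (nat_lit 6) (nat_lit 0x500400) (nat_lit 0x100010000000000000000000100000000000000000000))) (.non (nat_lit 0) (nat_lit 5) (nat_lit 0x455154) (nat_lit 0x200000004000300060005000000040003000200010000))) (.non (nat_lit 0) (nat_lit 5) (nat_lit 0x455154) (nat_lit 0x200000003000400060005000000040003000200010000))) (.non (nat_lit 0) (nat_lit 5) (nat_lit 0x455000) (nat_lit 0x100000001000100020001000000000000000000000000))) (.non (nat_lit 0) (nat_lit 5) (nat_lit 0x455100) (nat_lit 0x100000001000100020002000000010000000000000000))) (.non (nat_lit 0) (nat_lit 5) (nat_lit 0x455140) (nat_lit 0x100000001000100020002000000020001000000000000))) (.non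 (nat_lit 0) (nat_lit 5) (nat_lit 0x455150) (nat_lit 0x100000001000100020002000000020002000100000000))) (.non (nat_lit 0) (nat_lit 5) (nat_lit 0x455154) (nat_lit 0x100000001000100020002000000020002000200010000))) (.star (nat_lit 0xb) (nat_lit 1) (nat_lit 5))) (.star (nat_lit 0xb) (nat_lit 0) (nat_lit 5))))

noncomputable def t1547_29 : Tr := (.split (nat_lit 5) (nat_lit 4) (.pd (.cons (nat_lit 2) (nat_lit 5) (nat_lit 0) (nat_lit 0x7764033000) (nat_lit 0xf423ff423f7a11d7a11b000007a1197a11700000f423f54591) (.cons (nat_lit 2) (nat_lit 6) (nat_lit 0) (nat_lit 0x7770433000) (nat_lit 0xf423ff423f7a11d00000f423fb71aea2c2800000f423f54591) (.cons (nat_lit 3) (nat_lit 5) (nat_lit 0) (nat_lit 0x7764040100) (nat_lit 0xf423ff423f7a11d7a11b000007a11900000f423fb71ae1f156) (.cons (nat_lit 3) (nat_lit 6) (nat_lit 0) (nat_lit 0x7770440100) (nat_lit 0xf423ff423f7a11d00000f423fb71ae00000f423fb71ae1f156) (.cons (nat_lit 4) (nat_lit 5) (nat_lit 0) (nat_lit 0x7766002100) (nat_lit 0xf423ff423f7a11d7a11b0000000000f423fb71aea2c2804737)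 (.cons (nat_lit 4) (nat_lit 6) (nat_lit 0) (nat_lit 0x7770502100) (nat_lit 0xf423ff423f7a11d00000f423f00000f423fb71aea2c2804737) .nil)))))) (.ex (nat_lit 5) (.pd (.cons (nat_lit 4) (nat_lit 7) (nat_lit 0) (nat_lit 0x9805502100) (nat_lit 0xf423ff423f00000f423f5459100000f423fb71aea2c2804737) (.cons (nat_lit 4) (nat_lit 8) (nat_lit 0) (nat_lit 0x7065502100) (nat_lit 0xf423f00000b71aea2c280473700000f423fb71aea2c2804737) (.cons (nat_lit 4) (nat_lit 9) (nat_lit 0) (nat_lit 0x765502100) (nat_lit 0xf423fb71aea2c280473700000f423fb71aea2c2804737) .nil))) (.leaf (.cons (nat_lit 0x1500) (nat_lit 0x1000100010000000000000000) .nil) .nil)) (.split (nat_lit 0xa) (nat_lit 0) (.split (nat_lit 0xa) (nat_lit 1) (.split (nat_lit 0xa) (nat_lit 2) (.split (nat_lit 0xa) (nat_lit 3) (.split (nat_lit 0xa) (nat_lit 4) (.split (nat_lit 0xa) (nat_lit 6) (.split (nat_lit 0xa) (nat_lit 7) (.split (nat_lit 0xa) (nat_lit 8) (.split (nat_lit 0xa) (nat_lit 9) t1547_28 (.non (nat_lit 0) (nat_lit 5) (nat_lit 0x155154) (nat_lit 0x20004000300060005000000040003000200010000)))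 (.non (nat_lit 0) (nat_lit 5) (nat_lit 0x155154) (nat_lit 0x20003000400060005000000040003000200010000))) (.non (nat_lit 0) (nat_lit 5) (nat_lit 0x155000) (nat_lit 0x10001000100020001000000000000000000000000))) (.non (nat_lit 0) (nat_lit 5) (nat_lit 0x155100) (nat_lit 0x10001000100020002000000010000000000000000))) (.non (nat_lit 0) (nat_lit 5) (nat_lit 0x155140) (nat_lit 0x10001000100020002000000020001000000000000))) (.non (nat_lit 0) (nat_lit 5) (nat_lit 0x155150) (nat_lit 0x10001000100020002000000020002000100000000))) (.non (nat_lit 0) (nat_lit 5) (nat_lit 0x155154) (nat_lit 0x10001000100020002000000020002000200010000))) (.star (nat_lit 0xa) (nat_lit 1) (nat_lit 5))) (.star (nat_lit 0xa) (nat_lit 0) (nat_lit 5))))) (.split (nat_lit 5) (nat_lit 4) (.pd (.cons (nat_lit 2) (nat_lit 5) (nat_lit 0) (nat_lit 0x7764033000) (nat_lit 0xf423ff423f7a11d7a11b000007a1197a11700000f423f54591) (.cons (nat_lit 2) (nat_lit 6) (nat_lit 0) (nat_lit 0x7770433000) (nat_lit 0xf423ff423f7a11d00000f423f7a11e7a11c00000f423f54591)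 (.cons (nat_lit 3) (nat_lit 5) (nat_lit 0) (nat_lit 0x7764040100) (nat_lit 0xf423ff423f7a11d7a11b000007a11900000f423fb71ae1f156) (.cons (nat_lit 3) (nat_lit 6) (nat_lit 0) (nat_lit 0x7770440100) (nat_lit 0xf423ff423f7a11d00000f423f7a11e00000f423fb71ae1f156) (.cons (nat_lit 4) (nat_lit 5) (nat_lit 0) (nat_lit 0x7766002100) (nat_lit 0xf423ff423f7a11d7a11b0000000000f423fb71aea2c2804737) (.cons (nat_lit 4) (nat_lit 6) (nat_lit 0) (nat_lit 0x7770502100) (nat_lit 0xf423ff423f7a11d00000f423f00000f423fb71aea2c2804737) .nil)))))) (.st (nat_lit 5) (nat_lit 0) (nat_lit 6) (nat_lit 0x950) (nat_lit 0x200030002000100000000) (nat_lit 2) (nat_lit 1) (.pd (.cons (nat_lit 4) (nat_lit 7) (nat_lit 0) (nat_lit 0x9805502100) (nat_lit 0xf423ff423f00000f423f5459100000f423fb71aea2c2804737) (.cons (nat_lit 4) (nat_lit 8) (nat_lit 0) (nat_lit 0x7065502100) (nat_lit 0xf423f00000b71aea2c280473700000f423fb71aea2c2804737) (.cons (nat_lit 4) (nat_lit 9) (nat_lit 0) (nat_lit 0x765502100) (nat_lit 0xf423fb71aea2c280473700000f423fb71aea2c2804737)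 .nil))) (.leaf (.cons (nat_lit 0x1500) (nat_lit 0x1000100010000000000000000) .nil) .nil)))) (.non (nat_lit 0) (nat_lit 6) (nat_lit 0x554) (nat_lit 0x300040003000200010000))))

noncomputable def t1547_30 : Tr := (.ex (nat_lit 0) (.ex (nat_lit 1) (.split (nat_lit 4) (nat_lit 3) (.split (nat_lit 6) (nat_lit 4) t1547_29 (.non (nat_lit 0) (nat_lit 5) (nat_lit 0xaa100) (nat_lit 0x1000100020002000000020000000000000000))) (.non (nat_lit 0) (nat_lit 5) (nat_lit 0xaa240) (nat_lit 0x1000100020002000000020002000000000000))) (.split (nat_lit 0xa) (nat_lit 2) (.split (nat_lit 0xa) (nat_lit 3) (.split (nat_lit 0xa) (nat_lit 4) (.split (nat_lit 0xa) (nat_lit 5) (.split (nat_lit 0xa) (nat_lit 6) (.split (nat_lit 0xa) (nat_lit 7) (.split (nat_lit 0xa) (nat_lit 8) (.split (nat_lit 0xa) (nat_lit 9) (.split (nat_lit 0xa) (nat_lit 0) (.unj (nat_lit 0x1500) (nat_lit 0x1000100010000000000000000) (nat_lit 0x100015) (nat_lit 0x10000000000000000000000000000000100020002)) (.unj (nat_lit 0x100005) (nat_lit 0x10000000000000000000000000000000000010001)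 (nat_lit 0x1500) (nat_lit 0x1000100010000000000000000))) (.non (nat_lit 0) (nat_lit 5) (nat_lit 0x155144) (nat_lit 0x20003000200040003000000020001000000010000))) (.non (nat_lit 0) (nat_lit 5) (nat_lit 0x155144) (nat_lit 0x20002000300040003000000020001000000010000))) (.non (nat_lit 0) (nat_lit 5) (nat_lit 0x155000) (nat_lit 0x10001000100020001000000000000000000000000))) (.star (nat_lit 0xa) (nat_lit 1) (nat_lit 6))) (.star (nat_lit 0xa) (nat_lit 1) (nat_lit 5))) (.non (nat_lit 0) (nat_lit 5) (nat_lit 0x155140) (nat_lit 0x10001000100020002000000020001000000000000))) (.non (nat_lit 0) (nat_lit 5) (nat_lit 0x155150) (nat_lit 0x10001000100020002000000020002000100000000))) (.non (nat_lit 0) (nat_lit 5) (nat_lit 0x100014) (nat_lit 0x10000000000000000000000000000000100010000)))) (.split (nat_lit 0xa) (nat_lit 2) (.split (nat_lit 0xa) (nat_lit 3) (.split (nat_lit 0xa) (nat_lit 4) (.split (nat_lit 0xa) (nat_lit 5) (.split (nat_lit 0xa) (nat_lit 6) (.split (nat_lit 0xa) (nat_lit 7) (.split (nat_lit 0xa) (nat_lit 8)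 (.split (nat_lit 0xa) (nat_lit 9) (.split (nat_lit 0xa) (nat_lit 1) (.unj (nat_lit 0x1500) (nat_lit 0x1000100010000000000000000) (nat_lit 0x100015) (nat_lit 0x10000000000000000000000000000000100020002)) (.unj (nat_lit 0x100005) (nat_lit 0x10000000000000000000000000000000000010001) (nat_lit 0x1500) (nat_lit 0x1000100010000000000000000))) (.non (nat_lit 0) (nat_lit 5) (nat_lit 0x155154) (nat_lit 0x20004000300060005000000040003000200010000))) (.non (nat_lit 0) (nat_lit 5) (nat_lit 0x155154) (nat_lit 0x20003000400060005000000040003000200010000))) (.non (nat_lit 0) (nat_lit 5) (nat_lit 0x155000) (nat_lit 0x10001000100020001000000000000000000000000))) (.star (nat_lit 0xa) (nat_lit 0) (nat_lit 6))) (.star (nat_lit 0xa) (nat_lit 0) (nat_lit 5))) (.non (nat_lit 0) (nat_lit 5) (nat_lit 0x155140) (nat_lit 0x10001000100020002000000020001000000000000))) (.non (nat_lit 0) (nat_lit 5) (nat_lit 0x155150) (nat_lit 0x10001000100020002000000020002000100000000))) (.non (nat_lit 0) (nat_lit 5) (nat_lit 0x155154) (nat_lit 0x10001000100020002000000020002000200010000))))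

noncomputable def t1547_31 : Tr := (.split (nat_lit 6) (nat_lit 4) (.split (nat_lit 5) (nat_lit 3) (.pd (.cons (nat_lit 2) (nat_lit 5) (nat_lit 0) (nat_lit 0x7764033000) (nat_lit 0xf423ff423f7a11d7a11b000007a1197a11700000f423f54591) (.cons (nat_lit 2) (nat_lit 6) (nat_lit 0) (nat_lit 0x7770333000) (nat_lit 0xf423ff423f7a11d00000f423ff423f7a11d00000f423f54591) (.cons (nat_lit 3) (nat_lit 5) (nat_lit 0) (nat_lit 0x7764040100) (nat_lit 0xf423ff423f7a11d7a11b000007a11900000f423fb71ae1f156) (.cons (nat_lit 3) (nat_lit 6) (nat_lit 0) (nat_lit 0x7770540100) (nat_lit 0xf423ff423f7a11d00000f423ff423f00000f423fb71ae1f156) (.cons (nat_lit 4) (nat_lit 5) (nat_lit 0) (nat_lit 0x7766002100) (nat_lit 0xf423ff423f7a11d7a11b0000000000f423fb71aea2c2804737) .nil))))) (.ex (nat_lit 5) (.pd (.cons (nat_lit 3) (nat_lit 7) (nat_lit 0) (nat_lit 0x9804640100) (nat_lit 0xf423ff423f0000054591f423f437a200000f423fb71ae1f156) .nil) (.leaf (.cons (nat_lit 0x1540) (nat_lit 0x1000100010001000000000000) (.cons (nat_lit 0x5500) (nat_lit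 0x10002000200010000000000000000) (.cons (nat_lit 0x455) (nat_lit 0x100000002000300040003) .nil))) .nil)) (.split (nat_lit 0xa) (nat_lit 0) (.split (nat_lit 0xa) (nat_lit 1) (.split (nat_lit 0xa) (nat_lit 2) (.split (nat_lit 0xa) (nat_lit 3) (.split (nat_lit 0xa) (nat_lit 4) (.split (nat_lit 0xa) (nat_lit 6) (.split (nat_lit 0xa) (nat_lit 7) (.split (nat_lit 0xa) (nat_lit 8) (.split (nat_lit 0xa) (nat_lit 9) (.leaf (.cons (nat_lit 0x101500) (nat_lit 0x10000000000000002000200010000000000000000) (.cons (nat_lit 0x455) (nat_lit 0x100000002000300040003) .nil)) .nil) (.non (nat_lit 0) (nat_lit 5) (nat_lit 0x155154) (nat_lit 0x20004000300060005000000040003000200010000))) (.non (nat_lit 0) (nat_lit 5) (nat_lit 0x155154) (nat_lit 0x20003000400060005000000040003000200010000))) (.non (nat_lit 0) (nat_lit 5) (nat_lit 0x155000) (nat_lit 0x10001000100020001000000000000000000000000))) (.non (nat_lit 0) (nat_lit 5) (nat_lit 0x155100) (nat_lit 0x10001000100020002000000010000000000000000))) (.non (nat_lit 0) (nat_lit 5)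 (nat_lit 0x155140) (nat_lit 0x10001000100020002000000020001000000000000))) (.non (nat_lit 0) (nat_lit 5) (nat_lit 0x155150) (nat_lit 0x10001000100020002000000020002000100000000))) (.non (nat_lit 0) (nat_lit 5) (nat_lit 0x155154) (nat_lit 0x10001000100020002000000020002000200010000))) (.star (nat_lit 0xa) (nat_lit 1) (nat_lit 5))) (.star (nat_lit 0xa) (nat_lit 0) (nat_lit 5))))) (.non (nat_lit 0) (nat_lit 6) (nat_lit 0x950) (nat_lit 0x100010002000100000000))) (.non (nat_lit 0) (nat_lit 5) (nat_lit 0xaa100) (nat_lit 0x1000100020002000000020000000000000000)))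

noncomputable def t1547_32 : Tr := (.ex (nat_lit 0) (.ex (nat_lit 1) (.split (nat_lit 4) (nat_lit 3) t1547_31 (.non (nat_lit 0) (nat_lit 5) (nat_lit 0xaa240) (nat_lit 0x1000100020002000000020002000000000000))) (.split (nat_lit 0xa) (nat_lit 2) (.split (nat_lit 0xa) (nat_lit 3) (.split (nat_lit 0xa) (nat_lit 4) (.split (nat_lit 0xa) (nat_lit 5) (.split (nat_lit 0xa) (nat_lit 6) (.split (nat_lit 0xa) (nat_lit 7) (.split (nat_lit 0xa) (nat_lit 8) (.split (nat_lit 0xa) (nat_lit 9) (.split (nat_lit 0xa) (nat_lit 0) (.unj (nat_lit 0x100015) (nat_lit 0x10000000000000000000000000000000100020002) (nat_lit 0x5500) (nat_lit 0x10002000200010000000000000000)) (.unj (nat_lit 0x100005) (nat_lit 0x10000000000000000000000000000000000010001) (nat_lit 0x1540) (nat_lit 0x1000100010001000000000000))) (.non (nat_lit 0) (nat_lit 5) (nat_lit 0x155144) (nat_lit 0x20003000200040003000000020001000000010000))) (.non (nat_lit 0) (nat_lit 5) (nat_lit 0x155144) (nat_lit 0x20002000300040003000000020001000000010000))) (.non (nat_lit 0)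 (nat_lit 5) (nat_lit 0x155000) (nat_lit 0x10001000100020001000000000000000000000000))) (.star (nat_lit 0xa) (nat_lit 1) (nat_lit 6))) (.star (nat_lit 0xa) (nat_lit 1) (nat_lit 5))) (.non (nat_lit 0) (nat_lit 5) (nat_lit 0x155140) (nat_lit 0x10001000100020002000000020001000000000000))) (.non (nat_lit 0) (nat_lit 5) (nat_lit 0x155150) (nat_lit 0x10001000100020002000000020002000100000000))) (.non (nat_lit 0) (nat_lit 5) (nat_lit 0x100014) (nat_lit 0x10000000000000000000000000000000100010000)))) (.split (nat_lit 0xa) (nat_lit 2) (.split (nat_lit 0xa) (nat_lit 3) (.split (nat_lit 0xa) (nat_lit 4) (.split (nat_lit 0xa) (nat_lit 5) (.split (nat_lit 0xa) (nat_lit 6) (.split (nat_lit 0xa) (nat_lit 7) (.split (nat_lit 0xa) (nat_lit 8) (.split (nat_lit 0xa) (nat_lit 9) (.split (nat_lit 0xa) (nat_lit 1) (.unj (nat_lit 0x100015) (nat_lit 0x10000000000000000000000000000000100020002) (nat_lit 0x5500) (nat_lit 0x10002000200010000000000000000)) (.unj (nat_lit 0x100005) (nat_lit 0x10000000000000000000000000000000000010001)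 (nat_lit 0x1540) (nat_lit 0x1000100010001000000000000))) (.non (nat_lit 0) (nat_lit 5) (nat_lit 0x155154) (nat_lit 0x20004000300060005000000040003000200010000))) (.non (nat_lit 0) (nat_lit 5) (nat_lit 0x155154) (nat_lit 0x20003000400060005000000040003000200010000))) (.non (nat_lit 0) (nat_lit 5) (nat_lit 0x155000) (nat_lit 0x10001000100020001000000000000000000000000))) (.star (nat_lit 0xa) (nat_lit 0) (nat_lit 6))) (.star (nat_lit 0xa) (nat_lit 0) (nat_lit 5))) (.non (nat_lit 0) (nat_lit 5) (nat_lit 0x155140) (nat_lit 0x10001000100020002000000020001000000000000))) (.non (nat_lit 0) (nat_lit 5) (nat_lit 0x155150) (nat_lit 0x10001000100020002000000020002000100000000))) (.non (nat_lit 0) (nat_lit 5) (nat_lit 0x155154) (nat_lit 0x10001000100020002000000020002000200010000))))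

noncomputable def t1547_33 : Tr := (.split (nat_lit 6) (nat_lit 4) (.split (nat_lit 5) (nat_lit 3) (.split (nat_lit 5) (nat_lit 4) .uj t1547_3) (.split (nat_lit 5) (nat_lit 4) (.st (nat_lit 2) (nat_lit 0) (nat_lit 6) (nat_lit 0x554) (nat_lit 0x100010002000200010000) (nat_lit 1) (nat_lit 1) t1547_24) (.non (nat_lit 0) (nat_lit 6) (nat_lit 0x540) (nat_lit 0x100010001000000000000)))) (.split (nat_lit 5) (nat_lit 3) (.split (nat_lit 5) (nat_lit 4) (.st (nat_lit 2) (nat_lit 0) (nat_lit 5) (nat_lit 0x55154) (nat_lit 0x1000100020002000000020002000200010000) (nat_lit 1) (nat_lit 1) (.st (nat_lit 3) (nat_lit 0) (nat_lit 5) (nat_lit 0x55150) (nat_lit 0x1000100020002000000020002000100000000) (nat_lit 1) (nat_lit 1) (.st (nat_lit 4) (nat_lit 0) (nat_lit 5) (nat_lit 0x55140) (nat_lit 0x1000100020002000000020001000000000000) (nat_lit 1) (nat_lit 1) (.st (nat_lit 6) (nat_lit 0) (nat_lit 5) (nat_lit 0x55100) (nat_lit 0x1000100020002000000010000000000000000) (nat_lit 1) (nat_lit 1) (.st (nat_lit 8) (nat_lit 0) (nat_lit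 5) (nat_lit 0x55154) (nat_lit 0x3000400060005000000040003000200010000) (nat_lit 1) (nat_lit 2) (.st (nat_lit 9) (nat_lit 0) (nat_lit 5) (nat_lit 0x55154) (nat_lit 0x4000300060005000000040003000200010000) (nat_lit 1) (nat_lit 2) t1547_26)))))) (.st (nat_lit 2) (nat_lit 0) (nat_lit 5) (nat_lit 0x55154) (nat_lit 0x1000100020002000000020002000200010000) (nat_lit 1) (nat_lit 1) (.st (nat_lit 3) (nat_lit 0) (nat_lit 5) (nat_lit 0x55150) (nat_lit 0x1000100020002000000020002000100000000) (nat_lit 1) (nat_lit 1) (.st (nat_lit 6) (nat_lit 0) (nat_lit 5) (nat_lit 0x55100) (nat_lit 0x1000100020002000000010000000000000000) (nat_lit 1) (nat_lit 1) (.st (nat_lit 8) (nat_lit 0) (nat_lit 5) (nat_lit 0x55154) (nat_lit 0x3000400060005000000040003000200010000) (nat_lit 1) (nat_lit 2) (.st (nat_lit 9) (nat_lit 0) (nat_lit 5) (nat_lit 0x55154) (nat_lit 0x4000300060005000000040003000200010000) (nat_lit 1) (nat_lit 2) t1547_30)))))) (.split (nat_lit 5) (nat_lit 4) (.st (nat_lit 2) (nat_lit 0) (nat_lit 5) (nat_lit 0x55154) (nat_lit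 0x1000100020002000000020002000200010000) (nat_lit 1) (nat_lit 1) (.st (nat_lit 3) (nat_lit 0) (nat_lit 5) (nat_lit 0x55150) (nat_lit 0x1000100020002000000020002000100000000) (nat_lit 1) (nat_lit 1) (.st (nat_lit 4) (nat_lit 0) (nat_lit 5) (nat_lit 0x55140) (nat_lit 0x1000100020002000000020001000000000000) (nat_lit 1) (nat_lit 1) (.st (nat_lit 6) (nat_lit 0) (nat_lit 5) (nat_lit 0x55100) (nat_lit 0x1000100020002000000010000000000000000) (nat_lit 1) (nat_lit 1) t1547_32)))) (.non (nat_lit 0) (nat_lit 6) (nat_lit 0x540) (nat_lit 0x100010001000000000000)))))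

noncomputable def t1547_34 : Tr := (.ex (nat_lit 0) (.split (nat_lit 4) (nat_lit 3) (.split (nat_lit 8) (nat_lit 4) (.split (nat_lit 5) (nat_lit 3) (.pd (.cons (nat_lit 2) (nat_lit 5) (nat_lit 0) (nat_lit 0x7487033000) (nat_lit 0xf423f7a11b7a11df423f000007a1197a11700000f423f54591) (.cons (nat_lit 2) (nat_lit 6) (nat_lit 0) (nat_lit 0x7480333000) (nat_lit 0xf423fa2c28b71ae00000f423f989655572c00000f423f54591) (.cons (nat_lit 3) (nat_lit 5) (nat_lit 0) (nat_lit 0x7487040100) (nat_lit 0xf423f7a11b7a11df423f000007a11900000f423fb71ae1f156) (.cons (nat_lit 3) (nat_lit 6) (nat_lit 0) (nat_lit 0x7480540100) (nat_lit 0xf423fa2c28b71ae00000f423f9896500000f423fb71ae1f156) (.cons (nat_lit 3) (nat_lit 7) (nat_lit 0) (nat_lit 0x9405540100) (nat_lit 0xf423ff423f00000f423f54591b71ae00000f423fb71ae1f156) (.cons (nat_lit 3) (nat_lit 8) (nat_lit 0) (nat_lit 0x7065540100) (nat_lit 0xf423f00000b71aea2c2804737f423f00000f423fb71ae1f156) (.cons (nat_lit 4) (nat_lit 5) (nat_lit 0) (nat_lit 0x7766002100) (nat_lit 0xf423ff423f7a11d7a11b0000000000f423fb71aea2c2804737)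 .nil))))))) (.leaf (.cons (nat_lit 0x11540) (nat_lit 0x100000003000400020003000000000000) (.cons (nat_lit 0x5440) (nat_lit 0x10002000200000001000000000000) (.cons (nat_lit 0x15500) (nat_lit 0x200030004000300010000000000000000) (.cons (nat_lit 0x455) (nat_lit 0x100000002000300040003) .nil)))) (.cons (nat_lit 0x1110111110) (nat_lit 0x1000001) (nat_lit 0xe) (nat_lit 0x7560140230) (.cons (nat_lit 0x1110111000) (nat_lit 0x1000100) (nat_lit 4) (nat_lit 0x5340021000) .nil)))) (.non (nat_lit 0) (nat_lit 6) (nat_lit 0x950) (nat_lit 0x100010002000100000000))) (.non (nat_lit 0) (nat_lit 5) (nat_lit 0xaa100) (nat_lit 0x1000200020001000000020000000000000000))) (.non (nat_lit 0) (nat_lit 5) (nat_lit 0xaa240) (nat_lit 0x1000200020001000000020002000000000000))) (.split (nat_lit 0xa) (nat_lit 1) (.split (nat_lit 0xa) (nat_lit 2) (.split (nat_lit 0xa) (nat_lit 3) (.split (nat_lit 0xa) (nat_lit 4) (.split (nat_lit 0xa) (nat_lit 5) (.split (nat_lit 0xa) (nat_lit 6) (.split (nat_lit 0xa) (nat_lit 7) (.split (nat_lit 0xa) (nat_lit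 8) (.split (nat_lit 0xa) (nat_lit 9) (.unj (nat_lit 0x100015) (nat_lit 0x10000000000000000000000000000000100020002) (nat_lit 0x15500) (nat_lit 0x200030004000300010000000000000000)) (.non (nat_lit 0) (nat_lit 5) (nat_lit 0x155154) (nat_lit 0x20004000500060003000000040003000200010000))) (.non (nat_lit 0) (nat_lit 5) (nat_lit 0x155100) (nat_lit 0x10001000200020001000000010000000000000000))) (.non (nat_lit 0) (nat_lit 5) (nat_lit 0x155000) (nat_lit 0x10001000100020001000000000000000000000000))) (.star (nat_lit 0xa) (nat_lit 0) (nat_lit 6))) (.star (nat_lit 0xa) (nat_lit 0) (nat_lit 5))) (.non (nat_lit 0) (nat_lit 5) (nat_lit 0x155140) (nat_lit 0x10001000200020001000000020001000000000000))) (.non (nat_lit 0) (nat_lit 5) (nat_lit 0x155150) (nat_lit 0x10001000200020001000000020002000100000000))) (.non (nat_lit 0) (nat_lit 5) (nat_lit 0x155154) (nat_lit 0x10001000200020001000000020002000200010000))) (.non (nat_lit 0) (nat_lit 6) (nat_lit 0x114554) (nat_lit 0x10000000200010000000200030004000300020000))))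

noncomputable def t1547_35 : Tr := (.ex (nat_lit 5) (.split (nat_lit 8) (nat_lit 1) (.split (nat_lit 4) (nat_lit 3) (.pd (.cons (nat_lit 0) (nat_lit 7) (nat_lit 0) (nat_lit 0x9105532110) (nat_lit 0xf423ff423f00000f423f54591f423fb71aea2c285b8d400000) (.cons (nat_lit 0) (nat_lit 8) (nat_lit 0) (nat_lit 0x7065532110) (nat_lit 0xf423f00000b71aea2c2804737f423fb71aea2c289896500000) (.cons (nat_lit 1) (nat_lit 7) (nat_lit 0) (nat_lit 0x9805532200) (nat_lit 0xf423ff423f00000f423f54591f423fb71aea2c2800000f423f) (.cons (nat_lit 1) (nat_lit 8) (nat_lit 0) (nat_lit 0x7065532200) (nat_lit 0xf423f00000b71aea2c2804737f423fb71aea2c2800000f423f) (.cons (nat_lit 1) (nat_lit 9) (nat_lit 0) (nat_lit 0x765532200) (nat_lit 0xf423fb71aea2c2804737f423fb71aea2c2800000f423f) (.cons (nat_lit 2) (nat_lit 7) (nat_lit 0) (nat_lit 0x9105533000) (nat_lit 0xf423ff423f00000f423f54591f423fb71ae00000b71ae1f156) (.cons (nat_lit 2) (nat_lit 8) (nat_lit 0) (nat_lit 0x7065533000) (nat_lit 0xf423f00000b71aea2c2804737f423fb71ae00000f423f54591)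 (.cons (nat_lit 3) (nat_lit 8) (nat_lit 0) (nat_lit 0x7065540100) (nat_lit 0xf423f00000b71aea2c2804737f423f00000f423fb71ae1f156) (.cons (nat_lit 4) (nat_lit 8) (nat_lit 0) (nat_lit 0x7065502100) (nat_lit 0xf423f00000b71aea2c280473700000f423fb71aea2c2804737) .nil))))))))) (.leaf (.cons (nat_lit 0x15404) (nat_lit 0x200030004000300000000000000010000) (.cons (nat_lit 0x54005) (nat_lit 0x1000300020000000000000000000000040003) (.cons (nat_lit 0x10015) (nat_lit 0x100000000000000000000000100020002) .nil))) .nil)) (.non (nat_lit 0) (nat_lit 5) (nat_lit 0x55254) (nat_lit 0x1000200020001000000010002000200020000))) (.non (nat_lit 0) (nat_lit 5) (nat_lit 0xaa004) (nat_lit 0x1000200020001000000000000000000020000))) (.split (nat_lit 0xa) (nat_lit 0) (.split (nat_lit 0xa) (nat_lit 1) (.split (nat_lit 0xa) (nat_lit 2) (.split (nat_lit 0xa) (nat_lit 3) (.split (nat_lit 0xa) (nat_lit 6) (.split (nat_lit 0xa) (nat_lit 7) (.split (nat_lit 0xa) (nat_lit 8) (.split (nat_lit 0xa) (nat_lit 9) (.split (nat_lit 0xa) (nat_lit 4) (.unj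 (nat_lit 0x105400) (nat_lit 0x10000000000010002000200000000000000000000) (nat_lit 0x155) (nat_lit 0x10002000300040003)) (.sup (nat_lit 0x100000000000000000000000300050004) (nat_lit 0x30000000000010005000500000000000000000000))) (.non (nat_lit 0) (nat_lit 5) (nat_lit 0x155154) (nat_lit 0x20004000500060003000000010002000300040000))) (.non (nat_lit 0) (nat_lit 5) (nat_lit 0x155004) (nat_lit 0x10001000200020001000000000000000000010000))) (.non (nat_lit 0) (nat_lit 5) (nat_lit 0x155000) (nat_lit 0x10001000100020001000000000000000000000000))) (.non (nat_lit 0) (nat_lit 5) (nat_lit 0x155154) (nat_lit 0x20003000500060004000000010002000300040000))) (.non (nat_lit 0) (nat_lit 5) (nat_lit 0x155154) (nat_lit 0x10001000200020001000000010002000200020000))) (.non (nat_lit 0) (nat_lit 5) (nat_lit 0x155054) (nat_lit 0x10001000200020001000000000001000200020000))) (.star (nat_lit 0xa) (nat_lit 1) (nat_lit 5))) (.star (nat_lit 0xa) (nat_lit 0) (nat_lit 5))))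

noncomputable def t1547_36 : Tr := (.st (nat_lit 9) (nat_lit 0) (nat_lit 5) (nat_lit 0x55154) (nat_lit 0x4000500060003000000010002000300040000) (nat_lit 1) (nat_lit 2) (.ex (nat_lit 0) (.split (nat_lit 8) (nat_lit 1) (.split (nat_lit 4) (nat_lit 3) (.split (nat_lit 5) (nat_lit 3) (.pd (.cons (nat_lit 2) (nat_lit 7) (nat_lit 0) (nat_lit 0x9105333000) (nat_lit 0xf423ff423f00000f423f54591f423f0671100000b71ae1f156) (.cons (nat_lit 3) (nat_lit 8) (nat_lit 0) (nat_lit 0x7065540100) (nat_lit 0xf423f00000b71aea2c2804737f423f00000f423fb71ae1f156) .nil)) (.leaf (.cons (nat_lit 0x1550) (nat_lit 0x2000200010002000100000000) (.cons (nat_lit 0x54005) (nat_lit 0x1000300020000000000000000000000040003) (.cons (nat_lit 0x5440) (nat_lit 0x10002000200000001000000000000) (.cons (nat_lit 0x10015) (nat_lit 0x100000000000000000000000100020002) .nil)))) (.cons (nat_lit 0x1111011110) (nat_lit 0x100001) (nat_lit 0xb) (nat_lit 0x2301076540) (.cons (nat_lit 0x1110111110) (nat_lit 0x1000001) (nat_lit 0xb) (nat_lit 0x7560210340) .nil))))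 (.non (nat_lit 0) (nat_lit 6) (nat_lit 0x950) (nat_lit 0x100010002000100000000))) (.non (nat_lit 0) (nat_lit 5) (nat_lit 0x55254) (nat_lit 0x1000200020001000000010002000200020000))) (.non (nat_lit 0) (nat_lit 5) (nat_lit 0xaa004) (nat_lit 0x1000200020001000000000000000000020000))) (.split (nat_lit 0xa) (nat_lit 1) (.split (nat_lit 0xa) (nat_lit 2) (.split (nat_lit 0xa) (nat_lit 3) (.split (nat_lit 0xa) (nat_lit 4) (.split (nat_lit 0xa) (nat_lit 5) (.split (nat_lit 0xa) (nat_lit 6) (.split (nat_lit 0xa) (nat_lit 7) (.split (nat_lit 0xa) (nat_lit 8) (.split (nat_lit 0xa) (nat_lit 9) (.sup (nat_lit 0x5000000000000000000000000000000020009000a) (nat_lit 0x5000a000900000002000000000000)) (.non (nat_lit 0) (nat_lit 5) (nat_lit 0x155154) (nat_lit 0x20004000500060003000000010002000300040000))) (.non (nat_lit 0) (nat_lit 5) (nat_lit 0x155004) (nat_lit 0x10001000200020001000000000000000000010000))) (.non (nat_lit 0) (nat_lit 5) (nat_lit 0x155000) (nat_lit 0x10001000100020001000000000000000000000000))) (.star (nat_lit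 0xa) (nat_lit 0) (nat_lit 6))) (.star (nat_lit 0xa) (nat_lit 0) (nat_lit 5))) (.non (nat_lit 0) (nat_lit 6) (nat_lit 0x154554) (nat_lit 0x20001000300020000000300040006000500040000))) (.non (nat_lit 0) (nat_lit 5) (nat_lit 0x155154) (nat_lit 0x10001000200020001000000010002000200020000))) (.non (nat_lit 0) (nat_lit 5) (nat_lit 0x155054) (nat_lit 0x10001000200020001000000000001000200020000))) (.non (nat_lit 0) (nat_lit 5) (nat_lit 0x155014) (nat_lit 0x10001000200020001000000000000000100020000)))))

noncomputable def t1547_37 : Tr := (.split (nat_lit 5) (nat_lit 3) (.split (nat_lit 5) (nat_lit 4) (.st (nat_lit 1) (nat_lit 0) (nat_lit 5) (nat_lit 0x55014) (nat_lit 0x1000200020001000000000000000100020000) (nat_lit 1) (nat_lit 1) (.st (nat_lit 2) (nat_lit 0) (nat_lit 5) (nat_lit 0x55054) (nat_lit 0x1000200020001000000000001000200020000) (nat_lit 1) (nat_lit 1) (.st (nat_lit 3) (nat_lit 0) (nat_lit 5) (nat_lit 0x55154) (nat_lit 0x1000200020001000000010002000200020000) (nat_lit 1) (nat_lit 1) (.st (nat_lit 6) (nat_lit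 0) (nat_lit 5) (nat_lit 0x55154) (nat_lit 0x3000500060004000000010002000300040000) (nat_lit 1) (nat_lit 2) (.st (nat_lit 8) (nat_lit 0) (nat_lit 5) (nat_lit 0x55004) (nat_lit 0x1000200020001000000000000000000010000) (nat_lit 1) (nat_lit 1) (.st (nat_lit 9) (nat_lit 0) (nat_lit 5) (nat_lit 0x55154) (nat_lit 0x4000500060003000000010002000300040000) (nat_lit 1) (nat_lit 2) (.ex (nat_lit 0) t1547_35 (.split (nat_lit 0xa) (nat_lit 1) (.split (nat_lit 0xa) (nat_lit 2) (.split (nat_lit 0xa) (nat_lit 3) (.split (nat_lit 0xa) (nat_lit 5) (.split (nat_lit 0xa) (nat_lit 6) (.split (nat_lit 0xa) (nat_lit 7) (.split (nat_lit 0xa) (nat_lit 8) (.split (nat_lit 0xa) (nat_lit 9) (.split (nat_lit 0xa) (nat_lit 4) (.sup (nat_lit 0x2800000000000000000000000000000025004a0050) (nat_lit 0x1c000300370050004100000000000000000000)) (.sup (nat_lit 0x2800000000000000000000000000000025004a0050) (nat_lit 0x1c000300370050004100000000000000000000))) (.non (nat_lit 0) (nat_lit 5) (nat_lit 0x155154) (nat_lit 0x20004000500060003000000010002000300040000)))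 (.non (nat_lit 0) (nat_lit 5) (nat_lit 0x155004) (nat_lit 0x10001000200020001000000000000000000010000))) (.non (nat_lit 0) (nat_lit 5) (nat_lit 0x155000) (nat_lit 0x10001000100020001000000000000000000000000))) (.star (nat_lit 0xa) (nat_lit 0) (nat_lit 6))) (.star (nat_lit 0xa) (nat_lit 0) (nat_lit 5))) (.non (nat_lit 0) (nat_lit 5) (nat_lit 0x155154) (nat_lit 0x10001000200020001000000010002000200020000))) (.non (nat_lit 0) (nat_lit 5) (nat_lit 0x155054) (nat_lit 0x10001000200020001000000000001000200020000))) (.non (nat_lit 0) (nat_lit 5) (nat_lit 0x155014) (nat_lit 0x10001000200020001000000000000000100020000)))))))))) (.sup (nat_lit 0x100000000000000000000000300050004) (nat_lit 0x10005000500030000000000000000))) (.split (nat_lit 5) (nat_lit 4) (.st (nat_lit 1) (nat_lit 0) (nat_lit 5) (nat_lit 0x55014) (nat_lit 0x1000200020001000000000000000100020000) (nat_lit 1) (nat_lit 1) (.st (nat_lit 2) (nat_lit 0) (nat_lit 5) (nat_lit 0x55054) (nat_lit 0x1000200020001000000000001000200020000) (nat_lit 1) (nat_lit 1)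 (.st (nat_lit 3) (nat_lit 0) (nat_lit 5) (nat_lit 0x55154) (nat_lit 0x1000200020001000000010002000200020000) (nat_lit 1) (nat_lit 1) (.st (nat_lit 4) (nat_lit 0) (nat_lit 6) (nat_lit 0x54554) (nat_lit 0x1000300020000000300040006000500040000) (nat_lit 1) (nat_lit 2) (.st (nat_lit 5) (nat_lit 0) (nat_lit 6) (nat_lit 0x54554) (nat_lit 0x1000300020000000400030006000500040000) (nat_lit 1) (nat_lit 2) (.st (nat_lit 6) (nat_lit 0) (nat_lit 5) (nat_lit 0x55154) (nat_lit 0x3000500060004000000010002000300040000) (nat_lit 1) (nat_lit 2) (.st (nat_lit 8) (nat_lit 0) (nat_lit 5) (nat_lit 0x55004) (nat_lit 0x1000200020001000000000000000000010000) (nat_lit 1) (nat_lit 1) t1547_36))))))) (.non (nat_lit 0) (nat_lit 6) (nat_lit 0x540) (nat_lit 0x100010001000000000000))))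

noncomputable def t1547_38 : Tr := (.split (nat_lit 0xc) (nat_lit 0) (.split (nat_lit 0xc) (nat_lit 1) (.split (nat_lit 0xc) (nat_lit 2) (.split (nat_lit 0xc) (nat_lit 3) (.split (nat_lit 0xc) (nat_lit 4) (.split (nat_lit 0xc) (nat_lit 5) (.split (nat_lit 0xc) (nat_lit 6) (.split (nat_lit 0xc) (nat_lit 7) (.split (nat_lit 0xc) (nat_lit 8) (.split (nat_lit 0xc) (nat_lit 9) (.split (nat_lit 0xc) (nat_lit 0xa) (.st (nat_lit 0xb) (nat_lit 0) (nat_lit 5) (nat_lit 0x1555000) (nat_lit 0x1000200020002000100020001000000000000000000000000) (nat_lit 1) (nat_lit 1) (.st (nat_lit 0xc) (nat_lit 1) (nat_lit 5) (nat_lit 0x1555001) (nat_lit 0x2000300040005000400060003000000000000000000000002) (nat_lit 1) (nat_lit 1) (.split (nat_lit 0xc) (nat_lit 0xb) (.leaf (.cons (nat_lit 0x1550) (nat_lit 0x2000200010002000100000000) (.cons (nat_lit 0x54005) (nat_lit 0x1000300020000000000000000000000030004) (.cons (nat_lit 0x145400) (nat_lit 0x10002000000030004000300000000000000000000) (.cons (nat_lit 0x5440) (nat_lit 0x10002000200000001000000000000)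 (.cons (nat_lit 0x10015) (nat_lit 0x100000000000000000000000100020002) .nil))))) (.cons (nat_lit 0x111110) (nat_lit 0x1000001) (nat_lit 8) (nat_lit 0x210340) (.cons (nat_lit 0x1111111000001) (nat_lit 0x100010) (nat_lit 0xe) (nat_lit 0x7654201000003) .nil))) (.non (nat_lit 0) (nat_lit 5) (nat_lit 0x2555000) (nat_lit 0x1000200020002000100020001000000000000000000000000))))) (.non (nat_lit 0) (nat_lit 5) (nat_lit 0x1500000) (nat_lit 0x1000100010000000000000000000000000000000000000000))) (.non (nat_lit 0) (nat_lit 5) (nat_lit 0x1540000) (nat_lit 0x1000100010001000000000000000000000000000000000000))) (.non (nat_lit 0) (nat_lit 5) (nat_lit 0x1554000) (nat_lit 0x1000100010001000100010000000000000000000000000000))) (.non (nat_lit 0) (nat_lit 5) (nat_lit 0x1544000) (nat_lit 0x1000100010001000000010000000000000000000000000000))) (.non (nat_lit 0) (nat_lit 5) (nat_lit 0x1545000) (nat_lit 0x1000100010001000000010001000000000000000000000000))) (.non (nat_lit 0) (nat_lit 6) (nat_lit 0x1540554) (nat_lit 0x4000300020001000000000000000500030006000400020000)))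 (.non (nat_lit 0) (nat_lit 6) (nat_lit 0x1540554) (nat_lit 0x4000300020001000000000000000300050006000400020000))) (.non (nat_lit 0) (nat_lit 5) (nat_lit 0x1555150) (nat_lit 0x2000200020002000100020001000000010002000100000000))) (.non (nat_lit 0) (nat_lit 5) (nat_lit 0x1555054) (nat_lit 0x2000200020002000100020001000000000001000200010000))) (.non (nat_lit 2) (nat_lit 7) (nat_lit 0x1500005) (nat_lit 0x3000200010000000000000000000000000000000000040003))) (.non (nat_lit 1) (nat_lit 5) (nat_lit 0x1554001) (nat_lit 0x1000100010001000100010000000000000000000000000001)))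

noncomputable def t1547_39 : Tr := (.ex (nat_lit 0xa) (.leaf (.cons (nat_lit 0x1550) (nat_lit 0x2000200010002000100000000) (.cons (nat_lit 0x54005) (nat_lit 0x1000300020000000000000000000000030004) (.cons (nat_lit 0x145400) (nat_lit 0x10002000000030004000300000000000000000000) (.cons (nat_lit 0x5440) (nat_lit 0x10002000200000001000000000000) (.cons (nat_lit 0x10015) (nat_lit 0x100000000000000000000000100020002) .nil))))) (.cons (nat_lit 0x11111000001) (nat_lit 0x100010) (nat_lit 0xc) (nat_lit 0x54201000003) .nil)) (.split (nat_lit 0xb) (nat_lit 0) (.split (nat_lit 0xb) (nat_lit 1) (.split (nat_lit 0xb) (nat_lit 2) (.split (nat_lit 0xb) (nat_lit 3) (.split (nat_lit 0xb) (nat_lit 4) (.split (nat_lit 0xb) (nat_lit 5) (.split (nat_lit 0xb) (nat_lit 6) (.split (nat_lit 0xb) (nat_lit 7) (.split (nat_lit 0xb) (nat_lit 8) (.split (nat_lit 0xb) (nat_lit 9) (.st (nat_lit 0xa) (nat_lit 0) (nat_lit 5) (nat_lit 0x555000) (nat_lit 0x100020002000100020001000000000000000000000000) (nat_lit 1) (nat_lit 1) (.split (nat_lit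 0xb) (nat_lit 0xa) (.ex (nat_lit 0xb) (.leaf (.cons (nat_lit 0x1550) (nat_lit 0x2000200010002000100000000) (.cons (nat_lit 0x54005) (nat_lit 0x1000300020000000000000000000000030004) (.cons (nat_lit 0x145400) (nat_lit 0x10002000000030004000300000000000000000000) (.cons (nat_lit 0x5440) (nat_lit 0x10002000200000001000000000000) (.cons (nat_lit 0x10015) (nat_lit 0x100000000000000000000000100020002) .nil))))) (.cons (nat_lit 0x111110) (nat_lit 0x1000001) (nat_lit 8) (nat_lit 0x210340) (.cons (nat_lit 0x111111000001) (nat_lit 0x100010) (nat_lit 0xd) (nat_lit 0x654201000003) .nil))) t1547_38) (.non (nat_lit 0) (nat_lit 5) (nat_lit 0x955000) (nat_lit 0x100020002000100020001000000000000000000000000)))) (.non (nat_lit 0) (nat_lit 5) (nat_lit 0x540000) (nat_lit 0x100010001000000000000000000000000000000000000))) (.non (nat_lit 0) (nat_lit 5) (nat_lit 0x554000) (nat_lit 0x100010001000100010000000000000000000000000000))) (.non (nat_lit 0) (nat_lit 5) (nat_lit 0x544000) (nat_lit 0x100010001000000010000000000000000000000000000)))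 (.non (nat_lit 0) (nat_lit 5) (nat_lit 0x545000) (nat_lit 0x100010001000000010001000000000000000000000000))) (.non (nat_lit 0) (nat_lit 6) (nat_lit 0x544554) (nat_lit 0x400030002000000010000000500030006000400020000))) (.non (nat_lit 0) (nat_lit 6) (nat_lit 0x544554) (nat_lit 0x400030002000000010000000300050006000400020000))) (.non (nat_lit 0) (nat_lit 5) (nat_lit 0x555150) (nat_lit 0x200020002000100020001000000010002000100000000))) (.non (nat_lit 0) (nat_lit 5) (nat_lit 0x555054) (nat_lit 0x200020002000100020001000000000001000200010000))) (.non (nat_lit 2) (nat_lit 7) (nat_lit 0x540005) (nat_lit 0x300020001000000000000000000000000000000040003))) (.non (nat_lit 1) (nat_lit 5) (nat_lit 0x554001) (nat_lit 0x100010001000100010000000000000000000000000001))))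

noncomputable def t1547_40 : Tr := (.split (nat_lit 4) (nat_lit 3) (.split (nat_lit 5) (nat_lit 3) (.pd (.cons (nat_lit 2) (nat_lit 7) (nat_lit 0) (nat_lit 0x9005333000) (nat_lit 0xf423ff423f00000f423f54591f423f0671100000f423f17500) .nil) (.ex (nat_lit 9) (.pd (.cons (nat_lit 3) (nat_lit 8) (nat_lit 0) (nat_lit 0x7065540100) (nat_lit 0xf423f00000b71aea2c2804737f423f00000f423fb71ae1f156) .nil) (.leaf (.cons (nat_lit 0x1550) (nat_lit 0x2000200010002000100000000) (.cons (nat_lit 0x54005) (nat_lit 0x1000300020000000000000000000000030004) (.cons (nat_lit 0x5440) (nat_lit 0x10002000200000001000000000000) (.cons (nat_lit 0x10015) (nat_lit 0x100000000000000000000000100020002) .nil)))) (.cons (nat_lit 0x111110) (nat_lit 0x1000001) (nat_lit 8) (nat_lit 0x210340) (.cons (nat_lit 0x1111000001) (nat_lit 0x100010) (nat_lit 8) (nat_lit 0x2301000004) .nil)))) (.split (nat_lit 0xa) (nat_lit 0) (.split (nat_lit 0xa) (nat_lit 1) (.split (nat_lit 0xa) (nat_lit 2) (.split (nat_lit 0xa) (nat_lit 3) (.split (nat_lit 0xa) (nat_lit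 4) (.split (nat_lit 0xa) (nat_lit 5) (.split (nat_lit 0xa) (nat_lit 6) (.split (nat_lit 0xa) (nat_lit 7) (.split (nat_lit 0xa) (nat_lit 8) (.st (nat_lit 9) (nat_lit 0) (nat_lit 5) (nat_lit 0x155000) (nat_lit 0x10002000100020001000000000000000000000000) (nat_lit 1) (nat_lit 1) (.split (nat_lit 0xa) (nat_lit 9) t1547_39 (.non (nat_lit 0) (nat_lit 5) (nat_lit 0x255000) (nat_lit 0x10002000100020001000000000000000000000000)))) (.non (nat_lit 0) (nat_lit 5) (nat_lit 0x154000) (nat_lit 0x10001000100010000000000000000000000000000))) (.non (nat_lit 0) (nat_lit 5) (nat_lit 0x144000) (nat_lit 0x10001000000010000000000000000000000000000))) (.non (nat_lit 0) (nat_lit 5) (nat_lit 0x145000) (nat_lit 0x10001000000010001000000000000000000000000))) (.non (nat_lit 0) (nat_lit 6) (nat_lit 0x154554) (nat_lit 0x40003000100020000000500030006000400020000))) (.non (nat_lit 0) (nat_lit 6) (nat_lit 0x154554) (nat_lit 0x40003000100020000000300050006000400020000))) (.non (nat_lit 0) (nat_lit 5) (nat_lit 0x155150) (nat_lit 0x20002000100020001000000010002000100000000)))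 (.non (nat_lit 0) (nat_lit 5) (nat_lit 0x155054) (nat_lit 0x20002000100020001000000000001000200010000))) (.non (nat_lit 2) (nat_lit 7) (nat_lit 0x110005) (nat_lit 0x10000000100000000000000000000000000020002))) (.non (nat_lit 1) (nat_lit 5) (nat_lit 0x154001) (nat_lit 0x10001000100010000000000000000000000000001))))) (.non (nat_lit 0) (nat_lit 6) (nat_lit 0x950) (nat_lit 0x100010002000100000000))) (.non (nat_lit 0) (nat_lit 6) (nat_lit 0x650) (nat_lit 0x100010002000100000000)))

noncomputable def t1547_41 : Tr := (.ex (nat_lit 5) (.ex (nat_lit 6) (.split (nat_lit 8) (nat_lit 0) t1547_40 (.non (nat_lit 1) (nat_lit 5) (nat_lit 0xaa001) (nat_lit 0x1000200020001000000000000000000000002))) (.split (nat_lit 0xa) (nat_lit 0) (.split (nat_lit 0xa) (nat_lit 1) (.split (nat_lit 0xa) (nat_lit 2) (.split (nat_lit 0xa) (nat_lit 3) (.split (nat_lit 0xa) (nat_lit 4) (.split (nat_lit 0xa) (nat_lit 7) (.split (nat_lit 0xa) (nat_lit 8) (.split (nat_lit 0xa) (nat_lit 9) (.split (nat_lit 0xa) (nat_lit 5) (.sup (nat_lit 0x50000000000000000000000020009000a)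 (nat_lit 0x5000000000000000a000900000002000000000000)) (.unj (nat_lit 0x101400) (nat_lit 0x10000000000000001000100000000000000000000) (nat_lit 0x10015) (nat_lit 0x100000000000000000000000100020002))) (.non (nat_lit 0) (nat_lit 5) (nat_lit 0x145000) (nat_lit 0x10001000000010001000000000000000000000000))) (.non (nat_lit 0) (nat_lit 5) (nat_lit 0x115000) (nat_lit 0x10000000100010001000000000000000000000000))) (.non (nat_lit 0) (nat_lit 5) (nat_lit 0x105000) (nat_lit 0x10000000000010001000000000000000000000000))) (.non (nat_lit 1) (nat_lit 5) (nat_lit 0x155151) (nat_lit 0x40003000400060005000000030002000100000002))) (.non (nat_lit 0) (nat_lit 5) (nat_lit 0x155150) (nat_lit 0x20001000100020002000000010002000100000000))) (.non (nat_lit 0) (nat_lit 5) (nat_lit 0x155054) (nat_lit 0x20001000100020002000000000001000200010000))) (.star (nat_lit 0xa) (nat_lit 1) (nat_lit 6))) (.star (nat_lit 0xa) (nat_lit 0) (nat_lit 6)))) (.split (nat_lit 0xa) (nat_lit 0) (.split (nat_lit 0xa) (nat_lit 1) (.split (nat_lit 0xa) (nat_lit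 2) (.split (nat_lit 0xa) (nat_lit 3) (.split (nat_lit 0xa) (nat_lit 4) (.split (nat_lit 0xa) (nat_lit 7) (.split (nat_lit 0xa) (nat_lit 8) (.split (nat_lit 0xa) (nat_lit 9) (.split (nat_lit 0xa) (nat_lit 6) (.sup (nat_lit 0x300000000000000000000000100050005) (nat_lit 0x30000000000000004000500000001000000000000)) (.unj (nat_lit 0x101400) (nat_lit 0x10000000000000001000100000000000000000000) (nat_lit 0x10015) (nat_lit 0x100000000000000000000000100020002))) (.non (nat_lit 0) (nat_lit 6) (nat_lit 0x154554) (nat_lit 0x40003000100020000000500030006000400020000))) (.non (nat_lit 0) (nat_lit 6) (nat_lit 0x154554) (nat_lit 0x40001000300020000000500030006000400020000))) (.non (nat_lit 0) (nat_lit 5) (nat_lit 0x155000) (nat_lit 0x10001000100020001000000000000000000000000))) (.non (nat_lit 0) (nat_lit 6) (nat_lit 0x100540) (nat_lit 0x10000000000000000000100010001000000000000))) (.non (nat_lit 0) (nat_lit 6) (nat_lit 0x100440) (nat_lit 0x10000000000000000000100000001000000000000))) (.non (nat_lit 0) (nat_lit 6) (nat_lit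 0x100450) (nat_lit 0x10000000000000000000100000001000100000000))) (.star (nat_lit 0xa) (nat_lit 1) (nat_lit 5))) (.star (nat_lit 0xa) (nat_lit 0) (nat_lit 5))))

noncomputable def t1547_42 : Tr := (.split (nat_lit 0xc) (nat_lit 0) (.split (nat_lit 0xc) (nat_lit 1) (.split (nat_lit 0xc) (nat_lit 2) (.split (nat_lit 0xc) (nat_lit 3) (.split (nat_lit 0xc) (nat_lit 4) (.split (nat_lit 0xc) (nat_lit 5) (.split (nat_lit 0xc) (nat_lit 6) (.split (nat_lit 0xc) (nat_lit 7) (.split (nat_lit 0xc) (nat_lit 8) (.split (nat_lit 0xc) (nat_lit 9) (.split (nat_lit 0xc) (nat_lit 0xa) (.st (nat_lit 0xb) (nat_lit 0) (nat_lit 6) (nat_lit 0x1500550) (nat_lit 0x1000200020000000000000000000100020002000100000000) (nat_lit 1) (nat_lit 1) (.st (nat_lit 0xc) (nat_lit 0) (nat_lit 6) (nat_lit 0x1500554) (nat_lit 0x2000300040000000000000000000300050006000400020000) (nat_lit 1) (nat_lit 1) (.split (nat_lit 0xc) (nat_lit 0xb) (.leaf (.cons (nat_lit 0x101540) (nat_lit 0x10000000000000003000400020003000000000000) (.cons (nat_lit 0x54005)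 (nat_lit 0x1000300020000000000000000000000030004) (.cons (nat_lit 0x10015) (nat_lit 0x100000000000000000000000100020002) (.cons (nat_lit 0x5440) (nat_lit 0x10002000200000001000000000000) .nil)))) (.cons (nat_lit 0x1110000111110) (nat_lit 0x1000001) (nat_lit 0xe) (nat_lit 0x7650000140230) (.cons (nat_lit 0x1111000001) (nat_lit 0x100010) (nat_lit 8) (nat_lit 0x2301000004) .nil))) (.non (nat_lit 0) (nat_lit 6) (nat_lit 0x2500550) (nat_lit 0x1000200020000000000000000000100020002000100000000))))) (.non (nat_lit 0) (nat_lit 5) (nat_lit 0x1500000) (nat_lit 0x1000100010000000000000000000000000000000000000000))) (.non (nat_lit 0) (nat_lit 6) (nat_lit 0x1540554) (nat_lit 0x2000300040001000000000000000300050006000400020000))) (.non (nat_lit 0) (nat_lit 6) (nat_lit 0x1510554) (nat_lit 0x2000300040000000100000000000300050006000400020000))) (.non (nat_lit 0) (nat_lit 5) (nat_lit 0x1055000) (nat_lit 0x1000000000001000100020001000000000000000000000000))) (.non (nat_lit 1) (nat_lit 5) (nat_lit 0x1555101) (nat_lit 0x4000300020003000400060005000000010000000000000002)))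 (.non (nat_lit 0) (nat_lit 6) (nat_lit 0x1500540) (nat_lit 0x1000100010000000000000000000100010001000000000000))) (.non (nat_lit 0) (nat_lit 5) (nat_lit 0x1500100) (nat_lit 0x1000100010000000000000000000000010000000000000000))) (.non (nat_lit 0) (nat_lit 5) (nat_lit 0x1500140) (nat_lit 0x1000100010000000000000000000000010001000000000000))) (.non (nat_lit 0) (nat_lit 5) (nat_lit 0x1500150) (nat_lit 0x1000100010000000000000000000000010001000100000000))) (.non (nat_lit 0) (nat_lit 5) (nat_lit 0x1500154) (nat_lit 0x1000100010000000000000000000000010001000100010000))) (.non (nat_lit 3) (nat_lit 8) (nat_lit 0x1500005) (nat_lit 0x3000200010000000000000000000000000000000000030004)))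

noncomputable def t1547_43 : Tr := (.ex (nat_lit 0xa) (.leaf (.cons (nat_lit 0x101540) (nat_lit 0x10000000000000003000400020003000000000000) (.cons (nat_lit 0x54005) (nat_lit 0x1000300020000000000000000000000030004) (.cons (nat_lit 0x10015) (nat_lit 0x100000000000000000000000100020002) (.cons (nat_lit 0x5440) (nat_lit 0x10002000200000001000000000000) .nil)))) (.cons (nat_lit 0x10000111110) (nat_lit 0x1000001) (nat_lit 0xc) (nat_lit 0x50000140230) .nil)) (.split (nat_lit 0xb) (nat_lit 0) (.split (nat_lit 0xb) (nat_lit 1) (.split (nat_lit 0xb) (nat_lit 2) (.split (nat_lit 0xb) (nat_lit 3) (.split (nat_lit 0xb) (nat_lit 4) (.split (nat_lit 0xb) (nat_lit 5) (.split (nat_lit 0xb) (nat_lit 6) (.split (nat_lit 0xb) (nat_lit 7) (.split (nat_lit 0xb) (nat_lit 8) (.split (nat_lit 0xb) (nat_lit 9) (.st (nat_lit 0xa) (nat_lit 0) (nat_lit 6) (nat_lit 0x500550) (nat_lit 0x100020000000000000000000100020002000100000000) (nat_lit 1) (nat_lit 1) (.split (nat_lit 0xb) (nat_lit 0xa) (.ex (nat_lit 0xb) (.leaf (.cons (nat_lit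 0x101540) (nat_lit 0x10000000000000003000400020003000000000000) (.cons (nat_lit 0x54005) (nat_lit 0x1000300020000000000000000000000030004) (.cons (nat_lit 0x10015) (nat_lit 0x100000000000000000000000100020002) (.cons (nat_lit 0x5440) (nat_lit 0x10002000200000001000000000000) .nil)))) (.cons (nat_lit 0x110000111110) (nat_lit 0x1000001) (nat_lit 0xd) (nat_lit 0x650000140230) (.cons (nat_lit 0x1111000001) (nat_lit 0x100010) (nat_lit 8) (nat_lit 0x2301000004) .nil))) t1547_42) (.non (nat_lit 0) (nat_lit 6) (nat_lit 0x900550) (nat_lit 0x100020000000000000000000100020002000100000000)))) (.non (nat_lit 0) (nat_lit 6) (nat_lit 0x544554) (nat_lit 0x300040002000000010000000300050006000400020000))) (.non (nat_lit 0) (nat_lit 6) (nat_lit 0x514554) (nat_lit 0x300040000000200010000000300050006000400020000))) (.non (nat_lit 0) (nat_lit 5) (nat_lit 0x455000) (nat_lit 0x100000001000100020001000000000000000000000000))) (.non (nat_lit 1) (nat_lit 5) (nat_lit 0x555141) (nat_lit 0x400030003000400060005000000020001000000000002)))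 (.non (nat_lit 0) (nat_lit 6) (nat_lit 0x500540) (nat_lit 0x100010000000000000000000100010001000000000000))) (.non (nat_lit 0) (nat_lit 5) (nat_lit 0x500100) (nat_lit 0x100010000000000000000000000010000000000000000))) (.non (nat_lit 0) (nat_lit 5) (nat_lit 0x500140) (nat_lit 0x100010000000000000000000000010001000000000000))) (.non (nat_lit 0) (nat_lit 5) (nat_lit 0x500150) (nat_lit 0x100010000000000000000000000010001000100000000))) (.non (nat_lit 0) (nat_lit 5) (nat_lit 0x500154) (nat_lit 0x100010000000000000000000000010001000100010000))) (.non (nat_lit 3) (nat_lit 8) (nat_lit 0x500105) (nat_lit 0x300020000000000000000000000010000000000030004))))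

noncomputable def t1547_44 : Tr := (.split (nat_lit 0xe) (nat_lit 3) (.split (nat_lit 0xe) (nat_lit 4) (.split (nat_lit 0xe) (nat_lit 5) (.split (nat_lit 0xe) (nat_lit 6) (.split (nat_lit 0xe) (nat_lit 7) (.split (nat_lit 0xe) (nat_lit 8) (.split (nat_lit 0xe) (nat_lit 9) (.split (nat_lit 0xe) (nat_lit 0xa) (.split (nat_lit 0xe) (nat_lit 0xb) (.split (nat_lit 0xe) (nat_lit 0xc) (.st (nat_lit 0xd) (nat_lit 0) (nat_lit 6) (nat_lit 0x14100550) (nat_lit 0x100020000000000020000000000000000000100020002000100000000) (nat_lit 1) (nat_lit 1) (.st (nat_lit 0xe) (nat_lit 0) (nat_lit 6) (nat_lit 0x14100554) (nat_lit 0x200030000000000040000000000000000000300050006000400020000) (nat_lit 1) (nat_lit 1) (.split (nat_lit 0xe) (nat_lit 0xd) (.leaf (.cons (nat_lit 0x101540) (nat_lit 0x10000000000000003000400020003000000000000) (.cons (nat_lit 0x54005) (nat_lit 0x1000300020000000000000000000000030004) (.cons (nat_lit 0x10015) (nat_lit 0x100000000000000000000000100020002) (.cons (nat_lit 0x445400) (nat_lit 0x100000002000000030004000300000000000000000000)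 .nil)))) (.cons (nat_lit 0x110010000111110) (nat_lit 0x1000001) (nat_lit 0xe) (nat_lit 0x760050000140230) (.cons (nat_lit 0x1101111000001) (nat_lit 0x100010) (nat_lit 0xd) (nat_lit 0x6504201000003) .nil))) (.non (nat_lit 0) (nat_lit 6) (nat_lit 0x24100550) (nat_lit 0x100020000000000020000000000000000000100020002000100000000))))) (.non (nat_lit 0) (nat_lit 6) (nat_lit 0x15100554) (nat_lit 0x200030001000000040000000000000000000300050006000400020000))) (.non (nat_lit 0) (nat_lit 5) (nat_lit 0x15554000) (nat_lit 0x300020002000400010003000100020000000000000000000000000000))) (.non (nat_lit 0) (nat_lit 5) (nat_lit 0x14100000) (nat_lit 0x100010000000000010000000000000000000000000000000000000000))) (.non (nat_lit 0) (nat_lit 5) (nat_lit 0x15454000) (nat_lit 0x200010001000200000003000100020000000000000000000000000000))) (.non (nat_lit 0) (nat_lit 5) (nat_lit 0x15455000) (nat_lit 0x200010001000200000003000300040002000000000000000000000000))) (.non (nat_lit 0) (nat_lit 5) (nat_lit 0x15554000) (nat_lit 0x300020001000200010003000200040000000000000000000000000000)))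 (.non (nat_lit 0) (nat_lit 5) (nat_lit 0x15455000) (nat_lit 0x200010001000200000003000200040003000000000000000000000000))) (.non (nat_lit 0) (nat_lit 6) (nat_lit 0x14100540) (nat_lit 0x100010000000000010000000000000000000100010001000000000000))) (.non (nat_lit 0) (nat_lit 5) (nat_lit 0x14100100) (nat_lit 0x100010000000000010000000000000000000000010000000000000000))) (.non (nat_lit 0) (nat_lit 5) (nat_lit 0x14100140) (nat_lit 0x100010000000000010000000000000000000000010001000000000000)))

noncomputable def t1547_45 : Tr := (.split (nat_lit 0xf) (nat_lit 4) (.split (nat_lit 0xf) (nat_lit 5) (.split (nat_lit 0xf) (nat_lit 6) (.split (nat_lit 0xf) (nat_lit 7) (.split (nat_lit 0xf) (nat_lit 8) (.split (nat_lit 0xf) (nat_lit 9) (.split (nat_lit 0xf) (nat_lit 0xa) (.split (nat_lit 0xf) (nat_lit 0xb) (.split (nat_lit 0xf) (nat_lit 0xc) (.split (nat_lit 0xf) (nat_lit 0xe) (.st (nat_lit 0xd) (nat_lit 0) (nat_lit 6) (nat_lit 0x44100550) (nat_lit 0x1000000020000000000020000000000000000000100020002000100000000) (nat_lit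 1) (nat_lit 1) (.st (nat_lit 0xf) (nat_lit 0) (nat_lit 6) (nat_lit 0x44100554) (nat_lit 0x2000000030000000000040000000000000000000300050006000400020000) (nat_lit 1) (nat_lit 1) (.split (nat_lit 0xf) (nat_lit 0xd) (.leaf (.cons (nat_lit 0x101540) (nat_lit 0x10000000000000003000400020003000000000000) (.cons (nat_lit 0x54005) (nat_lit 0x1000300020000000000000000000000030004) (.cons (nat_lit 0x10015) (nat_lit 0x100000000000000000000000100020002) (.cons (nat_lit 0x445400) (nat_lit 0x100000002000000030004000300000000000000000000) .nil)))) (.cons (nat_lit 0x1010010000111110) (nat_lit 0x1000001) (nat_lit 0xe) (nat_lit 0x7060050000140230) (.cons (nat_lit 0x101101111000001) (nat_lit 0x100010) (nat_lit 0xe) (nat_lit 0x706504201000003) .nil))) (.non (nat_lit 0) (nat_lit 6) (nat_lit 0x84100550) (nat_lit 0x1000000020000000000020000000000000000000100020002000100000000))))) (.non (nat_lit 0) (nat_lit 6) (nat_lit 0x54100554) (nat_lit 0x2000100030000000000040000000000000000000300050006000400020000))) (.non (nat_lit 0) (nat_lit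 5) (nat_lit 0x55544000) (nat_lit 0x3000200020004000300010002000000010000000000000000000000000000))) (.non (nat_lit 0) (nat_lit 5) (nat_lit 0x55444000) (nat_lit 0x2000100010002000300000002000000010000000000000000000000000000))) (.non (nat_lit 0) (nat_lit 5) (nat_lit 0x44100000) (nat_lit 0x1000000010000000000010000000000000000000000000000000000000000))) (.non (nat_lit 0) (nat_lit 5) (nat_lit 0x55544000) (nat_lit 0x3000100020002000300010004000000020000000000000000000000000000))) (.non (nat_lit 0) (nat_lit 5) (nat_lit 0x45455000) (nat_lit 0x2000000010001000200000003000300040002000000000000000000000000))) (.non (nat_lit 0) (nat_lit 5) (nat_lit 0x45554000) (nat_lit 0x3000000020001000200010003000200040000000000000000000000000000))) (.non (nat_lit 0) (nat_lit 5) (nat_lit 0x45455000) (nat_lit 0x2000000010001000200000003000200040003000000000000000000000000))) (.non (nat_lit 0) (nat_lit 6) (nat_lit 0x44100540) (nat_lit 0x1000000010000000000010000000000000000000100010001000000000000))) (.non (nat_lit 0) (nat_lit 5)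 (nat_lit 0x44100100) (nat_lit 0x1000000010000000000010000000000000000000000010000000000000000)))

noncomputable def t1547_46 : Tr := (.split (nat_lit 0xe) (nat_lit 7) (.split (nat_lit 0xe) (nat_lit 8) (.split (nat_lit 0xe) (nat_lit 9) (.split (nat_lit 0xe) (nat_lit 0xa) (.split (nat_lit 0xe) (nat_lit 0xb) (.split (nat_lit 0xe) (nat_lit 0xd) (.st (nat_lit 0xc) (nat_lit 0) (nat_lit 5) (nat_lit 0x11455000) (nat_lit 0x100000002000200000002000100020001000000000000000000000000) (nat_lit 1) (nat_lit 1) (.st (nat_lit 0xe) (nat_lit 1) (nat_lit 5) (nat_lit 0x11455001) (nat_lit 0x200000003000400000005000400060003000000000000000000000002) (nat_lit 1) (nat_lit 1) (.split (nat_lit 0xe) (nat_lit 0xc) (.ex (nat_lit 0xd) (.leaf (.cons (nat_lit 0x101540) (nat_lit 0x10000000000000003000400020003000000000000) (.cons (nat_lit 0x54005) (nat_lit 0x1000300020000000000000000000000030004) (.cons (nat_lit 0x10015) (nat_lit 0x100000000000000000000000100020002) (.cons (nat_lit 0x445400) (nat_lit 0x100000002000000030004000300000000000000000000)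 .nil)))) (.cons (nat_lit 0x10010000111110) (nat_lit 0x1000001) (nat_lit 0xd) (nat_lit 0x60050000140230) (.cons (nat_lit 0x101101111000001) (nat_lit 0x100010) (nat_lit 0xe) (nat_lit 0x706504201000003) .nil))) (.split (nat_lit 0xf) (nat_lit 0) (.split (nat_lit 0xf) (nat_lit 1) (.split (nat_lit 0xf) (nat_lit 2) (.split (nat_lit 0xf) (nat_lit 3) t1547_45 (.non (nat_lit 0) (nat_lit 5) (nat_lit 0x44100140) (nat_lit 0x1000000010000000000010000000000000000000000010001000000000000))) (.non (nat_lit 0) (nat_lit 5) (nat_lit 0x44100150) (nat_lit 0x1000000010000000000010000000000000000000000010001000100000000))) (.non (nat_lit 0) (nat_lit 5) (nat_lit 0x44100154) (nat_lit 0x1000000010000000000010000000000000000000000010001000100010000))) (.non (nat_lit 1) (nat_lit 5) (nat_lit 0x41455001) (nat_lit 0x1000000000001000200000003000300040002000000000000000000000002)))) (.non (nat_lit 0) (nat_lit 5) (nat_lit 0x21455000) (nat_lit 0x100000002000200000002000100020001000000000000000000000000))))) (.non (nat_lit 0) (nat_lit 6) (nat_lit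 0x15100554) (nat_lit 0x200030001000000040000000000000000000300050006000400020000))) (.non (nat_lit 0) (nat_lit 5) (nat_lit 0x11400000) (nat_lit 0x100000001000100000000000000000000000000000000000000000000))) (.non (nat_lit 0) (nat_lit 5) (nat_lit 0x15555100) (nat_lit 0x200010002000200020002000100020001000000010000000000000000))) (.non (nat_lit 0) (nat_lit 5) (nat_lit 0x11440000) (nat_lit 0x100000001000100000001000000000000000000000000000000000000))) (.non (nat_lit 0) (nat_lit 5) (nat_lit 0x11454000) (nat_lit 0x100000001000100000001000100010000000000000000000000000000))) (.non (nat_lit 0) (nat_lit 5) (nat_lit 0x11444000) (nat_lit 0x100000001000100000001000000010000000000000000000000000000)))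

noncomputable def t1547_47 : Tr := (.split (nat_lit 0xd) (nat_lit 0xc) (.st (nat_lit 0xa) (nat_lit 0) (nat_lit 6) (nat_lit 0x4100550) (nat_lit 0x10000000000020000000000000000000100020002000100000000) (nat_lit 1) (nat_lit 1) (.split (nat_lit 0xd) (nat_lit 0xa) (.ex (nat_lit 0xc) (.ex (nat_lit 0xd) (.leaf (.cons (nat_lit 0x101540) (nat_lit 0x10000000000000003000400020003000000000000) (.cons (nat_lit 0x54005) (nat_lit 0x1000300020000000000000000000000030004) (.cons (nat_lit 0x10015) (nat_lit 0x100000000000000000000000100020002) (.cons (nat_lit 0x445400) (nat_lit 0x100000002000000030004000300000000000000000000) .nil)))) (.cons (nat_lit 0x10010000111110) (nat_lit 0x1000001) (nat_lit 0xd) (nat_lit 0x60050000140230) (.cons (nat_lit 0x1101111000001) (nat_lit 0x100010) (nat_lit 0xd) (nat_lit 0x6504201000003) .nil))) (.split (nat_lit 0xe) (nat_lit 0) (.split (nat_lit 0xe) (nat_lit 1) (.split (nat_lit 0xe) (nat_lit 2) t1547_44 (.non (nat_lit 0) (nat_lit 5) (nat_lit 0x14100150) (nat_lit 0x100010000000000010000000000000000000000010001000100000000)))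 (.non (nat_lit 0) (nat_lit 5) (nat_lit 0x14100154) (nat_lit 0x100010000000000010000000000000000000000010001000100010000))) (.non (nat_lit 1) (nat_lit 5) (nat_lit 0x11455001) (nat_lit 0x100000001000200000003000300040002000000000000000000000002)))) (.split (nat_lit 0xe) (nat_lit 0) (.split (nat_lit 0xe) (nat_lit 1) (.split (nat_lit 0xe) (nat_lit 2) (.split (nat_lit 0xe) (nat_lit 3) (.split (nat_lit 0xe) (nat_lit 4) (.split (nat_lit 0xe) (nat_lit 5) (.split (nat_lit 0xe) (nat_lit 6) t1547_46 (.non (nat_lit 0) (nat_lit 5) (nat_lit 0x11445000) (nat_lit 0x100000001000100000001000000010001000000000000000000000000))) (.non (nat_lit 0) (nat_lit 6) (nat_lit 0x15100550) (nat_lit 0x200010001000000020000000000000000000300030004000200000000))) (.non (nat_lit 0) (nat_lit 5) (nat_lit 0x15544140) (nat_lit 0x500020004000300040002000000010000000000060003000000000000))) (.non (nat_lit 0) (nat_lit 5) (nat_lit 0x15500150) (nat_lit 0x300010002000100020000000000000000000000030004000200000000))) (.non (nat_lit 0) (nat_lit 5) (nat_lit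 0x11455054) (nat_lit 0x200000002000200000002000100020001000000000001000200010000))) (.non (nat_lit 0) (nat_lit 6) (nat_lit 0x14100554) (nat_lit 0x100010000000000020000000000000000000200030004000300020000))) (.non (nat_lit 1) (nat_lit 5) (nat_lit 0x11454001) (nat_lit 0x100000001000100000001000100010000000000000000000000000001)))) (.non (nat_lit 0) (nat_lit 6) (nat_lit 0x8100550) (nat_lit 0x10000000000020000000000000000000100020002000100000000)))) (.non (nat_lit 0) (nat_lit 6) (nat_lit 0x5500554) (nat_lit 0x30002000100040000000000000000000300050006000400020000)))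

noncomputable def t1547_48 : Tr := (.split (nat_lit 0xc) (nat_lit 0xa) (.st (nat_lit 0xb) (nat_lit 0) (nat_lit 5) (nat_lit 0x1455000) (nat_lit 0x1000200000002000100020001000000000000000000000000) (nat_lit 1) (nat_lit 1) (.split (nat_lit 0xc) (nat_lit 0xb) (.ex (nat_lit 0xa) (.leaf (.cons (nat_lit 0x101540) (nat_lit 0x10000000000000003000400020003000000000000) (.cons (nat_lit 0x54005) (nat_lit 0x1000300020000000000000000000000030004) (.cons (nat_lit 0x10015) (nat_lit 0x100000000000000000000000100020002) (.cons (nat_lit 0x445400) (nat_lit 0x100000002000000030004000300000000000000000000) .nil)))) (.cons (nat_lit 0x10000111110) (nat_lit 0x1000001) (nat_lit 0xc) (nat_lit 0x50000140230) .nil)) (.split (nat_lit 0xd) (nat_lit 0) (.split (nat_lit 0xd) (nat_lit 1) (.split (nat_lit 0xd) (nat_lit 2) (.split (nat_lit 0xd) (nat_lit 3) (.split (nat_lit 0xd) (nat_lit 4) (.split (nat_lit 0xd) (nat_lit 5) (.split (nat_lit 0xd) (nat_lit 6) (.split (nat_lit 0xd) (nat_lit 7) (.split (nat_lit 0xd) (nat_lit 8) (.split (nat_lit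 0xd) (nat_lit 9) (.split (nat_lit 0xd) (nat_lit 0xb) t1547_47 (.non (nat_lit 0) (nat_lit 5) (nat_lit 0x5455000) (nat_lit 0x10001000200000002000100020001000000000000000000000000))) (.non (nat_lit 0) (nat_lit 5) (nat_lit 0x5554000) (nat_lit 0x20001000200010003000100020000000000000000000000000000))) (.non (nat_lit 0) (nat_lit 5) (nat_lit 0x5555000) (nat_lit 0x20001000200010003000300040002000000000000000000000000))) (.non (nat_lit 0) (nat_lit 5) (nat_lit 0x4055000) (nat_lit 0x10000000000000001000100020001000000000000000000000000))) (.non (nat_lit 0) (nat_lit 5) (nat_lit 0x5555000) (nat_lit 0x20001000200010003000200040003000000000000000000000000))) (.non (nat_lit 0) (nat_lit 6) (nat_lit 0x4100540) (nat_lit 0x10000000000010000000000000000000100010001000000000000))) (.non (nat_lit 0) (nat_lit 5) (nat_lit 0x4100100) (nat_lit 0x10000000000010000000000000000000000010000000000000000))) (.non (nat_lit 0) (nat_lit 5) (nat_lit 0x4100140) (nat_lit 0x10000000000010000000000000000000000010001000000000000))) (.non (nat_lit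 0) (nat_lit 5) (nat_lit 0x4100150) (nat_lit 0x10000000000010000000000000000000000010001000100000000))) (.non (nat_lit 0) (nat_lit 5) (nat_lit 0x4100154) (nat_lit 0x10000000000010000000000000000000000010001000100010000))) (.non (nat_lit 1) (nat_lit 5) (nat_lit 0x5455001) (nat_lit 0x10001000200000003000300040002000000000000000000000002)))) (.non (nat_lit 0) (nat_lit 5) (nat_lit 0x2455000) (nat_lit 0x1000200000002000100020001000000000000000000000000)))) (.non (nat_lit 0) (nat_lit 6) (nat_lit 0x1540554) (nat_lit 0x3000200040001000000000000000300050006000400020000)))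

noncomputable def t1547_49 : Tr := (.split (nat_lit 0xa) (nat_lit 4) (.split (nat_lit 4) (nat_lit 3) (.split (nat_lit 0xb) (nat_lit 9) (.split (nat_lit 5) (nat_lit 3) (.split (nat_lit 8) (nat_lit 0) (.ex (nat_lit 0xb) (.leaf (.cons (nat_lit 0x101540) (nat_lit 0x10000000000000003000400020003000000000000) (.cons (nat_lit 0x54005) (nat_lit 0x1000300020000000000000000000000030004) (.cons (nat_lit 0x10015) (nat_lit 0x100000000000000000000000100020002) (.cons (nat_lit 0x445400) (nat_lit 0x100000002000000030004000300000000000000000000) .nil)))) (.cons (nat_lit 0x101111000001) (nat_lit 0x100010) (nat_lit 0xc) (nat_lit 0x504201000003) .nil)) (.split (nat_lit 0xc) (nat_lit 0) (.split (nat_lit 0xc) (nat_lit 1) (.split (nat_lit 0xc) (nat_lit 2) (.split (nat_lit 0xc) (nat_lit 3) (.split (nat_lit 0xc) (nat_lit 4) (.split (nat_lit 0xc) (nat_lit 5) (.split (nat_lit 0xc) (nat_lit 6) (.split (nat_lit 0xc) (nat_lit 7) (.split (nat_lit 0xc) (nat_lit 8) (.split (nat_lit 0xc) (nat_lit 9) t1547_48 (.non (nat_lit 0) (nat_lit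 5) (nat_lit 0x1440000) (nat_lit 0x1000100000001000000000000000000000000000000000000))) (.non (nat_lit 0) (nat_lit 5) (nat_lit 0x1454000) (nat_lit 0x1000100000001000100010000000000000000000000000000))) (.non (nat_lit 0) (nat_lit 5) (nat_lit 0x1444000) (nat_lit 0x1000100000001000000010000000000000000000000000000))) (.non (nat_lit 0) (nat_lit 5) (nat_lit 0x1445000) (nat_lit 0x1000100000001000000010001000000000000000000000000))) (.non (nat_lit 0) (nat_lit 6) (nat_lit 0x1544550) (nat_lit 0x4000300020002000000010000000500040006000300000000))) (.non (nat_lit 0) (nat_lit 5) (nat_lit 0x1555140) (nat_lit 0x2000200010002000100020001000000020001000000000000))) (.non (nat_lit 0) (nat_lit 5) (nat_lit 0x1554150) (nat_lit 0x5000400020003000100020000000000040006000300000000))) (.non (nat_lit 0) (nat_lit 5) (nat_lit 0x1455054) (nat_lit 0x2000200000002000100020001000000000001000200010000))) (.non (nat_lit 0) (nat_lit 6) (nat_lit 0x1540554) (nat_lit 0x3000200020001000000000000000300040006000500040000))) (.non (nat_lit 1) (nat_lit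 5) (nat_lit 0x1454001) (nat_lit 0x1000100000001000100010000000000000000000000000001)))) (.non (nat_lit 1) (nat_lit 5) (nat_lit 0xaa001) (nat_lit 0x1000200020001000000000000000000000002))) (.non (nat_lit 0) (nat_lit 6) (nat_lit 0x950) (nat_lit 0x100010002000100000000))) (.non (nat_lit 0) (nat_lit 5) (nat_lit 0x855000) (nat_lit 0x100000002000100020001000000000000000000000000))) (.non (nat_lit 0) (nat_lit 5) (nat_lit 0x200254) (nat_lit 0x10000000000000000000000020003000200010000))) (.non (nat_lit 0) (nat_lit 6) (nat_lit 0x200550) (nat_lit 0x10000000000000000000100020002000100000000)))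

noncomputable def t1547_50 : Tr := (.ex (nat_lit 6) (.ex (nat_lit 9) (.pd (.cons (nat_lit 3) (nat_lit 8) (nat_lit 0x10000010000) (nat_lit 0x470655a0100) (nat_lit 0x1f423f00000b71aea2c28047370000100000f423fb71ae1f156) .nil) (.split (nat_lit 0xa) (nat_lit 4) (.split (nat_lit 4) (nat_lit 3) (.split (nat_lit 5) (nat_lit 3) (.split (nat_lit 8) (nat_lit 0) t1547_43 (.non (nat_lit 1) (nat_lit 5) (nat_lit 0xaa001) (nat_lit 0x1000200020001000000000000000000000002))) (.non (nat_lit 0) (nat_lit 6) (nat_lit 0x950) (nat_lit 0x100010002000100000000))) (.non (nat_lit 0) (nat_lit 5) (nat_lit 0x200254) (nat_lit 0x10000000000000000000000020003000200010000))) (.non (nat_lit 0) (nat_lit 6) (nat_lit 0x200550) (nat_lit 0x10000000000000000000100020002000100000000)))) (.split (nat_lit 0xb) (nat_lit 0) (.split (nat_lit 0xb) (nat_lit 1) (.split (nat_lit 0xb) (nat_lit 2) (.split (nat_lit 0xb) (nat_lit 3) (.split (nat_lit 0xb) (nat_lit 4) (.split (nat_lit 0xb) (nat_lit 5) (.split (nat_lit 0xb) (nat_lit 6) (.split (nat_lit 0xb) (nat_lit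 7) (.split (nat_lit 0xb) (nat_lit 8) (.split (nat_lit 0xb) (nat_lit 0xa) (.st (nat_lit 9) (nat_lit 0) (nat_lit 5) (nat_lit 0x455000) (nat_lit 0x100000002000100020001000000000000000000000000) (nat_lit 1) (nat_lit 1) t1547_49) (.non (nat_lit 0) (nat_lit 6) (nat_lit 0x544554) (nat_lit 0x300040002000000010000000300050006000400020000))) (.non (nat_lit 0) (nat_lit 5) (nat_lit 0x454000) (nat_lit 0x100000001000100010000000000000000000000000000))) (.non (nat_lit 0) (nat_lit 5) (nat_lit 0x444000) (nat_lit 0x100000001000000010000000000000000000000000000))) (.non (nat_lit 0) (nat_lit 5) (nat_lit 0x445000) (nat_lit 0x100000001000000010001000000000000000000000000))) (.non (nat_lit 0) (nat_lit 6) (nat_lit 0x554550) (nat_lit 0x400020003000100020000000500040006000300000000))) (.non (nat_lit 0) (nat_lit 5) (nat_lit 0x555140) (nat_lit 0x200010002000100020001000000020001000000000000))) (.non (nat_lit 0) (nat_lit 5) (nat_lit 0x455150) (nat_lit 0x200000002000100020001000000010002000100000000))) (.non (nat_lit 0) (nat_lit 5)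 (nat_lit 0x455054) (nat_lit 0x200000002000100020001000000000001000200010000))) (.non (nat_lit 0) (nat_lit 6) (nat_lit 0x544554) (nat_lit 0x300020002000000010000000300040006000500040000))) (.non (nat_lit 1) (nat_lit 5) (nat_lit 0x454001) (nat_lit 0x100000001000100010000000000000000000000000001)))) (.split (nat_lit 0xb) (nat_lit 0) (.split (nat_lit 0xb) (nat_lit 1) (.split (nat_lit 0xb) (nat_lit 2) (.split (nat_lit 0xb) (nat_lit 3) (.split (nat_lit 0xb) (nat_lit 4) (.split (nat_lit 0xb) (nat_lit 5) (.split (nat_lit 0xb) (nat_lit 7) (.split (nat_lit 0xb) (nat_lit 8) (.split (nat_lit 0xb) (nat_lit 9) (.split (nat_lit 0xb) (nat_lit 0xa) (.sup (nat_lit 0x50000000000000000000000020009000a) (nat_lit 0x50000000000000000000a000900000002000000000000)) (.non (nat_lit 1) (nat_lit 5) (nat_lit 0x555141) (nat_lit 0x400030003000400060005000000020001000000000002))) (.non (nat_lit 0) (nat_lit 5) (nat_lit 0x445000) (nat_lit 0x100000001000000010001000000000000000000000000))) (.non (nat_lit 0) (nat_lit 5) (nat_lit 0x415000)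 (nat_lit 0x100000000000100010001000000000000000000000000))) (.non (nat_lit 0) (nat_lit 5) (nat_lit 0x405000) (nat_lit 0x100000000000000010001000000000000000000000000))) (.non (nat_lit 0) (nat_lit 6) (nat_lit 0x500554) (nat_lit 0x100010000000000000000000200020003000200010000))) (.non (nat_lit 0) (nat_lit 5) (nat_lit 0x555140) (nat_lit 0x200010001000100020002000000020001000000000000))) (.non (nat_lit 0) (nat_lit 5) (nat_lit 0x455150) (nat_lit 0x200000001000100020002000000010002000100000000))) (.non (nat_lit 0) (nat_lit 5) (nat_lit 0x455054) (nat_lit 0x200000001000100020002000000000001000200010000))) (.star (nat_lit 0xb) (nat_lit 1) (nat_lit 6))) (.star (nat_lit 0xb) (nat_lit 0) (nat_lit 6))))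

noncomputable def t1547_51 : Tr := (.ex (nat_lit 1) (.ex (nat_lit 4) t1547_41 (.split (nat_lit 0xa) (nat_lit 1) (.split (nat_lit 0xa) (nat_lit 2) (.split (nat_lit 0xa) (nat_lit 3) (.split (nat_lit 0xa) (nat_lit 5) (.split (nat_lit 0xa) (nat_lit 6) (.split (nat_lit 0xa) (nat_lit 7) (.split (nat_lit 0xa) (nat_lit 8) (.split (nat_lit 0xa) (nat_lit 9) (.split (nat_lit 0xa) (nat_lit 0) (.st (nat_lit 5) (nat_lit 0) (nat_lit 6) (nat_lit 0x100554) (nat_lit 0x10000000000000000000200020003000200010000) (nat_lit 1) (nat_lit 1) (.st (nat_lit 4) (nat_lit 0) (nat_lit 6) (nat_lit 0x100550) (nat_lit 0x10000000000000000000100020002000100000000) (nat_lit 1) (nat_lit 1) t1547_50)) (.sup (nat_lit 0x5000000000000000000000000000000020009000a) (nat_lit 0x5000a000900000002000000000000))) (.non (nat_lit 0) (nat_lit 6) (nat_lit 0x154554) (nat_lit 0x40003000100020000000300050006000400020000))) (.non (nat_lit 0) (nat_lit 6) (nat_lit 0x154554) (nat_lit 0x40001000300020000000300050006000400020000))) (.non (nat_lit 0) (nat_lit 5) (nat_lit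 0x155000) (nat_lit 0x10001000100020001000000000000000000000000))) (.non (nat_lit 1) (nat_lit 5) (nat_lit 0x155151) (nat_lit 0x40003000400060005000000030002000100000002))) (.non (nat_lit 0) (nat_lit 6) (nat_lit 0x100540) (nat_lit 0x10000000000000000000100010001000000000000))) (.non (nat_lit 0) (nat_lit 5) (nat_lit 0x100140) (nat_lit 0x10000000000000000000000010001000000000000))) (.non (nat_lit 0) (nat_lit 5) (nat_lit 0x100150) (nat_lit 0x10000000000000000000000010001000100000000))) (.non (nat_lit 0) (nat_lit 5) (nat_lit 0x100154) (nat_lit 0x10000000000000000000000010001000100010000)))) (.split (nat_lit 0xa) (nat_lit 2) (.split (nat_lit 0xa) (nat_lit 3) (.split (nat_lit 0xa) (nat_lit 4) (.split (nat_lit 0xa) (nat_lit 5) (.split (nat_lit 0xa) (nat_lit 6) (.split (nat_lit 0xa) (nat_lit 7) (.split (nat_lit 0xa) (nat_lit 8) (.split (nat_lit 0xa) (nat_lit 0) (.split (nat_lit 0xa) (nat_lit 9) (.sup (nat_lit 0x30000000000000000000000000000000100050004) (nat_lit 0x30005000500000001000000000000)) (.sup (nat_lit 0x30000000000000000000000000000000100050004)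 (nat_lit 0x30005000500000001000000000000))) (.split (nat_lit 0xa) (nat_lit 9) (.unj (nat_lit 0x100005) (nat_lit 0x10000000000000000000000000000000000010001) (nat_lit 0x5440) (nat_lit 0x10002000200000001000000000000)) (.non (nat_lit 1) (nat_lit 5) (nat_lit 0x154001) (nat_lit 0x10001000100010000000000000000000000000001)))) (.non (nat_lit 1) (nat_lit 5) (nat_lit 0x155001) (nat_lit 0x10001000200020001000000000000000000000001))) (.non (nat_lit 0) (nat_lit 5) (nat_lit 0x155000) (nat_lit 0x10001000100020001000000000000000000000000))) (.star (nat_lit 0xa) (nat_lit 1) (nat_lit 6))) (.star (nat_lit 0xa) (nat_lit 1) (nat_lit 5))) (.non (nat_lit 0) (nat_lit 5) (nat_lit 0x100154) (nat_lit 0x10000000000000000000000010001000100010000))) (.non (nat_lit 0) (nat_lit 5) (nat_lit 0x100054) (nat_lit 0x10000000000000000000000000001000100010000))) (.non (nat_lit 0) (nat_lit 5) (nat_lit 0x100014) (nat_lit 0x10000000000000000000000000000000100010000))))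

noncomputable def t1547_52 : Tr := (.split (nat_lit 6) (nat_lit 4) (.split (nat_lit 5) (nat_lit 3) (.split (nat_lit 5) (nat_lit 4) (.split (nat_lit 8) (nat_lit 0) (.sup (nat_lit 0x5000a000f0014000f) (nat_lit 0x70001000e0014001000000000000000000000)) (.non (nat_lit 1) (nat_lit 5) (nat_lit 0xaa001) (nat_lit 0x1000200020001000000000000000000000002))) (.sup (nat_lit 0x2000000000000000000000005000a0009) (nat_lit 0x20009000a00050000000000000000))) (.split (nat_lit 5) (nat_lit 4) (.st (nat_lit 2) (nat_lit 0) (nat_lit 6) (nat_lit 0x554) (nat_lit 0x100010002000200010000) (nat_lit 1) (nat_lit 1) (.st (nat_lit 3) (nat_lit 0) (nat_lit 6) (nat_lit 0x550) (nat_lit 0x100010002000100000000) (nat_lit 1) (nat_lit 1) (.st (nat_lit 8) (nat_lit 1) (nat_lit 5) (nat_lit 0x55001) (nat_lit 0x1000200020001000000000000000000000001) (nat_lit 1) (nat_lit 1) (.ex (nat_lit 0) t1547_51 (.split (nat_lit 0xa) (nat_lit 2) (.split (nat_lit 0xa) (nat_lit 3) (.split (nat_lit 0xa) (nat_lit 5) (.split (nat_lit 0xa) (nat_lit 6) (.split (nat_lit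 0xa) (nat_lit 7) (.split (nat_lit 0xa) (nat_lit 8) (.split (nat_lit 0xa) (nat_lit 9) (.split (nat_lit 0xa) (nat_lit 1) (.split (nat_lit 0xa) (nat_lit 4) (.sup (nat_lit 0x5000000000000000000000000000000020009000a) (nat_lit 0x5000a000900000002000000000000)) (.sup (nat_lit 0x5000000000000000000000000000000020009000a) (nat_lit 0x5000a000900000002000000000000))) (.split (nat_lit 0xa) (nat_lit 4) (.unj (nat_lit 0x100005) (nat_lit 0x10000000000000000000000000000000000010001) (nat_lit 0x5440) (nat_lit 0x10002000200000001000000000000)) (.non (nat_lit 0) (nat_lit 5) (nat_lit 0x100154) (nat_lit 0x10000000000000000000000010001000100010000)))) (.non (nat_lit 1) (nat_lit 5) (nat_lit 0x154001) (nat_lit 0x10001000100010000000000000000000000000001))) (.non (nat_lit 1) (nat_lit 5) (nat_lit 0x110001) (nat_lit 0x10000000100000000000000000000000000000001))) (.non (nat_lit 0) (nat_lit 5) (nat_lit 0x155000) (nat_lit 0x10001000100020001000000000000000000000000))) (.star (nat_lit 0xa) (nat_lit 0) (nat_lit 6))) (.star (nat_lit 0xa)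 (nat_lit 0) (nat_lit 5))) (.non (nat_lit 0) (nat_lit 6) (nat_lit 0x100550) (nat_lit 0x10000000000000000000100010002000100000000))) (.non (nat_lit 0) (nat_lit 6) (nat_lit 0x100554) (nat_lit 0x10000000000000000000100010002000200010000))))))) (.non (nat_lit 0) (nat_lit 6) (nat_lit 0x540) (nat_lit 0x100010001000000000000)))) (.split (nat_lit 5) (nat_lit 3) (.split (nat_lit 5) (nat_lit 4) (.sup (nat_lit 0x100000000000000000000000300050005) (nat_lit 0x10005000400030000000000000000)) (.unj (nat_lit 0x1500) (nat_lit 0x1000100010000000000000000) (nat_lit 0x10015) (nat_lit 0x100000000000000000000000100020002))) (.split (nat_lit 5) (nat_lit 4) (.sup (nat_lit 0x300000000000000000000000100050005) (nat_lit 0x5000400030001000000000000)) (.non (nat_lit 0) (nat_lit 6) (nat_lit 0x540) (nat_lit 0x100010001000000000000)))))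

noncomputable def t1547_53 : Tr := (.ex (nat_lit 5) (.split (nat_lit 8) (nat_lit 1) (.split (nat_lit 4) (nat_lit 3) (.pd (.cons (nat_lit 0) (nat_lit 7) (nat_lit 0) (nat_lit 0x9105532110) (nat_lit 0xf423ff423f00000f423f54591f423fb71aea2c285b8d400000) (.cons (nat_lit 0) (nat_lit 8) (nat_lit 0) (nat_lit 0x7065532110) (nat_lit 0xf423f00000b71aea2c2804737f423fb71aea2c289896500000) (.cons (nat_lit 1) (nat_lit 7) (nat_lit 0x100000001) (nat_lit 0x9005532208) (nat_lit 0xf423f0000100000f423f54591f423fb71aea2c280000000001) (.cons (nat_lit 1) (nat_lit 8) (nat_lit 0) (nat_lit 0x7065532200) (nat_lit 0xf423f00000b71aea2c2804737f423fb71aea2c2800000f423f) (.cons (nat_lit 2) (nat_lit 8) (nat_lit 0) (nat_lit 0x7065533000) (nat_lit 0xf423f00000b71aea2c2804737f423fb71ae00000f423f54591) (.cons (nat_lit 3) (nat_lit 8) (nat_lit 0) (nat_lit 0x7065540100) (nat_lit 0xf423f00000b71aea2c2804737f423f00000f423fb71ae1f156) (.cons (nat_lit 4) (nat_lit 8) (nat_lit 0) (nat_lit 0x7065502100) (nat_lit 0xf423f00000b71aea2c280473700000f423fb71aea2c2804737)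 .nil))))))) (.leaf (.cons (nat_lit 0x15404) (nat_lit 0x200030004000300000000000000010000) (.cons (nat_lit 0x15401) (nat_lit 0x200030004000300000000000000000001) (.cons (nat_lit 0x10005) (nat_lit 0x100000000000000000000000000010001) .nil))) .nil)) (.non (nat_lit 0) (nat_lit 5) (nat_lit 0x55254) (nat_lit 0x1000200020001000000010002000200020000))) (.non (nat_lit 0) (nat_lit 5) (nat_lit 0xaa004) (nat_lit 0x1000200020001000000000000000000020000))) (.split (nat_lit 0xa) (nat_lit 0) (.split (nat_lit 0xa) (nat_lit 1) (.split (nat_lit 0xa) (nat_lit 2) (.split (nat_lit 0xa) (nat_lit 3) (.split (nat_lit 0xa) (nat_lit 6) (.split (nat_lit 0xa) (nat_lit 7) (.split (nat_lit 0xa) (nat_lit 8) (.split (nat_lit 0xa) (nat_lit 9) (.split (nat_lit 0xa) (nat_lit 4) (.unj (nat_lit 0x105400) (nat_lit 0x10000000000010002000200000000000000000000) (nat_lit 0x155) (nat_lit 0x10002000300040003)) (.unj (nat_lit 0x10005) (nat_lit 0x100000000000000000000000000010001) (nat_lit 0x101540) (nat_lit 0x30000000000000003000400020001000000000000)))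 (.non (nat_lit 0) (nat_lit 5) (nat_lit 0x155154) (nat_lit 0x20004000500060003000000010002000300040000))) (.non (nat_lit 0) (nat_lit 5) (nat_lit 0x155004) (nat_lit 0x10001000200020001000000000000000000010000))) (.non (nat_lit 0) (nat_lit 5) (nat_lit 0x155000) (nat_lit 0x10001000100020001000000000000000000000000))) (.non (nat_lit 0) (nat_lit 5) (nat_lit 0x155154) (nat_lit 0x20003000500060004000000010002000300040000))) (.non (nat_lit 0) (nat_lit 5) (nat_lit 0x155154) (nat_lit 0x10001000200020001000000010002000200020000))) (.non (nat_lit 0) (nat_lit 5) (nat_lit 0x155054) (nat_lit 0x10001000200020001000000000001000200020000))) (.star (nat_lit 0xa) (nat_lit 1) (nat_lit 5))) (.star (nat_lit 0xa) (nat_lit 0) (nat_lit 5))))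

noncomputable def t1547_54 : Tr := (.st (nat_lit 3) (nat_lit 0) (nat_lit 5) (nat_lit 0x55154) (nat_lit 0x1000200020001000000010002000200020000) (nat_lit 1) (nat_lit 1) (.st (nat_lit 6) (nat_lit 0) (nat_lit 5) (nat_lit 0x55154) (nat_lit 0x3000500060004000000010002000300040000) (nat_lit 1) (nat_lit 2) (.st (nat_lit 9) (nat_lit 0) (nat_lit 5) (nat_lit 0x55154) (nat_lit 0x4000500060003000000010002000300040000) (nat_lit 1) (nat_lit 2) (.ex (nat_lit 0) t1547_53 (.split (nat_lit 0xa) (nat_lit 1) (.split (nat_lit 0xa) (nat_lit 2) (.split (nat_lit 0xa) (nat_lit 3) (.split (nat_lit 0xa) (nat_lit 5) (.split (nat_lit 0xa) (nat_lit 6) (.split (nat_lit 0xa) (nat_lit 7) (.split (nat_lit 0xa) (nat_lit 8) (.split (nat_lit 0xa) (nat_lit 9) (.split (nat_lit 0xa) (nat_lit 4) (.split (nat_lit 0xa) (nat_lit 0) (.split (nat_lit 8) (nat_lit 0) (.split (nat_lit 8) (nat_lit 1) (.sup (nat_lit 0x60001000b0010000d00000000000000000000) (nat_lit 0x20000000000000000000000010002000400050004)) (.non (nat_lit 0) (nat_lit 5) (nat_lit 0xaa004)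 (nat_lit 0x1000200020001000000000000000000020000))) (.non (nat_lit 1) (nat_lit 5) (nat_lit 0x1a8001) (nat_lit 0x20001000300020000000000000000000000000004))) (.non (nat_lit 1) (nat_lit 5) (nat_lit 0x255001) (nat_lit 0x10001000200020001000000000000000000000002))) (.split (nat_lit 0xa) (nat_lit 0) (.split (nat_lit 0xa) (nat_lit 4) (.split (nat_lit 8) (nat_lit 0) (.sup (nat_lit 0x3000100060008000600000000000000000000) (nat_lit 0x20000000000000000000000020002000200020002)) (.non (nat_lit 1) (nat_lit 5) (nat_lit 0x1a8001) (nat_lit 0x20001000300020000000000000000000000000004))) (.non (nat_lit 0) (nat_lit 5) (nat_lit 0x255154) (nat_lit 0x10001000200020001000000020002000200020000))) (.non (nat_lit 1) (nat_lit 5) (nat_lit 0x255001) (nat_lit 0x10001000200020001000000000000000000000002)))) (.non (nat_lit 0) (nat_lit 5) (nat_lit 0x155154) (nat_lit 0x20004000500060003000000010002000300040000))) (.non (nat_lit 0) (nat_lit 5) (nat_lit 0x155004) (nat_lit 0x10001000200020001000000000000000000010000))) (.non (nat_lit 0) (nat_lit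 5) (nat_lit 0x155000) (nat_lit 0x10001000100020001000000000000000000000000))) (.star (nat_lit 0xa) (nat_lit 0) (nat_lit 6))) (.star (nat_lit 0xa) (nat_lit 0) (nat_lit 5))) (.non (nat_lit 0) (nat_lit 5) (nat_lit 0x155154) (nat_lit 0x10001000200020001000000010002000200020000))) (.non (nat_lit 0) (nat_lit 5) (nat_lit 0x155054) (nat_lit 0x10001000200020001000000000001000200020000))) (.non (nat_lit 0) (nat_lit 5) (nat_lit 0x155014) (nat_lit 0x10001000200020001000000000000000100020000)))))))

noncomputable def t1547_55 : Tr := (.split (nat_lit 8) (nat_lit 0) (.split (nat_lit 8) (nat_lit 1) (.split (nat_lit 8) (nat_lit 4) t1547_33 (.split (nat_lit 6) (nat_lit 4) (.split (nat_lit 5) (nat_lit 4) (.split (nat_lit 5) (nat_lit 3) (.sup (nat_lit 0x100040007000a0008) (nat_lit 0x300010007000a000800000000000000000000)) (.st (nat_lit 1) (nat_lit 0) (nat_lit 6) (nat_lit 0x14554) (nat_lit 0x200010000000200030004000300020000) (nat_lit 1) (nat_lit 1) (.st (nat_lit 2) (nat_lit 0) (nat_lit 5) (nat_lit 0x55154) (nat_lit 0x1000200020001000000020002000200010000)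 (nat_lit 1) (nat_lit 1) (.st (nat_lit 3) (nat_lit 0) (nat_lit 5) (nat_lit 0x55150) (nat_lit 0x1000200020001000000020002000100000000) (nat_lit 1) (nat_lit 1) (.st (nat_lit 5) (nat_lit 0) (nat_lit 6) (nat_lit 0x10554) (nat_lit 0x100000000000200020003000200010000) (nat_lit 1) (nat_lit 1) (.st (nat_lit 6) (nat_lit 0) (nat_lit 5) (nat_lit 0x55154) (nat_lit 0x3000500060004000000040003000200010000) (nat_lit 1) (nat_lit 2) (.st (nat_lit 9) (nat_lit 0) (nat_lit 5) (nat_lit 0x55154) (nat_lit 0x4000500060003000000040003000200010000) (nat_lit 1) (nat_lit 2) (.st (nat_lit 4) (nat_lit 0) (nat_lit 5) (nat_lit 0x55140) (nat_lit 0x1000200020001000000020001000000000000) (nat_lit 1) (nat_lit 1) (.st (nat_lit 8) (nat_lit 0) (nat_lit 5) (nat_lit 0x55100) (nat_lit 0x1000200020001000000010000000000000000) (nat_lit 1) (nat_lit 1) t1547_34))))))))) (.non (nat_lit 0) (nat_lit 6) (nat_lit 0x54554) (nat_lit 0x1000300020000000200040003000200010000))) (.non (nat_lit 0) (nat_lit 5) (nat_lit 0x15100) (nat_lit 0x100010001000000010000000000000000))))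 (.split (nat_lit 8) (nat_lit 4) (.split (nat_lit 6) (nat_lit 4) t1547_37 (.non (nat_lit 0) (nat_lit 5) (nat_lit 0x15154) (nat_lit 0x100010001000000010001000100010000))) (.non (nat_lit 0) (nat_lit 5) (nat_lit 0x55104) (nat_lit 0x1000200020001000000010000000000010000)))) (.split (nat_lit 8) (nat_lit 4) (.split (nat_lit 8) (nat_lit 1) t1547_52 (.split (nat_lit 6) (nat_lit 4) (.split (nat_lit 5) (nat_lit 3) (.split (nat_lit 5) (nat_lit 4) (.st (nat_lit 1) (nat_lit 0) (nat_lit 5) (nat_lit 0x55014) (nat_lit 0x1000200020001000000000000000100020000) (nat_lit 1) (nat_lit 1) (.st (nat_lit 2) (nat_lit 0) (nat_lit 5) (nat_lit 0x55054) (nat_lit 0x1000200020001000000000001000200020000) (nat_lit 1) (nat_lit 1) t1547_54)) (.sup (nat_lit 0x200000000000000000000000000050005) (nat_lit 0x10005000500030000000000000000))) (.split (nat_lit 5) (nat_lit 4) (.sup (nat_lit 0x200000000000000000000000000050005) (nat_lit 0x10005000500000003000000000000)) (.non (nat_lit 0) (nat_lit 6) (nat_lit 0x540) (nat_lit 0x100010001000000000000))))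 (.non (nat_lit 0) (nat_lit 5) (nat_lit 0x15154) (nat_lit 0x100010001000000010001000100010000)))) (.non (nat_lit 1) (nat_lit 5) (nat_lit 0x55101) (nat_lit 0x1000200020001000000010000000000000001))))

noncomputable def t1547_56 : Tr := (.ex (nat_lit 0) (.split (nat_lit 4) (nat_lit 3) (.split (nat_lit 9) (nat_lit 4) (.split (nat_lit 5) (nat_lit 3) (.pd (.cons (nat_lit 2) (nat_lit 5) (nat_lit 0) (nat_lit 0x4797033000) (nat_lit 0x7a11bf423f7a11df423f000007a1197a11700000f423f54591) (.cons (nat_lit 2) (nat_lit 6) (nat_lit 0) (nat_lit 0x4790333000) (nat_lit 0xa2c28f423fb71ae00000f423f989655572c00000f423f54591) (.cons (nat_lit 3) (nat_lit 5) (nat_lit 0) (nat_lit 0x4797040100) (nat_lit 0x7a11bf423f7a11df423f000007a11900000f423fb71ae1f156) (.cons (nat_lit 3) (nat_lit 6) (nat_lit 0) (nat_lit 0x4790540100) (nat_lit 0xa2c28f423fb71ae00000f423f9896500000f423fb71ae1f156) (.cons (nat_lit 3) (nat_lit 7) (nat_lit 0) (nat_lit 0x4805540100) (nat_lit 0xf423ff423f00000f423f54591b71ae00000f423fb71ae1f156) (.cons (nat_lit 3) (nat_lit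 9) (nat_lit 0) (nat_lit 0x765540100) (nat_lit 0xf423fb71aea2c2804737f423f00000f423fb71ae1f156) (.cons (nat_lit 4) (nat_lit 5) (nat_lit 0) (nat_lit 0x7766002100) (nat_lit 0xf423ff423f7a11d7a11b0000000000f423fb71aea2c2804737) .nil))))))) (.leaf (.cons (nat_lit 0x41540) (nat_lit 0x1000000000003000400020003000000000000) (.cons (nat_lit 0x5440) (nat_lit 0x10002000200000001000000000000) (.cons (nat_lit 0x45500) (nat_lit 0x2000000030004000300010000000000000000) (.cons (nat_lit 0x455) (nat_lit 0x100000002000300040003) .nil)))) (.cons (nat_lit 0x1110111110) (nat_lit 0x1000001) (nat_lit 0xe) (nat_lit 0x5760140230) (.cons (nat_lit 0x1110111000) (nat_lit 0x1000100) (nat_lit 4) (nat_lit 0x3540021000) .nil)))) (.non (nat_lit 0) (nat_lit 6) (nat_lit 0x950) (nat_lit 0x100010002000100000000))) (.non (nat_lit 0) (nat_lit 5) (nat_lit 0xaa100) (nat_lit 0x2000100020001000000020000000000000000))) (.non (nat_lit 0) (nat_lit 5) (nat_lit 0xaa240) (nat_lit 0x2000100020001000000020002000000000000))) (.split (nat_lit 0xa) (nat_lit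 1) (.split (nat_lit 0xa) (nat_lit 2) (.split (nat_lit 0xa) (nat_lit 3) (.split (nat_lit 0xa) (nat_lit 4) (.split (nat_lit 0xa) (nat_lit 5) (.split (nat_lit 0xa) (nat_lit 6) (.split (nat_lit 0xa) (nat_lit 7) (.split (nat_lit 0xa) (nat_lit 8) (.split (nat_lit 0xa) (nat_lit 9) (.unj (nat_lit 0x100015) (nat_lit 0x10000000000000000000000000000000100020002) (nat_lit 0x45500) (nat_lit 0x2000000030004000300010000000000000000)) (.non (nat_lit 0) (nat_lit 5) (nat_lit 0x155100) (nat_lit 0x10002000100020001000000010000000000000000))) (.non (nat_lit 0) (nat_lit 5) (nat_lit 0x155154) (nat_lit 0x20005000400060003000000040003000200010000))) (.non (nat_lit 0) (nat_lit 5) (nat_lit 0x155000) (nat_lit 0x10001000100020001000000000000000000000000))) (.star (nat_lit 0xa) (nat_lit 0) (nat_lit 6))) (.star (nat_lit 0xa) (nat_lit 0) (nat_lit 5))) (.non (nat_lit 0) (nat_lit 5) (nat_lit 0x155140) (nat_lit 0x10002000100020001000000020001000000000000))) (.non (nat_lit 0) (nat_lit 5) (nat_lit 0x155150) (nat_lit 0x10002000100020001000000020002000100000000)))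 (.non (nat_lit 0) (nat_lit 5) (nat_lit 0x155154) (nat_lit 0x10002000100020001000000020002000200010000))) (.non (nat_lit 0) (nat_lit 6) (nat_lit 0x144554) (nat_lit 0x10002000000010000000200030004000300020000))))

noncomputable def t1547_57 : Tr := (.ex (nat_lit 5) (.split (nat_lit 4) (nat_lit 3) (.split (nat_lit 9) (nat_lit 4) (.split (nat_lit 8) (nat_lit 0) (.pd (.cons (nat_lit 0) (nat_lit 7) (nat_lit 0) (nat_lit 0x4805532110) (nat_lit 0xf423ff423f00000f423f54591b71aea2c2898965927bd00000) (.cons (nat_lit 0) (nat_lit 9) (nat_lit 0) (nat_lit 0x765532110) (nat_lit 0xf423fb71aea2c2804737f423fb71aea2c289896500000) (.cons (nat_lit 1) (nat_lit 7) (nat_lit 0) (nat_lit 0x4005532200) (nat_lit 0xf423ff423f00000f423f54591b71aea2c289896500000b71ae) (.cons (nat_lit 2) (nat_lit 7) (nat_lit 0) (nat_lit 0x4005533000) (nat_lit 0xf423ff423f00000f423f54591b71aea2c2800000f423f17500) (.cons (nat_lit 4) (nat_lit 8) (nat_lit 0) (nat_lit 0x7065502100) (nat_lit 0xf423f00000b71aea2c280473700000f423fb71aea2c2804737) .nil))))) (.leaf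 (.cons (nat_lit 0x45500) (nat_lit 0x2000000030004000300010000000000000000) (.cons (nat_lit 0x15401) (nat_lit 0x200030004000300000000000000000001) (.cons (nat_lit 0x54005) (nat_lit 0x1000300020000000000000000000000030004) (.cons (nat_lit 0x10015) (nat_lit 0x100000000000000000000000100020002) .nil)))) (.cons (nat_lit 0x1111011110) (nat_lit 0x100001) (nat_lit 0xb) (nat_lit 0x3201045670) (.cons (nat_lit 0x1111011101) (nat_lit 0x100010) (nat_lit 0xe) (nat_lit 0x4201056703) .nil)))) (.non (nat_lit 1) (nat_lit 5) (nat_lit 0xaa001) (nat_lit 0x1000200020001000000000000000000000002))) (.non (nat_lit 0) (nat_lit 5) (nat_lit 0xaa100) (nat_lit 0x2000100020001000000020000000000000000))) (.non (nat_lit 0) (nat_lit 5) (nat_lit 0xaa240) (nat_lit 0x2000100020001000000020002000000000000))) (.split (nat_lit 0xa) (nat_lit 0) (.split (nat_lit 0xa) (nat_lit 1) (.split (nat_lit 0xa) (nat_lit 2) (.split (nat_lit 0xa) (nat_lit 3) (.split (nat_lit 0xa) (nat_lit 4) (.split (nat_lit 0xa) (nat_lit 6) (.split (nat_lit 0xa) (nat_lit 7)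 (.split (nat_lit 0xa) (nat_lit 8) (.split (nat_lit 0xa) (nat_lit 9) (.unj (nat_lit 0x105400) (nat_lit 0x10000000000010002000200000000000000000000) (nat_lit 0x155) (nat_lit 0x10002000300040003)) (.non (nat_lit 0) (nat_lit 5) (nat_lit 0x155100) (nat_lit 0x10002000100020001000000010000000000000000))) (.non (nat_lit 0) (nat_lit 5) (nat_lit 0x155154) (nat_lit 0x20005000400060003000000040003000200010000))) (.non (nat_lit 0) (nat_lit 5) (nat_lit 0x155000) (nat_lit 0x10001000100020001000000000000000000000000))) (.non (nat_lit 0) (nat_lit 5) (nat_lit 0x155154) (nat_lit 0x20005000300060004000000040003000200010000))) (.non (nat_lit 0) (nat_lit 5) (nat_lit 0x155140) (nat_lit 0x10002000100020001000000020001000000000000))) (.non (nat_lit 0) (nat_lit 5) (nat_lit 0x155150) (nat_lit 0x10002000100020001000000020002000100000000))) (.non (nat_lit 0) (nat_lit 5) (nat_lit 0x155154) (nat_lit 0x10002000100020001000000020002000200010000))) (.star (nat_lit 0xa) (nat_lit 1) (nat_lit 5))) (.star (nat_lit 0xa) (nat_lit 0) (nat_lit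 5))))

noncomputable def t1547_58 : Tr := (.split (nat_lit 5) (nat_lit 3) (.st (nat_lit 0) (nat_lit 1) (nat_lit 5) (nat_lit 0x55141) (nat_lit 0x3000300040002000000020001000000000002) (nat_lit 1) (nat_lit 1) (.st (nat_lit 2) (nat_lit 0) (nat_lit 5) (nat_lit 0x55154) (nat_lit 0x2000100020001000000020002000200010000) (nat_lit 1) (nat_lit 1) (.st (nat_lit 3) (nat_lit 0) (nat_lit 5) (nat_lit 0x55150) (nat_lit 0x2000100020001000000020002000100000000) (nat_lit 1) (nat_lit 1) (.st (nat_lit 6) (nat_lit 0) (nat_lit 5) (nat_lit 0x55154) (nat_lit 0x5000300060004000000040003000200010000) (nat_lit 1) (nat_lit 2) (.st (nat_lit 8) (nat_lit 0) (nat_lit 5) (nat_lit 0x55154) (nat_lit 0x5000400060003000000040003000200010000) (nat_lit 1) (nat_lit 2) (.st (nat_lit 9) (nat_lit 0) (nat_lit 5) (nat_lit 0x55100) (nat_lit 0x2000100020001000000010000000000000000) (nat_lit 1) (nat_lit 1) (.st (nat_lit 4) (nat_lit 0) (nat_lit 5) (nat_lit 0x55140) (nat_lit 0x2000100020001000000020001000000000000) (nat_lit 1) (nat_lit 1) (.ex (nat_lit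 1) t1547_57 (.split (nat_lit 0xa) (nat_lit 0) (.split (nat_lit 0xa) (nat_lit 2) (.split (nat_lit 0xa) (nat_lit 3) (.split (nat_lit 0xa) (nat_lit 4) (.split (nat_lit 0xa) (nat_lit 5) (.split (nat_lit 0xa) (nat_lit 6) (.split (nat_lit 0xa) (nat_lit 7) (.split (nat_lit 0xa) (nat_lit 8) (.split (nat_lit 0xa) (nat_lit 9) (.unj (nat_lit 0x100015) (nat_lit 0x10000000000000000000000000000000100020002) (nat_lit 0x45500) (nat_lit 0x2000000030004000300010000000000000000)) (.non (nat_lit 0) (nat_lit 5) (nat_lit 0x155100) (nat_lit 0x10002000100020001000000010000000000000000))) (.non (nat_lit 0) (nat_lit 5) (nat_lit 0x155144) (nat_lit 0x20003000300040002000000020001000000010000))) (.non (nat_lit 0) (nat_lit 5) (nat_lit 0x155000) (nat_lit 0x10001000100020001000000000000000000000000))) (.star (nat_lit 0xa) (nat_lit 1) (nat_lit 6))) (.star (nat_lit 0xa) (nat_lit 1) (nat_lit 5))) (.non (nat_lit 0) (nat_lit 5) (nat_lit 0x155140) (nat_lit 0x10002000100020001000000020001000000000000))) (.non (nat_lit 0) (nat_lit 5) (nat_lit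 0x155150) (nat_lit 0x10002000100020001000000020002000100000000))) (.non (nat_lit 0) (nat_lit 5) (nat_lit 0x100014) (nat_lit 0x10000000000000000000000000000000100010000))) (.non (nat_lit 1) (nat_lit 5) (nat_lit 0x155141) (nat_lit 0x10003000300040002000000020001000000000002))))))))))) (.st (nat_lit 0) (nat_lit 1) (nat_lit 5) (nat_lit 0x55141) (nat_lit 0x3000300040002000000020001000000000002) (nat_lit 1) (nat_lit 1) (.st (nat_lit 1) (nat_lit 0) (nat_lit 6) (nat_lit 0x44554) (nat_lit 0x2000000010000000200030004000300020000) (nat_lit 1) (nat_lit 1) (.st (nat_lit 2) (nat_lit 0) (nat_lit 5) (nat_lit 0x55154) (nat_lit 0x2000100020001000000020002000200010000) (nat_lit 1) (nat_lit 1) (.st (nat_lit 3) (nat_lit 0) (nat_lit 5) (nat_lit 0x55150) (nat_lit 0x2000100020001000000020002000100000000) (nat_lit 1) (nat_lit 1) (.st (nat_lit 4) (nat_lit 0) (nat_lit 5) (nat_lit 0x55140) (nat_lit 0x2000100020001000000020001000000000000) (nat_lit 1) (nat_lit 1) (.st (nat_lit 5) (nat_lit 0) (nat_lit 6) (nat_lit 0x40554) (nat_lit 0x1000000000000000200020003000200010000)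 (nat_lit 1) (nat_lit 1) (.st (nat_lit 6) (nat_lit 0) (nat_lit 5) (nat_lit 0x55154) (nat_lit 0x5000300060004000000040003000200010000) (nat_lit 1) (nat_lit 2) (.st (nat_lit 8) (nat_lit 0) (nat_lit 5) (nat_lit 0x55154) (nat_lit 0x5000400060003000000040003000200010000) (nat_lit 1) (nat_lit 2) (.st (nat_lit 9) (nat_lit 0) (nat_lit 5) (nat_lit 0x55100) (nat_lit 0x2000100020001000000010000000000000000) (nat_lit 1) (nat_lit 1) (.split (nat_lit 9) (nat_lit 4) (.split (nat_lit 4) (nat_lit 3) (.split (nat_lit 5) (nat_lit 3) (.split (nat_lit 8) (nat_lit 0) (.leaf (.cons (nat_lit 0x41540) (nat_lit 0x1000000000003000400020003000000000000) (.cons (nat_lit 0x5440) (nat_lit 0x10002000200000001000000000000) (.cons (nat_lit 0x54005) (nat_lit 0x1000300020000000000000000000000030004) (.cons (nat_lit 0x10015) (nat_lit 0x100000000000000000000000100020002) (.cons (nat_lit 0x45500) (nat_lit 0x2000000030004000300010000000000000000) .nil))))) (.cons (nat_lit 0x1110111110) (nat_lit 0x1000001) (nat_lit 0xe) (nat_lit 0x5760140230) (.cons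 (nat_lit 0x1111011101) (nat_lit 0x100010) (nat_lit 0xe) (nat_lit 0x4201056703) .nil))) (.non (nat_lit 1) (nat_lit 5) (nat_lit 0xaa001) (nat_lit 0x1000200020001000000000000000000000002))) (.non (nat_lit 0) (nat_lit 6) (nat_lit 0x950) (nat_lit 0x100010002000100000000))) (.non (nat_lit 0) (nat_lit 5) (nat_lit 0xaa240) (nat_lit 0x2000100020001000000020002000000000000))) (.non (nat_lit 0) (nat_lit 5) (nat_lit 0xaa100) (nat_lit 0x2000100020001000000020000000000000000)))))))))))))

noncomputable def t1547_59 : Tr := (.ex (nat_lit 5) (.split (nat_lit 9) (nat_lit 1) (.split (nat_lit 4) (nat_lit 3) (.pd (.cons (nat_lit 0) (nat_lit 7) (nat_lit 0) (nat_lit 0x1805532110) (nat_lit 0xf423ff423f00000f423f54591f423fb71aea2c285b8d400000) (.cons (nat_lit 0) (nat_lit 9) (nat_lit 0) (nat_lit 0x765532110) (nat_lit 0xf423fb71aea2c2804737f423fb71aea2c289896500000) (.cons (nat_lit 1) (nat_lit 7) (nat_lit 0) (nat_lit 0x9805532200) (nat_lit 0xf423ff423f00000f423f54591f423fb71aea2c2800000f423f) (.cons (nat_lit 1) (nat_lit 8) (nat_lit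 0) (nat_lit 0x7065532200) (nat_lit 0xf423f00000b71aea2c2804737f423fb71aea2c2800000f423f) (.cons (nat_lit 1) (nat_lit 9) (nat_lit 0) (nat_lit 0x765532200) (nat_lit 0xf423fb71aea2c2804737f423fb71aea2c2800000f423f) (.cons (nat_lit 2) (nat_lit 7) (nat_lit 0) (nat_lit 0x1805533000) (nat_lit 0xf423ff423f00000f423f54591f423fb71ae00000b71ae1f156) (.cons (nat_lit 2) (nat_lit 9) (nat_lit 0) (nat_lit 0x765533000) (nat_lit 0xf423fb71aea2c2804737f423fb71ae00000f423f54591) (.cons (nat_lit 3) (nat_lit 9) (nat_lit 0) (nat_lit 0x765540100) (nat_lit 0xf423fb71aea2c2804737f423f00000f423fb71ae1f156) (.cons (nat_lit 4) (nat_lit 9) (nat_lit 0) (nat_lit 0x765502100) (nat_lit 0xf423fb71aea2c280473700000f423fb71aea2c2804737) .nil))))))))) (.leaf (.cons (nat_lit 0x45404) (nat_lit 0x2000000030004000300000000000000010000) (.cons (nat_lit 0x54005) (nat_lit 0x3000100020000000000000000000000040003) (.cons (nat_lit 0x40015) (nat_lit 0x1000000000000000000000000000100020002) .nil))) .nil)) (.non (nat_lit 0) (nat_lit 5) (nat_lit 0x55254)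 (nat_lit 0x2000100020001000000010002000200020000))) (.non (nat_lit 0) (nat_lit 5) (nat_lit 0xaa004) (nat_lit 0x2000100020001000000000000000000020000))) (.split (nat_lit 0xa) (nat_lit 0) (.split (nat_lit 0xa) (nat_lit 1) (.split (nat_lit 0xa) (nat_lit 2) (.split (nat_lit 0xa) (nat_lit 3) (.split (nat_lit 0xa) (nat_lit 6) (.split (nat_lit 0xa) (nat_lit 7) (.split (nat_lit 0xa) (nat_lit 8) (.split (nat_lit 0xa) (nat_lit 9) (.split (nat_lit 0xa) (nat_lit 4) (.unj (nat_lit 0x105400) (nat_lit 0x10000000000010002000200000000000000000000) (nat_lit 0x155) (nat_lit 0x10002000300040003)) (.sup (nat_lit 0x1000000000000000000000000000300050004) (nat_lit 0x30000000000010005000500000000000000000000))) (.non (nat_lit 0) (nat_lit 5) (nat_lit 0x155004) (nat_lit 0x10002000100020001000000000000000000010000))) (.non (nat_lit 0) (nat_lit 5) (nat_lit 0x155154) (nat_lit 0x20005000400060003000000010002000300040000))) (.non (nat_lit 0) (nat_lit 5) (nat_lit 0x155000) (nat_lit 0x10001000100020001000000000000000000000000))) (.non (nat_lit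 0) (nat_lit 5) (nat_lit 0x155154) (nat_lit 0x20005000300060004000000010002000300040000))) (.non (nat_lit 0) (nat_lit 5) (nat_lit 0x155154) (nat_lit 0x10002000100020001000000010002000200020000))) (.non (nat_lit 0) (nat_lit 5) (nat_lit 0x155054) (nat_lit 0x10002000100020001000000000001000200020000))) (.star (nat_lit 0xa) (nat_lit 1) (nat_lit 5))) (.star (nat_lit 0xa) (nat_lit 0) (nat_lit 5))))

noncomputable def t1547_60 : Tr := (.st (nat_lit 9) (nat_lit 0) (nat_lit 5) (nat_lit 0x55004) (nat_lit 0x2000100020001000000000000000000010000) (nat_lit 1) (nat_lit 1) (.ex (nat_lit 0) (.split (nat_lit 9) (nat_lit 1) (.split (nat_lit 4) (nat_lit 3) (.split (nat_lit 5) (nat_lit 3) (.pd (.cons (nat_lit 2) (nat_lit 7) (nat_lit 0) (nat_lit 0x1805333000) (nat_lit 0xf423ff423f00000f423f54591f423f0671100000b71ae1f156) (.cons (nat_lit 3) (nat_lit 9) (nat_lit 0) (nat_lit 0x765540100) (nat_lit 0xf423fb71aea2c2804737f423f00000f423fb71ae1f156) .nil)) (.leaf (.cons (nat_lit 0x1550) (nat_lit 0x2000200010002000100000000) (.cons (nat_lit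 0x54005) (nat_lit 0x3000100020000000000000000000000040003) (.cons (nat_lit 0x5440) (nat_lit 0x10002000200000001000000000000) (.cons (nat_lit 0x40015) (nat_lit 0x1000000000000000000000000000100020002) .nil)))) (.cons (nat_lit 0x1111011110) (nat_lit 0x100001) (nat_lit 0xb) (nat_lit 0x3201076540) (.cons (nat_lit 0x1110111110) (nat_lit 0x1000001) (nat_lit 0xb) (nat_lit 0x5760210340) .nil)))) (.non (nat_lit 0) (nat_lit 6) (nat_lit 0x950) (nat_lit 0x100010002000100000000))) (.non (nat_lit 0) (nat_lit 5) (nat_lit 0x55254) (nat_lit 0x2000100020001000000010002000200020000))) (.non (nat_lit 0) (nat_lit 5) (nat_lit 0xaa004) (nat_lit 0x2000100020001000000000000000000020000))) (.split (nat_lit 0xa) (nat_lit 1) (.split (nat_lit 0xa) (nat_lit 2) (.split (nat_lit 0xa) (nat_lit 3) (.split (nat_lit 0xa) (nat_lit 4) (.split (nat_lit 0xa) (nat_lit 5) (.split (nat_lit 0xa) (nat_lit 6) (.split (nat_lit 0xa) (nat_lit 7) (.split (nat_lit 0xa) (nat_lit 8) (.split (nat_lit 0xa) (nat_lit 9) (.sup (nat_lit 0x5000000000000000000000000000000020009000a)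 (nat_lit 0x5000a000900000002000000000000)) (.non (nat_lit 0) (nat_lit 5) (nat_lit 0x155004) (nat_lit 0x10002000100020001000000000000000000010000))) (.non (nat_lit 0) (nat_lit 5) (nat_lit 0x155154) (nat_lit 0x20005000400060003000000010002000300040000))) (.non (nat_lit 0) (nat_lit 5) (nat_lit 0x155000) (nat_lit 0x10001000100020001000000000000000000000000))) (.star (nat_lit 0xa) (nat_lit 0) (nat_lit 6))) (.star (nat_lit 0xa) (nat_lit 0) (nat_lit 5))) (.non (nat_lit 0) (nat_lit 6) (nat_lit 0x154554) (nat_lit 0x20003000100020000000300040006000500040000))) (.non (nat_lit 0) (nat_lit 5) (nat_lit 0x155154) (nat_lit 0x10002000100020001000000010002000200020000))) (.non (nat_lit 0) (nat_lit 5) (nat_lit 0x155054) (nat_lit 0x10002000100020001000000000001000200020000))) (.non (nat_lit 0) (nat_lit 5) (nat_lit 0x155014) (nat_lit 0x10002000100020001000000000000000100020000)))))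

noncomputable def t1547_61 : Tr := (.split (nat_lit 5) (nat_lit 3) (.split (nat_lit 5) (nat_lit 4) (.st (nat_lit 1) (nat_lit 0) (nat_lit 5) (nat_lit 0x55014) (nat_lit 0x2000100020001000000000000000100020000) (nat_lit 1) (nat_lit 1) (.st (nat_lit 2) (nat_lit 0) (nat_lit 5) (nat_lit 0x55054) (nat_lit 0x2000100020001000000000001000200020000) (nat_lit 1) (nat_lit 1) (.st (nat_lit 3) (nat_lit 0) (nat_lit 5) (nat_lit 0x55154) (nat_lit 0x2000100020001000000010002000200020000) (nat_lit 1) (nat_lit 1) (.st (nat_lit 6) (nat_lit 0) (nat_lit 5) (nat_lit 0x55154) (nat_lit 0x5000300060004000000010002000300040000) (nat_lit 1) (nat_lit 2) (.st (nat_lit 8) (nat_lit 0) (nat_lit 5) (nat_lit 0x55154) (nat_lit 0x5000400060003000000010002000300040000) (nat_lit 1) (nat_lit 2) (.st (nat_lit 9) (nat_lit 0) (nat_lit 5) (nat_lit 0x55004) (nat_lit 0x2000100020001000000000000000000010000) (nat_lit 1) (nat_lit 1) (.ex (nat_lit 0) t1547_59 (.split (nat_lit 0xa) (nat_lit 1) (.split (nat_lit 0xa) (nat_lit 2) (.split (nat_lit 0xa) (nat_lit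 3) (.split (nat_lit 0xa) (nat_lit 5) (.split (nat_lit 0xa) (nat_lit 6) (.split (nat_lit 0xa) (nat_lit 7) (.split (nat_lit 0xa) (nat_lit 8) (.split (nat_lit 0xa) (nat_lit 9) (.split (nat_lit 0xa) (nat_lit 4) (.sup (nat_lit 0x2800000000000000000000000000000025004a0050) (nat_lit 0x3001c00370050004100000000000000000000)) (.sup (nat_lit 0x2800000000000000000000000000000025004a0050) (nat_lit 0x3001c00370050004100000000000000000000))) (.non (nat_lit 0) (nat_lit 5) (nat_lit 0x155004) (nat_lit 0x10002000100020001000000000000000000010000))) (.non (nat_lit 0) (nat_lit 5) (nat_lit 0x155154) (nat_lit 0x20005000400060003000000010002000300040000))) (.non (nat_lit 0) (nat_lit 5) (nat_lit 0x155000) (nat_lit 0x10001000100020001000000000000000000000000))) (.star (nat_lit 0xa) (nat_lit 0) (nat_lit 6))) (.star (nat_lit 0xa) (nat_lit 0) (nat_lit 5))) (.non (nat_lit 0) (nat_lit 5) (nat_lit 0x155154) (nat_lit 0x10002000100020001000000010002000200020000))) (.non (nat_lit 0) (nat_lit 5) (nat_lit 0x155054) (nat_lit 0x10002000100020001000000000001000200020000)))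 (.non (nat_lit 0) (nat_lit 5) (nat_lit 0x155014) (nat_lit 0x10002000100020001000000000000000100020000)))))))))) (.sup (nat_lit 0x1000000000000000000000000000300050004) (nat_lit 0x10005000500030000000000000000))) (.split (nat_lit 5) (nat_lit 4) (.st (nat_lit 1) (nat_lit 0) (nat_lit 5) (nat_lit 0x55014) (nat_lit 0x2000100020001000000000000000100020000) (nat_lit 1) (nat_lit 1) (.st (nat_lit 2) (nat_lit 0) (nat_lit 5) (nat_lit 0x55054) (nat_lit 0x2000100020001000000000001000200020000) (nat_lit 1) (nat_lit 1) (.st (nat_lit 3) (nat_lit 0) (nat_lit 5) (nat_lit 0x55154) (nat_lit 0x2000100020001000000010002000200020000) (nat_lit 1) (nat_lit 1) (.st (nat_lit 4) (nat_lit 0) (nat_lit 6) (nat_lit 0x54554) (nat_lit 0x3000100020000000300040006000500040000) (nat_lit 1) (nat_lit 2) (.st (nat_lit 5) (nat_lit 0) (nat_lit 6) (nat_lit 0x54554) (nat_lit 0x3000100020000000400030006000500040000) (nat_lit 1) (nat_lit 2) (.st (nat_lit 6) (nat_lit 0) (nat_lit 5) (nat_lit 0x55154) (nat_lit 0x5000300060004000000010002000300040000)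 (nat_lit 1) (nat_lit 2) (.st (nat_lit 8) (nat_lit 0) (nat_lit 5) (nat_lit 0x55154) (nat_lit 0x5000400060003000000010002000300040000) (nat_lit 1) (nat_lit 2) t1547_60))))))) (.non (nat_lit 0) (nat_lit 6) (nat_lit 0x540) (nat_lit 0x100010001000000000000))))

noncomputable def t1547_62 : Tr := (.st (nat_lit 8) (nat_lit 0) (nat_lit 5) (nat_lit 0x55154) (nat_lit 0x5000400060003000000010002000300040000) (nat_lit 1) (nat_lit 2) (.st (nat_lit 9) (nat_lit 0) (nat_lit 5) (nat_lit 0x55004) (nat_lit 0x2000100020001000000000000000000010000) (nat_lit 1) (nat_lit 1) (.ex (nat_lit 5) (.split (nat_lit 9) (nat_lit 1) (.split (nat_lit 4) (nat_lit 3) (.pd (.cons (nat_lit 0) (nat_lit 7) (nat_lit 0) (nat_lit 0x1805532110) (nat_lit 0xf423ff423f00000f423f54591f423fb71aea2c285b8d400000) (.cons (nat_lit 0) (nat_lit 9) (nat_lit 0) (nat_lit 0x765532110) (nat_lit 0xf423fb71aea2c2804737f423fb71aea2c289896500000) (.cons (nat_lit 1) (nat_lit 7) (nat_lit 0x100000001) (nat_lit 0x9005532208) (nat_lit 0xf423f0000100000f423f54591f423fb71aea2c280000000001)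 (.cons (nat_lit 1) (nat_lit 8) (nat_lit 0) (nat_lit 0x7065532200) (nat_lit 0xf423f00000b71aea2c2804737f423fb71aea2c2800000f423f) .nil)))) (.leaf (.cons (nat_lit 0x45404) (nat_lit 0x2000000030004000300000000000000010000) (.cons (nat_lit 0x15401) (nat_lit 0x200030004000300000000000000000001) (.cons (nat_lit 0x50005) (nat_lit 0x1000100000000000000000000000000020002) .nil))) .nil)) (.non (nat_lit 0) (nat_lit 5) (nat_lit 0x55254) (nat_lit 0x2000100020001000000010002000200020000))) (.non (nat_lit 0) (nat_lit 5) (nat_lit 0xaa004) (nat_lit 0x2000100020001000000000000000000020000))) (.split (nat_lit 0xa) (nat_lit 0) (.split (nat_lit 0xa) (nat_lit 1) (.split (nat_lit 0xa) (nat_lit 2) (.split (nat_lit 0xa) (nat_lit 3) (.split (nat_lit 0xa) (nat_lit 6) (.split (nat_lit 0xa) (nat_lit 7) (.split (nat_lit 0xa) (nat_lit 8) (.split (nat_lit 0xa) (nat_lit 9) (.split (nat_lit 0xa) (nat_lit 4) (.unj (nat_lit 0x105400) (nat_lit 0x10000000000010002000200000000000000000000) (nat_lit 0x155) (nat_lit 0x10002000300040003)) (.unj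 (nat_lit 0x50005) (nat_lit 0x1000100000000000000000000000000020002) (nat_lit 0x101540) (nat_lit 0x30000000000000003000400020001000000000000))) (.non (nat_lit 0) (nat_lit 5) (nat_lit 0x155004) (nat_lit 0x10002000100020001000000000000000000010000))) (.non (nat_lit 0) (nat_lit 5) (nat_lit 0x155154) (nat_lit 0x20005000400060003000000010002000300040000))) (.non (nat_lit 0) (nat_lit 5) (nat_lit 0x155000) (nat_lit 0x10001000100020001000000000000000000000000))) (.non (nat_lit 0) (nat_lit 5) (nat_lit 0x155154) (nat_lit 0x20005000300060004000000010002000300040000))) (.non (nat_lit 0) (nat_lit 5) (nat_lit 0x155154) (nat_lit 0x10002000100020001000000010002000200020000))) (.non (nat_lit 0) (nat_lit 5) (nat_lit 0x155054) (nat_lit 0x10002000100020001000000000001000200020000))) (.star (nat_lit 0xa) (nat_lit 1) (nat_lit 5))) (.star (nat_lit 0xa) (nat_lit 0) (nat_lit 5))))))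

noncomputable def t1547_63 : Tr := (.split (nat_lit 9) (nat_lit 1) (.split (nat_lit 9) (nat_lit 4) t1547_55 (.split (nat_lit 8) (nat_lit 1) (.split (nat_lit 8) (nat_lit 4) (.split (nat_lit 6) (nat_lit 4) (.split (nat_lit 5) (nat_lit 4) (.split (nat_lit 8) (nat_lit 0) (.split (nat_lit 5) (nat_lit 3) (.sup (nat_lit 0x100040007000a0008) (nat_lit 0x100030007000a000800000000000000000000)) (.st (nat_lit 1) (nat_lit 0) (nat_lit 6) (nat_lit 0x44554) (nat_lit 0x2000000010000000200030004000300020000) (nat_lit 1) (nat_lit 1) (.st (nat_lit 2) (nat_lit 0) (nat_lit 5) (nat_lit 0x55154) (nat_lit 0x2000100020001000000020002000200010000) (nat_lit 1) (nat_lit 1) (.st (nat_lit 3) (nat_lit 0) (nat_lit 5) (nat_lit 0x55150) (nat_lit 0x2000100020001000000020002000100000000) (nat_lit 1) (nat_lit 1) (.st (nat_lit 5) (nat_lit 0) (nat_lit 6) (nat_lit 0x40554) (nat_lit 0x1000000000000000200020003000200010000) (nat_lit 1) (nat_lit 1) (.st (nat_lit 6) (nat_lit 0) (nat_lit 5) (nat_lit 0x55154) (nat_lit 0x5000300060004000000040003000200010000)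 (nat_lit 1) (nat_lit 2) (.st (nat_lit 8) (nat_lit 0) (nat_lit 5) (nat_lit 0x55154) (nat_lit 0x5000400060003000000040003000200010000) (nat_lit 1) (nat_lit 2) (.st (nat_lit 4) (nat_lit 0) (nat_lit 5) (nat_lit 0x55140) (nat_lit 0x2000100020001000000020001000000000000) (nat_lit 1) (nat_lit 1) (.st (nat_lit 9) (nat_lit 0) (nat_lit 5) (nat_lit 0x55100) (nat_lit 0x2000100020001000000010000000000000000) (nat_lit 1) (nat_lit 1) t1547_56))))))))) t1547_58) (.non (nat_lit 0) (nat_lit 6) (nat_lit 0x54554) (nat_lit 0x3000100020000000200040003000200010000))) (.non (nat_lit 0) (nat_lit 5) (nat_lit 0x45100) (nat_lit 0x1000000010001000000010000000000000000))) (.non (nat_lit 0) (nat_lit 5) (nat_lit 0x54100) (nat_lit 0x1000100010000000000010000000000000000))) (.non (nat_lit 0) (nat_lit 5) (nat_lit 0x54154) (nat_lit 0x1000100010000000000010001000100010000)))) (.split (nat_lit 9) (nat_lit 4) (.split (nat_lit 8) (nat_lit 1) (.split (nat_lit 8) (nat_lit 4) (.split (nat_lit 6) (nat_lit 4) (.split (nat_lit 8) (nat_lit 0) t1547_61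 (.split (nat_lit 5) (nat_lit 3) (.split (nat_lit 5) (nat_lit 4) (.st (nat_lit 6) (nat_lit 0) (nat_lit 5) (nat_lit 0x55154) (nat_lit 0x5000300060004000000010002000300040000) (nat_lit 1) (nat_lit 2) t1547_62) (.sup (nat_lit 0x2000000000000000000000005000a0009) (nat_lit 0x20009000a00050000000000000000))) (.split (nat_lit 5) (nat_lit 4) (.sup (nat_lit 0x500050000000000000000000000000009000a) (nat_lit 0x8000a00030007000100000000)) (.non (nat_lit 0) (nat_lit 6) (nat_lit 0x540) (nat_lit 0x100010001000000000000))))) (.non (nat_lit 0) (nat_lit 5) (nat_lit 0x45154) (nat_lit 0x1000000010001000000010001000100010000))) (.non (nat_lit 0) (nat_lit 5) (nat_lit 0x54154) (nat_lit 0x1000100010000000000010001000100010000))) (.non (nat_lit 0) (nat_lit 5) (nat_lit 0x54004) (nat_lit 0x1000100010000000000000000000000010000))) (.non (nat_lit 0) (nat_lit 5) (nat_lit 0x55104) (nat_lit 0x2000100020001000000010000000000010000))))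

noncomputable def t1547_64 : Tr := (.split (nat_lit 0xc) (nat_lit 0) (.split (nat_lit 0xc) (nat_lit 1) (.split (nat_lit 0xc) (nat_lit 2) (.split (nat_lit 0xc) (nat_lit 3) (.split (nat_lit 0xc) (nat_lit 4) (.split (nat_lit 0xc) (nat_lit 5) (.split (nat_lit 0xc) (nat_lit 6) (.split (nat_lit 0xc) (nat_lit 7) (.split (nat_lit 0xc) (nat_lit 8) (.split (nat_lit 0xc) (nat_lit 9) (.split (nat_lit 0xc) (nat_lit 0xa) (.st (nat_lit 0xb) (nat_lit 0) (nat_lit 5) (nat_lit 0x1555000) (nat_lit 0x1000200020001000200020001000000000000000000000000) (nat_lit 1) (nat_lit 1) (.st (nat_lit 0xc) (nat_lit 1) (nat_lit 5) (nat_lit 0x1555001) (nat_lit 0x2000300040004000500060003000000000000000000000002) (nat_lit 1) (nat_lit 1) (.split (nat_lit 0xc) (nat_lit 0xb) (.leaf (.cons (nat_lit 0x1550) (nat_lit 0x2000200010002000100000000) (.cons (nat_lit 0x54005) (nat_lit 0x3000100020000000000000000000000030004) (.cons (nat_lit 0x5440) (nat_lit 0x10002000200000001000000000000) (.cons (nat_lit 0x40015) (nat_lit 0x1000000000000000000000000000100020002)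 (.cons (nat_lit 0x115400) (nat_lit 0x10000000200030004000300000000000000000000) .nil))))) (.cons (nat_lit 0x111110) (nat_lit 0x1000001) (nat_lit 8) (nat_lit 0x210340) (.cons (nat_lit 0x1111111000001) (nat_lit 0x100010) (nat_lit 0xe) (nat_lit 0x7652401000003) .nil))) (.non (nat_lit 0) (nat_lit 5) (nat_lit 0x2555000) (nat_lit 0x1000200020001000200020001000000000000000000000000))))) (.non (nat_lit 0) (nat_lit 5) (nat_lit 0x1500000) (nat_lit 0x1000100010000000000000000000000000000000000000000))) (.non (nat_lit 0) (nat_lit 5) (nat_lit 0x1554000) (nat_lit 0x1000100010001000100010000000000000000000000000000))) (.non (nat_lit 0) (nat_lit 5) (nat_lit 0x1510000) (nat_lit 0x1000100010000000100000000000000000000000000000000))) (.non (nat_lit 0) (nat_lit 5) (nat_lit 0x1514000) (nat_lit 0x1000100010000000100010000000000000000000000000000))) (.non (nat_lit 0) (nat_lit 5) (nat_lit 0x1515000) (nat_lit 0x1000100010000000100010001000000000000000000000000))) (.non (nat_lit 0) (nat_lit 6) (nat_lit 0x1510554) (nat_lit 0x4000300020000000100000000000500030006000400020000)))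 (.non (nat_lit 0) (nat_lit 6) (nat_lit 0x1510554) (nat_lit 0x4000300020000000100000000000300050006000400020000))) (.non (nat_lit 0) (nat_lit 5) (nat_lit 0x1555150) (nat_lit 0x2000200020001000200020001000000010002000100000000))) (.non (nat_lit 0) (nat_lit 5) (nat_lit 0x1555054) (nat_lit 0x2000200020001000200020001000000000001000200010000))) (.non (nat_lit 2) (nat_lit 7) (nat_lit 0x1500005) (nat_lit 0x3000200010000000000000000000000000000000000040003))) (.non (nat_lit 1) (nat_lit 5) (nat_lit 0x1554001) (nat_lit 0x1000100010001000100010000000000000000000000000001)))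

noncomputable def t1547_65 : Tr := (.ex (nat_lit 0xa) (.leaf (.cons (nat_lit 0x1550) (nat_lit 0x2000200010002000100000000) (.cons (nat_lit 0x54005) (nat_lit 0x3000100020000000000000000000000030004) (.cons (nat_lit 0x5440) (nat_lit 0x10002000200000001000000000000) (.cons (nat_lit 0x40015) (nat_lit 0x1000000000000000000000000000100020002) (.cons (nat_lit 0x115400) (nat_lit 0x10000000200030004000300000000000000000000) .nil))))) (.cons (nat_lit 0x11111000001) (nat_lit 0x100010) (nat_lit 0xc) (nat_lit 0x34201000005) .nil)) (.split (nat_lit 0xb) (nat_lit 0) (.split (nat_lit 0xb) (nat_lit 1) (.split (nat_lit 0xb) (nat_lit 2) (.split (nat_lit 0xb) (nat_lit 3) (.split (nat_lit 0xb) (nat_lit 4) (.split (nat_lit 0xb) (nat_lit 5) (.split (nat_lit 0xb) (nat_lit 6) (.split (nat_lit 0xb) (nat_lit 7) (.split (nat_lit 0xb) (nat_lit 8) (.split (nat_lit 0xb) (nat_lit 9) (.st (nat_lit 0xa) (nat_lit 0) (nat_lit 5) (nat_lit 0x555000) (nat_lit 0x100020001000200020001000000000000000000000000) (nat_lit 1) (nat_lit 1) (.split (nat_lit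 0xb) (nat_lit 0xa) (.ex (nat_lit 0xb) (.leaf (.cons (nat_lit 0x1550) (nat_lit 0x2000200010002000100000000) (.cons (nat_lit 0x54005) (nat_lit 0x3000100020000000000000000000000030004) (.cons (nat_lit 0x5440) (nat_lit 0x10002000200000001000000000000) (.cons (nat_lit 0x40015) (nat_lit 0x1000000000000000000000000000100020002) (.cons (nat_lit 0x115400) (nat_lit 0x10000000200030004000300000000000000000000) .nil))))) (.cons (nat_lit 0x111110) (nat_lit 0x1000001) (nat_lit 8) (nat_lit 0x210340) (.cons (nat_lit 0x111111000001) (nat_lit 0x100010) (nat_lit 0xd) (nat_lit 0x652401000003) .nil))) t1547_64) (.non (nat_lit 0) (nat_lit 5) (nat_lit 0x955000) (nat_lit 0x100020001000200020001000000000000000000000000)))) (.non (nat_lit 0) (nat_lit 5) (nat_lit 0x554000) (nat_lit 0x100010001000100010000000000000000000000000000))) (.non (nat_lit 0) (nat_lit 5) (nat_lit 0x510000) (nat_lit 0x100010000000100000000000000000000000000000000))) (.non (nat_lit 0) (nat_lit 5) (nat_lit 0x514000) (nat_lit 0x100010000000100010000000000000000000000000000)))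 (.non (nat_lit 0) (nat_lit 5) (nat_lit 0x515000) (nat_lit 0x100010000000100010001000000000000000000000000))) (.non (nat_lit 0) (nat_lit 6) (nat_lit 0x514554) (nat_lit 0x400030000000200010000000500030006000400020000))) (.non (nat_lit 0) (nat_lit 6) (nat_lit 0x514554) (nat_lit 0x400030000000200010000000300050006000400020000))) (.non (nat_lit 0) (nat_lit 5) (nat_lit 0x555150) (nat_lit 0x200020001000200020001000000010002000100000000))) (.non (nat_lit 0) (nat_lit 5) (nat_lit 0x555054) (nat_lit 0x200020001000200020001000000000001000200010000))) (.non (nat_lit 2) (nat_lit 7) (nat_lit 0x440005) (nat_lit 0x100000001000000000000000000000000000000020002))) (.non (nat_lit 1) (nat_lit 5) (nat_lit 0x554001) (nat_lit 0x100010001000100010000000000000000000000000001))))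

noncomputable def t1547_66 : Tr := (.split (nat_lit 4) (nat_lit 3) (.split (nat_lit 5) (nat_lit 3) (.pd (.cons (nat_lit 2) (nat_lit 7) (nat_lit 0) (nat_lit 0x805333000) (nat_lit 0xf423ff423f00000f423f54591f423f0671100000f423f17500) .nil) (.ex (nat_lit 8) (.pd (.cons (nat_lit 3) (nat_lit 9) (nat_lit 0) (nat_lit 0x765540100) (nat_lit 0xf423fb71aea2c2804737f423f00000f423fb71ae1f156) .nil) (.leaf (.cons (nat_lit 0x1550) (nat_lit 0x2000200010002000100000000) (.cons (nat_lit 0x54005) (nat_lit 0x3000100020000000000000000000000030004) (.cons (nat_lit 0x5440) (nat_lit 0x10002000200000001000000000000) (.cons (nat_lit 0x40015) (nat_lit 0x1000000000000000000000000000100020002) .nil)))) (.cons (nat_lit 0x111110) (nat_lit 0x1000001) (nat_lit 8) (nat_lit 0x210340) (.cons (nat_lit 0x1111000001) (nat_lit 0x100010) (nat_lit 8) (nat_lit 0x3201000004) .nil)))) (.split (nat_lit 0xa) (nat_lit 0) (.split (nat_lit 0xa) (nat_lit 1) (.split (nat_lit 0xa) (nat_lit 2) (.split (nat_lit 0xa) (nat_lit 3) (.split (nat_lit 0xa) (nat_lit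 4) (.split (nat_lit 0xa) (nat_lit 5) (.split (nat_lit 0xa) (nat_lit 6) (.split (nat_lit 0xa) (nat_lit 7) (.split (nat_lit 0xa) (nat_lit 9) (.st (nat_lit 8) (nat_lit 0) (nat_lit 5) (nat_lit 0x155000) (nat_lit 0x10001000200020001000000000000000000000000) (nat_lit 1) (nat_lit 1) (.split (nat_lit 0xa) (nat_lit 8) t1547_65 (.non (nat_lit 0) (nat_lit 5) (nat_lit 0x255000) (nat_lit 0x10001000200020001000000000000000000000000)))) (.non (nat_lit 0) (nat_lit 5) (nat_lit 0x154000) (nat_lit 0x10001000100010000000000000000000000000000))) (.non (nat_lit 0) (nat_lit 5) (nat_lit 0x114000) (nat_lit 0x10000000100010000000000000000000000000000))) (.non (nat_lit 0) (nat_lit 5) (nat_lit 0x115000) (nat_lit 0x10000000100010001000000000000000000000000))) (.non (nat_lit 0) (nat_lit 6) (nat_lit 0x154554) (nat_lit 0x40001000300020000000500030006000400020000))) (.non (nat_lit 0) (nat_lit 6) (nat_lit 0x154554) (nat_lit 0x40001000300020000000300050006000400020000))) (.non (nat_lit 0) (nat_lit 5) (nat_lit 0x155150) (nat_lit 0x20001000200020001000000010002000100000000)))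 (.non (nat_lit 0) (nat_lit 5) (nat_lit 0x155054) (nat_lit 0x20001000200020001000000000001000200010000))) (.non (nat_lit 2) (nat_lit 7) (nat_lit 0x140005) (nat_lit 0x10001000000000000000000000000000000020002))) (.non (nat_lit 1) (nat_lit 5) (nat_lit 0x154001) (nat_lit 0x10001000100010000000000000000000000000001))))) (.non (nat_lit 0) (nat_lit 6) (nat_lit 0x950) (nat_lit 0x100010002000100000000))) (.non (nat_lit 0) (nat_lit 6) (nat_lit 0x650) (nat_lit 0x100010002000100000000)))

noncomputable def t1547_67 : Tr := (.ex (nat_lit 5) (.ex (nat_lit 6) (.split (nat_lit 9) (nat_lit 0) t1547_66 (.non (nat_lit 1) (nat_lit 5) (nat_lit 0xaa001) (nat_lit 0x2000100020001000000000000000000000002))) (.split (nat_lit 0xa) (nat_lit 0) (.split (nat_lit 0xa) (nat_lit 1) (.split (nat_lit 0xa) (nat_lit 2) (.split (nat_lit 0xa) (nat_lit 3) (.split (nat_lit 0xa) (nat_lit 4) (.split (nat_lit 0xa) (nat_lit 7) (.split (nat_lit 0xa) (nat_lit 8) (.split (nat_lit 0xa) (nat_lit 9) (.split (nat_lit 0xa) (nat_lit 5) (.sup (nat_lit 0x500000000000000000000000000020009000a)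 (nat_lit 0x5000000000000000a000900000002000000000000)) (.unj (nat_lit 0x101400) (nat_lit 0x10000000000000001000100000000000000000000) (nat_lit 0x40015) (nat_lit 0x1000000000000000000000000000100020002))) (.non (nat_lit 0) (nat_lit 5) (nat_lit 0x145000) (nat_lit 0x10001000000010001000000000000000000000000))) (.non (nat_lit 0) (nat_lit 5) (nat_lit 0x115000) (nat_lit 0x10000000100010001000000000000000000000000))) (.non (nat_lit 0) (nat_lit 5) (nat_lit 0x105000) (nat_lit 0x10000000000010001000000000000000000000000))) (.non (nat_lit 1) (nat_lit 5) (nat_lit 0x155151) (nat_lit 0x40004000300060005000000030002000100000002))) (.non (nat_lit 0) (nat_lit 5) (nat_lit 0x155150) (nat_lit 0x20001000100020002000000010002000100000000))) (.non (nat_lit 0) (nat_lit 5) (nat_lit 0x155054) (nat_lit 0x20001000100020002000000000001000200010000))) (.star (nat_lit 0xa) (nat_lit 1) (nat_lit 6))) (.star (nat_lit 0xa) (nat_lit 0) (nat_lit 6)))) (.split (nat_lit 0xa) (nat_lit 0) (.split (nat_lit 0xa) (nat_lit 1) (.split (nat_lit 0xa)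 (nat_lit 2) (.split (nat_lit 0xa) (nat_lit 3) (.split (nat_lit 0xa) (nat_lit 4) (.split (nat_lit 0xa) (nat_lit 7) (.split (nat_lit 0xa) (nat_lit 8) (.split (nat_lit 0xa) (nat_lit 9) (.split (nat_lit 0xa) (nat_lit 6) (.sup (nat_lit 0x3000000000000000000000000000100050005) (nat_lit 0x30000000000000004000500000001000000000000)) (.unj (nat_lit 0x101400) (nat_lit 0x10000000000000001000100000000000000000000) (nat_lit 0x40015) (nat_lit 0x1000000000000000000000000000100020002))) (.non (nat_lit 0) (nat_lit 6) (nat_lit 0x154554) (nat_lit 0x40003000100020000000500030006000400020000))) (.non (nat_lit 0) (nat_lit 6) (nat_lit 0x154554) (nat_lit 0x40001000300020000000500030006000400020000))) (.non (nat_lit 0) (nat_lit 5) (nat_lit 0x155000) (nat_lit 0x10001000100020001000000000000000000000000))) (.non (nat_lit 0) (nat_lit 6) (nat_lit 0x100540) (nat_lit 0x10000000000000000000100010001000000000000))) (.non (nat_lit 0) (nat_lit 6) (nat_lit 0x100440) (nat_lit 0x10000000000000000000100000001000000000000))) (.non (nat_lit 0)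 (nat_lit 6) (nat_lit 0x100450) (nat_lit 0x10000000000000000000100000001000100000000))) (.star (nat_lit 0xa) (nat_lit 1) (nat_lit 5))) (.star (nat_lit 0xa) (nat_lit 0) (nat_lit 5))))

noncomputable def t1547_68 : Tr := (.split (nat_lit 0xc) (nat_lit 0) (.split (nat_lit 0xc) (nat_lit 1) (.split (nat_lit 0xc) (nat_lit 2) (.split (nat_lit 0xc) (nat_lit 3) (.split (nat_lit 0xc) (nat_lit 4) (.split (nat_lit 0xc) (nat_lit 5) (.split (nat_lit 0xc) (nat_lit 6) (.split (nat_lit 0xc) (nat_lit 7) (.split (nat_lit 0xc) (nat_lit 8) (.split (nat_lit 0xc) (nat_lit 9) (.split (nat_lit 0xc) (nat_lit 0xa) (.st (nat_lit 0xb) (nat_lit 0) (nat_lit 6) (nat_lit 0x1500550) (nat_lit 0x1000200020000000000000000000100020002000100000000) (nat_lit 1) (nat_lit 1) (.st (nat_lit 0xc) (nat_lit 0) (nat_lit 6) (nat_lit 0x1500554) (nat_lit 0x2000300040000000000000000000300050006000400020000) (nat_lit 1) (nat_lit 1) (.split (nat_lit 0xc) (nat_lit 0xb) (.leaf (.cons (nat_lit 0x101540) (nat_lit 0x10000000000000003000400020003000000000000) (.cons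 (nat_lit 0x54005) (nat_lit 0x3000100020000000000000000000000030004) (.cons (nat_lit 0x40015) (nat_lit 0x1000000000000000000000000000100020002) (.cons (nat_lit 0x5440) (nat_lit 0x10002000200000001000000000000) .nil)))) (.cons (nat_lit 0x1110000111110) (nat_lit 0x1000001) (nat_lit 0xe) (nat_lit 0x7650000140230) (.cons (nat_lit 0x1111000001) (nat_lit 0x100010) (nat_lit 8) (nat_lit 0x3201000004) .nil))) (.non (nat_lit 0) (nat_lit 6) (nat_lit 0x2500550) (nat_lit 0x1000200020000000000000000000100020002000100000000))))) (.non (nat_lit 0) (nat_lit 5) (nat_lit 0x1500000) (nat_lit 0x1000100010000000000000000000000000000000000000000))) (.non (nat_lit 0) (nat_lit 6) (nat_lit 0x1540554) (nat_lit 0x2000300040001000000000000000300050006000400020000))) (.non (nat_lit 0) (nat_lit 6) (nat_lit 0x1510554) (nat_lit 0x2000300040000000100000000000300050006000400020000))) (.non (nat_lit 0) (nat_lit 5) (nat_lit 0x1055000) (nat_lit 0x1000000000001000100020001000000000000000000000000))) (.non (nat_lit 1) (nat_lit 5) (nat_lit 0x1555101)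 (nat_lit 0x4000300020004000300060005000000010000000000000002))) (.non (nat_lit 0) (nat_lit 6) (nat_lit 0x1500540) (nat_lit 0x1000100010000000000000000000100010001000000000000))) (.non (nat_lit 0) (nat_lit 5) (nat_lit 0x1500100) (nat_lit 0x1000100010000000000000000000000010000000000000000))) (.non (nat_lit 0) (nat_lit 5) (nat_lit 0x1500140) (nat_lit 0x1000100010000000000000000000000010001000000000000))) (.non (nat_lit 0) (nat_lit 5) (nat_lit 0x1500150) (nat_lit 0x1000100010000000000000000000000010001000100000000))) (.non (nat_lit 0) (nat_lit 5) (nat_lit 0x1500154) (nat_lit 0x1000100010000000000000000000000010001000100010000))) (.non (nat_lit 3) (nat_lit 9) (nat_lit 0x1500005) (nat_lit 0x3000200010000000000000000000000000000000000030004)))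

noncomputable def t1547_69 : Tr := (.ex (nat_lit 0xa) (.leaf (.cons (nat_lit 0x101540) (nat_lit 0x10000000000000003000400020003000000000000) (.cons (nat_lit 0x54005) (nat_lit 0x3000100020000000000000000000000030004) (.cons (nat_lit 0x40015) (nat_lit 0x1000000000000000000000000000100020002) (.cons (nat_lit 0x5440) (nat_lit 0x10002000200000001000000000000) .nil)))) (.cons (nat_lit 0x10000111110) (nat_lit 0x1000001) (nat_lit 0xc) (nat_lit 0x50000140230) .nil)) (.split (nat_lit 0xb) (nat_lit 0) (.split (nat_lit 0xb) (nat_lit 1) (.split (nat_lit 0xb) (nat_lit 2) (.split (nat_lit 0xb) (nat_lit 3) (.split (nat_lit 0xb) (nat_lit 4) (.split (nat_lit 0xb) (nat_lit 5) (.split (nat_lit 0xb) (nat_lit 6) (.split (nat_lit 0xb) (nat_lit 7) (.split (nat_lit 0xb) (nat_lit 8) (.split (nat_lit 0xb) (nat_lit 9) (.st (nat_lit 0xa) (nat_lit 0) (nat_lit 6) (nat_lit 0x500550) (nat_lit 0x100020000000000000000000100020002000100000000) (nat_lit 1) (nat_lit 1) (.split (nat_lit 0xb) (nat_lit 0xa) (.ex (nat_lit 0xb) (.leaf (.cons (nat_lit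 0x101540) (nat_lit 0x10000000000000003000400020003000000000000) (.cons (nat_lit 0x54005) (nat_lit 0x3000100020000000000000000000000030004) (.cons (nat_lit 0x40015) (nat_lit 0x1000000000000000000000000000100020002) (.cons (nat_lit 0x5440) (nat_lit 0x10002000200000001000000000000) .nil)))) (.cons (nat_lit 0x110000111110) (nat_lit 0x1000001) (nat_lit 0xd) (nat_lit 0x650000140230) (.cons (nat_lit 0x1111000001) (nat_lit 0x100010) (nat_lit 8) (nat_lit 0x3201000004) .nil))) t1547_68) (.non (nat_lit 0) (nat_lit 6) (nat_lit 0x900550) (nat_lit 0x100020000000000000000000100020002000100000000)))) (.non (nat_lit 0) (nat_lit 6) (nat_lit 0x544554) (nat_lit 0x300040002000000010000000300050006000400020000))) (.non (nat_lit 0) (nat_lit 6) (nat_lit 0x514554) (nat_lit 0x300040000000200010000000300050006000400020000))) (.non (nat_lit 0) (nat_lit 5) (nat_lit 0x455000) (nat_lit 0x100000001000100020001000000000000000000000000))) (.non (nat_lit 1) (nat_lit 5) (nat_lit 0x555141) (nat_lit 0x400030004000300060005000000020001000000000002)))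 (.non (nat_lit 0) (nat_lit 6) (nat_lit 0x500540) (nat_lit 0x100010000000000000000000100010001000000000000))) (.non (nat_lit 0) (nat_lit 5) (nat_lit 0x500100) (nat_lit 0x100010000000000000000000000010000000000000000))) (.non (nat_lit 0) (nat_lit 5) (nat_lit 0x500140) (nat_lit 0x100010000000000000000000000010001000000000000))) (.non (nat_lit 0) (nat_lit 5) (nat_lit 0x500150) (nat_lit 0x100010000000000000000000000010001000100000000))) (.non (nat_lit 0) (nat_lit 5) (nat_lit 0x500154) (nat_lit 0x100010000000000000000000000010001000100010000))) (.non (nat_lit 3) (nat_lit 9) (nat_lit 0x500105) (nat_lit 0x300020000000000000000000000010000000000030004))))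

noncomputable def t1547_70 : Tr := (.split (nat_lit 0xe) (nat_lit 3) (.split (nat_lit 0xe) (nat_lit 4) (.split (nat_lit 0xe) (nat_lit 5) (.split (nat_lit 0xe) (nat_lit 6) (.split (nat_lit 0xe) (nat_lit 7) (.split (nat_lit 0xe) (nat_lit 8) (.split (nat_lit 0xe) (nat_lit 9) (.split (nat_lit 0xe) (nat_lit 0xa) (.split (nat_lit 0xe) (nat_lit 0xb) (.split (nat_lit 0xe) (nat_lit 0xc) (.st (nat_lit 0xd) (nat_lit 0) (nat_lit 6) (nat_lit 0x14100550) (nat_lit 0x100020000000000020000000000000000000100020002000100000000) (nat_lit 1) (nat_lit 1) (.st (nat_lit 0xe) (nat_lit 0) (nat_lit 6) (nat_lit 0x14100554) (nat_lit 0x200030000000000040000000000000000000300050006000400020000) (nat_lit 1) (nat_lit 1) (.split (nat_lit 0xe) (nat_lit 0xd) (.leaf (.cons (nat_lit 0x101540) (nat_lit 0x10000000000000003000400020003000000000000) (.cons (nat_lit 0x54005) (nat_lit 0x3000100020000000000000000000000030004) (.cons (nat_lit 0x40015) (nat_lit 0x1000000000000000000000000000100020002) (.cons (nat_lit 0x415400) (nat_lit 0x100000000000200030004000300000000000000000000)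 .nil)))) (.cons (nat_lit 0x110010000111110) (nat_lit 0x1000001) (nat_lit 0xe) (nat_lit 0x760050000140230) (.cons (nat_lit 0x1101111000001) (nat_lit 0x100010) (nat_lit 0xd) (nat_lit 0x6502401000003) .nil))) (.non (nat_lit 0) (nat_lit 6) (nat_lit 0x24100550) (nat_lit 0x100020000000000020000000000000000000100020002000100000000))))) (.non (nat_lit 0) (nat_lit 6) (nat_lit 0x15100554) (nat_lit 0x200030001000000040000000000000000000300050006000400020000))) (.non (nat_lit 0) (nat_lit 5) (nat_lit 0x15554000) (nat_lit 0x300020002000400010001000300020000000000000000000000000000))) (.non (nat_lit 0) (nat_lit 5) (nat_lit 0x14100000) (nat_lit 0x100010000000000010000000000000000000000000000000000000000))) (.non (nat_lit 0) (nat_lit 5) (nat_lit 0x15455000) (nat_lit 0x200010001000200000003000300040002000000000000000000000000))) (.non (nat_lit 0) (nat_lit 5) (nat_lit 0x15454000) (nat_lit 0x200010001000200000001000300020000000000000000000000000000))) (.non (nat_lit 0) (nat_lit 5) (nat_lit 0x15554000) (nat_lit 0x300020001000200010002000300040000000000000000000000000000)))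 (.non (nat_lit 0) (nat_lit 5) (nat_lit 0x15455000) (nat_lit 0x200010001000200000002000300040003000000000000000000000000))) (.non (nat_lit 0) (nat_lit 6) (nat_lit 0x14100540) (nat_lit 0x100010000000000010000000000000000000100010001000000000000))) (.non (nat_lit 0) (nat_lit 5) (nat_lit 0x14100100) (nat_lit 0x100010000000000010000000000000000000000010000000000000000))) (.non (nat_lit 0) (nat_lit 5) (nat_lit 0x14100140) (nat_lit 0x100010000000000010000000000000000000000010001000000000000)))

noncomputable def t1547_71 : Tr := (.split (nat_lit 0xf) (nat_lit 4) (.split (nat_lit 0xf) (nat_lit 5) (.split (nat_lit 0xf) (nat_lit 6) (.split (nat_lit 0xf) (nat_lit 7) (.split (nat_lit 0xf) (nat_lit 8) (.split (nat_lit 0xf) (nat_lit 9) (.split (nat_lit 0xf) (nat_lit 0xa) (.split (nat_lit 0xf) (nat_lit 0xb) (.split (nat_lit 0xf) (nat_lit 0xc) (.split (nat_lit 0xf) (nat_lit 0xe) (.st (nat_lit 0xd) (nat_lit 0) (nat_lit 6) (nat_lit 0x44100550) (nat_lit 0x1000000020000000000020000000000000000000100020002000100000000) (nat_lit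 1) (nat_lit 1) (.st (nat_lit 0xf) (nat_lit 0) (nat_lit 6) (nat_lit 0x44100554) (nat_lit 0x2000000030000000000040000000000000000000300050006000400020000) (nat_lit 1) (nat_lit 1) (.split (nat_lit 0xf) (nat_lit 0xd) (.leaf (.cons (nat_lit 0x101540) (nat_lit 0x10000000000000003000400020003000000000000) (.cons (nat_lit 0x54005) (nat_lit 0x3000100020000000000000000000000030004) (.cons (nat_lit 0x40015) (nat_lit 0x1000000000000000000000000000100020002) (.cons (nat_lit 0x415400) (nat_lit 0x100000000000200030004000300000000000000000000) .nil)))) (.cons (nat_lit 0x1010010000111110) (nat_lit 0x1000001) (nat_lit 0xe) (nat_lit 0x7060050000140230) (.cons (nat_lit 0x101101111000001) (nat_lit 0x100010) (nat_lit 0xe) (nat_lit 0x706502401000003) .nil))) (.non (nat_lit 0) (nat_lit 6) (nat_lit 0x84100550) (nat_lit 0x1000000020000000000020000000000000000000100020002000100000000))))) (.non (nat_lit 0) (nat_lit 6) (nat_lit 0x54100554) (nat_lit 0x2000100030000000000040000000000000000000300050006000400020000))) (.non (nat_lit 0)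 (nat_lit 5) (nat_lit 0x55514000) (nat_lit 0x3000200020004000300010000000200010000000000000000000000000000))) (.non (nat_lit 0) (nat_lit 5) (nat_lit 0x55414000) (nat_lit 0x2000100010002000300000000000200010000000000000000000000000000))) (.non (nat_lit 0) (nat_lit 5) (nat_lit 0x44100000) (nat_lit 0x1000000010000000000010000000000000000000000000000000000000000))) (.non (nat_lit 0) (nat_lit 5) (nat_lit 0x45455000) (nat_lit 0x2000000010001000200000003000300040002000000000000000000000000))) (.non (nat_lit 0) (nat_lit 5) (nat_lit 0x55514000) (nat_lit 0x3000100020002000300010000000400020000000000000000000000000000))) (.non (nat_lit 0) (nat_lit 5) (nat_lit 0x45554000) (nat_lit 0x3000000020001000200010002000300040000000000000000000000000000))) (.non (nat_lit 0) (nat_lit 5) (nat_lit 0x45455000) (nat_lit 0x2000000010001000200000002000300040003000000000000000000000000))) (.non (nat_lit 0) (nat_lit 6) (nat_lit 0x44100540) (nat_lit 0x1000000010000000000010000000000000000000100010001000000000000))) (.non (nat_lit 0) (nat_lit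 5) (nat_lit 0x44100100) (nat_lit 0x1000000010000000000010000000000000000000000010000000000000000)))

noncomputable def t1547_72 : Tr := (.split (nat_lit 0xe) (nat_lit 7) (.split (nat_lit 0xe) (nat_lit 8) (.split (nat_lit 0xe) (nat_lit 9) (.split (nat_lit 0xe) (nat_lit 0xa) (.split (nat_lit 0xe) (nat_lit 0xb) (.split (nat_lit 0xe) (nat_lit 0xd) (.st (nat_lit 0xc) (nat_lit 0) (nat_lit 5) (nat_lit 0x11455000) (nat_lit 0x100000002000200000001000200020001000000000000000000000000) (nat_lit 1) (nat_lit 1) (.st (nat_lit 0xe) (nat_lit 1) (nat_lit 5) (nat_lit 0x11455001) (nat_lit 0x200000003000400000004000500060003000000000000000000000002) (nat_lit 1) (nat_lit 1) (.split (nat_lit 0xe) (nat_lit 0xc) (.ex (nat_lit 0xd) (.leaf (.cons (nat_lit 0x101540) (nat_lit 0x10000000000000003000400020003000000000000) (.cons (nat_lit 0x54005) (nat_lit 0x3000100020000000000000000000000030004) (.cons (nat_lit 0x40015) (nat_lit 0x1000000000000000000000000000100020002) (.cons (nat_lit 0x415400) (nat_lit 0x100000000000200030004000300000000000000000000)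 .nil)))) (.cons (nat_lit 0x10010000111110) (nat_lit 0x1000001) (nat_lit 0xd) (nat_lit 0x60050000140230) (.cons (nat_lit 0x101101111000001) (nat_lit 0x100010) (nat_lit 0xe) (nat_lit 0x706502401000003) .nil))) (.split (nat_lit 0xf) (nat_lit 0) (.split (nat_lit 0xf) (nat_lit 1) (.split (nat_lit 0xf) (nat_lit 2) (.split (nat_lit 0xf) (nat_lit 3) t1547_71 (.non (nat_lit 0) (nat_lit 5) (nat_lit 0x44100140) (nat_lit 0x1000000010000000000010000000000000000000000010001000000000000))) (.non (nat_lit 0) (nat_lit 5) (nat_lit 0x44100150) (nat_lit 0x1000000010000000000010000000000000000000000010001000100000000))) (.non (nat_lit 0) (nat_lit 5) (nat_lit 0x44100154) (nat_lit 0x1000000010000000000010000000000000000000000010001000100010000))) (.non (nat_lit 1) (nat_lit 5) (nat_lit 0x41455001) (nat_lit 0x1000000000001000200000003000300040002000000000000000000000002)))) (.non (nat_lit 0) (nat_lit 5) (nat_lit 0x21455000) (nat_lit 0x100000002000200000001000200020001000000000000000000000000))))) (.non (nat_lit 0) (nat_lit 6) (nat_lit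 0x15100554) (nat_lit 0x200030001000000040000000000000000000300050006000400020000))) (.non (nat_lit 0) (nat_lit 5) (nat_lit 0x11400000) (nat_lit 0x100000001000100000000000000000000000000000000000000000000))) (.non (nat_lit 0) (nat_lit 5) (nat_lit 0x15555100) (nat_lit 0x200010002000200020001000200020001000000010000000000000000))) (.non (nat_lit 0) (nat_lit 5) (nat_lit 0x11454000) (nat_lit 0x100000001000100000001000100010000000000000000000000000000))) (.non (nat_lit 0) (nat_lit 5) (nat_lit 0x11410000) (nat_lit 0x100000001000100000000000100000000000000000000000000000000))) (.non (nat_lit 0) (nat_lit 5) (nat_lit 0x11414000) (nat_lit 0x100000001000100000000000100010000000000000000000000000000)))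

noncomputable def t1547_73 : Tr := (.split (nat_lit 0xd) (nat_lit 0xc) (.st (nat_lit 0xa) (nat_lit 0) (nat_lit 6) (nat_lit 0x4100550) (nat_lit 0x10000000000020000000000000000000100020002000100000000) (nat_lit 1) (nat_lit 1) (.split (nat_lit 0xd) (nat_lit 0xa) (.ex (nat_lit 0xc) (.ex (nat_lit 0xd) (.leaf (.cons (nat_lit 0x101540) (nat_lit 0x10000000000000003000400020003000000000000) (.cons (nat_lit 0x54005) (nat_lit 0x3000100020000000000000000000000030004) (.cons (nat_lit 0x40015) (nat_lit 0x1000000000000000000000000000100020002) (.cons (nat_lit 0x415400) (nat_lit 0x100000000000200030004000300000000000000000000) .nil)))) (.cons (nat_lit 0x10010000111110) (nat_lit 0x1000001) (nat_lit 0xd) (nat_lit 0x60050000140230) (.cons (nat_lit 0x1101111000001) (nat_lit 0x100010) (nat_lit 0xd) (nat_lit 0x6502401000003) .nil))) (.split (nat_lit 0xe) (nat_lit 0) (.split (nat_lit 0xe) (nat_lit 1) (.split (nat_lit 0xe) (nat_lit 2) t1547_70 (.non (nat_lit 0) (nat_lit 5) (nat_lit 0x14100150) (nat_lit 0x100010000000000010000000000000000000000010001000100000000)))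 (.non (nat_lit 0) (nat_lit 5) (nat_lit 0x14100154) (nat_lit 0x100010000000000010000000000000000000000010001000100010000))) (.non (nat_lit 1) (nat_lit 5) (nat_lit 0x11455001) (nat_lit 0x100000001000200000003000300040002000000000000000000000002)))) (.split (nat_lit 0xe) (nat_lit 0) (.split (nat_lit 0xe) (nat_lit 1) (.split (nat_lit 0xe) (nat_lit 2) (.split (nat_lit 0xe) (nat_lit 3) (.split (nat_lit 0xe) (nat_lit 4) (.split (nat_lit 0xe) (nat_lit 5) (.split (nat_lit 0xe) (nat_lit 6) t1547_72 (.non (nat_lit 0) (nat_lit 5) (nat_lit 0x11415000) (nat_lit 0x100000001000100000000000100010001000000000000000000000000))) (.non (nat_lit 0) (nat_lit 6) (nat_lit 0x15100550) (nat_lit 0x200010001000000020000000000000000000300030004000200000000))) (.non (nat_lit 0) (nat_lit 5) (nat_lit 0x15514140) (nat_lit 0x500020004000300040000000200010000000000060003000000000000))) (.non (nat_lit 0) (nat_lit 5) (nat_lit 0x15500150) (nat_lit 0x300010002000100020000000000000000000000030004000200000000))) (.non (nat_lit 0) (nat_lit 5) (nat_lit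 0x11455054) (nat_lit 0x200000002000200000001000200020001000000000001000200010000))) (.non (nat_lit 0) (nat_lit 6) (nat_lit 0x14100554) (nat_lit 0x100010000000000020000000000000000000200030004000300020000))) (.non (nat_lit 1) (nat_lit 5) (nat_lit 0x11454001) (nat_lit 0x100000001000100000001000100010000000000000000000000000001)))) (.non (nat_lit 0) (nat_lit 6) (nat_lit 0x8100550) (nat_lit 0x10000000000020000000000000000000100020002000100000000)))) (.non (nat_lit 0) (nat_lit 6) (nat_lit 0x5500554) (nat_lit 0x30002000100040000000000000000000300050006000400020000)))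

noncomputable def t1547_74 : Tr := (.split (nat_lit 0xc) (nat_lit 0xa) (.st (nat_lit 0xb) (nat_lit 0) (nat_lit 5) (nat_lit 0x1455000) (nat_lit 0x1000200000001000200020001000000000000000000000000) (nat_lit 1) (nat_lit 1) (.split (nat_lit 0xc) (nat_lit 0xb) (.ex (nat_lit 0xa) (.leaf (.cons (nat_lit 0x101540) (nat_lit 0x10000000000000003000400020003000000000000) (.cons (nat_lit 0x54005) (nat_lit 0x3000100020000000000000000000000030004) (.cons (nat_lit 0x40015) (nat_lit 0x1000000000000000000000000000100020002) (.cons (nat_lit 0x415400) (nat_lit 0x100000000000200030004000300000000000000000000) .nil)))) (.cons (nat_lit 0x10000111110) (nat_lit 0x1000001) (nat_lit 0xc) (nat_lit 0x50000140230) .nil)) (.split (nat_lit 0xd) (nat_lit 0) (.split (nat_lit 0xd) (nat_lit 1) (.split (nat_lit 0xd) (nat_lit 2) (.split (nat_lit 0xd) (nat_lit 3) (.split (nat_lit 0xd) (nat_lit 4) (.split (nat_lit 0xd) (nat_lit 5) (.split (nat_lit 0xd) (nat_lit 6) (.split (nat_lit 0xd) (nat_lit 7) (.split (nat_lit 0xd) (nat_lit 8) (.split (nat_lit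 0xd) (nat_lit 9) (.split (nat_lit 0xd) (nat_lit 0xb) t1547_73 (.non (nat_lit 0) (nat_lit 5) (nat_lit 0x5455000) (nat_lit 0x10001000200000001000200020001000000000000000000000000))) (.non (nat_lit 0) (nat_lit 5) (nat_lit 0x5555000) (nat_lit 0x20001000200010003000300040002000000000000000000000000))) (.non (nat_lit 0) (nat_lit 5) (nat_lit 0x5554000) (nat_lit 0x20001000200010001000300020000000000000000000000000000))) (.non (nat_lit 0) (nat_lit 5) (nat_lit 0x4055000) (nat_lit 0x10000000000000001000100020001000000000000000000000000))) (.non (nat_lit 0) (nat_lit 5) (nat_lit 0x5555000) (nat_lit 0x20001000200010002000300040003000000000000000000000000))) (.non (nat_lit 0) (nat_lit 6) (nat_lit 0x4100540) (nat_lit 0x10000000000010000000000000000000100010001000000000000))) (.non (nat_lit 0) (nat_lit 5) (nat_lit 0x4100100) (nat_lit 0x10000000000010000000000000000000000010000000000000000))) (.non (nat_lit 0) (nat_lit 5) (nat_lit 0x4100140) (nat_lit 0x10000000000010000000000000000000000010001000000000000))) (.non (nat_lit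 0) (nat_lit 5) (nat_lit 0x4100150) (nat_lit 0x10000000000010000000000000000000000010001000100000000))) (.non (nat_lit 0) (nat_lit 5) (nat_lit 0x4100154) (nat_lit 0x10000000000010000000000000000000000010001000100010000))) (.non (nat_lit 1) (nat_lit 5) (nat_lit 0x5455001) (nat_lit 0x10001000200000003000300040002000000000000000000000002)))) (.non (nat_lit 0) (nat_lit 5) (nat_lit 0x2455000) (nat_lit 0x1000200000001000200020001000000000000000000000000)))) (.non (nat_lit 0) (nat_lit 6) (nat_lit 0x1510554) (nat_lit 0x3000200040000000100000000000300050006000400020000)))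

noncomputable def t1547_75 : Tr := (.split (nat_lit 0xa) (nat_lit 4) (.split (nat_lit 4) (nat_lit 3) (.split (nat_lit 0xb) (nat_lit 8) (.split (nat_lit 5) (nat_lit 3) (.split (nat_lit 9) (nat_lit 0) (.ex (nat_lit 0xb) (.leaf (.cons (nat_lit 0x101540) (nat_lit 0x10000000000000003000400020003000000000000) (.cons (nat_lit 0x54005) (nat_lit 0x3000100020000000000000000000000030004) (.cons (nat_lit 0x40015) (nat_lit 0x1000000000000000000000000000100020002) (.cons (nat_lit 0x415400) (nat_lit 0x100000000000200030004000300000000000000000000) .nil)))) (.cons (nat_lit 0x101111000001) (nat_lit 0x100010) (nat_lit 0xc) (nat_lit 0x304201000005) .nil)) (.split (nat_lit 0xc) (nat_lit 0) (.split (nat_lit 0xc) (nat_lit 1) (.split (nat_lit 0xc) (nat_lit 2) (.split (nat_lit 0xc) (nat_lit 3) (.split (nat_lit 0xc) (nat_lit 4) (.split (nat_lit 0xc) (nat_lit 5) (.split (nat_lit 0xc) (nat_lit 6) (.split (nat_lit 0xc) (nat_lit 7) (.split (nat_lit 0xc) (nat_lit 8) (.split (nat_lit 0xc) (nat_lit 9) t1547_74 (.non (nat_lit 0) (nat_lit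 5) (nat_lit 0x1454000) (nat_lit 0x1000100000001000100010000000000000000000000000000))) (.non (nat_lit 0) (nat_lit 5) (nat_lit 0x1410000) (nat_lit 0x1000100000000000100000000000000000000000000000000))) (.non (nat_lit 0) (nat_lit 5) (nat_lit 0x1414000) (nat_lit 0x1000100000000000100010000000000000000000000000000))) (.non (nat_lit 0) (nat_lit 5) (nat_lit 0x1415000) (nat_lit 0x1000100000000000100010001000000000000000000000000))) (.non (nat_lit 0) (nat_lit 6) (nat_lit 0x1514550) (nat_lit 0x4000300020000000200010000000500040006000300000000))) (.non (nat_lit 0) (nat_lit 5) (nat_lit 0x1555140) (nat_lit 0x2000200010001000200020001000000020001000000000000))) (.non (nat_lit 0) (nat_lit 5) (nat_lit 0x1554150) (nat_lit 0x5000400020001000300020000000000040006000300000000))) (.non (nat_lit 0) (nat_lit 5) (nat_lit 0x1455054) (nat_lit 0x2000200000001000200020001000000000001000200010000))) (.non (nat_lit 0) (nat_lit 6) (nat_lit 0x1510554) (nat_lit 0x3000200020000000100000000000300040006000500040000))) (.non (nat_lit 1) (nat_lit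 5) (nat_lit 0x1454001) (nat_lit 0x1000100000001000100010000000000000000000000000001)))) (.non (nat_lit 1) (nat_lit 5) (nat_lit 0xaa001) (nat_lit 0x2000100020001000000000000000000000002))) (.non (nat_lit 0) (nat_lit 6) (nat_lit 0x950) (nat_lit 0x100010002000100000000))) (.non (nat_lit 0) (nat_lit 5) (nat_lit 0x855000) (nat_lit 0x100000001000200020001000000000000000000000000))) (.non (nat_lit 0) (nat_lit 5) (nat_lit 0x200254) (nat_lit 0x10000000000000000000000020003000200010000))) (.non (nat_lit 0) (nat_lit 6) (nat_lit 0x200550) (nat_lit 0x10000000000000000000100020002000100000000)))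

noncomputable def t1547_76 : Tr := (.ex (nat_lit 6) (.ex (nat_lit 8) (.pd (.cons (nat_lit 3) (nat_lit 9) (nat_lit 0x10000010000) (nat_lit 0x407655a0100) (nat_lit 0x100000f423fb71aea2c28047370000100000f423fb71ae1f156) .nil) (.split (nat_lit 0xa) (nat_lit 4) (.split (nat_lit 4) (nat_lit 3) (.split (nat_lit 5) (nat_lit 3) (.split (nat_lit 9) (nat_lit 0) t1547_69 (.non (nat_lit 1) (nat_lit 5) (nat_lit 0xaa001) (nat_lit 0x2000100020001000000000000000000000002))) (.non (nat_lit 0) (nat_lit 6) (nat_lit 0x950) (nat_lit 0x100010002000100000000))) (.non (nat_lit 0) (nat_lit 5) (nat_lit 0x200254) (nat_lit 0x10000000000000000000000020003000200010000))) (.non (nat_lit 0) (nat_lit 6) (nat_lit 0x200550) (nat_lit 0x10000000000000000000100020002000100000000)))) (.split (nat_lit 0xb) (nat_lit 0) (.split (nat_lit 0xb) (nat_lit 1) (.split (nat_lit 0xb) (nat_lit 2) (.split (nat_lit 0xb) (nat_lit 3) (.split (nat_lit 0xb) (nat_lit 4) (.split (nat_lit 0xb) (nat_lit 5) (.split (nat_lit 0xb) (nat_lit 6) (.split (nat_lit 0xb) (nat_lit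 7) (.split (nat_lit 0xb) (nat_lit 9) (.split (nat_lit 0xb) (nat_lit 0xa) (.st (nat_lit 8) (nat_lit 0) (nat_lit 5) (nat_lit 0x455000) (nat_lit 0x100000001000200020001000000000000000000000000) (nat_lit 1) (nat_lit 1) t1547_75) (.non (nat_lit 0) (nat_lit 6) (nat_lit 0x514554) (nat_lit 0x300040000000200010000000300050006000400020000))) (.non (nat_lit 0) (nat_lit 5) (nat_lit 0x454000) (nat_lit 0x100000001000100010000000000000000000000000000))) (.non (nat_lit 0) (nat_lit 5) (nat_lit 0x414000) (nat_lit 0x100000000000100010000000000000000000000000000))) (.non (nat_lit 0) (nat_lit 5) (nat_lit 0x415000) (nat_lit 0x100000000000100010001000000000000000000000000))) (.non (nat_lit 0) (nat_lit 6) (nat_lit 0x554550) (nat_lit 0x400020001000300020000000500040006000300000000))) (.non (nat_lit 0) (nat_lit 5) (nat_lit 0x555140) (nat_lit 0x200010001000200020001000000020001000000000000))) (.non (nat_lit 0) (nat_lit 5) (nat_lit 0x455150) (nat_lit 0x200000001000200020001000000010002000100000000))) (.non (nat_lit 0) (nat_lit 5)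 (nat_lit 0x455054) (nat_lit 0x200000001000200020001000000000001000200010000))) (.non (nat_lit 0) (nat_lit 6) (nat_lit 0x514554) (nat_lit 0x300020000000200010000000300040006000500040000))) (.non (nat_lit 1) (nat_lit 5) (nat_lit 0x454001) (nat_lit 0x100000001000100010000000000000000000000000001)))) (.split (nat_lit 0xb) (nat_lit 0) (.split (nat_lit 0xb) (nat_lit 1) (.split (nat_lit 0xb) (nat_lit 2) (.split (nat_lit 0xb) (nat_lit 3) (.split (nat_lit 0xb) (nat_lit 4) (.split (nat_lit 0xb) (nat_lit 5) (.split (nat_lit 0xb) (nat_lit 7) (.split (nat_lit 0xb) (nat_lit 8) (.split (nat_lit 0xb) (nat_lit 9) (.split (nat_lit 0xb) (nat_lit 0xa) (.sup (nat_lit 0x500000000000000000000000000020009000a) (nat_lit 0x50000000000000000000a000900000002000000000000)) (.non (nat_lit 1) (nat_lit 5) (nat_lit 0x555141) (nat_lit 0x400030004000300060005000000020001000000000002))) (.non (nat_lit 0) (nat_lit 5) (nat_lit 0x445000) (nat_lit 0x100000001000000010001000000000000000000000000))) (.non (nat_lit 0) (nat_lit 5) (nat_lit 0x415000)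 (nat_lit 0x100000000000100010001000000000000000000000000))) (.non (nat_lit 0) (nat_lit 5) (nat_lit 0x405000) (nat_lit 0x100000000000000010001000000000000000000000000))) (.non (nat_lit 0) (nat_lit 6) (nat_lit 0x500554) (nat_lit 0x100010000000000000000000200020003000200010000))) (.non (nat_lit 0) (nat_lit 5) (nat_lit 0x555140) (nat_lit 0x200010001000100020002000000020001000000000000))) (.non (nat_lit 0) (nat_lit 5) (nat_lit 0x455150) (nat_lit 0x200000001000100020002000000010002000100000000))) (.non (nat_lit 0) (nat_lit 5) (nat_lit 0x455054) (nat_lit 0x200000001000100020002000000000001000200010000))) (.star (nat_lit 0xb) (nat_lit 1) (nat_lit 6))) (.star (nat_lit 0xb) (nat_lit 0) (nat_lit 6))))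

noncomputable def t1547_77 : Tr := (.ex (nat_lit 1) (.ex (nat_lit 4) t1547_67 (.split (nat_lit 0xa) (nat_lit 1) (.split (nat_lit 0xa) (nat_lit 2) (.split (nat_lit 0xa) (nat_lit 3) (.split (nat_lit 0xa) (nat_lit 5) (.split (nat_lit 0xa) (nat_lit 6) (.split (nat_lit 0xa) (nat_lit 7) (.split (nat_lit 0xa) (nat_lit 8) (.split (nat_lit 0xa) (nat_lit 9) (.split (nat_lit 0xa) (nat_lit 0) (.st (nat_lit 5) (nat_lit 0) (nat_lit 6) (nat_lit 0x100554) (nat_lit 0x10000000000000000000200020003000200010000) (nat_lit 1) (nat_lit 1) (.st (nat_lit 4) (nat_lit 0) (nat_lit 6) (nat_lit 0x100550) (nat_lit 0x10000000000000000000100020002000100000000) (nat_lit 1) (nat_lit 1) t1547_76)) (.sup (nat_lit 0x5000000000000000000000000000000020009000a) (nat_lit 0x5000a000900000002000000000000))) (.non (nat_lit 0) (nat_lit 6) (nat_lit 0x154554) (nat_lit 0x40003000100020000000300050006000400020000))) (.non (nat_lit 0) (nat_lit 6) (nat_lit 0x154554) (nat_lit 0x40001000300020000000300050006000400020000))) (.non (nat_lit 0) (nat_lit 5) (nat_lit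 0x155000) (nat_lit 0x10001000100020001000000000000000000000000))) (.non (nat_lit 1) (nat_lit 5) (nat_lit 0x155151) (nat_lit 0x40004000300060005000000030002000100000002))) (.non (nat_lit 0) (nat_lit 6) (nat_lit 0x100540) (nat_lit 0x10000000000000000000100010001000000000000))) (.non (nat_lit 0) (nat_lit 5) (nat_lit 0x100140) (nat_lit 0x10000000000000000000000010001000000000000))) (.non (nat_lit 0) (nat_lit 5) (nat_lit 0x100150) (nat_lit 0x10000000000000000000000010001000100000000))) (.non (nat_lit 0) (nat_lit 5) (nat_lit 0x100154) (nat_lit 0x10000000000000000000000010001000100010000)))) (.split (nat_lit 0xa) (nat_lit 2) (.split (nat_lit 0xa) (nat_lit 3) (.split (nat_lit 0xa) (nat_lit 4) (.split (nat_lit 0xa) (nat_lit 5) (.split (nat_lit 0xa) (nat_lit 6) (.split (nat_lit 0xa) (nat_lit 7) (.split (nat_lit 0xa) (nat_lit 9) (.split (nat_lit 0xa) (nat_lit 0) (.split (nat_lit 0xa) (nat_lit 8) (.sup (nat_lit 0x30000000000000000000000000000000100050004) (nat_lit 0x30005000500000001000000000000)) (.sup (nat_lit 0x30000000000000000000000000000000100050004)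 (nat_lit 0x30005000500000001000000000000))) (.split (nat_lit 0xa) (nat_lit 8) (.unj (nat_lit 0x100005) (nat_lit 0x10000000000000000000000000000000000010001) (nat_lit 0x5440) (nat_lit 0x10002000200000001000000000000)) (.non (nat_lit 1) (nat_lit 5) (nat_lit 0x154001) (nat_lit 0x10001000100010000000000000000000000000001)))) (.non (nat_lit 1) (nat_lit 5) (nat_lit 0x155001) (nat_lit 0x10002000100020001000000000000000000000001))) (.non (nat_lit 0) (nat_lit 5) (nat_lit 0x155000) (nat_lit 0x10001000100020001000000000000000000000000))) (.star (nat_lit 0xa) (nat_lit 1) (nat_lit 6))) (.star (nat_lit 0xa) (nat_lit 1) (nat_lit 5))) (.non (nat_lit 0) (nat_lit 5) (nat_lit 0x100154) (nat_lit 0x10000000000000000000000010001000100010000))) (.non (nat_lit 0) (nat_lit 5) (nat_lit 0x100054) (nat_lit 0x10000000000000000000000000001000100010000))) (.non (nat_lit 0) (nat_lit 5) (nat_lit 0x100014) (nat_lit 0x10000000000000000000000000000000100010000))))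

noncomputable def t1547_78 : Tr := (.split (nat_lit 6) (nat_lit 4) (.split (nat_lit 5) (nat_lit 3) (.split (nat_lit 5) (nat_lit 4) (.split (nat_lit 9) (nat_lit 0) (.sup (nat_lit 0x5000a000f0014000f) (nat_lit 0x10007000e0014001000000000000000000000)) (.non (nat_lit 1) (nat_lit 5) (nat_lit 0xaa001) (nat_lit 0x2000100020001000000000000000000000002))) (.sup (nat_lit 0x20000000000000000000000000005000a0009) (nat_lit 0x20009000a00050000000000000000))) (.split (nat_lit 5) (nat_lit 4) (.st (nat_lit 2) (nat_lit 0) (nat_lit 6) (nat_lit 0x554) (nat_lit 0x100010002000200010000) (nat_lit 1) (nat_lit 1) (.st (nat_lit 3) (nat_lit 0) (nat_lit 6) (nat_lit 0x550) (nat_lit 0x100010002000100000000) (nat_lit 1) (nat_lit 1) (.st (nat_lit 9) (nat_lit 1) (nat_lit 5) (nat_lit 0x55001) (nat_lit 0x2000100020001000000000000000000000001) (nat_lit 1) (nat_lit 1) (.ex (nat_lit 0) t1547_77 (.split (nat_lit 0xa) (nat_lit 2) (.split (nat_lit 0xa) (nat_lit 3) (.split (nat_lit 0xa) (nat_lit 5) (.split (nat_lit 0xa) (nat_lit 6) (.split (nat_lit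 0xa) (nat_lit 7) (.split (nat_lit 0xa) (nat_lit 8) (.split (nat_lit 0xa) (nat_lit 9) (.split (nat_lit 0xa) (nat_lit 1) (.split (nat_lit 0xa) (nat_lit 4) (.sup (nat_lit 0x5000000000000000000000000000000020009000a) (nat_lit 0x5000a000900000002000000000000)) (.sup (nat_lit 0x5000000000000000000000000000000020009000a) (nat_lit 0x5000a000900000002000000000000))) (.split (nat_lit 0xa) (nat_lit 4) (.unj (nat_lit 0x100005) (nat_lit 0x10000000000000000000000000000000000010001) (nat_lit 0x5440) (nat_lit 0x10002000200000001000000000000)) (.non (nat_lit 0) (nat_lit 5) (nat_lit 0x100154) (nat_lit 0x10000000000000000000000010001000100010000)))) (.non (nat_lit 1) (nat_lit 5) (nat_lit 0x140001) (nat_lit 0x10001000000000000000000000000000000000001))) (.non (nat_lit 1) (nat_lit 5) (nat_lit 0x154001) (nat_lit 0x10001000100010000000000000000000000000001))) (.non (nat_lit 0) (nat_lit 5) (nat_lit 0x155000) (nat_lit 0x10001000100020001000000000000000000000000))) (.star (nat_lit 0xa) (nat_lit 0) (nat_lit 6))) (.star (nat_lit 0xa)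 (nat_lit 0) (nat_lit 5))) (.non (nat_lit 0) (nat_lit 6) (nat_lit 0x100550) (nat_lit 0x10000000000000000000100010002000100000000))) (.non (nat_lit 0) (nat_lit 6) (nat_lit 0x100554) (nat_lit 0x10000000000000000000100010002000200010000))))))) (.non (nat_lit 0) (nat_lit 6) (nat_lit 0x540) (nat_lit 0x100010001000000000000)))) (.split (nat_lit 5) (nat_lit 3) (.split (nat_lit 5) (nat_lit 4) (.sup (nat_lit 0x1000000000000000000000000000300050005) (nat_lit 0x10005000400030000000000000000)) (.unj (nat_lit 0x1500) (nat_lit 0x1000100010000000000000000) (nat_lit 0x40015) (nat_lit 0x1000000000000000000000000000100020002))) (.split (nat_lit 5) (nat_lit 4) (.sup (nat_lit 0x3000000000000000000000000000100050005) (nat_lit 0x5000400030001000000000000)) (.non (nat_lit 0) (nat_lit 6) (nat_lit 0x540) (nat_lit 0x100010001000000000000)))))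

noncomputable def t1547_79 : Tr := (.ex (nat_lit 5) (.split (nat_lit 4) (nat_lit 3) (.split (nat_lit 8) (nat_lit 4) (.split (nat_lit 9) (nat_lit 0) (.pd (.cons (nat_lit 0) (nat_lit 7) (nat_lit 0) (nat_lit 0x9405532110) (nat_lit 0xf423ff423f00000f423f54591b71aea2c2898965927bd00000) (.cons (nat_lit 0) (nat_lit 8) (nat_lit 0) (nat_lit 0x7065532110) (nat_lit 0xf423f00000b71aea2c2804737f423fb71aea2c289896500000) (.cons (nat_lit 1) (nat_lit 7) (nat_lit 0) (nat_lit 0x405532200) (nat_lit 0xf423ff423f00000f423f54591b71aea2c289896500000b71ae) (.cons (nat_lit 2) (nat_lit 7) (nat_lit 0) (nat_lit 0x405533000) (nat_lit 0xf423ff423f00000f423f54591b71aea2c2800000f423f17500) (.cons (nat_lit 4) (nat_lit 9) (nat_lit 0) (nat_lit 0x765502100) (nat_lit 0xf423fb71aea2c280473700000f423fb71aea2c2804737) .nil))))) (.leaf (.cons (nat_lit 0x15500) (nat_lit 0x200030004000300010000000000000000) (.cons (nat_lit 0x45401) (nat_lit 0x2000000030004000300000000000000000001) (.cons (nat_lit 0x54005) (nat_lit 0x3000100020000000000000000000000030004)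 (.cons (nat_lit 0x40015) (nat_lit 0x1000000000000000000000000000100020002) .nil)))) (.cons (nat_lit 0x1111011110) (nat_lit 0x100001) (nat_lit 0xb) (nat_lit 0x2301045670) (.cons (nat_lit 0x1111011101) (nat_lit 0x100010) (nat_lit 0xe) (nat_lit 0x2401056703) .nil)))) (.non (nat_lit 1) (nat_lit 5) (nat_lit 0xaa001) (nat_lit 0x2000100020001000000000000000000000002))) (.non (nat_lit 0) (nat_lit 5) (nat_lit 0xaa100) (nat_lit 0x1000200020001000000020000000000000000))) (.non (nat_lit 0) (nat_lit 5) (nat_lit 0xaa240) (nat_lit 0x1000200020001000000020002000000000000))) (.split (nat_lit 0xa) (nat_lit 0) (.split (nat_lit 0xa) (nat_lit 1) (.split (nat_lit 0xa) (nat_lit 2) (.split (nat_lit 0xa) (nat_lit 3) (.split (nat_lit 0xa) (nat_lit 4) (.split (nat_lit 0xa) (nat_lit 6) (.split (nat_lit 0xa) (nat_lit 7) (.split (nat_lit 0xa) (nat_lit 8) (.split (nat_lit 0xa) (nat_lit 9) (.unj (nat_lit 0x105400) (nat_lit 0x10000000000010002000200000000000000000000) (nat_lit 0x155) (nat_lit 0x10002000300040003)) (.non (nat_lit 0) (nat_lit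 5) (nat_lit 0x155154) (nat_lit 0x20004000500060003000000040003000200010000))) (.non (nat_lit 0) (nat_lit 5) (nat_lit 0x155100) (nat_lit 0x10001000200020001000000010000000000000000))) (.non (nat_lit 0) (nat_lit 5) (nat_lit 0x155000) (nat_lit 0x10001000100020001000000000000000000000000))) (.non (nat_lit 0) (nat_lit 5) (nat_lit 0x155154) (nat_lit 0x20003000500060004000000040003000200010000))) (.non (nat_lit 0) (nat_lit 5) (nat_lit 0x155140) (nat_lit 0x10001000200020001000000020001000000000000))) (.non (nat_lit 0) (nat_lit 5) (nat_lit 0x155150) (nat_lit 0x10001000200020001000000020002000100000000))) (.non (nat_lit 0) (nat_lit 5) (nat_lit 0x155154) (nat_lit 0x10001000200020001000000020002000200010000))) (.star (nat_lit 0xa) (nat_lit 1) (nat_lit 5))) (.star (nat_lit 0xa) (nat_lit 0) (nat_lit 5))))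

noncomputable def t1547_80 : Tr := (.split (nat_lit 5) (nat_lit 3) (.st (nat_lit 0) (nat_lit 1) (nat_lit 5) (nat_lit 0x55141) (nat_lit 0x3000300040002000000020001000000000002) (nat_lit 1) (nat_lit 1) (.st (nat_lit 2) (nat_lit 0) (nat_lit 5) (nat_lit 0x55154) (nat_lit 0x1000200020001000000020002000200010000) (nat_lit 1) (nat_lit 1) (.st (nat_lit 3) (nat_lit 0) (nat_lit 5) (nat_lit 0x55150) (nat_lit 0x1000200020001000000020002000100000000) (nat_lit 1) (nat_lit 1) (.st (nat_lit 6) (nat_lit 0) (nat_lit 5) (nat_lit 0x55154) (nat_lit 0x3000500060004000000040003000200010000) (nat_lit 1) (nat_lit 2) (.st (nat_lit 8) (nat_lit 0) (nat_lit 5) (nat_lit 0x55100) (nat_lit 0x1000200020001000000010000000000000000) (nat_lit 1) (nat_lit 1) (.st (nat_lit 9) (nat_lit 0) (nat_lit 5) (nat_lit 0x55154) (nat_lit 0x4000500060003000000040003000200010000) (nat_lit 1) (nat_lit 2) (.st (nat_lit 4) (nat_lit 0) (nat_lit 5) (nat_lit 0x55140) (nat_lit 0x1000200020001000000020001000000000000) (nat_lit 1) (nat_lit 1) (.ex (nat_lit 1) t1547_79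 (.split (nat_lit 0xa) (nat_lit 0) (.split (nat_lit 0xa) (nat_lit 2) (.split (nat_lit 0xa) (nat_lit 3) (.split (nat_lit 0xa) (nat_lit 4) (.split (nat_lit 0xa) (nat_lit 5) (.split (nat_lit 0xa) (nat_lit 6) (.split (nat_lit 0xa) (nat_lit 7) (.split (nat_lit 0xa) (nat_lit 8) (.split (nat_lit 0xa) (nat_lit 9) (.unj (nat_lit 0x100015) (nat_lit 0x10000000000000000000000000000000100020002) (nat_lit 0x15500) (nat_lit 0x200030004000300010000000000000000)) (.non (nat_lit 0) (nat_lit 5) (nat_lit 0x155144) (nat_lit 0x20003000300040002000000020001000000010000))) (.non (nat_lit 0) (nat_lit 5) (nat_lit 0x155100) (nat_lit 0x10001000200020001000000010000000000000000))) (.non (nat_lit 0) (nat_lit 5) (nat_lit 0x155000) (nat_lit 0x10001000100020001000000000000000000000000))) (.star (nat_lit 0xa) (nat_lit 1) (nat_lit 6))) (.star (nat_lit 0xa) (nat_lit 1) (nat_lit 5))) (.non (nat_lit 0) (nat_lit 5) (nat_lit 0x155140) (nat_lit 0x10001000200020001000000020001000000000000))) (.non (nat_lit 0) (nat_lit 5) (nat_lit 0x155150) (nat_lit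 0x10001000200020001000000020002000100000000))) (.non (nat_lit 0) (nat_lit 5) (nat_lit 0x100014) (nat_lit 0x10000000000000000000000000000000100010000))) (.non (nat_lit 1) (nat_lit 5) (nat_lit 0x155141) (nat_lit 0x10003000300040002000000020001000000000002))))))))))) (.st (nat_lit 0) (nat_lit 1) (nat_lit 5) (nat_lit 0x55141) (nat_lit 0x3000300040002000000020001000000000002) (nat_lit 1) (nat_lit 1) (.st (nat_lit 1) (nat_lit 0) (nat_lit 6) (nat_lit 0x14554) (nat_lit 0x200010000000200030004000300020000) (nat_lit 1) (nat_lit 1) (.st (nat_lit 2) (nat_lit 0) (nat_lit 5) (nat_lit 0x55154) (nat_lit 0x1000200020001000000020002000200010000) (nat_lit 1) (nat_lit 1) (.st (nat_lit 3) (nat_lit 0) (nat_lit 5) (nat_lit 0x55150) (nat_lit 0x1000200020001000000020002000100000000) (nat_lit 1) (nat_lit 1) (.st (nat_lit 4) (nat_lit 0) (nat_lit 5) (nat_lit 0x55140) (nat_lit 0x1000200020001000000020001000000000000) (nat_lit 1) (nat_lit 1) (.st (nat_lit 5) (nat_lit 0) (nat_lit 6) (nat_lit 0x10554) (nat_lit 0x100000000000200020003000200010000)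 (nat_lit 1) (nat_lit 1) (.st (nat_lit 6) (nat_lit 0) (nat_lit 5) (nat_lit 0x55154) (nat_lit 0x3000500060004000000040003000200010000) (nat_lit 1) (nat_lit 2) (.st (nat_lit 8) (nat_lit 0) (nat_lit 5) (nat_lit 0x55100) (nat_lit 0x1000200020001000000010000000000000000) (nat_lit 1) (nat_lit 1) (.st (nat_lit 9) (nat_lit 0) (nat_lit 5) (nat_lit 0x55154) (nat_lit 0x4000500060003000000040003000200010000) (nat_lit 1) (nat_lit 2) (.split (nat_lit 8) (nat_lit 4) (.split (nat_lit 4) (nat_lit 3) (.split (nat_lit 5) (nat_lit 3) (.split (nat_lit 9) (nat_lit 0) (.leaf (.cons (nat_lit 0x11540) (nat_lit 0x100000003000400020003000000000000) (.cons (nat_lit 0x5440) (nat_lit 0x10002000200000001000000000000) (.cons (nat_lit 0x54005) (nat_lit 0x3000100020000000000000000000000030004) (.cons (nat_lit 0x40015) (nat_lit 0x1000000000000000000000000000100020002) (.cons (nat_lit 0x15500) (nat_lit 0x200030004000300010000000000000000) .nil))))) (.cons (nat_lit 0x1110111110) (nat_lit 0x1000001) (nat_lit 0xe) (nat_lit 0x7560140230) (.cons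 (nat_lit 0x1111011101) (nat_lit 0x100010) (nat_lit 0xe) (nat_lit 0x2401056703) .nil))) (.non (nat_lit 1) (nat_lit 5) (nat_lit 0xaa001) (nat_lit 0x2000100020001000000000000000000000002))) (.non (nat_lit 0) (nat_lit 6) (nat_lit 0x950) (nat_lit 0x100010002000100000000))) (.non (nat_lit 0) (nat_lit 5) (nat_lit 0xaa240) (nat_lit 0x1000200020001000000020002000000000000))) (.non (nat_lit 0) (nat_lit 5) (nat_lit 0xaa100) (nat_lit 0x1000200020001000000020000000000000000)))))))))))))

noncomputable def t1547_81 : Tr := (.st (nat_lit 8) (nat_lit 0) (nat_lit 5) (nat_lit 0x55004) (nat_lit 0x1000200020001000000000000000000010000) (nat_lit 1) (nat_lit 1) (.st (nat_lit 9) (nat_lit 0) (nat_lit 5) (nat_lit 0x55154) (nat_lit 0x4000500060003000000010002000300040000) (nat_lit 1) (nat_lit 2) (.ex (nat_lit 5) (.split (nat_lit 8) (nat_lit 1) (.split (nat_lit 4) (nat_lit 3) (.pd (.cons (nat_lit 0) (nat_lit 7) (nat_lit 0) (nat_lit 0x9105532110) (nat_lit 0xf423ff423f00000f423f54591f423fb71aea2c285b8d400000) (.cons (nat_lit 0) (nat_lit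 8) (nat_lit 0) (nat_lit 0x7065532110) (nat_lit 0xf423f00000b71aea2c2804737f423fb71aea2c289896500000) (.cons (nat_lit 1) (nat_lit 7) (nat_lit 0x1000000001) (nat_lit 0x805532209) (nat_lit 0x1f423f00000f423f54591f423fb71aea2c280000000001) (.cons (nat_lit 1) (nat_lit 9) (nat_lit 0) (nat_lit 0x765532200) (nat_lit 0xf423fb71aea2c2804737f423fb71aea2c2800000f423f) .nil)))) (.leaf (.cons (nat_lit 0x15404) (nat_lit 0x200030004000300000000000000010000) (.cons (nat_lit 0x45401) (nat_lit 0x2000000030004000300000000000000000001) (.cons (nat_lit 0x50005) (nat_lit 0x1000100000000000000000000000000020002) .nil))) .nil)) (.non (nat_lit 0) (nat_lit 5) (nat_lit 0x55254) (nat_lit 0x1000200020001000000010002000200020000))) (.non (nat_lit 0) (nat_lit 5) (nat_lit 0xaa004) (nat_lit 0x1000200020001000000000000000000020000))) (.split (nat_lit 0xa) (nat_lit 0) (.split (nat_lit 0xa) (nat_lit 1) (.split (nat_lit 0xa) (nat_lit 2) (.split (nat_lit 0xa) (nat_lit 3) (.split (nat_lit 0xa) (nat_lit 6) (.split (nat_lit 0xa) (nat_lit 7) (.split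 (nat_lit 0xa) (nat_lit 8) (.split (nat_lit 0xa) (nat_lit 9) (.split (nat_lit 0xa) (nat_lit 4) (.unj (nat_lit 0x105400) (nat_lit 0x10000000000010002000200000000000000000000) (nat_lit 0x155) (nat_lit 0x10002000300040003)) (.unj (nat_lit 0x50005) (nat_lit 0x1000100000000000000000000000000020002) (nat_lit 0x101540) (nat_lit 0x30000000000000003000400020001000000000000))) (.non (nat_lit 0) (nat_lit 5) (nat_lit 0x155154) (nat_lit 0x20004000500060003000000010002000300040000))) (.non (nat_lit 0) (nat_lit 5) (nat_lit 0x155004) (nat_lit 0x10001000200020001000000000000000000010000))) (.non (nat_lit 0) (nat_lit 5) (nat_lit 0x155000) (nat_lit 0x10001000100020001000000000000000000000000))) (.non (nat_lit 0) (nat_lit 5) (nat_lit 0x155154) (nat_lit 0x20003000500060004000000010002000300040000))) (.non (nat_lit 0) (nat_lit 5) (nat_lit 0x155154) (nat_lit 0x10001000200020001000000010002000200020000))) (.non (nat_lit 0) (nat_lit 5) (nat_lit 0x155054) (nat_lit 0x10001000200020001000000000001000200020000))) (.star (nat_lit 0xa)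 (nat_lit 1) (nat_lit 5))) (.star (nat_lit 0xa) (nat_lit 0) (nat_lit 5))))))

noncomputable def t1547_82 : Tr := (.ex (nat_lit 5) (.split (nat_lit 9) (nat_lit 1) (.split (nat_lit 4) (nat_lit 3) (.pd (.cons (nat_lit 0) (nat_lit 7) (nat_lit 0) (nat_lit 0x1805532110) (nat_lit 0xf423ff423f00000f423f54591f423fb71aea2c285b8d400000) (.cons (nat_lit 0) (nat_lit 9) (nat_lit 0) (nat_lit 0x765532110) (nat_lit 0xf423fb71aea2c2804737f423fb71aea2c289896500000) (.cons (nat_lit 1) (nat_lit 7) (nat_lit 0x1000000001) (nat_lit 0x805532209) (nat_lit 0x1f423f00000f423f54591f423fb71aea2c280000000001) (.cons (nat_lit 1) (nat_lit 9) (nat_lit 0) (nat_lit 0x765532200) (nat_lit 0xf423fb71aea2c2804737f423fb71aea2c2800000f423f) (.cons (nat_lit 2) (nat_lit 9) (nat_lit 0) (nat_lit 0x765533000) (nat_lit 0xf423fb71aea2c2804737f423fb71ae00000f423f54591) (.cons (nat_lit 3) (nat_lit 9) (nat_lit 0) (nat_lit 0x765540100) (nat_lit 0xf423fb71aea2c2804737f423f00000f423fb71ae1f156) (.cons (nat_lit 4) (nat_lit 9) (nat_lit 0) (nat_lit 0x765502100)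 (nat_lit 0xf423fb71aea2c280473700000f423fb71aea2c2804737) .nil))))))) (.leaf (.cons (nat_lit 0x45404) (nat_lit 0x2000000030004000300000000000000010000) (.cons (nat_lit 0x45401) (nat_lit 0x2000000030004000300000000000000000001) (.cons (nat_lit 0x40005) (nat_lit 0x1000000000000000000000000000000010001) .nil))) .nil)) (.non (nat_lit 0) (nat_lit 5) (nat_lit 0x55254) (nat_lit 0x2000100020001000000010002000200020000))) (.non (nat_lit 0) (nat_lit 5) (nat_lit 0xaa004) (nat_lit 0x2000100020001000000000000000000020000))) (.split (nat_lit 0xa) (nat_lit 0) (.split (nat_lit 0xa) (nat_lit 1) (.split (nat_lit 0xa) (nat_lit 2) (.split (nat_lit 0xa) (nat_lit 3) (.split (nat_lit 0xa) (nat_lit 6) (.split (nat_lit 0xa) (nat_lit 7) (.split (nat_lit 0xa) (nat_lit 8) (.split (nat_lit 0xa) (nat_lit 9) (.split (nat_lit 0xa) (nat_lit 4) (.unj (nat_lit 0x105400) (nat_lit 0x10000000000010002000200000000000000000000) (nat_lit 0x155) (nat_lit 0x10002000300040003)) (.unj (nat_lit 0x40005) (nat_lit 0x1000000000000000000000000000000010001)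 (nat_lit 0x101540) (nat_lit 0x30000000000000003000400020001000000000000))) (.non (nat_lit 0) (nat_lit 5) (nat_lit 0x155004) (nat_lit 0x10002000100020001000000000000000000010000))) (.non (nat_lit 0) (nat_lit 5) (nat_lit 0x155154) (nat_lit 0x20005000400060003000000010002000300040000))) (.non (nat_lit 0) (nat_lit 5) (nat_lit 0x155000) (nat_lit 0x10001000100020001000000000000000000000000))) (.non (nat_lit 0) (nat_lit 5) (nat_lit 0x155154) (nat_lit 0x20005000300060004000000010002000300040000))) (.non (nat_lit 0) (nat_lit 5) (nat_lit 0x155154) (nat_lit 0x10002000100020001000000010002000200020000))) (.non (nat_lit 0) (nat_lit 5) (nat_lit 0x155054) (nat_lit 0x10002000100020001000000000001000200020000))) (.star (nat_lit 0xa) (nat_lit 1) (nat_lit 5))) (.star (nat_lit 0xa) (nat_lit 0) (nat_lit 5))))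

noncomputable def t1547_83 : Tr := (.st (nat_lit 3) (nat_lit 0) (nat_lit 5) (nat_lit 0x55154) (nat_lit 0x2000100020001000000010002000200020000) (nat_lit 1) (nat_lit 1) (.st (nat_lit 6) (nat_lit 0) (nat_lit 5) (nat_lit 0x55154) (nat_lit 0x5000300060004000000010002000300040000) (nat_lit 1) (nat_lit 2) (.st (nat_lit 8) (nat_lit 0) (nat_lit 5) (nat_lit 0x55154) (nat_lit 0x5000400060003000000010002000300040000) (nat_lit 1) (nat_lit 2) (.ex (nat_lit 0) t1547_82 (.split (nat_lit 0xa) (nat_lit 1) (.split (nat_lit 0xa) (nat_lit 2) (.split (nat_lit 0xa) (nat_lit 3) (.split (nat_lit 0xa) (nat_lit 5) (.split (nat_lit 0xa) (nat_lit 6) (.split (nat_lit 0xa) (nat_lit 7) (.split (nat_lit 0xa) (nat_lit 8) (.split (nat_lit 0xa) (nat_lit 9) (.split (nat_lit 0xa) (nat_lit 4) (.split (nat_lit 0xa) (nat_lit 0) (.split (nat_lit 9) (nat_lit 0) (.split (nat_lit 9) (nat_lit 1) (.sup (nat_lit 0x10006000b0010000d00000000000000000000) (nat_lit 0x20000000000000000000000010002000400050004)) (.non (nat_lit 0) (nat_lit 5) (nat_lit 0xaa004)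 (nat_lit 0x2000100020001000000000000000000020000))) (.non (nat_lit 1) (nat_lit 5) (nat_lit 0x1a8001) (nat_lit 0x20003000100020000000000000000000000000004))) (.non (nat_lit 1) (nat_lit 5) (nat_lit 0x255001) (nat_lit 0x10002000100020001000000000000000000000002))) (.split (nat_lit 0xa) (nat_lit 0) (.split (nat_lit 0xa) (nat_lit 4) (.split (nat_lit 9) (nat_lit 0) (.sup (nat_lit 0x1000300060008000600000000000000000000) (nat_lit 0x20000000000000000000000020002000200020002)) (.non (nat_lit 1) (nat_lit 5) (nat_lit 0x1a8001) (nat_lit 0x20003000100020000000000000000000000000004))) (.non (nat_lit 0) (nat_lit 5) (nat_lit 0x255154) (nat_lit 0x10002000100020001000000020002000200020000))) (.non (nat_lit 1) (nat_lit 5) (nat_lit 0x255001) (nat_lit 0x10002000100020001000000000000000000000002)))) (.non (nat_lit 0) (nat_lit 5) (nat_lit 0x155004) (nat_lit 0x10002000100020001000000000000000000010000))) (.non (nat_lit 0) (nat_lit 5) (nat_lit 0x155154) (nat_lit 0x20005000400060003000000010002000300040000))) (.non (nat_lit 0) (nat_lit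 5) (nat_lit 0x155000) (nat_lit 0x10001000100020001000000000000000000000000))) (.star (nat_lit 0xa) (nat_lit 0) (nat_lit 6))) (.star (nat_lit 0xa) (nat_lit 0) (nat_lit 5))) (.non (nat_lit 0) (nat_lit 5) (nat_lit 0x155154) (nat_lit 0x10002000100020001000000010002000200020000))) (.non (nat_lit 0) (nat_lit 5) (nat_lit 0x155054) (nat_lit 0x10002000100020001000000000001000200020000))) (.non (nat_lit 0) (nat_lit 5) (nat_lit 0x155014) (nat_lit 0x10002000100020001000000000000000100020000)))))))

noncomputable def t1547_84 : Tr := (.split (nat_lit 9) (nat_lit 0) t1547_63 (.split (nat_lit 9) (nat_lit 4) (.split (nat_lit 8) (nat_lit 0) (.split (nat_lit 9) (nat_lit 1) (.split (nat_lit 8) (nat_lit 1) (.split (nat_lit 8) (nat_lit 4) t1547_78 (.split (nat_lit 6) (nat_lit 4) (.split (nat_lit 5) (nat_lit 4) t1547_80 (.non (nat_lit 0) (nat_lit 6) (nat_lit 0x54554) (nat_lit 0x1000300020000000200040003000200010000))) (.non (nat_lit 0) (nat_lit 5) (nat_lit 0x15100) (nat_lit 0x100010001000000010000000000000000)))) (.split (nat_lit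 8) (nat_lit 4) (.split (nat_lit 6) (nat_lit 4) (.split (nat_lit 5) (nat_lit 3) (.split (nat_lit 5) (nat_lit 4) (.st (nat_lit 6) (nat_lit 0) (nat_lit 5) (nat_lit 0x55154) (nat_lit 0x3000500060004000000010002000300040000) (nat_lit 1) (nat_lit 2) t1547_81) (.sup (nat_lit 0x100000000000000000000000300050004) (nat_lit 0x10005000500030000000000000000))) (.split (nat_lit 5) (nat_lit 4) (.sup (nat_lit 0x500050000000000000000000000000009000a) (nat_lit 0x8000a00030007000100000000)) (.non (nat_lit 0) (nat_lit 6) (nat_lit 0x540) (nat_lit 0x100010001000000000000)))) (.non (nat_lit 0) (nat_lit 5) (nat_lit 0x15154) (nat_lit 0x100010001000000010001000100010000))) (.non (nat_lit 0) (nat_lit 5) (nat_lit 0x55104) (nat_lit 0x1000200020001000000010000000000010000)))) (.split (nat_lit 8) (nat_lit 1) (.split (nat_lit 8) (nat_lit 4) (.split (nat_lit 6) (nat_lit 4) (.split (nat_lit 5) (nat_lit 3) (.split (nat_lit 5) (nat_lit 4) (.st (nat_lit 1) (nat_lit 0) (nat_lit 5) (nat_lit 0x55014) (nat_lit 0x2000100020001000000000000000100020000)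 (nat_lit 1) (nat_lit 1) (.st (nat_lit 2) (nat_lit 0) (nat_lit 5) (nat_lit 0x55054) (nat_lit 0x2000100020001000000000001000200020000) (nat_lit 1) (nat_lit 1) t1547_83)) (.sup (nat_lit 0x2000000000000000000000000000000050005) (nat_lit 0x10005000500030000000000000000))) (.split (nat_lit 5) (nat_lit 4) (.sup (nat_lit 0x2000000000000000000000000000000050005) (nat_lit 0x10005000500000003000000000000)) (.non (nat_lit 0) (nat_lit 6) (nat_lit 0x540) (nat_lit 0x100010001000000000000)))) (.non (nat_lit 0) (nat_lit 5) (nat_lit 0x45154) (nat_lit 0x1000000010001000000010001000100010000))) (.non (nat_lit 0) (nat_lit 5) (nat_lit 0x54154) (nat_lit 0x1000100010000000000010001000100010000))) (.non (nat_lit 0) (nat_lit 5) (nat_lit 0x54004) (nat_lit 0x1000100010000000000000000000000010000)))) (.non (nat_lit 1) (nat_lit 5) (nat_lit 0x54001) (nat_lit 0x1000100010000000000000000000000000001))) (.non (nat_lit 1) (nat_lit 5) (nat_lit 0x55101) (nat_lit 0x2000100020001000000010000000000000001))))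

noncomputable def t1547 : Tr := (.split (nat_lit 9) (nat_lit 2) (.split (nat_lit 9) (nat_lit 3) (.split (nat_lit 8) (nat_lit 2) (.split (nat_lit 8) (nat_lit 3) (.split (nat_lit 6) (nat_lit 3) t1547_84 (.non (nat_lit 0) (nat_lit 5) (nat_lit 0x55150) (nat_lit 0x1000100020002000000010002000100000000))) (.non (nat_lit 0) (nat_lit 5) (nat_lit 0x55150) (nat_lit 0x1000200020001000000010002000100000000))) (.non (nat_lit 0) (nat_lit 5) (nat_lit 0x55054) (nat_lit 0x1000200020001000000000001000200010000))) (.non (nat_lit 0) (nat_lit 5) (nat_lit 0x55150) (nat_lit 0x2000100020001000000010002000100000000))) (.non (nat_lit 0) (nat_lit 5) (nat_lit 0x55054) (nat_lit 0x2000100020001000000000001000200010000)))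

noncomputable def D19 : RL := (.cons (nat_lit 0x2222222222222222222222222222222222222222222222222222222222222222222222222222222222222222222222222222222b222aaa22222222b2322aa22222222223232aaa2222222222325222222222222225222222222222aaa222b222222222aaa22b2322222222a2a222323222222222222223252222222222222252) t1542 (.cons (nat_lit 0x2222222222222222222222222222222222222222222222222222222222222222222222222222222222222222222222222222222b222aa222222222b232222222222222232322222222222222325222222222222225222222222222a22222b222222222a2222b2322222222222222323222222222222223252222222222222252) t1543 (.cons (nat_lit 0x2222222222222222222222222222222222222222222222222222222222222222222222222222222222222222222222222222222b222aaa22222222b2322aa22222222223232aa22222222222325222222222222225222222222222aaa222b222222222aaa22b2322222222a22222323222222222222223252222222222222252) t1544 (.cons (nat_lit 0x2222222222222222222222222222222222222222222222222222222222222222222222222222222222222222222222222222222b222aa222222222b232222222222222232322222222222222325222222222222225222222222222a22222b222222222a2222b2322222222222222323222222222222223252222222222222252)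 t1545 (.cons (nat_lit 0x2222222222222222222222222222222222222222222222222222222222222222222222222222222222222222222222222222222b222aa222222222b232222222222222232322222222222222325222222222222225222222222222a22222b222222222a2222b2322222222222222323222222222222223252222222222222252) t1546 (.cons (nat_lit 0x22222222222222222222222222222222222222222222222222222222222222222222222222222222222222222222222222222222322aaaaa22222222322aaaaa222222332322222222222222325aa22222222222252aa222222222aa2aa2b222222222aa2aab2322222222aa22223232222222aa22222325222222aa22222252) t1547 .nil))))))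

theorem cov_D19 : Cov 1542 1548 := by
  have h1 : rl D19 (nat_lit 1542) = true := by decide +kernel
  have h2 : 1542 + rlen D19 = 1548 := by decide +kernel
  exact cov_of h1 h2

end MP86a502
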