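import Pool.Agent.Lib.MP_86a502_gt.U.Rlc
import Pool.Agent.Lib.MP_86a502_gt.U.D19

set_option autoImplicit false
set_option maxRecDepth 1000000
set_option linter.all false

/-! Certificates, numbers 186 to 195. -/

namespace MP86a502

noncomputable def t186_1 : Tr := (.ex (nat_lit 7) (.split (nat_lit 8) (nat_lit 7) (.pd (.cons (nat_lit 0) (nat_lit 4) (nat_lit 0x110) (nat_lit 0x765503120) (nat_lit 0xf423fb71aea2c289896500000f423f000010000100000) (.cons (nat_lit 1) (nat_lit 4) (nat_lit 0) (nat_lit 0x765503200) (nat_lit 0xf423fb71aea2c289896500000f423ff423f00000f423f) (.cons (nat_lit 2) (nat_lit 4) (nat_lit 0) (nat_lit 0x765503000) (nat_lit 0xf423fb71aea2c289896500000f423f00000f423fb71ae) .nil))) (.leaf (.cons (nat_lit 0x541) (nat_lit 0x100020002000000000001) .nil) .nil)) (.split (nat_lit 8) (nat_lit 7) (.pd (.cons (nat_lit 0) (nat_lit 4) (nat_lit 0x110) (nat_lit 0x765503120) (nat_lit 0xf423f7a11e7a11c7a11a00000f423f000010000100000) (.cons (nat_lit 1) (nat_lit 4) (nat_lit 0) (nat_lit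 0x765503200) (nat_lit 0xf423f7a11e7a11c7a11a00000f423ff423f00000f423f) (.cons (nat_lit 2) (nat_lit 4) (nat_lit 0) (nat_lit 0x765503000) (nat_lit 0xf423f7a11e7a11c7a11a00000f423f00000f423fb71ae) .nil))) (.leaf (.cons (nat_lit 0x541) (nat_lit 0x100020002000000000001) .nil) .nil)) (.non (nat_lit 1) (nat_lit 3) (nat_lit 0x15500) (nat_lit 0x300040003000200010000000000000000)))) (.split (nat_lit 9) (nat_lit 0) (.split (nat_lit 9) (nat_lit 1) (.split (nat_lit 9) (nat_lit 2) (.split (nat_lit 9) (nat_lit 3) (.split (nat_lit 9) (nat_lit 4) (.split (nat_lit 9) (nat_lit 5) (.split (nat_lit 9) (nat_lit 6) (.split (nat_lit 9) (nat_lit 8) (.st (nat_lit 7) (nat_lit 1) (nat_lit 3) (nat_lit 0x55000) (nat_lit 0x1000100020001000000000000000000000000) (nat_lit 1) (nat_lit 1) (.split (nat_lit 8) (nat_lit 7) (.split (nat_lit 9) (nat_lit 7) (.pd (.cons (nat_lit 0) (nat_lit 4) (nat_lit 0x110) (nat_lit 0x7765503120) (nat_lit 0xf423ff423f7a11d7a11b7a11900000f423f000010000100000) (.cons (nat_lit 1) (nat_lit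 4) (nat_lit 0) (nat_lit 0x7765503200) (nat_lit 0xf423ff423f7a11d7a11b7a11900000f423ff423f00000f423f) (.cons (nat_lit 2) (nat_lit 4) (nat_lit 0) (nat_lit 0x7765503000) (nat_lit 0xf423ff423f7a11d7a11b7a11900000f423f00000f423fb71ae) .nil))) (.leaf (.cons (nat_lit 0x541) (nat_lit 0x100020002000000000001) .nil) .nil)) (.non (nat_lit 1) (nat_lit 3) (nat_lit 0x95000) (nat_lit 0x1000100020001000000000000000000000000))) (.non (nat_lit 1) (nat_lit 3) (nat_lit 0x65000) (nat_lit 0x1000100020001000000000000000000000000)))) (.non (nat_lit 1) (nat_lit 3) (nat_lit 0x54000) (nat_lit 0x1000100010000000000000000000000000000))) (.non (nat_lit 1) (nat_lit 3) (nat_lit 0x45000) (nat_lit 0x1000000010001000000000000000000000000))) (.non (nat_lit 1) (nat_lit 3) (nat_lit 0x45400) (nat_lit 0x1000000010001000100000000000000000000))) (.non (nat_lit 1) (nat_lit 3) (nat_lit 0x45500) (nat_lit 0x1000000010001000100010000000000000000))) (.non (nat_lit 1) (nat_lit 5) (nat_lit 0x54140) (nat_lit 0x3000100020000000000030004000000000000)))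 (.non (nat_lit 0) (nat_lit 3) (nat_lit 0x40014) (nat_lit 0x1000000000000000000000000000200020000))) (.non (nat_lit 2) (nat_lit 3) (nat_lit 0x45505) (nat_lit 0x1000000010001000100010000000000010001))) (.non (nat_lit 1) (nat_lit 3) (nat_lit 0x45501) (nat_lit 0x1000000010001000100010000000000000001))))

noncomputable def t186_2 : Tr := (.ex (nat_lit 8) (.split (nat_lit 8) (nat_lit 6) (.pd (.cons (nat_lit 0) (nat_lit 4) (nat_lit 0x110) (nat_lit 0x665503120) (nat_lit 0xf423ff423f7a11d7a11b00000f423f000010000100000) (.cons (nat_lit 1) (nat_lit 4) (nat_lit 0) (nat_lit 0x665503200) (nat_lit 0xf423ff423f7a11d7a11b00000f423ff423f00000f423f) (.cons (nat_lit 2) (nat_lit 4) (nat_lit 0) (nat_lit 0x665503000) (nat_lit 0xf423ff423f7a11d7a11b00000f423f00000f423fb71ae) .nil))) (.leaf (.cons (nat_lit 0x11540) (nat_lit 0x100000002000300040003000000000000) (.cons (nat_lit 0x541) (nat_lit 0x100020002000000000001) .nil)) .nil)) (.non (nat_lit 1) (nat_lit 3) (nat_lit 0x25400) (nat_lit 0x100010002000100000000000000000000)))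 (.split (nat_lit 9) (nat_lit 0) (.split (nat_lit 9) (nat_lit 1) (.split (nat_lit 9) (nat_lit 2) (.split (nat_lit 9) (nat_lit 3) (.split (nat_lit 9) (nat_lit 4) (.split (nat_lit 9) (nat_lit 5) (.split (nat_lit 9) (nat_lit 6) (.split (nat_lit 9) (nat_lit 7) (.st (nat_lit 8) (nat_lit 1) (nat_lit 3) (nat_lit 0x55400) (nat_lit 0x1000200010002000100000000000000000000) (nat_lit 1) (nat_lit 1) (.split (nat_lit 8) (nat_lit 6) (.split (nat_lit 9) (nat_lit 8) (.pd (.cons (nat_lit 0) (nat_lit 4) (nat_lit 0x110) (nat_lit 0x8665503120) (nat_lit 0xf423fb71aef423f65b9761a7900000f423f000010000100000) (.cons (nat_lit 1) (nat_lit 4) (nat_lit 0) (nat_lit 0x8665503200) (nat_lit 0xf423fb71aef423f65b9761a7900000f423ff423f00000f423f) (.cons (nat_lit 2) (nat_lit 4) (nat_lit 0) (nat_lit 0x8665503000) (nat_lit 0xf423fb71aef423f65b9761a7900000f423f00000f423fb71ae) .nil))) (.leaf (.cons (nat_lit 0x11540) (nat_lit 0x100000002000300040003000000000000) (.cons (nat_lit 0x541) (nat_lit 0x100020002000000000001) .nil))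 .nil)) (.non (nat_lit 1) (nat_lit 3) (nat_lit 0x95400) (nat_lit 0x1000200010002000100000000000000000000))) (.non (nat_lit 1) (nat_lit 3) (nat_lit 0x25400) (nat_lit 0x100010002000100000000000000000000)))) (.non (nat_lit 1) (nat_lit 3) (nat_lit 0x55000) (nat_lit 0x1000100010001000000000000000000000000))) (.non (nat_lit 1) (nat_lit 3) (nat_lit 0x51000) (nat_lit 0x1000100000001000000000000000000000000))) (.non (nat_lit 1) (nat_lit 3) (nat_lit 0x51400) (nat_lit 0x1000100000001000100000000000000000000))) (.non (nat_lit 1) (nat_lit 3) (nat_lit 0x51500) (nat_lit 0x1000100000001000100010000000000000000))) (.non (nat_lit 1) (nat_lit 5) (nat_lit 0x51140) (nat_lit 0x3000200000001000000030004000000000000))) (.non (nat_lit 1) (nat_lit 3) (nat_lit 0x55511) (nat_lit 0x2000300020004000300020000000100000001))) (.non (nat_lit 2) (nat_lit 3) (nat_lit 0x51505) (nat_lit 0x1000100000001000100010000000000010001))) (.non (nat_lit 1) (nat_lit 3) (nat_lit 0x51501) (nat_lit 0x1000100000001000100010000000000000001))))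

noncomputable def t186_3 : Tr := (.split (nat_lit 8) (nat_lit 5) (.split (nat_lit 8) (nat_lit 7) (.st (nat_lit 6) (nat_lit 1) (nat_lit 3) (nat_lit 0x15400) (nat_lit 0x100010002000100000000000000000000) (nat_lit 1) (nat_lit 1) (.ex (nat_lit 7) t186_2 (.split (nat_lit 9) (nat_lit 0) (.split (nat_lit 9) (nat_lit 1) (.split (nat_lit 9) (nat_lit 2) (.split (nat_lit 9) (nat_lit 3) (.split (nat_lit 9) (nat_lit 4) (.split (nat_lit 9) (nat_lit 5) (.split (nat_lit 9) (nat_lit 6) (.split (nat_lit 9) (nat_lit 8) (.st (nat_lit 7) (nat_lit 1) (nat_lit 3) (nat_lit 0x55400) (nat_lit 0x1000100020002000100000000000000000000) (nat_lit 1) (nat_lit 1) (.st (nat_lit 8) (nat_lit 1) (nat_lit 3) (nat_lit 0x55500) (nat_lit 0x1000200020003000200010000000000000000) (nat_lit 1) (nat_lit 1) (.split (nat_lit 8) (nat_lit 6) (.split (nat_lit 9) (nat_lit 7) (.pd (.cons (nat_lit 0) (nat_lit 4) (nat_lit 0x110) (nat_lit 0x7665503120) (nat_lit 0xf423ff423fb71ae65b9761a7900000f423f000010000100000) (.cons (nat_lit 1)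 (nat_lit 4) (nat_lit 0) (nat_lit 0x7665503200) (nat_lit 0xf423ff423fb71ae65b9761a7900000f423ff423f00000f423f) (.cons (nat_lit 2) (nat_lit 4) (nat_lit 0) (nat_lit 0x7665503000) (nat_lit 0xf423ff423fb71ae65b9761a7900000f423f00000f423fb71ae) .nil))) (.leaf (.cons (nat_lit 0x11540) (nat_lit 0x100000002000300040003000000000000) (.cons (nat_lit 0x541) (nat_lit 0x100020002000000000001) .nil)) .nil)) (.non (nat_lit 1) (nat_lit 3) (nat_lit 0x95400) (nat_lit 0x1000100020002000100000000000000000000))) (.non (nat_lit 1) (nat_lit 3) (nat_lit 0x25400) (nat_lit 0x100010002000100000000000000000000))))) (.non (nat_lit 1) (nat_lit 3) (nat_lit 0x55000) (nat_lit 0x1000100010001000000000000000000000000))) (.non (nat_lit 1) (nat_lit 3) (nat_lit 0x45000) (nat_lit 0x1000000010001000000000000000000000000))) (.non (nat_lit 1) (nat_lit 3) (nat_lit 0x45400) (nat_lit 0x1000000010001000100000000000000000000))) (.non (nat_lit 1) (nat_lit 3) (nat_lit 0x45500) (nat_lit 0x1000000010001000100010000000000000000)))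 (.non (nat_lit 1) (nat_lit 5) (nat_lit 0x45140) (nat_lit 0x3000000020001000000030004000000000000))) (.non (nat_lit 1) (nat_lit 3) (nat_lit 0x55511) (nat_lit 0x2000200030004000300020000000100000001))) (.non (nat_lit 2) (nat_lit 3) (nat_lit 0x45505) (nat_lit 0x1000000010001000100010000000000010001))) (.non (nat_lit 1) (nat_lit 3) (nat_lit 0x45501) (nat_lit 0x1000000010001000100010000000000000001))))) (.non (nat_lit 1) (nat_lit 3) (nat_lit 0x15000) (nat_lit 0x100010001000000000000000000000000))) (.non (nat_lit 1) (nat_lit 3) (nat_lit 0x11400) (nat_lit 0x100000001000100000000000000000000)))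

noncomputable def t186_4 : Tr := (.ex (nat_lit 5) (.pd (.cons (nat_lit 0) (nat_lit 6) (nat_lit 0x110) (nat_lit 0x70433120) (nat_lit 0xf423f00000f423fb71ae1f156000010000100000) .nil) (.ex (nat_lit 6) (.pd (.cons (nat_lit 0) (nat_lit 7) (nat_lit 0x110) (nat_lit 0x5433120) (nat_lit 0xf423fb71aea2c2804737000010000100000) .nil) (.ex (nat_lit 7) (.pd (.cons (nat_lit 0) (nat_lit 4) (nat_lit 0x110) (nat_lit 0x65503120) (nat_lit 0xf423fb71aea2c2800000f423f000010000100000) (.cons (nat_lit 1) (nat_lit 4) (nat_lit 0) (nat_lit 0x65503200) (nat_lit 0xf423fb71aea2c2800000f423ff423f00000f423f) (.cons (nat_lit 2) (nat_lit 4) (nat_lit 0) (nat_lit 0x65503000) (nat_lit 0xf423fb71aea2c2800000f423f00000f423fb71ae) .nil))) (.leaf (.cons (nat_lit 0x541) (nat_lit 0x100020002000000000001) .nil) .nil)) (.split (nat_lit 8) (nat_lit 0) (.split (nat_lit 8) (nat_lit 1) (.split (nat_lit 8) (nat_lit 2) (.split (nat_lit 8) (nat_lit 3) (.split (nat_lit 8) (nat_lit 4) (.split (nat_lit 8) (nat_lit 5) (.split (nat_lit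 8) (nat_lit 6) t186_1 (.non (nat_lit 1) (nat_lit 3) (nat_lit 0x15000) (nat_lit 0x100010001000000000000000000000000))) (.non (nat_lit 1) (nat_lit 3) (nat_lit 0x15400) (nat_lit 0x100010001000100000000000000000000))) (.non (nat_lit 1) (nat_lit 3) (nat_lit 0x15500) (nat_lit 0x100010001000100010000000000000000))) (.non (nat_lit 1) (nat_lit 5) (nat_lit 0x15140) (nat_lit 0x300020001000000030004000000000000))) (.non (nat_lit 0) (nat_lit 3) (nat_lit 0x10014) (nat_lit 0x100000000000000000000000200020000))) (.non (nat_lit 2) (nat_lit 3) (nat_lit 0x15505) (nat_lit 0x100010001000100010000000000010001))) (.non (nat_lit 1) (nat_lit 3) (nat_lit 0x15501) (nat_lit 0x100010001000100010000000000000001))))) (.split (nat_lit 8) (nat_lit 0) (.split (nat_lit 8) (nat_lit 1) (.split (nat_lit 8) (nat_lit 2) (.split (nat_lit 8) (nat_lit 3) (.split (nat_lit 8) (nat_lit 4) t186_3 (.non (nat_lit 1) (nat_lit 3) (nat_lit 0x11500) (nat_lit 0x100000001000100010000000000000000))) (.non (nat_lit 1) (nat_lit 5) (nat_lit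 0x15140) (nat_lit 0x300010002000000030004000000000000))) (.non (nat_lit 0) (nat_lit 3) (nat_lit 0x10014) (nat_lit 0x100000000000000000000000200020000))) (.non (nat_lit 2) (nat_lit 3) (nat_lit 0x11505) (nat_lit 0x100000001000100010000000000010001))) (.non (nat_lit 1) (nat_lit 3) (nat_lit 0x11501) (nat_lit 0x100000001000100010000000000000001))))) (.split (nat_lit 8) (nat_lit 0) (.split (nat_lit 8) (nat_lit 1) (.split (nat_lit 8) (nat_lit 2) (.split (nat_lit 8) (nat_lit 3) (.split (nat_lit 8) (nat_lit 4) (.split (nat_lit 8) (nat_lit 6) (.split (nat_lit 8) (nat_lit 7) (.st (nat_lit 5) (nat_lit 1) (nat_lit 3) (nat_lit 0x11500) (nat_lit 0x100000001000200010000000000000000) (nat_lit 1) (nat_lit 1) (.st (nat_lit 6) (nat_lit 1) (nat_lit 3) (nat_lit 0x15500) (nat_lit 0x100010002000200010000000000000000) (nat_lit 1) (nat_lit 1) (.st (nat_lit 7) (nat_lit 2) (nat_lit 3) (nat_lit 0x15505) (nat_lit 0x200020003000400030000000000010002) (nat_lit 1) (nat_lit 1) (.st (nat_lit 8) (nat_lit 1) (nat_lit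 3) (nat_lit 0x15501) (nat_lit 0x200010002000300020000000000000001) (nat_lit 1) (nat_lit 1) (.split (nat_lit 8) (nat_lit 5) (.pd (.cons (nat_lit 0) (nat_lit 4) (nat_lit 0x110) (nat_lit 0x565503120) (nat_lit 0xf423ff423fb71ae65b9700000f423f000010000100000) (.cons (nat_lit 0) (nat_lit 6) (nat_lit 0x110) (nat_lit 0x570433120) (nat_lit 0xf423ff423f00000b71aea2c2804737000010000100000) (.cons (nat_lit 1) (nat_lit 4) (nat_lit 0) (nat_lit 0x565503200) (nat_lit 0xf423ff423fb71ae65b9700000f423ff423f00000f423f) (.cons (nat_lit 2) (nat_lit 4) (nat_lit 0) (nat_lit 0x565503000) (nat_lit 0xf423ff423fb71ae65b9700000f423f00000f423fb71ae) .nil)))) (.leaf (.cons (nat_lit 0x11540) (nat_lit 0x100000001000200020002000000000000) (.cons (nat_lit 0x541) (nat_lit 0x100020002000000000001) .nil)) .nil)) (.non (nat_lit 1) (nat_lit 3) (nat_lit 0x21500) (nat_lit 0x100000001000200010000000000000000))))))) (.non (nat_lit 1) (nat_lit 3) (nat_lit 0x15400) (nat_lit 0x100010001000100000000000000000000))) (.non (nat_lit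 1) (nat_lit 3) (nat_lit 0x11400) (nat_lit 0x100000001000100000000000000000000))) (.non (nat_lit 1) (nat_lit 3) (nat_lit 0x10500) (nat_lit 0x100000000000100010000000000000000))) (.non (nat_lit 1) (nat_lit 5) (nat_lit 0x10141) (nat_lit 0x100000000000000020002000000000001))) (.star (nat_lit 8) (nat_lit 2) (nat_lit 5))) (.star (nat_lit 8) (nat_lit 1) (nat_lit 5))) (.non (nat_lit 1) (nat_lit 3) (nat_lit 0x10501) (nat_lit 0x100000000000100010000000000000001))))

noncomputable def t186_5 : Tr := (.split (nat_lit 8) (nat_lit 1) (.split (nat_lit 8) (nat_lit 3) (.split (nat_lit 8) (nat_lit 4) (.split (nat_lit 8) (nat_lit 5) (.split (nat_lit 8) (nat_lit 6) (.split (nat_lit 8) (nat_lit 7) (.unj (nat_lit 0x10014) (nat_lit 0x100000000000000000000000200020000) (nat_lit 0x5540) (nat_lit 0x10002000300040003000000000000)) (.sup (nat_lit 0x2000500080006000000000001) (nat_lit 0x400010000000000000000000700060000))) (.split (nat_lit 8) (nat_lit 7) (.st (nat_lit 5) (nat_lit 1) (nat_lit 3) (nat_lit 0x15500)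 (nat_lit 0x100010002000200010000000000000000) (nat_lit 1) (nat_lit 1) (.st (nat_lit 6) (nat_lit 1) (nat_lit 3) (nat_lit 0x15400) (nat_lit 0x100010002000100000000000000000000) (nat_lit 1) (nat_lit 1) (.st (nat_lit 7) (nat_lit 1) (nat_lit 3) (nat_lit 0x15510) (nat_lit 0x200020003000200010000000100000000) (nat_lit 1) (nat_lit 1) (.st (nat_lit 8) (nat_lit 1) (nat_lit 3) (nat_lit 0x15410) (nat_lit 0x200010002000100000000000100000000) (nat_lit 1) (nat_lit 1) (.split (nat_lit 8) (nat_lit 2) (.split (nat_lit 7) (nat_lit 6) (.split (nat_lit 8) (nat_lit 6) (.pd (.cons (nat_lit 1) (nat_lit 4) (nat_lit 0) (nat_lit 0x268603200) (nat_lit 0x7a11bf423f7a11df423f00000f423f7a11900000f423f) (.cons (nat_lit 2) (nat_lit 4) (nat_lit 0) (nat_lit 0x665503000) (nat_lit 0xf423ff423f7a11d7a11b00000f423f00000f423fb71ae) .nil)) (.st (nat_lit 0) (nat_lit 2) (nat_lit 3) (nat_lit 0x15505) (nat_lit 0x100010002000200020000000000010002) (nat_lit 1) (nat_lit 1) (.st (nat_lit 2) (nat_lit 1) (nat_lit 3) (nat_lit 0x15511)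 (nat_lit 0x300020004000300020000000200000001) (nat_lit 1) (nat_lit 1) (.split (nat_lit 4) (nat_lit 0) (.leaf (.cons (nat_lit 0x10014) (nat_lit 0x100000000000000000000000200020000) (.cons (nat_lit 0x541) (nat_lit 0x100020002000000000001) .nil)) (.cons (nat_lit 0x111110011) (nat_lit 0x1100) (nat_lit 0xa) (nat_lit 0x210340065) .nil)) (.non (nat_lit 1) (nat_lit 3) (nat_lit 0x2aa01) (nat_lit 0x100010002000200020000000000000002)))))) (.non (nat_lit 1) (nat_lit 3) (nat_lit 0x25400) (nat_lit 0x100010002000100000000000000000000))) (.non (nat_lit 1) (nat_lit 3) (nat_lit 0x19400) (nat_lit 0x100010002000100000000000000000000))) (.non (nat_lit 1) (nat_lit 3) (nat_lit 0x2a810) (nat_lit 0x200010002000100000000000200000000))))))) (.non (nat_lit 1) (nat_lit 3) (nat_lit 0x15000) (nat_lit 0x100010001000000000000000000000000)))) (.star (nat_lit 8) (nat_lit 2) (nat_lit 5))) (.non (nat_lit 1) (nat_lit 5) (nat_lit 0x10141) (nat_lit 0x100000000000000020002000000000001))) (.star (nat_lit 8) (nat_lit 2) (nat_lit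 3))) (.non (nat_lit 2) (nat_lit 5) (nat_lit 0x10145) (nat_lit 0x100000000000000040003000000020003)))

noncomputable def t186_6 : Tr := (.ex (nat_lit 3) (.split (nat_lit 6) (nat_lit 0) (.pd (.cons (nat_lit 0) (nat_lit 4) (nat_lit 0x110) (nat_lit 0x65503120) (nat_lit 0xf423fb71aea2c2800000f423f000010000100000) (.cons (nat_lit 1) (nat_lit 4) (nat_lit 0) (nat_lit 0x60603200) (nat_lit 0xf423f7a11df423f00000f423ff423f000007a11b) (.cons (nat_lit 2) (nat_lit 4) (nat_lit 0) (nat_lit 0x60603000) (nat_lit 0xf423f7a11df423f00000f423f00000f423f3d08a) .nil))) (.ex (nat_lit 4) (.pd (.cons (nat_lit 0) (nat_lit 6) (nat_lit 0x110) (nat_lit 0x70433120) (nat_lit 0xf423f00000f423fb71ae1f156000010000100000) (.cons (nat_lit 0) (nat_lit 7) (nat_lit 0x110) (nat_lit 0x5433120) (nat_lit 0xf423fb71aea2c2804737000010000100000) (.cons (nat_lit 1) (nat_lit 6) (nat_lit 0) (nat_lit 0x70433200) (nat_lit 0xf423f00000f423fb71ae1f156f423f00000f423f) (.cons (nat_lit 2) (nat_lit 6) (nat_lit 0) (nat_lit 0x70433000) (nat_lit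 0xf423f00000f423fb71ae1f15600000f423fb71ae) .nil)))) (.leaf (.cons (nat_lit 0x1541) (nat_lit 0x2000300040003000000000001) .nil) (.cons (nat_lit 0x11110001) (nat_lit 0x1010) (nat_lit 8) (nat_lit 0x20340001) (.cons (nat_lit 0x11100001) (nat_lit 0x10010) (nat_lit 7) (nat_lit 0x30200001) (.cons (nat_lit 0x11000001) (nat_lit 0x100010) (nat_lit 1) (nat_lit 0x21000000) (.cons (nat_lit 0x11000011) (nat_lit 0x100100) (nat_lit 2) (nat_lit 0x32000001) .nil)))))) (.split (nat_lit 8) (nat_lit 0) (.split (nat_lit 8) (nat_lit 1) (.split (nat_lit 8) (nat_lit 2) (.split (nat_lit 8) (nat_lit 3) (.split (nat_lit 8) (nat_lit 5) (.split (nat_lit 8) (nat_lit 6) (.split (nat_lit 8) (nat_lit 7) (.unj (nat_lit 0x15) (nat_lit 0x200020001) (nat_lit 0x10540) (nat_lit 0x100000000000100020002000000000000)) (.non (nat_lit 1) (nat_lit 3) (nat_lit 0x15500) (nat_lit 0x100010001000100010000000000000000))) (.non (nat_lit 1) (nat_lit 3) (nat_lit 0x11500) (nat_lit 0x100000001000100010000000000000000))) (.non (nat_lit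 1) (nat_lit 3) (nat_lit 0x10500) (nat_lit 0x100000000000100010000000000000000))) (.non (nat_lit 1) (nat_lit 5) (nat_lit 0x10140) (nat_lit 0x100000000000000010001000000000000))) (.non (nat_lit 0) (nat_lit 3) (nat_lit 0x10014) (nat_lit 0x100000000000000000000000200020000))) (.non (nat_lit 2) (nat_lit 3) (nat_lit 0x11505) (nat_lit 0x100000001000100010000000000010001))) (.non (nat_lit 1) (nat_lit 3) (nat_lit 0x11501) (nat_lit 0x100000001000100010000000000000001))))) (.non (nat_lit 1) (nat_lit 3) (nat_lit 0xa801) (nat_lit 0x10002000100000000000000000002))) (.split (nat_lit 8) (nat_lit 0) (.split (nat_lit 8) (nat_lit 1) (.split (nat_lit 8) (nat_lit 2) (.split (nat_lit 8) (nat_lit 4) (.split (nat_lit 8) (nat_lit 5) (.split (nat_lit 8) (nat_lit 6) (.split (nat_lit 8) (nat_lit 7) (.unj (nat_lit 0x15) (nat_lit 0x200020001) (nat_lit 0x10540) (nat_lit 0x100000000000100020002000000000000)) (.non (nat_lit 1) (nat_lit 5) (nat_lit 0x15140) (nat_lit 0x300020001000000030004000000000000))) (.non (nat_lit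 1) (nat_lit 3) (nat_lit 0x15401) (nat_lit 0x100010002000100000000000000000001))) (.non (nat_lit 1) (nat_lit 3) (nat_lit 0x15501) (nat_lit 0x100010002000200010000000000000001))) (.non (nat_lit 1) (nat_lit 5) (nat_lit 0x10140) (nat_lit 0x100000000000000010001000000000000))) (.star (nat_lit 8) (nat_lit 2) (nat_lit 3))) (.star (nat_lit 8) (nat_lit 1) (nat_lit 3))) (.non (nat_lit 1) (nat_lit 5) (nat_lit 0x11141) (nat_lit 0x300000001000000030004000000000002))))

noncomputable def t186_7 : Tr := (.split (nat_lit 8) (nat_lit 0) (.split (nat_lit 8) (nat_lit 3) (.split (nat_lit 8) (nat_lit 5) (.split (nat_lit 8) (nat_lit 6) (.split (nat_lit 8) (nat_lit 7) (.split (nat_lit 8) (nat_lit 1) (.split (nat_lit 8) (nat_lit 4) (.unj (nat_lit 0x10014) (nat_lit 0x100000000000000000000000200020000) (nat_lit 0x5540) (nat_lit 0x10002000300040003000000000000)) (.st (nat_lit 3) (nat_lit 1) (nat_lit 5) (nat_lit 0x10140) (nat_lit 0x100000000000000020002000000000000) (nat_lit 1) (nat_lit 1) (.split (nat_lit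 6) (nat_lit 0) (.split (nat_lit 7) (nat_lit 6) (.pd (.cons (nat_lit 1) (nat_lit 4) (nat_lit 0x100000100) (nat_lit 0x260603800) (nat_lit 0x1f423f7a11df423f00000f423f00001000007a11b) (.cons (nat_lit 2) (nat_lit 4) (nat_lit 0) (nat_lit 0x860603000) (nat_lit 0xf423ff423f7a11df423f00000f423f00000f423f3d08a) .nil)) (.st (nat_lit 2) (nat_lit 1) (nat_lit 5) (nat_lit 0x10150) (nat_lit 0x300000000000000040003000200000000) (nat_lit 1) (nat_lit 1) (.st (nat_lit 4) (nat_lit 1) (nat_lit 3) (nat_lit 0x15501) (nat_lit 0x100010002000200020000000000000001) (nat_lit 1) (nat_lit 1) (.st (nat_lit 8) (nat_lit 1) (nat_lit 3) (nat_lit 0x15511) (nat_lit 0x200010002000200020000000100000001) (nat_lit 1) (nat_lit 1) (.split (nat_lit 8) (nat_lit 2) (.split (nat_lit 8) (nat_lit 4) (.leaf (.cons (nat_lit 0x10014) (nat_lit 0x100000000000000000000000200020000) (.cons (nat_lit 0x10540) (nat_lit 0x100000000000100020002000000000000) .nil)) (.cons (nat_lit 0x111110101) (nat_lit 0x1010) (nat_lit 0xa) (nat_lit 0x520340601)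 .nil)) (.non (nat_lit 1) (nat_lit 3) (nat_lit 0x12a10) (nat_lit 0x400000001000200030000000200000000))) (.non (nat_lit 1) (nat_lit 3) (nat_lit 0x15521) (nat_lit 0x200010002000200020000000100000001))))))) (.non (nat_lit 1) (nat_lit 3) (nat_lit 0x9401) (nat_lit 0x10002000100000000000000000001))) (.non (nat_lit 1) (nat_lit 3) (nat_lit 0xa801) (nat_lit 0x10002000100000000000000000002))))) (.split (nat_lit 8) (nat_lit 4) (.unj (nat_lit 0x10014) (nat_lit 0x100000000000000000000000100010000) (nat_lit 0x5540) (nat_lit 0x10002000300040003000000000000)) (.non (nat_lit 2) (nat_lit 3) (nat_lit 0x11505) (nat_lit 0x100000001000100010000000000010001)))) (.non (nat_lit 2) (nat_lit 3) (nat_lit 0x15505) (nat_lit 0x100020003000200010000000000010002))) (.non (nat_lit 1) (nat_lit 3) (nat_lit 0x15401) (nat_lit 0x100010002000100000000000000000001))) (.star (nat_lit 8) (nat_lit 2) (nat_lit 5))) (.star (nat_lit 8) (nat_lit 2) (nat_lit 3))) (.non (nat_lit 2) (nat_lit 3) (nat_lit 0x15405) (nat_lit 0x100010002000100000000000000010002)))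

noncomputable def t186_8 : Tr := (.split (nat_lit 6) (nat_lit 0) (.split (nat_lit 4) (nat_lit 0) .uj (.st (nat_lit 1) (nat_lit 2) (nat_lit 5) (nat_lit 0x145) (nat_lit 0x40003000000020003) (nat_lit 1) (nat_lit 1) (.st (nat_lit 3) (nat_lit 1) (nat_lit 5) (nat_lit 0x141) (nat_lit 0x20002000000000001) (nat_lit 1) (nat_lit 1) (.st (nat_lit 4) (nat_lit 1) (nat_lit 5) (nat_lit 0x141) (nat_lit 0x20002000000000001) (nat_lit 1) (nat_lit 1) (.ex (nat_lit 2) (.split (nat_lit 7) (nat_lit 6) (.pd (.cons (nat_lit 0) (nat_lit 3) (nat_lit 0x110) (nat_lit 0x65440120) (nat_lit 0xf423fb71aea2c289896500000000010000100000) (.cons (nat_lit 0) (nat_lit 5) (nat_lit 0x110) (nat_lit 0x66033120) (nat_lit 0xf423fb71ae00000f423f54591000010000100000) .nil)) t186_4) (.split (nat_lit 7) (nat_lit 6) (.pd (.cons (nat_lit 0) (nat_lit 3) (nat_lit 0x110) (nat_lit 0x65440120) (nat_lit 0xf423f7a11e7a11c7a11a00000000010000100000) (.cons (nat_lit 0) (nat_lit 5) (nat_lit 0x110) (nat_lit 0x66033120) (nat_lit 0xf423f7a11e00000f423f54591000010000100000)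 .nil)) (.st (nat_lit 5) (nat_lit 1) (nat_lit 3) (nat_lit 0x9500) (nat_lit 0x10002000200010000000000000000) (nat_lit 1) (nat_lit 1) (.pd (.cons (nat_lit 0) (nat_lit 6) (nat_lit 0x110) (nat_lit 0x70433120) (nat_lit 0xf423f00000f423fb71ae1f156000010000100000) .nil) (.st (nat_lit 6) (nat_lit 1) (nat_lit 3) (nat_lit 0x9400) (nat_lit 0x10002000100000000000000000000) (nat_lit 1) (nat_lit 1) (.pd (.cons (nat_lit 0) (nat_lit 7) (nat_lit 0x110) (nat_lit 0x5433120) (nat_lit 0xf423fb71aea2c2804737000010000100000) .nil) (.st (nat_lit 7) (nat_lit 1) (nat_lit 3) (nat_lit 0x9500) (nat_lit 0x20003000200010000000000000000) (nat_lit 2) (nat_lit 1) (.pd (.cons (nat_lit 0) (nat_lit 4) (nat_lit 0x110) (nat_lit 0x65503120) (nat_lit 0xf423f7a11e7a11c00000f423f000010000100000) (.cons (nat_lit 1) (nat_lit 4) (nat_lit 0) (nat_lit 0x65503200) (nat_lit 0xf423f7a11e7a11c00000f423ff423f00000f423f) (.cons (nat_lit 2) (nat_lit 4) (nat_lit 0) (nat_lit 0x65503000) (nat_lit 0xf423f7a11e7a11c00000f423f00000f423fb71ae)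 .nil))) (.leaf (.cons (nat_lit 0x541) (nat_lit 0x100020002000000000001) .nil) .nil)))))))) (.non (nat_lit 1) (nat_lit 3) (nat_lit 0x5501) (nat_lit 0x30004000300020000000000000001)))) (.split (nat_lit 8) (nat_lit 0) t186_5 (.non (nat_lit 1) (nat_lit 5) (nat_lit 0x10151) (nat_lit 0x200000000000000040003000100000003)))))))) (.split (nat_lit 4) (nat_lit 0) (.st (nat_lit 0) (nat_lit 2) (nat_lit 3) (nat_lit 0x5405) (nat_lit 0x10002000100000000000000010002) (nat_lit 1) (nat_lit 1) (.st (nat_lit 5) (nat_lit 1) (nat_lit 3) (nat_lit 0x5501) (nat_lit 0x10002000200010000000000000001) (nat_lit 1) (nat_lit 1) (.st (nat_lit 6) (nat_lit 1) (nat_lit 3) (nat_lit 0x5401) (nat_lit 0x10002000100000000000000000001) (nat_lit 1) (nat_lit 1) (.st (nat_lit 7) (nat_lit 2) (nat_lit 3) (nat_lit 0x5505) (nat_lit 0x20003000200010000000000010002) (nat_lit 1) (nat_lit 1) (.ex (nat_lit 1) (.ex (nat_lit 2) (.split (nat_lit 7) (nat_lit 6) (.pd (.cons (nat_lit 0) (nat_lit 3) (nat_lit 0x110) (nat_lit 0x65440120) (nat_lit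 0xf423fb71aea2c289896500000000010000100000) (.cons (nat_lit 0) (nat_lit 5) (nat_lit 0x110) (nat_lit 0x66033120) (nat_lit 0xf423fb71ae00000f423f54591000010000100000) .nil)) t186_6) (.non (nat_lit 1) (nat_lit 3) (nat_lit 0x9401) (nat_lit 0x10002000100000000000000000001))) t186_7) (.split (nat_lit 8) (nat_lit 0) (.split (nat_lit 8) (nat_lit 3) (.split (nat_lit 8) (nat_lit 4) (.split (nat_lit 8) (nat_lit 5) (.split (nat_lit 8) (nat_lit 6) (.split (nat_lit 8) (nat_lit 7) (.split (nat_lit 8) (nat_lit 2) (.unj (nat_lit 0x10014) (nat_lit 0x100000000000000000000000200020000) (nat_lit 0x5540) (nat_lit 0x10002000300040003000000000000)) (.unj (nat_lit 0x10014) (nat_lit 0x100000000000000000000000100010000) (nat_lit 0x5540) (nat_lit 0x10002000300040003000000000000))) (.non (nat_lit 2) (nat_lit 3) (nat_lit 0x15005) (nat_lit 0x100010001000000000000000000010001))) (.non (nat_lit 1) (nat_lit 3) (nat_lit 0x15401) (nat_lit 0x100010002000100000000000000000001))) (.star (nat_lit 8) (nat_lit 1) (nat_lit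 5))) (.non (nat_lit 2) (nat_lit 3) (nat_lit 0x11505) (nat_lit 0x100000001000100010000000000010001))) (.star (nat_lit 8) (nat_lit 1) (nat_lit 3))) (.non (nat_lit 2) (nat_lit 3) (nat_lit 0x10005) (nat_lit 0x100000000000000000000000000010001)))))))) (.non (nat_lit 1) (nat_lit 3) (nat_lit 0x1501) (nat_lit 0x1000100010000000000000001))))

noncomputable def t186_9 : Tr := (.ex (nat_lit 0) (.ex (nat_lit 8) (.leaf (.cons (nat_lit 0x4014) (nat_lit 0x10000000000000000000200020000) .nil) (.cons (nat_lit 0x111110100) (nat_lit 0x1010) (nat_lit 9) (nat_lit 0x203450100) (.cons (nat_lit 0x111100100) (nat_lit 0x10010) (nat_lit 8) (nat_lit 0x203400100) (.cons (nat_lit 0x111000100) (nat_lit 0x100010) (nat_lit 7) (nat_lit 0x302000100) (.cons (nat_lit 0x110000100) (nat_lit 0x1000010) (nat_lit 1) (nat_lit 0x210000000) .nil))))) (.split (nat_lit 9) (nat_lit 0) (.split (nat_lit 9) (nat_lit 1) (.split (nat_lit 9) (nat_lit 2) (.split (nat_lit 9) (nat_lit 3) (.split (nat_lit 9) (nat_lit 4) (.split (nat_lit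 9) (nat_lit 5) (.split (nat_lit 9) (nat_lit 6) (.split (nat_lit 9) (nat_lit 7) (.st (nat_lit 8) (nat_lit 1) (nat_lit 3) (nat_lit 0x55010) (nat_lit 0x1000200020001000000000000000100000000) (nat_lit 1) (nat_lit 1) (.st (nat_lit 9) (nat_lit 1) (nat_lit 3) (nat_lit 0x55510) (nat_lit 0x2000300040003000200010000000200000000) (nat_lit 1) (nat_lit 1) (.split (nat_lit 9) (nat_lit 8) (.leaf (.cons (nat_lit 0x4014) (nat_lit 0x10000000000000000000200020000) .nil) (.cons (nat_lit 0x1111110100) (nat_lit 0x1010) (nat_lit 0xd) (nat_lit 0x3204560100) (.cons (nat_lit 0x1111100100) (nat_lit 0x10010) (nat_lit 0xc) (nat_lit 0x5402300100) (.cons (nat_lit 0x1111000100) (nat_lit 0x100010) (nat_lit 8) (nat_lit 0x4302000100) .nil)))) (.non (nat_lit 1) (nat_lit 3) (nat_lit 0x95010) (nat_lit 0x1000200020001000000000000000100000000))))) (.non (nat_lit 1) (nat_lit 3) (nat_lit 0x54000) (nat_lit 0x1000100010000000000000000000000000000))) (.non (nat_lit 1) (nat_lit 3) (nat_lit 0x55000) (nat_lit 0x1000100010001000000000000000000000000)))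 (.non (nat_lit 1) (nat_lit 3) (nat_lit 0x55400) (nat_lit 0x1000100010001000100000000000000000000))) (.non (nat_lit 1) (nat_lit 3) (nat_lit 0x55500) (nat_lit 0x1000100010001000100010000000000000000))) (.non (nat_lit 1) (nat_lit 5) (nat_lit 0x54140) (nat_lit 0x3000200010000000000030004000000000000))) (.non (nat_lit 1) (nat_lit 3) (nat_lit 0x54010) (nat_lit 0x1000100010000000000000000000100000000))) (.non (nat_lit 0) (nat_lit 7) (nat_lit 0x40014) (nat_lit 0x1000000000000000000000000000200020000))) (.non (nat_lit 1) (nat_lit 3) (nat_lit 0x55511) (nat_lit 0x2000300040003000200010000000200000001)))) (.split (nat_lit 9) (nat_lit 1) (.split (nat_lit 9) (nat_lit 2) (.split (nat_lit 9) (nat_lit 3) (.split (nat_lit 9) (nat_lit 4) (.split (nat_lit 9) (nat_lit 5) (.split (nat_lit 9) (nat_lit 6) (.split (nat_lit 9) (nat_lit 7) (.split (nat_lit 9) (nat_lit 8) (.sup (nat_lit 0x100020006000b0010000d000000000000) (nat_lit 0x2000000000000000000000000000400050004)) (.non (nat_lit 1) (nat_lit 3) (nat_lit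 0x55511) (nat_lit 0x2000300040003000200010000000200000001))) (.non (nat_lit 1) (nat_lit 3) (nat_lit 0x55010) (nat_lit 0x1000100020001000000000000000100000000))) (.non (nat_lit 1) (nat_lit 3) (nat_lit 0x55410) (nat_lit 0x1000100020002000100000000000100000000))) (.non (nat_lit 1) (nat_lit 3) (nat_lit 0x55510) (nat_lit 0x1000100020002000200010000000100000000))) (.non (nat_lit 2) (nat_lit 5) (nat_lit 0x40145) (nat_lit 0x3000000000000000000040003000000010002))) (.non (nat_lit 2) (nat_lit 5) (nat_lit 0x40145) (nat_lit 0x3000000000000000000030004000000010002))) (.non (nat_lit 1) (nat_lit 3) (nat_lit 0x55511) (nat_lit 0x2000200040003000200010000000300000001))) (.non (nat_lit 2) (nat_lit 3) (nat_lit 0x40005) (nat_lit 0x1000000000000000000000000000000010001))))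

noncomputable def t186_10 : Tr := (.split (nat_lit 8) (nat_lit 5) (.split (nat_lit 8) (nat_lit 6) (.split (nat_lit 8) (nat_lit 0) (.st (nat_lit 7) (nat_lit 1) (nat_lit 3) (nat_lit 0x15010) (nat_lit 0x100020001000000000000000100000000) (nat_lit 1) (nat_lit 1) (.split (nat_lit 7) (nat_lit 2) (.split (nat_lit 7) (nat_lit 6) (.split (nat_lit 8) (nat_lit 7) (.pd (.cons (nat_lit 1) (nat_lit 4) (nat_lit 0) (nat_lit 0x727603200) (nat_lit 0xf423f65b97b71aef423f00000f423f61a7900000f423f) (.cons (nat_lit 2) (nat_lit 4) (nat_lit 0) (nat_lit 0x765503000) (nat_lit 0xf423fb71aea2c289896500000f423f00000f423fb71ae) .nil)) t186_9) (.non (nat_lit 1) (nat_lit 3) (nat_lit 0x25010) (nat_lit 0x100020001000000000000000100000000))) (.non (nat_lit 1) (nat_lit 3) (nat_lit 0x29500) (nat_lit 0x100020003000200010000000000000000))) (.non (nat_lit 1) (nat_lit 3) (nat_lit 0x2a010) (nat_lit 0x100020001000000000000000200000000)))) (.st (nat_lit 7) (nat_lit 1) (nat_lit 3) (nat_lit 0x15010) (nat_lit 0x100020001000000000000000100000000)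 (nat_lit 1) (nat_lit 1) (.split (nat_lit 8) (nat_lit 0) (.split (nat_lit 7) (nat_lit 2) (.split (nat_lit 7) (nat_lit 6) (.split (nat_lit 8) (nat_lit 7) (.pd (.cons (nat_lit 1) (nat_lit 4) (nat_lit 0) (nat_lit 0x87603700) (nat_lit 0x61a7965b97b71aef423f00000f423ff423f000005b8cc) (.cons (nat_lit 2) (nat_lit 4) (nat_lit 0) (nat_lit 0x87603000) (nat_lit 0x98965a2c28b71aef423f00000f423f00000f423f5572c) .nil)) (.st (nat_lit 0) (nat_lit 1) (nat_lit 3) (nat_lit 0x15511) (nat_lit 0x300040003000200010000000200000002) (nat_lit 1) (nat_lit 1) (.st (nat_lit 8) (nat_lit 1) (nat_lit 3) (nat_lit 0x15011) (nat_lit 0x200020001000000000000000100000001) (nat_lit 1) (nat_lit 1) (.leaf (.cons (nat_lit 0x4014) (nat_lit 0x10000000000000000000200020000) .nil) (.cons (nat_lit 0x111110101) (nat_lit 0x1010) (nat_lit 0xd) (nat_lit 0x204560103) (.cons (nat_lit 0x111100101) (nat_lit 0x10010) (nat_lit 0xc) (nat_lit 0x402300105) (.cons (nat_lit 0x111000101) (nat_lit 0x100010) (nat_lit 8) (nat_lit 0x302000104) .nil)))))))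 (.non (nat_lit 1) (nat_lit 3) (nat_lit 0x25010) (nat_lit 0x100020001000000000000000100000000))) (.non (nat_lit 1) (nat_lit 3) (nat_lit 0x29500) (nat_lit 0x100020003000200010000000000000000))) (.non (nat_lit 1) (nat_lit 3) (nat_lit 0x2a010) (nat_lit 0x100020001000000000000000200000000))) (.non (nat_lit 1) (nat_lit 3) (nat_lit 0x2a021) (nat_lit 0x200020001000000000000000100000002))))) (.non (nat_lit 1) (nat_lit 3) (nat_lit 0x15000) (nat_lit 0x100010001000000000000000000000000))) (.non (nat_lit 1) (nat_lit 3) (nat_lit 0x15400) (nat_lit 0x100010001000100000000000000000000)))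

noncomputable def t186_11 : Tr := (.ex (nat_lit 6) (.pd (.cons (nat_lit 0) (nat_lit 7) (nat_lit 0x110) (nat_lit 0x5433120) (nat_lit 0xf423fb71aea2c2804737000010000100000) (.cons (nat_lit 1) (nat_lit 7) (nat_lit 0) (nat_lit 0x5433200) (nat_lit 0xf423fb71aea2c2804737f423f00000f423f) (.cons (nat_lit 2) (nat_lit 7) (nat_lit 0) (nat_lit 0x5433000) (nat_lit 0xf423fb71aea2c280473700000f423fb71ae) .nil))) (.ex (nat_lit 7) (.split (nat_lit 7) (nat_lit 2) (.split (nat_lit 7) (nat_lit 6) (.pd (.cons (nat_lit 1) (nat_lit 4) (nat_lit 0) (nat_lit 0x27603200) (nat_lit 0xa2c28b71aef423f00000f423f9896500000f423f) (.cons (nat_lit 2) (nat_lit 4) (nat_lit 0) (nat_lit 0x65503000) (nat_lit 0xf423fb71aea2c2800000f423f00000f423fb71ae) .nil)) (.leaf (.cons (nat_lit 0x4014) (nat_lit 0x10000000000000000000200020000) .nil) (.cons (nat_lit 0x11100100) (nat_lit 0x10010) (nat_lit 2) (nat_lit 0x12300000) (.cons (nat_lit 0x11000100) (nat_lit 0x100010) (nat_lit 1) (nat_lit 0x12000000) (.cons (nat_lit 0x10000100)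 (nat_lit 0x1000010) (nat_lit 0) (nat_lit 0x10000000) .nil))))) (.non (nat_lit 1) (nat_lit 3) (nat_lit 0x6a10) (nat_lit 0x40003000200010000000200000000))) (.split (nat_lit 7) (nat_lit 2) (.split (nat_lit 7) (nat_lit 6) (.pd (.cons (nat_lit 1) (nat_lit 4) (nat_lit 0) (nat_lit 0x27603200) (nat_lit 0xa2c28b71aef423f00000f423f3d08b00000f423f) (.cons (nat_lit 2) (nat_lit 4) (nat_lit 0) (nat_lit 0x65503000) (nat_lit 0xf423fb71aea2c2800000f423f00000f423fb71ae) .nil)) (.leaf (.cons (nat_lit 0x4014) (nat_lit 0x10000000000000000000100010000) .nil) (.cons (nat_lit 0x11000100) (nat_lit 0x100010) (nat_lit 6) (nat_lit 0x12000000) .nil))) (.non (nat_lit 1) (nat_lit 3) (nat_lit 0x9010) (nat_lit 0x10001000000000000000100000000))) (.non (nat_lit 1) (nat_lit 3) (nat_lit 0x5510) (nat_lit 0x40003000200010000000300000000)))) (.split (nat_lit 8) (nat_lit 1) (.split (nat_lit 8) (nat_lit 2) (.split (nat_lit 8) (nat_lit 3) (.split (nat_lit 8) (nat_lit 4) t186_10 (.non (nat_lit 1) (nat_lit 3) (nat_lit 0x15500)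 (nat_lit 0x100010001000100010000000000000000))) (.non (nat_lit 1) (nat_lit 5) (nat_lit 0x15140) (nat_lit 0x300020001000000030004000000000000))) (.non (nat_lit 1) (nat_lit 3) (nat_lit 0x14010) (nat_lit 0x100010000000000000000000100000000))) (.non (nat_lit 0) (nat_lit 7) (nat_lit 0x10014) (nat_lit 0x100000000000000000000000200020000))))) (.split (nat_lit 8) (nat_lit 0) (.split (nat_lit 8) (nat_lit 2) (.split (nat_lit 8) (nat_lit 3) (.split (nat_lit 8) (nat_lit 4) (.split (nat_lit 8) (nat_lit 5) (.split (nat_lit 8) (nat_lit 7) (.split (nat_lit 8) (nat_lit 1) (.unj (nat_lit 0x15) (nat_lit 0x200020001) (nat_lit 0x11540) (nat_lit 0x100000002000300040003000000000000)) (.st (nat_lit 6) (nat_lit 1) (nat_lit 3) (nat_lit 0x15400) (nat_lit 0x100010002000100000000000000000000) (nat_lit 1) (nat_lit 1) (.st (nat_lit 7) (nat_lit 1) (nat_lit 3) (nat_lit 0x15410) (nat_lit 0x100020002000100000000000100000000) (nat_lit 1) (nat_lit 1) (.st (nat_lit 8) (nat_lit 1) (nat_lit 3) (nat_lit 0x15510) (nat_lit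 0x200020003000200010000000100000000) (nat_lit 1) (nat_lit 1) (.split (nat_lit 7) (nat_lit 2) (.split (nat_lit 7) (nat_lit 6) (.split (nat_lit 8) (nat_lit 6) (.split (nat_lit 8) (nat_lit 1) (.pd (.cons (nat_lit 1) (nat_lit 4) (nat_lit 0) (nat_lit 0x627603200) (nat_lit 0xf423f7a11b7a11df423f00000f423f7a11900000f423f) (.cons (nat_lit 2) (nat_lit 4) (nat_lit 0) (nat_lit 0x168603000) (nat_lit 0x7a11bf423f7a11df423f00000f423f000007a1197a117) .nil)) (.leaf (.cons (nat_lit 0x10014) (nat_lit 0x100000000000000000000000200020000) (.cons (nat_lit 0x11540) (nat_lit 0x100000002000300040003000000000000) .nil)) .nil)) (.non (nat_lit 2) (nat_lit 3) (nat_lit 0x2a804) (nat_lit 0x200010002000100000000000000020000))) (.non (nat_lit 1) (nat_lit 3) (nat_lit 0x25400) (nat_lit 0x100010002000100000000000000000000))) (.non (nat_lit 1) (nat_lit 3) (nat_lit 0x19400) (nat_lit 0x100010002000100000000000000000000))) (.non (nat_lit 1) (nat_lit 3) (nat_lit 0x2a810) (nat_lit 0x100020002000100000000000200000000)))))))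 (.non (nat_lit 1) (nat_lit 3) (nat_lit 0x15000) (nat_lit 0x100010001000000000000000000000000))) (.non (nat_lit 1) (nat_lit 3) (nat_lit 0x11400) (nat_lit 0x100000001000100000000000000000000))) (.non (nat_lit 1) (nat_lit 3) (nat_lit 0x11500) (nat_lit 0x100000001000100010000000000000000))) (.non (nat_lit 1) (nat_lit 5) (nat_lit 0x15140) (nat_lit 0x300010002000000030004000000000000))) (.non (nat_lit 1) (nat_lit 3) (nat_lit 0x15010) (nat_lit 0x100010001000000000000000100000000))) (.non (nat_lit 1) (nat_lit 3) (nat_lit 0x15511) (nat_lit 0x200020003000200010000000100000001))))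

noncomputable def t186_12 : Tr := (.ex (nat_lit 3) (.ex (nat_lit 4) (.ex (nat_lit 5) (.pd (.cons (nat_lit 1) (nat_lit 6) (nat_lit 0x10000100) (nat_lit 0x20433700) (nat_lit 0x100000f423fb71ae1f1560000100000f423f) (.cons (nat_lit 2) (nat_lit 6) (nat_lit 0) (nat_lit 0x70433000) (nat_lit 0xf423f00000f423fb71ae1f15600000f423fb71ae) .nil)) t186_11) (.split (nat_lit 8) (nat_lit 1) (.split (nat_lit 8) (nat_lit 2) (.split (nat_lit 8) (nat_lit 4) (.split (nat_lit 8) (nat_lit 6) (.split (nat_lit 8) (nat_lit 7) (.split (nat_lit 8) (nat_lit 0) (.split (nat_lit 8) (nat_lit 3) (.unj (nat_lit 0x15) (nat_lit 0x200020001) (nat_lit 0x11540) (nat_lit 0x100000001000200020002000000000000)) (.unj (nat_lit 0x15) (nat_lit 0x200020001) (nat_lit 0x10540) (nat_lit 0x100000000000100010001000000000000))) (.split (nat_lit 8) (nat_lit 3) (.sup (nat_lit 0x9000a0004) (nat_lit 0x1000000030007000a0008000000000000)) (.non (nat_lit 2) (nat_lit 5) (nat_lit 0x10145) (nat_lit 0x300000000000000030004000000010002)))) (.non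 (nat_lit 1) (nat_lit 3) (nat_lit 0x15400) (nat_lit 0x100010001000100000000000000000000))) (.non (nat_lit 1) (nat_lit 3) (nat_lit 0x11400) (nat_lit 0x100000001000100000000000000000000))) (.non (nat_lit 1) (nat_lit 3) (nat_lit 0x10500) (nat_lit 0x100000000000100010000000000000000))) (.star (nat_lit 8) (nat_lit 2) (nat_lit 5))) (.star (nat_lit 8) (nat_lit 1) (nat_lit 5)))) (.split (nat_lit 8) (nat_lit 0) (.split (nat_lit 8) (nat_lit 1) (.split (nat_lit 8) (nat_lit 2) (.split (nat_lit 8) (nat_lit 3) (.split (nat_lit 8) (nat_lit 5) (.split (nat_lit 8) (nat_lit 6) (.split (nat_lit 8) (nat_lit 7) (.unj (nat_lit 0x15) (nat_lit 0x200020001) (nat_lit 0x10540) (nat_lit 0x100000000000100020002000000000000)) (.non (nat_lit 1) (nat_lit 3) (nat_lit 0x15500) (nat_lit 0x100010001000100010000000000000000))) (.non (nat_lit 1) (nat_lit 3) (nat_lit 0x11500) (nat_lit 0x100000001000100010000000000000000))) (.non (nat_lit 1) (nat_lit 3) (nat_lit 0x10500) (nat_lit 0x100000000000100010000000000000000))) (.non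 (nat_lit 1) (nat_lit 5) (nat_lit 0x10140) (nat_lit 0x100000000000000010001000000000000))) (.non (nat_lit 1) (nat_lit 3) (nat_lit 0x15510) (nat_lit 0x100010001000100010000000100000000))) (.non (nat_lit 2) (nat_lit 5) (nat_lit 0x10145) (nat_lit 0x300000000000000040003000000020001))) (.non (nat_lit 2) (nat_lit 5) (nat_lit 0x10145) (nat_lit 0x300000000000000040003000000010002)))) (.split (nat_lit 8) (nat_lit 0) (.split (nat_lit 8) (nat_lit 1) (.split (nat_lit 8) (nat_lit 2) (.split (nat_lit 8) (nat_lit 4) (.split (nat_lit 8) (nat_lit 6) (.split (nat_lit 8) (nat_lit 7) (.split (nat_lit 8) (nat_lit 5) (.unj (nat_lit 0x15) (nat_lit 0x200020001) (nat_lit 0x10540) (nat_lit 0x100000000000100020002000000000000)) (.unj (nat_lit 0x15) (nat_lit 0x200020001) (nat_lit 0x10540) (nat_lit 0x100000000000100010001000000000000))) (.non (nat_lit 1) (nat_lit 5) (nat_lit 0x15140) (nat_lit 0x300020001000000030004000000000000))) (.non (nat_lit 1) (nat_lit 5) (nat_lit 0x15140) (nat_lit 0x300010002000000030004000000000000)))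 (.non (nat_lit 1) (nat_lit 5) (nat_lit 0x10140) (nat_lit 0x100000000000000010001000000000000))) (.star (nat_lit 8) (nat_lit 2) (nat_lit 3))) (.star (nat_lit 8) (nat_lit 1) (nat_lit 3))) (.non (nat_lit 2) (nat_lit 5) (nat_lit 0x10145) (nat_lit 0x300000000000000030004000000010002))))

noncomputable def t186_13 : Tr := (.st (nat_lit 7) (nat_lit 1) (nat_lit 3) (nat_lit 0x15410) (nat_lit 0x100020002000100000000000100000000) (nat_lit 1) (nat_lit 1) (.st (nat_lit 8) (nat_lit 1) (nat_lit 3) (nat_lit 0x15510) (nat_lit 0x200020003000200010000000100000000) (nat_lit 1) (nat_lit 1) (.ex (nat_lit 3) (.split (nat_lit 7) (nat_lit 2) (.split (nat_lit 7) (nat_lit 6) (.split (nat_lit 8) (nat_lit 6) (.split (nat_lit 8) (nat_lit 1) (.pd (.cons (nat_lit 1) (nat_lit 4) (nat_lit 0) (nat_lit 0x627603200) (nat_lit 0xf423f7a11b7a11df423f00000f423f7a11900000f423f) (.cons (nat_lit 1) (nat_lit 6) (nat_lit 0) (nat_lit 0x820433200) (nat_lit 0xf423ff423f00000f423fb71ae1f156b71ae00000f423f) (.cons (nat_lit 2) (nat_lit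 4) (nat_lit 0) (nat_lit 0x168603000) (nat_lit 0x7a11bf423f7a11df423f00000f423f000007a1197a117) (.cons (nat_lit 2) (nat_lit 6) (nat_lit 0) (nat_lit 0x170433000) (nat_lit 0xf423ff423f00000f423fb71ae1f15600000b71aea2c28) .nil)))) (.leaf (.cons (nat_lit 0x10014) (nat_lit 0x100000000000000000000000200020000) (.cons (nat_lit 0x11540) (nat_lit 0x100000002000300040003000000000000) .nil)) .nil)) (.non (nat_lit 2) (nat_lit 3) (nat_lit 0x2a804) (nat_lit 0x200010002000100000000000000020000))) (.non (nat_lit 1) (nat_lit 3) (nat_lit 0x25400) (nat_lit 0x100010002000100000000000000000000))) (.non (nat_lit 1) (nat_lit 3) (nat_lit 0x19400) (nat_lit 0x100010002000100000000000000000000))) (.non (nat_lit 1) (nat_lit 3) (nat_lit 0x2a810) (nat_lit 0x100020002000100000000000200000000))) (.split (nat_lit 9) (nat_lit 0) (.split (nat_lit 9) (nat_lit 1) (.split (nat_lit 9) (nat_lit 2) (.split (nat_lit 9) (nat_lit 4) (.split (nat_lit 9) (nat_lit 5) (.split (nat_lit 9) (nat_lit 6) (.split (nat_lit 9) (nat_lit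 7) (.split (nat_lit 9) (nat_lit 8) (.unj (nat_lit 0x15) (nat_lit 0x200020001) (nat_lit 0x40540) (nat_lit 0x1000000000000000100020002000000000000)) (.non (nat_lit 1) (nat_lit 3) (nat_lit 0x55510) (nat_lit 0x1000200020003000200010000000100000000))) (.non (nat_lit 1) (nat_lit 3) (nat_lit 0x55410) (nat_lit 0x1000100020002000100000000000100000000))) (.non (nat_lit 1) (nat_lit 3) (nat_lit 0x55400) (nat_lit 0x1000100010002000100000000000000000000))) (.non (nat_lit 1) (nat_lit 3) (nat_lit 0x55500) (nat_lit 0x1000100010002000200010000000000000000))) (.non (nat_lit 1) (nat_lit 5) (nat_lit 0x40140) (nat_lit 0x1000000000000000000010001000000000000))) (.star (nat_lit 9) (nat_lit 2) (nat_lit 3))) (.star (nat_lit 9) (nat_lit 1) (nat_lit 3))) (.non (nat_lit 2) (nat_lit 5) (nat_lit 0x40145) (nat_lit 0x3000000000000000000030004000000010002))))))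

noncomputable def t186_14 : Tr := (.ex (nat_lit 1) (.ex (nat_lit 2) t186_12 (.split (nat_lit 8) (nat_lit 3) (.split (nat_lit 8) (nat_lit 4) (.split (nat_lit 8) (nat_lit 5) (.split (nat_lit 8) (nat_lit 6) (.split (nat_lit 8) (nat_lit 7) (.split (nat_lit 8) (nat_lit 0) (.split (nat_lit 8) (nat_lit 1) (.split (nat_lit 8) (nat_lit 2) (.split (nat_lit 7) (nat_lit 2) (.sup (nat_lit 0x20007000b0010000d000000000000) (nat_lit 0x100000000000000000000000300030002)) (.non (nat_lit 1) (nat_lit 3) (nat_lit 0x1a810) (nat_lit 0x200030002000100000000000400000000))) (.split (nat_lit 8) (nat_lit 2) (.split (nat_lit 7) (nat_lit 2) (.sup (nat_lit 0x700000000000000000000000a00090000) (nat_lit 0x100040007000a0008000000000000)) (.non (nat_lit 1) (nat_lit 3) (nat_lit 0x28010) (nat_lit 0x100010000000000000000000200000000))) (.non (nat_lit 1) (nat_lit 3) (nat_lit 0x15410) (nat_lit 0x300030002000100000000000400000000)))) (.sup (nat_lit 0x8000000000000000000000007000a0000) (nat_lit 0x100040007000a0008000000000000)))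 (.split (nat_lit 8) (nat_lit 1) (.split (nat_lit 8) (nat_lit 0) (.split (nat_lit 8) (nat_lit 2) (.split (nat_lit 7) (nat_lit 2) (.sup (nat_lit 0x10004000600080006000000000000) (nat_lit 0x100000000000000000000000100010001)) (.non (nat_lit 1) (nat_lit 3) (nat_lit 0x1a810) (nat_lit 0x200030002000100000000000400000000))) (.non (nat_lit 1) (nat_lit 3) (nat_lit 0x1a021) (nat_lit 0x400020001000000000000000300000002))) (.sup (nat_lit 0x30007000c0010000d000000000000) (nat_lit 0x200000000000000000000000100020002))) (.non (nat_lit 2) (nat_lit 3) (nat_lit 0x10005) (nat_lit 0x100000000000000000000000000010001)))) (.non (nat_lit 1) (nat_lit 3) (nat_lit 0x14010) (nat_lit 0x100010000000000000000000100000000))) (.non (nat_lit 1) (nat_lit 3) (nat_lit 0x15010) (nat_lit 0x100010001000000000000000100000000))) (.star (nat_lit 8) (nat_lit 2) (nat_lit 5))) (.non (nat_lit 1) (nat_lit 3) (nat_lit 0x15510) (nat_lit 0x100010001000100010000000100000000))) (.star (nat_lit 8) (nat_lit 2) (nat_lit 3)))) (.split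 (nat_lit 8) (nat_lit 0) (.split (nat_lit 8) (nat_lit 3) (.split (nat_lit 8) (nat_lit 4) (.split (nat_lit 8) (nat_lit 5) (.split (nat_lit 8) (nat_lit 2) (.split (nat_lit 8) (nat_lit 6) (.split (nat_lit 8) (nat_lit 7) (.split (nat_lit 8) (nat_lit 1) (.split (nat_lit 7) (nat_lit 2) (.sup (nat_lit 0x10003000600080006000000000000) (nat_lit 0x100000000000000000000000100020001)) (.split (nat_lit 7) (nat_lit 2) (.sup (nat_lit 0x20006000b0010000d000000000000) (nat_lit 0x200000000000000000000000200040002)) (.non (nat_lit 1) (nat_lit 3) (nat_lit 0x5510) (nat_lit 0x40003000200010000000300000000)))) (.sup (nat_lit 0x3900000000000000000000002c00500000) (nat_lit 0x6001f003700500041000000000000))) (.split (nat_lit 8) (nat_lit 1) (.split (nat_lit 8) (nat_lit 7) (.split (nat_lit 7) (nat_lit 2) (.sup (nat_lit 0x3000d00160020001a000000000000) (nat_lit 0x200000000000000000000000500070003)) (.non (nat_lit 1) (nat_lit 3) (nat_lit 0x2a010) (nat_lit 0x100020001000000000000000200000000))) (.non (nat_lit 1)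 (nat_lit 3) (nat_lit 0x25010) (nat_lit 0x100020001000000000000000100000000))) (.non (nat_lit 2) (nat_lit 3) (nat_lit 0x2a005) (nat_lit 0x300020001000000000000000000040002)))) (.split (nat_lit 8) (nat_lit 7) (.st (nat_lit 4) (nat_lit 2) (nat_lit 3) (nat_lit 0x15505) (nat_lit 0x300020004000300020000000000020001) (nat_lit 1) (nat_lit 1) (.st (nat_lit 5) (nat_lit 1) (nat_lit 3) (nat_lit 0x15500) (nat_lit 0x100010002000200010000000000000000) (nat_lit 1) (nat_lit 1) (.st (nat_lit 6) (nat_lit 1) (nat_lit 3) (nat_lit 0x15400) (nat_lit 0x100010002000100000000000000000000) (nat_lit 1) (nat_lit 1) t186_13))) (.non (nat_lit 1) (nat_lit 3) (nat_lit 0x15000) (nat_lit 0x100010001000000000000000000000000)))) (.split (nat_lit 8) (nat_lit 6) (.split (nat_lit 8) (nat_lit 7) (.sup (nat_lit 0x8000000000000000000000007000a0000) (nat_lit 0x100040007000a0008000000000000)) (.non (nat_lit 1) (nat_lit 3) (nat_lit 0x14010) (nat_lit 0x100010000000000000000000100000000))) (.non (nat_lit 1) (nat_lit 3) (nat_lit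 0x15010) (nat_lit 0x100010001000000000000000100000000)))) (.star (nat_lit 8) (nat_lit 1) (nat_lit 5))) (.non (nat_lit 2) (nat_lit 5) (nat_lit 0x10145) (nat_lit 0x300000000000000040003000000020001))) (.star (nat_lit 8) (nat_lit 1) (nat_lit 3))) (.non (nat_lit 2) (nat_lit 3) (nat_lit 0x10005) (nat_lit 0x100000000000000000000000000010001))))

noncomputable def t186_15 : Tr := (.ex (nat_lit 6) (.pd (.cons (nat_lit 0) (nat_lit 7) (nat_lit 0x110) (nat_lit 0x5433120) (nat_lit 0xf423fb71aea2c2804737000010000100000) .nil) (.ex (nat_lit 7) (.split (nat_lit 7) (nat_lit 2) (.split (nat_lit 7) (nat_lit 6) (.pd (.cons (nat_lit 1) (nat_lit 4) (nat_lit 0) (nat_lit 0x27603200) (nat_lit 0xa2c28b71aef423f00000f423f9896500000f423f) (.cons (nat_lit 2) (nat_lit 4) (nat_lit 0) (nat_lit 0x65503000) (nat_lit 0xf423fb71aea2c2800000f423f00000f423fb71ae) .nil)) (.split (nat_lit 4) (nat_lit 0) (.leaf (.cons (nat_lit 0x4014) (nat_lit 0x10000000000000000000200020000) (.cons (nat_lit 0x541) (nat_lit 0x100020002000000000001)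 .nil)) (.cons (nat_lit 0x11110101) (nat_lit 0x1010) (nat_lit 4) (nat_lit 0x43210500) .nil)) (.non (nat_lit 1) (nat_lit 5) (nat_lit 0x141) (nat_lit 0x10001000000000001)))) (.non (nat_lit 1) (nat_lit 3) (nat_lit 0x6a10) (nat_lit 0x40003000200010000000200000000))) (.sup (nat_lit 0x40000000000000000000500030000) (nat_lit 0x300050004000000000001))) (.split (nat_lit 8) (nat_lit 0) (.split (nat_lit 8) (nat_lit 1) (.split (nat_lit 8) (nat_lit 2) (.split (nat_lit 8) (nat_lit 3) (.split (nat_lit 8) (nat_lit 4) (.split (nat_lit 8) (nat_lit 5) (.split (nat_lit 8) (nat_lit 6) (.sup (nat_lit 0x400080006000000000002) (nat_lit 0x200040000000000000000000600050000)) (.non (nat_lit 1) (nat_lit 3) (nat_lit 0x15000) (nat_lit 0x100010001000000000000000000000000))) (.non (nat_lit 1) (nat_lit 3) (nat_lit 0x15400) (nat_lit 0x100010001000100000000000000000000))) (.non (nat_lit 1) (nat_lit 3) (nat_lit 0x15500) (nat_lit 0x100010001000100010000000000000000))) (.non (nat_lit 1) (nat_lit 5) (nat_lit 0x15140) (nat_lit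 0x300020001000000030004000000000000))) (.non (nat_lit 1) (nat_lit 3) (nat_lit 0x14010) (nat_lit 0x100010000000000000000000100000000))) (.non (nat_lit 2) (nat_lit 3) (nat_lit 0x15505) (nat_lit 0x100010001000100010000000000010001))) (.non (nat_lit 1) (nat_lit 3) (nat_lit 0x15501) (nat_lit 0x100010001000100010000000000000001))))) (.split (nat_lit 8) (nat_lit 0) (.split (nat_lit 8) (nat_lit 1) (.split (nat_lit 8) (nat_lit 2) (.split (nat_lit 8) (nat_lit 3) (.split (nat_lit 8) (nat_lit 4) (.split (nat_lit 8) (nat_lit 5) (.split (nat_lit 8) (nat_lit 7) (.st (nat_lit 6) (nat_lit 1) (nat_lit 3) (nat_lit 0x15400) (nat_lit 0x100010002000100000000000000000000) (nat_lit 1) (nat_lit 1) (.st (nat_lit 7) (nat_lit 1) (nat_lit 3) (nat_lit 0x15410) (nat_lit 0x100020002000100000000000100000000) (nat_lit 1) (nat_lit 1) (.st (nat_lit 8) (nat_lit 1) (nat_lit 3) (nat_lit 0x15510) (nat_lit 0x200020003000200010000000100000000) (nat_lit 1) (nat_lit 1) (.split (nat_lit 7) (nat_lit 2) (.split (nat_lit 7) (nat_lit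 6) (.split (nat_lit 8) (nat_lit 6) (.pd (.cons (nat_lit 1) (nat_lit 4) (nat_lit 0) (nat_lit 0x627603200) (nat_lit 0xf423f7a11b7a11df423f00000f423f7a11900000f423f) (.cons (nat_lit 2) (nat_lit 4) (nat_lit 0) (nat_lit 0x665503000) (nat_lit 0xf423ff423f7a11d7a11b00000f423f00000f423fb71ae) .nil)) (.split (nat_lit 4) (nat_lit 0) (.leaf (.cons (nat_lit 0x4014) (nat_lit 0x10000000000000000000200020000) (.cons (nat_lit 0x11540) (nat_lit 0x100000002000300040003000000000000) (.cons (nat_lit 0x541) (nat_lit 0x100020002000000000001) .nil))) (.cons (nat_lit 0x111110011) (nat_lit 0x1100) (nat_lit 0xa) (nat_lit 0x210340065) .nil)) (.non (nat_lit 1) (nat_lit 3) (nat_lit 0x2aa01) (nat_lit 0x100010002000200020000000000000002)))) (.non (nat_lit 1) (nat_lit 3) (nat_lit 0x25400) (nat_lit 0x100010002000100000000000000000000))) (.non (nat_lit 1) (nat_lit 3) (nat_lit 0x19400) (nat_lit 0x100010002000100000000000000000000))) (.non (nat_lit 1) (nat_lit 3) (nat_lit 0x2a810) (nat_lit 0x100020002000100000000000200000000))))))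 (.non (nat_lit 1) (nat_lit 3) (nat_lit 0x15000) (nat_lit 0x100010001000000000000000000000000))) (.non (nat_lit 1) (nat_lit 3) (nat_lit 0x11400) (nat_lit 0x100000001000100000000000000000000))) (.non (nat_lit 1) (nat_lit 3) (nat_lit 0x11500) (nat_lit 0x100000001000100010000000000000000))) (.non (nat_lit 1) (nat_lit 5) (nat_lit 0x15140) (nat_lit 0x300010002000000030004000000000000))) (.non (nat_lit 1) (nat_lit 3) (nat_lit 0x15010) (nat_lit 0x100010001000000000000000100000000))) (.non (nat_lit 2) (nat_lit 3) (nat_lit 0x11505) (nat_lit 0x100000001000100010000000000010001))) (.non (nat_lit 1) (nat_lit 3) (nat_lit 0x11501) (nat_lit 0x100000001000100010000000000000001))))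

noncomputable def t186_16 : Tr := (.ex (nat_lit 3) (.split (nat_lit 6) (nat_lit 0) (.split (nat_lit 7) (nat_lit 2) (.split (nat_lit 7) (nat_lit 6) (.pd (.cons (nat_lit 1) (nat_lit 4) (nat_lit 0) (nat_lit 0x60603700) (nat_lit 0xb71ae65b97f423f00000f423ff423f0000061a79) (.cons (nat_lit 2) (nat_lit 4) (nat_lit 0) (nat_lit 0x60603000) (nat_lit 0xf423f7a11df423f00000f423f00000f423f3d08a) .nil)) (.ex (nat_lit 4) (.pd (.cons (nat_lit 0) (nat_lit 7) (nat_lit 0x110) (nat_lit 0x5433120) (nat_lit 0xf423fb71aea2c2804737000010000100000) (.cons (nat_lit 1) (nat_lit 6) (nat_lit 0) (nat_lit 0x20433200) (nat_lit 0xf423f00000f423fb71ae1f156b71ae00000f423f) (.cons (nat_lit 2) (nat_lit 6) (nat_lit 0) (nat_lit 0x70433000) (nat_lit 0xf423f00000f423fb71ae1f15600000f423fb71ae) .nil))) (.leaf (.cons (nat_lit 0x4014) (nat_lit 0x10000000000000000000200020000) (.cons (nat_lit 0x1541) (nat_lit 0x2000300040003000000000001) .nil)) .nil)) (.split (nat_lit 8) (nat_lit 0) (.split (nat_lit 8) (nat_lit 1) (.split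 (nat_lit 8) (nat_lit 2) (.split (nat_lit 8) (nat_lit 3) (.split (nat_lit 8) (nat_lit 5) (.split (nat_lit 8) (nat_lit 6) (.split (nat_lit 8) (nat_lit 7) (.unj (nat_lit 0x15) (nat_lit 0x200020001) (nat_lit 0x10540) (nat_lit 0x100000000000100020002000000000000)) (.non (nat_lit 1) (nat_lit 3) (nat_lit 0x15500) (nat_lit 0x100010001000100010000000000000000))) (.non (nat_lit 1) (nat_lit 3) (nat_lit 0x11500) (nat_lit 0x100000001000100010000000000000000))) (.non (nat_lit 1) (nat_lit 3) (nat_lit 0x10500) (nat_lit 0x100000000000100010000000000000000))) (.non (nat_lit 1) (nat_lit 5) (nat_lit 0x10140) (nat_lit 0x100000000000000010001000000000000))) (.non (nat_lit 1) (nat_lit 3) (nat_lit 0x15510) (nat_lit 0x100010001000100010000000100000000))) (.non (nat_lit 2) (nat_lit 3) (nat_lit 0x11505) (nat_lit 0x100000001000100010000000000010001))) (.non (nat_lit 1) (nat_lit 3) (nat_lit 0x11501) (nat_lit 0x100000001000100010000000000000001))))) (.non (nat_lit 1) (nat_lit 3) (nat_lit 0x6a10) (nat_lit 0x40003000200010000000200000000)))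 (.non (nat_lit 1) (nat_lit 3) (nat_lit 0x5421) (nat_lit 0x20002000100000000000100000001))) (.non (nat_lit 1) (nat_lit 3) (nat_lit 0xa801) (nat_lit 0x10002000100000000000000000002))) (.split (nat_lit 8) (nat_lit 0) (.split (nat_lit 8) (nat_lit 1) (.split (nat_lit 8) (nat_lit 2) (.split (nat_lit 8) (nat_lit 4) (.split (nat_lit 8) (nat_lit 5) (.split (nat_lit 8) (nat_lit 6) (.split (nat_lit 8) (nat_lit 7) (.unj (nat_lit 0x15) (nat_lit 0x200020001) (nat_lit 0x10540) (nat_lit 0x100000000000100020002000000000000)) (.non (nat_lit 1) (nat_lit 3) (nat_lit 0x15411) (nat_lit 0x100020002000100000000000100000001))) (.non (nat_lit 1) (nat_lit 3) (nat_lit 0x15401) (nat_lit 0x100010002000100000000000000000001))) (.non (nat_lit 1) (nat_lit 3) (nat_lit 0x15501) (nat_lit 0x100010002000200010000000000000001))) (.non (nat_lit 1) (nat_lit 5) (nat_lit 0x10140) (nat_lit 0x100000000000000010001000000000000))) (.star (nat_lit 8) (nat_lit 2) (nat_lit 3))) (.star (nat_lit 8) (nat_lit 1) (nat_lit 3))) (.non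 (nat_lit 1) (nat_lit 3) (nat_lit 0x15511) (nat_lit 0x100020003000200010000000100000002))))

noncomputable def t186_17 : Tr := (.split (nat_lit 8) (nat_lit 7) (.split (nat_lit 8) (nat_lit 1) (.st (nat_lit 4) (nat_lit 1) (nat_lit 3) (nat_lit 0x15511) (nat_lit 0x100030004000300020000000200000002) (nat_lit 1) (nat_lit 1) (.ex (nat_lit 3) (.split (nat_lit 6) (nat_lit 0) (.split (nat_lit 7) (nat_lit 2) (.split (nat_lit 8) (nat_lit 2) (.split (nat_lit 7) (nat_lit 6) (.pd (.cons (nat_lit 1) (nat_lit 4) (nat_lit 0) (nat_lit 0x260603700) (nat_lit 0xf423fa2c285b8d4f423f00000f423fb71ae000005160d) (.cons (nat_lit 1) (nat_lit 6) (nat_lit 0) (nat_lit 0x220433200) (nat_lit 0xf423ff423f00000f423fb71ae1f1567a11d00000f423f) (.cons (nat_lit 2) (nat_lit 4) (nat_lit 0) (nat_lit 0x860603000) (nat_lit 0xf423ff423f7a11df423f00000f423f00000f423f3d08a) (.cons (nat_lit 2) (nat_lit 6) (nat_lit 0) (nat_lit 0x870433000) (nat_lit 0xf423ff423f00000f423fb71ae1f15600000f423fb71ae) .nil)))) (.leaf (.cons (nat_lit 0x10014)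 (nat_lit 0x100000000000000000000000200020000) (.cons (nat_lit 0x1541) (nat_lit 0x2000300040003000000000001) .nil)) .nil)) (.non (nat_lit 1) (nat_lit 3) (nat_lit 0x16810) (nat_lit 0x100030002000100000000000200000000))) (.non (nat_lit 1) (nat_lit 3) (nat_lit 0x25411) (nat_lit 0x100020002000100000000000200000001))) (.non (nat_lit 1) (nat_lit 3) (nat_lit 0x1a810) (nat_lit 0x200030002000100000000000400000000))) (.non (nat_lit 1) (nat_lit 3) (nat_lit 0xa801) (nat_lit 0x10002000100000000000000000002))) (.split (nat_lit 9) (nat_lit 0) (.split (nat_lit 9) (nat_lit 1) (.split (nat_lit 9) (nat_lit 2) (.split (nat_lit 9) (nat_lit 4) (.split (nat_lit 9) (nat_lit 5) (.split (nat_lit 9) (nat_lit 6) (.split (nat_lit 9) (nat_lit 7) (.split (nat_lit 9) (nat_lit 8) (.unj (nat_lit 0x15) (nat_lit 0x200020001) (nat_lit 0x40540) (nat_lit 0x1000000000000000100020002000000000000)) (.non (nat_lit 1) (nat_lit 5) (nat_lit 0x50150) (nat_lit 0x3000200000000000000030004000100000000))) (.non (nat_lit 1) (nat_lit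 3) (nat_lit 0x45411) (nat_lit 0x1000000020002000100000000000100000001))) (.non (nat_lit 1) (nat_lit 3) (nat_lit 0x45401) (nat_lit 0x1000000010002000100000000000000000001))) (.non (nat_lit 1) (nat_lit 3) (nat_lit 0x45501) (nat_lit 0x1000000010002000200010000000000000001))) (.non (nat_lit 1) (nat_lit 3) (nat_lit 0x55511) (nat_lit 0x1000100030004000300020000000200000002))) (.star (nat_lit 9) (nat_lit 2) (nat_lit 3))) (.star (nat_lit 9) (nat_lit 1) (nat_lit 3))) (.non (nat_lit 1) (nat_lit 3) (nat_lit 0x45511) (nat_lit 0x1000000020003000200010000000100000002))))) (.sup (nat_lit 0x400000000000000000000000500030000) (nat_lit 0x2000300050004000000000001))) (.non (nat_lit 1) (nat_lit 3) (nat_lit 0x14010) (nat_lit 0x100010000000000000000000100000000)))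

noncomputable def t186_18 : Tr := (.split (nat_lit 8) (nat_lit 7) (.split (nat_lit 8) (nat_lit 2) (.st (nat_lit 4) (nat_lit 2) (nat_lit 3) (nat_lit 0x15505) (nat_lit 0x100020004000300020000000000020003) (nat_lit 1) (nat_lit 1) (.ex (nat_lit 3) (.split (nat_lit 6) (nat_lit 0) (.split (nat_lit 7) (nat_lit 2) (.split (nat_lit 7) (nat_lit 6) (.split (nat_lit 8) (nat_lit 1) (.pd (.cons (nat_lit 1) (nat_lit 4) (nat_lit 0) (nat_lit 0x860603700) (nat_lit 0xf423fb71ae65b97f423f00000f423ff423f0000061a79) (.cons (nat_lit 1) (nat_lit 6) (nat_lit 0) (nat_lit 0x820433200) (nat_lit 0xf423ff423f00000f423fb71ae1f156b71ae00000f423f) (.cons (nat_lit 2) (nat_lit 4) (nat_lit 0) (nat_lit 0x160603000) (nat_lit 0xf423ff423f7a11df423f00000f423f00000b71ae28b04) (.cons (nat_lit 2) (nat_lit 6) (nat_lit 0) (nat_lit 0x170433000) (nat_lit 0xf423ff423f00000f423fb71ae1f15600000b71aea2c28) .nil)))) (.leaf (.cons (nat_lit 0x10014) (nat_lit 0x100000000000000000000000200020000) (.cons (nat_lit 0x1541) (nat_lit 0x2000300040003000000000001)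 .nil)) .nil)) (.non (nat_lit 2) (nat_lit 3) (nat_lit 0x25405) (nat_lit 0x100010002000100000000000000020002))) (.non (nat_lit 1) (nat_lit 3) (nat_lit 0x6a10) (nat_lit 0x40003000200010000000200000000))) (.non (nat_lit 1) (nat_lit 3) (nat_lit 0x5421) (nat_lit 0x20002000100000000000100000001))) (.non (nat_lit 1) (nat_lit 3) (nat_lit 0xa801) (nat_lit 0x10002000100000000000000000002))) (.split (nat_lit 9) (nat_lit 0) (.split (nat_lit 9) (nat_lit 1) (.split (nat_lit 9) (nat_lit 2) (.split (nat_lit 9) (nat_lit 4) (.split (nat_lit 9) (nat_lit 5) (.split (nat_lit 9) (nat_lit 6) (.split (nat_lit 9) (nat_lit 7) (.split (nat_lit 9) (nat_lit 8) (.unj (nat_lit 0x15) (nat_lit 0x200020001) (nat_lit 0x40540) (nat_lit 0x1000000000000000100020002000000000000)) (.non (nat_lit 2) (nat_lit 5) (nat_lit 0x50144) (nat_lit 0x3000200000000000000030004000000010000))) (.non (nat_lit 1) (nat_lit 3) (nat_lit 0x45411) (nat_lit 0x1000000020002000100000000000100000001))) (.non (nat_lit 1) (nat_lit 3) (nat_lit 0x45401)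 (nat_lit 0x1000000010002000100000000000000000001))) (.non (nat_lit 1) (nat_lit 3) (nat_lit 0x45501) (nat_lit 0x1000000010002000200010000000000000001))) (.non (nat_lit 1) (nat_lit 5) (nat_lit 0x40140) (nat_lit 0x1000000000000000000010001000000000000))) (.star (nat_lit 9) (nat_lit 2) (nat_lit 3))) (.star (nat_lit 9) (nat_lit 1) (nat_lit 3))) (.non (nat_lit 1) (nat_lit 3) (nat_lit 0x45511) (nat_lit 0x1000000020003000200010000000100000002))))) (.sup (nat_lit 0x400000000000000000000000500030000) (nat_lit 0x2000300050004000000000001))) (.non (nat_lit 1) (nat_lit 3) (nat_lit 0x15411) (nat_lit 0x100020002000100000000000100000001)))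

noncomputable def t186_19 : Tr := (.split (nat_lit 6) (nat_lit 0) (.split (nat_lit 4) (nat_lit 0) t186_14 (.st (nat_lit 1) (nat_lit 2) (nat_lit 5) (nat_lit 0x145) (nat_lit 0x40003000000020003) (nat_lit 1) (nat_lit 1) (.st (nat_lit 3) (nat_lit 1) (nat_lit 5) (nat_lit 0x141) (nat_lit 0x20002000000000001) (nat_lit 1) (nat_lit 1) (.st (nat_lit 4) (nat_lit 1) (nat_lit 5) (nat_lit 0x141) (nat_lit 0x20002000000000001) (nat_lit 1) (nat_lit 1) (.st (nat_lit 0) (nat_lit 2) (nat_lit 5) (nat_lit 0x145) (nat_lit 0x20002000000010002) (nat_lit 1) (nat_lit 1) (.ex (nat_lit 2) (.ex (nat_lit 5) t186_15 (.split (nat_lit 8) (nat_lit 0) (.split (nat_lit 8) (nat_lit 1) (.split (nat_lit 8) (nat_lit 2) (.split (nat_lit 8) (nat_lit 3) (.split (nat_lit 8) (nat_lit 4) (.split (nat_lit 8) (nat_lit 6) (.split (nat_lit 8) (nat_lit 7) (.sup (nat_lit 0x40000000000000000000a00090000) (nat_lit 0x3000000010007000a0008000000000000)) (.non (nat_lit 1) (nat_lit 3) (nat_lit 0x15400) (nat_lit 0x100010001000100000000000000000000)))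 (.non (nat_lit 1) (nat_lit 3) (nat_lit 0x11400) (nat_lit 0x100000001000100000000000000000000))) (.non (nat_lit 1) (nat_lit 3) (nat_lit 0x10500) (nat_lit 0x100000000000100010000000000000000))) (.non (nat_lit 1) (nat_lit 5) (nat_lit 0x10141) (nat_lit 0x100000000000000020002000000000001))) (.star (nat_lit 8) (nat_lit 2) (nat_lit 5))) (.star (nat_lit 8) (nat_lit 1) (nat_lit 5))) (.non (nat_lit 1) (nat_lit 3) (nat_lit 0x10501) (nat_lit 0x100000000000100010000000000000001)))) (.split (nat_lit 8) (nat_lit 0) (.split (nat_lit 8) (nat_lit 1) (.split (nat_lit 8) (nat_lit 3) (.split (nat_lit 8) (nat_lit 4) (.split (nat_lit 8) (nat_lit 5) (.split (nat_lit 8) (nat_lit 6) (.split (nat_lit 8) (nat_lit 7) (.sup (nat_lit 0x1000400080006000000000002) (nat_lit 0x300020000000000000000000500040000)) (.non (nat_lit 1) (nat_lit 3) (nat_lit 0x14010) (nat_lit 0x100010000000000000000000100000000))) (.non (nat_lit 1) (nat_lit 3) (nat_lit 0x15010) (nat_lit 0x100010001000000000000000100000000))) (.star (nat_lit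 8) (nat_lit 2) (nat_lit 5))) (.non (nat_lit 1) (nat_lit 3) (nat_lit 0x15510) (nat_lit 0x100010001000100010000000100000000))) (.star (nat_lit 8) (nat_lit 2) (nat_lit 3))) (.non (nat_lit 2) (nat_lit 5) (nat_lit 0x10145) (nat_lit 0x100000000000000040003000000020003))) (.non (nat_lit 1) (nat_lit 3) (nat_lit 0x15511) (nat_lit 0x100010001000100010000000100000001))))))))) (.split (nat_lit 4) (nat_lit 0) (.st (nat_lit 0) (nat_lit 1) (nat_lit 3) (nat_lit 0x5511) (nat_lit 0x20003000200010000000100000002) (nat_lit 1) (nat_lit 1) (.st (nat_lit 5) (nat_lit 1) (nat_lit 3) (nat_lit 0x5501) (nat_lit 0x10002000200010000000000000001) (nat_lit 1) (nat_lit 1) (.st (nat_lit 6) (nat_lit 1) (nat_lit 3) (nat_lit 0x5401) (nat_lit 0x10002000100000000000000000001) (nat_lit 1) (nat_lit 1) (.st (nat_lit 7) (nat_lit 1) (nat_lit 3) (nat_lit 0x5411) (nat_lit 0x20002000100000000000100000001) (nat_lit 1) (nat_lit 1) (.ex (nat_lit 1) (.ex (nat_lit 2) t186_16 (.split (nat_lit 8) (nat_lit 0) (.split (nat_lit 8) (nat_lit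 3) (.split (nat_lit 8) (nat_lit 4) (.split (nat_lit 8) (nat_lit 5) (.split (nat_lit 8) (nat_lit 6) t186_17 (.non (nat_lit 1) (nat_lit 3) (nat_lit 0x15010) (nat_lit 0x100010001000000000000000100000000))) (.star (nat_lit 8) (nat_lit 2) (nat_lit 5))) (.non (nat_lit 1) (nat_lit 3) (nat_lit 0x15510) (nat_lit 0x100010001000100010000000100000000))) (.star (nat_lit 8) (nat_lit 2) (nat_lit 3))) (.non (nat_lit 1) (nat_lit 3) (nat_lit 0x15011) (nat_lit 0x100010001000000000000000100000001)))) (.split (nat_lit 8) (nat_lit 0) (.split (nat_lit 8) (nat_lit 3) (.split (nat_lit 8) (nat_lit 4) (.split (nat_lit 8) (nat_lit 5) (.split (nat_lit 8) (nat_lit 6) t186_18 (.non (nat_lit 1) (nat_lit 3) (nat_lit 0x15401) (nat_lit 0x100010002000100000000000000000001))) (.star (nat_lit 8) (nat_lit 1) (nat_lit 5))) (.non (nat_lit 2) (nat_lit 3) (nat_lit 0x11505) (nat_lit 0x100000001000100010000000000010001))) (.star (nat_lit 8) (nat_lit 1) (nat_lit 3))) (.non (nat_lit 1) (nat_lit 3) (nat_lit 0x15511) (nat_lit 0x100020003000200010000000100000002))))))))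 (.non (nat_lit 1) (nat_lit 3) (nat_lit 0x1501) (nat_lit 0x1000100010000000000000001))))

noncomputable def t186_20 : Tr := (.ex (nat_lit 0) (.ex (nat_lit 8) (.leaf (.cons (nat_lit 0x4014) (nat_lit 0x10000000000000000000200020000) .nil) (.cons (nat_lit 0x111110011) (nat_lit 0x1100) (nat_lit 5) (nat_lit 0x632100045) (.cons (nat_lit 0x111100011) (nat_lit 0x10100) (nat_lit 4) (nat_lit 0x521000034) (.cons (nat_lit 0x111000011) (nat_lit 0x100100) (nat_lit 3) (nat_lit 0x410000023) .nil)))) (.split (nat_lit 9) (nat_lit 0) (.split (nat_lit 9) (nat_lit 1) (.split (nat_lit 9) (nat_lit 2) (.split (nat_lit 9) (nat_lit 3) (.split (nat_lit 9) (nat_lit 4) (.split (nat_lit 9) (nat_lit 5) (.split (nat_lit 9) (nat_lit 6) (.split (nat_lit 9) (nat_lit 7) (.sup (nat_lit 0x10006000b0010000d000000000000) (nat_lit 0x1000200000000000000000000000300040003)) (.non (nat_lit 2) (nat_lit 3) (nat_lit 0x54005) (nat_lit 0x1000100010000000000000000000000010001))) (.non (nat_lit 2) (nat_lit 3) (nat_lit 0x55504) (nat_lit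 0x2000100020003000200010000000000010000))) (.non (nat_lit 2) (nat_lit 3) (nat_lit 0x55405) (nat_lit 0x1000100010001000100000000000000010001))) (.non (nat_lit 1) (nat_lit 5) (nat_lit 0x50141) (nat_lit 0x3000200000000000000040003000000000001))) (.non (nat_lit 1) (nat_lit 5) (nat_lit 0x50141) (nat_lit 0x3000200000000000000030004000000000001))) (.non (nat_lit 0) (nat_lit 7) (nat_lit 0x40014) (nat_lit 0x1000000000000000000000000000200020000))) (.non (nat_lit 2) (nat_lit 3) (nat_lit 0x50005) (nat_lit 0x1000100000000000000000000000000010001))) (.non (nat_lit 1) (nat_lit 3) (nat_lit 0x50001) (nat_lit 0x1000100000000000000000000000000000001)))) (.split (nat_lit 9) (nat_lit 1) (.split (nat_lit 9) (nat_lit 2) (.split (nat_lit 9) (nat_lit 3) (.split (nat_lit 9) (nat_lit 4) (.split (nat_lit 9) (nat_lit 5) (.split (nat_lit 9) (nat_lit 6) (.split (nat_lit 9) (nat_lit 7) (.split (nat_lit 9) (nat_lit 8) (.sup (nat_lit 0x20006000b0010000d000000000000) (nat_lit 0x1000100000000000000000000000300030003))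 (.non (nat_lit 1) (nat_lit 3) (nat_lit 0x50001) (nat_lit 0x1000100000000000000000000000000000001))) (.non (nat_lit 2) (nat_lit 3) (nat_lit 0x44005) (nat_lit 0x1000000010000000000000000000000010001))) (.non (nat_lit 2) (nat_lit 3) (nat_lit 0x45005) (nat_lit 0x1000000010001000000000000000000010001))) (.non (nat_lit 2) (nat_lit 3) (nat_lit 0x45405) (nat_lit 0x1000000010001000100000000000000010001))) (.non (nat_lit 1) (nat_lit 5) (nat_lit 0x50141) (nat_lit 0x3000100000000000000040003000000000002))) (.non (nat_lit 1) (nat_lit 5) (nat_lit 0x50141) (nat_lit 0x3000100000000000000030004000000000002))) (.non (nat_lit 0) (nat_lit 7) (nat_lit 0x40014) (nat_lit 0x1000000000000000000000000000200020000))) (.non (nat_lit 2) (nat_lit 3) (nat_lit 0x40005) (nat_lit 0x1000000000000000000000000000000010001))))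

noncomputable def t186_21 : Tr := (.ex (nat_lit 7) (.split (nat_lit 7) (nat_lit 6) (.pd (.cons (nat_lit 1) (nat_lit 4) (nat_lit 0) (nat_lit 0x65503200) (nat_lit 0xf423fb71aea2c2800000f423ff423f00000f423f) (.cons (nat_lit 2) (nat_lit 4) (nat_lit 0) (nat_lit 0x17603000) (nat_lit 0xa2c28b71aef423f00000f423f0000098965927bd) .nil)) (.ex (nat_lit 0) (.leaf (.cons (nat_lit 0x4014) (nat_lit 0x10000000000000000000200020000) .nil) (.cons (nat_lit 0x11100011) (nat_lit 0x10100) (nat_lit 3) (nat_lit 0x23400010) (.cons (nat_lit 0x11000011) (nat_lit 0x100100) (nat_lit 2) (nat_lit 0x23000010) .nil))) (.split (nat_lit 8) (nat_lit 1) (.split (nat_lit 8) (nat_lit 2) (.split (nat_lit 8) (nat_lit 3) (.split (nat_lit 8) (nat_lit 4) (.split (nat_lit 8) (nat_lit 5) (.split (nat_lit 8) (nat_lit 6) (.split (nat_lit 8) (nat_lit 7) (.split (nat_lit 8) (nat_lit 0) t186_20 (.sup (nat_lit 0x20006000b0010000d000000000000) (nat_lit 0x200000000000000000000000300030003))) (.non (nat_lit 2) (nat_lit 3) (nat_lit 0x14005)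 (nat_lit 0x100010000000000000000000000010001))) (.non (nat_lit 2) (nat_lit 3) (nat_lit 0x15005) (nat_lit 0x100010001000000000000000000010001))) (.non (nat_lit 2) (nat_lit 3) (nat_lit 0x15405) (nat_lit 0x100010001000100000000000000010001))) (.non (nat_lit 2) (nat_lit 3) (nat_lit 0x15505) (nat_lit 0x100010001000100010000000000010001))) (.non (nat_lit 2) (nat_lit 5) (nat_lit 0x10145) (nat_lit 0x300000000000000030004000000010002))) (.non (nat_lit 0) (nat_lit 7) (nat_lit 0x10014) (nat_lit 0x100000000000000000000000200020000))) (.non (nat_lit 2) (nat_lit 3) (nat_lit 0x10005) (nat_lit 0x100000000000000000000000000010001))))) (.non (nat_lit 2) (nat_lit 3) (nat_lit 0x6a04) (nat_lit 0x40003000200010000000000020000))) (.split (nat_lit 8) (nat_lit 0) (.split (nat_lit 8) (nat_lit 1) (.split (nat_lit 8) (nat_lit 2) (.split (nat_lit 8) (nat_lit 3) (.split (nat_lit 8) (nat_lit 4) (.split (nat_lit 8) (nat_lit 5) (.split (nat_lit 8) (nat_lit 6) (.st (nat_lit 7) (nat_lit 2) (nat_lit 3) (nat_lit 0x15004)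 (nat_lit 0x100020001000000000000000000010000) (nat_lit 1) (nat_lit 1) (.split (nat_lit 7) (nat_lit 6) (.split (nat_lit 8) (nat_lit 7) (.pd (.cons (nat_lit 1) (nat_lit 4) (nat_lit 0) (nat_lit 0x765503200) (nat_lit 0xf423fb71aea2c289896500000f423ff423f00000f423f) (.cons (nat_lit 2) (nat_lit 4) (nat_lit 0) (nat_lit 0x717603000) (nat_lit 0xf423f65b97b71aef423f00000f423f0000061a795b8cc) .nil)) (.st (nat_lit 0) (nat_lit 2) (nat_lit 3) (nat_lit 0x15505) (nat_lit 0x200040003000200010000000000030002) (nat_lit 1) (nat_lit 1) (.st (nat_lit 8) (nat_lit 2) (nat_lit 3) (nat_lit 0x15405) (nat_lit 0x200030002000100000000000000020001) (nat_lit 1) (nat_lit 1) (.leaf (.cons (nat_lit 0x4014) (nat_lit 0x10000000000000000000200020000) .nil) (.cons (nat_lit 0x111000011) (nat_lit 0x100100) (nat_lit 8) (nat_lit 0x201000034) (.cons (nat_lit 0x110000011) (nat_lit 0x1000100) (nat_lit 2) (nat_lit 0x320000010) .nil)))))) (.non (nat_lit 2) (nat_lit 3) (nat_lit 0x25004) (nat_lit 0x100020001000000000000000000010000)))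 (.non (nat_lit 1) (nat_lit 3) (nat_lit 0x29500) (nat_lit 0x100020003000200010000000000000000)))) (.non (nat_lit 1) (nat_lit 3) (nat_lit 0x15000) (nat_lit 0x100010001000000000000000000000000))) (.non (nat_lit 1) (nat_lit 3) (nat_lit 0x15400) (nat_lit 0x100010001000100000000000000000000))) (.non (nat_lit 1) (nat_lit 3) (nat_lit 0x15500) (nat_lit 0x100010001000100010000000000000000))) (.non (nat_lit 1) (nat_lit 5) (nat_lit 0x15140) (nat_lit 0x300020001000000030004000000000000))) (.non (nat_lit 0) (nat_lit 7) (nat_lit 0x10014) (nat_lit 0x100000000000000000000000200020000))) (.non (nat_lit 2) (nat_lit 3) (nat_lit 0x14004) (nat_lit 0x100010000000000000000000000010000))) (.non (nat_lit 2) (nat_lit 3) (nat_lit 0x14005) (nat_lit 0x100010000000000000000000000010001))))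

noncomputable def t186_22 : Tr := (.pd (.cons (nat_lit 1) (nat_lit 6) (nat_lit 0) (nat_lit 0x70433200) (nat_lit 0xf423f00000f423fb71ae1f156f423f00000f423f) (.cons (nat_lit 2) (nat_lit 6) (nat_lit 0) (nat_lit 0x10433000) (nat_lit 0xf423f00000f423fb71ae1f15600000b71aea2c28) .nil)) (.ex (nat_lit 6) (.pd (.cons (nat_lit 0) (nat_lit 7) (nat_lit 0x110) (nat_lit 0x5433120) (nat_lit 0xf423fb71aea2c2804737000010000100000) (.cons (nat_lit 1) (nat_lit 7) (nat_lit 0) (nat_lit 0x5433200) (nat_lit 0xf423fb71aea2c2804737f423f00000f423f) (.cons (nat_lit 2) (nat_lit 7) (nat_lit 0) (nat_lit 0x5433000) (nat_lit 0xf423fb71aea2c280473700000f423fb71ae) .nil))) t186_21) (.split (nat_lit 8) (nat_lit 0) (.split (nat_lit 8) (nat_lit 1) (.split (nat_lit 8) (nat_lit 3) (.split (nat_lit 8) (nat_lit 4) (.split (nat_lit 8) (nat_lit 5) (.split (nat_lit 8) (nat_lit 7) (.split (nat_lit 8) (nat_lit 2) (.unj (nat_lit 0x15) (nat_lit 0x200020001) (nat_lit 0x11540) (nat_lit 0x100000002000300040003000000000000)) (.st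 (nat_lit 6) (nat_lit 1) (nat_lit 3) (nat_lit 0x15400) (nat_lit 0x100010002000100000000000000000000) (nat_lit 1) (nat_lit 1) (.st (nat_lit 7) (nat_lit 1) (nat_lit 3) (nat_lit 0x15510) (nat_lit 0x200020003000200010000000100000000) (nat_lit 1) (nat_lit 1) (.st (nat_lit 8) (nat_lit 1) (nat_lit 3) (nat_lit 0x15410) (nat_lit 0x200010002000100000000000100000000) (nat_lit 1) (nat_lit 1) (.split (nat_lit 8) (nat_lit 2) (.split (nat_lit 7) (nat_lit 6) (.split (nat_lit 8) (nat_lit 6) (.pd (.cons (nat_lit 1) (nat_lit 4) (nat_lit 0) (nat_lit 0x268603200) (nat_lit 0x7a11bf423f7a11df423f00000f423f7a11900000f423f) (.cons (nat_lit 2) (nat_lit 4) (nat_lit 0) (nat_lit 0x617603000) (nat_lit 0xf423f7a11b7a11df423f00000f423f000007a1197a117) .nil)) (.leaf (.cons (nat_lit 0x10014) (nat_lit 0x100000000000000000000000200020000) (.cons (nat_lit 0x11540) (nat_lit 0x100000002000300040003000000000000) .nil)) .nil)) (.non (nat_lit 1) (nat_lit 3) (nat_lit 0x25400) (nat_lit 0x100010002000100000000000000000000)))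 (.non (nat_lit 1) (nat_lit 3) (nat_lit 0x19400) (nat_lit 0x100010002000100000000000000000000))) (.non (nat_lit 1) (nat_lit 3) (nat_lit 0x2a810) (nat_lit 0x200010002000100000000000200000000))))))) (.non (nat_lit 1) (nat_lit 3) (nat_lit 0x15000) (nat_lit 0x100010001000000000000000000000000))) (.non (nat_lit 1) (nat_lit 3) (nat_lit 0x11400) (nat_lit 0x100000001000100000000000000000000))) (.non (nat_lit 1) (nat_lit 3) (nat_lit 0x11500) (nat_lit 0x100000001000100010000000000000000))) (.non (nat_lit 1) (nat_lit 5) (nat_lit 0x15140) (nat_lit 0x300010002000000030004000000000000))) (.non (nat_lit 2) (nat_lit 3) (nat_lit 0x15004) (nat_lit 0x100010001000000000000000000010000))) (.non (nat_lit 2) (nat_lit 3) (nat_lit 0x15005) (nat_lit 0x100010001000000000000000000010001)))))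

noncomputable def t186_23 : Tr := (.ex (nat_lit 3) (.ex (nat_lit 4) (.ex (nat_lit 5) (.split (nat_lit 7) (nat_lit 1) t186_22 (.non (nat_lit 2) (nat_lit 3) (nat_lit 0xa805) (nat_lit 0x30002000100000000000000040002))) (.split (nat_lit 8) (nat_lit 0) (.split (nat_lit 8) (nat_lit 1) (.split (nat_lit 8) (nat_lit 2) (.split (nat_lit 8) (nat_lit 4) (.split (nat_lit 8) (nat_lit 6) (.split (nat_lit 8) (nat_lit 7) (.split (nat_lit 8) (nat_lit 3) (.unj (nat_lit 0x15) (nat_lit 0x200020001) (nat_lit 0x11540) (nat_lit 0x100000001000200020002000000000000)) (.unj (nat_lit 0x15) (nat_lit 0x200020001) (nat_lit 0x10540) (nat_lit 0x100000000000100010001000000000000))) (.non (nat_lit 1) (nat_lit 3) (nat_lit 0x15400) (nat_lit 0x100010001000100000000000000000000))) (.non (nat_lit 1) (nat_lit 3) (nat_lit 0x11400) (nat_lit 0x100000001000100000000000000000000))) (.non (nat_lit 1) (nat_lit 3) (nat_lit 0x10500) (nat_lit 0x100000000000100010000000000000000))) (.star (nat_lit 8) (nat_lit 2) (nat_lit 5))) (.star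 (nat_lit 8) (nat_lit 1) (nat_lit 5))) (.non (nat_lit 2) (nat_lit 3) (nat_lit 0x15405) (nat_lit 0x100010001000100000000000000010001)))) (.split (nat_lit 8) (nat_lit 0) (.split (nat_lit 8) (nat_lit 1) (.split (nat_lit 8) (nat_lit 3) (.split (nat_lit 8) (nat_lit 5) (.split (nat_lit 8) (nat_lit 6) (.split (nat_lit 8) (nat_lit 7) (.split (nat_lit 8) (nat_lit 2) (.unj (nat_lit 0x15) (nat_lit 0x200020001) (nat_lit 0x10540) (nat_lit 0x100000000000100020002000000000000)) (.split (nat_lit 8) (nat_lit 2) (.sup (nat_lit 0x200000001000400080006000000000000) (nat_lit 0x20000000000000000000400050003)) (.non (nat_lit 1) (nat_lit 5) (nat_lit 0x10150) (nat_lit 0x100000000000000010001000100000000)))) (.non (nat_lit 1) (nat_lit 3) (nat_lit 0x15500) (nat_lit 0x100010001000100010000000000000000))) (.non (nat_lit 1) (nat_lit 3) (nat_lit 0x11500) (nat_lit 0x100000001000100010000000000000000))) (.non (nat_lit 1) (nat_lit 3) (nat_lit 0x10500) (nat_lit 0x100000000000100010000000000000000))) (.non (nat_lit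 1) (nat_lit 5) (nat_lit 0x10140) (nat_lit 0x100000000000000010001000000000000))) (.non (nat_lit 2) (nat_lit 3) (nat_lit 0x15504) (nat_lit 0x100010001000100010000000000010000))) (.non (nat_lit 2) (nat_lit 3) (nat_lit 0x15505) (nat_lit 0x100010001000100010000000000010001)))) (.split (nat_lit 8) (nat_lit 0) (.split (nat_lit 8) (nat_lit 1) (.split (nat_lit 8) (nat_lit 2) (.split (nat_lit 8) (nat_lit 4) (.split (nat_lit 8) (nat_lit 6) (.split (nat_lit 8) (nat_lit 7) (.split (nat_lit 8) (nat_lit 5) (.unj (nat_lit 0x15) (nat_lit 0x200020001) (nat_lit 0x10540) (nat_lit 0x100000000000100020002000000000000)) (.unj (nat_lit 0x15) (nat_lit 0x200020001) (nat_lit 0x10540) (nat_lit 0x100000000000100010001000000000000))) (.non (nat_lit 1) (nat_lit 5) (nat_lit 0x15140) (nat_lit 0x300020001000000030004000000000000))) (.non (nat_lit 1) (nat_lit 5) (nat_lit 0x15140) (nat_lit 0x300010002000000030004000000000000))) (.non (nat_lit 1) (nat_lit 5) (nat_lit 0x10140) (nat_lit 0x100000000000000010001000000000000)))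 (.star (nat_lit 8) (nat_lit 2) (nat_lit 3))) (.star (nat_lit 8) (nat_lit 1) (nat_lit 3))) (.non (nat_lit 2) (nat_lit 5) (nat_lit 0x10145) (nat_lit 0x300000000000000030004000000010002))))

noncomputable def t186_24 : Tr := (.st (nat_lit 7) (nat_lit 1) (nat_lit 3) (nat_lit 0x15510) (nat_lit 0x200020003000200010000000100000000) (nat_lit 1) (nat_lit 1) (.st (nat_lit 8) (nat_lit 1) (nat_lit 3) (nat_lit 0x15410) (nat_lit 0x200010002000100000000000100000000) (nat_lit 1) (nat_lit 1) (.ex (nat_lit 3) (.split (nat_lit 8) (nat_lit 2) (.split (nat_lit 7) (nat_lit 6) (.split (nat_lit 8) (nat_lit 6) (.split (nat_lit 7) (nat_lit 1) (.pd (.cons (nat_lit 1) (nat_lit 4) (nat_lit 0) (nat_lit 0x268603200) (nat_lit 0x7a11bf423f7a11df423f00000f423f7a11900000f423f) (.cons (nat_lit 1) (nat_lit 6) (nat_lit 0) (nat_lit 0x270433200) (nat_lit 0xf423ff423f00000f423fb71ae1f156b71ae00000f423f) (.cons (nat_lit 2) (nat_lit 4) (nat_lit 0) (nat_lit 0x617603000) (nat_lit 0xf423f7a11b7a11df423f00000f423f000007a1197a117)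 (.cons (nat_lit 2) (nat_lit 6) (nat_lit 0) (nat_lit 0x810433000) (nat_lit 0xf423ff423f00000f423fb71ae1f15600000b71aea2c28) .nil)))) (.leaf (.cons (nat_lit 0x10014) (nat_lit 0x100000000000000000000000200020000) (.cons (nat_lit 0x11540) (nat_lit 0x100000002000300040003000000000000) .nil)) .nil)) (.non (nat_lit 2) (nat_lit 3) (nat_lit 0x2a804) (nat_lit 0x100020002000100000000000000020000))) (.non (nat_lit 1) (nat_lit 3) (nat_lit 0x25400) (nat_lit 0x100010002000100000000000000000000))) (.non (nat_lit 1) (nat_lit 3) (nat_lit 0x19400) (nat_lit 0x100010002000100000000000000000000))) (.non (nat_lit 1) (nat_lit 3) (nat_lit 0x2a810) (nat_lit 0x200010002000100000000000200000000))) (.split (nat_lit 9) (nat_lit 0) (.split (nat_lit 9) (nat_lit 1) (.split (nat_lit 9) (nat_lit 2) (.split (nat_lit 9) (nat_lit 4) (.split (nat_lit 9) (nat_lit 5) (.split (nat_lit 9) (nat_lit 6) (.split (nat_lit 9) (nat_lit 7) (.split (nat_lit 9) (nat_lit 8) (.unj (nat_lit 0x15) (nat_lit 0x200020001) (nat_lit 0x40540)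 (nat_lit 0x1000000000000000100020002000000000000)) (.non (nat_lit 1) (nat_lit 3) (nat_lit 0x55410) (nat_lit 0x1000200010002000100000000000100000000))) (.non (nat_lit 1) (nat_lit 3) (nat_lit 0x55510) (nat_lit 0x1000200020003000200010000000100000000))) (.non (nat_lit 1) (nat_lit 3) (nat_lit 0x55400) (nat_lit 0x1000100010002000100000000000000000000))) (.non (nat_lit 1) (nat_lit 3) (nat_lit 0x55500) (nat_lit 0x1000100010002000200010000000000000000))) (.non (nat_lit 1) (nat_lit 5) (nat_lit 0x40140) (nat_lit 0x1000000000000000000010001000000000000))) (.star (nat_lit 9) (nat_lit 2) (nat_lit 3))) (.star (nat_lit 9) (nat_lit 1) (nat_lit 3))) (.non (nat_lit 2) (nat_lit 5) (nat_lit 0x40145) (nat_lit 0x3000000000000000000030004000000010002))))))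

noncomputable def t186_25 : Tr := (.split (nat_lit 8) (nat_lit 1) (.split (nat_lit 8) (nat_lit 4) (.split (nat_lit 8) (nat_lit 6) (.split (nat_lit 8) (nat_lit 7) (.split (nat_lit 8) (nat_lit 2) (.split (nat_lit 7) (nat_lit 1) (.sup (nat_lit 0x20007000b0010000d000000000000) (nat_lit 0x200000000000000000000000300030001)) (.non (nat_lit 2) (nat_lit 3) (nat_lit 0xa805) (nat_lit 0x30002000100000000000000040002))) (.sup (nat_lit 0x39000000000000000000000050002c0000) (nat_lit 0x6001f003700500041000000000000))) (.split (nat_lit 8) (nat_lit 2) (.split (nat_lit 8) (nat_lit 7) (.split (nat_lit 7) (nat_lit 1) (.sup (nat_lit 0x90031005800800068000000000000) (nat_lit 0x70000000000000000000000180017000b)) (.non (nat_lit 2) (nat_lit 3) (nat_lit 0x2a004) (nat_lit 0x100020001000000000000000000020000))) (.non (nat_lit 1) (nat_lit 3) (nat_lit 0x1a810) (nat_lit 0x400030002000100000000000200000000))) (.split (nat_lit 8) (nat_lit 2) (.split (nat_lit 8) (nat_lit 7) (.split (nat_lit 7) (nat_lit 1) (.sup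 (nat_lit 0x2900000000000000000000005000390000) (nat_lit 0x6001f003700500041000000000000)) (.non (nat_lit 2) (nat_lit 3) (nat_lit 0x2a004) (nat_lit 0x100020001000000000000000000020000))) (.non (nat_lit 1) (nat_lit 3) (nat_lit 0x24010) (nat_lit 0x100010000000000000000000100000000))) (.non (nat_lit 1) (nat_lit 3) (nat_lit 0x15410) (nat_lit 0x400030002000100000000000300000000))))) (.split (nat_lit 8) (nat_lit 7) (.st (nat_lit 4) (nat_lit 2) (nat_lit 3) (nat_lit 0x15505) (nat_lit 0x200030004000300020000000000020001) (nat_lit 1) (nat_lit 1) (.st (nat_lit 5) (nat_lit 1) (nat_lit 3) (nat_lit 0x15500) (nat_lit 0x100010002000200010000000000000000) (nat_lit 1) (nat_lit 1) (.st (nat_lit 6) (nat_lit 1) (nat_lit 3) (nat_lit 0x15400) (nat_lit 0x100010002000100000000000000000000) (nat_lit 1) (nat_lit 1) t186_24))) (.non (nat_lit 1) (nat_lit 3) (nat_lit 0x15000) (nat_lit 0x100010001000000000000000000000000)))) (.split (nat_lit 8) (nat_lit 6) (.split (nat_lit 8) (nat_lit 7) (.split (nat_lit 8) (nat_lit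 2) (.sup (nat_lit 0x200000001000400080006000000000000) (nat_lit 0x20000000000000000000400050003)) (.non (nat_lit 1) (nat_lit 5) (nat_lit 0x10150) (nat_lit 0x100000000000000010001000100000000))) (.non (nat_lit 1) (nat_lit 3) (nat_lit 0x15500) (nat_lit 0x100010001000100010000000000000000))) (.non (nat_lit 1) (nat_lit 3) (nat_lit 0x11500) (nat_lit 0x100000001000100010000000000000000)))) (.split (nat_lit 8) (nat_lit 4) (.split (nat_lit 8) (nat_lit 6) (.split (nat_lit 8) (nat_lit 7) (.sup (nat_lit 0x800000000000000000000000a00070000) (nat_lit 0x100040007000a0008000000000000)) (.non (nat_lit 2) (nat_lit 3) (nat_lit 0x14004) (nat_lit 0x100010000000000000000000000010000))) (.non (nat_lit 2) (nat_lit 3) (nat_lit 0x15004) (nat_lit 0x100010001000000000000000000010000))) (.non (nat_lit 2) (nat_lit 3) (nat_lit 0x15504) (nat_lit 0x100010001000100010000000000010000))))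

noncomputable def t186_26 : Tr := (.ex (nat_lit 7) (.split (nat_lit 7) (nat_lit 2) (.split (nat_lit 7) (nat_lit 6) (.pd (.cons (nat_lit 1) (nat_lit 4) (nat_lit 0) (nat_lit 0x27603200) (nat_lit 0xa2c28b71aef423f00000f423f9896500000f423f) (.cons (nat_lit 2) (nat_lit 4) (nat_lit 0) (nat_lit 0x17603000) (nat_lit 0xa2c28b71aef423f00000f423f0000098965927bd) .nil)) (.leaf (.cons (nat_lit 0x4014) (nat_lit 0x10000000000000000000100010000) .nil) .nil)) (.non (nat_lit 1) (nat_lit 3) (nat_lit 0x6a10) (nat_lit 0x40003000200010000000200000000))) (.split (nat_lit 7) (nat_lit 2) (.split (nat_lit 7) (nat_lit 6) (.pd (.cons (nat_lit 1) (nat_lit 4) (nat_lit 0) (nat_lit 0x27603200) (nat_lit 0xa2c28b71aef423f00000f423f3d08b00000f423f) (.cons (nat_lit 2) (nat_lit 4) (nat_lit 0) (nat_lit 0x17603000) (nat_lit 0xa2c28b71aef423f00000f423f0000098965927bd) .nil)) (.leaf (.cons (nat_lit 0x4014) (nat_lit 0x10000000000000000000100010000) .nil) .nil)) (.non (nat_lit 1) (nat_lit 3) (nat_lit 0x9010) (nat_lit 0x10001000000000000000100000000)))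 (.non (nat_lit 1) (nat_lit 3) (nat_lit 0x5510) (nat_lit 0x40003000200010000000300000000)))) (.split (nat_lit 8) (nat_lit 0) (.split (nat_lit 8) (nat_lit 1) (.split (nat_lit 8) (nat_lit 2) (.split (nat_lit 8) (nat_lit 3) (.split (nat_lit 8) (nat_lit 4) (.split (nat_lit 8) (nat_lit 5) (.split (nat_lit 8) (nat_lit 6) (.st (nat_lit 7) (nat_lit 1) (nat_lit 3) (nat_lit 0x15010) (nat_lit 0x100020001000000000000000100000000) (nat_lit 1) (nat_lit 1) (.split (nat_lit 7) (nat_lit 2) (.split (nat_lit 7) (nat_lit 6) (.split (nat_lit 8) (nat_lit 7) (.pd (.cons (nat_lit 1) (nat_lit 4) (nat_lit 0) (nat_lit 0x727603200) (nat_lit 0xf423f65b97b71aef423f00000f423f61a7900000f423f) (.cons (nat_lit 2) (nat_lit 4) (nat_lit 0) (nat_lit 0x717603000) (nat_lit 0xf423f65b97b71aef423f00000f423f0000061a795b8cc) .nil)) (.leaf (.cons (nat_lit 0x4014) (nat_lit 0x10000000000000000000100010000) .nil) .nil)) (.non (nat_lit 1) (nat_lit 3) (nat_lit 0x25010) (nat_lit 0x100020001000000000000000100000000))) (.non (nat_lit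 1) (nat_lit 3) (nat_lit 0x29500) (nat_lit 0x100020003000200010000000000000000))) (.non (nat_lit 1) (nat_lit 3) (nat_lit 0x2a010) (nat_lit 0x100020001000000000000000200000000)))) (.non (nat_lit 1) (nat_lit 3) (nat_lit 0x15000) (nat_lit 0x100010001000000000000000000000000))) (.non (nat_lit 1) (nat_lit 3) (nat_lit 0x15400) (nat_lit 0x100010001000100000000000000000000))) (.non (nat_lit 1) (nat_lit 3) (nat_lit 0x15500) (nat_lit 0x100010001000100010000000000000000))) (.non (nat_lit 1) (nat_lit 5) (nat_lit 0x15140) (nat_lit 0x300020001000000030004000000000000))) (.non (nat_lit 1) (nat_lit 3) (nat_lit 0x14010) (nat_lit 0x100010000000000000000000100000000))) (.non (nat_lit 2) (nat_lit 3) (nat_lit 0x14004) (nat_lit 0x100010000000000000000000000010000))) (.non (nat_lit 2) (nat_lit 3) (nat_lit 0x14005) (nat_lit 0x100010000000000000000000000010001))))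

noncomputable def t186_27 : Tr := (.ex (nat_lit 5) (.split (nat_lit 7) (nat_lit 1) (.pd (.cons (nat_lit 1) (nat_lit 6) (nat_lit 0x10000100) (nat_lit 0x20433700) (nat_lit 0x100000f423fb71ae1f1560000100000f423f) (.cons (nat_lit 2) (nat_lit 6) (nat_lit 0) (nat_lit 0x10433000) (nat_lit 0xf423f00000f423fb71ae1f15600000b71aea2c28) .nil)) (.ex (nat_lit 6) (.pd (.cons (nat_lit 0) (nat_lit 7) (nat_lit 0x110) (nat_lit 0x5433120) (nat_lit 0xf423fb71aea2c2804737000010000100000) (.cons (nat_lit 1) (nat_lit 7) (nat_lit 0) (nat_lit 0x5433200) (nat_lit 0xf423fb71aea2c2804737f423f00000f423f) (.cons (nat_lit 2) (nat_lit 7) (nat_lit 0) (nat_lit 0x5433000) (nat_lit 0xf423fb71aea2c280473700000f423fb71ae) .nil))) t186_26) (.split (nat_lit 8) (nat_lit 0) (.split (nat_lit 8) (nat_lit 1) (.split (nat_lit 8) (nat_lit 2) (.split (nat_lit 8) (nat_lit 3) (.split (nat_lit 8) (nat_lit 4) (.split (nat_lit 8) (nat_lit 5) (.split (nat_lit 8) (nat_lit 7) (.unj (nat_lit 0x15) (nat_lit 0x200020001) (nat_lit 0x11540)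 (nat_lit 0x100000002000300040003000000000000)) (.non (nat_lit 1) (nat_lit 3) (nat_lit 0x15000) (nat_lit 0x100010001000000000000000000000000))) (.non (nat_lit 1) (nat_lit 3) (nat_lit 0x11400) (nat_lit 0x100000001000100000000000000000000))) (.non (nat_lit 1) (nat_lit 3) (nat_lit 0x11500) (nat_lit 0x100000001000100010000000000000000))) (.non (nat_lit 1) (nat_lit 5) (nat_lit 0x15140) (nat_lit 0x300010002000000030004000000000000))) (.non (nat_lit 1) (nat_lit 3) (nat_lit 0x15010) (nat_lit 0x100010001000000000000000100000000))) (.non (nat_lit 2) (nat_lit 3) (nat_lit 0x15004) (nat_lit 0x100010001000000000000000000010000))) (.non (nat_lit 1) (nat_lit 3) (nat_lit 0x15511) (nat_lit 0x200020003000200010000000100000001))))) (.non (nat_lit 2) (nat_lit 3) (nat_lit 0xa805) (nat_lit 0x30002000100000000000000040002))) (.split (nat_lit 8) (nat_lit 0) (.split (nat_lit 8) (nat_lit 1) (.split (nat_lit 8) (nat_lit 2) (.split (nat_lit 8) (nat_lit 4) (.split (nat_lit 8) (nat_lit 6) (.split (nat_lit 8) (nat_lit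 7) (.split (nat_lit 8) (nat_lit 3) (.unj (nat_lit 0x15) (nat_lit 0x200020001) (nat_lit 0x11540) (nat_lit 0x100000001000200020002000000000000)) (.unj (nat_lit 0x15) (nat_lit 0x200020001) (nat_lit 0x10540) (nat_lit 0x100000000000100010001000000000000))) (.non (nat_lit 1) (nat_lit 3) (nat_lit 0x15400) (nat_lit 0x100010001000100000000000000000000))) (.non (nat_lit 1) (nat_lit 3) (nat_lit 0x11400) (nat_lit 0x100000001000100000000000000000000))) (.non (nat_lit 1) (nat_lit 3) (nat_lit 0x10500) (nat_lit 0x100000000000100010000000000000000))) (.star (nat_lit 8) (nat_lit 2) (nat_lit 5))) (.star (nat_lit 8) (nat_lit 1) (nat_lit 5))) (.non (nat_lit 2) (nat_lit 3) (nat_lit 0x15405) (nat_lit 0x100010001000100000000000000010001))))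

noncomputable def t186_28 : Tr := (.pd (.cons (nat_lit 1) (nat_lit 7) (nat_lit 0) (nat_lit 0x205433200) (nat_lit 0xf423f00000f423fb71aea2c2804737b71ae00000f423f) (.cons (nat_lit 2) (nat_lit 7) (nat_lit 0) (nat_lit 0x805433000) (nat_lit 0xf423f00000f423fb71aea2c280473700000f423fb71ae) .nil)) (.ex (nat_lit 7) (.split (nat_lit 7) (nat_lit 6) (.pd (.cons (nat_lit 1) (nat_lit 4) (nat_lit 0) (nat_lit 0x227603200) (nat_lit 0xf423fa2c28b71aef423f00000f423f5b8d400000f423f) (.cons (nat_lit 2) (nat_lit 4) (nat_lit 0) (nat_lit 0x817603000) (nat_lit 0xf423fa2c28b71aef423f00000f423f0000098965927bd) .nil)) (.leaf (.cons (nat_lit 0x10014) (nat_lit 0x100000000000000000000000200020000) .nil) .nil)) (.non (nat_lit 1) (nat_lit 3) (nat_lit 0x16810) (nat_lit 0x100030002000100000000000200000000))) (.split (nat_lit 9) (nat_lit 0) (.split (nat_lit 9) (nat_lit 1) (.split (nat_lit 9) (nat_lit 2) (.split (nat_lit 9) (nat_lit 3) (.split (nat_lit 9) (nat_lit 4) (.split (nat_lit 9) (nat_lit 5) (.split (nat_lit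 9) (nat_lit 6) (.split (nat_lit 9) (nat_lit 8) (.st (nat_lit 7) (nat_lit 1) (nat_lit 3) (nat_lit 0x45010) (nat_lit 0x1000000020001000000000000000100000000) (nat_lit 1) (nat_lit 1) (.split (nat_lit 7) (nat_lit 6) (.split (nat_lit 9) (nat_lit 7) (.pd (.cons (nat_lit 1) (nat_lit 4) (nat_lit 0) (nat_lit 0x7227603200) (nat_lit 0xf423ff423f65b97b71aef423f00000f423f249e800000f423f) (.cons (nat_lit 2) (nat_lit 4) (nat_lit 0) (nat_lit 0x7817603000) (nat_lit 0xf423ff423f65b97b71aef423f00000f423f0000061a795b8cc) .nil)) (.leaf (.cons (nat_lit 0x10014) (nat_lit 0x100000000000000000000000200020000) .nil) .nil)) (.non (nat_lit 1) (nat_lit 3) (nat_lit 0x85010) (nat_lit 0x1000000020001000000000000000100000000))) (.non (nat_lit 1) (nat_lit 3) (nat_lit 0x89500) (nat_lit 0x1000000020003000200010000000000000000)))) (.non (nat_lit 1) (nat_lit 3) (nat_lit 0x54010) (nat_lit 0x1000100010000000000000000000100000000))) (.non (nat_lit 1) (nat_lit 3) (nat_lit 0x45000) (nat_lit 0x1000000010001000000000000000000000000)))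 (.non (nat_lit 1) (nat_lit 3) (nat_lit 0x45400) (nat_lit 0x1000000010001000100000000000000000000))) (.non (nat_lit 1) (nat_lit 3) (nat_lit 0x45500) (nat_lit 0x1000000010001000100010000000000000000))) (.non (nat_lit 1) (nat_lit 5) (nat_lit 0x45140) (nat_lit 0x3000000020001000000030004000000000000))) (.non (nat_lit 1) (nat_lit 3) (nat_lit 0x44010) (nat_lit 0x1000000010000000000000000000100000000))) (.non (nat_lit 2) (nat_lit 3) (nat_lit 0x44004) (nat_lit 0x1000000010000000000000000000000010000))) (.non (nat_lit 1) (nat_lit 3) (nat_lit 0x55411) (nat_lit 0x2000100030002000100000000000200000001)))))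

noncomputable def t186_29 : Tr := (.split (nat_lit 8) (nat_lit 2) (.split (nat_lit 7) (nat_lit 1) (.pd (.cons (nat_lit 1) (nat_lit 6) (nat_lit 0) (nat_lit 0x220433200) (nat_lit 0xf423ff423f00000f423fb71ae1f1567a11d00000f423f) (.cons (nat_lit 2) (nat_lit 6) (nat_lit 0) (nat_lit 0x810433000) (nat_lit 0xf423ff423f00000f423fb71ae1f15600000b71aea2c28) .nil)) (.ex (nat_lit 6) t186_28 (.split (nat_lit 9) (nat_lit 0) (.split (nat_lit 9) (nat_lit 1) (.split (nat_lit 9) (nat_lit 2) (.split (nat_lit 9) (nat_lit 3) (.split (nat_lit 9) (nat_lit 4) (.split (nat_lit 9) (nat_lit 5) (.split (nat_lit 9) (nat_lit 7) (.split (nat_lit 9) (nat_lit 8) (.unj (nat_lit 0x15) (nat_lit 0x200020001) (nat_lit 0x41540) (nat_lit 0x1000000000002000300040003000000000000)) (.non (nat_lit 1) (nat_lit 3) (nat_lit 0x55010) (nat_lit 0x1000100010001000000000000000100000000))) (.non (nat_lit 1) (nat_lit 3) (nat_lit 0x45000) (nat_lit 0x1000000010001000000000000000000000000))) (.non (nat_lit 1) (nat_lit 3) (nat_lit 0x41400)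 (nat_lit 0x1000000000001000100000000000000000000))) (.non (nat_lit 1) (nat_lit 3) (nat_lit 0x41500) (nat_lit 0x1000000000001000100010000000000000000))) (.non (nat_lit 1) (nat_lit 5) (nat_lit 0x45140) (nat_lit 0x3000000010002000000030004000000000000))) (.non (nat_lit 1) (nat_lit 3) (nat_lit 0x45010) (nat_lit 0x1000000010001000000000000000100000000))) (.non (nat_lit 2) (nat_lit 3) (nat_lit 0x45004) (nat_lit 0x1000000010001000000000000000000010000))) (.non (nat_lit 1) (nat_lit 3) (nat_lit 0x45511) (nat_lit 0x2000000020003000200010000000100000001))))) (.non (nat_lit 2) (nat_lit 3) (nat_lit 0xa805) (nat_lit 0x30002000100000000000000040002))) (.split (nat_lit 8) (nat_lit 2) (.split (nat_lit 7) (nat_lit 1) (.pd (.cons (nat_lit 1) (nat_lit 6) (nat_lit 0) (nat_lit 0x220433200) (nat_lit 0xf423ff423f00000f423fb71ae1f1563d08d00000f423f) (.cons (nat_lit 2) (nat_lit 6) (nat_lit 0) (nat_lit 0x810433000) (nat_lit 0xf423ff423f00000f423fb71ae1f15600000b71aea2c28) .nil)) (.st (nat_lit 6) (nat_lit 1)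 (nat_lit 3) (nat_lit 0x25410) (nat_lit 0x100020002000100000000000200000000) (nat_lit 1) (nat_lit 1) (.pd (.cons (nat_lit 1) (nat_lit 7) (nat_lit 0) (nat_lit 0x205433200) (nat_lit 0xf423f00000f423fb71aea2c28047377a11e00000f423f) (.cons (nat_lit 2) (nat_lit 7) (nat_lit 0) (nat_lit 0x805433000) (nat_lit 0xf423f00000f423fb71aea2c280473700000f423fb71ae) .nil)) (.st (nat_lit 7) (nat_lit 1) (nat_lit 3) (nat_lit 0x25010) (nat_lit 0x100020001000000000000000200000000) (nat_lit 1) (nat_lit 1) (.split (nat_lit 7) (nat_lit 6) (.pd (.cons (nat_lit 1) (nat_lit 4) (nat_lit 0) (nat_lit 0x227603200) (nat_lit 0xf423fa2c28b71aef423f00000f423f1e84400000f423f) (.cons (nat_lit 2) (nat_lit 4) (nat_lit 0) (nat_lit 0x817603000) (nat_lit 0xf423fa2c28b71aef423f00000f423f0000098965927bd) .nil)) (.leaf (.cons (nat_lit 0x10014) (nat_lit 0x100000000000000000000000100010000) .nil) .nil)) (.non (nat_lit 1) (nat_lit 3) (nat_lit 0x26010) (nat_lit 0x100020001000000000000000200000000))))))) (.non (nat_lit 2) (nat_lit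 3) (nat_lit 0xa805) (nat_lit 0x30002000100000000000000040002))) (.non (nat_lit 1) (nat_lit 3) (nat_lit 0x15410) (nat_lit 0x300030002000100000000000400000000))))

noncomputable def t186_30 : Tr := (.ex (nat_lit 3) (.ex (nat_lit 4) (.ex (nat_lit 5) (.split (nat_lit 7) (nat_lit 2) t186_29 (.non (nat_lit 1) (nat_lit 3) (nat_lit 0x1a810) (nat_lit 0x200030002000100000000000400000000))) (.split (nat_lit 9) (nat_lit 0) (.split (nat_lit 9) (nat_lit 1) (.split (nat_lit 9) (nat_lit 2) (.split (nat_lit 9) (nat_lit 4) (.split (nat_lit 9) (nat_lit 6) (.split (nat_lit 9) (nat_lit 7) (.split (nat_lit 9) (nat_lit 8) (.split (nat_lit 9) (nat_lit 3) (.unj (nat_lit 0x15) (nat_lit 0x200020001) (nat_lit 0x41540) (nat_lit 0x1000000000001000200020002000000000000)) (.unj (nat_lit 0x15) (nat_lit 0x200020001) (nat_lit 0x40540) (nat_lit 0x1000000000000000100010001000000000000))) (.non (nat_lit 1) (nat_lit 3) (nat_lit 0x55410) (nat_lit 0x1000100010001000100000000000100000000))) (.non (nat_lit 1) (nat_lit 3)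 (nat_lit 0x45400) (nat_lit 0x1000000010001000100000000000000000000))) (.non (nat_lit 1) (nat_lit 3) (nat_lit 0x41400) (nat_lit 0x1000000000001000100000000000000000000))) (.non (nat_lit 1) (nat_lit 3) (nat_lit 0x40500) (nat_lit 0x1000000000000000100010000000000000000))) (.star (nat_lit 9) (nat_lit 2) (nat_lit 5))) (.star (nat_lit 9) (nat_lit 1) (nat_lit 5))) (.non (nat_lit 2) (nat_lit 3) (nat_lit 0x45405) (nat_lit 0x1000000010001000100000000000000010001)))) (.split (nat_lit 9) (nat_lit 0) (.split (nat_lit 9) (nat_lit 1) (.split (nat_lit 9) (nat_lit 2) (.split (nat_lit 9) (nat_lit 3) (.split (nat_lit 9) (nat_lit 5) (.split (nat_lit 9) (nat_lit 6) (.split (nat_lit 9) (nat_lit 7) (.split (nat_lit 9) (nat_lit 8) (.unj (nat_lit 0x15) (nat_lit 0x200020001) (nat_lit 0x40540) (nat_lit 0x1000000000000000100020002000000000000)) (.non (nat_lit 1) (nat_lit 3) (nat_lit 0x55510) (nat_lit 0x1000100010001000100010000000100000000))) (.non (nat_lit 1) (nat_lit 3) (nat_lit 0x45500) (nat_lit 0x1000000010001000100010000000000000000)))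 (.non (nat_lit 1) (nat_lit 3) (nat_lit 0x41500) (nat_lit 0x1000000000001000100010000000000000000))) (.non (nat_lit 1) (nat_lit 3) (nat_lit 0x40500) (nat_lit 0x1000000000000000100010000000000000000))) (.non (nat_lit 1) (nat_lit 5) (nat_lit 0x40140) (nat_lit 0x1000000000000000000010001000000000000))) (.non (nat_lit 1) (nat_lit 3) (nat_lit 0x45510) (nat_lit 0x1000000010001000100010000000100000000))) (.non (nat_lit 2) (nat_lit 3) (nat_lit 0x45504) (nat_lit 0x1000000010001000100010000000000010000))) (.non (nat_lit 2) (nat_lit 3) (nat_lit 0x45505) (nat_lit 0x1000000010001000100010000000000010001)))) (.split (nat_lit 9) (nat_lit 0) (.split (nat_lit 9) (nat_lit 1) (.split (nat_lit 9) (nat_lit 2) (.split (nat_lit 9) (nat_lit 4) (.split (nat_lit 9) (nat_lit 6) (.split (nat_lit 9) (nat_lit 7) (.split (nat_lit 9) (nat_lit 8) (.split (nat_lit 9) (nat_lit 5) (.unj (nat_lit 0x15) (nat_lit 0x200020001) (nat_lit 0x40540) (nat_lit 0x1000000000000000100020002000000000000)) (.unj (nat_lit 0x15) (nat_lit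 0x200020001) (nat_lit 0x40540) (nat_lit 0x1000000000000000100010001000000000000))) (.non (nat_lit 1) (nat_lit 5) (nat_lit 0x50150) (nat_lit 0x3000200000000000000030004000100000000))) (.non (nat_lit 1) (nat_lit 5) (nat_lit 0x45140) (nat_lit 0x3000000020001000000030004000000000000))) (.non (nat_lit 1) (nat_lit 5) (nat_lit 0x45140) (nat_lit 0x3000000010002000000030004000000000000))) (.non (nat_lit 1) (nat_lit 5) (nat_lit 0x40140) (nat_lit 0x1000000000000000000010001000000000000))) (.star (nat_lit 9) (nat_lit 2) (nat_lit 3))) (.star (nat_lit 9) (nat_lit 1) (nat_lit 3))) (.non (nat_lit 2) (nat_lit 5) (nat_lit 0x40145) (nat_lit 0x3000000000000000000030004000000010002))))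

noncomputable def t186_31 : Tr := (.split (nat_lit 8) (nat_lit 6) (.split (nat_lit 8) (nat_lit 7) (.split (nat_lit 8) (nat_lit 0) (.split (nat_lit 8) (nat_lit 1) t186_30 (.split (nat_lit 8) (nat_lit 1) (.split (nat_lit 8) (nat_lit 2) (.split (nat_lit 7) (nat_lit 1) (.split (nat_lit 7) (nat_lit 2) (.sup (nat_lit 0xa00000000000000000000000a000a0000) (nat_lit 0x100040007000a0008000000000000)) (.non (nat_lit 1) (nat_lit 3) (nat_lit 0x1a810) (nat_lit 0x200030002000100000000000400000000))) (.non (nat_lit 2) (nat_lit 3) (nat_lit 0x1a804) (nat_lit 0x200030002000100000000000000040000))) (.split (nat_lit 8) (nat_lit 2) (.split (nat_lit 7) (nat_lit 1) (.split (nat_lit 7) (nat_lit 2) (.sup (nat_lit 0xa00000000000000000000000900080000) (nat_lit 0x100040007000a0008000000000000)) (.non (nat_lit 1) (nat_lit 3) (nat_lit 0x28010) (nat_lit 0x100010000000000000000000200000000))) (.non (nat_lit 2) (nat_lit 3) (nat_lit 0x1a804) (nat_lit 0x200030002000100000000000000040000))) (.non (nat_lit 1) (nat_lit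 3) (nat_lit 0x15410) (nat_lit 0x300030002000100000000000400000000)))) (.non (nat_lit 2) (nat_lit 3) (nat_lit 0x24005) (nat_lit 0x100010000000000000000000000020001)))) (.split (nat_lit 8) (nat_lit 1) (.split (nat_lit 8) (nat_lit 0) (.split (nat_lit 8) (nat_lit 2) (.split (nat_lit 7) (nat_lit 1) (.split (nat_lit 7) (nat_lit 2) (.sup (nat_lit 0x10006000b0010000d000000000000) (nat_lit 0x200000000000000000000000200020002)) (.non (nat_lit 1) (nat_lit 3) (nat_lit 0x1a810) (nat_lit 0x200030002000100000000000400000000))) (.non (nat_lit 2) (nat_lit 3) (nat_lit 0x1a005) (nat_lit 0x100020001000000000000000000030002))) (.non (nat_lit 1) (nat_lit 3) (nat_lit 0x1a021) (nat_lit 0x400020001000000000000000300000002))) (.split (nat_lit 8) (nat_lit 0) (.split (nat_lit 8) (nat_lit 2) (.split (nat_lit 7) (nat_lit 1) (.split (nat_lit 7) (nat_lit 2) (.sup (nat_lit 0x20007000b0010000d000000000000) (nat_lit 0x200000000000000000000000100010002)) (.non (nat_lit 1) (nat_lit 3) (nat_lit 0x1a810) (nat_lit 0x200030002000100000000000400000000)))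 (.non (nat_lit 2) (nat_lit 3) (nat_lit 0x28005) (nat_lit 0x100010000000000000000000000020002))) (.non (nat_lit 1) (nat_lit 3) (nat_lit 0x20011) (nat_lit 0x100000000000000000000000100000001))) (.non (nat_lit 1) (nat_lit 3) (nat_lit 0x15011) (nat_lit 0x400020001000000000000000300000003)))) (.non (nat_lit 2) (nat_lit 3) (nat_lit 0x10005) (nat_lit 0x100000000000000000000000000010001)))) (.non (nat_lit 1) (nat_lit 3) (nat_lit 0x14010) (nat_lit 0x100010000000000000000000100000000))) (.non (nat_lit 1) (nat_lit 3) (nat_lit 0x15010) (nat_lit 0x100010001000000000000000100000000)))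

noncomputable def t186_32 : Tr := (.split (nat_lit 7) (nat_lit 2) (.split (nat_lit 7) (nat_lit 6) (.split (nat_lit 7) (nat_lit 1) (.split (nat_lit 8) (nat_lit 1) (.pd (.cons (nat_lit 1) (nat_lit 4) (nat_lit 0) (nat_lit 0x827603200) (nat_lit 0xf423fa2c28b71aef423f00000f423f3d08b00000f423f) (.cons (nat_lit 2) (nat_lit 4) (nat_lit 0) (nat_lit 0x117603000) (nat_lit 0xf423fa2c28b71aef423f00000f423f000005b8d45160d) .nil)) (.ex (nat_lit 4) (.pd (.cons (nat_lit 1) (nat_lit 6) (nat_lit 0) (nat_lit 0x820433200) (nat_lit 0xf423ff423f00000f423fb71ae1f1567a11e00000f423f) (.cons (nat_lit 1) (nat_lit 7) (nat_lit 0) (nat_lit 0x805433200) (nat_lit 0xf423f00000f423fb71aea2c2804737f423f00000f423f) (.cons (nat_lit 2) (nat_lit 6) (nat_lit 0) (nat_lit 0x110433000) (nat_lit 0xf423ff423f00000f423fb71ae1f156000007a11d7a11b) (.cons (nat_lit 2) (nat_lit 7) (nat_lit 0) (nat_lit 0x105433000) (nat_lit 0xf423f00000f423fb71aea2c280473700000b71aea2c28) .nil)))) (.leaf (.cons (nat_lit 0x10014) (nat_lit 0x100000000000000000000000200020000)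 .nil) .nil)) (.split (nat_lit 9) (nat_lit 0) (.split (nat_lit 9) (nat_lit 1) (.split (nat_lit 9) (nat_lit 2) (.split (nat_lit 9) (nat_lit 3) (.split (nat_lit 9) (nat_lit 5) (.split (nat_lit 9) (nat_lit 6) (.split (nat_lit 9) (nat_lit 7) (.split (nat_lit 9) (nat_lit 8) (.unj (nat_lit 0x15) (nat_lit 0x200020001) (nat_lit 0x40540) (nat_lit 0x1000000000000000100020002000000000000)) (.non (nat_lit 2) (nat_lit 3) (nat_lit 0x55504) (nat_lit 0x1000100010001000100010000000000010000))) (.non (nat_lit 1) (nat_lit 3) (nat_lit 0x45500) (nat_lit 0x1000000010001000100010000000000000000))) (.non (nat_lit 1) (nat_lit 3) (nat_lit 0x41500) (nat_lit 0x1000000000001000100010000000000000000))) (.non (nat_lit 1) (nat_lit 3) (nat_lit 0x40500) (nat_lit 0x1000000000000000100010000000000000000))) (.non (nat_lit 1) (nat_lit 5) (nat_lit 0x40140) (nat_lit 0x1000000000000000000010001000000000000))) (.non (nat_lit 1) (nat_lit 3) (nat_lit 0x4a810) (nat_lit 0x2000000030002000100000000000400000000))) (.non (nat_lit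 2) (nat_lit 3) (nat_lit 0x45504) (nat_lit 0x1000000010001000100010000000000010000))) (.non (nat_lit 2) (nat_lit 3) (nat_lit 0x45505) (nat_lit 0x1000000010001000100010000000000010001))))) (.non (nat_lit 2) (nat_lit 3) (nat_lit 0x24005) (nat_lit 0x100010000000000000000000000020001))) (.non (nat_lit 2) (nat_lit 3) (nat_lit 0x1a804) (nat_lit 0x200030002000100000000000000040000))) (.non (nat_lit 1) (nat_lit 3) (nat_lit 0x9010) (nat_lit 0x10001000000000000000100000000))) (.non (nat_lit 1) (nat_lit 3) (nat_lit 0x5510) (nat_lit 0x40003000200010000000300000000)))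

noncomputable def t186_33 : Tr := (.ex (nat_lit 3) (.split (nat_lit 7) (nat_lit 2) (.split (nat_lit 7) (nat_lit 6) (.split (nat_lit 7) (nat_lit 1) (.split (nat_lit 8) (nat_lit 1) (.pd (.cons (nat_lit 1) (nat_lit 4) (nat_lit 0) (nat_lit 0x827603200) (nat_lit 0xf423fa2c28b71aef423f00000f423f9896500000f423f) (.cons (nat_lit 2) (nat_lit 4) (nat_lit 0) (nat_lit 0x117603000) (nat_lit 0xf423fa2c28b71aef423f00000f423f000005b8d45160d) .nil)) (.ex (nat_lit 4) (.pd (.cons (nat_lit 1) (nat_lit 6) (nat_lit 0) (nat_lit 0x820433200) (nat_lit 0xf423ff423f00000f423fb71ae1f156b71ae00000f423f) (.cons (nat_lit 1) (nat_lit 7) (nat_lit 0) (nat_lit 0x805433200) (nat_lit 0xf423f00000f423fb71aea2c2804737f423f00000f423f) (.cons (nat_lit 2) (nat_lit 6) (nat_lit 0) (nat_lit 0x110433000) (nat_lit 0xf423ff423f00000f423fb71ae1f156000007a11d7a11b) (.cons (nat_lit 2) (nat_lit 7) (nat_lit 0) (nat_lit 0x105433000) (nat_lit 0xf423f00000f423fb71aea2c280473700000b71aea2c28) .nil)))) (.leaf (.cons (nat_lit 0x10014) (nat_lit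 0x100000000000000000000000200020000) .nil) .nil)) (.split (nat_lit 9) (nat_lit 0) (.split (nat_lit 9) (nat_lit 1) (.split (nat_lit 9) (nat_lit 2) (.split (nat_lit 9) (nat_lit 3) (.split (nat_lit 9) (nat_lit 5) (.split (nat_lit 9) (nat_lit 6) (.split (nat_lit 9) (nat_lit 7) (.split (nat_lit 9) (nat_lit 8) (.unj (nat_lit 0x15) (nat_lit 0x200020001) (nat_lit 0x40540) (nat_lit 0x1000000000000000100020002000000000000)) (.non (nat_lit 2) (nat_lit 3) (nat_lit 0x55504) (nat_lit 0x1000100010001000100010000000000010000))) (.non (nat_lit 1) (nat_lit 3) (nat_lit 0x45500) (nat_lit 0x1000000010001000100010000000000000000))) (.non (nat_lit 1) (nat_lit 3) (nat_lit 0x41500) (nat_lit 0x1000000000001000100010000000000000000))) (.non (nat_lit 1) (nat_lit 3) (nat_lit 0x40500) (nat_lit 0x1000000000000000100010000000000000000))) (.non (nat_lit 1) (nat_lit 5) (nat_lit 0x40140) (nat_lit 0x1000000000000000000010001000000000000))) (.non (nat_lit 1) (nat_lit 3) (nat_lit 0x45510) (nat_lit 0x1000000010001000100010000000100000000)))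 (.non (nat_lit 2) (nat_lit 3) (nat_lit 0x45504) (nat_lit 0x1000000010001000100010000000000010000))) (.non (nat_lit 2) (nat_lit 3) (nat_lit 0x45505) (nat_lit 0x1000000010001000100010000000000010001))))) (.non (nat_lit 2) (nat_lit 3) (nat_lit 0x24005) (nat_lit 0x100010000000000000000000000020001))) (.non (nat_lit 2) (nat_lit 3) (nat_lit 0x1a804) (nat_lit 0x200030002000100000000000000040000))) (.non (nat_lit 1) (nat_lit 3) (nat_lit 0x6a10) (nat_lit 0x40003000200010000000200000000))) t186_32) (.split (nat_lit 9) (nat_lit 0) (.split (nat_lit 9) (nat_lit 1) (.split (nat_lit 9) (nat_lit 2) (.split (nat_lit 9) (nat_lit 4) (.split (nat_lit 9) (nat_lit 5) (.split (nat_lit 9) (nat_lit 6) (.split (nat_lit 9) (nat_lit 7) (.split (nat_lit 9) (nat_lit 8) (.unj (nat_lit 0x15) (nat_lit 0x200020001) (nat_lit 0x40540) (nat_lit 0x1000000000000000100020002000000000000)) (.non (nat_lit 2) (nat_lit 5) (nat_lit 0x50144) (nat_lit 0x3000200000000000000030004000000010000))) (.non (nat_lit 1) (nat_lit 5) (nat_lit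 0x45140) (nat_lit 0x3000000020001000000030004000000000000))) (.non (nat_lit 1) (nat_lit 5) (nat_lit 0x45140) (nat_lit 0x3000000010002000000030004000000000000))) (.non (nat_lit 2) (nat_lit 3) (nat_lit 0x55505) (nat_lit 0x1000100020002000200010000000000020001))) (.non (nat_lit 1) (nat_lit 5) (nat_lit 0x40140) (nat_lit 0x1000000000000000000010001000000000000))) (.star (nat_lit 9) (nat_lit 2) (nat_lit 3))) (.star (nat_lit 9) (nat_lit 1) (nat_lit 3))) (.non (nat_lit 2) (nat_lit 5) (nat_lit 0x40145) (nat_lit 0x3000000000000000000030004000000010002))))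

noncomputable def t186_34 : Tr := (.ex (nat_lit 1) (.ex (nat_lit 2) (.ex (nat_lit 3) (.ex (nat_lit 4) t186_27 (.split (nat_lit 8) (nat_lit 0) (.split (nat_lit 8) (nat_lit 1) (.split (nat_lit 8) (nat_lit 2) (.split (nat_lit 8) (nat_lit 3) (.split (nat_lit 8) (nat_lit 5) (.split (nat_lit 8) (nat_lit 6) (.split (nat_lit 8) (nat_lit 7) (.unj (nat_lit 0x15) (nat_lit 0x200020001) (nat_lit 0x10540) (nat_lit 0x100000000000100020002000000000000)) (.non (nat_lit 1) (nat_lit 3) (nat_lit 0x15500) (nat_lit 0x100010001000100010000000000000000))) (.non (nat_lit 1) (nat_lit 3) (nat_lit 0x11500) (nat_lit 0x100000001000100010000000000000000))) (.non (nat_lit 1) (nat_lit 3) (nat_lit 0x10500) (nat_lit 0x100000000000100010000000000000000))) (.non (nat_lit 1) (nat_lit 5) (nat_lit 0x10140) (nat_lit 0x100000000000000010001000000000000))) (.non (nat_lit 1) (nat_lit 3) (nat_lit 0x15510) (nat_lit 0x100010001000100010000000100000000))) (.non (nat_lit 2) (nat_lit 3) (nat_lit 0x15504) (nat_lit 0x100010001000100010000000000010000)))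 (.non (nat_lit 2) (nat_lit 3) (nat_lit 0x15505) (nat_lit 0x100010001000100010000000000010001)))) (.split (nat_lit 8) (nat_lit 0) (.split (nat_lit 8) (nat_lit 1) (.split (nat_lit 8) (nat_lit 2) (.split (nat_lit 8) (nat_lit 4) (.split (nat_lit 8) (nat_lit 6) (.split (nat_lit 8) (nat_lit 7) (.split (nat_lit 8) (nat_lit 5) (.unj (nat_lit 0x15) (nat_lit 0x200020001) (nat_lit 0x10540) (nat_lit 0x100000000000100020002000000000000)) (.unj (nat_lit 0x15) (nat_lit 0x200020001) (nat_lit 0x10540) (nat_lit 0x100000000000100010001000000000000))) (.non (nat_lit 1) (nat_lit 5) (nat_lit 0x15140) (nat_lit 0x300020001000000030004000000000000))) (.non (nat_lit 1) (nat_lit 5) (nat_lit 0x15140) (nat_lit 0x300010002000000030004000000000000))) (.non (nat_lit 1) (nat_lit 5) (nat_lit 0x10140) (nat_lit 0x100000000000000010001000000000000))) (.star (nat_lit 8) (nat_lit 2) (nat_lit 3))) (.star (nat_lit 8) (nat_lit 1) (nat_lit 3))) (.non (nat_lit 2) (nat_lit 5) (nat_lit 0x10145) (nat_lit 0x300000000000000030004000000010002))))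 (.split (nat_lit 8) (nat_lit 3) (.split (nat_lit 8) (nat_lit 4) (.split (nat_lit 8) (nat_lit 5) t186_31 (.star (nat_lit 8) (nat_lit 2) (nat_lit 5))) (.non (nat_lit 1) (nat_lit 3) (nat_lit 0x15510) (nat_lit 0x100010001000100010000000100000000))) (.star (nat_lit 8) (nat_lit 2) (nat_lit 3)))) (.split (nat_lit 8) (nat_lit 0) (.split (nat_lit 8) (nat_lit 3) (.split (nat_lit 8) (nat_lit 4) (.split (nat_lit 8) (nat_lit 5) (.split (nat_lit 8) (nat_lit 6) (.split (nat_lit 8) (nat_lit 7) (.split (nat_lit 8) (nat_lit 2) (.st (nat_lit 5) (nat_lit 2) (nat_lit 3) (nat_lit 0x15505) (nat_lit 0x100020002000200010000000000020001) (nat_lit 1) (nat_lit 1) (.st (nat_lit 6) (nat_lit 2) (nat_lit 3) (nat_lit 0x15405) (nat_lit 0x100020002000100000000000000020001) (nat_lit 1) (nat_lit 1) (.st (nat_lit 7) (nat_lit 2) (nat_lit 3) (nat_lit 0x15005) (nat_lit 0x100020001000000000000000000020001) (nat_lit 1) (nat_lit 1) t186_33))) (.split (nat_lit 8) (nat_lit 1) (.split (nat_lit 8) (nat_lit 2) (.split (nat_lit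 7) (nat_lit 1) (.split (nat_lit 7) (nat_lit 2) (.sup (nat_lit 0xa00000000000000000000000a000a0000) (nat_lit 0x100040007000a0008000000000000)) (.non (nat_lit 1) (nat_lit 3) (nat_lit 0x1a810) (nat_lit 0x200030002000100000000000400000000))) (.non (nat_lit 2) (nat_lit 3) (nat_lit 0x1a804) (nat_lit 0x200030002000100000000000000040000))) (.split (nat_lit 8) (nat_lit 2) (.split (nat_lit 7) (nat_lit 1) (.split (nat_lit 7) (nat_lit 2) (.sup (nat_lit 0xa00000000000000000000000900080000) (nat_lit 0x100040007000a0008000000000000)) (.non (nat_lit 1) (nat_lit 3) (nat_lit 0x28010) (nat_lit 0x100010000000000000000000200000000))) (.non (nat_lit 2) (nat_lit 3) (nat_lit 0x1a804) (nat_lit 0x200030002000100000000000000040000))) (.non (nat_lit 1) (nat_lit 3) (nat_lit 0x15410) (nat_lit 0x300030002000100000000000400000000)))) (.non (nat_lit 2) (nat_lit 3) (nat_lit 0x24005) (nat_lit 0x100010000000000000000000000020001)))) (.non (nat_lit 2) (nat_lit 3) (nat_lit 0x14004) (nat_lit 0x100010000000000000000000000010000)))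 (.non (nat_lit 2) (nat_lit 3) (nat_lit 0x15004) (nat_lit 0x100010001000000000000000000010000))) (.star (nat_lit 8) (nat_lit 1) (nat_lit 5))) (.non (nat_lit 2) (nat_lit 3) (nat_lit 0x15504) (nat_lit 0x100010001000100010000000000010000))) (.star (nat_lit 8) (nat_lit 1) (nat_lit 3))) (.non (nat_lit 2) (nat_lit 3) (nat_lit 0x10005) (nat_lit 0x100000000000000000000000000010001))))

noncomputable def t186_35 : Tr := (.split (nat_lit 4) (nat_lit 0) (.split (nat_lit 7) (nat_lit 2) (.ex (nat_lit 1) (.ex (nat_lit 2) t186_23 (.split (nat_lit 8) (nat_lit 3) (.split (nat_lit 8) (nat_lit 5) (.split (nat_lit 8) (nat_lit 0) t186_25 (.split (nat_lit 8) (nat_lit 1) (.split (nat_lit 8) (nat_lit 4) (.split (nat_lit 8) (nat_lit 6) (.split (nat_lit 8) (nat_lit 7) (.split (nat_lit 8) (nat_lit 0) (.split (nat_lit 8) (nat_lit 2) (.split (nat_lit 7) (nat_lit 1) (.sup (nat_lit 0x10004000600080006000000000000) (nat_lit 0x100000000000000000000000100010001)) (.non (nat_lit 2) (nat_lit 3) (nat_lit 0x1a005) (nat_lit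 0x100020001000000000000000000030002))) (.sup (nat_lit 0x39000000000000000000000050002c0000) (nat_lit 0x6001f003700500041000000000000))) (.sup (nat_lit 0x30007000c0010000d000000000000) (nat_lit 0x200000000000000000000000200010002))) (.non (nat_lit 2) (nat_lit 3) (nat_lit 0x14005) (nat_lit 0x100010000000000000000000000010001))) (.non (nat_lit 1) (nat_lit 3) (nat_lit 0x15411) (nat_lit 0x200010002000100000000000100000001))) (.non (nat_lit 1) (nat_lit 5) (nat_lit 0x10151) (nat_lit 0x200000000000000020002000100000001))) (.non (nat_lit 2) (nat_lit 3) (nat_lit 0x10005) (nat_lit 0x100000000000000000000000000010001)))) (.star (nat_lit 8) (nat_lit 2) (nat_lit 5))) (.star (nat_lit 8) (nat_lit 2) (nat_lit 3)))) (.split (nat_lit 8) (nat_lit 0) (.split (nat_lit 8) (nat_lit 3) (.split (nat_lit 8) (nat_lit 4) (.split (nat_lit 8) (nat_lit 5) (.split (nat_lit 8) (nat_lit 6) (.split (nat_lit 8) (nat_lit 7) (.split (nat_lit 8) (nat_lit 2) (.split (nat_lit 8) (nat_lit 1) (.split (nat_lit 7) (nat_lit 1)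 (.sup (nat_lit 0x20006000b0010000d000000000000) (nat_lit 0x100000000000000000000000300030001)) (.non (nat_lit 2) (nat_lit 3) (nat_lit 0x1a804) (nat_lit 0x200030002000100000000000000040000))) (.non (nat_lit 2) (nat_lit 3) (nat_lit 0x24005) (nat_lit 0x100010000000000000000000000020001))) (.sup (nat_lit 0x800000000000000000000000a00070000) (nat_lit 0x100040007000a0008000000000000))) (.non (nat_lit 2) (nat_lit 3) (nat_lit 0x14004) (nat_lit 0x100010000000000000000000000010000))) (.non (nat_lit 2) (nat_lit 3) (nat_lit 0x15004) (nat_lit 0x100010001000000000000000000010000))) (.star (nat_lit 8) (nat_lit 1) (nat_lit 5))) (.non (nat_lit 2) (nat_lit 3) (nat_lit 0x15504) (nat_lit 0x100010001000100010000000000010000))) (.star (nat_lit 8) (nat_lit 1) (nat_lit 3))) (.non (nat_lit 2) (nat_lit 3) (nat_lit 0x10005) (nat_lit 0x100000000000000000000000000010001)))) t186_34) (.non (nat_lit 2) (nat_lit 3) (nat_lit 0x5505) (nat_lit 0x10001000100010000000000010001)))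

noncomputable def t186_36 : Tr := (.ex (nat_lit 3) (.split (nat_lit 7) (nat_lit 0) (.split (nat_lit 7) (nat_lit 2) (.split (nat_lit 7) (nat_lit 6) (.pd (.cons (nat_lit 1) (nat_lit 4) (nat_lit 0) (nat_lit 0x7603700) (nat_lit 0x65b97b71aef423f00000f423ff423f0000061a79) (.cons (nat_lit 2) (nat_lit 4) (nat_lit 0) (nat_lit 0x7603000) (nat_lit 0xa2c28b71aef423f00000f423f00000f423f5b8d4) .nil)) (.ex (nat_lit 4) (.pd (.cons (nat_lit 0) (nat_lit 7) (nat_lit 0x110) (nat_lit 0x5433120) (nat_lit 0xf423fb71aea2c2804737000010000100000) (.cons (nat_lit 1) (nat_lit 6) (nat_lit 0) (nat_lit 0x433700) (nat_lit 0xb71ae00000f423fb71ae1f156f423f00000a2c28) (.cons (nat_lit 1) (nat_lit 7) (nat_lit 0) (nat_lit 0x5433200) (nat_lit 0xf423fb71aea2c2804737f423f00000f423f) (.cons (nat_lit 2) (nat_lit 6) (nat_lit 0) (nat_lit 0x433000) (nat_lit 0xf423f00000f423fb71ae1f15600000f423f7a11d) (.cons (nat_lit 2) (nat_lit 7) (nat_lit 0) (nat_lit 0x5433000) (nat_lit 0xf423fb71aea2c280473700000f423fb71ae) .nil))))) (.leaf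 (.cons (nat_lit 0x4014) (nat_lit 0x10000000000000000000200020000) .nil) .nil)) (.split (nat_lit 8) (nat_lit 0) (.split (nat_lit 8) (nat_lit 1) (.split (nat_lit 8) (nat_lit 2) (.split (nat_lit 8) (nat_lit 3) (.split (nat_lit 8) (nat_lit 5) (.split (nat_lit 8) (nat_lit 6) (.split (nat_lit 8) (nat_lit 7) (.unj (nat_lit 0x15) (nat_lit 0x200020001) (nat_lit 0x10540) (nat_lit 0x100000000000100020002000000000000)) (.non (nat_lit 1) (nat_lit 3) (nat_lit 0x15500) (nat_lit 0x100010001000100010000000000000000))) (.non (nat_lit 1) (nat_lit 3) (nat_lit 0x11500) (nat_lit 0x100000001000100010000000000000000))) (.non (nat_lit 1) (nat_lit 3) (nat_lit 0x10500) (nat_lit 0x100000000000100010000000000000000))) (.non (nat_lit 1) (nat_lit 5) (nat_lit 0x10140) (nat_lit 0x100000000000000010001000000000000))) (.non (nat_lit 1) (nat_lit 3) (nat_lit 0x15510) (nat_lit 0x100010001000100010000000100000000))) (.non (nat_lit 2) (nat_lit 3) (nat_lit 0x15505) (nat_lit 0x100010001000100010000000000010001))) (.non (nat_lit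 1) (nat_lit 3) (nat_lit 0x15501) (nat_lit 0x100010001000100010000000000000001))))) (.non (nat_lit 1) (nat_lit 3) (nat_lit 0x6a10) (nat_lit 0x40003000200010000000200000000))) (.non (nat_lit 1) (nat_lit 3) (nat_lit 0x5021) (nat_lit 0x20001000000000000000100000001))) (.non (nat_lit 1) (nat_lit 3) (nat_lit 0xa021) (nat_lit 0x20001000000000000000100000002))) (.split (nat_lit 8) (nat_lit 0) (.split (nat_lit 8) (nat_lit 1) (.split (nat_lit 8) (nat_lit 2) (.split (nat_lit 8) (nat_lit 4) (.split (nat_lit 8) (nat_lit 5) (.split (nat_lit 8) (nat_lit 6) (.split (nat_lit 8) (nat_lit 7) (.unj (nat_lit 0x15) (nat_lit 0x200020001) (nat_lit 0x10540) (nat_lit 0x100000000000100020002000000000000)) (.non (nat_lit 1) (nat_lit 3) (nat_lit 0x15011) (nat_lit 0x100020001000000000000000100000001))) (.non (nat_lit 1) (nat_lit 3) (nat_lit 0x15411) (nat_lit 0x100020002000100000000000100000001))) (.non (nat_lit 1) (nat_lit 3) (nat_lit 0x15511) (nat_lit 0x100020002000200010000000100000001))) (.non (nat_lit 1)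 (nat_lit 5) (nat_lit 0x10140) (nat_lit 0x100000000000000010001000000000000))) (.star (nat_lit 8) (nat_lit 2) (nat_lit 3))) (.star (nat_lit 8) (nat_lit 1) (nat_lit 3))) (.non (nat_lit 1) (nat_lit 5) (nat_lit 0x14141) (nat_lit 0x300010000000000030004000000000002))))

noncomputable def t186_37 : Tr := (.ex (nat_lit 1) (.ex (nat_lit 2) t186_36 (.split (nat_lit 8) (nat_lit 0) (.split (nat_lit 8) (nat_lit 3) (.split (nat_lit 8) (nat_lit 4) (.split (nat_lit 8) (nat_lit 5) (.split (nat_lit 8) (nat_lit 6) (.split (nat_lit 8) (nat_lit 7) (.split (nat_lit 8) (nat_lit 1) (.split (nat_lit 8) (nat_lit 2) (.split (nat_lit 7) (nat_lit 0) (.split (nat_lit 7) (nat_lit 2) (.sup (nat_lit 0x90031005800800068000000000000) (nat_lit 0xb00000000000000000000001700180007)) (.non (nat_lit 1) (nat_lit 3) (nat_lit 0x1a810) (nat_lit 0x200030002000100000000000400000000))) (.non (nat_lit 1) (nat_lit 3) (nat_lit 0xa021) (nat_lit 0x20001000000000000000100000002))) (.non (nat_lit 1) (nat_lit 3) (nat_lit 0x25011) (nat_lit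 0x100020001000000000000000200000001))) (.sup (nat_lit 0x8000000000000000000000007000a0000) (nat_lit 0x100040007000a0008000000000000))) (.non (nat_lit 1) (nat_lit 3) (nat_lit 0x14010) (nat_lit 0x100010000000000000000000100000000))) (.non (nat_lit 1) (nat_lit 3) (nat_lit 0x15010) (nat_lit 0x100010001000000000000000100000000))) (.star (nat_lit 8) (nat_lit 2) (nat_lit 5))) (.non (nat_lit 1) (nat_lit 3) (nat_lit 0x15510) (nat_lit 0x100010001000100010000000100000000))) (.star (nat_lit 8) (nat_lit 2) (nat_lit 3))) (.non (nat_lit 1) (nat_lit 3) (nat_lit 0x14011) (nat_lit 0x100010000000000000000000100000001)))) (.split (nat_lit 8) (nat_lit 0) (.split (nat_lit 8) (nat_lit 3) (.split (nat_lit 8) (nat_lit 4) (.split (nat_lit 8) (nat_lit 5) (.split (nat_lit 8) (nat_lit 6) (.split (nat_lit 8) (nat_lit 7) (.split (nat_lit 8) (nat_lit 2) (.split (nat_lit 8) (nat_lit 1) (.split (nat_lit 7) (nat_lit 0) (.split (nat_lit 7) (nat_lit 2) (.sup (nat_lit 0x3000d00160020001a000000000000) (nat_lit 0x300000000000000000000000500070002))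 (.non (nat_lit 1) (nat_lit 3) (nat_lit 0x5021) (nat_lit 0x20001000000000000000100000001))) (.non (nat_lit 1) (nat_lit 3) (nat_lit 0xa021) (nat_lit 0x20001000000000000000100000002))) (.sup (nat_lit 0x3900000000000000000000002c00500000) (nat_lit 0x6001f003700500041000000000000))) (.sup (nat_lit 0x8000000000000000000000007000a0000) (nat_lit 0x100040007000a0008000000000000))) (.non (nat_lit 1) (nat_lit 3) (nat_lit 0x15011) (nat_lit 0x100020001000000000000000100000001))) (.non (nat_lit 1) (nat_lit 3) (nat_lit 0x15411) (nat_lit 0x100020002000100000000000100000001))) (.star (nat_lit 8) (nat_lit 1) (nat_lit 5))) (.non (nat_lit 2) (nat_lit 3) (nat_lit 0x15505) (nat_lit 0x100010001000100010000000000010001))) (.star (nat_lit 8) (nat_lit 1) (nat_lit 3))) (.non (nat_lit 2) (nat_lit 3) (nat_lit 0x10005) (nat_lit 0x100000000000000000000000000010001))))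

noncomputable def t186 : Tr := (.split (nat_lit 7) (nat_lit 0) (.split (nat_lit 7) (nat_lit 1) (.split (nat_lit 7) (nat_lit 2) t186_8 t186_19) (.split (nat_lit 6) (nat_lit 0) t186_35 (.non (nat_lit 2) (nat_lit 3) (nat_lit 0x5005) (nat_lit 0x10001000000000000000000010001)))) (.split (nat_lit 7) (nat_lit 1) (.split (nat_lit 6) (nat_lit 0) (.split (nat_lit 4) (nat_lit 0) (.split (nat_lit 7) (nat_lit 2) (.split (nat_lit 7) (nat_lit 0) (.sup (nat_lit 0x9000a0004) (nat_lit 0x100040007000a0008000000000000)) (.non (nat_lit 2) (nat_lit 3) (nat_lit 0xa805) (nat_lit 0x30002000100000000000000020004))) (.st (nat_lit 5) (nat_lit 1) (nat_lit 3) (nat_lit 0x5511) (nat_lit 0x20002000200010000000100000001) (nat_lit 1) (nat_lit 1) (.st (nat_lit 6) (nat_lit 1) (nat_lit 3) (nat_lit 0x5411) (nat_lit 0x20002000100000000000100000001) (nat_lit 1) (nat_lit 1) (.st (nat_lit 7) (nat_lit 1) (nat_lit 3) (nat_lit 0x5011) (nat_lit 0x20001000000000000000100000001) (nat_lit 1) (nat_lit 1) t186_37)))) (.non (nat_lit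 1) (nat_lit 3) (nat_lit 0x5501) (nat_lit 0x10001000100010000000000000001))) (.non (nat_lit 1) (nat_lit 3) (nat_lit 0x5001) (nat_lit 0x10001000000000000000000000001))) (.non (nat_lit 2) (nat_lit 3) (nat_lit 0x4005) (nat_lit 0x10000000000000000000000010001))))

noncomputable def t189_1 : Tr := (.ex (nat_lit 7) (.split (nat_lit 8) (nat_lit 7) (.pd (.cons (nat_lit 0) (nat_lit 3) (nat_lit 0x110) (nat_lit 0x765440120) (nat_lit 0xf423fb71aea2c2898965927bd00000000010000100000) (.cons (nat_lit 1) (nat_lit 3) (nat_lit 0) (nat_lit 0x765440200) (nat_lit 0xf423fb71aea2c2898965927bd00000f423f00000f423f) (.cons (nat_lit 2) (nat_lit 3) (nat_lit 0) (nat_lit 0x765440000) (nat_lit 0xf423fb71aea2c2898965927bd0000000000f423fb71ae) .nil))) (.split (nat_lit 3) (nat_lit 0) (.leaf (.cons (nat_lit 0x541) (nat_lit 0x100020002000000000001) .nil) (.cons (nat_lit 0x1001) (nat_lit 0x10010) (nat_lit 0) (nat_lit 0x1000) .nil)) (.non (nat_lit 1) (nat_lit 5) (nat_lit 0x141) (nat_lit 0x10001000000000001)))) (.split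 (nat_lit 8) (nat_lit 7) (.pd (.cons (nat_lit 0) (nat_lit 3) (nat_lit 0x110) (nat_lit 0x765440120) (nat_lit 0xf423f7a11e7a11c7a11a7a11800000000010000100000) (.cons (nat_lit 1) (nat_lit 3) (nat_lit 0) (nat_lit 0x765440200) (nat_lit 0xf423f7a11e7a11c7a11a7a11800000f423f00000f423f) (.cons (nat_lit 2) (nat_lit 3) (nat_lit 0) (nat_lit 0x765440000) (nat_lit 0xf423f7a11e7a11c7a11a7a1180000000000f423fb71ae) .nil))) (.st (nat_lit 8) (nat_lit 1) (nat_lit 4) (nat_lit 0x25400) (nat_lit 0x200030002000100000000000000000000) (nat_lit 2) (nat_lit 1) (.split (nat_lit 3) (nat_lit 0) (.leaf (.cons (nat_lit 0x541) (nat_lit 0x100020002000000000001) .nil) (.cons (nat_lit 0x1001) (nat_lit 0x10010) (nat_lit 0) (nat_lit 0x1000) .nil)) (.non (nat_lit 1) (nat_lit 5) (nat_lit 0x141) (nat_lit 0x10001000000000001))))) (.unj (nat_lit 0x15) (nat_lit 0x200020001) (nat_lit 0x15500) (nat_lit 0x300040003000200010000000000000000)))) (.split (nat_lit 9) (nat_lit 0) (.split (nat_lit 9) (nat_lit 1) (.split (nat_lit 9) (nat_lit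 2) (.split (nat_lit 9) (nat_lit 3) (.split (nat_lit 9) (nat_lit 4) (.split (nat_lit 9) (nat_lit 5) (.split (nat_lit 9) (nat_lit 6) (.split (nat_lit 9) (nat_lit 8) (.st (nat_lit 7) (nat_lit 1) (nat_lit 4) (nat_lit 0x55000) (nat_lit 0x1000100020001000000000000000000000000) (nat_lit 1) (nat_lit 1) (.split (nat_lit 8) (nat_lit 7) (.split (nat_lit 9) (nat_lit 7) (.pd (.cons (nat_lit 0) (nat_lit 3) (nat_lit 0x110) (nat_lit 0x7765440120) (nat_lit 0xf423ff423f7a11d7a11b7a1197a11700000000010000100000) (.cons (nat_lit 1) (nat_lit 3) (nat_lit 0) (nat_lit 0x7765440200) (nat_lit 0xf423ff423f7a11d7a11b7a1197a11700000f423f00000f423f) (.cons (nat_lit 2) (nat_lit 3) (nat_lit 0) (nat_lit 0x7765440000) (nat_lit 0xf423ff423f7a11d7a11b7a1197a1170000000000f423fb71ae) .nil))) (.split (nat_lit 3) (nat_lit 0) (.leaf (.cons (nat_lit 0x541) (nat_lit 0x100020002000000000001) .nil) (.cons (nat_lit 0x1001) (nat_lit 0x10010) (nat_lit 0) (nat_lit 0x1000) .nil)) (.non (nat_lit 1) (nat_lit 5) (nat_lit 0x141) (nat_lit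 0x10001000000000001)))) (.non (nat_lit 1) (nat_lit 4) (nat_lit 0x95000) (nat_lit 0x1000100020001000000000000000000000000))) (.non (nat_lit 1) (nat_lit 4) (nat_lit 0x65000) (nat_lit 0x1000100020001000000000000000000000000)))) (.non (nat_lit 1) (nat_lit 4) (nat_lit 0x54000) (nat_lit 0x1000100010000000000000000000000000000))) (.non (nat_lit 1) (nat_lit 4) (nat_lit 0x45000) (nat_lit 0x1000000010001000000000000000000000000))) (.non (nat_lit 1) (nat_lit 4) (nat_lit 0x45400) (nat_lit 0x1000000010001000100000000000000000000))) (.non (nat_lit 1) (nat_lit 5) (nat_lit 0x54140) (nat_lit 0x3000100020000000000040003000000000000))) (.non (nat_lit 1) (nat_lit 5) (nat_lit 0x54140) (nat_lit 0x3000100020000000000030004000000000000))) (.non (nat_lit 0) (nat_lit 4) (nat_lit 0x40014) (nat_lit 0x1000000000000000000000000000200020000))) (.non (nat_lit 2) (nat_lit 5) (nat_lit 0x40145) (nat_lit 0x1000000000000000000030004000000020003))) (.non (nat_lit 1) (nat_lit 5) (nat_lit 0x44141) (nat_lit 0x2000000010000000000030004000000000003))))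

noncomputable def t189_2 : Tr := (.ex (nat_lit 8) (.split (nat_lit 8) (nat_lit 6) (.pd (.cons (nat_lit 0) (nat_lit 3) (nat_lit 0x110) (nat_lit 0x665440120) (nat_lit 0xf423ff423f7a11d7a11b7a11900000000010000100000) (.cons (nat_lit 1) (nat_lit 3) (nat_lit 0) (nat_lit 0x665440200) (nat_lit 0xf423ff423f7a11d7a11b7a11900000f423f00000f423f) (.cons (nat_lit 2) (nat_lit 3) (nat_lit 0) (nat_lit 0x665440000) (nat_lit 0xf423ff423f7a11d7a11b7a1190000000000f423fb71ae) .nil))) (.split (nat_lit 3) (nat_lit 0) (.leaf (.cons (nat_lit 0x11540) (nat_lit 0x100000002000300040003000000000000) (.cons (nat_lit 0x541) (nat_lit 0x100020002000000000001) .nil)) (.cons (nat_lit 0x1001) (nat_lit 0x10010) (nat_lit 0) (nat_lit 0x1000) .nil)) (.non (nat_lit 1) (nat_lit 5) (nat_lit 0x141) (nat_lit 0x10001000000000001)))) (.non (nat_lit 1) (nat_lit 4) (nat_lit 0x25400) (nat_lit 0x100010002000100000000000000000000))) (.split (nat_lit 9) (nat_lit 0) (.split (nat_lit 9) (nat_lit 1) (.split (nat_lit 9) (nat_lit 2) (.split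 (nat_lit 9) (nat_lit 3) (.split (nat_lit 9) (nat_lit 4) (.split (nat_lit 9) (nat_lit 5) (.split (nat_lit 9) (nat_lit 6) (.split (nat_lit 9) (nat_lit 7) (.st (nat_lit 8) (nat_lit 1) (nat_lit 4) (nat_lit 0x55400) (nat_lit 0x1000200010002000100000000000000000000) (nat_lit 1) (nat_lit 1) (.split (nat_lit 8) (nat_lit 6) (.split (nat_lit 9) (nat_lit 8) (.pd (.cons (nat_lit 0) (nat_lit 3) (nat_lit 0x110) (nat_lit 0x8665440120) (nat_lit 0xf423fb71aef423f65b9761a795b8cc00000000010000100000) (.cons (nat_lit 1) (nat_lit 3) (nat_lit 0) (nat_lit 0x8665440200) (nat_lit 0xf423fb71aef423f65b9761a795b8cc00000f423f00000f423f) (.cons (nat_lit 2) (nat_lit 3) (nat_lit 0) (nat_lit 0x8665440000) (nat_lit 0xf423fb71aef423f65b9761a795b8cc0000000000f423fb71ae) .nil))) (.split (nat_lit 3) (nat_lit 0) (.leaf (.cons (nat_lit 0x11540) (nat_lit 0x100000002000300040003000000000000) (.cons (nat_lit 0x541) (nat_lit 0x100020002000000000001) .nil)) (.cons (nat_lit 0x1001) (nat_lit 0x10010) (nat_lit 0) (nat_lit 0x1000)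 .nil)) (.non (nat_lit 1) (nat_lit 5) (nat_lit 0x141) (nat_lit 0x10001000000000001)))) (.non (nat_lit 1) (nat_lit 4) (nat_lit 0x95400) (nat_lit 0x1000200010002000100000000000000000000))) (.non (nat_lit 1) (nat_lit 4) (nat_lit 0x25400) (nat_lit 0x100010002000100000000000000000000)))) (.non (nat_lit 1) (nat_lit 4) (nat_lit 0x55000) (nat_lit 0x1000100010001000000000000000000000000))) (.non (nat_lit 1) (nat_lit 4) (nat_lit 0x51000) (nat_lit 0x1000100000001000000000000000000000000))) (.non (nat_lit 1) (nat_lit 4) (nat_lit 0x51400) (nat_lit 0x1000100000001000100000000000000000000))) (.non (nat_lit 1) (nat_lit 5) (nat_lit 0x51140) (nat_lit 0x3000200000001000000040003000000000000))) (.non (nat_lit 1) (nat_lit 5) (nat_lit 0x51140) (nat_lit 0x3000200000001000000030004000000000000))) (.non (nat_lit 0) (nat_lit 4) (nat_lit 0x40014) (nat_lit 0x1000000000000000000000000000200020000))) (.non (nat_lit 2) (nat_lit 5) (nat_lit 0x40145) (nat_lit 0x1000000000000000000030004000000020003))) (.non (nat_lit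 1) (nat_lit 5) (nat_lit 0x50141) (nat_lit 0x2000100000000000000030004000000000003))))

noncomputable def t189_3 : Tr := (.split (nat_lit 9) (nat_lit 8) (.st (nat_lit 7) (nat_lit 1) (nat_lit 4) (nat_lit 0x55400) (nat_lit 0x1000100020002000100000000000000000000) (nat_lit 1) (nat_lit 1) (.ex (nat_lit 8) (.split (nat_lit 8) (nat_lit 6) (.split (nat_lit 9) (nat_lit 7) (.pd (.cons (nat_lit 0) (nat_lit 3) (nat_lit 0x110) (nat_lit 0x7665440120) (nat_lit 0xf423ff423fb71ae65b9761a795b8cc00000000010000100000) (.cons (nat_lit 1) (nat_lit 3) (nat_lit 0) (nat_lit 0x7665440200) (nat_lit 0xf423ff423fb71ae65b9761a795b8cc00000f423f00000f423f) (.cons (nat_lit 2) (nat_lit 3) (nat_lit 0) (nat_lit 0x7665440000) (nat_lit 0xf423ff423fb71ae65b9761a795b8cc0000000000f423fb71ae) .nil))) (.split (nat_lit 3) (nat_lit 0) (.leaf (.cons (nat_lit 0x11540) (nat_lit 0x100000002000300040003000000000000) (.cons (nat_lit 0x541) (nat_lit 0x100020002000000000001) .nil)) (.cons (nat_lit 0x1001) (nat_lit 0x10010) (nat_lit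 0) (nat_lit 0x1000) .nil)) (.non (nat_lit 1) (nat_lit 5) (nat_lit 0x141) (nat_lit 0x10001000000000001)))) (.non (nat_lit 1) (nat_lit 4) (nat_lit 0x95400) (nat_lit 0x1000100020002000100000000000000000000))) (.non (nat_lit 1) (nat_lit 4) (nat_lit 0x25400) (nat_lit 0x100010002000100000000000000000000))) (.split (nat_lit 0xa) (nat_lit 0) (.split (nat_lit 0xa) (nat_lit 1) (.split (nat_lit 0xa) (nat_lit 2) (.split (nat_lit 0xa) (nat_lit 3) (.split (nat_lit 0xa) (nat_lit 4) (.split (nat_lit 0xa) (nat_lit 5) (.split (nat_lit 0xa) (nat_lit 6) (.split (nat_lit 0xa) (nat_lit 7) (.split (nat_lit 0xa) (nat_lit 9) (.sup (nat_lit 0x5000500090009000f000b00070002000000000000) (nat_lit 0xe00100007)) (.non (nat_lit 1) (nat_lit 4) (nat_lit 0x155000) (nat_lit 0x10001000100010001000000000000000000000000))) (.non (nat_lit 1) (nat_lit 4) (nat_lit 0x115000) (nat_lit 0x10000000100010001000000000000000000000000))) (.non (nat_lit 1) (nat_lit 4) (nat_lit 0x111000) (nat_lit 0x10000000100000001000000000000000000000000)))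 (.non (nat_lit 1) (nat_lit 4) (nat_lit 0x111400) (nat_lit 0x10000000100000001000100000000000000000000))) (.non (nat_lit 1) (nat_lit 5) (nat_lit 0x111140) (nat_lit 0x30000000200000001000000040003000000000000))) (.non (nat_lit 1) (nat_lit 5) (nat_lit 0x111140) (nat_lit 0x30000000200000001000000030004000000000000))) (.non (nat_lit 0) (nat_lit 4) (nat_lit 0x100014) (nat_lit 0x10000000000000000000000000000000200020000))) (.non (nat_lit 2) (nat_lit 4) (nat_lit 0x155445) (nat_lit 0x40002000500040006000300000001000000030002))) (.non (nat_lit 1) (nat_lit 5) (nat_lit 0x110141) (nat_lit 0x20000000100000000000000030004000000000003))))) (.non (nat_lit 1) (nat_lit 4) (nat_lit 0x55000) (nat_lit 0x1000100010001000000000000000000000000)))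

noncomputable def t189_4 : Tr := (.ex (nat_lit 6) (.pd (.cons (nat_lit 0) (nat_lit 7) (nat_lit 0x110) (nat_lit 0x5433120) (nat_lit 0xf423fb71aea2c2804737000010000100000) .nil) (.ex (nat_lit 7) (.pd (.cons (nat_lit 0) (nat_lit 3) (nat_lit 0x110) (nat_lit 0x65440120) (nat_lit 0xf423fb71aea2c289896500000000010000100000) (.cons (nat_lit 1) (nat_lit 3) (nat_lit 0) (nat_lit 0x65440200) (nat_lit 0xf423fb71aea2c289896500000f423f00000f423f) (.cons (nat_lit 2) (nat_lit 3) (nat_lit 0) (nat_lit 0x65440000) (nat_lit 0xf423fb71aea2c28989650000000000f423fb71ae) .nil))) (.split (nat_lit 3) (nat_lit 0) (.leaf (.cons (nat_lit 0x541) (nat_lit 0x100020002000000000001) .nil) (.cons (nat_lit 0x1001) (nat_lit 0x10010) (nat_lit 0) (nat_lit 0x1000) .nil)) (.non (nat_lit 1) (nat_lit 5) (nat_lit 0x141) (nat_lit 0x10001000000000001)))) (.split (nat_lit 8) (nat_lit 0) (.split (nat_lit 8) (nat_lit 1) (.split (nat_lit 8) (nat_lit 2) (.split (nat_lit 8) (nat_lit 3) (.split (nat_lit 8) (nat_lit 4) (.split (nat_lit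 8) (nat_lit 5) (.split (nat_lit 8) (nat_lit 6) t189_1 (.non (nat_lit 1) (nat_lit 4) (nat_lit 0x15000) (nat_lit 0x100010001000000000000000000000000))) (.non (nat_lit 1) (nat_lit 4) (nat_lit 0x15400) (nat_lit 0x100010001000100000000000000000000))) (.non (nat_lit 1) (nat_lit 5) (nat_lit 0x15140) (nat_lit 0x300020001000000040003000000000000))) (.non (nat_lit 1) (nat_lit 5) (nat_lit 0x15140) (nat_lit 0x300020001000000030004000000000000))) (.non (nat_lit 0) (nat_lit 4) (nat_lit 0x10014) (nat_lit 0x100000000000000000000000200020000))) (.non (nat_lit 2) (nat_lit 5) (nat_lit 0x10145) (nat_lit 0x100000000000000030004000000020003))) (.non (nat_lit 1) (nat_lit 5) (nat_lit 0x14141) (nat_lit 0x200010000000000030004000000000003))))) (.split (nat_lit 8) (nat_lit 0) (.split (nat_lit 8) (nat_lit 1) (.split (nat_lit 8) (nat_lit 2) (.split (nat_lit 8) (nat_lit 3) (.split (nat_lit 8) (nat_lit 4) (.split (nat_lit 8) (nat_lit 5) (.split (nat_lit 8) (nat_lit 7) (.st (nat_lit 6) (nat_lit 1) (nat_lit 4) (nat_lit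 0x15400) (nat_lit 0x100010002000100000000000000000000) (nat_lit 1) (nat_lit 1) (.ex (nat_lit 7) t189_2 (.split (nat_lit 9) (nat_lit 0) (.split (nat_lit 9) (nat_lit 1) (.split (nat_lit 9) (nat_lit 2) (.split (nat_lit 9) (nat_lit 3) (.split (nat_lit 9) (nat_lit 4) (.split (nat_lit 9) (nat_lit 5) (.split (nat_lit 9) (nat_lit 6) t189_3 (.non (nat_lit 1) (nat_lit 4) (nat_lit 0x45000) (nat_lit 0x1000000010001000000000000000000000000))) (.non (nat_lit 1) (nat_lit 4) (nat_lit 0x45400) (nat_lit 0x1000000010001000100000000000000000000))) (.non (nat_lit 1) (nat_lit 5) (nat_lit 0x45140) (nat_lit 0x3000000020001000000040003000000000000))) (.non (nat_lit 1) (nat_lit 5) (nat_lit 0x45140) (nat_lit 0x3000000020001000000030004000000000000))) (.non (nat_lit 0) (nat_lit 4) (nat_lit 0x40014) (nat_lit 0x1000000000000000000000000000200020000))) (.non (nat_lit 2) (nat_lit 5) (nat_lit 0x40145) (nat_lit 0x1000000000000000000030004000000020003))) (.non (nat_lit 1) (nat_lit 5) (nat_lit 0x44141) (nat_lit 0x2000000010000000000030004000000000003)))))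 (.non (nat_lit 1) (nat_lit 4) (nat_lit 0x15000) (nat_lit 0x100010001000000000000000000000000))) (.non (nat_lit 1) (nat_lit 4) (nat_lit 0x11400) (nat_lit 0x100000001000100000000000000000000))) (.non (nat_lit 1) (nat_lit 5) (nat_lit 0x15140) (nat_lit 0x300010002000000040003000000000000))) (.non (nat_lit 1) (nat_lit 5) (nat_lit 0x15140) (nat_lit 0x300010002000000030004000000000000))) (.non (nat_lit 0) (nat_lit 4) (nat_lit 0x10014) (nat_lit 0x100000000000000000000000200020000))) (.non (nat_lit 2) (nat_lit 5) (nat_lit 0x10145) (nat_lit 0x100000000000000030004000000020003))) (.non (nat_lit 1) (nat_lit 5) (nat_lit 0x11141) (nat_lit 0x200000001000000030004000000000003))))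

noncomputable def t189_5 : Tr := (.ex (nat_lit 8) (.split (nat_lit 8) (nat_lit 5) (.pd (.cons (nat_lit 0) (nat_lit 3) (nat_lit 0x110) (nat_lit 0x565440120) (nat_lit 0xf423ff423fb71ae65b9761a7900000000010000100000) (.cons (nat_lit 0) (nat_lit 6) (nat_lit 0x110) (nat_lit 0x570433120) (nat_lit 0xf423ff423f00000b71aea2c2804737000010000100000) (.cons (nat_lit 1) (nat_lit 3) (nat_lit 0) (nat_lit 0x565440200) (nat_lit 0xf423ff423fb71ae65b9761a7900000f423f00000f423f) (.cons (nat_lit 2) (nat_lit 3) (nat_lit 0) (nat_lit 0x565440000) (nat_lit 0xf423ff423fb71ae65b9761a790000000000f423fb71ae) .nil)))) (.split (nat_lit 3) (nat_lit 0) (.leaf (.cons (nat_lit 0x11540) (nat_lit 0x100000001000200020002000000000000) (.cons (nat_lit 0x541) (nat_lit 0x100020002000000000001) .nil)) (.cons (nat_lit 0x1001) (nat_lit 0x10010) (nat_lit 0) (nat_lit 0x1000) .nil)) (.non (nat_lit 1) (nat_lit 5) (nat_lit 0x141) (nat_lit 0x10001000000000001)))) (.unj (nat_lit 0x15) (nat_lit 0x200020001) (nat_lit 0x21500) (nat_lit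 0x100000001000200010000000000000000))) (.split (nat_lit 9) (nat_lit 0) (.split (nat_lit 9) (nat_lit 1) (.split (nat_lit 9) (nat_lit 2) (.split (nat_lit 9) (nat_lit 3) (.split (nat_lit 9) (nat_lit 4) (.split (nat_lit 9) (nat_lit 5) (.split (nat_lit 9) (nat_lit 6) (.split (nat_lit 9) (nat_lit 7) (.split (nat_lit 9) (nat_lit 8) (.split (nat_lit 8) (nat_lit 5) (.split (nat_lit 3) (nat_lit 0) (.sup (nat_lit 0x3000700030007000b00080003000000000000) (nat_lit 0xe00100007)) (.non (nat_lit 1) (nat_lit 5) (nat_lit 0x141) (nat_lit 0x10001000000000001))) (.non (nat_lit 1) (nat_lit 4) (nat_lit 0xa5400) (nat_lit 0x1000200010002000300000000000000000000))) (.unj (nat_lit 0x15) (nat_lit 0x200020001) (nat_lit 0x91500) (nat_lit 0x1000200000001000200010000000000000000))) (.non (nat_lit 1) (nat_lit 4) (nat_lit 0x55400) (nat_lit 0x1000100010001000100000000000000000000))) (.non (nat_lit 1) (nat_lit 4) (nat_lit 0x51400) (nat_lit 0x1000100000001000100000000000000000000))) (.non (nat_lit 1) (nat_lit 4) (nat_lit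 0x50400) (nat_lit 0x1000100000000000100000000000000000000))) (.non (nat_lit 1) (nat_lit 5) (nat_lit 0x40141) (nat_lit 0x1000000000000000000020002000000000001))) (.non (nat_lit 1) (nat_lit 5) (nat_lit 0x40141) (nat_lit 0x1000000000000000000020002000000000001))) (.non (nat_lit 0) (nat_lit 4) (nat_lit 0x40014) (nat_lit 0x1000000000000000000000000000200020000))) (.non (nat_lit 2) (nat_lit 5) (nat_lit 0x40145) (nat_lit 0x1000000000000000000030004000000020003))) (.non (nat_lit 1) (nat_lit 5) (nat_lit 0x50141) (nat_lit 0x2000100000000000000030004000000000003))))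

noncomputable def t189_6 : Tr := (.ex (nat_lit 6) (.ex (nat_lit 7) t189_5 (.split (nat_lit 9) (nat_lit 0) (.split (nat_lit 9) (nat_lit 1) (.split (nat_lit 9) (nat_lit 2) (.split (nat_lit 9) (nat_lit 3) (.split (nat_lit 9) (nat_lit 4) (.split (nat_lit 9) (nat_lit 5) (.split (nat_lit 9) (nat_lit 6) (.split (nat_lit 9) (nat_lit 8) (.split (nat_lit 9) (nat_lit 7) (.split (nat_lit 8) (nat_lit 5) (.split (nat_lit 3) (nat_lit 0) (.sup (nat_lit 0x3000500050008000b00080004000000000000) (nat_lit 0xe00100006)) (.non (nat_lit 1) (nat_lit 5) (nat_lit 0x141) (nat_lit 0x10001000000000001))) (.unj (nat_lit 0x15) (nat_lit 0x200020001) (nat_lit 0x21500) (nat_lit 0x100000001000200010000000000000000))) (.sup (nat_lit 0x600050009000a000a00060002000000000000) (nat_lit 0xe00100007))) (.non (nat_lit 1) (nat_lit 4) (nat_lit 0x55400) (nat_lit 0x1000100010001000100000000000000000000))) (.non (nat_lit 1) (nat_lit 4) (nat_lit 0x45000) (nat_lit 0x1000000010001000000000000000000000000))) (.non (nat_lit 1) (nat_lit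 4) (nat_lit 0x45400) (nat_lit 0x1000000010001000100000000000000000000))) (.non (nat_lit 1) (nat_lit 5) (nat_lit 0x45140) (nat_lit 0x3000000020001000000040003000000000000))) (.non (nat_lit 1) (nat_lit 5) (nat_lit 0x45140) (nat_lit 0x3000000020001000000030004000000000000))) (.non (nat_lit 0) (nat_lit 4) (nat_lit 0x40014) (nat_lit 0x1000000000000000000000000000200020000))) (.non (nat_lit 2) (nat_lit 5) (nat_lit 0x40145) (nat_lit 0x1000000000000000000030004000000020003))) (.non (nat_lit 1) (nat_lit 5) (nat_lit 0x44141) (nat_lit 0x2000000010000000000030004000000000003)))) (.split (nat_lit 9) (nat_lit 0) (.split (nat_lit 9) (nat_lit 1) (.split (nat_lit 9) (nat_lit 2) (.split (nat_lit 9) (nat_lit 3) (.split (nat_lit 9) (nat_lit 4) (.split (nat_lit 9) (nat_lit 5) (.split (nat_lit 9) (nat_lit 7) (.split (nat_lit 9) (nat_lit 8) (.sup (nat_lit 0x500050005000a000a00060001000000000000) (nat_lit 0xe00100007)) (.non (nat_lit 1) (nat_lit 4) (nat_lit 0x51400) (nat_lit 0x1000100000001000100000000000000000000)))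 (.non (nat_lit 1) (nat_lit 4) (nat_lit 0x45000) (nat_lit 0x1000000010001000000000000000000000000))) (.non (nat_lit 1) (nat_lit 4) (nat_lit 0x41400) (nat_lit 0x1000000000001000100000000000000000000))) (.non (nat_lit 1) (nat_lit 5) (nat_lit 0x45140) (nat_lit 0x3000000010002000000040003000000000000))) (.non (nat_lit 1) (nat_lit 5) (nat_lit 0x45140) (nat_lit 0x3000000010002000000030004000000000000))) (.non (nat_lit 0) (nat_lit 4) (nat_lit 0x40014) (nat_lit 0x1000000000000000000000000000200020000))) (.non (nat_lit 2) (nat_lit 5) (nat_lit 0x40145) (nat_lit 0x1000000000000000000030004000000020003))) (.non (nat_lit 1) (nat_lit 5) (nat_lit 0x41141) (nat_lit 0x2000000000001000000030004000000000003))))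

noncomputable def t189_7 : Tr := (.ex (nat_lit 5) (.pd (.cons (nat_lit 0) (nat_lit 6) (nat_lit 0x110) (nat_lit 0x70433120) (nat_lit 0xf423f00000f423fb71ae1f156000010000100000) (.cons (nat_lit 0) (nat_lit 7) (nat_lit 0x110) (nat_lit 0x5433120) (nat_lit 0xf423fb71aea2c2804737000010000100000) .nil)) (.ex (nat_lit 7) (.pd (.cons (nat_lit 0) (nat_lit 3) (nat_lit 0x110) (nat_lit 0x65440120) (nat_lit 0xf423f7a11e7a11c7a11a00000000010000100000) (.cons (nat_lit 1) (nat_lit 3) (nat_lit 0) (nat_lit 0x65440200) (nat_lit 0xf423f7a11e7a11c7a11a00000f423f00000f423f) (.cons (nat_lit 2) (nat_lit 3) (nat_lit 0) (nat_lit 0x65440000) (nat_lit 0xf423f7a11e7a11c7a11a0000000000f423fb71ae) .nil))) (.split (nat_lit 3) (nat_lit 0) (.leaf (.cons (nat_lit 0x541) (nat_lit 0x100020002000000000001) .nil) (.cons (nat_lit 0x1001) (nat_lit 0x10010) (nat_lit 0) (nat_lit 0x1000) .nil)) (.non (nat_lit 1) (nat_lit 5) (nat_lit 0x141) (nat_lit 0x10001000000000001)))) (.split (nat_lit 8) (nat_lit 0) (.split (nat_lit 8)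 (nat_lit 1) (.split (nat_lit 8) (nat_lit 2) (.split (nat_lit 8) (nat_lit 3) (.split (nat_lit 8) (nat_lit 4) (.split (nat_lit 8) (nat_lit 5) (.split (nat_lit 8) (nat_lit 6) (.unj (nat_lit 0x15) (nat_lit 0x200020001) (nat_lit 0x29500) (nat_lit 0x100020003000200010000000000000000)) (.non (nat_lit 1) (nat_lit 4) (nat_lit 0x15000) (nat_lit 0x100010001000000000000000000000000))) (.non (nat_lit 1) (nat_lit 4) (nat_lit 0x15400) (nat_lit 0x100010001000100000000000000000000))) (.non (nat_lit 1) (nat_lit 5) (nat_lit 0x15140) (nat_lit 0x100010001000000010001000000000000))) (.non (nat_lit 1) (nat_lit 4) (nat_lit 0x16840) (nat_lit 0x200030002000100000001000000000000))) (.non (nat_lit 1) (nat_lit 4) (nat_lit 0x16810) (nat_lit 0x200030002000100000000000100000000))) (.non (nat_lit 2) (nat_lit 4) (nat_lit 0x16804) (nat_lit 0x200030002000100000000000000010000))) (.non (nat_lit 1) (nat_lit 4) (nat_lit 0x16801) (nat_lit 0x200030002000100000000000000000001))))) (.split (nat_lit 8) (nat_lit 0) (.split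 (nat_lit 8) (nat_lit 1) (.split (nat_lit 8) (nat_lit 2) (.split (nat_lit 8) (nat_lit 3) (.split (nat_lit 8) (nat_lit 4) (.split (nat_lit 8) (nat_lit 6) (.split (nat_lit 8) (nat_lit 7) (.unj (nat_lit 0x15) (nat_lit 0x200020001) (nat_lit 0x19500) (nat_lit 0x100010002000200010000000000000000)) (.non (nat_lit 1) (nat_lit 4) (nat_lit 0x15400) (nat_lit 0x100010001000100000000000000000000))) (.non (nat_lit 1) (nat_lit 4) (nat_lit 0x11400) (nat_lit 0x100000001000100000000000000000000))) (.non (nat_lit 1) (nat_lit 5) (nat_lit 0x10141) (nat_lit 0x100000000000000020002000000000001))) (.non (nat_lit 1) (nat_lit 5) (nat_lit 0x10141) (nat_lit 0x100000000000000020002000000000001))) (.star (nat_lit 8) (nat_lit 2) (nat_lit 5))) (.star (nat_lit 8) (nat_lit 1) (nat_lit 5))) (.non (nat_lit 2) (nat_lit 4) (nat_lit 0x19445) (nat_lit 0x200010002000200000001000000010002))))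

noncomputable def t189_8 : Tr := (.split (nat_lit 7) (nat_lit 6) (.pd (.cons (nat_lit 0) (nat_lit 4) (nat_lit 0x110) (nat_lit 0x65503120) (nat_lit 0xf423fb71aea2c2800000f423f000010000100000) (.cons (nat_lit 0) (nat_lit 5) (nat_lit 0x110) (nat_lit 0x66033120) (nat_lit 0xf423fb71ae00000f423f54591000010000100000) .nil)) (.ex (nat_lit 5) (.pd (.cons (nat_lit 0) (nat_lit 6) (nat_lit 0x110) (nat_lit 0x70433120) (nat_lit 0xf423f00000f423fb71ae1f156000010000100000) .nil) t189_4) (.split (nat_lit 8) (nat_lit 0) (.split (nat_lit 8) (nat_lit 1) (.split (nat_lit 8) (nat_lit 2) (.split (nat_lit 8) (nat_lit 3) (.split (nat_lit 8) (nat_lit 4) (.split (nat_lit 8) (nat_lit 6) (.split (nat_lit 8) (nat_lit 7) (.ex (nat_lit 5) t189_6 (.split (nat_lit 9) (nat_lit 0) (.split (nat_lit 9) (nat_lit 1) (.split (nat_lit 9) (nat_lit 2) (.split (nat_lit 9) (nat_lit 3) (.split (nat_lit 9) (nat_lit 4) (.split (nat_lit 9) (nat_lit 6) (.split (nat_lit 9) (nat_lit 7) (.split (nat_lit 9) (nat_lit 8) (.unj (nat_lit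 0x15) (nat_lit 0x200020001) (nat_lit 0x51500) (nat_lit 0x1000100000001000200010000000000000000)) (.non (nat_lit 1) (nat_lit 4) (nat_lit 0x50400) (nat_lit 0x1000100000000000100000000000000000000))) (.non (nat_lit 1) (nat_lit 4) (nat_lit 0x45400) (nat_lit 0x1000000010001000100000000000000000000))) (.non (nat_lit 1) (nat_lit 4) (nat_lit 0x41400) (nat_lit 0x1000000000001000100000000000000000000))) (.non (nat_lit 1) (nat_lit 5) (nat_lit 0x40141) (nat_lit 0x1000000000000000000020002000000000001))) (.non (nat_lit 1) (nat_lit 5) (nat_lit 0x40141) (nat_lit 0x1000000000000000000020002000000000001))) (.star (nat_lit 9) (nat_lit 2) (nat_lit 5))) (.star (nat_lit 9) (nat_lit 1) (nat_lit 5))) (.non (nat_lit 2) (nat_lit 4) (nat_lit 0x51445) (nat_lit 0x2000100000001000200000001000000010002)))) (.non (nat_lit 1) (nat_lit 4) (nat_lit 0x15400) (nat_lit 0x100010001000100000000000000000000))) (.non (nat_lit 1) (nat_lit 4) (nat_lit 0x11400) (nat_lit 0x100000001000100000000000000000000))) (.non (nat_lit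 1) (nat_lit 5) (nat_lit 0x10141) (nat_lit 0x100000000000000020002000000000001))) (.non (nat_lit 1) (nat_lit 5) (nat_lit 0x10141) (nat_lit 0x100000000000000020002000000000001))) (.star (nat_lit 8) (nat_lit 2) (nat_lit 5))) (.star (nat_lit 8) (nat_lit 1) (nat_lit 5))) (.non (nat_lit 2) (nat_lit 5) (nat_lit 0x10145) (nat_lit 0x100000000000000020002000000010002))))) (.split (nat_lit 7) (nat_lit 6) (.pd (.cons (nat_lit 0) (nat_lit 4) (nat_lit 0x110) (nat_lit 0x65503120) (nat_lit 0xf423f7a11e7a11c00000f423f000010000100000) (.cons (nat_lit 0) (nat_lit 5) (nat_lit 0x110) (nat_lit 0x66033120) (nat_lit 0xf423f7a11e00000f423f54591000010000100000) .nil)) (.st (nat_lit 6) (nat_lit 1) (nat_lit 4) (nat_lit 0x9400) (nat_lit 0x10002000100000000000000000000) (nat_lit 1) (nat_lit 1) t189_7)) (.sup (nat_lit 0x9000a0004) (nat_lit 0x8000a000700040001000000000000))))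

noncomputable def t189_9 : Tr := (.ex (nat_lit 7) (.split (nat_lit 8) (nat_lit 2) (.split (nat_lit 7) (nat_lit 6) (.split (nat_lit 8) (nat_lit 6) (.pd (.cons (nat_lit 1) (nat_lit 3) (nat_lit 0) (nat_lit 0x268650200) (nat_lit 0x61a79f423f65b97b71aef423f000005b8cc00000f423f) (.cons (nat_lit 2) (nat_lit 3) (nat_lit 0) (nat_lit 0x665440000) (nat_lit 0xf423ff423f7a11d7a11b7a1190000000000f423fb71ae) .nil)) (.split (nat_lit 3) (nat_lit 0) (.leaf (.cons (nat_lit 0x10014) (nat_lit 0x100000000000000000000000200020000) (.cons (nat_lit 0x541) (nat_lit 0x100020002000000000001) .nil)) (.cons (nat_lit 0x11011) (nat_lit 0x100100) (nat_lit 0x10) (nat_lit 0x1032) .nil)) (.non (nat_lit 1) (nat_lit 5) (nat_lit 0x141) (nat_lit 0x10001000000000001)))) (.non (nat_lit 1) (nat_lit 4) (nat_lit 0x25400) (nat_lit 0x100010002000100000000000000000000))) (.non (nat_lit 1) (nat_lit 4) (nat_lit 0x19400) (nat_lit 0x100010002000100000000000000000000))) (.non (nat_lit 1) (nat_lit 4) (nat_lit 0x2a810) (nat_lit 0x200010002000100000000000200000000)))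 (.split (nat_lit 9) (nat_lit 0) (.split (nat_lit 9) (nat_lit 1) (.split (nat_lit 9) (nat_lit 2) (.split (nat_lit 9) (nat_lit 3) (.split (nat_lit 9) (nat_lit 4) (.split (nat_lit 9) (nat_lit 5) (.split (nat_lit 9) (nat_lit 6) (.split (nat_lit 9) (nat_lit 8) (.split (nat_lit 9) (nat_lit 7) (.split (nat_lit 8) (nat_lit 2) (.split (nat_lit 8) (nat_lit 6) (.split (nat_lit 7) (nat_lit 6) (.par (nat_lit 0x55510) (nat_lit 0x1000200020003000200010000000100000000)) (.non (nat_lit 1) (nat_lit 4) (nat_lit 0x19400) (nat_lit 0x100010002000100000000000000000000))) (.non (nat_lit 1) (nat_lit 4) (nat_lit 0x25400) (nat_lit 0x100010002000100000000000000000000))) (.non (nat_lit 1) (nat_lit 4) (nat_lit 0x2a810) (nat_lit 0x200010002000100000000000200000000))) (.non (nat_lit 1) (nat_lit 4) (nat_lit 0x95400) (nat_lit 0x1000100020002000100000000000000000000))) (.non (nat_lit 1) (nat_lit 4) (nat_lit 0x55000) (nat_lit 0x1000100010001000000000000000000000000))) (.non (nat_lit 1) (nat_lit 4) (nat_lit 0x45000)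 (nat_lit 0x1000000010001000000000000000000000000))) (.non (nat_lit 1) (nat_lit 4) (nat_lit 0x45400) (nat_lit 0x1000000010001000100000000000000000000))) (.non (nat_lit 1) (nat_lit 5) (nat_lit 0x45140) (nat_lit 0x3000000020001000000040003000000000000))) (.non (nat_lit 1) (nat_lit 5) (nat_lit 0x45140) (nat_lit 0x3000000020001000000030004000000000000))) (.non (nat_lit 1) (nat_lit 4) (nat_lit 0x55010) (nat_lit 0x1000100010001000000000000000100000000))) (.non (nat_lit 2) (nat_lit 5) (nat_lit 0x40145) (nat_lit 0x1000000000000000000030004000000020003))) (.non (nat_lit 1) (nat_lit 5) (nat_lit 0x44141) (nat_lit 0x2000000010000000000030004000000000003))))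

noncomputable def t189_10 : Tr := (.st (nat_lit 4) (nat_lit 1) (nat_lit 5) (nat_lit 0x141) (nat_lit 0x20002000000000001) (nat_lit 1) (nat_lit 1) (.st (nat_lit 0) (nat_lit 2) (nat_lit 5) (nat_lit 0x145) (nat_lit 0x20002000000010002) (nat_lit 1) (nat_lit 1) (.ex (nat_lit 2) t189_8 (.split (nat_lit 8) (nat_lit 0) (.split (nat_lit 8) (nat_lit 1) (.split (nat_lit 8) (nat_lit 3) (.split (nat_lit 8) (nat_lit 4) (.split (nat_lit 8) (nat_lit 5) (.split (nat_lit 8) (nat_lit 6) (.split (nat_lit 8) (nat_lit 7) (.unj (nat_lit 0x10014) (nat_lit 0x100000000000000000000000200020000) (nat_lit 0x5540) (nat_lit 0x10002000300040003000000000000)) (.sup (nat_lit 0x5000a0010000e000000000002) (nat_lit 0x700010000000000000000000c000a0000))) (.split (nat_lit 8) (nat_lit 7) (.st (nat_lit 6) (nat_lit 1) (nat_lit 4) (nat_lit 0x15400) (nat_lit 0x100010002000100000000000000000000) (nat_lit 1) (nat_lit 1) (.st (nat_lit 8) (nat_lit 1) (nat_lit 4) (nat_lit 0x15410) (nat_lit 0x200010002000100000000000100000000) (nat_lit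 1) (nat_lit 1) (.ex (nat_lit 5) t189_9 (.split (nat_lit 9) (nat_lit 0) (.split (nat_lit 9) (nat_lit 1) (.split (nat_lit 9) (nat_lit 2) (.split (nat_lit 9) (nat_lit 3) (.split (nat_lit 9) (nat_lit 4) (.split (nat_lit 9) (nat_lit 6) (.split (nat_lit 9) (nat_lit 7) (.split (nat_lit 9) (nat_lit 8) (.sup (nat_lit 0x400000000000000000000000a00090000) (nat_lit 0x30000000000010007000a0008000000000000)) (.non (nat_lit 1) (nat_lit 4) (nat_lit 0x51400) (nat_lit 0x1000100000001000100000000000000000000))) (.non (nat_lit 1) (nat_lit 4) (nat_lit 0x45400) (nat_lit 0x1000000010001000100000000000000000000))) (.non (nat_lit 1) (nat_lit 4) (nat_lit 0x41400) (nat_lit 0x1000000000001000100000000000000000000))) (.non (nat_lit 1) (nat_lit 5) (nat_lit 0x40141) (nat_lit 0x1000000000000000000020002000000000001))) (.non (nat_lit 1) (nat_lit 5) (nat_lit 0x40141) (nat_lit 0x1000000000000000000020002000000000001))) (.star (nat_lit 9) (nat_lit 2) (nat_lit 5))) (.star (nat_lit 9) (nat_lit 1) (nat_lit 5))) (.non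 (nat_lit 2) (nat_lit 4) (nat_lit 0x55445) (nat_lit 0x2000100010002000200000001000000010002)))))) (.non (nat_lit 1) (nat_lit 4) (nat_lit 0x15000) (nat_lit 0x100010001000000000000000000000000)))) (.star (nat_lit 8) (nat_lit 2) (nat_lit 5))) (.star (nat_lit 8) (nat_lit 2) (nat_lit 4))) (.non (nat_lit 1) (nat_lit 5) (nat_lit 0x10141) (nat_lit 0x100000000000000020002000000000001))) (.non (nat_lit 2) (nat_lit 5) (nat_lit 0x10145) (nat_lit 0x100000000000000030004000000020003))) (.non (nat_lit 1) (nat_lit 5) (nat_lit 0x10151) (nat_lit 0x200000000000000030004000100000003))))))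

noncomputable def t189_11 : Tr := (.pd (.cons (nat_lit 0) (nat_lit 6) (nat_lit 0x110) (nat_lit 0x70433120) (nat_lit 0xf423f00000f423fb71ae1f156000010000100000) (.cons (nat_lit 0) (nat_lit 7) (nat_lit 0x110) (nat_lit 0x5433120) (nat_lit 0xf423fb71aea2c2804737000010000100000) (.cons (nat_lit 1) (nat_lit 6) (nat_lit 0) (nat_lit 0x70433200) (nat_lit 0xf423f00000f423fb71ae1f156f423f00000f423f) (.cons (nat_lit 2) (nat_lit 6) (nat_lit 0) (nat_lit 0x70433000) (nat_lit 0xf423f00000f423fb71ae1f15600000f423fb71ae) .nil)))) (.ex (nat_lit 7) (.split (nat_lit 6) (nat_lit 0) (.pd (.cons (nat_lit 0) (nat_lit 3) (nat_lit 0x110) (nat_lit 0x65440120) (nat_lit 0xf423fb71aea2c289896500000000010000100000) (.cons (nat_lit 1) (nat_lit 3) (nat_lit 0) (nat_lit 0x60650200) (nat_lit 0xf423f65b97b71aef423f00000f423f0000061a79) (.cons (nat_lit 2) (nat_lit 3) (nat_lit 0) (nat_lit 0x60650000) (nat_lit 0xf423f65b97b71aef423f0000000000f423f249e8) .nil))) (.leaf (.cons (nat_lit 0x1541) (nat_lit 0x2000300040003000000000001)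 .nil) (.cons (nat_lit 0x11110001) (nat_lit 0x1010) (nat_lit 8) (nat_lit 0x20340001) (.cons (nat_lit 0x11100001) (nat_lit 0x10010) (nat_lit 7) (nat_lit 0x30200001) (.cons (nat_lit 0x11000001) (nat_lit 0x100010) (nat_lit 1) (nat_lit 0x21000000) (.cons (nat_lit 0x11000011) (nat_lit 0x100100) (nat_lit 2) (nat_lit 0x32000001) .nil)))))) (.non (nat_lit 1) (nat_lit 4) (nat_lit 0xa801) (nat_lit 0x10002000100000000000000000002))) (.split (nat_lit 8) (nat_lit 0) (.split (nat_lit 8) (nat_lit 1) (.split (nat_lit 8) (nat_lit 2) (.split (nat_lit 8) (nat_lit 3) (.split (nat_lit 8) (nat_lit 4) (.split (nat_lit 8) (nat_lit 5) (.split (nat_lit 8) (nat_lit 6) (.split (nat_lit 8) (nat_lit 7) (.split (nat_lit 6) (nat_lit 0) (.par (nat_lit 0x15505) (nat_lit 0x100020003000200010000000000010002)) (.non (nat_lit 1) (nat_lit 4) (nat_lit 0xa801) (nat_lit 0x10002000100000000000000000002))) (.non (nat_lit 1) (nat_lit 4) (nat_lit 0x25401) (nat_lit 0x100020002000100000000000000000001))) (.non (nat_lit 1) (nat_lit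 4) (nat_lit 0x15000) (nat_lit 0x100010001000000000000000000000000))) (.non (nat_lit 1) (nat_lit 4) (nat_lit 0x15400) (nat_lit 0x100010001000100000000000000000000))) (.non (nat_lit 1) (nat_lit 5) (nat_lit 0x15140) (nat_lit 0x300020001000000040003000000000000))) (.non (nat_lit 1) (nat_lit 5) (nat_lit 0x15140) (nat_lit 0x300020001000000030004000000000000))) (.non (nat_lit 0) (nat_lit 4) (nat_lit 0x10014) (nat_lit 0x100000000000000000000000200020000))) (.non (nat_lit 2) (nat_lit 4) (nat_lit 0x15005) (nat_lit 0x100010001000000000000000000010001))) (.non (nat_lit 1) (nat_lit 4) (nat_lit 0x15001) (nat_lit 0x100010001000000000000000000000001)))))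

noncomputable def t189_12 : Tr := (.ex (nat_lit 3) (.ex (nat_lit 4) (.ex (nat_lit 5) t189_11 (.split (nat_lit 8) (nat_lit 0) (.split (nat_lit 8) (nat_lit 1) (.split (nat_lit 8) (nat_lit 2) (.split (nat_lit 8) (nat_lit 6) (.split (nat_lit 8) (nat_lit 7) (.split (nat_lit 8) (nat_lit 3) (.split (nat_lit 8) (nat_lit 4) (.sup (nat_lit 0x9000a0004) (nat_lit 0x3000000010007000a0008000000000000)) (.unj (nat_lit 0x15) (nat_lit 0x200020001) (nat_lit 0x10500) (nat_lit 0x100000000000100010000000000000000))) (.split (nat_lit 8) (nat_lit 4) (.unj (nat_lit 0x15) (nat_lit 0x200020001) (nat_lit 0x10540) (nat_lit 0x100000000000100010001000000000000)) (.non (nat_lit 1) (nat_lit 5) (nat_lit 0x10140) (nat_lit 0x100000000000000010001000000000000)))) (.non (nat_lit 1) (nat_lit 4) (nat_lit 0x15400) (nat_lit 0x100010001000100000000000000000000))) (.non (nat_lit 1) (nat_lit 4) (nat_lit 0x11400) (nat_lit 0x100000001000100000000000000000000))) (.star (nat_lit 8) (nat_lit 2) (nat_lit 5))) (.star (nat_lit 8)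 (nat_lit 1) (nat_lit 5))) (.non (nat_lit 1) (nat_lit 4) (nat_lit 0x11401) (nat_lit 0x100000001000100000000000000000001)))) (.split (nat_lit 8) (nat_lit 0) (.split (nat_lit 8) (nat_lit 1) (.split (nat_lit 8) (nat_lit 2) (.split (nat_lit 8) (nat_lit 3) (.split (nat_lit 8) (nat_lit 6) (.split (nat_lit 8) (nat_lit 7) (.split (nat_lit 8) (nat_lit 5) (.unj (nat_lit 0x15) (nat_lit 0x200020001) (nat_lit 0x10540) (nat_lit 0x100000000000100020002000000000000)) (.unj (nat_lit 0x15) (nat_lit 0x200020001) (nat_lit 0x10500) (nat_lit 0x100000000000100010000000000000000))) (.non (nat_lit 1) (nat_lit 5) (nat_lit 0x15140) (nat_lit 0x300020001000000040003000000000000))) (.non (nat_lit 1) (nat_lit 4) (nat_lit 0x15401) (nat_lit 0x100010002000100000000000000000001))) (.non (nat_lit 1) (nat_lit 5) (nat_lit 0x10140) (nat_lit 0x100000000000000010001000000000000))) (.star (nat_lit 8) (nat_lit 2) (nat_lit 4))) (.star (nat_lit 8) (nat_lit 1) (nat_lit 4))) (.non (nat_lit 1) (nat_lit 5) (nat_lit 0x11141) (nat_lit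 0x300000001000000040003000000000002)))) (.split (nat_lit 8) (nat_lit 0) (.split (nat_lit 8) (nat_lit 1) (.split (nat_lit 8) (nat_lit 2) (.split (nat_lit 8) (nat_lit 4) (.split (nat_lit 8) (nat_lit 6) (.split (nat_lit 8) (nat_lit 7) (.split (nat_lit 8) (nat_lit 5) (.unj (nat_lit 0x15) (nat_lit 0x200020001) (nat_lit 0x10540) (nat_lit 0x100000000000100020002000000000000)) (.unj (nat_lit 0x15) (nat_lit 0x200020001) (nat_lit 0x10540) (nat_lit 0x100000000000100010001000000000000))) (.non (nat_lit 1) (nat_lit 5) (nat_lit 0x15140) (nat_lit 0x300020001000000030004000000000000))) (.non (nat_lit 1) (nat_lit 4) (nat_lit 0x15401) (nat_lit 0x100010002000100000000000000000001))) (.non (nat_lit 1) (nat_lit 5) (nat_lit 0x10140) (nat_lit 0x100000000000000010001000000000000))) (.non (nat_lit 0) (nat_lit 4) (nat_lit 0x10014) (nat_lit 0x100000000000000000000000200020000))) (.non (nat_lit 2) (nat_lit 5) (nat_lit 0x10145) (nat_lit 0x300000000000000030004000000020001))) (.non (nat_lit 1) (nat_lit 5) (nat_lit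 0x11141) (nat_lit 0x300000001000000030004000000000002))))

noncomputable def t189_13 : Tr := (.ex (nat_lit 7) (.split (nat_lit 6) (nat_lit 0) (.split (nat_lit 7) (nat_lit 6) (.pd (.cons (nat_lit 1) (nat_lit 3) (nat_lit 0x100000100) (nat_lit 0x260650800) (nat_lit 0x1f423f65b97b71aef423f00000000010000061a79) (.cons (nat_lit 2) (nat_lit 3) (nat_lit 0) (nat_lit 0x860650000) (nat_lit 0xf423ff423f65b97b71aef423f0000000000f423f249e8) .nil)) (.split (nat_lit 8) (nat_lit 2) (.split (nat_lit 8) (nat_lit 3) (.leaf (.cons (nat_lit 0x10014) (nat_lit 0x100000000000000000000000200020000) (.cons (nat_lit 0x10540) (nat_lit 0x100000000000100020002000000000000) .nil)) (.cons (nat_lit 0x100011100) (nat_lit 0x100010) (nat_lit 0x10) (nat_lit 0x200001300) .nil)) (.non (nat_lit 1) (nat_lit 5) (nat_lit 0x10140) (nat_lit 0x100000000000000010001000000000000))) (.non (nat_lit 1) (nat_lit 5) (nat_lit 0x10150) (nat_lit 0x100000000000000010001000100000000)))) (.non (nat_lit 1) (nat_lit 4) (nat_lit 0x9401) (nat_lit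 0x10002000100000000000000000001))) (.non (nat_lit 1) (nat_lit 4) (nat_lit 0xa801) (nat_lit 0x10002000100000000000000000002))) (.split (nat_lit 9) (nat_lit 0) (.split (nat_lit 9) (nat_lit 1) (.split (nat_lit 9) (nat_lit 2) (.split (nat_lit 9) (nat_lit 3) (.split (nat_lit 9) (nat_lit 4) (.split (nat_lit 9) (nat_lit 5) (.split (nat_lit 9) (nat_lit 6) (.split (nat_lit 9) (nat_lit 8) (.split (nat_lit 9) (nat_lit 7) (.split (nat_lit 7) (nat_lit 6) (.split (nat_lit 6) (nat_lit 0) (.par (nat_lit 0x45505) (nat_lit 0x1000000020003000200010000000000010002)) (.non (nat_lit 1) (nat_lit 4) (nat_lit 0xa801) (nat_lit 0x10002000100000000000000000002))) (.non (nat_lit 1) (nat_lit 4) (nat_lit 0x9401) (nat_lit 0x10002000100000000000000000001))) (.non (nat_lit 1) (nat_lit 4) (nat_lit 0x85401) (nat_lit 0x1000000020002000100000000000000000001))) (.non (nat_lit 1) (nat_lit 4) (nat_lit 0x55451) (nat_lit 0x2000200020002000100000001000100000001))) (.non (nat_lit 1) (nat_lit 4) (nat_lit 0x45000) (nat_lit 0x1000000010001000000000000000000000000)))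 (.non (nat_lit 1) (nat_lit 4) (nat_lit 0x45400) (nat_lit 0x1000000010001000100000000000000000000))) (.non (nat_lit 1) (nat_lit 5) (nat_lit 0x50140) (nat_lit 0x1000100000000000000020002000000000000))) (.non (nat_lit 1) (nat_lit 5) (nat_lit 0x50140) (nat_lit 0x1000100000000000000020002000000000000))) (.non (nat_lit 1) (nat_lit 5) (nat_lit 0x50150) (nat_lit 0x1000300000000000000030004000200000000))) (.non (nat_lit 2) (nat_lit 4) (nat_lit 0x45005) (nat_lit 0x1000000010001000000000000000000010001))) (.non (nat_lit 1) (nat_lit 4) (nat_lit 0x45001) (nat_lit 0x1000000010001000000000000000000000001))))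

noncomputable def t189_14 : Tr := (.split (nat_lit 8) (nat_lit 1) (.split (nat_lit 8) (nat_lit 3) (.split (nat_lit 8) (nat_lit 7) (.unj (nat_lit 0x10014) (nat_lit 0x100000000000000000000000200020000) (nat_lit 0x5540) (nat_lit 0x10002000300040003000000000000)) (.split (nat_lit 8) (nat_lit 2) (.split (nat_lit 8) (nat_lit 7) (.sup (nat_lit 0x400000000000000000000000a00090000) (nat_lit 0x100040007000a0008000000000000)) (.non (nat_lit 1) (nat_lit 4) (nat_lit 0x1a810) (nat_lit 0x400030002000100000000000200000000))) (.non (nat_lit 1) (nat_lit 4) (nat_lit 0x15421) (nat_lit 0x200020002000100000000000100000001)))) (.split (nat_lit 8) (nat_lit 7) (.st (nat_lit 4) (nat_lit 1) (nat_lit 5) (nat_lit 0x10140) (nat_lit 0x100000000000000020002000000000000) (nat_lit 1) (nat_lit 1) (.st (nat_lit 2) (nat_lit 1) (nat_lit 5) (nat_lit 0x10150) (nat_lit 0x300000000000000030004000200000000) (nat_lit 1) (nat_lit 1) (.st (nat_lit 3) (nat_lit 1) (nat_lit 5) (nat_lit 0x10140) (nat_lit 0x100000000000000020002000000000000)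 (nat_lit 1) (nat_lit 1) (.st (nat_lit 8) (nat_lit 1) (nat_lit 5) (nat_lit 0x10150) (nat_lit 0x200000000000000020002000100000000) (nat_lit 1) (nat_lit 1) (.ex (nat_lit 5) t189_13 (.split (nat_lit 9) (nat_lit 0) (.split (nat_lit 9) (nat_lit 1) (.split (nat_lit 9) (nat_lit 2) (.split (nat_lit 9) (nat_lit 3) (.split (nat_lit 9) (nat_lit 4) (.split (nat_lit 9) (nat_lit 6) (.split (nat_lit 9) (nat_lit 7) (.split (nat_lit 9) (nat_lit 8) (.sup (nat_lit 0x9000a0004) (nat_lit 0x30000000000010007000a0008000000000000)) (.non (nat_lit 1) (nat_lit 4) (nat_lit 0x55451) (nat_lit 0x2000200010002000200000001000100000001))) (.non (nat_lit 1) (nat_lit 4) (nat_lit 0x45400) (nat_lit 0x1000000010001000100000000000000000000))) (.non (nat_lit 1) (nat_lit 4) (nat_lit 0x41400) (nat_lit 0x1000000000001000100000000000000000000))) (.non (nat_lit 1) (nat_lit 5) (nat_lit 0x50140) (nat_lit 0x1000100000000000000020002000000000000))) (.non (nat_lit 1) (nat_lit 5) (nat_lit 0x50140) (nat_lit 0x1000100000000000000020002000000000000)))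 (.star (nat_lit 9) (nat_lit 2) (nat_lit 5))) (.star (nat_lit 9) (nat_lit 1) (nat_lit 5))) (.non (nat_lit 1) (nat_lit 4) (nat_lit 0x41401) (nat_lit 0x1000000000001000100000000000000000001)))))))) (.non (nat_lit 1) (nat_lit 4) (nat_lit 0x15451) (nat_lit 0x200020002000100000001000100000001)))) (.split (nat_lit 8) (nat_lit 3) (.split (nat_lit 8) (nat_lit 7) (.unj (nat_lit 0x10014) (nat_lit 0x100000000000000000000000100010000) (nat_lit 0x5540) (nat_lit 0x10002000300040003000000000000)) (.non (nat_lit 2) (nat_lit 4) (nat_lit 0x15005) (nat_lit 0x100010001000000000000000000010001))) (.non (nat_lit 2) (nat_lit 5) (nat_lit 0x10145) (nat_lit 0x300000000000000030004000000020001))))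

noncomputable def t189_15 : Tr := (.ex (nat_lit 0) (.ex (nat_lit 8) (.leaf (.cons (nat_lit 0x4014) (nat_lit 0x10000000000000000000200020000) .nil) (.cons (nat_lit 0x111110100) (nat_lit 0x1010) (nat_lit 9) (nat_lit 0x203450100) (.cons (nat_lit 0x111100100) (nat_lit 0x10010) (nat_lit 8) (nat_lit 0x203400100) (.cons (nat_lit 0x111000100) (nat_lit 0x100010) (nat_lit 7) (nat_lit 0x302000100) (.cons (nat_lit 0x110000100) (nat_lit 0x1000010) (nat_lit 1) (nat_lit 0x210000000) .nil))))) (.split (nat_lit 9) (nat_lit 0) (.split (nat_lit 9) (nat_lit 1) (.split (nat_lit 9) (nat_lit 2) (.split (nat_lit 9) (nat_lit 3) (.split (nat_lit 9) (nat_lit 4) (.split (nat_lit 9) (nat_lit 5) (.split (nat_lit 9) (nat_lit 6) (.split (nat_lit 9) (nat_lit 7) (.st (nat_lit 8) (nat_lit 1) (nat_lit 4) (nat_lit 0x55010) (nat_lit 0x1000200020001000000000000000100000000) (nat_lit 1) (nat_lit 1) (.st (nat_lit 9) (nat_lit 1) (nat_lit 3) (nat_lit 0x55510) (nat_lit 0x2000300040003000200010000000200000000) (nat_lit 1)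 (nat_lit 1) (.split (nat_lit 9) (nat_lit 8) (.leaf (.cons (nat_lit 0x4014) (nat_lit 0x10000000000000000000200020000) .nil) (.cons (nat_lit 0x1111110100) (nat_lit 0x1010) (nat_lit 0xd) (nat_lit 0x3204560100) (.cons (nat_lit 0x1111100100) (nat_lit 0x10010) (nat_lit 0xc) (nat_lit 0x5402300100) (.cons (nat_lit 0x1111000100) (nat_lit 0x100010) (nat_lit 8) (nat_lit 0x4302000100) .nil)))) (.non (nat_lit 1) (nat_lit 4) (nat_lit 0x95010) (nat_lit 0x1000200020001000000000000000100000000))))) (.non (nat_lit 1) (nat_lit 4) (nat_lit 0x54000) (nat_lit 0x1000100010000000000000000000000000000))) (.non (nat_lit 1) (nat_lit 4) (nat_lit 0x55000) (nat_lit 0x1000100010001000000000000000000000000))) (.non (nat_lit 1) (nat_lit 4) (nat_lit 0x55400) (nat_lit 0x1000100010001000100000000000000000000))) (.non (nat_lit 1) (nat_lit 5) (nat_lit 0x54140) (nat_lit 0x3000200010000000000040003000000000000))) (.non (nat_lit 1) (nat_lit 5) (nat_lit 0x54140) (nat_lit 0x3000200010000000000030004000000000000))) (.non (nat_lit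 1) (nat_lit 4) (nat_lit 0x54010) (nat_lit 0x1000100010000000000000000000100000000))) (.non (nat_lit 0) (nat_lit 7) (nat_lit 0x40014) (nat_lit 0x1000000000000000000000000000200020000))) (.non (nat_lit 1) (nat_lit 3) (nat_lit 0x55511) (nat_lit 0x2000300040003000200010000000200000001)))) (.split (nat_lit 9) (nat_lit 1) (.split (nat_lit 9) (nat_lit 2) (.split (nat_lit 9) (nat_lit 3) (.split (nat_lit 9) (nat_lit 4) (.split (nat_lit 9) (nat_lit 5) (.split (nat_lit 9) (nat_lit 6) (.split (nat_lit 9) (nat_lit 7) (.split (nat_lit 9) (nat_lit 8) (.sup (nat_lit 0x100020006000b0010000d000000000000) (nat_lit 0x2000000000000000000000000000400050004)) (.non (nat_lit 1) (nat_lit 3) (nat_lit 0x55511) (nat_lit 0x2000300040003000200010000000200000001))) (.non (nat_lit 1) (nat_lit 4) (nat_lit 0x55010) (nat_lit 0x1000100020001000000000000000100000000))) (.non (nat_lit 1) (nat_lit 4) (nat_lit 0x55410) (nat_lit 0x1000100020002000100000000000100000000))) (.non (nat_lit 1) (nat_lit 6) (nat_lit 0x40541) (nat_lit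 0x2000000000000000300040003000000000001))) (.non (nat_lit 2) (nat_lit 5) (nat_lit 0x40145) (nat_lit 0x3000000000000000000040003000000010002))) (.non (nat_lit 2) (nat_lit 5) (nat_lit 0x40145) (nat_lit 0x3000000000000000000030004000000010002))) (.non (nat_lit 0) (nat_lit 7) (nat_lit 0x40014) (nat_lit 0x1000000000000000000000000000200020000))) (.non (nat_lit 2) (nat_lit 4) (nat_lit 0x40005) (nat_lit 0x1000000000000000000000000000000010001))))

noncomputable def t189_16 : Tr := (.split (nat_lit 8) (nat_lit 5) (.split (nat_lit 8) (nat_lit 6) (.split (nat_lit 8) (nat_lit 0) (.st (nat_lit 7) (nat_lit 1) (nat_lit 4) (nat_lit 0x15010) (nat_lit 0x100020001000000000000000100000000) (nat_lit 1) (nat_lit 1) (.split (nat_lit 7) (nat_lit 2) (.split (nat_lit 7) (nat_lit 6) (.split (nat_lit 8) (nat_lit 7) (.pd (.cons (nat_lit 1) (nat_lit 3) (nat_lit 0) (nat_lit 0x727650200) (nat_lit 0xf423f5b8d4a2c28b71aef423f000005160d00000f423f) (.cons (nat_lit 2) (nat_lit 3) (nat_lit 0) (nat_lit 0x765440000) (nat_lit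 0xf423fb71aea2c2898965927bd0000000000f423fb71ae) .nil)) t189_15) (.non (nat_lit 1) (nat_lit 4) (nat_lit 0x25010) (nat_lit 0x100020001000000000000000100000000))) (.non (nat_lit 1) (nat_lit 4) (nat_lit 0x16010) (nat_lit 0x100020001000000000000000100000000))) (.non (nat_lit 1) (nat_lit 4) (nat_lit 0x2a010) (nat_lit 0x100020001000000000000000200000000)))) (.st (nat_lit 7) (nat_lit 1) (nat_lit 4) (nat_lit 0x15010) (nat_lit 0x100020001000000000000000100000000) (nat_lit 1) (nat_lit 1) (.split (nat_lit 8) (nat_lit 0) (.split (nat_lit 7) (nat_lit 2) (.split (nat_lit 7) (nat_lit 6) (.split (nat_lit 8) (nat_lit 7) (.pd (.cons (nat_lit 1) (nat_lit 3) (nat_lit 0) (nat_lit 0x87650700) (nat_lit 0x5160d5b8d4a2c28b71aef423f00000f423f000003d07c) (.cons (nat_lit 2) (nat_lit 3) (nat_lit 0) (nat_lit 0x87650000) (nat_lit 0x927bd98965a2c28b71aef423f0000000000f423f51611) .nil)) (.st (nat_lit 0) (nat_lit 1) (nat_lit 3) (nat_lit 0x15511) (nat_lit 0x300040003000200010000000200000002) (nat_lit 1) (nat_lit 1)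 (.st (nat_lit 8) (nat_lit 1) (nat_lit 4) (nat_lit 0x15011) (nat_lit 0x200020001000000000000000100000001) (nat_lit 1) (nat_lit 1) (.leaf (.cons (nat_lit 0x4014) (nat_lit 0x10000000000000000000200020000) .nil) (.cons (nat_lit 0x111110101) (nat_lit 0x1010) (nat_lit 0xd) (nat_lit 0x204560103) (.cons (nat_lit 0x111100101) (nat_lit 0x10010) (nat_lit 0xc) (nat_lit 0x402300105) (.cons (nat_lit 0x111000101) (nat_lit 0x100010) (nat_lit 8) (nat_lit 0x302000104) .nil))))))) (.non (nat_lit 1) (nat_lit 4) (nat_lit 0x25010) (nat_lit 0x100020001000000000000000100000000))) (.non (nat_lit 1) (nat_lit 4) (nat_lit 0x16010) (nat_lit 0x100020001000000000000000100000000))) (.non (nat_lit 1) (nat_lit 4) (nat_lit 0x2a010) (nat_lit 0x100020001000000000000000200000000))) (.non (nat_lit 1) (nat_lit 4) (nat_lit 0x2a021) (nat_lit 0x200020001000000000000000100000002))))) (.non (nat_lit 1) (nat_lit 4) (nat_lit 0x15000) (nat_lit 0x100010001000000000000000000000000))) (.non (nat_lit 1) (nat_lit 4) (nat_lit 0x15400)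 (nat_lit 0x100010001000100000000000000000000)))

noncomputable def t189_17 : Tr := (.pd (.cons (nat_lit 0) (nat_lit 7) (nat_lit 0x110) (nat_lit 0x5433120) (nat_lit 0xf423fb71aea2c2804737000010000100000) (.cons (nat_lit 1) (nat_lit 7) (nat_lit 0) (nat_lit 0x5433200) (nat_lit 0xf423fb71aea2c2804737f423f00000f423f) (.cons (nat_lit 2) (nat_lit 7) (nat_lit 0) (nat_lit 0x5433000) (nat_lit 0xf423fb71aea2c280473700000f423fb71ae) .nil))) (.ex (nat_lit 7) (.split (nat_lit 7) (nat_lit 2) (.split (nat_lit 7) (nat_lit 6) (.pd (.cons (nat_lit 1) (nat_lit 3) (nat_lit 0) (nat_lit 0x27650200) (nat_lit 0x98965a2c28b71aef423f00000927bd00000f423f) (.cons (nat_lit 2) (nat_lit 3) (nat_lit 0) (nat_lit 0x65440000) (nat_lit 0xf423fb71aea2c28989650000000000f423fb71ae) .nil)) (.leaf (.cons (nat_lit 0x4014) (nat_lit 0x10000000000000000000200020000) .nil) (.cons (nat_lit 0x11100100) (nat_lit 0x10010) (nat_lit 2) (nat_lit 0x12300000) (.cons (nat_lit 0x11000100) (nat_lit 0x100010) (nat_lit 1) (nat_lit 0x12000000)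 (.cons (nat_lit 0x10000100) (nat_lit 0x1000010) (nat_lit 0) (nat_lit 0x10000000) .nil))))) (.sup (nat_lit 0x110014000a) (nat_lit 0x10008000e00140010000000000000))) (.split (nat_lit 7) (nat_lit 2) (.split (nat_lit 7) (nat_lit 6) (.pd (.cons (nat_lit 1) (nat_lit 3) (nat_lit 0) (nat_lit 0x27650200) (nat_lit 0x98965a2c28b71aef423f0000030d3b00000f423f) (.cons (nat_lit 2) (nat_lit 3) (nat_lit 0) (nat_lit 0x65440000) (nat_lit 0xf423fb71aea2c28989650000000000f423fb71ae) .nil)) (.leaf (.cons (nat_lit 0x4014) (nat_lit 0x10000000000000000000100010000) .nil) (.cons (nat_lit 0x11000100) (nat_lit 0x100010) (nat_lit 6) (nat_lit 0x12000000) .nil))) (.non (nat_lit 1) (nat_lit 4) (nat_lit 0x9010) (nat_lit 0x10001000000000000000100000000))) (.split (nat_lit 7) (nat_lit 6) (.pd (.cons (nat_lit 2) (nat_lit 3) (nat_lit 0) (nat_lit 0x65440000) (nat_lit 0xf423fb71aea2c28989650000000000f423fb71ae) .nil) (.split (nat_lit 7) (nat_lit 2) (.leaf (.cons (nat_lit 0x5510) (nat_lit 0x40003000200010000000300000000)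 (.cons (nat_lit 0x4014) (nat_lit 0x10000000000000000000100010000) .nil)) (.cons (nat_lit 0x11100100) (nat_lit 0x10010) (nat_lit 0x10) (nat_lit 0x12300000) .nil)) (.non (nat_lit 1) (nat_lit 4) (nat_lit 0xf010) (nat_lit 0x20001000000000000000300000000)))) (.non (nat_lit 1) (nat_lit 4) (nat_lit 0x5010) (nat_lit 0x10001000000000000000100000000))))) (.split (nat_lit 8) (nat_lit 1) (.split (nat_lit 8) (nat_lit 2) (.split (nat_lit 8) (nat_lit 3) (.split (nat_lit 8) (nat_lit 4) t189_16 (.non (nat_lit 1) (nat_lit 5) (nat_lit 0x15140) (nat_lit 0x300020001000000040003000000000000))) (.non (nat_lit 1) (nat_lit 5) (nat_lit 0x15140) (nat_lit 0x300020001000000030004000000000000))) (.non (nat_lit 1) (nat_lit 4) (nat_lit 0x14010) (nat_lit 0x100010000000000000000000100000000))) (.non (nat_lit 0) (nat_lit 7) (nat_lit 0x10014) (nat_lit 0x100000000000000000000000200020000)))))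

noncomputable def t189_18 : Tr := (.pd (.cons (nat_lit 1) (nat_lit 6) (nat_lit 0x10000100) (nat_lit 0x20433700) (nat_lit 0x100000f423fb71ae1f1560000100000f423f) (.cons (nat_lit 2) (nat_lit 6) (nat_lit 0) (nat_lit 0x70433000) (nat_lit 0xf423f00000f423fb71ae1f15600000f423fb71ae) .nil)) (.ex (nat_lit 6) t189_17 (.split (nat_lit 8) (nat_lit 2) (.split (nat_lit 8) (nat_lit 3) (.split (nat_lit 8) (nat_lit 4) (.split (nat_lit 8) (nat_lit 5) (.split (nat_lit 8) (nat_lit 7) (.split (nat_lit 8) (nat_lit 0) (.split (nat_lit 8) (nat_lit 1) (.unj (nat_lit 0x15) (nat_lit 0x200020001) (nat_lit 0x11540) (nat_lit 0x100000002000300040003000000000000)) (.st (nat_lit 6) (nat_lit 1) (nat_lit 4) (nat_lit 0x15400) (nat_lit 0x100010002000100000000000000000000) (nat_lit 1) (nat_lit 1) (.st (nat_lit 7) (nat_lit 1) (nat_lit 4) (nat_lit 0x15410) (nat_lit 0x100020002000100000000000100000000) (nat_lit 1) (nat_lit 1) (.st (nat_lit 8) (nat_lit 2) (nat_lit 4) (nat_lit 0x15404) (nat_lit 0x200010002000100000000000000010000)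 (nat_lit 1) (nat_lit 1) (.split (nat_lit 7) (nat_lit 2) (.split (nat_lit 7) (nat_lit 6) (.split (nat_lit 8) (nat_lit 6) (.split (nat_lit 8) (nat_lit 1) (.pd (.cons (nat_lit 1) (nat_lit 3) (nat_lit 0) (nat_lit 0x627650200) (nat_lit 0xf423f61a7965b97b71aef423f000005b8cc00000f423f) (.cons (nat_lit 2) (nat_lit 3) (nat_lit 0) (nat_lit 0x168650000) (nat_lit 0x61a79f423f65b97b71aef423f00000000005b8cc515fe) .nil)) (.leaf (.cons (nat_lit 0x10014) (nat_lit 0x100000000000000000000000200020000) (.cons (nat_lit 0x11540) (nat_lit 0x100000002000300040003000000000000) .nil)) .nil)) (.non (nat_lit 2) (nat_lit 4) (nat_lit 0x2a804) (nat_lit 0x200010002000100000000000000020000))) (.non (nat_lit 1) (nat_lit 4) (nat_lit 0x25400) (nat_lit 0x100010002000100000000000000000000))) (.non (nat_lit 1) (nat_lit 4) (nat_lit 0x19400) (nat_lit 0x100010002000100000000000000000000))) (.non (nat_lit 1) (nat_lit 4) (nat_lit 0x2a810) (nat_lit 0x100020002000100000000000200000000))))))) (.split (nat_lit 8) (nat_lit 1) (.split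 (nat_lit 8) (nat_lit 0) (.sup (nat_lit 0x9000a0004) (nat_lit 0x1000000040007000a0008000000000000)) (.non (nat_lit 1) (nat_lit 4) (nat_lit 0x2a801) (nat_lit 0x200010002000100000000000000000002))) (.non (nat_lit 2) (nat_lit 4) (nat_lit 0x10005) (nat_lit 0x100000000000000000000000000010001)))) (.non (nat_lit 1) (nat_lit 4) (nat_lit 0x15000) (nat_lit 0x100010001000000000000000000000000))) (.non (nat_lit 1) (nat_lit 4) (nat_lit 0x11400) (nat_lit 0x100000001000100000000000000000000))) (.non (nat_lit 1) (nat_lit 5) (nat_lit 0x15140) (nat_lit 0x300010002000000040003000000000000))) (.non (nat_lit 1) (nat_lit 5) (nat_lit 0x15140) (nat_lit 0x300010002000000030004000000000000))) (.non (nat_lit 1) (nat_lit 4) (nat_lit 0x15010) (nat_lit 0x100010001000000000000000100000000)))))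

noncomputable def t189_19 : Tr := (.ex (nat_lit 3) (.ex (nat_lit 4) (.ex (nat_lit 5) t189_18 (.split (nat_lit 8) (nat_lit 1) (.split (nat_lit 8) (nat_lit 2) (.split (nat_lit 8) (nat_lit 6) (.split (nat_lit 8) (nat_lit 7) (.split (nat_lit 8) (nat_lit 0) (.split (nat_lit 8) (nat_lit 3) (.split (nat_lit 8) (nat_lit 4) (.unj (nat_lit 0x15) (nat_lit 0x200020001) (nat_lit 0x11540) (nat_lit 0x100000001000200020002000000000000)) (.unj (nat_lit 0x15) (nat_lit 0x200020001) (nat_lit 0x10500) (nat_lit 0x100000000000100010000000000000000))) (.split (nat_lit 8) (nat_lit 4) (.unj (nat_lit 0x15) (nat_lit 0x200020001) (nat_lit 0x10540) (nat_lit 0x100000000000100010001000000000000)) (.non (nat_lit 1) (nat_lit 5) (nat_lit 0x10140) (nat_lit 0x100000000000000010001000000000000)))) (.split (nat_lit 8) (nat_lit 3) (.split (nat_lit 8) (nat_lit 4) (.sup (nat_lit 0x9000a0004) (nat_lit 0x1000000030007000a0008000000000000)) (.non (nat_lit 2) (nat_lit 5) (nat_lit 0x10145) (nat_lit 0x300000000000000040003000000010002)))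 (.non (nat_lit 2) (nat_lit 5) (nat_lit 0x10145) (nat_lit 0x300000000000000030004000000010002)))) (.non (nat_lit 1) (nat_lit 4) (nat_lit 0x15400) (nat_lit 0x100010001000100000000000000000000))) (.non (nat_lit 1) (nat_lit 4) (nat_lit 0x11400) (nat_lit 0x100000001000100000000000000000000))) (.star (nat_lit 8) (nat_lit 2) (nat_lit 5))) (.star (nat_lit 8) (nat_lit 1) (nat_lit 5)))) (.split (nat_lit 8) (nat_lit 0) (.split (nat_lit 8) (nat_lit 1) (.split (nat_lit 8) (nat_lit 2) (.split (nat_lit 8) (nat_lit 3) (.split (nat_lit 8) (nat_lit 6) (.split (nat_lit 8) (nat_lit 7) (.split (nat_lit 8) (nat_lit 5) (.unj (nat_lit 0x15) (nat_lit 0x200020001) (nat_lit 0x10540) (nat_lit 0x100000000000100020002000000000000)) (.unj (nat_lit 0x15) (nat_lit 0x200020001) (nat_lit 0x10500) (nat_lit 0x100000000000100010000000000000000))) (.non (nat_lit 1) (nat_lit 5) (nat_lit 0x15140) (nat_lit 0x300020001000000040003000000000000))) (.non (nat_lit 1) (nat_lit 5) (nat_lit 0x15140) (nat_lit 0x300010002000000040003000000000000)))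 (.non (nat_lit 1) (nat_lit 5) (nat_lit 0x10140) (nat_lit 0x100000000000000010001000000000000))) (.star (nat_lit 8) (nat_lit 2) (nat_lit 4))) (.star (nat_lit 8) (nat_lit 1) (nat_lit 4))) (.non (nat_lit 2) (nat_lit 5) (nat_lit 0x10145) (nat_lit 0x300000000000000040003000000010002)))) (.split (nat_lit 8) (nat_lit 0) (.split (nat_lit 8) (nat_lit 1) (.split (nat_lit 8) (nat_lit 2) (.split (nat_lit 8) (nat_lit 4) (.split (nat_lit 8) (nat_lit 6) (.split (nat_lit 8) (nat_lit 7) (.split (nat_lit 8) (nat_lit 5) (.unj (nat_lit 0x15) (nat_lit 0x200020001) (nat_lit 0x10540) (nat_lit 0x100000000000100020002000000000000)) (.unj (nat_lit 0x15) (nat_lit 0x200020001) (nat_lit 0x10540) (nat_lit 0x100000000000100010001000000000000))) (.non (nat_lit 1) (nat_lit 5) (nat_lit 0x15140) (nat_lit 0x300020001000000030004000000000000))) (.non (nat_lit 1) (nat_lit 5) (nat_lit 0x15140) (nat_lit 0x300010002000000030004000000000000))) (.non (nat_lit 1) (nat_lit 5) (nat_lit 0x10140) (nat_lit 0x100000000000000010001000000000000)))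 (.non (nat_lit 1) (nat_lit 5) (nat_lit 0x14150) (nat_lit 0x300010000000000030004000200000000))) (.non (nat_lit 2) (nat_lit 5) (nat_lit 0x10145) (nat_lit 0x300000000000000030004000000020001))) (.non (nat_lit 2) (nat_lit 5) (nat_lit 0x10145) (nat_lit 0x300000000000000030004000000010002))))

noncomputable def t189_20 : Tr := (.ex (nat_lit 4) (.ex (nat_lit 5) (.split (nat_lit 7) (nat_lit 2) (.split (nat_lit 7) (nat_lit 6) (.split (nat_lit 8) (nat_lit 6) (.split (nat_lit 8) (nat_lit 1) (.pd (.cons (nat_lit 1) (nat_lit 3) (nat_lit 0) (nat_lit 0x627650200) (nat_lit 0xf423f61a7965b97b71aef423f000005b8cc00000f423f) (.cons (nat_lit 1) (nat_lit 6) (nat_lit 0) (nat_lit 0x820433200) (nat_lit 0xf423ff423f00000f423fb71ae1f156b71ae00000f423f) (.cons (nat_lit 2) (nat_lit 3) (nat_lit 0) (nat_lit 0x168650000) (nat_lit 0x61a79f423f65b97b71aef423f00000000005b8cc515fe) (.cons (nat_lit 2) (nat_lit 6) (nat_lit 0) (nat_lit 0x170433000) (nat_lit 0xf423ff423f00000f423fb71ae1f15600000b71aea2c28) .nil)))) (.leaf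 (.cons (nat_lit 0x10014) (nat_lit 0x100000000000000000000000200020000) (.cons (nat_lit 0x11540) (nat_lit 0x100000002000300040003000000000000) .nil)) .nil)) (.non (nat_lit 2) (nat_lit 4) (nat_lit 0x2a804) (nat_lit 0x200010002000100000000000000020000))) (.non (nat_lit 1) (nat_lit 4) (nat_lit 0x25400) (nat_lit 0x100010002000100000000000000000000))) (.non (nat_lit 1) (nat_lit 4) (nat_lit 0x19400) (nat_lit 0x100010002000100000000000000000000))) (.non (nat_lit 1) (nat_lit 4) (nat_lit 0x2a810) (nat_lit 0x100020002000100000000000200000000))) (.split (nat_lit 9) (nat_lit 0) (.split (nat_lit 9) (nat_lit 1) (.split (nat_lit 9) (nat_lit 2) (.split (nat_lit 9) (nat_lit 3) (.split (nat_lit 9) (nat_lit 6) (.split (nat_lit 9) (nat_lit 7) (.split (nat_lit 9) (nat_lit 8) (.split (nat_lit 9) (nat_lit 4) (.unj (nat_lit 0x15) (nat_lit 0x200020001) (nat_lit 0x41540) (nat_lit 0x1000000000001000200020002000000000000)) (.unj (nat_lit 0x15) (nat_lit 0x200020001) (nat_lit 0x40500) (nat_lit 0x1000000000000000100010000000000000000)))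 (.non (nat_lit 1) (nat_lit 4) (nat_lit 0x51400) (nat_lit 0x1000100000001000100000000000000000000))) (.non (nat_lit 1) (nat_lit 4) (nat_lit 0x45400) (nat_lit 0x1000000010001000100000000000000000000))) (.non (nat_lit 1) (nat_lit 4) (nat_lit 0x41400) (nat_lit 0x1000000000001000100000000000000000000))) (.non (nat_lit 2) (nat_lit 4) (nat_lit 0x55445) (nat_lit 0x2000300020004000300000001000000020001))) (.star (nat_lit 9) (nat_lit 2) (nat_lit 5))) (.star (nat_lit 9) (nat_lit 1) (nat_lit 5))) (.non (nat_lit 2) (nat_lit 4) (nat_lit 0x51405) (nat_lit 0x1000100000001000100000000000000010001)))) (.split (nat_lit 9) (nat_lit 0) (.split (nat_lit 9) (nat_lit 1) (.split (nat_lit 9) (nat_lit 2) (.split (nat_lit 9) (nat_lit 3) (.split (nat_lit 9) (nat_lit 6) (.split (nat_lit 9) (nat_lit 7) (.split (nat_lit 9) (nat_lit 8) (.split (nat_lit 9) (nat_lit 5) (.unj (nat_lit 0x15) (nat_lit 0x200020001) (nat_lit 0x40540) (nat_lit 0x1000000000000000100020002000000000000)) (.unj (nat_lit 0x15) (nat_lit 0x200020001)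 (nat_lit 0x40500) (nat_lit 0x1000000000000000100010000000000000000))) (.non (nat_lit 1) (nat_lit 5) (nat_lit 0x51140) (nat_lit 0x3000200000001000000040003000000000000))) (.non (nat_lit 1) (nat_lit 4) (nat_lit 0x55410) (nat_lit 0x1000100020002000100000000000100000000))) (.non (nat_lit 1) (nat_lit 4) (nat_lit 0x55400) (nat_lit 0x1000100010002000100000000000000000000))) (.non (nat_lit 1) (nat_lit 5) (nat_lit 0x40140) (nat_lit 0x1000000000000000000010001000000000000))) (.star (nat_lit 9) (nat_lit 2) (nat_lit 4))) (.star (nat_lit 9) (nat_lit 1) (nat_lit 4))) (.non (nat_lit 2) (nat_lit 5) (nat_lit 0x40145) (nat_lit 0x3000000000000000000040003000000010002))))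

noncomputable def t189_21 : Tr := (.split (nat_lit 8) (nat_lit 6) (.split (nat_lit 8) (nat_lit 7) (.split (nat_lit 8) (nat_lit 1) (.split (nat_lit 7) (nat_lit 2) (.sup (nat_lit 0x10003000600080006000000000000) (nat_lit 0x100000000000000000000000100020001)) (.split (nat_lit 7) (nat_lit 2) (.sup (nat_lit 0x20006000b0010000d000000000000) (nat_lit 0x200000000000000000000000200040002)) (.split (nat_lit 7) (nat_lit 2) (.sup (nat_lit 0x20006000b0010000d000000000000) (nat_lit 0x200000000000000000000000200040002)) (.non (nat_lit 1) (nat_lit 4) (nat_lit 0xf010) (nat_lit 0x20001000000000000000300000000))))) (.sup (nat_lit 0x3900000000000000000000002c00500000) (nat_lit 0x6001f003700500041000000000000))) (.split (nat_lit 8) (nat_lit 1) (.split (nat_lit 8) (nat_lit 7) (.split (nat_lit 7) (nat_lit 2) (.sup (nat_lit 0x3000d00160020001a000000000000) (nat_lit 0x200000000000000000000000500070003)) (.non (nat_lit 1) (nat_lit 4) (nat_lit 0x2a010) (nat_lit 0x100020001000000000000000200000000))) (.non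 (nat_lit 1) (nat_lit 4) (nat_lit 0x25010) (nat_lit 0x100020001000000000000000100000000))) (.non (nat_lit 2) (nat_lit 4) (nat_lit 0x2a005) (nat_lit 0x300020001000000000000000000040002)))) (.split (nat_lit 8) (nat_lit 7) (.st (nat_lit 6) (nat_lit 1) (nat_lit 4) (nat_lit 0x15400) (nat_lit 0x100010002000100000000000000000000) (nat_lit 1) (nat_lit 1) (.st (nat_lit 7) (nat_lit 1) (nat_lit 4) (nat_lit 0x15410) (nat_lit 0x100020002000100000000000100000000) (nat_lit 1) (nat_lit 1) (.st (nat_lit 8) (nat_lit 2) (nat_lit 4) (nat_lit 0x15404) (nat_lit 0x200010002000100000000000000010000) (nat_lit 1) (nat_lit 1) (.ex (nat_lit 3) t189_20 (.split (nat_lit 9) (nat_lit 0) (.split (nat_lit 9) (nat_lit 1) (.split (nat_lit 9) (nat_lit 2) (.split (nat_lit 9) (nat_lit 4) (.split (nat_lit 9) (nat_lit 5) (.split (nat_lit 9) (nat_lit 6) (.split (nat_lit 9) (nat_lit 7) (.split (nat_lit 9) (nat_lit 8) (.unj (nat_lit 0x15) (nat_lit 0x200020001) (nat_lit 0x40540) (nat_lit 0x1000000000000000100020002000000000000))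 (.non (nat_lit 1) (nat_lit 5) (nat_lit 0x51140) (nat_lit 0x3000200000001000000030004000000000000))) (.non (nat_lit 1) (nat_lit 4) (nat_lit 0x55410) (nat_lit 0x1000100020002000100000000000100000000))) (.non (nat_lit 1) (nat_lit 4) (nat_lit 0x55400) (nat_lit 0x1000100010002000100000000000000000000))) (.non (nat_lit 2) (nat_lit 4) (nat_lit 0x55445) (nat_lit 0x2000300020004000300000001000000020001))) (.non (nat_lit 1) (nat_lit 5) (nat_lit 0x40140) (nat_lit 0x1000000000000000000010001000000000000))) (.non (nat_lit 1) (nat_lit 5) (nat_lit 0x44150) (nat_lit 0x3000000010000000000030004000200000000))) (.non (nat_lit 2) (nat_lit 4) (nat_lit 0x55405) (nat_lit 0x1000200010002000100000000000000020001))) (.non (nat_lit 2) (nat_lit 5) (nat_lit 0x40145) (nat_lit 0x3000000000000000000030004000000010002))))))) (.non (nat_lit 1) (nat_lit 4) (nat_lit 0x15000) (nat_lit 0x100010001000000000000000000000000))))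

noncomputable def t189_22 : Tr := (.ex (nat_lit 1) (.ex (nat_lit 2) t189_19 (.split (nat_lit 8) (nat_lit 3) (.split (nat_lit 8) (nat_lit 4) (.split (nat_lit 8) (nat_lit 5) (.split (nat_lit 8) (nat_lit 6) (.split (nat_lit 8) (nat_lit 7) (.split (nat_lit 8) (nat_lit 0) (.split (nat_lit 8) (nat_lit 1) (.split (nat_lit 8) (nat_lit 2) (.split (nat_lit 7) (nat_lit 2) (.sup (nat_lit 0x20007000b0010000d000000000000) (nat_lit 0x100000000000000000000000300030002)) (.non (nat_lit 1) (nat_lit 4) (nat_lit 0x1a810) (nat_lit 0x200030002000100000000000400000000))) (.split (nat_lit 8) (nat_lit 2) (.split (nat_lit 7) (nat_lit 2) (.sup (nat_lit 0x700000000000000000000000a00090000) (nat_lit 0x100040007000a0008000000000000)) (.non (nat_lit 1) (nat_lit 4) (nat_lit 0x28010) (nat_lit 0x100010000000000000000000200000000))) (.non (nat_lit 1) (nat_lit 4) (nat_lit 0x15410) (nat_lit 0x300030002000100000000000400000000)))) (.sup (nat_lit 0x8000000000000000000000007000a0000) (nat_lit 0x100040007000a0008000000000000)))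 (.split (nat_lit 8) (nat_lit 1) (.split (nat_lit 8) (nat_lit 0) (.split (nat_lit 8) (nat_lit 2) (.split (nat_lit 7) (nat_lit 2) (.sup (nat_lit 0x10004000600080006000000000000) (nat_lit 0x100000000000000000000000100010001)) (.non (nat_lit 1) (nat_lit 4) (nat_lit 0x1a810) (nat_lit 0x200030002000100000000000400000000))) (.non (nat_lit 1) (nat_lit 4) (nat_lit 0x1a021) (nat_lit 0x400020001000000000000000300000002))) (.sup (nat_lit 0x30007000c0010000d000000000000) (nat_lit 0x200000000000000000000000100020002))) (.non (nat_lit 2) (nat_lit 4) (nat_lit 0x10005) (nat_lit 0x100000000000000000000000000010001)))) (.non (nat_lit 1) (nat_lit 4) (nat_lit 0x14010) (nat_lit 0x100010000000000000000000100000000))) (.non (nat_lit 1) (nat_lit 4) (nat_lit 0x15010) (nat_lit 0x100010001000000000000000100000000))) (.star (nat_lit 8) (nat_lit 2) (nat_lit 5))) (.star (nat_lit 8) (nat_lit 2) (nat_lit 4))) (.non (nat_lit 1) (nat_lit 5) (nat_lit 0x14150) (nat_lit 0x300010000000000030004000200000000)))) (.split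 (nat_lit 8) (nat_lit 0) (.split (nat_lit 8) (nat_lit 3) (.split (nat_lit 8) (nat_lit 4) (.split (nat_lit 8) (nat_lit 5) (.split (nat_lit 8) (nat_lit 2) t189_21 (.split (nat_lit 8) (nat_lit 6) (.split (nat_lit 8) (nat_lit 7) (.sup (nat_lit 0x8000000000000000000000007000a0000) (nat_lit 0x100040007000a0008000000000000)) (.non (nat_lit 1) (nat_lit 4) (nat_lit 0x14010) (nat_lit 0x100010000000000000000000100000000))) (.non (nat_lit 1) (nat_lit 4) (nat_lit 0x15010) (nat_lit 0x100010001000000000000000100000000)))) (.star (nat_lit 8) (nat_lit 1) (nat_lit 5))) (.star (nat_lit 8) (nat_lit 1) (nat_lit 4))) (.non (nat_lit 2) (nat_lit 5) (nat_lit 0x10145) (nat_lit 0x300000000000000030004000000020001))) (.non (nat_lit 2) (nat_lit 4) (nat_lit 0x10005) (nat_lit 0x100000000000000000000000000010001))))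

noncomputable def t189_23 : Tr := (.ex (nat_lit 7) (.split (nat_lit 7) (nat_lit 2) (.split (nat_lit 7) (nat_lit 6) (.pd (.cons (nat_lit 1) (nat_lit 3) (nat_lit 0) (nat_lit 0x27650200) (nat_lit 0x98965a2c28b71aef423f00000927bd00000f423f) (.cons (nat_lit 2) (nat_lit 3) (nat_lit 0) (nat_lit 0x65440000) (nat_lit 0xf423fb71aea2c28989650000000000f423fb71ae) .nil)) (.split (nat_lit 3) (nat_lit 0) (.leaf (.cons (nat_lit 0x4014) (nat_lit 0x10000000000000000000200020000) (.cons (nat_lit 0x541) (nat_lit 0x100020002000000000001) .nil)) (.cons (nat_lit 0x11011) (nat_lit 0x100100) (nat_lit 0x10) (nat_lit 0x1032) .nil)) (.non (nat_lit 1) (nat_lit 5) (nat_lit 0x141) (nat_lit 0x10001000000000001)))) (.split (nat_lit 7) (nat_lit 6) (.pd (.cons (nat_lit 2) (nat_lit 3) (nat_lit 0) (nat_lit 0x65440000) (nat_lit 0xf423f7a11e7a11c7a11a0000000000f423fb71ae) .nil) (.split (nat_lit 3) (nat_lit 0) (.leaf (.cons (nat_lit 0x6a10) (nat_lit 0x40003000200010000000200000000) (.cons (nat_lit 0x4014) (nat_lit 0x10000000000000000000200020000)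 (.cons (nat_lit 0x541) (nat_lit 0x100020002000000000001) .nil))) (.cons (nat_lit 0x11011) (nat_lit 0x100100) (nat_lit 0x10) (nat_lit 0x1032) .nil)) (.non (nat_lit 1) (nat_lit 5) (nat_lit 0x141) (nat_lit 0x10001000000000001)))) (.non (nat_lit 1) (nat_lit 4) (nat_lit 0x5410) (nat_lit 0x20002000100000000000100000000)))) (.sup (nat_lit 0x40000000000000000000500030000) (nat_lit 0x300050005000000000001))) (.split (nat_lit 8) (nat_lit 0) (.split (nat_lit 8) (nat_lit 1) (.split (nat_lit 8) (nat_lit 2) (.split (nat_lit 8) (nat_lit 3) (.split (nat_lit 8) (nat_lit 4) (.split (nat_lit 8) (nat_lit 5) (.split (nat_lit 8) (nat_lit 6) (.st (nat_lit 7) (nat_lit 1) (nat_lit 4) (nat_lit 0x15010) (nat_lit 0x100020001000000000000000100000000) (nat_lit 1) (nat_lit 1) (.split (nat_lit 7) (nat_lit 2) (.split (nat_lit 7) (nat_lit 6) (.split (nat_lit 8) (nat_lit 7) (.pd (.cons (nat_lit 1) (nat_lit 3) (nat_lit 0) (nat_lit 0x727650200) (nat_lit 0xf423f5b8d4a2c28b71aef423f000005160d00000f423f) (.cons (nat_lit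 2) (nat_lit 3) (nat_lit 0) (nat_lit 0x765440000) (nat_lit 0xf423fb71aea2c2898965927bd0000000000f423fb71ae) .nil)) (.split (nat_lit 3) (nat_lit 0) (.leaf (.cons (nat_lit 0x4014) (nat_lit 0x10000000000000000000200020000) (.cons (nat_lit 0x541) (nat_lit 0x100020002000000000001) .nil)) (.cons (nat_lit 0x11011) (nat_lit 0x100100) (nat_lit 0x10) (nat_lit 0x1032) .nil)) (.non (nat_lit 1) (nat_lit 5) (nat_lit 0x141) (nat_lit 0x10001000000000001)))) (.non (nat_lit 1) (nat_lit 4) (nat_lit 0x25010) (nat_lit 0x100020001000000000000000100000000))) (.non (nat_lit 1) (nat_lit 4) (nat_lit 0x16010) (nat_lit 0x100020001000000000000000100000000))) (.non (nat_lit 1) (nat_lit 4) (nat_lit 0x2a010) (nat_lit 0x100020001000000000000000200000000)))) (.non (nat_lit 1) (nat_lit 4) (nat_lit 0x15000) (nat_lit 0x100010001000000000000000000000000))) (.non (nat_lit 1) (nat_lit 4) (nat_lit 0x15400) (nat_lit 0x100010001000100000000000000000000))) (.non (nat_lit 1) (nat_lit 5) (nat_lit 0x15140) (nat_lit 0x300020001000000040003000000000000)))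 (.non (nat_lit 1) (nat_lit 5) (nat_lit 0x15140) (nat_lit 0x300020001000000030004000000000000))) (.non (nat_lit 1) (nat_lit 4) (nat_lit 0x14010) (nat_lit 0x100010000000000000000000100000000))) (.non (nat_lit 2) (nat_lit 5) (nat_lit 0x10145) (nat_lit 0x100000000000000030004000000020003))) (.non (nat_lit 1) (nat_lit 5) (nat_lit 0x14141) (nat_lit 0x200010000000000030004000000000003))))

noncomputable def t189_24 : Tr := (.ex (nat_lit 8) (.split (nat_lit 7) (nat_lit 2) (.split (nat_lit 7) (nat_lit 6) (.split (nat_lit 8) (nat_lit 6) (.pd (.cons (nat_lit 1) (nat_lit 3) (nat_lit 0) (nat_lit 0x627650200) (nat_lit 0xf423f61a7965b97b71aef423f000005b8cc00000f423f) (.cons (nat_lit 2) (nat_lit 3) (nat_lit 0) (nat_lit 0x665440000) (nat_lit 0xf423ff423f7a11d7a11b7a1190000000000f423fb71ae) .nil)) (.split (nat_lit 3) (nat_lit 0) (.leaf (.cons (nat_lit 0x4014) (nat_lit 0x10000000000000000000200020000) (.cons (nat_lit 0x11540) (nat_lit 0x100000002000300040003000000000000) (.cons (nat_lit 0x541) (nat_lit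 0x100020002000000000001) .nil))) (.cons (nat_lit 0x11011) (nat_lit 0x100100) (nat_lit 0x10) (nat_lit 0x1032) .nil)) (.non (nat_lit 1) (nat_lit 5) (nat_lit 0x141) (nat_lit 0x10001000000000001)))) (.non (nat_lit 1) (nat_lit 4) (nat_lit 0x25400) (nat_lit 0x100010002000100000000000000000000))) (.non (nat_lit 1) (nat_lit 4) (nat_lit 0x19400) (nat_lit 0x100010002000100000000000000000000))) (.non (nat_lit 1) (nat_lit 4) (nat_lit 0x2a810) (nat_lit 0x100020002000100000000000200000000))) (.split (nat_lit 9) (nat_lit 0) (.split (nat_lit 9) (nat_lit 1) (.split (nat_lit 9) (nat_lit 2) (.split (nat_lit 9) (nat_lit 3) (.split (nat_lit 9) (nat_lit 4) (.split (nat_lit 9) (nat_lit 5) (.split (nat_lit 9) (nat_lit 6) (.split (nat_lit 9) (nat_lit 7) (.split (nat_lit 9) (nat_lit 8) (.split (nat_lit 8) (nat_lit 6) (.split (nat_lit 7) (nat_lit 2) (.split (nat_lit 7) (nat_lit 6) (.par (nat_lit 0x55510) (nat_lit 0x1000200020003000200010000000100000000)) (.non (nat_lit 1) (nat_lit 4) (nat_lit 0x19400) (nat_lit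 0x100010002000100000000000000000000))) (.non (nat_lit 1) (nat_lit 4) (nat_lit 0x2a810) (nat_lit 0x100020002000100000000000200000000))) (.non (nat_lit 1) (nat_lit 4) (nat_lit 0x25400) (nat_lit 0x100010002000100000000000000000000))) (.non (nat_lit 1) (nat_lit 4) (nat_lit 0x95400) (nat_lit 0x1000200010002000100000000000000000000))) (.non (nat_lit 1) (nat_lit 4) (nat_lit 0x55000) (nat_lit 0x1000100010001000000000000000000000000))) (.non (nat_lit 1) (nat_lit 4) (nat_lit 0x51000) (nat_lit 0x1000100000001000000000000000000000000))) (.non (nat_lit 1) (nat_lit 4) (nat_lit 0x51400) (nat_lit 0x1000100000001000100000000000000000000))) (.non (nat_lit 1) (nat_lit 5) (nat_lit 0x51140) (nat_lit 0x3000200000001000000040003000000000000))) (.non (nat_lit 1) (nat_lit 5) (nat_lit 0x51140) (nat_lit 0x3000200000001000000030004000000000000))) (.non (nat_lit 1) (nat_lit 4) (nat_lit 0x55010) (nat_lit 0x1000100010001000000000000000100000000))) (.non (nat_lit 2) (nat_lit 5) (nat_lit 0x40145) (nat_lit 0x1000000000000000000030004000000020003)))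 (.non (nat_lit 1) (nat_lit 5) (nat_lit 0x50141) (nat_lit 0x2000100000000000000030004000000000003))))

noncomputable def t189_25 : Tr := (.ex (nat_lit 2) (.ex (nat_lit 5) (.ex (nat_lit 6) (.pd (.cons (nat_lit 0) (nat_lit 7) (nat_lit 0x110) (nat_lit 0x5433120) (nat_lit 0xf423fb71aea2c2804737000010000100000) .nil) t189_23) (.split (nat_lit 8) (nat_lit 0) (.split (nat_lit 8) (nat_lit 1) (.split (nat_lit 8) (nat_lit 2) (.split (nat_lit 8) (nat_lit 3) (.split (nat_lit 8) (nat_lit 4) (.split (nat_lit 8) (nat_lit 5) (.split (nat_lit 8) (nat_lit 7) (.st (nat_lit 6) (nat_lit 1) (nat_lit 4) (nat_lit 0x15400) (nat_lit 0x100010002000100000000000000000000) (nat_lit 1) (nat_lit 1) (.st (nat_lit 7) (nat_lit 1) (nat_lit 4) (nat_lit 0x15410) (nat_lit 0x100020002000100000000000100000000) (nat_lit 1) (nat_lit 1) t189_24)) (.non (nat_lit 1) (nat_lit 4) (nat_lit 0x15000) (nat_lit 0x100010001000000000000000000000000))) (.non (nat_lit 1) (nat_lit 4) (nat_lit 0x11400) (nat_lit 0x100000001000100000000000000000000)))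 (.non (nat_lit 1) (nat_lit 5) (nat_lit 0x15140) (nat_lit 0x300010002000000040003000000000000))) (.non (nat_lit 1) (nat_lit 5) (nat_lit 0x15140) (nat_lit 0x300010002000000030004000000000000))) (.non (nat_lit 1) (nat_lit 4) (nat_lit 0x15010) (nat_lit 0x100010001000000000000000100000000))) (.non (nat_lit 2) (nat_lit 5) (nat_lit 0x10145) (nat_lit 0x100000000000000030004000000020003))) (.non (nat_lit 1) (nat_lit 5) (nat_lit 0x11141) (nat_lit 0x200000001000000030004000000000003)))) (.split (nat_lit 8) (nat_lit 0) (.split (nat_lit 8) (nat_lit 1) (.split (nat_lit 8) (nat_lit 2) (.split (nat_lit 8) (nat_lit 3) (.split (nat_lit 8) (nat_lit 4) (.split (nat_lit 8) (nat_lit 6) (.split (nat_lit 8) (nat_lit 7) (.sup (nat_lit 0x40000000000000000000a00090000) (nat_lit 0x3000000010007000a0008000000000000)) (.non (nat_lit 1) (nat_lit 4) (nat_lit 0x15400) (nat_lit 0x100010001000100000000000000000000))) (.non (nat_lit 1) (nat_lit 4) (nat_lit 0x11400) (nat_lit 0x100000001000100000000000000000000))) (.non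 (nat_lit 1) (nat_lit 5) (nat_lit 0x10141) (nat_lit 0x100000000000000020002000000000001))) (.non (nat_lit 1) (nat_lit 5) (nat_lit 0x10141) (nat_lit 0x100000000000000020002000000000001))) (.star (nat_lit 8) (nat_lit 2) (nat_lit 5))) (.star (nat_lit 8) (nat_lit 1) (nat_lit 5))) (.non (nat_lit 2) (nat_lit 5) (nat_lit 0x10145) (nat_lit 0x100000000000000020002000000010002)))) (.split (nat_lit 8) (nat_lit 0) (.split (nat_lit 8) (nat_lit 1) (.split (nat_lit 8) (nat_lit 3) (.split (nat_lit 8) (nat_lit 4) (.split (nat_lit 8) (nat_lit 5) (.split (nat_lit 8) (nat_lit 6) (.split (nat_lit 8) (nat_lit 7) (.sup (nat_lit 0x1000500080007000000000002) (nat_lit 0x200020000000000000000000500030000)) (.non (nat_lit 1) (nat_lit 4) (nat_lit 0x14010) (nat_lit 0x100010000000000000000000100000000))) (.non (nat_lit 1) (nat_lit 4) (nat_lit 0x15010) (nat_lit 0x100010001000000000000000100000000))) (.star (nat_lit 8) (nat_lit 2) (nat_lit 5))) (.star (nat_lit 8) (nat_lit 2) (nat_lit 4))) (.non (nat_lit 1) (nat_lit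 5) (nat_lit 0x14150) (nat_lit 0x300010000000000030004000200000000))) (.non (nat_lit 2) (nat_lit 5) (nat_lit 0x10145) (nat_lit 0x100000000000000030004000000020003))) (.non (nat_lit 1) (nat_lit 5) (nat_lit 0x10151) (nat_lit 0x200000000000000030004000100000003))))

noncomputable def t189_26 : Tr := (.ex (nat_lit 4) (.ex (nat_lit 5) (.split (nat_lit 6) (nat_lit 0) (.split (nat_lit 7) (nat_lit 2) (.split (nat_lit 7) (nat_lit 6) (.pd (.cons (nat_lit 0) (nat_lit 7) (nat_lit 0x110) (nat_lit 0x5433120) (nat_lit 0xf423fb71aea2c2804737000010000100000) (.cons (nat_lit 1) (nat_lit 3) (nat_lit 0) (nat_lit 0x60650700) (nat_lit 0xb71ae51611b71aef423f00000f423f000003d085) (.cons (nat_lit 1) (nat_lit 6) (nat_lit 0) (nat_lit 0x20433200) (nat_lit 0xf423f00000f423fb71ae1f156b71ae00000f423f) (.cons (nat_lit 2) (nat_lit 3) (nat_lit 0) (nat_lit 0x60650000) (nat_lit 0xf423f65b97b71aef423f0000000000f423f249e8) (.cons (nat_lit 2) (nat_lit 6) (nat_lit 0) (nat_lit 0x70433000) (nat_lit 0xf423f00000f423fb71ae1f15600000f423fb71ae)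 .nil))))) (.leaf (.cons (nat_lit 0x4014) (nat_lit 0x10000000000000000000200020000) (.cons (nat_lit 0x1541) (nat_lit 0x2000300040003000000000001) .nil)) .nil)) (.non (nat_lit 1) (nat_lit 4) (nat_lit 0x9401) (nat_lit 0x10002000100000000000000000001))) (.non (nat_lit 1) (nat_lit 4) (nat_lit 0x5421) (nat_lit 0x20002000100000000000100000001))) (.non (nat_lit 1) (nat_lit 4) (nat_lit 0xa801) (nat_lit 0x10002000100000000000000000002))) (.split (nat_lit 8) (nat_lit 0) (.split (nat_lit 8) (nat_lit 1) (.split (nat_lit 8) (nat_lit 2) (.split (nat_lit 8) (nat_lit 6) (.split (nat_lit 8) (nat_lit 7) (.split (nat_lit 8) (nat_lit 3) (.split (nat_lit 8) (nat_lit 4) (.sup (nat_lit 0x9000a0004) (nat_lit 0x3000000010007000a0008000000000000)) (.unj (nat_lit 0x15) (nat_lit 0x200020001) (nat_lit 0x10500) (nat_lit 0x100000000000100010000000000000000))) (.split (nat_lit 8) (nat_lit 4) (.unj (nat_lit 0x15) (nat_lit 0x200020001) (nat_lit 0x10540) (nat_lit 0x100000000000100010001000000000000)) (.non (nat_lit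 1) (nat_lit 5) (nat_lit 0x10140) (nat_lit 0x100000000000000010001000000000000)))) (.non (nat_lit 1) (nat_lit 4) (nat_lit 0x15400) (nat_lit 0x100010001000100000000000000000000))) (.non (nat_lit 1) (nat_lit 4) (nat_lit 0x11400) (nat_lit 0x100000001000100000000000000000000))) (.star (nat_lit 8) (nat_lit 2) (nat_lit 5))) (.star (nat_lit 8) (nat_lit 1) (nat_lit 5))) (.non (nat_lit 1) (nat_lit 4) (nat_lit 0x11401) (nat_lit 0x100000001000100000000000000000001)))) (.split (nat_lit 8) (nat_lit 0) (.split (nat_lit 8) (nat_lit 1) (.split (nat_lit 8) (nat_lit 2) (.split (nat_lit 8) (nat_lit 3) (.split (nat_lit 8) (nat_lit 6) (.split (nat_lit 8) (nat_lit 7) (.split (nat_lit 8) (nat_lit 5) (.unj (nat_lit 0x15) (nat_lit 0x200020001) (nat_lit 0x10540) (nat_lit 0x100000000000100020002000000000000)) (.unj (nat_lit 0x15) (nat_lit 0x200020001) (nat_lit 0x10500) (nat_lit 0x100000000000100010000000000000000))) (.non (nat_lit 1) (nat_lit 4) (nat_lit 0x15411) (nat_lit 0x100020002000100000000000100000001)))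 (.non (nat_lit 1) (nat_lit 4) (nat_lit 0x15401) (nat_lit 0x100010002000100000000000000000001))) (.non (nat_lit 1) (nat_lit 5) (nat_lit 0x10140) (nat_lit 0x100000000000000010001000000000000))) (.star (nat_lit 8) (nat_lit 2) (nat_lit 4))) (.star (nat_lit 8) (nat_lit 1) (nat_lit 4))) (.non (nat_lit 1) (nat_lit 5) (nat_lit 0x11141) (nat_lit 0x300000001000000040003000000000002))))

noncomputable def t189_27 : Tr := (.ex (nat_lit 4) (.ex (nat_lit 5) (.split (nat_lit 6) (nat_lit 0) (.split (nat_lit 7) (nat_lit 2) (.split (nat_lit 8) (nat_lit 2) (.split (nat_lit 7) (nat_lit 6) (.pd (.cons (nat_lit 1) (nat_lit 3) (nat_lit 0) (nat_lit 0x260650700) (nat_lit 0xf423fa2c284734eb71aef423f00000b71ae0000022dfa) (.cons (nat_lit 1) (nat_lit 6) (nat_lit 0) (nat_lit 0x220433200) (nat_lit 0xf423ff423f00000f423fb71ae1f1567a11d00000f423f) (.cons (nat_lit 2) (nat_lit 3) (nat_lit 0) (nat_lit 0x860650000) (nat_lit 0xf423ff423f65b97b71aef423f0000000000f423f249e8) (.cons (nat_lit 2) (nat_lit 6) (nat_lit 0) (nat_lit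 0x870433000) (nat_lit 0xf423ff423f00000f423fb71ae1f15600000f423fb71ae) .nil)))) (.leaf (.cons (nat_lit 0x10014) (nat_lit 0x100000000000000000000000200020000) (.cons (nat_lit 0x1541) (nat_lit 0x2000300040003000000000001) .nil)) .nil)) (.non (nat_lit 1) (nat_lit 4) (nat_lit 0x16810) (nat_lit 0x100030002000100000000000200000000))) (.non (nat_lit 1) (nat_lit 4) (nat_lit 0x25411) (nat_lit 0x100020002000100000000000200000001))) (.non (nat_lit 1) (nat_lit 4) (nat_lit 0x1a810) (nat_lit 0x200030002000100000000000400000000))) (.non (nat_lit 1) (nat_lit 4) (nat_lit 0xa801) (nat_lit 0x10002000100000000000000000002))) (.split (nat_lit 9) (nat_lit 0) (.split (nat_lit 9) (nat_lit 1) (.split (nat_lit 9) (nat_lit 2) (.split (nat_lit 9) (nat_lit 3) (.split (nat_lit 9) (nat_lit 6) (.split (nat_lit 9) (nat_lit 7) (.split (nat_lit 9) (nat_lit 8) (.split (nat_lit 9) (nat_lit 4) (.unj (nat_lit 0x10014) (nat_lit 0x100000000000000000000000200020000) (nat_lit 0x41540) (nat_lit 0x1000000000001000200020002000000000000))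 (.unj (nat_lit 0x15) (nat_lit 0x200020001) (nat_lit 0x40500) (nat_lit 0x1000000000000000100010000000000000000))) (.non (nat_lit 1) (nat_lit 4) (nat_lit 0x55410) (nat_lit 0x1000100010001000100000000000100000000))) (.non (nat_lit 1) (nat_lit 4) (nat_lit 0x45400) (nat_lit 0x1000000010001000100000000000000000000))) (.non (nat_lit 1) (nat_lit 4) (nat_lit 0x41400) (nat_lit 0x1000000000001000100000000000000000000))) (.non (nat_lit 1) (nat_lit 4) (nat_lit 0x55451) (nat_lit 0x2000100030004000300000001000200000002))) (.star (nat_lit 9) (nat_lit 2) (nat_lit 5))) (.star (nat_lit 9) (nat_lit 1) (nat_lit 5))) (.non (nat_lit 1) (nat_lit 4) (nat_lit 0x41401) (nat_lit 0x1000000000001000100000000000000000001)))) (.split (nat_lit 9) (nat_lit 0) (.split (nat_lit 9) (nat_lit 1) (.split (nat_lit 9) (nat_lit 2) (.split (nat_lit 9) (nat_lit 3) (.split (nat_lit 9) (nat_lit 6) (.split (nat_lit 9) (nat_lit 7) (.split (nat_lit 9) (nat_lit 8) (.split (nat_lit 9) (nat_lit 5) (.unj (nat_lit 0x15) (nat_lit 0x200020001)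 (nat_lit 0x40540) (nat_lit 0x1000000000000000100020002000000000000)) (.unj (nat_lit 0x15) (nat_lit 0x200020001) (nat_lit 0x40500) (nat_lit 0x1000000000000000100010000000000000000))) (.non (nat_lit 1) (nat_lit 5) (nat_lit 0x50150) (nat_lit 0x3000200000000000000040003000100000000))) (.non (nat_lit 1) (nat_lit 4) (nat_lit 0x45411) (nat_lit 0x1000000020002000100000000000100000001))) (.non (nat_lit 1) (nat_lit 4) (nat_lit 0x45401) (nat_lit 0x1000000010002000100000000000000000001))) (.non (nat_lit 1) (nat_lit 5) (nat_lit 0x40140) (nat_lit 0x1000000000000000000010001000000000000))) (.star (nat_lit 9) (nat_lit 2) (nat_lit 4))) (.star (nat_lit 9) (nat_lit 1) (nat_lit 4))) (.non (nat_lit 1) (nat_lit 5) (nat_lit 0x41141) (nat_lit 0x3000000000001000000040003000000000002))))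

noncomputable def t189_28 : Tr := (.ex (nat_lit 2) (.ex (nat_lit 3) t189_26 (.split (nat_lit 8) (nat_lit 0) (.split (nat_lit 8) (nat_lit 1) (.split (nat_lit 8) (nat_lit 2) (.split (nat_lit 8) (nat_lit 4) (.split (nat_lit 8) (nat_lit 6) (.split (nat_lit 8) (nat_lit 7) (.split (nat_lit 8) (nat_lit 5) (.unj (nat_lit 0x15) (nat_lit 0x200020001) (nat_lit 0x10540) (nat_lit 0x100000000000100020002000000000000)) (.unj (nat_lit 0x15) (nat_lit 0x200020001) (nat_lit 0x10540) (nat_lit 0x100000000000100010001000000000000))) (.non (nat_lit 1) (nat_lit 4) (nat_lit 0x15411) (nat_lit 0x100020002000100000000000100000001))) (.non (nat_lit 1) (nat_lit 4) (nat_lit 0x15401) (nat_lit 0x100010002000100000000000000000001))) (.non (nat_lit 1) (nat_lit 5) (nat_lit 0x10140) (nat_lit 0x100000000000000010001000000000000))) (.non (nat_lit 1) (nat_lit 5) (nat_lit 0x14150) (nat_lit 0x300010000000000030004000200000000))) (.non (nat_lit 2) (nat_lit 5) (nat_lit 0x10145) (nat_lit 0x300000000000000030004000000020001)))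 (.non (nat_lit 1) (nat_lit 5) (nat_lit 0x11141) (nat_lit 0x300000001000000030004000000000002)))) (.split (nat_lit 8) (nat_lit 0) (.split (nat_lit 8) (nat_lit 3) (.split (nat_lit 8) (nat_lit 4) (.split (nat_lit 8) (nat_lit 5) (.split (nat_lit 8) (nat_lit 6) (.split (nat_lit 8) (nat_lit 7) (.split (nat_lit 8) (nat_lit 1) (.ex (nat_lit 3) t189_27 (.split (nat_lit 9) (nat_lit 0) (.split (nat_lit 9) (nat_lit 1) (.split (nat_lit 9) (nat_lit 2) (.split (nat_lit 9) (nat_lit 4) (.split (nat_lit 9) (nat_lit 5) (.split (nat_lit 9) (nat_lit 6) (.split (nat_lit 9) (nat_lit 7) (.split (nat_lit 9) (nat_lit 8) (.unj (nat_lit 0x15) (nat_lit 0x200020001) (nat_lit 0x40540) (nat_lit 0x1000000000000000100020002000000000000)) (.non (nat_lit 1) (nat_lit 5) (nat_lit 0x50150) (nat_lit 0x3000200000000000000030004000100000000))) (.non (nat_lit 1) (nat_lit 4) (nat_lit 0x55450) (nat_lit 0x2000100030002000100000001000200000000))) (.non (nat_lit 1) (nat_lit 4) (nat_lit 0x45401) (nat_lit 0x1000000010002000100000000000000000001)))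 (.non (nat_lit 1) (nat_lit 4) (nat_lit 0x55451) (nat_lit 0x2000100030004000300000001000200000002))) (.non (nat_lit 1) (nat_lit 5) (nat_lit 0x40140) (nat_lit 0x1000000000000000000010001000000000000))) (.non (nat_lit 1) (nat_lit 4) (nat_lit 0x55411) (nat_lit 0x1000100020002000100000000000200000001))) (.non (nat_lit 2) (nat_lit 5) (nat_lit 0x40145) (nat_lit 0x3000000000000000000030004000000020001))) (.non (nat_lit 1) (nat_lit 4) (nat_lit 0x55451) (nat_lit 0x2000100030004000200000001000200000003)))) (.sup (nat_lit 0x400000000000000000000000500030000) (nat_lit 0x2000300050004000000000001))) (.non (nat_lit 1) (nat_lit 4) (nat_lit 0x14010) (nat_lit 0x100010000000000000000000100000000))) (.non (nat_lit 1) (nat_lit 4) (nat_lit 0x15010) (nat_lit 0x100010001000000000000000100000000))) (.star (nat_lit 8) (nat_lit 2) (nat_lit 5))) (.star (nat_lit 8) (nat_lit 2) (nat_lit 4))) (.non (nat_lit 1) (nat_lit 5) (nat_lit 0x14150) (nat_lit 0x300010000000000030004000200000000))) (.non (nat_lit 1) (nat_lit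 4) (nat_lit 0x15011) (nat_lit 0x100010001000000000000000100000001))))

noncomputable def t189_29 : Tr := (.ex (nat_lit 4) (.ex (nat_lit 5) (.split (nat_lit 6) (nat_lit 0) (.split (nat_lit 7) (nat_lit 2) (.split (nat_lit 7) (nat_lit 6) (.split (nat_lit 8) (nat_lit 1) (.pd (.cons (nat_lit 1) (nat_lit 3) (nat_lit 0) (nat_lit 0x860650700) (nat_lit 0xf423fb71ae51611b71aef423f00000f423f000003d085) (.cons (nat_lit 1) (nat_lit 6) (nat_lit 0) (nat_lit 0x820433200) (nat_lit 0xf423ff423f00000f423fb71ae1f156b71ae00000f423f) (.cons (nat_lit 2) (nat_lit 3) (nat_lit 0) (nat_lit 0x160650000) (nat_lit 0xf423ff423f65b97b71aef423f0000000000b71ae10462) (.cons (nat_lit 2) (nat_lit 6) (nat_lit 0) (nat_lit 0x170433000) (nat_lit 0xf423ff423f00000f423fb71ae1f15600000b71aea2c28) .nil)))) (.leaf (.cons (nat_lit 0x10014) (nat_lit 0x100000000000000000000000200020000) (.cons (nat_lit 0x1541) (nat_lit 0x2000300040003000000000001) .nil)) .nil)) (.non (nat_lit 2) (nat_lit 4) (nat_lit 0x25405) (nat_lit 0x100010002000100000000000000020002)))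 (.non (nat_lit 1) (nat_lit 4) (nat_lit 0x9401) (nat_lit 0x10002000100000000000000000001))) (.non (nat_lit 1) (nat_lit 4) (nat_lit 0x5421) (nat_lit 0x20002000100000000000100000001))) (.non (nat_lit 1) (nat_lit 4) (nat_lit 0xa801) (nat_lit 0x10002000100000000000000000002))) (.split (nat_lit 9) (nat_lit 0) (.split (nat_lit 9) (nat_lit 1) (.split (nat_lit 9) (nat_lit 2) (.split (nat_lit 9) (nat_lit 3) (.split (nat_lit 9) (nat_lit 6) (.split (nat_lit 9) (nat_lit 7) (.split (nat_lit 9) (nat_lit 8) (.split (nat_lit 9) (nat_lit 4) (.unj (nat_lit 0x10014) (nat_lit 0x100000000000000000000000200020000) (nat_lit 0x41540) (nat_lit 0x1000000000001000200020002000000000000)) (.unj (nat_lit 0x15) (nat_lit 0x200020001) (nat_lit 0x40500) (nat_lit 0x1000000000000000100010000000000000000))) (.non (nat_lit 2) (nat_lit 4) (nat_lit 0x51405) (nat_lit 0x1000100000001000100000000000000010001))) (.non (nat_lit 1) (nat_lit 4) (nat_lit 0x45400) (nat_lit 0x1000000010001000100000000000000000000))) (.non (nat_lit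 1) (nat_lit 4) (nat_lit 0x41400) (nat_lit 0x1000000000001000100000000000000000000))) (.non (nat_lit 2) (nat_lit 4) (nat_lit 0x55445) (nat_lit 0x2000100020004000300000001000000020003))) (.star (nat_lit 9) (nat_lit 2) (nat_lit 5))) (.star (nat_lit 9) (nat_lit 1) (nat_lit 5))) (.non (nat_lit 1) (nat_lit 4) (nat_lit 0x41401) (nat_lit 0x1000000000001000100000000000000000001)))) (.split (nat_lit 9) (nat_lit 0) (.split (nat_lit 9) (nat_lit 1) (.split (nat_lit 9) (nat_lit 2) (.split (nat_lit 9) (nat_lit 3) (.split (nat_lit 9) (nat_lit 6) (.split (nat_lit 9) (nat_lit 7) (.split (nat_lit 9) (nat_lit 8) (.split (nat_lit 9) (nat_lit 5) (.unj (nat_lit 0x15) (nat_lit 0x200020001) (nat_lit 0x40540) (nat_lit 0x1000000000000000100020002000000000000)) (.unj (nat_lit 0x15) (nat_lit 0x200020001) (nat_lit 0x40500) (nat_lit 0x1000000000000000100010000000000000000))) (.non (nat_lit 2) (nat_lit 5) (nat_lit 0x50144) (nat_lit 0x3000200000000000000040003000000010000))) (.non (nat_lit 1) (nat_lit 4) (nat_lit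 0x45411) (nat_lit 0x1000000020002000100000000000100000001))) (.non (nat_lit 1) (nat_lit 4) (nat_lit 0x45401) (nat_lit 0x1000000010002000100000000000000000001))) (.non (nat_lit 1) (nat_lit 5) (nat_lit 0x40140) (nat_lit 0x1000000000000000000010001000000000000))) (.star (nat_lit 9) (nat_lit 2) (nat_lit 4))) (.star (nat_lit 9) (nat_lit 1) (nat_lit 4))) (.non (nat_lit 1) (nat_lit 5) (nat_lit 0x41141) (nat_lit 0x3000000000001000000040003000000000002))))

noncomputable def t189_30 : Tr := (.split (nat_lit 3) (nat_lit 0) (.st (nat_lit 0) (nat_lit 2) (nat_lit 4) (nat_lit 0x5405) (nat_lit 0x10002000100000000000000010002) (nat_lit 1) (nat_lit 1) (.st (nat_lit 6) (nat_lit 1) (nat_lit 4) (nat_lit 0x5401) (nat_lit 0x10002000100000000000000000001) (nat_lit 1) (nat_lit 1) (.st (nat_lit 7) (nat_lit 1) (nat_lit 4) (nat_lit 0x5411) (nat_lit 0x20002000100000000000100000001) (nat_lit 1) (nat_lit 1) (.ex (nat_lit 1) t189_28 (.split (nat_lit 8) (nat_lit 0) (.split (nat_lit 8) (nat_lit 3) (.split (nat_lit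 8) (nat_lit 4) (.split (nat_lit 8) (nat_lit 5) (.split (nat_lit 8) (nat_lit 6) (.split (nat_lit 8) (nat_lit 7) (.split (nat_lit 8) (nat_lit 2) (.ex (nat_lit 3) t189_29 (.split (nat_lit 9) (nat_lit 0) (.split (nat_lit 9) (nat_lit 1) (.split (nat_lit 9) (nat_lit 2) (.split (nat_lit 9) (nat_lit 4) (.split (nat_lit 9) (nat_lit 5) (.split (nat_lit 9) (nat_lit 6) (.split (nat_lit 9) (nat_lit 7) (.split (nat_lit 9) (nat_lit 8) (.unj (nat_lit 0x15) (nat_lit 0x200020001) (nat_lit 0x40540) (nat_lit 0x1000000000000000100020002000000000000)) (.non (nat_lit 2) (nat_lit 5) (nat_lit 0x50144) (nat_lit 0x3000200000000000000030004000000010000))) (.non (nat_lit 1) (nat_lit 4) (nat_lit 0x45411) (nat_lit 0x1000000020002000100000000000100000001))) (.non (nat_lit 1) (nat_lit 4) (nat_lit 0x45401) (nat_lit 0x1000000010002000100000000000000000001))) (.non (nat_lit 2) (nat_lit 4) (nat_lit 0x55445) (nat_lit 0x2000100020004000300000001000000020003))) (.non (nat_lit 1) (nat_lit 5) (nat_lit 0x40140) (nat_lit 0x1000000000000000000010001000000000000)))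 (.non (nat_lit 1) (nat_lit 5) (nat_lit 0x44150) (nat_lit 0x3000000010000000000030004000200000000))) (.non (nat_lit 2) (nat_lit 4) (nat_lit 0x55405) (nat_lit 0x1000100010002000100000000000000020002))) (.non (nat_lit 1) (nat_lit 5) (nat_lit 0x41141) (nat_lit 0x3000000000001000000030004000000000002)))) (.sup (nat_lit 0x400000000000000000000000500030000) (nat_lit 0x2000300050004000000000001))) (.non (nat_lit 1) (nat_lit 4) (nat_lit 0x15411) (nat_lit 0x100020002000100000000000100000001))) (.non (nat_lit 1) (nat_lit 4) (nat_lit 0x15401) (nat_lit 0x100010002000100000000000000000001))) (.star (nat_lit 8) (nat_lit 1) (nat_lit 5))) (.star (nat_lit 8) (nat_lit 1) (nat_lit 4))) (.non (nat_lit 2) (nat_lit 5) (nat_lit 0x10145) (nat_lit 0x300000000000000030004000000020001))) (.non (nat_lit 2) (nat_lit 4) (nat_lit 0x10005) (nat_lit 0x100000000000000000000000000010001))))))) (.non (nat_lit 1) (nat_lit 5) (nat_lit 0x5141) (nat_lit 0x10002000000030004000000000003)))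

noncomputable def t189_31 : Tr := (.split (nat_lit 7) (nat_lit 2) (.split (nat_lit 6) (nat_lit 0) (.split (nat_lit 3) (nat_lit 0) .uj (.st (nat_lit 1) (nat_lit 2) (nat_lit 5) (nat_lit 0x145) (nat_lit 0x30004000000020003) (nat_lit 1) (nat_lit 1) (.st (nat_lit 3) (nat_lit 1) (nat_lit 5) (nat_lit 0x141) (nat_lit 0x20002000000000001) (nat_lit 1) (nat_lit 1) t189_10))) (.split (nat_lit 3) (nat_lit 0) (.st (nat_lit 0) (nat_lit 2) (nat_lit 4) (nat_lit 0x5405) (nat_lit 0x10002000100000000000000010002) (nat_lit 1) (nat_lit 1) (.st (nat_lit 6) (nat_lit 1) (nat_lit 4) (nat_lit 0x5401) (nat_lit 0x10002000100000000000000000001) (nat_lit 1) (nat_lit 1) (.ex (nat_lit 1) (.ex (nat_lit 2) (.split (nat_lit 7) (nat_lit 6) (.pd (.cons (nat_lit 0) (nat_lit 4) (nat_lit 0x110) (nat_lit 0x65503120) (nat_lit 0xf423fb71aea2c2800000f423f000010000100000) (.cons (nat_lit 0) (nat_lit 5) (nat_lit 0x110) (nat_lit 0x66033120) (nat_lit 0xf423fb71ae00000f423f54591000010000100000) .nil)) t189_12) (.non (nat_lit 1)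 (nat_lit 4) (nat_lit 0x9401) (nat_lit 0x10002000100000000000000000001))) (.split (nat_lit 8) (nat_lit 0) (.split (nat_lit 8) (nat_lit 4) (.split (nat_lit 8) (nat_lit 5) (.split (nat_lit 8) (nat_lit 6) t189_14 (.non (nat_lit 1) (nat_lit 4) (nat_lit 0x15401) (nat_lit 0x100010002000100000000000000000001))) (.star (nat_lit 8) (nat_lit 2) (nat_lit 5))) (.star (nat_lit 8) (nat_lit 2) (nat_lit 4))) (.non (nat_lit 2) (nat_lit 4) (nat_lit 0x15405) (nat_lit 0x100010002000100000000000000010002)))) (.split (nat_lit 8) (nat_lit 0) (.split (nat_lit 8) (nat_lit 3) (.split (nat_lit 8) (nat_lit 4) (.split (nat_lit 8) (nat_lit 5) (.split (nat_lit 8) (nat_lit 6) (.split (nat_lit 8) (nat_lit 7) (.split (nat_lit 8) (nat_lit 2) (.unj (nat_lit 0x10014) (nat_lit 0x100000000000000000000000200020000) (nat_lit 0x5540) (nat_lit 0x10002000300040003000000000000)) (.unj (nat_lit 0x10014) (nat_lit 0x100000000000000000000000100010000) (nat_lit 0x5540) (nat_lit 0x10002000300040003000000000000))) (.non (nat_lit 2)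 (nat_lit 4) (nat_lit 0x15005) (nat_lit 0x100010001000000000000000000010001))) (.non (nat_lit 1) (nat_lit 4) (nat_lit 0x15401) (nat_lit 0x100010002000100000000000000000001))) (.star (nat_lit 8) (nat_lit 1) (nat_lit 5))) (.star (nat_lit 8) (nat_lit 1) (nat_lit 4))) (.non (nat_lit 2) (nat_lit 5) (nat_lit 0x10145) (nat_lit 0x300000000000000030004000000020001))) (.non (nat_lit 2) (nat_lit 4) (nat_lit 0x10005) (nat_lit 0x100000000000000000000000000010001)))))) (.non (nat_lit 1) (nat_lit 5) (nat_lit 0x5141) (nat_lit 0x10002000000030004000000000003)))) (.split (nat_lit 6) (nat_lit 0) (.split (nat_lit 3) (nat_lit 0) t189_22 (.st (nat_lit 1) (nat_lit 2) (nat_lit 5) (nat_lit 0x145) (nat_lit 0x30004000000020003) (nat_lit 1) (nat_lit 1) (.st (nat_lit 3) (nat_lit 1) (nat_lit 5) (nat_lit 0x141) (nat_lit 0x20002000000000001) (nat_lit 1) (nat_lit 1) (.st (nat_lit 4) (nat_lit 1) (nat_lit 5) (nat_lit 0x141) (nat_lit 0x20002000000000001) (nat_lit 1) (nat_lit 1) (.st (nat_lit 0) (nat_lit 2) (nat_lit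 5) (nat_lit 0x145) (nat_lit 0x20002000000010002) (nat_lit 1) (nat_lit 1) t189_25))))) t189_30))

noncomputable def t189_32 : Tr := (.ex (nat_lit 0) (.ex (nat_lit 8) (.leaf (.cons (nat_lit 0x4014) (nat_lit 0x10000000000000000000200020000) .nil) (.cons (nat_lit 0x111110011) (nat_lit 0x1100) (nat_lit 5) (nat_lit 0x632100045) (.cons (nat_lit 0x111100011) (nat_lit 0x10100) (nat_lit 4) (nat_lit 0x521000034) (.cons (nat_lit 0x111000011) (nat_lit 0x100100) (nat_lit 3) (nat_lit 0x410000023) .nil)))) (.split (nat_lit 9) (nat_lit 0) (.split (nat_lit 9) (nat_lit 1) (.split (nat_lit 9) (nat_lit 2) (.split (nat_lit 9) (nat_lit 3) (.split (nat_lit 9) (nat_lit 4) (.split (nat_lit 9) (nat_lit 5) (.split (nat_lit 9) (nat_lit 6) (.split (nat_lit 9) (nat_lit 7) (.sup (nat_lit 0x10006000b0010000d000000000000) (nat_lit 0x1000200000000000000000000000300040003)) (.non (nat_lit 2) (nat_lit 4) (nat_lit 0x54005) (nat_lit 0x1000100010000000000000000000000010001))) (.non (nat_lit 2) (nat_lit 4) (nat_lit 0x55005)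 (nat_lit 0x1000100010001000000000000000000010001))) (.non (nat_lit 2) (nat_lit 4) (nat_lit 0x55405) (nat_lit 0x1000100010001000100000000000000010001))) (.non (nat_lit 1) (nat_lit 5) (nat_lit 0x50141) (nat_lit 0x3000200000000000000040003000000000001))) (.non (nat_lit 1) (nat_lit 5) (nat_lit 0x50141) (nat_lit 0x3000200000000000000030004000000000001))) (.non (nat_lit 0) (nat_lit 7) (nat_lit 0x40014) (nat_lit 0x1000000000000000000000000000200020000))) (.non (nat_lit 2) (nat_lit 4) (nat_lit 0x50005) (nat_lit 0x1000100000000000000000000000000010001))) (.non (nat_lit 1) (nat_lit 4) (nat_lit 0x50001) (nat_lit 0x1000100000000000000000000000000000001)))) (.split (nat_lit 9) (nat_lit 1) (.split (nat_lit 9) (nat_lit 2) (.split (nat_lit 9) (nat_lit 3) (.split (nat_lit 9) (nat_lit 4) (.split (nat_lit 9) (nat_lit 5) (.split (nat_lit 9) (nat_lit 6) (.split (nat_lit 9) (nat_lit 7) (.split (nat_lit 9) (nat_lit 8) (.sup (nat_lit 0x20006000b0010000d000000000000) (nat_lit 0x1000100000000000000000000000300030003))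 (.non (nat_lit 1) (nat_lit 4) (nat_lit 0x50001) (nat_lit 0x1000100000000000000000000000000000001))) (.non (nat_lit 2) (nat_lit 4) (nat_lit 0x44005) (nat_lit 0x1000000010000000000000000000000010001))) (.non (nat_lit 2) (nat_lit 4) (nat_lit 0x45005) (nat_lit 0x1000000010001000000000000000000010001))) (.non (nat_lit 2) (nat_lit 4) (nat_lit 0x45405) (nat_lit 0x1000000010001000100000000000000010001))) (.non (nat_lit 1) (nat_lit 5) (nat_lit 0x50141) (nat_lit 0x3000100000000000000040003000000000002))) (.non (nat_lit 1) (nat_lit 5) (nat_lit 0x50141) (nat_lit 0x3000100000000000000030004000000000002))) (.non (nat_lit 0) (nat_lit 7) (nat_lit 0x40014) (nat_lit 0x1000000000000000000000000000200020000))) (.non (nat_lit 2) (nat_lit 4) (nat_lit 0x40005) (nat_lit 0x1000000000000000000000000000000010001))))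

noncomputable def t189_33 : Tr := (.ex (nat_lit 7) (.split (nat_lit 7) (nat_lit 6) (.pd (.cons (nat_lit 1) (nat_lit 3) (nat_lit 0) (nat_lit 0x65440200) (nat_lit 0xf423fb71aea2c289896500000f423f00000f423f) (.cons (nat_lit 2) (nat_lit 3) (nat_lit 0) (nat_lit 0x17650000) (nat_lit 0x98965a2c28b71aef423f0000000000927bd8e6a2) .nil)) (.ex (nat_lit 0) (.leaf (.cons (nat_lit 0x4014) (nat_lit 0x10000000000000000000200020000) .nil) (.cons (nat_lit 0x11100011) (nat_lit 0x10100) (nat_lit 3) (nat_lit 0x23400010) (.cons (nat_lit 0x11000011) (nat_lit 0x100100) (nat_lit 2) (nat_lit 0x23000010) .nil))) (.split (nat_lit 8) (nat_lit 1) (.split (nat_lit 8) (nat_lit 2) (.split (nat_lit 8) (nat_lit 3) (.split (nat_lit 8) (nat_lit 4) (.split (nat_lit 8) (nat_lit 5) (.split (nat_lit 8) (nat_lit 6) (.split (nat_lit 8) (nat_lit 7) (.split (nat_lit 8) (nat_lit 0) t189_32 (.sup (nat_lit 0x20006000b0010000d000000000000) (nat_lit 0x200000000000000000000000300030003))) (.non (nat_lit 2) (nat_lit 4) (nat_lit 0x14005)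 (nat_lit 0x100010000000000000000000000010001))) (.non (nat_lit 2) (nat_lit 4) (nat_lit 0x15005) (nat_lit 0x100010001000000000000000000010001))) (.non (nat_lit 2) (nat_lit 4) (nat_lit 0x15405) (nat_lit 0x100010001000100000000000000010001))) (.non (nat_lit 2) (nat_lit 5) (nat_lit 0x10145) (nat_lit 0x300000000000000040003000000010002))) (.non (nat_lit 2) (nat_lit 5) (nat_lit 0x10145) (nat_lit 0x300000000000000030004000000010002))) (.non (nat_lit 0) (nat_lit 7) (nat_lit 0x10014) (nat_lit 0x100000000000000000000000200020000))) (.non (nat_lit 2) (nat_lit 4) (nat_lit 0x10005) (nat_lit 0x100000000000000000000000000010001))))) (.non (nat_lit 2) (nat_lit 4) (nat_lit 0x6805) (nat_lit 0x30002000100000000000000020001))) (.split (nat_lit 8) (nat_lit 0) (.split (nat_lit 8) (nat_lit 1) (.split (nat_lit 8) (nat_lit 2) (.split (nat_lit 8) (nat_lit 3) (.split (nat_lit 8) (nat_lit 4) (.split (nat_lit 8) (nat_lit 5) (.split (nat_lit 8) (nat_lit 6) (.st (nat_lit 7) (nat_lit 2) (nat_lit 4) (nat_lit 0x15004)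 (nat_lit 0x100020001000000000000000000010000) (nat_lit 1) (nat_lit 1) (.split (nat_lit 7) (nat_lit 6) (.split (nat_lit 8) (nat_lit 7) (.pd (.cons (nat_lit 1) (nat_lit 3) (nat_lit 0) (nat_lit 0x765440200) (nat_lit 0xf423fb71aea2c2898965927bd00000f423f00000f423f) (.cons (nat_lit 2) (nat_lit 3) (nat_lit 0) (nat_lit 0x717650000) (nat_lit 0xf423f5b8d4a2c28b71aef423f00000000005160d3d07c) .nil)) (.st (nat_lit 0) (nat_lit 2) (nat_lit 3) (nat_lit 0x15505) (nat_lit 0x200040003000200010000000000030002) (nat_lit 1) (nat_lit 1) (.st (nat_lit 8) (nat_lit 2) (nat_lit 4) (nat_lit 0x15405) (nat_lit 0x200030002000100000000000000020001) (nat_lit 1) (nat_lit 1) (.leaf (.cons (nat_lit 0x4014) (nat_lit 0x10000000000000000000200020000) .nil) (.cons (nat_lit 0x111000011) (nat_lit 0x100100) (nat_lit 8) (nat_lit 0x201000034) (.cons (nat_lit 0x110000011) (nat_lit 0x1000100) (nat_lit 2) (nat_lit 0x320000010) .nil)))))) (.non (nat_lit 2) (nat_lit 4) (nat_lit 0x25004) (nat_lit 0x100020001000000000000000000010000)))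 (.non (nat_lit 2) (nat_lit 4) (nat_lit 0x16004) (nat_lit 0x100020001000000000000000000010000)))) (.non (nat_lit 1) (nat_lit 4) (nat_lit 0x15000) (nat_lit 0x100010001000000000000000000000000))) (.non (nat_lit 1) (nat_lit 4) (nat_lit 0x15400) (nat_lit 0x100010001000100000000000000000000))) (.non (nat_lit 1) (nat_lit 5) (nat_lit 0x15140) (nat_lit 0x300020001000000040003000000000000))) (.non (nat_lit 1) (nat_lit 5) (nat_lit 0x15140) (nat_lit 0x300020001000000030004000000000000))) (.non (nat_lit 0) (nat_lit 7) (nat_lit 0x10014) (nat_lit 0x100000000000000000000000200020000))) (.non (nat_lit 2) (nat_lit 4) (nat_lit 0x14004) (nat_lit 0x100010000000000000000000000010000))) (.non (nat_lit 2) (nat_lit 4) (nat_lit 0x14005) (nat_lit 0x100010000000000000000000000010001))))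

noncomputable def t189_34 : Tr := (.pd (.cons (nat_lit 1) (nat_lit 6) (nat_lit 0) (nat_lit 0x70433200) (nat_lit 0xf423f00000f423fb71ae1f156f423f00000f423f) (.cons (nat_lit 2) (nat_lit 6) (nat_lit 0) (nat_lit 0x10433000) (nat_lit 0xf423f00000f423fb71ae1f15600000b71aea2c28) .nil)) (.ex (nat_lit 6) (.pd (.cons (nat_lit 0) (nat_lit 7) (nat_lit 0x110) (nat_lit 0x5433120) (nat_lit 0xf423fb71aea2c2804737000010000100000) (.cons (nat_lit 1) (nat_lit 7) (nat_lit 0) (nat_lit 0x5433200) (nat_lit 0xf423fb71aea2c2804737f423f00000f423f) (.cons (nat_lit 2) (nat_lit 7) (nat_lit 0) (nat_lit 0x5433000) (nat_lit 0xf423fb71aea2c280473700000f423fb71ae) .nil))) t189_33) (.split (nat_lit 8) (nat_lit 0) (.split (nat_lit 8) (nat_lit 1) (.split (nat_lit 8) (nat_lit 3) (.split (nat_lit 8) (nat_lit 4) (.split (nat_lit 8) (nat_lit 5) (.split (nat_lit 8) (nat_lit 7) (.split (nat_lit 8) (nat_lit 2) (.unj (nat_lit 0x15) (nat_lit 0x200020001) (nat_lit 0x11540) (nat_lit 0x100000002000300040003000000000000)) (.st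 (nat_lit 6) (nat_lit 1) (nat_lit 4) (nat_lit 0x15400) (nat_lit 0x100010002000100000000000000000000) (nat_lit 1) (nat_lit 1) (.st (nat_lit 7) (nat_lit 2) (nat_lit 4) (nat_lit 0x15404) (nat_lit 0x100020002000100000000000000010000) (nat_lit 1) (nat_lit 1) (.st (nat_lit 8) (nat_lit 1) (nat_lit 4) (nat_lit 0x15410) (nat_lit 0x200010002000100000000000100000000) (nat_lit 1) (nat_lit 1) (.split (nat_lit 8) (nat_lit 2) (.split (nat_lit 7) (nat_lit 6) (.split (nat_lit 8) (nat_lit 6) (.pd (.cons (nat_lit 1) (nat_lit 3) (nat_lit 0) (nat_lit 0x268650200) (nat_lit 0x61a79f423f65b97b71aef423f000005b8cc00000f423f) (.cons (nat_lit 2) (nat_lit 3) (nat_lit 0) (nat_lit 0x617650000) (nat_lit 0xf423f61a7965b97b71aef423f00000000005b8cc515fe) .nil)) (.leaf (.cons (nat_lit 0x10014) (nat_lit 0x100000000000000000000000200020000) (.cons (nat_lit 0x11540) (nat_lit 0x100000002000300040003000000000000) .nil)) .nil)) (.non (nat_lit 1) (nat_lit 4) (nat_lit 0x25400) (nat_lit 0x100010002000100000000000000000000)))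 (.non (nat_lit 1) (nat_lit 4) (nat_lit 0x19400) (nat_lit 0x100010002000100000000000000000000))) (.non (nat_lit 1) (nat_lit 4) (nat_lit 0x2a810) (nat_lit 0x200010002000100000000000200000000))))))) (.non (nat_lit 1) (nat_lit 4) (nat_lit 0x15000) (nat_lit 0x100010001000000000000000000000000))) (.non (nat_lit 1) (nat_lit 4) (nat_lit 0x11400) (nat_lit 0x100000001000100000000000000000000))) (.non (nat_lit 1) (nat_lit 5) (nat_lit 0x15140) (nat_lit 0x300010002000000040003000000000000))) (.non (nat_lit 1) (nat_lit 5) (nat_lit 0x15140) (nat_lit 0x300010002000000030004000000000000))) (.non (nat_lit 2) (nat_lit 4) (nat_lit 0x15004) (nat_lit 0x100010001000000000000000000010000))) (.non (nat_lit 2) (nat_lit 4) (nat_lit 0x15005) (nat_lit 0x100010001000000000000000000010001)))))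

noncomputable def t189_35 : Tr := (.ex (nat_lit 3) (.ex (nat_lit 4) (.ex (nat_lit 5) (.split (nat_lit 7) (nat_lit 1) t189_34 (.non (nat_lit 2) (nat_lit 4) (nat_lit 0xa805) (nat_lit 0x30002000100000000000000040002))) (.split (nat_lit 8) (nat_lit 0) (.split (nat_lit 8) (nat_lit 1) (.split (nat_lit 8) (nat_lit 2) (.split (nat_lit 8) (nat_lit 6) (.split (nat_lit 8) (nat_lit 7) (.split (nat_lit 8) (nat_lit 3) (.split (nat_lit 8) (nat_lit 4) (.unj (nat_lit 0x15) (nat_lit 0x200020001) (nat_lit 0x11540) (nat_lit 0x100000001000200020002000000000000)) (.unj (nat_lit 0x15) (nat_lit 0x200020001) (nat_lit 0x10500) (nat_lit 0x100000000000100010000000000000000))) (.split (nat_lit 8) (nat_lit 4) (.unj (nat_lit 0x15) (nat_lit 0x200020001) (nat_lit 0x10540) (nat_lit 0x100000000000100010001000000000000)) (.non (nat_lit 1) (nat_lit 5) (nat_lit 0x10140) (nat_lit 0x100000000000000010001000000000000)))) (.non (nat_lit 1) (nat_lit 4) (nat_lit 0x15400) (nat_lit 0x100010001000100000000000000000000))) (.non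 (nat_lit 1) (nat_lit 4) (nat_lit 0x11400) (nat_lit 0x100000001000100000000000000000000))) (.star (nat_lit 8) (nat_lit 2) (nat_lit 5))) (.star (nat_lit 8) (nat_lit 1) (nat_lit 5))) (.non (nat_lit 2) (nat_lit 4) (nat_lit 0x15405) (nat_lit 0x100010001000100000000000000010001)))) (.split (nat_lit 8) (nat_lit 0) (.split (nat_lit 8) (nat_lit 1) (.split (nat_lit 8) (nat_lit 2) (.split (nat_lit 8) (nat_lit 3) (.split (nat_lit 8) (nat_lit 6) (.split (nat_lit 8) (nat_lit 7) (.split (nat_lit 8) (nat_lit 5) (.unj (nat_lit 0x15) (nat_lit 0x200020001) (nat_lit 0x10540) (nat_lit 0x100000000000100020002000000000000)) (.unj (nat_lit 0x15) (nat_lit 0x200020001) (nat_lit 0x10500) (nat_lit 0x100000000000100010000000000000000))) (.non (nat_lit 1) (nat_lit 5) (nat_lit 0x15140) (nat_lit 0x300020001000000040003000000000000))) (.non (nat_lit 1) (nat_lit 5) (nat_lit 0x15140) (nat_lit 0x300010002000000040003000000000000))) (.non (nat_lit 1) (nat_lit 5) (nat_lit 0x10140) (nat_lit 0x100000000000000010001000000000000)))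 (.star (nat_lit 8) (nat_lit 2) (nat_lit 4))) (.star (nat_lit 8) (nat_lit 1) (nat_lit 4))) (.non (nat_lit 2) (nat_lit 5) (nat_lit 0x10145) (nat_lit 0x300000000000000040003000000010002)))) (.split (nat_lit 8) (nat_lit 0) (.split (nat_lit 8) (nat_lit 1) (.split (nat_lit 8) (nat_lit 4) (.split (nat_lit 8) (nat_lit 6) (.split (nat_lit 8) (nat_lit 7) (.split (nat_lit 8) (nat_lit 2) (.split (nat_lit 8) (nat_lit 5) (.unj (nat_lit 0x15) (nat_lit 0x200020001) (nat_lit 0x10540) (nat_lit 0x100000000000100020002000000000000)) (.unj (nat_lit 0x15) (nat_lit 0x200020001) (nat_lit 0x10540) (nat_lit 0x100000000000100010001000000000000))) (.split (nat_lit 8) (nat_lit 5) (.split (nat_lit 8) (nat_lit 2) (.sup (nat_lit 0x200000001000500080007000000000000) (nat_lit 0x20000000000000000000300050002)) (.non (nat_lit 1) (nat_lit 5) (nat_lit 0x10150) (nat_lit 0x100000000000000010001000100000000))) (.star (nat_lit 8) (nat_lit 2) (nat_lit 5)))) (.non (nat_lit 1) (nat_lit 5) (nat_lit 0x15140) (nat_lit 0x300020001000000030004000000000000)))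 (.non (nat_lit 1) (nat_lit 5) (nat_lit 0x15140) (nat_lit 0x300010002000000030004000000000000))) (.non (nat_lit 1) (nat_lit 5) (nat_lit 0x10140) (nat_lit 0x100000000000000010001000000000000))) (.non (nat_lit 2) (nat_lit 5) (nat_lit 0x14144) (nat_lit 0x300010000000000030004000000020000))) (.non (nat_lit 2) (nat_lit 5) (nat_lit 0x10145) (nat_lit 0x300000000000000030004000000010002))))

noncomputable def t189_36 : Tr := (.ex (nat_lit 4) (.ex (nat_lit 5) (.split (nat_lit 8) (nat_lit 2) (.split (nat_lit 7) (nat_lit 6) (.split (nat_lit 8) (nat_lit 6) (.split (nat_lit 7) (nat_lit 1) (.pd (.cons (nat_lit 1) (nat_lit 3) (nat_lit 0) (nat_lit 0x268650200) (nat_lit 0x61a79f423f65b97b71aef423f000005b8cc00000f423f) (.cons (nat_lit 1) (nat_lit 6) (nat_lit 0) (nat_lit 0x270433200) (nat_lit 0xf423ff423f00000f423fb71ae1f156b71ae00000f423f) (.cons (nat_lit 2) (nat_lit 3) (nat_lit 0) (nat_lit 0x617650000) (nat_lit 0xf423f61a7965b97b71aef423f00000000005b8cc515fe) (.cons (nat_lit 2) (nat_lit 6) (nat_lit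 0) (nat_lit 0x810433000) (nat_lit 0xf423ff423f00000f423fb71ae1f15600000b71aea2c28) .nil)))) (.leaf (.cons (nat_lit 0x10014) (nat_lit 0x100000000000000000000000200020000) (.cons (nat_lit 0x11540) (nat_lit 0x100000002000300040003000000000000) .nil)) .nil)) (.non (nat_lit 2) (nat_lit 4) (nat_lit 0x2a804) (nat_lit 0x100020002000100000000000000020000))) (.non (nat_lit 1) (nat_lit 4) (nat_lit 0x25400) (nat_lit 0x100010002000100000000000000000000))) (.non (nat_lit 1) (nat_lit 4) (nat_lit 0x19400) (nat_lit 0x100010002000100000000000000000000))) (.non (nat_lit 1) (nat_lit 4) (nat_lit 0x2a810) (nat_lit 0x200010002000100000000000200000000))) (.split (nat_lit 9) (nat_lit 0) (.split (nat_lit 9) (nat_lit 1) (.split (nat_lit 9) (nat_lit 2) (.split (nat_lit 9) (nat_lit 3) (.split (nat_lit 9) (nat_lit 6) (.split (nat_lit 9) (nat_lit 7) (.split (nat_lit 9) (nat_lit 8) (.split (nat_lit 9) (nat_lit 4) (.unj (nat_lit 0x15) (nat_lit 0x200020001) (nat_lit 0x41540) (nat_lit 0x1000000000001000200020002000000000000))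 (.unj (nat_lit 0x15) (nat_lit 0x200020001) (nat_lit 0x40500) (nat_lit 0x1000000000000000100010000000000000000))) (.non (nat_lit 1) (nat_lit 4) (nat_lit 0x51400) (nat_lit 0x1000100000001000100000000000000000000))) (.non (nat_lit 1) (nat_lit 4) (nat_lit 0x45400) (nat_lit 0x1000000010001000100000000000000000000))) (.non (nat_lit 1) (nat_lit 4) (nat_lit 0x41400) (nat_lit 0x1000000000001000100000000000000000000))) (.non (nat_lit 2) (nat_lit 4) (nat_lit 0x55445) (nat_lit 0x2000200030004000300000001000000020001))) (.star (nat_lit 9) (nat_lit 2) (nat_lit 5))) (.star (nat_lit 9) (nat_lit 1) (nat_lit 5))) (.non (nat_lit 2) (nat_lit 4) (nat_lit 0x45405) (nat_lit 0x1000000010001000100000000000000010001)))) (.split (nat_lit 9) (nat_lit 0) (.split (nat_lit 9) (nat_lit 1) (.split (nat_lit 9) (nat_lit 2) (.split (nat_lit 9) (nat_lit 3) (.split (nat_lit 9) (nat_lit 6) (.split (nat_lit 9) (nat_lit 7) (.split (nat_lit 9) (nat_lit 8) (.split (nat_lit 9) (nat_lit 5) (.unj (nat_lit 0x15) (nat_lit 0x200020001)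 (nat_lit 0x40540) (nat_lit 0x1000000000000000100020002000000000000)) (.unj (nat_lit 0x15) (nat_lit 0x200020001) (nat_lit 0x40500) (nat_lit 0x1000000000000000100010000000000000000))) (.non (nat_lit 1) (nat_lit 4) (nat_lit 0x55410) (nat_lit 0x1000200010002000100000000000100000000))) (.non (nat_lit 1) (nat_lit 5) (nat_lit 0x45140) (nat_lit 0x3000000020001000000040003000000000000))) (.non (nat_lit 1) (nat_lit 4) (nat_lit 0x55400) (nat_lit 0x1000100010002000100000000000000000000))) (.non (nat_lit 1) (nat_lit 5) (nat_lit 0x40140) (nat_lit 0x1000000000000000000010001000000000000))) (.star (nat_lit 9) (nat_lit 2) (nat_lit 4))) (.star (nat_lit 9) (nat_lit 1) (nat_lit 4))) (.non (nat_lit 2) (nat_lit 5) (nat_lit 0x40145) (nat_lit 0x3000000000000000000040003000000010002))))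

noncomputable def t189_37 : Tr := (.split (nat_lit 8) (nat_lit 6) (.split (nat_lit 8) (nat_lit 7) (.split (nat_lit 8) (nat_lit 2) (.split (nat_lit 7) (nat_lit 1) (.sup (nat_lit 0x20007000b0010000d000000000000) (nat_lit 0x200000000000000000000000300030001)) (.non (nat_lit 2) (nat_lit 4) (nat_lit 0xa805) (nat_lit 0x30002000100000000000000040002))) (.sup (nat_lit 0x39000000000000000000000050002c0000) (nat_lit 0x6001f003700500041000000000000))) (.split (nat_lit 8) (nat_lit 2) (.split (nat_lit 8) (nat_lit 7) (.split (nat_lit 7) (nat_lit 1) (.sup (nat_lit 0x90031005800800068000000000000) (nat_lit 0x70000000000000000000000180017000b)) (.non (nat_lit 2) (nat_lit 4) (nat_lit 0x2a004) (nat_lit 0x100020001000000000000000000020000))) (.non (nat_lit 1) (nat_lit 4) (nat_lit 0x1a810) (nat_lit 0x400030002000100000000000200000000))) (.split (nat_lit 8) (nat_lit 2) (.split (nat_lit 8) (nat_lit 7) (.split (nat_lit 7) (nat_lit 1) (.sup (nat_lit 0x2900000000000000000000005000390000) (nat_lit 0x6001f003700500041000000000000))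 (.non (nat_lit 2) (nat_lit 4) (nat_lit 0x2a004) (nat_lit 0x100020001000000000000000000020000))) (.non (nat_lit 1) (nat_lit 4) (nat_lit 0x24010) (nat_lit 0x100010000000000000000000100000000))) (.non (nat_lit 1) (nat_lit 4) (nat_lit 0x15410) (nat_lit 0x400030002000100000000000300000000))))) (.split (nat_lit 8) (nat_lit 7) (.st (nat_lit 6) (nat_lit 1) (nat_lit 4) (nat_lit 0x15400) (nat_lit 0x100010002000100000000000000000000) (nat_lit 1) (nat_lit 1) (.st (nat_lit 7) (nat_lit 2) (nat_lit 4) (nat_lit 0x15404) (nat_lit 0x100020002000100000000000000010000) (nat_lit 1) (nat_lit 1) (.st (nat_lit 8) (nat_lit 1) (nat_lit 4) (nat_lit 0x15410) (nat_lit 0x200010002000100000000000100000000) (nat_lit 1) (nat_lit 1) (.ex (nat_lit 3) t189_36 (.split (nat_lit 9) (nat_lit 0) (.split (nat_lit 9) (nat_lit 1) (.split (nat_lit 9) (nat_lit 2) (.split (nat_lit 9) (nat_lit 4) (.split (nat_lit 9) (nat_lit 5) (.split (nat_lit 9) (nat_lit 6) (.split (nat_lit 9) (nat_lit 7) (.split (nat_lit 9) (nat_lit 8) (.unj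 (nat_lit 0x15) (nat_lit 0x200020001) (nat_lit 0x40540) (nat_lit 0x1000000000000000100020002000000000000)) (.non (nat_lit 1) (nat_lit 4) (nat_lit 0x55410) (nat_lit 0x1000200010002000100000000000100000000))) (.non (nat_lit 1) (nat_lit 5) (nat_lit 0x45140) (nat_lit 0x3000000020001000000030004000000000000))) (.non (nat_lit 1) (nat_lit 4) (nat_lit 0x55400) (nat_lit 0x1000100010002000100000000000000000000))) (.non (nat_lit 2) (nat_lit 4) (nat_lit 0x55445) (nat_lit 0x2000200030004000300000001000000020001))) (.non (nat_lit 1) (nat_lit 5) (nat_lit 0x40140) (nat_lit 0x1000000000000000000010001000000000000))) (.non (nat_lit 1) (nat_lit 5) (nat_lit 0x50150) (nat_lit 0x3000100000000000000030004000200000000))) (.non (nat_lit 2) (nat_lit 4) (nat_lit 0x55405) (nat_lit 0x1000100020002000100000000000000020001))) (.non (nat_lit 2) (nat_lit 5) (nat_lit 0x40145) (nat_lit 0x3000000000000000000030004000000010002))))))) (.non (nat_lit 1) (nat_lit 4) (nat_lit 0x15000) (nat_lit 0x100010001000000000000000000000000))))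

noncomputable def t189_38 : Tr := (.ex (nat_lit 1) (.ex (nat_lit 2) t189_35 (.split (nat_lit 8) (nat_lit 4) (.split (nat_lit 8) (nat_lit 5) (.split (nat_lit 8) (nat_lit 0) (.split (nat_lit 8) (nat_lit 1) (.split (nat_lit 8) (nat_lit 3) t189_37 (.split (nat_lit 8) (nat_lit 6) (.split (nat_lit 8) (nat_lit 7) (.split (nat_lit 8) (nat_lit 2) (.sup (nat_lit 0x200000001000500080007000000000000) (nat_lit 0x20000000000000000000300050002)) (.non (nat_lit 1) (nat_lit 5) (nat_lit 0x10150) (nat_lit 0x100000000000000010001000100000000))) (.non (nat_lit 1) (nat_lit 5) (nat_lit 0x15140) (nat_lit 0x300020001000000030004000000000000))) (.non (nat_lit 1) (nat_lit 4) (nat_lit 0x15450) (nat_lit 0x200010002000100000001000100000000)))) (.split (nat_lit 8) (nat_lit 3) (.split (nat_lit 8) (nat_lit 6) (.split (nat_lit 8) (nat_lit 7) (.sup (nat_lit 0x800000000000000000000000a00070000) (nat_lit 0x100040007000a0008000000000000)) (.non (nat_lit 2) (nat_lit 4) (nat_lit 0x14004) (nat_lit 0x100010000000000000000000000010000)))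 (.non (nat_lit 2) (nat_lit 4) (nat_lit 0x15004) (nat_lit 0x100010001000000000000000000010000))) (.non (nat_lit 2) (nat_lit 5) (nat_lit 0x14144) (nat_lit 0x300010000000000030004000000020000)))) (.split (nat_lit 8) (nat_lit 1) (.split (nat_lit 8) (nat_lit 3) (.split (nat_lit 8) (nat_lit 6) (.split (nat_lit 8) (nat_lit 7) (.split (nat_lit 8) (nat_lit 0) (.split (nat_lit 8) (nat_lit 2) (.split (nat_lit 7) (nat_lit 1) (.sup (nat_lit 0x10004000600080006000000000000) (nat_lit 0x100000000000000000000000100010001)) (.non (nat_lit 2) (nat_lit 4) (nat_lit 0x1a005) (nat_lit 0x100020001000000000000000000030002))) (.sup (nat_lit 0x39000000000000000000000050002c0000) (nat_lit 0x6001f003700500041000000000000))) (.sup (nat_lit 0x30007000c0010000d000000000000) (nat_lit 0x200000000000000000000000200010002))) (.non (nat_lit 2) (nat_lit 4) (nat_lit 0x14005) (nat_lit 0x100010000000000000000000000010001))) (.non (nat_lit 1) (nat_lit 4) (nat_lit 0x15411) (nat_lit 0x200010002000100000000000100000001))) (.non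 (nat_lit 1) (nat_lit 5) (nat_lit 0x10151) (nat_lit 0x200000000000000020002000100000001))) (.non (nat_lit 2) (nat_lit 4) (nat_lit 0x10005) (nat_lit 0x100000000000000000000000000010001)))) (.star (nat_lit 8) (nat_lit 2) (nat_lit 5))) (.star (nat_lit 8) (nat_lit 2) (nat_lit 4)))) (.split (nat_lit 8) (nat_lit 0) (.split (nat_lit 8) (nat_lit 3) (.split (nat_lit 8) (nat_lit 4) (.split (nat_lit 8) (nat_lit 5) (.split (nat_lit 8) (nat_lit 6) (.split (nat_lit 8) (nat_lit 7) (.split (nat_lit 8) (nat_lit 2) (.split (nat_lit 8) (nat_lit 1) (.split (nat_lit 7) (nat_lit 1) (.sup (nat_lit 0x20006000b0010000d000000000000) (nat_lit 0x100000000000000000000000300030001)) (.non (nat_lit 2) (nat_lit 4) (nat_lit 0x1a804) (nat_lit 0x200030002000100000000000000040000))) (.non (nat_lit 2) (nat_lit 4) (nat_lit 0x24005) (nat_lit 0x100010000000000000000000000020001))) (.sup (nat_lit 0x800000000000000000000000a00070000) (nat_lit 0x100040007000a0008000000000000))) (.non (nat_lit 2) (nat_lit 4) (nat_lit 0x14004)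 (nat_lit 0x100010000000000000000000000010000))) (.non (nat_lit 2) (nat_lit 4) (nat_lit 0x15004) (nat_lit 0x100010001000000000000000000010000))) (.star (nat_lit 8) (nat_lit 1) (nat_lit 5))) (.star (nat_lit 8) (nat_lit 1) (nat_lit 4))) (.non (nat_lit 2) (nat_lit 5) (nat_lit 0x14144) (nat_lit 0x300010000000000030004000000020000))) (.non (nat_lit 2) (nat_lit 4) (nat_lit 0x10005) (nat_lit 0x100000000000000000000000000010001))))

noncomputable def t189_39 : Tr := (.ex (nat_lit 7) (.split (nat_lit 7) (nat_lit 2) (.split (nat_lit 7) (nat_lit 6) (.pd (.cons (nat_lit 1) (nat_lit 3) (nat_lit 0) (nat_lit 0x27650200) (nat_lit 0x98965a2c28b71aef423f00000927bd00000f423f) (.cons (nat_lit 2) (nat_lit 3) (nat_lit 0) (nat_lit 0x17650000) (nat_lit 0x98965a2c28b71aef423f0000000000927bd8e6a2) .nil)) (.leaf (.cons (nat_lit 0x4014) (nat_lit 0x10000000000000000000100010000) .nil) .nil)) (.non (nat_lit 2) (nat_lit 4) (nat_lit 0x6805) (nat_lit 0x30002000100000000000000020001))) (.split (nat_lit 7) (nat_lit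 2) (.split (nat_lit 7) (nat_lit 6) (.pd (.cons (nat_lit 1) (nat_lit 3) (nat_lit 0) (nat_lit 0x27650200) (nat_lit 0x98965a2c28b71aef423f0000030d3b00000f423f) (.cons (nat_lit 2) (nat_lit 3) (nat_lit 0) (nat_lit 0x17650000) (nat_lit 0x98965a2c28b71aef423f0000000000927bd8e6a2) .nil)) (.leaf (.cons (nat_lit 0x4014) (nat_lit 0x10000000000000000000100010000) .nil) .nil)) (.non (nat_lit 1) (nat_lit 4) (nat_lit 0x9010) (nat_lit 0x10001000000000000000100000000))) (.split (nat_lit 7) (nat_lit 6) (.pd (.cons (nat_lit 2) (nat_lit 3) (nat_lit 0) (nat_lit 0x17650000) (nat_lit 0x98965a2c28b71aef423f0000000000927bd8e6a2) .nil) (.leaf (.cons (nat_lit 0x5510) (nat_lit 0x40003000200010000000300000000) (.cons (nat_lit 0x4014) (nat_lit 0x10000000000000000000100010000) .nil)) .nil)) (.non (nat_lit 1) (nat_lit 4) (nat_lit 0x5010) (nat_lit 0x10001000000000000000100000000))))) (.split (nat_lit 8) (nat_lit 0) (.split (nat_lit 8) (nat_lit 1) (.split (nat_lit 8) (nat_lit 2) (.split (nat_lit 8) (nat_lit 3) (.split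 (nat_lit 8) (nat_lit 4) (.split (nat_lit 8) (nat_lit 5) (.split (nat_lit 8) (nat_lit 6) (.st (nat_lit 7) (nat_lit 1) (nat_lit 4) (nat_lit 0x15010) (nat_lit 0x100020001000000000000000100000000) (nat_lit 1) (nat_lit 1) (.split (nat_lit 7) (nat_lit 2) (.split (nat_lit 7) (nat_lit 6) (.split (nat_lit 8) (nat_lit 7) (.pd (.cons (nat_lit 1) (nat_lit 3) (nat_lit 0) (nat_lit 0x727650200) (nat_lit 0xf423f5b8d4a2c28b71aef423f000005160d00000f423f) (.cons (nat_lit 2) (nat_lit 3) (nat_lit 0) (nat_lit 0x717650000) (nat_lit 0xf423f5b8d4a2c28b71aef423f00000000005160d3d07c) .nil)) (.leaf (.cons (nat_lit 0x4014) (nat_lit 0x10000000000000000000100010000) .nil) .nil)) (.non (nat_lit 1) (nat_lit 4) (nat_lit 0x25010) (nat_lit 0x100020001000000000000000100000000))) (.non (nat_lit 1) (nat_lit 4) (nat_lit 0x16010) (nat_lit 0x100020001000000000000000100000000))) (.non (nat_lit 1) (nat_lit 4) (nat_lit 0x2a010) (nat_lit 0x100020001000000000000000200000000)))) (.non (nat_lit 1) (nat_lit 4) (nat_lit 0x15000)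 (nat_lit 0x100010001000000000000000000000000))) (.non (nat_lit 1) (nat_lit 4) (nat_lit 0x15400) (nat_lit 0x100010001000100000000000000000000))) (.non (nat_lit 1) (nat_lit 5) (nat_lit 0x15140) (nat_lit 0x300020001000000040003000000000000))) (.non (nat_lit 1) (nat_lit 5) (nat_lit 0x15140) (nat_lit 0x300020001000000030004000000000000))) (.non (nat_lit 1) (nat_lit 4) (nat_lit 0x14010) (nat_lit 0x100010000000000000000000100000000))) (.non (nat_lit 2) (nat_lit 4) (nat_lit 0x14004) (nat_lit 0x100010000000000000000000000010000))) (.non (nat_lit 2) (nat_lit 4) (nat_lit 0x14005) (nat_lit 0x100010000000000000000000000010001))))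

noncomputable def t189_40 : Tr := (.ex (nat_lit 5) (.split (nat_lit 7) (nat_lit 1) (.pd (.cons (nat_lit 1) (nat_lit 6) (nat_lit 0x10000100) (nat_lit 0x20433700) (nat_lit 0x100000f423fb71ae1f1560000100000f423f) (.cons (nat_lit 2) (nat_lit 6) (nat_lit 0) (nat_lit 0x10433000) (nat_lit 0xf423f00000f423fb71ae1f15600000b71aea2c28) .nil)) (.ex (nat_lit 6) (.pd (.cons (nat_lit 0) (nat_lit 7) (nat_lit 0x110) (nat_lit 0x5433120) (nat_lit 0xf423fb71aea2c2804737000010000100000) (.cons (nat_lit 1) (nat_lit 7) (nat_lit 0) (nat_lit 0x5433200) (nat_lit 0xf423fb71aea2c2804737f423f00000f423f) (.cons (nat_lit 2) (nat_lit 7) (nat_lit 0) (nat_lit 0x5433000) (nat_lit 0xf423fb71aea2c280473700000f423fb71ae) .nil))) t189_39) (.split (nat_lit 8) (nat_lit 0) (.split (nat_lit 8) (nat_lit 1) (.split (nat_lit 8) (nat_lit 2) (.split (nat_lit 8) (nat_lit 3) (.split (nat_lit 8) (nat_lit 4) (.split (nat_lit 8) (nat_lit 5) (.split (nat_lit 8) (nat_lit 7) (.unj (nat_lit 0x15) (nat_lit 0x200020001) (nat_lit 0x11540)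 (nat_lit 0x100000002000300040003000000000000)) (.non (nat_lit 1) (nat_lit 4) (nat_lit 0x15000) (nat_lit 0x100010001000000000000000000000000))) (.non (nat_lit 1) (nat_lit 4) (nat_lit 0x11400) (nat_lit 0x100000001000100000000000000000000))) (.non (nat_lit 1) (nat_lit 5) (nat_lit 0x15140) (nat_lit 0x300010002000000040003000000000000))) (.non (nat_lit 1) (nat_lit 5) (nat_lit 0x15140) (nat_lit 0x300010002000000030004000000000000))) (.non (nat_lit 1) (nat_lit 4) (nat_lit 0x15010) (nat_lit 0x100010001000000000000000100000000))) (.non (nat_lit 2) (nat_lit 4) (nat_lit 0x15004) (nat_lit 0x100010001000000000000000000010000))) (.non (nat_lit 2) (nat_lit 4) (nat_lit 0x15005) (nat_lit 0x100010001000000000000000000010001))))) (.non (nat_lit 2) (nat_lit 4) (nat_lit 0xa805) (nat_lit 0x30002000100000000000000040002))) (.split (nat_lit 8) (nat_lit 0) (.split (nat_lit 8) (nat_lit 1) (.split (nat_lit 8) (nat_lit 2) (.split (nat_lit 8) (nat_lit 6) (.split (nat_lit 8) (nat_lit 7) (.split (nat_lit 8) (nat_lit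 3) (.split (nat_lit 8) (nat_lit 4) (.unj (nat_lit 0x15) (nat_lit 0x200020001) (nat_lit 0x11540) (nat_lit 0x100000001000200020002000000000000)) (.unj (nat_lit 0x15) (nat_lit 0x200020001) (nat_lit 0x10500) (nat_lit 0x100000000000100010000000000000000))) (.split (nat_lit 8) (nat_lit 4) (.unj (nat_lit 0x15) (nat_lit 0x200020001) (nat_lit 0x10540) (nat_lit 0x100000000000100010001000000000000)) (.non (nat_lit 1) (nat_lit 5) (nat_lit 0x10140) (nat_lit 0x100000000000000010001000000000000)))) (.non (nat_lit 1) (nat_lit 4) (nat_lit 0x15400) (nat_lit 0x100010001000100000000000000000000))) (.non (nat_lit 1) (nat_lit 4) (nat_lit 0x11400) (nat_lit 0x100000001000100000000000000000000))) (.star (nat_lit 8) (nat_lit 2) (nat_lit 5))) (.star (nat_lit 8) (nat_lit 1) (nat_lit 5))) (.non (nat_lit 2) (nat_lit 4) (nat_lit 0x15405) (nat_lit 0x100010001000100000000000000010001))))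

noncomputable def t189_41 : Tr := (.pd (.cons (nat_lit 1) (nat_lit 7) (nat_lit 0) (nat_lit 0x205433200) (nat_lit 0xf423f00000f423fb71aea2c2804737b71ae00000f423f) (.cons (nat_lit 2) (nat_lit 7) (nat_lit 0) (nat_lit 0x805433000) (nat_lit 0xf423f00000f423fb71aea2c280473700000f423fb71ae) .nil)) (.ex (nat_lit 7) (.split (nat_lit 7) (nat_lit 6) (.pd (.cons (nat_lit 1) (nat_lit 3) (nat_lit 0) (nat_lit 0x227650200) (nat_lit 0xf423f98965a2c28b71aef423f000005572c00000f423f) (.cons (nat_lit 2) (nat_lit 3) (nat_lit 0) (nat_lit 0x817650000) (nat_lit 0xf423f98965a2c28b71aef423f0000000000927bd8e6a2) .nil)) (.leaf (.cons (nat_lit 0x10014) (nat_lit 0x100000000000000000000000200020000) .nil) .nil)) (.non (nat_lit 1) (nat_lit 4) (nat_lit 0x16810) (nat_lit 0x100030002000100000000000200000000))) (.split (nat_lit 9) (nat_lit 0) (.split (nat_lit 9) (nat_lit 1) (.split (nat_lit 9) (nat_lit 2) (.split (nat_lit 9) (nat_lit 3) (.split (nat_lit 9) (nat_lit 4) (.split (nat_lit 9) (nat_lit 5) (.split (nat_lit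 9) (nat_lit 6) (.split (nat_lit 9) (nat_lit 8) (.st (nat_lit 7) (nat_lit 1) (nat_lit 4) (nat_lit 0x45010) (nat_lit 0x1000000020001000000000000000100000000) (nat_lit 1) (nat_lit 1) (.split (nat_lit 7) (nat_lit 6) (.split (nat_lit 9) (nat_lit 7) (.pd (.cons (nat_lit 1) (nat_lit 3) (nat_lit 0) (nat_lit 0x7227650200) (nat_lit 0xf423ff423f5b8d4a2c28b71aef423f000001457c00000f423f) (.cons (nat_lit 2) (nat_lit 3) (nat_lit 0) (nat_lit 0x7817650000) (nat_lit 0xf423ff423f5b8d4a2c28b71aef423f00000000005160d3d07c) .nil)) (.leaf (.cons (nat_lit 0x10014) (nat_lit 0x100000000000000000000000200020000) .nil) .nil)) (.non (nat_lit 1) (nat_lit 4) (nat_lit 0x85010) (nat_lit 0x1000000020001000000000000000100000000))) (.non (nat_lit 1) (nat_lit 4) (nat_lit 0x46010) (nat_lit 0x1000000020001000000000000000100000000)))) (.non (nat_lit 1) (nat_lit 4) (nat_lit 0x54010) (nat_lit 0x1000100010000000000000000000100000000))) (.non (nat_lit 1) (nat_lit 4) (nat_lit 0x45000) (nat_lit 0x1000000010001000000000000000000000000)))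 (.non (nat_lit 1) (nat_lit 4) (nat_lit 0x45400) (nat_lit 0x1000000010001000100000000000000000000))) (.non (nat_lit 1) (nat_lit 5) (nat_lit 0x45140) (nat_lit 0x3000000020001000000040003000000000000))) (.non (nat_lit 1) (nat_lit 4) (nat_lit 0x55450) (nat_lit 0x2000100030002000100000001000200000000))) (.non (nat_lit 1) (nat_lit 4) (nat_lit 0x44010) (nat_lit 0x1000000010000000000000000000100000000))) (.non (nat_lit 2) (nat_lit 4) (nat_lit 0x44004) (nat_lit 0x1000000010000000000000000000000010000))) (.non (nat_lit 1) (nat_lit 4) (nat_lit 0x55411) (nat_lit 0x2000100030002000100000000000200000001)))))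

noncomputable def t189_42 : Tr := (.split (nat_lit 8) (nat_lit 2) (.split (nat_lit 7) (nat_lit 1) (.pd (.cons (nat_lit 1) (nat_lit 6) (nat_lit 0) (nat_lit 0x220433200) (nat_lit 0xf423ff423f00000f423fb71ae1f1567a11d00000f423f) (.cons (nat_lit 2) (nat_lit 6) (nat_lit 0) (nat_lit 0x810433000) (nat_lit 0xf423ff423f00000f423fb71ae1f15600000b71aea2c28) .nil)) (.ex (nat_lit 6) t189_41 (.split (nat_lit 9) (nat_lit 0) (.split (nat_lit 9) (nat_lit 1) (.split (nat_lit 9) (nat_lit 2) (.split (nat_lit 9) (nat_lit 3) (.split (nat_lit 9) (nat_lit 4) (.split (nat_lit 9) (nat_lit 5) (.split (nat_lit 9) (nat_lit 7) (.split (nat_lit 9) (nat_lit 8) (.unj (nat_lit 0x15) (nat_lit 0x200020001) (nat_lit 0x41540) (nat_lit 0x1000000000002000300040003000000000000)) (.non (nat_lit 1) (nat_lit 4) (nat_lit 0x55010) (nat_lit 0x1000100010001000000000000000100000000))) (.non (nat_lit 1) (nat_lit 4) (nat_lit 0x45000) (nat_lit 0x1000000010001000000000000000000000000))) (.non (nat_lit 1) (nat_lit 4) (nat_lit 0x41400)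 (nat_lit 0x1000000000001000100000000000000000000))) (.non (nat_lit 1) (nat_lit 5) (nat_lit 0x45140) (nat_lit 0x3000000010002000000040003000000000000))) (.non (nat_lit 1) (nat_lit 5) (nat_lit 0x45140) (nat_lit 0x3000000010002000000030004000000000000))) (.non (nat_lit 1) (nat_lit 4) (nat_lit 0x45010) (nat_lit 0x1000000010001000000000000000100000000))) (.non (nat_lit 2) (nat_lit 4) (nat_lit 0x45004) (nat_lit 0x1000000010001000000000000000000010000))) (.non (nat_lit 2) (nat_lit 4) (nat_lit 0x45005) (nat_lit 0x1000000010001000000000000000000010001))))) (.non (nat_lit 2) (nat_lit 4) (nat_lit 0xa805) (nat_lit 0x30002000100000000000000040002))) (.split (nat_lit 8) (nat_lit 2) (.split (nat_lit 7) (nat_lit 1) (.pd (.cons (nat_lit 1) (nat_lit 6) (nat_lit 0) (nat_lit 0x220433200) (nat_lit 0xf423ff423f00000f423fb71ae1f1563d08d00000f423f) (.cons (nat_lit 2) (nat_lit 6) (nat_lit 0) (nat_lit 0x810433000) (nat_lit 0xf423ff423f00000f423fb71ae1f15600000b71aea2c28) .nil)) (.st (nat_lit 6) (nat_lit 1)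 (nat_lit 4) (nat_lit 0x25410) (nat_lit 0x100020002000100000000000200000000) (nat_lit 1) (nat_lit 1) (.pd (.cons (nat_lit 1) (nat_lit 7) (nat_lit 0) (nat_lit 0x205433200) (nat_lit 0xf423f00000f423fb71aea2c28047377a11e00000f423f) (.cons (nat_lit 2) (nat_lit 7) (nat_lit 0) (nat_lit 0x805433000) (nat_lit 0xf423f00000f423fb71aea2c280473700000f423fb71ae) .nil)) (.st (nat_lit 7) (nat_lit 1) (nat_lit 4) (nat_lit 0x25010) (nat_lit 0x100020001000000000000000200000000) (nat_lit 1) (nat_lit 1) (.split (nat_lit 7) (nat_lit 6) (.pd (.cons (nat_lit 1) (nat_lit 3) (nat_lit 0) (nat_lit 0x227650200) (nat_lit 0xf423f98965a2c28b71aef423f000001869c00000f423f) (.cons (nat_lit 2) (nat_lit 3) (nat_lit 0) (nat_lit 0x817650000) (nat_lit 0xf423f98965a2c28b71aef423f0000000000927bd8e6a2) .nil)) (.leaf (.cons (nat_lit 0x10014) (nat_lit 0x100000000000000000000000100010000) .nil) .nil)) (.non (nat_lit 1) (nat_lit 4) (nat_lit 0x26010) (nat_lit 0x100020001000000000000000200000000))))))) (.non (nat_lit 2) (nat_lit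 4) (nat_lit 0xa805) (nat_lit 0x30002000100000000000000040002))) (.non (nat_lit 1) (nat_lit 4) (nat_lit 0x15410) (nat_lit 0x300030002000100000000000400000000))))

noncomputable def t189_43 : Tr := (.ex (nat_lit 3) (.ex (nat_lit 4) (.ex (nat_lit 5) (.split (nat_lit 7) (nat_lit 2) t189_42 (.non (nat_lit 1) (nat_lit 4) (nat_lit 0x1a810) (nat_lit 0x200030002000100000000000400000000))) (.split (nat_lit 9) (nat_lit 0) (.split (nat_lit 9) (nat_lit 1) (.split (nat_lit 9) (nat_lit 2) (.split (nat_lit 9) (nat_lit 6) (.split (nat_lit 9) (nat_lit 7) (.split (nat_lit 9) (nat_lit 8) (.split (nat_lit 9) (nat_lit 3) (.split (nat_lit 9) (nat_lit 4) (.unj (nat_lit 0x15) (nat_lit 0x200020001) (nat_lit 0x41540) (nat_lit 0x1000000000001000200020002000000000000)) (.unj (nat_lit 0x15) (nat_lit 0x200020001) (nat_lit 0x40500) (nat_lit 0x1000000000000000100010000000000000000))) (.split (nat_lit 9) (nat_lit 4) (.unj (nat_lit 0x15) (nat_lit 0x200020001) (nat_lit 0x40540) (nat_lit 0x1000000000000000100010001000000000000))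 (.non (nat_lit 1) (nat_lit 5) (nat_lit 0x40140) (nat_lit 0x1000000000000000000010001000000000000)))) (.non (nat_lit 1) (nat_lit 4) (nat_lit 0x55410) (nat_lit 0x1000100010001000100000000000100000000))) (.non (nat_lit 1) (nat_lit 4) (nat_lit 0x45400) (nat_lit 0x1000000010001000100000000000000000000))) (.non (nat_lit 1) (nat_lit 4) (nat_lit 0x41400) (nat_lit 0x1000000000001000100000000000000000000))) (.star (nat_lit 9) (nat_lit 2) (nat_lit 5))) (.star (nat_lit 9) (nat_lit 1) (nat_lit 5))) (.non (nat_lit 2) (nat_lit 4) (nat_lit 0x45405) (nat_lit 0x1000000010001000100000000000000010001)))) (.split (nat_lit 9) (nat_lit 0) (.split (nat_lit 9) (nat_lit 1) (.split (nat_lit 9) (nat_lit 2) (.split (nat_lit 9) (nat_lit 3) (.split (nat_lit 9) (nat_lit 6) (.split (nat_lit 9) (nat_lit 7) (.split (nat_lit 9) (nat_lit 8) (.split (nat_lit 9) (nat_lit 5) (.unj (nat_lit 0x15) (nat_lit 0x200020001) (nat_lit 0x40540) (nat_lit 0x1000000000000000100020002000000000000)) (.unj (nat_lit 0x15) (nat_lit 0x200020001)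 (nat_lit 0x40500) (nat_lit 0x1000000000000000100010000000000000000))) (.non (nat_lit 1) (nat_lit 5) (nat_lit 0x50150) (nat_lit 0x3000200000000000000040003000100000000))) (.non (nat_lit 1) (nat_lit 5) (nat_lit 0x45140) (nat_lit 0x3000000020001000000040003000000000000))) (.non (nat_lit 1) (nat_lit 5) (nat_lit 0x45140) (nat_lit 0x3000000010002000000040003000000000000))) (.non (nat_lit 1) (nat_lit 5) (nat_lit 0x40140) (nat_lit 0x1000000000000000000010001000000000000))) (.star (nat_lit 9) (nat_lit 2) (nat_lit 4))) (.star (nat_lit 9) (nat_lit 1) (nat_lit 4))) (.non (nat_lit 2) (nat_lit 5) (nat_lit 0x40145) (nat_lit 0x3000000000000000000040003000000010002)))) (.split (nat_lit 9) (nat_lit 0) (.split (nat_lit 9) (nat_lit 1) (.split (nat_lit 9) (nat_lit 2) (.split (nat_lit 9) (nat_lit 4) (.split (nat_lit 9) (nat_lit 6) (.split (nat_lit 9) (nat_lit 7) (.split (nat_lit 9) (nat_lit 8) (.split (nat_lit 9) (nat_lit 5) (.unj (nat_lit 0x15) (nat_lit 0x200020001) (nat_lit 0x40540) (nat_lit 0x1000000000000000100020002000000000000))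 (.unj (nat_lit 0x15) (nat_lit 0x200020001) (nat_lit 0x40540) (nat_lit 0x1000000000000000100010001000000000000))) (.non (nat_lit 1) (nat_lit 5) (nat_lit 0x50150) (nat_lit 0x3000200000000000000030004000100000000))) (.non (nat_lit 1) (nat_lit 4) (nat_lit 0x55450) (nat_lit 0x2000100030002000100000001000200000000))) (.non (nat_lit 1) (nat_lit 5) (nat_lit 0x45140) (nat_lit 0x3000000010002000000030004000000000000))) (.non (nat_lit 1) (nat_lit 5) (nat_lit 0x40140) (nat_lit 0x1000000000000000000010001000000000000))) (.non (nat_lit 1) (nat_lit 5) (nat_lit 0x50150) (nat_lit 0x3000100000000000000030004000200000000))) (.non (nat_lit 2) (nat_lit 5) (nat_lit 0x44144) (nat_lit 0x3000000010000000000030004000000020000))) (.non (nat_lit 2) (nat_lit 5) (nat_lit 0x40145) (nat_lit 0x3000000000000000000030004000000010002))))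

noncomputable def t189_44 : Tr := (.split (nat_lit 8) (nat_lit 6) (.split (nat_lit 8) (nat_lit 7) (.split (nat_lit 8) (nat_lit 0) (.split (nat_lit 8) (nat_lit 1) t189_43 (.split (nat_lit 8) (nat_lit 1) (.split (nat_lit 8) (nat_lit 2) (.split (nat_lit 7) (nat_lit 1) (.split (nat_lit 7) (nat_lit 2) (.sup (nat_lit 0xa00000000000000000000000a000a0000) (nat_lit 0x100040007000a0008000000000000)) (.non (nat_lit 1) (nat_lit 4) (nat_lit 0x1a810) (nat_lit 0x200030002000100000000000400000000))) (.non (nat_lit 2) (nat_lit 4) (nat_lit 0x1a804) (nat_lit 0x200030002000100000000000000040000))) (.split (nat_lit 8) (nat_lit 2) (.split (nat_lit 7) (nat_lit 1) (.split (nat_lit 7) (nat_lit 2) (.sup (nat_lit 0xa00000000000000000000000900080000) (nat_lit 0x100040007000a0008000000000000)) (.non (nat_lit 1) (nat_lit 4) (nat_lit 0x28010) (nat_lit 0x100010000000000000000000200000000))) (.non (nat_lit 2) (nat_lit 4) (nat_lit 0x1a804) (nat_lit 0x200030002000100000000000000040000))) (.non (nat_lit 1) (nat_lit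 4) (nat_lit 0x15410) (nat_lit 0x300030002000100000000000400000000)))) (.non (nat_lit 2) (nat_lit 4) (nat_lit 0x24005) (nat_lit 0x100010000000000000000000000020001)))) (.split (nat_lit 8) (nat_lit 1) (.split (nat_lit 8) (nat_lit 0) (.split (nat_lit 8) (nat_lit 2) (.split (nat_lit 7) (nat_lit 1) (.split (nat_lit 7) (nat_lit 2) (.sup (nat_lit 0x10006000b0010000d000000000000) (nat_lit 0x200000000000000000000000200020002)) (.non (nat_lit 1) (nat_lit 4) (nat_lit 0x1a810) (nat_lit 0x200030002000100000000000400000000))) (.non (nat_lit 2) (nat_lit 4) (nat_lit 0x1a005) (nat_lit 0x100020001000000000000000000030002))) (.non (nat_lit 1) (nat_lit 4) (nat_lit 0x1a021) (nat_lit 0x400020001000000000000000300000002))) (.split (nat_lit 8) (nat_lit 0) (.split (nat_lit 8) (nat_lit 2) (.split (nat_lit 7) (nat_lit 1) (.split (nat_lit 7) (nat_lit 2) (.sup (nat_lit 0x20007000b0010000d000000000000) (nat_lit 0x200000000000000000000000100010002)) (.non (nat_lit 1) (nat_lit 4) (nat_lit 0x1a810) (nat_lit 0x200030002000100000000000400000000)))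 (.non (nat_lit 2) (nat_lit 4) (nat_lit 0x28005) (nat_lit 0x100010000000000000000000000020002))) (.non (nat_lit 1) (nat_lit 4) (nat_lit 0x20011) (nat_lit 0x100000000000000000000000100000001))) (.non (nat_lit 1) (nat_lit 4) (nat_lit 0x15011) (nat_lit 0x400020001000000000000000300000003)))) (.non (nat_lit 2) (nat_lit 4) (nat_lit 0x10005) (nat_lit 0x100000000000000000000000000010001)))) (.non (nat_lit 1) (nat_lit 4) (nat_lit 0x14010) (nat_lit 0x100010000000000000000000100000000))) (.non (nat_lit 1) (nat_lit 4) (nat_lit 0x15010) (nat_lit 0x100010001000000000000000100000000)))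

noncomputable def t189_45 : Tr := (.split (nat_lit 7) (nat_lit 2) (.split (nat_lit 7) (nat_lit 6) (.split (nat_lit 7) (nat_lit 1) (.split (nat_lit 8) (nat_lit 1) (.pd (.cons (nat_lit 1) (nat_lit 3) (nat_lit 0) (nat_lit 0x827650200) (nat_lit 0xf423f98965a2c28b71aef423f00000927bd00000f423f) (.cons (nat_lit 1) (nat_lit 6) (nat_lit 0) (nat_lit 0x820433200) (nat_lit 0xf423ff423f00000f423fb71ae1f156b71ae00000f423f) (.cons (nat_lit 1) (nat_lit 7) (nat_lit 0) (nat_lit 0x805433200) (nat_lit 0xf423f00000f423fb71aea2c2804737f423f00000f423f) (.cons (nat_lit 2) (nat_lit 3) (nat_lit 0) (nat_lit 0x117650000) (nat_lit 0xf423f98965a2c28b71aef423f00000000005572c45c09) (.cons (nat_lit 2) (nat_lit 6) (nat_lit 0) (nat_lit 0x110433000) (nat_lit 0xf423ff423f00000f423fb71ae1f156000007a11d7a11b) (.cons (nat_lit 2) (nat_lit 7) (nat_lit 0) (nat_lit 0x105433000) (nat_lit 0xf423f00000f423fb71aea2c280473700000b71aea2c28) .nil)))))) (.leaf (.cons (nat_lit 0x10014) (nat_lit 0x100000000000000000000000200020000)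 .nil) .nil)) (.non (nat_lit 2) (nat_lit 4) (nat_lit 0x24005) (nat_lit 0x100010000000000000000000000020001))) (.non (nat_lit 2) (nat_lit 4) (nat_lit 0x1a804) (nat_lit 0x200030002000100000000000000040000))) (.non (nat_lit 2) (nat_lit 4) (nat_lit 0x16804) (nat_lit 0x100030002000100000000000000020000))) (.split (nat_lit 7) (nat_lit 2) (.split (nat_lit 7) (nat_lit 6) (.split (nat_lit 7) (nat_lit 1) (.split (nat_lit 8) (nat_lit 1) (.pd (.cons (nat_lit 1) (nat_lit 3) (nat_lit 0) (nat_lit 0x827650200) (nat_lit 0xf423f98965a2c28b71aef423f0000030d3b00000f423f) (.cons (nat_lit 1) (nat_lit 6) (nat_lit 0) (nat_lit 0x820433200) (nat_lit 0xf423ff423f00000f423fb71ae1f1567a11e00000f423f) (.cons (nat_lit 1) (nat_lit 7) (nat_lit 0) (nat_lit 0x805433200) (nat_lit 0xf423f00000f423fb71aea2c2804737f423f00000f423f) (.cons (nat_lit 2) (nat_lit 3) (nat_lit 0) (nat_lit 0x117650000) (nat_lit 0xf423f98965a2c28b71aef423f00000000005572c45c09) (.cons (nat_lit 2) (nat_lit 6) (nat_lit 0) (nat_lit 0x110433000) (nat_lit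 0xf423ff423f00000f423fb71ae1f156000007a11d7a11b) (.cons (nat_lit 2) (nat_lit 7) (nat_lit 0) (nat_lit 0x105433000) (nat_lit 0xf423f00000f423fb71aea2c280473700000b71aea2c28) .nil)))))) (.leaf (.cons (nat_lit 0x10014) (nat_lit 0x100000000000000000000000200020000) .nil) .nil)) (.non (nat_lit 2) (nat_lit 4) (nat_lit 0x24005) (nat_lit 0x100010000000000000000000000020001))) (.non (nat_lit 2) (nat_lit 4) (nat_lit 0x1a804) (nat_lit 0x200030002000100000000000000040000))) (.non (nat_lit 1) (nat_lit 4) (nat_lit 0x9010) (nat_lit 0x10001000000000000000100000000))) (.split (nat_lit 7) (nat_lit 1) (.split (nat_lit 8) (nat_lit 1) (.split (nat_lit 7) (nat_lit 6) (.pd (.cons (nat_lit 1) (nat_lit 6) (nat_lit 0x10000100) (nat_lit 0x820433700) (nat_lit 0xf423f0000100000f423fb71ae1f1560000100000f423f) (.cons (nat_lit 1) (nat_lit 7) (nat_lit 0) (nat_lit 0x805433200) (nat_lit 0xf423f00000f423fb71aea2c2804737f423f00000f423f) (.cons (nat_lit 2) (nat_lit 3) (nat_lit 0) (nat_lit 0x117650000) (nat_lit 0xf423f98965a2c28b71aef423f00000000005572c45c09)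 (.cons (nat_lit 2) (nat_lit 6) (nat_lit 0) (nat_lit 0x110433000) (nat_lit 0xf423ff423f00000f423fb71ae1f156000007a11d7a11b) (.cons (nat_lit 2) (nat_lit 7) (nat_lit 0) (nat_lit 0x105433000) (nat_lit 0xf423f00000f423fb71aea2c280473700000b71aea2c28) .nil))))) (.leaf (.cons (nat_lit 0x5510) (nat_lit 0x40003000200010000000300000000) (.cons (nat_lit 0x10014) (nat_lit 0x100000000000000000000000200020000) .nil)) .nil)) (.non (nat_lit 1) (nat_lit 4) (nat_lit 0x5010) (nat_lit 0x10001000000000000000100000000))) (.non (nat_lit 2) (nat_lit 4) (nat_lit 0x24005) (nat_lit 0x100010000000000000000000000020001))) (.non (nat_lit 2) (nat_lit 4) (nat_lit 0x1a804) (nat_lit 0x200030002000100000000000000040000)))))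

noncomputable def t189_46 : Tr := (.ex (nat_lit 3) (.ex (nat_lit 4) (.ex (nat_lit 5) t189_45 (.split (nat_lit 9) (nat_lit 0) (.split (nat_lit 9) (nat_lit 1) (.split (nat_lit 9) (nat_lit 2) (.split (nat_lit 9) (nat_lit 6) (.split (nat_lit 9) (nat_lit 7) (.split (nat_lit 9) (nat_lit 8) (.split (nat_lit 9) (nat_lit 3) (.split (nat_lit 9) (nat_lit 4) (.unj (nat_lit 0x15) (nat_lit 0x200020001) (nat_lit 0x41540) (nat_lit 0x1000000000001000200020002000000000000)) (.unj (nat_lit 0x15) (nat_lit 0x200020001) (nat_lit 0x40500) (nat_lit 0x1000000000000000100010000000000000000))) (.split (nat_lit 9) (nat_lit 4) (.unj (nat_lit 0x15) (nat_lit 0x200020001) (nat_lit 0x40540) (nat_lit 0x1000000000000000100010001000000000000)) (.non (nat_lit 1) (nat_lit 5) (nat_lit 0x40140) (nat_lit 0x1000000000000000000010001000000000000)))) (.non (nat_lit 2) (nat_lit 4) (nat_lit 0x55404) (nat_lit 0x1000100010001000100000000000000010000))) (.non (nat_lit 1) (nat_lit 4) (nat_lit 0x45400) (nat_lit 0x1000000010001000100000000000000000000)))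 (.non (nat_lit 1) (nat_lit 4) (nat_lit 0x41400) (nat_lit 0x1000000000001000100000000000000000000))) (.star (nat_lit 9) (nat_lit 2) (nat_lit 5))) (.star (nat_lit 9) (nat_lit 1) (nat_lit 5))) (.non (nat_lit 2) (nat_lit 4) (nat_lit 0x45405) (nat_lit 0x1000000010001000100000000000000010001)))) (.split (nat_lit 9) (nat_lit 0) (.split (nat_lit 9) (nat_lit 1) (.split (nat_lit 9) (nat_lit 2) (.split (nat_lit 9) (nat_lit 3) (.split (nat_lit 9) (nat_lit 6) (.split (nat_lit 9) (nat_lit 7) (.split (nat_lit 9) (nat_lit 8) (.split (nat_lit 9) (nat_lit 5) (.unj (nat_lit 0x15) (nat_lit 0x200020001) (nat_lit 0x40540) (nat_lit 0x1000000000000000100020002000000000000)) (.unj (nat_lit 0x15) (nat_lit 0x200020001) (nat_lit 0x40500) (nat_lit 0x1000000000000000100010000000000000000))) (.non (nat_lit 2) (nat_lit 5) (nat_lit 0x50144) (nat_lit 0x3000200000000000000040003000000010000))) (.non (nat_lit 1) (nat_lit 5) (nat_lit 0x45140) (nat_lit 0x3000000020001000000040003000000000000))) (.non (nat_lit 1) (nat_lit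 5) (nat_lit 0x45140) (nat_lit 0x3000000010002000000040003000000000000))) (.non (nat_lit 1) (nat_lit 5) (nat_lit 0x40140) (nat_lit 0x1000000000000000000010001000000000000))) (.star (nat_lit 9) (nat_lit 2) (nat_lit 4))) (.star (nat_lit 9) (nat_lit 1) (nat_lit 4))) (.non (nat_lit 2) (nat_lit 5) (nat_lit 0x40145) (nat_lit 0x3000000000000000000040003000000010002)))) (.split (nat_lit 9) (nat_lit 0) (.split (nat_lit 9) (nat_lit 1) (.split (nat_lit 9) (nat_lit 2) (.split (nat_lit 9) (nat_lit 4) (.split (nat_lit 9) (nat_lit 6) (.split (nat_lit 9) (nat_lit 7) (.split (nat_lit 9) (nat_lit 8) (.split (nat_lit 9) (nat_lit 5) (.unj (nat_lit 0x15) (nat_lit 0x200020001) (nat_lit 0x40540) (nat_lit 0x1000000000000000100020002000000000000)) (.unj (nat_lit 0x15) (nat_lit 0x200020001) (nat_lit 0x40540) (nat_lit 0x1000000000000000100010001000000000000))) (.non (nat_lit 2) (nat_lit 4) (nat_lit 0x55445) (nat_lit 0x2000300030002000100000001000000040002))) (.non (nat_lit 1) (nat_lit 5) (nat_lit 0x45140) (nat_lit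 0x3000000020001000000030004000000000000))) (.non (nat_lit 1) (nat_lit 5) (nat_lit 0x45140) (nat_lit 0x3000000010002000000030004000000000000))) (.non (nat_lit 1) (nat_lit 5) (nat_lit 0x40140) (nat_lit 0x1000000000000000000010001000000000000))) (.non (nat_lit 1) (nat_lit 5) (nat_lit 0x44150) (nat_lit 0x3000000010000000000030004000200000000))) (.non (nat_lit 2) (nat_lit 4) (nat_lit 0x54005) (nat_lit 0x1000100010000000000000000000000020001))) (.non (nat_lit 2) (nat_lit 4) (nat_lit 0x55445) (nat_lit 0x2000200030002000100000001000000040003))))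

noncomputable def t189_47 : Tr := (.ex (nat_lit 1) (.ex (nat_lit 2) (.ex (nat_lit 3) (.ex (nat_lit 4) t189_40 (.split (nat_lit 8) (nat_lit 0) (.split (nat_lit 8) (nat_lit 1) (.split (nat_lit 8) (nat_lit 2) (.split (nat_lit 8) (nat_lit 3) (.split (nat_lit 8) (nat_lit 6) (.split (nat_lit 8) (nat_lit 7) (.split (nat_lit 8) (nat_lit 5) (.unj (nat_lit 0x15) (nat_lit 0x200020001) (nat_lit 0x10540) (nat_lit 0x100000000000100020002000000000000)) (.unj (nat_lit 0x15) (nat_lit 0x200020001) (nat_lit 0x10500) (nat_lit 0x100000000000100010000000000000000))) (.non (nat_lit 1) (nat_lit 5) (nat_lit 0x15140) (nat_lit 0x300020001000000040003000000000000))) (.non (nat_lit 1) (nat_lit 5) (nat_lit 0x15140) (nat_lit 0x300010002000000040003000000000000))) (.non (nat_lit 1) (nat_lit 5) (nat_lit 0x10140) (nat_lit 0x100000000000000010001000000000000))) (.star (nat_lit 8) (nat_lit 2) (nat_lit 4))) (.star (nat_lit 8) (nat_lit 1) (nat_lit 4))) (.non (nat_lit 2) (nat_lit 5) (nat_lit 0x10145) (nat_lit 0x300000000000000040003000000010002))))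 (.split (nat_lit 8) (nat_lit 0) (.split (nat_lit 8) (nat_lit 1) (.split (nat_lit 8) (nat_lit 2) (.split (nat_lit 8) (nat_lit 4) (.split (nat_lit 8) (nat_lit 6) (.split (nat_lit 8) (nat_lit 7) (.split (nat_lit 8) (nat_lit 5) (.unj (nat_lit 0x15) (nat_lit 0x200020001) (nat_lit 0x10540) (nat_lit 0x100000000000100020002000000000000)) (.unj (nat_lit 0x15) (nat_lit 0x200020001) (nat_lit 0x10540) (nat_lit 0x100000000000100010001000000000000))) (.non (nat_lit 1) (nat_lit 5) (nat_lit 0x15140) (nat_lit 0x300020001000000030004000000000000))) (.non (nat_lit 1) (nat_lit 5) (nat_lit 0x15140) (nat_lit 0x300010002000000030004000000000000))) (.non (nat_lit 1) (nat_lit 5) (nat_lit 0x10140) (nat_lit 0x100000000000000010001000000000000))) (.non (nat_lit 1) (nat_lit 5) (nat_lit 0x14150) (nat_lit 0x300010000000000030004000200000000))) (.non (nat_lit 2) (nat_lit 5) (nat_lit 0x14144) (nat_lit 0x300010000000000030004000000020000))) (.non (nat_lit 2) (nat_lit 5) (nat_lit 0x10145) (nat_lit 0x300000000000000030004000000010002))))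 (.split (nat_lit 8) (nat_lit 3) (.split (nat_lit 8) (nat_lit 4) (.split (nat_lit 8) (nat_lit 5) t189_44 (.star (nat_lit 8) (nat_lit 2) (nat_lit 5))) (.star (nat_lit 8) (nat_lit 2) (nat_lit 4))) (.non (nat_lit 1) (nat_lit 5) (nat_lit 0x14150) (nat_lit 0x300010000000000030004000200000000)))) (.split (nat_lit 8) (nat_lit 0) (.split (nat_lit 8) (nat_lit 3) (.split (nat_lit 8) (nat_lit 4) (.split (nat_lit 8) (nat_lit 5) (.split (nat_lit 8) (nat_lit 6) (.split (nat_lit 8) (nat_lit 7) (.split (nat_lit 8) (nat_lit 2) (.st (nat_lit 6) (nat_lit 2) (nat_lit 4) (nat_lit 0x15405) (nat_lit 0x100020002000100000000000000020001) (nat_lit 1) (nat_lit 1) (.st (nat_lit 7) (nat_lit 2) (nat_lit 4) (nat_lit 0x15005) (nat_lit 0x100020001000000000000000000020001) (nat_lit 1) (nat_lit 1) t189_46)) (.split (nat_lit 8) (nat_lit 1) (.split (nat_lit 8) (nat_lit 2) (.split (nat_lit 7) (nat_lit 1) (.split (nat_lit 7) (nat_lit 2) (.sup (nat_lit 0xa00000000000000000000000a000a0000) (nat_lit 0x100040007000a0008000000000000))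 (.non (nat_lit 1) (nat_lit 4) (nat_lit 0x1a810) (nat_lit 0x200030002000100000000000400000000))) (.non (nat_lit 2) (nat_lit 4) (nat_lit 0x1a804) (nat_lit 0x200030002000100000000000000040000))) (.split (nat_lit 8) (nat_lit 2) (.split (nat_lit 7) (nat_lit 1) (.split (nat_lit 7) (nat_lit 2) (.sup (nat_lit 0xa00000000000000000000000900080000) (nat_lit 0x100040007000a0008000000000000)) (.non (nat_lit 1) (nat_lit 4) (nat_lit 0x28010) (nat_lit 0x100010000000000000000000200000000))) (.non (nat_lit 2) (nat_lit 4) (nat_lit 0x1a804) (nat_lit 0x200030002000100000000000000040000))) (.non (nat_lit 1) (nat_lit 4) (nat_lit 0x15410) (nat_lit 0x300030002000100000000000400000000)))) (.non (nat_lit 2) (nat_lit 4) (nat_lit 0x24005) (nat_lit 0x100010000000000000000000000020001)))) (.non (nat_lit 2) (nat_lit 4) (nat_lit 0x14004) (nat_lit 0x100010000000000000000000000010000))) (.non (nat_lit 2) (nat_lit 4) (nat_lit 0x15004) (nat_lit 0x100010001000000000000000000010000))) (.star (nat_lit 8) (nat_lit 1) (nat_lit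 5))) (.star (nat_lit 8) (nat_lit 1) (nat_lit 4))) (.non (nat_lit 2) (nat_lit 5) (nat_lit 0x14144) (nat_lit 0x300010000000000030004000000020000))) (.non (nat_lit 2) (nat_lit 4) (nat_lit 0x10005) (nat_lit 0x100000000000000000000000000010001))))

noncomputable def t189_48 : Tr := (.ex (nat_lit 4) (.ex (nat_lit 5) (.split (nat_lit 7) (nat_lit 0) (.split (nat_lit 7) (nat_lit 2) (.split (nat_lit 7) (nat_lit 6) (.pd (.cons (nat_lit 0) (nat_lit 7) (nat_lit 0x110) (nat_lit 0x5433120) (nat_lit 0xf423fb71aea2c2804737000010000100000) (.cons (nat_lit 1) (nat_lit 3) (nat_lit 0) (nat_lit 0x7650700) (nat_lit 0x5b8d4a2c28b71aef423f00000f423f000005160d) (.cons (nat_lit 1) (nat_lit 6) (nat_lit 0) (nat_lit 0x433700) (nat_lit 0xb71ae00000f423fb71ae1f156f423f00000a2c28) (.cons (nat_lit 1) (nat_lit 7) (nat_lit 0) (nat_lit 0x5433200) (nat_lit 0xf423fb71aea2c2804737f423f00000f423f) (.cons (nat_lit 2) (nat_lit 3) (nat_lit 0) (nat_lit 0x7650000) (nat_lit 0x98965a2c28b71aef423f0000000000f423f5572c) (.cons (nat_lit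 2) (nat_lit 6) (nat_lit 0) (nat_lit 0x433000) (nat_lit 0xf423f00000f423fb71ae1f15600000f423f7a11d) (.cons (nat_lit 2) (nat_lit 7) (nat_lit 0) (nat_lit 0x5433000) (nat_lit 0xf423fb71aea2c280473700000f423fb71ae) .nil))))))) (.leaf (.cons (nat_lit 0x4014) (nat_lit 0x10000000000000000000200020000) .nil) .nil)) (.non (nat_lit 1) (nat_lit 4) (nat_lit 0x6011) (nat_lit 0x20001000000000000000100000001))) (.non (nat_lit 1) (nat_lit 4) (nat_lit 0x5021) (nat_lit 0x20001000000000000000100000001))) (.non (nat_lit 1) (nat_lit 4) (nat_lit 0xa021) (nat_lit 0x20001000000000000000100000002))) (.split (nat_lit 8) (nat_lit 0) (.split (nat_lit 8) (nat_lit 1) (.split (nat_lit 8) (nat_lit 2) (.split (nat_lit 8) (nat_lit 6) (.split (nat_lit 8) (nat_lit 7) (.split (nat_lit 8) (nat_lit 3) (.split (nat_lit 8) (nat_lit 4) (.unj (nat_lit 0x15) (nat_lit 0x200020001) (nat_lit 0x11540) (nat_lit 0x100000001000200020002000000000000)) (.unj (nat_lit 0x15) (nat_lit 0x200020001) (nat_lit 0x10500) (nat_lit 0x100000000000100010000000000000000)))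 (.split (nat_lit 8) (nat_lit 4) (.unj (nat_lit 0x15) (nat_lit 0x200020001) (nat_lit 0x10540) (nat_lit 0x100000000000100010001000000000000)) (.non (nat_lit 1) (nat_lit 5) (nat_lit 0x10140) (nat_lit 0x100000000000000010001000000000000)))) (.non (nat_lit 1) (nat_lit 4) (nat_lit 0x15400) (nat_lit 0x100010001000100000000000000000000))) (.non (nat_lit 1) (nat_lit 4) (nat_lit 0x11400) (nat_lit 0x100000001000100000000000000000000))) (.star (nat_lit 8) (nat_lit 2) (nat_lit 5))) (.star (nat_lit 8) (nat_lit 1) (nat_lit 5))) (.non (nat_lit 1) (nat_lit 4) (nat_lit 0x15401) (nat_lit 0x100010001000100000000000000000001)))) (.split (nat_lit 8) (nat_lit 0) (.split (nat_lit 8) (nat_lit 1) (.split (nat_lit 8) (nat_lit 2) (.split (nat_lit 8) (nat_lit 3) (.split (nat_lit 8) (nat_lit 6) (.split (nat_lit 8) (nat_lit 7) (.split (nat_lit 8) (nat_lit 5) (.unj (nat_lit 0x15) (nat_lit 0x200020001) (nat_lit 0x10540) (nat_lit 0x100000000000100020002000000000000)) (.unj (nat_lit 0x15) (nat_lit 0x200020001) (nat_lit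 0x10500) (nat_lit 0x100000000000100010000000000000000))) (.non (nat_lit 1) (nat_lit 4) (nat_lit 0x15011) (nat_lit 0x100020001000000000000000100000001))) (.non (nat_lit 1) (nat_lit 4) (nat_lit 0x15411) (nat_lit 0x100020002000100000000000100000001))) (.non (nat_lit 1) (nat_lit 5) (nat_lit 0x10140) (nat_lit 0x100000000000000010001000000000000))) (.star (nat_lit 8) (nat_lit 2) (nat_lit 4))) (.star (nat_lit 8) (nat_lit 1) (nat_lit 4))) (.non (nat_lit 1) (nat_lit 5) (nat_lit 0x14141) (nat_lit 0x300010000000000040003000000000002))))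

noncomputable def t189_49 : Tr := (.ex (nat_lit 1) (.ex (nat_lit 2) (.ex (nat_lit 3) t189_48 (.split (nat_lit 8) (nat_lit 0) (.split (nat_lit 8) (nat_lit 1) (.split (nat_lit 8) (nat_lit 2) (.split (nat_lit 8) (nat_lit 4) (.split (nat_lit 8) (nat_lit 6) (.split (nat_lit 8) (nat_lit 7) (.split (nat_lit 8) (nat_lit 5) (.unj (nat_lit 0x15) (nat_lit 0x200020001) (nat_lit 0x10540) (nat_lit 0x100000000000100020002000000000000)) (.unj (nat_lit 0x15) (nat_lit 0x200020001) (nat_lit 0x10540) (nat_lit 0x100000000000100010001000000000000))) (.non (nat_lit 1) (nat_lit 4) (nat_lit 0x15011) (nat_lit 0x100020001000000000000000100000001))) (.non (nat_lit 1) (nat_lit 4) (nat_lit 0x15411) (nat_lit 0x100020002000100000000000100000001))) (.non (nat_lit 1) (nat_lit 5) (nat_lit 0x10140) (nat_lit 0x100000000000000010001000000000000))) (.non (nat_lit 1) (nat_lit 5) (nat_lit 0x14150) (nat_lit 0x300010000000000030004000200000000))) (.non (nat_lit 2) (nat_lit 5) (nat_lit 0x10145) (nat_lit 0x300000000000000030004000000020001)))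 (.non (nat_lit 1) (nat_lit 5) (nat_lit 0x14141) (nat_lit 0x300010000000000030004000000000002)))) (.split (nat_lit 8) (nat_lit 0) (.split (nat_lit 8) (nat_lit 3) (.split (nat_lit 8) (nat_lit 4) (.split (nat_lit 8) (nat_lit 5) (.split (nat_lit 8) (nat_lit 6) (.split (nat_lit 8) (nat_lit 7) (.split (nat_lit 8) (nat_lit 1) (.split (nat_lit 8) (nat_lit 2) (.split (nat_lit 7) (nat_lit 0) (.split (nat_lit 7) (nat_lit 2) (.sup (nat_lit 0x90031005800800068000000000000) (nat_lit 0xb00000000000000000000001700180007)) (.non (nat_lit 1) (nat_lit 4) (nat_lit 0x1a810) (nat_lit 0x200030002000100000000000400000000))) (.non (nat_lit 1) (nat_lit 4) (nat_lit 0xa021) (nat_lit 0x20001000000000000000100000002))) (.non (nat_lit 1) (nat_lit 4) (nat_lit 0x25011) (nat_lit 0x100020001000000000000000200000001))) (.sup (nat_lit 0x8000000000000000000000007000a0000) (nat_lit 0x100040007000a0008000000000000))) (.non (nat_lit 1) (nat_lit 4) (nat_lit 0x14010) (nat_lit 0x100010000000000000000000100000000))) (.non (nat_lit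 1) (nat_lit 4) (nat_lit 0x15010) (nat_lit 0x100010001000000000000000100000000))) (.star (nat_lit 8) (nat_lit 2) (nat_lit 5))) (.star (nat_lit 8) (nat_lit 2) (nat_lit 4))) (.non (nat_lit 1) (nat_lit 5) (nat_lit 0x14150) (nat_lit 0x300010000000000030004000200000000))) (.non (nat_lit 1) (nat_lit 4) (nat_lit 0x14011) (nat_lit 0x100010000000000000000000100000001)))) (.split (nat_lit 8) (nat_lit 0) (.split (nat_lit 8) (nat_lit 3) (.split (nat_lit 8) (nat_lit 4) (.split (nat_lit 8) (nat_lit 5) (.split (nat_lit 8) (nat_lit 6) (.split (nat_lit 8) (nat_lit 7) (.split (nat_lit 8) (nat_lit 2) (.split (nat_lit 8) (nat_lit 1) (.split (nat_lit 7) (nat_lit 0) (.split (nat_lit 7) (nat_lit 2) (.sup (nat_lit 0x3000d00160020001a000000000000) (nat_lit 0x300000000000000000000000500070002)) (.non (nat_lit 1) (nat_lit 4) (nat_lit 0x5021) (nat_lit 0x20001000000000000000100000001))) (.non (nat_lit 1) (nat_lit 4) (nat_lit 0xa021) (nat_lit 0x20001000000000000000100000002))) (.sup (nat_lit 0x3900000000000000000000002c00500000)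 (nat_lit 0x6001f003700500041000000000000))) (.sup (nat_lit 0x8000000000000000000000007000a0000) (nat_lit 0x100040007000a0008000000000000))) (.non (nat_lit 1) (nat_lit 4) (nat_lit 0x15011) (nat_lit 0x100020001000000000000000100000001))) (.non (nat_lit 1) (nat_lit 4) (nat_lit 0x15411) (nat_lit 0x100020002000100000000000100000001))) (.star (nat_lit 8) (nat_lit 1) (nat_lit 5))) (.star (nat_lit 8) (nat_lit 1) (nat_lit 4))) (.non (nat_lit 2) (nat_lit 5) (nat_lit 0x10145) (nat_lit 0x300000000000000030004000000020001))) (.non (nat_lit 2) (nat_lit 4) (nat_lit 0x10005) (nat_lit 0x100000000000000000000000000010001))))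

noncomputable def t189 : Tr := (.split (nat_lit 7) (nat_lit 0) (.split (nat_lit 7) (nat_lit 1) t189_31 (.split (nat_lit 6) (nat_lit 0) (.split (nat_lit 3) (nat_lit 0) (.split (nat_lit 7) (nat_lit 2) t189_38 t189_47) (.non (nat_lit 2) (nat_lit 5) (nat_lit 0x4145) (nat_lit 0x10000000000030004000000020003))) (.non (nat_lit 2) (nat_lit 4) (nat_lit 0x5005) (nat_lit 0x10001000000000000000000010001)))) (.split (nat_lit 7) (nat_lit 1) (.split (nat_lit 6) (nat_lit 0) (.split (nat_lit 3) (nat_lit 0) (.split (nat_lit 7) (nat_lit 2) (.split (nat_lit 7) (nat_lit 0) (.sup (nat_lit 0x9000a0004) (nat_lit 0x100040007000a0008000000000000)) (.non (nat_lit 2) (nat_lit 4) (nat_lit 0xa805) (nat_lit 0x30002000100000000000000020004))) (.st (nat_lit 6) (nat_lit 1) (nat_lit 4) (nat_lit 0x5411) (nat_lit 0x20002000100000000000100000001) (nat_lit 1) (nat_lit 1) (.st (nat_lit 7) (nat_lit 1) (nat_lit 4) (nat_lit 0x5011) (nat_lit 0x20001000000000000000100000001) (nat_lit 1) (nat_lit 1) t189_49))) (.non (nat_lit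 1) (nat_lit 5) (nat_lit 0x5141) (nat_lit 0x20001000000030004000000000003))) (.non (nat_lit 1) (nat_lit 4) (nat_lit 0x5001) (nat_lit 0x10001000000000000000000000001))) (.non (nat_lit 2) (nat_lit 4) (nat_lit 0x4005) (nat_lit 0x10000000000000000000000010001))))

noncomputable def t195_1 : Tr := (.ex (nat_lit 4) (.split (nat_lit 6) (nat_lit 1) (.pd (.cons (nat_lit 1) (nat_lit 5) (nat_lit 0x1000100) (nat_lit 0x72033600) (nat_lit 0xf423f0000100000f423f545910000100000f423f) (.cons (nat_lit 2) (nat_lit 5) (nat_lit 0) (nat_lit 0x71033000) (nat_lit 0xf423ff423f00000f423f5459100000b71aea2c28) .nil)) (.ex (nat_lit 7) (.pd (.cons (nat_lit 0) (nat_lit 6) (nat_lit 0x110) (nat_lit 0x50433120) (nat_lit 0xf423f00000b71aea2c2804737000010000100000) (.cons (nat_lit 1) (nat_lit 6) (nat_lit 0) (nat_lit 0x50433200) (nat_lit 0xf423f00000b71aea2c2804737f423f00000f423f) (.cons (nat_lit 2) (nat_lit 6) (nat_lit 0) (nat_lit 0x50433000) (nat_lit 0xf423f00000b71aea2c280473700000f423fb71ae) .nil))) (.leaf (.cons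 (nat_lit 0x1014) (nat_lit 0x1000000000000000100010000) (.cons (nat_lit 0x1550) (nat_lit 0x2000300040003000100000000) (.cons (nat_lit 0x1544) (nat_lit 0x2000300040003000000010000) .nil))) .nil)) (.split (nat_lit 8) (nat_lit 0) (.split (nat_lit 8) (nat_lit 1) (.split (nat_lit 8) (nat_lit 2) (.split (nat_lit 8) (nat_lit 4) (.split (nat_lit 8) (nat_lit 5) (.split (nat_lit 8) (nat_lit 6) (.split (nat_lit 8) (nat_lit 3) (.unj (nat_lit 0x15) (nat_lit 0x200020001) (nat_lit 0x14540) (nat_lit 0x100020000000300040003000000000000)) (.unj (nat_lit 0x15) (nat_lit 0x200020001) (nat_lit 0x10540) (nat_lit 0x100000000000100020002000000000000))) (.non (nat_lit 1) (nat_lit 3) (nat_lit 0x15400) (nat_lit 0x100010001000100000000000000000000))) (.non (nat_lit 1) (nat_lit 3) (nat_lit 0x14400) (nat_lit 0x100010000000100000000000000000000))) (.non (nat_lit 1) (nat_lit 3) (nat_lit 0x14500) (nat_lit 0x100010000000100010000000000000000))) (.non (nat_lit 1) (nat_lit 3) (nat_lit 0x15410) (nat_lit 0x100010001000100000000000100000000)))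 (.non (nat_lit 2) (nat_lit 3) (nat_lit 0x15404) (nat_lit 0x100010001000100000000000000010000))) (.non (nat_lit 2) (nat_lit 3) (nat_lit 0x15405) (nat_lit 0x100010001000100000000000000010001))))) (.non (nat_lit 2) (nat_lit 3) (nat_lit 0xaa04) (nat_lit 0x10002000200010000000000020000))) (.split (nat_lit 8) (nat_lit 0) (.split (nat_lit 8) (nat_lit 1) (.split (nat_lit 8) (nat_lit 2) (.split (nat_lit 8) (nat_lit 5) (.split (nat_lit 8) (nat_lit 6) (.split (nat_lit 8) (nat_lit 7) (.split (nat_lit 8) (nat_lit 3) (.unj (nat_lit 0x15) (nat_lit 0x200020001) (nat_lit 0x10540) (nat_lit 0x100000000000100020002000000000000)) (.unj (nat_lit 0x15) (nat_lit 0x200020001) (nat_lit 0x10140) (nat_lit 0x100000000000000010001000000000000))) (.non (nat_lit 1) (nat_lit 3) (nat_lit 0x14500) (nat_lit 0x100010000000100010000000000000000))) (.non (nat_lit 1) (nat_lit 3) (nat_lit 0x11500) (nat_lit 0x100000001000100010000000000000000))) (.non (nat_lit 1) (nat_lit 3) (nat_lit 0x10500) (nat_lit 0x100000000000100010000000000000000)))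 (.star (nat_lit 8) (nat_lit 2) (nat_lit 4))) (.star (nat_lit 8) (nat_lit 1) (nat_lit 4))) (.non (nat_lit 2) (nat_lit 3) (nat_lit 0x11505) (nat_lit 0x100000001000100010000000000010001))))

noncomputable def t195_2 : Tr := (.ex (nat_lit 2) (.ex (nat_lit 3) t195_1 (.split (nat_lit 8) (nat_lit 1) (.split (nat_lit 8) (nat_lit 2) (.split (nat_lit 8) (nat_lit 5) (.split (nat_lit 8) (nat_lit 6) (.split (nat_lit 8) (nat_lit 0) (.split (nat_lit 8) (nat_lit 4) (.split (nat_lit 8) (nat_lit 7) (.unj (nat_lit 0x15) (nat_lit 0x200020001) (nat_lit 0x10540) (nat_lit 0x100000000000100020002000000000000)) (.unj (nat_lit 0x15) (nat_lit 0x200020001) (nat_lit 0x10540) (nat_lit 0x100000000000100020002000000000000))) (.split (nat_lit 8) (nat_lit 7) (.unj (nat_lit 0x15) (nat_lit 0x200020001) (nat_lit 0x10140) (nat_lit 0x100000000000000010001000000000000)) (.non (nat_lit 1) (nat_lit 3) (nat_lit 0x14500) (nat_lit 0x100010000000100010000000000000000)))) (.split (nat_lit 8) (nat_lit 4) (.split (nat_lit 8) (nat_lit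 7) (.sup (nat_lit 0x1000000000000000500050000) (nat_lit 0x300000000000100050005000000000000)) (.non (nat_lit 2) (nat_lit 3) (nat_lit 0x15405) (nat_lit 0x100010001000100000000000000010001))) (.non (nat_lit 2) (nat_lit 3) (nat_lit 0x11505) (nat_lit 0x100000001000100010000000000010001)))) (.non (nat_lit 1) (nat_lit 3) (nat_lit 0x15510) (nat_lit 0x100010002000200010000000100000000))) (.non (nat_lit 1) (nat_lit 3) (nat_lit 0x15500) (nat_lit 0x100010001000200010000000000000000))) (.star (nat_lit 8) (nat_lit 2) (nat_lit 3))) (.star (nat_lit 8) (nat_lit 1) (nat_lit 3)))) (.split (nat_lit 8) (nat_lit 1) (.split (nat_lit 8) (nat_lit 3) (.split (nat_lit 8) (nat_lit 4) (.split (nat_lit 8) (nat_lit 5) (.split (nat_lit 8) (nat_lit 6) (.split (nat_lit 8) (nat_lit 7) (.split (nat_lit 8) (nat_lit 0) (.split (nat_lit 8) (nat_lit 2) (.split (nat_lit 6) (nat_lit 1) (.split (nat_lit 6) (nat_lit 2) (.sup (nat_lit 0x30001000600080006000000000000) (nat_lit 0x100000000000000000000000200020001)) (.non (nat_lit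 1) (nat_lit 3) (nat_lit 0x1a810) (nat_lit 0x200010003000200000000000400000000))) (.non (nat_lit 2) (nat_lit 3) (nat_lit 0xaa04) (nat_lit 0x10002000200010000000000020000))) (.non (nat_lit 1) (nat_lit 3) (nat_lit 0x25510) (nat_lit 0x100010002000200010000000200000000))) (.split (nat_lit 8) (nat_lit 0) (.split (nat_lit 8) (nat_lit 2) (.split (nat_lit 6) (nat_lit 1) (.sup (nat_lit 0x30001000600080006000000000000) (nat_lit 0x200000000000000000000000200020002)) (.non (nat_lit 2) (nat_lit 3) (nat_lit 0xaa04) (nat_lit 0x10002000200010000000000020000))) (.non (nat_lit 1) (nat_lit 3) (nat_lit 0x25510) (nat_lit 0x100010002000200010000000200000000))) (.non (nat_lit 1) (nat_lit 3) (nat_lit 0x2aa21) (nat_lit 0x200010002000200010000000200000002)))) (.non (nat_lit 1) (nat_lit 3) (nat_lit 0x15410) (nat_lit 0x100010001000100000000000100000000))) (.non (nat_lit 1) (nat_lit 3) (nat_lit 0x11010) (nat_lit 0x100000001000000000000000100000000))) (.non (nat_lit 1) (nat_lit 3) (nat_lit 0x15500) (nat_lit 0x100010001000200010000000000000000)))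 (.star (nat_lit 8) (nat_lit 2) (nat_lit 4))) (.star (nat_lit 8) (nat_lit 2) (nat_lit 3))) (.non (nat_lit 2) (nat_lit 3) (nat_lit 0x15505) (nat_lit 0x100010002000200010000000000020001))))

noncomputable def t195_3 : Tr := (.ex (nat_lit 3) (.ex (nat_lit 4) (.split (nat_lit 6) (nat_lit 1) (.pd (.cons (nat_lit 1) (nat_lit 5) (nat_lit 0x10000100) (nat_lit 0x26033700) (nat_lit 0x1f423f00000f423f545910000100000f423f) (.cons (nat_lit 1) (nat_lit 7) (nat_lit 0) (nat_lit 0x5433200) (nat_lit 0xf423fb71aea2c2804737f423f00000f423f) (.cons (nat_lit 2) (nat_lit 5) (nat_lit 0) (nat_lit 0x71033000) (nat_lit 0xf423ff423f00000f423f5459100000b71aea2c28) (.cons (nat_lit 2) (nat_lit 6) (nat_lit 0) (nat_lit 0x50433000) (nat_lit 0xf423f00000b71aea2c280473700000f423fb71ae) .nil)))) (.leaf (.cons (nat_lit 0x4014) (nat_lit 0x10000000000000000000200020000) (.cons (nat_lit 0x1544) (nat_lit 0x2000300040003000000010000) (.cons (nat_lit 0x4550) (nat_lit 0x20000000300040003000100000000) .nil))) .nil)) (.non (nat_lit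 2) (nat_lit 3) (nat_lit 0xaa04) (nat_lit 0x10002000200010000000000020000))) (.split (nat_lit 8) (nat_lit 0) (.split (nat_lit 8) (nat_lit 1) (.split (nat_lit 8) (nat_lit 2) (.split (nat_lit 8) (nat_lit 5) (.split (nat_lit 8) (nat_lit 6) (.split (nat_lit 8) (nat_lit 7) (.split (nat_lit 8) (nat_lit 3) (.unj (nat_lit 0x15) (nat_lit 0x200020001) (nat_lit 0x10540) (nat_lit 0x100000000000100020002000000000000)) (.unj (nat_lit 0x15) (nat_lit 0x200020001) (nat_lit 0x10140) (nat_lit 0x100000000000000010001000000000000))) (.non (nat_lit 1) (nat_lit 3) (nat_lit 0x14500) (nat_lit 0x100010000000100010000000000000000))) (.non (nat_lit 1) (nat_lit 3) (nat_lit 0x11500) (nat_lit 0x100000001000100010000000000000000))) (.non (nat_lit 1) (nat_lit 3) (nat_lit 0x10500) (nat_lit 0x100000000000100010000000000000000))) (.star (nat_lit 8) (nat_lit 2) (nat_lit 4))) (.star (nat_lit 8) (nat_lit 1) (nat_lit 4))) (.non (nat_lit 2) (nat_lit 3) (nat_lit 0x11505) (nat_lit 0x100000001000100010000000000010001)))) (.split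 (nat_lit 8) (nat_lit 1) (.split (nat_lit 8) (nat_lit 2) (.split (nat_lit 8) (nat_lit 5) (.split (nat_lit 8) (nat_lit 6) (.split (nat_lit 8) (nat_lit 7) (.split (nat_lit 8) (nat_lit 0) (.split (nat_lit 8) (nat_lit 4) (.unj (nat_lit 0x15) (nat_lit 0x200020001) (nat_lit 0x10540) (nat_lit 0x100000000000100020002000000000000)) (.unj (nat_lit 0x15) (nat_lit 0x200020001) (nat_lit 0x10140) (nat_lit 0x100000000000000010001000000000000))) (.split (nat_lit 8) (nat_lit 4) (.sup (nat_lit 0x40000000000000009000a0000) (nat_lit 0x50000000000020009000a000000000000)) (.non (nat_lit 2) (nat_lit 3) (nat_lit 0x11505) (nat_lit 0x100000001000100010000000000010001)))) (.non (nat_lit 1) (nat_lit 3) (nat_lit 0x15510) (nat_lit 0x100020001000200010000000100000000))) (.non (nat_lit 2) (nat_lit 3) (nat_lit 0x15504) (nat_lit 0x100010002000200010000000000010000))) (.non (nat_lit 1) (nat_lit 3) (nat_lit 0x15500) (nat_lit 0x100010001000200010000000000000000))) (.star (nat_lit 8) (nat_lit 2) (nat_lit 3))) (.star (nat_lit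 8) (nat_lit 1) (nat_lit 3))))

noncomputable def t195_4 : Tr := (.ex (nat_lit 2) (.ex (nat_lit 3) (.split (nat_lit 6) (nat_lit 0) (.pd (.cons (nat_lit 0) (nat_lit 7) (nat_lit 0x110) (nat_lit 0x5433120) (nat_lit 0xf423fb71aea2c2804737000010000100000) (.cons (nat_lit 1) (nat_lit 5) (nat_lit 0x10000100) (nat_lit 0x20033700) (nat_lit 0x1f423f00000f423f545910000100000b71ae) (.cons (nat_lit 2) (nat_lit 5) (nat_lit 0) (nat_lit 0x70033000) (nat_lit 0xf423ff423f00000f423f5459100000f423f7a11d) (.cons (nat_lit 2) (nat_lit 6) (nat_lit 0) (nat_lit 0x50433000) (nat_lit 0xf423f00000b71aea2c280473700000f423fb71ae) .nil)))) (.split (nat_lit 7) (nat_lit 2) (.leaf (.cons (nat_lit 0x4014) (nat_lit 0x10000000000000000000200020000) (.cons (nat_lit 0x4550) (nat_lit 0x20000000300040003000100000000) (.cons (nat_lit 0x1541) (nat_lit 0x2000300040003000000000001) .nil))) (.cons (nat_lit 0x11110101) (nat_lit 0x1010) (nat_lit 0xc) (nat_lit 0x42010503) .nil)) (.non (nat_lit 1) (nat_lit 3) (nat_lit 0xaa10) (nat_lit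 0x20001000200010000000200000000)))) (.non (nat_lit 1) (nat_lit 3) (nat_lit 0xaa01) (nat_lit 0x10002000200010000000000000002))) (.split (nat_lit 8) (nat_lit 0) (.split (nat_lit 8) (nat_lit 1) (.split (nat_lit 8) (nat_lit 2) (.split (nat_lit 8) (nat_lit 4) (.split (nat_lit 8) (nat_lit 5) (.split (nat_lit 8) (nat_lit 6) (.split (nat_lit 8) (nat_lit 7) (.unj (nat_lit 0x15) (nat_lit 0x200020001) (nat_lit 0x10540) (nat_lit 0x100000000000100020002000000000000)) (.non (nat_lit 1) (nat_lit 3) (nat_lit 0x15510) (nat_lit 0x100020001000200010000000100000000))) (.non (nat_lit 1) (nat_lit 3) (nat_lit 0x15501) (nat_lit 0x100010002000200010000000000000001))) (.non (nat_lit 1) (nat_lit 3) (nat_lit 0x15500) (nat_lit 0x100010001000200010000000000000000))) (.non (nat_lit 1) (nat_lit 3) (nat_lit 0x15511) (nat_lit 0x100020002000300020000000100000001))) (.star (nat_lit 8) (nat_lit 2) (nat_lit 3))) (.star (nat_lit 8) (nat_lit 1) (nat_lit 3))) (.non (nat_lit 2) (nat_lit 3) (nat_lit 0x15505) (nat_lit 0x100010002000200010000000000010002))))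 (.split (nat_lit 8) (nat_lit 0) (.split (nat_lit 8) (nat_lit 3) (.split (nat_lit 8) (nat_lit 4) (.split (nat_lit 8) (nat_lit 5) (.split (nat_lit 8) (nat_lit 6) (.split (nat_lit 8) (nat_lit 7) (.split (nat_lit 8) (nat_lit 1) (.split (nat_lit 8) (nat_lit 2) (.split (nat_lit 7) (nat_lit 2) (.sup (nat_lit 0x500000000000000000000000a00090000) (nat_lit 0x100030007000a0008000000000000)) (.non (nat_lit 1) (nat_lit 3) (nat_lit 0x1a810) (nat_lit 0x200030001000200000000000400000000))) (.non (nat_lit 1) (nat_lit 3) (nat_lit 0x25510) (nat_lit 0x100020001000200010000000200000000))) (.sup (nat_lit 0x400000000000000000000000500030000) (nat_lit 0x2000300050004000000000001))) (.non (nat_lit 1) (nat_lit 3) (nat_lit 0x14010) (nat_lit 0x100010000000000000000000100000000))) (.non (nat_lit 1) (nat_lit 3) (nat_lit 0x15410) (nat_lit 0x100010001000100000000000100000000))) (.non (nat_lit 1) (nat_lit 3) (nat_lit 0x15500) (nat_lit 0x100010001000200010000000000000000))) (.star (nat_lit 8) (nat_lit 2) (nat_lit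 4))) (.star (nat_lit 8) (nat_lit 2) (nat_lit 3))) (.non (nat_lit 1) (nat_lit 3) (nat_lit 0x15411) (nat_lit 0x100010001000100000000000100000001))))

noncomputable def t195_5 : Tr := (.split (nat_lit 7) (nat_lit 2) (.split (nat_lit 6) (nat_lit 0) (.split (nat_lit 6) (nat_lit 1) (.split (nat_lit 6) (nat_lit 2) .uj (.split (nat_lit 6) (nat_lit 2) (.sup (nat_lit 0x8000a0005) (nat_lit 0x300010007000a0008000000000000)) (.non (nat_lit 1) (nat_lit 3) (nat_lit 0xaa10) (nat_lit 0x10002000200010000000200000000)))) (.split (nat_lit 6) (nat_lit 2) (.split (nat_lit 6) (nat_lit 1) (.sup (nat_lit 0x9000a0005) (nat_lit 0x300010007000a0008000000000000)) (.non (nat_lit 2) (nat_lit 3) (nat_lit 0xaa04) (nat_lit 0x10002000200010000000000020000))) (.st (nat_lit 1) (nat_lit 2) (nat_lit 3) (nat_lit 0x5505) (nat_lit 0x10002000200010000000000020001) (nat_lit 1) (nat_lit 1) t195_2))) (.split (nat_lit 6) (nat_lit 1) (.split (nat_lit 6) (nat_lit 2) (.sup (nat_lit 0x9000a0004) (nat_lit 0x300010007000a0008000000000000))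 (.non (nat_lit 1) (nat_lit 3) (nat_lit 0x5511) (nat_lit 0x10002000200010000000100000001))) (.non (nat_lit 2) (nat_lit 3) (nat_lit 0x1005) (nat_lit 0x1000000000000000000010001)))) (.split (nat_lit 6) (nat_lit 2) (.split (nat_lit 6) (nat_lit 0) (.split (nat_lit 6) (nat_lit 1) (.split (nat_lit 7) (nat_lit 2) (.sup (nat_lit 0x8000a0005) (nat_lit 0x100030007000a0008000000000000)) (.non (nat_lit 1) (nat_lit 3) (nat_lit 0xaa10) (nat_lit 0x20001000200010000000200000000))) (.st (nat_lit 6) (nat_lit 2) (nat_lit 3) (nat_lit 0x5504) (nat_lit 0x10002000200010000000000010000) (nat_lit 1) (nat_lit 1) (.st (nat_lit 7) (nat_lit 1) (nat_lit 3) (nat_lit 0x5510) (nat_lit 0x20001000200010000000100000000) (nat_lit 1) (nat_lit 1) t195_3))) (.split (nat_lit 6) (nat_lit 1) (.st (nat_lit 4) (nat_lit 1) (nat_lit 3) (nat_lit 0x5511) (nat_lit 0x20002000300020000000100000001) (nat_lit 1) (nat_lit 1) (.st (nat_lit 6) (nat_lit 1) (nat_lit 3) (nat_lit 0x5501) (nat_lit 0x10002000200010000000000000001) (nat_lit 1)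 (nat_lit 1) (.st (nat_lit 7) (nat_lit 1) (nat_lit 3) (nat_lit 0x5510) (nat_lit 0x20001000200010000000100000000) (nat_lit 1) (nat_lit 1) (.st (nat_lit 0) (nat_lit 2) (nat_lit 3) (nat_lit 0x5505) (nat_lit 0x10002000200010000000000010002) (nat_lit 1) (nat_lit 1) (.ex (nat_lit 1) t195_4 (.split (nat_lit 8) (nat_lit 0) (.split (nat_lit 8) (nat_lit 3) (.split (nat_lit 8) (nat_lit 4) (.split (nat_lit 8) (nat_lit 5) (.split (nat_lit 8) (nat_lit 6) (.split (nat_lit 8) (nat_lit 7) (.split (nat_lit 8) (nat_lit 2) (.split (nat_lit 8) (nat_lit 1) (.split (nat_lit 7) (nat_lit 2) (.sup (nat_lit 0x5000000000000000000000008000a0000) (nat_lit 0x100030007000a0008000000000000)) (.non (nat_lit 1) (nat_lit 3) (nat_lit 0xaa10) (nat_lit 0x20001000200010000000200000000))) (.non (nat_lit 2) (nat_lit 3) (nat_lit 0x25505) (nat_lit 0x100010002000200010000000000020002))) (.sup (nat_lit 0x400000000000000000000000500030000) (nat_lit 0x2000300050004000000000001))) (.non (nat_lit 1) (nat_lit 3) (nat_lit 0x15510)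 (nat_lit 0x100020001000200010000000100000000))) (.non (nat_lit 1) (nat_lit 3) (nat_lit 0x15501) (nat_lit 0x100010002000200010000000000000001))) (.non (nat_lit 1) (nat_lit 3) (nat_lit 0x15500) (nat_lit 0x100010001000200010000000000000000))) (.star (nat_lit 8) (nat_lit 1) (nat_lit 4))) (.star (nat_lit 8) (nat_lit 1) (nat_lit 3))) (.non (nat_lit 2) (nat_lit 3) (nat_lit 0x10005) (nat_lit 0x100000000000000000000000000010001)))))))) (.non (nat_lit 2) (nat_lit 3) (nat_lit 0x1005) (nat_lit 0x1000000000000000000010001)))) (.non (nat_lit 1) (nat_lit 3) (nat_lit 0x5410) (nat_lit 0x10001000100000000000100000000))))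

noncomputable def t195_6 : Tr := (.ex (nat_lit 3) (.ex (nat_lit 4) (.split (nat_lit 7) (nat_lit 1) (.pd (.cons (nat_lit 1) (nat_lit 5) (nat_lit 0x1000100) (nat_lit 0x72033600) (nat_lit 0xf423f0000100000f423f545910000100000f423f) (.cons (nat_lit 1) (nat_lit 6) (nat_lit 0) (nat_lit 0x50433200) (nat_lit 0xf423f00000b71aea2c2804737f423f00000f423f) (.cons (nat_lit 2) (nat_lit 5) (nat_lit 0) (nat_lit 0x16033000) (nat_lit 0xf423ff423f00000f423f5459100000b71aea2c28) (.cons (nat_lit 2) (nat_lit 7) (nat_lit 0) (nat_lit 0x5433000) (nat_lit 0xf423fb71aea2c280473700000f423fb71ae) .nil)))) (.leaf (.cons (nat_lit 0x4014) (nat_lit 0x10000000000000000000200020000) (.cons (nat_lit 0x1550) (nat_lit 0x2000300040003000100000000) (.cons (nat_lit 0x4544) (nat_lit 0x20000000300040003000000010000) .nil))) .nil)) (.non (nat_lit 2) (nat_lit 3) (nat_lit 0xaa04) (nat_lit 0x20001000200010000000000020000))) (.split (nat_lit 8) (nat_lit 0) (.split (nat_lit 8) (nat_lit 1) (.split (nat_lit 8) (nat_lit 2) (.split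 (nat_lit 8) (nat_lit 5) (.split (nat_lit 8) (nat_lit 6) (.split (nat_lit 8) (nat_lit 7) (.split (nat_lit 8) (nat_lit 3) (.unj (nat_lit 0x15) (nat_lit 0x200020001) (nat_lit 0x10540) (nat_lit 0x100000000000100020002000000000000)) (.unj (nat_lit 0x15) (nat_lit 0x200020001) (nat_lit 0x10140) (nat_lit 0x100000000000000010001000000000000))) (.non (nat_lit 1) (nat_lit 3) (nat_lit 0x14500) (nat_lit 0x100010000000100010000000000000000))) (.non (nat_lit 1) (nat_lit 3) (nat_lit 0x11500) (nat_lit 0x100000001000100010000000000000000))) (.non (nat_lit 1) (nat_lit 3) (nat_lit 0x10500) (nat_lit 0x100000000000100010000000000000000))) (.star (nat_lit 8) (nat_lit 2) (nat_lit 4))) (.star (nat_lit 8) (nat_lit 1) (nat_lit 4))) (.non (nat_lit 2) (nat_lit 3) (nat_lit 0x14505) (nat_lit 0x100010000000100010000000000010001)))) (.split (nat_lit 8) (nat_lit 1) (.split (nat_lit 8) (nat_lit 2) (.split (nat_lit 8) (nat_lit 5) (.split (nat_lit 8) (nat_lit 6) (.split (nat_lit 8) (nat_lit 7) (.split (nat_lit 8) (nat_lit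 0) (.split (nat_lit 8) (nat_lit 4) (.unj (nat_lit 0x15) (nat_lit 0x200020001) (nat_lit 0x10540) (nat_lit 0x100000000000100020002000000000000)) (.unj (nat_lit 0x15) (nat_lit 0x200020001) (nat_lit 0x10140) (nat_lit 0x100000000000000010001000000000000))) (.split (nat_lit 8) (nat_lit 4) (.sup (nat_lit 0x4000000000000000a00090000) (nat_lit 0x50000000000020009000a000000000000)) (.non (nat_lit 2) (nat_lit 3) (nat_lit 0x14505) (nat_lit 0x100010000000100010000000000010001)))) (.non (nat_lit 2) (nat_lit 3) (nat_lit 0x15504) (nat_lit 0x100020001000200010000000000010000))) (.non (nat_lit 1) (nat_lit 3) (nat_lit 0x15510) (nat_lit 0x100010002000200010000000100000000))) (.non (nat_lit 1) (nat_lit 3) (nat_lit 0x15500) (nat_lit 0x100010001000200010000000000000000))) (.star (nat_lit 8) (nat_lit 2) (nat_lit 3))) (.star (nat_lit 8) (nat_lit 1) (nat_lit 3))))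

noncomputable def t195_7 : Tr := (.ex (nat_lit 4) (.split (nat_lit 7) (nat_lit 1) (.pd (.cons (nat_lit 1) (nat_lit 5) (nat_lit 0x10000100) (nat_lit 0x26033700) (nat_lit 0x1f423f00000f423f545910000100000f423f) (.cons (nat_lit 2) (nat_lit 5) (nat_lit 0) (nat_lit 0x16033000) (nat_lit 0xf423ff423f00000f423f5459100000b71aea2c28) .nil)) (.ex (nat_lit 6) (.pd (.cons (nat_lit 0) (nat_lit 7) (nat_lit 0x110) (nat_lit 0x5433120) (nat_lit 0xf423fb71aea2c2804737000010000100000) (.cons (nat_lit 1) (nat_lit 7) (nat_lit 0) (nat_lit 0x5433200) (nat_lit 0xf423fb71aea2c2804737f423f00000f423f) (.cons (nat_lit 2) (nat_lit 7) (nat_lit 0) (nat_lit 0x5433000) (nat_lit 0xf423fb71aea2c280473700000f423fb71ae) .nil))) (.leaf (.cons (nat_lit 0x4014) (nat_lit 0x10000000000000000000100010000) (.cons (nat_lit 0x4550) (nat_lit 0x20000000300040003000100000000) (.cons (nat_lit 0x4544) (nat_lit 0x20000000300040003000000010000) .nil))) .nil)) (.split (nat_lit 8) (nat_lit 0) (.split (nat_lit 8) (nat_lit 1) (.split (nat_lit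 8) (nat_lit 2) (.split (nat_lit 8) (nat_lit 4) (.split (nat_lit 8) (nat_lit 5) (.split (nat_lit 8) (nat_lit 7) (.split (nat_lit 8) (nat_lit 3) (.unj (nat_lit 0x15) (nat_lit 0x200020001) (nat_lit 0x11540) (nat_lit 0x100000002000300040003000000000000)) (.unj (nat_lit 0x15) (nat_lit 0x200020001) (nat_lit 0x10540) (nat_lit 0x100000000000100020002000000000000))) (.non (nat_lit 1) (nat_lit 3) (nat_lit 0x15400) (nat_lit 0x100010001000100000000000000000000))) (.non (nat_lit 1) (nat_lit 3) (nat_lit 0x11400) (nat_lit 0x100000001000100000000000000000000))) (.non (nat_lit 1) (nat_lit 3) (nat_lit 0x11500) (nat_lit 0x100000001000100010000000000000000))) (.non (nat_lit 1) (nat_lit 3) (nat_lit 0x15410) (nat_lit 0x100010001000100000000000100000000))) (.non (nat_lit 2) (nat_lit 3) (nat_lit 0x15404) (nat_lit 0x100010001000100000000000000010000))) (.non (nat_lit 2) (nat_lit 3) (nat_lit 0x15405) (nat_lit 0x100010001000100000000000000010001))))) (.non (nat_lit 2) (nat_lit 3) (nat_lit 0xaa04) (nat_lit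 0x20001000200010000000000020000))) (.split (nat_lit 8) (nat_lit 0) (.split (nat_lit 8) (nat_lit 1) (.split (nat_lit 8) (nat_lit 2) (.split (nat_lit 8) (nat_lit 5) (.split (nat_lit 8) (nat_lit 6) (.split (nat_lit 8) (nat_lit 7) (.split (nat_lit 8) (nat_lit 3) (.unj (nat_lit 0x15) (nat_lit 0x200020001) (nat_lit 0x10540) (nat_lit 0x100000000000100020002000000000000)) (.unj (nat_lit 0x15) (nat_lit 0x200020001) (nat_lit 0x10140) (nat_lit 0x100000000000000010001000000000000))) (.non (nat_lit 1) (nat_lit 3) (nat_lit 0x14500) (nat_lit 0x100010000000100010000000000000000))) (.non (nat_lit 1) (nat_lit 3) (nat_lit 0x11500) (nat_lit 0x100000001000100010000000000000000))) (.non (nat_lit 1) (nat_lit 3) (nat_lit 0x10500) (nat_lit 0x100000000000100010000000000000000))) (.star (nat_lit 8) (nat_lit 2) (nat_lit 4))) (.star (nat_lit 8) (nat_lit 1) (nat_lit 4))) (.non (nat_lit 2) (nat_lit 3) (nat_lit 0x14505) (nat_lit 0x100010000000100010000000000010001))))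

noncomputable def t195_8 : Tr := (.ex (nat_lit 2) (.ex (nat_lit 3) t195_7 (.split (nat_lit 8) (nat_lit 1) (.split (nat_lit 8) (nat_lit 2) (.split (nat_lit 8) (nat_lit 5) (.split (nat_lit 8) (nat_lit 7) (.split (nat_lit 8) (nat_lit 0) (.split (nat_lit 8) (nat_lit 4) (.split (nat_lit 8) (nat_lit 6) (.unj (nat_lit 0x15) (nat_lit 0x200020001) (nat_lit 0x10540) (nat_lit 0x100000000000100020002000000000000)) (.unj (nat_lit 0x15) (nat_lit 0x200020001) (nat_lit 0x10540) (nat_lit 0x100000000000100020002000000000000))) (.split (nat_lit 8) (nat_lit 6) (.unj (nat_lit 0x15) (nat_lit 0x200020001) (nat_lit 0x10140) (nat_lit 0x100000000000000010001000000000000)) (.non (nat_lit 1) (nat_lit 3) (nat_lit 0x11500) (nat_lit 0x100000001000100010000000000000000)))) (.split (nat_lit 8) (nat_lit 4) (.split (nat_lit 8) (nat_lit 6) (.sup (nat_lit 0x10000000000000000000500050000) (nat_lit 0x300000000000100050005000000000000)) (.non (nat_lit 2) (nat_lit 3) (nat_lit 0x15405) (nat_lit 0x100010001000100000000000000010001)))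 (.non (nat_lit 2) (nat_lit 3) (nat_lit 0x14505) (nat_lit 0x100010000000100010000000000010001)))) (.non (nat_lit 1) (nat_lit 3) (nat_lit 0x15510) (nat_lit 0x100020001000200010000000100000000))) (.non (nat_lit 1) (nat_lit 3) (nat_lit 0x15500) (nat_lit 0x100010001000200010000000000000000))) (.star (nat_lit 8) (nat_lit 2) (nat_lit 3))) (.star (nat_lit 8) (nat_lit 1) (nat_lit 3)))) (.split (nat_lit 8) (nat_lit 1) (.split (nat_lit 8) (nat_lit 3) (.split (nat_lit 8) (nat_lit 4) (.split (nat_lit 8) (nat_lit 5) (.split (nat_lit 8) (nat_lit 6) (.split (nat_lit 8) (nat_lit 7) (.split (nat_lit 8) (nat_lit 0) (.split (nat_lit 8) (nat_lit 2) (.split (nat_lit 7) (nat_lit 1) (.split (nat_lit 7) (nat_lit 2) (.sup (nat_lit 0x10003000600080006000000000000) (nat_lit 0x100000000000000000000000200020001)) (.non (nat_lit 1) (nat_lit 3) (nat_lit 0x1a810) (nat_lit 0x200030001000200000000000400000000))) (.non (nat_lit 2) (nat_lit 3) (nat_lit 0xaa04) (nat_lit 0x20001000200010000000000020000))) (.non (nat_lit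 1) (nat_lit 3) (nat_lit 0x25510) (nat_lit 0x100020001000200010000000200000000))) (.split (nat_lit 8) (nat_lit 0) (.split (nat_lit 8) (nat_lit 2) (.split (nat_lit 7) (nat_lit 1) (.sup (nat_lit 0x10003000600080006000000000000) (nat_lit 0x200000000000000000000000200020002)) (.non (nat_lit 2) (nat_lit 3) (nat_lit 0xaa04) (nat_lit 0x20001000200010000000000020000))) (.non (nat_lit 1) (nat_lit 3) (nat_lit 0x25510) (nat_lit 0x100020001000200010000000200000000))) (.non (nat_lit 1) (nat_lit 3) (nat_lit 0x2aa21) (nat_lit 0x200020001000200010000000200000002)))) (.non (nat_lit 1) (nat_lit 3) (nat_lit 0x14010) (nat_lit 0x100010000000000000000000100000000))) (.non (nat_lit 1) (nat_lit 3) (nat_lit 0x15410) (nat_lit 0x100010001000100000000000100000000))) (.non (nat_lit 1) (nat_lit 3) (nat_lit 0x15500) (nat_lit 0x100010001000200010000000000000000))) (.star (nat_lit 8) (nat_lit 2) (nat_lit 4))) (.star (nat_lit 8) (nat_lit 2) (nat_lit 3))) (.non (nat_lit 2) (nat_lit 3) (nat_lit 0x15505) (nat_lit 0x100020001000200010000000000020001))))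

noncomputable def t195_9 : Tr := (.ex (nat_lit 2) (.ex (nat_lit 3) (.split (nat_lit 7) (nat_lit 0) (.pd (.cons (nat_lit 0) (nat_lit 6) (nat_lit 0x110) (nat_lit 0x50433120) (nat_lit 0xf423f00000b71aea2c2804737000010000100000) (.cons (nat_lit 1) (nat_lit 5) (nat_lit 0x1000100) (nat_lit 0x2033600) (nat_lit 0xf423f0000100000f423f545910000100000b71ae) (.cons (nat_lit 2) (nat_lit 5) (nat_lit 0) (nat_lit 0x6033000) (nat_lit 0xf423ff423f00000f423f5459100000f423f7a11d) (.cons (nat_lit 2) (nat_lit 7) (nat_lit 0) (nat_lit 0x5433000) (nat_lit 0xf423fb71aea2c280473700000f423fb71ae) .nil)))) (.split (nat_lit 6) (nat_lit 2) (.leaf (.cons (nat_lit 0x1014) (nat_lit 0x1000000000000000200020000) (.cons (nat_lit 0x4541) (nat_lit 0x20000000300040003000000000001) (.cons (nat_lit 0x1550) (nat_lit 0x2000300040003000100000000) .nil))) (.cons (nat_lit 0x11110101) (nat_lit 0x1010) (nat_lit 0xc) (nat_lit 0x42010305) .nil)) (.non (nat_lit 1) (nat_lit 3) (nat_lit 0xaa10) (nat_lit 0x10002000200010000000200000000))))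 (.non (nat_lit 1) (nat_lit 3) (nat_lit 0xaa01) (nat_lit 0x20001000200010000000000000002))) (.split (nat_lit 8) (nat_lit 0) (.split (nat_lit 8) (nat_lit 1) (.split (nat_lit 8) (nat_lit 2) (.split (nat_lit 8) (nat_lit 4) (.split (nat_lit 8) (nat_lit 5) (.split (nat_lit 8) (nat_lit 6) (.split (nat_lit 8) (nat_lit 7) (.unj (nat_lit 0x15) (nat_lit 0x200020001) (nat_lit 0x10540) (nat_lit 0x100000000000100020002000000000000)) (.non (nat_lit 1) (nat_lit 3) (nat_lit 0x15501) (nat_lit 0x100020001000200010000000000000001))) (.non (nat_lit 1) (nat_lit 3) (nat_lit 0x15510) (nat_lit 0x100010002000200010000000100000000))) (.non (nat_lit 1) (nat_lit 3) (nat_lit 0x15500) (nat_lit 0x100010001000200010000000000000000))) (.non (nat_lit 1) (nat_lit 3) (nat_lit 0x15511) (nat_lit 0x100020002000300020000000100000001))) (.star (nat_lit 8) (nat_lit 2) (nat_lit 3))) (.star (nat_lit 8) (nat_lit 1) (nat_lit 3))) (.non (nat_lit 2) (nat_lit 3) (nat_lit 0x15505) (nat_lit 0x100020001000200010000000000010002))))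 (.split (nat_lit 8) (nat_lit 0) (.split (nat_lit 8) (nat_lit 3) (.split (nat_lit 8) (nat_lit 4) (.split (nat_lit 8) (nat_lit 5) (.split (nat_lit 8) (nat_lit 6) (.split (nat_lit 8) (nat_lit 7) (.split (nat_lit 8) (nat_lit 1) (.split (nat_lit 8) (nat_lit 2) (.split (nat_lit 7) (nat_lit 0) (.split (nat_lit 6) (nat_lit 2) (.sup (nat_lit 0x500000000000000000000000a00090000) (nat_lit 0x300010007000a0008000000000000)) (.non (nat_lit 1) (nat_lit 3) (nat_lit 0x1a810) (nat_lit 0x200010003000200000000000400000000))) (.non (nat_lit 1) (nat_lit 3) (nat_lit 0xaa01) (nat_lit 0x20001000200010000000000000002))) (.non (nat_lit 1) (nat_lit 3) (nat_lit 0x25510) (nat_lit 0x100010002000200010000000200000000))) (.sup (nat_lit 0x400000000000000000000000500030000) (nat_lit 0x20000000300050004000000000001))) (.non (nat_lit 1) (nat_lit 3) (nat_lit 0x15410) (nat_lit 0x100010001000100000000000100000000))) (.non (nat_lit 1) (nat_lit 3) (nat_lit 0x11010) (nat_lit 0x100000001000000000000000100000000))) (.non (nat_lit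 1) (nat_lit 3) (nat_lit 0x15500) (nat_lit 0x100010001000200010000000000000000))) (.star (nat_lit 8) (nat_lit 2) (nat_lit 4))) (.star (nat_lit 8) (nat_lit 2) (nat_lit 3))) (.non (nat_lit 1) (nat_lit 3) (nat_lit 0x15411) (nat_lit 0x100010001000100000000000100000001))))

noncomputable def t195 : Tr := (.split (nat_lit 7) (nat_lit 0) (.split (nat_lit 7) (nat_lit 1) t195_5 (.split (nat_lit 6) (nat_lit 0) (.split (nat_lit 6) (nat_lit 1) (.split (nat_lit 7) (nat_lit 2) (.split (nat_lit 6) (nat_lit 2) (.split (nat_lit 7) (nat_lit 1) (.sup (nat_lit 0x9000a0005) (nat_lit 0x100030007000a0008000000000000)) (.non (nat_lit 2) (nat_lit 3) (nat_lit 0xaa04) (nat_lit 0x20001000200010000000000020000))) (.st (nat_lit 6) (nat_lit 1) (nat_lit 3) (nat_lit 0x5510) (nat_lit 0x10002000200010000000100000000) (nat_lit 1) (nat_lit 1) (.st (nat_lit 7) (nat_lit 2) (nat_lit 3) (nat_lit 0x5504) (nat_lit 0x20001000200010000000000010000) (nat_lit 1) (nat_lit 1) t195_6))) (.split (nat_lit 6) (nat_lit 2) (.st (nat_lit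 1) (nat_lit 2) (nat_lit 3) (nat_lit 0x5505) (nat_lit 0x20001000200010000000000020001) (nat_lit 1) (nat_lit 1) t195_8) (.non (nat_lit 1) (nat_lit 3) (nat_lit 0x5410) (nat_lit 0x10001000100000000000100000000)))) (.non (nat_lit 2) (nat_lit 3) (nat_lit 0x5404) (nat_lit 0x10001000100000000000000010000))) (.non (nat_lit 2) (nat_lit 3) (nat_lit 0x5405) (nat_lit 0x10001000100000000000000010001)))) (.split (nat_lit 7) (nat_lit 1) (.split (nat_lit 7) (nat_lit 2) (.split (nat_lit 6) (nat_lit 0) (.split (nat_lit 6) (nat_lit 1) (.split (nat_lit 6) (nat_lit 2) (.sup (nat_lit 0x9000a0004) (nat_lit 0x100030007000a0008000000000000)) (.st (nat_lit 4) (nat_lit 1) (nat_lit 3) (nat_lit 0x5511) (nat_lit 0x20002000300020000000100000001) (nat_lit 1) (nat_lit 1) (.st (nat_lit 6) (nat_lit 1) (nat_lit 3) (nat_lit 0x5510) (nat_lit 0x10002000200010000000100000000) (nat_lit 1) (nat_lit 1) (.st (nat_lit 7) (nat_lit 1) (nat_lit 3) (nat_lit 0x5501) (nat_lit 0x20001000200010000000000000001) (nat_lit 1) (nat_lit 1)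 (.st (nat_lit 0) (nat_lit 2) (nat_lit 3) (nat_lit 0x5505) (nat_lit 0x20001000200010000000000010002) (nat_lit 1) (nat_lit 1) (.ex (nat_lit 1) t195_9 (.split (nat_lit 8) (nat_lit 0) (.split (nat_lit 8) (nat_lit 3) (.split (nat_lit 8) (nat_lit 4) (.split (nat_lit 8) (nat_lit 5) (.split (nat_lit 8) (nat_lit 6) (.split (nat_lit 8) (nat_lit 7) (.split (nat_lit 8) (nat_lit 2) (.split (nat_lit 8) (nat_lit 1) (.split (nat_lit 7) (nat_lit 0) (.split (nat_lit 6) (nat_lit 2) (.sup (nat_lit 0x5000000000000000000000008000a0000) (nat_lit 0x300010007000a0008000000000000)) (.non (nat_lit 1) (nat_lit 3) (nat_lit 0xaa10) (nat_lit 0x10002000200010000000200000000))) (.non (nat_lit 1) (nat_lit 3) (nat_lit 0xaa01) (nat_lit 0x20001000200010000000000000002))) (.non (nat_lit 2) (nat_lit 3) (nat_lit 0x25505) (nat_lit 0x100020001000200010000000000020002))) (.sup (nat_lit 0x400000000000000000000000500030000) (nat_lit 0x20000000300050004000000000001))) (.non (nat_lit 1) (nat_lit 3) (nat_lit 0x15501) (nat_lit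 0x100020001000200010000000000000001))) (.non (nat_lit 1) (nat_lit 3) (nat_lit 0x15510) (nat_lit 0x100010002000200010000000100000000))) (.non (nat_lit 1) (nat_lit 3) (nat_lit 0x15500) (nat_lit 0x100010001000200010000000000000000))) (.star (nat_lit 8) (nat_lit 1) (nat_lit 4))) (.star (nat_lit 8) (nat_lit 1) (nat_lit 3))) (.non (nat_lit 2) (nat_lit 3) (nat_lit 0x10005) (nat_lit 0x100000000000000000000000000010001))))))))) (.non (nat_lit 2) (nat_lit 3) (nat_lit 0x5405) (nat_lit 0x10001000100000000000000010001))) (.non (nat_lit 1) (nat_lit 3) (nat_lit 0x5401) (nat_lit 0x10001000100000000000000000001))) (.non (nat_lit 1) (nat_lit 3) (nat_lit 0x5511) (nat_lit 0x20001000200010000000100000001))) (.non (nat_lit 2) (nat_lit 3) (nat_lit 0x4005) (nat_lit 0x10000000000000000000000010001))))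

noncomputable def D2 : RL := (.cons (nat_lit 0x22222222222222222222222222222222222222222222222222222222222222222222222222222222222222222222222222222222222222222222222222222222222222222b222aaa22222222b232222a2222222223232222222222222232522a222222222225222222222222a22222f222222222a2222f2322222222aa2a2232) t186 (.cons (nat_lit 0x22222222222222222222222222222222222222222222222222222222222222222222222222222222222222222222222222222222222222222222222222222222222222222b22222a22222222b2322222222222222323222a2222222222325222222222222225222222222222222222f22222222222222f2322222222a2a22232) (.split (nat_lit 5) (nat_lit 0) (.split (nat_lit 7) (nat_lit 0) .uj (.split (nat_lit 7) (nat_lit 0) (.sup (nat_lit 0x9000a0004) (nat_lit 0x100040007000a0008000000000000)) (.non (nat_lit 2) (nat_lit 3) (nat_lit 0xa805) (nat_lit 0x30002000100000000000000020004)))) (.non (nat_lit 2) (nat_lit 6) (nat_lit 0x545) (nat_lit 0x300040003000000010002))) (.cons (nat_lit 0x22222222222222222222222222222222222222222222222222222222222222222222222222222222222222222222222222222222222222222222222222222222222222222b22222222222222b232222222222222232322222222222222325222222222222225222222222222222222f22222222222222f232222222222222232)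 .uj (.cons (nat_lit 0x22222222222222222222222222222222222222222222222222222222222222222222222222222222222222222222222222222222222222222222222222222222222222222b222aaa22222222b232222a22222222232322222222222222325222222222222225222a22222222a22222f222222222a2222f2322222222aa22a232) t189 (.cons (nat_lit 0x22222222222222222222222222222222222222222222222222222222222222222222222222222222222222222222222222222222222222222222222222222222222222222b22222a22222222b2322222222222222323222a2222222222325222222222222225222222222222222222f22222222222222f2322222222a2a22232) (.split (nat_lit 5) (nat_lit 0) (.split (nat_lit 7) (nat_lit 0) .uj (.split (nat_lit 7) (nat_lit 0) (.sup (nat_lit 0x9000a0004) (nat_lit 0x100040007000a0008000000000000)) (.non (nat_lit 2) (nat_lit 4) (nat_lit 0xa805) (nat_lit 0x30002000100000000000000020004)))) (.non (nat_lit 2) (nat_lit 6) (nat_lit 0x545) (nat_lit 0x300040003000000010002))) (.cons (nat_lit 0x22222222222222222222222222222222222222222222222222222222222222222222222222222222222222222222222222222222222222222222222222222222222222222b22222222222222b232222222222222232322222222222222325222222222222225222222222222222222f22222222222222f232222222222222232)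 .uj (.cons (nat_lit 0x22222222222222222222222222222222222222222222222222222222222222222222222222222222222222222222222222222222222222222222222222222222222222222b22222a22222222b232222222222222232322222222222222325222222222222225222222222222222222f22222222222222f2322222222a2222232) (.split (nat_lit 7) (nat_lit 0) .uj (.split (nat_lit 7) (nat_lit 0) (.sup (nat_lit 0x9000a0004) (nat_lit 0x100040007000a0008000000000000)) (.split (nat_lit 7) (nat_lit 0) (.sup (nat_lit 0x240028000f) (nat_lit 0x3000f001c00280020000000000000)) (.non (nat_lit 2) (nat_lit 5) (nat_lit 0x5005) (nat_lit 0x20001000000000000000000010002))))) (.cons (nat_lit 0x22222222222222222222222222222222222222222222222222222222222222222222222222222222222222222222222222222222222222222222222222222222222222222b22222222222222b232222222222222232322222222222222325222222222222225222222222222222222f22222222222222f232222222222222232) .uj (.cons (nat_lit 0x22222222222222222222222222222222222222222222222222222222222222222222222222222222222222222222222222222222222222222222222222222222222222222b22222222222222b232222222222222232322222222222222325222222222222225222222222222222222f22222222222222f232222222222222232)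 .uj (.cons (nat_lit 0x222222222222222222222222222222222222222222222222222222222222222222222222222222222222222222222222222222222222222222222222222222222222222222322aaa2222222222322aaa22222222332322222222222222325222222222222225222222222222aa2222f222222222aa222f2322222222aa222232) t195 .nil))))))))))

theorem cov_D2 : Cov 186 196 := by
  have h1 : rl D2 (nat_lit 186) = true := by decide +kernel
  have h2 : 186 + rlen D2 = 196 := by decide +kernel
  exact cov_of h1 h2

end MP86a502
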