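import Pool.Agent.Lib.MP_86a502_gt.U.Rlc

set_option autoImplicit false
set_option maxRecDepth 1000000
set_option linter.all false

/-! Certificates, numbers 757 to 757. -/

namespace MP86a502

noncomputable def t757_1 : Tr := (.ex (nat_lit 4) (.split (nat_lit 6) (nat_lit 3) (.pd (.cons (nat_lit 0) (nat_lit 6) (nat_lit 0) (nat_lit 0x770442110) (nat_lit 0xf423fb71ae00000f423f54591f423fb71ae1f15600000) (.cons (nat_lit 1) (nat_lit 6) (nat_lit 0) (nat_lit 0x770442200) (nat_lit 0xf423fb71ae00000f423f54591f423fb71ae00000f423f) (.cons (nat_lit 2) (nat_lit 6) (nat_lit 0) (nat_lit 0x770443000) (nat_lit 0xf423fb71ae00000f423f54591f423f00000f423fb71ae) (.cons (nat_lit 2) (nat_lit 7) (nat_lit 0) (nat_lit 0x803653000) (nat_lit 0xf423f00000437a254591f423f174ea00000f423fb71ae) (.cons (nat_lit 3) (nat_lit 6) (nat_lit 0) (nat_lit 0x770440100) (nat_lit 0xf423fb71ae00000f423f5459100000f423f54591437a2) (.cons (nat_lit 3) (nat_lit 7) (nat_lit 0) (nat_lit 0x805440100) (nat_lit 0xf423f00000f423fb71ae1f15600000f423f54591437a2) (.cons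 (nat_lit 3) (nat_lit 8) (nat_lit 0) (nat_lit 0x65440100) (nat_lit 0xf423fb71aea2c280473700000f423f54591437a2) .nil))))))) (.leaf (.cons (nat_lit 0x5054) (nat_lit 0x10002000000000003000400030000) (.cons (nat_lit 0x1550) (nat_lit 0x3000400030002000100000000) (.cons (nat_lit 0x5540) (nat_lit 0x10002000200020001000000000000) .nil))) .nil)) (.non (nat_lit 1) (nat_lit 4) (nat_lit 0xa840) (nat_lit 0x10002000100000002000000000000))) (.split (nat_lit 9) (nat_lit 0) (.split (nat_lit 9) (nat_lit 1) (.split (nat_lit 9) (nat_lit 2) (.split (nat_lit 9) (nat_lit 3) (.split (nat_lit 9) (nat_lit 5) (.split (nat_lit 9) (nat_lit 6) (.split (nat_lit 9) (nat_lit 7) (.split (nat_lit 9) (nat_lit 8) (.split (nat_lit 9) (nat_lit 4) (.split (nat_lit 6) (nat_lit 3) (.sup (nat_lit 0x20009000a0005) (nat_lit 0x50000000000020009000a0000000000000000)) (.non (nat_lit 1) (nat_lit 4) (nat_lit 0xa840) (nat_lit 0x10002000100000002000000000000))) (.unj (nat_lit 0x40500) (nat_lit 0x1000000000000000100010000000000000000) (nat_lit 0x55) (nat_lit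 0x1000200020001))) (.unj (nat_lit 0x55) (nat_lit 0x1000200020001) (nat_lit 0x54500) (nat_lit 0x3000200010000000300040000000000000000))) (.non (nat_lit 1) (nat_lit 4) (nat_lit 0x55440) (nat_lit 0x1000100020002000100000001000000000000))) (.non (nat_lit 1) (nat_lit 4) (nat_lit 0x45440) (nat_lit 0x1000000010002000100000001000000000000))) (.non (nat_lit 1) (nat_lit 4) (nat_lit 0x55450) (nat_lit 0x1000100020003000200000002000100000000))) (.non (nat_lit 1) (nat_lit 4) (nat_lit 0x45450) (nat_lit 0x1000000010002000100000002000100000000))) (.star (nat_lit 9) (nat_lit 2) (nat_lit 4))) (.star (nat_lit 9) (nat_lit 1) (nat_lit 4))) (.non (nat_lit 3) (nat_lit 5) (nat_lit 0x40115) (nat_lit 0x2000000000000000000010000000300040003))))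

noncomputable def t757_2 : Tr := (.ex (nat_lit 1) (.ex (nat_lit 2) (.split (nat_lit 8) (nat_lit 7) (.pd (.cons (nat_lit 3) (nat_lit 4) (nat_lit 0) (nat_lit 0x765500100) (nat_lit 0xf423fb71aea2c28989650000000000f423f54591437a2) (.cons (nat_lit 3) (nat_lit 5) (nat_lit 0) (nat_lit 0x766040100) (nat_lit 0xf423fb71aea2c2800000f423f00000f423f54591437a2) .nil)) t757_1) (.non (nat_lit 1) (nat_lit 4) (nat_lit 0x25440) (nat_lit 0x100020002000100000001000000000000))) (.split (nat_lit 9) (nat_lit 3) (.split (nat_lit 9) (nat_lit 4) (.split (nat_lit 9) (nat_lit 5) (.split (nat_lit 9) (nat_lit 6) (.split (nat_lit 9) (nat_lit 7) (.split (nat_lit 9) (nat_lit 8) (.split (nat_lit 9) (nat_lit 0) (.split (nat_lit 9) (nat_lit 1) (.unj (nat_lit 0x40015) (nat_lit 0x1000000000000000000000000000200020001) (nat_lit 0x15500) (nat_lit 0x100020003000400030000000000000000)) (.unj (nat_lit 0x40014) (nat_lit 0x1000000000000000000000000000100010000) (nat_lit 0x15500) (nat_lit 0x100020003000400030000000000000000))) (.split (nat_lit 9) (nat_lit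 1) (.unj (nat_lit 0x40015) (nat_lit 0x1000000000000000000000000000100010001) (nat_lit 0x15500) (nat_lit 0x100020003000400030000000000000000)) (.non (nat_lit 2) (nat_lit 4) (nat_lit 0x40005) (nat_lit 0x1000000000000000000000000000000010001)))) (.non (nat_lit 1) (nat_lit 4) (nat_lit 0x55050) (nat_lit 0x1000100010001000000000001000100000000))) (.non (nat_lit 1) (nat_lit 4) (nat_lit 0x55440) (nat_lit 0x1000100020002000100000001000000000000))) (.non (nat_lit 1) (nat_lit 4) (nat_lit 0x45440) (nat_lit 0x1000000010002000100000001000000000000))) (.star (nat_lit 9) (nat_lit 2) (nat_lit 5))) (.star (nat_lit 9) (nat_lit 2) (nat_lit 4))) (.non (nat_lit 1) (nat_lit 4) (nat_lit 0x40050) (nat_lit 0x1000000000000000000000001000100000000)))) (.split (nat_lit 9) (nat_lit 0) (.split (nat_lit 9) (nat_lit 3) (.split (nat_lit 9) (nat_lit 4) (.split (nat_lit 9) (nat_lit 5) (.split (nat_lit 9) (nat_lit 6) (.split (nat_lit 9) (nat_lit 7) (.split (nat_lit 9) (nat_lit 2) (.split (nat_lit 9) (nat_lit 8) (.unj (nat_lit 0x40015) (nat_lit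 0x1000000000000000000000000000200020001) (nat_lit 0x15500) (nat_lit 0x100020003000400030000000000000000)) (.sup (nat_lit 0x3000000000000000000000000000300050003) (nat_lit 0x20003000500040001000000000000))) (.split (nat_lit 9) (nat_lit 8) (.unj (nat_lit 0x40014) (nat_lit 0x1000000000000000000000000000100010000) (nat_lit 0x15500) (nat_lit 0x100020003000400030000000000000000)) (.non (nat_lit 1) (nat_lit 4) (nat_lit 0x55050) (nat_lit 0x1000100010001000000000001000100000000)))) (.non (nat_lit 1) (nat_lit 4) (nat_lit 0x55440) (nat_lit 0x1000100020002000100000001000000000000))) (.non (nat_lit 1) (nat_lit 4) (nat_lit 0x45440) (nat_lit 0x1000000010002000100000001000000000000))) (.star (nat_lit 9) (nat_lit 1) (nat_lit 5))) (.star (nat_lit 9) (nat_lit 1) (nat_lit 4))) (.non (nat_lit 1) (nat_lit 4) (nat_lit 0x45450) (nat_lit 0x1000000010002000100000002000100000000))) (.non (nat_lit 2) (nat_lit 4) (nat_lit 0x40005) (nat_lit 0x1000000000000000000000000000000010001))))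

noncomputable def t757_3 : Tr := (.ex (nat_lit 4) (.split (nat_lit 8) (nat_lit 7) (.split (nat_lit 9) (nat_lit 8) (.split (nat_lit 9) (nat_lit 0) (.split (nat_lit 6) (nat_lit 3) (.pd (.cons (nat_lit 0) (nat_lit 6) (nat_lit 0) (nat_lit 0x8770442110) (nat_lit 0xf423fb71aea2c2800000f423f54591f423fb71ae1f15600000) (.cons (nat_lit 1) (nat_lit 6) (nat_lit 0) (nat_lit 0x980442200) (nat_lit 0xa2c28b71aef423f00000f423f54591f423fb71ae0000098965) (.cons (nat_lit 2) (nat_lit 6) (nat_lit 0) (nat_lit 0x980443000) (nat_lit 0xa2c28b71aef423f00000f423f54591f423f00000f423f5b8d4) (.cons (nat_lit 2) (nat_lit 7) (nat_lit 0) (nat_lit 0x903653000) (nat_lit 0xb71aef423f00000437a254591f423f174ea00000f423f65b97) (.cons (nat_lit 3) (nat_lit 8) (nat_lit 0) (nat_lit 0x65440100) (nat_lit 0xf423f00000f423fb71aea2c280473700000f423f5459106711) .nil))))) (.leaf (.cons (nat_lit 0x5054) (nat_lit 0x10002000000000003000400030000) (.cons (nat_lit 0x1550) (nat_lit 0x3000400030002000100000000) (.cons (nat_lit 0x5540) (nat_lit 0x10002000200020001000000000000)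 (.cons (nat_lit 0x50015) (nat_lit 0x2000100000000000000000000000300040003) .nil)))) (.cons (nat_lit 0x1111101101) (nat_lit 0x10010) (nat_lit 0xe) (nat_lit 0x6540102307) (.cons (nat_lit 0x1111101011) (nat_lit 0x10100) (nat_lit 0xb) (nat_lit 0x5430201076) .nil)))) (.non (nat_lit 1) (nat_lit 4) (nat_lit 0xa840) (nat_lit 0x10002000100000002000000000000))) (.non (nat_lit 1) (nat_lit 4) (nat_lit 0xaa881) (nat_lit 0x2000200020002000100000001000000000002))) (.non (nat_lit 1) (nat_lit 4) (nat_lit 0x95440) (nat_lit 0x1000200020002000100000001000000000000))) (.non (nat_lit 1) (nat_lit 4) (nat_lit 0xa5400) (nat_lit 0x1000200030002000100000000000000000000))) (.split (nat_lit 0xa) (nat_lit 0) (.split (nat_lit 0xa) (nat_lit 1) (.split (nat_lit 0xa) (nat_lit 2) (.split (nat_lit 0xa) (nat_lit 3) (.split (nat_lit 0xa) (nat_lit 5) (.split (nat_lit 0xa) (nat_lit 6) (.split (nat_lit 0xa) (nat_lit 7) (.split (nat_lit 0xa) (nat_lit 8) (.split (nat_lit 0xa) (nat_lit 9) (.unj (nat_lit 0x101500) (nat_lit 0x10000000000000001000200020000000000000000)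 (nat_lit 0x50015) (nat_lit 0x2000100000000000000000000000300040003)) (.non (nat_lit 1) (nat_lit 4) (nat_lit 0x155441) (nat_lit 0x10002000200020002000100000001000000000001))) (.non (nat_lit 1) (nat_lit 4) (nat_lit 0x155440) (nat_lit 0x10001000200020002000100000001000000000000))) (.non (nat_lit 1) (nat_lit 4) (nat_lit 0x115440) (nat_lit 0x10000000100020002000100000001000000000000))) (.non (nat_lit 1) (nat_lit 4) (nat_lit 0x105440) (nat_lit 0x10000000000010002000100000001000000000000))) (.non (nat_lit 1) (nat_lit 4) (nat_lit 0x115450) (nat_lit 0x10000000100020003000200000002000100000000))) (.non (nat_lit 1) (nat_lit 4) (nat_lit 0x105450) (nat_lit 0x10000000000010002000100000002000100000000))) (.star (nat_lit 0xa) (nat_lit 2) (nat_lit 4))) (.star (nat_lit 0xa) (nat_lit 1) (nat_lit 4))) (.non (nat_lit 1) (nat_lit 4) (nat_lit 0x155451) (nat_lit 0x10003000400050006000300000004000200000002))))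

noncomputable def t757_4 : Tr := (.ex (nat_lit 0xa) (.leaf (.cons (nat_lit 0x5054) (nat_lit 0x10002000000000003000400030000) (.cons (nat_lit 0x41500) (nat_lit 0x1000000000001000200020000000000000000) (.cons (nat_lit 0x40505) (nat_lit 0x3000000000000000300040000000000010002) (.cons (nat_lit 0x40115) (nat_lit 0x2000000000000000000010000000300040003) .nil)))) (.cons (nat_lit 0x10111101100) (nat_lit 0x10010) (nat_lit 0xd) (nat_lit 0x60540102300) (.cons (nat_lit 0x1000010011) (nat_lit 0x100100) (nat_lit 2) (nat_lit 0x2000030001) .nil))) (.split (nat_lit 0xb) (nat_lit 0) (.split (nat_lit 0xb) (nat_lit 1) (.split (nat_lit 0xb) (nat_lit 2) (.split (nat_lit 0xb) (nat_lit 3) (.split (nat_lit 0xb) (nat_lit 4) (.split (nat_lit 0xb) (nat_lit 5) (.split (nat_lit 0xb) (nat_lit 6) (.split (nat_lit 0xb) (nat_lit 7) (.split (nat_lit 0xb) (nat_lit 8) (.split (nat_lit 0xb) (nat_lit 9) (.st (nat_lit 0xa) (nat_lit 1) (nat_lit 4) (nat_lit 0x515440) (nat_lit 0x100020000000200020002000100000001000000000000) (nat_lit 1) (nat_lit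 1) (.st (nat_lit 0xb) (nat_lit 1) (nat_lit 4) (nat_lit 0x515450) (nat_lit 0x200030000000400050006000300000004000200000000) (nat_lit 1) (nat_lit 1) (.split (nat_lit 0xb) (nat_lit 0xa) (.leaf (.cons (nat_lit 0x5054) (nat_lit 0x10002000000000003000400030000) (.cons (nat_lit 0x41500) (nat_lit 0x1000000000001000200020000000000000000) (.cons (nat_lit 0x40505) (nat_lit 0x3000000000000000300040000000000010002) (.cons (nat_lit 0x40115) (nat_lit 0x2000000000000000000010000000300040003) .nil)))) (.cons (nat_lit 0x110111101100) (nat_lit 0x10010) (nat_lit 0xe) (nat_lit 0x760540102300) (.cons (nat_lit 0x1000010011) (nat_lit 0x100100) (nat_lit 2) (nat_lit 0x2000030001) .nil))) (.non (nat_lit 1) (nat_lit 4) (nat_lit 0x915440) (nat_lit 0x100020000000200020002000100000001000000000000))))) (.non (nat_lit 1) (nat_lit 4) (nat_lit 0x555450) (nat_lit 0x200030001000400050006000300000004000200000000))) (.non (nat_lit 1) (nat_lit 4) (nat_lit 0x510000) (nat_lit 0x100010000000100000000000000000000000000000000))) (.non (nat_lit 1) (nat_lit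 4) (nat_lit 0x514000) (nat_lit 0x100010000000100010000000000000000000000000000))) (.non (nat_lit 1) (nat_lit 4) (nat_lit 0x515000) (nat_lit 0x100010000000100010001000000000000000000000000))) (.non (nat_lit 1) (nat_lit 4) (nat_lit 0x515400) (nat_lit 0x100010000000100010001000100000000000000000000))) (.non (nat_lit 0) (nat_lit 6) (nat_lit 0x440500) (nat_lit 0x100000001000000000000000200020000000000000000))) (.non (nat_lit 1) (nat_lit 4) (nat_lit 0x515040) (nat_lit 0x100010000000100010001000000000001000000000000))) (.non (nat_lit 1) (nat_lit 4) (nat_lit 0x515050) (nat_lit 0x100010000000100010001000000000001000100000000))) (.non (nat_lit 0) (nat_lit 6) (nat_lit 0x510014) (nat_lit 0x300020000000100000000000000000000000300040000))) (.non (nat_lit 1) (nat_lit 4) (nat_lit 0x515451) (nat_lit 0x200030000000400050006000300000004000200000001))))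

noncomputable def t757_5 : Tr := (.split (nat_lit 8) (nat_lit 7) (.pd (.cons (nat_lit 0) (nat_lit 6) (nat_lit 0) (nat_lit 0x4770442110) (nat_lit 0xf423ff423fb71ae00000f423f17500f423fb71ae1f15600000) (.cons (nat_lit 1) (nat_lit 6) (nat_lit 0) (nat_lit 0x770492200) (nat_lit 0x437a2f423fb71ae00000f423f54591f423fb71ae00000174ea) (.cons (nat_lit 3) (nat_lit 4) (nat_lit 0) (nat_lit 0x765500100) (nat_lit 0xf423ff423fb71aea2c28989650000000000f423f5459106711) .nil))) (.split (nat_lit 6) (nat_lit 3) (.ex (nat_lit 8) (.leaf (.cons (nat_lit 0x5054) (nat_lit 0x10002000000000003000400030000) (.cons (nat_lit 0x41500) (nat_lit 0x1000000000001000200020000000000000000) (.cons (nat_lit 0x40505) (nat_lit 0x3000000000000000300040000000000010002) (.cons (nat_lit 0x40115) (nat_lit 0x2000000000000000000010000000300040003) .nil)))) (.cons (nat_lit 0x111101100) (nat_lit 0x10010) (nat_lit 0xc) (nat_lit 0x540102300) .nil)) (.split (nat_lit 0xa) (nat_lit 0) (.split (nat_lit 0xa) (nat_lit 1) (.split (nat_lit 0xa) (nat_lit 2) (.split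 (nat_lit 0xa) (nat_lit 3) (.split (nat_lit 0xa) (nat_lit 4) (.split (nat_lit 0xa) (nat_lit 5) (.split (nat_lit 0xa) (nat_lit 6) (.split (nat_lit 0xa) (nat_lit 7) (.split (nat_lit 0xa) (nat_lit 9) (.st (nat_lit 8) (nat_lit 1) (nat_lit 4) (nat_lit 0x115440) (nat_lit 0x10000000200020002000100000001000000000000) (nat_lit 1) (nat_lit 1) (.split (nat_lit 0xa) (nat_lit 8) t757_4 (.non (nat_lit 1) (nat_lit 4) (nat_lit 0x215440) (nat_lit 0x10000000200020002000100000001000000000000)))) (.non (nat_lit 1) (nat_lit 4) (nat_lit 0x155451) (nat_lit 0x30002000400050006000300000004000200000001))) (.non (nat_lit 1) (nat_lit 4) (nat_lit 0x114000) (nat_lit 0x10000000100010000000000000000000000000000))) (.non (nat_lit 1) (nat_lit 4) (nat_lit 0x115000) (nat_lit 0x10000000100010001000000000000000000000000))) (.non (nat_lit 1) (nat_lit 4) (nat_lit 0x115400) (nat_lit 0x10000000100010001000100000000000000000000))) (.non (nat_lit 0) (nat_lit 6) (nat_lit 0x140500) (nat_lit 0x10001000000000000000200020000000000000000))) (.non (nat_lit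 1) (nat_lit 4) (nat_lit 0x115040) (nat_lit 0x10000000100010001000000000001000000000000))) (.non (nat_lit 1) (nat_lit 4) (nat_lit 0x115050) (nat_lit 0x10000000100010001000000000001000100000000))) (.non (nat_lit 0) (nat_lit 6) (nat_lit 0x114014) (nat_lit 0x30000000200010000000000000000000300040000))) (.non (nat_lit 1) (nat_lit 4) (nat_lit 0x155451) (nat_lit 0x30001000400050006000300000004000200000002)))) (.non (nat_lit 1) (nat_lit 4) (nat_lit 0xa840) (nat_lit 0x10002000100000002000000000000)))) (.non (nat_lit 1) (nat_lit 4) (nat_lit 0x25440) (nat_lit 0x100020002000100000001000000000000)))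

noncomputable def t757_6 : Tr := (.ex (nat_lit 0xa) (.leaf (.cons (nat_lit 0x5054) (nat_lit 0x10002000000000003000400030000) (.cons (nat_lit 0x41500) (nat_lit 0x1000000000001000200020000000000000000) (.cons (nat_lit 0x40501) (nat_lit 0x1000000000000000100010000000000000001) (.cons (nat_lit 0x40015) (nat_lit 0x1000000000000000000000000000100010001) .nil)))) (.cons (nat_lit 0x10111101100) (nat_lit 0x10010) (nat_lit 0xd) (nat_lit 0x60540102300) (.cons (nat_lit 0x1000010011) (nat_lit 0x100100) (nat_lit 0xf) (nat_lit 0x2000030001) .nil))) (.split (nat_lit 0xb) (nat_lit 0) (.split (nat_lit 0xb) (nat_lit 1) (.split (nat_lit 0xb) (nat_lit 2) (.split (nat_lit 0xb) (nat_lit 3) (.split (nat_lit 0xb) (nat_lit 4) (.split (nat_lit 0xb) (nat_lit 5) (.split (nat_lit 0xb) (nat_lit 6) (.split (nat_lit 0xb) (nat_lit 7) (.split (nat_lit 0xb) (nat_lit 8) (.split (nat_lit 0xb) (nat_lit 9) (.st (nat_lit 0xa) (nat_lit 1) (nat_lit 4) (nat_lit 0x515440) (nat_lit 0x100020000000200020002000100000001000000000000) (nat_lit 1) (nat_lit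 1) (.st (nat_lit 0xb) (nat_lit 1) (nat_lit 4) (nat_lit 0x515450) (nat_lit 0x200030000000400050006000300000004000200000000) (nat_lit 1) (nat_lit 1) (.split (nat_lit 0xb) (nat_lit 0xa) (.leaf (.cons (nat_lit 0x5054) (nat_lit 0x10002000000000003000400030000) (.cons (nat_lit 0x41500) (nat_lit 0x1000000000001000200020000000000000000) (.cons (nat_lit 0x40501) (nat_lit 0x1000000000000000100010000000000000001) (.cons (nat_lit 0x40015) (nat_lit 0x1000000000000000000000000000100010001) .nil)))) (.cons (nat_lit 0x110111101100) (nat_lit 0x10010) (nat_lit 0xe) (nat_lit 0x760540102300) (.cons (nat_lit 0x1000010011) (nat_lit 0x100100) (nat_lit 0xf) (nat_lit 0x2000030001) .nil))) (.non (nat_lit 1) (nat_lit 4) (nat_lit 0x915440) (nat_lit 0x100020000000200020002000100000001000000000000))))) (.non (nat_lit 1) (nat_lit 4) (nat_lit 0x555450) (nat_lit 0x200030001000400050006000300000004000200000000))) (.non (nat_lit 1) (nat_lit 4) (nat_lit 0x510000) (nat_lit 0x100010000000100000000000000000000000000000000))) (.non (nat_lit 1)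 (nat_lit 4) (nat_lit 0x514000) (nat_lit 0x100010000000100010000000000000000000000000000))) (.non (nat_lit 1) (nat_lit 4) (nat_lit 0x515000) (nat_lit 0x100010000000100010001000000000000000000000000))) (.non (nat_lit 1) (nat_lit 4) (nat_lit 0x515400) (nat_lit 0x100010000000100010001000100000000000000000000))) (.non (nat_lit 2) (nat_lit 5) (nat_lit 0x880205) (nat_lit 0x100000003000000000000000000020000000000020004))) (.non (nat_lit 1) (nat_lit 4) (nat_lit 0x515040) (nat_lit 0x100010000000100010001000000000001000000000000))) (.non (nat_lit 1) (nat_lit 4) (nat_lit 0x515050) (nat_lit 0x100010000000100010001000000000001000100000000))) (.non (nat_lit 2) (nat_lit 4) (nat_lit 0x595445) (nat_lit 0x200020001000200020002000100000001000000020002))) (.non (nat_lit 1) (nat_lit 4) (nat_lit 0x595441) (nat_lit 0x200020001000200020002000100000001000000000002))))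

noncomputable def t757_7 : Tr := (.split (nat_lit 9) (nat_lit 0) t757_5 (.pd (.cons (nat_lit 0) (nat_lit 6) (nat_lit 0x110000000) (nat_lit 0x4780442110) (nat_lit 0xf423f000010000100000f423f17500f423fb71ae1f15600000) .nil) (.split (nat_lit 8) (nat_lit 7) (.split (nat_lit 9) (nat_lit 0) (.split (nat_lit 6) (nat_lit 3) (.ex (nat_lit 8) (.leaf (.cons (nat_lit 0x5054) (nat_lit 0x10002000000000003000400030000) (.cons (nat_lit 0x41500) (nat_lit 0x1000000000001000200020000000000000000) (.cons (nat_lit 0x40501) (nat_lit 0x1000000000000000100010000000000000001) (.cons (nat_lit 0x40015) (nat_lit 0x1000000000000000000000000000100010001) .nil)))) (.cons (nat_lit 0x111101100) (nat_lit 0x10010) (nat_lit 0xc) (nat_lit 0x540102300) .nil)) (.split (nat_lit 0xa) (nat_lit 0) (.split (nat_lit 0xa) (nat_lit 1) (.split (nat_lit 0xa) (nat_lit 2) (.split (nat_lit 0xa) (nat_lit 3) (.split (nat_lit 0xa) (nat_lit 4) (.split (nat_lit 0xa) (nat_lit 5) (.split (nat_lit 0xa) (nat_lit 6) (.split (nat_lit 0xa) (nat_lit 7) (.split (nat_lit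 0xa) (nat_lit 9) (.st (nat_lit 8) (nat_lit 1) (nat_lit 4) (nat_lit 0x115440) (nat_lit 0x10000000200020002000100000001000000000000) (nat_lit 1) (nat_lit 1) (.split (nat_lit 0xa) (nat_lit 8) t757_6 (.non (nat_lit 1) (nat_lit 4) (nat_lit 0x215440) (nat_lit 0x10000000200020002000100000001000000000000)))) (.non (nat_lit 1) (nat_lit 4) (nat_lit 0x2aa881) (nat_lit 0x20002000200020002000100000001000000000002))) (.non (nat_lit 1) (nat_lit 4) (nat_lit 0x114000) (nat_lit 0x10000000100010000000000000000000000000000))) (.non (nat_lit 1) (nat_lit 4) (nat_lit 0x115000) (nat_lit 0x10000000100010001000000000000000000000000))) (.non (nat_lit 1) (nat_lit 4) (nat_lit 0x115400) (nat_lit 0x10000000100010001000100000000000000000000))) (.non (nat_lit 2) (nat_lit 5) (nat_lit 0x280205) (nat_lit 0x10003000000000000000000020000000000020004))) (.non (nat_lit 1) (nat_lit 4) (nat_lit 0x115040) (nat_lit 0x10000000100010001000000000001000000000000))) (.non (nat_lit 1) (nat_lit 4) (nat_lit 0x115050) (nat_lit 0x10000000100010001000000000001000100000000)))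 (.non (nat_lit 2) (nat_lit 4) (nat_lit 0x195445) (nat_lit 0x20001000200020002000100000001000000020002))) (.non (nat_lit 1) (nat_lit 4) (nat_lit 0x195441) (nat_lit 0x20001000200020002000100000001000000000002)))) (.non (nat_lit 1) (nat_lit 4) (nat_lit 0xa840) (nat_lit 0x10002000100000002000000000000))) (.non (nat_lit 2) (nat_lit 5) (nat_lit 0x40105) (nat_lit 0x2000000000000000000010000000000010002))) (.non (nat_lit 1) (nat_lit 4) (nat_lit 0x25440) (nat_lit 0x100020002000100000001000000000000)))))

noncomputable def t757_8 : Tr := (.split (nat_lit 0xc) (nat_lit 0) (.split (nat_lit 0xc) (nat_lit 1) (.split (nat_lit 0xc) (nat_lit 2) (.split (nat_lit 0xc) (nat_lit 3) (.split (nat_lit 0xc) (nat_lit 4) (.split (nat_lit 0xc) (nat_lit 5) (.split (nat_lit 0xc) (nat_lit 6) (.split (nat_lit 0xc) (nat_lit 7) (.split (nat_lit 0xc) (nat_lit 8) (.split (nat_lit 0xc) (nat_lit 9) (.split (nat_lit 0xc) (nat_lit 0xa) (.st (nat_lit 0xb) (nat_lit 1) (nat_lit 4) (nat_lit 0x1415440) (nat_lit 0x1000200000000000200020002000100000001000000000000)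 (nat_lit 1) (nat_lit 1) (.st (nat_lit 0xc) (nat_lit 1) (nat_lit 4) (nat_lit 0x1415450) (nat_lit 0x2000300000000000400050006000300000004000200000000) (nat_lit 1) (nat_lit 1) (.split (nat_lit 0xc) (nat_lit 0xb) (.leaf (.cons (nat_lit 0x5054) (nat_lit 0x10002000000000003000400030000) (.cons (nat_lit 0x41500) (nat_lit 0x1000000000001000200020000000000000000) (.cons (nat_lit 0x140501) (nat_lit 0x10002000000000000000200020000000000000001) (.cons (nat_lit 0x140015) (nat_lit 0x10002000000000000000000000000000300040003) .nil)))) (.cons (nat_lit 0x1100111101100) (nat_lit 0x10010) (nat_lit 0xe) (nat_lit 0x7600540102300) (.cons (nat_lit 0x11000010011) (nat_lit 0x100100) (nat_lit 8) (nat_lit 0x20000010043) .nil))) (.non (nat_lit 1) (nat_lit 4) (nat_lit 0x2415440) (nat_lit 0x1000200000000000200020002000100000001000000000000))))) (.non (nat_lit 1) (nat_lit 4) (nat_lit 0x1515450) (nat_lit 0x2000300010000000400050006000300000004000200000000))) (.non (nat_lit 1) (nat_lit 4) (nat_lit 0x1455450) (nat_lit 0x2000300000001000400050006000300000004000200000000)))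 (.non (nat_lit 1) (nat_lit 4) (nat_lit 0x1410000) (nat_lit 0x1000100000000000100000000000000000000000000000000))) (.non (nat_lit 1) (nat_lit 4) (nat_lit 0x1414000) (nat_lit 0x1000100000000000100010000000000000000000000000000))) (.non (nat_lit 1) (nat_lit 4) (nat_lit 0x1415000) (nat_lit 0x1000100000000000100010001000000000000000000000000))) (.non (nat_lit 1) (nat_lit 4) (nat_lit 0x1415400) (nat_lit 0x1000100000000000100010001000100000000000000000000))) (.non (nat_lit 2) (nat_lit 5) (nat_lit 0x1554105) (nat_lit 0x4000300030006000200010000000000050000000000020004))) (.non (nat_lit 1) (nat_lit 4) (nat_lit 0x1415040) (nat_lit 0x1000100000000000100010001000000000001000000000000))) (.non (nat_lit 1) (nat_lit 4) (nat_lit 0x1415050) (nat_lit 0x1000100000000000100010001000000000001000100000000))) (.non (nat_lit 0) (nat_lit 6) (nat_lit 0x1410014) (nat_lit 0x3000200000000000100000000000000000000000300040000))) (.non (nat_lit 1) (nat_lit 4) (nat_lit 0x1415451) (nat_lit 0x2000300000000000400050006000300000004000200000001)))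

noncomputable def t757_9 : Tr := (.ex (nat_lit 8) (.leaf (.cons (nat_lit 0x5054) (nat_lit 0x10002000000000003000400030000) (.cons (nat_lit 0x41500) (nat_lit 0x1000000000001000200020000000000000000) (.cons (nat_lit 0x140501) (nat_lit 0x10002000000000000000200020000000000000001) (.cons (nat_lit 0x140015) (nat_lit 0x10002000000000000000000000000000300040003) .nil)))) (.cons (nat_lit 0x111101100) (nat_lit 0x10010) (nat_lit 0xc) (nat_lit 0x540102300) .nil)) (.split (nat_lit 0xb) (nat_lit 0) (.split (nat_lit 0xb) (nat_lit 1) (.split (nat_lit 0xb) (nat_lit 2) (.split (nat_lit 0xb) (nat_lit 3) (.split (nat_lit 0xb) (nat_lit 4) (.split (nat_lit 0xb) (nat_lit 5) (.split (nat_lit 0xb) (nat_lit 6) (.split (nat_lit 0xb) (nat_lit 7) (.split (nat_lit 0xb) (nat_lit 9) (.split (nat_lit 0xb) (nat_lit 0xa) (.st (nat_lit 8) (nat_lit 1) (nat_lit 4) (nat_lit 0x415440) (nat_lit 0x100000000000200020002000100000001000000000000) (nat_lit 1) (nat_lit 1) (.split (nat_lit 0xb) (nat_lit 8) (.ex (nat_lit 0xb) (.leaf (.cons (nat_lit 0x5054)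 (nat_lit 0x10002000000000003000400030000) (.cons (nat_lit 0x41500) (nat_lit 0x1000000000001000200020000000000000000) (.cons (nat_lit 0x140501) (nat_lit 0x10002000000000000000200020000000000000001) (.cons (nat_lit 0x140015) (nat_lit 0x10002000000000000000000000000000300040003) .nil)))) (.cons (nat_lit 0x100111101100) (nat_lit 0x10010) (nat_lit 0xd) (nat_lit 0x600540102300) (.cons (nat_lit 0x11000010011) (nat_lit 0x100100) (nat_lit 8) (nat_lit 0x20000010043) .nil))) t757_8) (.non (nat_lit 1) (nat_lit 4) (nat_lit 0x815440) (nat_lit 0x100000000000200020002000100000001000000000000)))) (.non (nat_lit 1) (nat_lit 4) (nat_lit 0x555450) (nat_lit 0x300020001000400050006000300000004000200000000))) (.non (nat_lit 1) (nat_lit 4) (nat_lit 0x555450) (nat_lit 0x300010002000400050006000300000004000200000000))) (.non (nat_lit 1) (nat_lit 4) (nat_lit 0x414000) (nat_lit 0x100000000000100010000000000000000000000000000))) (.non (nat_lit 1) (nat_lit 4) (nat_lit 0x415000) (nat_lit 0x100000000000100010001000000000000000000000000)))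 (.non (nat_lit 1) (nat_lit 4) (nat_lit 0x415400) (nat_lit 0x100000000000100010001000100000000000000000000))) (.non (nat_lit 2) (nat_lit 5) (nat_lit 0x555105) (nat_lit 0x400030006000300020001000000050000000000020004))) (.non (nat_lit 1) (nat_lit 4) (nat_lit 0x415040) (nat_lit 0x100000000000100010001000000000001000000000000))) (.non (nat_lit 1) (nat_lit 4) (nat_lit 0x415050) (nat_lit 0x100000000000100010001000000000001000100000000))) (.non (nat_lit 0) (nat_lit 6) (nat_lit 0x414014) (nat_lit 0x300000000000200010000000000000000000300040000))) (.non (nat_lit 1) (nat_lit 4) (nat_lit 0x455451) (nat_lit 0x300000001000400050006000300000004000200000002))))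

noncomputable def t757_10 : Tr := (.split (nat_lit 0xe) (nat_lit 2) (.split (nat_lit 0xe) (nat_lit 3) (.split (nat_lit 0xe) (nat_lit 4) (.split (nat_lit 0xe) (nat_lit 5) (.split (nat_lit 0xe) (nat_lit 6) (.split (nat_lit 0xe) (nat_lit 7) (.split (nat_lit 0xe) (nat_lit 8) (.split (nat_lit 0xe) (nat_lit 9) (.split (nat_lit 0xe) (nat_lit 0xa) (.split (nat_lit 0xe) (nat_lit 0xb) (.split (nat_lit 0xe) (nat_lit 0xc) (.st (nat_lit 0xd) (nat_lit 1) (nat_lit 4) (nat_lit 0x14015440) (nat_lit 0x100020000000000000000000200020002000100000001000000000000) (nat_lit 1) (nat_lit 1) (.st (nat_lit 0xe) (nat_lit 1) (nat_lit 4) (nat_lit 0x14015450) (nat_lit 0x200030000000000000000000400050006000300000004000200000000) (nat_lit 1) (nat_lit 1) (.split (nat_lit 0xe) (nat_lit 0xd) (.leaf (.cons (nat_lit 0x5054) (nat_lit 0x10002000000000003000400030000) (.cons (nat_lit 0x540500) (nat_lit 0x100020003000000000000000300040000000000000000) (.cons (nat_lit 0x140015) (nat_lit 0x10002000000000000000000000000000300040003) .nil))) (.cons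 (nat_lit 0x110000111101100) (nat_lit 0x10010) (nat_lit 0xe) (nat_lit 0x760000540102300) (.cons (nat_lit 0x1111000010011) (nat_lit 0x100100) (nat_lit 0xd) (nat_lit 0x6540000010032) .nil))) (.non (nat_lit 1) (nat_lit 4) (nat_lit 0x24015440) (nat_lit 0x100020000000000000000000200020002000100000001000000000000))))) (.non (nat_lit 1) (nat_lit 4) (nat_lit 0x15015450) (nat_lit 0x200030001000000000000000400050006000300000004000200000000))) (.non (nat_lit 1) (nat_lit 4) (nat_lit 0x15555000) (nat_lit 0x500040003000600040002000300020001000000000000000000000000))) (.non (nat_lit 1) (nat_lit 4) (nat_lit 0x15555000) (nat_lit 0x500040002000400060003000300020001000000000000000000000000))) (.non (nat_lit 1) (nat_lit 4) (nat_lit 0x14055450) (nat_lit 0x200030000000000000001000400050006000300000004000200000000))) (.non (nat_lit 1) (nat_lit 4) (nat_lit 0x14010000) (nat_lit 0x100010000000000000000000100000000000000000000000000000000))) (.non (nat_lit 1) (nat_lit 4) (nat_lit 0x14014000) (nat_lit 0x100010000000000000000000100010000000000000000000000000000)))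 (.non (nat_lit 1) (nat_lit 4) (nat_lit 0x14015000) (nat_lit 0x100010000000000000000000100010001000000000000000000000000))) (.non (nat_lit 1) (nat_lit 4) (nat_lit 0x14015400) (nat_lit 0x100010000000000000000000100010001000100000000000000000000))) (.non (nat_lit 1) (nat_lit 5) (nat_lit 0x15540101) (nat_lit 0x200010001000200030004000000000000000000030000000000000002))) (.non (nat_lit 1) (nat_lit 4) (nat_lit 0x14015040) (nat_lit 0x100010000000000000000000100010001000000000001000000000000))) (.non (nat_lit 1) (nat_lit 4) (nat_lit 0x14015050) (nat_lit 0x100010000000000000000000100010001000000000001000100000000)))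

noncomputable def t757_11 : Tr := (.split (nat_lit 0xf) (nat_lit 4) (.split (nat_lit 0xf) (nat_lit 5) (.split (nat_lit 0xf) (nat_lit 6) (.split (nat_lit 0xf) (nat_lit 7) (.split (nat_lit 0xf) (nat_lit 8) (.split (nat_lit 0xf) (nat_lit 9) (.split (nat_lit 0xf) (nat_lit 0xa) (.split (nat_lit 0xf) (nat_lit 0xb) (.split (nat_lit 0xf) (nat_lit 0xc) (.split (nat_lit 0xf) (nat_lit 0xe) (.st (nat_lit 0xd) (nat_lit 1) (nat_lit 4) (nat_lit 0x44015440) (nat_lit 0x1000000020000000000000000000200020002000100000001000000000000) (nat_lit 1) (nat_lit 1) (.st (nat_lit 0xf) (nat_lit 1) (nat_lit 4) (nat_lit 0x44015450) (nat_lit 0x2000000030000000000000000000400050006000300000004000200000000) (nat_lit 1) (nat_lit 1) (.split (nat_lit 0xf) (nat_lit 0xd) (.leaf (.cons (nat_lit 0x5054) (nat_lit 0x10002000000000003000400030000) (.cons (nat_lit 0x540500) (nat_lit 0x100020003000000000000000300040000000000000000) (.cons (nat_lit 0x140015) (nat_lit 0x10002000000000000000000000000000300040003) .nil))) (.cons (nat_lit 0x1010000111101100)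 (nat_lit 0x10010) (nat_lit 0xe) (nat_lit 0x7060000540102300) (.cons (nat_lit 0x101111000010011) (nat_lit 0x100100) (nat_lit 0xe) (nat_lit 0x706540000010032) .nil))) (.non (nat_lit 1) (nat_lit 4) (nat_lit 0x84015440) (nat_lit 0x1000000020000000000000000000200020002000100000001000000000000))))) (.non (nat_lit 1) (nat_lit 4) (nat_lit 0x54015450) (nat_lit 0x2000100030000000000000000000400050006000300000004000200000000))) (.non (nat_lit 1) (nat_lit 4) (nat_lit 0x55550000) (nat_lit 0x3000200020004000300020001000100000000000000000000000000000000))) (.non (nat_lit 1) (nat_lit 4) (nat_lit 0x55540000) (nat_lit 0x2000100010002000300020001000000000000000000000000000000000000))) (.non (nat_lit 1) (nat_lit 4) (nat_lit 0x55550000) (nat_lit 0x3000100020002000300040002000100000000000000000000000000000000))) (.non (nat_lit 1) (nat_lit 4) (nat_lit 0x44055450) (nat_lit 0x2000000030000000000000001000400050006000300000004000200000000))) (.non (nat_lit 1) (nat_lit 4) (nat_lit 0x44010000) (nat_lit 0x1000000010000000000000000000100000000000000000000000000000000)))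 (.non (nat_lit 1) (nat_lit 4) (nat_lit 0x44014000) (nat_lit 0x1000000010000000000000000000100010000000000000000000000000000))) (.non (nat_lit 1) (nat_lit 4) (nat_lit 0x44015000) (nat_lit 0x1000000010000000000000000000100010001000000000000000000000000))) (.non (nat_lit 1) (nat_lit 4) (nat_lit 0x44015400) (nat_lit 0x1000000010000000000000000000100010001000100000000000000000000))) (.non (nat_lit 1) (nat_lit 5) (nat_lit 0x45540101) (nat_lit 0x2000000010001000200030004000000000000000000030000000000000002)))

noncomputable def t757_12 : Tr := (.split (nat_lit 0xe) (nat_lit 7) (.split (nat_lit 0xe) (nat_lit 8) (.split (nat_lit 0xe) (nat_lit 9) (.split (nat_lit 0xe) (nat_lit 0xa) (.split (nat_lit 0xe) (nat_lit 0xb) (.split (nat_lit 0xe) (nat_lit 0xd) (.st (nat_lit 0xc) (nat_lit 1) (nat_lit 5) (nat_lit 0x11540101) (nat_lit 0x100000002000200020002000000000000000000010000000000000001) (nat_lit 1) (nat_lit 1) (.st (nat_lit 0xe) (nat_lit 2) (nat_lit 5) (nat_lit 0x11540105) (nat_lit 0x200000003000400050006000000000000000000030000000000020004)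 (nat_lit 1) (nat_lit 1) (.split (nat_lit 0xe) (nat_lit 0xc) (.ex (nat_lit 0xd) (.leaf (.cons (nat_lit 0x5054) (nat_lit 0x10002000000000003000400030000) (.cons (nat_lit 0x540500) (nat_lit 0x100020003000000000000000300040000000000000000) (.cons (nat_lit 0x140015) (nat_lit 0x10002000000000000000000000000000300040003) .nil))) (.cons (nat_lit 0x10000111101100) (nat_lit 0x10010) (nat_lit 0xd) (nat_lit 0x60000540102300) (.cons (nat_lit 0x101111000010011) (nat_lit 0x100100) (nat_lit 0xe) (nat_lit 0x706540000010032) .nil))) (.split (nat_lit 0xf) (nat_lit 0) (.split (nat_lit 0xf) (nat_lit 1) (.split (nat_lit 0xf) (nat_lit 2) (.split (nat_lit 0xf) (nat_lit 3) t757_11 (.non (nat_lit 1) (nat_lit 4) (nat_lit 0x44015040) (nat_lit 0x1000000010000000000000000000100010001000000000001000000000000))) (.non (nat_lit 1) (nat_lit 4) (nat_lit 0x44015050) (nat_lit 0x1000000010000000000000000000100010001000000000001000100000000))) (.non (nat_lit 2) (nat_lit 5) (nat_lit 0x41540105) (nat_lit 0x1000000000001000200030004000000000000000000020000000000020003)))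 (.non (nat_lit 1) (nat_lit 4) (nat_lit 0x44015451) (nat_lit 0x2000000030000000000000000000400050006000300000004000200000001)))) (.non (nat_lit 1) (nat_lit 5) (nat_lit 0x21540101) (nat_lit 0x100000002000200020002000000000000000000010000000000000001))))) (.non (nat_lit 1) (nat_lit 4) (nat_lit 0x15015450) (nat_lit 0x200030001000000000000000400050006000300000004000200000000))) (.non (nat_lit 1) (nat_lit 4) (nat_lit 0x11400000) (nat_lit 0x100000001000100000000000000000000000000000000000000000000))) (.non (nat_lit 1) (nat_lit 4) (nat_lit 0x11500000) (nat_lit 0x100000001000100010000000000000000000000000000000000000000))) (.non (nat_lit 1) (nat_lit 4) (nat_lit 0x11540000) (nat_lit 0x100000001000100010001000000000000000000000000000000000000))) (.non (nat_lit 1) (nat_lit 4) (nat_lit 0x15555000) (nat_lit 0x500030004000300020001000600040002000000000000000000000000))) (.non (nat_lit 1) (nat_lit 4) (nat_lit 0x15555000) (nat_lit 0x500020004000300020001000400060003000000000000000000000000)))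

noncomputable def t757_13 : Tr := (.split (nat_lit 0xd) (nat_lit 0xb) (.split (nat_lit 0xd) (nat_lit 0xc) (.st (nat_lit 8) (nat_lit 1) (nat_lit 4) (nat_lit 0x4015440) (nat_lit 0x10000000000000000000200020002000100000001000000000000) (nat_lit 1) (nat_lit 1) (.split (nat_lit 0xd) (nat_lit 8) (.ex (nat_lit 0xc) (.ex (nat_lit 0xd) (.leaf (.cons (nat_lit 0x5054) (nat_lit 0x10002000000000003000400030000) (.cons (nat_lit 0x540500) (nat_lit 0x100020003000000000000000300040000000000000000) (.cons (nat_lit 0x140015) (nat_lit 0x10002000000000000000000000000000300040003) .nil))) (.cons (nat_lit 0x10000111101100) (nat_lit 0x10010) (nat_lit 0xd) (nat_lit 0x60000540102300) (.cons (nat_lit 0x1111000010011) (nat_lit 0x100100) (nat_lit 0xd) (nat_lit 0x6540000010032) .nil))) (.split (nat_lit 0xe) (nat_lit 0) (.split (nat_lit 0xe) (nat_lit 1) t757_10 (.non (nat_lit 2) (nat_lit 5) (nat_lit 0x11540105) (nat_lit 0x100000001000200030004000000000000000000020000000000020003))) (.non (nat_lit 1) (nat_lit 4) (nat_lit 0x14015451) (nat_lit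 0x200030000000000000000000400050006000300000004000200000001)))) (.split (nat_lit 0xe) (nat_lit 0) (.split (nat_lit 0xe) (nat_lit 1) (.split (nat_lit 0xe) (nat_lit 2) (.split (nat_lit 0xe) (nat_lit 3) (.split (nat_lit 0xe) (nat_lit 4) (.split (nat_lit 0xe) (nat_lit 5) (.split (nat_lit 0xe) (nat_lit 6) t757_12 (.non (nat_lit 1) (nat_lit 4) (nat_lit 0x15415400) (nat_lit 0x300010002000100000000000200030004000200000000000000000000))) (.non (nat_lit 1) (nat_lit 4) (nat_lit 0x15015440) (nat_lit 0x200010001000000000000000200030004000300000002000000000000))) (.non (nat_lit 1) (nat_lit 5) (nat_lit 0x11540100) (nat_lit 0x100000001000100010001000000000000000000010000000000000000))) (.non (nat_lit 1) (nat_lit 4) (nat_lit 0x15015440) (nat_lit 0x200010001000000000000000200030004000200000003000000000000))) (.non (nat_lit 1) (nat_lit 4) (nat_lit 0x14015450) (nat_lit 0x100010000000000000000000200030004000200000003000200000000))) (.non (nat_lit 2) (nat_lit 4) (nat_lit 0x11540005) (nat_lit 0x100000001000100010001000000000000000000000000000000010001)))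 (.non (nat_lit 1) (nat_lit 4) (nat_lit 0x11540001) (nat_lit 0x100000001000100010001000000000000000000000000000000000001)))) (.non (nat_lit 1) (nat_lit 4) (nat_lit 0x8015440) (nat_lit 0x10000000000000000000200020002000100000001000000000000)))) (.non (nat_lit 1) (nat_lit 4) (nat_lit 0x5415450) (nat_lit 0x30002000100000000000400050006000300000004000200000000))) (.non (nat_lit 1) (nat_lit 4) (nat_lit 0x5555400) (nat_lit 0x50003000600040002000400030002000100000000000000000000)))

noncomputable def t757_14 : Tr := (.split (nat_lit 0xc) (nat_lit 8) (.split (nat_lit 0xc) (nat_lit 9) (.split (nat_lit 0xc) (nat_lit 0xa) (.st (nat_lit 0xb) (nat_lit 1) (nat_lit 5) (nat_lit 0x1540101) (nat_lit 0x1000200020002000000000000000000010000000000000001) (nat_lit 1) (nat_lit 1) (.split (nat_lit 0xc) (nat_lit 0xb) (.ex (nat_lit 8) (.leaf (.cons (nat_lit 0x5054) (nat_lit 0x10002000000000003000400030000) (.cons (nat_lit 0x540500) (nat_lit 0x100020003000000000000000300040000000000000000) (.cons (nat_lit 0x140015) (nat_lit 0x10002000000000000000000000000000300040003)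 .nil))) (.cons (nat_lit 0x111101100) (nat_lit 0x10010) (nat_lit 0xc) (nat_lit 0x540102300) .nil)) (.split (nat_lit 0xd) (nat_lit 0) (.split (nat_lit 0xd) (nat_lit 1) (.split (nat_lit 0xd) (nat_lit 2) (.split (nat_lit 0xd) (nat_lit 3) (.split (nat_lit 0xd) (nat_lit 4) (.split (nat_lit 0xd) (nat_lit 5) (.split (nat_lit 0xd) (nat_lit 6) (.split (nat_lit 0xd) (nat_lit 7) (.split (nat_lit 0xd) (nat_lit 9) (.split (nat_lit 0xd) (nat_lit 0xa) t757_13 (.non (nat_lit 1) (nat_lit 4) (nat_lit 0x5555400) (nat_lit 0x50002000400060003000400030002000100000000000000000000))) (.non (nat_lit 1) (nat_lit 4) (nat_lit 0x4155450) (nat_lit 0x30000000000010002000400050006000300000004000200000000))) (.non (nat_lit 1) (nat_lit 4) (nat_lit 0x4014000) (nat_lit 0x10000000000000000000100010000000000000000000000000000))) (.non (nat_lit 1) (nat_lit 4) (nat_lit 0x4015000) (nat_lit 0x10000000000000000000100010001000000000000000000000000))) (.non (nat_lit 1) (nat_lit 4) (nat_lit 0x4015400) (nat_lit 0x10000000000000000000100010001000100000000000000000000)))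 (.non (nat_lit 1) (nat_lit 5) (nat_lit 0x5550101) (nat_lit 0x20001000200030004000100000000000000030000000000000002))) (.non (nat_lit 1) (nat_lit 4) (nat_lit 0x4015040) (nat_lit 0x10000000000000000000100010001000000000001000000000000))) (.non (nat_lit 1) (nat_lit 4) (nat_lit 0x4015050) (nat_lit 0x10000000000000000000100010001000000000001000100000000))) (.non (nat_lit 2) (nat_lit 5) (nat_lit 0x5540105) (nat_lit 0x10001000200030004000000000000000000020000000000020003))) (.non (nat_lit 1) (nat_lit 4) (nat_lit 0x4055451) (nat_lit 0x30000000000000001000400050006000300000004000200000002)))) (.non (nat_lit 1) (nat_lit 5) (nat_lit 0x2540101) (nat_lit 0x1000200020002000000000000000000010000000000000001)))) (.non (nat_lit 1) (nat_lit 4) (nat_lit 0x1500000) (nat_lit 0x1000100010000000000000000000000000000000000000000))) (.non (nat_lit 1) (nat_lit 4) (nat_lit 0x1540000) (nat_lit 0x1000100010001000000000000000000000000000000000000))) (.non (nat_lit 1) (nat_lit 4) (nat_lit 0x1515450) (nat_lit 0x3000200010000000400050006000300000004000200000000)))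

noncomputable def t757_15 : Tr := (.st (nat_lit 0xa) (nat_lit 1) (nat_lit 5) (nat_lit 0x540101) (nat_lit 0x100020002000000000000000000010000000000000001) (nat_lit 1) (nat_lit 1) (.split (nat_lit 0xb) (nat_lit 0xa) (.split (nat_lit 0xa) (nat_lit 9) (.split (nat_lit 9) (nat_lit 0) (.split (nat_lit 8) (nat_lit 7) (.split (nat_lit 6) (nat_lit 3) (.split (nat_lit 9) (nat_lit 4) (.ex (nat_lit 0xb) (.leaf (.cons (nat_lit 0x5054) (nat_lit 0x10002000000000003000400030000) (.cons (nat_lit 0x540500) (nat_lit 0x100020003000000000000000300040000000000000000) (.cons (nat_lit 0x140015) (nat_lit 0x10002000000000000000000000000000300040003) .nil))) (.cons (nat_lit 0x111000010011) (nat_lit 0x100100) (nat_lit 0xc) (nat_lit 0x540000010032) .nil)) (.split (nat_lit 0xc) (nat_lit 0) (.split (nat_lit 0xc) (nat_lit 1) (.split (nat_lit 0xc) (nat_lit 2) (.split (nat_lit 0xc) (nat_lit 3) (.split (nat_lit 0xc) (nat_lit 4) (.split (nat_lit 0xc) (nat_lit 5) (.split (nat_lit 0xc) (nat_lit 6) (.split (nat_lit 0xc) (nat_lit 7) t757_14 (.non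 (nat_lit 1) (nat_lit 4) (nat_lit 0x1015440) (nat_lit 0x1000000000000000100020002000100000001000000000000))) (.non (nat_lit 1) (nat_lit 4) (nat_lit 0x1005440) (nat_lit 0x1000000000000000000010002000100000001000000000000))) (.non (nat_lit 1) (nat_lit 4) (nat_lit 0x1555440) (nat_lit 0x4000300020001000200040006000500000003000000000000))) (.non (nat_lit 1) (nat_lit 5) (nat_lit 0x1540100) (nat_lit 0x1000100010001000000000000000000010000000000000000))) (.non (nat_lit 1) (nat_lit 4) (nat_lit 0x1555440) (nat_lit 0x4000300020001000200040006000300000005000000000000))) (.non (nat_lit 1) (nat_lit 4) (nat_lit 0x1515450) (nat_lit 0x3000200010000000200040006000300000005000400000000))) (.non (nat_lit 2) (nat_lit 4) (nat_lit 0x1540005) (nat_lit 0x1000100010001000000000000000000000000000000010001))) (.non (nat_lit 1) (nat_lit 4) (nat_lit 0x1540001) (nat_lit 0x1000100010001000000000000000000000000000000000001)))) (.non (nat_lit 1) (nat_lit 5) (nat_lit 0x140201) (nat_lit 0x10002000000000000000000010000000000000001))) (.non (nat_lit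 1) (nat_lit 4) (nat_lit 0xa840) (nat_lit 0x10002000100000002000000000000))) (.non (nat_lit 1) (nat_lit 4) (nat_lit 0x25440) (nat_lit 0x100020002000100000001000000000000))) (.non (nat_lit 1) (nat_lit 5) (nat_lit 0x280201) (nat_lit 0x10002000000000000000000010000000000000002))) (.non (nat_lit 1) (nat_lit 5) (nat_lit 0x240101) (nat_lit 0x10002000000000000000000010000000000000001))) (.non (nat_lit 1) (nat_lit 5) (nat_lit 0x940101) (nat_lit 0x100020002000000000000000000010000000000000001))))

noncomputable def t757_16 : Tr := (.split (nat_lit 0xa) (nat_lit 8) (.st (nat_lit 9) (nat_lit 1) (nat_lit 5) (nat_lit 0x140101) (nat_lit 0x10002000000000000000000010000000000000001) (nat_lit 1) (nat_lit 1) (.ex (nat_lit 0xa) (.split (nat_lit 9) (nat_lit 4) (.split (nat_lit 0xa) (nat_lit 9) (.pd (.cons (nat_lit 0) (nat_lit 6) (nat_lit 0x110000000) (nat_lit 0x94780442110) (nat_lit 0xf423fb71ae000010000100000f423f02f7af423fb71ae1f15600000) .nil) (.split (nat_lit 8) (nat_lit 7) (.split (nat_lit 9) (nat_lit 0) (.split (nat_lit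 6) (nat_lit 3) t757_9 (.non (nat_lit 1) (nat_lit 4) (nat_lit 0xa840) (nat_lit 0x10002000100000002000000000000))) (.non (nat_lit 1) (nat_lit 5) (nat_lit 0x280201) (nat_lit 0x10002000000000000000000010000000000000002))) (.non (nat_lit 1) (nat_lit 4) (nat_lit 0x25440) (nat_lit 0x100020002000100000001000000000000)))) (.non (nat_lit 1) (nat_lit 5) (nat_lit 0x240101) (nat_lit 0x10002000000000000000000010000000000000001))) (.non (nat_lit 1) (nat_lit 5) (nat_lit 0x140201) (nat_lit 0x10002000000000000000000010000000000000001))) (.split (nat_lit 0xb) (nat_lit 0) (.split (nat_lit 0xb) (nat_lit 1) (.split (nat_lit 0xb) (nat_lit 2) (.split (nat_lit 0xb) (nat_lit 3) (.split (nat_lit 0xb) (nat_lit 4) (.split (nat_lit 0xb) (nat_lit 5) (.split (nat_lit 0xb) (nat_lit 6) (.split (nat_lit 0xb) (nat_lit 7) (.split (nat_lit 0xb) (nat_lit 8) (.split (nat_lit 0xb) (nat_lit 9) t757_15 (.non (nat_lit 1) (nat_lit 4) (nat_lit 0x540000) (nat_lit 0x100010001000000000000000000000000000000000000))) (.non (nat_lit 1) (nat_lit 4) (nat_lit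 0x555450) (nat_lit 0x300020001000400050006000300000004000200000000))) (.non (nat_lit 1) (nat_lit 4) (nat_lit 0x415440) (nat_lit 0x100000000000100020002000100000001000000000000))) (.non (nat_lit 1) (nat_lit 4) (nat_lit 0x405440) (nat_lit 0x100000000000000010002000100000001000000000000))) (.non (nat_lit 1) (nat_lit 4) (nat_lit 0x415450) (nat_lit 0x100000000000100020003000200000002000100000000))) (.non (nat_lit 1) (nat_lit 5) (nat_lit 0x540100) (nat_lit 0x100010001000000000000000000010000000000000000))) (.non (nat_lit 1) (nat_lit 4) (nat_lit 0x555050) (nat_lit 0x300020001000100020003000000000004000200000000))) (.non (nat_lit 1) (nat_lit 4) (nat_lit 0x555450) (nat_lit 0x300020001000200040006000300000005000400000000))) (.non (nat_lit 2) (nat_lit 4) (nat_lit 0x540005) (nat_lit 0x100010001000000000000000000000000000000010001))) (.non (nat_lit 1) (nat_lit 4) (nat_lit 0x540001) (nat_lit 0x100010001000000000000000000000000000000000001))))) (.non (nat_lit 1) (nat_lit 4) (nat_lit 0x155451) (nat_lit 0x30002000400050006000300000004000200000001)))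

noncomputable def t757_17 : Tr := (.ex (nat_lit 4) (.ex (nat_lit 9) (.split (nat_lit 9) (nat_lit 4) t757_7 (.split (nat_lit 9) (nat_lit 0) (.sup (nat_lit 0x50000000000000008000a0000000000000000) (nat_lit 0x5000a00090002)) (.non (nat_lit 1) (nat_lit 5) (nat_lit 0x80101) (nat_lit 0x1000000000000000000010000000000000001)))) (.split (nat_lit 0xa) (nat_lit 0) (.split (nat_lit 0xa) (nat_lit 1) (.split (nat_lit 0xa) (nat_lit 2) (.split (nat_lit 0xa) (nat_lit 3) (.split (nat_lit 0xa) (nat_lit 4) (.split (nat_lit 0xa) (nat_lit 5) (.split (nat_lit 0xa) (nat_lit 6) (.split (nat_lit 0xa) (nat_lit 7) t757_16 (.non (nat_lit 1) (nat_lit 4) (nat_lit 0x115440) (nat_lit 0x10000000100020002000100000001000000000000))) (.non (nat_lit 1) (nat_lit 4) (nat_lit 0x105440) (nat_lit 0x10000000000010002000100000001000000000000))) (.non (nat_lit 1) (nat_lit 4) (nat_lit 0x115450) (nat_lit 0x10000000100020003000200000002000100000000))) (.non (nat_lit 1) (nat_lit 5) (nat_lit 0x140100) (nat_lit 0x10001000000000000000000010000000000000000)))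 (.non (nat_lit 1) (nat_lit 4) (nat_lit 0x105450) (nat_lit 0x10000000000010002000100000002000100000000))) (.non (nat_lit 1) (nat_lit 4) (nat_lit 0x155451) (nat_lit 0x30002000200040006000300000005000400000001))) (.non (nat_lit 2) (nat_lit 4) (nat_lit 0x140005) (nat_lit 0x10001000000000000000000000000000000010001))) (.non (nat_lit 1) (nat_lit 4) (nat_lit 0x140001) (nat_lit 0x10001000000000000000000000000000000000001)))) (.split (nat_lit 0xa) (nat_lit 0) (.split (nat_lit 0xa) (nat_lit 1) (.split (nat_lit 0xa) (nat_lit 2) (.split (nat_lit 0xa) (nat_lit 3) (.split (nat_lit 0xa) (nat_lit 5) (.split (nat_lit 0xa) (nat_lit 6) (.split (nat_lit 0xa) (nat_lit 7) (.split (nat_lit 0xa) (nat_lit 9) (.split (nat_lit 0xa) (nat_lit 8) (.sup (nat_lit 0x5000a00090002) (nat_lit 0x500020000000000000008000a0000000000000000)) (.unj (nat_lit 0x55) (nat_lit 0x1000200020001) (nat_lit 0x114500) (nat_lit 0x30000000200010000000300040000000000000000))) (.non (nat_lit 1) (nat_lit 5) (nat_lit 0x140100) (nat_lit 0x10001000000000000000000010000000000000000)))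 (.non (nat_lit 1) (nat_lit 4) (nat_lit 0x115440) (nat_lit 0x10000000100020002000100000001000000000000))) (.non (nat_lit 1) (nat_lit 4) (nat_lit 0x105440) (nat_lit 0x10000000000010002000100000001000000000000))) (.non (nat_lit 1) (nat_lit 4) (nat_lit 0x115450) (nat_lit 0x10000000100020003000200000002000100000000))) (.non (nat_lit 1) (nat_lit 4) (nat_lit 0x105450) (nat_lit 0x10000000000010002000100000002000100000000))) (.star (nat_lit 0xa) (nat_lit 2) (nat_lit 4))) (.star (nat_lit 0xa) (nat_lit 1) (nat_lit 4))) (.non (nat_lit 1) (nat_lit 5) (nat_lit 0x140101) (nat_lit 0x10001000000000000000000010000000000000001))))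

noncomputable def t757_18 : Tr := (.ex (nat_lit 1) (.ex (nat_lit 2) t757_17 (.split (nat_lit 0xa) (nat_lit 0) (.split (nat_lit 0xa) (nat_lit 3) (.split (nat_lit 0xa) (nat_lit 4) (.split (nat_lit 0xa) (nat_lit 5) (.split (nat_lit 0xa) (nat_lit 6) (.split (nat_lit 0xa) (nat_lit 7) (.split (nat_lit 0xa) (nat_lit 8) (.split (nat_lit 0xa) (nat_lit 9) (.split (nat_lit 0xa) (nat_lit 1) (.unj (nat_lit 0x100015) (nat_lit 0x10000000000000000000000000000000200020001) (nat_lit 0x15500) (nat_lit 0x100020003000400030000000000000000)) (.unj (nat_lit 0x100014) (nat_lit 0x10000000000000000000000000000000100010000) (nat_lit 0x41500) (nat_lit 0x1000000000001000200020000000000000000))) (.non (nat_lit 1) (nat_lit 4) (nat_lit 0x155451) (nat_lit 0x30002000200040006000300000005000400000001))) (.non (nat_lit 1) (nat_lit 4) (nat_lit 0x115050) (nat_lit 0x10000000100010001000000000001000100000000))) (.non (nat_lit 1) (nat_lit 4) (nat_lit 0x115440) (nat_lit 0x10000000100020002000100000001000000000000))) (.non (nat_lit 1) (nat_lit 4)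 (nat_lit 0x105440) (nat_lit 0x10000000000010002000100000001000000000000))) (.star (nat_lit 0xa) (nat_lit 2) (nat_lit 5))) (.star (nat_lit 0xa) (nat_lit 2) (nat_lit 4))) (.non (nat_lit 1) (nat_lit 4) (nat_lit 0x100050) (nat_lit 0x10000000000000000000000000001000100000000))) (.non (nat_lit 1) (nat_lit 4) (nat_lit 0x155451) (nat_lit 0x30001000200040006000300000005000400000002)))) (.split (nat_lit 0xa) (nat_lit 0) (.split (nat_lit 0xa) (nat_lit 3) (.split (nat_lit 0xa) (nat_lit 4) (.split (nat_lit 0xa) (nat_lit 5) (.split (nat_lit 0xa) (nat_lit 6) (.split (nat_lit 0xa) (nat_lit 7) (.split (nat_lit 0xa) (nat_lit 9) (.split (nat_lit 0xa) (nat_lit 2) (.split (nat_lit 0xa) (nat_lit 8) (.unj (nat_lit 0x100015) (nat_lit 0x10000000000000000000000000000000200020001) (nat_lit 0x15500) (nat_lit 0x100020003000400030000000000000000)) (.sup (nat_lit 0x500000000000000000000000000000008000a0002) (nat_lit 0x2000000000005000a00090000000000000000))) (.split (nat_lit 0xa) (nat_lit 8) (.unj (nat_lit 0x100014) (nat_lit 0x10000000000000000000000000000000100010000)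 (nat_lit 0x41500) (nat_lit 0x1000000000001000200020000000000000000)) (.non (nat_lit 1) (nat_lit 4) (nat_lit 0x115050) (nat_lit 0x10000000100010001000000000001000100000000)))) (.non (nat_lit 2) (nat_lit 4) (nat_lit 0x140005) (nat_lit 0x10001000000000000000000000000000000010001))) (.non (nat_lit 1) (nat_lit 4) (nat_lit 0x115440) (nat_lit 0x10000000100020002000100000001000000000000))) (.non (nat_lit 1) (nat_lit 4) (nat_lit 0x105440) (nat_lit 0x10000000000010002000100000001000000000000))) (.star (nat_lit 0xa) (nat_lit 1) (nat_lit 5))) (.star (nat_lit 0xa) (nat_lit 1) (nat_lit 4))) (.non (nat_lit 1) (nat_lit 4) (nat_lit 0x105450) (nat_lit 0x10000000000010002000100000002000100000000))) (.non (nat_lit 2) (nat_lit 4) (nat_lit 0x100005) (nat_lit 0x10000000000000000000000000000000000010001))))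

noncomputable def t757_19 : Tr := (.split (nat_lit 9) (nat_lit 8) (.ex (nat_lit 0) t757_18 (.split (nat_lit 0xa) (nat_lit 1) (.split (nat_lit 0xa) (nat_lit 2) (.split (nat_lit 0xa) (nat_lit 3) (.split (nat_lit 0xa) (nat_lit 4) (.split (nat_lit 0xa) (nat_lit 5) (.split (nat_lit 0xa) (nat_lit 6) (.split (nat_lit 0xa) (nat_lit 7) (.split (nat_lit 0xa) (nat_lit 8) (.split (nat_lit 0xa) (nat_lit 9) (.split (nat_lit 0xa) (nat_lit 0) (.split (nat_lit 9) (nat_lit 0) (.split (nat_lit 9) (nat_lit 4) (.sup (nat_lit 0x7000100000000000000000000000000100014000e) (nat_lit 0x5000a000f0014000f0000000000000000)) (.non (nat_lit 2) (nat_lit 5) (nat_lit 0x140205) (nat_lit 0x10002000000000000000000010000000000010002))) (.non (nat_lit 2) (nat_lit 4) (nat_lit 0x180005) (nat_lit 0x10001000000000000000000000000000000010002))) (.non (nat_lit 2) (nat_lit 4) (nat_lit 0x240005) (nat_lit 0x10001000000000000000000000000000000010002))) (.non (nat_lit 1) (nat_lit 4) (nat_lit 0x140001) (nat_lit 0x10001000000000000000000000000000000000001)))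 (.non (nat_lit 1) (nat_lit 4) (nat_lit 0x155451) (nat_lit 0x30001000400050006000300000004000200000002))) (.non (nat_lit 1) (nat_lit 4) (nat_lit 0x115440) (nat_lit 0x10000000100020002000100000001000000000000))) (.non (nat_lit 1) (nat_lit 4) (nat_lit 0x105440) (nat_lit 0x10000000000010002000100000001000000000000))) (.non (nat_lit 1) (nat_lit 4) (nat_lit 0x115450) (nat_lit 0x10000000100020003000200000002000100000000))) (.non (nat_lit 1) (nat_lit 5) (nat_lit 0x140101) (nat_lit 0x10001000000000000000000010000000000000001))) (.non (nat_lit 1) (nat_lit 4) (nat_lit 0x105450) (nat_lit 0x10000000000010002000100000002000100000000))) (.non (nat_lit 1) (nat_lit 4) (nat_lit 0x155451) (nat_lit 0x30001000200040006000300000005000400000002))) (.non (nat_lit 2) (nat_lit 4) (nat_lit 0x100005) (nat_lit 0x10000000000000000000000000000000000010001)))) (.st (nat_lit 0) (nat_lit 1) (nat_lit 4) (nat_lit 0x55451) (nat_lit 0x3000400050006000300000004000200000002) (nat_lit 1) (nat_lit 1) (.st (nat_lit 1) (nat_lit 2) (nat_lit 5) (nat_lit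 0x55105) (nat_lit 0x4000300020001000000020000000000020003) (nat_lit 1) (nat_lit 1) (.st (nat_lit 2) (nat_lit 1) (nat_lit 4) (nat_lit 0x55450) (nat_lit 0x1000200030004000200000003000200000000) (nat_lit 1) (nat_lit 1) (.st (nat_lit 4) (nat_lit 1) (nat_lit 5) (nat_lit 0x55151) (nat_lit 0x6000500040003000000040002000100000003) (nat_lit 1) (nat_lit 2) (.st (nat_lit 8) (nat_lit 1) (nat_lit 4) (nat_lit 0x55440) (nat_lit 0x1000200020002000100000001000000000000) (nat_lit 1) (nat_lit 1) (.st (nat_lit 9) (nat_lit 1) (nat_lit 4) (nat_lit 0x55441) (nat_lit 0x2000200020002000100000001000000000001) (nat_lit 1) (nat_lit 1) (.split (nat_lit 9) (nat_lit 0) (.split (nat_lit 9) (nat_lit 8) (.split (nat_lit 8) (nat_lit 7) (.split (nat_lit 6) (nat_lit 3) (.split (nat_lit 9) (nat_lit 4) (.leaf (.cons (nat_lit 0x5054) (nat_lit 0x10002000000000003000400030000) (.cons (nat_lit 0x54500) (nat_lit 0x3000200010000000300040000000000000000) (.cons (nat_lit 0x41500) (nat_lit 0x1000000000001000200020000000000000000) (.cons (nat_lit 0x50015)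 (nat_lit 0x2000100000000000000000000000300040003) .nil)))) (.cons (nat_lit 0x1111101101) (nat_lit 0x10010) (nat_lit 0xe) (nat_lit 0x6540102307) (.cons (nat_lit 0x1111011011) (nat_lit 0x100100) (nat_lit 0xe) (nat_lit 0x456017032) .nil))) (.non (nat_lit 1) (nat_lit 5) (nat_lit 0x50201) (nat_lit 0x2000100000000000000010000000000000001))) (.non (nat_lit 1) (nat_lit 4) (nat_lit 0xa840) (nat_lit 0x10002000100000002000000000000))) (.non (nat_lit 1) (nat_lit 4) (nat_lit 0xa5400) (nat_lit 0x1000200030002000100000000000000000000))) (.non (nat_lit 1) (nat_lit 4) (nat_lit 0x95440) (nat_lit 0x1000200020002000100000001000000000000))) (.non (nat_lit 1) (nat_lit 4) (nat_lit 0xaa881) (nat_lit 0x2000200020002000100000001000000000002))))))))))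

noncomputable def t757_20 : Tr := (.split (nat_lit 9) (nat_lit 2) (.split (nat_lit 9) (nat_lit 4) (.split (nat_lit 9) (nat_lit 8) (.split (nat_lit 9) (nat_lit 0) (.split (nat_lit 8) (nat_lit 7) (.split (nat_lit 6) (nat_lit 3) (.sup (nat_lit 0x40007000b0010000d0000000000000000) (nat_lit 0x5000000000000000000000001000d0010000a)) (.non (nat_lit 1) (nat_lit 4) (nat_lit 0xa840) (nat_lit 0x10002000100000002000000000000))) (.non (nat_lit 1) (nat_lit 4) (nat_lit 0x25440) (nat_lit 0x100020002000100000001000000000000))) (.unj (nat_lit 0x40015) (nat_lit 0x1000000000000000000000000000100010001) (nat_lit 0x15500) (nat_lit 0x100020003000400030000000000000000))) (.st (nat_lit 0) (nat_lit 1) (nat_lit 4) (nat_lit 0x55451) (nat_lit 0x3000400050006000300000004000200000002) (nat_lit 1) (nat_lit 1) (.st (nat_lit 2) (nat_lit 1) (nat_lit 4) (nat_lit 0x55450) (nat_lit 0x1000200030004000200000003000200000000) (nat_lit 1) (nat_lit 1) (.st (nat_lit 9) (nat_lit 1) (nat_lit 4) (nat_lit 0x55441) (nat_lit 0x2000200020002000100000001000000000001)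 (nat_lit 1) (nat_lit 1) (.st (nat_lit 8) (nat_lit 1) (nat_lit 4) (nat_lit 0x55440) (nat_lit 0x1000200020002000100000001000000000000) (nat_lit 1) (nat_lit 1) (.ex (nat_lit 1) t757_3 (.split (nat_lit 0xa) (nat_lit 0) (.split (nat_lit 0xa) (nat_lit 2) (.split (nat_lit 0xa) (nat_lit 3) (.split (nat_lit 0xa) (nat_lit 4) (.split (nat_lit 0xa) (nat_lit 5) (.split (nat_lit 0xa) (nat_lit 6) (.split (nat_lit 0xa) (nat_lit 7) (.split (nat_lit 0xa) (nat_lit 8) (.split (nat_lit 0xa) (nat_lit 9) (.unj (nat_lit 0x100015) (nat_lit 0x10000000000000000000000000000000200020001) (nat_lit 0x15500) (nat_lit 0x100020003000400030000000000000000)) (.non (nat_lit 1) (nat_lit 4) (nat_lit 0x155441) (nat_lit 0x10002000200020002000100000001000000000001))) (.non (nat_lit 1) (nat_lit 4) (nat_lit 0x155440) (nat_lit 0x10001000200020002000100000001000000000000))) (.non (nat_lit 1) (nat_lit 4) (nat_lit 0x115440) (nat_lit 0x10000000100020002000100000001000000000000))) (.non (nat_lit 1) (nat_lit 4) (nat_lit 0x105440) (nat_lit 0x10000000000010002000100000001000000000000)))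 (.star (nat_lit 0xa) (nat_lit 1) (nat_lit 5))) (.star (nat_lit 0xa) (nat_lit 1) (nat_lit 4))) (.non (nat_lit 1) (nat_lit 4) (nat_lit 0x105450) (nat_lit 0x10000000000010002000100000002000100000000))) (.non (nat_lit 1) (nat_lit 4) (nat_lit 0x155450) (nat_lit 0x10001000200030004000200000003000200000000))) (.non (nat_lit 1) (nat_lit 4) (nat_lit 0x155451) (nat_lit 0x10003000400050006000300000004000200000002))))))))) t757_19) (.split (nat_lit 9) (nat_lit 4) (.split (nat_lit 9) (nat_lit 8) (.unj (nat_lit 0x40015) (nat_lit 0x1000000000000000000000000000100010001) (nat_lit 0x15500) (nat_lit 0x100020003000400030000000000000000)) (.non (nat_lit 1) (nat_lit 4) (nat_lit 0x55050) (nat_lit 0x1000100010001000000000001000100000000))) (.star (nat_lit 9) (nat_lit 2) (nat_lit 4))))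

noncomputable def t757_21 : Tr := (.ex (nat_lit 4) (.split (nat_lit 6) (nat_lit 0) (.pd (.cons (nat_lit 0) (nat_lit 6) (nat_lit 0) (nat_lit 0x770442110) (nat_lit 0xf423fb71ae00000f423f54591f423fb71ae1f15600000) (.cons (nat_lit 0) (nat_lit 7) (nat_lit 0) (nat_lit 0x805442110) (nat_lit 0xf423f00000f423fb71ae1f156f423fb71ae1f15600000) (.cons (nat_lit 0) (nat_lit 8) (nat_lit 0) (nat_lit 0x65442110) (nat_lit 0xf423fb71aea2c2804737f423fb71ae1f15600000) (.cons (nat_lit 1) (nat_lit 6) (nat_lit 0) (nat_lit 0x770442200) (nat_lit 0xf423fb71ae00000f423f54591f423fb71ae00000f423f) (.cons (nat_lit 1) (nat_lit 7) (nat_lit 0) (nat_lit 0x800652200) (nat_lit 0xf423f00000437a254591f423ff423fb71ae00000174ea) (.cons (nat_lit 2) (nat_lit 6) (nat_lit 0) (nat_lit 0x770443000) (nat_lit 0xf423fb71ae00000f423f54591f423f00000f423fb71ae) (.cons (nat_lit 3) (nat_lit 6) (nat_lit 0) (nat_lit 0x770440100) (nat_lit 0xf423fb71ae00000f423f5459100000f423f54591437a2) .nil))))))) (.leaf (.cons (nat_lit 0x5501) (nat_lit 0x10002000200020000000000000001)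 (.cons (nat_lit 0x1505) (nat_lit 0x3000400030000000000010002) (.cons (nat_lit 0x5015) (nat_lit 0x10002000000000000000300040003) .nil))) .nil)) (.non (nat_lit 1) (nat_lit 4) (nat_lit 0xa801) (nat_lit 0x10002000100000000000000000002))) (.split (nat_lit 9) (nat_lit 0) (.split (nat_lit 9) (nat_lit 1) (.split (nat_lit 9) (nat_lit 2) (.split (nat_lit 9) (nat_lit 3) (.split (nat_lit 9) (nat_lit 5) (.split (nat_lit 9) (nat_lit 6) (.split (nat_lit 9) (nat_lit 7) (.split (nat_lit 9) (nat_lit 8) (.split (nat_lit 9) (nat_lit 4) (.split (nat_lit 6) (nat_lit 0) (.sup (nat_lit 0x5000a00090002) (nat_lit 0x50000000000020009000a0000000000000000)) (.non (nat_lit 1) (nat_lit 4) (nat_lit 0xa801) (nat_lit 0x10002000100000000000000000002))) (.unj (nat_lit 0x40500) (nat_lit 0x1000000000000000100010000000000000000) (nat_lit 0x55) (nat_lit 0x1000200020001))) (.unj (nat_lit 0x55) (nat_lit 0x1000200020001) (nat_lit 0x54500) (nat_lit 0x3000200010000000300040000000000000000))) (.non (nat_lit 1) (nat_lit 4) (nat_lit 0x55401) (nat_lit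 0x1000100020002000100000000000000000001))) (.non (nat_lit 1) (nat_lit 4) (nat_lit 0x45401) (nat_lit 0x1000000010002000100000000000000000001))) (.non (nat_lit 2) (nat_lit 4) (nat_lit 0x55405) (nat_lit 0x1000100020003000200000000000000010002))) (.non (nat_lit 0) (nat_lit 5) (nat_lit 0x40154) (nat_lit 0x2000000000000000000010003000400030000))) (.star (nat_lit 9) (nat_lit 2) (nat_lit 4))) (.star (nat_lit 9) (nat_lit 1) (nat_lit 4))) (.non (nat_lit 2) (nat_lit 4) (nat_lit 0x45405) (nat_lit 0x1000000010002000100000000000000010002))))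

noncomputable def t757_22 : Tr := (.ex (nat_lit 4) (.split (nat_lit 9) (nat_lit 3) (.split (nat_lit 8) (nat_lit 7) (.split (nat_lit 9) (nat_lit 8) (.split (nat_lit 6) (nat_lit 0) (.pd (.cons (nat_lit 0) (nat_lit 8) (nat_lit 0) (nat_lit 0x3065442110) (nat_lit 0xf423f00000f423fb71aea2c2804737b71aea2c280473700000) (.cons (nat_lit 1) (nat_lit 6) (nat_lit 0) (nat_lit 0x3980442200) (nat_lit 0xa2c28b71aef423f00000f423f5459198965927bd00000f423f) (.cons (nat_lit 1) (nat_lit 7) (nat_lit 0) (nat_lit 0x3900652200) (nat_lit 0xb71aef423f00000437a254591f423fa2c289896500000174ea) (.cons (nat_lit 2) (nat_lit 6) (nat_lit 0) (nat_lit 0x3980443000) (nat_lit 0xa2c28b71aef423f00000f423f545919896500000f423fb71ae) (.cons (nat_lit 3) (nat_lit 6) (nat_lit 0) (nat_lit 0x8770440100) (nat_lit 0xf423fb71aea2c2800000f423f5459100000f423f54591437a2) .nil))))) (.leaf (.cons (nat_lit 0x50054) (nat_lit 0x2000100000000000000000003000400030000) (.cons (nat_lit 0x5501) (nat_lit 0x10002000200020000000000000001) (.cons (nat_lit 0x1505) (nat_lit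 0x3000400030000000000010002) (.cons (nat_lit 0x5015) (nat_lit 0x10002000000000000000300040003) .nil)))) (.cons (nat_lit 0x1111101101) (nat_lit 0x10010) (nat_lit 0xb) (nat_lit 0x5430206701) (.cons (nat_lit 0x1111101011) (nat_lit 0x10100) (nat_lit 0xe) (nat_lit 0x6540107032) .nil)))) (.non (nat_lit 1) (nat_lit 4) (nat_lit 0xa801) (nat_lit 0x10002000100000000000000000002))) (.non (nat_lit 1) (nat_lit 4) (nat_lit 0x6a040) (nat_lit 0x4000300020001000000000002000000000000))) (.non (nat_lit 1) (nat_lit 4) (nat_lit 0xa5400) (nat_lit 0x1000200030002000100000000000000000000))) (.non (nat_lit 1) (nat_lit 4) (nat_lit 0xa8050) (nat_lit 0x3000200010000000000000004000200000000))) (.split (nat_lit 0xa) (nat_lit 0) (.split (nat_lit 0xa) (nat_lit 1) (.split (nat_lit 0xa) (nat_lit 2) (.split (nat_lit 0xa) (nat_lit 3) (.split (nat_lit 0xa) (nat_lit 5) (.split (nat_lit 0xa) (nat_lit 6) (.split (nat_lit 0xa) (nat_lit 7) (.split (nat_lit 0xa) (nat_lit 8) (.split (nat_lit 0xa) (nat_lit 9) (.unj (nat_lit 0x101500) (nat_lit 0x10000000000000001000200020000000000000000)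 (nat_lit 0x50054) (nat_lit 0x2000100000000000000000003000400030000)) (.non (nat_lit 1) (nat_lit 4) (nat_lit 0x155441) (nat_lit 0x10002000200020002000100000001000000000001))) (.non (nat_lit 1) (nat_lit 4) (nat_lit 0x155450) (nat_lit 0x20003000400030002000100000002000100000000))) (.non (nat_lit 1) (nat_lit 4) (nat_lit 0x115401) (nat_lit 0x10000000100020002000100000000000000000001))) (.non (nat_lit 1) (nat_lit 4) (nat_lit 0x105401) (nat_lit 0x10000000000010002000100000000000000000001))) (.non (nat_lit 1) (nat_lit 4) (nat_lit 0x155451) (nat_lit 0x20003000400050006000400000002000100000003))) (.non (nat_lit 1) (nat_lit 4) (nat_lit 0x155451) (nat_lit 0x10002000200020002000100000002000100000001))) (.star (nat_lit 0xa) (nat_lit 2) (nat_lit 4))) (.star (nat_lit 0xa) (nat_lit 1) (nat_lit 4))) (.non (nat_lit 1) (nat_lit 4) (nat_lit 0x155451) (nat_lit 0x20003000400050006000300000002000100000004))))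

noncomputable def t757_23 : Tr := (.ex (nat_lit 0xa) (.leaf (.cons (nat_lit 0x40154) (nat_lit 0x2000000000000000000010003000400030000) (.cons (nat_lit 0x40550) (nat_lit 0x3000000000000000300040002000100000000) (.cons (nat_lit 0x41500) (nat_lit 0x1000000000001000200020000000000000000) (.cons (nat_lit 0x5015) (nat_lit 0x10002000000000000000300040003) .nil)))) (.cons (nat_lit 0x1000011100) (nat_lit 0x100010) (nat_lit 2) (nat_lit 0x2000031000) (.cons (nat_lit 0x10111100011) (nat_lit 0x10100) (nat_lit 0xd) (nat_lit 0x60540100032) .nil))) (.split (nat_lit 0xb) (nat_lit 0) (.split (nat_lit 0xb) (nat_lit 1) (.split (nat_lit 0xb) (nat_lit 2) (.split (nat_lit 0xb) (nat_lit 3) (.split (nat_lit 0xb) (nat_lit 4) (.split (nat_lit 0xb) (nat_lit 5) (.split (nat_lit 0xb) (nat_lit 6) (.split (nat_lit 0xb) (nat_lit 7) (.split (nat_lit 0xb) (nat_lit 8) (.split (nat_lit 0xb) (nat_lit 9) (.st (nat_lit 0xa) (nat_lit 1) (nat_lit 4) (nat_lit 0x515401) (nat_lit 0x100020000000200020002000100000000000000000001) (nat_lit 1) (nat_lit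 1) (.st (nat_lit 0xb) (nat_lit 2) (nat_lit 4) (nat_lit 0x515405) (nat_lit 0x200030000000400050006000300000000000000020004) (nat_lit 1) (nat_lit 1) (.split (nat_lit 0xb) (nat_lit 0xa) (.leaf (.cons (nat_lit 0x40154) (nat_lit 0x2000000000000000000010003000400030000) (.cons (nat_lit 0x40550) (nat_lit 0x3000000000000000300040002000100000000) (.cons (nat_lit 0x41500) (nat_lit 0x1000000000001000200020000000000000000) (.cons (nat_lit 0x5015) (nat_lit 0x10002000000000000000300040003) .nil)))) (.cons (nat_lit 0x1000011100) (nat_lit 0x100010) (nat_lit 2) (nat_lit 0x2000031000) (.cons (nat_lit 0x110111100011) (nat_lit 0x10100) (nat_lit 0xe) (nat_lit 0x760540100032) .nil))) (.non (nat_lit 1) (nat_lit 4) (nat_lit 0x915401) (nat_lit 0x100020000000200020002000100000000000000000001))))) (.non (nat_lit 1) (nat_lit 5) (nat_lit 0x555150) (nat_lit 0x500040006000300020001000000030004000200000000))) (.non (nat_lit 1) (nat_lit 4) (nat_lit 0x510000) (nat_lit 0x100010000000100000000000000000000000000000000))) (.non (nat_lit 1) (nat_lit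 4) (nat_lit 0x514000) (nat_lit 0x100010000000100010000000000000000000000000000))) (.non (nat_lit 1) (nat_lit 4) (nat_lit 0x515000) (nat_lit 0x100010000000100010001000000000000000000000000))) (.non (nat_lit 1) (nat_lit 4) (nat_lit 0x515400) (nat_lit 0x100010000000100010001000100000000000000000000))) (.non (nat_lit 2) (nat_lit 6) (nat_lit 0x440500) (nat_lit 0x100000001000000000000000200020000000000000000))) (.non (nat_lit 1) (nat_lit 4) (nat_lit 0x555451) (nat_lit 0x200020001000200020002000100000002000100000001))) (.non (nat_lit 0) (nat_lit 4) (nat_lit 0x510014) (nat_lit 0x300020000000100000000000000000000000400030000))) (.non (nat_lit 2) (nat_lit 4) (nat_lit 0x515005) (nat_lit 0x100010000000100010001000000000000000000010001))) (.non (nat_lit 1) (nat_lit 4) (nat_lit 0x515001) (nat_lit 0x100010000000100010001000000000000000000000001))))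

noncomputable def t757_24 : Tr := (.split (nat_lit 9) (nat_lit 4) (.pd (.cons (nat_lit 0) (nat_lit 4) (nat_lit 0) (nat_lit 0x3765502110) (nat_lit 0xf423ff423fb71aea2c289896500000b71aea2c280473700000) (.cons (nat_lit 2) (nat_lit 6) (nat_lit 0) (nat_lit 0x3770493000) (nat_lit 0x437a2f423fb71ae00000f423f54591174ea00000f423fb71ae) (.cons (nat_lit 3) (nat_lit 6) (nat_lit 0) (nat_lit 0x4770440100) (nat_lit 0xf423ff423fb71ae00000f423f1750000000f423f54591437a2) .nil))) (.split (nat_lit 6) (nat_lit 0) (.ex (nat_lit 8) (.leaf (.cons (nat_lit 0x40154) (nat_lit 0x2000000000000000000010003000400030000) (.cons (nat_lit 0x40550) (nat_lit 0x3000000000000000300040002000100000000) (.cons (nat_lit 0x41500) (nat_lit 0x1000000000001000200020000000000000000) (.cons (nat_lit 0x5015) (nat_lit 0x10002000000000000000300040003) .nil)))) (.cons (nat_lit 0x111100011) (nat_lit 0x10100) (nat_lit 0xc) (nat_lit 0x540100032) .nil)) (.split (nat_lit 0xa) (nat_lit 0) (.split (nat_lit 0xa) (nat_lit 1) (.split (nat_lit 0xa) (nat_lit 2) (.split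 (nat_lit 0xa) (nat_lit 3) (.split (nat_lit 0xa) (nat_lit 4) (.split (nat_lit 0xa) (nat_lit 5) (.split (nat_lit 0xa) (nat_lit 6) (.split (nat_lit 0xa) (nat_lit 7) (.split (nat_lit 0xa) (nat_lit 9) (.st (nat_lit 8) (nat_lit 1) (nat_lit 4) (nat_lit 0x115401) (nat_lit 0x10000000200020002000100000000000000000001) (nat_lit 1) (nat_lit 1) (.split (nat_lit 0xa) (nat_lit 8) t757_23 (.non (nat_lit 1) (nat_lit 4) (nat_lit 0x215401) (nat_lit 0x10000000200020002000100000000000000000001)))) (.non (nat_lit 1) (nat_lit 5) (nat_lit 0x155151) (nat_lit 0x50006000400030002000000030004000200000001))) (.non (nat_lit 1) (nat_lit 4) (nat_lit 0x114000) (nat_lit 0x10000000100010000000000000000000000000000))) (.non (nat_lit 1) (nat_lit 4) (nat_lit 0x115000) (nat_lit 0x10000000100010001000000000000000000000000))) (.non (nat_lit 1) (nat_lit 4) (nat_lit 0x115400) (nat_lit 0x10000000100010001000100000000000000000000))) (.non (nat_lit 2) (nat_lit 6) (nat_lit 0x140500) (nat_lit 0x10001000000000000000200020000000000000000))) (.non (nat_lit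 1) (nat_lit 4) (nat_lit 0x155451) (nat_lit 0x20001000200020002000100000002000100000001))) (.non (nat_lit 0) (nat_lit 4) (nat_lit 0x114014) (nat_lit 0x30000000200010000000000000000000400030000))) (.non (nat_lit 2) (nat_lit 4) (nat_lit 0x115005) (nat_lit 0x10000000100010001000000000000000000010001))) (.non (nat_lit 1) (nat_lit 4) (nat_lit 0x115001) (nat_lit 0x10000000100010001000000000000000000000001)))) (.non (nat_lit 1) (nat_lit 4) (nat_lit 0xa801) (nat_lit 0x10002000100000000000000000002)))) (.sup (nat_lit 0x50000000000000008000a0000000000000000) (nat_lit 0x20009000a0005)))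

noncomputable def t757_25 : Tr := (.ex (nat_lit 0xa) (.leaf (.cons (nat_lit 0x40054) (nat_lit 0x1000000000000000000000001000100010000) (.cons (nat_lit 0x40540) (nat_lit 0x1000000000000000100010001000000000000) (.cons (nat_lit 0x5015) (nat_lit 0x10002000000000000000300040003) (.cons (nat_lit 0x41500) (nat_lit 0x1000000000001000200020000000000000000) .nil)))) (.cons (nat_lit 0x1000011100) (nat_lit 0x100010) (nat_lit 0xf) (nat_lit 0x2000031000) (.cons (nat_lit 0x10111100011) (nat_lit 0x10100) (nat_lit 0xd) (nat_lit 0x60540100032) .nil))) (.split (nat_lit 0xb) (nat_lit 0) (.split (nat_lit 0xb) (nat_lit 1) (.split (nat_lit 0xb) (nat_lit 2) (.split (nat_lit 0xb) (nat_lit 3) (.split (nat_lit 0xb) (nat_lit 4) (.split (nat_lit 0xb) (nat_lit 5) (.split (nat_lit 0xb) (nat_lit 6) (.split (nat_lit 0xb) (nat_lit 7) (.split (nat_lit 0xb) (nat_lit 8) (.split (nat_lit 0xb) (nat_lit 9) (.st (nat_lit 0xa) (nat_lit 1) (nat_lit 4) (nat_lit 0x515401) (nat_lit 0x100020000000200020002000100000000000000000001) (nat_lit 1) (nat_lit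 1) (.st (nat_lit 0xb) (nat_lit 2) (nat_lit 4) (nat_lit 0x515405) (nat_lit 0x200030000000400050006000300000000000000020004) (nat_lit 1) (nat_lit 1) (.split (nat_lit 0xb) (nat_lit 0xa) (.leaf (.cons (nat_lit 0x40054) (nat_lit 0x1000000000000000000000001000100010000) (.cons (nat_lit 0x40540) (nat_lit 0x1000000000000000100010001000000000000) (.cons (nat_lit 0x5015) (nat_lit 0x10002000000000000000300040003) (.cons (nat_lit 0x41500) (nat_lit 0x1000000000001000200020000000000000000) .nil)))) (.cons (nat_lit 0x1000011100) (nat_lit 0x100010) (nat_lit 0xf) (nat_lit 0x2000031000) (.cons (nat_lit 0x110111100011) (nat_lit 0x10100) (nat_lit 0xe) (nat_lit 0x760540100032) .nil))) (.non (nat_lit 1) (nat_lit 4) (nat_lit 0x915401) (nat_lit 0x100020000000200020002000100000000000000000001))))) (.non (nat_lit 1) (nat_lit 4) (nat_lit 0xa80050) (nat_lit 0x200010003000000000000000000000004000200000000))) (.non (nat_lit 1) (nat_lit 4) (nat_lit 0x510000) (nat_lit 0x100010000000100000000000000000000000000000000))) (.non (nat_lit 1)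 (nat_lit 4) (nat_lit 0x514000) (nat_lit 0x100010000000100010000000000000000000000000000))) (.non (nat_lit 1) (nat_lit 4) (nat_lit 0x515000) (nat_lit 0x100010000000100010001000000000000000000000000))) (.non (nat_lit 1) (nat_lit 4) (nat_lit 0x515400) (nat_lit 0x100010000000100010001000100000000000000000000))) (.non (nat_lit 1) (nat_lit 5) (nat_lit 0x880250) (nat_lit 0x100000003000000000000000000020004000200000000))) (.non (nat_lit 1) (nat_lit 4) (nat_lit 0x480050) (nat_lit 0x100000001000000000000000000000002000100000000))) (.non (nat_lit 1) (nat_lit 4) (nat_lit 0x595451) (nat_lit 0x200020001000200020002000100000002000200000001))) (.non (nat_lit 2) (nat_lit 4) (nat_lit 0x515005) (nat_lit 0x100010000000100010001000000000000000000010001))) (.non (nat_lit 1) (nat_lit 4) (nat_lit 0x515001) (nat_lit 0x100010000000100010001000000000000000000000001))))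

noncomputable def t757_26 : Tr := (.split (nat_lit 9) (nat_lit 4) (.pd (.cons (nat_lit 3) (nat_lit 6) (nat_lit 0x110000000) (nat_lit 0x4780440100) (nat_lit 0xf423f000010000100000f423f1750000000f423f54591437a2) .nil) (.split (nat_lit 8) (nat_lit 7) (.split (nat_lit 6) (nat_lit 0) (.split (nat_lit 9) (nat_lit 3) (.ex (nat_lit 8) (.leaf (.cons (nat_lit 0x40054) (nat_lit 0x1000000000000000000000001000100010000) (.cons (nat_lit 0x40540) (nat_lit 0x1000000000000000100010001000000000000) (.cons (nat_lit 0x5015) (nat_lit 0x10002000000000000000300040003) (.cons (nat_lit 0x41500) (nat_lit 0x1000000000001000200020000000000000000) .nil)))) (.cons (nat_lit 0x111100011) (nat_lit 0x10100) (nat_lit 0xc) (nat_lit 0x540100032) .nil)) (.split (nat_lit 0xa) (nat_lit 0) (.split (nat_lit 0xa) (nat_lit 1) (.split (nat_lit 0xa) (nat_lit 2) (.split (nat_lit 0xa) (nat_lit 3) (.split (nat_lit 0xa) (nat_lit 4) (.split (nat_lit 0xa) (nat_lit 5) (.split (nat_lit 0xa) (nat_lit 6) (.split (nat_lit 0xa) (nat_lit 7) (.split (nat_lit 0xa)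 (nat_lit 9) (.st (nat_lit 8) (nat_lit 1) (nat_lit 4) (nat_lit 0x115401) (nat_lit 0x10000000200020002000100000000000000000001) (nat_lit 1) (nat_lit 1) (.split (nat_lit 0xa) (nat_lit 8) t757_25 (.non (nat_lit 1) (nat_lit 4) (nat_lit 0x215401) (nat_lit 0x10000000200020002000100000000000000000001)))) (.non (nat_lit 1) (nat_lit 4) (nat_lit 0x2a0050) (nat_lit 0x20003000100000000000000000004000200000000))) (.non (nat_lit 1) (nat_lit 4) (nat_lit 0x114000) (nat_lit 0x10000000100010000000000000000000000000000))) (.non (nat_lit 1) (nat_lit 4) (nat_lit 0x115000) (nat_lit 0x10000000100010001000000000000000000000000))) (.non (nat_lit 1) (nat_lit 4) (nat_lit 0x115400) (nat_lit 0x10000000100010001000100000000000000000000))) (.non (nat_lit 1) (nat_lit 5) (nat_lit 0x280250) (nat_lit 0x10003000000000000000000020004000200000000))) (.non (nat_lit 1) (nat_lit 4) (nat_lit 0x180050) (nat_lit 0x10001000000000000000000000002000100000000))) (.non (nat_lit 1) (nat_lit 4) (nat_lit 0x195451) (nat_lit 0x20001000200020002000100000002000200000001)))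 (.non (nat_lit 2) (nat_lit 4) (nat_lit 0x115005) (nat_lit 0x10000000100010001000000000000000000010001))) (.non (nat_lit 1) (nat_lit 4) (nat_lit 0x115001) (nat_lit 0x10000000100010001000000000000000000000001)))) (.non (nat_lit 1) (nat_lit 5) (nat_lit 0x40150) (nat_lit 0x2000000000000000000010002000100000000))) (.non (nat_lit 1) (nat_lit 4) (nat_lit 0xa801) (nat_lit 0x10002000100000000000000000002))) (.non (nat_lit 1) (nat_lit 4) (nat_lit 0x25401) (nat_lit 0x100020002000100000000000000000001)))) (.non (nat_lit 1) (nat_lit 5) (nat_lit 0x80140) (nat_lit 0x1000000000000000000010001000000000000)))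

noncomputable def t757_27 : Tr := (.split (nat_lit 0xc) (nat_lit 0) (.split (nat_lit 0xc) (nat_lit 1) (.split (nat_lit 0xc) (nat_lit 2) (.split (nat_lit 0xc) (nat_lit 3) (.split (nat_lit 0xc) (nat_lit 4) (.split (nat_lit 0xc) (nat_lit 5) (.split (nat_lit 0xc) (nat_lit 6) (.split (nat_lit 0xc) (nat_lit 7) (.split (nat_lit 0xc) (nat_lit 8) (.split (nat_lit 0xc) (nat_lit 9) (.split (nat_lit 0xc) (nat_lit 0xa) (.st (nat_lit 0xb) (nat_lit 1) (nat_lit 4) (nat_lit 0x1415401) (nat_lit 0x1000200000000000200020002000100000000000000000001) (nat_lit 1) (nat_lit 1) (.st (nat_lit 0xc) (nat_lit 2) (nat_lit 4) (nat_lit 0x1415405) (nat_lit 0x2000300000000000400050006000300000000000000020004) (nat_lit 1) (nat_lit 1) (.split (nat_lit 0xc) (nat_lit 0xb) (.leaf (.cons (nat_lit 0x140054) (nat_lit 0x10002000000000000000000000003000400030000) (.cons (nat_lit 0x140540) (nat_lit 0x10002000000000000000200020001000000000000) (.cons (nat_lit 0x5015) (nat_lit 0x10002000000000000000300040003) (.cons (nat_lit 0x41500) (nat_lit 0x1000000000001000200020000000000000000)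 .nil)))) (.cons (nat_lit 0x11000011100) (nat_lit 0x100010) (nat_lit 8) (nat_lit 0x20000013400) (.cons (nat_lit 0x1100111100011) (nat_lit 0x10100) (nat_lit 0xe) (nat_lit 0x7600540100032) .nil))) (.non (nat_lit 1) (nat_lit 4) (nat_lit 0x2415401) (nat_lit 0x1000200000000000200020002000100000000000000000001))))) (.non (nat_lit 1) (nat_lit 5) (nat_lit 0x1554150) (nat_lit 0x4000300050006000200010000000000030004000200000000))) (.non (nat_lit 1) (nat_lit 4) (nat_lit 0x1555050) (nat_lit 0x5000400030006000300020001000000000004000200000000))) (.non (nat_lit 1) (nat_lit 4) (nat_lit 0x1410000) (nat_lit 0x1000100000000000100000000000000000000000000000000))) (.non (nat_lit 1) (nat_lit 4) (nat_lit 0x1414000) (nat_lit 0x1000100000000000100010000000000000000000000000000))) (.non (nat_lit 1) (nat_lit 4) (nat_lit 0x1415000) (nat_lit 0x1000100000000000100010001000000000000000000000000))) (.non (nat_lit 1) (nat_lit 4) (nat_lit 0x1415400) (nat_lit 0x1000100000000000100010001000100000000000000000000))) (.non (nat_lit 1) (nat_lit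 5) (nat_lit 0x1554150) (nat_lit 0x4000300030006000200010000000000050004000200000000))) (.non (nat_lit 1) (nat_lit 4) (nat_lit 0x1555050) (nat_lit 0x5000400020004000300020001000000000006000300000000))) (.non (nat_lit 3) (nat_lit 6) (nat_lit 0x1410014) (nat_lit 0x3000200000000000100000000000000000000000400030000))) (.non (nat_lit 2) (nat_lit 4) (nat_lit 0x1415005) (nat_lit 0x1000100000000000100010001000000000000000000010001))) (.non (nat_lit 1) (nat_lit 4) (nat_lit 0x1415001) (nat_lit 0x1000100000000000100010001000000000000000000000001)))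

noncomputable def t757_28 : Tr := (.ex (nat_lit 8) (.leaf (.cons (nat_lit 0x140054) (nat_lit 0x10002000000000000000000000003000400030000) (.cons (nat_lit 0x140540) (nat_lit 0x10002000000000000000200020001000000000000) (.cons (nat_lit 0x5015) (nat_lit 0x10002000000000000000300040003) (.cons (nat_lit 0x41500) (nat_lit 0x1000000000001000200020000000000000000) .nil)))) (.cons (nat_lit 0x111100011) (nat_lit 0x10100) (nat_lit 0xc) (nat_lit 0x540100032) .nil)) (.split (nat_lit 0xb) (nat_lit 0) (.split (nat_lit 0xb) (nat_lit 1) (.split (nat_lit 0xb) (nat_lit 2) (.split (nat_lit 0xb) (nat_lit 3) (.split (nat_lit 0xb) (nat_lit 4) (.split (nat_lit 0xb) (nat_lit 5) (.split (nat_lit 0xb) (nat_lit 6) (.split (nat_lit 0xb) (nat_lit 7) (.split (nat_lit 0xb) (nat_lit 9) (.split (nat_lit 0xb) (nat_lit 0xa) (.st (nat_lit 8) (nat_lit 1) (nat_lit 4) (nat_lit 0x415401) (nat_lit 0x100000000000200020002000100000000000000000001) (nat_lit 1) (nat_lit 1) (.split (nat_lit 0xb) (nat_lit 8) (.ex (nat_lit 0xb) (.leaf (.cons (nat_lit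 0x140054) (nat_lit 0x10002000000000000000000000003000400030000) (.cons (nat_lit 0x140540) (nat_lit 0x10002000000000000000200020001000000000000) (.cons (nat_lit 0x5015) (nat_lit 0x10002000000000000000300040003) (.cons (nat_lit 0x41500) (nat_lit 0x1000000000001000200020000000000000000) .nil)))) (.cons (nat_lit 0x11000011100) (nat_lit 0x100010) (nat_lit 8) (nat_lit 0x20000013400) (.cons (nat_lit 0x100111100011) (nat_lit 0x10100) (nat_lit 0xd) (nat_lit 0x600540100032) .nil))) t757_27) (.non (nat_lit 1) (nat_lit 4) (nat_lit 0x815401) (nat_lit 0x100000000000200020002000100000000000000000001)))) (.non (nat_lit 1) (nat_lit 5) (nat_lit 0x555150) (nat_lit 0x400050006000300020001000000030004000200000000))) (.non (nat_lit 1) (nat_lit 4) (nat_lit 0x555450) (nat_lit 0x500030006000400030002000100000004000200000000))) (.non (nat_lit 1) (nat_lit 4) (nat_lit 0x414000) (nat_lit 0x100000000000100010000000000000000000000000000))) (.non (nat_lit 1) (nat_lit 4) (nat_lit 0x415000) (nat_lit 0x100000000000100010001000000000000000000000000)))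 (.non (nat_lit 1) (nat_lit 4) (nat_lit 0x415400) (nat_lit 0x100000000000100010001000100000000000000000000))) (.non (nat_lit 1) (nat_lit 5) (nat_lit 0x555150) (nat_lit 0x400030006000300020001000000050004000200000000))) (.non (nat_lit 1) (nat_lit 4) (nat_lit 0x555450) (nat_lit 0x500020004000400030002000100000006000300000000))) (.non (nat_lit 3) (nat_lit 6) (nat_lit 0x414014) (nat_lit 0x300000000000200010000000000000000000400030000))) (.non (nat_lit 2) (nat_lit 4) (nat_lit 0x415005) (nat_lit 0x100000000000100010001000000000000000000010001))) (.non (nat_lit 1) (nat_lit 4) (nat_lit 0x415001) (nat_lit 0x100000000000100010001000000000000000000000001))))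

noncomputable def t757_29 : Tr := (.split (nat_lit 0xe) (nat_lit 2) (.split (nat_lit 0xe) (nat_lit 3) (.split (nat_lit 0xe) (nat_lit 4) (.split (nat_lit 0xe) (nat_lit 5) (.split (nat_lit 0xe) (nat_lit 6) (.split (nat_lit 0xe) (nat_lit 7) (.split (nat_lit 0xe) (nat_lit 8) (.split (nat_lit 0xe) (nat_lit 9) (.split (nat_lit 0xe) (nat_lit 0xa) (.split (nat_lit 0xe) (nat_lit 0xb) (.split (nat_lit 0xe) (nat_lit 0xc) (.st (nat_lit 0xd) (nat_lit 1) (nat_lit 5) (nat_lit 0x14540140) (nat_lit 0x100020000000200020002000000000000000000010001000000000000) (nat_lit 1) (nat_lit 1) (.st (nat_lit 0xe) (nat_lit 1) (nat_lit 5) (nat_lit 0x14540150) (nat_lit 0x200030000000400050006000000000000000000030004000200000000) (nat_lit 1) (nat_lit 1) (.split (nat_lit 0xe) (nat_lit 0xd) (.leaf (.cons (nat_lit 0x140054) (nat_lit 0x10002000000000000000000000003000400030000) (.cons (nat_lit 0x540500) (nat_lit 0x100020003000000000000000300040000000000000000) (.cons (nat_lit 0x5015) (nat_lit 0x10002000000000000000300040003) .nil))) (.cons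 (nat_lit 0x110111000011100) (nat_lit 0x100010) (nat_lit 0xe) (nat_lit 0x760540000012300) (.cons (nat_lit 0x1000111100011) (nat_lit 0x10100) (nat_lit 0xd) (nat_lit 0x6000540100032) .nil))) (.non (nat_lit 1) (nat_lit 5) (nat_lit 0x24540140) (nat_lit 0x100020000000200020002000000000000000000010001000000000000))))) (.non (nat_lit 1) (nat_lit 5) (nat_lit 0x15540150) (nat_lit 0x200030001000400050006000000000000000000030004000200000000))) (.non (nat_lit 1) (nat_lit 4) (nat_lit 0x14400000) (nat_lit 0x100010000000100000000000000000000000000000000000000000000))) (.non (nat_lit 1) (nat_lit 4) (nat_lit 0x14500000) (nat_lit 0x100010000000100010000000000000000000000000000000000000000))) (.non (nat_lit 1) (nat_lit 4) (nat_lit 0x14540000) (nat_lit 0x100010000000100010001000000000000000000000000000000000000))) (.non (nat_lit 1) (nat_lit 4) (nat_lit 0x15555000) (nat_lit 0x500040003000300020001000600040002000000000000000000000000))) (.non (nat_lit 1) (nat_lit 4) (nat_lit 0x15555000) (nat_lit 0x500040002000300020001000400060003000000000000000000000000)))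 (.non (nat_lit 1) (nat_lit 4) (nat_lit 0x15415400) (nat_lit 0x300020001000100000000000200030004000200000000000000000000))) (.non (nat_lit 1) (nat_lit 4) (nat_lit 0x15015401) (nat_lit 0x200010001000000000000000200030004000300000000000000000002))) (.non (nat_lit 1) (nat_lit 5) (nat_lit 0x14540100) (nat_lit 0x100010000000100010001000000000000000000010000000000000000))) (.non (nat_lit 1) (nat_lit 4) (nat_lit 0x14540040) (nat_lit 0x100010000000100010001000000000000000000000001000000000000))) (.non (nat_lit 1) (nat_lit 4) (nat_lit 0x14540050) (nat_lit 0x100010000000100010001000000000000000000000001000100000000)))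

noncomputable def t757_30 : Tr := (.split (nat_lit 0xf) (nat_lit 4) (.split (nat_lit 0xf) (nat_lit 5) (.split (nat_lit 0xf) (nat_lit 6) (.split (nat_lit 0xf) (nat_lit 7) (.split (nat_lit 0xf) (nat_lit 8) (.split (nat_lit 0xf) (nat_lit 9) (.split (nat_lit 0xf) (nat_lit 0xa) (.split (nat_lit 0xf) (nat_lit 0xb) (.split (nat_lit 0xf) (nat_lit 0xc) (.split (nat_lit 0xf) (nat_lit 0xe) (.st (nat_lit 0xd) (nat_lit 1) (nat_lit 5) (nat_lit 0x44540140) (nat_lit 0x1000000020000000200020002000000000000000000010001000000000000) (nat_lit 1) (nat_lit 1) (.st (nat_lit 0xf) (nat_lit 1) (nat_lit 5) (nat_lit 0x44540150) (nat_lit 0x2000000030000000400050006000000000000000000030004000200000000) (nat_lit 1) (nat_lit 1) (.split (nat_lit 0xf) (nat_lit 0xd) (.leaf (.cons (nat_lit 0x140054) (nat_lit 0x10002000000000000000000000003000400030000) (.cons (nat_lit 0x540500) (nat_lit 0x100020003000000000000000300040000000000000000) (.cons (nat_lit 0x5015) (nat_lit 0x10002000000000000000300040003) .nil))) (.cons (nat_lit 0x1010111000011100)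 (nat_lit 0x100010) (nat_lit 0xe) (nat_lit 0x7060540000012300) (.cons (nat_lit 0x101000111100011) (nat_lit 0x10100) (nat_lit 0xe) (nat_lit 0x706000540100032) .nil))) (.non (nat_lit 1) (nat_lit 5) (nat_lit 0x84540140) (nat_lit 0x1000000020000000200020002000000000000000000010001000000000000))))) (.non (nat_lit 1) (nat_lit 5) (nat_lit 0x54540150) (nat_lit 0x2000100030000000400050006000000000000000000030004000200000000))) (.non (nat_lit 1) (nat_lit 4) (nat_lit 0x55554000) (nat_lit 0x5000300040006000300020001000400020000000000000000000000000000))) (.non (nat_lit 1) (nat_lit 4) (nat_lit 0x44400000) (nat_lit 0x1000000010000000100000000000000000000000000000000000000000000))) (.non (nat_lit 1) (nat_lit 4) (nat_lit 0x44500000) (nat_lit 0x1000000010000000100010000000000000000000000000000000000000000))) (.non (nat_lit 1) (nat_lit 4) (nat_lit 0x44540000) (nat_lit 0x1000000010000000100010001000000000000000000000000000000000000))) (.non (nat_lit 1) (nat_lit 4) (nat_lit 0x55554000) (nat_lit 0x5000200040004000300020001000600030000000000000000000000000000)))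 (.non (nat_lit 1) (nat_lit 4) (nat_lit 0x55415000) (nat_lit 0x3000100020002000100000000000300040002000000000000000000000000))) (.non (nat_lit 1) (nat_lit 4) (nat_lit 0x45415400) (nat_lit 0x3000000020001000100000000000200030004000200000000000000000000))) (.non (nat_lit 1) (nat_lit 4) (nat_lit 0x45015401) (nat_lit 0x2000000010001000000000000000200030004000300000000000000000002))) (.non (nat_lit 1) (nat_lit 5) (nat_lit 0x44540100) (nat_lit 0x1000000010000000100010001000000000000000000010000000000000000)))

noncomputable def t757_31 : Tr := (.split (nat_lit 0xe) (nat_lit 7) (.split (nat_lit 0xe) (nat_lit 8) (.split (nat_lit 0xe) (nat_lit 9) (.split (nat_lit 0xe) (nat_lit 0xa) (.split (nat_lit 0xe) (nat_lit 0xb) (.split (nat_lit 0xe) (nat_lit 0xd) (.st (nat_lit 0xc) (nat_lit 1) (nat_lit 4) (nat_lit 0x11015401) (nat_lit 0x100000002000000000000000200020002000100000000000000000001) (nat_lit 1) (nat_lit 1) (.st (nat_lit 0xe) (nat_lit 2) (nat_lit 4) (nat_lit 0x11015405) (nat_lit 0x200000003000000000000000400050006000300000000000000020004)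 (nat_lit 1) (nat_lit 1) (.split (nat_lit 0xe) (nat_lit 0xc) (.ex (nat_lit 0xd) (.leaf (.cons (nat_lit 0x140054) (nat_lit 0x10002000000000000000000000003000400030000) (.cons (nat_lit 0x540500) (nat_lit 0x100020003000000000000000300040000000000000000) (.cons (nat_lit 0x5015) (nat_lit 0x10002000000000000000300040003) .nil))) (.cons (nat_lit 0x10111000011100) (nat_lit 0x100010) (nat_lit 0xd) (nat_lit 0x60540000012300) (.cons (nat_lit 0x101000111100011) (nat_lit 0x10100) (nat_lit 0xe) (nat_lit 0x706000540100032) .nil))) (.split (nat_lit 0xf) (nat_lit 0) (.split (nat_lit 0xf) (nat_lit 1) (.split (nat_lit 0xf) (nat_lit 2) (.split (nat_lit 0xf) (nat_lit 3) t757_30 (.non (nat_lit 1) (nat_lit 4) (nat_lit 0x44540040) (nat_lit 0x1000000010000000100010001000000000000000000000001000000000000))) (.non (nat_lit 1) (nat_lit 4) (nat_lit 0x44540050) (nat_lit 0x1000000010000000100010001000000000000000000000001000100000000))) (.non (nat_lit 2) (nat_lit 4) (nat_lit 0x41015405) (nat_lit 0x1000000000001000000000000000200030004000200000000000000020003)))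 (.non (nat_lit 1) (nat_lit 4) (nat_lit 0x45015401) (nat_lit 0x2000000010001000000000000000200030004000200000000000000000003)))) (.non (nat_lit 1) (nat_lit 4) (nat_lit 0x21015401) (nat_lit 0x100000002000000000000000200020002000100000000000000000001))))) (.non (nat_lit 1) (nat_lit 5) (nat_lit 0x15540150) (nat_lit 0x200030001000400050006000000000000000000030004000200000000))) (.non (nat_lit 1) (nat_lit 4) (nat_lit 0x15555000) (nat_lit 0x500030004000600040002000300020001000000000000000000000000))) (.non (nat_lit 1) (nat_lit 4) (nat_lit 0x15555000) (nat_lit 0x500020004000400060003000300020001000000000000000000000000))) (.non (nat_lit 1) (nat_lit 4) (nat_lit 0x15550040) (nat_lit 0x300010002000200030004000100000000000000000002000000000000))) (.non (nat_lit 1) (nat_lit 4) (nat_lit 0x11010000) (nat_lit 0x100000001000000000000000100000000000000000000000000000000))) (.non (nat_lit 1) (nat_lit 4) (nat_lit 0x11014000) (nat_lit 0x100000001000000000000000100010000000000000000000000000000)))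

noncomputable def t757_32 : Tr := (.split (nat_lit 0xd) (nat_lit 0xa) (.split (nat_lit 0xd) (nat_lit 0xc) (.st (nat_lit 0xb) (nat_lit 1) (nat_lit 5) (nat_lit 0x4540140) (nat_lit 0x10000000200020002000000000000000000010001000000000000) (nat_lit 1) (nat_lit 1) (.split (nat_lit 0xd) (nat_lit 0xb) (.ex (nat_lit 0xc) (.ex (nat_lit 0xd) (.leaf (.cons (nat_lit 0x140054) (nat_lit 0x10002000000000000000000000003000400030000) (.cons (nat_lit 0x540500) (nat_lit 0x100020003000000000000000300040000000000000000) (.cons (nat_lit 0x5015) (nat_lit 0x10002000000000000000300040003) .nil))) (.cons (nat_lit 0x10111000011100) (nat_lit 0x100010) (nat_lit 0xd) (nat_lit 0x60540000012300) (.cons (nat_lit 0x1000111100011) (nat_lit 0x10100) (nat_lit 0xd) (nat_lit 0x6000540100032) .nil))) (.split (nat_lit 0xe) (nat_lit 0) (.split (nat_lit 0xe) (nat_lit 1) t757_29 (.non (nat_lit 2) (nat_lit 4) (nat_lit 0x11015405) (nat_lit 0x100000001000000000000000200030004000200000000000000020003))) (.non (nat_lit 1) (nat_lit 4) (nat_lit 0x15015401)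 (nat_lit 0x200010001000000000000000200030004000200000000000000000003)))) (.split (nat_lit 0xe) (nat_lit 0) (.split (nat_lit 0xe) (nat_lit 1) (.split (nat_lit 0xe) (nat_lit 2) (.split (nat_lit 0xe) (nat_lit 3) (.split (nat_lit 0xe) (nat_lit 4) (.split (nat_lit 0xe) (nat_lit 5) (.split (nat_lit 0xe) (nat_lit 6) t757_31 (.non (nat_lit 1) (nat_lit 4) (nat_lit 0x11015000) (nat_lit 0x100000001000000000000000100010001000000000000000000000000))) (.non (nat_lit 1) (nat_lit 4) (nat_lit 0x11015400) (nat_lit 0x100000001000000000000000100010001000100000000000000000000))) (.non (nat_lit 1) (nat_lit 5) (nat_lit 0x15540140) (nat_lit 0x200010001000200030004000000000000000000030002000000000000))) (.non (nat_lit 1) (nat_lit 4) (nat_lit 0x11550050) (nat_lit 0x300000002000100020003000100000000000000000004000200000000))) (.non (nat_lit 1) (nat_lit 5) (nat_lit 0x14540150) (nat_lit 0x100010000000200030004000000000000000000020003000200000000))) (.non (nat_lit 2) (nat_lit 4) (nat_lit 0x11015005) (nat_lit 0x100000001000000000000000100010001000000000000000000010001)))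 (.non (nat_lit 1) (nat_lit 4) (nat_lit 0x11015001) (nat_lit 0x100000001000000000000000100010001000000000000000000000001)))) (.non (nat_lit 1) (nat_lit 5) (nat_lit 0x8540140) (nat_lit 0x10000000200020002000000000000000000010001000000000000)))) (.non (nat_lit 1) (nat_lit 5) (nat_lit 0x5550150) (nat_lit 0x30002000400050006000100000000000000030004000200000000))) (.non (nat_lit 1) (nat_lit 4) (nat_lit 0x4500000) (nat_lit 0x10000000100010000000000000000000000000000000000000000)))

noncomputable def t757_33 : Tr := (.split (nat_lit 0xc) (nat_lit 9) (.split (nat_lit 0xc) (nat_lit 0xa) (.split (nat_lit 0xc) (nat_lit 0xb) (.st (nat_lit 8) (nat_lit 1) (nat_lit 4) (nat_lit 0x1015401) (nat_lit 0x1000000000000000200020002000100000000000000000001) (nat_lit 1) (nat_lit 1) (.split (nat_lit 0xc) (nat_lit 8) (.ex (nat_lit 0xb) (.leaf (.cons (nat_lit 0x140054) (nat_lit 0x10002000000000000000000000003000400030000) (.cons (nat_lit 0x540500) (nat_lit 0x100020003000000000000000300040000000000000000) (.cons (nat_lit 0x5015) (nat_lit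 0x10002000000000000000300040003) .nil))) (.cons (nat_lit 0x111000011100) (nat_lit 0x100010) (nat_lit 0xc) (nat_lit 0x540000012300) .nil)) (.split (nat_lit 0xd) (nat_lit 0) (.split (nat_lit 0xd) (nat_lit 1) (.split (nat_lit 0xd) (nat_lit 2) (.split (nat_lit 0xd) (nat_lit 3) (.split (nat_lit 0xd) (nat_lit 4) (.split (nat_lit 0xd) (nat_lit 5) (.split (nat_lit 0xd) (nat_lit 6) (.split (nat_lit 0xd) (nat_lit 7) (.split (nat_lit 0xd) (nat_lit 8) (.split (nat_lit 0xd) (nat_lit 9) t757_32 (.non (nat_lit 1) (nat_lit 4) (nat_lit 0x4540000) (nat_lit 0x10000000100010001000000000000000000000000000000000000))) (.non (nat_lit 1) (nat_lit 4) (nat_lit 0x5515400) (nat_lit 0x30002000200010000000400030002000100000000000000000000))) (.non (nat_lit 1) (nat_lit 4) (nat_lit 0x5415400) (nat_lit 0x20001000100000000000200030002000100000000000000000000))) (.non (nat_lit 1) (nat_lit 4) (nat_lit 0x5515400) (nat_lit 0x30001000200010000000200030004000200000000000000000000))) (.non (nat_lit 1) (nat_lit 4) (nat_lit 0x5415401) (nat_lit 0x20001000100000000000200030004000300000000000000000002)))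 (.non (nat_lit 1) (nat_lit 5) (nat_lit 0x4540100) (nat_lit 0x10000000100010001000000000000000000010000000000000000))) (.non (nat_lit 1) (nat_lit 4) (nat_lit 0x4540040) (nat_lit 0x10000000100010001000000000000000000000001000000000000))) (.non (nat_lit 1) (nat_lit 4) (nat_lit 0x4540050) (nat_lit 0x10000000100010001000000000000000000000001000100000000))) (.non (nat_lit 2) (nat_lit 4) (nat_lit 0x5015405) (nat_lit 0x10001000000000000000200030004000200000000000000020003))) (.non (nat_lit 1) (nat_lit 4) (nat_lit 0x5415401) (nat_lit 0x20001000100000000000200030004000200000000000000000003)))) (.non (nat_lit 1) (nat_lit 4) (nat_lit 0x2015401) (nat_lit 0x1000000000000000200020002000100000000000000000001)))) (.non (nat_lit 1) (nat_lit 5) (nat_lit 0x1554150) (nat_lit 0x3000400050006000200010000000000030004000200000000))) (.non (nat_lit 1) (nat_lit 4) (nat_lit 0x1555440) (nat_lit 0x5000300060004000400030002000100000002000000000000))) (.non (nat_lit 1) (nat_lit 4) (nat_lit 0x1555440) (nat_lit 0x5000200040006000400030002000100000003000000000000)))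

noncomputable def t757_34 : Tr := (.st (nat_lit 0xa) (nat_lit 1) (nat_lit 5) (nat_lit 0x540140) (nat_lit 0x100020002000000000000000000010001000000000000) (nat_lit 1) (nat_lit 1) (.split (nat_lit 8) (nat_lit 7) (.split (nat_lit 6) (nat_lit 0) (.split (nat_lit 0xb) (nat_lit 0xa) (.split (nat_lit 0xa) (nat_lit 9) (.split (nat_lit 9) (nat_lit 3) (.split (nat_lit 9) (nat_lit 4) (.ex (nat_lit 8) (.leaf (.cons (nat_lit 0x140054) (nat_lit 0x10002000000000000000000000003000400030000) (.cons (nat_lit 0x540500) (nat_lit 0x100020003000000000000000300040000000000000000) (.cons (nat_lit 0x5015) (nat_lit 0x10002000000000000000300040003) .nil))) (.cons (nat_lit 0x111100011) (nat_lit 0x10100) (nat_lit 0xc) (nat_lit 0x540100032) .nil)) (.split (nat_lit 0xc) (nat_lit 0) (.split (nat_lit 0xc) (nat_lit 1) (.split (nat_lit 0xc) (nat_lit 2) (.split (nat_lit 0xc) (nat_lit 3) (.split (nat_lit 0xc) (nat_lit 4) (.split (nat_lit 0xc) (nat_lit 5) (.split (nat_lit 0xc) (nat_lit 6) (.split (nat_lit 0xc) (nat_lit 7) t757_33 (.non (nat_lit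 1) (nat_lit 4) (nat_lit 0x1014000) (nat_lit 0x1000000000000000100010000000000000000000000000000))) (.non (nat_lit 1) (nat_lit 4) (nat_lit 0x1015000) (nat_lit 0x1000000000000000100010001000000000000000000000000))) (.non (nat_lit 1) (nat_lit 4) (nat_lit 0x1015400) (nat_lit 0x1000000000000000100010001000100000000000000000000))) (.non (nat_lit 1) (nat_lit 5) (nat_lit 0x1555140) (nat_lit 0x4000200040006000300020001000000050003000000000000))) (.non (nat_lit 1) (nat_lit 4) (nat_lit 0x1554050) (nat_lit 0x3000100020003000200010000000000000004000200000000))) (.non (nat_lit 1) (nat_lit 5) (nat_lit 0x1554150) (nat_lit 0x3000200040006000200010000000000030005000400000000))) (.non (nat_lit 2) (nat_lit 4) (nat_lit 0x1015005) (nat_lit 0x1000000000000000100010001000000000000000000010001))) (.non (nat_lit 1) (nat_lit 4) (nat_lit 0x1015001) (nat_lit 0x1000000000000000100010001000000000000000000000001)))) (.non (nat_lit 1) (nat_lit 5) (nat_lit 0x140240) (nat_lit 0x10002000000000000000000010001000000000000))) (.non (nat_lit 1)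 (nat_lit 4) (nat_lit 0xa80050) (nat_lit 0x100020003000000000000000000000004000200000000))) (.non (nat_lit 1) (nat_lit 4) (nat_lit 0xa40050) (nat_lit 0x100020003000000000000000000000002000100000000))) (.non (nat_lit 1) (nat_lit 5) (nat_lit 0x940140) (nat_lit 0x100020002000000000000000000010001000000000000))) (.non (nat_lit 1) (nat_lit 4) (nat_lit 0xa801) (nat_lit 0x10002000100000000000000000002))) (.non (nat_lit 1) (nat_lit 4) (nat_lit 0x25401) (nat_lit 0x100020002000100000000000000000001))))

noncomputable def t757_35 : Tr := (.split (nat_lit 0xa) (nat_lit 8) (.st (nat_lit 9) (nat_lit 1) (nat_lit 5) (nat_lit 0x140140) (nat_lit 0x10002000000000000000000010001000000000000) (nat_lit 1) (nat_lit 1) (.ex (nat_lit 0xa) (.split (nat_lit 9) (nat_lit 4) (.split (nat_lit 0xa) (nat_lit 9) (.pd (.cons (nat_lit 3) (nat_lit 6) (nat_lit 0x110000000) (nat_lit 0x94780440100) (nat_lit 0xf423fb71ae000010000100000f423f02f7a00000f423f54591437a2) .nil) (.split (nat_lit 8) (nat_lit 7) (.split (nat_lit 6) (nat_lit 0) (.split (nat_lit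 9) (nat_lit 3) t757_28 (.non (nat_lit 1) (nat_lit 5) (nat_lit 0x280240) (nat_lit 0x10002000000000000000000010002000000000000))) (.non (nat_lit 1) (nat_lit 4) (nat_lit 0xa801) (nat_lit 0x10002000100000000000000000002))) (.non (nat_lit 1) (nat_lit 4) (nat_lit 0x25401) (nat_lit 0x100020002000100000000000000000001)))) (.non (nat_lit 1) (nat_lit 5) (nat_lit 0x240140) (nat_lit 0x10002000000000000000000010001000000000000))) (.non (nat_lit 1) (nat_lit 5) (nat_lit 0x140240) (nat_lit 0x10002000000000000000000010001000000000000))) (.split (nat_lit 0xb) (nat_lit 0) (.split (nat_lit 0xb) (nat_lit 1) (.split (nat_lit 0xb) (nat_lit 2) (.split (nat_lit 0xb) (nat_lit 3) (.split (nat_lit 0xb) (nat_lit 4) (.split (nat_lit 0xb) (nat_lit 5) (.split (nat_lit 0xb) (nat_lit 6) (.split (nat_lit 0xb) (nat_lit 7) (.split (nat_lit 0xb) (nat_lit 8) (.split (nat_lit 0xb) (nat_lit 9) t757_34 (.non (nat_lit 1) (nat_lit 4) (nat_lit 0x540000) (nat_lit 0x100010001000000000000000000000000000000000000))) (.non (nat_lit 1) (nat_lit 5) (nat_lit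 0x555150) (nat_lit 0x400050006000300020001000000030004000200000000))) (.non (nat_lit 1) (nat_lit 4) (nat_lit 0x555450) (nat_lit 0x500040003000300060004000200000002000100000000))) (.non (nat_lit 1) (nat_lit 4) (nat_lit 0x555450) (nat_lit 0x500040003000200040006000300000002000100000000))) (.non (nat_lit 1) (nat_lit 4) (nat_lit 0x555441) (nat_lit 0x400030002000200040006000500000001000000000003))) (.non (nat_lit 1) (nat_lit 5) (nat_lit 0x540100) (nat_lit 0x100010001000000000000000000010000000000000000))) (.non (nat_lit 1) (nat_lit 4) (nat_lit 0x540040) (nat_lit 0x100010001000000000000000000000001000000000000))) (.non (nat_lit 1) (nat_lit 4) (nat_lit 0x540050) (nat_lit 0x100010001000000000000000000000001000100000000))) (.non (nat_lit 2) (nat_lit 4) (nat_lit 0x555405) (nat_lit 0x300020001000200040006000300000000000000040005))) (.non (nat_lit 1) (nat_lit 4) (nat_lit 0x555441) (nat_lit 0x400030002000200040006000300000001000000000005))))) (.non (nat_lit 1) (nat_lit 5) (nat_lit 0x155151) (nat_lit 0x50006000400030002000000030004000200000001)))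

noncomputable def t757_36 : Tr := (.ex (nat_lit 4) (.ex (nat_lit 9) (.split (nat_lit 9) (nat_lit 3) (.split (nat_lit 8) (nat_lit 7) t757_24 (.non (nat_lit 1) (nat_lit 4) (nat_lit 0x25401) (nat_lit 0x100020002000100000000000000000001))) t757_26) (.split (nat_lit 0xa) (nat_lit 0) (.split (nat_lit 0xa) (nat_lit 1) (.split (nat_lit 0xa) (nat_lit 2) (.split (nat_lit 0xa) (nat_lit 3) (.split (nat_lit 0xa) (nat_lit 4) (.split (nat_lit 0xa) (nat_lit 5) (.split (nat_lit 0xa) (nat_lit 6) (.split (nat_lit 0xa) (nat_lit 7) t757_35 (.non (nat_lit 1) (nat_lit 4) (nat_lit 0x115401) (nat_lit 0x10000000100020002000100000000000000000001))) (.non (nat_lit 1) (nat_lit 4) (nat_lit 0x105401) (nat_lit 0x10000000000010002000100000000000000000001))) (.non (nat_lit 1) (nat_lit 4) (nat_lit 0x155451) (nat_lit 0x40003000200040006000500000002000100000003))) (.non (nat_lit 1) (nat_lit 5) (nat_lit 0x140100) (nat_lit 0x10001000000000000000000010000000000000000))) (.non (nat_lit 1) (nat_lit 4) (nat_lit 0x140040) (nat_lit 0x10001000000000000000000000001000000000000)))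 (.non (nat_lit 1) (nat_lit 4) (nat_lit 0x140050) (nat_lit 0x10001000000000000000000000001000100000000))) (.non (nat_lit 2) (nat_lit 4) (nat_lit 0x155445) (nat_lit 0x30002000200040006000300000001000000040005))) (.non (nat_lit 1) (nat_lit 4) (nat_lit 0x155451) (nat_lit 0x40003000200040006000300000002000100000005)))) (.split (nat_lit 0xa) (nat_lit 0) (.split (nat_lit 0xa) (nat_lit 1) (.split (nat_lit 0xa) (nat_lit 2) (.split (nat_lit 0xa) (nat_lit 3) (.split (nat_lit 0xa) (nat_lit 5) (.split (nat_lit 0xa) (nat_lit 6) (.split (nat_lit 0xa) (nat_lit 7) (.split (nat_lit 0xa) (nat_lit 9) (.split (nat_lit 0xa) (nat_lit 8) (.sup (nat_lit 0x20009000a0005) (nat_lit 0x500020000000000000008000a0000000000000000)) (.unj (nat_lit 0x55) (nat_lit 0x1000200020001) (nat_lit 0x114500) (nat_lit 0x30000000200010000000300040000000000000000))) (.non (nat_lit 1) (nat_lit 5) (nat_lit 0x140100) (nat_lit 0x10001000000000000000000010000000000000000))) (.non (nat_lit 1) (nat_lit 4) (nat_lit 0x115401) (nat_lit 0x10000000100020002000100000000000000000001)))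 (.non (nat_lit 1) (nat_lit 4) (nat_lit 0x105401) (nat_lit 0x10000000000010002000100000000000000000001))) (.non (nat_lit 2) (nat_lit 4) (nat_lit 0x115405) (nat_lit 0x10000000100020003000200000000000000010002))) (.non (nat_lit 1) (nat_lit 5) (nat_lit 0x140140) (nat_lit 0x10001000000000000000000010001000000000000))) (.star (nat_lit 0xa) (nat_lit 2) (nat_lit 4))) (.star (nat_lit 0xa) (nat_lit 1) (nat_lit 4))) (.non (nat_lit 2) (nat_lit 4) (nat_lit 0x105405) (nat_lit 0x10000000000010002000100000000000000010002))))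

noncomputable def t757_37 : Tr := (.split (nat_lit 9) (nat_lit 8) (.ex (nat_lit 3) t757_36 (.split (nat_lit 0xa) (nat_lit 0) (.split (nat_lit 0xa) (nat_lit 1) (.split (nat_lit 0xa) (nat_lit 2) (.split (nat_lit 0xa) (nat_lit 4) (.split (nat_lit 0xa) (nat_lit 5) (.split (nat_lit 0xa) (nat_lit 6) (.split (nat_lit 0xa) (nat_lit 7) (.split (nat_lit 0xa) (nat_lit 8) (.split (nat_lit 0xa) (nat_lit 9) (.split (nat_lit 0xa) (nat_lit 3) (.split (nat_lit 9) (nat_lit 3) (.split (nat_lit 9) (nat_lit 4) (.sup (nat_lit 0x7000100000000000000000000000e001400100000) (nat_lit 0x5000a000f0014000f0000000000000000)) (.non (nat_lit 1) (nat_lit 5) (nat_lit 0x140250) (nat_lit 0x10002000000000000000000010002000100000000))) (.non (nat_lit 1) (nat_lit 4) (nat_lit 0x180050) (nat_lit 0x10001000000000000000000000002000100000000))) (.non (nat_lit 1) (nat_lit 4) (nat_lit 0x240050) (nat_lit 0x10001000000000000000000000002000100000000))) (.non (nat_lit 1) (nat_lit 4) (nat_lit 0x140040) (nat_lit 0x10001000000000000000000000001000000000000)))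 (.non (nat_lit 1) (nat_lit 4) (nat_lit 0x155451) (nat_lit 0x20001000200020002000100000002000100000001))) (.non (nat_lit 1) (nat_lit 4) (nat_lit 0x155050) (nat_lit 0x20001000100020001000000000002000100000000))) (.non (nat_lit 1) (nat_lit 4) (nat_lit 0x145450) (nat_lit 0x20001000000010002000100000002000100000000))) (.non (nat_lit 1) (nat_lit 4) (nat_lit 0x145451) (nat_lit 0x20001000000010002000200000002000100000001))) (.non (nat_lit 1) (nat_lit 5) (nat_lit 0x140140) (nat_lit 0x10001000000000000000000010001000000000000))) (.non (nat_lit 1) (nat_lit 4) (nat_lit 0x100050) (nat_lit 0x10000000000000000000000000001000100000000))) (.non (nat_lit 2) (nat_lit 4) (nat_lit 0x155445) (nat_lit 0x30001000200040006000300000002000000040005))) (.non (nat_lit 1) (nat_lit 4) (nat_lit 0x145451) (nat_lit 0x20001000000010002000100000002000100000002)))) (.st (nat_lit 3) (nat_lit 1) (nat_lit 4) (nat_lit 0x55451) (nat_lit 0x2000200020002000100000002000100000001) (nat_lit 1) (nat_lit 1) (.st (nat_lit 4) (nat_lit 1) (nat_lit 5) (nat_lit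 0x54150) (nat_lit 0x3000200010000000000020002000100000000) (nat_lit 1) (nat_lit 1) (.st (nat_lit 8) (nat_lit 1) (nat_lit 4) (nat_lit 0x55450) (nat_lit 0x3000400030002000100000002000100000000) (nat_lit 1) (nat_lit 2) (.st (nat_lit 9) (nat_lit 1) (nat_lit 4) (nat_lit 0x55441) (nat_lit 0x2000200020002000100000001000000000001) (nat_lit 1) (nat_lit 1) (.split (nat_lit 9) (nat_lit 3) (.split (nat_lit 9) (nat_lit 8) (.split (nat_lit 8) (nat_lit 7) (.split (nat_lit 6) (nat_lit 0) (.split (nat_lit 9) (nat_lit 4) (.leaf (.cons (nat_lit 0x50054) (nat_lit 0x2000100000000000000000003000400030000) (.cons (nat_lit 0x41500) (nat_lit 0x1000000000001000200020000000000000000) (.cons (nat_lit 0x54500) (nat_lit 0x3000200010000000300040000000000000000) (.cons (nat_lit 0x5015) (nat_lit 0x10002000000000000000300040003) .nil)))) (.cons (nat_lit 0x1111011101) (nat_lit 0x100010) (nat_lit 0xe) (nat_lit 0x456012307) (.cons (nat_lit 0x1111101011) (nat_lit 0x10100) (nat_lit 0xe) (nat_lit 0x6540107032) .nil))) (.non (nat_lit 1) (nat_lit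 5) (nat_lit 0x50240) (nat_lit 0x2000100000000000000010001000000000000))) (.non (nat_lit 1) (nat_lit 4) (nat_lit 0xa801) (nat_lit 0x10002000100000000000000000002))) (.non (nat_lit 1) (nat_lit 4) (nat_lit 0xa5400) (nat_lit 0x1000200030002000100000000000000000000))) (.non (nat_lit 1) (nat_lit 4) (nat_lit 0x6a040) (nat_lit 0x4000300020001000000000002000000000000))) (.non (nat_lit 1) (nat_lit 4) (nat_lit 0xa8050) (nat_lit 0x3000200010000000000000004000200000000))))))))

noncomputable def t757_38 : Tr := (.ex (nat_lit 2) (.ex (nat_lit 3) (.split (nat_lit 8) (nat_lit 7) (.pd (.cons (nat_lit 0) (nat_lit 4) (nat_lit 0) (nat_lit 0x765502110) (nat_lit 0xf423fb71aea2c289896500000f423fb71ae1f15600000) (.cons (nat_lit 0) (nat_lit 5) (nat_lit 0) (nat_lit 0x766042110) (nat_lit 0xf423fb71aea2c2800000f423ff423fb71ae1f15600000) .nil)) t757_21) (.non (nat_lit 1) (nat_lit 4) (nat_lit 0x25401) (nat_lit 0x100020002000100000000000000000001))) (.split (nat_lit 9) (nat_lit 0) (.split (nat_lit 9) (nat_lit 2) (.split (nat_lit 9) (nat_lit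 5) (.split (nat_lit 9) (nat_lit 6) (.split (nat_lit 9) (nat_lit 7) (.split (nat_lit 9) (nat_lit 1) (.split (nat_lit 9) (nat_lit 4) (.split (nat_lit 9) (nat_lit 8) (.split (nat_lit 9) (nat_lit 3) (.split (nat_lit 8) (nat_lit 7) (.split (nat_lit 6) (nat_lit 0) (.sup (nat_lit 0x40007000b0010000d0000000000000000) (nat_lit 0x500000000000000000000000a0010000d0001)) (.non (nat_lit 1) (nat_lit 4) (nat_lit 0xa801) (nat_lit 0x10002000100000000000000000002))) (.non (nat_lit 1) (nat_lit 4) (nat_lit 0x25401) (nat_lit 0x100020002000100000000000000000001))) (.unj (nat_lit 0x40054) (nat_lit 0x1000000000000000000000001000100010000) (nat_lit 0x15500) (nat_lit 0x100020003000400030000000000000000))) (.st (nat_lit 3) (nat_lit 1) (nat_lit 4) (nat_lit 0x55451) (nat_lit 0x2000200020002000100000002000100000001) (nat_lit 1) (nat_lit 1) (.st (nat_lit 9) (nat_lit 1) (nat_lit 4) (nat_lit 0x55441) (nat_lit 0x2000200020002000100000001000000000001) (nat_lit 1) (nat_lit 1) (.st (nat_lit 8) (nat_lit 1) (nat_lit 4) (nat_lit 0x55450) (nat_lit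 0x3000400030002000100000002000100000000) (nat_lit 1) (nat_lit 2) t757_22)))) t757_37) (.split (nat_lit 9) (nat_lit 4) (.split (nat_lit 9) (nat_lit 8) (.unj (nat_lit 0x40054) (nat_lit 0x1000000000000000000000001000100010000) (nat_lit 0x15500) (nat_lit 0x100020003000400030000000000000000)) (.non (nat_lit 2) (nat_lit 4) (nat_lit 0x55005) (nat_lit 0x1000100010001000000000000000000010001))) (.star (nat_lit 9) (nat_lit 1) (nat_lit 4)))) (.non (nat_lit 1) (nat_lit 4) (nat_lit 0x55401) (nat_lit 0x1000100020002000100000000000000000001))) (.non (nat_lit 1) (nat_lit 4) (nat_lit 0x45401) (nat_lit 0x1000000010002000100000000000000000001))) (.non (nat_lit 2) (nat_lit 4) (nat_lit 0x55405) (nat_lit 0x1000100020003000200000000000000010002))) (.non (nat_lit 1) (nat_lit 4) (nat_lit 0x40050) (nat_lit 0x1000000000000000000000001000100000000))) (.non (nat_lit 2) (nat_lit 4) (nat_lit 0x45405) (nat_lit 0x1000000010002000100000000000000010002)))) (.split (nat_lit 9) (nat_lit 0) (.split (nat_lit 9) (nat_lit 3) (.split (nat_lit 9)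 (nat_lit 4) (.split (nat_lit 9) (nat_lit 5) (.split (nat_lit 9) (nat_lit 6) (.split (nat_lit 9) (nat_lit 7) (.split (nat_lit 9) (nat_lit 1) (.split (nat_lit 9) (nat_lit 8) (.unj (nat_lit 0x40054) (nat_lit 0x1000000000000000000000001000200020000) (nat_lit 0x15500) (nat_lit 0x100020003000400030000000000000000)) (.sup (nat_lit 0x3000000000000000000000003000500030000) (nat_lit 0x20003000500040000000000000001))) (.split (nat_lit 9) (nat_lit 8) (.unj (nat_lit 0x40014) (nat_lit 0x1000000000000000000000000000100010000) (nat_lit 0x15500) (nat_lit 0x100020003000400030000000000000000)) (.non (nat_lit 2) (nat_lit 4) (nat_lit 0x55005) (nat_lit 0x1000100010001000000000000000000010001)))) (.non (nat_lit 1) (nat_lit 4) (nat_lit 0x55401) (nat_lit 0x1000100020002000100000000000000000001))) (.non (nat_lit 1) (nat_lit 4) (nat_lit 0x45401) (nat_lit 0x1000000010002000100000000000000000001))) (.star (nat_lit 9) (nat_lit 2) (nat_lit 5))) (.star (nat_lit 9) (nat_lit 2) (nat_lit 4))) (.non (nat_lit 1) (nat_lit 4) (nat_lit 0x40050)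 (nat_lit 0x1000000000000000000000001000100000000))) (.non (nat_lit 2) (nat_lit 4) (nat_lit 0x45405) (nat_lit 0x1000000010002000100000000000000010002))))

noncomputable def t757_39 : Tr := (.split (nat_lit 6) (nat_lit 0) (.split (nat_lit 6) (nat_lit 3) .uj (.st (nat_lit 3) (nat_lit 1) (nat_lit 4) (nat_lit 0x5450) (nat_lit 0x10002000100000002000100000000) (nat_lit 1) (nat_lit 1) (.st (nat_lit 5) (nat_lit 1) (nat_lit 4) (nat_lit 0x15450) (nat_lit 0x100020003000200000002000100000000) (nat_lit 1) (nat_lit 1) (.st (nat_lit 6) (nat_lit 1) (nat_lit 4) (nat_lit 0x5440) (nat_lit 0x10002000100000001000000000000) (nat_lit 1) (nat_lit 1) (.st (nat_lit 7) (nat_lit 1) (nat_lit 4) (nat_lit 0x15440) (nat_lit 0x100020002000100000001000000000000) (nat_lit 1) (nat_lit 1) (.ex (nat_lit 0) t757_2 (.split (nat_lit 9) (nat_lit 1) (.split (nat_lit 9) (nat_lit 3) (.split (nat_lit 9) (nat_lit 5) (.split (nat_lit 9) (nat_lit 6) (.split (nat_lit 9) (nat_lit 7) t757_20 (.non (nat_lit 1) (nat_lit 4) (nat_lit 0x55440) (nat_lit 0x1000100020002000100000001000000000000)))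 (.non (nat_lit 1) (nat_lit 4) (nat_lit 0x45440) (nat_lit 0x1000000010002000100000001000000000000))) (.non (nat_lit 1) (nat_lit 4) (nat_lit 0x55450) (nat_lit 0x1000100020003000200000002000100000000))) (.non (nat_lit 1) (nat_lit 4) (nat_lit 0x45450) (nat_lit 0x1000000010002000100000002000100000000))) (.non (nat_lit 2) (nat_lit 4) (nat_lit 0x40005) (nat_lit 0x1000000000000000000000000000000010001))))))))) (.split (nat_lit 6) (nat_lit 3) (.st (nat_lit 0) (nat_lit 2) (nat_lit 4) (nat_lit 0x5405) (nat_lit 0x10002000100000000000000010002) (nat_lit 1) (nat_lit 1) (.st (nat_lit 5) (nat_lit 2) (nat_lit 4) (nat_lit 0x15405) (nat_lit 0x100020003000200000000000000010002) (nat_lit 1) (nat_lit 1) (.st (nat_lit 6) (nat_lit 1) (nat_lit 4) (nat_lit 0x5401) (nat_lit 0x10002000100000000000000000001) (nat_lit 1) (nat_lit 1) (.st (nat_lit 7) (nat_lit 1) (nat_lit 4) (nat_lit 0x15401) (nat_lit 0x100020002000100000000000000000001) (nat_lit 1) (nat_lit 1) (.ex (nat_lit 1) t757_38 (.split (nat_lit 9) (nat_lit 0) (.split (nat_lit 9)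 (nat_lit 4) (.split (nat_lit 9) (nat_lit 5) (.split (nat_lit 9) (nat_lit 6) (.split (nat_lit 9) (nat_lit 7) (.split (nat_lit 9) (nat_lit 8) (.split (nat_lit 9) (nat_lit 2) (.split (nat_lit 9) (nat_lit 3) (.unj (nat_lit 0x40054) (nat_lit 0x1000000000000000000000001000200020000) (nat_lit 0x15500) (nat_lit 0x100020003000400030000000000000000)) (.unj (nat_lit 0x40054) (nat_lit 0x1000000000000000000000001000100010000) (nat_lit 0x15500) (nat_lit 0x100020003000400030000000000000000))) (.split (nat_lit 9) (nat_lit 3) (.unj (nat_lit 0x40014) (nat_lit 0x1000000000000000000000000000100010000) (nat_lit 0x15500) (nat_lit 0x100020003000400030000000000000000)) (.non (nat_lit 1) (nat_lit 4) (nat_lit 0x40050) (nat_lit 0x1000000000000000000000001000100000000)))) (.non (nat_lit 2) (nat_lit 4) (nat_lit 0x55005) (nat_lit 0x1000100010001000000000000000000010001))) (.non (nat_lit 1) (nat_lit 4) (nat_lit 0x55401) (nat_lit 0x1000100020002000100000000000000000001))) (.non (nat_lit 1) (nat_lit 4) (nat_lit 0x45401) (nat_lit 0x1000000010002000100000000000000000001)))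 (.star (nat_lit 9) (nat_lit 1) (nat_lit 5))) (.star (nat_lit 9) (nat_lit 1) (nat_lit 4))) (.non (nat_lit 2) (nat_lit 4) (nat_lit 0x40005) (nat_lit 0x1000000000000000000000000000000010001)))))))) (.non (nat_lit 1) (nat_lit 4) (nat_lit 0x5441) (nat_lit 0x10002000100000001000000000001))))

noncomputable def t757_40 : Tr := (.ex (nat_lit 5) (.split (nat_lit 7) (nat_lit 3) (.pd (.cons (nat_lit 0) (nat_lit 7) (nat_lit 0) (nat_lit 0x805442110) (nat_lit 0xf423f00000f423fb71ae1f156f423fb71ae1f15600000) (.cons (nat_lit 1) (nat_lit 6) (nat_lit 0) (nat_lit 0x730442200) (nat_lit 0xf423fb71ae00000f423f54591a2c289896500000f423f) (.cons (nat_lit 1) (nat_lit 7) (nat_lit 0) (nat_lit 0x805442200) (nat_lit 0xf423f00000f423fb71ae1f156f423fb71ae00000f423f) (.cons (nat_lit 2) (nat_lit 6) (nat_lit 0) (nat_lit 0x730443000) (nat_lit 0xf423fb71ae00000f423f54591a2c2800000f423fb71ae) (.cons (nat_lit 2) (nat_lit 7) (nat_lit 0) (nat_lit 0x805443000) (nat_lit 0xf423f00000f423fb71ae1f156f423f00000f423fb71ae) (.cons (nat_lit 3) (nat_lit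 6) (nat_lit 0) (nat_lit 0x770440100) (nat_lit 0xf423fb71ae00000f423f5459100000f423f54591437a2) (.cons (nat_lit 3) (nat_lit 7) (nat_lit 0) (nat_lit 0x805440100) (nat_lit 0xf423f00000f423fb71ae1f15600000f423f54591437a2) (.cons (nat_lit 3) (nat_lit 8) (nat_lit 0) (nat_lit 0x65440100) (nat_lit 0xf423fb71aea2c280473700000f423f54591437a2) .nil)))))))) (.leaf (.cons (nat_lit 0x14054) (nat_lit 0x100020000000000000003000400030000) (.cons (nat_lit 0x5540) (nat_lit 0x20003000400030001000000000000) .nil)) (.cons (nat_lit 0x111001100) (nat_lit 0x100010) (nat_lit 8) (nat_lit 0x201003400) (.cons (nat_lit 0x110001100) (nat_lit 0x1000010) (nat_lit 2) (nat_lit 0x320001000) (.cons (nat_lit 0x110001000) (nat_lit 0x1000100) (nat_lit 1) (nat_lit 0x210000000) .nil))))) (.non (nat_lit 1) (nat_lit 4) (nat_lit 0x2a040) (nat_lit 0x100020001000000000002000000000000))) (.split (nat_lit 9) (nat_lit 0) (.split (nat_lit 9) (nat_lit 1) (.split (nat_lit 9) (nat_lit 2) (.split (nat_lit 9) (nat_lit 3) (.split (nat_lit 9) (nat_lit 6) (.split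 (nat_lit 9) (nat_lit 7) (.split (nat_lit 9) (nat_lit 8) (.split (nat_lit 9) (nat_lit 4) (.unj (nat_lit 0x55) (nat_lit 0x1000200020001) (nat_lit 0x41500) (nat_lit 0x1000000000001000200020000000000000000)) (.unj (nat_lit 0x40500) (nat_lit 0x1000000000000000100010000000000000000) (nat_lit 0x55) (nat_lit 0x1000200020001))) (.non (nat_lit 1) (nat_lit 4) (nat_lit 0x55400) (nat_lit 0x1000100010001000100000000000000000000))) (.non (nat_lit 1) (nat_lit 4) (nat_lit 0x45400) (nat_lit 0x1000000010001000100000000000000000000))) (.non (nat_lit 1) (nat_lit 4) (nat_lit 0x41400) (nat_lit 0x1000000000001000100000000000000000000))) (.non (nat_lit 1) (nat_lit 4) (nat_lit 0x45440) (nat_lit 0x1000000010001000100000001000000000000))) (.star (nat_lit 9) (nat_lit 2) (nat_lit 5))) (.star (nat_lit 9) (nat_lit 1) (nat_lit 5))) (.non (nat_lit 3) (nat_lit 4) (nat_lit 0x40415) (nat_lit 0x2000000000000000100000000000300040003))))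

noncomputable def t757_41 : Tr := (.ex (nat_lit 2) (.split (nat_lit 8) (nat_lit 7) (.pd (.cons (nat_lit 3) (nat_lit 4) (nat_lit 0) (nat_lit 0x765500100) (nat_lit 0xf423fb71aea2c28989650000000000f423f54591437a2) (.cons (nat_lit 3) (nat_lit 5) (nat_lit 0) (nat_lit 0x766040100) (nat_lit 0xf423fb71aea2c2800000f423f00000f423f54591437a2) .nil)) (.ex (nat_lit 4) t757_40 (.split (nat_lit 9) (nat_lit 0) (.split (nat_lit 9) (nat_lit 1) (.split (nat_lit 9) (nat_lit 2) (.split (nat_lit 9) (nat_lit 3) (.split (nat_lit 9) (nat_lit 6) (.split (nat_lit 9) (nat_lit 7) (.split (nat_lit 9) (nat_lit 8) (.split (nat_lit 9) (nat_lit 5) (.unj (nat_lit 0x55) (nat_lit 0x1000200020001) (nat_lit 0x41500) (nat_lit 0x1000000000001000200020000000000000000)) (.unj (nat_lit 0x40500) (nat_lit 0x1000000000000000100010000000000000000) (nat_lit 0x55) (nat_lit 0x1000200020001))) (.non (nat_lit 1) (nat_lit 4) (nat_lit 0x55450) (nat_lit 0x1000200030002000100000002000100000000))) (.non (nat_lit 1) (nat_lit 4) (nat_lit 0x55040) (nat_lit 0x1000100020001000000000001000000000000)))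 (.non (nat_lit 1) (nat_lit 4) (nat_lit 0x55440) (nat_lit 0x1000100020002000100000001000000000000))) (.non (nat_lit 1) (nat_lit 4) (nat_lit 0x55050) (nat_lit 0x1000100020001000000000002000100000000))) (.star (nat_lit 9) (nat_lit 2) (nat_lit 4))) (.star (nat_lit 9) (nat_lit 1) (nat_lit 4))) (.non (nat_lit 3) (nat_lit 5) (nat_lit 0x40115) (nat_lit 0x2000000000000000000010000000300040003))))) (.non (nat_lit 1) (nat_lit 4) (nat_lit 0x25040) (nat_lit 0x100020001000000000001000000000000))) (.split (nat_lit 9) (nat_lit 3) (.split (nat_lit 9) (nat_lit 4) (.split (nat_lit 9) (nat_lit 5) (.split (nat_lit 9) (nat_lit 6) (.split (nat_lit 9) (nat_lit 7) (.split (nat_lit 9) (nat_lit 8) (.split (nat_lit 9) (nat_lit 0) (.split (nat_lit 9) (nat_lit 1) (.unj (nat_lit 0x40015) (nat_lit 0x1000000000000000000000000000200020001) (nat_lit 0x15500) (nat_lit 0x100020003000400030000000000000000)) (.unj (nat_lit 0x40014) (nat_lit 0x1000000000000000000000000000100010000) (nat_lit 0x15500) (nat_lit 0x100020003000400030000000000000000)))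 (.split (nat_lit 9) (nat_lit 1) (.unj (nat_lit 0x40015) (nat_lit 0x1000000000000000000000000000100010001) (nat_lit 0x15500) (nat_lit 0x100020003000400030000000000000000)) (.non (nat_lit 2) (nat_lit 4) (nat_lit 0x40005) (nat_lit 0x1000000000000000000000000000000010001)))) (.non (nat_lit 1) (nat_lit 4) (nat_lit 0x54050) (nat_lit 0x1000100010000000000000001000100000000))) (.non (nat_lit 1) (nat_lit 4) (nat_lit 0x55040) (nat_lit 0x1000100020001000000000001000000000000))) (.non (nat_lit 1) (nat_lit 4) (nat_lit 0x55440) (nat_lit 0x1000100020002000100000001000000000000))) (.star (nat_lit 9) (nat_lit 2) (nat_lit 5))) (.star (nat_lit 9) (nat_lit 2) (nat_lit 4))) (.non (nat_lit 1) (nat_lit 4) (nat_lit 0x40050) (nat_lit 0x1000000000000000000000001000100000000))))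

noncomputable def t757_42 : Tr := (.ex (nat_lit 0) (.ex (nat_lit 1) t757_41 (.split (nat_lit 9) (nat_lit 0) (.split (nat_lit 9) (nat_lit 3) (.split (nat_lit 9) (nat_lit 4) (.split (nat_lit 9) (nat_lit 5) (.split (nat_lit 9) (nat_lit 6) (.split (nat_lit 9) (nat_lit 7) (.split (nat_lit 9) (nat_lit 8) (.split (nat_lit 9) (nat_lit 2) (.unj (nat_lit 0x40015) (nat_lit 0x1000000000000000000000000000200020001) (nat_lit 0x15500) (nat_lit 0x100020003000400030000000000000000)) (.unj (nat_lit 0x40014) (nat_lit 0x1000000000000000000000000000100010000) (nat_lit 0x15500) (nat_lit 0x100020003000400030000000000000000))) (.non (nat_lit 1) (nat_lit 4) (nat_lit 0x55450) (nat_lit 0x1000200030002000100000002000100000000))) (.non (nat_lit 1) (nat_lit 4) (nat_lit 0x55040) (nat_lit 0x1000100020001000000000001000000000000))) (.non (nat_lit 1) (nat_lit 4) (nat_lit 0x55440) (nat_lit 0x1000100020002000100000001000000000000))) (.star (nat_lit 9) (nat_lit 1) (nat_lit 5))) (.star (nat_lit 9) (nat_lit 1) (nat_lit 4))) (.non (nat_lit 1)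 (nat_lit 4) (nat_lit 0x55050) (nat_lit 0x1000100020001000000000002000100000000))) (.non (nat_lit 2) (nat_lit 4) (nat_lit 0x40005) (nat_lit 0x1000000000000000000000000000000010001)))) (.split (nat_lit 9) (nat_lit 1) (.split (nat_lit 9) (nat_lit 3) (.split (nat_lit 9) (nat_lit 6) (.split (nat_lit 9) (nat_lit 7) (.split (nat_lit 9) (nat_lit 8) (.split (nat_lit 9) (nat_lit 2) (.split (nat_lit 9) (nat_lit 4) (.split (nat_lit 9) (nat_lit 5) (.sup (nat_lit 0x7000e00170020001a0000000000000000) (nat_lit 0x700000000000000000000000100110014000d)) (.sup (nat_lit 0x5000a00090002) (nat_lit 0x2000000000005000a00080000000000000000))) (.split (nat_lit 9) (nat_lit 5) (.split (nat_lit 9) (nat_lit 0) (.sup (nat_lit 0x5000a00090002) (nat_lit 0x2000000000005000a00090000000000000000)) (.split (nat_lit 9) (nat_lit 0) (.sup (nat_lit 0x5000a00090002) (nat_lit 0x2000000000005000a00090000000000000000)) (.non (nat_lit 2) (nat_lit 5) (nat_lit 0x40105) (nat_lit 0x2000000000000000000010000000000010002)))) (.unj (nat_lit 0x40500) (nat_lit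 0x1000000000000000100010000000000000000) (nat_lit 0x14054) (nat_lit 0x100020000000000000003000400030000)))) (.split (nat_lit 9) (nat_lit 4) (.split (nat_lit 9) (nat_lit 5) (.unj (nat_lit 0x40015) (nat_lit 0x1000000000000000000000000000100010001) (nat_lit 0x15500) (nat_lit 0x100020003000400030000000000000000)) (.star (nat_lit 9) (nat_lit 2) (nat_lit 5))) (.star (nat_lit 9) (nat_lit 2) (nat_lit 4)))) (.non (nat_lit 1) (nat_lit 4) (nat_lit 0x55450) (nat_lit 0x1000200030002000100000002000100000000))) (.non (nat_lit 1) (nat_lit 4) (nat_lit 0x55040) (nat_lit 0x1000100020001000000000001000000000000))) (.non (nat_lit 1) (nat_lit 4) (nat_lit 0x55440) (nat_lit 0x1000100020002000100000001000000000000))) (.non (nat_lit 1) (nat_lit 4) (nat_lit 0x55050) (nat_lit 0x1000100020001000000000002000100000000))) (.non (nat_lit 2) (nat_lit 4) (nat_lit 0x40005) (nat_lit 0x1000000000000000000000000000000010001))))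

noncomputable def t757_43 : Tr := (.ex (nat_lit 5) (.split (nat_lit 7) (nat_lit 2) (.split (nat_lit 8) (nat_lit 7) (.pd (.cons (nat_lit 0) (nat_lit 7) (nat_lit 0) (nat_lit 0x805442110) (nat_lit 0xf423f00000f423fb71ae1f156f423fb71ae1f15600000) (.cons (nat_lit 1) (nat_lit 6) (nat_lit 0) (nat_lit 0x720442200) (nat_lit 0xf423fb71ae00000f423f54591f423f65b9700000f423f) (.cons (nat_lit 1) (nat_lit 7) (nat_lit 0) (nat_lit 0x805442200) (nat_lit 0xf423f00000f423fb71ae1f156f423fb71ae00000f423f) (.cons (nat_lit 2) (nat_lit 6) (nat_lit 0) (nat_lit 0x770443000) (nat_lit 0xf423fb71ae00000f423f54591f423f00000f423fb71ae) (.cons (nat_lit 2) (nat_lit 7) (nat_lit 0) (nat_lit 0x805443000) (nat_lit 0xf423f00000f423fb71ae1f156f423f00000f423fb71ae) (.cons (nat_lit 2) (nat_lit 8) (nat_lit 0) (nat_lit 0x65443000) (nat_lit 0xf423fb71aea2c2804737f423f00000f423fb71ae) (.cons (nat_lit 3) (nat_lit 7) (nat_lit 0) (nat_lit 0x805440100) (nat_lit 0xf423f00000f423fb71ae1f15600000f423f54591437a2) .nil))))))) (.leaf (.cons (nat_lit 0x15014)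 (nat_lit 0x100020001000000000000000200020000) (.cons (nat_lit 0x4054) (nat_lit 0x10000000000000001000200020000) (.cons (nat_lit 0x5510) (nat_lit 0x20003000400030000000100000000) (.cons (nat_lit 0x4015) (nat_lit 0x10000000000000000000200020001) .nil)))) (.cons (nat_lit 0x110001100) (nat_lit 0x1000010) (nat_lit 2) (nat_lit 0x320000100) .nil))) (.non (nat_lit 1) (nat_lit 4) (nat_lit 0x25010) (nat_lit 0x100020001000000000000000100000000))) (.non (nat_lit 1) (nat_lit 4) (nat_lit 0x2a010) (nat_lit 0x100020001000000000000000200000000))) (.split (nat_lit 9) (nat_lit 1) (.split (nat_lit 9) (nat_lit 2) (.split (nat_lit 9) (nat_lit 3) (.split (nat_lit 9) (nat_lit 6) (.split (nat_lit 9) (nat_lit 7) (.split (nat_lit 9) (nat_lit 8) (.split (nat_lit 9) (nat_lit 0) (.split (nat_lit 9) (nat_lit 4) (.unj (nat_lit 0x55) (nat_lit 0x1000200020001) (nat_lit 0x41500) (nat_lit 0x1000000000001000200020000000000000000)) (.unj (nat_lit 0x40500) (nat_lit 0x1000000000000000100010000000000000000) (nat_lit 0x55) (nat_lit 0x1000200020001)))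 (.split (nat_lit 9) (nat_lit 4) (.sup (nat_lit 0x5000a00090002) (nat_lit 0x2000000000005000a00080000000000000000)) (.unj (nat_lit 0x40500) (nat_lit 0x1000000000000000100010000000000000000) (nat_lit 0x4054) (nat_lit 0x10000000000000001000200020000)))) (.non (nat_lit 1) (nat_lit 4) (nat_lit 0x55400) (nat_lit 0x1000100010001000100000000000000000000))) (.non (nat_lit 1) (nat_lit 4) (nat_lit 0x45400) (nat_lit 0x1000000010001000100000000000000000000))) (.non (nat_lit 1) (nat_lit 4) (nat_lit 0x41400) (nat_lit 0x1000000000001000100000000000000000000))) (.non (nat_lit 1) (nat_lit 4) (nat_lit 0x45450) (nat_lit 0x1000000010001000100000001000100000000))) (.star (nat_lit 9) (nat_lit 2) (nat_lit 5))) (.star (nat_lit 9) (nat_lit 1) (nat_lit 5))))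

noncomputable def t757_44 : Tr := (.ex (nat_lit 9) (.pd (.cons (nat_lit 0) (nat_lit 7) (nat_lit 0) (nat_lit 0x3805442110) (nat_lit 0xf423ff423f00000f423fb71ae1f156b71aea2c280473700000) .nil) (.leaf (.cons (nat_lit 0x15014) (nat_lit 0x100020001000000000000000200020000) (.cons (nat_lit 0x4054) (nat_lit 0x10000000000000001000200020000) (.cons (nat_lit 0x5510) (nat_lit 0x20003000400030000000100000000) (.cons (nat_lit 0x4015) (nat_lit 0x10000000000000000000200020001) .nil)))) (.cons (nat_lit 0x1110001100) (nat_lit 0x1000010) (nat_lit 3) (nat_lit 0x4010003200) .nil))) (.split (nat_lit 0xa) (nat_lit 0) (.split (nat_lit 0xa) (nat_lit 1) (.split (nat_lit 0xa) (nat_lit 2) (.split (nat_lit 0xa) (nat_lit 3) (.split (nat_lit 0xa) (nat_lit 4) (.split (nat_lit 0xa) (nat_lit 5) (.split (nat_lit 0xa) (nat_lit 6) (.split (nat_lit 0xa) (nat_lit 7) (.split (nat_lit 0xa) (nat_lit 8) (.st (nat_lit 9) (nat_lit 1) (nat_lit 4) (nat_lit 0x155050) (nat_lit 0x10002000100020001000000000002000200000000) (nat_lit 1) (nat_lit 1) (.st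 (nat_lit 0xa) (nat_lit 1) (nat_lit 4) (nat_lit 0x155450) (nat_lit 0x20003000300060004000200000004000500000000) (nat_lit 1) (nat_lit 1) (.split (nat_lit 0xa) (nat_lit 9) (.leaf (.cons (nat_lit 0x15014) (nat_lit 0x100020001000000000000000200020000) (.cons (nat_lit 0x140054) (nat_lit 0x10002000000000000000000000003000400030000) (.cons (nat_lit 0x5510) (nat_lit 0x20003000400030000000100000000) (.cons (nat_lit 0x4015) (nat_lit 0x10000000000000000000200020001) .nil)))) (.cons (nat_lit 0x11111101100) (nat_lit 0x10010) (nat_lit 0xe) (nat_lit 0x76102305400) (.cons (nat_lit 0x11111001100) (nat_lit 0x100010) (nat_lit 0xa) (nat_lit 0x65201004300) .nil))) (.non (nat_lit 1) (nat_lit 4) (nat_lit 0x255050) (nat_lit 0x10002000100020001000000000002000200000000))))) (.non (nat_lit 1) (nat_lit 4) (nat_lit 0x154050) (nat_lit 0x10001000100010000000000000001000100000000))) (.non (nat_lit 1) (nat_lit 4) (nat_lit 0x115010) (nat_lit 0x10000000100020001000000000000000100000000))) (.non (nat_lit 1) (nat_lit 4) (nat_lit 0x115410) (nat_lit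 0x10000000100020002000100000000000100000000))) (.non (nat_lit 1) (nat_lit 4) (nat_lit 0x145450) (nat_lit 0x10001000000010001000100000001000100000000))) (.non (nat_lit 1) (nat_lit 6) (nat_lit 0x140540) (nat_lit 0x30002000000000000000300040001000000000000))) (.non (nat_lit 1) (nat_lit 4) (nat_lit 0x140040) (nat_lit 0x10001000000000000000000000001000000000000))) (.non (nat_lit 1) (nat_lit 4) (nat_lit 0x140050) (nat_lit 0x10001000000000000000000000001000100000000))) (.non (nat_lit 3) (nat_lit 7) (nat_lit 0x100015) (nat_lit 0x10000000000000000000000000000000200020001))) (.non (nat_lit 1) (nat_lit 4) (nat_lit 0x155451) (nat_lit 0x20003000300060004000200000004000500000001))))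

noncomputable def t757_45 : Tr := (.ex (nat_lit 4) (.split (nat_lit 7) (nat_lit 2) (.split (nat_lit 9) (nat_lit 3) (.split (nat_lit 8) (nat_lit 7) (.pd (.cons (nat_lit 1) (nat_lit 6) (nat_lit 0) (nat_lit 0x3720442200) (nat_lit 0xf423ff423fb71ae00000f423f54591b71ae5161100000f423f) (.cons (nat_lit 1) (nat_lit 7) (nat_lit 0) (nat_lit 0x3805442200) (nat_lit 0xf423ff423f00000f423fb71ae1f156b71aea2c2800000f423f) (.cons (nat_lit 2) (nat_lit 6) (nat_lit 0) (nat_lit 0x3770443000) (nat_lit 0xf423ff423fb71ae00000f423f54591b71ae00000f423fb71ae) (.cons (nat_lit 2) (nat_lit 7) (nat_lit 0) (nat_lit 0x3805443000) (nat_lit 0xf423ff423f00000f423fb71ae1f156b71ae00000f423fb71ae) (.cons (nat_lit 2) (nat_lit 8) (nat_lit 0) (nat_lit 0x3065443000) (nat_lit 0xf423f00000f423fb71aea2c2804737b71ae00000f423fb71ae) (.cons (nat_lit 3) (nat_lit 7) (nat_lit 0) (nat_lit 0x9805440100) (nat_lit 0xf423ff423f00000f423fb71ae1f15600000f423f54591437a2) .nil)))))) t757_44) (.non (nat_lit 1) (nat_lit 4) (nat_lit 0x25010) (nat_lit 0x100020001000000000000000100000000)))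 (.non (nat_lit 1) (nat_lit 4) (nat_lit 0x95050) (nat_lit 0x1000100020001000000000002000200000000))) (.non (nat_lit 1) (nat_lit 4) (nat_lit 0x2a010) (nat_lit 0x100020001000000000000000200000000))) (.split (nat_lit 0xa) (nat_lit 1) (.split (nat_lit 0xa) (nat_lit 2) (.split (nat_lit 0xa) (nat_lit 3) (.split (nat_lit 0xa) (nat_lit 5) (.split (nat_lit 0xa) (nat_lit 6) (.split (nat_lit 0xa) (nat_lit 7) (.split (nat_lit 0xa) (nat_lit 8) (.split (nat_lit 0xa) (nat_lit 0) (.split (nat_lit 0xa) (nat_lit 9) (.unj (nat_lit 0x55) (nat_lit 0x1000200020001) (nat_lit 0x101500) (nat_lit 0x10000000000000001000200020000000000000000)) (.unj (nat_lit 0x55) (nat_lit 0x1000200020001) (nat_lit 0x101500) (nat_lit 0x10000000000000001000200020000000000000000))) (.split (nat_lit 0xa) (nat_lit 9) (.sup (nat_lit 0x10000000000000003000500040000) (nat_lit 0x30000000000000001000500050000000000000000)) (.non (nat_lit 1) (nat_lit 4) (nat_lit 0x155451) (nat_lit 0x20003000300060004000200000004000500000001)))) (.non (nat_lit 1) (nat_lit 4) (nat_lit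 0x115450) (nat_lit 0x10000000200030002000100000001000200000000))) (.non (nat_lit 1) (nat_lit 4) (nat_lit 0x115010) (nat_lit 0x10000000100020001000000000000000100000000))) (.non (nat_lit 1) (nat_lit 4) (nat_lit 0x115410) (nat_lit 0x10000000100020002000100000000000100000000))) (.non (nat_lit 1) (nat_lit 4) (nat_lit 0x155450) (nat_lit 0x10001000200040003000200000002000300000000))) (.non (nat_lit 1) (nat_lit 4) (nat_lit 0x155050) (nat_lit 0x10001000100020001000000000002000200000000))) (.star (nat_lit 0xa) (nat_lit 2) (nat_lit 4))) (.star (nat_lit 0xa) (nat_lit 1) (nat_lit 4))))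

noncomputable def t757_46 : Tr := (.split (nat_lit 9) (nat_lit 1) (.pd (.cons (nat_lit 1) (nat_lit 6) (nat_lit 0) (nat_lit 0x3720442200) (nat_lit 0xf423ff423fb71ae00000f423f54591b71ae5161100000f423f) (.cons (nat_lit 1) (nat_lit 7) (nat_lit 0) (nat_lit 0x3805442200) (nat_lit 0xf423ff423f00000f423fb71ae1f156b71aea2c2800000f423f) (.cons (nat_lit 2) (nat_lit 6) (nat_lit 0) (nat_lit 0x1770449000) (nat_lit 0xb71aef423fb71ae00000f423f54591f423f00000a2c2898965) (.cons (nat_lit 2) (nat_lit 7) (nat_lit 0) (nat_lit 0x1805449000) (nat_lit 0xb71aef423f00000f423fb71ae1f156f423f00000a2c2898965) (.cons (nat_lit 2) (nat_lit 8) (nat_lit 0) (nat_lit 0x1065449000) (nat_lit 0xb71ae00000f423fb71aea2c2804737f423f00000a2c2898965) .nil))))) (.ex (nat_lit 9) (.leaf (.cons (nat_lit 0x44014) (nat_lit 0x1000000010000000000000000000200020000) (.cons (nat_lit 0x40054) (nat_lit 0x1000000000000000000000001000100010000) (.cons (nat_lit 0x5510) (nat_lit 0x20003000400030000000100000000) (.cons (nat_lit 0x40015) (nat_lit 0x1000000000000000000000000000200020001)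 .nil)))) (.cons (nat_lit 0x1110001100) (nat_lit 0x1000010) (nat_lit 3) (nat_lit 0x4010003200) .nil)) (.split (nat_lit 0xa) (nat_lit 0) (.split (nat_lit 0xa) (nat_lit 1) (.split (nat_lit 0xa) (nat_lit 2) (.split (nat_lit 0xa) (nat_lit 3) (.split (nat_lit 0xa) (nat_lit 4) (.split (nat_lit 0xa) (nat_lit 5) (.split (nat_lit 0xa) (nat_lit 6) (.split (nat_lit 0xa) (nat_lit 7) (.split (nat_lit 0xa) (nat_lit 8) (.sup (nat_lit 0x30007000b0010000d0000000000000000) (nat_lit 0x20004000000000000000000000003000100040002)) (.non (nat_lit 1) (nat_lit 4) (nat_lit 0x154050) (nat_lit 0x10001000100010000000000000001000100000000))) (.non (nat_lit 1) (nat_lit 4) (nat_lit 0x115010) (nat_lit 0x10000000100020001000000000000000100000000))) (.non (nat_lit 1) (nat_lit 4) (nat_lit 0x115410) (nat_lit 0x10000000100020002000100000000000100000000))) (.non (nat_lit 1) (nat_lit 4) (nat_lit 0x145450) (nat_lit 0x10001000000010001000100000001000100000000))) (.non (nat_lit 1) (nat_lit 6) (nat_lit 0x140540) (nat_lit 0x30002000000000000000300040001000000000000)))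 (.non (nat_lit 1) (nat_lit 4) (nat_lit 0x140040) (nat_lit 0x10001000000000000000000000001000000000000))) (.non (nat_lit 1) (nat_lit 4) (nat_lit 0x140050) (nat_lit 0x10001000000000000000000000001000100000000))) (.non (nat_lit 2) (nat_lit 4) (nat_lit 0x140004) (nat_lit 0x10001000000000000000000000000000000010000))) (.non (nat_lit 1) (nat_lit 4) (nat_lit 0x155451) (nat_lit 0x20003000300060004000200000004000500000001))))) (.sup (nat_lit 0x7000f00170020001a0000000000000000) (nat_lit 0x7000000000000000000000004000100080004)))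

noncomputable def t757_47 : Tr := (.split (nat_lit 9) (nat_lit 1) (.split (nat_lit 9) (nat_lit 4) (.st (nat_lit 3) (nat_lit 1) (nat_lit 4) (nat_lit 0x55050) (nat_lit 0x1000100020001000000000002000200000000) (nat_lit 1) (nat_lit 1) (.st (nat_lit 5) (nat_lit 1) (nat_lit 4) (nat_lit 0x55450) (nat_lit 0x1000200040003000200000002000300000000) (nat_lit 1) (nat_lit 1) t757_45)) (.sup (nat_lit 0x200000000000000000009000a0005) (nat_lit 0x50000000000020009000a0000000000000000))) (.split (nat_lit 9) (nat_lit 4) (.st (nat_lit 5) (nat_lit 1) (nat_lit 4) (nat_lit 0x55450) (nat_lit 0x1000200040003000200000002000300000000) (nat_lit 1) (nat_lit 1) (.st (nat_lit 3) (nat_lit 1) (nat_lit 4) (nat_lit 0x55050) (nat_lit 0x1000100020001000000000002000200000000) (nat_lit 1) (nat_lit 1) (.ex (nat_lit 4) (.split (nat_lit 7) (nat_lit 2) (.split (nat_lit 9) (nat_lit 3) (.split (nat_lit 8) (nat_lit 7) t757_46 (.non (nat_lit 1) (nat_lit 4) (nat_lit 0x25010) (nat_lit 0x100020001000000000000000100000000))) (.non (nat_lit 1) (nat_lit 4)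 (nat_lit 0x95050) (nat_lit 0x1000100020001000000000002000200000000))) (.non (nat_lit 1) (nat_lit 4) (nat_lit 0x2a010) (nat_lit 0x100020001000000000000000200000000))) (.split (nat_lit 0xa) (nat_lit 1) (.split (nat_lit 0xa) (nat_lit 2) (.split (nat_lit 0xa) (nat_lit 3) (.split (nat_lit 0xa) (nat_lit 5) (.split (nat_lit 0xa) (nat_lit 6) (.split (nat_lit 0xa) (nat_lit 7) (.split (nat_lit 0xa) (nat_lit 8) (.split (nat_lit 0xa) (nat_lit 0) (.split (nat_lit 0xa) (nat_lit 9) (.unj (nat_lit 0x55) (nat_lit 0x1000200020001) (nat_lit 0x101500) (nat_lit 0x10000000000000001000200020000000000000000)) (.unj (nat_lit 0x55) (nat_lit 0x1000200020001) (nat_lit 0x101500) (nat_lit 0x10000000000000001000200020000000000000000))) (.split (nat_lit 0xa) (nat_lit 9) (.unj (nat_lit 0x40054) (nat_lit 0x1000000000000000000000001000100010000) (nat_lit 0x101500) (nat_lit 0x10000000000000001000200020000000000000000)) (.non (nat_lit 1) (nat_lit 4) (nat_lit 0x155451) (nat_lit 0x20003000300060004000200000004000500000001)))) (.non (nat_lit 1)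 (nat_lit 4) (nat_lit 0x115450) (nat_lit 0x10000000200030002000100000001000200000000))) (.non (nat_lit 1) (nat_lit 4) (nat_lit 0x115010) (nat_lit 0x10000000100020001000000000000000100000000))) (.non (nat_lit 1) (nat_lit 4) (nat_lit 0x115410) (nat_lit 0x10000000100020002000100000000000100000000))) (.non (nat_lit 1) (nat_lit 4) (nat_lit 0x155450) (nat_lit 0x10001000200040003000200000002000300000000))) (.non (nat_lit 1) (nat_lit 4) (nat_lit 0x155050) (nat_lit 0x10001000100020001000000000002000200000000))) (.star (nat_lit 0xa) (nat_lit 2) (nat_lit 4))) (.star (nat_lit 0xa) (nat_lit 1) (nat_lit 4)))))) (.star (nat_lit 9) (nat_lit 1) (nat_lit 4))))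

noncomputable def t757_48 : Tr := (.ex (nat_lit 4) (.split (nat_lit 9) (nat_lit 3) (.split (nat_lit 9) (nat_lit 0) (.split (nat_lit 7) (nat_lit 2) (.split (nat_lit 8) (nat_lit 7) (.pd (.cons (nat_lit 0) (nat_lit 7) (nat_lit 0) (nat_lit 0x3805442110) (nat_lit 0xf423ff423f00000f423fb71ae1f156b71aea2c280473700000) (.cons (nat_lit 1) (nat_lit 6) (nat_lit 0) (nat_lit 0x720449300) (nat_lit 0x927bdf423fb71ae00000f423f5459198965a2c28000008e6a2) (.cons (nat_lit 1) (nat_lit 7) (nat_lit 0) (nat_lit 0x805449300) (nat_lit 0xa2c28f423f00000f423fb71ae1f156b71aef423f0000098965) (.cons (nat_lit 2) (nat_lit 6) (nat_lit 0) (nat_lit 0x770449000) (nat_lit 0xb71aef423fb71ae00000f423f54591f423f00000f423f65b97) (.cons (nat_lit 2) (nat_lit 7) (nat_lit 0) (nat_lit 0x805449000) (nat_lit 0xb71aef423f00000f423fb71ae1f156f423f00000f423f65b97) (.cons (nat_lit 2) (nat_lit 8) (nat_lit 0) (nat_lit 0x65449000) (nat_lit 0xb71ae00000f423fb71aea2c2804737f423f00000f423f65b97) (.cons (nat_lit 3) (nat_lit 7) (nat_lit 0) (nat_lit 0x805440100) (nat_lit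 0xf423ff423f00000f423fb71ae1f15600000f423f5459106711) .nil))))))) (.leaf (.cons (nat_lit 0x15014) (nat_lit 0x100020001000000000000000200020000) (.cons (nat_lit 0x4054) (nat_lit 0x10000000000000001000200020000) (.cons (nat_lit 0x5510) (nat_lit 0x20003000400030000000100000000) (.cons (nat_lit 0x4015) (nat_lit 0x10000000000000000000200020001) .nil)))) (.cons (nat_lit 0x1111101101) (nat_lit 0x10010) (nat_lit 0xe) (nat_lit 0x6102305407) (.cons (nat_lit 0x1111001101) (nat_lit 0x100010) (nat_lit 0xa) (nat_lit 0x5201004306) .nil)))) (.non (nat_lit 1) (nat_lit 4) (nat_lit 0x25010) (nat_lit 0x100020001000000000000000100000000))) (.non (nat_lit 1) (nat_lit 4) (nat_lit 0x2a010) (nat_lit 0x100020001000000000000000200000000))) (.non (nat_lit 1) (nat_lit 4) (nat_lit 0xaa0a1) (nat_lit 0x2000100020001000000000002000200000002))) (.non (nat_lit 1) (nat_lit 4) (nat_lit 0x95050) (nat_lit 0x1000100020001000000000002000200000000))) (.split (nat_lit 0xa) (nat_lit 0) (.split (nat_lit 0xa) (nat_lit 1) (.split (nat_lit 0xa) (nat_lit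 2) (.split (nat_lit 0xa) (nat_lit 3) (.split (nat_lit 0xa) (nat_lit 5) (.split (nat_lit 0xa) (nat_lit 6) (.split (nat_lit 0xa) (nat_lit 7) (.split (nat_lit 0xa) (nat_lit 8) (.split (nat_lit 0xa) (nat_lit 9) (.unj (nat_lit 0x55) (nat_lit 0x1000200020001) (nat_lit 0x101500) (nat_lit 0x10000000000000001000200020000000000000000)) (.non (nat_lit 1) (nat_lit 4) (nat_lit 0x155051) (nat_lit 0x10002000100020001000000000002000200000001))) (.non (nat_lit 1) (nat_lit 4) (nat_lit 0x115450) (nat_lit 0x10000000200030002000100000001000200000000))) (.non (nat_lit 1) (nat_lit 4) (nat_lit 0x115010) (nat_lit 0x10000000100020001000000000000000100000000))) (.non (nat_lit 1) (nat_lit 4) (nat_lit 0x115410) (nat_lit 0x10000000100020002000100000000000100000000))) (.non (nat_lit 1) (nat_lit 4) (nat_lit 0x155450) (nat_lit 0x10001000200040003000200000002000300000000))) (.non (nat_lit 1) (nat_lit 4) (nat_lit 0x155050) (nat_lit 0x10001000100020001000000000002000200000000))) (.star (nat_lit 0xa) (nat_lit 2) (nat_lit 4))) (.star (nat_lit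 0xa) (nat_lit 1) (nat_lit 4))) (.non (nat_lit 1) (nat_lit 4) (nat_lit 0x155451) (nat_lit 0x10003000300060004000200000004000500000002))))

noncomputable def t757_49 : Tr := (.ex (nat_lit 3) (.ex (nat_lit 4) t757_43 (.split (nat_lit 9) (nat_lit 1) (.split (nat_lit 9) (nat_lit 2) (.split (nat_lit 9) (nat_lit 6) (.split (nat_lit 9) (nat_lit 7) (.split (nat_lit 9) (nat_lit 8) (.split (nat_lit 9) (nat_lit 0) (.split (nat_lit 9) (nat_lit 3) (.split (nat_lit 9) (nat_lit 5) (.unj (nat_lit 0x55) (nat_lit 0x1000200020001) (nat_lit 0x41500) (nat_lit 0x1000000000001000200020000000000000000)) (.unj (nat_lit 0x40500) (nat_lit 0x1000000000000000100010000000000000000) (nat_lit 0x55) (nat_lit 0x1000200020001))) (.split (nat_lit 9) (nat_lit 5) (.sup (nat_lit 0x200000000000000000009000a0005) (nat_lit 0x50000000000020009000a0000000000000000)) (.non (nat_lit 1) (nat_lit 4) (nat_lit 0x45450) (nat_lit 0x1000000010001000100000001000100000000)))) (.split (nat_lit 9) (nat_lit 3) (.split (nat_lit 9) (nat_lit 5) (.sup (nat_lit 0x10000000000000003000500040000)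 (nat_lit 0x3000000000001000500050000000000000000)) (.unj (nat_lit 0x40500) (nat_lit 0x1000000000000000100010000000000000000) (nat_lit 0x4054) (nat_lit 0x10000000000000001000200020000))) (.non (nat_lit 1) (nat_lit 5) (nat_lit 0x55151) (nat_lit 0x2000100020001000000010002000200000001)))) (.non (nat_lit 1) (nat_lit 4) (nat_lit 0x55450) (nat_lit 0x1000200030002000100000001000200000000))) (.non (nat_lit 1) (nat_lit 4) (nat_lit 0x55010) (nat_lit 0x1000100020001000000000000000100000000))) (.non (nat_lit 1) (nat_lit 4) (nat_lit 0x55410) (nat_lit 0x1000100020002000100000000000100000000))) (.star (nat_lit 9) (nat_lit 2) (nat_lit 4))) (.star (nat_lit 9) (nat_lit 1) (nat_lit 4)))) (.split (nat_lit 9) (nat_lit 2) (.split (nat_lit 9) (nat_lit 5) (.split (nat_lit 9) (nat_lit 6) (.split (nat_lit 9) (nat_lit 7) (.split (nat_lit 9) (nat_lit 8) (.split (nat_lit 9) (nat_lit 0) t757_47 (.split (nat_lit 9) (nat_lit 1) (.split (nat_lit 9) (nat_lit 4) (.st (nat_lit 3) (nat_lit 1) (nat_lit 4) (nat_lit 0x55050) (nat_lit 0x1000100020001000000000002000200000000)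 (nat_lit 1) (nat_lit 1) (.st (nat_lit 5) (nat_lit 1) (nat_lit 4) (nat_lit 0x55450) (nat_lit 0x1000200040003000200000002000300000000) (nat_lit 1) (nat_lit 1) (.st (nat_lit 9) (nat_lit 1) (nat_lit 4) (nat_lit 0x55051) (nat_lit 0x2000100020001000000000002000200000001) (nat_lit 1) (nat_lit 1) t757_48))) (.non (nat_lit 1) (nat_lit 5) (nat_lit 0x55151) (nat_lit 0x2000100020001000000010002000200000001))) (.non (nat_lit 2) (nat_lit 4) (nat_lit 0x40005) (nat_lit 0x1000000000000000000000000000000010001)))) (.non (nat_lit 1) (nat_lit 4) (nat_lit 0x54050) (nat_lit 0x1000100010000000000000001000100000000))) (.non (nat_lit 1) (nat_lit 4) (nat_lit 0x55010) (nat_lit 0x1000100020001000000000000000100000000))) (.non (nat_lit 1) (nat_lit 4) (nat_lit 0x55410) (nat_lit 0x1000100020002000100000000000100000000))) (.non (nat_lit 1) (nat_lit 4) (nat_lit 0x45450) (nat_lit 0x1000000010001000100000001000100000000))) (.non (nat_lit 1) (nat_lit 4) (nat_lit 0x40050) (nat_lit 0x1000000000000000000000001000100000000))))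

noncomputable def t757_50 : Tr := (.ex (nat_lit 0xa) (.leaf (.cons (nat_lit 0x44014) (nat_lit 0x1000000010000000000000000000200020000) (.cons (nat_lit 0x40054) (nat_lit 0x1000000000000000000000001000200020000) (.cons (nat_lit 0x5510) (nat_lit 0x20003000400030000000100000000) (.cons (nat_lit 0x40015) (nat_lit 0x1000000000000000000000000000200020001) .nil)))) (.cons (nat_lit 0x10110001100) (nat_lit 0x1000010) (nat_lit 3) (nat_lit 0x40010003200) .nil)) (.split (nat_lit 0xb) (nat_lit 0) (.split (nat_lit 0xb) (nat_lit 2) (.split (nat_lit 0xb) (nat_lit 3) (.split (nat_lit 0xb) (nat_lit 4) (.split (nat_lit 0xb) (nat_lit 5) (.split (nat_lit 0xb) (nat_lit 6) (.split (nat_lit 0xb) (nat_lit 7) (.split (nat_lit 0xb) (nat_lit 8) (.split (nat_lit 0xb) (nat_lit 9) (.split (nat_lit 0xb) (nat_lit 1) (.st (nat_lit 0xa) (nat_lit 1) (nat_lit 4) (nat_lit 0x515050) (nat_lit 0x100020000000100020001000000000002000200000000) (nat_lit 1) (nat_lit 1) (.st (nat_lit 0xb) (nat_lit 1) (nat_lit 4) (nat_lit 0x515450) (nat_lit 0x200030000000300060004000200000004000500000000)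 (nat_lit 1) (nat_lit 1) (.split (nat_lit 0xb) (nat_lit 0xa) (.leaf (.cons (nat_lit 0x44014) (nat_lit 0x1000000010000000000000000000200020000) (.cons (nat_lit 0x500054) (nat_lit 0x100020000000000000000000000000003000400030000) (.cons (nat_lit 0x5510) (nat_lit 0x20003000400030000000100000000) (.cons (nat_lit 0x40015) (nat_lit 0x1000000000000000000000000000200020001) .nil)))) (.cons (nat_lit 0x110111101100) (nat_lit 0x10010) (nat_lit 0xe) (nat_lit 0x760102305400) (.cons (nat_lit 0x110111001100) (nat_lit 0x100010) (nat_lit 0xa) (nat_lit 0x650201004300) .nil))) (.non (nat_lit 1) (nat_lit 4) (nat_lit 0x915050) (nat_lit 0x100020000000100020001000000000002000200000000))))) (.sup (nat_lit 0x40007000b0010000d0000000000000000) (nat_lit 0x300020002000000000000000000000002000100040002))) (.non (nat_lit 1) (nat_lit 4) (nat_lit 0x555450) (nat_lit 0x200030001000300060004000200000004000500000000))) (.non (nat_lit 1) (nat_lit 4) (nat_lit 0x514050) (nat_lit 0x100010000000100010000000000000001000100000000))) (.non (nat_lit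 1) (nat_lit 4) (nat_lit 0x415010) (nat_lit 0x100000000000100020001000000000000000100000000))) (.non (nat_lit 1) (nat_lit 4) (nat_lit 0x415410) (nat_lit 0x100000000000100020002000100000000000100000000))) (.non (nat_lit 1) (nat_lit 4) (nat_lit 0x505450) (nat_lit 0x100010000000000010001000100000001000100000000))) (.non (nat_lit 1) (nat_lit 6) (nat_lit 0x500540) (nat_lit 0x300020000000000000000000300040001000000000000))) (.non (nat_lit 1) (nat_lit 4) (nat_lit 0x500040) (nat_lit 0x100010000000000000000000000000001000000000000))) (.non (nat_lit 1) (nat_lit 4) (nat_lit 0x500050) (nat_lit 0x100010000000000000000000000000001000100000000))) (.non (nat_lit 1) (nat_lit 4) (nat_lit 0x515451) (nat_lit 0x200030000000300060004000200000004000500000001))))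

noncomputable def t757_51 : Tr := (.pd (.cons (nat_lit 1) (nat_lit 6) (nat_lit 0) (nat_lit 0x9720442200) (nat_lit 0xf423ff423fb71ae00000f423f54591f423f65b9700000f423f) (.cons (nat_lit 1) (nat_lit 7) (nat_lit 0) (nat_lit 0x9805442200) (nat_lit 0xf423ff423f00000f423fb71ae1f156f423fb71ae00000f423f) (.cons (nat_lit 2) (nat_lit 6) (nat_lit 0) (nat_lit 0x1770443000) (nat_lit 0xf423ff423fb71ae00000f423f54591f423f00000b71aea2c28) (.cons (nat_lit 2) (nat_lit 7) (nat_lit 0) (nat_lit 0x1805443000) (nat_lit 0xf423ff423f00000f423fb71ae1f156f423f00000b71aea2c28) (.cons (nat_lit 2) (nat_lit 8) (nat_lit 0) (nat_lit 0x1065443000) (nat_lit 0xf423f00000f423fb71aea2c2804737f423f00000b71aea2c28) .nil))))) (.ex (nat_lit 3) (.leaf (.cons (nat_lit 0x44014) (nat_lit 0x1000000010000000000000000000200020000) (.cons (nat_lit 0x40054) (nat_lit 0x1000000000000000000000001000200020000) (.cons (nat_lit 0x5510) (nat_lit 0x20003000400030000000100000000) (.cons (nat_lit 0x40015) (nat_lit 0x1000000000000000000000000000200020001) .nil))))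 (.cons (nat_lit 0x110001100) (nat_lit 0x1000010) (nat_lit 2) (nat_lit 0x320000100) .nil)) (.split (nat_lit 0xa) (nat_lit 2) (.split (nat_lit 0xa) (nat_lit 4) (.split (nat_lit 0xa) (nat_lit 5) (.split (nat_lit 0xa) (nat_lit 6) (.split (nat_lit 0xa) (nat_lit 7) (.split (nat_lit 0xa) (nat_lit 8) (.split (nat_lit 0xa) (nat_lit 0) (.split (nat_lit 0xa) (nat_lit 1) (.split (nat_lit 0xa) (nat_lit 9) (.st (nat_lit 3) (nat_lit 1) (nat_lit 4) (nat_lit 0x115050) (nat_lit 0x10000000100020001000000000002000200000000) (nat_lit 1) (nat_lit 1) (.split (nat_lit 0xa) (nat_lit 3) t757_50 (.non (nat_lit 1) (nat_lit 4) (nat_lit 0x215050) (nat_lit 0x10000000100020001000000000002000200000000)))) (.sup (nat_lit 0x6000c00160020001a0000000000000000) (nat_lit 0x60008000000000000000000000005000400090005))) (.split (nat_lit 0xa) (nat_lit 9) (.sup (nat_lit 0x30007000b0010000d0000000000000000) (nat_lit 0x30002000000000000000000000002000100040002)) (.non (nat_lit 2) (nat_lit 4) (nat_lit 0x140004) (nat_lit 0x10001000000000000000000000000000000010000))))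 (.split (nat_lit 0xa) (nat_lit 1) (.split (nat_lit 0xa) (nat_lit 9) (.sup (nat_lit 0x6000c00160020001a0000000000000000) (nat_lit 0x60005000000000000000000000005000400090008)) (.non (nat_lit 1) (nat_lit 4) (nat_lit 0x155051) (nat_lit 0x20001000100020001000000000002000200000001))) (.non (nat_lit 2) (nat_lit 4) (nat_lit 0x100005) (nat_lit 0x10000000000000000000000000000000000010001)))) (.non (nat_lit 1) (nat_lit 4) (nat_lit 0x114050) (nat_lit 0x10000000100010000000000000001000100000000))) (.non (nat_lit 1) (nat_lit 4) (nat_lit 0x115010) (nat_lit 0x10000000100020001000000000000000100000000))) (.non (nat_lit 1) (nat_lit 4) (nat_lit 0x115410) (nat_lit 0x10000000100020002000100000000000100000000))) (.non (nat_lit 1) (nat_lit 4) (nat_lit 0x105450) (nat_lit 0x10000000000010001000100000001000100000000))) (.non (nat_lit 1) (nat_lit 6) (nat_lit 0x100550) (nat_lit 0x30000000000000000000300040002000100000000))) (.non (nat_lit 1) (nat_lit 4) (nat_lit 0x100050) (nat_lit 0x10000000000000000000000000001000100000000)))))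

noncomputable def t757_52 : Tr := (.ex (nat_lit 4) (.ex (nat_lit 5) (.split (nat_lit 7) (nat_lit 2) (.split (nat_lit 8) (nat_lit 7) (.split (nat_lit 9) (nat_lit 1) t757_51 (.sup (nat_lit 0x6000d00160020001a0000000000000000) (nat_lit 0x80000000000000000000000020003000b0005))) (.non (nat_lit 1) (nat_lit 4) (nat_lit 0x25010) (nat_lit 0x100020001000000000000000100000000))) (.non (nat_lit 1) (nat_lit 4) (nat_lit 0x2a010) (nat_lit 0x100020001000000000000000200000000))) (.split (nat_lit 0xa) (nat_lit 1) (.split (nat_lit 0xa) (nat_lit 2) (.split (nat_lit 0xa) (nat_lit 3) (.split (nat_lit 0xa) (nat_lit 6) (.split (nat_lit 0xa) (nat_lit 7) (.split (nat_lit 0xa) (nat_lit 8) (.split (nat_lit 0xa) (nat_lit 0) (.split (nat_lit 0xa) (nat_lit 4) (.split (nat_lit 0xa) (nat_lit 9) (.unj (nat_lit 0x55) (nat_lit 0x1000200020001) (nat_lit 0x101500) (nat_lit 0x10000000000000001000200020000000000000000)) (.unj (nat_lit 0x55) (nat_lit 0x1000200020001) (nat_lit 0x101500) (nat_lit 0x10000000000000001000200020000000000000000))) (.split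 (nat_lit 0xa) (nat_lit 9) (.unj (nat_lit 0x100500) (nat_lit 0x10000000000000000000100010000000000000000) (nat_lit 0x55) (nat_lit 0x1000200020001)) (.unj (nat_lit 0x100500) (nat_lit 0x10000000000000000000100010000000000000000) (nat_lit 0x55) (nat_lit 0x1000200020001)))) (.split (nat_lit 0xa) (nat_lit 9) (.split (nat_lit 0xa) (nat_lit 4) (.unj (nat_lit 0x40054) (nat_lit 0x1000000000000000000000001000200020000) (nat_lit 0x101500) (nat_lit 0x10000000000000001000200020000000000000000)) (.unj (nat_lit 0x100500) (nat_lit 0x10000000000000000000100010000000000000000) (nat_lit 0x4054) (nat_lit 0x10000000000000001000200020000))) (.non (nat_lit 1) (nat_lit 4) (nat_lit 0x155411) (nat_lit 0x20001000100020002000200000000000100000001)))) (.non (nat_lit 1) (nat_lit 4) (nat_lit 0x115400) (nat_lit 0x10000000100010001000100000000000000000000))) (.non (nat_lit 1) (nat_lit 4) (nat_lit 0x105400) (nat_lit 0x10000000000010001000100000000000000000000))) (.non (nat_lit 1) (nat_lit 4) (nat_lit 0x101400) (nat_lit 0x10000000000000001000100000000000000000000)))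 (.non (nat_lit 1) (nat_lit 4) (nat_lit 0x105450) (nat_lit 0x10000000000010001000100000001000100000000))) (.star (nat_lit 0xa) (nat_lit 2) (nat_lit 5))) (.star (nat_lit 0xa) (nat_lit 1) (nat_lit 5)))) (.split (nat_lit 0xa) (nat_lit 1) (.split (nat_lit 0xa) (nat_lit 2) (.split (nat_lit 0xa) (nat_lit 6) (.split (nat_lit 0xa) (nat_lit 7) (.split (nat_lit 0xa) (nat_lit 8) (.split (nat_lit 0xa) (nat_lit 0) (.split (nat_lit 0xa) (nat_lit 3) (.split (nat_lit 0xa) (nat_lit 5) (.split (nat_lit 0xa) (nat_lit 9) (.unj (nat_lit 0x55) (nat_lit 0x1000200020001) (nat_lit 0x101500) (nat_lit 0x10000000000000001000200020000000000000000)) (.unj (nat_lit 0x55) (nat_lit 0x1000200020001) (nat_lit 0x101500) (nat_lit 0x10000000000000001000200020000000000000000))) (.split (nat_lit 0xa) (nat_lit 9) (.unj (nat_lit 0x100500) (nat_lit 0x10000000000000000000100010000000000000000) (nat_lit 0x55) (nat_lit 0x1000200020001)) (.unj (nat_lit 0x100500) (nat_lit 0x10000000000000000000100010000000000000000) (nat_lit 0x55) (nat_lit 0x1000200020001))))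 (.split (nat_lit 0xa) (nat_lit 5) (.split (nat_lit 0xa) (nat_lit 9) (.unj (nat_lit 0x40015) (nat_lit 0x1000000000000000000000000000200020001) (nat_lit 0x101500) (nat_lit 0x10000000000000001000200020000000000000000)) (.non (nat_lit 1) (nat_lit 5) (nat_lit 0x155150) (nat_lit 0x20001000100020001000000010002000200000000))) (.non (nat_lit 1) (nat_lit 4) (nat_lit 0x105450) (nat_lit 0x10000000000010001000100000001000100000000)))) (.split (nat_lit 0xa) (nat_lit 3) (.split (nat_lit 0xa) (nat_lit 9) (.split (nat_lit 0xa) (nat_lit 5) (.unj (nat_lit 0x40054) (nat_lit 0x1000000000000000000000001000200020000) (nat_lit 0x101500) (nat_lit 0x10000000000000001000200020000000000000000)) (.unj (nat_lit 0x100500) (nat_lit 0x10000000000000000000100010000000000000000) (nat_lit 0x4054) (nat_lit 0x10000000000000001000200020000))) (.non (nat_lit 2) (nat_lit 4) (nat_lit 0x140005) (nat_lit 0x10001000000000000000000000000000000010001))) (.non (nat_lit 1) (nat_lit 5) (nat_lit 0x115151) (nat_lit 0x20000000100020001000000010002000200000001))))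 (.non (nat_lit 1) (nat_lit 4) (nat_lit 0x115450) (nat_lit 0x10000000200030002000100000001000200000000))) (.non (nat_lit 1) (nat_lit 4) (nat_lit 0x115010) (nat_lit 0x10000000100020001000000000000000100000000))) (.non (nat_lit 1) (nat_lit 4) (nat_lit 0x115410) (nat_lit 0x10000000100020002000100000000000100000000))) (.star (nat_lit 0xa) (nat_lit 2) (nat_lit 4))) (.star (nat_lit 0xa) (nat_lit 1) (nat_lit 4))))

noncomputable def t757_53 : Tr := (.split (nat_lit 9) (nat_lit 1) (.pd (.cons (nat_lit 1) (nat_lit 6) (nat_lit 0) (nat_lit 0x3720442200) (nat_lit 0xf423ff423fb71ae00000f423f54591b71ae5161100000f423f) (.cons (nat_lit 1) (nat_lit 7) (nat_lit 0) (nat_lit 0x3805442200) (nat_lit 0xf423ff423f00000f423fb71ae1f156b71aea2c2800000f423f) (.cons (nat_lit 2) (nat_lit 6) (nat_lit 0) (nat_lit 0x1770449000) (nat_lit 0xb71aef423fb71ae00000f423f54591f423f00000a2c2898965) (.cons (nat_lit 2) (nat_lit 7) (nat_lit 0) (nat_lit 0x1805449000) (nat_lit 0xb71aef423f00000f423fb71ae1f156f423f00000a2c2898965) (.cons (nat_lit 2) (nat_lit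 8) (nat_lit 0) (nat_lit 0x1065449000) (nat_lit 0xb71ae00000f423fb71aea2c2804737f423f00000a2c2898965) .nil))))) (.ex (nat_lit 9) (.leaf (.cons (nat_lit 0x44014) (nat_lit 0x1000000010000000000000000000200020000) (.cons (nat_lit 0x40054) (nat_lit 0x1000000000000000000000001000100010000) (.cons (nat_lit 0x5510) (nat_lit 0x20003000400030000000100000000) (.cons (nat_lit 0x40015) (nat_lit 0x1000000000000000000000000000200020001) .nil)))) (.cons (nat_lit 0x1110001100) (nat_lit 0x1000010) (nat_lit 3) (nat_lit 0x4010003200) .nil)) (.split (nat_lit 0xa) (nat_lit 0) (.split (nat_lit 0xa) (nat_lit 1) (.split (nat_lit 0xa) (nat_lit 2) (.split (nat_lit 0xa) (nat_lit 3) (.split (nat_lit 0xa) (nat_lit 4) (.split (nat_lit 0xa) (nat_lit 5) (.split (nat_lit 0xa) (nat_lit 6) (.split (nat_lit 0xa) (nat_lit 7) (.split (nat_lit 0xa) (nat_lit 8) (.sup (nat_lit 0x30007000b0010000d0000000000000000) (nat_lit 0x20004000000000000000000000003000100040002)) (.non (nat_lit 1) (nat_lit 4) (nat_lit 0x154050) (nat_lit 0x10001000100010000000000000001000100000000)))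 (.non (nat_lit 1) (nat_lit 4) (nat_lit 0x115010) (nat_lit 0x10000000100020001000000000000000100000000))) (.non (nat_lit 1) (nat_lit 4) (nat_lit 0x115410) (nat_lit 0x10000000100020002000100000000000100000000))) (.non (nat_lit 1) (nat_lit 4) (nat_lit 0x145450) (nat_lit 0x10001000000010001000100000001000100000000))) (.non (nat_lit 1) (nat_lit 6) (nat_lit 0x140540) (nat_lit 0x30002000000000000000300040001000000000000))) (.non (nat_lit 1) (nat_lit 4) (nat_lit 0x140040) (nat_lit 0x10001000000000000000000000001000000000000))) (.non (nat_lit 1) (nat_lit 4) (nat_lit 0x140050) (nat_lit 0x10001000000000000000000000001000100000000))) (.non (nat_lit 2) (nat_lit 4) (nat_lit 0x140004) (nat_lit 0x10001000000000000000000000000000000010000))) (.non (nat_lit 1) (nat_lit 4) (nat_lit 0x155451) (nat_lit 0x20003000300060004000200000004000500000001))))) (.sup (nat_lit 0x7000f00170020001a0000000000000000) (nat_lit 0x7000000000000000000000004000100080004)))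

noncomputable def t757_54 : Tr := (.split (nat_lit 9) (nat_lit 6) (.split (nat_lit 9) (nat_lit 7) (.split (nat_lit 9) (nat_lit 8) (.split (nat_lit 9) (nat_lit 3) t757_52 (.st (nat_lit 5) (nat_lit 1) (nat_lit 4) (nat_lit 0x55450) (nat_lit 0x1000200040003000200000002000300000000) (nat_lit 1) (nat_lit 1) (.st (nat_lit 3) (nat_lit 1) (nat_lit 4) (nat_lit 0x55050) (nat_lit 0x1000100020001000000000002000200000000) (nat_lit 1) (nat_lit 1) (.ex (nat_lit 4) (.split (nat_lit 7) (nat_lit 2) (.split (nat_lit 9) (nat_lit 3) (.split (nat_lit 8) (nat_lit 7) t757_53 (.non (nat_lit 1) (nat_lit 4) (nat_lit 0x25010) (nat_lit 0x100020001000000000000000100000000))) (.non (nat_lit 1) (nat_lit 4) (nat_lit 0x95050) (nat_lit 0x1000100020001000000000002000200000000))) (.non (nat_lit 1) (nat_lit 4) (nat_lit 0x2a010) (nat_lit 0x100020001000000000000000200000000))) (.split (nat_lit 0xa) (nat_lit 1) (.split (nat_lit 0xa) (nat_lit 2) (.split (nat_lit 0xa) (nat_lit 3) (.split (nat_lit 0xa) (nat_lit 5) (.split (nat_lit 0xa) (nat_lit 6)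 (.split (nat_lit 0xa) (nat_lit 7) (.split (nat_lit 0xa) (nat_lit 8) (.split (nat_lit 0xa) (nat_lit 0) (.split (nat_lit 0xa) (nat_lit 9) (.unj (nat_lit 0x55) (nat_lit 0x1000200020001) (nat_lit 0x101500) (nat_lit 0x10000000000000001000200020000000000000000)) (.unj (nat_lit 0x55) (nat_lit 0x1000200020001) (nat_lit 0x101500) (nat_lit 0x10000000000000001000200020000000000000000))) (.split (nat_lit 0xa) (nat_lit 9) (.unj (nat_lit 0x40054) (nat_lit 0x1000000000000000000000001000100010000) (nat_lit 0x101500) (nat_lit 0x10000000000000001000200020000000000000000)) (.non (nat_lit 1) (nat_lit 4) (nat_lit 0x155451) (nat_lit 0x20003000300060004000200000004000500000001)))) (.non (nat_lit 1) (nat_lit 4) (nat_lit 0x115450) (nat_lit 0x10000000200030002000100000001000200000000))) (.non (nat_lit 1) (nat_lit 4) (nat_lit 0x115010) (nat_lit 0x10000000100020001000000000000000100000000))) (.non (nat_lit 1) (nat_lit 4) (nat_lit 0x115410) (nat_lit 0x10000000100020002000100000000000100000000))) (.non (nat_lit 1) (nat_lit 4) (nat_lit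 0x155450) (nat_lit 0x10001000200040003000200000002000300000000))) (.non (nat_lit 1) (nat_lit 4) (nat_lit 0x155050) (nat_lit 0x10001000100020001000000000002000200000000))) (.star (nat_lit 0xa) (nat_lit 2) (nat_lit 4))) (.star (nat_lit 0xa) (nat_lit 1) (nat_lit 4))))))) (.non (nat_lit 1) (nat_lit 4) (nat_lit 0x55450) (nat_lit 0x1000200030002000100000001000200000000))) (.non (nat_lit 1) (nat_lit 4) (nat_lit 0x55010) (nat_lit 0x1000100020001000000000000000100000000))) (.non (nat_lit 1) (nat_lit 4) (nat_lit 0x55410) (nat_lit 0x1000100020002000100000000000100000000)))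

noncomputable def t757_55 : Tr := (.pd (.cons (nat_lit 0) (nat_lit 7) (nat_lit 0) (nat_lit 0x9805442110) (nat_lit 0xf423ff423f00000f423fb71ae1f156f423fb71ae1f15600000) (.cons (nat_lit 1) (nat_lit 6) (nat_lit 0) (nat_lit 0x720442200) (nat_lit 0xf423ff423fb71ae00000f423f54591f423f65b9700000b71ae) (.cons (nat_lit 1) (nat_lit 7) (nat_lit 0) (nat_lit 0x805442200) (nat_lit 0xf423ff423f00000f423fb71ae1f156f423fb71ae00000b71ae) (.cons (nat_lit 2) (nat_lit 6) (nat_lit 0) (nat_lit 0x770443000) (nat_lit 0xf423ff423fb71ae00000f423f54591f423f00000f423f7a11d) (.cons (nat_lit 2) (nat_lit 7) (nat_lit 0) (nat_lit 0x805443000) (nat_lit 0xf423ff423f00000f423fb71ae1f156f423f00000f423f7a11d) (.cons (nat_lit 2) (nat_lit 8) (nat_lit 0) (nat_lit 0x65443000) (nat_lit 0xf423f00000f423fb71aea2c2804737f423f00000f423f7a11d) .nil)))))) (.ex (nat_lit 9) (.pd (.cons (nat_lit 3) (nat_lit 7) (nat_lit 0) (nat_lit 0x805440100) (nat_lit 0xf423ff423f00000f423fb71ae1f15600000f423f5459106711) .nil) (.leaf (.cons (nat_lit 0x15014) (nat_lit 0x100020001000000000000000200020000)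 (.cons (nat_lit 0x4054) (nat_lit 0x10000000000000001000200020000) (.cons (nat_lit 0x5510) (nat_lit 0x20003000400030000000100000000) (.cons (nat_lit 0x4015) (nat_lit 0x10000000000000000000200020001) .nil)))) (.cons (nat_lit 0x110001100) (nat_lit 0x1000010) (nat_lit 2) (nat_lit 0x320000100) .nil))) (.split (nat_lit 0xa) (nat_lit 0) (.split (nat_lit 0xa) (nat_lit 1) (.split (nat_lit 0xa) (nat_lit 2) (.split (nat_lit 0xa) (nat_lit 3) (.split (nat_lit 0xa) (nat_lit 4) (.split (nat_lit 0xa) (nat_lit 5) (.split (nat_lit 0xa) (nat_lit 6) (.split (nat_lit 0xa) (nat_lit 7) (.split (nat_lit 0xa) (nat_lit 8) (.leaf (.cons (nat_lit 0x15014) (nat_lit 0x100020001000000000000000200020000) (.cons (nat_lit 0x4054) (nat_lit 0x10000000000000001000200020000) (.cons (nat_lit 0x5510) (nat_lit 0x20003000400030000000100000000) (.cons (nat_lit 0x140015) (nat_lit 0x10002000000000000000000000000000300040003) .nil)))) (.cons (nat_lit 0x110001100) (nat_lit 0x1000010) (nat_lit 2) (nat_lit 0x320000100) .nil)) (.non (nat_lit 1) (nat_lit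 4) (nat_lit 0x115450) (nat_lit 0x10000000200030002000100000001000200000000))) (.non (nat_lit 1) (nat_lit 4) (nat_lit 0x115010) (nat_lit 0x10000000100020001000000000000000100000000))) (.non (nat_lit 1) (nat_lit 4) (nat_lit 0x115410) (nat_lit 0x10000000100020002000100000000000100000000))) (.non (nat_lit 1) (nat_lit 4) (nat_lit 0x155451) (nat_lit 0x30002000300060005000400000002000400000001))) (.non (nat_lit 0) (nat_lit 7) (nat_lit 0x101500) (nat_lit 0x10000000000000001000200020000000000000000))) (.non (nat_lit 1) (nat_lit 4) (nat_lit 0x155451) (nat_lit 0x30002000300060004000200000004000500000001))) (.non (nat_lit 1) (nat_lit 4) (nat_lit 0x115050) (nat_lit 0x10000000100020001000000000001000200000000))) (.non (nat_lit 2) (nat_lit 4) (nat_lit 0x140005) (nat_lit 0x10001000000000000000000000000000000010001))) (.non (nat_lit 1) (nat_lit 4) (nat_lit 0x140001) (nat_lit 0x10001000000000000000000000000000000000001)))))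

noncomputable def t757_56 : Tr := (.split (nat_lit 9) (nat_lit 0) (.pd (.cons (nat_lit 0) (nat_lit 7) (nat_lit 0) (nat_lit 0x9805442110) (nat_lit 0xf423ff423f00000f423fb71ae1f156f423fb71ae1f15600000) (.cons (nat_lit 1) (nat_lit 6) (nat_lit 0) (nat_lit 0x720442200) (nat_lit 0xf423ff423fb71ae00000f423f54591f423f65b97000007a11e) (.cons (nat_lit 1) (nat_lit 7) (nat_lit 0) (nat_lit 0x805442200) (nat_lit 0xf423ff423f00000f423fb71ae1f156f423fb71ae000007a11e) (.cons (nat_lit 2) (nat_lit 6) (nat_lit 0) (nat_lit 0x770443000) (nat_lit 0xf423ff423fb71ae00000f423f54591f423f00000f423f3d08d) (.cons (nat_lit 2) (nat_lit 7) (nat_lit 0) (nat_lit 0x805443000) (nat_lit 0xf423ff423f00000f423fb71ae1f156f423f00000f423f3d08d) (.cons (nat_lit 2) (nat_lit 8) (nat_lit 0) (nat_lit 0x65443000) (nat_lit 0xf423f00000f423fb71aea2c2804737f423f00000f423f3d08d) .nil)))))) (.leaf (.cons (nat_lit 0x15014) (nat_lit 0x100020001000000000000000200020000) (.cons (nat_lit 0x4054) (nat_lit 0x10000000000000001000200020000) (.cons (nat_lit 0x5510)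 (nat_lit 0x20003000400030000000100000000) (.cons (nat_lit 0x40015) (nat_lit 0x1000000000000000000000000000100010001) .nil)))) (.cons (nat_lit 0x110001100) (nat_lit 0x1000010) (nat_lit 2) (nat_lit 0x320000100) .nil))) (.split (nat_lit 9) (nat_lit 0) (.pd (.cons (nat_lit 0) (nat_lit 7) (nat_lit 0) (nat_lit 0x9805442110) (nat_lit 0xf423ff423f00000f423fb71ae1f156f423fb71ae1f15600000) (.cons (nat_lit 1) (nat_lit 6) (nat_lit 0) (nat_lit 0x720442200) (nat_lit 0xf423ff423fb71ae00000f423f54591f423f65b970000054591) (.cons (nat_lit 1) (nat_lit 7) (nat_lit 0) (nat_lit 0x805442200) (nat_lit 0xf423ff423f00000f423fb71ae1f156f423fb71ae0000054591) (.cons (nat_lit 2) (nat_lit 6) (nat_lit 0) (nat_lit 0x770443000) (nat_lit 0xf423ff423fb71ae00000f423f54591f423f00000f423f17500) (.cons (nat_lit 2) (nat_lit 7) (nat_lit 0) (nat_lit 0x805443000) (nat_lit 0xf423ff423f00000f423fb71ae1f156f423f00000f423f17500) (.cons (nat_lit 2) (nat_lit 8) (nat_lit 0) (nat_lit 0x65443000) (nat_lit 0xf423f00000f423fb71aea2c2804737f423f00000f423f17500)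 .nil)))))) (.leaf (.cons (nat_lit 0x15014) (nat_lit 0x100020001000000000000000200020000) (.cons (nat_lit 0x4054) (nat_lit 0x10000000000000001000200020000) (.cons (nat_lit 0x5510) (nat_lit 0x20003000400030000000100000000) (.cons (nat_lit 0x40015) (nat_lit 0x1000000000000000000000000000100010001) .nil)))) (.cons (nat_lit 0x110001100) (nat_lit 0x1000010) (nat_lit 2) (nat_lit 0x320000100) .nil))) (.non (nat_lit 2) (nat_lit 4) (nat_lit 0xc0005) (nat_lit 0x1000000000000000000000000000000010002))))

noncomputable def t757_57 : Tr := (.ex (nat_lit 4) (.ex (nat_lit 5) (.split (nat_lit 7) (nat_lit 2) (.split (nat_lit 8) (nat_lit 7) (.split (nat_lit 9) (nat_lit 0) t757_55 t757_56) (.non (nat_lit 1) (nat_lit 4) (nat_lit 0x25010) (nat_lit 0x100020001000000000000000100000000))) (.non (nat_lit 1) (nat_lit 4) (nat_lit 0x2a010) (nat_lit 0x100020001000000000000000200000000))) (.split (nat_lit 0xa) (nat_lit 0) (.split (nat_lit 0xa) (nat_lit 1) (.split (nat_lit 0xa) (nat_lit 2) (.split (nat_lit 0xa) (nat_lit 3) (.split (nat_lit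 0xa) (nat_lit 6) (.split (nat_lit 0xa) (nat_lit 7) (.split (nat_lit 0xa) (nat_lit 8) (.split (nat_lit 0xa) (nat_lit 9) (.split (nat_lit 0xa) (nat_lit 4) (.unj (nat_lit 0x55) (nat_lit 0x1000200020001) (nat_lit 0x101500) (nat_lit 0x10000000000000001000200020000000000000000)) (.unj (nat_lit 0x100500) (nat_lit 0x10000000000000000000100010000000000000000) (nat_lit 0x55) (nat_lit 0x1000200020001))) (.non (nat_lit 1) (nat_lit 4) (nat_lit 0x155451) (nat_lit 0x30002000300060005000400000002000400000001))) (.non (nat_lit 1) (nat_lit 4) (nat_lit 0x115400) (nat_lit 0x10000000100010001000100000000000000000000))) (.non (nat_lit 1) (nat_lit 4) (nat_lit 0x105400) (nat_lit 0x10000000000010001000100000000000000000000))) (.non (nat_lit 1) (nat_lit 4) (nat_lit 0x101400) (nat_lit 0x10000000000000001000100000000000000000000))) (.non (nat_lit 1) (nat_lit 4) (nat_lit 0x105450) (nat_lit 0x10000000000010001000100000001000100000000))) (.star (nat_lit 0xa) (nat_lit 2) (nat_lit 5))) (.star (nat_lit 0xa) (nat_lit 1) (nat_lit 5))) (.non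 (nat_lit 1) (nat_lit 4) (nat_lit 0x155451) (nat_lit 0x30001000300060005000400000002000400000002)))) (.split (nat_lit 0xa) (nat_lit 1) (.split (nat_lit 0xa) (nat_lit 2) (.split (nat_lit 0xa) (nat_lit 6) (.split (nat_lit 0xa) (nat_lit 7) (.split (nat_lit 0xa) (nat_lit 8) (.split (nat_lit 0xa) (nat_lit 0) (.split (nat_lit 0xa) (nat_lit 3) (.split (nat_lit 0xa) (nat_lit 5) (.split (nat_lit 0xa) (nat_lit 9) (.unj (nat_lit 0x55) (nat_lit 0x1000200020001) (nat_lit 0x101500) (nat_lit 0x10000000000000001000200020000000000000000)) (.unj (nat_lit 0x55) (nat_lit 0x1000200020001) (nat_lit 0x101500) (nat_lit 0x10000000000000001000200020000000000000000))) (.split (nat_lit 0xa) (nat_lit 9) (.unj (nat_lit 0x100500) (nat_lit 0x10000000000000000000100010000000000000000) (nat_lit 0x55) (nat_lit 0x1000200020001)) (.non (nat_lit 1) (nat_lit 4) (nat_lit 0x155451) (nat_lit 0x30002000300060005000400000002000400000001)))) (.split (nat_lit 0xa) (nat_lit 5) (.split (nat_lit 0xa) (nat_lit 9) (.sup (nat_lit 0x200000000000000000009000a0005)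 (nat_lit 0x500000000000000020009000a0000000000000000)) (.non (nat_lit 1) (nat_lit 4) (nat_lit 0x155451) (nat_lit 0x30002000300060004000200000004000500000001))) (.non (nat_lit 1) (nat_lit 4) (nat_lit 0x105450) (nat_lit 0x10000000000010001000100000001000100000000)))) (.split (nat_lit 0xa) (nat_lit 3) (.split (nat_lit 0xa) (nat_lit 5) (.split (nat_lit 0xa) (nat_lit 9) (.sup (nat_lit 0x10000000000000003000500040000) (nat_lit 0x30000000000000001000500050000000000000000)) (.non (nat_lit 1) (nat_lit 4) (nat_lit 0x140001) (nat_lit 0x10001000000000000000000000000000000000001))) (.non (nat_lit 1) (nat_lit 4) (nat_lit 0x155451) (nat_lit 0x30001000300060005000400000002000400000002))) (.non (nat_lit 1) (nat_lit 4) (nat_lit 0x155451) (nat_lit 0x30001000300060004000200000004000500000002)))) (.non (nat_lit 1) (nat_lit 4) (nat_lit 0x115450) (nat_lit 0x10000000200030002000100000001000200000000))) (.non (nat_lit 1) (nat_lit 4) (nat_lit 0x115010) (nat_lit 0x10000000100020001000000000000000100000000))) (.non (nat_lit 1) (nat_lit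 4) (nat_lit 0x115410) (nat_lit 0x10000000100020002000100000000000100000000))) (.star (nat_lit 0xa) (nat_lit 2) (nat_lit 4))) (.star (nat_lit 0xa) (nat_lit 1) (nat_lit 4))))

noncomputable def t757_58 : Tr := (.ex (nat_lit 0xa) (.pd (.cons (nat_lit 0) (nat_lit 7) (nat_lit 0) (nat_lit 0x39805442110) (nat_lit 0xf423ff423ff423f00000f423fb71ae1f156b71aea2c280473700000) .nil) (.leaf (.cons (nat_lit 0x15014) (nat_lit 0x100020001000000000000000200020000) (.cons (nat_lit 0x4054) (nat_lit 0x10000000000000001000200020000) (.cons (nat_lit 0x5510) (nat_lit 0x20003000400030000000100000000) (.cons (nat_lit 0x4015) (nat_lit 0x10000000000000000000200020001) .nil)))) (.cons (nat_lit 0x10110001100) (nat_lit 0x1000010) (nat_lit 3) (nat_lit 0x40010003200) .nil))) (.split (nat_lit 0xb) (nat_lit 0) (.split (nat_lit 0xb) (nat_lit 1) (.split (nat_lit 0xb) (nat_lit 2) (.split (nat_lit 0xb) (nat_lit 3) (.split (nat_lit 0xb) (nat_lit 4) (.split (nat_lit 0xb) (nat_lit 5) (.split (nat_lit 0xb) (nat_lit 6) (.split (nat_lit 0xb) (nat_lit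 7) (.split (nat_lit 0xb) (nat_lit 8) (.split (nat_lit 0xb) (nat_lit 9) (.st (nat_lit 0xa) (nat_lit 1) (nat_lit 4) (nat_lit 0x515050) (nat_lit 0x100020000000100020001000000000002000200000000) (nat_lit 1) (nat_lit 1) (.st (nat_lit 0xb) (nat_lit 1) (nat_lit 4) (nat_lit 0x515450) (nat_lit 0x200030000000300060004000200000004000500000000) (nat_lit 1) (nat_lit 1) (.split (nat_lit 0xb) (nat_lit 0xa) (.leaf (.cons (nat_lit 0x15014) (nat_lit 0x100020001000000000000000200020000) (.cons (nat_lit 0x500054) (nat_lit 0x100020000000000000000000000000003000400030000) (.cons (nat_lit 0x5510) (nat_lit 0x20003000400030000000100000000) (.cons (nat_lit 0x4015) (nat_lit 0x10000000000000000000200020001) .nil)))) (.cons (nat_lit 0x110111101100) (nat_lit 0x10010) (nat_lit 0xe) (nat_lit 0x760102305400) (.cons (nat_lit 0x110111001100) (nat_lit 0x100010) (nat_lit 0xa) (nat_lit 0x650201004300) .nil))) (.non (nat_lit 1) (nat_lit 4) (nat_lit 0x915050) (nat_lit 0x100020000000100020001000000000002000200000000))))) (.non (nat_lit 1) (nat_lit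 4) (nat_lit 0x555450) (nat_lit 0x200030001000300060004000200000004000500000000))) (.non (nat_lit 1) (nat_lit 4) (nat_lit 0x514050) (nat_lit 0x100010000000100010000000000000001000100000000))) (.non (nat_lit 1) (nat_lit 4) (nat_lit 0x415010) (nat_lit 0x100000000000100020001000000000000000100000000))) (.non (nat_lit 1) (nat_lit 4) (nat_lit 0x415410) (nat_lit 0x100000000000100020002000100000000000100000000))) (.non (nat_lit 1) (nat_lit 4) (nat_lit 0x505450) (nat_lit 0x100010000000000010001000100000001000100000000))) (.non (nat_lit 1) (nat_lit 6) (nat_lit 0x500540) (nat_lit 0x300020000000000000000000300040001000000000000))) (.non (nat_lit 1) (nat_lit 4) (nat_lit 0x500040) (nat_lit 0x100010000000000000000000000000001000000000000))) (.non (nat_lit 1) (nat_lit 4) (nat_lit 0x500050) (nat_lit 0x100010000000000000000000000000001000100000000))) (.non (nat_lit 3) (nat_lit 7) (nat_lit 0x400015) (nat_lit 0x100000000000000000000000000000000000200020001))) (.non (nat_lit 1) (nat_lit 4) (nat_lit 0x515451) (nat_lit 0x200030000000300060004000200000004000500000001))))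

noncomputable def t757_59 : Tr := (.split (nat_lit 0xc) (nat_lit 9) (.split (nat_lit 0xc) (nat_lit 0xb) (.split (nat_lit 0xc) (nat_lit 1) (.st (nat_lit 0xa) (nat_lit 1) (nat_lit 4) (nat_lit 0x1115050) (nat_lit 0x1000000020000000100020001000000000002000200000000) (nat_lit 1) (nat_lit 1) (.st (nat_lit 0xc) (nat_lit 1) (nat_lit 4) (nat_lit 0x1115450) (nat_lit 0x2000000030000000300060004000200000004000500000000) (nat_lit 1) (nat_lit 1) (.split (nat_lit 0xb) (nat_lit 9) (.split (nat_lit 0xc) (nat_lit 0xa) (.leaf (.cons (nat_lit 0x15014) (nat_lit 0x100020001000000000000000200020000) (.cons (nat_lit 0x1100054) (nat_lit 0x1000000020000000000000000000000000003000400030000) (.cons (nat_lit 0x5510) (nat_lit 0x20003000400030000000100000000) (.cons (nat_lit 0x440015) (nat_lit 0x100000002000000000000000000000000000300040003) .nil)))) (.cons (nat_lit 0x1010111101100) (nat_lit 0x10010) (nat_lit 0xe) (nat_lit 0x7060102305400) (.cons (nat_lit 0x1010111001100) (nat_lit 0x100010) (nat_lit 0xa) (nat_lit 0x6050201004300) .nil)))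 (.non (nat_lit 1) (nat_lit 4) (nat_lit 0x2115050) (nat_lit 0x1000000020000000100020001000000000002000200000000))) (.st (nat_lit 9) (nat_lit 1) (nat_lit 4) (nat_lit 0x840001) (nat_lit 0x100000002000000000000000000000000000000000001) (nat_lit 1) (nat_lit 1) (.st (nat_lit 0xb) (nat_lit 2) (nat_lit 4) (nat_lit 0x840005) (nat_lit 0x200000003000000000000000000000000000000010002) (nat_lit 2) (nat_lit 1) (.split (nat_lit 0xb) (nat_lit 9) (.split (nat_lit 0xc) (nat_lit 0xa) (.leaf (.cons (nat_lit 0x15014) (nat_lit 0x100020001000000000000000200020000) (.cons (nat_lit 0x1100054) (nat_lit 0x1000000020000000000000000000000000003000400030000) (.cons (nat_lit 0x5510) (nat_lit 0x20003000400030000000100000000) (.cons (nat_lit 0x440015) (nat_lit 0x100000001000000000000000000000000000100010001) .nil)))) (.cons (nat_lit 0x1010111101100) (nat_lit 0x10010) (nat_lit 0xe) (nat_lit 0x7060102305400) (.cons (nat_lit 0x1010111001100) (nat_lit 0x100010) (nat_lit 0xa) (nat_lit 0x6050201004300) .nil))) (.non (nat_lit 1) (nat_lit 4) (nat_lit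 0x2115050) (nat_lit 0x1000000020000000100020001000000000002000200000000))) (.sup (nat_lit 0x80000000a000000000000000000000000000100040007) (nat_lit 0x200040007000a00080000000000000000)))))))) (.sup (nat_lit 0x30007000b0010000d0000000000000000) (nat_lit 0x4000100030002000000000000000000000002000100040003))) (.non (nat_lit 1) (nat_lit 4) (nat_lit 0x1515450) (nat_lit 0x2000100030000000300060004000200000004000500000000))) (.non (nat_lit 1) (nat_lit 4) (nat_lit 0x1155450) (nat_lit 0x2000000030001000300060004000200000004000500000000)))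

noncomputable def t757_60 : Tr := (.split (nat_lit 0xb) (nat_lit 4) (.split (nat_lit 0xb) (nat_lit 5) (.split (nat_lit 0xb) (nat_lit 6) (.split (nat_lit 0xb) (nat_lit 7) (.split (nat_lit 0xb) (nat_lit 8) (.split (nat_lit 0xb) (nat_lit 0xa) (.ex (nat_lit 0xa) (.pd (.cons (nat_lit 0) (nat_lit 7) (nat_lit 0x101000000000) (nat_lit 0x93b805442110) (nat_lit 0x1f423f00001f423f00000f423fb71ae1f156b71aea2c280473700000) .nil) (.leaf (.cons (nat_lit 0x15014) (nat_lit 0x100020001000000000000000200020000) (.cons (nat_lit 0x4054) (nat_lit 0x10000000000000001000200020000) (.cons (nat_lit 0x5510) (nat_lit 0x20003000400030000000100000000) (.cons (nat_lit 0x440015) (nat_lit 0x100000002000000000000000000000000000300040003) .nil)))) (.cons (nat_lit 0x10110001100) (nat_lit 0x1000010) (nat_lit 3) (nat_lit 0x40010003200) .nil))) (.split (nat_lit 0xc) (nat_lit 0) (.split (nat_lit 0xc) (nat_lit 2) (.split (nat_lit 0xc) (nat_lit 3) (.split (nat_lit 0xc) (nat_lit 4) (.split (nat_lit 0xc) (nat_lit 5) (.split (nat_lit 0xc) (nat_lit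 6) (.split (nat_lit 0xc) (nat_lit 7) (.split (nat_lit 0xc) (nat_lit 8) t757_59 (.non (nat_lit 1) (nat_lit 4) (nat_lit 0x1114050) (nat_lit 0x1000000010000000100010000000000000001000100000000))) (.non (nat_lit 1) (nat_lit 4) (nat_lit 0x1015010) (nat_lit 0x1000000000000000100020001000000000000000100000000))) (.non (nat_lit 1) (nat_lit 4) (nat_lit 0x1015410) (nat_lit 0x1000000000000000100020002000100000000000100000000))) (.non (nat_lit 1) (nat_lit 4) (nat_lit 0x1105450) (nat_lit 0x1000000010000000000010001000100000001000100000000))) (.non (nat_lit 1) (nat_lit 6) (nat_lit 0x1100540) (nat_lit 0x3000000020000000000000000000300040001000000000000))) (.non (nat_lit 1) (nat_lit 4) (nat_lit 0x1100040) (nat_lit 0x1000000010000000000000000000000000001000000000000))) (.non (nat_lit 1) (nat_lit 4) (nat_lit 0x1100050) (nat_lit 0x1000000010000000000000000000000000001000100000000))) (.non (nat_lit 1) (nat_lit 4) (nat_lit 0x1115451) (nat_lit 0x2000000030000000300060004000200000004000500000001)))) (.non (nat_lit 1) (nat_lit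 4) (nat_lit 0x555450) (nat_lit 0x200030001000300060004000200000004000500000000))) (.non (nat_lit 1) (nat_lit 4) (nat_lit 0x555050) (nat_lit 0x200010001000300040002000000000002000300000000))) (.non (nat_lit 1) (nat_lit 4) (nat_lit 0x415010) (nat_lit 0x100000000000100020001000000000000000100000000))) (.non (nat_lit 1) (nat_lit 4) (nat_lit 0x415410) (nat_lit 0x100000000000100020002000100000000000100000000))) (.non (nat_lit 1) (nat_lit 4) (nat_lit 0x515450) (nat_lit 0x100010000000200040003000200000002000300000000))) (.non (nat_lit 1) (nat_lit 6) (nat_lit 0x440501) (nat_lit 0x300000002000000000000000300040000000000000001)))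

noncomputable def t757_61 : Tr := (.ex (nat_lit 0xa) (.pd (.cons (nat_lit 0) (nat_lit 7) (nat_lit 0) (nat_lit 0x39805442110) (nat_lit 0xf423ff423ff423f00000f423fb71ae1f156b71aea2c280473700000) .nil) (.leaf (.cons (nat_lit 0x15014) (nat_lit 0x100020001000000000000000200020000) (.cons (nat_lit 0x4054) (nat_lit 0x10000000000000001000200020000) (.cons (nat_lit 0x5510) (nat_lit 0x20003000400030000000100000000) (.cons (nat_lit 0x40015) (nat_lit 0x1000000000000000000000000000100010001) .nil)))) (.cons (nat_lit 0x10110001100) (nat_lit 0x1000010) (nat_lit 3) (nat_lit 0x40010003200) .nil))) (.split (nat_lit 0xb) (nat_lit 0) (.split (nat_lit 0xb) (nat_lit 2) (.split (nat_lit 0xb) (nat_lit 3) (.split (nat_lit 0xb) (nat_lit 4) (.split (nat_lit 0xb) (nat_lit 5) (.split (nat_lit 0xb) (nat_lit 6) (.split (nat_lit 0xb) (nat_lit 7) (.split (nat_lit 0xb) (nat_lit 8) (.split (nat_lit 0xb) (nat_lit 9) (.split (nat_lit 0xb) (nat_lit 1) (.st (nat_lit 0xa) (nat_lit 1) (nat_lit 4) (nat_lit 0x515050) (nat_lit 0x100020000000100020001000000000002000200000000)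 (nat_lit 1) (nat_lit 1) (.st (nat_lit 0xb) (nat_lit 1) (nat_lit 4) (nat_lit 0x515450) (nat_lit 0x200030000000300060004000200000004000500000000) (nat_lit 1) (nat_lit 1) (.split (nat_lit 0xb) (nat_lit 0xa) (.leaf (.cons (nat_lit 0x15014) (nat_lit 0x100020001000000000000000200020000) (.cons (nat_lit 0x500054) (nat_lit 0x100020000000000000000000000000003000400030000) (.cons (nat_lit 0x5510) (nat_lit 0x20003000400030000000100000000) (.cons (nat_lit 0x40015) (nat_lit 0x1000000000000000000000000000100010001) .nil)))) (.cons (nat_lit 0x110111101100) (nat_lit 0x10010) (nat_lit 0xe) (nat_lit 0x760102305400) (.cons (nat_lit 0x110111001100) (nat_lit 0x100010) (nat_lit 0xa) (nat_lit 0x650201004300) .nil))) (.non (nat_lit 1) (nat_lit 4) (nat_lit 0x915050) (nat_lit 0x100020000000100020001000000000002000200000000))))) (.sup (nat_lit 0x40007000b0010000d0000000000000000) (nat_lit 0x300020003000000000000000000000002000100040004))) (.non (nat_lit 1) (nat_lit 4) (nat_lit 0x555450) (nat_lit 0x200030001000300060004000200000004000500000000)))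 (.non (nat_lit 1) (nat_lit 4) (nat_lit 0x514050) (nat_lit 0x100010000000100010000000000000001000100000000))) (.non (nat_lit 1) (nat_lit 4) (nat_lit 0x415010) (nat_lit 0x100000000000100020001000000000000000100000000))) (.non (nat_lit 1) (nat_lit 4) (nat_lit 0x415410) (nat_lit 0x100000000000100020002000100000000000100000000))) (.non (nat_lit 1) (nat_lit 4) (nat_lit 0x505450) (nat_lit 0x100010000000000010001000100000001000100000000))) (.non (nat_lit 1) (nat_lit 6) (nat_lit 0x500540) (nat_lit 0x300020000000000000000000300040001000000000000))) (.non (nat_lit 1) (nat_lit 4) (nat_lit 0x500040) (nat_lit 0x100010000000000000000000000000001000000000000))) (.non (nat_lit 1) (nat_lit 4) (nat_lit 0x500050) (nat_lit 0x100010000000000000000000000000001000100000000))) (.non (nat_lit 1) (nat_lit 4) (nat_lit 0x595051) (nat_lit 0x200020001000100020001000000000002000200000002))))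

noncomputable def t757_62 : Tr := (.split (nat_lit 0xa) (nat_lit 3) (.split (nat_lit 8) (nat_lit 7) (.split (nat_lit 9) (nat_lit 0) (.pd (.cons (nat_lit 1) (nat_lit 6) (nat_lit 0) (nat_lit 0x30720442200) (nat_lit 0xf423ff423ff423fb71ae00000f423f54591b71ae5161100000b71ae) (.cons (nat_lit 1) (nat_lit 7) (nat_lit 0) (nat_lit 0x30805442200) (nat_lit 0xf423ff423ff423f00000f423fb71ae1f156b71aea2c2800000b71ae) (.cons (nat_lit 2) (nat_lit 6) (nat_lit 0) (nat_lit 0x30770443000) (nat_lit 0xf423ff423ff423fb71ae00000f423f54591b71ae00000f423f7a11d) (.cons (nat_lit 2) (nat_lit 7) (nat_lit 0) (nat_lit 0x30805443000) (nat_lit 0xf423ff423ff423f00000f423fb71ae1f156b71ae00000f423f7a11d) (.cons (nat_lit 2) (nat_lit 8) (nat_lit 0) (nat_lit 0x30065443000) (nat_lit 0xf423ff423f00000f423fb71aea2c2804737b71ae00000f423f7a11d) .nil))))) (.ex (nat_lit 9) (.pd (.cons (nat_lit 3) (nat_lit 7) (nat_lit 0) (nat_lit 0xa0805440100) (nat_lit 0xf423ff423ff423f00000f423fb71ae1f15600000f423f5459106711) .nil) t757_58) (.split (nat_lit 0xb) (nat_lit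 0) (.split (nat_lit 0xb) (nat_lit 1) (.split (nat_lit 0xb) (nat_lit 2) (.split (nat_lit 0xb) (nat_lit 3) t757_60 (.non (nat_lit 1) (nat_lit 4) (nat_lit 0x515050) (nat_lit 0x100010000000100020001000000000002000200000000))) (.non (nat_lit 1) (nat_lit 4) (nat_lit 0x554050) (nat_lit 0x200010001000100020000000000000002000300000000))) (.non (nat_lit 2) (nat_lit 4) (nat_lit 0x440005) (nat_lit 0x100000001000000000000000000000000000000010001))) (.non (nat_lit 1) (nat_lit 4) (nat_lit 0x440001) (nat_lit 0x100000001000000000000000000000000000000000001))))) (.split (nat_lit 9) (nat_lit 0) (.pd (.cons (nat_lit 1) (nat_lit 6) (nat_lit 0) (nat_lit 0x30720442200) (nat_lit 0xf423ff423ff423fb71ae00000f423f54591b71ae51611000007a11e) (.cons (nat_lit 1) (nat_lit 7) (nat_lit 0) (nat_lit 0x30805442200) (nat_lit 0xf423ff423ff423f00000f423fb71ae1f156b71aea2c28000007a11e) (.cons (nat_lit 2) (nat_lit 6) (nat_lit 0) (nat_lit 0x30770443000) (nat_lit 0xf423ff423ff423fb71ae00000f423f54591b71ae00000f423f3d08d) (.cons (nat_lit 2) (nat_lit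 7) (nat_lit 0) (nat_lit 0x30805443000) (nat_lit 0xf423ff423ff423f00000f423fb71ae1f156b71ae00000f423f3d08d) (.cons (nat_lit 2) (nat_lit 8) (nat_lit 0) (nat_lit 0x30065443000) (nat_lit 0xf423ff423f00000f423fb71aea2c2804737b71ae00000f423f3d08d) .nil))))) t757_61) (.sup (nat_lit 0x6000c00160020001a0000000000000000) (nat_lit 0x1000c0000000000000000000000020004000b000f)))) (.non (nat_lit 1) (nat_lit 4) (nat_lit 0x25010) (nat_lit 0x100020001000000000000000100000000))) (.non (nat_lit 1) (nat_lit 4) (nat_lit 0x215050) (nat_lit 0x10000000100020001000000000002000200000000)))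

noncomputable def t757_63 : Tr := (.split (nat_lit 0xa) (nat_lit 1) (.split (nat_lit 0xa) (nat_lit 4) (.st (nat_lit 3) (nat_lit 1) (nat_lit 4) (nat_lit 0x115050) (nat_lit 0x10000000100020001000000000002000200000000) (nat_lit 1) (nat_lit 1) (.st (nat_lit 5) (nat_lit 1) (nat_lit 4) (nat_lit 0x115450) (nat_lit 0x10000000200040003000200000002000300000000) (nat_lit 1) (nat_lit 1) (.ex (nat_lit 4) (.split (nat_lit 7) (nat_lit 2) t757_62 (.non (nat_lit 1) (nat_lit 4) (nat_lit 0x2a010) (nat_lit 0x100020001000000000000000200000000))) (.split (nat_lit 0xb) (nat_lit 1) (.split (nat_lit 0xb) (nat_lit 2) (.split (nat_lit 0xb) (nat_lit 3) (.split (nat_lit 0xb) (nat_lit 5) (.split (nat_lit 0xb) (nat_lit 6) (.split (nat_lit 0xb) (nat_lit 7) (.split (nat_lit 0xb) (nat_lit 8) (.split (nat_lit 0xb) (nat_lit 0) (.split (nat_lit 0xb) (nat_lit 9) (.split (nat_lit 0xb) (nat_lit 0xa) (.unj (nat_lit 0x55) (nat_lit 0x1000200020001) (nat_lit 0x401500) (nat_lit 0x100000000000000000001000200020000000000000000)) (.unj (nat_lit 0x55)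 (nat_lit 0x1000200020001) (nat_lit 0x401500) (nat_lit 0x100000000000000000001000200020000000000000000))) (.split (nat_lit 0xb) (nat_lit 0xa) (.unj (nat_lit 0x55) (nat_lit 0x1000200020001) (nat_lit 0x401500) (nat_lit 0x100000000000000000001000200020000000000000000)) (.non (nat_lit 1) (nat_lit 4) (nat_lit 0x555450) (nat_lit 0x200030001000300060004000200000004000500000000)))) (.split (nat_lit 0xb) (nat_lit 9) (.split (nat_lit 0xb) (nat_lit 0xa) (.sup (nat_lit 0x10000000000000003000500040000) (nat_lit 0x300000000000000000001000500050000000000000000)) (.non (nat_lit 1) (nat_lit 4) (nat_lit 0x515451) (nat_lit 0x200030000000300060004000200000004000500000001))) (.non (nat_lit 1) (nat_lit 4) (nat_lit 0x440001) (nat_lit 0x100000001000000000000000000000000000000000001)))) (.non (nat_lit 1) (nat_lit 4) (nat_lit 0x415450) (nat_lit 0x100000000000200030002000100000001000200000000))) (.non (nat_lit 1) (nat_lit 4) (nat_lit 0x415010) (nat_lit 0x100000000000100020001000000000000000100000000))) (.non (nat_lit 1) (nat_lit 4)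 (nat_lit 0x415410) (nat_lit 0x100000000000100020002000100000000000100000000))) (.non (nat_lit 1) (nat_lit 4) (nat_lit 0x515450) (nat_lit 0x100010000000200040003000200000002000300000000))) (.non (nat_lit 1) (nat_lit 4) (nat_lit 0x515050) (nat_lit 0x100010000000100020001000000000002000200000000))) (.star (nat_lit 0xb) (nat_lit 2) (nat_lit 4))) (.star (nat_lit 0xb) (nat_lit 1) (nat_lit 4)))))) (.sup (nat_lit 0x200000000000000000009000a0005) (nat_lit 0x500000000000000020009000a0000000000000000))) (.split (nat_lit 0xa) (nat_lit 4) (.split (nat_lit 0xa) (nat_lit 1) (.split (nat_lit 0xa) (nat_lit 3) (.split (nat_lit 9) (nat_lit 0) (.split (nat_lit 8) (nat_lit 7) (.split (nat_lit 7) (nat_lit 2) (.sup (nat_lit 0x30006000b0010000d0000000000000000) (nat_lit 0x30001000000000000000000000002000200040003)) (.non (nat_lit 1) (nat_lit 4) (nat_lit 0x2a010) (nat_lit 0x100020001000000000000000200000000))) (.non (nat_lit 1) (nat_lit 4) (nat_lit 0x25010) (nat_lit 0x100020001000000000000000100000000))) (.split (nat_lit 9) (nat_lit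 0) (.split (nat_lit 8) (nat_lit 7) (.split (nat_lit 7) (nat_lit 2) (.sup (nat_lit 0x30007000b0010000d0000000000000000) (nat_lit 0x30003000000000000000000000002000100040004)) (.non (nat_lit 1) (nat_lit 4) (nat_lit 0x2a010) (nat_lit 0x100020001000000000000000200000000))) (.non (nat_lit 1) (nat_lit 4) (nat_lit 0x25010) (nat_lit 0x100020001000000000000000100000000))) (.non (nat_lit 2) (nat_lit 4) (nat_lit 0x140045) (nat_lit 0x20003000000000000000000000001000000030004)))) (.non (nat_lit 1) (nat_lit 4) (nat_lit 0x215050) (nat_lit 0x10000000100020001000000000002000200000000))) (.non (nat_lit 2) (nat_lit 4) (nat_lit 0x240085) (nat_lit 0x20001000000000000000000000001000000030002))) (.star (nat_lit 0xa) (nat_lit 1) (nat_lit 4))))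

noncomputable def t757_64 : Tr := (.split (nat_lit 0xc) (nat_lit 0) (.split (nat_lit 0xc) (nat_lit 2) (.split (nat_lit 0xc) (nat_lit 3) (.split (nat_lit 0xc) (nat_lit 4) (.split (nat_lit 0xc) (nat_lit 5) (.split (nat_lit 0xc) (nat_lit 6) (.split (nat_lit 0xc) (nat_lit 7) (.split (nat_lit 0xc) (nat_lit 8) (.split (nat_lit 0xc) (nat_lit 9) (.split (nat_lit 0xc) (nat_lit 0xa) (.split (nat_lit 0xc) (nat_lit 1) (.st (nat_lit 0xb) (nat_lit 1) (nat_lit 4) (nat_lit 0x1415050) (nat_lit 0x1000200000000000100020001000000000002000200000000) (nat_lit 1) (nat_lit 1) (.st (nat_lit 0xc) (nat_lit 1) (nat_lit 4) (nat_lit 0x1415450) (nat_lit 0x2000300000000000300060004000200000004000500000000) (nat_lit 1) (nat_lit 1) (.split (nat_lit 0xc) (nat_lit 0xb) (.leaf (.cons (nat_lit 0x104014) (nat_lit 0x10000000000010000000000000000000200020000) (.cons (nat_lit 0x1400054) (nat_lit 0x1000200000000000000000000000000000003000400030000) (.cons (nat_lit 0x5510) (nat_lit 0x20003000400030000000100000000) (.cons (nat_lit 0x100015) (nat_lit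 0x10000000000000000000000000000000200020001) .nil)))) (.cons (nat_lit 0x1100111101100) (nat_lit 0x10010) (nat_lit 0xe) (nat_lit 0x7600102305400) (.cons (nat_lit 0x1100111001100) (nat_lit 0x100010) (nat_lit 0xa) (nat_lit 0x6500201004300) .nil))) (.non (nat_lit 1) (nat_lit 4) (nat_lit 0x2415050) (nat_lit 0x1000200000000000100020001000000000002000200000000))))) (.sup (nat_lit 0x7000f00170020001a0000000000000000) (nat_lit 0x6000400040003000000000000000000000002000100080006))) (.non (nat_lit 1) (nat_lit 4) (nat_lit 0x1515450) (nat_lit 0x2000300010000000300060004000200000004000500000000))) (.non (nat_lit 1) (nat_lit 4) (nat_lit 0x1455450) (nat_lit 0x2000300000001000300060004000200000004000500000000))) (.non (nat_lit 1) (nat_lit 4) (nat_lit 0x1414050) (nat_lit 0x1000100000000000100010000000000000001000100000000))) (.non (nat_lit 1) (nat_lit 4) (nat_lit 0x1015010) (nat_lit 0x1000000000000000100020001000000000000000100000000))) (.non (nat_lit 1) (nat_lit 4) (nat_lit 0x1015410) (nat_lit 0x1000000000000000100020002000100000000000100000000)))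 (.non (nat_lit 1) (nat_lit 4) (nat_lit 0x1405450) (nat_lit 0x1000100000000000000010001000100000001000100000000))) (.non (nat_lit 1) (nat_lit 6) (nat_lit 0x1400540) (nat_lit 0x3000200000000000000000000000300040001000000000000))) (.non (nat_lit 1) (nat_lit 4) (nat_lit 0x1400040) (nat_lit 0x1000100000000000000000000000000000001000000000000))) (.non (nat_lit 1) (nat_lit 4) (nat_lit 0x1400050) (nat_lit 0x1000100000000000000000000000000000001000100000000))) (.non (nat_lit 1) (nat_lit 4) (nat_lit 0x1415451) (nat_lit 0x2000300000000000300060004000200000004000500000001)))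

noncomputable def t757_65 : Tr := (.ex (nat_lit 3) (.leaf (.cons (nat_lit 0x104014) (nat_lit 0x10000000000010000000000000000000200020000) (.cons (nat_lit 0x100054) (nat_lit 0x10000000000000000000000000001000200020000) (.cons (nat_lit 0x5510) (nat_lit 0x20003000400030000000100000000) (.cons (nat_lit 0x100015) (nat_lit 0x10000000000000000000000000000000200020001) .nil)))) (.cons (nat_lit 0x110001100) (nat_lit 0x1000010) (nat_lit 2) (nat_lit 0x320000100) .nil)) (.split (nat_lit 0xb) (nat_lit 0) (.split (nat_lit 0xb) (nat_lit 2) (.split (nat_lit 0xb) (nat_lit 4) (.split (nat_lit 0xb) (nat_lit 5) (.split (nat_lit 0xb) (nat_lit 6) (.split (nat_lit 0xb) (nat_lit 7) (.split (nat_lit 0xb) (nat_lit 8) (.split (nat_lit 0xb) (nat_lit 9) (.split (nat_lit 0xb) (nat_lit 1) (.split (nat_lit 0xb) (nat_lit 0xa) (.st (nat_lit 3) (nat_lit 1) (nat_lit 4) (nat_lit 0x415050) (nat_lit 0x100000000000100020001000000000002000200000000) (nat_lit 1) (nat_lit 1) (.split (nat_lit 0xb) (nat_lit 3) (.ex (nat_lit 0xb) (.leaf (.cons (nat_lit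 0x104014) (nat_lit 0x10000000000010000000000000000000200020000) (.cons (nat_lit 0x100054) (nat_lit 0x10000000000000000000000000001000200020000) (.cons (nat_lit 0x5510) (nat_lit 0x20003000400030000000100000000) (.cons (nat_lit 0x100015) (nat_lit 0x10000000000000000000000000000000200020001) .nil)))) (.cons (nat_lit 0x100110001100) (nat_lit 0x1000010) (nat_lit 3) (nat_lit 0x400010003200) .nil)) t757_64) (.non (nat_lit 1) (nat_lit 4) (nat_lit 0x815050) (nat_lit 0x100000000000100020001000000000002000200000000)))) (.sup (nat_lit 0x6000d00160020001a0000000000000000) (nat_lit 0x600070003000000000000000000000004000300090006))) (.split (nat_lit 0xb) (nat_lit 0xa) (.sup (nat_lit 0x7000f00170020001a0000000000000000) (nat_lit 0x600040003000000000000000000000003000100080005)) (.non (nat_lit 2) (nat_lit 4) (nat_lit 0x500004) (nat_lit 0x100010000000000000000000000000000000000010000)))) (.non (nat_lit 1) (nat_lit 4) (nat_lit 0x455451) (nat_lit 0x300000002000300060004000200000004000500000001))) (.non (nat_lit 1) (nat_lit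 4) (nat_lit 0x414050) (nat_lit 0x100000000000100010000000000000001000100000000))) (.non (nat_lit 1) (nat_lit 4) (nat_lit 0x415010) (nat_lit 0x100000000000100020001000000000000000100000000))) (.non (nat_lit 1) (nat_lit 4) (nat_lit 0x415410) (nat_lit 0x100000000000100020002000100000000000100000000))) (.non (nat_lit 1) (nat_lit 4) (nat_lit 0x405450) (nat_lit 0x100000000000000010001000100000001000100000000))) (.non (nat_lit 1) (nat_lit 6) (nat_lit 0x400550) (nat_lit 0x300000000000000000000000300040002000100000000))) (.non (nat_lit 1) (nat_lit 4) (nat_lit 0x400050) (nat_lit 0x100000000000000000000000000000001000100000000))) (.non (nat_lit 1) (nat_lit 4) (nat_lit 0x455451) (nat_lit 0x300000001000300060004000200000004000500000002))))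

noncomputable def t757_66 : Tr := (.split (nat_lit 0xd) (nat_lit 2) (.split (nat_lit 0xd) (nat_lit 3) (.split (nat_lit 0xd) (nat_lit 4) (.split (nat_lit 0xd) (nat_lit 5) (.split (nat_lit 0xd) (nat_lit 6) (.split (nat_lit 0xd) (nat_lit 7) (.split (nat_lit 0xd) (nat_lit 8) (.split (nat_lit 0xd) (nat_lit 9) (.split (nat_lit 0xd) (nat_lit 0xa) (.split (nat_lit 0xd) (nat_lit 0xb) (.st (nat_lit 0xc) (nat_lit 1) (nat_lit 4) (nat_lit 0x5015050) (nat_lit 0x10002000000000000000100020001000000000002000200000000) (nat_lit 1) (nat_lit 1) (.st (nat_lit 0xd) (nat_lit 1) (nat_lit 4) (nat_lit 0x5015450) (nat_lit 0x20003000000000000000300060004000200000004000500000000) (nat_lit 1) (nat_lit 1) (.split (nat_lit 0xd) (nat_lit 0xc) (.leaf (.cons (nat_lit 0x104014) (nat_lit 0x10000000000010000000000000000000200020000) (.cons (nat_lit 0x5000054) (nat_lit 0x10002000000000000000000000000000000000003000400030000) (.cons (nat_lit 0x5510) (nat_lit 0x20003000400030000000100000000) (.cons (nat_lit 0x100015) (nat_lit 0x10000000000000000000000000000000200020001)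 .nil)))) (.cons (nat_lit 0x11000111101100) (nat_lit 0x10010) (nat_lit 0xe) (nat_lit 0x76000102305400) (.cons (nat_lit 0x11000111001100) (nat_lit 0x100010) (nat_lit 0xa) (nat_lit 0x65000201004300) .nil))) (.non (nat_lit 1) (nat_lit 4) (nat_lit 0x9015050) (nat_lit 0x10002000000000000000100020001000000000002000200000000))))) (.non (nat_lit 1) (nat_lit 4) (nat_lit 0x5415450) (nat_lit 0x20003000100000000000300060004000200000004000500000000))) (.non (nat_lit 1) (nat_lit 4) (nat_lit 0x5115450) (nat_lit 0x20003000000010000000300060004000200000004000500000000))) (.non (nat_lit 1) (nat_lit 4) (nat_lit 0x5055450) (nat_lit 0x20003000000000001000300060004000200000004000500000000))) (.non (nat_lit 1) (nat_lit 4) (nat_lit 0x5014050) (nat_lit 0x10001000000000000000100010000000000000001000100000000))) (.non (nat_lit 1) (nat_lit 4) (nat_lit 0x4015010) (nat_lit 0x10000000000000000000100020001000000000000000100000000))) (.non (nat_lit 1) (nat_lit 4) (nat_lit 0x4015410) (nat_lit 0x10000000000000000000100020002000100000000000100000000)))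 (.non (nat_lit 1) (nat_lit 4) (nat_lit 0x5005450) (nat_lit 0x10001000000000000000000010001000100000001000100000000))) (.non (nat_lit 1) (nat_lit 6) (nat_lit 0x5000540) (nat_lit 0x30002000000000000000000000000000300040001000000000000))) (.non (nat_lit 1) (nat_lit 4) (nat_lit 0x5000040) (nat_lit 0x10001000000000000000000000000000000000001000000000000))) (.non (nat_lit 1) (nat_lit 4) (nat_lit 0x5000050) (nat_lit 0x10001000000000000000000000000000000000001000100000000)))

noncomputable def t757_67 : Tr := (.split (nat_lit 0xc) (nat_lit 4) (.split (nat_lit 0xc) (nat_lit 5) (.split (nat_lit 0xc) (nat_lit 6) (.split (nat_lit 0xc) (nat_lit 7) (.split (nat_lit 0xc) (nat_lit 8) (.split (nat_lit 0xc) (nat_lit 9) (.split (nat_lit 0xc) (nat_lit 0xb) (.split (nat_lit 0xc) (nat_lit 1) (.split (nat_lit 0xc) (nat_lit 0xa) (.st (nat_lit 3) (nat_lit 1) (nat_lit 4) (nat_lit 0x1015050) (nat_lit 0x1000000000000000100020001000000000002000200000000) (nat_lit 1) (nat_lit 1) (.split (nat_lit 0xc) (nat_lit 3) (.ex (nat_lit 0xc) (.leaf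 (.cons (nat_lit 0x104014) (nat_lit 0x10000000000010000000000000000000200020000) (.cons (nat_lit 0x100054) (nat_lit 0x10000000000000000000000000001000200020000) (.cons (nat_lit 0x5510) (nat_lit 0x20003000400030000000100000000) (.cons (nat_lit 0x100015) (nat_lit 0x10000000000000000000000000000000200020001) .nil)))) (.cons (nat_lit 0x1000110001100) (nat_lit 0x1000010) (nat_lit 3) (nat_lit 0x4000010003200) .nil)) (.split (nat_lit 0xd) (nat_lit 0) (.split (nat_lit 0xd) (nat_lit 1) t757_66 (.non (nat_lit 2) (nat_lit 4) (nat_lit 0x5540045) (nat_lit 0x30002000100020002000000000000000000000001000000040003))) (.non (nat_lit 1) (nat_lit 4) (nat_lit 0x5015451) (nat_lit 0x20003000000000000000300060004000200000004000500000001)))) (.non (nat_lit 1) (nat_lit 4) (nat_lit 0x2015050) (nat_lit 0x1000000000000000100020001000000000002000200000000)))) (.sup (nat_lit 0x30007000b0010000d0000000000000000) (nat_lit 0x3000100040002000000000000000000000002000100040003))) (.split (nat_lit 0xc) (nat_lit 0xa) (.sup (nat_lit 0x7000f00170020001a0000000000000000)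 (nat_lit 0x5000200040004000000000000000000000003000100080006)) (.non (nat_lit 2) (nat_lit 4) (nat_lit 0x1100004) (nat_lit 0x1000000010000000000000000000000000000000000010000)))) (.non (nat_lit 1) (nat_lit 4) (nat_lit 0x1455450) (nat_lit 0x3000200000001000300060004000200000004000500000000))) (.non (nat_lit 1) (nat_lit 4) (nat_lit 0x1455450) (nat_lit 0x3000100000002000300060004000200000004000500000000))) (.non (nat_lit 1) (nat_lit 4) (nat_lit 0x1014050) (nat_lit 0x1000000000000000100010000000000000001000100000000))) (.non (nat_lit 1) (nat_lit 4) (nat_lit 0x1015010) (nat_lit 0x1000000000000000100020001000000000000000100000000))) (.non (nat_lit 1) (nat_lit 4) (nat_lit 0x1015410) (nat_lit 0x1000000000000000100020002000100000000000100000000))) (.non (nat_lit 1) (nat_lit 4) (nat_lit 0x1005450) (nat_lit 0x1000000000000000000010001000100000001000100000000))) (.non (nat_lit 1) (nat_lit 6) (nat_lit 0x1000550) (nat_lit 0x3000000000000000000000000000300040002000100000000)))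

noncomputable def t757_68 : Tr := (.pd (.cons (nat_lit 1) (nat_lit 6) (nat_lit 0) (nat_lit 0xa0720442200) (nat_lit 0xf423ff423ff423fb71ae00000f423f54591f423f65b9700000b71ae) (.cons (nat_lit 1) (nat_lit 7) (nat_lit 0) (nat_lit 0xa0805442200) (nat_lit 0xf423ff423ff423f00000f423fb71ae1f156f423fb71ae00000b71ae) (.cons (nat_lit 2) (nat_lit 6) (nat_lit 0) (nat_lit 0x10770443000) (nat_lit 0xf423ff423ff423fb71ae00000f423f54591f423f00000b71ae65b97) (.cons (nat_lit 2) (nat_lit 7) (nat_lit 0) (nat_lit 0x10805443000) (nat_lit 0xf423ff423ff423f00000f423fb71ae1f156f423f00000b71ae65b97) (.cons (nat_lit 2) (nat_lit 8) (nat_lit 0) (nat_lit 0x10065443000) (nat_lit 0xf423ff423f00000f423fb71aea2c2804737f423f00000b71ae65b97) .nil))))) (.ex (nat_lit 9) t757_65 (.split (nat_lit 0xb) (nat_lit 0) (.split (nat_lit 0xb) (nat_lit 1) (.split (nat_lit 0xb) (nat_lit 2) (.split (nat_lit 0xb) (nat_lit 3) (.split (nat_lit 0xb) (nat_lit 4) (.split (nat_lit 0xb) (nat_lit 5) (.split (nat_lit 0xb) (nat_lit 6) (.split (nat_lit 0xb) (nat_lit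 7) (.split (nat_lit 0xb) (nat_lit 8) (.split (nat_lit 0xb) (nat_lit 0xa) (.split (nat_lit 0xb) (nat_lit 9) (.ex (nat_lit 3) (.leaf (.cons (nat_lit 0x104014) (nat_lit 0x10000000000010000000000000000000200020000) (.cons (nat_lit 0x100054) (nat_lit 0x10000000000000000000000000001000200020000) (.cons (nat_lit 0x5510) (nat_lit 0x20003000400030000000100000000) (.cons (nat_lit 0x100015) (nat_lit 0x10000000000000000000000000000000200020001) .nil)))) (.cons (nat_lit 0x110001100) (nat_lit 0x1000010) (nat_lit 2) (nat_lit 0x320000100) .nil)) (.split (nat_lit 0xc) (nat_lit 0) (.split (nat_lit 0xc) (nat_lit 2) t757_67 (.non (nat_lit 1) (nat_lit 4) (nat_lit 0x1000050) (nat_lit 0x1000000000000000000000000000000000001000100000000))) (.non (nat_lit 1) (nat_lit 4) (nat_lit 0x1055451) (nat_lit 0x3000000000001000300060004000200000004000500000002)))) (.sup (nat_lit 0x6000d00160020001a0000000000000000) (nat_lit 0x80005000b0000000000000000000000020003000b000b))) (.non (nat_lit 2) (nat_lit 4) (nat_lit 0x540005) (nat_lit 0x100010001000000000000000000000000000000010001)))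 (.non (nat_lit 1) (nat_lit 4) (nat_lit 0x415450) (nat_lit 0x100000000000200030002000100000001000200000000))) (.non (nat_lit 1) (nat_lit 4) (nat_lit 0x415010) (nat_lit 0x100000000000100020001000000000000000100000000))) (.non (nat_lit 1) (nat_lit 4) (nat_lit 0x415410) (nat_lit 0x100000000000100020002000100000000000100000000))) (.non (nat_lit 1) (nat_lit 4) (nat_lit 0x455451) (nat_lit 0x300000002000300060005000400000002000400000001))) (.non (nat_lit 1) (nat_lit 6) (nat_lit 0x440501) (nat_lit 0x300000002000000000000000300040000000000000001))) (.non (nat_lit 1) (nat_lit 4) (nat_lit 0x455451) (nat_lit 0x300000002000300060004000200000004000500000001))) (.non (nat_lit 1) (nat_lit 4) (nat_lit 0x415050) (nat_lit 0x100000000000100020001000000000001000200000000))) (.non (nat_lit 2) (nat_lit 4) (nat_lit 0x440005) (nat_lit 0x100000001000000000000000000000000000000010001))) (.non (nat_lit 1) (nat_lit 4) (nat_lit 0x440001) (nat_lit 0x100000001000000000000000000000000000000000001)))))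

noncomputable def t757_69 : Tr := (.split (nat_lit 0xb) (nat_lit 8) (.split (nat_lit 0xb) (nat_lit 0) (.split (nat_lit 0xb) (nat_lit 3) (.split (nat_lit 0xb) (nat_lit 5) (.split (nat_lit 0xb) (nat_lit 9) (.split (nat_lit 0xb) (nat_lit 0xa) (.unj (nat_lit 0x55) (nat_lit 0x1000200020001) (nat_lit 0x401500) (nat_lit 0x100000000000000000001000200020000000000000000)) (.unj (nat_lit 0x55) (nat_lit 0x1000200020001) (nat_lit 0x401500) (nat_lit 0x100000000000000000001000200020000000000000000))) (.split (nat_lit 0xb) (nat_lit 0xa) (.unj (nat_lit 0x55) (nat_lit 0x1000200020001) (nat_lit 0x401500) (nat_lit 0x100000000000000000001000200020000000000000000)) (.non (nat_lit 2) (nat_lit 4) (nat_lit 0x540005) (nat_lit 0x100010001000000000000000000000000000000010001)))) (.split (nat_lit 0xb) (nat_lit 9) (.split (nat_lit 0xb) (nat_lit 0xa) (.unj (nat_lit 0x400500) (nat_lit 0x100000000000000000000000100010000000000000000) (nat_lit 0x55) (nat_lit 0x1000200020001)) (.unj (nat_lit 0x400500) (nat_lit 0x100000000000000000000000100010000000000000000)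 (nat_lit 0x55) (nat_lit 0x1000200020001))) (.non (nat_lit 1) (nat_lit 4) (nat_lit 0x455451) (nat_lit 0x300000002000300060005000400000002000400000001)))) (.split (nat_lit 0xb) (nat_lit 5) (.split (nat_lit 0xb) (nat_lit 9) (.split (nat_lit 0xb) (nat_lit 0xa) (.unj (nat_lit 0x100015) (nat_lit 0x10000000000000000000000000000000200020001) (nat_lit 0x401500) (nat_lit 0x100000000000000000001000200020000000000000000)) (.non (nat_lit 1) (nat_lit 5) (nat_lit 0x515150) (nat_lit 0x200010000000100020001000000010002000200000000))) (.non (nat_lit 1) (nat_lit 4) (nat_lit 0x455451) (nat_lit 0x300000002000300060004000200000004000500000001))) (.non (nat_lit 1) (nat_lit 4) (nat_lit 0x405450) (nat_lit 0x100000000000000010001000100000001000100000000)))) (.split (nat_lit 0xb) (nat_lit 3) (.split (nat_lit 0xb) (nat_lit 5) (.split (nat_lit 0xb) (nat_lit 9) (.split (nat_lit 0xb) (nat_lit 0xa) (.unj (nat_lit 0x100054) (nat_lit 0x10000000000000000000000000001000200020000) (nat_lit 0x401500) (nat_lit 0x100000000000000000001000200020000000000000000))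 (.non (nat_lit 2) (nat_lit 4) (nat_lit 0x500005) (nat_lit 0x100010000000000000000000000000000000000010001))) (.non (nat_lit 1) (nat_lit 4) (nat_lit 0x440001) (nat_lit 0x100000001000000000000000000000000000000000001))) (.non (nat_lit 1) (nat_lit 4) (nat_lit 0x455451) (nat_lit 0x300000001000300060005000400000002000400000002))) (.non (nat_lit 1) (nat_lit 4) (nat_lit 0x455451) (nat_lit 0x300000001000300060004000200000004000500000002)))) (.non (nat_lit 1) (nat_lit 4) (nat_lit 0x415450) (nat_lit 0x100000000000200030002000100000001000200000000)))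

noncomputable def t757_70 : Tr := (.ex (nat_lit 4) (.ex (nat_lit 5) (.split (nat_lit 7) (nat_lit 2) (.split (nat_lit 8) (nat_lit 7) (.split (nat_lit 9) (nat_lit 0) (.split (nat_lit 0xa) (nat_lit 1) t757_68 (.sup (nat_lit 0x30007000b0010000d0000000000000000) (nat_lit 0x40002000000000000000000000001000100050003))) (.sup (nat_lit 0x6000d00160020001a0000000000000000) (nat_lit 0x500080000000000000000000000020003000b000b))) (.non (nat_lit 1) (nat_lit 4) (nat_lit 0x25010) (nat_lit 0x100020001000000000000000100000000))) (.non (nat_lit 1) (nat_lit 4) (nat_lit 0x2a010) (nat_lit 0x100020001000000000000000200000000))) (.split (nat_lit 0xb) (nat_lit 0) (.split (nat_lit 0xb) (nat_lit 1) (.split (nat_lit 0xb) (nat_lit 2) (.split (nat_lit 0xb) (nat_lit 3) (.split (nat_lit 0xb) (nat_lit 6) (.split (nat_lit 0xb) (nat_lit 7) (.split (nat_lit 0xb) (nat_lit 8) (.split (nat_lit 0xb) (nat_lit 9) (.split (nat_lit 0xb) (nat_lit 4) (.split (nat_lit 0xb) (nat_lit 0xa) (.unj (nat_lit 0x55) (nat_lit 0x1000200020001) (nat_lit 0x401500)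 (nat_lit 0x100000000000000000001000200020000000000000000)) (.unj (nat_lit 0x55) (nat_lit 0x1000200020001) (nat_lit 0x401500) (nat_lit 0x100000000000000000001000200020000000000000000))) (.split (nat_lit 0xb) (nat_lit 0xa) (.unj (nat_lit 0x400500) (nat_lit 0x100000000000000000000000100010000000000000000) (nat_lit 0x55) (nat_lit 0x1000200020001)) (.unj (nat_lit 0x400500) (nat_lit 0x100000000000000000000000100010000000000000000) (nat_lit 0x55) (nat_lit 0x1000200020001)))) (.non (nat_lit 1) (nat_lit 4) (nat_lit 0x455451) (nat_lit 0x300000002000300060005000400000002000400000001))) (.non (nat_lit 1) (nat_lit 4) (nat_lit 0x415400) (nat_lit 0x100000000000100010001000100000000000000000000))) (.non (nat_lit 1) (nat_lit 4) (nat_lit 0x405400) (nat_lit 0x100000000000000010001000100000000000000000000))) (.non (nat_lit 1) (nat_lit 4) (nat_lit 0x401400) (nat_lit 0x100000000000000000001000100000000000000000000))) (.non (nat_lit 1) (nat_lit 4) (nat_lit 0x405450) (nat_lit 0x100000000000000010001000100000001000100000000))) (.star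 (nat_lit 0xb) (nat_lit 2) (nat_lit 5))) (.star (nat_lit 0xb) (nat_lit 1) (nat_lit 5))) (.non (nat_lit 1) (nat_lit 4) (nat_lit 0x455451) (nat_lit 0x300000001000300060005000400000002000400000002)))) (.split (nat_lit 0xb) (nat_lit 1) (.split (nat_lit 0xb) (nat_lit 2) (.split (nat_lit 0xb) (nat_lit 6) (.split (nat_lit 0xb) (nat_lit 7) t757_69 (.non (nat_lit 1) (nat_lit 4) (nat_lit 0x415010) (nat_lit 0x100000000000100020001000000000000000100000000))) (.non (nat_lit 1) (nat_lit 4) (nat_lit 0x415410) (nat_lit 0x100000000000100020002000100000000000100000000))) (.star (nat_lit 0xb) (nat_lit 2) (nat_lit 4))) (.star (nat_lit 0xb) (nat_lit 1) (nat_lit 4))))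

noncomputable def t757_71 : Tr := (.ex (nat_lit 1) (.ex (nat_lit 3) t757_57 (.split (nat_lit 0xa) (nat_lit 0) (.split (nat_lit 0xa) (nat_lit 2) (.split (nat_lit 0xa) (nat_lit 5) (.split (nat_lit 0xa) (nat_lit 6) (.split (nat_lit 0xa) (nat_lit 7) (.split (nat_lit 0xa) (nat_lit 8) (.split (nat_lit 0xa) (nat_lit 9) t757_63 (.non (nat_lit 1) (nat_lit 4) (nat_lit 0x155451) (nat_lit 0x30002000300060004000200000004000500000001))) (.non (nat_lit 1) (nat_lit 4) (nat_lit 0x114050) (nat_lit 0x10000000100010000000000000001000100000000))) (.non (nat_lit 1) (nat_lit 4) (nat_lit 0x115010) (nat_lit 0x10000000100020001000000000000000100000000))) (.non (nat_lit 1) (nat_lit 4) (nat_lit 0x115410) (nat_lit 0x10000000100020002000100000000000100000000))) (.non (nat_lit 1) (nat_lit 4) (nat_lit 0x105450) (nat_lit 0x10000000000010001000100000001000100000000))) (.non (nat_lit 1) (nat_lit 4) (nat_lit 0x100050) (nat_lit 0x10000000000000000000000000001000100000000))) (.non (nat_lit 1) (nat_lit 4) (nat_lit 0x155451) (nat_lit 0x30001000300060004000200000004000500000002))))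 (.split (nat_lit 0xa) (nat_lit 0) (.split (nat_lit 0xa) (nat_lit 2) (.split (nat_lit 0xa) (nat_lit 4) (.split (nat_lit 0xa) (nat_lit 5) (.split (nat_lit 0xa) (nat_lit 6) (.split (nat_lit 0xa) (nat_lit 7) (.split (nat_lit 0xa) (nat_lit 8) (.split (nat_lit 0xa) (nat_lit 9) (.split (nat_lit 0xa) (nat_lit 3) t757_70 (.split (nat_lit 0xa) (nat_lit 1) (.split (nat_lit 0xa) (nat_lit 3) (.split (nat_lit 9) (nat_lit 0) (.split (nat_lit 8) (nat_lit 7) (.split (nat_lit 7) (nat_lit 2) (.sup (nat_lit 0x30006000b0010000d0000000000000000) (nat_lit 0x30001000000000000000000000002000200040003)) (.non (nat_lit 1) (nat_lit 4) (nat_lit 0x2a010) (nat_lit 0x100020001000000000000000200000000))) (.non (nat_lit 1) (nat_lit 4) (nat_lit 0x25010) (nat_lit 0x100020001000000000000000100000000))) (.split (nat_lit 9) (nat_lit 0) (.split (nat_lit 8) (nat_lit 7) (.split (nat_lit 7) (nat_lit 2) (.sup (nat_lit 0x30007000b0010000d0000000000000000) (nat_lit 0x30003000000000000000000000002000100040004)) (.non (nat_lit 1) (nat_lit 4) (nat_lit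 0x2a010) (nat_lit 0x100020001000000000000000200000000))) (.non (nat_lit 1) (nat_lit 4) (nat_lit 0x25010) (nat_lit 0x100020001000000000000000100000000))) (.non (nat_lit 2) (nat_lit 4) (nat_lit 0x140045) (nat_lit 0x20003000000000000000000000001000000030004)))) (.non (nat_lit 1) (nat_lit 4) (nat_lit 0x215050) (nat_lit 0x10000000100020001000000000002000200000000))) (.non (nat_lit 2) (nat_lit 4) (nat_lit 0x240085) (nat_lit 0x20001000000000000000000000001000000030002)))) (.non (nat_lit 2) (nat_lit 4) (nat_lit 0x140005) (nat_lit 0x10001000000000000000000000000000000010001))) (.non (nat_lit 1) (nat_lit 4) (nat_lit 0x115450) (nat_lit 0x10000000200030002000100000001000200000000))) (.non (nat_lit 1) (nat_lit 4) (nat_lit 0x115010) (nat_lit 0x10000000100020001000000000000000100000000))) (.non (nat_lit 1) (nat_lit 4) (nat_lit 0x115410) (nat_lit 0x10000000100020002000100000000000100000000))) (.star (nat_lit 0xa) (nat_lit 1) (nat_lit 5))) (.star (nat_lit 0xa) (nat_lit 1) (nat_lit 4))) (.non (nat_lit 1) (nat_lit 4) (nat_lit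 0x115050) (nat_lit 0x10000000100020001000000000001000200000000))) (.non (nat_lit 2) (nat_lit 4) (nat_lit 0x100005) (nat_lit 0x10000000000000000000000000000000000010001))))

noncomputable def t757_72 : Tr := (.ex (nat_lit 5) (.split (nat_lit 9) (nat_lit 0) (.split (nat_lit 0xa) (nat_lit 0) (.split (nat_lit 7) (nat_lit 2) (.split (nat_lit 8) (nat_lit 7) (.pd (.cons (nat_lit 0) (nat_lit 7) (nat_lit 0) (nat_lit 0xa9805442110) (nat_lit 0xf423ff423ff423f00000f423fb71ae1f156f423fb71ae1f15600000) (.cons (nat_lit 1) (nat_lit 6) (nat_lit 0) (nat_lit 0x720442200) (nat_lit 0xf423ff423ff423fb71ae00000f423f54591f423f65b97000007a11d) (.cons (nat_lit 1) (nat_lit 7) (nat_lit 0) (nat_lit 0x805442200) (nat_lit 0xf423ff423ff423f00000f423fb71ae1f156f423fb71ae000007a11d) (.cons (nat_lit 2) (nat_lit 6) (nat_lit 0) (nat_lit 0x770443000) (nat_lit 0xf423ff423ff423fb71ae00000f423f54591f423f00000f423f3d08c) (.cons (nat_lit 2) (nat_lit 7) (nat_lit 0) (nat_lit 0x805443000) (nat_lit 0xf423ff423ff423f00000f423fb71ae1f156f423f00000f423f3d08c)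 (.cons (nat_lit 2) (nat_lit 8) (nat_lit 0) (nat_lit 0x65443000) (nat_lit 0xf423ff423f00000f423fb71aea2c2804737f423f00000f423f3d08c) .nil)))))) (.leaf (.cons (nat_lit 0x15014) (nat_lit 0x100020001000000000000000200020000) (.cons (nat_lit 0x4054) (nat_lit 0x10000000000000001000200020000) (.cons (nat_lit 0x5510) (nat_lit 0x20003000400030000000100000000) (.cons (nat_lit 0x140015) (nat_lit 0x10001000000000000000000000000000200020002) .nil)))) (.cons (nat_lit 0x110001100) (nat_lit 0x1000010) (nat_lit 2) (nat_lit 0x320000100) .nil))) (.non (nat_lit 1) (nat_lit 4) (nat_lit 0x25010) (nat_lit 0x100020001000000000000000100000000))) (.non (nat_lit 1) (nat_lit 4) (nat_lit 0x2a010) (nat_lit 0x100020001000000000000000200000000))) (.non (nat_lit 2) (nat_lit 4) (nat_lit 0x240005) (nat_lit 0x10001000000000000000000000000000000010002))) (.non (nat_lit 2) (nat_lit 4) (nat_lit 0x180005) (nat_lit 0x10001000000000000000000000000000000010002))) (.split (nat_lit 0xb) (nat_lit 0) (.split (nat_lit 0xb) (nat_lit 1) (.split (nat_lit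 0xb) (nat_lit 2) (.split (nat_lit 0xb) (nat_lit 3) (.split (nat_lit 0xb) (nat_lit 6) (.split (nat_lit 0xb) (nat_lit 7) (.split (nat_lit 0xb) (nat_lit 8) (.split (nat_lit 0xb) (nat_lit 9) (.split (nat_lit 0xb) (nat_lit 0xa) (.split (nat_lit 0xb) (nat_lit 4) (.unj (nat_lit 0x55) (nat_lit 0x1000200020001) (nat_lit 0x401500) (nat_lit 0x100000000000000000001000200020000000000000000)) (.unj (nat_lit 0x400500) (nat_lit 0x100000000000000000000000100010000000000000000) (nat_lit 0x55) (nat_lit 0x1000200020001))) (.non (nat_lit 1) (nat_lit 4) (nat_lit 0x515451) (nat_lit 0x300020000000300060005000400000002000400000001))) (.non (nat_lit 1) (nat_lit 4) (nat_lit 0x455451) (nat_lit 0x300000002000300060005000400000002000400000001))) (.non (nat_lit 1) (nat_lit 4) (nat_lit 0x415400) (nat_lit 0x100000000000100010001000100000000000000000000))) (.non (nat_lit 1) (nat_lit 4) (nat_lit 0x405400) (nat_lit 0x100000000000000010001000100000000000000000000))) (.non (nat_lit 1) (nat_lit 4) (nat_lit 0x401400) (nat_lit 0x100000000000000000001000100000000000000000000)))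 (.non (nat_lit 1) (nat_lit 4) (nat_lit 0x405450) (nat_lit 0x100000000000000010001000100000001000100000000))) (.star (nat_lit 0xb) (nat_lit 2) (nat_lit 5))) (.star (nat_lit 0xb) (nat_lit 1) (nat_lit 5))) (.non (nat_lit 1) (nat_lit 4) (nat_lit 0x555411) (nat_lit 0x200010001000100020002000200000000000100000002))))

noncomputable def t757_73 : Tr := (.split (nat_lit 0xc) (nat_lit 0) (.split (nat_lit 0xc) (nat_lit 2) (.split (nat_lit 0xc) (nat_lit 3) (.split (nat_lit 0xc) (nat_lit 4) (.split (nat_lit 0xc) (nat_lit 5) (.split (nat_lit 0xc) (nat_lit 6) (.split (nat_lit 0xc) (nat_lit 7) (.split (nat_lit 0xc) (nat_lit 8) (.split (nat_lit 0xc) (nat_lit 9) (.split (nat_lit 0xc) (nat_lit 0xa) (.split (nat_lit 0xc) (nat_lit 1) (.st (nat_lit 0xb) (nat_lit 1) (nat_lit 4) (nat_lit 0x1415050) (nat_lit 0x1000200000000000100020001000000000002000200000000) (nat_lit 1) (nat_lit 1) (.st (nat_lit 0xc) (nat_lit 1) (nat_lit 4) (nat_lit 0x1415450) (nat_lit 0x2000300000000000300060004000200000004000500000000) (nat_lit 1) (nat_lit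 1) (.split (nat_lit 0xc) (nat_lit 0xb) (.leaf (.cons (nat_lit 0x15014) (nat_lit 0x100020001000000000000000200020000) (.cons (nat_lit 0x1400054) (nat_lit 0x1000200000000000000000000000000000003000400030000) (.cons (nat_lit 0x5510) (nat_lit 0x20003000400030000000100000000) (.cons (nat_lit 0x140015) (nat_lit 0x10001000000000000000000000000000200020002) .nil)))) (.cons (nat_lit 0x1100111101100) (nat_lit 0x10010) (nat_lit 0xe) (nat_lit 0x7600102305400) (.cons (nat_lit 0x1100111001100) (nat_lit 0x100010) (nat_lit 0xa) (nat_lit 0x6500201004300) .nil))) (.non (nat_lit 1) (nat_lit 4) (nat_lit 0x2415050) (nat_lit 0x1000200000000000100020001000000000002000200000000))))) (.sup (nat_lit 0x40007000b0010000d0000000000000000) (nat_lit 0x3000200020002000000000000000000000002000100040004))) (.non (nat_lit 1) (nat_lit 4) (nat_lit 0x1515450) (nat_lit 0x2000300010000000300060004000200000004000500000000))) (.non (nat_lit 1) (nat_lit 4) (nat_lit 0x1455450) (nat_lit 0x2000300000001000300060004000200000004000500000000))) (.non (nat_lit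 1) (nat_lit 4) (nat_lit 0x1414050) (nat_lit 0x1000100000000000100010000000000000001000100000000))) (.non (nat_lit 1) (nat_lit 4) (nat_lit 0x1015010) (nat_lit 0x1000000000000000100020001000000000000000100000000))) (.non (nat_lit 1) (nat_lit 4) (nat_lit 0x1015410) (nat_lit 0x1000000000000000100020002000100000000000100000000))) (.non (nat_lit 1) (nat_lit 4) (nat_lit 0x1405450) (nat_lit 0x1000100000000000000010001000100000001000100000000))) (.non (nat_lit 1) (nat_lit 6) (nat_lit 0x1400540) (nat_lit 0x3000200000000000000000000000300040001000000000000))) (.non (nat_lit 1) (nat_lit 4) (nat_lit 0x1400040) (nat_lit 0x1000100000000000000000000000000000001000000000000))) (.non (nat_lit 1) (nat_lit 4) (nat_lit 0x1400050) (nat_lit 0x1000100000000000000000000000000000001000100000000))) (.non (nat_lit 1) (nat_lit 4) (nat_lit 0x1555051) (nat_lit 0x2000200010001000100020001000000000002000200000002)))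

noncomputable def t757_74 : Tr := (.ex (nat_lit 4) (.split (nat_lit 9) (nat_lit 0) (.split (nat_lit 0xa) (nat_lit 0) (.split (nat_lit 7) (nat_lit 2) (.split (nat_lit 0xb) (nat_lit 3) (.split (nat_lit 8) (nat_lit 7) (.pd (.cons (nat_lit 1) (nat_lit 6) (nat_lit 0) (nat_lit 0x300720442200) (nat_lit 0xf423ff423ff423ff423fb71ae00000f423f54591b71ae51611000007a11d) (.cons (nat_lit 1) (nat_lit 7) (nat_lit 0) (nat_lit 0x300805442200) (nat_lit 0xf423ff423ff423ff423f00000f423fb71ae1f156b71aea2c28000007a11d) (.cons (nat_lit 2) (nat_lit 6) (nat_lit 0) (nat_lit 0x300770443000) (nat_lit 0xf423ff423ff423ff423fb71ae00000f423f54591b71ae00000f423f3d08c) (.cons (nat_lit 2) (nat_lit 7) (nat_lit 0) (nat_lit 0x300805443000) (nat_lit 0xf423ff423ff423ff423f00000f423fb71ae1f156b71ae00000f423f3d08c) (.cons (nat_lit 2) (nat_lit 8) (nat_lit 0) (nat_lit 0x300065443000) (nat_lit 0xf423ff423ff423f00000f423fb71aea2c2804737b71ae00000f423f3d08c) .nil))))) (.ex (nat_lit 0xb) (.pd (.cons (nat_lit 0) (nat_lit 7) (nat_lit 0) (nat_lit 0x3a9805442110)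 (nat_lit 0xf423ff423ff423ff423f00000f423fb71ae1f156b71aea2c280473700000) .nil) (.leaf (.cons (nat_lit 0x15014) (nat_lit 0x100020001000000000000000200020000) (.cons (nat_lit 0x4054) (nat_lit 0x10000000000000001000200020000) (.cons (nat_lit 0x5510) (nat_lit 0x20003000400030000000100000000) (.cons (nat_lit 0x140015) (nat_lit 0x10001000000000000000000000000000200020002) .nil)))) (.cons (nat_lit 0x100110001100) (nat_lit 0x1000010) (nat_lit 3) (nat_lit 0x400010003200) .nil))) t757_73)) (.non (nat_lit 1) (nat_lit 4) (nat_lit 0x25010) (nat_lit 0x100020001000000000000000100000000))) (.non (nat_lit 1) (nat_lit 4) (nat_lit 0x815050) (nat_lit 0x100000000000100020001000000000002000200000000))) (.non (nat_lit 1) (nat_lit 4) (nat_lit 0x2a010) (nat_lit 0x100020001000000000000000200000000))) (.non (nat_lit 2) (nat_lit 4) (nat_lit 0x240005) (nat_lit 0x10001000000000000000000000000000000010002))) (.non (nat_lit 2) (nat_lit 4) (nat_lit 0x180005) (nat_lit 0x10001000000000000000000000000000000010002))) (.split (nat_lit 0xc) (nat_lit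 0) (.split (nat_lit 0xc) (nat_lit 1) (.split (nat_lit 0xc) (nat_lit 2) (.split (nat_lit 0xc) (nat_lit 3) (.split (nat_lit 0xc) (nat_lit 5) (.split (nat_lit 0xc) (nat_lit 6) (.split (nat_lit 0xc) (nat_lit 7) (.split (nat_lit 0xc) (nat_lit 8) (.split (nat_lit 0xc) (nat_lit 9) (.split (nat_lit 0xc) (nat_lit 0xa) (.split (nat_lit 0xc) (nat_lit 0xb) (.unj (nat_lit 0x55) (nat_lit 0x1000200020001) (nat_lit 0x1001500) (nat_lit 0x1000000000000000000000001000200020000000000000000)) (.unj (nat_lit 0x55) (nat_lit 0x1000200020001) (nat_lit 0x1001500) (nat_lit 0x1000000000000000000000001000200020000000000000000))) (.split (nat_lit 0xc) (nat_lit 0xb) (.unj (nat_lit 0x55) (nat_lit 0x1000200020001) (nat_lit 0x1001500) (nat_lit 0x1000000000000000000000001000200020000000000000000)) (.non (nat_lit 1) (nat_lit 4) (nat_lit 0x1515450) (nat_lit 0x2000300010000000300060004000200000004000500000000)))) (.split (nat_lit 0xc) (nat_lit 0xa) (.split (nat_lit 0xc) (nat_lit 0xb) (.unj (nat_lit 0x55) (nat_lit 0x1000200020001) (nat_lit 0x1001500)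 (nat_lit 0x1000000000000000000000001000200020000000000000000)) (.non (nat_lit 1) (nat_lit 4) (nat_lit 0x1455450) (nat_lit 0x2000300000001000300060004000200000004000500000000))) (.non (nat_lit 1) (nat_lit 4) (nat_lit 0x1140001) (nat_lit 0x1000000010001000000000000000000000000000000000001)))) (.non (nat_lit 1) (nat_lit 4) (nat_lit 0x1015450) (nat_lit 0x1000000000000000200030002000100000001000200000000))) (.non (nat_lit 1) (nat_lit 4) (nat_lit 0x1015010) (nat_lit 0x1000000000000000100020001000000000000000100000000))) (.non (nat_lit 1) (nat_lit 4) (nat_lit 0x1015410) (nat_lit 0x1000000000000000100020002000100000000000100000000))) (.non (nat_lit 1) (nat_lit 4) (nat_lit 0x1415450) (nat_lit 0x1000100000000000200040003000200000002000300000000))) (.non (nat_lit 1) (nat_lit 4) (nat_lit 0x1415050) (nat_lit 0x1000100000000000100020001000000000002000200000000))) (.star (nat_lit 0xc) (nat_lit 2) (nat_lit 4))) (.star (nat_lit 0xc) (nat_lit 1) (nat_lit 4))) (.non (nat_lit 2) (nat_lit 4) (nat_lit 0x1140005) (nat_lit 0x1000000010001000000000000000000000000000000010002))))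

noncomputable def t757_75 : Tr := (.split (nat_lit 0xb) (nat_lit 2) (.split (nat_lit 0xb) (nat_lit 5) (.split (nat_lit 0xb) (nat_lit 6) (.split (nat_lit 0xb) (nat_lit 7) (.split (nat_lit 0xb) (nat_lit 8) (.split (nat_lit 0xb) (nat_lit 9) (.split (nat_lit 0xb) (nat_lit 0xa) (.split (nat_lit 0xb) (nat_lit 1) (.split (nat_lit 0xb) (nat_lit 4) (.st (nat_lit 3) (nat_lit 1) (nat_lit 4) (nat_lit 0x415050) (nat_lit 0x100000000000100020001000000000002000200000000) (nat_lit 1) (nat_lit 1) (.st (nat_lit 5) (nat_lit 1) (nat_lit 4) (nat_lit 0x415450) (nat_lit 0x100000000000200040003000200000002000300000000) (nat_lit 1) (nat_lit 1) t757_74)) (.unj (nat_lit 0x401500) (nat_lit 0x100000000000000000001000200020000000000000000) (nat_lit 0x140015) (nat_lit 0x10001000000000000000000000000000200020002))) (.split (nat_lit 0xb) (nat_lit 4) (.split (nat_lit 0xb) (nat_lit 1) (.split (nat_lit 0xb) (nat_lit 3) (.split (nat_lit 0xa) (nat_lit 0) (.split (nat_lit 9) (nat_lit 0) (.split (nat_lit 8) (nat_lit 7) (.split (nat_lit 7) (nat_lit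 2) (.sup (nat_lit 0x30007000b0010000d0000000000000000) (nat_lit 0x300020002000000000000000000000002000100040004)) (.non (nat_lit 1) (nat_lit 4) (nat_lit 0x2a010) (nat_lit 0x100020001000000000000000200000000))) (.non (nat_lit 1) (nat_lit 4) (nat_lit 0x25010) (nat_lit 0x100020001000000000000000100000000))) (.non (nat_lit 2) (nat_lit 4) (nat_lit 0x180005) (nat_lit 0x10001000000000000000000000000000000010002))) (.non (nat_lit 2) (nat_lit 4) (nat_lit 0x240005) (nat_lit 0x10001000000000000000000000000000000010002))) (.non (nat_lit 1) (nat_lit 4) (nat_lit 0x815050) (nat_lit 0x100000000000100020001000000000002000200000000))) (.non (nat_lit 2) (nat_lit 4) (nat_lit 0x940005) (nat_lit 0x100010001000000000000000000000000000000020002))) (.star (nat_lit 0xb) (nat_lit 1) (nat_lit 4)))) (.non (nat_lit 1) (nat_lit 4) (nat_lit 0x515451) (nat_lit 0x300020000000300060004000200000004000500000001))) (.non (nat_lit 1) (nat_lit 4) (nat_lit 0x455451) (nat_lit 0x300000002000300060004000200000004000500000001))) (.non (nat_lit 1) (nat_lit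 4) (nat_lit 0x414050) (nat_lit 0x100000000000100010000000000000001000100000000))) (.non (nat_lit 1) (nat_lit 4) (nat_lit 0x415010) (nat_lit 0x100000000000100020001000000000000000100000000))) (.non (nat_lit 1) (nat_lit 4) (nat_lit 0x415410) (nat_lit 0x100000000000100020002000100000000000100000000))) (.non (nat_lit 1) (nat_lit 4) (nat_lit 0x405450) (nat_lit 0x100000000000000010001000100000001000100000000))) (.non (nat_lit 1) (nat_lit 4) (nat_lit 0x400050) (nat_lit 0x100000000000000000000000000000001000100000000)))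

noncomputable def t757_76 : Tr := (.ex (nat_lit 3) (.ex (nat_lit 4) t757_72 (.split (nat_lit 0xb) (nat_lit 0) (.split (nat_lit 0xb) (nat_lit 1) (.split (nat_lit 0xb) (nat_lit 2) (.split (nat_lit 0xb) (nat_lit 6) (.split (nat_lit 0xb) (nat_lit 7) (.split (nat_lit 0xb) (nat_lit 8) (.split (nat_lit 0xb) (nat_lit 3) (.split (nat_lit 0xb) (nat_lit 5) (.split (nat_lit 0xb) (nat_lit 9) (.split (nat_lit 0xb) (nat_lit 0xa) (.unj (nat_lit 0x55) (nat_lit 0x1000200020001) (nat_lit 0x401500) (nat_lit 0x100000000000000000001000200020000000000000000)) (.unj (nat_lit 0x55) (nat_lit 0x1000200020001) (nat_lit 0x401500) (nat_lit 0x100000000000000000001000200020000000000000000))) (.split (nat_lit 0xb) (nat_lit 0xa) (.unj (nat_lit 0x55) (nat_lit 0x1000200020001) (nat_lit 0x401500) (nat_lit 0x100000000000000000001000200020000000000000000)) (.non (nat_lit 1) (nat_lit 4) (nat_lit 0x540001) (nat_lit 0x100010001000000000000000000000000000000000001)))) (.split (nat_lit 0xb) (nat_lit 9) (.split (nat_lit 0xb) (nat_lit 0xa) (.unj (nat_lit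 0x400500) (nat_lit 0x100000000000000000000000100010000000000000000) (nat_lit 0x55) (nat_lit 0x1000200020001)) (.non (nat_lit 1) (nat_lit 4) (nat_lit 0x515451) (nat_lit 0x300020000000300060005000400000002000400000001))) (.non (nat_lit 1) (nat_lit 4) (nat_lit 0x455451) (nat_lit 0x300000002000300060005000400000002000400000001)))) (.split (nat_lit 0xb) (nat_lit 5) (.split (nat_lit 0xb) (nat_lit 9) (.split (nat_lit 0xb) (nat_lit 0xa) (.unj (nat_lit 0x401500) (nat_lit 0x100000000000000000001000200020000000000000000) (nat_lit 0x140015) (nat_lit 0x10001000000000000000000000000000200020002)) (.non (nat_lit 1) (nat_lit 4) (nat_lit 0x515451) (nat_lit 0x300020000000300060004000200000004000500000001))) (.non (nat_lit 1) (nat_lit 4) (nat_lit 0x455451) (nat_lit 0x300000002000300060004000200000004000500000001))) (.non (nat_lit 1) (nat_lit 4) (nat_lit 0x405450) (nat_lit 0x100000000000000010001000100000001000100000000)))) (.non (nat_lit 1) (nat_lit 4) (nat_lit 0x415450) (nat_lit 0x100000000000200030002000100000001000200000000)))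 (.non (nat_lit 1) (nat_lit 4) (nat_lit 0x415010) (nat_lit 0x100000000000100020001000000000000000100000000))) (.non (nat_lit 1) (nat_lit 4) (nat_lit 0x415410) (nat_lit 0x100000000000100020002000100000000000100000000))) (.star (nat_lit 0xb) (nat_lit 2) (nat_lit 4))) (.star (nat_lit 0xb) (nat_lit 1) (nat_lit 4))) (.non (nat_lit 2) (nat_lit 4) (nat_lit 0x540005) (nat_lit 0x100010001000000000000000000000000000000010002)))) (.split (nat_lit 0xb) (nat_lit 0) t757_75 (.non (nat_lit 1) (nat_lit 4) (nat_lit 0x555051) (nat_lit 0x200010001000100020001000000000002000200000002))))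

noncomputable def t757_77 : Tr := (.split (nat_lit 0xb) (nat_lit 5) (.split (nat_lit 0xb) (nat_lit 6) (.split (nat_lit 0xb) (nat_lit 7) (.split (nat_lit 0xb) (nat_lit 8) (.split (nat_lit 0xb) (nat_lit 9) (.split (nat_lit 0xb) (nat_lit 0xa) (.split (nat_lit 0xb) (nat_lit 3) (.split (nat_lit 0xb) (nat_lit 1) (.split (nat_lit 0xa) (nat_lit 0) (.split (nat_lit 9) (nat_lit 0) (.split (nat_lit 8) (nat_lit 7) (.split (nat_lit 7) (nat_lit 2) (.sup (nat_lit 0x6000d00160020001a0000000000000000) (nat_lit 0x5000500050000000000000000000000020003000b000b)) (.non (nat_lit 1) (nat_lit 4) (nat_lit 0x2a010) (nat_lit 0x100020001000000000000000200000000))) (.non (nat_lit 1) (nat_lit 4) (nat_lit 0x25010) (nat_lit 0x100020001000000000000000100000000))) (.non (nat_lit 2) (nat_lit 4) (nat_lit 0x180005) (nat_lit 0x10001000000000000000000000000000000010002))) (.non (nat_lit 2) (nat_lit 4) (nat_lit 0x240005) (nat_lit 0x10001000000000000000000000000000000010002))) (.non (nat_lit 2) (nat_lit 4) (nat_lit 0x940005) (nat_lit 0x100010001000000000000000000000000000000020002)))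 (.split (nat_lit 0xb) (nat_lit 1) (.split (nat_lit 0xb) (nat_lit 3) (.split (nat_lit 0xa) (nat_lit 0) (.split (nat_lit 9) (nat_lit 0) (.split (nat_lit 8) (nat_lit 7) (.split (nat_lit 7) (nat_lit 2) (.sup (nat_lit 0x30007000b0010000d0000000000000000) (nat_lit 0x300020002000000000000000000000002000100040004)) (.non (nat_lit 1) (nat_lit 4) (nat_lit 0x2a010) (nat_lit 0x100020001000000000000000200000000))) (.non (nat_lit 1) (nat_lit 4) (nat_lit 0x25010) (nat_lit 0x100020001000000000000000100000000))) (.non (nat_lit 2) (nat_lit 4) (nat_lit 0x180005) (nat_lit 0x10001000000000000000000000000000000010002))) (.non (nat_lit 2) (nat_lit 4) (nat_lit 0x240005) (nat_lit 0x10001000000000000000000000000000000010002))) (.non (nat_lit 1) (nat_lit 4) (nat_lit 0x815050) (nat_lit 0x100000000000100020001000000000002000200000000))) (.non (nat_lit 2) (nat_lit 4) (nat_lit 0x940005) (nat_lit 0x100010001000000000000000000000000000000020002)))) (.non (nat_lit 2) (nat_lit 4) (nat_lit 0x500005) (nat_lit 0x100010000000000000000000000000000000000010001)))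 (.non (nat_lit 2) (nat_lit 4) (nat_lit 0x440005) (nat_lit 0x100000001000000000000000000000000000000010001))) (.non (nat_lit 1) (nat_lit 4) (nat_lit 0x415450) (nat_lit 0x100000000000200030002000100000001000200000000))) (.non (nat_lit 1) (nat_lit 4) (nat_lit 0x415010) (nat_lit 0x100000000000100020001000000000000000100000000))) (.non (nat_lit 1) (nat_lit 4) (nat_lit 0x415410) (nat_lit 0x100000000000100020002000100000000000100000000))) (.star (nat_lit 0xb) (nat_lit 1) (nat_lit 5)))

noncomputable def t757_78 : Tr := (.ex (nat_lit 4) (.split (nat_lit 9) (nat_lit 3) (.split (nat_lit 9) (nat_lit 0) (.split (nat_lit 7) (nat_lit 2) (.split (nat_lit 8) (nat_lit 7) (.pd (.cons (nat_lit 0) (nat_lit 7) (nat_lit 0) (nat_lit 0x3805442110) (nat_lit 0xf423ff423f00000f423fb71ae1f156b71aea2c280473700000) (.cons (nat_lit 1) (nat_lit 6) (nat_lit 0) (nat_lit 0x720449300) (nat_lit 0x927bdf423fb71ae00000f423f5459198965a2c28000008e6a2) (.cons (nat_lit 1) (nat_lit 7) (nat_lit 0) (nat_lit 0x805449300) (nat_lit 0xa2c28f423f00000f423fb71ae1f156b71aef423f0000098965)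 (.cons (nat_lit 2) (nat_lit 6) (nat_lit 0) (nat_lit 0x770449000) (nat_lit 0xb71aef423fb71ae00000f423f54591f423f00000f423f65b97) (.cons (nat_lit 2) (nat_lit 7) (nat_lit 0) (nat_lit 0x805449000) (nat_lit 0xb71aef423f00000f423fb71ae1f156f423f00000f423f65b97) (.cons (nat_lit 2) (nat_lit 8) (nat_lit 0) (nat_lit 0x65449000) (nat_lit 0xb71ae00000f423fb71aea2c2804737f423f00000f423f65b97) (.cons (nat_lit 3) (nat_lit 7) (nat_lit 0) (nat_lit 0x805440100) (nat_lit 0xf423ff423f00000f423fb71ae1f15600000f423f5459106711) .nil))))))) (.leaf (.cons (nat_lit 0x15014) (nat_lit 0x100020001000000000000000200020000) (.cons (nat_lit 0x4054) (nat_lit 0x10000000000000001000200020000) (.cons (nat_lit 0x5510) (nat_lit 0x20003000400030000000100000000) (.cons (nat_lit 0x4015) (nat_lit 0x10000000000000000000200020001) .nil)))) (.cons (nat_lit 0x1111101101) (nat_lit 0x10010) (nat_lit 0xe) (nat_lit 0x6102305407) (.cons (nat_lit 0x1111001101) (nat_lit 0x100010) (nat_lit 0xa) (nat_lit 0x5201004306) .nil)))) (.non (nat_lit 1) (nat_lit 4) (nat_lit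 0x25010) (nat_lit 0x100020001000000000000000100000000))) (.non (nat_lit 1) (nat_lit 4) (nat_lit 0x2a010) (nat_lit 0x100020001000000000000000200000000))) (.non (nat_lit 1) (nat_lit 4) (nat_lit 0xaa0a1) (nat_lit 0x2000100020001000000000002000200000002))) (.non (nat_lit 1) (nat_lit 4) (nat_lit 0x95050) (nat_lit 0x1000100020001000000000002000200000000))) (.split (nat_lit 0xa) (nat_lit 0) (.split (nat_lit 0xa) (nat_lit 1) (.split (nat_lit 0xa) (nat_lit 2) (.split (nat_lit 0xa) (nat_lit 3) (.split (nat_lit 0xa) (nat_lit 5) (.split (nat_lit 0xa) (nat_lit 6) (.split (nat_lit 0xa) (nat_lit 7) (.split (nat_lit 0xa) (nat_lit 8) (.split (nat_lit 0xa) (nat_lit 9) (.unj (nat_lit 0x55) (nat_lit 0x1000200020001) (nat_lit 0x101500) (nat_lit 0x10000000000000001000200020000000000000000)) (.non (nat_lit 1) (nat_lit 4) (nat_lit 0x155051) (nat_lit 0x10002000100020001000000000002000200000001))) (.non (nat_lit 1) (nat_lit 4) (nat_lit 0x115450) (nat_lit 0x10000000200030002000100000001000200000000))) (.non (nat_lit 1) (nat_lit 4)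 (nat_lit 0x115010) (nat_lit 0x10000000100020001000000000000000100000000))) (.non (nat_lit 1) (nat_lit 4) (nat_lit 0x115410) (nat_lit 0x10000000100020002000100000000000100000000))) (.non (nat_lit 1) (nat_lit 4) (nat_lit 0x155450) (nat_lit 0x10001000200040003000200000002000300000000))) (.non (nat_lit 1) (nat_lit 4) (nat_lit 0x155050) (nat_lit 0x10001000100020001000000000002000200000000))) (.star (nat_lit 0xa) (nat_lit 2) (nat_lit 4))) (.star (nat_lit 0xa) (nat_lit 1) (nat_lit 4))) (.non (nat_lit 1) (nat_lit 4) (nat_lit 0x155451) (nat_lit 0x10003000300060004000200000004000500000002))))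

noncomputable def t757_79 : Tr := (.split (nat_lit 0xa) (nat_lit 0) (.split (nat_lit 0xa) (nat_lit 2) (.split (nat_lit 0xa) (nat_lit 3) (.split (nat_lit 0xa) (nat_lit 4) (.split (nat_lit 0xa) (nat_lit 5) (.split (nat_lit 0xa) (nat_lit 6) (.split (nat_lit 0xa) (nat_lit 7) (.split (nat_lit 0xa) (nat_lit 8) (.split (nat_lit 0xa) (nat_lit 9) (.split (nat_lit 0xa) (nat_lit 1) (.split (nat_lit 9) (nat_lit 0) (.split (nat_lit 9) (nat_lit 3) (.split (nat_lit 8) (nat_lit 7) (.split (nat_lit 7) (nat_lit 2) (.sup (nat_lit 0x6000c00160020001a0000000000000000) (nat_lit 0x50006000000000000000000000005000400090008)) (.non (nat_lit 1) (nat_lit 4) (nat_lit 0x2a010) (nat_lit 0x100020001000000000000000200000000))) (.non (nat_lit 1) (nat_lit 4) (nat_lit 0x25010) (nat_lit 0x100020001000000000000000100000000))) (.non (nat_lit 1) (nat_lit 4) (nat_lit 0x95050) (nat_lit 0x1000100020001000000000002000200000000))) (.non (nat_lit 1) (nat_lit 4) (nat_lit 0xaa0a1) (nat_lit 0x2000100020001000000000002000200000002))) (.split (nat_lit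 0xa) (nat_lit 1) (.split (nat_lit 9) (nat_lit 0) (.split (nat_lit 9) (nat_lit 3) (.split (nat_lit 8) (nat_lit 7) (.split (nat_lit 7) (nat_lit 2) (.sup (nat_lit 0x40007000b0010000d0000000000000000) (nat_lit 0x30002000000000000000000000002000100040003)) (.non (nat_lit 1) (nat_lit 4) (nat_lit 0x2a010) (nat_lit 0x100020001000000000000000200000000))) (.non (nat_lit 1) (nat_lit 4) (nat_lit 0x25010) (nat_lit 0x100020001000000000000000100000000))) (.non (nat_lit 1) (nat_lit 4) (nat_lit 0x95050) (nat_lit 0x1000100020001000000000002000200000000))) (.non (nat_lit 1) (nat_lit 4) (nat_lit 0xaa0a1) (nat_lit 0x2000100020001000000000002000200000002))) (.non (nat_lit 2) (nat_lit 4) (nat_lit 0x140045) (nat_lit 0x30002000000000000000000000001000000040003)))) (.non (nat_lit 1) (nat_lit 4) (nat_lit 0x155051) (nat_lit 0x10002000100020001000000000002000200000001))) (.non (nat_lit 1) (nat_lit 4) (nat_lit 0x115450) (nat_lit 0x10000000200030002000100000001000200000000))) (.non (nat_lit 1) (nat_lit 4) (nat_lit 0x115010) (nat_lit 0x10000000100020001000000000000000100000000)))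 (.non (nat_lit 1) (nat_lit 4) (nat_lit 0x115410) (nat_lit 0x10000000100020002000100000000000100000000))) (.star (nat_lit 0xa) (nat_lit 1) (nat_lit 5))) (.star (nat_lit 0xa) (nat_lit 1) (nat_lit 4))) (.non (nat_lit 1) (nat_lit 4) (nat_lit 0x155050) (nat_lit 0x10001000100020001000000000002000200000000))) (.non (nat_lit 1) (nat_lit 4) (nat_lit 0x115050) (nat_lit 0x10000000100020001000000000001000200000000))) (.non (nat_lit 1) (nat_lit 4) (nat_lit 0x155451) (nat_lit 0x10003000300060004000200000004000500000002)))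

noncomputable def t757_80 : Tr := (.split (nat_lit 9) (nat_lit 3) (.split (nat_lit 9) (nat_lit 4) (.split (nat_lit 9) (nat_lit 5) (.ex (nat_lit 0) t757_71 (.split (nat_lit 0xa) (nat_lit 1) (.split (nat_lit 0xa) (nat_lit 2) (.split (nat_lit 0xa) (nat_lit 3) (.split (nat_lit 0xa) (nat_lit 5) (.split (nat_lit 0xa) (nat_lit 6) (.split (nat_lit 0xa) (nat_lit 7) (.split (nat_lit 0xa) (nat_lit 8) (.split (nat_lit 0xa) (nat_lit 9) (.split (nat_lit 0xa) (nat_lit 4) (.st (nat_lit 0) (nat_lit 2) (nat_lit 4) (nat_lit 0x140005) (nat_lit 0x10001000000000000000000000000000000010002) (nat_lit 1) (nat_lit 1) (.ex (nat_lit 1) t757_76 (.split (nat_lit 0xb) (nat_lit 0) (.split (nat_lit 0xb) (nat_lit 2) (.split (nat_lit 0xb) (nat_lit 4) t757_77 (.star (nat_lit 0xb) (nat_lit 1) (nat_lit 4))) (.non (nat_lit 1) (nat_lit 4) (nat_lit 0x415050) (nat_lit 0x100000000000100020001000000000001000200000000))) (.non (nat_lit 2) (nat_lit 4) (nat_lit 0x400005) (nat_lit 0x100000000000000000000000000000000000000010001))))) (.sup (nat_lit 0x10000000000000003000500040000)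 (nat_lit 0x30000000000000001000500050000000000000000))) (.non (nat_lit 1) (nat_lit 4) (nat_lit 0x140001) (nat_lit 0x10001000000000000000000000000000000000001))) (.non (nat_lit 1) (nat_lit 4) (nat_lit 0x115450) (nat_lit 0x10000000200030002000100000001000200000000))) (.non (nat_lit 1) (nat_lit 4) (nat_lit 0x115010) (nat_lit 0x10000000100020001000000000000000100000000))) (.non (nat_lit 1) (nat_lit 4) (nat_lit 0x115410) (nat_lit 0x10000000100020002000100000000000100000000))) (.non (nat_lit 1) (nat_lit 4) (nat_lit 0x155451) (nat_lit 0x30001000300060005000400000002000400000002))) (.non (nat_lit 1) (nat_lit 4) (nat_lit 0x155451) (nat_lit 0x30001000300060004000200000004000500000002))) (.non (nat_lit 1) (nat_lit 4) (nat_lit 0x115050) (nat_lit 0x10000000100020001000000000001000200000000))) (.non (nat_lit 2) (nat_lit 4) (nat_lit 0x100005) (nat_lit 0x10000000000000000000000000000000000010001)))) (.sup (nat_lit 0x5000a00090002) (nat_lit 0x2000000000005000a00080000000000000000))) (.split (nat_lit 9) (nat_lit 5) (.sup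 (nat_lit 0x10000000000000003000500040000) (nat_lit 0x3000000000001000500050000000000000000)) (.unj (nat_lit 0x40500) (nat_lit 0x1000000000000000100010000000000000000) (nat_lit 0x4054) (nat_lit 0x10000000000000001000200020000)))) (.split (nat_lit 9) (nat_lit 4) (.split (nat_lit 9) (nat_lit 5) (.st (nat_lit 0) (nat_lit 1) (nat_lit 4) (nat_lit 0x55451) (nat_lit 0x3000300060004000200000004000500000002) (nat_lit 1) (nat_lit 1) (.st (nat_lit 3) (nat_lit 1) (nat_lit 4) (nat_lit 0x55050) (nat_lit 0x1000100020001000000000002000200000000) (nat_lit 1) (nat_lit 1) (.st (nat_lit 5) (nat_lit 1) (nat_lit 4) (nat_lit 0x55450) (nat_lit 0x1000200040003000200000002000300000000) (nat_lit 1) (nat_lit 1) (.st (nat_lit 9) (nat_lit 1) (nat_lit 4) (nat_lit 0x55051) (nat_lit 0x2000100020001000000000002000200000001) (nat_lit 1) (nat_lit 1) (.ex (nat_lit 1) t757_78 t757_79))))) (.non (nat_lit 1) (nat_lit 4) (nat_lit 0x45450) (nat_lit 0x1000000010001000100000001000100000000))) (.non (nat_lit 1) (nat_lit 5) (nat_lit 0x55151) (nat_lit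 0x2000100020001000000010002000200000001))))

noncomputable def t757_81 : Tr := (.split (nat_lit 7) (nat_lit 2) (.split (nat_lit 7) (nat_lit 3) t757_39 (.split (nat_lit 6) (nat_lit 0) (.split (nat_lit 6) (nat_lit 3) (.st (nat_lit 3) (nat_lit 1) (nat_lit 4) (nat_lit 0x15050) (nat_lit 0x100020001000000000002000100000000) (nat_lit 1) (nat_lit 1) (.st (nat_lit 6) (nat_lit 1) (nat_lit 4) (nat_lit 0x15440) (nat_lit 0x100020002000100000001000000000000) (nat_lit 1) (nat_lit 1) (.st (nat_lit 7) (nat_lit 1) (nat_lit 4) (nat_lit 0x15040) (nat_lit 0x100020001000000000001000000000000) (nat_lit 1) (nat_lit 1) (.st (nat_lit 8) (nat_lit 1) (nat_lit 4) (nat_lit 0x15450) (nat_lit 0x200030002000100000002000100000000) (nat_lit 1) (nat_lit 1) t757_42)))) (.non (nat_lit 1) (nat_lit 4) (nat_lit 0x5040) (nat_lit 0x10001000000000001000000000000))) (.non (nat_lit 1) (nat_lit 4) (nat_lit 0x15441) (nat_lit 0x100020002000100000001000000000001)))) (.split (nat_lit 7) (nat_lit 3) (.split (nat_lit 6) (nat_lit 0) (.split (nat_lit 6) (nat_lit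 3) (.st (nat_lit 2) (nat_lit 1) (nat_lit 4) (nat_lit 0x15050) (nat_lit 0x100020001000000000001000200000000) (nat_lit 1) (nat_lit 1) (.st (nat_lit 6) (nat_lit 1) (nat_lit 4) (nat_lit 0x15410) (nat_lit 0x100020002000100000000000100000000) (nat_lit 1) (nat_lit 1) (.st (nat_lit 7) (nat_lit 1) (nat_lit 4) (nat_lit 0x15010) (nat_lit 0x100020001000000000000000100000000) (nat_lit 1) (nat_lit 1) (.st (nat_lit 8) (nat_lit 1) (nat_lit 4) (nat_lit 0x15450) (nat_lit 0x200030002000100000001000200000000) (nat_lit 1) (nat_lit 1) (.ex (nat_lit 0) (.ex (nat_lit 1) t757_49 (.split (nat_lit 9) (nat_lit 0) (.split (nat_lit 9) (nat_lit 2) (.split (nat_lit 9) (nat_lit 4) (.split (nat_lit 9) (nat_lit 5) t757_54 (.star (nat_lit 9) (nat_lit 1) (nat_lit 5))) (.star (nat_lit 9) (nat_lit 1) (nat_lit 4))) (.non (nat_lit 1) (nat_lit 4) (nat_lit 0x55050) (nat_lit 0x1000100020001000000000001000200000000))) (.non (nat_lit 2) (nat_lit 4) (nat_lit 0x40005) (nat_lit 0x1000000000000000000000000000000010001)))) (.split (nat_lit 9) (nat_lit 1)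 (.split (nat_lit 9) (nat_lit 2) (.split (nat_lit 9) (nat_lit 6) (.split (nat_lit 9) (nat_lit 7) (.split (nat_lit 9) (nat_lit 8) t757_80 (.non (nat_lit 1) (nat_lit 4) (nat_lit 0x55450) (nat_lit 0x1000200030002000100000001000200000000))) (.non (nat_lit 1) (nat_lit 4) (nat_lit 0x55010) (nat_lit 0x1000100020001000000000000000100000000))) (.non (nat_lit 1) (nat_lit 4) (nat_lit 0x55410) (nat_lit 0x1000100020002000100000000000100000000))) (.non (nat_lit 1) (nat_lit 4) (nat_lit 0x55050) (nat_lit 0x1000100020001000000000001000200000000))) (.non (nat_lit 2) (nat_lit 4) (nat_lit 0x40005) (nat_lit 0x1000000000000000000000000000000010001)))))))) (.non (nat_lit 1) (nat_lit 4) (nat_lit 0x5050) (nat_lit 0x10001000000000001000100000000))) (.non (nat_lit 1) (nat_lit 4) (nat_lit 0x15411) (nat_lit 0x100020002000100000000000100000001))) (.non (nat_lit 1) (nat_lit 4) (nat_lit 0x4050) (nat_lit 0x10000000000000001000100000000))))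

noncomputable def t757_82 : Tr := (.ex (nat_lit 5) (.split (nat_lit 7) (nat_lit 1) (.split (nat_lit 8) (nat_lit 7) (.pd (.cons (nat_lit 0) (nat_lit 7) (nat_lit 0) (nat_lit 0x805442110) (nat_lit 0xf423f00000f423fb71ae1f156f423fb71ae1f15600000) (.cons (nat_lit 1) (nat_lit 6) (nat_lit 0) (nat_lit 0x770442200) (nat_lit 0xf423fb71ae00000f423f54591f423fb71ae00000f423f) (.cons (nat_lit 1) (nat_lit 7) (nat_lit 0) (nat_lit 0x805442200) (nat_lit 0xf423f00000f423fb71ae1f156f423fb71ae00000f423f) (.cons (nat_lit 1) (nat_lit 8) (nat_lit 0) (nat_lit 0x65442200) (nat_lit 0xf423fb71aea2c2804737f423fb71ae00000f423f) (.cons (nat_lit 2) (nat_lit 6) (nat_lit 0) (nat_lit 0x710443000) (nat_lit 0xf423fb71ae00000f423f54591f423f00000a2c2898965) (.cons (nat_lit 2) (nat_lit 7) (nat_lit 0) (nat_lit 0x805443000) (nat_lit 0xf423f00000f423fb71ae1f156f423f00000f423fb71ae) (.cons (nat_lit 3) (nat_lit 7) (nat_lit 0) (nat_lit 0x805440100) (nat_lit 0xf423f00000f423fb71ae1f15600000f423f54591437a2) .nil))))))) (.leaf (.cons (nat_lit 0x15014)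 (nat_lit 0x100020001000000000000000200020000) (.cons (nat_lit 0x4054) (nat_lit 0x10000000000000001000200020000) (.cons (nat_lit 0x5504) (nat_lit 0x20003000400030000000000010000) (.cons (nat_lit 0x4015) (nat_lit 0x10000000000000000000200020001) .nil)))) (.cons (nat_lit 0x110000011) (nat_lit 0x1000100) (nat_lit 2) (nat_lit 0x320000010) .nil))) (.non (nat_lit 2) (nat_lit 4) (nat_lit 0x25004) (nat_lit 0x100020001000000000000000000010000))) (.non (nat_lit 2) (nat_lit 4) (nat_lit 0x2a004) (nat_lit 0x100020001000000000000000000020000))) (.split (nat_lit 9) (nat_lit 0) (.split (nat_lit 9) (nat_lit 1) (.split (nat_lit 9) (nat_lit 2) (.split (nat_lit 9) (nat_lit 6) (.split (nat_lit 9) (nat_lit 7) (.split (nat_lit 9) (nat_lit 8) (.split (nat_lit 9) (nat_lit 3) (.split (nat_lit 9) (nat_lit 4) (.unj (nat_lit 0x55) (nat_lit 0x1000200020001) (nat_lit 0x41500) (nat_lit 0x1000000000001000200020000000000000000)) (.unj (nat_lit 0x40500) (nat_lit 0x1000000000000000100010000000000000000) (nat_lit 0x55) (nat_lit 0x1000200020001)))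 (.split (nat_lit 9) (nat_lit 4) (.sup (nat_lit 0x20009000a0005) (nat_lit 0x2000000000005000a00080000000000000000)) (.unj (nat_lit 0x40500) (nat_lit 0x1000000000000000100010000000000000000) (nat_lit 0x4015) (nat_lit 0x10000000000000000000200020001)))) (.non (nat_lit 1) (nat_lit 4) (nat_lit 0x55400) (nat_lit 0x1000100010001000100000000000000000000))) (.non (nat_lit 1) (nat_lit 4) (nat_lit 0x45400) (nat_lit 0x1000000010001000100000000000000000000))) (.non (nat_lit 1) (nat_lit 4) (nat_lit 0x41400) (nat_lit 0x1000000000001000100000000000000000000))) (.star (nat_lit 9) (nat_lit 2) (nat_lit 5))) (.star (nat_lit 9) (nat_lit 1) (nat_lit 5))) (.non (nat_lit 2) (nat_lit 4) (nat_lit 0x45405) (nat_lit 0x1000000010001000100000000000000010001))))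

noncomputable def t757_83 : Tr := (.pd (.cons (nat_lit 1) (nat_lit 6) (nat_lit 0) (nat_lit 0x3770442200) (nat_lit 0xf423ff423fb71ae00000f423f54591b71aea2c2800000f423f) (.cons (nat_lit 1) (nat_lit 7) (nat_lit 0) (nat_lit 0x3805442200) (nat_lit 0xf423ff423f00000f423fb71ae1f156b71aea2c2800000f423f) (.cons (nat_lit 1) (nat_lit 8) (nat_lit 0) (nat_lit 0x3065442200) (nat_lit 0xf423f00000f423fb71aea2c2804737b71aea2c2800000f423f) (.cons (nat_lit 2) (nat_lit 6) (nat_lit 0) (nat_lit 0x3710443000) (nat_lit 0xf423ff423fb71ae00000f423f54591b71ae00000a2c2898965) (.cons (nat_lit 2) (nat_lit 7) (nat_lit 0) (nat_lit 0x3805443000) (nat_lit 0xf423ff423f00000f423fb71ae1f156b71ae00000f423fb71ae) (.cons (nat_lit 3) (nat_lit 7) (nat_lit 0) (nat_lit 0x9805440100) (nat_lit 0xf423ff423f00000f423fb71ae1f15600000f423f54591437a2) .nil)))))) (.ex (nat_lit 9) (.pd (.cons (nat_lit 0) (nat_lit 7) (nat_lit 0) (nat_lit 0x3805442110) (nat_lit 0xf423ff423f00000f423fb71ae1f156b71aea2c280473700000) .nil) (.leaf (.cons (nat_lit 0x15014) (nat_lit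 0x100020001000000000000000200020000) (.cons (nat_lit 0x4054) (nat_lit 0x10000000000000001000200020000) (.cons (nat_lit 0x5504) (nat_lit 0x20003000400030000000000010000) (.cons (nat_lit 0x4015) (nat_lit 0x10000000000000000000200020001) .nil)))) (.cons (nat_lit 0x110000011) (nat_lit 0x1000100) (nat_lit 2) (nat_lit 0x320000010) .nil))) (.split (nat_lit 0xa) (nat_lit 0) (.split (nat_lit 0xa) (nat_lit 1) (.split (nat_lit 0xa) (nat_lit 2) (.split (nat_lit 0xa) (nat_lit 3) (.split (nat_lit 0xa) (nat_lit 4) (.split (nat_lit 0xa) (nat_lit 5) (.split (nat_lit 0xa) (nat_lit 6) (.split (nat_lit 0xa) (nat_lit 7) (.split (nat_lit 0xa) (nat_lit 8) (.leaf (.cons (nat_lit 0x15014) (nat_lit 0x100020001000000000000000200020000) (.cons (nat_lit 0x140054) (nat_lit 0x10002000000000000000000000003000400030000) (.cons (nat_lit 0x5504) (nat_lit 0x20003000400030000000000010000) (.cons (nat_lit 0x4015) (nat_lit 0x10000000000000000000200020001) .nil)))) (.cons (nat_lit 0x110000011) (nat_lit 0x1000100) (nat_lit 2) (nat_lit 0x320000010)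 .nil)) (.non (nat_lit 2) (nat_lit 4) (nat_lit 0x115405) (nat_lit 0x10000000200030002000100000000000000020001))) (.non (nat_lit 2) (nat_lit 4) (nat_lit 0x115004) (nat_lit 0x10000000100020001000000000000000000010000))) (.non (nat_lit 2) (nat_lit 4) (nat_lit 0x115404) (nat_lit 0x10000000100020002000100000000000000010000))) (.non (nat_lit 2) (nat_lit 4) (nat_lit 0x155445) (nat_lit 0x30002000300060005000400000001000000040002))) (.non (nat_lit 1) (nat_lit 6) (nat_lit 0x140540) (nat_lit 0x30002000000000000000300040001000000000000))) (.non (nat_lit 1) (nat_lit 4) (nat_lit 0x140040) (nat_lit 0x10001000000000000000000000001000000000000))) (.non (nat_lit 1) (nat_lit 4) (nat_lit 0x140050) (nat_lit 0x10001000000000000000000000001000100000000))) (.non (nat_lit 2) (nat_lit 4) (nat_lit 0x115005) (nat_lit 0x10000000100020001000000000000000000020001))) (.non (nat_lit 2) (nat_lit 4) (nat_lit 0x155445) (nat_lit 0x30002000300060004000200000001000000050004)))))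

noncomputable def t757_84 : Tr := (.split (nat_lit 9) (nat_lit 3) (.split (nat_lit 7) (nat_lit 1) (.split (nat_lit 8) (nat_lit 7) (.pd (.cons (nat_lit 1) (nat_lit 6) (nat_lit 0) (nat_lit 0x3770442200) (nat_lit 0xf423ff423fb71ae00000f423f545917a11e7a11c00000f423f) (.cons (nat_lit 1) (nat_lit 7) (nat_lit 0) (nat_lit 0x3805442200) (nat_lit 0xf423ff423f00000f423fb71ae1f1567a11e7a11c00000f423f) (.cons (nat_lit 1) (nat_lit 8) (nat_lit 0) (nat_lit 0x3065442200) (nat_lit 0xf423f00000f423fb71aea2c28047377a11e7a11c00000f423f) (.cons (nat_lit 2) (nat_lit 6) (nat_lit 0) (nat_lit 0x3710443000) (nat_lit 0xf423ff423fb71ae00000f423f545917a11e00000a2c2898965) (.cons (nat_lit 2) (nat_lit 7) (nat_lit 0) (nat_lit 0x3805443000) (nat_lit 0xf423ff423f00000f423fb71ae1f1567a11e00000f423fb71ae) (.cons (nat_lit 3) (nat_lit 7) (nat_lit 0) (nat_lit 0x9805440100) (nat_lit 0xf423ff423f00000f423fb71ae1f15600000f423f54591437a2) .nil)))))) (.leaf (.cons (nat_lit 0x15014) (nat_lit 0x100020001000000000000000200020000) (.cons (nat_lit 0x40054)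 (nat_lit 0x1000000000000000000000001000100010000) (.cons (nat_lit 0x5504) (nat_lit 0x20003000400030000000000010000) (.cons (nat_lit 0x4015) (nat_lit 0x10000000000000000000200020001) .nil)))) (.cons (nat_lit 0x110000011) (nat_lit 0x1000100) (nat_lit 2) (nat_lit 0x320000010) .nil))) (.non (nat_lit 2) (nat_lit 4) (nat_lit 0x25004) (nat_lit 0x100020001000000000000000000010000))) (.non (nat_lit 2) (nat_lit 4) (nat_lit 0x2a004) (nat_lit 0x100020001000000000000000000020000))) (.split (nat_lit 9) (nat_lit 3) (.split (nat_lit 7) (nat_lit 1) (.split (nat_lit 8) (nat_lit 7) (.pd (.cons (nat_lit 1) (nat_lit 6) (nat_lit 0) (nat_lit 0x3770442200) (nat_lit 0xf423ff423fb71ae00000f423f5459154591437a200000f423f) (.cons (nat_lit 1) (nat_lit 7) (nat_lit 0) (nat_lit 0x3805442200) (nat_lit 0xf423ff423f00000f423fb71ae1f15654591437a200000f423f) (.cons (nat_lit 1) (nat_lit 8) (nat_lit 0) (nat_lit 0x3065442200) (nat_lit 0xf423f00000f423fb71aea2c280473754591437a200000f423f) (.cons (nat_lit 2) (nat_lit 6) (nat_lit 0) (nat_lit 0x3710443000)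 (nat_lit 0xf423ff423fb71ae00000f423f545915459100000a2c2898965) (.cons (nat_lit 2) (nat_lit 7) (nat_lit 0) (nat_lit 0x3805443000) (nat_lit 0xf423ff423f00000f423fb71ae1f1565459100000f423fb71ae) (.cons (nat_lit 3) (nat_lit 7) (nat_lit 0) (nat_lit 0x9805440100) (nat_lit 0xf423ff423f00000f423fb71ae1f15600000f423f54591437a2) .nil)))))) (.leaf (.cons (nat_lit 0x15014) (nat_lit 0x100020001000000000000000200020000) (.cons (nat_lit 0x40054) (nat_lit 0x1000000000000000000000001000100010000) (.cons (nat_lit 0x5504) (nat_lit 0x20003000400030000000000010000) (.cons (nat_lit 0x4015) (nat_lit 0x10000000000000000000200020001) .nil)))) (.cons (nat_lit 0x110000011) (nat_lit 0x1000100) (nat_lit 2) (nat_lit 0x320000010) .nil))) (.non (nat_lit 2) (nat_lit 4) (nat_lit 0x25004) (nat_lit 0x100020001000000000000000000010000))) (.non (nat_lit 2) (nat_lit 4) (nat_lit 0x2a004) (nat_lit 0x100020001000000000000000000020000))) (.non (nat_lit 1) (nat_lit 4) (nat_lit 0xc0050) (nat_lit 0x1000000000000000000000002000100000000))))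

noncomputable def t757_85 : Tr := (.ex (nat_lit 4) (.ex (nat_lit 5) (.split (nat_lit 9) (nat_lit 3) (.split (nat_lit 7) (nat_lit 1) (.split (nat_lit 8) (nat_lit 7) t757_83 (.non (nat_lit 2) (nat_lit 4) (nat_lit 0x25004) (nat_lit 0x100020001000000000000000000010000))) (.non (nat_lit 2) (nat_lit 4) (nat_lit 0x2a004) (nat_lit 0x100020001000000000000000000020000))) t757_84) (.split (nat_lit 0xa) (nat_lit 0) (.split (nat_lit 0xa) (nat_lit 1) (.split (nat_lit 0xa) (nat_lit 2) (.split (nat_lit 0xa) (nat_lit 3) (.split (nat_lit 0xa) (nat_lit 6) (.split (nat_lit 0xa) (nat_lit 7) (.split (nat_lit 0xa) (nat_lit 8) (.split (nat_lit 0xa) (nat_lit 9) (.split (nat_lit 0xa) (nat_lit 4) (.unj (nat_lit 0x55) (nat_lit 0x1000200020001) (nat_lit 0x101500) (nat_lit 0x10000000000000001000200020000000000000000)) (.unj (nat_lit 0x100500) (nat_lit 0x10000000000000000000100010000000000000000) (nat_lit 0x55) (nat_lit 0x1000200020001))) (.non (nat_lit 2) (nat_lit 4) (nat_lit 0x155445) (nat_lit 0x30002000300060005000400000001000000040002)))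 (.non (nat_lit 1) (nat_lit 4) (nat_lit 0x115400) (nat_lit 0x10000000100010001000100000000000000000000))) (.non (nat_lit 1) (nat_lit 4) (nat_lit 0x105400) (nat_lit 0x10000000000010001000100000000000000000000))) (.non (nat_lit 1) (nat_lit 4) (nat_lit 0x101400) (nat_lit 0x10000000000000001000100000000000000000000))) (.non (nat_lit 2) (nat_lit 4) (nat_lit 0x155445) (nat_lit 0x30001000300060005000400000002000000040002))) (.star (nat_lit 0xa) (nat_lit 2) (nat_lit 5))) (.star (nat_lit 0xa) (nat_lit 1) (nat_lit 5))) (.non (nat_lit 2) (nat_lit 4) (nat_lit 0x105405) (nat_lit 0x10000000000010001000100000000000000010001)))) (.split (nat_lit 0xa) (nat_lit 1) (.split (nat_lit 0xa) (nat_lit 2) (.split (nat_lit 0xa) (nat_lit 6) (.split (nat_lit 0xa) (nat_lit 7) (.split (nat_lit 0xa) (nat_lit 8) (.split (nat_lit 0xa) (nat_lit 0) (.split (nat_lit 0xa) (nat_lit 3) (.split (nat_lit 0xa) (nat_lit 5) (.split (nat_lit 0xa) (nat_lit 9) (.unj (nat_lit 0x55) (nat_lit 0x1000200020001) (nat_lit 0x101500) (nat_lit 0x10000000000000001000200020000000000000000))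 (.unj (nat_lit 0x55) (nat_lit 0x1000200020001) (nat_lit 0x101500) (nat_lit 0x10000000000000001000200020000000000000000))) (.split (nat_lit 0xa) (nat_lit 9) (.unj (nat_lit 0x100500) (nat_lit 0x10000000000000000000100010000000000000000) (nat_lit 0x55) (nat_lit 0x1000200020001)) (.non (nat_lit 2) (nat_lit 4) (nat_lit 0x155445) (nat_lit 0x30002000300060005000400000001000000040002)))) (.split (nat_lit 0xa) (nat_lit 5) (.split (nat_lit 0xa) (nat_lit 9) (.sup (nat_lit 0x10000000000000000000400050003) (nat_lit 0x30000000000000001000500050000000000000000)) (.non (nat_lit 1) (nat_lit 4) (nat_lit 0x140040) (nat_lit 0x10001000000000000000000000001000000000000))) (.non (nat_lit 2) (nat_lit 4) (nat_lit 0x155445) (nat_lit 0x30001000300060005000400000002000000040002)))) (.split (nat_lit 0xa) (nat_lit 3) (.split (nat_lit 0xa) (nat_lit 5) (.split (nat_lit 0xa) (nat_lit 9) (.sup (nat_lit 0x20000000000000005000a00090000) (nat_lit 0x500000000000000020009000a0000000000000000)) (.non (nat_lit 2) (nat_lit 4) (nat_lit 0x155445)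 (nat_lit 0x30002000300060004000200000001000000050004))) (.non (nat_lit 2) (nat_lit 4) (nat_lit 0x105405) (nat_lit 0x10000000000010001000100000000000000010001))) (.non (nat_lit 1) (nat_lit 5) (nat_lit 0x140151) (nat_lit 0x20001000000000000000000010002000100000001)))) (.non (nat_lit 2) (nat_lit 4) (nat_lit 0x115405) (nat_lit 0x10000000200030002000100000000000000020001))) (.non (nat_lit 2) (nat_lit 4) (nat_lit 0x115004) (nat_lit 0x10000000100020001000000000000000000010000))) (.non (nat_lit 2) (nat_lit 4) (nat_lit 0x115404) (nat_lit 0x10000000100020002000100000000000000010000))) (.star (nat_lit 0xa) (nat_lit 2) (nat_lit 4))) (.star (nat_lit 0xa) (nat_lit 1) (nat_lit 4))))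

noncomputable def t757_86 : Tr := (.ex (nat_lit 5) (.split (nat_lit 9) (nat_lit 3) (.split (nat_lit 0xa) (nat_lit 3) (.split (nat_lit 7) (nat_lit 1) (.split (nat_lit 8) (nat_lit 7) (.pd (.cons (nat_lit 1) (nat_lit 6) (nat_lit 0) (nat_lit 0x33770442200) (nat_lit 0xf423ff423ff423fb71ae00000f423f545917a11d7a11b00000f423f) (.cons (nat_lit 1) (nat_lit 7) (nat_lit 0) (nat_lit 0x33805442200) (nat_lit 0xf423ff423ff423f00000f423fb71ae1f1567a11d7a11b00000f423f) (.cons (nat_lit 1) (nat_lit 8) (nat_lit 0) (nat_lit 0x33065442200) (nat_lit 0xf423ff423f00000f423fb71aea2c28047377a11d7a11b00000f423f) (.cons (nat_lit 2) (nat_lit 6) (nat_lit 0) (nat_lit 0x33710443000) (nat_lit 0xf423ff423ff423fb71ae00000f423f545917a11d00000a2c2898965) (.cons (nat_lit 2) (nat_lit 7) (nat_lit 0) (nat_lit 0x33805443000) (nat_lit 0xf423ff423ff423f00000f423fb71ae1f1567a11d00000f423fb71ae) (.cons (nat_lit 3) (nat_lit 7) (nat_lit 0) (nat_lit 0xa9805440100) (nat_lit 0xf423ff423ff423f00000f423fb71ae1f15600000f423f54591437a2) .nil)))))) (.leaf (.cons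 (nat_lit 0x15014) (nat_lit 0x100020001000000000000000200020000) (.cons (nat_lit 0x140054) (nat_lit 0x10001000000000000000000000002000200020000) (.cons (nat_lit 0x5504) (nat_lit 0x20003000400030000000000010000) (.cons (nat_lit 0x4015) (nat_lit 0x10000000000000000000200020001) .nil)))) (.cons (nat_lit 0x110000011) (nat_lit 0x1000100) (nat_lit 2) (nat_lit 0x320000010) .nil))) (.non (nat_lit 2) (nat_lit 4) (nat_lit 0x25004) (nat_lit 0x100020001000000000000000000010000))) (.non (nat_lit 2) (nat_lit 4) (nat_lit 0x2a004) (nat_lit 0x100020001000000000000000000020000))) (.non (nat_lit 1) (nat_lit 4) (nat_lit 0x240050) (nat_lit 0x10001000000000000000000000002000100000000))) (.non (nat_lit 1) (nat_lit 4) (nat_lit 0x180050) (nat_lit 0x10001000000000000000000000002000100000000))) (.split (nat_lit 0xb) (nat_lit 0) (.split (nat_lit 0xb) (nat_lit 1) (.split (nat_lit 0xb) (nat_lit 2) (.split (nat_lit 0xb) (nat_lit 3) (.split (nat_lit 0xb) (nat_lit 6) (.split (nat_lit 0xb) (nat_lit 7) (.split (nat_lit 0xb) (nat_lit 8) (.split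 (nat_lit 0xb) (nat_lit 9) (.split (nat_lit 0xb) (nat_lit 0xa) (.split (nat_lit 0xb) (nat_lit 4) (.unj (nat_lit 0x55) (nat_lit 0x1000200020001) (nat_lit 0x401500) (nat_lit 0x100000000000000000001000200020000000000000000)) (.unj (nat_lit 0x400500) (nat_lit 0x100000000000000000000000100010000000000000000) (nat_lit 0x55) (nat_lit 0x1000200020001))) (.non (nat_lit 2) (nat_lit 4) (nat_lit 0x515445) (nat_lit 0x300020000000300060005000400000001000000040002))) (.non (nat_lit 2) (nat_lit 4) (nat_lit 0x455445) (nat_lit 0x300000002000300060005000400000001000000040002))) (.non (nat_lit 1) (nat_lit 4) (nat_lit 0x415400) (nat_lit 0x100000000000100010001000100000000000000000000))) (.non (nat_lit 1) (nat_lit 4) (nat_lit 0x405400) (nat_lit 0x100000000000000010001000100000000000000000000))) (.non (nat_lit 1) (nat_lit 4) (nat_lit 0x401400) (nat_lit 0x100000000000000000001000100000000000000000000))) (.non (nat_lit 1) (nat_lit 4) (nat_lit 0x540050) (nat_lit 0x100010001000000000000000000000002000100000000))) (.star (nat_lit 0xb)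 (nat_lit 2) (nat_lit 5))) (.star (nat_lit 0xb) (nat_lit 1) (nat_lit 5))) (.non (nat_lit 2) (nat_lit 4) (nat_lit 0x405405) (nat_lit 0x100000000000000010001000100000000000000010001))))

noncomputable def t757_87 : Tr := (.st (nat_lit 3) (nat_lit 1) (nat_lit 4) (nat_lit 0x140050) (nat_lit 0x10001000000000000000000000002000100000000) (nat_lit 1) (nat_lit 1) (.ex (nat_lit 4) t757_86 (.split (nat_lit 0xb) (nat_lit 1) (.split (nat_lit 0xb) (nat_lit 2) (.split (nat_lit 0xb) (nat_lit 3) (.split (nat_lit 0xb) (nat_lit 6) (.split (nat_lit 0xb) (nat_lit 7) (.split (nat_lit 0xb) (nat_lit 8) (.split (nat_lit 0xb) (nat_lit 0) (.split (nat_lit 0xb) (nat_lit 5) (.split (nat_lit 0xb) (nat_lit 9) (.split (nat_lit 0xb) (nat_lit 0xa) (.unj (nat_lit 0x55) (nat_lit 0x1000200020001) (nat_lit 0x401500) (nat_lit 0x100000000000000000001000200020000000000000000)) (.unj (nat_lit 0x55) (nat_lit 0x1000200020001) (nat_lit 0x401500) (nat_lit 0x100000000000000000001000200020000000000000000))) (.split (nat_lit 0xb) (nat_lit 0xa) (.unj (nat_lit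 0x55) (nat_lit 0x1000200020001) (nat_lit 0x401500) (nat_lit 0x100000000000000000001000200020000000000000000)) (.non (nat_lit 1) (nat_lit 4) (nat_lit 0x540040) (nat_lit 0x100010001000000000000000000000001000000000000)))) (.split (nat_lit 0xb) (nat_lit 9) (.split (nat_lit 0xb) (nat_lit 0xa) (.unj (nat_lit 0x400500) (nat_lit 0x100000000000000000000000100010000000000000000) (nat_lit 0x55) (nat_lit 0x1000200020001)) (.non (nat_lit 2) (nat_lit 4) (nat_lit 0x515445) (nat_lit 0x300020000000300060005000400000001000000040002))) (.non (nat_lit 2) (nat_lit 4) (nat_lit 0x455445) (nat_lit 0x300000002000300060005000400000001000000040002)))) (.split (nat_lit 0xb) (nat_lit 5) (.split (nat_lit 0xb) (nat_lit 9) (.split (nat_lit 0xb) (nat_lit 0xa) (.unj (nat_lit 0x401500) (nat_lit 0x100000000000000000001000200020000000000000000) (nat_lit 0x140054) (nat_lit 0x10001000000000000000000000002000200020000)) (.non (nat_lit 1) (nat_lit 5) (nat_lit 0x540151) (nat_lit 0x200020001000000000000000000010002000100000001))) (.non (nat_lit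 1) (nat_lit 5) (nat_lit 0x540151) (nat_lit 0x200010002000000000000000000010002000100000001))) (.non (nat_lit 2) (nat_lit 4) (nat_lit 0x405405) (nat_lit 0x100000000000000010001000100000000000000010001)))) (.non (nat_lit 2) (nat_lit 4) (nat_lit 0x415405) (nat_lit 0x100000000000200030002000100000000000000020001))) (.non (nat_lit 2) (nat_lit 4) (nat_lit 0x415004) (nat_lit 0x100000000000100020001000000000000000000010000))) (.non (nat_lit 2) (nat_lit 4) (nat_lit 0x415404) (nat_lit 0x100000000000100020002000100000000000000010000))) (.non (nat_lit 1) (nat_lit 4) (nat_lit 0x540050) (nat_lit 0x100010001000000000000000000000002000100000000))) (.star (nat_lit 0xb) (nat_lit 2) (nat_lit 4))) (.star (nat_lit 0xb) (nat_lit 1) (nat_lit 4)))))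

noncomputable def t757_88 : Tr := (.ex (nat_lit 4) (.split (nat_lit 9) (nat_lit 3) (.split (nat_lit 9) (nat_lit 0) (.split (nat_lit 7) (nat_lit 1) (.split (nat_lit 8) (nat_lit 7) (.pd (.cons (nat_lit 0) (nat_lit 7) (nat_lit 0) (nat_lit 0x3805442110) (nat_lit 0xf423ff423f00000f423fb71ae1f156b71aea2c280473700000) (.cons (nat_lit 1) (nat_lit 6) (nat_lit 0) (nat_lit 0x770449300) (nat_lit 0xa2c28f423fb71ae00000f423f54591b71aef423f0000098965) (.cons (nat_lit 1) (nat_lit 7) (nat_lit 0) (nat_lit 0x805449300) (nat_lit 0xa2c28f423f00000f423fb71ae1f156b71aef423f0000098965) (.cons (nat_lit 1) (nat_lit 8) (nat_lit 0) (nat_lit 0x65449300) (nat_lit 0xa2c2800000f423fb71aea2c2804737b71aef423f0000098965) (.cons (nat_lit 2) (nat_lit 6) (nat_lit 0) (nat_lit 0x710449000) (nat_lit 0xb71aef423fb71ae00000f423f54591f423f00000a2c284734e) (.cons (nat_lit 2) (nat_lit 7) (nat_lit 0) (nat_lit 0x805449000) (nat_lit 0xb71aef423f00000f423fb71ae1f156f423f00000f423f65b97) (.cons (nat_lit 3) (nat_lit 7) (nat_lit 0) (nat_lit 0x805440100) (nat_lit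 0xf423ff423f00000f423fb71ae1f15600000f423f5459106711) .nil))))))) (.leaf (.cons (nat_lit 0x15014) (nat_lit 0x100020001000000000000000200020000) (.cons (nat_lit 0x4054) (nat_lit 0x10000000000000001000200020000) (.cons (nat_lit 0x5504) (nat_lit 0x20003000400030000000000010000) (.cons (nat_lit 0x4015) (nat_lit 0x10000000000000000000200020001) .nil)))) (.cons (nat_lit 0x1111101011) (nat_lit 0x10100) (nat_lit 0xe) (nat_lit 0x6102307045) (.cons (nat_lit 0x1111001011) (nat_lit 0x100100) (nat_lit 0xa) (nat_lit 0x5201006034) .nil)))) (.non (nat_lit 2) (nat_lit 4) (nat_lit 0x25004) (nat_lit 0x100020001000000000000000000010000))) (.non (nat_lit 2) (nat_lit 4) (nat_lit 0x2a004) (nat_lit 0x100020001000000000000000000020000))) (.non (nat_lit 2) (nat_lit 4) (nat_lit 0x95005) (nat_lit 0x1000100020001000000000000000000020002))) (.non (nat_lit 2) (nat_lit 4) (nat_lit 0x55085) (nat_lit 0x2000100020001000000000001000000020002))) (.split (nat_lit 0xa) (nat_lit 0) (.split (nat_lit 0xa) (nat_lit 1) (.split (nat_lit 0xa) (nat_lit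 2) (.split (nat_lit 0xa) (nat_lit 3) (.split (nat_lit 0xa) (nat_lit 5) (.split (nat_lit 0xa) (nat_lit 6) (.split (nat_lit 0xa) (nat_lit 7) (.split (nat_lit 0xa) (nat_lit 8) (.split (nat_lit 0xa) (nat_lit 9) (.unj (nat_lit 0x55) (nat_lit 0x1000200020001) (nat_lit 0x101500) (nat_lit 0x10000000000000001000200020000000000000000)) (.non (nat_lit 2) (nat_lit 4) (nat_lit 0x155045) (nat_lit 0x10002000100020001000000000001000000020002))) (.non (nat_lit 2) (nat_lit 4) (nat_lit 0x115405) (nat_lit 0x10000000200030002000100000000000000020001))) (.non (nat_lit 2) (nat_lit 4) (nat_lit 0x115004) (nat_lit 0x10000000100020001000000000000000000010000))) (.non (nat_lit 2) (nat_lit 4) (nat_lit 0x115404) (nat_lit 0x10000000100020002000100000000000000010000))) (.non (nat_lit 2) (nat_lit 4) (nat_lit 0x155405) (nat_lit 0x10001000200040003000200000000000000030002))) (.non (nat_lit 2) (nat_lit 4) (nat_lit 0x155445) (nat_lit 0x10003000300060004000200000002000000050004))) (.star (nat_lit 0xa) (nat_lit 2) (nat_lit 4))) (.star (nat_lit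 0xa) (nat_lit 1) (nat_lit 4))) (.non (nat_lit 2) (nat_lit 4) (nat_lit 0x155005) (nat_lit 0x10001000100020001000000000000000000020002))))

noncomputable def t757_89 : Tr := (.split (nat_lit 9) (nat_lit 8) (.split (nat_lit 9) (nat_lit 0) (.split (nat_lit 9) (nat_lit 4) (.split (nat_lit 9) (nat_lit 5) (.ex (nat_lit 3) t757_85 (.split (nat_lit 0xa) (nat_lit 0) (.split (nat_lit 0xa) (nat_lit 1) (.split (nat_lit 0xa) (nat_lit 2) (.split (nat_lit 0xa) (nat_lit 5) (.split (nat_lit 0xa) (nat_lit 6) (.split (nat_lit 0xa) (nat_lit 7) (.split (nat_lit 0xa) (nat_lit 8) (.split (nat_lit 0xa) (nat_lit 9) (.split (nat_lit 0xa) (nat_lit 4) t757_87 (.sup (nat_lit 0x10000000000000000000400050003) (nat_lit 0x30000000000000001000500050000000000000000))) (.non (nat_lit 1) (nat_lit 4) (nat_lit 0x140040) (nat_lit 0x10001000000000000000000000001000000000000))) (.non (nat_lit 2) (nat_lit 4) (nat_lit 0x115405) (nat_lit 0x10000000200030002000100000000000000020001))) (.non (nat_lit 1) (nat_lit 4) (nat_lit 0x155050) (nat_lit 0x20001000100020001000000000002000100000000)))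 (.non (nat_lit 1) (nat_lit 4) (nat_lit 0x145450) (nat_lit 0x20001000000010002000100000002000100000000))) (.non (nat_lit 2) (nat_lit 4) (nat_lit 0x155445) (nat_lit 0x30001000300060005000400000002000000040002))) (.non (nat_lit 1) (nat_lit 4) (nat_lit 0x100050) (nat_lit 0x10000000000000000000000000001000100000000))) (.non (nat_lit 2) (nat_lit 4) (nat_lit 0x115005) (nat_lit 0x10000000100020001000000000000000000020001))) (.non (nat_lit 2) (nat_lit 4) (nat_lit 0x155445) (nat_lit 0x30001000300060004000200000002000000050004)))) (.sup (nat_lit 0x20009000a0005) (nat_lit 0x2000000000005000a00080000000000000000))) (.split (nat_lit 9) (nat_lit 5) (.sup (nat_lit 0x10000000000000000000400050003) (nat_lit 0x3000000000001000500050000000000000000)) (.unj (nat_lit 0x40500) (nat_lit 0x1000000000000000100010000000000000000) (nat_lit 0x4015) (nat_lit 0x10000000000000000000200020001)))) (.split (nat_lit 9) (nat_lit 4) (.split (nat_lit 9) (nat_lit 5) (.st (nat_lit 3) (nat_lit 2) (nat_lit 4) (nat_lit 0x55445) (nat_lit 0x3000300060004000200000002000000050004)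 (nat_lit 1) (nat_lit 1) (.st (nat_lit 5) (nat_lit 2) (nat_lit 4) (nat_lit 0x55405) (nat_lit 0x1000200040003000200000000000000030002) (nat_lit 1) (nat_lit 1) (.st (nat_lit 9) (nat_lit 2) (nat_lit 4) (nat_lit 0x55045) (nat_lit 0x2000100020001000000000001000000020002) (nat_lit 1) (nat_lit 1) t757_88))) (.non (nat_lit 2) (nat_lit 4) (nat_lit 0x45405) (nat_lit 0x1000000010001000100000000000000010001))) (.non (nat_lit 2) (nat_lit 5) (nat_lit 0x55145) (nat_lit 0x2000100020001000000010001000000020002)))) (.non (nat_lit 2) (nat_lit 4) (nat_lit 0x55405) (nat_lit 0x1000200030002000100000000000000020001)))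

noncomputable def t757_90 : Tr := (.ex (nat_lit 5) (.split (nat_lit 9) (nat_lit 2) (.split (nat_lit 7) (nat_lit 1) (.split (nat_lit 8) (nat_lit 7) (.pd (.cons (nat_lit 1) (nat_lit 6) (nat_lit 0) (nat_lit 0x2770442200) (nat_lit 0xf423ff423fb71ae00000f423f54591f423f7a11d00000f423f) (.cons (nat_lit 1) (nat_lit 7) (nat_lit 0) (nat_lit 0x2805442200) (nat_lit 0xf423ff423f00000f423fb71ae1f156f423f7a11d00000f423f) (.cons (nat_lit 1) (nat_lit 8) (nat_lit 0) (nat_lit 0x2065442200) (nat_lit 0xf423f00000f423fb71aea2c2804737f423f7a11d00000f423f) (.cons (nat_lit 2) (nat_lit 6) (nat_lit 0) (nat_lit 0x9710443000) (nat_lit 0xf423ff423fb71ae00000f423f54591f423f00000a2c2898965) (.cons (nat_lit 2) (nat_lit 7) (nat_lit 0) (nat_lit 0x9805443000) (nat_lit 0xf423ff423f00000f423fb71ae1f156f423f00000f423fb71ae) .nil))))) (.leaf (.cons (nat_lit 0x44014) (nat_lit 0x1000000010000000000000000000200020000) (.cons (nat_lit 0x40054) (nat_lit 0x1000000000000000000000001000200020000) (.cons (nat_lit 0x5504) (nat_lit 0x20003000400030000000000010000)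 (.cons (nat_lit 0x40015) (nat_lit 0x1000000000000000000000000000200020001) .nil)))) (.cons (nat_lit 0x110000011) (nat_lit 0x1000100) (nat_lit 2) (nat_lit 0x320000010) .nil))) (.non (nat_lit 2) (nat_lit 4) (nat_lit 0x25004) (nat_lit 0x100020001000000000000000000010000))) (.non (nat_lit 2) (nat_lit 4) (nat_lit 0x2a004) (nat_lit 0x100020001000000000000000000020000))) (.split (nat_lit 9) (nat_lit 2) (.split (nat_lit 8) (nat_lit 7) (.split (nat_lit 7) (nat_lit 1) (.sup (nat_lit 0x6000d00160020001a0000000000000000) (nat_lit 0x8000000000000000000000005000b00030002)) (.non (nat_lit 2) (nat_lit 4) (nat_lit 0x2a004) (nat_lit 0x100020001000000000000000000020000))) (.non (nat_lit 2) (nat_lit 4) (nat_lit 0x25004) (nat_lit 0x100020001000000000000000000010000))) (.split (nat_lit 9) (nat_lit 2) (.split (nat_lit 8) (nat_lit 7) (.split (nat_lit 7) (nat_lit 1) (.sup (nat_lit 0x40007000b0010000d0000000000000000) (nat_lit 0x4000000000000000000000002000500010000)) (.non (nat_lit 2) (nat_lit 4) (nat_lit 0x2a004) (nat_lit 0x100020001000000000000000000020000)))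 (.non (nat_lit 2) (nat_lit 4) (nat_lit 0x25004) (nat_lit 0x100020001000000000000000000010000))) (.non (nat_lit 1) (nat_lit 4) (nat_lit 0xc0050) (nat_lit 0x1000000000000000000000001000200000000))))) (.split (nat_lit 0xa) (nat_lit 0) (.split (nat_lit 0xa) (nat_lit 1) (.split (nat_lit 0xa) (nat_lit 2) (.split (nat_lit 0xa) (nat_lit 6) (.split (nat_lit 0xa) (nat_lit 7) (.split (nat_lit 0xa) (nat_lit 8) (.split (nat_lit 0xa) (nat_lit 3) (.split (nat_lit 0xa) (nat_lit 4) (.split (nat_lit 0xa) (nat_lit 9) (.unj (nat_lit 0x55) (nat_lit 0x1000200020001) (nat_lit 0x101500) (nat_lit 0x10000000000000001000200020000000000000000)) (.unj (nat_lit 0x55) (nat_lit 0x1000200020001) (nat_lit 0x101500) (nat_lit 0x10000000000000001000200020000000000000000))) (.split (nat_lit 0xa) (nat_lit 9) (.unj (nat_lit 0x100500) (nat_lit 0x10000000000000000000100010000000000000000) (nat_lit 0x55) (nat_lit 0x1000200020001)) (.unj (nat_lit 0x100500) (nat_lit 0x10000000000000000000100010000000000000000) (nat_lit 0x55) (nat_lit 0x1000200020001))))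 (.split (nat_lit 0xa) (nat_lit 9) (.split (nat_lit 0xa) (nat_lit 4) (.unj (nat_lit 0x40015) (nat_lit 0x1000000000000000000000000000200020001) (nat_lit 0x101500) (nat_lit 0x10000000000000001000200020000000000000000)) (.unj (nat_lit 0x100500) (nat_lit 0x10000000000000000000100010000000000000000) (nat_lit 0x4015) (nat_lit 0x10000000000000000000200020001))) (.non (nat_lit 1) (nat_lit 4) (nat_lit 0x140050) (nat_lit 0x10001000000000000000000000001000100000000)))) (.non (nat_lit 1) (nat_lit 4) (nat_lit 0x115400) (nat_lit 0x10000000100010001000100000000000000000000))) (.non (nat_lit 1) (nat_lit 4) (nat_lit 0x105400) (nat_lit 0x10000000000010001000100000000000000000000))) (.non (nat_lit 1) (nat_lit 4) (nat_lit 0x101400) (nat_lit 0x10000000000000001000100000000000000000000))) (.star (nat_lit 0xa) (nat_lit 2) (nat_lit 5))) (.star (nat_lit 0xa) (nat_lit 1) (nat_lit 5))) (.non (nat_lit 2) (nat_lit 4) (nat_lit 0x105405) (nat_lit 0x10000000000010001000100000000000000010001))))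

noncomputable def t757_91 : Tr := (.split (nat_lit 8) (nat_lit 7) (.pd (.cons (nat_lit 1) (nat_lit 6) (nat_lit 0) (nat_lit 0x770442900) (nat_lit 0xa2c28f423fb71ae00000f423f54591f423fb71ae0000098965) (.cons (nat_lit 1) (nat_lit 7) (nat_lit 0) (nat_lit 0x805442900) (nat_lit 0xa2c28f423f00000f423fb71ae1f156f423fb71ae0000098965) (.cons (nat_lit 1) (nat_lit 8) (nat_lit 0) (nat_lit 0x65442900) (nat_lit 0xa2c2800000f423fb71aea2c2804737f423fb71ae0000098965) (.cons (nat_lit 2) (nat_lit 6) (nat_lit 0) (nat_lit 0x710443000) (nat_lit 0xf423ff423fb71ae00000f423f54591f423f00000a2c285b8d4) (.cons (nat_lit 2) (nat_lit 7) (nat_lit 0) (nat_lit 0x805443000) (nat_lit 0xf423ff423f00000f423fb71ae1f156f423f00000f423f7a11d) .nil))))) (.ex (nat_lit 9) (.leaf (.cons (nat_lit 0x44014) (nat_lit 0x1000000010000000000000000000200020000) (.cons (nat_lit 0x40054) (nat_lit 0x1000000000000000000000001000200020000) (.cons (nat_lit 0x5504) (nat_lit 0x20003000400030000000000010000) (.cons (nat_lit 0x40015) (nat_lit 0x1000000000000000000000000000100010001)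 .nil)))) (.cons (nat_lit 0x1110000011) (nat_lit 0x1000100) (nat_lit 3) (nat_lit 0x4010000023) .nil)) (.split (nat_lit 0xa) (nat_lit 0) (.split (nat_lit 0xa) (nat_lit 1) (.split (nat_lit 0xa) (nat_lit 2) (.split (nat_lit 0xa) (nat_lit 3) (.split (nat_lit 0xa) (nat_lit 4) (.split (nat_lit 0xa) (nat_lit 5) (.split (nat_lit 0xa) (nat_lit 6) (.split (nat_lit 0xa) (nat_lit 7) (.split (nat_lit 0xa) (nat_lit 8) (.sup (nat_lit 0x30007000b0010000d0000000000000000) (nat_lit 0x20004000000000000000000000002000400010003)) (.non (nat_lit 1) (nat_lit 4) (nat_lit 0x155451) (nat_lit 0x50006000400030002000100000002000400000003))) (.non (nat_lit 1) (nat_lit 4) (nat_lit 0x155011) (nat_lit 0x20002000100020001000000000000000100000001))) (.non (nat_lit 1) (nat_lit 4) (nat_lit 0x145411) (nat_lit 0x20002000000010002000100000000000100000001))) (.non (nat_lit 1) (nat_lit 4) (nat_lit 0x155451) (nat_lit 0x50006000100020003000400000002000400000003))) (.non (nat_lit 1) (nat_lit 6) (nat_lit 0x140510) (nat_lit 0x30002000000000000000300040000000100000000)))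 (.non (nat_lit 1) (nat_lit 4) (nat_lit 0x140050) (nat_lit 0x10001000000000000000000000001000100000000))) (.non (nat_lit 1) (nat_lit 4) (nat_lit 0x140010) (nat_lit 0x10001000000000000000000000000000100000000))) (.non (nat_lit 2) (nat_lit 4) (nat_lit 0x140005) (nat_lit 0x10001000000000000000000000000000000010001))) (.non (nat_lit 1) (nat_lit 4) (nat_lit 0x140001) (nat_lit 0x10001000000000000000000000000000000000001))))) (.non (nat_lit 2) (nat_lit 4) (nat_lit 0x25004) (nat_lit 0x100020001000000000000000000010000)))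

noncomputable def t757_92 : Tr := (.split (nat_lit 9) (nat_lit 0) (.ex (nat_lit 4) t757_90 (.split (nat_lit 0xa) (nat_lit 1) (.split (nat_lit 0xa) (nat_lit 2) (.split (nat_lit 0xa) (nat_lit 6) (.split (nat_lit 0xa) (nat_lit 7) (.split (nat_lit 0xa) (nat_lit 8) (.split (nat_lit 0xa) (nat_lit 0) (.split (nat_lit 0xa) (nat_lit 3) (.split (nat_lit 0xa) (nat_lit 5) (.split (nat_lit 0xa) (nat_lit 9) (.unj (nat_lit 0x55) (nat_lit 0x1000200020001) (nat_lit 0x101500) (nat_lit 0x10000000000000001000200020000000000000000)) (.unj (nat_lit 0x55) (nat_lit 0x1000200020001) (nat_lit 0x101500) (nat_lit 0x10000000000000001000200020000000000000000))) (.split (nat_lit 0xa) (nat_lit 9) (.unj (nat_lit 0x100500) (nat_lit 0x10000000000000000000100010000000000000000) (nat_lit 0x55) (nat_lit 0x1000200020001)) (.unj (nat_lit 0x100500) (nat_lit 0x10000000000000000000100010000000000000000) (nat_lit 0x55) (nat_lit 0x1000200020001)))) (.split (nat_lit 0xa) (nat_lit 9) (.split (nat_lit 0xa) (nat_lit 5) (.unj (nat_lit 0x40015) (nat_lit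 0x1000000000000000000000000000200020001) (nat_lit 0x101500) (nat_lit 0x10000000000000001000200020000000000000000)) (.unj (nat_lit 0x100500) (nat_lit 0x10000000000000000000100010000000000000000) (nat_lit 0x4015) (nat_lit 0x10000000000000000000200020001))) (.non (nat_lit 1) (nat_lit 4) (nat_lit 0x140050) (nat_lit 0x10001000000000000000000000001000100000000)))) (.split (nat_lit 0xa) (nat_lit 3) (.split (nat_lit 0xa) (nat_lit 5) (.split (nat_lit 0xa) (nat_lit 9) (.unj (nat_lit 0x40054) (nat_lit 0x1000000000000000000000001000200020000) (nat_lit 0x101500) (nat_lit 0x10000000000000001000200020000000000000000)) (.non (nat_lit 2) (nat_lit 5) (nat_lit 0x155105) (nat_lit 0x20001000100020001000000010000000000020002))) (.non (nat_lit 2) (nat_lit 4) (nat_lit 0x105405) (nat_lit 0x10000000000010001000100000000000000010001))) (.non (nat_lit 2) (nat_lit 5) (nat_lit 0x115145) (nat_lit 0x20000000100020001000000010001000000020002)))) (.non (nat_lit 2) (nat_lit 4) (nat_lit 0x115405) (nat_lit 0x10000000200030002000100000000000000020001)))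 (.non (nat_lit 2) (nat_lit 4) (nat_lit 0x115004) (nat_lit 0x10000000100020001000000000000000000010000))) (.non (nat_lit 2) (nat_lit 4) (nat_lit 0x115404) (nat_lit 0x10000000100020002000100000000000000010000))) (.star (nat_lit 0xa) (nat_lit 2) (nat_lit 4))) (.star (nat_lit 0xa) (nat_lit 1) (nat_lit 4)))) (.st (nat_lit 5) (nat_lit 2) (nat_lit 4) (nat_lit 0x55405) (nat_lit 0x1000200040003000200000000000000030002) (nat_lit 1) (nat_lit 1) (.ex (nat_lit 4) (.split (nat_lit 9) (nat_lit 0) (.split (nat_lit 9) (nat_lit 2) (.split (nat_lit 7) (nat_lit 1) t757_91 (.non (nat_lit 2) (nat_lit 4) (nat_lit 0x2a004) (nat_lit 0x100020001000000000000000000020000))) (.sup (nat_lit 0x7000f00170020001a0000000000000000) (nat_lit 0x7000000000000000000000004000800010004))) (.non (nat_lit 2) (nat_lit 4) (nat_lit 0x95005) (nat_lit 0x1000100020001000000000000000000020002))) (.split (nat_lit 0xa) (nat_lit 0) (.split (nat_lit 0xa) (nat_lit 1) (.split (nat_lit 0xa) (nat_lit 2) (.split (nat_lit 0xa) (nat_lit 5) (.split (nat_lit 0xa) (nat_lit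 6) (.split (nat_lit 0xa) (nat_lit 7) (.split (nat_lit 0xa) (nat_lit 8) (.split (nat_lit 0xa) (nat_lit 3) (.split (nat_lit 0xa) (nat_lit 9) (.unj (nat_lit 0x55) (nat_lit 0x1000200020001) (nat_lit 0x101500) (nat_lit 0x10000000000000001000200020000000000000000)) (.unj (nat_lit 0x55) (nat_lit 0x1000200020001) (nat_lit 0x101500) (nat_lit 0x10000000000000001000200020000000000000000))) (.split (nat_lit 0xa) (nat_lit 9) (.unj (nat_lit 0x40015) (nat_lit 0x1000000000000000000000000000100010001) (nat_lit 0x101500) (nat_lit 0x10000000000000001000200020000000000000000)) (.non (nat_lit 1) (nat_lit 4) (nat_lit 0x140050) (nat_lit 0x10001000000000000000000000001000100000000)))) (.non (nat_lit 2) (nat_lit 4) (nat_lit 0x115405) (nat_lit 0x10000000200030002000100000000000000020001))) (.non (nat_lit 2) (nat_lit 4) (nat_lit 0x115004) (nat_lit 0x10000000100020001000000000000000000010000))) (.non (nat_lit 2) (nat_lit 4) (nat_lit 0x115404) (nat_lit 0x10000000100020002000100000000000000010000))) (.non (nat_lit 2) (nat_lit 4) (nat_lit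 0x155405) (nat_lit 0x10001000200040003000200000000000000030002))) (.star (nat_lit 0xa) (nat_lit 2) (nat_lit 4))) (.star (nat_lit 0xa) (nat_lit 1) (nat_lit 4))) (.non (nat_lit 2) (nat_lit 4) (nat_lit 0x155005) (nat_lit 0x10001000100020001000000000000000000020002))))))

noncomputable def t757_93 : Tr := (.ex (nat_lit 2) (.ex (nat_lit 3) (.ex (nat_lit 4) t757_82 (.split (nat_lit 9) (nat_lit 1) (.split (nat_lit 9) (nat_lit 2) (.split (nat_lit 9) (nat_lit 6) (.split (nat_lit 9) (nat_lit 7) (.split (nat_lit 9) (nat_lit 8) (.split (nat_lit 9) (nat_lit 0) (.split (nat_lit 9) (nat_lit 3) (.split (nat_lit 9) (nat_lit 5) (.unj (nat_lit 0x55) (nat_lit 0x1000200020001) (nat_lit 0x41500) (nat_lit 0x1000000000001000200020000000000000000)) (.unj (nat_lit 0x40500) (nat_lit 0x1000000000000000100010000000000000000) (nat_lit 0x55) (nat_lit 0x1000200020001))) (.split (nat_lit 9) (nat_lit 5) (.sup (nat_lit 0x10000000000000000000400050003) (nat_lit 0x3000000000001000500050000000000000000)) (.unj (nat_lit 0x40500) (nat_lit 0x1000000000000000100010000000000000000)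 (nat_lit 0x4015) (nat_lit 0x10000000000000000000200020001)))) (.split (nat_lit 9) (nat_lit 3) (.split (nat_lit 9) (nat_lit 5) (.sup (nat_lit 0x20000000000000005000a00090000) (nat_lit 0x50000000000020009000a0000000000000000)) (.non (nat_lit 2) (nat_lit 4) (nat_lit 0x45405) (nat_lit 0x1000000010001000100000000000000010001))) (.non (nat_lit 2) (nat_lit 5) (nat_lit 0x55145) (nat_lit 0x2000100020001000000010001000000020002)))) (.non (nat_lit 2) (nat_lit 4) (nat_lit 0x55405) (nat_lit 0x1000200030002000100000000000000020001))) (.non (nat_lit 2) (nat_lit 4) (nat_lit 0x55004) (nat_lit 0x1000100020001000000000000000000010000))) (.non (nat_lit 2) (nat_lit 4) (nat_lit 0x55404) (nat_lit 0x1000100020002000100000000000000010000))) (.star (nat_lit 9) (nat_lit 2) (nat_lit 4))) (.star (nat_lit 9) (nat_lit 1) (nat_lit 4)))) (.split (nat_lit 9) (nat_lit 1) (.split (nat_lit 9) (nat_lit 2) (.split (nat_lit 9) (nat_lit 6) (.split (nat_lit 9) (nat_lit 7) t757_89 (.non (nat_lit 2) (nat_lit 4) (nat_lit 0x55004) (nat_lit 0x1000100020001000000000000000000010000)))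 (.non (nat_lit 2) (nat_lit 4) (nat_lit 0x55404) (nat_lit 0x1000100020002000100000000000000010000))) (.non (nat_lit 1) (nat_lit 4) (nat_lit 0x40050) (nat_lit 0x1000000000000000000000001000100000000))) (.non (nat_lit 2) (nat_lit 4) (nat_lit 0x55005) (nat_lit 0x1000100020001000000000000000000020001)))) (.split (nat_lit 9) (nat_lit 1) (.split (nat_lit 9) (nat_lit 3) (.split (nat_lit 9) (nat_lit 4) (.split (nat_lit 9) (nat_lit 5) (.split (nat_lit 9) (nat_lit 6) (.split (nat_lit 9) (nat_lit 7) (.split (nat_lit 9) (nat_lit 8) t757_92 (.non (nat_lit 2) (nat_lit 4) (nat_lit 0x55405) (nat_lit 0x1000200030002000100000000000000020001))) (.non (nat_lit 2) (nat_lit 4) (nat_lit 0x55004) (nat_lit 0x1000100020001000000000000000000010000))) (.non (nat_lit 2) (nat_lit 4) (nat_lit 0x55404) (nat_lit 0x1000100020002000100000000000000010000))) (.star (nat_lit 9) (nat_lit 2) (nat_lit 5))) (.star (nat_lit 9) (nat_lit 2) (nat_lit 4))) (.non (nat_lit 1) (nat_lit 4) (nat_lit 0x40050) (nat_lit 0x1000000000000000000000001000100000000)))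 (.non (nat_lit 2) (nat_lit 4) (nat_lit 0x55005) (nat_lit 0x1000100020001000000000000000000020001))))

noncomputable def t757_94 : Tr := (.ex (nat_lit 9) (.pd (.cons (nat_lit 3) (nat_lit 7) (nat_lit 0) (nat_lit 0x805440100) (nat_lit 0xf423ff423f00000f423fb71ae1f15600000f423f5459106711) .nil) (.leaf (.cons (nat_lit 0x15014) (nat_lit 0x100020001000000000000000200020000) (.cons (nat_lit 0x4054) (nat_lit 0x10000000000000001000200020000) (.cons (nat_lit 0x5504) (nat_lit 0x20003000400030000000000010000) (.cons (nat_lit 0x4015) (nat_lit 0x10000000000000000000200020001) .nil)))) (.cons (nat_lit 0x1110000011) (nat_lit 0x1000100) (nat_lit 3) (nat_lit 0x4010000023) .nil))) (.split (nat_lit 0xa) (nat_lit 0) (.split (nat_lit 0xa) (nat_lit 1) (.split (nat_lit 0xa) (nat_lit 2) (.split (nat_lit 0xa) (nat_lit 3) (.split (nat_lit 0xa) (nat_lit 4) (.split (nat_lit 0xa) (nat_lit 5) (.split (nat_lit 0xa) (nat_lit 6) (.split (nat_lit 0xa) (nat_lit 7) (.split (nat_lit 0xa) (nat_lit 8) (.st (nat_lit 9) (nat_lit 2) (nat_lit 4) (nat_lit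 0x155005) (nat_lit 0x10002000100020001000000000000000000020002) (nat_lit 1) (nat_lit 1) (.st (nat_lit 0xa) (nat_lit 2) (nat_lit 4) (nat_lit 0x155405) (nat_lit 0x20003000300060004000200000000000000050004) (nat_lit 1) (nat_lit 1) (.split (nat_lit 0xa) (nat_lit 9) (.leaf (.cons (nat_lit 0x15014) (nat_lit 0x100020001000000000000000200020000) (.cons (nat_lit 0x4054) (nat_lit 0x10000000000000001000200020000) (.cons (nat_lit 0x5504) (nat_lit 0x20003000400030000000000010000) (.cons (nat_lit 0x140015) (nat_lit 0x10002000000000000000000000000000300040003) .nil)))) (.cons (nat_lit 0x11111100011) (nat_lit 0x10100) (nat_lit 0xe) (nat_lit 0x76102300045) (.cons (nat_lit 0x11111000011) (nat_lit 0x100100) (nat_lit 0xa) (nat_lit 0x65201000034) .nil))) (.non (nat_lit 2) (nat_lit 4) (nat_lit 0x255005) (nat_lit 0x10002000100020001000000000000000000020002))))) (.non (nat_lit 2) (nat_lit 4) (nat_lit 0x154005) (nat_lit 0x10001000100010000000000000000000000010001))) (.non (nat_lit 2) (nat_lit 4) (nat_lit 0x115004) (nat_lit 0x10000000100020001000000000000000000010000)))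 (.non (nat_lit 2) (nat_lit 4) (nat_lit 0x115404) (nat_lit 0x10000000100020002000100000000000000010000))) (.non (nat_lit 2) (nat_lit 4) (nat_lit 0x145405) (nat_lit 0x10001000000010001000100000000000000010001))) (.non (nat_lit 0) (nat_lit 7) (nat_lit 0x101500) (nat_lit 0x10000000000000001000200020000000000000000))) (.non (nat_lit 2) (nat_lit 4) (nat_lit 0x155445) (nat_lit 0x20003000300060004000200000001000000050004))) (.non (nat_lit 0) (nat_lit 7) (nat_lit 0x100054) (nat_lit 0x10000000000000000000000000001000200020000))) (.non (nat_lit 2) (nat_lit 4) (nat_lit 0x140005) (nat_lit 0x10001000000000000000000000000000000010001))) (.non (nat_lit 1) (nat_lit 4) (nat_lit 0x140001) (nat_lit 0x10001000000000000000000000000000000000001))))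

noncomputable def t757_95 : Tr := (.ex (nat_lit 4) (.split (nat_lit 9) (nat_lit 0) (.split (nat_lit 7) (nat_lit 1) (.split (nat_lit 8) (nat_lit 7) (.pd (.cons (nat_lit 0) (nat_lit 7) (nat_lit 0) (nat_lit 0x9805442110) (nat_lit 0xf423ff423f00000f423fb71ae1f156f423fb71ae1f15600000) (.cons (nat_lit 1) (nat_lit 6) (nat_lit 0) (nat_lit 0x770442200) (nat_lit 0xf423ff423fb71ae00000f423f54591f423fb71ae00000b71ae) (.cons (nat_lit 1) (nat_lit 7) (nat_lit 0) (nat_lit 0x805442200) (nat_lit 0xf423ff423f00000f423fb71ae1f156f423fb71ae00000b71ae) (.cons (nat_lit 1) (nat_lit 8) (nat_lit 0) (nat_lit 0x65442200) (nat_lit 0xf423f00000f423fb71aea2c2804737f423fb71ae00000b71ae) (.cons (nat_lit 2) (nat_lit 6) (nat_lit 0) (nat_lit 0x710443000) (nat_lit 0xf423ff423fb71ae00000f423f54591f423f00000a2c285b8d4) (.cons (nat_lit 2) (nat_lit 7) (nat_lit 0) (nat_lit 0x805443000) (nat_lit 0xf423ff423f00000f423fb71ae1f156f423f00000f423f7a11d) .nil)))))) t757_94) (.non (nat_lit 2) (nat_lit 4) (nat_lit 0x25004) (nat_lit 0x100020001000000000000000000010000)))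 (.non (nat_lit 2) (nat_lit 4) (nat_lit 0x2a004) (nat_lit 0x100020001000000000000000000020000))) (.non (nat_lit 2) (nat_lit 4) (nat_lit 0x95005) (nat_lit 0x1000100020001000000000000000000020002))) (.split (nat_lit 0xa) (nat_lit 0) (.split (nat_lit 0xa) (nat_lit 1) (.split (nat_lit 0xa) (nat_lit 2) (.split (nat_lit 0xa) (nat_lit 5) (.split (nat_lit 0xa) (nat_lit 6) (.split (nat_lit 0xa) (nat_lit 7) (.split (nat_lit 0xa) (nat_lit 8) (.split (nat_lit 0xa) (nat_lit 3) (.split (nat_lit 0xa) (nat_lit 9) (.unj (nat_lit 0x55) (nat_lit 0x1000200020001) (nat_lit 0x101500) (nat_lit 0x10000000000000001000200020000000000000000)) (.unj (nat_lit 0x55) (nat_lit 0x1000200020001) (nat_lit 0x101500) (nat_lit 0x10000000000000001000200020000000000000000))) (.split (nat_lit 0xa) (nat_lit 9) (.sup (nat_lit 0x10000000000000000000400050003) (nat_lit 0x30000000000000001000500050000000000000000)) (.non (nat_lit 2) (nat_lit 4) (nat_lit 0x155445) (nat_lit 0x20003000300060004000200000001000000050004)))) (.non (nat_lit 2) (nat_lit 4) (nat_lit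 0x115405) (nat_lit 0x10000000200030002000100000000000000020001))) (.non (nat_lit 2) (nat_lit 4) (nat_lit 0x115004) (nat_lit 0x10000000100020001000000000000000000010000))) (.non (nat_lit 2) (nat_lit 4) (nat_lit 0x115404) (nat_lit 0x10000000100020002000100000000000000010000))) (.non (nat_lit 2) (nat_lit 4) (nat_lit 0x155405) (nat_lit 0x10001000200040003000200000000000000030002))) (.star (nat_lit 0xa) (nat_lit 2) (nat_lit 4))) (.star (nat_lit 0xa) (nat_lit 1) (nat_lit 4))) (.non (nat_lit 2) (nat_lit 4) (nat_lit 0x155005) (nat_lit 0x10001000100020001000000000000000000020002))))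

noncomputable def t757_96 : Tr := (.pd (.cons (nat_lit 3) (nat_lit 7) (nat_lit 0) (nat_lit 0xa0805440100) (nat_lit 0xf423ff423ff423f00000f423fb71ae1f15600000f423f5459106711) .nil) (.ex (nat_lit 0xa) (.pd (.cons (nat_lit 0) (nat_lit 7) (nat_lit 0) (nat_lit 0x39805442110) (nat_lit 0xf423ff423ff423f00000f423fb71ae1f156b71aea2c280473700000) .nil) (.leaf (.cons (nat_lit 0x15014) (nat_lit 0x100020001000000000000000200020000) (.cons (nat_lit 0x4054) (nat_lit 0x10000000000000001000200020000) (.cons (nat_lit 0x5504) (nat_lit 0x20003000400030000000000010000) (.cons (nat_lit 0x4015) (nat_lit 0x10000000000000000000200020001) .nil)))) (.cons (nat_lit 0x1110000011) (nat_lit 0x1000100) (nat_lit 3) (nat_lit 0x4010000023) .nil))) (.split (nat_lit 0xb) (nat_lit 0) (.split (nat_lit 0xb) (nat_lit 1) (.split (nat_lit 0xb) (nat_lit 2) (.split (nat_lit 0xb) (nat_lit 3) (.split (nat_lit 0xb) (nat_lit 4) (.split (nat_lit 0xb) (nat_lit 5) (.split (nat_lit 0xb) (nat_lit 6) (.split (nat_lit 0xb) (nat_lit 7) (.split (nat_lit 0xb) (nat_lit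 8) (.split (nat_lit 0xb) (nat_lit 9) (.leaf (.cons (nat_lit 0x15014) (nat_lit 0x100020001000000000000000200020000) (.cons (nat_lit 0x500054) (nat_lit 0x100020000000000000000000000000003000400030000) (.cons (nat_lit 0x5504) (nat_lit 0x20003000400030000000000010000) (.cons (nat_lit 0x4015) (nat_lit 0x10000000000000000000200020001) .nil)))) (.cons (nat_lit 0x1110000011) (nat_lit 0x1000100) (nat_lit 3) (nat_lit 0x4010000023) .nil)) (.non (nat_lit 2) (nat_lit 4) (nat_lit 0x555405) (nat_lit 0x200010003000300060004000200000000000000050004))) (.non (nat_lit 2) (nat_lit 4) (nat_lit 0x555005) (nat_lit 0x200010001000300040002000000000000000000030002))) (.non (nat_lit 2) (nat_lit 4) (nat_lit 0x415004) (nat_lit 0x100000000000100020001000000000000000000010000))) (.non (nat_lit 2) (nat_lit 4) (nat_lit 0x415404) (nat_lit 0x100000000000100020002000100000000000000010000))) (.non (nat_lit 2) (nat_lit 4) (nat_lit 0x455405) (nat_lit 0x100000001000200040003000200000000000000030002))) (.non (nat_lit 1) (nat_lit 6) (nat_lit 0x500540)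 (nat_lit 0x300020000000000000000000300040001000000000000))) (.non (nat_lit 1) (nat_lit 4) (nat_lit 0x500040) (nat_lit 0x100010000000000000000000000000001000000000000))) (.non (nat_lit 1) (nat_lit 4) (nat_lit 0x500050) (nat_lit 0x100010000000000000000000000000001000100000000))) (.non (nat_lit 2) (nat_lit 4) (nat_lit 0x554005) (nat_lit 0x200010001000100020000000000000000000000030002))) (.non (nat_lit 2) (nat_lit 4) (nat_lit 0x455005) (nat_lit 0x100000001000100020001000000000000000000020002)))))

noncomputable def t757_97 : Tr := (.ex (nat_lit 0xa) (.pd (.cons (nat_lit 0) (nat_lit 7) (nat_lit 0x101000000000) (nat_lit 0x93b805442110) (nat_lit 0x1f423f00001f423f00000f423fb71ae1f156b71aea2c280473700000) .nil) (.split (nat_lit 0xb) (nat_lit 9) (.leaf (.cons (nat_lit 0x15014) (nat_lit 0x100020001000000000000000200020000) (.cons (nat_lit 0x4054) (nat_lit 0x10000000000000001000200020000) (.cons (nat_lit 0x5504) (nat_lit 0x20003000400030000000000010000) (.cons (nat_lit 0x440015) (nat_lit 0x100000002000000000000000000000000000300040003)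 .nil)))) (.cons (nat_lit 0x101111100011) (nat_lit 0x10100) (nat_lit 0xe) (nat_lit 0x706102300045) (.cons (nat_lit 0x101111000011) (nat_lit 0x100100) (nat_lit 0xa) (nat_lit 0x605201000034) .nil))) (.non (nat_lit 2) (nat_lit 4) (nat_lit 0x855005) (nat_lit 0x100000002000100020001000000000000000000020002)))) (.split (nat_lit 0xc) (nat_lit 0) (.split (nat_lit 0xc) (nat_lit 1) (.split (nat_lit 0xc) (nat_lit 2) (.split (nat_lit 0xc) (nat_lit 3) (.split (nat_lit 0xc) (nat_lit 4) (.split (nat_lit 0xc) (nat_lit 5) (.split (nat_lit 0xc) (nat_lit 6) (.split (nat_lit 0xc) (nat_lit 7) (.split (nat_lit 0xc) (nat_lit 8) (.split (nat_lit 0xc) (nat_lit 9) (.split (nat_lit 0xc) (nat_lit 0xb) (.split (nat_lit 0xb) (nat_lit 9) (.leaf (.cons (nat_lit 0x15014) (nat_lit 0x100020001000000000000000200020000) (.cons (nat_lit 0x1100054) (nat_lit 0x1000000020000000000000000000000000003000400030000) (.cons (nat_lit 0x5504) (nat_lit 0x20003000400030000000000010000) (.cons (nat_lit 0x440015) (nat_lit 0x100000002000000000000000000000000000300040003)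 .nil)))) (.cons (nat_lit 0x101111100011) (nat_lit 0x10100) (nat_lit 0xe) (nat_lit 0x706102300045) (.cons (nat_lit 0x101111000011) (nat_lit 0x100100) (nat_lit 0xa) (nat_lit 0x605201000034) .nil))) (.non (nat_lit 2) (nat_lit 4) (nat_lit 0x855005) (nat_lit 0x100000002000100020001000000000000000000020002))) (.non (nat_lit 2) (nat_lit 4) (nat_lit 0x1455405) (nat_lit 0x1000200000003000300060004000200000000000000050004))) (.non (nat_lit 2) (nat_lit 4) (nat_lit 0x1455005) (nat_lit 0x1000100000002000100020001000000000000000000020002))) (.non (nat_lit 2) (nat_lit 4) (nat_lit 0x1155005) (nat_lit 0x2000000010001000300040002000000000000000000030002))) (.non (nat_lit 2) (nat_lit 4) (nat_lit 0x1015004) (nat_lit 0x1000000000000000100020001000000000000000000010000))) (.non (nat_lit 2) (nat_lit 4) (nat_lit 0x1015404) (nat_lit 0x1000000000000000100020002000100000000000000010000))) (.non (nat_lit 2) (nat_lit 4) (nat_lit 0x1055405) (nat_lit 0x1000000000001000200040003000200000000000000030002))) (.non (nat_lit 1) (nat_lit 6)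 (nat_lit 0x1100540) (nat_lit 0x3000000020000000000000000000300040001000000000000))) (.non (nat_lit 1) (nat_lit 4) (nat_lit 0x1100040) (nat_lit 0x1000000010000000000000000000000000001000000000000))) (.non (nat_lit 1) (nat_lit 4) (nat_lit 0x1100050) (nat_lit 0x1000000010000000000000000000000000001000100000000))) (.non (nat_lit 2) (nat_lit 4) (nat_lit 0x1154005) (nat_lit 0x2000000010001000100020000000000000000000000030002))) (.non (nat_lit 2) (nat_lit 4) (nat_lit 0x1544005) (nat_lit 0x2000100010002000000010000000000000000000000020003))))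

noncomputable def t757_98 : Tr := (.split (nat_lit 8) (nat_lit 7) (.pd (.cons (nat_lit 1) (nat_lit 6) (nat_lit 0) (nat_lit 0x30770442200) (nat_lit 0xf423ff423ff423fb71ae00000f423f54591b71aea2c2800000b71ae) (.cons (nat_lit 1) (nat_lit 7) (nat_lit 0) (nat_lit 0x30805442200) (nat_lit 0xf423ff423ff423f00000f423fb71ae1f156b71aea2c2800000b71ae) (.cons (nat_lit 1) (nat_lit 8) (nat_lit 0) (nat_lit 0x30065442200) (nat_lit 0xf423ff423f00000f423fb71aea2c2804737b71aea2c2800000b71ae) (.cons (nat_lit 2) (nat_lit 6) (nat_lit 0) (nat_lit 0x30710443000) (nat_lit 0xf423ff423ff423fb71ae00000f423f54591b71ae00000a2c285b8d4) (.cons (nat_lit 2) (nat_lit 7) (nat_lit 0) (nat_lit 0x30805443000) (nat_lit 0xf423ff423ff423f00000f423fb71ae1f156b71ae00000f423f7a11d) .nil))))) (.ex (nat_lit 9) t757_96 (.split (nat_lit 0xb) (nat_lit 0) (.split (nat_lit 0xb) (nat_lit 1) (.split (nat_lit 0xb) (nat_lit 3) (.split (nat_lit 0xb) (nat_lit 4) (.split (nat_lit 0xb) (nat_lit 5) (.split (nat_lit 0xb) (nat_lit 6) (.split (nat_lit 0xb) (nat_lit 7)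 (.split (nat_lit 0xb) (nat_lit 8) (.split (nat_lit 0xb) (nat_lit 0xa) (.split (nat_lit 0xb) (nat_lit 2) (.st (nat_lit 9) (nat_lit 2) (nat_lit 4) (nat_lit 0x455005) (nat_lit 0x100000002000100020001000000000000000000020002) (nat_lit 1) (nat_lit 1) (.st (nat_lit 0xb) (nat_lit 2) (nat_lit 4) (nat_lit 0x455405) (nat_lit 0x200000003000300060004000200000000000000050004) (nat_lit 1) (nat_lit 1) t757_97)) (.sup (nat_lit 0x6000d00160020001a0000000000000000) (nat_lit 0x700030006000000000000000000000006000900030004))) (.non (nat_lit 2) (nat_lit 4) (nat_lit 0x555405) (nat_lit 0x200010003000300060004000200000000000000050004))) (.non (nat_lit 2) (nat_lit 4) (nat_lit 0x454005) (nat_lit 0x100000001000100010000000000000000000000010001))) (.non (nat_lit 2) (nat_lit 4) (nat_lit 0x415004) (nat_lit 0x100000000000100020001000000000000000000010000))) (.non (nat_lit 2) (nat_lit 4) (nat_lit 0x415404) (nat_lit 0x100000000000100020002000100000000000000010000))) (.non (nat_lit 2) (nat_lit 4) (nat_lit 0x445405) (nat_lit 0x100000001000000010001000100000000000000010001)))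 (.non (nat_lit 1) (nat_lit 6) (nat_lit 0x440501) (nat_lit 0x300000002000000000000000300040000000000000001))) (.non (nat_lit 2) (nat_lit 4) (nat_lit 0x455445) (nat_lit 0x200000003000300060004000200000001000000050004))) (.non (nat_lit 2) (nat_lit 4) (nat_lit 0x440005) (nat_lit 0x100000001000000000000000000000000000000010001))) (.non (nat_lit 1) (nat_lit 4) (nat_lit 0x440001) (nat_lit 0x100000001000000000000000000000000000000000001))))) (.non (nat_lit 2) (nat_lit 4) (nat_lit 0x25004) (nat_lit 0x100020001000000000000000000010000)))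

noncomputable def t757_99 : Tr := (.ex (nat_lit 9) (.pd (.cons (nat_lit 3) (nat_lit 7) (nat_lit 0) (nat_lit 0xa0805440100) (nat_lit 0xf423ff423ff423f00000f423fb71ae1f15600000f423f5459106711) .nil) (.leaf (.cons (nat_lit 0x15014) (nat_lit 0x100020001000000000000000200020000) (.cons (nat_lit 0x100054) (nat_lit 0x10000000000000000000000000001000100010000) (.cons (nat_lit 0x5504) (nat_lit 0x20003000400030000000000010000) (.cons (nat_lit 0x4015) (nat_lit 0x10000000000000000000200020001) .nil)))) (.cons (nat_lit 0x1110000011) (nat_lit 0x1000100) (nat_lit 3) (nat_lit 0x4010000023) .nil))) (.split (nat_lit 0xb) (nat_lit 0) (.split (nat_lit 0xb) (nat_lit 1) (.split (nat_lit 0xb) (nat_lit 3) (.split (nat_lit 0xb) (nat_lit 4) (.split (nat_lit 0xb) (nat_lit 5) (.split (nat_lit 0xb) (nat_lit 6) (.split (nat_lit 0xb) (nat_lit 7) (.split (nat_lit 0xb) (nat_lit 8) (.split (nat_lit 0xb) (nat_lit 0xa) (.split (nat_lit 0xb) (nat_lit 2) (.st (nat_lit 9) (nat_lit 2) (nat_lit 4) (nat_lit 0x455005) (nat_lit 0x100000002000100020001000000000000000000020002)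 (nat_lit 1) (nat_lit 1) (.st (nat_lit 0xb) (nat_lit 2) (nat_lit 4) (nat_lit 0x455405) (nat_lit 0x200000003000300060004000200000000000000050004) (nat_lit 1) (nat_lit 1) (.split (nat_lit 0xb) (nat_lit 9) (.leaf (.cons (nat_lit 0x15014) (nat_lit 0x100020001000000000000000200020000) (.cons (nat_lit 0x100054) (nat_lit 0x10000000000000000000000000001000100010000) (.cons (nat_lit 0x5504) (nat_lit 0x20003000400030000000000010000) (.cons (nat_lit 0x440015) (nat_lit 0x100000002000000000000000000000000000300040003) .nil)))) (.cons (nat_lit 0x101111100011) (nat_lit 0x10100) (nat_lit 0xe) (nat_lit 0x706102300045) (.cons (nat_lit 0x101111000011) (nat_lit 0x100100) (nat_lit 0xa) (nat_lit 0x605201000034) .nil))) (.non (nat_lit 2) (nat_lit 4) (nat_lit 0x855005) (nat_lit 0x100000002000100020001000000000000000000020002))))) (.sup (nat_lit 0x40007000b0010000d0000000000000000) (nat_lit 0x300030002000000000000000000000004000400010002))) (.non (nat_lit 1) (nat_lit 4) (nat_lit 0xa80050) (nat_lit 0x200030001000000000000000000000004000200000000)))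 (.non (nat_lit 2) (nat_lit 4) (nat_lit 0x454005) (nat_lit 0x100000001000100010000000000000000000000010001))) (.non (nat_lit 2) (nat_lit 4) (nat_lit 0x415004) (nat_lit 0x100000000000100020001000000000000000000010000))) (.non (nat_lit 2) (nat_lit 4) (nat_lit 0x415404) (nat_lit 0x100000000000100020002000100000000000000010000))) (.non (nat_lit 2) (nat_lit 4) (nat_lit 0x445405) (nat_lit 0x100000001000000010001000100000000000000010001))) (.non (nat_lit 1) (nat_lit 6) (nat_lit 0x440501) (nat_lit 0x300000002000000000000000300040000000000000001))) (.non (nat_lit 1) (nat_lit 4) (nat_lit 0x600050) (nat_lit 0x100010000000000000000000000000002000100000000))) (.non (nat_lit 2) (nat_lit 4) (nat_lit 0x440005) (nat_lit 0x100000001000000000000000000000000000000010001))) (.non (nat_lit 1) (nat_lit 4) (nat_lit 0x440001) (nat_lit 0x100000001000000000000000000000000000000000001))))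

noncomputable def t757_100 : Tr := (.ex (nat_lit 4) (.split (nat_lit 0xa) (nat_lit 3) (.split (nat_lit 9) (nat_lit 0) (.split (nat_lit 7) (nat_lit 1) t757_98 (.non (nat_lit 2) (nat_lit 4) (nat_lit 0x2a004) (nat_lit 0x100020001000000000000000000020000))) (.non (nat_lit 2) (nat_lit 4) (nat_lit 0x95005) (nat_lit 0x1000100020001000000000000000000020002))) (.split (nat_lit 0xa) (nat_lit 3) (.split (nat_lit 9) (nat_lit 0) (.split (nat_lit 7) (nat_lit 1) (.split (nat_lit 8) (nat_lit 7) (.pd (.cons (nat_lit 1) (nat_lit 6) (nat_lit 0) (nat_lit 0x30770442200) (nat_lit 0xf423ff423ff423fb71ae00000f423f545917a11e7a11c00000b71ae) (.cons (nat_lit 1) (nat_lit 7) (nat_lit 0) (nat_lit 0x30805442200) (nat_lit 0xf423ff423ff423f00000f423fb71ae1f1567a11e7a11c00000b71ae) (.cons (nat_lit 1) (nat_lit 8) (nat_lit 0) (nat_lit 0x30065442200) (nat_lit 0xf423ff423f00000f423fb71aea2c28047377a11e7a11c00000b71ae) (.cons (nat_lit 2) (nat_lit 6) (nat_lit 0) (nat_lit 0x30710443000) (nat_lit 0xf423ff423ff423fb71ae00000f423f545917a11e00000a2c285b8d4)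 (.cons (nat_lit 2) (nat_lit 7) (nat_lit 0) (nat_lit 0x30805443000) (nat_lit 0xf423ff423ff423f00000f423fb71ae1f1567a11e00000f423f7a11d) .nil))))) t757_99) (.non (nat_lit 2) (nat_lit 4) (nat_lit 0x25004) (nat_lit 0x100020001000000000000000000010000))) (.non (nat_lit 2) (nat_lit 4) (nat_lit 0x2a004) (nat_lit 0x100020001000000000000000000020000))) (.non (nat_lit 2) (nat_lit 4) (nat_lit 0x95005) (nat_lit 0x1000100020001000000000000000000020002))) (.split (nat_lit 0xa) (nat_lit 3) (.split (nat_lit 9) (nat_lit 0) (.split (nat_lit 8) (nat_lit 7) (.split (nat_lit 7) (nat_lit 1) (.sup (nat_lit 0x6000c00160020001a0000000000000000) (nat_lit 0xc000100000000000000000000000f000b00040002)) (.non (nat_lit 2) (nat_lit 4) (nat_lit 0x2a004) (nat_lit 0x100020001000000000000000000020000))) (.non (nat_lit 2) (nat_lit 4) (nat_lit 0x25004) (nat_lit 0x100020001000000000000000000010000))) (.non (nat_lit 2) (nat_lit 4) (nat_lit 0x95005) (nat_lit 0x1000100020001000000000000000000020002))) (.non (nat_lit 1) (nat_lit 4) (nat_lit 0x300050)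 (nat_lit 0x10000000000000000000000000002000100000000))))) (.split (nat_lit 0xb) (nat_lit 0) (.split (nat_lit 0xb) (nat_lit 1) (.split (nat_lit 0xb) (nat_lit 2) (.split (nat_lit 0xb) (nat_lit 5) (.split (nat_lit 0xb) (nat_lit 6) (.split (nat_lit 0xb) (nat_lit 7) (.split (nat_lit 0xb) (nat_lit 8) (.split (nat_lit 0xb) (nat_lit 3) (.split (nat_lit 0xb) (nat_lit 9) (.split (nat_lit 0xb) (nat_lit 0xa) (.unj (nat_lit 0x55) (nat_lit 0x1000200020001) (nat_lit 0x401500) (nat_lit 0x100000000000000000001000200020000000000000000)) (.unj (nat_lit 0x55) (nat_lit 0x1000200020001) (nat_lit 0x401500) (nat_lit 0x100000000000000000001000200020000000000000000))) (.split (nat_lit 0xb) (nat_lit 0xa) (.unj (nat_lit 0x55) (nat_lit 0x1000200020001) (nat_lit 0x401500) (nat_lit 0x100000000000000000001000200020000000000000000)) (.non (nat_lit 2) (nat_lit 4) (nat_lit 0x555405) (nat_lit 0x200010003000300060004000200000000000000050004)))) (.split (nat_lit 0xb) (nat_lit 9) (.split (nat_lit 0xb) (nat_lit 0xa) (.sup (nat_lit 0x10000000000000000000400050003)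 (nat_lit 0x300000000000000000001000500050000000000000000)) (.non (nat_lit 1) (nat_lit 4) (nat_lit 0x500040) (nat_lit 0x100010000000000000000000000000001000000000000))) (.non (nat_lit 1) (nat_lit 5) (nat_lit 0x540150) (nat_lit 0x200010001000000000000000000010002000100000000)))) (.non (nat_lit 2) (nat_lit 4) (nat_lit 0x415405) (nat_lit 0x100000000000200030002000100000000000000020001))) (.non (nat_lit 2) (nat_lit 4) (nat_lit 0x415004) (nat_lit 0x100000000000100020001000000000000000000010000))) (.non (nat_lit 2) (nat_lit 4) (nat_lit 0x415404) (nat_lit 0x100000000000100020002000100000000000000010000))) (.non (nat_lit 2) (nat_lit 4) (nat_lit 0x455405) (nat_lit 0x100000001000200040003000200000000000000030002))) (.star (nat_lit 0xb) (nat_lit 2) (nat_lit 4))) (.star (nat_lit 0xb) (nat_lit 1) (nat_lit 4))) (.non (nat_lit 2) (nat_lit 4) (nat_lit 0x455005) (nat_lit 0x100000001000100020001000000000000000000020002))))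

noncomputable def t757_101 : Tr := (.split (nat_lit 0xc) (nat_lit 0) (.split (nat_lit 0xc) (nat_lit 1) (.split (nat_lit 0xc) (nat_lit 3) (.split (nat_lit 0xc) (nat_lit 4) (.split (nat_lit 0xc) (nat_lit 5) (.split (nat_lit 0xc) (nat_lit 6) (.split (nat_lit 0xc) (nat_lit 7) (.split (nat_lit 0xc) (nat_lit 8) (.split (nat_lit 0xc) (nat_lit 0xa) (.split (nat_lit 0xc) (nat_lit 0xb) (.split (nat_lit 0xc) (nat_lit 2) (.st (nat_lit 9) (nat_lit 2) (nat_lit 4) (nat_lit 0x1055005) (nat_lit 0x1000000000002000100020001000000000000000000020002) (nat_lit 1) (nat_lit 1) (.st (nat_lit 0xc) (nat_lit 2) (nat_lit 4) (nat_lit 0x1055405) (nat_lit 0x2000000000003000300060004000200000000000000050004) (nat_lit 1) (nat_lit 1) (.split (nat_lit 0xc) (nat_lit 9) (.leaf (.cons (nat_lit 0x15014) (nat_lit 0x100020001000000000000000200020000) (.cons (nat_lit 0x500054) (nat_lit 0x100010000000000000000000000000002000200020000) (.cons (nat_lit 0x5504) (nat_lit 0x20003000400030000000000010000) (.cons (nat_lit 0x1040015) (nat_lit 0x1000000000002000000000000000000000000000300040003)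 .nil)))) (.cons (nat_lit 0x1001111100011) (nat_lit 0x10100) (nat_lit 0xe) (nat_lit 0x7006102300045) (.cons (nat_lit 0x1001111000011) (nat_lit 0x100100) (nat_lit 0xa) (nat_lit 0x6005201000034) .nil))) (.non (nat_lit 2) (nat_lit 4) (nat_lit 0x2055005) (nat_lit 0x1000000000002000100020001000000000000000000020002))))) (.sup (nat_lit 0x40007000b0010000d0000000000000000) (nat_lit 0x3000200020002000000000000000000000004000400010002))) (.non (nat_lit 2) (nat_lit 4) (nat_lit 0x1455405) (nat_lit 0x2000100000003000300060004000200000000000000050004))) (.non (nat_lit 2) (nat_lit 4) (nat_lit 0x1155405) (nat_lit 0x2000000010003000300060004000200000000000000050004))) (.non (nat_lit 2) (nat_lit 4) (nat_lit 0x1054005) (nat_lit 0x1000000000001000100010000000000000000000000010001))) (.non (nat_lit 2) (nat_lit 4) (nat_lit 0x1015004) (nat_lit 0x1000000000000000100020001000000000000000000010000))) (.non (nat_lit 2) (nat_lit 4) (nat_lit 0x1015404) (nat_lit 0x1000000000000000100020002000100000000000000010000))) (.non (nat_lit 2)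 (nat_lit 4) (nat_lit 0x1045405) (nat_lit 0x1000000000001000000010001000100000000000000010001))) (.non (nat_lit 1) (nat_lit 6) (nat_lit 0x1040501) (nat_lit 0x3000000000002000000000000000300040000000000000001))) (.non (nat_lit 1) (nat_lit 4) (nat_lit 0x1500050) (nat_lit 0x1000100010000000000000000000000000002000100000000))) (.non (nat_lit 2) (nat_lit 4) (nat_lit 0x1040005) (nat_lit 0x1000000000001000000000000000000000000000000010001))) (.non (nat_lit 1) (nat_lit 4) (nat_lit 0x1040001) (nat_lit 0x1000000000001000000000000000000000000000000000001)))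

noncomputable def t757_102 : Tr := (.ex (nat_lit 4) (.split (nat_lit 0xa) (nat_lit 3) (.split (nat_lit 0xb) (nat_lit 3) (.split (nat_lit 9) (nat_lit 0) (.split (nat_lit 7) (nat_lit 1) (.split (nat_lit 8) (nat_lit 7) (.pd (.cons (nat_lit 1) (nat_lit 6) (nat_lit 0) (nat_lit 0x330770442200) (nat_lit 0xf423ff423ff423ff423fb71ae00000f423f545917a11d7a11b00000b71ae) (.cons (nat_lit 1) (nat_lit 7) (nat_lit 0) (nat_lit 0x330805442200) (nat_lit 0xf423ff423ff423ff423f00000f423fb71ae1f1567a11d7a11b00000b71ae) (.cons (nat_lit 1) (nat_lit 8) (nat_lit 0) (nat_lit 0x330065442200) (nat_lit 0xf423ff423ff423f00000f423fb71aea2c28047377a11d7a11b00000b71ae) (.cons (nat_lit 2) (nat_lit 6) (nat_lit 0) (nat_lit 0x330710443000) (nat_lit 0xf423ff423ff423ff423fb71ae00000f423f545917a11d00000a2c285b8d4) (.cons (nat_lit 2) (nat_lit 7) (nat_lit 0) (nat_lit 0x330805443000) (nat_lit 0xf423ff423ff423ff423f00000f423fb71ae1f1567a11d00000f423f7a11d) .nil))))) (.ex (nat_lit 9) (.pd (.cons (nat_lit 3) (nat_lit 7) (nat_lit 0) (nat_lit 0xba0805440100)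 (nat_lit 0xf423ff423ff423ff423f00000f423fb71ae1f15600000f423f5459106711) .nil) (.leaf (.cons (nat_lit 0x15014) (nat_lit 0x100020001000000000000000200020000) (.cons (nat_lit 0x500054) (nat_lit 0x100010000000000000000000000000002000200020000) (.cons (nat_lit 0x5504) (nat_lit 0x20003000400030000000000010000) (.cons (nat_lit 0x4015) (nat_lit 0x10000000000000000000200020001) .nil)))) (.cons (nat_lit 0x1110000011) (nat_lit 0x1000100) (nat_lit 3) (nat_lit 0x4010000023) .nil))) t757_101)) (.non (nat_lit 2) (nat_lit 4) (nat_lit 0x25004) (nat_lit 0x100020001000000000000000000010000))) (.non (nat_lit 2) (nat_lit 4) (nat_lit 0x2a004) (nat_lit 0x100020001000000000000000000020000))) (.non (nat_lit 2) (nat_lit 4) (nat_lit 0x95005) (nat_lit 0x1000100020001000000000000000000020002))) (.non (nat_lit 1) (nat_lit 4) (nat_lit 0x900050) (nat_lit 0x100010000000000000000000000000002000100000000))) (.non (nat_lit 1) (nat_lit 4) (nat_lit 0x600050) (nat_lit 0x100010000000000000000000000000002000100000000))) (.split (nat_lit 0xc) (nat_lit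 0) (.split (nat_lit 0xc) (nat_lit 1) (.split (nat_lit 0xc) (nat_lit 2) (.split (nat_lit 0xc) (nat_lit 3) (.split (nat_lit 0xc) (nat_lit 5) (.split (nat_lit 0xc) (nat_lit 6) (.split (nat_lit 0xc) (nat_lit 7) (.split (nat_lit 0xc) (nat_lit 8) (.split (nat_lit 0xc) (nat_lit 9) (.split (nat_lit 0xc) (nat_lit 0xa) (.split (nat_lit 0xc) (nat_lit 0xb) (.unj (nat_lit 0x55) (nat_lit 0x1000200020001) (nat_lit 0x1001500) (nat_lit 0x1000000000000000000000001000200020000000000000000)) (.unj (nat_lit 0x55) (nat_lit 0x1000200020001) (nat_lit 0x1001500) (nat_lit 0x1000000000000000000000001000200020000000000000000))) (.split (nat_lit 0xc) (nat_lit 0xb) (.unj (nat_lit 0x55) (nat_lit 0x1000200020001) (nat_lit 0x1001500) (nat_lit 0x1000000000000000000000001000200020000000000000000)) (.non (nat_lit 1) (nat_lit 4) (nat_lit 0x1500040) (nat_lit 0x1000100010000000000000000000000000001000000000000)))) (.split (nat_lit 0xc) (nat_lit 0xa) (.split (nat_lit 0xc) (nat_lit 0xb) (.unj (nat_lit 0x55) (nat_lit 0x1000200020001) (nat_lit 0x1001500)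 (nat_lit 0x1000000000000000000000001000200020000000000000000)) (.non (nat_lit 1) (nat_lit 5) (nat_lit 0x1540150) (nat_lit 0x2000200010001000000000000000000010002000100000000))) (.non (nat_lit 1) (nat_lit 5) (nat_lit 0x1540150) (nat_lit 0x2000100020001000000000000000000010002000100000000)))) (.non (nat_lit 2) (nat_lit 4) (nat_lit 0x1015405) (nat_lit 0x1000000000000000200030002000100000000000000020001))) (.non (nat_lit 2) (nat_lit 4) (nat_lit 0x1015004) (nat_lit 0x1000000000000000100020001000000000000000000010000))) (.non (nat_lit 2) (nat_lit 4) (nat_lit 0x1015404) (nat_lit 0x1000000000000000100020002000100000000000000010000))) (.non (nat_lit 2) (nat_lit 4) (nat_lit 0x1055405) (nat_lit 0x1000000000001000200040003000200000000000000030002))) (.non (nat_lit 1) (nat_lit 4) (nat_lit 0x1500050) (nat_lit 0x1000100010000000000000000000000000002000100000000))) (.star (nat_lit 0xc) (nat_lit 2) (nat_lit 4))) (.star (nat_lit 0xc) (nat_lit 1) (nat_lit 4))) (.non (nat_lit 2) (nat_lit 4) (nat_lit 0x1055005) (nat_lit 0x1000000000001000100020001000000000000000000020002))))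

noncomputable def t757_103 : Tr := (.split (nat_lit 0xa) (nat_lit 2) (.split (nat_lit 0xa) (nat_lit 5) (.split (nat_lit 0xa) (nat_lit 6) (.split (nat_lit 0xa) (nat_lit 7) (.split (nat_lit 0xa) (nat_lit 8) (.split (nat_lit 0xa) (nat_lit 9) (.split (nat_lit 0xa) (nat_lit 4) (.ex (nat_lit 3) t757_100 (.split (nat_lit 0xb) (nat_lit 0) (.split (nat_lit 0xb) (nat_lit 1) (.split (nat_lit 0xb) (nat_lit 2) (.split (nat_lit 0xb) (nat_lit 5) (.split (nat_lit 0xb) (nat_lit 6) (.split (nat_lit 0xb) (nat_lit 7) (.split (nat_lit 0xb) (nat_lit 8) (.split (nat_lit 0xb) (nat_lit 9) (.split (nat_lit 0xb) (nat_lit 0xa) (.split (nat_lit 0xb) (nat_lit 4) (.st (nat_lit 3) (nat_lit 1) (nat_lit 4) (nat_lit 0x500050) (nat_lit 0x100010000000000000000000000000002000100000000) (nat_lit 1) (nat_lit 1) t757_102) (.sup (nat_lit 0x10000000000000000000400050003) (nat_lit 0x300000000000000000001000500050000000000000000))) (.non (nat_lit 1) (nat_lit 4) (nat_lit 0x500040) (nat_lit 0x100010000000000000000000000000001000000000000))) (.non (nat_lit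 2) (nat_lit 4) (nat_lit 0x455445) (nat_lit 0x200000003000300060004000200000001000000050004))) (.non (nat_lit 2) (nat_lit 4) (nat_lit 0x415405) (nat_lit 0x100000000000200030002000100000000000000020001))) (.non (nat_lit 1) (nat_lit 4) (nat_lit 0x515050) (nat_lit 0x200010000000100020001000000000002000100000000))) (.non (nat_lit 1) (nat_lit 4) (nat_lit 0x505450) (nat_lit 0x200010000000000010002000100000002000100000000))) (.non (nat_lit 2) (nat_lit 4) (nat_lit 0x455405) (nat_lit 0x100000001000200040003000200000000000000030002))) (.non (nat_lit 1) (nat_lit 4) (nat_lit 0x400050) (nat_lit 0x100000000000000000000000000000001000100000000))) (.non (nat_lit 2) (nat_lit 4) (nat_lit 0x415005) (nat_lit 0x100000000000100020001000000000000000000020001))) (.non (nat_lit 2) (nat_lit 4) (nat_lit 0x455005) (nat_lit 0x100000001000100020001000000000000000000020002)))) (.sup (nat_lit 0x10000000000000000000400050003) (nat_lit 0x30000000000000001000500050000000000000000))) (.non (nat_lit 2) (nat_lit 4) (nat_lit 0x155445) (nat_lit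 0x20003000300060004000200000001000000050004))) (.non (nat_lit 2) (nat_lit 4) (nat_lit 0x115405) (nat_lit 0x10000000200030002000100000000000000020001))) (.non (nat_lit 2) (nat_lit 4) (nat_lit 0x115004) (nat_lit 0x10000000100020001000000000000000000010000))) (.non (nat_lit 2) (nat_lit 4) (nat_lit 0x115404) (nat_lit 0x10000000100020002000100000000000000010000))) (.non (nat_lit 2) (nat_lit 4) (nat_lit 0x155405) (nat_lit 0x10001000200040003000200000000000000030002))) (.non (nat_lit 1) (nat_lit 4) (nat_lit 0x100050) (nat_lit 0x10000000000000000000000000001000100000000)))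

noncomputable def t757_104 : Tr := (.ex (nat_lit 9) (.leaf (.cons (nat_lit 0x104014) (nat_lit 0x10000000000010000000000000000000200020000) (.cons (nat_lit 0x100054) (nat_lit 0x10000000000000000000000000001000200020000) (.cons (nat_lit 0x5504) (nat_lit 0x20003000400030000000000010000) (.cons (nat_lit 0x100015) (nat_lit 0x10000000000000000000000000000000200020001) .nil)))) (.cons (nat_lit 0x1110000011) (nat_lit 0x1000100) (nat_lit 3) (nat_lit 0x4010000023) .nil)) (.split (nat_lit 0xb) (nat_lit 0) (.split (nat_lit 0xb) (nat_lit 1) (.split (nat_lit 0xb) (nat_lit 3) (.split (nat_lit 0xb) (nat_lit 4) (.split (nat_lit 0xb) (nat_lit 5) (.split (nat_lit 0xb) (nat_lit 6) (.split (nat_lit 0xb) (nat_lit 7) (.split (nat_lit 0xb) (nat_lit 8) (.split (nat_lit 0xb) (nat_lit 0xa) (.split (nat_lit 0xb) (nat_lit 2) (.st (nat_lit 9) (nat_lit 2) (nat_lit 4) (nat_lit 0x455005) (nat_lit 0x100000002000100020001000000000000000000020002) (nat_lit 1) (nat_lit 1) (.st (nat_lit 0xb) (nat_lit 2) (nat_lit 4) (nat_lit 0x455405) (nat_lit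 0x200000003000300060004000200000000000000050004) (nat_lit 1) (nat_lit 1) (.split (nat_lit 0xb) (nat_lit 9) (.leaf (.cons (nat_lit 0x104014) (nat_lit 0x10000000000010000000000000000000200020000) (.cons (nat_lit 0x100054) (nat_lit 0x10000000000000000000000000001000200020000) (.cons (nat_lit 0x5504) (nat_lit 0x20003000400030000000000010000) (.cons (nat_lit 0x100015) (nat_lit 0x10000000000000000000000000000000200020001) .nil)))) (.cons (nat_lit 0x101111100011) (nat_lit 0x10100) (nat_lit 0xe) (nat_lit 0x706102300045) (.cons (nat_lit 0x101111000011) (nat_lit 0x100100) (nat_lit 0xa) (nat_lit 0x605201000034) .nil))) (.non (nat_lit 2) (nat_lit 4) (nat_lit 0x855005) (nat_lit 0x100000002000100020001000000000000000000020002))))) (.sup (nat_lit 0x40007000b0010000d0000000000000000) (nat_lit 0x300020002000000000000000000000002000400010002))) (.non (nat_lit 2) (nat_lit 4) (nat_lit 0x555405) (nat_lit 0x200010003000300060004000200000000000000050004))) (.non (nat_lit 2) (nat_lit 4) (nat_lit 0x454005) (nat_lit 0x100000001000100010000000000000000000000010001)))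 (.non (nat_lit 2) (nat_lit 4) (nat_lit 0x415004) (nat_lit 0x100000000000100020001000000000000000000010000))) (.non (nat_lit 2) (nat_lit 4) (nat_lit 0x415404) (nat_lit 0x100000000000100020002000100000000000000010000))) (.non (nat_lit 2) (nat_lit 4) (nat_lit 0x445405) (nat_lit 0x100000001000000010001000100000000000000010001))) (.non (nat_lit 1) (nat_lit 6) (nat_lit 0x440501) (nat_lit 0x300000002000000000000000300040000000000000001))) (.non (nat_lit 2) (nat_lit 4) (nat_lit 0x455445) (nat_lit 0x200000003000300060004000200000001000000050004))) (.non (nat_lit 2) (nat_lit 4) (nat_lit 0x440005) (nat_lit 0x100000001000000000000000000000000000000010001))) (.non (nat_lit 1) (nat_lit 4) (nat_lit 0x440001) (nat_lit 0x100000001000000000000000000000000000000000001))))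

noncomputable def t757_105 : Tr := (.ex (nat_lit 4) (.split (nat_lit 0xa) (nat_lit 2) (.split (nat_lit 9) (nat_lit 0) (.split (nat_lit 7) (nat_lit 1) (.split (nat_lit 8) (nat_lit 7) (.pd (.cons (nat_lit 1) (nat_lit 6) (nat_lit 0) (nat_lit 0x20770442200) (nat_lit 0xf423ff423ff423fb71ae00000f423f54591f423f7a11d00000b71ae) (.cons (nat_lit 1) (nat_lit 7) (nat_lit 0) (nat_lit 0x20805442200) (nat_lit 0xf423ff423ff423f00000f423fb71ae1f156f423f7a11d00000b71ae) (.cons (nat_lit 1) (nat_lit 8) (nat_lit 0) (nat_lit 0x20065442200) (nat_lit 0xf423ff423f00000f423fb71aea2c2804737f423f7a11d00000b71ae) (.cons (nat_lit 2) (nat_lit 6) (nat_lit 0) (nat_lit 0xa0710443000) (nat_lit 0xf423ff423ff423fb71ae00000f423f54591f423f00000a2c285b8d4) (.cons (nat_lit 2) (nat_lit 7) (nat_lit 0) (nat_lit 0xa0805443000) (nat_lit 0xf423ff423ff423f00000f423fb71ae1f156f423f00000f423f7a11d) .nil))))) t757_104) (.non (nat_lit 2) (nat_lit 4) (nat_lit 0x25004) (nat_lit 0x100020001000000000000000000010000))) (.non (nat_lit 2) (nat_lit 4) (nat_lit 0x2a004)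 (nat_lit 0x100020001000000000000000000020000))) (.non (nat_lit 2) (nat_lit 4) (nat_lit 0x95005) (nat_lit 0x1000100020001000000000000000000020002))) (.split (nat_lit 0xa) (nat_lit 2) (.split (nat_lit 9) (nat_lit 0) (.split (nat_lit 8) (nat_lit 7) (.split (nat_lit 7) (nat_lit 1) (.sup (nat_lit 0x6000d00160020001a0000000000000000) (nat_lit 0x70001000000000000000000000005000b00030002)) (.non (nat_lit 2) (nat_lit 4) (nat_lit 0x2a004) (nat_lit 0x100020001000000000000000000020000))) (.non (nat_lit 2) (nat_lit 4) (nat_lit 0x25004) (nat_lit 0x100020001000000000000000000010000))) (.non (nat_lit 2) (nat_lit 4) (nat_lit 0x95005) (nat_lit 0x1000100020001000000000000000000020002))) (.split (nat_lit 0xa) (nat_lit 2) (.split (nat_lit 9) (nat_lit 0) (.split (nat_lit 8) (nat_lit 7) (.split (nat_lit 7) (nat_lit 1) (.sup (nat_lit 0x40007000b0010000d0000000000000000) (nat_lit 0x40000000000000000000000000002000500010000)) (.non (nat_lit 2) (nat_lit 4) (nat_lit 0x2a004) (nat_lit 0x100020001000000000000000000020000))) (.non (nat_lit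 2) (nat_lit 4) (nat_lit 0x25004) (nat_lit 0x100020001000000000000000000010000))) (.non (nat_lit 2) (nat_lit 4) (nat_lit 0x95005) (nat_lit 0x1000100020001000000000000000000020002))) (.non (nat_lit 1) (nat_lit 4) (nat_lit 0x300050) (nat_lit 0x10000000000000000000000000001000200000000))))) (.split (nat_lit 0xb) (nat_lit 0) (.split (nat_lit 0xb) (nat_lit 1) (.split (nat_lit 0xb) (nat_lit 2) (.split (nat_lit 0xb) (nat_lit 5) (.split (nat_lit 0xb) (nat_lit 6) (.split (nat_lit 0xb) (nat_lit 7) (.split (nat_lit 0xb) (nat_lit 8) (.split (nat_lit 0xb) (nat_lit 3) (.split (nat_lit 0xb) (nat_lit 9) (.split (nat_lit 0xb) (nat_lit 0xa) (.unj (nat_lit 0x55) (nat_lit 0x1000200020001) (nat_lit 0x401500) (nat_lit 0x100000000000000000001000200020000000000000000)) (.unj (nat_lit 0x55) (nat_lit 0x1000200020001) (nat_lit 0x401500) (nat_lit 0x100000000000000000001000200020000000000000000))) (.split (nat_lit 0xb) (nat_lit 0xa) (.unj (nat_lit 0x55) (nat_lit 0x1000200020001) (nat_lit 0x401500) (nat_lit 0x100000000000000000001000200020000000000000000))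 (.non (nat_lit 2) (nat_lit 4) (nat_lit 0x555405) (nat_lit 0x200010003000300060004000200000000000000050004)))) (.split (nat_lit 0xb) (nat_lit 9) (.split (nat_lit 0xb) (nat_lit 0xa) (.unj (nat_lit 0x100015) (nat_lit 0x10000000000000000000000000000000200020001) (nat_lit 0x401500) (nat_lit 0x100000000000000000001000200020000000000000000)) (.non (nat_lit 1) (nat_lit 4) (nat_lit 0x500050) (nat_lit 0x100010000000000000000000000000001000100000000))) (.non (nat_lit 2) (nat_lit 4) (nat_lit 0x455445) (nat_lit 0x200000003000300060004000200000001000000050004)))) (.non (nat_lit 2) (nat_lit 4) (nat_lit 0x415405) (nat_lit 0x100000000000200030002000100000000000000020001))) (.non (nat_lit 2) (nat_lit 4) (nat_lit 0x415004) (nat_lit 0x100000000000100020001000000000000000000010000))) (.non (nat_lit 2) (nat_lit 4) (nat_lit 0x415404) (nat_lit 0x100000000000100020002000100000000000000010000))) (.non (nat_lit 2) (nat_lit 4) (nat_lit 0x455405) (nat_lit 0x100000001000200040003000200000000000000030002))) (.star (nat_lit 0xb) (nat_lit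 2) (nat_lit 4))) (.star (nat_lit 0xb) (nat_lit 1) (nat_lit 4))) (.non (nat_lit 2) (nat_lit 4) (nat_lit 0x455005) (nat_lit 0x100000001000100020001000000000000000000020002))))

noncomputable def t757_106 : Tr := (.split (nat_lit 9) (nat_lit 4) (.st (nat_lit 0) (nat_lit 2) (nat_lit 4) (nat_lit 0x55005) (nat_lit 0x1000100020001000000000000000000020002) (nat_lit 1) (nat_lit 1) (.st (nat_lit 5) (nat_lit 2) (nat_lit 4) (nat_lit 0x55405) (nat_lit 0x1000200040003000200000000000000030002) (nat_lit 1) (nat_lit 1) (.ex (nat_lit 2) (.ex (nat_lit 3) t757_95 (.split (nat_lit 0xa) (nat_lit 0) (.split (nat_lit 0xa) (nat_lit 1) t757_103 (.non (nat_lit 2) (nat_lit 4) (nat_lit 0x115005) (nat_lit 0x10000000100020001000000000000000000020001))) (.non (nat_lit 2) (nat_lit 4) (nat_lit 0x155005) (nat_lit 0x10001000100020001000000000000000000020002)))) (.split (nat_lit 0xa) (nat_lit 0) (.split (nat_lit 0xa) (nat_lit 1) (.split (nat_lit 0xa) (nat_lit 3) (.split (nat_lit 0xa) (nat_lit 4) (.split (nat_lit 0xa) (nat_lit 5) (.split (nat_lit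 0xa) (nat_lit 6) (.split (nat_lit 0xa) (nat_lit 7) (.split (nat_lit 0xa) (nat_lit 8) (.split (nat_lit 0xa) (nat_lit 9) t757_105 (.split (nat_lit 0xa) (nat_lit 2) (.split (nat_lit 0xa) (nat_lit 9) (.split (nat_lit 9) (nat_lit 0) (.split (nat_lit 8) (nat_lit 7) (.split (nat_lit 7) (nat_lit 1) (.sup (nat_lit 0x6000c00160020001a0000000000000000) (nat_lit 0x80006000000000000000000000005000900040005)) (.non (nat_lit 2) (nat_lit 4) (nat_lit 0x2a004) (nat_lit 0x100020001000000000000000000020000))) (.non (nat_lit 2) (nat_lit 4) (nat_lit 0x25004) (nat_lit 0x100020001000000000000000000010000))) (.non (nat_lit 2) (nat_lit 4) (nat_lit 0x284005) (nat_lit 0x10002000000010000000000000000000000020003))) (.non (nat_lit 1) (nat_lit 4) (nat_lit 0x2400a1) (nat_lit 0x30004000000000000000000000001000200000002))) (.non (nat_lit 1) (nat_lit 4) (nat_lit 0x1400a1) (nat_lit 0x30002000000000000000000000001000200000001)))) (.non (nat_lit 2) (nat_lit 4) (nat_lit 0x115405) (nat_lit 0x10000000200030002000100000000000000020001))) (.non (nat_lit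 2) (nat_lit 4) (nat_lit 0x115004) (nat_lit 0x10000000100020001000000000000000000010000))) (.non (nat_lit 2) (nat_lit 4) (nat_lit 0x115404) (nat_lit 0x10000000100020002000100000000000000010000))) (.star (nat_lit 0xa) (nat_lit 2) (nat_lit 5))) (.star (nat_lit 0xa) (nat_lit 2) (nat_lit 4))) (.non (nat_lit 1) (nat_lit 4) (nat_lit 0x100050) (nat_lit 0x10000000000000000000000000001000100000000))) (.non (nat_lit 2) (nat_lit 4) (nat_lit 0x115005) (nat_lit 0x10000000100020001000000000000000000020001))) (.non (nat_lit 2) (nat_lit 4) (nat_lit 0x155005) (nat_lit 0x10001000100020001000000000000000000020002)))))) (.sup (nat_lit 0x20000000000000005000a00090000) (nat_lit 0x50000000000020009000a0000000000000000)))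

noncomputable def t757_107 : Tr := (.ex (nat_lit 4) (.split (nat_lit 9) (nat_lit 3) (.split (nat_lit 9) (nat_lit 0) (.split (nat_lit 7) (nat_lit 1) (.split (nat_lit 8) (nat_lit 7) (.pd (.cons (nat_lit 0) (nat_lit 7) (nat_lit 0) (nat_lit 0x3805442110) (nat_lit 0xf423ff423f00000f423fb71ae1f156b71aea2c280473700000) (.cons (nat_lit 1) (nat_lit 6) (nat_lit 0) (nat_lit 0x770449300) (nat_lit 0xa2c28f423fb71ae00000f423f54591b71aef423f0000098965) (.cons (nat_lit 1) (nat_lit 7) (nat_lit 0) (nat_lit 0x805449300) (nat_lit 0xa2c28f423f00000f423fb71ae1f156b71aef423f0000098965) (.cons (nat_lit 1) (nat_lit 8) (nat_lit 0) (nat_lit 0x65449300) (nat_lit 0xa2c2800000f423fb71aea2c2804737b71aef423f0000098965) (.cons (nat_lit 2) (nat_lit 6) (nat_lit 0) (nat_lit 0x710449000) (nat_lit 0xb71aef423fb71ae00000f423f54591f423f00000a2c284734e) (.cons (nat_lit 2) (nat_lit 7) (nat_lit 0) (nat_lit 0x805449000) (nat_lit 0xb71aef423f00000f423fb71ae1f156f423f00000f423f65b97) (.cons (nat_lit 3) (nat_lit 7) (nat_lit 0) (nat_lit 0x805440100)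 (nat_lit 0xf423ff423f00000f423fb71ae1f15600000f423f5459106711) .nil))))))) (.leaf (.cons (nat_lit 0x15014) (nat_lit 0x100020001000000000000000200020000) (.cons (nat_lit 0x4054) (nat_lit 0x10000000000000001000200020000) (.cons (nat_lit 0x5504) (nat_lit 0x20003000400030000000000010000) (.cons (nat_lit 0x4015) (nat_lit 0x10000000000000000000200020001) .nil)))) (.cons (nat_lit 0x1111101011) (nat_lit 0x10100) (nat_lit 0xe) (nat_lit 0x6102307045) (.cons (nat_lit 0x1111001011) (nat_lit 0x100100) (nat_lit 0xa) (nat_lit 0x5201006034) .nil)))) (.non (nat_lit 2) (nat_lit 4) (nat_lit 0x25004) (nat_lit 0x100020001000000000000000000010000))) (.non (nat_lit 2) (nat_lit 4) (nat_lit 0x2a004) (nat_lit 0x100020001000000000000000000020000))) (.non (nat_lit 2) (nat_lit 4) (nat_lit 0x95005) (nat_lit 0x1000100020001000000000000000000020002))) (.non (nat_lit 2) (nat_lit 4) (nat_lit 0x55085) (nat_lit 0x2000100020001000000000001000000020002))) (.split (nat_lit 0xa) (nat_lit 0) (.split (nat_lit 0xa) (nat_lit 1) (.split (nat_lit 0xa)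 (nat_lit 2) (.split (nat_lit 0xa) (nat_lit 3) (.split (nat_lit 0xa) (nat_lit 5) (.split (nat_lit 0xa) (nat_lit 6) (.split (nat_lit 0xa) (nat_lit 7) (.split (nat_lit 0xa) (nat_lit 8) (.split (nat_lit 0xa) (nat_lit 9) (.unj (nat_lit 0x55) (nat_lit 0x1000200020001) (nat_lit 0x101500) (nat_lit 0x10000000000000001000200020000000000000000)) (.non (nat_lit 2) (nat_lit 4) (nat_lit 0x155045) (nat_lit 0x10002000100020001000000000001000000020002))) (.non (nat_lit 2) (nat_lit 4) (nat_lit 0x115405) (nat_lit 0x10000000200030002000100000000000000020001))) (.non (nat_lit 2) (nat_lit 4) (nat_lit 0x115004) (nat_lit 0x10000000100020001000000000000000000010000))) (.non (nat_lit 2) (nat_lit 4) (nat_lit 0x115404) (nat_lit 0x10000000100020002000100000000000000010000))) (.non (nat_lit 2) (nat_lit 4) (nat_lit 0x155405) (nat_lit 0x10001000200040003000200000000000000030002))) (.non (nat_lit 2) (nat_lit 4) (nat_lit 0x155445) (nat_lit 0x10003000300060004000200000002000000050004))) (.star (nat_lit 0xa) (nat_lit 2) (nat_lit 4))) (.star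 (nat_lit 0xa) (nat_lit 1) (nat_lit 4))) (.non (nat_lit 2) (nat_lit 4) (nat_lit 0x155005) (nat_lit 0x10001000100020001000000000000000000020002))))

noncomputable def t757_108 : Tr := (.split (nat_lit 0xa) (nat_lit 0) (.split (nat_lit 0xa) (nat_lit 1) (.split (nat_lit 0xa) (nat_lit 3) (.split (nat_lit 0xa) (nat_lit 4) (.split (nat_lit 0xa) (nat_lit 5) (.split (nat_lit 0xa) (nat_lit 6) (.split (nat_lit 0xa) (nat_lit 7) (.split (nat_lit 0xa) (nat_lit 8) (.split (nat_lit 0xa) (nat_lit 9) (.split (nat_lit 0xa) (nat_lit 2) (.split (nat_lit 9) (nat_lit 0) (.split (nat_lit 9) (nat_lit 3) (.split (nat_lit 8) (nat_lit 7) (.split (nat_lit 7) (nat_lit 1) (.sup (nat_lit 0x6000c00160020001a0000000000000000) (nat_lit 0x50006000000000000000000000008000900040005)) (.non (nat_lit 2) (nat_lit 4) (nat_lit 0x2a004) (nat_lit 0x100020001000000000000000000020000))) (.non (nat_lit 2) (nat_lit 4) (nat_lit 0x25004) (nat_lit 0x100020001000000000000000000010000))) (.non (nat_lit 1) (nat_lit 4) (nat_lit 0x2400a1) (nat_lit 0x10004000000000000000000000003000200000002)))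 (.non (nat_lit 2) (nat_lit 4) (nat_lit 0x95005) (nat_lit 0x1000100020001000000000000000000020002))) (.split (nat_lit 0xa) (nat_lit 2) (.split (nat_lit 9) (nat_lit 0) (.split (nat_lit 9) (nat_lit 3) (.split (nat_lit 8) (nat_lit 7) (.split (nat_lit 7) (nat_lit 1) (.sup (nat_lit 0x40007000b0010000d0000000000000000) (nat_lit 0x30002000000000000000000000003000400010002)) (.non (nat_lit 2) (nat_lit 4) (nat_lit 0x2a004) (nat_lit 0x100020001000000000000000000020000))) (.non (nat_lit 2) (nat_lit 4) (nat_lit 0x25004) (nat_lit 0x100020001000000000000000000010000))) (.non (nat_lit 1) (nat_lit 4) (nat_lit 0x280050) (nat_lit 0x10001000000000000000000000002000200000000))) (.non (nat_lit 1) (nat_lit 4) (nat_lit 0x1800a1) (nat_lit 0x10001000000000000000000000001000100000001))) (.non (nat_lit 1) (nat_lit 4) (nat_lit 0x140051) (nat_lit 0x30002000000000000000000000003000400000001)))) (.non (nat_lit 1) (nat_lit 4) (nat_lit 0x140050) (nat_lit 0x10001000000000000000000000001000100000000))) (.non (nat_lit 2) (nat_lit 4) (nat_lit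 0x115405) (nat_lit 0x10000000200030002000100000000000000020001))) (.non (nat_lit 1) (nat_lit 4) (nat_lit 0x155451) (nat_lit 0x50002000300060004000200000003000400000001))) (.non (nat_lit 1) (nat_lit 4) (nat_lit 0x155451) (nat_lit 0x50002000200040006000300000003000400000001))) (.star (nat_lit 0xa) (nat_lit 2) (nat_lit 5))) (.star (nat_lit 0xa) (nat_lit 2) (nat_lit 4))) (.non (nat_lit 1) (nat_lit 4) (nat_lit 0x100050) (nat_lit 0x10000000000000000000000000001000100000000))) (.non (nat_lit 2) (nat_lit 4) (nat_lit 0x115005) (nat_lit 0x10000000100020001000000000000000000020001))) (.non (nat_lit 1) (nat_lit 4) (nat_lit 0x140051) (nat_lit 0x10001000000000000000000000001000100000001)))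

noncomputable def t757_109 : Tr := (.split (nat_lit 8) (nat_lit 7) (.pd (.cons (nat_lit 1) (nat_lit 6) (nat_lit 0) (nat_lit 0x770442900) (nat_lit 0xa2c28f423fb71ae00000f423f54591f423fb71ae0000098965) (.cons (nat_lit 1) (nat_lit 7) (nat_lit 0) (nat_lit 0x805442900) (nat_lit 0xa2c28f423f00000f423fb71ae1f156f423fb71ae0000098965) (.cons (nat_lit 1) (nat_lit 8) (nat_lit 0) (nat_lit 0x65442900) (nat_lit 0xa2c2800000f423fb71aea2c2804737f423fb71ae0000098965) (.cons (nat_lit 2) (nat_lit 6) (nat_lit 0) (nat_lit 0x710443000) (nat_lit 0xf423ff423fb71ae00000f423f54591f423f00000a2c285b8d4) (.cons (nat_lit 2) (nat_lit 7) (nat_lit 0) (nat_lit 0x805443000) (nat_lit 0xf423ff423f00000f423fb71ae1f156f423f00000f423f7a11d) .nil))))) (.ex (nat_lit 9) (.leaf (.cons (nat_lit 0x44014) (nat_lit 0x1000000010000000000000000000200020000) (.cons (nat_lit 0x40054) (nat_lit 0x1000000000000000000000001000200020000) (.cons (nat_lit 0x5504) (nat_lit 0x20003000400030000000000010000) (.cons (nat_lit 0x40015) (nat_lit 0x1000000000000000000000000000100010001)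 .nil)))) (.cons (nat_lit 0x1110000011) (nat_lit 0x1000100) (nat_lit 3) (nat_lit 0x4010000023) .nil)) (.split (nat_lit 0xa) (nat_lit 0) (.split (nat_lit 0xa) (nat_lit 1) (.split (nat_lit 0xa) (nat_lit 2) (.split (nat_lit 0xa) (nat_lit 3) (.split (nat_lit 0xa) (nat_lit 4) (.split (nat_lit 0xa) (nat_lit 5) (.split (nat_lit 0xa) (nat_lit 6) (.split (nat_lit 0xa) (nat_lit 7) (.split (nat_lit 0xa) (nat_lit 8) (.sup (nat_lit 0x30007000b0010000d0000000000000000) (nat_lit 0x20004000000000000000000000002000400010003)) (.non (nat_lit 1) (nat_lit 4) (nat_lit 0x155451) (nat_lit 0x50006000400030002000100000002000400000003))) (.non (nat_lit 1) (nat_lit 4) (nat_lit 0x155011) (nat_lit 0x20002000100020001000000000000000100000001))) (.non (nat_lit 1) (nat_lit 4) (nat_lit 0x145411) (nat_lit 0x20002000000010002000100000000000100000001))) (.non (nat_lit 1) (nat_lit 4) (nat_lit 0x155451) (nat_lit 0x50006000100020003000400000002000400000003))) (.non (nat_lit 1) (nat_lit 6) (nat_lit 0x140510) (nat_lit 0x30002000000000000000300040000000100000000)))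 (.non (nat_lit 1) (nat_lit 4) (nat_lit 0x140050) (nat_lit 0x10001000000000000000000000001000100000000))) (.non (nat_lit 1) (nat_lit 4) (nat_lit 0x140010) (nat_lit 0x10001000000000000000000000000000100000000))) (.non (nat_lit 2) (nat_lit 4) (nat_lit 0x140005) (nat_lit 0x10001000000000000000000000000000000010001))) (.non (nat_lit 1) (nat_lit 4) (nat_lit 0x140001) (nat_lit 0x10001000000000000000000000000000000000001))))) (.non (nat_lit 2) (nat_lit 4) (nat_lit 0x25004) (nat_lit 0x100020001000000000000000000010000)))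

noncomputable def t757_110 : Tr := (.split (nat_lit 9) (nat_lit 2) (.split (nat_lit 9) (nat_lit 3) t757_106 (.split (nat_lit 9) (nat_lit 4) (.st (nat_lit 0) (nat_lit 2) (nat_lit 4) (nat_lit 0x55005) (nat_lit 0x1000100020001000000000000000000020002) (nat_lit 1) (nat_lit 1) (.st (nat_lit 3) (nat_lit 2) (nat_lit 4) (nat_lit 0x55445) (nat_lit 0x3000300060004000200000002000000050004) (nat_lit 1) (nat_lit 1) (.st (nat_lit 5) (nat_lit 2) (nat_lit 4) (nat_lit 0x55405) (nat_lit 0x1000200040003000200000000000000030002) (nat_lit 1) (nat_lit 1) (.st (nat_lit 9) (nat_lit 2) (nat_lit 4) (nat_lit 0x55045) (nat_lit 0x2000100020001000000000001000000020002) (nat_lit 1) (nat_lit 1) (.ex (nat_lit 2) t757_107 t757_108))))) (.non (nat_lit 2) (nat_lit 5) (nat_lit 0x55145) (nat_lit 0x2000100020001000000010001000000020002)))) (.split (nat_lit 9) (nat_lit 3) (.split (nat_lit 9) (nat_lit 4) (.st (nat_lit 5) (nat_lit 2) (nat_lit 4) (nat_lit 0x55405) (nat_lit 0x1000200040003000200000000000000030002) (nat_lit 1) (nat_lit 1) (.st (nat_lit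 0) (nat_lit 2) (nat_lit 4) (nat_lit 0x55005) (nat_lit 0x1000100020001000000000000000000020002) (nat_lit 1) (nat_lit 1) (.ex (nat_lit 4) (.split (nat_lit 9) (nat_lit 0) (.split (nat_lit 9) (nat_lit 2) (.split (nat_lit 7) (nat_lit 1) t757_109 (.non (nat_lit 2) (nat_lit 4) (nat_lit 0x2a004) (nat_lit 0x100020001000000000000000000020000))) (.sup (nat_lit 0x7000f00170020001a0000000000000000) (nat_lit 0x7000000000000000000000004000800010004))) (.non (nat_lit 2) (nat_lit 4) (nat_lit 0x95005) (nat_lit 0x1000100020001000000000000000000020002))) (.split (nat_lit 0xa) (nat_lit 0) (.split (nat_lit 0xa) (nat_lit 1) (.split (nat_lit 0xa) (nat_lit 2) (.split (nat_lit 0xa) (nat_lit 5) (.split (nat_lit 0xa) (nat_lit 6) (.split (nat_lit 0xa) (nat_lit 7) (.split (nat_lit 0xa) (nat_lit 8) (.split (nat_lit 0xa) (nat_lit 3) (.split (nat_lit 0xa) (nat_lit 9) (.unj (nat_lit 0x55) (nat_lit 0x1000200020001) (nat_lit 0x101500) (nat_lit 0x10000000000000001000200020000000000000000)) (.unj (nat_lit 0x55) (nat_lit 0x1000200020001) (nat_lit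 0x101500) (nat_lit 0x10000000000000001000200020000000000000000))) (.split (nat_lit 0xa) (nat_lit 9) (.unj (nat_lit 0x40015) (nat_lit 0x1000000000000000000000000000100010001) (nat_lit 0x101500) (nat_lit 0x10000000000000001000200020000000000000000)) (.non (nat_lit 1) (nat_lit 4) (nat_lit 0x140050) (nat_lit 0x10001000000000000000000000001000100000000)))) (.non (nat_lit 2) (nat_lit 4) (nat_lit 0x115405) (nat_lit 0x10000000200030002000100000000000000020001))) (.non (nat_lit 2) (nat_lit 4) (nat_lit 0x115004) (nat_lit 0x10000000100020001000000000000000000010000))) (.non (nat_lit 2) (nat_lit 4) (nat_lit 0x115404) (nat_lit 0x10000000100020002000100000000000000010000))) (.non (nat_lit 2) (nat_lit 4) (nat_lit 0x155405) (nat_lit 0x10001000200040003000200000000000000030002))) (.star (nat_lit 0xa) (nat_lit 2) (nat_lit 4))) (.star (nat_lit 0xa) (nat_lit 1) (nat_lit 4))) (.non (nat_lit 2) (nat_lit 4) (nat_lit 0x155005) (nat_lit 0x10001000100020001000000000000000000020002)))))) (.star (nat_lit 9) (nat_lit 2) (nat_lit 4)))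 (.non (nat_lit 1) (nat_lit 4) (nat_lit 0x40050) (nat_lit 0x1000000000000000000000001000100000000))))

noncomputable def t757_111 : Tr := (.ex (nat_lit 4) (.ex (nat_lit 5) (.split (nat_lit 7) (nat_lit 2) (.split (nat_lit 8) (nat_lit 7) (.split (nat_lit 7) (nat_lit 1) (.pd (.cons (nat_lit 0) (nat_lit 7) (nat_lit 0) (nat_lit 0x805442110) (nat_lit 0xf423f00000f423fb71ae1f156f423fb71ae1f15600000) (.cons (nat_lit 1) (nat_lit 6) (nat_lit 0) (nat_lit 0x720442200) (nat_lit 0xf423fb71ae00000f423f54591f423f65b9700000f423f) (.cons (nat_lit 1) (nat_lit 7) (nat_lit 0) (nat_lit 0x805442200) (nat_lit 0xf423f00000f423fb71ae1f156f423fb71ae00000f423f) (.cons (nat_lit 2) (nat_lit 6) (nat_lit 0) (nat_lit 0x710443000) (nat_lit 0xf423fb71ae00000f423f54591f423f00000a2c2898965) (.cons (nat_lit 2) (nat_lit 7) (nat_lit 0) (nat_lit 0x805443000) (nat_lit 0xf423f00000f423fb71ae1f156f423f00000f423fb71ae) (.cons (nat_lit 3) (nat_lit 7) (nat_lit 0) (nat_lit 0x805440100) (nat_lit 0xf423f00000f423fb71ae1f15600000f423f54591437a2) .nil))))))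 (.leaf (.cons (nat_lit 0x4014) (nat_lit 0x10000000000000000000100010000) (.cons (nat_lit 0x5510) (nat_lit 0x20003000400030000000100000000) (.cons (nat_lit 0x5504) (nat_lit 0x20003000400030000000000010000) .nil))) .nil)) (.non (nat_lit 2) (nat_lit 4) (nat_lit 0x2a004) (nat_lit 0x100020001000000000000000000020000))) (.non (nat_lit 1) (nat_lit 4) (nat_lit 0x25010) (nat_lit 0x100020001000000000000000100000000))) (.non (nat_lit 1) (nat_lit 4) (nat_lit 0x2a010) (nat_lit 0x100020001000000000000000200000000))) (.split (nat_lit 9) (nat_lit 0) (.split (nat_lit 9) (nat_lit 1) (.split (nat_lit 9) (nat_lit 2) (.split (nat_lit 9) (nat_lit 3) (.split (nat_lit 9) (nat_lit 6) (.split (nat_lit 9) (nat_lit 7) (.split (nat_lit 9) (nat_lit 8) (.split (nat_lit 9) (nat_lit 4) (.unj (nat_lit 0x55) (nat_lit 0x1000200020001) (nat_lit 0x41500) (nat_lit 0x1000000000001000200020000000000000000)) (.unj (nat_lit 0x4014) (nat_lit 0x10000000000000000000100010000) (nat_lit 0x40500) (nat_lit 0x1000000000000000100010000000000000000))) (.non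 (nat_lit 1) (nat_lit 4) (nat_lit 0x55400) (nat_lit 0x1000100010001000100000000000000000000))) (.non (nat_lit 1) (nat_lit 4) (nat_lit 0x45400) (nat_lit 0x1000000010001000100000000000000000000))) (.non (nat_lit 1) (nat_lit 4) (nat_lit 0x41400) (nat_lit 0x1000000000001000100000000000000000000))) (.non (nat_lit 1) (nat_lit 4) (nat_lit 0x45450) (nat_lit 0x1000000010001000100000001000100000000))) (.star (nat_lit 9) (nat_lit 2) (nat_lit 5))) (.star (nat_lit 9) (nat_lit 1) (nat_lit 5))) (.non (nat_lit 2) (nat_lit 4) (nat_lit 0x45405) (nat_lit 0x1000000010001000100000000000000010001)))) (.split (nat_lit 9) (nat_lit 1) (.split (nat_lit 9) (nat_lit 2) (.split (nat_lit 9) (nat_lit 6) (.split (nat_lit 9) (nat_lit 7) (.split (nat_lit 9) (nat_lit 8) (.split (nat_lit 9) (nat_lit 0) (.split (nat_lit 9) (nat_lit 3) (.split (nat_lit 9) (nat_lit 5) (.unj (nat_lit 0x55) (nat_lit 0x1000200020001) (nat_lit 0x41500) (nat_lit 0x1000000000001000200020000000000000000)) (.unj (nat_lit 0x4014) (nat_lit 0x10000000000000000000100010000)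 (nat_lit 0x40500) (nat_lit 0x1000000000000000100010000000000000000))) (.split (nat_lit 9) (nat_lit 5) (.sup (nat_lit 0x20000000000000000000500050000) (nat_lit 0x3000000000001000500050000000000000000)) (.non (nat_lit 1) (nat_lit 4) (nat_lit 0x45450) (nat_lit 0x1000000010001000100000001000100000000)))) (.split (nat_lit 9) (nat_lit 3) (.split (nat_lit 9) (nat_lit 5) (.sup (nat_lit 0x20000000000000000000500050000) (nat_lit 0x3000000000001000500050000000000000000)) (.non (nat_lit 2) (nat_lit 4) (nat_lit 0x45405) (nat_lit 0x1000000010001000100000000000000010001))) (.non (nat_lit 1) (nat_lit 5) (nat_lit 0x55151) (nat_lit 0x2000100020001000000010002000200000001)))) (.non (nat_lit 1) (nat_lit 4) (nat_lit 0x55450) (nat_lit 0x1000200030002000100000001000200000000))) (.non (nat_lit 1) (nat_lit 4) (nat_lit 0x55010) (nat_lit 0x1000100020001000000000000000100000000))) (.non (nat_lit 1) (nat_lit 4) (nat_lit 0x55410) (nat_lit 0x1000100020002000100000000000100000000))) (.star (nat_lit 9) (nat_lit 2) (nat_lit 4))) (.star (nat_lit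 9) (nat_lit 1) (nat_lit 4))))

noncomputable def t757_112 : Tr := (.pd (.cons (nat_lit 1) (nat_lit 6) (nat_lit 0) (nat_lit 0x3720442200) (nat_lit 0xf423ff423fb71ae00000f423f54591b71ae5161100000f423f) (.cons (nat_lit 1) (nat_lit 7) (nat_lit 0) (nat_lit 0x3805442200) (nat_lit 0xf423ff423f00000f423fb71ae1f156b71aea2c2800000f423f) (.cons (nat_lit 2) (nat_lit 6) (nat_lit 0) (nat_lit 0x3710443000) (nat_lit 0xf423ff423fb71ae00000f423f54591b71ae00000a2c2898965) (.cons (nat_lit 2) (nat_lit 7) (nat_lit 0) (nat_lit 0x3805443000) (nat_lit 0xf423ff423f00000f423fb71ae1f156b71ae00000f423fb71ae) (.cons (nat_lit 3) (nat_lit 7) (nat_lit 0) (nat_lit 0x9805440100) (nat_lit 0xf423ff423f00000f423fb71ae1f15600000f423f54591437a2) .nil))))) (.ex (nat_lit 9) (.pd (.cons (nat_lit 0) (nat_lit 7) (nat_lit 0) (nat_lit 0x3805442110) (nat_lit 0xf423ff423f00000f423fb71ae1f156b71aea2c280473700000) .nil) (.leaf (.cons (nat_lit 0x4014) (nat_lit 0x10000000000000000000100010000) (.cons (nat_lit 0x5510) (nat_lit 0x20003000400030000000100000000)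 (.cons (nat_lit 0x5504) (nat_lit 0x20003000400030000000000010000) .nil))) .nil)) (.split (nat_lit 0xa) (nat_lit 0) (.split (nat_lit 0xa) (nat_lit 1) (.split (nat_lit 0xa) (nat_lit 2) (.split (nat_lit 0xa) (nat_lit 3) (.split (nat_lit 0xa) (nat_lit 4) (.split (nat_lit 0xa) (nat_lit 5) (.split (nat_lit 0xa) (nat_lit 6) (.split (nat_lit 0xa) (nat_lit 7) (.split (nat_lit 0xa) (nat_lit 8) (.leaf (.cons (nat_lit 0x4014) (nat_lit 0x10000000000000000000100010000) (.cons (nat_lit 0x140054) (nat_lit 0x10002000000000000000000000003000400030000) (.cons (nat_lit 0x5510) (nat_lit 0x20003000400030000000100000000) (.cons (nat_lit 0x5504) (nat_lit 0x20003000400030000000000010000) .nil)))) .nil) (.non (nat_lit 1) (nat_lit 4) (nat_lit 0x154050) (nat_lit 0x10001000100010000000000000001000100000000))) (.non (nat_lit 1) (nat_lit 4) (nat_lit 0x115010) (nat_lit 0x10000000100020001000000000000000100000000))) (.non (nat_lit 1) (nat_lit 4) (nat_lit 0x115410) (nat_lit 0x10000000100020002000100000000000100000000))) (.non (nat_lit 1)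 (nat_lit 4) (nat_lit 0x145450) (nat_lit 0x10001000000010001000100000001000100000000))) (.non (nat_lit 1) (nat_lit 6) (nat_lit 0x140540) (nat_lit 0x30002000000000000000300040001000000000000))) (.non (nat_lit 1) (nat_lit 4) (nat_lit 0x140040) (nat_lit 0x10001000000000000000000000001000000000000))) (.non (nat_lit 1) (nat_lit 4) (nat_lit 0x140050) (nat_lit 0x10001000000000000000000000001000100000000))) (.non (nat_lit 2) (nat_lit 4) (nat_lit 0x115005) (nat_lit 0x10000000100020001000000000000000000020001))) (.non (nat_lit 1) (nat_lit 4) (nat_lit 0x155451) (nat_lit 0x20003000300060004000200000004000500000001)))))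

noncomputable def t757_113 : Tr := (.ex (nat_lit 4) (.split (nat_lit 9) (nat_lit 3) (.split (nat_lit 9) (nat_lit 0) (.split (nat_lit 7) (nat_lit 2) (.split (nat_lit 8) (nat_lit 7) (.split (nat_lit 7) (nat_lit 1) (.pd (.cons (nat_lit 0) (nat_lit 7) (nat_lit 0) (nat_lit 0x3805442110) (nat_lit 0xf423ff423f00000f423fb71ae1f156b71aea2c280473700000) (.cons (nat_lit 1) (nat_lit 6) (nat_lit 0) (nat_lit 0x720449300) (nat_lit 0x927bdf423fb71ae00000f423f5459198965a2c28000008e6a2) (.cons (nat_lit 1) (nat_lit 7) (nat_lit 0) (nat_lit 0x805449300) (nat_lit 0xa2c28f423f00000f423fb71ae1f156b71aef423f0000098965) (.cons (nat_lit 2) (nat_lit 6) (nat_lit 0) (nat_lit 0x710449000) (nat_lit 0xb71aef423fb71ae00000f423f54591f423f00000a2c284734e) (.cons (nat_lit 2) (nat_lit 7) (nat_lit 0) (nat_lit 0x805449000) (nat_lit 0xb71aef423f00000f423fb71ae1f156f423f00000f423f65b97) (.cons (nat_lit 3) (nat_lit 7) (nat_lit 0) (nat_lit 0x805440100) (nat_lit 0xf423ff423f00000f423fb71ae1f15600000f423f5459106711) .nil)))))) (.leaf (.cons (nat_lit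 0x4014) (nat_lit 0x10000000000000000000100010000) (.cons (nat_lit 0x5510) (nat_lit 0x20003000400030000000100000000) (.cons (nat_lit 0x5504) (nat_lit 0x20003000400030000000000010000) .nil))) .nil)) (.non (nat_lit 2) (nat_lit 4) (nat_lit 0x2a004) (nat_lit 0x100020001000000000000000000020000))) (.non (nat_lit 1) (nat_lit 4) (nat_lit 0x25010) (nat_lit 0x100020001000000000000000100000000))) (.non (nat_lit 1) (nat_lit 4) (nat_lit 0x2a010) (nat_lit 0x100020001000000000000000200000000))) (.non (nat_lit 1) (nat_lit 4) (nat_lit 0xaa0a1) (nat_lit 0x2000100020001000000000002000200000002))) (.non (nat_lit 1) (nat_lit 4) (nat_lit 0x95050) (nat_lit 0x1000100020001000000000002000200000000))) (.split (nat_lit 0xa) (nat_lit 0) (.split (nat_lit 0xa) (nat_lit 1) (.split (nat_lit 0xa) (nat_lit 2) (.split (nat_lit 0xa) (nat_lit 3) (.split (nat_lit 0xa) (nat_lit 5) (.split (nat_lit 0xa) (nat_lit 6) (.split (nat_lit 0xa) (nat_lit 7) (.split (nat_lit 0xa) (nat_lit 8) (.split (nat_lit 0xa) (nat_lit 9) (.unj (nat_lit 0x55) (nat_lit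 0x1000200020001) (nat_lit 0x101500) (nat_lit 0x10000000000000001000200020000000000000000)) (.non (nat_lit 1) (nat_lit 4) (nat_lit 0x155051) (nat_lit 0x10002000100020001000000000002000200000001))) (.non (nat_lit 1) (nat_lit 4) (nat_lit 0x115450) (nat_lit 0x10000000200030002000100000001000200000000))) (.non (nat_lit 1) (nat_lit 4) (nat_lit 0x115010) (nat_lit 0x10000000100020001000000000000000100000000))) (.non (nat_lit 1) (nat_lit 4) (nat_lit 0x115410) (nat_lit 0x10000000100020002000100000000000100000000))) (.non (nat_lit 1) (nat_lit 4) (nat_lit 0x155450) (nat_lit 0x10001000200040003000200000002000300000000))) (.non (nat_lit 1) (nat_lit 4) (nat_lit 0x155050) (nat_lit 0x10001000100020001000000000002000200000000))) (.star (nat_lit 0xa) (nat_lit 2) (nat_lit 4))) (.star (nat_lit 0xa) (nat_lit 1) (nat_lit 4))) (.non (nat_lit 1) (nat_lit 4) (nat_lit 0x155451) (nat_lit 0x10003000300060004000200000004000500000002))))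

noncomputable def t757_114 : Tr := (.split (nat_lit 9) (nat_lit 0) (.split (nat_lit 9) (nat_lit 4) (.st (nat_lit 3) (nat_lit 1) (nat_lit 4) (nat_lit 0x55050) (nat_lit 0x1000100020001000000000002000200000000) (nat_lit 1) (nat_lit 1) (.st (nat_lit 5) (nat_lit 1) (nat_lit 4) (nat_lit 0x55450) (nat_lit 0x1000200040003000200000002000300000000) (nat_lit 1) (nat_lit 1) (.ex (nat_lit 4) (.split (nat_lit 7) (nat_lit 2) (.split (nat_lit 9) (nat_lit 3) (.split (nat_lit 8) (nat_lit 7) (.split (nat_lit 7) (nat_lit 1) t757_112 (.non (nat_lit 2) (nat_lit 4) (nat_lit 0x2a004) (nat_lit 0x100020001000000000000000000020000))) (.non (nat_lit 1) (nat_lit 4) (nat_lit 0x25010) (nat_lit 0x100020001000000000000000100000000))) (.non (nat_lit 1) (nat_lit 4) (nat_lit 0x95050) (nat_lit 0x1000100020001000000000002000200000000))) (.non (nat_lit 1) (nat_lit 4) (nat_lit 0x2a010) (nat_lit 0x100020001000000000000000200000000))) (.split (nat_lit 0xa) (nat_lit 1) (.split (nat_lit 0xa) (nat_lit 2) (.split (nat_lit 0xa) (nat_lit 3) (.split (nat_lit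 0xa) (nat_lit 5) (.split (nat_lit 0xa) (nat_lit 6) (.split (nat_lit 0xa) (nat_lit 7) (.split (nat_lit 0xa) (nat_lit 8) (.split (nat_lit 0xa) (nat_lit 0) (.split (nat_lit 0xa) (nat_lit 9) (.unj (nat_lit 0x55) (nat_lit 0x1000200020001) (nat_lit 0x101500) (nat_lit 0x10000000000000001000200020000000000000000)) (.unj (nat_lit 0x55) (nat_lit 0x1000200020001) (nat_lit 0x101500) (nat_lit 0x10000000000000001000200020000000000000000))) (.split (nat_lit 0xa) (nat_lit 9) (.sup (nat_lit 0x20000000000000000000500050000) (nat_lit 0x30000000000000001000500050000000000000000)) (.non (nat_lit 1) (nat_lit 4) (nat_lit 0x155451) (nat_lit 0x20003000300060004000200000004000500000001)))) (.non (nat_lit 1) (nat_lit 4) (nat_lit 0x115450) (nat_lit 0x10000000200030002000100000001000200000000))) (.non (nat_lit 1) (nat_lit 4) (nat_lit 0x115010) (nat_lit 0x10000000100020001000000000000000100000000))) (.non (nat_lit 1) (nat_lit 4) (nat_lit 0x115410) (nat_lit 0x10000000100020002000100000000000100000000))) (.non (nat_lit 1) (nat_lit 4) (nat_lit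 0x155450) (nat_lit 0x10001000200040003000200000002000300000000))) (.non (nat_lit 1) (nat_lit 4) (nat_lit 0x155050) (nat_lit 0x10001000100020001000000000002000200000000))) (.star (nat_lit 0xa) (nat_lit 2) (nat_lit 4))) (.star (nat_lit 0xa) (nat_lit 1) (nat_lit 4)))))) (.sup (nat_lit 0x20000000000000000000500050000) (nat_lit 0x3000000000001000500050000000000000000))) (.split (nat_lit 9) (nat_lit 4) (.st (nat_lit 3) (nat_lit 1) (nat_lit 4) (nat_lit 0x55050) (nat_lit 0x1000100020001000000000002000200000000) (nat_lit 1) (nat_lit 1) (.st (nat_lit 5) (nat_lit 1) (nat_lit 4) (nat_lit 0x55450) (nat_lit 0x1000200040003000200000002000300000000) (nat_lit 1) (nat_lit 1) (.st (nat_lit 9) (nat_lit 1) (nat_lit 4) (nat_lit 0x55051) (nat_lit 0x2000100020001000000000002000200000001) (nat_lit 1) (nat_lit 1) t757_113))) (.non (nat_lit 1) (nat_lit 5) (nat_lit 0x55151) (nat_lit 0x2000100020001000000010002000200000001))))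

noncomputable def t757_115 : Tr := (.pd (.cons (nat_lit 0) (nat_lit 7) (nat_lit 0) (nat_lit 0x9805442110) (nat_lit 0xf423ff423f00000f423fb71ae1f156f423fb71ae1f15600000) (.cons (nat_lit 1) (nat_lit 6) (nat_lit 0) (nat_lit 0x720442200) (nat_lit 0xf423ff423fb71ae00000f423f54591f423f65b9700000b71ae) (.cons (nat_lit 1) (nat_lit 7) (nat_lit 0) (nat_lit 0x805442200) (nat_lit 0xf423ff423f00000f423fb71ae1f156f423fb71ae00000b71ae) (.cons (nat_lit 2) (nat_lit 6) (nat_lit 0) (nat_lit 0x710443000) (nat_lit 0xf423ff423fb71ae00000f423f54591f423f00000a2c285b8d4) (.cons (nat_lit 2) (nat_lit 7) (nat_lit 0) (nat_lit 0x805443000) (nat_lit 0xf423ff423f00000f423fb71ae1f156f423f00000f423f7a11d) .nil))))) (.ex (nat_lit 9) (.pd (.cons (nat_lit 3) (nat_lit 7) (nat_lit 0) (nat_lit 0x805440100) (nat_lit 0xf423ff423f00000f423fb71ae1f15600000f423f5459106711) .nil) (.leaf (.cons (nat_lit 0x4014) (nat_lit 0x10000000000000000000100010000) (.cons (nat_lit 0x5510) (nat_lit 0x20003000400030000000100000000) (.cons (nat_lit 0x5504) (nat_lit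 0x20003000400030000000000010000) .nil))) .nil)) (.split (nat_lit 0xa) (nat_lit 0) (.split (nat_lit 0xa) (nat_lit 1) (.split (nat_lit 0xa) (nat_lit 2) (.split (nat_lit 0xa) (nat_lit 3) (.split (nat_lit 0xa) (nat_lit 4) (.split (nat_lit 0xa) (nat_lit 5) (.split (nat_lit 0xa) (nat_lit 6) (.split (nat_lit 0xa) (nat_lit 7) (.split (nat_lit 0xa) (nat_lit 8) (.leaf (.cons (nat_lit 0x4014) (nat_lit 0x10000000000000000000100010000) (.cons (nat_lit 0x5510) (nat_lit 0x20003000400030000000100000000) (.cons (nat_lit 0x5504) (nat_lit 0x20003000400030000000000010000) (.cons (nat_lit 0x140015) (nat_lit 0x10002000000000000000000000000000300040003) .nil)))) .nil) (.non (nat_lit 1) (nat_lit 4) (nat_lit 0x115450) (nat_lit 0x10000000200030002000100000001000200000000))) (.non (nat_lit 1) (nat_lit 4) (nat_lit 0x115010) (nat_lit 0x10000000100020001000000000000000100000000))) (.non (nat_lit 1) (nat_lit 4) (nat_lit 0x115410) (nat_lit 0x10000000100020002000100000000000100000000))) (.non (nat_lit 1) (nat_lit 4) (nat_lit 0x155451) (nat_lit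 0x30002000300060005000400000002000400000001))) (.non (nat_lit 0) (nat_lit 7) (nat_lit 0x101500) (nat_lit 0x10000000000000001000200020000000000000000))) (.non (nat_lit 1) (nat_lit 4) (nat_lit 0x155451) (nat_lit 0x30002000300060004000200000004000500000001))) (.non (nat_lit 1) (nat_lit 4) (nat_lit 0x115050) (nat_lit 0x10000000100020001000000000001000200000000))) (.non (nat_lit 2) (nat_lit 4) (nat_lit 0x140005) (nat_lit 0x10001000000000000000000000000000000010001))) (.non (nat_lit 1) (nat_lit 4) (nat_lit 0x140001) (nat_lit 0x10001000000000000000000000000000000000001)))))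

noncomputable def t757_116 : Tr := (.ex (nat_lit 0xa) (.pd (.cons (nat_lit 0) (nat_lit 7) (nat_lit 0x101000000000) (nat_lit 0x93b805442110) (nat_lit 0x1f423f00001f423f00000f423fb71ae1f156b71aea2c280473700000) .nil) (.leaf (.cons (nat_lit 0x4014) (nat_lit 0x10000000000000000000100010000) (.cons (nat_lit 0x5510) (nat_lit 0x20003000400030000000100000000) (.cons (nat_lit 0x5504) (nat_lit 0x20003000400030000000000010000) (.cons (nat_lit 0x440015) (nat_lit 0x100000002000000000000000000000000000300040003) .nil)))) .nil)) (.split (nat_lit 0xc) (nat_lit 0) (.split (nat_lit 0xc) (nat_lit 1) (.split (nat_lit 0xc) (nat_lit 2) (.split (nat_lit 0xc) (nat_lit 3) (.split (nat_lit 0xc) (nat_lit 4) (.split (nat_lit 0xc) (nat_lit 5) (.split (nat_lit 0xc) (nat_lit 6) (.split (nat_lit 0xc) (nat_lit 7) (.split (nat_lit 0xc) (nat_lit 8) (.split (nat_lit 0xc) (nat_lit 9) (.split (nat_lit 0xc) (nat_lit 0xb) (.leaf (.cons (nat_lit 0x4014) (nat_lit 0x10000000000000000000100010000) (.cons (nat_lit 0x1100054) (nat_lit 0x1000000020000000000000000000000000003000400030000)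 (.cons (nat_lit 0x5510) (nat_lit 0x20003000400030000000100000000) (.cons (nat_lit 0x5504) (nat_lit 0x20003000400030000000000010000) (.cons (nat_lit 0x440015) (nat_lit 0x100000002000000000000000000000000000300040003) .nil))))) .nil) (.non (nat_lit 1) (nat_lit 4) (nat_lit 0x1515450) (nat_lit 0x2000100030000000300060004000200000004000500000000))) (.non (nat_lit 1) (nat_lit 4) (nat_lit 0x1155450) (nat_lit 0x2000000030001000300060004000200000004000500000000))) (.non (nat_lit 1) (nat_lit 4) (nat_lit 0x1114050) (nat_lit 0x1000000010000000100010000000000000001000100000000))) (.non (nat_lit 1) (nat_lit 4) (nat_lit 0x1015010) (nat_lit 0x1000000000000000100020001000000000000000100000000))) (.non (nat_lit 1) (nat_lit 4) (nat_lit 0x1015410) (nat_lit 0x1000000000000000100020002000100000000000100000000))) (.non (nat_lit 1) (nat_lit 4) (nat_lit 0x1105450) (nat_lit 0x1000000010000000000010001000100000001000100000000))) (.non (nat_lit 1) (nat_lit 6) (nat_lit 0x1100540) (nat_lit 0x3000000020000000000000000000300040001000000000000)))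 (.non (nat_lit 1) (nat_lit 4) (nat_lit 0x1100040) (nat_lit 0x1000000010000000000000000000000000001000000000000))) (.non (nat_lit 1) (nat_lit 4) (nat_lit 0x1100050) (nat_lit 0x1000000010000000000000000000000000001000100000000))) (.non (nat_lit 2) (nat_lit 4) (nat_lit 0x1154005) (nat_lit 0x2000000010001000100020000000000000000000000030002))) (.non (nat_lit 1) (nat_lit 4) (nat_lit 0x1115451) (nat_lit 0x2000000030000000300060004000200000004000500000001))))

noncomputable def t757_117 : Tr := (.ex (nat_lit 9) (.pd (.cons (nat_lit 3) (nat_lit 7) (nat_lit 0) (nat_lit 0xa0805440100) (nat_lit 0xf423ff423ff423f00000f423fb71ae1f15600000f423f5459106711) .nil) (.ex (nat_lit 0xa) (.pd (.cons (nat_lit 0) (nat_lit 7) (nat_lit 0) (nat_lit 0x39805442110) (nat_lit 0xf423ff423ff423f00000f423fb71ae1f156b71aea2c280473700000) .nil) (.leaf (.cons (nat_lit 0x4014) (nat_lit 0x10000000000000000000100010000) (.cons (nat_lit 0x5510) (nat_lit 0x20003000400030000000100000000) (.cons (nat_lit 0x5504) (nat_lit 0x20003000400030000000000010000)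 .nil))) .nil)) (.split (nat_lit 0xb) (nat_lit 0) (.split (nat_lit 0xb) (nat_lit 1) (.split (nat_lit 0xb) (nat_lit 2) (.split (nat_lit 0xb) (nat_lit 3) (.split (nat_lit 0xb) (nat_lit 4) (.split (nat_lit 0xb) (nat_lit 5) (.split (nat_lit 0xb) (nat_lit 6) (.split (nat_lit 0xb) (nat_lit 7) (.split (nat_lit 0xb) (nat_lit 8) (.split (nat_lit 0xb) (nat_lit 9) (.leaf (.cons (nat_lit 0x4014) (nat_lit 0x10000000000000000000100010000) (.cons (nat_lit 0x500054) (nat_lit 0x100020000000000000000000000000003000400030000) (.cons (nat_lit 0x5510) (nat_lit 0x20003000400030000000100000000) (.cons (nat_lit 0x5504) (nat_lit 0x20003000400030000000000010000) .nil)))) .nil) (.non (nat_lit 1) (nat_lit 4) (nat_lit 0x555450) (nat_lit 0x200030001000300060004000200000004000500000000))) (.non (nat_lit 1) (nat_lit 4) (nat_lit 0x514050) (nat_lit 0x100010000000100010000000000000001000100000000))) (.non (nat_lit 1) (nat_lit 4) (nat_lit 0x415010) (nat_lit 0x100000000000100020001000000000000000100000000))) (.non (nat_lit 1) (nat_lit 4) (nat_lit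 0x415410) (nat_lit 0x100000000000100020002000100000000000100000000))) (.non (nat_lit 1) (nat_lit 4) (nat_lit 0x505450) (nat_lit 0x100010000000000010001000100000001000100000000))) (.non (nat_lit 1) (nat_lit 6) (nat_lit 0x500540) (nat_lit 0x300020000000000000000000300040001000000000000))) (.non (nat_lit 1) (nat_lit 4) (nat_lit 0x500040) (nat_lit 0x100010000000000000000000000000001000000000000))) (.non (nat_lit 1) (nat_lit 4) (nat_lit 0x500050) (nat_lit 0x100010000000000000000000000000001000100000000))) (.non (nat_lit 2) (nat_lit 4) (nat_lit 0x554005) (nat_lit 0x200010001000100020000000000000000000000030002))) (.non (nat_lit 1) (nat_lit 4) (nat_lit 0x515451) (nat_lit 0x200030000000300060004000200000004000500000001))))) (.split (nat_lit 0xb) (nat_lit 0) (.split (nat_lit 0xb) (nat_lit 1) (.split (nat_lit 0xb) (nat_lit 2) (.split (nat_lit 0xb) (nat_lit 3) (.split (nat_lit 0xb) (nat_lit 4) (.split (nat_lit 0xb) (nat_lit 5) (.split (nat_lit 0xb) (nat_lit 6) (.split (nat_lit 0xb) (nat_lit 7) (.split (nat_lit 0xb)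 (nat_lit 8) (.split (nat_lit 0xb) (nat_lit 0xa) t757_116 (.non (nat_lit 1) (nat_lit 4) (nat_lit 0x555450) (nat_lit 0x200030001000300060004000200000004000500000000))) (.non (nat_lit 1) (nat_lit 4) (nat_lit 0x555050) (nat_lit 0x200010001000300040002000000000002000300000000))) (.non (nat_lit 1) (nat_lit 4) (nat_lit 0x415010) (nat_lit 0x100000000000100020001000000000000000100000000))) (.non (nat_lit 1) (nat_lit 4) (nat_lit 0x415410) (nat_lit 0x100000000000100020002000100000000000100000000))) (.non (nat_lit 1) (nat_lit 4) (nat_lit 0x515450) (nat_lit 0x100010000000200040003000200000002000300000000))) (.non (nat_lit 1) (nat_lit 6) (nat_lit 0x440501) (nat_lit 0x300000002000000000000000300040000000000000001))) (.non (nat_lit 1) (nat_lit 4) (nat_lit 0x515050) (nat_lit 0x100010000000100020001000000000002000200000000))) (.non (nat_lit 1) (nat_lit 4) (nat_lit 0x554050) (nat_lit 0x200010001000100020000000000000002000300000000))) (.non (nat_lit 2) (nat_lit 4) (nat_lit 0x440005) (nat_lit 0x100000001000000000000000000000000000000010001)))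 (.non (nat_lit 1) (nat_lit 4) (nat_lit 0x440001) (nat_lit 0x100000001000000000000000000000000000000000001))))

noncomputable def t757_118 : Tr := (.ex (nat_lit 4) (.split (nat_lit 7) (nat_lit 2) (.split (nat_lit 0xa) (nat_lit 3) (.split (nat_lit 8) (nat_lit 7) (.split (nat_lit 9) (nat_lit 0) (.split (nat_lit 7) (nat_lit 1) (.pd (.cons (nat_lit 1) (nat_lit 6) (nat_lit 0) (nat_lit 0x30720442200) (nat_lit 0xf423ff423ff423fb71ae00000f423f54591b71ae5161100000b71ae) (.cons (nat_lit 1) (nat_lit 7) (nat_lit 0) (nat_lit 0x30805442200) (nat_lit 0xf423ff423ff423f00000f423fb71ae1f156b71aea2c2800000b71ae) (.cons (nat_lit 2) (nat_lit 6) (nat_lit 0) (nat_lit 0x30710443000) (nat_lit 0xf423ff423ff423fb71ae00000f423f54591b71ae00000a2c285b8d4) (.cons (nat_lit 2) (nat_lit 7) (nat_lit 0) (nat_lit 0x30805443000) (nat_lit 0xf423ff423ff423f00000f423fb71ae1f156b71ae00000f423f7a11d) .nil)))) t757_117) (.non (nat_lit 2) (nat_lit 4) (nat_lit 0x2a004) (nat_lit 0x100020001000000000000000000020000))) (.non (nat_lit 2) (nat_lit 4) (nat_lit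 0x95005) (nat_lit 0x1000100020001000000000000000000020002))) (.non (nat_lit 1) (nat_lit 4) (nat_lit 0x25010) (nat_lit 0x100020001000000000000000100000000))) (.non (nat_lit 1) (nat_lit 4) (nat_lit 0x215050) (nat_lit 0x10000000100020001000000000002000200000000))) (.non (nat_lit 1) (nat_lit 4) (nat_lit 0x2a010) (nat_lit 0x100020001000000000000000200000000))) (.split (nat_lit 0xb) (nat_lit 0) (.split (nat_lit 0xb) (nat_lit 1) (.split (nat_lit 0xb) (nat_lit 2) (.split (nat_lit 0xb) (nat_lit 3) (.split (nat_lit 0xb) (nat_lit 5) (.split (nat_lit 0xb) (nat_lit 6) (.split (nat_lit 0xb) (nat_lit 7) (.split (nat_lit 0xb) (nat_lit 8) (.split (nat_lit 0xb) (nat_lit 9) (.split (nat_lit 0xb) (nat_lit 0xa) (.unj (nat_lit 0x55) (nat_lit 0x1000200020001) (nat_lit 0x401500) (nat_lit 0x100000000000000000001000200020000000000000000)) (.unj (nat_lit 0x55) (nat_lit 0x1000200020001) (nat_lit 0x401500) (nat_lit 0x100000000000000000001000200020000000000000000))) (.split (nat_lit 0xb) (nat_lit 0xa) (.unj (nat_lit 0x55) (nat_lit 0x1000200020001)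 (nat_lit 0x401500) (nat_lit 0x100000000000000000001000200020000000000000000)) (.non (nat_lit 1) (nat_lit 4) (nat_lit 0x555450) (nat_lit 0x200030001000300060004000200000004000500000000)))) (.non (nat_lit 1) (nat_lit 4) (nat_lit 0x415450) (nat_lit 0x100000000000200030002000100000001000200000000))) (.non (nat_lit 1) (nat_lit 4) (nat_lit 0x415010) (nat_lit 0x100000000000100020001000000000000000100000000))) (.non (nat_lit 1) (nat_lit 4) (nat_lit 0x415410) (nat_lit 0x100000000000100020002000100000000000100000000))) (.non (nat_lit 1) (nat_lit 4) (nat_lit 0x515450) (nat_lit 0x100010000000200040003000200000002000300000000))) (.non (nat_lit 1) (nat_lit 4) (nat_lit 0x515050) (nat_lit 0x100010000000100020001000000000002000200000000))) (.star (nat_lit 0xb) (nat_lit 2) (nat_lit 4))) (.star (nat_lit 0xb) (nat_lit 1) (nat_lit 4))) (.non (nat_lit 2) (nat_lit 4) (nat_lit 0x455005) (nat_lit 0x100000001000100020001000000000000000000020002))))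

noncomputable def t757_119 : Tr := (.ex (nat_lit 3) (.ex (nat_lit 4) (.split (nat_lit 7) (nat_lit 2) (.split (nat_lit 8) (nat_lit 7) (.split (nat_lit 9) (nat_lit 0) (.split (nat_lit 7) (nat_lit 1) t757_115 (.non (nat_lit 2) (nat_lit 4) (nat_lit 0x2a004) (nat_lit 0x100020001000000000000000000020000))) (.non (nat_lit 2) (nat_lit 4) (nat_lit 0x95005) (nat_lit 0x1000100020001000000000000000000020002))) (.non (nat_lit 1) (nat_lit 4) (nat_lit 0x25010) (nat_lit 0x100020001000000000000000100000000))) (.non (nat_lit 1) (nat_lit 4) (nat_lit 0x2a010) (nat_lit 0x100020001000000000000000200000000))) (.split (nat_lit 0xa) (nat_lit 0) (.split (nat_lit 0xa) (nat_lit 1) (.split (nat_lit 0xa) (nat_lit 2) (.split (nat_lit 0xa) (nat_lit 5) (.split (nat_lit 0xa) (nat_lit 6) (.split (nat_lit 0xa) (nat_lit 7) (.split (nat_lit 0xa) (nat_lit 8) (.split (nat_lit 0xa) (nat_lit 3) (.split (nat_lit 0xa) (nat_lit 9) (.unj (nat_lit 0x55) (nat_lit 0x1000200020001) (nat_lit 0x101500) (nat_lit 0x10000000000000001000200020000000000000000))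 (.unj (nat_lit 0x55) (nat_lit 0x1000200020001) (nat_lit 0x101500) (nat_lit 0x10000000000000001000200020000000000000000))) (.split (nat_lit 0xa) (nat_lit 9) (.sup (nat_lit 0x20000000000000000000500050000) (nat_lit 0x30000000000000001000500050000000000000000)) (.non (nat_lit 1) (nat_lit 4) (nat_lit 0x155451) (nat_lit 0x30002000300060004000200000004000500000001)))) (.non (nat_lit 1) (nat_lit 4) (nat_lit 0x115450) (nat_lit 0x10000000200030002000100000001000200000000))) (.non (nat_lit 1) (nat_lit 4) (nat_lit 0x115010) (nat_lit 0x10000000100020001000000000000000100000000))) (.non (nat_lit 1) (nat_lit 4) (nat_lit 0x115410) (nat_lit 0x10000000100020002000100000000000100000000))) (.non (nat_lit 2) (nat_lit 4) (nat_lit 0x155405) (nat_lit 0x10001000200040003000200000000000000030002))) (.star (nat_lit 0xa) (nat_lit 2) (nat_lit 4))) (.star (nat_lit 0xa) (nat_lit 1) (nat_lit 4))) (.non (nat_lit 2) (nat_lit 4) (nat_lit 0x155005) (nat_lit 0x10001000100020001000000000000000000020002)))) (.split (nat_lit 0xa) (nat_lit 0)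 (.split (nat_lit 0xa) (nat_lit 1) (.split (nat_lit 0xa) (nat_lit 2) (.split (nat_lit 0xa) (nat_lit 5) (.split (nat_lit 0xa) (nat_lit 6) (.split (nat_lit 0xa) (nat_lit 7) (.split (nat_lit 0xa) (nat_lit 8) (.split (nat_lit 0xa) (nat_lit 9) (.split (nat_lit 0xa) (nat_lit 4) (.st (nat_lit 3) (nat_lit 1) (nat_lit 4) (nat_lit 0x115050) (nat_lit 0x10000000100020001000000000002000200000000) (nat_lit 1) (nat_lit 1) t757_118) (.sup (nat_lit 0x20000000000000000000500050000) (nat_lit 0x30000000000000001000500050000000000000000))) (.non (nat_lit 1) (nat_lit 4) (nat_lit 0x155451) (nat_lit 0x30002000300060004000200000004000500000001))) (.non (nat_lit 1) (nat_lit 4) (nat_lit 0x114050) (nat_lit 0x10000000100010000000000000001000100000000))) (.non (nat_lit 1) (nat_lit 4) (nat_lit 0x115010) (nat_lit 0x10000000100020001000000000000000100000000))) (.non (nat_lit 1) (nat_lit 4) (nat_lit 0x115410) (nat_lit 0x10000000100020002000100000000000100000000))) (.non (nat_lit 1) (nat_lit 4) (nat_lit 0x105450) (nat_lit 0x10000000000010001000100000001000100000000)))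 (.non (nat_lit 1) (nat_lit 4) (nat_lit 0x100050) (nat_lit 0x10000000000000000000000000001000100000000))) (.non (nat_lit 2) (nat_lit 4) (nat_lit 0x115005) (nat_lit 0x10000000100020001000000000000000000020001))) (.non (nat_lit 1) (nat_lit 4) (nat_lit 0x155451) (nat_lit 0x30001000300060004000200000004000500000002))))

noncomputable def t757_120 : Tr := (.ex (nat_lit 4) (.split (nat_lit 9) (nat_lit 3) (.split (nat_lit 9) (nat_lit 0) (.split (nat_lit 7) (nat_lit 2) (.split (nat_lit 8) (nat_lit 7) (.split (nat_lit 7) (nat_lit 1) (.pd (.cons (nat_lit 0) (nat_lit 7) (nat_lit 0) (nat_lit 0x3805442110) (nat_lit 0xf423ff423f00000f423fb71ae1f156b71aea2c280473700000) (.cons (nat_lit 1) (nat_lit 6) (nat_lit 0) (nat_lit 0x720449300) (nat_lit 0x927bdf423fb71ae00000f423f5459198965a2c28000008e6a2) (.cons (nat_lit 1) (nat_lit 7) (nat_lit 0) (nat_lit 0x805449300) (nat_lit 0xa2c28f423f00000f423fb71ae1f156b71aef423f0000098965) (.cons (nat_lit 2) (nat_lit 6) (nat_lit 0) (nat_lit 0x710449000) (nat_lit 0xb71aef423fb71ae00000f423f54591f423f00000a2c284734e)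 (.cons (nat_lit 2) (nat_lit 7) (nat_lit 0) (nat_lit 0x805449000) (nat_lit 0xb71aef423f00000f423fb71ae1f156f423f00000f423f65b97) (.cons (nat_lit 3) (nat_lit 7) (nat_lit 0) (nat_lit 0x805440100) (nat_lit 0xf423ff423f00000f423fb71ae1f15600000f423f5459106711) .nil)))))) (.leaf (.cons (nat_lit 0x4014) (nat_lit 0x10000000000000000000100010000) (.cons (nat_lit 0x5510) (nat_lit 0x20003000400030000000100000000) (.cons (nat_lit 0x5504) (nat_lit 0x20003000400030000000000010000) .nil))) .nil)) (.non (nat_lit 2) (nat_lit 4) (nat_lit 0x2a004) (nat_lit 0x100020001000000000000000000020000))) (.non (nat_lit 1) (nat_lit 4) (nat_lit 0x25010) (nat_lit 0x100020001000000000000000100000000))) (.non (nat_lit 1) (nat_lit 4) (nat_lit 0x2a010) (nat_lit 0x100020001000000000000000200000000))) (.non (nat_lit 1) (nat_lit 4) (nat_lit 0xaa0a1) (nat_lit 0x2000100020001000000000002000200000002))) (.non (nat_lit 1) (nat_lit 4) (nat_lit 0x95050) (nat_lit 0x1000100020001000000000002000200000000))) (.split (nat_lit 0xa) (nat_lit 0) (.split (nat_lit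 0xa) (nat_lit 1) (.split (nat_lit 0xa) (nat_lit 2) (.split (nat_lit 0xa) (nat_lit 3) (.split (nat_lit 0xa) (nat_lit 5) (.split (nat_lit 0xa) (nat_lit 6) (.split (nat_lit 0xa) (nat_lit 7) (.split (nat_lit 0xa) (nat_lit 8) (.split (nat_lit 0xa) (nat_lit 9) (.unj (nat_lit 0x55) (nat_lit 0x1000200020001) (nat_lit 0x101500) (nat_lit 0x10000000000000001000200020000000000000000)) (.non (nat_lit 1) (nat_lit 4) (nat_lit 0x155051) (nat_lit 0x10002000100020001000000000002000200000001))) (.non (nat_lit 1) (nat_lit 4) (nat_lit 0x115450) (nat_lit 0x10000000200030002000100000001000200000000))) (.non (nat_lit 1) (nat_lit 4) (nat_lit 0x115010) (nat_lit 0x10000000100020001000000000000000100000000))) (.non (nat_lit 1) (nat_lit 4) (nat_lit 0x115410) (nat_lit 0x10000000100020002000100000000000100000000))) (.non (nat_lit 1) (nat_lit 4) (nat_lit 0x155450) (nat_lit 0x10001000200040003000200000002000300000000))) (.non (nat_lit 1) (nat_lit 4) (nat_lit 0x155050) (nat_lit 0x10001000100020001000000000002000200000000))) (.star (nat_lit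 0xa) (nat_lit 2) (nat_lit 4))) (.star (nat_lit 0xa) (nat_lit 1) (nat_lit 4))) (.non (nat_lit 1) (nat_lit 4) (nat_lit 0x155451) (nat_lit 0x10003000300060004000200000004000500000002))))

noncomputable def t757_121 : Tr := (.ex (nat_lit 0) (.ex (nat_lit 3) t757_111 (.split (nat_lit 9) (nat_lit 1) (.split (nat_lit 9) (nat_lit 2) (.split (nat_lit 9) (nat_lit 5) (.split (nat_lit 9) (nat_lit 6) (.split (nat_lit 9) (nat_lit 7) (.split (nat_lit 9) (nat_lit 8) t757_114 (.non (nat_lit 1) (nat_lit 4) (nat_lit 0x54050) (nat_lit 0x1000100010000000000000001000100000000))) (.non (nat_lit 1) (nat_lit 4) (nat_lit 0x55010) (nat_lit 0x1000100020001000000000000000100000000))) (.non (nat_lit 1) (nat_lit 4) (nat_lit 0x55410) (nat_lit 0x1000100020002000100000000000100000000))) (.non (nat_lit 1) (nat_lit 4) (nat_lit 0x45450) (nat_lit 0x1000000010001000100000001000100000000))) (.non (nat_lit 1) (nat_lit 4) (nat_lit 0x40050) (nat_lit 0x1000000000000000000000001000100000000))) (.non (nat_lit 2) (nat_lit 4) (nat_lit 0x55005) (nat_lit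 0x1000100020001000000000000000000020001)))) (.split (nat_lit 9) (nat_lit 1) (.split (nat_lit 9) (nat_lit 2) (.split (nat_lit 9) (nat_lit 5) (.split (nat_lit 9) (nat_lit 6) (.split (nat_lit 9) (nat_lit 7) (.split (nat_lit 9) (nat_lit 8) (.split (nat_lit 9) (nat_lit 3) (.split (nat_lit 9) (nat_lit 4) (.st (nat_lit 0) (nat_lit 2) (nat_lit 4) (nat_lit 0x55005) (nat_lit 0x1000100020001000000000000000000020002) (nat_lit 1) (nat_lit 1) (.st (nat_lit 5) (nat_lit 2) (nat_lit 4) (nat_lit 0x55405) (nat_lit 0x1000200040003000200000000000000030002) (nat_lit 1) (nat_lit 1) t757_119)) (.sup (nat_lit 0x20000000000000000000500050000) (nat_lit 0x3000000000001000500050000000000000000))) (.split (nat_lit 9) (nat_lit 4) (.st (nat_lit 0) (nat_lit 1) (nat_lit 4) (nat_lit 0x55451) (nat_lit 0x3000300060004000200000004000500000002) (nat_lit 1) (nat_lit 1) (.st (nat_lit 3) (nat_lit 1) (nat_lit 4) (nat_lit 0x55050) (nat_lit 0x1000100020001000000000002000200000000) (nat_lit 1) (nat_lit 1) (.st (nat_lit 5) (nat_lit 1) (nat_lit 4) (nat_lit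 0x55450) (nat_lit 0x1000200040003000200000002000300000000) (nat_lit 1) (nat_lit 1) (.st (nat_lit 9) (nat_lit 1) (nat_lit 4) (nat_lit 0x55051) (nat_lit 0x2000100020001000000000002000200000001) (nat_lit 1) (nat_lit 1) t757_120)))) (.non (nat_lit 1) (nat_lit 5) (nat_lit 0x55151) (nat_lit 0x2000100020001000000010002000200000001)))) (.non (nat_lit 1) (nat_lit 4) (nat_lit 0x55450) (nat_lit 0x1000200030002000100000001000200000000))) (.non (nat_lit 1) (nat_lit 4) (nat_lit 0x55010) (nat_lit 0x1000100020001000000000000000100000000))) (.non (nat_lit 1) (nat_lit 4) (nat_lit 0x55410) (nat_lit 0x1000100020002000100000000000100000000))) (.non (nat_lit 2) (nat_lit 4) (nat_lit 0x45405) (nat_lit 0x1000000010001000100000000000000010001))) (.non (nat_lit 1) (nat_lit 4) (nat_lit 0x55050) (nat_lit 0x1000100020001000000000001000200000000))) (.non (nat_lit 2) (nat_lit 4) (nat_lit 0x40005) (nat_lit 0x1000000000000000000000000000000010001))))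

noncomputable def t757_122 : Tr := (.ex (nat_lit 5) (.split (nat_lit 7) (nat_lit 0) (.pd (.cons (nat_lit 0) (nat_lit 6) (nat_lit 0) (nat_lit 0x770442110) (nat_lit 0xf423fb71ae00000f423f54591f423fb71ae1f15600000) (.cons (nat_lit 0) (nat_lit 7) (nat_lit 0) (nat_lit 0x805442110) (nat_lit 0xf423f00000f423fb71ae1f156f423fb71ae1f15600000) (.cons (nat_lit 0) (nat_lit 8) (nat_lit 0) (nat_lit 0x65442110) (nat_lit 0xf423fb71aea2c2804737f423fb71ae1f15600000) (.cons (nat_lit 1) (nat_lit 6) (nat_lit 0) (nat_lit 0x700442200) (nat_lit 0xf423fb71ae00000f423f54591f423fb71ae00000a2c28) (.cons (nat_lit 1) (nat_lit 7) (nat_lit 0) (nat_lit 0x805442200) (nat_lit 0xf423f00000f423fb71ae1f156f423fb71ae00000f423f) (.cons (nat_lit 2) (nat_lit 6) (nat_lit 0) (nat_lit 0x700443000) (nat_lit 0xf423fb71ae00000f423f54591f423f00000f423f65b97) (.cons (nat_lit 2) (nat_lit 7) (nat_lit 0) (nat_lit 0x805443000) (nat_lit 0xf423f00000f423fb71ae1f156f423f00000f423fb71ae) (.cons (nat_lit 3) (nat_lit 7) (nat_lit 0) (nat_lit 0x805440100) (nat_lit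 0xf423f00000f423fb71ae1f15600000f423f54591437a2) .nil)))))))) (.leaf (.cons (nat_lit 0x5501) (nat_lit 0x20003000400030000000000000001) (.cons (nat_lit 0x14015) (nat_lit 0x100020000000000000000000300040003) .nil)) (.cons (nat_lit 0x111100001) (nat_lit 0x10010) (nat_lit 8) (nat_lit 0x203400001) (.cons (nat_lit 0x111000001) (nat_lit 0x100010) (nat_lit 7) (nat_lit 0x302000001) (.cons (nat_lit 0x110000001) (nat_lit 0x1000010) (nat_lit 1) (nat_lit 0x210000000) (.cons (nat_lit 0x110000011) (nat_lit 0x1000100) (nat_lit 2) (nat_lit 0x320000001) .nil)))))) (.non (nat_lit 1) (nat_lit 4) (nat_lit 0x2a001) (nat_lit 0x100020001000000000000000000000002))) (.split (nat_lit 9) (nat_lit 0) (.split (nat_lit 9) (nat_lit 1) (.split (nat_lit 9) (nat_lit 2) (.split (nat_lit 9) (nat_lit 3) (.split (nat_lit 9) (nat_lit 6) (.split (nat_lit 9) (nat_lit 7) (.split (nat_lit 9) (nat_lit 8) (.split (nat_lit 9) (nat_lit 4) (.unj (nat_lit 0x55) (nat_lit 0x1000200020001) (nat_lit 0x41500) (nat_lit 0x1000000000001000200020000000000000000))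 (.unj (nat_lit 0x40500) (nat_lit 0x1000000000000000100010000000000000000) (nat_lit 0x55) (nat_lit 0x1000200020001))) (.non (nat_lit 1) (nat_lit 4) (nat_lit 0x55400) (nat_lit 0x1000100010001000100000000000000000000))) (.non (nat_lit 1) (nat_lit 4) (nat_lit 0x45400) (nat_lit 0x1000000010001000100000000000000000000))) (.non (nat_lit 1) (nat_lit 4) (nat_lit 0x41400) (nat_lit 0x1000000000001000100000000000000000000))) (.non (nat_lit 0) (nat_lit 4) (nat_lit 0x40454) (nat_lit 0x2000000000000000100000003000400030000))) (.star (nat_lit 9) (nat_lit 2) (nat_lit 5))) (.star (nat_lit 9) (nat_lit 1) (nat_lit 5))) (.non (nat_lit 1) (nat_lit 4) (nat_lit 0x45401) (nat_lit 0x1000000010001000100000000000000000001))))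

noncomputable def t757_123 : Tr := (.ex (nat_lit 3) (.split (nat_lit 8) (nat_lit 7) (.pd (.cons (nat_lit 0) (nat_lit 4) (nat_lit 0) (nat_lit 0x765502110) (nat_lit 0xf423fb71aea2c289896500000f423fb71ae1f15600000) (.cons (nat_lit 0) (nat_lit 5) (nat_lit 0) (nat_lit 0x766042110) (nat_lit 0xf423fb71aea2c2800000f423ff423fb71ae1f15600000) .nil)) (.ex (nat_lit 4) t757_122 (.split (nat_lit 9) (nat_lit 0) (.split (nat_lit 9) (nat_lit 1) (.split (nat_lit 9) (nat_lit 2) (.split (nat_lit 9) (nat_lit 3) (.split (nat_lit 9) (nat_lit 6) (.split (nat_lit 9) (nat_lit 7) (.split (nat_lit 9) (nat_lit 8) (.split (nat_lit 9) (nat_lit 5) (.unj (nat_lit 0x55) (nat_lit 0x1000200020001) (nat_lit 0x41500) (nat_lit 0x1000000000001000200020000000000000000)) (.unj (nat_lit 0x40500) (nat_lit 0x1000000000000000100010000000000000000) (nat_lit 0x55) (nat_lit 0x1000200020001))) (.non (nat_lit 2) (nat_lit 4) (nat_lit 0x55405) (nat_lit 0x1000200030002000100000000000000010002))) (.non (nat_lit 1) (nat_lit 4) (nat_lit 0x55001) (nat_lit 0x1000100020001000000000000000000000001)))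 (.non (nat_lit 1) (nat_lit 4) (nat_lit 0x55401) (nat_lit 0x1000100020002000100000000000000000001))) (.non (nat_lit 0) (nat_lit 5) (nat_lit 0x40154) (nat_lit 0x2000000000000000000010003000400030000))) (.star (nat_lit 9) (nat_lit 2) (nat_lit 4))) (.star (nat_lit 9) (nat_lit 1) (nat_lit 4))) (.non (nat_lit 2) (nat_lit 4) (nat_lit 0x55005) (nat_lit 0x1000100020001000000000000000000010002))))) (.non (nat_lit 1) (nat_lit 4) (nat_lit 0x25001) (nat_lit 0x100020001000000000000000000000001))) (.split (nat_lit 9) (nat_lit 0) (.split (nat_lit 9) (nat_lit 2) (.split (nat_lit 9) (nat_lit 6) (.split (nat_lit 9) (nat_lit 7) (.split (nat_lit 9) (nat_lit 8) (.split (nat_lit 9) (nat_lit 1) (.split (nat_lit 9) (nat_lit 4) (.split (nat_lit 9) (nat_lit 5) (.sup (nat_lit 0x7000e00170020001a0000000000000000) (nat_lit 0x700000000000000000000000d001400110001)) (.sup (nat_lit 0x20009000a0005) (nat_lit 0x2000000000005000a00080000000000000000))) (.split (nat_lit 9) (nat_lit 5) (.split (nat_lit 9) (nat_lit 3) (.sup (nat_lit 0x20009000a0005)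 (nat_lit 0x2000000000005000a00090000000000000000)) (.split (nat_lit 9) (nat_lit 3) (.sup (nat_lit 0x20009000a0005) (nat_lit 0x2000000000005000a00090000000000000000)) (.non (nat_lit 1) (nat_lit 5) (nat_lit 0x40150) (nat_lit 0x2000000000000000000010002000100000000)))) (.unj (nat_lit 0x40500) (nat_lit 0x1000000000000000100010000000000000000) (nat_lit 0x14015) (nat_lit 0x100020000000000000000000300040003)))) (.split (nat_lit 9) (nat_lit 4) (.split (nat_lit 9) (nat_lit 5) (.unj (nat_lit 0x40054) (nat_lit 0x1000000000000000000000001000100010000) (nat_lit 0x15500) (nat_lit 0x100020003000400030000000000000000)) (.star (nat_lit 9) (nat_lit 1) (nat_lit 5))) (.star (nat_lit 9) (nat_lit 1) (nat_lit 4)))) (.non (nat_lit 2) (nat_lit 4) (nat_lit 0x55405) (nat_lit 0x1000200030002000100000000000000010002))) (.non (nat_lit 1) (nat_lit 4) (nat_lit 0x55001) (nat_lit 0x1000100020001000000000000000000000001))) (.non (nat_lit 1) (nat_lit 4) (nat_lit 0x55401) (nat_lit 0x1000100020002000100000000000000000001))) (.non (nat_lit 1)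 (nat_lit 4) (nat_lit 0x40050) (nat_lit 0x1000000000000000000000001000100000000))) (.non (nat_lit 2) (nat_lit 4) (nat_lit 0x55005) (nat_lit 0x1000100020001000000000000000000010002))))

noncomputable def t757_124 : Tr := (.st (nat_lit 8) (nat_lit 2) (nat_lit 4) (nat_lit 0x15405) (nat_lit 0x200030002000100000000000000010002) (nat_lit 1) (nat_lit 1) (.ex (nat_lit 1) (.ex (nat_lit 2) t757_123 (.split (nat_lit 9) (nat_lit 0) (.split (nat_lit 9) (nat_lit 3) (.split (nat_lit 9) (nat_lit 4) (.split (nat_lit 9) (nat_lit 5) (.split (nat_lit 9) (nat_lit 6) (.split (nat_lit 9) (nat_lit 7) (.split (nat_lit 9) (nat_lit 8) (.split (nat_lit 9) (nat_lit 1) (.unj (nat_lit 0x40054) (nat_lit 0x1000000000000000000000001000200020000) (nat_lit 0x15500) (nat_lit 0x100020003000400030000000000000000)) (.unj (nat_lit 0x40014) (nat_lit 0x1000000000000000000000000000100010000) (nat_lit 0x15500) (nat_lit 0x100020003000400030000000000000000))) (.non (nat_lit 2) (nat_lit 4) (nat_lit 0x55405) (nat_lit 0x1000200030002000100000000000000010002)))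 (.non (nat_lit 1) (nat_lit 4) (nat_lit 0x55001) (nat_lit 0x1000100020001000000000000000000000001))) (.non (nat_lit 1) (nat_lit 4) (nat_lit 0x55401) (nat_lit 0x1000100020002000100000000000000000001))) (.star (nat_lit 9) (nat_lit 2) (nat_lit 5))) (.star (nat_lit 9) (nat_lit 2) (nat_lit 4))) (.non (nat_lit 1) (nat_lit 4) (nat_lit 0x40050) (nat_lit 0x1000000000000000000000001000100000000))) (.non (nat_lit 2) (nat_lit 4) (nat_lit 0x55005) (nat_lit 0x1000100020001000000000000000000010002)))) (.split (nat_lit 9) (nat_lit 0) (.split (nat_lit 9) (nat_lit 4) (.split (nat_lit 9) (nat_lit 5) (.split (nat_lit 9) (nat_lit 6) (.split (nat_lit 9) (nat_lit 7) (.split (nat_lit 9) (nat_lit 8) (.split (nat_lit 9) (nat_lit 2) (.split (nat_lit 9) (nat_lit 3) (.unj (nat_lit 0x40054) (nat_lit 0x1000000000000000000000001000200020000) (nat_lit 0x15500) (nat_lit 0x100020003000400030000000000000000)) (.unj (nat_lit 0x40054) (nat_lit 0x1000000000000000000000001000100010000) (nat_lit 0x15500) (nat_lit 0x100020003000400030000000000000000)))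 (.split (nat_lit 9) (nat_lit 3) (.unj (nat_lit 0x40014) (nat_lit 0x1000000000000000000000000000100010000) (nat_lit 0x15500) (nat_lit 0x100020003000400030000000000000000)) (.non (nat_lit 1) (nat_lit 4) (nat_lit 0x40050) (nat_lit 0x1000000000000000000000001000100000000)))) (.non (nat_lit 2) (nat_lit 4) (nat_lit 0x54005) (nat_lit 0x1000100010000000000000000000000010001))) (.non (nat_lit 1) (nat_lit 4) (nat_lit 0x55001) (nat_lit 0x1000100020001000000000000000000000001))) (.non (nat_lit 1) (nat_lit 4) (nat_lit 0x55401) (nat_lit 0x1000100020002000100000000000000000001))) (.star (nat_lit 9) (nat_lit 1) (nat_lit 5))) (.star (nat_lit 9) (nat_lit 1) (nat_lit 4))) (.non (nat_lit 2) (nat_lit 4) (nat_lit 0x40005) (nat_lit 0x1000000000000000000000000000000010001)))))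

noncomputable def t757_125 : Tr := (.split (nat_lit 7) (nat_lit 0) (.split (nat_lit 7) (nat_lit 1) t757_81 (.split (nat_lit 7) (nat_lit 3) (.split (nat_lit 6) (nat_lit 0) (.split (nat_lit 6) (nat_lit 3) (.split (nat_lit 7) (nat_lit 2) (.st (nat_lit 1) (nat_lit 2) (nat_lit 4) (nat_lit 0x15005) (nat_lit 0x100020001000000000000000000020001) (nat_lit 1) (nat_lit 1) (.st (nat_lit 6) (nat_lit 2) (nat_lit 4) (nat_lit 0x15404) (nat_lit 0x100020002000100000000000000010000) (nat_lit 1) (nat_lit 1) (.st (nat_lit 7) (nat_lit 2) (nat_lit 4) (nat_lit 0x15004) (nat_lit 0x100020001000000000000000000010000) (nat_lit 1) (nat_lit 1) (.st (nat_lit 8) (nat_lit 2) (nat_lit 4) (nat_lit 0x15405) (nat_lit 0x200030002000100000000000000020001) (nat_lit 1) (nat_lit 1) (.ex (nat_lit 0) t757_93 (.split (nat_lit 9) (nat_lit 1) (.split (nat_lit 9) (nat_lit 5) (.split (nat_lit 9) (nat_lit 6) (.split (nat_lit 9) (nat_lit 7) (.split (nat_lit 9) (nat_lit 8) t757_110 (.non (nat_lit 2) (nat_lit 4) (nat_lit 0x54005) (nat_lit 0x1000100010000000000000000000000010001)))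 (.non (nat_lit 2) (nat_lit 4) (nat_lit 0x55004) (nat_lit 0x1000100020001000000000000000000010000))) (.non (nat_lit 2) (nat_lit 4) (nat_lit 0x55404) (nat_lit 0x1000100020002000100000000000000010000))) (.non (nat_lit 2) (nat_lit 4) (nat_lit 0x45405) (nat_lit 0x1000000010001000100000000000000010001))) (.non (nat_lit 2) (nat_lit 4) (nat_lit 0x40005) (nat_lit 0x1000000000000000000000000000000010001)))))))) (.st (nat_lit 1) (nat_lit 2) (nat_lit 4) (nat_lit 0x15005) (nat_lit 0x100020001000000000000000000020001) (nat_lit 1) (nat_lit 1) (.st (nat_lit 2) (nat_lit 1) (nat_lit 4) (nat_lit 0x15050) (nat_lit 0x100020001000000000001000200000000) (nat_lit 1) (nat_lit 1) (.st (nat_lit 6) (nat_lit 1) (nat_lit 4) (nat_lit 0x15410) (nat_lit 0x100020002000100000000000100000000) (nat_lit 1) (nat_lit 1) t757_121)))) (.non (nat_lit 2) (nat_lit 4) (nat_lit 0x15444) (nat_lit 0x100020002000100000001000000010000))) (.non (nat_lit 2) (nat_lit 4) (nat_lit 0x5005) (nat_lit 0x10001000000000000000000010001))) (.non (nat_lit 2) (nat_lit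 4) (nat_lit 0x15044) (nat_lit 0x100020001000000000001000000010000)))) (.split (nat_lit 7) (nat_lit 1) (.split (nat_lit 7) (nat_lit 2) (.split (nat_lit 7) (nat_lit 3) (.split (nat_lit 6) (nat_lit 0) (.split (nat_lit 6) (nat_lit 3) (.st (nat_lit 0) (nat_lit 2) (nat_lit 4) (nat_lit 0x15005) (nat_lit 0x100020001000000000000000000010002) (nat_lit 1) (nat_lit 1) (.st (nat_lit 6) (nat_lit 1) (nat_lit 4) (nat_lit 0x15401) (nat_lit 0x100020002000100000000000000000001) (nat_lit 1) (nat_lit 1) (.st (nat_lit 7) (nat_lit 1) (nat_lit 4) (nat_lit 0x15001) (nat_lit 0x100020001000000000000000000000001) (nat_lit 1) (nat_lit 1) t757_124))) (.non (nat_lit 1) (nat_lit 4) (nat_lit 0x15441) (nat_lit 0x100020002000100000001000000000001))) (.non (nat_lit 1) (nat_lit 4) (nat_lit 0x5001) (nat_lit 0x10001000000000000000000000001))) (.non (nat_lit 1) (nat_lit 4) (nat_lit 0x15041) (nat_lit 0x100020001000000000001000000000001))) (.non (nat_lit 1) (nat_lit 4) (nat_lit 0x15011) (nat_lit 0x100020001000000000000000100000001))) (.non (nat_lit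 2) (nat_lit 4) (nat_lit 0x4005) (nat_lit 0x10000000000000000000000010001))))

noncomputable def t757_126 : Tr := (.ex (nat_lit 4) (.split (nat_lit 8) (nat_lit 3) (.split (nat_lit 8) (nat_lit 7) (.split (nat_lit 6) (nat_lit 0) (.pd (.cons (nat_lit 0) (nat_lit 7) (nat_lit 0) (nat_lit 0x305442110) (nat_lit 0xf423f00000f423fb71ae1f156b71aea2c280473700000) (.cons (nat_lit 0) (nat_lit 8) (nat_lit 0) (nat_lit 0x65442110) (nat_lit 0xf423fb71aea2c2804737f423fb71ae1f15600000) (.cons (nat_lit 1) (nat_lit 6) (nat_lit 0) (nat_lit 0x380442200) (nat_lit 0xb71aef423f00000f423f54591a2c289896500000f423f) (.cons (nat_lit 1) (nat_lit 7) (nat_lit 0) (nat_lit 0x300652200) (nat_lit 0xf423f00000437a254591f423fb71aea2c2800000174ea) (.cons (nat_lit 2) (nat_lit 6) (nat_lit 0) (nat_lit 0x380443000) (nat_lit 0xb71aef423f00000f423f54591a2c2800000f423fb71ae) (.cons (nat_lit 3) (nat_lit 6) (nat_lit 0) (nat_lit 0x770440100) (nat_lit 0xf423fb71ae00000f423f5459100000f423f54591437a2) .nil)))))) (.leaf (.cons (nat_lit 0x14054) (nat_lit 0x200010000000000000003000400030000)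 (.cons (nat_lit 0x5501) (nat_lit 0x10002000200020000000000000001) (.cons (nat_lit 0x1505) (nat_lit 0x3000400030000000000010002) (.cons (nat_lit 0x5015) (nat_lit 0x10002000000000000000300040003) .nil)))) (.cons (nat_lit 0x111101101) (nat_lit 0x10010) (nat_lit 0xa) (nat_lit 0x430205601) (.cons (nat_lit 0x111101011) (nat_lit 0x10100) (nat_lit 0xd) (nat_lit 0x540106032) .nil)))) (.non (nat_lit 1) (nat_lit 4) (nat_lit 0xa801) (nat_lit 0x10002000100000000000000000002))) (.non (nat_lit 1) (nat_lit 4) (nat_lit 0x1a840) (nat_lit 0x400030002000100000002000000000000))) (.non (nat_lit 1) (nat_lit 4) (nat_lit 0x2a050) (nat_lit 0x300020001000000000004000200000000))) (.split (nat_lit 9) (nat_lit 0) (.split (nat_lit 9) (nat_lit 1) (.split (nat_lit 9) (nat_lit 2) (.split (nat_lit 9) (nat_lit 3) (.split (nat_lit 9) (nat_lit 5) (.split (nat_lit 9) (nat_lit 6) (.split (nat_lit 9) (nat_lit 7) (.split (nat_lit 9) (nat_lit 8) (.sup (nat_lit 0x50000000000020009000a0000000000000000) (nat_lit 0x400010000000000000007000a00080000))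 (.non (nat_lit 1) (nat_lit 4) (nat_lit 0x55441) (nat_lit 0x1000200020002000100000001000000000001))) (.non (nat_lit 1) (nat_lit 4) (nat_lit 0x55401) (nat_lit 0x1000100020002000100000000000000000001))) (.non (nat_lit 1) (nat_lit 4) (nat_lit 0x45401) (nat_lit 0x1000000010002000100000000000000000001))) (.non (nat_lit 2) (nat_lit 4) (nat_lit 0x55405) (nat_lit 0x1000100020003000200000000000000010002))) (.non (nat_lit 1) (nat_lit 4) (nat_lit 0x55451) (nat_lit 0x1000200020002000100000002000100000001))) (.star (nat_lit 9) (nat_lit 2) (nat_lit 4))) (.star (nat_lit 9) (nat_lit 1) (nat_lit 4))) (.non (nat_lit 2) (nat_lit 4) (nat_lit 0x45405) (nat_lit 0x1000000010002000100000000000000010002))))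

noncomputable def t757_127 : Tr := (.split (nat_lit 7) (nat_lit 1) (.split (nat_lit 7) (nat_lit 2) (.split (nat_lit 7) (nat_lit 3) (.split (nat_lit 6) (nat_lit 3) (.split (nat_lit 6) (nat_lit 0) (.sup (nat_lit 0x20009000a0005) (nat_lit 0x100040007000a00080000000000000000)) (.st (nat_lit 0) (nat_lit 2) (nat_lit 4) (nat_lit 0x5405) (nat_lit 0x10002000100000000000000010002) (nat_lit 1) (nat_lit 1) (.st (nat_lit 1) (nat_lit 2) (nat_lit 4) (nat_lit 0x15445) (nat_lit 0x200030004000200000001000000020003) (nat_lit 1) (nat_lit 1) (.st (nat_lit 3) (nat_lit 1) (nat_lit 4) (nat_lit 0x15451) (nat_lit 0x200020002000100000002000100000001) (nat_lit 1) (nat_lit 1) (.st (nat_lit 5) (nat_lit 2) (nat_lit 4) (nat_lit 0x15405) (nat_lit 0x100020003000200000000000000010002) (nat_lit 1) (nat_lit 1) (.st (nat_lit 6) (nat_lit 1) (nat_lit 4) (nat_lit 0x5401) (nat_lit 0x10002000100000000000000000001) (nat_lit 1) (nat_lit 1) (.st (nat_lit 7) (nat_lit 1) (nat_lit 4) (nat_lit 0x15401) (nat_lit 0x100020002000100000000000000000001) (nat_lit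 1) (nat_lit 1) (.st (nat_lit 8) (nat_lit 1) (nat_lit 4) (nat_lit 0x15441) (nat_lit 0x200020002000100000001000000000001) (nat_lit 1) (nat_lit 1) (.ex (nat_lit 2) t757_126 (.split (nat_lit 9) (nat_lit 0) (.split (nat_lit 9) (nat_lit 1) (.split (nat_lit 9) (nat_lit 3) (.split (nat_lit 9) (nat_lit 4) (.split (nat_lit 9) (nat_lit 5) (.split (nat_lit 9) (nat_lit 6) (.split (nat_lit 9) (nat_lit 7) (.split (nat_lit 9) (nat_lit 8) (.sup (nat_lit 0x3000000000000000000000003000500030000) (nat_lit 0x20003000500040000000000000001)) (.non (nat_lit 1) (nat_lit 4) (nat_lit 0x50050) (nat_lit 0x1000100000000000000000001000100000000))) (.non (nat_lit 1) (nat_lit 4) (nat_lit 0x54050) (nat_lit 0x1000100010000000000000001000100000000))) (.non (nat_lit 1) (nat_lit 4) (nat_lit 0x55050) (nat_lit 0x1000100010001000000000001000100000000))) (.star (nat_lit 9) (nat_lit 2) (nat_lit 5))) (.star (nat_lit 9) (nat_lit 2) (nat_lit 4))) (.non (nat_lit 1) (nat_lit 4) (nat_lit 0x40050) (nat_lit 0x1000000000000000000000001000100000000))) (.non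 (nat_lit 2) (nat_lit 4) (nat_lit 0x55445) (nat_lit 0x1000200030004000200000001000000020003))) (.non (nat_lit 1) (nat_lit 4) (nat_lit 0x55051) (nat_lit 0x1000100010001000000000001000100000001)))))))))))) (.non (nat_lit 1) (nat_lit 4) (nat_lit 0x15040) (nat_lit 0x100010001000000000001000000000000))) (.non (nat_lit 1) (nat_lit 4) (nat_lit 0x14040) (nat_lit 0x100010000000000000001000000000000))) (.non (nat_lit 1) (nat_lit 4) (nat_lit 0x14050) (nat_lit 0x100010000000000000001000100000000))) (.non (nat_lit 2) (nat_lit 4) (nat_lit 0x15445) (nat_lit 0x200030002000100000001000000020001)))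

noncomputable def t757_128 : Tr := (.pd (.cons (nat_lit 0) (nat_lit 8) (nat_lit 0) (nat_lit 0x65442110) (nat_lit 0xf423fb71aea2c2804737f423fb71ae1f15600000) (.cons (nat_lit 1) (nat_lit 8) (nat_lit 0) (nat_lit 0x65442200) (nat_lit 0xf423fb71aea2c2804737f423fb71ae00000f423f) (.cons (nat_lit 2) (nat_lit 8) (nat_lit 0) (nat_lit 0x65443000) (nat_lit 0xf423fb71aea2c2804737f423f00000f423fb71ae) (.cons (nat_lit 3) (nat_lit 8) (nat_lit 0) (nat_lit 0x65440100) (nat_lit 0xf423fb71aea2c280473700000f423f54591437a2) .nil)))) (.ex (nat_lit 8) (.leaf (.cons (nat_lit 0x15014) (nat_lit 0x300020001000000000000000400030000) (.cons (nat_lit 0x10054) (nat_lit 0x100000000000000000001000200020000) (.cons (nat_lit 0x10015) (nat_lit 0x100000000000000000000000200020001) .nil))) (.cons (nat_lit 0x111001100) (nat_lit 0x100010) (nat_lit 3) (nat_lit 0x234000100) (.cons (nat_lit 0x110001100) (nat_lit 0x1000010) (nat_lit 2) (nat_lit 0x230000100) .nil))) (.split (nat_lit 9) (nat_lit 0) (.split (nat_lit 9) (nat_lit 1) (.split (nat_lit 9)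 (nat_lit 2) (.split (nat_lit 9) (nat_lit 3) (.split (nat_lit 9) (nat_lit 4) (.split (nat_lit 9) (nat_lit 5) (.split (nat_lit 9) (nat_lit 6) (.split (nat_lit 9) (nat_lit 7) (.st (nat_lit 8) (nat_lit 1) (nat_lit 4) (nat_lit 0x54010) (nat_lit 0x1000200010000000000000000000100000000) (nat_lit 1) (nat_lit 1) (.st (nat_lit 9) (nat_lit 1) (nat_lit 4) (nat_lit 0x55050) (nat_lit 0x2000300020001000000000001000200000000) (nat_lit 1) (nat_lit 1) (.split (nat_lit 9) (nat_lit 8) (.leaf (.cons (nat_lit 0x54014) (nat_lit 0x1000200010000000000000000000200020000) (.cons (nat_lit 0x10054) (nat_lit 0x100000000000000000001000200020000) (.cons (nat_lit 0x10015) (nat_lit 0x100000000000000000000000200020001) .nil))) (.cons (nat_lit 0x1110001100) (nat_lit 0x1000010) (nat_lit 8) (nat_lit 0x2010004300) (.cons (nat_lit 0x1100001100) (nat_lit 0x10000010) (nat_lit 2) (nat_lit 0x3200000100) .nil))) (.non (nat_lit 1) (nat_lit 4) (nat_lit 0x94010) (nat_lit 0x1000200010000000000000000000100000000))))) (.non (nat_lit 1) (nat_lit 4) (nat_lit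 0x54000) (nat_lit 0x1000100010000000000000000000000000000))) (.non (nat_lit 1) (nat_lit 4) (nat_lit 0x55000) (nat_lit 0x1000100010001000000000000000000000000))) (.non (nat_lit 1) (nat_lit 4) (nat_lit 0x55400) (nat_lit 0x1000100010001000100000000000000000000))) (.non (nat_lit 1) (nat_lit 5) (nat_lit 0x55150) (nat_lit 0x2000300020001000000010001000200000000))) (.non (nat_lit 1) (nat_lit 4) (nat_lit 0x50050) (nat_lit 0x1000100000000000000000001000100000000))) (.non (nat_lit 1) (nat_lit 4) (nat_lit 0x50010) (nat_lit 0x1000100000000000000000000000100000000))) (.non (nat_lit 0) (nat_lit 8) (nat_lit 0x40054) (nat_lit 0x1000000000000000000000001000200020000))) (.non (nat_lit 1) (nat_lit 4) (nat_lit 0x55051) (nat_lit 0x2000300020001000000000001000200000001)))))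

noncomputable def t757_129 : Tr := (.ex (nat_lit 6) (.pd (.cons (nat_lit 1) (nat_lit 7) (nat_lit 0) (nat_lit 0x205442200) (nat_lit 0xf423f00000f423fb71ae1f156f423f7a11d00000f423f) (.cons (nat_lit 2) (nat_lit 7) (nat_lit 0) (nat_lit 0x805443000) (nat_lit 0xf423f00000f423fb71ae1f156f423f00000f423fb71ae) .nil)) (.ex (nat_lit 7) t757_128 (.split (nat_lit 9) (nat_lit 0) (.split (nat_lit 9) (nat_lit 2) (.split (nat_lit 9) (nat_lit 3) (.split (nat_lit 9) (nat_lit 4) (.split (nat_lit 9) (nat_lit 5) (.split (nat_lit 9) (nat_lit 6) (.split (nat_lit 9) (nat_lit 8) (.split (nat_lit 9) (nat_lit 1) (.unj (nat_lit 0x55) (nat_lit 0x1000200020001) (nat_lit 0x45500) (nat_lit 0x1000000020003000400030000000000000000)) (.leaf (.cons (nat_lit 0x50014) (nat_lit 0x1000100000000000000000000000200020000) (.cons (nat_lit 0x45500) (nat_lit 0x1000000020003000400030000000000000000) .nil)) .nil)) (.non (nat_lit 1) (nat_lit 4) (nat_lit 0x54000) (nat_lit 0x1000100010000000000000000000000000000))) (.non (nat_lit 1) (nat_lit 4) (nat_lit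 0x45000) (nat_lit 0x1000000010001000000000000000000000000))) (.non (nat_lit 1) (nat_lit 4) (nat_lit 0x45400) (nat_lit 0x1000000010001000100000000000000000000))) (.non (nat_lit 1) (nat_lit 6) (nat_lit 0x54500) (nat_lit 0x3000100020000000300040000000000000000))) (.non (nat_lit 1) (nat_lit 4) (nat_lit 0x54050) (nat_lit 0x1000100010000000000000001000100000000))) (.non (nat_lit 1) (nat_lit 4) (nat_lit 0x54010) (nat_lit 0x1000100010000000000000000000100000000))) (.non (nat_lit 1) (nat_lit 4) (nat_lit 0x55411) (nat_lit 0x2000200030002000100000000000100000001))))) (.split (nat_lit 9) (nat_lit 2) (.split (nat_lit 9) (nat_lit 3) (.split (nat_lit 9) (nat_lit 5) (.split (nat_lit 9) (nat_lit 7) (.split (nat_lit 9) (nat_lit 8) (.split (nat_lit 9) (nat_lit 0) (.split (nat_lit 9) (nat_lit 1) (.split (nat_lit 9) (nat_lit 4) (.unj (nat_lit 0x55) (nat_lit 0x1000200020001) (nat_lit 0x45500) (nat_lit 0x1000000010002000200020000000000000000)) (.unj (nat_lit 0x55) (nat_lit 0x1000200020001) (nat_lit 0x41500) (nat_lit 0x1000000000001000100010000000000000000)))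 (.split (nat_lit 9) (nat_lit 4) (.sup (nat_lit 0x280050004a0025) (nat_lit 0x30000001c0037005000410000000000000000)) (.star (nat_lit 9) (nat_lit 1) (nat_lit 4)))) (.split (nat_lit 9) (nat_lit 1) (.split (nat_lit 9) (nat_lit 4) (.sup (nat_lit 0x5000a00090002) (nat_lit 0x1000000030007000a00080000000000000000)) (.non (nat_lit 2) (nat_lit 6) (nat_lit 0x40505) (nat_lit 0x3000000000000000300040000000000010002))) (.non (nat_lit 2) (nat_lit 4) (nat_lit 0x40005) (nat_lit 0x1000000000000000000000000000000010001)))) (.non (nat_lit 1) (nat_lit 4) (nat_lit 0x55000) (nat_lit 0x1000100010001000000000000000000000000))) (.non (nat_lit 1) (nat_lit 4) (nat_lit 0x45000) (nat_lit 0x1000000010001000000000000000000000000))) (.non (nat_lit 1) (nat_lit 4) (nat_lit 0x41400) (nat_lit 0x1000000000001000100000000000000000000))) (.non (nat_lit 1) (nat_lit 4) (nat_lit 0x55050) (nat_lit 0x1000100010001000000000001000100000000))) (.non (nat_lit 1) (nat_lit 4) (nat_lit 0x55010) (nat_lit 0x1000100010001000000000000000100000000))))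

noncomputable def t757_130 : Tr := (.split (nat_lit 9) (nat_lit 0) (.split (nat_lit 9) (nat_lit 3) (.split (nat_lit 9) (nat_lit 5) (.split (nat_lit 9) (nat_lit 6) (.split (nat_lit 9) (nat_lit 7) (.unj (nat_lit 0x55) (nat_lit 0x1000200020001) (nat_lit 0x41500) (nat_lit 0x1000000000001000200020000000000000000)) (.unj (nat_lit 0x55) (nat_lit 0x1000200020001) (nat_lit 0x41500) (nat_lit 0x1000000000001000200020000000000000000))) (.split (nat_lit 9) (nat_lit 7) (.unj (nat_lit 0x55) (nat_lit 0x1000200020001) (nat_lit 0x41500) (nat_lit 0x1000000000001000100010000000000000000)) (.non (nat_lit 1) (nat_lit 4) (nat_lit 0x45000) (nat_lit 0x1000000010001000000000000000000000000)))) (.split (nat_lit 9) (nat_lit 6) (.split (nat_lit 9) (nat_lit 7) (.unj (nat_lit 0x40500) (nat_lit 0x1000000000000000100010000000000000000) (nat_lit 0x55) (nat_lit 0x1000200020001)) (.non (nat_lit 1) (nat_lit 4) (nat_lit 0x45400) (nat_lit 0x1000000010001000100000000000000000000))) (.non (nat_lit 1) (nat_lit 4) (nat_lit 0x41400) (nat_lit 0x1000000000001000100000000000000000000))))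 (.split (nat_lit 9) (nat_lit 5) (.split (nat_lit 9) (nat_lit 6) (.split (nat_lit 9) (nat_lit 7) (.unj (nat_lit 0x10015) (nat_lit 0x100000000000000000000000200020001) (nat_lit 0x41500) (nat_lit 0x1000000000001000200020000000000000000)) (.non (nat_lit 1) (nat_lit 4) (nat_lit 0x54050) (nat_lit 0x1000100010000000000000001000100000000))) (.non (nat_lit 1) (nat_lit 4) (nat_lit 0x55050) (nat_lit 0x1000100010001000000000001000100000000))) (.non (nat_lit 1) (nat_lit 4) (nat_lit 0x55450) (nat_lit 0x1000100010001000100000001000100000000)))) (.split (nat_lit 9) (nat_lit 7) (.split (nat_lit 9) (nat_lit 3) (.split (nat_lit 9) (nat_lit 5) (.split (nat_lit 9) (nat_lit 6) (.unj (nat_lit 0x10054) (nat_lit 0x100000000000000000001000200020000) (nat_lit 0x41500) (nat_lit 0x1000000000001000200020000000000000000)) (.unj (nat_lit 0x10054) (nat_lit 0x100000000000000000001000200020000) (nat_lit 0x41500) (nat_lit 0x1000000000001000100010000000000000000))) (.split (nat_lit 9) (nat_lit 6) (.unj (nat_lit 0x40500) (nat_lit 0x1000000000000000100010000000000000000)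 (nat_lit 0x10054) (nat_lit 0x100000000000000000001000200020000)) (.non (nat_lit 1) (nat_lit 4) (nat_lit 0x41400) (nat_lit 0x1000000000001000100000000000000000000)))) (.split (nat_lit 9) (nat_lit 5) (.split (nat_lit 9) (nat_lit 6) (.sup (nat_lit 0x500000000000000000002000a00080000) (nat_lit 0x2000000000005000a00090000000000000000)) (.non (nat_lit 1) (nat_lit 4) (nat_lit 0x55050) (nat_lit 0x1000100010001000000000001000100000000))) (.non (nat_lit 1) (nat_lit 4) (nat_lit 0x55450) (nat_lit 0x1000100010001000100000001000100000000)))) (.non (nat_lit 1) (nat_lit 4) (nat_lit 0x55411) (nat_lit 0x2000200030002000100000000000100000001))))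

noncomputable def t757_131 : Tr := (.ex (nat_lit 3) (.ex (nat_lit 4) (.ex (nat_lit 5) (.split (nat_lit 8) (nat_lit 2) (.split (nat_lit 8) (nat_lit 7) (.pd (.cons (nat_lit 1) (nat_lit 6) (nat_lit 0) (nat_lit 0x280442200) (nat_lit 0xb71aef423f00000f423f54591f423f65b9700000f423f) (.cons (nat_lit 2) (nat_lit 6) (nat_lit 0) (nat_lit 0x770443000) (nat_lit 0xf423fb71ae00000f423f54591f423f00000f423fb71ae) .nil)) t757_129) (.non (nat_lit 1) (nat_lit 4) (nat_lit 0x1a810) (nat_lit 0x400030002000100000000000200000000))) (.non (nat_lit 1) (nat_lit 4) (nat_lit 0x2a050) (nat_lit 0x300020001000000000002000400000000))) (.split (nat_lit 9) (nat_lit 1) (.split (nat_lit 9) (nat_lit 2) (.split (nat_lit 9) (nat_lit 3) (.split (nat_lit 9) (nat_lit 6) (.split (nat_lit 9) (nat_lit 7) (.split (nat_lit 9) (nat_lit 8) (.split (nat_lit 9) (nat_lit 0) (.split (nat_lit 9) (nat_lit 4) (.unj (nat_lit 0x55) (nat_lit 0x1000200020001) (nat_lit 0x41500) (nat_lit 0x1000000000001000200020000000000000000)) (.unj (nat_lit 0x40500) (nat_lit 0x1000000000000000100010000000000000000)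 (nat_lit 0x55) (nat_lit 0x1000200020001))) (.split (nat_lit 9) (nat_lit 4) (.unj (nat_lit 0x10054) (nat_lit 0x100000000000000000001000200020000) (nat_lit 0x41500) (nat_lit 0x1000000000001000200020000000000000000)) (.unj (nat_lit 0x40500) (nat_lit 0x1000000000000000100010000000000000000) (nat_lit 0x10054) (nat_lit 0x100000000000000000001000200020000)))) (.non (nat_lit 1) (nat_lit 4) (nat_lit 0x55400) (nat_lit 0x1000100010001000100000000000000000000))) (.non (nat_lit 1) (nat_lit 4) (nat_lit 0x45400) (nat_lit 0x1000000010001000100000000000000000000))) (.non (nat_lit 1) (nat_lit 4) (nat_lit 0x41400) (nat_lit 0x1000000000001000100000000000000000000))) (.non (nat_lit 1) (nat_lit 4) (nat_lit 0x55450) (nat_lit 0x1000100010001000100000001000100000000))) (.star (nat_lit 9) (nat_lit 2) (nat_lit 5))) (.star (nat_lit 9) (nat_lit 1) (nat_lit 5)))) (.split (nat_lit 9) (nat_lit 1) (.split (nat_lit 9) (nat_lit 2) (.split (nat_lit 9) (nat_lit 8) t757_130 (.non (nat_lit 1) (nat_lit 5) (nat_lit 0x55150) (nat_lit 0x2000300020001000000010001000200000000)))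 (.star (nat_lit 9) (nat_lit 2) (nat_lit 4))) (.star (nat_lit 9) (nat_lit 1) (nat_lit 4)))) (.split (nat_lit 9) (nat_lit 2) (.split (nat_lit 9) (nat_lit 5) (.split (nat_lit 9) (nat_lit 6) (.split (nat_lit 9) (nat_lit 7) (.split (nat_lit 9) (nat_lit 8) (.split (nat_lit 9) (nat_lit 0) (.split (nat_lit 9) (nat_lit 1) (.split (nat_lit 9) (nat_lit 4) (.split (nat_lit 9) (nat_lit 3) (.split (nat_lit 8) (nat_lit 2) (.sup (nat_lit 0x3000c00160020001a0000000000000000) (nat_lit 0x2000000000000000000000005000700070004)) (.non (nat_lit 1) (nat_lit 4) (nat_lit 0x68050) (nat_lit 0x1000200010000000000000002000300000000))) (.split (nat_lit 9) (nat_lit 3) (.split (nat_lit 8) (nat_lit 2) (.sup (nat_lit 0x20007000b0010000d0000000000000000) (nat_lit 0x2000000000000000000000003000300030001)) (.non (nat_lit 1) (nat_lit 4) (nat_lit 0xa0050) (nat_lit 0x1000100000000000000000002000200000000))) (.non (nat_lit 1) (nat_lit 4) (nat_lit 0x54050) (nat_lit 0x3000200010000000000000004000300000000)))) (.unj (nat_lit 0x10015) (nat_lit 0x100000000000000000000000200020001)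 (nat_lit 0x41500) (nat_lit 0x1000000000001000200020000000000000000))) (.split (nat_lit 9) (nat_lit 4) (.sup (nat_lit 0x90000000000000000000000080007000a0000) (nat_lit 0x100040007000a00080000000000000000)) (.star (nat_lit 9) (nat_lit 1) (nat_lit 4)))) (.split (nat_lit 9) (nat_lit 1) (.split (nat_lit 9) (nat_lit 4) (.split (nat_lit 9) (nat_lit 0) (.split (nat_lit 9) (nat_lit 3) (.split (nat_lit 8) (nat_lit 2) (.sup (nat_lit 0x100030006000800060000000000000000) (nat_lit 0x1000000000000000000000001000100010001)) (.non (nat_lit 1) (nat_lit 4) (nat_lit 0x68050) (nat_lit 0x1000200010000000000000002000300000000))) (.non (nat_lit 1) (nat_lit 4) (nat_lit 0x600a1) (nat_lit 0x4000100000000000000000003000200000002))) (.sup (nat_lit 0x7000f00170020001a0000000000000000) (nat_lit 0x5000000000000000000000003000100030006))) (.sup (nat_lit 0x500000000000000000002000a00080000) (nat_lit 0x2000000000005000a00090000000000000000))) (.non (nat_lit 2) (nat_lit 4) (nat_lit 0x40005) (nat_lit 0x1000000000000000000000000000000010001))))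 (.non (nat_lit 1) (nat_lit 4) (nat_lit 0x50050) (nat_lit 0x1000100000000000000000001000100000000))) (.non (nat_lit 1) (nat_lit 4) (nat_lit 0x54050) (nat_lit 0x1000100010000000000000001000100000000))) (.non (nat_lit 1) (nat_lit 4) (nat_lit 0x55050) (nat_lit 0x1000100010001000000000001000100000000))) (.non (nat_lit 1) (nat_lit 4) (nat_lit 0x55450) (nat_lit 0x1000100010001000100000001000100000000))) (.non (nat_lit 1) (nat_lit 4) (nat_lit 0x40050) (nat_lit 0x1000000000000000000000001000100000000))))

noncomputable def t757_132 : Tr := (.ex (nat_lit 4) (.split (nat_lit 8) (nat_lit 2) (.split (nat_lit 8) (nat_lit 7) (.split (nat_lit 9) (nat_lit 7) (.split (nat_lit 9) (nat_lit 1) (.pd (.cons (nat_lit 1) (nat_lit 6) (nat_lit 0) (nat_lit 0x7280442200) (nat_lit 0xf423fa2c28b71ae00000f423f54591f423f5b8d400000f423f) (.cons (nat_lit 1) (nat_lit 7) (nat_lit 0) (nat_lit 0x9205442200) (nat_lit 0xf423ff423f00000f423fb71ae1f156f423f7a11d00000f423f) (.cons (nat_lit 2) (nat_lit 6) (nat_lit 0) (nat_lit 0x1790443000) (nat_lit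 0xa2c28f423fb71ae00000f423f54591f423f0000098965927bd) (.cons (nat_lit 2) (nat_lit 7) (nat_lit 0) (nat_lit 0x1805443000) (nat_lit 0xf423ff423f00000f423fb71ae1f156f423f00000b71aea2c28) .nil)))) (.leaf (.cons (nat_lit 0x50014) (nat_lit 0x1000100000000000000000000000200020000) (.cons (nat_lit 0x45500) (nat_lit 0x1000000020003000400030000000000000000) .nil)) .nil)) (.non (nat_lit 2) (nat_lit 4) (nat_lit 0xaa004) (nat_lit 0x2000100020001000000000000000000020000))) (.non (nat_lit 1) (nat_lit 4) (nat_lit 0x95000) (nat_lit 0x1000100020001000000000000000000000000))) (.non (nat_lit 1) (nat_lit 4) (nat_lit 0x65000) (nat_lit 0x1000100020001000000000000000000000000))) (.non (nat_lit 1) (nat_lit 4) (nat_lit 0xaa010) (nat_lit 0x1000200020001000000000000000200000000))) (.split (nat_lit 0xa) (nat_lit 1) (.split (nat_lit 0xa) (nat_lit 2) (.split (nat_lit 0xa) (nat_lit 5) (.split (nat_lit 0xa) (nat_lit 6) (.split (nat_lit 0xa) (nat_lit 7) (.split (nat_lit 0xa) (nat_lit 8) (.split (nat_lit 0xa) (nat_lit 9) (.split (nat_lit 0xa)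 (nat_lit 0) (.split (nat_lit 0xa) (nat_lit 3) (.unj (nat_lit 0x55) (nat_lit 0x1000200020001) (nat_lit 0x101500) (nat_lit 0x10000000000000001000200020000000000000000)) (.unj (nat_lit 0x10015) (nat_lit 0x100000000000000000000000200020001) (nat_lit 0x101500) (nat_lit 0x10000000000000001000200020000000000000000))) (.split (nat_lit 0xa) (nat_lit 3) (.unj (nat_lit 0x10054) (nat_lit 0x100000000000000000001000200020000) (nat_lit 0x101500) (nat_lit 0x10000000000000001000200020000000000000000)) (.non (nat_lit 1) (nat_lit 4) (nat_lit 0x155451) (nat_lit 0x20003000500060004000200000003000400000001)))) (.non (nat_lit 1) (nat_lit 4) (nat_lit 0x155410) (nat_lit 0x10002000200030002000100000000000100000000))) (.non (nat_lit 1) (nat_lit 4) (nat_lit 0x155010) (nat_lit 0x10001000200020001000000000000000100000000))) (.non (nat_lit 1) (nat_lit 4) (nat_lit 0x155000) (nat_lit 0x10001000100020001000000000000000000000000))) (.non (nat_lit 1) (nat_lit 4) (nat_lit 0x155400) (nat_lit 0x10001000100020002000100000000000000000000))) (.non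 (nat_lit 1) (nat_lit 4) (nat_lit 0x155450) (nat_lit 0x10002000300040003000200000001000200000000))) (.star (nat_lit 0xa) (nat_lit 2) (nat_lit 4))) (.star (nat_lit 0xa) (nat_lit 1) (nat_lit 4))))

noncomputable def t757_133 : Tr := (.split (nat_lit 9) (nat_lit 2) (.split (nat_lit 9) (nat_lit 3) (.split (nat_lit 9) (nat_lit 6) (.split (nat_lit 9) (nat_lit 7) (.split (nat_lit 9) (nat_lit 8) (.split (nat_lit 9) (nat_lit 1) (.split (nat_lit 8) (nat_lit 2) (.sup (nat_lit 0x50000000000000000000000000006000a0005) (nat_lit 0x100040007000a00080000000000000000)) (.non (nat_lit 1) (nat_lit 4) (nat_lit 0x2a050) (nat_lit 0x300020001000000000002000400000000))) (.sup (nat_lit 0x6000f00170020001a0000000000000000) (nat_lit 0x4000000000000000000000001000200060003))) (.split (nat_lit 9) (nat_lit 1) (.split (nat_lit 9) (nat_lit 8) (.split (nat_lit 8) (nat_lit 2) (.sup (nat_lit 0x10006000b0010000d0000000000000000) (nat_lit 0x1000000000000000000000001000200030002)) (.non (nat_lit 1) (nat_lit 4) (nat_lit 0xa8010) (nat_lit 0x1000200010000000000000000000200000000)))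 (.non (nat_lit 1) (nat_lit 4) (nat_lit 0x94010) (nat_lit 0x1000200010000000000000000000100000000))) (.non (nat_lit 2) (nat_lit 4) (nat_lit 0xa8005) (nat_lit 0x3000200010000000000000000000000040002)))) (.split (nat_lit 9) (nat_lit 8) (.st (nat_lit 5) (nat_lit 1) (nat_lit 4) (nat_lit 0x55450) (nat_lit 0x2000300040003000200000001000200000000) (nat_lit 1) (nat_lit 1) (.st (nat_lit 6) (nat_lit 1) (nat_lit 4) (nat_lit 0x55400) (nat_lit 0x1000100020002000100000000000000000000) (nat_lit 1) (nat_lit 1) t757_132)) (.non (nat_lit 1) (nat_lit 4) (nat_lit 0x54000) (nat_lit 0x1000100010000000000000000000000000000)))) (.split (nat_lit 9) (nat_lit 7) (.split (nat_lit 9) (nat_lit 8) (.sup (nat_lit 0x280050004a0025) (nat_lit 0x30000001c0037005000410000000000000000)) (.non (nat_lit 1) (nat_lit 4) (nat_lit 0x55000) (nat_lit 0x1000100010001000000000000000000000000))) (.non (nat_lit 1) (nat_lit 4) (nat_lit 0x45000) (nat_lit 0x1000000010001000000000000000000000000)))) (.split (nat_lit 9) (nat_lit 6) (.split (nat_lit 9) (nat_lit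 7) (.split (nat_lit 9) (nat_lit 8) (.sup (nat_lit 0x90000000000000000000000080007000a0000) (nat_lit 0x100040007000a00080000000000000000)) (.non (nat_lit 1) (nat_lit 4) (nat_lit 0x50050) (nat_lit 0x1000100000000000000000001000100000000))) (.non (nat_lit 1) (nat_lit 4) (nat_lit 0x54050) (nat_lit 0x1000100010000000000000001000100000000))) (.non (nat_lit 1) (nat_lit 4) (nat_lit 0x55050) (nat_lit 0x1000100010001000000000001000100000000)))) (.split (nat_lit 9) (nat_lit 3) (.split (nat_lit 9) (nat_lit 6) (.split (nat_lit 9) (nat_lit 7) (.split (nat_lit 9) (nat_lit 8) (.sup (nat_lit 0x90000000000000000000000000007000a0000) (nat_lit 0x100040007000a00080000000000000000)) (.non (nat_lit 1) (nat_lit 4) (nat_lit 0x50010) (nat_lit 0x1000100000000000000000000000100000000))) (.non (nat_lit 1) (nat_lit 4) (nat_lit 0x54010) (nat_lit 0x1000100010000000000000000000100000000))) (.non (nat_lit 1) (nat_lit 4) (nat_lit 0x55010) (nat_lit 0x1000100010001000000000000000100000000))) (.non (nat_lit 1) (nat_lit 4) (nat_lit 0x40050) (nat_lit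 0x1000000000000000000000001000100000000))))

noncomputable def t757_134 : Tr := (.split (nat_lit 9) (nat_lit 3) (.split (nat_lit 9) (nat_lit 4) (.split (nat_lit 9) (nat_lit 5) (.split (nat_lit 9) (nat_lit 6) (.split (nat_lit 9) (nat_lit 0) (.split (nat_lit 8) (nat_lit 2) (.sup (nat_lit 0x3000d00160020001a0000000000000000) (nat_lit 0x3000000000000000000000003000700080005)) (.non (nat_lit 1) (nat_lit 4) (nat_lit 0x2a050) (nat_lit 0x300020001000000000002000400000000))) (.split (nat_lit 9) (nat_lit 0) (.split (nat_lit 8) (nat_lit 2) (.sup (nat_lit 0x70000000000000000000000000006000a000a) (nat_lit 0x100040007000a00080000000000000000)) (.non (nat_lit 1) (nat_lit 4) (nat_lit 0x2a050) (nat_lit 0x300020001000000000002000400000000))) (.sup (nat_lit 0x800000000000000000000000000020007000a) (nat_lit 0x100040007000a00080000000000000000)))) (.sup (nat_lit 0x5000a00090002) (nat_lit 0x1000000030007000a00080000000000000000))) (.split (nat_lit 9) (nat_lit 6) (.unj (nat_lit 0x10054) (nat_lit 0x100000000000000000001000200020000)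 (nat_lit 0x41500) (nat_lit 0x1000000000001000200020000000000000000)) (.non (nat_lit 1) (nat_lit 4) (nat_lit 0x41400) (nat_lit 0x1000000000001000100000000000000000000)))) (.split (nat_lit 9) (nat_lit 5) (.split (nat_lit 9) (nat_lit 6) (.unj (nat_lit 0x10054) (nat_lit 0x100000000000000000001000200020000) (nat_lit 0x41500) (nat_lit 0x1000000000001000200020000000000000000)) (.unj (nat_lit 0x10054) (nat_lit 0x100000000000000000001000200020000) (nat_lit 0x41500) (nat_lit 0x1000000000001000100010000000000000000))) (.split (nat_lit 9) (nat_lit 6) (.unj (nat_lit 0x40500) (nat_lit 0x1000000000000000100010000000000000000) (nat_lit 0x10054) (nat_lit 0x100000000000000000001000200020000)) (.non (nat_lit 1) (nat_lit 4) (nat_lit 0x41400) (nat_lit 0x1000000000001000100000000000000000000))))) (.split (nat_lit 9) (nat_lit 5) (.split (nat_lit 9) (nat_lit 6) (.split (nat_lit 9) (nat_lit 4) (.split (nat_lit 9) (nat_lit 0) (.split (nat_lit 9) (nat_lit 3) (.split (nat_lit 8) (nat_lit 2) (.sup (nat_lit 0x100030006000800060000000000000000)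 (nat_lit 0x1000000000000000000000001000100010001)) (.non (nat_lit 1) (nat_lit 4) (nat_lit 0x68050) (nat_lit 0x1000200010000000000000002000300000000))) (.non (nat_lit 1) (nat_lit 4) (nat_lit 0x600a1) (nat_lit 0x4000100000000000000000003000200000002))) (.sup (nat_lit 0x7000f00170020001a0000000000000000) (nat_lit 0x5000000000000000000000003000100030006))) (.sup (nat_lit 0x500000000000000000002000a00080000) (nat_lit 0x2000000000005000a00090000000000000000))) (.non (nat_lit 1) (nat_lit 4) (nat_lit 0x55050) (nat_lit 0x1000100010001000000000001000100000000))) (.non (nat_lit 1) (nat_lit 4) (nat_lit 0x55450) (nat_lit 0x1000100010001000100000001000100000000))))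

noncomputable def t757_135 : Tr := (.ex (nat_lit 0) (.ex (nat_lit 1) (.ex (nat_lit 2) t757_131 (.split (nat_lit 9) (nat_lit 3) (.split (nat_lit 9) (nat_lit 4) (.split (nat_lit 9) (nat_lit 5) (.split (nat_lit 9) (nat_lit 6) (.split (nat_lit 9) (nat_lit 7) (.split (nat_lit 9) (nat_lit 8) (.split (nat_lit 9) (nat_lit 0) (.split (nat_lit 9) (nat_lit 1) (.split (nat_lit 9) (nat_lit 2) (.split (nat_lit 8) (nat_lit 2) (.sup (nat_lit 0x20007000b0010000d0000000000000000) (nat_lit 0x1000000000000000000000001000300030001)) (.non (nat_lit 1) (nat_lit 4) (nat_lit 0x6a010) (nat_lit 0x2000300020001000000000000000400000000))) (.non (nat_lit 1) (nat_lit 4) (nat_lit 0x90050) (nat_lit 0x1000100000000000000000001000200000000))) (.sup (nat_lit 0x90000000000000000000000000007000a0000) (nat_lit 0x100040007000a00080000000000000000))) (.split (nat_lit 9) (nat_lit 1) (.sup (nat_lit 0x80000000000000000000000000007000a0009) (nat_lit 0x100040007000a00080000000000000000)) (.non (nat_lit 2) (nat_lit 4) (nat_lit 0x40005) (nat_lit 0x1000000000000000000000000000000010001))))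 (.non (nat_lit 1) (nat_lit 4) (nat_lit 0x50010) (nat_lit 0x1000100000000000000000000000100000000))) (.non (nat_lit 1) (nat_lit 4) (nat_lit 0x54010) (nat_lit 0x1000100010000000000000000000100000000))) (.non (nat_lit 1) (nat_lit 4) (nat_lit 0x55010) (nat_lit 0x1000100010001000000000000000100000000))) (.star (nat_lit 9) (nat_lit 2) (nat_lit 5))) (.star (nat_lit 9) (nat_lit 2) (nat_lit 4))) (.non (nat_lit 1) (nat_lit 4) (nat_lit 0x40050) (nat_lit 0x1000000000000000000000001000100000000)))) (.split (nat_lit 9) (nat_lit 0) (.split (nat_lit 9) (nat_lit 4) (.split (nat_lit 9) (nat_lit 5) t757_133 (.star (nat_lit 9) (nat_lit 1) (nat_lit 5))) (.star (nat_lit 9) (nat_lit 1) (nat_lit 4))) (.non (nat_lit 2) (nat_lit 4) (nat_lit 0x40005) (nat_lit 0x1000000000000000000000000000000010001)))) (.split (nat_lit 9) (nat_lit 1) (.split (nat_lit 9) (nat_lit 7) (.split (nat_lit 9) (nat_lit 8) (.split (nat_lit 9) (nat_lit 2) t757_134 (.split (nat_lit 9) (nat_lit 3) (.split (nat_lit 9) (nat_lit 4) (.split (nat_lit 9) (nat_lit 5)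 (.split (nat_lit 9) (nat_lit 6) (.sup (nat_lit 0x80000000000000000000000000007000a0009) (nat_lit 0x100040007000a00080000000000000000)) (.non (nat_lit 1) (nat_lit 4) (nat_lit 0x55010) (nat_lit 0x1000100010001000000000000000100000000))) (.star (nat_lit 9) (nat_lit 2) (nat_lit 5))) (.star (nat_lit 9) (nat_lit 2) (nat_lit 4))) (.non (nat_lit 1) (nat_lit 4) (nat_lit 0x40050) (nat_lit 0x1000000000000000000000001000100000000)))) (.non (nat_lit 1) (nat_lit 4) (nat_lit 0x55051) (nat_lit 0x2000300020001000000000001000200000001))) (.non (nat_lit 1) (nat_lit 4) (nat_lit 0x55411) (nat_lit 0x2000200030002000100000000000100000001))) (.non (nat_lit 2) (nat_lit 4) (nat_lit 0x40005) (nat_lit 0x1000000000000000000000000000000010001))))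

noncomputable def t757_136 : Tr := (.ex (nat_lit 3) (.ex (nat_lit 4) (.split (nat_lit 8) (nat_lit 2) (.split (nat_lit 8) (nat_lit 7) (.split (nat_lit 6) (nat_lit 0) (.pd (.cons (nat_lit 0) (nat_lit 8) (nat_lit 0) (nat_lit 0x65442110) (nat_lit 0xf423fb71aea2c2804737f423fb71ae1f15600000) (.cons (nat_lit 1) (nat_lit 6) (nat_lit 0) (nat_lit 0x280442200) (nat_lit 0xb71aef423f00000f423f54591f423f65b9700000f423f) (.cons (nat_lit 1) (nat_lit 7) (nat_lit 0) (nat_lit 0x200652200) (nat_lit 0xf423f00000437a254591f423ff423f7a11d00000174ea) (.cons (nat_lit 2) (nat_lit 6) (nat_lit 0) (nat_lit 0x770443000) (nat_lit 0xf423fb71ae00000f423f54591f423f00000f423fb71ae) .nil)))) (.leaf (.cons (nat_lit 0x15014) (nat_lit 0x300020001000000000000000400030000) (.cons (nat_lit 0x10054) (nat_lit 0x100000000000000000001000200020000) (.cons (nat_lit 0x5501) (nat_lit 0x10002000200020000000000000001) (.cons (nat_lit 0x1505) (nat_lit 0x3000400030000000000010002) (.cons (nat_lit 0x10015) (nat_lit 0x100000000000000000000000200020001) .nil)))))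 (.cons (nat_lit 0x111100011) (nat_lit 0x10100) (nat_lit 0xc) (nat_lit 0x540100032) .nil))) (.non (nat_lit 1) (nat_lit 4) (nat_lit 0xa801) (nat_lit 0x10002000100000000000000000002))) (.non (nat_lit 1) (nat_lit 4) (nat_lit 0x1a810) (nat_lit 0x400030002000100000000000200000000))) (.non (nat_lit 1) (nat_lit 4) (nat_lit 0x2a050) (nat_lit 0x300020001000000000002000400000000))) (.split (nat_lit 9) (nat_lit 0) (.split (nat_lit 9) (nat_lit 1) (.split (nat_lit 9) (nat_lit 2) (.split (nat_lit 9) (nat_lit 5) (.split (nat_lit 9) (nat_lit 6) (.split (nat_lit 9) (nat_lit 7) (.split (nat_lit 9) (nat_lit 8) (.split (nat_lit 9) (nat_lit 3) (.unj (nat_lit 0x10054) (nat_lit 0x100000000000000000001000200020000) (nat_lit 0x41500) (nat_lit 0x1000000000001000200020000000000000000)) (.sup (nat_lit 0x500000000000000000002000a00080000) (nat_lit 0x2000000000005000a00090000000000000000))) (.non (nat_lit 1) (nat_lit 4) (nat_lit 0x55411) (nat_lit 0x1000200020002000100000000000100000001))) (.non (nat_lit 1) (nat_lit 4) (nat_lit 0x55401)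 (nat_lit 0x1000100020002000100000000000000000001))) (.non (nat_lit 1) (nat_lit 4) (nat_lit 0x45401) (nat_lit 0x1000000010002000100000000000000000001))) (.non (nat_lit 2) (nat_lit 4) (nat_lit 0x55405) (nat_lit 0x1000100020003000200000000000000010002))) (.star (nat_lit 9) (nat_lit 2) (nat_lit 4))) (.star (nat_lit 9) (nat_lit 1) (nat_lit 4))) (.non (nat_lit 2) (nat_lit 4) (nat_lit 0x45405) (nat_lit 0x1000000010002000100000000000000010002)))) (.split (nat_lit 9) (nat_lit 0) (.split (nat_lit 9) (nat_lit 2) (.split (nat_lit 9) (nat_lit 5) (.split (nat_lit 9) (nat_lit 6) (.split (nat_lit 9) (nat_lit 7) (.split (nat_lit 9) (nat_lit 8) (.split (nat_lit 9) (nat_lit 1) (.split (nat_lit 9) (nat_lit 4) (.split (nat_lit 9) (nat_lit 3) (.split (nat_lit 8) (nat_lit 2) (.split (nat_lit 8) (nat_lit 7) (.sup (nat_lit 0x4000b0010000d0000000000000003) (nat_lit 0x3000300000000000000000006000900060000)) (.non (nat_lit 1) (nat_lit 4) (nat_lit 0x1a810) (nat_lit 0x400030002000100000000000200000000))) (.non (nat_lit 1) (nat_lit 4)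 (nat_lit 0x68050) (nat_lit 0x1000200010000000000000002000300000000))) (.non (nat_lit 1) (nat_lit 4) (nat_lit 0x95451) (nat_lit 0x1000200020002000100000002000200000001))) (.sup (nat_lit 0x500000000000000000002000a00080000) (nat_lit 0x2000000000005000a00090000000000000000))) (.split (nat_lit 9) (nat_lit 4) (.sup (nat_lit 0x4000000000000000000000004000500030000) (nat_lit 0x20003000500040000000000000001)) (.star (nat_lit 9) (nat_lit 1) (nat_lit 4)))) (.non (nat_lit 1) (nat_lit 4) (nat_lit 0x50050) (nat_lit 0x1000100000000000000000001000100000000))) (.non (nat_lit 1) (nat_lit 4) (nat_lit 0x54050) (nat_lit 0x1000100010000000000000001000100000000))) (.non (nat_lit 1) (nat_lit 4) (nat_lit 0x55050) (nat_lit 0x1000100010001000000000001000100000000))) (.non (nat_lit 1) (nat_lit 4) (nat_lit 0x55450) (nat_lit 0x1000100010001000100000001000100000000))) (.non (nat_lit 1) (nat_lit 4) (nat_lit 0x40050) (nat_lit 0x1000000000000000000000001000100000000))) (.non (nat_lit 1) (nat_lit 4) (nat_lit 0x55051) (nat_lit 0x1000100010001000000000001000100000001))))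

noncomputable def t757_137 : Tr := (.ex (nat_lit 4) (.ex (nat_lit 5) (.split (nat_lit 8) (nat_lit 2) (.split (nat_lit 8) (nat_lit 7) (.split (nat_lit 7) (nat_lit 1) (.pd (.cons (nat_lit 1) (nat_lit 6) (nat_lit 0) (nat_lit 0x280442200) (nat_lit 0xb71aef423f00000f423f54591f423f65b9700000f423f) (.cons (nat_lit 1) (nat_lit 7) (nat_lit 0) (nat_lit 0x205442200) (nat_lit 0xf423f00000f423fb71ae1f156f423f7a11d00000f423f) (.cons (nat_lit 1) (nat_lit 8) (nat_lit 0) (nat_lit 0x65442200) (nat_lit 0xf423fb71aea2c2804737f423fb71ae00000f423f) (.cons (nat_lit 2) (nat_lit 6) (nat_lit 0) (nat_lit 0x710443000) (nat_lit 0xf423fb71ae00000f423f54591f423f00000a2c2898965) (.cons (nat_lit 2) (nat_lit 7) (nat_lit 0) (nat_lit 0x805443000) (nat_lit 0xf423f00000f423fb71ae1f156f423f00000f423fb71ae) .nil))))) (.leaf (.cons (nat_lit 0x14014) (nat_lit 0x100010000000000000000000100010000) (.cons (nat_lit 0x10054) (nat_lit 0x100000000000000000001000200020000) (.cons (nat_lit 0x5504) (nat_lit 0x20003000400030000000000010000) (.cons (nat_lit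 0x10015) (nat_lit 0x100000000000000000000000200020001) .nil)))) .nil)) (.non (nat_lit 2) (nat_lit 4) (nat_lit 0x2a004) (nat_lit 0x100020001000000000000000000020000))) (.non (nat_lit 1) (nat_lit 4) (nat_lit 0x1a810) (nat_lit 0x400030002000100000000000200000000))) (.non (nat_lit 1) (nat_lit 4) (nat_lit 0x2a050) (nat_lit 0x300020001000000000002000400000000))) (.split (nat_lit 9) (nat_lit 0) (.split (nat_lit 9) (nat_lit 1) (.split (nat_lit 9) (nat_lit 2) (.split (nat_lit 9) (nat_lit 3) (.split (nat_lit 9) (nat_lit 6) (.split (nat_lit 9) (nat_lit 7) (.split (nat_lit 9) (nat_lit 8) (.split (nat_lit 9) (nat_lit 4) (.unj (nat_lit 0x55) (nat_lit 0x1000200020001) (nat_lit 0x41500) (nat_lit 0x1000000000001000200020000000000000000)) (.unj (nat_lit 0x40500) (nat_lit 0x1000000000000000100010000000000000000) (nat_lit 0x55) (nat_lit 0x1000200020001))) (.non (nat_lit 1) (nat_lit 4) (nat_lit 0x55400) (nat_lit 0x1000100010001000100000000000000000000))) (.non (nat_lit 1) (nat_lit 4) (nat_lit 0x45400) (nat_lit 0x1000000010001000100000000000000000000)))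 (.non (nat_lit 1) (nat_lit 4) (nat_lit 0x41400) (nat_lit 0x1000000000001000100000000000000000000))) (.non (nat_lit 1) (nat_lit 4) (nat_lit 0x55450) (nat_lit 0x1000100010001000100000001000100000000))) (.star (nat_lit 9) (nat_lit 2) (nat_lit 5))) (.star (nat_lit 9) (nat_lit 1) (nat_lit 5))) (.non (nat_lit 2) (nat_lit 4) (nat_lit 0x45405) (nat_lit 0x1000000010001000100000000000000010001)))) (.split (nat_lit 9) (nat_lit 1) (.split (nat_lit 9) (nat_lit 2) (.split (nat_lit 9) (nat_lit 6) (.split (nat_lit 9) (nat_lit 7) (.split (nat_lit 9) (nat_lit 8) (.split (nat_lit 9) (nat_lit 0) (.split (nat_lit 9) (nat_lit 3) (.split (nat_lit 9) (nat_lit 5) (.unj (nat_lit 0x55) (nat_lit 0x1000200020001) (nat_lit 0x41500) (nat_lit 0x1000000000001000200020000000000000000)) (.unj (nat_lit 0x40500) (nat_lit 0x1000000000000000100010000000000000000) (nat_lit 0x55) (nat_lit 0x1000200020001))) (.split (nat_lit 9) (nat_lit 5) (.unj (nat_lit 0x10015) (nat_lit 0x100000000000000000000000200020001) (nat_lit 0x41500) (nat_lit 0x1000000000001000200020000000000000000))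 (.non (nat_lit 1) (nat_lit 4) (nat_lit 0x55450) (nat_lit 0x1000100010001000100000001000100000000)))) (.split (nat_lit 9) (nat_lit 3) (.split (nat_lit 9) (nat_lit 5) (.unj (nat_lit 0x10054) (nat_lit 0x100000000000000000001000200020000) (nat_lit 0x41500) (nat_lit 0x1000000000001000200020000000000000000)) (.non (nat_lit 2) (nat_lit 4) (nat_lit 0x45405) (nat_lit 0x1000000010001000100000000000000010001))) (.non (nat_lit 2) (nat_lit 5) (nat_lit 0x55145) (nat_lit 0x2000100020001000000010001000000020002)))) (.non (nat_lit 1) (nat_lit 5) (nat_lit 0x55150) (nat_lit 0x2000300020001000000010001000200000000))) (.non (nat_lit 2) (nat_lit 4) (nat_lit 0x55004) (nat_lit 0x1000100020001000000000000000000010000))) (.non (nat_lit 2) (nat_lit 4) (nat_lit 0x55404) (nat_lit 0x1000100020002000100000000000000010000))) (.star (nat_lit 9) (nat_lit 2) (nat_lit 4))) (.star (nat_lit 9) (nat_lit 1) (nat_lit 4))))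

noncomputable def t757_138 : Tr := (.ex (nat_lit 4) (.split (nat_lit 9) (nat_lit 3) (.split (nat_lit 7) (nat_lit 0) (.split (nat_lit 8) (nat_lit 2) (.split (nat_lit 8) (nat_lit 7) (.pd (.cons (nat_lit 0) (nat_lit 8) (nat_lit 0) (nat_lit 0x3065442110) (nat_lit 0xf423f00000f423fb71aea2c2804737b71aea2c280473700000) (.cons (nat_lit 1) (nat_lit 6) (nat_lit 0) (nat_lit 0x3700442800) (nat_lit 0xf423f98965927bd00000f423f54591b71aea2c28000008e6a2) (.cons (nat_lit 1) (nat_lit 7) (nat_lit 0) (nat_lit 0x3205442200) (nat_lit 0xf423ff423f00000f423fb71ae1f156b71ae65b9700000f423f) (.cons (nat_lit 2) (nat_lit 6) (nat_lit 0) (nat_lit 0x3700443000) (nat_lit 0xf423ff423fb71ae00000f423f54591b71ae00000f423f65b97) (.cons (nat_lit 2) (nat_lit 7) (nat_lit 0) (nat_lit 0x3805443000) (nat_lit 0xf423ff423f00000f423fb71ae1f156b71ae00000f423fb71ae) .nil))))) (.leaf (.cons (nat_lit 0x15014) (nat_lit 0x300020001000000000000000400030000) (.cons (nat_lit 0x10054) (nat_lit 0x100000000000000000001000200020000) (.cons (nat_lit 0x5501) (nat_lit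 0x20003000400030000000000000001) (.cons (nat_lit 0x10015) (nat_lit 0x100000000000000000000000200020001) .nil)))) .nil)) (.non (nat_lit 1) (nat_lit 4) (nat_lit 0x1a810) (nat_lit 0x400030002000100000000000200000000))) (.non (nat_lit 1) (nat_lit 4) (nat_lit 0x68050) (nat_lit 0x1000200010000000000000002000300000000))) (.non (nat_lit 1) (nat_lit 4) (nat_lit 0x2a001) (nat_lit 0x100020001000000000000000000000002))) (.non (nat_lit 1) (nat_lit 4) (nat_lit 0x95051) (nat_lit 0x1000200020001000000000002000200000001))) (.split (nat_lit 0xa) (nat_lit 0) (.split (nat_lit 0xa) (nat_lit 1) (.split (nat_lit 0xa) (nat_lit 2) (.split (nat_lit 0xa) (nat_lit 3) (.split (nat_lit 0xa) (nat_lit 5) (.split (nat_lit 0xa) (nat_lit 6) (.split (nat_lit 0xa) (nat_lit 7) (.split (nat_lit 0xa) (nat_lit 8) (.split (nat_lit 0xa) (nat_lit 9) (.unj (nat_lit 0x55) (nat_lit 0x1000200020001) (nat_lit 0x101500) (nat_lit 0x10000000000000001000200020000000000000000)) (.non (nat_lit 1) (nat_lit 4) (nat_lit 0x155451) (nat_lit 0x10002000500060004000200000003000400000003)))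 (.non (nat_lit 1) (nat_lit 4) (nat_lit 0x155450) (nat_lit 0x20001000400030002000100000002000300000000))) (.non (nat_lit 1) (nat_lit 4) (nat_lit 0x115001) (nat_lit 0x10000000100020001000000000000000000000001))) (.non (nat_lit 1) (nat_lit 4) (nat_lit 0x115401) (nat_lit 0x10000000100020002000100000000000000000001))) (.non (nat_lit 1) (nat_lit 4) (nat_lit 0x115451) (nat_lit 0x10000000300040003000200000001000200000002))) (.non (nat_lit 1) (nat_lit 4) (nat_lit 0x155051) (nat_lit 0x10001000200020001000000000002000200000001))) (.star (nat_lit 0xa) (nat_lit 2) (nat_lit 4))) (.star (nat_lit 0xa) (nat_lit 1) (nat_lit 4))) (.non (nat_lit 1) (nat_lit 4) (nat_lit 0x115411) (nat_lit 0x10000000200030002000100000000000100000002))))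

noncomputable def t757_139 : Tr := (.ex (nat_lit 3) (.ex (nat_lit 4) (.split (nat_lit 7) (nat_lit 0) (.split (nat_lit 8) (nat_lit 2) (.split (nat_lit 8) (nat_lit 7) (.pd (.cons (nat_lit 0) (nat_lit 8) (nat_lit 0) (nat_lit 0x65442110) (nat_lit 0xf423fb71aea2c2804737f423fb71ae1f15600000) (.cons (nat_lit 1) (nat_lit 6) (nat_lit 0) (nat_lit 0x700442800) (nat_lit 0xa2c289896500000f423f54591f423fb71ae00000927bd) (.cons (nat_lit 1) (nat_lit 7) (nat_lit 0) (nat_lit 0x205442200) (nat_lit 0xf423f00000f423fb71ae1f156f423f7a11d00000f423f) (.cons (nat_lit 2) (nat_lit 6) (nat_lit 0) (nat_lit 0x700443000) (nat_lit 0xf423fb71ae00000f423f54591f423f00000f423f65b97) (.cons (nat_lit 2) (nat_lit 7) (nat_lit 0) (nat_lit 0x805443000) (nat_lit 0xf423f00000f423fb71ae1f156f423f00000f423fb71ae) .nil))))) (.leaf (.cons (nat_lit 0x15014) (nat_lit 0x300020001000000000000000400030000) (.cons (nat_lit 0x10054) (nat_lit 0x100000000000000000001000200020000) (.cons (nat_lit 0x5501) (nat_lit 0x20003000400030000000000000001) (.cons (nat_lit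 0x10015) (nat_lit 0x100000000000000000000000200020001) .nil)))) .nil)) (.non (nat_lit 1) (nat_lit 4) (nat_lit 0x1a810) (nat_lit 0x400030002000100000000000200000000))) (.non (nat_lit 1) (nat_lit 4) (nat_lit 0x2a050) (nat_lit 0x300020001000000000002000400000000))) (.non (nat_lit 1) (nat_lit 4) (nat_lit 0x2a001) (nat_lit 0x100020001000000000000000000000002))) (.split (nat_lit 9) (nat_lit 0) (.split (nat_lit 9) (nat_lit 1) (.split (nat_lit 9) (nat_lit 2) (.split (nat_lit 9) (nat_lit 5) (.split (nat_lit 9) (nat_lit 6) (.split (nat_lit 9) (nat_lit 7) (.split (nat_lit 9) (nat_lit 8) (.split (nat_lit 9) (nat_lit 3) (.unj (nat_lit 0x55) (nat_lit 0x1000200020001) (nat_lit 0x41500) (nat_lit 0x1000000000001000200020000000000000000)) (.unj (nat_lit 0x10015) (nat_lit 0x100000000000000000000000200020001) (nat_lit 0x41500) (nat_lit 0x1000000000001000200020000000000000000))) (.non (nat_lit 1) (nat_lit 4) (nat_lit 0x55011) (nat_lit 0x1000200020001000000000000000100000001))) (.non (nat_lit 1) (nat_lit 4) (nat_lit 0x55001)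 (nat_lit 0x1000100020001000000000000000000000001))) (.non (nat_lit 1) (nat_lit 4) (nat_lit 0x55401) (nat_lit 0x1000100020002000100000000000000000001))) (.non (nat_lit 1) (nat_lit 4) (nat_lit 0x55451) (nat_lit 0x1000300040003000200000001000200000002))) (.star (nat_lit 9) (nat_lit 2) (nat_lit 4))) (.star (nat_lit 9) (nat_lit 1) (nat_lit 4))) (.non (nat_lit 1) (nat_lit 4) (nat_lit 0x55411) (nat_lit 0x1000200030002000100000000000100000002)))) (.split (nat_lit 9) (nat_lit 0) (.split (nat_lit 9) (nat_lit 2) (.split (nat_lit 9) (nat_lit 5) (.split (nat_lit 9) (nat_lit 6) (.split (nat_lit 9) (nat_lit 7) (.split (nat_lit 9) (nat_lit 8) (.split (nat_lit 9) (nat_lit 1) (.split (nat_lit 9) (nat_lit 4) (.st (nat_lit 3) (nat_lit 1) (nat_lit 4) (nat_lit 0x55051) (nat_lit 0x1000200020001000000000002000200000001) (nat_lit 1) (nat_lit 1) (.st (nat_lit 9) (nat_lit 1) (nat_lit 4) (nat_lit 0x55451) (nat_lit 0x2000500060004000200000003000400000003) (nat_lit 1) (nat_lit 1) t757_138)) (.unj (nat_lit 0x10015) (nat_lit 0x100000000000000000000000200020001)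 (nat_lit 0x41500) (nat_lit 0x1000000000001000200020000000000000000))) (.split (nat_lit 9) (nat_lit 4) (.sup (nat_lit 0x4000000000000000000000004000500030000) (nat_lit 0x20003000500040000000000000001)) (.star (nat_lit 9) (nat_lit 1) (nat_lit 4)))) (.non (nat_lit 1) (nat_lit 4) (nat_lit 0x50050) (nat_lit 0x1000100000000000000000001000100000000))) (.non (nat_lit 1) (nat_lit 4) (nat_lit 0x54050) (nat_lit 0x1000100010000000000000001000100000000))) (.non (nat_lit 1) (nat_lit 4) (nat_lit 0x55050) (nat_lit 0x1000100010001000000000001000100000000))) (.non (nat_lit 1) (nat_lit 4) (nat_lit 0x55450) (nat_lit 0x1000100010001000100000001000100000000))) (.non (nat_lit 1) (nat_lit 4) (nat_lit 0x40050) (nat_lit 0x1000000000000000000000001000100000000))) (.non (nat_lit 1) (nat_lit 4) (nat_lit 0x55411) (nat_lit 0x1000200030002000100000000000100000002))))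

noncomputable def t757_140 : Tr := (.ex (nat_lit 4) (.split (nat_lit 7) (nat_lit 0) (.split (nat_lit 8) (nat_lit 2) (.split (nat_lit 8) (nat_lit 7) (.split (nat_lit 9) (nat_lit 1) (.pd (.cons (nat_lit 1) (nat_lit 6) (nat_lit 0) (nat_lit 0x9700442800) (nat_lit 0xf423fa2c289896500000f423f54591f423fb71ae00000927bd) (.cons (nat_lit 1) (nat_lit 7) (nat_lit 0) (nat_lit 0x9205442200) (nat_lit 0xf423ff423f00000f423fb71ae1f156f423f7a11d00000f423f) (.cons (nat_lit 2) (nat_lit 6) (nat_lit 0) (nat_lit 0x1700443000) (nat_lit 0xf423ff423fb71ae00000f423f54591f423f00000b71ae51611) (.cons (nat_lit 2) (nat_lit 7) (nat_lit 0) (nat_lit 0x1805443000) (nat_lit 0xf423ff423f00000f423fb71ae1f156f423f00000b71aea2c28) .nil)))) (.leaf (.cons (nat_lit 0x50014) (nat_lit 0x1000100000000000000000000000200020000) (.cons (nat_lit 0x40054) (nat_lit 0x1000000000000000000000001000200020000) (.cons (nat_lit 0x5501) (nat_lit 0x20003000400030000000000000001) .nil))) .nil)) (.non (nat_lit 2) (nat_lit 4) (nat_lit 0x95005) (nat_lit 0x1000100020001000000000000000000020002)))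 (.non (nat_lit 1) (nat_lit 4) (nat_lit 0x1a810) (nat_lit 0x400030002000100000000000200000000))) (.non (nat_lit 1) (nat_lit 4) (nat_lit 0x2a050) (nat_lit 0x300020001000000000002000400000000))) (.non (nat_lit 1) (nat_lit 4) (nat_lit 0x2a001) (nat_lit 0x100020001000000000000000000000002))) (.split (nat_lit 0xa) (nat_lit 0) (.split (nat_lit 0xa) (nat_lit 1) (.split (nat_lit 0xa) (nat_lit 2) (.split (nat_lit 0xa) (nat_lit 5) (.split (nat_lit 0xa) (nat_lit 6) (.split (nat_lit 0xa) (nat_lit 7) (.split (nat_lit 0xa) (nat_lit 8) (.split (nat_lit 0xa) (nat_lit 3) (.split (nat_lit 0xa) (nat_lit 9) (.unj (nat_lit 0x55) (nat_lit 0x1000200020001) (nat_lit 0x101500) (nat_lit 0x10000000000000001000200020000000000000000)) (.unj (nat_lit 0x55) (nat_lit 0x1000200020001) (nat_lit 0x101500) (nat_lit 0x10000000000000001000200020000000000000000))) (.split (nat_lit 0xa) (nat_lit 9) (.unj (nat_lit 0x10015) (nat_lit 0x100000000000000000000000200020001) (nat_lit 0x101500) (nat_lit 0x10000000000000001000200020000000000000000)) (.non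 (nat_lit 1) (nat_lit 4) (nat_lit 0x155451) (nat_lit 0x20001000500060004000200000003000400000003)))) (.non (nat_lit 1) (nat_lit 4) (nat_lit 0x115011) (nat_lit 0x10000000200020001000000000000000100000001))) (.non (nat_lit 1) (nat_lit 4) (nat_lit 0x115001) (nat_lit 0x10000000100020001000000000000000000000001))) (.non (nat_lit 1) (nat_lit 4) (nat_lit 0x115401) (nat_lit 0x10000000100020002000100000000000000000001))) (.non (nat_lit 1) (nat_lit 4) (nat_lit 0x115451) (nat_lit 0x10000000300040003000200000001000200000002))) (.star (nat_lit 0xa) (nat_lit 2) (nat_lit 4))) (.star (nat_lit 0xa) (nat_lit 1) (nat_lit 4))) (.non (nat_lit 1) (nat_lit 4) (nat_lit 0x115411) (nat_lit 0x10000000200030002000100000000000100000002))))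

noncomputable def t757_141 : Tr := (.split (nat_lit 7) (nat_lit 0) (.split (nat_lit 7) (nat_lit 1) (.split (nat_lit 6) (nat_lit 0) t757_135 (.st (nat_lit 0) (nat_lit 2) (nat_lit 4) (nat_lit 0x5405) (nat_lit 0x10002000100000000000000010002) (nat_lit 1) (nat_lit 1) (.st (nat_lit 2) (nat_lit 1) (nat_lit 4) (nat_lit 0x15451) (nat_lit 0x200020002000100000001000200000001) (nat_lit 1) (nat_lit 1) (.st (nat_lit 5) (nat_lit 2) (nat_lit 4) (nat_lit 0x15405) (nat_lit 0x100020003000200000000000000010002) (nat_lit 1) (nat_lit 1) (.st (nat_lit 6) (nat_lit 1) (nat_lit 4) (nat_lit 0x5401) (nat_lit 0x10002000100000000000000000001) (nat_lit 1) (nat_lit 1) (.st (nat_lit 7) (nat_lit 1) (nat_lit 4) (nat_lit 0x15401) (nat_lit 0x100020002000100000000000000000001) (nat_lit 1) (nat_lit 1) (.st (nat_lit 8) (nat_lit 1) (nat_lit 4) (nat_lit 0x15411) (nat_lit 0x200020002000100000000000100000001) (nat_lit 1) (nat_lit 1) (.ex (nat_lit 1) t757_136 (.split (nat_lit 9) (nat_lit 0) (.split (nat_lit 9) (nat_lit 2) (.split (nat_lit 9) (nat_lit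 4) (.split (nat_lit 9) (nat_lit 5) (.split (nat_lit 9) (nat_lit 6) (.split (nat_lit 9) (nat_lit 7) (.split (nat_lit 9) (nat_lit 8) (.split (nat_lit 9) (nat_lit 3) (.sup (nat_lit 0x5000000000000000000000005000a00090000) (nat_lit 0x30007000a00080000000000000001)) (.sup (nat_lit 0x4000000000000000000000004000500030000) (nat_lit 0x20003000500040000000000000001))) (.non (nat_lit 1) (nat_lit 4) (nat_lit 0x55411) (nat_lit 0x1000200020002000100000000000100000001))) (.non (nat_lit 1) (nat_lit 4) (nat_lit 0x55401) (nat_lit 0x1000100020002000100000000000000000001))) (.non (nat_lit 1) (nat_lit 4) (nat_lit 0x45401) (nat_lit 0x1000000010002000100000000000000000001))) (.star (nat_lit 9) (nat_lit 1) (nat_lit 5))) (.star (nat_lit 9) (nat_lit 1) (nat_lit 4))) (.non (nat_lit 1) (nat_lit 4) (nat_lit 0x55451) (nat_lit 0x1000200020002000100000001000200000001))) (.non (nat_lit 2) (nat_lit 4) (nat_lit 0x40005) (nat_lit 0x1000000000000000000000000000000010001))))))))))) (.split (nat_lit 6) (nat_lit 0) (.st (nat_lit 6) (nat_lit 2)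 (nat_lit 4) (nat_lit 0x15404) (nat_lit 0x100020002000100000000000000010000) (nat_lit 1) (nat_lit 1) (.st (nat_lit 7) (nat_lit 2) (nat_lit 4) (nat_lit 0x15004) (nat_lit 0x100020001000000000000000000010000) (nat_lit 1) (nat_lit 1) t757_137)) (.non (nat_lit 2) (nat_lit 4) (nat_lit 0x5005) (nat_lit 0x10001000000000000000000010001)))) (.split (nat_lit 7) (nat_lit 1) (.split (nat_lit 6) (nat_lit 0) (.st (nat_lit 2) (nat_lit 1) (nat_lit 4) (nat_lit 0x15051) (nat_lit 0x200020001000000000001000200000001) (nat_lit 1) (nat_lit 1) (.st (nat_lit 5) (nat_lit 1) (nat_lit 4) (nat_lit 0x15451) (nat_lit 0x300040003000200000001000200000002) (nat_lit 1) (nat_lit 1) (.st (nat_lit 6) (nat_lit 1) (nat_lit 4) (nat_lit 0x15401) (nat_lit 0x100020002000100000000000000000001) (nat_lit 1) (nat_lit 1) (.st (nat_lit 7) (nat_lit 1) (nat_lit 4) (nat_lit 0x15001) (nat_lit 0x100020001000000000000000000000001) (nat_lit 1) (nat_lit 1) (.ex (nat_lit 1) t757_139 (.split (nat_lit 9) (nat_lit 0) (.split (nat_lit 9) (nat_lit 2) (.split (nat_lit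 9) (nat_lit 4) (.split (nat_lit 9) (nat_lit 5) (.split (nat_lit 9) (nat_lit 6) (.split (nat_lit 9) (nat_lit 7) (.split (nat_lit 9) (nat_lit 8) (.split (nat_lit 9) (nat_lit 3) t757_140 (.sup (nat_lit 0x4000000000000000000000004000500030000) (nat_lit 0x20003000500040000000000000001))) (.non (nat_lit 1) (nat_lit 4) (nat_lit 0x55011) (nat_lit 0x1000200020001000000000000000100000001))) (.non (nat_lit 1) (nat_lit 4) (nat_lit 0x55001) (nat_lit 0x1000100020001000000000000000000000001))) (.non (nat_lit 1) (nat_lit 4) (nat_lit 0x55401) (nat_lit 0x1000100020002000100000000000000000001))) (.star (nat_lit 9) (nat_lit 1) (nat_lit 5))) (.star (nat_lit 9) (nat_lit 1) (nat_lit 4))) (.non (nat_lit 1) (nat_lit 4) (nat_lit 0x55051) (nat_lit 0x1000200020001000000000001000200000001))) (.non (nat_lit 1) (nat_lit 4) (nat_lit 0x55411) (nat_lit 0x1000200030002000100000000000100000002)))))))) (.non (nat_lit 1) (nat_lit 4) (nat_lit 0x5001) (nat_lit 0x10001000000000000000000000001))) (.non (nat_lit 2) (nat_lit 4) (nat_lit 0x4005) (nat_lit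 0x10000000000000000000000010001))))

noncomputable def t757_142 : Tr := (.pd (.cons (nat_lit 0) (nat_lit 8) (nat_lit 0) (nat_lit 0x65442110) (nat_lit 0xf423fb71aea2c2804737f423fb71ae1f15600000) (.cons (nat_lit 1) (nat_lit 8) (nat_lit 0) (nat_lit 0x65442200) (nat_lit 0xf423fb71aea2c2804737f423fb71ae00000f423f) (.cons (nat_lit 2) (nat_lit 8) (nat_lit 0) (nat_lit 0x65443000) (nat_lit 0xf423fb71aea2c2804737f423f00000f423fb71ae) (.cons (nat_lit 3) (nat_lit 8) (nat_lit 0) (nat_lit 0x65440100) (nat_lit 0xf423fb71aea2c280473700000f423f54591437a2) .nil)))) (.ex (nat_lit 8) (.leaf (.cons (nat_lit 0x15014) (nat_lit 0x300020001000000000000000300040000) (.cons (nat_lit 0x10054) (nat_lit 0x100000000000000000001000200020000) (.cons (nat_lit 0x10015) (nat_lit 0x100000000000000000000000200020001) .nil))) (.cons (nat_lit 0x111000011) (nat_lit 0x100100) (nat_lit 3) (nat_lit 0x234000010) (.cons (nat_lit 0x110000011) (nat_lit 0x1000100) (nat_lit 2) (nat_lit 0x230000010) .nil))) (.split (nat_lit 9) (nat_lit 0) (.split (nat_lit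 9) (nat_lit 1) (.split (nat_lit 9) (nat_lit 2) (.split (nat_lit 9) (nat_lit 3) (.split (nat_lit 9) (nat_lit 4) (.split (nat_lit 9) (nat_lit 5) (.split (nat_lit 9) (nat_lit 6) (.split (nat_lit 9) (nat_lit 7) (.st (nat_lit 8) (nat_lit 2) (nat_lit 4) (nat_lit 0x54004) (nat_lit 0x1000200010000000000000000000000010000) (nat_lit 1) (nat_lit 1) (.st (nat_lit 9) (nat_lit 2) (nat_lit 4) (nat_lit 0x55005) (nat_lit 0x2000300020001000000000000000000020001) (nat_lit 1) (nat_lit 1) (.split (nat_lit 9) (nat_lit 8) (.leaf (.cons (nat_lit 0x54014) (nat_lit 0x1000200010000000000000000000200020000) (.cons (nat_lit 0x10054) (nat_lit 0x100000000000000000001000200020000) (.cons (nat_lit 0x10015) (nat_lit 0x100000000000000000000000200020001) .nil))) (.cons (nat_lit 0x1110000011) (nat_lit 0x1000100) (nat_lit 8) (nat_lit 0x2010000034) (.cons (nat_lit 0x1100000011) (nat_lit 0x10000100) (nat_lit 2) (nat_lit 0x3200000010) .nil))) (.non (nat_lit 2) (nat_lit 4) (nat_lit 0x94004) (nat_lit 0x1000200010000000000000000000000010000))))) (.non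 (nat_lit 1) (nat_lit 4) (nat_lit 0x54000) (nat_lit 0x1000100010000000000000000000000000000))) (.non (nat_lit 1) (nat_lit 4) (nat_lit 0x55000) (nat_lit 0x1000100010001000000000000000000000000))) (.non (nat_lit 1) (nat_lit 4) (nat_lit 0x55400) (nat_lit 0x1000100010001000100000000000000000000))) (.non (nat_lit 2) (nat_lit 5) (nat_lit 0x55105) (nat_lit 0x2000300020001000000010000000000020001))) (.non (nat_lit 2) (nat_lit 4) (nat_lit 0x55045) (nat_lit 0x2000300020001000000000001000000020001))) (.non (nat_lit 0) (nat_lit 8) (nat_lit 0x40054) (nat_lit 0x1000000000000000000000001000200020000))) (.non (nat_lit 2) (nat_lit 4) (nat_lit 0x50004) (nat_lit 0x1000100000000000000000000000000010000))) (.non (nat_lit 2) (nat_lit 4) (nat_lit 0x50005) (nat_lit 0x1000100000000000000000000000000010001)))))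

noncomputable def t757_143 : Tr := (.ex (nat_lit 6) (.pd (.cons (nat_lit 1) (nat_lit 7) (nat_lit 0) (nat_lit 0x805442200) (nat_lit 0xf423f00000f423fb71ae1f156f423fb71ae00000f423f) (.cons (nat_lit 2) (nat_lit 7) (nat_lit 0) (nat_lit 0x105443000) (nat_lit 0xf423f00000f423fb71ae1f156f423f00000b71aea2c28) .nil)) (.ex (nat_lit 7) t757_142 (.split (nat_lit 9) (nat_lit 0) (.split (nat_lit 9) (nat_lit 1) (.split (nat_lit 9) (nat_lit 3) (.split (nat_lit 9) (nat_lit 4) (.split (nat_lit 9) (nat_lit 5) (.split (nat_lit 9) (nat_lit 6) (.split (nat_lit 9) (nat_lit 8) (.split (nat_lit 9) (nat_lit 2) (.unj (nat_lit 0x55) (nat_lit 0x1000200020001) (nat_lit 0x45500) (nat_lit 0x1000000020003000400030000000000000000)) (.leaf (.cons (nat_lit 0x50014) (nat_lit 0x1000100000000000000000000000200020000) (.cons (nat_lit 0x45500) (nat_lit 0x1000000020003000400030000000000000000) .nil)) .nil)) (.non (nat_lit 1) (nat_lit 4) (nat_lit 0x54000) (nat_lit 0x1000100010000000000000000000000000000))) (.non (nat_lit 1) (nat_lit 4) (nat_lit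 0x45000) (nat_lit 0x1000000010001000000000000000000000000))) (.non (nat_lit 1) (nat_lit 4) (nat_lit 0x45400) (nat_lit 0x1000000010001000100000000000000000000))) (.non (nat_lit 1) (nat_lit 6) (nat_lit 0x54500) (nat_lit 0x3000100020000000300040000000000000000))) (.non (nat_lit 2) (nat_lit 4) (nat_lit 0x55444) (nat_lit 0x2000200030002000100000001000000010000))) (.non (nat_lit 2) (nat_lit 4) (nat_lit 0x54004) (nat_lit 0x1000100010000000000000000000000010000))) (.non (nat_lit 2) (nat_lit 4) (nat_lit 0x54005) (nat_lit 0x1000100010000000000000000000000010001))))) (.split (nat_lit 9) (nat_lit 0) (.split (nat_lit 9) (nat_lit 1) (.split (nat_lit 9) (nat_lit 5) (.split (nat_lit 9) (nat_lit 7) (.split (nat_lit 9) (nat_lit 8) (.split (nat_lit 9) (nat_lit 2) (.split (nat_lit 9) (nat_lit 3) (.split (nat_lit 9) (nat_lit 4) (.unj (nat_lit 0x55) (nat_lit 0x1000200020001) (nat_lit 0x45500) (nat_lit 0x1000000010002000200020000000000000000)) (.unj (nat_lit 0x55) (nat_lit 0x1000200020001) (nat_lit 0x41500) (nat_lit 0x1000000000001000100010000000000000000)))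 (.split (nat_lit 9) (nat_lit 4) (.sup (nat_lit 0x20009000a0005) (nat_lit 0x1000000030007000a00080000000000000000)) (.non (nat_lit 1) (nat_lit 6) (nat_lit 0x40550) (nat_lit 0x3000000000000000300040002000100000000)))) (.split (nat_lit 9) (nat_lit 3) (.split (nat_lit 9) (nat_lit 4) (.sup (nat_lit 0x25004a00500028) (nat_lit 0x30000001c0037005000410000000000000000)) (.star (nat_lit 9) (nat_lit 2) (nat_lit 4))) (.non (nat_lit 1) (nat_lit 4) (nat_lit 0x40050) (nat_lit 0x1000000000000000000000001000100000000)))) (.non (nat_lit 1) (nat_lit 4) (nat_lit 0x55000) (nat_lit 0x1000100010001000000000000000000000000))) (.non (nat_lit 1) (nat_lit 4) (nat_lit 0x45000) (nat_lit 0x1000000010001000000000000000000000000))) (.non (nat_lit 1) (nat_lit 4) (nat_lit 0x41400) (nat_lit 0x1000000000001000100000000000000000000))) (.non (nat_lit 2) (nat_lit 4) (nat_lit 0x55004) (nat_lit 0x1000100010001000000000000000000010000))) (.non (nat_lit 2) (nat_lit 4) (nat_lit 0x55005) (nat_lit 0x1000100010001000000000000000000010001))))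

noncomputable def t757_144 : Tr := (.split (nat_lit 9) (nat_lit 8) (.split (nat_lit 9) (nat_lit 0) (.split (nat_lit 9) (nat_lit 3) (.split (nat_lit 9) (nat_lit 5) (.split (nat_lit 9) (nat_lit 6) (.split (nat_lit 9) (nat_lit 7) (.unj (nat_lit 0x55) (nat_lit 0x1000200020001) (nat_lit 0x41500) (nat_lit 0x1000000000001000200020000000000000000)) (.unj (nat_lit 0x55) (nat_lit 0x1000200020001) (nat_lit 0x41500) (nat_lit 0x1000000000001000200020000000000000000))) (.split (nat_lit 9) (nat_lit 7) (.unj (nat_lit 0x55) (nat_lit 0x1000200020001) (nat_lit 0x41500) (nat_lit 0x1000000000001000100010000000000000000)) (.non (nat_lit 1) (nat_lit 4) (nat_lit 0x45000) (nat_lit 0x1000000010001000000000000000000000000)))) (.split (nat_lit 9) (nat_lit 6) (.split (nat_lit 9) (nat_lit 7) (.unj (nat_lit 0x40500) (nat_lit 0x1000000000000000100010000000000000000) (nat_lit 0x55) (nat_lit 0x1000200020001)) (.non (nat_lit 1) (nat_lit 4) (nat_lit 0x45400) (nat_lit 0x1000000010001000100000000000000000000))) (.non (nat_lit 1) (nat_lit 4)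 (nat_lit 0x41400) (nat_lit 0x1000000000001000100000000000000000000)))) (.split (nat_lit 9) (nat_lit 7) (.split (nat_lit 9) (nat_lit 5) (.split (nat_lit 9) (nat_lit 6) (.unj (nat_lit 0x10015) (nat_lit 0x100000000000000000000000200020001) (nat_lit 0x41500) (nat_lit 0x1000000000001000200020000000000000000)) (.unj (nat_lit 0x10015) (nat_lit 0x100000000000000000000000200020001) (nat_lit 0x41500) (nat_lit 0x1000000000001000100010000000000000000))) (.split (nat_lit 9) (nat_lit 6) (.unj (nat_lit 0x40500) (nat_lit 0x1000000000000000100010000000000000000) (nat_lit 0x10015) (nat_lit 0x100000000000000000000000200020001)) (.non (nat_lit 1) (nat_lit 4) (nat_lit 0x41400) (nat_lit 0x1000000000001000100000000000000000000)))) (.non (nat_lit 1) (nat_lit 5) (nat_lit 0x55140) (nat_lit 0x2000100020001000000010001000000000000)))) (.split (nat_lit 9) (nat_lit 5) (.split (nat_lit 9) (nat_lit 6) (.split (nat_lit 9) (nat_lit 7) (.split (nat_lit 9) (nat_lit 3) (.unj (nat_lit 0x10054) (nat_lit 0x100000000000000000001000200020000) (nat_lit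 0x41500) (nat_lit 0x1000000000001000200020000000000000000)) (.sup (nat_lit 0x5000000000000000000000008000a0002) (nat_lit 0x2000000000005000a00090000000000000000))) (.non (nat_lit 1) (nat_lit 5) (nat_lit 0x55101) (nat_lit 0x2000100020001000000010000000000000001))) (.non (nat_lit 2) (nat_lit 4) (nat_lit 0x55005) (nat_lit 0x1000100010001000000000000000000010001))) (.non (nat_lit 2) (nat_lit 4) (nat_lit 0x55405) (nat_lit 0x1000100010001000100000000000000010001)))) (.non (nat_lit 2) (nat_lit 5) (nat_lit 0x55105) (nat_lit 0x2000300020001000000010000000000020001)))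

noncomputable def t757_145 : Tr := (.split (nat_lit 9) (nat_lit 0) (.split (nat_lit 9) (nat_lit 1) (.split (nat_lit 9) (nat_lit 4) (.split (nat_lit 9) (nat_lit 5) (.split (nat_lit 9) (nat_lit 6) (.split (nat_lit 9) (nat_lit 3) (.split (nat_lit 8) (nat_lit 1) (.sup (nat_lit 0x3000d00160020001a0000000000000000) (nat_lit 0x3000000000000000000000005000800070003)) (.non (nat_lit 2) (nat_lit 4) (nat_lit 0x2a005) (nat_lit 0x300020001000000000000000000040002))) (.split (nat_lit 9) (nat_lit 3) (.split (nat_lit 8) (nat_lit 1) (.sup (nat_lit 0x700000000000000000000000a000a00060000) (nat_lit 0x100040007000a00080000000000000000)) (.non (nat_lit 2) (nat_lit 4) (nat_lit 0x2a005) (nat_lit 0x300020001000000000000000000040002))) (.sup (nat_lit 0x800000000000000000000000a000700020000) (nat_lit 0x100040007000a00080000000000000000)))) (.sup (nat_lit 0x20009000a0005) (nat_lit 0x1000000030007000a00080000000000000000))) (.split (nat_lit 9) (nat_lit 6) (.unj (nat_lit 0x10015) (nat_lit 0x100000000000000000000000200020001) (nat_lit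 0x41500) (nat_lit 0x1000000000001000200020000000000000000)) (.non (nat_lit 1) (nat_lit 4) (nat_lit 0x41400) (nat_lit 0x1000000000001000100000000000000000000)))) (.split (nat_lit 9) (nat_lit 5) (.split (nat_lit 9) (nat_lit 6) (.unj (nat_lit 0x10015) (nat_lit 0x100000000000000000000000200020001) (nat_lit 0x41500) (nat_lit 0x1000000000001000200020000000000000000)) (.unj (nat_lit 0x10015) (nat_lit 0x100000000000000000000000200020001) (nat_lit 0x41500) (nat_lit 0x1000000000001000100010000000000000000))) (.split (nat_lit 9) (nat_lit 6) (.unj (nat_lit 0x40500) (nat_lit 0x1000000000000000100010000000000000000) (nat_lit 0x10015) (nat_lit 0x100000000000000000000000200020001)) (.non (nat_lit 1) (nat_lit 4) (nat_lit 0x41400) (nat_lit 0x1000000000001000100000000000000000000))))) (.split (nat_lit 9) (nat_lit 4) (.split (nat_lit 9) (nat_lit 5) (.split (nat_lit 9) (nat_lit 6) (.sup (nat_lit 0x8000000000000000000000009000a00070000) (nat_lit 0x100040007000a00080000000000000000)) (.non (nat_lit 2) (nat_lit 4) (nat_lit 0x55004)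 (nat_lit 0x1000100010001000000000000000000010000))) (.star (nat_lit 9) (nat_lit 1) (nat_lit 5))) (.star (nat_lit 9) (nat_lit 1) (nat_lit 4)))) (.split (nat_lit 9) (nat_lit 1) (.split (nat_lit 9) (nat_lit 5) (.split (nat_lit 9) (nat_lit 6) (.split (nat_lit 9) (nat_lit 4) (.split (nat_lit 9) (nat_lit 0) (.split (nat_lit 9) (nat_lit 3) (.split (nat_lit 8) (nat_lit 1) (.sup (nat_lit 0x100030006000800060000000000000000) (nat_lit 0x1000000000000000000000001000100010001)) (.non (nat_lit 2) (nat_lit 4) (nat_lit 0x68005) (nat_lit 0x1000200010000000000000000000000030002))) (.sup (nat_lit 0x7000f00170020001a0000000000000000) (nat_lit 0x5000000000000000000000006000300010003))) (.non (nat_lit 2) (nat_lit 4) (nat_lit 0x90085) (nat_lit 0x2000100000000000000000001000000020003))) (.sup (nat_lit 0x5000000000000000000000008000a0002) (nat_lit 0x2000000000005000a00090000000000000000))) (.non (nat_lit 1) (nat_lit 4) (nat_lit 0x45441) (nat_lit 0x2000000010002000100000001000000000001))) (.non (nat_lit 2) (nat_lit 4) (nat_lit 0x55405)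 (nat_lit 0x1000100010001000100000000000000010001))) (.non (nat_lit 2) (nat_lit 4) (nat_lit 0x40005) (nat_lit 0x1000000000000000000000000000000010001))))

noncomputable def t757_146 : Tr := (.ex (nat_lit 4) (.split (nat_lit 9) (nat_lit 2) (.split (nat_lit 8) (nat_lit 7) (.split (nat_lit 9) (nat_lit 7) (.split (nat_lit 8) (nat_lit 1) (.pd (.cons (nat_lit 1) (nat_lit 6) (nat_lit 0) (nat_lit 0x2790442200) (nat_lit 0xa2c28f423fb71ae00000f423f54591f423f5b8d400000f423f) (.cons (nat_lit 1) (nat_lit 7) (nat_lit 0) (nat_lit 0x2805442200) (nat_lit 0xf423ff423f00000f423fb71ae1f156f423f7a11d00000f423f) (.cons (nat_lit 2) (nat_lit 6) (nat_lit 0) (nat_lit 0x7180443000) (nat_lit 0xf423fa2c28b71ae00000f423f54591f423f0000098965927bd) (.cons (nat_lit 2) (nat_lit 7) (nat_lit 0) (nat_lit 0x9105443000) (nat_lit 0xf423ff423f00000f423fb71ae1f156f423f00000b71aea2c28) .nil)))) (.leaf (.cons (nat_lit 0x50014) (nat_lit 0x1000100000000000000000000000200020000) (.cons (nat_lit 0x45500) (nat_lit 0x1000000020003000400030000000000000000)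 .nil)) .nil)) (.non (nat_lit 2) (nat_lit 4) (nat_lit 0xaa004) (nat_lit 0x1000200020001000000000000000000020000))) (.non (nat_lit 1) (nat_lit 4) (nat_lit 0x95000) (nat_lit 0x1000100020001000000000000000000000000))) (.non (nat_lit 1) (nat_lit 4) (nat_lit 0x65000) (nat_lit 0x1000100020001000000000000000000000000))) (.non (nat_lit 1) (nat_lit 4) (nat_lit 0xaa010) (nat_lit 0x2000100020001000000000000000200000000))) (.split (nat_lit 0xa) (nat_lit 1) (.split (nat_lit 0xa) (nat_lit 2) (.split (nat_lit 0xa) (nat_lit 5) (.split (nat_lit 0xa) (nat_lit 6) (.split (nat_lit 0xa) (nat_lit 7) (.split (nat_lit 0xa) (nat_lit 8) (.split (nat_lit 0xa) (nat_lit 9) (.split (nat_lit 0xa) (nat_lit 0) (.split (nat_lit 0xa) (nat_lit 3) (.unj (nat_lit 0x55) (nat_lit 0x1000200020001) (nat_lit 0x101500) (nat_lit 0x10000000000000001000200020000000000000000)) (.unj (nat_lit 0x10015) (nat_lit 0x100000000000000000000000200020001) (nat_lit 0x101500) (nat_lit 0x10000000000000001000200020000000000000000))) (.split (nat_lit 0xa) (nat_lit 3)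 (.unj (nat_lit 0x10054) (nat_lit 0x100000000000000000001000200020000) (nat_lit 0x101500) (nat_lit 0x10000000000000001000200020000000000000000)) (.non (nat_lit 1) (nat_lit 4) (nat_lit 0x155451) (nat_lit 0x20005000300060004000200000003000400000001)))) (.non (nat_lit 1) (nat_lit 4) (nat_lit 0x155010) (nat_lit 0x10002000100020001000000000000000100000000))) (.non (nat_lit 1) (nat_lit 4) (nat_lit 0x155410) (nat_lit 0x10002000200030002000100000000000100000000))) (.non (nat_lit 1) (nat_lit 4) (nat_lit 0x155000) (nat_lit 0x10001000100020001000000000000000000000000))) (.non (nat_lit 1) (nat_lit 4) (nat_lit 0x155400) (nat_lit 0x10001000100020002000100000000000000000000))) (.non (nat_lit 1) (nat_lit 4) (nat_lit 0x155450) (nat_lit 0x10003000200040003000200000001000200000000))) (.star (nat_lit 0xa) (nat_lit 2) (nat_lit 4))) (.star (nat_lit 0xa) (nat_lit 1) (nat_lit 4))))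

noncomputable def t757_147 : Tr := (.split (nat_lit 9) (nat_lit 0) (.split (nat_lit 9) (nat_lit 1) (.split (nat_lit 9) (nat_lit 6) (.split (nat_lit 9) (nat_lit 7) (.split (nat_lit 9) (nat_lit 8) (.split (nat_lit 9) (nat_lit 2) (.split (nat_lit 8) (nat_lit 1) (.sup (nat_lit 0x5000000000000000000000005000a00060000) (nat_lit 0x100040007000a00080000000000000000)) (.non (nat_lit 2) (nat_lit 4) (nat_lit 0x2a005) (nat_lit 0x300020001000000000000000000040002))) (.sup (nat_lit 0x6000f00170020001a0000000000000000) (nat_lit 0x4000000000000000000000003000600020001))) (.split (nat_lit 9) (nat_lit 2) (.split (nat_lit 9) (nat_lit 8) (.split (nat_lit 8) (nat_lit 1) (.sup (nat_lit 0x10006000b0010000d0000000000000000) (nat_lit 0x1000000000000000000000002000300020001)) (.non (nat_lit 2) (nat_lit 4) (nat_lit 0xa8004) (nat_lit 0x1000200010000000000000000000000020000))) (.non (nat_lit 1) (nat_lit 4) (nat_lit 0x6a010) (nat_lit 0x4000300020001000000000000000200000000))) (.non (nat_lit 1) (nat_lit 4) (nat_lit 0xa8050) (nat_lit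 0x3000200010000000000000002000400000000)))) (.split (nat_lit 9) (nat_lit 8) (.st (nat_lit 5) (nat_lit 1) (nat_lit 4) (nat_lit 0x55450) (nat_lit 0x3000200040003000200000001000200000000) (nat_lit 1) (nat_lit 1) (.st (nat_lit 6) (nat_lit 1) (nat_lit 4) (nat_lit 0x55400) (nat_lit 0x1000100020002000100000000000000000000) (nat_lit 1) (nat_lit 1) t757_146)) (.non (nat_lit 1) (nat_lit 4) (nat_lit 0x54000) (nat_lit 0x1000100010000000000000000000000000000)))) (.split (nat_lit 9) (nat_lit 7) (.split (nat_lit 9) (nat_lit 8) (.sup (nat_lit 0x25004a00500028) (nat_lit 0x30000001c0037005000410000000000000000)) (.non (nat_lit 1) (nat_lit 4) (nat_lit 0x55000) (nat_lit 0x1000100010001000000000000000000000000))) (.non (nat_lit 1) (nat_lit 4) (nat_lit 0x45000) (nat_lit 0x1000000010001000000000000000000000000)))) (.split (nat_lit 9) (nat_lit 6) (.split (nat_lit 9) (nat_lit 7) (.split (nat_lit 9) (nat_lit 8) (.sup (nat_lit 0x9000000000000000000000000000a00070000) (nat_lit 0x100040007000a00080000000000000000)) (.non (nat_lit 2)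 (nat_lit 4) (nat_lit 0x50004) (nat_lit 0x1000100000000000000000000000000010000))) (.non (nat_lit 2) (nat_lit 4) (nat_lit 0x54004) (nat_lit 0x1000100010000000000000000000000010000))) (.non (nat_lit 2) (nat_lit 4) (nat_lit 0x55004) (nat_lit 0x1000100010001000000000000000000010000)))) (.split (nat_lit 9) (nat_lit 1) (.split (nat_lit 9) (nat_lit 6) (.split (nat_lit 9) (nat_lit 7) (.split (nat_lit 9) (nat_lit 8) (.sup (nat_lit 0x9000000000000000000000000000a00070008) (nat_lit 0x100040007000a00080000000000000000)) (.non (nat_lit 2) (nat_lit 4) (nat_lit 0x50005) (nat_lit 0x1000100000000000000000000000000010001))) (.non (nat_lit 1) (nat_lit 4) (nat_lit 0x55011) (nat_lit 0x2000100020001000000000000000100000001))) (.non (nat_lit 1) (nat_lit 4) (nat_lit 0x45411) (nat_lit 0x2000000010002000100000000000100000001))) (.non (nat_lit 2) (nat_lit 4) (nat_lit 0x40005) (nat_lit 0x1000000000000000000000000000000010001))))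

noncomputable def t757_148 : Tr := (.ex (nat_lit 2) (.ex (nat_lit 3) (.ex (nat_lit 4) (.ex (nat_lit 5) (.split (nat_lit 8) (nat_lit 1) (.split (nat_lit 8) (nat_lit 7) (.pd (.cons (nat_lit 1) (nat_lit 6) (nat_lit 0) (nat_lit 0x770442200) (nat_lit 0xf423fb71ae00000f423f54591f423fb71ae00000f423f) (.cons (nat_lit 2) (nat_lit 6) (nat_lit 0) (nat_lit 0x180443000) (nat_lit 0xb71aef423f00000f423f54591f423f00000a2c2898965) .nil)) t757_143) (.non (nat_lit 2) (nat_lit 4) (nat_lit 0x1a804) (nat_lit 0x400030002000100000000000000020000))) (.non (nat_lit 2) (nat_lit 4) (nat_lit 0x2a005) (nat_lit 0x300020001000000000000000000040002))) (.split (nat_lit 9) (nat_lit 0) (.split (nat_lit 9) (nat_lit 1) (.split (nat_lit 9) (nat_lit 2) (.split (nat_lit 9) (nat_lit 6) (.split (nat_lit 9) (nat_lit 7) (.split (nat_lit 9) (nat_lit 8) (.split (nat_lit 9) (nat_lit 3) (.split (nat_lit 9) (nat_lit 4) (.unj (nat_lit 0x55) (nat_lit 0x1000200020001) (nat_lit 0x41500) (nat_lit 0x1000000000001000200020000000000000000)) (.unj (nat_lit 0x40500)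 (nat_lit 0x1000000000000000100010000000000000000) (nat_lit 0x55) (nat_lit 0x1000200020001))) (.split (nat_lit 9) (nat_lit 4) (.unj (nat_lit 0x10015) (nat_lit 0x100000000000000000000000200020001) (nat_lit 0x41500) (nat_lit 0x1000000000001000200020000000000000000)) (.unj (nat_lit 0x40500) (nat_lit 0x1000000000000000100010000000000000000) (nat_lit 0x10015) (nat_lit 0x100000000000000000000000200020001)))) (.non (nat_lit 1) (nat_lit 4) (nat_lit 0x55400) (nat_lit 0x1000100010001000100000000000000000000))) (.non (nat_lit 1) (nat_lit 4) (nat_lit 0x45400) (nat_lit 0x1000000010001000100000000000000000000))) (.non (nat_lit 1) (nat_lit 4) (nat_lit 0x41400) (nat_lit 0x1000000000001000100000000000000000000))) (.star (nat_lit 9) (nat_lit 2) (nat_lit 5))) (.star (nat_lit 9) (nat_lit 1) (nat_lit 5))) (.non (nat_lit 2) (nat_lit 4) (nat_lit 0x55405) (nat_lit 0x1000100010001000100000000000000010001)))) (.split (nat_lit 9) (nat_lit 1) (.split (nat_lit 9) (nat_lit 2) t757_144 (.star (nat_lit 9) (nat_lit 2) (nat_lit 4))) (.star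 (nat_lit 9) (nat_lit 1) (nat_lit 4)))) (.split (nat_lit 9) (nat_lit 2) (.split (nat_lit 9) (nat_lit 7) (.split (nat_lit 9) (nat_lit 8) t757_145 (.non (nat_lit 2) (nat_lit 4) (nat_lit 0x55045) (nat_lit 0x2000300020001000000000001000000020001))) (.non (nat_lit 2) (nat_lit 4) (nat_lit 0x55444) (nat_lit 0x2000200030002000100000001000000010000))) (.non (nat_lit 1) (nat_lit 4) (nat_lit 0x40050) (nat_lit 0x1000000000000000000000001000100000000)))) (.split (nat_lit 9) (nat_lit 3) (.split (nat_lit 9) (nat_lit 4) (.split (nat_lit 9) (nat_lit 5) t757_147 (.star (nat_lit 9) (nat_lit 2) (nat_lit 5))) (.star (nat_lit 9) (nat_lit 2) (nat_lit 4))) (.non (nat_lit 1) (nat_lit 4) (nat_lit 0x40050) (nat_lit 0x1000000000000000000000001000100000000))))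

noncomputable def t757_149 : Tr := (.ex (nat_lit 0) (.ex (nat_lit 1) t757_148 (.split (nat_lit 9) (nat_lit 0) (.split (nat_lit 9) (nat_lit 4) (.split (nat_lit 9) (nat_lit 5) (.split (nat_lit 9) (nat_lit 6) (.split (nat_lit 9) (nat_lit 7) (.split (nat_lit 9) (nat_lit 8) (.split (nat_lit 9) (nat_lit 2) (.split (nat_lit 9) (nat_lit 3) (.split (nat_lit 9) (nat_lit 1) (.split (nat_lit 8) (nat_lit 1) (.sup (nat_lit 0x20007000b0010000d0000000000000000) (nat_lit 0x1000000000000000000000001000300030001)) (.non (nat_lit 2) (nat_lit 4) (nat_lit 0x6a004) (nat_lit 0x2000300020001000000000000000000040000))) (.non (nat_lit 2) (nat_lit 4) (nat_lit 0x90005) (nat_lit 0x1000100000000000000000000000000020001))) (.sup (nat_lit 0x8000000000000000000000009000a00070000) (nat_lit 0x100040007000a00080000000000000000))) (.split (nat_lit 9) (nat_lit 3) (.sup (nat_lit 0x9000000000000000000000000000a00070000) (nat_lit 0x100040007000a00080000000000000000)) (.non (nat_lit 1) (nat_lit 4) (nat_lit 0x40050) (nat_lit 0x1000000000000000000000001000100000000))))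 (.non (nat_lit 2) (nat_lit 4) (nat_lit 0x50004) (nat_lit 0x1000100000000000000000000000000010000))) (.non (nat_lit 2) (nat_lit 4) (nat_lit 0x54004) (nat_lit 0x1000100010000000000000000000000010000))) (.non (nat_lit 2) (nat_lit 4) (nat_lit 0x55004) (nat_lit 0x1000100010001000000000000000000010000))) (.star (nat_lit 9) (nat_lit 1) (nat_lit 5))) (.star (nat_lit 9) (nat_lit 1) (nat_lit 4))) (.non (nat_lit 2) (nat_lit 4) (nat_lit 0x40005) (nat_lit 0x1000000000000000000000000000000010001)))) (.split (nat_lit 9) (nat_lit 1) (.split (nat_lit 9) (nat_lit 5) (.split (nat_lit 9) (nat_lit 6) (.split (nat_lit 9) (nat_lit 7) (.split (nat_lit 9) (nat_lit 8) (.split (nat_lit 9) (nat_lit 2) (.split (nat_lit 9) (nat_lit 3) (.split (nat_lit 9) (nat_lit 4) (.split (nat_lit 9) (nat_lit 0) (.split (nat_lit 8) (nat_lit 1) (.sup (nat_lit 0x3000c00160020001a0000000000000000) (nat_lit 0x2000000000000000000000004000700070005)) (.non (nat_lit 2) (nat_lit 4) (nat_lit 0x68005) (nat_lit 0x1000200010000000000000000000000030002))) (.split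 (nat_lit 9) (nat_lit 0) (.split (nat_lit 8) (nat_lit 1) (.sup (nat_lit 0x20007000b0010000d0000000000000000) (nat_lit 0x2000000000000000000000001000300030003)) (.non (nat_lit 2) (nat_lit 4) (nat_lit 0xa0005) (nat_lit 0x1000100000000000000000000000000020002))) (.non (nat_lit 2) (nat_lit 4) (nat_lit 0x54005) (nat_lit 0x3000200010000000000000000000000030004)))) (.unj (nat_lit 0x10054) (nat_lit 0x100000000000000000001000200020000) (nat_lit 0x41500) (nat_lit 0x1000000000001000200020000000000000000))) (.split (nat_lit 9) (nat_lit 4) (.split (nat_lit 9) (nat_lit 0) (.split (nat_lit 9) (nat_lit 3) (.split (nat_lit 8) (nat_lit 1) (.sup (nat_lit 0x100030006000800060000000000000000) (nat_lit 0x1000000000000000000000001000100010001)) (.non (nat_lit 2) (nat_lit 4) (nat_lit 0x68005) (nat_lit 0x1000200010000000000000000000000030002))) (.sup (nat_lit 0x7000f00170020001a0000000000000000) (nat_lit 0x5000000000000000000000006000300010003))) (.non (nat_lit 2) (nat_lit 4) (nat_lit 0x90085) (nat_lit 0x2000100000000000000000001000000020003)))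 (.sup (nat_lit 0x5000000000000000000000008000a0002) (nat_lit 0x2000000000005000a00090000000000000000)))) (.split (nat_lit 9) (nat_lit 3) (.split (nat_lit 9) (nat_lit 4) (.sup (nat_lit 0x9000000000000000000000000000a00070008) (nat_lit 0x100040007000a00080000000000000000)) (.star (nat_lit 9) (nat_lit 2) (nat_lit 4))) (.non (nat_lit 1) (nat_lit 4) (nat_lit 0x40050) (nat_lit 0x1000000000000000000000001000100000000)))) (.non (nat_lit 2) (nat_lit 4) (nat_lit 0x50005) (nat_lit 0x1000100000000000000000000000000010001))) (.non (nat_lit 2) (nat_lit 4) (nat_lit 0x54005) (nat_lit 0x1000100010000000000000000000000010001))) (.non (nat_lit 2) (nat_lit 4) (nat_lit 0x55005) (nat_lit 0x1000100010001000000000000000000010001))) (.non (nat_lit 2) (nat_lit 4) (nat_lit 0x55405) (nat_lit 0x1000100010001000100000000000000010001))) (.non (nat_lit 2) (nat_lit 4) (nat_lit 0x40005) (nat_lit 0x1000000000000000000000000000000010001))))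

noncomputable def t757_150 : Tr := (.ex (nat_lit 2) (.ex (nat_lit 4) (.split (nat_lit 8) (nat_lit 1) (.split (nat_lit 8) (nat_lit 7) (.split (nat_lit 6) (nat_lit 3) (.pd (.cons (nat_lit 1) (nat_lit 6) (nat_lit 0) (nat_lit 0x770442200) (nat_lit 0xf423fb71ae00000f423f54591f423fb71ae00000f423f) (.cons (nat_lit 2) (nat_lit 6) (nat_lit 0) (nat_lit 0x180443000) (nat_lit 0xb71aef423f00000f423f54591f423f00000a2c2898965) (.cons (nat_lit 2) (nat_lit 7) (nat_lit 0) (nat_lit 0x103653000) (nat_lit 0xf423f00000437a254591f423f174ea00000b71aea2c28) (.cons (nat_lit 3) (nat_lit 8) (nat_lit 0) (nat_lit 0x65440100) (nat_lit 0xf423fb71aea2c280473700000f423f54591437a2) .nil)))) (.leaf (.cons (nat_lit 0x15014) (nat_lit 0x300020001000000000000000300040000) (.cons (nat_lit 0x10054) (nat_lit 0x100000000000000000001000200020000) (.cons (nat_lit 0x5540) (nat_lit 0x10002000200020001000000000000) (.cons (nat_lit 0x1550) (nat_lit 0x3000400030002000100000000) (.cons (nat_lit 0x10015) (nat_lit 0x100000000000000000000000200020001) .nil)))))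 (.cons (nat_lit 0x111101100) (nat_lit 0x10010) (nat_lit 0xc) (nat_lit 0x540102300) .nil))) (.non (nat_lit 1) (nat_lit 4) (nat_lit 0xa840) (nat_lit 0x10002000100000002000000000000))) (.non (nat_lit 1) (nat_lit 4) (nat_lit 0x25440) (nat_lit 0x100020002000100000001000000000000))) (.non (nat_lit 2) (nat_lit 4) (nat_lit 0x2a884) (nat_lit 0x200020002000100000001000000020000))) (.split (nat_lit 9) (nat_lit 1) (.split (nat_lit 9) (nat_lit 2) (.split (nat_lit 9) (nat_lit 3) (.split (nat_lit 9) (nat_lit 5) (.split (nat_lit 9) (nat_lit 6) (.split (nat_lit 9) (nat_lit 7) (.split (nat_lit 9) (nat_lit 8) (.split (nat_lit 9) (nat_lit 0) (.unj (nat_lit 0x10015) (nat_lit 0x100000000000000000000000200020001) (nat_lit 0x41500) (nat_lit 0x1000000000001000200020000000000000000)) (.sup (nat_lit 0x5000000000000000000000008000a0002) (nat_lit 0x2000000000005000a00090000000000000000))) (.non (nat_lit 2) (nat_lit 4) (nat_lit 0x55444) (nat_lit 0x1000200020002000100000001000000010000))) (.non (nat_lit 1) (nat_lit 4) (nat_lit 0x55440)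 (nat_lit 0x1000100020002000100000001000000000000))) (.non (nat_lit 1) (nat_lit 4) (nat_lit 0x45440) (nat_lit 0x1000000010002000100000001000000000000))) (.non (nat_lit 1) (nat_lit 4) (nat_lit 0x55450) (nat_lit 0x1000100020003000200000002000100000000))) (.non (nat_lit 1) (nat_lit 4) (nat_lit 0x45450) (nat_lit 0x1000000010002000100000002000100000000))) (.star (nat_lit 9) (nat_lit 2) (nat_lit 4))) (.star (nat_lit 9) (nat_lit 1) (nat_lit 4)))) (.split (nat_lit 9) (nat_lit 1) (.split (nat_lit 9) (nat_lit 3) (.split (nat_lit 9) (nat_lit 4) (.split (nat_lit 9) (nat_lit 5) (.split (nat_lit 9) (nat_lit 6) (.split (nat_lit 9) (nat_lit 7) (.split (nat_lit 9) (nat_lit 8) (.split (nat_lit 9) (nat_lit 0) (.sup (nat_lit 0x50000000000000000000000000009000a0005) (nat_lit 0x30007000a00080001000000000000)) (.sup (nat_lit 0x4000000000000000000000000000300050004) (nat_lit 0x20003000500040001000000000000))) (.non (nat_lit 1) (nat_lit 4) (nat_lit 0x55050) (nat_lit 0x1000100010001000000000001000100000000))) (.non (nat_lit 1) (nat_lit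 4) (nat_lit 0x55440) (nat_lit 0x1000100020002000100000001000000000000))) (.non (nat_lit 1) (nat_lit 4) (nat_lit 0x45440) (nat_lit 0x1000000010002000100000001000000000000))) (.star (nat_lit 9) (nat_lit 2) (nat_lit 5))) (.star (nat_lit 9) (nat_lit 2) (nat_lit 4))) (.non (nat_lit 1) (nat_lit 4) (nat_lit 0x40050) (nat_lit 0x1000000000000000000000001000100000000))) (.non (nat_lit 2) (nat_lit 4) (nat_lit 0x55445) (nat_lit 0x1000200020002000100000001000000020001))))

noncomputable def t757_151 : Tr := (.ex (nat_lit 4) (.split (nat_lit 9) (nat_lit 2) (.split (nat_lit 7) (nat_lit 3) (.split (nat_lit 8) (nat_lit 7) (.split (nat_lit 8) (nat_lit 1) (.pd (.cons (nat_lit 1) (nat_lit 6) (nat_lit 0) (nat_lit 0x2730442200) (nat_lit 0xf423ff423fb71ae00000f423f54591a2c285b8d400000f423f) (.cons (nat_lit 1) (nat_lit 7) (nat_lit 0) (nat_lit 0x2805442200) (nat_lit 0xf423ff423f00000f423fb71ae1f156f423f7a11d00000f423f) (.cons (nat_lit 2) (nat_lit 6) (nat_lit 0) (nat_lit 0x9180447000) (nat_lit 0xf423fa2c28b71ae00000f423f54591f423f0000098965927bd)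 (.cons (nat_lit 2) (nat_lit 7) (nat_lit 0) (nat_lit 0x9105443000) (nat_lit 0xf423ff423f00000f423fb71ae1f156f423f00000b71aea2c28) .nil)))) (.leaf (.cons (nat_lit 0x50014) (nat_lit 0x1000100000000000000000000000200020000) (.cons (nat_lit 0x5540) (nat_lit 0x20003000400030001000000000000) (.cons (nat_lit 0x40015) (nat_lit 0x1000000000000000000000000000200020001) .nil))) .nil)) (.non (nat_lit 2) (nat_lit 4) (nat_lit 0x2a084) (nat_lit 0x200020001000000000001000000020000))) (.non (nat_lit 1) (nat_lit 4) (nat_lit 0x25040) (nat_lit 0x100020001000000000001000000000000))) (.non (nat_lit 1) (nat_lit 4) (nat_lit 0x2a040) (nat_lit 0x100020001000000000002000000000000))) (.non (nat_lit 1) (nat_lit 4) (nat_lit 0x95050) (nat_lit 0x1000100020001000000000002000200000000))) (.split (nat_lit 0xa) (nat_lit 1) (.split (nat_lit 0xa) (nat_lit 2) (.split (nat_lit 0xa) (nat_lit 3) (.split (nat_lit 0xa) (nat_lit 5) (.split (nat_lit 0xa) (nat_lit 6) (.split (nat_lit 0xa) (nat_lit 7) (.split (nat_lit 0xa) (nat_lit 8) (.split (nat_lit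 0xa) (nat_lit 0) (.split (nat_lit 0xa) (nat_lit 9) (.unj (nat_lit 0x55) (nat_lit 0x1000200020001) (nat_lit 0x101500) (nat_lit 0x10000000000000001000200020000000000000000)) (.unj (nat_lit 0x55) (nat_lit 0x1000200020001) (nat_lit 0x101500) (nat_lit 0x10000000000000001000200020000000000000000))) (.split (nat_lit 0xa) (nat_lit 9) (.unj (nat_lit 0x10054) (nat_lit 0x100000000000000000001000200020000) (nat_lit 0x101500) (nat_lit 0x10000000000000001000200020000000000000000)) (.non (nat_lit 1) (nat_lit 4) (nat_lit 0x155451) (nat_lit 0x20003000300060004000200000005000400000001)))) (.non (nat_lit 1) (nat_lit 4) (nat_lit 0x115450) (nat_lit 0x10000000200030002000100000002000100000000))) (.non (nat_lit 1) (nat_lit 4) (nat_lit 0x115040) (nat_lit 0x10000000100020001000000000001000000000000))) (.non (nat_lit 1) (nat_lit 4) (nat_lit 0x115440) (nat_lit 0x10000000100020002000100000001000000000000))) (.non (nat_lit 1) (nat_lit 4) (nat_lit 0x155450) (nat_lit 0x10001000200040003000200000003000200000000))) (.non (nat_lit 1) (nat_lit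 4) (nat_lit 0x115050) (nat_lit 0x10000000100020001000000000002000100000000))) (.star (nat_lit 0xa) (nat_lit 2) (nat_lit 4))) (.star (nat_lit 0xa) (nat_lit 1) (nat_lit 4))))

noncomputable def t757_152 : Tr := (.ex (nat_lit 2) (.ex (nat_lit 4) (.split (nat_lit 7) (nat_lit 3) (.split (nat_lit 8) (nat_lit 7) (.split (nat_lit 8) (nat_lit 1) (.pd (.cons (nat_lit 1) (nat_lit 6) (nat_lit 0) (nat_lit 0x730442200) (nat_lit 0xf423fb71ae00000f423f54591a2c289896500000f423f) (.cons (nat_lit 1) (nat_lit 7) (nat_lit 0) (nat_lit 0x805442200) (nat_lit 0xf423f00000f423fb71ae1f156f423fb71ae00000f423f) (.cons (nat_lit 2) (nat_lit 6) (nat_lit 0) (nat_lit 0x180447000) (nat_lit 0xa2c28b71ae00000f423f54591f423f0000098965927bd) (.cons (nat_lit 2) (nat_lit 7) (nat_lit 0) (nat_lit 0x105443000) (nat_lit 0xf423f00000f423fb71ae1f156f423f00000b71aea2c28) (.cons (nat_lit 3) (nat_lit 8) (nat_lit 0) (nat_lit 0x65440100) (nat_lit 0xf423fb71aea2c280473700000f423f54591437a2) .nil))))) (.leaf (.cons (nat_lit 0x15014) (nat_lit 0x300020001000000000000000300040000)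 (.cons (nat_lit 0x10054) (nat_lit 0x100000000000000000001000200020000) (.cons (nat_lit 0x5540) (nat_lit 0x20003000400030001000000000000) (.cons (nat_lit 0x10015) (nat_lit 0x100000000000000000000000200020001) .nil)))) .nil)) (.non (nat_lit 2) (nat_lit 4) (nat_lit 0x2a084) (nat_lit 0x200020001000000000001000000020000))) (.non (nat_lit 1) (nat_lit 4) (nat_lit 0x25040) (nat_lit 0x100020001000000000001000000000000))) (.non (nat_lit 1) (nat_lit 4) (nat_lit 0x2a040) (nat_lit 0x100020001000000000002000000000000))) (.split (nat_lit 9) (nat_lit 1) (.split (nat_lit 9) (nat_lit 2) (.split (nat_lit 9) (nat_lit 3) (.split (nat_lit 9) (nat_lit 5) (.split (nat_lit 9) (nat_lit 6) (.split (nat_lit 9) (nat_lit 7) (.split (nat_lit 9) (nat_lit 8) (.split (nat_lit 9) (nat_lit 0) (.unj (nat_lit 0x55) (nat_lit 0x1000200020001) (nat_lit 0x41500) (nat_lit 0x1000000000001000200020000000000000000)) (.unj (nat_lit 0x10054) (nat_lit 0x100000000000000000001000200020000) (nat_lit 0x41500) (nat_lit 0x1000000000001000200020000000000000000)))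 (.non (nat_lit 1) (nat_lit 4) (nat_lit 0x55450) (nat_lit 0x1000200030002000100000002000100000000))) (.non (nat_lit 1) (nat_lit 4) (nat_lit 0x55040) (nat_lit 0x1000100020001000000000001000000000000))) (.non (nat_lit 1) (nat_lit 4) (nat_lit 0x55440) (nat_lit 0x1000100020002000100000001000000000000))) (.non (nat_lit 2) (nat_lit 4) (nat_lit 0x55445) (nat_lit 0x1000300040003000200000002000000020001))) (.non (nat_lit 1) (nat_lit 4) (nat_lit 0x55050) (nat_lit 0x1000100020001000000000002000100000000))) (.star (nat_lit 9) (nat_lit 2) (nat_lit 4))) (.star (nat_lit 9) (nat_lit 1) (nat_lit 4)))) (.split (nat_lit 9) (nat_lit 1) (.split (nat_lit 9) (nat_lit 3) (.split (nat_lit 9) (nat_lit 4) (.split (nat_lit 9) (nat_lit 5) (.split (nat_lit 9) (nat_lit 6) (.split (nat_lit 9) (nat_lit 7) (.split (nat_lit 9) (nat_lit 8) (.split (nat_lit 9) (nat_lit 0) t757_151 (.sup (nat_lit 0x4000000000000000000000000000300050004) (nat_lit 0x20003000500040001000000000000))) (.non (nat_lit 1) (nat_lit 4) (nat_lit 0x54050) (nat_lit 0x1000100010000000000000001000100000000)))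 (.non (nat_lit 1) (nat_lit 4) (nat_lit 0x55040) (nat_lit 0x1000100020001000000000001000000000000))) (.non (nat_lit 1) (nat_lit 4) (nat_lit 0x55440) (nat_lit 0x1000100020002000100000001000000000000))) (.star (nat_lit 9) (nat_lit 2) (nat_lit 5))) (.star (nat_lit 9) (nat_lit 2) (nat_lit 4))) (.non (nat_lit 1) (nat_lit 4) (nat_lit 0x40050) (nat_lit 0x1000000000000000000000001000100000000))) (.non (nat_lit 2) (nat_lit 4) (nat_lit 0x55045) (nat_lit 0x1000200020001000000000001000000020001))))

noncomputable def t757_153 : Tr := (.ex (nat_lit 4) (.split (nat_lit 7) (nat_lit 3) (.split (nat_lit 8) (nat_lit 7) (.split (nat_lit 9) (nat_lit 0) (.split (nat_lit 8) (nat_lit 1) (.pd (.cons (nat_lit 1) (nat_lit 6) (nat_lit 0) (nat_lit 0x730442200) (nat_lit 0xf423ff423fb71ae00000f423f54591a2c289896500000b71ae) (.cons (nat_lit 1) (nat_lit 7) (nat_lit 0) (nat_lit 0x805442200) (nat_lit 0xf423ff423f00000f423fb71ae1f156f423fb71ae00000b71ae) (.cons (nat_lit 2) (nat_lit 6) (nat_lit 0) (nat_lit 0x180447000) (nat_lit 0xf423fa2c28b71ae00000f423f54591f423f00000989655572c)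 (.cons (nat_lit 2) (nat_lit 7) (nat_lit 0) (nat_lit 0x105443000) (nat_lit 0xf423ff423f00000f423fb71ae1f156f423f00000b71ae65b97) (.cons (nat_lit 3) (nat_lit 8) (nat_lit 0) (nat_lit 0x65440100) (nat_lit 0xf423f00000f423fb71aea2c280473700000f423f5459106711) .nil))))) (.leaf (.cons (nat_lit 0x15014) (nat_lit 0x300020001000000000000000300040000) (.cons (nat_lit 0x10054) (nat_lit 0x100000000000000000001000200020000) (.cons (nat_lit 0x5540) (nat_lit 0x20003000400030001000000000000) (.cons (nat_lit 0x10015) (nat_lit 0x100000000000000000000000200020001) .nil)))) .nil)) (.non (nat_lit 2) (nat_lit 4) (nat_lit 0x2a084) (nat_lit 0x200020001000000000001000000020000))) (.non (nat_lit 2) (nat_lit 4) (nat_lit 0x95045) (nat_lit 0x1000200020001000000000001000000020002))) (.non (nat_lit 1) (nat_lit 4) (nat_lit 0x25040) (nat_lit 0x100020001000000000001000000000000))) (.non (nat_lit 1) (nat_lit 4) (nat_lit 0x2a040) (nat_lit 0x100020001000000000002000000000000))) (.split (nat_lit 0xa) (nat_lit 0) (.split (nat_lit 0xa) (nat_lit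 1) (.split (nat_lit 0xa) (nat_lit 2) (.split (nat_lit 0xa) (nat_lit 3) (.split (nat_lit 0xa) (nat_lit 5) (.split (nat_lit 0xa) (nat_lit 6) (.split (nat_lit 0xa) (nat_lit 7) (.split (nat_lit 0xa) (nat_lit 8) (.split (nat_lit 0xa) (nat_lit 9) (.unj (nat_lit 0x55) (nat_lit 0x1000200020001) (nat_lit 0x101500) (nat_lit 0x10000000000000001000200020000000000000000)) (.non (nat_lit 2) (nat_lit 4) (nat_lit 0x155445) (nat_lit 0x10002000500060004000200000003000000040003))) (.non (nat_lit 1) (nat_lit 4) (nat_lit 0x115450) (nat_lit 0x10000000200030002000100000002000100000000))) (.non (nat_lit 1) (nat_lit 4) (nat_lit 0x115040) (nat_lit 0x10000000100020001000000000001000000000000))) (.non (nat_lit 1) (nat_lit 4) (nat_lit 0x115440) (nat_lit 0x10000000100020002000100000001000000000000))) (.non (nat_lit 2) (nat_lit 4) (nat_lit 0x115445) (nat_lit 0x10000000300040003000200000002000000020001))) (.non (nat_lit 1) (nat_lit 4) (nat_lit 0x115050) (nat_lit 0x10000000100020001000000000002000100000000))) (.star (nat_lit 0xa) (nat_lit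 2) (nat_lit 4))) (.star (nat_lit 0xa) (nat_lit 1) (nat_lit 4))) (.non (nat_lit 2) (nat_lit 4) (nat_lit 0x155045) (nat_lit 0x10001000200020001000000000001000000020002))))

noncomputable def t757_154 : Tr := (.split (nat_lit 9) (nat_lit 7) (.split (nat_lit 9) (nat_lit 8) (.split (nat_lit 9) (nat_lit 2) (.split (nat_lit 9) (nat_lit 4) (.st (nat_lit 0) (nat_lit 2) (nat_lit 4) (nat_lit 0x55045) (nat_lit 0x1000200020001000000000001000000020002) (nat_lit 1) (nat_lit 1) (.st (nat_lit 9) (nat_lit 2) (nat_lit 4) (nat_lit 0x55445) (nat_lit 0x2000500060004000200000003000000040003) (nat_lit 1) (nat_lit 1) (.ex (nat_lit 2) t757_153 (.split (nat_lit 0xa) (nat_lit 0) (.split (nat_lit 0xa) (nat_lit 1) (.split (nat_lit 0xa) (nat_lit 3) (.split (nat_lit 0xa) (nat_lit 4) (.split (nat_lit 0xa) (nat_lit 5) (.split (nat_lit 0xa) (nat_lit 6) (.split (nat_lit 0xa) (nat_lit 7) (.split (nat_lit 0xa) (nat_lit 8) (.split (nat_lit 0xa) (nat_lit 9) (.split (nat_lit 0xa) (nat_lit 2) (.split (nat_lit 9) (nat_lit 0) (.split (nat_lit 8) (nat_lit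 1) (.sup (nat_lit 0x10007000b0010000d0001000000000000) (nat_lit 0x20002000000000000000000000000000500050003)) (.non (nat_lit 2) (nat_lit 4) (nat_lit 0x2a084) (nat_lit 0x200020001000000000001000000020000))) (.non (nat_lit 2) (nat_lit 4) (nat_lit 0x95045) (nat_lit 0x1000200020001000000000001000000020002))) (.non (nat_lit 1) (nat_lit 4) (nat_lit 0x215050) (nat_lit 0x10000000100020001000000000002000200000000))) (.non (nat_lit 1) (nat_lit 4) (nat_lit 0x155451) (nat_lit 0x30002000300060004000200000005000400000001))) (.non (nat_lit 1) (nat_lit 4) (nat_lit 0x114050) (nat_lit 0x10000000100010000000000000001000100000000))) (.non (nat_lit 1) (nat_lit 4) (nat_lit 0x115040) (nat_lit 0x10000000100020001000000000001000000000000))) (.non (nat_lit 1) (nat_lit 4) (nat_lit 0x115440) (nat_lit 0x10000000100020002000100000001000000000000))) (.star (nat_lit 0xa) (nat_lit 2) (nat_lit 5))) (.star (nat_lit 0xa) (nat_lit 2) (nat_lit 4))) (.non (nat_lit 1) (nat_lit 4) (nat_lit 0x100050) (nat_lit 0x10000000000000000000000000001000100000000)))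 (.non (nat_lit 2) (nat_lit 4) (nat_lit 0x115045) (nat_lit 0x10000000200020001000000000001000000020001))) (.non (nat_lit 1) (nat_lit 4) (nat_lit 0x155451) (nat_lit 0x30001000300060004000200000005000400000002)))))) (.unj (nat_lit 0x10054) (nat_lit 0x100000000000000000001000200020000) (nat_lit 0x41500) (nat_lit 0x1000000000001000200020000000000000000))) (.split (nat_lit 9) (nat_lit 4) (.sup (nat_lit 0x4000000000000000000000000000300050004) (nat_lit 0x20003000500040001000000000000)) (.star (nat_lit 9) (nat_lit 2) (nat_lit 4)))) (.non (nat_lit 1) (nat_lit 4) (nat_lit 0x55450) (nat_lit 0x1000200030002000100000002000100000000))) (.non (nat_lit 1) (nat_lit 4) (nat_lit 0x55040) (nat_lit 0x1000100020001000000000001000000000000)))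

noncomputable def t757_155 : Tr := (.split (nat_lit 7) (nat_lit 3) (.split (nat_lit 6) (nat_lit 3) t757_149 (.st (nat_lit 1) (nat_lit 2) (nat_lit 4) (nat_lit 0x15445) (nat_lit 0x200020002000100000001000000020001) (nat_lit 1) (nat_lit 1) (.st (nat_lit 3) (nat_lit 1) (nat_lit 4) (nat_lit 0x5450) (nat_lit 0x10002000100000002000100000000) (nat_lit 1) (nat_lit 1) (.st (nat_lit 5) (nat_lit 1) (nat_lit 4) (nat_lit 0x15450) (nat_lit 0x100020003000200000002000100000000) (nat_lit 1) (nat_lit 1) (.st (nat_lit 6) (nat_lit 1) (nat_lit 4) (nat_lit 0x5440) (nat_lit 0x10002000100000001000000000000) (nat_lit 1) (nat_lit 1) (.st (nat_lit 7) (nat_lit 1) (nat_lit 4) (nat_lit 0x15440) (nat_lit 0x100020002000100000001000000000000) (nat_lit 1) (nat_lit 1) (.st (nat_lit 8) (nat_lit 2) (nat_lit 4) (nat_lit 0x15444) (nat_lit 0x200020002000100000001000000010000) (nat_lit 1) (nat_lit 1) (.ex (nat_lit 0) t757_150 (.split (nat_lit 9) (nat_lit 1) (.split (nat_lit 9) (nat_lit 3) (.split (nat_lit 9) (nat_lit 5) (.split (nat_lit 9) (nat_lit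 6) (.split (nat_lit 9) (nat_lit 7) (.split (nat_lit 9) (nat_lit 8) (.split (nat_lit 9) (nat_lit 2) (.split (nat_lit 9) (nat_lit 4) (.split (nat_lit 9) (nat_lit 0) (.split (nat_lit 8) (nat_lit 1) (.split (nat_lit 8) (nat_lit 7) (.sup (nat_lit 0x4000b0010000d0003000000000000) (nat_lit 0x3000300000000000000000000000600090006)) (.non (nat_lit 1) (nat_lit 4) (nat_lit 0x25440) (nat_lit 0x100020002000100000001000000000000))) (.non (nat_lit 2) (nat_lit 4) (nat_lit 0x2a884) (nat_lit 0x200020002000100000001000000020000))) (.non (nat_lit 2) (nat_lit 4) (nat_lit 0x95445) (nat_lit 0x1000200020002000100000001000000020002))) (.sup (nat_lit 0x5000000000000000000000008000a0002) (nat_lit 0x2000000000005000a00090000000000000000))) (.split (nat_lit 9) (nat_lit 4) (.sup (nat_lit 0x4000000000000000000000000000300050004) (nat_lit 0x20003000500040001000000000000)) (.star (nat_lit 9) (nat_lit 2) (nat_lit 4)))) (.non (nat_lit 2) (nat_lit 4) (nat_lit 0x55444) (nat_lit 0x1000200020002000100000001000000010000))) (.non (nat_lit 1) (nat_lit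 4) (nat_lit 0x55440) (nat_lit 0x1000100020002000100000001000000000000))) (.non (nat_lit 1) (nat_lit 4) (nat_lit 0x45440) (nat_lit 0x1000000010002000100000001000000000000))) (.non (nat_lit 1) (nat_lit 4) (nat_lit 0x55450) (nat_lit 0x1000100020003000200000002000100000000))) (.non (nat_lit 1) (nat_lit 4) (nat_lit 0x45450) (nat_lit 0x1000000010002000100000002000100000000))) (.non (nat_lit 2) (nat_lit 4) (nat_lit 0x40005) (nat_lit 0x1000000000000000000000000000000010001))))))))))) (.split (nat_lit 6) (nat_lit 3) (.st (nat_lit 1) (nat_lit 2) (nat_lit 4) (nat_lit 0x15045) (nat_lit 0x200020001000000000001000000020001) (nat_lit 1) (nat_lit 1) (.st (nat_lit 5) (nat_lit 2) (nat_lit 4) (nat_lit 0x15445) (nat_lit 0x300040003000200000002000000020001) (nat_lit 1) (nat_lit 1) (.st (nat_lit 6) (nat_lit 1) (nat_lit 4) (nat_lit 0x15440) (nat_lit 0x100020002000100000001000000000000) (nat_lit 1) (nat_lit 1) (.st (nat_lit 7) (nat_lit 1) (nat_lit 4) (nat_lit 0x15040) (nat_lit 0x100020001000000000001000000000000) (nat_lit 1) (nat_lit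 1) (.ex (nat_lit 0) t757_152 (.split (nat_lit 9) (nat_lit 1) (.split (nat_lit 9) (nat_lit 3) (.split (nat_lit 9) (nat_lit 5) (.split (nat_lit 9) (nat_lit 6) t757_154 (.non (nat_lit 1) (nat_lit 4) (nat_lit 0x55440) (nat_lit 0x1000100020002000100000001000000000000))) (.non (nat_lit 2) (nat_lit 4) (nat_lit 0x55405) (nat_lit 0x1000100010001000100000000000000010001))) (.non (nat_lit 1) (nat_lit 4) (nat_lit 0x55050) (nat_lit 0x1000100020001000000000002000100000000))) (.non (nat_lit 2) (nat_lit 4) (nat_lit 0x40005) (nat_lit 0x1000000000000000000000000000000010001)))))))) (.non (nat_lit 1) (nat_lit 4) (nat_lit 0x5040) (nat_lit 0x10001000000000001000000000000))))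

noncomputable def t757_156 : Tr := (.ex (nat_lit 4) (.ex (nat_lit 5) (.split (nat_lit 7) (nat_lit 2) (.split (nat_lit 8) (nat_lit 7) (.split (nat_lit 8) (nat_lit 1) (.pd (.cons (nat_lit 1) (nat_lit 6) (nat_lit 0) (nat_lit 0x720442200) (nat_lit 0xf423fb71ae00000f423f54591f423f65b9700000f423f) (.cons (nat_lit 1) (nat_lit 7) (nat_lit 0) (nat_lit 0x805442200) (nat_lit 0xf423f00000f423fb71ae1f156f423fb71ae00000f423f) (.cons (nat_lit 2) (nat_lit 6) (nat_lit 0) (nat_lit 0x180443000) (nat_lit 0xb71aef423f00000f423f54591f423f00000a2c2898965) (.cons (nat_lit 2) (nat_lit 7) (nat_lit 0) (nat_lit 0x105443000) (nat_lit 0xf423f00000f423fb71ae1f156f423f00000b71aea2c28) (.cons (nat_lit 2) (nat_lit 8) (nat_lit 0) (nat_lit 0x65443000) (nat_lit 0xf423fb71aea2c2804737f423f00000f423fb71ae) .nil))))) (.leaf (.cons (nat_lit 0x14014) (nat_lit 0x100010000000000000000000100010000) (.cons (nat_lit 0x10054) (nat_lit 0x100000000000000000001000200020000) (.cons (nat_lit 0x5510) (nat_lit 0x20003000400030000000100000000) (.cons (nat_lit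 0x10015) (nat_lit 0x100000000000000000000000200020001) .nil)))) .nil)) (.non (nat_lit 2) (nat_lit 4) (nat_lit 0x2a005) (nat_lit 0x300020001000000000000000000040002))) (.non (nat_lit 1) (nat_lit 4) (nat_lit 0x25010) (nat_lit 0x100020001000000000000000100000000))) (.non (nat_lit 1) (nat_lit 4) (nat_lit 0x2a010) (nat_lit 0x100020001000000000000000200000000))) (.split (nat_lit 9) (nat_lit 0) (.split (nat_lit 9) (nat_lit 1) (.split (nat_lit 9) (nat_lit 2) (.split (nat_lit 9) (nat_lit 3) (.split (nat_lit 9) (nat_lit 6) (.split (nat_lit 9) (nat_lit 7) (.split (nat_lit 9) (nat_lit 8) (.split (nat_lit 9) (nat_lit 4) (.unj (nat_lit 0x55) (nat_lit 0x1000200020001) (nat_lit 0x41500) (nat_lit 0x1000000000001000200020000000000000000)) (.unj (nat_lit 0x40500) (nat_lit 0x1000000000000000100010000000000000000) (nat_lit 0x55) (nat_lit 0x1000200020001))) (.non (nat_lit 1) (nat_lit 4) (nat_lit 0x55400) (nat_lit 0x1000100010001000100000000000000000000))) (.non (nat_lit 1) (nat_lit 4) (nat_lit 0x45400) (nat_lit 0x1000000010001000100000000000000000000)))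 (.non (nat_lit 1) (nat_lit 4) (nat_lit 0x41400) (nat_lit 0x1000000000001000100000000000000000000))) (.non (nat_lit 1) (nat_lit 4) (nat_lit 0x45450) (nat_lit 0x1000000010001000100000001000100000000))) (.star (nat_lit 9) (nat_lit 2) (nat_lit 5))) (.star (nat_lit 9) (nat_lit 1) (nat_lit 5))) (.non (nat_lit 2) (nat_lit 4) (nat_lit 0x55405) (nat_lit 0x1000100010001000100000000000000010001)))) (.split (nat_lit 9) (nat_lit 1) (.split (nat_lit 9) (nat_lit 2) (.split (nat_lit 9) (nat_lit 6) (.split (nat_lit 9) (nat_lit 7) (.split (nat_lit 9) (nat_lit 8) (.split (nat_lit 9) (nat_lit 0) (.split (nat_lit 9) (nat_lit 3) (.split (nat_lit 9) (nat_lit 5) (.unj (nat_lit 0x55) (nat_lit 0x1000200020001) (nat_lit 0x41500) (nat_lit 0x1000000000001000200020000000000000000)) (.unj (nat_lit 0x40500) (nat_lit 0x1000000000000000100010000000000000000) (nat_lit 0x55) (nat_lit 0x1000200020001))) (.split (nat_lit 9) (nat_lit 5) (.unj (nat_lit 0x10015) (nat_lit 0x100000000000000000000000200020001) (nat_lit 0x41500) (nat_lit 0x1000000000001000200020000000000000000))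 (.non (nat_lit 1) (nat_lit 4) (nat_lit 0x45450) (nat_lit 0x1000000010001000100000001000100000000)))) (.split (nat_lit 9) (nat_lit 3) (.split (nat_lit 9) (nat_lit 5) (.unj (nat_lit 0x10054) (nat_lit 0x100000000000000000001000200020000) (nat_lit 0x41500) (nat_lit 0x1000000000001000200020000000000000000)) (.non (nat_lit 2) (nat_lit 4) (nat_lit 0x55405) (nat_lit 0x1000100010001000100000000000000010001))) (.non (nat_lit 1) (nat_lit 5) (nat_lit 0x55151) (nat_lit 0x2000100020001000000010002000200000001)))) (.non (nat_lit 1) (nat_lit 4) (nat_lit 0x55450) (nat_lit 0x1000200030002000100000001000200000000))) (.non (nat_lit 1) (nat_lit 4) (nat_lit 0x55010) (nat_lit 0x1000100020001000000000000000100000000))) (.non (nat_lit 1) (nat_lit 4) (nat_lit 0x55410) (nat_lit 0x1000100020002000100000000000100000000))) (.star (nat_lit 9) (nat_lit 2) (nat_lit 4))) (.star (nat_lit 9) (nat_lit 1) (nat_lit 4))))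

noncomputable def t757_157 : Tr := (.ex (nat_lit 5) (.split (nat_lit 8) (nat_lit 3) (.split (nat_lit 8) (nat_lit 7) (.split (nat_lit 8) (nat_lit 1) (.pd (.cons (nat_lit 0) (nat_lit 8) (nat_lit 0) (nat_lit 0x65442110) (nat_lit 0xf423fb71aea2c2804737f423fb71ae1f15600000) (.cons (nat_lit 1) (nat_lit 6) (nat_lit 0) (nat_lit 0x380442200) (nat_lit 0xb71aef423f00000f423f54591a2c289896500000f423f) (.cons (nat_lit 1) (nat_lit 7) (nat_lit 0) (nat_lit 0x305442200) (nat_lit 0xf423f00000f423fb71ae1f156b71aea2c2800000f423f) (.cons (nat_lit 1) (nat_lit 8) (nat_lit 0) (nat_lit 0x65442200) (nat_lit 0xf423fb71aea2c2804737f423fb71ae00000f423f) (.cons (nat_lit 2) (nat_lit 6) (nat_lit 0) (nat_lit 0x180448000) (nat_lit 0x7a11df423f00000f423f54591f423f000007a11b7a119) (.cons (nat_lit 2) (nat_lit 7) (nat_lit 0) (nat_lit 0x105448000) (nat_lit 0xb71ae00000f423fb71ae1f156f423f00000a2c2898965) (.cons (nat_lit 2) (nat_lit 8) (nat_lit 0) (nat_lit 0x65443000) (nat_lit 0xf423fb71aea2c2804737f423f00000f423fb71ae) (.cons (nat_lit 3) (nat_lit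 8) (nat_lit 0) (nat_lit 0x65440100) (nat_lit 0xf423fb71aea2c280473700000f423f54591437a2) .nil)))))))) (.leaf (.cons (nat_lit 0x15014) (nat_lit 0x300020001000000000000000300040000) (.cons (nat_lit 0x10054) (nat_lit 0x100000000000000000001000100010000) (.cons (nat_lit 0x10015) (nat_lit 0x100000000000000000000000200020001) .nil))) .nil)) (.non (nat_lit 2) (nat_lit 4) (nat_lit 0x28084) (nat_lit 0x200010000000000000001000000020000))) (.non (nat_lit 1) (nat_lit 4) (nat_lit 0x1a840) (nat_lit 0x400030002000100000002000000000000))) (.non (nat_lit 1) (nat_lit 4) (nat_lit 0x2a050) (nat_lit 0x300020001000000000004000200000000))) (.split (nat_lit 9) (nat_lit 0) (.split (nat_lit 9) (nat_lit 1) (.split (nat_lit 9) (nat_lit 2) (.split (nat_lit 9) (nat_lit 3) (.split (nat_lit 9) (nat_lit 6) (.split (nat_lit 9) (nat_lit 7) (.split (nat_lit 9) (nat_lit 8) (.split (nat_lit 9) (nat_lit 4) (.unj (nat_lit 0x55) (nat_lit 0x1000200020001) (nat_lit 0x41500) (nat_lit 0x1000000000001000200020000000000000000)) (.unj (nat_lit 0x40500)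 (nat_lit 0x1000000000000000100010000000000000000) (nat_lit 0x55) (nat_lit 0x1000200020001))) (.non (nat_lit 1) (nat_lit 4) (nat_lit 0x55400) (nat_lit 0x1000100010001000100000000000000000000))) (.non (nat_lit 1) (nat_lit 4) (nat_lit 0x45400) (nat_lit 0x1000000010001000100000000000000000000))) (.non (nat_lit 1) (nat_lit 4) (nat_lit 0x41400) (nat_lit 0x1000000000001000100000000000000000000))) (.non (nat_lit 1) (nat_lit 4) (nat_lit 0x55440) (nat_lit 0x1000100010001000100000001000000000000))) (.star (nat_lit 9) (nat_lit 2) (nat_lit 5))) (.star (nat_lit 9) (nat_lit 1) (nat_lit 5))) (.non (nat_lit 2) (nat_lit 4) (nat_lit 0x55405) (nat_lit 0x1000100010001000100000000000000010001))))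

noncomputable def t757_158 : Tr := (.ex (nat_lit 2) (.ex (nat_lit 4) t757_157 (.split (nat_lit 9) (nat_lit 0) (.split (nat_lit 9) (nat_lit 1) (.split (nat_lit 9) (nat_lit 2) (.split (nat_lit 9) (nat_lit 3) (.split (nat_lit 9) (nat_lit 6) (.split (nat_lit 9) (nat_lit 7) (.split (nat_lit 9) (nat_lit 8) (.split (nat_lit 9) (nat_lit 5) (.unj (nat_lit 0x55) (nat_lit 0x1000200020001) (nat_lit 0x41500) (nat_lit 0x1000000000001000200020000000000000000)) (.unj (nat_lit 0x40500) (nat_lit 0x1000000000000000100010000000000000000) (nat_lit 0x55) (nat_lit 0x1000200020001))) (.non (nat_lit 1) (nat_lit 5) (nat_lit 0x55150) (nat_lit 0x2000300020001000000010002000100000000))) (.non (nat_lit 2) (nat_lit 4) (nat_lit 0x55044) (nat_lit 0x1000200020001000000000001000000010000))) (.non (nat_lit 2) (nat_lit 4) (nat_lit 0x55444) (nat_lit 0x1000200020002000100000001000000010000))) (.non (nat_lit 2) (nat_lit 4) (nat_lit 0x55045) (nat_lit 0x1000300020001000000000002000000020001))) (.star (nat_lit 9) (nat_lit 2) (nat_lit 4))) (.star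 (nat_lit 9) (nat_lit 1) (nat_lit 4))) (.non (nat_lit 2) (nat_lit 4) (nat_lit 0x55445) (nat_lit 0x1000400030002000100000002000000030002)))) (.split (nat_lit 9) (nat_lit 0) (.split (nat_lit 9) (nat_lit 1) (.split (nat_lit 9) (nat_lit 3) (.split (nat_lit 9) (nat_lit 4) (.split (nat_lit 9) (nat_lit 5) (.split (nat_lit 9) (nat_lit 6) (.split (nat_lit 9) (nat_lit 7) (.split (nat_lit 9) (nat_lit 8) (.split (nat_lit 9) (nat_lit 2) (.split (nat_lit 8) (nat_lit 1) (.split (nat_lit 8) (nat_lit 3) (.sup (nat_lit 0x10006000b0010000d0000000000000000) (nat_lit 0x2000000000000000000000001000300020001)) (.non (nat_lit 1) (nat_lit 4) (nat_lit 0x68050) (nat_lit 0x1000200010000000000000003000200000000))) (.non (nat_lit 2) (nat_lit 4) (nat_lit 0x28084) (nat_lit 0x200010000000000000001000000020000))) (.split (nat_lit 9) (nat_lit 2) (.split (nat_lit 8) (nat_lit 1) (.sup (nat_lit 0x7000000000000000000000000000a00060000) (nat_lit 0x100040007000a00080000000000000000)) (.non (nat_lit 2) (nat_lit 4) (nat_lit 0x28084) (nat_lit 0x200010000000000000001000000020000)))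 (.non (nat_lit 1) (nat_lit 4) (nat_lit 0x54050) (nat_lit 0x3000200010000000000000003000400000000)))) (.non (nat_lit 1) (nat_lit 4) (nat_lit 0x50050) (nat_lit 0x1000100000000000000000001000100000000))) (.non (nat_lit 1) (nat_lit 4) (nat_lit 0x54050) (nat_lit 0x1000100010000000000000001000100000000))) (.non (nat_lit 1) (nat_lit 4) (nat_lit 0x55050) (nat_lit 0x1000100010001000000000001000100000000))) (.star (nat_lit 9) (nat_lit 2) (nat_lit 5))) (.star (nat_lit 9) (nat_lit 2) (nat_lit 4))) (.non (nat_lit 1) (nat_lit 4) (nat_lit 0x40050) (nat_lit 0x1000000000000000000000001000100000000))) (.non (nat_lit 2) (nat_lit 4) (nat_lit 0x54045) (nat_lit 0x1000200010000000000000001000000020001))) (.non (nat_lit 2) (nat_lit 4) (nat_lit 0x55445) (nat_lit 0x1000400030002000100000002000000030002))))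

noncomputable def t757_159 : Tr := (.ex (nat_lit 6) (.pd (.cons (nat_lit 1) (nat_lit 7) (nat_lit 0) (nat_lit 0x205442200) (nat_lit 0xf423f00000f423fb71ae1f156f423f7a11d00000f423f) (.cons (nat_lit 2) (nat_lit 7) (nat_lit 0) (nat_lit 0x105443000) (nat_lit 0xf423f00000f423fb71ae1f156f423f00000b71aea2c28) .nil)) (.ex (nat_lit 7) (.pd (.cons (nat_lit 0) (nat_lit 8) (nat_lit 0) (nat_lit 0x65442110) (nat_lit 0xf423fb71aea2c2804737f423fb71ae1f15600000) (.cons (nat_lit 1) (nat_lit 8) (nat_lit 0) (nat_lit 0x65442200) (nat_lit 0xf423fb71aea2c2804737f423fb71ae00000f423f) (.cons (nat_lit 2) (nat_lit 8) (nat_lit 0) (nat_lit 0x65443000) (nat_lit 0xf423fb71aea2c2804737f423f00000f423fb71ae) (.cons (nat_lit 3) (nat_lit 8) (nat_lit 0) (nat_lit 0x65440100) (nat_lit 0xf423fb71aea2c280473700000f423f54591437a2) .nil)))) (.leaf (.cons (nat_lit 0x10014) (nat_lit 0x100000000000000000000000100010000) .nil) .nil)) (.split (nat_lit 9) (nat_lit 0) (.split (nat_lit 9) (nat_lit 1) (.split (nat_lit 9) (nat_lit 2) (.split (nat_lit 9) (nat_lit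 3) (.split (nat_lit 9) (nat_lit 4) (.split (nat_lit 9) (nat_lit 5) (.split (nat_lit 9) (nat_lit 6) (.split (nat_lit 9) (nat_lit 8) (.unj (nat_lit 0x55) (nat_lit 0x1000200020001) (nat_lit 0x45500) (nat_lit 0x1000000020003000400030000000000000000)) (.non (nat_lit 1) (nat_lit 4) (nat_lit 0x54000) (nat_lit 0x1000100010000000000000000000000000000))) (.non (nat_lit 1) (nat_lit 4) (nat_lit 0x45000) (nat_lit 0x1000000010001000000000000000000000000))) (.non (nat_lit 1) (nat_lit 4) (nat_lit 0x45400) (nat_lit 0x1000000010001000100000000000000000000))) (.non (nat_lit 1) (nat_lit 6) (nat_lit 0x54500) (nat_lit 0x3000100020000000300040000000000000000))) (.non (nat_lit 1) (nat_lit 4) (nat_lit 0x54050) (nat_lit 0x1000100010000000000000001000100000000))) (.non (nat_lit 1) (nat_lit 4) (nat_lit 0x54010) (nat_lit 0x1000100010000000000000000000100000000))) (.non (nat_lit 2) (nat_lit 4) (nat_lit 0x54004) (nat_lit 0x1000100010000000000000000000000010000))) (.non (nat_lit 1) (nat_lit 4) (nat_lit 0x55411) (nat_lit 0x2000200030002000100000000000100000001)))))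 (.split (nat_lit 9) (nat_lit 0) (.split (nat_lit 9) (nat_lit 1) (.split (nat_lit 9) (nat_lit 2) (.split (nat_lit 9) (nat_lit 3) (.split (nat_lit 9) (nat_lit 5) (.split (nat_lit 9) (nat_lit 7) (.split (nat_lit 9) (nat_lit 8) (.split (nat_lit 9) (nat_lit 4) (.unj (nat_lit 0x55) (nat_lit 0x1000200020001) (nat_lit 0x45500) (nat_lit 0x1000000010002000200020000000000000000)) (.unj (nat_lit 0x10014) (nat_lit 0x100000000000000000000000100010000) (nat_lit 0x41500) (nat_lit 0x1000000000001000100010000000000000000))) (.non (nat_lit 1) (nat_lit 4) (nat_lit 0x55000) (nat_lit 0x1000100010001000000000000000000000000))) (.non (nat_lit 1) (nat_lit 4) (nat_lit 0x45000) (nat_lit 0x1000000010001000000000000000000000000))) (.non (nat_lit 1) (nat_lit 4) (nat_lit 0x41400) (nat_lit 0x1000000000001000100000000000000000000))) (.non (nat_lit 1) (nat_lit 4) (nat_lit 0x55050) (nat_lit 0x1000100010001000000000001000100000000))) (.non (nat_lit 1) (nat_lit 4) (nat_lit 0x55010) (nat_lit 0x1000100010001000000000000000100000000))) (.non (nat_lit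 2) (nat_lit 4) (nat_lit 0x55004) (nat_lit 0x1000100010001000000000000000000010000))) (.non (nat_lit 2) (nat_lit 4) (nat_lit 0x55005) (nat_lit 0x1000100010001000000000000000000010001))))

noncomputable def t757_160 : Tr := (.split (nat_lit 9) (nat_lit 2) (.split (nat_lit 9) (nat_lit 8) (.split (nat_lit 9) (nat_lit 0) (.split (nat_lit 9) (nat_lit 3) (.split (nat_lit 9) (nat_lit 5) (.split (nat_lit 9) (nat_lit 6) (.split (nat_lit 9) (nat_lit 7) (.unj (nat_lit 0x10014) (nat_lit 0x100000000000000000000000100010000) (nat_lit 0x41500) (nat_lit 0x1000000000001000200020000000000000000)) (.unj (nat_lit 0x10014) (nat_lit 0x100000000000000000000000100010000) (nat_lit 0x41500) (nat_lit 0x1000000000001000200020000000000000000))) (.split (nat_lit 9) (nat_lit 7) (.unj (nat_lit 0x10014) (nat_lit 0x100000000000000000000000100010000) (nat_lit 0x41500) (nat_lit 0x1000000000001000100010000000000000000)) (.non (nat_lit 1) (nat_lit 4) (nat_lit 0x45000) (nat_lit 0x1000000010001000000000000000000000000)))) (.split (nat_lit 9) (nat_lit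 6) (.split (nat_lit 9) (nat_lit 7) (.unj (nat_lit 0x10014) (nat_lit 0x100000000000000000000000100010000) (nat_lit 0x40500) (nat_lit 0x1000000000000000100010000000000000000)) (.non (nat_lit 1) (nat_lit 4) (nat_lit 0x45400) (nat_lit 0x1000000010001000100000000000000000000))) (.non (nat_lit 1) (nat_lit 4) (nat_lit 0x41400) (nat_lit 0x1000000000001000100000000000000000000)))) (.split (nat_lit 9) (nat_lit 5) (.split (nat_lit 9) (nat_lit 6) (.split (nat_lit 9) (nat_lit 7) (.unj (nat_lit 0x10014) (nat_lit 0x100000000000000000000000100010000) (nat_lit 0x41500) (nat_lit 0x1000000000001000200020000000000000000)) (.non (nat_lit 1) (nat_lit 4) (nat_lit 0x54050) (nat_lit 0x1000100010000000000000001000100000000))) (.non (nat_lit 1) (nat_lit 4) (nat_lit 0x55050) (nat_lit 0x1000100010001000000000001000100000000))) (.non (nat_lit 1) (nat_lit 4) (nat_lit 0x55450) (nat_lit 0x1000100010001000100000001000100000000)))) (.split (nat_lit 9) (nat_lit 5) (.split (nat_lit 9) (nat_lit 6) (.split (nat_lit 9) (nat_lit 7) (.split (nat_lit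 9) (nat_lit 3) (.unj (nat_lit 0x10014) (nat_lit 0x100000000000000000000000100010000) (nat_lit 0x41500) (nat_lit 0x1000000000001000200020000000000000000)) (.unj (nat_lit 0x10014) (nat_lit 0x100000000000000000000000100010000) (nat_lit 0x41500) (nat_lit 0x1000000000001000200020000000000000000))) (.non (nat_lit 1) (nat_lit 4) (nat_lit 0x55411) (nat_lit 0x2000200030002000100000000000100000001))) (.non (nat_lit 2) (nat_lit 4) (nat_lit 0x55005) (nat_lit 0x1000100010001000000000000000000010001))) (.non (nat_lit 2) (nat_lit 4) (nat_lit 0x55405) (nat_lit 0x1000100010001000100000000000000010001)))) (.non (nat_lit 1) (nat_lit 5) (nat_lit 0x55150) (nat_lit 0x2000300020001000000010001000200000000))) (.star (nat_lit 9) (nat_lit 2) (nat_lit 4)))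

noncomputable def t757_161 : Tr := (.ex (nat_lit 7) (.pd (.cons (nat_lit 1) (nat_lit 8) (nat_lit 0) (nat_lit 0x3065442200) (nat_lit 0xf423f00000f423fb71aea2c2804737b71aea2c2800000f423f) (.cons (nat_lit 2) (nat_lit 8) (nat_lit 0) (nat_lit 0x3065443000) (nat_lit 0xf423f00000f423fb71aea2c2804737b71ae00000f423fb71ae) (.cons (nat_lit 3) (nat_lit 8) (nat_lit 0) (nat_lit 0x9065440100) (nat_lit 0xf423f00000f423fb71aea2c280473700000f423f54591437a2) .nil))) (.ex (nat_lit 9) (.pd (.cons (nat_lit 0) (nat_lit 8) (nat_lit 0) (nat_lit 0x3065442110) (nat_lit 0xf423f00000f423fb71aea2c2804737b71aea2c280473700000) .nil) (.leaf (.cons (nat_lit 0x10014) (nat_lit 0x100000000000000000000000100010000) .nil) .nil)) (.split (nat_lit 0xa) (nat_lit 0) (.split (nat_lit 0xa) (nat_lit 1) (.split (nat_lit 0xa) (nat_lit 2) (.split (nat_lit 0xa) (nat_lit 3) (.split (nat_lit 0xa) (nat_lit 4) (.split (nat_lit 0xa) (nat_lit 5) (.split (nat_lit 0xa) (nat_lit 6) (.split (nat_lit 0xa) (nat_lit 7) (.split (nat_lit 0xa) (nat_lit 8) (.leaf (.cons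 (nat_lit 0x10014) (nat_lit 0x100000000000000000000000100010000) (.cons (nat_lit 0x140054) (nat_lit 0x10002000000000000000000000003000400030000) .nil)) .nil) (.non (nat_lit 1) (nat_lit 4) (nat_lit 0x150050) (nat_lit 0x10001000100000000000000000001000100000000))) (.non (nat_lit 1) (nat_lit 4) (nat_lit 0x155410) (nat_lit 0x20001000200030002000100000000000100000000))) (.non (nat_lit 1) (nat_lit 4) (nat_lit 0x155050) (nat_lit 0x10001000100010001000000000001000100000000))) (.non (nat_lit 1) (nat_lit 4) (nat_lit 0x155450) (nat_lit 0x10001000100010001000100000001000100000000))) (.non (nat_lit 1) (nat_lit 6) (nat_lit 0x140540) (nat_lit 0x30002000000000000000300040001000000000000))) (.non (nat_lit 1) (nat_lit 4) (nat_lit 0x140040) (nat_lit 0x10001000000000000000000000001000000000000))) (.non (nat_lit 1) (nat_lit 4) (nat_lit 0x140050) (nat_lit 0x10001000000000000000000000001000100000000))) (.non (nat_lit 2) (nat_lit 4) (nat_lit 0x155045) (nat_lit 0x30002000300020001000000000001000000040002))) (.non (nat_lit 3) (nat_lit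 8) (nat_lit 0x140015) (nat_lit 0x20001000000000000000000000000000300040003))))) (.split (nat_lit 0xa) (nat_lit 0) (.split (nat_lit 0xa) (nat_lit 1) (.split (nat_lit 0xa) (nat_lit 2) (.split (nat_lit 0xa) (nat_lit 3) (.split (nat_lit 0xa) (nat_lit 4) (.split (nat_lit 0xa) (nat_lit 5) (.split (nat_lit 0xa) (nat_lit 6) (.split (nat_lit 0xa) (nat_lit 8) (.split (nat_lit 0xa) (nat_lit 9) (.unj (nat_lit 0x55) (nat_lit 0x1000200020001) (nat_lit 0x105500) (nat_lit 0x10000000000020003000400030000000000000000)) (.non (nat_lit 1) (nat_lit 4) (nat_lit 0x155410) (nat_lit 0x20001000200030002000100000000000100000000))) (.non (nat_lit 1) (nat_lit 4) (nat_lit 0x114000) (nat_lit 0x10000000100010000000000000000000000000000))) (.non (nat_lit 1) (nat_lit 4) (nat_lit 0x105000) (nat_lit 0x10000000000010001000000000000000000000000))) (.non (nat_lit 1) (nat_lit 4) (nat_lit 0x105400) (nat_lit 0x10000000000010001000100000000000000000000))) (.non (nat_lit 1) (nat_lit 6) (nat_lit 0x114500) (nat_lit 0x30000000100020000000300040000000000000000)))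 (.non (nat_lit 1) (nat_lit 4) (nat_lit 0x114050) (nat_lit 0x10000000100010000000000000001000100000000))) (.non (nat_lit 1) (nat_lit 4) (nat_lit 0x114010) (nat_lit 0x10000000100010000000000000000000100000000))) (.non (nat_lit 2) (nat_lit 4) (nat_lit 0x114004) (nat_lit 0x10000000100010000000000000000000000010000))) (.non (nat_lit 1) (nat_lit 4) (nat_lit 0x115411) (nat_lit 0x20000000200030002000100000000000100000001))))

noncomputable def t757_162 : Tr := (.split (nat_lit 9) (nat_lit 3) (.split (nat_lit 8) (nat_lit 7) (.split (nat_lit 8) (nat_lit 1) (.pd (.cons (nat_lit 1) (nat_lit 6) (nat_lit 0) (nat_lit 0x3280442200) (nat_lit 0xf423fb71aef423f00000f423f54591b71ae5161100000f423f) (.cons (nat_lit 2) (nat_lit 6) (nat_lit 0) (nat_lit 0x3180443000) (nat_lit 0xf423fb71aef423f00000f423f54591b71ae00000a2c2898965) .nil)) (.ex (nat_lit 6) (.pd (.cons (nat_lit 1) (nat_lit 7) (nat_lit 0) (nat_lit 0x3205442200) (nat_lit 0xf423ff423f00000f423fb71ae1f156b71ae65b9700000f423f) (.cons (nat_lit 2) (nat_lit 7) (nat_lit 0) (nat_lit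 0x3105443000) (nat_lit 0xf423ff423f00000f423fb71ae1f156b71ae00000b71aea2c28) .nil)) t757_161) (.split (nat_lit 0xa) (nat_lit 0) (.split (nat_lit 0xa) (nat_lit 1) (.split (nat_lit 0xa) (nat_lit 2) (.split (nat_lit 0xa) (nat_lit 3) (.split (nat_lit 0xa) (nat_lit 5) (.split (nat_lit 0xa) (nat_lit 7) (.split (nat_lit 0xa) (nat_lit 8) (.split (nat_lit 0xa) (nat_lit 9) (.split (nat_lit 0xa) (nat_lit 4) (.unj (nat_lit 0x55) (nat_lit 0x1000200020001) (nat_lit 0x105500) (nat_lit 0x10000000000010002000200020000000000000000)) (.unj (nat_lit 0x10014) (nat_lit 0x100000000000000000000000100010000) (nat_lit 0x101500) (nat_lit 0x10000000000000001000100010000000000000000))) (.non (nat_lit 1) (nat_lit 4) (nat_lit 0x155050) (nat_lit 0x10001000100010001000000000001000100000000))) (.non (nat_lit 1) (nat_lit 4) (nat_lit 0x115000) (nat_lit 0x10000000100010001000000000000000000000000))) (.non (nat_lit 1) (nat_lit 4) (nat_lit 0x105000) (nat_lit 0x10000000000010001000000000000000000000000))) (.non (nat_lit 1) (nat_lit 4) (nat_lit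 0x101400) (nat_lit 0x10000000000000001000100000000000000000000))) (.non (nat_lit 1) (nat_lit 4) (nat_lit 0x115050) (nat_lit 0x10000000100010001000000000001000100000000))) (.non (nat_lit 1) (nat_lit 4) (nat_lit 0x115010) (nat_lit 0x10000000100010001000000000000000100000000))) (.non (nat_lit 2) (nat_lit 4) (nat_lit 0x115004) (nat_lit 0x10000000100010001000000000000000000010000))) (.non (nat_lit 1) (nat_lit 4) (nat_lit 0x155451) (nat_lit 0x40001000400050006000300000002000300000002))))) (.non (nat_lit 2) (nat_lit 4) (nat_lit 0x2a005) (nat_lit 0x300020001000000000000000000040002))) (.non (nat_lit 1) (nat_lit 4) (nat_lit 0x1a810) (nat_lit 0x400030002000100000000000200000000))) (.split (nat_lit 9) (nat_lit 3) (.split (nat_lit 8) (nat_lit 7) (.split (nat_lit 8) (nat_lit 1) (.pd (.cons (nat_lit 1) (nat_lit 6) (nat_lit 0) (nat_lit 0x3280442200) (nat_lit 0xf423fb71aef423f00000f423f545917a11e28b0500000f423f) (.cons (nat_lit 2) (nat_lit 6) (nat_lit 0) (nat_lit 0x3180443000) (nat_lit 0xf423fb71aef423f00000f423f545917a11e00000a2c2898965)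 .nil)) (.st (nat_lit 6) (nat_lit 1) (nat_lit 4) (nat_lit 0x95450) (nat_lit 0x1000200020002000100000002000200000000) (nat_lit 1) (nat_lit 1) (.pd (.cons (nat_lit 1) (nat_lit 7) (nat_lit 0) (nat_lit 0x3205442200) (nat_lit 0xf423ff423f00000f423fb71ae1f1567a11e3d08b00000f423f) (.cons (nat_lit 2) (nat_lit 7) (nat_lit 0) (nat_lit 0x3105443000) (nat_lit 0xf423ff423f00000f423fb71ae1f1567a11e00000b71aea2c28) .nil)) (.st (nat_lit 7) (nat_lit 1) (nat_lit 4) (nat_lit 0x95050) (nat_lit 0x1000200020001000000000002000200000000) (nat_lit 1) (nat_lit 1) (.pd (.cons (nat_lit 1) (nat_lit 8) (nat_lit 0) (nat_lit 0x3065442200) (nat_lit 0xf423f00000f423fb71aea2c28047377a11e7a11c00000f423f) (.cons (nat_lit 2) (nat_lit 8) (nat_lit 0) (nat_lit 0x3065443000) (nat_lit 0xf423f00000f423fb71aea2c28047377a11e00000f423fb71ae) (.cons (nat_lit 3) (nat_lit 8) (nat_lit 0) (nat_lit 0x9065440100) (nat_lit 0xf423f00000f423fb71aea2c280473700000f423f54591437a2) .nil))) (.leaf (.cons (nat_lit 0x10014) (nat_lit 0x100000000000000000000000100010000)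 (.cons (nat_lit 0x40054) (nat_lit 0x1000000000000000000000001000100010000) .nil)) .nil)))))) (.non (nat_lit 2) (nat_lit 4) (nat_lit 0x2a005) (nat_lit 0x300020001000000000000000000040002))) (.non (nat_lit 1) (nat_lit 4) (nat_lit 0x1a810) (nat_lit 0x400030002000100000000000200000000))) (.non (nat_lit 1) (nat_lit 4) (nat_lit 0x54050) (nat_lit 0x3000200010000000000000004000300000000))))

noncomputable def t757_163 : Tr := (.split (nat_lit 0xa) (nat_lit 0) (.split (nat_lit 0xa) (nat_lit 3) (.split (nat_lit 0xa) (nat_lit 5) (.split (nat_lit 0xa) (nat_lit 6) (.split (nat_lit 0xa) (nat_lit 7) (.split (nat_lit 0xa) (nat_lit 9) (.unj (nat_lit 0x10014) (nat_lit 0x100000000000000000000000100010000) (nat_lit 0x101500) (nat_lit 0x10000000000000001000200020000000000000000)) (.unj (nat_lit 0x10014) (nat_lit 0x100000000000000000000000100010000) (nat_lit 0x101500) (nat_lit 0x10000000000000001000200020000000000000000))) (.split (nat_lit 0xa) (nat_lit 9) (.unj (nat_lit 0x10014) (nat_lit 0x100000000000000000000000100010000)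 (nat_lit 0x101500) (nat_lit 0x10000000000000001000200020000000000000000)) (.non (nat_lit 1) (nat_lit 4) (nat_lit 0x155410) (nat_lit 0x20001000200030002000100000000000100000000)))) (.split (nat_lit 0xa) (nat_lit 7) (.split (nat_lit 0xa) (nat_lit 9) (.unj (nat_lit 0x10014) (nat_lit 0x100000000000000000000000100010000) (nat_lit 0x101500) (nat_lit 0x10000000000000001000100010000000000000000)) (.non (nat_lit 1) (nat_lit 4) (nat_lit 0x155050) (nat_lit 0x10001000100010001000000000001000100000000))) (.non (nat_lit 1) (nat_lit 4) (nat_lit 0x105000) (nat_lit 0x10000000000010001000000000000000000000000)))) (.split (nat_lit 0xa) (nat_lit 6) (.split (nat_lit 0xa) (nat_lit 7) (.split (nat_lit 0xa) (nat_lit 9) (.unj (nat_lit 0x10014) (nat_lit 0x100000000000000000000000100010000) (nat_lit 0x100500) (nat_lit 0x10000000000000000000100010000000000000000)) (.non (nat_lit 1) (nat_lit 4) (nat_lit 0x155450) (nat_lit 0x10001000100010001000100000001000100000000))) (.non (nat_lit 1) (nat_lit 4) (nat_lit 0x105400) (nat_lit 0x10000000000010001000100000000000000000000)))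 (.non (nat_lit 1) (nat_lit 4) (nat_lit 0x101400) (nat_lit 0x10000000000000001000100000000000000000000)))) (.split (nat_lit 0xa) (nat_lit 5) (.split (nat_lit 0xa) (nat_lit 6) (.split (nat_lit 0xa) (nat_lit 7) (.split (nat_lit 0xa) (nat_lit 9) (.unj (nat_lit 0x10014) (nat_lit 0x100000000000000000000000100010000) (nat_lit 0x101500) (nat_lit 0x10000000000000001000200020000000000000000)) (.non (nat_lit 1) (nat_lit 4) (nat_lit 0x140040) (nat_lit 0x10001000000000000000000000001000000000000))) (.non (nat_lit 1) (nat_lit 4) (nat_lit 0x114050) (nat_lit 0x10000000100010000000000000001000100000000))) (.non (nat_lit 1) (nat_lit 4) (nat_lit 0x115050) (nat_lit 0x10000000100010001000000000001000100000000))) (.non (nat_lit 1) (nat_lit 4) (nat_lit 0x115450) (nat_lit 0x10000000100010001000100000001000100000000)))) (.split (nat_lit 0xa) (nat_lit 3) (.split (nat_lit 0xa) (nat_lit 5) (.split (nat_lit 0xa) (nat_lit 6) (.split (nat_lit 0xa) (nat_lit 7) (.split (nat_lit 0xa) (nat_lit 9) (.unj (nat_lit 0x10014) (nat_lit 0x100000000000000000000000100010000)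 (nat_lit 0x101500) (nat_lit 0x10000000000000001000200020000000000000000)) (.non (nat_lit 2) (nat_lit 5) (nat_lit 0x155145) (nat_lit 0x60004000300020001000000030002000000040005))) (.non (nat_lit 1) (nat_lit 4) (nat_lit 0x115411) (nat_lit 0x20000000200030002000100000000000100000001))) (.non (nat_lit 1) (nat_lit 4) (nat_lit 0x155451) (nat_lit 0x40001000400050006000300000002000300000002))) (.non (nat_lit 2) (nat_lit 4) (nat_lit 0x115405) (nat_lit 0x10000000100010001000100000000000000010001))) (.non (nat_lit 1) (nat_lit 4) (nat_lit 0x155451) (nat_lit 0x40003000400030002000100000006000500000002))))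

noncomputable def t757_164 : Tr := (.ex (nat_lit 5) (.split (nat_lit 8) (nat_lit 2) (.split (nat_lit 9) (nat_lit 3) (.split (nat_lit 0xa) (nat_lit 3) (.split (nat_lit 8) (nat_lit 7) (.split (nat_lit 8) (nat_lit 1) (.pd (.cons (nat_lit 1) (nat_lit 6) (nat_lit 0) (nat_lit 0x33280442200) (nat_lit 0xf423ff423fb71aef423f00000f423f545917a11d28b0400000f423f) (.cons (nat_lit 1) (nat_lit 7) (nat_lit 0) (nat_lit 0x33205442200) (nat_lit 0xf423ff423ff423f00000f423fb71ae1f1567a11d3d08a00000f423f) (.cons (nat_lit 1) (nat_lit 8) (nat_lit 0) (nat_lit 0x33065442200) (nat_lit 0xf423ff423f00000f423fb71aea2c28047377a11d7a11b00000f423f) (.cons (nat_lit 2) (nat_lit 6) (nat_lit 0) (nat_lit 0x33180443000) (nat_lit 0xf423ff423fb71aef423f00000f423f545917a11d00000a2c2898965) (.cons (nat_lit 2) (nat_lit 7) (nat_lit 0) (nat_lit 0x33105443000) (nat_lit 0xf423ff423ff423f00000f423fb71ae1f1567a11d00000b71aea2c28) (.cons (nat_lit 2) (nat_lit 8) (nat_lit 0) (nat_lit 0x33065443000) (nat_lit 0xf423ff423f00000f423fb71aea2c28047377a11d00000f423fb71ae)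 (.cons (nat_lit 3) (nat_lit 8) (nat_lit 0) (nat_lit 0xa9065440100) (nat_lit 0xf423ff423f00000f423fb71aea2c280473700000f423f54591437a2) .nil))))))) (.leaf (.cons (nat_lit 0x10014) (nat_lit 0x100000000000000000000000100010000) (.cons (nat_lit 0x140054) (nat_lit 0x10001000000000000000000000002000200020000) .nil)) .nil)) (.non (nat_lit 2) (nat_lit 4) (nat_lit 0x2a005) (nat_lit 0x300020001000000000000000000040002))) (.non (nat_lit 1) (nat_lit 4) (nat_lit 0x1a810) (nat_lit 0x400030002000100000000000200000000))) (.non (nat_lit 1) (nat_lit 4) (nat_lit 0x240050) (nat_lit 0x10001000000000000000000000002000100000000))) (.non (nat_lit 1) (nat_lit 4) (nat_lit 0x180050) (nat_lit 0x10001000000000000000000000002000100000000))) (.non (nat_lit 1) (nat_lit 4) (nat_lit 0x160050) (nat_lit 0x10001000100000000000000000002000200000000))) (.split (nat_lit 0xb) (nat_lit 0) (.split (nat_lit 0xb) (nat_lit 1) (.split (nat_lit 0xb) (nat_lit 2) (.split (nat_lit 0xb) (nat_lit 3) (.split (nat_lit 0xb) (nat_lit 6) (.split (nat_lit 0xb) (nat_lit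 7) (.split (nat_lit 0xb) (nat_lit 8) (.split (nat_lit 0xb) (nat_lit 9) (.split (nat_lit 0xb) (nat_lit 0xa) (.split (nat_lit 0xb) (nat_lit 4) (.unj (nat_lit 0x10014) (nat_lit 0x100000000000000000000000100010000) (nat_lit 0x401500) (nat_lit 0x100000000000000000001000200020000000000000000)) (.unj (nat_lit 0x10014) (nat_lit 0x100000000000000000000000100010000) (nat_lit 0x400500) (nat_lit 0x100000000000000000000000100010000000000000000))) (.non (nat_lit 1) (nat_lit 4) (nat_lit 0x554450) (nat_lit 0x200030002000200010000000100000004000300000000))) (.non (nat_lit 1) (nat_lit 4) (nat_lit 0x554450) (nat_lit 0x200020003000200010000000100000004000300000000))) (.non (nat_lit 1) (nat_lit 4) (nat_lit 0x415400) (nat_lit 0x100000000000100010001000100000000000000000000))) (.non (nat_lit 1) (nat_lit 4) (nat_lit 0x405400) (nat_lit 0x100000000000000010001000100000000000000000000))) (.non (nat_lit 1) (nat_lit 4) (nat_lit 0x401400) (nat_lit 0x100000000000000000001000100000000000000000000))) (.non (nat_lit 1) (nat_lit 4) (nat_lit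 0x540050) (nat_lit 0x100010001000000000000000000000002000100000000))) (.star (nat_lit 0xb) (nat_lit 2) (nat_lit 5))) (.star (nat_lit 0xb) (nat_lit 1) (nat_lit 5))) (.non (nat_lit 2) (nat_lit 4) (nat_lit 0x415405) (nat_lit 0x100000000000100010001000100000000000000010001))))

noncomputable def t757_165 : Tr := (.split (nat_lit 0xa) (nat_lit 7) (.split (nat_lit 0xa) (nat_lit 8) (.split (nat_lit 0xa) (nat_lit 9) (.split (nat_lit 0xa) (nat_lit 4) (.st (nat_lit 6) (nat_lit 1) (nat_lit 4) (nat_lit 0x155450) (nat_lit 0x10001000200020002000100000002000200000000) (nat_lit 1) (nat_lit 1) (.st (nat_lit 7) (nat_lit 1) (nat_lit 4) (nat_lit 0x155050) (nat_lit 0x10001000200020001000000000002000200000000) (nat_lit 1) (nat_lit 1) (.ex (nat_lit 4) t757_164 (.split (nat_lit 0xb) (nat_lit 1) (.split (nat_lit 0xb) (nat_lit 2) (.split (nat_lit 0xb) (nat_lit 3) (.split (nat_lit 0xb) (nat_lit 6) (.split (nat_lit 0xb) (nat_lit 7) (.split (nat_lit 0xb) (nat_lit 8) (.split (nat_lit 0xb) (nat_lit 9) (.split (nat_lit 0xb) (nat_lit 0xa)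 (.split (nat_lit 0xb) (nat_lit 0) (.split (nat_lit 0xb) (nat_lit 5) (.unj (nat_lit 0x10014) (nat_lit 0x100000000000000000000000100010000) (nat_lit 0x401500) (nat_lit 0x100000000000000000001000200020000000000000000)) (.unj (nat_lit 0x10014) (nat_lit 0x100000000000000000000000100010000) (nat_lit 0x400500) (nat_lit 0x100000000000000000000000100010000000000000000))) (.split (nat_lit 0xb) (nat_lit 5) (.unj (nat_lit 0x10014) (nat_lit 0x100000000000000000000000100010000) (nat_lit 0x401500) (nat_lit 0x100000000000000000001000200020000000000000000)) (.non (nat_lit 2) (nat_lit 4) (nat_lit 0x415405) (nat_lit 0x100000000000100010001000100000000000000010001)))) (.non (nat_lit 1) (nat_lit 4) (nat_lit 0x555450) (nat_lit 0x200040003000400030002000100000006000500000000))) (.non (nat_lit 1) (nat_lit 4) (nat_lit 0x555450) (nat_lit 0x200030004000400030002000100000006000500000000))) (.non (nat_lit 1) (nat_lit 4) (nat_lit 0x554050) (nat_lit 0x100010001000200010000000000000002000200000000))) (.non (nat_lit 1) (nat_lit 4) (nat_lit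 0x555050) (nat_lit 0x100010001000200020001000000000002000200000000))) (.non (nat_lit 1) (nat_lit 4) (nat_lit 0x555450) (nat_lit 0x100010001000200020002000100000002000200000000))) (.non (nat_lit 1) (nat_lit 4) (nat_lit 0x540050) (nat_lit 0x100010001000000000000000000000002000100000000))) (.star (nat_lit 0xb) (nat_lit 2) (nat_lit 4))) (.star (nat_lit 0xb) (nat_lit 1) (nat_lit 4)))))) (.unj (nat_lit 0x10014) (nat_lit 0x100000000000000000000000100010000) (nat_lit 0x101500) (nat_lit 0x10000000000000001000200020000000000000000))) (.non (nat_lit 1) (nat_lit 4) (nat_lit 0x140040) (nat_lit 0x10001000000000000000000000001000000000000))) (.non (nat_lit 1) (nat_lit 4) (nat_lit 0x110050) (nat_lit 0x10000000100000000000000000001000100000000))) (.non (nat_lit 1) (nat_lit 4) (nat_lit 0x114050) (nat_lit 0x10000000100010000000000000001000100000000)))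

noncomputable def t757_166 : Tr := (.ex (nat_lit 3) (.ex (nat_lit 4) (.ex (nat_lit 5) (.split (nat_lit 8) (nat_lit 2) t757_162 (.non (nat_lit 1) (nat_lit 4) (nat_lit 0x68050) (nat_lit 0x1000200010000000000000002000300000000))) (.split (nat_lit 0xa) (nat_lit 0) (.split (nat_lit 0xa) (nat_lit 1) (.split (nat_lit 0xa) (nat_lit 2) (.split (nat_lit 0xa) (nat_lit 3) (.split (nat_lit 0xa) (nat_lit 6) (.split (nat_lit 0xa) (nat_lit 7) (.split (nat_lit 0xa) (nat_lit 8) (.split (nat_lit 0xa) (nat_lit 9) (.split (nat_lit 0xa) (nat_lit 4) (.unj (nat_lit 0x10014) (nat_lit 0x100000000000000000000000100010000) (nat_lit 0x101500) (nat_lit 0x10000000000000001000200020000000000000000)) (.unj (nat_lit 0x10014) (nat_lit 0x100000000000000000000000100010000) (nat_lit 0x100500) (nat_lit 0x10000000000000000000100010000000000000000))) (.non (nat_lit 1) (nat_lit 4) (nat_lit 0x155450) (nat_lit 0x10001000100010001000100000001000100000000))) (.non (nat_lit 1) (nat_lit 4) (nat_lit 0x115400) (nat_lit 0x10000000100010001000100000000000000000000)))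 (.non (nat_lit 1) (nat_lit 4) (nat_lit 0x105400) (nat_lit 0x10000000000010001000100000000000000000000))) (.non (nat_lit 1) (nat_lit 4) (nat_lit 0x101400) (nat_lit 0x10000000000000001000100000000000000000000))) (.non (nat_lit 1) (nat_lit 4) (nat_lit 0x115450) (nat_lit 0x10000000100010001000100000001000100000000))) (.star (nat_lit 0xa) (nat_lit 2) (nat_lit 5))) (.star (nat_lit 0xa) (nat_lit 1) (nat_lit 5))) (.non (nat_lit 2) (nat_lit 4) (nat_lit 0x115405) (nat_lit 0x10000000100010001000100000000000000010001)))) (.split (nat_lit 0xa) (nat_lit 1) (.split (nat_lit 0xa) (nat_lit 2) (.split (nat_lit 0xa) (nat_lit 8) t757_163 (.non (nat_lit 1) (nat_lit 4) (nat_lit 0x155450) (nat_lit 0x20001000400030002000100000002000300000000))) (.star (nat_lit 0xa) (nat_lit 2) (nat_lit 4))) (.star (nat_lit 0xa) (nat_lit 1) (nat_lit 4)))) (.split (nat_lit 0xa) (nat_lit 0) (.split (nat_lit 0xa) (nat_lit 1) (.split (nat_lit 0xa) (nat_lit 2) (.split (nat_lit 0xa) (nat_lit 5) (.split (nat_lit 0xa) (nat_lit 6) t757_165 (.non (nat_lit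 1) (nat_lit 4) (nat_lit 0x115050) (nat_lit 0x10000000100010001000000000001000100000000))) (.non (nat_lit 1) (nat_lit 4) (nat_lit 0x115450) (nat_lit 0x10000000100010001000100000001000100000000))) (.non (nat_lit 1) (nat_lit 4) (nat_lit 0x100050) (nat_lit 0x10000000000000000000000000001000100000000))) (.non (nat_lit 2) (nat_lit 4) (nat_lit 0x155045) (nat_lit 0x30001000300020001000000000002000000040002))) (.non (nat_lit 1) (nat_lit 4) (nat_lit 0x155451) (nat_lit 0x40003000400030002000100000006000500000002))))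

noncomputable def t757_167 : Tr := (.ex (nat_lit 6) (.pd (.cons (nat_lit 1) (nat_lit 7) (nat_lit 0) (nat_lit 0x205449300) (nat_lit 0x98965f423f00000f423fb71ae1f156a2c28b71ae00000927bd) (.cons (nat_lit 1) (nat_lit 8) (nat_lit 0) (nat_lit 0x65449300) (nat_lit 0xa2c2800000f423fb71aea2c2804737b71aef423f0000098965) (.cons (nat_lit 2) (nat_lit 7) (nat_lit 0) (nat_lit 0x105449000) (nat_lit 0xb71aef423f00000f423fb71ae1f156f423f00000b71ae51611) (.cons (nat_lit 2) (nat_lit 8) (nat_lit 0) (nat_lit 0x65449000) (nat_lit 0xb71ae00000f423fb71aea2c2804737f423f00000f423f65b97) .nil)))) (.ex (nat_lit 9) (.pd (.cons (nat_lit 0) (nat_lit 8) (nat_lit 0) (nat_lit 0x3065442110) (nat_lit 0xf423f00000f423fb71aea2c2804737b71aea2c280473700000) (.cons (nat_lit 3) (nat_lit 8) (nat_lit 0) (nat_lit 0x65440100) (nat_lit 0xf423f00000f423fb71aea2c280473700000f423f5459106711) .nil)) (.leaf (.cons (nat_lit 0x10014) (nat_lit 0x100000000000000000000000100010000) .nil) .nil)) (.split (nat_lit 0xa) (nat_lit 0) (.split (nat_lit 0xa) (nat_lit 1)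 (.split (nat_lit 0xa) (nat_lit 2) (.split (nat_lit 0xa) (nat_lit 3) (.split (nat_lit 0xa) (nat_lit 4) (.split (nat_lit 0xa) (nat_lit 5) (.split (nat_lit 0xa) (nat_lit 6) (.split (nat_lit 0xa) (nat_lit 7) (.split (nat_lit 0xa) (nat_lit 8) (.sup (nat_lit 0x3000d00160020001a0000000000000000) (nat_lit 0x30006000000000000000000000005000300030005)) (.non (nat_lit 1) (nat_lit 4) (nat_lit 0x150050) (nat_lit 0x10001000100000000000000000001000100000000))) (.non (nat_lit 1) (nat_lit 4) (nat_lit 0x155410) (nat_lit 0x20001000200030002000100000000000100000000))) (.non (nat_lit 1) (nat_lit 4) (nat_lit 0x155050) (nat_lit 0x10001000100010001000000000001000100000000))) (.non (nat_lit 1) (nat_lit 4) (nat_lit 0x155450) (nat_lit 0x10001000100010001000100000001000100000000))) (.non (nat_lit 1) (nat_lit 5) (nat_lit 0x155151) (nat_lit 0x40006000300020001000000020005000400000003))) (.non (nat_lit 1) (nat_lit 4) (nat_lit 0x140040) (nat_lit 0x10001000000000000000000000001000000000000))) (.non (nat_lit 1) (nat_lit 4) (nat_lit 0x140050)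 (nat_lit 0x10001000000000000000000000001000100000000))) (.non (nat_lit 2) (nat_lit 4) (nat_lit 0x140005) (nat_lit 0x10001000000000000000000000000000000010001))) (.non (nat_lit 1) (nat_lit 4) (nat_lit 0x140001) (nat_lit 0x10001000000000000000000000000000000000001))))) (.split (nat_lit 0xa) (nat_lit 0) (.split (nat_lit 0xa) (nat_lit 1) (.split (nat_lit 0xa) (nat_lit 2) (.split (nat_lit 0xa) (nat_lit 3) (.split (nat_lit 0xa) (nat_lit 5) (.split (nat_lit 0xa) (nat_lit 7) (.split (nat_lit 0xa) (nat_lit 8) (.split (nat_lit 0xa) (nat_lit 9) (.split (nat_lit 0xa) (nat_lit 4) (.unj (nat_lit 0x55) (nat_lit 0x1000200020001) (nat_lit 0x105500) (nat_lit 0x10000000000010002000200020000000000000000)) (.unj (nat_lit 0x10014) (nat_lit 0x100000000000000000000000100010000) (nat_lit 0x101500) (nat_lit 0x10000000000000001000100010000000000000000))) (.non (nat_lit 1) (nat_lit 4) (nat_lit 0x155050) (nat_lit 0x10001000100010001000000000001000100000000))) (.non (nat_lit 1) (nat_lit 4) (nat_lit 0x115000) (nat_lit 0x10000000100010001000000000000000000000000)))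 (.non (nat_lit 1) (nat_lit 4) (nat_lit 0x105000) (nat_lit 0x10000000000010001000000000000000000000000))) (.non (nat_lit 1) (nat_lit 4) (nat_lit 0x101400) (nat_lit 0x10000000000000001000100000000000000000000))) (.non (nat_lit 1) (nat_lit 4) (nat_lit 0x115050) (nat_lit 0x10000000100010001000000000001000100000000))) (.non (nat_lit 1) (nat_lit 4) (nat_lit 0x115010) (nat_lit 0x10000000100010001000000000000000100000000))) (.non (nat_lit 2) (nat_lit 4) (nat_lit 0x115004) (nat_lit 0x10000000100010001000000000000000000010000))) (.non (nat_lit 1) (nat_lit 4) (nat_lit 0x155411) (nat_lit 0x30001000200030004000200000000000100000002))))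

noncomputable def t757_168 : Tr := (.ex (nat_lit 4) (.ex (nat_lit 5) (.split (nat_lit 9) (nat_lit 0) (.split (nat_lit 8) (nat_lit 2) (.split (nat_lit 9) (nat_lit 3) (.split (nat_lit 8) (nat_lit 7) (.split (nat_lit 8) (nat_lit 1) (.pd (.cons (nat_lit 1) (nat_lit 6) (nat_lit 0) (nat_lit 0x280449300) (nat_lit 0x927bdb71aef423f00000f423f5459198965a2c28000008e6a2) (.cons (nat_lit 2) (nat_lit 6) (nat_lit 0) (nat_lit 0x180449000) (nat_lit 0xb71aeb71aef423f00000f423f54591f423f00000a2c284734e) .nil)) t757_167) (.non (nat_lit 2) (nat_lit 4) (nat_lit 0x68005) (nat_lit 0x1000200010000000000000000000000030002))) (.non (nat_lit 1) (nat_lit 4) (nat_lit 0x1a810) (nat_lit 0x400030002000100000000000200000000))) (.non (nat_lit 1) (nat_lit 4) (nat_lit 0x600a1) (nat_lit 0x4000100000000000000000003000200000002))) (.non (nat_lit 1) (nat_lit 4) (nat_lit 0x68050) (nat_lit 0x1000200010000000000000002000300000000))) (.non (nat_lit 2) (nat_lit 4) (nat_lit 0x90085) (nat_lit 0x2000100000000000000000001000000020003))) (.split (nat_lit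 0xa) (nat_lit 0) (.split (nat_lit 0xa) (nat_lit 1) (.split (nat_lit 0xa) (nat_lit 2) (.split (nat_lit 0xa) (nat_lit 3) (.split (nat_lit 0xa) (nat_lit 6) (.split (nat_lit 0xa) (nat_lit 7) (.split (nat_lit 0xa) (nat_lit 8) (.split (nat_lit 0xa) (nat_lit 9) (.split (nat_lit 0xa) (nat_lit 4) (.unj (nat_lit 0x10014) (nat_lit 0x100000000000000000000000100010000) (nat_lit 0x101500) (nat_lit 0x10000000000000001000200020000000000000000)) (.unj (nat_lit 0x10014) (nat_lit 0x100000000000000000000000100010000) (nat_lit 0x100500) (nat_lit 0x10000000000000000000100010000000000000000))) (.non (nat_lit 1) (nat_lit 4) (nat_lit 0x155450) (nat_lit 0x10001000100010001000100000001000100000000))) (.non (nat_lit 1) (nat_lit 4) (nat_lit 0x115400) (nat_lit 0x10000000100010001000100000000000000000000))) (.non (nat_lit 1) (nat_lit 4) (nat_lit 0x105400) (nat_lit 0x10000000000010001000100000000000000000000))) (.non (nat_lit 1) (nat_lit 4) (nat_lit 0x101400) (nat_lit 0x10000000000000001000100000000000000000000))) (.non (nat_lit 1) (nat_lit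 4) (nat_lit 0x115450) (nat_lit 0x10000000100010001000100000001000100000000))) (.star (nat_lit 0xa) (nat_lit 2) (nat_lit 5))) (.star (nat_lit 0xa) (nat_lit 1) (nat_lit 5))) (.non (nat_lit 1) (nat_lit 4) (nat_lit 0x155451) (nat_lit 0x10001000100010001000100000001000100000001)))) (.split (nat_lit 0xa) (nat_lit 0) (.split (nat_lit 0xa) (nat_lit 1) (.split (nat_lit 0xa) (nat_lit 2) (.split (nat_lit 0xa) (nat_lit 3) (.split (nat_lit 0xa) (nat_lit 7) (.split (nat_lit 0xa) (nat_lit 8) (.split (nat_lit 0xa) (nat_lit 9) (.split (nat_lit 0xa) (nat_lit 5) (.split (nat_lit 0xa) (nat_lit 6) (.unj (nat_lit 0x10014) (nat_lit 0x100000000000000000000000100010000) (nat_lit 0x101500) (nat_lit 0x10000000000000001000200020000000000000000)) (.unj (nat_lit 0x10014) (nat_lit 0x100000000000000000000000100010000) (nat_lit 0x101500) (nat_lit 0x10000000000000001000100010000000000000000))) (.split (nat_lit 0xa) (nat_lit 6) (.unj (nat_lit 0x10014) (nat_lit 0x100000000000000000000000100010000) (nat_lit 0x100500) (nat_lit 0x10000000000000000000100010000000000000000))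 (.non (nat_lit 1) (nat_lit 4) (nat_lit 0x101400) (nat_lit 0x10000000000000001000100000000000000000000)))) (.non (nat_lit 1) (nat_lit 5) (nat_lit 0x155151) (nat_lit 0x40006000300020001000000020005000400000003))) (.non (nat_lit 1) (nat_lit 4) (nat_lit 0x155450) (nat_lit 0x20001000400030002000100000002000300000000))) (.non (nat_lit 1) (nat_lit 4) (nat_lit 0x155451) (nat_lit 0x30002000500060004000200000003000400000001))) (.non (nat_lit 1) (nat_lit 4) (nat_lit 0x155451) (nat_lit 0x30004000400030002000100000006000500000002))) (.star (nat_lit 0xa) (nat_lit 2) (nat_lit 4))) (.star (nat_lit 0xa) (nat_lit 1) (nat_lit 4))) (.non (nat_lit 2) (nat_lit 4) (nat_lit 0x155445) (nat_lit 0x30004000400030002000100000002000000050006))))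

noncomputable def t757_169 : Tr := (.ex (nat_lit 3) (.ex (nat_lit 4) (.ex (nat_lit 5) (.split (nat_lit 8) (nat_lit 2) (.split (nat_lit 8) (nat_lit 7) (.split (nat_lit 8) (nat_lit 1) (.pd (.cons (nat_lit 1) (nat_lit 6) (nat_lit 0) (nat_lit 0x280442200) (nat_lit 0xb71aef423f00000f423f54591f423f65b9700000f423f) (.cons (nat_lit 2) (nat_lit 6) (nat_lit 0) (nat_lit 0x180443000) (nat_lit 0xb71aef423f00000f423f54591f423f00000a2c2898965) .nil)) t757_159) (.non (nat_lit 2) (nat_lit 4) (nat_lit 0x2a005) (nat_lit 0x300020001000000000000000000040002))) (.non (nat_lit 1) (nat_lit 4) (nat_lit 0x1a810) (nat_lit 0x400030002000100000000000200000000))) (.non (nat_lit 1) (nat_lit 4) (nat_lit 0x2a050) (nat_lit 0x300020001000000000002000400000000))) (.split (nat_lit 9) (nat_lit 0) (.split (nat_lit 9) (nat_lit 1) (.split (nat_lit 9) (nat_lit 2) (.split (nat_lit 9) (nat_lit 3) (.split (nat_lit 9) (nat_lit 6) (.split (nat_lit 9) (nat_lit 7) (.split (nat_lit 9) (nat_lit 8) (.split (nat_lit 9) (nat_lit 4) (.unj (nat_lit 0x10014)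 (nat_lit 0x100000000000000000000000100010000) (nat_lit 0x41500) (nat_lit 0x1000000000001000200020000000000000000)) (.unj (nat_lit 0x10014) (nat_lit 0x100000000000000000000000100010000) (nat_lit 0x40500) (nat_lit 0x1000000000000000100010000000000000000))) (.non (nat_lit 1) (nat_lit 4) (nat_lit 0x55400) (nat_lit 0x1000100010001000100000000000000000000))) (.non (nat_lit 1) (nat_lit 4) (nat_lit 0x45400) (nat_lit 0x1000000010001000100000000000000000000))) (.non (nat_lit 1) (nat_lit 4) (nat_lit 0x41400) (nat_lit 0x1000000000001000100000000000000000000))) (.non (nat_lit 1) (nat_lit 4) (nat_lit 0x55450) (nat_lit 0x1000100010001000100000001000100000000))) (.star (nat_lit 9) (nat_lit 2) (nat_lit 5))) (.star (nat_lit 9) (nat_lit 1) (nat_lit 5))) (.non (nat_lit 2) (nat_lit 4) (nat_lit 0x55405) (nat_lit 0x1000100010001000100000000000000010001)))) (.split (nat_lit 9) (nat_lit 1) t757_160 (.star (nat_lit 9) (nat_lit 1) (nat_lit 4)))) (.split (nat_lit 9) (nat_lit 2) (.split (nat_lit 9) (nat_lit 5) (.split (nat_lit 9) (nat_lit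 6) (.split (nat_lit 9) (nat_lit 7) (.split (nat_lit 9) (nat_lit 8) (.split (nat_lit 9) (nat_lit 0) (.split (nat_lit 9) (nat_lit 1) (.split (nat_lit 9) (nat_lit 4) t757_166 (.unj (nat_lit 0x10014) (nat_lit 0x100000000000000000000000100010000) (nat_lit 0x41500) (nat_lit 0x1000000000001000200020000000000000000))) (.split (nat_lit 9) (nat_lit 4) (.split (nat_lit 9) (nat_lit 1) (.split (nat_lit 9) (nat_lit 3) (.split (nat_lit 8) (nat_lit 1) (.split (nat_lit 8) (nat_lit 2) (.sup (nat_lit 0x10006000b0010000d0000000000000000) (nat_lit 0x2000000000000000000000002000200020001)) (.non (nat_lit 1) (nat_lit 4) (nat_lit 0x68050) (nat_lit 0x1000200010000000000000002000300000000))) (.non (nat_lit 2) (nat_lit 4) (nat_lit 0x6a004) (nat_lit 0x2000300020001000000000000000000040000))) (.non (nat_lit 2) (nat_lit 4) (nat_lit 0x50085) (nat_lit 0x2000100000000000000000001000000020001))) (.non (nat_lit 2) (nat_lit 4) (nat_lit 0x94084) (nat_lit 0x2000200010000000000000001000000030000))) (.star (nat_lit 9) (nat_lit 1) (nat_lit 4))))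 (.split (nat_lit 9) (nat_lit 1) (.split (nat_lit 9) (nat_lit 4) (.st (nat_lit 3) (nat_lit 1) (nat_lit 4) (nat_lit 0x55451) (nat_lit 0x4000400030002000100000006000500000002) (nat_lit 1) (nat_lit 3) (.st (nat_lit 7) (nat_lit 1) (nat_lit 4) (nat_lit 0x55451) (nat_lit 0x2000500060004000200000003000400000001) (nat_lit 1) (nat_lit 3) t757_168)) (.unj (nat_lit 0x10014) (nat_lit 0x100000000000000000000000100010000) (nat_lit 0x41500) (nat_lit 0x1000000000001000200020000000000000000))) (.non (nat_lit 2) (nat_lit 4) (nat_lit 0x40005) (nat_lit 0x1000000000000000000000000000000010001)))) (.non (nat_lit 1) (nat_lit 4) (nat_lit 0x50050) (nat_lit 0x1000100000000000000000001000100000000))) (.non (nat_lit 1) (nat_lit 4) (nat_lit 0x54050) (nat_lit 0x1000100010000000000000001000100000000))) (.non (nat_lit 1) (nat_lit 4) (nat_lit 0x55050) (nat_lit 0x1000100010001000000000001000100000000))) (.non (nat_lit 1) (nat_lit 4) (nat_lit 0x55450) (nat_lit 0x1000100010001000100000001000100000000))) (.non (nat_lit 1) (nat_lit 4) (nat_lit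 0x40050) (nat_lit 0x1000000000000000000000001000100000000))))

noncomputable def t757_170 : Tr := (.ex (nat_lit 5) (.split (nat_lit 8) (nat_lit 2) (.split (nat_lit 9) (nat_lit 2) (.split (nat_lit 8) (nat_lit 7) (.split (nat_lit 8) (nat_lit 1) (.pd (.cons (nat_lit 1) (nat_lit 6) (nat_lit 0) (nat_lit 0x2280442200) (nat_lit 0xf423fb71aef423f00000f423f54591f423f28b0600000f423f) (.cons (nat_lit 1) (nat_lit 7) (nat_lit 0) (nat_lit 0x2205442200) (nat_lit 0xf423ff423f00000f423fb71ae1f156f423f3d08c00000f423f) (.cons (nat_lit 1) (nat_lit 8) (nat_lit 0) (nat_lit 0x2065442200) (nat_lit 0xf423f00000f423fb71aea2c2804737f423f7a11d00000f423f) (.cons (nat_lit 2) (nat_lit 6) (nat_lit 0) (nat_lit 0x9180443000) (nat_lit 0xf423fb71aef423f00000f423f54591f423f00000a2c2898965) (.cons (nat_lit 2) (nat_lit 7) (nat_lit 0) (nat_lit 0x9105443000) (nat_lit 0xf423ff423f00000f423fb71ae1f156f423f00000b71aea2c28) (.cons (nat_lit 2) (nat_lit 8) (nat_lit 0) (nat_lit 0x9065443000) (nat_lit 0xf423f00000f423fb71aea2c2804737f423f00000f423fb71ae)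 .nil)))))) (.leaf (.cons (nat_lit 0x10014) (nat_lit 0x100000000000000000000000100010000) (.cons (nat_lit 0x40054) (nat_lit 0x1000000000000000000000001000200020000) (.cons (nat_lit 0x40015) (nat_lit 0x1000000000000000000000000000200020001) .nil))) .nil)) (.non (nat_lit 2) (nat_lit 4) (nat_lit 0x2a005) (nat_lit 0x300020001000000000000000000040002))) (.non (nat_lit 1) (nat_lit 4) (nat_lit 0x5a010) (nat_lit 0x1000300020001000000000000000200000000))) (.non (nat_lit 1) (nat_lit 4) (nat_lit 0x90050) (nat_lit 0x1000100000000000000000001000200000000))) (.non (nat_lit 1) (nat_lit 4) (nat_lit 0x6a010) (nat_lit 0x2000300020001000000000000000400000000))) (.split (nat_lit 0xa) (nat_lit 0) (.split (nat_lit 0xa) (nat_lit 1) (.split (nat_lit 0xa) (nat_lit 2) (.split (nat_lit 0xa) (nat_lit 3) (.split (nat_lit 0xa) (nat_lit 6) (.split (nat_lit 0xa) (nat_lit 7) (.split (nat_lit 0xa) (nat_lit 8) (.split (nat_lit 0xa) (nat_lit 9) (.split (nat_lit 0xa) (nat_lit 4) (.unj (nat_lit 0x10014) (nat_lit 0x100000000000000000000000100010000)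 (nat_lit 0x101500) (nat_lit 0x10000000000000001000200020000000000000000)) (.unj (nat_lit 0x10014) (nat_lit 0x100000000000000000000000100010000) (nat_lit 0x100500) (nat_lit 0x10000000000000000000100010000000000000000))) (.non (nat_lit 1) (nat_lit 4) (nat_lit 0x155410) (nat_lit 0x10001000100010001000100000000000100000000))) (.non (nat_lit 1) (nat_lit 4) (nat_lit 0x115400) (nat_lit 0x10000000100010001000100000000000000000000))) (.non (nat_lit 1) (nat_lit 4) (nat_lit 0x105400) (nat_lit 0x10000000000010001000100000000000000000000))) (.non (nat_lit 1) (nat_lit 4) (nat_lit 0x101400) (nat_lit 0x10000000000000001000100000000000000000000))) (.non (nat_lit 1) (nat_lit 4) (nat_lit 0x115450) (nat_lit 0x10000000100010001000100000001000100000000))) (.star (nat_lit 0xa) (nat_lit 2) (nat_lit 5))) (.star (nat_lit 0xa) (nat_lit 1) (nat_lit 5))) (.non (nat_lit 2) (nat_lit 4) (nat_lit 0x115405) (nat_lit 0x10000000100010001000100000000000000010001))))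

noncomputable def t757_171 : Tr := (.split (nat_lit 9) (nat_lit 0) (.split (nat_lit 9) (nat_lit 1) (.st (nat_lit 6) (nat_lit 1) (nat_lit 4) (nat_lit 0x55450) (nat_lit 0x1000200020002000100000001000200000000) (nat_lit 1) (nat_lit 1) (.st (nat_lit 7) (nat_lit 1) (nat_lit 4) (nat_lit 0x55050) (nat_lit 0x1000200020001000000000001000200000000) (nat_lit 1) (nat_lit 1) (.ex (nat_lit 4) t757_170 (.split (nat_lit 0xa) (nat_lit 1) (.split (nat_lit 0xa) (nat_lit 2) (.split (nat_lit 0xa) (nat_lit 3) (.split (nat_lit 0xa) (nat_lit 6) (.split (nat_lit 0xa) (nat_lit 7) (.split (nat_lit 0xa) (nat_lit 8) (.split (nat_lit 0xa) (nat_lit 9) (.split (nat_lit 0xa) (nat_lit 0) (.split (nat_lit 0xa) (nat_lit 5) (.unj (nat_lit 0x10014) (nat_lit 0x100000000000000000000000100010000) (nat_lit 0x101500) (nat_lit 0x10000000000000001000200020000000000000000)) (.unj (nat_lit 0x10014) (nat_lit 0x100000000000000000000000100010000) (nat_lit 0x100500) (nat_lit 0x10000000000000000000100010000000000000000))) (.split (nat_lit 0xa) (nat_lit 5)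 (.unj (nat_lit 0x10014) (nat_lit 0x100000000000000000000000100010000) (nat_lit 0x101500) (nat_lit 0x10000000000000001000200020000000000000000)) (.non (nat_lit 2) (nat_lit 4) (nat_lit 0x115405) (nat_lit 0x10000000100010001000100000000000000010001)))) (.non (nat_lit 1) (nat_lit 5) (nat_lit 0x155150) (nat_lit 0x20003000300020001000000010002000400000000))) (.non (nat_lit 1) (nat_lit 4) (nat_lit 0x154050) (nat_lit 0x10001000200010000000000000001000200000000))) (.non (nat_lit 1) (nat_lit 4) (nat_lit 0x155050) (nat_lit 0x10001000200020001000000000001000200000000))) (.non (nat_lit 1) (nat_lit 4) (nat_lit 0x155450) (nat_lit 0x10001000200020002000100000001000200000000))) (.non (nat_lit 1) (nat_lit 5) (nat_lit 0x155150) (nat_lit 0x20002000300020001000000010003000400000000))) (.star (nat_lit 0xa) (nat_lit 2) (nat_lit 4))) (.star (nat_lit 0xa) (nat_lit 1) (nat_lit 4)))))) (.split (nat_lit 9) (nat_lit 1) (.split (nat_lit 9) (nat_lit 2) (.split (nat_lit 8) (nat_lit 1) (.split (nat_lit 8) (nat_lit 2) (.sup (nat_lit 0x20006000b0010000d0000000000000000)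 (nat_lit 0x2000000000000000000000001000200020001)) (.non (nat_lit 1) (nat_lit 4) (nat_lit 0x6a010) (nat_lit 0x2000300020001000000000000000400000000))) (.non (nat_lit 2) (nat_lit 4) (nat_lit 0x6a004) (nat_lit 0x2000300020001000000000000000000040000))) (.non (nat_lit 1) (nat_lit 4) (nat_lit 0x90050) (nat_lit 0x1000100000000000000000001000200000000))) (.non (nat_lit 2) (nat_lit 4) (nat_lit 0x90005) (nat_lit 0x1000100000000000000000000000000020001)))) (.split (nat_lit 9) (nat_lit 1) (.split (nat_lit 9) (nat_lit 0) (.split (nat_lit 9) (nat_lit 2) (.split (nat_lit 8) (nat_lit 1) (.split (nat_lit 8) (nat_lit 2) (.sup (nat_lit 0x10006000b0010000d0000000000000000) (nat_lit 0x2000000000000000000000001000200020002)) (.non (nat_lit 1) (nat_lit 4) (nat_lit 0x6a010) (nat_lit 0x2000300020001000000000000000400000000))) (.non (nat_lit 2) (nat_lit 4) (nat_lit 0x68005) (nat_lit 0x1000200010000000000000000000000030002))) (.non (nat_lit 1) (nat_lit 4) (nat_lit 0x90050) (nat_lit 0x1000100000000000000000001000200000000))) (.non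 (nat_lit 1) (nat_lit 4) (nat_lit 0xa00a1) (nat_lit 0x2000100000000000000000001000200000002))) (.non (nat_lit 2) (nat_lit 4) (nat_lit 0x40005) (nat_lit 0x1000000000000000000000000000000010001))))

noncomputable def t757_172 : Tr := (.ex (nat_lit 5) (.split (nat_lit 8) (nat_lit 2) (.split (nat_lit 8) (nat_lit 7) (.split (nat_lit 8) (nat_lit 1) (.split (nat_lit 9) (nat_lit 1) (.pd (.cons (nat_lit 1) (nat_lit 6) (nat_lit 0) (nat_lit 0x9280442200) (nat_lit 0xf423fb71aef423f00000f423f54591f423f65b9700000f423f) (.cons (nat_lit 1) (nat_lit 7) (nat_lit 0) (nat_lit 0x9205442200) (nat_lit 0xf423ff423f00000f423fb71ae1f156f423f7a11d00000f423f) (.cons (nat_lit 1) (nat_lit 8) (nat_lit 0) (nat_lit 0x9065442200) (nat_lit 0xf423f00000f423fb71aea2c2804737f423fb71ae00000f423f) (.cons (nat_lit 2) (nat_lit 6) (nat_lit 0) (nat_lit 0x1180443000) (nat_lit 0xf423fb71aef423f00000f423f54591f423f0000065b9761a79) (.cons (nat_lit 2) (nat_lit 7) (nat_lit 0) (nat_lit 0x1105443000) (nat_lit 0xf423ff423f00000f423fb71ae1f156f423f000007a11d7a11b)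 (.cons (nat_lit 2) (nat_lit 8) (nat_lit 0) (nat_lit 0x1065443000) (nat_lit 0xf423f00000f423fb71aea2c2804737f423f00000b71aea2c28) .nil)))))) (.leaf (.cons (nat_lit 0x10014) (nat_lit 0x100000000000000000000000100010000) (.cons (nat_lit 0x40054) (nat_lit 0x1000000000000000000000001000200020000) (.cons (nat_lit 0x40015) (nat_lit 0x1000000000000000000000000000200020001) .nil))) .nil)) (.non (nat_lit 2) (nat_lit 4) (nat_lit 0x90005) (nat_lit 0x1000100000000000000000000000000020001))) (.non (nat_lit 2) (nat_lit 4) (nat_lit 0x6a004) (nat_lit 0x2000300020001000000000000000000040000))) (.non (nat_lit 1) (nat_lit 4) (nat_lit 0x1a810) (nat_lit 0x400030002000100000000000200000000))) (.non (nat_lit 1) (nat_lit 4) (nat_lit 0x2a050) (nat_lit 0x300020001000000000002000400000000))) (.split (nat_lit 0xa) (nat_lit 0) (.split (nat_lit 0xa) (nat_lit 1) (.split (nat_lit 0xa) (nat_lit 2) (.split (nat_lit 0xa) (nat_lit 3) (.split (nat_lit 0xa) (nat_lit 6) (.split (nat_lit 0xa) (nat_lit 7) (.split (nat_lit 0xa) (nat_lit 8) (.split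 (nat_lit 0xa) (nat_lit 9) (.split (nat_lit 0xa) (nat_lit 4) (.unj (nat_lit 0x10014) (nat_lit 0x100000000000000000000000100010000) (nat_lit 0x101500) (nat_lit 0x10000000000000001000200020000000000000000)) (.unj (nat_lit 0x10014) (nat_lit 0x100000000000000000000000100010000) (nat_lit 0x100500) (nat_lit 0x10000000000000000000100010000000000000000))) (.non (nat_lit 2) (nat_lit 4) (nat_lit 0x155404) (nat_lit 0x10001000100010001000100000000000000010000))) (.non (nat_lit 1) (nat_lit 4) (nat_lit 0x115400) (nat_lit 0x10000000100010001000100000000000000000000))) (.non (nat_lit 1) (nat_lit 4) (nat_lit 0x105400) (nat_lit 0x10000000000010001000100000000000000000000))) (.non (nat_lit 1) (nat_lit 4) (nat_lit 0x101400) (nat_lit 0x10000000000000001000100000000000000000000))) (.non (nat_lit 1) (nat_lit 4) (nat_lit 0x115450) (nat_lit 0x10000000100010001000100000001000100000000))) (.star (nat_lit 0xa) (nat_lit 2) (nat_lit 5))) (.star (nat_lit 0xa) (nat_lit 1) (nat_lit 5))) (.non (nat_lit 2) (nat_lit 4) (nat_lit 0x115405) (nat_lit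 0x10000000100010001000100000000000000010001))))

noncomputable def t757_173 : Tr := (.split (nat_lit 9) (nat_lit 2) (.split (nat_lit 9) (nat_lit 3) (.st (nat_lit 6) (nat_lit 2) (nat_lit 4) (nat_lit 0x55405) (nat_lit 0x1000200020002000100000000000000020001) (nat_lit 1) (nat_lit 1) (.st (nat_lit 7) (nat_lit 2) (nat_lit 4) (nat_lit 0x55005) (nat_lit 0x1000200020001000000000000000000020001) (nat_lit 1) (nat_lit 1) (.ex (nat_lit 4) t757_172 (.split (nat_lit 0xa) (nat_lit 0) (.split (nat_lit 0xa) (nat_lit 1) (.split (nat_lit 0xa) (nat_lit 2) (.split (nat_lit 0xa) (nat_lit 6) (.split (nat_lit 0xa) (nat_lit 7) (.split (nat_lit 0xa) (nat_lit 8) (.split (nat_lit 0xa) (nat_lit 9) (.split (nat_lit 0xa) (nat_lit 3) (.split (nat_lit 0xa) (nat_lit 5) (.unj (nat_lit 0x10014) (nat_lit 0x100000000000000000000000100010000) (nat_lit 0x101500) (nat_lit 0x10000000000000001000200020000000000000000)) (.unj (nat_lit 0x10014) (nat_lit 0x100000000000000000000000100010000) (nat_lit 0x100500) (nat_lit 0x10000000000000000000100010000000000000000)))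 (.split (nat_lit 0xa) (nat_lit 5) (.unj (nat_lit 0x10014) (nat_lit 0x100000000000000000000000100010000) (nat_lit 0x101500) (nat_lit 0x10000000000000001000200020000000000000000)) (.non (nat_lit 1) (nat_lit 4) (nat_lit 0x115450) (nat_lit 0x10000000100010001000100000001000100000000)))) (.non (nat_lit 2) (nat_lit 5) (nat_lit 0x155105) (nat_lit 0x20003000300020001000000010000000000040002))) (.non (nat_lit 1) (nat_lit 5) (nat_lit 0x115150) (nat_lit 0x20000000300020001000000010001000200000000))) (.non (nat_lit 2) (nat_lit 4) (nat_lit 0x155005) (nat_lit 0x10001000200020001000000000000000000020001))) (.non (nat_lit 2) (nat_lit 4) (nat_lit 0x155405) (nat_lit 0x10001000200020002000100000000000000020001))) (.star (nat_lit 0xa) (nat_lit 2) (nat_lit 4))) (.star (nat_lit 0xa) (nat_lit 1) (nat_lit 4))) (.non (nat_lit 2) (nat_lit 5) (nat_lit 0x155105) (nat_lit 0x20002000300020001000000010000000000040003)))))) (.split (nat_lit 9) (nat_lit 1) (.split (nat_lit 9) (nat_lit 3) (.split (nat_lit 8) (nat_lit 1) (.split (nat_lit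 8) (nat_lit 2) (.sup (nat_lit 0x10006000b0010000d0000000000000000) (nat_lit 0x2000000000000000000000002000200020001)) (.non (nat_lit 1) (nat_lit 4) (nat_lit 0x68050) (nat_lit 0x1000200010000000000000002000300000000))) (.non (nat_lit 2) (nat_lit 4) (nat_lit 0x6a004) (nat_lit 0x2000300020001000000000000000000040000))) (.non (nat_lit 2) (nat_lit 4) (nat_lit 0x50085) (nat_lit 0x2000100000000000000000001000000020001))) (.non (nat_lit 2) (nat_lit 4) (nat_lit 0x94084) (nat_lit 0x2000200010000000000000001000000030000)))) (.split (nat_lit 9) (nat_lit 3) (.split (nat_lit 9) (nat_lit 1) (.split (nat_lit 9) (nat_lit 2) (.split (nat_lit 8) (nat_lit 1) (.split (nat_lit 8) (nat_lit 2) (.sup (nat_lit 0x20006000b0010000d0000000000000000) (nat_lit 0x2000000000000000000000001000200020001)) (.non (nat_lit 1) (nat_lit 4) (nat_lit 0x6a010) (nat_lit 0x2000300020001000000000000000400000000))) (.non (nat_lit 2) (nat_lit 4) (nat_lit 0x6a004) (nat_lit 0x2000300020001000000000000000000040000))) (.non (nat_lit 1) (nat_lit 4) (nat_lit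 0x90050) (nat_lit 0x1000100000000000000000001000200000000))) (.non (nat_lit 2) (nat_lit 4) (nat_lit 0x90005) (nat_lit 0x1000100000000000000000000000000020001))) (.non (nat_lit 1) (nat_lit 4) (nat_lit 0x40050) (nat_lit 0x1000000000000000000000001000100000000))))

noncomputable def t757_174 : Tr := (.ex (nat_lit 7) (.pd (.cons (nat_lit 0) (nat_lit 8) (nat_lit 0) (nat_lit 0x9065442110) (nat_lit 0xf423f00000f423fb71aea2c2804737f423fb71ae1f15600000) (.cons (nat_lit 1) (nat_lit 8) (nat_lit 0) (nat_lit 0x65442200) (nat_lit 0xf423f00000f423fb71aea2c2804737f423fb71ae00000b71ae) (.cons (nat_lit 2) (nat_lit 8) (nat_lit 0) (nat_lit 0x65443000) (nat_lit 0xf423f00000f423fb71aea2c2804737f423f00000f423f7a11d) .nil))) (.ex (nat_lit 9) (.pd (.cons (nat_lit 3) (nat_lit 8) (nat_lit 0) (nat_lit 0x65440100) (nat_lit 0xf423f00000f423fb71aea2c280473700000f423f5459106711) .nil) (.leaf (.cons (nat_lit 0x10014) (nat_lit 0x100000000000000000000000100010000) .nil) .nil)) (.split (nat_lit 0xa) (nat_lit 0) (.split (nat_lit 0xa) (nat_lit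 1) (.split (nat_lit 0xa) (nat_lit 2) (.split (nat_lit 0xa) (nat_lit 3) (.split (nat_lit 0xa) (nat_lit 4) (.split (nat_lit 0xa) (nat_lit 5) (.split (nat_lit 0xa) (nat_lit 6) (.split (nat_lit 0xa) (nat_lit 7) (.split (nat_lit 0xa) (nat_lit 8) (.leaf (.cons (nat_lit 0x10014) (nat_lit 0x100000000000000000000000100010000) (.cons (nat_lit 0x140015) (nat_lit 0x10002000000000000000000000000000300040003) .nil)) .nil) (.non (nat_lit 1) (nat_lit 4) (nat_lit 0x155050) (nat_lit 0x20001000300020001000000000001000200000000))) (.non (nat_lit 1) (nat_lit 4) (nat_lit 0x155410) (nat_lit 0x20001000200030002000100000000000100000000))) (.non (nat_lit 1) (nat_lit 4) (nat_lit 0x155411) (nat_lit 0x30002000200030004000200000000000100000001))) (.non (nat_lit 2) (nat_lit 4) (nat_lit 0x155405) (nat_lit 0x10001000100010001000100000000000000010001))) (.non (nat_lit 1) (nat_lit 6) (nat_lit 0x140501) (nat_lit 0x30002000000000000000300040000000000000001))) (.non (nat_lit 0) (nat_lit 8) (nat_lit 0x140054) (nat_lit 0x20001000000000000000000000003000400030000)))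 (.non (nat_lit 1) (nat_lit 4) (nat_lit 0x155051) (nat_lit 0x30002000300020001000000000002000400000001))) (.non (nat_lit 2) (nat_lit 4) (nat_lit 0x140005) (nat_lit 0x10001000000000000000000000000000000010001))) (.non (nat_lit 1) (nat_lit 4) (nat_lit 0x140001) (nat_lit 0x10001000000000000000000000000000000000001))))) (.split (nat_lit 0xa) (nat_lit 0) (.split (nat_lit 0xa) (nat_lit 1) (.split (nat_lit 0xa) (nat_lit 2) (.split (nat_lit 0xa) (nat_lit 3) (.split (nat_lit 0xa) (nat_lit 4) (.split (nat_lit 0xa) (nat_lit 5) (.split (nat_lit 0xa) (nat_lit 6) (.split (nat_lit 0xa) (nat_lit 8) (.split (nat_lit 0xa) (nat_lit 9) (.unj (nat_lit 0x55) (nat_lit 0x1000200020001) (nat_lit 0x105500) (nat_lit 0x10000000000020003000400030000000000000000)) (.non (nat_lit 1) (nat_lit 4) (nat_lit 0x155410) (nat_lit 0x20001000200030002000100000000000100000000))) (.non (nat_lit 1) (nat_lit 4) (nat_lit 0x114000) (nat_lit 0x10000000100010000000000000000000000000000))) (.non (nat_lit 1) (nat_lit 4) (nat_lit 0x105000) (nat_lit 0x10000000000010001000000000000000000000000)))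 (.non (nat_lit 1) (nat_lit 4) (nat_lit 0x105400) (nat_lit 0x10000000000010001000100000000000000000000))) (.non (nat_lit 1) (nat_lit 6) (nat_lit 0x114500) (nat_lit 0x30000000100020000000300040000000000000000))) (.non (nat_lit 1) (nat_lit 4) (nat_lit 0x114050) (nat_lit 0x10000000100010000000000000001000100000000))) (.non (nat_lit 1) (nat_lit 4) (nat_lit 0x114010) (nat_lit 0x10000000100010000000000000000000100000000))) (.non (nat_lit 2) (nat_lit 4) (nat_lit 0x114004) (nat_lit 0x10000000100010000000000000000000000010000))) (.non (nat_lit 1) (nat_lit 4) (nat_lit 0x115411) (nat_lit 0x20000000200030002000100000000000100000001))))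

noncomputable def t757_175 : Tr := (.split (nat_lit 9) (nat_lit 0) (.split (nat_lit 8) (nat_lit 1) (.pd (.cons (nat_lit 1) (nat_lit 6) (nat_lit 0) (nat_lit 0x280442200) (nat_lit 0xf423fb71aef423f00000f423f54591f423f65b9700000b71ae) (.cons (nat_lit 2) (nat_lit 6) (nat_lit 0) (nat_lit 0x180443000) (nat_lit 0xf423fb71aef423f00000f423f54591f423f00000a2c285b8d4) .nil)) (.ex (nat_lit 6) (.pd (.cons (nat_lit 1) (nat_lit 7) (nat_lit 0) (nat_lit 0x205442200) (nat_lit 0xf423ff423f00000f423fb71ae1f156f423f7a11d00000b71ae) (.cons (nat_lit 2) (nat_lit 7) (nat_lit 0) (nat_lit 0x105443000) (nat_lit 0xf423ff423f00000f423fb71ae1f156f423f00000b71ae65b97) .nil)) t757_174) (.split (nat_lit 0xa) (nat_lit 0) (.split (nat_lit 0xa) (nat_lit 1) (.split (nat_lit 0xa) (nat_lit 2) (.split (nat_lit 0xa) (nat_lit 3) (.split (nat_lit 0xa) (nat_lit 5) (.split (nat_lit 0xa) (nat_lit 7) (.split (nat_lit 0xa) (nat_lit 8) (.split (nat_lit 0xa) (nat_lit 9) (.split (nat_lit 0xa) (nat_lit 4) (.unj (nat_lit 0x55) (nat_lit 0x1000200020001) (nat_lit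 0x105500) (nat_lit 0x10000000000010002000200020000000000000000)) (.unj (nat_lit 0x10014) (nat_lit 0x100000000000000000000000100010000) (nat_lit 0x101500) (nat_lit 0x10000000000000001000100010000000000000000))) (.non (nat_lit 1) (nat_lit 4) (nat_lit 0x155411) (nat_lit 0x30002000200030004000200000000000100000001))) (.non (nat_lit 1) (nat_lit 4) (nat_lit 0x115000) (nat_lit 0x10000000100010001000000000000000000000000))) (.non (nat_lit 1) (nat_lit 4) (nat_lit 0x105000) (nat_lit 0x10000000000010001000000000000000000000000))) (.non (nat_lit 1) (nat_lit 4) (nat_lit 0x101400) (nat_lit 0x10000000000000001000100000000000000000000))) (.non (nat_lit 1) (nat_lit 4) (nat_lit 0x115050) (nat_lit 0x10000000100010001000000000001000100000000))) (.non (nat_lit 1) (nat_lit 4) (nat_lit 0x115010) (nat_lit 0x10000000100010001000000000000000100000000))) (.non (nat_lit 2) (nat_lit 4) (nat_lit 0x115004) (nat_lit 0x10000000100010001000000000000000000010000))) (.non (nat_lit 1) (nat_lit 4) (nat_lit 0x155411) (nat_lit 0x30001000200030004000200000000000100000002)))))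 (.non (nat_lit 2) (nat_lit 4) (nat_lit 0x68005) (nat_lit 0x1000200010000000000000000000000030002))) (.split (nat_lit 9) (nat_lit 0) (.split (nat_lit 8) (nat_lit 1) (.pd (.cons (nat_lit 1) (nat_lit 6) (nat_lit 0) (nat_lit 0x280442200) (nat_lit 0xf423fb71aef423f00000f423f54591f423f65b97000007a11e) (.cons (nat_lit 2) (nat_lit 6) (nat_lit 0) (nat_lit 0x180443000) (nat_lit 0xf423fb71aef423f00000f423f54591f423f00000a2c281e844) .nil)) (.st (nat_lit 6) (nat_lit 2) (nat_lit 4) (nat_lit 0x95405) (nat_lit 0x1000200020002000100000000000000020002) (nat_lit 1) (nat_lit 1) (.pd (.cons (nat_lit 1) (nat_lit 7) (nat_lit 0) (nat_lit 0x205442200) (nat_lit 0xf423ff423f00000f423fb71ae1f156f423f7a11d000007a11e) (.cons (nat_lit 2) (nat_lit 7) (nat_lit 0) (nat_lit 0x105443000) (nat_lit 0xf423ff423f00000f423fb71ae1f156f423f00000b71ae28b07) .nil)) (.st (nat_lit 7) (nat_lit 2) (nat_lit 4) (nat_lit 0x95005) (nat_lit 0x1000200020001000000000000000000020002) (nat_lit 1) (nat_lit 1) (.pd (.cons (nat_lit 0) (nat_lit 8) (nat_lit 0) (nat_lit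 0x9065442110) (nat_lit 0xf423f00000f423fb71aea2c2804737f423fb71ae1f15600000) (.cons (nat_lit 1) (nat_lit 8) (nat_lit 0) (nat_lit 0x65442200) (nat_lit 0xf423f00000f423fb71aea2c2804737f423fb71ae000007a11e) (.cons (nat_lit 2) (nat_lit 8) (nat_lit 0) (nat_lit 0x65443000) (nat_lit 0xf423f00000f423fb71aea2c2804737f423f00000f423f3d08d) .nil))) (.leaf (.cons (nat_lit 0x10014) (nat_lit 0x100000000000000000000000100010000) (.cons (nat_lit 0x40015) (nat_lit 0x1000000000000000000000000000100010001) .nil)) .nil)))))) (.non (nat_lit 2) (nat_lit 4) (nat_lit 0xa0005) (nat_lit 0x1000100000000000000000000000000020002))) (.non (nat_lit 2) (nat_lit 4) (nat_lit 0x54005) (nat_lit 0x3000200010000000000000000000000030004))))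

noncomputable def t757_176 : Tr := (.split (nat_lit 0xa) (nat_lit 0) (.split (nat_lit 0xa) (nat_lit 3) (.split (nat_lit 0xa) (nat_lit 5) (.split (nat_lit 0xa) (nat_lit 6) (.split (nat_lit 0xa) (nat_lit 7) (.split (nat_lit 0xa) (nat_lit 9) (.unj (nat_lit 0x10014) (nat_lit 0x100000000000000000000000100010000) (nat_lit 0x101500) (nat_lit 0x10000000000000001000200020000000000000000)) (.unj (nat_lit 0x10014) (nat_lit 0x100000000000000000000000100010000) (nat_lit 0x101500) (nat_lit 0x10000000000000001000200020000000000000000))) (.split (nat_lit 0xa) (nat_lit 9) (.unj (nat_lit 0x10014) (nat_lit 0x100000000000000000000000100010000) (nat_lit 0x101500) (nat_lit 0x10000000000000001000200020000000000000000)) (.non (nat_lit 1) (nat_lit 4) (nat_lit 0x155410) (nat_lit 0x20001000200030002000100000000000100000000)))) (.split (nat_lit 0xa) (nat_lit 7) (.split (nat_lit 0xa) (nat_lit 9) (.unj (nat_lit 0x10014) (nat_lit 0x100000000000000000000000100010000) (nat_lit 0x101500) (nat_lit 0x10000000000000001000100010000000000000000))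 (.non (nat_lit 1) (nat_lit 4) (nat_lit 0x155411) (nat_lit 0x30002000200030004000200000000000100000001))) (.non (nat_lit 1) (nat_lit 4) (nat_lit 0x105000) (nat_lit 0x10000000000010001000000000000000000000000)))) (.split (nat_lit 0xa) (nat_lit 6) (.split (nat_lit 0xa) (nat_lit 7) (.split (nat_lit 0xa) (nat_lit 9) (.unj (nat_lit 0x10014) (nat_lit 0x100000000000000000000000100010000) (nat_lit 0x100500) (nat_lit 0x10000000000000000000100010000000000000000)) (.non (nat_lit 2) (nat_lit 4) (nat_lit 0x155405) (nat_lit 0x10001000100010001000100000000000000010001))) (.non (nat_lit 1) (nat_lit 4) (nat_lit 0x105400) (nat_lit 0x10000000000010001000100000000000000000000))) (.non (nat_lit 1) (nat_lit 4) (nat_lit 0x101400) (nat_lit 0x10000000000000001000100000000000000000000)))) (.split (nat_lit 0xa) (nat_lit 5) (.split (nat_lit 0xa) (nat_lit 6) (.split (nat_lit 0xa) (nat_lit 7) (.split (nat_lit 0xa) (nat_lit 9) (.unj (nat_lit 0x10014) (nat_lit 0x100000000000000000000000100010000) (nat_lit 0x101500) (nat_lit 0x10000000000000001000200020000000000000000))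 (.non (nat_lit 1) (nat_lit 5) (nat_lit 0x155151) (nat_lit 0x60004000300020001000000030005000400000002))) (.non (nat_lit 1) (nat_lit 4) (nat_lit 0x114050) (nat_lit 0x10000000100010000000000000001000100000000))) (.non (nat_lit 1) (nat_lit 4) (nat_lit 0x115050) (nat_lit 0x10000000100010001000000000001000100000000))) (.non (nat_lit 1) (nat_lit 4) (nat_lit 0x115450) (nat_lit 0x10000000100010001000100000001000100000000)))) (.split (nat_lit 0xa) (nat_lit 3) (.split (nat_lit 0xa) (nat_lit 5) (.split (nat_lit 0xa) (nat_lit 6) (.split (nat_lit 0xa) (nat_lit 7) (.split (nat_lit 0xa) (nat_lit 9) (.unj (nat_lit 0x10014) (nat_lit 0x100000000000000000000000100010000) (nat_lit 0x101500) (nat_lit 0x10000000000000001000200020000000000000000)) (.non (nat_lit 1) (nat_lit 4) (nat_lit 0x140001) (nat_lit 0x10001000000000000000000000000000000000001))) (.non (nat_lit 1) (nat_lit 4) (nat_lit 0x115411) (nat_lit 0x20000000200030002000100000000000100000001))) (.non (nat_lit 1) (nat_lit 4) (nat_lit 0x155411) (nat_lit 0x30001000200030004000200000000000100000002)))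 (.non (nat_lit 2) (nat_lit 4) (nat_lit 0x115405) (nat_lit 0x10000000100010001000100000000000000010001))) (.non (nat_lit 1) (nat_lit 5) (nat_lit 0x155151) (nat_lit 0x60002000300020001000000030005000400000004))))

noncomputable def t757_177 : Tr := (.split (nat_lit 0xb) (nat_lit 0xa) (.ex (nat_lit 0xa) (.pd (.cons (nat_lit 0) (nat_lit 8) (nat_lit 0x101000000000) (nat_lit 0x93b065442110) (nat_lit 0x1f423f0000100000f423fb71aea2c2804737b71aea2c280473700000) .nil) (.leaf (.cons (nat_lit 0x10014) (nat_lit 0x100000000000000000000000100010000) (.cons (nat_lit 0x440015) (nat_lit 0x100000002000000000000000000000000000300040003) .nil)) .nil)) (.split (nat_lit 0xc) (nat_lit 0) (.split (nat_lit 0xc) (nat_lit 1) (.split (nat_lit 0xc) (nat_lit 2) (.split (nat_lit 0xc) (nat_lit 3) (.split (nat_lit 0xc) (nat_lit 4) (.split (nat_lit 0xc) (nat_lit 5) (.split (nat_lit 0xc) (nat_lit 6) (.split (nat_lit 0xc) (nat_lit 7) (.split (nat_lit 0xc) (nat_lit 8) (.split (nat_lit 0xc) (nat_lit 9) (.split (nat_lit 0xc) (nat_lit 0xb) (.leaf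 (.cons (nat_lit 0x10014) (nat_lit 0x100000000000000000000000100010000) (.cons (nat_lit 0x1100054) (nat_lit 0x1000000020000000000000000000000000003000400030000) (.cons (nat_lit 0x440015) (nat_lit 0x100000002000000000000000000000000000300040003) .nil))) .nil) (.leaf (.cons (nat_lit 0x10014) (nat_lit 0x100000000000000000000000100010000) (.cons (nat_lit 0x1100054) (nat_lit 0x1000000020000000000000000000000000003000400030000) (.cons (nat_lit 0x440015) (nat_lit 0x100000002000000000000000000000000000300040003) .nil))) .nil)) (.non (nat_lit 2) (nat_lit 4) (nat_lit 0x1555005) (nat_lit 0x4000300020006000300020001000000000000000000040005))) (.non (nat_lit 1) (nat_lit 4) (nat_lit 0x1110050) (nat_lit 0x1000000010000000100000000000000000001000100000000))) (.non (nat_lit 1) (nat_lit 4) (nat_lit 0x1115410) (nat_lit 0x2000000010000000200030002000100000000000100000000))) (.non (nat_lit 1) (nat_lit 4) (nat_lit 0x1115050) (nat_lit 0x1000000010000000100010001000000000001000100000000))) (.non (nat_lit 1) (nat_lit 4) (nat_lit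 0x1115450) (nat_lit 0x1000000010000000100010001000100000001000100000000))) (.non (nat_lit 1) (nat_lit 6) (nat_lit 0x1100540) (nat_lit 0x3000000020000000000000000000300040001000000000000))) (.non (nat_lit 1) (nat_lit 4) (nat_lit 0x1100040) (nat_lit 0x1000000010000000000000000000000000001000000000000))) (.non (nat_lit 1) (nat_lit 4) (nat_lit 0x1100050) (nat_lit 0x1000000010000000000000000000000000001000100000000))) (.non (nat_lit 2) (nat_lit 4) (nat_lit 0x1154005) (nat_lit 0x2000000010001000200010000000000000000000000030002))) (.non (nat_lit 2) (nat_lit 4) (nat_lit 0x1550005) (nat_lit 0x2000100010002000100000000000000000000000000020003)))) (.leaf (.cons (nat_lit 0x10014) (nat_lit 0x100000000000000000000000100010000) (.cons (nat_lit 0x500054) (nat_lit 0x100020000000000000000000000000003000400030000) (.cons (nat_lit 0x440015) (nat_lit 0x100000002000000000000000000000000000300040003) .nil))) .nil))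

noncomputable def t757_178 : Tr := (.ex (nat_lit 9) (.pd (.cons (nat_lit 3) (nat_lit 8) (nat_lit 0) (nat_lit 0xa0065440100) (nat_lit 0xf423ff423f00000f423fb71aea2c280473700000f423f5459106711) .nil) (.ex (nat_lit 0xa) (.pd (.cons (nat_lit 0) (nat_lit 8) (nat_lit 0) (nat_lit 0x39065442110) (nat_lit 0xf423ff423f00000f423fb71aea2c2804737b71aea2c280473700000) .nil) (.leaf (.cons (nat_lit 0x10014) (nat_lit 0x100000000000000000000000100010000) .nil) .nil)) (.split (nat_lit 0xb) (nat_lit 0) (.split (nat_lit 0xb) (nat_lit 1) (.split (nat_lit 0xb) (nat_lit 2) (.split (nat_lit 0xb) (nat_lit 3) (.split (nat_lit 0xb) (nat_lit 4) (.split (nat_lit 0xb) (nat_lit 5) (.split (nat_lit 0xb) (nat_lit 6) (.split (nat_lit 0xb) (nat_lit 7) (.split (nat_lit 0xb) (nat_lit 8) (.split (nat_lit 0xb) (nat_lit 9) (.leaf (.cons (nat_lit 0x10014) (nat_lit 0x100000000000000000000000100010000) (.cons (nat_lit 0x500054) (nat_lit 0x100020000000000000000000000000003000400030000) .nil)) .nil) (.non (nat_lit 3) (nat_lit 8) (nat_lit 0x440015)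 (nat_lit 0x100000002000000000000000000000000000300040003))) (.non (nat_lit 1) (nat_lit 4) (nat_lit 0x510050) (nat_lit 0x100010000000100000000000000000001000100000000))) (.non (nat_lit 1) (nat_lit 4) (nat_lit 0x515410) (nat_lit 0x200010000000200030002000100000000000100000000))) (.non (nat_lit 1) (nat_lit 4) (nat_lit 0x515050) (nat_lit 0x100010000000100010001000000000001000100000000))) (.non (nat_lit 1) (nat_lit 4) (nat_lit 0x515450) (nat_lit 0x100010000000100010001000100000001000100000000))) (.non (nat_lit 1) (nat_lit 6) (nat_lit 0x500540) (nat_lit 0x300020000000000000000000300040001000000000000))) (.non (nat_lit 1) (nat_lit 4) (nat_lit 0x500040) (nat_lit 0x100010000000000000000000000000001000000000000))) (.non (nat_lit 1) (nat_lit 4) (nat_lit 0x500050) (nat_lit 0x100010000000000000000000000000001000100000000))) (.non (nat_lit 2) (nat_lit 4) (nat_lit 0x554005) (nat_lit 0x200010001000200010000000000000000000000030002))) (.non (nat_lit 2) (nat_lit 4) (nat_lit 0x555405) (nat_lit 0x400020003000400030002000100000000000000050006)))))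 (.split (nat_lit 0xb) (nat_lit 0) (.split (nat_lit 0xb) (nat_lit 1) (.split (nat_lit 0xb) (nat_lit 2) (.split (nat_lit 0xb) (nat_lit 3) (.split (nat_lit 0xb) (nat_lit 4) (.split (nat_lit 0xb) (nat_lit 5) (.split (nat_lit 0xb) (nat_lit 6) (.split (nat_lit 0xb) (nat_lit 7) (.split (nat_lit 0xb) (nat_lit 8) t757_177 (.non (nat_lit 1) (nat_lit 4) (nat_lit 0x455050) (nat_lit 0x200000001000300020001000000000001000200000000))) (.non (nat_lit 1) (nat_lit 4) (nat_lit 0x455410) (nat_lit 0x200000001000200030002000100000000000100000000))) (.non (nat_lit 1) (nat_lit 4) (nat_lit 0x555450) (nat_lit 0x400010002000400050006000300000002000300000000))) (.non (nat_lit 2) (nat_lit 4) (nat_lit 0x455405) (nat_lit 0x100000001000100010001000100000000000000010001))) (.non (nat_lit 1) (nat_lit 6) (nat_lit 0x440501) (nat_lit 0x300000002000000000000000300040000000000000001))) (.non (nat_lit 1) (nat_lit 4) (nat_lit 0x555450) (nat_lit 0x400030002000400030002000100000006000500000000))) (.non (nat_lit 1) (nat_lit 4) (nat_lit 0x554050) (nat_lit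 0x200010001000200010000000000000002000300000000))) (.non (nat_lit 2) (nat_lit 4) (nat_lit 0x440005) (nat_lit 0x100000001000000000000000000000000000000010001))) (.non (nat_lit 1) (nat_lit 4) (nat_lit 0x440001) (nat_lit 0x100000001000000000000000000000000000000000001))))

noncomputable def t757_179 : Tr := (.ex (nat_lit 6) (.pd (.cons (nat_lit 1) (nat_lit 7) (nat_lit 0) (nat_lit 0x30205442200) (nat_lit 0xf423ff423ff423f00000f423fb71ae1f156b71ae65b9700000b71ae) (.cons (nat_lit 2) (nat_lit 7) (nat_lit 0) (nat_lit 0x30105443000) (nat_lit 0xf423ff423ff423f00000f423fb71ae1f156b71ae00000b71ae65b97) .nil)) (.ex (nat_lit 7) (.pd (.cons (nat_lit 1) (nat_lit 8) (nat_lit 0) (nat_lit 0x30065442200) (nat_lit 0xf423ff423f00000f423fb71aea2c2804737b71aea2c2800000b71ae) (.cons (nat_lit 2) (nat_lit 8) (nat_lit 0) (nat_lit 0x30065443000) (nat_lit 0xf423ff423f00000f423fb71aea2c2804737b71ae00000f423f7a11d) .nil)) t757_178) (.split (nat_lit 0xb) (nat_lit 0) (.split (nat_lit 0xb) (nat_lit 1) (.split (nat_lit 0xb) (nat_lit 2) (.split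 (nat_lit 0xb) (nat_lit 3) (.split (nat_lit 0xb) (nat_lit 4) (.split (nat_lit 0xb) (nat_lit 5) (.split (nat_lit 0xb) (nat_lit 6) (.split (nat_lit 0xb) (nat_lit 8) (.split (nat_lit 0xb) (nat_lit 9) (.split (nat_lit 0xb) (nat_lit 0xa) (.unj (nat_lit 0x55) (nat_lit 0x1000200020001) (nat_lit 0x405500) (nat_lit 0x100000000000000020003000400030000000000000000)) (.non (nat_lit 1) (nat_lit 4) (nat_lit 0x515410) (nat_lit 0x200010000000200030002000100000000000100000000))) (.non (nat_lit 1) (nat_lit 4) (nat_lit 0x455410) (nat_lit 0x200000001000200030002000100000000000100000000))) (.non (nat_lit 1) (nat_lit 4) (nat_lit 0x414000) (nat_lit 0x100000000000100010000000000000000000000000000))) (.non (nat_lit 1) (nat_lit 4) (nat_lit 0x405000) (nat_lit 0x100000000000000010001000000000000000000000000))) (.non (nat_lit 1) (nat_lit 4) (nat_lit 0x405400) (nat_lit 0x100000000000000010001000100000000000000000000))) (.non (nat_lit 1) (nat_lit 6) (nat_lit 0x414500) (nat_lit 0x300000000000100020000000300040000000000000000))) (.non (nat_lit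 1) (nat_lit 4) (nat_lit 0x414050) (nat_lit 0x100000000000100010000000000000001000100000000))) (.non (nat_lit 1) (nat_lit 4) (nat_lit 0x414010) (nat_lit 0x100000000000100010000000000000000000100000000))) (.non (nat_lit 2) (nat_lit 4) (nat_lit 0x414004) (nat_lit 0x100000000000100010000000000000000000000010000))) (.non (nat_lit 1) (nat_lit 4) (nat_lit 0x415411) (nat_lit 0x200000000000200030002000100000000000100000001))))) (.split (nat_lit 0xb) (nat_lit 0) (.split (nat_lit 0xb) (nat_lit 1) (.split (nat_lit 0xb) (nat_lit 2) (.split (nat_lit 0xb) (nat_lit 3) (.split (nat_lit 0xb) (nat_lit 5) (.split (nat_lit 0xb) (nat_lit 7) (.split (nat_lit 0xb) (nat_lit 8) (.split (nat_lit 0xb) (nat_lit 9) (.split (nat_lit 0xb) (nat_lit 0xa) (.split (nat_lit 0xb) (nat_lit 4) (.unj (nat_lit 0x55) (nat_lit 0x1000200020001) (nat_lit 0x405500) (nat_lit 0x100000000000000010002000200020000000000000000)) (.unj (nat_lit 0x10014) (nat_lit 0x100000000000000000000000100010000) (nat_lit 0x401500) (nat_lit 0x100000000000000000001000100010000000000000000)))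 (.non (nat_lit 1) (nat_lit 4) (nat_lit 0x515050) (nat_lit 0x100010000000100010001000000000001000100000000))) (.non (nat_lit 1) (nat_lit 4) (nat_lit 0x555450) (nat_lit 0x400010002000400050006000300000002000300000000))) (.non (nat_lit 1) (nat_lit 4) (nat_lit 0x415000) (nat_lit 0x100000000000100010001000000000000000000000000))) (.non (nat_lit 1) (nat_lit 4) (nat_lit 0x405000) (nat_lit 0x100000000000000010001000000000000000000000000))) (.non (nat_lit 1) (nat_lit 4) (nat_lit 0x401400) (nat_lit 0x100000000000000000001000100000000000000000000))) (.non (nat_lit 1) (nat_lit 4) (nat_lit 0x415050) (nat_lit 0x100000000000100010001000000000001000100000000))) (.non (nat_lit 1) (nat_lit 4) (nat_lit 0x415010) (nat_lit 0x100000000000100010001000000000000000100000000))) (.non (nat_lit 2) (nat_lit 4) (nat_lit 0x415004) (nat_lit 0x100000000000100010001000000000000000000010000))) (.non (nat_lit 1) (nat_lit 4) (nat_lit 0x455411) (nat_lit 0x300000001000200030004000200000000000100000002))))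

noncomputable def t757_180 : Tr := (.pd (.cons (nat_lit 1) (nat_lit 7) (nat_lit 0) (nat_lit 0x30205442200) (nat_lit 0xf423ff423ff423f00000f423fb71ae1f156b71ae65b97000007a11e) (.cons (nat_lit 2) (nat_lit 7) (nat_lit 0) (nat_lit 0x30105443000) (nat_lit 0xf423ff423ff423f00000f423fb71ae1f156b71ae00000b71ae28b07) .nil)) (.st (nat_lit 7) (nat_lit 2) (nat_lit 4) (nat_lit 0x95005) (nat_lit 0x1000200020001000000000000000000020002) (nat_lit 1) (nat_lit 1) (.pd (.cons (nat_lit 1) (nat_lit 8) (nat_lit 0) (nat_lit 0x30065442200) (nat_lit 0xf423ff423f00000f423fb71aea2c2804737b71aea2c28000007a11e) (.cons (nat_lit 2) (nat_lit 8) (nat_lit 0) (nat_lit 0x30065443000) (nat_lit 0xf423ff423f00000f423fb71aea2c2804737b71ae00000f423f3d08d) .nil)) (.ex (nat_lit 0xa) (.pd (.cons (nat_lit 0) (nat_lit 8) (nat_lit 0) (nat_lit 0x39065442110) (nat_lit 0xf423ff423f00000f423fb71aea2c2804737b71aea2c280473700000) .nil) (.leaf (.cons (nat_lit 0x10014) (nat_lit 0x100000000000000000000000100010000) (.cons (nat_lit 0x40015) (nat_lit 0x1000000000000000000000000000100010001)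 .nil)) .nil)) (.split (nat_lit 0xb) (nat_lit 0) (.split (nat_lit 0xb) (nat_lit 1) (.split (nat_lit 0xb) (nat_lit 2) (.split (nat_lit 0xb) (nat_lit 3) (.split (nat_lit 0xb) (nat_lit 4) (.split (nat_lit 0xb) (nat_lit 5) (.split (nat_lit 0xb) (nat_lit 6) (.split (nat_lit 0xb) (nat_lit 7) (.split (nat_lit 0xb) (nat_lit 8) (.split (nat_lit 0xb) (nat_lit 9) (.leaf (.cons (nat_lit 0x10014) (nat_lit 0x100000000000000000000000100010000) (.cons (nat_lit 0x500054) (nat_lit 0x100020000000000000000000000000003000400030000) (.cons (nat_lit 0x40015) (nat_lit 0x1000000000000000000000000000100010001) .nil))) .nil) (.non (nat_lit 2) (nat_lit 4) (nat_lit 0xa80005) (nat_lit 0x200010003000000000000000000000000000000020004))) (.non (nat_lit 1) (nat_lit 4) (nat_lit 0x510050) (nat_lit 0x100010000000100000000000000000001000100000000))) (.non (nat_lit 1) (nat_lit 4) (nat_lit 0x515410) (nat_lit 0x200010000000200030002000100000000000100000000))) (.non (nat_lit 1) (nat_lit 4) (nat_lit 0x515050) (nat_lit 0x100010000000100010001000000000001000100000000)))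 (.non (nat_lit 1) (nat_lit 4) (nat_lit 0x515450) (nat_lit 0x100010000000100010001000100000001000100000000))) (.non (nat_lit 1) (nat_lit 6) (nat_lit 0x500540) (nat_lit 0x300020000000000000000000300040001000000000000))) (.non (nat_lit 1) (nat_lit 4) (nat_lit 0x500040) (nat_lit 0x100010000000000000000000000000001000000000000))) (.non (nat_lit 1) (nat_lit 4) (nat_lit 0x500050) (nat_lit 0x100010000000000000000000000000001000100000000))) (.non (nat_lit 2) (nat_lit 4) (nat_lit 0x490005) (nat_lit 0x100000001000100000000000000000000000000020002))) (.non (nat_lit 2) (nat_lit 4) (nat_lit 0x480005) (nat_lit 0x100000001000000000000000000000000000000010002)))))))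

noncomputable def t757_181 : Tr := (.pd (.cons (nat_lit 1) (nat_lit 7) (nat_lit 0) (nat_lit 0x30205442200) (nat_lit 0xf423ff423ff423f00000f423fb71ae1f1567a11e3d08b00000b71ae) (.cons (nat_lit 2) (nat_lit 7) (nat_lit 0) (nat_lit 0x30105443000) (nat_lit 0xf423ff423ff423f00000f423fb71ae1f1567a11e00000b71ae65b97) .nil)) (.st (nat_lit 7) (nat_lit 1) (nat_lit 4) (nat_lit 0x215050) (nat_lit 0x10000000200020001000000000002000200000000) (nat_lit 1) (nat_lit 1) (.pd (.cons (nat_lit 1) (nat_lit 8) (nat_lit 0) (nat_lit 0x30065442200) (nat_lit 0xf423ff423f00000f423fb71aea2c28047377a11e7a11c00000b71ae) (.cons (nat_lit 2) (nat_lit 8) (nat_lit 0) (nat_lit 0x30065443000) (nat_lit 0xf423ff423f00000f423fb71aea2c28047377a11e00000f423f7a11d) .nil)) (.ex (nat_lit 9) (.pd (.cons (nat_lit 3) (nat_lit 8) (nat_lit 0) (nat_lit 0xa0065440100) (nat_lit 0xf423ff423f00000f423fb71aea2c280473700000f423f5459106711) .nil) (.leaf (.cons (nat_lit 0x10014) (nat_lit 0x100000000000000000000000100010000) (.cons (nat_lit 0x100054) (nat_lit 0x10000000000000000000000000001000100010000)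 .nil)) .nil)) (.split (nat_lit 0xb) (nat_lit 0) (.split (nat_lit 0xb) (nat_lit 1) (.split (nat_lit 0xb) (nat_lit 2) (.split (nat_lit 0xb) (nat_lit 3) (.split (nat_lit 0xb) (nat_lit 4) (.split (nat_lit 0xb) (nat_lit 5) (.split (nat_lit 0xb) (nat_lit 6) (.split (nat_lit 0xb) (nat_lit 7) (.split (nat_lit 0xb) (nat_lit 8) (.split (nat_lit 0xb) (nat_lit 0xa) (.leaf (.cons (nat_lit 0x10014) (nat_lit 0x100000000000000000000000100010000) (.cons (nat_lit 0x100054) (nat_lit 0x10000000000000000000000000001000100010000) (.cons (nat_lit 0x440015) (nat_lit 0x100000002000000000000000000000000000300040003) .nil))) .nil) (.non (nat_lit 1) (nat_lit 4) (nat_lit 0xa80050) (nat_lit 0x200030001000000000000000000000004000200000000))) (.non (nat_lit 1) (nat_lit 4) (nat_lit 0x614050) (nat_lit 0x100010000000200010000000000000002000200000000))) (.non (nat_lit 1) (nat_lit 4) (nat_lit 0x455410) (nat_lit 0x200000001000200030002000100000000000100000000))) (.non (nat_lit 1) (nat_lit 4) (nat_lit 0x615450) (nat_lit 0x100010000000200020002000100000002000200000000)))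 (.non (nat_lit 2) (nat_lit 4) (nat_lit 0x455405) (nat_lit 0x100000001000100010001000100000000000000010001))) (.non (nat_lit 1) (nat_lit 6) (nat_lit 0x440501) (nat_lit 0x300000002000000000000000300040000000000000001))) (.non (nat_lit 1) (nat_lit 4) (nat_lit 0x600050) (nat_lit 0x100010000000000000000000000000002000100000000))) (.non (nat_lit 1) (nat_lit 4) (nat_lit 0x610050) (nat_lit 0x100010000000100000000000000000002000200000000))) (.non (nat_lit 2) (nat_lit 4) (nat_lit 0x440005) (nat_lit 0x100000001000000000000000000000000000000010001))) (.non (nat_lit 1) (nat_lit 4) (nat_lit 0x440001) (nat_lit 0x100000001000000000000000000000000000000000001)))))))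

noncomputable def t757_182 : Tr := (.split (nat_lit 0xa) (nat_lit 3) (.split (nat_lit 8) (nat_lit 7) (.split (nat_lit 9) (nat_lit 0) (.split (nat_lit 8) (nat_lit 1) (.pd (.cons (nat_lit 1) (nat_lit 6) (nat_lit 0) (nat_lit 0x30280442200) (nat_lit 0xf423ff423fb71aef423f00000f423f54591b71ae5161100000b71ae) (.cons (nat_lit 2) (nat_lit 6) (nat_lit 0) (nat_lit 0x30180443000) (nat_lit 0xf423ff423fb71aef423f00000f423f54591b71ae00000a2c285b8d4) .nil)) t757_179) (.non (nat_lit 2) (nat_lit 4) (nat_lit 0x68005) (nat_lit 0x1000200010000000000000000000000030002))) (.split (nat_lit 9) (nat_lit 0) (.split (nat_lit 8) (nat_lit 1) (.pd (.cons (nat_lit 1) (nat_lit 6) (nat_lit 0) (nat_lit 0x30280442200) (nat_lit 0xf423ff423fb71aef423f00000f423f54591b71ae51611000007a11e) (.cons (nat_lit 2) (nat_lit 6) (nat_lit 0) (nat_lit 0x30180443000) (nat_lit 0xf423ff423fb71aef423f00000f423f54591b71ae00000a2c281e844) .nil)) (.st (nat_lit 6) (nat_lit 2) (nat_lit 4) (nat_lit 0x95405) (nat_lit 0x1000200020002000100000000000000020002) (nat_lit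 1) (nat_lit 1) t757_180)) (.non (nat_lit 2) (nat_lit 4) (nat_lit 0xa0005) (nat_lit 0x1000100000000000000000000000000020002))) (.non (nat_lit 2) (nat_lit 4) (nat_lit 0x54005) (nat_lit 0x3000200010000000000000000000000030004)))) (.non (nat_lit 1) (nat_lit 4) (nat_lit 0x1a810) (nat_lit 0x400030002000100000000000200000000))) (.split (nat_lit 0xa) (nat_lit 3) (.split (nat_lit 8) (nat_lit 7) (.split (nat_lit 9) (nat_lit 0) (.split (nat_lit 8) (nat_lit 1) (.pd (.cons (nat_lit 1) (nat_lit 6) (nat_lit 0) (nat_lit 0x30280442200) (nat_lit 0xf423ff423fb71aef423f00000f423f545917a11e28b0500000b71ae) (.cons (nat_lit 2) (nat_lit 6) (nat_lit 0) (nat_lit 0x30180443000) (nat_lit 0xf423ff423fb71aef423f00000f423f545917a11e00000a2c285b8d4) .nil)) (.st (nat_lit 6) (nat_lit 1) (nat_lit 4) (nat_lit 0x215450) (nat_lit 0x10000000200020002000100000002000200000000) (nat_lit 1) (nat_lit 1) t757_181)) (.non (nat_lit 2) (nat_lit 4) (nat_lit 0x68005) (nat_lit 0x1000200010000000000000000000000030002))) (.split (nat_lit 9) (nat_lit 0) (.split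 (nat_lit 8) (nat_lit 1) (.pd (.cons (nat_lit 1) (nat_lit 6) (nat_lit 0) (nat_lit 0x30280442200) (nat_lit 0xf423ff423fb71aef423f00000f423f545917a11e28b05000007a11e) (.cons (nat_lit 2) (nat_lit 6) (nat_lit 0) (nat_lit 0x30180443000) (nat_lit 0xf423ff423fb71aef423f00000f423f545917a11e00000a2c281e844) .nil)) (.st (nat_lit 6) (nat_lit 1) (nat_lit 4) (nat_lit 0x215450) (nat_lit 0x10000000200020002000100000002000200000000) (nat_lit 1) (nat_lit 1) (.pd (.cons (nat_lit 1) (nat_lit 7) (nat_lit 0) (nat_lit 0x30205442200) (nat_lit 0xf423ff423ff423f00000f423fb71ae1f1567a11e3d08b000007a11e) (.cons (nat_lit 2) (nat_lit 7) (nat_lit 0) (nat_lit 0x30105443000) (nat_lit 0xf423ff423ff423f00000f423fb71ae1f1567a11e00000b71ae28b07) .nil)) (.st (nat_lit 7) (nat_lit 1) (nat_lit 4) (nat_lit 0x215050) (nat_lit 0x10000000200020001000000000002000200000000) (nat_lit 1) (nat_lit 1) (.pd (.cons (nat_lit 1) (nat_lit 8) (nat_lit 0) (nat_lit 0x30065442200) (nat_lit 0xf423ff423f00000f423fb71aea2c28047377a11e7a11c000007a11e) (.cons (nat_lit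 2) (nat_lit 8) (nat_lit 0) (nat_lit 0x30065443000) (nat_lit 0xf423ff423f00000f423fb71aea2c28047377a11e00000f423f3d08d) .nil)) (.leaf (.cons (nat_lit 0x10014) (nat_lit 0x100000000000000000000000100010000) (.cons (nat_lit 0x100054) (nat_lit 0x10000000000000000000000000001000100010000) (.cons (nat_lit 0x40015) (nat_lit 0x1000000000000000000000000000100010001) .nil))) .nil)))))) (.non (nat_lit 2) (nat_lit 4) (nat_lit 0xa0005) (nat_lit 0x1000100000000000000000000000000020002))) (.non (nat_lit 2) (nat_lit 4) (nat_lit 0x54005) (nat_lit 0x3000200010000000000000000000000030004)))) (.non (nat_lit 1) (nat_lit 4) (nat_lit 0x1a810) (nat_lit 0x400030002000100000000000200000000))) (.non (nat_lit 1) (nat_lit 4) (nat_lit 0x114050) (nat_lit 0x30000000200010000000000000004000300000000))))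

noncomputable def t757_183 : Tr := (.split (nat_lit 0xb) (nat_lit 5) (.split (nat_lit 0xb) (nat_lit 6) (.split (nat_lit 0xb) (nat_lit 7) (.split (nat_lit 0xb) (nat_lit 9) (.split (nat_lit 0xb) (nat_lit 0xa) (.unj (nat_lit 0x10014) (nat_lit 0x100000000000000000000000100010000) (nat_lit 0x401500) (nat_lit 0x100000000000000000001000200020000000000000000)) (.unj (nat_lit 0x10014) (nat_lit 0x100000000000000000000000100010000) (nat_lit 0x401500) (nat_lit 0x100000000000000000001000200020000000000000000))) (.split (nat_lit 0xb) (nat_lit 0xa) (.unj (nat_lit 0x10014) (nat_lit 0x100000000000000000000000100010000) (nat_lit 0x401500) (nat_lit 0x100000000000000000001000200020000000000000000)) (.non (nat_lit 1) (nat_lit 5) (nat_lit 0x554151) (nat_lit 0x600050004000200010000000000030004000300000002)))) (.split (nat_lit 0xb) (nat_lit 9) (.split (nat_lit 0xb) (nat_lit 0xa) (.unj (nat_lit 0x10014) (nat_lit 0x100000000000000000000000100010000) (nat_lit 0x401500) (nat_lit 0x100000000000000000001000200020000000000000000)) (.non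 (nat_lit 1) (nat_lit 4) (nat_lit 0x515410) (nat_lit 0x200010000000200030002000100000000000100000000))) (.non (nat_lit 1) (nat_lit 4) (nat_lit 0x455410) (nat_lit 0x200000001000200030002000100000000000100000000)))) (.split (nat_lit 0xb) (nat_lit 7) (.split (nat_lit 0xb) (nat_lit 9) (.split (nat_lit 0xb) (nat_lit 0xa) (.unj (nat_lit 0x10014) (nat_lit 0x100000000000000000000000100010000) (nat_lit 0x401500) (nat_lit 0x100000000000000000001000100010000000000000000)) (.non (nat_lit 1) (nat_lit 4) (nat_lit 0x515050) (nat_lit 0x100010000000100010001000000000001000100000000))) (.non (nat_lit 1) (nat_lit 4) (nat_lit 0x555450) (nat_lit 0x400010002000400050006000300000002000300000000))) (.non (nat_lit 1) (nat_lit 4) (nat_lit 0x405000) (nat_lit 0x100000000000000010001000000000000000000000000)))) (.split (nat_lit 0xb) (nat_lit 6) (.split (nat_lit 0xb) (nat_lit 7) (.split (nat_lit 0xb) (nat_lit 9) (.split (nat_lit 0xb) (nat_lit 0xa) (.unj (nat_lit 0x10014) (nat_lit 0x100000000000000000000000100010000) (nat_lit 0x400500)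 (nat_lit 0x100000000000000000000000100010000000000000000)) (.non (nat_lit 1) (nat_lit 4) (nat_lit 0x515450) (nat_lit 0x100010000000100010001000100000001000100000000))) (.non (nat_lit 2) (nat_lit 4) (nat_lit 0x455405) (nat_lit 0x100000001000100010001000100000000000000010001))) (.non (nat_lit 1) (nat_lit 4) (nat_lit 0x405400) (nat_lit 0x100000000000000010001000100000000000000000000))) (.non (nat_lit 1) (nat_lit 4) (nat_lit 0x401400) (nat_lit 0x100000000000000000001000100000000000000000000))))

noncomputable def t757_184 : Tr := (.ex (nat_lit 4) (.ex (nat_lit 5) (.split (nat_lit 8) (nat_lit 2) t757_182 (.non (nat_lit 1) (nat_lit 4) (nat_lit 0x128050) (nat_lit 0x10000000200010000000000000002000300000000))) (.split (nat_lit 0xb) (nat_lit 0) (.split (nat_lit 0xb) (nat_lit 1) (.split (nat_lit 0xb) (nat_lit 2) (.split (nat_lit 0xb) (nat_lit 3) (.split (nat_lit 0xb) (nat_lit 6) (.split (nat_lit 0xb) (nat_lit 7) (.split (nat_lit 0xb) (nat_lit 8) (.split (nat_lit 0xb) (nat_lit 9) (.split (nat_lit 0xb) (nat_lit 0xa)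 (.split (nat_lit 0xb) (nat_lit 4) (.unj (nat_lit 0x10014) (nat_lit 0x100000000000000000000000100010000) (nat_lit 0x401500) (nat_lit 0x100000000000000000001000200020000000000000000)) (.unj (nat_lit 0x10014) (nat_lit 0x100000000000000000000000100010000) (nat_lit 0x400500) (nat_lit 0x100000000000000000000000100010000000000000000))) (.non (nat_lit 1) (nat_lit 4) (nat_lit 0x515450) (nat_lit 0x100010000000100010001000100000001000100000000))) (.non (nat_lit 2) (nat_lit 4) (nat_lit 0x455405) (nat_lit 0x100000001000100010001000100000000000000010001))) (.non (nat_lit 1) (nat_lit 4) (nat_lit 0x415400) (nat_lit 0x100000000000100010001000100000000000000000000))) (.non (nat_lit 1) (nat_lit 4) (nat_lit 0x405400) (nat_lit 0x100000000000000010001000100000000000000000000))) (.non (nat_lit 1) (nat_lit 4) (nat_lit 0x401400) (nat_lit 0x100000000000000000001000100000000000000000000))) (.non (nat_lit 1) (nat_lit 4) (nat_lit 0x415450) (nat_lit 0x100000000000100010001000100000001000100000000))) (.star (nat_lit 0xb) (nat_lit 2) (nat_lit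 5))) (.star (nat_lit 0xb) (nat_lit 1) (nat_lit 5))) (.non (nat_lit 2) (nat_lit 4) (nat_lit 0x415405) (nat_lit 0x100000000000100010001000100000000000000010001)))) (.split (nat_lit 0xb) (nat_lit 1) (.split (nat_lit 0xb) (nat_lit 2) (.split (nat_lit 0xb) (nat_lit 8) (.split (nat_lit 0xb) (nat_lit 0) (.split (nat_lit 0xb) (nat_lit 3) t757_183 (.split (nat_lit 0xb) (nat_lit 5) (.split (nat_lit 0xb) (nat_lit 6) (.split (nat_lit 0xb) (nat_lit 7) (.split (nat_lit 0xb) (nat_lit 9) (.split (nat_lit 0xb) (nat_lit 0xa) (.unj (nat_lit 0x10014) (nat_lit 0x100000000000000000000000100010000) (nat_lit 0x401500) (nat_lit 0x100000000000000000001000200020000000000000000)) (.non (nat_lit 1) (nat_lit 4) (nat_lit 0x500040) (nat_lit 0x100010000000000000000000000000001000000000000))) (.non (nat_lit 1) (nat_lit 4) (nat_lit 0x555450) (nat_lit 0x400030002000400030002000100000006000500000000))) (.non (nat_lit 1) (nat_lit 4) (nat_lit 0x414050) (nat_lit 0x100000000000100010000000000000001000100000000))) (.non (nat_lit 1) (nat_lit 4) (nat_lit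 0x415050) (nat_lit 0x100000000000100010001000000000001000100000000))) (.non (nat_lit 1) (nat_lit 4) (nat_lit 0x415450) (nat_lit 0x100000000000100010001000100000001000100000000)))) (.split (nat_lit 0xb) (nat_lit 3) (.split (nat_lit 0xb) (nat_lit 5) (.split (nat_lit 0xb) (nat_lit 6) (.split (nat_lit 0xb) (nat_lit 7) (.split (nat_lit 0xb) (nat_lit 9) (.split (nat_lit 0xb) (nat_lit 0xa) (.unj (nat_lit 0x10014) (nat_lit 0x100000000000000000000000100010000) (nat_lit 0x401500) (nat_lit 0x100000000000000000001000200020000000000000000)) (.non (nat_lit 1) (nat_lit 5) (nat_lit 0x554151) (nat_lit 0x600050002000200010000000000030004000300000004))) (.non (nat_lit 1) (nat_lit 4) (nat_lit 0x440001) (nat_lit 0x100000001000000000000000000000000000000000001))) (.non (nat_lit 1) (nat_lit 4) (nat_lit 0x415411) (nat_lit 0x200000000000200030002000100000000000100000001))) (.non (nat_lit 1) (nat_lit 4) (nat_lit 0x455411) (nat_lit 0x300000001000200030004000200000000000100000002))) (.non (nat_lit 2) (nat_lit 4) (nat_lit 0x415405)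 (nat_lit 0x100000000000100010001000100000000000000010001))) (.non (nat_lit 1) (nat_lit 4) (nat_lit 0x554051) (nat_lit 0x300020001000200010000000000000004000300000002)))) (.non (nat_lit 1) (nat_lit 4) (nat_lit 0x515450) (nat_lit 0x200010000000400030002000100000002000300000000))) (.star (nat_lit 0xb) (nat_lit 2) (nat_lit 4))) (.star (nat_lit 0xb) (nat_lit 1) (nat_lit 4))))

noncomputable def t757_185 : Tr := (.pd (.cons (nat_lit 1) (nat_lit 6) (nat_lit 0) (nat_lit 0x330280442200) (nat_lit 0xf423ff423ff423fb71aef423f00000f423f545917a11d28b0400000b71ae) (.cons (nat_lit 1) (nat_lit 7) (nat_lit 0) (nat_lit 0x330205442200) (nat_lit 0xf423ff423ff423ff423f00000f423fb71ae1f1567a11d3d08a00000b71ae) (.cons (nat_lit 1) (nat_lit 8) (nat_lit 0) (nat_lit 0x330065442200) (nat_lit 0xf423ff423ff423f00000f423fb71aea2c28047377a11d7a11b00000b71ae) (.cons (nat_lit 2) (nat_lit 6) (nat_lit 0) (nat_lit 0x330180443000) (nat_lit 0xf423ff423ff423fb71aef423f00000f423f545917a11d00000a2c285b8d4) (.cons (nat_lit 2) (nat_lit 7) (nat_lit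 0) (nat_lit 0x330105443000) (nat_lit 0xf423ff423ff423ff423f00000f423fb71ae1f1567a11d00000b71ae65b97) (.cons (nat_lit 2) (nat_lit 8) (nat_lit 0) (nat_lit 0x330065443000) (nat_lit 0xf423ff423ff423f00000f423fb71aea2c28047377a11d00000f423f7a11d) .nil)))))) (.ex (nat_lit 9) (.pd (.cons (nat_lit 3) (nat_lit 8) (nat_lit 0) (nat_lit 0xba0065440100) (nat_lit 0xf423ff423ff423f00000f423fb71aea2c280473700000f423f5459106711) .nil) (.leaf (.cons (nat_lit 0x10014) (nat_lit 0x100000000000000000000000100010000) (.cons (nat_lit 0x500054) (nat_lit 0x100010000000000000000000000000002000200020000) .nil)) .nil)) (.split (nat_lit 0xc) (nat_lit 0) (.split (nat_lit 0xc) (nat_lit 1) (.split (nat_lit 0xc) (nat_lit 2) (.split (nat_lit 0xc) (nat_lit 3) (.split (nat_lit 0xc) (nat_lit 4) (.split (nat_lit 0xc) (nat_lit 5) (.split (nat_lit 0xc) (nat_lit 6) (.split (nat_lit 0xc) (nat_lit 7) (.split (nat_lit 0xc) (nat_lit 8) (.split (nat_lit 0xc) (nat_lit 0xa) (.split (nat_lit 0xc) (nat_lit 0xb) (.leaf (.cons (nat_lit 0x10014) (nat_lit 0x100000000000000000000000100010000)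 (.cons (nat_lit 0x500054) (nat_lit 0x100010000000000000000000000000002000200020000) (.cons (nat_lit 0x1040015) (nat_lit 0x1000000000002000000000000000000000000000300040003) .nil))) .nil) (.non (nat_lit 1) (nat_lit 4) (nat_lit 0x1554050) (nat_lit 0x2000300020001000200010000000000000004000300000000))) (.non (nat_lit 1) (nat_lit 4) (nat_lit 0x1554050) (nat_lit 0x2000200030001000200010000000000000004000300000000))) (.non (nat_lit 1) (nat_lit 4) (nat_lit 0x1514050) (nat_lit 0x1000100010000000200010000000000000002000200000000))) (.non (nat_lit 1) (nat_lit 4) (nat_lit 0x1055410) (nat_lit 0x2000000000001000200030002000100000000000100000000))) (.non (nat_lit 1) (nat_lit 4) (nat_lit 0x1515450) (nat_lit 0x1000100010000000200020002000100000002000200000000))) (.non (nat_lit 2) (nat_lit 4) (nat_lit 0x1055405) (nat_lit 0x1000000000001000100010001000100000000000000010001))) (.non (nat_lit 1) (nat_lit 6) (nat_lit 0x1040501) (nat_lit 0x3000000000002000000000000000300040000000000000001))) (.non (nat_lit 1) (nat_lit 4) (nat_lit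 0x1500050) (nat_lit 0x1000100010000000000000000000000000002000100000000))) (.non (nat_lit 1) (nat_lit 4) (nat_lit 0x1510050) (nat_lit 0x1000100010000000100000000000000000002000200000000))) (.non (nat_lit 2) (nat_lit 4) (nat_lit 0x1040005) (nat_lit 0x1000000000001000000000000000000000000000000010001))) (.non (nat_lit 1) (nat_lit 4) (nat_lit 0x1040001) (nat_lit 0x1000000000001000000000000000000000000000000000001)))))

noncomputable def t757_186 : Tr := (.ex (nat_lit 5) (.split (nat_lit 8) (nat_lit 2) (.split (nat_lit 0xa) (nat_lit 3) (.split (nat_lit 0xb) (nat_lit 3) (.split (nat_lit 8) (nat_lit 7) (.split (nat_lit 9) (nat_lit 0) (.split (nat_lit 8) (nat_lit 1) t757_185 (.non (nat_lit 2) (nat_lit 4) (nat_lit 0x68005) (nat_lit 0x1000200010000000000000000000000030002))) (.split (nat_lit 9) (nat_lit 0) (.split (nat_lit 8) (nat_lit 1) (.pd (.cons (nat_lit 1) (nat_lit 6) (nat_lit 0) (nat_lit 0x330280442200) (nat_lit 0xf423ff423ff423fb71aef423f00000f423f545917a11d28b04000007a11e) (.cons (nat_lit 1) (nat_lit 7) (nat_lit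 0) (nat_lit 0x330205442200) (nat_lit 0xf423ff423ff423ff423f00000f423fb71ae1f1567a11d3d08a000007a11e) (.cons (nat_lit 1) (nat_lit 8) (nat_lit 0) (nat_lit 0x330065442200) (nat_lit 0xf423ff423ff423f00000f423fb71aea2c28047377a11d7a11b000007a11e) (.cons (nat_lit 2) (nat_lit 6) (nat_lit 0) (nat_lit 0x330180443000) (nat_lit 0xf423ff423ff423fb71aef423f00000f423f545917a11d00000a2c281e844) (.cons (nat_lit 2) (nat_lit 7) (nat_lit 0) (nat_lit 0x330105443000) (nat_lit 0xf423ff423ff423ff423f00000f423fb71ae1f1567a11d00000b71ae28b07) (.cons (nat_lit 2) (nat_lit 8) (nat_lit 0) (nat_lit 0x330065443000) (nat_lit 0xf423ff423ff423f00000f423fb71aea2c28047377a11d00000f423f3d08d) .nil)))))) (.leaf (.cons (nat_lit 0x10014) (nat_lit 0x100000000000000000000000100010000) (.cons (nat_lit 0x500054) (nat_lit 0x100010000000000000000000000000002000200020000) (.cons (nat_lit 0x40015) (nat_lit 0x1000000000000000000000000000100010001) .nil))) .nil)) (.non (nat_lit 2) (nat_lit 4) (nat_lit 0xa0005) (nat_lit 0x1000100000000000000000000000000020002)))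 (.non (nat_lit 2) (nat_lit 4) (nat_lit 0x54005) (nat_lit 0x3000200010000000000000000000000030004)))) (.non (nat_lit 1) (nat_lit 4) (nat_lit 0x1a810) (nat_lit 0x400030002000100000000000200000000))) (.non (nat_lit 1) (nat_lit 4) (nat_lit 0x900050) (nat_lit 0x100010000000000000000000000000002000100000000))) (.non (nat_lit 1) (nat_lit 4) (nat_lit 0x600050) (nat_lit 0x100010000000000000000000000000002000100000000))) (.non (nat_lit 1) (nat_lit 4) (nat_lit 0x520050) (nat_lit 0x100010000000100000000000000000002000200000000))) (.split (nat_lit 0xc) (nat_lit 0) (.split (nat_lit 0xc) (nat_lit 1) (.split (nat_lit 0xc) (nat_lit 2) (.split (nat_lit 0xc) (nat_lit 3) (.split (nat_lit 0xc) (nat_lit 6) (.split (nat_lit 0xc) (nat_lit 7) (.split (nat_lit 0xc) (nat_lit 8) (.split (nat_lit 0xc) (nat_lit 9) (.split (nat_lit 0xc) (nat_lit 0xa) (.split (nat_lit 0xc) (nat_lit 0xb) (.split (nat_lit 0xc) (nat_lit 4) (.unj (nat_lit 0x10014) (nat_lit 0x100000000000000000000000100010000) (nat_lit 0x1001500) (nat_lit 0x1000000000000000000000001000200020000000000000000))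 (.unj (nat_lit 0x10014) (nat_lit 0x100000000000000000000000100010000) (nat_lit 0x1000500) (nat_lit 0x1000000000000000000000000000100010000000000000000))) (.non (nat_lit 1) (nat_lit 4) (nat_lit 0x1514450) (nat_lit 0x2000300020000000200010000000100000004000300000000))) (.non (nat_lit 1) (nat_lit 4) (nat_lit 0x1514450) (nat_lit 0x2000200030000000200010000000100000004000300000000))) (.non (nat_lit 2) (nat_lit 4) (nat_lit 0x1055405) (nat_lit 0x1000000000001000100010001000100000000000000010001))) (.non (nat_lit 1) (nat_lit 4) (nat_lit 0x1015400) (nat_lit 0x1000000000000000100010001000100000000000000000000))) (.non (nat_lit 1) (nat_lit 4) (nat_lit 0x1005400) (nat_lit 0x1000000000000000000010001000100000000000000000000))) (.non (nat_lit 1) (nat_lit 4) (nat_lit 0x1001400) (nat_lit 0x1000000000000000000000001000100000000000000000000))) (.non (nat_lit 1) (nat_lit 4) (nat_lit 0x1500050) (nat_lit 0x1000100010000000000000000000000000002000100000000))) (.star (nat_lit 0xc) (nat_lit 2) (nat_lit 5))) (.star (nat_lit 0xc)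 (nat_lit 1) (nat_lit 5))) (.non (nat_lit 2) (nat_lit 4) (nat_lit 0x1015405) (nat_lit 0x1000000000000000100010001000100000000000000010001))))

noncomputable def t757_187 : Tr := (.st (nat_lit 6) (nat_lit 1) (nat_lit 4) (nat_lit 0x515450) (nat_lit 0x100010000000200020002000100000002000200000000) (nat_lit 1) (nat_lit 1) (.st (nat_lit 7) (nat_lit 1) (nat_lit 4) (nat_lit 0x515050) (nat_lit 0x100010000000200020001000000000002000200000000) (nat_lit 1) (nat_lit 1) (.ex (nat_lit 4) t757_186 (.split (nat_lit 0xc) (nat_lit 1) (.split (nat_lit 0xc) (nat_lit 2) (.split (nat_lit 0xc) (nat_lit 3) (.split (nat_lit 0xc) (nat_lit 6) (.split (nat_lit 0xc) (nat_lit 7) (.split (nat_lit 0xc) (nat_lit 8) (.split (nat_lit 0xc) (nat_lit 0xa) (.split (nat_lit 0xc) (nat_lit 0xb) (.split (nat_lit 0xc) (nat_lit 0) (.split (nat_lit 0xc) (nat_lit 5) (.split (nat_lit 0xc) (nat_lit 9) (.unj (nat_lit 0x10014) (nat_lit 0x100000000000000000000000100010000) (nat_lit 0x1001500) (nat_lit 0x1000000000000000000000001000200020000000000000000)) (.unj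 (nat_lit 0x10014) (nat_lit 0x100000000000000000000000100010000) (nat_lit 0x1001500) (nat_lit 0x1000000000000000000000001000200020000000000000000))) (.split (nat_lit 0xc) (nat_lit 9) (.unj (nat_lit 0x10014) (nat_lit 0x100000000000000000000000100010000) (nat_lit 0x1000500) (nat_lit 0x1000000000000000000000000000100010000000000000000)) (.non (nat_lit 2) (nat_lit 4) (nat_lit 0x1055405) (nat_lit 0x1000000000001000100010001000100000000000000010001)))) (.split (nat_lit 0xc) (nat_lit 5) (.split (nat_lit 0xc) (nat_lit 9) (.unj (nat_lit 0x10014) (nat_lit 0x100000000000000000000000100010000) (nat_lit 0x1001500) (nat_lit 0x1000000000000000000000001000200020000000000000000)) (.non (nat_lit 1) (nat_lit 4) (nat_lit 0x1040001) (nat_lit 0x1000000000001000000000000000000000000000000000001))) (.non (nat_lit 2) (nat_lit 4) (nat_lit 0x1015405) (nat_lit 0x1000000000000000100010001000100000000000000010001)))) (.non (nat_lit 1) (nat_lit 4) (nat_lit 0x1515450) (nat_lit 0x2000400030000000400030002000100000006000500000000))) (.non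 (nat_lit 1) (nat_lit 4) (nat_lit 0x1515450) (nat_lit 0x2000300040000000400030002000100000006000500000000))) (.non (nat_lit 1) (nat_lit 4) (nat_lit 0x1514050) (nat_lit 0x1000100010000000200010000000000000002000200000000))) (.non (nat_lit 1) (nat_lit 4) (nat_lit 0x1515050) (nat_lit 0x1000100010000000200020001000000000002000200000000))) (.non (nat_lit 1) (nat_lit 4) (nat_lit 0x1515450) (nat_lit 0x1000100010000000200020002000100000002000200000000))) (.non (nat_lit 1) (nat_lit 4) (nat_lit 0x1500050) (nat_lit 0x1000100010000000000000000000000000002000100000000))) (.star (nat_lit 0xc) (nat_lit 2) (nat_lit 4))) (.star (nat_lit 0xc) (nat_lit 1) (nat_lit 4))))))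

noncomputable def t757_188 : Tr := (.pd (.cons (nat_lit 1) (nat_lit 6) (nat_lit 0) (nat_lit 0x9028044a300) (nat_lit 0x927bd8e6a2b71aef423f00000f423f5459198965a2c28000008b821) (.cons (nat_lit 2) (nat_lit 6) (nat_lit 0) (nat_lit 0x9018044a000) (nat_lit 0xb71aea2c28b71aef423f00000f423f54591f423f00000a2c283d08b) .nil)) (.ex (nat_lit 6) (.pd (.cons (nat_lit 1) (nat_lit 7) (nat_lit 0) (nat_lit 0x9020544a300) (nat_lit 0x98965927bdf423f00000f423fb71ae1f156a2c28b71ae000008e6a2) (.cons (nat_lit 1) (nat_lit 8) (nat_lit 0) (nat_lit 0x9006544a300) (nat_lit 0xa2c289896500000f423fb71aea2c2804737b71aef423f00000927bd) (.cons (nat_lit 2) (nat_lit 7) (nat_lit 0) (nat_lit 0x9010544a000) (nat_lit 0xb71aea2c28f423f00000f423fb71ae1f156f423f00000b71ae4734e) (.cons (nat_lit 2) (nat_lit 8) (nat_lit 0) (nat_lit 0x9006544a000) (nat_lit 0xb71aea2c2800000f423fb71aea2c2804737f423f00000f423f5b8d4) .nil)))) (.leaf (.cons (nat_lit 0x10014) (nat_lit 0x100000000000000000000000100010000) (.cons (nat_lit 0x140054) (nat_lit 0x20001000000000000000000000003000400030000)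 (.cons (nat_lit 0x140015) (nat_lit 0x10002000000000000000000000000000300040003) .nil))) .nil)) (.split (nat_lit 0xb) (nat_lit 0) (.split (nat_lit 0xb) (nat_lit 1) (.split (nat_lit 0xb) (nat_lit 2) (.split (nat_lit 0xb) (nat_lit 3) (.split (nat_lit 0xb) (nat_lit 5) (.split (nat_lit 0xb) (nat_lit 7) (.split (nat_lit 0xb) (nat_lit 8) (.split (nat_lit 0xb) (nat_lit 9) (.split (nat_lit 0xb) (nat_lit 0xa) (.split (nat_lit 0xb) (nat_lit 4) (.unj (nat_lit 0x55) (nat_lit 0x1000200020001) (nat_lit 0x405500) (nat_lit 0x100000000000000010002000200020000000000000000)) (.unj (nat_lit 0x10014) (nat_lit 0x100000000000000000000000100010000) (nat_lit 0x401500) (nat_lit 0x100000000000000000001000100010000000000000000))) (.non (nat_lit 1) (nat_lit 4) (nat_lit 0x545440) (nat_lit 0x200020001000000010002000100000001000000000000))) (.non (nat_lit 1) (nat_lit 4) (nat_lit 0x555410) (nat_lit 0x300010002000200030004000200000000000100000000))) (.non (nat_lit 1) (nat_lit 4) (nat_lit 0x415000) (nat_lit 0x100000000000100010001000000000000000000000000)))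 (.non (nat_lit 1) (nat_lit 4) (nat_lit 0x405000) (nat_lit 0x100000000000000010001000000000000000000000000))) (.non (nat_lit 1) (nat_lit 4) (nat_lit 0x401400) (nat_lit 0x100000000000000000001000100000000000000000000))) (.non (nat_lit 1) (nat_lit 4) (nat_lit 0x551050) (nat_lit 0x200020001000100000001000000000003000200000000))) (.non (nat_lit 1) (nat_lit 4) (nat_lit 0x415010) (nat_lit 0x100000000000100010001000000000000000100000000))) (.non (nat_lit 2) (nat_lit 4) (nat_lit 0x415004) (nat_lit 0x100000000000100010001000000000000000000010000))) (.non (nat_lit 1) (nat_lit 4) (nat_lit 0x555441) (nat_lit 0x500020003000200040006000300000001000000000004)))))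

noncomputable def t757_189 : Tr := (.ex (nat_lit 4) (.ex (nat_lit 5) (.split (nat_lit 9) (nat_lit 0) (.split (nat_lit 8) (nat_lit 2) (.split (nat_lit 0xa) (nat_lit 3) (.split (nat_lit 8) (nat_lit 7) (.split (nat_lit 0xa) (nat_lit 9) (.split (nat_lit 8) (nat_lit 1) t757_188 (.non (nat_lit 2) (nat_lit 4) (nat_lit 0x68005) (nat_lit 0x1000200010000000000000000000000030002))) (.non (nat_lit 1) (nat_lit 4) (nat_lit 0x2400a1) (nat_lit 0x30004000000000000000000000002000100000002))) (.non (nat_lit 1) (nat_lit 4) (nat_lit 0x1a810) (nat_lit 0x400030002000100000000000200000000))) (.non (nat_lit 1) (nat_lit 4) (nat_lit 0x290050) (nat_lit 0x20001000100000000000000000003000200000000))) (.non (nat_lit 1) (nat_lit 4) (nat_lit 0x128050) (nat_lit 0x10000000200010000000000000002000300000000))) (.non (nat_lit 2) (nat_lit 4) (nat_lit 0x290005) (nat_lit 0x10002000100000000000000000000000000020003))) (.split (nat_lit 0xb) (nat_lit 0) (.split (nat_lit 0xb) (nat_lit 1) (.split (nat_lit 0xb) (nat_lit 2) (.split (nat_lit 0xb) (nat_lit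 3) (.split (nat_lit 0xb) (nat_lit 6) (.split (nat_lit 0xb) (nat_lit 7) (.split (nat_lit 0xb) (nat_lit 8) (.split (nat_lit 0xb) (nat_lit 9) (.split (nat_lit 0xb) (nat_lit 0xa) (.split (nat_lit 0xb) (nat_lit 4) (.unj (nat_lit 0x10014) (nat_lit 0x100000000000000000000000100010000) (nat_lit 0x401500) (nat_lit 0x100000000000000000001000200020000000000000000)) (.unj (nat_lit 0x10014) (nat_lit 0x100000000000000000000000100010000) (nat_lit 0x400500) (nat_lit 0x100000000000000000000000100010000000000000000))) (.non (nat_lit 1) (nat_lit 4) (nat_lit 0x551450) (nat_lit 0x300040002000100000001000200000003000200000000))) (.non (nat_lit 1) (nat_lit 4) (nat_lit 0x555450) (nat_lit 0x100010001000100010001000100000001000100000000))) (.non (nat_lit 1) (nat_lit 4) (nat_lit 0x415400) (nat_lit 0x100000000000100010001000100000000000000000000))) (.non (nat_lit 1) (nat_lit 4) (nat_lit 0x405400) (nat_lit 0x100000000000000010001000100000000000000000000))) (.non (nat_lit 1) (nat_lit 4) (nat_lit 0x401400) (nat_lit 0x100000000000000000001000100000000000000000000)))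 (.non (nat_lit 1) (nat_lit 4) (nat_lit 0x550450) (nat_lit 0x200020001000100000000000100000003000200000000))) (.star (nat_lit 0xb) (nat_lit 2) (nat_lit 5))) (.star (nat_lit 0xb) (nat_lit 1) (nat_lit 5))) (.non (nat_lit 1) (nat_lit 4) (nat_lit 0x555451) (nat_lit 0x100010001000100010001000100000001000100000001)))) (.split (nat_lit 0xb) (nat_lit 0) (.split (nat_lit 0xb) (nat_lit 1) (.split (nat_lit 0xb) (nat_lit 2) (.split (nat_lit 0xb) (nat_lit 3) (.split (nat_lit 0xb) (nat_lit 7) (.split (nat_lit 0xb) (nat_lit 8) (.split (nat_lit 0xb) (nat_lit 9) (.split (nat_lit 0xb) (nat_lit 0xa) (.split (nat_lit 0xb) (nat_lit 5) (.split (nat_lit 0xb) (nat_lit 6) (.unj (nat_lit 0x10014) (nat_lit 0x100000000000000000000000100010000) (nat_lit 0x401500) (nat_lit 0x100000000000000000001000200020000000000000000)) (.unj (nat_lit 0x10014) (nat_lit 0x100000000000000000000000100010000) (nat_lit 0x401500) (nat_lit 0x100000000000000000001000100010000000000000000))) (.split (nat_lit 0xb) (nat_lit 6) (.unj (nat_lit 0x10014) (nat_lit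 0x100000000000000000000000100010000) (nat_lit 0x400500) (nat_lit 0x100000000000000000000000100010000000000000000)) (.non (nat_lit 1) (nat_lit 4) (nat_lit 0x401400) (nat_lit 0x100000000000000000001000100000000000000000000)))) (.non (nat_lit 1) (nat_lit 4) (nat_lit 0x555051) (nat_lit 0x300060004000300020001000000000005000400000002))) (.non (nat_lit 1) (nat_lit 5) (nat_lit 0x554151) (nat_lit 0x400050006000200010000000000020004000300000003))) (.non (nat_lit 1) (nat_lit 4) (nat_lit 0x515450) (nat_lit 0x200010000000400030002000100000002000300000000))) (.non (nat_lit 1) (nat_lit 4) (nat_lit 0x555450) (nat_lit 0x300020001000500060004000200000003000400000000))) (.non (nat_lit 1) (nat_lit 4) (nat_lit 0x555450) (nat_lit 0x300040002000400030002000100000006000500000000))) (.star (nat_lit 0xb) (nat_lit 2) (nat_lit 4))) (.star (nat_lit 0xb) (nat_lit 1) (nat_lit 4))) (.non (nat_lit 2) (nat_lit 4) (nat_lit 0x555405) (nat_lit 0x300020004000400030002000100000000000000050006))))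

noncomputable def t757_190 : Tr := (.split (nat_lit 0xa) (nat_lit 5) (.split (nat_lit 0xa) (nat_lit 6) (.split (nat_lit 0xa) (nat_lit 7) (.split (nat_lit 0xa) (nat_lit 8) (.split (nat_lit 0xa) (nat_lit 4) (.split (nat_lit 0xa) (nat_lit 9) (.ex (nat_lit 3) t757_184 (.split (nat_lit 0xb) (nat_lit 0) (.split (nat_lit 0xb) (nat_lit 1) (.split (nat_lit 0xb) (nat_lit 2) (.split (nat_lit 0xb) (nat_lit 5) (.split (nat_lit 0xb) (nat_lit 6) (.split (nat_lit 0xb) (nat_lit 7) (.split (nat_lit 0xb) (nat_lit 8) (.split (nat_lit 0xb) (nat_lit 9) (.split (nat_lit 0xb) (nat_lit 0xa) (.split (nat_lit 0xb) (nat_lit 4) t757_187 (.unj (nat_lit 0x10014) (nat_lit 0x100000000000000000000000100010000) (nat_lit 0x401500) (nat_lit 0x100000000000000000001000200020000000000000000))) (.non (nat_lit 1) (nat_lit 4) (nat_lit 0x500040) (nat_lit 0x100010000000000000000000000000001000000000000))) (.non (nat_lit 1) (nat_lit 4) (nat_lit 0x555450) (nat_lit 0x400030002000400030002000100000006000500000000))) (.non (nat_lit 1) (nat_lit 4) (nat_lit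 0x410050) (nat_lit 0x100000000000100000000000000000001000100000000))) (.non (nat_lit 1) (nat_lit 4) (nat_lit 0x414050) (nat_lit 0x100000000000100010000000000000001000100000000))) (.non (nat_lit 1) (nat_lit 4) (nat_lit 0x415050) (nat_lit 0x100000000000100010001000000000001000100000000))) (.non (nat_lit 1) (nat_lit 4) (nat_lit 0x415450) (nat_lit 0x100000000000100010001000100000001000100000000))) (.non (nat_lit 1) (nat_lit 4) (nat_lit 0x400050) (nat_lit 0x100000000000000000000000000000001000100000000))) (.non (nat_lit 2) (nat_lit 4) (nat_lit 0x454045) (nat_lit 0x200000001000200010000000000000001000000030002))) (.non (nat_lit 1) (nat_lit 4) (nat_lit 0x554051) (nat_lit 0x300020001000200010000000000000004000300000002)))) (.st (nat_lit 7) (nat_lit 1) (nat_lit 4) (nat_lit 0x155450) (nat_lit 0x20001000500060004000200000003000400000000) (nat_lit 1) (nat_lit 3) t757_189)) (.split (nat_lit 0xa) (nat_lit 9) (.unj (nat_lit 0x10014) (nat_lit 0x100000000000000000000000100010000) (nat_lit 0x101500) (nat_lit 0x10000000000000001000200020000000000000000))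 (.non (nat_lit 1) (nat_lit 5) (nat_lit 0x155151) (nat_lit 0x60004000300020001000000030005000400000002)))) (.non (nat_lit 1) (nat_lit 4) (nat_lit 0x110050) (nat_lit 0x10000000100000000000000000001000100000000))) (.non (nat_lit 1) (nat_lit 4) (nat_lit 0x114050) (nat_lit 0x10000000100010000000000000001000100000000))) (.non (nat_lit 1) (nat_lit 4) (nat_lit 0x115050) (nat_lit 0x10000000100010001000000000001000100000000))) (.non (nat_lit 1) (nat_lit 4) (nat_lit 0x115450) (nat_lit 0x10000000100010001000100000001000100000000)))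

noncomputable def t757_191 : Tr := (.split (nat_lit 9) (nat_lit 0) (.split (nat_lit 8) (nat_lit 1) (.pd (.cons (nat_lit 1) (nat_lit 6) (nat_lit 0) (nat_lit 0x20280442200) (nat_lit 0xf423ff423fb71aef423f00000f423f54591f423f28b0600000b71ae) (.cons (nat_lit 1) (nat_lit 7) (nat_lit 0) (nat_lit 0x20205442200) (nat_lit 0xf423ff423ff423f00000f423fb71ae1f156f423f3d08c00000b71ae) (.cons (nat_lit 1) (nat_lit 8) (nat_lit 0) (nat_lit 0x20065442200) (nat_lit 0xf423ff423f00000f423fb71aea2c2804737f423f7a11d00000b71ae) (.cons (nat_lit 2) (nat_lit 6) (nat_lit 0) (nat_lit 0xa0180443000) (nat_lit 0xf423ff423fb71aef423f00000f423f54591f423f00000a2c285b8d4) (.cons (nat_lit 2) (nat_lit 7) (nat_lit 0) (nat_lit 0xa0105443000) (nat_lit 0xf423ff423ff423f00000f423fb71ae1f156f423f00000b71ae65b97) (.cons (nat_lit 2) (nat_lit 8) (nat_lit 0) (nat_lit 0xa0065443000) (nat_lit 0xf423ff423f00000f423fb71aea2c2804737f423f00000f423f7a11d) .nil)))))) (.leaf (.cons (nat_lit 0x10014) (nat_lit 0x100000000000000000000000100010000) (.cons (nat_lit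 0x100054) (nat_lit 0x10000000000000000000000000001000200020000) (.cons (nat_lit 0x100015) (nat_lit 0x10000000000000000000000000000000200020001) .nil))) .nil)) (.non (nat_lit 2) (nat_lit 4) (nat_lit 0x68005) (nat_lit 0x1000200010000000000000000000000030002))) (.split (nat_lit 9) (nat_lit 0) (.split (nat_lit 8) (nat_lit 1) (.pd (.cons (nat_lit 1) (nat_lit 6) (nat_lit 0) (nat_lit 0x20280442200) (nat_lit 0xf423ff423fb71aef423f00000f423f54591f423f28b06000007a11e) (.cons (nat_lit 1) (nat_lit 7) (nat_lit 0) (nat_lit 0x20205442200) (nat_lit 0xf423ff423ff423f00000f423fb71ae1f156f423f3d08c000007a11e) (.cons (nat_lit 1) (nat_lit 8) (nat_lit 0) (nat_lit 0x20065442200) (nat_lit 0xf423ff423f00000f423fb71aea2c2804737f423f7a11d000007a11e) (.cons (nat_lit 2) (nat_lit 6) (nat_lit 0) (nat_lit 0xa0180443000) (nat_lit 0xf423ff423fb71aef423f00000f423f54591f423f00000a2c281e844) (.cons (nat_lit 2) (nat_lit 7) (nat_lit 0) (nat_lit 0xa0105443000) (nat_lit 0xf423ff423ff423f00000f423fb71ae1f156f423f00000b71ae28b07) (.cons (nat_lit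 2) (nat_lit 8) (nat_lit 0) (nat_lit 0xa0065443000) (nat_lit 0xf423ff423f00000f423fb71aea2c2804737f423f00000f423f3d08d) .nil)))))) (.leaf (.cons (nat_lit 0x10014) (nat_lit 0x100000000000000000000000100010000) (.cons (nat_lit 0x100054) (nat_lit 0x10000000000000000000000000001000200020000) (.cons (nat_lit 0x100015) (nat_lit 0x10000000000000000000000000000000200020001) .nil))) .nil)) (.non (nat_lit 2) (nat_lit 4) (nat_lit 0xa0005) (nat_lit 0x1000100000000000000000000000000020002))) (.non (nat_lit 2) (nat_lit 4) (nat_lit 0x54005) (nat_lit 0x3000200010000000000000000000000030004))))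

noncomputable def t757_192 : Tr := (.ex (nat_lit 4) (.ex (nat_lit 5) (.split (nat_lit 8) (nat_lit 2) (.split (nat_lit 0xa) (nat_lit 2) (.split (nat_lit 8) (nat_lit 7) t757_191 (.non (nat_lit 1) (nat_lit 4) (nat_lit 0x11a010) (nat_lit 0x10000000300020001000000000000000200000000))) (.non (nat_lit 1) (nat_lit 4) (nat_lit 0x210050) (nat_lit 0x10000000100000000000000000001000200000000))) (.non (nat_lit 1) (nat_lit 4) (nat_lit 0x12a010) (nat_lit 0x20000000300020001000000000000000400000000))) (.split (nat_lit 0xb) (nat_lit 0) (.split (nat_lit 0xb) (nat_lit 1) (.split (nat_lit 0xb) (nat_lit 2) (.split (nat_lit 0xb) (nat_lit 3) (.split (nat_lit 0xb) (nat_lit 6) (.split (nat_lit 0xb) (nat_lit 7) (.split (nat_lit 0xb) (nat_lit 8) (.split (nat_lit 0xb) (nat_lit 9) (.split (nat_lit 0xb) (nat_lit 0xa) (.split (nat_lit 0xb) (nat_lit 4) (.unj (nat_lit 0x10014) (nat_lit 0x100000000000000000000000100010000) (nat_lit 0x401500) (nat_lit 0x100000000000000000001000200020000000000000000)) (.unj (nat_lit 0x10014) (nat_lit 0x100000000000000000000000100010000)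 (nat_lit 0x400500) (nat_lit 0x100000000000000000000000100010000000000000000))) (.non (nat_lit 1) (nat_lit 4) (nat_lit 0x515410) (nat_lit 0x100010000000100010001000100000000000100000000))) (.non (nat_lit 2) (nat_lit 4) (nat_lit 0x455405) (nat_lit 0x100000001000100010001000100000000000000010001))) (.non (nat_lit 1) (nat_lit 4) (nat_lit 0x415400) (nat_lit 0x100000000000100010001000100000000000000000000))) (.non (nat_lit 1) (nat_lit 4) (nat_lit 0x405400) (nat_lit 0x100000000000000010001000100000000000000000000))) (.non (nat_lit 1) (nat_lit 4) (nat_lit 0x401400) (nat_lit 0x100000000000000000001000100000000000000000000))) (.non (nat_lit 1) (nat_lit 4) (nat_lit 0x415450) (nat_lit 0x100000000000100010001000100000001000100000000))) (.star (nat_lit 0xb) (nat_lit 2) (nat_lit 5))) (.star (nat_lit 0xb) (nat_lit 1) (nat_lit 5))) (.non (nat_lit 2) (nat_lit 4) (nat_lit 0x415405) (nat_lit 0x100000000000100010001000100000000000000010001)))) (.split (nat_lit 0xb) (nat_lit 1) (.split (nat_lit 0xb) (nat_lit 2) (.split (nat_lit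 0xb) (nat_lit 3) (.split (nat_lit 0xb) (nat_lit 6) (.split (nat_lit 0xb) (nat_lit 7) (.split (nat_lit 0xb) (nat_lit 8) (.split (nat_lit 0xb) (nat_lit 0xa) (.split (nat_lit 0xb) (nat_lit 0) (.split (nat_lit 0xb) (nat_lit 5) (.split (nat_lit 0xb) (nat_lit 9) (.unj (nat_lit 0x10014) (nat_lit 0x100000000000000000000000100010000) (nat_lit 0x401500) (nat_lit 0x100000000000000000001000200020000000000000000)) (.unj (nat_lit 0x10014) (nat_lit 0x100000000000000000000000100010000) (nat_lit 0x401500) (nat_lit 0x100000000000000000001000200020000000000000000))) (.split (nat_lit 0xb) (nat_lit 9) (.unj (nat_lit 0x10014) (nat_lit 0x100000000000000000000000100010000) (nat_lit 0x400500) (nat_lit 0x100000000000000000000000100010000000000000000)) (.non (nat_lit 2) (nat_lit 4) (nat_lit 0x455405) (nat_lit 0x100000001000100010001000100000000000000010001)))) (.split (nat_lit 0xb) (nat_lit 5) (.split (nat_lit 0xb) (nat_lit 9) (.unj (nat_lit 0x10014) (nat_lit 0x100000000000000000000000100010000) (nat_lit 0x401500) (nat_lit 0x100000000000000000001000200020000000000000000))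 (.non (nat_lit 1) (nat_lit 4) (nat_lit 0x440001) (nat_lit 0x100000001000000000000000000000000000000000001))) (.non (nat_lit 2) (nat_lit 4) (nat_lit 0x415405) (nat_lit 0x100000000000100010001000100000000000000010001)))) (.non (nat_lit 1) (nat_lit 5) (nat_lit 0x515150) (nat_lit 0x200030000000300020001000000010002000400000000))) (.non (nat_lit 1) (nat_lit 4) (nat_lit 0x514050) (nat_lit 0x100010000000200010000000000000001000200000000))) (.non (nat_lit 1) (nat_lit 4) (nat_lit 0x515050) (nat_lit 0x100010000000200020001000000000001000200000000))) (.non (nat_lit 1) (nat_lit 4) (nat_lit 0x515450) (nat_lit 0x100010000000200020002000100000001000200000000))) (.non (nat_lit 1) (nat_lit 5) (nat_lit 0x515150) (nat_lit 0x200020000000300020001000000010003000400000000))) (.star (nat_lit 0xb) (nat_lit 2) (nat_lit 4))) (.star (nat_lit 0xb) (nat_lit 1) (nat_lit 4))))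

noncomputable def t757_193 : Tr := (.ex (nat_lit 2) (.ex (nat_lit 3) (.ex (nat_lit 4) (.ex (nat_lit 5) (.split (nat_lit 8) (nat_lit 2) (.split (nat_lit 8) (nat_lit 7) t757_175 (.non (nat_lit 1) (nat_lit 4) (nat_lit 0x1a810) (nat_lit 0x400030002000100000000000200000000))) (.non (nat_lit 1) (nat_lit 4) (nat_lit 0x2a050) (nat_lit 0x300020001000000000002000400000000))) (.split (nat_lit 0xa) (nat_lit 0) (.split (nat_lit 0xa) (nat_lit 1) (.split (nat_lit 0xa) (nat_lit 2) (.split (nat_lit 0xa) (nat_lit 3) (.split (nat_lit 0xa) (nat_lit 6) (.split (nat_lit 0xa) (nat_lit 7) (.split (nat_lit 0xa) (nat_lit 8) (.split (nat_lit 0xa) (nat_lit 9) (.split (nat_lit 0xa) (nat_lit 4) (.unj (nat_lit 0x10014) (nat_lit 0x100000000000000000000000100010000) (nat_lit 0x101500) (nat_lit 0x10000000000000001000200020000000000000000)) (.unj (nat_lit 0x10014) (nat_lit 0x100000000000000000000000100010000) (nat_lit 0x100500) (nat_lit 0x10000000000000000000100010000000000000000))) (.non (nat_lit 2) (nat_lit 4) (nat_lit 0x155405) (nat_lit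 0x10001000100010001000100000000000000010001))) (.non (nat_lit 1) (nat_lit 4) (nat_lit 0x115400) (nat_lit 0x10000000100010001000100000000000000000000))) (.non (nat_lit 1) (nat_lit 4) (nat_lit 0x105400) (nat_lit 0x10000000000010001000100000000000000000000))) (.non (nat_lit 1) (nat_lit 4) (nat_lit 0x101400) (nat_lit 0x10000000000000001000100000000000000000000))) (.non (nat_lit 1) (nat_lit 4) (nat_lit 0x115450) (nat_lit 0x10000000100010001000100000001000100000000))) (.star (nat_lit 0xa) (nat_lit 2) (nat_lit 5))) (.star (nat_lit 0xa) (nat_lit 1) (nat_lit 5))) (.non (nat_lit 2) (nat_lit 4) (nat_lit 0x115405) (nat_lit 0x10000000100010001000100000000000000010001)))) (.split (nat_lit 0xa) (nat_lit 1) (.split (nat_lit 0xa) (nat_lit 2) (.split (nat_lit 0xa) (nat_lit 8) t757_176 (.non (nat_lit 1) (nat_lit 5) (nat_lit 0x115150) (nat_lit 0x20000000300020001000000010001000200000000))) (.star (nat_lit 0xa) (nat_lit 2) (nat_lit 4))) (.star (nat_lit 0xa) (nat_lit 1) (nat_lit 4)))) (.split (nat_lit 0xa) (nat_lit 0) (.split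 (nat_lit 0xa) (nat_lit 1) (.split (nat_lit 0xa) (nat_lit 2) t757_190 (.non (nat_lit 1) (nat_lit 4) (nat_lit 0x100050) (nat_lit 0x10000000000000000000000000001000100000000))) (.non (nat_lit 2) (nat_lit 4) (nat_lit 0x154045) (nat_lit 0x20001000200010000000000000001000000030002))) (.non (nat_lit 2) (nat_lit 4) (nat_lit 0x155445) (nat_lit 0x40003000400030002000100000002000000050006)))) (.split (nat_lit 0xa) (nat_lit 0) (.split (nat_lit 0xa) (nat_lit 3) (.split (nat_lit 0xa) (nat_lit 4) (.split (nat_lit 0xa) (nat_lit 5) (.split (nat_lit 0xa) (nat_lit 6) (.split (nat_lit 0xa) (nat_lit 7) (.split (nat_lit 0xa) (nat_lit 8) (.split (nat_lit 0xa) (nat_lit 9) (.split (nat_lit 0xa) (nat_lit 1) (.st (nat_lit 6) (nat_lit 1) (nat_lit 4) (nat_lit 0x115450) (nat_lit 0x10000000200020002000100000001000200000000) (nat_lit 1) (nat_lit 1) (.st (nat_lit 7) (nat_lit 1) (nat_lit 4) (nat_lit 0x115050) (nat_lit 0x10000000200020001000000000001000200000000) (nat_lit 1) (nat_lit 1) t757_192)) (.split (nat_lit 0xa) (nat_lit 1) (.split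 (nat_lit 0xa) (nat_lit 2) (.split (nat_lit 9) (nat_lit 0) (.split (nat_lit 8) (nat_lit 1) (.split (nat_lit 8) (nat_lit 2) (.sup (nat_lit 0x4000d00160020001a0000000000000000) (nat_lit 0x30001000000000000000000000001000300030002)) (.non (nat_lit 1) (nat_lit 4) (nat_lit 0x12a010) (nat_lit 0x20000000300020001000000000000000400000000))) (.non (nat_lit 2) (nat_lit 4) (nat_lit 0x12a004) (nat_lit 0x20000000300020001000000000000000000040000))) (.non (nat_lit 2) (nat_lit 4) (nat_lit 0x190005) (nat_lit 0x10001000100000000000000000000000000020002))) (.non (nat_lit 1) (nat_lit 4) (nat_lit 0x210050) (nat_lit 0x10000000100000000000000000001000200000000))) (.non (nat_lit 2) (nat_lit 4) (nat_lit 0x210005) (nat_lit 0x10000000100000000000000000000000000020001)))) (.non (nat_lit 1) (nat_lit 4) (nat_lit 0x155051) (nat_lit 0x30002000300020001000000000002000400000001))) (.non (nat_lit 1) (nat_lit 4) (nat_lit 0x110010) (nat_lit 0x10000000100000000000000000000000100000000))) (.non (nat_lit 1) (nat_lit 4) (nat_lit 0x114010) (nat_lit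 0x10000000100010000000000000000000100000000))) (.non (nat_lit 1) (nat_lit 4) (nat_lit 0x115010) (nat_lit 0x10000000100010001000000000000000100000000))) (.star (nat_lit 0xa) (nat_lit 2) (nat_lit 5))) (.star (nat_lit 0xa) (nat_lit 2) (nat_lit 4))) (.non (nat_lit 1) (nat_lit 4) (nat_lit 0x100050) (nat_lit 0x10000000000000000000000000001000100000000))) (.non (nat_lit 1) (nat_lit 4) (nat_lit 0x155051) (nat_lit 0x30001000300020001000000000002000400000002))))

noncomputable def t757_194 : Tr := (.ex (nat_lit 4) (.split (nat_lit 8) (nat_lit 2) (.split (nat_lit 8) (nat_lit 7) (.split (nat_lit 9) (nat_lit 0) (.split (nat_lit 8) (nat_lit 1) (.split (nat_lit 0xa) (nat_lit 1) (.pd (.cons (nat_lit 1) (nat_lit 6) (nat_lit 0) (nat_lit 0xa0280442200) (nat_lit 0xf423ff423fb71aef423f00000f423f54591f423f65b9700000b71ae) (.cons (nat_lit 1) (nat_lit 7) (nat_lit 0) (nat_lit 0xa0205442200) (nat_lit 0xf423ff423ff423f00000f423fb71ae1f156f423f7a11d00000b71ae) (.cons (nat_lit 1) (nat_lit 8) (nat_lit 0) (nat_lit 0xa0065442200) (nat_lit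 0xf423ff423f00000f423fb71aea2c2804737f423fb71ae00000b71ae) (.cons (nat_lit 2) (nat_lit 6) (nat_lit 0) (nat_lit 0x10180443000) (nat_lit 0xf423ff423fb71aef423f00000f423f54591f423f0000065b97249e8) (.cons (nat_lit 2) (nat_lit 7) (nat_lit 0) (nat_lit 0x10105443000) (nat_lit 0xf423ff423ff423f00000f423fb71ae1f156f423f000007a11d3d08a) (.cons (nat_lit 2) (nat_lit 8) (nat_lit 0) (nat_lit 0x10065443000) (nat_lit 0xf423ff423f00000f423fb71aea2c2804737f423f00000b71ae65b97) .nil)))))) (.leaf (.cons (nat_lit 0x10014) (nat_lit 0x100000000000000000000000100010000) (.cons (nat_lit 0x100054) (nat_lit 0x10000000000000000000000000001000200020000) (.cons (nat_lit 0x100015) (nat_lit 0x10000000000000000000000000000000200020001) .nil))) .nil)) (.non (nat_lit 2) (nat_lit 4) (nat_lit 0x210005) (nat_lit 0x10000000100000000000000000000000000020001))) (.non (nat_lit 2) (nat_lit 4) (nat_lit 0x12a004) (nat_lit 0x20000000300020001000000000000000000040000))) (.non (nat_lit 2) (nat_lit 4) (nat_lit 0x190005) (nat_lit 0x10001000100000000000000000000000000020002)))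 (.non (nat_lit 1) (nat_lit 4) (nat_lit 0x1a810) (nat_lit 0x400030002000100000000000200000000))) (.non (nat_lit 1) (nat_lit 4) (nat_lit 0x2a050) (nat_lit 0x300020001000000000002000400000000))) (.split (nat_lit 0xb) (nat_lit 0) (.split (nat_lit 0xb) (nat_lit 1) (.split (nat_lit 0xb) (nat_lit 2) (.split (nat_lit 0xb) (nat_lit 5) (.split (nat_lit 0xb) (nat_lit 6) (.split (nat_lit 0xb) (nat_lit 7) (.split (nat_lit 0xb) (nat_lit 8) (.split (nat_lit 0xb) (nat_lit 9) (.split (nat_lit 0xb) (nat_lit 0xa) (.split (nat_lit 0xb) (nat_lit 3) (.unj (nat_lit 0x10014) (nat_lit 0x100000000000000000000000100010000) (nat_lit 0x401500) (nat_lit 0x100000000000000000001000200020000000000000000)) (.unj (nat_lit 0x10014) (nat_lit 0x100000000000000000000000100010000) (nat_lit 0x401500) (nat_lit 0x100000000000000000001000200020000000000000000))) (.non (nat_lit 2) (nat_lit 4) (nat_lit 0x554005) (nat_lit 0x100020001000200010000000000000000000000030002))) (.non (nat_lit 2) (nat_lit 4) (nat_lit 0x555005) (nat_lit 0x100020002000300020001000000000000000000040003)))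 (.non (nat_lit 1) (nat_lit 5) (nat_lit 0x415150) (nat_lit 0x200000000000300020001000000010001000200000000))) (.non (nat_lit 2) (nat_lit 4) (nat_lit 0x515005) (nat_lit 0x100010000000200020001000000000000000000020001))) (.non (nat_lit 2) (nat_lit 4) (nat_lit 0x515405) (nat_lit 0x100010000000200020002000100000000000000020001))) (.non (nat_lit 2) (nat_lit 4) (nat_lit 0x555405) (nat_lit 0x100030002000500040003000200000000000000060004))) (.star (nat_lit 0xb) (nat_lit 2) (nat_lit 4))) (.star (nat_lit 0xb) (nat_lit 1) (nat_lit 4))) (.non (nat_lit 2) (nat_lit 4) (nat_lit 0x550005) (nat_lit 0x100010001000100000000000000000000000000020002))))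

noncomputable def t757_195 : Tr := (.ex (nat_lit 5) (.split (nat_lit 9) (nat_lit 0) (.split (nat_lit 0xa) (nat_lit 0) (.split (nat_lit 8) (nat_lit 2) (.split (nat_lit 8) (nat_lit 7) (.split (nat_lit 8) (nat_lit 1) (.pd (.cons (nat_lit 0) (nat_lit 8) (nat_lit 0) (nat_lit 0xa9065442110) (nat_lit 0xf423ff423f00000f423fb71aea2c2804737f423fb71ae1f15600000) (.cons (nat_lit 1) (nat_lit 6) (nat_lit 0) (nat_lit 0x280442200) (nat_lit 0xf423ff423fb71aef423f00000f423f54591f423f65b97000007a11d) (.cons (nat_lit 1) (nat_lit 7) (nat_lit 0) (nat_lit 0x205442200) (nat_lit 0xf423ff423ff423f00000f423fb71ae1f156f423f7a11d000007a11d) (.cons (nat_lit 1) (nat_lit 8) (nat_lit 0) (nat_lit 0x65442200) (nat_lit 0xf423ff423f00000f423fb71aea2c2804737f423fb71ae000007a11d) (.cons (nat_lit 2) (nat_lit 6) (nat_lit 0) (nat_lit 0x180443000) (nat_lit 0xf423ff423fb71aef423f00000f423f54591f423f00000a2c281e843) (.cons (nat_lit 2) (nat_lit 7) (nat_lit 0) (nat_lit 0x105443000) (nat_lit 0xf423ff423ff423f00000f423fb71ae1f156f423f00000b71ae28b06)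 (.cons (nat_lit 2) (nat_lit 8) (nat_lit 0) (nat_lit 0x65443000) (nat_lit 0xf423ff423f00000f423fb71aea2c2804737f423f00000f423f3d08c) .nil))))))) (.leaf (.cons (nat_lit 0x10014) (nat_lit 0x100000000000000000000000100010000) (.cons (nat_lit 0x140015) (nat_lit 0x10001000000000000000000000000000200020002) .nil)) .nil)) (.non (nat_lit 2) (nat_lit 4) (nat_lit 0x160005) (nat_lit 0x10001000100000000000000000000000000020002))) (.non (nat_lit 1) (nat_lit 4) (nat_lit 0x1a810) (nat_lit 0x400030002000100000000000200000000))) (.non (nat_lit 1) (nat_lit 4) (nat_lit 0x2a050) (nat_lit 0x300020001000000000002000400000000))) (.non (nat_lit 2) (nat_lit 4) (nat_lit 0x240005) (nat_lit 0x10001000000000000000000000000000000010002))) (.non (nat_lit 2) (nat_lit 4) (nat_lit 0x180005) (nat_lit 0x10001000000000000000000000000000000010002))) (.split (nat_lit 0xb) (nat_lit 0) (.split (nat_lit 0xb) (nat_lit 1) (.split (nat_lit 0xb) (nat_lit 2) (.split (nat_lit 0xb) (nat_lit 3) (.split (nat_lit 0xb) (nat_lit 6) (.split (nat_lit 0xb) (nat_lit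 7) (.split (nat_lit 0xb) (nat_lit 8) (.split (nat_lit 0xb) (nat_lit 9) (.split (nat_lit 0xb) (nat_lit 0xa) (.split (nat_lit 0xb) (nat_lit 4) (.unj (nat_lit 0x10014) (nat_lit 0x100000000000000000000000100010000) (nat_lit 0x401500) (nat_lit 0x100000000000000000001000200020000000000000000)) (.unj (nat_lit 0x10014) (nat_lit 0x100000000000000000000000100010000) (nat_lit 0x400500) (nat_lit 0x100000000000000000000000100010000000000000000))) (.non (nat_lit 2) (nat_lit 4) (nat_lit 0x554405) (nat_lit 0x200030002000200010000000100000000000000030004))) (.non (nat_lit 2) (nat_lit 4) (nat_lit 0x554405) (nat_lit 0x200020003000200010000000100000000000000030004))) (.non (nat_lit 1) (nat_lit 4) (nat_lit 0x415400) (nat_lit 0x100000000000100010001000100000000000000000000))) (.non (nat_lit 1) (nat_lit 4) (nat_lit 0x405400) (nat_lit 0x100000000000000010001000100000000000000000000))) (.non (nat_lit 1) (nat_lit 4) (nat_lit 0x401400) (nat_lit 0x100000000000000000001000100000000000000000000))) (.non (nat_lit 1) (nat_lit 4) (nat_lit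 0x415450) (nat_lit 0x100000000000100010001000100000001000100000000))) (.star (nat_lit 0xb) (nat_lit 2) (nat_lit 5))) (.star (nat_lit 0xb) (nat_lit 1) (nat_lit 5))) (.non (nat_lit 2) (nat_lit 4) (nat_lit 0x540005) (nat_lit 0x100010001000000000000000000000000000000010002))))

noncomputable def t757_196 : Tr := (.pd (.cons (nat_lit 1) (nat_lit 6) (nat_lit 0) (nat_lit 0x300280442200) (nat_lit 0xf423ff423ff423fb71aef423f00000f423f54591b71ae51611000007a11d) (.cons (nat_lit 1) (nat_lit 7) (nat_lit 0) (nat_lit 0x300205442200) (nat_lit 0xf423ff423ff423ff423f00000f423fb71ae1f156b71ae65b97000007a11d) (.cons (nat_lit 1) (nat_lit 8) (nat_lit 0) (nat_lit 0x300065442200) (nat_lit 0xf423ff423ff423f00000f423fb71aea2c2804737b71aea2c28000007a11d) (.cons (nat_lit 2) (nat_lit 6) (nat_lit 0) (nat_lit 0x300180443000) (nat_lit 0xf423ff423ff423fb71aef423f00000f423f54591b71ae00000a2c281e843) (.cons (nat_lit 2) (nat_lit 7) (nat_lit 0) (nat_lit 0x300105443000) (nat_lit 0xf423ff423ff423ff423f00000f423fb71ae1f156b71ae00000b71ae28b06)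 (.cons (nat_lit 2) (nat_lit 8) (nat_lit 0) (nat_lit 0x300065443000) (nat_lit 0xf423ff423ff423f00000f423fb71aea2c2804737b71ae00000f423f3d08c) .nil)))))) (.ex (nat_lit 0xb) (.pd (.cons (nat_lit 0) (nat_lit 8) (nat_lit 0) (nat_lit 0x3a9065442110) (nat_lit 0xf423ff423ff423f00000f423fb71aea2c2804737b71aea2c280473700000) .nil) (.leaf (.cons (nat_lit 0x10014) (nat_lit 0x100000000000000000000000100010000) (.cons (nat_lit 0x140015) (nat_lit 0x10001000000000000000000000000000200020002) .nil)) .nil)) (.split (nat_lit 0xc) (nat_lit 0) (.split (nat_lit 0xc) (nat_lit 1) (.split (nat_lit 0xc) (nat_lit 2) (.split (nat_lit 0xc) (nat_lit 3) (.split (nat_lit 0xc) (nat_lit 4) (.split (nat_lit 0xc) (nat_lit 5) (.split (nat_lit 0xc) (nat_lit 6) (.split (nat_lit 0xc) (nat_lit 7) (.split (nat_lit 0xc) (nat_lit 8) (.split (nat_lit 0xc) (nat_lit 9) (.split (nat_lit 0xc) (nat_lit 0xa) (.leaf (.cons (nat_lit 0x10014) (nat_lit 0x100000000000000000000000100010000) (.cons (nat_lit 0x1400054) (nat_lit 0x1000200000000000000000000000000000003000400030000)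 (.cons (nat_lit 0x140015) (nat_lit 0x10001000000000000000000000000000200020002) .nil))) .nil) (.non (nat_lit 2) (nat_lit 4) (nat_lit 0x1554005) (nat_lit 0x2000100030002000200010000000000000000000000030004))) (.non (nat_lit 2) (nat_lit 4) (nat_lit 0x1554005) (nat_lit 0x2000100020003000200010000000000000000000000030004))) (.non (nat_lit 1) (nat_lit 4) (nat_lit 0x1410050) (nat_lit 0x1000100000000000100000000000000000001000100000000))) (.non (nat_lit 1) (nat_lit 4) (nat_lit 0x1415410) (nat_lit 0x2000100000000000200030002000100000000000100000000))) (.non (nat_lit 1) (nat_lit 4) (nat_lit 0x1415050) (nat_lit 0x1000100000000000100010001000000000001000100000000))) (.non (nat_lit 1) (nat_lit 4) (nat_lit 0x1415450) (nat_lit 0x1000100000000000100010001000100000001000100000000))) (.non (nat_lit 1) (nat_lit 6) (nat_lit 0x1400540) (nat_lit 0x3000200000000000000000000000300040001000000000000))) (.non (nat_lit 1) (nat_lit 4) (nat_lit 0x1400040) (nat_lit 0x1000100000000000000000000000000000001000000000000))) (.non (nat_lit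 1) (nat_lit 4) (nat_lit 0x1400050) (nat_lit 0x1000100000000000000000000000000000001000100000000))) (.non (nat_lit 2) (nat_lit 4) (nat_lit 0x1150005) (nat_lit 0x1000000010001000100000000000000000000000000020002))) (.non (nat_lit 2) (nat_lit 4) (nat_lit 0x1140005) (nat_lit 0x1000000010001000000000000000000000000000000010002)))))

noncomputable def t757_197 : Tr := (.ex (nat_lit 5) (.split (nat_lit 9) (nat_lit 0) (.split (nat_lit 0xa) (nat_lit 0) (.split (nat_lit 8) (nat_lit 2) (.split (nat_lit 0xb) (nat_lit 3) (.split (nat_lit 8) (nat_lit 7) (.split (nat_lit 8) (nat_lit 1) t757_196 (.non (nat_lit 2) (nat_lit 4) (nat_lit 0x160005) (nat_lit 0x10001000100000000000000000000000000020002))) (.non (nat_lit 1) (nat_lit 4) (nat_lit 0x1a810) (nat_lit 0x400030002000100000000000200000000))) (.split (nat_lit 0xb) (nat_lit 3) (.split (nat_lit 8) (nat_lit 7) (.split (nat_lit 8) (nat_lit 1) (.pd (.cons (nat_lit 1) (nat_lit 6) (nat_lit 0) (nat_lit 0x300280442200) (nat_lit 0xf423ff423ff423fb71aef423f00000f423f545917a11e28b05000007a11d)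 (.cons (nat_lit 1) (nat_lit 7) (nat_lit 0) (nat_lit 0x300205442200) (nat_lit 0xf423ff423ff423ff423f00000f423fb71ae1f1567a11e3d08b000007a11d) (.cons (nat_lit 1) (nat_lit 8) (nat_lit 0) (nat_lit 0x300065442200) (nat_lit 0xf423ff423ff423f00000f423fb71aea2c28047377a11e7a11c000007a11d) (.cons (nat_lit 2) (nat_lit 6) (nat_lit 0) (nat_lit 0x300180443000) (nat_lit 0xf423ff423ff423fb71aef423f00000f423f545917a11e00000a2c281e843) (.cons (nat_lit 2) (nat_lit 7) (nat_lit 0) (nat_lit 0x300105443000) (nat_lit 0xf423ff423ff423ff423f00000f423fb71ae1f1567a11e00000b71ae28b06) (.cons (nat_lit 2) (nat_lit 8) (nat_lit 0) (nat_lit 0x300065443000) (nat_lit 0xf423ff423ff423f00000f423fb71aea2c28047377a11e00000f423f3d08c) .nil)))))) (.leaf (.cons (nat_lit 0x10014) (nat_lit 0x100000000000000000000000100010000) (.cons (nat_lit 0x400054) (nat_lit 0x100000000000000000000000000000001000100010000) (.cons (nat_lit 0x140015) (nat_lit 0x10001000000000000000000000000000200020002) .nil))) .nil)) (.non (nat_lit 2) (nat_lit 4) (nat_lit 0x160005)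 (nat_lit 0x10001000100000000000000000000000000020002))) (.non (nat_lit 1) (nat_lit 4) (nat_lit 0x1a810) (nat_lit 0x400030002000100000000000200000000))) (.non (nat_lit 1) (nat_lit 4) (nat_lit 0x414050) (nat_lit 0x300000000000200010000000000000004000300000000)))) (.non (nat_lit 1) (nat_lit 4) (nat_lit 0x428050) (nat_lit 0x100000000000200010000000000000002000300000000))) (.non (nat_lit 2) (nat_lit 4) (nat_lit 0x240005) (nat_lit 0x10001000000000000000000000000000000010002))) (.non (nat_lit 2) (nat_lit 4) (nat_lit 0x180005) (nat_lit 0x10001000000000000000000000000000000010002))) (.split (nat_lit 0xc) (nat_lit 0) (.split (nat_lit 0xc) (nat_lit 1) (.split (nat_lit 0xc) (nat_lit 2) (.split (nat_lit 0xc) (nat_lit 3) (.split (nat_lit 0xc) (nat_lit 6) (.split (nat_lit 0xc) (nat_lit 7) (.split (nat_lit 0xc) (nat_lit 8) (.split (nat_lit 0xc) (nat_lit 9) (.split (nat_lit 0xc) (nat_lit 0xa) (.split (nat_lit 0xc) (nat_lit 0xb) (.split (nat_lit 0xc) (nat_lit 4) (.unj (nat_lit 0x10014) (nat_lit 0x100000000000000000000000100010000)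 (nat_lit 0x1001500) (nat_lit 0x1000000000000000000000001000200020000000000000000)) (.unj (nat_lit 0x10014) (nat_lit 0x100000000000000000000000100010000) (nat_lit 0x1000500) (nat_lit 0x1000000000000000000000000000100010000000000000000))) (.non (nat_lit 1) (nat_lit 4) (nat_lit 0x1415450) (nat_lit 0x1000100000000000100010001000100000001000100000000))) (.non (nat_lit 2) (nat_lit 4) (nat_lit 0x1154405) (nat_lit 0x2000000030002000200010000000100000000000000030004))) (.non (nat_lit 2) (nat_lit 4) (nat_lit 0x1154405) (nat_lit 0x2000000020003000200010000000100000000000000030004))) (.non (nat_lit 1) (nat_lit 4) (nat_lit 0x1015400) (nat_lit 0x1000000000000000100010001000100000000000000000000))) (.non (nat_lit 1) (nat_lit 4) (nat_lit 0x1005400) (nat_lit 0x1000000000000000000010001000100000000000000000000))) (.non (nat_lit 1) (nat_lit 4) (nat_lit 0x1001400) (nat_lit 0x1000000000000000000000001000100000000000000000000))) (.non (nat_lit 1) (nat_lit 4) (nat_lit 0x1015450) (nat_lit 0x1000000000000000100010001000100000001000100000000)))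 (.star (nat_lit 0xc) (nat_lit 2) (nat_lit 5))) (.star (nat_lit 0xc) (nat_lit 1) (nat_lit 5))) (.non (nat_lit 2) (nat_lit 4) (nat_lit 0x1140005) (nat_lit 0x1000000010001000000000000000000000000000000010002))))

noncomputable def t757_198 : Tr := (.ex (nat_lit 5) (.split (nat_lit 9) (nat_lit 0) (.split (nat_lit 0xa) (nat_lit 0) (.split (nat_lit 8) (nat_lit 2) (.split (nat_lit 0xb) (nat_lit 3) (.split (nat_lit 0xc) (nat_lit 3) (.split (nat_lit 8) (nat_lit 7) (.split (nat_lit 8) (nat_lit 1) (.pd (.cons (nat_lit 1) (nat_lit 6) (nat_lit 0) (nat_lit 0x3300280442200) (nat_lit 0xf423ff423ff423ff423fb71aef423f00000f423f545917a11d28b04000007a11d) (.cons (nat_lit 1) (nat_lit 7) (nat_lit 0) (nat_lit 0x3300205442200) (nat_lit 0xf423ff423ff423ff423ff423f00000f423fb71ae1f1567a11d3d08a000007a11d) (.cons (nat_lit 1) (nat_lit 8) (nat_lit 0) (nat_lit 0x3300065442200) (nat_lit 0xf423ff423ff423ff423f00000f423fb71aea2c28047377a11d7a11b000007a11d) (.cons (nat_lit 2) (nat_lit 6) (nat_lit 0) (nat_lit 0x3300180443000) (nat_lit 0xf423ff423ff423ff423fb71aef423f00000f423f545917a11d00000a2c281e843)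 (.cons (nat_lit 2) (nat_lit 7) (nat_lit 0) (nat_lit 0x3300105443000) (nat_lit 0xf423ff423ff423ff423ff423f00000f423fb71ae1f1567a11d00000b71ae28b06) (.cons (nat_lit 2) (nat_lit 8) (nat_lit 0) (nat_lit 0x3300065443000) (nat_lit 0xf423ff423ff423ff423f00000f423fb71aea2c28047377a11d00000f423f3d08c) .nil)))))) (.leaf (.cons (nat_lit 0x10014) (nat_lit 0x100000000000000000000000100010000) (.cons (nat_lit 0x1400054) (nat_lit 0x1000100000000000000000000000000000002000200020000) (.cons (nat_lit 0x140015) (nat_lit 0x10001000000000000000000000000000200020002) .nil))) .nil)) (.non (nat_lit 2) (nat_lit 4) (nat_lit 0x160005) (nat_lit 0x10001000100000000000000000000000000020002))) (.non (nat_lit 1) (nat_lit 4) (nat_lit 0x1a810) (nat_lit 0x400030002000100000000000200000000))) (.non (nat_lit 1) (nat_lit 4) (nat_lit 0x2400050) (nat_lit 0x1000100000000000000000000000000000002000100000000))) (.non (nat_lit 1) (nat_lit 4) (nat_lit 0x1800050) (nat_lit 0x1000100000000000000000000000000000002000100000000))) (.non (nat_lit 1) (nat_lit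 4) (nat_lit 0x1420050) (nat_lit 0x1000100000000000100000000000000000002000200000000))) (.non (nat_lit 2) (nat_lit 4) (nat_lit 0x240005) (nat_lit 0x10001000000000000000000000000000000010002))) (.non (nat_lit 2) (nat_lit 4) (nat_lit 0x180005) (nat_lit 0x10001000000000000000000000000000000010002))) (.split (nat_lit 0xd) (nat_lit 0) (.split (nat_lit 0xd) (nat_lit 1) (.split (nat_lit 0xd) (nat_lit 2) (.split (nat_lit 0xd) (nat_lit 3) (.split (nat_lit 0xd) (nat_lit 6) (.split (nat_lit 0xd) (nat_lit 7) (.split (nat_lit 0xd) (nat_lit 8) (.split (nat_lit 0xd) (nat_lit 9) (.split (nat_lit 0xd) (nat_lit 0xa) (.split (nat_lit 0xd) (nat_lit 0xb) (.split (nat_lit 0xd) (nat_lit 0xc) (.split (nat_lit 0xd) (nat_lit 4) (.unj (nat_lit 0x10014) (nat_lit 0x100000000000000000000000100010000) (nat_lit 0x4001500) (nat_lit 0x10000000000000000000000000001000200020000000000000000)) (.unj (nat_lit 0x10014) (nat_lit 0x100000000000000000000000100010000) (nat_lit 0x4000500) (nat_lit 0x10000000000000000000000000000000100010000000000000000)))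 (.non (nat_lit 1) (nat_lit 4) (nat_lit 0x5414450) (nat_lit 0x20003000200000000000200010000000100000004000300000000))) (.non (nat_lit 1) (nat_lit 4) (nat_lit 0x5414450) (nat_lit 0x20002000300000000000200010000000100000004000300000000))) (.non (nat_lit 2) (nat_lit 4) (nat_lit 0x4154405) (nat_lit 0x20000000000030002000200010000000100000000000000030004))) (.non (nat_lit 2) (nat_lit 4) (nat_lit 0x4154405) (nat_lit 0x20000000000020003000200010000000100000000000000030004))) (.non (nat_lit 1) (nat_lit 4) (nat_lit 0x4015400) (nat_lit 0x10000000000000000000100010001000100000000000000000000))) (.non (nat_lit 1) (nat_lit 4) (nat_lit 0x4005400) (nat_lit 0x10000000000000000000000010001000100000000000000000000))) (.non (nat_lit 1) (nat_lit 4) (nat_lit 0x4001400) (nat_lit 0x10000000000000000000000000001000100000000000000000000))) (.non (nat_lit 1) (nat_lit 4) (nat_lit 0x5400050) (nat_lit 0x10001000100000000000000000000000000000002000100000000))) (.star (nat_lit 0xd) (nat_lit 2) (nat_lit 5))) (.star (nat_lit 0xd) (nat_lit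 1) (nat_lit 5))) (.non (nat_lit 1) (nat_lit 4) (nat_lit 0x5555451) (nat_lit 0x20001000100010001000200020002000200000002000200000002))))

noncomputable def t757_199 : Tr := (.split (nat_lit 0xc) (nat_lit 9) (.split (nat_lit 0xc) (nat_lit 0xa) (.split (nat_lit 0xc) (nat_lit 0xb) (.split (nat_lit 0xc) (nat_lit 4) (.ex (nat_lit 4) t757_198 (.split (nat_lit 0xd) (nat_lit 0) (.split (nat_lit 0xd) (nat_lit 1) (.split (nat_lit 0xd) (nat_lit 2) (.split (nat_lit 0xd) (nat_lit 3) (.split (nat_lit 0xd) (nat_lit 6) (.split (nat_lit 0xd) (nat_lit 7) (.split (nat_lit 0xd) (nat_lit 8) (.split (nat_lit 0xd) (nat_lit 9) (.split (nat_lit 0xd) (nat_lit 0xa) (.split (nat_lit 0xd) (nat_lit 0xb) (.split (nat_lit 0xd) (nat_lit 0xc) (.split (nat_lit 0xd) (nat_lit 5) (.unj (nat_lit 0x10014) (nat_lit 0x100000000000000000000000100010000) (nat_lit 0x4001500) (nat_lit 0x10000000000000000000000000001000200020000000000000000)) (.unj (nat_lit 0x10014) (nat_lit 0x100000000000000000000000100010000) (nat_lit 0x4000500) (nat_lit 0x10000000000000000000000000000000100010000000000000000)))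 (.non (nat_lit 1) (nat_lit 4) (nat_lit 0x5415450) (nat_lit 0x20004000300000000000400030002000100000006000500000000))) (.non (nat_lit 1) (nat_lit 4) (nat_lit 0x5415450) (nat_lit 0x20003000400000000000400030002000100000006000500000000))) (.non (nat_lit 2) (nat_lit 4) (nat_lit 0x4155405) (nat_lit 0x20000000000040003000400030002000100000000000000050006))) (.non (nat_lit 2) (nat_lit 4) (nat_lit 0x4155405) (nat_lit 0x20000000000030004000400030002000100000000000000050006))) (.non (nat_lit 1) (nat_lit 4) (nat_lit 0x5414050) (nat_lit 0x10001000100000000000200010000000000000002000200000000))) (.non (nat_lit 1) (nat_lit 4) (nat_lit 0x5415050) (nat_lit 0x10001000100000000000200020001000000000002000200000000))) (.non (nat_lit 1) (nat_lit 4) (nat_lit 0x5415450) (nat_lit 0x10001000100000000000200020002000100000002000200000000))) (.non (nat_lit 1) (nat_lit 4) (nat_lit 0x5400050) (nat_lit 0x10001000100000000000000000000000000000002000100000000))) (.star (nat_lit 0xd) (nat_lit 2) (nat_lit 4))) (.star (nat_lit 0xd) (nat_lit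 1) (nat_lit 4))) (.non (nat_lit 2) (nat_lit 4) (nat_lit 0x4140005) (nat_lit 0x10000000000010001000000000000000000000000000000010002)))) (.unj (nat_lit 0x10014) (nat_lit 0x100000000000000000000000100010000) (nat_lit 0x1001500) (nat_lit 0x1000000000000000000000001000200020000000000000000))) (.non (nat_lit 1) (nat_lit 4) (nat_lit 0x1400040) (nat_lit 0x1000100000000000000000000000000000001000000000000))) (.non (nat_lit 1) (nat_lit 4) (nat_lit 0x1515450) (nat_lit 0x4000300020000000400030002000100000006000500000000))) (.non (nat_lit 1) (nat_lit 4) (nat_lit 0x1455450) (nat_lit 0x4000300000002000400030002000100000006000500000000)))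

noncomputable def t757_200 : Tr := (.ex (nat_lit 3) (.ex (nat_lit 4) t757_197 (.split (nat_lit 0xc) (nat_lit 0) (.split (nat_lit 0xc) (nat_lit 1) (.split (nat_lit 0xc) (nat_lit 2) (.split (nat_lit 0xc) (nat_lit 6) (.split (nat_lit 0xc) (nat_lit 7) (.split (nat_lit 0xc) (nat_lit 8) (.split (nat_lit 0xc) (nat_lit 9) (.split (nat_lit 0xc) (nat_lit 0xa) (.split (nat_lit 0xc) (nat_lit 3) (.split (nat_lit 0xc) (nat_lit 5) (.split (nat_lit 0xc) (nat_lit 0xb) (.unj (nat_lit 0x10014) (nat_lit 0x100000000000000000000000100010000) (nat_lit 0x1001500) (nat_lit 0x1000000000000000000000001000200020000000000000000)) (.unj (nat_lit 0x10014) (nat_lit 0x100000000000000000000000100010000) (nat_lit 0x1001500) (nat_lit 0x1000000000000000000000001000200020000000000000000))) (.split (nat_lit 0xc) (nat_lit 0xb) (.unj (nat_lit 0x10014) (nat_lit 0x100000000000000000000000100010000) (nat_lit 0x1000500) (nat_lit 0x1000000000000000000000000000100010000000000000000)) (.non (nat_lit 1) (nat_lit 4) (nat_lit 0x1415450) (nat_lit 0x1000100000000000100010001000100000001000100000000))))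 (.split (nat_lit 0xc) (nat_lit 5) (.split (nat_lit 0xc) (nat_lit 0xb) (.unj (nat_lit 0x10014) (nat_lit 0x100000000000000000000000100010000) (nat_lit 0x1001500) (nat_lit 0x1000000000000000000000001000200020000000000000000)) (.non (nat_lit 1) (nat_lit 4) (nat_lit 0x1400040) (nat_lit 0x1000100000000000000000000000000000001000000000000))) (.non (nat_lit 1) (nat_lit 4) (nat_lit 0x1015450) (nat_lit 0x1000000000000000100010001000100000001000100000000)))) (.non (nat_lit 2) (nat_lit 4) (nat_lit 0x1155405) (nat_lit 0x2000000040003000400030002000100000000000000050006))) (.non (nat_lit 2) (nat_lit 4) (nat_lit 0x1155405) (nat_lit 0x2000000030004000400030002000100000000000000050006))) (.non (nat_lit 1) (nat_lit 4) (nat_lit 0x1415450) (nat_lit 0x2000100000000000400030002000100000002000300000000))) (.non (nat_lit 2) (nat_lit 4) (nat_lit 0x1155005) (nat_lit 0x1000000010001000200020001000000000000000000020002))) (.non (nat_lit 2) (nat_lit 4) (nat_lit 0x1155405) (nat_lit 0x1000000010001000200020002000100000000000000020002)))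 (.star (nat_lit 0xc) (nat_lit 2) (nat_lit 4))) (.star (nat_lit 0xc) (nat_lit 1) (nat_lit 4))) (.non (nat_lit 2) (nat_lit 4) (nat_lit 0x1140005) (nat_lit 0x1000000010001000000000000000000000000000000010002)))) (.split (nat_lit 0xc) (nat_lit 0) (.split (nat_lit 0xc) (nat_lit 1) (.split (nat_lit 0xc) (nat_lit 2) (.split (nat_lit 0xc) (nat_lit 5) (.split (nat_lit 0xc) (nat_lit 6) (.split (nat_lit 0xc) (nat_lit 7) (.split (nat_lit 0xc) (nat_lit 8) t757_199 (.non (nat_lit 1) (nat_lit 4) (nat_lit 0x1010050) (nat_lit 0x1000000000000000100000000000000000001000100000000))) (.non (nat_lit 1) (nat_lit 4) (nat_lit 0x1014050) (nat_lit 0x1000000000000000100010000000000000001000100000000))) (.non (nat_lit 1) (nat_lit 4) (nat_lit 0x1015050) (nat_lit 0x1000000000000000100010001000000000001000100000000))) (.non (nat_lit 1) (nat_lit 4) (nat_lit 0x1015450) (nat_lit 0x1000000000000000100010001000100000001000100000000))) (.non (nat_lit 1) (nat_lit 4) (nat_lit 0x1000050) (nat_lit 0x1000000000000000000000000000000000001000100000000)))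 (.non (nat_lit 2) (nat_lit 4) (nat_lit 0x1150005) (nat_lit 0x1000000010001000100000000000000000000000000020002))) (.non (nat_lit 1) (nat_lit 4) (nat_lit 0x1540051) (nat_lit 0x2000100010001000000000000000000000002000100000002))))

noncomputable def t757_201 : Tr := (.ex (nat_lit 3) (.ex (nat_lit 4) t757_195 (.split (nat_lit 0xb) (nat_lit 0) (.split (nat_lit 0xb) (nat_lit 1) (.split (nat_lit 0xb) (nat_lit 2) (.split (nat_lit 0xb) (nat_lit 6) (.split (nat_lit 0xb) (nat_lit 7) (.split (nat_lit 0xb) (nat_lit 8) (.split (nat_lit 0xb) (nat_lit 9) (.split (nat_lit 0xb) (nat_lit 0xa) (.split (nat_lit 0xb) (nat_lit 3) (.split (nat_lit 0xb) (nat_lit 5) (.unj (nat_lit 0x10014) (nat_lit 0x100000000000000000000000100010000) (nat_lit 0x401500) (nat_lit 0x100000000000000000001000200020000000000000000)) (.unj (nat_lit 0x10014) (nat_lit 0x100000000000000000000000100010000) (nat_lit 0x400500) (nat_lit 0x100000000000000000000000100010000000000000000))) (.split (nat_lit 0xb) (nat_lit 5) (.unj (nat_lit 0x10014) (nat_lit 0x100000000000000000000000100010000)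 (nat_lit 0x401500) (nat_lit 0x100000000000000000001000200020000000000000000)) (.non (nat_lit 1) (nat_lit 4) (nat_lit 0x415450) (nat_lit 0x100000000000100010001000100000001000100000000)))) (.non (nat_lit 2) (nat_lit 4) (nat_lit 0x555405) (nat_lit 0x200040003000400030002000100000000000000050006))) (.non (nat_lit 2) (nat_lit 4) (nat_lit 0x555405) (nat_lit 0x200030004000400030002000100000000000000050006))) (.non (nat_lit 1) (nat_lit 5) (nat_lit 0x415150) (nat_lit 0x200000000000300020001000000010001000200000000))) (.non (nat_lit 2) (nat_lit 4) (nat_lit 0x555005) (nat_lit 0x100010001000200020001000000000000000000020002))) (.non (nat_lit 2) (nat_lit 4) (nat_lit 0x555405) (nat_lit 0x100010001000200020002000100000000000000020002))) (.star (nat_lit 0xb) (nat_lit 2) (nat_lit 4))) (.star (nat_lit 0xb) (nat_lit 1) (nat_lit 4))) (.non (nat_lit 2) (nat_lit 4) (nat_lit 0x540005) (nat_lit 0x100010001000000000000000000000000000000010002)))) (.split (nat_lit 0xb) (nat_lit 0) (.split (nat_lit 0xb) (nat_lit 1) (.split (nat_lit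 0xb) (nat_lit 2) (.split (nat_lit 0xb) (nat_lit 5) (.split (nat_lit 0xb) (nat_lit 6) (.split (nat_lit 0xb) (nat_lit 7) (.split (nat_lit 0xb) (nat_lit 8) (.split (nat_lit 0xb) (nat_lit 9) (.split (nat_lit 0xb) (nat_lit 0xa) (.split (nat_lit 0xb) (nat_lit 4) t757_200 (.unj (nat_lit 0x10014) (nat_lit 0x100000000000000000000000100010000) (nat_lit 0x401500) (nat_lit 0x100000000000000000001000200020000000000000000))) (.non (nat_lit 2) (nat_lit 4) (nat_lit 0x555405) (nat_lit 0x200040003000400030002000100000000000000050006))) (.non (nat_lit 2) (nat_lit 4) (nat_lit 0x555405) (nat_lit 0x200030004000400030002000100000000000000050006))) (.non (nat_lit 1) (nat_lit 4) (nat_lit 0x410050) (nat_lit 0x100000000000100000000000000000001000100000000))) (.non (nat_lit 1) (nat_lit 4) (nat_lit 0x414050) (nat_lit 0x100000000000100010000000000000001000100000000))) (.non (nat_lit 1) (nat_lit 4) (nat_lit 0x415050) (nat_lit 0x100000000000100010001000000000001000100000000))) (.non (nat_lit 1) (nat_lit 4) (nat_lit 0x415450) (nat_lit 0x100000000000100010001000100000001000100000000)))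 (.non (nat_lit 1) (nat_lit 4) (nat_lit 0x400050) (nat_lit 0x100000000000000000000000000000001000100000000))) (.non (nat_lit 2) (nat_lit 4) (nat_lit 0x550005) (nat_lit 0x100010001000100000000000000000000000000020002))) (.non (nat_lit 2) (nat_lit 4) (nat_lit 0x540005) (nat_lit 0x100010001000000000000000000000000000000010002))))

noncomputable def t757_202 : Tr := (.ex (nat_lit 5) (.split (nat_lit 9) (nat_lit 0) (.split (nat_lit 0xa) (nat_lit 0) (.split (nat_lit 8) (nat_lit 2) (.split (nat_lit 0xb) (nat_lit 2) (.split (nat_lit 8) (nat_lit 7) (.split (nat_lit 8) (nat_lit 1) (.pd (.cons (nat_lit 1) (nat_lit 6) (nat_lit 0) (nat_lit 0x200280442200) (nat_lit 0xf423ff423ff423fb71aef423f00000f423f54591f423f28b06000007a11d) (.cons (nat_lit 1) (nat_lit 7) (nat_lit 0) (nat_lit 0x200205442200) (nat_lit 0xf423ff423ff423ff423f00000f423fb71ae1f156f423f3d08c000007a11d) (.cons (nat_lit 1) (nat_lit 8) (nat_lit 0) (nat_lit 0x200065442200) (nat_lit 0xf423ff423ff423f00000f423fb71aea2c2804737f423f7a11d000007a11d) (.cons (nat_lit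 2) (nat_lit 6) (nat_lit 0) (nat_lit 0xb00180443000) (nat_lit 0xf423ff423ff423fb71aef423f00000f423f54591f423f00000a2c281e843) (.cons (nat_lit 2) (nat_lit 7) (nat_lit 0) (nat_lit 0xb00105443000) (nat_lit 0xf423ff423ff423ff423f00000f423fb71ae1f156f423f00000b71ae28b06) (.cons (nat_lit 2) (nat_lit 8) (nat_lit 0) (nat_lit 0xb00065443000) (nat_lit 0xf423ff423ff423f00000f423fb71aea2c2804737f423f00000f423f3d08c) .nil)))))) (.leaf (.cons (nat_lit 0x10014) (nat_lit 0x100000000000000000000000100010000) (.cons (nat_lit 0x400054) (nat_lit 0x100000000000000000000000000000001000200020000) (.cons (nat_lit 0x400015) (nat_lit 0x100000000000000000000000000000000000200020001) .nil))) .nil)) (.non (nat_lit 2) (nat_lit 4) (nat_lit 0x160005) (nat_lit 0x10001000100000000000000000000000000020002))) (.non (nat_lit 1) (nat_lit 4) (nat_lit 0x41a010) (nat_lit 0x100000000000300020001000000000000000200000000))) (.non (nat_lit 1) (nat_lit 4) (nat_lit 0x810050) (nat_lit 0x100000000000100000000000000000001000200000000))) (.non (nat_lit 1)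 (nat_lit 4) (nat_lit 0x42a010) (nat_lit 0x200000000000300020001000000000000000400000000))) (.non (nat_lit 2) (nat_lit 4) (nat_lit 0x240005) (nat_lit 0x10001000000000000000000000000000000010002))) (.non (nat_lit 2) (nat_lit 4) (nat_lit 0x180005) (nat_lit 0x10001000000000000000000000000000000010002))) (.split (nat_lit 0xc) (nat_lit 0) (.split (nat_lit 0xc) (nat_lit 1) (.split (nat_lit 0xc) (nat_lit 2) (.split (nat_lit 0xc) (nat_lit 3) (.split (nat_lit 0xc) (nat_lit 6) (.split (nat_lit 0xc) (nat_lit 7) (.split (nat_lit 0xc) (nat_lit 8) (.split (nat_lit 0xc) (nat_lit 9) (.split (nat_lit 0xc) (nat_lit 0xa) (.split (nat_lit 0xc) (nat_lit 0xb) (.split (nat_lit 0xc) (nat_lit 4) (.unj (nat_lit 0x10014) (nat_lit 0x100000000000000000000000100010000) (nat_lit 0x1001500) (nat_lit 0x1000000000000000000000001000200020000000000000000)) (.unj (nat_lit 0x10014) (nat_lit 0x100000000000000000000000100010000) (nat_lit 0x1000500) (nat_lit 0x1000000000000000000000000000100010000000000000000))) (.non (nat_lit 1) (nat_lit 4) (nat_lit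 0x1415410) (nat_lit 0x1000100000000000100010001000100000000000100000000))) (.non (nat_lit 2) (nat_lit 4) (nat_lit 0x1154405) (nat_lit 0x2000000030002000200010000000100000000000000030004))) (.non (nat_lit 2) (nat_lit 4) (nat_lit 0x1154405) (nat_lit 0x2000000020003000200010000000100000000000000030004))) (.non (nat_lit 1) (nat_lit 4) (nat_lit 0x1015400) (nat_lit 0x1000000000000000100010001000100000000000000000000))) (.non (nat_lit 1) (nat_lit 4) (nat_lit 0x1005400) (nat_lit 0x1000000000000000000010001000100000000000000000000))) (.non (nat_lit 1) (nat_lit 4) (nat_lit 0x1001400) (nat_lit 0x1000000000000000000000001000100000000000000000000))) (.non (nat_lit 1) (nat_lit 4) (nat_lit 0x1015450) (nat_lit 0x1000000000000000100010001000100000001000100000000))) (.star (nat_lit 0xc) (nat_lit 2) (nat_lit 5))) (.star (nat_lit 0xc) (nat_lit 1) (nat_lit 5))) (.non (nat_lit 1) (nat_lit 4) (nat_lit 0x1555451) (nat_lit 0x2000100010001000200020002000200000001000200000002))))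

noncomputable def t757_203 : Tr := (.split (nat_lit 0xb) (nat_lit 5) (.split (nat_lit 0xb) (nat_lit 6) (.split (nat_lit 0xb) (nat_lit 7) (.split (nat_lit 0xb) (nat_lit 8) (.split (nat_lit 0xb) (nat_lit 9) (.split (nat_lit 0xb) (nat_lit 0xa) (.ex (nat_lit 4) t757_202 (.split (nat_lit 0xc) (nat_lit 0) (.split (nat_lit 0xc) (nat_lit 1) (.split (nat_lit 0xc) (nat_lit 2) (.split (nat_lit 0xc) (nat_lit 3) (.split (nat_lit 0xc) (nat_lit 6) (.split (nat_lit 0xc) (nat_lit 7) (.split (nat_lit 0xc) (nat_lit 8) (.split (nat_lit 0xc) (nat_lit 9) (.split (nat_lit 0xc) (nat_lit 0xa) (.split (nat_lit 0xc) (nat_lit 0xb) (.split (nat_lit 0xc) (nat_lit 5) (.unj (nat_lit 0x10014) (nat_lit 0x100000000000000000000000100010000) (nat_lit 0x1001500) (nat_lit 0x1000000000000000000000001000200020000000000000000)) (.unj (nat_lit 0x10014) (nat_lit 0x100000000000000000000000100010000) (nat_lit 0x1000500) (nat_lit 0x1000000000000000000000000000100010000000000000000))) (.non (nat_lit 1) (nat_lit 5) (nat_lit 0x1415150) (nat_lit 0x2000300000000000300020001000000010002000400000000)))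 (.non (nat_lit 2) (nat_lit 4) (nat_lit 0x1155405) (nat_lit 0x2000000040003000400030002000100000000000000050006))) (.non (nat_lit 2) (nat_lit 4) (nat_lit 0x1155405) (nat_lit 0x2000000030004000400030002000100000000000000050006))) (.non (nat_lit 1) (nat_lit 4) (nat_lit 0x1414050) (nat_lit 0x1000100000000000200010000000000000001000200000000))) (.non (nat_lit 1) (nat_lit 4) (nat_lit 0x1415050) (nat_lit 0x1000100000000000200020001000000000001000200000000))) (.non (nat_lit 1) (nat_lit 4) (nat_lit 0x1415450) (nat_lit 0x1000100000000000200020002000100000001000200000000))) (.non (nat_lit 1) (nat_lit 5) (nat_lit 0x1415150) (nat_lit 0x2000200000000000300020001000000010003000400000000))) (.star (nat_lit 0xc) (nat_lit 2) (nat_lit 4))) (.star (nat_lit 0xc) (nat_lit 1) (nat_lit 4))) (.non (nat_lit 2) (nat_lit 4) (nat_lit 0x1140005) (nat_lit 0x1000000010001000000000000000000000000000000010002)))) (.non (nat_lit 1) (nat_lit 4) (nat_lit 0x515051) (nat_lit 0x300020000000300020001000000000002000400000001))) (.non (nat_lit 1)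 (nat_lit 4) (nat_lit 0x455051) (nat_lit 0x300000002000300020001000000000002000400000001))) (.non (nat_lit 1) (nat_lit 4) (nat_lit 0x410010) (nat_lit 0x100000000000100000000000000000000000100000000))) (.non (nat_lit 1) (nat_lit 4) (nat_lit 0x414010) (nat_lit 0x100000000000100010000000000000000000100000000))) (.non (nat_lit 1) (nat_lit 4) (nat_lit 0x415010) (nat_lit 0x100000000000100010001000000000000000100000000))) (.star (nat_lit 0xb) (nat_lit 2) (nat_lit 5)))

noncomputable def t757_204 : Tr := (.ex (nat_lit 0) (.ex (nat_lit 1) t757_193 (.split (nat_lit 0xa) (nat_lit 0) (.split (nat_lit 0xa) (nat_lit 3) (.split (nat_lit 0xa) (nat_lit 4) (.split (nat_lit 0xa) (nat_lit 5) (.split (nat_lit 0xa) (nat_lit 6) (.split (nat_lit 0xa) (nat_lit 7) (.split (nat_lit 0xa) (nat_lit 8) (.split (nat_lit 0xa) (nat_lit 9) (.split (nat_lit 0xa) (nat_lit 2) (.st (nat_lit 5) (nat_lit 2) (nat_lit 4) (nat_lit 0x155405) (nat_lit 0x30002000500040003000200000000000000060004) (nat_lit 1) (nat_lit 1) (.st (nat_lit 6) (nat_lit 2) (nat_lit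 4) (nat_lit 0x115405) (nat_lit 0x10000000200020002000100000000000000020001) (nat_lit 1) (nat_lit 1) (.st (nat_lit 7) (nat_lit 2) (nat_lit 4) (nat_lit 0x115005) (nat_lit 0x10000000200020001000000000000000000020001) (nat_lit 1) (nat_lit 1) t757_194))) (.split (nat_lit 0xa) (nat_lit 1) (.split (nat_lit 0xa) (nat_lit 2) (.split (nat_lit 9) (nat_lit 0) (.split (nat_lit 8) (nat_lit 1) (.split (nat_lit 8) (nat_lit 2) (.sup (nat_lit 0x4000d00160020001a0000000000000000) (nat_lit 0x30001000000000000000000000001000300030002)) (.non (nat_lit 1) (nat_lit 4) (nat_lit 0x12a010) (nat_lit 0x20000000300020001000000000000000400000000))) (.non (nat_lit 2) (nat_lit 4) (nat_lit 0x12a004) (nat_lit 0x20000000300020001000000000000000000040000))) (.non (nat_lit 2) (nat_lit 4) (nat_lit 0x190005) (nat_lit 0x10001000100000000000000000000000000020002))) (.non (nat_lit 1) (nat_lit 4) (nat_lit 0x210050) (nat_lit 0x10000000100000000000000000001000200000000))) (.non (nat_lit 2) (nat_lit 4) (nat_lit 0x210005) (nat_lit 0x10000000100000000000000000000000000020001))))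 (.non (nat_lit 2) (nat_lit 4) (nat_lit 0x140005) (nat_lit 0x10001000000000000000000000000000000010001))) (.non (nat_lit 2) (nat_lit 4) (nat_lit 0x110004) (nat_lit 0x10000000100000000000000000000000000010000))) (.non (nat_lit 2) (nat_lit 4) (nat_lit 0x114004) (nat_lit 0x10000000100010000000000000000000000010000))) (.non (nat_lit 2) (nat_lit 4) (nat_lit 0x115004) (nat_lit 0x10000000100010001000000000000000000010000))) (.star (nat_lit 0xa) (nat_lit 1) (nat_lit 5))) (.star (nat_lit 0xa) (nat_lit 1) (nat_lit 4))) (.non (nat_lit 2) (nat_lit 4) (nat_lit 0x154045) (nat_lit 0x20001000200010000000000000001000000030002))) (.non (nat_lit 2) (nat_lit 4) (nat_lit 0x100005) (nat_lit 0x10000000000000000000000000000000000010001)))) (.split (nat_lit 0xa) (nat_lit 1) (.split (nat_lit 0xa) (nat_lit 2) (.split (nat_lit 0xa) (nat_lit 3) (.split (nat_lit 0xa) (nat_lit 5) (.split (nat_lit 0xa) (nat_lit 6) (.split (nat_lit 0xa) (nat_lit 7) (.split (nat_lit 0xa) (nat_lit 8) (.split (nat_lit 0xa) (nat_lit 9) (.split (nat_lit 0xa)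 (nat_lit 4) (.st (nat_lit 1) (nat_lit 2) (nat_lit 4) (nat_lit 0x150005) (nat_lit 0x10001000100000000000000000000000000020002) (nat_lit 1) (nat_lit 1) (.st (nat_lit 6) (nat_lit 2) (nat_lit 4) (nat_lit 0x155405) (nat_lit 0x10001000200020002000100000000000000020002) (nat_lit 1) (nat_lit 1) (.st (nat_lit 7) (nat_lit 2) (nat_lit 4) (nat_lit 0x155005) (nat_lit 0x10001000200020001000000000000000000020002) (nat_lit 1) (nat_lit 1) (.ex (nat_lit 2) t757_201 (.split (nat_lit 0xb) (nat_lit 0) (.split (nat_lit 0xb) (nat_lit 1) (.split (nat_lit 0xb) (nat_lit 3) (.split (nat_lit 0xb) (nat_lit 4) t757_203 (.star (nat_lit 0xb) (nat_lit 2) (nat_lit 4))) (.non (nat_lit 1) (nat_lit 4) (nat_lit 0x400050) (nat_lit 0x100000000000000000000000000000001000100000000))) (.non (nat_lit 2) (nat_lit 4) (nat_lit 0x550005) (nat_lit 0x100010001000100000000000000000000000000020002))) (.non (nat_lit 1) (nat_lit 4) (nat_lit 0x550051) (nat_lit 0x200010001000100000000000000000001000200000002))))))) (.unj (nat_lit 0x10014) (nat_lit 0x100000000000000000000000100010000)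 (nat_lit 0x101500) (nat_lit 0x10000000000000001000200020000000000000000))) (.non (nat_lit 1) (nat_lit 4) (nat_lit 0x140001) (nat_lit 0x10001000000000000000000000000000000000001))) (.non (nat_lit 1) (nat_lit 4) (nat_lit 0x155411) (nat_lit 0x30001000400030002000100000000000200000002))) (.non (nat_lit 1) (nat_lit 4) (nat_lit 0x115411) (nat_lit 0x20000000200030002000100000000000100000001))) (.non (nat_lit 1) (nat_lit 4) (nat_lit 0x155411) (nat_lit 0x30001000200030004000200000000000100000002))) (.non (nat_lit 2) (nat_lit 4) (nat_lit 0x115405) (nat_lit 0x10000000100010001000100000000000000010001))) (.non (nat_lit 2) (nat_lit 4) (nat_lit 0x155445) (nat_lit 0x40003000400030002000100000002000000050006))) (.non (nat_lit 1) (nat_lit 4) (nat_lit 0x155051) (nat_lit 0x30001000300020001000000000002000400000002))) (.non (nat_lit 2) (nat_lit 4) (nat_lit 0x100005) (nat_lit 0x10000000000000000000000000000000000010001))))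

noncomputable def t757_205 : Tr := (.ex (nat_lit 6) (.pd (.cons (nat_lit 1) (nat_lit 7) (nat_lit 0) (nat_lit 0x205449300) (nat_lit 0x98965f423f00000f423fb71ae1f156a2c28b71ae00000927bd) (.cons (nat_lit 1) (nat_lit 8) (nat_lit 0) (nat_lit 0x65449300) (nat_lit 0xa2c2800000f423fb71aea2c2804737b71aef423f0000098965) (.cons (nat_lit 2) (nat_lit 7) (nat_lit 0) (nat_lit 0x105449000) (nat_lit 0xb71aef423f00000f423fb71ae1f156f423f00000b71ae51611) (.cons (nat_lit 2) (nat_lit 8) (nat_lit 0) (nat_lit 0x65449000) (nat_lit 0xb71ae00000f423fb71aea2c2804737f423f00000f423f65b97) .nil)))) (.ex (nat_lit 9) (.pd (.cons (nat_lit 0) (nat_lit 8) (nat_lit 0) (nat_lit 0x3065442110) (nat_lit 0xf423f00000f423fb71aea2c2804737b71aea2c280473700000) (.cons (nat_lit 3) (nat_lit 8) (nat_lit 0) (nat_lit 0x65440100) (nat_lit 0xf423f00000f423fb71aea2c280473700000f423f5459106711) .nil)) (.leaf (.cons (nat_lit 0x10014) (nat_lit 0x100000000000000000000000100010000) .nil) .nil)) (.split (nat_lit 0xa) (nat_lit 0) (.split (nat_lit 0xa) (nat_lit 1)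 (.split (nat_lit 0xa) (nat_lit 2) (.split (nat_lit 0xa) (nat_lit 3) (.split (nat_lit 0xa) (nat_lit 4) (.split (nat_lit 0xa) (nat_lit 5) (.split (nat_lit 0xa) (nat_lit 6) (.split (nat_lit 0xa) (nat_lit 7) (.split (nat_lit 0xa) (nat_lit 8) (.sup (nat_lit 0x3000d00160020001a0000000000000000) (nat_lit 0x30006000000000000000000000005000300030005)) (.non (nat_lit 1) (nat_lit 4) (nat_lit 0x150050) (nat_lit 0x10001000100000000000000000001000100000000))) (.non (nat_lit 1) (nat_lit 4) (nat_lit 0x155410) (nat_lit 0x20001000200030002000100000000000100000000))) (.non (nat_lit 1) (nat_lit 4) (nat_lit 0x155050) (nat_lit 0x10001000100010001000000000001000100000000))) (.non (nat_lit 1) (nat_lit 4) (nat_lit 0x155450) (nat_lit 0x10001000100010001000100000001000100000000))) (.non (nat_lit 1) (nat_lit 5) (nat_lit 0x155151) (nat_lit 0x40006000300020001000000020005000400000003))) (.non (nat_lit 1) (nat_lit 4) (nat_lit 0x140040) (nat_lit 0x10001000000000000000000000001000000000000))) (.non (nat_lit 1) (nat_lit 4) (nat_lit 0x140050)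 (nat_lit 0x10001000000000000000000000001000100000000))) (.non (nat_lit 2) (nat_lit 4) (nat_lit 0x140005) (nat_lit 0x10001000000000000000000000000000000010001))) (.non (nat_lit 1) (nat_lit 4) (nat_lit 0x140001) (nat_lit 0x10001000000000000000000000000000000000001))))) (.split (nat_lit 0xa) (nat_lit 0) (.split (nat_lit 0xa) (nat_lit 1) (.split (nat_lit 0xa) (nat_lit 2) (.split (nat_lit 0xa) (nat_lit 3) (.split (nat_lit 0xa) (nat_lit 5) (.split (nat_lit 0xa) (nat_lit 7) (.split (nat_lit 0xa) (nat_lit 8) (.split (nat_lit 0xa) (nat_lit 9) (.split (nat_lit 0xa) (nat_lit 4) (.unj (nat_lit 0x55) (nat_lit 0x1000200020001) (nat_lit 0x105500) (nat_lit 0x10000000000010002000200020000000000000000)) (.unj (nat_lit 0x10014) (nat_lit 0x100000000000000000000000100010000) (nat_lit 0x101500) (nat_lit 0x10000000000000001000100010000000000000000))) (.non (nat_lit 1) (nat_lit 4) (nat_lit 0x155050) (nat_lit 0x10001000100010001000000000001000100000000))) (.non (nat_lit 1) (nat_lit 4) (nat_lit 0x115000) (nat_lit 0x10000000100010001000000000000000000000000)))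 (.non (nat_lit 1) (nat_lit 4) (nat_lit 0x105000) (nat_lit 0x10000000000010001000000000000000000000000))) (.non (nat_lit 1) (nat_lit 4) (nat_lit 0x101400) (nat_lit 0x10000000000000001000100000000000000000000))) (.non (nat_lit 1) (nat_lit 4) (nat_lit 0x115050) (nat_lit 0x10000000100010001000000000001000100000000))) (.non (nat_lit 1) (nat_lit 4) (nat_lit 0x115010) (nat_lit 0x10000000100010001000000000000000100000000))) (.non (nat_lit 2) (nat_lit 4) (nat_lit 0x115004) (nat_lit 0x10000000100010001000000000000000000010000))) (.non (nat_lit 1) (nat_lit 4) (nat_lit 0x155411) (nat_lit 0x30001000200030004000200000000000100000002))))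

noncomputable def t757_206 : Tr := (.ex (nat_lit 4) (.ex (nat_lit 5) (.split (nat_lit 9) (nat_lit 0) (.split (nat_lit 8) (nat_lit 2) (.split (nat_lit 9) (nat_lit 3) (.split (nat_lit 8) (nat_lit 7) (.split (nat_lit 8) (nat_lit 1) (.pd (.cons (nat_lit 1) (nat_lit 6) (nat_lit 0) (nat_lit 0x280449300) (nat_lit 0x927bdb71aef423f00000f423f5459198965a2c28000008e6a2) (.cons (nat_lit 2) (nat_lit 6) (nat_lit 0) (nat_lit 0x180449000) (nat_lit 0xb71aeb71aef423f00000f423f54591f423f00000a2c284734e) .nil)) t757_205) (.non (nat_lit 2) (nat_lit 4) (nat_lit 0x68005) (nat_lit 0x1000200010000000000000000000000030002))) (.non (nat_lit 1) (nat_lit 4) (nat_lit 0x1a810) (nat_lit 0x400030002000100000000000200000000))) (.non (nat_lit 1) (nat_lit 4) (nat_lit 0x600a1) (nat_lit 0x4000100000000000000000003000200000002))) (.non (nat_lit 1) (nat_lit 4) (nat_lit 0x68050) (nat_lit 0x1000200010000000000000002000300000000))) (.non (nat_lit 2) (nat_lit 4) (nat_lit 0x90085) (nat_lit 0x2000100000000000000000001000000020003))) (.split (nat_lit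 0xa) (nat_lit 0) (.split (nat_lit 0xa) (nat_lit 1) (.split (nat_lit 0xa) (nat_lit 2) (.split (nat_lit 0xa) (nat_lit 3) (.split (nat_lit 0xa) (nat_lit 6) (.split (nat_lit 0xa) (nat_lit 7) (.split (nat_lit 0xa) (nat_lit 8) (.split (nat_lit 0xa) (nat_lit 9) (.split (nat_lit 0xa) (nat_lit 4) (.unj (nat_lit 0x10014) (nat_lit 0x100000000000000000000000100010000) (nat_lit 0x101500) (nat_lit 0x10000000000000001000200020000000000000000)) (.unj (nat_lit 0x10014) (nat_lit 0x100000000000000000000000100010000) (nat_lit 0x100500) (nat_lit 0x10000000000000000000100010000000000000000))) (.non (nat_lit 1) (nat_lit 4) (nat_lit 0x155450) (nat_lit 0x10001000100010001000100000001000100000000))) (.non (nat_lit 1) (nat_lit 4) (nat_lit 0x115400) (nat_lit 0x10000000100010001000100000000000000000000))) (.non (nat_lit 1) (nat_lit 4) (nat_lit 0x105400) (nat_lit 0x10000000000010001000100000000000000000000))) (.non (nat_lit 1) (nat_lit 4) (nat_lit 0x101400) (nat_lit 0x10000000000000001000100000000000000000000))) (.non (nat_lit 1) (nat_lit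 4) (nat_lit 0x115450) (nat_lit 0x10000000100010001000100000001000100000000))) (.star (nat_lit 0xa) (nat_lit 2) (nat_lit 5))) (.star (nat_lit 0xa) (nat_lit 1) (nat_lit 5))) (.non (nat_lit 1) (nat_lit 4) (nat_lit 0x155451) (nat_lit 0x10001000100010001000100000001000100000001)))) (.split (nat_lit 0xa) (nat_lit 0) (.split (nat_lit 0xa) (nat_lit 1) (.split (nat_lit 0xa) (nat_lit 2) (.split (nat_lit 0xa) (nat_lit 3) (.split (nat_lit 0xa) (nat_lit 7) (.split (nat_lit 0xa) (nat_lit 8) (.split (nat_lit 0xa) (nat_lit 9) (.split (nat_lit 0xa) (nat_lit 5) (.split (nat_lit 0xa) (nat_lit 6) (.unj (nat_lit 0x10014) (nat_lit 0x100000000000000000000000100010000) (nat_lit 0x101500) (nat_lit 0x10000000000000001000200020000000000000000)) (.unj (nat_lit 0x10014) (nat_lit 0x100000000000000000000000100010000) (nat_lit 0x101500) (nat_lit 0x10000000000000001000100010000000000000000))) (.split (nat_lit 0xa) (nat_lit 6) (.unj (nat_lit 0x10014) (nat_lit 0x100000000000000000000000100010000) (nat_lit 0x100500) (nat_lit 0x10000000000000000000100010000000000000000))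 (.non (nat_lit 1) (nat_lit 4) (nat_lit 0x101400) (nat_lit 0x10000000000000001000100000000000000000000)))) (.non (nat_lit 1) (nat_lit 5) (nat_lit 0x155151) (nat_lit 0x40006000300020001000000020005000400000003))) (.non (nat_lit 1) (nat_lit 4) (nat_lit 0x155450) (nat_lit 0x20001000400030002000100000002000300000000))) (.non (nat_lit 1) (nat_lit 4) (nat_lit 0x155451) (nat_lit 0x30002000500060004000200000003000400000001))) (.non (nat_lit 1) (nat_lit 4) (nat_lit 0x155451) (nat_lit 0x30004000400030002000100000006000500000002))) (.star (nat_lit 0xa) (nat_lit 2) (nat_lit 4))) (.star (nat_lit 0xa) (nat_lit 1) (nat_lit 4))) (.non (nat_lit 2) (nat_lit 4) (nat_lit 0x155445) (nat_lit 0x30004000400030002000100000002000000050006))))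

noncomputable def t757_207 : Tr := (.split (nat_lit 9) (nat_lit 1) (.split (nat_lit 9) (nat_lit 5) (.split (nat_lit 9) (nat_lit 6) (.split (nat_lit 9) (nat_lit 7) (.split (nat_lit 9) (nat_lit 8) (.split (nat_lit 9) (nat_lit 2) (.split (nat_lit 9) (nat_lit 3) (.split (nat_lit 9) (nat_lit 4) t757_204 (.unj (nat_lit 0x10014) (nat_lit 0x100000000000000000000000100010000) (nat_lit 0x41500) (nat_lit 0x1000000000001000200020000000000000000))) (.split (nat_lit 9) (nat_lit 4) (.st (nat_lit 0) (nat_lit 2) (nat_lit 4) (nat_lit 0x55445) (nat_lit 0x4000400030002000100000002000000050006) (nat_lit 1) (nat_lit 3) (.st (nat_lit 1) (nat_lit 2) (nat_lit 4) (nat_lit 0x55045) (nat_lit 0x2000300020001000000000001000000040003) (nat_lit 1) (nat_lit 2) (.st (nat_lit 2) (nat_lit 1) (nat_lit 4) (nat_lit 0x55051) (nat_lit 0x2000300020001000000000003000400000001) (nat_lit 1) (nat_lit 2) (.st (nat_lit 3) (nat_lit 1) (nat_lit 4) (nat_lit 0x55451) (nat_lit 0x4000400030002000100000006000500000002) (nat_lit 1) (nat_lit 3) (.st (nat_lit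 7) (nat_lit 1) (nat_lit 4) (nat_lit 0x55451) (nat_lit 0x2000500060004000200000003000400000001) (nat_lit 1) (nat_lit 3) t757_206))))) (.unj (nat_lit 0x10014) (nat_lit 0x100000000000000000000000100010000) (nat_lit 0x41500) (nat_lit 0x1000000000001000200020000000000000000)))) (.split (nat_lit 9) (nat_lit 3) (.split (nat_lit 9) (nat_lit 4) (.split (nat_lit 9) (nat_lit 0) (.split (nat_lit 9) (nat_lit 2) (.split (nat_lit 8) (nat_lit 1) (.split (nat_lit 8) (nat_lit 2) (.sup (nat_lit 0x10006000b0010000d0000000000000000) (nat_lit 0x2000000000000000000000001000200020002)) (.non (nat_lit 1) (nat_lit 4) (nat_lit 0x6a010) (nat_lit 0x2000300020001000000000000000400000000))) (.non (nat_lit 2) (nat_lit 4) (nat_lit 0x68005) (nat_lit 0x1000200010000000000000000000000030002))) (.non (nat_lit 1) (nat_lit 4) (nat_lit 0x90050) (nat_lit 0x1000100000000000000000001000200000000))) (.non (nat_lit 1) (nat_lit 4) (nat_lit 0xa00a1) (nat_lit 0x2000100000000000000000001000200000002))) (.star (nat_lit 9) (nat_lit 2) (nat_lit 4))) (.non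 (nat_lit 1) (nat_lit 4) (nat_lit 0x40050) (nat_lit 0x1000000000000000000000001000100000000)))) (.non (nat_lit 1) (nat_lit 4) (nat_lit 0x55051) (nat_lit 0x2000300020001000000000001000200000001))) (.non (nat_lit 1) (nat_lit 4) (nat_lit 0x55411) (nat_lit 0x2000200030002000100000000000100000001))) (.non (nat_lit 2) (nat_lit 4) (nat_lit 0x55005) (nat_lit 0x1000100010001000000000000000000010001))) (.non (nat_lit 2) (nat_lit 4) (nat_lit 0x55405) (nat_lit 0x1000100010001000100000000000000010001))) (.non (nat_lit 2) (nat_lit 4) (nat_lit 0x40005) (nat_lit 0x1000000000000000000000000000000010001)))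

noncomputable def t757_208 : Tr := (.split (nat_lit 8) (nat_lit 2) (.split (nat_lit 8) (nat_lit 3) (.split (nat_lit 7) (nat_lit 2) t757_155 (.split (nat_lit 7) (nat_lit 3) (.split (nat_lit 6) (nat_lit 3) (.st (nat_lit 6) (nat_lit 1) (nat_lit 4) (nat_lit 0x15410) (nat_lit 0x100020002000100000000000100000000) (nat_lit 1) (nat_lit 1) (.st (nat_lit 7) (nat_lit 1) (nat_lit 4) (nat_lit 0x15010) (nat_lit 0x100020001000000000000000100000000) (nat_lit 1) (nat_lit 1) t757_156)) (.non (nat_lit 1) (nat_lit 4) (nat_lit 0x5050) (nat_lit 0x10001000000000001000100000000))) (.non (nat_lit 1) (nat_lit 4) (nat_lit 0x4050) (nat_lit 0x10000000000000001000100000000)))) (.split (nat_lit 7) (nat_lit 2) (.split (nat_lit 7) (nat_lit 3) (.split (nat_lit 6) (nat_lit 3) (.st (nat_lit 0) (nat_lit 2) (nat_lit 4) (nat_lit 0x15445) (nat_lit 0x400030002000100000002000000030002) (nat_lit 1) (nat_lit 1) (.st (nat_lit 1) (nat_lit 2) (nat_lit 4) (nat_lit 0x14045) (nat_lit 0x200010000000000000001000000020001) (nat_lit 1) (nat_lit 1) (.st (nat_lit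 3) (nat_lit 2) (nat_lit 4) (nat_lit 0x15045) (nat_lit 0x300020001000000000002000000020001) (nat_lit 1) (nat_lit 1) (.st (nat_lit 6) (nat_lit 2) (nat_lit 4) (nat_lit 0x15444) (nat_lit 0x200020002000100000001000000010000) (nat_lit 1) (nat_lit 1) (.st (nat_lit 7) (nat_lit 2) (nat_lit 4) (nat_lit 0x15044) (nat_lit 0x200020001000000000001000000010000) (nat_lit 1) (nat_lit 1) t757_158))))) (.non (nat_lit 1) (nat_lit 4) (nat_lit 0x15040) (nat_lit 0x100010001000000000001000000000000))) (.non (nat_lit 1) (nat_lit 4) (nat_lit 0x14040) (nat_lit 0x100010000000000000001000000000000))) (.non (nat_lit 1) (nat_lit 4) (nat_lit 0x14050) (nat_lit 0x100010000000000000001000100000000)))) (.split (nat_lit 8) (nat_lit 3) (.split (nat_lit 7) (nat_lit 2) (.split (nat_lit 7) (nat_lit 3) (.split (nat_lit 6) (nat_lit 3) (.ex (nat_lit 0) (.ex (nat_lit 1) (.ex (nat_lit 2) t757_169 (.split (nat_lit 9) (nat_lit 3) (.split (nat_lit 9) (nat_lit 4) (.split (nat_lit 9) (nat_lit 5) (.split (nat_lit 9) (nat_lit 6) (.split (nat_lit 9) (nat_lit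 7) (.split (nat_lit 9) (nat_lit 8) t757_171 (.non (nat_lit 1) (nat_lit 4) (nat_lit 0x50010) (nat_lit 0x1000100000000000000000000000100000000))) (.non (nat_lit 1) (nat_lit 4) (nat_lit 0x54010) (nat_lit 0x1000100010000000000000000000100000000))) (.non (nat_lit 1) (nat_lit 4) (nat_lit 0x55010) (nat_lit 0x1000100010001000000000000000100000000))) (.star (nat_lit 9) (nat_lit 2) (nat_lit 5))) (.star (nat_lit 9) (nat_lit 2) (nat_lit 4))) (.non (nat_lit 1) (nat_lit 4) (nat_lit 0x40050) (nat_lit 0x1000000000000000000000001000100000000)))) (.split (nat_lit 9) (nat_lit 0) (.split (nat_lit 9) (nat_lit 4) (.split (nat_lit 9) (nat_lit 5) (.split (nat_lit 9) (nat_lit 6) (.split (nat_lit 9) (nat_lit 7) (.split (nat_lit 9) (nat_lit 8) t757_173 (.non (nat_lit 2) (nat_lit 4) (nat_lit 0x50004) (nat_lit 0x1000100000000000000000000000000010000))) (.non (nat_lit 2) (nat_lit 4) (nat_lit 0x54004) (nat_lit 0x1000100010000000000000000000000010000))) (.non (nat_lit 2) (nat_lit 4) (nat_lit 0x55004) (nat_lit 0x1000100010001000000000000000000010000)))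 (.star (nat_lit 9) (nat_lit 1) (nat_lit 5))) (.star (nat_lit 9) (nat_lit 1) (nat_lit 4))) (.non (nat_lit 2) (nat_lit 4) (nat_lit 0x40005) (nat_lit 0x1000000000000000000000000000000010001)))) t757_207) (.non (nat_lit 1) (nat_lit 4) (nat_lit 0x15050) (nat_lit 0x100010001000000000001000100000000))) (.non (nat_lit 1) (nat_lit 4) (nat_lit 0x14050) (nat_lit 0x100010000000000000001000100000000))) (.non (nat_lit 1) (nat_lit 4) (nat_lit 0x14010) (nat_lit 0x100010000000000000000000100000000))) (.non (nat_lit 1) (nat_lit 4) (nat_lit 0x10050) (nat_lit 0x100000000000000000001000100000000))))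

noncomputable def t757_209 : Tr := (.ex (nat_lit 4) (.split (nat_lit 8) (nat_lit 0) (.split (nat_lit 8) (nat_lit 7) (.split (nat_lit 6) (nat_lit 3) (.pd (.cons (nat_lit 0) (nat_lit 6) (nat_lit 0) (nat_lit 0x770442110) (nat_lit 0xf423fb71ae00000f423f54591f423fb71ae1f15600000) (.cons (nat_lit 1) (nat_lit 6) (nat_lit 0) (nat_lit 0x80442200) (nat_lit 0xb71aef423f00000f423f54591f423fb71ae00000a2c28) (.cons (nat_lit 2) (nat_lit 6) (nat_lit 0) (nat_lit 0x80443000) (nat_lit 0xb71aef423f00000f423f54591f423f00000f423f65b97) (.cons (nat_lit 2) (nat_lit 7) (nat_lit 0) (nat_lit 0x3653000) (nat_lit 0xf423f00000437a254591f423f174ea00000f423f7a11d) (.cons (nat_lit 3) (nat_lit 7) (nat_lit 0) (nat_lit 0x5440100) (nat_lit 0xf423f00000f423fb71ae1f15600000f423f5459106711) (.cons (nat_lit 3) (nat_lit 8) (nat_lit 0) (nat_lit 0x65440100) (nat_lit 0xf423fb71aea2c280473700000f423f54591437a2) .nil)))))) (.leaf (.cons (nat_lit 0x5054) (nat_lit 0x10002000000000003000400030000) (.cons (nat_lit 0x1550) (nat_lit 0x3000400030002000100000000)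 (.cons (nat_lit 0x5540) (nat_lit 0x10002000200020001000000000000) (.cons (nat_lit 0x14015) (nat_lit 0x200010000000000000000000300040003) .nil)))) (.cons (nat_lit 0x111101101) (nat_lit 0x10010) (nat_lit 0xd) (nat_lit 0x540102306) (.cons (nat_lit 0x111101011) (nat_lit 0x10100) (nat_lit 0xa) (nat_lit 0x430201065) .nil)))) (.non (nat_lit 1) (nat_lit 4) (nat_lit 0xa840) (nat_lit 0x10002000100000002000000000000))) (.non (nat_lit 1) (nat_lit 4) (nat_lit 0x25440) (nat_lit 0x100020002000100000001000000000000))) (.non (nat_lit 1) (nat_lit 4) (nat_lit 0x2a881) (nat_lit 0x200020002000100000001000000000002))) (.split (nat_lit 9) (nat_lit 0) (.split (nat_lit 9) (nat_lit 1) (.split (nat_lit 9) (nat_lit 2) (.split (nat_lit 9) (nat_lit 3) (.split (nat_lit 9) (nat_lit 5) (.split (nat_lit 9) (nat_lit 6) (.split (nat_lit 9) (nat_lit 7) (.split (nat_lit 9) (nat_lit 8) (.sup (nat_lit 0x50000000000020009000a0000000000000000) (nat_lit 0x4000100000000000000000008000a0007)) (.non (nat_lit 1) (nat_lit 4) (nat_lit 0x55441) (nat_lit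 0x1000200020002000100000001000000000001))) (.non (nat_lit 1) (nat_lit 4) (nat_lit 0x55440) (nat_lit 0x1000100020002000100000001000000000000))) (.non (nat_lit 1) (nat_lit 4) (nat_lit 0x45440) (nat_lit 0x1000000010002000100000001000000000000))) (.non (nat_lit 1) (nat_lit 4) (nat_lit 0x55450) (nat_lit 0x1000100020003000200000002000100000000))) (.non (nat_lit 1) (nat_lit 4) (nat_lit 0x45450) (nat_lit 0x1000000010002000100000002000100000000))) (.star (nat_lit 9) (nat_lit 2) (nat_lit 4))) (.star (nat_lit 9) (nat_lit 1) (nat_lit 4))) (.non (nat_lit 2) (nat_lit 4) (nat_lit 0x55445) (nat_lit 0x1000200020002000100000001000000010002))))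

noncomputable def t757_210 : Tr := (.ex (nat_lit 5) (.split (nat_lit 8) (nat_lit 3) (.split (nat_lit 8) (nat_lit 0) (.split (nat_lit 8) (nat_lit 7) (.pd (.cons (nat_lit 0) (nat_lit 7) (nat_lit 0) (nat_lit 0x305442110) (nat_lit 0xf423f00000f423fb71ae1f156b71aea2c280473700000) (.cons (nat_lit 0) (nat_lit 8) (nat_lit 0) (nat_lit 0x65442110) (nat_lit 0xf423fb71aea2c2804737f423fb71ae1f15600000) (.cons (nat_lit 1) (nat_lit 6) (nat_lit 0) (nat_lit 0x80448300) (nat_lit 0x65b97f423f00000f423f54591b71aef423f0000061a79) (.cons (nat_lit 1) (nat_lit 7) (nat_lit 0) (nat_lit 0x5448300) (nat_lit 0xa2c2800000f423fb71ae1f156b71aef423f0000098965) (.cons (nat_lit 1) (nat_lit 8) (nat_lit 0) (nat_lit 0x65442200) (nat_lit 0xf423fb71aea2c2804737f423fb71ae00000f423f) (.cons (nat_lit 2) (nat_lit 6) (nat_lit 0) (nat_lit 0x80448000) (nat_lit 0x7a11df423f00000f423f54591f423f00000f423f3d08a) (.cons (nat_lit 2) (nat_lit 7) (nat_lit 0) (nat_lit 0x5448000) (nat_lit 0xb71ae00000f423fb71ae1f156f423f00000f423f65b97) (.cons (nat_lit 2) (nat_lit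 8) (nat_lit 0) (nat_lit 0x65443000) (nat_lit 0xf423fb71aea2c2804737f423f00000f423fb71ae) (.cons (nat_lit 3) (nat_lit 7) (nat_lit 0) (nat_lit 0x5440100) (nat_lit 0xf423f00000f423fb71ae1f15600000f423f5459106711) (.cons (nat_lit 3) (nat_lit 8) (nat_lit 0) (nat_lit 0x65440100) (nat_lit 0xf423fb71aea2c280473700000f423f54591437a2) .nil)))))))))) (.leaf (.cons (nat_lit 0x14054) (nat_lit 0x200010000000000000003000400030000) (.cons (nat_lit 0x14015) (nat_lit 0x200010000000000000000000300040003) .nil)) .nil)) (.non (nat_lit 1) (nat_lit 4) (nat_lit 0x1a840) (nat_lit 0x400030002000100000002000000000000))) (.non (nat_lit 1) (nat_lit 4) (nat_lit 0x28081) (nat_lit 0x200010000000000000001000000000002))) (.non (nat_lit 1) (nat_lit 4) (nat_lit 0x2a050) (nat_lit 0x300020001000000000004000200000000))) (.split (nat_lit 9) (nat_lit 0) (.split (nat_lit 9) (nat_lit 1) (.split (nat_lit 9) (nat_lit 2) (.split (nat_lit 9) (nat_lit 3) (.split (nat_lit 9) (nat_lit 6) (.split (nat_lit 9) (nat_lit 7) (.split (nat_lit 9) (nat_lit 8) (.split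 (nat_lit 9) (nat_lit 4) (.unj (nat_lit 0x55) (nat_lit 0x1000200020001) (nat_lit 0x41500) (nat_lit 0x1000000000001000200020000000000000000)) (.unj (nat_lit 0x40500) (nat_lit 0x1000000000000000100010000000000000000) (nat_lit 0x55) (nat_lit 0x1000200020001))) (.non (nat_lit 1) (nat_lit 4) (nat_lit 0x55400) (nat_lit 0x1000100010001000100000000000000000000))) (.non (nat_lit 1) (nat_lit 4) (nat_lit 0x45400) (nat_lit 0x1000000010001000100000000000000000000))) (.non (nat_lit 1) (nat_lit 4) (nat_lit 0x41400) (nat_lit 0x1000000000001000100000000000000000000))) (.non (nat_lit 1) (nat_lit 4) (nat_lit 0x55440) (nat_lit 0x1000100010001000100000001000000000000))) (.star (nat_lit 9) (nat_lit 2) (nat_lit 5))) (.star (nat_lit 9) (nat_lit 1) (nat_lit 5))) (.non (nat_lit 1) (nat_lit 4) (nat_lit 0x55401) (nat_lit 0x1000100010001000100000000000000000001))))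

noncomputable def t757_211 : Tr := (.split (nat_lit 8) (nat_lit 3) (.split (nat_lit 6) (nat_lit 3) (.sup (nat_lit 0x5000a00090002) (nat_lit 0x100040007000a00080000000000000000)) (.st (nat_lit 0) (nat_lit 2) (nat_lit 4) (nat_lit 0x15445) (nat_lit 0x200020002000100000001000000010002) (nat_lit 1) (nat_lit 1) (.st (nat_lit 2) (nat_lit 1) (nat_lit 4) (nat_lit 0x15451) (nat_lit 0x200030004000200000003000200000001) (nat_lit 1) (nat_lit 1) (.st (nat_lit 3) (nat_lit 1) (nat_lit 4) (nat_lit 0x5450) (nat_lit 0x10002000100000002000100000000) (nat_lit 1) (nat_lit 1) (.st (nat_lit 5) (nat_lit 1) (nat_lit 4) (nat_lit 0x15450) (nat_lit 0x100020003000200000002000100000000) (nat_lit 1) (nat_lit 1) (.st (nat_lit 6) (nat_lit 1) (nat_lit 4) (nat_lit 0x5440) (nat_lit 0x10002000100000001000000000000) (nat_lit 1) (nat_lit 1) (.st (nat_lit 7) (nat_lit 1) (nat_lit 4) (nat_lit 0x15440) (nat_lit 0x100020002000100000001000000000000) (nat_lit 1) (nat_lit 1) (.st (nat_lit 8) (nat_lit 1) (nat_lit 4) (nat_lit 0x15441) (nat_lit 0x200020002000100000001000000000001)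 (nat_lit 1) (nat_lit 1) (.ex (nat_lit 1) t757_209 (.split (nat_lit 9) (nat_lit 0) (.split (nat_lit 9) (nat_lit 2) (.split (nat_lit 9) (nat_lit 3) (.split (nat_lit 9) (nat_lit 4) (.split (nat_lit 9) (nat_lit 5) (.split (nat_lit 9) (nat_lit 6) (.split (nat_lit 9) (nat_lit 7) (.split (nat_lit 9) (nat_lit 8) (.sup (nat_lit 0x3000000000000000000000000000300050003) (nat_lit 0x20003000500040001000000000000)) (.non (nat_lit 1) (nat_lit 4) (nat_lit 0x55441) (nat_lit 0x1000200020002000100000001000000000001))) (.non (nat_lit 1) (nat_lit 4) (nat_lit 0x55440) (nat_lit 0x1000100020002000100000001000000000000))) (.non (nat_lit 1) (nat_lit 4) (nat_lit 0x45440) (nat_lit 0x1000000010002000100000001000000000000))) (.star (nat_lit 9) (nat_lit 1) (nat_lit 5))) (.star (nat_lit 9) (nat_lit 1) (nat_lit 4))) (.non (nat_lit 1) (nat_lit 4) (nat_lit 0x45450) (nat_lit 0x1000000010002000100000002000100000000))) (.non (nat_lit 1) (nat_lit 4) (nat_lit 0x55451) (nat_lit 0x1000200030004000200000003000200000001))) (.non (nat_lit 2) (nat_lit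 4) (nat_lit 0x40005) (nat_lit 0x1000000000000000000000000000000010001)))))))))))) (.split (nat_lit 6) (nat_lit 3) (.st (nat_lit 0) (nat_lit 1) (nat_lit 4) (nat_lit 0x15051) (nat_lit 0x300020001000000000002000100000002) (nat_lit 1) (nat_lit 1) (.st (nat_lit 1) (nat_lit 2) (nat_lit 4) (nat_lit 0x15445) (nat_lit 0x400030002000100000002000000020003) (nat_lit 1) (nat_lit 1) (.st (nat_lit 2) (nat_lit 1) (nat_lit 4) (nat_lit 0x15451) (nat_lit 0x400030002000100000003000200000002) (nat_lit 1) (nat_lit 1) (.st (nat_lit 3) (nat_lit 1) (nat_lit 4) (nat_lit 0x14051) (nat_lit 0x200010000000000000002000100000001) (nat_lit 1) (nat_lit 1) (.st (nat_lit 6) (nat_lit 1) (nat_lit 4) (nat_lit 0x15441) (nat_lit 0x200020002000100000001000000000001) (nat_lit 1) (nat_lit 1) (.st (nat_lit 7) (nat_lit 1) (nat_lit 4) (nat_lit 0x15041) (nat_lit 0x200020001000000000001000000000001) (nat_lit 1) (nat_lit 1) (.st (nat_lit 8) (nat_lit 1) (nat_lit 4) (nat_lit 0x14041) (nat_lit 0x200010000000000000001000000000001) (nat_lit 1) (nat_lit 1) (.ex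 (nat_lit 4) t757_210 (.split (nat_lit 9) (nat_lit 0) (.split (nat_lit 9) (nat_lit 1) (.split (nat_lit 9) (nat_lit 2) (.split (nat_lit 9) (nat_lit 3) (.split (nat_lit 9) (nat_lit 6) (.split (nat_lit 9) (nat_lit 7) (.split (nat_lit 9) (nat_lit 8) (.split (nat_lit 9) (nat_lit 5) (.unj (nat_lit 0x55) (nat_lit 0x1000200020001) (nat_lit 0x41500) (nat_lit 0x1000000000001000200020000000000000000)) (.unj (nat_lit 0x40500) (nat_lit 0x1000000000000000100010000000000000000) (nat_lit 0x55) (nat_lit 0x1000200020001))) (.non (nat_lit 1) (nat_lit 4) (nat_lit 0x54041) (nat_lit 0x1000200010000000000000001000000000001))) (.non (nat_lit 1) (nat_lit 4) (nat_lit 0x55041) (nat_lit 0x1000200020001000000000001000000000001))) (.non (nat_lit 1) (nat_lit 4) (nat_lit 0x55441) (nat_lit 0x1000200020002000100000001000000000001))) (.non (nat_lit 1) (nat_lit 4) (nat_lit 0x54051) (nat_lit 0x1000200010000000000000002000100000001))) (.star (nat_lit 9) (nat_lit 2) (nat_lit 4))) (.star (nat_lit 9) (nat_lit 1) (nat_lit 4))) (.non (nat_lit 1) (nat_lit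 4) (nat_lit 0x55051) (nat_lit 0x1000300020001000000000002000100000002))))))))))) (.non (nat_lit 1) (nat_lit 4) (nat_lit 0x15040) (nat_lit 0x100010001000000000001000000000000))))

noncomputable def t757_212 : Tr := (.ex (nat_lit 5) (.split (nat_lit 8) (nat_lit 0) (.split (nat_lit 8) (nat_lit 2) (.split (nat_lit 8) (nat_lit 7) (.pd (.cons (nat_lit 0) (nat_lit 8) (nat_lit 0) (nat_lit 0x65442110) (nat_lit 0xf423fb71aea2c2804737f423fb71ae1f15600000) (.cons (nat_lit 1) (nat_lit 6) (nat_lit 0) (nat_lit 0x80442800) (nat_lit 0x65b97f423f00000f423f54591f423fb71ae0000061a79) (.cons (nat_lit 1) (nat_lit 7) (nat_lit 0) (nat_lit 0x5442800) (nat_lit 0xa2c2800000f423fb71ae1f156f423fb71ae0000098965) (.cons (nat_lit 1) (nat_lit 8) (nat_lit 0) (nat_lit 0x65442200) (nat_lit 0xf423fb71aea2c2804737f423fb71ae00000f423f) (.cons (nat_lit 2) (nat_lit 6) (nat_lit 0) (nat_lit 0x80443000) (nat_lit 0xb71aef423f00000f423f54591f423f00000f423f65b97) (.cons (nat_lit 2) (nat_lit 7) (nat_lit 0) (nat_lit 0x5443000) (nat_lit 0xf423f00000f423fb71ae1f156f423f00000f423f7a11d)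 (.cons (nat_lit 2) (nat_lit 8) (nat_lit 0) (nat_lit 0x65443000) (nat_lit 0xf423fb71aea2c2804737f423f00000f423fb71ae) (.cons (nat_lit 3) (nat_lit 8) (nat_lit 0) (nat_lit 0x65440100) (nat_lit 0xf423fb71aea2c280473700000f423f54591437a2) .nil)))))))) (.leaf (.cons (nat_lit 0x15014) (nat_lit 0x300020001000000000000000400030000) (.cons (nat_lit 0x10054) (nat_lit 0x100000000000000000001000200020000) (.cons (nat_lit 0x10015) (nat_lit 0x100000000000000000000000100010001) .nil))) .nil)) (.non (nat_lit 1) (nat_lit 4) (nat_lit 0x1a810) (nat_lit 0x400030002000100000000000200000000))) (.non (nat_lit 1) (nat_lit 4) (nat_lit 0x2a050) (nat_lit 0x300020001000000000002000400000000))) (.non (nat_lit 1) (nat_lit 4) (nat_lit 0x28021) (nat_lit 0x200010000000000000000000100000002))) (.split (nat_lit 9) (nat_lit 0) (.split (nat_lit 9) (nat_lit 1) (.split (nat_lit 9) (nat_lit 2) (.split (nat_lit 9) (nat_lit 3) (.split (nat_lit 9) (nat_lit 6) (.split (nat_lit 9) (nat_lit 7) (.split (nat_lit 9) (nat_lit 8) (.split (nat_lit 9) (nat_lit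 4) (.unj (nat_lit 0x55) (nat_lit 0x1000200020001) (nat_lit 0x41500) (nat_lit 0x1000000000001000200020000000000000000)) (.unj (nat_lit 0x40500) (nat_lit 0x1000000000000000100010000000000000000) (nat_lit 0x55) (nat_lit 0x1000200020001))) (.non (nat_lit 1) (nat_lit 4) (nat_lit 0x55400) (nat_lit 0x1000100010001000100000000000000000000))) (.non (nat_lit 1) (nat_lit 4) (nat_lit 0x45400) (nat_lit 0x1000000010001000100000000000000000000))) (.non (nat_lit 1) (nat_lit 4) (nat_lit 0x41400) (nat_lit 0x1000000000001000100000000000000000000))) (.non (nat_lit 1) (nat_lit 4) (nat_lit 0x55450) (nat_lit 0x1000100010001000100000001000100000000))) (.star (nat_lit 9) (nat_lit 2) (nat_lit 5))) (.star (nat_lit 9) (nat_lit 1) (nat_lit 5))) (.non (nat_lit 1) (nat_lit 4) (nat_lit 0x55401) (nat_lit 0x1000100010001000100000000000000000001))))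

noncomputable def t757_213 : Tr := (.ex (nat_lit 1) (.ex (nat_lit 4) t757_212 (.split (nat_lit 9) (nat_lit 0) (.split (nat_lit 9) (nat_lit 1) (.split (nat_lit 9) (nat_lit 2) (.split (nat_lit 9) (nat_lit 3) (.split (nat_lit 9) (nat_lit 6) (.split (nat_lit 9) (nat_lit 7) (.split (nat_lit 9) (nat_lit 8) (.split (nat_lit 9) (nat_lit 5) (.unj (nat_lit 0x55) (nat_lit 0x1000200020001) (nat_lit 0x41500) (nat_lit 0x1000000000001000200020000000000000000)) (.unj (nat_lit 0x40500) (nat_lit 0x1000000000000000100010000000000000000) (nat_lit 0x55) (nat_lit 0x1000200020001))) (.non (nat_lit 1) (nat_lit 4) (nat_lit 0x54011) (nat_lit 0x1000200010000000000000000000100000001))) (.non (nat_lit 1) (nat_lit 4) (nat_lit 0x55011) (nat_lit 0x1000200020001000000000000000100000001))) (.non (nat_lit 1) (nat_lit 4) (nat_lit 0x55411) (nat_lit 0x1000200020002000100000000000100000001))) (.non (nat_lit 1) (nat_lit 4) (nat_lit 0x55451) (nat_lit 0x1000400030002000100000002000300000002))) (.star (nat_lit 9) (nat_lit 2) (nat_lit 4))) (.star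 (nat_lit 9) (nat_lit 1) (nat_lit 4))) (.non (nat_lit 1) (nat_lit 4) (nat_lit 0x55051) (nat_lit 0x1000300020001000000000001000200000002)))) (.split (nat_lit 9) (nat_lit 0) (.split (nat_lit 9) (nat_lit 2) (.split (nat_lit 9) (nat_lit 3) (.split (nat_lit 9) (nat_lit 4) (.split (nat_lit 9) (nat_lit 5) (.split (nat_lit 9) (nat_lit 6) (.split (nat_lit 9) (nat_lit 7) (.split (nat_lit 9) (nat_lit 8) (.split (nat_lit 9) (nat_lit 1) (.split (nat_lit 8) (nat_lit 0) (.split (nat_lit 8) (nat_lit 2) (.sup (nat_lit 0x10006000b0010000d0000000000000000) (nat_lit 0x2000000000000000000000001000200030001)) (.non (nat_lit 1) (nat_lit 4) (nat_lit 0x2a050) (nat_lit 0x300020001000000000002000400000000))) (.non (nat_lit 1) (nat_lit 4) (nat_lit 0x28021) (nat_lit 0x200010000000000000000000100000002))) (.split (nat_lit 9) (nat_lit 1) (.split (nat_lit 8) (nat_lit 0) (.split (nat_lit 8) (nat_lit 2) (.sup (nat_lit 0x70000000000000000000000000006000a0000) (nat_lit 0x100040007000a00080000000000000000)) (.non (nat_lit 1) (nat_lit 4) (nat_lit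 0x2a050) (nat_lit 0x300020001000000000002000400000000))) (.non (nat_lit 1) (nat_lit 4) (nat_lit 0x28021) (nat_lit 0x200010000000000000000000100000002))) (.non (nat_lit 2) (nat_lit 4) (nat_lit 0x54005) (nat_lit 0x3000200010000000000000000000000040003)))) (.non (nat_lit 1) (nat_lit 4) (nat_lit 0x54011) (nat_lit 0x1000200010000000000000000000100000001))) (.non (nat_lit 1) (nat_lit 4) (nat_lit 0x55011) (nat_lit 0x1000200020001000000000000000100000001))) (.non (nat_lit 1) (nat_lit 4) (nat_lit 0x55411) (nat_lit 0x1000200020002000100000000000100000001))) (.star (nat_lit 9) (nat_lit 1) (nat_lit 5))) (.star (nat_lit 9) (nat_lit 1) (nat_lit 4))) (.non (nat_lit 1) (nat_lit 4) (nat_lit 0x55451) (nat_lit 0x1000400030002000100000002000300000002))) (.non (nat_lit 1) (nat_lit 4) (nat_lit 0x54051) (nat_lit 0x1000200010000000000000001000200000001))) (.non (nat_lit 1) (nat_lit 4) (nat_lit 0x55051) (nat_lit 0x1000300020001000000000001000200000002))))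

noncomputable def t757 : Tr := (.split (nat_lit 8) (nat_lit 0) (.split (nat_lit 8) (nat_lit 1) (.split (nat_lit 8) (nat_lit 2) (.split (nat_lit 8) (nat_lit 3) t757_125 (.split (nat_lit 7) (nat_lit 0) t757_127 (.non (nat_lit 2) (nat_lit 4) (nat_lit 0x15445) (nat_lit 0x200030002000100000001000000010002)))) (.split (nat_lit 8) (nat_lit 3) (.split (nat_lit 7) (nat_lit 2) (.split (nat_lit 7) (nat_lit 3) (.split (nat_lit 6) (nat_lit 3) t757_141 (.non (nat_lit 1) (nat_lit 4) (nat_lit 0x15050) (nat_lit 0x100010001000000000001000100000000))) (.non (nat_lit 1) (nat_lit 4) (nat_lit 0x14050) (nat_lit 0x100010000000000000001000100000000))) (.non (nat_lit 1) (nat_lit 4) (nat_lit 0x14010) (nat_lit 0x100010000000000000000000100000000))) (.non (nat_lit 1) (nat_lit 4) (nat_lit 0x10050) (nat_lit 0x100000000000000000001000100000000)))) (.split (nat_lit 7) (nat_lit 0) (.split (nat_lit 7) (nat_lit 1) (.split (nat_lit 6) (nat_lit 0) t757_208 (.non (nat_lit 2) (nat_lit 4) (nat_lit 0x15005) (nat_lit 0x100010001000000000000000000010001)))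 (.non (nat_lit 2) (nat_lit 4) (nat_lit 0x14004) (nat_lit 0x100010000000000000000000000010000))) (.non (nat_lit 2) (nat_lit 4) (nat_lit 0x14005) (nat_lit 0x100010000000000000000000000010001)))) (.split (nat_lit 8) (nat_lit 1) (.split (nat_lit 7) (nat_lit 0) (.split (nat_lit 7) (nat_lit 1) (.split (nat_lit 7) (nat_lit 2) (.split (nat_lit 7) (nat_lit 3) (.split (nat_lit 6) (nat_lit 0) (.split (nat_lit 8) (nat_lit 2) t757_211 (.split (nat_lit 8) (nat_lit 3) (.split (nat_lit 6) (nat_lit 3) (.st (nat_lit 0) (nat_lit 1) (nat_lit 4) (nat_lit 0x15051) (nat_lit 0x300020001000000000001000200000002) (nat_lit 1) (nat_lit 1) (.st (nat_lit 2) (nat_lit 1) (nat_lit 4) (nat_lit 0x14051) (nat_lit 0x200010000000000000001000200000001) (nat_lit 1) (nat_lit 1) (.st (nat_lit 3) (nat_lit 1) (nat_lit 4) (nat_lit 0x15451) (nat_lit 0x400030002000100000002000300000002) (nat_lit 1) (nat_lit 1) (.st (nat_lit 6) (nat_lit 1) (nat_lit 4) (nat_lit 0x15411) (nat_lit 0x200020002000100000000000100000001) (nat_lit 1) (nat_lit 1) (.st (nat_lit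 7) (nat_lit 1) (nat_lit 4) (nat_lit 0x15011) (nat_lit 0x200020001000000000000000100000001) (nat_lit 1) (nat_lit 1) t757_213))))) (.non (nat_lit 1) (nat_lit 4) (nat_lit 0x15050) (nat_lit 0x100010001000000000001000100000000))) (.non (nat_lit 1) (nat_lit 4) (nat_lit 0x10050) (nat_lit 0x100000000000000000001000100000000)))) (.non (nat_lit 1) (nat_lit 4) (nat_lit 0x15001) (nat_lit 0x100010001000000000000000000000001))) (.non (nat_lit 1) (nat_lit 4) (nat_lit 0x15451) (nat_lit 0x200030002000100000002000100000001))) (.non (nat_lit 1) (nat_lit 4) (nat_lit 0x15451) (nat_lit 0x200030002000100000001000200000001))) (.non (nat_lit 2) (nat_lit 4) (nat_lit 0x14005) (nat_lit 0x100010000000000000000000000010001))) (.non (nat_lit 1) (nat_lit 4) (nat_lit 0x14001) (nat_lit 0x100010000000000000000000000000001))) (.non (nat_lit 2) (nat_lit 4) (nat_lit 0x10005) (nat_lit 0x100000000000000000000000000010001))))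

noncomputable def D8 : RL := (.cons (nat_lit 0x222222222222222222222222222222222222222222222222222222222222222222222222222222222222222222222222222222222222222222222222b222aaaa2222222b2322aaaa222222223232a22a222222222325222222222222225222222222222aaa2223222222222aa22232522222222aa22225232222222aaa222232) t757 .nil)

theorem cov_D8 : Cov 757 758 := by
  have h1 : rl D8 (nat_lit 757) = true := by decide +kernel
  have h2 : 757 + rlen D8 = 758 := by decide +kernel
  exact cov_of h1 h2

end MP86a502
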