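import Pool.Agent.Lib.MP_86a502_gt.U.Rlc
import Pool.Agent.Lib.MP_86a502_gt.U.D08

set_option autoImplicit false
set_option maxRecDepth 1000000
set_option linter.all false

/-! Certificates, numbers 196 to 345. -/

namespace MP86a502

noncomputable def t196_1 : Tr := (.pd (.cons (nat_lit 0) (nat_lit 7) (nat_lit 0x110) (nat_lit 0x5433120) (nat_lit 0xf423fb71aea2c2804737000010000100000) .nil) (.ex (nat_lit 7) (.pd (.cons (nat_lit 0) (nat_lit 4) (nat_lit 0x110) (nat_lit 0x55503120) (nat_lit 0xf423ff423f7a11d00000f423f000010000100000) (.cons (nat_lit 0) (nat_lit 6) (nat_lit 0x110) (nat_lit 0x50433120) (nat_lit 0xf423f00000b71aea2c2804737000010000100000) (.cons (nat_lit 1) (nat_lit 4) (nat_lit 0) (nat_lit 0x55503200) (nat_lit 0xf423ff423f7a11d00000f423ff423f00000f423f) (.cons (nat_lit 2) (nat_lit 4) (nat_lit 0) (nat_lit 0x55503000) (nat_lit 0xf423ff423f7a11d00000f423f00000f423fb71ae) .nil)))) (.leaf (.cons (nat_lit 0x541) (nat_lit 0x100020002000000000001) .nil) .nil)) (.split (nat_lit 8) (nat_lit 0) (.split (nat_lit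 8) (nat_lit 1) (.split (nat_lit 8) (nat_lit 2) (.split (nat_lit 8) (nat_lit 3) (.split (nat_lit 8) (nat_lit 4) (.split (nat_lit 8) (nat_lit 5) (.split (nat_lit 8) (nat_lit 6) (.st (nat_lit 7) (nat_lit 1) (nat_lit 3) (nat_lit 0x15500) (nat_lit 0x100020001000200010000000000000000) (nat_lit 1) (nat_lit 1) (.st (nat_lit 8) (nat_lit 2) (nat_lit 3) (nat_lit 0x15505) (nat_lit 0x200030002000400030000000000010002) (nat_lit 1) (nat_lit 1) (.split (nat_lit 8) (nat_lit 7) (.pd (.cons (nat_lit 0) (nat_lit 4) (nat_lit 0x110) (nat_lit 0x755503120) (nat_lit 0xf423fb71aef423f65b9700000f423f000010000100000) (.cons (nat_lit 1) (nat_lit 4) (nat_lit 0) (nat_lit 0x755503200) (nat_lit 0xf423fb71aef423f65b9700000f423ff423f00000f423f) (.cons (nat_lit 2) (nat_lit 4) (nat_lit 0) (nat_lit 0x755503000) (nat_lit 0xf423fb71aef423f65b9700000f423f00000f423fb71ae) .nil))) (.leaf (.cons (nat_lit 0x14540) (nat_lit 0x100020000000300040003000000000000) (.cons (nat_lit 0x541) (nat_lit 0x100020002000000000001) .nil)) .nil)) (.non (nat_lit 1) (nat_lit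 3) (nat_lit 0x25500) (nat_lit 0x100020001000200010000000000000000))))) (.non (nat_lit 1) (nat_lit 3) (nat_lit 0x15400) (nat_lit 0x100010001000100000000000000000000))) (.non (nat_lit 1) (nat_lit 3) (nat_lit 0x14400) (nat_lit 0x100010000000100000000000000000000))) (.non (nat_lit 1) (nat_lit 3) (nat_lit 0x14500) (nat_lit 0x100010000000100010000000000000000))) (.non (nat_lit 1) (nat_lit 5) (nat_lit 0x10141) (nat_lit 0x100000000000000020002000000000001))) (.non (nat_lit 0) (nat_lit 3) (nat_lit 0x10014) (nat_lit 0x100000000000000000000000200020000))) (.non (nat_lit 2) (nat_lit 3) (nat_lit 0x14505) (nat_lit 0x100010000000100010000000000010001))) (.non (nat_lit 1) (nat_lit 3) (nat_lit 0x14501) (nat_lit 0x100010000000100010000000000000001)))))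

noncomputable def t196_2 : Tr := (.ex (nat_lit 2) (.pd (.cons (nat_lit 0) (nat_lit 3) (nat_lit 0x110) (nat_lit 0x55440120) (nat_lit 0xf423ff423f7a11d7a11b00000000010000100000) (.cons (nat_lit 0) (nat_lit 5) (nat_lit 0x110) (nat_lit 0x76033120) (nat_lit 0xf423ff423f00000f423f54591000010000100000) .nil)) (.ex (nat_lit 6) t196_1 (.split (nat_lit 8) (nat_lit 0) (.split (nat_lit 8) (nat_lit 1) (.split (nat_lit 8) (nat_lit 2) (.split (nat_lit 8) (nat_lit 3) (.split (nat_lit 8) (nat_lit 4) (.split (nat_lit 8) (nat_lit 5) (.split (nat_lit 8) (nat_lit 7) (.st (nat_lit 6) (nat_lit 1) (nat_lit 3) (nat_lit 0x15500) (nat_lit 0x100010002000200010000000000000000) (nat_lit 1) (nat_lit 1) (.st (nat_lit 7) (nat_lit 1) (nat_lit 3) (nat_lit 0x15501) (nat_lit 0x100020002000300020000000000000001) (nat_lit 1) (nat_lit 1) (.pd (.cons (nat_lit 0) (nat_lit 6) (nat_lit 0x110) (nat_lit 0x850433120) (nat_lit 0xf423ff423f00000b71aea2c2804737000010000100000) .nil) (.st (nat_lit 8) (nat_lit 2) (nat_lit 3) (nat_lit 0x15505) (nat_lit 0x200020003000400030000000000010002)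 (nat_lit 1) (nat_lit 1) (.split (nat_lit 8) (nat_lit 6) (.pd (.cons (nat_lit 0) (nat_lit 4) (nat_lit 0x110) (nat_lit 0x655503120) (nat_lit 0xf423ff423fb71ae65b9700000f423f000010000100000) (.cons (nat_lit 1) (nat_lit 4) (nat_lit 0) (nat_lit 0x655503200) (nat_lit 0xf423ff423fb71ae65b9700000f423ff423f00000f423f) (.cons (nat_lit 2) (nat_lit 4) (nat_lit 0) (nat_lit 0x655503000) (nat_lit 0xf423ff423fb71ae65b9700000f423f00000f423fb71ae) .nil))) (.leaf (.cons (nat_lit 0x11540) (nat_lit 0x100000002000300040003000000000000) (.cons (nat_lit 0x541) (nat_lit 0x100020002000000000001) .nil)) .nil)) (.non (nat_lit 1) (nat_lit 3) (nat_lit 0x25500) (nat_lit 0x100010002000200010000000000000000))))))) (.non (nat_lit 1) (nat_lit 3) (nat_lit 0x15400) (nat_lit 0x100010001000100000000000000000000))) (.non (nat_lit 1) (nat_lit 3) (nat_lit 0x11400) (nat_lit 0x100000001000100000000000000000000))) (.non (nat_lit 1) (nat_lit 3) (nat_lit 0x11500) (nat_lit 0x100000001000100010000000000000000))) (.non (nat_lit 1) (nat_lit 5) (nat_lit 0x10141)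 (nat_lit 0x100000000000000020002000000000001))) (.non (nat_lit 0) (nat_lit 3) (nat_lit 0x10014) (nat_lit 0x100000000000000000000000200020000))) (.non (nat_lit 2) (nat_lit 3) (nat_lit 0x11505) (nat_lit 0x100000001000100010000000000010001))) (.non (nat_lit 1) (nat_lit 3) (nat_lit 0x11501) (nat_lit 0x100000001000100010000000000000001))))) (.split (nat_lit 8) (nat_lit 0) (.split (nat_lit 8) (nat_lit 1) (.split (nat_lit 8) (nat_lit 3) (.split (nat_lit 8) (nat_lit 4) (.split (nat_lit 8) (nat_lit 5) (.split (nat_lit 8) (nat_lit 6) (.split (nat_lit 8) (nat_lit 7) (.unj (nat_lit 0x10014) (nat_lit 0x100000000000000000000000200020000) (nat_lit 0x5540) (nat_lit 0x10001000200020002000000000000)) (.sup (nat_lit 0x400000000000000000000000a00090000) (nat_lit 0x100030007000a0008000000000000))) (.split (nat_lit 8) (nat_lit 7) (.sup (nat_lit 0x400000000000000000000000a00090000) (nat_lit 0x300010007000a0008000000000000)) (.non (nat_lit 1) (nat_lit 3) (nat_lit 0x15400) (nat_lit 0x100010001000100000000000000000000)))) (.star (nat_lit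 8) (nat_lit 2) (nat_lit 5))) (.non (nat_lit 1) (nat_lit 3) (nat_lit 0x15501) (nat_lit 0x100010001000200020000000000000001))) (.star (nat_lit 8) (nat_lit 2) (nat_lit 3))) (.non (nat_lit 2) (nat_lit 5) (nat_lit 0x10145) (nat_lit 0x100000000000000040003000000020003))) (.non (nat_lit 1) (nat_lit 5) (nat_lit 0x10151) (nat_lit 0x200000000000000040003000100000003))))

noncomputable def t196 : Tr := (.split (nat_lit 7) (nat_lit 0) (.split (nat_lit 6) (nat_lit 0) (.split (nat_lit 4) (nat_lit 0) .uj (.st (nat_lit 1) (nat_lit 2) (nat_lit 5) (nat_lit 0x145) (nat_lit 0x40003000000020003) (nat_lit 1) (nat_lit 1) (.st (nat_lit 3) (nat_lit 1) (nat_lit 5) (nat_lit 0x141) (nat_lit 0x20002000000000001) (nat_lit 1) (nat_lit 1) (.st (nat_lit 4) (nat_lit 1) (nat_lit 3) (nat_lit 0x5501) (nat_lit 0x10001000200020000000000000001) (nat_lit 1) (nat_lit 1) t196_2)))) (.split (nat_lit 4) (nat_lit 0) (.sup (nat_lit 0x9000a0004) (nat_lit 0x300010007000a0008000000000000)) (.non (nat_lit 1) (nat_lit 3) (nat_lit 0x1501) (nat_lit 0x1000100010000000000000001))))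 (.split (nat_lit 6) (nat_lit 0) (.split (nat_lit 4) (nat_lit 0) (.sup (nat_lit 0x9000a0004) (nat_lit 0x100030007000a0008000000000000)) (.non (nat_lit 1) (nat_lit 3) (nat_lit 0x4501) (nat_lit 0x10000000100010000000000000001))) (.non (nat_lit 1) (nat_lit 3) (nat_lit 0x5401) (nat_lit 0x10001000100000000000000000001))))

noncomputable def t198_1 : Tr := (.ex (nat_lit 7) (.ex (nat_lit 8) (.split (nat_lit 8) (nat_lit 7) (.pd (.cons (nat_lit 0) (nat_lit 3) (nat_lit 0x110) (nat_lit 0x755440120) (nat_lit 0xf423fb71aef423f65b9761a7900000000010000100000) (.cons (nat_lit 1) (nat_lit 3) (nat_lit 0) (nat_lit 0x755440200) (nat_lit 0xf423fb71aef423f65b9761a7900000f423f00000f423f) (.cons (nat_lit 2) (nat_lit 3) (nat_lit 0) (nat_lit 0x755440000) (nat_lit 0xf423fb71aef423f65b9761a790000000000f423fb71ae) .nil))) (.split (nat_lit 3) (nat_lit 0) (.leaf (.cons (nat_lit 0x14540) (nat_lit 0x100020000000300040003000000000000) (.cons (nat_lit 0x541) (nat_lit 0x100020002000000000001) .nil)) (.cons (nat_lit 0x1001) (nat_lit 0x10010) (nat_lit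 0) (nat_lit 0x1000) .nil)) (.non (nat_lit 1) (nat_lit 5) (nat_lit 0x141) (nat_lit 0x10001000000000001)))) (.unj (nat_lit 0x15) (nat_lit 0x200020001) (nat_lit 0x25500) (nat_lit 0x100020001000200010000000000000000))) (.split (nat_lit 9) (nat_lit 0) (.split (nat_lit 9) (nat_lit 1) (.split (nat_lit 9) (nat_lit 2) (.split (nat_lit 9) (nat_lit 3) (.split (nat_lit 9) (nat_lit 4) (.split (nat_lit 9) (nat_lit 5) (.split (nat_lit 9) (nat_lit 6) (.split (nat_lit 9) (nat_lit 7) (.split (nat_lit 9) (nat_lit 8) (.split (nat_lit 8) (nat_lit 7) (.split (nat_lit 3) (nat_lit 0) (.sup (nat_lit 0x3000500080005000b00080004000000000000) (nat_lit 0xe00100006)) (.non (nat_lit 1) (nat_lit 5) (nat_lit 0x141) (nat_lit 0x10001000000000001))) (.non (nat_lit 1) (nat_lit 4) (nat_lit 0xa5400) (nat_lit 0x1000200030001000200000000000000000000))) (.sup (nat_lit 0x60009000a0005000a00060002000000000000) (nat_lit 0xe00100007))) (.non (nat_lit 1) (nat_lit 4) (nat_lit 0x54000) (nat_lit 0x1000100010000000000000000000000000000))) (.non (nat_lit 1) (nat_lit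 4) (nat_lit 0x55400) (nat_lit 0x1000100010001000100000000000000000000))) (.non (nat_lit 1) (nat_lit 4) (nat_lit 0x54400) (nat_lit 0x1000100010000000100000000000000000000))) (.non (nat_lit 1) (nat_lit 5) (nat_lit 0x54140) (nat_lit 0x3000200010000000000040003000000000000))) (.non (nat_lit 1) (nat_lit 5) (nat_lit 0x54140) (nat_lit 0x3000200010000000000030004000000000000))) (.non (nat_lit 0) (nat_lit 4) (nat_lit 0x40014) (nat_lit 0x1000000000000000000000000000200020000))) (.non (nat_lit 2) (nat_lit 5) (nat_lit 0x40145) (nat_lit 0x1000000000000000000030004000000020003))) (.non (nat_lit 1) (nat_lit 5) (nat_lit 0x50141) (nat_lit 0x2000100000000000000030004000000000003)))) (.split (nat_lit 9) (nat_lit 0) (.split (nat_lit 9) (nat_lit 1) (.split (nat_lit 9) (nat_lit 2) (.split (nat_lit 9) (nat_lit 3) (.split (nat_lit 9) (nat_lit 4) (.split (nat_lit 9) (nat_lit 5) (.split (nat_lit 9) (nat_lit 6) (.split (nat_lit 9) (nat_lit 8) (.sup (nat_lit 0x50005000a0005000a00060001000000000000) (nat_lit 0xe00100007)) (.non (nat_lit 1)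 (nat_lit 4) (nat_lit 0x54000) (nat_lit 0x1000100010000000000000000000000000000))) (.non (nat_lit 1) (nat_lit 4) (nat_lit 0x45400) (nat_lit 0x1000000010001000100000000000000000000))) (.non (nat_lit 1) (nat_lit 4) (nat_lit 0x44400) (nat_lit 0x1000000010000000100000000000000000000))) (.non (nat_lit 1) (nat_lit 5) (nat_lit 0x54140) (nat_lit 0x3000100020000000000040003000000000000))) (.non (nat_lit 1) (nat_lit 5) (nat_lit 0x54140) (nat_lit 0x3000100020000000000030004000000000000))) (.non (nat_lit 0) (nat_lit 4) (nat_lit 0x40014) (nat_lit 0x1000000000000000000000000000200020000))) (.non (nat_lit 2) (nat_lit 5) (nat_lit 0x40145) (nat_lit 0x1000000000000000000030004000000020003))) (.non (nat_lit 1) (nat_lit 5) (nat_lit 0x44141) (nat_lit 0x2000000010000000000030004000000000003))))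

noncomputable def t198_2 : Tr := (.pd (.cons (nat_lit 0) (nat_lit 6) (nat_lit 0x110) (nat_lit 0x850433120) (nat_lit 0xf423ff423f00000b71aea2c2804737000010000100000) .nil) (.ex (nat_lit 8) (.split (nat_lit 8) (nat_lit 6) (.pd (.cons (nat_lit 0) (nat_lit 3) (nat_lit 0x110) (nat_lit 0x655440120) (nat_lit 0xf423ff423fb71ae65b9761a7900000000010000100000) (.cons (nat_lit 1) (nat_lit 3) (nat_lit 0) (nat_lit 0x655440200) (nat_lit 0xf423ff423fb71ae65b9761a7900000f423f00000f423f) (.cons (nat_lit 2) (nat_lit 3) (nat_lit 0) (nat_lit 0x655440000) (nat_lit 0xf423ff423fb71ae65b9761a790000000000f423fb71ae) .nil))) (.split (nat_lit 3) (nat_lit 0) (.leaf (.cons (nat_lit 0x11540) (nat_lit 0x100000002000300040003000000000000) (.cons (nat_lit 0x541) (nat_lit 0x100020002000000000001) .nil)) (.cons (nat_lit 0x1001) (nat_lit 0x10010) (nat_lit 0) (nat_lit 0x1000) .nil)) (.non (nat_lit 1) (nat_lit 5) (nat_lit 0x141) (nat_lit 0x10001000000000001)))) (.unj (nat_lit 0x15) (nat_lit 0x200020001) (nat_lit 0x25500) (nat_lit 0x100010002000200010000000000000000)))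 (.split (nat_lit 9) (nat_lit 0) (.split (nat_lit 9) (nat_lit 1) (.split (nat_lit 9) (nat_lit 2) (.split (nat_lit 9) (nat_lit 3) (.split (nat_lit 9) (nat_lit 4) (.split (nat_lit 9) (nat_lit 5) (.split (nat_lit 9) (nat_lit 6) (.split (nat_lit 9) (nat_lit 7) (.split (nat_lit 9) (nat_lit 8) (.split (nat_lit 8) (nat_lit 6) (.split (nat_lit 3) (nat_lit 0) (.sup (nat_lit 0x3000500050008000b00080004000000000000) (nat_lit 0xe00100006)) (.non (nat_lit 1) (nat_lit 5) (nat_lit 0x141) (nat_lit 0x10001000000000001))) (.non (nat_lit 1) (nat_lit 4) (nat_lit 0xa5400) (nat_lit 0x1000200010003000200000000000000000000))) (.sup (nat_lit 0x600090005000a000a00060002000000000000) (nat_lit 0xe00100007))) (.non (nat_lit 1) (nat_lit 4) (nat_lit 0x55400) (nat_lit 0x1000100010001000100000000000000000000))) (.non (nat_lit 1) (nat_lit 4) (nat_lit 0x51000) (nat_lit 0x1000100000001000000000000000000000000))) (.non (nat_lit 1) (nat_lit 4) (nat_lit 0x51400) (nat_lit 0x1000100000001000100000000000000000000))) (.non (nat_lit 1) (nat_lit 5) (nat_lit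 0x51140) (nat_lit 0x3000200000001000000040003000000000000))) (.non (nat_lit 1) (nat_lit 5) (nat_lit 0x51140) (nat_lit 0x3000200000001000000030004000000000000))) (.non (nat_lit 0) (nat_lit 4) (nat_lit 0x40014) (nat_lit 0x1000000000000000000000000000200020000))) (.non (nat_lit 2) (nat_lit 5) (nat_lit 0x40145) (nat_lit 0x1000000000000000000030004000000020003))) (.non (nat_lit 1) (nat_lit 5) (nat_lit 0x50141) (nat_lit 0x2000100000000000000030004000000000003)))))

noncomputable def t198_3 : Tr := (.ex (nat_lit 6) (.ex (nat_lit 7) t198_2 (.split (nat_lit 9) (nat_lit 0) (.split (nat_lit 9) (nat_lit 1) (.split (nat_lit 9) (nat_lit 2) (.split (nat_lit 9) (nat_lit 3) (.split (nat_lit 9) (nat_lit 4) (.split (nat_lit 9) (nat_lit 5) (.split (nat_lit 9) (nat_lit 6) (.split (nat_lit 9) (nat_lit 8) (.split (nat_lit 9) (nat_lit 7) (.split (nat_lit 8) (nat_lit 6) (.split (nat_lit 3) (nat_lit 0) (.sup (nat_lit 0x3000300070007000b00080003000000000000) (nat_lit 0xe00100007)) (.non (nat_lit 1) (nat_lit 5) (nat_lit 0x141) (nat_lit 0x10001000000000001)))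 (.unj (nat_lit 0x15) (nat_lit 0x200020001) (nat_lit 0x25500) (nat_lit 0x100010002000200010000000000000000))) (.unj (nat_lit 0x15) (nat_lit 0x200020001) (nat_lit 0x85500) (nat_lit 0x1000000020001000200010000000000000000))) (.non (nat_lit 1) (nat_lit 4) (nat_lit 0x55400) (nat_lit 0x1000100010001000100000000000000000000))) (.non (nat_lit 1) (nat_lit 4) (nat_lit 0x45400) (nat_lit 0x1000000010001000100000000000000000000))) (.non (nat_lit 1) (nat_lit 4) (nat_lit 0x44400) (nat_lit 0x1000000010000000100000000000000000000))) (.non (nat_lit 1) (nat_lit 5) (nat_lit 0x40141) (nat_lit 0x1000000000000000000020002000000000001))) (.non (nat_lit 1) (nat_lit 5) (nat_lit 0x40141) (nat_lit 0x1000000000000000000020002000000000001))) (.non (nat_lit 0) (nat_lit 4) (nat_lit 0x40014) (nat_lit 0x1000000000000000000000000000200020000))) (.non (nat_lit 2) (nat_lit 5) (nat_lit 0x40145) (nat_lit 0x1000000000000000000030004000000020003))) (.non (nat_lit 1) (nat_lit 5) (nat_lit 0x44141) (nat_lit 0x2000000010000000000030004000000000003)))) (.split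 (nat_lit 9) (nat_lit 0) (.split (nat_lit 9) (nat_lit 1) (.split (nat_lit 9) (nat_lit 2) (.split (nat_lit 9) (nat_lit 3) (.split (nat_lit 9) (nat_lit 4) (.split (nat_lit 9) (nat_lit 5) (.split (nat_lit 9) (nat_lit 7) (.split (nat_lit 9) (nat_lit 8) (.sup (nat_lit 0x500050005000a000a00060001000000000000) (nat_lit 0xe00100007)) (.non (nat_lit 1) (nat_lit 4) (nat_lit 0x51000) (nat_lit 0x1000100000001000000000000000000000000))) (.non (nat_lit 1) (nat_lit 4) (nat_lit 0x45400) (nat_lit 0x1000000010001000100000000000000000000))) (.non (nat_lit 1) (nat_lit 4) (nat_lit 0x41400) (nat_lit 0x1000000000001000100000000000000000000))) (.non (nat_lit 1) (nat_lit 5) (nat_lit 0x51140) (nat_lit 0x3000100000002000000040003000000000000))) (.non (nat_lit 1) (nat_lit 5) (nat_lit 0x51140) (nat_lit 0x3000100000002000000030004000000000000))) (.non (nat_lit 0) (nat_lit 4) (nat_lit 0x40014) (nat_lit 0x1000000000000000000000000000200020000))) (.non (nat_lit 2) (nat_lit 5) (nat_lit 0x40145) (nat_lit 0x1000000000000000000030004000000020003)))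 (.non (nat_lit 1) (nat_lit 5) (nat_lit 0x41141) (nat_lit 0x2000000000001000000030004000000000003))))

noncomputable def t198_4 : Tr := (.ex (nat_lit 6) (.pd (.cons (nat_lit 0) (nat_lit 7) (nat_lit 0x110) (nat_lit 0x5433120) (nat_lit 0xf423fb71aea2c2804737000010000100000) .nil) (.ex (nat_lit 7) (.pd (.cons (nat_lit 0) (nat_lit 3) (nat_lit 0x110) (nat_lit 0x55440120) (nat_lit 0xf423ff423f7a11d7a11b00000000010000100000) (.cons (nat_lit 0) (nat_lit 6) (nat_lit 0x110) (nat_lit 0x50433120) (nat_lit 0xf423f00000b71aea2c2804737000010000100000) (.cons (nat_lit 1) (nat_lit 3) (nat_lit 0) (nat_lit 0x55440200) (nat_lit 0xf423ff423f7a11d7a11b00000f423f00000f423f) (.cons (nat_lit 2) (nat_lit 3) (nat_lit 0) (nat_lit 0x55440000) (nat_lit 0xf423ff423f7a11d7a11b0000000000f423fb71ae) .nil)))) (.split (nat_lit 3) (nat_lit 0) (.leaf (.cons (nat_lit 0x541) (nat_lit 0x100020002000000000001) .nil) (.cons (nat_lit 0x1001) (nat_lit 0x10010) (nat_lit 0) (nat_lit 0x1000) .nil)) (.non (nat_lit 1) (nat_lit 5) (nat_lit 0x141) (nat_lit 0x10001000000000001))))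 (.split (nat_lit 8) (nat_lit 0) (.split (nat_lit 8) (nat_lit 1) (.split (nat_lit 8) (nat_lit 2) (.split (nat_lit 8) (nat_lit 3) (.split (nat_lit 8) (nat_lit 4) (.split (nat_lit 8) (nat_lit 5) (.split (nat_lit 8) (nat_lit 6) t198_1 (.non (nat_lit 1) (nat_lit 4) (nat_lit 0x15400) (nat_lit 0x100010001000100000000000000000000))) (.non (nat_lit 1) (nat_lit 4) (nat_lit 0x14400) (nat_lit 0x100010000000100000000000000000000))) (.non (nat_lit 1) (nat_lit 5) (nat_lit 0x10141) (nat_lit 0x100000000000000020002000000000001))) (.non (nat_lit 1) (nat_lit 5) (nat_lit 0x10141) (nat_lit 0x100000000000000020002000000000001))) (.non (nat_lit 0) (nat_lit 4) (nat_lit 0x10014) (nat_lit 0x100000000000000000000000200020000))) (.non (nat_lit 2) (nat_lit 5) (nat_lit 0x10145) (nat_lit 0x100000000000000030004000000020003))) (.non (nat_lit 1) (nat_lit 5) (nat_lit 0x14141) (nat_lit 0x200010000000000030004000000000003))))) (.split (nat_lit 8) (nat_lit 0) (.split (nat_lit 8) (nat_lit 1) (.split (nat_lit 8) (nat_lit 2) (.split (nat_lit 8) (nat_lit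 3) (.split (nat_lit 8) (nat_lit 4) (.split (nat_lit 8) (nat_lit 5) (.split (nat_lit 8) (nat_lit 7) t198_3 (.non (nat_lit 1) (nat_lit 4) (nat_lit 0x15400) (nat_lit 0x100010001000100000000000000000000))) (.non (nat_lit 1) (nat_lit 4) (nat_lit 0x11400) (nat_lit 0x100000001000100000000000000000000))) (.non (nat_lit 1) (nat_lit 5) (nat_lit 0x10141) (nat_lit 0x100000000000000020002000000000001))) (.non (nat_lit 1) (nat_lit 5) (nat_lit 0x10141) (nat_lit 0x100000000000000020002000000000001))) (.non (nat_lit 0) (nat_lit 4) (nat_lit 0x10014) (nat_lit 0x100000000000000000000000200020000))) (.non (nat_lit 2) (nat_lit 5) (nat_lit 0x10145) (nat_lit 0x100000000000000030004000000020003))) (.non (nat_lit 1) (nat_lit 5) (nat_lit 0x11141) (nat_lit 0x200000001000000030004000000000003))))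

noncomputable def t198_5 : Tr := (.st (nat_lit 3) (nat_lit 1) (nat_lit 5) (nat_lit 0x141) (nat_lit 0x20002000000000001) (nat_lit 1) (nat_lit 1) (.st (nat_lit 4) (nat_lit 1) (nat_lit 5) (nat_lit 0x141) (nat_lit 0x20002000000000001) (nat_lit 1) (nat_lit 1) (.st (nat_lit 0) (nat_lit 2) (nat_lit 5) (nat_lit 0x145) (nat_lit 0x20002000000010002) (nat_lit 1) (nat_lit 1) (.ex (nat_lit 2) (.pd (.cons (nat_lit 0) (nat_lit 4) (nat_lit 0x110) (nat_lit 0x55503120) (nat_lit 0xf423ff423f7a11d00000f423f000010000100000) (.cons (nat_lit 0) (nat_lit 5) (nat_lit 0x110) (nat_lit 0x76033120) (nat_lit 0xf423ff423f00000f423f54591000010000100000) .nil)) (.ex (nat_lit 5) t198_4 (.split (nat_lit 8) (nat_lit 0) (.split (nat_lit 8) (nat_lit 1) (.split (nat_lit 8) (nat_lit 2) (.split (nat_lit 8) (nat_lit 3) (.split (nat_lit 8) (nat_lit 4) (.split (nat_lit 8) (nat_lit 6) (.split (nat_lit 8) (nat_lit 7) (.unj (nat_lit 0x15) (nat_lit 0x200020001) (nat_lit 0x15500) (nat_lit 0x100010001000200010000000000000000)) (.non (nat_lit 1) (nat_lit 4) (nat_lit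 0x14400) (nat_lit 0x100010000000100000000000000000000))) (.non (nat_lit 1) (nat_lit 4) (nat_lit 0x11400) (nat_lit 0x100000001000100000000000000000000))) (.non (nat_lit 1) (nat_lit 5) (nat_lit 0x10141) (nat_lit 0x100000000000000020002000000000001))) (.non (nat_lit 1) (nat_lit 5) (nat_lit 0x10141) (nat_lit 0x100000000000000020002000000000001))) (.star (nat_lit 8) (nat_lit 2) (nat_lit 5))) (.star (nat_lit 8) (nat_lit 1) (nat_lit 5))) (.non (nat_lit 2) (nat_lit 4) (nat_lit 0x15445) (nat_lit 0x200010001000200000001000000010002))))) (.split (nat_lit 8) (nat_lit 0) (.split (nat_lit 8) (nat_lit 1) (.split (nat_lit 8) (nat_lit 3) (.split (nat_lit 8) (nat_lit 4) (.split (nat_lit 8) (nat_lit 5) (.split (nat_lit 8) (nat_lit 6) (.split (nat_lit 8) (nat_lit 7) (.unj (nat_lit 0x10014) (nat_lit 0x100000000000000000000000200020000) (nat_lit 0x5540) (nat_lit 0x10001000200020002000000000000)) (.sup (nat_lit 0x400000000000000000000000a00090000) (nat_lit 0x100030007000a0008000000000000))) (.split (nat_lit 8) (nat_lit 7) (.sup (nat_lit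 0x400000000000000000000000a00090000) (nat_lit 0x300010007000a0008000000000000)) (.non (nat_lit 1) (nat_lit 4) (nat_lit 0x15400) (nat_lit 0x100010001000100000000000000000000)))) (.star (nat_lit 8) (nat_lit 2) (nat_lit 5))) (.star (nat_lit 8) (nat_lit 2) (nat_lit 4))) (.non (nat_lit 1) (nat_lit 5) (nat_lit 0x10141) (nat_lit 0x100000000000000020002000000000001))) (.non (nat_lit 2) (nat_lit 5) (nat_lit 0x10145) (nat_lit 0x100000000000000030004000000020003))) (.non (nat_lit 1) (nat_lit 5) (nat_lit 0x10151) (nat_lit 0x200000000000000030004000100000003)))))))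

noncomputable def t198 : Tr := (.split (nat_lit 7) (nat_lit 0) (.split (nat_lit 6) (nat_lit 0) (.split (nat_lit 3) (nat_lit 0) .uj (.st (nat_lit 1) (nat_lit 2) (nat_lit 5) (nat_lit 0x145) (nat_lit 0x30004000000020003) (nat_lit 1) (nat_lit 1) t198_5)) (.split (nat_lit 3) (nat_lit 0) (.sup (nat_lit 0x9000a0004) (nat_lit 0x300010007000a0008000000000000)) (.non (nat_lit 2) (nat_lit 5) (nat_lit 0x1145) (nat_lit 0x1000000020002000000010002)))) (.split (nat_lit 6) (nat_lit 0) (.split (nat_lit 3) (nat_lit 0) (.sup (nat_lit 0x9000a0004) (nat_lit 0x100030007000a0008000000000000)) (.non (nat_lit 2) (nat_lit 5) (nat_lit 0x4145) (nat_lit 0x10000000000020002000000010002))) (.non (nat_lit 1) (nat_lit 4) (nat_lit 0x5401) (nat_lit 0x10001000100000000000000000001))))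

noncomputable def t202_1 : Tr := (.ex (nat_lit 3) (.ex (nat_lit 4) (.split (nat_lit 6) (nat_lit 2) (.pd (.cons (nat_lit 0) (nat_lit 6) (nat_lit 0x110) (nat_lit 0x30433120) (nat_lit 0xf423f00000f423fb71ae14581000010000100000) (.cons (nat_lit 1) (nat_lit 5) (nat_lit 0) (nat_lit 0x62037200) (nat_lit 0x7a11c7a11a00000f423f7a11e7a11800000f423f) (.cons (nat_lit 1) (nat_lit 6) (nat_lit 0) (nat_lit 0x30433200) (nat_lit 0xf423f00000f423fb71ae14581f423f00000f423f) (.cons (nat_lit 1) (nat_lit 7) (nat_lit 0) (nat_lit 0x2654200) (nat_lit 0x7a11a7a11c7a11ef423f7a11800000f423f) (.cons (nat_lit 2) (nat_lit 5) (nat_lit 0) (nat_lit 0x37033000) (nat_lit 0xb71aef423f00000f423f28b0700000f423fb71ae) (.cons (nat_lit 2) (nat_lit 6) (nat_lit 0) (nat_lit 0x30433000) (nat_lit 0xf423f00000f423fb71ae1458100000f423fb71ae) (.cons (nat_lit 2) (nat_lit 7) (nat_lit 0) (nat_lit 0x5433000) (nat_lit 0xf423fb71aea2c283d08b00000f423fb71ae) .nil))))))) (.leaf (.cons (nat_lit 0x1014) (nat_lit 0x1000000000000000200020000) .nil) .nil)) (.non (nat_lit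 1) (nat_lit 3) (nat_lit 0xa810) (nat_lit 0x10002000100000000000200000000))) (.split (nat_lit 8) (nat_lit 1) (.split (nat_lit 8) (nat_lit 2) (.split (nat_lit 8) (nat_lit 5) (.split (nat_lit 8) (nat_lit 6) (.split (nat_lit 8) (nat_lit 7) (.split (nat_lit 8) (nat_lit 0) (.split (nat_lit 8) (nat_lit 3) (.unj (nat_lit 0x15) (nat_lit 0x200020001) (nat_lit 0x20a40) (nat_lit 0x100000000000100020002000000000000)) (.unj (nat_lit 0x15) (nat_lit 0x200020001) (nat_lit 0x10140) (nat_lit 0x100000000000000010001000000000000))) (.split (nat_lit 8) (nat_lit 3) (.split (nat_lit 8) (nat_lit 0) (.sup (nat_lit 0x200030000000300070007000000000000) (nat_lit 0x1000000000000000700080003)) (.non (nat_lit 1) (nat_lit 3) (nat_lit 0x2aa21) (nat_lit 0x200010002000200020000000100000002))) (.unj (nat_lit 0x1014) (nat_lit 0x1000000000000000200020000) (nat_lit 0x10140) (nat_lit 0x100000000000000010001000000000000)))) (.non (nat_lit 1) (nat_lit 3) (nat_lit 0x15500) (nat_lit 0x100010001000100010000000000000000))) (.non (nat_lit 1) (nat_lit 3) (nat_lit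 0x11500) (nat_lit 0x100000001000100010000000000000000))) (.non (nat_lit 1) (nat_lit 3) (nat_lit 0x10500) (nat_lit 0x100000000000100010000000000000000))) (.star (nat_lit 8) (nat_lit 2) (nat_lit 4))) (.star (nat_lit 8) (nat_lit 1) (nat_lit 4)))) (.split (nat_lit 8) (nat_lit 1) (.split (nat_lit 8) (nat_lit 2) (.split (nat_lit 8) (nat_lit 5) (.split (nat_lit 8) (nat_lit 6) (.split (nat_lit 8) (nat_lit 7) (.split (nat_lit 8) (nat_lit 0) (.split (nat_lit 8) (nat_lit 4) (.unj (nat_lit 0x15) (nat_lit 0x200020001) (nat_lit 0x14240) (nat_lit 0x100010000000000010002000000000000)) (.unj (nat_lit 0x15) (nat_lit 0x200020001) (nat_lit 0x10140) (nat_lit 0x100000000000000010001000000000000))) (.split (nat_lit 8) (nat_lit 4) (.split (nat_lit 8) (nat_lit 0) (.sup (nat_lit 0x200030000000300070007000000000000) (nat_lit 0x1000000000000000700080003)) (.non (nat_lit 1) (nat_lit 4) (nat_lit 0x2a8a1) (nat_lit 0x200020002000100000002000100000002))) (.unj (nat_lit 0x1014) (nat_lit 0x1000000000000000200020000) (nat_lit 0x10140) (nat_lit 0x100000000000000010001000000000000))))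 (.non (nat_lit 1) (nat_lit 4) (nat_lit 0x14040) (nat_lit 0x100010000000000000001000000000000))) (.non (nat_lit 1) (nat_lit 3) (nat_lit 0x15410) (nat_lit 0x100010002000100000000000100000000))) (.non (nat_lit 1) (nat_lit 3) (nat_lit 0x15510) (nat_lit 0x100010002000200010000000100000000))) (.star (nat_lit 8) (nat_lit 2) (nat_lit 3))) (.star (nat_lit 8) (nat_lit 1) (nat_lit 3))))

noncomputable def t202_2 : Tr := (.st (nat_lit 7) (nat_lit 1) (nat_lit 4) (nat_lit 0x5450) (nat_lit 0x20002000100000001000100000000) (nat_lit 1) (nat_lit 1) (.ex (nat_lit 1) (.ex (nat_lit 2) t202_1 (.split (nat_lit 8) (nat_lit 3) (.split (nat_lit 8) (nat_lit 4) (.split (nat_lit 8) (nat_lit 5) (.split (nat_lit 8) (nat_lit 6) (.split (nat_lit 8) (nat_lit 7) (.split (nat_lit 8) (nat_lit 0) (.split (nat_lit 8) (nat_lit 1) (.split (nat_lit 8) (nat_lit 2) (.split (nat_lit 6) (nat_lit 2) (.sup (nat_lit 0x50003000500080008000000000000) (nat_lit 0x200000000000000000000000500060003)) (.non (nat_lit 1) (nat_lit 3) (nat_lit 0xa810) (nat_lit 0x10002000100000000000200000000)))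 (.non (nat_lit 1) (nat_lit 3) (nat_lit 0x25410) (nat_lit 0x100010002000100000000000200000000))) (.sup (nat_lit 0x400000000000000000000000300050000) (nat_lit 0x30001000300050005000000000000))) (.split (nat_lit 8) (nat_lit 1) (.sup (nat_lit 0x60004000600080008000000000000) (nat_lit 0x300000000000000000000000300040003)) (.non (nat_lit 2) (nat_lit 3) (nat_lit 0x10005) (nat_lit 0x100000000000000000000000000010001)))) (.non (nat_lit 1) (nat_lit 3) (nat_lit 0x15010) (nat_lit 0x100010001000000000000000100000000))) (.non (nat_lit 1) (nat_lit 3) (nat_lit 0x11010) (nat_lit 0x100000001000000000000000100000000))) (.non (nat_lit 1) (nat_lit 3) (nat_lit 0x11410) (nat_lit 0x100000001000100000000000100000000))) (.star (nat_lit 8) (nat_lit 2) (nat_lit 4))) (.star (nat_lit 8) (nat_lit 2) (nat_lit 3)))) (.split (nat_lit 8) (nat_lit 0) (.split (nat_lit 8) (nat_lit 3) (.split (nat_lit 8) (nat_lit 4) (.split (nat_lit 8) (nat_lit 5) (.split (nat_lit 8) (nat_lit 6) (.split (nat_lit 8) (nat_lit 7) (.split (nat_lit 8) (nat_lit 2) (.split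 (nat_lit 8) (nat_lit 1) (.split (nat_lit 6) (nat_lit 2) (.sup (nat_lit 0x50003000500080008000000000000) (nat_lit 0x300000000000000000000000400060003)) (.non (nat_lit 1) (nat_lit 3) (nat_lit 0xa810) (nat_lit 0x10002000100000000000200000000))) (.sup (nat_lit 0x400000000000000000000000300050000) (nat_lit 0x30001000300050005000000000000))) (.sup (nat_lit 0x400000000000000000000000300050000) (nat_lit 0x30001000300050005000000000000))) (.non (nat_lit 1) (nat_lit 4) (nat_lit 0x15450) (nat_lit 0x100020002000100000001000100000000))) (.non (nat_lit 1) (nat_lit 3) (nat_lit 0x15410) (nat_lit 0x100010002000100000000000100000000))) (.non (nat_lit 1) (nat_lit 3) (nat_lit 0x15510) (nat_lit 0x100010002000200010000000100000000))) (.star (nat_lit 8) (nat_lit 1) (nat_lit 4))) (.star (nat_lit 8) (nat_lit 1) (nat_lit 3))) (.non (nat_lit 2) (nat_lit 3) (nat_lit 0x10005) (nat_lit 0x100000000000000000000000000010001)))))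

noncomputable def t202_3 : Tr := (.ex (nat_lit 3) (.ex (nat_lit 4) (.split (nat_lit 6) (nat_lit 1) (.pd (.cons (nat_lit 0) (nat_lit 6) (nat_lit 0x110) (nat_lit 0x30433120) (nat_lit 0xf423f00000f423fb71ae14581000010000100000) (.cons (nat_lit 1) (nat_lit 5) (nat_lit 0) (nat_lit 0x37033200) (nat_lit 0xb71aef423f00000f423f28b07f423f00000f423f) (.cons (nat_lit 1) (nat_lit 6) (nat_lit 0) (nat_lit 0x30433200) (nat_lit 0xf423f00000f423fb71ae14581f423f00000f423f) (.cons (nat_lit 1) (nat_lit 7) (nat_lit 0) (nat_lit 0x5433200) (nat_lit 0xf423fb71aea2c283d08bf423f00000f423f) (.cons (nat_lit 2) (nat_lit 5) (nat_lit 0) (nat_lit 0x61037000) (nat_lit 0x7a11c7a11a00000f423f7a11e000007a1187a116) (.cons (nat_lit 2) (nat_lit 6) (nat_lit 0) (nat_lit 0x30433000) (nat_lit 0xf423f00000f423fb71ae1458100000f423fb71ae) (.cons (nat_lit 2) (nat_lit 7) (nat_lit 0) (nat_lit 0x1654000) (nat_lit 0x7a11a7a11c7a11ef423f000007a1187a116) .nil))))))) (.leaf (.cons (nat_lit 0x1014) (nat_lit 0x1000000000000000200020000) .nil) .nil)) (.non (nat_lit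 2) (nat_lit 3) (nat_lit 0xa804) (nat_lit 0x10002000100000000000000020000))) (.split (nat_lit 8) (nat_lit 0) (.split (nat_lit 8) (nat_lit 1) (.split (nat_lit 8) (nat_lit 2) (.split (nat_lit 8) (nat_lit 5) (.split (nat_lit 8) (nat_lit 6) (.split (nat_lit 8) (nat_lit 7) (.split (nat_lit 8) (nat_lit 3) (.unj (nat_lit 0x15) (nat_lit 0x200020001) (nat_lit 0x20a40) (nat_lit 0x100000000000100020002000000000000)) (.unj (nat_lit 0x15) (nat_lit 0x200020001) (nat_lit 0x10140) (nat_lit 0x100000000000000010001000000000000))) (.non (nat_lit 1) (nat_lit 3) (nat_lit 0x15500) (nat_lit 0x100010001000100010000000000000000))) (.non (nat_lit 1) (nat_lit 3) (nat_lit 0x11500) (nat_lit 0x100000001000100010000000000000000))) (.non (nat_lit 1) (nat_lit 3) (nat_lit 0x10500) (nat_lit 0x100000000000100010000000000000000))) (.star (nat_lit 8) (nat_lit 2) (nat_lit 4))) (.star (nat_lit 8) (nat_lit 1) (nat_lit 4))) (.non (nat_lit 2) (nat_lit 3) (nat_lit 0x11505) (nat_lit 0x100000001000100010000000000010001)))) (.split (nat_lit 8) (nat_lit 0) (.split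 (nat_lit 8) (nat_lit 1) (.split (nat_lit 8) (nat_lit 2) (.split (nat_lit 8) (nat_lit 5) (.split (nat_lit 8) (nat_lit 6) (.split (nat_lit 8) (nat_lit 7) (.split (nat_lit 8) (nat_lit 4) (.unj (nat_lit 0x15) (nat_lit 0x200020001) (nat_lit 0x14240) (nat_lit 0x100010000000000010002000000000000)) (.unj (nat_lit 0x15) (nat_lit 0x200020001) (nat_lit 0x10140) (nat_lit 0x100000000000000010001000000000000))) (.non (nat_lit 1) (nat_lit 4) (nat_lit 0x14040) (nat_lit 0x100010000000000000001000000000000))) (.non (nat_lit 1) (nat_lit 4) (nat_lit 0x15040) (nat_lit 0x100010001000000000001000000000000))) (.non (nat_lit 1) (nat_lit 4) (nat_lit 0x15440) (nat_lit 0x100010001000100000001000000000000))) (.star (nat_lit 8) (nat_lit 2) (nat_lit 3))) (.star (nat_lit 8) (nat_lit 1) (nat_lit 3))) (.non (nat_lit 2) (nat_lit 4) (nat_lit 0x15045) (nat_lit 0x100010001000000000001000000010001))))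

noncomputable def t202_4 : Tr := (.ex (nat_lit 3) (.ex (nat_lit 4) (.split (nat_lit 6) (nat_lit 2) (.split (nat_lit 6) (nat_lit 1) (.pd (.cons (nat_lit 0) (nat_lit 6) (nat_lit 0x110) (nat_lit 0x30433120) (nat_lit 0xf423f00000f423fb71ae14581000010000100000) (.cons (nat_lit 1) (nat_lit 5) (nat_lit 0) (nat_lit 0x62037200) (nat_lit 0x7a11c7a11a00000f423f7a11e7a11800000f423f) (.cons (nat_lit 1) (nat_lit 6) (nat_lit 0) (nat_lit 0x30433200) (nat_lit 0xf423f00000f423fb71ae14581f423f00000f423f) (.cons (nat_lit 1) (nat_lit 7) (nat_lit 0) (nat_lit 0x2654200) (nat_lit 0x7a11a7a11c7a11ef423f7a11800000f423f) (.cons (nat_lit 2) (nat_lit 5) (nat_lit 0) (nat_lit 0x61037000) (nat_lit 0x7a11c7a11a00000f423f7a11e000007a1187a116) (.cons (nat_lit 2) (nat_lit 6) (nat_lit 0) (nat_lit 0x30433000) (nat_lit 0xf423f00000f423fb71ae1458100000f423fb71ae) (.cons (nat_lit 2) (nat_lit 7) (nat_lit 0) (nat_lit 0x1654000) (nat_lit 0x7a11a7a11c7a11ef423f000007a1187a116) .nil))))))) (.leaf (.cons (nat_lit 0x1014) (nat_lit 0x1000000000000000100010000)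 .nil) .nil)) (.non (nat_lit 2) (nat_lit 3) (nat_lit 0xa804) (nat_lit 0x10002000100000000000000020000))) (.non (nat_lit 1) (nat_lit 3) (nat_lit 0xa810) (nat_lit 0x10002000100000000000200000000))) (.split (nat_lit 8) (nat_lit 0) (.split (nat_lit 8) (nat_lit 1) (.split (nat_lit 8) (nat_lit 2) (.split (nat_lit 8) (nat_lit 5) (.split (nat_lit 8) (nat_lit 6) (.split (nat_lit 8) (nat_lit 7) (.split (nat_lit 8) (nat_lit 3) (.unj (nat_lit 0x15) (nat_lit 0x200020001) (nat_lit 0x20a40) (nat_lit 0x100000000000100020002000000000000)) (.unj (nat_lit 0x15) (nat_lit 0x200020001) (nat_lit 0x10140) (nat_lit 0x100000000000000010001000000000000))) (.non (nat_lit 1) (nat_lit 3) (nat_lit 0x15500) (nat_lit 0x100010001000100010000000000000000))) (.non (nat_lit 1) (nat_lit 3) (nat_lit 0x11500) (nat_lit 0x100000001000100010000000000000000))) (.non (nat_lit 1) (nat_lit 3) (nat_lit 0x10500) (nat_lit 0x100000000000100010000000000000000))) (.star (nat_lit 8) (nat_lit 2) (nat_lit 4))) (.star (nat_lit 8) (nat_lit 1) (nat_lit 4))) (.non (nat_lit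 2) (nat_lit 3) (nat_lit 0x11505) (nat_lit 0x100000001000100010000000000010001)))) (.split (nat_lit 8) (nat_lit 0) (.split (nat_lit 8) (nat_lit 1) (.split (nat_lit 8) (nat_lit 2) (.split (nat_lit 8) (nat_lit 5) (.split (nat_lit 8) (nat_lit 6) (.split (nat_lit 8) (nat_lit 7) (.split (nat_lit 8) (nat_lit 4) (.unj (nat_lit 0x15) (nat_lit 0x200020001) (nat_lit 0x14240) (nat_lit 0x100010000000000010002000000000000)) (.unj (nat_lit 0x15) (nat_lit 0x200020001) (nat_lit 0x10140) (nat_lit 0x100000000000000010001000000000000))) (.non (nat_lit 1) (nat_lit 4) (nat_lit 0x14040) (nat_lit 0x100010000000000000001000000000000))) (.non (nat_lit 1) (nat_lit 3) (nat_lit 0x15410) (nat_lit 0x100010002000100000000000100000000))) (.non (nat_lit 1) (nat_lit 3) (nat_lit 0x15510) (nat_lit 0x100010002000200010000000100000000))) (.star (nat_lit 8) (nat_lit 2) (nat_lit 3))) (.star (nat_lit 8) (nat_lit 1) (nat_lit 3))) (.non (nat_lit 2) (nat_lit 4) (nat_lit 0x15045) (nat_lit 0x100010001000000000001000000010001))))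

noncomputable def t202_5 : Tr := (.ex (nat_lit 3) (.ex (nat_lit 4) (.split (nat_lit 6) (nat_lit 2) (.split (nat_lit 8) (nat_lit 2) (.split (nat_lit 6) (nat_lit 1) (.pd (.cons (nat_lit 1) (nat_lit 5) (nat_lit 0) (nat_lit 0x262037200) (nat_lit 0xf423f7a11c7a11a00000f423f7a11e3d08700000f423f) (.cons (nat_lit 1) (nat_lit 6) (nat_lit 0) (nat_lit 0x230433200) (nat_lit 0xf423ff423f00000f423fb71ae14581b71ae00000f423f) (.cons (nat_lit 1) (nat_lit 7) (nat_lit 0) (nat_lit 0x202654200) (nat_lit 0xf423f000007a11a7a11c7a11ef423f3d08700000f423f) (.cons (nat_lit 2) (nat_lit 5) (nat_lit 0) (nat_lit 0x861037000) (nat_lit 0xf423f7a11c7a11a00000f423f7a11e000007a1187a116) (.cons (nat_lit 2) (nat_lit 6) (nat_lit 0) (nat_lit 0x830433000) (nat_lit 0xf423ff423f00000f423fb71ae1458100000f423fb71ae) (.cons (nat_lit 2) (nat_lit 7) (nat_lit 0) (nat_lit 0x801654000) (nat_lit 0xf423f000007a11a7a11c7a11ef423f000007a1187a116) .nil)))))) (.leaf (.cons (nat_lit 0x10014) (nat_lit 0x100000000000000000000000200020000) .nil) .nil)) (.non (nat_lit 2)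 (nat_lit 3) (nat_lit 0xa804) (nat_lit 0x10002000100000000000000020000))) (.non (nat_lit 1) (nat_lit 3) (nat_lit 0x25410) (nat_lit 0x100010002000100000000000200000000))) (.non (nat_lit 1) (nat_lit 3) (nat_lit 0xa810) (nat_lit 0x10002000100000000000200000000))) (.split (nat_lit 9) (nat_lit 0) (.split (nat_lit 9) (nat_lit 1) (.split (nat_lit 9) (nat_lit 2) (.split (nat_lit 9) (nat_lit 5) (.split (nat_lit 9) (nat_lit 6) (.split (nat_lit 9) (nat_lit 7) (.split (nat_lit 9) (nat_lit 8) (.split (nat_lit 9) (nat_lit 3) (.unj (nat_lit 0x15) (nat_lit 0x200020001) (nat_lit 0x80a40) (nat_lit 0x1000000000000000100020002000000000000)) (.unj (nat_lit 0x15) (nat_lit 0x200020001) (nat_lit 0x40140) (nat_lit 0x1000000000000000000010001000000000000))) (.non (nat_lit 1) (nat_lit 3) (nat_lit 0x51510) (nat_lit 0x1000100000001000100010000000100000000))) (.non (nat_lit 1) (nat_lit 3) (nat_lit 0x45500) (nat_lit 0x1000000010001000100010000000000000000))) (.non (nat_lit 1) (nat_lit 3) (nat_lit 0x41500) (nat_lit 0x1000000000001000100010000000000000000)))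 (.non (nat_lit 1) (nat_lit 3) (nat_lit 0x40500) (nat_lit 0x1000000000000000100010000000000000000))) (.star (nat_lit 9) (nat_lit 2) (nat_lit 4))) (.star (nat_lit 9) (nat_lit 1) (nat_lit 4))) (.non (nat_lit 2) (nat_lit 3) (nat_lit 0x41505) (nat_lit 0x1000000000001000100010000000000010001)))) (.split (nat_lit 9) (nat_lit 0) (.split (nat_lit 9) (nat_lit 1) (.split (nat_lit 9) (nat_lit 2) (.split (nat_lit 9) (nat_lit 5) (.split (nat_lit 9) (nat_lit 6) (.split (nat_lit 9) (nat_lit 7) (.split (nat_lit 9) (nat_lit 8) (.split (nat_lit 9) (nat_lit 4) (.unj (nat_lit 0x15) (nat_lit 0x200020001) (nat_lit 0x44240) (nat_lit 0x1000000010000000000010002000000000000)) (.unj (nat_lit 0x15) (nat_lit 0x200020001) (nat_lit 0x40140) (nat_lit 0x1000000000000000000010001000000000000))) (.non (nat_lit 1) (nat_lit 4) (nat_lit 0x55050) (nat_lit 0x1000100010001000000000001000100000000))) (.non (nat_lit 1) (nat_lit 3) (nat_lit 0x55510) (nat_lit 0x1000100020003000200010000000200000000))) (.non (nat_lit 1) (nat_lit 3) (nat_lit 0x45410) (nat_lit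 0x1000000010002000100000000000100000000))) (.non (nat_lit 1) (nat_lit 3) (nat_lit 0x45510) (nat_lit 0x1000000010002000200010000000100000000))) (.star (nat_lit 9) (nat_lit 2) (nat_lit 3))) (.star (nat_lit 9) (nat_lit 1) (nat_lit 3))) (.non (nat_lit 2) (nat_lit 4) (nat_lit 0x45045) (nat_lit 0x1000000010001000000000001000000010001))))

noncomputable def t202_6 : Tr := (.split (nat_lit 6) (nat_lit 2) (.st (nat_lit 1) (nat_lit 2) (nat_lit 3) (nat_lit 0x5405) (nat_lit 0x10002000100000000000000020001) (nat_lit 1) (nat_lit 1) (.st (nat_lit 5) (nat_lit 2) (nat_lit 3) (nat_lit 0x5504) (nat_lit 0x10002000200010000000000010000) (nat_lit 1) (nat_lit 1) (.st (nat_lit 6) (nat_lit 2) (nat_lit 3) (nat_lit 0x5404) (nat_lit 0x10002000100000000000000010000) (nat_lit 1) (nat_lit 1) (.st (nat_lit 7) (nat_lit 2) (nat_lit 3) (nat_lit 0x5505) (nat_lit 0x20003000200010000000000020001) (nat_lit 1) (nat_lit 1) (.ex (nat_lit 2) t202_3 (.split (nat_lit 8) (nat_lit 1) (.split (nat_lit 8) (nat_lit 3) (.split (nat_lit 8) (nat_lit 4) (.split (nat_lit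 8) (nat_lit 5) (.split (nat_lit 8) (nat_lit 6) (.split (nat_lit 8) (nat_lit 7) (.split (nat_lit 8) (nat_lit 0) (.split (nat_lit 8) (nat_lit 2) (.split (nat_lit 6) (nat_lit 1) (.sup (nat_lit 0x50003000500080008000000000000) (nat_lit 0x300000000000000000000000600050002)) (.non (nat_lit 2) (nat_lit 3) (nat_lit 0xa804) (nat_lit 0x10002000100000000000000020000))) (.sup (nat_lit 0x400000000000000000000000500030000) (nat_lit 0x30001000300050005000000000000))) (.sup (nat_lit 0x60004000600080008000000000000) (nat_lit 0x300000000000000000000000400030003))) (.non (nat_lit 2) (nat_lit 3) (nat_lit 0x15505) (nat_lit 0x100020003000200010000000000020001))) (.non (nat_lit 2) (nat_lit 3) (nat_lit 0x15404) (nat_lit 0x100010002000100000000000000010000))) (.non (nat_lit 2) (nat_lit 3) (nat_lit 0x15504) (nat_lit 0x100010002000200010000000000010000))) (.star (nat_lit 8) (nat_lit 2) (nat_lit 4))) (.star (nat_lit 8) (nat_lit 2) (nat_lit 3))) (.non (nat_lit 2) (nat_lit 3) (nat_lit 0x15405) (nat_lit 0x100010002000100000000000000020001))))))))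 (.st (nat_lit 1) (nat_lit 2) (nat_lit 3) (nat_lit 0x5405) (nat_lit 0x10002000100000000000000020001) (nat_lit 1) (nat_lit 1) (.st (nat_lit 5) (nat_lit 1) (nat_lit 3) (nat_lit 0x5510) (nat_lit 0x10002000200010000000100000000) (nat_lit 1) (nat_lit 1) (.st (nat_lit 6) (nat_lit 1) (nat_lit 3) (nat_lit 0x5410) (nat_lit 0x10002000100000000000100000000) (nat_lit 1) (nat_lit 1) (.st (nat_lit 7) (nat_lit 1) (nat_lit 4) (nat_lit 0x5450) (nat_lit 0x20002000100000001000100000000) (nat_lit 1) (nat_lit 1) (.ex (nat_lit 2) t202_4 (.split (nat_lit 8) (nat_lit 1) (.split (nat_lit 8) (nat_lit 3) (.split (nat_lit 8) (nat_lit 4) (.split (nat_lit 8) (nat_lit 5) (.split (nat_lit 8) (nat_lit 6) (.split (nat_lit 8) (nat_lit 7) (.split (nat_lit 8) (nat_lit 0) t202_5 (.split (nat_lit 8) (nat_lit 0) (.split (nat_lit 8) (nat_lit 2) (.split (nat_lit 6) (nat_lit 1) (.split (nat_lit 6) (nat_lit 2) (.sup (nat_lit 0x50002000500080008000000000000) (nat_lit 0x300000000000000000000000300030003)) (.non (nat_lit 1) (nat_lit 3) (nat_lit 0xa810) (nat_lit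 0x10002000100000000000200000000))) (.non (nat_lit 2) (nat_lit 3) (nat_lit 0xa804) (nat_lit 0x10002000100000000000000020000))) (.non (nat_lit 1) (nat_lit 3) (nat_lit 0x25410) (nat_lit 0x100010002000100000000000200000000))) (.non (nat_lit 1) (nat_lit 3) (nat_lit 0x2a821) (nat_lit 0x200010002000100000000000200000002)))) (.non (nat_lit 1) (nat_lit 3) (nat_lit 0x15010) (nat_lit 0x100010001000000000000000100000000))) (.non (nat_lit 1) (nat_lit 3) (nat_lit 0x11010) (nat_lit 0x100000001000000000000000100000000))) (.non (nat_lit 1) (nat_lit 3) (nat_lit 0x11410) (nat_lit 0x100000001000100000000000100000000))) (.star (nat_lit 8) (nat_lit 2) (nat_lit 4))) (.star (nat_lit 8) (nat_lit 2) (nat_lit 3))) (.non (nat_lit 2) (nat_lit 3) (nat_lit 0x15405) (nat_lit 0x100010002000100000000000000020001)))))))))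

noncomputable def t202 : Tr := (.split (nat_lit 7) (nat_lit 0) (.split (nat_lit 6) (nat_lit 0) (.split (nat_lit 6) (nat_lit 1) (.split (nat_lit 6) (nat_lit 2) (.split (nat_lit 5) (nat_lit 0) .uj (.split (nat_lit 5) (nat_lit 0) (.sup (nat_lit 0x500050002) (nat_lit 0x40003000200040005000000000000)) (.non (nat_lit 1) (nat_lit 3) (nat_lit 0x2a01) (nat_lit 0x1000200010000000000000002)))) (.split (nat_lit 5) (nat_lit 0) (.st (nat_lit 5) (nat_lit 1) (nat_lit 3) (nat_lit 0x5510) (nat_lit 0x10002000200010000000100000000) (nat_lit 1) (nat_lit 1) (.st (nat_lit 6) (nat_lit 1) (nat_lit 3) (nat_lit 0x5410) (nat_lit 0x10002000100000000000100000000) (nat_lit 1) (nat_lit 1) t202_2)) (.non (nat_lit 1) (nat_lit 3) (nat_lit 0x5511) (nat_lit 0x10002000200010000000100000001)))) (.split (nat_lit 5) (nat_lit 0) t202_6 (.non (nat_lit 2) (nat_lit 3) (nat_lit 0x1405) (nat_lit 0x1000100000000000000010001)))) (.split (nat_lit 6) (nat_lit 1) (.split (nat_lit 6) (nat_lit 2) (.split (nat_lit 5) (nat_lit 0) (.split (nat_lit 6) (nat_lit 0) (.sup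 (nat_lit 0x500050002) (nat_lit 0x30001000300050005000000000000)) (.non (nat_lit 1) (nat_lit 3) (nat_lit 0xa801) (nat_lit 0x10002000100000000000000000002))) (.non (nat_lit 1) (nat_lit 3) (nat_lit 0x1401) (nat_lit 0x1000100000000000000000001))) (.non (nat_lit 1) (nat_lit 3) (nat_lit 0x5411) (nat_lit 0x10002000100000000000100000001))) (.non (nat_lit 2) (nat_lit 3) (nat_lit 0x1005) (nat_lit 0x1000000000000000000010001)))) (.split (nat_lit 6) (nat_lit 0) (.split (nat_lit 6) (nat_lit 1) (.split (nat_lit 6) (nat_lit 2) (.split (nat_lit 5) (nat_lit 0) (.split (nat_lit 7) (nat_lit 0) (.sup (nat_lit 0x500050002) (nat_lit 0x20003000400050004000000000000)) (.non (nat_lit 1) (nat_lit 4) (nat_lit 0xa081) (nat_lit 0x20001000000000001000000000002))) (.non (nat_lit 1) (nat_lit 3) (nat_lit 0x5401) (nat_lit 0x10001000100000000000000000001))) (.non (nat_lit 1) (nat_lit 4) (nat_lit 0x5451) (nat_lit 0x20002000100000001000100000001))) (.non (nat_lit 2) (nat_lit 3) (nat_lit 0x5005) (nat_lit 0x10001000000000000000000010001))) (.non (nat_lit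 1) (nat_lit 3) (nat_lit 0x5001) (nat_lit 0x10001000000000000000000000001))))

noncomputable def t218 : Tr := (.split (nat_lit 4) (nat_lit 2) .uj (.st (nat_lit 1) (nat_lit 0) (nat_lit 3) (nat_lit 0x114) (nat_lit 0x10000000200020000) (nat_lit 1) (nat_lit 1) (.st (nat_lit 3) (nat_lit 0) (nat_lit 5) (nat_lit 0x154) (nat_lit 0x30002000400030000) (nat_lit 1) (nat_lit 1) (.st (nat_lit 5) (nat_lit 0) (nat_lit 3) (nat_lit 0x514) (nat_lit 0x200030000000400030000) (nat_lit 1) (nat_lit 1) (.pd (.cons (nat_lit 0) (nat_lit 4) (nat_lit 0x101110) (nat_lit 0x305120) (nat_lit 0x10000000001000010000100000) (.cons (nat_lit 1) (nat_lit 4) (nat_lit 0x101000) (nat_lit 0x305200) (nat_lit 0x10000000001f423f00000f423f) .nil)) (.ex (nat_lit 0) (.pd (.cons (nat_lit 2) (nat_lit 3) (nat_lit 0x110000) (nat_lit 0x450000) (nat_lit 0x1000010000000000f423f7a11e) (.cons (nat_lit 2) (nat_lit 4) (nat_lit 0x101000) (nat_lit 0x305000) (nat_lit 0x1000000000100000f423f7a11e) (.cons (nat_lit 2) (nat_lit 5) (nat_lit 0x11000) (nat_lit 0x34000) (nat_lit 0x10000100000f423f7a11e)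 .nil))) (.leaf .nil .nil)) (.split (nat_lit 6) (nat_lit 1) (.split (nat_lit 6) (nat_lit 2) (.split (nat_lit 6) (nat_lit 3) (.split (nat_lit 6) (nat_lit 4) (.split (nat_lit 6) (nat_lit 5) (.split (nat_lit 6) (nat_lit 0) (.split (nat_lit 5) (nat_lit 3) (.split (nat_lit 5) (nat_lit 4) (.split (nat_lit 4) (nat_lit 2) (.sup (nat_lit 0x700040007000000000000) (nat_lit 0x3000000000000000400080007)) (.non (nat_lit 0) (nat_lit 3) (nat_lit 0x114) (nat_lit 0x10000000100010000))) (.non (nat_lit 0) (nat_lit 3) (nat_lit 0x514) (nat_lit 0x100010000000100010000))) (.sup (nat_lit 0xb0006000b000000000000) (nat_lit 0x600000000000000090010000d))) (.unj (nat_lit 0x2009) (nat_lit 0x1000000000000000000010002) (nat_lit 0x540) (nat_lit 0x100010001000000000000))) (.star (nat_lit 6) (nat_lit 0) (nat_lit 5))) (.non (nat_lit 0) (nat_lit 3) (nat_lit 0x1514) (nat_lit 0x1000100020000000200020000))) (.star (nat_lit 6) (nat_lit 0) (nat_lit 3))) (.non (nat_lit 0) (nat_lit 3) (nat_lit 0x1114) (nat_lit 0x1000000010000000200020000))) (.non (nat_lit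 0) (nat_lit 3) (nat_lit 0x1114) (nat_lit 0x1000000010000000200020000)))))))))

noncomputable def t237_1 : Tr := (.st (nat_lit 8) (nat_lit 1) (nat_lit 3) (nat_lit 0x55401) (nat_lit 0x1000200020002000100000000000000000001) (nat_lit 1) (nat_lit 1) (.split (nat_lit 9) (nat_lit 8) (.ex (nat_lit 9) (.leaf (.cons (nat_lit 0x1541) (nat_lit 0x2000300040003000000000001) (.cons (nat_lit 0x5409) (nat_lit 0x10002000100000000000000010002) .nil)) (.cons (nat_lit 0x1111110001) (nat_lit 0x1010) (nat_lit 0xd) (nat_lit 0x6540230001) (.cons (nat_lit 0x1111100001) (nat_lit 0x10010) (nat_lit 9) (nat_lit 0x5430200001) .nil))) (.split (nat_lit 0xa) (nat_lit 0) (.split (nat_lit 0xa) (nat_lit 1) (.split (nat_lit 0xa) (nat_lit 2) (.split (nat_lit 0xa) (nat_lit 3) (.split (nat_lit 0xa) (nat_lit 4) (.split (nat_lit 0xa) (nat_lit 5) (.split (nat_lit 0xa) (nat_lit 6) (.split (nat_lit 0xa) (nat_lit 7) (.split (nat_lit 0xa) (nat_lit 8) (.st (nat_lit 9) (nat_lit 1) (nat_lit 3) (nat_lit 0x155401) (nat_lit 0x10002000200020002000100000000000000000001)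 (nat_lit 1) (nat_lit 1) (.st (nat_lit 0xa) (nat_lit 1) (nat_lit 3) (nat_lit 0x155501) (nat_lit 0x20003000400050006000400020000000000000003) (nat_lit 1) (nat_lit 1) (.split (nat_lit 0xa) (nat_lit 9) (.leaf (.cons (nat_lit 0x1541) (nat_lit 0x2000300040003000000000001) (.cons (nat_lit 0x5409) (nat_lit 0x10002000100000000000000010002) .nil)) (.cons (nat_lit 0x11111110001) (nat_lit 0x1010) (nat_lit 0xe) (nat_lit 0x76540230001) (.cons (nat_lit 0x11111000001) (nat_lit 0x100010) (nat_lit 4) (nat_lit 0x54321000000) .nil))) (.non (nat_lit 1) (nat_lit 3) (nat_lit 0x255401) (nat_lit 0x10002000200020002000100000000000000000001))))) (.non (nat_lit 0) (nat_lit 3) (nat_lit 0x150000) (nat_lit 0x10001000100000000000000000000000000000000))) (.non (nat_lit 0) (nat_lit 3) (nat_lit 0x154000) (nat_lit 0x10001000100010000000000000000000000000000))) (.non (nat_lit 0) (nat_lit 3) (nat_lit 0x155000) (nat_lit 0x10001000100010001000000000000000000000000))) (.non (nat_lit 0) (nat_lit 3) (nat_lit 0x155400) (nat_lit 0x10001000100010001000100000000000000000000)))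 (.non (nat_lit 0) (nat_lit 3) (nat_lit 0x155500) (nat_lit 0x10001000100010001000100010000000000000000))) (.non (nat_lit 0) (nat_lit 5) (nat_lit 0x150140) (nat_lit 0x30002000100000000000000030004000000000000))) (.non (nat_lit 0) (nat_lit 3) (nat_lit 0x150014) (nat_lit 0x30002000100000000000000000000000400030000))) (.non (nat_lit 0) (nat_lit 3) (nat_lit 0x150014) (nat_lit 0x30002000100000000000000000000000300040000))) (.non (nat_lit 1) (nat_lit 3) (nat_lit 0x155001) (nat_lit 0x10001000100010001000000000000000000000001)))) (.non (nat_lit 1) (nat_lit 3) (nat_lit 0x95401) (nat_lit 0x1000200020002000100000000000000000001))))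

noncomputable def t237_2 : Tr := (.split (nat_lit 2) (nat_lit 1) (.ex (nat_lit 2) (.ex (nat_lit 8) (.leaf (.cons (nat_lit 0x1541) (nat_lit 0x2000300040003000000000001) (.cons (nat_lit 0x5409) (nat_lit 0x10002000100000000000000010002) .nil)) (.cons (nat_lit 0x111110001) (nat_lit 0x1010) (nat_lit 0xc) (nat_lit 0x540230001) .nil)) (.split (nat_lit 9) (nat_lit 0) (.split (nat_lit 9) (nat_lit 1) (.split (nat_lit 9) (nat_lit 2) (.split (nat_lit 9) (nat_lit 3) (.split (nat_lit 9) (nat_lit 4) (.split (nat_lit 9) (nat_lit 5) (.split (nat_lit 9) (nat_lit 6) (.split (nat_lit 9) (nat_lit 7) t237_1 (.non (nat_lit 0) (nat_lit 3) (nat_lit 0x54000) (nat_lit 0x1000100010000000000000000000000000000))) (.non (nat_lit 0) (nat_lit 3) (nat_lit 0x55000) (nat_lit 0x1000100010001000000000000000000000000))) (.non (nat_lit 0) (nat_lit 3) (nat_lit 0x55400) (nat_lit 0x1000100010001000100000000000000000000))) (.non (nat_lit 0) (nat_lit 3) (nat_lit 0x55500) (nat_lit 0x1000100010001000100010000000000000000))) (.non (nat_lit 0) (nat_lit 5) (nat_lit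 0x54140) (nat_lit 0x3000200010000000000030004000000000000))) (.non (nat_lit 0) (nat_lit 3) (nat_lit 0x54014) (nat_lit 0x3000200010000000000000000000400030000))) (.non (nat_lit 0) (nat_lit 3) (nat_lit 0x54014) (nat_lit 0x3000200010000000000000000000300040000))) (.non (nat_lit 1) (nat_lit 3) (nat_lit 0x55001) (nat_lit 0x1000100010001000000000000000000000001)))) (.split (nat_lit 9) (nat_lit 0) (.split (nat_lit 9) (nat_lit 1) (.split (nat_lit 9) (nat_lit 3) (.split (nat_lit 9) (nat_lit 4) (.split (nat_lit 9) (nat_lit 5) (.split (nat_lit 9) (nat_lit 6) (.split (nat_lit 9) (nat_lit 7) (.split (nat_lit 9) (nat_lit 8) (.sup (nat_lit 0x100020004000600080006000000000000) (nat_lit 0x2000000000000000000000000000400040001)) (.non (nat_lit 0) (nat_lit 3) (nat_lit 0x54014) (nat_lit 0x3000200010000000000000000000400030000))) (.non (nat_lit 0) (nat_lit 3) (nat_lit 0x54014) (nat_lit 0x3000100020000000000000000000400030000))) (.non (nat_lit 0) (nat_lit 3) (nat_lit 0x55510) (nat_lit 0x2000100020003000200010000000100000000))) (.non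 (nat_lit 0) (nat_lit 3) (nat_lit 0x41414) (nat_lit 0x3000000000001000200000000000400030000))) (.non (nat_lit 0) (nat_lit 3) (nat_lit 0x40514) (nat_lit 0x3000000000000000100020000000400030000))) (.non (nat_lit 0) (nat_lit 5) (nat_lit 0x40154) (nat_lit 0x1000000000000000000010001000100010000))) (.non (nat_lit 0) (nat_lit 3) (nat_lit 0x40014) (nat_lit 0x1000000000000000000000000000100010000))) (.non (nat_lit 1) (nat_lit 3) (nat_lit 0x55501) (nat_lit 0x1000100020003000200010000000000000002)))) (.st (nat_lit 2) (nat_lit 0) (nat_lit 3) (nat_lit 0x34) (nat_lit 0x200030000) (nat_lit 3) (nat_lit 1) (.ex (nat_lit 8) (.leaf (.cons (nat_lit 0x1541) (nat_lit 0x2000300040003000000000001) (.cons (nat_lit 0x5409) (nat_lit 0x10002000100000000000000010002) .nil)) (.cons (nat_lit 0x111110001) (nat_lit 0x1010) (nat_lit 0xc) (nat_lit 0x540230001) .nil)) (.split (nat_lit 9) (nat_lit 0) (.split (nat_lit 9) (nat_lit 1) (.split (nat_lit 9) (nat_lit 2) (.split (nat_lit 9) (nat_lit 3) (.split (nat_lit 9) (nat_lit 4) (.split (nat_lit 9)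 (nat_lit 5) (.split (nat_lit 9) (nat_lit 6) (.split (nat_lit 9) (nat_lit 7) (.sup (nat_lit 0x2000300050006000b0010000d000000000000) (nat_lit 0x800090003)) (.non (nat_lit 0) (nat_lit 3) (nat_lit 0x54000) (nat_lit 0x1000100010000000000000000000000000000))) (.non (nat_lit 0) (nat_lit 3) (nat_lit 0x55000) (nat_lit 0x1000100010001000000000000000000000000))) (.non (nat_lit 0) (nat_lit 3) (nat_lit 0x55400) (nat_lit 0x1000100010001000100000000000000000000))) (.non (nat_lit 0) (nat_lit 3) (nat_lit 0x55500) (nat_lit 0x1000100010001000100010000000000000000))) (.non (nat_lit 0) (nat_lit 5) (nat_lit 0x54140) (nat_lit 0x3000200010000000000030004000000000000))) (.non (nat_lit 0) (nat_lit 3) (nat_lit 0xc0034) (nat_lit 0x1000000000000000000000000000200030000))) (.non (nat_lit 0) (nat_lit 3) (nat_lit 0x40034) (nat_lit 0x1000000000000000000000000000100020000))) (.non (nat_lit 1) (nat_lit 3) (nat_lit 0x55001) (nat_lit 0x1000100010001000000000000000000000001))))))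

noncomputable def t237_3 : Tr := (.split (nat_lit 7) (nat_lit 6) (.pd (.cons (nat_lit 0) (nat_lit 5) (nat_lit 0x110) (nat_lit 0x66033120) (nat_lit 0xf423fb71ae00000f423f54591000010000100000) (.cons (nat_lit 0) (nat_lit 6) (nat_lit 0x110) (nat_lit 0x70433120) (nat_lit 0xf423f00000f423fb71ae1f156000010000100000) (.cons (nat_lit 0) (nat_lit 7) (nat_lit 0x110) (nat_lit 0x5433120) (nat_lit 0xf423fb71aea2c2804737000010000100000) (.cons (nat_lit 1) (nat_lit 5) (nat_lit 0) (nat_lit 0x60033200) (nat_lit 0xf423fb71ae00000f423f54591f423f00000a2c28) (.cons (nat_lit 1) (nat_lit 6) (nat_lit 0) (nat_lit 0x70433200) (nat_lit 0xf423f00000f423fb71ae1f156f423f00000f423f) (.cons (nat_lit 2) (nat_lit 6) (nat_lit 0) (nat_lit 0x70433000) (nat_lit 0xf423f00000f423fb71ae1f15600000f423f7a11e) .nil)))))) (.ex (nat_lit 7) (.pd (.cons (nat_lit 2) (nat_lit 5) (nat_lit 0) (nat_lit 0x60033000) (nat_lit 0xf423fb71ae00000f423f5459100000f423f28b07) .nil) (.leaf (.cons (nat_lit 0x1541) (nat_lit 0x2000300040003000000000001) (.cons (nat_lit 0x5409)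 (nat_lit 0x10002000100000000000000010002) .nil)) (.cons (nat_lit 0x11110001) (nat_lit 0x1010) (nat_lit 8) (nat_lit 0x20340001) (.cons (nat_lit 0x11100001) (nat_lit 0x10010) (nat_lit 7) (nat_lit 0x30200001) .nil)))) (.split (nat_lit 8) (nat_lit 0) (.split (nat_lit 8) (nat_lit 1) (.split (nat_lit 8) (nat_lit 2) (.split (nat_lit 8) (nat_lit 3) (.split (nat_lit 8) (nat_lit 4) (.split (nat_lit 8) (nat_lit 5) (.split (nat_lit 8) (nat_lit 6) (.st (nat_lit 7) (nat_lit 1) (nat_lit 3) (nat_lit 0x15401) (nat_lit 0x100020002000100000000000000000001) (nat_lit 1) (nat_lit 1) (.split (nat_lit 8) (nat_lit 7) (.pd (.cons (nat_lit 2) (nat_lit 5) (nat_lit 0) (nat_lit 0x760033000) (nat_lit 0xf423fb71aea2c2800000f423f5459100000f423f1e844) .nil) t237_2) (.non (nat_lit 1) (nat_lit 3) (nat_lit 0x25401) (nat_lit 0x100020002000100000000000000000001)))) (.non (nat_lit 0) (nat_lit 3) (nat_lit 0x15000) (nat_lit 0x100010001000000000000000000000000))) (.non (nat_lit 0) (nat_lit 3) (nat_lit 0x15400) (nat_lit 0x100010001000100000000000000000000)))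 (.non (nat_lit 0) (nat_lit 3) (nat_lit 0x15500) (nat_lit 0x100010001000100010000000000000000))) (.non (nat_lit 0) (nat_lit 5) (nat_lit 0x15140) (nat_lit 0x300020001000000030004000000000000))) (.non (nat_lit 0) (nat_lit 3) (nat_lit 0x15014) (nat_lit 0x300020001000000000000000400030000))) (.non (nat_lit 0) (nat_lit 3) (nat_lit 0x15014) (nat_lit 0x300020001000000000000000300040000))) (.non (nat_lit 1) (nat_lit 3) (nat_lit 0x15001) (nat_lit 0x100010001000000000000000000000001))))) (.non (nat_lit 1) (nat_lit 3) (nat_lit 0x9401) (nat_lit 0x10002000100000000000000000001)))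

noncomputable def t237_4 : Tr := (.ex (nat_lit 1) (.ex (nat_lit 3) (.ex (nat_lit 4) (.split (nat_lit 6) (nat_lit 0) t237_3 (.non (nat_lit 1) (nat_lit 3) (nat_lit 0xa801) (nat_lit 0x10002000100000000000000000002))) (.split (nat_lit 8) (nat_lit 0) (.split (nat_lit 8) (nat_lit 1) (.split (nat_lit 8) (nat_lit 2) (.split (nat_lit 8) (nat_lit 5) (.split (nat_lit 8) (nat_lit 6) (.split (nat_lit 8) (nat_lit 7) (.split (nat_lit 8) (nat_lit 3) (.unj (nat_lit 0x15) (nat_lit 0x100010001) (nat_lit 0x10540) (nat_lit 0x100000000000100020002000000000000)) (.unj (nat_lit 0x15) (nat_lit 0x100010001) (nat_lit 0x10140) (nat_lit 0x100000000000000010001000000000000))) (.non (nat_lit 0) (nat_lit 3) (nat_lit 0x15500) (nat_lit 0x100010001000100010000000000000000))) (.non (nat_lit 0) (nat_lit 3) (nat_lit 0x11500) (nat_lit 0x100000001000100010000000000000000))) (.non (nat_lit 0) (nat_lit 3) (nat_lit 0x10500) (nat_lit 0x100000000000100010000000000000000))) (.non (nat_lit 0) (nat_lit 3) (nat_lit 0x10514) (nat_lit 0x300000000000100020000000400030000)))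 (.star (nat_lit 8) (nat_lit 1) (nat_lit 4))) (.star (nat_lit 8) (nat_lit 0) (nat_lit 4)))) (.split (nat_lit 8) (nat_lit 0) (.split (nat_lit 8) (nat_lit 1) (.split (nat_lit 8) (nat_lit 5) (.split (nat_lit 8) (nat_lit 6) (.split (nat_lit 8) (nat_lit 2) (.split (nat_lit 8) (nat_lit 4) (.split (nat_lit 8) (nat_lit 7) (.unj (nat_lit 0x15) (nat_lit 0x100010001) (nat_lit 0x10540) (nat_lit 0x100000000000100020002000000000000)) (.unj (nat_lit 0x15) (nat_lit 0x100010001) (nat_lit 0x10540) (nat_lit 0x100000000000100020002000000000000))) (.split (nat_lit 8) (nat_lit 7) (.unj (nat_lit 0x15) (nat_lit 0x100010001) (nat_lit 0x10140) (nat_lit 0x100000000000000010001000000000000)) (.non (nat_lit 0) (nat_lit 3) (nat_lit 0x15500) (nat_lit 0x100010001000100010000000000000000)))) (.split (nat_lit 8) (nat_lit 4) (.split (nat_lit 8) (nat_lit 7) (.split (nat_lit 8) (nat_lit 2) (.sup (nat_lit 0x6000a0007) (nat_lit 0x2000000000005000a0009000000000000)) (.non (nat_lit 0) (nat_lit 3) (nat_lit 0x10014) (nat_lit 0x100000000000000000000000100010000)))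 (.non (nat_lit 0) (nat_lit 3) (nat_lit 0x15014) (nat_lit 0x300020001000000000000000400030000))) (.non (nat_lit 0) (nat_lit 3) (nat_lit 0x10514) (nat_lit 0x300000000000100020000000400030000)))) (.non (nat_lit 1) (nat_lit 3) (nat_lit 0x15401) (nat_lit 0x100010002000100000000000000000001))) (.non (nat_lit 1) (nat_lit 3) (nat_lit 0x15501) (nat_lit 0x100010002000200010000000000000001))) (.star (nat_lit 8) (nat_lit 1) (nat_lit 3))) (.star (nat_lit 8) (nat_lit 0) (nat_lit 3)))) (.split (nat_lit 8) (nat_lit 2) (.split (nat_lit 8) (nat_lit 3) (.split (nat_lit 8) (nat_lit 4) (.split (nat_lit 8) (nat_lit 5) (.split (nat_lit 8) (nat_lit 6) (.split (nat_lit 8) (nat_lit 7) (.split (nat_lit 8) (nat_lit 0) (.split (nat_lit 8) (nat_lit 1) (.split (nat_lit 7) (nat_lit 6) (.split (nat_lit 6) (nat_lit 0) (.sup (nat_lit 0x30007000b0010000d000000000000) (nat_lit 0x300000000000000000000000500060001)) (.non (nat_lit 1) (nat_lit 3) (nat_lit 0xa801) (nat_lit 0x10002000100000000000000000002))) (.non (nat_lit 1) (nat_lit 3) (nat_lit 0x9401)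 (nat_lit 0x10002000100000000000000000001))) (.non (nat_lit 0) (nat_lit 3) (nat_lit 0x10014) (nat_lit 0x100000000000000000000000100010000))) (.sup (nat_lit 0x7000e00170020001a000000000000) (nat_lit 0x500000000000000000000000700080001))) (.non (nat_lit 0) (nat_lit 3) (nat_lit 0x15014) (nat_lit 0x300020001000000000000000300040000))) (.non (nat_lit 0) (nat_lit 3) (nat_lit 0x15014) (nat_lit 0x300010002000000000000000300040000))) (.non (nat_lit 0) (nat_lit 3) (nat_lit 0x11414) (nat_lit 0x300000001000200000000000300040000))) (.star (nat_lit 8) (nat_lit 1) (nat_lit 4))) (.star (nat_lit 8) (nat_lit 1) (nat_lit 3))) (.non (nat_lit 0) (nat_lit 3) (nat_lit 0x10014) (nat_lit 0x100000000000000000000000100010000))))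

noncomputable def t237_5 : Tr := (.ex (nat_lit 9) (.split (nat_lit 9) (nat_lit 8) (.pd (.cons (nat_lit 2) (nat_lit 6) (nat_lit 0) (nat_lit 0x8070433000) (nat_lit 0xf423fb71aef423f00000f423fb71ae1f15600000f423f28b07) .nil) (.leaf (.cons (nat_lit 0x1541) (nat_lit 0x2000300040003000000000001) (.cons (nat_lit 0x11009) (nat_lit 0x100000001000000000000000000010002) .nil)) (.cons (nat_lit 0x1111000001) (nat_lit 0x100010) (nat_lit 3) (nat_lit 0x4301000002) .nil))) (.non (nat_lit 1) (nat_lit 3) (nat_lit 0x95401) (nat_lit 0x1000200010002000100000000000000000002))) (.split (nat_lit 0xa) (nat_lit 0) (.split (nat_lit 0xa) (nat_lit 1) (.split (nat_lit 0xa) (nat_lit 2) (.split (nat_lit 0xa) (nat_lit 3) (.split (nat_lit 0xa) (nat_lit 4) (.split (nat_lit 0xa) (nat_lit 5) (.split (nat_lit 0xa) (nat_lit 6) (.split (nat_lit 0xa) (nat_lit 7) (.split (nat_lit 0xa) (nat_lit 8) (.st (nat_lit 9) (nat_lit 1) (nat_lit 3) (nat_lit 0x155401) (nat_lit 0x10002000200010002000100000000000000000002) (nat_lit 1) (nat_lit 1) (.split (nat_lit 9)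 (nat_lit 8) (.split (nat_lit 0xa) (nat_lit 9) (.pd (.cons (nat_lit 2) (nat_lit 6) (nat_lit 0) (nat_lit 0x98070433000) (nat_lit 0xf423fb71aea2c28f423f00000f423fb71ae1f15600000f423f1e844) .nil) (.st (nat_lit 0xa) (nat_lit 1) (nat_lit 3) (nat_lit 0x155501) (nat_lit 0x20003000400030006000400020000000000000005) (nat_lit 1) (nat_lit 1) (.leaf (.cons (nat_lit 0x1541) (nat_lit 0x2000300040003000000000001) (.cons (nat_lit 0x11009) (nat_lit 0x100000001000000000000000000010002) .nil)) (.cons (nat_lit 0x11111110001) (nat_lit 0x1010) (nat_lit 0xe) (nat_lit 0x76510230004) (.cons (nat_lit 0x11111100001) (nat_lit 0x10010) (nat_lit 0xa) (nat_lit 0x65420100003) .nil))))) (.non (nat_lit 1) (nat_lit 3) (nat_lit 0x255401) (nat_lit 0x10002000200010002000100000000000000000002))) (.non (nat_lit 1) (nat_lit 3) (nat_lit 0x291001) (nat_lit 0x10002000300000001000000000000000000000002)))) (.non (nat_lit 0) (nat_lit 3) (nat_lit 0x150000) (nat_lit 0x10001000100000000000000000000000000000000))) (.non (nat_lit 1) (nat_lit 3) (nat_lit 0x155001)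 (nat_lit 0x10001000100010001000000000000000000000001))) (.non (nat_lit 1) (nat_lit 3) (nat_lit 0x151001) (nat_lit 0x10001000100000001000000000000000000000001))) (.non (nat_lit 1) (nat_lit 3) (nat_lit 0x151401) (nat_lit 0x10001000100000001000100000000000000000001))) (.non (nat_lit 1) (nat_lit 3) (nat_lit 0x151501) (nat_lit 0x10001000100000001000100010000000000000001))) (.non (nat_lit 0) (nat_lit 5) (nat_lit 0x150140) (nat_lit 0x30002000100000000000000030004000000000000))) (.non (nat_lit 0) (nat_lit 3) (nat_lit 0x150014) (nat_lit 0x30002000100000000000000000000000400030000))) (.non (nat_lit 0) (nat_lit 3) (nat_lit 0x150014) (nat_lit 0x30002000100000000000000000000000300040000))) (.non (nat_lit 1) (nat_lit 3) (nat_lit 0x150001) (nat_lit 0x10001000100000000000000000000000000000001))))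

noncomputable def t237_6 : Tr := (.split (nat_lit 8) (nat_lit 0) (.split (nat_lit 7) (nat_lit 6) (.pd (.cons (nat_lit 0) (nat_lit 5) (nat_lit 0x110) (nat_lit 0x866033120) (nat_lit 0xf423ff423fb71ae00000f423f54591000010000100000) (.cons (nat_lit 0) (nat_lit 6) (nat_lit 0x110) (nat_lit 0x870433120) (nat_lit 0xf423ff423f00000f423fb71ae1f156000010000100000) (.cons (nat_lit 0) (nat_lit 7) (nat_lit 0x110) (nat_lit 0x805433120) (nat_lit 0xf423f00000f423fb71aea2c2804737000010000100000) (.cons (nat_lit 1) (nat_lit 5) (nat_lit 0) (nat_lit 0x60033200) (nat_lit 0xf423ff423fb71ae00000f423f54591f423f0000065b97) (.cons (nat_lit 1) (nat_lit 6) (nat_lit 0) (nat_lit 0x70433200) (nat_lit 0xf423ff423f00000f423fb71ae1f156f423f00000b71ae) .nil))))) (.ex (nat_lit 8) (.pd (.cons (nat_lit 2) (nat_lit 6) (nat_lit 0) (nat_lit 0x70433000) (nat_lit 0xf423ff423f00000f423fb71ae1f15600000f423f3d08d) .nil) (.leaf (.cons (nat_lit 0x1541) (nat_lit 0x2000300040003000000000001) (.cons (nat_lit 0x11009) (nat_lit 0x100000001000000000000000000010002)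 .nil)) (.cons (nat_lit 0x111000001) (nat_lit 0x100010) (nat_lit 2) (nat_lit 0x301000002) .nil))) (.split (nat_lit 9) (nat_lit 0) (.split (nat_lit 9) (nat_lit 3) (.split (nat_lit 9) (nat_lit 4) (.split (nat_lit 9) (nat_lit 5) (.split (nat_lit 9) (nat_lit 6) (.split (nat_lit 9) (nat_lit 7) (.split (nat_lit 9) (nat_lit 1) (.split (nat_lit 9) (nat_lit 2) (.st (nat_lit 8) (nat_lit 1) (nat_lit 3) (nat_lit 0x55401) (nat_lit 0x1000200010002000100000000000000000002) (nat_lit 1) (nat_lit 1) t237_5) (.sup (nat_lit 0xf001e002e00400033000000000000) (nat_lit 0xe000700000000000000000000001500110001))) (.split (nat_lit 9) (nat_lit 2) (.sup (nat_lit 0xf001e002e00400033000000000000) (nat_lit 0xc000600000000000000000000000e00120001)) (.non (nat_lit 0) (nat_lit 3) (nat_lit 0x40014) (nat_lit 0x1000000000000000000000000000100010000)))) (.non (nat_lit 1) (nat_lit 3) (nat_lit 0x55001) (nat_lit 0x1000100010001000000000000000000000001))) (.non (nat_lit 1) (nat_lit 3) (nat_lit 0x51001) (nat_lit 0x1000100000001000000000000000000000001)))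 (.non (nat_lit 1) (nat_lit 3) (nat_lit 0x51401) (nat_lit 0x1000100000001000100000000000000000001))) (.non (nat_lit 1) (nat_lit 3) (nat_lit 0x51501) (nat_lit 0x1000100000001000100010000000000000001))) (.non (nat_lit 0) (nat_lit 6) (nat_lit 0x40540) (nat_lit 0x1000000000000000100020002000000000000))) (.non (nat_lit 1) (nat_lit 3) (nat_lit 0x50001) (nat_lit 0x1000100000000000000000000000000000001))))) (.non (nat_lit 1) (nat_lit 3) (nat_lit 0x9401) (nat_lit 0x10002000100000000000000000001))) (.non (nat_lit 1) (nat_lit 3) (nat_lit 0x25401) (nat_lit 0x100010002000100000000000000000002)))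

noncomputable def t237_7 : Tr := (.ex (nat_lit 3) (.ex (nat_lit 4) (.split (nat_lit 6) (nat_lit 0) t237_6 (.non (nat_lit 1) (nat_lit 3) (nat_lit 0xa801) (nat_lit 0x10002000100000000000000000002))) (.split (nat_lit 9) (nat_lit 0) (.split (nat_lit 9) (nat_lit 1) (.split (nat_lit 9) (nat_lit 2) (.split (nat_lit 9) (nat_lit 5) (.split (nat_lit 9) (nat_lit 6) (.split (nat_lit 9) (nat_lit 7) (.split (nat_lit 9) (nat_lit 8) (.split (nat_lit 9) (nat_lit 3) (.unj (nat_lit 0x15) (nat_lit 0x100010001) (nat_lit 0x40540) (nat_lit 0x1000000000000000100020002000000000000)) (.unj (nat_lit 0x15) (nat_lit 0x100010001) (nat_lit 0x40140) (nat_lit 0x1000000000000000000010001000000000000))) (.non (nat_lit 1) (nat_lit 3) (nat_lit 0x51501) (nat_lit 0x1000100000001000100010000000000000001))) (.non (nat_lit 0) (nat_lit 3) (nat_lit 0x45500) (nat_lit 0x1000000010001000100010000000000000000))) (.non (nat_lit 0) (nat_lit 3) (nat_lit 0x41500) (nat_lit 0x1000000000001000100010000000000000000))) (.non (nat_lit 0) (nat_lit 3) (nat_lit 0x40500)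 (nat_lit 0x1000000000000000100010000000000000000))) (.non (nat_lit 0) (nat_lit 3) (nat_lit 0x40514) (nat_lit 0x3000000000000000100020000000400030000))) (.star (nat_lit 9) (nat_lit 1) (nat_lit 4))) (.star (nat_lit 9) (nat_lit 0) (nat_lit 4)))) (.split (nat_lit 9) (nat_lit 0) (.split (nat_lit 9) (nat_lit 1) (.split (nat_lit 9) (nat_lit 5) (.split (nat_lit 9) (nat_lit 6) (.split (nat_lit 9) (nat_lit 7) (.split (nat_lit 9) (nat_lit 2) (.split (nat_lit 9) (nat_lit 4) (.split (nat_lit 9) (nat_lit 8) (.unj (nat_lit 0x15) (nat_lit 0x100010001) (nat_lit 0x40540) (nat_lit 0x1000000000000000100020002000000000000)) (.unj (nat_lit 0x15) (nat_lit 0x100010001) (nat_lit 0x40540) (nat_lit 0x1000000000000000100020002000000000000))) (.split (nat_lit 9) (nat_lit 8) (.unj (nat_lit 0x15) (nat_lit 0x100010001) (nat_lit 0x40140) (nat_lit 0x1000000000000000000010001000000000000)) (.non (nat_lit 1) (nat_lit 3) (nat_lit 0x51501) (nat_lit 0x1000100000001000100010000000000000001)))) (.split (nat_lit 9) (nat_lit 4) (.split (nat_lit 9) (nat_lit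 8) (.split (nat_lit 9) (nat_lit 2) (.sup (nat_lit 0x6000a0007) (nat_lit 0x20000000000000005000a0009000000000000)) (.non (nat_lit 0) (nat_lit 3) (nat_lit 0x40014) (nat_lit 0x1000000000000000000000000000100010000))) (.non (nat_lit 0) (nat_lit 4) (nat_lit 0x50054) (nat_lit 0x2000100000000000000000001000200020000))) (.non (nat_lit 0) (nat_lit 3) (nat_lit 0x40514) (nat_lit 0x3000000000000000100020000000400030000)))) (.non (nat_lit 1) (nat_lit 3) (nat_lit 0x55501) (nat_lit 0x1000100020003000200010000000000000002))) (.non (nat_lit 1) (nat_lit 3) (nat_lit 0x45401) (nat_lit 0x1000000010002000100000000000000000001))) (.non (nat_lit 1) (nat_lit 3) (nat_lit 0x45501) (nat_lit 0x1000000010002000200010000000000000001))) (.star (nat_lit 9) (nat_lit 1) (nat_lit 3))) (.star (nat_lit 9) (nat_lit 0) (nat_lit 3))))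

noncomputable def t237_8 : Tr := (.split (nat_lit 8) (nat_lit 1) (.split (nat_lit 8) (nat_lit 2) (.st (nat_lit 0) (nat_lit 1) (nat_lit 3) (nat_lit 0x15401) (nat_lit 0x100010002000100000000000000000002) (nat_lit 1) (nat_lit 1) (.st (nat_lit 7) (nat_lit 1) (nat_lit 3) (nat_lit 0x15501) (nat_lit 0x100020003000200010000000000000002) (nat_lit 1) (nat_lit 1) (.ex (nat_lit 1) t237_7 (.split (nat_lit 9) (nat_lit 0) (.split (nat_lit 9) (nat_lit 2) (.split (nat_lit 9) (nat_lit 3) (.split (nat_lit 9) (nat_lit 4) (.split (nat_lit 9) (nat_lit 5) (.split (nat_lit 9) (nat_lit 6) (.split (nat_lit 9) (nat_lit 7) (.split (nat_lit 9) (nat_lit 8) (.split (nat_lit 9) (nat_lit 1) (.split (nat_lit 8) (nat_lit 0) (.split (nat_lit 7) (nat_lit 6) (.split (nat_lit 6) (nat_lit 0) (.sup (nat_lit 0x30007000b0010000d000000000000) (nat_lit 0x3000000000000000000000000000500060001)) (.non (nat_lit 1) (nat_lit 3) (nat_lit 0xa801) (nat_lit 0x10002000100000000000000000002))) (.non (nat_lit 1) (nat_lit 3) (nat_lit 0x9401) (nat_lit 0x10002000100000000000000000001)))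 (.non (nat_lit 1) (nat_lit 3) (nat_lit 0x25401) (nat_lit 0x100010002000100000000000000000002))) (.non (nat_lit 0) (nat_lit 3) (nat_lit 0x40014) (nat_lit 0x1000000000000000000000000000100010000))) (.sup (nat_lit 0xf001e002e00400033000000000000) (nat_lit 0xc000600000000000000000000000e00120001))) (.non (nat_lit 0) (nat_lit 3) (nat_lit 0x45014) (nat_lit 0x3000000020001000000000000000300040000))) (.non (nat_lit 0) (nat_lit 3) (nat_lit 0x45014) (nat_lit 0x3000000010002000000000000000300040000))) (.non (nat_lit 0) (nat_lit 3) (nat_lit 0x41414) (nat_lit 0x3000000000001000200000000000300040000))) (.star (nat_lit 9) (nat_lit 1) (nat_lit 4))) (.star (nat_lit 9) (nat_lit 1) (nat_lit 3))) (.non (nat_lit 0) (nat_lit 3) (nat_lit 0x40014) (nat_lit 0x1000000000000000000000000000100010000))) (.non (nat_lit 1) (nat_lit 3) (nat_lit 0x55401) (nat_lit 0x1000100010002000100000000000000000002)))))) (.split (nat_lit 8) (nat_lit 0) (.split (nat_lit 8) (nat_lit 2) (.split (nat_lit 7) (nat_lit 6) (.split (nat_lit 6) (nat_lit 0) (.sup (nat_lit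 0x40007000b0010000d000000000000) (nat_lit 0x300000000000000000000000500040001)) (.non (nat_lit 1) (nat_lit 3) (nat_lit 0xa801) (nat_lit 0x10002000100000000000000000002))) (.non (nat_lit 1) (nat_lit 3) (nat_lit 0x9401) (nat_lit 0x10002000100000000000000000001))) (.non (nat_lit 0) (nat_lit 3) (nat_lit 0x10014) (nat_lit 0x100000000000000000000000100010000))) (.non (nat_lit 1) (nat_lit 3) (nat_lit 0x25401) (nat_lit 0x100010002000100000000000000000002)))) (.split (nat_lit 8) (nat_lit 2) (.sup (nat_lit 0x7000e00170020001a000000000000) (nat_lit 0x500000000000000000000000700080001)) (.non (nat_lit 0) (nat_lit 3) (nat_lit 0x10014) (nat_lit 0x100000000000000000000000100010000))))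

noncomputable def t237 : Tr := (.split (nat_lit 7) (nat_lit 1) (.split (nat_lit 7) (nat_lit 2) (.split (nat_lit 6) (nat_lit 1) (.split (nat_lit 6) (nat_lit 2) (.split (nat_lit 5) (nat_lit 2) (.split (nat_lit 7) (nat_lit 0) (.split (nat_lit 6) (nat_lit 0) .uj (.st (nat_lit 5) (nat_lit 1) (nat_lit 3) (nat_lit 0x5501) (nat_lit 0x10002000200010000000000000001) (nat_lit 1) (nat_lit 1) (.st (nat_lit 6) (nat_lit 1) (nat_lit 3) (nat_lit 0x5401) (nat_lit 0x10002000100000000000000000001) (nat_lit 1) (nat_lit 1) (.ex (nat_lit 0) t237_4 (.split (nat_lit 8) (nat_lit 3) (.split (nat_lit 8) (nat_lit 4) (.split (nat_lit 8) (nat_lit 5) (.split (nat_lit 8) (nat_lit 6) (.split (nat_lit 8) (nat_lit 7) t237_8 (.non (nat_lit 1) (nat_lit 3) (nat_lit 0x15001) (nat_lit 0x100010001000000000000000000000001))) (.non (nat_lit 1) (nat_lit 3) (nat_lit 0x11001) (nat_lit 0x100000001000000000000000000000001))) (.non (nat_lit 1) (nat_lit 3) (nat_lit 0x11401) (nat_lit 0x100000001000100000000000000000001))) (.star (nat_lit 8) (nat_lit 0) (nat_lit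 4))) (.star (nat_lit 8) (nat_lit 0) (nat_lit 3))))))) (.split (nat_lit 6) (nat_lit 0) (.split (nat_lit 7) (nat_lit 0) (.sup (nat_lit 0x8000a0005) (nat_lit 0x100040007000a0008000000000000)) (.split (nat_lit 7) (nat_lit 0) (.sup (nat_lit 0x8000a0005) (nat_lit 0x100040007000a0008000000000000)) (.non (nat_lit 1) (nat_lit 3) (nat_lit 0x5501) (nat_lit 0x40003000200010000000000000003)))) (.non (nat_lit 1) (nat_lit 3) (nat_lit 0x5001) (nat_lit 0x10001000000000000000000000001)))) (.non (nat_lit 0) (nat_lit 3) (nat_lit 0x5414) (nat_lit 0x10002000300000000000400030000))) (.non (nat_lit 0) (nat_lit 3) (nat_lit 0x5414) (nat_lit 0x10002000100000000000200020000))) (.non (nat_lit 0) (nat_lit 3) (nat_lit 0x5414) (nat_lit 0x10002000100000000000200020000))) (.non (nat_lit 0) (nat_lit 3) (nat_lit 0x5414) (nat_lit 0x30002000100000000000400030000))) (.non (nat_lit 0) (nat_lit 3) (nat_lit 0x5414) (nat_lit 0x30002000100000000000300040000)))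

noncomputable def t274_1 : Tr := (.st (nat_lit 4) (nat_lit 0) (nat_lit 5) (nat_lit 0x154) (nat_lit 0x20003000300040000) (nat_lit 1) (nat_lit 1) (.ex (nat_lit 5) (.pd (.cons (nat_lit 1) (nat_lit 6) (nat_lit 0) (nat_lit 0x433200) (nat_lit 0xf423f54591437a2f423f00000f423f) .nil) (.ex (nat_lit 6) (.pd (.cons (nat_lit 0) (nat_lit 3) (nat_lit 0x110) (nat_lit 0x5440120) (nat_lit 0xf423fb71ae1f15600000000010000100000) (.cons (nat_lit 1) (nat_lit 3) (nat_lit 0) (nat_lit 0x5440200) (nat_lit 0xf423fb71ae1f15600000f423f00000f423f) (.cons (nat_lit 2) (nat_lit 3) (nat_lit 0) (nat_lit 0x5440000) (nat_lit 0xf423fb71ae1f1560000000000f423f7a11e) .nil))) (.leaf (.cons (nat_lit 0x554) (nat_lit 0x100010001000100010000) (.cons (nat_lit 0x545) (nat_lit 0x100010001000000010001) .nil)) .nil)) (.split (nat_lit 7) (nat_lit 0) (.split (nat_lit 7) (nat_lit 1) (.split (nat_lit 7) (nat_lit 2) (.split (nat_lit 7) (nat_lit 3) (.split (nat_lit 7) (nat_lit 4) (.split (nat_lit 7) (nat_lit 5) (.split (nat_lit 7) (nat_lit 6) (.split (nat_lit 3) (nat_lit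 1) (.sup (nat_lit 0x30005000800070001000000000000) (nat_lit 0x400050003)) (.non (nat_lit 0) (nat_lit 4) (nat_lit 0x54) (nat_lit 0x1000100010000))) (.unj (nat_lit 0x15) (nat_lit 0x100010001) (nat_lit 0x5500) (nat_lit 0x10001000100010000000000000000))) (.non (nat_lit 0) (nat_lit 4) (nat_lit 0x5400) (nat_lit 0x10001000100000000000000000000))) (.non (nat_lit 0) (nat_lit 5) (nat_lit 0x4154) (nat_lit 0x10000000000020003000300040000))) (.non (nat_lit 0) (nat_lit 4) (nat_lit 0x5054) (nat_lit 0x20001000000000003000300040000))) (.non (nat_lit 0) (nat_lit 4) (nat_lit 0x5414) (nat_lit 0x30002000100000000000400030000))) (.non (nat_lit 0) (nat_lit 4) (nat_lit 0x5414) (nat_lit 0x30002000100000000000300040000))) (.non (nat_lit 2) (nat_lit 4) (nat_lit 0x5089) (nat_lit 0x20001000000000001000000020003))))) (.split (nat_lit 7) (nat_lit 0) (.split (nat_lit 7) (nat_lit 1) (.split (nat_lit 7) (nat_lit 2) (.split (nat_lit 7) (nat_lit 3) (.split (nat_lit 7) (nat_lit 4) (.split (nat_lit 7) (nat_lit 6) (.unj (nat_lit 0x15) (nat_lit 0x100010001)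 (nat_lit 0x5500) (nat_lit 0x10001000200020000000000000000)) (.non (nat_lit 0) (nat_lit 4) (nat_lit 0x5400) (nat_lit 0x10001000100000000000000000000))) (.non (nat_lit 0) (nat_lit 5) (nat_lit 0x4154) (nat_lit 0x10000000000020003000300040000))) (.non (nat_lit 0) (nat_lit 4) (nat_lit 0x4454) (nat_lit 0x20000000100000003000300040000))) (.star (nat_lit 7) (nat_lit 2) (nat_lit 5))) (.non (nat_lit 0) (nat_lit 4) (nat_lit 0x5414) (nat_lit 0x30001000200000000000300040000))) (.star (nat_lit 7) (nat_lit 0) (nat_lit 5)))))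

noncomputable def t274_2 : Tr := (.st (nat_lit 6) (nat_lit 0) (nat_lit 4) (nat_lit 0x1414) (nat_lit 0x2000100000000000200020000) (nat_lit 1) (nat_lit 1) (.ex (nat_lit 3) (.ex (nat_lit 4) (.pd (.cons (nat_lit 0) (nat_lit 6) (nat_lit 0x110) (nat_lit 0x433120) (nat_lit 0xf423f54591437a2000010000100000) (.cons (nat_lit 1) (nat_lit 3) (nat_lit 0) (nat_lit 0x5440200) (nat_lit 0xf423fb71ae1f15600000f423f00000f423f) (.cons (nat_lit 1) (nat_lit 6) (nat_lit 0) (nat_lit 0x433200) (nat_lit 0xf423f54591437a2f423f00000f423f) (.cons (nat_lit 2) (nat_lit 6) (nat_lit 0) (nat_lit 0x433000) (nat_lit 0xf423f54591437a200000f423f7a11e) .nil)))) (.leaf (.cons (nat_lit 0x1514) (nat_lit 0x1000100010000000100010000) (.cons (nat_lit 0x1505) (nat_lit 0x1000100010000000000010001) .nil)) .nil)) (.split (nat_lit 7) (nat_lit 0) (.split (nat_lit 7) (nat_lit 1) (.split (nat_lit 7) (nat_lit 2) (.split (nat_lit 7) (nat_lit 3) (.split (nat_lit 7) (nat_lit 5) (.split (nat_lit 7) (nat_lit 6) (.unj (nat_lit 0x15) (nat_lit 0x100010001) (nat_lit 0x4540)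 (nat_lit 0x10000000200020001000000000000)) (.non (nat_lit 0) (nat_lit 4) (nat_lit 0x5414) (nat_lit 0x10002000100000000000200020000))) (.non (nat_lit 0) (nat_lit 4) (nat_lit 0x5414) (nat_lit 0x10003000200000000000300040000))) (.non (nat_lit 0) (nat_lit 5) (nat_lit 0x4140) (nat_lit 0x10000000000010001000000000000))) (.star (nat_lit 7) (nat_lit 2) (nat_lit 4))) (.non (nat_lit 0) (nat_lit 4) (nat_lit 0x5014) (nat_lit 0x10001000000000000000200020000))) (.star (nat_lit 7) (nat_lit 0) (nat_lit 4)))) (.split (nat_lit 7) (nat_lit 0) (.split (nat_lit 7) (nat_lit 1) (.split (nat_lit 7) (nat_lit 2) (.split (nat_lit 7) (nat_lit 4) (.split (nat_lit 7) (nat_lit 5) (.split (nat_lit 7) (nat_lit 6) (.split (nat_lit 7) (nat_lit 3) (.split (nat_lit 6) (nat_lit 1) (.sup (nat_lit 0x30001000700080005000000000000) (nat_lit 0x400050003)) (.non (nat_lit 0) (nat_lit 4) (nat_lit 0x1014) (nat_lit 0x1000000000000000100010000))) (.unj (nat_lit 0x15) (nat_lit 0x100010001) (nat_lit 0x4540) (nat_lit 0x10000000100010001000000000000))) (.non (nat_lit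 0) (nat_lit 4) (nat_lit 0x5414) (nat_lit 0x10002000100000000000200020000))) (.non (nat_lit 0) (nat_lit 4) (nat_lit 0x5414) (nat_lit 0x10003000200000000000300040000))) (.non (nat_lit 0) (nat_lit 5) (nat_lit 0x4140) (nat_lit 0x10000000000010001000000000000))) (.non (nat_lit 0) (nat_lit 4) (nat_lit 0x5014) (nat_lit 0x10001000000000000000200020000))) (.non (nat_lit 0) (nat_lit 4) (nat_lit 0x5014) (nat_lit 0x10001000000000000000200020000))) (.non (nat_lit 2) (nat_lit 4) (nat_lit 0x6809) (nat_lit 0x20002000100000000000000030004)))))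

noncomputable def t274 : Tr := (.split (nat_lit 6) (nat_lit 1) (.split (nat_lit 3) (nat_lit 1) .uj (.st (nat_lit 0) (nat_lit 2) (nat_lit 5) (nat_lit 0x289) (nat_lit 0x10002000000030004) (nat_lit 1) (nat_lit 2) (.st (nat_lit 2) (nat_lit 0) (nat_lit 4) (nat_lit 0x54) (nat_lit 0x1000200020000) (nat_lit 1) (nat_lit 1) (.pd (.cons (nat_lit 1) (nat_lit 4) (nat_lit 0) (nat_lit 0x5503200) (nat_lit 0xf423fb71ae00000f423ff423f00000f423f) (.cons (nat_lit 1) (nat_lit 5) (nat_lit 0) (nat_lit 0x6033200) (nat_lit 0xf423f00000f423fb71aef423f00000f423f) .nil)) (.st (nat_lit 3) (nat_lit 0) (nat_lit 5) (nat_lit 0x154) (nat_lit 0x10002000200020000) (nat_lit 1) (nat_lit 1) t274_1))))) (.split (nat_lit 3) (nat_lit 1) (.st (nat_lit 0) (nat_lit 2) (nat_lit 4) (nat_lit 0x2809) (nat_lit 0x2000100000000000000030004) (nat_lit 1) (nat_lit 2) (.st (nat_lit 2) (nat_lit 0) (nat_lit 4) (nat_lit 0x1014) (nat_lit 0x1000000000000000200020000) (nat_lit 1) (nat_lit 1) (.pd (.cons (nat_lit 1) (nat_lit 4) (nat_lit 0) (nat_lit 0x5503200) (nat_lit 0xf423fb71ae00000f423ff423f00000f423f)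 (.cons (nat_lit 1) (nat_lit 5) (nat_lit 0) (nat_lit 0x6033200) (nat_lit 0xf423f00000f423fb71aef423f00000f423f) .nil)) (.st (nat_lit 5) (nat_lit 0) (nat_lit 4) (nat_lit 0x1414) (nat_lit 0x3000200000000000300040000) (nat_lit 1) (nat_lit 1) t274_2)))) (.non (nat_lit 0) (nat_lit 4) (nat_lit 0x1054) (nat_lit 0x1000000000001000200020000))))

noncomputable def t296_1 : Tr := (.pd (.cons (nat_lit 1) (nat_lit 5) (nat_lit 0x11000000) (nat_lit 0x67033200) (nat_lit 0x10000100000f423f54591f423f00000f423f) (.cons (nat_lit 1) (nat_lit 6) (nat_lit 0) (nat_lit 0x70433200) (nat_lit 0xf423f00000f423fb71ae1f156f423f00000f423f) .nil)) (.st (nat_lit 6) (nat_lit 0) (nat_lit 5) (nat_lit 0x5014) (nat_lit 0x30002000000000000000300040000) (nat_lit 1) (nat_lit 1) (.st (nat_lit 7) (nat_lit 0) (nat_lit 5) (nat_lit 0x5014) (nat_lit 0x20001000000000000000200020000) (nat_lit 1) (nat_lit 1) (.ex (nat_lit 5) (.split (nat_lit 7) (nat_lit 6) (.split (nat_lit 7) (nat_lit 1) (.pd (.cons (nat_lit 0) (nat_lit 7) (nat_lit 0x110) (nat_lit 0x5433120) (nat_lit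 0xf423fb71aea2c2804737000010000100000) (.cons (nat_lit 1) (nat_lit 3) (nat_lit 0) (nat_lit 0x65440200) (nat_lit 0xf423fb71aea2c289896500000f423f00000f423f) (.cons (nat_lit 1) (nat_lit 4) (nat_lit 0) (nat_lit 0x65503200) (nat_lit 0xf423fb71aea2c2800000f423ff423f00000f423f) (.cons (nat_lit 1) (nat_lit 7) (nat_lit 0) (nat_lit 0x5433200) (nat_lit 0xf423fb71aea2c2804737f423f00000f423f) (.cons (nat_lit 2) (nat_lit 3) (nat_lit 0) (nat_lit 0x17650000) (nat_lit 0x98965a2c28b71aef423f0000000000927bd28b05) (.cons (nat_lit 2) (nat_lit 4) (nat_lit 0) (nat_lit 0x17603000) (nat_lit 0xa2c28b71aef423f00000f423f000009896530d3b) (.cons (nat_lit 2) (nat_lit 7) (nat_lit 0) (nat_lit 0x5433000) (nat_lit 0xf423fb71aea2c280473700000f423f7a11e) .nil))))))) (.leaf (.cons (nat_lit 0x5414) (nat_lit 0x30002000100000000000300040000) .nil) (.cons (nat_lit 0x10000011) (nat_lit 0x1000100) (nat_lit 6) (nat_lit 0x20000010) .nil))) (.non (nat_lit 0) (nat_lit 5) (nat_lit 0x4014) (nat_lit 0x10000000000000000000100010000))) (.non (nat_lit 0) (nat_lit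 5) (nat_lit 0x5014) (nat_lit 0x10001000000000000000100010000))) (.split (nat_lit 8) (nat_lit 0) (.split (nat_lit 8) (nat_lit 1) (.split (nat_lit 8) (nat_lit 2) (.split (nat_lit 8) (nat_lit 3) (.split (nat_lit 8) (nat_lit 4) (.split (nat_lit 8) (nat_lit 6) (.split (nat_lit 8) (nat_lit 7) (.unj (nat_lit 0x15) (nat_lit 0x100010001) (nat_lit 0x11540) (nat_lit 0x100000001000200020002000000000000)) (.non (nat_lit 0) (nat_lit 5) (nat_lit 0x15014) (nat_lit 0x100020001000000000000000200020000))) (.non (nat_lit 0) (nat_lit 5) (nat_lit 0x15014) (nat_lit 0x100030002000000000000000300040000))) (.non (nat_lit 0) (nat_lit 6) (nat_lit 0x10500) (nat_lit 0x100000000000100010000000000000000))) (.non (nat_lit 0) (nat_lit 6) (nat_lit 0x10540) (nat_lit 0x100000000000100010001000000000000))) (.star (nat_lit 8) (nat_lit 2) (nat_lit 5))) (.non (nat_lit 0) (nat_lit 5) (nat_lit 0x14014) (nat_lit 0x100010000000000000000000200020000))) (.star (nat_lit 8) (nat_lit 0) (nat_lit 5)))))))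

noncomputable def t296 : Tr := (.split (nat_lit 7) (nat_lit 1) .uj (.st (nat_lit 0) (nat_lit 2) (nat_lit 5) (nat_lit 0xa009) (nat_lit 0x20001000000000000000000030004) (nat_lit 1) (nat_lit 2) (.st (nat_lit 1) (nat_lit 0) (nat_lit 5) (nat_lit 0x4014) (nat_lit 0x10000000000000000000200020000) (nat_lit 1) (nat_lit 1) (.st (nat_lit 2) (nat_lit 0) (nat_lit 5) (nat_lit 0x4014) (nat_lit 0x10000000000000000000200020000) (nat_lit 1) (nat_lit 1) t296_1))))

noncomputable def t327_1 : Tr := (.ex (nat_lit 1) (.ex (nat_lit 3) (.split (nat_lit 2) (nat_lit 1) (.split (nat_lit 6) (nat_lit 2) (.pd (.cons (nat_lit 0) (nat_lit 5) (nat_lit 0) (nat_lit 0x2033110) (nat_lit 0xf423f00000f423f54591b71ae1f15600000) (.cons (nat_lit 0) (nat_lit 6) (nat_lit 0) (nat_lit 0x433110) (nat_lit 0xf423fb71ae1f156f423f5459100000) (.cons (nat_lit 1) (nat_lit 5) (nat_lit 0) (nat_lit 0x2033200) (nat_lit 0xf423f00000f423f54591b71ae00000f423f) (.cons (nat_lit 1) (nat_lit 6) (nat_lit 0) (nat_lit 0x433200) (nat_lit 0xf423fb71ae1f156f423f00000f423f) (.cons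 (nat_lit 2) (nat_lit 5) (nat_lit 0) (nat_lit 0x6033000) (nat_lit 0xf423f00000f423f5459100000f423f7a11e) (.cons (nat_lit 2) (nat_lit 6) (nat_lit 0) (nat_lit 0x433000) (nat_lit 0xf423fb71ae1f15600000f423f7a11e) .nil)))))) (.leaf (.cons (nat_lit 0x1414) (nat_lit 0x1000100000000000100010000) .nil) (.cons (nat_lit 0x1000100) (nat_lit 0x100010) (nat_lit 0) (nat_lit 0x1000000) .nil))) (.non (nat_lit 1) (nat_lit 3) (nat_lit 0x2410) (nat_lit 0x1000100000000000100000000))) (.split (nat_lit 6) (nat_lit 2) (.sup (nat_lit 0x300050004) (nat_lit 0x1000300050004000000000000)) (.non (nat_lit 1) (nat_lit 3) (nat_lit 0x2410) (nat_lit 0x1000100000000000100000000)))) (.split (nat_lit 7) (nat_lit 1) (.split (nat_lit 7) (nat_lit 2) (.split (nat_lit 7) (nat_lit 4) (.split (nat_lit 7) (nat_lit 5) (.split (nat_lit 7) (nat_lit 6) (.split (nat_lit 7) (nat_lit 0) (.unj (nat_lit 0x15) (nat_lit 0x100010001) (nat_lit 0x4540) (nat_lit 0x10000000100020002000000000000)) (.split (nat_lit 7) (nat_lit 0) (.sup (nat_lit 0x8000a0005) (nat_lit 0x200000005000a0009000000000000))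 (.non (nat_lit 2) (nat_lit 3) (nat_lit 0x8009) (nat_lit 0x10000000000000000000000010002)))) (.non (nat_lit 1) (nat_lit 3) (nat_lit 0x5810) (nat_lit 0x10002000100000000000100000000))) (.non (nat_lit 1) (nat_lit 3) (nat_lit 0x6500) (nat_lit 0x10001000200010000000000000000))) (.non (nat_lit 1) (nat_lit 3) (nat_lit 0x9a10) (nat_lit 0x10004000300020000000200000000))) (.star (nat_lit 7) (nat_lit 2) (nat_lit 3))) (.star (nat_lit 7) (nat_lit 1) (nat_lit 3)))) (.split (nat_lit 7) (nat_lit 0) (.split (nat_lit 7) (nat_lit 2) (.split (nat_lit 7) (nat_lit 3) (.split (nat_lit 7) (nat_lit 4) (.split (nat_lit 7) (nat_lit 5) (.split (nat_lit 7) (nat_lit 6) (.split (nat_lit 7) (nat_lit 1) (.split (nat_lit 6) (nat_lit 2) (.sup (nat_lit 0x4000600080006000000000000) (nat_lit 0x20000000000000000000200040003)) (.non (nat_lit 1) (nat_lit 3) (nat_lit 0x2410) (nat_lit 0x1000100000000000100000000))) (.non (nat_lit 2) (nat_lit 3) (nat_lit 0x4009) (nat_lit 0x10000000000000000000000010001))) (.non (nat_lit 1) (nat_lit 3) (nat_lit 0x5810) (nat_lit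 0x10002000100000000000100000000))) (.non (nat_lit 1) (nat_lit 3) (nat_lit 0x6500) (nat_lit 0x10001000200010000000000000000))) (.star (nat_lit 7) (nat_lit 1) (nat_lit 4))) (.star (nat_lit 7) (nat_lit 1) (nat_lit 3))) (.non (nat_lit 1) (nat_lit 3) (nat_lit 0x5a10) (nat_lit 0x10003000200010000000200000000))) (.non (nat_lit 2) (nat_lit 3) (nat_lit 0x4005) (nat_lit 0x10000000000000000000000010001))))

noncomputable def t327 : Tr := (.split (nat_lit 6) (nat_lit 0) (.split (nat_lit 6) (nat_lit 1) (.split (nat_lit 6) (nat_lit 2) .uj (.st (nat_lit 2) (nat_lit 1) (nat_lit 3) (nat_lit 0x1a10) (nat_lit 0x3000200010000000200000000) (nat_lit 1) (nat_lit 1) (.st (nat_lit 4) (nat_lit 1) (nat_lit 3) (nat_lit 0x1a10) (nat_lit 0x4000300020000000200000000) (nat_lit 2) (nat_lit 1) (.st (nat_lit 6) (nat_lit 1) (nat_lit 3) (nat_lit 0x1810) (nat_lit 0x2000100000000000100000000) (nat_lit 1) (nat_lit 1) t327_1)))) (.non (nat_lit 2) (nat_lit 3) (nat_lit 0x2409) (nat_lit 0x1000100000000000000010001))) (.non (nat_lit 2) (nat_lit 3) (nat_lit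 0x1809) (nat_lit 0x2000100000000000000010002)))

noncomputable def t341_1 : Tr := (.ex (nat_lit 0) (.ex (nat_lit 9) (.leaf (.cons (nat_lit 0x15014) (nat_lit 0x100020003000000000000000400030000) (.cons (nat_lit 0x1550) (nat_lit 0x2000300040003000100000000) .nil)) (.cons (nat_lit 0x1111110100) (nat_lit 0x1010) (nat_lit 0xd) (nat_lit 0x6540230100) (.cons (nat_lit 0x1111100100) (nat_lit 0x10010) (nat_lit 9) (nat_lit 0x5430200100) .nil))) (.split (nat_lit 0xa) (nat_lit 0) (.split (nat_lit 0xa) (nat_lit 1) (.split (nat_lit 0xa) (nat_lit 2) (.split (nat_lit 0xa) (nat_lit 3) (.split (nat_lit 0xa) (nat_lit 4) (.split (nat_lit 0xa) (nat_lit 5) (.split (nat_lit 0xa) (nat_lit 6) (.split (nat_lit 0xa) (nat_lit 7) (.split (nat_lit 0xa) (nat_lit 8) (.st (nat_lit 9) (nat_lit 1) (nat_lit 3) (nat_lit 0x155410) (nat_lit 0x10002000200020002000100000000000100000000) (nat_lit 1) (nat_lit 1) (.st (nat_lit 0xa) (nat_lit 1) (nat_lit 3) (nat_lit 0x155510) (nat_lit 0x20003000400050006000400020000000300000000) (nat_lit 1) (nat_lit 1) (.split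 (nat_lit 0xa) (nat_lit 9) (.leaf (.cons (nat_lit 0x15014) (nat_lit 0x100020003000000000000000400030000) (.cons (nat_lit 0x1550) (nat_lit 0x2000300040003000100000000) .nil)) (.cons (nat_lit 0x11111110100) (nat_lit 0x1010) (nat_lit 0xe) (nat_lit 0x76540230100) (.cons (nat_lit 0x11111000100) (nat_lit 0x100010) (nat_lit 4) (nat_lit 0x54321000000) .nil))) (.non (nat_lit 1) (nat_lit 3) (nat_lit 0x255410) (nat_lit 0x10002000200020002000100000000000100000000))))) (.non (nat_lit 1) (nat_lit 3) (nat_lit 0x150000) (nat_lit 0x10001000100000000000000000000000000000000))) (.non (nat_lit 1) (nat_lit 3) (nat_lit 0x154000) (nat_lit 0x10001000100010000000000000000000000000000))) (.non (nat_lit 1) (nat_lit 3) (nat_lit 0x155000) (nat_lit 0x10001000100010001000000000000000000000000))) (.non (nat_lit 1) (nat_lit 3) (nat_lit 0x155400) (nat_lit 0x10001000100010001000100000000000000000000))) (.non (nat_lit 1) (nat_lit 3) (nat_lit 0x155500) (nat_lit 0x10001000100010001000100010000000000000000))) (.non (nat_lit 0) (nat_lit 6) (nat_lit 0x150140)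 (nat_lit 0x30002000100000000000000030004000000000000))) (.non (nat_lit 1) (nat_lit 3) (nat_lit 0x155010) (nat_lit 0x10001000100010001000000000000000100000000))) (.non (nat_lit 0) (nat_lit 6) (nat_lit 0x150014) (nat_lit 0x30002000100000000000000000000000300040000))) (.non (nat_lit 1) (nat_lit 3) (nat_lit 0x155511) (nat_lit 0x20003000400050006000400020000000300000001)))) (.split (nat_lit 0xa) (nat_lit 1) (.split (nat_lit 0xa) (nat_lit 2) (.split (nat_lit 0xa) (nat_lit 3) (.split (nat_lit 0xa) (nat_lit 4) (.split (nat_lit 0xa) (nat_lit 5) (.split (nat_lit 0xa) (nat_lit 6) (.split (nat_lit 0xa) (nat_lit 7) (.split (nat_lit 0xa) (nat_lit 8) (.split (nat_lit 0xa) (nat_lit 9) (.sup (nat_lit 0x300060009000c00160020001a000000000000) (nat_lit 0x7000000000000000000000000000000070010000f)) (.non (nat_lit 1) (nat_lit 3) (nat_lit 0x155511) (nat_lit 0x20003000400050006000400020000000300000001))) (.non (nat_lit 1) (nat_lit 3) (nat_lit 0x155410) (nat_lit 0x10001000200020002000100000000000100000000))) (.non (nat_lit 1) (nat_lit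 3) (nat_lit 0x115410) (nat_lit 0x10000000100020002000100000000000100000000))) (.non (nat_lit 1) (nat_lit 3) (nat_lit 0x105410) (nat_lit 0x10000000000010002000100000000000100000000))) (.non (nat_lit 1) (nat_lit 3) (nat_lit 0x105510) (nat_lit 0x10000000000010002000200010000000100000000))) (.non (nat_lit 1) (nat_lit 3) (nat_lit 0x155510) (nat_lit 0x10001000200030004000300020000000200000000))) (.non (nat_lit 0) (nat_lit 6) (nat_lit 0x100540) (nat_lit 0x10000000000000000000100020002000000000000))) (.non (nat_lit 1) (nat_lit 3) (nat_lit 0x115510) (nat_lit 0x10000000100020003000200010000000200000000))) (.non (nat_lit 2) (nat_lit 3) (nat_lit 0x100005) (nat_lit 0x10000000000000000000000000000000000010001))))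

noncomputable def t341_2 : Tr := (.split (nat_lit 8) (nat_lit 7) (.ex (nat_lit 8) (.leaf (.cons (nat_lit 0x15014) (nat_lit 0x100020003000000000000000400030000) (.cons (nat_lit 0x1550) (nat_lit 0x2000300040003000100000000) .nil)) (.cons (nat_lit 0x111110100) (nat_lit 0x1010) (nat_lit 0xc) (nat_lit 0x540230100) .nil)) (.split (nat_lit 9) (nat_lit 1) (.split (nat_lit 9) (nat_lit 2) (.split (nat_lit 9) (nat_lit 3) (.split (nat_lit 9) (nat_lit 4) (.split (nat_lit 9) (nat_lit 5) (.split (nat_lit 9) (nat_lit 6) (.split (nat_lit 9) (nat_lit 7) (.split (nat_lit 9) (nat_lit 0) (.st (nat_lit 8) (nat_lit 1) (nat_lit 3) (nat_lit 0x55410) (nat_lit 0x1000200020002000100000000000100000000) (nat_lit 1) (nat_lit 1) (.split (nat_lit 9) (nat_lit 8) t341_1 (.non (nat_lit 1) (nat_lit 3) (nat_lit 0x95410) (nat_lit 0x1000200020002000100000000000100000000)))) (.st (nat_lit 0) (nat_lit 1) (nat_lit 3) (nat_lit 0x55511) (nat_lit 0x3000400050006000400020000000300000002) (nat_lit 1) (nat_lit 1) (.st (nat_lit 8) (nat_lit 1) (nat_lit 3) (nat_lit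 0x55410) (nat_lit 0x1000200020002000100000000000100000000) (nat_lit 1) (nat_lit 1) (.st (nat_lit 9) (nat_lit 1) (nat_lit 3) (nat_lit 0x55411) (nat_lit 0x2000200020002000100000000000100000001) (nat_lit 1) (nat_lit 1) (.split (nat_lit 9) (nat_lit 8) (.split (nat_lit 9) (nat_lit 0) (.leaf (.cons (nat_lit 0x15014) (nat_lit 0x100020003000000000000000400030000) (.cons (nat_lit 0x1550) (nat_lit 0x2000300040003000100000000) .nil)) (.cons (nat_lit 0x1111110101) (nat_lit 0x1010) (nat_lit 0xe) (nat_lit 0x6540230107) (.cons (nat_lit 0x1111000101) (nat_lit 0x100010) (nat_lit 4) (nat_lit 0x1234000500) .nil))) (.non (nat_lit 1) (nat_lit 3) (nat_lit 0xaa821) (nat_lit 0x2000200020002000100000000000100000002))) (.non (nat_lit 1) (nat_lit 3) (nat_lit 0x95410) (nat_lit 0x1000200020002000100000000000100000000))))))) (.non (nat_lit 1) (nat_lit 3) (nat_lit 0x54000) (nat_lit 0x1000100010000000000000000000000000000))) (.non (nat_lit 1) (nat_lit 3) (nat_lit 0x55000) (nat_lit 0x1000100010001000000000000000000000000))) (.non (nat_lit 1)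 (nat_lit 3) (nat_lit 0x55400) (nat_lit 0x1000100010001000100000000000000000000))) (.non (nat_lit 1) (nat_lit 3) (nat_lit 0x55500) (nat_lit 0x1000100010001000100010000000000000000))) (.non (nat_lit 0) (nat_lit 6) (nat_lit 0x54140) (nat_lit 0x3000200010000000000030004000000000000))) (.non (nat_lit 1) (nat_lit 3) (nat_lit 0x55010) (nat_lit 0x1000100010001000000000000000100000000))) (.non (nat_lit 0) (nat_lit 6) (nat_lit 0x54014) (nat_lit 0x3000200010000000000000000000300040000)))) (.non (nat_lit 1) (nat_lit 3) (nat_lit 0x25410) (nat_lit 0x100020002000100000000000100000000)))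

noncomputable def t341_3 : Tr := (.ex (nat_lit 0) (.ex (nat_lit 9) (.leaf (.cons (nat_lit 0x3034) (nat_lit 0x1000000000000000200030000) (.cons (nat_lit 0x1550) (nat_lit 0x2000300040003000100000000) .nil)) (.cons (nat_lit 0x1111110100) (nat_lit 0x1010) (nat_lit 0xd) (nat_lit 0x6540230100) (.cons (nat_lit 0x1111100100) (nat_lit 0x10010) (nat_lit 9) (nat_lit 0x5430200100) .nil))) (.split (nat_lit 0xa) (nat_lit 0) (.split (nat_lit 0xa) (nat_lit 1) (.split (nat_lit 0xa) (nat_lit 2) (.split (nat_lit 0xa) (nat_lit 3) (.split (nat_lit 0xa) (nat_lit 4) (.split (nat_lit 0xa) (nat_lit 5) (.split (nat_lit 0xa) (nat_lit 6) (.split (nat_lit 0xa) (nat_lit 7) (.split (nat_lit 0xa) (nat_lit 8) (.st (nat_lit 9) (nat_lit 1) (nat_lit 3) (nat_lit 0x155410) (nat_lit 0x10002000200020002000100000000000100000000) (nat_lit 1) (nat_lit 1) (.st (nat_lit 0xa) (nat_lit 1) (nat_lit 3) (nat_lit 0x155510) (nat_lit 0x20003000400050006000400020000000300000000) (nat_lit 1) (nat_lit 1) (.split (nat_lit 0xa) (nat_lit 9) (.leaf (.cons (nat_lit 0x3034)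 (nat_lit 0x1000000000000000200030000) (.cons (nat_lit 0x1550) (nat_lit 0x2000300040003000100000000) .nil)) (.cons (nat_lit 0x11111110100) (nat_lit 0x1010) (nat_lit 0xe) (nat_lit 0x76540230100) (.cons (nat_lit 0x11111000100) (nat_lit 0x100010) (nat_lit 4) (nat_lit 0x54321000000) .nil))) (.non (nat_lit 1) (nat_lit 3) (nat_lit 0x255410) (nat_lit 0x10002000200020002000100000000000100000000))))) (.non (nat_lit 1) (nat_lit 3) (nat_lit 0x150000) (nat_lit 0x10001000100000000000000000000000000000000))) (.non (nat_lit 1) (nat_lit 3) (nat_lit 0x154000) (nat_lit 0x10001000100010000000000000000000000000000))) (.non (nat_lit 1) (nat_lit 3) (nat_lit 0x155000) (nat_lit 0x10001000100010001000000000000000000000000))) (.non (nat_lit 1) (nat_lit 3) (nat_lit 0x155400) (nat_lit 0x10001000100010001000100000000000000000000))) (.non (nat_lit 1) (nat_lit 3) (nat_lit 0x155500) (nat_lit 0x10001000100010001000100010000000000000000))) (.non (nat_lit 0) (nat_lit 6) (nat_lit 0x150140) (nat_lit 0x30002000100000000000000030004000000000000))) (.non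 (nat_lit 1) (nat_lit 3) (nat_lit 0x155010) (nat_lit 0x10001000100010001000000000000000100000000))) (.non (nat_lit 0) (nat_lit 6) (nat_lit 0x100034) (nat_lit 0x10000000000000000000000000000000100020000))) (.non (nat_lit 1) (nat_lit 3) (nat_lit 0x155511) (nat_lit 0x20003000400050006000400020000000300000001)))) (.split (nat_lit 0xa) (nat_lit 1) (.split (nat_lit 0xa) (nat_lit 2) (.split (nat_lit 0xa) (nat_lit 3) (.split (nat_lit 0xa) (nat_lit 4) (.split (nat_lit 0xa) (nat_lit 5) (.split (nat_lit 0xa) (nat_lit 6) (.split (nat_lit 0xa) (nat_lit 7) (.split (nat_lit 0xa) (nat_lit 8) (.split (nat_lit 0xa) (nat_lit 9) (.sup (nat_lit 0x2000300050007000b0010000d000000000000) (nat_lit 0x30000000000000000000000000000000300070007)) (.non (nat_lit 1) (nat_lit 3) (nat_lit 0x155511) (nat_lit 0x20003000400050006000400020000000300000001))) (.non (nat_lit 1) (nat_lit 3) (nat_lit 0x155410) (nat_lit 0x10001000200020002000100000000000100000000))) (.non (nat_lit 1) (nat_lit 3) (nat_lit 0x115410) (nat_lit 0x10000000100020002000100000000000100000000)))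 (.non (nat_lit 1) (nat_lit 3) (nat_lit 0x105410) (nat_lit 0x10000000000010002000100000000000100000000))) (.non (nat_lit 1) (nat_lit 3) (nat_lit 0x105510) (nat_lit 0x10000000000010002000200010000000100000000))) (.non (nat_lit 1) (nat_lit 3) (nat_lit 0x155510) (nat_lit 0x10001000200030004000300020000000200000000))) (.non (nat_lit 0) (nat_lit 6) (nat_lit 0x100540) (nat_lit 0x10000000000000000000100020002000000000000))) (.non (nat_lit 1) (nat_lit 3) (nat_lit 0x115510) (nat_lit 0x10000000100020003000200010000000200000000))) (.non (nat_lit 2) (nat_lit 3) (nat_lit 0x100005) (nat_lit 0x10000000000000000000000000000000000010001))))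

noncomputable def t341_4 : Tr := (.split (nat_lit 8) (nat_lit 7) (.ex (nat_lit 8) (.leaf (.cons (nat_lit 0x3034) (nat_lit 0x1000000000000000200030000) (.cons (nat_lit 0x1550) (nat_lit 0x2000300040003000100000000) .nil)) (.cons (nat_lit 0x111110100) (nat_lit 0x1010) (nat_lit 0xc) (nat_lit 0x540230100) .nil)) (.split (nat_lit 9) (nat_lit 1) (.split (nat_lit 9) (nat_lit 2) (.split (nat_lit 9) (nat_lit 3) (.split (nat_lit 9) (nat_lit 4) (.split (nat_lit 9) (nat_lit 5) (.split (nat_lit 9) (nat_lit 6) (.split (nat_lit 9) (nat_lit 7) (.split (nat_lit 9) (nat_lit 0) (.st (nat_lit 8) (nat_lit 1) (nat_lit 3) (nat_lit 0x55410) (nat_lit 0x1000200020002000100000000000100000000) (nat_lit 1) (nat_lit 1) (.split (nat_lit 9) (nat_lit 8) t341_3 (.non (nat_lit 1) (nat_lit 3) (nat_lit 0x95410) (nat_lit 0x1000200020002000100000000000100000000)))) (.st (nat_lit 0) (nat_lit 1) (nat_lit 3) (nat_lit 0x55511) (nat_lit 0x3000400050006000400020000000300000002) (nat_lit 1) (nat_lit 1) (.st (nat_lit 8) (nat_lit 1) (nat_lit 3) (nat_lit 0x55410)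 (nat_lit 0x1000200020002000100000000000100000000) (nat_lit 1) (nat_lit 1) (.st (nat_lit 9) (nat_lit 1) (nat_lit 3) (nat_lit 0x55411) (nat_lit 0x2000200020002000100000000000100000001) (nat_lit 1) (nat_lit 1) (.split (nat_lit 9) (nat_lit 8) (.split (nat_lit 9) (nat_lit 0) (.leaf (.cons (nat_lit 0x3034) (nat_lit 0x1000000000000000200030000) (.cons (nat_lit 0x1550) (nat_lit 0x2000300040003000100000000) .nil)) (.cons (nat_lit 0x1111110101) (nat_lit 0x1010) (nat_lit 0xe) (nat_lit 0x6540230107) (.cons (nat_lit 0x1111000101) (nat_lit 0x100010) (nat_lit 4) (nat_lit 0x1234000500) .nil))) (.non (nat_lit 1) (nat_lit 3) (nat_lit 0xaa821) (nat_lit 0x2000200020002000100000000000100000002))) (.non (nat_lit 1) (nat_lit 3) (nat_lit 0x95410) (nat_lit 0x1000200020002000100000000000100000000))))))) (.non (nat_lit 1) (nat_lit 3) (nat_lit 0x54000) (nat_lit 0x1000100010000000000000000000000000000))) (.non (nat_lit 1) (nat_lit 3) (nat_lit 0x55000) (nat_lit 0x1000100010001000000000000000000000000))) (.non (nat_lit 1) (nat_lit 3) (nat_lit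 0x55400) (nat_lit 0x1000100010001000100000000000000000000))) (.non (nat_lit 1) (nat_lit 3) (nat_lit 0x55500) (nat_lit 0x1000100010001000100010000000000000000))) (.non (nat_lit 0) (nat_lit 6) (nat_lit 0x54140) (nat_lit 0x3000200010000000000030004000000000000))) (.non (nat_lit 1) (nat_lit 3) (nat_lit 0x55010) (nat_lit 0x1000100010001000000000000000100000000))) (.non (nat_lit 0) (nat_lit 6) (nat_lit 0x40034) (nat_lit 0x1000000000000000000000000000100020000)))) (.non (nat_lit 1) (nat_lit 3) (nat_lit 0x25410) (nat_lit 0x100020002000100000000000100000000)))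

noncomputable def t341_5 : Tr := (.split (nat_lit 8) (nat_lit 0) (.split (nat_lit 8) (nat_lit 1) (.st (nat_lit 7) (nat_lit 1) (nat_lit 3) (nat_lit 0x15410) (nat_lit 0x100020002000100000000000100000000) (nat_lit 1) (nat_lit 1) (.split (nat_lit 2) (nat_lit 1) t341_2 t341_4)) (.st (nat_lit 0) (nat_lit 2) (nat_lit 3) (nat_lit 0x28009) (nat_lit 0x200010000000000000000000000030004) (nat_lit 1) (nat_lit 2) (.st (nat_lit 7) (nat_lit 1) (nat_lit 3) (nat_lit 0x15410) (nat_lit 0x100020002000100000000000100000000) (nat_lit 1) (nat_lit 1) (.st (nat_lit 8) (nat_lit 2) (nat_lit 3) (nat_lit 0x28009) (nat_lit 0x200010000000000000000000000020002) (nat_lit 2) (nat_lit 1) (.split (nat_lit 8) (nat_lit 1) (.split (nat_lit 8) (nat_lit 7) (.leaf (.cons (nat_lit 0x11014) (nat_lit 0x100000001000000000000000200020000) (.cons (nat_lit 0x1550) (nat_lit 0x2000300040003000100000000) .nil)) (.cons (nat_lit 0x111110100) (nat_lit 0x1010) (nat_lit 0xc) (nat_lit 0x540230100) .nil)) (.non (nat_lit 1) (nat_lit 3) (nat_lit 0x25410) (nat_lit 0x100020002000100000000000100000000)))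 (.non (nat_lit 2) (nat_lit 3) (nat_lit 0x10009) (nat_lit 0x100000000000000000000000000010001))))))) (.split (nat_lit 8) (nat_lit 1) (.st (nat_lit 0) (nat_lit 2) (nat_lit 3) (nat_lit 0x10009) (nat_lit 0x100000000000000000000000000010002) (nat_lit 1) (nat_lit 1) (.st (nat_lit 7) (nat_lit 1) (nat_lit 3) (nat_lit 0x15410) (nat_lit 0x100020002000100000000000100000000) (nat_lit 1) (nat_lit 1) (.st (nat_lit 8) (nat_lit 1) (nat_lit 3) (nat_lit 0x15411) (nat_lit 0x200020002000100000000000100000001) (nat_lit 1) (nat_lit 1) (.split (nat_lit 2) (nat_lit 1) (.split (nat_lit 8) (nat_lit 7) (.split (nat_lit 8) (nat_lit 0) (.leaf (.cons (nat_lit 0x15014) (nat_lit 0x100020003000000000000000400030000) (.cons (nat_lit 0x1550) (nat_lit 0x2000300040003000100000000) .nil)) (.cons (nat_lit 0x111110101) (nat_lit 0x1010) (nat_lit 0xd) (nat_lit 0x540230106) (.cons (nat_lit 0x111100101) (nat_lit 0x10010) (nat_lit 9) (nat_lit 0x430200105) .nil))) (.non (nat_lit 1) (nat_lit 3) (nat_lit 0x2a821) (nat_lit 0x200020002000100000000000100000002)))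 (.non (nat_lit 1) (nat_lit 3) (nat_lit 0x25410) (nat_lit 0x100020002000100000000000100000000))) (.split (nat_lit 8) (nat_lit 7) (.split (nat_lit 8) (nat_lit 0) (.leaf (.cons (nat_lit 0x3034) (nat_lit 0x1000000000000000200030000) (.cons (nat_lit 0x1550) (nat_lit 0x2000300040003000100000000) .nil)) (.cons (nat_lit 0x111110101) (nat_lit 0x1010) (nat_lit 0xd) (nat_lit 0x540230106) (.cons (nat_lit 0x111100101) (nat_lit 0x10010) (nat_lit 9) (nat_lit 0x430200105) .nil))) (.non (nat_lit 1) (nat_lit 3) (nat_lit 0x2a821) (nat_lit 0x200020002000100000000000100000002))) (.non (nat_lit 1) (nat_lit 3) (nat_lit 0x25410) (nat_lit 0x100020002000100000000000100000000))))))) (.non (nat_lit 2) (nat_lit 3) (nat_lit 0x10005) (nat_lit 0x100000000000000000000000000010001))))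

noncomputable def t341_6 : Tr := (.ex (nat_lit 4) (.split (nat_lit 6) (nat_lit 2) (.split (nat_lit 7) (nat_lit 6) (.pd (.cons (nat_lit 0) (nat_lit 6) (nat_lit 0x110) (nat_lit 0x70433120) (nat_lit 0xf423f00000f423fb71ae1f156000010000100000) (.cons (nat_lit 1) (nat_lit 5) (nat_lit 0) (nat_lit 0x62033200) (nat_lit 0xf423fb71ae00000f423f54591a2c2800000f423f) (.cons (nat_lit 1) (nat_lit 6) (nat_lit 0) (nat_lit 0x70433200) (nat_lit 0xf423f00000f423fb71ae1f156f423f00000f423f) (.cons (nat_lit 2) (nat_lit 5) (nat_lit 0) (nat_lit 0x66033000) (nat_lit 0xf423fb71ae00000f423f5459100000f423f7a11e) (.cons (nat_lit 2) (nat_lit 6) (nat_lit 0) (nat_lit 0x70433000) (nat_lit 0xf423f00000f423fb71ae1f15600000f423f7a11e) (.cons (nat_lit 2) (nat_lit 7) (nat_lit 0) (nat_lit 0x5433000) (nat_lit 0xf423fb71aea2c280473700000f423f7a11e) .nil)))))) (.ex (nat_lit 7) (.split (nat_lit 2) (nat_lit 1) (.pd (.cons (nat_lit 0) (nat_lit 5) (nat_lit 0) (nat_lit 0x62033110) (nat_lit 0xf423fb71ae00000f423f54591a2c280473700000) .nil) (.leaf (.cons (nat_lit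 0x5414) (nat_lit 0x10002000100000000000200020000) (.cons (nat_lit 0x1550) (nat_lit 0x2000300040003000100000000) .nil)) (.cons (nat_lit 0x11110100) (nat_lit 0x1010) (nat_lit 8) (nat_lit 0x20340100) (.cons (nat_lit 0x11100100) (nat_lit 0x10010) (nat_lit 7) (nat_lit 0x30200100) .nil)))) (.leaf (.cons (nat_lit 0x3034) (nat_lit 0x1000000000000000200030000) (.cons (nat_lit 0x1550) (nat_lit 0x2000300040003000100000000) .nil)) (.cons (nat_lit 0x11110100) (nat_lit 0x1010) (nat_lit 8) (nat_lit 0x20340100) (.cons (nat_lit 0x11100100) (nat_lit 0x10010) (nat_lit 7) (nat_lit 0x30200100) .nil)))) (.split (nat_lit 8) (nat_lit 2) (.split (nat_lit 8) (nat_lit 3) (.split (nat_lit 8) (nat_lit 4) (.split (nat_lit 8) (nat_lit 5) (.split (nat_lit 8) (nat_lit 6) t341_5 (.non (nat_lit 1) (nat_lit 3) (nat_lit 0x15000) (nat_lit 0x100010001000000000000000000000000))) (.non (nat_lit 1) (nat_lit 3) (nat_lit 0x15400) (nat_lit 0x100010001000100000000000000000000))) (.non (nat_lit 1) (nat_lit 3) (nat_lit 0x15500) (nat_lit 0x100010001000100010000000000000000)))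 (.non (nat_lit 0) (nat_lit 6) (nat_lit 0x10540) (nat_lit 0x100000000000100020002000000000000))) (.non (nat_lit 1) (nat_lit 3) (nat_lit 0x15010) (nat_lit 0x100010001000000000000000100000000))))) (.non (nat_lit 1) (nat_lit 3) (nat_lit 0x9410) (nat_lit 0x10002000100000000000100000000))) (.non (nat_lit 1) (nat_lit 3) (nat_lit 0xa810) (nat_lit 0x10002000100000000000200000000))) (.split (nat_lit 8) (nat_lit 1) (.split (nat_lit 8) (nat_lit 2) (.split (nat_lit 8) (nat_lit 5) (.split (nat_lit 8) (nat_lit 6) (.split (nat_lit 8) (nat_lit 7) (.split (nat_lit 8) (nat_lit 0) (.split (nat_lit 8) (nat_lit 3) (.unj (nat_lit 0x15) (nat_lit 0x100010001) (nat_lit 0x10540) (nat_lit 0x100000000000100020002000000000000)) (.unj (nat_lit 0x15) (nat_lit 0x100010001) (nat_lit 0x10140) (nat_lit 0x100000000000000010001000000000000))) (.split (nat_lit 8) (nat_lit 3) (.split (nat_lit 8) (nat_lit 0) (.sup (nat_lit 0x400050002) (nat_lit 0x100000000000300050004000000000000)) (.non (nat_lit 1) (nat_lit 3) (nat_lit 0x2aa21) (nat_lit 0x200010002000200020000000100000002)))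 (.sup (nat_lit 0x400000000000000040005000000000000) (nat_lit 0x20003000100000000000500040000)))) (.non (nat_lit 1) (nat_lit 3) (nat_lit 0x15500) (nat_lit 0x100010001000100010000000000000000))) (.non (nat_lit 1) (nat_lit 3) (nat_lit 0x11500) (nat_lit 0x100000001000100010000000000000000))) (.non (nat_lit 1) (nat_lit 3) (nat_lit 0x10500) (nat_lit 0x100000000000100010000000000000000))) (.star (nat_lit 8) (nat_lit 2) (nat_lit 4))) (.star (nat_lit 8) (nat_lit 1) (nat_lit 4))))

noncomputable def t341_7 : Tr := (.ex (nat_lit 9) (.split (nat_lit 2) (nat_lit 1) (.split (nat_lit 9) (nat_lit 8) (.pd (.cons (nat_lit 0) (nat_lit 6) (nat_lit 0) (nat_lit 0x8270433110) (nat_lit 0xf423fb71aef423f00000f423fb71ae1f156a2c280473700000) .nil) (.leaf (.cons (nat_lit 0x11014) (nat_lit 0x100000001000000000000000200020000) (.cons (nat_lit 0x1550) (nat_lit 0x2000300040003000100000000) .nil)) (.cons (nat_lit 0x1111000100) (nat_lit 0x100010) (nat_lit 3) (nat_lit 0x4301000200) .nil))) (.non (nat_lit 1) (nat_lit 3) (nat_lit 0x95410) (nat_lit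 0x1000200010002000100000000000200000000))) (.split (nat_lit 9) (nat_lit 8) (.leaf (.cons (nat_lit 0x30034) (nat_lit 0x100000000000000000000000200030000) (.cons (nat_lit 0x1550) (nat_lit 0x2000300040003000100000000) .nil)) (.cons (nat_lit 0x1111000100) (nat_lit 0x100010) (nat_lit 3) (nat_lit 0x4301000200) .nil)) (.non (nat_lit 1) (nat_lit 3) (nat_lit 0x95410) (nat_lit 0x1000200010002000100000000000200000000)))) (.split (nat_lit 0xa) (nat_lit 0) (.split (nat_lit 0xa) (nat_lit 2) (.split (nat_lit 0xa) (nat_lit 3) (.split (nat_lit 0xa) (nat_lit 4) (.split (nat_lit 0xa) (nat_lit 5) (.split (nat_lit 0xa) (nat_lit 6) (.split (nat_lit 0xa) (nat_lit 7) (.split (nat_lit 0xa) (nat_lit 8) (.split (nat_lit 0xa) (nat_lit 1) (.st (nat_lit 9) (nat_lit 1) (nat_lit 3) (nat_lit 0x155410) (nat_lit 0x10002000200010002000100000000000200000000) (nat_lit 1) (nat_lit 1) (.st (nat_lit 0xa) (nat_lit 1) (nat_lit 3) (nat_lit 0x155510) (nat_lit 0x20003000400030006000400020000000500000000) (nat_lit 1) (nat_lit 1) (.split (nat_lit 0xa) (nat_lit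 9) (.split (nat_lit 9) (nat_lit 8) (.leaf (.cons (nat_lit 0x150014) (nat_lit 0x10002000300000000000000000000000400030000) (.cons (nat_lit 0x1550) (nat_lit 0x2000300040003000100000000) .nil)) (.cons (nat_lit 0x11111110100) (nat_lit 0x1010) (nat_lit 0xe) (nat_lit 0x76510230400) (.cons (nat_lit 0x11111100100) (nat_lit 0x10010) (nat_lit 0xa) (nat_lit 0x65420100300) .nil))) (.non (nat_lit 1) (nat_lit 3) (nat_lit 0x291010) (nat_lit 0x10002000300000001000000000000000200000000))) (.non (nat_lit 1) (nat_lit 3) (nat_lit 0x255410) (nat_lit 0x10002000200010002000100000000000200000000))))) (.sup (nat_lit 0x40007000b0010000d000000000000) (nat_lit 0x30002000200000000000000000000000100040003))) (.non (nat_lit 1) (nat_lit 3) (nat_lit 0x150000) (nat_lit 0x10001000100000000000000000000000000000000))) (.non (nat_lit 1) (nat_lit 3) (nat_lit 0x155010) (nat_lit 0x10001000100010001000000000000000100000000))) (.non (nat_lit 1) (nat_lit 3) (nat_lit 0x151010) (nat_lit 0x10001000100000001000000000000000100000000))) (.non (nat_lit 1) (nat_lit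 3) (nat_lit 0x151410) (nat_lit 0x10001000100000001000100000000000100000000))) (.non (nat_lit 1) (nat_lit 3) (nat_lit 0x151510) (nat_lit 0x10001000100000001000100010000000100000000))) (.non (nat_lit 1) (nat_lit 5) (nat_lit 0x150140) (nat_lit 0x30002000100000000000000030004000000000000))) (.non (nat_lit 1) (nat_lit 3) (nat_lit 0x150010) (nat_lit 0x10001000100000000000000000000000100000000))) (.non (nat_lit 1) (nat_lit 3) (nat_lit 0x155511) (nat_lit 0x20003000400030006000400020000000500000001))))

noncomputable def t341_8 : Tr := (.pd (.cons (nat_lit 1) (nat_lit 5) (nat_lit 0) (nat_lit 0x262033200) (nat_lit 0xf423ff423fb71ae00000f423f5459165b9700000f423f) (.cons (nat_lit 1) (nat_lit 6) (nat_lit 0) (nat_lit 0x270433200) (nat_lit 0xf423ff423f00000f423fb71ae1f156b71ae00000f423f) (.cons (nat_lit 2) (nat_lit 5) (nat_lit 0) (nat_lit 0x866033000) (nat_lit 0xf423ff423fb71ae00000f423f5459100000f423f7a11e) (.cons (nat_lit 2) (nat_lit 6) (nat_lit 0) (nat_lit 0x870433000) (nat_lit 0xf423ff423f00000f423fb71ae1f15600000f423f7a11e)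 (.cons (nat_lit 2) (nat_lit 7) (nat_lit 0) (nat_lit 0x805433000) (nat_lit 0xf423f00000f423fb71aea2c280473700000f423f7a11e) .nil))))) (.ex (nat_lit 8) (.split (nat_lit 2) (nat_lit 1) (.pd (.cons (nat_lit 0) (nat_lit 6) (nat_lit 0) (nat_lit 0x270433110) (nat_lit 0xf423ff423f00000f423fb71ae1f156b71ae1f15600000) .nil) (.leaf (.cons (nat_lit 0x11014) (nat_lit 0x100000001000000000000000200020000) (.cons (nat_lit 0x1550) (nat_lit 0x2000300040003000100000000) .nil)) (.cons (nat_lit 0x111000100) (nat_lit 0x100010) (nat_lit 2) (nat_lit 0x301000200) .nil))) (.leaf (.cons (nat_lit 0x30034) (nat_lit 0x100000000000000000000000200030000) (.cons (nat_lit 0x1550) (nat_lit 0x2000300040003000100000000) .nil)) (.cons (nat_lit 0x111000100) (nat_lit 0x100010) (nat_lit 2) (nat_lit 0x301000200) .nil))) (.split (nat_lit 9) (nat_lit 2) (.split (nat_lit 9) (nat_lit 3) (.split (nat_lit 9) (nat_lit 4) (.split (nat_lit 9) (nat_lit 5) (.split (nat_lit 9) (nat_lit 6) (.split (nat_lit 9) (nat_lit 7) (.split (nat_lit 9) (nat_lit 0) (.split (nat_lit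 9) (nat_lit 1) (.st (nat_lit 8) (nat_lit 1) (nat_lit 3) (nat_lit 0x55410) (nat_lit 0x1000200010002000100000000000200000000) (nat_lit 1) (nat_lit 1) t341_7) (.sup (nat_lit 0x30007000b0010000d000000000000) (nat_lit 0x3000200000000000000000000000100040003))) (.split (nat_lit 9) (nat_lit 1) (.sup (nat_lit 0x30007000b0010000d000000000000) (nat_lit 0x3000200000000000000000000000100040005)) (.non (nat_lit 2) (nat_lit 3) (nat_lit 0x40005) (nat_lit 0x1000000000000000000000000000000010001)))) (.non (nat_lit 1) (nat_lit 3) (nat_lit 0x55010) (nat_lit 0x1000100010001000000000000000100000000))) (.non (nat_lit 1) (nat_lit 3) (nat_lit 0x51010) (nat_lit 0x1000100000001000000000000000100000000))) (.non (nat_lit 1) (nat_lit 3) (nat_lit 0x51410) (nat_lit 0x1000100000001000100000000000100000000))) (.non (nat_lit 1) (nat_lit 3) (nat_lit 0x51510) (nat_lit 0x1000100000001000100010000000100000000))) (.non (nat_lit 1) (nat_lit 5) (nat_lit 0x50150) (nat_lit 0x3000200000000000000030004000100000000))) (.non (nat_lit 1) (nat_lit 3) (nat_lit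 0x50010) (nat_lit 0x1000100000000000000000000000100000000)))))

noncomputable def t341_9 : Tr := (.ex (nat_lit 3) (.ex (nat_lit 4) (.split (nat_lit 6) (nat_lit 2) (.split (nat_lit 8) (nat_lit 2) (.split (nat_lit 7) (nat_lit 6) t341_8 (.non (nat_lit 1) (nat_lit 3) (nat_lit 0x9410) (nat_lit 0x10002000100000000000100000000))) (.non (nat_lit 1) (nat_lit 3) (nat_lit 0x25410) (nat_lit 0x100010002000100000000000200000000))) (.non (nat_lit 1) (nat_lit 3) (nat_lit 0xa810) (nat_lit 0x10002000100000000000200000000))) (.split (nat_lit 9) (nat_lit 1) (.split (nat_lit 9) (nat_lit 2) (.split (nat_lit 9) (nat_lit 5) (.split (nat_lit 9) (nat_lit 6) (.split (nat_lit 9) (nat_lit 7) (.split (nat_lit 9) (nat_lit 8) (.split (nat_lit 9) (nat_lit 0) (.split (nat_lit 9) (nat_lit 3) (.unj (nat_lit 0x15) (nat_lit 0x100010001) (nat_lit 0x40540) (nat_lit 0x1000000000000000100020002000000000000)) (.unj (nat_lit 0x15) (nat_lit 0x100010001) (nat_lit 0x40140) (nat_lit 0x1000000000000000000010001000000000000))) (.split (nat_lit 9) (nat_lit 3)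 (.sup (nat_lit 0x300000001000000000000000500040000) (nat_lit 0x3000000000000000100050004000000000000)) (.unj (nat_lit 0x40140) (nat_lit 0x1000000000000000000010001000000000000) (nat_lit 0x11014) (nat_lit 0x100000001000000000000000200020000)))) (.non (nat_lit 1) (nat_lit 3) (nat_lit 0x51510) (nat_lit 0x1000100000001000100010000000100000000))) (.non (nat_lit 1) (nat_lit 3) (nat_lit 0x45500) (nat_lit 0x1000000010001000100010000000000000000))) (.non (nat_lit 1) (nat_lit 3) (nat_lit 0x41500) (nat_lit 0x1000000000001000100010000000000000000))) (.non (nat_lit 1) (nat_lit 3) (nat_lit 0x40500) (nat_lit 0x1000000000000000100010000000000000000))) (.star (nat_lit 9) (nat_lit 2) (nat_lit 4))) (.star (nat_lit 9) (nat_lit 1) (nat_lit 4)))) (.split (nat_lit 9) (nat_lit 1) (.split (nat_lit 9) (nat_lit 2) (.split (nat_lit 9) (nat_lit 5) (.split (nat_lit 9) (nat_lit 6) (.split (nat_lit 9) (nat_lit 7) (.split (nat_lit 9) (nat_lit 0) (.split (nat_lit 9) (nat_lit 4) (.split (nat_lit 9) (nat_lit 8) (.unj (nat_lit 0x15) (nat_lit 0x100010001)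 (nat_lit 0x40540) (nat_lit 0x1000000000000000100020002000000000000)) (.unj (nat_lit 0x15) (nat_lit 0x100010001) (nat_lit 0x40540) (nat_lit 0x1000000000000000100020002000000000000))) (.split (nat_lit 9) (nat_lit 8) (.unj (nat_lit 0x15) (nat_lit 0x100010001) (nat_lit 0x40140) (nat_lit 0x1000000000000000000010001000000000000)) (.non (nat_lit 1) (nat_lit 3) (nat_lit 0x51510) (nat_lit 0x1000100000001000100010000000100000000)))) (.split (nat_lit 9) (nat_lit 8) (.split (nat_lit 9) (nat_lit 4) (.sup (nat_lit 0x300000001000000000000000500040000) (nat_lit 0x3000000000000000100050005000000000000)) (.unj (nat_lit 0x40140) (nat_lit 0x1000000000000000000010001000000000000) (nat_lit 0x11014) (nat_lit 0x100000001000000000000000200020000))) (.non (nat_lit 1) (nat_lit 4) (nat_lit 0x55451) (nat_lit 0x2000200010002000100000001000200000001)))) (.non (nat_lit 1) (nat_lit 3) (nat_lit 0x55510) (nat_lit 0x1000100020003000200010000000200000000))) (.non (nat_lit 1) (nat_lit 3) (nat_lit 0x45410) (nat_lit 0x1000000010002000100000000000100000000)))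 (.non (nat_lit 1) (nat_lit 3) (nat_lit 0x45510) (nat_lit 0x1000000010002000200010000000100000000))) (.star (nat_lit 9) (nat_lit 2) (nat_lit 3))) (.star (nat_lit 9) (nat_lit 1) (nat_lit 3))))

noncomputable def t341_10 : Tr := (.ex (nat_lit 2) (.ex (nat_lit 3) t341_6 (.split (nat_lit 8) (nat_lit 1) (.split (nat_lit 8) (nat_lit 2) (.split (nat_lit 8) (nat_lit 5) (.split (nat_lit 8) (nat_lit 6) (.split (nat_lit 8) (nat_lit 0) (.split (nat_lit 8) (nat_lit 4) (.split (nat_lit 8) (nat_lit 7) (.unj (nat_lit 0x15) (nat_lit 0x100010001) (nat_lit 0x10540) (nat_lit 0x100000000000100020002000000000000)) (.unj (nat_lit 0x15) (nat_lit 0x100010001) (nat_lit 0x10540) (nat_lit 0x100000000000100020002000000000000))) (.split (nat_lit 8) (nat_lit 7) (.unj (nat_lit 0x15) (nat_lit 0x100010001) (nat_lit 0x10140) (nat_lit 0x100000000000000010001000000000000)) (.non (nat_lit 1) (nat_lit 3) (nat_lit 0x15500) (nat_lit 0x100010001000100010000000000000000)))) (.split (nat_lit 8) (nat_lit 7) (.split (nat_lit 8) (nat_lit 4) (.split (nat_lit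 8) (nat_lit 0) (.sup (nat_lit 0x8000a0005) (nat_lit 0x2000000000005000a0009000000000000)) (.non (nat_lit 2) (nat_lit 3) (nat_lit 0x20009) (nat_lit 0x100000000000000000000000000010002))) (.sup (nat_lit 0x400000000000000040005000000000000) (nat_lit 0x20003000100000000000500040000))) (.non (nat_lit 1) (nat_lit 4) (nat_lit 0x15451) (nat_lit 0x200020002000100000001000100000001)))) (.non (nat_lit 1) (nat_lit 3) (nat_lit 0x15410) (nat_lit 0x100010002000100000000000100000000))) (.non (nat_lit 1) (nat_lit 3) (nat_lit 0x15510) (nat_lit 0x100010002000200010000000100000000))) (.star (nat_lit 8) (nat_lit 2) (nat_lit 3))) (.star (nat_lit 8) (nat_lit 1) (nat_lit 3)))) (.split (nat_lit 8) (nat_lit 3) (.split (nat_lit 8) (nat_lit 4) (.split (nat_lit 8) (nat_lit 5) (.split (nat_lit 8) (nat_lit 6) (.split (nat_lit 8) (nat_lit 7) (.split (nat_lit 8) (nat_lit 0) (.split (nat_lit 8) (nat_lit 1) (.st (nat_lit 2) (nat_lit 1) (nat_lit 3) (nat_lit 0x15410) (nat_lit 0x100010002000100000000000200000000) (nat_lit 1) (nat_lit 1) (.st (nat_lit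 7) (nat_lit 1) (nat_lit 3) (nat_lit 0x15510) (nat_lit 0x100020003000200010000000200000000) (nat_lit 1) (nat_lit 1) t341_9)) (.split (nat_lit 8) (nat_lit 1) (.split (nat_lit 8) (nat_lit 2) (.split (nat_lit 7) (nat_lit 6) (.split (nat_lit 6) (nat_lit 2) (.sup (nat_lit 0x30007000b0010000d000000000000) (nat_lit 0x200000000000000000000000100040003)) (.non (nat_lit 1) (nat_lit 3) (nat_lit 0xa810) (nat_lit 0x10002000100000000000200000000))) (.non (nat_lit 1) (nat_lit 3) (nat_lit 0x9410) (nat_lit 0x10002000100000000000100000000))) (.non (nat_lit 1) (nat_lit 3) (nat_lit 0x25410) (nat_lit 0x100010002000100000000000200000000))) (.non (nat_lit 2) (nat_lit 3) (nat_lit 0x10009) (nat_lit 0x100000000000000000000000000010001)))) (.split (nat_lit 8) (nat_lit 1) (.split (nat_lit 8) (nat_lit 0) (.split (nat_lit 8) (nat_lit 2) (.split (nat_lit 7) (nat_lit 6) (.split (nat_lit 6) (nat_lit 2) (.sup (nat_lit 0x30007000b0010000d000000000000) (nat_lit 0x300000000000000000000000100040004)) (.non (nat_lit 1) (nat_lit 3) (nat_lit 0xa810) (nat_lit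 0x10002000100000000000200000000))) (.non (nat_lit 1) (nat_lit 3) (nat_lit 0x9410) (nat_lit 0x10002000100000000000100000000))) (.non (nat_lit 1) (nat_lit 3) (nat_lit 0x25410) (nat_lit 0x100010002000100000000000200000000))) (.non (nat_lit 1) (nat_lit 3) (nat_lit 0x2a821) (nat_lit 0x200010002000100000000000200000002))) (.non (nat_lit 2) (nat_lit 3) (nat_lit 0x10005) (nat_lit 0x100000000000000000000000000010001)))) (.non (nat_lit 1) (nat_lit 3) (nat_lit 0x15010) (nat_lit 0x100010001000000000000000100000000))) (.non (nat_lit 1) (nat_lit 3) (nat_lit 0x11010) (nat_lit 0x100000001000000000000000100000000))) (.non (nat_lit 1) (nat_lit 3) (nat_lit 0x11410) (nat_lit 0x100000001000100000000000100000000))) (.star (nat_lit 8) (nat_lit 2) (nat_lit 4))) (.star (nat_lit 8) (nat_lit 2) (nat_lit 3))))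

noncomputable def t341_11 : Tr := (.ex (nat_lit 8) (.split (nat_lit 2) (nat_lit 1) (.pd (.cons (nat_lit 0) (nat_lit 6) (nat_lit 0) (nat_lit 0x170433110) (nat_lit 0xf423ff423f00000f423fb71ae1f156f423f1750000000) .nil) (.ex (nat_lit 7) (.leaf (.cons (nat_lit 0x11014) (nat_lit 0x100000001000000000000000200020000) (.cons (nat_lit 0x1550) (nat_lit 0x2000300040003000100000000) .nil)) (.cons (nat_lit 0x11110100) (nat_lit 0x1010) (nat_lit 8) (nat_lit 0x20340100) (.cons (nat_lit 0x11100100) (nat_lit 0x10010) (nat_lit 7) (nat_lit 0x30200100) .nil))) (.split (nat_lit 9) (nat_lit 0) (.split (nat_lit 9) (nat_lit 1) (.split (nat_lit 9) (nat_lit 2) (.split (nat_lit 9) (nat_lit 3) (.split (nat_lit 9) (nat_lit 4) (.split (nat_lit 9) (nat_lit 5) (.split (nat_lit 9) (nat_lit 6) (.split (nat_lit 9) (nat_lit 8) (.sup (nat_lit 0x2000000040007000b0010000d000000000000) (nat_lit 0x300000000000000000000000200070005)) (.non (nat_lit 0) (nat_lit 6) (nat_lit 0x54014) (nat_lit 0x2000300010000000000000000000300040000))) (.non (nat_lit 1) (nat_lit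 3) (nat_lit 0x45000) (nat_lit 0x1000000010001000000000000000000000000))) (.non (nat_lit 1) (nat_lit 3) (nat_lit 0x45400) (nat_lit 0x1000000010001000100000000000000000000))) (.non (nat_lit 1) (nat_lit 3) (nat_lit 0x45500) (nat_lit 0x1000000010001000100010000000000000000))) (.non (nat_lit 1) (nat_lit 5) (nat_lit 0x45140) (nat_lit 0x3000000020001000000030004000000000000))) (.non (nat_lit 1) (nat_lit 3) (nat_lit 0x45010) (nat_lit 0x1000000010001000000000000000100000000))) (.non (nat_lit 2) (nat_lit 3) (nat_lit 0xa0009) (nat_lit 0x1000100000000000000000000000000020002))) (.non (nat_lit 2) (nat_lit 3) (nat_lit 0x64009) (nat_lit 0x2000100010000000000000000000000020003))))) (.sup (nat_lit 0x30006000b0010000d000000000000) (nat_lit 0x300000000000000000000000200060004))) (.split (nat_lit 9) (nat_lit 0) (.split (nat_lit 9) (nat_lit 1) (.split (nat_lit 9) (nat_lit 3) (.split (nat_lit 9) (nat_lit 4) (.split (nat_lit 9) (nat_lit 5) (.split (nat_lit 9) (nat_lit 6) (.split (nat_lit 9) (nat_lit 2) (.split (nat_lit 9) (nat_lit 7)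 (.sup (nat_lit 0x30007000b0010000d000000000000) (nat_lit 0x2000400000000000000000000000100060004)) (.st (nat_lit 0) (nat_lit 2) (nat_lit 3) (nat_lit 0xa0009) (nat_lit 0x1000200000000000000000000000000030004) (nat_lit 1) (nat_lit 2) (.st (nat_lit 7) (nat_lit 1) (nat_lit 3) (nat_lit 0x45410) (nat_lit 0x1000000020002000100000000000100000000) (nat_lit 1) (nat_lit 1) (.st (nat_lit 8) (nat_lit 2) (nat_lit 3) (nat_lit 0xa0009) (nat_lit 0x1000200000000000000000000000000020002) (nat_lit 2) (nat_lit 1) (.st (nat_lit 9) (nat_lit 1) (nat_lit 3) (nat_lit 0x55410) (nat_lit 0x2000100020002000100000000000100000000) (nat_lit 1) (nat_lit 1) (.split (nat_lit 9) (nat_lit 7) (.split (nat_lit 9) (nat_lit 8) (.leaf (.cons (nat_lit 0x54014) (nat_lit 0x2000300010000000000000000000300040000) (.cons (nat_lit 0x1550) (nat_lit 0x2000300040003000100000000) .nil)) (.cons (nat_lit 0x1111110100) (nat_lit 0x1010) (nat_lit 0xd) (nat_lit 0x5640230100) (.cons (nat_lit 0x1111100100) (nat_lit 0x10010) (nat_lit 9) (nat_lit 0x4530200100) .nil))) (.non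 (nat_lit 1) (nat_lit 3) (nat_lit 0x65410) (nat_lit 0x2000100020002000100000000000100000000))) (.non (nat_lit 1) (nat_lit 3) (nat_lit 0xa5400) (nat_lit 0x2000100030002000100000000000000000000)))))))) (.split (nat_lit 9) (nat_lit 7) (.sup (nat_lit 0x30007000b0010000d000000000000) (nat_lit 0x2000300000000000000000000000100040003)) (.non (nat_lit 1) (nat_lit 3) (nat_lit 0x45010) (nat_lit 0x1000000010001000000000000000100000000)))) (.non (nat_lit 1) (nat_lit 3) (nat_lit 0x45410) (nat_lit 0x1000000010002000100000000000100000000))) (.non (nat_lit 1) (nat_lit 3) (nat_lit 0x45510) (nat_lit 0x1000000010002000200010000000100000000))) (.non (nat_lit 1) (nat_lit 6) (nat_lit 0x40540) (nat_lit 0x1000000000000000100020002000000000000))) (.non (nat_lit 1) (nat_lit 6) (nat_lit 0x40540) (nat_lit 0x1000000000000000100020002000000000000))) (.non (nat_lit 2) (nat_lit 3) (nat_lit 0x50004) (nat_lit 0x1000100000000000000000000000000010000))) (.non (nat_lit 2) (nat_lit 3) (nat_lit 0x50005) (nat_lit 0x1000100000000000000000000000000010001))))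

noncomputable def t341_12 : Tr := (.ex (nat_lit 3) (.ex (nat_lit 4) (.split (nat_lit 6) (nat_lit 2) (.split (nat_lit 7) (nat_lit 6) (.split (nat_lit 8) (nat_lit 1) (.pd (.cons (nat_lit 1) (nat_lit 5) (nat_lit 0) (nat_lit 0x862033200) (nat_lit 0xf423ff423fb71ae00000f423f54591a2c2800000f423f) (.cons (nat_lit 1) (nat_lit 6) (nat_lit 0) (nat_lit 0x870433200) (nat_lit 0xf423ff423f00000f423fb71ae1f156f423f00000f423f) (.cons (nat_lit 2) (nat_lit 5) (nat_lit 0) (nat_lit 0x166033000) (nat_lit 0xf423ff423fb71ae00000f423f5459100000b71ae51612) (.cons (nat_lit 2) (nat_lit 6) (nat_lit 0) (nat_lit 0x170433000) (nat_lit 0xf423ff423f00000f423fb71ae1f15600000b71ae51612) (.cons (nat_lit 2) (nat_lit 7) (nat_lit 0) (nat_lit 0x105433000) (nat_lit 0xf423f00000f423fb71aea2c280473700000b71ae51612) .nil))))) t341_11) (.non (nat_lit 2) (nat_lit 3) (nat_lit 0x10009) (nat_lit 0x100000000000000000000000000010001))) (.non (nat_lit 1) (nat_lit 3) (nat_lit 0x9410) (nat_lit 0x10002000100000000000100000000))) (.non (nat_lit 1) (nat_lit 3) (nat_lit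 0xa810) (nat_lit 0x10002000100000000000200000000))) (.split (nat_lit 9) (nat_lit 0) (.split (nat_lit 9) (nat_lit 1) (.split (nat_lit 9) (nat_lit 2) (.split (nat_lit 9) (nat_lit 5) (.split (nat_lit 9) (nat_lit 6) (.split (nat_lit 9) (nat_lit 7) (.split (nat_lit 9) (nat_lit 3) (.split (nat_lit 9) (nat_lit 8) (.unj (nat_lit 0x15) (nat_lit 0x100010001) (nat_lit 0x40540) (nat_lit 0x1000000000000000100020002000000000000)) (.unj (nat_lit 0x15) (nat_lit 0x100010001) (nat_lit 0x40540) (nat_lit 0x1000000000000000100020002000000000000))) (.split (nat_lit 9) (nat_lit 8) (.unj (nat_lit 0x15) (nat_lit 0x100010001) (nat_lit 0x40140) (nat_lit 0x1000000000000000000010001000000000000)) (.unj (nat_lit 0x15) (nat_lit 0x100010001) (nat_lit 0x40140) (nat_lit 0x1000000000000000000010001000000000000)))) (.non (nat_lit 1) (nat_lit 3) (nat_lit 0x45500) (nat_lit 0x1000000010001000100010000000000000000))) (.non (nat_lit 1) (nat_lit 3) (nat_lit 0x41500) (nat_lit 0x1000000000001000100010000000000000000))) (.non (nat_lit 1) (nat_lit 3) (nat_lit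 0x40500) (nat_lit 0x1000000000000000100010000000000000000))) (.star (nat_lit 9) (nat_lit 2) (nat_lit 4))) (.star (nat_lit 9) (nat_lit 1) (nat_lit 4))) (.non (nat_lit 2) (nat_lit 3) (nat_lit 0x60109) (nat_lit 0x2000100000000000000010000000000020003)))) (.split (nat_lit 9) (nat_lit 0) (.split (nat_lit 9) (nat_lit 1) (.split (nat_lit 9) (nat_lit 2) (.split (nat_lit 9) (nat_lit 5) (.split (nat_lit 9) (nat_lit 6) (.split (nat_lit 9) (nat_lit 4) (.split (nat_lit 9) (nat_lit 7) (.split (nat_lit 9) (nat_lit 8) (.unj (nat_lit 0x15) (nat_lit 0x100010001) (nat_lit 0x40540) (nat_lit 0x1000000000000000100020002000000000000)) (.unj (nat_lit 0x15) (nat_lit 0x100010001) (nat_lit 0x40540) (nat_lit 0x1000000000000000100020002000000000000))) (.split (nat_lit 9) (nat_lit 8) (.unj (nat_lit 0x15) (nat_lit 0x100010001) (nat_lit 0x40540) (nat_lit 0x1000000000000000100020002000000000000)) (.non (nat_lit 1) (nat_lit 4) (nat_lit 0x55450) (nat_lit 0x2000100020002000100000001000100000000)))) (.split (nat_lit 9) (nat_lit 7) (.split (nat_lit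 9) (nat_lit 8) (.unj (nat_lit 0x15) (nat_lit 0x100010001) (nat_lit 0x40140) (nat_lit 0x1000000000000000000010001000000000000)) (.unj (nat_lit 0x15) (nat_lit 0x100010001) (nat_lit 0x40140) (nat_lit 0x1000000000000000000010001000000000000))) (.non (nat_lit 1) (nat_lit 3) (nat_lit 0x45500) (nat_lit 0x1000000010001000100010000000000000000)))) (.non (nat_lit 1) (nat_lit 3) (nat_lit 0x45410) (nat_lit 0x1000000010002000100000000000100000000))) (.non (nat_lit 1) (nat_lit 3) (nat_lit 0x45510) (nat_lit 0x1000000010002000200010000000100000000))) (.star (nat_lit 9) (nat_lit 2) (nat_lit 3))) (.star (nat_lit 9) (nat_lit 1) (nat_lit 3))) (.non (nat_lit 2) (nat_lit 4) (nat_lit 0x60049) (nat_lit 0x2000100000000000000000001000000020003))))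

noncomputable def t341_13 : Tr := (.split (nat_lit 2) (nat_lit 1) (.split (nat_lit 8) (nat_lit 1) (.split (nat_lit 8) (nat_lit 7) (.split (nat_lit 6) (nat_lit 2) (.split (nat_lit 7) (nat_lit 6) (.pd (.cons (nat_lit 0) (nat_lit 6) (nat_lit 0) (nat_lit 0x180433110) (nat_lit 0xb71aef423f00000f423fb71ae1f156f423f02f7a00000) (.cons (nat_lit 1) (nat_lit 5) (nat_lit 0) (nat_lit 0x762033200) (nat_lit 0xf423fb71aea2c2800000f423f545919896500000f423f) (.cons (nat_lit 1) (nat_lit 6) (nat_lit 0) (nat_lit 0x770433200) (nat_lit 0xf423fb71ae00000f423fb71ae1f156f423f00000f423f) (.cons (nat_lit 2) (nat_lit 5) (nat_lit 0) (nat_lit 0x187033000) (nat_lit 0xa2c28b71aef423f00000f423f54591000009896530d3b) (.cons (nat_lit 2) (nat_lit 6) (nat_lit 0) (nat_lit 0x180433000) (nat_lit 0xb71aef423f00000f423fb71ae1f15600000a2c283d08b) (.cons (nat_lit 2) (nat_lit 7) (nat_lit 0) (nat_lit 0x105433000) (nat_lit 0xf423f00000f423fb71aea2c280473700000b71ae51612) .nil)))))) (.leaf (.cons (nat_lit 0x11014) (nat_lit 0x100000001000000000000000200020000)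 (.cons (nat_lit 0x1550) (nat_lit 0x2000300040003000100000000) .nil)) (.cons (nat_lit 0x111110100) (nat_lit 0x1010) (nat_lit 0xc) (nat_lit 0x540230100) .nil))) (.non (nat_lit 1) (nat_lit 3) (nat_lit 0x29500) (nat_lit 0x100020003000200010000000000000000))) (.non (nat_lit 1) (nat_lit 3) (nat_lit 0xa810) (nat_lit 0x10002000100000000000200000000))) (.non (nat_lit 1) (nat_lit 3) (nat_lit 0x25410) (nat_lit 0x100020002000100000000000100000000))) (.non (nat_lit 2) (nat_lit 3) (nat_lit 0x10009) (nat_lit 0x100000000000000000000000000010001))) (.split (nat_lit 6) (nat_lit 2) (.split (nat_lit 7) (nat_lit 6) (.split (nat_lit 8) (nat_lit 7) (.split (nat_lit 8) (nat_lit 1) (.pd (.cons (nat_lit 1) (nat_lit 5) (nat_lit 0) (nat_lit 0x762033200) (nat_lit 0xf423fb71aea2c2800000f423f545919896500000f423f) (.cons (nat_lit 1) (nat_lit 6) (nat_lit 0) (nat_lit 0x770433200) (nat_lit 0xf423fb71ae00000f423fb71ae1f156f423f00000f423f) (.cons (nat_lit 2) (nat_lit 5) (nat_lit 0) (nat_lit 0x187033000) (nat_lit 0xa2c28b71aef423f00000f423f54591000009896530d3b)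 (.cons (nat_lit 2) (nat_lit 6) (nat_lit 0) (nat_lit 0x180433000) (nat_lit 0xb71aef423f00000f423fb71ae1f15600000a2c283d08b) (.cons (nat_lit 2) (nat_lit 7) (nat_lit 0) (nat_lit 0x105433000) (nat_lit 0xf423f00000f423fb71aea2c280473700000b71ae51612) .nil))))) (.leaf (.cons (nat_lit 0x10034) (nat_lit 0x100000000000000000000000100020000) (.cons (nat_lit 0x1550) (nat_lit 0x2000300040003000100000000) .nil)) (.cons (nat_lit 0x111110100) (nat_lit 0x1010) (nat_lit 0xc) (nat_lit 0x540230100) .nil))) (.non (nat_lit 2) (nat_lit 3) (nat_lit 0x10009) (nat_lit 0x100000000000000000000000000010001))) (.non (nat_lit 1) (nat_lit 3) (nat_lit 0x25410) (nat_lit 0x100020002000100000000000100000000))) (.non (nat_lit 1) (nat_lit 3) (nat_lit 0x29500) (nat_lit 0x100020003000200010000000000000000))) (.non (nat_lit 1) (nat_lit 3) (nat_lit 0xa810) (nat_lit 0x10002000100000000000200000000))))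

noncomputable def t341_14 : Tr := (.st (nat_lit 7) (nat_lit 1) (nat_lit 3) (nat_lit 0x15410) (nat_lit 0x100020002000100000000000100000000) (nat_lit 1) (nat_lit 1) (.st (nat_lit 8) (nat_lit 2) (nat_lit 3) (nat_lit 0x28009) (nat_lit 0x200010000000000000000000000020002) (nat_lit 2) (nat_lit 1) (.st (nat_lit 0) (nat_lit 2) (nat_lit 3) (nat_lit 0x28009) (nat_lit 0x200010000000000000000000000030004) (nat_lit 1) (nat_lit 2) (.ex (nat_lit 3) (.ex (nat_lit 4) t341_13 (.split (nat_lit 9) (nat_lit 0) (.split (nat_lit 9) (nat_lit 1) (.split (nat_lit 9) (nat_lit 2) (.split (nat_lit 9) (nat_lit 5) (.split (nat_lit 9) (nat_lit 6) (.split (nat_lit 9) (nat_lit 7) (.split (nat_lit 9) (nat_lit 8) (.split (nat_lit 9) (nat_lit 3) (.unj (nat_lit 0x15) (nat_lit 0x100010001) (nat_lit 0x40540) (nat_lit 0x1000000000000000100020002000000000000)) (.unj (nat_lit 0x15) (nat_lit 0x100010001) (nat_lit 0x40140) (nat_lit 0x1000000000000000000010001000000000000))) (.non (nat_lit 1) (nat_lit 3) (nat_lit 0x55500) (nat_lit 0x1000100010001000100010000000000000000)))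 (.non (nat_lit 1) (nat_lit 3) (nat_lit 0x45500) (nat_lit 0x1000000010001000100010000000000000000))) (.non (nat_lit 1) (nat_lit 3) (nat_lit 0x41500) (nat_lit 0x1000000000001000100010000000000000000))) (.non (nat_lit 1) (nat_lit 3) (nat_lit 0x40500) (nat_lit 0x1000000000000000100010000000000000000))) (.star (nat_lit 9) (nat_lit 2) (nat_lit 4))) (.star (nat_lit 9) (nat_lit 1) (nat_lit 4))) (.non (nat_lit 2) (nat_lit 3) (nat_lit 0x68009) (nat_lit 0x2000200010000000000000000000000030004)))) (.split (nat_lit 9) (nat_lit 0) (.split (nat_lit 9) (nat_lit 1) (.split (nat_lit 9) (nat_lit 2) (.split (nat_lit 9) (nat_lit 5) (.split (nat_lit 9) (nat_lit 6) (.split (nat_lit 9) (nat_lit 7) (.split (nat_lit 9) (nat_lit 8) (.split (nat_lit 9) (nat_lit 4) (.unj (nat_lit 0x15) (nat_lit 0x100010001) (nat_lit 0x40540) (nat_lit 0x1000000000000000100020002000000000000)) (.unj (nat_lit 0x15) (nat_lit 0x100010001) (nat_lit 0x40140) (nat_lit 0x1000000000000000000010001000000000000))) (.non (nat_lit 2) (nat_lit 3) (nat_lit 0xa8009) (nat_lit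 0x1000200010000000000000000000000020002))) (.non (nat_lit 1) (nat_lit 3) (nat_lit 0x55410) (nat_lit 0x1000100020002000100000000000100000000))) (.non (nat_lit 1) (nat_lit 3) (nat_lit 0x45410) (nat_lit 0x1000000010002000100000000000100000000))) (.non (nat_lit 1) (nat_lit 3) (nat_lit 0x45510) (nat_lit 0x1000000010002000200010000000100000000))) (.star (nat_lit 9) (nat_lit 2) (nat_lit 3))) (.star (nat_lit 9) (nat_lit 1) (nat_lit 3))) (.non (nat_lit 2) (nat_lit 3) (nat_lit 0x68009) (nat_lit 0x2000200010000000000000000000000030004)))))))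

noncomputable def t341_15 : Tr := (.split (nat_lit 8) (nat_lit 7) (.st (nat_lit 1) (nat_lit 2) (nat_lit 3) (nat_lit 0x20009) (nat_lit 0x100000000000000000000000000020002) (nat_lit 2) (nat_lit 1) (.ex (nat_lit 2) t341_12 (.split (nat_lit 9) (nat_lit 1) (.split (nat_lit 9) (nat_lit 3) (.split (nat_lit 9) (nat_lit 4) (.split (nat_lit 9) (nat_lit 5) (.split (nat_lit 9) (nat_lit 6) (.split (nat_lit 9) (nat_lit 7) (.split (nat_lit 9) (nat_lit 0) (.split (nat_lit 9) (nat_lit 8) (.split (nat_lit 9) (nat_lit 2) (.split (nat_lit 8) (nat_lit 1) (.split (nat_lit 7) (nat_lit 6) (.split (nat_lit 6) (nat_lit 2) (.sup (nat_lit 0x6000d00160020001a000000000000) (nat_lit 0x20005000000000000000000000003000b0008)) (.non (nat_lit 1) (nat_lit 3) (nat_lit 0xa810) (nat_lit 0x10002000100000000000200000000))) (.non (nat_lit 1) (nat_lit 3) (nat_lit 0x9410) (nat_lit 0x10002000100000000000100000000))) (.non (nat_lit 2) (nat_lit 3) (nat_lit 0x10009) (nat_lit 0x100000000000000000000000000010001))) (.non (nat_lit 1) (nat_lit 3) (nat_lit 0x85410)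 (nat_lit 0x1000000010002000100000000000200000000))) (.split (nat_lit 9) (nat_lit 2) (.split (nat_lit 9) (nat_lit 8) (.split (nat_lit 8) (nat_lit 1) (.split (nat_lit 7) (nat_lit 6) (.split (nat_lit 6) (nat_lit 2) (.sup (nat_lit 0x30007000b0010000d000000000000) (nat_lit 0x2000300000000000000000000000100040003)) (.non (nat_lit 1) (nat_lit 3) (nat_lit 0x5a010) (nat_lit 0x2000100010002000000000000000300000000))) (.non (nat_lit 1) (nat_lit 3) (nat_lit 0x9410) (nat_lit 0x10002000100000000000100000000))) (.non (nat_lit 2) (nat_lit 3) (nat_lit 0x10009) (nat_lit 0x100000000000000000000000000010001))) (.non (nat_lit 1) (nat_lit 3) (nat_lit 0x65410) (nat_lit 0x2000100010002000100000000000200000000))) (.non (nat_lit 1) (nat_lit 3) (nat_lit 0xa5010) (nat_lit 0x2000100010002000000000000000300000000)))) (.split (nat_lit 9) (nat_lit 8) (.sup (nat_lit 0x7000f00170020001a000000000000) (nat_lit 0x4000400000000000000000000000100080007)) (.non (nat_lit 1) (nat_lit 3) (nat_lit 0x55411) (nat_lit 0x2000100010002000100000000000200000001))))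 (.non (nat_lit 1) (nat_lit 3) (nat_lit 0x45010) (nat_lit 0x1000000010001000000000000000100000000))) (.non (nat_lit 1) (nat_lit 3) (nat_lit 0x41010) (nat_lit 0x1000000000001000000000000000100000000))) (.non (nat_lit 1) (nat_lit 3) (nat_lit 0x41410) (nat_lit 0x1000000000001000100000000000100000000))) (.star (nat_lit 9) (nat_lit 2) (nat_lit 4))) (.star (nat_lit 9) (nat_lit 2) (nat_lit 3))) (.non (nat_lit 2) (nat_lit 3) (nat_lit 0xa0009) (nat_lit 0x1000100000000000000000000000000020002))))) (.st (nat_lit 1) (nat_lit 2) (nat_lit 3) (nat_lit 0x20009) (nat_lit 0x100000000000000000000000000020002) (nat_lit 2) (nat_lit 1) (.st (nat_lit 2) (nat_lit 1) (nat_lit 3) (nat_lit 0x15510) (nat_lit 0x100020003000200010000000200000000) (nat_lit 1) (nat_lit 1) t341_14)))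

noncomputable def t341_16 : Tr := (.ex (nat_lit 3) (.ex (nat_lit 4) (.split (nat_lit 7) (nat_lit 2) (.split (nat_lit 7) (nat_lit 6) (.pd (.cons (nat_lit 0) (nat_lit 7) (nat_lit 0x110) (nat_lit 0x5433120) (nat_lit 0xf423fb71aea2c2804737000010000100000) (.cons (nat_lit 1) (nat_lit 5) (nat_lit 0) (nat_lit 0x27033200) (nat_lit 0xb71aef423f00000f423f545915161200000f423f) (.cons (nat_lit 1) (nat_lit 6) (nat_lit 0) (nat_lit 0x20433200) (nat_lit 0xf423f00000f423fb71ae1f1567a11e00000f423f) (.cons (nat_lit 1) (nat_lit 7) (nat_lit 0) (nat_lit 0x5433200) (nat_lit 0xf423fb71aea2c2804737f423f00000f423f) (.cons (nat_lit 2) (nat_lit 5) (nat_lit 0) (nat_lit 0x66033000) (nat_lit 0xf423fb71ae00000f423f5459100000f423f7a11e) (.cons (nat_lit 2) (nat_lit 6) (nat_lit 0) (nat_lit 0x70433000) (nat_lit 0xf423f00000f423fb71ae1f15600000f423f7a11e) (.cons (nat_lit 2) (nat_lit 7) (nat_lit 0) (nat_lit 0x5433000) (nat_lit 0xf423fb71aea2c280473700000f423f7a11e) .nil))))))) (.leaf (.cons (nat_lit 0x4014) (nat_lit 0x10000000000000000000100010000)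 .nil) (.cons (nat_lit 0x11000100) (nat_lit 0x100010) (nat_lit 6) (nat_lit 0x12000000) .nil))) (.non (nat_lit 1) (nat_lit 3) (nat_lit 0x9010) (nat_lit 0x10001000000000000000100000000))) (.non (nat_lit 1) (nat_lit 3) (nat_lit 0x5510) (nat_lit 0x40003000200010000000300000000))) (.split (nat_lit 8) (nat_lit 1) (.split (nat_lit 8) (nat_lit 2) (.split (nat_lit 8) (nat_lit 5) (.split (nat_lit 8) (nat_lit 6) (.split (nat_lit 8) (nat_lit 7) (.split (nat_lit 8) (nat_lit 0) (.split (nat_lit 8) (nat_lit 3) (.unj (nat_lit 0x15) (nat_lit 0x100010001) (nat_lit 0x10540) (nat_lit 0x100000000000100020002000000000000)) (.unj (nat_lit 0x15) (nat_lit 0x100010001) (nat_lit 0x10140) (nat_lit 0x100000000000000010001000000000000))) (.split (nat_lit 8) (nat_lit 3) (.unj (nat_lit 0x4014) (nat_lit 0x10000000000000000000100010000) (nat_lit 0x10540) (nat_lit 0x100000000000100020002000000000000)) (.unj (nat_lit 0x4014) (nat_lit 0x10000000000000000000100010000) (nat_lit 0x10140) (nat_lit 0x100000000000000010001000000000000)))) (.non (nat_lit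 1) (nat_lit 3) (nat_lit 0x15500) (nat_lit 0x100010001000100010000000000000000))) (.non (nat_lit 1) (nat_lit 3) (nat_lit 0x11500) (nat_lit 0x100000001000100010000000000000000))) (.non (nat_lit 1) (nat_lit 3) (nat_lit 0x10500) (nat_lit 0x100000000000100010000000000000000))) (.star (nat_lit 8) (nat_lit 2) (nat_lit 4))) (.star (nat_lit 8) (nat_lit 1) (nat_lit 4)))) (.split (nat_lit 8) (nat_lit 1) (.split (nat_lit 8) (nat_lit 2) (.split (nat_lit 8) (nat_lit 5) (.split (nat_lit 8) (nat_lit 6) (.split (nat_lit 8) (nat_lit 7) (.split (nat_lit 8) (nat_lit 0) (.split (nat_lit 8) (nat_lit 4) (.unj (nat_lit 0x15) (nat_lit 0x100010001) (nat_lit 0x10540) (nat_lit 0x100000000000100020002000000000000)) (.unj (nat_lit 0x15) (nat_lit 0x100010001) (nat_lit 0x10140) (nat_lit 0x100000000000000010001000000000000))) (.split (nat_lit 8) (nat_lit 4) (.unj (nat_lit 0x4014) (nat_lit 0x10000000000000000000100010000) (nat_lit 0x10540) (nat_lit 0x100000000000100020002000000000000)) (.unj (nat_lit 0x4014) (nat_lit 0x10000000000000000000100010000)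 (nat_lit 0x10140) (nat_lit 0x100000000000000010001000000000000)))) (.non (nat_lit 1) (nat_lit 3) (nat_lit 0x2a010) (nat_lit 0x100020001000000000000000200000000))) (.non (nat_lit 1) (nat_lit 3) (nat_lit 0x2a810) (nat_lit 0x100020002000100000000000200000000))) (.non (nat_lit 1) (nat_lit 3) (nat_lit 0x2aa10) (nat_lit 0x100020002000200010000000200000000))) (.star (nat_lit 8) (nat_lit 2) (nat_lit 3))) (.star (nat_lit 8) (nat_lit 1) (nat_lit 3))))

noncomputable def t341_17 : Tr := (.split (nat_lit 7) (nat_lit 2) (.split (nat_lit 6) (nat_lit 2) .uj (.st (nat_lit 5) (nat_lit 1) (nat_lit 3) (nat_lit 0x5510) (nat_lit 0x10002000200010000000100000000) (nat_lit 1) (nat_lit 1) (.st (nat_lit 6) (nat_lit 1) (nat_lit 3) (nat_lit 0x5410) (nat_lit 0x10002000100000000000100000000) (nat_lit 1) (nat_lit 1) (.ex (nat_lit 1) t341_10 (.split (nat_lit 8) (nat_lit 0) (.split (nat_lit 8) (nat_lit 3) (.split (nat_lit 8) (nat_lit 4) (.split (nat_lit 8) (nat_lit 5) (.split (nat_lit 8) (nat_lit 6) (.split (nat_lit 8) (nat_lit 2) t341_15 (.split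 (nat_lit 8) (nat_lit 7) (.split (nat_lit 8) (nat_lit 1) (.split (nat_lit 8) (nat_lit 2) (.split (nat_lit 7) (nat_lit 6) (.split (nat_lit 6) (nat_lit 2) (.sup (nat_lit 0x30007000b0010000d000000000000) (nat_lit 0x200000000000000000000000100040003)) (.non (nat_lit 1) (nat_lit 3) (nat_lit 0xa810) (nat_lit 0x10002000100000000000200000000))) (.non (nat_lit 1) (nat_lit 3) (nat_lit 0x9410) (nat_lit 0x10002000100000000000100000000))) (.non (nat_lit 1) (nat_lit 3) (nat_lit 0x25410) (nat_lit 0x100010002000100000000000200000000))) (.non (nat_lit 2) (nat_lit 3) (nat_lit 0x10009) (nat_lit 0x100000000000000000000000000010001))) (.non (nat_lit 1) (nat_lit 3) (nat_lit 0x15010) (nat_lit 0x100010001000000000000000100000000)))) (.non (nat_lit 1) (nat_lit 3) (nat_lit 0x15410) (nat_lit 0x100010002000100000000000100000000))) (.non (nat_lit 1) (nat_lit 3) (nat_lit 0x15510) (nat_lit 0x100010002000200010000000100000000))) (.star (nat_lit 8) (nat_lit 1) (nat_lit 4))) (.star (nat_lit 8) (nat_lit 1) (nat_lit 3))) (.non (nat_lit 2) (nat_lit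 3) (nat_lit 0x10005) (nat_lit 0x100000000000000000000000000010001))))))) (.split (nat_lit 6) (nat_lit 2) (.split (nat_lit 7) (nat_lit 2) (.sup (nat_lit 0x6000a0007) (nat_lit 0x100040007000a0008000000000000)) (.st (nat_lit 2) (nat_lit 1) (nat_lit 3) (nat_lit 0xa810) (nat_lit 0x30002000100000000000400000000) (nat_lit 1) (nat_lit 2) (.st (nat_lit 5) (nat_lit 1) (nat_lit 3) (nat_lit 0xaa10) (nat_lit 0x20002000200010000000200000000) (nat_lit 2) (nat_lit 1) (.st (nat_lit 6) (nat_lit 1) (nat_lit 3) (nat_lit 0xa810) (nat_lit 0x20002000100000000000200000000) (nat_lit 2) (nat_lit 1) (.st (nat_lit 7) (nat_lit 1) (nat_lit 3) (nat_lit 0xa010) (nat_lit 0x20001000000000000000200000000) (nat_lit 2) (nat_lit 1) (.ex (nat_lit 1) t341_16 (.split (nat_lit 8) (nat_lit 0) (.split (nat_lit 8) (nat_lit 2) (.split (nat_lit 8) (nat_lit 3) (.split (nat_lit 8) (nat_lit 4) (.split (nat_lit 8) (nat_lit 5) (.split (nat_lit 8) (nat_lit 6) (.split (nat_lit 8) (nat_lit 7) (.sup (nat_lit 0x30007000b0010000d000000000000) (nat_lit 0x200000000000000000000000100040003))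 (.non (nat_lit 1) (nat_lit 3) (nat_lit 0x2a010) (nat_lit 0x100020001000000000000000200000000))) (.non (nat_lit 1) (nat_lit 3) (nat_lit 0x2a810) (nat_lit 0x100020002000100000000000200000000))) (.non (nat_lit 1) (nat_lit 3) (nat_lit 0x2aa10) (nat_lit 0x100020002000200010000000200000000))) (.star (nat_lit 8) (nat_lit 1) (nat_lit 4))) (.star (nat_lit 8) (nat_lit 1) (nat_lit 3))) (.non (nat_lit 1) (nat_lit 3) (nat_lit 0x1a810) (nat_lit 0x200030002000100000000000400000000))) (.non (nat_lit 2) (nat_lit 3) (nat_lit 0x10005) (nat_lit 0x100000000000000000000000000010001))))))))) (.non (nat_lit 1) (nat_lit 3) (nat_lit 0x5010) (nat_lit 0x10001000000000000000100000000))))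

noncomputable def t341_18 : Tr := (.ex (nat_lit 4) (.split (nat_lit 2) (nat_lit 1) (.split (nat_lit 7) (nat_lit 1) (.split (nat_lit 7) (nat_lit 6) (.pd (.cons (nat_lit 0) (nat_lit 5) (nat_lit 0) (nat_lit 0x17033110) (nat_lit 0xb71aef423f00000f423f54591f423f02f7a00000) (.cons (nat_lit 0) (nat_lit 6) (nat_lit 0) (nat_lit 0x10433110) (nat_lit 0xf423f00000f423fb71ae1f156f423f1750000000) (.cons (nat_lit 0) (nat_lit 7) (nat_lit 0) (nat_lit 0x5433110) (nat_lit 0xf423fb71aea2c2804737f423f5459100000) (.cons (nat_lit 1) (nat_lit 5) (nat_lit 0) (nat_lit 0x66033200) (nat_lit 0xf423fb71ae00000f423f54591f423f00000f423f) (.cons (nat_lit 1) (nat_lit 6) (nat_lit 0) (nat_lit 0x70433200) (nat_lit 0xf423f00000f423fb71ae1f156f423f00000f423f) (.cons (nat_lit 1) (nat_lit 7) (nat_lit 0) (nat_lit 0x5433200) (nat_lit 0xf423fb71aea2c2804737f423f00000f423f) (.cons (nat_lit 2) (nat_lit 5) (nat_lit 0) (nat_lit 0x17033000) (nat_lit 0xb71aef423f00000f423f5459100000a2c283d08b) (.cons (nat_lit 2) (nat_lit 6) (nat_lit 0) (nat_lit 0x10433000) (nat_lit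 0xf423f00000f423fb71ae1f15600000b71ae51612) (.cons (nat_lit 2) (nat_lit 7) (nat_lit 0) (nat_lit 0x5433000) (nat_lit 0xf423fb71aea2c280473700000f423f7a11e) .nil))))))))) (.leaf (.cons (nat_lit 0x5414) (nat_lit 0x30002000100000000000300040000) .nil) (.cons (nat_lit 0x11000110) (nat_lit 0x100001) (nat_lit 0x10) (nat_lit 0x23000010) .nil))) (.non (nat_lit 2) (nat_lit 3) (nat_lit 0x6a04) (nat_lit 0x40003000200010000000000020000))) (.non (nat_lit 2) (nat_lit 3) (nat_lit 0x4009) (nat_lit 0x10000000000000000000000010001))) (.split (nat_lit 7) (nat_lit 1) (.sup (nat_lit 0x9000a0007) (nat_lit 0x100040007000a0008000000000000)) (.non (nat_lit 2) (nat_lit 3) (nat_lit 0x4009) (nat_lit 0x10000000000000000000000010001)))) (.split (nat_lit 8) (nat_lit 0) (.split (nat_lit 8) (nat_lit 1) (.split (nat_lit 8) (nat_lit 2) (.split (nat_lit 8) (nat_lit 5) (.split (nat_lit 8) (nat_lit 6) (.split (nat_lit 8) (nat_lit 7) (.split (nat_lit 8) (nat_lit 3) (.unj (nat_lit 0x15) (nat_lit 0x100010001) (nat_lit 0x10540) (nat_lit 0x100000000000100020002000000000000))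 (.unj (nat_lit 0x15) (nat_lit 0x100010001) (nat_lit 0x10140) (nat_lit 0x100000000000000010001000000000000))) (.non (nat_lit 1) (nat_lit 3) (nat_lit 0x15500) (nat_lit 0x100010001000100010000000000000000))) (.non (nat_lit 1) (nat_lit 3) (nat_lit 0x11500) (nat_lit 0x100000001000100010000000000000000))) (.non (nat_lit 1) (nat_lit 3) (nat_lit 0x10500) (nat_lit 0x100000000000100010000000000000000))) (.star (nat_lit 8) (nat_lit 2) (nat_lit 4))) (.star (nat_lit 8) (nat_lit 1) (nat_lit 4))) (.non (nat_lit 2) (nat_lit 3) (nat_lit 0x1a009) (nat_lit 0x200020001000000000000000000030004))))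

noncomputable def t341_19 : Tr := (.st (nat_lit 7) (nat_lit 2) (nat_lit 3) (nat_lit 0xa009) (nat_lit 0x20001000000000000000000020002) (nat_lit 2) (nat_lit 1) (.st (nat_lit 0) (nat_lit 2) (nat_lit 3) (nat_lit 0xa009) (nat_lit 0x20001000000000000000000030004) (nat_lit 1) (nat_lit 2) (.ex (nat_lit 2) (.ex (nat_lit 3) t341_18 (.split (nat_lit 8) (nat_lit 0) (.split (nat_lit 8) (nat_lit 1) (.split (nat_lit 8) (nat_lit 2) (.split (nat_lit 8) (nat_lit 5) (.split (nat_lit 8) (nat_lit 6) (.split (nat_lit 8) (nat_lit 7) (.split (nat_lit 8) (nat_lit 4) (.unj (nat_lit 0x15) (nat_lit 0x100010001) (nat_lit 0x10540) (nat_lit 0x100000000000100020002000000000000)) (.unj (nat_lit 0x15) (nat_lit 0x100010001) (nat_lit 0x10140) (nat_lit 0x100000000000000010001000000000000))) (.non (nat_lit 2) (nat_lit 3) (nat_lit 0x2a009) (nat_lit 0x100020001000000000000000000020002))) (.non (nat_lit 2) (nat_lit 3) (nat_lit 0x2a809) (nat_lit 0x100020002000100000000000000020002))) (.non (nat_lit 2) (nat_lit 3) (nat_lit 0x2aa09) (nat_lit 0x100020002000200010000000000020002)))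 (.star (nat_lit 8) (nat_lit 2) (nat_lit 3))) (.star (nat_lit 8) (nat_lit 1) (nat_lit 3))) (.non (nat_lit 2) (nat_lit 3) (nat_lit 0x1a009) (nat_lit 0x200020001000000000000000000030004)))) (.split (nat_lit 8) (nat_lit 0) (.split (nat_lit 8) (nat_lit 1) (.split (nat_lit 8) (nat_lit 3) (.split (nat_lit 8) (nat_lit 4) (.split (nat_lit 8) (nat_lit 5) (.split (nat_lit 8) (nat_lit 6) (.split (nat_lit 8) (nat_lit 7) (.split (nat_lit 8) (nat_lit 2) (.split (nat_lit 7) (nat_lit 1) (.sup (nat_lit 0x20007000b0010000d000000000000) (nat_lit 0x100000000000000000000000300030002)) (.non (nat_lit 2) (nat_lit 3) (nat_lit 0x4009) (nat_lit 0x10000000000000000000000010001))) (.split (nat_lit 8) (nat_lit 2) (.split (nat_lit 7) (nat_lit 1) (.sup (nat_lit 0x700000000000000000000000a00060000) (nat_lit 0x100040007000a0008000000000000)) (.non (nat_lit 2) (nat_lit 3) (nat_lit 0x4009) (nat_lit 0x10000000000000000000000010001))) (.sup (nat_lit 0x800000000000000000000000a00040000) (nat_lit 0x100040007000a0008000000000000)))) (.non (nat_lit 2)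 (nat_lit 3) (nat_lit 0x2a009) (nat_lit 0x100020001000000000000000000020002))) (.non (nat_lit 2) (nat_lit 3) (nat_lit 0x2a809) (nat_lit 0x100020002000100000000000000020002))) (.non (nat_lit 2) (nat_lit 3) (nat_lit 0x2aa09) (nat_lit 0x100020002000200010000000000020002))) (.star (nat_lit 8) (nat_lit 2) (nat_lit 4))) (.star (nat_lit 8) (nat_lit 2) (nat_lit 3))) (.non (nat_lit 2) (nat_lit 3) (nat_lit 0x28009) (nat_lit 0x100010000000000000000000000020002))) (.non (nat_lit 2) (nat_lit 3) (nat_lit 0x1a009) (nat_lit 0x200020001000000000000000000030004))))))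

noncomputable def t341_20 : Tr := (.ex (nat_lit 4) (.split (nat_lit 2) (nat_lit 1) (.split (nat_lit 7) (nat_lit 1) (.split (nat_lit 6) (nat_lit 2) (.split (nat_lit 7) (nat_lit 6) (.pd (.cons (nat_lit 0) (nat_lit 6) (nat_lit 0) (nat_lit 0x10433110) (nat_lit 0xf423f00000f423fb71ae1f156f423f1750000000) (.cons (nat_lit 1) (nat_lit 5) (nat_lit 0) (nat_lit 0x62033200) (nat_lit 0xf423fb71ae00000f423f54591a2c2800000f423f) (.cons (nat_lit 1) (nat_lit 6) (nat_lit 0) (nat_lit 0x70433200) (nat_lit 0xf423f00000f423fb71ae1f156f423f00000f423f) (.cons (nat_lit 2) (nat_lit 5) (nat_lit 0) (nat_lit 0x17033000) (nat_lit 0xb71aef423f00000f423f5459100000a2c283d08b) (.cons (nat_lit 2) (nat_lit 6) (nat_lit 0) (nat_lit 0x10433000) (nat_lit 0xf423f00000f423fb71ae1f15600000b71ae51612) (.cons (nat_lit 2) (nat_lit 7) (nat_lit 0) (nat_lit 0x5433000) (nat_lit 0xf423fb71aea2c280473700000f423f7a11e) .nil)))))) (.leaf (.cons (nat_lit 0x5014) (nat_lit 0x10001000000000000000100010000) (.cons (nat_lit 0x1550) (nat_lit 0x2000300040003000100000000)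 .nil)) .nil)) (.non (nat_lit 1) (nat_lit 3) (nat_lit 0x9410) (nat_lit 0x10002000100000000000100000000))) (.non (nat_lit 1) (nat_lit 3) (nat_lit 0xa810) (nat_lit 0x10002000100000000000200000000))) (.non (nat_lit 2) (nat_lit 3) (nat_lit 0x4009) (nat_lit 0x10000000000000000000000010001))) (.split (nat_lit 6) (nat_lit 2) (.split (nat_lit 7) (nat_lit 6) (.split (nat_lit 7) (nat_lit 1) (.pd (.cons (nat_lit 1) (nat_lit 5) (nat_lit 0) (nat_lit 0x62033200) (nat_lit 0xf423fb71ae00000f423f54591a2c2800000f423f) (.cons (nat_lit 1) (nat_lit 6) (nat_lit 0) (nat_lit 0x70433200) (nat_lit 0xf423f00000f423fb71ae1f156f423f00000f423f) (.cons (nat_lit 2) (nat_lit 5) (nat_lit 0) (nat_lit 0x17033000) (nat_lit 0xb71aef423f00000f423f5459100000a2c283d08b) (.cons (nat_lit 2) (nat_lit 6) (nat_lit 0) (nat_lit 0x10433000) (nat_lit 0xf423f00000f423fb71ae1f15600000b71ae51612) (.cons (nat_lit 2) (nat_lit 7) (nat_lit 0) (nat_lit 0x5433000) (nat_lit 0xf423fb71aea2c280473700000f423f7a11e) .nil))))) (.leaf (.cons (nat_lit 0x4034) (nat_lit 0x10000000000000000000100020000)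 (.cons (nat_lit 0x1550) (nat_lit 0x2000300040003000100000000) .nil)) .nil)) (.non (nat_lit 2) (nat_lit 3) (nat_lit 0x4009) (nat_lit 0x10000000000000000000000010001))) (.non (nat_lit 1) (nat_lit 3) (nat_lit 0x9410) (nat_lit 0x10002000100000000000100000000))) (.non (nat_lit 1) (nat_lit 3) (nat_lit 0xa810) (nat_lit 0x10002000100000000000200000000)))) (.split (nat_lit 8) (nat_lit 0) (.split (nat_lit 8) (nat_lit 1) (.split (nat_lit 8) (nat_lit 2) (.split (nat_lit 8) (nat_lit 5) (.split (nat_lit 8) (nat_lit 6) (.split (nat_lit 8) (nat_lit 7) (.split (nat_lit 8) (nat_lit 3) (.unj (nat_lit 0x15) (nat_lit 0x100010001) (nat_lit 0x10540) (nat_lit 0x100000000000100020002000000000000)) (.unj (nat_lit 0x15) (nat_lit 0x100010001) (nat_lit 0x10140) (nat_lit 0x100000000000000010001000000000000))) (.non (nat_lit 1) (nat_lit 3) (nat_lit 0x15500) (nat_lit 0x100010001000100010000000000000000))) (.non (nat_lit 1) (nat_lit 3) (nat_lit 0x11500) (nat_lit 0x100000001000100010000000000000000))) (.non (nat_lit 1) (nat_lit 3) (nat_lit 0x10500)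 (nat_lit 0x100000000000100010000000000000000))) (.star (nat_lit 8) (nat_lit 2) (nat_lit 4))) (.star (nat_lit 8) (nat_lit 1) (nat_lit 4))) (.non (nat_lit 2) (nat_lit 3) (nat_lit 0x1a009) (nat_lit 0x200020001000000000000000000030004))))

noncomputable def t341_21 : Tr := (.ex (nat_lit 3) (.ex (nat_lit 4) (.split (nat_lit 6) (nat_lit 2) (.split (nat_lit 8) (nat_lit 2) (.split (nat_lit 7) (nat_lit 6) (.split (nat_lit 7) (nat_lit 1) (.pd (.cons (nat_lit 1) (nat_lit 5) (nat_lit 0) (nat_lit 0x262033200) (nat_lit 0xf423ff423fb71ae00000f423f5459165b9700000f423f) (.cons (nat_lit 1) (nat_lit 6) (nat_lit 0) (nat_lit 0x270433200) (nat_lit 0xf423ff423f00000f423fb71ae1f156b71ae00000f423f) (.cons (nat_lit 2) (nat_lit 5) (nat_lit 0) (nat_lit 0x817033000) (nat_lit 0xf423fb71aef423f00000f423f5459100000a2c283d08b) (.cons (nat_lit 2) (nat_lit 6) (nat_lit 0) (nat_lit 0x810433000) (nat_lit 0xf423ff423f00000f423fb71ae1f15600000b71ae51612) (.cons (nat_lit 2) (nat_lit 7) (nat_lit 0) (nat_lit 0x805433000) (nat_lit 0xf423f00000f423fb71aea2c280473700000f423f7a11e)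 .nil))))) (.leaf (.cons (nat_lit 0x14014) (nat_lit 0x100010000000000000000000200020000) (.cons (nat_lit 0x1550) (nat_lit 0x2000300040003000100000000) .nil)) .nil)) (.non (nat_lit 2) (nat_lit 3) (nat_lit 0x4009) (nat_lit 0x10000000000000000000000010001))) (.non (nat_lit 1) (nat_lit 3) (nat_lit 0x9410) (nat_lit 0x10002000100000000000100000000))) (.non (nat_lit 1) (nat_lit 3) (nat_lit 0x25410) (nat_lit 0x100010002000100000000000200000000))) (.non (nat_lit 1) (nat_lit 3) (nat_lit 0xa810) (nat_lit 0x10002000100000000000200000000))) (.split (nat_lit 9) (nat_lit 0) (.split (nat_lit 9) (nat_lit 1) (.split (nat_lit 9) (nat_lit 2) (.split (nat_lit 9) (nat_lit 5) (.split (nat_lit 9) (nat_lit 6) (.split (nat_lit 9) (nat_lit 7) (.split (nat_lit 9) (nat_lit 8) (.split (nat_lit 9) (nat_lit 3) (.unj (nat_lit 0x15) (nat_lit 0x100010001) (nat_lit 0x40540) (nat_lit 0x1000000000000000100020002000000000000)) (.unj (nat_lit 0x15) (nat_lit 0x100010001) (nat_lit 0x40140) (nat_lit 0x1000000000000000000010001000000000000))) (.non (nat_lit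 1) (nat_lit 3) (nat_lit 0x51510) (nat_lit 0x1000100000001000100010000000100000000))) (.non (nat_lit 1) (nat_lit 3) (nat_lit 0x45500) (nat_lit 0x1000000010001000100010000000000000000))) (.non (nat_lit 1) (nat_lit 3) (nat_lit 0x41500) (nat_lit 0x1000000000001000100010000000000000000))) (.non (nat_lit 1) (nat_lit 3) (nat_lit 0x40500) (nat_lit 0x1000000000000000100010000000000000000))) (.star (nat_lit 9) (nat_lit 2) (nat_lit 4))) (.star (nat_lit 9) (nat_lit 1) (nat_lit 4))) (.non (nat_lit 2) (nat_lit 3) (nat_lit 0x4a009) (nat_lit 0x2000000020001000000000000000000030004)))) (.split (nat_lit 9) (nat_lit 0) (.split (nat_lit 9) (nat_lit 1) (.split (nat_lit 9) (nat_lit 2) (.split (nat_lit 9) (nat_lit 5) (.split (nat_lit 9) (nat_lit 6) (.split (nat_lit 9) (nat_lit 7) (.split (nat_lit 9) (nat_lit 4) (.split (nat_lit 9) (nat_lit 8) (.unj (nat_lit 0x15) (nat_lit 0x100010001) (nat_lit 0x40540) (nat_lit 0x1000000000000000100020002000000000000)) (.unj (nat_lit 0x15) (nat_lit 0x100010001) (nat_lit 0x40540) (nat_lit 0x1000000000000000100020002000000000000)))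 (.split (nat_lit 9) (nat_lit 8) (.unj (nat_lit 0x15) (nat_lit 0x100010001) (nat_lit 0x40140) (nat_lit 0x1000000000000000000010001000000000000)) (.non (nat_lit 1) (nat_lit 3) (nat_lit 0x51510) (nat_lit 0x1000100000001000100010000000100000000)))) (.non (nat_lit 1) (nat_lit 3) (nat_lit 0x55510) (nat_lit 0x1000100020003000200010000000200000000))) (.non (nat_lit 1) (nat_lit 3) (nat_lit 0x45410) (nat_lit 0x1000000010002000100000000000100000000))) (.non (nat_lit 1) (nat_lit 3) (nat_lit 0x45510) (nat_lit 0x1000000010002000200010000000100000000))) (.star (nat_lit 9) (nat_lit 2) (nat_lit 3))) (.star (nat_lit 9) (nat_lit 1) (nat_lit 3))) (.non (nat_lit 2) (nat_lit 3) (nat_lit 0x4a009) (nat_lit 0x2000000020001000000000000000000030004))))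

noncomputable def t341_22 : Tr := (.split (nat_lit 6) (nat_lit 2) (.st (nat_lit 1) (nat_lit 2) (nat_lit 3) (nat_lit 0x8009) (nat_lit 0x10000000000000000000000020002) (nat_lit 2) (nat_lit 1) (.st (nat_lit 5) (nat_lit 2) (nat_lit 3) (nat_lit 0xaa09) (nat_lit 0x20002000200010000000000020002) (nat_lit 2) (nat_lit 1) (.st (nat_lit 6) (nat_lit 2) (nat_lit 3) (nat_lit 0xa809) (nat_lit 0x20002000100000000000000020002) (nat_lit 2) (nat_lit 1) t341_19))) (.st (nat_lit 1) (nat_lit 2) (nat_lit 3) (nat_lit 0x8009) (nat_lit 0x10000000000000000000000020002) (nat_lit 2) (nat_lit 1) (.st (nat_lit 5) (nat_lit 1) (nat_lit 3) (nat_lit 0x5510) (nat_lit 0x10002000200010000000100000000) (nat_lit 1) (nat_lit 1) (.st (nat_lit 6) (nat_lit 1) (nat_lit 3) (nat_lit 0x5410) (nat_lit 0x10002000100000000000100000000) (nat_lit 1) (nat_lit 1) (.st (nat_lit 7) (nat_lit 2) (nat_lit 3) (nat_lit 0xa009) (nat_lit 0x20001000000000000000000020002) (nat_lit 2) (nat_lit 1) (.ex (nat_lit 2) (.ex (nat_lit 3) t341_20 (.split (nat_lit 8) (nat_lit 0) (.split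 (nat_lit 8) (nat_lit 1) (.split (nat_lit 8) (nat_lit 2) (.split (nat_lit 8) (nat_lit 5) (.split (nat_lit 8) (nat_lit 6) (.split (nat_lit 8) (nat_lit 7) (.split (nat_lit 8) (nat_lit 4) (.unj (nat_lit 0x15) (nat_lit 0x100010001) (nat_lit 0x10540) (nat_lit 0x100000000000100020002000000000000)) (.unj (nat_lit 0x15) (nat_lit 0x100010001) (nat_lit 0x10140) (nat_lit 0x100000000000000010001000000000000))) (.non (nat_lit 2) (nat_lit 3) (nat_lit 0x2a009) (nat_lit 0x100020001000000000000000000020002))) (.non (nat_lit 1) (nat_lit 3) (nat_lit 0x15410) (nat_lit 0x100010002000100000000000100000000))) (.non (nat_lit 1) (nat_lit 3) (nat_lit 0x15510) (nat_lit 0x100010002000200010000000100000000))) (.star (nat_lit 8) (nat_lit 2) (nat_lit 3))) (.star (nat_lit 8) (nat_lit 1) (nat_lit 3))) (.non (nat_lit 2) (nat_lit 3) (nat_lit 0x1a009) (nat_lit 0x200020001000000000000000000030004)))) (.split (nat_lit 8) (nat_lit 0) (.split (nat_lit 8) (nat_lit 1) (.split (nat_lit 8) (nat_lit 3) (.split (nat_lit 8) (nat_lit 4) (.split (nat_lit 8) (nat_lit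 5) (.split (nat_lit 8) (nat_lit 6) (.split (nat_lit 8) (nat_lit 7) t341_21 (.non (nat_lit 1) (nat_lit 3) (nat_lit 0x15010) (nat_lit 0x100010001000000000000000100000000))) (.non (nat_lit 1) (nat_lit 3) (nat_lit 0x11010) (nat_lit 0x100000001000000000000000100000000))) (.non (nat_lit 1) (nat_lit 3) (nat_lit 0x11410) (nat_lit 0x100000001000100000000000100000000))) (.star (nat_lit 8) (nat_lit 2) (nat_lit 4))) (.star (nat_lit 8) (nat_lit 2) (nat_lit 3))) (.non (nat_lit 2) (nat_lit 3) (nat_lit 0x28009) (nat_lit 0x100010000000000000000000000020002))) (.non (nat_lit 2) (nat_lit 3) (nat_lit 0x1a009) (nat_lit 0x200020001000000000000000000030004)))))))))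

noncomputable def t341_23 : Tr := (.ex (nat_lit 4) (.split (nat_lit 7) (nat_lit 2) (.split (nat_lit 7) (nat_lit 6) (.split (nat_lit 7) (nat_lit 1) (.pd (.cons (nat_lit 0) (nat_lit 7) (nat_lit 0x110) (nat_lit 0x5433120) (nat_lit 0xf423fb71aea2c2804737000010000100000) (.cons (nat_lit 1) (nat_lit 5) (nat_lit 0) (nat_lit 0x27033200) (nat_lit 0xb71aef423f00000f423f54591a2c2800000f423f) (.cons (nat_lit 1) (nat_lit 6) (nat_lit 0) (nat_lit 0x20433200) (nat_lit 0xf423f00000f423fb71ae1f156b71ae00000f423f) (.cons (nat_lit 1) (nat_lit 7) (nat_lit 0) (nat_lit 0x5433200) (nat_lit 0xf423fb71aea2c2804737f423f00000f423f) (.cons (nat_lit 2) (nat_lit 5) (nat_lit 0) (nat_lit 0x17033000) (nat_lit 0xb71aef423f00000f423f5459100000a2c283d08b) (.cons (nat_lit 2) (nat_lit 6) (nat_lit 0) (nat_lit 0x10433000) (nat_lit 0xf423f00000f423fb71ae1f15600000b71ae51612) (.cons (nat_lit 2) (nat_lit 7) (nat_lit 0) (nat_lit 0x5433000) (nat_lit 0xf423fb71aea2c280473700000f423f7a11e) .nil))))))) (.leaf (.cons (nat_lit 0x4014) (nat_lit 0x10000000000000000000100010000)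 .nil) .nil)) (.non (nat_lit 2) (nat_lit 3) (nat_lit 0x4009) (nat_lit 0x10000000000000000000000010001))) (.non (nat_lit 1) (nat_lit 3) (nat_lit 0x6a10) (nat_lit 0x40003000200010000000200000000))) (.split (nat_lit 7) (nat_lit 2) (.split (nat_lit 7) (nat_lit 6) (.split (nat_lit 7) (nat_lit 1) (.pd (.cons (nat_lit 0) (nat_lit 7) (nat_lit 0x110) (nat_lit 0x5433120) (nat_lit 0xf423fb71aea2c2804737000010000100000) (.cons (nat_lit 1) (nat_lit 5) (nat_lit 0) (nat_lit 0x27033200) (nat_lit 0xb71aef423f00000f423f545915161200000f423f) (.cons (nat_lit 1) (nat_lit 6) (nat_lit 0) (nat_lit 0x20433200) (nat_lit 0xf423f00000f423fb71ae1f1567a11e00000f423f) (.cons (nat_lit 1) (nat_lit 7) (nat_lit 0) (nat_lit 0x5433200) (nat_lit 0xf423fb71aea2c2804737f423f00000f423f) (.cons (nat_lit 2) (nat_lit 5) (nat_lit 0) (nat_lit 0x17033000) (nat_lit 0xb71aef423f00000f423f5459100000a2c283d08b) (.cons (nat_lit 2) (nat_lit 6) (nat_lit 0) (nat_lit 0x10433000) (nat_lit 0xf423f00000f423fb71ae1f15600000b71ae51612) (.cons (nat_lit 2) (nat_lit 7) (nat_lit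 0) (nat_lit 0x5433000) (nat_lit 0xf423fb71aea2c280473700000f423f7a11e) .nil))))))) (.leaf (.cons (nat_lit 0x4014) (nat_lit 0x10000000000000000000100010000) .nil) .nil)) (.non (nat_lit 2) (nat_lit 3) (nat_lit 0x4009) (nat_lit 0x10000000000000000000000010001))) (.non (nat_lit 1) (nat_lit 3) (nat_lit 0x9010) (nat_lit 0x10001000000000000000100000000))) (.non (nat_lit 1) (nat_lit 3) (nat_lit 0x5510) (nat_lit 0x40003000200010000000300000000)))) (.split (nat_lit 8) (nat_lit 0) (.split (nat_lit 8) (nat_lit 1) (.split (nat_lit 8) (nat_lit 2) (.split (nat_lit 8) (nat_lit 5) (.split (nat_lit 8) (nat_lit 6) (.split (nat_lit 8) (nat_lit 7) (.split (nat_lit 8) (nat_lit 3) (.unj (nat_lit 0x15) (nat_lit 0x100010001) (nat_lit 0x10540) (nat_lit 0x100000000000100020002000000000000)) (.unj (nat_lit 0x15) (nat_lit 0x100010001) (nat_lit 0x10140) (nat_lit 0x100000000000000010001000000000000))) (.non (nat_lit 1) (nat_lit 3) (nat_lit 0x15500) (nat_lit 0x100010001000100010000000000000000))) (.non (nat_lit 1) (nat_lit 3) (nat_lit 0x11500)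 (nat_lit 0x100000001000100010000000000000000))) (.non (nat_lit 1) (nat_lit 3) (nat_lit 0x10500) (nat_lit 0x100000000000100010000000000000000))) (.star (nat_lit 8) (nat_lit 2) (nat_lit 4))) (.star (nat_lit 8) (nat_lit 1) (nat_lit 4))) (.non (nat_lit 2) (nat_lit 3) (nat_lit 0x1a009) (nat_lit 0x200020001000000000000000000030004))))

noncomputable def t341_24 : Tr := (.ex (nat_lit 8) (.ex (nat_lit 9) (.split (nat_lit 2) (nat_lit 1) (.split (nat_lit 9) (nat_lit 8) (.pd (.cons (nat_lit 0) (nat_lit 7) (nat_lit 0) (nat_lit 0x8205433110) (nat_lit 0xf423fb71ae00000f423fb71aea2c2804737a2c280473700000) .nil) (.leaf (.cons (nat_lit 0x4014) (nat_lit 0x10000000000000000000100010000) .nil) .nil)) (.leaf (.cons (nat_lit 0x50014) (nat_lit 0x1000100000000000000000000000100010000) .nil) .nil)) (.leaf (.cons (nat_lit 0x30034) (nat_lit 0x100000000000000000000000200030000) .nil) .nil)) (.split (nat_lit 0xa) (nat_lit 0) (.split (nat_lit 0xa) (nat_lit 1) (.split (nat_lit 0xa) (nat_lit 2) (.split (nat_lit 0xa) (nat_lit 3) (.split (nat_lit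 0xa) (nat_lit 4) (.split (nat_lit 0xa) (nat_lit 5) (.split (nat_lit 0xa) (nat_lit 6) (.split (nat_lit 0xa) (nat_lit 7) (.split (nat_lit 0xa) (nat_lit 8) (.leaf (.cons (nat_lit 0x150014) (nat_lit 0x10002000300000000000000000000000400030000) .nil) .nil) (.non (nat_lit 1) (nat_lit 3) (nat_lit 0x150000) (nat_lit 0x10001000100000000000000000000000000000000))) (.non (nat_lit 1) (nat_lit 3) (nat_lit 0x154010) (nat_lit 0x10001000100010000000000000000000100000000))) (.non (nat_lit 1) (nat_lit 3) (nat_lit 0x155010) (nat_lit 0x10001000100010001000000000000000100000000))) (.non (nat_lit 1) (nat_lit 3) (nat_lit 0x155410) (nat_lit 0x10001000100010001000100000000000100000000))) (.non (nat_lit 1) (nat_lit 3) (nat_lit 0x155510) (nat_lit 0x10001000100010001000100010000000100000000))) (.non (nat_lit 1) (nat_lit 5) (nat_lit 0x150140) (nat_lit 0x30002000100000000000000030004000000000000))) (.non (nat_lit 1) (nat_lit 3) (nat_lit 0x150010) (nat_lit 0x10001000100000000000000000000000100000000))) (.non (nat_lit 2) (nat_lit 3) (nat_lit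 0x208009) (nat_lit 0x10000000000010000000000000000000000020002))) (.non (nat_lit 2) (nat_lit 3) (nat_lit 0x148009) (nat_lit 0x20001000000010000000000000000000000020003)))) (.split (nat_lit 0xa) (nat_lit 0) (.split (nat_lit 0xa) (nat_lit 1) (.split (nat_lit 0xa) (nat_lit 2) (.split (nat_lit 0xa) (nat_lit 3) (.split (nat_lit 0xa) (nat_lit 4) (.split (nat_lit 0xa) (nat_lit 5) (.split (nat_lit 0xa) (nat_lit 6) (.split (nat_lit 0xa) (nat_lit 7) (.split (nat_lit 0xa) (nat_lit 9) (.leaf (.cons (nat_lit 0x150014) (nat_lit 0x10001000200000000000000000000000200020000) .nil) .nil) (.non (nat_lit 1) (nat_lit 3) (nat_lit 0x150000) (nat_lit 0x10001000100000000000000000000000000000000))) (.non (nat_lit 1) (nat_lit 3) (nat_lit 0x114010) (nat_lit 0x10000000100010000000000000000000100000000))) (.non (nat_lit 1) (nat_lit 3) (nat_lit 0x115010) (nat_lit 0x10000000100010001000000000000000100000000))) (.non (nat_lit 1) (nat_lit 3) (nat_lit 0x115410) (nat_lit 0x10000000100010001000100000000000100000000))) (.non (nat_lit 1) (nat_lit 3)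 (nat_lit 0x115510) (nat_lit 0x10000000100010001000100010000000100000000))) (.non (nat_lit 1) (nat_lit 5) (nat_lit 0x150140) (nat_lit 0x30001000200000000000000030004000000000000))) (.non (nat_lit 1) (nat_lit 3) (nat_lit 0x110010) (nat_lit 0x10000000100000000000000000000000100000000))) (.non (nat_lit 2) (nat_lit 3) (nat_lit 0x208009) (nat_lit 0x10000000000010000000000000000000000020002))) (.non (nat_lit 1) (nat_lit 3) (nat_lit 0x155511) (nat_lit 0x40003000600040003000200010000000500000002))))

noncomputable def t341_25 : Tr := (.split (nat_lit 8) (nat_lit 2) (.split (nat_lit 7) (nat_lit 6) (.split (nat_lit 7) (nat_lit 1) (.pd (.cons (nat_lit 1) (nat_lit 5) (nat_lit 0) (nat_lit 0x227033200) (nat_lit 0xf423fb71aef423f00000f423f5459165b9700000f423f) (.cons (nat_lit 1) (nat_lit 6) (nat_lit 0) (nat_lit 0x220433200) (nat_lit 0xf423ff423f00000f423fb71ae1f1567a11d00000f423f) (.cons (nat_lit 1) (nat_lit 7) (nat_lit 0) (nat_lit 0x205433200) (nat_lit 0xf423f00000f423fb71aea2c2804737b71ae00000f423f) (.cons (nat_lit 2) (nat_lit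 5) (nat_lit 0) (nat_lit 0x817033000) (nat_lit 0xf423fb71aef423f00000f423f5459100000a2c283d08b) (.cons (nat_lit 2) (nat_lit 6) (nat_lit 0) (nat_lit 0x810433000) (nat_lit 0xf423ff423f00000f423fb71ae1f15600000b71ae51612) (.cons (nat_lit 2) (nat_lit 7) (nat_lit 0) (nat_lit 0x805433000) (nat_lit 0xf423f00000f423fb71aea2c280473700000f423f7a11e) .nil)))))) (.ex (nat_lit 8) (.split (nat_lit 2) (nat_lit 1) (.pd (.cons (nat_lit 0) (nat_lit 7) (nat_lit 0) (nat_lit 0x205433110) (nat_lit 0xf423f00000f423fb71aea2c2804737b71ae1f15600000) .nil) (.leaf (.cons (nat_lit 0x4014) (nat_lit 0x10000000000000000000100010000) .nil) .nil)) (.leaf (.cons (nat_lit 0x30034) (nat_lit 0x100000000000000000000000200030000) .nil) .nil)) (.split (nat_lit 9) (nat_lit 0) (.split (nat_lit 9) (nat_lit 1) (.split (nat_lit 9) (nat_lit 2) (.split (nat_lit 9) (nat_lit 3) (.split (nat_lit 9) (nat_lit 4) (.split (nat_lit 9) (nat_lit 5) (.split (nat_lit 9) (nat_lit 6) (.split (nat_lit 9) (nat_lit 7) t341_24 (.non (nat_lit 1) (nat_lit 3) (nat_lit 0x54010) (nat_lit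 0x1000100010000000000000000000100000000))) (.non (nat_lit 1) (nat_lit 3) (nat_lit 0x55010) (nat_lit 0x1000100010001000000000000000100000000))) (.non (nat_lit 1) (nat_lit 3) (nat_lit 0x55410) (nat_lit 0x1000100010001000100000000000100000000))) (.non (nat_lit 1) (nat_lit 3) (nat_lit 0x55510) (nat_lit 0x1000100010001000100010000000100000000))) (.non (nat_lit 1) (nat_lit 5) (nat_lit 0x50150) (nat_lit 0x3000200000000000000030004000100000000))) (.non (nat_lit 1) (nat_lit 3) (nat_lit 0x50010) (nat_lit 0x1000100000000000000000000000100000000))) (.non (nat_lit 2) (nat_lit 3) (nat_lit 0x88009) (nat_lit 0x1000000010000000000000000000000020002))) (.non (nat_lit 2) (nat_lit 3) (nat_lit 0x58009) (nat_lit 0x2000100010000000000000000000000020003))))) (.non (nat_lit 2) (nat_lit 3) (nat_lit 0x4009) (nat_lit 0x10000000000000000000000010001))) (.non (nat_lit 1) (nat_lit 3) (nat_lit 0x16810) (nat_lit 0x100030002000100000000000200000000))) (.split (nat_lit 8) (nat_lit 2) (.split (nat_lit 7) (nat_lit 6) (.split (nat_lit 7) (nat_lit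 1) (.pd (.cons (nat_lit 1) (nat_lit 5) (nat_lit 0) (nat_lit 0x227033200) (nat_lit 0xf423fb71aef423f00000f423f5459128b0700000f423f) (.cons (nat_lit 1) (nat_lit 6) (nat_lit 0) (nat_lit 0x220433200) (nat_lit 0xf423ff423f00000f423fb71ae1f1563d08d00000f423f) (.cons (nat_lit 1) (nat_lit 7) (nat_lit 0) (nat_lit 0x205433200) (nat_lit 0xf423f00000f423fb71aea2c28047377a11e00000f423f) (.cons (nat_lit 2) (nat_lit 5) (nat_lit 0) (nat_lit 0x817033000) (nat_lit 0xf423fb71aef423f00000f423f5459100000a2c283d08b) (.cons (nat_lit 2) (nat_lit 6) (nat_lit 0) (nat_lit 0x810433000) (nat_lit 0xf423ff423f00000f423fb71ae1f15600000b71ae51612) (.cons (nat_lit 2) (nat_lit 7) (nat_lit 0) (nat_lit 0x805433000) (nat_lit 0xf423f00000f423fb71aea2c280473700000f423f7a11e) .nil)))))) (.leaf (.cons (nat_lit 0x10014) (nat_lit 0x100000000000000000000000100010000) .nil) .nil)) (.non (nat_lit 2) (nat_lit 3) (nat_lit 0x4009) (nat_lit 0x10000000000000000000000010001))) (.non (nat_lit 1) (nat_lit 3) (nat_lit 0x26010) (nat_lit 0x100020001000000000000000200000000)))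 (.non (nat_lit 1) (nat_lit 3) (nat_lit 0x15410) (nat_lit 0x300030002000100000000000400000000))))

noncomputable def t341_26 : Tr := (.ex (nat_lit 4) (.split (nat_lit 7) (nat_lit 2) (.split (nat_lit 8) (nat_lit 2) (.split (nat_lit 9) (nat_lit 2) (.split (nat_lit 7) (nat_lit 6) (.split (nat_lit 7) (nat_lit 1) (.pd (.cons (nat_lit 1) (nat_lit 5) (nat_lit 0) (nat_lit 0x2227033200) (nat_lit 0xf423ff423fb71aef423f00000f423f5459128b0600000f423f) (.cons (nat_lit 1) (nat_lit 6) (nat_lit 0) (nat_lit 0x2220433200) (nat_lit 0xf423ff423ff423f00000f423fb71ae1f1563d08c00000f423f) (.cons (nat_lit 1) (nat_lit 7) (nat_lit 0) (nat_lit 0x2205433200) (nat_lit 0xf423ff423f00000f423fb71aea2c28047377a11d00000f423f) (.cons (nat_lit 2) (nat_lit 5) (nat_lit 0) (nat_lit 0x9817033000) (nat_lit 0xf423ff423fb71aef423f00000f423f5459100000a2c283d08b) (.cons (nat_lit 2) (nat_lit 6) (nat_lit 0) (nat_lit 0x9810433000) (nat_lit 0xf423ff423ff423f00000f423fb71ae1f15600000b71ae51612) (.cons (nat_lit 2) (nat_lit 7) (nat_lit 0) (nat_lit 0x9805433000)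 (nat_lit 0xf423ff423f00000f423fb71aea2c280473700000f423f7a11e) .nil)))))) (.leaf (.cons (nat_lit 0x50014) (nat_lit 0x1000100000000000000000000000200020000) .nil) .nil)) (.non (nat_lit 2) (nat_lit 3) (nat_lit 0x4009) (nat_lit 0x10000000000000000000000010001))) (.non (nat_lit 1) (nat_lit 3) (nat_lit 0x56010) (nat_lit 0x1000100020001000000000000000200000000))) (.non (nat_lit 1) (nat_lit 3) (nat_lit 0x94010) (nat_lit 0x1000100010000000000000000000200000000))) (.non (nat_lit 1) (nat_lit 3) (nat_lit 0x64010) (nat_lit 0x1000100010000000000000000000200000000))) (.non (nat_lit 1) (nat_lit 3) (nat_lit 0x58010) (nat_lit 0x1000100010000000000000000000200000000))) (.split (nat_lit 0xa) (nat_lit 0) (.split (nat_lit 0xa) (nat_lit 1) (.split (nat_lit 0xa) (nat_lit 2) (.split (nat_lit 0xa) (nat_lit 5) (.split (nat_lit 0xa) (nat_lit 6) (.split (nat_lit 0xa) (nat_lit 7) (.split (nat_lit 0xa) (nat_lit 8) (.split (nat_lit 0xa) (nat_lit 9) (.split (nat_lit 0xa) (nat_lit 3) (.unj (nat_lit 0x15) (nat_lit 0x100010001) (nat_lit 0x100540)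 (nat_lit 0x10000000000000000000100020002000000000000)) (.unj (nat_lit 0x15) (nat_lit 0x100010001) (nat_lit 0x100140) (nat_lit 0x10000000000000000000000010001000000000000))) (.non (nat_lit 1) (nat_lit 3) (nat_lit 0x145510) (nat_lit 0x10001000000010001000100010000000100000000))) (.non (nat_lit 1) (nat_lit 3) (nat_lit 0x115510) (nat_lit 0x10000000100010001000100010000000100000000))) (.non (nat_lit 1) (nat_lit 3) (nat_lit 0x105500) (nat_lit 0x10000000000010001000100010000000000000000))) (.non (nat_lit 1) (nat_lit 3) (nat_lit 0x101500) (nat_lit 0x10000000000000001000100010000000000000000))) (.non (nat_lit 1) (nat_lit 3) (nat_lit 0x100500) (nat_lit 0x10000000000000000000100010000000000000000))) (.star (nat_lit 0xa) (nat_lit 2) (nat_lit 4))) (.star (nat_lit 0xa) (nat_lit 1) (nat_lit 4))) (.non (nat_lit 2) (nat_lit 3) (nat_lit 0x10a009) (nat_lit 0x20000000000020001000000000000000000030004))))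

noncomputable def t341_27 : Tr := (.ex (nat_lit 2) (.ex (nat_lit 3) (.ex (nat_lit 4) (.split (nat_lit 7) (nat_lit 2) t341_25 (.non (nat_lit 1) (nat_lit 3) (nat_lit 0x1a810) (nat_lit 0x200030002000100000000000400000000))) (.split (nat_lit 9) (nat_lit 0) (.split (nat_lit 9) (nat_lit 1) (.split (nat_lit 9) (nat_lit 2) (.split (nat_lit 9) (nat_lit 5) (.split (nat_lit 9) (nat_lit 6) (.split (nat_lit 9) (nat_lit 7) (.split (nat_lit 9) (nat_lit 8) (.split (nat_lit 9) (nat_lit 3) (.unj (nat_lit 0x15) (nat_lit 0x100010001) (nat_lit 0x40540) (nat_lit 0x1000000000000000100020002000000000000)) (.unj (nat_lit 0x15) (nat_lit 0x100010001) (nat_lit 0x40140) (nat_lit 0x1000000000000000000010001000000000000))) (.non (nat_lit 1) (nat_lit 3) (nat_lit 0x55510) (nat_lit 0x1000100010001000100010000000100000000))) (.non (nat_lit 1) (nat_lit 3) (nat_lit 0x45500) (nat_lit 0x1000000010001000100010000000000000000))) (.non (nat_lit 1) (nat_lit 3) (nat_lit 0x41500) (nat_lit 0x1000000000001000100010000000000000000))) (.non (nat_lit 1) (nat_lit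 3) (nat_lit 0x40500) (nat_lit 0x1000000000000000100010000000000000000))) (.star (nat_lit 9) (nat_lit 2) (nat_lit 4))) (.star (nat_lit 9) (nat_lit 1) (nat_lit 4))) (.non (nat_lit 2) (nat_lit 3) (nat_lit 0x4a009) (nat_lit 0x2000000020001000000000000000000030004)))) (.split (nat_lit 9) (nat_lit 0) (.split (nat_lit 9) (nat_lit 1) (.split (nat_lit 9) (nat_lit 2) (.split (nat_lit 9) (nat_lit 5) (.split (nat_lit 9) (nat_lit 6) (.split (nat_lit 9) (nat_lit 7) (.split (nat_lit 9) (nat_lit 4) (.split (nat_lit 9) (nat_lit 8) (.unj (nat_lit 0x15) (nat_lit 0x100010001) (nat_lit 0x40540) (nat_lit 0x1000000000000000100020002000000000000)) (.unj (nat_lit 0x15) (nat_lit 0x100010001) (nat_lit 0x40540) (nat_lit 0x1000000000000000100020002000000000000))) (.split (nat_lit 9) (nat_lit 8) (.unj (nat_lit 0x15) (nat_lit 0x100010001) (nat_lit 0x40140) (nat_lit 0x1000000000000000000010001000000000000)) (.non (nat_lit 1) (nat_lit 3) (nat_lit 0x55510) (nat_lit 0x1000100010001000100010000000100000000)))) (.non (nat_lit 1) (nat_lit 4) (nat_lit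 0x55450) (nat_lit 0x2000100030002000100000001000200000000))) (.non (nat_lit 2) (nat_lit 3) (nat_lit 0x8a809) (nat_lit 0x1000000020002000100000000000000020002))) (.non (nat_lit 2) (nat_lit 3) (nat_lit 0x8aa09) (nat_lit 0x1000000020002000200010000000000020002))) (.star (nat_lit 9) (nat_lit 2) (nat_lit 3))) (.star (nat_lit 9) (nat_lit 1) (nat_lit 3))) (.non (nat_lit 2) (nat_lit 3) (nat_lit 0x4a009) (nat_lit 0x2000000020001000000000000000000030004)))) (.split (nat_lit 9) (nat_lit 0) (.split (nat_lit 9) (nat_lit 1) (.split (nat_lit 9) (nat_lit 3) (.split (nat_lit 9) (nat_lit 4) (.split (nat_lit 9) (nat_lit 5) (.split (nat_lit 9) (nat_lit 6) (.split (nat_lit 9) (nat_lit 7) (.split (nat_lit 9) (nat_lit 8) (.ex (nat_lit 3) t341_26 (.split (nat_lit 0xa) (nat_lit 0) (.split (nat_lit 0xa) (nat_lit 1) (.split (nat_lit 0xa) (nat_lit 2) (.split (nat_lit 0xa) (nat_lit 5) (.split (nat_lit 0xa) (nat_lit 6) (.split (nat_lit 0xa) (nat_lit 7) (.split (nat_lit 0xa) (nat_lit 8) (.split (nat_lit 0xa) (nat_lit 9) (.split (nat_lit 0xa)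 (nat_lit 4) (.unj (nat_lit 0x15) (nat_lit 0x100010001) (nat_lit 0x100540) (nat_lit 0x10000000000000000000100020002000000000000)) (.unj (nat_lit 0x15) (nat_lit 0x100010001) (nat_lit 0x100140) (nat_lit 0x10000000000000000000000010001000000000000))) (.non (nat_lit 1) (nat_lit 4) (nat_lit 0x155450) (nat_lit 0x20003000200030002000100000001000400000000))) (.non (nat_lit 1) (nat_lit 4) (nat_lit 0x155450) (nat_lit 0x20002000300030002000100000001000400000000))) (.non (nat_lit 1) (nat_lit 3) (nat_lit 0x155010) (nat_lit 0x10001000100020001000000000000000200000000))) (.non (nat_lit 1) (nat_lit 3) (nat_lit 0x155410) (nat_lit 0x10001000100020002000100000000000200000000))) (.non (nat_lit 1) (nat_lit 3) (nat_lit 0x155510) (nat_lit 0x10001000100020002000200010000000200000000))) (.star (nat_lit 0xa) (nat_lit 2) (nat_lit 3))) (.star (nat_lit 0xa) (nat_lit 1) (nat_lit 3))) (.non (nat_lit 2) (nat_lit 3) (nat_lit 0x10a009) (nat_lit 0x20000000000020001000000000000000000030004)))) (.non (nat_lit 1) (nat_lit 3) (nat_lit 0x50010) (nat_lit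 0x1000100000000000000000000000100000000))) (.non (nat_lit 1) (nat_lit 3) (nat_lit 0x44010) (nat_lit 0x1000000010000000000000000000100000000))) (.non (nat_lit 1) (nat_lit 3) (nat_lit 0x45010) (nat_lit 0x1000000010001000000000000000100000000))) (.non (nat_lit 1) (nat_lit 3) (nat_lit 0x45410) (nat_lit 0x1000000010001000100000000000100000000))) (.star (nat_lit 9) (nat_lit 2) (nat_lit 4))) (.star (nat_lit 9) (nat_lit 2) (nat_lit 3))) (.non (nat_lit 2) (nat_lit 3) (nat_lit 0x88009) (nat_lit 0x1000000010000000000000000000000020002))) (.non (nat_lit 2) (nat_lit 3) (nat_lit 0x4a009) (nat_lit 0x2000000020001000000000000000000030004))))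

noncomputable def t341_28 : Tr := (.split (nat_lit 2) (nat_lit 1) (.split (nat_lit 6) (nat_lit 2) (.split (nat_lit 7) (nat_lit 6) (.split (nat_lit 7) (nat_lit 0) (.pd (.cons (nat_lit 0) (nat_lit 5) (nat_lit 0) (nat_lit 0x62033110) (nat_lit 0xf423fb71ae00000f423f54591a2c280473700000) (.cons (nat_lit 0) (nat_lit 6) (nat_lit 0) (nat_lit 0x70433110) (nat_lit 0xf423f00000f423fb71ae1f156f423f5459100000) (.cons (nat_lit 1) (nat_lit 5) (nat_lit 0) (nat_lit 0x7033600) (nat_lit 0xa2c28b71ae00000f423f54591f423f0000098965) (.cons (nat_lit 1) (nat_lit 6) (nat_lit 0) (nat_lit 0x433200) (nat_lit 0xf423f00000f423fb71ae1f156f423f00000b71ae) (.cons (nat_lit 2) (nat_lit 5) (nat_lit 0) (nat_lit 0x7033000) (nat_lit 0xb71aef423f00000f423f5459100000f423f28b07) (.cons (nat_lit 2) (nat_lit 6) (nat_lit 0) (nat_lit 0x433000) (nat_lit 0xf423f00000f423fb71ae1f15600000f423f3d08d) (.cons (nat_lit 2) (nat_lit 7) (nat_lit 0) (nat_lit 0x5433000) (nat_lit 0xf423fb71aea2c280473700000f423f7a11e) .nil))))))) (.leaf (.cons (nat_lit 0x5414) (nat_lit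 0x10002000100000000000200020000) (.cons (nat_lit 0x1550) (nat_lit 0x2000300040003000100000000) .nil)) .nil)) (.non (nat_lit 1) (nat_lit 3) (nat_lit 0xa821) (nat_lit 0x20002000100000000000100000002))) (.non (nat_lit 1) (nat_lit 3) (nat_lit 0x9410) (nat_lit 0x10002000100000000000100000000))) (.non (nat_lit 1) (nat_lit 3) (nat_lit 0xa810) (nat_lit 0x10002000100000000000200000000))) (.split (nat_lit 7) (nat_lit 0) (.split (nat_lit 6) (nat_lit 2) (.split (nat_lit 7) (nat_lit 6) (.pd (.cons (nat_lit 0) (nat_lit 6) (nat_lit 0x110) (nat_lit 0x70433120) (nat_lit 0xf423f00000f423fb71ae1f156000010000100000) (.cons (nat_lit 1) (nat_lit 5) (nat_lit 0) (nat_lit 0x7033600) (nat_lit 0xa2c28b71ae00000f423f54591f423f0000098965) (.cons (nat_lit 1) (nat_lit 6) (nat_lit 0) (nat_lit 0x433200) (nat_lit 0xf423f00000f423fb71ae1f156f423f00000b71ae) (.cons (nat_lit 2) (nat_lit 5) (nat_lit 0) (nat_lit 0x7033000) (nat_lit 0xb71aef423f00000f423f5459100000f423f28b07) (.cons (nat_lit 2) (nat_lit 6) (nat_lit 0) (nat_lit 0x433000) (nat_lit 0xf423f00000f423fb71ae1f15600000f423f3d08d)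 (.cons (nat_lit 2) (nat_lit 7) (nat_lit 0) (nat_lit 0x5433000) (nat_lit 0xf423fb71aea2c280473700000f423f7a11e) .nil)))))) (.st (nat_lit 0) (nat_lit 2) (nat_lit 3) (nat_lit 0x4009) (nat_lit 0x10000000000000000000000010002) (nat_lit 1) (nat_lit 1) (.leaf (.cons (nat_lit 0x3034) (nat_lit 0x1000000000000000200030000) (.cons (nat_lit 0x1550) (nat_lit 0x2000300040003000100000000) .nil)) (.cons (nat_lit 0x11110101) (nat_lit 0x1010) (nat_lit 0xc) (nat_lit 0x40230105) .nil)))) (.non (nat_lit 1) (nat_lit 3) (nat_lit 0x9410) (nat_lit 0x10002000100000000000100000000))) (.non (nat_lit 1) (nat_lit 3) (nat_lit 0xa810) (nat_lit 0x10002000100000000000200000000))) (.non (nat_lit 1) (nat_lit 3) (nat_lit 0xa821) (nat_lit 0x20002000100000000000100000002))))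

noncomputable def t341_29 : Tr := (.split (nat_lit 6) (nat_lit 2) (.split (nat_lit 7) (nat_lit 0) (.sup (nat_lit 0x8000a0005) (nat_lit 0x100040007000a0008000000000000)) (.non (nat_lit 2) (nat_lit 3) (nat_lit 0x8009) (nat_lit 0x10000000000000000000000010002))) (.st (nat_lit 1) (nat_lit 2) (nat_lit 3) (nat_lit 0x5009) (nat_lit 0x20001000000000000000000020003) (nat_lit 2) (nat_lit 1) (.st (nat_lit 2) (nat_lit 1) (nat_lit 3) (nat_lit 0x5511) (nat_lit 0x20003000200010000000200000001) (nat_lit 1) (nat_lit 1) (.st (nat_lit 5) (nat_lit 1) (nat_lit 3) (nat_lit 0x5510) (nat_lit 0x10002000200010000000100000000) (nat_lit 1) (nat_lit 1) (.st (nat_lit 6) (nat_lit 1) (nat_lit 3) (nat_lit 0x5410) (nat_lit 0x10002000100000000000100000000) (nat_lit 1) (nat_lit 1) (.st (nat_lit 7) (nat_lit 1) (nat_lit 3) (nat_lit 0x5411) (nat_lit 0x20002000100000000000100000001) (nat_lit 1) (nat_lit 1) (.ex (nat_lit 3) (.ex (nat_lit 4) t341_28 (.split (nat_lit 8) (nat_lit 0) (.split (nat_lit 8) (nat_lit 1) (.split (nat_lit 8) (nat_lit 2) (.split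 (nat_lit 8) (nat_lit 5) (.split (nat_lit 8) (nat_lit 6) (.split (nat_lit 8) (nat_lit 7) (.split (nat_lit 8) (nat_lit 3) (.unj (nat_lit 0x15) (nat_lit 0x100010001) (nat_lit 0x10540) (nat_lit 0x100000000000100020002000000000000)) (.unj (nat_lit 0x15) (nat_lit 0x100010001) (nat_lit 0x10140) (nat_lit 0x100000000000000010001000000000000))) (.non (nat_lit 1) (nat_lit 3) (nat_lit 0x15500) (nat_lit 0x100010001000100010000000000000000))) (.non (nat_lit 1) (nat_lit 3) (nat_lit 0x11500) (nat_lit 0x100000001000100010000000000000000))) (.non (nat_lit 1) (nat_lit 3) (nat_lit 0x10500) (nat_lit 0x100000000000100010000000000000000))) (.star (nat_lit 8) (nat_lit 2) (nat_lit 4))) (.star (nat_lit 8) (nat_lit 1) (nat_lit 4))) (.non (nat_lit 1) (nat_lit 3) (nat_lit 0x15501) (nat_lit 0x100010001000100010000000000000001)))) (.split (nat_lit 8) (nat_lit 0) (.split (nat_lit 8) (nat_lit 1) (.split (nat_lit 8) (nat_lit 2) (.split (nat_lit 8) (nat_lit 5) (.split (nat_lit 8) (nat_lit 6) (.split (nat_lit 8) (nat_lit 7) (.split (nat_lit 8) (nat_lit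 4) (.unj (nat_lit 0x15) (nat_lit 0x100010001) (nat_lit 0x10540) (nat_lit 0x100000000000100020002000000000000)) (.unj (nat_lit 0x15) (nat_lit 0x100010001) (nat_lit 0x10140) (nat_lit 0x100000000000000010001000000000000))) (.non (nat_lit 1) (nat_lit 3) (nat_lit 0x15411) (nat_lit 0x100020002000100000000000100000001))) (.non (nat_lit 1) (nat_lit 3) (nat_lit 0x15410) (nat_lit 0x100010002000100000000000100000000))) (.non (nat_lit 1) (nat_lit 3) (nat_lit 0x15510) (nat_lit 0x100010002000200010000000100000000))) (.star (nat_lit 8) (nat_lit 2) (nat_lit 3))) (.star (nat_lit 8) (nat_lit 1) (nat_lit 3))) (.non (nat_lit 2) (nat_lit 3) (nat_lit 0x14009) (nat_lit 0x100010000000000000000000000010002))))))))))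

noncomputable def t341_30 : Tr := (.split (nat_lit 2) (nat_lit 1) (.split (nat_lit 7) (nat_lit 2) (.split (nat_lit 7) (nat_lit 6) (.split (nat_lit 7) (nat_lit 0) (.pd (.cons (nat_lit 0) (nat_lit 5) (nat_lit 0) (nat_lit 0x27033110) (nat_lit 0xb71aef423f00000f423f54591a2c280473700000) (.cons (nat_lit 0) (nat_lit 6) (nat_lit 0) (nat_lit 0x20433110) (nat_lit 0xf423f00000f423fb71ae1f156b71ae1f15600000) (.cons (nat_lit 0) (nat_lit 7) (nat_lit 0) (nat_lit 0x5433110) (nat_lit 0xf423fb71aea2c2804737f423f5459100000) (.cons (nat_lit 1) (nat_lit 5) (nat_lit 0) (nat_lit 0x7033700) (nat_lit 0x7a11df423f00000f423f54591f423f000007a11b) (.cons (nat_lit 1) (nat_lit 6) (nat_lit 0) (nat_lit 0x433700) (nat_lit 0xb71ae00000f423fb71ae1f156f423f00000a2c28) (.cons (nat_lit 1) (nat_lit 7) (nat_lit 0) (nat_lit 0x5433200) (nat_lit 0xf423fb71aea2c2804737f423f00000f423f) (.cons (nat_lit 2) (nat_lit 5) (nat_lit 0) (nat_lit 0x7033000) (nat_lit 0xb71aef423f00000f423f5459100000f423f28b07) (.cons (nat_lit 2) (nat_lit 6) (nat_lit 0) (nat_lit 0x433000)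 (nat_lit 0xf423f00000f423fb71ae1f15600000f423f3d08d) (.cons (nat_lit 2) (nat_lit 7) (nat_lit 0) (nat_lit 0x5433000) (nat_lit 0xf423fb71aea2c280473700000f423f7a11e) .nil))))))))) (.leaf (.cons (nat_lit 0x5414) (nat_lit 0x30002000100000000000400030000) .nil) .nil)) (.non (nat_lit 1) (nat_lit 3) (nat_lit 0xa021) (nat_lit 0x20001000000000000000100000002))) (.non (nat_lit 1) (nat_lit 3) (nat_lit 0x6a10) (nat_lit 0x40003000200010000000200000000))) (.non (nat_lit 1) (nat_lit 3) (nat_lit 0x5021) (nat_lit 0x20001000000000000000100000001))) (.split (nat_lit 7) (nat_lit 0) (.split (nat_lit 7) (nat_lit 2) (.split (nat_lit 7) (nat_lit 6) (.pd (.cons (nat_lit 0) (nat_lit 7) (nat_lit 0x110) (nat_lit 0x5433120) (nat_lit 0xf423fb71aea2c2804737000010000100000) (.cons (nat_lit 1) (nat_lit 5) (nat_lit 0) (nat_lit 0x7033700) (nat_lit 0x7a11df423f00000f423f54591f423f000007a11b) (.cons (nat_lit 1) (nat_lit 6) (nat_lit 0) (nat_lit 0x433700) (nat_lit 0xb71ae00000f423fb71ae1f156f423f00000a2c28) (.cons (nat_lit 1) (nat_lit 7) (nat_lit 0)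 (nat_lit 0x5433200) (nat_lit 0xf423fb71aea2c2804737f423f00000f423f) (.cons (nat_lit 2) (nat_lit 5) (nat_lit 0) (nat_lit 0x7033000) (nat_lit 0xb71aef423f00000f423f5459100000f423f28b07) (.cons (nat_lit 2) (nat_lit 6) (nat_lit 0) (nat_lit 0x433000) (nat_lit 0xf423f00000f423fb71ae1f15600000f423f3d08d) (.cons (nat_lit 2) (nat_lit 7) (nat_lit 0) (nat_lit 0x5433000) (nat_lit 0xf423fb71aea2c280473700000f423f7a11e) .nil))))))) (.leaf (.cons (nat_lit 0xc034) (nat_lit 0x10000000000000000000200030000) .nil) .nil)) (.non (nat_lit 1) (nat_lit 3) (nat_lit 0x6a10) (nat_lit 0x40003000200010000000200000000))) (.non (nat_lit 1) (nat_lit 3) (nat_lit 0x5021) (nat_lit 0x20001000000000000000100000001))) (.non (nat_lit 1) (nat_lit 3) (nat_lit 0xa021) (nat_lit 0x20001000000000000000100000002))))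

noncomputable def t341_31 : Tr := (.ex (nat_lit 2) (.ex (nat_lit 3) (.ex (nat_lit 4) t341_30 (.split (nat_lit 8) (nat_lit 0) (.split (nat_lit 8) (nat_lit 1) (.split (nat_lit 8) (nat_lit 2) (.split (nat_lit 8) (nat_lit 5) (.split (nat_lit 8) (nat_lit 6) (.split (nat_lit 8) (nat_lit 7) (.split (nat_lit 8) (nat_lit 3) (.unj (nat_lit 0x15) (nat_lit 0x100010001) (nat_lit 0x10540) (nat_lit 0x100000000000100020002000000000000)) (.unj (nat_lit 0x15) (nat_lit 0x100010001) (nat_lit 0x10140) (nat_lit 0x100000000000000010001000000000000))) (.non (nat_lit 1) (nat_lit 3) (nat_lit 0x15500) (nat_lit 0x100010001000100010000000000000000))) (.non (nat_lit 1) (nat_lit 3) (nat_lit 0x11500) (nat_lit 0x100000001000100010000000000000000))) (.non (nat_lit 1) (nat_lit 3) (nat_lit 0x10500) (nat_lit 0x100000000000100010000000000000000))) (.star (nat_lit 8) (nat_lit 2) (nat_lit 4))) (.star (nat_lit 8) (nat_lit 1) (nat_lit 4))) (.non (nat_lit 1) (nat_lit 3) (nat_lit 0x15501) (nat_lit 0x100010001000100010000000000000001)))) (.split (nat_lit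 8) (nat_lit 0) (.split (nat_lit 8) (nat_lit 1) (.split (nat_lit 8) (nat_lit 2) (.split (nat_lit 8) (nat_lit 5) (.split (nat_lit 8) (nat_lit 6) (.split (nat_lit 8) (nat_lit 7) (.split (nat_lit 8) (nat_lit 4) (.unj (nat_lit 0x15) (nat_lit 0x100010001) (nat_lit 0x10540) (nat_lit 0x100000000000100020002000000000000)) (.unj (nat_lit 0x15) (nat_lit 0x100010001) (nat_lit 0x10140) (nat_lit 0x100000000000000010001000000000000))) (.non (nat_lit 1) (nat_lit 3) (nat_lit 0x15011) (nat_lit 0x100020001000000000000000100000001))) (.non (nat_lit 1) (nat_lit 3) (nat_lit 0x15411) (nat_lit 0x100020002000100000000000100000001))) (.non (nat_lit 1) (nat_lit 3) (nat_lit 0x15511) (nat_lit 0x100020002000200010000000100000001))) (.star (nat_lit 8) (nat_lit 2) (nat_lit 3))) (.star (nat_lit 8) (nat_lit 1) (nat_lit 3))) (.non (nat_lit 2) (nat_lit 3) (nat_lit 0x14009) (nat_lit 0x100010000000000000000000000010002)))) (.split (nat_lit 8) (nat_lit 0) (.split (nat_lit 8) (nat_lit 1) (.split (nat_lit 8) (nat_lit 3) (.split (nat_lit 8) (nat_lit 4)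 (.split (nat_lit 8) (nat_lit 5) (.split (nat_lit 8) (nat_lit 6) (.split (nat_lit 8) (nat_lit 7) (.split (nat_lit 8) (nat_lit 2) (.split (nat_lit 7) (nat_lit 0) (.split (nat_lit 7) (nat_lit 2) (.sup (nat_lit 0x50019002c00400034000000000000) (nat_lit 0x5000000000000000000000009000b0006)) (.non (nat_lit 1) (nat_lit 3) (nat_lit 0x1a810) (nat_lit 0x200030002000100000000000400000000))) (.non (nat_lit 1) (nat_lit 3) (nat_lit 0xa021) (nat_lit 0x20001000000000000000100000002))) (.non (nat_lit 1) (nat_lit 3) (nat_lit 0x25011) (nat_lit 0x100020001000000000000000200000001))) (.non (nat_lit 1) (nat_lit 3) (nat_lit 0x14010) (nat_lit 0x100010000000000000000000100000000))) (.non (nat_lit 1) (nat_lit 3) (nat_lit 0x15010) (nat_lit 0x100010001000000000000000100000000))) (.non (nat_lit 1) (nat_lit 3) (nat_lit 0x15410) (nat_lit 0x100010001000100000000000100000000))) (.star (nat_lit 8) (nat_lit 2) (nat_lit 4))) (.star (nat_lit 8) (nat_lit 2) (nat_lit 3))) (.non (nat_lit 2) (nat_lit 3) (nat_lit 0x25009) (nat_lit 0x100020001000000000000000000020003)))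 (.non (nat_lit 1) (nat_lit 3) (nat_lit 0x14011) (nat_lit 0x100010000000000000000000100000001))))

noncomputable def t341_32 : Tr := (.split (nat_lit 7) (nat_lit 0) (.split (nat_lit 7) (nat_lit 1) t341_17 (.split (nat_lit 7) (nat_lit 2) t341_22 (.split (nat_lit 6) (nat_lit 2) (.st (nat_lit 1) (nat_lit 2) (nat_lit 3) (nat_lit 0x8009) (nat_lit 0x10000000000000000000000020002) (nat_lit 2) (nat_lit 1) (.st (nat_lit 5) (nat_lit 2) (nat_lit 3) (nat_lit 0xaa09) (nat_lit 0x20002000200010000000000020002) (nat_lit 2) (nat_lit 1) (.st (nat_lit 6) (nat_lit 2) (nat_lit 3) (nat_lit 0xa809) (nat_lit 0x20002000100000000000000020002) (nat_lit 2) (nat_lit 1) (.ex (nat_lit 2) (.ex (nat_lit 3) t341_23 (.split (nat_lit 8) (nat_lit 0) (.split (nat_lit 8) (nat_lit 1) (.split (nat_lit 8) (nat_lit 2) (.split (nat_lit 8) (nat_lit 5) (.split (nat_lit 8) (nat_lit 6) (.split (nat_lit 8) (nat_lit 7) (.split (nat_lit 8) (nat_lit 4) (.unj (nat_lit 0x15) (nat_lit 0x100010001) (nat_lit 0x10540) (nat_lit 0x100000000000100020002000000000000)) (.unj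 (nat_lit 0x15) (nat_lit 0x100010001) (nat_lit 0x10140) (nat_lit 0x100000000000000010001000000000000))) (.non (nat_lit 2) (nat_lit 3) (nat_lit 0x2a009) (nat_lit 0x100020001000000000000000000020002))) (.non (nat_lit 2) (nat_lit 3) (nat_lit 0x2a809) (nat_lit 0x100020002000100000000000000020002))) (.non (nat_lit 2) (nat_lit 3) (nat_lit 0x2aa09) (nat_lit 0x100020002000200010000000000020002))) (.star (nat_lit 8) (nat_lit 2) (nat_lit 3))) (.star (nat_lit 8) (nat_lit 1) (nat_lit 3))) (.non (nat_lit 2) (nat_lit 3) (nat_lit 0x1a009) (nat_lit 0x200020001000000000000000000030004)))) (.split (nat_lit 8) (nat_lit 0) (.split (nat_lit 8) (nat_lit 1) (.split (nat_lit 8) (nat_lit 3) (.split (nat_lit 8) (nat_lit 4) (.split (nat_lit 8) (nat_lit 5) (.split (nat_lit 8) (nat_lit 6) (.split (nat_lit 8) (nat_lit 7) t341_27 (.non (nat_lit 1) (nat_lit 3) (nat_lit 0x14010) (nat_lit 0x100010000000000000000000100000000))) (.non (nat_lit 1) (nat_lit 3) (nat_lit 0x15010) (nat_lit 0x100010001000000000000000100000000))) (.non (nat_lit 1) (nat_lit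 3) (nat_lit 0x15410) (nat_lit 0x100010001000100000000000100000000))) (.star (nat_lit 8) (nat_lit 2) (nat_lit 4))) (.star (nat_lit 8) (nat_lit 2) (nat_lit 3))) (.non (nat_lit 2) (nat_lit 3) (nat_lit 0x28009) (nat_lit 0x100010000000000000000000000020002))) (.non (nat_lit 2) (nat_lit 3) (nat_lit 0x1a009) (nat_lit 0x200020001000000000000000000030004))))))) (.non (nat_lit 1) (nat_lit 3) (nat_lit 0x5010) (nat_lit 0x10001000000000000000100000000))))) (.split (nat_lit 7) (nat_lit 1) (.split (nat_lit 7) (nat_lit 2) t341_29 (.split (nat_lit 6) (nat_lit 2) (.st (nat_lit 1) (nat_lit 2) (nat_lit 3) (nat_lit 0x5009) (nat_lit 0x20001000000000000000000020003) (nat_lit 2) (nat_lit 1) (.st (nat_lit 5) (nat_lit 1) (nat_lit 3) (nat_lit 0x5511) (nat_lit 0x20002000200010000000100000001) (nat_lit 1) (nat_lit 1) (.st (nat_lit 6) (nat_lit 1) (nat_lit 3) (nat_lit 0x5411) (nat_lit 0x20002000100000000000100000001) (nat_lit 1) (nat_lit 1) (.st (nat_lit 7) (nat_lit 1) (nat_lit 3) (nat_lit 0x5011) (nat_lit 0x20001000000000000000100000001) (nat_lit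 1) (nat_lit 1) t341_31)))) (.non (nat_lit 1) (nat_lit 3) (nat_lit 0x5010) (nat_lit 0x10001000000000000000100000000)))) (.non (nat_lit 2) (nat_lit 3) (nat_lit 0x4005) (nat_lit 0x10000000000000000000000010001))))

noncomputable def t341 : Tr := (.split (nat_lit 6) (nat_lit 0) (.split (nat_lit 6) (nat_lit 1) (.split (nat_lit 5) (nat_lit 0) t341_32 (.non (nat_lit 2) (nat_lit 3) (nat_lit 0x1509) (nat_lit 0x1000200010000000000010002))) (.non (nat_lit 2) (nat_lit 3) (nat_lit 0xa809) (nat_lit 0x10002000100000000000000020002))) (.non (nat_lit 2) (nat_lit 3) (nat_lit 0x5409) (nat_lit 0x10002000100000000000000010002)))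

noncomputable def t342_1 : Tr := (.ex (nat_lit 3) (.split (nat_lit 7) (nat_lit 2) (.split (nat_lit 7) (nat_lit 6) (.pd (.cons (nat_lit 1) (nat_lit 4) (nat_lit 0) (nat_lit 0x27603200) (nat_lit 0xa2c28b71aef423f00000f423f3d08b00000f423f) (.cons (nat_lit 2) (nat_lit 4) (nat_lit 0) (nat_lit 0x65503000) (nat_lit 0xf423fb71aea2c2800000f423f00000f423f7a11e) .nil)) (.ex (nat_lit 4) (.pd (.cons (nat_lit 0) (nat_lit 7) (nat_lit 0x110) (nat_lit 0x5433120) (nat_lit 0xf423fb71aea2c2804737000010000100000) (.cons (nat_lit 1) (nat_lit 6) (nat_lit 0) (nat_lit 0x20433200) (nat_lit 0xf423f00000f423fb71ae1f1567a11e00000f423f) (.cons (nat_lit 1) (nat_lit 7) (nat_lit 0) (nat_lit 0x5433200) (nat_lit 0xf423fb71aea2c2804737f423f00000f423f) (.cons (nat_lit 2) (nat_lit 6) (nat_lit 0) (nat_lit 0x70433000) (nat_lit 0xf423f00000f423fb71ae1f15600000f423f7a11e) (.cons (nat_lit 2) (nat_lit 7) (nat_lit 0) (nat_lit 0x5433000) (nat_lit 0xf423fb71aea2c280473700000f423f7a11e) .nil))))) (.leaf (.cons (nat_lit 0x4014) (nat_lit 0x10000000000000000000100010000)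 .nil) (.cons (nat_lit 0x11000100) (nat_lit 0x100010) (nat_lit 6) (nat_lit 0x12000000) .nil))) (.split (nat_lit 8) (nat_lit 0) (.split (nat_lit 8) (nat_lit 1) (.split (nat_lit 8) (nat_lit 2) (.split (nat_lit 8) (nat_lit 3) (.split (nat_lit 8) (nat_lit 5) (.split (nat_lit 8) (nat_lit 6) (.split (nat_lit 8) (nat_lit 7) (.unj (nat_lit 0x15) (nat_lit 0x100010001) (nat_lit 0x10540) (nat_lit 0x100000000000100020002000000000000)) (.non (nat_lit 1) (nat_lit 3) (nat_lit 0x15500) (nat_lit 0x100010001000100010000000000000000))) (.non (nat_lit 1) (nat_lit 3) (nat_lit 0x11500) (nat_lit 0x100000001000100010000000000000000))) (.non (nat_lit 1) (nat_lit 3) (nat_lit 0x10500) (nat_lit 0x100000000000100010000000000000000))) (.non (nat_lit 1) (nat_lit 5) (nat_lit 0x10140) (nat_lit 0x100000000000000010001000000000000))) (.non (nat_lit 1) (nat_lit 3) (nat_lit 0x1a810) (nat_lit 0x200030002000100000000000400000000))) (.non (nat_lit 2) (nat_lit 5) (nat_lit 0x10145) (nat_lit 0x100000000000000010001000000010001))) (.non (nat_lit 2) (nat_lit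 5) (nat_lit 0x10145) (nat_lit 0x100000000000000010001000000010001))))) (.non (nat_lit 1) (nat_lit 3) (nat_lit 0x9010) (nat_lit 0x10001000000000000000100000000))) (.non (nat_lit 1) (nat_lit 3) (nat_lit 0x5510) (nat_lit 0x40003000200010000000300000000))) (.split (nat_lit 8) (nat_lit 0) (.split (nat_lit 8) (nat_lit 1) (.split (nat_lit 8) (nat_lit 2) (.split (nat_lit 8) (nat_lit 4) (.split (nat_lit 8) (nat_lit 5) (.split (nat_lit 8) (nat_lit 6) (.split (nat_lit 8) (nat_lit 7) (.unj (nat_lit 0x15) (nat_lit 0x100010001) (nat_lit 0x10540) (nat_lit 0x100000000000100020002000000000000)) (.non (nat_lit 1) (nat_lit 3) (nat_lit 0x2a010) (nat_lit 0x100020001000000000000000200000000))) (.non (nat_lit 1) (nat_lit 3) (nat_lit 0x2a810) (nat_lit 0x100020002000100000000000200000000))) (.non (nat_lit 1) (nat_lit 3) (nat_lit 0x2aa10) (nat_lit 0x100020002000200010000000200000000))) (.non (nat_lit 1) (nat_lit 5) (nat_lit 0x10140) (nat_lit 0x100000000000000010001000000000000))) (.star (nat_lit 8) (nat_lit 2) (nat_lit 3))) (.star (nat_lit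 8) (nat_lit 1) (nat_lit 3))) (.non (nat_lit 2) (nat_lit 5) (nat_lit 0x10145) (nat_lit 0x100000000000000010001000000010001))))

noncomputable def t342_2 : Tr := (.ex (nat_lit 3) (.pd (.cons (nat_lit 1) (nat_lit 4) (nat_lit 0) (nat_lit 0x65503200) (nat_lit 0xf423fb71aea2c2800000f423ff423f00000f423f) (.cons (nat_lit 2) (nat_lit 4) (nat_lit 0) (nat_lit 0x17603000) (nat_lit 0xa2c28b71aef423f00000f423f000009896530d3b) .nil)) (.ex (nat_lit 4) (.pd (.cons (nat_lit 0) (nat_lit 6) (nat_lit 0) (nat_lit 0x10433110) (nat_lit 0xf423f00000f423fb71ae1f156f423f1750000000) (.cons (nat_lit 0) (nat_lit 7) (nat_lit 0) (nat_lit 0x5433110) (nat_lit 0xf423fb71aea2c2804737f423f5459100000) (.cons (nat_lit 1) (nat_lit 6) (nat_lit 0) (nat_lit 0x70433200) (nat_lit 0xf423f00000f423fb71ae1f156f423f00000f423f) (.cons (nat_lit 1) (nat_lit 7) (nat_lit 0) (nat_lit 0x5433200) (nat_lit 0xf423fb71aea2c2804737f423f00000f423f) (.cons (nat_lit 2) (nat_lit 6) (nat_lit 0) (nat_lit 0x10433000) (nat_lit 0xf423f00000f423fb71ae1f15600000b71ae51612) (.cons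 (nat_lit 2) (nat_lit 7) (nat_lit 0) (nat_lit 0x5433000) (nat_lit 0xf423fb71aea2c280473700000f423f7a11e) .nil)))))) (.leaf (.cons (nat_lit 0x5414) (nat_lit 0x30002000100000000000300040000) .nil) (.cons (nat_lit 0x11000110) (nat_lit 0x100001) (nat_lit 0x10) (nat_lit 0x23000010) .nil))) (.split (nat_lit 8) (nat_lit 0) (.split (nat_lit 8) (nat_lit 1) (.split (nat_lit 8) (nat_lit 2) (.split (nat_lit 8) (nat_lit 3) (.split (nat_lit 8) (nat_lit 5) (.split (nat_lit 8) (nat_lit 6) (.split (nat_lit 8) (nat_lit 7) (.unj (nat_lit 0x15) (nat_lit 0x100010001) (nat_lit 0x10540) (nat_lit 0x100000000000100020002000000000000)) (.non (nat_lit 1) (nat_lit 3) (nat_lit 0x15500) (nat_lit 0x100010001000100010000000000000000))) (.non (nat_lit 1) (nat_lit 3) (nat_lit 0x11500) (nat_lit 0x100000001000100010000000000000000))) (.non (nat_lit 1) (nat_lit 3) (nat_lit 0x10500) (nat_lit 0x100000000000100010000000000000000))) (.non (nat_lit 1) (nat_lit 5) (nat_lit 0x10140) (nat_lit 0x100000000000000010001000000000000))) (.non (nat_lit 0) (nat_lit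 5) (nat_lit 0x14014) (nat_lit 0x100010000000000000000000200020000))) (.non (nat_lit 2) (nat_lit 3) (nat_lit 0x15504) (nat_lit 0x100010001000100010000000000010000))) (.non (nat_lit 2) (nat_lit 3) (nat_lit 0x1a009) (nat_lit 0x200020001000000000000000000030004))))) (.split (nat_lit 8) (nat_lit 0) (.split (nat_lit 8) (nat_lit 1) (.split (nat_lit 8) (nat_lit 2) (.split (nat_lit 8) (nat_lit 4) (.split (nat_lit 8) (nat_lit 5) (.split (nat_lit 8) (nat_lit 6) (.split (nat_lit 8) (nat_lit 7) (.unj (nat_lit 0x15) (nat_lit 0x100010001) (nat_lit 0x10540) (nat_lit 0x100000000000100020002000000000000)) (.non (nat_lit 1) (nat_lit 5) (nat_lit 0x15140) (nat_lit 0x300020001000000030004000000000000))) (.non (nat_lit 1) (nat_lit 5) (nat_lit 0x15140) (nat_lit 0x300010002000000030004000000000000))) (.non (nat_lit 2) (nat_lit 3) (nat_lit 0x2aa09) (nat_lit 0x100020002000200010000000000020002))) (.non (nat_lit 1) (nat_lit 5) (nat_lit 0x10140) (nat_lit 0x100000000000000010001000000000000))) (.star (nat_lit 8) (nat_lit 2) (nat_lit 3))) (.star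 (nat_lit 8) (nat_lit 1) (nat_lit 3))) (.non (nat_lit 2) (nat_lit 3) (nat_lit 0x1a009) (nat_lit 0x200020001000000000000000000030004))))

noncomputable def t342_3 : Tr := (.st (nat_lit 5) (nat_lit 2) (nat_lit 3) (nat_lit 0xaa09) (nat_lit 0x20002000200010000000000020002) (nat_lit 2) (nat_lit 1) (.st (nat_lit 6) (nat_lit 2) (nat_lit 3) (nat_lit 0xa809) (nat_lit 0x20002000100000000000000020002) (nat_lit 2) (nat_lit 1) (.st (nat_lit 7) (nat_lit 2) (nat_lit 3) (nat_lit 0xa009) (nat_lit 0x20001000000000000000000020002) (nat_lit 2) (nat_lit 1) (.st (nat_lit 0) (nat_lit 2) (nat_lit 3) (nat_lit 0xa009) (nat_lit 0x20001000000000000000000030004) (nat_lit 1) (nat_lit 2) (.ex (nat_lit 2) (.split (nat_lit 2) (nat_lit 1) (.split (nat_lit 7) (nat_lit 1) (.split (nat_lit 7) (nat_lit 6) (.pd (.cons (nat_lit 0) (nat_lit 5) (nat_lit 0) (nat_lit 0x17033110) (nat_lit 0xb71aef423f00000f423f54591f423f02f7a00000) .nil) t342_2) (.non (nat_lit 2) (nat_lit 3) (nat_lit 0x6a04) (nat_lit 0x40003000200010000000000020000))) (.non (nat_lit 2) (nat_lit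 3) (nat_lit 0x4009) (nat_lit 0x10000000000000000000000010001))) (.split (nat_lit 7) (nat_lit 1) (.sup (nat_lit 0x9000a0007) (nat_lit 0x100040007000a0008000000000000)) (.non (nat_lit 2) (nat_lit 3) (nat_lit 0x4009) (nat_lit 0x10000000000000000000000010001)))) (.split (nat_lit 8) (nat_lit 0) (.split (nat_lit 8) (nat_lit 1) (.split (nat_lit 8) (nat_lit 3) (.split (nat_lit 8) (nat_lit 5) (.split (nat_lit 8) (nat_lit 6) (.split (nat_lit 8) (nat_lit 7) (.split (nat_lit 8) (nat_lit 4) (.split (nat_lit 8) (nat_lit 2) (.split (nat_lit 7) (nat_lit 1) (.sup (nat_lit 0x20007000b0010000d000000000000) (nat_lit 0x100000000000000000000000300030002)) (.non (nat_lit 2) (nat_lit 3) (nat_lit 0x4009) (nat_lit 0x10000000000000000000000010001))) (.split (nat_lit 8) (nat_lit 2) (.split (nat_lit 7) (nat_lit 1) (.sup (nat_lit 0x700000000000000000000000a00060000) (nat_lit 0x100040007000a0008000000000000)) (.non (nat_lit 2) (nat_lit 3) (nat_lit 0x4009) (nat_lit 0x10000000000000000000000010001))) (.sup (nat_lit 0x800000000000000000000000a00040000)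 (nat_lit 0x100040007000a0008000000000000)))) (.sup (nat_lit 0x50000000300090010000c000000000000) (nat_lit 0x300000000000000000005000a0006))) (.non (nat_lit 2) (nat_lit 3) (nat_lit 0x2a009) (nat_lit 0x100020001000000000000000000020002))) (.non (nat_lit 2) (nat_lit 3) (nat_lit 0x2a809) (nat_lit 0x100020002000100000000000000020002))) (.star (nat_lit 8) (nat_lit 2) (nat_lit 5))) (.star (nat_lit 8) (nat_lit 2) (nat_lit 3))) (.non (nat_lit 2) (nat_lit 3) (nat_lit 0x28009) (nat_lit 0x100010000000000000000000000020002))) (.non (nat_lit 2) (nat_lit 3) (nat_lit 0x1a009) (nat_lit 0x200020001000000000000000000030004))))))))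

noncomputable def t342_4 : Tr := (.split (nat_lit 7) (nat_lit 2) (.split (nat_lit 7) (nat_lit 6) (.split (nat_lit 7) (nat_lit 1) (.pd (.cons (nat_lit 1) (nat_lit 4) (nat_lit 0) (nat_lit 0x27603200) (nat_lit 0xa2c28b71aef423f00000f423f9896500000f423f) (.cons (nat_lit 2) (nat_lit 4) (nat_lit 0) (nat_lit 0x17603000) (nat_lit 0xa2c28b71aef423f00000f423f000009896530d3b) .nil)) (.ex (nat_lit 4) (.pd (.cons (nat_lit 0) (nat_lit 7) (nat_lit 0x110) (nat_lit 0x5433120) (nat_lit 0xf423fb71aea2c2804737000010000100000) (.cons (nat_lit 1) (nat_lit 6) (nat_lit 0) (nat_lit 0x20433200) (nat_lit 0xf423f00000f423fb71ae1f156b71ae00000f423f) (.cons (nat_lit 1) (nat_lit 7) (nat_lit 0) (nat_lit 0x5433200) (nat_lit 0xf423fb71aea2c2804737f423f00000f423f) (.cons (nat_lit 2) (nat_lit 6) (nat_lit 0) (nat_lit 0x10433000) (nat_lit 0xf423f00000f423fb71ae1f15600000b71ae51612) (.cons (nat_lit 2) (nat_lit 7) (nat_lit 0) (nat_lit 0x5433000) (nat_lit 0xf423fb71aea2c280473700000f423f7a11e) .nil))))) (.leaf (.cons (nat_lit 0x4014) (nat_lit 0x10000000000000000000100010000)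 .nil) .nil)) (.split (nat_lit 8) (nat_lit 0) (.split (nat_lit 8) (nat_lit 1) (.split (nat_lit 8) (nat_lit 2) (.split (nat_lit 8) (nat_lit 3) (.split (nat_lit 8) (nat_lit 5) (.split (nat_lit 8) (nat_lit 6) (.split (nat_lit 8) (nat_lit 7) (.unj (nat_lit 0x15) (nat_lit 0x100010001) (nat_lit 0x10540) (nat_lit 0x100000000000100020002000000000000)) (.non (nat_lit 1) (nat_lit 3) (nat_lit 0x15500) (nat_lit 0x100010001000100010000000000000000))) (.non (nat_lit 1) (nat_lit 3) (nat_lit 0x11500) (nat_lit 0x100000001000100010000000000000000))) (.non (nat_lit 1) (nat_lit 3) (nat_lit 0x10500) (nat_lit 0x100000000000100010000000000000000))) (.non (nat_lit 1) (nat_lit 5) (nat_lit 0x10140) (nat_lit 0x100000000000000010001000000000000))) (.non (nat_lit 1) (nat_lit 3) (nat_lit 0x15510) (nat_lit 0x100010001000100010000000100000000))) (.non (nat_lit 2) (nat_lit 3) (nat_lit 0x15504) (nat_lit 0x100010001000100010000000000010000))) (.non (nat_lit 2) (nat_lit 3) (nat_lit 0x1a009) (nat_lit 0x200020001000000000000000000030004))))) (.non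 (nat_lit 2) (nat_lit 3) (nat_lit 0x4009) (nat_lit 0x10000000000000000000000010001))) (.non (nat_lit 1) (nat_lit 3) (nat_lit 0x6a10) (nat_lit 0x40003000200010000000200000000))) (.split (nat_lit 7) (nat_lit 2) (.split (nat_lit 7) (nat_lit 6) (.split (nat_lit 7) (nat_lit 1) (.pd (.cons (nat_lit 1) (nat_lit 4) (nat_lit 0) (nat_lit 0x27603200) (nat_lit 0xa2c28b71aef423f00000f423f3d08b00000f423f) (.cons (nat_lit 2) (nat_lit 4) (nat_lit 0) (nat_lit 0x17603000) (nat_lit 0xa2c28b71aef423f00000f423f000009896530d3b) .nil)) (.ex (nat_lit 4) (.pd (.cons (nat_lit 0) (nat_lit 7) (nat_lit 0x110) (nat_lit 0x5433120) (nat_lit 0xf423fb71aea2c2804737000010000100000) (.cons (nat_lit 1) (nat_lit 6) (nat_lit 0) (nat_lit 0x20433200) (nat_lit 0xf423f00000f423fb71ae1f1567a11e00000f423f) (.cons (nat_lit 1) (nat_lit 7) (nat_lit 0) (nat_lit 0x5433200) (nat_lit 0xf423fb71aea2c2804737f423f00000f423f) (.cons (nat_lit 2) (nat_lit 6) (nat_lit 0) (nat_lit 0x10433000) (nat_lit 0xf423f00000f423fb71ae1f15600000b71ae51612) (.cons (nat_lit 2) (nat_lit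 7) (nat_lit 0) (nat_lit 0x5433000) (nat_lit 0xf423fb71aea2c280473700000f423f7a11e) .nil))))) (.leaf (.cons (nat_lit 0x4014) (nat_lit 0x10000000000000000000100010000) .nil) .nil)) (.split (nat_lit 8) (nat_lit 0) (.split (nat_lit 8) (nat_lit 1) (.split (nat_lit 8) (nat_lit 2) (.split (nat_lit 8) (nat_lit 3) (.split (nat_lit 8) (nat_lit 5) (.split (nat_lit 8) (nat_lit 6) (.split (nat_lit 8) (nat_lit 7) (.unj (nat_lit 0x15) (nat_lit 0x100010001) (nat_lit 0x10540) (nat_lit 0x100000000000100020002000000000000)) (.non (nat_lit 1) (nat_lit 3) (nat_lit 0x15500) (nat_lit 0x100010001000100010000000000000000))) (.non (nat_lit 1) (nat_lit 3) (nat_lit 0x11500) (nat_lit 0x100000001000100010000000000000000))) (.non (nat_lit 1) (nat_lit 3) (nat_lit 0x10500) (nat_lit 0x100000000000100010000000000000000))) (.non (nat_lit 1) (nat_lit 5) (nat_lit 0x10140) (nat_lit 0x100000000000000010001000000000000))) (.non (nat_lit 1) (nat_lit 3) (nat_lit 0x1a810) (nat_lit 0x200030002000100000000000400000000))) (.non (nat_lit 2) (nat_lit 3) (nat_lit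 0x15504) (nat_lit 0x100010001000100010000000000010000))) (.non (nat_lit 2) (nat_lit 3) (nat_lit 0x1a009) (nat_lit 0x200020001000000000000000000030004))))) (.non (nat_lit 2) (nat_lit 3) (nat_lit 0x4009) (nat_lit 0x10000000000000000000000010001))) (.non (nat_lit 1) (nat_lit 3) (nat_lit 0x9010) (nat_lit 0x10001000000000000000100000000))) (.non (nat_lit 1) (nat_lit 3) (nat_lit 0x5510) (nat_lit 0x40003000200010000000300000000))))

noncomputable def t342_5 : Tr := (.ex (nat_lit 8) (.ex (nat_lit 9) (.split (nat_lit 2) (nat_lit 1) (.split (nat_lit 9) (nat_lit 8) (.pd (.cons (nat_lit 0) (nat_lit 7) (nat_lit 0) (nat_lit 0x8205433110) (nat_lit 0xf423fb71ae00000f423fb71aea2c2804737a2c280473700000) .nil) (.leaf (.cons (nat_lit 0x4014) (nat_lit 0x10000000000000000000100010000) .nil) .nil)) (.leaf (.cons (nat_lit 0x50014) (nat_lit 0x1000100000000000000000000000100010000) .nil) .nil)) (.leaf (.cons (nat_lit 0x30034) (nat_lit 0x100000000000000000000000200030000) .nil) .nil)) (.split (nat_lit 0xa) (nat_lit 0) (.split (nat_lit 0xa)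 (nat_lit 1) (.split (nat_lit 0xa) (nat_lit 2) (.split (nat_lit 0xa) (nat_lit 3) (.split (nat_lit 0xa) (nat_lit 4) (.split (nat_lit 0xa) (nat_lit 5) (.split (nat_lit 0xa) (nat_lit 6) (.split (nat_lit 0xa) (nat_lit 7) (.split (nat_lit 0xa) (nat_lit 8) (.leaf (.cons (nat_lit 0x150014) (nat_lit 0x10002000300000000000000000000000400030000) .nil) .nil) (.non (nat_lit 1) (nat_lit 3) (nat_lit 0x150000) (nat_lit 0x10001000100000000000000000000000000000000))) (.non (nat_lit 1) (nat_lit 3) (nat_lit 0x154010) (nat_lit 0x10001000100010000000000000000000100000000))) (.non (nat_lit 1) (nat_lit 3) (nat_lit 0x155010) (nat_lit 0x10001000100010001000000000000000100000000))) (.non (nat_lit 1) (nat_lit 3) (nat_lit 0x155410) (nat_lit 0x10001000100010001000100000000000100000000))) (.non (nat_lit 1) (nat_lit 3) (nat_lit 0x155510) (nat_lit 0x10001000100010001000100010000000100000000))) (.non (nat_lit 1) (nat_lit 5) (nat_lit 0x150140) (nat_lit 0x30002000100000000000000030004000000000000))) (.non (nat_lit 1) (nat_lit 3) (nat_lit 0x150010)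 (nat_lit 0x10001000100000000000000000000000100000000))) (.non (nat_lit 2) (nat_lit 3) (nat_lit 0x208009) (nat_lit 0x10000000000010000000000000000000000020002))) (.non (nat_lit 2) (nat_lit 3) (nat_lit 0x148009) (nat_lit 0x20001000000010000000000000000000000020003)))) (.split (nat_lit 0xa) (nat_lit 0) (.split (nat_lit 0xa) (nat_lit 1) (.split (nat_lit 0xa) (nat_lit 2) (.split (nat_lit 0xa) (nat_lit 3) (.split (nat_lit 0xa) (nat_lit 4) (.split (nat_lit 0xa) (nat_lit 5) (.split (nat_lit 0xa) (nat_lit 6) (.split (nat_lit 0xa) (nat_lit 7) (.split (nat_lit 0xa) (nat_lit 9) (.leaf (.cons (nat_lit 0x150014) (nat_lit 0x10001000200000000000000000000000200020000) .nil) .nil) (.non (nat_lit 1) (nat_lit 3) (nat_lit 0x150000) (nat_lit 0x10001000100000000000000000000000000000000))) (.non (nat_lit 1) (nat_lit 3) (nat_lit 0x114010) (nat_lit 0x10000000100010000000000000000000100000000))) (.non (nat_lit 1) (nat_lit 3) (nat_lit 0x115010) (nat_lit 0x10000000100010001000000000000000100000000))) (.non (nat_lit 1) (nat_lit 3) (nat_lit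 0x115410) (nat_lit 0x10000000100010001000100000000000100000000))) (.non (nat_lit 1) (nat_lit 3) (nat_lit 0x115510) (nat_lit 0x10000000100010001000100010000000100000000))) (.non (nat_lit 1) (nat_lit 5) (nat_lit 0x150140) (nat_lit 0x30001000200000000000000030004000000000000))) (.non (nat_lit 1) (nat_lit 3) (nat_lit 0x110010) (nat_lit 0x10000000100000000000000000000000100000000))) (.non (nat_lit 2) (nat_lit 3) (nat_lit 0x208009) (nat_lit 0x10000000000010000000000000000000000020002))) (.non (nat_lit 1) (nat_lit 3) (nat_lit 0x155511) (nat_lit 0x40003000600040003000200010000000500000002))))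

noncomputable def t342_6 : Tr := (.ex (nat_lit 4) (.pd (.cons (nat_lit 1) (nat_lit 6) (nat_lit 0) (nat_lit 0x220433200) (nat_lit 0xf423ff423f00000f423fb71ae1f1567a11d00000f423f) (.cons (nat_lit 1) (nat_lit 7) (nat_lit 0) (nat_lit 0x205433200) (nat_lit 0xf423f00000f423fb71aea2c2804737b71ae00000f423f) (.cons (nat_lit 2) (nat_lit 6) (nat_lit 0) (nat_lit 0x810433000) (nat_lit 0xf423ff423f00000f423fb71ae1f15600000b71ae51612) (.cons (nat_lit 2) (nat_lit 7) (nat_lit 0) (nat_lit 0x805433000) (nat_lit 0xf423f00000f423fb71aea2c280473700000f423f7a11e) .nil)))) (.ex (nat_lit 8) (.split (nat_lit 2) (nat_lit 1) (.pd (.cons (nat_lit 0) (nat_lit 7) (nat_lit 0) (nat_lit 0x205433110) (nat_lit 0xf423f00000f423fb71aea2c2804737b71ae1f15600000) .nil) (.leaf (.cons (nat_lit 0x4014) (nat_lit 0x10000000000000000000100010000) .nil) .nil)) (.leaf (.cons (nat_lit 0x30034) (nat_lit 0x100000000000000000000000200030000) .nil) .nil)) (.split (nat_lit 9) (nat_lit 0) (.split (nat_lit 9) (nat_lit 1) (.split (nat_lit 9) (nat_lit 2) (.split (nat_lit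 9) (nat_lit 3) (.split (nat_lit 9) (nat_lit 4) (.split (nat_lit 9) (nat_lit 5) (.split (nat_lit 9) (nat_lit 6) (.split (nat_lit 9) (nat_lit 7) t342_5 (.non (nat_lit 1) (nat_lit 3) (nat_lit 0x54010) (nat_lit 0x1000100010000000000000000000100000000))) (.non (nat_lit 1) (nat_lit 3) (nat_lit 0x55010) (nat_lit 0x1000100010001000000000000000100000000))) (.non (nat_lit 1) (nat_lit 3) (nat_lit 0x55410) (nat_lit 0x1000100010001000100000000000100000000))) (.non (nat_lit 1) (nat_lit 3) (nat_lit 0x55510) (nat_lit 0x1000100010001000100010000000100000000))) (.non (nat_lit 1) (nat_lit 5) (nat_lit 0x50150) (nat_lit 0x3000200000000000000030004000100000000))) (.non (nat_lit 1) (nat_lit 3) (nat_lit 0x50010) (nat_lit 0x1000100000000000000000000000100000000))) (.non (nat_lit 2) (nat_lit 3) (nat_lit 0x88009) (nat_lit 0x1000000010000000000000000000000020002))) (.non (nat_lit 2) (nat_lit 3) (nat_lit 0x58009) (nat_lit 0x2000100010000000000000000000000020003))))) (.split (nat_lit 9) (nat_lit 0) (.split (nat_lit 9) (nat_lit 1) (.split (nat_lit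 9) (nat_lit 2) (.split (nat_lit 9) (nat_lit 3) (.split (nat_lit 9) (nat_lit 5) (.split (nat_lit 9) (nat_lit 6) (.split (nat_lit 9) (nat_lit 7) (.split (nat_lit 9) (nat_lit 8) (.unj (nat_lit 0x15) (nat_lit 0x100010001) (nat_lit 0x40540) (nat_lit 0x1000000000000000100020002000000000000)) (.non (nat_lit 1) (nat_lit 3) (nat_lit 0x55510) (nat_lit 0x1000100010001000100010000000100000000))) (.non (nat_lit 1) (nat_lit 3) (nat_lit 0x45500) (nat_lit 0x1000000010001000100010000000000000000))) (.non (nat_lit 1) (nat_lit 3) (nat_lit 0x41500) (nat_lit 0x1000000000001000100010000000000000000))) (.non (nat_lit 1) (nat_lit 3) (nat_lit 0x40500) (nat_lit 0x1000000000000000100010000000000000000))) (.non (nat_lit 1) (nat_lit 5) (nat_lit 0x40140) (nat_lit 0x1000000000000000000010001000000000000))) (.non (nat_lit 1) (nat_lit 3) (nat_lit 0x45510) (nat_lit 0x1000000010001000100010000000100000000))) (.non (nat_lit 2) (nat_lit 3) (nat_lit 0x45504) (nat_lit 0x1000000010001000100010000000000010000))) (.non (nat_lit 2) (nat_lit 3) (nat_lit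 0x4a009) (nat_lit 0x2000000020001000000000000000000030004))))

noncomputable def t342_7 : Tr := (.split (nat_lit 8) (nat_lit 2) (.split (nat_lit 7) (nat_lit 6) (.split (nat_lit 7) (nat_lit 1) (.pd (.cons (nat_lit 1) (nat_lit 4) (nat_lit 0) (nat_lit 0x227603200) (nat_lit 0xf423fa2c28b71aef423f00000f423f5b8d400000f423f) (.cons (nat_lit 2) (nat_lit 4) (nat_lit 0) (nat_lit 0x817603000) (nat_lit 0xf423fa2c28b71aef423f00000f423f000009896530d3b) .nil)) t342_6) (.non (nat_lit 2) (nat_lit 3) (nat_lit 0x4009) (nat_lit 0x10000000000000000000000010001))) (.non (nat_lit 1) (nat_lit 3) (nat_lit 0x16810) (nat_lit 0x100030002000100000000000200000000))) (.split (nat_lit 8) (nat_lit 2) (.split (nat_lit 7) (nat_lit 6) (.split (nat_lit 7) (nat_lit 1) (.pd (.cons (nat_lit 1) (nat_lit 4) (nat_lit 0) (nat_lit 0x227603200) (nat_lit 0xf423fa2c28b71aef423f00000f423f1e84400000f423f) (.cons (nat_lit 2) (nat_lit 4) (nat_lit 0) (nat_lit 0x817603000) (nat_lit 0xf423fa2c28b71aef423f00000f423f000009896530d3b) .nil)) (.ex (nat_lit 4) (.pd (.cons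 (nat_lit 1) (nat_lit 6) (nat_lit 0) (nat_lit 0x220433200) (nat_lit 0xf423ff423f00000f423fb71ae1f1563d08d00000f423f) (.cons (nat_lit 1) (nat_lit 7) (nat_lit 0) (nat_lit 0x205433200) (nat_lit 0xf423f00000f423fb71aea2c28047377a11e00000f423f) (.cons (nat_lit 2) (nat_lit 6) (nat_lit 0) (nat_lit 0x810433000) (nat_lit 0xf423ff423f00000f423fb71ae1f15600000b71ae51612) (.cons (nat_lit 2) (nat_lit 7) (nat_lit 0) (nat_lit 0x805433000) (nat_lit 0xf423f00000f423fb71aea2c280473700000f423f7a11e) .nil)))) (.leaf (.cons (nat_lit 0x10014) (nat_lit 0x100000000000000000000000100010000) .nil) .nil)) (.split (nat_lit 9) (nat_lit 0) (.split (nat_lit 9) (nat_lit 1) (.split (nat_lit 9) (nat_lit 2) (.split (nat_lit 9) (nat_lit 3) (.split (nat_lit 9) (nat_lit 5) (.split (nat_lit 9) (nat_lit 6) (.split (nat_lit 9) (nat_lit 7) (.split (nat_lit 9) (nat_lit 8) (.unj (nat_lit 0x15) (nat_lit 0x100010001) (nat_lit 0x40540) (nat_lit 0x1000000000000000100020002000000000000)) (.non (nat_lit 1) (nat_lit 3) (nat_lit 0xa5010) (nat_lit 0x1000200020001000000000000000300000000)))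 (.non (nat_lit 1) (nat_lit 3) (nat_lit 0x45500) (nat_lit 0x1000000010001000100010000000000000000))) (.non (nat_lit 1) (nat_lit 3) (nat_lit 0x41500) (nat_lit 0x1000000000001000100010000000000000000))) (.non (nat_lit 1) (nat_lit 3) (nat_lit 0x40500) (nat_lit 0x1000000000000000100010000000000000000))) (.non (nat_lit 1) (nat_lit 5) (nat_lit 0x40140) (nat_lit 0x1000000000000000000010001000000000000))) (.non (nat_lit 1) (nat_lit 3) (nat_lit 0x64010) (nat_lit 0x1000100010000000000000000000200000000))) (.non (nat_lit 2) (nat_lit 3) (nat_lit 0x45504) (nat_lit 0x1000000010001000100010000000000010000))) (.non (nat_lit 2) (nat_lit 3) (nat_lit 0x4a009) (nat_lit 0x2000000020001000000000000000000030004))))) (.non (nat_lit 2) (nat_lit 3) (nat_lit 0x4009) (nat_lit 0x10000000000000000000000010001))) (.non (nat_lit 1) (nat_lit 3) (nat_lit 0x26010) (nat_lit 0x100020001000000000000000200000000))) (.non (nat_lit 1) (nat_lit 3) (nat_lit 0x15410) (nat_lit 0x300030002000100000000000400000000))))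

noncomputable def t342_8 : Tr := (.split (nat_lit 7) (nat_lit 6) (.split (nat_lit 7) (nat_lit 1) (.pd (.cons (nat_lit 1) (nat_lit 4) (nat_lit 0) (nat_lit 0x2227603200) (nat_lit 0xf423ff423fa2c28b71aef423f00000f423f1e84300000f423f) (.cons (nat_lit 2) (nat_lit 4) (nat_lit 0) (nat_lit 0x9817603000) (nat_lit 0xf423ff423fa2c28b71aef423f00000f423f000009896530d3b) .nil)) (.ex (nat_lit 4) (.pd (.cons (nat_lit 1) (nat_lit 6) (nat_lit 0) (nat_lit 0x2220433200) (nat_lit 0xf423ff423ff423f00000f423fb71ae1f1563d08c00000f423f) (.cons (nat_lit 1) (nat_lit 7) (nat_lit 0) (nat_lit 0x2205433200) (nat_lit 0xf423ff423f00000f423fb71aea2c28047377a11d00000f423f) (.cons (nat_lit 2) (nat_lit 6) (nat_lit 0) (nat_lit 0x9810433000) (nat_lit 0xf423ff423ff423f00000f423fb71ae1f15600000b71ae51612) (.cons (nat_lit 2) (nat_lit 7) (nat_lit 0) (nat_lit 0x9805433000) (nat_lit 0xf423ff423f00000f423fb71aea2c280473700000f423f7a11e) .nil)))) (.leaf (.cons (nat_lit 0x50014) (nat_lit 0x1000100000000000000000000000200020000) .nil) .nil)) (.split (nat_lit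 0xa) (nat_lit 0) (.split (nat_lit 0xa) (nat_lit 1) (.split (nat_lit 0xa) (nat_lit 2) (.split (nat_lit 0xa) (nat_lit 3) (.split (nat_lit 0xa) (nat_lit 5) (.split (nat_lit 0xa) (nat_lit 6) (.split (nat_lit 0xa) (nat_lit 7) (.split (nat_lit 0xa) (nat_lit 8) (.split (nat_lit 0xa) (nat_lit 9) (.unj (nat_lit 0x15) (nat_lit 0x100010001) (nat_lit 0x100540) (nat_lit 0x10000000000000000000100020002000000000000)) (.non (nat_lit 1) (nat_lit 3) (nat_lit 0x145510) (nat_lit 0x10001000000010001000100010000000100000000))) (.non (nat_lit 1) (nat_lit 3) (nat_lit 0x115510) (nat_lit 0x10000000100010001000100010000000100000000))) (.non (nat_lit 1) (nat_lit 3) (nat_lit 0x105500) (nat_lit 0x10000000000010001000100010000000000000000))) (.non (nat_lit 1) (nat_lit 3) (nat_lit 0x101500) (nat_lit 0x10000000000000001000100010000000000000000))) (.non (nat_lit 1) (nat_lit 3) (nat_lit 0x100500) (nat_lit 0x10000000000000000000100010000000000000000))) (.non (nat_lit 1) (nat_lit 5) (nat_lit 0x100140) (nat_lit 0x10000000000000000000000010001000000000000)))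 (.non (nat_lit 1) (nat_lit 3) (nat_lit 0x154010) (nat_lit 0x10001000100010000000000000000000200000000))) (.non (nat_lit 2) (nat_lit 3) (nat_lit 0x105504) (nat_lit 0x10000000000010001000100010000000000010000))) (.non (nat_lit 2) (nat_lit 3) (nat_lit 0x10a009) (nat_lit 0x20000000000020001000000000000000000030004))))) (.non (nat_lit 2) (nat_lit 3) (nat_lit 0x4009) (nat_lit 0x10000000000000000000000010001))) (.non (nat_lit 1) (nat_lit 3) (nat_lit 0x56010) (nat_lit 0x1000100020001000000000000000200000000)))

noncomputable def t342_9 : Tr := (.split (nat_lit 9) (nat_lit 0) (.split (nat_lit 9) (nat_lit 1) (.split (nat_lit 9) (nat_lit 3) (.split (nat_lit 9) (nat_lit 4) (.split (nat_lit 9) (nat_lit 5) (.split (nat_lit 9) (nat_lit 6) (.split (nat_lit 9) (nat_lit 7) (.split (nat_lit 9) (nat_lit 8) (.ex (nat_lit 3) (.split (nat_lit 7) (nat_lit 2) (.split (nat_lit 8) (nat_lit 2) (.split (nat_lit 9) (nat_lit 2) t342_8 (.non (nat_lit 1) (nat_lit 3) (nat_lit 0x94010) (nat_lit 0x1000100010000000000000000000200000000))) (.non (nat_lit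 1) (nat_lit 3) (nat_lit 0x64010) (nat_lit 0x1000100010000000000000000000200000000))) (.non (nat_lit 1) (nat_lit 3) (nat_lit 0x58010) (nat_lit 0x1000100010000000000000000000200000000))) (.split (nat_lit 0xa) (nat_lit 0) (.split (nat_lit 0xa) (nat_lit 1) (.split (nat_lit 0xa) (nat_lit 2) (.split (nat_lit 0xa) (nat_lit 4) (.split (nat_lit 0xa) (nat_lit 5) (.split (nat_lit 0xa) (nat_lit 6) (.split (nat_lit 0xa) (nat_lit 7) (.split (nat_lit 0xa) (nat_lit 8) (.split (nat_lit 0xa) (nat_lit 9) (.unj (nat_lit 0x15) (nat_lit 0x100010001) (nat_lit 0x100540) (nat_lit 0x10000000000000000000100020002000000000000)) (.non (nat_lit 1) (nat_lit 5) (nat_lit 0x140150) (nat_lit 0x30002000000000000000000030004000100000000))) (.non (nat_lit 1) (nat_lit 5) (nat_lit 0x110150) (nat_lit 0x30000000200000000000000030004000100000000))) (.non (nat_lit 1) (nat_lit 3) (nat_lit 0x155010) (nat_lit 0x10001000100020001000000000000000200000000))) (.non (nat_lit 1) (nat_lit 3) (nat_lit 0x155410) (nat_lit 0x10001000100020002000100000000000200000000)))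 (.non (nat_lit 1) (nat_lit 3) (nat_lit 0x155510) (nat_lit 0x10001000100020002000200010000000200000000))) (.non (nat_lit 1) (nat_lit 5) (nat_lit 0x100140) (nat_lit 0x10000000000000000000000010001000000000000))) (.star (nat_lit 0xa) (nat_lit 2) (nat_lit 3))) (.star (nat_lit 0xa) (nat_lit 1) (nat_lit 3))) (.non (nat_lit 2) (nat_lit 3) (nat_lit 0x10a009) (nat_lit 0x20000000000020001000000000000000000030004)))) (.non (nat_lit 1) (nat_lit 3) (nat_lit 0x50010) (nat_lit 0x1000100000000000000000000000100000000))) (.non (nat_lit 1) (nat_lit 3) (nat_lit 0x44010) (nat_lit 0x1000000010000000000000000000100000000))) (.non (nat_lit 1) (nat_lit 3) (nat_lit 0x45010) (nat_lit 0x1000000010001000000000000000100000000))) (.star (nat_lit 9) (nat_lit 2) (nat_lit 5))) (.non (nat_lit 1) (nat_lit 3) (nat_lit 0x45510) (nat_lit 0x1000000010001000100010000000100000000))) (.star (nat_lit 9) (nat_lit 2) (nat_lit 3))) (.non (nat_lit 2) (nat_lit 3) (nat_lit 0x88009) (nat_lit 0x1000000010000000000000000000000020002))) (.non (nat_lit 2) (nat_lit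 3) (nat_lit 0x4a009) (nat_lit 0x2000000020001000000000000000000030004)))

noncomputable def t342_10 : Tr := (.ex (nat_lit 2) (.ex (nat_lit 3) t342_4 (.split (nat_lit 8) (nat_lit 0) (.split (nat_lit 8) (nat_lit 1) (.split (nat_lit 8) (nat_lit 2) (.split (nat_lit 8) (nat_lit 4) (.split (nat_lit 8) (nat_lit 5) (.split (nat_lit 8) (nat_lit 6) (.split (nat_lit 8) (nat_lit 7) (.unj (nat_lit 0x15) (nat_lit 0x100010001) (nat_lit 0x10540) (nat_lit 0x100000000000100020002000000000000)) (.non (nat_lit 1) (nat_lit 5) (nat_lit 0x15140) (nat_lit 0x300020001000000030004000000000000))) (.non (nat_lit 1) (nat_lit 5) (nat_lit 0x15140) (nat_lit 0x300010002000000030004000000000000))) (.non (nat_lit 2) (nat_lit 3) (nat_lit 0x2aa09) (nat_lit 0x100020002000200010000000000020002))) (.non (nat_lit 1) (nat_lit 5) (nat_lit 0x10140) (nat_lit 0x100000000000000010001000000000000))) (.star (nat_lit 8) (nat_lit 2) (nat_lit 3))) (.star (nat_lit 8) (nat_lit 1) (nat_lit 3))) (.non (nat_lit 2) (nat_lit 3) (nat_lit 0x1a009) (nat_lit 0x200020001000000000000000000030004))))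 (.split (nat_lit 8) (nat_lit 0) (.split (nat_lit 8) (nat_lit 1) (.split (nat_lit 8) (nat_lit 3) (.split (nat_lit 8) (nat_lit 4) (.split (nat_lit 8) (nat_lit 5) (.split (nat_lit 8) (nat_lit 6) (.split (nat_lit 8) (nat_lit 7) (.ex (nat_lit 2) (.ex (nat_lit 3) (.split (nat_lit 7) (nat_lit 2) t342_7 (.non (nat_lit 1) (nat_lit 3) (nat_lit 0x1a810) (nat_lit 0x200030002000100000000000400000000))) (.split (nat_lit 9) (nat_lit 0) (.split (nat_lit 9) (nat_lit 1) (.split (nat_lit 9) (nat_lit 2) (.split (nat_lit 9) (nat_lit 4) (.split (nat_lit 9) (nat_lit 5) (.split (nat_lit 9) (nat_lit 6) (.split (nat_lit 9) (nat_lit 7) (.split (nat_lit 9) (nat_lit 8) (.unj (nat_lit 0x15) (nat_lit 0x100010001) (nat_lit 0x40540) (nat_lit 0x1000000000000000100020002000000000000)) (.non (nat_lit 1) (nat_lit 5) (nat_lit 0x50150) (nat_lit 0x3000200000000000000030004000100000000))) (.non (nat_lit 1) (nat_lit 5) (nat_lit 0x45140) (nat_lit 0x3000000020001000000030004000000000000))) (.non (nat_lit 1) (nat_lit 5) (nat_lit 0x45140) (nat_lit 0x3000000010002000000030004000000000000)))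 (.non (nat_lit 2) (nat_lit 3) (nat_lit 0x8aa09) (nat_lit 0x1000000020002000200010000000000020002))) (.non (nat_lit 1) (nat_lit 5) (nat_lit 0x40140) (nat_lit 0x1000000000000000000010001000000000000))) (.star (nat_lit 9) (nat_lit 2) (nat_lit 3))) (.star (nat_lit 9) (nat_lit 1) (nat_lit 3))) (.non (nat_lit 2) (nat_lit 3) (nat_lit 0x4a009) (nat_lit 0x2000000020001000000000000000000030004)))) t342_9) (.non (nat_lit 1) (nat_lit 3) (nat_lit 0x14010) (nat_lit 0x100010000000000000000000100000000))) (.non (nat_lit 1) (nat_lit 3) (nat_lit 0x15010) (nat_lit 0x100010001000000000000000100000000))) (.star (nat_lit 8) (nat_lit 2) (nat_lit 5))) (.non (nat_lit 1) (nat_lit 3) (nat_lit 0x15510) (nat_lit 0x100010001000100010000000100000000))) (.star (nat_lit 8) (nat_lit 2) (nat_lit 3))) (.non (nat_lit 2) (nat_lit 3) (nat_lit 0x28009) (nat_lit 0x100010000000000000000000000020002))) (.non (nat_lit 2) (nat_lit 3) (nat_lit 0x1a009) (nat_lit 0x200020001000000000000000000030004))))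

noncomputable def t342_11 : Tr := (.ex (nat_lit 3) (.split (nat_lit 7) (nat_lit 0) (.pd (.cons (nat_lit 1) (nat_lit 4) (nat_lit 0) (nat_lit 0x7603700) (nat_lit 0x65b97b71aef423f00000f423ff423f0000061a79) (.cons (nat_lit 2) (nat_lit 4) (nat_lit 0) (nat_lit 0x7603000) (nat_lit 0xa2c28b71aef423f00000f423f00000f423f1e844) .nil)) (.ex (nat_lit 4) (.pd (.cons (nat_lit 0) (nat_lit 6) (nat_lit 0) (nat_lit 0x20433110) (nat_lit 0xf423f00000f423fb71ae1f156b71ae1f15600000) (.cons (nat_lit 0) (nat_lit 7) (nat_lit 0) (nat_lit 0x5433110) (nat_lit 0xf423fb71aea2c2804737f423f5459100000) (.cons (nat_lit 1) (nat_lit 6) (nat_lit 0) (nat_lit 0x433700) (nat_lit 0xb71ae00000f423fb71ae1f156f423f00000a2c28) (.cons (nat_lit 1) (nat_lit 7) (nat_lit 0) (nat_lit 0x5433200) (nat_lit 0xf423fb71aea2c2804737f423f00000f423f) (.cons (nat_lit 2) (nat_lit 6) (nat_lit 0) (nat_lit 0x433000) (nat_lit 0xf423f00000f423fb71ae1f15600000f423f3d08d) (.cons (nat_lit 2) (nat_lit 7) (nat_lit 0) (nat_lit 0x5433000) (nat_lit 0xf423fb71aea2c280473700000f423f7a11e)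 .nil)))))) (.leaf (.cons (nat_lit 0x5414) (nat_lit 0x30002000100000000000400030000) .nil) .nil)) (.split (nat_lit 8) (nat_lit 0) (.split (nat_lit 8) (nat_lit 1) (.split (nat_lit 8) (nat_lit 2) (.split (nat_lit 8) (nat_lit 3) (.split (nat_lit 8) (nat_lit 5) (.split (nat_lit 8) (nat_lit 6) (.split (nat_lit 8) (nat_lit 7) (.unj (nat_lit 0x15) (nat_lit 0x100010001) (nat_lit 0x10540) (nat_lit 0x100000000000100020002000000000000)) (.non (nat_lit 1) (nat_lit 3) (nat_lit 0x15500) (nat_lit 0x100010001000100010000000000000000))) (.non (nat_lit 1) (nat_lit 3) (nat_lit 0x11500) (nat_lit 0x100000001000100010000000000000000))) (.non (nat_lit 1) (nat_lit 3) (nat_lit 0x10500) (nat_lit 0x100000000000100010000000000000000))) (.non (nat_lit 1) (nat_lit 5) (nat_lit 0x10140) (nat_lit 0x100000000000000010001000000000000))) (.non (nat_lit 1) (nat_lit 3) (nat_lit 0x15510) (nat_lit 0x100010001000100010000000100000000))) (.non (nat_lit 2) (nat_lit 3) (nat_lit 0x25009) (nat_lit 0x100020001000000000000000000020003))) (.non (nat_lit 1) (nat_lit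 3) (nat_lit 0x15501) (nat_lit 0x100010001000100010000000000000001))))) (.non (nat_lit 1) (nat_lit 3) (nat_lit 0xa021) (nat_lit 0x20001000000000000000100000002))) (.split (nat_lit 8) (nat_lit 0) (.split (nat_lit 8) (nat_lit 1) (.split (nat_lit 8) (nat_lit 2) (.split (nat_lit 8) (nat_lit 4) (.split (nat_lit 8) (nat_lit 5) (.split (nat_lit 8) (nat_lit 6) (.split (nat_lit 8) (nat_lit 7) (.unj (nat_lit 0x15) (nat_lit 0x100010001) (nat_lit 0x10540) (nat_lit 0x100000000000100020002000000000000)) (.non (nat_lit 1) (nat_lit 3) (nat_lit 0x15011) (nat_lit 0x100020001000000000000000100000001))) (.non (nat_lit 1) (nat_lit 3) (nat_lit 0x15411) (nat_lit 0x100020002000100000000000100000001))) (.non (nat_lit 1) (nat_lit 3) (nat_lit 0x15511) (nat_lit 0x100020002000200010000000100000001))) (.non (nat_lit 1) (nat_lit 5) (nat_lit 0x10140) (nat_lit 0x100000000000000010001000000000000))) (.star (nat_lit 8) (nat_lit 2) (nat_lit 3))) (.star (nat_lit 8) (nat_lit 1) (nat_lit 3))) (.non (nat_lit 1) (nat_lit 5) (nat_lit 0x14141) (nat_lit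 0x300010000000000030004000000000002))))

noncomputable def t342_12 : Tr := (.ex (nat_lit 3) (.split (nat_lit 7) (nat_lit 0) (.split (nat_lit 7) (nat_lit 2) (.split (nat_lit 7) (nat_lit 6) (.pd (.cons (nat_lit 1) (nat_lit 4) (nat_lit 0) (nat_lit 0x7603700) (nat_lit 0x65b97b71aef423f00000f423ff423f0000061a79) (.cons (nat_lit 2) (nat_lit 4) (nat_lit 0) (nat_lit 0x7603000) (nat_lit 0xa2c28b71aef423f00000f423f00000f423f1e844) .nil)) (.ex (nat_lit 4) (.pd (.cons (nat_lit 0) (nat_lit 7) (nat_lit 0x110) (nat_lit 0x5433120) (nat_lit 0xf423fb71aea2c2804737000010000100000) (.cons (nat_lit 1) (nat_lit 6) (nat_lit 0) (nat_lit 0x433700) (nat_lit 0xb71ae00000f423fb71ae1f156f423f00000a2c28) (.cons (nat_lit 1) (nat_lit 7) (nat_lit 0) (nat_lit 0x5433200) (nat_lit 0xf423fb71aea2c2804737f423f00000f423f) (.cons (nat_lit 2) (nat_lit 6) (nat_lit 0) (nat_lit 0x433000) (nat_lit 0xf423f00000f423fb71ae1f15600000f423f3d08d) (.cons (nat_lit 2) (nat_lit 7) (nat_lit 0) (nat_lit 0x5433000) (nat_lit 0xf423fb71aea2c280473700000f423f7a11e) .nil)))))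 (.leaf (.cons (nat_lit 0xc034) (nat_lit 0x10000000000000000000200030000) .nil) .nil)) (.split (nat_lit 8) (nat_lit 0) (.split (nat_lit 8) (nat_lit 1) (.split (nat_lit 8) (nat_lit 2) (.split (nat_lit 8) (nat_lit 3) (.split (nat_lit 8) (nat_lit 5) (.split (nat_lit 8) (nat_lit 6) (.split (nat_lit 8) (nat_lit 7) (.unj (nat_lit 0x15) (nat_lit 0x100010001) (nat_lit 0x10540) (nat_lit 0x100000000000100020002000000000000)) (.non (nat_lit 1) (nat_lit 3) (nat_lit 0x15500) (nat_lit 0x100010001000100010000000000000000))) (.non (nat_lit 1) (nat_lit 3) (nat_lit 0x11500) (nat_lit 0x100000001000100010000000000000000))) (.non (nat_lit 1) (nat_lit 3) (nat_lit 0x10500) (nat_lit 0x100000000000100010000000000000000))) (.non (nat_lit 1) (nat_lit 5) (nat_lit 0x10140) (nat_lit 0x100000000000000010001000000000000))) (.non (nat_lit 1) (nat_lit 3) (nat_lit 0x15510) (nat_lit 0x100010001000100010000000100000000))) (.non (nat_lit 2) (nat_lit 3) (nat_lit 0x25009) (nat_lit 0x100020001000000000000000000020003))) (.non (nat_lit 1) (nat_lit 3) (nat_lit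 0x15501) (nat_lit 0x100010001000100010000000000000001))))) (.non (nat_lit 1) (nat_lit 3) (nat_lit 0x6a10) (nat_lit 0x40003000200010000000200000000))) (.non (nat_lit 1) (nat_lit 3) (nat_lit 0x5021) (nat_lit 0x20001000000000000000100000001))) (.non (nat_lit 1) (nat_lit 3) (nat_lit 0xa021) (nat_lit 0x20001000000000000000100000002))) (.split (nat_lit 8) (nat_lit 0) (.split (nat_lit 8) (nat_lit 1) (.split (nat_lit 8) (nat_lit 2) (.split (nat_lit 8) (nat_lit 4) (.split (nat_lit 8) (nat_lit 5) (.split (nat_lit 8) (nat_lit 6) (.split (nat_lit 8) (nat_lit 7) (.unj (nat_lit 0x15) (nat_lit 0x100010001) (nat_lit 0x10540) (nat_lit 0x100000000000100020002000000000000)) (.non (nat_lit 1) (nat_lit 3) (nat_lit 0x15011) (nat_lit 0x100020001000000000000000100000001))) (.non (nat_lit 1) (nat_lit 3) (nat_lit 0x15411) (nat_lit 0x100020002000100000000000100000001))) (.non (nat_lit 1) (nat_lit 3) (nat_lit 0x15511) (nat_lit 0x100020002000200010000000100000001))) (.non (nat_lit 1) (nat_lit 5) (nat_lit 0x10140) (nat_lit 0x100000000000000010001000000000000)))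 (.star (nat_lit 8) (nat_lit 2) (nat_lit 3))) (.star (nat_lit 8) (nat_lit 1) (nat_lit 3))) (.non (nat_lit 1) (nat_lit 5) (nat_lit 0x14141) (nat_lit 0x300010000000000030004000000000002))))

noncomputable def t342_13 : Tr := (.split (nat_lit 7) (nat_lit 1) (.split (nat_lit 7) (nat_lit 2) (.split (nat_lit 7) (nat_lit 0) (.sup (nat_lit 0x8000a0005) (nat_lit 0x100040007000a0008000000000000)) (.non (nat_lit 2) (nat_lit 3) (nat_lit 0x8009) (nat_lit 0x10000000000000000000000010002))) (.st (nat_lit 1) (nat_lit 2) (nat_lit 3) (nat_lit 0x5009) (nat_lit 0x20001000000000000000000020003) (nat_lit 2) (nat_lit 1) (.st (nat_lit 5) (nat_lit 1) (nat_lit 3) (nat_lit 0x5511) (nat_lit 0x20002000200010000000100000001) (nat_lit 1) (nat_lit 1) (.st (nat_lit 6) (nat_lit 1) (nat_lit 3) (nat_lit 0x5411) (nat_lit 0x20002000100000000000100000001) (nat_lit 1) (nat_lit 1) (.st (nat_lit 7) (nat_lit 1) (nat_lit 3) (nat_lit 0x5011) (nat_lit 0x20001000000000000000100000001) (nat_lit 1) (nat_lit 1) (.ex (nat_lit 2) (.split (nat_lit 2) (nat_lit 1)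 (.split (nat_lit 7) (nat_lit 2) (.split (nat_lit 7) (nat_lit 6) (.pd (.cons (nat_lit 0) (nat_lit 5) (nat_lit 0) (nat_lit 0x27033110) (nat_lit 0xb71aef423f00000f423f54591a2c280473700000) .nil) t342_11) (.non (nat_lit 1) (nat_lit 3) (nat_lit 0x6a10) (nat_lit 0x40003000200010000000200000000))) (.non (nat_lit 1) (nat_lit 3) (nat_lit 0x5021) (nat_lit 0x20001000000000000000100000001))) t342_12) (.split (nat_lit 8) (nat_lit 0) (.split (nat_lit 8) (nat_lit 1) (.split (nat_lit 8) (nat_lit 3) (.split (nat_lit 8) (nat_lit 4) (.split (nat_lit 8) (nat_lit 5) (.split (nat_lit 8) (nat_lit 6) (.split (nat_lit 8) (nat_lit 7) (.split (nat_lit 8) (nat_lit 2) (.split (nat_lit 7) (nat_lit 0) (.split (nat_lit 7) (nat_lit 2) (.sup (nat_lit 0x50019002c00400034000000000000) (nat_lit 0x5000000000000000000000009000b0006)) (.non (nat_lit 1) (nat_lit 3) (nat_lit 0x1a810) (nat_lit 0x200030002000100000000000400000000))) (.non (nat_lit 1) (nat_lit 3) (nat_lit 0xa021) (nat_lit 0x20001000000000000000100000002))) (.non (nat_lit 1) (nat_lit 3) (nat_lit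 0x25011) (nat_lit 0x100020001000000000000000200000001))) (.non (nat_lit 1) (nat_lit 3) (nat_lit 0x14010) (nat_lit 0x100010000000000000000000100000000))) (.non (nat_lit 1) (nat_lit 3) (nat_lit 0x15010) (nat_lit 0x100010001000000000000000100000000))) (.star (nat_lit 8) (nat_lit 2) (nat_lit 5))) (.non (nat_lit 1) (nat_lit 3) (nat_lit 0x15510) (nat_lit 0x100010001000100010000000100000000))) (.star (nat_lit 8) (nat_lit 2) (nat_lit 3))) (.non (nat_lit 2) (nat_lit 3) (nat_lit 0x25009) (nat_lit 0x100020001000000000000000000020003))) (.non (nat_lit 1) (nat_lit 3) (nat_lit 0x14011) (nat_lit 0x100010000000000000000000100000001))))))))) (.non (nat_lit 2) (nat_lit 3) (nat_lit 0x4005) (nat_lit 0x10000000000000000000000010001)))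

noncomputable def t342 : Tr := (.split (nat_lit 6) (nat_lit 0) (.split (nat_lit 4) (nat_lit 0) (.split (nat_lit 7) (nat_lit 0) (.split (nat_lit 7) (nat_lit 1) (.split (nat_lit 7) (nat_lit 2) .uj (.split (nat_lit 7) (nat_lit 2) (.sup (nat_lit 0x6000a0007) (nat_lit 0x100040007000a0008000000000000)) (.st (nat_lit 2) (nat_lit 1) (nat_lit 3) (nat_lit 0xa810) (nat_lit 0x30002000100000000000400000000) (nat_lit 1) (nat_lit 2) (.st (nat_lit 5) (nat_lit 1) (nat_lit 3) (nat_lit 0xaa10) (nat_lit 0x20002000200010000000200000000) (nat_lit 2) (nat_lit 1) (.st (nat_lit 6) (nat_lit 1) (nat_lit 3) (nat_lit 0xa810) (nat_lit 0x20002000100000000000200000000) (nat_lit 2) (nat_lit 1) (.st (nat_lit 7) (nat_lit 1) (nat_lit 3) (nat_lit 0xa010) (nat_lit 0x20001000000000000000200000000) (nat_lit 2) (nat_lit 1) (.ex (nat_lit 1) t342_1 (.split (nat_lit 8) (nat_lit 0) (.split (nat_lit 8) (nat_lit 2) (.split (nat_lit 8) (nat_lit 3) (.split (nat_lit 8) (nat_lit 4) (.split (nat_lit 8) (nat_lit 5) (.split (nat_lit 8) (nat_lit 6) (.split (nat_lit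 8) (nat_lit 7) (.sup (nat_lit 0x30007000b0010000d000000000000) (nat_lit 0x200000000000000000000000100040003)) (.non (nat_lit 1) (nat_lit 3) (nat_lit 0x2a010) (nat_lit 0x100020001000000000000000200000000))) (.non (nat_lit 1) (nat_lit 3) (nat_lit 0x2a810) (nat_lit 0x100020002000100000000000200000000))) (.star (nat_lit 8) (nat_lit 1) (nat_lit 5))) (.non (nat_lit 2) (nat_lit 5) (nat_lit 0x10145) (nat_lit 0x100000000000000010001000000010001))) (.star (nat_lit 8) (nat_lit 1) (nat_lit 3))) (.non (nat_lit 1) (nat_lit 3) (nat_lit 0x1a810) (nat_lit 0x200030002000100000000000400000000))) (.non (nat_lit 2) (nat_lit 3) (nat_lit 0x10005) (nat_lit 0x100000000000000000000000000010001)))))))))) (.split (nat_lit 7) (nat_lit 2) (.st (nat_lit 1) (nat_lit 2) (nat_lit 3) (nat_lit 0x8009) (nat_lit 0x10000000000000000000000020002) (nat_lit 2) (nat_lit 1) t342_3) (.st (nat_lit 1) (nat_lit 2) (nat_lit 3) (nat_lit 0x8009) (nat_lit 0x10000000000000000000000020002) (nat_lit 2) (nat_lit 1) (.st (nat_lit 5) (nat_lit 2) (nat_lit 3) (nat_lit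 0xaa09) (nat_lit 0x20002000200010000000000020002) (nat_lit 2) (nat_lit 1) (.st (nat_lit 6) (nat_lit 2) (nat_lit 3) (nat_lit 0xa809) (nat_lit 0x20002000100000000000000020002) (nat_lit 2) (nat_lit 1) (.st (nat_lit 7) (nat_lit 2) (nat_lit 3) (nat_lit 0xa009) (nat_lit 0x20001000000000000000000020002) (nat_lit 2) (nat_lit 1) t342_10)))))) t342_13) (.non (nat_lit 2) (nat_lit 5) (nat_lit 0x145) (nat_lit 0x10001000000010001))) (.non (nat_lit 2) (nat_lit 3) (nat_lit 0x5409) (nat_lit 0x10002000100000000000000010002)))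

noncomputable def t345_1 : Tr := (.split (nat_lit 7) (nat_lit 2) (.split (nat_lit 7) (nat_lit 6) (.pd (.cons (nat_lit 0) (nat_lit 7) (nat_lit 0x110) (nat_lit 0x5433120) (nat_lit 0xf423fb71aea2c2804737000010000100000) (.cons (nat_lit 1) (nat_lit 3) (nat_lit 0) (nat_lit 0x27650200) (nat_lit 0x98965a2c28b71aef423f0000030d3b00000f423f) (.cons (nat_lit 1) (nat_lit 6) (nat_lit 0) (nat_lit 0x20433200) (nat_lit 0xf423f00000f423fb71ae1f1567a11e00000f423f) (.cons (nat_lit 1) (nat_lit 7) (nat_lit 0) (nat_lit 0x5433200) (nat_lit 0xf423fb71aea2c2804737f423f00000f423f) (.cons (nat_lit 2) (nat_lit 3) (nat_lit 0) (nat_lit 0x65440000) (nat_lit 0xf423fb71aea2c28989650000000000f423f7a11e) (.cons (nat_lit 2) (nat_lit 6) (nat_lit 0) (nat_lit 0x70433000) (nat_lit 0xf423f00000f423fb71ae1f15600000f423f7a11e) (.cons (nat_lit 2) (nat_lit 7) (nat_lit 0) (nat_lit 0x5433000) (nat_lit 0xf423fb71aea2c280473700000f423f7a11e) .nil))))))) (.leaf (.cons (nat_lit 0x4014) (nat_lit 0x10000000000000000000100010000) .nil) (.cons (nat_lit 0x11000100)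 (nat_lit 0x100010) (nat_lit 6) (nat_lit 0x12000000) .nil))) (.non (nat_lit 1) (nat_lit 4) (nat_lit 0x9010) (nat_lit 0x10001000000000000000100000000))) (.split (nat_lit 7) (nat_lit 6) (.pd (.cons (nat_lit 0) (nat_lit 7) (nat_lit 0x110) (nat_lit 0x5433120) (nat_lit 0xf423fb71aea2c2804737000010000100000) (.cons (nat_lit 1) (nat_lit 6) (nat_lit 0x10000100) (nat_lit 0x20433700) (nat_lit 0x100000f423fb71ae1f1560000100000f423f) (.cons (nat_lit 1) (nat_lit 7) (nat_lit 0) (nat_lit 0x5433200) (nat_lit 0xf423fb71aea2c2804737f423f00000f423f) (.cons (nat_lit 2) (nat_lit 3) (nat_lit 0) (nat_lit 0x65440000) (nat_lit 0xf423fb71aea2c28989650000000000f423f7a11e) (.cons (nat_lit 2) (nat_lit 6) (nat_lit 0) (nat_lit 0x70433000) (nat_lit 0xf423f00000f423fb71ae1f15600000f423f7a11e) (.cons (nat_lit 2) (nat_lit 7) (nat_lit 0) (nat_lit 0x5433000) (nat_lit 0xf423fb71aea2c280473700000f423f7a11e) .nil)))))) (.split (nat_lit 2) (nat_lit 1) (.split (nat_lit 7) (nat_lit 2) (.leaf (.cons (nat_lit 0x5510) (nat_lit 0x40003000200010000000300000000)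 (.cons (nat_lit 0x4014) (nat_lit 0x10000000000000000000100010000) .nil)) (.cons (nat_lit 0x11100100) (nat_lit 0x10010) (nat_lit 0x10) (nat_lit 0x12300000) .nil)) (.non (nat_lit 1) (nat_lit 4) (nat_lit 0xf010) (nat_lit 0x20001000000000000000300000000))) (.split (nat_lit 7) (nat_lit 2) (.sup (nat_lit 0x6000a0007) (nat_lit 0x100040007000a0008000000000000)) (.non (nat_lit 1) (nat_lit 4) (nat_lit 0xf010) (nat_lit 0x20001000000000000000300000000))))) (.non (nat_lit 1) (nat_lit 4) (nat_lit 0x5010) (nat_lit 0x10001000000000000000100000000))))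

noncomputable def t345_2 : Tr := (.ex (nat_lit 3) (.ex (nat_lit 4) (.ex (nat_lit 5) t345_1 (.split (nat_lit 8) (nat_lit 1) (.split (nat_lit 8) (nat_lit 2) (.split (nat_lit 8) (nat_lit 6) (.split (nat_lit 8) (nat_lit 7) (.split (nat_lit 8) (nat_lit 0) (.split (nat_lit 8) (nat_lit 3) (.split (nat_lit 8) (nat_lit 4) (.unj (nat_lit 0x15) (nat_lit 0x100010001) (nat_lit 0x11540) (nat_lit 0x100000001000200020002000000000000)) (.unj (nat_lit 0x15) (nat_lit 0x100010001) (nat_lit 0x10500) (nat_lit 0x100000000000100010000000000000000))) (.split (nat_lit 8) (nat_lit 4) (.unj (nat_lit 0x15) (nat_lit 0x100010001) (nat_lit 0x10540) (nat_lit 0x100000000000100010001000000000000)) (.non (nat_lit 1) (nat_lit 5) (nat_lit 0x10140) (nat_lit 0x100000000000000010001000000000000)))) (.split (nat_lit 8) (nat_lit 3) (.split (nat_lit 8) (nat_lit 4) (.sup (nat_lit 0x8000a0005) (nat_lit 0x1000000030007000a0008000000000000)) (.non (nat_lit 2) (nat_lit 5) (nat_lit 0x10145) (nat_lit 0x100000000000000010001000000010001))) (.non (nat_lit 1) (nat_lit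 4) (nat_lit 0x15461) (nat_lit 0x200020002000200000001000100000001)))) (.non (nat_lit 1) (nat_lit 4) (nat_lit 0x15400) (nat_lit 0x100010001000100000000000000000000))) (.non (nat_lit 1) (nat_lit 4) (nat_lit 0x11400) (nat_lit 0x100000001000100000000000000000000))) (.star (nat_lit 8) (nat_lit 2) (nat_lit 5))) (.star (nat_lit 8) (nat_lit 1) (nat_lit 5)))) (.split (nat_lit 8) (nat_lit 0) (.split (nat_lit 8) (nat_lit 1) (.split (nat_lit 8) (nat_lit 2) (.split (nat_lit 8) (nat_lit 3) (.split (nat_lit 8) (nat_lit 6) (.split (nat_lit 8) (nat_lit 7) (.split (nat_lit 8) (nat_lit 5) (.unj (nat_lit 0x15) (nat_lit 0x100010001) (nat_lit 0x10540) (nat_lit 0x100000000000100020002000000000000)) (.unj (nat_lit 0x15) (nat_lit 0x100010001) (nat_lit 0x10500) (nat_lit 0x100000000000100010000000000000000))) (.non (nat_lit 1) (nat_lit 4) (nat_lit 0x2a010) (nat_lit 0x100020001000000000000000200000000))) (.non (nat_lit 1) (nat_lit 4) (nat_lit 0x2a810) (nat_lit 0x100020002000100000000000200000000))) (.non (nat_lit 1) (nat_lit 5) (nat_lit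 0x10140) (nat_lit 0x100000000000000010001000000000000))) (.star (nat_lit 8) (nat_lit 2) (nat_lit 4))) (.star (nat_lit 8) (nat_lit 1) (nat_lit 4))) (.non (nat_lit 2) (nat_lit 5) (nat_lit 0x10145) (nat_lit 0x100000000000000010001000000010001)))) (.split (nat_lit 8) (nat_lit 0) (.split (nat_lit 8) (nat_lit 1) (.split (nat_lit 8) (nat_lit 2) (.split (nat_lit 8) (nat_lit 4) (.split (nat_lit 8) (nat_lit 6) (.split (nat_lit 8) (nat_lit 7) (.split (nat_lit 8) (nat_lit 5) (.unj (nat_lit 0x15) (nat_lit 0x100010001) (nat_lit 0x10540) (nat_lit 0x100000000000100020002000000000000)) (.unj (nat_lit 0x15) (nat_lit 0x100010001) (nat_lit 0x10540) (nat_lit 0x100000000000100010001000000000000))) (.non (nat_lit 1) (nat_lit 4) (nat_lit 0x2a010) (nat_lit 0x100020001000000000000000200000000))) (.non (nat_lit 1) (nat_lit 4) (nat_lit 0x2a810) (nat_lit 0x100020002000100000000000200000000))) (.non (nat_lit 1) (nat_lit 5) (nat_lit 0x10140) (nat_lit 0x100000000000000010001000000000000))) (.non (nat_lit 1) (nat_lit 4) (nat_lit 0x1a810) (nat_lit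 0x200030002000100000000000400000000))) (.non (nat_lit 2) (nat_lit 5) (nat_lit 0x10145) (nat_lit 0x100000000000000010001000000010001))) (.non (nat_lit 2) (nat_lit 5) (nat_lit 0x10145) (nat_lit 0x100000000000000010001000000010001))))

noncomputable def t345_3 : Tr := (.ex (nat_lit 4) (.ex (nat_lit 5) (.pd (.cons (nat_lit 0) (nat_lit 6) (nat_lit 0) (nat_lit 0x10433110) (nat_lit 0xf423f00000f423fb71ae1f156f423f1750000000) (.cons (nat_lit 0) (nat_lit 7) (nat_lit 0) (nat_lit 0x5433110) (nat_lit 0xf423fb71aea2c2804737f423f5459100000) (.cons (nat_lit 1) (nat_lit 3) (nat_lit 0) (nat_lit 0x65440200) (nat_lit 0xf423fb71aea2c289896500000f423f00000f423f) (.cons (nat_lit 1) (nat_lit 6) (nat_lit 0) (nat_lit 0x70433200) (nat_lit 0xf423f00000f423fb71ae1f156f423f00000f423f) (.cons (nat_lit 1) (nat_lit 7) (nat_lit 0) (nat_lit 0x5433200) (nat_lit 0xf423fb71aea2c2804737f423f00000f423f) (.cons (nat_lit 2) (nat_lit 3) (nat_lit 0) (nat_lit 0x17650000) (nat_lit 0x98965a2c28b71aef423f0000000000927bd28b05) (.cons (nat_lit 2) (nat_lit 6)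 (nat_lit 0) (nat_lit 0x10433000) (nat_lit 0xf423f00000f423fb71ae1f15600000b71ae51612) (.cons (nat_lit 2) (nat_lit 7) (nat_lit 0) (nat_lit 0x5433000) (nat_lit 0xf423fb71aea2c280473700000f423f7a11e) .nil)))))))) (.leaf (.cons (nat_lit 0x5414) (nat_lit 0x30002000100000000000300040000) .nil) (.cons (nat_lit 0x11000110) (nat_lit 0x100001) (nat_lit 0x10) (nat_lit 0x23000010) .nil))) (.split (nat_lit 8) (nat_lit 0) (.split (nat_lit 8) (nat_lit 1) (.split (nat_lit 8) (nat_lit 2) (.split (nat_lit 8) (nat_lit 6) (.split (nat_lit 8) (nat_lit 7) (.split (nat_lit 8) (nat_lit 3) (.split (nat_lit 8) (nat_lit 4) (.unj (nat_lit 0x15) (nat_lit 0x100010001) (nat_lit 0x11540) (nat_lit 0x100000001000200020002000000000000)) (.unj (nat_lit 0x15) (nat_lit 0x100010001) (nat_lit 0x10500) (nat_lit 0x100000000000100010000000000000000))) (.split (nat_lit 8) (nat_lit 4) (.unj (nat_lit 0x15) (nat_lit 0x100010001) (nat_lit 0x10540) (nat_lit 0x100000000000100010001000000000000)) (.non (nat_lit 1) (nat_lit 5) (nat_lit 0x10140) (nat_lit 0x100000000000000010001000000000000))))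 (.non (nat_lit 1) (nat_lit 4) (nat_lit 0x15400) (nat_lit 0x100010001000100000000000000000000))) (.non (nat_lit 1) (nat_lit 4) (nat_lit 0x11400) (nat_lit 0x100000001000100000000000000000000))) (.star (nat_lit 8) (nat_lit 2) (nat_lit 5))) (.star (nat_lit 8) (nat_lit 1) (nat_lit 5))) (.non (nat_lit 2) (nat_lit 4) (nat_lit 0x1a009) (nat_lit 0x200020001000000000000000000030004)))) (.split (nat_lit 8) (nat_lit 0) (.split (nat_lit 8) (nat_lit 1) (.split (nat_lit 8) (nat_lit 2) (.split (nat_lit 8) (nat_lit 3) (.split (nat_lit 8) (nat_lit 6) (.split (nat_lit 8) (nat_lit 7) (.split (nat_lit 8) (nat_lit 5) (.unj (nat_lit 0x15) (nat_lit 0x100010001) (nat_lit 0x10540) (nat_lit 0x100000000000100020002000000000000)) (.unj (nat_lit 0x15) (nat_lit 0x100010001) (nat_lit 0x10500) (nat_lit 0x100000000000100010000000000000000))) (.non (nat_lit 1) (nat_lit 5) (nat_lit 0x15140) (nat_lit 0x300020001000000040003000000000000))) (.non (nat_lit 1) (nat_lit 5) (nat_lit 0x15140) (nat_lit 0x300010002000000040003000000000000))) (.non (nat_lit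 1) (nat_lit 5) (nat_lit 0x10140) (nat_lit 0x100000000000000010001000000000000))) (.star (nat_lit 8) (nat_lit 2) (nat_lit 4))) (.star (nat_lit 8) (nat_lit 1) (nat_lit 4))) (.non (nat_lit 2) (nat_lit 4) (nat_lit 0x1a009) (nat_lit 0x200020001000000000000000000030004))))

noncomputable def t345_4 : Tr := (.ex (nat_lit 2) (.split (nat_lit 2) (nat_lit 1) (.split (nat_lit 7) (nat_lit 1) (.split (nat_lit 7) (nat_lit 6) (.pd (.cons (nat_lit 0) (nat_lit 5) (nat_lit 0) (nat_lit 0x17033110) (nat_lit 0xb71aef423f00000f423f54591f423f02f7a00000) .nil) (.ex (nat_lit 3) t345_3 (.split (nat_lit 8) (nat_lit 0) (.split (nat_lit 8) (nat_lit 1) (.split (nat_lit 8) (nat_lit 2) (.split (nat_lit 8) (nat_lit 4) (.split (nat_lit 8) (nat_lit 6) (.split (nat_lit 8) (nat_lit 7) (.split (nat_lit 8) (nat_lit 5) (.unj (nat_lit 0x15) (nat_lit 0x100010001) (nat_lit 0x10540) (nat_lit 0x100000000000100020002000000000000)) (.unj (nat_lit 0x15) (nat_lit 0x100010001) (nat_lit 0x10540) (nat_lit 0x100000000000100010001000000000000))) (.non (nat_lit 1)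 (nat_lit 5) (nat_lit 0x15140) (nat_lit 0x300020001000000030004000000000000))) (.non (nat_lit 1) (nat_lit 5) (nat_lit 0x15140) (nat_lit 0x300010002000000030004000000000000))) (.non (nat_lit 1) (nat_lit 5) (nat_lit 0x10140) (nat_lit 0x100000000000000010001000000000000))) (.non (nat_lit 0) (nat_lit 5) (nat_lit 0x14014) (nat_lit 0x100010000000000000000000200020000))) (.non (nat_lit 2) (nat_lit 4) (nat_lit 0x28009) (nat_lit 0x100010000000000000000000000020002))) (.non (nat_lit 2) (nat_lit 4) (nat_lit 0x1a009) (nat_lit 0x200020001000000000000000000030004))))) (.non (nat_lit 2) (nat_lit 4) (nat_lit 0x9009) (nat_lit 0x10001000000000000000000010001))) (.non (nat_lit 2) (nat_lit 4) (nat_lit 0x4009) (nat_lit 0x10000000000000000000000010001))) (.split (nat_lit 7) (nat_lit 1) (.sup (nat_lit 0x9000a0007) (nat_lit 0x100040007000a0008000000000000)) (.non (nat_lit 2) (nat_lit 4) (nat_lit 0x4009) (nat_lit 0x10000000000000000000000010001)))) (.split (nat_lit 8) (nat_lit 0) (.split (nat_lit 8) (nat_lit 1) (.split (nat_lit 8) (nat_lit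 4) (.split (nat_lit 8) (nat_lit 5) (.split (nat_lit 8) (nat_lit 6) (.split (nat_lit 8) (nat_lit 7) (.split (nat_lit 8) (nat_lit 3) (.split (nat_lit 8) (nat_lit 2) (.split (nat_lit 7) (nat_lit 1) (.sup (nat_lit 0x20007000b0010000d000000000000) (nat_lit 0x100000000000000000000000300030002)) (.non (nat_lit 2) (nat_lit 4) (nat_lit 0x4009) (nat_lit 0x10000000000000000000000010001))) (.split (nat_lit 8) (nat_lit 2) (.split (nat_lit 7) (nat_lit 1) (.sup (nat_lit 0x700000000000000000000000a00060000) (nat_lit 0x100040007000a0008000000000000)) (.non (nat_lit 2) (nat_lit 4) (nat_lit 0x4009) (nat_lit 0x10000000000000000000000010001))) (.sup (nat_lit 0x800000000000000000000000a00040000) (nat_lit 0x100040007000a0008000000000000)))) (.split (nat_lit 8) (nat_lit 2) (.sup (nat_lit 0x6000a0007) (nat_lit 0x2000000000005000a0009000000000000)) (.non (nat_lit 1) (nat_lit 5) (nat_lit 0x10150) (nat_lit 0x100000000000000010001000100000000)))) (.non (nat_lit 2) (nat_lit 4) (nat_lit 0x2a009) (nat_lit 0x100020001000000000000000000020002)))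 (.non (nat_lit 2) (nat_lit 4) (nat_lit 0x2a809) (nat_lit 0x100020002000100000000000000020002))) (.star (nat_lit 8) (nat_lit 2) (nat_lit 5))) (.star (nat_lit 8) (nat_lit 2) (nat_lit 4))) (.non (nat_lit 2) (nat_lit 4) (nat_lit 0x28009) (nat_lit 0x100010000000000000000000000020002))) (.non (nat_lit 2) (nat_lit 4) (nat_lit 0x1a009) (nat_lit 0x200020001000000000000000000030004))))

noncomputable def t345_5 : Tr := (.split (nat_lit 7) (nat_lit 2) (.split (nat_lit 7) (nat_lit 6) (.split (nat_lit 7) (nat_lit 1) (.pd (.cons (nat_lit 0) (nat_lit 7) (nat_lit 0x110) (nat_lit 0x5433120) (nat_lit 0xf423fb71aea2c2804737000010000100000) (.cons (nat_lit 1) (nat_lit 3) (nat_lit 0) (nat_lit 0x27650200) (nat_lit 0x98965a2c28b71aef423f00000927bd00000f423f) (.cons (nat_lit 1) (nat_lit 6) (nat_lit 0) (nat_lit 0x20433200) (nat_lit 0xf423f00000f423fb71ae1f156b71ae00000f423f) (.cons (nat_lit 1) (nat_lit 7) (nat_lit 0) (nat_lit 0x5433200) (nat_lit 0xf423fb71aea2c2804737f423f00000f423f) (.cons (nat_lit 2) (nat_lit 3) (nat_lit 0) (nat_lit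 0x17650000) (nat_lit 0x98965a2c28b71aef423f0000000000927bd28b05) (.cons (nat_lit 2) (nat_lit 6) (nat_lit 0) (nat_lit 0x10433000) (nat_lit 0xf423f00000f423fb71ae1f15600000b71ae51612) (.cons (nat_lit 2) (nat_lit 7) (nat_lit 0) (nat_lit 0x5433000) (nat_lit 0xf423fb71aea2c280473700000f423f7a11e) .nil))))))) (.leaf (.cons (nat_lit 0x4014) (nat_lit 0x10000000000000000000100010000) .nil) .nil)) (.non (nat_lit 2) (nat_lit 4) (nat_lit 0x4009) (nat_lit 0x10000000000000000000000010001))) (.non (nat_lit 2) (nat_lit 4) (nat_lit 0x9009) (nat_lit 0x10001000000000000000000010001))) (.split (nat_lit 7) (nat_lit 2) (.split (nat_lit 7) (nat_lit 6) (.split (nat_lit 7) (nat_lit 1) (.pd (.cons (nat_lit 0) (nat_lit 7) (nat_lit 0x110) (nat_lit 0x5433120) (nat_lit 0xf423fb71aea2c2804737000010000100000) (.cons (nat_lit 1) (nat_lit 3) (nat_lit 0) (nat_lit 0x27650200) (nat_lit 0x98965a2c28b71aef423f0000030d3b00000f423f) (.cons (nat_lit 1) (nat_lit 6) (nat_lit 0) (nat_lit 0x20433200) (nat_lit 0xf423f00000f423fb71ae1f1567a11e00000f423f) (.cons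 (nat_lit 1) (nat_lit 7) (nat_lit 0) (nat_lit 0x5433200) (nat_lit 0xf423fb71aea2c2804737f423f00000f423f) (.cons (nat_lit 2) (nat_lit 3) (nat_lit 0) (nat_lit 0x17650000) (nat_lit 0x98965a2c28b71aef423f0000000000927bd28b05) (.cons (nat_lit 2) (nat_lit 6) (nat_lit 0) (nat_lit 0x10433000) (nat_lit 0xf423f00000f423fb71ae1f15600000b71ae51612) (.cons (nat_lit 2) (nat_lit 7) (nat_lit 0) (nat_lit 0x5433000) (nat_lit 0xf423fb71aea2c280473700000f423f7a11e) .nil))))))) (.leaf (.cons (nat_lit 0x4014) (nat_lit 0x10000000000000000000100010000) .nil) .nil)) (.non (nat_lit 2) (nat_lit 4) (nat_lit 0x4009) (nat_lit 0x10000000000000000000000010001))) (.non (nat_lit 1) (nat_lit 4) (nat_lit 0x9010) (nat_lit 0x10001000000000000000100000000))) (.split (nat_lit 7) (nat_lit 1) (.split (nat_lit 7) (nat_lit 6) (.pd (.cons (nat_lit 0) (nat_lit 7) (nat_lit 0x110) (nat_lit 0x5433120) (nat_lit 0xf423fb71aea2c2804737000010000100000) (.cons (nat_lit 1) (nat_lit 6) (nat_lit 0x10000100) (nat_lit 0x20433700) (nat_lit 0x100000f423fb71ae1f1560000100000f423f)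 (.cons (nat_lit 1) (nat_lit 7) (nat_lit 0) (nat_lit 0x5433200) (nat_lit 0xf423fb71aea2c2804737f423f00000f423f) (.cons (nat_lit 2) (nat_lit 3) (nat_lit 0) (nat_lit 0x17650000) (nat_lit 0x98965a2c28b71aef423f0000000000927bd28b05) (.cons (nat_lit 2) (nat_lit 6) (nat_lit 0) (nat_lit 0x10433000) (nat_lit 0xf423f00000f423fb71ae1f15600000b71ae51612) (.cons (nat_lit 2) (nat_lit 7) (nat_lit 0) (nat_lit 0x5433000) (nat_lit 0xf423fb71aea2c280473700000f423f7a11e) .nil)))))) (.leaf (.cons (nat_lit 0x5510) (nat_lit 0x40003000200010000000300000000) (.cons (nat_lit 0x4014) (nat_lit 0x10000000000000000000100010000) .nil)) .nil)) (.non (nat_lit 1) (nat_lit 4) (nat_lit 0x5010) (nat_lit 0x10001000000000000000100000000))) (.non (nat_lit 2) (nat_lit 4) (nat_lit 0x4009) (nat_lit 0x10000000000000000000000010001)))))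

noncomputable def t345_6 : Tr := (.ex (nat_lit 3) (.ex (nat_lit 4) (.ex (nat_lit 5) t345_5 (.split (nat_lit 8) (nat_lit 0) (.split (nat_lit 8) (nat_lit 1) (.split (nat_lit 8) (nat_lit 2) (.split (nat_lit 8) (nat_lit 6) (.split (nat_lit 8) (nat_lit 7) (.split (nat_lit 8) (nat_lit 3) (.split (nat_lit 8) (nat_lit 4) (.unj (nat_lit 0x15) (nat_lit 0x100010001) (nat_lit 0x11540) (nat_lit 0x100000001000200020002000000000000)) (.unj (nat_lit 0x15) (nat_lit 0x100010001) (nat_lit 0x10500) (nat_lit 0x100000000000100010000000000000000))) (.split (nat_lit 8) (nat_lit 4) (.unj (nat_lit 0x15) (nat_lit 0x100010001) (nat_lit 0x10540) (nat_lit 0x100000000000100010001000000000000)) (.non (nat_lit 1) (nat_lit 5) (nat_lit 0x10140) (nat_lit 0x100000000000000010001000000000000)))) (.non (nat_lit 1) (nat_lit 4) (nat_lit 0x15400) (nat_lit 0x100010001000100000000000000000000))) (.non (nat_lit 1) (nat_lit 4) (nat_lit 0x11400) (nat_lit 0x100000001000100000000000000000000))) (.star (nat_lit 8) (nat_lit 2) (nat_lit 5))) (.star (nat_lit 8)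 (nat_lit 1) (nat_lit 5))) (.non (nat_lit 2) (nat_lit 4) (nat_lit 0x1a009) (nat_lit 0x200020001000000000000000000030004)))) (.split (nat_lit 8) (nat_lit 0) (.split (nat_lit 8) (nat_lit 1) (.split (nat_lit 8) (nat_lit 2) (.split (nat_lit 8) (nat_lit 3) (.split (nat_lit 8) (nat_lit 6) (.split (nat_lit 8) (nat_lit 7) (.split (nat_lit 8) (nat_lit 5) (.unj (nat_lit 0x15) (nat_lit 0x100010001) (nat_lit 0x10540) (nat_lit 0x100000000000100020002000000000000)) (.unj (nat_lit 0x15) (nat_lit 0x100010001) (nat_lit 0x10500) (nat_lit 0x100000000000100010000000000000000))) (.non (nat_lit 1) (nat_lit 5) (nat_lit 0x15140) (nat_lit 0x300020001000000040003000000000000))) (.non (nat_lit 1) (nat_lit 5) (nat_lit 0x15140) (nat_lit 0x300010002000000040003000000000000))) (.non (nat_lit 1) (nat_lit 5) (nat_lit 0x10140) (nat_lit 0x100000000000000010001000000000000))) (.star (nat_lit 8) (nat_lit 2) (nat_lit 4))) (.star (nat_lit 8) (nat_lit 1) (nat_lit 4))) (.non (nat_lit 2) (nat_lit 4) (nat_lit 0x1a009) (nat_lit 0x200020001000000000000000000030004))))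 (.split (nat_lit 8) (nat_lit 0) (.split (nat_lit 8) (nat_lit 1) (.split (nat_lit 8) (nat_lit 2) (.split (nat_lit 8) (nat_lit 4) (.split (nat_lit 8) (nat_lit 6) (.split (nat_lit 8) (nat_lit 7) (.split (nat_lit 8) (nat_lit 5) (.unj (nat_lit 0x15) (nat_lit 0x100010001) (nat_lit 0x10540) (nat_lit 0x100000000000100020002000000000000)) (.unj (nat_lit 0x15) (nat_lit 0x100010001) (nat_lit 0x10540) (nat_lit 0x100000000000100010001000000000000))) (.non (nat_lit 1) (nat_lit 5) (nat_lit 0x15140) (nat_lit 0x300020001000000030004000000000000))) (.non (nat_lit 1) (nat_lit 5) (nat_lit 0x15140) (nat_lit 0x300010002000000030004000000000000))) (.non (nat_lit 1) (nat_lit 5) (nat_lit 0x10140) (nat_lit 0x100000000000000010001000000000000))) (.non (nat_lit 1) (nat_lit 5) (nat_lit 0x14150) (nat_lit 0x300010000000000030004000200000000))) (.non (nat_lit 2) (nat_lit 4) (nat_lit 0x28009) (nat_lit 0x100010000000000000000000000020002))) (.non (nat_lit 2) (nat_lit 4) (nat_lit 0x1a009) (nat_lit 0x200020001000000000000000000030004))))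

noncomputable def t345_7 : Tr := (.ex (nat_lit 8) (.ex (nat_lit 9) (.split (nat_lit 2) (nat_lit 1) (.split (nat_lit 9) (nat_lit 8) (.pd (.cons (nat_lit 0) (nat_lit 7) (nat_lit 0) (nat_lit 0x8205433110) (nat_lit 0xf423fb71ae00000f423fb71aea2c2804737a2c280473700000) .nil) (.leaf (.cons (nat_lit 0x4014) (nat_lit 0x10000000000000000000100010000) .nil) .nil)) (.leaf (.cons (nat_lit 0x50014) (nat_lit 0x1000100000000000000000000000100010000) .nil) .nil)) (.leaf (.cons (nat_lit 0x30034) (nat_lit 0x100000000000000000000000200030000) .nil) .nil)) (.split (nat_lit 0xa) (nat_lit 0) (.split (nat_lit 0xa) (nat_lit 1) (.split (nat_lit 0xa) (nat_lit 2) (.split (nat_lit 0xa) (nat_lit 3) (.split (nat_lit 0xa) (nat_lit 4) (.split (nat_lit 0xa) (nat_lit 5) (.split (nat_lit 0xa) (nat_lit 6) (.split (nat_lit 0xa) (nat_lit 7) (.split (nat_lit 0xa) (nat_lit 8) (.leaf (.cons (nat_lit 0x150014) (nat_lit 0x10002000300000000000000000000000400030000) .nil) .nil) (.non (nat_lit 1) (nat_lit 4) (nat_lit 0x150000) (nat_lit 0x10001000100000000000000000000000000000000)))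 (.non (nat_lit 1) (nat_lit 4) (nat_lit 0x154010) (nat_lit 0x10001000100010000000000000000000100000000))) (.non (nat_lit 1) (nat_lit 4) (nat_lit 0x155010) (nat_lit 0x10001000100010001000000000000000100000000))) (.non (nat_lit 1) (nat_lit 4) (nat_lit 0x155410) (nat_lit 0x10001000100010001000100000000000100000000))) (.non (nat_lit 1) (nat_lit 5) (nat_lit 0x150140) (nat_lit 0x30002000100000000000000040003000000000000))) (.non (nat_lit 1) (nat_lit 5) (nat_lit 0x150140) (nat_lit 0x30002000100000000000000030004000000000000))) (.non (nat_lit 1) (nat_lit 4) (nat_lit 0x150010) (nat_lit 0x10001000100000000000000000000000100000000))) (.non (nat_lit 2) (nat_lit 4) (nat_lit 0x208009) (nat_lit 0x10000000000010000000000000000000000020002))) (.non (nat_lit 2) (nat_lit 4) (nat_lit 0x148009) (nat_lit 0x20001000000010000000000000000000000020003)))) (.split (nat_lit 0xa) (nat_lit 0) (.split (nat_lit 0xa) (nat_lit 1) (.split (nat_lit 0xa) (nat_lit 2) (.split (nat_lit 0xa) (nat_lit 3) (.split (nat_lit 0xa) (nat_lit 4) (.split (nat_lit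 0xa) (nat_lit 5) (.split (nat_lit 0xa) (nat_lit 6) (.split (nat_lit 0xa) (nat_lit 7) (.split (nat_lit 0xa) (nat_lit 9) (.leaf (.cons (nat_lit 0x150014) (nat_lit 0x10001000200000000000000000000000200020000) .nil) .nil) (.non (nat_lit 1) (nat_lit 4) (nat_lit 0x150000) (nat_lit 0x10001000100000000000000000000000000000000))) (.non (nat_lit 1) (nat_lit 4) (nat_lit 0x114010) (nat_lit 0x10000000100010000000000000000000100000000))) (.non (nat_lit 1) (nat_lit 4) (nat_lit 0x115010) (nat_lit 0x10000000100010001000000000000000100000000))) (.non (nat_lit 1) (nat_lit 4) (nat_lit 0x115410) (nat_lit 0x10000000100010001000100000000000100000000))) (.non (nat_lit 1) (nat_lit 5) (nat_lit 0x150140) (nat_lit 0x30001000200000000000000040003000000000000))) (.non (nat_lit 1) (nat_lit 5) (nat_lit 0x150140) (nat_lit 0x30001000200000000000000030004000000000000))) (.non (nat_lit 1) (nat_lit 4) (nat_lit 0x110010) (nat_lit 0x10000000100000000000000000000000100000000))) (.non (nat_lit 2) (nat_lit 4) (nat_lit 0x208009) (nat_lit 0x10000000000010000000000000000000000020002)))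 (.non (nat_lit 2) (nat_lit 4) (nat_lit 0x118009) (nat_lit 0x20000000100010000000000000000000000020003))))

noncomputable def t345_8 : Tr := (.split (nat_lit 8) (nat_lit 2) (.split (nat_lit 7) (nat_lit 6) (.split (nat_lit 7) (nat_lit 1) (.pd (.cons (nat_lit 1) (nat_lit 3) (nat_lit 0) (nat_lit 0x227650200) (nat_lit 0xf423f98965a2c28b71aef423f000005572c00000f423f) (.cons (nat_lit 1) (nat_lit 6) (nat_lit 0) (nat_lit 0x220433200) (nat_lit 0xf423ff423f00000f423fb71ae1f1567a11d00000f423f) (.cons (nat_lit 1) (nat_lit 7) (nat_lit 0) (nat_lit 0x205433200) (nat_lit 0xf423f00000f423fb71aea2c2804737b71ae00000f423f) (.cons (nat_lit 2) (nat_lit 3) (nat_lit 0) (nat_lit 0x817650000) (nat_lit 0xf423f98965a2c28b71aef423f0000000000927bd28b05) (.cons (nat_lit 2) (nat_lit 6) (nat_lit 0) (nat_lit 0x810433000) (nat_lit 0xf423ff423f00000f423fb71ae1f15600000b71ae51612) (.cons (nat_lit 2) (nat_lit 7) (nat_lit 0) (nat_lit 0x805433000) (nat_lit 0xf423f00000f423fb71aea2c280473700000f423f7a11e) .nil)))))) (.ex (nat_lit 8) (.split (nat_lit 2)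 (nat_lit 1) (.pd (.cons (nat_lit 0) (nat_lit 7) (nat_lit 0) (nat_lit 0x205433110) (nat_lit 0xf423f00000f423fb71aea2c2804737b71ae1f15600000) .nil) (.leaf (.cons (nat_lit 0x4014) (nat_lit 0x10000000000000000000100010000) .nil) .nil)) (.leaf (.cons (nat_lit 0x30034) (nat_lit 0x100000000000000000000000200030000) .nil) .nil)) (.split (nat_lit 9) (nat_lit 0) (.split (nat_lit 9) (nat_lit 1) (.split (nat_lit 9) (nat_lit 2) (.split (nat_lit 9) (nat_lit 3) (.split (nat_lit 9) (nat_lit 4) (.split (nat_lit 9) (nat_lit 5) (.split (nat_lit 9) (nat_lit 6) (.split (nat_lit 9) (nat_lit 7) t345_7 (.non (nat_lit 1) (nat_lit 4) (nat_lit 0x54010) (nat_lit 0x1000100010000000000000000000100000000))) (.non (nat_lit 1) (nat_lit 4) (nat_lit 0x55010) (nat_lit 0x1000100010001000000000000000100000000))) (.non (nat_lit 1) (nat_lit 4) (nat_lit 0x55410) (nat_lit 0x1000100010001000100000000000100000000))) (.non (nat_lit 1) (nat_lit 5) (nat_lit 0x50150) (nat_lit 0x3000200000000000000040003000100000000))) (.non (nat_lit 1) (nat_lit 5) (nat_lit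 0x50150) (nat_lit 0x3000200000000000000030004000100000000))) (.non (nat_lit 1) (nat_lit 4) (nat_lit 0x50010) (nat_lit 0x1000100000000000000000000000100000000))) (.non (nat_lit 2) (nat_lit 4) (nat_lit 0x88009) (nat_lit 0x1000000010000000000000000000000020002))) (.non (nat_lit 2) (nat_lit 4) (nat_lit 0x58009) (nat_lit 0x2000100010000000000000000000000020003))))) (.non (nat_lit 2) (nat_lit 4) (nat_lit 0x4009) (nat_lit 0x10000000000000000000000010001))) (.non (nat_lit 1) (nat_lit 4) (nat_lit 0x16810) (nat_lit 0x100030002000100000000000200000000))) (.split (nat_lit 8) (nat_lit 2) (.split (nat_lit 7) (nat_lit 6) (.split (nat_lit 7) (nat_lit 1) (.pd (.cons (nat_lit 1) (nat_lit 3) (nat_lit 0) (nat_lit 0x227650200) (nat_lit 0xf423f98965a2c28b71aef423f000001869c00000f423f) (.cons (nat_lit 1) (nat_lit 6) (nat_lit 0) (nat_lit 0x220433200) (nat_lit 0xf423ff423f00000f423fb71ae1f1563d08d00000f423f) (.cons (nat_lit 1) (nat_lit 7) (nat_lit 0) (nat_lit 0x205433200) (nat_lit 0xf423f00000f423fb71aea2c28047377a11e00000f423f) (.cons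 (nat_lit 2) (nat_lit 3) (nat_lit 0) (nat_lit 0x817650000) (nat_lit 0xf423f98965a2c28b71aef423f0000000000927bd28b05) (.cons (nat_lit 2) (nat_lit 6) (nat_lit 0) (nat_lit 0x810433000) (nat_lit 0xf423ff423f00000f423fb71ae1f15600000b71ae51612) (.cons (nat_lit 2) (nat_lit 7) (nat_lit 0) (nat_lit 0x805433000) (nat_lit 0xf423f00000f423fb71aea2c280473700000f423f7a11e) .nil)))))) (.leaf (.cons (nat_lit 0x10014) (nat_lit 0x100000000000000000000000100010000) .nil) .nil)) (.non (nat_lit 2) (nat_lit 4) (nat_lit 0x4009) (nat_lit 0x10000000000000000000000010001))) (.non (nat_lit 1) (nat_lit 4) (nat_lit 0x26010) (nat_lit 0x100020001000000000000000200000000))) (.non (nat_lit 1) (nat_lit 4) (nat_lit 0x15410) (nat_lit 0x300030002000100000000000400000000))))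

noncomputable def t345_9 : Tr := (.ex (nat_lit 3) (.ex (nat_lit 4) (.ex (nat_lit 5) (.split (nat_lit 7) (nat_lit 2) t345_8 (.non (nat_lit 1) (nat_lit 4) (nat_lit 0x1a810) (nat_lit 0x200030002000100000000000400000000))) (.split (nat_lit 9) (nat_lit 0) (.split (nat_lit 9) (nat_lit 1) (.split (nat_lit 9) (nat_lit 2) (.split (nat_lit 9) (nat_lit 6) (.split (nat_lit 9) (nat_lit 7) (.split (nat_lit 9) (nat_lit 8) (.split (nat_lit 9) (nat_lit 3) (.split (nat_lit 9) (nat_lit 4) (.unj (nat_lit 0x15) (nat_lit 0x100010001) (nat_lit 0x41540) (nat_lit 0x1000000000001000200020002000000000000)) (.unj (nat_lit 0x15) (nat_lit 0x100010001) (nat_lit 0x40500) (nat_lit 0x1000000000000000100010000000000000000))) (.split (nat_lit 9) (nat_lit 4) (.unj (nat_lit 0x15) (nat_lit 0x100010001) (nat_lit 0x40540) (nat_lit 0x1000000000000000100010001000000000000)) (.non (nat_lit 1) (nat_lit 5) (nat_lit 0x40140) (nat_lit 0x1000000000000000000010001000000000000)))) (.non (nat_lit 1) (nat_lit 4) (nat_lit 0x55410) (nat_lit 0x1000100010001000100000000000100000000)))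 (.non (nat_lit 1) (nat_lit 4) (nat_lit 0x45400) (nat_lit 0x1000000010001000100000000000000000000))) (.non (nat_lit 1) (nat_lit 4) (nat_lit 0x41400) (nat_lit 0x1000000000001000100000000000000000000))) (.star (nat_lit 9) (nat_lit 2) (nat_lit 5))) (.star (nat_lit 9) (nat_lit 1) (nat_lit 5))) (.non (nat_lit 2) (nat_lit 4) (nat_lit 0x4a009) (nat_lit 0x2000000020001000000000000000000030004)))) (.split (nat_lit 9) (nat_lit 0) (.split (nat_lit 9) (nat_lit 1) (.split (nat_lit 9) (nat_lit 2) (.split (nat_lit 9) (nat_lit 3) (.split (nat_lit 9) (nat_lit 6) (.split (nat_lit 9) (nat_lit 7) (.split (nat_lit 9) (nat_lit 8) (.split (nat_lit 9) (nat_lit 5) (.unj (nat_lit 0x15) (nat_lit 0x100010001) (nat_lit 0x40540) (nat_lit 0x1000000000000000100020002000000000000)) (.unj (nat_lit 0x15) (nat_lit 0x100010001) (nat_lit 0x40500) (nat_lit 0x1000000000000000100010000000000000000))) (.non (nat_lit 1) (nat_lit 5) (nat_lit 0x50150) (nat_lit 0x3000200000000000000040003000100000000))) (.non (nat_lit 1) (nat_lit 5) (nat_lit 0x45140) (nat_lit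 0x3000000020001000000040003000000000000))) (.non (nat_lit 1) (nat_lit 5) (nat_lit 0x45140) (nat_lit 0x3000000010002000000040003000000000000))) (.non (nat_lit 1) (nat_lit 5) (nat_lit 0x40140) (nat_lit 0x1000000000000000000010001000000000000))) (.star (nat_lit 9) (nat_lit 2) (nat_lit 4))) (.star (nat_lit 9) (nat_lit 1) (nat_lit 4))) (.non (nat_lit 2) (nat_lit 4) (nat_lit 0x4a009) (nat_lit 0x2000000020001000000000000000000030004)))) (.split (nat_lit 9) (nat_lit 0) (.split (nat_lit 9) (nat_lit 1) (.split (nat_lit 9) (nat_lit 2) (.split (nat_lit 9) (nat_lit 4) (.split (nat_lit 9) (nat_lit 6) (.split (nat_lit 9) (nat_lit 7) (.split (nat_lit 9) (nat_lit 8) (.split (nat_lit 9) (nat_lit 5) (.unj (nat_lit 0x15) (nat_lit 0x100010001) (nat_lit 0x40540) (nat_lit 0x1000000000000000100020002000000000000)) (.unj (nat_lit 0x15) (nat_lit 0x100010001) (nat_lit 0x40540) (nat_lit 0x1000000000000000100010001000000000000))) (.non (nat_lit 1) (nat_lit 5) (nat_lit 0x50150) (nat_lit 0x3000200000000000000030004000100000000))) (.non (nat_lit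 1) (nat_lit 4) (nat_lit 0x55450) (nat_lit 0x2000100030002000100000001000200000000))) (.non (nat_lit 1) (nat_lit 5) (nat_lit 0x45140) (nat_lit 0x3000000010002000000030004000000000000))) (.non (nat_lit 1) (nat_lit 5) (nat_lit 0x40140) (nat_lit 0x1000000000000000000010001000000000000))) (.non (nat_lit 1) (nat_lit 5) (nat_lit 0x50150) (nat_lit 0x3000100000000000000030004000200000000))) (.non (nat_lit 2) (nat_lit 4) (nat_lit 0x88009) (nat_lit 0x1000000010000000000000000000000020002))) (.non (nat_lit 2) (nat_lit 4) (nat_lit 0x4a009) (nat_lit 0x2000000020001000000000000000000030004))))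

noncomputable def t345_10 : Tr := (.ex (nat_lit 5) (.split (nat_lit 7) (nat_lit 2) (.split (nat_lit 8) (nat_lit 2) (.split (nat_lit 9) (nat_lit 2) (.split (nat_lit 7) (nat_lit 6) (.split (nat_lit 7) (nat_lit 1) (.pd (.cons (nat_lit 1) (nat_lit 3) (nat_lit 0) (nat_lit 0x2227650200) (nat_lit 0xf423ff423f98965a2c28b71aef423f000001869b00000f423f) (.cons (nat_lit 1) (nat_lit 6) (nat_lit 0) (nat_lit 0x2220433200) (nat_lit 0xf423ff423ff423f00000f423fb71ae1f1563d08c00000f423f) (.cons (nat_lit 1) (nat_lit 7) (nat_lit 0) (nat_lit 0x2205433200) (nat_lit 0xf423ff423f00000f423fb71aea2c28047377a11d00000f423f) (.cons (nat_lit 2) (nat_lit 3) (nat_lit 0) (nat_lit 0x9817650000) (nat_lit 0xf423ff423f98965a2c28b71aef423f0000000000927bd28b05) (.cons (nat_lit 2) (nat_lit 6) (nat_lit 0) (nat_lit 0x9810433000) (nat_lit 0xf423ff423ff423f00000f423fb71ae1f15600000b71ae51612) (.cons (nat_lit 2) (nat_lit 7) (nat_lit 0) (nat_lit 0x9805433000) (nat_lit 0xf423ff423f00000f423fb71aea2c280473700000f423f7a11e) .nil)))))) (.leaf (.cons (nat_lit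 0x50014) (nat_lit 0x1000100000000000000000000000200020000) .nil) .nil)) (.non (nat_lit 2) (nat_lit 4) (nat_lit 0x4009) (nat_lit 0x10000000000000000000000010001))) (.non (nat_lit 1) (nat_lit 4) (nat_lit 0x56010) (nat_lit 0x1000100020001000000000000000200000000))) (.non (nat_lit 1) (nat_lit 4) (nat_lit 0x94010) (nat_lit 0x1000100010000000000000000000200000000))) (.non (nat_lit 1) (nat_lit 4) (nat_lit 0x64010) (nat_lit 0x1000100010000000000000000000200000000))) (.non (nat_lit 1) (nat_lit 4) (nat_lit 0x58010) (nat_lit 0x1000100010000000000000000000200000000))) (.split (nat_lit 0xa) (nat_lit 0) (.split (nat_lit 0xa) (nat_lit 1) (.split (nat_lit 0xa) (nat_lit 2) (.split (nat_lit 0xa) (nat_lit 6) (.split (nat_lit 0xa) (nat_lit 7) (.split (nat_lit 0xa) (nat_lit 8) (.split (nat_lit 0xa) (nat_lit 9) (.split (nat_lit 0xa) (nat_lit 3) (.split (nat_lit 0xa) (nat_lit 4) (.unj (nat_lit 0x15) (nat_lit 0x100010001) (nat_lit 0x101540) (nat_lit 0x10000000000000001000200020002000000000000)) (.unj (nat_lit 0x15) (nat_lit 0x100010001)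 (nat_lit 0x100500) (nat_lit 0x10000000000000000000100010000000000000000))) (.split (nat_lit 0xa) (nat_lit 4) (.unj (nat_lit 0x15) (nat_lit 0x100010001) (nat_lit 0x100540) (nat_lit 0x10000000000000000000100010001000000000000)) (.non (nat_lit 1) (nat_lit 5) (nat_lit 0x100140) (nat_lit 0x10000000000000000000000010001000000000000)))) (.non (nat_lit 1) (nat_lit 4) (nat_lit 0x145410) (nat_lit 0x10001000000010001000100000000000100000000))) (.non (nat_lit 1) (nat_lit 4) (nat_lit 0x115410) (nat_lit 0x10000000100010001000100000000000100000000))) (.non (nat_lit 1) (nat_lit 4) (nat_lit 0x105400) (nat_lit 0x10000000000010001000100000000000000000000))) (.non (nat_lit 1) (nat_lit 4) (nat_lit 0x101400) (nat_lit 0x10000000000000001000100000000000000000000))) (.star (nat_lit 0xa) (nat_lit 2) (nat_lit 5))) (.star (nat_lit 0xa) (nat_lit 1) (nat_lit 5))) (.non (nat_lit 2) (nat_lit 4) (nat_lit 0x10a009) (nat_lit 0x20000000000020001000000000000000000030004))))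

noncomputable def t345_11 : Tr := (.ex (nat_lit 3) (.ex (nat_lit 4) t345_10 (.split (nat_lit 0xa) (nat_lit 0) (.split (nat_lit 0xa) (nat_lit 1) (.split (nat_lit 0xa) (nat_lit 2) (.split (nat_lit 0xa) (nat_lit 3) (.split (nat_lit 0xa) (nat_lit 6) (.split (nat_lit 0xa) (nat_lit 7) (.split (nat_lit 0xa) (nat_lit 8) (.split (nat_lit 0xa) (nat_lit 9) (.split (nat_lit 0xa) (nat_lit 5) (.unj (nat_lit 0x15) (nat_lit 0x100010001) (nat_lit 0x100540) (nat_lit 0x10000000000000000000100020002000000000000)) (.unj (nat_lit 0x15) (nat_lit 0x100010001) (nat_lit 0x100500) (nat_lit 0x10000000000000000000100010000000000000000))) (.non (nat_lit 1) (nat_lit 5) (nat_lit 0x140150) (nat_lit 0x30002000000000000000000040003000100000000))) (.non (nat_lit 1) (nat_lit 5) (nat_lit 0x110150) (nat_lit 0x30000000200000000000000040003000100000000))) (.non (nat_lit 1) (nat_lit 4) (nat_lit 0x155010) (nat_lit 0x10001000100020001000000000000000200000000))) (.non (nat_lit 1) (nat_lit 4) (nat_lit 0x155410) (nat_lit 0x10001000100020002000100000000000200000000)))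 (.non (nat_lit 1) (nat_lit 5) (nat_lit 0x100140) (nat_lit 0x10000000000000000000000010001000000000000))) (.star (nat_lit 0xa) (nat_lit 2) (nat_lit 4))) (.star (nat_lit 0xa) (nat_lit 1) (nat_lit 4))) (.non (nat_lit 2) (nat_lit 4) (nat_lit 0x10a009) (nat_lit 0x20000000000020001000000000000000000030004)))) (.split (nat_lit 0xa) (nat_lit 0) (.split (nat_lit 0xa) (nat_lit 1) (.split (nat_lit 0xa) (nat_lit 2) (.split (nat_lit 0xa) (nat_lit 4) (.split (nat_lit 0xa) (nat_lit 6) (.split (nat_lit 0xa) (nat_lit 7) (.split (nat_lit 0xa) (nat_lit 8) (.split (nat_lit 0xa) (nat_lit 9) (.split (nat_lit 0xa) (nat_lit 5) (.unj (nat_lit 0x15) (nat_lit 0x100010001) (nat_lit 0x100540) (nat_lit 0x10000000000000000000100020002000000000000)) (.unj (nat_lit 0x15) (nat_lit 0x100010001) (nat_lit 0x100540) (nat_lit 0x10000000000000000000100010001000000000000))) (.non (nat_lit 1) (nat_lit 4) (nat_lit 0x155450) (nat_lit 0x20003000200030002000100000001000400000000))) (.non (nat_lit 1) (nat_lit 4) (nat_lit 0x155450) (nat_lit 0x20002000300030002000100000001000400000000)))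 (.non (nat_lit 1) (nat_lit 4) (nat_lit 0x155010) (nat_lit 0x10001000100020001000000000000000200000000))) (.non (nat_lit 1) (nat_lit 4) (nat_lit 0x155410) (nat_lit 0x10001000100020002000100000000000200000000))) (.non (nat_lit 1) (nat_lit 5) (nat_lit 0x100140) (nat_lit 0x10000000000000000000000010001000000000000))) (.non (nat_lit 1) (nat_lit 4) (nat_lit 0x154010) (nat_lit 0x10001000100010000000000000000000200000000))) (.non (nat_lit 2) (nat_lit 4) (nat_lit 0x208009) (nat_lit 0x10000000000010000000000000000000000020002))) (.non (nat_lit 2) (nat_lit 4) (nat_lit 0x10a009) (nat_lit 0x20000000000020001000000000000000000030004))))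

noncomputable def t345_12 : Tr := (.split (nat_lit 7) (nat_lit 2) (.st (nat_lit 1) (nat_lit 2) (nat_lit 4) (nat_lit 0x8009) (nat_lit 0x10000000000000000000000020002) (nat_lit 2) (nat_lit 1) (.st (nat_lit 6) (nat_lit 2) (nat_lit 4) (nat_lit 0xa809) (nat_lit 0x20002000100000000000000020002) (nat_lit 2) (nat_lit 1) (.st (nat_lit 7) (nat_lit 2) (nat_lit 4) (nat_lit 0xa009) (nat_lit 0x20001000000000000000000020002) (nat_lit 2) (nat_lit 1) (.st (nat_lit 0) (nat_lit 2) (nat_lit 4) (nat_lit 0xa009) (nat_lit 0x20001000000000000000000030004) (nat_lit 1) (nat_lit 2) t345_4)))) (.st (nat_lit 1) (nat_lit 2) (nat_lit 4) (nat_lit 0x8009) (nat_lit 0x10000000000000000000000020002) (nat_lit 2) (nat_lit 1) (.st (nat_lit 6) (nat_lit 2) (nat_lit 4) (nat_lit 0xa809) (nat_lit 0x20002000100000000000000020002) (nat_lit 2) (nat_lit 1) (.st (nat_lit 7) (nat_lit 2) (nat_lit 4) (nat_lit 0xa009) (nat_lit 0x20001000000000000000000020002) (nat_lit 2) (nat_lit 1) (.ex (nat_lit 2) t345_6 (.split (nat_lit 8) (nat_lit 0) (.split (nat_lit 8) (nat_lit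 1) (.split (nat_lit 8) (nat_lit 3) (.split (nat_lit 8) (nat_lit 4) (.split (nat_lit 8) (nat_lit 5) (.split (nat_lit 8) (nat_lit 6) (.split (nat_lit 8) (nat_lit 7) (.ex (nat_lit 2) t345_9 (.split (nat_lit 9) (nat_lit 0) (.split (nat_lit 9) (nat_lit 1) (.split (nat_lit 9) (nat_lit 3) (.split (nat_lit 9) (nat_lit 4) (.split (nat_lit 9) (nat_lit 5) (.split (nat_lit 9) (nat_lit 6) (.split (nat_lit 9) (nat_lit 7) (.split (nat_lit 9) (nat_lit 8) t345_11 (.non (nat_lit 1) (nat_lit 4) (nat_lit 0x50010) (nat_lit 0x1000100000000000000000000000100000000))) (.non (nat_lit 1) (nat_lit 4) (nat_lit 0x44010) (nat_lit 0x1000000010000000000000000000100000000))) (.non (nat_lit 1) (nat_lit 4) (nat_lit 0x45010) (nat_lit 0x1000000010001000000000000000100000000))) (.star (nat_lit 9) (nat_lit 2) (nat_lit 5))) (.star (nat_lit 9) (nat_lit 2) (nat_lit 4))) (.non (nat_lit 1) (nat_lit 5) (nat_lit 0x50150) (nat_lit 0x3000100000000000000030004000200000000))) (.non (nat_lit 2) (nat_lit 4) (nat_lit 0x88009) (nat_lit 0x1000000010000000000000000000000020002)))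 (.non (nat_lit 2) (nat_lit 4) (nat_lit 0x4a009) (nat_lit 0x2000000020001000000000000000000030004)))) (.non (nat_lit 1) (nat_lit 4) (nat_lit 0x14010) (nat_lit 0x100010000000000000000000100000000))) (.non (nat_lit 1) (nat_lit 4) (nat_lit 0x15010) (nat_lit 0x100010001000000000000000100000000))) (.star (nat_lit 8) (nat_lit 2) (nat_lit 5))) (.star (nat_lit 8) (nat_lit 2) (nat_lit 4))) (.non (nat_lit 1) (nat_lit 5) (nat_lit 0x14150) (nat_lit 0x300010000000000030004000200000000))) (.non (nat_lit 2) (nat_lit 4) (nat_lit 0x28009) (nat_lit 0x100010000000000000000000000020002))) (.non (nat_lit 2) (nat_lit 4) (nat_lit 0x1a009) (nat_lit 0x200020001000000000000000000030004))))))))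

noncomputable def t345_13 : Tr := (.ex (nat_lit 4) (.ex (nat_lit 5) (.split (nat_lit 7) (nat_lit 0) (.pd (.cons (nat_lit 0) (nat_lit 6) (nat_lit 0) (nat_lit 0x20433110) (nat_lit 0xf423f00000f423fb71ae1f156b71ae1f15600000) (.cons (nat_lit 0) (nat_lit 7) (nat_lit 0) (nat_lit 0x5433110) (nat_lit 0xf423fb71aea2c2804737f423f5459100000) (.cons (nat_lit 1) (nat_lit 3) (nat_lit 0) (nat_lit 0x7650700) (nat_lit 0x5b8d4a2c28b71aef423f00000f423f000005160d) (.cons (nat_lit 1) (nat_lit 6) (nat_lit 0) (nat_lit 0x433700) (nat_lit 0xb71ae00000f423fb71ae1f156f423f00000a2c28) (.cons (nat_lit 1) (nat_lit 7) (nat_lit 0) (nat_lit 0x5433200) (nat_lit 0xf423fb71aea2c2804737f423f00000f423f) (.cons (nat_lit 2) (nat_lit 3) (nat_lit 0) (nat_lit 0x7650000) (nat_lit 0x98965a2c28b71aef423f0000000000f423f1869c) (.cons (nat_lit 2) (nat_lit 6) (nat_lit 0) (nat_lit 0x433000) (nat_lit 0xf423f00000f423fb71ae1f15600000f423f3d08d) (.cons (nat_lit 2) (nat_lit 7) (nat_lit 0) (nat_lit 0x5433000) (nat_lit 0xf423fb71aea2c280473700000f423f7a11e) .nil))))))))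 (.leaf (.cons (nat_lit 0x5414) (nat_lit 0x30002000100000000000400030000) .nil) .nil)) (.non (nat_lit 1) (nat_lit 4) (nat_lit 0xa021) (nat_lit 0x20001000000000000000100000002))) (.split (nat_lit 8) (nat_lit 0) (.split (nat_lit 8) (nat_lit 1) (.split (nat_lit 8) (nat_lit 2) (.split (nat_lit 8) (nat_lit 6) (.split (nat_lit 8) (nat_lit 7) (.split (nat_lit 8) (nat_lit 3) (.split (nat_lit 8) (nat_lit 4) (.unj (nat_lit 0x15) (nat_lit 0x100010001) (nat_lit 0x11540) (nat_lit 0x100000001000200020002000000000000)) (.unj (nat_lit 0x15) (nat_lit 0x100010001) (nat_lit 0x10500) (nat_lit 0x100000000000100010000000000000000))) (.split (nat_lit 8) (nat_lit 4) (.unj (nat_lit 0x15) (nat_lit 0x100010001) (nat_lit 0x10540) (nat_lit 0x100000000000100010001000000000000)) (.non (nat_lit 1) (nat_lit 5) (nat_lit 0x10140) (nat_lit 0x100000000000000010001000000000000)))) (.non (nat_lit 1) (nat_lit 4) (nat_lit 0x15400) (nat_lit 0x100010001000100000000000000000000))) (.non (nat_lit 1) (nat_lit 4) (nat_lit 0x11400) (nat_lit 0x100000001000100000000000000000000)))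 (.star (nat_lit 8) (nat_lit 2) (nat_lit 5))) (.star (nat_lit 8) (nat_lit 1) (nat_lit 5))) (.non (nat_lit 1) (nat_lit 4) (nat_lit 0x15401) (nat_lit 0x100010001000100000000000000000001)))) (.split (nat_lit 8) (nat_lit 0) (.split (nat_lit 8) (nat_lit 1) (.split (nat_lit 8) (nat_lit 2) (.split (nat_lit 8) (nat_lit 3) (.split (nat_lit 8) (nat_lit 6) (.split (nat_lit 8) (nat_lit 7) (.split (nat_lit 8) (nat_lit 5) (.unj (nat_lit 0x15) (nat_lit 0x100010001) (nat_lit 0x10540) (nat_lit 0x100000000000100020002000000000000)) (.unj (nat_lit 0x15) (nat_lit 0x100010001) (nat_lit 0x10500) (nat_lit 0x100000000000100010000000000000000))) (.non (nat_lit 1) (nat_lit 4) (nat_lit 0x15011) (nat_lit 0x100020001000000000000000100000001))) (.non (nat_lit 1) (nat_lit 4) (nat_lit 0x15411) (nat_lit 0x100020002000100000000000100000001))) (.non (nat_lit 1) (nat_lit 5) (nat_lit 0x10140) (nat_lit 0x100000000000000010001000000000000))) (.star (nat_lit 8) (nat_lit 2) (nat_lit 4))) (.star (nat_lit 8) (nat_lit 1) (nat_lit 4))) (.non (nat_lit 1) (nat_lit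 5) (nat_lit 0x14141) (nat_lit 0x300010000000000040003000000000002))))

noncomputable def t345_14 : Tr := (.ex (nat_lit 4) (.ex (nat_lit 5) (.split (nat_lit 7) (nat_lit 0) (.split (nat_lit 7) (nat_lit 2) (.split (nat_lit 7) (nat_lit 6) (.pd (.cons (nat_lit 0) (nat_lit 7) (nat_lit 0x110) (nat_lit 0x5433120) (nat_lit 0xf423fb71aea2c2804737000010000100000) (.cons (nat_lit 1) (nat_lit 3) (nat_lit 0) (nat_lit 0x7650700) (nat_lit 0x5b8d4a2c28b71aef423f00000f423f000005160d) (.cons (nat_lit 1) (nat_lit 6) (nat_lit 0) (nat_lit 0x433700) (nat_lit 0xb71ae00000f423fb71ae1f156f423f00000a2c28) (.cons (nat_lit 1) (nat_lit 7) (nat_lit 0) (nat_lit 0x5433200) (nat_lit 0xf423fb71aea2c2804737f423f00000f423f) (.cons (nat_lit 2) (nat_lit 3) (nat_lit 0) (nat_lit 0x7650000) (nat_lit 0x98965a2c28b71aef423f0000000000f423f1869c) (.cons (nat_lit 2) (nat_lit 6) (nat_lit 0) (nat_lit 0x433000) (nat_lit 0xf423f00000f423fb71ae1f15600000f423f3d08d) (.cons (nat_lit 2) (nat_lit 7) (nat_lit 0) (nat_lit 0x5433000) (nat_lit 0xf423fb71aea2c280473700000f423f7a11e)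 .nil))))))) (.leaf (.cons (nat_lit 0xc034) (nat_lit 0x10000000000000000000200030000) .nil) .nil)) (.non (nat_lit 1) (nat_lit 4) (nat_lit 0x6011) (nat_lit 0x20001000000000000000100000001))) (.non (nat_lit 1) (nat_lit 4) (nat_lit 0x5021) (nat_lit 0x20001000000000000000100000001))) (.non (nat_lit 1) (nat_lit 4) (nat_lit 0xa021) (nat_lit 0x20001000000000000000100000002))) (.split (nat_lit 8) (nat_lit 0) (.split (nat_lit 8) (nat_lit 1) (.split (nat_lit 8) (nat_lit 2) (.split (nat_lit 8) (nat_lit 6) (.split (nat_lit 8) (nat_lit 7) (.split (nat_lit 8) (nat_lit 3) (.split (nat_lit 8) (nat_lit 4) (.unj (nat_lit 0x15) (nat_lit 0x100010001) (nat_lit 0x11540) (nat_lit 0x100000001000200020002000000000000)) (.unj (nat_lit 0x15) (nat_lit 0x100010001) (nat_lit 0x10500) (nat_lit 0x100000000000100010000000000000000))) (.split (nat_lit 8) (nat_lit 4) (.unj (nat_lit 0x15) (nat_lit 0x100010001) (nat_lit 0x10540) (nat_lit 0x100000000000100010001000000000000)) (.non (nat_lit 1) (nat_lit 5) (nat_lit 0x10140) (nat_lit 0x100000000000000010001000000000000))))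 (.non (nat_lit 1) (nat_lit 4) (nat_lit 0x15400) (nat_lit 0x100010001000100000000000000000000))) (.non (nat_lit 1) (nat_lit 4) (nat_lit 0x11400) (nat_lit 0x100000001000100000000000000000000))) (.star (nat_lit 8) (nat_lit 2) (nat_lit 5))) (.star (nat_lit 8) (nat_lit 1) (nat_lit 5))) (.non (nat_lit 1) (nat_lit 4) (nat_lit 0x15401) (nat_lit 0x100010001000100000000000000000001)))) (.split (nat_lit 8) (nat_lit 0) (.split (nat_lit 8) (nat_lit 1) (.split (nat_lit 8) (nat_lit 2) (.split (nat_lit 8) (nat_lit 3) (.split (nat_lit 8) (nat_lit 6) (.split (nat_lit 8) (nat_lit 7) (.split (nat_lit 8) (nat_lit 5) (.unj (nat_lit 0x15) (nat_lit 0x100010001) (nat_lit 0x10540) (nat_lit 0x100000000000100020002000000000000)) (.unj (nat_lit 0x15) (nat_lit 0x100010001) (nat_lit 0x10500) (nat_lit 0x100000000000100010000000000000000))) (.non (nat_lit 1) (nat_lit 4) (nat_lit 0x15011) (nat_lit 0x100020001000000000000000100000001))) (.non (nat_lit 1) (nat_lit 4) (nat_lit 0x15411) (nat_lit 0x100020002000100000000000100000001))) (.non (nat_lit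 1) (nat_lit 5) (nat_lit 0x10140) (nat_lit 0x100000000000000010001000000000000))) (.star (nat_lit 8) (nat_lit 2) (nat_lit 4))) (.star (nat_lit 8) (nat_lit 1) (nat_lit 4))) (.non (nat_lit 1) (nat_lit 5) (nat_lit 0x14141) (nat_lit 0x300010000000000040003000000000002))))

noncomputable def t345_15 : Tr := (.ex (nat_lit 2) (.split (nat_lit 2) (nat_lit 1) (.split (nat_lit 7) (nat_lit 2) (.split (nat_lit 7) (nat_lit 6) (.pd (.cons (nat_lit 0) (nat_lit 5) (nat_lit 0) (nat_lit 0x27033110) (nat_lit 0xb71aef423f00000f423f54591a2c280473700000) .nil) (.ex (nat_lit 3) t345_13 (.split (nat_lit 8) (nat_lit 0) (.split (nat_lit 8) (nat_lit 1) (.split (nat_lit 8) (nat_lit 2) (.split (nat_lit 8) (nat_lit 4) (.split (nat_lit 8) (nat_lit 6) (.split (nat_lit 8) (nat_lit 7) (.split (nat_lit 8) (nat_lit 5) (.unj (nat_lit 0x15) (nat_lit 0x100010001) (nat_lit 0x10540) (nat_lit 0x100000000000100020002000000000000)) (.unj (nat_lit 0x15) (nat_lit 0x100010001) (nat_lit 0x10540) (nat_lit 0x100000000000100010001000000000000))) (.non (nat_lit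 1) (nat_lit 4) (nat_lit 0x15011) (nat_lit 0x100020001000000000000000100000001))) (.non (nat_lit 1) (nat_lit 4) (nat_lit 0x15411) (nat_lit 0x100020002000100000000000100000001))) (.non (nat_lit 1) (nat_lit 5) (nat_lit 0x10140) (nat_lit 0x100000000000000010001000000000000))) (.non (nat_lit 1) (nat_lit 5) (nat_lit 0x14150) (nat_lit 0x300010000000000030004000200000000))) (.non (nat_lit 2) (nat_lit 4) (nat_lit 0x25009) (nat_lit 0x100020001000000000000000000020003))) (.non (nat_lit 1) (nat_lit 5) (nat_lit 0x14141) (nat_lit 0x300010000000000030004000000000002))))) (.non (nat_lit 1) (nat_lit 4) (nat_lit 0x6011) (nat_lit 0x20001000000000000000100000001))) (.non (nat_lit 1) (nat_lit 4) (nat_lit 0x5021) (nat_lit 0x20001000000000000000100000001))) (.ex (nat_lit 3) t345_14 (.split (nat_lit 8) (nat_lit 0) (.split (nat_lit 8) (nat_lit 1) (.split (nat_lit 8) (nat_lit 2) (.split (nat_lit 8) (nat_lit 4) (.split (nat_lit 8) (nat_lit 6) (.split (nat_lit 8) (nat_lit 7) (.split (nat_lit 8) (nat_lit 5) (.unj (nat_lit 0x15) (nat_lit 0x100010001)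 (nat_lit 0x10540) (nat_lit 0x100000000000100020002000000000000)) (.unj (nat_lit 0x15) (nat_lit 0x100010001) (nat_lit 0x10540) (nat_lit 0x100000000000100010001000000000000))) (.non (nat_lit 1) (nat_lit 4) (nat_lit 0x15011) (nat_lit 0x100020001000000000000000100000001))) (.non (nat_lit 1) (nat_lit 4) (nat_lit 0x15411) (nat_lit 0x100020002000100000000000100000001))) (.non (nat_lit 1) (nat_lit 5) (nat_lit 0x10140) (nat_lit 0x100000000000000010001000000000000))) (.non (nat_lit 1) (nat_lit 5) (nat_lit 0x14150) (nat_lit 0x300010000000000030004000200000000))) (.non (nat_lit 2) (nat_lit 4) (nat_lit 0x25009) (nat_lit 0x100020001000000000000000000020003))) (.non (nat_lit 1) (nat_lit 5) (nat_lit 0x14141) (nat_lit 0x300010000000000030004000000000002))))) (.split (nat_lit 8) (nat_lit 0) (.split (nat_lit 8) (nat_lit 1) (.split (nat_lit 8) (nat_lit 3) (.split (nat_lit 8) (nat_lit 4) (.split (nat_lit 8) (nat_lit 5) (.split (nat_lit 8) (nat_lit 6) (.split (nat_lit 8) (nat_lit 7) (.split (nat_lit 8) (nat_lit 2) (.split (nat_lit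 7) (nat_lit 0) (.split (nat_lit 7) (nat_lit 2) (.sup (nat_lit 0x50019002c00400034000000000000) (nat_lit 0x5000000000000000000000009000b0006)) (.non (nat_lit 1) (nat_lit 4) (nat_lit 0x1a810) (nat_lit 0x200030002000100000000000400000000))) (.non (nat_lit 1) (nat_lit 4) (nat_lit 0xa021) (nat_lit 0x20001000000000000000100000002))) (.non (nat_lit 1) (nat_lit 4) (nat_lit 0x25011) (nat_lit 0x100020001000000000000000200000001))) (.non (nat_lit 1) (nat_lit 4) (nat_lit 0x14010) (nat_lit 0x100010000000000000000000100000000))) (.non (nat_lit 1) (nat_lit 4) (nat_lit 0x15010) (nat_lit 0x100010001000000000000000100000000))) (.star (nat_lit 8) (nat_lit 2) (nat_lit 5))) (.star (nat_lit 8) (nat_lit 2) (nat_lit 4))) (.non (nat_lit 1) (nat_lit 5) (nat_lit 0x14150) (nat_lit 0x300010000000000030004000200000000))) (.non (nat_lit 2) (nat_lit 4) (nat_lit 0x25009) (nat_lit 0x100020001000000000000000000020003))) (.non (nat_lit 1) (nat_lit 4) (nat_lit 0x14011) (nat_lit 0x100010000000000000000000100000001))))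

noncomputable def t345 : Tr := (.split (nat_lit 6) (nat_lit 0) (.split (nat_lit 3) (nat_lit 0) (.split (nat_lit 7) (nat_lit 0) (.split (nat_lit 7) (nat_lit 1) (.split (nat_lit 7) (nat_lit 2) .uj (.split (nat_lit 7) (nat_lit 2) (.sup (nat_lit 0x6000a0007) (nat_lit 0x100040007000a0008000000000000)) (.st (nat_lit 2) (nat_lit 1) (nat_lit 4) (nat_lit 0xa810) (nat_lit 0x30002000100000000000400000000) (nat_lit 1) (nat_lit 2) (.st (nat_lit 6) (nat_lit 1) (nat_lit 4) (nat_lit 0xa810) (nat_lit 0x20002000100000000000200000000) (nat_lit 2) (nat_lit 1) (.st (nat_lit 7) (nat_lit 1) (nat_lit 4) (nat_lit 0xa010) (nat_lit 0x20001000000000000000200000000) (nat_lit 2) (nat_lit 1) (.ex (nat_lit 1) t345_2 (.split (nat_lit 8) (nat_lit 0) (.split (nat_lit 8) (nat_lit 2) (.split (nat_lit 8) (nat_lit 3) (.split (nat_lit 8) (nat_lit 4) (.split (nat_lit 8) (nat_lit 5) (.split (nat_lit 8) (nat_lit 6) (.split (nat_lit 8) (nat_lit 7) (.sup (nat_lit 0x30007000b0010000d000000000000) (nat_lit 0x200000000000000000000000100040003)) (.non (nat_lit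 1) (nat_lit 4) (nat_lit 0x2a010) (nat_lit 0x100020001000000000000000200000000))) (.non (nat_lit 1) (nat_lit 4) (nat_lit 0x2a810) (nat_lit 0x100020002000100000000000200000000))) (.star (nat_lit 8) (nat_lit 1) (nat_lit 5))) (.star (nat_lit 8) (nat_lit 1) (nat_lit 4))) (.non (nat_lit 2) (nat_lit 5) (nat_lit 0x10145) (nat_lit 0x100000000000000010001000000010001))) (.non (nat_lit 1) (nat_lit 4) (nat_lit 0x1a810) (nat_lit 0x200030002000100000000000400000000))) (.non (nat_lit 2) (nat_lit 4) (nat_lit 0x10005) (nat_lit 0x100000000000000000000000000010001))))))))) t345_12) (.split (nat_lit 7) (nat_lit 1) (.split (nat_lit 7) (nat_lit 2) (.split (nat_lit 7) (nat_lit 0) (.sup (nat_lit 0x8000a0005) (nat_lit 0x100040007000a0008000000000000)) (.non (nat_lit 2) (nat_lit 4) (nat_lit 0x8009) (nat_lit 0x10000000000000000000000010002))) (.st (nat_lit 1) (nat_lit 2) (nat_lit 4) (nat_lit 0x5009) (nat_lit 0x20001000000000000000000020003) (nat_lit 2) (nat_lit 1) (.st (nat_lit 6) (nat_lit 1) (nat_lit 4) (nat_lit 0x5411) (nat_lit 0x20002000100000000000100000001)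 (nat_lit 1) (nat_lit 1) (.st (nat_lit 7) (nat_lit 1) (nat_lit 4) (nat_lit 0x5011) (nat_lit 0x20001000000000000000100000001) (nat_lit 1) (nat_lit 1) t345_15)))) (.non (nat_lit 2) (nat_lit 4) (nat_lit 0x4005) (nat_lit 0x10000000000000000000000010001)))) (.non (nat_lit 2) (nat_lit 5) (nat_lit 0x145) (nat_lit 0x10001000000010001))) (.non (nat_lit 2) (nat_lit 4) (nat_lit 0x5409) (nat_lit 0x10002000100000000000000010002)))

noncomputable def D3_144 : RL := (.cons (nat_lit 0x2222222222222222222222222222222222222222222222222222222222222222222222222222222222222222222222222222222222222222222222222222222222222222222222222222222222b23222222222222b232222222222222232c22222222222232c222222222222222222d22222222222222d242222222222222242) .uj (.cons (nat_lit 0x22222222222222222222222222222222222222222222222222222222222222222222222222222222222222222222222222222222222222222222222222222222222222222b222aaa22222222b2322aaa222222222323222a2222222222325222222222222225222222222222aa2222d222222222aa222d2422222222aaa22242) t341 (.cons (nat_lit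 0x22222222222222222222222222222222222222222222222222222222222222222222222222222222222222222222222222222222222222222222222222222222222222222b222aaa22222222b232222a2222222223232222222222222232522a222222222225222222222222a22222d222222222a2222d2422222222aa2a2242) t342 (.cons (nat_lit 0x22222222222222222222222222222222222222222222222222222222222222222222222222222222222222222222222222222222222222222222222222222222222222222b22222a22222222b2322222222222222323222a2222222222325222222222222225222222222222222222d22222222222222d2422222222a2a22242) (.split (nat_lit 5) (nat_lit 0) (.split (nat_lit 7) (nat_lit 0) .uj (.split (nat_lit 7) (nat_lit 0) (.sup (nat_lit 0x8000a0005) (nat_lit 0x100040007000a0008000000000000)) (.non (nat_lit 2) (nat_lit 3) (nat_lit 0x8009) (nat_lit 0x10000000000000000000000010002)))) (.non (nat_lit 2) (nat_lit 3) (nat_lit 0x1509) (nat_lit 0x1000200010000000000010002))) (.cons (nat_lit 0x22222222222222222222222222222222222222222222222222222222222222222222222222222222222222222222222222222222222222222222222222222222222222222b22222222222222b232222222222222232322222222222222325222222222222225222222222222222222d22222222222222d242222222222222242)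 .uj (.cons (nat_lit 0x22222222222222222222222222222222222222222222222222222222222222222222222222222222222222222222222222222222222222222222222222222222222222222b222aaa22222222b232222a22222222232322222222222222325222222222222225222a22222222a22222d222222222a2222d2422222222aa22a242) t345 .nil))))))

noncomputable def D3_132 : RL := (.cons (nat_lit 0x2222222222222222222222222222222222222222222222222222222222222222222222222222222222222222222222222222222222222222222222222222222222222222222222222222222222c2222a222222222c232222222222222232522a222222222225222222222222222222d22222222222222d24222222222a2a2242) (.split (nat_lit 6) (nat_lit 0) (.split (nat_lit 4) (nat_lit 0) .uj (.non (nat_lit 2) (nat_lit 3) (nat_lit 0x2509) (nat_lit 0x1000200020000000000010002))) (.non (nat_lit 2) (nat_lit 3) (nat_lit 0x1809) (nat_lit 0x2000100000000000000010002))) (.cons (nat_lit 0x2222222222222222222222222222222222222222222222222222222222222222222222222222222222222222222222222222222222222222222222222222222222222222222222222222222222c22222222222222c2322222222222222325222222222222225222222222222222222d22222222222222d242222222222222242)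 .uj (.cons (nat_lit 0x2222222222222222222222222222222222222222222222222222222222222222222222222222222222222222222222222222222222222222222222222222222222222222222222222222222222c2222a222222222c2322222222222222325222222222222225222a22222222222222d22222222222222d24222222222a22a242) (.split (nat_lit 6) (nat_lit 0) (.split (nat_lit 3) (nat_lit 0) .uj (.non (nat_lit 2) (nat_lit 5) (nat_lit 0x145) (nat_lit 0x10001000000010001))) (.non (nat_lit 2) (nat_lit 4) (nat_lit 0x1809) (nat_lit 0x2000100000000000000010002))) (.cons (nat_lit 0x2222222222222222222222222222222222222222222222222222222222222222222222222222222222222222222222222222222222222222222222222222222222222222222222222222222222c22222222222222c23222a2222222222325222222222222225222222222222222222d22222222222222d242222222222a22242) (.split (nat_lit 5) (nat_lit 0) .uj (.non (nat_lit 2) (nat_lit 4) (nat_lit 0x2409) (nat_lit 0x1000200000000000000010002))) (.cons (nat_lit 0x2222222222222222222222222222222222222222222222222222222222222222222222222222222222222222222222222222222222222222222222222222222222222222222222222222222222c22222222222222c2322222222222222325222222222222225222222222222222222d22222222222222d242222222222222242)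 .uj (.cons (nat_lit 0x222222222222222222222222222222222222222222222222222222222222222222222222222222222222222222222222222222222222222222222222222222222222222222222222222222222223222a222222222223222a2222222223325222222222222225222222222222222222d22222222222222d24222222222aa22242) (.split (nat_lit 6) (nat_lit 0) (.split (nat_lit 5) (nat_lit 0) .uj (.split (nat_lit 5) (nat_lit 0) (.sup (nat_lit 0x400050002) (nat_lit 0x3000100050004000000000000)) (.non (nat_lit 2) (nat_lit 3) (nat_lit 0x809) (nat_lit 0x100000000000000010002)))) (.split (nat_lit 5) (nat_lit 0) (.split (nat_lit 6) (nat_lit 0) (.sup (nat_lit 0x400050002) (nat_lit 0x1000300050004000000000000)) (.non (nat_lit 2) (nat_lit 3) (nat_lit 0x2009) (nat_lit 0x1000000000000000000010002))) (.non (nat_lit 1) (nat_lit 3) (nat_lit 0x1501) (nat_lit 0x1000100010000000000000001)))) (.cons (nat_lit 0x2222222222222222222222222222222222222222222222222222222222222222222222222222222222222222222222222222222222222222222222222222222222222222222222222222222222232aaa222222222223222222222222233252222222222222252222222222222a2222d2222222222a222d24222222222a222242)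 (.split (nat_lit 6) (nat_lit 0) (.split (nat_lit 6) (nat_lit 1) (.split (nat_lit 6) (nat_lit 2) .uj (.split (nat_lit 6) (nat_lit 2) (.sup (nat_lit 0x300050004) (nat_lit 0x1000300050004000000000000)) (.non (nat_lit 1) (nat_lit 5) (nat_lit 0x1150) (nat_lit 0x1000000010001000100000000)))) (.non (nat_lit 2) (nat_lit 5) (nat_lit 0x1145) (nat_lit 0x1000000010001000000010001))) (.non (nat_lit 2) (nat_lit 5) (nat_lit 0x1145) (nat_lit 0x1000000010001000000010001))) (.cons (nat_lit 0x222222222222222222222222222222222222222222222222222222222222222222222222222222222222222222222222222222222222222222222222222222222222222222222222222222222223222a22222222222322222222222223325222222222222225222222222222222222d22222222222222d24222222222a222242) (.split (nat_lit 6) (nat_lit 0) .uj (.non (nat_lit 2) (nat_lit 5) (nat_lit 0x1145) (nat_lit 0x1000000010001000000010001))) (.cons (nat_lit 0x222222222222222222222222222222222222222222222222222222222222222222222222222222222222222222222222222222222222222222222222222222222222222222222222222222222223222222222222222322222222222223325222222222222225222222222222222222d22222222222222d242222222222222242)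 .uj (.cons (nat_lit 0x2222222222222222222222222222222222222222222222222222222222222222222222222222222222222222222222222222222222222222222222222222222222222222222222222222222222b2322a222222222b23222a222222222232c22222222222232c222222222222222222d22222222222222d24222222222aa22242) (.split (nat_lit 6) (nat_lit 0) (.split (nat_lit 5) (nat_lit 0) .uj (.non (nat_lit 2) (nat_lit 3) (nat_lit 0x1509) (nat_lit 0x1000200010000000000010002))) (.non (nat_lit 2) (nat_lit 4) (nat_lit 0x1449) (nat_lit 0x2000100000001000000010002))) (.cons (nat_lit 0x2222222222222222222222222222222222222222222222222222222222222222222222222222222222222222222222222222222222222222222222222222222222222222222222222222222222b2322a222222222b232222222222222232c22a22222222232c222222222222222222d22222222222222d24222222222a2a2242) (.split (nat_lit 6) (nat_lit 0) (.split (nat_lit 4) (nat_lit 0) .uj (.non (nat_lit 2) (nat_lit 5) (nat_lit 0x189) (nat_lit 0x20001000000010002))) (.non (nat_lit 2) (nat_lit 5) (nat_lit 0x1249) (nat_lit 0x2000000010002000000010002)))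 (.cons (nat_lit 0x2222222222222222222222222222222222222222222222222222222222222222222222222222222222222222222222222222222222222222222222222222222222222222222222222222222222b23222222222222b23222a222222222232c22222222222232c222222222222222222d22222222222222d242222222222a22242) (.split (nat_lit 5) (nat_lit 0) .uj (.non (nat_lit 2) (nat_lit 3) (nat_lit 0x1509) (nat_lit 0x1000200010000000000010002))) D3_144))))))))))))

noncomputable def D3_120 : RL := (.skip (.skip (.cons (nat_lit 0x222222222222222222222222222222222222222222222222222222222222222222222222222222222222222222222222222222222222222222222222222222222222222222222222222222222222222222222222222d22222222222222d24222222222222224222a22222222222222d22222222222222d24222222222222a242) (.split (nat_lit 3) (nat_lit 0) .uj (.non (nat_lit 2) (nat_lit 5) (nat_lit 0x249) (nat_lit 0x10002000000010002))) (.cons (nat_lit 0x222222222222222222222222222222222222222222222222222222222222222222222222222222222222222222222222222222222222222222222222222222222222222222222222222222222222222222222222222d222a2222222222d2d22222222222222d222222222222222222d22222222222222d242222222222a22242)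 (.split (nat_lit 5) (nat_lit 0) .uj (.non (nat_lit 2) (nat_lit 3) (nat_lit 0x505) (nat_lit 0x100010000000000010001))) (.cons (nat_lit 0x222222222222222222222222222222222222222222222222222222222222222222222222222222222222222222222222222222222222222222222222222222222222222222222222222222222222222222222222222d22222222222222d2d22a22222222222d222222222222222222d22222222222222d2422222222222a2242) (.split (nat_lit 4) (nat_lit 0) .uj (.non (nat_lit 2) (nat_lit 3) (nat_lit 0x505) (nat_lit 0x100010000000000010001))) (.cons (nat_lit 0x222222222222222222222222222222222222222222222222222222222222222222222222222222222222222222222222222222222222222222222222222222222222222222222222222222222222222222222222222bc22a2222222222b2b2222222222222cb222222222222222222d22222222222222d242222222222a22242) (.split (nat_lit 5) (nat_lit 0) .uj (.non (nat_lit 2) (nat_lit 4) (nat_lit 0x489) (nat_lit 0x200000001000000010002))) (.cons (nat_lit 0x222222222222222222222222222222222222222222222222222222222222222222222222222222222222222222222222222222222222222222222222222222222222222222222222222222222222222222222222222bc2222222222222b2b22a2222222222cb222222222222222222d22222222222222d2422222222222a2242)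 (.split (nat_lit 4) (nat_lit 0) .uj (.split (nat_lit 5) (nat_lit 3) (.split (nat_lit 5) (nat_lit 4) (.split (nat_lit 4) (nat_lit 0) (.sup (nat_lit 0x400050002) (nat_lit 0x500030005000000000000)) (.non (nat_lit 2) (nat_lit 3) (nat_lit 0x209) (nat_lit 0x10000000000010002))) (.non (nat_lit 2) (nat_lit 3) (nat_lit 0x909) (nat_lit 0x100020000000000010002))) (.split (nat_lit 5) (nat_lit 3) (.split (nat_lit 5) (nat_lit 4) (.split (nat_lit 4) (nat_lit 0) (.sup (nat_lit 0x400050002) (nat_lit 0x500020005000000000000)) (.non (nat_lit 2) (nat_lit 3) (nat_lit 0x209) (nat_lit 0x10000000000010002))) (.non (nat_lit 2) (nat_lit 3) (nat_lit 0x909) (nat_lit 0x100020000000000010002))) (.sup (nat_lit 0x8000a0005) (nat_lit 0xa0003000a000000000000))))) (.cons (nat_lit 0x2222222222222222222222222222222222222222222222222222222222222222222222222222222222222222222222222222222222222222222222222222222222222222222222222222222222322aaa222222222325222222222222225232222222222222232222222222222a2222d2222222222a222d24222222222a222242) (.split (nat_lit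 6) (nat_lit 0) (.split (nat_lit 6) (nat_lit 1) (.split (nat_lit 6) (nat_lit 2) .uj (.split (nat_lit 6) (nat_lit 2) (.sup (nat_lit 0x6000a0007) (nat_lit 0x20009000a0005000000000000)) (.non (nat_lit 1) (nat_lit 3) (nat_lit 0x1510) (nat_lit 0x1000100010000000100000000)))) (.non (nat_lit 2) (nat_lit 3) (nat_lit 0x1505) (nat_lit 0x1000100010000000000010001))) (.non (nat_lit 2) (nat_lit 3) (nat_lit 0x1505) (nat_lit 0x1000100010000000000010001))) (.cons (nat_lit 0x222222222222222222222222222222222222222222222222222222222222222222222222222222222222222222222222222222222222222222222222222222222222222222222222222222222232222a22222222232522222222222222523222222222222223222222222222222222d22222222222222d24222222222a222242) (.split (nat_lit 6) (nat_lit 0) .uj (.non (nat_lit 2) (nat_lit 3) (nat_lit 0x1505) (nat_lit 0x1000100010000000000010001))) (.cons (nat_lit 0x222222222222222222222222222222222222222222222222222222222222222222222222222222222222222222222222222222222222222222222222222222222222222222222222222222222232222222222222232522222222222222523222222222222223222222222222222222d22222222222222d242222222222222242)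 .uj (.cons (nat_lit 0x222222222222222222222222222222222222222222222222222222222222222222222222222222222222222222222222222222222222222222222222222222222222222222222222222222222232222a22222222232522222222222222523222222222222223222a22222222222222d22222222222222d24222222222a22a242) (.split (nat_lit 6) (nat_lit 0) (.split (nat_lit 3) (nat_lit 0) .uj (.split (nat_lit 3) (nat_lit 0) (.sup (nat_lit 0x8000a0005) (nat_lit 0x5000a00090002000000000000)) (.non (nat_lit 2) (nat_lit 4) (nat_lit 0x89) (nat_lit 0x1000000010002)))) (.split (nat_lit 3) (nat_lit 0) (.split (nat_lit 6) (nat_lit 0) (.sup (nat_lit 0x8000a0005) (nat_lit 0x20009000a0005000000000000)) (.non (nat_lit 2) (nat_lit 4) (nat_lit 0x2009) (nat_lit 0x1000000000000000000010002))) (.non (nat_lit 2) (nat_lit 4) (nat_lit 0x1049) (nat_lit 0x1000000000001000000010002)))) (.cons (nat_lit 0x2222222222222222222222222222222222222222222222222222222222222222222222222222222222222222222222222222222222222222222222222222222222222222222222222222222222c22aaa222222222c23222222222222223252222222222222252222222222222a2222d2222222222a222d24222222222a222242)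 t327 D3_132))))))))))))

noncomputable def D3_108 : RL := (.cons (nat_lit 0x222222222222222222222222222222222222222222222222222222222222222222222222222222222222222222222222222222222222222222222222222222222222222222322222222222222232222222222222332322222222222222325222222222222225222222222222222222d22222222222222d242222222222222242) .uj (.cons (nat_lit 0x222222222222222222222222222222222222222222222222222222222222222222222222222222222222222222222222222222222222222222222222222222222222222222322222222222222232222222222222332322222222222222325222222222222225222222222222222222d22222222222222d242222222222222242) .uj (.cons (nat_lit 0x2222222222222222222222222222222222222222222222222222222222222222222222222222222222222222222222222222222222222222222222222222222222222222232232a22222222232322aaa22222222232322a222222222223242222222222232242222222222222a2222d222222222aaa22d24222222222a222242) (.split (nat_lit 7) (nat_lit 1) (.split (nat_lit 6) (nat_lit 0) (.split (nat_lit 6) (nat_lit 1) (.split (nat_lit 6) (nat_lit 2) (.split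 (nat_lit 5) (nat_lit 1) .uj (.non (nat_lit 0) (nat_lit 3) (nat_lit 0x5414) (nat_lit 0x10002000300000000000300040000))) (.non (nat_lit 0) (nat_lit 3) (nat_lit 0x5414) (nat_lit 0x10002000100000000000200020000))) (.non (nat_lit 0) (nat_lit 3) (nat_lit 0x5414) (nat_lit 0x10002000100000000000200020000))) (.non (nat_lit 2) (nat_lit 3) (nat_lit 0x5409) (nat_lit 0x10002000100000000000000010002))) (.non (nat_lit 0) (nat_lit 3) (nat_lit 0x5414) (nat_lit 0x30002000100000000000300040000))) (.cons (nat_lit 0x22222222222222222222222222222222222222222222222222222222222222222222222222222222222222222222222222222222222222222222222222222222222222222322322222222222323222a222222222232322222222222222324222222222223224222222222222222222d2222222222a222d242222222222222242) (.split (nat_lit 6) (nat_lit 1) .uj (.non (nat_lit 0) (nat_lit 3) (nat_lit 0x5414) (nat_lit 0x10002000100000000000200020000))) (.cons (nat_lit 0x222222222222222222222222222222222222222222222222222222222222222222222222222222222222222222222222222222222222222222222222222222222222222223223222222222223232222222222222232322222222222222324222222222223224222222222222222222d22222222222222d242222222222222242)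 .uj (.cons (nat_lit 0x22222222222222222222222222222222222222222222222222222222222222222222222222222222222222222222222222222222222222222222222222222222222222222322322222222222323222a222222222232322222222222222324222222222223224222222222222222222d2222222222a222d242222222222222242) (.split (nat_lit 6) (nat_lit 1) .uj (.non (nat_lit 0) (nat_lit 3) (nat_lit 0x5414) (nat_lit 0x10002000100000000000200020000))) (.cons (nat_lit 0x222222222222222222222222222222222222222222222222222222222222222222222222222222222222222222222222222222222222222222222222222222222222222223223222222222223232222222222222232322222222222222324222222222223224222222222222222222d22222222222222d242222222222222242) .uj (.cons (nat_lit 0x22222222222222222222222222222222222222222222222222222222222222222222222222222222222222222222222222222222222222222222222222222222222222222322322222222222323222a222222222232322222222222222324222222222223224222222222222222222d2222222222a222d242222222222222242) (.split (nat_lit 6) (nat_lit 1) .uj (.non (nat_lit 0) (nat_lit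 5) (nat_lit 0x5054) (nat_lit 0x20003000000000001000300040000))) (.skip (.skip (.skip (.skip D3_120))))))))))))

noncomputable def D3_96 : RL := (.cons (nat_lit 0x22222222222222222222222222222222222222222222222222222222222222222222222222222222222222222222222222222222222222222222222222222222222222222b22222222222222b232222222222222232322222222222222325222222222222225222222222222222222d22222222222222d242222222222222242) .uj (.cons (nat_lit 0x22222222222222222222222222222222222222222222222222222222222222222222222222222222222222222222222222222222222222222222222222222222222222222b222aaa22222222b23222a22222222223232222222222222232522222222222222522a222222222a22222d222222222aa22ad2422222222a2222242) (.split (nat_lit 7) (nat_lit 1) (.split (nat_lit 7) (nat_lit 2) (.split (nat_lit 6) (nat_lit 1) (.split (nat_lit 3) (nat_lit 1) (.split (nat_lit 7) (nat_lit 0) .uj (.split (nat_lit 7) (nat_lit 0) (.sup (nat_lit 0x8000a0005) (nat_lit 0x100040007000a0008000000000000)) (.non (nat_lit 2) (nat_lit 4) (nat_lit 0x8009) (nat_lit 0x10000000000000000000000010002))))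 (.non (nat_lit 0) (nat_lit 5) (nat_lit 0x154) (nat_lit 0x10001000100010000))) (.non (nat_lit 0) (nat_lit 4) (nat_lit 0x5414) (nat_lit 0x10002000100000000000200020000))) (.non (nat_lit 0) (nat_lit 4) (nat_lit 0x5414) (nat_lit 0x30002000100000000000400030000))) (.non (nat_lit 0) (nat_lit 4) (nat_lit 0x5414) (nat_lit 0x30002000100000000000300040000))) (.cons (nat_lit 0x22222222222222222222222222222222222222222222222222222222222222222222222222222222222222222222222222222222222222222222222222222222222222222b2222a222222222b232222222222222232322a22222222222325222222222222225222222222222222222d222222222a2a22d242222222222222242) (.split (nat_lit 7) (nat_lit 1) (.split (nat_lit 5) (nat_lit 1) .uj (.non (nat_lit 0) (nat_lit 4) (nat_lit 0x5414) (nat_lit 0x10002000300000000000300040000))) (.non (nat_lit 0) (nat_lit 4) (nat_lit 0x5414) (nat_lit 0x30002000100000000000300040000))) (.cons (nat_lit 0x22222222222222222222222222222222222222222222222222222222222222222222222222222222222222222222222222222222222222222222222222222222222222222b22222222222222b232222222222222232322222222222222325222222222222225222222222222222222d22222222222222d242222222222222242)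 .uj (.cons (nat_lit 0x22222222222222222222222222222222222222222222222222222222222222222222222222222222222222222222222222222222222222222222222222222222222222222b2222a222222222b232222222222222232322222222222222325222222222222225222222222222222222d222222222a2222d242222222222222242) t296 (.cons (nat_lit 0x22222222222222222222222222222222222222222222222222222222222222222222222222222222222222222222222222222222222222222222222222222222222222222b22222222222222b232222222222222232322222222222222325222222222222225222222222222222222d22222222222222d242222222222222242) .uj (.cons (nat_lit 0x22222222222222222222222222222222222222222222222222222222222222222222222222222222222222222222222222222222222222222222222222222222222222222b22222222222222b232222222222222232322222222222222325222222222222225222222222222222222d22222222222222d242222222222222242) .uj (.cons (nat_lit 0x222222222222222222222222222222222222222222222222222222222222222222222222222222222222222222222222222222222222222222222222222222222222222222322aaa2222222222322aaa22222222332322222222222222325222222222222225222222222222aa2222d222222222aa222d2422222222aa222242)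 (.split (nat_lit 7) (nat_lit 0) (.split (nat_lit 7) (nat_lit 1) (.split (nat_lit 7) (nat_lit 2) (.split (nat_lit 6) (nat_lit 0) (.split (nat_lit 6) (nat_lit 1) (.split (nat_lit 6) (nat_lit 2) .uj (.non (nat_lit 0) (nat_lit 3) (nat_lit 0x5414) (nat_lit 0x10003000200000000000400030000))) (.non (nat_lit 0) (nat_lit 3) (nat_lit 0x5414) (nat_lit 0x10003000200000000000300040000))) (.non (nat_lit 2) (nat_lit 3) (nat_lit 0x5509) (nat_lit 0x10002000200010000000000010002))) (.non (nat_lit 0) (nat_lit 3) (nat_lit 0x5414) (nat_lit 0x30001000200000000000400030000))) (.non (nat_lit 0) (nat_lit 3) (nat_lit 0x5414) (nat_lit 0x30001000200000000000300040000))) (.non (nat_lit 2) (nat_lit 3) (nat_lit 0x5509) (nat_lit 0x20001000200010000000000010002))) (.cons (nat_lit 0x2222222222222222222222222222222222222222222222222222222222222222222222222222222222222222222222222222222222222222222222222222222222222222223222a222222222223222a2222222223323222222222222223252a2222222222225222222222222222222d222222222aa2a2d242222222222222242) (.split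 (nat_lit 7) (nat_lit 1) (.split (nat_lit 6) (nat_lit 1) (.split (nat_lit 4) (nat_lit 1) .uj (.non (nat_lit 0) (nat_lit 3) (nat_lit 0x4514) (nat_lit 0x10000000200030000000300040000))) (.non (nat_lit 0) (nat_lit 3) (nat_lit 0x5414) (nat_lit 0x10003000200000000000300040000))) (.non (nat_lit 0) (nat_lit 3) (nat_lit 0x5414) (nat_lit 0x30001000200000000000300040000))) (.cons (nat_lit 0x222222222222222222222222222222222222222222222222222222222222222222222222222222222222222222222222222222222222222222222222222222222222222222322222222222222232222222222222332322222222222222325222222222222225222222222222222222d22222222222222d242222222222222242) .uj (.cons (nat_lit 0x2222222222222222222222222222222222222222222222222222222222222222222222222222222222222222222222222222222222222222222222222222222222222222223222a222222222223222a22222222233232222222222222232522222222222222522a222222222222222d222222222aa22ad242222222222222242) (.split (nat_lit 7) (nat_lit 1) (.split (nat_lit 6) (nat_lit 1) (.split (nat_lit 3) (nat_lit 1) .uj (.non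 (nat_lit 0) (nat_lit 5) (nat_lit 0x154) (nat_lit 0x10001000100010000))) (.non (nat_lit 0) (nat_lit 4) (nat_lit 0x5414) (nat_lit 0x10003000200000000000300040000))) (.non (nat_lit 0) (nat_lit 4) (nat_lit 0x5414) (nat_lit 0x30001000200000000000300040000))) (.cons (nat_lit 0x222222222222222222222222222222222222222222222222222222222222222222222222222222222222222222222222222222222222222222222222222222222222222222322222222222222232222222222222332322222222222222325222222222222225222222222222222222d22222222222222d242222222222222242) .uj D3_108))))))))))))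

noncomputable def D3_84 : RL := (.cons (nat_lit 0x2222222222222222222222222222222222222222222222222222222222222222222222222222222222222222222222222222222222222222222222222222222222222222222222222222222222c22222222222222c2322222222222222325222222222222225222222222222222222d22222222222222d242222222222222242) .uj (.cons (nat_lit 0x22222222222222222222222222222222222222222222222222222222222222222222222222222222222222222222222222222222222222222222222222222222222222222222222222222222222322a222222222222322a22222222223325222222222222225222222222222222222d2222222222aa22d242222222222222242) (.split (nat_lit 6) (nat_lit 1) (.split (nat_lit 5) (nat_lit 1) .uj (.non (nat_lit 0) (nat_lit 3) (nat_lit 0x1514) (nat_lit 0x1000300020000000300040000))) (.non (nat_lit 0) (nat_lit 3) (nat_lit 0x1514) (nat_lit 0x3000100020000000300040000))) (.cons (nat_lit 0x2222222222222222222222222222222222222222222222222222222222222222222222222222222222222222222222222222222222222222222222222222222222222222222222222222222222232aaa222222222223222222222222233252222222222222252222222222222a2222d2222222222a222d24222222222a222242)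 (.split (nat_lit 6) (nat_lit 0) (.split (nat_lit 6) (nat_lit 1) (.split (nat_lit 6) (nat_lit 2) .uj (.non (nat_lit 0) (nat_lit 3) (nat_lit 0x1514) (nat_lit 0x3000100020000000400030000))) (.non (nat_lit 0) (nat_lit 3) (nat_lit 0x1514) (nat_lit 0x3000100020000000300040000))) (.non (nat_lit 2) (nat_lit 5) (nat_lit 0x1145) (nat_lit 0x1000000010001000000010001))) (.cons (nat_lit 0x22222222222222222222222222222222222222222222222222222222222222222222222222222222222222222222222222222222222222222222222222222222222222222222222222222222222322a222222222222322222222222223325222222222222225222222222222222222d2222222222a222d242222222222222242) (.split (nat_lit 6) (nat_lit 1) .uj (.non (nat_lit 0) (nat_lit 5) (nat_lit 0x1154) (nat_lit 0x1000000010001000100010000))) (.cons (nat_lit 0x222222222222222222222222222222222222222222222222222222222222222222222222222222222222222222222222222222222222222222222222222222222222222222222222222222222223222222222222222322222222222223325222222222222225222222222222222222d22222222222222d242222222222222242)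 .uj (.cons (nat_lit 0x2222222222222222222222222222222222222222222222222222222222222222222222222222222222222222222222222222222222222222222222222222222222222222222222222222222222b232a2222222222b2322a2222222222232c22222222222232c222222222222222222d2222222222aa22d242222222222222242) (.split (nat_lit 6) (nat_lit 1) (.split (nat_lit 5) (nat_lit 1) .uj (.non (nat_lit 0) (nat_lit 3) (nat_lit 0x1514) (nat_lit 0x1000200010000000200020000))) (.non (nat_lit 0) (nat_lit 3) (nat_lit 0x1514) (nat_lit 0x3000200010000000300040000))) (.cons (nat_lit 0x2222222222222222222222222222222222222222222222222222222222222222222222222222222222222222222222222222222222222222222222222222222222222222222222222222222222b232a2222222222b232222222222222232c2a222222222232c222222222222222222d2222222222a2a2d242222222222222242) (.split (nat_lit 6) (nat_lit 1) (.split (nat_lit 4) (nat_lit 1) .uj (.non (nat_lit 0) (nat_lit 3) (nat_lit 0x1514) (nat_lit 0x1000200030000000300040000))) (.non (nat_lit 0) (nat_lit 3) (nat_lit 0x1514) (nat_lit 0x3000200010000000300040000)))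 (.cons (nat_lit 0x2222222222222222222222222222222222222222222222222222222222222222222222222222222222222222222222222222222222222222222222222222222222222222222222222222222222b23222222222222b2322a2222222222232c22222222222232c222222222222222222d22222222222a22d242222222222222242) (.split (nat_lit 5) (nat_lit 1) .uj (.non (nat_lit 0) (nat_lit 3) (nat_lit 0x1514) (nat_lit 0x1000200010000000200020000))) (.cons (nat_lit 0x2222222222222222222222222222222222222222222222222222222222222222222222222222222222222222222222222222222222222222222222222222222222222222222222222222222222b23222222222222b232222222222222232c22222222222232c222222222222222222d22222222222222d242222222222222242) .uj (.cons (nat_lit 0x22222222222222222222222222222222222222222222222222222222222222222222222222222222222222222222222222222222222222222222222222222222222222222b222aaa22222222b2322aaa22222222232322a22222222222325222222222222225222222222222aa2222d222222222aaa22d2422222222aa222242) (.split (nat_lit 7) (nat_lit 1) (.split (nat_lit 7) (nat_lit 2) (.split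 (nat_lit 6) (nat_lit 0) (.split (nat_lit 6) (nat_lit 1) (.split (nat_lit 6) (nat_lit 2) (.split (nat_lit 5) (nat_lit 1) (.split (nat_lit 7) (nat_lit 0) .uj (.split (nat_lit 7) (nat_lit 0) (.sup (nat_lit 0x8000a0005) (nat_lit 0x100040007000a0008000000000000)) (.non (nat_lit 2) (nat_lit 3) (nat_lit 0x8009) (nat_lit 0x10000000000000000000000010002)))) (.non (nat_lit 0) (nat_lit 3) (nat_lit 0x5414) (nat_lit 0x10002000300000000000300040000))) (.non (nat_lit 0) (nat_lit 3) (nat_lit 0x5414) (nat_lit 0x10002000100000000000200020000))) (.non (nat_lit 0) (nat_lit 3) (nat_lit 0x5414) (nat_lit 0x10002000100000000000200020000))) (.non (nat_lit 2) (nat_lit 3) (nat_lit 0x5409) (nat_lit 0x10002000100000000000000010002))) (.non (nat_lit 0) (nat_lit 3) (nat_lit 0x5414) (nat_lit 0x30002000100000000000400030000))) (.non (nat_lit 0) (nat_lit 3) (nat_lit 0x5414) (nat_lit 0x30002000100000000000300040000))) (.cons (nat_lit 0x22222222222222222222222222222222222222222222222222222222222222222222222222222222222222222222222222222222222222222222222222222222222222222b222aaa22222222b23222a2222222222323222222222222223252a2222222222225222222222222a22222d222222222aa2a2d2422222222a2222242)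 (.split (nat_lit 7) (nat_lit 1) (.split (nat_lit 7) (nat_lit 2) (.split (nat_lit 6) (nat_lit 1) (.split (nat_lit 4) (nat_lit 1) (.split (nat_lit 7) (nat_lit 0) .uj (.split (nat_lit 7) (nat_lit 0) (.sup (nat_lit 0x8000a0005) (nat_lit 0x100040007000a0008000000000000)) (.non (nat_lit 2) (nat_lit 3) (nat_lit 0x8009) (nat_lit 0x10000000000000000000000010002)))) (.non (nat_lit 0) (nat_lit 3) (nat_lit 0x1514) (nat_lit 0x1000200030000000300040000))) (.non (nat_lit 0) (nat_lit 3) (nat_lit 0x5414) (nat_lit 0x10002000100000000000200020000))) (.non (nat_lit 0) (nat_lit 3) (nat_lit 0x5414) (nat_lit 0x30002000100000000000400030000))) (.non (nat_lit 0) (nat_lit 3) (nat_lit 0x5414) (nat_lit 0x30002000100000000000300040000))) (.cons (nat_lit 0x22222222222222222222222222222222222222222222222222222222222222222222222222222222222222222222222222222222222222222222222222222222222222222b2222a222222222b232222222222222232322a22222222222325222222222222225222222222222222222d222222222a2a22d242222222222222242) (.split (nat_lit 7) (nat_lit 1)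 (.split (nat_lit 5) (nat_lit 1) .uj (.non (nat_lit 0) (nat_lit 3) (nat_lit 0x5414) (nat_lit 0x10002000300000000000300040000))) (.non (nat_lit 0) (nat_lit 3) (nat_lit 0x5414) (nat_lit 0x30002000100000000000300040000))) D3_96))))))))))))

noncomputable def D3_72 : RL := (.cons (nat_lit 0x222222222222222222222222222222222222222222222222222222222222222222222222222222222222222222222222222222222222222222222222222222222222222222222222222222222222222222222222222d22222222222222d2d2a222222222222d222222222222222222d222222222222a2d242222222222222242) (.split (nat_lit 4) (nat_lit 1) .uj (.non (nat_lit 0) (nat_lit 3) (nat_lit 0x514) (nat_lit 0x100010000000100010000))) (.cons (nat_lit 0x222222222222222222222222222222222222222222222222222222222222222222222222222222222222222222222222222222222222222222222222222222222222222222222222222222222222222222222222222bc2a22222222222b2b2222222222222cb222222222222222222d22222222222a22d242222222222222242) (.split (nat_lit 5) (nat_lit 1) .uj (.non (nat_lit 0) (nat_lit 4) (nat_lit 0x454) (nat_lit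 0x100000001000100010000))) (.cons (nat_lit 0x222222222222222222222222222222222222222222222222222222222222222222222222222222222222222222222222222222222222222222222222222222222222222222222222222222222222222222222222222bc2222222222222b2b2a22222222222cb222222222222222222d222222222222a2d242222222222222242) (.split (nat_lit 4) (nat_lit 1) .uj (.st (nat_lit 0) (nat_lit 2) (nat_lit 3) (nat_lit 0xa09) (nat_lit 0x100020000000000030004) (nat_lit 1) (nat_lit 2) (.st (nat_lit 2) (nat_lit 0) (nat_lit 3) (nat_lit 0x114) (nat_lit 0x10000000200020000) (nat_lit 1) (nat_lit 1) (.pd (.cons (nat_lit 1) (nat_lit 3) (nat_lit 0x110000) (nat_lit 0x450200) (nat_lit 0x10000100000f423f00000f423f) (.cons (nat_lit 1) (nat_lit 5) (nat_lit 0x11000) (nat_lit 0x34200) (nat_lit 0x100001f423f00000f423f) .nil)) (.st (nat_lit 3) (nat_lit 0) (nat_lit 5) (nat_lit 0x154) (nat_lit 0x30002000300040000) (nat_lit 1) (nat_lit 1) (.st (nat_lit 5) (nat_lit 0) (nat_lit 3) (nat_lit 0x514) (nat_lit 0x200030000000300040000) (nat_lit 1) (nat_lit 1) (.pd (.cons (nat_lit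 0) (nat_lit 4) (nat_lit 0x101110) (nat_lit 0x305120) (nat_lit 0x10000000001000010000100000) (.cons (nat_lit 1) (nat_lit 4) (nat_lit 0x101000) (nat_lit 0x305200) (nat_lit 0x10000000001f423f00000f423f) (.cons (nat_lit 2) (nat_lit 4) (nat_lit 0x101000) (nat_lit 0x305000) (nat_lit 0x1000000000100000f423f7a11e) .nil))) (.leaf .nil .nil)))))))) (.cons (nat_lit 0x2222222222222222222222222222222222222222222222222222222222222222222222222222222222222222222222222222222222222222222222222222222222222222222222222222222222322aaa222222222325222222222222225232222222222222232222222222222a2222d2222222222a222d24222222222a222242) (.split (nat_lit 6) (nat_lit 0) (.split (nat_lit 6) (nat_lit 1) (.split (nat_lit 6) (nat_lit 2) .uj (.non (nat_lit 0) (nat_lit 3) (nat_lit 0x1514) (nat_lit 0x1000100010000000100010000))) (.non (nat_lit 0) (nat_lit 3) (nat_lit 0x1514) (nat_lit 0x1000100010000000100010000))) (.non (nat_lit 2) (nat_lit 3) (nat_lit 0x1505) (nat_lit 0x1000100010000000000010001))) (.cons (nat_lit 0x22222222222222222222222222222222222222222222222222222222222222222222222222222222222222222222222222222222222222222222222222222222222222222222222222222222223222a222222222232522222222222222523222222222222223222222222222222222d2222222222a222d242222222222222242)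 (.split (nat_lit 6) (nat_lit 1) .uj (.non (nat_lit 0) (nat_lit 3) (nat_lit 0x1514) (nat_lit 0x1000100010000000100010000))) (.cons (nat_lit 0x222222222222222222222222222222222222222222222222222222222222222222222222222222222222222222222222222222222222222222222222222222222222222222222222222222222232222222222222232522222222222222523222222222222223222222222222222222d22222222222222d242222222222222242) .uj (.cons (nat_lit 0x22222222222222222222222222222222222222222222222222222222222222222222222222222222222222222222222222222222222222222222222222222222222222222222222222222222223222a22222222223252222222222222252322222222222222322a222222222222222d2222222222a22ad242222222222222242) t274 (.cons (nat_lit 0x2222222222222222222222222222222222222222222222222222222222222222222222222222222222222222222222222222222222222222222222222222222222222222222222222222222222c22aaa222222222c23222222222222223252222222222222252222222222222a2222d2222222222a222d24222222222a222242) (.split (nat_lit 6) (nat_lit 0) (.split (nat_lit 6) (nat_lit 1) (.split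 (nat_lit 6) (nat_lit 2) .uj (.non (nat_lit 0) (nat_lit 3) (nat_lit 0x1414) (nat_lit 0x1000100000000000100010000))) (.non (nat_lit 0) (nat_lit 3) (nat_lit 0x1414) (nat_lit 0x1000100000000000100010000))) (.non (nat_lit 2) (nat_lit 3) (nat_lit 0x1809) (nat_lit 0x2000100000000000000010002))) (.cons (nat_lit 0x2222222222222222222222222222222222222222222222222222222222222222222222222222222222222222222222222222222222222222222222222222222222222222222222222222222222c222a2222222222c23222222222222223252a2222222222225222222222222222222d2222222222a2a2d242222222222222242) (.split (nat_lit 6) (nat_lit 1) (.split (nat_lit 4) (nat_lit 1) .uj (.non (nat_lit 0) (nat_lit 3) (nat_lit 0x1514) (nat_lit 0x1000100010000000100010000))) (.non (nat_lit 0) (nat_lit 3) (nat_lit 0x1414) (nat_lit 0x1000100000000000100010000))) (.cons (nat_lit 0x2222222222222222222222222222222222222222222222222222222222222222222222222222222222222222222222222222222222222222222222222222222222222222222222222222222222c22222222222222c2322222222222222325222222222222225222222222222222222d22222222222222d242222222222222242)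 .uj (.cons (nat_lit 0x2222222222222222222222222222222222222222222222222222222222222222222222222222222222222222222222222222222222222222222222222222222222222222222222222222222222c222a2222222222c232222222222222232522222222222222522a222222222222222d2222222222a22ad242222222222222242) (.split (nat_lit 6) (nat_lit 1) (.split (nat_lit 3) (nat_lit 1) .uj (.non (nat_lit 0) (nat_lit 5) (nat_lit 0x154) (nat_lit 0x10001000100010000))) (.non (nat_lit 0) (nat_lit 4) (nat_lit 0x1414) (nat_lit 0x1000100000000000100010000))) (.cons (nat_lit 0x2222222222222222222222222222222222222222222222222222222222222222222222222222222222222222222222222222222222222222222222222222222222222222222222222222222222c22222222222222c2322a22222222222325222222222222225222222222222222222d22222222222a22d242222222222222242) (.split (nat_lit 5) (nat_lit 1) .uj (.non (nat_lit 0) (nat_lit 4) (nat_lit 0x1414) (nat_lit 0x1000100000000000100010000))) D3_84))))))))))))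

noncomputable def D3_60 : RL := (.cons (nat_lit 0x222222222222222222222222222222222222222222222222222222222222222222222222222222222222222222222222222222222222222222222222222222222222222223223222222222223232222222222222232322222222222222324222222222223224222222222222222222d22222222222222d242222222222222242) .uj (.cons (nat_lit 0x2222222222222222222222222222222222222222222222222222222222222222222222222222222222222222222222222222222222222222222222222222222222222222232232222222222232322a22222222222323222222222222223242222222222232242222222222222a2222d22222222222222d242222222222222242) (.split (nat_lit 6) (nat_lit 2) .uj (.non (nat_lit 0) (nat_lit 3) (nat_lit 0x5414) (nat_lit 0x10002000100000000000200020000))) (.cons (nat_lit 0x222222222222222222222222222222222222222222222222222222222222222222222222222222222222222222222222222222222222222222222222222222222222222223223222222222223232222222222222232322222222222222324222222222223224222222222222222222d22222222222222d242222222222222242) .uj (.cons (nat_lit 0x2222222222222222222222222222222222222222222222222222222222222222222222222222222222222222222222222222222222222222222222222222222222222222232232222222222232322a22222222222323222222222222223242222222222232242222222222222a2222d22222222222222d242222222222222242)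 (.split (nat_lit 6) (nat_lit 2) .uj (.non (nat_lit 0) (nat_lit 5) (nat_lit 0x5054) (nat_lit 0x20003000000000001000400030000))) (.skip (.skip (.skip (.skip (.skip (.cons (nat_lit 0x222222222222222222222222222222222222222222222222222222222222222222222222222222222222222222222222222222222222222222222222222222222222222222222222222222222222222222222222222d22222222222222d242a2222222222224222222222222222222d222222222222a2d242222222222222242) (.split (nat_lit 4) (nat_lit 1) .uj (.non (nat_lit 0) (nat_lit 3) (nat_lit 0x514) (nat_lit 0x100010000000100010000))) (.cons (nat_lit 0x222222222222222222222222222222222222222222222222222222222222222222222222222222222222222222222222222222222222222222222222222222222222222222222222222222222222222222222222222d22222222222222d2422222222222222422a222222222222222d2222222222222ad242222222222222242) (.split (nat_lit 3) (nat_lit 1) .uj (.non (nat_lit 0) (nat_lit 5) (nat_lit 0x154) (nat_lit 0x10001000100010000))) (.cons (nat_lit 0x222222222222222222222222222222222222222222222222222222222222222222222222222222222222222222222222222222222222222222222222222222222222222222222222222222222222222222222222222d22a22222222222d2d22222222222222d222222222222222222d22222222222a22d242222222222222242)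 (.split (nat_lit 5) (nat_lit 1) .uj (.non (nat_lit 0) (nat_lit 3) (nat_lit 0x514) (nat_lit 0x100010000000100010000))) D3_72))))))))))))

noncomputable def D3_48 : RL := (.cons (nat_lit 0x22222222222222222222222222222222222222222222222222222222222222222222222222222222222222222222222222222222222222222222222222222222222222222b222a2222222222b232222222222222232322222222222222325222222222222225222222222222a22222d22222222222222d242222222222222242) (.split (nat_lit 7) (nat_lit 2) .uj (.split (nat_lit 7) (nat_lit 2) (.sup (nat_lit 0x6000a0007) (nat_lit 0x100040007000a0008000000000000)) (.non (nat_lit 0) (nat_lit 5) (nat_lit 0x4014) (nat_lit 0x10000000000000000000100010000)))) (.cons (nat_lit 0x22222222222222222222222222222222222222222222222222222222222222222222222222222222222222222222222222222222222222222222222222222222222222222b22222222222222b232222222222222232322222222222222325222222222222225222222222222222222d22222222222222d242222222222222242) .uj (.cons (nat_lit 0x22222222222222222222222222222222222222222222222222222222222222222222222222222222222222222222222222222222222222222222222222222222222222222b22222222222222b232222222222222232322222222222222325222222222222225222222222222222222d22222222222222d242222222222222242)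 .uj (.cons (nat_lit 0x222222222222222222222222222222222222222222222222222222222222222222222222222222222222222222222222222222222222222222222222222222222222222222322aaa2222222222322aaa22222222332322222222222222325222222222222225222222222222aa2222d222222222aa222d2422222222aa222242) (.split (nat_lit 7) (nat_lit 1) (.split (nat_lit 7) (nat_lit 2) (.split (nat_lit 6) (nat_lit 1) (.split (nat_lit 6) (nat_lit 2) (.split (nat_lit 7) (nat_lit 0) (.split (nat_lit 6) (nat_lit 0) .uj (.sup (nat_lit 0x8000a0005) (nat_lit 0x300010007000a0008000000000000))) (.split (nat_lit 6) (nat_lit 0) (.sup (nat_lit 0x8000a0005) (nat_lit 0x100030007000a0008000000000000)) (.non (nat_lit 1) (nat_lit 3) (nat_lit 0x5401) (nat_lit 0x10001000100000000000000000001)))) (.non (nat_lit 0) (nat_lit 3) (nat_lit 0x5414) (nat_lit 0x10003000200000000000400030000))) (.non (nat_lit 0) (nat_lit 3) (nat_lit 0x5414) (nat_lit 0x10003000200000000000300040000))) (.non (nat_lit 0) (nat_lit 3) (nat_lit 0x5414) (nat_lit 0x30001000200000000000400030000))) (.non (nat_lit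 0) (nat_lit 3) (nat_lit 0x5414) (nat_lit 0x30001000200000000000300040000))) (.cons (nat_lit 0x222222222222222222222222222222222222222222222222222222222222222222222222222222222222222222222222222222222222222222222222222222222222222222322a222222222222322a2222222222332322222222222222325a22222222222225222222222222aa2a22d22222222222222d242222222222222242) (.split (nat_lit 7) (nat_lit 2) (.split (nat_lit 6) (nat_lit 2) (.split (nat_lit 4) (nat_lit 2) .uj (.non (nat_lit 0) (nat_lit 3) (nat_lit 0x4514) (nat_lit 0x10000000200030000000400030000))) (.non (nat_lit 0) (nat_lit 3) (nat_lit 0x5414) (nat_lit 0x10003000200000000000400030000))) (.non (nat_lit 0) (nat_lit 3) (nat_lit 0x5414) (nat_lit 0x30001000200000000000400030000))) (.cons (nat_lit 0x222222222222222222222222222222222222222222222222222222222222222222222222222222222222222222222222222222222222222222222222222222222222222222322222222222222232222222222222332322222222222222325222222222222225222222222222222222d22222222222222d242222222222222242) .uj (.cons (nat_lit 0x222222222222222222222222222222222222222222222222222222222222222222222222222222222222222222222222222222222222222222222222222222222222222222322a222222222222322a22222222223323222222222222223252222222222222252a2222222222aa22a2d22222222222222d242222222222222242)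 (.split (nat_lit 7) (nat_lit 2) (.split (nat_lit 6) (nat_lit 2) (.split (nat_lit 3) (nat_lit 2) .uj (.non (nat_lit 0) (nat_lit 5) (nat_lit 0x154) (nat_lit 0x10001000100010000))) (.non (nat_lit 0) (nat_lit 4) (nat_lit 0x5414) (nat_lit 0x10003000200000000000400030000))) (.non (nat_lit 0) (nat_lit 4) (nat_lit 0x5414) (nat_lit 0x30001000200000000000400030000))) (.cons (nat_lit 0x222222222222222222222222222222222222222222222222222222222222222222222222222222222222222222222222222222222222222222222222222222222222222222322222222222222232222222222222332322222222222222325222222222222225222222222222222222d22222222222222d242222222222222242) .uj (.cons (nat_lit 0x222222222222222222222222222222222222222222222222222222222222222222222222222222222222222222222222222222222222222222222222222222222222222222322222222222222232222222222222332322222222222222325222222222222225222222222222222222d22222222222222d242222222222222242) .uj (.cons (nat_lit 0x222222222222222222222222222222222222222222222222222222222222222222222222222222222222222222222222222222222222222222222222222222222222222222322222222222222232222222222222332322222222222222325222222222222225222222222222222222d22222222222222d242222222222222242)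 .uj (.cons (nat_lit 0x222222222222222222222222222222222222222222222222222222222222222222222222222222222222222222222222222222222222222222222222222222222222222223223a222222222232322aaa2222222223232a222222222222324222222222223224222222222222aaa222d2222222222a222d24222222222a222242) (.split (nat_lit 7) (nat_lit 2) (.split (nat_lit 6) (nat_lit 1) (.split (nat_lit 6) (nat_lit 2) (.split (nat_lit 5) (nat_lit 2) (.split (nat_lit 6) (nat_lit 0) .uj (.sup (nat_lit 0x8000a0005) (nat_lit 0x600020006000a000a000000000000))) (.non (nat_lit 0) (nat_lit 3) (nat_lit 0x5414) (nat_lit 0x10002000300000000000400030000))) (.non (nat_lit 0) (nat_lit 3) (nat_lit 0x5414) (nat_lit 0x10002000100000000000200020000))) (.non (nat_lit 0) (nat_lit 3) (nat_lit 0x5414) (nat_lit 0x10002000100000000000200020000))) (.non (nat_lit 0) (nat_lit 3) (nat_lit 0x5414) (nat_lit 0x30002000100000000000400030000))) (.cons (nat_lit 0x2222222222222222222222222222222222222222222222222222222222222222222222222222222222222222222222222222222222222222222222222222222222222222232232222222222232322a22222222222323222222222222223242222222222232242222222222222a2222d22222222222222d242222222222222242)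 (.split (nat_lit 6) (nat_lit 2) .uj (.non (nat_lit 0) (nat_lit 3) (nat_lit 0x5414) (nat_lit 0x10002000100000000000200020000))) D3_60))))))))))))

noncomputable def D3_36 : RL := (.cons (nat_lit 0x222222222222222222222222222222222222222222222222222222222222222222222222222222222222222222222222222222222222222222222222222222222222222222222222222222222223222222222222222322222222222223325222222222222225222222222222222222d22222222222222d242222222222222242) .uj (.cons (nat_lit 0x2222222222222222222222222222222222222222222222222222222222222222222222222222222222222222222222222222222222222222222222222222222222222222222222222222222222b23a22222222222b232a22222222222232c22222222222232c2222222222222aa222d22222222222222d242222222222222242) (.split (nat_lit 6) (nat_lit 2) (.split (nat_lit 5) (nat_lit 2) .uj (.non (nat_lit 0) (nat_lit 3) (nat_lit 0x1514) (nat_lit 0x1000200010000000200020000))) (.non (nat_lit 0) (nat_lit 3) (nat_lit 0x1514) (nat_lit 0x3000200010000000400030000))) (.cons (nat_lit 0x2222222222222222222222222222222222222222222222222222222222222222222222222222222222222222222222222222222222222222222222222222222222222222222222222222222222b23a22222222222b232222222222222232ca2222222222232c2222222222222a2a22d22222222222222d242222222222222242)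 (.split (nat_lit 6) (nat_lit 2) (.split (nat_lit 4) (nat_lit 2) .uj (.non (nat_lit 0) (nat_lit 3) (nat_lit 0x1514) (nat_lit 0x1000200030000000400030000))) (.non (nat_lit 0) (nat_lit 3) (nat_lit 0x1514) (nat_lit 0x3000200010000000400030000))) (.cons (nat_lit 0x2222222222222222222222222222222222222222222222222222222222222222222222222222222222222222222222222222222222222222222222222222222222222222222222222222222222b23222222222222b232a22222222222232c22222222222232c22222222222222a222d22222222222222d242222222222222242) (.split (nat_lit 5) (nat_lit 2) .uj (.non (nat_lit 0) (nat_lit 3) (nat_lit 0x1514) (nat_lit 0x1000200010000000200020000))) (.cons (nat_lit 0x2222222222222222222222222222222222222222222222222222222222222222222222222222222222222222222222222222222222222222222222222222222222222222222222222222222222b23222222222222b232222222222222232c22222222222232c222222222222222222d22222222222222d242222222222222242) .uj (.cons (nat_lit 0x22222222222222222222222222222222222222222222222222222222222222222222222222222222222222222222222222222222222222222222222222222222222222222b222aaa22222222b2322aaa2222222223232a222222222222325222222222222225222222222222aaa222d222222222aa222d2422222222aa222242)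 t237 (.cons (nat_lit 0x22222222222222222222222222222222222222222222222222222222222222222222222222222222222222222222222222222222222222222222222222222222222222222b222aaa22222222b2322a2222222222232322222222222222325a22222222222225222222222222aa2a22d222222222a2222d2422222222a2222242) (.split (nat_lit 7) (nat_lit 1) (.split (nat_lit 7) (nat_lit 2) (.split (nat_lit 6) (nat_lit 2) (.split (nat_lit 4) (nat_lit 2) (.split (nat_lit 7) (nat_lit 0) .uj (.split (nat_lit 7) (nat_lit 0) (.sup (nat_lit 0x8000a0005) (nat_lit 0x100040007000a0008000000000000)) (.split (nat_lit 7) (nat_lit 0) (.sup (nat_lit 0x8000a0005) (nat_lit 0x100040007000a0008000000000000)) (.non (nat_lit 1) (nat_lit 3) (nat_lit 0x5501) (nat_lit 0x40003000200010000000000000003))))) (.non (nat_lit 0) (nat_lit 3) (nat_lit 0x1514) (nat_lit 0x1000200030000000400030000))) (.non (nat_lit 0) (nat_lit 3) (nat_lit 0x5414) (nat_lit 0x10002000100000000000200020000))) (.non (nat_lit 0) (nat_lit 3) (nat_lit 0x5414) (nat_lit 0x30002000100000000000400030000))) (.non (nat_lit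 0) (nat_lit 3) (nat_lit 0x5414) (nat_lit 0x30002000100000000000300040000))) (.cons (nat_lit 0x22222222222222222222222222222222222222222222222222222222222222222222222222222222222222222222222222222222222222222222222222222222222222222b222a2222222222b23222222222222223232a222222222222325222222222222225222222222222a2a222d22222222222222d242222222222222242) (.split (nat_lit 7) (nat_lit 2) (.split (nat_lit 5) (nat_lit 2) .uj (.non (nat_lit 0) (nat_lit 3) (nat_lit 0x5414) (nat_lit 0x10002000300000000000400030000))) (.non (nat_lit 0) (nat_lit 3) (nat_lit 0x5414) (nat_lit 0x30002000100000000000400030000))) (.cons (nat_lit 0x22222222222222222222222222222222222222222222222222222222222222222222222222222222222222222222222222222222222222222222222222222222222222222b22222222222222b232222222222222232322222222222222325222222222222225222222222222222222d22222222222222d242222222222222242) .uj (.cons (nat_lit 0x22222222222222222222222222222222222222222222222222222222222222222222222222222222222222222222222222222222222222222222222222222222222222222b222aaa22222222b2322a22222222222323222222222222223252222222222222252a2222222222aa22a2d222222222a2222d2422222222a2222242)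 (.split (nat_lit 7) (nat_lit 1) (.split (nat_lit 7) (nat_lit 2) (.split (nat_lit 6) (nat_lit 2) (.split (nat_lit 3) (nat_lit 2) (.split (nat_lit 7) (nat_lit 0) .uj (.split (nat_lit 7) (nat_lit 0) (.sup (nat_lit 0x8000a0005) (nat_lit 0x100040007000a0008000000000000)) (.split (nat_lit 7) (nat_lit 0) (.sup (nat_lit 0x8000a0005) (nat_lit 0x100040007000a0008000000000000)) (.split (nat_lit 7) (nat_lit 0) (.sup (nat_lit 0x2000280014) (nat_lit 0x3000f001c00280020000000000000)) (.non (nat_lit 1) (nat_lit 4) (nat_lit 0xf001) (nat_lit 0x20001000000000000000000000003)))))) (.non (nat_lit 0) (nat_lit 5) (nat_lit 0x154) (nat_lit 0x10001000100010000))) (.non (nat_lit 0) (nat_lit 4) (nat_lit 0x5414) (nat_lit 0x10002000100000000000200020000))) (.non (nat_lit 0) (nat_lit 4) (nat_lit 0x5414) (nat_lit 0x30002000100000000000400030000))) (.non (nat_lit 0) (nat_lit 4) (nat_lit 0x5414) (nat_lit 0x30002000100000000000300040000))) (.cons (nat_lit 0x22222222222222222222222222222222222222222222222222222222222222222222222222222222222222222222222222222222222222222222222222222222222222222b222a2222222222b23222222222222223232a222222222222325222222222222225222222222222a2a222d22222222222222d242222222222222242)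 (.split (nat_lit 7) (nat_lit 2) (.split (nat_lit 5) (nat_lit 2) .uj (.non (nat_lit 0) (nat_lit 4) (nat_lit 0x5414) (nat_lit 0x10002000300000000000400030000))) (.non (nat_lit 0) (nat_lit 4) (nat_lit 0x5414) (nat_lit 0x30002000100000000000400030000))) (.cons (nat_lit 0x22222222222222222222222222222222222222222222222222222222222222222222222222222222222222222222222222222222222222222222222222222222222222222b22222222222222b232222222222222232322222222222222325222222222222225222222222222222222d22222222222222d242222222222222242) .uj D3_48))))))))))))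

noncomputable def D3_24 : RL := (.cons (nat_lit 0x2222222222222222222222222222222222222222222222222222222222222222222222222222222222222222222222222222222222222222222222222222222222222222222222222222222222322a22222222222325222222222222225232222222222222232222222222222a2222d22222222222222d242222222222222242) (.split (nat_lit 6) (nat_lit 2) .uj (.non (nat_lit 0) (nat_lit 3) (nat_lit 0x1514) (nat_lit 0x1000100010000000100010000))) (.cons (nat_lit 0x222222222222222222222222222222222222222222222222222222222222222222222222222222222222222222222222222222222222222222222222222222222222222222222222222222222232222222222222232522222222222222523222222222222223222222222222222222d22222222222222d242222222222222242) .uj (.cons (nat_lit 0x2222222222222222222222222222222222222222222222222222222222222222222222222222222222222222222222222222222222222222222222222222222222222222222222222222222222322a22222222222325222222222222225232222222222222232a22222222222a22a2d22222222222222d242222222222222242) (.split (nat_lit 6) (nat_lit 2) (.split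 (nat_lit 3) (nat_lit 2) .uj (.split (nat_lit 3) (nat_lit 2) (.sup (nat_lit 0x6000a0007) (nat_lit 0x5000a00090002000000000000)) (.non (nat_lit 0) (nat_lit 4) (nat_lit 0x54) (nat_lit 0x1000100010000)))) (.split (nat_lit 3) (nat_lit 2) (.split (nat_lit 6) (nat_lit 2) (.sup (nat_lit 0x6000a0007) (nat_lit 0x20009000a0005000000000000)) (.non (nat_lit 0) (nat_lit 4) (nat_lit 0x1014) (nat_lit 0x1000000000000000100010000))) (.non (nat_lit 0) (nat_lit 4) (nat_lit 0x1054) (nat_lit 0x1000000000001000200020000)))) (.cons (nat_lit 0x2222222222222222222222222222222222222222222222222222222222222222222222222222222222222222222222222222222222222222222222222222222222222222222222222222222222c22aaa222222222c23222222222222223252222222222222252222222222222a2222d2222222222a222d24222222222a222242) (.split (nat_lit 6) (nat_lit 1) (.split (nat_lit 6) (nat_lit 2) (.split (nat_lit 6) (nat_lit 0) .uj (.split (nat_lit 6) (nat_lit 0) (.sup (nat_lit 0x8000a0005) (nat_lit 0x30007000a0008000000000000)) (.non (nat_lit 1) (nat_lit 3) (nat_lit 0x2401)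 (nat_lit 0x1000100000000000000000001)))) (.non (nat_lit 0) (nat_lit 3) (nat_lit 0x1414) (nat_lit 0x1000100000000000100010000))) (.non (nat_lit 0) (nat_lit 3) (nat_lit 0x1414) (nat_lit 0x1000100000000000100010000))) (.cons (nat_lit 0x2222222222222222222222222222222222222222222222222222222222222222222222222222222222222222222222222222222222222222222222222222222222222222222222222222222222c22a22222222222c2322222222222222325a222222222222252222222222222a2a22d22222222222222d242222222222222242) (.split (nat_lit 6) (nat_lit 2) (.split (nat_lit 4) (nat_lit 2) .uj (.non (nat_lit 0) (nat_lit 3) (nat_lit 0x1514) (nat_lit 0x1000100010000000100010000))) (.non (nat_lit 0) (nat_lit 3) (nat_lit 0x1414) (nat_lit 0x1000100000000000100010000))) (.cons (nat_lit 0x2222222222222222222222222222222222222222222222222222222222222222222222222222222222222222222222222222222222222222222222222222222222222222222222222222222222c22222222222222c2322222222222222325222222222222225222222222222222222d22222222222222d242222222222222242) .uj (.cons (nat_lit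 0x2222222222222222222222222222222222222222222222222222222222222222222222222222222222222222222222222222222222222222222222222222222222222222222222222222222222c22a22222222222c23222222222222223252222222222222252a22222222222a22a2d22222222222222d242222222222222242) (.split (nat_lit 6) (nat_lit 2) (.split (nat_lit 3) (nat_lit 2) .uj (.non (nat_lit 0) (nat_lit 5) (nat_lit 0x154) (nat_lit 0x10001000100010000))) (.non (nat_lit 0) (nat_lit 4) (nat_lit 0x1414) (nat_lit 0x1000100000000000100010000))) (.cons (nat_lit 0x2222222222222222222222222222222222222222222222222222222222222222222222222222222222222222222222222222222222222222222222222222222222222222222222222222222222c22222222222222c232a22222222222232522222222222222522222222222222a222d22222222222222d242222222222222242) (.split (nat_lit 5) (nat_lit 2) .uj (.non (nat_lit 0) (nat_lit 4) (nat_lit 0x1414) (nat_lit 0x1000100000000000100010000))) (.cons (nat_lit 0x2222222222222222222222222222222222222222222222222222222222222222222222222222222222222222222222222222222222222222222222222222222222222222222222222222222222c22222222222222c2322222222222222325222222222222225222222222222222222d22222222222222d242222222222222242)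 .uj (.cons (nat_lit 0x2222222222222222222222222222222222222222222222222222222222222222222222222222222222222222222222222222222222222222222222222222222222222222222222222222222222232a222222222222232a2222222222233252222222222222252222222222222aa222d22222222222222d242222222222222242) (.split (nat_lit 6) (nat_lit 2) (.split (nat_lit 5) (nat_lit 2) .uj (.non (nat_lit 0) (nat_lit 3) (nat_lit 0x1514) (nat_lit 0x1000300020000000400030000))) (.non (nat_lit 0) (nat_lit 3) (nat_lit 0x1514) (nat_lit 0x3000100020000000400030000))) (.cons (nat_lit 0x2222222222222222222222222222222222222222222222222222222222222222222222222222222222222222222222222222222222222222222222222222222222222222222222222222222222232aaa222222222223222222222222233252222222222222252222222222222a2222d2222222222a222d24222222222a222242) (.split (nat_lit 6) (nat_lit 1) (.split (nat_lit 6) (nat_lit 2) (.split (nat_lit 6) (nat_lit 0) .uj (.split (nat_lit 6) (nat_lit 0) (.sup (nat_lit 0x400050002) (nat_lit 0x1000300050004000000000000)) (.non (nat_lit 1) (nat_lit 5)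 (nat_lit 0x1141) (nat_lit 0x1000000010001000000000001)))) (.non (nat_lit 0) (nat_lit 3) (nat_lit 0x1514) (nat_lit 0x3000100020000000400030000))) (.non (nat_lit 0) (nat_lit 3) (nat_lit 0x1514) (nat_lit 0x3000100020000000300040000))) (.cons (nat_lit 0x2222222222222222222222222222222222222222222222222222222222222222222222222222222222222222222222222222222222222222222222222222222222222222222222222222222222232a22222222222223222222222222233252222222222222252222222222222a2222d22222222222222d242222222222222242) (.split (nat_lit 6) (nat_lit 2) .uj (.non (nat_lit 0) (nat_lit 5) (nat_lit 0x1154) (nat_lit 0x1000000010001000100010000))) D3_36))))))))))))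

noncomputable def D3_12 : RL := (.skip (.skip (.skip (.skip (.cons (nat_lit 0x222222222222222222222222222222222222222222222222222222222222222222222222222222222222222222222222222222222222222222222222222222222222222222222222222222222222222222222222222d2a222222222222d2422222222222222422222222222222a222d22222222222222d242222222222222242) (.split (nat_lit 5) (nat_lit 2) .uj (.non (nat_lit 0) (nat_lit 3) (nat_lit 0x514) (nat_lit 0x100010000000100010000))) (.cons (nat_lit 0x222222222222222222222222222222222222222222222222222222222222222222222222222222222222222222222222222222222222222222222222222222222222222222222222222222222222222222222222222d22222222222222d24a22222222222224222222222222222a22d22222222222222d242222222222222242) (.split (nat_lit 4) (nat_lit 2) .uj (.non (nat_lit 0) (nat_lit 3) (nat_lit 0x514) (nat_lit 0x100010000000100010000))) (.cons (nat_lit 0x222222222222222222222222222222222222222222222222222222222222222222222222222222222222222222222222222222222222222222222222222222222222222222222222222222222222222222222222222d22222222222222d242222222222222242a22222222222222a2d22222222222222d242222222222222242)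 (.split (nat_lit 3) (nat_lit 2) .uj (.non (nat_lit 0) (nat_lit 5) (nat_lit 0x154) (nat_lit 0x10001000100010000))) (.cons (nat_lit 0x222222222222222222222222222222222222222222222222222222222222222222222222222222222222222222222222222222222222222222222222222222222222222222222222222222222222222222222222222d2a222222222222d2d22222222222222d22222222222222a222d22222222222222d242222222222222242) (.split (nat_lit 5) (nat_lit 2) .uj (.non (nat_lit 0) (nat_lit 3) (nat_lit 0x514) (nat_lit 0x100010000000100010000))) (.cons (nat_lit 0x222222222222222222222222222222222222222222222222222222222222222222222222222222222222222222222222222222222222222222222222222222222222222222222222222222222222222222222222222d22222222222222d2da2222222222222d222222222222222a22d22222222222222d242222222222222242) (.split (nat_lit 4) (nat_lit 2) .uj (.non (nat_lit 0) (nat_lit 3) (nat_lit 0x514) (nat_lit 0x100010000000100010000))) (.cons (nat_lit 0x222222222222222222222222222222222222222222222222222222222222222222222222222222222222222222222222222222222222222222222222222222222222222222222222222222222222222222222222222bca222222222222b2b2222222222222cb22222222222222a222d22222222222222d242222222222222242)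 (.split (nat_lit 5) (nat_lit 2) .uj (.non (nat_lit 0) (nat_lit 4) (nat_lit 0x454) (nat_lit 0x100000001000100010000))) (.cons (nat_lit 0x222222222222222222222222222222222222222222222222222222222222222222222222222222222222222222222222222222222222222222222222222222222222222222222222222222222222222222222222222bc2222222222222b2ba222222222222cb222222222222222a22d22222222222222d242222222222222242) t218 (.cons (nat_lit 0x2222222222222222222222222222222222222222222222222222222222222222222222222222222222222222222222222222222222222222222222222222222222222222222222222222222222322aaa222222222325222222222222225232222222222222232222222222222a2222d2222222222a222d24222222222a222242) (.split (nat_lit 6) (nat_lit 1) (.split (nat_lit 6) (nat_lit 2) (.split (nat_lit 6) (nat_lit 0) .uj (.split (nat_lit 6) (nat_lit 0) (.sup (nat_lit 0x8000a0005) (nat_lit 0x20009000a0005000000000000)) (.non (nat_lit 1) (nat_lit 3) (nat_lit 0x1501) (nat_lit 0x1000100010000000000000001)))) (.non (nat_lit 0) (nat_lit 3) (nat_lit 0x1514) (nat_lit 0x1000100010000000100010000)))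 (.non (nat_lit 0) (nat_lit 3) (nat_lit 0x1514) (nat_lit 0x1000100010000000100010000))) D3_24))))))))))))

noncomputable def D3 : RL := (.cons (nat_lit 0x22222222222222222222222222222222222222222222222222222222222222222222222222222222222222222222222222222222222222222222222222222222222222222232222a222222222232222a2222222233232222222222222232522a222222222225222222222222222222f22222222222222f2322222222aa2a2232) t196 (.cons (nat_lit 0x222222222222222222222222222222222222222222222222222222222222222222222222222222222222222222222222222222222222222222222222222222222222222222322222222222222232222222222222332322222222222222325222222222222225222222222222222222f22222222222222f232222222222222232) .uj (.cons (nat_lit 0x22222222222222222222222222222222222222222222222222222222222222222222222222222222222222222222222222222222222222222222222222222222222222222232222a222222222232222a22222222332322222222222222325222222222222225222a22222222222222f22222222222222f2322222222aa22a232) t198 (.cons (nat_lit 0x222222222222222222222222222222222222222222222222222222222222222222222222222222222222222222222222222222222222222222222222222222222222222222322222222222222232222222222222332322222222222222325222222222222225222222222222222222f22222222222222f232222222222222232)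 .uj (.cons (nat_lit 0x222222222222222222222222222222222222222222222222222222222222222222222222222222222222222222222222222222222222222222222222222222222222222222322222222222222232222222222222332322222222222222325222222222222225222222222222222222f22222222222222f232222222222222232) .uj (.cons (nat_lit 0x222222222222222222222222222222222222222222222222222222222222222222222222222222222222222222222222222222222222222222222222222222222222222222322222222222222232222222222222332322222222222222325222222222222225222222222222222222f22222222222222f232222222222222232) .uj (.cons (nat_lit 0x22222222222222222222222222222222222222222222222222222222222222222222222222222222222222222222222222222222222222222222222222222222222222222322322a2222222232322aaa222222222323222a22222222223242222222222232242222222222222a2222f2222222222a222f2322222222aaa22232) t202 (.cons (nat_lit 0x222222222222222222222222222222222222222222222222222222222222222222222222222222222222222222222222222222222222222222222222222222222222222223223222222222223232222a22222222232322222222222222324222222222223224222222222222222222f22222222222222f23222222222a222232)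 (.split (nat_lit 6) (nat_lit 0) .uj (.split (nat_lit 6) (nat_lit 0) (.sup (nat_lit 0x500050002) (nat_lit 0x30001000300050005000000000000)) (.non (nat_lit 1) (nat_lit 3) (nat_lit 0xa801) (nat_lit 0x10002000100000000000000000002)))) (.cons (nat_lit 0x222222222222222222222222222222222222222222222222222222222222222222222222222222222222222222222222222222222222222222222222222222222222222223223222222222223232222222222222232322222222222222324222222222223224222222222222222222f22222222222222f232222222222222232) .uj (.cons (nat_lit 0x222222222222222222222222222222222222222222222222222222222222222222222222222222222222222222222222222222222222222222222222222222222222222223223222222222223232222a22222222232322222222222222324222222222223224222222222222222222f22222222222222f23222222222a222232) (.split (nat_lit 6) (nat_lit 0) .uj (.split (nat_lit 6) (nat_lit 0) (.sup (nat_lit 0x500050002) (nat_lit 0x30001000300050005000000000000)) (.non (nat_lit 1) (nat_lit 3) (nat_lit 0xa801) (nat_lit 0x10002000100000000000000000002)))) (.cons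 (nat_lit 0x222222222222222222222222222222222222222222222222222222222222222222222222222222222222222222222222222222222222222222222222222222222222222223223222222222223232222222222222232322222222222222324222222222223224222222222222222222f22222222222222f232222222222222232) .uj (.cons (nat_lit 0x222222222222222222222222222222222222222222222222222222222222222222222222222222222222222222222222222222222222222222222222222222222222222223223222222222223232222a22222222232322222222222222324222222222223224222222222222222222f22222222222222f23222222222a222232) (.split (nat_lit 6) (nat_lit 0) .uj (.split (nat_lit 6) (nat_lit 0) (.sup (nat_lit 0x500050002) (nat_lit 0x30001000300050005000000000000)) (.non (nat_lit 1) (nat_lit 5) (nat_lit 0xa181) (nat_lit 0x10001000000010001000000000001)))) D3_12))))))))))))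

theorem cov_D3 : Cov 196 346 := by
  have h1 : rl D3 (nat_lit 196) = true := by decide +kernel
  have h2 : 196 + rlen D3 = 346 := by decide +kernel
  exact cov_of h1 h2

end MP86a502
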