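import Pool.Agent.Lib.MP_86a502_gt.U.Rlc
import Pool.Agent.Lib.MP_86a502_gt.U.D03

set_option autoImplicit false
set_option maxRecDepth 1000000
set_option linter.all false

/-! Certificates, numbers 346 to 550. -/

namespace MP86a502

noncomputable def t393_1 : Tr := (.split (nat_lit 9) (nat_lit 3) (.split (nat_lit 9) (nat_lit 4) (.split (nat_lit 9) (nat_lit 5) (.split (nat_lit 9) (nat_lit 6) (.split (nat_lit 9) (nat_lit 7) (.st (nat_lit 8) (nat_lit 1) (nat_lit 3) (nat_lit 0x55401) (nat_lit 0x1000200020002000100000000000000000001) (nat_lit 1) (nat_lit 1) (.split (nat_lit 9) (nat_lit 8) (.ex (nat_lit 9) (.leaf (.cons (nat_lit 0x1541) (nat_lit 0x2000300040003000000000001) (.cons (nat_lit 0x15005) (nat_lit 0x100020003000000000000000000030004) .nil)) (.cons (nat_lit 0x1111110001) (nat_lit 0x1010) (nat_lit 0xd) (nat_lit 0x6540230001) (.cons (nat_lit 0x1111100001) (nat_lit 0x10010) (nat_lit 9) (nat_lit 0x5430200001) .nil))) (.split (nat_lit 0xa) (nat_lit 0) (.split (nat_lit 0xa) (nat_lit 1) (.split (nat_lit 0xa) (nat_lit 2) (.split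 (nat_lit 0xa) (nat_lit 3) (.split (nat_lit 0xa) (nat_lit 4) (.split (nat_lit 0xa) (nat_lit 5) (.split (nat_lit 0xa) (nat_lit 6) (.split (nat_lit 0xa) (nat_lit 7) (.split (nat_lit 0xa) (nat_lit 8) (.sup (nat_lit 0x200050007000a000d00160020001a000000000000) (nat_lit 0xd00110007)) (.non (nat_lit 0) (nat_lit 3) (nat_lit 0x150000) (nat_lit 0x10001000100000000000000000000000000000000))) (.non (nat_lit 0) (nat_lit 3) (nat_lit 0x154000) (nat_lit 0x10001000100010000000000000000000000000000))) (.non (nat_lit 0) (nat_lit 3) (nat_lit 0x155000) (nat_lit 0x10001000100010001000000000000000000000000))) (.non (nat_lit 0) (nat_lit 3) (nat_lit 0x155400) (nat_lit 0x10001000100010001000100000000000000000000))) (.non (nat_lit 0) (nat_lit 3) (nat_lit 0x155500) (nat_lit 0x10001000100010001000100010000000000000000))) (.non (nat_lit 0) (nat_lit 5) (nat_lit 0x150140) (nat_lit 0x30002000100000000000000030004000000000000))) (.non (nat_lit 0) (nat_lit 3) (nat_lit 0x150014) (nat_lit 0x30002000100000000000000000000000400030000))) (.non (nat_lit 0) (nat_lit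 3) (nat_lit 0x150014) (nat_lit 0x30002000100000000000000000000000300040000))) (.non (nat_lit 1) (nat_lit 3) (nat_lit 0x155001) (nat_lit 0x10001000100010001000000000000000000000001)))) (.non (nat_lit 1) (nat_lit 3) (nat_lit 0x95401) (nat_lit 0x1000200020002000100000000000000000001)))) (.non (nat_lit 0) (nat_lit 3) (nat_lit 0x54000) (nat_lit 0x1000100010000000000000000000000000000))) (.non (nat_lit 0) (nat_lit 3) (nat_lit 0x55000) (nat_lit 0x1000100010001000000000000000000000000))) (.non (nat_lit 0) (nat_lit 3) (nat_lit 0x55400) (nat_lit 0x1000100010001000100000000000000000000))) (.non (nat_lit 0) (nat_lit 3) (nat_lit 0x55500) (nat_lit 0x1000100010001000100010000000000000000))) (.non (nat_lit 0) (nat_lit 5) (nat_lit 0x54140) (nat_lit 0x3000200010000000000030004000000000000)))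

noncomputable def t393_2 : Tr := (.split (nat_lit 8) (nat_lit 5) (.split (nat_lit 8) (nat_lit 6) (.st (nat_lit 7) (nat_lit 1) (nat_lit 3) (nat_lit 0x15401) (nat_lit 0x100020002000100000000000000000001) (nat_lit 1) (nat_lit 1) (.split (nat_lit 2) (nat_lit 1) (.split (nat_lit 8) (nat_lit 7) (.split (nat_lit 1) (nat_lit 0) (.ex (nat_lit 2) (.ex (nat_lit 8) (.leaf (.cons (nat_lit 0x1541) (nat_lit 0x2000300040003000000000001) (.cons (nat_lit 0x15005) (nat_lit 0x100020003000000000000000000030004) .nil)) (.cons (nat_lit 0x111110001) (nat_lit 0x1010) (nat_lit 0xc) (nat_lit 0x540230001) .nil)) (.split (nat_lit 9) (nat_lit 0) (.split (nat_lit 9) (nat_lit 1) (.split (nat_lit 9) (nat_lit 2) t393_1 (.non (nat_lit 0) (nat_lit 3) (nat_lit 0x54014) (nat_lit 0x3000200010000000000000000000400030000))) (.non (nat_lit 0) (nat_lit 3) (nat_lit 0x54014) (nat_lit 0x3000200010000000000000000000300040000))) (.non (nat_lit 1) (nat_lit 3) (nat_lit 0x55001) (nat_lit 0x1000100010001000000000000000000000001)))) (.split (nat_lit 9) (nat_lit 0) (.split (nat_lit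 9) (nat_lit 1) (.split (nat_lit 9) (nat_lit 3) (.split (nat_lit 9) (nat_lit 4) (.split (nat_lit 9) (nat_lit 5) (.split (nat_lit 9) (nat_lit 6) (.split (nat_lit 9) (nat_lit 7) (.split (nat_lit 9) (nat_lit 8) (.sup (nat_lit 0x100030004000600080006000000000000) (nat_lit 0x2000000000000000000000000000300030001)) (.non (nat_lit 0) (nat_lit 3) (nat_lit 0x54014) (nat_lit 0x3000200010000000000000000000400030000))) (.non (nat_lit 0) (nat_lit 3) (nat_lit 0x54014) (nat_lit 0x3000100020000000000000000000400030000))) (.non (nat_lit 0) (nat_lit 3) (nat_lit 0x55510) (nat_lit 0x2000100020003000200010000000100000000))) (.non (nat_lit 0) (nat_lit 3) (nat_lit 0x41414) (nat_lit 0x3000000000001000200000000000400030000))) (.non (nat_lit 0) (nat_lit 3) (nat_lit 0x40514) (nat_lit 0x3000000000000000100020000000400030000))) (.non (nat_lit 0) (nat_lit 5) (nat_lit 0x40154) (nat_lit 0x1000000000000000000010001000100010000))) (.non (nat_lit 0) (nat_lit 3) (nat_lit 0x40014) (nat_lit 0x1000000000000000000000000000100010000))) (.non (nat_lit 1) (nat_lit 3)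 (nat_lit 0x55501) (nat_lit 0x1000100020003000200010000000000000002)))) (.sup (nat_lit 0x200040006000b0010000d000000000000) (nat_lit 0x500070003))) (.non (nat_lit 1) (nat_lit 3) (nat_lit 0x25401) (nat_lit 0x100020002000100000000000000000001))) (.sup (nat_lit 0x100020003000600080006000000000000) (nat_lit 0x300030001)))) (.non (nat_lit 0) (nat_lit 3) (nat_lit 0x15000) (nat_lit 0x100010001000000000000000000000000))) (.non (nat_lit 0) (nat_lit 3) (nat_lit 0x15400) (nat_lit 0x100010001000100000000000000000000)))

noncomputable def t393_3 : Tr := (.ex (nat_lit 4) (.split (nat_lit 6) (nat_lit 0) (.split (nat_lit 7) (nat_lit 6) (.pd (.cons (nat_lit 0) (nat_lit 5) (nat_lit 0x110) (nat_lit 0x66033120) (nat_lit 0xf423fb71ae00000f423f54591000010000100000) (.cons (nat_lit 0) (nat_lit 6) (nat_lit 0x110) (nat_lit 0x70433120) (nat_lit 0xf423f00000f423fb71ae1f156000010000100000) (.cons (nat_lit 0) (nat_lit 7) (nat_lit 0x110) (nat_lit 0x5433120) (nat_lit 0xf423fb71aea2c2804737000010000100000) (.cons (nat_lit 1) (nat_lit 5) (nat_lit 0) (nat_lit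 0x60033200) (nat_lit 0xf423fb71ae00000f423f54591f423f00000a2c28) (.cons (nat_lit 1) (nat_lit 6) (nat_lit 0) (nat_lit 0x70433200) (nat_lit 0xf423f00000f423fb71ae1f156f423f00000f423f) (.cons (nat_lit 2) (nat_lit 6) (nat_lit 0x11) (nat_lit 0x70433001) (nat_lit 0xf423f00000f423fb71ae1f156000000000100001) .nil)))))) (.ex (nat_lit 7) (.split (nat_lit 1) (nat_lit 0) (.pd (.cons (nat_lit 2) (nat_lit 5) (nat_lit 0) (nat_lit 0x60033000) (nat_lit 0xf423fb71ae00000f423f5459100000f423f02f7a) .nil) (.leaf (.cons (nat_lit 0x1541) (nat_lit 0x2000300040003000000000001) (.cons (nat_lit 0x5405) (nat_lit 0x10002000100000000000000020002) .nil)) (.cons (nat_lit 0x11110001) (nat_lit 0x1010) (nat_lit 8) (nat_lit 0x20340001) (.cons (nat_lit 0x11100001) (nat_lit 0x10010) (nat_lit 7) (nat_lit 0x30200001) .nil)))) (.leaf (.cons (nat_lit 0x1541) (nat_lit 0x2000300040003000000000001) (.cons (nat_lit 0x100d) (nat_lit 0x1000000000000000000010002) .nil)) (.cons (nat_lit 0x11110001) (nat_lit 0x1010) (nat_lit 8) (nat_lit 0x20340001) (.cons (nat_lit 0x11100001)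 (nat_lit 0x10010) (nat_lit 7) (nat_lit 0x30200001) .nil)))) (.split (nat_lit 8) (nat_lit 0) (.split (nat_lit 8) (nat_lit 1) (.split (nat_lit 8) (nat_lit 2) (.split (nat_lit 8) (nat_lit 3) (.split (nat_lit 8) (nat_lit 4) t393_2 (.non (nat_lit 0) (nat_lit 3) (nat_lit 0x15500) (nat_lit 0x100010001000100010000000000000000))) (.non (nat_lit 0) (nat_lit 5) (nat_lit 0x15140) (nat_lit 0x300020001000000030004000000000000))) (.non (nat_lit 0) (nat_lit 3) (nat_lit 0x15014) (nat_lit 0x300020001000000000000000400030000))) (.non (nat_lit 0) (nat_lit 3) (nat_lit 0x15014) (nat_lit 0x300020001000000000000000300040000))) (.non (nat_lit 1) (nat_lit 3) (nat_lit 0x15001) (nat_lit 0x100010001000000000000000000000001))))) (.non (nat_lit 1) (nat_lit 3) (nat_lit 0x9401) (nat_lit 0x10002000100000000000000000001))) (.non (nat_lit 1) (nat_lit 3) (nat_lit 0xa801) (nat_lit 0x10002000100000000000000000002))) (.split (nat_lit 8) (nat_lit 0) (.split (nat_lit 8) (nat_lit 1) (.split (nat_lit 8) (nat_lit 2) (.split (nat_lit 8) (nat_lit 5) (.split (nat_lit 8) (nat_lit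 6) (.split (nat_lit 8) (nat_lit 7) (.split (nat_lit 8) (nat_lit 3) (.unj (nat_lit 0x15) (nat_lit 0x100010001) (nat_lit 0x10540) (nat_lit 0x100000000000100020002000000000000)) (.unj (nat_lit 0x15) (nat_lit 0x100010001) (nat_lit 0x10140) (nat_lit 0x100000000000000010001000000000000))) (.non (nat_lit 0) (nat_lit 3) (nat_lit 0x15500) (nat_lit 0x100010001000100010000000000000000))) (.non (nat_lit 0) (nat_lit 3) (nat_lit 0x11500) (nat_lit 0x100000001000100010000000000000000))) (.non (nat_lit 0) (nat_lit 3) (nat_lit 0x10500) (nat_lit 0x100000000000100010000000000000000))) (.non (nat_lit 0) (nat_lit 3) (nat_lit 0x10514) (nat_lit 0x300000000000100020000000400030000))) (.star (nat_lit 8) (nat_lit 1) (nat_lit 4))) (.star (nat_lit 8) (nat_lit 0) (nat_lit 4))))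

noncomputable def t393_4 : Tr := (.ex (nat_lit 1) (.ex (nat_lit 3) t393_3 (.split (nat_lit 8) (nat_lit 0) (.split (nat_lit 8) (nat_lit 1) (.split (nat_lit 8) (nat_lit 5) (.split (nat_lit 8) (nat_lit 6) (.split (nat_lit 8) (nat_lit 2) (.split (nat_lit 8) (nat_lit 4) (.split (nat_lit 8) (nat_lit 7) (.unj (nat_lit 0x15) (nat_lit 0x100010001) (nat_lit 0x10540) (nat_lit 0x100000000000100020002000000000000)) (.unj (nat_lit 0x15) (nat_lit 0x100010001) (nat_lit 0x10540) (nat_lit 0x100000000000100020002000000000000))) (.split (nat_lit 8) (nat_lit 7) (.unj (nat_lit 0x15) (nat_lit 0x100010001) (nat_lit 0x10140) (nat_lit 0x100000000000000010001000000000000)) (.non (nat_lit 0) (nat_lit 3) (nat_lit 0x15500) (nat_lit 0x100010001000100010000000000000000)))) (.split (nat_lit 8) (nat_lit 4) (.split (nat_lit 8) (nat_lit 7) (.split (nat_lit 8) (nat_lit 2) (.sup (nat_lit 0x200050004) (nat_lit 0x100000000000300050005000000000000)) (.non (nat_lit 0) (nat_lit 3) (nat_lit 0x10014) (nat_lit 0x100000000000000000000000100010000))) (.non (nat_lit 0) (nat_lit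 3) (nat_lit 0x15014) (nat_lit 0x300020001000000000000000400030000))) (.non (nat_lit 0) (nat_lit 3) (nat_lit 0x10514) (nat_lit 0x300000000000100020000000400030000)))) (.non (nat_lit 1) (nat_lit 3) (nat_lit 0x15401) (nat_lit 0x100010002000100000000000000000001))) (.non (nat_lit 1) (nat_lit 3) (nat_lit 0x15501) (nat_lit 0x100010002000200010000000000000001))) (.star (nat_lit 8) (nat_lit 1) (nat_lit 3))) (.star (nat_lit 8) (nat_lit 0) (nat_lit 3)))) (.split (nat_lit 8) (nat_lit 2) (.split (nat_lit 8) (nat_lit 3) (.split (nat_lit 8) (nat_lit 4) (.split (nat_lit 8) (nat_lit 5) (.split (nat_lit 8) (nat_lit 6) (.split (nat_lit 8) (nat_lit 7) (.split (nat_lit 8) (nat_lit 0) (.split (nat_lit 8) (nat_lit 1) (.split (nat_lit 7) (nat_lit 6) (.split (nat_lit 6) (nat_lit 0) (.sup (nat_lit 0x40007000b0010000d000000000000) (nat_lit 0x300000000000000000000000400050001)) (.non (nat_lit 1) (nat_lit 3) (nat_lit 0xa801) (nat_lit 0x10002000100000000000000000002))) (.non (nat_lit 1) (nat_lit 3) (nat_lit 0x9401) (nat_lit 0x10002000100000000000000000001)))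 (.non (nat_lit 0) (nat_lit 3) (nat_lit 0x10014) (nat_lit 0x100000000000000000000000100010000))) (.sup (nat_lit 0x7000f00170020001a000000000000) (nat_lit 0x400000000000000000000000600080001))) (.non (nat_lit 0) (nat_lit 3) (nat_lit 0x15014) (nat_lit 0x300020001000000000000000300040000))) (.non (nat_lit 0) (nat_lit 3) (nat_lit 0x15014) (nat_lit 0x300010002000000000000000300040000))) (.non (nat_lit 0) (nat_lit 3) (nat_lit 0x11414) (nat_lit 0x300000001000200000000000300040000))) (.star (nat_lit 8) (nat_lit 1) (nat_lit 4))) (.star (nat_lit 8) (nat_lit 1) (nat_lit 3))) (.non (nat_lit 0) (nat_lit 3) (nat_lit 0x10014) (nat_lit 0x100000000000000000000000100010000))))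

noncomputable def t393_5 : Tr := (.ex (nat_lit 9) (.split (nat_lit 1) (nat_lit 0) (.split (nat_lit 9) (nat_lit 8) (.pd (.cons (nat_lit 2) (nat_lit 6) (nat_lit 0) (nat_lit 0x8070433000) (nat_lit 0xf423fb71aef423f00000f423fb71ae1f15600000f423f02f7a) .nil) (.leaf (.cons (nat_lit 0x1541) (nat_lit 0x2000300040003000000000001) (.cons (nat_lit 0x11005) (nat_lit 0x100000001000000000000000000020002) .nil)) (.cons (nat_lit 0x1111000001) (nat_lit 0x100010) (nat_lit 3) (nat_lit 0x4301000002) .nil))) (.non (nat_lit 1) (nat_lit 3) (nat_lit 0x95401) (nat_lit 0x1000200010002000100000000000000000002))) (.split (nat_lit 2) (nat_lit 1) (.split (nat_lit 9) (nat_lit 8) (.leaf (.cons (nat_lit 0x1541) (nat_lit 0x2000300040003000000000001) (.cons (nat_lit 0x1000d) (nat_lit 0x100000000000000000000000000010002) .nil)) (.cons (nat_lit 0x1111000001) (nat_lit 0x100010) (nat_lit 3) (nat_lit 0x4301000002) .nil)) (.non (nat_lit 1) (nat_lit 3) (nat_lit 0x95401) (nat_lit 0x1000200010002000100000000000000000002))) (.sup (nat_lit 0x9000a0003) (nat_lit 0x200040007000a0008000000000000))))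 (.split (nat_lit 0xa) (nat_lit 0) (.split (nat_lit 0xa) (nat_lit 1) (.split (nat_lit 0xa) (nat_lit 2) (.split (nat_lit 0xa) (nat_lit 3) (.split (nat_lit 0xa) (nat_lit 4) (.split (nat_lit 0xa) (nat_lit 5) (.split (nat_lit 0xa) (nat_lit 6) (.split (nat_lit 0xa) (nat_lit 7) (.split (nat_lit 0xa) (nat_lit 8) (.st (nat_lit 9) (nat_lit 1) (nat_lit 3) (nat_lit 0x155401) (nat_lit 0x10002000200010002000100000000000000000002) (nat_lit 1) (nat_lit 1) (.st (nat_lit 0xa) (nat_lit 1) (nat_lit 3) (nat_lit 0x155501) (nat_lit 0x20003000400030006000400020000000000000005) (nat_lit 1) (nat_lit 1) (.split (nat_lit 2) (nat_lit 1) (.split (nat_lit 0xa) (nat_lit 9) (.split (nat_lit 9) (nat_lit 8) (.leaf (.cons (nat_lit 0x1541) (nat_lit 0x2000300040003000000000001) (.cons (nat_lit 0x150005) (nat_lit 0x10002000300000000000000000000000000030004) .nil)) (.cons (nat_lit 0x11111110001) (nat_lit 0x1010) (nat_lit 0xe) (nat_lit 0x76510230004) (.cons (nat_lit 0x11111100001) (nat_lit 0x10010) (nat_lit 0xa) (nat_lit 0x65420100003) .nil))) (.non (nat_lit 1) (nat_lit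 3) (nat_lit 0x291001) (nat_lit 0x10002000300000001000000000000000000000002))) (.non (nat_lit 1) (nat_lit 3) (nat_lit 0x255401) (nat_lit 0x10002000200010002000100000000000000000002))) (.sup (nat_lit 0x30006000b0010000d000000000000) (nat_lit 0x1000100000000000000000000000400050002))))) (.non (nat_lit 0) (nat_lit 3) (nat_lit 0x150000) (nat_lit 0x10001000100000000000000000000000000000000))) (.non (nat_lit 1) (nat_lit 3) (nat_lit 0x155001) (nat_lit 0x10001000100010001000000000000000000000001))) (.non (nat_lit 1) (nat_lit 3) (nat_lit 0x151001) (nat_lit 0x10001000100000001000000000000000000000001))) (.non (nat_lit 1) (nat_lit 3) (nat_lit 0x151401) (nat_lit 0x10001000100000001000100000000000000000001))) (.non (nat_lit 1) (nat_lit 3) (nat_lit 0x151501) (nat_lit 0x10001000100000001000100010000000000000001))) (.non (nat_lit 0) (nat_lit 5) (nat_lit 0x150140) (nat_lit 0x30002000100000000000000030004000000000000))) (.non (nat_lit 0) (nat_lit 3) (nat_lit 0x150014) (nat_lit 0x30002000100000000000000000000000400030000))) (.non (nat_lit 0) (nat_lit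 3) (nat_lit 0x150014) (nat_lit 0x30002000100000000000000000000000300040000))) (.non (nat_lit 1) (nat_lit 3) (nat_lit 0x150001) (nat_lit 0x10001000100000000000000000000000000000001))))

noncomputable def t393_6 : Tr := (.pd (.cons (nat_lit 0) (nat_lit 5) (nat_lit 0x110) (nat_lit 0x866033120) (nat_lit 0xf423ff423fb71ae00000f423f54591000010000100000) (.cons (nat_lit 0) (nat_lit 6) (nat_lit 0x110) (nat_lit 0x870433120) (nat_lit 0xf423ff423f00000f423fb71ae1f156000010000100000) (.cons (nat_lit 0) (nat_lit 7) (nat_lit 0x110) (nat_lit 0x805433120) (nat_lit 0xf423f00000f423fb71aea2c2804737000010000100000) (.cons (nat_lit 1) (nat_lit 5) (nat_lit 0) (nat_lit 0x60033200) (nat_lit 0xf423ff423fb71ae00000f423f54591f423f0000065b97) (.cons (nat_lit 1) (nat_lit 6) (nat_lit 0) (nat_lit 0x70433200) (nat_lit 0xf423ff423f00000f423fb71ae1f156f423f00000b71ae) .nil))))) (.ex (nat_lit 8) (.split (nat_lit 1) (nat_lit 0) (.pd (.cons (nat_lit 2) (nat_lit 6) (nat_lit 0) (nat_lit 0x70433000) (nat_lit 0xf423ff423f00000f423fb71ae1f15600000f423f17500) .nil)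 (.leaf (.cons (nat_lit 0x1541) (nat_lit 0x2000300040003000000000001) (.cons (nat_lit 0x11005) (nat_lit 0x100000001000000000000000000020002) .nil)) (.cons (nat_lit 0x111000001) (nat_lit 0x100010) (nat_lit 2) (nat_lit 0x301000002) .nil))) (.leaf (.cons (nat_lit 0x1541) (nat_lit 0x2000300040003000000000001) (.cons (nat_lit 0x1000d) (nat_lit 0x100000000000000000000000000010002) .nil)) (.cons (nat_lit 0x111000001) (nat_lit 0x100010) (nat_lit 2) (nat_lit 0x301000002) .nil))) (.split (nat_lit 9) (nat_lit 0) (.split (nat_lit 9) (nat_lit 3) (.split (nat_lit 9) (nat_lit 4) (.split (nat_lit 9) (nat_lit 5) (.split (nat_lit 9) (nat_lit 6) (.split (nat_lit 9) (nat_lit 7) (.split (nat_lit 9) (nat_lit 1) (.split (nat_lit 9) (nat_lit 2) (.st (nat_lit 8) (nat_lit 1) (nat_lit 3) (nat_lit 0x55401) (nat_lit 0x1000200010002000100000000000000000002) (nat_lit 1) (nat_lit 1) t393_5) (.sup (nat_lit 0xf001e002e00400033000000000000) (nat_lit 0xc0007000000000000000000000013000f0001))) (.split (nat_lit 9) (nat_lit 2) (.sup (nat_lit 0xf001e002f00400033000000000000)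 (nat_lit 0xb000600000000000000000000000d00100001)) (.non (nat_lit 0) (nat_lit 3) (nat_lit 0x40014) (nat_lit 0x1000000000000000000000000000100010000)))) (.non (nat_lit 1) (nat_lit 3) (nat_lit 0x55001) (nat_lit 0x1000100010001000000000000000000000001))) (.non (nat_lit 1) (nat_lit 3) (nat_lit 0x51001) (nat_lit 0x1000100000001000000000000000000000001))) (.non (nat_lit 1) (nat_lit 3) (nat_lit 0x51401) (nat_lit 0x1000100000001000100000000000000000001))) (.non (nat_lit 1) (nat_lit 3) (nat_lit 0x51501) (nat_lit 0x1000100000001000100010000000000000001))) (.non (nat_lit 0) (nat_lit 6) (nat_lit 0x40540) (nat_lit 0x1000000000000000100020002000000000000))) (.non (nat_lit 1) (nat_lit 3) (nat_lit 0x50001) (nat_lit 0x1000100000000000000000000000000000001)))))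

noncomputable def t393_7 : Tr := (.ex (nat_lit 3) (.ex (nat_lit 4) (.split (nat_lit 6) (nat_lit 0) (.split (nat_lit 8) (nat_lit 0) (.split (nat_lit 7) (nat_lit 6) t393_6 (.non (nat_lit 1) (nat_lit 3) (nat_lit 0x9401) (nat_lit 0x10002000100000000000000000001))) (.non (nat_lit 1) (nat_lit 3) (nat_lit 0x25401) (nat_lit 0x100010002000100000000000000000002))) (.non (nat_lit 1) (nat_lit 3) (nat_lit 0xa801) (nat_lit 0x10002000100000000000000000002))) (.split (nat_lit 9) (nat_lit 0) (.split (nat_lit 9) (nat_lit 1) (.split (nat_lit 9) (nat_lit 2) (.split (nat_lit 9) (nat_lit 5) (.split (nat_lit 9) (nat_lit 6) (.split (nat_lit 9) (nat_lit 7) (.split (nat_lit 9) (nat_lit 8) (.split (nat_lit 9) (nat_lit 3) (.unj (nat_lit 0x15) (nat_lit 0x100010001) (nat_lit 0x40540) (nat_lit 0x1000000000000000100020002000000000000)) (.unj (nat_lit 0x15) (nat_lit 0x100010001) (nat_lit 0x40140) (nat_lit 0x1000000000000000000010001000000000000))) (.non (nat_lit 1) (nat_lit 3) (nat_lit 0x51501) (nat_lit 0x1000100000001000100010000000000000001))) (.non (nat_lit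 0) (nat_lit 3) (nat_lit 0x45500) (nat_lit 0x1000000010001000100010000000000000000))) (.non (nat_lit 0) (nat_lit 3) (nat_lit 0x41500) (nat_lit 0x1000000000001000100010000000000000000))) (.non (nat_lit 0) (nat_lit 3) (nat_lit 0x40500) (nat_lit 0x1000000000000000100010000000000000000))) (.non (nat_lit 0) (nat_lit 3) (nat_lit 0x40514) (nat_lit 0x3000000000000000100020000000400030000))) (.star (nat_lit 9) (nat_lit 1) (nat_lit 4))) (.star (nat_lit 9) (nat_lit 0) (nat_lit 4)))) (.split (nat_lit 9) (nat_lit 0) (.split (nat_lit 9) (nat_lit 1) (.split (nat_lit 9) (nat_lit 5) (.split (nat_lit 9) (nat_lit 6) (.split (nat_lit 9) (nat_lit 7) (.split (nat_lit 9) (nat_lit 2) (.split (nat_lit 9) (nat_lit 4) (.split (nat_lit 9) (nat_lit 8) (.unj (nat_lit 0x15) (nat_lit 0x100010001) (nat_lit 0x40540) (nat_lit 0x1000000000000000100020002000000000000)) (.unj (nat_lit 0x15) (nat_lit 0x100010001) (nat_lit 0x40540) (nat_lit 0x1000000000000000100020002000000000000))) (.split (nat_lit 9) (nat_lit 8) (.unj (nat_lit 0x15) (nat_lit 0x100010001) (nat_lit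 0x40140) (nat_lit 0x1000000000000000000010001000000000000)) (.non (nat_lit 1) (nat_lit 3) (nat_lit 0x51501) (nat_lit 0x1000100000001000100010000000000000001)))) (.split (nat_lit 9) (nat_lit 4) (.split (nat_lit 9) (nat_lit 8) (.sup (nat_lit 0x300000001000000000000000000040005) (nat_lit 0x3000000000000000100050005000000000000)) (.non (nat_lit 0) (nat_lit 4) (nat_lit 0x50054) (nat_lit 0x2000100000000000000000001000200020000))) (.non (nat_lit 0) (nat_lit 3) (nat_lit 0x40514) (nat_lit 0x3000000000000000100020000000400030000)))) (.non (nat_lit 1) (nat_lit 3) (nat_lit 0x55501) (nat_lit 0x1000100020003000200010000000000000002))) (.non (nat_lit 1) (nat_lit 3) (nat_lit 0x45401) (nat_lit 0x1000000010002000100000000000000000001))) (.non (nat_lit 1) (nat_lit 3) (nat_lit 0x45501) (nat_lit 0x1000000010002000200010000000000000001))) (.star (nat_lit 9) (nat_lit 1) (nat_lit 3))) (.star (nat_lit 9) (nat_lit 0) (nat_lit 3))))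

noncomputable def t393_8 : Tr := (.split (nat_lit 8) (nat_lit 5) (.split (nat_lit 8) (nat_lit 6) (.split (nat_lit 8) (nat_lit 7) (.split (nat_lit 8) (nat_lit 1) (.split (nat_lit 8) (nat_lit 2) (.st (nat_lit 0) (nat_lit 1) (nat_lit 3) (nat_lit 0x15401) (nat_lit 0x100010002000100000000000000000002) (nat_lit 1) (nat_lit 1) (.st (nat_lit 7) (nat_lit 1) (nat_lit 3) (nat_lit 0x15501) (nat_lit 0x100020003000200010000000000000002) (nat_lit 1) (nat_lit 1) (.ex (nat_lit 1) t393_7 (.split (nat_lit 9) (nat_lit 0) (.split (nat_lit 9) (nat_lit 2) (.split (nat_lit 9) (nat_lit 3) (.split (nat_lit 9) (nat_lit 4) (.split (nat_lit 9) (nat_lit 5) (.split (nat_lit 9) (nat_lit 6) (.split (nat_lit 9) (nat_lit 7) (.split (nat_lit 9) (nat_lit 8) (.split (nat_lit 9) (nat_lit 1) (.split (nat_lit 8) (nat_lit 0) (.split (nat_lit 7) (nat_lit 6) (.split (nat_lit 6) (nat_lit 0) (.sup (nat_lit 0x40007000b0010000d000000000000) (nat_lit 0x2000000000000000000000000000400050001)) (.non (nat_lit 1) (nat_lit 3) (nat_lit 0xa801) (nat_lit 0x10002000100000000000000000002)))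 (.non (nat_lit 1) (nat_lit 3) (nat_lit 0x9401) (nat_lit 0x10002000100000000000000000001))) (.non (nat_lit 1) (nat_lit 3) (nat_lit 0x25401) (nat_lit 0x100010002000100000000000000000002))) (.non (nat_lit 0) (nat_lit 3) (nat_lit 0x40014) (nat_lit 0x1000000000000000000000000000100010000))) (.sup (nat_lit 0xf001e002f00400033000000000000) (nat_lit 0xb000600000000000000000000000d00100001))) (.non (nat_lit 0) (nat_lit 3) (nat_lit 0x45014) (nat_lit 0x3000000020001000000000000000300040000))) (.non (nat_lit 0) (nat_lit 3) (nat_lit 0x45014) (nat_lit 0x3000000010002000000000000000300040000))) (.non (nat_lit 0) (nat_lit 3) (nat_lit 0x41414) (nat_lit 0x3000000000001000200000000000300040000))) (.star (nat_lit 9) (nat_lit 1) (nat_lit 4))) (.star (nat_lit 9) (nat_lit 1) (nat_lit 3))) (.non (nat_lit 0) (nat_lit 3) (nat_lit 0x40014) (nat_lit 0x1000000000000000000000000000100010000))) (.non (nat_lit 1) (nat_lit 3) (nat_lit 0x55401) (nat_lit 0x1000100010002000100000000000000000002)))))) (.sup (nat_lit 0x7000e00170020001a000000000000) (nat_lit 0x500000000000000000000000800070001)))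 (.split (nat_lit 8) (nat_lit 2) (.sup (nat_lit 0x7000f00170020001a000000000000) (nat_lit 0x400000000000000000000000600080001)) (.non (nat_lit 0) (nat_lit 3) (nat_lit 0x10014) (nat_lit 0x100000000000000000000000100010000)))) (.non (nat_lit 1) (nat_lit 3) (nat_lit 0x15001) (nat_lit 0x100010001000000000000000000000001))) (.non (nat_lit 1) (nat_lit 3) (nat_lit 0x11001) (nat_lit 0x100000001000000000000000000000001))) (.non (nat_lit 1) (nat_lit 3) (nat_lit 0x11401) (nat_lit 0x100000001000100000000000000000001)))

noncomputable def t393 : Tr := (.split (nat_lit 7) (nat_lit 1) (.split (nat_lit 7) (nat_lit 2) (.split (nat_lit 6) (nat_lit 1) (.split (nat_lit 6) (nat_lit 2) (.split (nat_lit 5) (nat_lit 2) (.split (nat_lit 7) (nat_lit 0) (.split (nat_lit 6) (nat_lit 0) .uj (.st (nat_lit 5) (nat_lit 1) (nat_lit 3) (nat_lit 0x5501) (nat_lit 0x10002000200010000000000000001) (nat_lit 1) (nat_lit 1) (.st (nat_lit 6) (nat_lit 1) (nat_lit 3) (nat_lit 0x5401) (nat_lit 0x10002000100000000000000000001) (nat_lit 1) (nat_lit 1) (.ex (nat_lit 0) t393_4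 (.split (nat_lit 8) (nat_lit 3) (.split (nat_lit 8) (nat_lit 4) t393_8 (.star (nat_lit 8) (nat_lit 0) (nat_lit 4))) (.star (nat_lit 8) (nat_lit 0) (nat_lit 3))))))) (.split (nat_lit 6) (nat_lit 0) (.sup (nat_lit 0x8000a0004) (nat_lit 0x100040007000a0008000000000000)) (.non (nat_lit 1) (nat_lit 3) (nat_lit 0x5001) (nat_lit 0x10001000000000000000000000001)))) (.non (nat_lit 0) (nat_lit 3) (nat_lit 0x5414) (nat_lit 0x10002000300000000000400030000))) (.non (nat_lit 0) (nat_lit 3) (nat_lit 0x5414) (nat_lit 0x10002000100000000000200020000))) (.non (nat_lit 0) (nat_lit 3) (nat_lit 0x5414) (nat_lit 0x10002000100000000000200020000))) (.non (nat_lit 0) (nat_lit 3) (nat_lit 0x5414) (nat_lit 0x30002000100000000000400030000))) (.non (nat_lit 0) (nat_lit 3) (nat_lit 0x5414) (nat_lit 0x30002000100000000000300040000)))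

noncomputable def t497_1 : Tr := (.ex (nat_lit 3) (.ex (nat_lit 4) (.split (nat_lit 2) (nat_lit 1) (.pd (.cons (nat_lit 0) (nat_lit 5) (nat_lit 0) (nat_lit 0x61033110) (nat_lit 0xf423fb71ae00000f423f54591f423f65b9700000) (.cons (nat_lit 0) (nat_lit 6) (nat_lit 0) (nat_lit 0x70433110) (nat_lit 0xf423f00000f423fb71ae1f156f423fb71ae00000) (.cons (nat_lit 1) (nat_lit 5) (nat_lit 0x101) (nat_lit 0x66033002) (nat_lit 0xf423fb71ae00000f423f54591000010000000001) (.cons (nat_lit 1) (nat_lit 6) (nat_lit 0x101) (nat_lit 0x70433002) (nat_lit 0xf423f00000f423fb71ae1f156000010000000001) (.cons (nat_lit 1) (nat_lit 7) (nat_lit 0x101) (nat_lit 0x5433002) (nat_lit 0xf423fb71aea2c2804737000010000000001) (.cons (nat_lit 2) (nat_lit 5) (nat_lit 0) (nat_lit 0x61033000) (nat_lit 0xf423fb71ae00000f423f5459100000a2c2898965) (.cons (nat_lit 2) (nat_lit 6) (nat_lit 0) (nat_lit 0x70433000) (nat_lit 0xf423f00000f423fb71ae1f15600000f423fb71ae) .nil))))))) (.leaf (.cons (nat_lit 0x1544) (nat_lit 0x2000300040003000000010000) .nil) (.cons (nat_lit 0x11000011)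 (nat_lit 0x100100) (nat_lit 2) (nat_lit 0x32000010) .nil))) (.non (nat_lit 0) (nat_lit 3) (nat_lit 0x5424) (nat_lit 0x10002000100000000000100020000))) (.split (nat_lit 8) (nat_lit 0) (.split (nat_lit 8) (nat_lit 1) (.split (nat_lit 8) (nat_lit 2) (.split (nat_lit 8) (nat_lit 5) (.split (nat_lit 8) (nat_lit 6) (.split (nat_lit 8) (nat_lit 7) (.split (nat_lit 8) (nat_lit 3) (.unj (nat_lit 0x15) (nat_lit 0x100010001) (nat_lit 0x10540) (nat_lit 0x100000000000100020002000000000000)) (.unj (nat_lit 0x15) (nat_lit 0x100010001) (nat_lit 0x10140) (nat_lit 0x100000000000000010001000000000000))) (.non (nat_lit 0) (nat_lit 3) (nat_lit 0x15500) (nat_lit 0x100010001000100010000000000000000))) (.non (nat_lit 0) (nat_lit 3) (nat_lit 0x11500) (nat_lit 0x100000001000100010000000000000000))) (.non (nat_lit 0) (nat_lit 3) (nat_lit 0x10500) (nat_lit 0x100000000000100010000000000000000))) (.non (nat_lit 0) (nat_lit 3) (nat_lit 0x11514) (nat_lit 0x100000001000100010000000100010000))) (.star (nat_lit 8) (nat_lit 1) (nat_lit 4))) (.star (nat_lit 8)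 (nat_lit 0) (nat_lit 4)))) (.split (nat_lit 8) (nat_lit 0) (.split (nat_lit 8) (nat_lit 1) (.split (nat_lit 8) (nat_lit 5) (.split (nat_lit 8) (nat_lit 6) (.split (nat_lit 8) (nat_lit 7) (.split (nat_lit 8) (nat_lit 2) (.split (nat_lit 8) (nat_lit 4) (.unj (nat_lit 0x15) (nat_lit 0x100010001) (nat_lit 0x10540) (nat_lit 0x100000000000100020002000000000000)) (.unj (nat_lit 0x15) (nat_lit 0x100010001) (nat_lit 0x10140) (nat_lit 0x100000000000000010001000000000000))) (.split (nat_lit 8) (nat_lit 4) (.split (nat_lit 8) (nat_lit 2) (.sup (nat_lit 0x80009000a) (nat_lit 0x2000000000005000a0009000000000000)) (.non (nat_lit 0) (nat_lit 3) (nat_lit 0x25414) (nat_lit 0x100010002000100000000000200020000))) (.non (nat_lit 0) (nat_lit 3) (nat_lit 0x11514) (nat_lit 0x100000001000100010000000100010000)))) (.non (nat_lit 0) (nat_lit 3) (nat_lit 0x15514) (nat_lit 0x100020003000200010000000100020000))) (.non (nat_lit 0) (nat_lit 3) (nat_lit 0x15404) (nat_lit 0x100010002000100000000000000010000))) (.non (nat_lit 0) (nat_lit 3) (nat_lit 0x15504)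 (nat_lit 0x100010002000200010000000000010000))) (.star (nat_lit 8) (nat_lit 1) (nat_lit 3))) (.star (nat_lit 8) (nat_lit 0) (nat_lit 3))))

noncomputable def t497_2 : Tr := (.ex (nat_lit 3) (.ex (nat_lit 4) (.split (nat_lit 2) (nat_lit 1) (.split (nat_lit 6) (nat_lit 1) (.split (nat_lit 7) (nat_lit 6) (.split (nat_lit 1) (nat_lit 0) (.pd (.cons (nat_lit 0) (nat_lit 5) (nat_lit 0) (nat_lit 0x61033110) (nat_lit 0xf423fb71ae00000f423f54591f423f65b9700000) (.cons (nat_lit 0) (nat_lit 6) (nat_lit 0) (nat_lit 0x70433110) (nat_lit 0xf423f00000f423fb71ae1f156f423fb71ae00000) (.cons (nat_lit 1) (nat_lit 5) (nat_lit 0x101) (nat_lit 0x66033002) (nat_lit 0xf423fb71ae00000f423f54591000010000000001) (.cons (nat_lit 1) (nat_lit 6) (nat_lit 0x101) (nat_lit 0x70433002) (nat_lit 0xf423f00000f423fb71ae1f156000010000000001) (.cons (nat_lit 1) (nat_lit 7) (nat_lit 0x101) (nat_lit 0x5433002) (nat_lit 0xf423fb71aea2c2804737000010000000001) (.cons (nat_lit 2) (nat_lit 5) (nat_lit 0) (nat_lit 0x61033000) (nat_lit 0xf423fb71ae00000f423f5459100000a2c283d08b)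 (.cons (nat_lit 2) (nat_lit 6) (nat_lit 0) (nat_lit 0x70433000) (nat_lit 0xf423f00000f423fb71ae1f15600000f423f7a11e) .nil))))))) (.leaf (.cons (nat_lit 0x1544) (nat_lit 0x2000300040003000000010000) (.cons (nat_lit 0xa809) (nat_lit 0x10002000100000000000000020002) .nil)) .nil)) (.sup (nat_lit 0x90004000a) (nat_lit 0x200040007000a0008000000000000))) (.non (nat_lit 0) (nat_lit 3) (nat_lit 0x9404) (nat_lit 0x10002000100000000000000010000))) (.non (nat_lit 0) (nat_lit 3) (nat_lit 0xa804) (nat_lit 0x10002000100000000000000020000))) (.non (nat_lit 0) (nat_lit 3) (nat_lit 0x5424) (nat_lit 0x10002000100000000000100020000))) (.split (nat_lit 8) (nat_lit 0) (.split (nat_lit 8) (nat_lit 1) (.split (nat_lit 8) (nat_lit 2) (.split (nat_lit 8) (nat_lit 5) (.split (nat_lit 8) (nat_lit 6) (.split (nat_lit 8) (nat_lit 7) (.split (nat_lit 8) (nat_lit 3) (.unj (nat_lit 0x15) (nat_lit 0x100010001) (nat_lit 0x10540) (nat_lit 0x100000000000100020002000000000000)) (.unj (nat_lit 0x15) (nat_lit 0x100010001) (nat_lit 0x10140) (nat_lit 0x100000000000000010001000000000000)))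 (.non (nat_lit 0) (nat_lit 3) (nat_lit 0x15500) (nat_lit 0x100010001000100010000000000000000))) (.non (nat_lit 0) (nat_lit 3) (nat_lit 0x11500) (nat_lit 0x100000001000100010000000000000000))) (.non (nat_lit 0) (nat_lit 3) (nat_lit 0x10500) (nat_lit 0x100000000000100010000000000000000))) (.non (nat_lit 0) (nat_lit 3) (nat_lit 0x11514) (nat_lit 0x100000001000100010000000100010000))) (.star (nat_lit 8) (nat_lit 1) (nat_lit 4))) (.star (nat_lit 8) (nat_lit 0) (nat_lit 4)))) (.split (nat_lit 8) (nat_lit 0) (.split (nat_lit 8) (nat_lit 1) (.split (nat_lit 8) (nat_lit 5) (.split (nat_lit 8) (nat_lit 6) (.split (nat_lit 8) (nat_lit 7) (.split (nat_lit 8) (nat_lit 2) (.split (nat_lit 8) (nat_lit 4) (.unj (nat_lit 0x15) (nat_lit 0x100010001) (nat_lit 0x10540) (nat_lit 0x100000000000100020002000000000000)) (.unj (nat_lit 0x15) (nat_lit 0x100010001) (nat_lit 0x10140) (nat_lit 0x100000000000000010001000000000000))) (.split (nat_lit 8) (nat_lit 4) (.sup (nat_lit 0x50009000a) (nat_lit 0x2000000000005000a0009000000000000)) (.non (nat_lit 0)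 (nat_lit 3) (nat_lit 0x11514) (nat_lit 0x100000001000100010000000100010000)))) (.non (nat_lit 0) (nat_lit 3) (nat_lit 0x15514) (nat_lit 0x100020003000200010000000100020000))) (.non (nat_lit 0) (nat_lit 3) (nat_lit 0x15404) (nat_lit 0x100010002000100000000000000010000))) (.non (nat_lit 0) (nat_lit 3) (nat_lit 0x15504) (nat_lit 0x100010002000200010000000000010000))) (.star (nat_lit 8) (nat_lit 1) (nat_lit 3))) (.star (nat_lit 8) (nat_lit 0) (nat_lit 3))))

noncomputable def t497_3 : Tr := (.split (nat_lit 7) (nat_lit 2) (.split (nat_lit 6) (nat_lit 1) .uj (.st (nat_lit 1) (nat_lit 0) (nat_lit 3) (nat_lit 0x5414) (nat_lit 0x10002000100000000000100020000) (nat_lit 1) (nat_lit 1) (.st (nat_lit 5) (nat_lit 0) (nat_lit 3) (nat_lit 0x5504) (nat_lit 0x10002000200010000000000010000) (nat_lit 1) (nat_lit 1) (.st (nat_lit 6) (nat_lit 0) (nat_lit 3) (nat_lit 0x5404) (nat_lit 0x10002000100000000000000010000) (nat_lit 1) (nat_lit 1) (.st (nat_lit 7) (nat_lit 0) (nat_lit 3) (nat_lit 0x5514) (nat_lit 0x20003000200010000000100020000) (nat_lit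 1) (nat_lit 1) (.ex (nat_lit 0) (.split (nat_lit 1) (nat_lit 0) (.split (nat_lit 6) (nat_lit 1) (.split (nat_lit 7) (nat_lit 6) (.pd (.cons (nat_lit 2) (nat_lit 3) (nat_lit 0) (nat_lit 0x61650000) (nat_lit 0xf423f65b97b71aef423f000000000061a795b8cc) (.cons (nat_lit 2) (nat_lit 4) (nat_lit 0) (nat_lit 0x61603000) (nat_lit 0xf423f7a11df423f00000f423f000007a11b7a119) .nil)) t497_1) (.non (nat_lit 0) (nat_lit 3) (nat_lit 0x9404) (nat_lit 0x10002000100000000000000010000))) (.non (nat_lit 0) (nat_lit 3) (nat_lit 0xa804) (nat_lit 0x10002000100000000000000020000))) t497_2) (.split (nat_lit 8) (nat_lit 1) (.split (nat_lit 8) (nat_lit 2) (.split (nat_lit 8) (nat_lit 3) (.split (nat_lit 8) (nat_lit 4) (.split (nat_lit 8) (nat_lit 5) (.split (nat_lit 8) (nat_lit 6) (.split (nat_lit 8) (nat_lit 7) (.split (nat_lit 8) (nat_lit 0) (.split (nat_lit 7) (nat_lit 6) (.split (nat_lit 6) (nat_lit 1) (.sup (nat_lit 0x30006000b0010000d000000000000) (nat_lit 0x300000000000000000000000400020005)) (.non (nat_lit 0) (nat_lit 3) (nat_lit 0xa804) (nat_lit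 0x10002000100000000000000020000))) (.non (nat_lit 0) (nat_lit 3) (nat_lit 0x9404) (nat_lit 0x10002000100000000000000010000))) (.non (nat_lit 1) (nat_lit 3) (nat_lit 0x20021) (nat_lit 0x100000000000000000000000100000002))) (.non (nat_lit 0) (nat_lit 3) (nat_lit 0x15514) (nat_lit 0x100020003000200010000000100020000))) (.non (nat_lit 0) (nat_lit 3) (nat_lit 0x15404) (nat_lit 0x100010002000100000000000000010000))) (.non (nat_lit 0) (nat_lit 3) (nat_lit 0x15504) (nat_lit 0x100010002000200010000000000010000))) (.star (nat_lit 8) (nat_lit 0) (nat_lit 4))) (.star (nat_lit 8) (nat_lit 0) (nat_lit 3))) (.non (nat_lit 1) (nat_lit 3) (nat_lit 0x10011) (nat_lit 0x100000000000000000000000100000001))) (.non (nat_lit 0) (nat_lit 3) (nat_lit 0x15414) (nat_lit 0x100010002000100000000000100020000))))))))) (.split (nat_lit 6) (nat_lit 1) (.split (nat_lit 7) (nat_lit 2) (.sup (nat_lit 0x80009000a) (nat_lit 0x100040007000a0008000000000000)) (.non (nat_lit 0) (nat_lit 3) (nat_lit 0xa814) (nat_lit 0x30002000100000000000400020000))) (.non (nat_lit 0)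 (nat_lit 3) (nat_lit 0x5014) (nat_lit 0x10001000000000000000100010000))))

noncomputable def t497_4 : Tr := (.split (nat_lit 1) (nat_lit 0) (.pd (.cons (nat_lit 0) (nat_lit 5) (nat_lit 0) (nat_lit 0x61033110) (nat_lit 0xf423fb71ae00000f423f54591f423f65b9700000) (.cons (nat_lit 0) (nat_lit 6) (nat_lit 0) (nat_lit 0x70433110) (nat_lit 0xf423f00000f423fb71ae1f156f423fb71ae00000) (.cons (nat_lit 1) (nat_lit 5) (nat_lit 0) (nat_lit 0x7033000) (nat_lit 0xb71aef423f00000f423f54591f423f0000028b07) (.cons (nat_lit 1) (nat_lit 6) (nat_lit 0) (nat_lit 0x433000) (nat_lit 0xf423f00000f423fb71ae1f156f423f000003d08d) (.cons (nat_lit 1) (nat_lit 7) (nat_lit 0) (nat_lit 0x5433000) (nat_lit 0xf423fb71aea2c2804737f423f000007a11e) (.cons (nat_lit 2) (nat_lit 6) (nat_lit 0) (nat_lit 0x433000) (nat_lit 0xf423f00000f423fb71ae1f15600000f423f3d08d) .nil)))))) (.leaf (.cons (nat_lit 0x1544) (nat_lit 0x2000300040003000000010000) (.cons (nat_lit 0x5005) (nat_lit 0x10001000000000000000000010001) .nil)) .nil)) (.split (nat_lit 1) (nat_lit 0) (.pd (.cons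 (nat_lit 0) (nat_lit 5) (nat_lit 0) (nat_lit 0x61033110) (nat_lit 0xf423fb71ae00000f423f54591f423f65b9700000) (.cons (nat_lit 0) (nat_lit 6) (nat_lit 0) (nat_lit 0x70433110) (nat_lit 0xf423f00000f423fb71ae1f156f423fb71ae00000) (.cons (nat_lit 1) (nat_lit 5) (nat_lit 0) (nat_lit 0x7033000) (nat_lit 0xb71aef423f00000f423f54591f423f0000028b07) (.cons (nat_lit 1) (nat_lit 6) (nat_lit 0) (nat_lit 0x433000) (nat_lit 0xf423f00000f423fb71ae1f156f423f000003d08d) (.cons (nat_lit 1) (nat_lit 7) (nat_lit 0) (nat_lit 0x5433000) (nat_lit 0xf423fb71aea2c2804737f423f000007a11e) (.cons (nat_lit 2) (nat_lit 6) (nat_lit 0) (nat_lit 0x433000) (nat_lit 0xf423f00000f423fb71ae1f15600000f423f17500) .nil)))))) (.leaf (.cons (nat_lit 0x1544) (nat_lit 0x2000300040003000000010000) (.cons (nat_lit 0x5005) (nat_lit 0x10001000000000000000000010001) .nil)) .nil)) (.pd (.cons (nat_lit 0) (nat_lit 5) (nat_lit 0) (nat_lit 0x61033110) (nat_lit 0xf423fb71ae00000f423f54591f423f65b9700000) (.cons (nat_lit 0) (nat_lit 6) (nat_lit 0) (nat_lit 0x70433110) (nat_lit 0xf423f00000f423fb71ae1f156f423fb71ae00000)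 (.cons (nat_lit 1) (nat_lit 5) (nat_lit 0) (nat_lit 0x7033000) (nat_lit 0xb71aef423f00000f423f54591f423f0000028b07) (.cons (nat_lit 1) (nat_lit 6) (nat_lit 0) (nat_lit 0x433000) (nat_lit 0xf423f00000f423fb71ae1f156f423f000003d08d) (.cons (nat_lit 1) (nat_lit 7) (nat_lit 0) (nat_lit 0x5433000) (nat_lit 0xf423fb71aea2c2804737f423f000007a11e) .nil))))) (.leaf (.cons (nat_lit 0x1544) (nat_lit 0x2000300040003000000010000) (.cons (nat_lit 0x400d) (nat_lit 0x10000000000000000000000010002) .nil)) .nil))))

noncomputable def t497_5 : Tr := (.ex (nat_lit 3) (.ex (nat_lit 4) (.split (nat_lit 2) (nat_lit 1) (.split (nat_lit 6) (nat_lit 1) (.split (nat_lit 7) (nat_lit 6) (.split (nat_lit 2) (nat_lit 0) (.split (nat_lit 7) (nat_lit 0) (.split (nat_lit 1) (nat_lit 0) (.pd (.cons (nat_lit 0) (nat_lit 5) (nat_lit 0) (nat_lit 0x61033110) (nat_lit 0xf423fb71ae00000f423f54591f423f65b9700000) (.cons (nat_lit 0) (nat_lit 6) (nat_lit 0) (nat_lit 0x70433110) (nat_lit 0xf423f00000f423fb71ae1f156f423fb71ae00000) (.cons (nat_lit 1) (nat_lit 5) (nat_lit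 0) (nat_lit 0x7033000) (nat_lit 0xb71aef423f00000f423f54591f423f0000028b07) (.cons (nat_lit 1) (nat_lit 6) (nat_lit 0) (nat_lit 0x433000) (nat_lit 0xf423f00000f423fb71ae1f156f423f000003d08d) (.cons (nat_lit 1) (nat_lit 7) (nat_lit 0) (nat_lit 0x5433000) (nat_lit 0xf423fb71aea2c2804737f423f000007a11e) (.cons (nat_lit 2) (nat_lit 6) (nat_lit 0) (nat_lit 0x433000) (nat_lit 0xf423f00000f423fb71ae1f15600000f423f7a11d) .nil)))))) (.leaf (.cons (nat_lit 0x1544) (nat_lit 0x2000300040003000000010000) (.cons (nat_lit 0x5005) (nat_lit 0x10001000000000000000000010001) .nil)) .nil)) t497_4) (.non (nat_lit 1) (nat_lit 3) (nat_lit 0x8021) (nat_lit 0x10000000000000000000100000002))) (.non (nat_lit 1) (nat_lit 3) (nat_lit 0x5411) (nat_lit 0x30002000100000000000300000004))) (.non (nat_lit 0) (nat_lit 3) (nat_lit 0x9404) (nat_lit 0x10002000100000000000000010000))) (.non (nat_lit 0) (nat_lit 3) (nat_lit 0xa804) (nat_lit 0x10002000100000000000000020000))) (.non (nat_lit 0) (nat_lit 3) (nat_lit 0x5424) (nat_lit 0x10002000100000000000100020000)))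 (.split (nat_lit 8) (nat_lit 0) (.split (nat_lit 8) (nat_lit 1) (.split (nat_lit 8) (nat_lit 2) (.split (nat_lit 8) (nat_lit 5) (.split (nat_lit 8) (nat_lit 6) (.split (nat_lit 8) (nat_lit 7) (.split (nat_lit 8) (nat_lit 3) (.unj (nat_lit 0x15) (nat_lit 0x100010001) (nat_lit 0x10540) (nat_lit 0x100000000000100020002000000000000)) (.unj (nat_lit 0x15) (nat_lit 0x100010001) (nat_lit 0x10140) (nat_lit 0x100000000000000010001000000000000))) (.non (nat_lit 0) (nat_lit 3) (nat_lit 0x15500) (nat_lit 0x100010001000100010000000000000000))) (.non (nat_lit 0) (nat_lit 3) (nat_lit 0x11500) (nat_lit 0x100000001000100010000000000000000))) (.non (nat_lit 0) (nat_lit 3) (nat_lit 0x10500) (nat_lit 0x100000000000100010000000000000000))) (.non (nat_lit 0) (nat_lit 3) (nat_lit 0x11514) (nat_lit 0x100000001000100010000000100010000))) (.star (nat_lit 8) (nat_lit 1) (nat_lit 4))) (.star (nat_lit 8) (nat_lit 0) (nat_lit 4)))) (.split (nat_lit 8) (nat_lit 0) (.split (nat_lit 8) (nat_lit 1) (.split (nat_lit 8) (nat_lit 2) (.split (nat_lit 8) (nat_lit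 5) (.split (nat_lit 8) (nat_lit 6) (.split (nat_lit 8) (nat_lit 7) (.split (nat_lit 8) (nat_lit 4) (.unj (nat_lit 0x15) (nat_lit 0x100010001) (nat_lit 0x10540) (nat_lit 0x100000000000100020002000000000000)) (.unj (nat_lit 0x15) (nat_lit 0x100010001) (nat_lit 0x10140) (nat_lit 0x100000000000000010001000000000000))) (.non (nat_lit 0) (nat_lit 3) (nat_lit 0x15514) (nat_lit 0x100020003000200010000000100020000))) (.non (nat_lit 0) (nat_lit 3) (nat_lit 0x15404) (nat_lit 0x100010002000100000000000000010000))) (.non (nat_lit 0) (nat_lit 3) (nat_lit 0x15504) (nat_lit 0x100010002000200010000000000010000))) (.non (nat_lit 1) (nat_lit 3) (nat_lit 0x25021) (nat_lit 0x100020001000000000000000200000003))) (.star (nat_lit 8) (nat_lit 1) (nat_lit 3))) (.star (nat_lit 8) (nat_lit 0) (nat_lit 3))))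

noncomputable def t497_6 : Tr := (.ex (nat_lit 4) (.split (nat_lit 2) (nat_lit 1) (.split (nat_lit 7) (nat_lit 1) (.split (nat_lit 7) (nat_lit 6) (.split (nat_lit 2) (nat_lit 0) (.split (nat_lit 7) (nat_lit 0) (.pd (.cons (nat_lit 0) (nat_lit 5) (nat_lit 0) (nat_lit 0x17033110) (nat_lit 0xb71aef423f00000f423f54591f423f65b9700000) (.cons (nat_lit 0) (nat_lit 6) (nat_lit 0) (nat_lit 0x10433110) (nat_lit 0xf423f00000f423fb71ae1f156f423f7a11d00000) (.cons (nat_lit 0) (nat_lit 7) (nat_lit 0) (nat_lit 0x5433110) (nat_lit 0xf423fb71aea2c2804737f423fb71ae00000) (.cons (nat_lit 1) (nat_lit 5) (nat_lit 0) (nat_lit 0x7033000) (nat_lit 0xb71aef423f00000f423f54591f423f0000028b07) (.cons (nat_lit 1) (nat_lit 6) (nat_lit 0) (nat_lit 0x433000) (nat_lit 0xf423f00000f423fb71ae1f156f423f000003d08d) (.cons (nat_lit 1) (nat_lit 7) (nat_lit 0) (nat_lit 0x5433000) (nat_lit 0xf423fb71aea2c2804737f423f000007a11e) (.cons (nat_lit 2) (nat_lit 7) (nat_lit 0x11) (nat_lit 0x5433001) (nat_lit 0xf423fb71aea2c2804737000000000100001) .nil))))))) (.leaf (.cons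 (nat_lit 0x4005) (nat_lit 0x10000000000000000000000010001) .nil) .nil)) (.non (nat_lit 1) (nat_lit 3) (nat_lit 0x8021) (nat_lit 0x10000000000000000000100000002))) (.non (nat_lit 1) (nat_lit 3) (nat_lit 0x5411) (nat_lit 0x30002000100000000000300000004))) (.non (nat_lit 0) (nat_lit 3) (nat_lit 0x6a04) (nat_lit 0x40003000200010000000000020000))) (.non (nat_lit 0) (nat_lit 3) (nat_lit 0xa814) (nat_lit 0x30002000100000000000200040000))) (.split (nat_lit 7) (nat_lit 0) (.split (nat_lit 7) (nat_lit 1) (.sup (nat_lit 0xa00070007) (nat_lit 0x100040007000a0008000000000000)) (.non (nat_lit 0) (nat_lit 3) (nat_lit 0x8024) (nat_lit 0x10000000000000000000100020000))) (.non (nat_lit 1) (nat_lit 3) (nat_lit 0x8021) (nat_lit 0x10000000000000000000100000002)))) (.split (nat_lit 8) (nat_lit 0) (.split (nat_lit 8) (nat_lit 1) (.split (nat_lit 8) (nat_lit 2) (.split (nat_lit 8) (nat_lit 5) (.split (nat_lit 8) (nat_lit 6) (.split (nat_lit 8) (nat_lit 7) (.split (nat_lit 8) (nat_lit 3) (.unj (nat_lit 0x15) (nat_lit 0x100010001) (nat_lit 0x10540) (nat_lit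 0x100000000000100020002000000000000)) (.unj (nat_lit 0x15) (nat_lit 0x100010001) (nat_lit 0x10140) (nat_lit 0x100000000000000010001000000000000))) (.non (nat_lit 0) (nat_lit 3) (nat_lit 0x15500) (nat_lit 0x100010001000100010000000000000000))) (.non (nat_lit 0) (nat_lit 3) (nat_lit 0x11500) (nat_lit 0x100000001000100010000000000000000))) (.non (nat_lit 0) (nat_lit 3) (nat_lit 0x10500) (nat_lit 0x100000000000100010000000000000000))) (.non (nat_lit 0) (nat_lit 3) (nat_lit 0x15514) (nat_lit 0x100010001000100010000000100010000))) (.star (nat_lit 8) (nat_lit 1) (nat_lit 4))) (.star (nat_lit 8) (nat_lit 0) (nat_lit 4))))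

noncomputable def t497_7 : Tr := (.st (nat_lit 0) (nat_lit 1) (nat_lit 3) (nat_lit 0x4021) (nat_lit 0x10000000000000000000100000002) (nat_lit 1) (nat_lit 1) (.st (nat_lit 5) (nat_lit 1) (nat_lit 3) (nat_lit 0x5521) (nat_lit 0x20002000200010000000100000002) (nat_lit 1) (nat_lit 1) (.st (nat_lit 6) (nat_lit 1) (nat_lit 3) (nat_lit 0x5421) (nat_lit 0x20002000100000000000100000002) (nat_lit 1) (nat_lit 1) (.ex (nat_lit 1) (.ex (nat_lit 3) t497_6 (.split (nat_lit 8) (nat_lit 0) (.split (nat_lit 8) (nat_lit 1) (.split (nat_lit 8) (nat_lit 2) (.split (nat_lit 8) (nat_lit 5) (.split (nat_lit 8) (nat_lit 6) (.split (nat_lit 8) (nat_lit 7) (.split (nat_lit 8) (nat_lit 4) (.unj (nat_lit 0x15) (nat_lit 0x100010001) (nat_lit 0x10540) (nat_lit 0x100000000000100020002000000000000)) (.unj (nat_lit 0x15) (nat_lit 0x100010001) (nat_lit 0x10140) (nat_lit 0x100000000000000010001000000000000))) (.non (nat_lit 0) (nat_lit 4) (nat_lit 0x15454) (nat_lit 0x200030002000100000001000100020000))) (.non (nat_lit 1) (nat_lit 3) (nat_lit 0x15421) (nat_lit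 0x100020002000100000000000100000002))) (.non (nat_lit 1) (nat_lit 3) (nat_lit 0x15521) (nat_lit 0x100020002000200010000000100000002))) (.non (nat_lit 1) (nat_lit 3) (nat_lit 0x25021) (nat_lit 0x100020001000000000000000200000003))) (.star (nat_lit 8) (nat_lit 1) (nat_lit 3))) (.star (nat_lit 8) (nat_lit 0) (nat_lit 3)))) (.split (nat_lit 8) (nat_lit 0) (.split (nat_lit 8) (nat_lit 2) (.split (nat_lit 8) (nat_lit 3) (.split (nat_lit 8) (nat_lit 4) (.split (nat_lit 8) (nat_lit 5) (.split (nat_lit 8) (nat_lit 6) (.split (nat_lit 8) (nat_lit 7) (.split (nat_lit 8) (nat_lit 1) (.split (nat_lit 7) (nat_lit 0) (.split (nat_lit 7) (nat_lit 1) (.sup (nat_lit 0x10006000b0010000d000000000000) (nat_lit 0x100000000000000000000000200020002)) (.non (nat_lit 0) (nat_lit 3) (nat_lit 0x1a804) (nat_lit 0x200030002000100000000000000040000))) (.non (nat_lit 1) (nat_lit 3) (nat_lit 0x8021) (nat_lit 0x10000000000000000000100000002))) (.non (nat_lit 0) (nat_lit 3) (nat_lit 0x24014) (nat_lit 0x100010000000000000000000100020000))) (.non (nat_lit 0) (nat_lit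 3) (nat_lit 0x14004) (nat_lit 0x100010000000000000000000000010000))) (.non (nat_lit 0) (nat_lit 3) (nat_lit 0x15004) (nat_lit 0x100010001000000000000000000010000))) (.non (nat_lit 0) (nat_lit 3) (nat_lit 0x15404) (nat_lit 0x100010001000100000000000000010000))) (.star (nat_lit 8) (nat_lit 1) (nat_lit 4))) (.star (nat_lit 8) (nat_lit 1) (nat_lit 3))) (.non (nat_lit 0) (nat_lit 3) (nat_lit 0x10014) (nat_lit 0x100000000000000000000000100010000))) (.non (nat_lit 1) (nat_lit 3) (nat_lit 0x14021) (nat_lit 0x100010000000000000000000100000002)))))))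

noncomputable def t497 : Tr := (.split (nat_lit 6) (nat_lit 0) (.split (nat_lit 6) (nat_lit 2) (.split (nat_lit 5) (nat_lit 2) (.split (nat_lit 7) (nat_lit 0) (.split (nat_lit 7) (nat_lit 1) t497_3 (.split (nat_lit 7) (nat_lit 2) (.split (nat_lit 6) (nat_lit 1) (.sup (nat_lit 0xa0006000a) (nat_lit 0x100040007000a0008000000000000)) (.non (nat_lit 0) (nat_lit 3) (nat_lit 0x5004) (nat_lit 0x10001000000000000000000010000))) (.non (nat_lit 0) (nat_lit 3) (nat_lit 0x4014) (nat_lit 0x10000000000000000000100010000)))) (.split (nat_lit 7) (nat_lit 2) (.split (nat_lit 7) (nat_lit 1) (.split (nat_lit 6) (nat_lit 1) (.split (nat_lit 7) (nat_lit 0) (.sup (nat_lit 0xa00090008) (nat_lit 0x100040007000a0008000000000000)) (.non (nat_lit 1) (nat_lit 3) (nat_lit 0x8021) (nat_lit 0x10000000000000000000100000002))) (.st (nat_lit 0) (nat_lit 1) (nat_lit 3) (nat_lit 0x4021) (nat_lit 0x10000000000000000000100000002) (nat_lit 1) (nat_lit 1) (.st (nat_lit 1) (nat_lit 0) (nat_lit 3) (nat_lit 0x5414) (nat_lit 0x10002000100000000000100020000) (nat_lit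 1) (nat_lit 1) (.st (nat_lit 5) (nat_lit 0) (nat_lit 3) (nat_lit 0x5504) (nat_lit 0x10002000200010000000000010000) (nat_lit 1) (nat_lit 1) (.st (nat_lit 6) (nat_lit 0) (nat_lit 3) (nat_lit 0x5404) (nat_lit 0x10002000100000000000000010000) (nat_lit 1) (nat_lit 1) (.st (nat_lit 7) (nat_lit 0) (nat_lit 3) (nat_lit 0x5514) (nat_lit 0x20003000200010000000100020000) (nat_lit 1) (nat_lit 1) t497_5)))))) (.split (nat_lit 6) (nat_lit 1) t497_7 (.non (nat_lit 0) (nat_lit 3) (nat_lit 0x5004) (nat_lit 0x10001000000000000000000010000)))) (.non (nat_lit 1) (nat_lit 3) (nat_lit 0x4011) (nat_lit 0x10000000000000000000100000001)))) (.non (nat_lit 1) (nat_lit 3) (nat_lit 0x2a21) (nat_lit 0x1000200010000000200000002))) (.non (nat_lit 1) (nat_lit 3) (nat_lit 0xa821) (nat_lit 0x10002000100000000000200000002))) (.non (nat_lit 1) (nat_lit 3) (nat_lit 0x5421) (nat_lit 0x10002000100000000000100000002)))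

noncomputable def t498_1 : Tr := (.split (nat_lit 2) (nat_lit 1) (.split (nat_lit 7) (nat_lit 1) (.split (nat_lit 7) (nat_lit 6) (.split (nat_lit 2) (nat_lit 0) (.split (nat_lit 7) (nat_lit 0) (.pd (.cons (nat_lit 0) (nat_lit 4) (nat_lit 0) (nat_lit 0x17603110) (nat_lit 0xa2c28b71aef423f00000f423ff423f5b8d400000) (.cons (nat_lit 1) (nat_lit 4) (nat_lit 0) (nat_lit 0x7603000) (nat_lit 0xa2c28b71aef423f00000f423ff423f000001e844) .nil)) (.ex (nat_lit 4) (.pd (.cons (nat_lit 0) (nat_lit 6) (nat_lit 0) (nat_lit 0x10433110) (nat_lit 0xf423f00000f423fb71ae1f156f423f7a11d00000) (.cons (nat_lit 0) (nat_lit 7) (nat_lit 0) (nat_lit 0x5433110) (nat_lit 0xf423fb71aea2c2804737f423fb71ae00000) (.cons (nat_lit 1) (nat_lit 6) (nat_lit 0) (nat_lit 0x433000) (nat_lit 0xf423f00000f423fb71ae1f156f423f000003d08d) (.cons (nat_lit 1) (nat_lit 7) (nat_lit 0) (nat_lit 0x5433000) (nat_lit 0xf423fb71aea2c2804737f423f000007a11e) (.cons (nat_lit 2) (nat_lit 7) (nat_lit 0x11) (nat_lit 0x5433001) (nat_lit 0xf423fb71aea2c2804737000000000100001) .nil))))) (.leaf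 (.cons (nat_lit 0x4005) (nat_lit 0x10000000000000000000000010001) .nil) .nil)) (.split (nat_lit 8) (nat_lit 0) (.split (nat_lit 8) (nat_lit 1) (.split (nat_lit 8) (nat_lit 2) (.split (nat_lit 8) (nat_lit 3) (.split (nat_lit 8) (nat_lit 5) (.split (nat_lit 8) (nat_lit 6) (.split (nat_lit 8) (nat_lit 7) (.unj (nat_lit 0x15) (nat_lit 0x100010001) (nat_lit 0x10540) (nat_lit 0x100000000000100020002000000000000)) (.non (nat_lit 0) (nat_lit 3) (nat_lit 0x15500) (nat_lit 0x100010001000100010000000000000000))) (.non (nat_lit 0) (nat_lit 3) (nat_lit 0x11500) (nat_lit 0x100000001000100010000000000000000))) (.non (nat_lit 0) (nat_lit 3) (nat_lit 0x10500) (nat_lit 0x100000000000100010000000000000000))) (.non (nat_lit 0) (nat_lit 5) (nat_lit 0x10140) (nat_lit 0x100000000000000010001000000000000))) (.non (nat_lit 0) (nat_lit 3) (nat_lit 0x15514) (nat_lit 0x100010001000100010000000100010000))) (.non (nat_lit 0) (nat_lit 3) (nat_lit 0x15504) (nat_lit 0x100010001000100010000000000010000))) (.non (nat_lit 1) (nat_lit 3) (nat_lit 0x15501) (nat_lit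 0x100010001000100010000000000000001))))) (.non (nat_lit 1) (nat_lit 3) (nat_lit 0x8021) (nat_lit 0x10000000000000000000100000002))) (.non (nat_lit 1) (nat_lit 3) (nat_lit 0x5411) (nat_lit 0x30002000100000000000300000004))) (.non (nat_lit 0) (nat_lit 3) (nat_lit 0x6a04) (nat_lit 0x40003000200010000000000020000))) (.non (nat_lit 0) (nat_lit 3) (nat_lit 0xa814) (nat_lit 0x30002000100000000000200040000))) (.split (nat_lit 7) (nat_lit 0) (.split (nat_lit 7) (nat_lit 1) (.sup (nat_lit 0xa00070007) (nat_lit 0x100040007000a0008000000000000)) (.non (nat_lit 0) (nat_lit 3) (nat_lit 0x8024) (nat_lit 0x10000000000000000000100020000))) (.non (nat_lit 1) (nat_lit 3) (nat_lit 0x8021) (nat_lit 0x10000000000000000000100000002))))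

noncomputable def t498_2 : Tr := (.st (nat_lit 5) (nat_lit 1) (nat_lit 3) (nat_lit 0x5521) (nat_lit 0x20002000200010000000100000002) (nat_lit 1) (nat_lit 1) (.st (nat_lit 6) (nat_lit 1) (nat_lit 3) (nat_lit 0x5421) (nat_lit 0x20002000100000000000100000002) (nat_lit 1) (nat_lit 1) (.st (nat_lit 7) (nat_lit 1) (nat_lit 3) (nat_lit 0x5021) (nat_lit 0x20001000000000000000100000002) (nat_lit 1) (nat_lit 1) (.ex (nat_lit 1) (.ex (nat_lit 3) t498_1 (.split (nat_lit 8) (nat_lit 0) (.split (nat_lit 8) (nat_lit 1) (.split (nat_lit 8) (nat_lit 2) (.split (nat_lit 8) (nat_lit 4) (.split (nat_lit 8) (nat_lit 5) (.split (nat_lit 8) (nat_lit 6) (.split (nat_lit 8) (nat_lit 7) (.unj (nat_lit 0x15) (nat_lit 0x100010001) (nat_lit 0x10540) (nat_lit 0x100000000000100020002000000000000)) (.non (nat_lit 0) (nat_lit 5) (nat_lit 0x15140) (nat_lit 0x300020001000000030004000000000000))) (.non (nat_lit 0) (nat_lit 5) (nat_lit 0x15140) (nat_lit 0x300010002000000030004000000000000))) (.non (nat_lit 1) (nat_lit 3) (nat_lit 0x15521) (nat_lit 0x100020002000200010000000100000002)))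 (.non (nat_lit 0) (nat_lit 5) (nat_lit 0x10140) (nat_lit 0x100000000000000010001000000000000))) (.non (nat_lit 0) (nat_lit 5) (nat_lit 0x10154) (nat_lit 0x300000000000000030004000200010000))) (.star (nat_lit 8) (nat_lit 1) (nat_lit 3))) (.star (nat_lit 8) (nat_lit 0) (nat_lit 3)))) (.split (nat_lit 8) (nat_lit 0) (.split (nat_lit 8) (nat_lit 2) (.split (nat_lit 8) (nat_lit 3) (.split (nat_lit 8) (nat_lit 4) (.split (nat_lit 8) (nat_lit 5) (.split (nat_lit 8) (nat_lit 6) (.split (nat_lit 8) (nat_lit 7) (.split (nat_lit 8) (nat_lit 1) (.split (nat_lit 7) (nat_lit 0) (.split (nat_lit 7) (nat_lit 1) (.sup (nat_lit 0x10006000b0010000d000000000000) (nat_lit 0x100000000000000000000000200020002)) (.non (nat_lit 0) (nat_lit 3) (nat_lit 0x1a804) (nat_lit 0x200030002000100000000000000040000))) (.non (nat_lit 1) (nat_lit 3) (nat_lit 0x8021) (nat_lit 0x10000000000000000000100000002))) (.non (nat_lit 0) (nat_lit 3) (nat_lit 0x24014) (nat_lit 0x100010000000000000000000100020000))) (.non (nat_lit 0) (nat_lit 3) (nat_lit 0x14004) (nat_lit 0x100010000000000000000000000010000)))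 (.non (nat_lit 0) (nat_lit 3) (nat_lit 0x15004) (nat_lit 0x100010001000000000000000000010000))) (.star (nat_lit 8) (nat_lit 1) (nat_lit 5))) (.non (nat_lit 0) (nat_lit 3) (nat_lit 0x15504) (nat_lit 0x100010001000100010000000000010000))) (.star (nat_lit 8) (nat_lit 1) (nat_lit 3))) (.non (nat_lit 0) (nat_lit 3) (nat_lit 0x10014) (nat_lit 0x100000000000000000000000100010000))) (.non (nat_lit 1) (nat_lit 3) (nat_lit 0x14021) (nat_lit 0x100010000000000000000000100000002)))))))

noncomputable def t498 : Tr := (.split (nat_lit 6) (nat_lit 2) (.split (nat_lit 4) (nat_lit 2) (.split (nat_lit 7) (nat_lit 0) (.split (nat_lit 7) (nat_lit 1) (.split (nat_lit 7) (nat_lit 2) .uj (.split (nat_lit 7) (nat_lit 2) (.sup (nat_lit 0x80009000a) (nat_lit 0x100040007000a0008000000000000)) (.non (nat_lit 0) (nat_lit 3) (nat_lit 0xa814) (nat_lit 0x30002000100000000000400020000)))) (.split (nat_lit 7) (nat_lit 2) (.sup (nat_lit 0xa0006000a) (nat_lit 0x100040007000a0008000000000000)) (.non (nat_lit 0) (nat_lit 3) (nat_lit 0x4014) (nat_lit 0x10000000000000000000100010000))))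 (.split (nat_lit 7) (nat_lit 2) (.split (nat_lit 7) (nat_lit 1) (.split (nat_lit 7) (nat_lit 0) (.sup (nat_lit 0xa00090008) (nat_lit 0x100040007000a0008000000000000)) (.non (nat_lit 1) (nat_lit 3) (nat_lit 0x8021) (nat_lit 0x10000000000000000000100000002))) (.st (nat_lit 0) (nat_lit 1) (nat_lit 3) (nat_lit 0x4021) (nat_lit 0x10000000000000000000100000002) (nat_lit 1) (nat_lit 1) t498_2)) (.non (nat_lit 1) (nat_lit 3) (nat_lit 0x4011) (nat_lit 0x10000000000000000000100000001)))) (.non (nat_lit 1) (nat_lit 5) (nat_lit 0x151) (nat_lit 0x10001000100000001))) (.non (nat_lit 1) (nat_lit 3) (nat_lit 0xa821) (nat_lit 0x10002000100000000000200000002)))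

noncomputable def t501_1 : Tr := (.ex (nat_lit 5) (.split (nat_lit 2) (nat_lit 1) (.split (nat_lit 7) (nat_lit 1) (.split (nat_lit 7) (nat_lit 6) (.split (nat_lit 2) (nat_lit 0) (.split (nat_lit 7) (nat_lit 0) (.pd (.cons (nat_lit 0) (nat_lit 3) (nat_lit 0) (nat_lit 0x17650110) (nat_lit 0x98965a2c28b71aef423f00000f423f5572c00000) (.cons (nat_lit 0) (nat_lit 6) (nat_lit 0) (nat_lit 0x10433110) (nat_lit 0xf423f00000f423fb71ae1f156f423f7a11d00000) (.cons (nat_lit 0) (nat_lit 7) (nat_lit 0) (nat_lit 0x5433110) (nat_lit 0xf423fb71aea2c2804737f423fb71ae00000) (.cons (nat_lit 1) (nat_lit 3) (nat_lit 0) (nat_lit 0x7650000) (nat_lit 0x98965a2c28b71aef423f00000f423f000001869c) (.cons (nat_lit 1) (nat_lit 6) (nat_lit 0) (nat_lit 0x433000) (nat_lit 0xf423f00000f423fb71ae1f156f423f000003d08d) (.cons (nat_lit 1) (nat_lit 7) (nat_lit 0) (nat_lit 0x5433000) (nat_lit 0xf423fb71aea2c2804737f423f000007a11e) (.cons (nat_lit 2) (nat_lit 7) (nat_lit 0x11) (nat_lit 0x5433001) (nat_lit 0xf423fb71aea2c2804737000000000100001) .nil))))))) (.leaf (.cons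 (nat_lit 0x4005) (nat_lit 0x10000000000000000000000010001) .nil) .nil)) (.non (nat_lit 1) (nat_lit 4) (nat_lit 0x8021) (nat_lit 0x10000000000000000000100000002))) (.non (nat_lit 1) (nat_lit 4) (nat_lit 0x5411) (nat_lit 0x30002000100000000000300000004))) (.non (nat_lit 0) (nat_lit 4) (nat_lit 0x6814) (nat_lit 0x30002000100000000000100020000))) (.non (nat_lit 0) (nat_lit 4) (nat_lit 0xa814) (nat_lit 0x30002000100000000000200040000))) (.split (nat_lit 7) (nat_lit 0) (.split (nat_lit 7) (nat_lit 1) (.sup (nat_lit 0xa00070007) (nat_lit 0x100040007000a0008000000000000)) (.non (nat_lit 0) (nat_lit 4) (nat_lit 0x8024) (nat_lit 0x10000000000000000000100020000))) (.non (nat_lit 1) (nat_lit 4) (nat_lit 0x8021) (nat_lit 0x10000000000000000000100000002)))) (.split (nat_lit 8) (nat_lit 0) (.split (nat_lit 8) (nat_lit 1) (.split (nat_lit 8) (nat_lit 2) (.split (nat_lit 8) (nat_lit 6) (.split (nat_lit 8) (nat_lit 7) (.split (nat_lit 8) (nat_lit 3) (.split (nat_lit 8) (nat_lit 4) (.unj (nat_lit 0x15) (nat_lit 0x100010001) (nat_lit 0x11540) (nat_lit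 0x100000001000200020002000000000000)) (.unj (nat_lit 0x15) (nat_lit 0x100010001) (nat_lit 0x10500) (nat_lit 0x100000000000100010000000000000000))) (.split (nat_lit 8) (nat_lit 4) (.unj (nat_lit 0x15) (nat_lit 0x100010001) (nat_lit 0x10540) (nat_lit 0x100000000000100010001000000000000)) (.non (nat_lit 0) (nat_lit 5) (nat_lit 0x10140) (nat_lit 0x100000000000000010001000000000000)))) (.non (nat_lit 0) (nat_lit 4) (nat_lit 0x15400) (nat_lit 0x100010001000100000000000000000000))) (.non (nat_lit 0) (nat_lit 4) (nat_lit 0x11400) (nat_lit 0x100000001000100000000000000000000))) (.non (nat_lit 0) (nat_lit 4) (nat_lit 0x15414) (nat_lit 0x100010001000100000000000100010000))) (.star (nat_lit 8) (nat_lit 1) (nat_lit 5))) (.star (nat_lit 8) (nat_lit 0) (nat_lit 5))))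

noncomputable def t501_2 : Tr := (.ex (nat_lit 1) (.ex (nat_lit 3) (.ex (nat_lit 4) t501_1 (.split (nat_lit 8) (nat_lit 0) (.split (nat_lit 8) (nat_lit 1) (.split (nat_lit 8) (nat_lit 2) (.split (nat_lit 8) (nat_lit 3) (.split (nat_lit 8) (nat_lit 6) (.split (nat_lit 8) (nat_lit 7) (.split (nat_lit 8) (nat_lit 5) (.unj (nat_lit 0x15) (nat_lit 0x100010001) (nat_lit 0x10540) (nat_lit 0x100000000000100020002000000000000)) (.unj (nat_lit 0x15) (nat_lit 0x100010001) (nat_lit 0x10500) (nat_lit 0x100000000000100010000000000000000))) (.non (nat_lit 0) (nat_lit 5) (nat_lit 0x15140) (nat_lit 0x300020001000000040003000000000000))) (.non (nat_lit 0) (nat_lit 5) (nat_lit 0x15140) (nat_lit 0x300010002000000040003000000000000))) (.non (nat_lit 0) (nat_lit 5) (nat_lit 0x10140) (nat_lit 0x100000000000000010001000000000000))) (.non (nat_lit 0) (nat_lit 5) (nat_lit 0x10154) (nat_lit 0x300000000000000040003000200010000))) (.star (nat_lit 8) (nat_lit 1) (nat_lit 4))) (.star (nat_lit 8) (nat_lit 0) (nat_lit 4)))) (.split (nat_lit 8) (nat_lit 0)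 (.split (nat_lit 8) (nat_lit 1) (.split (nat_lit 8) (nat_lit 2) (.split (nat_lit 8) (nat_lit 4) (.split (nat_lit 8) (nat_lit 6) (.split (nat_lit 8) (nat_lit 7) (.split (nat_lit 8) (nat_lit 5) (.unj (nat_lit 0x15) (nat_lit 0x100010001) (nat_lit 0x10540) (nat_lit 0x100000000000100020002000000000000)) (.unj (nat_lit 0x15) (nat_lit 0x100010001) (nat_lit 0x10540) (nat_lit 0x100000000000100010001000000000000))) (.non (nat_lit 0) (nat_lit 4) (nat_lit 0x15454) (nat_lit 0x200030002000100000001000100020000))) (.non (nat_lit 0) (nat_lit 5) (nat_lit 0x15140) (nat_lit 0x300010002000000030004000000000000))) (.non (nat_lit 0) (nat_lit 5) (nat_lit 0x10140) (nat_lit 0x100000000000000010001000000000000))) (.non (nat_lit 0) (nat_lit 5) (nat_lit 0x10154) (nat_lit 0x300000000000000030004000200010000))) (.non (nat_lit 0) (nat_lit 5) (nat_lit 0x14144) (nat_lit 0x300010000000000030004000000020000))) (.non (nat_lit 1) (nat_lit 4) (nat_lit 0x14021) (nat_lit 0x100010000000000000000000100000002)))) (.split (nat_lit 8) (nat_lit 0) (.split (nat_lit 8) (nat_lit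 2) (.split (nat_lit 8) (nat_lit 3) (.split (nat_lit 8) (nat_lit 4) (.split (nat_lit 8) (nat_lit 5) (.split (nat_lit 8) (nat_lit 6) (.split (nat_lit 8) (nat_lit 7) (.split (nat_lit 8) (nat_lit 1) (.split (nat_lit 7) (nat_lit 0) (.split (nat_lit 7) (nat_lit 1) (.sup (nat_lit 0x10006000b0010000d000000000000) (nat_lit 0x100000000000000000000000200020002)) (.non (nat_lit 0) (nat_lit 4) (nat_lit 0x1a804) (nat_lit 0x200030002000100000000000000040000))) (.non (nat_lit 1) (nat_lit 4) (nat_lit 0x8021) (nat_lit 0x10000000000000000000100000002))) (.non (nat_lit 0) (nat_lit 4) (nat_lit 0x24014) (nat_lit 0x100010000000000000000000100020000))) (.non (nat_lit 0) (nat_lit 4) (nat_lit 0x14004) (nat_lit 0x100010000000000000000000000010000))) (.non (nat_lit 0) (nat_lit 4) (nat_lit 0x15004) (nat_lit 0x100010001000000000000000000010000))) (.star (nat_lit 8) (nat_lit 1) (nat_lit 5))) (.star (nat_lit 8) (nat_lit 1) (nat_lit 4))) (.non (nat_lit 0) (nat_lit 5) (nat_lit 0x14144) (nat_lit 0x300010000000000030004000000020000))) (.non (nat_lit 0) (nat_lit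 4) (nat_lit 0x10014) (nat_lit 0x100000000000000000000000100010000))) (.non (nat_lit 1) (nat_lit 4) (nat_lit 0x14021) (nat_lit 0x100010000000000000000000100000002))))

noncomputable def t501 : Tr := (.split (nat_lit 6) (nat_lit 2) (.split (nat_lit 3) (nat_lit 2) (.split (nat_lit 7) (nat_lit 0) (.split (nat_lit 7) (nat_lit 1) (.split (nat_lit 7) (nat_lit 2) .uj (.split (nat_lit 7) (nat_lit 2) (.sup (nat_lit 0x80009000a) (nat_lit 0x100040007000a0008000000000000)) (.non (nat_lit 0) (nat_lit 4) (nat_lit 0xa814) (nat_lit 0x30002000100000000000400020000)))) (.split (nat_lit 7) (nat_lit 2) (.sup (nat_lit 0xa0006000a) (nat_lit 0x100040007000a0008000000000000)) (.non (nat_lit 0) (nat_lit 4) (nat_lit 0x4014) (nat_lit 0x10000000000000000000100010000)))) (.split (nat_lit 7) (nat_lit 2) (.split (nat_lit 7) (nat_lit 1) (.split (nat_lit 7) (nat_lit 0) (.sup (nat_lit 0xa00090008) (nat_lit 0x100040007000a0008000000000000)) (.non (nat_lit 1) (nat_lit 4) (nat_lit 0x8021) (nat_lit 0x10000000000000000000100000002))) (.st (nat_lit 0) (nat_lit 1) (nat_lit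 4) (nat_lit 0x4021) (nat_lit 0x10000000000000000000100000002) (nat_lit 1) (nat_lit 1) (.st (nat_lit 6) (nat_lit 1) (nat_lit 4) (nat_lit 0x5421) (nat_lit 0x20002000100000000000100000002) (nat_lit 1) (nat_lit 1) (.st (nat_lit 7) (nat_lit 1) (nat_lit 4) (nat_lit 0x5021) (nat_lit 0x20001000000000000000100000002) (nat_lit 1) (nat_lit 1) t501_2)))) (.non (nat_lit 1) (nat_lit 4) (nat_lit 0x4011) (nat_lit 0x10000000000000000000100000001)))) (.non (nat_lit 1) (nat_lit 5) (nat_lit 0x151) (nat_lit 0x10001000100000001))) (.non (nat_lit 1) (nat_lit 4) (nat_lit 0xa821) (nat_lit 0x10002000100000000000200000002)))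

noncomputable def t534_1 : Tr := (.ex (nat_lit 2) (.pd (.cons (nat_lit 1) (nat_lit 4) (nat_lit 0x101) (nat_lit 0x5503002) (nat_lit 0xf423fb71ae00000f423f000010000000001) (.cons (nat_lit 1) (nat_lit 5) (nat_lit 0x101) (nat_lit 0x6033002) (nat_lit 0xf423f00000f423fb71ae000010000000001) .nil)) (.ex (nat_lit 4) (.ex (nat_lit 5) (.pd (.cons (nat_lit 1) (nat_lit 3) (nat_lit 0x101) (nat_lit 0x5440002) (nat_lit 0xf423fb71ae1f15600000000010000000001) (.cons (nat_lit 1) (nat_lit 6) (nat_lit 0x101) (nat_lit 0x433002) (nat_lit 0xf423f54591437a2000010000000001) .nil)) (.leaf (.cons (nat_lit 0x1514) (nat_lit 0x3000400030000000100020000) (.cons (nat_lit 0x554) (nat_lit 0x300040003000100020000) (.cons (nat_lit 0x1505) (nat_lit 0x3000400030000000000020001) (.cons (nat_lit 0x545) (nat_lit 0x300040003000000020001) .nil)))) .nil)) (.split (nat_lit 7) (nat_lit 0) (.split (nat_lit 7) (nat_lit 1) (.split (nat_lit 7) (nat_lit 2) (.split (nat_lit 7) (nat_lit 3) (.split (nat_lit 7) (nat_lit 6) (.split (nat_lit 7) (nat_lit 4) (.sup (nat_lit 0xa0006000a)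 (nat_lit 0x50002000a00080000000000000000)) (.unj (nat_lit 0x15) (nat_lit 0x100010001) (nat_lit 0x4500) (nat_lit 0x10000000100010000000000000000))) (.non (nat_lit 0) (nat_lit 4) (nat_lit 0x5400) (nat_lit 0x10001000100000000000000000000))) (.non (nat_lit 0) (nat_lit 4) (nat_lit 0x5444) (nat_lit 0x10001000100000001000000010000))) (.star (nat_lit 7) (nat_lit 2) (nat_lit 5))) (.non (nat_lit 0) (nat_lit 4) (nat_lit 0x5404) (nat_lit 0x10001000100000000000000010000))) (.star (nat_lit 7) (nat_lit 0) (nat_lit 5)))) (.split (nat_lit 7) (nat_lit 0) (.split (nat_lit 7) (nat_lit 1) (.split (nat_lit 7) (nat_lit 2) (.split (nat_lit 7) (nat_lit 3) (.split (nat_lit 7) (nat_lit 6) (.split (nat_lit 7) (nat_lit 5) (.sup (nat_lit 0xa0006000a) (nat_lit 0x500000008000a0002000000000000)) (.unj (nat_lit 0x15) (nat_lit 0x100010001) (nat_lit 0x4500) (nat_lit 0x10000000100010000000000000000))) (.non (nat_lit 0) (nat_lit 4) (nat_lit 0x5454) (nat_lit 0x10002000100000001000100020000))) (.non (nat_lit 0) (nat_lit 5) (nat_lit 0x4140) (nat_lit 0x10000000000010001000000000000)))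 (.star (nat_lit 7) (nat_lit 2) (nat_lit 4))) (.non (nat_lit 0) (nat_lit 4) (nat_lit 0x5054) (nat_lit 0x10001000000000001000100020000))) (.star (nat_lit 7) (nat_lit 0) (nat_lit 4))))) (.split (nat_lit 7) (nat_lit 1) (.split (nat_lit 7) (nat_lit 3) (.split (nat_lit 7) (nat_lit 4) (.split (nat_lit 7) (nat_lit 5) (.split (nat_lit 7) (nat_lit 6) (.split (nat_lit 7) (nat_lit 0) (.split (nat_lit 7) (nat_lit 2) (.split (nat_lit 6) (nat_lit 1) (.split (nat_lit 3) (nat_lit 1) (.sup (nat_lit 0x3000800080003000000000000) (nat_lit 0x30000000000000000000500020004)) (.non (nat_lit 0) (nat_lit 4) (nat_lit 0x1094) (nat_lit 0x1000000000001000100020000))) (.non (nat_lit 0) (nat_lit 4) (nat_lit 0x6814) (nat_lit 0x10002000100000000000200030000))) (.non (nat_lit 0) (nat_lit 4) (nat_lit 0x9054) (nat_lit 0x10001000000000001000200020000))) (.unj (nat_lit 0x4011) (nat_lit 0x10000000000000000000100000001) (nat_lit 0x1540) (nat_lit 0x1000200020001000000000000))) (.non (nat_lit 0) (nat_lit 4) (nat_lit 0x5014) (nat_lit 0x10001000000000000000100010000)))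 (.star (nat_lit 7) (nat_lit 2) (nat_lit 5))) (.star (nat_lit 7) (nat_lit 2) (nat_lit 4))) (.non (nat_lit 0) (nat_lit 4) (nat_lit 0x4054) (nat_lit 0x10000000000000001000100010000))) (.non (nat_lit 0) (nat_lit 4) (nat_lit 0x4014) (nat_lit 0x10000000000000000000100010000))))

noncomputable def t534 : Tr := (.split (nat_lit 6) (nat_lit 1) (.split (nat_lit 3) (nat_lit 1) .uj (.split (nat_lit 3) (nat_lit 1) (.sup (nat_lit 0x500030005) (nat_lit 0x3000500050001000000000000)) (.split (nat_lit 3) (nat_lit 1) (.sup (nat_lit 0xa0006000a) (nat_lit 0x5000a00090002000000000000)) (.non (nat_lit 0) (nat_lit 5) (nat_lit 0x154) (nat_lit 0x10002000100020000))))) (.split (nat_lit 3) (nat_lit 1) (.split (nat_lit 6) (nat_lit 1) (.sup (nat_lit 0x500030005) (nat_lit 0x1000500050003000000000000)) (.split (nat_lit 6) (nat_lit 1) (.sup (nat_lit 0xa0006000a) (nat_lit 0x20009000a0005000000000000)) (.non (nat_lit 0) (nat_lit 4) (nat_lit 0x1414) (nat_lit 0x2000100000000000100020000)))) (.st (nat_lit 3) (nat_lit 0) (nat_lit 5) (nat_lit 0x1154) (nat_lit 0x1000000010002000100020000)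 (nat_lit 1) (nat_lit 1) (.st (nat_lit 6) (nat_lit 0) (nat_lit 4) (nat_lit 0x1454) (nat_lit 0x2000100000001000100020000) (nat_lit 1) (nat_lit 1) (.ex (nat_lit 0) t534_1 (.split (nat_lit 7) (nat_lit 1) (.split (nat_lit 7) (nat_lit 3) (.split (nat_lit 7) (nat_lit 4) (.split (nat_lit 7) (nat_lit 5) (.split (nat_lit 7) (nat_lit 6) (.split (nat_lit 7) (nat_lit 2) (.split (nat_lit 7) (nat_lit 0) (.split (nat_lit 6) (nat_lit 1) (.split (nat_lit 3) (nat_lit 1) (.sup (nat_lit 0x3000800080003000000000000) (nat_lit 0x30000000000000000000400020005)) (.non (nat_lit 0) (nat_lit 4) (nat_lit 0x1094) (nat_lit 0x1000000000001000100020000))) (.non (nat_lit 0) (nat_lit 4) (nat_lit 0x2054) (nat_lit 0x1000000000001000100020000))) (.non (nat_lit 2) (nat_lit 4) (nat_lit 0x9045) (nat_lit 0x10001000000000001000000020002))) (.unj (nat_lit 0x4011) (nat_lit 0x10000000000000000000100000001) (nat_lit 0x1540) (nat_lit 0x1000200020001000000000000))) (.non (nat_lit 0) (nat_lit 4) (nat_lit 0x5454) (nat_lit 0x10002000100000001000100020000))) (.star (nat_lit 7)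 (nat_lit 0) (nat_lit 5))) (.star (nat_lit 7) (nat_lit 0) (nat_lit 4))) (.non (nat_lit 0) (nat_lit 5) (nat_lit 0x5154) (nat_lit 0x10001000000010002000100020000))) (.non (nat_lit 0) (nat_lit 4) (nat_lit 0x5054) (nat_lit 0x10001000000000001000100020000))))))))

noncomputable def t536 : Tr := (.split (nat_lit 6) (nat_lit 1) (.split (nat_lit 4) (nat_lit 1) .uj (.st (nat_lit 0) (nat_lit 2) (nat_lit 5) (nat_lit 0x145) (nat_lit 0x40003000000030002) (nat_lit 1) (nat_lit 1) (.st (nat_lit 2) (nat_lit 0) (nat_lit 5) (nat_lit 0x154) (nat_lit 0x40003000200030000) (nat_lit 1) (nat_lit 1) (.split (nat_lit 6) (nat_lit 5) (.pd (.cons (nat_lit 1) (nat_lit 3) (nat_lit 0x101) (nat_lit 0x5440002) (nat_lit 0xf423f7a11e7a11c00000000010000000001) (.cons (nat_lit 1) (nat_lit 5) (nat_lit 0x101) (nat_lit 0x6033002) (nat_lit 0xf423f00000f423f54591000010000000001) .nil)) (.st (nat_lit 3) (nat_lit 0) (nat_lit 5) (nat_lit 0x144) (nat_lit 0x20002000000010000) (nat_lit 1) (nat_lit 1) (.st (nat_lit 4) (nat_lit 0) (nat_lit 3) (nat_lit 0x2504) (nat_lit 0x1000200020000000000010000)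 (nat_lit 1) (nat_lit 1) (.pd (.cons (nat_lit 1) (nat_lit 6) (nat_lit 0x101) (nat_lit 0x433002) (nat_lit 0xf423fb71ae1f156000010000000001) .nil) (.st (nat_lit 6) (nat_lit 0) (nat_lit 3) (nat_lit 0x2504) (nat_lit 0x2000300020000000000010000) (nat_lit 2) (nat_lit 1) (.pd (.cons (nat_lit 0) (nat_lit 4) (nat_lit 0x110) (nat_lit 0x5503120) (nat_lit 0xf423f7a11e00000f423f000010000100000) (.cons (nat_lit 1) (nat_lit 4) (nat_lit 0x101) (nat_lit 0x5503002) (nat_lit 0xf423f7a11e00000f423f000010000000001) (.cons (nat_lit 2) (nat_lit 4) (nat_lit 0x11) (nat_lit 0x5503001) (nat_lit 0xf423f7a11e00000f423f000000000100001) .nil))) (.leaf (.cons (nat_lit 0x544) (nat_lit 0x100020002000000010000) .nil) .nil))))))) (.non (nat_lit 0) (nat_lit 3) (nat_lit 0x1514) (nat_lit 0x3000400030000000100020000)))))) (.non (nat_lit 0) (nat_lit 3) (nat_lit 0x1a14) (nat_lit 0x3000200010000000100020000)))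

noncomputable def t538_1 : Tr := (.ex (nat_lit 5) (.pd (.cons (nat_lit 1) (nat_lit 6) (nat_lit 0x101) (nat_lit 0x433002) (nat_lit 0xf423fb71ae1f156000010000000001) .nil) (.ex (nat_lit 6) (.split (nat_lit 6) (nat_lit 5) (.pd (.cons (nat_lit 0) (nat_lit 3) (nat_lit 0x110) (nat_lit 0x5440120) (nat_lit 0xf423f7a11e7a11c00000000010000100000) (.cons (nat_lit 1) (nat_lit 3) (nat_lit 0x101) (nat_lit 0x5440002) (nat_lit 0xf423f7a11e7a11c00000000010000000001) (.cons (nat_lit 2) (nat_lit 3) (nat_lit 0x11) (nat_lit 0x5440001) (nat_lit 0xf423f7a11e7a11c00000000000000100001) .nil))) (.leaf (.cons (nat_lit 0x544) (nat_lit 0x100020002000000010000) .nil) .nil)) (.split (nat_lit 6) (nat_lit 5) (.split (nat_lit 3) (nat_lit 1) (.sup (nat_lit 0x500030005) (nat_lit 0x4000500030001000000000000)) (.non (nat_lit 0) (nat_lit 5) (nat_lit 0x144) (nat_lit 0x10001000000010000))) (.nol (nat_lit 0x3500) (nat_lit 0x1000200010000000000000000)))) (.split (nat_lit 7) (nat_lit 0) (.split (nat_lit 7) (nat_lit 1) (.split (nat_lit 7) (nat_lit 2) (.split (nat_lit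 7) (nat_lit 3) (.split (nat_lit 7) (nat_lit 4) (.split (nat_lit 7) (nat_lit 5) (.split (nat_lit 7) (nat_lit 6) (.split (nat_lit 6) (nat_lit 5) (.split (nat_lit 3) (nat_lit 1) (.sup (nat_lit 0x30007000800070003000000000000) (nat_lit 0x500040005)) (.non (nat_lit 0) (nat_lit 5) (nat_lit 0x144) (nat_lit 0x10001000000010000))) (.unj (nat_lit 0x15) (nat_lit 0x100010001) (nat_lit 0x5500) (nat_lit 0x10002000200010000000000000000))) (.non (nat_lit 0) (nat_lit 4) (nat_lit 0x6400) (nat_lit 0x10001000100000000000000000000))) (.non (nat_lit 0) (nat_lit 4) (nat_lit 0x5400) (nat_lit 0x10001000100000000000000000000))) (.non (nat_lit 0) (nat_lit 5) (nat_lit 0x4144) (nat_lit 0x10000000000020002000000010000))) (.non (nat_lit 0) (nat_lit 5) (nat_lit 0x4144) (nat_lit 0x10000000000020002000000010000))) (.non (nat_lit 0) (nat_lit 5) (nat_lit 0x4154) (nat_lit 0x10000000000030004000200030000))) (.non (nat_lit 0) (nat_lit 4) (nat_lit 0x5854) (nat_lit 0x20002000100000001000100020000))) (.non (nat_lit 2) (nat_lit 5) (nat_lit 0x4145) (nat_lit 0x10000000000030004000000030002)))))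 (.split (nat_lit 7) (nat_lit 0) (.split (nat_lit 7) (nat_lit 1) (.split (nat_lit 7) (nat_lit 2) (.split (nat_lit 7) (nat_lit 3) (.split (nat_lit 7) (nat_lit 4) (.split (nat_lit 7) (nat_lit 6) (.unj (nat_lit 0x15) (nat_lit 0x100010001) (nat_lit 0x6500) (nat_lit 0x10001000200010000000000000000)) (.non (nat_lit 0) (nat_lit 4) (nat_lit 0x5400) (nat_lit 0x10001000100000000000000000000))) (.non (nat_lit 0) (nat_lit 5) (nat_lit 0x4144) (nat_lit 0x10000000000020002000000010000))) (.non (nat_lit 0) (nat_lit 5) (nat_lit 0x4144) (nat_lit 0x10000000000020002000000010000))) (.star (nat_lit 7) (nat_lit 2) (nat_lit 5))) (.non (nat_lit 0) (nat_lit 4) (nat_lit 0x6454) (nat_lit 0x20001000200000001000100020000))) (.star (nat_lit 7) (nat_lit 0) (nat_lit 5))))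

noncomputable def t538 : Tr := (.split (nat_lit 6) (nat_lit 1) (.split (nat_lit 3) (nat_lit 1) .uj (.st (nat_lit 0) (nat_lit 2) (nat_lit 5) (nat_lit 0x145) (nat_lit 0x30004000000030002) (nat_lit 1) (nat_lit 1) (.st (nat_lit 2) (nat_lit 0) (nat_lit 5) (nat_lit 0x154) (nat_lit 0x30004000200030000) (nat_lit 1) (nat_lit 1) (.pd (.cons (nat_lit 1) (nat_lit 4) (nat_lit 0x1100101) (nat_lit 0x5603002) (nat_lit 0x10000100000f423f000010000000001) (.cons (nat_lit 1) (nat_lit 5) (nat_lit 0x101) (nat_lit 0x6033002) (nat_lit 0xf423f00000f423f54591000010000000001) .nil)) (.st (nat_lit 3) (nat_lit 0) (nat_lit 5) (nat_lit 0x144) (nat_lit 0x20002000000010000) (nat_lit 1) (nat_lit 1) (.st (nat_lit 4) (nat_lit 0) (nat_lit 5) (nat_lit 0x144) (nat_lit 0x20002000000010000) (nat_lit 1) (nat_lit 1) t538_1)))))) (.split (nat_lit 3) (nat_lit 1) (.split (nat_lit 6) (nat_lit 1) (.sup (nat_lit 0x500030005) (nat_lit 0x1000300050004000000000000)) (.non (nat_lit 0) (nat_lit 4) (nat_lit 0x2404) (nat_lit 0x1000100000000000000010000))) (.non (nat_lit 0) (nat_lit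 4) (nat_lit 0x1854) (nat_lit 0x2000100000001000100020000))))

noncomputable def t549_1 : Tr := (.split (nat_lit 9) (nat_lit 1) (.split (nat_lit 9) (nat_lit 2) (.split (nat_lit 9) (nat_lit 3) (.split (nat_lit 9) (nat_lit 4) (.split (nat_lit 9) (nat_lit 5) (.split (nat_lit 9) (nat_lit 6) (.split (nat_lit 9) (nat_lit 7) (.split (nat_lit 9) (nat_lit 0) (.st (nat_lit 8) (nat_lit 0) (nat_lit 3) (nat_lit 0x51514) (nat_lit 0x1000200000001000200010000000200020000) (nat_lit 1) (nat_lit 1) (.st (nat_lit 9) (nat_lit 0) (nat_lit 3) (nat_lit 0x55514) (nat_lit 0x2000300020004000600030000000400050000) (nat_lit 1) (nat_lit 1) (.split (nat_lit 2) (nat_lit 0) (.split (nat_lit 9) (nat_lit 8) (.split (nat_lit 7) (nat_lit 6) (.pd (.cons (nat_lit 1) (nat_lit 3) (nat_lit 0) (nat_lit 0x8265440000) (nat_lit 0xf423fb71aef423fb71aea2c289896500000a2c28000003d08b) (.cons (nat_lit 1) (nat_lit 4) (nat_lit 0) (nat_lit 0x8265503000) (nat_lit 0xf423fb71aef423fb71aea2c2800000f423fa2c28000003d08b) (.cons (nat_lit 1) (nat_lit 5) (nat_lit 0) (nat_lit 0x8266033000)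 (nat_lit 0xf423fb71aef423fb71ae00000f423f54591a2c28000003d08b) (.cons (nat_lit 1) (nat_lit 6) (nat_lit 0) (nat_lit 0x8270433000) (nat_lit 0xf423fb71aef423f00000f423fb71ae1f156a2c28000003d08b) (.cons (nat_lit 1) (nat_lit 7) (nat_lit 0) (nat_lit 0x8205433000) (nat_lit 0xf423fb71ae00000f423fb71aea2c2804737a2c28000003d08b) .nil))))) (.leaf (.cons (nat_lit 0x554) (nat_lit 0x300040003000100020000) (.cons (nat_lit 0x545) (nat_lit 0x300040003000000020001) .nil)) .nil)) (.non (nat_lit 0) (nat_lit 3) (nat_lit 0x9504) (nat_lit 0x10002000200010000000000010000))) (.non (nat_lit 0) (nat_lit 3) (nat_lit 0x91514) (nat_lit 0x1000200000001000200010000000200020000))) (.sup (nat_lit 0xf001e002e00400033000000000000) (nat_lit 0x9001100000000000000000000001a00010016))))) (.unj (nat_lit 0x50011) (nat_lit 0x1000100000000000000000000000100000001) (nat_lit 0x5540) (nat_lit 0x10002000300040003000000000000))) (.non (nat_lit 0) (nat_lit 3) (nat_lit 0x55414) (nat_lit 0x1000100010001000100000000000100010000))) (.non (nat_lit 0) (nat_lit 3) (nat_lit 0x45504)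 (nat_lit 0x1000000010002000200010000000000010000))) (.non (nat_lit 0) (nat_lit 3) (nat_lit 0x41504) (nat_lit 0x1000000000001000200010000000000010000))) (.non (nat_lit 0) (nat_lit 3) (nat_lit 0x50514) (nat_lit 0x1000100000000000100010000000100010000))) (.non (nat_lit 0) (nat_lit 5) (nat_lit 0x50150) (nat_lit 0x3000200000000000000030004000100000000))) (.non (nat_lit 0) (nat_lit 3) (nat_lit 0x50010) (nat_lit 0x1000100000000000000000000000100000000))) (.non (nat_lit 0) (nat_lit 3) (nat_lit 0x50014) (nat_lit 0x1000100000000000000000000000100010000)))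

noncomputable def t549_2 : Tr := (.ex (nat_lit 3) (.split (nat_lit 2) (nat_lit 1) (.split (nat_lit 8) (nat_lit 2) (.pd (.cons (nat_lit 0) (nat_lit 5) (nat_lit 0x11000000) (nat_lit 0x267033110) (nat_lit 0xf423f000010000100000f423f54591b71aea2c2800000) (.cons (nat_lit 2) (nat_lit 5) (nat_lit 0x11000011) (nat_lit 0x867033001) (nat_lit 0xf423f000010000100000f423f54591000000000100001) .nil)) (.ex (nat_lit 8) (.split (nat_lit 2) (nat_lit 0) (.split (nat_lit 7) (nat_lit 6) (.pd (.cons (nat_lit 1) (nat_lit 3) (nat_lit 0) (nat_lit 0x265440000) (nat_lit 0xf423ff423fb71aea2c289896500000b71ae0000051612) (.cons (nat_lit 1) (nat_lit 4) (nat_lit 0) (nat_lit 0x265503000) (nat_lit 0xf423ff423fb71aea2c2800000f423fb71ae0000051612) (.cons (nat_lit 1) (nat_lit 5) (nat_lit 0) (nat_lit 0x266033000) (nat_lit 0xf423ff423fb71ae00000f423f54591b71ae0000051612) (.cons (nat_lit 1) (nat_lit 6) (nat_lit 0) (nat_lit 0x270433000) (nat_lit 0xf423ff423f00000f423fb71ae1f156b71ae0000051612) (.cons (nat_lit 1) (nat_lit 7) (nat_lit 0) (nat_lit 0x205433000) (nat_lit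 0xf423f00000f423fb71aea2c2804737b71ae0000051612) .nil))))) (.leaf (.cons (nat_lit 0x554) (nat_lit 0x300040003000100020000) (.cons (nat_lit 0x545) (nat_lit 0x300040003000000020001) .nil)) .nil)) (.non (nat_lit 0) (nat_lit 3) (nat_lit 0x9504) (nat_lit 0x10002000200010000000000010000))) (.split (nat_lit 7) (nat_lit 6) (.split (nat_lit 5) (nat_lit 1) (.sup (nat_lit 0x40007000b0010000d000000000000) (nat_lit 0x300000000000000000000000700010006)) (.non (nat_lit 0) (nat_lit 3) (nat_lit 0x2a04) (nat_lit 0x1000200010000000000020000))) (.non (nat_lit 0) (nat_lit 3) (nat_lit 0x9504) (nat_lit 0x10002000200010000000000010000)))) t549_1)) (.non (nat_lit 0) (nat_lit 3) (nat_lit 0x21514) (nat_lit 0x100000001000200010000000200020000))) (.non (nat_lit 0) (nat_lit 3) (nat_lit 0x21424) (nat_lit 0x100000001000200000000000200030000))) (.split (nat_lit 9) (nat_lit 0) (.split (nat_lit 9) (nat_lit 1) (.split (nat_lit 9) (nat_lit 2) (.split (nat_lit 9) (nat_lit 4) (.split (nat_lit 9) (nat_lit 5) (.split (nat_lit 9) (nat_lit 6) (.split (nat_lit 9) (nat_lit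 7) (.split (nat_lit 9) (nat_lit 8) (.sup (nat_lit 0x4000000010003000400080008000000000000) (nat_lit 0x200000000000000000000000400020004)) (.split (nat_lit 9) (nat_lit 3) (.split (nat_lit 9) (nat_lit 8) (.split (nat_lit 8) (nat_lit 2) (.split (nat_lit 7) (nat_lit 6) (.split (nat_lit 5) (nat_lit 1) (.sup (nat_lit 0x500030005) (nat_lit 0x3000000000000000100050005000000000000)) (.non (nat_lit 0) (nat_lit 3) (nat_lit 0x2a04) (nat_lit 0x1000200010000000000020000))) (.non (nat_lit 0) (nat_lit 3) (nat_lit 0x9504) (nat_lit 0x10002000200010000000000010000))) (.non (nat_lit 0) (nat_lit 3) (nat_lit 0xa0414) (nat_lit 0x1000200000000000100000000000300020000))) (.non (nat_lit 0) (nat_lit 3) (nat_lit 0x91514) (nat_lit 0x1000200000001000200010000000200020000))) (.unj (nat_lit 0x15) (nat_lit 0x100010001) (nat_lit 0x40140) (nat_lit 0x1000000000000000000010001000000000000)))) (.non (nat_lit 0) (nat_lit 3) (nat_lit 0x55514) (nat_lit 0x1000100020003000400020000000200030000))) (.non (nat_lit 0) (nat_lit 3) (nat_lit 0x45504) (nat_lit 0x1000000010002000200010000000000010000)))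 (.non (nat_lit 0) (nat_lit 3) (nat_lit 0x41504) (nat_lit 0x1000000000001000200010000000000010000))) (.non (nat_lit 0) (nat_lit 3) (nat_lit 0x45514) (nat_lit 0x1000000010002000300020000000100020000))) (.star (nat_lit 9) (nat_lit 2) (nat_lit 3))) (.non (nat_lit 0) (nat_lit 3) (nat_lit 0x41514) (nat_lit 0x1000000000001000200010000000100020000))) (.star (nat_lit 9) (nat_lit 0) (nat_lit 3))))

noncomputable def t549_3 : Tr := (.ex (nat_lit 2) (.split (nat_lit 7) (nat_lit 6) (.pd (.cons (nat_lit 1) (nat_lit 3) (nat_lit 0x101) (nat_lit 0x65440002) (nat_lit 0xf423fb71aea2c289896500000000010000000001) (.cons (nat_lit 1) (nat_lit 4) (nat_lit 0x101) (nat_lit 0x65503002) (nat_lit 0xf423fb71aea2c2800000f423f000010000000001) .nil)) (.ex (nat_lit 3) (.pd (.cons (nat_lit 0) (nat_lit 5) (nat_lit 0x110) (nat_lit 0x66033120) (nat_lit 0xf423fb71ae00000f423f54591000010000100000) (.cons (nat_lit 1) (nat_lit 5) (nat_lit 0x101) (nat_lit 0x66033002) (nat_lit 0xf423fb71ae00000f423f54591000010000000001) (.cons (nat_lit 1) (nat_lit 6) (nat_lit 0x101) (nat_lit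 0x70433002) (nat_lit 0xf423f00000f423fb71ae1f156000010000000001) (.cons (nat_lit 1) (nat_lit 7) (nat_lit 0x101) (nat_lit 0x5433002) (nat_lit 0xf423fb71aea2c2804737000010000000001) (.cons (nat_lit 2) (nat_lit 5) (nat_lit 0x11) (nat_lit 0x66033001) (nat_lit 0xf423fb71ae00000f423f54591000000000100001) .nil))))) (.leaf (.cons (nat_lit 0x554) (nat_lit 0x300040003000100020000) (.cons (nat_lit 0x545) (nat_lit 0x300040003000000020001) .nil)) .nil)) (.split (nat_lit 8) (nat_lit 0) (.split (nat_lit 8) (nat_lit 1) (.split (nat_lit 8) (nat_lit 2) (.split (nat_lit 8) (nat_lit 4) (.split (nat_lit 8) (nat_lit 5) (.split (nat_lit 8) (nat_lit 6) (.split (nat_lit 8) (nat_lit 7) (.split (nat_lit 8) (nat_lit 3) (.split (nat_lit 5) (nat_lit 1) (.sup (nat_lit 0x500030005) (nat_lit 0x300000000000100050005000000000000)) (.non (nat_lit 0) (nat_lit 3) (nat_lit 0x2a04) (nat_lit 0x1000200010000000000020000))) (.unj (nat_lit 0x15) (nat_lit 0x100010001) (nat_lit 0x10140) (nat_lit 0x100000000000000010001000000000000))) (.unj (nat_lit 0x15) (nat_lit 0x100010001)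 (nat_lit 0x15140) (nat_lit 0x300020001000000030004000000000000))) (.non (nat_lit 0) (nat_lit 3) (nat_lit 0x15504) (nat_lit 0x100010002000200010000000000010000))) (.non (nat_lit 0) (nat_lit 3) (nat_lit 0x11504) (nat_lit 0x100000001000200010000000000010000))) (.non (nat_lit 0) (nat_lit 3) (nat_lit 0x15514) (nat_lit 0x100010002000300020000000100020000))) (.star (nat_lit 8) (nat_lit 2) (nat_lit 3))) (.non (nat_lit 0) (nat_lit 3) (nat_lit 0x11514) (nat_lit 0x100000001000200010000000100020000))) (.star (nat_lit 8) (nat_lit 0) (nat_lit 3))))) (.non (nat_lit 0) (nat_lit 3) (nat_lit 0x9504) (nat_lit 0x10002000200010000000000010000))) (.split (nat_lit 8) (nat_lit 1) (.split (nat_lit 8) (nat_lit 3) (.split (nat_lit 8) (nat_lit 4) (.split (nat_lit 8) (nat_lit 5) (.split (nat_lit 8) (nat_lit 6) (.split (nat_lit 8) (nat_lit 7) (.split (nat_lit 8) (nat_lit 0) (.st (nat_lit 2) (nat_lit 0) (nat_lit 3) (nat_lit 0x11514) (nat_lit 0x100000001000200010000000200020000) (nat_lit 1) (nat_lit 1) t549_2) (.unj (nat_lit 0x10011) (nat_lit 0x100000000000000000000000100000001)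 (nat_lit 0x5540) (nat_lit 0x10002000300040003000000000000))) (.non (nat_lit 0) (nat_lit 3) (nat_lit 0x15414) (nat_lit 0x100010001000100000000000100010000))) (.non (nat_lit 0) (nat_lit 3) (nat_lit 0x15504) (nat_lit 0x100010002000200010000000000010000))) (.non (nat_lit 0) (nat_lit 3) (nat_lit 0x11504) (nat_lit 0x100000001000200010000000000010000))) (.star (nat_lit 8) (nat_lit 2) (nat_lit 4))) (.star (nat_lit 8) (nat_lit 2) (nat_lit 3))) (.non (nat_lit 0) (nat_lit 3) (nat_lit 0x10014) (nat_lit 0x100000000000000000000000100010000))))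

noncomputable def t549_4 : Tr := (.split (nat_lit 9) (nat_lit 0) (.split (nat_lit 9) (nat_lit 1) (.split (nat_lit 9) (nat_lit 3) (.split (nat_lit 9) (nat_lit 4) (.split (nat_lit 9) (nat_lit 5) (.split (nat_lit 9) (nat_lit 6) (.split (nat_lit 9) (nat_lit 7) (.split (nat_lit 9) (nat_lit 2) (.st (nat_lit 8) (nat_lit 2) (nat_lit 3) (nat_lit 0x51505) (nat_lit 0x1000200000001000200010000000000020002) (nat_lit 1) (nat_lit 1) (.st (nat_lit 9) (nat_lit 2) (nat_lit 3) (nat_lit 0x55505) (nat_lit 0x2000300020004000600030000000000050004) (nat_lit 1) (nat_lit 1) (.split (nat_lit 2) (nat_lit 0) (.split (nat_lit 9) (nat_lit 8) (.split (nat_lit 7) (nat_lit 6) (.pd (.cons (nat_lit 1) (nat_lit 3) (nat_lit 0) (nat_lit 0x8065440000) (nat_lit 0xf423fb71aef423fb71aea2c289896500000f423f0000028b07) (.cons (nat_lit 1) (nat_lit 4) (nat_lit 0) (nat_lit 0x8065503000) (nat_lit 0xf423fb71aef423fb71aea2c2800000f423ff423f0000028b07) (.cons (nat_lit 1) (nat_lit 5) (nat_lit 0) (nat_lit 0x8066033000) (nat_lit 0xf423fb71aef423fb71ae00000f423f54591f423f0000028b07)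 (.cons (nat_lit 1) (nat_lit 6) (nat_lit 0) (nat_lit 0x8070433000) (nat_lit 0xf423fb71aef423f00000f423fb71ae1f156f423f0000028b07) (.cons (nat_lit 1) (nat_lit 7) (nat_lit 0) (nat_lit 0x8005433000) (nat_lit 0xf423fb71ae00000f423fb71aea2c2804737f423f0000028b07) .nil))))) (.leaf (.cons (nat_lit 0x554) (nat_lit 0x300040003000100020000) (.cons (nat_lit 0x545) (nat_lit 0x300040003000000020001) .nil)) .nil)) (.non (nat_lit 0) (nat_lit 3) (nat_lit 0x9504) (nat_lit 0x10002000200010000000000010000))) (.non (nat_lit 2) (nat_lit 3) (nat_lit 0x91505) (nat_lit 0x1000200000001000200010000000000020002))) (.sup (nat_lit 0xf001e002e00400033000000000000) (nat_lit 0x900110000000000000000000000160001001a))))) (.unj (nat_lit 0x50011) (nat_lit 0x1000100000000000000000000000100000001) (nat_lit 0x5540) (nat_lit 0x10002000300040003000000000000))) (.non (nat_lit 2) (nat_lit 3) (nat_lit 0x55405) (nat_lit 0x1000100010001000100000000000000010001))) (.non (nat_lit 0) (nat_lit 3) (nat_lit 0x45504) (nat_lit 0x1000000010002000200010000000000010000))) (.non (nat_lit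 0) (nat_lit 3) (nat_lit 0x41504) (nat_lit 0x1000000000001000200010000000000010000))) (.non (nat_lit 0) (nat_lit 3) (nat_lit 0x45514) (nat_lit 0x1000000010002000300020000000100020000))) (.non (nat_lit 2) (nat_lit 5) (nat_lit 0x50141) (nat_lit 0x3000200000000000000030004000000000001))) (.non (nat_lit 0) (nat_lit 3) (nat_lit 0x41514) (nat_lit 0x1000000000001000200010000000100020000))) (.non (nat_lit 2) (nat_lit 3) (nat_lit 0x50001) (nat_lit 0x1000100000000000000000000000000000001)))

noncomputable def t549_5 : Tr := (.ex (nat_lit 3) (.split (nat_lit 1) (nat_lit 0) (.split (nat_lit 8) (nat_lit 0) (.pd (.cons (nat_lit 0) (nat_lit 5) (nat_lit 0x11000110) (nat_lit 0x867033120) (nat_lit 0xf423f000010000100000f423f54591000010000100000) (.cons (nat_lit 2) (nat_lit 5) (nat_lit 0x11000000) (nat_lit 0x67033000) (nat_lit 0xf423f000010000100000f423f5459100000f423f7a11d) .nil)) (.ex (nat_lit 8) (.split (nat_lit 2) (nat_lit 0) (.split (nat_lit 7) (nat_lit 6) (.pd (.cons (nat_lit 1) (nat_lit 3) (nat_lit 0) (nat_lit 0x65440000) (nat_lit 0xf423ff423fb71aea2c289896500000f423f000003d08d)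 (.cons (nat_lit 1) (nat_lit 4) (nat_lit 0) (nat_lit 0x65503000) (nat_lit 0xf423ff423fb71aea2c2800000f423ff423f000003d08d) (.cons (nat_lit 1) (nat_lit 5) (nat_lit 0) (nat_lit 0x66033000) (nat_lit 0xf423ff423fb71ae00000f423f54591f423f000003d08d) (.cons (nat_lit 1) (nat_lit 6) (nat_lit 0) (nat_lit 0x70433000) (nat_lit 0xf423ff423f00000f423fb71ae1f156f423f000003d08d) (.cons (nat_lit 1) (nat_lit 7) (nat_lit 0) (nat_lit 0x5433000) (nat_lit 0xf423f00000f423fb71aea2c2804737f423f000003d08d) .nil))))) (.leaf (.cons (nat_lit 0x554) (nat_lit 0x300040003000100020000) (.cons (nat_lit 0x545) (nat_lit 0x300040003000000020001) .nil)) .nil)) (.non (nat_lit 0) (nat_lit 3) (nat_lit 0x9504) (nat_lit 0x10002000200010000000000010000))) (.split (nat_lit 7) (nat_lit 6) (.split (nat_lit 5) (nat_lit 1) (.sup (nat_lit 0x40007000b0010000d000000000000) (nat_lit 0x300000000000000000000000600010007)) (.non (nat_lit 0) (nat_lit 3) (nat_lit 0x2a04) (nat_lit 0x1000200010000000000020000))) (.non (nat_lit 0) (nat_lit 3) (nat_lit 0x9504) (nat_lit 0x10002000200010000000000010000))))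 t549_4)) (.non (nat_lit 2) (nat_lit 3) (nat_lit 0x21505) (nat_lit 0x100000001000200010000000000020002))) (.non (nat_lit 2) (nat_lit 3) (nat_lit 0x12809) (nat_lit 0x200000001000200000000000000030004))) (.split (nat_lit 9) (nat_lit 0) (.split (nat_lit 9) (nat_lit 1) (.split (nat_lit 9) (nat_lit 2) (.split (nat_lit 9) (nat_lit 4) (.split (nat_lit 9) (nat_lit 5) (.split (nat_lit 9) (nat_lit 6) (.split (nat_lit 9) (nat_lit 7) (.split (nat_lit 9) (nat_lit 8) (.sup (nat_lit 0x4000000010003000400080008000000000000) (nat_lit 0x200000000000000000000000400020004)) (.split (nat_lit 9) (nat_lit 3) (.split (nat_lit 9) (nat_lit 8) (.split (nat_lit 8) (nat_lit 0) (.split (nat_lit 7) (nat_lit 6) (.split (nat_lit 5) (nat_lit 1) (.sup (nat_lit 0x500030005) (nat_lit 0x3000000000000000100050005000000000000)) (.non (nat_lit 0) (nat_lit 3) (nat_lit 0x2a04) (nat_lit 0x1000200010000000000020000))) (.non (nat_lit 0) (nat_lit 3) (nat_lit 0x9504) (nat_lit 0x10002000200010000000000010000))) (.non (nat_lit 2) (nat_lit 3) (nat_lit 0xa0405) (nat_lit 0x1000200000000000100000000000000020003)))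 (.non (nat_lit 2) (nat_lit 3) (nat_lit 0x91505) (nat_lit 0x1000200000001000200010000000000020002))) (.unj (nat_lit 0x15) (nat_lit 0x100010001) (nat_lit 0x40140) (nat_lit 0x1000000000000000000010001000000000000)))) (.non (nat_lit 2) (nat_lit 3) (nat_lit 0x55505) (nat_lit 0x1000100020003000400020000000000030002))) (.non (nat_lit 0) (nat_lit 3) (nat_lit 0x45504) (nat_lit 0x1000000010002000200010000000000010000))) (.non (nat_lit 0) (nat_lit 3) (nat_lit 0x41504) (nat_lit 0x1000000000001000200010000000000010000))) (.non (nat_lit 0) (nat_lit 3) (nat_lit 0x45514) (nat_lit 0x1000000010002000300020000000100020000))) (.star (nat_lit 9) (nat_lit 2) (nat_lit 3))) (.non (nat_lit 0) (nat_lit 3) (nat_lit 0x41514) (nat_lit 0x1000000000001000200010000000100020000))) (.star (nat_lit 9) (nat_lit 0) (nat_lit 3))))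

noncomputable def t549_6 : Tr := (.split (nat_lit 8) (nat_lit 1) (.split (nat_lit 8) (nat_lit 3) (.split (nat_lit 8) (nat_lit 4) (.split (nat_lit 8) (nat_lit 5) (.split (nat_lit 8) (nat_lit 6) (.split (nat_lit 8) (nat_lit 7) (.split (nat_lit 8) (nat_lit 2) (.st (nat_lit 0) (nat_lit 2) (nat_lit 3) (nat_lit 0x11505) (nat_lit 0x100000001000200010000000000020002) (nat_lit 1) (nat_lit 1) (.ex (nat_lit 2) t549_5 (.split (nat_lit 9) (nat_lit 0) (.split (nat_lit 9) (nat_lit 1) (.split (nat_lit 9) (nat_lit 3) (.split (nat_lit 9) (nat_lit 4) (.split (nat_lit 9) (nat_lit 5) (.split (nat_lit 9) (nat_lit 6) (.split (nat_lit 9) (nat_lit 7) (.split (nat_lit 9) (nat_lit 8) (.split (nat_lit 9) (nat_lit 2) (.split (nat_lit 8) (nat_lit 0) (.split (nat_lit 7) (nat_lit 6) (.split (nat_lit 5) (nat_lit 1) (.sup (nat_lit 0x40008000b0010000d000000000000) (nat_lit 0x3000300000000000000000000000600010006)) (.non (nat_lit 0) (nat_lit 3) (nat_lit 0x2a04) (nat_lit 0x1000200010000000000020000))) (.non (nat_lit 0) (nat_lit 3) (nat_lit 0x9504) (nat_lit 0x10002000200010000000000010000)))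 (.non (nat_lit 2) (nat_lit 3) (nat_lit 0x21505) (nat_lit 0x100000001000200010000000000020002))) (.non (nat_lit 0) (nat_lit 3) (nat_lit 0x81514) (nat_lit 0x1000000000001000200010000000200020000))) (.unj (nat_lit 0x50011) (nat_lit 0x1000100000000000000000000000100000001) (nat_lit 0x5540) (nat_lit 0x10002000300040003000000000000))) (.non (nat_lit 0) (nat_lit 3) (nat_lit 0x45414) (nat_lit 0x1000000010001000100000000000100010000))) (.non (nat_lit 0) (nat_lit 3) (nat_lit 0x45504) (nat_lit 0x1000000010002000200010000000000010000))) (.non (nat_lit 0) (nat_lit 3) (nat_lit 0x41504) (nat_lit 0x1000000000001000200010000000000010000))) (.star (nat_lit 9) (nat_lit 2) (nat_lit 4))) (.star (nat_lit 9) (nat_lit 2) (nat_lit 3))) (.non (nat_lit 0) (nat_lit 3) (nat_lit 0x40014) (nat_lit 0x1000000000000000000000000000100010000))) (.non (nat_lit 2) (nat_lit 3) (nat_lit 0x51505) (nat_lit 0x1000100000001000200010000000000020002))))) (.unj (nat_lit 0x10011) (nat_lit 0x100000000000000000000000100000001) (nat_lit 0x5540) (nat_lit 0x10002000300040003000000000000)))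 (.non (nat_lit 2) (nat_lit 3) (nat_lit 0x15405) (nat_lit 0x100010001000100000000000000010001))) (.non (nat_lit 0) (nat_lit 3) (nat_lit 0x15504) (nat_lit 0x100010002000200010000000000010000))) (.non (nat_lit 0) (nat_lit 3) (nat_lit 0x11504) (nat_lit 0x100000001000200010000000000010000))) (.star (nat_lit 8) (nat_lit 0) (nat_lit 4))) (.star (nat_lit 8) (nat_lit 0) (nat_lit 3))) (.non (nat_lit 0) (nat_lit 3) (nat_lit 0x11514) (nat_lit 0x100000001000200010000000100020000)))

noncomputable def t549_7 : Tr := (.split (nat_lit 8) (nat_lit 0) (.split (nat_lit 8) (nat_lit 2) (.split (nat_lit 8) (nat_lit 3) (.split (nat_lit 8) (nat_lit 4) (.split (nat_lit 8) (nat_lit 5) (.split (nat_lit 8) (nat_lit 6) (.split (nat_lit 8) (nat_lit 7) (.st (nat_lit 1) (nat_lit 0) (nat_lit 3) (nat_lit 0x15414) (nat_lit 0x100010002000100000000000200020000) (nat_lit 1) (nat_lit 1) (.split (nat_lit 8) (nat_lit 1) (.ex (nat_lit 8) (.leaf (.cons (nat_lit 0x1550) (nat_lit 0x2000300040003000100000000) (.cons (nat_lit 0x3031) (nat_lit 0x1000000000000000200000003)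 .nil)) (.cons (nat_lit 0x111000110) (nat_lit 0x100001) (nat_lit 3) (nat_lit 0x401000230) .nil)) (.split (nat_lit 9) (nat_lit 0) (.split (nat_lit 9) (nat_lit 1) (.split (nat_lit 9) (nat_lit 2) (.split (nat_lit 9) (nat_lit 3) (.split (nat_lit 9) (nat_lit 4) (.split (nat_lit 9) (nat_lit 5) (.split (nat_lit 9) (nat_lit 6) (.split (nat_lit 9) (nat_lit 7) (.sup (nat_lit 0x6000d00160020001a000000000000) (nat_lit 0x3000500000000000000000000000300080007)) (.non (nat_lit 0) (nat_lit 3) (nat_lit 0x55014) (nat_lit 0x1000100010001000000000000000100010000))) (.non (nat_lit 0) (nat_lit 3) (nat_lit 0x45410) (nat_lit 0x1000000010002000100000000000100000000))) (.non (nat_lit 0) (nat_lit 3) (nat_lit 0x45510) (nat_lit 0x1000000010002000200010000000100000000))) (.non (nat_lit 0) (nat_lit 3) (nat_lit 0x51514) (nat_lit 0x1000100000001000100010000000100010000))) (.non (nat_lit 0) (nat_lit 5) (nat_lit 0x50144) (nat_lit 0x3000200000000000000030004000000010000))) (.non (nat_lit 0) (nat_lit 3) (nat_lit 0x50014) (nat_lit 0x1000100000000000000000000000100010000)))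 (.non (nat_lit 0) (nat_lit 3) (nat_lit 0x50004) (nat_lit 0x1000100000000000000000000000000010000))) (.non (nat_lit 2) (nat_lit 3) (nat_lit 0x50005) (nat_lit 0x1000100000000000000000000000000010001)))) (.non (nat_lit 0) (nat_lit 3) (nat_lit 0x25414) (nat_lit 0x100010002000100000000000200020000)))) (.non (nat_lit 0) (nat_lit 3) (nat_lit 0x15014) (nat_lit 0x100010001000000000000000100010000))) (.non (nat_lit 0) (nat_lit 3) (nat_lit 0x15410) (nat_lit 0x100010002000100000000000100000000))) (.non (nat_lit 0) (nat_lit 3) (nat_lit 0x15510) (nat_lit 0x100010002000200010000000100000000))) (.non (nat_lit 0) (nat_lit 3) (nat_lit 0x11514) (nat_lit 0x100000001000100010000000100010000))) (.non (nat_lit 0) (nat_lit 5) (nat_lit 0x10154) (nat_lit 0x300000000000000030004000100020000))) (.non (nat_lit 0) (nat_lit 3) (nat_lit 0x10014) (nat_lit 0x100000000000000000000000100010000))) (.non (nat_lit 2) (nat_lit 3) (nat_lit 0x10005) (nat_lit 0x100000000000000000000000000010001)))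

noncomputable def t549_8 : Tr := (.split (nat_lit 2) (nat_lit 0) (.pd (.cons (nat_lit 0) (nat_lit 5) (nat_lit 0) (nat_lit 0x62033110) (nat_lit 0xf423fb71ae00000f423f54591a2c289896500000) (.cons (nat_lit 0) (nat_lit 6) (nat_lit 0) (nat_lit 0x70433110) (nat_lit 0xf423f00000f423fb71ae1f156f423fb71ae00000) (.cons (nat_lit 1) (nat_lit 5) (nat_lit 0) (nat_lit 0x62033000) (nat_lit 0xf423fb71ae00000f423f54591a2c28000003d08b) (.cons (nat_lit 1) (nat_lit 6) (nat_lit 0) (nat_lit 0x70433000) (nat_lit 0xf423f00000f423fb71ae1f156f423f000007a11e) (.cons (nat_lit 2) (nat_lit 5) (nat_lit 0x11) (nat_lit 0x66033001) (nat_lit 0xf423fb71ae00000f423f54591000000000100001) (.cons (nat_lit 2) (nat_lit 6) (nat_lit 0x11) (nat_lit 0x70433001) (nat_lit 0xf423f00000f423fb71ae1f156000000000100001) (.cons (nat_lit 2) (nat_lit 7) (nat_lit 0x11) (nat_lit 0x5433001) (nat_lit 0xf423fb71aea2c2804737000000000100001) .nil))))))) (.leaf (.cons (nat_lit 0x1550) (nat_lit 0x2000300040003000100000000) (.cons (nat_lit 0xa821) (nat_lit 0x10002000100000000000200000002)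 .nil)) .nil)) (.split (nat_lit 2) (nat_lit 0) (.pd (.cons (nat_lit 0) (nat_lit 5) (nat_lit 0) (nat_lit 0x62033110) (nat_lit 0xf423fb71ae00000f423f54591a2c289896500000) (.cons (nat_lit 0) (nat_lit 6) (nat_lit 0) (nat_lit 0x70433110) (nat_lit 0xf423f00000f423fb71ae1f156f423fb71ae00000) (.cons (nat_lit 1) (nat_lit 5) (nat_lit 0) (nat_lit 0x62033000) (nat_lit 0xf423fb71ae00000f423f54591a2c280000004737) (.cons (nat_lit 1) (nat_lit 6) (nat_lit 0) (nat_lit 0x70433000) (nat_lit 0xf423f00000f423fb71ae1f156f423f0000054591) (.cons (nat_lit 2) (nat_lit 5) (nat_lit 0x11) (nat_lit 0x66033001) (nat_lit 0xf423fb71ae00000f423f54591000000000100001) (.cons (nat_lit 2) (nat_lit 6) (nat_lit 0x11) (nat_lit 0x70433001) (nat_lit 0xf423f00000f423fb71ae1f156000000000100001) (.cons (nat_lit 2) (nat_lit 7) (nat_lit 0x11) (nat_lit 0x5433001) (nat_lit 0xf423fb71aea2c2804737000000000100001) .nil))))))) (.leaf (.cons (nat_lit 0x1550) (nat_lit 0x2000300040003000100000000) (.cons (nat_lit 0x5411) (nat_lit 0x10002000100000000000200000002) .nil)) .nil)) (.pd (.cons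 (nat_lit 0) (nat_lit 5) (nat_lit 0) (nat_lit 0x62033110) (nat_lit 0xf423fb71ae00000f423f54591a2c289896500000) (.cons (nat_lit 0) (nat_lit 6) (nat_lit 0) (nat_lit 0x70433110) (nat_lit 0xf423f00000f423fb71ae1f156f423fb71ae00000) (.cons (nat_lit 1) (nat_lit 6) (nat_lit 0x101) (nat_lit 0x70433002) (nat_lit 0xf423f00000f423fb71ae1f156000010000000001) (.cons (nat_lit 2) (nat_lit 5) (nat_lit 0x11) (nat_lit 0x66033001) (nat_lit 0xf423fb71ae00000f423f54591000000000100001) (.cons (nat_lit 2) (nat_lit 6) (nat_lit 0x11) (nat_lit 0x70433001) (nat_lit 0xf423f00000f423fb71ae1f156000000000100001) (.cons (nat_lit 2) (nat_lit 7) (nat_lit 0x11) (nat_lit 0x5433001) (nat_lit 0xf423fb71aea2c2804737000000000100001) .nil)))))) (.split (nat_lit 1) (nat_lit 0) (.ex (nat_lit 1) (.leaf (.cons (nat_lit 0x1550) (nat_lit 0x2000300040003000100000000) (.cons (nat_lit 0x3031) (nat_lit 0x1000000000000000200000003) .nil)) (.cons (nat_lit 0x11000110) (nat_lit 0x100001) (nat_lit 2) (nat_lit 0x32000100) .nil)) t549_7) (.sup (nat_lit 0x40009000a) (nat_lit 0x200040007000a0008000000000000))))))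

noncomputable def t549_9 : Tr := (.split (nat_lit 2) (nat_lit 0) (.pd (.cons (nat_lit 1) (nat_lit 6) (nat_lit 0) (nat_lit 0x70433000) (nat_lit 0xf423ff423f00000f423fb71ae1f156f423f000003d08d) .nil) (.ex (nat_lit 1) (.leaf (.cons (nat_lit 0x1550) (nat_lit 0x2000300040003000100000000) (.cons (nat_lit 0x1a021) (nat_lit 0x200010002000000000000000300000004) .nil)) (.cons (nat_lit 0x11000110) (nat_lit 0x100001) (nat_lit 2) (nat_lit 0x32000100) .nil)) (.split (nat_lit 9) (nat_lit 0) (.split (nat_lit 9) (nat_lit 2) (.split (nat_lit 9) (nat_lit 3) (.split (nat_lit 9) (nat_lit 4) (.split (nat_lit 9) (nat_lit 5) (.split (nat_lit 9) (nat_lit 6) (.split (nat_lit 9) (nat_lit 7) (.split (nat_lit 9) (nat_lit 8) (.sup (nat_lit 0x30006000b0010000d000000000000) (nat_lit 0x2000200000000000000000000000200040004)) (.non (nat_lit 2) (nat_lit 3) (nat_lit 0x50005) (nat_lit 0x1000100000000000000000000000000010001))) (.non (nat_lit 0) (nat_lit 3) (nat_lit 0x45014) (nat_lit 0x1000000010001000000000000000100010000))) (.non (nat_lit 0) (nat_lit 3) (nat_lit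 0x45410) (nat_lit 0x1000000010002000100000000000100000000))) (.non (nat_lit 0) (nat_lit 3) (nat_lit 0x45510) (nat_lit 0x1000000010002000200010000000100000000))) (.non (nat_lit 0) (nat_lit 3) (nat_lit 0x41514) (nat_lit 0x1000000000001000100010000000100010000))) (.non (nat_lit 0) (nat_lit 5) (nat_lit 0x40154) (nat_lit 0x3000000000000000000030004000100020000))) (.non (nat_lit 0) (nat_lit 3) (nat_lit 0x40014) (nat_lit 0x1000000000000000000000000000100010000))) (.non (nat_lit 2) (nat_lit 3) (nat_lit 0x40005) (nat_lit 0x1000000000000000000000000000000010001))))) (.split (nat_lit 2) (nat_lit 0) (.pd (.cons (nat_lit 1) (nat_lit 6) (nat_lit 0) (nat_lit 0x70433000) (nat_lit 0xf423ff423f00000f423fb71ae1f156f423f0000017500) .nil) (.ex (nat_lit 1) (.leaf (.cons (nat_lit 0x1550) (nat_lit 0x2000300040003000100000000) (.cons (nat_lit 0x11011) (nat_lit 0x100000001000000000000000200000002) .nil)) (.cons (nat_lit 0x11000110) (nat_lit 0x100001) (nat_lit 2) (nat_lit 0x32000100) .nil)) (.split (nat_lit 9) (nat_lit 0) (.split (nat_lit 9) (nat_lit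 2) (.split (nat_lit 9) (nat_lit 3) (.split (nat_lit 9) (nat_lit 4) (.split (nat_lit 9) (nat_lit 5) (.split (nat_lit 9) (nat_lit 6) (.split (nat_lit 9) (nat_lit 7) (.split (nat_lit 9) (nat_lit 8) (.sup (nat_lit 0x7000d00160020001a000000000000) (nat_lit 0x3000400000000000000000000000300070007)) (.non (nat_lit 2) (nat_lit 3) (nat_lit 0x50005) (nat_lit 0x1000100000000000000000000000000010001))) (.non (nat_lit 0) (nat_lit 3) (nat_lit 0x45014) (nat_lit 0x1000000010001000000000000000100010000))) (.non (nat_lit 0) (nat_lit 3) (nat_lit 0x45410) (nat_lit 0x1000000010002000100000000000100000000))) (.non (nat_lit 0) (nat_lit 3) (nat_lit 0x45510) (nat_lit 0x1000000010002000200010000000100000000))) (.non (nat_lit 0) (nat_lit 3) (nat_lit 0x41514) (nat_lit 0x1000000000001000100010000000100010000))) (.non (nat_lit 0) (nat_lit 5) (nat_lit 0x40154) (nat_lit 0x3000000000000000000030004000100020000))) (.non (nat_lit 0) (nat_lit 3) (nat_lit 0x40014) (nat_lit 0x1000000000000000000000000000100010000))) (.non (nat_lit 2) (nat_lit 3) (nat_lit 0x40005)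 (nat_lit 0x1000000000000000000000000000000010001))))) (.sup (nat_lit 0x30006000b0010000d000000000000) (nat_lit 0x200000000000000000000000200030004))))

noncomputable def t549_10 : Tr := (.ex (nat_lit 9) (.split (nat_lit 2) (nat_lit 0) (.split (nat_lit 9) (nat_lit 8) (.pd (.cons (nat_lit 1) (nat_lit 6) (nat_lit 0) (nat_lit 0x8070433000) (nat_lit 0xf423fb71aef423f00000f423fb71ae1f156f423f0000028b07) .nil) (.ex (nat_lit 1) (.leaf (.cons (nat_lit 0x1550) (nat_lit 0x2000300040003000100000000) (.cons (nat_lit 0x52021) (nat_lit 0x1000200000001000000000000000200000003) .nil)) (.cons (nat_lit 0x11000110) (nat_lit 0x100001) (nat_lit 2) (nat_lit 0x32000100) .nil)) (.split (nat_lit 0xa) (nat_lit 0) (.split (nat_lit 0xa) (nat_lit 2) (.split (nat_lit 0xa) (nat_lit 3) (.split (nat_lit 0xa) (nat_lit 4) (.split (nat_lit 0xa) (nat_lit 5) (.split (nat_lit 0xa) (nat_lit 6) (.split (nat_lit 0xa) (nat_lit 7) (.split (nat_lit 0xa) (nat_lit 8) (.split (nat_lit 0xa) (nat_lit 9) (.sup (nat_lit 0x7000d00160020001a000000000000) (nat_lit 0x40003000500000000000000000000000300070008))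 (.non (nat_lit 0) (nat_lit 3) (nat_lit 0x155514) (nat_lit 0x30002000100030006000400020000000500040000))) (.non (nat_lit 0) (nat_lit 3) (nat_lit 0x155514) (nat_lit 0x30001000200030006000400020000000500040000))) (.non (nat_lit 0) (nat_lit 3) (nat_lit 0x105014) (nat_lit 0x10000000000010001000000000000000100010000))) (.non (nat_lit 0) (nat_lit 3) (nat_lit 0x105410) (nat_lit 0x10000000000010002000100000000000100000000))) (.non (nat_lit 0) (nat_lit 3) (nat_lit 0x105510) (nat_lit 0x10000000000010002000200010000000100000000))) (.non (nat_lit 0) (nat_lit 3) (nat_lit 0x101514) (nat_lit 0x10000000000000001000100010000000100010000))) (.non (nat_lit 0) (nat_lit 5) (nat_lit 0x100154) (nat_lit 0x30000000000000000000000030004000100020000))) (.non (nat_lit 0) (nat_lit 3) (nat_lit 0x100014) (nat_lit 0x10000000000000000000000000000000100010000))) (.non (nat_lit 2) (nat_lit 3) (nat_lit 0x100005) (nat_lit 0x10000000000000000000000000000000000010001))))) (.sup (nat_lit 0x30007000b0010000d000000000000) (nat_lit 0x3000400000000000000000000000100030004)))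 (.sup (nat_lit 0x30006000b0010000d000000000000) (nat_lit 0x1000300000000000000000000000200030004))) (.split (nat_lit 0xa) (nat_lit 0) (.split (nat_lit 0xa) (nat_lit 1) (.split (nat_lit 0xa) (nat_lit 2) (.split (nat_lit 0xa) (nat_lit 3) (.split (nat_lit 0xa) (nat_lit 4) (.split (nat_lit 0xa) (nat_lit 5) (.split (nat_lit 0xa) (nat_lit 6) (.split (nat_lit 0xa) (nat_lit 7) (.split (nat_lit 0xa) (nat_lit 8) (.sup (nat_lit 0xc0019002c00400034000000000000) (nat_lit 0x50009000e000000000000000000000007000d0013)) (.non (nat_lit 0) (nat_lit 3) (nat_lit 0x150000) (nat_lit 0x10001000100000000000000000000000000000000))) (.non (nat_lit 0) (nat_lit 3) (nat_lit 0x105514) (nat_lit 0x10000000000020003000200010000000200010000))) (.non (nat_lit 0) (nat_lit 3) (nat_lit 0x105410) (nat_lit 0x10000000000010002000100000000000100000000))) (.non (nat_lit 0) (nat_lit 3) (nat_lit 0x105510) (nat_lit 0x10000000000010002000200010000000100000000))) (.non (nat_lit 0) (nat_lit 3) (nat_lit 0x155514) (nat_lit 0x30002000100030006000500040000000400020000))) (.non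 (nat_lit 0) (nat_lit 5) (nat_lit 0x150140) (nat_lit 0x30002000100000000000000030004000000000000))) (.non (nat_lit 0) (nat_lit 3) (nat_lit 0x105414) (nat_lit 0x10000000000010002000100000000000200010000))) (.non (nat_lit 0) (nat_lit 3) (nat_lit 0x155514) (nat_lit 0x30002000100030006000400020000000500040000))) (.non (nat_lit 2) (nat_lit 3) (nat_lit 0x150001) (nat_lit 0x10001000100000000000000000000000000000001))))

noncomputable def t549_11 : Tr := (.pd (.cons (nat_lit 0) (nat_lit 5) (nat_lit 0) (nat_lit 0x862033110) (nat_lit 0xf423ff423fb71ae00000f423f54591a2c289896500000) (.cons (nat_lit 0) (nat_lit 6) (nat_lit 0) (nat_lit 0x870433110) (nat_lit 0xf423ff423f00000f423fb71ae1f156f423fb71ae00000) (.cons (nat_lit 2) (nat_lit 5) (nat_lit 0) (nat_lit 0x66033000) (nat_lit 0xf423ff423fb71ae00000f423f5459100000f423f7a11d) (.cons (nat_lit 2) (nat_lit 6) (nat_lit 0) (nat_lit 0x70433000) (nat_lit 0xf423ff423f00000f423fb71ae1f15600000f423f7a11d) (.cons (nat_lit 2) (nat_lit 7) (nat_lit 0) (nat_lit 0x5433000) (nat_lit 0xf423f00000f423fb71aea2c280473700000f423f7a11d)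 .nil))))) (.ex (nat_lit 8) t549_9 (.split (nat_lit 9) (nat_lit 0) (.split (nat_lit 9) (nat_lit 1) (.split (nat_lit 9) (nat_lit 2) (.split (nat_lit 9) (nat_lit 3) (.split (nat_lit 9) (nat_lit 4) (.split (nat_lit 9) (nat_lit 5) (.split (nat_lit 9) (nat_lit 6) (.split (nat_lit 9) (nat_lit 7) (.ex (nat_lit 8) t549_10 (.split (nat_lit 0xa) (nat_lit 0) (.split (nat_lit 0xa) (nat_lit 1) (.split (nat_lit 0xa) (nat_lit 2) (.split (nat_lit 0xa) (nat_lit 3) (.split (nat_lit 0xa) (nat_lit 4) (.split (nat_lit 0xa) (nat_lit 5) (.split (nat_lit 0xa) (nat_lit 6) (.split (nat_lit 0xa) (nat_lit 7) (.split (nat_lit 0xa) (nat_lit 9) (.sup (nat_lit 0x30007000b0010000d000000000000) (nat_lit 0x20002000400000000000000000000000100030004)) (.non (nat_lit 0) (nat_lit 3) (nat_lit 0x150000) (nat_lit 0x10001000100000000000000000000000000000000))) (.non (nat_lit 0) (nat_lit 3) (nat_lit 0x105514) (nat_lit 0x10000000000020003000200010000000200010000))) (.non (nat_lit 0) (nat_lit 3) (nat_lit 0x105410) (nat_lit 0x10000000000010002000100000000000100000000))) (.non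 (nat_lit 0) (nat_lit 3) (nat_lit 0x105510) (nat_lit 0x10000000000010002000200010000000100000000))) (.non (nat_lit 0) (nat_lit 3) (nat_lit 0x155514) (nat_lit 0x30001000200030006000500040000000400020000))) (.non (nat_lit 0) (nat_lit 5) (nat_lit 0x150140) (nat_lit 0x30001000200000000000000030004000000000000))) (.non (nat_lit 0) (nat_lit 3) (nat_lit 0x105414) (nat_lit 0x10000000000010002000100000000000200010000))) (.non (nat_lit 0) (nat_lit 3) (nat_lit 0x155514) (nat_lit 0x30001000200030006000400020000000500040000))) (.non (nat_lit 2) (nat_lit 3) (nat_lit 0x110001) (nat_lit 0x10000000100000000000000000000000000000001)))) (.non (nat_lit 0) (nat_lit 3) (nat_lit 0x45514) (nat_lit 0x1000000020003000200010000000200010000))) (.non (nat_lit 0) (nat_lit 3) (nat_lit 0x45410) (nat_lit 0x1000000010002000100000000000100000000))) (.non (nat_lit 0) (nat_lit 3) (nat_lit 0x45510) (nat_lit 0x1000000010002000200010000000100000000))) (.non (nat_lit 0) (nat_lit 6) (nat_lit 0x40540) (nat_lit 0x1000000000000000100020002000000000000))) (.non (nat_lit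 0) (nat_lit 6) (nat_lit 0x40540) (nat_lit 0x1000000000000000100020002000000000000))) (.non (nat_lit 0) (nat_lit 3) (nat_lit 0x45414) (nat_lit 0x1000000010002000100000000000200010000))) (.non (nat_lit 2) (nat_lit 3) (nat_lit 0x50005) (nat_lit 0x1000100000000000000000000000000010001))) (.non (nat_lit 2) (nat_lit 3) (nat_lit 0x50001) (nat_lit 0x1000100000000000000000000000000000001)))))

noncomputable def t549_12 : Tr := (.ex (nat_lit 3) (.ex (nat_lit 4) (.split (nat_lit 2) (nat_lit 1) (.split (nat_lit 6) (nat_lit 2) (.split (nat_lit 7) (nat_lit 6) (.split (nat_lit 1) (nat_lit 0) (.split (nat_lit 8) (nat_lit 0) t549_11 (.sup (nat_lit 0x30007000b0010000d000000000000) (nat_lit 0x300000000000000000000000100030004))) (.sup (nat_lit 0x30007000b0010000d000000000000) (nat_lit 0x200000000000000000000000100030004))) (.non (nat_lit 0) (nat_lit 3) (nat_lit 0x9410) (nat_lit 0x10002000100000000000100000000))) (.non (nat_lit 0) (nat_lit 3) (nat_lit 0xa810) (nat_lit 0x10002000100000000000200000000))) (.non (nat_lit 0) (nat_lit 3) (nat_lit 0xa824)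 (nat_lit 0x10002000100000000000200020000))) (.split (nat_lit 9) (nat_lit 0) (.split (nat_lit 9) (nat_lit 1) (.split (nat_lit 9) (nat_lit 2) (.split (nat_lit 9) (nat_lit 5) (.split (nat_lit 9) (nat_lit 6) (.split (nat_lit 9) (nat_lit 7) (.split (nat_lit 9) (nat_lit 3) (.split (nat_lit 9) (nat_lit 8) (.unj (nat_lit 0x15) (nat_lit 0x100010001) (nat_lit 0x40540) (nat_lit 0x1000000000000000100020002000000000000)) (.unj (nat_lit 0x15) (nat_lit 0x100010001) (nat_lit 0x40540) (nat_lit 0x1000000000000000100020002000000000000))) (.split (nat_lit 9) (nat_lit 8) (.unj (nat_lit 0x15) (nat_lit 0x100010001) (nat_lit 0x40140) (nat_lit 0x1000000000000000000010001000000000000)) (.unj (nat_lit 0x15) (nat_lit 0x100010001) (nat_lit 0x40140) (nat_lit 0x1000000000000000000010001000000000000)))) (.non (nat_lit 0) (nat_lit 3) (nat_lit 0x45500) (nat_lit 0x1000000010001000100010000000000000000))) (.non (nat_lit 0) (nat_lit 3) (nat_lit 0x41500) (nat_lit 0x1000000000001000100010000000000000000))) (.non (nat_lit 0) (nat_lit 3) (nat_lit 0x40500) (nat_lit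 0x1000000000000000100010000000000000000))) (.star (nat_lit 9) (nat_lit 2) (nat_lit 4))) (.non (nat_lit 0) (nat_lit 3) (nat_lit 0x41514) (nat_lit 0x1000000000001000100010000000100010000))) (.star (nat_lit 9) (nat_lit 0) (nat_lit 4)))) (.split (nat_lit 9) (nat_lit 0) (.split (nat_lit 9) (nat_lit 2) (.split (nat_lit 9) (nat_lit 5) (.split (nat_lit 9) (nat_lit 6) (.split (nat_lit 9) (nat_lit 7) (.split (nat_lit 9) (nat_lit 1) (.split (nat_lit 9) (nat_lit 4) (.split (nat_lit 9) (nat_lit 8) (.unj (nat_lit 0x15) (nat_lit 0x100010001) (nat_lit 0x40540) (nat_lit 0x1000000000000000100020002000000000000)) (.unj (nat_lit 0x15) (nat_lit 0x100010001) (nat_lit 0x40540) (nat_lit 0x1000000000000000100020002000000000000))) (.split (nat_lit 9) (nat_lit 8) (.unj (nat_lit 0x15) (nat_lit 0x100010001) (nat_lit 0x40140) (nat_lit 0x1000000000000000000010001000000000000)) (.unj (nat_lit 0x15) (nat_lit 0x100010001) (nat_lit 0x40140) (nat_lit 0x1000000000000000000010001000000000000)))) (.split (nat_lit 9) (nat_lit 4) (.split (nat_lit 9) (nat_lit 8) (.split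 (nat_lit 9) (nat_lit 1) (.sup (nat_lit 0x500030005) (nat_lit 0x1000000000000000300050005000000000000)) (.non (nat_lit 0) (nat_lit 3) (nat_lit 0x85414) (nat_lit 0x1000000010002000100000000000200020000))) (.non (nat_lit 0) (nat_lit 4) (nat_lit 0x55454) (nat_lit 0x2000100010002000100000001000200020000))) (.non (nat_lit 0) (nat_lit 3) (nat_lit 0x41514) (nat_lit 0x1000000000001000100010000000100010000)))) (.non (nat_lit 0) (nat_lit 3) (nat_lit 0x45514) (nat_lit 0x1000000020003000200010000000200010000))) (.non (nat_lit 0) (nat_lit 3) (nat_lit 0x45410) (nat_lit 0x1000000010002000100000000000100000000))) (.non (nat_lit 0) (nat_lit 3) (nat_lit 0x45510) (nat_lit 0x1000000010002000200010000000100000000))) (.star (nat_lit 9) (nat_lit 2) (nat_lit 3))) (.star (nat_lit 9) (nat_lit 0) (nat_lit 3))))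

noncomputable def t549_13 : Tr := (.ex (nat_lit 0) (.ex (nat_lit 3) (.ex (nat_lit 4) (.split (nat_lit 2) (nat_lit 1) (.split (nat_lit 6) (nat_lit 2) (.split (nat_lit 7) (nat_lit 6) t549_8 (.non (nat_lit 0) (nat_lit 3) (nat_lit 0x9410) (nat_lit 0x10002000100000000000100000000))) (.non (nat_lit 0) (nat_lit 3) (nat_lit 0xa810) (nat_lit 0x10002000100000000000200000000))) (.non (nat_lit 0) (nat_lit 3) (nat_lit 0xa824) (nat_lit 0x10002000100000000000200020000))) (.split (nat_lit 8) (nat_lit 0) (.split (nat_lit 8) (nat_lit 1) (.split (nat_lit 8) (nat_lit 2) (.split (nat_lit 8) (nat_lit 5) (.split (nat_lit 8) (nat_lit 6) (.split (nat_lit 8) (nat_lit 7) (.split (nat_lit 8) (nat_lit 3) (.unj (nat_lit 0x15) (nat_lit 0x100010001) (nat_lit 0x10540) (nat_lit 0x100000000000100020002000000000000)) (.unj (nat_lit 0x15) (nat_lit 0x100010001) (nat_lit 0x10140) (nat_lit 0x100000000000000010001000000000000))) (.non (nat_lit 0) (nat_lit 3) (nat_lit 0x15500) (nat_lit 0x100010001000100010000000000000000))) (.non (nat_lit 0) (nat_lit 3) (nat_lit 0x11500)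 (nat_lit 0x100000001000100010000000000000000))) (.non (nat_lit 0) (nat_lit 3) (nat_lit 0x10500) (nat_lit 0x100000000000100010000000000000000))) (.star (nat_lit 8) (nat_lit 2) (nat_lit 4))) (.non (nat_lit 0) (nat_lit 3) (nat_lit 0x11514) (nat_lit 0x100000001000100010000000100010000))) (.star (nat_lit 8) (nat_lit 0) (nat_lit 4)))) (.split (nat_lit 8) (nat_lit 0) (.split (nat_lit 8) (nat_lit 2) (.split (nat_lit 8) (nat_lit 5) (.split (nat_lit 8) (nat_lit 6) (.split (nat_lit 8) (nat_lit 7) (.split (nat_lit 8) (nat_lit 1) (.split (nat_lit 8) (nat_lit 4) (.unj (nat_lit 0x15) (nat_lit 0x100010001) (nat_lit 0x10540) (nat_lit 0x100000000000100020002000000000000)) (.unj (nat_lit 0x15) (nat_lit 0x100010001) (nat_lit 0x10140) (nat_lit 0x100000000000000010001000000000000))) (.split (nat_lit 8) (nat_lit 4) (.split (nat_lit 8) (nat_lit 1) (.sup (nat_lit 0x500030005) (nat_lit 0x100000000000300050005000000000000)) (.non (nat_lit 0) (nat_lit 3) (nat_lit 0x25414) (nat_lit 0x100010002000100000000000200020000))) (.non (nat_lit 0) (nat_lit 3) (nat_lit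 0x11514) (nat_lit 0x100000001000100010000000100010000)))) (.non (nat_lit 0) (nat_lit 3) (nat_lit 0x15514) (nat_lit 0x100020003000200010000000200010000))) (.non (nat_lit 0) (nat_lit 3) (nat_lit 0x15410) (nat_lit 0x100010002000100000000000100000000))) (.non (nat_lit 0) (nat_lit 3) (nat_lit 0x15510) (nat_lit 0x100010002000200010000000100000000))) (.star (nat_lit 8) (nat_lit 2) (nat_lit 3))) (.star (nat_lit 8) (nat_lit 0) (nat_lit 3)))) (.split (nat_lit 8) (nat_lit 1) (.split (nat_lit 8) (nat_lit 2) (.split (nat_lit 8) (nat_lit 3) (.split (nat_lit 8) (nat_lit 4) (.split (nat_lit 8) (nat_lit 5) (.split (nat_lit 8) (nat_lit 6) (.split (nat_lit 8) (nat_lit 7) (.ex (nat_lit 0) t549_12 (.split (nat_lit 9) (nat_lit 1) (.split (nat_lit 9) (nat_lit 2) (.split (nat_lit 9) (nat_lit 3) (.split (nat_lit 9) (nat_lit 4) (.split (nat_lit 9) (nat_lit 5) (.split (nat_lit 9) (nat_lit 6) (.split (nat_lit 9) (nat_lit 7) (.split (nat_lit 9) (nat_lit 8) (.split (nat_lit 9) (nat_lit 0) (.split (nat_lit 8) (nat_lit 0) (.split (nat_lit 7) (nat_lit 6) (.split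 (nat_lit 6) (nat_lit 2) (.sup (nat_lit 0x30007000b0010000d000000000000) (nat_lit 0x2000200000000000000000000000100030004)) (.non (nat_lit 0) (nat_lit 3) (nat_lit 0xa810) (nat_lit 0x10002000100000000000200000000))) (.non (nat_lit 0) (nat_lit 3) (nat_lit 0x9410) (nat_lit 0x10002000100000000000100000000))) (.non (nat_lit 2) (nat_lit 3) (nat_lit 0x60005) (nat_lit 0x1000100000000000000000000000000010002))) (.non (nat_lit 2) (nat_lit 3) (nat_lit 0x90005) (nat_lit 0x1000100000000000000000000000000010002))) (.non (nat_lit 2) (nat_lit 3) (nat_lit 0x50001) (nat_lit 0x1000100000000000000000000000000000001))) (.non (nat_lit 0) (nat_lit 3) (nat_lit 0x45514) (nat_lit 0x1000000020003000200010000000200010000))) (.non (nat_lit 0) (nat_lit 3) (nat_lit 0x45410) (nat_lit 0x1000000010002000100000000000100000000))) (.non (nat_lit 0) (nat_lit 3) (nat_lit 0x45510) (nat_lit 0x1000000010002000200010000000100000000))) (.star (nat_lit 9) (nat_lit 0) (nat_lit 4))) (.star (nat_lit 9) (nat_lit 0) (nat_lit 3))) (.non (nat_lit 0) (nat_lit 3) (nat_lit 0x45414)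 (nat_lit 0x1000000010002000100000000000200010000))) (.non (nat_lit 2) (nat_lit 3) (nat_lit 0x40005) (nat_lit 0x1000000000000000000000000000000010001)))) (.non (nat_lit 0) (nat_lit 3) (nat_lit 0x15514) (nat_lit 0x100020003000200010000000200010000))) (.non (nat_lit 0) (nat_lit 3) (nat_lit 0x15410) (nat_lit 0x100010002000100000000000100000000))) (.non (nat_lit 0) (nat_lit 3) (nat_lit 0x15510) (nat_lit 0x100010002000200010000000100000000))) (.star (nat_lit 8) (nat_lit 0) (nat_lit 4))) (.star (nat_lit 8) (nat_lit 0) (nat_lit 3))) (.non (nat_lit 0) (nat_lit 3) (nat_lit 0x15414) (nat_lit 0x100010002000100000000000200010000))) (.non (nat_lit 2) (nat_lit 3) (nat_lit 0x10005) (nat_lit 0x100000000000000000000000000010001))))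

noncomputable def t549_14 : Tr := (.ex (nat_lit 3) (.ex (nat_lit 4) (.split (nat_lit 2) (nat_lit 1) (.split (nat_lit 6) (nat_lit 1) (.split (nat_lit 1) (nat_lit 0) (.pd (.cons (nat_lit 0) (nat_lit 5) (nat_lit 0) (nat_lit 0x61033110) (nat_lit 0xf423fb71ae00000f423f54591f423f65b9700000) (.cons (nat_lit 0) (nat_lit 6) (nat_lit 0) (nat_lit 0x70433110) (nat_lit 0xf423f00000f423fb71ae1f156f423fb71ae00000) (.cons (nat_lit 1) (nat_lit 5) (nat_lit 0x101) (nat_lit 0x66033002) (nat_lit 0xf423fb71ae00000f423f54591000010000000001) (.cons (nat_lit 1) (nat_lit 6) (nat_lit 0x101) (nat_lit 0x70433002) (nat_lit 0xf423f00000f423fb71ae1f156000010000000001) (.cons (nat_lit 1) (nat_lit 7) (nat_lit 0x101) (nat_lit 0x5433002) (nat_lit 0xf423fb71aea2c2804737000010000000001) (.cons (nat_lit 2) (nat_lit 5) (nat_lit 0) (nat_lit 0x61033000) (nat_lit 0xf423fb71ae00000f423f5459100000a2c2898965) (.cons (nat_lit 2) (nat_lit 6) (nat_lit 0) (nat_lit 0x70433000) (nat_lit 0xf423f00000f423fb71ae1f15600000f423fb71ae) .nil))))))) (.leaf (.cons (nat_lit 0x1544) (nat_lit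 0x2000300040003000000010000) .nil) (.cons (nat_lit 0x11000110) (nat_lit 0x100001) (nat_lit 2) (nat_lit 0x32000010) .nil))) (.non (nat_lit 2) (nat_lit 3) (nat_lit 0xa809) (nat_lit 0x10002000100000000000000020002))) (.non (nat_lit 0) (nat_lit 3) (nat_lit 0xa804) (nat_lit 0x10002000100000000000000020000))) (.non (nat_lit 0) (nat_lit 3) (nat_lit 0x5424) (nat_lit 0x10002000100000000000100020000))) (.split (nat_lit 8) (nat_lit 0) (.split (nat_lit 8) (nat_lit 1) (.split (nat_lit 8) (nat_lit 2) (.split (nat_lit 8) (nat_lit 5) (.split (nat_lit 8) (nat_lit 6) (.split (nat_lit 8) (nat_lit 7) (.split (nat_lit 8) (nat_lit 3) (.unj (nat_lit 0x15) (nat_lit 0x100010001) (nat_lit 0x10540) (nat_lit 0x100000000000100020002000000000000)) (.unj (nat_lit 0x15) (nat_lit 0x100010001) (nat_lit 0x10140) (nat_lit 0x100000000000000010001000000000000))) (.non (nat_lit 0) (nat_lit 3) (nat_lit 0x15500) (nat_lit 0x100010001000100010000000000000000))) (.non (nat_lit 0) (nat_lit 3) (nat_lit 0x11500) (nat_lit 0x100000001000100010000000000000000))) (.non (nat_lit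 0) (nat_lit 3) (nat_lit 0x10500) (nat_lit 0x100000000000100010000000000000000))) (.star (nat_lit 8) (nat_lit 2) (nat_lit 4))) (.non (nat_lit 0) (nat_lit 3) (nat_lit 0x11504) (nat_lit 0x100000001000100010000000000010000))) (.star (nat_lit 8) (nat_lit 0) (nat_lit 4)))) (.split (nat_lit 8) (nat_lit 0) (.split (nat_lit 8) (nat_lit 1) (.split (nat_lit 8) (nat_lit 2) (.split (nat_lit 8) (nat_lit 5) (.split (nat_lit 8) (nat_lit 6) (.split (nat_lit 8) (nat_lit 7) (.split (nat_lit 8) (nat_lit 4) (.unj (nat_lit 0x15) (nat_lit 0x100010001) (nat_lit 0x10540) (nat_lit 0x100000000000100020002000000000000)) (.unj (nat_lit 0x15) (nat_lit 0x100010001) (nat_lit 0x10140) (nat_lit 0x100000000000000010001000000000000))) (.non (nat_lit 0) (nat_lit 3) (nat_lit 0x15514) (nat_lit 0x100020003000200010000000100020000))) (.non (nat_lit 0) (nat_lit 3) (nat_lit 0x15404) (nat_lit 0x100010002000100000000000000010000))) (.non (nat_lit 0) (nat_lit 3) (nat_lit 0x15504) (nat_lit 0x100010002000200010000000000010000))) (.star (nat_lit 8) (nat_lit 2) (nat_lit 3)))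 (.non (nat_lit 0) (nat_lit 3) (nat_lit 0x15414) (nat_lit 0x100010002000100000000000100020000))) (.star (nat_lit 8) (nat_lit 0) (nat_lit 3))))

noncomputable def t549_15 : Tr := (.ex (nat_lit 0) (.ex (nat_lit 2) (.split (nat_lit 7) (nat_lit 6) (.pd (.cons (nat_lit 1) (nat_lit 3) (nat_lit 0x101) (nat_lit 0x65440002) (nat_lit 0xf423fb71aea2c289896500000000010000000001) (.cons (nat_lit 1) (nat_lit 4) (nat_lit 0x101) (nat_lit 0x65503002) (nat_lit 0xf423fb71aea2c2800000f423f000010000000001) .nil)) t549_14) (.non (nat_lit 0) (nat_lit 3) (nat_lit 0x9404) (nat_lit 0x10002000100000000000000010000))) (.split (nat_lit 8) (nat_lit 1) (.split (nat_lit 8) (nat_lit 3) (.split (nat_lit 8) (nat_lit 4) (.split (nat_lit 8) (nat_lit 5) (.split (nat_lit 8) (nat_lit 6) (.split (nat_lit 8) (nat_lit 7) (.split (nat_lit 8) (nat_lit 0) (.split (nat_lit 8) (nat_lit 2) (.split (nat_lit 7) (nat_lit 6) (.split (nat_lit 6) (nat_lit 1) (.sup (nat_lit 0x30006000b0010000d000000000000) (nat_lit 0x300000000000000000000000500020004)) (.non (nat_lit 0) (nat_lit 3)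 (nat_lit 0xa804) (nat_lit 0x10002000100000000000000020000))) (.non (nat_lit 0) (nat_lit 3) (nat_lit 0x9404) (nat_lit 0x10002000100000000000000010000))) (.non (nat_lit 0) (nat_lit 3) (nat_lit 0x25414) (nat_lit 0x100010002000100000000000200020000))) (.unj (nat_lit 0x10011) (nat_lit 0x100000000000000000000000100000001) (nat_lit 0x5540) (nat_lit 0x10002000300040003000000000000))) (.non (nat_lit 0) (nat_lit 3) (nat_lit 0x15014) (nat_lit 0x100010001000000000000000100010000))) (.non (nat_lit 0) (nat_lit 3) (nat_lit 0x15404) (nat_lit 0x100010002000100000000000000010000))) (.non (nat_lit 0) (nat_lit 3) (nat_lit 0x15504) (nat_lit 0x100010002000200010000000000010000))) (.star (nat_lit 8) (nat_lit 2) (nat_lit 4))) (.star (nat_lit 8) (nat_lit 2) (nat_lit 3))) (.non (nat_lit 0) (nat_lit 3) (nat_lit 0x10014) (nat_lit 0x100000000000000000000000100010000)))) (.split (nat_lit 8) (nat_lit 1) (.split (nat_lit 8) (nat_lit 3) (.split (nat_lit 8) (nat_lit 4) (.split (nat_lit 8) (nat_lit 5) (.split (nat_lit 8) (nat_lit 6) (.split (nat_lit 8) (nat_lit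 7) (.split (nat_lit 8) (nat_lit 2) (.split (nat_lit 8) (nat_lit 0) (.split (nat_lit 7) (nat_lit 6) (.split (nat_lit 6) (nat_lit 1) (.sup (nat_lit 0x30006000b0010000d000000000000) (nat_lit 0x300000000000000000000000400020005)) (.non (nat_lit 0) (nat_lit 3) (nat_lit 0xa804) (nat_lit 0x10002000100000000000000020000))) (.non (nat_lit 0) (nat_lit 3) (nat_lit 0x9404) (nat_lit 0x10002000100000000000000010000))) (.non (nat_lit 2) (nat_lit 3) (nat_lit 0x25405) (nat_lit 0x100010002000100000000000000020002))) (.unj (nat_lit 0x10011) (nat_lit 0x100000000000000000000000100000001) (nat_lit 0x5540) (nat_lit 0x10002000300040003000000000000))) (.non (nat_lit 0) (nat_lit 3) (nat_lit 0x15514) (nat_lit 0x100020003000200010000000100020000))) (.non (nat_lit 0) (nat_lit 3) (nat_lit 0x15404) (nat_lit 0x100010002000100000000000000010000))) (.non (nat_lit 0) (nat_lit 3) (nat_lit 0x15504) (nat_lit 0x100010002000200010000000000010000))) (.star (nat_lit 8) (nat_lit 0) (nat_lit 4))) (.star (nat_lit 8) (nat_lit 0) (nat_lit 3))) (.non (nat_lit 0) (nat_lit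 3) (nat_lit 0x15414) (nat_lit 0x100010002000100000000000100020000))))

noncomputable def t549_16 : Tr := (.split (nat_lit 8) (nat_lit 0) (.split (nat_lit 8) (nat_lit 2) (.split (nat_lit 8) (nat_lit 3) (.split (nat_lit 8) (nat_lit 4) (.split (nat_lit 8) (nat_lit 5) (.split (nat_lit 8) (nat_lit 6) (.split (nat_lit 8) (nat_lit 7) (.st (nat_lit 1) (nat_lit 2) (nat_lit 3) (nat_lit 0x15405) (nat_lit 0x100010002000100000000000000020002) (nat_lit 1) (nat_lit 1) (.split (nat_lit 8) (nat_lit 1) (.ex (nat_lit 8) (.leaf (.cons (nat_lit 0x1031) (nat_lit 0x1000000000000000100000002) (.cons (nat_lit 0x1541) (nat_lit 0x2000300040003000000000001) .nil)) (.cons (nat_lit 0x111000011) (nat_lit 0x100100) (nat_lit 3) (nat_lit 0x401000032) .nil)) (.split (nat_lit 9) (nat_lit 0) (.split (nat_lit 9) (nat_lit 1) (.split (nat_lit 9) (nat_lit 2) (.split (nat_lit 9) (nat_lit 3) (.split (nat_lit 9) (nat_lit 4) (.split (nat_lit 9) (nat_lit 5) (.split (nat_lit 9) (nat_lit 6) (.split (nat_lit 9) (nat_lit 7) (.sup (nat_lit 0x6000d00160020001a000000000000) (nat_lit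 0x3000500000000000000000000000700080003)) (.non (nat_lit 2) (nat_lit 3) (nat_lit 0x55005) (nat_lit 0x1000100010001000000000000000000010001))) (.non (nat_lit 2) (nat_lit 3) (nat_lit 0x45401) (nat_lit 0x1000000010002000100000000000000000001))) (.non (nat_lit 2) (nat_lit 3) (nat_lit 0x45501) (nat_lit 0x1000000010002000200010000000000000001))) (.non (nat_lit 2) (nat_lit 3) (nat_lit 0x51505) (nat_lit 0x1000100000001000100010000000000010001))) (.non (nat_lit 0) (nat_lit 5) (nat_lit 0x50144) (nat_lit 0x3000200000000000000030004000000010000))) (.non (nat_lit 0) (nat_lit 3) (nat_lit 0x50014) (nat_lit 0x1000100000000000000000000000100010000))) (.non (nat_lit 0) (nat_lit 3) (nat_lit 0x50004) (nat_lit 0x1000100000000000000000000000000010000))) (.non (nat_lit 2) (nat_lit 3) (nat_lit 0x50005) (nat_lit 0x1000100000000000000000000000000010001)))) (.non (nat_lit 2) (nat_lit 3) (nat_lit 0x25405) (nat_lit 0x100010002000100000000000000020002)))) (.non (nat_lit 2) (nat_lit 3) (nat_lit 0x15005) (nat_lit 0x100010001000000000000000000010001))) (.non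 (nat_lit 2) (nat_lit 3) (nat_lit 0x15401) (nat_lit 0x100010002000100000000000000000001))) (.non (nat_lit 2) (nat_lit 3) (nat_lit 0x15501) (nat_lit 0x100010002000200010000000000000001))) (.non (nat_lit 2) (nat_lit 3) (nat_lit 0x11505) (nat_lit 0x100000001000100010000000000010001))) (.non (nat_lit 0) (nat_lit 5) (nat_lit 0x10154) (nat_lit 0x300000000000000030004000100020000))) (.non (nat_lit 0) (nat_lit 3) (nat_lit 0x10014) (nat_lit 0x100000000000000000000000100010000))) (.non (nat_lit 2) (nat_lit 3) (nat_lit 0x10005) (nat_lit 0x100000000000000000000000000010001)))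

noncomputable def t549_17 : Tr := (.split (nat_lit 2) (nat_lit 0) (.split (nat_lit 6) (nat_lit 0) (.split (nat_lit 7) (nat_lit 6) (.split (nat_lit 1) (nat_lit 0) (.pd (.cons (nat_lit 0) (nat_lit 5) (nat_lit 0x110) (nat_lit 0x66033120) (nat_lit 0xf423fb71ae00000f423f54591000010000100000) (.cons (nat_lit 0) (nat_lit 6) (nat_lit 0x110) (nat_lit 0x70433120) (nat_lit 0xf423f00000f423fb71ae1f156000010000100000) (.cons (nat_lit 0) (nat_lit 7) (nat_lit 0x110) (nat_lit 0x5433120) (nat_lit 0xf423fb71aea2c2804737000010000100000) (.cons (nat_lit 1) (nat_lit 5) (nat_lit 0) (nat_lit 0x60033000) (nat_lit 0xf423fb71ae00000f423f54591f423f0000002f7a) (.cons (nat_lit 1) (nat_lit 6) (nat_lit 0) (nat_lit 0x70433000) (nat_lit 0xf423f00000f423fb71ae1f156f423f0000054591) (.cons (nat_lit 2) (nat_lit 5) (nat_lit 0) (nat_lit 0x60033000) (nat_lit 0xf423fb71ae00000f423f5459100000f423f65b97) (.cons (nat_lit 2) (nat_lit 6) (nat_lit 0) (nat_lit 0x70433000) (nat_lit 0xf423f00000f423fb71ae1f15600000f423fb71ae) .nil))))))) (.leaf (.cons (nat_lit 0x5411) (nat_lit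 0x10002000100000000000200000002) (.cons (nat_lit 0x1541) (nat_lit 0x2000300040003000000000001) .nil)) .nil)) (.non (nat_lit 2) (nat_lit 3) (nat_lit 0x5409) (nat_lit 0x10002000100000000000000010002))) (.non (nat_lit 2) (nat_lit 3) (nat_lit 0x9401) (nat_lit 0x10002000100000000000000000001))) (.non (nat_lit 2) (nat_lit 3) (nat_lit 0xa801) (nat_lit 0x10002000100000000000000000002))) (.split (nat_lit 1) (nat_lit 0) (.split (nat_lit 6) (nat_lit 0) (.split (nat_lit 7) (nat_lit 6) (.pd (.cons (nat_lit 0) (nat_lit 5) (nat_lit 0x110) (nat_lit 0x66033120) (nat_lit 0xf423fb71ae00000f423f54591000010000100000) (.cons (nat_lit 0) (nat_lit 6) (nat_lit 0x110) (nat_lit 0x70433120) (nat_lit 0xf423f00000f423fb71ae1f156000010000100000) (.cons (nat_lit 0) (nat_lit 7) (nat_lit 0x110) (nat_lit 0x5433120) (nat_lit 0xf423fb71aea2c2804737000010000100000) (.cons (nat_lit 1) (nat_lit 6) (nat_lit 0x101) (nat_lit 0x70433002) (nat_lit 0xf423f00000f423fb71ae1f156000010000000001) (.cons (nat_lit 2) (nat_lit 5) (nat_lit 0) (nat_lit 0x60033000) (nat_lit 0xf423fb71ae00000f423f5459100000f423f65b97)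 (.cons (nat_lit 2) (nat_lit 6) (nat_lit 0) (nat_lit 0x70433000) (nat_lit 0xf423f00000f423fb71ae1f15600000f423fb71ae) .nil)))))) (.split (nat_lit 2) (nat_lit 1) (.ex (nat_lit 1) (.leaf (.cons (nat_lit 0x1031) (nat_lit 0x1000000000000000100000002) (.cons (nat_lit 0x1541) (nat_lit 0x2000300040003000000000001) .nil)) (.cons (nat_lit 0x11000011) (nat_lit 0x100100) (nat_lit 2) (nat_lit 0x32000001) .nil)) t549_16) (.sup (nat_lit 0xa00090004) (nat_lit 0x200040007000a0008000000000000)))) (.non (nat_lit 2) (nat_lit 3) (nat_lit 0x9401) (nat_lit 0x10002000100000000000000000001))) (.non (nat_lit 2) (nat_lit 3) (nat_lit 0xa801) (nat_lit 0x10002000100000000000000000002))) (.non (nat_lit 2) (nat_lit 3) (nat_lit 0x5409) (nat_lit 0x10002000100000000000000010002))))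

noncomputable def t549_18 : Tr := (.ex (nat_lit 3) (.ex (nat_lit 4) (.split (nat_lit 2) (nat_lit 0) (.split (nat_lit 6) (nat_lit 0) (.split (nat_lit 7) (nat_lit 6) (.split (nat_lit 1) (nat_lit 0) (.pd (.cons (nat_lit 0) (nat_lit 5) (nat_lit 0x110) (nat_lit 0x66033120) (nat_lit 0xf423fb71ae00000f423f54591000010000100000) (.cons (nat_lit 0) (nat_lit 6) (nat_lit 0x110) (nat_lit 0x70433120) (nat_lit 0xf423f00000f423fb71ae1f156000010000100000) (.cons (nat_lit 0) (nat_lit 7) (nat_lit 0x110) (nat_lit 0x5433120) (nat_lit 0xf423fb71aea2c2804737000010000100000) (.cons (nat_lit 1) (nat_lit 5) (nat_lit 0) (nat_lit 0x60033000) (nat_lit 0xf423fb71ae00000f423f54591f423f0000028b07) (.cons (nat_lit 1) (nat_lit 6) (nat_lit 0) (nat_lit 0x70433000) (nat_lit 0xf423f00000f423fb71ae1f156f423f000007a11e) (.cons (nat_lit 2) (nat_lit 5) (nat_lit 0) (nat_lit 0x60033000) (nat_lit 0xf423fb71ae00000f423f5459100000f423f65b97) (.cons (nat_lit 2) (nat_lit 6) (nat_lit 0) (nat_lit 0x70433000) (nat_lit 0xf423f00000f423fb71ae1f15600000f423fb71ae) .nil))))))) (.leaf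 (.cons (nat_lit 0x5421) (nat_lit 0x10002000100000000000100000002) (.cons (nat_lit 0x1541) (nat_lit 0x2000300040003000000000001) .nil)) .nil)) (.non (nat_lit 2) (nat_lit 3) (nat_lit 0x5409) (nat_lit 0x10002000100000000000000010002))) (.non (nat_lit 2) (nat_lit 3) (nat_lit 0x9401) (nat_lit 0x10002000100000000000000000001))) (.non (nat_lit 2) (nat_lit 3) (nat_lit 0xa801) (nat_lit 0x10002000100000000000000000002))) t549_17) (.split (nat_lit 8) (nat_lit 0) (.split (nat_lit 8) (nat_lit 1) (.split (nat_lit 8) (nat_lit 2) (.split (nat_lit 8) (nat_lit 5) (.split (nat_lit 8) (nat_lit 6) (.split (nat_lit 8) (nat_lit 7) (.split (nat_lit 8) (nat_lit 3) (.unj (nat_lit 0x15) (nat_lit 0x100010001) (nat_lit 0x10540) (nat_lit 0x100000000000100020002000000000000)) (.unj (nat_lit 0x15) (nat_lit 0x100010001) (nat_lit 0x10140) (nat_lit 0x100000000000000010001000000000000))) (.non (nat_lit 0) (nat_lit 3) (nat_lit 0x15500) (nat_lit 0x100010001000100010000000000000000))) (.non (nat_lit 0) (nat_lit 3) (nat_lit 0x11500) (nat_lit 0x100000001000100010000000000000000)))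 (.non (nat_lit 0) (nat_lit 3) (nat_lit 0x10500) (nat_lit 0x100000000000100010000000000000000))) (.star (nat_lit 8) (nat_lit 2) (nat_lit 4))) (.non (nat_lit 2) (nat_lit 3) (nat_lit 0x11505) (nat_lit 0x100000001000100010000000000010001))) (.star (nat_lit 8) (nat_lit 0) (nat_lit 4)))) (.split (nat_lit 8) (nat_lit 0) (.split (nat_lit 8) (nat_lit 2) (.split (nat_lit 8) (nat_lit 5) (.split (nat_lit 8) (nat_lit 6) (.split (nat_lit 8) (nat_lit 7) (.split (nat_lit 8) (nat_lit 1) (.split (nat_lit 8) (nat_lit 4) (.unj (nat_lit 0x15) (nat_lit 0x100010001) (nat_lit 0x10540) (nat_lit 0x100000000000100020002000000000000)) (.unj (nat_lit 0x15) (nat_lit 0x100010001) (nat_lit 0x10140) (nat_lit 0x100000000000000010001000000000000))) (.split (nat_lit 8) (nat_lit 4) (.split (nat_lit 8) (nat_lit 1) (.sup (nat_lit 0x500030005) (nat_lit 0x100000000000300050005000000000000)) (.non (nat_lit 2) (nat_lit 3) (nat_lit 0x25405) (nat_lit 0x100010002000100000000000000020002))) (.non (nat_lit 2) (nat_lit 3) (nat_lit 0x11505) (nat_lit 0x100000001000100010000000000010001))))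 (.non (nat_lit 2) (nat_lit 3) (nat_lit 0x15505) (nat_lit 0x100020003000200010000000000010002))) (.non (nat_lit 2) (nat_lit 3) (nat_lit 0x15401) (nat_lit 0x100010002000100000000000000000001))) (.non (nat_lit 2) (nat_lit 3) (nat_lit 0x15501) (nat_lit 0x100010002000200010000000000000001))) (.star (nat_lit 8) (nat_lit 2) (nat_lit 3))) (.star (nat_lit 8) (nat_lit 0) (nat_lit 3))))

noncomputable def t549_19 : Tr := (.split (nat_lit 2) (nat_lit 0) (.pd (.cons (nat_lit 1) (nat_lit 6) (nat_lit 0) (nat_lit 0x270433000) (nat_lit 0xf423ff423f00000f423fb71ae1f156b71ae0000051612) .nil) (.ex (nat_lit 1) (.leaf (.cons (nat_lit 0x25021) (nat_lit 0x100010002000000000000000200000003) (.cons (nat_lit 0x1541) (nat_lit 0x2000300040003000000000001) .nil)) (.cons (nat_lit 0x11000011) (nat_lit 0x100100) (nat_lit 2) (nat_lit 0x32000001) .nil)) (.split (nat_lit 9) (nat_lit 0) (.split (nat_lit 9) (nat_lit 2) (.split (nat_lit 9) (nat_lit 3) (.split (nat_lit 9) (nat_lit 4) (.split (nat_lit 9) (nat_lit 5) (.split (nat_lit 9) (nat_lit 6) (.split (nat_lit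 9) (nat_lit 7) (.split (nat_lit 9) (nat_lit 8) (.sup (nat_lit 0x30006000b0010000d000000000000) (nat_lit 0x2000200000000000000000000000400040002)) (.non (nat_lit 0) (nat_lit 3) (nat_lit 0x50014) (nat_lit 0x1000100000000000000000000000100010000))) (.non (nat_lit 2) (nat_lit 3) (nat_lit 0x45005) (nat_lit 0x1000000010001000000000000000000010001))) (.non (nat_lit 2) (nat_lit 3) (nat_lit 0x45401) (nat_lit 0x1000000010002000100000000000000000001))) (.non (nat_lit 2) (nat_lit 3) (nat_lit 0x45501) (nat_lit 0x1000000010002000200010000000000000001))) (.non (nat_lit 2) (nat_lit 3) (nat_lit 0x41505) (nat_lit 0x1000000000001000100010000000000010001))) (.non (nat_lit 0) (nat_lit 5) (nat_lit 0x40154) (nat_lit 0x3000000000000000000030004000100020000))) (.non (nat_lit 0) (nat_lit 3) (nat_lit 0x40014) (nat_lit 0x1000000000000000000000000000100010000))) (.non (nat_lit 2) (nat_lit 3) (nat_lit 0x40005) (nat_lit 0x1000000000000000000000000000000010001))))) (.split (nat_lit 2) (nat_lit 0) (.pd (.cons (nat_lit 1) (nat_lit 6) (nat_lit 0) (nat_lit 0x270433000)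 (nat_lit 0xf423ff423f00000f423fb71ae1f156b71ae000001f156) .nil) (.ex (nat_lit 1) (.leaf (.cons (nat_lit 0x11011) (nat_lit 0x100000001000000000000000200000002) (.cons (nat_lit 0x1541) (nat_lit 0x2000300040003000000000001) .nil)) (.cons (nat_lit 0x11000011) (nat_lit 0x100100) (nat_lit 2) (nat_lit 0x32000001) .nil)) (.split (nat_lit 9) (nat_lit 0) (.split (nat_lit 9) (nat_lit 2) (.split (nat_lit 9) (nat_lit 3) (.split (nat_lit 9) (nat_lit 4) (.split (nat_lit 9) (nat_lit 5) (.split (nat_lit 9) (nat_lit 6) (.split (nat_lit 9) (nat_lit 7) (.split (nat_lit 9) (nat_lit 8) (.sup (nat_lit 0x7000d00160020001a000000000000) (nat_lit 0x3000400000000000000000000000700070003)) (.non (nat_lit 0) (nat_lit 3) (nat_lit 0x50014) (nat_lit 0x1000100000000000000000000000100010000))) (.non (nat_lit 2) (nat_lit 3) (nat_lit 0x45005) (nat_lit 0x1000000010001000000000000000000010001))) (.non (nat_lit 2) (nat_lit 3) (nat_lit 0x45401) (nat_lit 0x1000000010002000100000000000000000001))) (.non (nat_lit 2) (nat_lit 3) (nat_lit 0x45501) (nat_lit 0x1000000010002000200010000000000000001)))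 (.non (nat_lit 2) (nat_lit 3) (nat_lit 0x41505) (nat_lit 0x1000000000001000100010000000000010001))) (.non (nat_lit 0) (nat_lit 5) (nat_lit 0x40154) (nat_lit 0x3000000000000000000030004000100020000))) (.non (nat_lit 0) (nat_lit 3) (nat_lit 0x40014) (nat_lit 0x1000000000000000000000000000100010000))) (.non (nat_lit 2) (nat_lit 3) (nat_lit 0x40005) (nat_lit 0x1000000000000000000000000000000010001))))) (.sup (nat_lit 0x30006000b0010000d000000000000) (nat_lit 0x200000000000000000000000400030002))))

noncomputable def t549_20 : Tr := (.ex (nat_lit 9) (.split (nat_lit 2) (nat_lit 0) (.split (nat_lit 9) (nat_lit 8) (.pd (.cons (nat_lit 1) (nat_lit 6) (nat_lit 0) (nat_lit 0x8270433000) (nat_lit 0xf423fb71aef423f00000f423fb71ae1f156a2c28000003d08b) .nil) (.ex (nat_lit 1) (.leaf (.cons (nat_lit 0xa1021) (nat_lit 0x1000200000002000000000000000300000004) (.cons (nat_lit 0x1541) (nat_lit 0x2000300040003000000000001) .nil)) (.cons (nat_lit 0x11000011) (nat_lit 0x100100) (nat_lit 2) (nat_lit 0x32000001) .nil)) (.split (nat_lit 0xa) (nat_lit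 0) (.split (nat_lit 0xa) (nat_lit 2) (.split (nat_lit 0xa) (nat_lit 3) (.split (nat_lit 0xa) (nat_lit 4) (.split (nat_lit 0xa) (nat_lit 5) (.split (nat_lit 0xa) (nat_lit 6) (.split (nat_lit 0xa) (nat_lit 7) (.split (nat_lit 0xa) (nat_lit 8) (.split (nat_lit 0xa) (nat_lit 9) (.sup (nat_lit 0x7000d00160020001a000000000000) (nat_lit 0x40003000500000000000000000000000800070003)) (.non (nat_lit 0) (nat_lit 3) (nat_lit 0x150014) (nat_lit 0x10001000100000000000000000000000100010000))) (.non (nat_lit 0) (nat_lit 3) (nat_lit 0x110014) (nat_lit 0x10000000100000000000000000000000100010000))) (.non (nat_lit 2) (nat_lit 3) (nat_lit 0x105005) (nat_lit 0x10000000000010001000000000000000000010001))) (.non (nat_lit 0) (nat_lit 3) (nat_lit 0x155514) (nat_lit 0x50001000200030006000400020000000300040000))) (.non (nat_lit 0) (nat_lit 3) (nat_lit 0x155514) (nat_lit 0x50001000200020004000600030000000300040000))) (.non (nat_lit 2) (nat_lit 3) (nat_lit 0x101505) (nat_lit 0x10000000000000001000100010000000000010001))) (.non (nat_lit 0) (nat_lit 5) (nat_lit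 0x100154) (nat_lit 0x30000000000000000000000030004000100020000))) (.non (nat_lit 0) (nat_lit 3) (nat_lit 0x100014) (nat_lit 0x10000000000000000000000000000000100010000))) (.non (nat_lit 2) (nat_lit 3) (nat_lit 0x100005) (nat_lit 0x10000000000000000000000000000000000010001))))) (.sup (nat_lit 0x30007000b0010000d000000000000) (nat_lit 0x3000400000000000000000000000400030001))) (.sup (nat_lit 0x30006000b0010000d000000000000) (nat_lit 0x1000300000000000000000000000400030002))) (.split (nat_lit 0xa) (nat_lit 0) (.split (nat_lit 0xa) (nat_lit 1) (.split (nat_lit 0xa) (nat_lit 2) (.split (nat_lit 0xa) (nat_lit 3) (.split (nat_lit 0xa) (nat_lit 4) (.split (nat_lit 0xa) (nat_lit 5) (.split (nat_lit 0xa) (nat_lit 6) (.split (nat_lit 0xa) (nat_lit 7) (.split (nat_lit 0xa) (nat_lit 8) (.sup (nat_lit 0xc0019002c00400034000000000000) (nat_lit 0x50009000e000000000000000000000013000d0007)) (.non (nat_lit 0) (nat_lit 3) (nat_lit 0x150000) (nat_lit 0x10001000100000000000000000000000000000000))) (.non (nat_lit 2) (nat_lit 3) (nat_lit 0x105505)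 (nat_lit 0x10000000000020003000200010000000000010002))) (.non (nat_lit 0) (nat_lit 3) (nat_lit 0x155514) (nat_lit 0x50004000300030006000400020000000200010000))) (.non (nat_lit 0) (nat_lit 3) (nat_lit 0x155514) (nat_lit 0x50004000300020004000600030000000200010000))) (.non (nat_lit 2) (nat_lit 3) (nat_lit 0x155505) (nat_lit 0x30002000100030006000500040000000000020004))) (.non (nat_lit 0) (nat_lit 5) (nat_lit 0x150140) (nat_lit 0x30002000100000000000000030004000000000000))) (.non (nat_lit 0) (nat_lit 3) (nat_lit 0x150010) (nat_lit 0x10001000100000000000000000000000100000000))) (.non (nat_lit 0) (nat_lit 3) (nat_lit 0x150014) (nat_lit 0x10001000100000000000000000000000100010000))) (.non (nat_lit 2) (nat_lit 3) (nat_lit 0x105405) (nat_lit 0x10000000000010002000100000000000000010002))))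

noncomputable def t549_21 : Tr := (.pd (.cons (nat_lit 0) (nat_lit 5) (nat_lit 0) (nat_lit 0x266033110) (nat_lit 0xf423ff423fb71ae00000f423f54591b71aea2c2800000) (.cons (nat_lit 0) (nat_lit 6) (nat_lit 0) (nat_lit 0x270433110) (nat_lit 0xf423ff423f00000f423fb71ae1f156b71aea2c2800000) (.cons (nat_lit 0) (nat_lit 7) (nat_lit 0) (nat_lit 0x205433110) (nat_lit 0xf423f00000f423fb71aea2c2804737b71aea2c2800000) (.cons (nat_lit 2) (nat_lit 5) (nat_lit 0) (nat_lit 0x860033000) (nat_lit 0xf423ff423fb71ae00000f423f5459100000f423f65b97) (.cons (nat_lit 2) (nat_lit 6) (nat_lit 0) (nat_lit 0x870433000) (nat_lit 0xf423ff423f00000f423fb71ae1f15600000f423fb71ae) .nil))))) (.ex (nat_lit 8) t549_19 (.split (nat_lit 9) (nat_lit 0) (.split (nat_lit 9) (nat_lit 1) (.split (nat_lit 9) (nat_lit 2) (.split (nat_lit 9) (nat_lit 3) (.split (nat_lit 9) (nat_lit 4) (.split (nat_lit 9) (nat_lit 5) (.split (nat_lit 9) (nat_lit 6) (.split (nat_lit 9) (nat_lit 7) (.ex (nat_lit 8) t549_20 (.split (nat_lit 0xa) (nat_lit 0) (.split (nat_lit 0xa) (nat_lit 1) (.split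 (nat_lit 0xa) (nat_lit 2) (.split (nat_lit 0xa) (nat_lit 3) (.split (nat_lit 0xa) (nat_lit 4) (.split (nat_lit 0xa) (nat_lit 5) (.split (nat_lit 0xa) (nat_lit 6) (.split (nat_lit 0xa) (nat_lit 7) (.split (nat_lit 0xa) (nat_lit 9) (.sup (nat_lit 0x30007000b0010000d000000000000) (nat_lit 0x20002000400000000000000000000000400030001)) (.non (nat_lit 0) (nat_lit 3) (nat_lit 0x150000) (nat_lit 0x10001000100000000000000000000000000000000))) (.non (nat_lit 0) (nat_lit 3) (nat_lit 0x155514) (nat_lit 0x50003000600040003000200010000000400020000))) (.non (nat_lit 0) (nat_lit 3) (nat_lit 0x155410) (nat_lit 0x20001000200010002000100000000000100000000))) (.non (nat_lit 0) (nat_lit 3) (nat_lit 0x151510) (nat_lit 0x20001000200000001000200010000000100000000))) (.non (nat_lit 0) (nat_lit 3) (nat_lit 0x155514) (nat_lit 0x50003000600010002000300040000000400020000))) (.non (nat_lit 0) (nat_lit 5) (nat_lit 0x150140) (nat_lit 0x30001000200000000000000030004000000000000))) (.non (nat_lit 0) (nat_lit 3) (nat_lit 0x110010) (nat_lit 0x10000000100000000000000000000000100000000)))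 (.non (nat_lit 0) (nat_lit 3) (nat_lit 0x110014) (nat_lit 0x10000000100000000000000000000000100010000))) (.non (nat_lit 2) (nat_lit 3) (nat_lit 0x105405) (nat_lit 0x10000000000010002000100000000000000010002)))) (.non (nat_lit 2) (nat_lit 3) (nat_lit 0x45505) (nat_lit 0x1000000020003000200010000000000010002))) (.non (nat_lit 2) (nat_lit 3) (nat_lit 0x45401) (nat_lit 0x1000000010002000100000000000000000001))) (.non (nat_lit 2) (nat_lit 3) (nat_lit 0x45501) (nat_lit 0x1000000010002000200010000000000000001))) (.non (nat_lit 0) (nat_lit 5) (nat_lit 0x50150) (nat_lit 0x3000200000000000000040003000100000000))) (.non (nat_lit 0) (nat_lit 5) (nat_lit 0x50150) (nat_lit 0x3000200000000000000030004000100000000))) (.non (nat_lit 0) (nat_lit 3) (nat_lit 0x50010) (nat_lit 0x1000100000000000000000000000100000000))) (.non (nat_lit 0) (nat_lit 3) (nat_lit 0x50014) (nat_lit 0x1000100000000000000000000000100010000))) (.non (nat_lit 2) (nat_lit 3) (nat_lit 0x45405) (nat_lit 0x1000000010002000100000000000000010002)))))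

noncomputable def t549_22 : Tr := (.ex (nat_lit 4) (.split (nat_lit 2) (nat_lit 1) (.split (nat_lit 8) (nat_lit 2) (.split (nat_lit 1) (nat_lit 0) (.split (nat_lit 6) (nat_lit 0) (.split (nat_lit 7) (nat_lit 6) t549_21 (.non (nat_lit 2) (nat_lit 3) (nat_lit 0x9401) (nat_lit 0x10002000100000000000000000001))) (.non (nat_lit 2) (nat_lit 3) (nat_lit 0xa801) (nat_lit 0x10002000100000000000000000002))) (.non (nat_lit 2) (nat_lit 3) (nat_lit 0x5409) (nat_lit 0x10002000100000000000000010002))) (.split (nat_lit 8) (nat_lit 2) (.split (nat_lit 7) (nat_lit 6) (.split (nat_lit 6) (nat_lit 0) (.sup (nat_lit 0x30007000b0010000d000000000000) (nat_lit 0x300000000000000000000000400030001)) (.non (nat_lit 2) (nat_lit 3) (nat_lit 0xa801) (nat_lit 0x10002000100000000000000000002))) (.non (nat_lit 2) (nat_lit 3) (nat_lit 0x9401) (nat_lit 0x10002000100000000000000000001))) (.sup (nat_lit 0x7000e00170020001a000000000000) (nat_lit 0x700000000000000000000000800050001)))) (.split (nat_lit 8) (nat_lit 2) (.split (nat_lit 7) (nat_lit 6) (.split (nat_lit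 6) (nat_lit 0) (.sup (nat_lit 0x30007000b0010000d000000000000) (nat_lit 0x200000000000000000000000400030001)) (.non (nat_lit 2) (nat_lit 3) (nat_lit 0xa801) (nat_lit 0x10002000100000000000000000002))) (.non (nat_lit 2) (nat_lit 3) (nat_lit 0x9401) (nat_lit 0x10002000100000000000000000001))) (.non (nat_lit 0) (nat_lit 3) (nat_lit 0x10024) (nat_lit 0x100000000000000000000000100010000)))) (.split (nat_lit 9) (nat_lit 0) (.split (nat_lit 9) (nat_lit 1) (.split (nat_lit 9) (nat_lit 2) (.split (nat_lit 9) (nat_lit 5) (.split (nat_lit 9) (nat_lit 6) (.split (nat_lit 9) (nat_lit 7) (.split (nat_lit 9) (nat_lit 3) (.split (nat_lit 9) (nat_lit 8) (.unj (nat_lit 0x15) (nat_lit 0x100010001) (nat_lit 0x40540) (nat_lit 0x1000000000000000100020002000000000000)) (.unj (nat_lit 0x15) (nat_lit 0x100010001) (nat_lit 0x40540) (nat_lit 0x1000000000000000100020002000000000000))) (.split (nat_lit 9) (nat_lit 8) (.unj (nat_lit 0x15) (nat_lit 0x100010001) (nat_lit 0x40140) (nat_lit 0x1000000000000000000010001000000000000)) (.unj (nat_lit 0x15) (nat_lit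 0x100010001) (nat_lit 0x40140) (nat_lit 0x1000000000000000000010001000000000000)))) (.non (nat_lit 0) (nat_lit 3) (nat_lit 0x45500) (nat_lit 0x1000000010001000100010000000000000000))) (.non (nat_lit 0) (nat_lit 3) (nat_lit 0x41500) (nat_lit 0x1000000000001000100010000000000000000))) (.non (nat_lit 0) (nat_lit 3) (nat_lit 0x40500) (nat_lit 0x1000000000000000100010000000000000000))) (.star (nat_lit 9) (nat_lit 2) (nat_lit 4))) (.non (nat_lit 2) (nat_lit 3) (nat_lit 0x41505) (nat_lit 0x1000000000001000100010000000000010001))) (.star (nat_lit 9) (nat_lit 0) (nat_lit 4))))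

noncomputable def t549_23 : Tr := (.ex (nat_lit 2) (.ex (nat_lit 3) t549_22 (.split (nat_lit 9) (nat_lit 0) (.split (nat_lit 9) (nat_lit 2) (.split (nat_lit 9) (nat_lit 5) (.split (nat_lit 9) (nat_lit 6) (.split (nat_lit 9) (nat_lit 7) (.split (nat_lit 9) (nat_lit 1) (.split (nat_lit 9) (nat_lit 4) (.split (nat_lit 9) (nat_lit 8) (.unj (nat_lit 0x15) (nat_lit 0x100010001) (nat_lit 0x40540) (nat_lit 0x1000000000000000100020002000000000000)) (.unj (nat_lit 0x15) (nat_lit 0x100010001) (nat_lit 0x40540) (nat_lit 0x1000000000000000100020002000000000000))) (.split (nat_lit 9) (nat_lit 8) (.unj (nat_lit 0x15) (nat_lit 0x100010001) (nat_lit 0x40140) (nat_lit 0x1000000000000000000010001000000000000)) (.unj (nat_lit 0x15) (nat_lit 0x100010001) (nat_lit 0x40140) (nat_lit 0x1000000000000000000010001000000000000)))) (.split (nat_lit 9) (nat_lit 4) (.split (nat_lit 9) (nat_lit 8) (.split (nat_lit 9) (nat_lit 1) (.sup (nat_lit 0x500030005) (nat_lit 0x1000000000000000300050005000000000000)) (.non (nat_lit 0) (nat_lit 4) (nat_lit 0x90094) (nat_lit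 0x2000100000000000000000001000200030000))) (.non (nat_lit 0) (nat_lit 3) (nat_lit 0x50014) (nat_lit 0x1000100000000000000000000000100010000))) (.non (nat_lit 2) (nat_lit 3) (nat_lit 0x41505) (nat_lit 0x1000000000001000100010000000000010001)))) (.non (nat_lit 2) (nat_lit 3) (nat_lit 0x45505) (nat_lit 0x1000000020003000200010000000000010002))) (.non (nat_lit 2) (nat_lit 3) (nat_lit 0x45401) (nat_lit 0x1000000010002000100000000000000000001))) (.non (nat_lit 2) (nat_lit 3) (nat_lit 0x45501) (nat_lit 0x1000000010002000200010000000000000001))) (.star (nat_lit 9) (nat_lit 2) (nat_lit 3))) (.star (nat_lit 9) (nat_lit 0) (nat_lit 3)))) (.split (nat_lit 9) (nat_lit 0) (.split (nat_lit 9) (nat_lit 1) (.split (nat_lit 9) (nat_lit 3) (.split (nat_lit 9) (nat_lit 4) (.split (nat_lit 9) (nat_lit 5) (.split (nat_lit 9) (nat_lit 6) (.split (nat_lit 9) (nat_lit 7) (.split (nat_lit 9) (nat_lit 8) (.split (nat_lit 9) (nat_lit 2) (.split (nat_lit 8) (nat_lit 2) (.split (nat_lit 7) (nat_lit 6) (.split (nat_lit 6) (nat_lit 0) (.sup (nat_lit 0x30007000b0010000d000000000000)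 (nat_lit 0x2000200000000000000000000000400030001)) (.non (nat_lit 2) (nat_lit 3) (nat_lit 0xa801) (nat_lit 0x10002000100000000000000000002))) (.non (nat_lit 2) (nat_lit 3) (nat_lit 0x9401) (nat_lit 0x10002000100000000000000000001))) (.non (nat_lit 0) (nat_lit 3) (nat_lit 0x60014) (nat_lit 0x1000100000000000000000000000200010000))) (.non (nat_lit 0) (nat_lit 3) (nat_lit 0x90014) (nat_lit 0x1000100000000000000000000000200010000))) (.non (nat_lit 0) (nat_lit 3) (nat_lit 0x50010) (nat_lit 0x1000100000000000000000000000100000000))) (.non (nat_lit 2) (nat_lit 3) (nat_lit 0x45505) (nat_lit 0x1000000020003000200010000000000010002))) (.non (nat_lit 0) (nat_lit 3) (nat_lit 0x55414) (nat_lit 0x2000100010002000100000000000200010000))) (.non (nat_lit 0) (nat_lit 3) (nat_lit 0x51514) (nat_lit 0x2000100000001000200010000000200010000))) (.star (nat_lit 9) (nat_lit 2) (nat_lit 4))) (.star (nat_lit 9) (nat_lit 2) (nat_lit 3))) (.non (nat_lit 0) (nat_lit 3) (nat_lit 0x40014) (nat_lit 0x1000000000000000000000000000100010000))) (.non (nat_lit 2)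 (nat_lit 3) (nat_lit 0x45405) (nat_lit 0x1000000010002000100000000000000010002))))

noncomputable def t549_24 : Tr := (.ex (nat_lit 3) (.ex (nat_lit 4) (.split (nat_lit 2) (nat_lit 1) (.split (nat_lit 6) (nat_lit 2) (.split (nat_lit 7) (nat_lit 6) (.split (nat_lit 1) (nat_lit 0) (.split (nat_lit 6) (nat_lit 0) (.pd (.cons (nat_lit 0) (nat_lit 5) (nat_lit 0) (nat_lit 0x62033110) (nat_lit 0xf423fb71ae00000f423f54591a2c289896500000) (.cons (nat_lit 0) (nat_lit 6) (nat_lit 0) (nat_lit 0x70433110) (nat_lit 0xf423f00000f423fb71ae1f156f423fb71ae00000) (.cons (nat_lit 1) (nat_lit 6) (nat_lit 0x101) (nat_lit 0x70433002) (nat_lit 0xf423f00000f423fb71ae1f156000010000000001) (.cons (nat_lit 2) (nat_lit 5) (nat_lit 0) (nat_lit 0x60033000) (nat_lit 0xf423fb71ae00000f423f5459100000f423f65b97) (.cons (nat_lit 2) (nat_lit 6) (nat_lit 0) (nat_lit 0x70433000) (nat_lit 0xf423f00000f423fb71ae1f15600000f423fb71ae) .nil))))) (.leaf (.cons (nat_lit 0x1550) (nat_lit 0x2000300040003000100000000) (.cons (nat_lit 0x1011) (nat_lit 0x1000000000000000100000001)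 (.cons (nat_lit 0x1541) (nat_lit 0x2000300040003000000000001) .nil))) .nil)) (.non (nat_lit 2) (nat_lit 3) (nat_lit 0xa801) (nat_lit 0x10002000100000000000000000002))) (.non (nat_lit 2) (nat_lit 3) (nat_lit 0x5409) (nat_lit 0x10002000100000000000000010002))) (.non (nat_lit 0) (nat_lit 3) (nat_lit 0x9410) (nat_lit 0x10002000100000000000100000000))) (.non (nat_lit 0) (nat_lit 3) (nat_lit 0xa810) (nat_lit 0x10002000100000000000200000000))) (.non (nat_lit 0) (nat_lit 3) (nat_lit 0xa824) (nat_lit 0x10002000100000000000200020000))) (.split (nat_lit 8) (nat_lit 0) (.split (nat_lit 8) (nat_lit 1) (.split (nat_lit 8) (nat_lit 2) (.split (nat_lit 8) (nat_lit 5) (.split (nat_lit 8) (nat_lit 6) (.split (nat_lit 8) (nat_lit 7) (.split (nat_lit 8) (nat_lit 3) (.unj (nat_lit 0x15) (nat_lit 0x100010001) (nat_lit 0x10540) (nat_lit 0x100000000000100020002000000000000)) (.unj (nat_lit 0x15) (nat_lit 0x100010001) (nat_lit 0x10140) (nat_lit 0x100000000000000010001000000000000))) (.non (nat_lit 0) (nat_lit 3) (nat_lit 0x15500) (nat_lit 0x100010001000100010000000000000000)))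 (.non (nat_lit 0) (nat_lit 3) (nat_lit 0x11500) (nat_lit 0x100000001000100010000000000000000))) (.non (nat_lit 0) (nat_lit 3) (nat_lit 0x10500) (nat_lit 0x100000000000100010000000000000000))) (.star (nat_lit 8) (nat_lit 2) (nat_lit 4))) (.non (nat_lit 0) (nat_lit 3) (nat_lit 0x11514) (nat_lit 0x100000001000100010000000100010000))) (.star (nat_lit 8) (nat_lit 0) (nat_lit 4)))) (.split (nat_lit 8) (nat_lit 0) (.split (nat_lit 8) (nat_lit 2) (.split (nat_lit 8) (nat_lit 5) (.split (nat_lit 8) (nat_lit 6) (.split (nat_lit 8) (nat_lit 7) (.split (nat_lit 8) (nat_lit 1) (.split (nat_lit 8) (nat_lit 4) (.unj (nat_lit 0x15) (nat_lit 0x100010001) (nat_lit 0x10540) (nat_lit 0x100000000000100020002000000000000)) (.unj (nat_lit 0x15) (nat_lit 0x100010001) (nat_lit 0x10140) (nat_lit 0x100000000000000010001000000000000))) (.split (nat_lit 8) (nat_lit 4) (.sup (nat_lit 0x3000000000000000500000005) (nat_lit 0x300000000000100050005000000000000)) (.non (nat_lit 0) (nat_lit 3) (nat_lit 0x11514) (nat_lit 0x100000001000100010000000100010000))))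 (.non (nat_lit 0) (nat_lit 3) (nat_lit 0x15514) (nat_lit 0x100020003000200010000000200010000))) (.non (nat_lit 0) (nat_lit 3) (nat_lit 0x15410) (nat_lit 0x100010002000100000000000100000000))) (.non (nat_lit 0) (nat_lit 3) (nat_lit 0x15510) (nat_lit 0x100010002000200010000000100000000))) (.star (nat_lit 8) (nat_lit 2) (nat_lit 3))) (.star (nat_lit 8) (nat_lit 0) (nat_lit 3))))

noncomputable def t549_25 : Tr := (.split (nat_lit 6) (nat_lit 0) (.split (nat_lit 6) (nat_lit 1) (.split (nat_lit 6) (nat_lit 2) (.split (nat_lit 5) (nat_lit 1) .uj (.st (nat_lit 4) (nat_lit 0) (nat_lit 3) (nat_lit 0x5514) (nat_lit 0x10002000300020000000100020000) (nat_lit 1) (nat_lit 1) (.st (nat_lit 5) (nat_lit 0) (nat_lit 3) (nat_lit 0x1504) (nat_lit 0x1000200010000000000010000) (nat_lit 1) (nat_lit 1) (.st (nat_lit 6) (nat_lit 0) (nat_lit 3) (nat_lit 0x5504) (nat_lit 0x10002000200010000000000010000) (nat_lit 1) (nat_lit 1) (.ex (nat_lit 0) t549_3 t549_6))))) (.split (nat_lit 5) (nat_lit 1) (.st (nat_lit 2) (nat_lit 0) (nat_lit 3) (nat_lit 0x5414)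 (nat_lit 0x10002000100000000000200010000) (nat_lit 1) (nat_lit 1) (.st (nat_lit 5) (nat_lit 0) (nat_lit 3) (nat_lit 0x5510) (nat_lit 0x10002000200010000000100000000) (nat_lit 1) (nat_lit 1) (.st (nat_lit 6) (nat_lit 0) (nat_lit 3) (nat_lit 0x5410) (nat_lit 0x10002000100000000000100000000) (nat_lit 1) (nat_lit 1) (.st (nat_lit 7) (nat_lit 0) (nat_lit 3) (nat_lit 0x5514) (nat_lit 0x20003000200010000000200010000) (nat_lit 1) (nat_lit 1) t549_13)))) (.non (nat_lit 0) (nat_lit 3) (nat_lit 0x1414) (nat_lit 0x1000100000000000100010000)))) (.split (nat_lit 6) (nat_lit 2) (.split (nat_lit 5) (nat_lit 1) (.st (nat_lit 5) (nat_lit 0) (nat_lit 3) (nat_lit 0x5504) (nat_lit 0x10002000200010000000000010000) (nat_lit 1) (nat_lit 1) (.st (nat_lit 6) (nat_lit 0) (nat_lit 3) (nat_lit 0x5404) (nat_lit 0x10002000100000000000000010000) (nat_lit 1) (nat_lit 1) (.st (nat_lit 1) (nat_lit 0) (nat_lit 3) (nat_lit 0x5414) (nat_lit 0x10002000100000000000100020000) (nat_lit 1) (nat_lit 1) (.st (nat_lit 7) (nat_lit 0) (nat_lit 3) (nat_lit 0x5514) (nat_lit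 0x20003000200010000000100020000) (nat_lit 1) (nat_lit 1) t549_15)))) (.non (nat_lit 0) (nat_lit 3) (nat_lit 0x1404) (nat_lit 0x1000100000000000000010000))) (.non (nat_lit 0) (nat_lit 3) (nat_lit 0x1014) (nat_lit 0x1000000000000000100010000)))) (.split (nat_lit 6) (nat_lit 1) (.split (nat_lit 5) (nat_lit 1) (.split (nat_lit 6) (nat_lit 2) (.st (nat_lit 0) (nat_lit 2) (nat_lit 3) (nat_lit 0x5405) (nat_lit 0x10002000100000000000000010002) (nat_lit 1) (nat_lit 1) (.st (nat_lit 5) (nat_lit 2) (nat_lit 3) (nat_lit 0x5501) (nat_lit 0x10002000200010000000000000001) (nat_lit 1) (nat_lit 1) (.st (nat_lit 6) (nat_lit 2) (nat_lit 3) (nat_lit 0x5401) (nat_lit 0x10002000100000000000000000001) (nat_lit 1) (nat_lit 1) (.st (nat_lit 7) (nat_lit 2) (nat_lit 3) (nat_lit 0x5505) (nat_lit 0x20003000200010000000000010002) (nat_lit 1) (nat_lit 1) (.ex (nat_lit 2) t549_18 (.split (nat_lit 8) (nat_lit 0) (.split (nat_lit 8) (nat_lit 1) (.split (nat_lit 8) (nat_lit 3) (.split (nat_lit 8) (nat_lit 4) (.split (nat_lit 8) (nat_lit 5) (.split (nat_lit 8)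 (nat_lit 6) (.split (nat_lit 8) (nat_lit 7) t549_23 (.non (nat_lit 2) (nat_lit 3) (nat_lit 0x15505) (nat_lit 0x100020003000200010000000000010002))) (.non (nat_lit 2) (nat_lit 3) (nat_lit 0x15401) (nat_lit 0x100010002000100000000000000000001))) (.non (nat_lit 2) (nat_lit 3) (nat_lit 0x15501) (nat_lit 0x100010002000200010000000000000001))) (.star (nat_lit 8) (nat_lit 2) (nat_lit 4))) (.star (nat_lit 8) (nat_lit 2) (nat_lit 3))) (.non (nat_lit 0) (nat_lit 3) (nat_lit 0x10014) (nat_lit 0x100000000000000000000000100010000))) (.non (nat_lit 2) (nat_lit 3) (nat_lit 0x15405) (nat_lit 0x100010002000100000000000000010002)))))))) (.st (nat_lit 0) (nat_lit 2) (nat_lit 3) (nat_lit 0x5405) (nat_lit 0x10002000100000000000000010002) (nat_lit 1) (nat_lit 1) (.st (nat_lit 2) (nat_lit 0) (nat_lit 3) (nat_lit 0x5414) (nat_lit 0x10002000100000000000200010000) (nat_lit 1) (nat_lit 1) (.st (nat_lit 5) (nat_lit 0) (nat_lit 3) (nat_lit 0x5510) (nat_lit 0x10002000200010000000100000000) (nat_lit 1) (nat_lit 1) t549_24)))) (.non (nat_lit 2) (nat_lit 3)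 (nat_lit 0x1405) (nat_lit 0x1000100000000000000010001))) (.non (nat_lit 2) (nat_lit 3) (nat_lit 0x1005) (nat_lit 0x1000000000000000000010001))))

noncomputable def t549_26 : Tr := (.split (nat_lit 2) (nat_lit 0) (.split (nat_lit 1) (nat_lit 0) (.split (nat_lit 6) (nat_lit 0) (.pd (.cons (nat_lit 0) (nat_lit 5) (nat_lit 0) (nat_lit 0x27033110) (nat_lit 0xb71aef423f00000f423f54591a2c289896500000) (.cons (nat_lit 0) (nat_lit 6) (nat_lit 0) (nat_lit 0x20433110) (nat_lit 0xf423f00000f423fb71ae1f156b71aea2c2800000) (.cons (nat_lit 0) (nat_lit 7) (nat_lit 0) (nat_lit 0x5433110) (nat_lit 0xf423fb71aea2c2804737f423fb71ae00000) (.cons (nat_lit 1) (nat_lit 6) (nat_lit 0) (nat_lit 0x20433000) (nat_lit 0xf423f00000f423fb71ae1f156b71ae0000051612) (.cons (nat_lit 2) (nat_lit 5) (nat_lit 0) (nat_lit 0x60033000) (nat_lit 0xf423fb71ae00000f423f5459100000f423f65b97) (.cons (nat_lit 2) (nat_lit 6) (nat_lit 0) (nat_lit 0x70433000) (nat_lit 0xf423f00000f423fb71ae1f15600000f423fb71ae) .nil)))))) (.leaf (.cons (nat_lit 0x5011) (nat_lit 0x10001000000000000000100000001)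 (.cons (nat_lit 0x1541) (nat_lit 0x2000300040003000000000001) .nil)) .nil)) (.non (nat_lit 2) (nat_lit 3) (nat_lit 0xa801) (nat_lit 0x10002000100000000000000000002))) (.non (nat_lit 2) (nat_lit 3) (nat_lit 0x5409) (nat_lit 0x10002000100000000000000010002))) (.split (nat_lit 2) (nat_lit 0) (.split (nat_lit 1) (nat_lit 0) (.split (nat_lit 6) (nat_lit 0) (.pd (.cons (nat_lit 0) (nat_lit 5) (nat_lit 0) (nat_lit 0x27033110) (nat_lit 0xb71aef423f00000f423f54591a2c289896500000) (.cons (nat_lit 0) (nat_lit 6) (nat_lit 0) (nat_lit 0x20433110) (nat_lit 0xf423f00000f423fb71ae1f156b71aea2c2800000) (.cons (nat_lit 0) (nat_lit 7) (nat_lit 0) (nat_lit 0x5433110) (nat_lit 0xf423fb71aea2c2804737f423fb71ae00000) (.cons (nat_lit 1) (nat_lit 6) (nat_lit 0) (nat_lit 0x20433000) (nat_lit 0xf423f00000f423fb71ae1f156b71ae000001f156) (.cons (nat_lit 2) (nat_lit 5) (nat_lit 0) (nat_lit 0x60033000) (nat_lit 0xf423fb71ae00000f423f5459100000f423f65b97) (.cons (nat_lit 2) (nat_lit 6) (nat_lit 0) (nat_lit 0x70433000) (nat_lit 0xf423f00000f423fb71ae1f15600000f423fb71ae)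 .nil)))))) (.leaf (.cons (nat_lit 0x5011) (nat_lit 0x10001000000000000000100000001) (.cons (nat_lit 0x1541) (nat_lit 0x2000300040003000000000001) .nil)) .nil)) (.non (nat_lit 2) (nat_lit 3) (nat_lit 0xa801) (nat_lit 0x10002000100000000000000000002))) (.non (nat_lit 2) (nat_lit 3) (nat_lit 0x5409) (nat_lit 0x10002000100000000000000010002))) (.split (nat_lit 1) (nat_lit 0) (.split (nat_lit 6) (nat_lit 0) (.pd (.cons (nat_lit 0) (nat_lit 5) (nat_lit 0) (nat_lit 0x27033110) (nat_lit 0xb71aef423f00000f423f54591a2c289896500000) (.cons (nat_lit 0) (nat_lit 6) (nat_lit 0) (nat_lit 0x20433110) (nat_lit 0xf423f00000f423fb71ae1f156b71aea2c2800000) (.cons (nat_lit 0) (nat_lit 7) (nat_lit 0) (nat_lit 0x5433110) (nat_lit 0xf423fb71aea2c2804737f423fb71ae00000) (.cons (nat_lit 2) (nat_lit 5) (nat_lit 0) (nat_lit 0x60033000) (nat_lit 0xf423fb71ae00000f423f5459100000f423f65b97) (.cons (nat_lit 2) (nat_lit 6) (nat_lit 0) (nat_lit 0x70433000) (nat_lit 0xf423f00000f423fb71ae1f15600000f423fb71ae) .nil))))) (.leaf (.cons (nat_lit 0xc031) (nat_lit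 0x10000000000000000000200000003) (.cons (nat_lit 0x1541) (nat_lit 0x2000300040003000000000001) .nil)) .nil)) (.non (nat_lit 2) (nat_lit 3) (nat_lit 0xa801) (nat_lit 0x10002000100000000000000000002))) (.non (nat_lit 2) (nat_lit 3) (nat_lit 0x5409) (nat_lit 0x10002000100000000000000010002)))))

noncomputable def t549_27 : Tr := (.split (nat_lit 2) (nat_lit 0) (.split (nat_lit 1) (nat_lit 0) (.split (nat_lit 6) (nat_lit 0) (.pd (.cons (nat_lit 0) (nat_lit 5) (nat_lit 0) (nat_lit 0x27033110) (nat_lit 0xb71aef423f00000f423f54591a2c283d08b00000) (.cons (nat_lit 0) (nat_lit 6) (nat_lit 0) (nat_lit 0x20433110) (nat_lit 0xf423f00000f423fb71ae1f156b71ae5161200000) (.cons (nat_lit 0) (nat_lit 7) (nat_lit 0) (nat_lit 0x5433110) (nat_lit 0xf423fb71aea2c2804737f423f7a11e00000) (.cons (nat_lit 1) (nat_lit 6) (nat_lit 0) (nat_lit 0x20433000) (nat_lit 0xf423f00000f423fb71ae1f156b71ae0000051612) (.cons (nat_lit 2) (nat_lit 5) (nat_lit 0) (nat_lit 0x60033000) (nat_lit 0xf423fb71ae00000f423f5459100000f423f65b97) (.cons (nat_lit 2) (nat_lit 6) (nat_lit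 0) (nat_lit 0x70433000) (nat_lit 0xf423f00000f423fb71ae1f15600000f423fb71ae) .nil)))))) (.leaf (.cons (nat_lit 0x5011) (nat_lit 0x10001000000000000000100000001) (.cons (nat_lit 0x1541) (nat_lit 0x2000300040003000000000001) .nil)) .nil)) (.non (nat_lit 2) (nat_lit 3) (nat_lit 0xa801) (nat_lit 0x10002000100000000000000000002))) (.non (nat_lit 2) (nat_lit 3) (nat_lit 0x5409) (nat_lit 0x10002000100000000000000010002))) (.split (nat_lit 2) (nat_lit 0) (.split (nat_lit 1) (nat_lit 0) (.split (nat_lit 6) (nat_lit 0) (.pd (.cons (nat_lit 0) (nat_lit 5) (nat_lit 0) (nat_lit 0x27033110) (nat_lit 0xb71aef423f00000f423f54591a2c283d08b00000) (.cons (nat_lit 0) (nat_lit 6) (nat_lit 0) (nat_lit 0x20433110) (nat_lit 0xf423f00000f423fb71ae1f156b71ae5161200000) (.cons (nat_lit 0) (nat_lit 7) (nat_lit 0) (nat_lit 0x5433110) (nat_lit 0xf423fb71aea2c2804737f423f7a11e00000) (.cons (nat_lit 1) (nat_lit 6) (nat_lit 0) (nat_lit 0x20433000) (nat_lit 0xf423f00000f423fb71ae1f156b71ae000001f156) (.cons (nat_lit 2) (nat_lit 5) (nat_lit 0) (nat_lit 0x60033000)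 (nat_lit 0xf423fb71ae00000f423f5459100000f423f65b97) (.cons (nat_lit 2) (nat_lit 6) (nat_lit 0) (nat_lit 0x70433000) (nat_lit 0xf423f00000f423fb71ae1f15600000f423fb71ae) .nil)))))) (.leaf (.cons (nat_lit 0x5011) (nat_lit 0x10001000000000000000100000001) (.cons (nat_lit 0x1541) (nat_lit 0x2000300040003000000000001) .nil)) .nil)) (.non (nat_lit 2) (nat_lit 3) (nat_lit 0xa801) (nat_lit 0x10002000100000000000000000002))) (.non (nat_lit 2) (nat_lit 3) (nat_lit 0x5409) (nat_lit 0x10002000100000000000000010002))) (.split (nat_lit 1) (nat_lit 0) (.split (nat_lit 6) (nat_lit 0) (.pd (.cons (nat_lit 0) (nat_lit 5) (nat_lit 0) (nat_lit 0x27033110) (nat_lit 0xb71aef423f00000f423f54591a2c283d08b00000) (.cons (nat_lit 0) (nat_lit 6) (nat_lit 0) (nat_lit 0x20433110) (nat_lit 0xf423f00000f423fb71ae1f156b71ae5161200000) (.cons (nat_lit 0) (nat_lit 7) (nat_lit 0) (nat_lit 0x5433110) (nat_lit 0xf423fb71aea2c2804737f423f7a11e00000) (.cons (nat_lit 2) (nat_lit 5) (nat_lit 0) (nat_lit 0x60033000) (nat_lit 0xf423fb71ae00000f423f5459100000f423f65b97)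 (.cons (nat_lit 2) (nat_lit 6) (nat_lit 0) (nat_lit 0x70433000) (nat_lit 0xf423f00000f423fb71ae1f15600000f423fb71ae) .nil))))) (.leaf (.cons (nat_lit 0xc031) (nat_lit 0x10000000000000000000200000003) (.cons (nat_lit 0x1541) (nat_lit 0x2000300040003000000000001) .nil)) .nil)) (.non (nat_lit 2) (nat_lit 3) (nat_lit 0xa801) (nat_lit 0x10002000100000000000000000002))) (.non (nat_lit 2) (nat_lit 3) (nat_lit 0x5409) (nat_lit 0x10002000100000000000000010002)))))

noncomputable def t549_28 : Tr := (.ex (nat_lit 3) (.ex (nat_lit 4) (.split (nat_lit 2) (nat_lit 1) (.split (nat_lit 7) (nat_lit 2) (.split (nat_lit 7) (nat_lit 6) t549_26 (.non (nat_lit 0) (nat_lit 3) (nat_lit 0x6a10) (nat_lit 0x40003000200010000000200000000))) (.non (nat_lit 0) (nat_lit 3) (nat_lit 0xa814) (nat_lit 0x30002000100000000000400020000))) (.split (nat_lit 2) (nat_lit 1) (.split (nat_lit 7) (nat_lit 2) (.split (nat_lit 7) (nat_lit 6) t549_27 (.non (nat_lit 0) (nat_lit 3) (nat_lit 0x6a10) (nat_lit 0x40003000200010000000200000000))) (.non (nat_lit 0) (nat_lit 3)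 (nat_lit 0x4024) (nat_lit 0x10000000000000000000100010000))) (.non (nat_lit 0) (nat_lit 3) (nat_lit 0x5414) (nat_lit 0x30002000100000000000400030000)))) (.split (nat_lit 8) (nat_lit 0) (.split (nat_lit 8) (nat_lit 1) (.split (nat_lit 8) (nat_lit 2) (.split (nat_lit 8) (nat_lit 5) (.split (nat_lit 8) (nat_lit 6) (.split (nat_lit 8) (nat_lit 7) (.split (nat_lit 8) (nat_lit 3) (.unj (nat_lit 0x15) (nat_lit 0x100010001) (nat_lit 0x10540) (nat_lit 0x100000000000100020002000000000000)) (.unj (nat_lit 0x15) (nat_lit 0x100010001) (nat_lit 0x10140) (nat_lit 0x100000000000000010001000000000000))) (.non (nat_lit 0) (nat_lit 3) (nat_lit 0x15500) (nat_lit 0x100010001000100010000000000000000))) (.non (nat_lit 0) (nat_lit 3) (nat_lit 0x11500) (nat_lit 0x100000001000100010000000000000000))) (.non (nat_lit 0) (nat_lit 3) (nat_lit 0x10500) (nat_lit 0x100000000000100010000000000000000))) (.star (nat_lit 8) (nat_lit 2) (nat_lit 4))) (.non (nat_lit 0) (nat_lit 3) (nat_lit 0x15514) (nat_lit 0x100010001000100010000000100010000))) (.star (nat_lit 8)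 (nat_lit 0) (nat_lit 4)))) (.split (nat_lit 8) (nat_lit 0) (.split (nat_lit 8) (nat_lit 2) (.split (nat_lit 8) (nat_lit 5) (.split (nat_lit 8) (nat_lit 6) (.split (nat_lit 8) (nat_lit 7) (.split (nat_lit 8) (nat_lit 1) (.split (nat_lit 8) (nat_lit 4) (.unj (nat_lit 0x15) (nat_lit 0x100010001) (nat_lit 0x10540) (nat_lit 0x100000000000100020002000000000000)) (.unj (nat_lit 0x15) (nat_lit 0x100010001) (nat_lit 0x10140) (nat_lit 0x100000000000000010001000000000000))) (.split (nat_lit 8) (nat_lit 4) (.sup (nat_lit 0x40002000000000000000500000005) (nat_lit 0x300000000000100050005000000000000)) (.non (nat_lit 0) (nat_lit 3) (nat_lit 0x15514) (nat_lit 0x100010001000100010000000100010000)))) (.non (nat_lit 0) (nat_lit 4) (nat_lit 0x15454) (nat_lit 0x200030002000100000001000200010000))) (.non (nat_lit 2) (nat_lit 3) (nat_lit 0x15401) (nat_lit 0x100010002000100000000000000000001))) (.non (nat_lit 2) (nat_lit 3) (nat_lit 0x15501) (nat_lit 0x100010002000200010000000000000001))) (.star (nat_lit 8) (nat_lit 2) (nat_lit 3))) (.star (nat_lit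 8) (nat_lit 0) (nat_lit 3))))

noncomputable def t549_29 : Tr := (.ex (nat_lit 4) (.split (nat_lit 2) (nat_lit 1) (.split (nat_lit 7) (nat_lit 2) (.split (nat_lit 8) (nat_lit 2) (.split (nat_lit 7) (nat_lit 6) (.split (nat_lit 1) (nat_lit 0) (.split (nat_lit 6) (nat_lit 0) (.pd (.cons (nat_lit 0) (nat_lit 5) (nat_lit 0) (nat_lit 0x227033110) (nat_lit 0xf423fb71aef423f00000f423f5459165b9761a7900000) (.cons (nat_lit 0) (nat_lit 6) (nat_lit 0) (nat_lit 0x220433110) (nat_lit 0xf423ff423f00000f423fb71ae1f1567a11d7a11b00000) (.cons (nat_lit 0) (nat_lit 7) (nat_lit 0) (nat_lit 0x205433110) (nat_lit 0xf423f00000f423fb71aea2c2804737b71aea2c2800000) (.cons (nat_lit 2) (nat_lit 5) (nat_lit 0) (nat_lit 0x860033000) (nat_lit 0xf423ff423fb71ae00000f423f5459100000f423f65b97) (.cons (nat_lit 2) (nat_lit 6) (nat_lit 0) (nat_lit 0x870433000) (nat_lit 0xf423ff423f00000f423fb71ae1f15600000f423fb71ae) .nil))))) (.leaf (.cons (nat_lit 0x28021) (nat_lit 0x100010000000000000000000200000002) (.cons (nat_lit 0x1541) (nat_lit 0x2000300040003000000000001)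 .nil)) .nil)) (.non (nat_lit 2) (nat_lit 3) (nat_lit 0xa801) (nat_lit 0x10002000100000000000000000002))) (.non (nat_lit 2) (nat_lit 3) (nat_lit 0x5409) (nat_lit 0x10002000100000000000000010002))) (.non (nat_lit 0) (nat_lit 3) (nat_lit 0x16810) (nat_lit 0x100030002000100000000000200000000))) (.non (nat_lit 0) (nat_lit 3) (nat_lit 0x24014) (nat_lit 0x100010000000000000000000200010000))) (.non (nat_lit 0) (nat_lit 3) (nat_lit 0x1a810) (nat_lit 0x200030002000100000000000400000000))) (.non (nat_lit 0) (nat_lit 3) (nat_lit 0x28024) (nat_lit 0x100010000000000000000000200020000))) (.split (nat_lit 9) (nat_lit 0) (.split (nat_lit 9) (nat_lit 1) (.split (nat_lit 9) (nat_lit 2) (.split (nat_lit 9) (nat_lit 5) (.split (nat_lit 9) (nat_lit 6) (.split (nat_lit 9) (nat_lit 7) (.split (nat_lit 9) (nat_lit 8) (.split (nat_lit 9) (nat_lit 3) (.unj (nat_lit 0x15) (nat_lit 0x100010001) (nat_lit 0x40540) (nat_lit 0x1000000000000000100020002000000000000)) (.unj (nat_lit 0x15) (nat_lit 0x100010001) (nat_lit 0x40140) (nat_lit 0x1000000000000000000010001000000000000)))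 (.non (nat_lit 0) (nat_lit 3) (nat_lit 0x55510) (nat_lit 0x1000100010001000100010000000100000000))) (.non (nat_lit 0) (nat_lit 3) (nat_lit 0x45500) (nat_lit 0x1000000010001000100010000000000000000))) (.non (nat_lit 0) (nat_lit 3) (nat_lit 0x41500) (nat_lit 0x1000000000001000100010000000000000000))) (.non (nat_lit 0) (nat_lit 3) (nat_lit 0x40500) (nat_lit 0x1000000000000000100010000000000000000))) (.star (nat_lit 9) (nat_lit 2) (nat_lit 4))) (.non (nat_lit 0) (nat_lit 3) (nat_lit 0x45514) (nat_lit 0x1000000010001000100010000000100010000))) (.star (nat_lit 9) (nat_lit 0) (nat_lit 4))))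

noncomputable def t549_30 : Tr := (.split (nat_lit 6) (nat_lit 0) (.split (nat_lit 7) (nat_lit 2) (.sup (nat_lit 0x80009000a) (nat_lit 0x100040007000a0008000000000000)) (.non (nat_lit 0) (nat_lit 3) (nat_lit 0xa814) (nat_lit 0x30002000100000000000400020000))) (.st (nat_lit 0) (nat_lit 2) (nat_lit 3) (nat_lit 0x5405) (nat_lit 0x10002000100000000000000010002) (nat_lit 1) (nat_lit 1) (.st (nat_lit 5) (nat_lit 2) (nat_lit 3) (nat_lit 0x5501) (nat_lit 0x10002000200010000000000000001) (nat_lit 1) (nat_lit 1) (.st (nat_lit 6) (nat_lit 2) (nat_lit 3) (nat_lit 0x5401) (nat_lit 0x10002000100000000000000000001) (nat_lit 1) (nat_lit 1) (.st (nat_lit 7) (nat_lit 2) (nat_lit 3) (nat_lit 0x5505) (nat_lit 0x20003000200010000000000010002) (nat_lit 1) (nat_lit 1) (.ex (nat_lit 2) t549_28 (.split (nat_lit 8) (nat_lit 0) (.split (nat_lit 8) (nat_lit 1) (.split (nat_lit 8) (nat_lit 3) (.split (nat_lit 8) (nat_lit 4) (.split (nat_lit 8) (nat_lit 5) (.split (nat_lit 8) (nat_lit 6) (.split (nat_lit 8) (nat_lit 7) (.ex (nat_lit 3) t549_29 (.split (nat_lit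 9) (nat_lit 0) (.split (nat_lit 9) (nat_lit 1) (.split (nat_lit 9) (nat_lit 2) (.split (nat_lit 9) (nat_lit 5) (.split (nat_lit 9) (nat_lit 6) (.split (nat_lit 9) (nat_lit 7) (.split (nat_lit 9) (nat_lit 8) (.split (nat_lit 9) (nat_lit 4) (.unj (nat_lit 0x15) (nat_lit 0x100010001) (nat_lit 0x40540) (nat_lit 0x1000000000000000100020002000000000000)) (.unj (nat_lit 0x15) (nat_lit 0x100010001) (nat_lit 0x40140) (nat_lit 0x1000000000000000000010001000000000000))) (.non (nat_lit 0) (nat_lit 4) (nat_lit 0x55454) (nat_lit 0x2000300030002000100000001000400020000))) (.non (nat_lit 0) (nat_lit 3) (nat_lit 0x55014) (nat_lit 0x1000100020001000000000000000200010000))) (.non (nat_lit 0) (nat_lit 3) (nat_lit 0x55414) (nat_lit 0x1000100020002000100000000000200010000))) (.non (nat_lit 0) (nat_lit 3) (nat_lit 0x55514) (nat_lit 0x1000100020002000200010000000200010000))) (.star (nat_lit 9) (nat_lit 2) (nat_lit 3))) (.non (nat_lit 0) (nat_lit 4) (nat_lit 0x55454) (nat_lit 0x2000200030002000100000001000400030000))) (.star (nat_lit 9) (nat_lit 0)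 (nat_lit 3)))) (.non (nat_lit 0) (nat_lit 3) (nat_lit 0x14010) (nat_lit 0x100010000000000000000000100000000))) (.non (nat_lit 0) (nat_lit 3) (nat_lit 0x15010) (nat_lit 0x100010001000000000000000100000000))) (.non (nat_lit 0) (nat_lit 3) (nat_lit 0x15410) (nat_lit 0x100010001000100000000000100000000))) (.star (nat_lit 8) (nat_lit 2) (nat_lit 4))) (.star (nat_lit 8) (nat_lit 2) (nat_lit 3))) (.non (nat_lit 0) (nat_lit 3) (nat_lit 0x10014) (nat_lit 0x100000000000000000000000100010000))) (.non (nat_lit 2) (nat_lit 3) (nat_lit 0x15405) (nat_lit 0x100010002000100000000000000010002)))))))))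

noncomputable def t549_31 : Tr := (.split (nat_lit 2) (nat_lit 0) (.split (nat_lit 7) (nat_lit 0) (.split (nat_lit 1) (nat_lit 0) (.pd (.cons (nat_lit 0) (nat_lit 5) (nat_lit 0) (nat_lit 0x62033110) (nat_lit 0xf423fb71ae00000f423f54591a2c289896500000) (.cons (nat_lit 0) (nat_lit 6) (nat_lit 0) (nat_lit 0x70433110) (nat_lit 0xf423f00000f423fb71ae1f156f423fb71ae00000) (.cons (nat_lit 1) (nat_lit 6) (nat_lit 0) (nat_lit 0x433000) (nat_lit 0xf423f00000f423fb71ae1f156f423f0000017500) (.cons (nat_lit 2) (nat_lit 5) (nat_lit 0) (nat_lit 0x7033000) (nat_lit 0xb71aef423f00000f423f5459100000f423f65b97) (.cons (nat_lit 2) (nat_lit 6) (nat_lit 0) (nat_lit 0x433000) (nat_lit 0xf423f00000f423fb71ae1f15600000f423f7a11d) (.cons (nat_lit 2) (nat_lit 7) (nat_lit 0) (nat_lit 0x5433000) (nat_lit 0xf423fb71aea2c280473700000f423fb71ae) .nil)))))) (.leaf (.cons (nat_lit 0x1550) (nat_lit 0x2000300040003000100000000) (.cons (nat_lit 0x5011) (nat_lit 0x10001000000000000000100000001) .nil)) .nil)) (.split (nat_lit 1) (nat_lit 0) (.pd (.cons (nat_lit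 0) (nat_lit 5) (nat_lit 0) (nat_lit 0x62033110) (nat_lit 0xf423fb71ae00000f423f54591a2c289896500000) (.cons (nat_lit 0) (nat_lit 6) (nat_lit 0) (nat_lit 0x70433110) (nat_lit 0xf423f00000f423fb71ae1f156f423fb71ae00000) (.cons (nat_lit 1) (nat_lit 6) (nat_lit 0) (nat_lit 0x433000) (nat_lit 0xf423f00000f423fb71ae1f156f423f0000017500) (.cons (nat_lit 2) (nat_lit 5) (nat_lit 0) (nat_lit 0x7033000) (nat_lit 0xb71aef423f00000f423f5459100000f423f28b07) (.cons (nat_lit 2) (nat_lit 6) (nat_lit 0) (nat_lit 0x433000) (nat_lit 0xf423f00000f423fb71ae1f15600000f423f3d08d) (.cons (nat_lit 2) (nat_lit 7) (nat_lit 0) (nat_lit 0x5433000) (nat_lit 0xf423fb71aea2c280473700000f423f7a11e) .nil)))))) (.leaf (.cons (nat_lit 0x1550) (nat_lit 0x2000300040003000100000000) (.cons (nat_lit 0x5011) (nat_lit 0x10001000000000000000100000001) .nil)) .nil)) (.non (nat_lit 2) (nat_lit 3) (nat_lit 0x5405) (nat_lit 0x30002000100000000000000030004)))) (.non (nat_lit 2) (nat_lit 3) (nat_lit 0xa805) (nat_lit 0x30002000100000000000000020004))) (.split (nat_lit 1) (nat_lit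 0) (.split (nat_lit 7) (nat_lit 0) (.pd (.cons (nat_lit 0) (nat_lit 5) (nat_lit 0) (nat_lit 0x62033110) (nat_lit 0xf423fb71ae00000f423f54591a2c289896500000) (.cons (nat_lit 0) (nat_lit 6) (nat_lit 0) (nat_lit 0x70433110) (nat_lit 0xf423f00000f423fb71ae1f156f423fb71ae00000) (.cons (nat_lit 2) (nat_lit 5) (nat_lit 0) (nat_lit 0x7033000) (nat_lit 0xb71aef423f00000f423f5459100000f423f65b97) (.cons (nat_lit 2) (nat_lit 6) (nat_lit 0) (nat_lit 0x433000) (nat_lit 0xf423f00000f423fb71ae1f15600000f423f7a11d) (.cons (nat_lit 2) (nat_lit 7) (nat_lit 0) (nat_lit 0x5433000) (nat_lit 0xf423fb71aea2c280473700000f423fb71ae) .nil))))) (.leaf (.cons (nat_lit 0x1550) (nat_lit 0x2000300040003000100000000) (.cons (nat_lit 0x4031) (nat_lit 0x10000000000000000000100000002) .nil)) .nil)) (.non (nat_lit 2) (nat_lit 3) (nat_lit 0xa805) (nat_lit 0x30002000100000000000000020004))) (.split (nat_lit 1) (nat_lit 0) (.split (nat_lit 7) (nat_lit 0) (.pd (.cons (nat_lit 0) (nat_lit 5) (nat_lit 0) (nat_lit 0x62033110) (nat_lit 0xf423fb71ae00000f423f54591a2c289896500000)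 (.cons (nat_lit 0) (nat_lit 6) (nat_lit 0) (nat_lit 0x70433110) (nat_lit 0xf423f00000f423fb71ae1f156f423fb71ae00000) (.cons (nat_lit 2) (nat_lit 5) (nat_lit 0) (nat_lit 0x7033000) (nat_lit 0xb71aef423f00000f423f5459100000f423f28b07) (.cons (nat_lit 2) (nat_lit 6) (nat_lit 0) (nat_lit 0x433000) (nat_lit 0xf423f00000f423fb71ae1f15600000f423f3d08d) (.cons (nat_lit 2) (nat_lit 7) (nat_lit 0) (nat_lit 0x5433000) (nat_lit 0xf423fb71aea2c280473700000f423f7a11e) .nil))))) (.leaf (.cons (nat_lit 0x1550) (nat_lit 0x2000300040003000100000000) (.cons (nat_lit 0x4031) (nat_lit 0x10000000000000000000100000002) .nil)) .nil)) (.non (nat_lit 2) (nat_lit 3) (nat_lit 0x8009) (nat_lit 0x10000000000000000000000010002))) (.non (nat_lit 2) (nat_lit 3) (nat_lit 0x5405) (nat_lit 0x30002000100000000000000030004)))))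

noncomputable def t549_32 : Tr := (.ex (nat_lit 4) (.split (nat_lit 2) (nat_lit 1) (.split (nat_lit 6) (nat_lit 2) (.split (nat_lit 7) (nat_lit 6) (.split (nat_lit 2) (nat_lit 0) (.split (nat_lit 7) (nat_lit 0) (.split (nat_lit 1) (nat_lit 0) (.pd (.cons (nat_lit 0) (nat_lit 5) (nat_lit 0) (nat_lit 0x62033110) (nat_lit 0xf423fb71ae00000f423f54591a2c289896500000) (.cons (nat_lit 0) (nat_lit 6) (nat_lit 0) (nat_lit 0x70433110) (nat_lit 0xf423f00000f423fb71ae1f156f423fb71ae00000) (.cons (nat_lit 1) (nat_lit 6) (nat_lit 0) (nat_lit 0x433000) (nat_lit 0xf423f00000f423fb71ae1f156f423f000003d08d) (.cons (nat_lit 2) (nat_lit 5) (nat_lit 0) (nat_lit 0x7033000) (nat_lit 0xb71aef423f00000f423f5459100000f423f65b97) (.cons (nat_lit 2) (nat_lit 6) (nat_lit 0) (nat_lit 0x433000) (nat_lit 0xf423f00000f423fb71ae1f15600000f423f7a11d) (.cons (nat_lit 2) (nat_lit 7) (nat_lit 0) (nat_lit 0x5433000) (nat_lit 0xf423fb71aea2c280473700000f423fb71ae) .nil)))))) (.leaf (.cons (nat_lit 0x1550) (nat_lit 0x2000300040003000100000000) (.cons (nat_lit 0x5011)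 (nat_lit 0x10001000000000000000100000001) .nil)) .nil)) (.split (nat_lit 1) (nat_lit 0) (.pd (.cons (nat_lit 0) (nat_lit 5) (nat_lit 0) (nat_lit 0x62033110) (nat_lit 0xf423fb71ae00000f423f54591a2c289896500000) (.cons (nat_lit 0) (nat_lit 6) (nat_lit 0) (nat_lit 0x70433110) (nat_lit 0xf423f00000f423fb71ae1f156f423fb71ae00000) (.cons (nat_lit 1) (nat_lit 6) (nat_lit 0) (nat_lit 0x433000) (nat_lit 0xf423f00000f423fb71ae1f156f423f000003d08d) (.cons (nat_lit 2) (nat_lit 5) (nat_lit 0) (nat_lit 0x7033000) (nat_lit 0xb71aef423f00000f423f5459100000f423f28b07) (.cons (nat_lit 2) (nat_lit 6) (nat_lit 0) (nat_lit 0x433000) (nat_lit 0xf423f00000f423fb71ae1f15600000f423f3d08d) (.cons (nat_lit 2) (nat_lit 7) (nat_lit 0) (nat_lit 0x5433000) (nat_lit 0xf423fb71aea2c280473700000f423f7a11e) .nil)))))) (.leaf (.cons (nat_lit 0x1550) (nat_lit 0x2000300040003000100000000) (.cons (nat_lit 0x5011) (nat_lit 0x10001000000000000000100000001) .nil)) .nil)) (.non (nat_lit 2) (nat_lit 3) (nat_lit 0x5405) (nat_lit 0x30002000100000000000000030004)))) (.non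 (nat_lit 2) (nat_lit 3) (nat_lit 0xa805) (nat_lit 0x30002000100000000000000020004))) t549_31) (.non (nat_lit 0) (nat_lit 3) (nat_lit 0x9410) (nat_lit 0x10002000100000000000100000000))) (.non (nat_lit 0) (nat_lit 3) (nat_lit 0xa810) (nat_lit 0x10002000100000000000200000000))) (.non (nat_lit 0) (nat_lit 3) (nat_lit 0xa824) (nat_lit 0x10002000100000000000200020000))) (.split (nat_lit 8) (nat_lit 0) (.split (nat_lit 8) (nat_lit 1) (.split (nat_lit 8) (nat_lit 2) (.split (nat_lit 8) (nat_lit 5) (.split (nat_lit 8) (nat_lit 6) (.split (nat_lit 8) (nat_lit 7) (.split (nat_lit 8) (nat_lit 3) (.unj (nat_lit 0x15) (nat_lit 0x100010001) (nat_lit 0x10540) (nat_lit 0x100000000000100020002000000000000)) (.unj (nat_lit 0x15) (nat_lit 0x100010001) (nat_lit 0x10140) (nat_lit 0x100000000000000010001000000000000))) (.non (nat_lit 0) (nat_lit 3) (nat_lit 0x15500) (nat_lit 0x100010001000100010000000000000000))) (.non (nat_lit 0) (nat_lit 3) (nat_lit 0x11500) (nat_lit 0x100000001000100010000000000000000))) (.non (nat_lit 0) (nat_lit 3) (nat_lit 0x10500)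 (nat_lit 0x100000000000100010000000000000000))) (.star (nat_lit 8) (nat_lit 2) (nat_lit 4))) (.non (nat_lit 0) (nat_lit 3) (nat_lit 0x11514) (nat_lit 0x100000001000100010000000100010000))) (.star (nat_lit 8) (nat_lit 0) (nat_lit 4))))

noncomputable def t549_33 : Tr := (.ex (nat_lit 4) (.split (nat_lit 2) (nat_lit 1) (.split (nat_lit 6) (nat_lit 2) (.split (nat_lit 7) (nat_lit 6) (.split (nat_lit 1) (nat_lit 0) (.split (nat_lit 7) (nat_lit 0) (.split (nat_lit 8) (nat_lit 0) (.pd (.cons (nat_lit 0) (nat_lit 5) (nat_lit 0) (nat_lit 0x862033110) (nat_lit 0xf423ff423fb71ae00000f423f54591a2c289896500000) (.cons (nat_lit 0) (nat_lit 6) (nat_lit 0) (nat_lit 0x870433110) (nat_lit 0xf423ff423f00000f423fb71ae1f156f423fb71ae00000) (.cons (nat_lit 2) (nat_lit 5) (nat_lit 0) (nat_lit 0x7033000) (nat_lit 0xf423fb71aef423f00000f423f5459100000f423f28b06) (.cons (nat_lit 2) (nat_lit 6) (nat_lit 0) (nat_lit 0x433000) (nat_lit 0xf423ff423f00000f423fb71ae1f15600000f423f3d08c) (.cons (nat_lit 2) (nat_lit 7) (nat_lit 0) (nat_lit 0x5433000) (nat_lit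 0xf423f00000f423fb71aea2c280473700000f423f7a11d) .nil))))) (.leaf (.cons (nat_lit 0x1550) (nat_lit 0x2000300040003000100000000) (.cons (nat_lit 0x14021) (nat_lit 0x100010000000000000000000100000002) .nil)) .nil)) (.non (nat_lit 2) (nat_lit 3) (nat_lit 0x24005) (nat_lit 0x100010000000000000000000000010002))) (.non (nat_lit 2) (nat_lit 3) (nat_lit 0x1a801) (nat_lit 0x200030002000100000000000000000004))) (.non (nat_lit 2) (nat_lit 3) (nat_lit 0x14009) (nat_lit 0x100010000000000000000000000010002))) (.non (nat_lit 0) (nat_lit 3) (nat_lit 0x9410) (nat_lit 0x10002000100000000000100000000))) (.non (nat_lit 0) (nat_lit 3) (nat_lit 0xa810) (nat_lit 0x10002000100000000000200000000))) (.non (nat_lit 0) (nat_lit 3) (nat_lit 0xa824) (nat_lit 0x10002000100000000000200020000))) (.split (nat_lit 9) (nat_lit 0) (.split (nat_lit 9) (nat_lit 1) (.split (nat_lit 9) (nat_lit 2) (.split (nat_lit 9) (nat_lit 5) (.split (nat_lit 9) (nat_lit 6) (.split (nat_lit 9) (nat_lit 7) (.split (nat_lit 9) (nat_lit 8) (.split (nat_lit 9) (nat_lit 3) (.unj (nat_lit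 0x15) (nat_lit 0x100010001) (nat_lit 0x40540) (nat_lit 0x1000000000000000100020002000000000000)) (.unj (nat_lit 0x15) (nat_lit 0x100010001) (nat_lit 0x40140) (nat_lit 0x1000000000000000000010001000000000000))) (.non (nat_lit 2) (nat_lit 3) (nat_lit 0x55501) (nat_lit 0x1000100010001000100010000000000000001))) (.non (nat_lit 0) (nat_lit 3) (nat_lit 0x45500) (nat_lit 0x1000000010001000100010000000000000000))) (.non (nat_lit 0) (nat_lit 3) (nat_lit 0x41500) (nat_lit 0x1000000000001000100010000000000000000))) (.non (nat_lit 0) (nat_lit 3) (nat_lit 0x40500) (nat_lit 0x1000000000000000100010000000000000000))) (.star (nat_lit 9) (nat_lit 2) (nat_lit 4))) (.non (nat_lit 0) (nat_lit 3) (nat_lit 0x41514) (nat_lit 0x1000000000001000100010000000100010000))) (.star (nat_lit 9) (nat_lit 0) (nat_lit 4))))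

noncomputable def t549_34 : Tr := (.ex (nat_lit 0) (.ex (nat_lit 3) t549_32 (.split (nat_lit 8) (nat_lit 0) (.split (nat_lit 8) (nat_lit 2) (.split (nat_lit 8) (nat_lit 5) (.split (nat_lit 8) (nat_lit 6) (.split (nat_lit 8) (nat_lit 7) (.split (nat_lit 8) (nat_lit 1) (.split (nat_lit 8) (nat_lit 4) (.unj (nat_lit 0x15) (nat_lit 0x100010001) (nat_lit 0x10540) (nat_lit 0x100000000000100020002000000000000)) (.unj (nat_lit 0x15) (nat_lit 0x100010001) (nat_lit 0x10140) (nat_lit 0x100000000000000010001000000000000))) (.split (nat_lit 8) (nat_lit 4) (.sup (nat_lit 0x40002000000000000000500000005) (nat_lit 0x300000000000100050005000000000000)) (.non (nat_lit 0) (nat_lit 3) (nat_lit 0x11514) (nat_lit 0x100000001000100010000000100010000)))) (.non (nat_lit 0) (nat_lit 3) (nat_lit 0x15514) (nat_lit 0x100020003000200010000000200010000))) (.non (nat_lit 0) (nat_lit 3) (nat_lit 0x15410) (nat_lit 0x100010002000100000000000100000000))) (.non (nat_lit 0) (nat_lit 3) (nat_lit 0x15510) (nat_lit 0x100010002000200010000000100000000))) (.star (nat_lit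 8) (nat_lit 2) (nat_lit 3))) (.star (nat_lit 8) (nat_lit 0) (nat_lit 3)))) (.split (nat_lit 8) (nat_lit 1) (.split (nat_lit 8) (nat_lit 2) (.split (nat_lit 8) (nat_lit 3) (.split (nat_lit 8) (nat_lit 4) (.split (nat_lit 8) (nat_lit 5) (.split (nat_lit 8) (nat_lit 6) (.split (nat_lit 8) (nat_lit 7) (.ex (nat_lit 3) t549_33 (.split (nat_lit 9) (nat_lit 0) (.split (nat_lit 9) (nat_lit 1) (.split (nat_lit 9) (nat_lit 2) (.split (nat_lit 9) (nat_lit 5) (.split (nat_lit 9) (nat_lit 6) (.split (nat_lit 9) (nat_lit 7) (.split (nat_lit 9) (nat_lit 8) (.split (nat_lit 9) (nat_lit 4) (.unj (nat_lit 0x15) (nat_lit 0x100010001) (nat_lit 0x40540) (nat_lit 0x1000000000000000100020002000000000000)) (.unj (nat_lit 0x15) (nat_lit 0x100010001) (nat_lit 0x40140) (nat_lit 0x1000000000000000000010001000000000000))) (.non (nat_lit 2) (nat_lit 4) (nat_lit 0x55445) (nat_lit 0x2000300030002000100000001000000020004))) (.non (nat_lit 0) (nat_lit 3) (nat_lit 0x45514) (nat_lit 0x1000000020003000200010000000200010000))) (.non (nat_lit 0) (nat_lit 3) (nat_lit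 0x45410) (nat_lit 0x1000000010002000100000000000100000000))) (.non (nat_lit 0) (nat_lit 3) (nat_lit 0x45510) (nat_lit 0x1000000010002000200010000000100000000))) (.star (nat_lit 9) (nat_lit 2) (nat_lit 3))) (.non (nat_lit 2) (nat_lit 4) (nat_lit 0x55445) (nat_lit 0x2000200030002000100000001000000030004))) (.star (nat_lit 9) (nat_lit 0) (nat_lit 3)))) (.non (nat_lit 0) (nat_lit 3) (nat_lit 0x15514) (nat_lit 0x100020003000200010000000200010000))) (.non (nat_lit 0) (nat_lit 3) (nat_lit 0x15410) (nat_lit 0x100010002000100000000000100000000))) (.non (nat_lit 0) (nat_lit 3) (nat_lit 0x15510) (nat_lit 0x100010002000200010000000100000000))) (.star (nat_lit 8) (nat_lit 0) (nat_lit 4))) (.star (nat_lit 8) (nat_lit 0) (nat_lit 3))) (.non (nat_lit 0) (nat_lit 3) (nat_lit 0x15414) (nat_lit 0x100010002000100000000000200010000))) (.non (nat_lit 2) (nat_lit 3) (nat_lit 0x10005) (nat_lit 0x100000000000000000000000000010001))))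

noncomputable def t549_35 : Tr := (.ex (nat_lit 5) (.pd (.cons (nat_lit 0) (nat_lit 6) (nat_lit 0) (nat_lit 0x20433110) (nat_lit 0xf423f00000f423fb71ae1f156b71aea2c2800000) (.cons (nat_lit 2) (nat_lit 6) (nat_lit 0) (nat_lit 0x433000) (nat_lit 0xf423f00000f423fb71ae1f15600000f423f7a11d) .nil)) (.ex (nat_lit 6) (.pd (.cons (nat_lit 0) (nat_lit 7) (nat_lit 0) (nat_lit 0x5433110) (nat_lit 0xf423fb71aea2c2804737f423fb71ae00000) (.cons (nat_lit 1) (nat_lit 7) (nat_lit 0x101) (nat_lit 0x5433002) (nat_lit 0xf423fb71aea2c2804737000010000000001) (.cons (nat_lit 2) (nat_lit 7) (nat_lit 0) (nat_lit 0x5433000) (nat_lit 0xf423fb71aea2c280473700000f423fb71ae) .nil))) (.leaf (.cons (nat_lit 0x4011) (nat_lit 0x10000000000000000000100000001) .nil) .nil)) (.split (nat_lit 8) (nat_lit 0) (.split (nat_lit 8) (nat_lit 1) (.split (nat_lit 8) (nat_lit 2) (.split (nat_lit 8) (nat_lit 3) (.split (nat_lit 8) (nat_lit 4) (.split (nat_lit 8) (nat_lit 5) (.split (nat_lit 8) (nat_lit 7) (.unj (nat_lit 0x15) (nat_lit 0x100010001) (nat_lit 0x11540) (nat_lit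 0x100000002000300040003000000000000)) (.non (nat_lit 0) (nat_lit 3) (nat_lit 0x15000) (nat_lit 0x100010001000000000000000000000000))) (.non (nat_lit 0) (nat_lit 3) (nat_lit 0x11400) (nat_lit 0x100000001000100000000000000000000))) (.non (nat_lit 0) (nat_lit 3) (nat_lit 0x11500) (nat_lit 0x100000001000100010000000000000000))) (.non (nat_lit 0) (nat_lit 5) (nat_lit 0x15140) (nat_lit 0x300010002000000030004000000000000))) (.non (nat_lit 0) (nat_lit 3) (nat_lit 0x15010) (nat_lit 0x100010001000000000000000100000000))) (.non (nat_lit 0) (nat_lit 3) (nat_lit 0x15014) (nat_lit 0x100010001000000000000000100010000))) (.non (nat_lit 2) (nat_lit 3) (nat_lit 0x15001) (nat_lit 0x100010001000000000000000000000001))))) (.split (nat_lit 8) (nat_lit 0) (.split (nat_lit 8) (nat_lit 1) (.split (nat_lit 8) (nat_lit 2) (.split (nat_lit 8) (nat_lit 4) (.split (nat_lit 8) (nat_lit 6) (.split (nat_lit 8) (nat_lit 7) (.split (nat_lit 8) (nat_lit 3) (.unj (nat_lit 0x15) (nat_lit 0x100010001) (nat_lit 0x11540) (nat_lit 0x100000001000200020002000000000000))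 (.unj (nat_lit 0x15) (nat_lit 0x100010001) (nat_lit 0x10540) (nat_lit 0x100000000000100010001000000000000))) (.non (nat_lit 0) (nat_lit 3) (nat_lit 0x15400) (nat_lit 0x100010001000100000000000000000000))) (.non (nat_lit 0) (nat_lit 3) (nat_lit 0x11400) (nat_lit 0x100000001000100000000000000000000))) (.non (nat_lit 0) (nat_lit 3) (nat_lit 0x10500) (nat_lit 0x100000000000100010000000000000000))) (.non (nat_lit 0) (nat_lit 3) (nat_lit 0x15410) (nat_lit 0x100010001000100000000000100000000))) (.non (nat_lit 0) (nat_lit 3) (nat_lit 0x15414) (nat_lit 0x100010001000100000000000100010000))) (.non (nat_lit 2) (nat_lit 3) (nat_lit 0x15401) (nat_lit 0x100010001000100000000000000000001))))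

noncomputable def t549_36 : Tr := (.ex (nat_lit 3) (.ex (nat_lit 4) (.split (nat_lit 2) (nat_lit 1) (.split (nat_lit 7) (nat_lit 2) (.split (nat_lit 7) (nat_lit 6) (.split (nat_lit 1) (nat_lit 0) (.split (nat_lit 7) (nat_lit 0) (.pd (.cons (nat_lit 0) (nat_lit 5) (nat_lit 0) (nat_lit 0x27033110) (nat_lit 0xb71aef423f00000f423f54591a2c289896500000) (.cons (nat_lit 2) (nat_lit 5) (nat_lit 0) (nat_lit 0x7033000) (nat_lit 0xb71aef423f00000f423f5459100000f423f65b97) .nil)) t549_35) (.non (nat_lit 2) (nat_lit 3) (nat_lit 0xa805) (nat_lit 0x30002000100000000000000020004))) (.split (nat_lit 7) (nat_lit 0) (.sup (nat_lit 0x8000a0009) (nat_lit 0x100040007000a0008000000000000)) (.non (nat_lit 2) (nat_lit 3) (nat_lit 0x8009) (nat_lit 0x10000000000000000000000010002)))) (.non (nat_lit 0) (nat_lit 3) (nat_lit 0x6a10) (nat_lit 0x40003000200010000000200000000))) (.non (nat_lit 0) (nat_lit 3) (nat_lit 0xa814) (nat_lit 0x30002000100000000000400020000))) (.split (nat_lit 7) (nat_lit 0) (.split (nat_lit 7) (nat_lit 2) (.sup (nat_lit 0x9000a0008)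 (nat_lit 0x100040007000a0008000000000000)) (.non (nat_lit 0) (nat_lit 3) (nat_lit 0x4024) (nat_lit 0x10000000000000000000100010000))) (.non (nat_lit 2) (nat_lit 3) (nat_lit 0xa805) (nat_lit 0x30002000100000000000000020004)))) (.split (nat_lit 8) (nat_lit 0) (.split (nat_lit 8) (nat_lit 1) (.split (nat_lit 8) (nat_lit 2) (.split (nat_lit 8) (nat_lit 5) (.split (nat_lit 8) (nat_lit 6) (.split (nat_lit 8) (nat_lit 7) (.split (nat_lit 8) (nat_lit 3) (.unj (nat_lit 0x15) (nat_lit 0x100010001) (nat_lit 0x10540) (nat_lit 0x100000000000100020002000000000000)) (.unj (nat_lit 0x15) (nat_lit 0x100010001) (nat_lit 0x10140) (nat_lit 0x100000000000000010001000000000000))) (.non (nat_lit 0) (nat_lit 3) (nat_lit 0x15500) (nat_lit 0x100010001000100010000000000000000))) (.non (nat_lit 0) (nat_lit 3) (nat_lit 0x11500) (nat_lit 0x100000001000100010000000000000000))) (.non (nat_lit 0) (nat_lit 3) (nat_lit 0x10500) (nat_lit 0x100000000000100010000000000000000))) (.star (nat_lit 8) (nat_lit 2) (nat_lit 4))) (.non (nat_lit 0) (nat_lit 3) (nat_lit 0x15514)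 (nat_lit 0x100010001000100010000000100010000))) (.star (nat_lit 8) (nat_lit 0) (nat_lit 4)))) (.split (nat_lit 8) (nat_lit 0) (.split (nat_lit 8) (nat_lit 2) (.split (nat_lit 8) (nat_lit 7) (.split (nat_lit 8) (nat_lit 1) (.split (nat_lit 8) (nat_lit 4) (.split (nat_lit 8) (nat_lit 5) (.split (nat_lit 8) (nat_lit 6) (.unj (nat_lit 0x15) (nat_lit 0x100010001) (nat_lit 0x10540) (nat_lit 0x100000000000100020002000000000000)) (.unj (nat_lit 0x15) (nat_lit 0x100010001) (nat_lit 0x10540) (nat_lit 0x100000000000100020002000000000000))) (.split (nat_lit 8) (nat_lit 6) (.unj (nat_lit 0x15) (nat_lit 0x100010001) (nat_lit 0x10540) (nat_lit 0x100000000000100010001000000000000)) (.non (nat_lit 0) (nat_lit 3) (nat_lit 0x11400) (nat_lit 0x100000001000100000000000000000000)))) (.split (nat_lit 8) (nat_lit 5) (.split (nat_lit 8) (nat_lit 6) (.unj (nat_lit 0x15) (nat_lit 0x100010001) (nat_lit 0x10140) (nat_lit 0x100000000000000010001000000000000)) (.non (nat_lit 0) (nat_lit 3) (nat_lit 0x11500) (nat_lit 0x100000001000100010000000000000000)))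 (.non (nat_lit 0) (nat_lit 3) (nat_lit 0x10500) (nat_lit 0x100000000000100010000000000000000)))) (.split (nat_lit 8) (nat_lit 4) (.split (nat_lit 8) (nat_lit 5) (.split (nat_lit 8) (nat_lit 6) (.unj (nat_lit 0x4011) (nat_lit 0x10000000000000000000100000001) (nat_lit 0x10540) (nat_lit 0x100000000000100020002000000000000)) (.non (nat_lit 0) (nat_lit 3) (nat_lit 0x15014) (nat_lit 0x100010001000000000000000100010000))) (.non (nat_lit 0) (nat_lit 3) (nat_lit 0x15414) (nat_lit 0x100010001000100000000000100010000))) (.non (nat_lit 0) (nat_lit 3) (nat_lit 0x15514) (nat_lit 0x100010001000100010000000100010000)))) (.non (nat_lit 0) (nat_lit 4) (nat_lit 0x15454) (nat_lit 0x200030002000100000001000200010000))) (.star (nat_lit 8) (nat_lit 2) (nat_lit 3))) (.star (nat_lit 8) (nat_lit 0) (nat_lit 3))))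

noncomputable def t549_37 : Tr := (.ex (nat_lit 0) (.ex (nat_lit 2) t549_36 (.split (nat_lit 8) (nat_lit 1) (.split (nat_lit 8) (nat_lit 3) (.split (nat_lit 8) (nat_lit 4) (.split (nat_lit 8) (nat_lit 5) (.split (nat_lit 8) (nat_lit 6) (.split (nat_lit 8) (nat_lit 7) (.split (nat_lit 8) (nat_lit 0) (.split (nat_lit 8) (nat_lit 2) (.split (nat_lit 7) (nat_lit 0) (.split (nat_lit 7) (nat_lit 2) (.sup (nat_lit 0x10006000b0010000d000000000000) (nat_lit 0x100000000000000000000000200020002)) (.non (nat_lit 0) (nat_lit 3) (nat_lit 0x1a810) (nat_lit 0x200030002000100000000000400000000))) (.non (nat_lit 2) (nat_lit 3) (nat_lit 0xa805) (nat_lit 0x30002000100000000000000020004))) (.non (nat_lit 0) (nat_lit 3) (nat_lit 0x24014) (nat_lit 0x100010000000000000000000200010000))) (.split (nat_lit 8) (nat_lit 0) (.split (nat_lit 8) (nat_lit 2) (.split (nat_lit 7) (nat_lit 0) (.split (nat_lit 7) (nat_lit 2) (.sup (nat_lit 0x20007000b0010000d000000000000) (nat_lit 0x100000000000000000000000100010001)) (.non (nat_lit 0) (nat_lit 3) (nat_lit 0x1a810)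 (nat_lit 0x200030002000100000000000400000000))) (.non (nat_lit 2) (nat_lit 3) (nat_lit 0x1a801) (nat_lit 0x200030002000100000000000000000004))) (.non (nat_lit 0) (nat_lit 3) (nat_lit 0x24014) (nat_lit 0x100010000000000000000000200010000))) (.non (nat_lit 2) (nat_lit 3) (nat_lit 0x24005) (nat_lit 0x100010000000000000000000000010002)))) (.non (nat_lit 0) (nat_lit 3) (nat_lit 0x14010) (nat_lit 0x100010000000000000000000100000000))) (.non (nat_lit 0) (nat_lit 3) (nat_lit 0x15010) (nat_lit 0x100010001000000000000000100000000))) (.non (nat_lit 0) (nat_lit 3) (nat_lit 0x15410) (nat_lit 0x100010001000100000000000100000000))) (.star (nat_lit 8) (nat_lit 2) (nat_lit 4))) (.star (nat_lit 8) (nat_lit 2) (nat_lit 3))) (.non (nat_lit 0) (nat_lit 3) (nat_lit 0x10014) (nat_lit 0x100000000000000000000000100010000)))) (.split (nat_lit 8) (nat_lit 1) (.split (nat_lit 8) (nat_lit 3) (.split (nat_lit 8) (nat_lit 4) (.split (nat_lit 8) (nat_lit 5) (.split (nat_lit 8) (nat_lit 6) (.split (nat_lit 8) (nat_lit 7) (.split (nat_lit 8) (nat_lit 2) (.split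 (nat_lit 8) (nat_lit 0) (.split (nat_lit 7) (nat_lit 0) (.split (nat_lit 7) (nat_lit 2) (.sup (nat_lit 0x10006000b0010000d000000000000) (nat_lit 0x100000000000000000000000200020002)) (.non (nat_lit 0) (nat_lit 3) (nat_lit 0xa814) (nat_lit 0x30002000100000000000400020000))) (.non (nat_lit 2) (nat_lit 3) (nat_lit 0x1a801) (nat_lit 0x200030002000100000000000000000004))) (.non (nat_lit 2) (nat_lit 3) (nat_lit 0x24005) (nat_lit 0x100010000000000000000000000010002))) (.split (nat_lit 8) (nat_lit 0) (.split (nat_lit 8) (nat_lit 2) (.split (nat_lit 7) (nat_lit 0) (.split (nat_lit 7) (nat_lit 2) (.sup (nat_lit 0x20007000b0010000d000000000000) (nat_lit 0x100000000000000000000000100010001)) (.non (nat_lit 0) (nat_lit 3) (nat_lit 0x1a810) (nat_lit 0x200030002000100000000000400000000))) (.non (nat_lit 2) (nat_lit 3) (nat_lit 0x1a801) (nat_lit 0x200030002000100000000000000000004))) (.non (nat_lit 0) (nat_lit 3) (nat_lit 0x24014) (nat_lit 0x100010000000000000000000200010000))) (.non (nat_lit 2) (nat_lit 3) (nat_lit 0x24005) (nat_lit 0x100010000000000000000000000010002))))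 (.non (nat_lit 2) (nat_lit 3) (nat_lit 0x14001) (nat_lit 0x100010000000000000000000000000001))) (.non (nat_lit 2) (nat_lit 3) (nat_lit 0x15001) (nat_lit 0x100010001000000000000000000000001))) (.non (nat_lit 2) (nat_lit 3) (nat_lit 0x15401) (nat_lit 0x100010001000100000000000000000001))) (.star (nat_lit 8) (nat_lit 0) (nat_lit 4))) (.star (nat_lit 8) (nat_lit 0) (nat_lit 3))) (.non (nat_lit 2) (nat_lit 3) (nat_lit 0x10005) (nat_lit 0x100000000000000000000000000010001))))

noncomputable def t549 : Tr := (.split (nat_lit 7) (nat_lit 0) (.split (nat_lit 7) (nat_lit 1) (.split (nat_lit 7) (nat_lit 2) t549_25 (.split (nat_lit 6) (nat_lit 1) (.split (nat_lit 6) (nat_lit 2) (.split (nat_lit 5) (nat_lit 1) t549_30 (.non (nat_lit 0) (nat_lit 3) (nat_lit 0x5414) (nat_lit 0x10001000100000000000100010000))) (.non (nat_lit 0) (nat_lit 3) (nat_lit 0x5010) (nat_lit 0x10001000000000000000100000000))) (.non (nat_lit 0) (nat_lit 3) (nat_lit 0x5014) (nat_lit 0x10001000000000000000100010000)))) (.split (nat_lit 7) (nat_lit 2) (.split (nat_lit 6)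 (nat_lit 0) (.split (nat_lit 6) (nat_lit 1) (.split (nat_lit 6) (nat_lit 2) (.split (nat_lit 5) (nat_lit 1) (.sup (nat_lit 0xa0006000a) (nat_lit 0x100040007000a0008000000000000)) (.non (nat_lit 0) (nat_lit 3) (nat_lit 0x5404) (nat_lit 0x10001000100000000000000010000))) (.non (nat_lit 0) (nat_lit 3) (nat_lit 0x5014) (nat_lit 0x10001000000000000000100010000))) (.non (nat_lit 0) (nat_lit 3) (nat_lit 0x5004) (nat_lit 0x10001000000000000000000010000))) (.non (nat_lit 2) (nat_lit 3) (nat_lit 0x5005) (nat_lit 0x10001000000000000000000010001))) (.non (nat_lit 0) (nat_lit 3) (nat_lit 0x4014) (nat_lit 0x10000000000000000000100010000)))) (.split (nat_lit 7) (nat_lit 1) (.split (nat_lit 6) (nat_lit 0) (.split (nat_lit 6) (nat_lit 1) (.split (nat_lit 5) (nat_lit 1) (.split (nat_lit 7) (nat_lit 2) (.split (nat_lit 6) (nat_lit 2) (.split (nat_lit 7) (nat_lit 0) (.sup (nat_lit 0xa00090008) (nat_lit 0x100040007000a0008000000000000)) (.non (nat_lit 2) (nat_lit 3) (nat_lit 0xa805) (nat_lit 0x30002000100000000000000020004))) (.st (nat_lit 2) (nat_lit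 0) (nat_lit 3) (nat_lit 0x5414) (nat_lit 0x10002000100000000000200010000) (nat_lit 1) (nat_lit 1) (.st (nat_lit 5) (nat_lit 0) (nat_lit 3) (nat_lit 0x5510) (nat_lit 0x10002000200010000000100000000) (nat_lit 1) (nat_lit 1) (.st (nat_lit 6) (nat_lit 0) (nat_lit 3) (nat_lit 0x5410) (nat_lit 0x10002000100000000000100000000) (nat_lit 1) (nat_lit 1) (.st (nat_lit 7) (nat_lit 0) (nat_lit 3) (nat_lit 0x5514) (nat_lit 0x20003000200010000000200010000) (nat_lit 1) (nat_lit 1) t549_34))))) (.split (nat_lit 6) (nat_lit 2) t549_37 (.non (nat_lit 0) (nat_lit 3) (nat_lit 0x5010) (nat_lit 0x10001000000000000000100000000)))) (.non (nat_lit 2) (nat_lit 3) (nat_lit 0x5405) (nat_lit 0x10001000100000000000000010001))) (.non (nat_lit 2) (nat_lit 3) (nat_lit 0x5005) (nat_lit 0x10001000000000000000000010001))) (.non (nat_lit 2) (nat_lit 3) (nat_lit 0x5001) (nat_lit 0x10001000000000000000000000001))) (.non (nat_lit 2) (nat_lit 3) (nat_lit 0x4005) (nat_lit 0x10000000000000000000000010001))))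

noncomputable def t550_1 : Tr := (.ex (nat_lit 7) (.split (nat_lit 8) (nat_lit 7) (.pd (.cons (nat_lit 0) (nat_lit 4) (nat_lit 0x110) (nat_lit 0x765503120) (nat_lit 0xf423fb71aea2c289896500000f423f000010000100000) (.cons (nat_lit 1) (nat_lit 4) (nat_lit 0x101) (nat_lit 0x765503002) (nat_lit 0xf423fb71aea2c289896500000f423f000010000000001) (.cons (nat_lit 2) (nat_lit 4) (nat_lit 0x11) (nat_lit 0x765503001) (nat_lit 0xf423fb71aea2c289896500000f423f000000000100001) .nil))) (.leaf (.cons (nat_lit 0x544) (nat_lit 0x100020002000000010000) .nil) .nil)) (.split (nat_lit 8) (nat_lit 7) (.pd (.cons (nat_lit 0) (nat_lit 4) (nat_lit 0x110) (nat_lit 0x765503120) (nat_lit 0xf423f7a11e7a11c7a11a00000f423f000010000100000) (.cons (nat_lit 1) (nat_lit 4) (nat_lit 0x101) (nat_lit 0x765503002) (nat_lit 0xf423f7a11e7a11c7a11a00000f423f000010000000001) (.cons (nat_lit 2) (nat_lit 4) (nat_lit 0x11) (nat_lit 0x765503001) (nat_lit 0xf423f7a11e7a11c7a11a00000f423f000000000100001) .nil))) (.leaf (.cons (nat_lit 0x544) (nat_lit 0x100020002000000010000)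 .nil) .nil)) (.non (nat_lit 0) (nat_lit 3) (nat_lit 0x15500) (nat_lit 0x300040003000200010000000000000000)))) (.split (nat_lit 9) (nat_lit 0) (.split (nat_lit 9) (nat_lit 1) (.split (nat_lit 9) (nat_lit 2) (.split (nat_lit 9) (nat_lit 3) (.split (nat_lit 9) (nat_lit 4) (.split (nat_lit 9) (nat_lit 5) (.split (nat_lit 9) (nat_lit 6) (.split (nat_lit 9) (nat_lit 8) (.st (nat_lit 7) (nat_lit 0) (nat_lit 3) (nat_lit 0x55000) (nat_lit 0x1000100020001000000000000000000000000) (nat_lit 1) (nat_lit 1) (.split (nat_lit 8) (nat_lit 7) (.split (nat_lit 9) (nat_lit 7) (.pd (.cons (nat_lit 0) (nat_lit 4) (nat_lit 0x110) (nat_lit 0x7765503120) (nat_lit 0xf423ff423f7a11d7a11b7a11900000f423f000010000100000) (.cons (nat_lit 1) (nat_lit 4) (nat_lit 0x101) (nat_lit 0x7765503002) (nat_lit 0xf423ff423f7a11d7a11b7a11900000f423f000010000000001) (.cons (nat_lit 2) (nat_lit 4) (nat_lit 0x11) (nat_lit 0x7765503001) (nat_lit 0xf423ff423f7a11d7a11b7a11900000f423f000000000100001) .nil))) (.leaf (.cons (nat_lit 0x544) (nat_lit 0x100020002000000010000) .nil)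 .nil)) (.non (nat_lit 0) (nat_lit 3) (nat_lit 0x95000) (nat_lit 0x1000100020001000000000000000000000000))) (.non (nat_lit 0) (nat_lit 3) (nat_lit 0x65000) (nat_lit 0x1000100020001000000000000000000000000)))) (.non (nat_lit 0) (nat_lit 3) (nat_lit 0x54000) (nat_lit 0x1000100010000000000000000000000000000))) (.non (nat_lit 0) (nat_lit 3) (nat_lit 0x45000) (nat_lit 0x1000000010001000000000000000000000000))) (.non (nat_lit 0) (nat_lit 3) (nat_lit 0x45400) (nat_lit 0x1000000010001000100000000000000000000))) (.non (nat_lit 0) (nat_lit 3) (nat_lit 0x45500) (nat_lit 0x1000000010001000100010000000000000000))) (.non (nat_lit 0) (nat_lit 5) (nat_lit 0x54140) (nat_lit 0x3000100020000000000030004000000000000))) (.non (nat_lit 0) (nat_lit 3) (nat_lit 0x45514) (nat_lit 0x1000000010001000100010000000100010000))) (.non (nat_lit 0) (nat_lit 3) (nat_lit 0x45504) (nat_lit 0x1000000010001000100010000000000010000))) (.non (nat_lit 2) (nat_lit 3) (nat_lit 0x45505) (nat_lit 0x1000000010001000100010000000000010001))))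

noncomputable def t550_2 : Tr := (.ex (nat_lit 8) (.split (nat_lit 8) (nat_lit 6) (.pd (.cons (nat_lit 0) (nat_lit 4) (nat_lit 0x110) (nat_lit 0x665503120) (nat_lit 0xf423ff423f7a11d7a11b00000f423f000010000100000) (.cons (nat_lit 1) (nat_lit 4) (nat_lit 0x101) (nat_lit 0x665503002) (nat_lit 0xf423ff423f7a11d7a11b00000f423f000010000000001) (.cons (nat_lit 2) (nat_lit 4) (nat_lit 0x11) (nat_lit 0x665503001) (nat_lit 0xf423ff423f7a11d7a11b00000f423f000000000100001) .nil))) (.leaf (.cons (nat_lit 0x544) (nat_lit 0x100020002000000010000) (.cons (nat_lit 0x11540) (nat_lit 0x100000002000300040003000000000000) .nil)) .nil)) (.non (nat_lit 0) (nat_lit 3) (nat_lit 0x25400) (nat_lit 0x100010002000100000000000000000000))) (.split (nat_lit 9) (nat_lit 0) (.split (nat_lit 9) (nat_lit 1) (.split (nat_lit 9) (nat_lit 2) (.split (nat_lit 9) (nat_lit 3) (.split (nat_lit 9) (nat_lit 4) (.split (nat_lit 9) (nat_lit 5) (.split (nat_lit 9) (nat_lit 6) (.split (nat_lit 9) (nat_lit 7) (.st (nat_lit 8) (nat_lit 0) (nat_lit 3) (nat_lit 0x55400) (nat_lit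 0x1000200010002000100000000000000000000) (nat_lit 1) (nat_lit 1) (.split (nat_lit 8) (nat_lit 6) (.split (nat_lit 9) (nat_lit 8) (.pd (.cons (nat_lit 0) (nat_lit 4) (nat_lit 0x110) (nat_lit 0x8665503120) (nat_lit 0xf423fb71aef423f65b9761a7900000f423f000010000100000) (.cons (nat_lit 1) (nat_lit 4) (nat_lit 0x101) (nat_lit 0x8665503002) (nat_lit 0xf423fb71aef423f65b9761a7900000f423f000010000000001) (.cons (nat_lit 2) (nat_lit 4) (nat_lit 0x11) (nat_lit 0x8665503001) (nat_lit 0xf423fb71aef423f65b9761a7900000f423f000000000100001) .nil))) (.leaf (.cons (nat_lit 0x544) (nat_lit 0x100020002000000010000) (.cons (nat_lit 0x11540) (nat_lit 0x100000002000300040003000000000000) .nil)) .nil)) (.non (nat_lit 0) (nat_lit 3) (nat_lit 0x95400) (nat_lit 0x1000200010002000100000000000000000000))) (.non (nat_lit 0) (nat_lit 3) (nat_lit 0x25400) (nat_lit 0x100010002000100000000000000000000)))) (.non (nat_lit 0) (nat_lit 3) (nat_lit 0x55000) (nat_lit 0x1000100010001000000000000000000000000))) (.non (nat_lit 0) (nat_lit 3) (nat_lit 0x51000) (nat_lit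 0x1000100000001000000000000000000000000))) (.non (nat_lit 0) (nat_lit 3) (nat_lit 0x51400) (nat_lit 0x1000100000001000100000000000000000000))) (.non (nat_lit 0) (nat_lit 3) (nat_lit 0x51500) (nat_lit 0x1000100000001000100010000000000000000))) (.non (nat_lit 0) (nat_lit 5) (nat_lit 0x51140) (nat_lit 0x3000200000001000000030004000000000000))) (.non (nat_lit 0) (nat_lit 3) (nat_lit 0x51514) (nat_lit 0x1000100000001000100010000000100010000))) (.non (nat_lit 0) (nat_lit 3) (nat_lit 0x51504) (nat_lit 0x1000100000001000100010000000000010000))) (.non (nat_lit 2) (nat_lit 3) (nat_lit 0x51505) (nat_lit 0x1000100000001000100010000000000010001))))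

noncomputable def t550_3 : Tr := (.split (nat_lit 8) (nat_lit 5) (.split (nat_lit 8) (nat_lit 7) (.st (nat_lit 6) (nat_lit 0) (nat_lit 3) (nat_lit 0x15400) (nat_lit 0x100010002000100000000000000000000) (nat_lit 1) (nat_lit 1) (.ex (nat_lit 7) t550_2 (.split (nat_lit 9) (nat_lit 0) (.split (nat_lit 9) (nat_lit 1) (.split (nat_lit 9) (nat_lit 2) (.split (nat_lit 9) (nat_lit 3) (.split (nat_lit 9) (nat_lit 4) (.split (nat_lit 9) (nat_lit 5) (.split (nat_lit 9) (nat_lit 6) (.split (nat_lit 9) (nat_lit 8) (.st (nat_lit 7) (nat_lit 0) (nat_lit 3) (nat_lit 0x55400) (nat_lit 0x1000100020002000100000000000000000000) (nat_lit 1) (nat_lit 1) (.st (nat_lit 8) (nat_lit 0) (nat_lit 3) (nat_lit 0x55500) (nat_lit 0x1000200020003000200010000000000000000) (nat_lit 1) (nat_lit 1) (.split (nat_lit 8) (nat_lit 6) (.split (nat_lit 9) (nat_lit 7) (.pd (.cons (nat_lit 0) (nat_lit 4) (nat_lit 0x110) (nat_lit 0x7665503120) (nat_lit 0xf423ff423fb71ae65b9761a7900000f423f000010000100000) (.cons (nat_lit 1) (nat_lit 4) (nat_lit 0x101) (nat_lit 0x7665503002)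 (nat_lit 0xf423ff423fb71ae65b9761a7900000f423f000010000000001) (.cons (nat_lit 2) (nat_lit 4) (nat_lit 0x11) (nat_lit 0x7665503001) (nat_lit 0xf423ff423fb71ae65b9761a7900000f423f000000000100001) .nil))) (.leaf (.cons (nat_lit 0x544) (nat_lit 0x100020002000000010000) (.cons (nat_lit 0x11540) (nat_lit 0x100000002000300040003000000000000) .nil)) .nil)) (.non (nat_lit 0) (nat_lit 3) (nat_lit 0x95400) (nat_lit 0x1000100020002000100000000000000000000))) (.non (nat_lit 0) (nat_lit 3) (nat_lit 0x25400) (nat_lit 0x100010002000100000000000000000000))))) (.non (nat_lit 0) (nat_lit 3) (nat_lit 0x55000) (nat_lit 0x1000100010001000000000000000000000000))) (.non (nat_lit 0) (nat_lit 3) (nat_lit 0x45000) (nat_lit 0x1000000010001000000000000000000000000))) (.non (nat_lit 0) (nat_lit 3) (nat_lit 0x45400) (nat_lit 0x1000000010001000100000000000000000000))) (.non (nat_lit 0) (nat_lit 3) (nat_lit 0x45500) (nat_lit 0x1000000010001000100010000000000000000))) (.non (nat_lit 0) (nat_lit 5) (nat_lit 0x45140) (nat_lit 0x3000000020001000000030004000000000000)))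 (.non (nat_lit 0) (nat_lit 3) (nat_lit 0x45514) (nat_lit 0x1000000010001000100010000000100010000))) (.non (nat_lit 0) (nat_lit 3) (nat_lit 0x45504) (nat_lit 0x1000000010001000100010000000000010000))) (.non (nat_lit 2) (nat_lit 3) (nat_lit 0x45505) (nat_lit 0x1000000010001000100010000000000010001))))) (.non (nat_lit 0) (nat_lit 3) (nat_lit 0x15000) (nat_lit 0x100010001000000000000000000000000))) (.non (nat_lit 0) (nat_lit 3) (nat_lit 0x11400) (nat_lit 0x100000001000100000000000000000000)))

noncomputable def t550_4 : Tr := (.ex (nat_lit 5) (.pd (.cons (nat_lit 1) (nat_lit 6) (nat_lit 0x101) (nat_lit 0x70433002) (nat_lit 0xf423f00000f423fb71ae1f156000010000000001) .nil) (.ex (nat_lit 6) (.pd (.cons (nat_lit 1) (nat_lit 7) (nat_lit 0x101) (nat_lit 0x5433002) (nat_lit 0xf423fb71aea2c2804737000010000000001) .nil) (.ex (nat_lit 7) (.pd (.cons (nat_lit 0) (nat_lit 4) (nat_lit 0x110) (nat_lit 0x65503120) (nat_lit 0xf423fb71aea2c2800000f423f000010000100000) (.cons (nat_lit 1) (nat_lit 4) (nat_lit 0x101) (nat_lit 0x65503002) (nat_lit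 0xf423fb71aea2c2800000f423f000010000000001) (.cons (nat_lit 2) (nat_lit 4) (nat_lit 0x11) (nat_lit 0x65503001) (nat_lit 0xf423fb71aea2c2800000f423f000000000100001) .nil))) (.leaf (.cons (nat_lit 0x544) (nat_lit 0x100020002000000010000) .nil) .nil)) (.split (nat_lit 8) (nat_lit 0) (.split (nat_lit 8) (nat_lit 1) (.split (nat_lit 8) (nat_lit 2) (.split (nat_lit 8) (nat_lit 3) (.split (nat_lit 8) (nat_lit 4) (.split (nat_lit 8) (nat_lit 5) (.split (nat_lit 8) (nat_lit 6) t550_1 (.non (nat_lit 0) (nat_lit 3) (nat_lit 0x15000) (nat_lit 0x100010001000000000000000000000000))) (.non (nat_lit 0) (nat_lit 3) (nat_lit 0x15400) (nat_lit 0x100010001000100000000000000000000))) (.non (nat_lit 0) (nat_lit 3) (nat_lit 0x15500) (nat_lit 0x100010001000100010000000000000000))) (.non (nat_lit 0) (nat_lit 5) (nat_lit 0x15140) (nat_lit 0x300020001000000030004000000000000))) (.non (nat_lit 0) (nat_lit 3) (nat_lit 0x15514) (nat_lit 0x100010001000100010000000100010000))) (.non (nat_lit 0) (nat_lit 3) (nat_lit 0x15504) (nat_lit 0x100010001000100010000000000010000)))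 (.non (nat_lit 2) (nat_lit 3) (nat_lit 0x15505) (nat_lit 0x100010001000100010000000000010001))))) (.split (nat_lit 8) (nat_lit 0) (.split (nat_lit 8) (nat_lit 1) (.split (nat_lit 8) (nat_lit 2) (.split (nat_lit 8) (nat_lit 3) (.split (nat_lit 8) (nat_lit 4) t550_3 (.non (nat_lit 0) (nat_lit 3) (nat_lit 0x11500) (nat_lit 0x100000001000100010000000000000000))) (.non (nat_lit 0) (nat_lit 5) (nat_lit 0x15140) (nat_lit 0x300010002000000030004000000000000))) (.non (nat_lit 0) (nat_lit 3) (nat_lit 0x11514) (nat_lit 0x100000001000100010000000100010000))) (.non (nat_lit 0) (nat_lit 3) (nat_lit 0x11504) (nat_lit 0x100000001000100010000000000010000))) (.non (nat_lit 2) (nat_lit 3) (nat_lit 0x11505) (nat_lit 0x100000001000100010000000000010001))))) (.split (nat_lit 8) (nat_lit 0) (.split (nat_lit 8) (nat_lit 1) (.split (nat_lit 8) (nat_lit 2) (.split (nat_lit 8) (nat_lit 3) (.split (nat_lit 8) (nat_lit 4) (.split (nat_lit 8) (nat_lit 6) (.split (nat_lit 8) (nat_lit 7) (.st (nat_lit 5) (nat_lit 0) (nat_lit 3) (nat_lit 0x11500) (nat_lit 0x100000001000200010000000000000000)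 (nat_lit 1) (nat_lit 1) (.st (nat_lit 6) (nat_lit 0) (nat_lit 3) (nat_lit 0x15500) (nat_lit 0x100010002000200010000000000000000) (nat_lit 1) (nat_lit 1) (.st (nat_lit 7) (nat_lit 0) (nat_lit 3) (nat_lit 0x15514) (nat_lit 0x200020003000400030000000100020000) (nat_lit 1) (nat_lit 1) (.st (nat_lit 8) (nat_lit 0) (nat_lit 3) (nat_lit 0x15504) (nat_lit 0x200010002000300020000000000010000) (nat_lit 1) (nat_lit 1) (.split (nat_lit 8) (nat_lit 5) (.pd (.cons (nat_lit 0) (nat_lit 4) (nat_lit 0x110) (nat_lit 0x565503120) (nat_lit 0xf423ff423fb71ae65b9700000f423f000010000100000) (.cons (nat_lit 1) (nat_lit 4) (nat_lit 0x101) (nat_lit 0x565503002) (nat_lit 0xf423ff423fb71ae65b9700000f423f000010000000001) (.cons (nat_lit 1) (nat_lit 6) (nat_lit 0x101) (nat_lit 0x570433002) (nat_lit 0xf423ff423f00000b71aea2c2804737000010000000001) (.cons (nat_lit 2) (nat_lit 4) (nat_lit 0x11) (nat_lit 0x565503001) (nat_lit 0xf423ff423fb71ae65b9700000f423f000000000100001) .nil)))) (.leaf (.cons (nat_lit 0x544) (nat_lit 0x100020002000000010000) (.cons (nat_lit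 0x11540) (nat_lit 0x100000001000200020002000000000000) .nil)) .nil)) (.non (nat_lit 0) (nat_lit 3) (nat_lit 0x21500) (nat_lit 0x100000001000200010000000000000000))))))) (.non (nat_lit 0) (nat_lit 3) (nat_lit 0x15400) (nat_lit 0x100010001000100000000000000000000))) (.non (nat_lit 0) (nat_lit 3) (nat_lit 0x11400) (nat_lit 0x100000001000100000000000000000000))) (.non (nat_lit 0) (nat_lit 3) (nat_lit 0x10500) (nat_lit 0x100000000000100010000000000000000))) (.non (nat_lit 0) (nat_lit 5) (nat_lit 0x10144) (nat_lit 0x100000000000000020002000000010000))) (.star (nat_lit 8) (nat_lit 2) (nat_lit 5))) (.non (nat_lit 0) (nat_lit 3) (nat_lit 0x10504) (nat_lit 0x100000000000100010000000000010000))) (.star (nat_lit 8) (nat_lit 0) (nat_lit 5))))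

noncomputable def t550_5 : Tr := (.ex (nat_lit 3) (.split (nat_lit 2) (nat_lit 1) (.split (nat_lit 6) (nat_lit 1) (.split (nat_lit 1) (nat_lit 0) (.pd (.cons (nat_lit 0) (nat_lit 4) (nat_lit 0) (nat_lit 0x61603110) (nat_lit 0xf423f7a11df423f00000f423ff423f3d08a00000) (.cons (nat_lit 1) (nat_lit 4) (nat_lit 0x101) (nat_lit 0x65503002) (nat_lit 0xf423fb71aea2c2800000f423f000010000000001) (.cons (nat_lit 2) (nat_lit 4) (nat_lit 0) (nat_lit 0x61603000) (nat_lit 0xf423f7a11df423f00000f423f000007a11b7a119) .nil))) (.ex (nat_lit 4) (.pd (.cons (nat_lit 0) (nat_lit 6) (nat_lit 0) (nat_lit 0x70433110) (nat_lit 0xf423f00000f423fb71ae1f156f423fb71ae00000) (.cons (nat_lit 1) (nat_lit 6) (nat_lit 0x101) (nat_lit 0x70433002) (nat_lit 0xf423f00000f423fb71ae1f156000010000000001) (.cons (nat_lit 1) (nat_lit 7) (nat_lit 0x101) (nat_lit 0x5433002) (nat_lit 0xf423fb71aea2c2804737000010000000001) (.cons (nat_lit 2) (nat_lit 6) (nat_lit 0) (nat_lit 0x70433000) (nat_lit 0xf423f00000f423fb71ae1f15600000f423fb71ae) .nil)))) (.leaf (.cons (nat_lit 0x1544)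 (nat_lit 0x2000300040003000000010000) .nil) (.cons (nat_lit 0x11000110) (nat_lit 0x100001) (nat_lit 2) (nat_lit 0x32000010) .nil))) (.split (nat_lit 8) (nat_lit 0) (.split (nat_lit 8) (nat_lit 1) (.split (nat_lit 8) (nat_lit 2) (.split (nat_lit 8) (nat_lit 3) (.split (nat_lit 8) (nat_lit 5) (.split (nat_lit 8) (nat_lit 6) (.split (nat_lit 8) (nat_lit 7) (.unj (nat_lit 0x15) (nat_lit 0x100010001) (nat_lit 0x10540) (nat_lit 0x100000000000100020002000000000000)) (.non (nat_lit 0) (nat_lit 3) (nat_lit 0x15500) (nat_lit 0x100010001000100010000000000000000))) (.non (nat_lit 0) (nat_lit 3) (nat_lit 0x11500) (nat_lit 0x100000001000100010000000000000000))) (.non (nat_lit 0) (nat_lit 3) (nat_lit 0x10500) (nat_lit 0x100000000000100010000000000000000))) (.non (nat_lit 0) (nat_lit 5) (nat_lit 0x10140) (nat_lit 0x100000000000000010001000000000000))) (.non (nat_lit 0) (nat_lit 3) (nat_lit 0x11514) (nat_lit 0x100000001000100010000000100010000))) (.non (nat_lit 0) (nat_lit 3) (nat_lit 0x11504) (nat_lit 0x100000001000100010000000000010000)))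 (.non (nat_lit 2) (nat_lit 3) (nat_lit 0x11505) (nat_lit 0x100000001000100010000000000010001))))) (.non (nat_lit 2) (nat_lit 3) (nat_lit 0xa809) (nat_lit 0x10002000100000000000000020002))) (.non (nat_lit 0) (nat_lit 3) (nat_lit 0xa804) (nat_lit 0x10002000100000000000000020000))) (.non (nat_lit 0) (nat_lit 3) (nat_lit 0x5424) (nat_lit 0x10002000100000000000100020000))) (.split (nat_lit 8) (nat_lit 0) (.split (nat_lit 8) (nat_lit 1) (.split (nat_lit 8) (nat_lit 2) (.split (nat_lit 8) (nat_lit 4) (.split (nat_lit 8) (nat_lit 5) (.split (nat_lit 8) (nat_lit 6) (.split (nat_lit 8) (nat_lit 7) (.unj (nat_lit 0x15) (nat_lit 0x100010001) (nat_lit 0x10540) (nat_lit 0x100000000000100020002000000000000)) (.non (nat_lit 0) (nat_lit 3) (nat_lit 0x15514) (nat_lit 0x100020003000200010000000100020000))) (.non (nat_lit 0) (nat_lit 3) (nat_lit 0x15404) (nat_lit 0x100010002000100000000000000010000))) (.non (nat_lit 0) (nat_lit 3) (nat_lit 0x15504) (nat_lit 0x100010002000200010000000000010000))) (.non (nat_lit 0) (nat_lit 5) (nat_lit 0x10140) (nat_lit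 0x100000000000000010001000000000000))) (.star (nat_lit 8) (nat_lit 2) (nat_lit 3))) (.non (nat_lit 0) (nat_lit 3) (nat_lit 0x15414) (nat_lit 0x100010002000100000000000100020000))) (.star (nat_lit 8) (nat_lit 0) (nat_lit 3))))

noncomputable def t550_6 : Tr := (.ex (nat_lit 0) (.ex (nat_lit 2) (.split (nat_lit 7) (nat_lit 6) (.pd (.cons (nat_lit 1) (nat_lit 3) (nat_lit 0x101) (nat_lit 0x65440002) (nat_lit 0xf423fb71aea2c289896500000000010000000001) (.cons (nat_lit 1) (nat_lit 5) (nat_lit 0x101) (nat_lit 0x66033002) (nat_lit 0xf423fb71ae00000f423f54591000010000000001) .nil)) t550_5) (.non (nat_lit 0) (nat_lit 3) (nat_lit 0x9404) (nat_lit 0x10002000100000000000000010000))) (.split (nat_lit 8) (nat_lit 1) (.split (nat_lit 8) (nat_lit 3) (.split (nat_lit 8) (nat_lit 4) (.split (nat_lit 8) (nat_lit 5) (.split (nat_lit 8) (nat_lit 6) (.split (nat_lit 8) (nat_lit 7) (.split (nat_lit 8) (nat_lit 0) (.split (nat_lit 8) (nat_lit 2) (.split (nat_lit 7) (nat_lit 6) (.split (nat_lit 6) (nat_lit 1) (.sup (nat_lit 0x30006000b0010000d000000000000)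 (nat_lit 0x300000000000000000000000500020004)) (.non (nat_lit 0) (nat_lit 3) (nat_lit 0xa804) (nat_lit 0x10002000100000000000000020000))) (.non (nat_lit 0) (nat_lit 3) (nat_lit 0x9404) (nat_lit 0x10002000100000000000000010000))) (.non (nat_lit 0) (nat_lit 3) (nat_lit 0x25414) (nat_lit 0x100010002000100000000000200020000))) (.unj (nat_lit 0x10011) (nat_lit 0x100000000000000000000000100000001) (nat_lit 0x5540) (nat_lit 0x10002000300040003000000000000))) (.non (nat_lit 0) (nat_lit 3) (nat_lit 0x15014) (nat_lit 0x100010001000000000000000100010000))) (.non (nat_lit 0) (nat_lit 3) (nat_lit 0x15404) (nat_lit 0x100010002000100000000000000010000))) (.star (nat_lit 8) (nat_lit 2) (nat_lit 5))) (.non (nat_lit 0) (nat_lit 3) (nat_lit 0x11514) (nat_lit 0x100000001000100010000000100010000))) (.star (nat_lit 8) (nat_lit 2) (nat_lit 3))) (.non (nat_lit 0) (nat_lit 3) (nat_lit 0x10014) (nat_lit 0x100000000000000000000000100010000)))) (.split (nat_lit 8) (nat_lit 1) (.split (nat_lit 8) (nat_lit 3) (.split (nat_lit 8) (nat_lit 4) (.split (nat_lit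 8) (nat_lit 5) (.split (nat_lit 8) (nat_lit 6) (.split (nat_lit 8) (nat_lit 7) (.split (nat_lit 8) (nat_lit 2) (.split (nat_lit 8) (nat_lit 0) (.split (nat_lit 7) (nat_lit 6) (.split (nat_lit 6) (nat_lit 1) (.sup (nat_lit 0x30006000b0010000d000000000000) (nat_lit 0x300000000000000000000000400020005)) (.non (nat_lit 0) (nat_lit 3) (nat_lit 0xa804) (nat_lit 0x10002000100000000000000020000))) (.non (nat_lit 0) (nat_lit 3) (nat_lit 0x9404) (nat_lit 0x10002000100000000000000010000))) (.non (nat_lit 2) (nat_lit 3) (nat_lit 0x25405) (nat_lit 0x100010002000100000000000000020002))) (.unj (nat_lit 0x10011) (nat_lit 0x100000000000000000000000100000001) (nat_lit 0x5540) (nat_lit 0x10002000300040003000000000000))) (.non (nat_lit 0) (nat_lit 3) (nat_lit 0x15514) (nat_lit 0x100020003000200010000000100020000))) (.non (nat_lit 0) (nat_lit 3) (nat_lit 0x15404) (nat_lit 0x100010002000100000000000000010000))) (.star (nat_lit 8) (nat_lit 0) (nat_lit 5))) (.non (nat_lit 2) (nat_lit 3) (nat_lit 0x11505) (nat_lit 0x100000001000100010000000000010001)))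 (.star (nat_lit 8) (nat_lit 0) (nat_lit 3))) (.non (nat_lit 0) (nat_lit 3) (nat_lit 0x15414) (nat_lit 0x100010002000100000000000100020000))))

noncomputable def t550_7 : Tr := (.split (nat_lit 6) (nat_lit 1) (.split (nat_lit 4) (nat_lit 1) .uj (.st (nat_lit 0) (nat_lit 2) (nat_lit 5) (nat_lit 0x145) (nat_lit 0x40003000000030002) (nat_lit 1) (nat_lit 1) (.st (nat_lit 2) (nat_lit 0) (nat_lit 5) (nat_lit 0x154) (nat_lit 0x40003000200030000) (nat_lit 1) (nat_lit 1) (.split (nat_lit 7) (nat_lit 6) (.pd (.cons (nat_lit 1) (nat_lit 3) (nat_lit 0x101) (nat_lit 0x65440002) (nat_lit 0xf423fb71aea2c289896500000000010000000001) (.cons (nat_lit 1) (nat_lit 5) (nat_lit 0x101) (nat_lit 0x66033002) (nat_lit 0xf423fb71ae00000f423f54591000010000000001) .nil)) (.st (nat_lit 3) (nat_lit 0) (nat_lit 5) (nat_lit 0x144) (nat_lit 0x20002000000010000) (nat_lit 1) (nat_lit 1) (.st (nat_lit 4) (nat_lit 0) (nat_lit 5) (nat_lit 0x144) (nat_lit 0x20002000000010000) (nat_lit 1) (nat_lit 1) t550_4))) (.split (nat_lit 7) (nat_lit 6) (.pd (.cons (nat_lit 1)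 (nat_lit 3) (nat_lit 0x101) (nat_lit 0x65440002) (nat_lit 0xf423f7a11e7a11c7a11a00000000010000000001) (.cons (nat_lit 1) (nat_lit 5) (nat_lit 0x101) (nat_lit 0x66033002) (nat_lit 0xf423f7a11e00000f423f54591000010000000001) .nil)) (.st (nat_lit 3) (nat_lit 0) (nat_lit 5) (nat_lit 0x144) (nat_lit 0x20002000000010000) (nat_lit 1) (nat_lit 1) (.st (nat_lit 4) (nat_lit 0) (nat_lit 3) (nat_lit 0x9504) (nat_lit 0x10002000200020000000000010000) (nat_lit 1) (nat_lit 1) (.st (nat_lit 5) (nat_lit 0) (nat_lit 3) (nat_lit 0x9500) (nat_lit 0x10002000200010000000000000000) (nat_lit 1) (nat_lit 1) (.pd (.cons (nat_lit 1) (nat_lit 6) (nat_lit 0x101) (nat_lit 0x70433002) (nat_lit 0xf423f00000f423fb71ae1f156000010000000001) .nil) (.st (nat_lit 6) (nat_lit 0) (nat_lit 3) (nat_lit 0x9400) (nat_lit 0x10002000100000000000000000000) (nat_lit 1) (nat_lit 1) (.pd (.cons (nat_lit 1) (nat_lit 7) (nat_lit 0x101) (nat_lit 0x5433002) (nat_lit 0xf423fb71aea2c2804737000010000000001) .nil) (.st (nat_lit 7) (nat_lit 0) (nat_lit 3) (nat_lit 0x9500) (nat_lit 0x20003000200010000000000000000)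 (nat_lit 2) (nat_lit 1) (.pd (.cons (nat_lit 0) (nat_lit 4) (nat_lit 0x110) (nat_lit 0x65503120) (nat_lit 0xf423f7a11e7a11c00000f423f000010000100000) (.cons (nat_lit 1) (nat_lit 4) (nat_lit 0x101) (nat_lit 0x65503002) (nat_lit 0xf423f7a11e7a11c00000f423f000010000000001) (.cons (nat_lit 2) (nat_lit 4) (nat_lit 0x11) (nat_lit 0x65503001) (nat_lit 0xf423f7a11e7a11c00000f423f000000000100001) .nil))) (.leaf (.cons (nat_lit 0x544) (nat_lit 0x100020002000000010000) .nil) .nil)))))))))) (.non (nat_lit 0) (nat_lit 3) (nat_lit 0x5504) (nat_lit 0x30004000300020000000000010000))))))) (.split (nat_lit 4) (nat_lit 1) (.st (nat_lit 1) (nat_lit 0) (nat_lit 3) (nat_lit 0x5414) (nat_lit 0x10002000100000000000100020000) (nat_lit 1) (nat_lit 1) (.st (nat_lit 5) (nat_lit 0) (nat_lit 3) (nat_lit 0x5504) (nat_lit 0x10002000200010000000000010000) (nat_lit 1) (nat_lit 1) (.st (nat_lit 6) (nat_lit 0) (nat_lit 3) (nat_lit 0x5404) (nat_lit 0x10002000100000000000000010000) (nat_lit 1) (nat_lit 1) (.st (nat_lit 7) (nat_lit 0) (nat_lit 3) (nat_lit 0x5514)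 (nat_lit 0x20003000200010000000100020000) (nat_lit 1) (nat_lit 1) t550_6)))) (.non (nat_lit 0) (nat_lit 3) (nat_lit 0x1504) (nat_lit 0x1000100010000000000010000))))

noncomputable def t550_8 : Tr := (.ex (nat_lit 6) (.pd (.cons (nat_lit 0) (nat_lit 7) (nat_lit 0) (nat_lit 0x5433110) (nat_lit 0xf423fb71aea2c2804737f423fb71ae00000) (.cons (nat_lit 1) (nat_lit 7) (nat_lit 0x101) (nat_lit 0x5433002) (nat_lit 0xf423fb71aea2c2804737000010000000001) (.cons (nat_lit 2) (nat_lit 7) (nat_lit 0) (nat_lit 0x5433000) (nat_lit 0xf423fb71aea2c280473700000f423fb71ae) .nil))) (.ex (nat_lit 7) (.split (nat_lit 7) (nat_lit 6) (.pd (.cons (nat_lit 0) (nat_lit 4) (nat_lit 0) (nat_lit 0x27603110) (nat_lit 0xa2c28b71aef423f00000f423f98965927bd00000) (.cons (nat_lit 2) (nat_lit 4) (nat_lit 0) (nat_lit 0x7603000) (nat_lit 0xa2c28b71aef423f00000f423f00000f423f5b8d4) .nil)) (.leaf (.cons (nat_lit 0x4011) (nat_lit 0x10000000000000000000100000001) .nil) .nil)) (.non (nat_lit 0) (nat_lit 3) (nat_lit 0x6a10) (nat_lit 0x40003000200010000000200000000))) (.split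 (nat_lit 8) (nat_lit 0) (.split (nat_lit 8) (nat_lit 1) (.split (nat_lit 8) (nat_lit 2) (.split (nat_lit 8) (nat_lit 3) (.split (nat_lit 8) (nat_lit 4) (.split (nat_lit 8) (nat_lit 5) (.split (nat_lit 8) (nat_lit 6) (.st (nat_lit 7) (nat_lit 0) (nat_lit 3) (nat_lit 0x15010) (nat_lit 0x100020001000000000000000100000000) (nat_lit 1) (nat_lit 1) (.split (nat_lit 7) (nat_lit 6) (.split (nat_lit 8) (nat_lit 7) (.pd (.cons (nat_lit 0) (nat_lit 4) (nat_lit 0) (nat_lit 0x727603110) (nat_lit 0xf423f65b97b71aef423f00000f423f61a795b8cc00000) (.cons (nat_lit 2) (nat_lit 4) (nat_lit 0) (nat_lit 0x707603000) (nat_lit 0xf423f65b97b71aef423f00000f423f00000f423f249e8) .nil)) (.leaf (.cons (nat_lit 0x4011) (nat_lit 0x10000000000000000000100000001) .nil) .nil)) (.non (nat_lit 0) (nat_lit 3) (nat_lit 0x25010) (nat_lit 0x100020001000000000000000100000000))) (.non (nat_lit 0) (nat_lit 3) (nat_lit 0x29500) (nat_lit 0x100020003000200010000000000000000)))) (.non (nat_lit 0) (nat_lit 3) (nat_lit 0x15000) (nat_lit 0x100010001000000000000000000000000)))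 (.non (nat_lit 0) (nat_lit 3) (nat_lit 0x15400) (nat_lit 0x100010001000100000000000000000000))) (.non (nat_lit 0) (nat_lit 3) (nat_lit 0x15500) (nat_lit 0x100010001000100010000000000000000))) (.non (nat_lit 0) (nat_lit 5) (nat_lit 0x15140) (nat_lit 0x300020001000000030004000000000000))) (.non (nat_lit 0) (nat_lit 3) (nat_lit 0x14010) (nat_lit 0x100010000000000000000000100000000))) (.non (nat_lit 0) (nat_lit 3) (nat_lit 0x14014) (nat_lit 0x100010000000000000000000100010000))) (.non (nat_lit 2) (nat_lit 3) (nat_lit 0x14001) (nat_lit 0x100010000000000000000000000000001))))) (.split (nat_lit 8) (nat_lit 0) (.split (nat_lit 8) (nat_lit 1) (.split (nat_lit 8) (nat_lit 2) (.split (nat_lit 8) (nat_lit 3) (.split (nat_lit 8) (nat_lit 4) (.split (nat_lit 8) (nat_lit 5) (.split (nat_lit 8) (nat_lit 7) (.unj (nat_lit 0x15) (nat_lit 0x100010001) (nat_lit 0x11540) (nat_lit 0x100000002000300040003000000000000)) (.non (nat_lit 0) (nat_lit 3) (nat_lit 0x15000) (nat_lit 0x100010001000000000000000000000000))) (.non (nat_lit 0) (nat_lit 3) (nat_lit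 0x11400) (nat_lit 0x100000001000100000000000000000000))) (.non (nat_lit 0) (nat_lit 3) (nat_lit 0x11500) (nat_lit 0x100000001000100010000000000000000))) (.non (nat_lit 0) (nat_lit 5) (nat_lit 0x15140) (nat_lit 0x300010002000000030004000000000000))) (.non (nat_lit 0) (nat_lit 3) (nat_lit 0x15010) (nat_lit 0x100010001000000000000000100000000))) (.non (nat_lit 0) (nat_lit 3) (nat_lit 0x15014) (nat_lit 0x100010001000000000000000100010000))) (.non (nat_lit 2) (nat_lit 3) (nat_lit 0x15001) (nat_lit 0x100010001000000000000000000000001))))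

noncomputable def t550_9 : Tr := (.ex (nat_lit 4) (.ex (nat_lit 5) (.split (nat_lit 2) (nat_lit 1) (.split (nat_lit 7) (nat_lit 2) (.split (nat_lit 1) (nat_lit 0) (.split (nat_lit 7) (nat_lit 0) (.pd (.cons (nat_lit 0) (nat_lit 6) (nat_lit 0) (nat_lit 0x20433110) (nat_lit 0xf423f00000f423fb71ae1f156b71aea2c2800000) (.cons (nat_lit 2) (nat_lit 6) (nat_lit 0) (nat_lit 0x433000) (nat_lit 0xf423f00000f423fb71ae1f15600000f423f7a11d) .nil)) t550_8) (.non (nat_lit 2) (nat_lit 3) (nat_lit 0xa805) (nat_lit 0x30002000100000000000000020004))) (.split (nat_lit 7) (nat_lit 0) (.sup (nat_lit 0x8000a0009) (nat_lit 0x100040007000a0008000000000000)) (.non (nat_lit 2) (nat_lit 3) (nat_lit 0x8009) (nat_lit 0x10000000000000000000000010002)))) (.non (nat_lit 0) (nat_lit 3) (nat_lit 0xa814) (nat_lit 0x30002000100000000000400020000))) (.split (nat_lit 7) (nat_lit 0) (.split (nat_lit 7) (nat_lit 2) (.sup (nat_lit 0x9000a0008) (nat_lit 0x100040007000a0008000000000000)) (.non (nat_lit 0) (nat_lit 3) (nat_lit 0x4024) (nat_lit 0x10000000000000000000100010000)))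 (.non (nat_lit 2) (nat_lit 3) (nat_lit 0xa805) (nat_lit 0x30002000100000000000000020004)))) (.split (nat_lit 8) (nat_lit 0) (.split (nat_lit 8) (nat_lit 1) (.split (nat_lit 8) (nat_lit 2) (.split (nat_lit 8) (nat_lit 4) (.split (nat_lit 8) (nat_lit 6) (.split (nat_lit 8) (nat_lit 7) (.split (nat_lit 8) (nat_lit 3) (.unj (nat_lit 0x15) (nat_lit 0x100010001) (nat_lit 0x11540) (nat_lit 0x100000001000200020002000000000000)) (.unj (nat_lit 0x15) (nat_lit 0x100010001) (nat_lit 0x10540) (nat_lit 0x100000000000100010001000000000000))) (.non (nat_lit 0) (nat_lit 3) (nat_lit 0x15400) (nat_lit 0x100010001000100000000000000000000))) (.non (nat_lit 0) (nat_lit 3) (nat_lit 0x11400) (nat_lit 0x100000001000100000000000000000000))) (.non (nat_lit 0) (nat_lit 3) (nat_lit 0x10500) (nat_lit 0x100000000000100010000000000000000))) (.star (nat_lit 8) (nat_lit 2) (nat_lit 5))) (.non (nat_lit 0) (nat_lit 3) (nat_lit 0x15414) (nat_lit 0x100010001000100000000000100010000))) (.star (nat_lit 8) (nat_lit 0) (nat_lit 5)))) (.split (nat_lit 8) (nat_lit 0)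 (.split (nat_lit 8) (nat_lit 1) (.split (nat_lit 8) (nat_lit 2) (.split (nat_lit 8) (nat_lit 3) (.split (nat_lit 8) (nat_lit 5) (.split (nat_lit 8) (nat_lit 6) (.split (nat_lit 8) (nat_lit 7) (.unj (nat_lit 0x15) (nat_lit 0x100010001) (nat_lit 0x10540) (nat_lit 0x100000000000100020002000000000000)) (.non (nat_lit 0) (nat_lit 3) (nat_lit 0x15500) (nat_lit 0x100010001000100010000000000000000))) (.non (nat_lit 0) (nat_lit 3) (nat_lit 0x11500) (nat_lit 0x100000001000100010000000000000000))) (.non (nat_lit 0) (nat_lit 3) (nat_lit 0x10500) (nat_lit 0x100000000000100010000000000000000))) (.non (nat_lit 0) (nat_lit 5) (nat_lit 0x10140) (nat_lit 0x100000000000000010001000000000000))) (.non (nat_lit 0) (nat_lit 3) (nat_lit 0x15510) (nat_lit 0x100010001000100010000000100000000))) (.non (nat_lit 0) (nat_lit 3) (nat_lit 0x15514) (nat_lit 0x100010001000100010000000100010000))) (.non (nat_lit 2) (nat_lit 3) (nat_lit 0x15501) (nat_lit 0x100010001000100010000000000000001))))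

noncomputable def t550_10 : Tr := (.ex (nat_lit 2) (.ex (nat_lit 3) t550_9 (.split (nat_lit 8) (nat_lit 0) (.split (nat_lit 8) (nat_lit 1) (.split (nat_lit 8) (nat_lit 2) (.split (nat_lit 8) (nat_lit 4) (.split (nat_lit 8) (nat_lit 6) (.split (nat_lit 8) (nat_lit 7) (.split (nat_lit 8) (nat_lit 5) (.unj (nat_lit 0x15) (nat_lit 0x100010001) (nat_lit 0x10540) (nat_lit 0x100000000000100020002000000000000)) (.unj (nat_lit 0x15) (nat_lit 0x100010001) (nat_lit 0x10540) (nat_lit 0x100000000000100010001000000000000))) (.non (nat_lit 0) (nat_lit 5) (nat_lit 0x15140) (nat_lit 0x300020001000000030004000000000000))) (.non (nat_lit 0) (nat_lit 5) (nat_lit 0x15140) (nat_lit 0x300010002000000030004000000000000))) (.non (nat_lit 0) (nat_lit 5) (nat_lit 0x10140) (nat_lit 0x100000000000000010001000000000000))) (.star (nat_lit 8) (nat_lit 2) (nat_lit 3))) (.non (nat_lit 0) (nat_lit 5) (nat_lit 0x10154) (nat_lit 0x300000000000000030004000100020000))) (.star (nat_lit 8) (nat_lit 0) (nat_lit 3)))) (.split (nat_lit 8) (nat_lit 1) (.split (nat_lit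 8) (nat_lit 3) (.split (nat_lit 8) (nat_lit 4) (.split (nat_lit 8) (nat_lit 5) (.split (nat_lit 8) (nat_lit 6) (.split (nat_lit 8) (nat_lit 7) (.split (nat_lit 8) (nat_lit 0) (.split (nat_lit 8) (nat_lit 2) (.split (nat_lit 7) (nat_lit 0) (.split (nat_lit 7) (nat_lit 2) (.sup (nat_lit 0x10006000b0010000d000000000000) (nat_lit 0x100000000000000000000000200020002)) (.non (nat_lit 0) (nat_lit 3) (nat_lit 0x1a810) (nat_lit 0x200030002000100000000000400000000))) (.non (nat_lit 2) (nat_lit 3) (nat_lit 0xa805) (nat_lit 0x30002000100000000000000020004))) (.non (nat_lit 0) (nat_lit 3) (nat_lit 0x24014) (nat_lit 0x100010000000000000000000200010000))) (.split (nat_lit 8) (nat_lit 0) (.split (nat_lit 8) (nat_lit 2) (.split (nat_lit 7) (nat_lit 0) (.split (nat_lit 7) (nat_lit 2) (.sup (nat_lit 0x20007000b0010000d000000000000) (nat_lit 0x100000000000000000000000100010001)) (.non (nat_lit 0) (nat_lit 3) (nat_lit 0x1a810) (nat_lit 0x200030002000100000000000400000000))) (.non (nat_lit 2) (nat_lit 3) (nat_lit 0x1a801) (nat_lit 0x200030002000100000000000000000004)))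 (.non (nat_lit 0) (nat_lit 3) (nat_lit 0x24014) (nat_lit 0x100010000000000000000000200010000))) (.non (nat_lit 2) (nat_lit 3) (nat_lit 0x24005) (nat_lit 0x100010000000000000000000000010002)))) (.non (nat_lit 0) (nat_lit 3) (nat_lit 0x14010) (nat_lit 0x100010000000000000000000100000000))) (.non (nat_lit 0) (nat_lit 3) (nat_lit 0x15010) (nat_lit 0x100010001000000000000000100000000))) (.star (nat_lit 8) (nat_lit 2) (nat_lit 5))) (.non (nat_lit 0) (nat_lit 3) (nat_lit 0x15510) (nat_lit 0x100010001000100010000000100000000))) (.star (nat_lit 8) (nat_lit 2) (nat_lit 3))) (.non (nat_lit 0) (nat_lit 3) (nat_lit 0x10014) (nat_lit 0x100000000000000000000000100010000))))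

noncomputable def t550 : Tr := (.split (nat_lit 7) (nat_lit 0) (.split (nat_lit 7) (nat_lit 1) (.split (nat_lit 7) (nat_lit 2) t550_7 (.split (nat_lit 6) (nat_lit 1) (.split (nat_lit 4) (nat_lit 1) (.split (nat_lit 7) (nat_lit 2) (.sup (nat_lit 0x80009000a) (nat_lit 0x100040007000a0008000000000000)) (.non (nat_lit 0) (nat_lit 3) (nat_lit 0xa814) (nat_lit 0x30002000100000000000400020000))) (.non (nat_lit 0) (nat_lit 3) (nat_lit 0x5514) (nat_lit 0x10001000100010000000100010000))) (.non (nat_lit 0) (nat_lit 3) (nat_lit 0x5014) (nat_lit 0x10001000000000000000100010000)))) (.split (nat_lit 7) (nat_lit 2) (.split (nat_lit 6) (nat_lit 1) (.split (nat_lit 4) (nat_lit 1) (.sup (nat_lit 0xa0006000a) (nat_lit 0x100040007000a0008000000000000)) (.non (nat_lit 0) (nat_lit 3) (nat_lit 0x5504) (nat_lit 0x10001000100010000000000010000))) (.non (nat_lit 0) (nat_lit 3) (nat_lit 0x5004) (nat_lit 0x10001000000000000000000010000))) (.non (nat_lit 0) (nat_lit 3) (nat_lit 0x4014) (nat_lit 0x10000000000000000000100010000)))) (.split (nat_lit 7) (nat_lit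 1) (.split (nat_lit 6) (nat_lit 1) (.split (nat_lit 4) (nat_lit 1) (.split (nat_lit 7) (nat_lit 2) (.split (nat_lit 7) (nat_lit 0) (.sup (nat_lit 0xa00090008) (nat_lit 0x100040007000a0008000000000000)) (.non (nat_lit 2) (nat_lit 3) (nat_lit 0xa805) (nat_lit 0x30002000100000000000000020004))) (.ex (nat_lit 0) t550_10 (.split (nat_lit 8) (nat_lit 1) (.split (nat_lit 8) (nat_lit 3) (.split (nat_lit 8) (nat_lit 4) (.split (nat_lit 8) (nat_lit 5) (.split (nat_lit 8) (nat_lit 6) (.split (nat_lit 8) (nat_lit 7) (.split (nat_lit 8) (nat_lit 2) (.split (nat_lit 8) (nat_lit 0) (.split (nat_lit 7) (nat_lit 0) (.split (nat_lit 7) (nat_lit 2) (.sup (nat_lit 0x10006000b0010000d000000000000) (nat_lit 0x100000000000000000000000200020002)) (.non (nat_lit 0) (nat_lit 3) (nat_lit 0xa814) (nat_lit 0x30002000100000000000400020000))) (.non (nat_lit 2) (nat_lit 3) (nat_lit 0x1a801) (nat_lit 0x200030002000100000000000000000004))) (.non (nat_lit 2) (nat_lit 3) (nat_lit 0x24005) (nat_lit 0x100010000000000000000000000010002))) (.split (nat_lit 8) (nat_lit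 0) (.split (nat_lit 8) (nat_lit 2) (.split (nat_lit 7) (nat_lit 0) (.split (nat_lit 7) (nat_lit 2) (.sup (nat_lit 0x20007000b0010000d000000000000) (nat_lit 0x100000000000000000000000100010001)) (.non (nat_lit 0) (nat_lit 3) (nat_lit 0x1a810) (nat_lit 0x200030002000100000000000400000000))) (.non (nat_lit 2) (nat_lit 3) (nat_lit 0x1a801) (nat_lit 0x200030002000100000000000000000004))) (.non (nat_lit 0) (nat_lit 3) (nat_lit 0x24014) (nat_lit 0x100010000000000000000000200010000))) (.non (nat_lit 2) (nat_lit 3) (nat_lit 0x24005) (nat_lit 0x100010000000000000000000000010002)))) (.non (nat_lit 2) (nat_lit 3) (nat_lit 0x14001) (nat_lit 0x100010000000000000000000000000001))) (.non (nat_lit 2) (nat_lit 3) (nat_lit 0x15001) (nat_lit 0x100010001000000000000000000000001))) (.star (nat_lit 8) (nat_lit 0) (nat_lit 5))) (.non (nat_lit 2) (nat_lit 3) (nat_lit 0x15501) (nat_lit 0x100010001000100010000000000000001))) (.star (nat_lit 8) (nat_lit 0) (nat_lit 3))) (.non (nat_lit 2) (nat_lit 3) (nat_lit 0x10005) (nat_lit 0x100000000000000000000000000010001)))))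 (.non (nat_lit 2) (nat_lit 3) (nat_lit 0x5505) (nat_lit 0x10001000100010000000000010001))) (.non (nat_lit 2) (nat_lit 3) (nat_lit 0x5005) (nat_lit 0x10001000000000000000000010001))) (.non (nat_lit 2) (nat_lit 3) (nat_lit 0x4005) (nat_lit 0x10000000000000000000000010001))))

noncomputable def D4_204 : RL := (.cons (nat_lit 0x22222222222222222222222222222222222222222222222222222222222222222222222222222222222222222222222222222222222222222222222222222222222222222b222aaa22222222b23222a2222222222323222222222222223252a2222222222225222222222222a22222bc22222222aa2a2b2b22222222a2222cb2) t550 .nil)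

noncomputable def D4_192 : RL := (.cons (nat_lit 0x2222222222222222222222222222222222222222222222222222222222222222222222222222222222222222222222222222222222222222222222222222222222222222222222222222222222c222a2222222222c232222222222222232522222222222222522a222222222222222bc222222222a22ab2b2222222222222cb2) t538 (.cons (nat_lit 0x2222222222222222222222222222222222222222222222222222222222222222222222222222222222222222222222222222222222222222222222222222222222222222222222222222222222c22222222222222c2322a22222222222325222222222222225222222222222222222bc2222222222a22b2b2222222222222cb2) (.split (nat_lit 5) (nat_lit 1) .uj (.non (nat_lit 0) (nat_lit 6) (nat_lit 0x554) (nat_lit 0x300040003000100020000))) (.cons (nat_lit 0x2222222222222222222222222222222222222222222222222222222222222222222222222222222222222222222222222222222222222222222222222222222222222222222222222222222222c22222222222222c2322222222222222325222222222222225222222222222222222bc2222222222222b2b2222222222222cb2) .uj (.cons (nat_lit 0x22222222222222222222222222222222222222222222222222222222222222222222222222222222222222222222222222222222222222222222222222222222222222222222222222222222222322a222222222222322a22222222223325222222222222225222222222222222222bc222222222aa22b2b2222222222222cb2)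 (.split (nat_lit 6) (nat_lit 1) (.split (nat_lit 5) (nat_lit 1) .uj (.sup (nat_lit 0xa0006000a) (nat_lit 0x50002000a0008000000000000))) (.split (nat_lit 5) (nat_lit 1) (.sup (nat_lit 0xa0006000a) (nat_lit 0x20005000a0008000000000000)) (.non (nat_lit 0) (nat_lit 3) (nat_lit 0x1504) (nat_lit 0x1000100010000000000010000)))) (.cons (nat_lit 0x2222222222222222222222222222222222222222222222222222222222222222222222222222222222222222222222222222222222222222222222222222222222222222222222222222222222232aaa222222222223222222222222233252222222222222252222222222222a2222bc222222222a222b2b222222222a222cb2) (.split (nat_lit 6) (nat_lit 0) (.split (nat_lit 6) (nat_lit 1) (.split (nat_lit 6) (nat_lit 2) .uj (.non (nat_lit 0) (nat_lit 5) (nat_lit 0x1154) (nat_lit 0x3000000040003000200010000))) (.non (nat_lit 0) (nat_lit 5) (nat_lit 0x1154) (nat_lit 0x3000000040003000100020000))) (.non (nat_lit 2) (nat_lit 5) (nat_lit 0x1145) (nat_lit 0x3000000040003000000010002))) (.cons (nat_lit 0x22222222222222222222222222222222222222222222222222222222222222222222222222222222222222222222222222222222222222222222222222222222222222222222222222222222222322a222222222222322222222222223325222222222222225222222222222222222bc222222222a222b2b2222222222222cb2)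 (.split (nat_lit 6) (nat_lit 1) .uj (.non (nat_lit 0) (nat_lit 5) (nat_lit 0x1154) (nat_lit 0x3000000040003000100020000))) (.cons (nat_lit 0x222222222222222222222222222222222222222222222222222222222222222222222222222222222222222222222222222222222222222222222222222222222222222222222222222222222223222222222222222322222222222223325222222222222225222222222222222222bc2222222222222b2b2222222222222cb2) .uj (.cons (nat_lit 0x2222222222222222222222222222222222222222222222222222222222222222222222222222222222222222222222222222222222222222222222222222222222222222222222222222222222b232a2222222222b2322a2222222222232c22222222222232c222222222222222222bc222222222aa22b2b2222222222222cb2) (.split (nat_lit 6) (nat_lit 1) (.split (nat_lit 5) (nat_lit 1) .uj (.split (nat_lit 6) (nat_lit 5) (.split (nat_lit 5) (nat_lit 1) (.sup (nat_lit 0x500030005) (nat_lit 0x4000200050005000000000000)) (.non (nat_lit 0) (nat_lit 3) (nat_lit 0x2a04) (nat_lit 0x1000200010000000000020000))) (.non (nat_lit 0) (nat_lit 3) (nat_lit 0x2504) (nat_lit 0x1000200010000000000010000))))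 (.split (nat_lit 5) (nat_lit 1) (.split (nat_lit 6) (nat_lit 1) (.sup (nat_lit 0x500030005) (nat_lit 0x2000400050005000000000000)) (.non (nat_lit 0) (nat_lit 3) (nat_lit 0x2a14) (nat_lit 0x3000200010000000200040000))) (.non (nat_lit 0) (nat_lit 3) (nat_lit 0x1404) (nat_lit 0x1000100000000000000010000)))) (.cons (nat_lit 0x2222222222222222222222222222222222222222222222222222222222222222222222222222222222222222222222222222222222222222222222222222222222222222222222222222222222b232a2222222222b232222222222222232c2a222222222232c222222222222222222bc222222222a2a2b2b2222222222222cb2) (.split (nat_lit 4) (nat_lit 1) (.split (nat_lit 6) (nat_lit 1) .uj (.split (nat_lit 6) (nat_lit 1) (.sup (nat_lit 0x500030005) (nat_lit 0x2000400050005000000000000)) (.non (nat_lit 0) (nat_lit 3) (nat_lit 0x2a14) (nat_lit 0x3000200010000000200040000)))) (.non (nat_lit 0) (nat_lit 5) (nat_lit 0x2194) (nat_lit 0x1000000030002000100020000))) (.cons (nat_lit 0x2222222222222222222222222222222222222222222222222222222222222222222222222222222222222222222222222222222222222222222222222222222222222222222222222222222222b23222222222222b2322a2222222222232c22222222222232c222222222222222222bc2222222222a22b2b2222222222222cb2)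 (.split (nat_lit 5) (nat_lit 1) .uj (.split (nat_lit 6) (nat_lit 5) (.split (nat_lit 5) (nat_lit 1) (.sup (nat_lit 0x500030005) (nat_lit 0x4000200050005000000000000)) (.non (nat_lit 0) (nat_lit 3) (nat_lit 0x2a04) (nat_lit 0x1000200010000000000020000))) (.non (nat_lit 0) (nat_lit 3) (nat_lit 0x2504) (nat_lit 0x1000200010000000000010000)))) (.cons (nat_lit 0x2222222222222222222222222222222222222222222222222222222222222222222222222222222222222222222222222222222222222222222222222222222222222222222222222222222222b23222222222222b232222222222222232c22222222222232c222222222222222222bc2222222222222b2b2222222222222cb2) .uj (.cons (nat_lit 0x22222222222222222222222222222222222222222222222222222222222222222222222222222222222222222222222222222222222222222222222222222222222222222b222aaa22222222b2322aaa22222222232322a22222222222325222222222222225222222222222aa2222bc22222222aaa22b2b22222222aa222cb2) t549 D4_204))))))))))))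

noncomputable def D4_180 : RL := (.skip (.skip (.skip (.skip (.cons (nat_lit 0x222222222222222222222222222222222222222222222222222222222222222222222222222222222222222222222222222222222222222222222222222222222222222222222222222222222222222222222222222bc2222222222222b2b2a22222222222cb222222222222222222bc22222222222a2b2b2222222222222cb2) (.split (nat_lit 4) (nat_lit 1) .uj (.split (nat_lit 5) (nat_lit 3) (.split (nat_lit 5) (nat_lit 4) (.split (nat_lit 4) (nat_lit 1) (.sup (nat_lit 0x500030005) (nat_lit 0x500030005000000000000)) (.st (nat_lit 0) (nat_lit 2) (nat_lit 3) (nat_lit 0xa05) (nat_lit 0x100020000000000030002) (nat_lit 1) (nat_lit 1) (.st (nat_lit 2) (nat_lit 0) (nat_lit 3) (nat_lit 0xa14) (nat_lit 0x100020000000200030000) (nat_lit 1) (nat_lit 1) (.pd (.cons (nat_lit 1) (nat_lit 3) (nat_lit 0x101) (nat_lit 0x440002) (nat_lit 0xf423fb71ae00000000010000000001) (.cons (nat_lit 1) (nat_lit 5) (nat_lit 0x11101) (nat_lit 0x34002) (nat_lit 0x100001000010000000001) .nil)) (.st (nat_lit 3) (nat_lit 0) (nat_lit 5) (nat_lit 0x294)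 (nat_lit 0x30002000200040000) (nat_lit 2) (nat_lit 1) (.st (nat_lit 5) (nat_lit 0) (nat_lit 3) (nat_lit 0xa14) (nat_lit 0x200030000000200040000) (nat_lit 2) (nat_lit 1) (.pd (.cons (nat_lit 0) (nat_lit 4) (nat_lit 0x110) (nat_lit 0x303120) (nat_lit 0xf423f000007a11e000010000100000) (.cons (nat_lit 1) (nat_lit 4) (nat_lit 0x101) (nat_lit 0x303002) (nat_lit 0xf423f000007a11e000010000000001) (.cons (nat_lit 2) (nat_lit 4) (nat_lit 0x11) (nat_lit 0x303001) (nat_lit 0xf423f000007a11e000000000100001) .nil))) (.leaf .nil .nil)))))))) (.sup (nat_lit 0xa0006000a) (nat_lit 0xa00050009000000000000))) (.sup (nat_lit 0x500030005) (nat_lit 0x500020005000000000000)))) (.cons (nat_lit 0x2222222222222222222222222222222222222222222222222222222222222222222222222222222222222222222222222222222222222222222222222222222222222222222222222222222222322aaa222222222325222222222222225232222222222222232222222222222a2222bc222222222a222b2b222222222a222cb2) (.split (nat_lit 6) (nat_lit 0) (.split (nat_lit 6) (nat_lit 1) (.split (nat_lit 6) (nat_lit 2) .uj (.non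 (nat_lit 0) (nat_lit 3) (nat_lit 0x1514) (nat_lit 0x3000400030000000200010000))) (.non (nat_lit 0) (nat_lit 3) (nat_lit 0x1514) (nat_lit 0x3000400030000000100020000))) (.non (nat_lit 2) (nat_lit 3) (nat_lit 0x1505) (nat_lit 0x3000400030000000000010002))) (.cons (nat_lit 0x22222222222222222222222222222222222222222222222222222222222222222222222222222222222222222222222222222222222222222222222222222222222222222222222222222222223222a222222222232522222222222222523222222222222223222222222222222222bc222222222a222b2b2222222222222cb2) (.split (nat_lit 6) (nat_lit 1) .uj (.non (nat_lit 0) (nat_lit 3) (nat_lit 0x1514) (nat_lit 0x3000400030000000100020000))) (.cons (nat_lit 0x222222222222222222222222222222222222222222222222222222222222222222222222222222222222222222222222222222222222222222222222222222222222222222222222222222222232222222222222232522222222222222523222222222222223222222222222222222bc2222222222222b2b2222222222222cb2) .uj (.cons (nat_lit 0x22222222222222222222222222222222222222222222222222222222222222222222222222222222222222222222222222222222222222222222222222222222222222222222222222222222223222a22222222223252222222222222252322222222222222322a222222222222222bc222222222a22ab2b2222222222222cb2)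 t534 (.cons (nat_lit 0x2222222222222222222222222222222222222222222222222222222222222222222222222222222222222222222222222222222222222222222222222222222222222222222222222222222222c22aaa222222222c23222222222222223252222222222222252222222222222a2222bc222222222a222b2b222222222a222cb2) (.split (nat_lit 6) (nat_lit 0) (.split (nat_lit 6) (nat_lit 1) (.split (nat_lit 6) (nat_lit 2) .uj (.non (nat_lit 0) (nat_lit 3) (nat_lit 0x1a14) (nat_lit 0x3000200010000000200010000))) (.non (nat_lit 0) (nat_lit 3) (nat_lit 0x1a14) (nat_lit 0x3000200010000000100020000))) (.non (nat_lit 2) (nat_lit 3) (nat_lit 0x1a05) (nat_lit 0x3000200010000000000010002))) (.cons (nat_lit 0x2222222222222222222222222222222222222222222222222222222222222222222222222222222222222222222222222222222222222222222222222222222222222222222222222222222222c222a2222222222c23222222222222223252a2222222222225222222222222222222bc222222222a2a2b2b2222222222222cb2) t536 (.cons (nat_lit 0x2222222222222222222222222222222222222222222222222222222222222222222222222222222222222222222222222222222222222222222222222222222222222222222222222222222222c22222222222222c2322222222222222325222222222222225222222222222222222bc2222222222222b2b2222222222222cb2)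 .uj D4_192))))))))))))

noncomputable def D4_168 : RL := (.cons (nat_lit 0x222222222222222222222222222222222222222222222222222222222222222222222222222222222222222222222222222222222222222222222222222222222222222223223a222222222232322aaa2222222223232a222222222222324222222222223224222222222222aaa222bc222222222a222b2b222222222a222cb2) (.split (nat_lit 7) (nat_lit 2) (.split (nat_lit 6) (nat_lit 0) (.split (nat_lit 6) (nat_lit 2) (.split (nat_lit 5) (nat_lit 2) (.split (nat_lit 6) (nat_lit 1) .uj (.sup (nat_lit 0x500030005) (nat_lit 0x30001000300050005000000000000))) (.non (nat_lit 1) (nat_lit 3) (nat_lit 0x2a21) (nat_lit 0x1000200010000000200000002))) (.non (nat_lit 1) (nat_lit 3) (nat_lit 0xa821) (nat_lit 0x10002000100000000000200000002))) (.non (nat_lit 1) (nat_lit 3) (nat_lit 0x5421) (nat_lit 0x10002000100000000000100000002))) (.non (nat_lit 1) (nat_lit 4) (nat_lit 0xa0a1) (nat_lit 0x20001000000000001000200000002))) (.cons (nat_lit 0x2222222222222222222222222222222222222222222222222222222222222222222222222222222222222222222222222222222222222222222222222222222222222222232232222222222232322a22222222222323222222222222223242222222222232242222222222222a2222bc2222222222222b2b2222222222222cb2)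 (.split (nat_lit 6) (nat_lit 2) .uj (.non (nat_lit 1) (nat_lit 3) (nat_lit 0xa821) (nat_lit 0x10002000100000000000200000002))) (.cons (nat_lit 0x222222222222222222222222222222222222222222222222222222222222222222222222222222222222222222222222222222222222222222222222222222222222222223223222222222223232222222222222232322222222222222324222222222223224222222222222222222bc2222222222222b2b2222222222222cb2) .uj (.cons (nat_lit 0x2222222222222222222222222222222222222222222222222222222222222222222222222222222222222222222222222222222222222222222222222222222222222222232232222222222232322a22222222222323222222222222223242222222222232242222222222222a2222bc2222222222222b2b2222222222222cb2) (.split (nat_lit 6) (nat_lit 2) .uj (.non (nat_lit 1) (nat_lit 3) (nat_lit 0xa821) (nat_lit 0x10002000100000000000200000002))) (.cons (nat_lit 0x222222222222222222222222222222222222222222222222222222222222222222222222222222222222222222222222222222222222222222222222222222222222222223223222222222223232222222222222232322222222222222324222222222223224222222222222222222bc2222222222222b2b2222222222222cb2)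 .uj (.cons (nat_lit 0x2222222222222222222222222222222222222222222222222222222222222222222222222222222222222222222222222222222222222222222222222222222222222222232232222222222232322a22222222222323222222222222223242222222222232242222222222222a2222bc2222222222222b2b2222222222222cb2) (.split (nat_lit 6) (nat_lit 2) .uj (.non (nat_lit 1) (nat_lit 5) (nat_lit 0xa1a1) (nat_lit 0x10001000000010001000100000001))) (.skip (.skip (.skip (.skip (.skip (.skip D4_180))))))))))))

noncomputable def D4_156 : RL := (.cons (nat_lit 0x22222222222222222222222222222222222222222222222222222222222222222222222222222222222222222222222222222222222222222222222222222222222222222b222a2222222222b23222222222222223232a222222222222325222222222222225222222222222a2a222bc2222222222222b2b2222222222222cb2) (.split (nat_lit 5) (nat_lit 2) (.split (nat_lit 7) (nat_lit 2) .uj (.split (nat_lit 7) (nat_lit 2) (.sup (nat_lit 0x80009000a) (nat_lit 0x100040007000a0008000000000000)) (.non (nat_lit 0) (nat_lit 4) (nat_lit 0xa814) (nat_lit 0x30002000100000000000400020000))))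 (.non (nat_lit 0) (nat_lit 6) (nat_lit 0x554) (nat_lit 0x300040003000200010000))) (.cons (nat_lit 0x22222222222222222222222222222222222222222222222222222222222222222222222222222222222222222222222222222222222222222222222222222222222222222b22222222222222b232222222222222232322222222222222325222222222222225222222222222222222bc2222222222222b2b2222222222222cb2) .uj (.cons (nat_lit 0x22222222222222222222222222222222222222222222222222222222222222222222222222222222222222222222222222222222222222222222222222222222222222222b222a2222222222b232222222222222232322222222222222325222222222222225222222222222a22222bc2222222222222b2b2222222222222cb2) (.split (nat_lit 7) (nat_lit 2) .uj (.split (nat_lit 7) (nat_lit 2) (.sup (nat_lit 0x80009000a) (nat_lit 0x100040007000a0008000000000000)) (.non (nat_lit 1) (nat_lit 5) (nat_lit 0x4021) (nat_lit 0x10000000000000000000100000001)))) (.cons (nat_lit 0x22222222222222222222222222222222222222222222222222222222222222222222222222222222222222222222222222222222222222222222222222222222222222222b22222222222222b232222222222222232322222222222222325222222222222225222222222222222222bc2222222222222b2b2222222222222cb2)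 .uj (.cons (nat_lit 0x22222222222222222222222222222222222222222222222222222222222222222222222222222222222222222222222222222222222222222222222222222222222222222b22222222222222b232222222222222232322222222222222325222222222222225222222222222222222bc2222222222222b2b2222222222222cb2) .uj (.cons (nat_lit 0x222222222222222222222222222222222222222222222222222222222222222222222222222222222222222222222222222222222222222222222222222222222222222222322aaa2222222222322aaa22222222332322222222222222325222222222222225222222222222aa2222bc22222222aa222b2b22222222aa222cb2) (.split (nat_lit 7) (nat_lit 0) (.split (nat_lit 7) (nat_lit 2) (.split (nat_lit 6) (nat_lit 0) (.split (nat_lit 6) (nat_lit 2) (.split (nat_lit 7) (nat_lit 1) (.split (nat_lit 6) (nat_lit 1) .uj (.sup (nat_lit 0xa0006000a) (nat_lit 0x300010007000a0008000000000000))) (.split (nat_lit 6) (nat_lit 1) (.sup (nat_lit 0xa0006000a) (nat_lit 0x100030007000a0008000000000000)) (.non (nat_lit 0) (nat_lit 3) (nat_lit 0x5404) (nat_lit 0x10001000100000000000000010000)))) (.non (nat_lit 1)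 (nat_lit 3) (nat_lit 0xaa21) (nat_lit 0x10002000200010000000200000002))) (.non (nat_lit 1) (nat_lit 3) (nat_lit 0x5521) (nat_lit 0x10002000200010000000100000002))) (.non (nat_lit 1) (nat_lit 3) (nat_lit 0xaa21) (nat_lit 0x20001000200010000000200000002))) (.non (nat_lit 1) (nat_lit 3) (nat_lit 0x5521) (nat_lit 0x20001000200010000000100000002))) (.cons (nat_lit 0x222222222222222222222222222222222222222222222222222222222222222222222222222222222222222222222222222222222222222222222222222222222222222222322a222222222222322a2222222222332322222222222222325a22222222222225222222222222aa2a22bc2222222222222b2b2222222222222cb2) (.split (nat_lit 7) (nat_lit 2) (.split (nat_lit 6) (nat_lit 2) (.split (nat_lit 4) (nat_lit 2) .uj (.non (nat_lit 1) (nat_lit 3) (nat_lit 0xaa21) (nat_lit 0x10001000200020000000200000002))) (.non (nat_lit 1) (nat_lit 3) (nat_lit 0xaa21) (nat_lit 0x10002000200010000000200000002))) (.non (nat_lit 1) (nat_lit 3) (nat_lit 0xaa21) (nat_lit 0x20001000200010000000200000002))) (.cons (nat_lit 0x222222222222222222222222222222222222222222222222222222222222222222222222222222222222222222222222222222222222222222222222222222222222222222322222222222222232222222222222332322222222222222325222222222222225222222222222222222bc2222222222222b2b2222222222222cb2)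 .uj (.cons (nat_lit 0x222222222222222222222222222222222222222222222222222222222222222222222222222222222222222222222222222222222222222222222222222222222222222222322a222222222222322a22222222223323222222222222223252222222222222252a2222222222aa22a2bc2222222222222b2b2222222222222cb2) (.split (nat_lit 3) (nat_lit 2) (.split (nat_lit 7) (nat_lit 2) (.split (nat_lit 6) (nat_lit 2) .uj (.sup (nat_lit 0x80009000a) (nat_lit 0x300010007000a0008000000000000))) (.split (nat_lit 6) (nat_lit 2) (.sup (nat_lit 0x80009000a) (nat_lit 0x100030007000a0008000000000000)) (.non (nat_lit 0) (nat_lit 4) (nat_lit 0x5410) (nat_lit 0x10001000100000000000100000000)))) (.non (nat_lit 1) (nat_lit 5) (nat_lit 0x151) (nat_lit 0x10001000100000001))) (.cons (nat_lit 0x222222222222222222222222222222222222222222222222222222222222222222222222222222222222222222222222222222222222222222222222222222222222222222322222222222222232222222222222332322222222222222325222222222222225222222222222222222bc2222222222222b2b2222222222222cb2) .uj (.cons (nat_lit 0x222222222222222222222222222222222222222222222222222222222222222222222222222222222222222222222222222222222222222222222222222222222222222222322222222222222232222222222222332322222222222222325222222222222225222222222222222222bc2222222222222b2b2222222222222cb2)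 .uj (.cons (nat_lit 0x222222222222222222222222222222222222222222222222222222222222222222222222222222222222222222222222222222222222222222222222222222222222222222322222222222222232222222222222332322222222222222325222222222222225222222222222222222bc2222222222222b2b2222222222222cb2) .uj D4_168))))))))))))

noncomputable def D4_144 : RL := (.cons (nat_lit 0x2222222222222222222222222222222222222222222222222222222222222222222222222222222222222222222222222222222222222222222222222222222222222222222222222222222222232aaa222222222223222222222222233252222222222222252222222222222a2222bc222222222a222b2b222222222a222cb2) (.split (nat_lit 6) (nat_lit 0) (.split (nat_lit 6) (nat_lit 1) (.split (nat_lit 6) (nat_lit 2) .uj (.non (nat_lit 0) (nat_lit 5) (nat_lit 0x1154) (nat_lit 0x3000000040003000200010000))) (.non (nat_lit 0) (nat_lit 5) (nat_lit 0x1154) (nat_lit 0x3000000040003000100020000))) (.non (nat_lit 1) (nat_lit 5) (nat_lit 0x1151) (nat_lit 0x1000000010001000100000001))) (.cons (nat_lit 0x2222222222222222222222222222222222222222222222222222222222222222222222222222222222222222222222222222222222222222222222222222222222222222222222222222222222232a22222222222223222222222222233252222222222222252222222222222a2222bc2222222222222b2b2222222222222cb2)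 (.split (nat_lit 6) (nat_lit 2) .uj (.non (nat_lit 0) (nat_lit 5) (nat_lit 0x1154) (nat_lit 0x3000000040003000200010000))) (.cons (nat_lit 0x222222222222222222222222222222222222222222222222222222222222222222222222222222222222222222222222222222222222222222222222222222222222222222222222222222222223222222222222222322222222222223325222222222222225222222222222222222bc2222222222222b2b2222222222222cb2) .uj (.cons (nat_lit 0x2222222222222222222222222222222222222222222222222222222222222222222222222222222222222222222222222222222222222222222222222222222222222222222222222222222222b23a22222222222b232a22222222222232c22222222222232c2222222222222aa222bc2222222222222b2b2222222222222cb2) (.split (nat_lit 6) (nat_lit 2) (.split (nat_lit 5) (nat_lit 2) .uj (.non (nat_lit 1) (nat_lit 3) (nat_lit 0x2a21) (nat_lit 0x1000200010000000200000002))) (.non (nat_lit 1) (nat_lit 4) (nat_lit 0x28a1) (nat_lit 0x2000100000001000200000002))) (.cons (nat_lit 0x2222222222222222222222222222222222222222222222222222222222222222222222222222222222222222222222222222222222222222222222222222222222222222222222222222222222b23a22222222222b232222222222222232ca2222222222232c2222222222222a2a22bc2222222222222b2b2222222222222cb2)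 (.split (nat_lit 6) (nat_lit 2) (.split (nat_lit 4) (nat_lit 2) .uj (.non (nat_lit 0) (nat_lit 5) (nat_lit 0x2194) (nat_lit 0x1000000030002000200010000))) (.non (nat_lit 1) (nat_lit 5) (nat_lit 0x21a1) (nat_lit 0x1000000010001000100000001))) (.cons (nat_lit 0x2222222222222222222222222222222222222222222222222222222222222222222222222222222222222222222222222222222222222222222222222222222222222222222222222222222222b23222222222222b232a22222222222232c22222222222232c22222222222222a222bc2222222222222b2b2222222222222cb2) (.split (nat_lit 5) (nat_lit 2) .uj (.non (nat_lit 1) (nat_lit 3) (nat_lit 0x2a21) (nat_lit 0x1000200010000000200000002))) (.cons (nat_lit 0x2222222222222222222222222222222222222222222222222222222222222222222222222222222222222222222222222222222222222222222222222222222222222222222222222222222222b23222222222222b232222222222222232c22222222222232c222222222222222222bc2222222222222b2b2222222222222cb2) .uj (.cons (nat_lit 0x22222222222222222222222222222222222222222222222222222222222222222222222222222222222222222222222222222222222222222222222222222222222222222b222aaa22222222b2322aaa2222222223232a222222222222325222222222222225222222222222aaa222bc22222222aa222b2b22222222aa222cb2)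 t497 (.cons (nat_lit 0x22222222222222222222222222222222222222222222222222222222222222222222222222222222222222222222222222222222222222222222222222222222222222222b222aaa22222222b2322a2222222222232322222222222222325a22222222222225222222222222aa2a22bc22222222a2222b2b22222222a2222cb2) t498 (.cons (nat_lit 0x22222222222222222222222222222222222222222222222222222222222222222222222222222222222222222222222222222222222222222222222222222222222222222b222a2222222222b23222222222222223232a222222222222325222222222222225222222222222a2a222bc2222222222222b2b2222222222222cb2) (.split (nat_lit 5) (nat_lit 2) (.split (nat_lit 7) (nat_lit 2) .uj (.split (nat_lit 7) (nat_lit 2) (.sup (nat_lit 0x80009000a) (nat_lit 0x100040007000a0008000000000000)) (.non (nat_lit 0) (nat_lit 3) (nat_lit 0xa814) (nat_lit 0x30002000100000000000400020000)))) (.non (nat_lit 0) (nat_lit 6) (nat_lit 0x554) (nat_lit 0x300040003000200010000))) (.cons (nat_lit 0x22222222222222222222222222222222222222222222222222222222222222222222222222222222222222222222222222222222222222222222222222222222222222222b22222222222222b232222222222222232322222222222222325222222222222225222222222222222222bc2222222222222b2b2222222222222cb2)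 .uj (.cons (nat_lit 0x22222222222222222222222222222222222222222222222222222222222222222222222222222222222222222222222222222222222222222222222222222222222222222b222aaa22222222b2322a22222222222323222222222222223252222222222222252a2222222222aa22a2bc22222222a2222b2b22222222a2222cb2) t501 D4_156))))))))))))

noncomputable def D4_132 : RL := (.cons (nat_lit 0x222222222222222222222222222222222222222222222222222222222222222222222222222222222222222222222222222222222222222222222222222222222222222222222222222222222222222222222222222bc2222222222222b2ba222222222222cb222222222222222a22bc2222222222222b2b2222222222222cb2) (.split (nat_lit 4) (nat_lit 2) .uj (.split (nat_lit 5) (nat_lit 3) (.split (nat_lit 5) (nat_lit 4) (.split (nat_lit 4) (nat_lit 2) (.sup (nat_lit 0x400040005) (nat_lit 0x500030005000000000000)) (.non (nat_lit 1) (nat_lit 3) (nat_lit 0x121) (nat_lit 0x10000000100000001))) (.non (nat_lit 1) (nat_lit 3) (nat_lit 0x621) (nat_lit 0x100010000000100000001))) (.split (nat_lit 5) (nat_lit 3) (.split (nat_lit 5) (nat_lit 4) (.split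 (nat_lit 4) (nat_lit 2) (.sup (nat_lit 0x400040005) (nat_lit 0x500020005000000000000)) (.non (nat_lit 1) (nat_lit 3) (nat_lit 0x121) (nat_lit 0x10000000100000001))) (.non (nat_lit 1) (nat_lit 3) (nat_lit 0x621) (nat_lit 0x100010000000100000001))) (.sup (nat_lit 0x400040005) (nat_lit 0x500010005000000000000))))) (.cons (nat_lit 0x2222222222222222222222222222222222222222222222222222222222222222222222222222222222222222222222222222222222222222222222222222222222222222222222222222222222322aaa222222222325222222222222225232222222222222232222222222222a2222bc222222222a222b2b222222222a222cb2) (.split (nat_lit 6) (nat_lit 0) (.split (nat_lit 6) (nat_lit 1) (.split (nat_lit 6) (nat_lit 2) .uj (.non (nat_lit 0) (nat_lit 3) (nat_lit 0x1514) (nat_lit 0x3000400030000000200010000))) (.non (nat_lit 0) (nat_lit 3) (nat_lit 0x1514) (nat_lit 0x3000400030000000100020000))) (.non (nat_lit 1) (nat_lit 3) (nat_lit 0x1511) (nat_lit 0x1000100010000000100000001))) (.cons (nat_lit 0x2222222222222222222222222222222222222222222222222222222222222222222222222222222222222222222222222222222222222222222222222222222222222222222222222222222222322a22222222222325222222222222225232222222222222232222222222222a2222bc2222222222222b2b2222222222222cb2)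 (.split (nat_lit 6) (nat_lit 2) .uj (.non (nat_lit 0) (nat_lit 3) (nat_lit 0x1514) (nat_lit 0x3000400030000000200010000))) (.cons (nat_lit 0x222222222222222222222222222222222222222222222222222222222222222222222222222222222222222222222222222222222222222222222222222222222222222222222222222222222232222222222222232522222222222222523222222222222223222222222222222222bc2222222222222b2b2222222222222cb2) .uj (.cons (nat_lit 0x2222222222222222222222222222222222222222222222222222222222222222222222222222222222222222222222222222222222222222222222222222222222222222222222222222222222322a22222222222325222222222222225232222222222222232a22222222222a22a2bc2222222222222b2b2222222222222cb2) (.split (nat_lit 6) (nat_lit 2) (.split (nat_lit 3) (nat_lit 2) .uj (.split (nat_lit 3) (nat_lit 2) (.sup (nat_lit 0x80009000a) (nat_lit 0x5000a00090002000000000000)) (.non (nat_lit 1) (nat_lit 4) (nat_lit 0x61) (nat_lit 0x1000100000001)))) (.split (nat_lit 3) (nat_lit 2) (.split (nat_lit 6) (nat_lit 2) (.sup (nat_lit 0x80009000a) (nat_lit 0x20009000a0005000000000000))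 (.non (nat_lit 1) (nat_lit 4) (nat_lit 0x1021) (nat_lit 0x1000000000000000100000001))) (.non (nat_lit 1) (nat_lit 4) (nat_lit 0x20a1) (nat_lit 0x1000000000001000200000002)))) (.cons (nat_lit 0x2222222222222222222222222222222222222222222222222222222222222222222222222222222222222222222222222222222222222222222222222222222222222222222222222222222222c22aaa222222222c23222222222222223252222222222222252222222222222a2222bc222222222a222b2b222222222a222cb2) (.split (nat_lit 6) (nat_lit 0) (.split (nat_lit 6) (nat_lit 1) (.split (nat_lit 6) (nat_lit 2) .uj (.non (nat_lit 0) (nat_lit 3) (nat_lit 0x1a14) (nat_lit 0x3000200010000000200010000))) (.non (nat_lit 0) (nat_lit 3) (nat_lit 0x1a14) (nat_lit 0x3000200010000000100020000))) (.non (nat_lit 1) (nat_lit 3) (nat_lit 0x1821) (nat_lit 0x2000100000000000100000002))) (.cons (nat_lit 0x2222222222222222222222222222222222222222222222222222222222222222222222222222222222222222222222222222222222222222222222222222222222222222222222222222222222c22a22222222222c2322222222222222325a222222222222252222222222222a2a22bc2222222222222b2b2222222222222cb2)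 (.split (nat_lit 6) (nat_lit 2) (.split (nat_lit 4) (nat_lit 2) .uj (.non (nat_lit 1) (nat_lit 3) (nat_lit 0x1a21) (nat_lit 0x1000100010000000100000001))) (.non (nat_lit 0) (nat_lit 3) (nat_lit 0x1a14) (nat_lit 0x3000200010000000200010000))) (.cons (nat_lit 0x2222222222222222222222222222222222222222222222222222222222222222222222222222222222222222222222222222222222222222222222222222222222222222222222222222222222c22222222222222c2322222222222222325222222222222225222222222222222222bc2222222222222b2b2222222222222cb2) .uj (.cons (nat_lit 0x2222222222222222222222222222222222222222222222222222222222222222222222222222222222222222222222222222222222222222222222222222222222222222222222222222222222c22a22222222222c23222222222222223252222222222222252a22222222222a22a2bc2222222222222b2b2222222222222cb2) (.split (nat_lit 6) (nat_lit 2) (.split (nat_lit 3) (nat_lit 2) .uj (.non (nat_lit 1) (nat_lit 5) (nat_lit 0x151) (nat_lit 0x10001000100000001))) (.non (nat_lit 1) (nat_lit 4) (nat_lit 0x2421) (nat_lit 0x1000100000000000100000001))) (.cons (nat_lit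 0x2222222222222222222222222222222222222222222222222222222222222222222222222222222222222222222222222222222222222222222222222222222222222222222222222222222222c22222222222222c232a22222222222232522222222222222522222222222222a222bc2222222222222b2b2222222222222cb2) (.split (nat_lit 5) (nat_lit 2) .uj (.non (nat_lit 0) (nat_lit 6) (nat_lit 0x554) (nat_lit 0x300040003000200010000))) (.cons (nat_lit 0x2222222222222222222222222222222222222222222222222222222222222222222222222222222222222222222222222222222222222222222222222222222222222222222222222222222222c22222222222222c2322222222222222325222222222222225222222222222222222bc2222222222222b2b2222222222222cb2) .uj (.cons (nat_lit 0x2222222222222222222222222222222222222222222222222222222222222222222222222222222222222222222222222222222222222222222222222222222222222222222222222222222222232a222222222222232a2222222222233252222222222222252222222222222aa222bc2222222222222b2b2222222222222cb2) (.split (nat_lit 6) (nat_lit 2) (.split (nat_lit 5) (nat_lit 2) .uj (.split (nat_lit 5) (nat_lit 2) (.sup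 (nat_lit 0x400040005) (nat_lit 0x3000100050004000000000000)) (.non (nat_lit 0) (nat_lit 3) (nat_lit 0x2a14) (nat_lit 0x1000300020000000400020000)))) (.split (nat_lit 5) (nat_lit 2) (.split (nat_lit 6) (nat_lit 2) (.sup (nat_lit 0x400040005) (nat_lit 0x1000300050004000000000000)) (.non (nat_lit 0) (nat_lit 3) (nat_lit 0x2a14) (nat_lit 0x3000100020000000400020000))) (.non (nat_lit 0) (nat_lit 3) (nat_lit 0x1510) (nat_lit 0x1000100010000000100000000)))) D4_144))))))))))))

noncomputable def D4_120 : RL := (.cons (nat_lit 0x222222222222222222222222222222222222222222222222222222222222222222222222222222222222222222222222222222222222222222222222222222222222222223223222222222223232222222222222232322222222222222324222222222223224222222222222222222d22222222222222d2d22222222222222d2) .uj (.cons (nat_lit 0x22222222222222222222222222222222222222222222222222222222222222222222222222222222222222222222222222222222222222222222222222222222222222222322322222222222323222a222222222232322222222222222324222222222223224222222222222222222d2222222222a222d2d22222222222222d2)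 (.split (nat_lit 6) (nat_lit 1) .uj (.non (nat_lit 0) (nat_lit 5) (nat_lit 0x5054) (nat_lit 0x20003000000000001000300040000))) (.skip (.skip (.skip (.skip (.skip (.skip (.skip (.skip (.skip (.cons (nat_lit 0x222222222222222222222222222222222222222222222222222222222222222222222222222222222222222222222222222222222222222222222222222222222222222222222222222222222222222222222222222bca222222222222b2b2222222222222cb22222222222222a222bc2222222222222b2b2222222222222cb2) (.split (nat_lit 5) (nat_lit 2) .uj (.non (nat_lit 1) (nat_lit 4) (nat_lit 0x861) (nat_lit 0x100000001000100000001))) D4_132))))))))))))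

noncomputable def D4_108 : RL := (.cons (nat_lit 0x22222222222222222222222222222222222222222222222222222222222222222222222222222222222222222222222222222222222222222222222222222222222222222b22222222222222b232222222222222232322222222222222325222222222222225222222222222222222d22222222222222d2d22222222222222d2) .uj (.cons (nat_lit 0x222222222222222222222222222222222222222222222222222222222222222222222222222222222222222222222222222222222222222222222222222222222222222222322aaa2222222222322aaa22222222332322222222222222325222222222222225222222222222aa2222d222222222aa222d2d22222222aa2222d2) (.split (nat_lit 7) (nat_lit 0) (.split (nat_lit 7) (nat_lit 1) (.split (nat_lit 7) (nat_lit 2) (.split (nat_lit 6) (nat_lit 0) (.split (nat_lit 6) (nat_lit 1) (.split (nat_lit 6) (nat_lit 2) .uj (.non (nat_lit 0) (nat_lit 3) (nat_lit 0x5414) (nat_lit 0x10003000200000000000400030000))) (.non (nat_lit 0) (nat_lit 3) (nat_lit 0x5414) (nat_lit 0x10003000200000000000300040000))) (.non (nat_lit 2) (nat_lit 3) (nat_lit 0x5405) (nat_lit 0x10003000200000000000000030004)))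 (.non (nat_lit 0) (nat_lit 3) (nat_lit 0x5414) (nat_lit 0x30001000200000000000400030000))) (.non (nat_lit 0) (nat_lit 3) (nat_lit 0x5414) (nat_lit 0x30001000200000000000300040000))) (.non (nat_lit 2) (nat_lit 3) (nat_lit 0x5405) (nat_lit 0x30001000200000000000000030004))) (.cons (nat_lit 0x2222222222222222222222222222222222222222222222222222222222222222222222222222222222222222222222222222222222222222222222222222222222222222223222a222222222223222a2222222223323222222222222223252a2222222222225222222222222222222d222222222aa2a2d2d22222222222222d2) (.split (nat_lit 7) (nat_lit 1) (.split (nat_lit 6) (nat_lit 1) (.split (nat_lit 4) (nat_lit 1) .uj (.non (nat_lit 0) (nat_lit 3) (nat_lit 0x4514) (nat_lit 0x10000000200030000000300040000))) (.non (nat_lit 0) (nat_lit 3) (nat_lit 0x5414) (nat_lit 0x10003000200000000000300040000))) (.non (nat_lit 0) (nat_lit 3) (nat_lit 0x5414) (nat_lit 0x30001000200000000000300040000))) (.cons (nat_lit 0x222222222222222222222222222222222222222222222222222222222222222222222222222222222222222222222222222222222222222222222222222222222222222222322222222222222232222222222222332322222222222222325222222222222225222222222222222222d22222222222222d2d22222222222222d2)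 .uj (.cons (nat_lit 0x2222222222222222222222222222222222222222222222222222222222222222222222222222222222222222222222222222222222222222222222222222222222222222223222a222222222223222a22222222233232222222222222232522222222222222522a222222222222222d222222222aa22ad2d22222222222222d2) (.split (nat_lit 7) (nat_lit 1) (.split (nat_lit 6) (nat_lit 1) (.split (nat_lit 3) (nat_lit 1) .uj (.non (nat_lit 0) (nat_lit 5) (nat_lit 0x154) (nat_lit 0x10001000100010000))) (.non (nat_lit 0) (nat_lit 4) (nat_lit 0x5414) (nat_lit 0x10003000200000000000300040000))) (.non (nat_lit 0) (nat_lit 4) (nat_lit 0x5414) (nat_lit 0x30001000200000000000300040000))) (.cons (nat_lit 0x222222222222222222222222222222222222222222222222222222222222222222222222222222222222222222222222222222222222222222222222222222222222222222322222222222222232222222222222332322222222222222325222222222222225222222222222222222d22222222222222d2d22222222222222d2) .uj (.cons (nat_lit 0x222222222222222222222222222222222222222222222222222222222222222222222222222222222222222222222222222222222222222222222222222222222222222222322222222222222232222222222222332322222222222222325222222222222225222222222222222222d22222222222222d2d22222222222222d2)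 .uj (.cons (nat_lit 0x222222222222222222222222222222222222222222222222222222222222222222222222222222222222222222222222222222222222222222222222222222222222222222322222222222222232222222222222332322222222222222325222222222222225222222222222222222d22222222222222d2d22222222222222d2) .uj (.cons (nat_lit 0x2222222222222222222222222222222222222222222222222222222222222222222222222222222222222222222222222222222222222222222222222222222222222222232232a22222222232322aaa22222222232322a222222222223242222222222232242222222222222a2222d222222222aaa22d2d222222222a2222d2) (.split (nat_lit 7) (nat_lit 1) (.split (nat_lit 6) (nat_lit 0) (.split (nat_lit 6) (nat_lit 1) (.split (nat_lit 6) (nat_lit 2) (.split (nat_lit 5) (nat_lit 1) .uj (.non (nat_lit 0) (nat_lit 3) (nat_lit 0x5414) (nat_lit 0x10002000300000000000300040000))) (.non (nat_lit 0) (nat_lit 3) (nat_lit 0x5414) (nat_lit 0x10002000100000000000200020000))) (.non (nat_lit 0) (nat_lit 3) (nat_lit 0x5414) (nat_lit 0x10002000100000000000200020000))) (.non (nat_lit 2) (nat_lit 3) (nat_lit 0x5405)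 (nat_lit 0x10002000100000000000000020002))) (.non (nat_lit 0) (nat_lit 3) (nat_lit 0x5414) (nat_lit 0x30002000100000000000300040000))) (.cons (nat_lit 0x22222222222222222222222222222222222222222222222222222222222222222222222222222222222222222222222222222222222222222222222222222222222222222322322222222222323222a222222222232322222222222222324222222222223224222222222222222222d2222222222a222d2d22222222222222d2) (.split (nat_lit 6) (nat_lit 1) .uj (.non (nat_lit 0) (nat_lit 3) (nat_lit 0x5414) (nat_lit 0x10002000100000000000200020000))) (.cons (nat_lit 0x222222222222222222222222222222222222222222222222222222222222222222222222222222222222222222222222222222222222222222222222222222222222222223223222222222223232222222222222232322222222222222324222222222223224222222222222222222d22222222222222d2d22222222222222d2) .uj (.cons (nat_lit 0x22222222222222222222222222222222222222222222222222222222222222222222222222222222222222222222222222222222222222222222222222222222222222222322322222222222323222a222222222232322222222222222324222222222223224222222222222222222d2222222222a222d2d22222222222222d2)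 (.split (nat_lit 6) (nat_lit 1) .uj (.non (nat_lit 0) (nat_lit 3) (nat_lit 0x5414) (nat_lit 0x10002000100000000000200020000))) D4_120))))))))))))

noncomputable def D4_96 : RL := (.cons (nat_lit 0x2222222222222222222222222222222222222222222222222222222222222222222222222222222222222222222222222222222222222222222222222222222222222222222222222222222222b232a2222222222b232222222222222232c2a222222222232c222222222222222222d2222222222a2a2d2d22222222222222d2) (.split (nat_lit 6) (nat_lit 1) (.split (nat_lit 4) (nat_lit 1) .uj (.non (nat_lit 0) (nat_lit 3) (nat_lit 0x1514) (nat_lit 0x1000200030000000300040000))) (.non (nat_lit 0) (nat_lit 3) (nat_lit 0x1514) (nat_lit 0x3000200010000000300040000))) (.cons (nat_lit 0x2222222222222222222222222222222222222222222222222222222222222222222222222222222222222222222222222222222222222222222222222222222222222222222222222222222222b23222222222222b2322a2222222222232c22222222222232c222222222222222222d22222222222a22d2d22222222222222d2) (.split (nat_lit 5) (nat_lit 1) .uj (.non (nat_lit 0) (nat_lit 3) (nat_lit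 0x1514) (nat_lit 0x1000200010000000200020000))) (.cons (nat_lit 0x2222222222222222222222222222222222222222222222222222222222222222222222222222222222222222222222222222222222222222222222222222222222222222222222222222222222b23222222222222b232222222222222232c22222222222232c222222222222222222d22222222222222d2d22222222222222d2) .uj (.cons (nat_lit 0x22222222222222222222222222222222222222222222222222222222222222222222222222222222222222222222222222222222222222222222222222222222222222222b222aaa22222222b2322aaa22222222232322a22222222222325222222222222225222222222222aa2222d222222222aaa22d2d22222222aa2222d2) (.split (nat_lit 7) (nat_lit 0) (.split (nat_lit 7) (nat_lit 1) (.split (nat_lit 7) (nat_lit 2) (.split (nat_lit 6) (nat_lit 0) (.split (nat_lit 6) (nat_lit 1) (.split (nat_lit 6) (nat_lit 2) (.split (nat_lit 5) (nat_lit 1) .uj (.non (nat_lit 0) (nat_lit 3) (nat_lit 0x5414) (nat_lit 0x10002000300000000000300040000))) (.non (nat_lit 0) (nat_lit 3) (nat_lit 0x5414) (nat_lit 0x10002000100000000000200020000))) (.non (nat_lit 0) (nat_lit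 3) (nat_lit 0x5414) (nat_lit 0x10002000100000000000200020000))) (.non (nat_lit 2) (nat_lit 3) (nat_lit 0x5405) (nat_lit 0x10002000100000000000000020002))) (.non (nat_lit 0) (nat_lit 3) (nat_lit 0x5414) (nat_lit 0x30002000100000000000400030000))) (.non (nat_lit 0) (nat_lit 3) (nat_lit 0x5414) (nat_lit 0x30002000100000000000300040000))) (.non (nat_lit 2) (nat_lit 3) (nat_lit 0x5405) (nat_lit 0x30002000100000000000000030004))) (.cons (nat_lit 0x22222222222222222222222222222222222222222222222222222222222222222222222222222222222222222222222222222222222222222222222222222222222222222b222aaa22222222b23222a2222222222323222222222222223252a2222222222225222222222222a22222d222222222aa2a2d2d22222222a22222d2) (.split (nat_lit 7) (nat_lit 0) (.split (nat_lit 7) (nat_lit 1) (.split (nat_lit 7) (nat_lit 2) (.split (nat_lit 6) (nat_lit 1) (.split (nat_lit 4) (nat_lit 1) .uj (.non (nat_lit 0) (nat_lit 3) (nat_lit 0x1514) (nat_lit 0x1000200030000000300040000))) (.non (nat_lit 0) (nat_lit 3) (nat_lit 0x5414) (nat_lit 0x10002000100000000000200020000)))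 (.non (nat_lit 0) (nat_lit 3) (nat_lit 0x5414) (nat_lit 0x30002000100000000000400030000))) (.non (nat_lit 0) (nat_lit 3) (nat_lit 0x5414) (nat_lit 0x30002000100000000000300040000))) (.non (nat_lit 2) (nat_lit 3) (nat_lit 0x5405) (nat_lit 0x30002000100000000000000030004))) (.cons (nat_lit 0x22222222222222222222222222222222222222222222222222222222222222222222222222222222222222222222222222222222222222222222222222222222222222222b2222a222222222b232222222222222232322a22222222222325222222222222225222222222222222222d222222222a2a22d2d22222222222222d2) (.split (nat_lit 7) (nat_lit 1) (.split (nat_lit 5) (nat_lit 1) .uj (.non (nat_lit 0) (nat_lit 3) (nat_lit 0x5414) (nat_lit 0x10002000300000000000300040000))) (.non (nat_lit 0) (nat_lit 3) (nat_lit 0x5414) (nat_lit 0x30002000100000000000300040000))) (.cons (nat_lit 0x22222222222222222222222222222222222222222222222222222222222222222222222222222222222222222222222222222222222222222222222222222222222222222b22222222222222b232222222222222232322222222222222325222222222222225222222222222222222d22222222222222d2d22222222222222d2)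 .uj (.cons (nat_lit 0x22222222222222222222222222222222222222222222222222222222222222222222222222222222222222222222222222222222222222222222222222222222222222222b222aaa22222222b23222a22222222223232222222222222232522222222222222522a222222222a22222d222222222aa22ad2d22222222a22222d2) (.split (nat_lit 7) (nat_lit 0) (.split (nat_lit 7) (nat_lit 1) (.split (nat_lit 7) (nat_lit 2) (.split (nat_lit 6) (nat_lit 1) (.split (nat_lit 3) (nat_lit 1) .uj (.non (nat_lit 0) (nat_lit 5) (nat_lit 0x154) (nat_lit 0x10001000100010000))) (.non (nat_lit 0) (nat_lit 4) (nat_lit 0x5414) (nat_lit 0x10002000100000000000200020000))) (.non (nat_lit 0) (nat_lit 4) (nat_lit 0x5414) (nat_lit 0x30002000100000000000400030000))) (.non (nat_lit 0) (nat_lit 4) (nat_lit 0x5414) (nat_lit 0x30002000100000000000300040000))) (.non (nat_lit 2) (nat_lit 4) (nat_lit 0x5405) (nat_lit 0x30002000100000000000000030004))) (.cons (nat_lit 0x22222222222222222222222222222222222222222222222222222222222222222222222222222222222222222222222222222222222222222222222222222222222222222b2222a222222222b232222222222222232322a22222222222325222222222222225222222222222222222d222222222a2a22d2d22222222222222d2)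 (.split (nat_lit 7) (nat_lit 1) (.split (nat_lit 5) (nat_lit 1) .uj (.non (nat_lit 0) (nat_lit 4) (nat_lit 0x5414) (nat_lit 0x10002000300000000000300040000))) (.non (nat_lit 0) (nat_lit 4) (nat_lit 0x5414) (nat_lit 0x30002000100000000000300040000))) (.cons (nat_lit 0x22222222222222222222222222222222222222222222222222222222222222222222222222222222222222222222222222222222222222222222222222222222222222222b22222222222222b232222222222222232322222222222222325222222222222225222222222222222222d22222222222222d2d22222222222222d2) .uj (.cons (nat_lit 0x22222222222222222222222222222222222222222222222222222222222222222222222222222222222222222222222222222222222222222222222222222222222222222b2222a222222222b232222222222222232322222222222222325222222222222225222222222222222222d222222222a2222d2d22222222222222d2) (.split (nat_lit 7) (nat_lit 1) .uj (.split (nat_lit 7) (nat_lit 1) (.sup (nat_lit 0x8000a0008) (nat_lit 0x100040007000a0008000000000000)) (.non (nat_lit 0) (nat_lit 5) (nat_lit 0x4014) (nat_lit 0x10000000000000000000100010000)))) (.cons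 (nat_lit 0x22222222222222222222222222222222222222222222222222222222222222222222222222222222222222222222222222222222222222222222222222222222222222222b22222222222222b232222222222222232322222222222222325222222222222225222222222222222222d22222222222222d2d22222222222222d2) .uj D4_108))))))))))))

noncomputable def D4_84 : RL := (.cons (nat_lit 0x22222222222222222222222222222222222222222222222222222222222222222222222222222222222222222222222222222222222222222222222222222222222222222222222222222222223222a22222222223252222222222222252322222222222222322a222222222222222d2222222222a22ad2d22222222222222d2) (.split (nat_lit 6) (nat_lit 1) (.split (nat_lit 3) (nat_lit 1) .uj (.split (nat_lit 3) (nat_lit 1) (.sup (nat_lit 0x8000a0008) (nat_lit 0x5000a00090002000000000000)) (.non (nat_lit 0) (nat_lit 4) (nat_lit 0x54) (nat_lit 0x1000100010000)))) (.split (nat_lit 3) (nat_lit 1) (.split (nat_lit 6) (nat_lit 1) (.sup (nat_lit 0x8000a0008) (nat_lit 0x20009000a0005000000000000)) (.non (nat_lit 0) (nat_lit 4) (nat_lit 0x1014) (nat_lit 0x1000000000000000100010000)))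 (.non (nat_lit 0) (nat_lit 4) (nat_lit 0x1054) (nat_lit 0x1000000000001000200020000)))) (.cons (nat_lit 0x2222222222222222222222222222222222222222222222222222222222222222222222222222222222222222222222222222222222222222222222222222222222222222222222222222222222c22aaa222222222c23222222222222223252222222222222252222222222222a2222d2222222222a222d2d222222222a2222d2) (.split (nat_lit 6) (nat_lit 0) (.split (nat_lit 6) (nat_lit 1) (.split (nat_lit 6) (nat_lit 2) .uj (.non (nat_lit 0) (nat_lit 3) (nat_lit 0x1414) (nat_lit 0x1000100000000000100010000))) (.non (nat_lit 0) (nat_lit 3) (nat_lit 0x1414) (nat_lit 0x1000100000000000100010000))) (.non (nat_lit 2) (nat_lit 3) (nat_lit 0x1405) (nat_lit 0x1000100000000000000010001))) (.cons (nat_lit 0x2222222222222222222222222222222222222222222222222222222222222222222222222222222222222222222222222222222222222222222222222222222222222222222222222222222222c222a2222222222c23222222222222223252a2222222222225222222222222222222d2222222222a2a2d2d22222222222222d2) (.split (nat_lit 6) (nat_lit 1) (.split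 (nat_lit 4) (nat_lit 1) .uj (.non (nat_lit 0) (nat_lit 3) (nat_lit 0x1514) (nat_lit 0x1000100010000000100010000))) (.non (nat_lit 0) (nat_lit 3) (nat_lit 0x1414) (nat_lit 0x1000100000000000100010000))) (.cons (nat_lit 0x2222222222222222222222222222222222222222222222222222222222222222222222222222222222222222222222222222222222222222222222222222222222222222222222222222222222c22222222222222c2322222222222222325222222222222225222222222222222222d22222222222222d2d22222222222222d2) .uj (.cons (nat_lit 0x2222222222222222222222222222222222222222222222222222222222222222222222222222222222222222222222222222222222222222222222222222222222222222222222222222222222c222a2222222222c232222222222222232522222222222222522a222222222222222d2222222222a22ad2d22222222222222d2) (.split (nat_lit 6) (nat_lit 1) (.split (nat_lit 3) (nat_lit 1) .uj (.non (nat_lit 0) (nat_lit 5) (nat_lit 0x154) (nat_lit 0x10001000100010000))) (.non (nat_lit 0) (nat_lit 4) (nat_lit 0x1414) (nat_lit 0x1000100000000000100010000))) (.cons (nat_lit 0x2222222222222222222222222222222222222222222222222222222222222222222222222222222222222222222222222222222222222222222222222222222222222222222222222222222222c22222222222222c2322a22222222222325222222222222225222222222222222222d22222222222a22d2d22222222222222d2)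 (.split (nat_lit 5) (nat_lit 1) .uj (.non (nat_lit 0) (nat_lit 4) (nat_lit 0x1414) (nat_lit 0x1000100000000000100010000))) (.cons (nat_lit 0x2222222222222222222222222222222222222222222222222222222222222222222222222222222222222222222222222222222222222222222222222222222222222222222222222222222222c22222222222222c2322222222222222325222222222222225222222222222222222d22222222222222d2d22222222222222d2) .uj (.cons (nat_lit 0x22222222222222222222222222222222222222222222222222222222222222222222222222222222222222222222222222222222222222222222222222222222222222222222222222222222222322a222222222222322a22222222223325222222222222225222222222222222222d2222222222aa22d2d22222222222222d2) (.split (nat_lit 6) (nat_lit 1) (.split (nat_lit 5) (nat_lit 1) .uj (.non (nat_lit 0) (nat_lit 3) (nat_lit 0x1514) (nat_lit 0x1000300020000000300040000))) (.non (nat_lit 0) (nat_lit 3) (nat_lit 0x1514) (nat_lit 0x3000100020000000300040000))) (.cons (nat_lit 0x2222222222222222222222222222222222222222222222222222222222222222222222222222222222222222222222222222222222222222222222222222222222222222222222222222222222232aaa222222222223222222222222233252222222222222252222222222222a2222d2222222222a222d2d222222222a2222d2)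 (.split (nat_lit 6) (nat_lit 0) (.split (nat_lit 6) (nat_lit 1) (.split (nat_lit 6) (nat_lit 2) .uj (.non (nat_lit 0) (nat_lit 3) (nat_lit 0x1514) (nat_lit 0x3000100020000000400030000))) (.non (nat_lit 0) (nat_lit 3) (nat_lit 0x1514) (nat_lit 0x3000100020000000300040000))) (.non (nat_lit 2) (nat_lit 3) (nat_lit 0x1505) (nat_lit 0x3000100020000000000030004))) (.cons (nat_lit 0x22222222222222222222222222222222222222222222222222222222222222222222222222222222222222222222222222222222222222222222222222222222222222222222222222222222222322a222222222222322222222222223325222222222222225222222222222222222d2222222222a222d2d22222222222222d2) (.split (nat_lit 6) (nat_lit 1) .uj (.non (nat_lit 0) (nat_lit 5) (nat_lit 0x1154) (nat_lit 0x1000000010001000100010000))) (.cons (nat_lit 0x222222222222222222222222222222222222222222222222222222222222222222222222222222222222222222222222222222222222222222222222222222222222222222222222222222222223222222222222222322222222222223325222222222222225222222222222222222d22222222222222d2d22222222222222d2) .uj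 (.cons (nat_lit 0x2222222222222222222222222222222222222222222222222222222222222222222222222222222222222222222222222222222222222222222222222222222222222222222222222222222222b232a2222222222b2322a2222222222232c22222222222232c222222222222222222d2222222222aa22d2d22222222222222d2) (.split (nat_lit 6) (nat_lit 1) (.split (nat_lit 5) (nat_lit 1) .uj (.non (nat_lit 0) (nat_lit 3) (nat_lit 0x1514) (nat_lit 0x1000200010000000200020000))) (.non (nat_lit 0) (nat_lit 3) (nat_lit 0x1514) (nat_lit 0x3000200010000000300040000))) D4_96))))))))))))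

noncomputable def D4_72 : RL := (.skip (.skip (.skip (.skip (.skip (.skip (.cons (nat_lit 0x222222222222222222222222222222222222222222222222222222222222222222222222222222222222222222222222222222222222222222222222222222222222222222222222222222222222222222222222222d22222222222222d2d2a222222222222d222222222222222222d222222222222a2d2d22222222222222d2) (.split (nat_lit 4) (nat_lit 1) .uj (.non (nat_lit 0) (nat_lit 3) (nat_lit 0x514) (nat_lit 0x100010000000100010000))) (.cons (nat_lit 0x222222222222222222222222222222222222222222222222222222222222222222222222222222222222222222222222222222222222222222222222222222222222222222222222222222222222222222222222222bc2a22222222222b2b2222222222222cb222222222222222222d22222222222a22d2d22222222222222d2) (.split (nat_lit 5) (nat_lit 1) .uj (.non (nat_lit 0) (nat_lit 4) (nat_lit 0x454) (nat_lit 0x100000001000100010000))) (.cons (nat_lit 0x222222222222222222222222222222222222222222222222222222222222222222222222222222222222222222222222222222222222222222222222222222222222222222222222222222222222222222222222222bc2222222222222b2b2a22222222222cb222222222222222222d222222222222a2d2d22222222222222d2)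 (.split (nat_lit 4) (nat_lit 1) .uj (.st (nat_lit 0) (nat_lit 2) (nat_lit 3) (nat_lit 0x105) (nat_lit 0x10000000000020002) (nat_lit 1) (nat_lit 1) (.st (nat_lit 2) (nat_lit 0) (nat_lit 3) (nat_lit 0x114) (nat_lit 0x10000000200020000) (nat_lit 1) (nat_lit 1) (.pd (.cons (nat_lit 1) (nat_lit 3) (nat_lit 0x110000) (nat_lit 0x450200) (nat_lit 0x10000100000f423f00000f423f) (.cons (nat_lit 1) (nat_lit 5) (nat_lit 0x11000) (nat_lit 0x34200) (nat_lit 0x100001f423f00000f423f) .nil)) (.st (nat_lit 3) (nat_lit 0) (nat_lit 5) (nat_lit 0x154) (nat_lit 0x30002000300040000) (nat_lit 1) (nat_lit 1) (.st (nat_lit 5) (nat_lit 0) (nat_lit 3) (nat_lit 0x514) (nat_lit 0x200030000000300040000) (nat_lit 1) (nat_lit 1) (.pd (.cons (nat_lit 0) (nat_lit 4) (nat_lit 0x101110) (nat_lit 0x305120) (nat_lit 0x10000000001000010000100000) (.cons (nat_lit 1) (nat_lit 4) (nat_lit 0x101000) (nat_lit 0x305200) (nat_lit 0x10000000001f423f00000f423f) (.cons (nat_lit 2) (nat_lit 4) (nat_lit 0x101011) (nat_lit 0x305001) (nat_lit 0x10000000001000000000100001) .nil)))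 (.leaf .nil .nil)))))))) (.cons (nat_lit 0x2222222222222222222222222222222222222222222222222222222222222222222222222222222222222222222222222222222222222222222222222222222222222222222222222222222222322aaa222222222325222222222222225232222222222222232222222222222a2222d2222222222a222d2d222222222a2222d2) (.split (nat_lit 6) (nat_lit 0) (.split (nat_lit 6) (nat_lit 1) (.split (nat_lit 6) (nat_lit 2) .uj (.non (nat_lit 0) (nat_lit 3) (nat_lit 0x1514) (nat_lit 0x1000100010000000100010000))) (.non (nat_lit 0) (nat_lit 3) (nat_lit 0x1514) (nat_lit 0x1000100010000000100010000))) (.non (nat_lit 2) (nat_lit 3) (nat_lit 0x1505) (nat_lit 0x1000100010000000000010001))) (.cons (nat_lit 0x22222222222222222222222222222222222222222222222222222222222222222222222222222222222222222222222222222222222222222222222222222222222222222222222222222222223222a222222222232522222222222222523222222222222223222222222222222222d2222222222a222d2d22222222222222d2) (.split (nat_lit 6) (nat_lit 1) .uj (.non (nat_lit 0) (nat_lit 3) (nat_lit 0x1514) (nat_lit 0x1000100010000000100010000)))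 (.cons (nat_lit 0x222222222222222222222222222222222222222222222222222222222222222222222222222222222222222222222222222222222222222222222222222222222222222222222222222222222232222222222222232522222222222222523222222222222223222222222222222222d22222222222222d2d22222222222222d2) .uj D4_84))))))))))))

noncomputable def D4_60 : RL := (.cons (nat_lit 0x222222222222222222222222222222222222222222222222222222222222222222222222222222222222222222222222222222222222222222222222222222222222222222322a222222222222322a22222222223323222222222222223252222222222222252a2222222222aa22a2d22222222222222d2d22222222222222d2) (.split (nat_lit 7) (nat_lit 2) (.split (nat_lit 6) (nat_lit 2) (.split (nat_lit 3) (nat_lit 2) .uj (.non (nat_lit 0) (nat_lit 5) (nat_lit 0x154) (nat_lit 0x10001000100010000))) (.non (nat_lit 0) (nat_lit 4) (nat_lit 0x5414) (nat_lit 0x10003000200000000000400030000))) (.non (nat_lit 0) (nat_lit 4) (nat_lit 0x5414) (nat_lit 0x30001000200000000000400030000))) (.cons (nat_lit 0x222222222222222222222222222222222222222222222222222222222222222222222222222222222222222222222222222222222222222222222222222222222222222222322222222222222232222222222222332322222222222222325222222222222225222222222222222222d22222222222222d2d22222222222222d2)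 .uj (.cons (nat_lit 0x222222222222222222222222222222222222222222222222222222222222222222222222222222222222222222222222222222222222222222222222222222222222222222322222222222222232222222222222332322222222222222325222222222222225222222222222222222d22222222222222d2d22222222222222d2) .uj (.cons (nat_lit 0x222222222222222222222222222222222222222222222222222222222222222222222222222222222222222222222222222222222222222222222222222222222222222222322222222222222232222222222222332322222222222222325222222222222225222222222222222222d22222222222222d2d22222222222222d2) .uj (.cons (nat_lit 0x222222222222222222222222222222222222222222222222222222222222222222222222222222222222222222222222222222222222222222222222222222222222222223223a222222222232322aaa2222222223232a222222222222324222222222223224222222222222aaa222d2222222222a222d2d222222222a2222d2) (.split (nat_lit 7) (nat_lit 2) (.split (nat_lit 6) (nat_lit 1) (.split (nat_lit 6) (nat_lit 2) (.split (nat_lit 5) (nat_lit 2) (.split (nat_lit 6) (nat_lit 0) .uj (.sup (nat_lit 0x400050002) (nat_lit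 0x30001000300050005000000000000))) (.non (nat_lit 0) (nat_lit 3) (nat_lit 0x5414) (nat_lit 0x10002000300000000000400030000))) (.non (nat_lit 0) (nat_lit 3) (nat_lit 0x5414) (nat_lit 0x10002000100000000000200020000))) (.non (nat_lit 0) (nat_lit 3) (nat_lit 0x5414) (nat_lit 0x10002000100000000000200020000))) (.non (nat_lit 0) (nat_lit 3) (nat_lit 0x5414) (nat_lit 0x30002000100000000000400030000))) (.cons (nat_lit 0x2222222222222222222222222222222222222222222222222222222222222222222222222222222222222222222222222222222222222222222222222222222222222222232232222222222232322a22222222222323222222222222223242222222222232242222222222222a2222d22222222222222d2d22222222222222d2) (.split (nat_lit 6) (nat_lit 2) .uj (.non (nat_lit 0) (nat_lit 3) (nat_lit 0x5414) (nat_lit 0x10002000100000000000200020000))) (.cons (nat_lit 0x222222222222222222222222222222222222222222222222222222222222222222222222222222222222222222222222222222222222222222222222222222222222222223223222222222223232222222222222232322222222222222324222222222223224222222222222222222d22222222222222d2d22222222222222d2)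 .uj (.cons (nat_lit 0x2222222222222222222222222222222222222222222222222222222222222222222222222222222222222222222222222222222222222222222222222222222222222222232232222222222232322a22222222222323222222222222223242222222222232242222222222222a2222d22222222222222d2d22222222222222d2) (.split (nat_lit 6) (nat_lit 2) .uj (.non (nat_lit 0) (nat_lit 3) (nat_lit 0x5414) (nat_lit 0x10002000100000000000200020000))) (.cons (nat_lit 0x222222222222222222222222222222222222222222222222222222222222222222222222222222222222222222222222222222222222222222222222222222222222222223223222222222223232222222222222232322222222222222324222222222223224222222222222222222d22222222222222d2d22222222222222d2) .uj (.cons (nat_lit 0x2222222222222222222222222222222222222222222222222222222222222222222222222222222222222222222222222222222222222222222222222222222222222222232232222222222232322a22222222222323222222222222223242222222222232242222222222222a2222d22222222222222d2d22222222222222d2) (.split (nat_lit 6) (nat_lit 2) .uj (.non (nat_lit 0) (nat_lit 5) (nat_lit 0x5054)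 (nat_lit 0x20003000000000001000400030000))) (.skip (.skip D4_72))))))))))))

noncomputable def D4_48 : RL := (.cons (nat_lit 0x22222222222222222222222222222222222222222222222222222222222222222222222222222222222222222222222222222222222222222222222222222222222222222b222aaa22222222b2322a2222222222232322222222222222325a22222222222225222222222222aa2a22d222222222a2222d2d22222222a22222d2) (.split (nat_lit 7) (nat_lit 1) (.split (nat_lit 7) (nat_lit 2) (.split (nat_lit 6) (nat_lit 2) (.split (nat_lit 4) (nat_lit 2) (.split (nat_lit 7) (nat_lit 0) .uj (.sup (nat_lit 0x8000a0004) (nat_lit 0x100040007000a0008000000000000))) (.non (nat_lit 0) (nat_lit 3) (nat_lit 0x1514) (nat_lit 0x1000200030000000400030000))) (.non (nat_lit 0) (nat_lit 3) (nat_lit 0x5414) (nat_lit 0x10002000100000000000200020000))) (.non (nat_lit 0) (nat_lit 3) (nat_lit 0x5414) (nat_lit 0x30002000100000000000400030000))) (.non (nat_lit 0) (nat_lit 3) (nat_lit 0x5414) (nat_lit 0x30002000100000000000300040000))) (.cons (nat_lit 0x22222222222222222222222222222222222222222222222222222222222222222222222222222222222222222222222222222222222222222222222222222222222222222b222a2222222222b23222222222222223232a222222222222325222222222222225222222222222a2a222d22222222222222d2d22222222222222d2)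 (.split (nat_lit 7) (nat_lit 2) (.split (nat_lit 5) (nat_lit 2) .uj (.non (nat_lit 0) (nat_lit 3) (nat_lit 0x5414) (nat_lit 0x10002000300000000000400030000))) (.non (nat_lit 0) (nat_lit 3) (nat_lit 0x5414) (nat_lit 0x30002000100000000000400030000))) (.cons (nat_lit 0x22222222222222222222222222222222222222222222222222222222222222222222222222222222222222222222222222222222222222222222222222222222222222222b22222222222222b232222222222222232322222222222222325222222222222225222222222222222222d22222222222222d2d22222222222222d2) .uj (.cons (nat_lit 0x22222222222222222222222222222222222222222222222222222222222222222222222222222222222222222222222222222222222222222222222222222222222222222b222aaa22222222b2322a22222222222323222222222222223252222222222222252a2222222222aa22a2d222222222a2222d2d22222222a22222d2) (.split (nat_lit 7) (nat_lit 1) (.split (nat_lit 7) (nat_lit 2) (.split (nat_lit 6) (nat_lit 2) (.split (nat_lit 3) (nat_lit 2) (.split (nat_lit 7) (nat_lit 0) .uj (.sup (nat_lit 0x8000a0004) (nat_lit 0x100040007000a0008000000000000)))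 (.non (nat_lit 0) (nat_lit 5) (nat_lit 0x154) (nat_lit 0x10001000100010000))) (.non (nat_lit 0) (nat_lit 4) (nat_lit 0x5414) (nat_lit 0x10002000100000000000200020000))) (.non (nat_lit 0) (nat_lit 4) (nat_lit 0x5414) (nat_lit 0x30002000100000000000400030000))) (.non (nat_lit 0) (nat_lit 4) (nat_lit 0x5414) (nat_lit 0x30002000100000000000300040000))) (.cons (nat_lit 0x22222222222222222222222222222222222222222222222222222222222222222222222222222222222222222222222222222222222222222222222222222222222222222b222a2222222222b23222222222222223232a222222222222325222222222222225222222222222a2a222d22222222222222d2d22222222222222d2) (.split (nat_lit 7) (nat_lit 2) (.split (nat_lit 5) (nat_lit 2) .uj (.non (nat_lit 0) (nat_lit 4) (nat_lit 0x5414) (nat_lit 0x10002000300000000000400030000))) (.non (nat_lit 0) (nat_lit 4) (nat_lit 0x5414) (nat_lit 0x30002000100000000000400030000))) (.cons (nat_lit 0x22222222222222222222222222222222222222222222222222222222222222222222222222222222222222222222222222222222222222222222222222222222222222222b22222222222222b232222222222222232322222222222222325222222222222225222222222222222222d22222222222222d2d22222222222222d2)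 .uj (.cons (nat_lit 0x22222222222222222222222222222222222222222222222222222222222222222222222222222222222222222222222222222222222222222222222222222222222222222b222a2222222222b232222222222222232322222222222222325222222222222225222222222222a22222d22222222222222d2d22222222222222d2) (.split (nat_lit 7) (nat_lit 2) .uj (.sup (nat_lit 0x4000a0008) (nat_lit 0x100040007000a0008000000000000))) (.cons (nat_lit 0x22222222222222222222222222222222222222222222222222222222222222222222222222222222222222222222222222222222222222222222222222222222222222222b22222222222222b232222222222222232322222222222222325222222222222225222222222222222222d22222222222222d2d22222222222222d2) .uj (.cons (nat_lit 0x22222222222222222222222222222222222222222222222222222222222222222222222222222222222222222222222222222222222222222222222222222222222222222b22222222222222b232222222222222232322222222222222325222222222222225222222222222222222d22222222222222d2d22222222222222d2) .uj (.cons (nat_lit 0x222222222222222222222222222222222222222222222222222222222222222222222222222222222222222222222222222222222222222222222222222222222222222222322aaa2222222222322aaa22222222332322222222222222325222222222222225222222222222aa2222d222222222aa222d2d22222222aa2222d2)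 (.split (nat_lit 7) (nat_lit 1) (.split (nat_lit 7) (nat_lit 2) (.split (nat_lit 6) (nat_lit 1) (.split (nat_lit 6) (nat_lit 2) (.split (nat_lit 7) (nat_lit 0) (.split (nat_lit 6) (nat_lit 0) .uj (.sup (nat_lit 0x400050002) (nat_lit 0x20001000300050004000000000000))) (.split (nat_lit 6) (nat_lit 0) (.sup (nat_lit 0x400050002) (nat_lit 0x10002000300050004000000000000)) (.non (nat_lit 1) (nat_lit 3) (nat_lit 0x5401) (nat_lit 0x10001000100000000000000000001)))) (.non (nat_lit 0) (nat_lit 3) (nat_lit 0x5414) (nat_lit 0x10003000200000000000400030000))) (.non (nat_lit 0) (nat_lit 3) (nat_lit 0x5414) (nat_lit 0x10003000200000000000300040000))) (.non (nat_lit 0) (nat_lit 3) (nat_lit 0x5414) (nat_lit 0x30001000200000000000400030000))) (.non (nat_lit 0) (nat_lit 3) (nat_lit 0x5414) (nat_lit 0x30001000200000000000300040000))) (.cons (nat_lit 0x222222222222222222222222222222222222222222222222222222222222222222222222222222222222222222222222222222222222222222222222222222222222222222322a222222222222322a2222222222332322222222222222325a22222222222225222222222222aa2a22d22222222222222d2d22222222222222d2)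 (.split (nat_lit 7) (nat_lit 2) (.split (nat_lit 6) (nat_lit 2) (.split (nat_lit 4) (nat_lit 2) .uj (.non (nat_lit 0) (nat_lit 3) (nat_lit 0x4514) (nat_lit 0x10000000200030000000400030000))) (.non (nat_lit 0) (nat_lit 3) (nat_lit 0x5414) (nat_lit 0x10003000200000000000400030000))) (.non (nat_lit 0) (nat_lit 3) (nat_lit 0x5414) (nat_lit 0x30001000200000000000400030000))) (.cons (nat_lit 0x222222222222222222222222222222222222222222222222222222222222222222222222222222222222222222222222222222222222222222222222222222222222222222322222222222222232222222222222332322222222222222325222222222222225222222222222222222d22222222222222d2d22222222222222d2) .uj D4_60))))))))))))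

noncomputable def D4_36 : RL := (.cons (nat_lit 0x2222222222222222222222222222222222222222222222222222222222222222222222222222222222222222222222222222222222222222222222222222222222222222222222222222222222c22a22222222222c23222222222222223252222222222222252a22222222222a22a2d22222222222222d2d22222222222222d2) (.split (nat_lit 6) (nat_lit 2) (.split (nat_lit 3) (nat_lit 2) .uj (.non (nat_lit 0) (nat_lit 5) (nat_lit 0x154) (nat_lit 0x10001000100010000))) (.non (nat_lit 0) (nat_lit 4) (nat_lit 0x1414) (nat_lit 0x1000100000000000100010000))) (.cons (nat_lit 0x2222222222222222222222222222222222222222222222222222222222222222222222222222222222222222222222222222222222222222222222222222222222222222222222222222222222c22222222222222c232a22222222222232522222222222222522222222222222a222d22222222222222d2d22222222222222d2) (.split (nat_lit 5) (nat_lit 2) .uj (.non (nat_lit 0) (nat_lit 4) (nat_lit 0x1414) (nat_lit 0x1000100000000000100010000))) (.cons (nat_lit 0x2222222222222222222222222222222222222222222222222222222222222222222222222222222222222222222222222222222222222222222222222222222222222222222222222222222222c22222222222222c2322222222222222325222222222222225222222222222222222d22222222222222d2d22222222222222d2)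 .uj (.cons (nat_lit 0x2222222222222222222222222222222222222222222222222222222222222222222222222222222222222222222222222222222222222222222222222222222222222222222222222222222222232a222222222222232a2222222222233252222222222222252222222222222aa222d22222222222222d2d22222222222222d2) (.split (nat_lit 6) (nat_lit 2) (.split (nat_lit 5) (nat_lit 2) .uj (.non (nat_lit 0) (nat_lit 3) (nat_lit 0x1514) (nat_lit 0x1000300020000000400030000))) (.non (nat_lit 0) (nat_lit 3) (nat_lit 0x1514) (nat_lit 0x3000100020000000400030000))) (.cons (nat_lit 0x2222222222222222222222222222222222222222222222222222222222222222222222222222222222222222222222222222222222222222222222222222222222222222222222222222222222232aaa222222222223222222222222233252222222222222252222222222222a2222d2222222222a222d2d222222222a2222d2) (.split (nat_lit 6) (nat_lit 1) (.split (nat_lit 6) (nat_lit 2) (.split (nat_lit 6) (nat_lit 0) .uj (.sup (nat_lit 0x400050002) (nat_lit 0x1000300050004000000000000))) (.non (nat_lit 0) (nat_lit 3) (nat_lit 0x1514) (nat_lit 0x3000100020000000400030000)))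 (.non (nat_lit 0) (nat_lit 3) (nat_lit 0x1514) (nat_lit 0x3000100020000000300040000))) (.cons (nat_lit 0x2222222222222222222222222222222222222222222222222222222222222222222222222222222222222222222222222222222222222222222222222222222222222222222222222222222222232a22222222222223222222222222233252222222222222252222222222222a2222d22222222222222d2d22222222222222d2) (.split (nat_lit 6) (nat_lit 2) .uj (.non (nat_lit 0) (nat_lit 5) (nat_lit 0x1154) (nat_lit 0x1000000010001000100010000))) (.cons (nat_lit 0x222222222222222222222222222222222222222222222222222222222222222222222222222222222222222222222222222222222222222222222222222222222222222222222222222222222223222222222222222322222222222223325222222222222225222222222222222222d22222222222222d2d22222222222222d2) .uj (.cons (nat_lit 0x2222222222222222222222222222222222222222222222222222222222222222222222222222222222222222222222222222222222222222222222222222222222222222222222222222222222b23a22222222222b232a22222222222232c22222222222232c2222222222222aa222d22222222222222d2d22222222222222d2)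 (.split (nat_lit 6) (nat_lit 2) (.split (nat_lit 5) (nat_lit 2) .uj (.non (nat_lit 0) (nat_lit 3) (nat_lit 0x1514) (nat_lit 0x1000200010000000200020000))) (.non (nat_lit 0) (nat_lit 3) (nat_lit 0x1514) (nat_lit 0x3000200010000000400030000))) (.cons (nat_lit 0x2222222222222222222222222222222222222222222222222222222222222222222222222222222222222222222222222222222222222222222222222222222222222222222222222222222222b23a22222222222b232222222222222232ca2222222222232c2222222222222a2a22d22222222222222d2d22222222222222d2) (.split (nat_lit 6) (nat_lit 2) (.split (nat_lit 4) (nat_lit 2) .uj (.non (nat_lit 0) (nat_lit 3) (nat_lit 0x1514) (nat_lit 0x1000200030000000400030000))) (.non (nat_lit 0) (nat_lit 3) (nat_lit 0x1514) (nat_lit 0x3000200010000000400030000))) (.cons (nat_lit 0x2222222222222222222222222222222222222222222222222222222222222222222222222222222222222222222222222222222222222222222222222222222222222222222222222222222222b23222222222222b232a22222222222232c22222222222232c22222222222222a222d22222222222222d2d22222222222222d2) (.split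 (nat_lit 5) (nat_lit 2) .uj (.non (nat_lit 0) (nat_lit 3) (nat_lit 0x1514) (nat_lit 0x1000200010000000200020000))) (.cons (nat_lit 0x2222222222222222222222222222222222222222222222222222222222222222222222222222222222222222222222222222222222222222222222222222222222222222222222222222222222b23222222222222b232222222222222232c22222222222232c222222222222222222d22222222222222d2d22222222222222d2) .uj (.cons (nat_lit 0x22222222222222222222222222222222222222222222222222222222222222222222222222222222222222222222222222222222222222222222222222222222222222222b222aaa22222222b2322aaa2222222223232a222222222222325222222222222225222222222222aaa222d222222222aa222d2d22222222aa2222d2) t393 D4_48))))))))))))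

noncomputable def D4_24 : RL := (.skip (.cons (nat_lit 0x222222222222222222222222222222222222222222222222222222222222222222222222222222222222222222222222222222222222222222222222222222222222222222222222222222222222222222222222222d2a222222222222d2d22222222222222d22222222222222a222d22222222222222d2d22222222222222d2) (.split (nat_lit 5) (nat_lit 2) .uj (.non (nat_lit 0) (nat_lit 3) (nat_lit 0x514) (nat_lit 0x100010000000100010000))) (.cons (nat_lit 0x222222222222222222222222222222222222222222222222222222222222222222222222222222222222222222222222222222222222222222222222222222222222222222222222222222222222222222222222222d22222222222222d2da2222222222222d222222222222222a22d22222222222222d2d22222222222222d2) (.split (nat_lit 4) (nat_lit 2) .uj (.non (nat_lit 0) (nat_lit 3) (nat_lit 0x514) (nat_lit 0x100010000000100010000))) (.cons (nat_lit 0x222222222222222222222222222222222222222222222222222222222222222222222222222222222222222222222222222222222222222222222222222222222222222222222222222222222222222222222222222bca222222222222b2b2222222222222cb22222222222222a222d22222222222222d2d22222222222222d2)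 (.split (nat_lit 5) (nat_lit 2) .uj (.non (nat_lit 0) (nat_lit 4) (nat_lit 0x454) (nat_lit 0x100000001000100010000))) (.cons (nat_lit 0x222222222222222222222222222222222222222222222222222222222222222222222222222222222222222222222222222222222222222222222222222222222222222222222222222222222222222222222222222bc2222222222222b2ba222222222222cb222222222222222a22d22222222222222d2d22222222222222d2) (.split (nat_lit 4) (nat_lit 2) .uj (.split (nat_lit 5) (nat_lit 3) (.split (nat_lit 5) (nat_lit 4) (.split (nat_lit 4) (nat_lit 2) (.sup (nat_lit 0x200050004) (nat_lit 0x500030005000000000000)) (.non (nat_lit 0) (nat_lit 3) (nat_lit 0x114) (nat_lit 0x10000000100010000))) (.non (nat_lit 0) (nat_lit 3) (nat_lit 0x514) (nat_lit 0x100010000000100010000))) (.sup (nat_lit 0x200050004) (nat_lit 0x500020005000000000000)))) (.cons (nat_lit 0x2222222222222222222222222222222222222222222222222222222222222222222222222222222222222222222222222222222222222222222222222222222222222222222222222222222222322aaa222222222325222222222222225232222222222222232222222222222a2222d2222222222a222d2d222222222a2222d2)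 (.split (nat_lit 6) (nat_lit 1) (.split (nat_lit 6) (nat_lit 2) (.split (nat_lit 6) (nat_lit 0) .uj (.split (nat_lit 6) (nat_lit 0) (.sup (nat_lit 0x400050002) (nat_lit 0x1000500050003000000000000)) (.non (nat_lit 1) (nat_lit 3) (nat_lit 0x1501) (nat_lit 0x1000100010000000000000001)))) (.non (nat_lit 0) (nat_lit 3) (nat_lit 0x1514) (nat_lit 0x1000100010000000100010000))) (.non (nat_lit 0) (nat_lit 3) (nat_lit 0x1514) (nat_lit 0x1000100010000000100010000))) (.cons (nat_lit 0x2222222222222222222222222222222222222222222222222222222222222222222222222222222222222222222222222222222222222222222222222222222222222222222222222222222222322a22222222222325222222222222225232222222222222232222222222222a2222d22222222222222d2d22222222222222d2) (.split (nat_lit 6) (nat_lit 2) .uj (.non (nat_lit 0) (nat_lit 3) (nat_lit 0x1514) (nat_lit 0x1000100010000000100010000))) (.cons (nat_lit 0x222222222222222222222222222222222222222222222222222222222222222222222222222222222222222222222222222222222222222222222222222222222222222222222222222222222232222222222222232522222222222222523222222222222223222222222222222222d22222222222222d2d22222222222222d2)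 .uj (.cons (nat_lit 0x2222222222222222222222222222222222222222222222222222222222222222222222222222222222222222222222222222222222222222222222222222222222222222222222222222222222322a22222222222325222222222222225232222222222222232a22222222222a22a2d22222222222222d2d22222222222222d2) (.split (nat_lit 6) (nat_lit 2) (.split (nat_lit 3) (nat_lit 2) .uj (.split (nat_lit 3) (nat_lit 2) (.sup (nat_lit 0x200050004) (nat_lit 0x3000500050001000000000000)) (.non (nat_lit 0) (nat_lit 4) (nat_lit 0x54) (nat_lit 0x1000100010000)))) (.split (nat_lit 3) (nat_lit 2) (.split (nat_lit 6) (nat_lit 2) (.sup (nat_lit 0x200050004) (nat_lit 0x1000500050003000000000000)) (.non (nat_lit 0) (nat_lit 4) (nat_lit 0x1014) (nat_lit 0x1000000000000000100010000))) (.non (nat_lit 0) (nat_lit 4) (nat_lit 0x1054) (nat_lit 0x1000000000001000200020000)))) (.cons (nat_lit 0x2222222222222222222222222222222222222222222222222222222222222222222222222222222222222222222222222222222222222222222222222222222222222222222222222222222222c22aaa222222222c23222222222222223252222222222222252222222222222a2222d2222222222a222d2d222222222a2222d2)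 (.split (nat_lit 6) (nat_lit 1) (.split (nat_lit 6) (nat_lit 2) (.split (nat_lit 6) (nat_lit 0) .uj (.split (nat_lit 6) (nat_lit 0) (.sup (nat_lit 0x400050002) (nat_lit 0x1000300050004000000000000)) (.non (nat_lit 1) (nat_lit 3) (nat_lit 0x2401) (nat_lit 0x1000100000000000000000001)))) (.non (nat_lit 0) (nat_lit 3) (nat_lit 0x1414) (nat_lit 0x1000100000000000100010000))) (.non (nat_lit 0) (nat_lit 3) (nat_lit 0x1414) (nat_lit 0x1000100000000000100010000))) (.cons (nat_lit 0x2222222222222222222222222222222222222222222222222222222222222222222222222222222222222222222222222222222222222222222222222222222222222222222222222222222222c22a22222222222c2322222222222222325a222222222222252222222222222a2a22d22222222222222d2d22222222222222d2) (.split (nat_lit 6) (nat_lit 2) (.split (nat_lit 4) (nat_lit 2) .uj (.non (nat_lit 0) (nat_lit 3) (nat_lit 0x1514) (nat_lit 0x1000100010000000100010000))) (.non (nat_lit 0) (nat_lit 3) (nat_lit 0x1414) (nat_lit 0x1000100000000000100010000))) (.cons (nat_lit 0x2222222222222222222222222222222222222222222222222222222222222222222222222222222222222222222222222222222222222222222222222222222222222222222222222222222222c22222222222222c2322222222222222325222222222222225222222222222222222d22222222222222d2d22222222222222d2)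 .uj D4_36))))))))))))

noncomputable def D4_12 : RL := (.cons (nat_lit 0x22222222222222222222222222222222222222222222222222222222222222222222222222222222222222222222222222222222222222222222222222222222222222222322322a2222222232322aaa222222222323222a22222222223242222222222232242222222222222a2222d2222222222a222d2422222222aaa22242) (.split (nat_lit 7) (nat_lit 0) (.split (nat_lit 6) (nat_lit 0) (.split (nat_lit 6) (nat_lit 1) (.split (nat_lit 5) (nat_lit 0) (.split (nat_lit 6) (nat_lit 2) .uj (.split (nat_lit 6) (nat_lit 2) (.sup (nat_lit 0x300050004) (nat_lit 0x30001000300050005000000000000)) (.non (nat_lit 1) (nat_lit 3) (nat_lit 0xa810) (nat_lit 0x10002000100000000000200000000)))) (.non (nat_lit 2) (nat_lit 3) (nat_lit 0x1509) (nat_lit 0x1000200010000000000010002))) (.non (nat_lit 2) (nat_lit 3) (nat_lit 0xa809) (nat_lit 0x10002000100000000000000020002))) (.non (nat_lit 2) (nat_lit 3) (nat_lit 0x5409) (nat_lit 0x10002000100000000000000010002))) (.non (nat_lit 2) (nat_lit 4) (nat_lit 0x5049) (nat_lit 0x20001000000000001000000010002)))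 (.cons (nat_lit 0x222222222222222222222222222222222222222222222222222222222222222222222222222222222222222222222222222222222222222222222222222222222222222223223222222222223232222a22222222232322222222222222324222222222223224222222222222222222d22222222222222d24222222222a222242) (.split (nat_lit 6) (nat_lit 0) .uj (.non (nat_lit 2) (nat_lit 3) (nat_lit 0x5409) (nat_lit 0x10002000100000000000000010002))) (.cons (nat_lit 0x222222222222222222222222222222222222222222222222222222222222222222222222222222222222222222222222222222222222222222222222222222222222222223223222222222223232222222222222232322222222222222324222222222223224222222222222222222d22222222222222d242222222222222242) .uj (.cons (nat_lit 0x222222222222222222222222222222222222222222222222222222222222222222222222222222222222222222222222222222222222222222222222222222222222222223223222222222223232222a22222222232322222222222222324222222222223224222222222222222222d22222222222222d24222222222a222242) (.split (nat_lit 6) (nat_lit 0) .uj (.non (nat_lit 2) (nat_lit 3) (nat_lit 0x5409)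 (nat_lit 0x10002000100000000000000010002))) (.cons (nat_lit 0x222222222222222222222222222222222222222222222222222222222222222222222222222222222222222222222222222222222222222222222222222222222222222223223222222222223232222222222222232322222222222222324222222222223224222222222222222222d22222222222222d242222222222222242) .uj (.cons (nat_lit 0x222222222222222222222222222222222222222222222222222222222222222222222222222222222222222222222222222222222222222222222222222222222222222223223222222222223232222a22222222232322222222222222324222222222223224222222222222222222d22222222222222d24222222222a222242) (.split (nat_lit 6) (nat_lit 0) .uj (.non (nat_lit 2) (nat_lit 5) (nat_lit 0x5249) (nat_lit 0x20002000000010002000000010002))) (.skip (.skip (.skip (.skip (.skip (.skip D4_24))))))))))))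

noncomputable def D4 : RL := (.cons (nat_lit 0x22222222222222222222222222222222222222222222222222222222222222222222222222222222222222222222222222222222222222222222222222222222222222222b22222a22222222b2322222222222222323222a2222222222325222222222222225222222222222222222d22222222222222d2422222222a2a22242) (.split (nat_lit 5) (nat_lit 0) (.split (nat_lit 7) (nat_lit 0) .uj (.split (nat_lit 7) (nat_lit 0) (.sup (nat_lit 0x8000a0005) (nat_lit 0x100040007000a0008000000000000)) (.non (nat_lit 2) (nat_lit 4) (nat_lit 0x8009) (nat_lit 0x10000000000000000000000010002)))) (.non (nat_lit 2) (nat_lit 6) (nat_lit 0x545) (nat_lit 0x100010001000000010001))) (.cons (nat_lit 0x22222222222222222222222222222222222222222222222222222222222222222222222222222222222222222222222222222222222222222222222222222222222222222b22222222222222b232222222222222232322222222222222325222222222222225222222222222222222d22222222222222d242222222222222242) .uj (.cons (nat_lit 0x22222222222222222222222222222222222222222222222222222222222222222222222222222222222222222222222222222222222222222222222222222222222222222b22222a22222222b232222222222222232322222222222222325222222222222225222222222222222222d22222222222222d2422222222a2222242)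 (.split (nat_lit 7) (nat_lit 0) .uj (.split (nat_lit 7) (nat_lit 0) (.sup (nat_lit 0x8000a0005) (nat_lit 0x100040007000a0008000000000000)) (.non (nat_lit 2) (nat_lit 5) (nat_lit 0x8009) (nat_lit 0x10000000000000000000000010002)))) (.cons (nat_lit 0x22222222222222222222222222222222222222222222222222222222222222222222222222222222222222222222222222222222222222222222222222222222222222222b22222222222222b232222222222222232322222222222222325222222222222225222222222222222222d22222222222222d242222222222222242) .uj (.cons (nat_lit 0x22222222222222222222222222222222222222222222222222222222222222222222222222222222222222222222222222222222222222222222222222222222222222222b22222222222222b232222222222222232322222222222222325222222222222225222222222222222222d22222222222222d242222222222222242) .uj (.cons (nat_lit 0x222222222222222222222222222222222222222222222222222222222222222222222222222222222222222222222222222222222222222222222222222222222222222222322aaa2222222222322aaa22222222332322222222222222325222222222222225222222222222aa2222d222222222aa222d2422222222aa222242)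 (.split (nat_lit 7) (nat_lit 0) (.split (nat_lit 7) (nat_lit 1) (.split (nat_lit 6) (nat_lit 0) (.split (nat_lit 6) (nat_lit 1) (.split (nat_lit 7) (nat_lit 2) (.split (nat_lit 6) (nat_lit 2) .uj (.sup (nat_lit 0x6000a0007) (nat_lit 0x300010007000a0008000000000000))) (.split (nat_lit 6) (nat_lit 2) (.sup (nat_lit 0x6000a0007) (nat_lit 0x100030007000a0008000000000000)) (.non (nat_lit 1) (nat_lit 3) (nat_lit 0x5410) (nat_lit 0x10001000100000000000100000000)))) (.non (nat_lit 2) (nat_lit 3) (nat_lit 0xaa09) (nat_lit 0x10002000200010000000000020002))) (.non (nat_lit 2) (nat_lit 3) (nat_lit 0x5509) (nat_lit 0x10002000200010000000000010002))) (.non (nat_lit 2) (nat_lit 3) (nat_lit 0xaa09) (nat_lit 0x20001000200010000000000020002))) (.non (nat_lit 2) (nat_lit 3) (nat_lit 0x5509) (nat_lit 0x20001000200010000000000010002))) (.cons (nat_lit 0x22222222222222222222222222222222222222222222222222222222222222222222222222222222222222222222222222222222222222222222222222222222222222222232222a222222222232222a2222222233232222222222222232522a222222222225222222222222222222d22222222222222d2422222222aa2a2242)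 (.split (nat_lit 7) (nat_lit 0) (.split (nat_lit 6) (nat_lit 0) (.split (nat_lit 4) (nat_lit 0) .uj (.non (nat_lit 2) (nat_lit 3) (nat_lit 0x5509) (nat_lit 0x10001000200020000000000010002))) (.non (nat_lit 2) (nat_lit 3) (nat_lit 0x5509) (nat_lit 0x10002000200010000000000010002))) (.non (nat_lit 2) (nat_lit 3) (nat_lit 0x5509) (nat_lit 0x20001000200010000000000010002))) (.cons (nat_lit 0x222222222222222222222222222222222222222222222222222222222222222222222222222222222222222222222222222222222222222222222222222222222222222222322222222222222232222222222222332322222222222222325222222222222225222222222222222222d22222222222222d242222222222222242) .uj (.cons (nat_lit 0x22222222222222222222222222222222222222222222222222222222222222222222222222222222222222222222222222222222222222222222222222222222222222222232222a222222222232222a22222222332322222222222222325222222222222225222a22222222222222d22222222222222d2422222222aa22a242) (.split (nat_lit 3) (nat_lit 0) (.split (nat_lit 7) (nat_lit 0) (.split (nat_lit 6) (nat_lit 0) .uj (.sup (nat_lit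 0x8000a0005) (nat_lit 0x300010007000a0008000000000000))) (.split (nat_lit 6) (nat_lit 0) (.sup (nat_lit 0x8000a0005) (nat_lit 0x100030007000a0008000000000000)) (.non (nat_lit 1) (nat_lit 4) (nat_lit 0x5401) (nat_lit 0x10001000100000000000000000001)))) (.non (nat_lit 2) (nat_lit 5) (nat_lit 0x145) (nat_lit 0x10001000000010001))) (.cons (nat_lit 0x222222222222222222222222222222222222222222222222222222222222222222222222222222222222222222222222222222222222222222222222222222222222222222322222222222222232222222222222332322222222222222325222222222222225222222222222222222d22222222222222d242222222222222242) .uj (.cons (nat_lit 0x222222222222222222222222222222222222222222222222222222222222222222222222222222222222222222222222222222222222222222222222222222222222222222322222222222222232222222222222332322222222222222325222222222222225222222222222222222d22222222222222d242222222222222242) .uj (.cons (nat_lit 0x222222222222222222222222222222222222222222222222222222222222222222222222222222222222222222222222222222222222222222222222222222222222222222322222222222222232222222222222332322222222222222325222222222222225222222222222222222d22222222222222d242222222222222242)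 .uj D4_12))))))))))))

theorem cov_D4 : Cov 346 551 := by
  have h1 : rl D4 (nat_lit 346) = true := by decide +kernel
  have h2 : 346 + rlen D4 = 551 := by decide +kernel
  exact cov_of h1 h2

end MP86a502
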