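import Pool.Agent.Lib.MP_86a502_gt.U.Rlc
import Pool.Agent.Lib.MP_86a502_gt.U.D12

set_option autoImplicit false
set_option maxRecDepth 1000000
set_option linter.all false

/-! Certificates, numbers 743 to 756. -/

namespace MP86a502

noncomputable def t744_1 : Tr := (.ex (nat_lit 0) (.ex (nat_lit 1) (.split (nat_lit 7) (nat_lit 6) (.pd (.cons (nat_lit 0) (nat_lit 5) (nat_lit 0) (nat_lit 0x66042110) (nat_lit 0xf423f7a11e00000f423ff423fb71ae1f15600000) (.cons (nat_lit 3) (nat_lit 4) (nat_lit 0) (nat_lit 0x65500100) (nat_lit 0xf423f7a11e7a11c0000000000f423f54591437a2) (.cons (nat_lit 3) (nat_lit 5) (nat_lit 0) (nat_lit 0x66040100) (nat_lit 0xf423f7a11e00000f423f00000f423f54591437a2) (.cons (nat_lit 3) (nat_lit 6) (nat_lit 0) (nat_lit 0x70440100) (nat_lit 0xf423f00000f423f5459100000f423f54591437a2) (.cons (nat_lit 3) (nat_lit 7) (nat_lit 0) (nat_lit 0x5440100) (nat_lit 0xf423fb71ae1f15600000f423f54591437a2) .nil))))) (.leaf (.cons (nat_lit 0x1454) (nat_lit 0x1000200000003000400030000) (.cons (nat_lit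 0x554) (nat_lit 0x100010001000100010000) (.cons (nat_lit 0x1540) (nat_lit 0x1000200020001000000000000) .nil))) .nil)) (.non (nat_lit 1) (nat_lit 4) (nat_lit 0x5450) (nat_lit 0x30004000300000002000100000000))) (.split (nat_lit 8) (nat_lit 0) (.split (nat_lit 8) (nat_lit 2) (.split (nat_lit 8) (nat_lit 3) (.split (nat_lit 8) (nat_lit 4) (.split (nat_lit 8) (nat_lit 5) (.split (nat_lit 8) (nat_lit 6) (.split (nat_lit 8) (nat_lit 7) (.unj (nat_lit 0x10015) (nat_lit 0x100000000000000000000000200020001) (nat_lit 0x5500) (nat_lit 0x10001000100010000000000000000)) (.non (nat_lit 1) (nat_lit 4) (nat_lit 0x29440) (nat_lit 0x100020003000200000001000000000000))) (.star (nat_lit 8) (nat_lit 1) (nat_lit 6))) (.non (nat_lit 1) (nat_lit 4) (nat_lit 0x19440) (nat_lit 0x100010002000200000001000000000000))) (.star (nat_lit 8) (nat_lit 1) (nat_lit 4))) (.non (nat_lit 1) (nat_lit 4) (nat_lit 0x19450) (nat_lit 0x100010002000200000002000100000000))) (.non (nat_lit 1) (nat_lit 6) (nat_lit 0x10550) (nat_lit 0x100000000000400030003000200000000)))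 (.non (nat_lit 2) (nat_lit 4) (nat_lit 0x10005) (nat_lit 0x100000000000000000000000000010001)))) (.split (nat_lit 8) (nat_lit 1) (.split (nat_lit 8) (nat_lit 2) (.split (nat_lit 8) (nat_lit 3) (.split (nat_lit 8) (nat_lit 4) (.split (nat_lit 8) (nat_lit 5) (.split (nat_lit 8) (nat_lit 6) (.split (nat_lit 8) (nat_lit 7) (.split (nat_lit 8) (nat_lit 0) (.split (nat_lit 7) (nat_lit 6) (.split (nat_lit 5) (nat_lit 3) (.sup (nat_lit 0x30005000500040000000000000000) (nat_lit 0x300000000000000000001000700080005)) (.non (nat_lit 1) (nat_lit 4) (nat_lit 0x6840) (nat_lit 0x10001000100000001000000000000))) (.non (nat_lit 1) (nat_lit 4) (nat_lit 0x5450) (nat_lit 0x30004000300000002000100000000))) (.unj (nat_lit 0x10015) (nat_lit 0x100000000000000000000000100010001) (nat_lit 0x5500) (nat_lit 0x10001000100010000000000000000))) (.non (nat_lit 1) (nat_lit 4) (nat_lit 0x29440) (nat_lit 0x100020003000200000001000000000000))) (.non (nat_lit 1) (nat_lit 4) (nat_lit 0x19400) (nat_lit 0x100010002000100000000000000000000)))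 (.non (nat_lit 1) (nat_lit 4) (nat_lit 0x19440) (nat_lit 0x100010002000200000001000000000000))) (.non (nat_lit 1) (nat_lit 6) (nat_lit 0x10540) (nat_lit 0x100000000000200020001000000000000))) (.non (nat_lit 1) (nat_lit 4) (nat_lit 0x19450) (nat_lit 0x100010002000200000002000100000000))) (.non (nat_lit 1) (nat_lit 6) (nat_lit 0x10550) (nat_lit 0x100000000000400030003000200000000))) (.non (nat_lit 2) (nat_lit 4) (nat_lit 0x10005) (nat_lit 0x100000000000000000000000000010001))))

noncomputable def t744_2 : Tr := (.ex (nat_lit 2) (.pd (.cons (nat_lit 3) (nat_lit 5) (nat_lit 0x11000000) (nat_lit 0x67040100) (nat_lit 0x10000100000f423f00000f423f54591437a2) .nil) (.ex (nat_lit 3) (.split (nat_lit 7) (nat_lit 6) (.pd (.cons (nat_lit 0) (nat_lit 4) (nat_lit 0) (nat_lit 0x65502110) (nat_lit 0xf423f7a11e7a11c00000f423fb71ae1f15600000) (.cons (nat_lit 0) (nat_lit 5) (nat_lit 0) (nat_lit 0x66042110) (nat_lit 0xf423f7a11e00000f423ff423fb71ae1f15600000) (.cons (nat_lit 0) (nat_lit 6) (nat_lit 0) (nat_lit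 0x70442110) (nat_lit 0xf423f00000f423f54591f423fb71ae1f15600000) (.cons (nat_lit 0) (nat_lit 7) (nat_lit 0) (nat_lit 0x5442110) (nat_lit 0xf423fb71ae1f156f423fb71ae1f15600000) .nil)))) (.leaf (.cons (nat_lit 0x1501) (nat_lit 0x1000200020000000000000001) (.cons (nat_lit 0x1415) (nat_lit 0x1000200000000000300040003) (.cons (nat_lit 0x515) (nat_lit 0x100010000000100010001) .nil))) .nil)) (.non (nat_lit 2) (nat_lit 4) (nat_lit 0x5405) (nat_lit 0x30004000300000000000000010002))) (.split (nat_lit 8) (nat_lit 0) (.split (nat_lit 8) (nat_lit 1) (.split (nat_lit 8) (nat_lit 2) (.split (nat_lit 8) (nat_lit 4) (.split (nat_lit 8) (nat_lit 5) (.split (nat_lit 8) (nat_lit 6) (.split (nat_lit 8) (nat_lit 7) (.split (nat_lit 8) (nat_lit 3) (.split (nat_lit 7) (nat_lit 6) (.split (nat_lit 5) (nat_lit 0) (.sup (nat_lit 0x30005000500040000000000000000) (nat_lit 0x300000000000000000005000800070001)) (.non (nat_lit 1) (nat_lit 4) (nat_lit 0x6801) (nat_lit 0x10001000100000000000000000001))) (.non (nat_lit 2) (nat_lit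 4) (nat_lit 0x5405) (nat_lit 0x30004000300000000000000010002))) (.unj (nat_lit 0x10054) (nat_lit 0x100000000000000000001000100010000) (nat_lit 0x5500) (nat_lit 0x10001000100010000000000000000))) (.non (nat_lit 1) (nat_lit 4) (nat_lit 0x16840) (nat_lit 0x200030002000100000001000000000000))) (.non (nat_lit 1) (nat_lit 4) (nat_lit 0x19400) (nat_lit 0x100010002000100000000000000000000))) (.non (nat_lit 1) (nat_lit 4) (nat_lit 0x19401) (nat_lit 0x100010002000200000000000000000001))) (.non (nat_lit 1) (nat_lit 6) (nat_lit 0x10550) (nat_lit 0x300000000000300040002000100000000))) (.non (nat_lit 1) (nat_lit 4) (nat_lit 0x10050) (nat_lit 0x100000000000000000001000100000000))) (.non (nat_lit 2) (nat_lit 6) (nat_lit 0x10505) (nat_lit 0x100000000000400030000000000020003))) (.non (nat_lit 1) (nat_lit 6) (nat_lit 0x10541) (nat_lit 0x200000000000400030001000000000003))))) (.split (nat_lit 8) (nat_lit 0) (.split (nat_lit 8) (nat_lit 1) (.split (nat_lit 8) (nat_lit 3) (.split (nat_lit 8) (nat_lit 4) (.split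 (nat_lit 8) (nat_lit 5) (.split (nat_lit 8) (nat_lit 6) (.split (nat_lit 8) (nat_lit 7) (.unj (nat_lit 0x10054) (nat_lit 0x100000000000000000001000200020000) (nat_lit 0x5500) (nat_lit 0x10001000100010000000000000000)) (.non (nat_lit 1) (nat_lit 4) (nat_lit 0x16810) (nat_lit 0x200030002000100000000000100000000))) (.star (nat_lit 8) (nat_lit 2) (nat_lit 6))) (.non (nat_lit 1) (nat_lit 4) (nat_lit 0x19401) (nat_lit 0x100010002000200000000000000000001))) (.star (nat_lit 8) (nat_lit 2) (nat_lit 4))) (.non (nat_lit 1) (nat_lit 4) (nat_lit 0x10050) (nat_lit 0x100000000000000000001000100000000))) (.non (nat_lit 2) (nat_lit 6) (nat_lit 0x10505) (nat_lit 0x100000000000400030000000000020003))) (.non (nat_lit 1) (nat_lit 6) (nat_lit 0x10511) (nat_lit 0x200000000000400030000000100000003))))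

noncomputable def t744 : Tr := (.split (nat_lit 7) (nat_lit 0) (.split (nat_lit 7) (nat_lit 3) (.split (nat_lit 5) (nat_lit 0) (.split (nat_lit 5) (nat_lit 3) .uj (.st (nat_lit 2) (nat_lit 1) (nat_lit 6) (nat_lit 0x550) (nat_lit 0x400030003000200000000) (nat_lit 1) (nat_lit 1) (.st (nat_lit 3) (nat_lit 1) (nat_lit 4) (nat_lit 0x9450) (nat_lit 0x10002000200000002000100000000) (nat_lit 1) (nat_lit 1) (.st (nat_lit 4) (nat_lit 1) (nat_lit 6) (nat_lit 0x540) (nat_lit 0x200020001000000000000) (nat_lit 1) (nat_lit 1) (.st (nat_lit 5) (nat_lit 1) (nat_lit 4) (nat_lit 0x9440) (nat_lit 0x10002000200000001000000000000) (nat_lit 1) (nat_lit 1) (.st (nat_lit 7) (nat_lit 1) (nat_lit 4) (nat_lit 0x9440) (nat_lit 0x20003000200000001000000000000) (nat_lit 2) (nat_lit 1) (.pd (.cons (nat_lit 1) (nat_lit 5) (nat_lit 0x11000000) (nat_lit 0x67042200) (nat_lit 0x10000100000f423ff423fb71ae00000f423f) (.cons (nat_lit 2) (nat_lit 5) (nat_lit 0x11000000) (nat_lit 0x67043000) (nat_lit 0x10000100000f423ff423f00000f423fb71ae)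 .nil)) t744_1))))))) (.split (nat_lit 5) (nat_lit 3) (.st (nat_lit 0) (nat_lit 2) (nat_lit 4) (nat_lit 0x9405) (nat_lit 0x10002000200000000000000010002) (nat_lit 1) (nat_lit 1) (.st (nat_lit 1) (nat_lit 2) (nat_lit 6) (nat_lit 0x505) (nat_lit 0x400030000000000020003) (nat_lit 1) (nat_lit 1) (.st (nat_lit 4) (nat_lit 1) (nat_lit 6) (nat_lit 0x501) (nat_lit 0x200020000000000000001) (nat_lit 1) (nat_lit 1) (.st (nat_lit 5) (nat_lit 1) (nat_lit 4) (nat_lit 0x9401) (nat_lit 0x10002000200000000000000000001) (nat_lit 1) (nat_lit 1) (.st (nat_lit 7) (nat_lit 1) (nat_lit 4) (nat_lit 0x9401) (nat_lit 0x20003000200000000000000000001) (nat_lit 2) (nat_lit 1) (.pd (.cons (nat_lit 1) (nat_lit 5) (nat_lit 0x11000000) (nat_lit 0x67042200) (nat_lit 0x10000100000f423ff423fb71ae00000f423f) (.cons (nat_lit 2) (nat_lit 5) (nat_lit 0x11000000) (nat_lit 0x67043000) (nat_lit 0x10000100000f423ff423f00000f423fb71ae) .nil)) t744_2)))))) (.non (nat_lit 1) (nat_lit 4) (nat_lit 0x9441) (nat_lit 0x10002000200000001000000000001))))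 (.non (nat_lit 1) (nat_lit 4) (nat_lit 0x6850) (nat_lit 0x30002000100000002000100000000))) (.non (nat_lit 2) (nat_lit 4) (nat_lit 0x6805) (nat_lit 0x30002000100000000000000010002)))

noncomputable def t746_1 : Tr := (.split (nat_lit 7) (nat_lit 6) (.pd (.cons (nat_lit 2) (nat_lit 4) (nat_lit 0) (nat_lit 0x37603000) (nat_lit 0x51612b71aef423f000003d08700000f423fb71ae) .nil) (.ex (nat_lit 2) (.split (nat_lit 4) (nat_lit 0) (.pd (.cons (nat_lit 0) (nat_lit 6) (nat_lit 0) (nat_lit 0x30442110) (nat_lit 0xf423f00000f423f54591b71aea2c280473700000) (.cons (nat_lit 0) (nat_lit 7) (nat_lit 0) (nat_lit 0x5442110) (nat_lit 0xf423fb71ae1f156f423fb71ae1f15600000) (.cons (nat_lit 3) (nat_lit 4) (nat_lit 0) (nat_lit 0x65500100) (nat_lit 0xf423f7a11e7a11c0000000000f423f54591437a2) (.cons (nat_lit 3) (nat_lit 5) (nat_lit 0) (nat_lit 0x66000100) (nat_lit 0xf423f7a11e00000f423f00000f423f5459106711) .nil)))) (.leaf (.cons (nat_lit 0x6850) (nat_lit 0x30002000100000002000100000000) (.cons (nat_lit 0x5054) (nat_lit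 0x10001000000000001000100010000) (.cons (nat_lit 0x1501) (nat_lit 0x1000200020000000000000001) (.cons (nat_lit 0x515) (nat_lit 0x100010000000100010001) .nil)))) (.cons (nat_lit 0x110011) (nat_lit 0x1000100) (nat_lit 0x10) (nat_lit 0x10032) .nil))) (.non (nat_lit 1) (nat_lit 6) (nat_lit 0x501) (nat_lit 0x100010000000000000001))) (.split (nat_lit 8) (nat_lit 0) (.split (nat_lit 8) (nat_lit 1) (.split (nat_lit 8) (nat_lit 3) (.split (nat_lit 8) (nat_lit 4) (.split (nat_lit 8) (nat_lit 5) (.split (nat_lit 8) (nat_lit 6) (.split (nat_lit 8) (nat_lit 7) (.sup (nat_lit 0x5000a00090000000000000002) (nat_lit 0x500000000000000000005000a00060000)) (.non (nat_lit 1) (nat_lit 5) (nat_lit 0x16040) (nat_lit 0x100020001000000000001000000000000))) (.star (nat_lit 8) (nat_lit 2) (nat_lit 6))) (.star (nat_lit 8) (nat_lit 2) (nat_lit 5))) (.non (nat_lit 1) (nat_lit 6) (nat_lit 0x10550) (nat_lit 0x300000000000300040001000200000000))) (.non (nat_lit 1) (nat_lit 5) (nat_lit 0x10050) (nat_lit 0x100000000000000000001000100000000)))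 (.non (nat_lit 2) (nat_lit 6) (nat_lit 0x10505) (nat_lit 0x100000000000300040000000000020003))) (.non (nat_lit 1) (nat_lit 6) (nat_lit 0x10511) (nat_lit 0x200000000000300040000000100000003))))) (.st (nat_lit 2) (nat_lit 1) (nat_lit 5) (nat_lit 0x5050) (nat_lit 0x40003000000000003000200000000) (nat_lit 1) (nat_lit 1) (.split (nat_lit 7) (nat_lit 6) (.split (nat_lit 4) (nat_lit 0) (.pd (.cons (nat_lit 0) (nat_lit 6) (nat_lit 0) (nat_lit 0x30442110) (nat_lit 0xf423f00000f423f54591b71aea2c280473700000) (.cons (nat_lit 0) (nat_lit 7) (nat_lit 0) (nat_lit 0x5442110) (nat_lit 0xf423fb71ae1f156f423fb71ae1f15600000) (.cons (nat_lit 3) (nat_lit 4) (nat_lit 0) (nat_lit 0x65500100) (nat_lit 0xf423f54591437a20000000000f423f54591437a2) (.cons (nat_lit 3) (nat_lit 5) (nat_lit 0) (nat_lit 0x66000100) (nat_lit 0xf423f5459100000f423f00000f423f5459106711) .nil)))) (.leaf (.cons (nat_lit 0x5440) (nat_lit 0x20002000100000001000000000000) (.cons (nat_lit 0x5054) (nat_lit 0x10001000000000001000100010000) (.cons (nat_lit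 0x1501) (nat_lit 0x1000200020000000000000001) (.cons (nat_lit 0x515) (nat_lit 0x100010000000100010001) .nil)))) (.cons (nat_lit 0x11001100) (nat_lit 0x100010) (nat_lit 0x10) (nat_lit 0x10002300) .nil))) (.non (nat_lit 1) (nat_lit 6) (nat_lit 0x501) (nat_lit 0x100010000000000000001))) (.non (nat_lit 1) (nat_lit 5) (nat_lit 0x7040) (nat_lit 0x20001000000000001000000000000)))))

noncomputable def t746_2 : Tr := (.split (nat_lit 7) (nat_lit 6) (.pd (.cons (nat_lit 1) (nat_lit 4) (nat_lit 0) (nat_lit 0x7602200) (nat_lit 0x51612b71aef423f00000f423fb71ae000003d087) .nil) (.ex (nat_lit 1) (.split (nat_lit 4) (nat_lit 3) (.pd (.cons (nat_lit 0) (nat_lit 4) (nat_lit 0) (nat_lit 0x65502110) (nat_lit 0xf423f7a11e7a11c00000f423fb71ae1f15600000) (.cons (nat_lit 0) (nat_lit 5) (nat_lit 0) (nat_lit 0x66032110) (nat_lit 0xf423f7a11e00000f423fb71aea2c280473700000) (.cons (nat_lit 3) (nat_lit 6) (nat_lit 0) (nat_lit 0x440100) (nat_lit 0xf423f00000f423f5459100000f423f5459106711) (.cons (nat_lit 3) (nat_lit 7)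 (nat_lit 0) (nat_lit 0x5440100) (nat_lit 0xf423fb71ae1f15600000f423f54591437a2) .nil)))) (.leaf (.cons (nat_lit 0x554) (nat_lit 0x100010001000100010000) (.cons (nat_lit 0x1540) (nat_lit 0x1000200020001000000000000) (.cons (nat_lit 0x6805) (nat_lit 0x30002000100000000000000010002) (.cons (nat_lit 0x5015) (nat_lit 0x10001000000000000000100010001) .nil)))) (.cons (nat_lit 0x11110) (nat_lit 0x100001) (nat_lit 0x10) (nat_lit 0x32100) .nil))) (.non (nat_lit 1) (nat_lit 6) (nat_lit 0x540) (nat_lit 0x100010001000000000000))) (.split (nat_lit 8) (nat_lit 0) (.split (nat_lit 8) (nat_lit 2) (.split (nat_lit 8) (nat_lit 3) (.split (nat_lit 8) (nat_lit 4) (.split (nat_lit 8) (nat_lit 5) (.split (nat_lit 8) (nat_lit 6) (.split (nat_lit 8) (nat_lit 7) (.sup (nat_lit 0x5000000000000000000000006000a0005) (nat_lit 0x5000a00090002000000000000)) (.non (nat_lit 1) (nat_lit 5) (nat_lit 0x16001) (nat_lit 0x100020001000000000000000000000001))) (.star (nat_lit 8) (nat_lit 1) (nat_lit 6))) (.star (nat_lit 8) (nat_lit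 1) (nat_lit 5))) (.non (nat_lit 1) (nat_lit 6) (nat_lit 0x10540) (nat_lit 0x100000000000200020001000000000000))) (.non (nat_lit 1) (nat_lit 6) (nat_lit 0x10550) (nat_lit 0x100000000000200020002000100000000))) (.non (nat_lit 1) (nat_lit 6) (nat_lit 0x10550) (nat_lit 0x100000000000300040003000200000000))) (.non (nat_lit 2) (nat_lit 5) (nat_lit 0x10005) (nat_lit 0x100000000000000000000000000010001))))) (.st (nat_lit 1) (nat_lit 2) (nat_lit 5) (nat_lit 0x5005) (nat_lit 0x40003000000000000000000020003) (nat_lit 1) (nat_lit 1) (.split (nat_lit 7) (nat_lit 6) (.split (nat_lit 4) (nat_lit 3) (.pd (.cons (nat_lit 0) (nat_lit 4) (nat_lit 0) (nat_lit 0x65502110) (nat_lit 0xf423f54591437a200000f423fb71ae1f15600000) (.cons (nat_lit 0) (nat_lit 5) (nat_lit 0) (nat_lit 0x66032110) (nat_lit 0xf423f5459100000f423fb71aea2c280473700000) (.cons (nat_lit 3) (nat_lit 6) (nat_lit 0) (nat_lit 0x440100) (nat_lit 0xf423f00000f423f5459100000f423f5459106711) (.cons (nat_lit 3) (nat_lit 7) (nat_lit 0) (nat_lit 0x5440100)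 (nat_lit 0xf423fb71ae1f15600000f423f54591437a2) .nil)))) (.leaf (.cons (nat_lit 0x554) (nat_lit 0x100010001000100010000) (.cons (nat_lit 0x5401) (nat_lit 0x20002000100000000000000000001) (.cons (nat_lit 0x1540) (nat_lit 0x1000200020001000000000000) (.cons (nat_lit 0x5015) (nat_lit 0x10001000000000000000100010001) .nil)))) (.cons (nat_lit 0x111100) (nat_lit 0x1000010) (nat_lit 0x10) (nat_lit 0x12300) .nil))) (.non (nat_lit 1) (nat_lit 6) (nat_lit 0x540) (nat_lit 0x100010001000000000000))) (.non (nat_lit 1) (nat_lit 5) (nat_lit 0x7001) (nat_lit 0x20001000000000000000000000001)))))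

noncomputable def t746 : Tr := (.split (nat_lit 7) (nat_lit 0) (.split (nat_lit 7) (nat_lit 3) (.split (nat_lit 4) (nat_lit 0) (.split (nat_lit 4) (nat_lit 3) .uj (.split (nat_lit 7) (nat_lit 6) (.split (nat_lit 4) (nat_lit 3) (.sup (nat_lit 0x20009000a0005) (nat_lit 0x7000a000a00060000000000000000)) (.non (nat_lit 1) (nat_lit 6) (nat_lit 0x540) (nat_lit 0x100010001000000000000))) (.sup (nat_lit 0x20009000a0005) (nat_lit 0x8000a000700020000000000000000)))) (.split (nat_lit 4) (nat_lit 3) (.split (nat_lit 7) (nat_lit 6) (.split (nat_lit 4) (nat_lit 0) (.sup (nat_lit 0x5000a00090002) (nat_lit 0x7000a000a00060000000000000000)) (.non (nat_lit 1) (nat_lit 6) (nat_lit 0x501) (nat_lit 0x100010000000000000001))) (.sup (nat_lit 0x5000a00090002) (nat_lit 0x8000a000700020000000000000000))) (.non (nat_lit 1) (nat_lit 6) (nat_lit 0x541) (nat_lit 0x200020001000000000001)))) (.split (nat_lit 4) (nat_lit 3) (.split (nat_lit 4) (nat_lit 0) (.split (nat_lit 7) (nat_lit 3) (.sup (nat_lit 0x1000500050003) (nat_lit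 0x10003000500040000000000000000)) (.non (nat_lit 1) (nat_lit 5) (nat_lit 0x9040) (nat_lit 0x10001000000000001000000000000))) (.st (nat_lit 0) (nat_lit 2) (nat_lit 6) (nat_lit 0x505) (nat_lit 0x200020000000000010002) (nat_lit 1) (nat_lit 1) (.st (nat_lit 1) (nat_lit 2) (nat_lit 6) (nat_lit 0x505) (nat_lit 0x300040000000000020003) (nat_lit 1) (nat_lit 1) (.st (nat_lit 3) (nat_lit 1) (nat_lit 5) (nat_lit 0x6050) (nat_lit 0x20001000000000002000100000000) (nat_lit 1) (nat_lit 1) (.st (nat_lit 4) (nat_lit 1) (nat_lit 6) (nat_lit 0x501) (nat_lit 0x200020000000000000001) (nat_lit 1) (nat_lit 1) (.st (nat_lit 5) (nat_lit 1) (nat_lit 6) (nat_lit 0x501) (nat_lit 0x200020000000000000001) (nat_lit 1) (nat_lit 1) (.st (nat_lit 6) (nat_lit 1) (nat_lit 5) (nat_lit 0x6050) (nat_lit 0x30002000000000002000100000000) (nat_lit 2) (nat_lit 1) (.st (nat_lit 7) (nat_lit 1) (nat_lit 5) (nat_lit 0x6040) (nat_lit 0x20001000000000001000000000000) (nat_lit 1) (nat_lit 1) (.split (nat_lit 7) (nat_lit 3) t746_1 (.non (nat_lit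 1) (nat_lit 5) (nat_lit 0x9040) (nat_lit 0x10001000000000001000000000000))))))))))) (.non (nat_lit 1) (nat_lit 5) (nat_lit 0x6150) (nat_lit 0x20001000000010002000100000000)))) (.split (nat_lit 7) (nat_lit 3) (.split (nat_lit 4) (nat_lit 0) (.split (nat_lit 4) (nat_lit 3) (.split (nat_lit 7) (nat_lit 0) (.sup (nat_lit 0x3000500050001) (nat_lit 0x10003000500040000000000000000)) (.non (nat_lit 1) (nat_lit 5) (nat_lit 0x9001) (nat_lit 0x10001000000000000000000000001))) (.st (nat_lit 0) (nat_lit 2) (nat_lit 5) (nat_lit 0x6005) (nat_lit 0x20001000000000000000000010002) (nat_lit 1) (nat_lit 1) (.st (nat_lit 2) (nat_lit 1) (nat_lit 6) (nat_lit 0x550) (nat_lit 0x300040003000200000000) (nat_lit 1) (nat_lit 1) (.st (nat_lit 3) (nat_lit 1) (nat_lit 6) (nat_lit 0x550) (nat_lit 0x200020002000100000000) (nat_lit 1) (nat_lit 1) (.st (nat_lit 4) (nat_lit 1) (nat_lit 6) (nat_lit 0x540) (nat_lit 0x200020001000000000000) (nat_lit 1) (nat_lit 1) (.st (nat_lit 5) (nat_lit 1) (nat_lit 6) (nat_lit 0x540) (nat_lit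 0x200020001000000000000) (nat_lit 1) (nat_lit 1) (.st (nat_lit 6) (nat_lit 2) (nat_lit 5) (nat_lit 0x6005) (nat_lit 0x30002000000000000000000010002) (nat_lit 2) (nat_lit 1) (.st (nat_lit 7) (nat_lit 1) (nat_lit 5) (nat_lit 0x6001) (nat_lit 0x20001000000000000000000000001) (nat_lit 1) (nat_lit 1) (.split (nat_lit 7) (nat_lit 0) t746_2 (.non (nat_lit 1) (nat_lit 5) (nat_lit 0x9001) (nat_lit 0x10001000000000000000000000001))))))))))) (.non (nat_lit 2) (nat_lit 5) (nat_lit 0x6105) (nat_lit 0x20001000000010000000000010002))) (.non (nat_lit 1) (nat_lit 5) (nat_lit 0x6041) (nat_lit 0x20001000000000001000000000001))))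

noncomputable def t749_1 : Tr := (.ex (nat_lit 4) (.ex (nat_lit 7) (.pd (.cons (nat_lit 0) (nat_lit 6) (nat_lit 0) (nat_lit 0x50442110) (nat_lit 0xf423f00000b71ae1f156f423fb71ae1f15600000) (.cons (nat_lit 1) (nat_lit 6) (nat_lit 0) (nat_lit 0x50442200) (nat_lit 0xf423f00000b71ae1f156f423fb71ae00000f423f) (.cons (nat_lit 2) (nat_lit 6) (nat_lit 0) (nat_lit 0x50443000) (nat_lit 0xf423f00000b71ae1f156f423f00000f423fb71ae) (.cons (nat_lit 3) (nat_lit 6) (nat_lit 0) (nat_lit 0x50440100) (nat_lit 0xf423f00000b71ae1f15600000f423f54591437a2) .nil)))) (.leaf (.cons (nat_lit 0x1454) (nat_lit 0x2000100000003000400030000) (.cons (nat_lit 0x1550) (nat_lit 0x3000400030002000100000000) (.cons (nat_lit 0x1541) (nat_lit 0x2000200020001000000000001) (.cons (nat_lit 0x1415) (nat_lit 0x2000100000000000300040003) .nil)))) .nil)) (.split (nat_lit 8) (nat_lit 0) (.split (nat_lit 8) (nat_lit 1) (.split (nat_lit 8) (nat_lit 2) (.split (nat_lit 8) (nat_lit 3) (.split (nat_lit 8) (nat_lit 5) (.split (nat_lit 8) (nat_lit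 6) (.split (nat_lit 8) (nat_lit 4) (.sup (nat_lit 0x300050001000800060000000000000000) (nat_lit 0x3000700070003)) (.unj (nat_lit 0x55) (nat_lit 0x1000200020001) (nat_lit 0x14500) (nat_lit 0x100010000000100010000000000000000))) (.non (nat_lit 1) (nat_lit 4) (nat_lit 0x15400) (nat_lit 0x100010001000100000000000000000000))) (.non (nat_lit 1) (nat_lit 4) (nat_lit 0x14400) (nat_lit 0x100010000000100000000000000000000))) (.non (nat_lit 1) (nat_lit 4) (nat_lit 0x15440) (nat_lit 0x100010001000100000001000000000000))) (.non (nat_lit 1) (nat_lit 4) (nat_lit 0x15450) (nat_lit 0x100010001000100000001000100000000))) (.non (nat_lit 2) (nat_lit 4) (nat_lit 0x15405) (nat_lit 0x100010001000100000000000000010001))) (.non (nat_lit 1) (nat_lit 4) (nat_lit 0x15401) (nat_lit 0x100010001000100000000000000000001)))) (.split (nat_lit 8) (nat_lit 0) (.split (nat_lit 8) (nat_lit 1) (.split (nat_lit 8) (nat_lit 2) (.split (nat_lit 8) (nat_lit 3) (.split (nat_lit 8) (nat_lit 5) (.split (nat_lit 8) (nat_lit 6) (.split (nat_lit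 8) (nat_lit 7) (.unj (nat_lit 0x55) (nat_lit 0x1000200020001) (nat_lit 0x14500) (nat_lit 0x100010000000200020000000000000000)) (.unj (nat_lit 0x55) (nat_lit 0x1000200020001) (nat_lit 0x14500) (nat_lit 0x100010000000100010000000000000000))) (.non (nat_lit 1) (nat_lit 4) (nat_lit 0x11441) (nat_lit 0x100000002000100000001000000000001))) (.non (nat_lit 1) (nat_lit 4) (nat_lit 0x15441) (nat_lit 0x100010002000200000001000000000001))) (.non (nat_lit 1) (nat_lit 4) (nat_lit 0x11451) (nat_lit 0x100000002000100000002000100000001))) (.star (nat_lit 8) (nat_lit 2) (nat_lit 4))) (.star (nat_lit 8) (nat_lit 1) (nat_lit 4))) (.non (nat_lit 1) (nat_lit 4) (nat_lit 0x15451) (nat_lit 0x100010003000200000002000100000002))))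

noncomputable def t749_2 : Tr := (.st (nat_lit 5) (nat_lit 1) (nat_lit 4) (nat_lit 0x5441) (nat_lit 0x10002000200000001000000000001) (nat_lit 1) (nat_lit 1) (.st (nat_lit 6) (nat_lit 1) (nat_lit 4) (nat_lit 0x1441) (nat_lit 0x2000100000001000000000001) (nat_lit 1) (nat_lit 1) (.ex (nat_lit 1) (.ex (nat_lit 2) (.split (nat_lit 6) (nat_lit 3) (.split (nat_lit 6) (nat_lit 0) (.pd (.cons (nat_lit 0) (nat_lit 5) (nat_lit 0) (nat_lit 0x73042110) (nat_lit 0xf423ff423f00000f423fb71aea2c280473700000) (.cons (nat_lit 3) (nat_lit 5) (nat_lit 0) (nat_lit 0x70040100) (nat_lit 0xf423ff423f00000f423f00000f423f5459106711) .nil)) t749_1) (.non (nat_lit 1) (nat_lit 4) (nat_lit 0x2881) (nat_lit 0x2000100000001000000000002))) (.non (nat_lit 1) (nat_lit 4) (nat_lit 0xa850) (nat_lit 0x10003000200000004000200000000))) (.split (nat_lit 8) (nat_lit 0) (.split (nat_lit 8) (nat_lit 3) (.split (nat_lit 8) (nat_lit 4) (.split (nat_lit 8) (nat_lit 5) (.split (nat_lit 8) (nat_lit 6) (.split (nat_lit 8) (nat_lit 7) (.split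 (nat_lit 8) (nat_lit 1) (.sup (nat_lit 0x500000000000000000000000a00090002) (nat_lit 0x50002000a00080000000000000000)) (.unj (nat_lit 0x10014) (nat_lit 0x100000000000000000000000100010000) (nat_lit 0x5500) (nat_lit 0x10001000200020000000000000000))) (.non (nat_lit 1) (nat_lit 4) (nat_lit 0x15450) (nat_lit 0x100010001000100000001000100000000))) (.non (nat_lit 1) (nat_lit 4) (nat_lit 0x11050) (nat_lit 0x100000001000000000001000100000000))) (.star (nat_lit 8) (nat_lit 2) (nat_lit 5))) (.star (nat_lit 8) (nat_lit 2) (nat_lit 4))) (.non (nat_lit 1) (nat_lit 4) (nat_lit 0x10050) (nat_lit 0x100000000000000000001000100000000))) (.non (nat_lit 1) (nat_lit 4) (nat_lit 0x11051) (nat_lit 0x100000001000000000001000100000001)))) (.split (nat_lit 8) (nat_lit 0) (.split (nat_lit 8) (nat_lit 3) (.split (nat_lit 8) (nat_lit 4) (.split (nat_lit 8) (nat_lit 5) (.split (nat_lit 8) (nat_lit 6) (.split (nat_lit 8) (nat_lit 7) (.split (nat_lit 8) (nat_lit 2) (.sup (nat_lit 0x300000000000000000000000400050001) (nat_lit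 0x30001000500040000000000000000)) (.unj (nat_lit 0x10014) (nat_lit 0x100000000000000000000000100010000) (nat_lit 0x5500) (nat_lit 0x10001000200020000000000000000))) (.non (nat_lit 2) (nat_lit 4) (nat_lit 0x15405) (nat_lit 0x100010001000100000000000000010001))) (.non (nat_lit 1) (nat_lit 4) (nat_lit 0x11441) (nat_lit 0x100000002000100000001000000000001))) (.star (nat_lit 8) (nat_lit 1) (nat_lit 5))) (.star (nat_lit 8) (nat_lit 1) (nat_lit 4))) (.non (nat_lit 1) (nat_lit 4) (nat_lit 0x11451) (nat_lit 0x100000002000100000002000100000001))) (.non (nat_lit 1) (nat_lit 4) (nat_lit 0x15451) (nat_lit 0x100010003000200000002000100000002))))))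

noncomputable def t749_3 : Tr := (.ex (nat_lit 7) (.split (nat_lit 7) (nat_lit 3) (.pd (.cons (nat_lit 0) (nat_lit 5) (nat_lit 0) (nat_lit 0x36042110) (nat_lit 0xf423ff423f00000f423fb71aea2c280473700000) (.cons (nat_lit 2) (nat_lit 6) (nat_lit 0) (nat_lit 0x30753000) (nat_lit 0x437a20000054591f423f174ea00000f423fb71ae) (.cons (nat_lit 3) (nat_lit 6) (nat_lit 0) (nat_lit 0x50440100) (nat_lit 0xf423f00000b71ae1f15600000f423f54591437a2) .nil))) (.leaf (.cons (nat_lit 0x4454) (nat_lit 0x20000000100000003000400030000) (.cons (nat_lit 0x4550) (nat_lit 0x30000000400030002000100000000) (.cons (nat_lit 0x1505) (nat_lit 0x3000400030000000000010002) (.cons (nat_lit 0x1415) (nat_lit 0x2000100000000000300040003) .nil)))) (.cons (nat_lit 0x10001110) (nat_lit 0x100001) (nat_lit 0x10) (nat_lit 0x30002100) .nil))) (.non (nat_lit 1) (nat_lit 4) (nat_lit 0xa850) (nat_lit 0x30001000200000004000200000000))) (.split (nat_lit 8) (nat_lit 0) (.split (nat_lit 8) (nat_lit 1) (.split (nat_lit 8) (nat_lit 2) (.split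 (nat_lit 8) (nat_lit 3) (.split (nat_lit 8) (nat_lit 4) (.split (nat_lit 8) (nat_lit 5) (.split (nat_lit 8) (nat_lit 6) (.st (nat_lit 7) (nat_lit 1) (nat_lit 4) (nat_lit 0x14440) (nat_lit 0x100020000000100000001000000000000) (nat_lit 1) (nat_lit 1) (.st (nat_lit 8) (nat_lit 1) (nat_lit 4) (nat_lit 0x15450) (nat_lit 0x200030001000200000002000100000000) (nat_lit 1) (nat_lit 1) (.split (nat_lit 8) (nat_lit 7) (.pd (.cons (nat_lit 3) (nat_lit 6) (nat_lit 0) (nat_lit 0x750440100) (nat_lit 0xf423fb71ae00000a2c280473700000f423f54591437a2) .nil) (.split (nat_lit 7) (nat_lit 3) (.leaf (.cons (nat_lit 0x14054) (nat_lit 0x100020000000000000003000400030000) (.cons (nat_lit 0x14540) (nat_lit 0x100020000000200020001000000000000) (.cons (nat_lit 0x1505) (nat_lit 0x3000400030000000000010002) (.cons (nat_lit 0x1415) (nat_lit 0x2000100000000000300040003) .nil)))) (.cons (nat_lit 0x111101011) (nat_lit 0x10100) (nat_lit 0xa) (nat_lit 0x204301065) .nil)) (.non (nat_lit 1) (nat_lit 4) (nat_lit 0x28840) (nat_lit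 0x100020000000100000002000000000000)))) (.non (nat_lit 1) (nat_lit 4) (nat_lit 0x24440) (nat_lit 0x100020000000100000001000000000000))))) (.non (nat_lit 1) (nat_lit 4) (nat_lit 0x15400) (nat_lit 0x100010001000100000000000000000000))) (.non (nat_lit 1) (nat_lit 4) (nat_lit 0x14400) (nat_lit 0x100010000000100000000000000000000))) (.non (nat_lit 0) (nat_lit 7) (nat_lit 0x11500) (nat_lit 0x100000001000200020000000000000000))) (.non (nat_lit 1) (nat_lit 4) (nat_lit 0x14040) (nat_lit 0x100010000000000000001000000000000))) (.non (nat_lit 1) (nat_lit 4) (nat_lit 0x14050) (nat_lit 0x100010000000000000001000100000000))) (.non (nat_lit 2) (nat_lit 4) (nat_lit 0x15405) (nat_lit 0x100010001000100000000000000010001))) (.non (nat_lit 1) (nat_lit 4) (nat_lit 0x15401) (nat_lit 0x100010001000100000000000000000001))))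

noncomputable def t749_4 : Tr := (.split (nat_lit 8) (nat_lit 0) (.split (nat_lit 8) (nat_lit 1) (.split (nat_lit 8) (nat_lit 2) (.split (nat_lit 8) (nat_lit 3) (.split (nat_lit 8) (nat_lit 5) (.split (nat_lit 8) (nat_lit 7) (.split (nat_lit 8) (nat_lit 4) (.st (nat_lit 6) (nat_lit 1) (nat_lit 4) (nat_lit 0x11401) (nat_lit 0x100000002000100000000000000000001) (nat_lit 1) (nat_lit 1) (.st (nat_lit 7) (nat_lit 1) (nat_lit 4) (nat_lit 0x15441) (nat_lit 0x100020002000200000001000000000001) (nat_lit 1) (nat_lit 1) (.split (nat_lit 7) (nat_lit 3) (.pd (.cons (nat_lit 0) (nat_lit 5) (nat_lit 0x101000000) (nat_lit 0x638042110) (nat_lit 0x1f423f0000100000f423fb71aea2c280473700000) (.cons (nat_lit 2) (nat_lit 6) (nat_lit 0) (nat_lit 0x830753000) (nat_lit 0xf423f437a20000054591f423f174ea00000f423fb71ae) (.cons (nat_lit 3) (nat_lit 6) (nat_lit 0) (nat_lit 0x850440100) (nat_lit 0xf423ff423f00000b71ae1f15600000f423f54591437a2) .nil))) (.st (nat_lit 8) (nat_lit 2) (nat_lit 4) (nat_lit 0x15405) (nat_lit 0x200010003000200000000000000010002)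 (nat_lit 1) (nat_lit 1) (.split (nat_lit 8) (nat_lit 6) (.pd (.cons (nat_lit 0) (nat_lit 7) (nat_lit 0) (nat_lit 0x605442110) (nat_lit 0xf423f00000b71aea2c2804737f423fb71ae1f15600000) .nil) (.split (nat_lit 6) (nat_lit 0) (.leaf (.cons (nat_lit 0x4454) (nat_lit 0x20000000100000003000400030000) (.cons (nat_lit 0x4550) (nat_lit 0x30000000400030002000100000000) (.cons (nat_lit 0x11501) (nat_lit 0x100000002000200020000000000000001) (.cons (nat_lit 0x11015) (nat_lit 0x100000002000000000000000300040003) .nil)))) (.cons (nat_lit 0x111101101) (nat_lit 0x10010) (nat_lit 0xa) (nat_lit 0x240305601) .nil)) (.non (nat_lit 1) (nat_lit 4) (nat_lit 0x22801) (nat_lit 0x100000002000100000000000000000002)))) (.non (nat_lit 1) (nat_lit 4) (nat_lit 0x21401) (nat_lit 0x100000002000100000000000000000001))))) (.non (nat_lit 1) (nat_lit 4) (nat_lit 0xa850) (nat_lit 0x30001000200000004000200000000))))) (.sup (nat_lit 0x3000500050001) (nat_lit 0x300000001000400050000000000000000))) (.non (nat_lit 1) (nat_lit 4) (nat_lit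 0x15400) (nat_lit 0x100010001000100000000000000000000))) (.non (nat_lit 1) (nat_lit 4) (nat_lit 0x11400) (nat_lit 0x100000001000100000000000000000000))) (.non (nat_lit 1) (nat_lit 4) (nat_lit 0x15440) (nat_lit 0x100010001000100000001000000000000))) (.non (nat_lit 1) (nat_lit 4) (nat_lit 0x15450) (nat_lit 0x100010001000100000001000100000000))) (.non (nat_lit 2) (nat_lit 4) (nat_lit 0x11005) (nat_lit 0x100000001000000000000000000010001))) (.non (nat_lit 1) (nat_lit 4) (nat_lit 0x11001) (nat_lit 0x100000001000000000000000000000001)))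

noncomputable def t749_5 : Tr := (.split (nat_lit 8) (nat_lit 3) (.split (nat_lit 8) (nat_lit 5) (.split (nat_lit 8) (nat_lit 6) (.split (nat_lit 8) (nat_lit 7) (.split (nat_lit 8) (nat_lit 4) (.split (nat_lit 7) (nat_lit 3) (.sup (nat_lit 0x20009000a0005) (nat_lit 0x5000200000009000a0000000000000000)) (.non (nat_lit 1) (nat_lit 4) (nat_lit 0xa850) (nat_lit 0x30001000200000004000200000000))) (.unj (nat_lit 0x10500) (nat_lit 0x100000000000100010000000000000000) (nat_lit 0x55) (nat_lit 0x1000200020001))) (.sup (nat_lit 0x1000500050003) (nat_lit 0x300010000000400050000000000000000))) (.split (nat_lit 8) (nat_lit 7) (.sup (nat_lit 0x3000500050001) (nat_lit 0x300000001000400050000000000000000)) (.non (nat_lit 1) (nat_lit 4) (nat_lit 0x15400) (nat_lit 0x100010001000100000000000000000000)))) (.split (nat_lit 8) (nat_lit 6) (.split (nat_lit 8) (nat_lit 7) (.unj (nat_lit 0x10500) (nat_lit 0x100000000000100010000000000000000) (nat_lit 0x55) (nat_lit 0x1000200020001)) (.non (nat_lit 1) (nat_lit 4) (nat_lit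 0x14400) (nat_lit 0x100010000000100000000000000000000))) (.non (nat_lit 1) (nat_lit 4) (nat_lit 0x11400) (nat_lit 0x100000001000100000000000000000000)))) (.split (nat_lit 8) (nat_lit 5) (.split (nat_lit 8) (nat_lit 6) (.split (nat_lit 8) (nat_lit 7) (.st (nat_lit 6) (nat_lit 1) (nat_lit 4) (nat_lit 0x15451) (nat_lit 0x100020002000200000002000100000001) (nat_lit 1) (nat_lit 1) (.split (nat_lit 6) (nat_lit 0) (.pd (.cons (nat_lit 3) (nat_lit 5) (nat_lit 0x100010000) (nat_lit 0x470080100) (nat_lit 0x1f423ff423f000000000100000f423f5459106711) .nil) (.st (nat_lit 5) (nat_lit 1) (nat_lit 4) (nat_lit 0x15450) (nat_lit 0x100020001000200000002000100000000) (nat_lit 1) (nat_lit 1) (.st (nat_lit 7) (nat_lit 1) (nat_lit 4) (nat_lit 0x14450) (nat_lit 0x100020000000100000002000100000000) (nat_lit 1) (nat_lit 1) (.st (nat_lit 8) (nat_lit 1) (nat_lit 5) (nat_lit 0x14150) (nat_lit 0x200010000000000010002000100000000) (nat_lit 1) (nat_lit 1) (.split (nat_lit 8) (nat_lit 3) (.split (nat_lit 7) (nat_lit 3) (.leaf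 (.cons (nat_lit 0x14054) (nat_lit 0x100010000000000000002000200020000) (.cons (nat_lit 0x11500) (nat_lit 0x100000001000200020000000000000000) (.cons (nat_lit 0x14500) (nat_lit 0x100010000000200020000000000000000) (.cons (nat_lit 0x1415) (nat_lit 0x2000100000000000300040003) .nil)))) (.cons (nat_lit 0x111101011) (nat_lit 0x10100) (nat_lit 5) (nat_lit 0x642305001) .nil)) (.non (nat_lit 1) (nat_lit 4) (nat_lit 0x1a840) (nat_lit 0x200030001000200000004000000000000))) (.non (nat_lit 1) (nat_lit 4) (nat_lit 0x24050) (nat_lit 0x100010000000000000002000100000000))))))) (.non (nat_lit 1) (nat_lit 4) (nat_lit 0x2a8a1) (nat_lit 0x100020002000200000002000100000002)))) (.non (nat_lit 1) (nat_lit 4) (nat_lit 0x14040) (nat_lit 0x100010000000000000001000000000000))) (.non (nat_lit 1) (nat_lit 4) (nat_lit 0x15440) (nat_lit 0x100010001000100000001000000000000))) (.non (nat_lit 1) (nat_lit 4) (nat_lit 0x14440) (nat_lit 0x100010000000100000001000000000000))))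

noncomputable def t749_6 : Tr := (.ex (nat_lit 4) (.ex (nat_lit 5) (.ex (nat_lit 6) (.split (nat_lit 6) (nat_lit 0) (.pd (.cons (nat_lit 0) (nat_lit 7) (nat_lit 0) (nat_lit 0x5442110) (nat_lit 0xf423fb71ae1f156f423fb71ae1f15600000) (.cons (nat_lit 1) (nat_lit 7) (nat_lit 0) (nat_lit 0x652200) (nat_lit 0x437a254591f423ff423fb71ae00000174ea) (.cons (nat_lit 3) (nat_lit 5) (nat_lit 0) (nat_lit 0x70040100) (nat_lit 0xf423ff423f00000f423f00000f423f5459106711) .nil))) t749_3) (.non (nat_lit 2) (nat_lit 4) (nat_lit 0xa805) (nat_lit 0x10003000200000000000000020004))) t749_4) (.split (nat_lit 8) (nat_lit 0) (.split (nat_lit 8) (nat_lit 1) (.split (nat_lit 8) (nat_lit 2) (.split (nat_lit 8) (nat_lit 3) (.split (nat_lit 8) (nat_lit 6) (.split (nat_lit 8) (nat_lit 7) (.split (nat_lit 8) (nat_lit 4) (.sup (nat_lit 0x5000a00090002) (nat_lit 0x500000002000a00080000000000000000)) (.unj (nat_lit 0x10500) (nat_lit 0x100000000000100010000000000000000) (nat_lit 0x55) (nat_lit 0x1000200020001))) (.non (nat_lit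 1) (nat_lit 4) (nat_lit 0x14400) (nat_lit 0x100010000000100000000000000000000))) (.non (nat_lit 1) (nat_lit 4) (nat_lit 0x11400) (nat_lit 0x100000001000100000000000000000000))) (.non (nat_lit 1) (nat_lit 4) (nat_lit 0x14440) (nat_lit 0x100010000000100000001000000000000))) (.star (nat_lit 8) (nat_lit 2) (nat_lit 5))) (.star (nat_lit 8) (nat_lit 1) (nat_lit 5))) (.non (nat_lit 1) (nat_lit 4) (nat_lit 0x11401) (nat_lit 0x100000001000100000000000000000001)))) (.split (nat_lit 8) (nat_lit 1) (.split (nat_lit 8) (nat_lit 2) (.split (nat_lit 8) (nat_lit 0) t749_5 (.split (nat_lit 8) (nat_lit 3) (.split (nat_lit 8) (nat_lit 5) (.split (nat_lit 8) (nat_lit 6) (.split (nat_lit 8) (nat_lit 7) (.st (nat_lit 7) (nat_lit 2) (nat_lit 4) (nat_lit 0x15445) (nat_lit 0x100020002000200000001000000010002) (nat_lit 1) (nat_lit 1) (.split (nat_lit 7) (nat_lit 3) (.pd (.cons (nat_lit 0) (nat_lit 5) (nat_lit 0x100010000) (nat_lit 0x436082110) (nat_lit 0x1f423ff423f0000000001b71aea2c280473700000) .nil) (.st (nat_lit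 5) (nat_lit 1) (nat_lit 4) (nat_lit 0x15451) (nat_lit 0x100030003000400000002000100000002) (nat_lit 1) (nat_lit 2) (.st (nat_lit 6) (nat_lit 2) (nat_lit 4) (nat_lit 0x11405) (nat_lit 0x100000002000100000000000000010002) (nat_lit 1) (nat_lit 1) (.st (nat_lit 8) (nat_lit 2) (nat_lit 5) (nat_lit 0x11105) (nat_lit 0x200000001000000010000000000010002) (nat_lit 1) (nat_lit 1) (.split (nat_lit 8) (nat_lit 4) (.split (nat_lit 8) (nat_lit 0) (.split (nat_lit 6) (nat_lit 0) (.leaf (.cons (nat_lit 0x4454) (nat_lit 0x20000000100000003000400030000) (.cons (nat_lit 0x11500) (nat_lit 0x100000001000200020000000000000000) (.cons (nat_lit 0x14500) (nat_lit 0x100010000000200020000000000000000) (.cons (nat_lit 0x11015) (nat_lit 0x100000001000000000000000200020002) .nil)))) (.cons (nat_lit 0x111101101) (nat_lit 0x10010) (nat_lit 5) (nat_lit 0x624301005) .nil)) (.non (nat_lit 1) (nat_lit 4) (nat_lit 0x1a801) (nat_lit 0x200010003000200000000000000000004))) (.non (nat_lit 2) (nat_lit 4) (nat_lit 0x21005) (nat_lit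 0x100000001000000000000000000010002))) (.non (nat_lit 2) (nat_lit 5) (nat_lit 0x11205) (nat_lit 0x200000001000000010000000000010002))))))) (.non (nat_lit 1) (nat_lit 4) (nat_lit 0xa850) (nat_lit 0x30001000200000004000200000000)))) (.non (nat_lit 1) (nat_lit 4) (nat_lit 0x15401) (nat_lit 0x100010001000100000000000000000001))) (.non (nat_lit 1) (nat_lit 4) (nat_lit 0x11001) (nat_lit 0x100000001000000000000000000000001))) (.non (nat_lit 1) (nat_lit 4) (nat_lit 0x11401) (nat_lit 0x100000001000100000000000000000001))) (.non (nat_lit 1) (nat_lit 4) (nat_lit 0x15441) (nat_lit 0x100010001000100000001000000000001)))) (.star (nat_lit 8) (nat_lit 2) (nat_lit 4))) (.star (nat_lit 8) (nat_lit 1) (nat_lit 4))))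

noncomputable def t749_7 : Tr := (.ex (nat_lit 8) (.pd (.cons (nat_lit 0) (nat_lit 7) (nat_lit 0) (nat_lit 0x305442110) (nat_lit 0xf423f00000f423fb71ae1f156b71aea2c280473700000) .nil) (.split (nat_lit 7) (nat_lit 3) (.leaf (.cons (nat_lit 0x14054) (nat_lit 0x100010000000000000002000200020000) (.cons (nat_lit 0x14540) (nat_lit 0x100030000000400030002000000000000) (.cons (nat_lit 0x1505) (nat_lit 0x3000400030000000000010002) (.cons (nat_lit 0x1415) (nat_lit 0x2000100000000000300040003) .nil)))) (.cons (nat_lit 0x111101011) (nat_lit 0x10100) (nat_lit 5) (nat_lit 0x642305001) .nil)) (.non (nat_lit 1) (nat_lit 4) (nat_lit 0x1a840) (nat_lit 0x200030001000200000004000000000000)))) (.split (nat_lit 9) (nat_lit 0) (.split (nat_lit 9) (nat_lit 1) (.split (nat_lit 9) (nat_lit 2) (.split (nat_lit 9) (nat_lit 3) (.split (nat_lit 9) (nat_lit 4) (.split (nat_lit 9) (nat_lit 5) (.split (nat_lit 9) (nat_lit 6) (.split (nat_lit 9) (nat_lit 7) (.st (nat_lit 8) (nat_lit 1) (nat_lit 4) (nat_lit 0x54050) (nat_lit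 0x1000200010000000000000002000100000000) (nat_lit 1) (nat_lit 1) (.st (nat_lit 9) (nat_lit 1) (nat_lit 4) (nat_lit 0x55450) (nat_lit 0x2000300030001000200000004000200000000) (nat_lit 1) (nat_lit 1) (.split (nat_lit 9) (nat_lit 8) (.split (nat_lit 7) (nat_lit 3) (.leaf (.cons (nat_lit 0x50054) (nat_lit 0x1000200000000000000000003000400030000) (.cons (nat_lit 0x14540) (nat_lit 0x100030000000400030002000000000000) (.cons (nat_lit 0x1505) (nat_lit 0x3000400030000000000010002) (.cons (nat_lit 0x1415) (nat_lit 0x2000100000000000300040003) .nil)))) (.cons (nat_lit 0x1111101101) (nat_lit 0x10010) (nat_lit 0xe) (nat_lit 0x3246500107) .nil)) (.non (nat_lit 1) (nat_lit 4) (nat_lit 0x58840) (nat_lit 0x1000200020000000100000003000000000000))) (.non (nat_lit 1) (nat_lit 4) (nat_lit 0x94050) (nat_lit 0x1000200010000000000000002000100000000))))) (.non (nat_lit 1) (nat_lit 4) (nat_lit 0x54040) (nat_lit 0x1000100010000000000000001000000000000))) (.non (nat_lit 1) (nat_lit 4) (nat_lit 0x55440) (nat_lit 0x1000100010001000100000001000000000000)))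 (.non (nat_lit 1) (nat_lit 4) (nat_lit 0x54440) (nat_lit 0x1000100010000000100000001000000000000))) (.non (nat_lit 1) (nat_lit 7) (nat_lit 0x41500) (nat_lit 0x1000000000001000200020000000000000000))) (.non (nat_lit 1) (nat_lit 4) (nat_lit 0x50040) (nat_lit 0x1000100000000000000000001000000000000))) (.non (nat_lit 1) (nat_lit 4) (nat_lit 0x50050) (nat_lit 0x1000100000000000000000001000100000000))) (.non (nat_lit 2) (nat_lit 4) (nat_lit 0x55445) (nat_lit 0x1000100010001000100000001000000010001))) (.non (nat_lit 1) (nat_lit 4) (nat_lit 0x55441) (nat_lit 0x1000100010001000100000001000000000001))))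

noncomputable def t749_8 : Tr := (.split (nat_lit 8) (nat_lit 4) (.st (nat_lit 3) (nat_lit 1) (nat_lit 4) (nat_lit 0x14050) (nat_lit 0x100010000000000000002000100000000) (nat_lit 1) (nat_lit 1) (.st (nat_lit 5) (nat_lit 1) (nat_lit 4) (nat_lit 0x15450) (nat_lit 0x100020001000200000002000100000000) (nat_lit 1) (nat_lit 1) (.st (nat_lit 6) (nat_lit 1) (nat_lit 4) (nat_lit 0x15451) (nat_lit 0x100020002000200000002000100000001) (nat_lit 1) (nat_lit 1) (.split (nat_lit 6) (nat_lit 0) (.pd (.cons (nat_lit 3) (nat_lit 5) (nat_lit 0) (nat_lit 0x870040100) (nat_lit 0xf423ff423ff423f00000f423f00000f423f5459106711) .nil) (.st (nat_lit 7) (nat_lit 1) (nat_lit 4) (nat_lit 0x14450) (nat_lit 0x100020000000100000002000100000000) (nat_lit 1) (nat_lit 1) (.ex (nat_lit 4) (.split (nat_lit 8) (nat_lit 3) (.pd (.cons (nat_lit 1) (nat_lit 7) (nat_lit 0) (nat_lit 0x300652200) (nat_lit 0xf423f00000437a254591f423fb71aea2c2800000174ea) (.cons (nat_lit 3) (nat_lit 6) (nat_lit 0) (nat_lit 0x850440100) (nat_lit 0xf423ff423f00000b71ae1f15600000f423f54591437a2)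 .nil)) t749_7) (.non (nat_lit 1) (nat_lit 4) (nat_lit 0x24050) (nat_lit 0x100010000000000000002000100000000))) (.split (nat_lit 9) (nat_lit 0) (.split (nat_lit 9) (nat_lit 1) (.split (nat_lit 9) (nat_lit 2) (.split (nat_lit 9) (nat_lit 3) (.split (nat_lit 9) (nat_lit 5) (.split (nat_lit 9) (nat_lit 6) (.split (nat_lit 9) (nat_lit 7) (.split (nat_lit 9) (nat_lit 8) (.sup (nat_lit 0x5000a00090002) (nat_lit 0x50000000000020009000a0000000000000000)) (.sup (nat_lit 0x5000a00090002) (nat_lit 0x50000000000020009000a0000000000000000))) (.non (nat_lit 1) (nat_lit 4) (nat_lit 0x54450) (nat_lit 0x1000100020000000100000002000100000000))) (.non (nat_lit 1) (nat_lit 4) (nat_lit 0x55451) (nat_lit 0x1000100020002000200000002000100000001))) (.non (nat_lit 1) (nat_lit 4) (nat_lit 0x55450) (nat_lit 0x1000100020001000200000002000100000000))) (.non (nat_lit 1) (nat_lit 4) (nat_lit 0x54050) (nat_lit 0x1000100010000000000000002000100000000))) (.star (nat_lit 9) (nat_lit 2) (nat_lit 4))) (.star (nat_lit 9) (nat_lit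 1) (nat_lit 4))) (.non (nat_lit 3) (nat_lit 5) (nat_lit 0x41015) (nat_lit 0x1000000000001000000000000000200020002)))))) (.non (nat_lit 1) (nat_lit 4) (nat_lit 0x2a8a1) (nat_lit 0x100020002000200000002000100000002)))))) (.st (nat_lit 6) (nat_lit 1) (nat_lit 4) (nat_lit 0x15451) (nat_lit 0x100020002000200000002000100000001) (nat_lit 1) (nat_lit 1) (.split (nat_lit 6) (nat_lit 0) (.pd (.cons (nat_lit 3) (nat_lit 5) (nat_lit 0x100010000) (nat_lit 0x470080100) (nat_lit 0x1f423ff423f000000000100000f423f5459106711) .nil) (.st (nat_lit 3) (nat_lit 1) (nat_lit 4) (nat_lit 0x14050) (nat_lit 0x100010000000000000002000100000000) (nat_lit 1) (nat_lit 1) (.st (nat_lit 5) (nat_lit 1) (nat_lit 4) (nat_lit 0x15450) (nat_lit 0x100020001000200000002000100000000) (nat_lit 1) (nat_lit 1) (.st (nat_lit 7) (nat_lit 1) (nat_lit 4) (nat_lit 0x14450) (nat_lit 0x100020000000100000002000100000000) (nat_lit 1) (nat_lit 1) (.st (nat_lit 8) (nat_lit 1) (nat_lit 5) (nat_lit 0x14150) (nat_lit 0x200010000000000010002000100000000)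 (nat_lit 1) (nat_lit 1) (.split (nat_lit 8) (nat_lit 3) (.split (nat_lit 7) (nat_lit 3) (.leaf (.cons (nat_lit 0x14054) (nat_lit 0x100010000000000000002000200020000) (.cons (nat_lit 0x11500) (nat_lit 0x100000001000200020000000000000000) (.cons (nat_lit 0x14500) (nat_lit 0x100010000000200020000000000000000) (.cons (nat_lit 0x1415) (nat_lit 0x2000100000000000300040003) .nil)))) (.cons (nat_lit 0x111101011) (nat_lit 0x10100) (nat_lit 5) (nat_lit 0x642305001) .nil)) (.non (nat_lit 1) (nat_lit 4) (nat_lit 0x1a840) (nat_lit 0x200030001000200000004000000000000))) (.non (nat_lit 1) (nat_lit 4) (nat_lit 0x24050) (nat_lit 0x100010000000000000002000100000000)))))))) (.non (nat_lit 1) (nat_lit 4) (nat_lit 0x2a8a1) (nat_lit 0x100020002000200000002000100000002)))))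

noncomputable def t749_9 : Tr := (.ex (nat_lit 1) (.ex (nat_lit 2) (.ex (nat_lit 3) t749_6 (.split (nat_lit 8) (nat_lit 0) (.split (nat_lit 8) (nat_lit 1) (.split (nat_lit 8) (nat_lit 2) (.split (nat_lit 8) (nat_lit 5) (.split (nat_lit 8) (nat_lit 6) (.split (nat_lit 8) (nat_lit 7) t749_8 (.non (nat_lit 1) (nat_lit 4) (nat_lit 0x14040) (nat_lit 0x100010000000000000001000000000000))) (.non (nat_lit 1) (nat_lit 4) (nat_lit 0x15440) (nat_lit 0x100010001000100000001000000000000))) (.non (nat_lit 1) (nat_lit 4) (nat_lit 0x14440) (nat_lit 0x100010000000100000001000000000000))) (.non (nat_lit 1) (nat_lit 4) (nat_lit 0x10050) (nat_lit 0x100000000000000000001000100000000))) (.non (nat_lit 2) (nat_lit 4) (nat_lit 0x15445) (nat_lit 0x100010001000100000001000000010001))) (.non (nat_lit 1) (nat_lit 4) (nat_lit 0x15441) (nat_lit 0x100010001000100000001000000000001)))) (.split (nat_lit 8) (nat_lit 0) (.split (nat_lit 8) (nat_lit 3) (.split (nat_lit 8) (nat_lit 4) (.split (nat_lit 8) (nat_lit 5) (.split (nat_lit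 8) (nat_lit 6) (.split (nat_lit 8) (nat_lit 7) (.split (nat_lit 8) (nat_lit 1) (.sup (nat_lit 0x500000000000000000000000a00090002) (nat_lit 0x50002000a00080000000000000000)) (.unj (nat_lit 0x10014) (nat_lit 0x100000000000000000000000100010000) (nat_lit 0x5500) (nat_lit 0x10001000200020000000000000000))) (.non (nat_lit 1) (nat_lit 4) (nat_lit 0x14050) (nat_lit 0x100010000000000000001000100000000))) (.non (nat_lit 1) (nat_lit 4) (nat_lit 0x15450) (nat_lit 0x100010001000100000001000100000000))) (.star (nat_lit 8) (nat_lit 2) (nat_lit 5))) (.star (nat_lit 8) (nat_lit 2) (nat_lit 4))) (.non (nat_lit 1) (nat_lit 4) (nat_lit 0x10050) (nat_lit 0x100000000000000000001000100000000))) (.non (nat_lit 1) (nat_lit 4) (nat_lit 0x15451) (nat_lit 0x100010001000100000001000100000001)))) (.split (nat_lit 8) (nat_lit 0) (.split (nat_lit 8) (nat_lit 3) (.split (nat_lit 8) (nat_lit 4) (.split (nat_lit 8) (nat_lit 5) (.split (nat_lit 8) (nat_lit 6) (.split (nat_lit 8) (nat_lit 7) (.split (nat_lit 8) (nat_lit 2) (.sup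 (nat_lit 0x300000000000000000000000400050001) (nat_lit 0x30001000500040000000000000000)) (.unj (nat_lit 0x10014) (nat_lit 0x100000000000000000000000100010000) (nat_lit 0x5500) (nat_lit 0x10001000200020000000000000000))) (.non (nat_lit 2) (nat_lit 4) (nat_lit 0x15405) (nat_lit 0x100010001000100000000000000010001))) (.non (nat_lit 2) (nat_lit 4) (nat_lit 0x11005) (nat_lit 0x100000001000000000000000000010001))) (.star (nat_lit 8) (nat_lit 1) (nat_lit 5))) (.star (nat_lit 8) (nat_lit 1) (nat_lit 4))) (.non (nat_lit 2) (nat_lit 4) (nat_lit 0x15445) (nat_lit 0x100010001000100000001000000010001))) (.non (nat_lit 2) (nat_lit 4) (nat_lit 0x10005) (nat_lit 0x100000000000000000000000000010001))))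

noncomputable def t749_10 : Tr := (.ex (nat_lit 8) (.pd (.cons (nat_lit 3) (nat_lit 6) (nat_lit 0) (nat_lit 0x50440100) (nat_lit 0xf423ff423f00000b71ae1f15600000f423f5459106711) .nil) (.split (nat_lit 6) (nat_lit 0) (.leaf (.cons (nat_lit 0x4454) (nat_lit 0x20000000100000003000400030000) (.cons (nat_lit 0x4550) (nat_lit 0x30000000400030002000100000000) (.cons (nat_lit 0x11501) (nat_lit 0x100000003000400030000000000000002) (.cons (nat_lit 0x11015) (nat_lit 0x100000001000000000000000200020002) .nil)))) (.cons (nat_lit 0x111101101) (nat_lit 0x10010) (nat_lit 5) (nat_lit 0x624301005) .nil)) (.non (nat_lit 1) (nat_lit 4) (nat_lit 0x1a801) (nat_lit 0x200010003000200000000000000000004)))) (.split (nat_lit 9) (nat_lit 0) (.split (nat_lit 9) (nat_lit 1) (.split (nat_lit 9) (nat_lit 2) (.split (nat_lit 9) (nat_lit 3) (.split (nat_lit 9) (nat_lit 4) (.split (nat_lit 9) (nat_lit 5) (.split (nat_lit 9) (nat_lit 6) (.split (nat_lit 9) (nat_lit 7) (.st (nat_lit 8) (nat_lit 2) (nat_lit 4) (nat_lit 0x51005)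 (nat_lit 0x1000200000001000000000000000000010002) (nat_lit 1) (nat_lit 1) (.st (nat_lit 9) (nat_lit 2) (nat_lit 4) (nat_lit 0x55405) (nat_lit 0x2000300010003000200000000000000020004) (nat_lit 1) (nat_lit 1) (.split (nat_lit 9) (nat_lit 8) (.split (nat_lit 6) (nat_lit 0) (.leaf (.cons (nat_lit 0x4454) (nat_lit 0x20000000100000003000400030000) (.cons (nat_lit 0x4550) (nat_lit 0x30000000400030002000100000000) (.cons (nat_lit 0x11501) (nat_lit 0x100000003000400030000000000000002) (.cons (nat_lit 0x50015) (nat_lit 0x1000200000000000000000000000300040003) .nil)))) (.cons (nat_lit 0x1111101011) (nat_lit 0x10100) (nat_lit 0xe) (nat_lit 0x3264507010) .nil)) (.non (nat_lit 1) (nat_lit 4) (nat_lit 0x52801) (nat_lit 0x1000200000002000100000000000000000003))) (.non (nat_lit 2) (nat_lit 4) (nat_lit 0x91005) (nat_lit 0x1000200000001000000000000000000010002))))) (.non (nat_lit 1) (nat_lit 4) (nat_lit 0x55450) (nat_lit 0x2000100030001000200000002000100000000))) (.non (nat_lit 1) (nat_lit 4) (nat_lit 0x51001)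 (nat_lit 0x1000100000001000000000000000000000001))) (.non (nat_lit 1) (nat_lit 4) (nat_lit 0x51401) (nat_lit 0x1000100000001000100000000000000000001))) (.non (nat_lit 0) (nat_lit 7) (nat_lit 0x41500) (nat_lit 0x1000000000001000200020000000000000000))) (.non (nat_lit 1) (nat_lit 4) (nat_lit 0x55441) (nat_lit 0x1000100010001000100000001000000000001))) (.non (nat_lit 1) (nat_lit 4) (nat_lit 0x55451) (nat_lit 0x1000100010001000100000001000100000001))) (.non (nat_lit 2) (nat_lit 4) (nat_lit 0x50005) (nat_lit 0x1000100000000000000000000000000010001))) (.non (nat_lit 1) (nat_lit 4) (nat_lit 0x50001) (nat_lit 0x1000100000000000000000000000000000001))))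

noncomputable def t749_11 : Tr := (.ex (nat_lit 4) (.split (nat_lit 9) (nat_lit 3) (.split (nat_lit 8) (nat_lit 0) (.pd (.cons (nat_lit 0) (nat_lit 7) (nat_lit 0) (nat_lit 0x3805442110) (nat_lit 0xf423ff423f00000f423fb71ae1f156b71aea2c280473700000) (.cons (nat_lit 3) (nat_lit 6) (nat_lit 0) (nat_lit 0x9050440100) (nat_lit 0xf423ff423ff423f00000b71ae1f15600000f423f5459106711) .nil)) (.split (nat_lit 7) (nat_lit 3) (.split (nat_lit 6) (nat_lit 0) (.leaf (.cons (nat_lit 0x44054) (nat_lit 0x1000000010000000000000002000200020000) (.cons (nat_lit 0x44540) (nat_lit 0x1000000030000000400030002000000000000) (.cons (nat_lit 0x11501) (nat_lit 0x100000003000400030000000000000002) (.cons (nat_lit 0x11015) (nat_lit 0x100000001000000000000000200020002) .nil)))) (.cons (nat_lit 0x1111101101) (nat_lit 0x10010) (nat_lit 0xb) (nat_lit 0x2735400106) (.cons (nat_lit 0x1111101011) (nat_lit 0x10100) (nat_lit 0xb) (nat_lit 0x7253406010) .nil))) (.non (nat_lit 1) (nat_lit 4) (nat_lit 0x1a801) (nat_lit 0x200010003000200000000000000000004)))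 (.non (nat_lit 1) (nat_lit 4) (nat_lit 0x4a840) (nat_lit 0x2000000030001000200000004000000000000)))) (.non (nat_lit 1) (nat_lit 4) (nat_lit 0x65451) (nat_lit 0x1000100020002000200000002000100000002))) (.non (nat_lit 1) (nat_lit 4) (nat_lit 0x84050) (nat_lit 0x1000000010000000000000002000100000000))) (.split (nat_lit 0xa) (nat_lit 0) (.split (nat_lit 0xa) (nat_lit 1) (.split (nat_lit 0xa) (nat_lit 2) (.split (nat_lit 0xa) (nat_lit 3) (.split (nat_lit 0xa) (nat_lit 5) (.split (nat_lit 0xa) (nat_lit 6) (.split (nat_lit 0xa) (nat_lit 7) (.split (nat_lit 0xa) (nat_lit 8) (.split (nat_lit 0xa) (nat_lit 9) (.sup (nat_lit 0x500000000000000050009000a0000000000000000) (nat_lit 0x3000000010000000000000007000a00080000)) (.non (nat_lit 1) (nat_lit 4) (nat_lit 0x155451) (nat_lit 0x20004000100050003000400000006000300000002))) (.non (nat_lit 2) (nat_lit 4) (nat_lit 0x155445) (nat_lit 0x20001000400030005000400000002000000030006))) (.non (nat_lit 1) (nat_lit 4) (nat_lit 0x144450) (nat_lit 0x10001000000020000000100000002000100000000)))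 (.non (nat_lit 1) (nat_lit 4) (nat_lit 0x145451) (nat_lit 0x10001000000020002000200000002000100000001))) (.non (nat_lit 1) (nat_lit 4) (nat_lit 0x145450) (nat_lit 0x10001000000020001000200000002000100000000))) (.non (nat_lit 1) (nat_lit 4) (nat_lit 0x144050) (nat_lit 0x10001000000010000000000000002000100000000))) (.star (nat_lit 0xa) (nat_lit 2) (nat_lit 4))) (.star (nat_lit 0xa) (nat_lit 1) (nat_lit 4))) (.non (nat_lit 1) (nat_lit 4) (nat_lit 0x155451) (nat_lit 0x10001000100020002000200000002000100000002))))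

noncomputable def t749_12 : Tr := (.ex (nat_lit 3) (.split (nat_lit 7) (nat_lit 3) (.pd (.cons (nat_lit 0) (nat_lit 5) (nat_lit 0) (nat_lit 0x836042110) (nat_lit 0xf423ff423ff423f00000f423fb71aea2c280473700000) .nil) (.ex (nat_lit 4) (.split (nat_lit 8) (nat_lit 0) (.pd (.cons (nat_lit 0) (nat_lit 7) (nat_lit 0) (nat_lit 0x805442110) (nat_lit 0xf423f00000f423fb71ae1f156f423fb71ae1f15600000) (.cons (nat_lit 2) (nat_lit 6) (nat_lit 0) (nat_lit 0x30753000) (nat_lit 0xf423f437a20000054591f423f174ea00000f423f7a11d) .nil)) t749_10) (.non (nat_lit 2) (nat_lit 4) (nat_lit 0x21005) (nat_lit 0x100000001000000000000000000010002))) (.split (nat_lit 9) (nat_lit 0) (.split (nat_lit 9) (nat_lit 1) (.split (nat_lit 9) (nat_lit 2) (.split (nat_lit 9) (nat_lit 3) (.split (nat_lit 9) (nat_lit 5) (.split (nat_lit 9) (nat_lit 6) (.split (nat_lit 9) (nat_lit 7) (.split (nat_lit 9) (nat_lit 8) (.sup (nat_lit 0x20009000a0005) (nat_lit 0x50000000200000009000a0000000000000000)) (.sup (nat_lit 0x20009000a0005) (nat_lit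 0x50000000200000009000a0000000000000000))) (.non (nat_lit 2) (nat_lit 4) (nat_lit 0x55445) (nat_lit 0x1000100020002000200000001000000010002))) (.non (nat_lit 2) (nat_lit 4) (nat_lit 0x51405) (nat_lit 0x1000100000002000100000000000000010002))) (.non (nat_lit 1) (nat_lit 4) (nat_lit 0x55451) (nat_lit 0x2000100030003000400000002000100000002))) (.non (nat_lit 0) (nat_lit 5) (nat_lit 0x44054) (nat_lit 0x1000000010000000000000002000200020000))) (.star (nat_lit 9) (nat_lit 2) (nat_lit 4))) (.star (nat_lit 9) (nat_lit 1) (nat_lit 4))) (.non (nat_lit 2) (nat_lit 4) (nat_lit 0x51005) (nat_lit 0x1000100000001000000000000000000010002))))) (.non (nat_lit 1) (nat_lit 4) (nat_lit 0xa850) (nat_lit 0x30001000200000004000200000000))) (.split (nat_lit 9) (nat_lit 0) (.split (nat_lit 9) (nat_lit 1) (.split (nat_lit 9) (nat_lit 2) (.split (nat_lit 9) (nat_lit 5) (.split (nat_lit 9) (nat_lit 6) (.split (nat_lit 9) (nat_lit 7) (.split (nat_lit 9) (nat_lit 8) (.split (nat_lit 9) (nat_lit 4) (.st (nat_lit 3) (nat_lit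 1) (nat_lit 4) (nat_lit 0x44050) (nat_lit 0x1000000010000000000000002000100000000) (nat_lit 1) (nat_lit 1) (.st (nat_lit 8) (nat_lit 2) (nat_lit 4) (nat_lit 0x55445) (nat_lit 0x1000400030005000400000002000000030006) (nat_lit 1) (nat_lit 2) (.st (nat_lit 9) (nat_lit 1) (nat_lit 4) (nat_lit 0x55451) (nat_lit 0x4000100050003000400000006000300000002) (nat_lit 1) (nat_lit 2) t749_11))) (.sup (nat_lit 0x50000000500000009000a0000000000000000) (nat_lit 0x3000000010000000000000008000a0007))) (.non (nat_lit 1) (nat_lit 4) (nat_lit 0x55441) (nat_lit 0x1000100010001000100000001000000000001))) (.non (nat_lit 1) (nat_lit 4) (nat_lit 0x44040) (nat_lit 0x1000000010000000000000001000000000000))) (.non (nat_lit 1) (nat_lit 4) (nat_lit 0x45440) (nat_lit 0x1000000010001000100000001000000000000))) (.non (nat_lit 1) (nat_lit 4) (nat_lit 0x44440) (nat_lit 0x1000000010000000100000001000000000000))) (.non (nat_lit 1) (nat_lit 4) (nat_lit 0x40050) (nat_lit 0x1000000000000000000000001000100000000))) (.non (nat_lit 2)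 (nat_lit 4) (nat_lit 0x45445) (nat_lit 0x1000000010001000100000001000000010001))) (.non (nat_lit 1) (nat_lit 4) (nat_lit 0x45441) (nat_lit 0x1000000010001000100000001000000000001))))

noncomputable def t749_13 : Tr := (.st (nat_lit 5) (nat_lit 1) (nat_lit 4) (nat_lit 0x15451) (nat_lit 0x100030003000400000002000100000002) (nat_lit 1) (nat_lit 2) (.st (nat_lit 6) (nat_lit 2) (nat_lit 4) (nat_lit 0x11405) (nat_lit 0x100000002000100000000000000010002) (nat_lit 1) (nat_lit 1) (.st (nat_lit 7) (nat_lit 2) (nat_lit 4) (nat_lit 0x15445) (nat_lit 0x100020002000200000001000000010002) (nat_lit 1) (nat_lit 1) (.ex (nat_lit 1) (.ex (nat_lit 2) t749_12 (.split (nat_lit 9) (nat_lit 0) (.split (nat_lit 9) (nat_lit 3) (.split (nat_lit 9) (nat_lit 4) (.split (nat_lit 9) (nat_lit 5) (.split (nat_lit 9) (nat_lit 6) (.split (nat_lit 9) (nat_lit 7) (.split (nat_lit 9) (nat_lit 8) (.split (nat_lit 9) (nat_lit 1) (.sup (nat_lit 0x5000000000000000000000000000a00090002) (nat_lit 0x50002000a00080000000000000000)) (.unj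 (nat_lit 0x40014) (nat_lit 0x1000000000000000000000000000100010000) (nat_lit 0x5500) (nat_lit 0x10001000200020000000000000000))) (.non (nat_lit 1) (nat_lit 4) (nat_lit 0x55451) (nat_lit 0x1000100010001000100000001000100000001))) (.non (nat_lit 1) (nat_lit 4) (nat_lit 0x44050) (nat_lit 0x1000000010000000000000001000100000000))) (.non (nat_lit 1) (nat_lit 4) (nat_lit 0x45450) (nat_lit 0x1000000010001000100000001000100000000))) (.star (nat_lit 9) (nat_lit 2) (nat_lit 5))) (.star (nat_lit 9) (nat_lit 2) (nat_lit 4))) (.non (nat_lit 1) (nat_lit 4) (nat_lit 0x40050) (nat_lit 0x1000000000000000000000001000100000000))) (.non (nat_lit 1) (nat_lit 4) (nat_lit 0x45451) (nat_lit 0x1000000010001000100000001000100000001)))) (.split (nat_lit 9) (nat_lit 0) (.split (nat_lit 9) (nat_lit 3) (.split (nat_lit 9) (nat_lit 4) (.split (nat_lit 9) (nat_lit 5) (.split (nat_lit 9) (nat_lit 6) (.split (nat_lit 9) (nat_lit 7) (.split (nat_lit 9) (nat_lit 8) (.split (nat_lit 9) (nat_lit 2) (.sup (nat_lit 0x3000000000000000000000000000400050001)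 (nat_lit 0x30001000500040000000000000000)) (.unj (nat_lit 0x40014) (nat_lit 0x1000000000000000000000000000100010000) (nat_lit 0x5500) (nat_lit 0x10001000200020000000000000000))) (.non (nat_lit 2) (nat_lit 4) (nat_lit 0x50005) (nat_lit 0x1000100000000000000000000000000010001))) (.non (nat_lit 2) (nat_lit 4) (nat_lit 0x45405) (nat_lit 0x1000000010001000100000000000000010001))) (.non (nat_lit 2) (nat_lit 4) (nat_lit 0x41005) (nat_lit 0x1000000000001000000000000000000010001))) (.star (nat_lit 9) (nat_lit 1) (nat_lit 5))) (.star (nat_lit 9) (nat_lit 1) (nat_lit 4))) (.non (nat_lit 2) (nat_lit 4) (nat_lit 0x45445) (nat_lit 0x1000000010001000100000001000000010001))) (.non (nat_lit 2) (nat_lit 4) (nat_lit 0x40005) (nat_lit 0x1000000000000000000000000000000010001)))))))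

noncomputable def t749_14 : Tr := (.ex (nat_lit 3) (.split (nat_lit 7) (nat_lit 3) (.pd (.cons (nat_lit 0) (nat_lit 5) (nat_lit 0x100010000) (nat_lit 0x436082110) (nat_lit 0x1f423ff423f0000000001b71aea2c280473700000) .nil) (.split (nat_lit 8) (nat_lit 4) (.split (nat_lit 8) (nat_lit 0) (.split (nat_lit 6) (nat_lit 0) (.leaf (.cons (nat_lit 0x4454) (nat_lit 0x20000000100000003000400030000) (.cons (nat_lit 0x11500) (nat_lit 0x100000001000200020000000000000000) (.cons (nat_lit 0x14500) (nat_lit 0x100010000000200020000000000000000) (.cons (nat_lit 0x11015) (nat_lit 0x100000001000000000000000200020002) .nil)))) (.cons (nat_lit 0x111101101) (nat_lit 0x10010) (nat_lit 5) (nat_lit 0x624301005) .nil)) (.non (nat_lit 1) (nat_lit 4) (nat_lit 0x1a801) (nat_lit 0x200010003000200000000000000000004))) (.non (nat_lit 2) (nat_lit 4) (nat_lit 0x21005) (nat_lit 0x100000001000000000000000000010002))) (.non (nat_lit 2) (nat_lit 5) (nat_lit 0x11205) (nat_lit 0x200000001000000010000000000010002)))) (.non (nat_lit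 1) (nat_lit 4) (nat_lit 0xa850) (nat_lit 0x30001000200000004000200000000))) (.split (nat_lit 9) (nat_lit 0) (.split (nat_lit 9) (nat_lit 1) (.split (nat_lit 9) (nat_lit 2) (.split (nat_lit 9) (nat_lit 5) (.split (nat_lit 9) (nat_lit 6) (.split (nat_lit 9) (nat_lit 7) (.split (nat_lit 9) (nat_lit 8) (.split (nat_lit 9) (nat_lit 4) (.sup (nat_lit 0x5000000050009000a0000000000000000) (nat_lit 0x3000000010000000000000007000a00080000)) (.st (nat_lit 3) (nat_lit 1) (nat_lit 4) (nat_lit 0x44050) (nat_lit 0x1000000010000000000000002000100000000) (nat_lit 1) (nat_lit 1) (.st (nat_lit 4) (nat_lit 1) (nat_lit 5) (nat_lit 0x54150) (nat_lit 0x2000100010000000000020002000100000000) (nat_lit 1) (nat_lit 1) (.st (nat_lit 9) (nat_lit 1) (nat_lit 4) (nat_lit 0x55451) (nat_lit 0x4000100050003000400000006000300000002) (nat_lit 1) (nat_lit 2) (.split (nat_lit 9) (nat_lit 3) (.split (nat_lit 8) (nat_lit 0) (.split (nat_lit 7) (nat_lit 3) (.split (nat_lit 6) (nat_lit 0) (.leaf (.cons (nat_lit 0x44054) (nat_lit 0x1000000010000000000000002000200020000)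 (.cons (nat_lit 0x50500) (nat_lit 0x1000100000000000200020000000000000000) (.cons (nat_lit 0x11015) (nat_lit 0x100000001000000000000000200020002) .nil))) (.cons (nat_lit 0x1111101101) (nat_lit 0x10010) (nat_lit 0xb) (nat_lit 0x2735400106) (.cons (nat_lit 0x1111101011) (nat_lit 0x10100) (nat_lit 0xb) (nat_lit 0x7253406010) .nil))) (.non (nat_lit 1) (nat_lit 4) (nat_lit 0x1a801) (nat_lit 0x200010003000200000000000000000004))) (.non (nat_lit 1) (nat_lit 4) (nat_lit 0x4a840) (nat_lit 0x2000000030001000200000004000000000000))) (.non (nat_lit 1) (nat_lit 4) (nat_lit 0x65451) (nat_lit 0x1000100020002000200000002000100000002))) (.non (nat_lit 1) (nat_lit 4) (nat_lit 0x84050) (nat_lit 0x1000000010000000000000002000100000000))))))) (.non (nat_lit 1) (nat_lit 4) (nat_lit 0x55441) (nat_lit 0x1000100010001000100000001000000000001))) (.non (nat_lit 1) (nat_lit 4) (nat_lit 0x44040) (nat_lit 0x1000000010000000000000001000000000000))) (.non (nat_lit 1) (nat_lit 4) (nat_lit 0x45440) (nat_lit 0x1000000010001000100000001000000000000)))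 (.non (nat_lit 1) (nat_lit 4) (nat_lit 0x44440) (nat_lit 0x1000000010000000100000001000000000000))) (.non (nat_lit 1) (nat_lit 4) (nat_lit 0x40050) (nat_lit 0x1000000000000000000000001000100000000))) (.non (nat_lit 2) (nat_lit 4) (nat_lit 0x45445) (nat_lit 0x1000000010001000100000001000000010001))) (.non (nat_lit 1) (nat_lit 4) (nat_lit 0x45441) (nat_lit 0x1000000010001000100000001000000000001))))

noncomputable def t749_15 : Tr := (.st (nat_lit 6) (nat_lit 2) (nat_lit 4) (nat_lit 0x11405) (nat_lit 0x100000002000100000000000000010002) (nat_lit 1) (nat_lit 1) (.st (nat_lit 8) (nat_lit 2) (nat_lit 5) (nat_lit 0x11105) (nat_lit 0x200000001000000010000000000010002) (nat_lit 1) (nat_lit 1) (.ex (nat_lit 1) (.ex (nat_lit 2) t749_14 (.split (nat_lit 9) (nat_lit 0) (.split (nat_lit 9) (nat_lit 3) (.split (nat_lit 9) (nat_lit 4) (.split (nat_lit 9) (nat_lit 5) (.split (nat_lit 9) (nat_lit 6) (.split (nat_lit 9) (nat_lit 7) (.split (nat_lit 9) (nat_lit 8) (.split (nat_lit 9) (nat_lit 1) (.unj (nat_lit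 0x40054) (nat_lit 0x1000000000000000000000001000200020000) (nat_lit 0x11500) (nat_lit 0x100000001000200020000000000000000)) (.unj (nat_lit 0x40014) (nat_lit 0x1000000000000000000000000000100010000) (nat_lit 0x5500) (nat_lit 0x10001000200020000000000000000))) (.non (nat_lit 1) (nat_lit 4) (nat_lit 0x55451) (nat_lit 0x1000100010001000100000001000100000001))) (.non (nat_lit 1) (nat_lit 4) (nat_lit 0x44050) (nat_lit 0x1000000010000000000000001000100000000))) (.non (nat_lit 1) (nat_lit 4) (nat_lit 0x45450) (nat_lit 0x1000000010001000100000001000100000000))) (.star (nat_lit 9) (nat_lit 2) (nat_lit 5))) (.star (nat_lit 9) (nat_lit 2) (nat_lit 4))) (.non (nat_lit 1) (nat_lit 4) (nat_lit 0x40050) (nat_lit 0x1000000000000000000000001000100000000))) (.non (nat_lit 1) (nat_lit 4) (nat_lit 0x45451) (nat_lit 0x1000000010001000100000001000100000001)))) (.split (nat_lit 9) (nat_lit 0) (.split (nat_lit 9) (nat_lit 3) (.split (nat_lit 9) (nat_lit 4) (.split (nat_lit 9) (nat_lit 5) (.split (nat_lit 9) (nat_lit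 6) (.split (nat_lit 9) (nat_lit 7) (.split (nat_lit 9) (nat_lit 8) (.split (nat_lit 9) (nat_lit 2) (.unj (nat_lit 0x40054) (nat_lit 0x1000000000000000000000001000200020000) (nat_lit 0x11500) (nat_lit 0x100000001000200020000000000000000)) (.unj (nat_lit 0x40014) (nat_lit 0x1000000000000000000000000000100010000) (nat_lit 0x5500) (nat_lit 0x10001000200020000000000000000))) (.non (nat_lit 2) (nat_lit 4) (nat_lit 0x50005) (nat_lit 0x1000100000000000000000000000000010001))) (.non (nat_lit 2) (nat_lit 4) (nat_lit 0x45405) (nat_lit 0x1000000010001000100000000000000010001))) (.non (nat_lit 2) (nat_lit 4) (nat_lit 0x41005) (nat_lit 0x1000000000001000000000000000000010001))) (.star (nat_lit 9) (nat_lit 1) (nat_lit 5))) (.star (nat_lit 9) (nat_lit 1) (nat_lit 4))) (.non (nat_lit 2) (nat_lit 4) (nat_lit 0x45445) (nat_lit 0x1000000010001000100000001000000010001))) (.non (nat_lit 2) (nat_lit 4) (nat_lit 0x40005) (nat_lit 0x1000000000000000000000000000000010001))))))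

noncomputable def t749_16 : Tr := (.ex (nat_lit 7) (.split (nat_lit 7) (nat_lit 0) (.pd (.cons (nat_lit 0) (nat_lit 6) (nat_lit 0) (nat_lit 0x50442110) (nat_lit 0xf423f00000b71ae1f156f423fb71ae1f15600000) (.cons (nat_lit 1) (nat_lit 6) (nat_lit 0) (nat_lit 0x752200) (nat_lit 0x437a20000054591f423ff423fb71ae00000174ea) (.cons (nat_lit 3) (nat_lit 5) (nat_lit 0) (nat_lit 0x6040100) (nat_lit 0xf423ff423f00000f423f00000f423f5459106711) .nil))) (.leaf (.cons (nat_lit 0x1454) (nat_lit 0x2000100000003000400030000) (.cons (nat_lit 0x1550) (nat_lit 0x3000400030002000100000000) (.cons (nat_lit 0x4505) (nat_lit 0x30000000400030000000000010002) (.cons (nat_lit 0x4415) (nat_lit 0x20000000100000000000300040003) .nil)))) (.cons (nat_lit 0x1001110) (nat_lit 0x100001) (nat_lit 0x10) (nat_lit 0x3002100) .nil))) (.non (nat_lit 2) (nat_lit 4) (nat_lit 0xa805) (nat_lit 0x30001000200000000000000020004))) (.split (nat_lit 8) (nat_lit 0) (.split (nat_lit 8) (nat_lit 1) (.split (nat_lit 8) (nat_lit 2) (.split (nat_lit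 8) (nat_lit 3) (.split (nat_lit 8) (nat_lit 4) (.split (nat_lit 8) (nat_lit 5) (.split (nat_lit 8) (nat_lit 6) (.st (nat_lit 7) (nat_lit 1) (nat_lit 4) (nat_lit 0x14401) (nat_lit 0x100020000000100000000000000000001) (nat_lit 1) (nat_lit 1) (.st (nat_lit 8) (nat_lit 2) (nat_lit 4) (nat_lit 0x15405) (nat_lit 0x200030001000200000000000000010002) (nat_lit 1) (nat_lit 1) (.split (nat_lit 8) (nat_lit 7) (.pd (.cons (nat_lit 0) (nat_lit 6) (nat_lit 0) (nat_lit 0x750442110) (nat_lit 0xf423fb71ae00000a2c2804737f423fb71ae1f15600000) .nil) (.split (nat_lit 7) (nat_lit 0) (.leaf (.cons (nat_lit 0x1454) (nat_lit 0x2000100000003000400030000) (.cons (nat_lit 0x14501) (nat_lit 0x100020000000200020000000000000001) (.cons (nat_lit 0x1550) (nat_lit 0x3000400030002000100000000) (.cons (nat_lit 0x14015) (nat_lit 0x100020000000000000000000300040003) .nil)))) (.cons (nat_lit 0x111101101) (nat_lit 0x10010) (nat_lit 0xa) (nat_lit 0x204305601) .nil)) (.non (nat_lit 1) (nat_lit 4) (nat_lit 0x28801) (nat_lit 0x100020000000100000000000000000002))))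 (.non (nat_lit 1) (nat_lit 4) (nat_lit 0x24401) (nat_lit 0x100020000000100000000000000000001))))) (.non (nat_lit 1) (nat_lit 4) (nat_lit 0x15400) (nat_lit 0x100010001000100000000000000000000))) (.non (nat_lit 1) (nat_lit 4) (nat_lit 0x14400) (nat_lit 0x100010000000100000000000000000000))) (.non (nat_lit 2) (nat_lit 7) (nat_lit 0x11500) (nat_lit 0x100000001000200020000000000000000))) (.non (nat_lit 1) (nat_lit 4) (nat_lit 0x15440) (nat_lit 0x100010001000100000001000000000000))) (.non (nat_lit 1) (nat_lit 4) (nat_lit 0x15450) (nat_lit 0x100010001000100000001000100000000))) (.non (nat_lit 2) (nat_lit 4) (nat_lit 0x14005) (nat_lit 0x100010000000000000000000000010001))) (.non (nat_lit 1) (nat_lit 4) (nat_lit 0x14001) (nat_lit 0x100010000000000000000000000000001))))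

noncomputable def t749_17 : Tr := (.split (nat_lit 8) (nat_lit 0) (.split (nat_lit 8) (nat_lit 1) (.split (nat_lit 8) (nat_lit 2) (.split (nat_lit 8) (nat_lit 3) (.split (nat_lit 8) (nat_lit 5) (.split (nat_lit 8) (nat_lit 7) (.split (nat_lit 8) (nat_lit 4) (.st (nat_lit 6) (nat_lit 1) (nat_lit 4) (nat_lit 0x11440) (nat_lit 0x100000002000100000001000000000000) (nat_lit 1) (nat_lit 1) (.st (nat_lit 7) (nat_lit 1) (nat_lit 4) (nat_lit 0x15441) (nat_lit 0x100020002000200000001000000000001) (nat_lit 1) (nat_lit 1) (.split (nat_lit 7) (nat_lit 0) (.pd (.cons (nat_lit 0) (nat_lit 6) (nat_lit 0) (nat_lit 0x850442110) (nat_lit 0xf423ff423f00000b71ae1f156f423fb71ae1f15600000) (.cons (nat_lit 1) (nat_lit 6) (nat_lit 0) (nat_lit 0x800752200) (nat_lit 0xf423f437a20000054591f423ff423fb71ae00000174ea) (.cons (nat_lit 3) (nat_lit 5) (nat_lit 0x101000000) (nat_lit 0x608040100) (nat_lit 0x1f423f0000100000f423f00000f423f5459106711) .nil))) (.st (nat_lit 8) (nat_lit 1) (nat_lit 4) (nat_lit 0x15450) (nat_lit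 0x200010003000200000002000100000000) (nat_lit 1) (nat_lit 1) (.split (nat_lit 8) (nat_lit 6) (.pd (.cons (nat_lit 3) (nat_lit 7) (nat_lit 0) (nat_lit 0x605440100) (nat_lit 0xf423f00000b71aea2c280473700000f423f54591437a2) .nil) (.split (nat_lit 6) (nat_lit 3) (.leaf (.cons (nat_lit 0x11054) (nat_lit 0x100000002000000000003000400030000) (.cons (nat_lit 0x11540) (nat_lit 0x100000002000200020001000000000000) (.cons (nat_lit 0x4505) (nat_lit 0x30000000400030000000000010002) (.cons (nat_lit 0x4415) (nat_lit 0x20000000100000000000300040003) .nil)))) (.cons (nat_lit 0x111101011) (nat_lit 0x10100) (nat_lit 0xa) (nat_lit 0x240301065) .nil)) (.non (nat_lit 1) (nat_lit 4) (nat_lit 0x22840) (nat_lit 0x100000002000100000002000000000000)))) (.non (nat_lit 1) (nat_lit 4) (nat_lit 0x21440) (nat_lit 0x100000002000100000001000000000000))))) (.non (nat_lit 1) (nat_lit 4) (nat_lit 0x2a881) (nat_lit 0x100020002000200000001000000000002))))) (.sup (nat_lit 0x1000500050003) (nat_lit 0x300000001000400050000000000000000)))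 (.non (nat_lit 1) (nat_lit 4) (nat_lit 0x15400) (nat_lit 0x100010001000100000000000000000000))) (.non (nat_lit 1) (nat_lit 4) (nat_lit 0x11400) (nat_lit 0x100000001000100000000000000000000))) (.non (nat_lit 1) (nat_lit 4) (nat_lit 0x11040) (nat_lit 0x100000001000000000001000000000000))) (.non (nat_lit 1) (nat_lit 4) (nat_lit 0x11050) (nat_lit 0x100000001000000000001000100000000))) (.non (nat_lit 2) (nat_lit 4) (nat_lit 0x15405) (nat_lit 0x100010001000100000000000000010001))) (.non (nat_lit 1) (nat_lit 4) (nat_lit 0x15401) (nat_lit 0x100010001000100000000000000000001)))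

noncomputable def t749_18 : Tr := (.split (nat_lit 8) (nat_lit 3) (.split (nat_lit 8) (nat_lit 5) (.split (nat_lit 8) (nat_lit 6) (.split (nat_lit 8) (nat_lit 7) (.split (nat_lit 8) (nat_lit 4) (.split (nat_lit 7) (nat_lit 0) (.sup (nat_lit 0x5000a00090002) (nat_lit 0x5000200000009000a0000000000000000)) (.non (nat_lit 2) (nat_lit 4) (nat_lit 0xa805) (nat_lit 0x30001000200000000000000020004))) (.unj (nat_lit 0x10500) (nat_lit 0x100000000000100010000000000000000) (nat_lit 0x55) (nat_lit 0x1000200020001))) (.sup (nat_lit 0x3000500050001) (nat_lit 0x300010000000400050000000000000000))) (.split (nat_lit 8) (nat_lit 7) (.sup (nat_lit 0x1000500050003) (nat_lit 0x300000001000400050000000000000000)) (.non (nat_lit 1) (nat_lit 4) (nat_lit 0x15400) (nat_lit 0x100010001000100000000000000000000)))) (.split (nat_lit 8) (nat_lit 6) (.split (nat_lit 8) (nat_lit 7) (.unj (nat_lit 0x10500) (nat_lit 0x100000000000100010000000000000000) (nat_lit 0x55) (nat_lit 0x1000200020001)) (.non (nat_lit 1) (nat_lit 4) (nat_lit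 0x14400) (nat_lit 0x100010000000100000000000000000000))) (.non (nat_lit 1) (nat_lit 4) (nat_lit 0x11400) (nat_lit 0x100000001000100000000000000000000)))) (.split (nat_lit 8) (nat_lit 5) (.split (nat_lit 8) (nat_lit 6) (.split (nat_lit 8) (nat_lit 7) (.st (nat_lit 7) (nat_lit 1) (nat_lit 4) (nat_lit 0x15451) (nat_lit 0x100020002000200000002000100000001) (nat_lit 1) (nat_lit 1) (.split (nat_lit 7) (nat_lit 0) (.pd (.cons (nat_lit 3) (nat_lit 5) (nat_lit 0x100010000) (nat_lit 0x406080100) (nat_lit 0x1f423ff423f000000000100000f423f5459106711) .nil) (.st (nat_lit 5) (nat_lit 1) (nat_lit 4) (nat_lit 0x15450) (nat_lit 0x100010002000200000002000100000000) (nat_lit 1) (nat_lit 1) (.st (nat_lit 6) (nat_lit 1) (nat_lit 4) (nat_lit 0x11450) (nat_lit 0x100000002000100000002000100000000) (nat_lit 1) (nat_lit 1) (.st (nat_lit 8) (nat_lit 1) (nat_lit 5) (nat_lit 0x11150) (nat_lit 0x200000001000000010002000100000000) (nat_lit 1) (nat_lit 1) (.split (nat_lit 8) (nat_lit 3) (.split (nat_lit 6) (nat_lit 3) (.leaf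 (.cons (nat_lit 0x11054) (nat_lit 0x100000001000000000002000200020000) (.cons (nat_lit 0x14500) (nat_lit 0x100010000000200020000000000000000) (.cons (nat_lit 0x11500) (nat_lit 0x100000001000200020000000000000000) (.cons (nat_lit 0x4415) (nat_lit 0x20000000100000000000300040003) .nil)))) (.cons (nat_lit 0x111101011) (nat_lit 0x10100) (nat_lit 5) (nat_lit 0x624305001) .nil)) (.non (nat_lit 1) (nat_lit 4) (nat_lit 0x1a840) (nat_lit 0x200010003000200000004000000000000))) (.non (nat_lit 1) (nat_lit 4) (nat_lit 0x21050) (nat_lit 0x100000001000000000002000100000000))))))) (.non (nat_lit 1) (nat_lit 4) (nat_lit 0x2a8a1) (nat_lit 0x100020002000200000002000100000002)))) (.non (nat_lit 1) (nat_lit 4) (nat_lit 0x15440) (nat_lit 0x100010001000100000001000000000000))) (.non (nat_lit 1) (nat_lit 4) (nat_lit 0x11040) (nat_lit 0x100000001000000000001000000000000))) (.non (nat_lit 1) (nat_lit 4) (nat_lit 0x11440) (nat_lit 0x100000001000100000001000000000000))))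

noncomputable def t749_19 : Tr := (.ex (nat_lit 4) (.ex (nat_lit 5) (.ex (nat_lit 6) (.split (nat_lit 6) (nat_lit 3) (.pd (.cons (nat_lit 0) (nat_lit 5) (nat_lit 0) (nat_lit 0x73042110) (nat_lit 0xf423ff423f00000f423fb71aea2c280473700000) (.cons (nat_lit 2) (nat_lit 7) (nat_lit 0) (nat_lit 0x3653000) (nat_lit 0x437a254591f423f174ea00000f423fb71ae) (.cons (nat_lit 3) (nat_lit 7) (nat_lit 0) (nat_lit 0x5440100) (nat_lit 0xf423fb71ae1f15600000f423f54591437a2) .nil))) t749_16) (.non (nat_lit 1) (nat_lit 4) (nat_lit 0xa850) (nat_lit 0x10003000200000004000200000000))) t749_17) (.split (nat_lit 8) (nat_lit 0) (.split (nat_lit 8) (nat_lit 1) (.split (nat_lit 8) (nat_lit 2) (.split (nat_lit 8) (nat_lit 3) (.split (nat_lit 8) (nat_lit 6) (.split (nat_lit 8) (nat_lit 7) (.split (nat_lit 8) (nat_lit 4) (.sup (nat_lit 0x20009000a0005) (nat_lit 0x500000002000a00080000000000000000)) (.unj (nat_lit 0x10500) (nat_lit 0x100000000000100010000000000000000) (nat_lit 0x55) (nat_lit 0x1000200020001))) (.non (nat_lit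 1) (nat_lit 4) (nat_lit 0x14400) (nat_lit 0x100010000000100000000000000000000))) (.non (nat_lit 1) (nat_lit 4) (nat_lit 0x11400) (nat_lit 0x100000001000100000000000000000000))) (.non (nat_lit 1) (nat_lit 4) (nat_lit 0x11440) (nat_lit 0x100000001000100000001000000000000))) (.star (nat_lit 8) (nat_lit 2) (nat_lit 5))) (.star (nat_lit 8) (nat_lit 1) (nat_lit 5))) (.non (nat_lit 1) (nat_lit 4) (nat_lit 0x14401) (nat_lit 0x100010000000100000000000000000001)))) (.split (nat_lit 8) (nat_lit 1) (.split (nat_lit 8) (nat_lit 2) (.split (nat_lit 8) (nat_lit 0) t749_18 (.split (nat_lit 8) (nat_lit 3) (.split (nat_lit 8) (nat_lit 5) (.split (nat_lit 8) (nat_lit 6) (.split (nat_lit 8) (nat_lit 7) (.st (nat_lit 6) (nat_lit 2) (nat_lit 4) (nat_lit 0x15445) (nat_lit 0x100020002000200000001000000010002) (nat_lit 1) (nat_lit 1) (.split (nat_lit 6) (nat_lit 3) (.pd (.cons (nat_lit 0) (nat_lit 5) (nat_lit 0x100010000) (nat_lit 0x473082110) (nat_lit 0x1f423ff423f0000000001b71aea2c280473700000) .nil) (.st (nat_lit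 5) (nat_lit 1) (nat_lit 4) (nat_lit 0x15451) (nat_lit 0x100030003000400000002000100000002) (nat_lit 1) (nat_lit 2) (.st (nat_lit 7) (nat_lit 2) (nat_lit 4) (nat_lit 0x14405) (nat_lit 0x100020000000100000000000000010002) (nat_lit 1) (nat_lit 1) (.st (nat_lit 8) (nat_lit 2) (nat_lit 5) (nat_lit 0x14105) (nat_lit 0x200010000000000010000000000010002) (nat_lit 1) (nat_lit 1) (.split (nat_lit 8) (nat_lit 4) (.split (nat_lit 8) (nat_lit 0) (.split (nat_lit 7) (nat_lit 0) (.leaf (.cons (nat_lit 0x1454) (nat_lit 0x2000100000003000400030000) (.cons (nat_lit 0x14500) (nat_lit 0x100010000000200020000000000000000) (.cons (nat_lit 0x11500) (nat_lit 0x100000001000200020000000000000000) (.cons (nat_lit 0x14015) (nat_lit 0x100010000000000000000000200020002) .nil)))) (.cons (nat_lit 0x111101101) (nat_lit 0x10010) (nat_lit 5) (nat_lit 0x642301005) .nil)) (.non (nat_lit 1) (nat_lit 4) (nat_lit 0x1a801) (nat_lit 0x200030001000200000000000000000004))) (.non (nat_lit 2) (nat_lit 4) (nat_lit 0x24005) (nat_lit 0x100010000000000000000000000010002)))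 (.non (nat_lit 2) (nat_lit 5) (nat_lit 0x14205) (nat_lit 0x200010000000000010000000000010002))))))) (.non (nat_lit 1) (nat_lit 4) (nat_lit 0xa850) (nat_lit 0x10003000200000004000200000000)))) (.non (nat_lit 1) (nat_lit 4) (nat_lit 0x14001) (nat_lit 0x100010000000000000000000000000001))) (.non (nat_lit 1) (nat_lit 4) (nat_lit 0x15401) (nat_lit 0x100010001000100000000000000000001))) (.non (nat_lit 1) (nat_lit 4) (nat_lit 0x14401) (nat_lit 0x100010000000100000000000000000001))) (.non (nat_lit 1) (nat_lit 4) (nat_lit 0x15441) (nat_lit 0x100010001000100000001000000000001)))) (.star (nat_lit 8) (nat_lit 2) (nat_lit 4))) (.star (nat_lit 8) (nat_lit 1) (nat_lit 4))))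

noncomputable def t749_20 : Tr := (.ex (nat_lit 8) (.pd (.cons (nat_lit 0) (nat_lit 6) (nat_lit 0) (nat_lit 0x350442110) (nat_lit 0xf423ff423f00000b71ae1f156b71aea2c280473700000) .nil) (.split (nat_lit 6) (nat_lit 3) (.leaf (.cons (nat_lit 0x11054) (nat_lit 0x100000001000000000002000200020000) (.cons (nat_lit 0x11540) (nat_lit 0x100000003000400030002000000000000) (.cons (nat_lit 0x4505) (nat_lit 0x30000000400030000000000010002) (.cons (nat_lit 0x4415) (nat_lit 0x20000000100000000000300040003) .nil)))) (.cons (nat_lit 0x111101011) (nat_lit 0x10100) (nat_lit 5) (nat_lit 0x624305001) .nil)) (.non (nat_lit 1) (nat_lit 4) (nat_lit 0x1a840) (nat_lit 0x200010003000200000004000000000000)))) (.split (nat_lit 9) (nat_lit 0) (.split (nat_lit 9) (nat_lit 1) (.split (nat_lit 9) (nat_lit 2) (.split (nat_lit 9) (nat_lit 3) (.split (nat_lit 9) (nat_lit 4) (.split (nat_lit 9) (nat_lit 5) (.split (nat_lit 9) (nat_lit 6) (.split (nat_lit 9) (nat_lit 7) (.st (nat_lit 8) (nat_lit 1) (nat_lit 4) (nat_lit 0x51050)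 (nat_lit 0x1000200000001000000000002000100000000) (nat_lit 1) (nat_lit 1) (.st (nat_lit 9) (nat_lit 1) (nat_lit 4) (nat_lit 0x55450) (nat_lit 0x2000300010003000200000004000200000000) (nat_lit 1) (nat_lit 1) (.split (nat_lit 9) (nat_lit 8) (.split (nat_lit 6) (nat_lit 3) (.leaf (.cons (nat_lit 0x50054) (nat_lit 0x1000200000000000000000003000400030000) (.cons (nat_lit 0x11540) (nat_lit 0x100000003000400030002000000000000) (.cons (nat_lit 0x4505) (nat_lit 0x30000000400030000000000010002) (.cons (nat_lit 0x4415) (nat_lit 0x20000000100000000000300040003) .nil)))) (.cons (nat_lit 0x1111101101) (nat_lit 0x10010) (nat_lit 0xe) (nat_lit 0x3264500107) .nil)) (.non (nat_lit 1) (nat_lit 4) (nat_lit 0x52840) (nat_lit 0x1000200000002000100000003000000000000))) (.non (nat_lit 1) (nat_lit 4) (nat_lit 0x91050) (nat_lit 0x1000200000001000000000002000100000000))))) (.non (nat_lit 1) (nat_lit 4) (nat_lit 0x55440) (nat_lit 0x1000100010001000100000001000000000000))) (.non (nat_lit 1) (nat_lit 4) (nat_lit 0x51040)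 (nat_lit 0x1000100000001000000000001000000000000))) (.non (nat_lit 1) (nat_lit 4) (nat_lit 0x51440) (nat_lit 0x1000100000001000100000001000000000000))) (.non (nat_lit 1) (nat_lit 6) (nat_lit 0x44500) (nat_lit 0x1000000010000000200020000000000000000))) (.non (nat_lit 1) (nat_lit 4) (nat_lit 0x50040) (nat_lit 0x1000100000000000000000001000000000000))) (.non (nat_lit 1) (nat_lit 4) (nat_lit 0x50050) (nat_lit 0x1000100000000000000000001000100000000))) (.non (nat_lit 2) (nat_lit 4) (nat_lit 0x55445) (nat_lit 0x1000100010001000100000001000000010001))) (.non (nat_lit 1) (nat_lit 4) (nat_lit 0x55441) (nat_lit 0x1000100010001000100000001000000000001))))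

noncomputable def t749_21 : Tr := (.split (nat_lit 8) (nat_lit 4) (.st (nat_lit 3) (nat_lit 1) (nat_lit 4) (nat_lit 0x11050) (nat_lit 0x100000001000000000002000100000000) (nat_lit 1) (nat_lit 1) (.st (nat_lit 5) (nat_lit 1) (nat_lit 4) (nat_lit 0x15450) (nat_lit 0x100010002000200000002000100000000) (nat_lit 1) (nat_lit 1) (.st (nat_lit 6) (nat_lit 1) (nat_lit 4) (nat_lit 0x11450) (nat_lit 0x100000002000100000002000100000000) (nat_lit 1) (nat_lit 1) (.st (nat_lit 7) (nat_lit 1) (nat_lit 4) (nat_lit 0x15451) (nat_lit 0x100020002000200000002000100000001) (nat_lit 1) (nat_lit 1) (.split (nat_lit 7) (nat_lit 0) (.pd (.cons (nat_lit 3) (nat_lit 5) (nat_lit 0) (nat_lit 0x806040100) (nat_lit 0xf423ff423ff423f00000f423f00000f423f5459106711) .nil) (.ex (nat_lit 4) (.split (nat_lit 8) (nat_lit 3) (.pd (.cons (nat_lit 1) (nat_lit 6) (nat_lit 0) (nat_lit 0x300752200) (nat_lit 0xf423f437a20000054591f423fb71aea2c2800000174ea) (.cons (nat_lit 3) (nat_lit 7) (nat_lit 0) (nat_lit 0x805440100) (nat_lit 0xf423f00000f423fb71ae1f15600000f423f54591437a2)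 .nil)) t749_20) (.non (nat_lit 1) (nat_lit 4) (nat_lit 0x21050) (nat_lit 0x100000001000000000002000100000000))) (.split (nat_lit 9) (nat_lit 0) (.split (nat_lit 9) (nat_lit 1) (.split (nat_lit 9) (nat_lit 2) (.split (nat_lit 9) (nat_lit 3) (.split (nat_lit 9) (nat_lit 5) (.split (nat_lit 9) (nat_lit 6) (.split (nat_lit 9) (nat_lit 7) (.split (nat_lit 9) (nat_lit 8) (.sup (nat_lit 0x5000a00090002) (nat_lit 0x50000000200000009000a0000000000000000)) (.sup (nat_lit 0x5000a00090002) (nat_lit 0x50000000200000009000a0000000000000000))) (.non (nat_lit 1) (nat_lit 4) (nat_lit 0x55451) (nat_lit 0x1000100020002000200000002000100000001))) (.non (nat_lit 1) (nat_lit 4) (nat_lit 0x51450) (nat_lit 0x1000100000002000100000002000100000000))) (.non (nat_lit 1) (nat_lit 4) (nat_lit 0x55450) (nat_lit 0x1000100010002000200000002000100000000))) (.non (nat_lit 1) (nat_lit 4) (nat_lit 0x51050) (nat_lit 0x1000100000001000000000002000100000000))) (.star (nat_lit 9) (nat_lit 2) (nat_lit 4))) (.star (nat_lit 9) (nat_lit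 1) (nat_lit 4))) (.non (nat_lit 3) (nat_lit 5) (nat_lit 0x44015) (nat_lit 0x1000000010000000000000000000200020002))))) (.non (nat_lit 1) (nat_lit 4) (nat_lit 0x2a8a1) (nat_lit 0x100020002000200000002000100000002))))))) (.st (nat_lit 7) (nat_lit 1) (nat_lit 4) (nat_lit 0x15451) (nat_lit 0x100020002000200000002000100000001) (nat_lit 1) (nat_lit 1) (.split (nat_lit 7) (nat_lit 0) (.pd (.cons (nat_lit 3) (nat_lit 5) (nat_lit 0x100010000) (nat_lit 0x406080100) (nat_lit 0x1f423ff423f000000000100000f423f5459106711) .nil) (.st (nat_lit 3) (nat_lit 1) (nat_lit 4) (nat_lit 0x11050) (nat_lit 0x100000001000000000002000100000000) (nat_lit 1) (nat_lit 1) (.st (nat_lit 5) (nat_lit 1) (nat_lit 4) (nat_lit 0x15450) (nat_lit 0x100010002000200000002000100000000) (nat_lit 1) (nat_lit 1) (.st (nat_lit 6) (nat_lit 1) (nat_lit 4) (nat_lit 0x11450) (nat_lit 0x100000002000100000002000100000000) (nat_lit 1) (nat_lit 1) (.st (nat_lit 8) (nat_lit 1) (nat_lit 5) (nat_lit 0x11150) (nat_lit 0x200000001000000010002000100000000)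 (nat_lit 1) (nat_lit 1) (.split (nat_lit 8) (nat_lit 3) (.split (nat_lit 6) (nat_lit 3) (.leaf (.cons (nat_lit 0x11054) (nat_lit 0x100000001000000000002000200020000) (.cons (nat_lit 0x14500) (nat_lit 0x100010000000200020000000000000000) (.cons (nat_lit 0x11500) (nat_lit 0x100000001000200020000000000000000) (.cons (nat_lit 0x4415) (nat_lit 0x20000000100000000000300040003) .nil)))) (.cons (nat_lit 0x111101011) (nat_lit 0x10100) (nat_lit 5) (nat_lit 0x624305001) .nil)) (.non (nat_lit 1) (nat_lit 4) (nat_lit 0x1a840) (nat_lit 0x200010003000200000004000000000000))) (.non (nat_lit 1) (nat_lit 4) (nat_lit 0x21050) (nat_lit 0x100000001000000000002000100000000)))))))) (.non (nat_lit 1) (nat_lit 4) (nat_lit 0x2a8a1) (nat_lit 0x100020002000200000002000100000002)))))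

noncomputable def t749_22 : Tr := (.ex (nat_lit 1) (.ex (nat_lit 2) (.ex (nat_lit 3) t749_19 (.split (nat_lit 8) (nat_lit 0) (.split (nat_lit 8) (nat_lit 1) (.split (nat_lit 8) (nat_lit 2) (.split (nat_lit 8) (nat_lit 5) (.split (nat_lit 8) (nat_lit 6) (.split (nat_lit 8) (nat_lit 7) t749_21 (.non (nat_lit 1) (nat_lit 4) (nat_lit 0x15440) (nat_lit 0x100010001000100000001000000000000))) (.non (nat_lit 1) (nat_lit 4) (nat_lit 0x11040) (nat_lit 0x100000001000000000001000000000000))) (.non (nat_lit 1) (nat_lit 4) (nat_lit 0x11440) (nat_lit 0x100000001000100000001000000000000))) (.non (nat_lit 1) (nat_lit 4) (nat_lit 0x10050) (nat_lit 0x100000000000000000001000100000000))) (.non (nat_lit 2) (nat_lit 4) (nat_lit 0x15445) (nat_lit 0x100010001000100000001000000010001))) (.non (nat_lit 1) (nat_lit 4) (nat_lit 0x15441) (nat_lit 0x100010001000100000001000000000001)))) (.split (nat_lit 8) (nat_lit 0) (.split (nat_lit 8) (nat_lit 3) (.split (nat_lit 8) (nat_lit 4) (.split (nat_lit 8) (nat_lit 5) (.split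 (nat_lit 8) (nat_lit 6) (.split (nat_lit 8) (nat_lit 7) (.split (nat_lit 8) (nat_lit 1) (.sup (nat_lit 0x500000000000000000000000a00090002) (nat_lit 0x20005000a00080000000000000000)) (.unj (nat_lit 0x10014) (nat_lit 0x100000000000000000000000100010000) (nat_lit 0x5500) (nat_lit 0x10001000200020000000000000000))) (.non (nat_lit 1) (nat_lit 4) (nat_lit 0x15450) (nat_lit 0x100010001000100000001000100000000))) (.non (nat_lit 1) (nat_lit 4) (nat_lit 0x11050) (nat_lit 0x100000001000000000001000100000000))) (.star (nat_lit 8) (nat_lit 2) (nat_lit 5))) (.star (nat_lit 8) (nat_lit 2) (nat_lit 4))) (.non (nat_lit 1) (nat_lit 4) (nat_lit 0x10050) (nat_lit 0x100000000000000000001000100000000))) (.non (nat_lit 1) (nat_lit 4) (nat_lit 0x15451) (nat_lit 0x100010001000100000001000100000001)))) (.split (nat_lit 8) (nat_lit 0) (.split (nat_lit 8) (nat_lit 3) (.split (nat_lit 8) (nat_lit 4) (.split (nat_lit 8) (nat_lit 5) (.split (nat_lit 8) (nat_lit 6) (.split (nat_lit 8) (nat_lit 7) (.split (nat_lit 8) (nat_lit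 2) (.sup (nat_lit 0x300000000000000000000000400050001) (nat_lit 0x10003000500040000000000000000)) (.unj (nat_lit 0x10014) (nat_lit 0x100000000000000000000000100010000) (nat_lit 0x5500) (nat_lit 0x10001000200020000000000000000))) (.non (nat_lit 2) (nat_lit 4) (nat_lit 0x14005) (nat_lit 0x100010000000000000000000000010001))) (.non (nat_lit 2) (nat_lit 4) (nat_lit 0x15405) (nat_lit 0x100010001000100000000000000010001))) (.star (nat_lit 8) (nat_lit 1) (nat_lit 5))) (.star (nat_lit 8) (nat_lit 1) (nat_lit 4))) (.non (nat_lit 2) (nat_lit 4) (nat_lit 0x15445) (nat_lit 0x100010001000100000001000000010001))) (.non (nat_lit 2) (nat_lit 4) (nat_lit 0x10005) (nat_lit 0x100000000000000000000000000010001))))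

noncomputable def t749_23 : Tr := (.ex (nat_lit 8) (.pd (.cons (nat_lit 3) (nat_lit 7) (nat_lit 0) (nat_lit 0x5440100) (nat_lit 0xf423f00000f423fb71ae1f15600000f423f5459106711) .nil) (.split (nat_lit 7) (nat_lit 0) (.leaf (.cons (nat_lit 0x1454) (nat_lit 0x2000100000003000400030000) (.cons (nat_lit 0x14501) (nat_lit 0x100030000000400030000000000000002) (.cons (nat_lit 0x1550) (nat_lit 0x3000400030002000100000000) (.cons (nat_lit 0x14015) (nat_lit 0x100010000000000000000000200020002) .nil)))) (.cons (nat_lit 0x111101101) (nat_lit 0x10010) (nat_lit 5) (nat_lit 0x642301005) .nil)) (.non (nat_lit 1) (nat_lit 4) (nat_lit 0x1a801) (nat_lit 0x200030001000200000000000000000004)))) (.split (nat_lit 9) (nat_lit 0) (.split (nat_lit 9) (nat_lit 1) (.split (nat_lit 9) (nat_lit 2) (.split (nat_lit 9) (nat_lit 3) (.split (nat_lit 9) (nat_lit 4) (.split (nat_lit 9) (nat_lit 5) (.split (nat_lit 9) (nat_lit 6) (.split (nat_lit 9) (nat_lit 7) (.st (nat_lit 8) (nat_lit 2) (nat_lit 4) (nat_lit 0x54005) (nat_lit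 0x1000200010000000000000000000000010002) (nat_lit 1) (nat_lit 1) (.st (nat_lit 9) (nat_lit 2) (nat_lit 4) (nat_lit 0x55405) (nat_lit 0x2000300030001000200000000000000020004) (nat_lit 1) (nat_lit 1) (.split (nat_lit 9) (nat_lit 8) (.split (nat_lit 7) (nat_lit 0) (.leaf (.cons (nat_lit 0x1454) (nat_lit 0x2000100000003000400030000) (.cons (nat_lit 0x14501) (nat_lit 0x100030000000400030000000000000002) (.cons (nat_lit 0x1550) (nat_lit 0x3000400030002000100000000) (.cons (nat_lit 0x50015) (nat_lit 0x1000200000000000000000000000300040003) .nil)))) (.cons (nat_lit 0x1111101011) (nat_lit 0x10100) (nat_lit 0xe) (nat_lit 0x3246507010) .nil)) (.non (nat_lit 1) (nat_lit 4) (nat_lit 0x58801) (nat_lit 0x1000200020000000100000000000000000003))) (.non (nat_lit 2) (nat_lit 4) (nat_lit 0x94005) (nat_lit 0x1000200010000000000000000000000010002))))) (.non (nat_lit 1) (nat_lit 4) (nat_lit 0x54001) (nat_lit 0x1000100010000000000000000000000000001))) (.non (nat_lit 1) (nat_lit 4) (nat_lit 0x55450) (nat_lit 0x2000100010003000200000002000100000000)))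 (.non (nat_lit 1) (nat_lit 4) (nat_lit 0x54401) (nat_lit 0x1000100010000000100000000000000000001))) (.non (nat_lit 0) (nat_lit 6) (nat_lit 0x44500) (nat_lit 0x1000000010000000200020000000000000000))) (.non (nat_lit 1) (nat_lit 4) (nat_lit 0x55441) (nat_lit 0x1000100010001000100000001000000000001))) (.non (nat_lit 1) (nat_lit 4) (nat_lit 0x55451) (nat_lit 0x1000100010001000100000001000100000001))) (.non (nat_lit 2) (nat_lit 4) (nat_lit 0x50005) (nat_lit 0x1000100000000000000000000000000010001))) (.non (nat_lit 1) (nat_lit 4) (nat_lit 0x50001) (nat_lit 0x1000100000000000000000000000000000001))))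

noncomputable def t749_24 : Tr := (.ex (nat_lit 4) (.split (nat_lit 9) (nat_lit 3) (.split (nat_lit 8) (nat_lit 0) (.pd (.cons (nat_lit 0) (nat_lit 6) (nat_lit 0) (nat_lit 0x3850442110) (nat_lit 0xf423ff423ff423f00000b71ae1f156b71aea2c280473700000) (.cons (nat_lit 3) (nat_lit 7) (nat_lit 0) (nat_lit 0x9005440100) (nat_lit 0xf423ff423f00000f423fb71ae1f15600000f423f5459106711) .nil)) (.split (nat_lit 7) (nat_lit 0) (.split (nat_lit 6) (nat_lit 3) (.leaf (.cons (nat_lit 0x41054) (nat_lit 0x1000000000001000000000002000200020000) (.cons (nat_lit 0x14501) (nat_lit 0x100030000000400030000000000000002) (.cons (nat_lit 0x41540) (nat_lit 0x1000000000003000400030002000000000000) (.cons (nat_lit 0x14015) (nat_lit 0x100010000000000000000000200020002) .nil)))) (.cons (nat_lit 0x1111101101) (nat_lit 0x10010) (nat_lit 0xb) (nat_lit 0x2753400106) (.cons (nat_lit 0x1111101011) (nat_lit 0x10100) (nat_lit 0xb) (nat_lit 0x7235406010) .nil))) (.non (nat_lit 1) (nat_lit 4) (nat_lit 0x4a840) (nat_lit 0x2000000010003000200000004000000000000)))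 (.non (nat_lit 1) (nat_lit 4) (nat_lit 0x1a801) (nat_lit 0x200030001000200000000000000000004)))) (.non (nat_lit 1) (nat_lit 4) (nat_lit 0x65451) (nat_lit 0x1000100020002000200000002000100000002))) (.non (nat_lit 1) (nat_lit 4) (nat_lit 0x81050) (nat_lit 0x1000000000001000000000002000100000000))) (.split (nat_lit 0xa) (nat_lit 0) (.split (nat_lit 0xa) (nat_lit 1) (.split (nat_lit 0xa) (nat_lit 2) (.split (nat_lit 0xa) (nat_lit 3) (.split (nat_lit 0xa) (nat_lit 5) (.split (nat_lit 0xa) (nat_lit 6) (.split (nat_lit 0xa) (nat_lit 7) (.split (nat_lit 0xa) (nat_lit 8) (.split (nat_lit 0xa) (nat_lit 9) (.sup (nat_lit 0x500000000000000050009000a0000000000000000) (nat_lit 0x3000100000000000000000008000a0007)) (.non (nat_lit 1) (nat_lit 4) (nat_lit 0x155451) (nat_lit 0x20004000100030005000400000006000300000002))) (.non (nat_lit 2) (nat_lit 4) (nat_lit 0x155445) (nat_lit 0x20001000400050003000400000002000000030006))) (.non (nat_lit 1) (nat_lit 4) (nat_lit 0x145451) (nat_lit 0x10001000000020002000200000002000100000001)))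 (.non (nat_lit 1) (nat_lit 4) (nat_lit 0x141450) (nat_lit 0x10001000000000002000100000002000100000000))) (.non (nat_lit 1) (nat_lit 4) (nat_lit 0x145450) (nat_lit 0x10001000000010002000200000002000100000000))) (.non (nat_lit 1) (nat_lit 4) (nat_lit 0x141050) (nat_lit 0x10001000000000001000000000002000100000000))) (.star (nat_lit 0xa) (nat_lit 2) (nat_lit 4))) (.star (nat_lit 0xa) (nat_lit 1) (nat_lit 4))) (.non (nat_lit 1) (nat_lit 4) (nat_lit 0x155451) (nat_lit 0x10001000100020002000200000002000100000002))))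

noncomputable def t749_25 : Tr := (.ex (nat_lit 3) (.split (nat_lit 6) (nat_lit 3) (.pd (.cons (nat_lit 0) (nat_lit 5) (nat_lit 0) (nat_lit 0x873042110) (nat_lit 0xf423ff423ff423f00000f423fb71aea2c280473700000) .nil) (.ex (nat_lit 4) (.split (nat_lit 8) (nat_lit 0) (.pd (.cons (nat_lit 0) (nat_lit 6) (nat_lit 0) (nat_lit 0x850442110) (nat_lit 0xf423ff423f00000b71ae1f156f423fb71ae1f15600000) (.cons (nat_lit 2) (nat_lit 7) (nat_lit 0) (nat_lit 0x3653000) (nat_lit 0xf423f00000437a254591f423f174ea00000f423f7a11d) .nil)) t749_23) (.non (nat_lit 2) (nat_lit 4) (nat_lit 0x24005) (nat_lit 0x100010000000000000000000000010002))) (.split (nat_lit 9) (nat_lit 0) (.split (nat_lit 9) (nat_lit 1) (.split (nat_lit 9) (nat_lit 2) (.split (nat_lit 9) (nat_lit 3) (.split (nat_lit 9) (nat_lit 5) (.split (nat_lit 9) (nat_lit 6) (.split (nat_lit 9) (nat_lit 7) (.split (nat_lit 9) (nat_lit 8) (.sup (nat_lit 0x20009000a0005) (nat_lit 0x50000000000020009000a0000000000000000)) (.sup (nat_lit 0x20009000a0005) (nat_lit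 0x50000000000020009000a0000000000000000))) (.non (nat_lit 2) (nat_lit 4) (nat_lit 0x54405) (nat_lit 0x1000100020000000100000000000000010002))) (.non (nat_lit 2) (nat_lit 4) (nat_lit 0x55445) (nat_lit 0x1000100020002000200000001000000010002))) (.non (nat_lit 1) (nat_lit 4) (nat_lit 0x55451) (nat_lit 0x2000100030003000400000002000100000002))) (.non (nat_lit 0) (nat_lit 5) (nat_lit 0x41054) (nat_lit 0x1000000000001000000000002000200020000))) (.star (nat_lit 9) (nat_lit 2) (nat_lit 4))) (.star (nat_lit 9) (nat_lit 1) (nat_lit 4))) (.non (nat_lit 2) (nat_lit 4) (nat_lit 0x54005) (nat_lit 0x1000100010000000000000000000000010002))))) (.non (nat_lit 1) (nat_lit 4) (nat_lit 0xa850) (nat_lit 0x10003000200000004000200000000))) (.split (nat_lit 9) (nat_lit 0) (.split (nat_lit 9) (nat_lit 1) (.split (nat_lit 9) (nat_lit 2) (.split (nat_lit 9) (nat_lit 5) (.split (nat_lit 9) (nat_lit 6) (.split (nat_lit 9) (nat_lit 7) (.split (nat_lit 9) (nat_lit 8) (.split (nat_lit 9) (nat_lit 4) (.st (nat_lit 3) (nat_lit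 1) (nat_lit 4) (nat_lit 0x41050) (nat_lit 0x1000000000001000000000002000100000000) (nat_lit 1) (nat_lit 1) (.st (nat_lit 8) (nat_lit 2) (nat_lit 4) (nat_lit 0x55445) (nat_lit 0x1000400050003000400000002000000030006) (nat_lit 1) (nat_lit 2) (.st (nat_lit 9) (nat_lit 1) (nat_lit 4) (nat_lit 0x55451) (nat_lit 0x4000100030005000400000006000300000002) (nat_lit 1) (nat_lit 2) t749_24))) (.sup (nat_lit 0x50000000000050009000a0000000000000000) (nat_lit 0x3000100000000000000000008000a0007))) (.non (nat_lit 1) (nat_lit 4) (nat_lit 0x55441) (nat_lit 0x1000100010001000100000001000000000001))) (.non (nat_lit 1) (nat_lit 4) (nat_lit 0x45440) (nat_lit 0x1000000010001000100000001000000000000))) (.non (nat_lit 1) (nat_lit 4) (nat_lit 0x41040) (nat_lit 0x1000000000001000000000001000000000000))) (.non (nat_lit 1) (nat_lit 4) (nat_lit 0x41440) (nat_lit 0x1000000000001000100000001000000000000))) (.non (nat_lit 1) (nat_lit 4) (nat_lit 0x40050) (nat_lit 0x1000000000000000000000001000100000000))) (.non (nat_lit 2)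 (nat_lit 4) (nat_lit 0x45445) (nat_lit 0x1000000010001000100000001000000010001))) (.non (nat_lit 1) (nat_lit 4) (nat_lit 0x45441) (nat_lit 0x1000000010001000100000001000000000001))))

noncomputable def t749_26 : Tr := (.st (nat_lit 5) (nat_lit 1) (nat_lit 4) (nat_lit 0x15451) (nat_lit 0x100030003000400000002000100000002) (nat_lit 1) (nat_lit 2) (.st (nat_lit 6) (nat_lit 2) (nat_lit 4) (nat_lit 0x15445) (nat_lit 0x100020002000200000001000000010002) (nat_lit 1) (nat_lit 1) (.st (nat_lit 7) (nat_lit 2) (nat_lit 4) (nat_lit 0x14405) (nat_lit 0x100020000000100000000000000010002) (nat_lit 1) (nat_lit 1) (.ex (nat_lit 1) (.ex (nat_lit 2) t749_25 (.split (nat_lit 9) (nat_lit 0) (.split (nat_lit 9) (nat_lit 3) (.split (nat_lit 9) (nat_lit 4) (.split (nat_lit 9) (nat_lit 5) (.split (nat_lit 9) (nat_lit 6) (.split (nat_lit 9) (nat_lit 7) (.split (nat_lit 9) (nat_lit 8) (.split (nat_lit 9) (nat_lit 1) (.sup (nat_lit 0x5000000000000000000000000000a00090002) (nat_lit 0x20005000a00080000000000000000)) (.unj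 (nat_lit 0x40014) (nat_lit 0x1000000000000000000000000000100010000) (nat_lit 0x5500) (nat_lit 0x10001000200020000000000000000))) (.non (nat_lit 1) (nat_lit 4) (nat_lit 0x55451) (nat_lit 0x1000100010001000100000001000100000001))) (.non (nat_lit 1) (nat_lit 4) (nat_lit 0x45450) (nat_lit 0x1000000010001000100000001000100000000))) (.non (nat_lit 1) (nat_lit 4) (nat_lit 0x41050) (nat_lit 0x1000000000001000000000001000100000000))) (.star (nat_lit 9) (nat_lit 2) (nat_lit 5))) (.star (nat_lit 9) (nat_lit 2) (nat_lit 4))) (.non (nat_lit 1) (nat_lit 4) (nat_lit 0x40050) (nat_lit 0x1000000000000000000000001000100000000))) (.non (nat_lit 1) (nat_lit 4) (nat_lit 0x45451) (nat_lit 0x1000000010001000100000001000100000001)))) (.split (nat_lit 9) (nat_lit 0) (.split (nat_lit 9) (nat_lit 3) (.split (nat_lit 9) (nat_lit 4) (.split (nat_lit 9) (nat_lit 5) (.split (nat_lit 9) (nat_lit 6) (.split (nat_lit 9) (nat_lit 7) (.split (nat_lit 9) (nat_lit 8) (.split (nat_lit 9) (nat_lit 2) (.sup (nat_lit 0x3000000000000000000000000000400050001)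 (nat_lit 0x10003000500040000000000000000)) (.unj (nat_lit 0x40014) (nat_lit 0x1000000000000000000000000000100010000) (nat_lit 0x5500) (nat_lit 0x10001000200020000000000000000))) (.non (nat_lit 2) (nat_lit 4) (nat_lit 0x50005) (nat_lit 0x1000100000000000000000000000000010001))) (.non (nat_lit 2) (nat_lit 4) (nat_lit 0x44005) (nat_lit 0x1000000010000000000000000000000010001))) (.non (nat_lit 2) (nat_lit 4) (nat_lit 0x45405) (nat_lit 0x1000000010001000100000000000000010001))) (.star (nat_lit 9) (nat_lit 1) (nat_lit 5))) (.star (nat_lit 9) (nat_lit 1) (nat_lit 4))) (.non (nat_lit 2) (nat_lit 4) (nat_lit 0x45445) (nat_lit 0x1000000010001000100000001000000010001))) (.non (nat_lit 2) (nat_lit 4) (nat_lit 0x40005) (nat_lit 0x1000000000000000000000000000000010001)))))))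

noncomputable def t749_27 : Tr := (.ex (nat_lit 3) (.split (nat_lit 6) (nat_lit 3) (.pd (.cons (nat_lit 0) (nat_lit 5) (nat_lit 0x100010000) (nat_lit 0x473082110) (nat_lit 0x1f423ff423f0000000001b71aea2c280473700000) .nil) (.split (nat_lit 8) (nat_lit 4) (.split (nat_lit 8) (nat_lit 0) (.split (nat_lit 7) (nat_lit 0) (.leaf (.cons (nat_lit 0x1454) (nat_lit 0x2000100000003000400030000) (.cons (nat_lit 0x14500) (nat_lit 0x100010000000200020000000000000000) (.cons (nat_lit 0x11500) (nat_lit 0x100000001000200020000000000000000) (.cons (nat_lit 0x14015) (nat_lit 0x100010000000000000000000200020002) .nil)))) (.cons (nat_lit 0x111101101) (nat_lit 0x10010) (nat_lit 5) (nat_lit 0x642301005) .nil)) (.non (nat_lit 1) (nat_lit 4) (nat_lit 0x1a801) (nat_lit 0x200030001000200000000000000000004))) (.non (nat_lit 2) (nat_lit 4) (nat_lit 0x24005) (nat_lit 0x100010000000000000000000000010002))) (.non (nat_lit 2) (nat_lit 5) (nat_lit 0x14205) (nat_lit 0x200010000000000010000000000010002)))) (.non (nat_lit 1)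 (nat_lit 4) (nat_lit 0xa850) (nat_lit 0x10003000200000004000200000000))) (.split (nat_lit 9) (nat_lit 0) (.split (nat_lit 9) (nat_lit 1) (.split (nat_lit 9) (nat_lit 2) (.split (nat_lit 9) (nat_lit 5) (.split (nat_lit 9) (nat_lit 6) (.split (nat_lit 9) (nat_lit 7) (.split (nat_lit 9) (nat_lit 8) (.split (nat_lit 9) (nat_lit 4) (.sup (nat_lit 0x5000500000009000a0000000000000000) (nat_lit 0x3000000000001000000000007000a00080000)) (.st (nat_lit 3) (nat_lit 1) (nat_lit 4) (nat_lit 0x41050) (nat_lit 0x1000000000001000000000002000100000000) (nat_lit 1) (nat_lit 1) (.st (nat_lit 4) (nat_lit 1) (nat_lit 5) (nat_lit 0x51150) (nat_lit 0x2000100000001000000020002000100000000) (nat_lit 1) (nat_lit 1) (.st (nat_lit 9) (nat_lit 1) (nat_lit 4) (nat_lit 0x55451) (nat_lit 0x4000100030005000400000006000300000002) (nat_lit 1) (nat_lit 2) (.split (nat_lit 9) (nat_lit 3) (.split (nat_lit 8) (nat_lit 0) (.split (nat_lit 7) (nat_lit 0) (.split (nat_lit 6) (nat_lit 3) (.leaf (.cons (nat_lit 0x41054) (nat_lit 0x1000000000001000000000002000200020000)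 (.cons (nat_lit 0x50500) (nat_lit 0x1000100000000000200020000000000000000) (.cons (nat_lit 0x14015) (nat_lit 0x100010000000000000000000200020002) .nil))) (.cons (nat_lit 0x1111101101) (nat_lit 0x10010) (nat_lit 0xb) (nat_lit 0x2753400106) (.cons (nat_lit 0x1111101011) (nat_lit 0x10100) (nat_lit 0xb) (nat_lit 0x7235406010) .nil))) (.non (nat_lit 1) (nat_lit 4) (nat_lit 0x4a840) (nat_lit 0x2000000010003000200000004000000000000))) (.non (nat_lit 1) (nat_lit 4) (nat_lit 0x1a801) (nat_lit 0x200030001000200000000000000000004))) (.non (nat_lit 1) (nat_lit 4) (nat_lit 0x65451) (nat_lit 0x1000100020002000200000002000100000002))) (.non (nat_lit 1) (nat_lit 4) (nat_lit 0x81050) (nat_lit 0x1000000000001000000000002000100000000))))))) (.non (nat_lit 1) (nat_lit 4) (nat_lit 0x55441) (nat_lit 0x1000100010001000100000001000000000001))) (.non (nat_lit 1) (nat_lit 4) (nat_lit 0x45440) (nat_lit 0x1000000010001000100000001000000000000))) (.non (nat_lit 1) (nat_lit 4) (nat_lit 0x41040) (nat_lit 0x1000000000001000000000001000000000000)))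 (.non (nat_lit 1) (nat_lit 4) (nat_lit 0x41440) (nat_lit 0x1000000000001000100000001000000000000))) (.non (nat_lit 1) (nat_lit 4) (nat_lit 0x40050) (nat_lit 0x1000000000000000000000001000100000000))) (.non (nat_lit 2) (nat_lit 4) (nat_lit 0x45445) (nat_lit 0x1000000010001000100000001000000010001))) (.non (nat_lit 1) (nat_lit 4) (nat_lit 0x45441) (nat_lit 0x1000000010001000100000001000000000001))))

noncomputable def t749_28 : Tr := (.st (nat_lit 7) (nat_lit 2) (nat_lit 4) (nat_lit 0x14405) (nat_lit 0x100020000000100000000000000010002) (nat_lit 1) (nat_lit 1) (.st (nat_lit 8) (nat_lit 2) (nat_lit 5) (nat_lit 0x14105) (nat_lit 0x200010000000000010000000000010002) (nat_lit 1) (nat_lit 1) (.ex (nat_lit 1) (.ex (nat_lit 2) t749_27 (.split (nat_lit 9) (nat_lit 0) (.split (nat_lit 9) (nat_lit 3) (.split (nat_lit 9) (nat_lit 4) (.split (nat_lit 9) (nat_lit 5) (.split (nat_lit 9) (nat_lit 6) (.split (nat_lit 9) (nat_lit 7) (.split (nat_lit 9) (nat_lit 8) (.split (nat_lit 9) (nat_lit 1) (.unj (nat_lit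 0x40054) (nat_lit 0x1000000000000000000000001000200020000) (nat_lit 0x14500) (nat_lit 0x100010000000200020000000000000000)) (.unj (nat_lit 0x40014) (nat_lit 0x1000000000000000000000000000100010000) (nat_lit 0x5500) (nat_lit 0x10001000200020000000000000000))) (.non (nat_lit 1) (nat_lit 4) (nat_lit 0x55451) (nat_lit 0x1000100010001000100000001000100000001))) (.non (nat_lit 1) (nat_lit 4) (nat_lit 0x45450) (nat_lit 0x1000000010001000100000001000100000000))) (.non (nat_lit 1) (nat_lit 4) (nat_lit 0x41050) (nat_lit 0x1000000000001000000000001000100000000))) (.star (nat_lit 9) (nat_lit 2) (nat_lit 5))) (.star (nat_lit 9) (nat_lit 2) (nat_lit 4))) (.non (nat_lit 1) (nat_lit 4) (nat_lit 0x40050) (nat_lit 0x1000000000000000000000001000100000000))) (.non (nat_lit 1) (nat_lit 4) (nat_lit 0x45451) (nat_lit 0x1000000010001000100000001000100000001)))) (.split (nat_lit 9) (nat_lit 0) (.split (nat_lit 9) (nat_lit 3) (.split (nat_lit 9) (nat_lit 4) (.split (nat_lit 9) (nat_lit 5) (.split (nat_lit 9) (nat_lit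 6) (.split (nat_lit 9) (nat_lit 7) (.split (nat_lit 9) (nat_lit 8) (.split (nat_lit 9) (nat_lit 2) (.unj (nat_lit 0x40054) (nat_lit 0x1000000000000000000000001000200020000) (nat_lit 0x14500) (nat_lit 0x100010000000200020000000000000000)) (.unj (nat_lit 0x40014) (nat_lit 0x1000000000000000000000000000100010000) (nat_lit 0x5500) (nat_lit 0x10001000200020000000000000000))) (.non (nat_lit 2) (nat_lit 4) (nat_lit 0x50005) (nat_lit 0x1000100000000000000000000000000010001))) (.non (nat_lit 2) (nat_lit 4) (nat_lit 0x44005) (nat_lit 0x1000000010000000000000000000000010001))) (.non (nat_lit 2) (nat_lit 4) (nat_lit 0x45405) (nat_lit 0x1000000010001000100000000000000010001))) (.star (nat_lit 9) (nat_lit 1) (nat_lit 5))) (.star (nat_lit 9) (nat_lit 1) (nat_lit 4))) (.non (nat_lit 2) (nat_lit 4) (nat_lit 0x45445) (nat_lit 0x1000000010001000100000001000000010001))) (.non (nat_lit 2) (nat_lit 4) (nat_lit 0x40005) (nat_lit 0x1000000000000000000000000000000010001))))))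

noncomputable def t749_29 : Tr := (.ex (nat_lit 4) (.ex (nat_lit 6) (.pd (.cons (nat_lit 0) (nat_lit 7) (nat_lit 0) (nat_lit 0x5442110) (nat_lit 0xf423fb71ae1f156f423fb71ae1f15600000) (.cons (nat_lit 1) (nat_lit 7) (nat_lit 0) (nat_lit 0x5442200) (nat_lit 0xf423fb71ae1f156f423fb71ae00000f423f) (.cons (nat_lit 2) (nat_lit 7) (nat_lit 0) (nat_lit 0x5443000) (nat_lit 0xf423fb71ae1f156f423f00000f423fb71ae) (.cons (nat_lit 3) (nat_lit 7) (nat_lit 0) (nat_lit 0x5440100) (nat_lit 0xf423fb71ae1f15600000f423f54591437a2) .nil)))) (.leaf (.cons (nat_lit 0x4454) (nat_lit 0x20000000100000003000400030000) (.cons (nat_lit 0x4550) (nat_lit 0x30000000400030002000100000000) (.cons (nat_lit 0x4541) (nat_lit 0x20000000200020001000000000001) (.cons (nat_lit 0x4415) (nat_lit 0x20000000100000000000300040003) .nil)))) .nil)) (.split (nat_lit 8) (nat_lit 0) (.split (nat_lit 8) (nat_lit 1) (.split (nat_lit 8) (nat_lit 2) (.split (nat_lit 8) (nat_lit 3) (.split (nat_lit 8) (nat_lit 5) (.split (nat_lit 8) (nat_lit 7)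 (.split (nat_lit 8) (nat_lit 4) (.sup (nat_lit 0x300010005000800060000000000000000) (nat_lit 0x3000700070003)) (.unj (nat_lit 0x55) (nat_lit 0x1000200020001) (nat_lit 0x11500) (nat_lit 0x100000001000100010000000000000000))) (.non (nat_lit 1) (nat_lit 4) (nat_lit 0x15400) (nat_lit 0x100010001000100000000000000000000))) (.non (nat_lit 1) (nat_lit 4) (nat_lit 0x11400) (nat_lit 0x100000001000100000000000000000000))) (.non (nat_lit 1) (nat_lit 4) (nat_lit 0x15440) (nat_lit 0x100010001000100000001000000000000))) (.non (nat_lit 1) (nat_lit 4) (nat_lit 0x15450) (nat_lit 0x100010001000100000001000100000000))) (.non (nat_lit 2) (nat_lit 4) (nat_lit 0x15405) (nat_lit 0x100010001000100000000000000010001))) (.non (nat_lit 1) (nat_lit 4) (nat_lit 0x15401) (nat_lit 0x100010001000100000000000000000001)))) (.split (nat_lit 8) (nat_lit 0) (.split (nat_lit 8) (nat_lit 1) (.split (nat_lit 8) (nat_lit 2) (.split (nat_lit 8) (nat_lit 3) (.split (nat_lit 8) (nat_lit 5) (.split (nat_lit 8) (nat_lit 7) (.split (nat_lit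 8) (nat_lit 6) (.unj (nat_lit 0x55) (nat_lit 0x1000200020001) (nat_lit 0x11500) (nat_lit 0x100000001000200020000000000000000)) (.unj (nat_lit 0x55) (nat_lit 0x1000200020001) (nat_lit 0x11500) (nat_lit 0x100000001000100010000000000000000))) (.non (nat_lit 1) (nat_lit 4) (nat_lit 0x14441) (nat_lit 0x100020000000100000001000000000001))) (.non (nat_lit 1) (nat_lit 4) (nat_lit 0x15441) (nat_lit 0x100020001000200000001000000000001))) (.non (nat_lit 1) (nat_lit 4) (nat_lit 0x14451) (nat_lit 0x100020000000100000002000100000001))) (.star (nat_lit 8) (nat_lit 2) (nat_lit 4))) (.star (nat_lit 8) (nat_lit 1) (nat_lit 4))) (.non (nat_lit 1) (nat_lit 4) (nat_lit 0x15451) (nat_lit 0x100030001000200000002000100000002))))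

noncomputable def t749_30 : Tr := (.st (nat_lit 7) (nat_lit 1) (nat_lit 4) (nat_lit 0x4441) (nat_lit 0x20000000100000001000000000001) (nat_lit 1) (nat_lit 1) (.ex (nat_lit 1) (.ex (nat_lit 2) (.split (nat_lit 7) (nat_lit 3) (.split (nat_lit 7) (nat_lit 0) (.pd (.cons (nat_lit 0) (nat_lit 5) (nat_lit 0) (nat_lit 0x36042110) (nat_lit 0xf423ff423f00000f423fb71aea2c280473700000) (.cons (nat_lit 3) (nat_lit 5) (nat_lit 0) (nat_lit 0x6040100) (nat_lit 0xf423ff423f00000f423f00000f423f5459106711) .nil)) t749_29) (.non (nat_lit 1) (nat_lit 4) (nat_lit 0x8881) (nat_lit 0x20000000100000001000000000002))) (.non (nat_lit 1) (nat_lit 4) (nat_lit 0xa850) (nat_lit 0x30001000200000004000200000000))) (.split (nat_lit 8) (nat_lit 0) (.split (nat_lit 8) (nat_lit 3) (.split (nat_lit 8) (nat_lit 4) (.split (nat_lit 8) (nat_lit 5) (.split (nat_lit 8) (nat_lit 6) (.split (nat_lit 8) (nat_lit 7) (.split (nat_lit 8) (nat_lit 1) (.sup (nat_lit 0x500000000000000000000000a00090002) (nat_lit 0x20005000a00080000000000000000))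 (.unj (nat_lit 0x10014) (nat_lit 0x100000000000000000000000100010000) (nat_lit 0x5500) (nat_lit 0x10001000200020000000000000000))) (.non (nat_lit 1) (nat_lit 4) (nat_lit 0x14050) (nat_lit 0x100010000000000000001000100000000))) (.non (nat_lit 1) (nat_lit 4) (nat_lit 0x15450) (nat_lit 0x100010001000100000001000100000000))) (.star (nat_lit 8) (nat_lit 2) (nat_lit 5))) (.star (nat_lit 8) (nat_lit 2) (nat_lit 4))) (.non (nat_lit 1) (nat_lit 4) (nat_lit 0x10050) (nat_lit 0x100000000000000000001000100000000))) (.non (nat_lit 1) (nat_lit 4) (nat_lit 0x14051) (nat_lit 0x100010000000000000001000100000001)))) (.split (nat_lit 8) (nat_lit 0) (.split (nat_lit 8) (nat_lit 3) (.split (nat_lit 8) (nat_lit 4) (.split (nat_lit 8) (nat_lit 5) (.split (nat_lit 8) (nat_lit 6) (.split (nat_lit 8) (nat_lit 7) (.split (nat_lit 8) (nat_lit 2) (.sup (nat_lit 0x300000000000000000000000400050001) (nat_lit 0x10003000500040000000000000000)) (.unj (nat_lit 0x10014) (nat_lit 0x100000000000000000000000100010000) (nat_lit 0x5500)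 (nat_lit 0x10001000200020000000000000000))) (.non (nat_lit 1) (nat_lit 4) (nat_lit 0x14441) (nat_lit 0x100020000000100000001000000000001))) (.non (nat_lit 2) (nat_lit 4) (nat_lit 0x15405) (nat_lit 0x100010001000100000000000000010001))) (.star (nat_lit 8) (nat_lit 1) (nat_lit 5))) (.star (nat_lit 8) (nat_lit 1) (nat_lit 4))) (.non (nat_lit 1) (nat_lit 4) (nat_lit 0x14451) (nat_lit 0x100020000000100000002000100000001))) (.non (nat_lit 1) (nat_lit 4) (nat_lit 0x15451) (nat_lit 0x100030001000200000002000100000002)))))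

noncomputable def t749 : Tr := (.split (nat_lit 7) (nat_lit 0) (.split (nat_lit 7) (nat_lit 3) (.split (nat_lit 6) (nat_lit 0) (.split (nat_lit 6) (nat_lit 3) .uj (.sup (nat_lit 0x20009000a0005) (nat_lit 0x50002000a00080000000000000000))) (.split (nat_lit 6) (nat_lit 3) (.sup (nat_lit 0x5000a00090002) (nat_lit 0x50002000a00080000000000000000)) (.st (nat_lit 0) (nat_lit 1) (nat_lit 4) (nat_lit 0x5451) (nat_lit 0x10003000200000002000100000002) (nat_lit 1) (nat_lit 1) (.st (nat_lit 3) (nat_lit 1) (nat_lit 4) (nat_lit 0x1451) (nat_lit 0x2000100000002000100000001) (nat_lit 1) (nat_lit 1) t749_2)))) (.split (nat_lit 6) (nat_lit 3) (.split (nat_lit 6) (nat_lit 0) (.sup (nat_lit 0x20009000a0005) (nat_lit 0x20005000a00080000000000000000)) (.ex (nat_lit 0) t749_9 (.split (nat_lit 8) (nat_lit 1) (.split (nat_lit 8) (nat_lit 2) (.split (nat_lit 8) (nat_lit 3) (.split (nat_lit 8) (nat_lit 5) (.split (nat_lit 8) (nat_lit 6) (.split (nat_lit 8) (nat_lit 7) (.split (nat_lit 8) (nat_lit 4) (.st (nat_lit 0)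 (nat_lit 2) (nat_lit 4) (nat_lit 0x11005) (nat_lit 0x100000001000000000000000000010002) (nat_lit 1) (nat_lit 1) t749_13) (.st (nat_lit 7) (nat_lit 2) (nat_lit 4) (nat_lit 0x15445) (nat_lit 0x100020002000200000001000000010002) (nat_lit 1) (nat_lit 1) (.st (nat_lit 0) (nat_lit 2) (nat_lit 4) (nat_lit 0x11005) (nat_lit 0x100000001000000000000000000010002) (nat_lit 1) (nat_lit 1) (.st (nat_lit 5) (nat_lit 1) (nat_lit 4) (nat_lit 0x15451) (nat_lit 0x100030003000400000002000100000002) (nat_lit 1) (nat_lit 2) t749_15)))) (.non (nat_lit 1) (nat_lit 4) (nat_lit 0x15401) (nat_lit 0x100010001000100000000000000000001))) (.non (nat_lit 1) (nat_lit 4) (nat_lit 0x11001) (nat_lit 0x100000001000000000000000000000001))) (.non (nat_lit 1) (nat_lit 4) (nat_lit 0x11401) (nat_lit 0x100000001000100000000000000000001))) (.non (nat_lit 1) (nat_lit 4) (nat_lit 0x15441) (nat_lit 0x100010001000100000001000000000001))) (.non (nat_lit 1) (nat_lit 4) (nat_lit 0x15451) (nat_lit 0x100010001000100000001000100000001))) (.non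 (nat_lit 2) (nat_lit 4) (nat_lit 0x10005) (nat_lit 0x100000000000000000000000000010001))))) (.non (nat_lit 1) (nat_lit 4) (nat_lit 0x5440) (nat_lit 0x10001000100000001000000000000)))) (.split (nat_lit 6) (nat_lit 0) (.split (nat_lit 7) (nat_lit 3) (.split (nat_lit 6) (nat_lit 3) (.sup (nat_lit 0x5000a00090002) (nat_lit 0x20005000a00080000000000000000)) (.ex (nat_lit 0) t749_22 (.split (nat_lit 8) (nat_lit 1) (.split (nat_lit 8) (nat_lit 2) (.split (nat_lit 8) (nat_lit 3) (.split (nat_lit 8) (nat_lit 5) (.split (nat_lit 8) (nat_lit 6) (.split (nat_lit 8) (nat_lit 7) (.split (nat_lit 8) (nat_lit 4) (.st (nat_lit 0) (nat_lit 2) (nat_lit 4) (nat_lit 0x14005) (nat_lit 0x100010000000000000000000000010002) (nat_lit 1) (nat_lit 1) t749_26) (.st (nat_lit 6) (nat_lit 2) (nat_lit 4) (nat_lit 0x15445) (nat_lit 0x100020002000200000001000000010002) (nat_lit 1) (nat_lit 1) (.st (nat_lit 0) (nat_lit 2) (nat_lit 4) (nat_lit 0x14005) (nat_lit 0x100010000000000000000000000010002) (nat_lit 1) (nat_lit 1) (.st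 (nat_lit 5) (nat_lit 1) (nat_lit 4) (nat_lit 0x15451) (nat_lit 0x100030003000400000002000100000002) (nat_lit 1) (nat_lit 2) t749_28)))) (.non (nat_lit 1) (nat_lit 4) (nat_lit 0x14001) (nat_lit 0x100010000000000000000000000000001))) (.non (nat_lit 1) (nat_lit 4) (nat_lit 0x15401) (nat_lit 0x100010001000100000000000000000001))) (.non (nat_lit 1) (nat_lit 4) (nat_lit 0x14401) (nat_lit 0x100010000000100000000000000000001))) (.non (nat_lit 1) (nat_lit 4) (nat_lit 0x15441) (nat_lit 0x100010001000100000001000000000001))) (.non (nat_lit 1) (nat_lit 4) (nat_lit 0x15451) (nat_lit 0x100010001000100000001000100000001))) (.non (nat_lit 2) (nat_lit 4) (nat_lit 0x10005) (nat_lit 0x100000000000000000000000000010001))))) (.split (nat_lit 6) (nat_lit 3) (.st (nat_lit 0) (nat_lit 1) (nat_lit 4) (nat_lit 0x5451) (nat_lit 0x30001000200000002000100000002) (nat_lit 1) (nat_lit 1) (.st (nat_lit 3) (nat_lit 1) (nat_lit 4) (nat_lit 0x4451) (nat_lit 0x20000000100000002000100000001) (nat_lit 1) (nat_lit 1) (.st (nat_lit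 5) (nat_lit 1) (nat_lit 4) (nat_lit 0x5441) (nat_lit 0x20001000200000001000000000001) (nat_lit 1) (nat_lit 1) t749_30))) (.non (nat_lit 1) (nat_lit 4) (nat_lit 0x5440) (nat_lit 0x10001000100000001000000000000)))) (.non (nat_lit 1) (nat_lit 4) (nat_lit 0x5401) (nat_lit 0x10001000100000000000000000001))))

noncomputable def t753_1 : Tr := (.pd (.cons (nat_lit 1) (nat_lit 6) (nat_lit 0) (nat_lit 0x30472200) (nat_lit 0x7a11c00000f423f7a11e7a11a7a11800000f423f) (.cons (nat_lit 2) (nat_lit 6) (nat_lit 0) (nat_lit 0x30473000) (nat_lit 0x7a11c00000f423f7a11e7a11a00000f423fb71ae) .nil)) (.ex (nat_lit 1) (.ex (nat_lit 2) (.pd (.cons (nat_lit 0) (nat_lit 7) (nat_lit 0) (nat_lit 0x5442110) (nat_lit 0xf423fb71ae51612f423fb71ae1f15600000) (.cons (nat_lit 3) (nat_lit 6) (nat_lit 0) (nat_lit 0x40440100) (nat_lit 0xf423f00000f423f3d08d00000f423f54591437a2) .nil)) (.leaf (.cons (nat_lit 0x5054) (nat_lit 0x20001000000000003000400030000) (.cons (nat_lit 0x4154) (nat_lit 0x20000000000010003000400030000) (.cons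 (nat_lit 0x5015) (nat_lit 0x10002000000000000000300040003) (.cons (nat_lit 0x1415) (nat_lit 0x2000100000000000300040003) .nil)))) .nil)) (.split (nat_lit 8) (nat_lit 0) (.split (nat_lit 8) (nat_lit 3) (.split (nat_lit 8) (nat_lit 4) (.split (nat_lit 8) (nat_lit 5) (.split (nat_lit 8) (nat_lit 6) (.split (nat_lit 8) (nat_lit 7) (.split (nat_lit 8) (nat_lit 1) (.sup (nat_lit 0x300000000000000000000000500050001) (nat_lit 0x40002000500050000000000000000)) (.unj (nat_lit 0x10014) (nat_lit 0x100000000000000000000000100010000) (nat_lit 0x5500) (nat_lit 0x10001000100010000000000000000))) (.non (nat_lit 1) (nat_lit 4) (nat_lit 0x14050) (nat_lit 0x100010000000000000001000100000000))) (.non (nat_lit 1) (nat_lit 4) (nat_lit 0x15050) (nat_lit 0x100010001000000000001000100000000))) (.star (nat_lit 8) (nat_lit 2) (nat_lit 5))) (.star (nat_lit 8) (nat_lit 2) (nat_lit 4))) (.non (nat_lit 1) (nat_lit 4) (nat_lit 0x10050) (nat_lit 0x100000000000000000001000100000000))) (.non (nat_lit 1) (nat_lit 4) (nat_lit 0x15051)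 (nat_lit 0x100010001000000000001000100000001)))) (.split (nat_lit 8) (nat_lit 0) (.split (nat_lit 8) (nat_lit 3) (.split (nat_lit 8) (nat_lit 4) (.split (nat_lit 8) (nat_lit 5) (.split (nat_lit 8) (nat_lit 6) (.split (nat_lit 8) (nat_lit 7) (.split (nat_lit 8) (nat_lit 2) (.sup (nat_lit 0x300000000000000000000000400050001) (nat_lit 0x40002000500050000000000000000)) (.unj (nat_lit 0x10014) (nat_lit 0x100000000000000000000000100010000) (nat_lit 0x5500) (nat_lit 0x10001000100010000000000000000))) (.non (nat_lit 1) (nat_lit 4) (nat_lit 0x15441) (nat_lit 0x100020002000100000001000000000001))) (.non (nat_lit 1) (nat_lit 4) (nat_lit 0x15401) (nat_lit 0x100010002000100000000000000000001))) (.star (nat_lit 8) (nat_lit 1) (nat_lit 5))) (.star (nat_lit 8) (nat_lit 1) (nat_lit 4))) (.non (nat_lit 1) (nat_lit 4) (nat_lit 0x15451) (nat_lit 0x100020002000100000002000100000001))) (.non (nat_lit 2) (nat_lit 4) (nat_lit 0x10005) (nat_lit 0x100000000000000000000000000010001)))))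

noncomputable def t753_2 : Tr := (.ex (nat_lit 1) (.ex (nat_lit 2) (.pd (.cons (nat_lit 0) (nat_lit 7) (nat_lit 0) (nat_lit 0x5442110) (nat_lit 0xf423fb71ae1f156f423fb71ae1f15600000) (.cons (nat_lit 3) (nat_lit 6) (nat_lit 0) (nat_lit 0x40440100) (nat_lit 0xf423f00000f423f1750000000f423f54591437a2) .nil)) (.split (nat_lit 7) (nat_lit 6) (.leaf (.cons (nat_lit 0x5054) (nat_lit 0x20001000000000003000400030000) (.cons (nat_lit 0x4550) (nat_lit 0x30000000300040002000100000000) (.cons (nat_lit 0x1505) (nat_lit 0x3000400030000000000010002) (.cons (nat_lit 0x5015) (nat_lit 0x10002000000000000000300040003) .nil)))) (.cons (nat_lit 0x11011101) (nat_lit 0x100010) (nat_lit 0xc) (nat_lit 0x4012305) .nil)) (.non (nat_lit 1) (nat_lit 4) (nat_lit 0x6850) (nat_lit 0x30002000100000002000100000000)))) (.split (nat_lit 8) (nat_lit 0) (.split (nat_lit 8) (nat_lit 3) (.split (nat_lit 8) (nat_lit 4) (.split (nat_lit 8) (nat_lit 5) (.split (nat_lit 8) (nat_lit 6) (.split (nat_lit 8) (nat_lit 7) (.split (nat_lit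 8) (nat_lit 1) (.sup (nat_lit 0x300000000000000000000000500050001) (nat_lit 0x30001000400050000000000000000)) (.unj (nat_lit 0x10014) (nat_lit 0x100000000000000000000000100010000) (nat_lit 0x5500) (nat_lit 0x10001000100010000000000000000))) (.non (nat_lit 1) (nat_lit 4) (nat_lit 0x14050) (nat_lit 0x100010000000000000001000100000000))) (.non (nat_lit 1) (nat_lit 4) (nat_lit 0x15050) (nat_lit 0x100010001000000000001000100000000))) (.star (nat_lit 8) (nat_lit 2) (nat_lit 5))) (.star (nat_lit 8) (nat_lit 2) (nat_lit 4))) (.non (nat_lit 1) (nat_lit 4) (nat_lit 0x10050) (nat_lit 0x100000000000000000001000100000000))) (.non (nat_lit 1) (nat_lit 4) (nat_lit 0x15051) (nat_lit 0x100010001000000000001000100000001)))) (.split (nat_lit 8) (nat_lit 0) (.split (nat_lit 8) (nat_lit 3) (.split (nat_lit 8) (nat_lit 4) (.split (nat_lit 8) (nat_lit 5) (.split (nat_lit 8) (nat_lit 6) (.split (nat_lit 8) (nat_lit 7) (.split (nat_lit 8) (nat_lit 2) (.sup (nat_lit 0x300000000000000000000000400050001) (nat_lit 0x30001000400050000000000000000))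 (.unj (nat_lit 0x10014) (nat_lit 0x100000000000000000000000100010000) (nat_lit 0x5500) (nat_lit 0x10001000100010000000000000000))) (.non (nat_lit 1) (nat_lit 4) (nat_lit 0x15441) (nat_lit 0x100020002000100000001000000000001))) (.non (nat_lit 1) (nat_lit 4) (nat_lit 0x15401) (nat_lit 0x100010002000100000000000000000001))) (.star (nat_lit 8) (nat_lit 1) (nat_lit 5))) (.star (nat_lit 8) (nat_lit 1) (nat_lit 4))) (.non (nat_lit 1) (nat_lit 4) (nat_lit 0x15451) (nat_lit 0x100020002000100000002000100000001))) (.non (nat_lit 2) (nat_lit 4) (nat_lit 0x10005) (nat_lit 0x100000000000000000000000000010001))))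

noncomputable def t753_3 : Tr := (.split (nat_lit 7) (nat_lit 3) (.split (nat_lit 6) (nat_lit 0) (.split (nat_lit 6) (nat_lit 3) .uj (.split (nat_lit 7) (nat_lit 6) (.split (nat_lit 6) (nat_lit 3) (.sup (nat_lit 0x1000500050003) (nat_lit 0x40002000500050000000000000000)) (.non (nat_lit 1) (nat_lit 4) (nat_lit 0xa840) (nat_lit 0x10002000100000002000000000000))) (.non (nat_lit 1) (nat_lit 4) (nat_lit 0x9440) (nat_lit 0x10002000100000001000000000000)))) (.split (nat_lit 6) (nat_lit 3) (.split (nat_lit 7) (nat_lit 6) (.split (nat_lit 6) (nat_lit 0) (.sup (nat_lit 0x3000500050001) (nat_lit 0x40002000500050000000000000000)) (.non (nat_lit 1) (nat_lit 4) (nat_lit 0xa801) (nat_lit 0x10002000100000000000000000002))) (.non (nat_lit 1) (nat_lit 4) (nat_lit 0x9401) (nat_lit 0x10002000100000000000000000001))) (.non (nat_lit 1) (nat_lit 4) (nat_lit 0x5441) (nat_lit 0x10002000100000001000000000001)))) (.split (nat_lit 6) (nat_lit 3) (.split (nat_lit 6) (nat_lit 0) (.split (nat_lit 7) (nat_lit 3) (.sup (nat_lit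 0x1000500050003) (nat_lit 0x20004000500050000000000000000)) (.non (nat_lit 1) (nat_lit 4) (nat_lit 0xa850) (nat_lit 0x30002000100000004000200000000))) (.st (nat_lit 0) (nat_lit 2) (nat_lit 4) (nat_lit 0x5405) (nat_lit 0x10002000100000000000000010002) (nat_lit 1) (nat_lit 1) (.st (nat_lit 3) (nat_lit 1) (nat_lit 4) (nat_lit 0x5451) (nat_lit 0x20002000100000002000100000001) (nat_lit 1) (nat_lit 1) (.st (nat_lit 4) (nat_lit 1) (nat_lit 5) (nat_lit 0x5151) (nat_lit 0x30002000000020002000100000001) (nat_lit 1) (nat_lit 1) (.st (nat_lit 5) (nat_lit 2) (nat_lit 4) (nat_lit 0x5445) (nat_lit 0x20003000200000001000000010002) (nat_lit 1) (nat_lit 1) (.st (nat_lit 6) (nat_lit 1) (nat_lit 4) (nat_lit 0x5401) (nat_lit 0x10002000100000000000000000001) (nat_lit 1) (nat_lit 1) (.split (nat_lit 6) (nat_lit 0) (.split (nat_lit 5) (nat_lit 4) (.pd (.cons (nat_lit 1) (nat_lit 7) (nat_lit 0) (nat_lit 0x652200) (nat_lit 0x7a11c7a11ef423ff423fb71ae000007a11a) (.cons (nat_lit 2) (nat_lit 7) (nat_lit 0) (nat_lit 0x653000)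 (nat_lit 0x7a11c7a11ef423ff423f00000f423f3d089) .nil)) (.st (nat_lit 7) (nat_lit 1) (nat_lit 4) (nat_lit 0x5441) (nat_lit 0x20002000100000001000000000001) (nat_lit 1) (nat_lit 1) (.split (nat_lit 7) (nat_lit 3) t753_1 (.non (nat_lit 1) (nat_lit 4) (nat_lit 0xa850) (nat_lit 0x30002000100000004000200000000))))) (.split (nat_lit 5) (nat_lit 4) (.pd (.cons (nat_lit 1) (nat_lit 7) (nat_lit 0) (nat_lit 0x652200) (nat_lit 0x437a254591f423ff423fb71ae00000174ea) .nil) (.st (nat_lit 7) (nat_lit 1) (nat_lit 4) (nat_lit 0x5441) (nat_lit 0x20002000100000001000000000001) (nat_lit 1) (nat_lit 1) (.split (nat_lit 7) (nat_lit 3) (.pd (.cons (nat_lit 2) (nat_lit 6) (nat_lit 0) (nat_lit 0x30473000) (nat_lit 0x437a200000f423f54591174ea00000f423fb71ae) .nil) t753_2) (.non (nat_lit 1) (nat_lit 4) (nat_lit 0xa850) (nat_lit 0x30002000100000004000200000000))))) (.nol (nat_lit 0x4d00) (nat_lit 0x10000000100020000000000000000)))) (.non (nat_lit 1) (nat_lit 4) (nat_lit 0xa801) (nat_lit 0x10002000100000000000000000002)))))))))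 (.non (nat_lit 1) (nat_lit 4) (nat_lit 0x5040) (nat_lit 0x10001000000000001000000000000))))

noncomputable def t753_4 : Tr := (.pd (.cons (nat_lit 1) (nat_lit 6) (nat_lit 0) (nat_lit 0x472200) (nat_lit 0x7a11c00000f423f7a11ef423fb71ae000007a11a) (.cons (nat_lit 2) (nat_lit 6) (nat_lit 0) (nat_lit 0x473000) (nat_lit 0x7a11c00000f423f7a11ef423f00000f423f3d089) .nil)) (.ex (nat_lit 1) (.ex (nat_lit 2) (.pd (.cons (nat_lit 0) (nat_lit 6) (nat_lit 0) (nat_lit 0x40442110) (nat_lit 0xf423f00000f423f3d08df423fb71ae1f15600000) (.cons (nat_lit 3) (nat_lit 7) (nat_lit 0) (nat_lit 0x5440100) (nat_lit 0xf423fb71ae5161200000f423f54591437a2) .nil)) (.leaf (.cons (nat_lit 0x5054) (nat_lit 0x10002000000000003000400030000) (.cons (nat_lit 0x1454) (nat_lit 0x2000100000003000400030000) (.cons (nat_lit 0x5015) (nat_lit 0x20001000000000000000300040003) (.cons (nat_lit 0x4115) (nat_lit 0x20000000000010000000300040003) .nil)))) .nil)) (.split (nat_lit 8) (nat_lit 0) (.split (nat_lit 8) (nat_lit 3) (.split (nat_lit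 8) (nat_lit 4) (.split (nat_lit 8) (nat_lit 5) (.split (nat_lit 8) (nat_lit 6) (.split (nat_lit 8) (nat_lit 7) (.split (nat_lit 8) (nat_lit 1) (.sup (nat_lit 0x300000000000000000000000500050001) (nat_lit 0x20004000500050000000000000000)) (.unj (nat_lit 0x10014) (nat_lit 0x100000000000000000000000100010000) (nat_lit 0x5500) (nat_lit 0x10001000100010000000000000000))) (.non (nat_lit 1) (nat_lit 4) (nat_lit 0x15050) (nat_lit 0x100010001000000000001000100000000))) (.non (nat_lit 1) (nat_lit 4) (nat_lit 0x15440) (nat_lit 0x100010002000100000001000000000000))) (.star (nat_lit 8) (nat_lit 2) (nat_lit 5))) (.star (nat_lit 8) (nat_lit 2) (nat_lit 4))) (.non (nat_lit 1) (nat_lit 4) (nat_lit 0x10050) (nat_lit 0x100000000000000000001000100000000))) (.non (nat_lit 1) (nat_lit 4) (nat_lit 0x15051) (nat_lit 0x100010001000000000001000100000001)))) (.split (nat_lit 8) (nat_lit 0) (.split (nat_lit 8) (nat_lit 3) (.split (nat_lit 8) (nat_lit 4) (.split (nat_lit 8) (nat_lit 5) (.split (nat_lit 8) (nat_lit 6) (.split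 (nat_lit 8) (nat_lit 7) (.split (nat_lit 8) (nat_lit 2) (.sup (nat_lit 0x300000000000000000000000400050001) (nat_lit 0x20004000500050000000000000000)) (.unj (nat_lit 0x10014) (nat_lit 0x100000000000000000000000100010000) (nat_lit 0x5500) (nat_lit 0x10001000100010000000000000000))) (.non (nat_lit 1) (nat_lit 4) (nat_lit 0x15441) (nat_lit 0x100020002000100000001000000000001))) (.non (nat_lit 1) (nat_lit 4) (nat_lit 0x15440) (nat_lit 0x100010002000100000001000000000000))) (.star (nat_lit 8) (nat_lit 1) (nat_lit 5))) (.star (nat_lit 8) (nat_lit 1) (nat_lit 4))) (.non (nat_lit 1) (nat_lit 4) (nat_lit 0x15450) (nat_lit 0x100010002000100000002000100000000))) (.non (nat_lit 2) (nat_lit 4) (nat_lit 0x10005) (nat_lit 0x100000000000000000000000000010001)))))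

noncomputable def t753_5 : Tr := (.ex (nat_lit 1) (.ex (nat_lit 2) (.pd (.cons (nat_lit 0) (nat_lit 6) (nat_lit 0) (nat_lit 0x40442110) (nat_lit 0xf423f00000f423f17500f423fb71ae1f15600000) (.cons (nat_lit 3) (nat_lit 7) (nat_lit 0) (nat_lit 0x5440100) (nat_lit 0xf423fb71ae1f15600000f423f54591437a2) .nil)) (.split (nat_lit 7) (nat_lit 6) (.leaf (.cons (nat_lit 0x5054) (nat_lit 0x10002000000000003000400030000) (.cons (nat_lit 0x1550) (nat_lit 0x3000400030002000100000000) (.cons (nat_lit 0x4505) (nat_lit 0x30000000300040000000000010002) (.cons (nat_lit 0x5015) (nat_lit 0x20001000000000000000300040003) .nil)))) (.cons (nat_lit 0x11101101) (nat_lit 0x10010) (nat_lit 0xc) (nat_lit 0x40102305) .nil)) (.non (nat_lit 1) (nat_lit 4) (nat_lit 0x9440) (nat_lit 0x10002000100000001000000000000)))) (.split (nat_lit 8) (nat_lit 0) (.split (nat_lit 8) (nat_lit 3) (.split (nat_lit 8) (nat_lit 4) (.split (nat_lit 8) (nat_lit 5) (.split (nat_lit 8) (nat_lit 6) (.split (nat_lit 8) (nat_lit 7) (.split (nat_lit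 8) (nat_lit 1) (.sup (nat_lit 0x300000000000000000000000500050001) (nat_lit 0x10003000500040000000000000000)) (.unj (nat_lit 0x10014) (nat_lit 0x100000000000000000000000100010000) (nat_lit 0x5500) (nat_lit 0x10001000100010000000000000000))) (.non (nat_lit 1) (nat_lit 4) (nat_lit 0x15050) (nat_lit 0x100010001000000000001000100000000))) (.non (nat_lit 1) (nat_lit 4) (nat_lit 0x15440) (nat_lit 0x100010002000100000001000000000000))) (.star (nat_lit 8) (nat_lit 2) (nat_lit 5))) (.star (nat_lit 8) (nat_lit 2) (nat_lit 4))) (.non (nat_lit 1) (nat_lit 4) (nat_lit 0x10050) (nat_lit 0x100000000000000000001000100000000))) (.non (nat_lit 1) (nat_lit 4) (nat_lit 0x15051) (nat_lit 0x100010001000000000001000100000001)))) (.split (nat_lit 8) (nat_lit 0) (.split (nat_lit 8) (nat_lit 3) (.split (nat_lit 8) (nat_lit 4) (.split (nat_lit 8) (nat_lit 5) (.split (nat_lit 8) (nat_lit 6) (.split (nat_lit 8) (nat_lit 7) (.split (nat_lit 8) (nat_lit 2) (.sup (nat_lit 0x300000000000000000000000400050001) (nat_lit 0x10003000500040000000000000000))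 (.unj (nat_lit 0x10014) (nat_lit 0x100000000000000000000000100010000) (nat_lit 0x5500) (nat_lit 0x10001000100010000000000000000))) (.non (nat_lit 1) (nat_lit 4) (nat_lit 0x15441) (nat_lit 0x100020002000100000001000000000001))) (.non (nat_lit 1) (nat_lit 4) (nat_lit 0x15440) (nat_lit 0x100010002000100000001000000000000))) (.star (nat_lit 8) (nat_lit 1) (nat_lit 5))) (.star (nat_lit 8) (nat_lit 1) (nat_lit 4))) (.non (nat_lit 1) (nat_lit 4) (nat_lit 0x15450) (nat_lit 0x100010002000100000002000100000000))) (.non (nat_lit 2) (nat_lit 4) (nat_lit 0x10005) (nat_lit 0x100000000000000000000000000010001))))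

noncomputable def t753 : Tr := (.split (nat_lit 7) (nat_lit 0) t753_3 (.split (nat_lit 7) (nat_lit 3) (.split (nat_lit 6) (nat_lit 0) (.split (nat_lit 6) (nat_lit 3) (.split (nat_lit 7) (nat_lit 0) (.sup (nat_lit 0x3000500050001) (nat_lit 0x20004000500050000000000000000)) (.non (nat_lit 1) (nat_lit 5) (nat_lit 0xa201) (nat_lit 0x20001000000010000000000000002))) (.st (nat_lit 0) (nat_lit 2) (nat_lit 4) (nat_lit 0x5445) (nat_lit 0x20002000100000001000000010002) (nat_lit 1) (nat_lit 1) (.st (nat_lit 3) (nat_lit 1) (nat_lit 4) (nat_lit 0x5450) (nat_lit 0x10002000100000002000100000000) (nat_lit 1) (nat_lit 1) (.st (nat_lit 4) (nat_lit 2) (nat_lit 5) (nat_lit 0x5145) (nat_lit 0x30002000000020001000000010002) (nat_lit 1) (nat_lit 1) (.st (nat_lit 5) (nat_lit 1) (nat_lit 4) (nat_lit 0x5451) (nat_lit 0x20003000200000002000100000001) (nat_lit 1) (nat_lit 1) (.st (nat_lit 6) (nat_lit 1) (nat_lit 4) (nat_lit 0x5440) (nat_lit 0x10002000100000001000000000000) (nat_lit 1) (nat_lit 1) (.split (nat_lit 6)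 (nat_lit 3) (.split (nat_lit 5) (nat_lit 4) (.pd (.cons (nat_lit 1) (nat_lit 7) (nat_lit 0) (nat_lit 0x3652200) (nat_lit 0x7a11c7a11ef423f7a11a7a11800000f423f) (.cons (nat_lit 2) (nat_lit 7) (nat_lit 0) (nat_lit 0x3653000) (nat_lit 0x7a11c7a11ef423f7a11a00000f423fb71ae) .nil)) (.st (nat_lit 7) (nat_lit 1) (nat_lit 4) (nat_lit 0x5441) (nat_lit 0x20002000100000001000000000001) (nat_lit 1) (nat_lit 1) (.split (nat_lit 7) (nat_lit 0) t753_4 (.non (nat_lit 1) (nat_lit 4) (nat_lit 0xa881) (nat_lit 0x20002000100000001000000000002))))) (.split (nat_lit 5) (nat_lit 4) (.pd (.cons (nat_lit 2) (nat_lit 7) (nat_lit 0) (nat_lit 0x3653000) (nat_lit 0x437a254591f423f174ea00000f423fb71ae) .nil) (.st (nat_lit 7) (nat_lit 1) (nat_lit 4) (nat_lit 0x5441) (nat_lit 0x20002000100000001000000000001) (nat_lit 1) (nat_lit 1) (.split (nat_lit 7) (nat_lit 0) (.pd (.cons (nat_lit 1) (nat_lit 6) (nat_lit 0) (nat_lit 0x472200) (nat_lit 0x437a200000f423f54591f423fb71ae00000174ea) .nil) t753_5) (.non (nat_lit 1) (nat_lit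 4) (nat_lit 0xa881) (nat_lit 0x20002000100000001000000000002))))) (.nol (nat_lit 0x4d00) (nat_lit 0x10000000100020000000000000000)))) (.non (nat_lit 1) (nat_lit 4) (nat_lit 0xa840) (nat_lit 0x10002000100000002000000000000))))))))) (.non (nat_lit 1) (nat_lit 4) (nat_lit 0x5001) (nat_lit 0x10001000000000000000000000001))) (.non (nat_lit 1) (nat_lit 5) (nat_lit 0x5141) (nat_lit 0x20001000000010001000000000001))))

noncomputable def D7_12 : RL := (.cons (nat_lit 0x22222222222222222222222222222222222222222222222222222222222222222222222222222222222222222222222222222222222222222222222222222222222222222b23222222222222b232a22a22222222232c22222222222232c22222222222222a22232222222222222232522222222222222523222222222a222232) (.split (nat_lit 6) (nat_lit 0) (.split (nat_lit 6) (nat_lit 3) .uj (.split (nat_lit 7) (nat_lit 6) (.split (nat_lit 6) (nat_lit 3) (.sup (nat_lit 0x1000500050003) (nat_lit 0x40002000500050000000000000000)) (.non (nat_lit 1) (nat_lit 4) (nat_lit 0xa840) (nat_lit 0x10002000100000002000000000000)))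 (.non (nat_lit 1) (nat_lit 4) (nat_lit 0x9440) (nat_lit 0x10002000100000001000000000000)))) (.split (nat_lit 6) (nat_lit 3) (.split (nat_lit 7) (nat_lit 6) (.split (nat_lit 6) (nat_lit 0) (.sup (nat_lit 0x3000500050001) (nat_lit 0x40002000500050000000000000000)) (.non (nat_lit 1) (nat_lit 4) (nat_lit 0xa801) (nat_lit 0x10002000100000000000000000002))) (.non (nat_lit 1) (nat_lit 4) (nat_lit 0x9401) (nat_lit 0x10002000100000000000000000001))) (.non (nat_lit 1) (nat_lit 4) (nat_lit 0x5441) (nat_lit 0x10002000100000001000000000001)))) (.cons (nat_lit 0x22222222222222222222222222222222222222222222222222222222222222222222222222222222222222222222222222222222222222222222222222222222222222222b23222222222222b232222222222222232c22222222222232c222222222222222222322222222222222325222222222222225232222222222222232) .uj .nil))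

noncomputable def D7 : RL := (.cons (nat_lit 0x22222222222222222222222222222222222222222222222222222222222222222222222222222222222222222222222222222222222222222222222222222222222222222c22aaaa22222222c23222222222222223252222222222222252222222222222a222232222222222a222325222222222a222252322222222a2222232) (.split (nat_lit 7) (nat_lit 0) (.split (nat_lit 7) (nat_lit 1) (.split (nat_lit 7) (nat_lit 2) (.split (nat_lit 7) (nat_lit 3) .uj (.non (nat_lit 1) (nat_lit 4) (nat_lit 0x6850) (nat_lit 0x30002000100000002000100000000))) (.non (nat_lit 1) (nat_lit 4) (nat_lit 0x6850) (nat_lit 0x30002000100000001000200000000))) (.non (nat_lit 2) (nat_lit 4) (nat_lit 0x6805) (nat_lit 0x30002000100000000000000020001))) (.non (nat_lit 2) (nat_lit 4) (nat_lit 0x6805) (nat_lit 0x30002000100000000000000010002))) (.cons (nat_lit 0x22222222222222222222222222222222222222222222222222222222222222222222222222222222222222222222222222222222222222222222222222222222222222222c22a22a22222222c2322222222222222325a22a222222222252222222222222a2a223222222222222223252222222222222252322222222a2a22232)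 t744 (.cons (nat_lit 0x22222222222222222222222222222222222222222222222222222222222222222222222222222222222222222222222222222222222222222222222222222222222222222c22222222222222c2322222222222222325222222222222225222222222222222222322222222222222325222222222222225232222222222222232) .uj (.cons (nat_lit 0x22222222222222222222222222222222222222222222222222222222222222222222222222222222222222222222222222222222222222222222222222222222222222222c22a22a22222222c23222222222222223252222222222222252a22a22222222a22a23222222222222223252222222222222252322222222a22a2232) t746 (.cons (nat_lit 0x22222222222222222222222222222222222222222222222222222222222222222222222222222222222222222222222222222222222222222222222222222222222222222c22222222222222c232a22a22222222232522222222222222522222222222222a22232222222222222232522222222222222523222222222a222232) (.split (nat_lit 6) (nat_lit 0) (.split (nat_lit 6) (nat_lit 3) .uj (.non (nat_lit 1) (nat_lit 7) (nat_lit 0x1550) (nat_lit 0x3000400030002000100000000))) (.non (nat_lit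 2) (nat_lit 7) (nat_lit 0x1505) (nat_lit 0x3000400030000000000010002))) (.cons (nat_lit 0x22222222222222222222222222222222222222222222222222222222222222222222222222222222222222222222222222222222222222222222222222222222222222222c22222222222222c2322222222222222325222222222222225222222222222222222322222222222222325222222222222225232222222222222232) .uj (.cons (nat_lit 0x22222222222222222222222222222222222222222222222222222222222222222222222222222222222222222222222222222222222222222222222222222222222222222232a22a222222222232a22a2222222233252222222222222252222222222222aa2223222222222222223252222222222222252322222222aa222232) t749 (.cons (nat_lit 0x22222222222222222222222222222222222222222222222222222222222222222222222222222222222222222222222222222222222222222222222222222222222222222232aaaa22222222223222222222222233252222222222222252222222222222a222232222222222a222325222222222a222252322222222a2222232) (.split (nat_lit 7) (nat_lit 0) (.split (nat_lit 7) (nat_lit 1) (.split (nat_lit 7) (nat_lit 2)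 (.split (nat_lit 7) (nat_lit 3) .uj (.non (nat_lit 1) (nat_lit 6) (nat_lit 0x4550) (nat_lit 0x30000000400030002000100000000))) (.non (nat_lit 1) (nat_lit 6) (nat_lit 0x4550) (nat_lit 0x30000000400030001000200000000))) (.non (nat_lit 2) (nat_lit 6) (nat_lit 0x4505) (nat_lit 0x30000000400030000000000020001))) (.non (nat_lit 2) (nat_lit 6) (nat_lit 0x4505) (nat_lit 0x30000000400030000000000010002))) (.cons (nat_lit 0x22222222222222222222222222222222222222222222222222222222222222222222222222222222222222222222222222222222222222222222222222222222222222222232a22a22222222223222222222222233252222222222222252222222222222a22223222222222222223252222222222222252322222222a2222232) (.split (nat_lit 7) (nat_lit 0) (.split (nat_lit 7) (nat_lit 3) .uj (.non (nat_lit 1) (nat_lit 6) (nat_lit 0x4550) (nat_lit 0x30000000400030002000100000000))) (.non (nat_lit 2) (nat_lit 6) (nat_lit 0x4505) (nat_lit 0x30000000400030000000000010002))) (.cons (nat_lit 0x2222222222222222222222222222222222222222222222222222222222222222222222222222222222222222222222222222222222222222222222222222222222222222223222222222222222322222222222223325222222222222225222222222222222222322222222222222325222222222222225232222222222222232)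 .uj (.cons (nat_lit 0x22222222222222222222222222222222222222222222222222222222222222222222222222222222222222222222222222222222222222222222222222222222222222222b23a22a22222222b232a22a22222222232c22222222222232c2222222222222aa2223222222222222223252222222222222252322222222aa222232) t753 (.cons (nat_lit 0x22222222222222222222222222222222222222222222222222222222222222222222222222222222222222222222222222222222222222222222222222222222222222222b23a22a22222222b232222222222222232ca22a2222222232c2222222222222a2a223222222222222223252222222222222252322222222a2a22232) (.split (nat_lit 5) (nat_lit 0) (.split (nat_lit 5) (nat_lit 3) (.split (nat_lit 7) (nat_lit 0) (.split (nat_lit 7) (nat_lit 3) .uj (.split (nat_lit 7) (nat_lit 3) (.sup (nat_lit 0x1000500050003) (nat_lit 0x20004000500050000000000000000)) (.non (nat_lit 1) (nat_lit 4) (nat_lit 0xa850) (nat_lit 0x30002000100000004000200000000)))) (.split (nat_lit 7) (nat_lit 3) (.split (nat_lit 7) (nat_lit 0) (.sup (nat_lit 0x3000500050001) (nat_lit 0x20004000500050000000000000000))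 (.non (nat_lit 1) (nat_lit 6) (nat_lit 0x8601) (nat_lit 0x10000000100010000000000000001))) (.non (nat_lit 1) (nat_lit 6) (nat_lit 0x4941) (nat_lit 0x20000000100020001000000000001)))) (.non (nat_lit 1) (nat_lit 6) (nat_lit 0x8650) (nat_lit 0x10000000300020002000100000000))) (.non (nat_lit 2) (nat_lit 6) (nat_lit 0x8605) (nat_lit 0x10000000300020000000000010002))) D7_12))))))))))))

theorem cov_D7 : Cov 743 757 := by
  have h1 : rl D7 (nat_lit 743) = true := by decide +kernel
  have h2 : 743 + rlen D7 = 757 := by decide +kernel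
  exact cov_of h1 h2

end MP86a502
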