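import Pool.Agent.Lib.MP_86a502_gt.U.Rlc

set_option autoImplicit false
set_option maxRecDepth 1000000
set_option linter.all false

/-! Certificates, numbers 1537 to 1537. -/

namespace MP86a502

noncomputable def t1537_1 : Tr := (.ex (nat_lit 7) (.pd (.cons (nat_lit 4) (nat_lit 8) (nat_lit 0) (nat_lit 0x9065502100) (nat_lit 0xf423f00000f423fb71ae1f15600000f423fb71aea2c2804737) .nil) (.ex (nat_lit 8) (.pd (.cons (nat_lit 4) (nat_lit 9) (nat_lit 0) (nat_lit 0x765502100) (nat_lit 0xf423fb71aea2c280473700000f423fb71aea2c2804737) .nil) (.leaf (.cons (nat_lit 0x1550) (nat_lit 0x3000400030002000100000000) (.cons (nat_lit 0x5500) (nat_lit 0x10002000200010000000000000000) .nil)) (.cons (nat_lit 0x111000) (nat_lit 0x1000100) (nat_lit 1) (nat_lit 0x210000) (.cons (nat_lit 0x1111000) (nat_lit 0x10000100) (nat_lit 0x10) (nat_lit 0x123000) .nil)))) (.split (nat_lit 0xa) (nat_lit 0) (.split (nat_lit 0xa) (nat_lit 1) (.split (nat_lit 0xa) (nat_lit 2) (.split (nat_lit 0xa) (nat_lit 3) (.split (nat_lit 0xa) (nat_lit 4) (.split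 (nat_lit 0xa) (nat_lit 5) (.split (nat_lit 0xa) (nat_lit 6) (.split (nat_lit 0xa) (nat_lit 7) (.split (nat_lit 0xa) (nat_lit 9) (.sup (nat_lit 0x20002000500050005000300000000000000000000) (nat_lit 0x20006000b0010000d)) (.non (nat_lit 0) (nat_lit 5) (nat_lit 0x150000) (nat_lit 0x10001000100000000000000000000000000000000))) (.non (nat_lit 0) (nat_lit 5) (nat_lit 0x114000) (nat_lit 0x10000000100010000000000000000000000000000))) (.non (nat_lit 0) (nat_lit 5) (nat_lit 0x115000) (nat_lit 0x10000000100010001000000000000000000000000))) (.non (nat_lit 2) (nat_lit 7) (nat_lit 0x151400) (nat_lit 0x30001000200000003000400000000000000000000))) (.non (nat_lit 0) (nat_lit 5) (nat_lit 0x155154) (nat_lit 0x50003000600040002000000040003000200010000))) (.non (nat_lit 0) (nat_lit 5) (nat_lit 0x154150) (nat_lit 0x20001000200010000000000010002000100000000))) (.non (nat_lit 0) (nat_lit 5) (nat_lit 0x154054) (nat_lit 0x20001000200010000000000000001000200010000))) (.non (nat_lit 0) (nat_lit 5) (nat_lit 0x155154) (nat_lit 0x50003000600040002000000010002000300040000)))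 (.non (nat_lit 2) (nat_lit 5) (nat_lit 0x150005) (nat_lit 0x30001000200000000000000000000000000030004))))) (.split (nat_lit 0xa) (nat_lit 0) (.split (nat_lit 0xa) (nat_lit 1) (.split (nat_lit 0xa) (nat_lit 2) (.split (nat_lit 0xa) (nat_lit 3) (.split (nat_lit 0xa) (nat_lit 4) (.split (nat_lit 0xa) (nat_lit 5) (.split (nat_lit 0xa) (nat_lit 6) (.split (nat_lit 0xa) (nat_lit 8) (.split (nat_lit 0xa) (nat_lit 9) (.sup (nat_lit 0x100040007000a0008) (nat_lit 0x500000005000a000a000600000000000000000000)) (.non (nat_lit 0) (nat_lit 5) (nat_lit 0x154000) (nat_lit 0x10001000100010000000000000000000000000000))) (.non (nat_lit 0) (nat_lit 5) (nat_lit 0x114000) (nat_lit 0x10000000100010000000000000000000000000000))) (.non (nat_lit 0) (nat_lit 5) (nat_lit 0x105000) (nat_lit 0x10000000000010001000000000000000000000000))) (.non (nat_lit 2) (nat_lit 7) (nat_lit 0x101500) (nat_lit 0x10000000000000002000200010000000000000000))) (.non (nat_lit 0) (nat_lit 5) (nat_lit 0x155154) (nat_lit 0x50002000400060003000000040003000200010000)))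 (.non (nat_lit 0) (nat_lit 5) (nat_lit 0x115150) (nat_lit 0x20000000100020001000000010002000100000000))) (.non (nat_lit 0) (nat_lit 5) (nat_lit 0x115054) (nat_lit 0x20000000100020001000000000001000200010000))) (.non (nat_lit 0) (nat_lit 5) (nat_lit 0x155154) (nat_lit 0x50002000400060003000000010002000300040000))) (.non (nat_lit 2) (nat_lit 5) (nat_lit 0x114005) (nat_lit 0x30000000100020000000000000000000000030004))))

noncomputable def t1537_2 : Tr := (.ex (nat_lit 5) (.ex (nat_lit 6) (.pd (.cons (nat_lit 2) (nat_lit 7) (nat_lit 0) (nat_lit 0x8805433000) (nat_lit 0xf423fb71ae00000f423f54591437a2174ea00000f423f54591) (.cons (nat_lit 3) (nat_lit 7) (nat_lit 0) (nat_lit 0x8805440100) (nat_lit 0xf423fb71ae00000f423f54591437a200000f423fb71ae1f156) (.cons (nat_lit 4) (nat_lit 7) (nat_lit 0) (nat_lit 0x8805502100) (nat_lit 0xf423fb71ae00000f423f5459100000f423fb71aea2c2804737) .nil))) t1537_1) (.split (nat_lit 0xa) (nat_lit 0) (.split (nat_lit 0xa) (nat_lit 1) (.split (nat_lit 0xa) (nat_lit 2) (.split (nat_lit 0xa)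 (nat_lit 3) (.split (nat_lit 0xa) (nat_lit 7) (.split (nat_lit 0xa) (nat_lit 8) (.split (nat_lit 0xa) (nat_lit 9) (.split (nat_lit 0xa) (nat_lit 4) (.split (nat_lit 0xa) (nat_lit 5) (.sup (nat_lit 0x5000000000005000a000600000000000000000000) (nat_lit 0x100040007000a0008)) (.sup (nat_lit 0x40000000000000005000400000000000000000000) (nat_lit 0x10002000300050004))) (.split (nat_lit 0xa) (nat_lit 5) (.split (nat_lit 0xa) (nat_lit 4) (.sup (nat_lit 0x20002000400050007000400000000000000000000) (nat_lit 0x3000d00160020001a)) (.non (nat_lit 0) (nat_lit 5) (nat_lit 0x20a140) (nat_lit 0x30000000000010002000000040002000000000000))) (.non (nat_lit 0) (nat_lit 6) (nat_lit 0x100500) (nat_lit 0x10000000000000000000100010000000000000000)))) (.non (nat_lit 0) (nat_lit 5) (nat_lit 0x155000) (nat_lit 0x10001000100010001000000000000000000000000))) (.non (nat_lit 0) (nat_lit 5) (nat_lit 0x115000) (nat_lit 0x10000000100010001000000000000000000000000))) (.non (nat_lit 0) (nat_lit 5) (nat_lit 0x105000) (nat_lit 0x10000000000010001000000000000000000000000)))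 (.non (nat_lit 0) (nat_lit 5) (nat_lit 0x155154) (nat_lit 0x50001000200030004000000030006000400020000))) (.non (nat_lit 0) (nat_lit 5) (nat_lit 0x155154) (nat_lit 0x50001000200030004000000020004000600030000))) (.star (nat_lit 0xa) (nat_lit 1) (nat_lit 6))) (.star (nat_lit 0xa) (nat_lit 0) (nat_lit 6)))) (.split (nat_lit 0xa) (nat_lit 0) (.split (nat_lit 0xa) (nat_lit 1) (.split (nat_lit 0xa) (nat_lit 2) (.split (nat_lit 0xa) (nat_lit 3) (.split (nat_lit 0xa) (nat_lit 4) (.split (nat_lit 0xa) (nat_lit 6) (.split (nat_lit 0xa) (nat_lit 7) (.split (nat_lit 0xa) (nat_lit 8) (.split (nat_lit 0xa) (nat_lit 9) (.sup (nat_lit 0x10001000200030004000300000000000000000000) (nat_lit 0x20006000b0010000d)) (.sup (nat_lit 0x10001000100010001000100000000000000000000) (nat_lit 0x10003000600080006))) (.split (nat_lit 0xa) (nat_lit 9) (.sup (nat_lit 0x10001000100010001000100000000000000000000) (nat_lit 0x20004000600080006)) (.non (nat_lit 0) (nat_lit 5) (nat_lit 0x150000) (nat_lit 0x10001000100000000000000000000000000000000))))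 (.split (nat_lit 0xa) (nat_lit 8) (.split (nat_lit 0xa) (nat_lit 9) (.sup (nat_lit 0x40000000000040005000300000000000000000000) (nat_lit 0x10002000300050004)) (.non (nat_lit 0) (nat_lit 5) (nat_lit 0x154000) (nat_lit 0x10001000100010000000000000000000000000000))) (.non (nat_lit 0) (nat_lit 5) (nat_lit 0x114000) (nat_lit 0x10000000100010000000000000000000000000000)))) (.split (nat_lit 0xa) (nat_lit 7) (.split (nat_lit 0xa) (nat_lit 8) (.split (nat_lit 0xa) (nat_lit 9) (.sup (nat_lit 0x40000000000000005000400000000000000000000) (nat_lit 0x10002000300050004)) (.non (nat_lit 0) (nat_lit 5) (nat_lit 0x155000) (nat_lit 0x10001000100010001000000000000000000000000))) (.non (nat_lit 0) (nat_lit 5) (nat_lit 0x115000) (nat_lit 0x10000000100010001000000000000000000000000))) (.non (nat_lit 0) (nat_lit 5) (nat_lit 0x105000) (nat_lit 0x10000000000010001000000000000000000000000)))) (.non (nat_lit 0) (nat_lit 6) (nat_lit 0x100500) (nat_lit 0x10000000000000000000100010000000000000000))) (.non (nat_lit 0) (nat_lit 6) (nat_lit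 0x100540) (nat_lit 0x10000000000000000000100010001000000000000))) (.non (nat_lit 0) (nat_lit 6) (nat_lit 0x100550) (nat_lit 0x10000000000000000000100010001000100000000))) (.star (nat_lit 0xa) (nat_lit 1) (nat_lit 5))) (.star (nat_lit 0xa) (nat_lit 0) (nat_lit 5))))

noncomputable def t1537_3 : Tr := (.ex (nat_lit 0xa) (.split (nat_lit 0xa) (nat_lit 4) (.pd (.cons (nat_lit 3) (nat_lit 7) (nat_lit 0) (nat_lit 0x48805440100) (nat_lit 0xf423ff423fb71ae00000f423f545910671100000f423fb71ae1f156) .nil) (.leaf (.cons (nat_lit 0x101540) (nat_lit 0x10000000000000002000200020001000000000000) (.cons (nat_lit 0x5500) (nat_lit 0x10002000200010000000000000000) .nil)) (.cons (nat_lit 0x10000111110) (nat_lit 0x1000001) (nat_lit 9) (nat_lit 0x20000103450) (.cons (nat_lit 0x10000111100) (nat_lit 0x1000010) (nat_lit 8) (nat_lit 0x20000103400) (.cons (nat_lit 0x10000111000) (nat_lit 0x1000100) (nat_lit 7) (nat_lit 0x30000201000) (.cons (nat_lit 0x10000110000) (nat_lit 0x1001000) (nat_lit 1) (nat_lit 0x20000010000) .nil)))))) (.non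 (nat_lit 0) (nat_lit 6) (nat_lit 0x200540) (nat_lit 0x10000000000000000000100020001000000000000))) (.split (nat_lit 0xb) (nat_lit 0) (.split (nat_lit 0xb) (nat_lit 1) (.split (nat_lit 0xb) (nat_lit 2) (.split (nat_lit 0xb) (nat_lit 3) (.split (nat_lit 0xb) (nat_lit 4) (.split (nat_lit 0xb) (nat_lit 5) (.split (nat_lit 0xb) (nat_lit 6) (.split (nat_lit 0xb) (nat_lit 7) (.split (nat_lit 0xb) (nat_lit 8) (.split (nat_lit 0xb) (nat_lit 9) (.st (nat_lit 0xa) (nat_lit 0) (nat_lit 6) (nat_lit 0x500540) (nat_lit 0x100020000000000000000000100020001000000000000) (nat_lit 1) (nat_lit 1) (.st (nat_lit 0xb) (nat_lit 0) (nat_lit 6) (nat_lit 0x500554) (nat_lit 0x200030000000000000000000200040003000200010000) (nat_lit 1) (nat_lit 1) (.split (nat_lit 0xb) (nat_lit 0xa) (.split (nat_lit 0xa) (nat_lit 4) (.leaf (.cons (nat_lit 0x501500) (nat_lit 0x100020000000000000003000400030000000000000000) .nil) (.cons (nat_lit 0x110000111110) (nat_lit 0x1000001) (nat_lit 0xd) (nat_lit 0x320000104560) (.cons (nat_lit 0x110000111100) (nat_lit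 0x1000010) (nat_lit 0xc) (nat_lit 0x540000102300) (.cons (nat_lit 0x110000111000) (nat_lit 0x1000100) (nat_lit 8) (nat_lit 0x430000201000) .nil)))) (.non (nat_lit 0) (nat_lit 5) (nat_lit 0xa00150) (nat_lit 0x100020000000000000000000000030002000100000000))) (.non (nat_lit 0) (nat_lit 6) (nat_lit 0x900540) (nat_lit 0x100020000000000000000000100020001000000000000))))) (.non (nat_lit 0) (nat_lit 6) (nat_lit 0x554550) (nat_lit 0x400050003000200010000000300060004000200000000))) (.non (nat_lit 0) (nat_lit 5) (nat_lit 0x555150) (nat_lit 0x500040003000600040002000000030002000100000000))) (.non (nat_lit 0) (nat_lit 5) (nat_lit 0x555150) (nat_lit 0x500040002000400060003000000030002000100000000))) (.non (nat_lit 4) (nat_lit 8) (nat_lit 0x405400) (nat_lit 0x100000000000000010002000200000000000000000000))) (.non (nat_lit 0) (nat_lit 6) (nat_lit 0x500500) (nat_lit 0x100010000000000000000000100010000000000000000))) (.non (nat_lit 0) (nat_lit 5) (nat_lit 0x500100) (nat_lit 0x100010000000000000000000000010000000000000000)))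 (.non (nat_lit 0) (nat_lit 5) (nat_lit 0x500140) (nat_lit 0x100010000000000000000000000010001000000000000))) (.non (nat_lit 0) (nat_lit 5) (nat_lit 0x500150) (nat_lit 0x100010000000000000000000000010001000100000000))) (.non (nat_lit 0) (nat_lit 5) (nat_lit 0x500154) (nat_lit 0x100010000000000000000000000010001000100010000))) (.non (nat_lit 2) (nat_lit 5) (nat_lit 0x500105) (nat_lit 0x300020000000000000000000000010000000000030004))))

noncomputable def t1537_4 : Tr := (.ex (nat_lit 7) (.pd (.cons (nat_lit 4) (nat_lit 8) (nat_lit 0) (nat_lit 0xa9065502100) (nat_lit 0xf423ff423f00000f423fb71ae1f15600000f423fb71aea2c2804737) .nil) (.ex (nat_lit 8) (.pd (.cons (nat_lit 4) (nat_lit 9) (nat_lit 0) (nat_lit 0xa0765502100) (nat_lit 0xf423f00000f423fb71aea2c280473700000f423fb71aea2c2804737) .nil) t1537_3) (.split (nat_lit 0xb) (nat_lit 0) (.split (nat_lit 0xb) (nat_lit 1) (.split (nat_lit 0xb) (nat_lit 2) (.split (nat_lit 0xb) (nat_lit 3) (.split (nat_lit 0xb) (nat_lit 4) (.split (nat_lit 0xb) (nat_lit 5) (.split (nat_lit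 0xb) (nat_lit 6) (.split (nat_lit 0xb) (nat_lit 7) (.split (nat_lit 0xb) (nat_lit 9) (.split (nat_lit 0xb) (nat_lit 0xa) (.sup (nat_lit 0x300000003000600060006000400000000000000000000) (nat_lit 0x10000000000000000000000020007000b0010000d)) (.non (nat_lit 0) (nat_lit 5) (nat_lit 0x555150) (nat_lit 0x500040003000600040002000000030002000100000000))) (.non (nat_lit 0) (nat_lit 5) (nat_lit 0x450000) (nat_lit 0x100000001000100000000000000000000000000000000))) (.non (nat_lit 0) (nat_lit 5) (nat_lit 0x414000) (nat_lit 0x100000000000100010000000000000000000000000000))) (.non (nat_lit 0) (nat_lit 5) (nat_lit 0x415000) (nat_lit 0x100000000000100010001000000000000000000000000))) (.non (nat_lit 0) (nat_lit 6) (nat_lit 0x554540) (nat_lit 0x200010001000200010000000200020001000000000000))) (.non (nat_lit 0) (nat_lit 5) (nat_lit 0x554140) (nat_lit 0x200010001000200010000000000020001000000000000))) (.non (nat_lit 0) (nat_lit 5) (nat_lit 0x454150) (nat_lit 0x200000001000200010000000000010002000100000000))) (.non (nat_lit 0) (nat_lit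 5) (nat_lit 0x555150) (nat_lit 0x500010003000600040002000000020003000400000000))) (.non (nat_lit 0) (nat_lit 5) (nat_lit 0x455154) (nat_lit 0x500000003000600040002000000010002000300040000))) (.non (nat_lit 2) (nat_lit 5) (nat_lit 0x450005) (nat_lit 0x300000001000200000000000000000000000000030004))))) (.split (nat_lit 0xb) (nat_lit 0) (.split (nat_lit 0xb) (nat_lit 1) (.split (nat_lit 0xb) (nat_lit 2) (.split (nat_lit 0xb) (nat_lit 3) (.split (nat_lit 0xb) (nat_lit 4) (.split (nat_lit 0xb) (nat_lit 5) (.split (nat_lit 0xb) (nat_lit 6) (.split (nat_lit 0xb) (nat_lit 8) (.split (nat_lit 0xb) (nat_lit 9) (.split (nat_lit 0xb) (nat_lit 0xa) (.sup (nat_lit 0x100040007000a0008) (nat_lit 0x5000000000005000a000a000600000000000000000000)) (.non (nat_lit 0) (nat_lit 5) (nat_lit 0x555150) (nat_lit 0x500040002000400060003000000030002000100000000))) (.non (nat_lit 0) (nat_lit 5) (nat_lit 0x454000) (nat_lit 0x100000001000100010000000000000000000000000000))) (.non (nat_lit 0) (nat_lit 5) (nat_lit 0x414000) (nat_lit 0x100000000000100010000000000000000000000000000)))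 (.non (nat_lit 0) (nat_lit 5) (nat_lit 0x405000) (nat_lit 0x100000000000000010001000000000000000000000000))) (.non (nat_lit 0) (nat_lit 6) (nat_lit 0x554550) (nat_lit 0x400030001000200030000000500060004000200000000))) (.non (nat_lit 0) (nat_lit 5) (nat_lit 0x515140) (nat_lit 0x200010000000100020001000000020001000000000000))) (.non (nat_lit 0) (nat_lit 5) (nat_lit 0x415150) (nat_lit 0x200000000000100020001000000010002000100000000))) (.non (nat_lit 0) (nat_lit 5) (nat_lit 0x555150) (nat_lit 0x500010002000400060003000000020003000400000000))) (.non (nat_lit 0) (nat_lit 5) (nat_lit 0x455154) (nat_lit 0x500000002000400060003000000010002000300040000))) (.non (nat_lit 2) (nat_lit 5) (nat_lit 0x414005) (nat_lit 0x300000000000100020000000000000000000000030004))))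

noncomputable def t1537_5 : Tr := (.ex (nat_lit 5) (.ex (nat_lit 6) (.pd (.cons (nat_lit 4) (nat_lit 7) (nat_lit 0) (nat_lit 0xa8805502100) (nat_lit 0xf423ff423fb71ae00000f423f5459100000f423fb71aea2c2804737) .nil) t1537_4) (.split (nat_lit 0xb) (nat_lit 0) (.split (nat_lit 0xb) (nat_lit 1) (.split (nat_lit 0xb) (nat_lit 2) (.split (nat_lit 0xb) (nat_lit 3) (.split (nat_lit 0xb) (nat_lit 4) (.split (nat_lit 0xb) (nat_lit 7) (.split (nat_lit 0xb) (nat_lit 8) (.split (nat_lit 0xb) (nat_lit 9) (.split (nat_lit 0xb) (nat_lit 5) (.split (nat_lit 0xb) (nat_lit 0xa) (.sup (nat_lit 0x50000000000000005000a000600000000000000000000) (nat_lit 0x100040007000a0008)) (.sup (nat_lit 0x50000000000000005000a000600000000000000000000) (nat_lit 0x100040007000a0008))) (.split (nat_lit 0xb) (nat_lit 0xa) (.sup (nat_lit 0x400000000000000000005000400000000000000000000) (nat_lit 0x10002000300050004)) (.non (nat_lit 0) (nat_lit 6) (nat_lit 0x500500) (nat_lit 0x100010000000000000000000100010000000000000000)))) (.non (nat_lit 0) (nat_lit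 5) (nat_lit 0x455000) (nat_lit 0x100000001000100010001000000000000000000000000))) (.non (nat_lit 0) (nat_lit 5) (nat_lit 0x415000) (nat_lit 0x100000000000100010001000000000000000000000000))) (.non (nat_lit 0) (nat_lit 5) (nat_lit 0x405000) (nat_lit 0x100000000000000010001000000000000000000000000))) (.non (nat_lit 0) (nat_lit 5) (nat_lit 0x555150) (nat_lit 0x500030001000200030004000000060004000200000000))) (.non (nat_lit 0) (nat_lit 5) (nat_lit 0x555150) (nat_lit 0x500020001000200030004000000040006000300000000))) (.non (nat_lit 0) (nat_lit 5) (nat_lit 0x505154) (nat_lit 0x300010000000000010002000000020003000400020000))) (.star (nat_lit 0xb) (nat_lit 1) (nat_lit 6))) (.star (nat_lit 0xb) (nat_lit 0) (nat_lit 6)))) (.split (nat_lit 0xb) (nat_lit 0) (.split (nat_lit 0xb) (nat_lit 1) (.split (nat_lit 0xb) (nat_lit 2) (.split (nat_lit 0xb) (nat_lit 3) (.split (nat_lit 0xb) (nat_lit 4) (.split (nat_lit 0xb) (nat_lit 7) (.split (nat_lit 0xb) (nat_lit 8) (.split (nat_lit 0xb) (nat_lit 9) (.split (nat_lit 0xb) (nat_lit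 0xa) (.split (nat_lit 0xb) (nat_lit 6) (.sup (nat_lit 0x200000001000200030005000400000000000000000000) (nat_lit 0x10000000000000000000000020007000b0010000d)) (.sup (nat_lit 0x400000000000000000005000400000000000000000000) (nat_lit 0x10002000300050004))) (.non (nat_lit 0) (nat_lit 6) (nat_lit 0x500500) (nat_lit 0x100010000000000000000000100010000000000000000))) (.non (nat_lit 0) (nat_lit 6) (nat_lit 0x554550) (nat_lit 0x400030003000200010000000500060004000200000000))) (.non (nat_lit 0) (nat_lit 6) (nat_lit 0x554540) (nat_lit 0x200010001000200010000000200020001000000000000))) (.non (nat_lit 0) (nat_lit 6) (nat_lit 0x554550) (nat_lit 0x400030001000200030000000500060004000200000000))) (.non (nat_lit 0) (nat_lit 6) (nat_lit 0x400500) (nat_lit 0x100000000000000000000000100010000000000000000))) (.non (nat_lit 0) (nat_lit 6) (nat_lit 0x400540) (nat_lit 0x100000000000000000000000100010001000000000000))) (.non (nat_lit 0) (nat_lit 6) (nat_lit 0x400550) (nat_lit 0x100000000000000000000000100010001000100000000))) (.star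 (nat_lit 0xb) (nat_lit 1) (nat_lit 5))) (.star (nat_lit 0xb) (nat_lit 0) (nat_lit 5))))

noncomputable def t1537_6 : Tr := (.ex (nat_lit 3) (.pd (.cons (nat_lit 4) (nat_lit 5) (nat_lit 0) (nat_lit 0x8766002100) (nat_lit 0xf423fb71aea2c28989650000000000f423fb71aea2c2804737) (.cons (nat_lit 4) (nat_lit 6) (nat_lit 0) (nat_lit 0x8770502100) (nat_lit 0xf423fb71aea2c2800000f423f00000f423fb71aea2c2804737) .nil)) (.ex (nat_lit 4) t1537_2 (.split (nat_lit 0xa) (nat_lit 0) (.split (nat_lit 0xa) (nat_lit 1) (.split (nat_lit 0xa) (nat_lit 2) (.split (nat_lit 0xa) (nat_lit 3) (.split (nat_lit 0xa) (nat_lit 5) (.split (nat_lit 0xa) (nat_lit 7) (.split (nat_lit 0xa) (nat_lit 8) (.split (nat_lit 0xa) (nat_lit 9) (.split (nat_lit 0xa) (nat_lit 6) (.st (nat_lit 4) (nat_lit 0) (nat_lit 6) (nat_lit 0x100540) (nat_lit 0x10000000000000000000100020001000000000000) (nat_lit 1) (nat_lit 1) t1537_5) (.split (nat_lit 0xa) (nat_lit 4) (.sup (nat_lit 0x20002000400050007000400000000000000000000) (nat_lit 0x3000d00160020001a)) (.non (nat_lit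 0) (nat_lit 5) (nat_lit 0x20a140) (nat_lit 0x30000000000010002000000040002000000000000)))) (.non (nat_lit 0) (nat_lit 6) (nat_lit 0x150554) (nat_lit 0x30002000100000000000200040003000200010000))) (.non (nat_lit 0) (nat_lit 5) (nat_lit 0x155154) (nat_lit 0x50003000600040002000000040003000200010000))) (.non (nat_lit 0) (nat_lit 5) (nat_lit 0x155154) (nat_lit 0x50002000400060003000000040003000200010000))) (.non (nat_lit 0) (nat_lit 6) (nat_lit 0x100500) (nat_lit 0x10000000000000000000100010000000000000000))) (.non (nat_lit 0) (nat_lit 5) (nat_lit 0x100140) (nat_lit 0x10000000000000000000000010001000000000000))) (.non (nat_lit 0) (nat_lit 5) (nat_lit 0x100150) (nat_lit 0x10000000000000000000000010001000100000000))) (.non (nat_lit 0) (nat_lit 5) (nat_lit 0x100154) (nat_lit 0x10000000000000000000000010001000100010000))) (.non (nat_lit 2) (nat_lit 5) (nat_lit 0x100145) (nat_lit 0x30000000000000000000000020001000000030004))))) (.split (nat_lit 0xa) (nat_lit 0) (.split (nat_lit 0xa) (nat_lit 1) (.split (nat_lit 0xa)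 (nat_lit 2) (.split (nat_lit 0xa) (nat_lit 4) (.split (nat_lit 0xa) (nat_lit 5) (.split (nat_lit 0xa) (nat_lit 6) (.split (nat_lit 0xa) (nat_lit 7) (.split (nat_lit 0xa) (nat_lit 8) (.split (nat_lit 0xa) (nat_lit 9) (.unj (nat_lit 0x100055) (nat_lit 0x10000000000000000000000000002000300040003) (nat_lit 0x55400) (nat_lit 0x1000200030004000300000000000000000000)) (.non (nat_lit 0) (nat_lit 5) (nat_lit 0x155154) (nat_lit 0x50004000300020001000000030006000400020000))) (.non (nat_lit 0) (nat_lit 5) (nat_lit 0x154150) (nat_lit 0x20001000200010000000000010002000100000000))) (.non (nat_lit 0) (nat_lit 5) (nat_lit 0x115150) (nat_lit 0x20000000100020001000000010002000100000000))) (.non (nat_lit 0) (nat_lit 5) (nat_lit 0x155154) (nat_lit 0x50001000200030004000000030006000400020000))) (.non (nat_lit 0) (nat_lit 6) (nat_lit 0x100540) (nat_lit 0x10000000000000000000100010001000000000000))) (.non (nat_lit 0) (nat_lit 5) (nat_lit 0x100140) (nat_lit 0x10000000000000000000000010001000000000000))) (.non (nat_lit 0) (nat_lit 5)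 (nat_lit 0x100050) (nat_lit 0x10000000000000000000000000001000100000000))) (.non (nat_lit 0) (nat_lit 5) (nat_lit 0x100054) (nat_lit 0x10000000000000000000000000001000100010000))) (.non (nat_lit 2) (nat_lit 5) (nat_lit 0x100145) (nat_lit 0x30000000000000000000000010002000000030004))))

noncomputable def t1537_7 : Tr := (.ex (nat_lit 7) (.pd (.cons (nat_lit 4) (nat_lit 8) (nat_lit 0) (nat_lit 0x9065502100) (nat_lit 0xf423f00000f423fb71ae1f15600000f423fb71aea2c2804737) .nil) (.ex (nat_lit 8) (.pd (.cons (nat_lit 4) (nat_lit 9) (nat_lit 0) (nat_lit 0x765502100) (nat_lit 0xf423fb71aea2c280473700000f423fb71aea2c2804737) .nil) (.leaf (.cons (nat_lit 0x1500) (nat_lit 0x1000100010000000000000000) .nil) (.cons (nat_lit 0x111000) (nat_lit 0x1000100) (nat_lit 6) (nat_lit 0x12000) .nil))) (.split (nat_lit 0xa) (nat_lit 0) (.split (nat_lit 0xa) (nat_lit 1) (.split (nat_lit 0xa) (nat_lit 2) (.split (nat_lit 0xa) (nat_lit 3) (.split (nat_lit 0xa) (nat_lit 4) (.split (nat_lit 0xa) (nat_lit 5) (.split (nat_lit 0xa) (nat_lit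 6) (.split (nat_lit 0xa) (nat_lit 7) (.split (nat_lit 0xa) (nat_lit 9) (.leaf (.cons (nat_lit 0x1500) (nat_lit 0x1000100010000000000000000) (.cons (nat_lit 0x115400) (nat_lit 0x10000000200030004000300000000000000000000) .nil)) (.cons (nat_lit 0x111000) (nat_lit 0x1000100) (nat_lit 6) (nat_lit 0x12000) .nil)) (.non (nat_lit 0) (nat_lit 5) (nat_lit 0x150000) (nat_lit 0x10001000100000000000000000000000000000000))) (.non (nat_lit 0) (nat_lit 5) (nat_lit 0x114000) (nat_lit 0x10000000100010000000000000000000000000000))) (.non (nat_lit 0) (nat_lit 5) (nat_lit 0x115000) (nat_lit 0x10000000100010001000000000000000000000000))) (.non (nat_lit 0) (nat_lit 6) (nat_lit 0x2a8900) (nat_lit 0x20001000200010000000200020000000000000000))) (.non (nat_lit 0) (nat_lit 5) (nat_lit 0x155154) (nat_lit 0x50003000600040002000000040003000200010000))) (.non (nat_lit 0) (nat_lit 5) (nat_lit 0x154150) (nat_lit 0x20001000200010000000000010002000100000000))) (.non (nat_lit 0) (nat_lit 5) (nat_lit 0x154054) (nat_lit 0x20001000200010000000000000001000200010000)))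 (.non (nat_lit 0) (nat_lit 5) (nat_lit 0x155154) (nat_lit 0x50003000600040002000000010002000300040000))) (.non (nat_lit 2) (nat_lit 5) (nat_lit 0x150005) (nat_lit 0x30001000200000000000000000000000000030004))))) (.split (nat_lit 0xa) (nat_lit 0) (.split (nat_lit 0xa) (nat_lit 1) (.split (nat_lit 0xa) (nat_lit 2) (.split (nat_lit 0xa) (nat_lit 3) (.split (nat_lit 0xa) (nat_lit 4) (.split (nat_lit 0xa) (nat_lit 5) (.split (nat_lit 0xa) (nat_lit 6) (.split (nat_lit 0xa) (nat_lit 8) (.split (nat_lit 0xa) (nat_lit 9) (.sup (nat_lit 0x20002000300050004000200000000000000000000) (nat_lit 0x20006000b0010000d)) (.non (nat_lit 0) (nat_lit 5) (nat_lit 0x154000) (nat_lit 0x10001000100010000000000000000000000000000))) (.non (nat_lit 0) (nat_lit 5) (nat_lit 0x114000) (nat_lit 0x10000000100010000000000000000000000000000))) (.non (nat_lit 0) (nat_lit 5) (nat_lit 0x105000) (nat_lit 0x10000000000010001000000000000000000000000))) (.non (nat_lit 0) (nat_lit 6) (nat_lit 0x208940) (nat_lit 0x20000000000010000000300040002000000000000)))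 (.non (nat_lit 0) (nat_lit 5) (nat_lit 0x155154) (nat_lit 0x50002000400060003000000040003000200010000))) (.non (nat_lit 0) (nat_lit 5) (nat_lit 0x115150) (nat_lit 0x20000000100020001000000010002000100000000))) (.non (nat_lit 0) (nat_lit 5) (nat_lit 0x115054) (nat_lit 0x20000000100020001000000000001000200010000))) (.non (nat_lit 0) (nat_lit 5) (nat_lit 0x155154) (nat_lit 0x50002000400060003000000010002000300040000))) (.non (nat_lit 2) (nat_lit 5) (nat_lit 0x114005) (nat_lit 0x30000000100020000000000000000000000030004))))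

noncomputable def t1537_8 : Tr := (.pd (.cons (nat_lit 2) (nat_lit 5) (nat_lit 0) (nat_lit 0x8766033000) (nat_lit 0xf423fb71aea2c289896500000f423fb71ae00000f423f54591) (.cons (nat_lit 2) (nat_lit 6) (nat_lit 0) (nat_lit 0x8770433000) (nat_lit 0xf423fb71aea2c2800000f423f7a11e7a11c00000f423f54591) .nil)) (.st (nat_lit 2) (nat_lit 0) (nat_lit 6) (nat_lit 0x954) (nat_lit 0x100020002000200010000) (nat_lit 1) (nat_lit 1) (.pd (.cons (nat_lit 3) (nat_lit 5) (nat_lit 0) (nat_lit 0x8766040100) (nat_lit 0xf423fb71aea2c289896500000f423f00000f423fb71ae1f156) (.cons (nat_lit 3) (nat_lit 6) (nat_lit 0) (nat_lit 0x8770440100) (nat_lit 0xf423fb71aea2c2800000f423f7a11e00000f423fb71ae1f156) .nil)) (.st (nat_lit 3) (nat_lit 0) (nat_lit 6) (nat_lit 0x950) (nat_lit 0x100020002000100000000) (nat_lit 1) (nat_lit 1) (.pd (.cons (nat_lit 4) (nat_lit 5) (nat_lit 0) (nat_lit 0x8766002100) (nat_lit 0xf423fb71aea2c28989650000000000f423fb71aea2c2804737) (.cons (nat_lit 4) (nat_lit 6) (nat_lit 0) (nat_lit 0x8770502100) (nat_lit 0xf423fb71aea2c2800000f423f00000f423fb71aea2c2804737)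 .nil)) (.st (nat_lit 5) (nat_lit 0) (nat_lit 6) (nat_lit 0x950) (nat_lit 0x200030002000100000000) (nat_lit 2) (nat_lit 1) (.st (nat_lit 4) (nat_lit 0) (nat_lit 6) (nat_lit 0x940) (nat_lit 0x100020001000000000000) (nat_lit 1) (nat_lit 1) (.ex (nat_lit 6) (.pd (.cons (nat_lit 4) (nat_lit 7) (nat_lit 0) (nat_lit 0x8805502100) (nat_lit 0xf423fb71ae00000f423f5459100000f423fb71aea2c2804737) .nil) t1537_7) (.split (nat_lit 0xa) (nat_lit 0) (.split (nat_lit 0xa) (nat_lit 1) (.split (nat_lit 0xa) (nat_lit 2) (.split (nat_lit 0xa) (nat_lit 3) (.split (nat_lit 0xa) (nat_lit 4) (.split (nat_lit 0xa) (nat_lit 5) (.split (nat_lit 0xa) (nat_lit 7) (.split (nat_lit 0xa) (nat_lit 8) (.split (nat_lit 0xa) (nat_lit 9) (.sup (nat_lit 0x20001000200030004000200000000000000000000) (nat_lit 0x20007000b0010000d)) (.non (nat_lit 0) (nat_lit 5) (nat_lit 0x155000) (nat_lit 0x10001000100010001000000000000000000000000))) (.non (nat_lit 0) (nat_lit 5) (nat_lit 0x115000) (nat_lit 0x10000000100010001000000000000000000000000))) (.non (nat_lit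 0) (nat_lit 5) (nat_lit 0x105000) (nat_lit 0x10000000000010001000000000000000000000000))) (.non (nat_lit 0) (nat_lit 6) (nat_lit 0x200950) (nat_lit 0x10000000000000000000200030002000100000000))) (.non (nat_lit 0) (nat_lit 6) (nat_lit 0x100940) (nat_lit 0x10000000000000000000100020001000000000000))) (.non (nat_lit 0) (nat_lit 5) (nat_lit 0x155154) (nat_lit 0x50001000200030004000000030006000400020000))) (.non (nat_lit 0) (nat_lit 5) (nat_lit 0x155154) (nat_lit 0x50001000200030004000000020004000600030000))) (.star (nat_lit 0xa) (nat_lit 1) (nat_lit 6))) (.star (nat_lit 0xa) (nat_lit 0) (nat_lit 6)))))))))))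

noncomputable def t1537_9 : Tr := (.pd (.cons (nat_lit 4) (nat_lit 5) (nat_lit 0) (nat_lit 0x8766002100) (nat_lit 0xf423f7a11e7a11c7a11a0000000000f423fb71aea2c2804737) (.cons (nat_lit 4) (nat_lit 6) (nat_lit 0) (nat_lit 0x8770502100) (nat_lit 0xf423f7a11e7a11c00000f423f00000f423fb71aea2c2804737) .nil)) (.st (nat_lit 5) (nat_lit 0) (nat_lit 6) (nat_lit 0x950) (nat_lit 0x200030002000100000000) (nat_lit 2) (nat_lit 1) (.st (nat_lit 7) (nat_lit 0) (nat_lit 5) (nat_lit 0x95000) (nat_lit 0x1000200020001000000000000000000000000) (nat_lit 1) (nat_lit 1) (.st (nat_lit 8) (nat_lit 0) (nat_lit 5) (nat_lit 0x94000) (nat_lit 0x1000200010000000000000000000000000000) (nat_lit 1) (nat_lit 1) (.st (nat_lit 4) (nat_lit 0) (nat_lit 6) (nat_lit 0x940) (nat_lit 0x100020001000000000000) (nat_lit 1) (nat_lit 1) (.ex (nat_lit 6) (.pd (.cons (nat_lit 4) (nat_lit 7) (nat_lit 0) (nat_lit 0x8805502100) (nat_lit 0xf423f7a11e00000f423f5459100000f423fb71aea2c2804737) (.cons (nat_lit 4) (nat_lit 8) (nat_lit 0) (nat_lit 0x9065502100) (nat_lit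 0xf423f00000f423fb71ae1f15600000f423fb71aea2c2804737) (.cons (nat_lit 4) (nat_lit 9) (nat_lit 0) (nat_lit 0x765502100) (nat_lit 0xf423fb71aea2c280473700000f423fb71aea2c2804737) .nil))) (.leaf (.cons (nat_lit 0x1500) (nat_lit 0x1000100010000000000000000) .nil) (.cons (nat_lit 0x111000) (nat_lit 0x1000100) (nat_lit 6) (nat_lit 0x12000) .nil))) (.split (nat_lit 0xa) (nat_lit 0) (.split (nat_lit 0xa) (nat_lit 1) (.split (nat_lit 0xa) (nat_lit 2) (.split (nat_lit 0xa) (nat_lit 3) (.split (nat_lit 0xa) (nat_lit 4) (.split (nat_lit 0xa) (nat_lit 5) (.split (nat_lit 0xa) (nat_lit 7) (.split (nat_lit 0xa) (nat_lit 8) (.split (nat_lit 0xa) (nat_lit 9) (.sup (nat_lit 0x10001000200020002000100000000000000000000) (nat_lit 0x10003000600080006)) (.non (nat_lit 0) (nat_lit 5) (nat_lit 0x155000) (nat_lit 0x10001000100010001000000000000000000000000))) (.non (nat_lit 0) (nat_lit 5) (nat_lit 0x194000) (nat_lit 0x10001000200010000000000000000000000000000))) (.non (nat_lit 0) (nat_lit 5) (nat_lit 0x105000) (nat_lit 0x10000000000010001000000000000000000000000)))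 (.non (nat_lit 0) (nat_lit 6) (nat_lit 0x200950) (nat_lit 0x10000000000000000000200030002000100000000))) (.non (nat_lit 0) (nat_lit 6) (nat_lit 0x100940) (nat_lit 0x10000000000000000000100020001000000000000))) (.non (nat_lit 0) (nat_lit 5) (nat_lit 0x195150) (nat_lit 0x20001000200020002000000010002000100000000))) (.non (nat_lit 0) (nat_lit 5) (nat_lit 0x195054) (nat_lit 0x20001000200020002000000000001000200010000))) (.star (nat_lit 0xa) (nat_lit 1) (nat_lit 6))) (.star (nat_lit 0xa) (nat_lit 0) (nat_lit 6)))))))))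

noncomputable def t1537_10 : Tr := (.split (nat_lit 9) (nat_lit 8) (.split (nat_lit 4) (nat_lit 3) (.split (nat_lit 5) (nat_lit 4) (.pd (.cons (nat_lit 2) (nat_lit 5) (nat_lit 0) (nat_lit 0x8766033000) (nat_lit 0xf423fb71aea2c289896500000f423fb71ae00000f423f54591) (.cons (nat_lit 2) (nat_lit 6) (nat_lit 0) (nat_lit 0x8770433000) (nat_lit 0xf423fb71aea2c2800000f423fb71aea2c2800000f423f54591) .nil)) (.ex (nat_lit 2) (.pd (.cons (nat_lit 3) (nat_lit 5) (nat_lit 0) (nat_lit 0x8766040100) (nat_lit 0xf423fb71aea2c289896500000f423f00000f423fb71ae1f156) (.cons (nat_lit 3) (nat_lit 6) (nat_lit 0) (nat_lit 0x8770440100) (nat_lit 0xf423fb71aea2c2800000f423fb71ae00000f423fb71ae1f156) .nil)) t1537_6) (.split (nat_lit 0xa) (nat_lit 1) (.split (nat_lit 0xa) (nat_lit 3) (.split (nat_lit 0xa) (nat_lit 4) (.split (nat_lit 0xa) (nat_lit 5) (.split (nat_lit 0xa) (nat_lit 6) (.split (nat_lit 0xa) (nat_lit 7) (.split (nat_lit 0xa) (nat_lit 8) (.split (nat_lit 0xa) (nat_lit 9) (.split (nat_lit 0xa) (nat_lit 0) (.unj (nat_lit 0x100055)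 (nat_lit 0x10000000000000000000000000001000200020002) (nat_lit 0x55400) (nat_lit 0x1000200030004000300000000000000000000)) (.unj (nat_lit 0x100015) (nat_lit 0x10000000000000000000000000000000100010001) (nat_lit 0x5500) (nat_lit 0x10002000200010000000000000000))) (.non (nat_lit 0) (nat_lit 5) (nat_lit 0x155154) (nat_lit 0x50004000300020001000000020004000600030000))) (.non (nat_lit 0) (nat_lit 5) (nat_lit 0x154054) (nat_lit 0x20001000200010000000000000001000200010000))) (.non (nat_lit 0) (nat_lit 5) (nat_lit 0x115054) (nat_lit 0x20000000100020001000000000001000200010000))) (.non (nat_lit 0) (nat_lit 5) (nat_lit 0x155154) (nat_lit 0x50001000200030004000000020004000600030000))) (.non (nat_lit 0) (nat_lit 6) (nat_lit 0x100550) (nat_lit 0x10000000000000000000100010001000100000000))) (.non (nat_lit 0) (nat_lit 5) (nat_lit 0x100150) (nat_lit 0x10000000000000000000000010001000100000000))) (.non (nat_lit 0) (nat_lit 5) (nat_lit 0x100050) (nat_lit 0x10000000000000000000000000001000100000000))) (.non (nat_lit 0) (nat_lit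 5) (nat_lit 0x100014) (nat_lit 0x10000000000000000000000000000000100010000))))) (.split (nat_lit 5) (nat_lit 4) t1537_8 (.non (nat_lit 0) (nat_lit 6) (nat_lit 0x554) (nat_lit 0x300040003000200010000)))) (.non (nat_lit 0) (nat_lit 6) (nat_lit 0xa54) (nat_lit 0x100020003000200010000))) (.split (nat_lit 9) (nat_lit 8) (.split (nat_lit 5) (nat_lit 4) (.sup (nat_lit 0x100040007000a0008) (nat_lit 0x7000a000a000a000600000000000000000000)) (.split (nat_lit 4) (nat_lit 3) (.split (nat_lit 5) (nat_lit 4) (.pd (.cons (nat_lit 2) (nat_lit 5) (nat_lit 0) (nat_lit 0x8766033000) (nat_lit 0xf423f7a11e7a11c7a11a00000f423fb71ae00000f423f54591) (.cons (nat_lit 2) (nat_lit 6) (nat_lit 0) (nat_lit 0x8770433000) (nat_lit 0xf423f7a11e7a11c00000f423f7a11e7a11c00000f423f54591) .nil)) (.st (nat_lit 2) (nat_lit 0) (nat_lit 6) (nat_lit 0x954) (nat_lit 0x100020002000200010000) (nat_lit 1) (nat_lit 1) (.pd (.cons (nat_lit 3) (nat_lit 5) (nat_lit 0) (nat_lit 0x8766040100) (nat_lit 0xf423f7a11e7a11c7a11a00000f423f00000f423fb71ae1f156) (.cons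 (nat_lit 3) (nat_lit 6) (nat_lit 0) (nat_lit 0x8770440100) (nat_lit 0xf423f7a11e7a11c00000f423f7a11e00000f423fb71ae1f156) .nil)) (.st (nat_lit 3) (nat_lit 0) (nat_lit 6) (nat_lit 0x950) (nat_lit 0x100020002000100000000) (nat_lit 1) (nat_lit 1) t1537_9)))) (.non (nat_lit 0) (nat_lit 6) (nat_lit 0x554) (nat_lit 0x300040003000200010000))) (.non (nat_lit 0) (nat_lit 6) (nat_lit 0x640) (nat_lit 0x100010001000000000000)))) (.sup (nat_lit 0x100040007000a0008) (nat_lit 0x8000a00070004000100000000000000000000))))

noncomputable def t1537_11 : Tr := (.split (nat_lit 0xa) (nat_lit 3) (.split (nat_lit 0xa) (nat_lit 4) (.split (nat_lit 0xa) (nat_lit 7) (.split (nat_lit 0xa) (nat_lit 8) (.split (nat_lit 0xa) (nat_lit 9) (.unj (nat_lit 0x100015) (nat_lit 0x10000000000000000000000000000000100020002) (nat_lit 0x5500) (nat_lit 0x10002000200010000000000000000)) (.unj (nat_lit 0x100015) (nat_lit 0x10000000000000000000000000000000100020002) (nat_lit 0x5500) (nat_lit 0x10002000200010000000000000000))) (.split (nat_lit 0xa) (nat_lit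 9) (.unj (nat_lit 0x100015) (nat_lit 0x10000000000000000000000000000000100020002) (nat_lit 0x5500) (nat_lit 0x10002000200010000000000000000)) (.non (nat_lit 0) (nat_lit 5) (nat_lit 0x150000) (nat_lit 0x10001000100000000000000000000000000000000)))) (.split (nat_lit 0xa) (nat_lit 8) (.split (nat_lit 0xa) (nat_lit 9) (.split (nat_lit 0xa) (nat_lit 0) (.split (nat_lit 0xa) (nat_lit 7) (.sup (nat_lit 0x200000000000000000000000000000005000a0009) (nat_lit 0x20009000a00050000000000000000)) (.non (nat_lit 0) (nat_lit 5) (nat_lit 0x215000) (nat_lit 0x10000000100020001000000000000000000000000))) (.non (nat_lit 1) (nat_lit 5) (nat_lit 0x22a001) (nat_lit 0x20000000100020001000000000000000000000002))) (.non (nat_lit 0) (nat_lit 5) (nat_lit 0x154000) (nat_lit 0x10001000100010000000000000000000000000000))) (.non (nat_lit 0) (nat_lit 5) (nat_lit 0x114000) (nat_lit 0x10000000100010000000000000000000000000000)))) (.split (nat_lit 0xa) (nat_lit 7) (.split (nat_lit 0xa) (nat_lit 8) (.split (nat_lit 0xa) (nat_lit 9) (.unj (nat_lit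 0x100015) (nat_lit 0x10000000000000000000000000000000100020002) (nat_lit 0x55400) (nat_lit 0x1000200030004000300000000000000000000)) (.non (nat_lit 0) (nat_lit 6) (nat_lit 0x150554) (nat_lit 0x30002000100000000000200040003000200010000))) (.non (nat_lit 0) (nat_lit 5) (nat_lit 0x155154) (nat_lit 0x50003000600040002000000040003000200010000))) (.non (nat_lit 0) (nat_lit 5) (nat_lit 0x155154) (nat_lit 0x50002000400060003000000040003000200010000)))) (.split (nat_lit 0xa) (nat_lit 4) (.split (nat_lit 0xa) (nat_lit 7) (.split (nat_lit 0xa) (nat_lit 8) (.split (nat_lit 0xa) (nat_lit 9) (.unj (nat_lit 0x100015) (nat_lit 0x10000000000000000000000000000000100020002) (nat_lit 0x5500) (nat_lit 0x10002000200010000000000000000)) (.non (nat_lit 0) (nat_lit 5) (nat_lit 0x155154) (nat_lit 0x50004000300020001000000030006000400020000))) (.non (nat_lit 0) (nat_lit 5) (nat_lit 0x154150) (nat_lit 0x20001000200010000000000010002000100000000))) (.non (nat_lit 0) (nat_lit 5) (nat_lit 0x115150) (nat_lit 0x20000000100020001000000010002000100000000)))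 (.non (nat_lit 0) (nat_lit 5) (nat_lit 0x100140) (nat_lit 0x10000000000000000000000010001000000000000))))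

noncomputable def t1537_12 : Tr := (.ex (nat_lit 0) (.ex (nat_lit 1) t1537_10 (.split (nat_lit 0xa) (nat_lit 2) (.split (nat_lit 0xa) (nat_lit 3) (.split (nat_lit 0xa) (nat_lit 4) (.split (nat_lit 0xa) (nat_lit 5) (.split (nat_lit 0xa) (nat_lit 6) (.split (nat_lit 0xa) (nat_lit 7) (.split (nat_lit 0xa) (nat_lit 8) (.split (nat_lit 0xa) (nat_lit 0) (.split (nat_lit 0xa) (nat_lit 9) (.unj (nat_lit 0x100015) (nat_lit 0x10000000000000000000000000000000100020002) (nat_lit 0x5500) (nat_lit 0x10002000200010000000000000000)) (.unj (nat_lit 0x100015) (nat_lit 0x10000000000000000000000000000000100020002) (nat_lit 0x5500) (nat_lit 0x10002000200010000000000000000))) (.split (nat_lit 0xa) (nat_lit 9) (.unj (nat_lit 0x100005) (nat_lit 0x10000000000000000000000000000000000010001) (nat_lit 0x5500) (nat_lit 0x10002000200010000000000000000)) (.unj (nat_lit 0x100005) (nat_lit 0x10000000000000000000000000000000000010001) (nat_lit 0x5500) (nat_lit 0x10002000200010000000000000000)))) (.non (nat_lit 0) (nat_lit 5) (nat_lit 0x155154)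 (nat_lit 0x50003000600040002000000010002000300040000))) (.non (nat_lit 0) (nat_lit 5) (nat_lit 0x155154) (nat_lit 0x50002000400060003000000010002000300040000))) (.star (nat_lit 0xa) (nat_lit 1) (nat_lit 6))) (.star (nat_lit 0xa) (nat_lit 1) (nat_lit 5))) (.non (nat_lit 0) (nat_lit 5) (nat_lit 0x100154) (nat_lit 0x10000000000000000000000010001000100010000))) (.non (nat_lit 0) (nat_lit 5) (nat_lit 0x100054) (nat_lit 0x10000000000000000000000000001000100010000))) (.non (nat_lit 0) (nat_lit 5) (nat_lit 0x100014) (nat_lit 0x10000000000000000000000000000000100010000)))) (.split (nat_lit 0xa) (nat_lit 5) (.split (nat_lit 0xa) (nat_lit 6) (.split (nat_lit 0xa) (nat_lit 1) (.split (nat_lit 0xa) (nat_lit 2) t1537_11 (.split (nat_lit 0xa) (nat_lit 3) (.split (nat_lit 0xa) (nat_lit 4) (.split (nat_lit 0xa) (nat_lit 7) (.split (nat_lit 0xa) (nat_lit 8) (.split (nat_lit 0xa) (nat_lit 9) (.unj (nat_lit 0x100015) (nat_lit 0x10000000000000000000000000000000100010001) (nat_lit 0x5500) (nat_lit 0x10002000200010000000000000000))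 (.non (nat_lit 0) (nat_lit 5) (nat_lit 0x155154) (nat_lit 0x50004000300020001000000020004000600030000))) (.non (nat_lit 0) (nat_lit 5) (nat_lit 0x154054) (nat_lit 0x20001000200010000000000000001000200010000))) (.non (nat_lit 0) (nat_lit 5) (nat_lit 0x115054) (nat_lit 0x20000000100020001000000000001000200010000))) (.non (nat_lit 0) (nat_lit 5) (nat_lit 0x100150) (nat_lit 0x10000000000000000000000010001000100000000))) (.non (nat_lit 0) (nat_lit 5) (nat_lit 0x100050) (nat_lit 0x10000000000000000000000000001000100000000)))) (.split (nat_lit 0xa) (nat_lit 2) (.split (nat_lit 0xa) (nat_lit 3) (.split (nat_lit 0xa) (nat_lit 4) (.split (nat_lit 0xa) (nat_lit 7) (.split (nat_lit 0xa) (nat_lit 8) (.split (nat_lit 0xa) (nat_lit 9) (.unj (nat_lit 0x100005) (nat_lit 0x10000000000000000000000000000000000010001) (nat_lit 0x5500) (nat_lit 0x10002000200010000000000000000)) (.unj (nat_lit 0x100005) (nat_lit 0x10000000000000000000000000000000000010001) (nat_lit 0x5500) (nat_lit 0x10002000200010000000000000000))) (.non (nat_lit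 0) (nat_lit 5) (nat_lit 0x155154) (nat_lit 0x50003000600040002000000010002000300040000))) (.non (nat_lit 0) (nat_lit 5) (nat_lit 0x155154) (nat_lit 0x50002000400060003000000010002000300040000))) (.non (nat_lit 0) (nat_lit 5) (nat_lit 0x100154) (nat_lit 0x10000000000000000000000010001000100010000))) (.non (nat_lit 0) (nat_lit 5) (nat_lit 0x100054) (nat_lit 0x10000000000000000000000000001000100010000))) (.non (nat_lit 0) (nat_lit 5) (nat_lit 0x100014) (nat_lit 0x10000000000000000000000000000000100010000)))) (.star (nat_lit 0xa) (nat_lit 0) (nat_lit 6))) (.star (nat_lit 0xa) (nat_lit 0) (nat_lit 5))))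

noncomputable def t1537_13 : Tr := (.ex (nat_lit 0xa) (.split (nat_lit 0xa) (nat_lit 7) (.pd (.cons (nat_lit 3) (nat_lit 8) (nat_lit 0) (nat_lit 0x79065540100) (nat_lit 0xf423ff423f00000b71aea2c2804737f423f00000f423fb71ae1f156) .nil) (.leaf (.cons (nat_lit 0x1550) (nat_lit 0x2000200010002000100000000) (.cons (nat_lit 0x5440) (nat_lit 0x10002000200000001000000000000) (.cons (nat_lit 0x115400) (nat_lit 0x10000000100020002000200000000000000000000) (.cons (nat_lit 0x455) (nat_lit 0x100000002000300040003) .nil)))) (.cons (nat_lit 0x111110) (nat_lit 0x1000001) (nat_lit 8) (nat_lit 0x210340) (.cons (nat_lit 0x111100) (nat_lit 0x1000010) (nat_lit 7) (nat_lit 0x320100) .nil)))) (.non (nat_lit 0) (nat_lit 5) (nat_lit 0x215000) (nat_lit 0x10000000100020001000000000000000000000000))) (.split (nat_lit 0xb) (nat_lit 0) (.split (nat_lit 0xb) (nat_lit 1) (.split (nat_lit 0xb) (nat_lit 2) (.split (nat_lit 0xb) (nat_lit 3) (.split (nat_lit 0xb) (nat_lit 4) (.split (nat_lit 0xb) (nat_lit 5) (.split (nat_lit 0xb) (nat_lit 6)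 (.split (nat_lit 0xb) (nat_lit 7) (.split (nat_lit 0xb) (nat_lit 8) (.split (nat_lit 0xb) (nat_lit 9) (.leaf (.cons (nat_lit 0x1550) (nat_lit 0x2000200010002000100000000) (.cons (nat_lit 0x505400) (nat_lit 0x100020000000000030004000300000000000000000000) (.cons (nat_lit 0x455) (nat_lit 0x100000002000300040003) .nil))) (.cons (nat_lit 0x111110) (nat_lit 0x1000001) (nat_lit 8) (nat_lit 0x210340) (.cons (nat_lit 0x111100) (nat_lit 0x1000010) (nat_lit 7) (nat_lit 0x320100) .nil))) (.non (nat_lit 0) (nat_lit 5) (nat_lit 0x554000) (nat_lit 0x100010001000100010000000000000000000000000000))) (.non (nat_lit 0) (nat_lit 5) (nat_lit 0x514000) (nat_lit 0x100010000000100010000000000000000000000000000))) (.non (nat_lit 0) (nat_lit 5) (nat_lit 0x504000) (nat_lit 0x100010000000000010000000000000000000000000000))) (.non (nat_lit 0) (nat_lit 5) (nat_lit 0x505000) (nat_lit 0x100010000000000010001000000000000000000000000))) (.non (nat_lit 0) (nat_lit 6) (nat_lit 0x514554) (nat_lit 0x400030000000100020000000500030006000400020000)))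 (.non (nat_lit 0) (nat_lit 5) (nat_lit 0x555150) (nat_lit 0x400050002000400060003000000030002000100000000))) (.non (nat_lit 0) (nat_lit 5) (nat_lit 0x515150) (nat_lit 0x200020000000100020001000000010002000100000000))) (.non (nat_lit 0) (nat_lit 5) (nat_lit 0x555150) (nat_lit 0x400050002000400060003000000010002000300000000))) (.non (nat_lit 0) (nat_lit 5) (nat_lit 0x555054) (nat_lit 0x400050002000400060003000000000001000200030000))) (.non (nat_lit 2) (nat_lit 5) (nat_lit 0x504005) (nat_lit 0x300020000000000010000000000000000000000030004))))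

noncomputable def t1537_14 : Tr := (.ex (nat_lit 7) (.pd (.cons (nat_lit 3) (nat_lit 8) (nat_lit 0) (nat_lit 0x9065540100) (nat_lit 0xf423f00000f423fb71ae1f156f423f00000f423fb71ae1f156) .nil) (.ex (nat_lit 8) (.pd (.cons (nat_lit 3) (nat_lit 9) (nat_lit 0) (nat_lit 0x765540100) (nat_lit 0xf423fb71aea2c2804737f423f00000f423fb71ae1f156) .nil) (.leaf (.cons (nat_lit 0x1550) (nat_lit 0x2000200010002000100000000) (.cons (nat_lit 0x5440) (nat_lit 0x10002000200000001000000000000) (.cons (nat_lit 0x455) (nat_lit 0x100000002000300040003) .nil))) (.cons (nat_lit 0x111110) (nat_lit 0x1000001) (nat_lit 8) (nat_lit 0x210340) (.cons (nat_lit 0x111100) (nat_lit 0x1000010) (nat_lit 7) (nat_lit 0x320100) .nil)))) (.split (nat_lit 0xa) (nat_lit 0) (.split (nat_lit 0xa) (nat_lit 1) (.split (nat_lit 0xa) (nat_lit 2) (.split (nat_lit 0xa) (nat_lit 3) (.split (nat_lit 0xa) (nat_lit 4) (.split (nat_lit 0xa) (nat_lit 5) (.split (nat_lit 0xa) (nat_lit 6) (.split (nat_lit 0xa) (nat_lit 7) (.split (nat_lit 0xa) (nat_lit 9) (.leaf (.cons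 (nat_lit 0x1550) (nat_lit 0x2000200010002000100000000) (.cons (nat_lit 0x5440) (nat_lit 0x10002000200000001000000000000) (.cons (nat_lit 0x115400) (nat_lit 0x10000000200030004000300000000000000000000) (.cons (nat_lit 0x455) (nat_lit 0x100000002000300040003) .nil)))) (.cons (nat_lit 0x111110) (nat_lit 0x1000001) (nat_lit 8) (nat_lit 0x210340) (.cons (nat_lit 0x111100) (nat_lit 0x1000010) (nat_lit 7) (nat_lit 0x320100) .nil))) (.non (nat_lit 0) (nat_lit 5) (nat_lit 0x150000) (nat_lit 0x10001000100000000000000000000000000000000))) (.non (nat_lit 0) (nat_lit 5) (nat_lit 0x114000) (nat_lit 0x10000000100010000000000000000000000000000))) (.non (nat_lit 0) (nat_lit 5) (nat_lit 0x115000) (nat_lit 0x10000000100010001000000000000000000000000))) (.non (nat_lit 0) (nat_lit 6) (nat_lit 0x154550) (nat_lit 0x20001000200010000000200010002000100000000))) (.non (nat_lit 0) (nat_lit 5) (nat_lit 0x155154) (nat_lit 0x50003000600040002000000040003000200010000))) (.non (nat_lit 0) (nat_lit 5) (nat_lit 0x154150) (nat_lit 0x20001000200010000000000010002000100000000)))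 (.non (nat_lit 0) (nat_lit 5) (nat_lit 0x154054) (nat_lit 0x20001000200010000000000000001000200010000))) (.non (nat_lit 0) (nat_lit 5) (nat_lit 0x155154) (nat_lit 0x50003000600040002000000010002000300040000))) (.non (nat_lit 2) (nat_lit 5) (nat_lit 0x150005) (nat_lit 0x30001000200000000000000000000000000030004))))) (.split (nat_lit 0xa) (nat_lit 0) (.split (nat_lit 0xa) (nat_lit 1) (.split (nat_lit 0xa) (nat_lit 2) (.split (nat_lit 0xa) (nat_lit 3) (.split (nat_lit 0xa) (nat_lit 4) (.split (nat_lit 0xa) (nat_lit 5) (.split (nat_lit 0xa) (nat_lit 6) (.split (nat_lit 0xa) (nat_lit 8) (.split (nat_lit 0xa) (nat_lit 9) (.st (nat_lit 7) (nat_lit 0) (nat_lit 5) (nat_lit 0x115000) (nat_lit 0x10000000100020001000000000000000000000000) (nat_lit 1) (nat_lit 1) t1537_13) (.non (nat_lit 0) (nat_lit 5) (nat_lit 0x154000) (nat_lit 0x10001000100010000000000000000000000000000))) (.non (nat_lit 0) (nat_lit 5) (nat_lit 0x114000) (nat_lit 0x10000000100010000000000000000000000000000))) (.non (nat_lit 0) (nat_lit 5) (nat_lit 0x105000)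 (nat_lit 0x10000000000010001000000000000000000000000))) (.non (nat_lit 0) (nat_lit 6) (nat_lit 0x154554) (nat_lit 0x40001000200030000000500030006000400020000))) (.non (nat_lit 0) (nat_lit 5) (nat_lit 0x155154) (nat_lit 0x50002000400060003000000040003000200010000))) (.non (nat_lit 0) (nat_lit 5) (nat_lit 0x115150) (nat_lit 0x20000000100020001000000010002000100000000))) (.non (nat_lit 0) (nat_lit 5) (nat_lit 0x115054) (nat_lit 0x20000000100020001000000000001000200010000))) (.non (nat_lit 0) (nat_lit 5) (nat_lit 0x155154) (nat_lit 0x50002000400060003000000010002000300040000))) (.non (nat_lit 2) (nat_lit 5) (nat_lit 0x114005) (nat_lit 0x30000000100020000000000000000000000030004))))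

noncomputable def t1537_15 : Tr := (.split (nat_lit 0xc) (nat_lit 6) (.split (nat_lit 0xc) (nat_lit 7) (.split (nat_lit 0xc) (nat_lit 8) (.split (nat_lit 0xc) (nat_lit 9) (.split (nat_lit 0xc) (nat_lit 0xa) (.split (nat_lit 0xc) (nat_lit 4) (.split (nat_lit 0xc) (nat_lit 5) (.leaf (.cons (nat_lit 0x1501400) (nat_lit 0x1000200030000000000000004000300000000000000000000) (.cons (nat_lit 0x455) (nat_lit 0x100000002000300040003) .nil)) (.cons (nat_lit 0x111110) (nat_lit 0x1000001) (nat_lit 8) (nat_lit 0x210340) (.cons (nat_lit 0x111100) (nat_lit 0x1000010) (nat_lit 7) (nat_lit 0x320100) .nil))) (.sup (nat_lit 0x2000300040001000200030004000100000000000000000000) (nat_lit 0x30007000b0010000d))) (.split (nat_lit 0xc) (nat_lit 5) (.st (nat_lit 7) (nat_lit 0) (nat_lit 5) (nat_lit 0x1555100) (nat_lit 0x2000300040002000400060005000000010000000000000000) (nat_lit 1) (nat_lit 3) (.st (nat_lit 0xb) (nat_lit 0) (nat_lit 5) (nat_lit 0x1555100) (nat_lit 0x4000600050001000200030004000000020000000000000000) (nat_lit 1) (nat_lit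 3) (.st (nat_lit 0xc) (nat_lit 0) (nat_lit 5) (nat_lit 0x1515140) (nat_lit 0x6000500040000000100020003000000040002000000000000) (nat_lit 1) (nat_lit 3) (.split (nat_lit 0xc) (nat_lit 4) (.split (nat_lit 0xc) (nat_lit 0xb) (.split (nat_lit 0xb) (nat_lit 0xa) (.leaf (.cons (nat_lit 0x1501400) (nat_lit 0x1000200030000000000000004000300000000000000000000) (.cons (nat_lit 0x455) (nat_lit 0x100000002000300040003) .nil)) (.cons (nat_lit 0x1110000111110) (nat_lit 0x1000001) (nat_lit 0xe) (nat_lit 0x5670000140230) (.cons (nat_lit 0x1110000111000) (nat_lit 0x1000100) (nat_lit 4) (nat_lit 0x3450000021000) .nil))) (.non (nat_lit 0) (nat_lit 5) (nat_lit 0x2905000) (nat_lit 0x1000200030000000000010002000000000000000000000000))) (.non (nat_lit 0) (nat_lit 5) (nat_lit 0x1a02100) (nat_lit 0x4000300020000000000000001000000020000000000000000))) (.non (nat_lit 0) (nat_lit 5) (nat_lit 0x2a00140) (nat_lit 0x3000200010000000000000000000000040002000000000000)))))) (.non (nat_lit 0) (nat_lit 6) (nat_lit 0x1000540) (nat_lit 0x1000000000000000000000000000100010001000000000000))))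 (.non (nat_lit 0) (nat_lit 5) (nat_lit 0x1500000) (nat_lit 0x1000100010000000000000000000000000000000000000000))) (.non (nat_lit 0) (nat_lit 5) (nat_lit 0x1555000) (nat_lit 0x1000100010001000100010001000000000000000000000000))) (.non (nat_lit 0) (nat_lit 5) (nat_lit 0x1515000) (nat_lit 0x1000100010000000100010001000000000000000000000000))) (.non (nat_lit 0) (nat_lit 5) (nat_lit 0x1505000) (nat_lit 0x1000100010000000000010001000000000000000000000000))) (.non (nat_lit 0) (nat_lit 5) (nat_lit 0x1501000) (nat_lit 0x1000100010000000000000001000000000000000000000000)))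

noncomputable def t1537_16 : Tr := (.ex (nat_lit 0xa) (.ex (nat_lit 0xb) (.split (nat_lit 0xa) (nat_lit 6) (.split (nat_lit 0xb) (nat_lit 0xa) (.pd (.cons (nat_lit 3) (nat_lit 7) (nat_lit 0) (nat_lit 0xa68805540100) (nat_lit 0xf423fb71aef423fb71ae00000a2c2804737f423f00000f423fb71ae1f156) .nil) (.leaf (.cons (nat_lit 0x101440) (nat_lit 0x10000000000000002000200000001000000000000) (.cons (nat_lit 0x105400) (nat_lit 0x10000000000010002000200000000000000000000) (.cons (nat_lit 0x455) (nat_lit 0x100000002000300040003) .nil))) (.cons (nat_lit 0x111110) (nat_lit 0x1000001) (nat_lit 8) (nat_lit 0x210340) (.cons (nat_lit 0x111100) (nat_lit 0x1000010) (nat_lit 7) (nat_lit 0x320100) .nil)))) (.sup (nat_lit 0x400050001000300040005000100000000000000000000) (nat_lit 0x30007000b0010000d))) (.non (nat_lit 0) (nat_lit 5) (nat_lit 0xa15000) (nat_lit 0x100020000000100020003000000000000000000000000))) (.split (nat_lit 0xc) (nat_lit 0) (.split (nat_lit 0xc) (nat_lit 1) (.split (nat_lit 0xc) (nat_lit 2) (.split (nat_lit 0xc) (nat_lit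 3) t1537_15 (.non (nat_lit 0) (nat_lit 5) (nat_lit 0x1505154) (nat_lit 0x5000400030000000000010002000000030006000400020000))) (.non (nat_lit 0) (nat_lit 5) (nat_lit 0x1505154) (nat_lit 0x5000400030000000000010002000000020004000600030000))) (.non (nat_lit 2) (nat_lit 5) (nat_lit 0x1500005) (nat_lit 0x3000200010000000000000000000000000000000000040003))) (.non (nat_lit 2) (nat_lit 5) (nat_lit 0x1500005) (nat_lit 0x3000200010000000000000000000000000000000000030004)))) (.split (nat_lit 0xc) (nat_lit 0) (.split (nat_lit 0xc) (nat_lit 1) (.split (nat_lit 0xc) (nat_lit 2) (.split (nat_lit 0xc) (nat_lit 3) (.split (nat_lit 0xc) (nat_lit 4) (.split (nat_lit 0xc) (nat_lit 6) (.split (nat_lit 0xc) (nat_lit 7) (.split (nat_lit 0xc) (nat_lit 8) (.split (nat_lit 0xc) (nat_lit 9) (.split (nat_lit 0xc) (nat_lit 0xb) (.split (nat_lit 0xc) (nat_lit 5) (.sup (nat_lit 0x3000300050001000300040005000100000000000000000000) (nat_lit 0x30007000b0010000d)) (.sup (nat_lit 0x2000200040001000200030004000100000000000000000000) (nat_lit 0x40007000c0010000d)))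 (.non (nat_lit 0) (nat_lit 5) (nat_lit 0x1500000) (nat_lit 0x1000100010000000000000000000000000000000000000000))) (.non (nat_lit 0) (nat_lit 5) (nat_lit 0x1155000) (nat_lit 0x1000000010001000100010001000000000000000000000000))) (.non (nat_lit 0) (nat_lit 5) (nat_lit 0x1115000) (nat_lit 0x1000000010000000100010001000000000000000000000000))) (.non (nat_lit 0) (nat_lit 5) (nat_lit 0x1105000) (nat_lit 0x1000000010000000000010001000000000000000000000000))) (.non (nat_lit 0) (nat_lit 5) (nat_lit 0x1101000) (nat_lit 0x1000000010000000000000001000000000000000000000000))) (.non (nat_lit 0) (nat_lit 5) (nat_lit 0x1515140) (nat_lit 0x3000200040000000100020003000000020001000000000000))) (.non (nat_lit 0) (nat_lit 5) (nat_lit 0x1515140) (nat_lit 0x3000200040000000100020003000000010002000000000000))) (.non (nat_lit 0) (nat_lit 5) (nat_lit 0x1515050) (nat_lit 0x3000200040000000100020003000000000001000200000000))) (.non (nat_lit 0) (nat_lit 5) (nat_lit 0x1515014) (nat_lit 0x3000200040000000100020003000000000000000100020000)))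 (.non (nat_lit 2) (nat_lit 5) (nat_lit 0x1500005) (nat_lit 0x3000100020000000000000000000000000000000000030004))))

noncomputable def t1537_17 : Tr := (.split (nat_lit 0xb) (nat_lit 0) (.split (nat_lit 0xb) (nat_lit 1) (.split (nat_lit 0xb) (nat_lit 2) (.split (nat_lit 0xb) (nat_lit 3) (.split (nat_lit 0xb) (nat_lit 6) (.split (nat_lit 0xb) (nat_lit 7) (.split (nat_lit 0xb) (nat_lit 8) (.split (nat_lit 0xb) (nat_lit 9) (.split (nat_lit 0xb) (nat_lit 4) (.split (nat_lit 0xb) (nat_lit 5) t1537_16 (.sup (nat_lit 0x200030001000200030004000100000000000000000000) (nat_lit 0x30007000b0010000d))) (.split (nat_lit 0xb) (nat_lit 5) (.st (nat_lit 7) (nat_lit 0) (nat_lit 5) (nat_lit 0x555140) (nat_lit 0x300040002000400060005000000020001000000000000) (nat_lit 1) (nat_lit 3) (.st (nat_lit 0xa) (nat_lit 0) (nat_lit 5) (nat_lit 0x515140) (nat_lit 0x300040000000100020003000000020001000000000000) (nat_lit 1) (nat_lit 2) (.st (nat_lit 0xb) (nat_lit 0) (nat_lit 5) (nat_lit 0x555140) (nat_lit 0x600050001000200030004000000040002000000000000)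 (nat_lit 1) (nat_lit 3) (.split (nat_lit 0xb) (nat_lit 4) (.split (nat_lit 0xb) (nat_lit 0xa) (.leaf (.cons (nat_lit 0x501500) (nat_lit 0x200030000000000000004000300010000000000000000) (.cons (nat_lit 0x455) (nat_lit 0x100000002000300040003) .nil)) (.cons (nat_lit 0x110000111110) (nat_lit 0x1000001) (nat_lit 0xd) (nat_lit 0x560000140230) (.cons (nat_lit 0x110000111100) (nat_lit 0x1000010) (nat_lit 9) (nat_lit 0x450000230100) .nil))) (.non (nat_lit 0) (nat_lit 5) (nat_lit 0x60a100) (nat_lit 0x400030000000000010002000000020000000000000000))) (.non (nat_lit 0) (nat_lit 5) (nat_lit 0xa02140) (nat_lit 0x300020000000000000001000000040002000000000000)))))) (.non (nat_lit 0) (nat_lit 6) (nat_lit 0x400540) (nat_lit 0x100000000000000000000000100010001000000000000)))) (.non (nat_lit 0) (nat_lit 5) (nat_lit 0x555000) (nat_lit 0x100010001000100010001000000000000000000000000))) (.non (nat_lit 0) (nat_lit 5) (nat_lit 0x515000) (nat_lit 0x100010000000100010001000000000000000000000000))) (.non (nat_lit 0) (nat_lit 5) (nat_lit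 0x505000) (nat_lit 0x100010000000000010001000000000000000000000000))) (.non (nat_lit 0) (nat_lit 5) (nat_lit 0x501000) (nat_lit 0x100010000000000000001000000000000000000000000))) (.non (nat_lit 0) (nat_lit 5) (nat_lit 0x515154) (nat_lit 0x500040000000100020003000000030006000400020000))) (.non (nat_lit 0) (nat_lit 5) (nat_lit 0x515154) (nat_lit 0x500040000000100020003000000020004000600030000))) (.non (nat_lit 2) (nat_lit 5) (nat_lit 0x501005) (nat_lit 0x300020000000000000001000000000000000000040003))) (.non (nat_lit 2) (nat_lit 5) (nat_lit 0x501005) (nat_lit 0x300020000000000000001000000000000000000030004)))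

noncomputable def t1537_18 : Tr := (.split (nat_lit 0xa) (nat_lit 4) (.split (nat_lit 0xa) (nat_lit 5) (.ex (nat_lit 6) (.ex (nat_lit 0xa) (.split (nat_lit 0xa) (nat_lit 6) (.pd (.cons (nat_lit 3) (nat_lit 7) (nat_lit 0) (nat_lit 0x68805540100) (nat_lit 0xf423ff423fb71ae00000b71ae1f156f423f00000f423fb71ae1f156) .nil) (.leaf (.cons (nat_lit 0x101440) (nat_lit 0x10000000000000002000200000001000000000000) (.cons (nat_lit 0x105400) (nat_lit 0x10000000000010002000200000000000000000000) (.cons (nat_lit 0x455) (nat_lit 0x100000002000300040003) .nil))) (.cons (nat_lit 0x111110) (nat_lit 0x1000001) (nat_lit 8) (nat_lit 0x210340) (.cons (nat_lit 0x111100) (nat_lit 0x1000010) (nat_lit 7) (nat_lit 0x320100) .nil)))) (.sup (nat_lit 0x40001000300040005000100000000000000000000) (nat_lit 0x30007000b0010000d))) t1537_17) (.split (nat_lit 0xb) (nat_lit 0) (.split (nat_lit 0xb) (nat_lit 1) (.split (nat_lit 0xb) (nat_lit 2) (.split (nat_lit 0xb) (nat_lit 3) (.split (nat_lit 0xb) (nat_lit 4) (.split (nat_lit 0xb) (nat_lit 7) (.split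 (nat_lit 0xb) (nat_lit 8) (.split (nat_lit 0xb) (nat_lit 9) (.split (nat_lit 0xb) (nat_lit 0xa) (.split (nat_lit 0xb) (nat_lit 5) (.sup (nat_lit 0x300030001000300040005000100000000000000000000) (nat_lit 0x30007000b0010000d)) (.sup (nat_lit 0x200020001000200030004000100000000000000000000) (nat_lit 0x40007000c0010000d))) (.non (nat_lit 0) (nat_lit 5) (nat_lit 0x501000) (nat_lit 0x100010000000000000001000000000000000000000000))) (.non (nat_lit 0) (nat_lit 5) (nat_lit 0x455000) (nat_lit 0x100000001000100010001000000000000000000000000))) (.non (nat_lit 0) (nat_lit 5) (nat_lit 0x415000) (nat_lit 0x100000000000100010001000000000000000000000000))) (.non (nat_lit 0) (nat_lit 5) (nat_lit 0x405000) (nat_lit 0x100000000000000010001000000000000000000000000))) (.non (nat_lit 0) (nat_lit 5) (nat_lit 0x555140) (nat_lit 0x300020001000200030004000000020001000000000000))) (.non (nat_lit 0) (nat_lit 5) (nat_lit 0x555140) (nat_lit 0x300020001000200030004000000010002000000000000))) (.non (nat_lit 0) (nat_lit 5) (nat_lit 0x555050)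 (nat_lit 0x300020001000200030004000000000001000200000000))) (.star (nat_lit 0xb) (nat_lit 1) (nat_lit 6))) (.star (nat_lit 0xb) (nat_lit 0) (nat_lit 6)))) (.sup (nat_lit 0x60002000400060008000300000000000000000000) (nat_lit 0x6000d00160020001a))) (.split (nat_lit 0xa) (nat_lit 5) (.st (nat_lit 6) (nat_lit 0) (nat_lit 5) (nat_lit 0x155140) (nat_lit 0x30001000200030004000000020001000000000000) (nat_lit 1) (nat_lit 2) (.st (nat_lit 0xa) (nat_lit 0) (nat_lit 5) (nat_lit 0x115150) (nat_lit 0x40000000100020003000000030002000100000000) (nat_lit 1) (nat_lit 2) (.split (nat_lit 0xa) (nat_lit 4) (.split (nat_lit 0xa) (nat_lit 6) (.pd (.cons (nat_lit 3) (nat_lit 7) (nat_lit 0) (nat_lit 0x4880a640100) (nat_lit 0x437a2f423fb71ae0000054591f423f174ea00000f423fb71ae1f156) .nil) (.leaf (.cons (nat_lit 0x101440) (nat_lit 0x10000000000000002000200000001000000000000) (.cons (nat_lit 0x105400) (nat_lit 0x10000000000010002000200000000000000000000) (.cons (nat_lit 0x455) (nat_lit 0x100000002000300040003) .nil))) (.cons (nat_lit 0x10000111110)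 (nat_lit 0x1000001) (nat_lit 0xc) (nat_lit 0x50000140230) .nil))) (.non (nat_lit 0) (nat_lit 5) (nat_lit 0x12a100) (nat_lit 0x40000000100020003000000020000000000000000))) (.non (nat_lit 0) (nat_lit 5) (nat_lit 0x20a140) (nat_lit 0x30000000000010002000000040002000000000000))))) (.non (nat_lit 0) (nat_lit 6) (nat_lit 0x100540) (nat_lit 0x10000000000000000000100010001000000000000))))

noncomputable def t1537_19 : Tr := (.split (nat_lit 0xc) (nat_lit 1) (.split (nat_lit 0xc) (nat_lit 2) (.split (nat_lit 0xc) (nat_lit 3) (.split (nat_lit 0xc) (nat_lit 4) (.split (nat_lit 0xc) (nat_lit 5) (.split (nat_lit 0xc) (nat_lit 7) (.split (nat_lit 0xc) (nat_lit 8) (.split (nat_lit 0xc) (nat_lit 9) (.split (nat_lit 0xc) (nat_lit 0xa) (.split (nat_lit 0xc) (nat_lit 6) (.st (nat_lit 0xb) (nat_lit 0) (nat_lit 6) (nat_lit 0x1500550) (nat_lit 0x1000200020000000000000000000200010002000100000000) (nat_lit 1) (nat_lit 1) (.st (nat_lit 0xc) (nat_lit 0) (nat_lit 6) (nat_lit 0x1500554) (nat_lit 0x2000300040000000000000000000500030006000400020000)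 (nat_lit 1) (nat_lit 1) (.split (nat_lit 0xc) (nat_lit 0xb) (.split (nat_lit 0xb) (nat_lit 0xa) (.split (nat_lit 0xa) (nat_lit 5) (.leaf (.cons (nat_lit 0x1501400) (nat_lit 0x1000200030000000000000003000400000000000000000000) (.cons (nat_lit 0x455) (nat_lit 0x100000002000300040003) .nil)) (.cons (nat_lit 0x1110000111110) (nat_lit 0x1000001) (nat_lit 0xe) (nat_lit 0x7650000410230) (.cons (nat_lit 0x1110000111100) (nat_lit 0x1000010) (nat_lit 0xa) (nat_lit 0x6540000320100) .nil))) (.non (nat_lit 0) (nat_lit 6) (nat_lit 0x2a00440) (nat_lit 0x1000200030000000000000000000400000002000000000000))) (.non (nat_lit 0) (nat_lit 6) (nat_lit 0x2900440) (nat_lit 0x1000200030000000000000000000200000001000000000000))) (.non (nat_lit 0) (nat_lit 6) (nat_lit 0x2500550) (nat_lit 0x1000200020000000000000000000200010002000100000000))))) (.sup (nat_lit 0x4000300020001000200030004000100000000000000000000) (nat_lit 0x30007000b0010000d))) (.non (nat_lit 0) (nat_lit 5) (nat_lit 0x1500000) (nat_lit 0x1000100010000000000000000000000000000000000000000)))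 (.non (nat_lit 0) (nat_lit 6) (nat_lit 0x1540554) (nat_lit 0x2000300040001000000000000000500030006000400020000))) (.non (nat_lit 0) (nat_lit 6) (nat_lit 0x1554550) (nat_lit 0x2000200020001000200010000000200010002000100000000))) (.non (nat_lit 0) (nat_lit 6) (nat_lit 0x1504554) (nat_lit 0x2000300040000000000010000000500030006000400020000))) (.non (nat_lit 0) (nat_lit 6) (nat_lit 0x1500400) (nat_lit 0x1000100010000000000000000000100000000000000000000))) (.non (nat_lit 0) (nat_lit 6) (nat_lit 0x1500540) (nat_lit 0x1000100010000000000000000000100010001000000000000))) (.non (nat_lit 0) (nat_lit 6) (nat_lit 0x1500440) (nat_lit 0x1000100010000000000000000000100000001000000000000))) (.non (nat_lit 0) (nat_lit 6) (nat_lit 0x1500450) (nat_lit 0x1000100010000000000000000000100000001000100000000))) (.non (nat_lit 0) (nat_lit 6) (nat_lit 0x1500454) (nat_lit 0x1000100010000000000000000000100000001000100010000)))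

noncomputable def t1537_20 : Tr := (.split (nat_lit 0xb) (nat_lit 0) (.split (nat_lit 0xb) (nat_lit 1) (.split (nat_lit 0xb) (nat_lit 2) (.split (nat_lit 0xb) (nat_lit 3) (.split (nat_lit 0xb) (nat_lit 4) (.split (nat_lit 0xb) (nat_lit 5) (.split (nat_lit 0xb) (nat_lit 7) (.split (nat_lit 0xb) (nat_lit 8) (.split (nat_lit 0xb) (nat_lit 9) (.split (nat_lit 0xb) (nat_lit 6) (.st (nat_lit 0xa) (nat_lit 0) (nat_lit 6) (nat_lit 0x500550) (nat_lit 0x100020000000000000000000200010002000100000000) (nat_lit 1) (nat_lit 1) (.ex (nat_lit 0xb) (.split (nat_lit 0xa) (nat_lit 5) (.split (nat_lit 0xb) (nat_lit 0xa) (.pd (.cons (nat_lit 3) (nat_lit 7) (nat_lit 0) (nat_lit 0xa58805540100) (nat_lit 0xf423fb71aef423fb71ae00000f423f02f7af423f00000f423fb71ae1f156) .nil) (.leaf (.cons (nat_lit 0x101440) (nat_lit 0x10000000000000002000200000001000000000000) (.cons (nat_lit 0x105400) (nat_lit 0x10000000000010002000200000000000000000000) (.cons (nat_lit 0x455) (nat_lit 0x100000002000300040003) .nil))) (.cons (nat_lit 0x110000111000)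 (nat_lit 0x1000100) (nat_lit 3) (nat_lit 0x430000201000) .nil))) (.non (nat_lit 0) (nat_lit 6) (nat_lit 0x900550) (nat_lit 0x100020000000000000000000200010002000100000000))) (.non (nat_lit 0) (nat_lit 6) (nat_lit 0xa00540) (nat_lit 0x100020000000000000000000300010002000000000000))) (.split (nat_lit 0xc) (nat_lit 0) t1537_19 (.non (nat_lit 2) (nat_lit 5) (nat_lit 0x1500005) (nat_lit 0x3000200010000000000000000000000000000000000030004))))) (.sup (nat_lit 0x300020001000200030004000100000000000000000000) (nat_lit 0x30007000b0010000d))) (.non (nat_lit 0) (nat_lit 6) (nat_lit 0x550554) (nat_lit 0x300040002000100000000000500030006000400020000))) (.non (nat_lit 0) (nat_lit 6) (nat_lit 0x554550) (nat_lit 0x200020001000200010000000200010002000100000000))) (.non (nat_lit 0) (nat_lit 6) (nat_lit 0x514554) (nat_lit 0x300040000000100020000000500030006000400020000))) (.non (nat_lit 0) (nat_lit 6) (nat_lit 0x500400) (nat_lit 0x100010000000000000000000100000000000000000000))) (.non (nat_lit 0) (nat_lit 6) (nat_lit 0x500540)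 (nat_lit 0x100010000000000000000000100010001000000000000))) (.non (nat_lit 0) (nat_lit 6) (nat_lit 0x500440) (nat_lit 0x100010000000000000000000100000001000000000000))) (.non (nat_lit 0) (nat_lit 6) (nat_lit 0x500450) (nat_lit 0x100010000000000000000000100000001000100000000))) (.non (nat_lit 0) (nat_lit 6) (nat_lit 0x500454) (nat_lit 0x100010000000000000000000100000001000100010000))) (.non (nat_lit 2) (nat_lit 6) (nat_lit 0x500405) (nat_lit 0x300020000000000000000000100000000000000030004)))

noncomputable def t1537_21 : Tr := (.split (nat_lit 0xd) (nat_lit 0) (.split (nat_lit 0xd) (nat_lit 1) (.split (nat_lit 0xd) (nat_lit 2) (.split (nat_lit 0xd) (nat_lit 3) (.split (nat_lit 0xd) (nat_lit 4) (.split (nat_lit 0xd) (nat_lit 5) (.split (nat_lit 0xd) (nat_lit 6) (.split (nat_lit 0xd) (nat_lit 7) (.split (nat_lit 0xd) (nat_lit 8) (.split (nat_lit 0xd) (nat_lit 9) (.split (nat_lit 0xd) (nat_lit 0xa) (.split (nat_lit 0xd) (nat_lit 0xb) (.st (nat_lit 0xc) (nat_lit 0) (nat_lit 6) (nat_lit 0x5100550) (nat_lit 0x10002000000020000000000000000000200010002000100000000)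 (nat_lit 1) (nat_lit 1) (.st (nat_lit 0xd) (nat_lit 0) (nat_lit 6) (nat_lit 0x5100554) (nat_lit 0x20003000000040000000000000000000500030006000400020000) (nat_lit 1) (nat_lit 1) (.split (nat_lit 0xd) (nat_lit 0xc) (.leaf (.cons (nat_lit 0x5101400) (nat_lit 0x10002000000030000000000000003000400000000000000000000) (.cons (nat_lit 0x455) (nat_lit 0x100000002000300040003) .nil)) (.cons (nat_lit 0x11010000111110) (nat_lit 0x1000001) (nat_lit 0xe) (nat_lit 0x76050000410230) (.cons (nat_lit 0x11010000111100) (nat_lit 0x1000010) (nat_lit 0xa) (nat_lit 0x65040000320100) .nil))) (.non (nat_lit 0) (nat_lit 6) (nat_lit 0x9100550) (nat_lit 0x10002000000020000000000000000000200010002000100000000))))) (.non (nat_lit 0) (nat_lit 6) (nat_lit 0x5500554) (nat_lit 0x20003000100040000000000000000000500030006000400020000))) (.non (nat_lit 0) (nat_lit 5) (nat_lit 0x5100000) (nat_lit 0x10001000000010000000000000000000000000000000000000000))) (.non (nat_lit 0) (nat_lit 6) (nat_lit 0x5140554) (nat_lit 0x20003000000040001000000000000000500030006000400020000)))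 (.non (nat_lit 0) (nat_lit 5) (nat_lit 0x5555000) (nat_lit 0x30002000100010002000400030002000000000000000000000000))) (.non (nat_lit 0) (nat_lit 5) (nat_lit 0x5455000) (nat_lit 0x20001000100000001000200030002000000000000000000000000))) (.non (nat_lit 0) (nat_lit 5) (nat_lit 0x5555000) (nat_lit 0x30002000200010001000200030004000000000000000000000000))) (.non (nat_lit 0) (nat_lit 6) (nat_lit 0x5100400) (nat_lit 0x10001000000010000000000000000000100000000000000000000))) (.non (nat_lit 0) (nat_lit 6) (nat_lit 0x5100540) (nat_lit 0x10001000000010000000000000000000100010001000000000000))) (.non (nat_lit 0) (nat_lit 6) (nat_lit 0x5100440) (nat_lit 0x10001000000010000000000000000000100000001000000000000))) (.non (nat_lit 0) (nat_lit 6) (nat_lit 0x5100450) (nat_lit 0x10001000000010000000000000000000100000001000100000000))) (.non (nat_lit 0) (nat_lit 6) (nat_lit 0x5100454) (nat_lit 0x10001000000010000000000000000000100000001000100010000))) (.non (nat_lit 2) (nat_lit 5) (nat_lit 0x5100005) (nat_lit 0x30002000000010000000000000000000000000000000000030004)))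

noncomputable def t1537_22 : Tr := (.ex (nat_lit 0xa) (.leaf (.cons (nat_lit 0x501400) (nat_lit 0x100010000000000000002000200000000000000000000) (.cons (nat_lit 0x455) (nat_lit 0x100000002000300040003) .nil)) (.cons (nat_lit 0x10000111000) (nat_lit 0x1000100) (nat_lit 2) (nat_lit 0x30000201000) .nil)) (.split (nat_lit 0xc) (nat_lit 0) (.split (nat_lit 0xc) (nat_lit 1) (.split (nat_lit 0xc) (nat_lit 2) (.split (nat_lit 0xc) (nat_lit 3) (.split (nat_lit 0xc) (nat_lit 4) (.split (nat_lit 0xc) (nat_lit 5) (.split (nat_lit 0xc) (nat_lit 7) (.split (nat_lit 0xc) (nat_lit 8) (.split (nat_lit 0xc) (nat_lit 9) (.split (nat_lit 0xc) (nat_lit 6) (.split (nat_lit 0xc) (nat_lit 0xb) (.st (nat_lit 0xa) (nat_lit 0) (nat_lit 6) (nat_lit 0x1100550) (nat_lit 0x1000000020000000000000000000200010002000100000000) (nat_lit 1) (nat_lit 1) (.split (nat_lit 0xc) (nat_lit 0xa) (.ex (nat_lit 0xc) (.leaf (.cons (nat_lit 0x501400) (nat_lit 0x100010000000000000002000200000000000000000000) (.cons (nat_lit 0x455) (nat_lit 0x100000002000300040003)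 .nil)) (.cons (nat_lit 0x1010000111000) (nat_lit 0x1000100) (nat_lit 3) (nat_lit 0x4030000201000) .nil)) t1537_21) (.non (nat_lit 0) (nat_lit 6) (nat_lit 0x2100550) (nat_lit 0x1000000020000000000000000000200010002000100000000)))) (.sup (nat_lit 0x3000400020001000200030004000100000000000000000000) (nat_lit 0x30007000b0010000d))) (.split (nat_lit 0xc) (nat_lit 0xb) (.sup (nat_lit 0x5000400030002000400060008000100000000000000000000) (nat_lit 0x7000f00170020001a)) (.non (nat_lit 0) (nat_lit 5) (nat_lit 0x1401000) (nat_lit 0x1000100000000000000000001000000000000000000000000)))) (.non (nat_lit 0) (nat_lit 6) (nat_lit 0x1150554) (nat_lit 0x3000000040002000100000000000500030006000400020000))) (.non (nat_lit 0) (nat_lit 6) (nat_lit 0x1154550) (nat_lit 0x2000000020001000200010000000200010002000100000000))) (.non (nat_lit 0) (nat_lit 5) (nat_lit 0x1555000) (nat_lit 0x2000100010001000200030002000000000000000000000000))) (.non (nat_lit 0) (nat_lit 6) (nat_lit 0x1100400) (nat_lit 0x1000000010000000000000000000100000000000000000000)))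 (.non (nat_lit 0) (nat_lit 6) (nat_lit 0x1100540) (nat_lit 0x1000000010000000000000000000100010001000000000000))) (.non (nat_lit 0) (nat_lit 6) (nat_lit 0x1100440) (nat_lit 0x1000000010000000000000000000100000001000000000000))) (.non (nat_lit 0) (nat_lit 6) (nat_lit 0x1100450) (nat_lit 0x1000000010000000000000000000100000001000100000000))) (.non (nat_lit 0) (nat_lit 6) (nat_lit 0x1100454) (nat_lit 0x1000000010000000000000000000100000001000100010000))) (.non (nat_lit 2) (nat_lit 6) (nat_lit 0x1100405) (nat_lit 0x3000000020000000000000000000100000000000000030004))))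

noncomputable def t1537_23 : Tr := (.split (nat_lit 0xa) (nat_lit 9) (.split (nat_lit 0xa) (nat_lit 6) (.st (nat_lit 5) (nat_lit 0) (nat_lit 6) (nat_lit 0x100550) (nat_lit 0x10000000000000000000200010002000100000000) (nat_lit 1) (nat_lit 1) (.ex (nat_lit 6) (.ex (nat_lit 0xa) (.split (nat_lit 0xa) (nat_lit 5) (.pd (.cons (nat_lit 3) (nat_lit 7) (nat_lit 0) (nat_lit 0x58805540100) (nat_lit 0xf423ff423fb71ae00000f423f17500f423f00000f423fb71ae1f156) .nil) (.leaf (.cons (nat_lit 0x101440) (nat_lit 0x10000000000000002000200000001000000000000) (.cons (nat_lit 0x105400) (nat_lit 0x10000000000010002000200000000000000000000) (.cons (nat_lit 0x455) (nat_lit 0x100000002000300040003) .nil))) (.cons (nat_lit 0x10000111000) (nat_lit 0x1000100) (nat_lit 2) (nat_lit 0x30000201000) .nil))) (.non (nat_lit 0) (nat_lit 6) (nat_lit 0x200550) (nat_lit 0x10000000000000000000200010002000100000000))) t1537_20) (.split (nat_lit 0xb) (nat_lit 0) (.split (nat_lit 0xb) (nat_lit 1) (.split (nat_lit 0xb) (nat_lit 2) (.split (nat_lit 0xb)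 (nat_lit 3) (.split (nat_lit 0xb) (nat_lit 4) (.split (nat_lit 0xb) (nat_lit 5) (.split (nat_lit 0xb) (nat_lit 7) (.split (nat_lit 0xb) (nat_lit 8) (.split (nat_lit 0xb) (nat_lit 9) (.split (nat_lit 0xb) (nat_lit 0xa) (.split (nat_lit 0xb) (nat_lit 6) (.split (nat_lit 0xa) (nat_lit 5) t1537_22 (.non (nat_lit 0) (nat_lit 6) (nat_lit 0x200550) (nat_lit 0x10000000000000000000200010002000100000000))) (.sup (nat_lit 0x400000001000200040005000100000000000000000000) (nat_lit 0x30007000b0010000d))) (.sup (nat_lit 0x300020001000200030004000100000000000000000000) (nat_lit 0x30007000b0010000d))) (.non (nat_lit 0) (nat_lit 5) (nat_lit 0x455000) (nat_lit 0x100000001000100010001000000000000000000000000))) (.non (nat_lit 0) (nat_lit 5) (nat_lit 0x415000) (nat_lit 0x100000000000100010001000000000000000000000000))) (.non (nat_lit 0) (nat_lit 5) (nat_lit 0x405000) (nat_lit 0x100000000000000010001000000000000000000000000))) (.non (nat_lit 0) (nat_lit 6) (nat_lit 0x500550) (nat_lit 0x100010000000000000000000200010002000100000000)))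 (.non (nat_lit 0) (nat_lit 6) (nat_lit 0x500554) (nat_lit 0x100010000000000000000000200020003000200010000))) (.non (nat_lit 0) (nat_lit 5) (nat_lit 0x455154) (nat_lit 0x500000001000200030004000000030006000400020000))) (.non (nat_lit 0) (nat_lit 5) (nat_lit 0x455154) (nat_lit 0x500000001000200030004000000020004000600030000))) (.star (nat_lit 0xb) (nat_lit 1) (nat_lit 6))) (.star (nat_lit 0xb) (nat_lit 0) (nat_lit 6))))) (.sup (nat_lit 0x60002000400060008000300000000000000000000) (nat_lit 0x6000d00160020001a))) (.non (nat_lit 0) (nat_lit 6) (nat_lit 0x154554) (nat_lit 0x40003000200010000000500030006000400020000)))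

noncomputable def t1537_24 : Tr := (.ex (nat_lit 0xb) (.leaf (.cons (nat_lit 0x101540) (nat_lit 0x10000000000000003000400020003000000000000) (.cons (nat_lit 0x455) (nat_lit 0x100000002000300040003) .nil)) (.cons (nat_lit 0x110000111110) (nat_lit 0x1000001) (nat_lit 0xd) (nat_lit 0x650000140230) (.cons (nat_lit 0x110000111100) (nat_lit 0x1000010) (nat_lit 9) (nat_lit 0x540000230100) .nil))) (.split (nat_lit 0xc) (nat_lit 0) (.split (nat_lit 0xc) (nat_lit 1) (.split (nat_lit 0xc) (nat_lit 2) (.split (nat_lit 0xc) (nat_lit 3) (.split (nat_lit 0xc) (nat_lit 4) (.split (nat_lit 0xc) (nat_lit 5) (.split (nat_lit 0xc) (nat_lit 6) (.split (nat_lit 0xc) (nat_lit 7) (.split (nat_lit 0xc) (nat_lit 8) (.split (nat_lit 0xc) (nat_lit 9) (.split (nat_lit 0xc) (nat_lit 0xa) (.st (nat_lit 0xb) (nat_lit 0) (nat_lit 6) (nat_lit 0x1500550) (nat_lit 0x1000200020000000000000000000100020002000100000000) (nat_lit 1) (nat_lit 1) (.st (nat_lit 0xc) (nat_lit 0) (nat_lit 6) (nat_lit 0x1500554) (nat_lit 0x2000300040000000000000000000300050006000400020000)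 (nat_lit 1) (nat_lit 1) (.split (nat_lit 0xc) (nat_lit 0xb) (.leaf (.cons (nat_lit 0x101540) (nat_lit 0x10000000000000003000400020003000000000000) (.cons (nat_lit 0x455) (nat_lit 0x100000002000300040003) .nil)) (.cons (nat_lit 0x1110000111110) (nat_lit 0x1000001) (nat_lit 0xe) (nat_lit 0x7650000140230) (.cons (nat_lit 0x1110000111000) (nat_lit 0x1000100) (nat_lit 4) (nat_lit 0x5430000021000) .nil))) (.non (nat_lit 0) (nat_lit 6) (nat_lit 0x2500550) (nat_lit 0x1000200020000000000000000000100020002000100000000))))) (.non (nat_lit 0) (nat_lit 5) (nat_lit 0x1500000) (nat_lit 0x1000100010000000000000000000000000000000000000000))) (.non (nat_lit 0) (nat_lit 6) (nat_lit 0x1540554) (nat_lit 0x2000300040001000000000000000300050006000400020000))) (.non (nat_lit 0) (nat_lit 5) (nat_lit 0x1555140) (nat_lit 0x5000400030003000600040002000000020001000000000000))) (.non (nat_lit 0) (nat_lit 5) (nat_lit 0x1555140) (nat_lit 0x5000400030002000400060003000000020001000000000000))) (.non (nat_lit 3) (nat_lit 7) (nat_lit 0x1501400)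 (nat_lit 0x3000200010000000000000004000300000000000000000000))) (.non (nat_lit 0) (nat_lit 6) (nat_lit 0x1500540) (nat_lit 0x1000100010000000000000000000100010001000000000000))) (.non (nat_lit 0) (nat_lit 5) (nat_lit 0x1500100) (nat_lit 0x1000100010000000000000000000000010000000000000000))) (.non (nat_lit 0) (nat_lit 5) (nat_lit 0x1500140) (nat_lit 0x1000100010000000000000000000000010001000000000000))) (.non (nat_lit 0) (nat_lit 5) (nat_lit 0x1500150) (nat_lit 0x1000100010000000000000000000000010001000100000000))) (.non (nat_lit 0) (nat_lit 5) (nat_lit 0x1500154) (nat_lit 0x1000100010000000000000000000000010001000100010000))) (.non (nat_lit 2) (nat_lit 5) (nat_lit 0x1500005) (nat_lit 0x3000200010000000000000000000000000000000000030004))))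

noncomputable def t1537_25 : Tr := (.split (nat_lit 0xd) (nat_lit 0) (.split (nat_lit 0xd) (nat_lit 1) (.split (nat_lit 0xd) (nat_lit 2) (.split (nat_lit 0xd) (nat_lit 3) (.split (nat_lit 0xd) (nat_lit 4) (.split (nat_lit 0xd) (nat_lit 5) (.split (nat_lit 0xd) (nat_lit 6) (.split (nat_lit 0xd) (nat_lit 7) (.split (nat_lit 0xd) (nat_lit 8) (.split (nat_lit 0xd) (nat_lit 9) (.split (nat_lit 0xd) (nat_lit 0xa) (.split (nat_lit 0xd) (nat_lit 0xc) (.st (nat_lit 0xb) (nat_lit 0) (nat_lit 6) (nat_lit 0x4500550) (nat_lit 0x10000000200020000000000000000000100020002000100000000) (nat_lit 1) (nat_lit 1) (.st (nat_lit 0xd) (nat_lit 0) (nat_lit 6) (nat_lit 0x4500554) (nat_lit 0x20000000300040000000000000000000300050006000400020000) (nat_lit 1) (nat_lit 1) (.split (nat_lit 0xd) (nat_lit 0xb) (.leaf (.cons (nat_lit 0x101540) (nat_lit 0x10000000000000003000400020003000000000000) (.cons (nat_lit 0x455) (nat_lit 0x100000002000300040003) .nil)) (.cons (nat_lit 0x10110000111110) (nat_lit 0x1000001) (nat_lit 0xe) (nat_lit 0x70650000140230)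 (.cons (nat_lit 0x10110000111000) (nat_lit 0x1000100) (nat_lit 4) (nat_lit 0x50430000021000) .nil))) (.non (nat_lit 0) (nat_lit 6) (nat_lit 0x8500550) (nat_lit 0x10000000200020000000000000000000100020002000100000000))))) (.non (nat_lit 0) (nat_lit 6) (nat_lit 0x5500554) (nat_lit 0x20001000300040000000000000000000300050006000400020000))) (.non (nat_lit 0) (nat_lit 5) (nat_lit 0x4500000) (nat_lit 0x10000000100010000000000000000000000000000000000000000))) (.non (nat_lit 0) (nat_lit 5) (nat_lit 0x5555000) (nat_lit 0x30002000200010004000300020001000000000000000000000000))) (.non (nat_lit 0) (nat_lit 5) (nat_lit 0x5455000) (nat_lit 0x20001000100000002000300020001000000000000000000000000))) (.non (nat_lit 0) (nat_lit 5) (nat_lit 0x5555000) (nat_lit 0x30001000200010002000300040002000000000000000000000000))) (.non (nat_lit 3) (nat_lit 7) (nat_lit 0x4501400) (nat_lit 0x30000000200010000000000000004000300000000000000000000))) (.non (nat_lit 0) (nat_lit 6) (nat_lit 0x4500540) (nat_lit 0x10000000100010000000000000000000100010001000000000000)))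 (.non (nat_lit 0) (nat_lit 5) (nat_lit 0x4500100) (nat_lit 0x10000000100010000000000000000000000010000000000000000))) (.non (nat_lit 0) (nat_lit 5) (nat_lit 0x4500140) (nat_lit 0x10000000100010000000000000000000000010001000000000000))) (.non (nat_lit 0) (nat_lit 5) (nat_lit 0x4500150) (nat_lit 0x10000000100010000000000000000000000010001000100000000))) (.non (nat_lit 0) (nat_lit 5) (nat_lit 0x4500154) (nat_lit 0x10000000100010000000000000000000000010001000100010000))) (.non (nat_lit 2) (nat_lit 5) (nat_lit 0x4500005) (nat_lit 0x30000000200010000000000000000000000000000000000030004)))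

noncomputable def t1537_26 : Tr := (.split (nat_lit 0xd) (nat_lit 0) (.split (nat_lit 0xd) (nat_lit 1) (.split (nat_lit 0xd) (nat_lit 2) (.split (nat_lit 0xd) (nat_lit 3) (.split (nat_lit 0xd) (nat_lit 4) (.split (nat_lit 0xd) (nat_lit 5) (.split (nat_lit 0xd) (nat_lit 6) (.split (nat_lit 0xd) (nat_lit 7) (.split (nat_lit 0xd) (nat_lit 8) (.split (nat_lit 0xd) (nat_lit 9) (.split (nat_lit 0xd) (nat_lit 0xa) (.split (nat_lit 0xd) (nat_lit 0xc) (.st (nat_lit 0xb) (nat_lit 0) (nat_lit 6) (nat_lit 0x4500550) (nat_lit 0x10000000200020000000000000000000100020002000100000000) (nat_lit 1) (nat_lit 1) (.st (nat_lit 0xd) (nat_lit 0) (nat_lit 6) (nat_lit 0x4500554) (nat_lit 0x20000000300040000000000000000000300050006000400020000) (nat_lit 1) (nat_lit 1) (.split (nat_lit 0xd) (nat_lit 0xb) (.leaf (.cons (nat_lit 0x101540) (nat_lit 0x10000000000000003000400020003000000000000) (.cons (nat_lit 0x455) (nat_lit 0x100000002000300040003) .nil)) (.cons (nat_lit 0x10110000111110) (nat_lit 0x1000001) (nat_lit 0xe) (nat_lit 0x70650000140230)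 (.cons (nat_lit 0x10110000111000) (nat_lit 0x1000100) (nat_lit 4) (nat_lit 0x50430000021000) .nil))) (.non (nat_lit 0) (nat_lit 6) (nat_lit 0x8500550) (nat_lit 0x10000000200020000000000000000000100020002000100000000))))) (.non (nat_lit 0) (nat_lit 5) (nat_lit 0xa850000) (nat_lit 0x20003000100000004000200000000000000000000000000000000))) (.non (nat_lit 0) (nat_lit 5) (nat_lit 0x4500000) (nat_lit 0x10000000100010000000000000000000000000000000000000000))) (.non (nat_lit 0) (nat_lit 5) (nat_lit 0x6050000) (nat_lit 0x10001000000000002000100000000000000000000000000000000))) (.non (nat_lit 0) (nat_lit 5) (nat_lit 0x6054000) (nat_lit 0x10001000000000002000200010000000000000000000000000000))) (.non (nat_lit 0) (nat_lit 5) (nat_lit 0x6055000) (nat_lit 0x10001000000000002000200020001000000000000000000000000))) (.non (nat_lit 3) (nat_lit 7) (nat_lit 0x4501400) (nat_lit 0x30000000200010000000000000004000300000000000000000000))) (.non (nat_lit 0) (nat_lit 6) (nat_lit 0x4500540) (nat_lit 0x10000000100010000000000000000000100010001000000000000)))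 (.non (nat_lit 0) (nat_lit 5) (nat_lit 0x4500100) (nat_lit 0x10000000100010000000000000000000000010000000000000000))) (.non (nat_lit 0) (nat_lit 5) (nat_lit 0x4500140) (nat_lit 0x10000000100010000000000000000000000010001000000000000))) (.non (nat_lit 0) (nat_lit 5) (nat_lit 0x4500150) (nat_lit 0x10000000100010000000000000000000000010001000100000000))) (.non (nat_lit 0) (nat_lit 5) (nat_lit 0x4500154) (nat_lit 0x10000000100010000000000000000000000010001000100010000))) (.non (nat_lit 2) (nat_lit 5) (nat_lit 0x4500005) (nat_lit 0x30000000200010000000000000000000000000000000000030004)))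

noncomputable def t1537_27 : Tr := (.split (nat_lit 0xc) (nat_lit 2) (.split (nat_lit 0xc) (nat_lit 3) (.split (nat_lit 0xc) (nat_lit 4) (.split (nat_lit 0xc) (nat_lit 5) (.split (nat_lit 0xc) (nat_lit 6) (.split (nat_lit 0xc) (nat_lit 7) (.split (nat_lit 0xc) (nat_lit 8) (.split (nat_lit 0xc) (nat_lit 0xa) (.split (nat_lit 0xc) (nat_lit 0xb) (.split (nat_lit 0xc) (nat_lit 9) (.ex (nat_lit 0xb) (.leaf (.cons (nat_lit 0x101540) (nat_lit 0x10000000000000003000400020003000000000000) (.cons (nat_lit 0x455) (nat_lit 0x100000002000300040003) .nil)) (.cons (nat_lit 0x110000111110) (nat_lit 0x1000001) (nat_lit 0xd) (nat_lit 0x650000140230) (.cons (nat_lit 0x110000111100) (nat_lit 0x1000010) (nat_lit 9) (nat_lit 0x540000230100) .nil))) t1537_25) (.st (nat_lit 9) (nat_lit 0) (nat_lit 5) (nat_lit 0x2050000) (nat_lit 0x1000000000002000100000000000000000000000000000000) (nat_lit 1) (nat_lit 1) (.st (nat_lit 0xc) (nat_lit 0) (nat_lit 5) (nat_lit 0x2054000) (nat_lit 0x2000000000003000200010000000000000000000000000000) (nat_lit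 2) (nat_lit 1) (.split (nat_lit 0xc) (nat_lit 9) (.ex (nat_lit 0xb) (.leaf (.cons (nat_lit 0x101540) (nat_lit 0x10000000000000003000400020003000000000000) (.cons (nat_lit 0x455) (nat_lit 0x100000002000300040003) .nil)) (.cons (nat_lit 0x110000111110) (nat_lit 0x1000001) (nat_lit 0xd) (nat_lit 0x650000140230) (.cons (nat_lit 0x110000111100) (nat_lit 0x1000010) (nat_lit 9) (nat_lit 0x540000230100) .nil))) t1537_26) (.non (nat_lit 0) (nat_lit 5) (nat_lit 0x1055000) (nat_lit 0x3000000000004000300020001000000000000000000000000)))))) (.non (nat_lit 0) (nat_lit 6) (nat_lit 0x1540554) (nat_lit 0x2000300040001000000000000000300050006000400020000))) (.non (nat_lit 0) (nat_lit 5) (nat_lit 0x1555140) (nat_lit 0x5000300060004000300020001000000040002000000000000))) (.non (nat_lit 0) (nat_lit 5) (nat_lit 0x1050000) (nat_lit 0x1000000000001000100000000000000000000000000000000))) (.non (nat_lit 0) (nat_lit 5) (nat_lit 0x1054000) (nat_lit 0x1000000000001000100010000000000000000000000000000))) (.non (nat_lit 0) (nat_lit 5) (nat_lit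 0x1055000) (nat_lit 0x1000000000001000100010001000000000000000000000000))) (.non (nat_lit 0) (nat_lit 6) (nat_lit 0x1540550) (nat_lit 0x2000100020001000000000000000300030004000200000000))) (.non (nat_lit 0) (nat_lit 5) (nat_lit 0x1555140) (nat_lit 0x5000200040004000300020001000000060003000000000000))) (.non (nat_lit 0) (nat_lit 5) (nat_lit 0x1550150) (nat_lit 0x3000100020002000100000000000000030004000200000000))) (.non (nat_lit 0) (nat_lit 5) (nat_lit 0x1150154) (nat_lit 0x3000000010002000100000000000000020003000400020000)))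

noncomputable def t1537_28 : Tr := (.pd (.cons (nat_lit 3) (nat_lit 9) (nat_lit 0x10000010000) (nat_lit 0x407655a0100) (nat_lit 0x100000f423fb71aea2c28047370000100000f423fb71ae1f156) .nil) (.split (nat_lit 0xa) (nat_lit 4) (.ex (nat_lit 0xa) (.leaf (.cons (nat_lit 0x101540) (nat_lit 0x10000000000000003000400020003000000000000) (.cons (nat_lit 0x455) (nat_lit 0x100000002000300040003) .nil)) (.cons (nat_lit 0x10000111110) (nat_lit 0x1000001) (nat_lit 0xc) (nat_lit 0x50000140230) .nil)) (.split (nat_lit 0xb) (nat_lit 0) (.split (nat_lit 0xb) (nat_lit 1) (.split (nat_lit 0xb) (nat_lit 2) (.split (nat_lit 0xb) (nat_lit 3) (.split (nat_lit 0xb) (nat_lit 4) (.split (nat_lit 0xb) (nat_lit 5) (.split (nat_lit 0xb) (nat_lit 6) (.split (nat_lit 0xb) (nat_lit 7) (.split (nat_lit 0xb) (nat_lit 8) (.split (nat_lit 0xb) (nat_lit 9) (.st (nat_lit 0xa) (nat_lit 0) (nat_lit 6) (nat_lit 0x500550) (nat_lit 0x100020000000000000000000100020002000100000000) (nat_lit 1) (nat_lit 1) (.split (nat_lit 0xb) (nat_lit 0xa) (.ex (nat_lit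 9) t1537_24 (.split (nat_lit 0xc) (nat_lit 0) (.split (nat_lit 0xc) (nat_lit 1) t1537_27 (.non (nat_lit 0) (nat_lit 6) (nat_lit 0x1500554) (nat_lit 0x1000100020000000000000000000200030004000300020000))) (.non (nat_lit 2) (nat_lit 5) (nat_lit 0x1050005) (nat_lit 0x3000000000002000100000000000000000000000000030004)))) (.non (nat_lit 0) (nat_lit 6) (nat_lit 0x900550) (nat_lit 0x100020000000000000000000100020002000100000000)))) (.non (nat_lit 0) (nat_lit 6) (nat_lit 0x550554) (nat_lit 0x300040002000100000000000300050006000400020000))) (.non (nat_lit 0) (nat_lit 5) (nat_lit 0x555150) (nat_lit 0x500040003000600040002000000030002000100000000))) (.non (nat_lit 0) (nat_lit 5) (nat_lit 0x555150) (nat_lit 0x500040002000400060003000000030002000100000000))) (.non (nat_lit 3) (nat_lit 7) (nat_lit 0x501500) (nat_lit 0x300020000000000000004000300010000000000000000))) (.non (nat_lit 0) (nat_lit 6) (nat_lit 0x500540) (nat_lit 0x100010000000000000000000100010001000000000000))) (.non (nat_lit 0) (nat_lit 5) (nat_lit 0x500100)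 (nat_lit 0x100010000000000000000000000010000000000000000))) (.non (nat_lit 0) (nat_lit 5) (nat_lit 0x500140) (nat_lit 0x100010000000000000000000000010001000000000000))) (.non (nat_lit 0) (nat_lit 5) (nat_lit 0x500150) (nat_lit 0x100010000000000000000000000010001000100000000))) (.non (nat_lit 0) (nat_lit 5) (nat_lit 0x500154) (nat_lit 0x100010000000000000000000000010001000100010000))) (.non (nat_lit 2) (nat_lit 5) (nat_lit 0x500105) (nat_lit 0x300020000000000000000000000010000000000030004)))) (.non (nat_lit 0) (nat_lit 6) (nat_lit 0x200550) (nat_lit 0x10000000000000000000100020002000100000000))))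

noncomputable def t1537_29 : Tr := (.split (nat_lit 0xd) (nat_lit 1) (.split (nat_lit 0xd) (nat_lit 2) (.split (nat_lit 0xd) (nat_lit 3) (.split (nat_lit 0xd) (nat_lit 4) (.split (nat_lit 0xd) (nat_lit 5) (.split (nat_lit 0xd) (nat_lit 6) (.split (nat_lit 0xd) (nat_lit 7) (.split (nat_lit 0xd) (nat_lit 8) (.split (nat_lit 0xd) (nat_lit 9) (.split (nat_lit 0xd) (nat_lit 0xa) (.split (nat_lit 0xd) (nat_lit 0xb) (.st (nat_lit 0xc) (nat_lit 0) (nat_lit 6) (nat_lit 0x5100550) (nat_lit 0x10002000000020000000000000000000100020002000100000000) (nat_lit 1) (nat_lit 1) (.st (nat_lit 0xd) (nat_lit 0) (nat_lit 6) (nat_lit 0x5100554) (nat_lit 0x20003000000040000000000000000000300050006000400020000) (nat_lit 1) (nat_lit 1) (.split (nat_lit 0xd) (nat_lit 0xc) (.leaf (.cons (nat_lit 0x101540) (nat_lit 0x10000000000000003000400020003000000000000) (.cons (nat_lit 0x415400) (nat_lit 0x100000000000200030004000300000000000000000000) (.cons (nat_lit 0x455) (nat_lit 0x100000002000300040003) .nil))) (.cons (nat_lit 0x11010000111110)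 (nat_lit 0x1000001) (nat_lit 0xe) (nat_lit 0x76050000140230) (.cons (nat_lit 0x11010000111000) (nat_lit 0x1000100) (nat_lit 4) (nat_lit 0x54030000021000) .nil))) (.non (nat_lit 0) (nat_lit 6) (nat_lit 0x9100550) (nat_lit 0x10002000000020000000000000000000100020002000100000000))))) (.non (nat_lit 0) (nat_lit 5) (nat_lit 0x5555100) (nat_lit 0x40003000500020003000600040002000000010000000000000000))) (.non (nat_lit 0) (nat_lit 5) (nat_lit 0x5100000) (nat_lit 0x10001000000010000000000000000000000000000000000000000))) (.non (nat_lit 0) (nat_lit 5) (nat_lit 0x5555100) (nat_lit 0x40003000300020005000600040002000000010000000000000000))) (.non (nat_lit 0) (nat_lit 5) (nat_lit 0x4454000) (nat_lit 0x10000000100000001000200010000000000000000000000000000))) (.non (nat_lit 0) (nat_lit 5) (nat_lit 0x4455000) (nat_lit 0x10000000100000001000200020001000000000000000000000000))) (.non (nat_lit 3) (nat_lit 7) (nat_lit 0x5101400) (nat_lit 0x30002000000010000000000000004000300000000000000000000))) (.non (nat_lit 0) (nat_lit 6) (nat_lit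 0x5100540) (nat_lit 0x10001000000010000000000000000000100010001000000000000))) (.non (nat_lit 0) (nat_lit 5) (nat_lit 0x5100100) (nat_lit 0x10001000000010000000000000000000000010000000000000000))) (.non (nat_lit 0) (nat_lit 5) (nat_lit 0x5100140) (nat_lit 0x10001000000010000000000000000000000010001000000000000))) (.non (nat_lit 0) (nat_lit 5) (nat_lit 0x5100150) (nat_lit 0x10001000000010000000000000000000000010001000100000000))) (.non (nat_lit 0) (nat_lit 5) (nat_lit 0x5100154) (nat_lit 0x10001000000010000000000000000000000010001000100010000)))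

noncomputable def t1537_30 : Tr := (.split (nat_lit 0xc) (nat_lit 0) (.split (nat_lit 0xc) (nat_lit 1) (.split (nat_lit 0xc) (nat_lit 2) (.split (nat_lit 0xc) (nat_lit 3) (.split (nat_lit 0xc) (nat_lit 4) (.split (nat_lit 0xc) (nat_lit 5) (.split (nat_lit 0xc) (nat_lit 6) (.split (nat_lit 0xc) (nat_lit 7) (.split (nat_lit 0xc) (nat_lit 8) (.split (nat_lit 0xc) (nat_lit 9) (.split (nat_lit 0xc) (nat_lit 0xb) (.st (nat_lit 0xa) (nat_lit 0) (nat_lit 6) (nat_lit 0x1100550) (nat_lit 0x1000000020000000000000000000100020002000100000000) (nat_lit 1) (nat_lit 1) (.split (nat_lit 0xc) (nat_lit 0xa) (.ex (nat_lit 0xc) (.leaf (.cons (nat_lit 0x101540) (nat_lit 0x10000000000000003000400020003000000000000) (.cons (nat_lit 0x415400) (nat_lit 0x100000000000200030004000300000000000000000000) (.cons (nat_lit 0x455) (nat_lit 0x100000002000300040003) .nil))) (.cons (nat_lit 0x1010000111110) (nat_lit 0x1000001) (nat_lit 0xd) (nat_lit 0x6050000140230) (.cons (nat_lit 0x1010000111100) (nat_lit 0x1000010) (nat_lit 9) (nat_lit 0x5040000230100)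 .nil))) (.split (nat_lit 0xd) (nat_lit 0) t1537_29 (.non (nat_lit 2) (nat_lit 5) (nat_lit 0x5100005) (nat_lit 0x30002000000010000000000000000000000000000000000030004)))) (.non (nat_lit 0) (nat_lit 6) (nat_lit 0x2100550) (nat_lit 0x1000000020000000000000000000100020002000100000000)))) (.non (nat_lit 0) (nat_lit 5) (nat_lit 0x1555140) (nat_lit 0x4000500030003000600040002000000020001000000000000))) (.non (nat_lit 0) (nat_lit 5) (nat_lit 0x1555140) (nat_lit 0x4000300030005000600040002000000020001000000000000))) (.non (nat_lit 0) (nat_lit 5) (nat_lit 0x1454000) (nat_lit 0x1000100000001000200010000000000000000000000000000))) (.non (nat_lit 0) (nat_lit 5) (nat_lit 0x1455000) (nat_lit 0x1000100000001000200020001000000000000000000000000))) (.non (nat_lit 3) (nat_lit 7) (nat_lit 0x1101500) (nat_lit 0x3000000020000000000000004000300010000000000000000))) (.non (nat_lit 0) (nat_lit 6) (nat_lit 0x1100540) (nat_lit 0x1000000010000000000000000000100010001000000000000))) (.non (nat_lit 0) (nat_lit 5) (nat_lit 0x1100100) (nat_lit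 0x1000000010000000000000000000000010000000000000000))) (.non (nat_lit 0) (nat_lit 5) (nat_lit 0x1100140) (nat_lit 0x1000000010000000000000000000000010001000000000000))) (.non (nat_lit 0) (nat_lit 5) (nat_lit 0x1100150) (nat_lit 0x1000000010000000000000000000000010001000100000000))) (.non (nat_lit 0) (nat_lit 5) (nat_lit 0x1100154) (nat_lit 0x1000000010000000000000000000000010001000100010000))) (.non (nat_lit 2) (nat_lit 5) (nat_lit 0x1100105) (nat_lit 0x3000000020000000000000000000000010000000000030004)))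

noncomputable def t1537_31 : Tr := (.split (nat_lit 0xd) (nat_lit 1) (.split (nat_lit 0xd) (nat_lit 2) (.split (nat_lit 0xd) (nat_lit 3) (.split (nat_lit 0xd) (nat_lit 4) (.split (nat_lit 0xd) (nat_lit 5) (.split (nat_lit 0xd) (nat_lit 6) (.split (nat_lit 0xd) (nat_lit 7) (.split (nat_lit 0xd) (nat_lit 8) (.split (nat_lit 0xd) (nat_lit 9) (.split (nat_lit 0xd) (nat_lit 0xa) (.split (nat_lit 0xd) (nat_lit 0xb) (.st (nat_lit 0xc) (nat_lit 0) (nat_lit 6) (nat_lit 0x5100550) (nat_lit 0x10002000000020000000000000000000100020002000100000000) (nat_lit 1) (nat_lit 1) (.st (nat_lit 0xd) (nat_lit 0) (nat_lit 6) (nat_lit 0x5100554) (nat_lit 0x20003000000040000000000000000000300050006000400020000) (nat_lit 1) (nat_lit 1) (.split (nat_lit 0xd) (nat_lit 0xc) (.leaf (.cons (nat_lit 0x101540) (nat_lit 0x10000000000000003000400020003000000000000) (.cons (nat_lit 0x415400) (nat_lit 0x100000000000100020002000200000000000000000000) (.cons (nat_lit 0x455) (nat_lit 0x100000002000300040003) .nil))) (.cons (nat_lit 0x11010000111110)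 (nat_lit 0x1000001) (nat_lit 0xe) (nat_lit 0x76050000140230) (.cons (nat_lit 0x11010000111000) (nat_lit 0x1000100) (nat_lit 4) (nat_lit 0x54030000021000) .nil))) (.non (nat_lit 0) (nat_lit 6) (nat_lit 0x9100550) (nat_lit 0x10002000000020000000000000000000100020002000100000000))))) (.non (nat_lit 0) (nat_lit 5) (nat_lit 0x5555100) (nat_lit 0x40003000500020002000400060003000000010000000000000000))) (.non (nat_lit 0) (nat_lit 5) (nat_lit 0x5100000) (nat_lit 0x10001000000010000000000000000000000000000000000000000))) (.non (nat_lit 0) (nat_lit 6) (nat_lit 0x5140554) (nat_lit 0x20003000000040001000000000000000300050006000400020000))) (.non (nat_lit 0) (nat_lit 5) (nat_lit 0x4455000) (nat_lit 0x10000000100000001000200020001000000000000000000000000))) (.non (nat_lit 0) (nat_lit 5) (nat_lit 0x4415000) (nat_lit 0x10000000100000000000100020001000000000000000000000000))) (.non (nat_lit 0) (nat_lit 5) (nat_lit 0x5555100) (nat_lit 0x40003000300020002000400060005000000010000000000000000))) (.non (nat_lit 0) (nat_lit 6) (nat_lit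 0x5100540) (nat_lit 0x10001000000010000000000000000000100010001000000000000))) (.non (nat_lit 0) (nat_lit 5) (nat_lit 0x5100100) (nat_lit 0x10001000000010000000000000000000000010000000000000000))) (.non (nat_lit 0) (nat_lit 5) (nat_lit 0x5100140) (nat_lit 0x10001000000010000000000000000000000010001000000000000))) (.non (nat_lit 0) (nat_lit 5) (nat_lit 0x5100150) (nat_lit 0x10001000000010000000000000000000000010001000100000000))) (.non (nat_lit 0) (nat_lit 5) (nat_lit 0x5100154) (nat_lit 0x10001000000010000000000000000000000010001000100010000)))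

noncomputable def t1537_32 : Tr := (.ex (nat_lit 9) (.ex (nat_lit 0xc) (.leaf (.cons (nat_lit 0x101540) (nat_lit 0x10000000000000003000400020003000000000000) (.cons (nat_lit 0x415400) (nat_lit 0x100000000000100020002000200000000000000000000) (.cons (nat_lit 0x455) (nat_lit 0x100000002000300040003) .nil))) (.cons (nat_lit 0x1010000111110) (nat_lit 0x1000001) (nat_lit 0xd) (nat_lit 0x6050000140230) (.cons (nat_lit 0x1010000111100) (nat_lit 0x1000010) (nat_lit 9) (nat_lit 0x5040000230100) .nil))) (.split (nat_lit 0xd) (nat_lit 0) t1537_31 (.non (nat_lit 2) (nat_lit 5) (nat_lit 0x5100005) (nat_lit 0x30002000000010000000000000000000000000000000000030004)))) (.split (nat_lit 0xd) (nat_lit 0) (.split (nat_lit 0xd) (nat_lit 1) (.split (nat_lit 0xd) (nat_lit 2) (.split (nat_lit 0xd) (nat_lit 3) (.split (nat_lit 0xd) (nat_lit 4) (.split (nat_lit 0xd) (nat_lit 5) (.split (nat_lit 0xd) (nat_lit 6) (.split (nat_lit 0xd) (nat_lit 7) (.split (nat_lit 0xd) (nat_lit 8) (.split (nat_lit 0xd) (nat_lit 0xa) (.split (nat_lit 0xd)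 (nat_lit 0xb) (.split (nat_lit 0xd) (nat_lit 0xc) (.sup (nat_lit 0x50000000b0000000a001000150010000700000000000000000000) (nat_lit 0x300000006000000000000000000000009000c00160020001a)) (.non (nat_lit 0) (nat_lit 6) (nat_lit 0x5140554) (nat_lit 0x20003000000040001000000000000000300050006000400020000))) (.non (nat_lit 0) (nat_lit 5) (nat_lit 0x4454000) (nat_lit 0x10000000100000001000100010000000000000000000000000000))) (.non (nat_lit 0) (nat_lit 5) (nat_lit 0x5555100) (nat_lit 0x20001000100020002000200020001000000010000000000000000))) (.non (nat_lit 0) (nat_lit 5) (nat_lit 0x4050000) (nat_lit 0x10000000000000001000100000000000000000000000000000000))) (.non (nat_lit 0) (nat_lit 5) (nat_lit 0x4054000) (nat_lit 0x10000000000000001000100010000000000000000000000000000))) (.non (nat_lit 0) (nat_lit 5) (nat_lit 0x4055000) (nat_lit 0x10000000000000001000100010001000000000000000000000000))) (.non (nat_lit 0) (nat_lit 6) (nat_lit 0x5140550) (nat_lit 0x20001000000020001000000000000000300030004000200000000))) (.non (nat_lit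 0) (nat_lit 5) (nat_lit 0x5554140) (nat_lit 0x50002000100040004000300020000000000060003000000000000))) (.non (nat_lit 0) (nat_lit 5) (nat_lit 0x5150150) (nat_lit 0x30001000000020002000100000000000000030004000200000000))) (.non (nat_lit 0) (nat_lit 5) (nat_lit 0x4455054) (nat_lit 0x20000000100000002000200020001000000000001000200010000))) (.non (nat_lit 0) (nat_lit 6) (nat_lit 0x5100554) (nat_lit 0x10001000000020000000000000000000200030004000300020000))) (.non (nat_lit 2) (nat_lit 5) (nat_lit 0x4050005) (nat_lit 0x30000000000000002000100000000000000000000000000030004))))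

noncomputable def t1537_33 : Tr := (.pd (.cons (nat_lit 3) (nat_lit 8) (nat_lit 0x10000010000) (nat_lit 0x7490655a0100) (nat_lit 0xf423f00001f423f00000b71aea2c28047370000100000f423fb71ae1f156) .nil) (.split (nat_lit 0xa) (nat_lit 4) (.ex (nat_lit 0xa) (.leaf (.cons (nat_lit 0x101540) (nat_lit 0x10000000000000003000400020003000000000000) (.cons (nat_lit 0x415400) (nat_lit 0x100000000000100020002000200000000000000000000) (.cons (nat_lit 0x455) (nat_lit 0x100000002000300040003) .nil))) (.cons (nat_lit 0x10000111110) (nat_lit 0x1000001) (nat_lit 0xc) (nat_lit 0x50000140230) .nil)) (.split (nat_lit 0xc) (nat_lit 0) (.split (nat_lit 0xc) (nat_lit 1) (.split (nat_lit 0xc) (nat_lit 2) (.split (nat_lit 0xc) (nat_lit 3) (.split (nat_lit 0xc) (nat_lit 4) (.split (nat_lit 0xc) (nat_lit 5) (.split (nat_lit 0xc) (nat_lit 6) (.split (nat_lit 0xc) (nat_lit 7) (.split (nat_lit 0xc) (nat_lit 8) (.split (nat_lit 0xc) (nat_lit 9) (.split (nat_lit 0xc) (nat_lit 0xb) (.st (nat_lit 0xa) (nat_lit 0) (nat_lit 6) (nat_lit 0x1100550)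 (nat_lit 0x1000000020000000000000000000100020002000100000000) (nat_lit 1) (nat_lit 1) (.split (nat_lit 0xc) (nat_lit 0xa) t1537_32 (.non (nat_lit 0) (nat_lit 6) (nat_lit 0x2100550) (nat_lit 0x1000000020000000000000000000100020002000100000000)))) (.non (nat_lit 0) (nat_lit 5) (nat_lit 0x1555140) (nat_lit 0x4000500030002000400060003000000020001000000000000))) (.non (nat_lit 0) (nat_lit 6) (nat_lit 0x1150554) (nat_lit 0x3000000040002000100000000000300050006000400020000))) (.non (nat_lit 0) (nat_lit 5) (nat_lit 0x1455000) (nat_lit 0x1000100000001000200020001000000000000000000000000))) (.non (nat_lit 0) (nat_lit 5) (nat_lit 0x1415000) (nat_lit 0x1000100000000000100020001000000000000000000000000))) (.non (nat_lit 0) (nat_lit 5) (nat_lit 0x1555140) (nat_lit 0x4000300030002000400060005000000020001000000000000))) (.non (nat_lit 0) (nat_lit 6) (nat_lit 0x1100540) (nat_lit 0x1000000010000000000000000000100010001000000000000))) (.non (nat_lit 0) (nat_lit 5) (nat_lit 0x1100100) (nat_lit 0x1000000010000000000000000000000010000000000000000)))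 (.non (nat_lit 0) (nat_lit 5) (nat_lit 0x1100140) (nat_lit 0x1000000010000000000000000000000010001000000000000))) (.non (nat_lit 0) (nat_lit 5) (nat_lit 0x1100150) (nat_lit 0x1000000010000000000000000000000010001000100000000))) (.non (nat_lit 0) (nat_lit 5) (nat_lit 0x1100154) (nat_lit 0x1000000010000000000000000000000010001000100010000))) (.non (nat_lit 2) (nat_lit 5) (nat_lit 0x1100105) (nat_lit 0x3000000020000000000000000000000010000000000030004)))) (.non (nat_lit 0) (nat_lit 6) (nat_lit 0x200550) (nat_lit 0x10000000000000000000100020002000100000000))))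

noncomputable def t1537_34 : Tr := (.split (nat_lit 0xb) (nat_lit 8) (.split (nat_lit 0xb) (nat_lit 9) (.split (nat_lit 0xb) (nat_lit 0xa) (.st (nat_lit 7) (nat_lit 0) (nat_lit 5) (nat_lit 0x415000) (nat_lit 0x100000000000100020001000000000000000000000000) (nat_lit 1) (nat_lit 1) (.st (nat_lit 8) (nat_lit 0) (nat_lit 5) (nat_lit 0x455000) (nat_lit 0x100000001000200020001000000000000000000000000) (nat_lit 1) (nat_lit 1) (.ex (nat_lit 0xb) (.split (nat_lit 0xb) (nat_lit 7) t1537_33 (.non (nat_lit 0) (nat_lit 5) (nat_lit 0x815000) (nat_lit 0x100000000000100020001000000000000000000000000))) (.split (nat_lit 0xc) (nat_lit 0) (.split (nat_lit 0xc) (nat_lit 1) (.split (nat_lit 0xc) (nat_lit 2) (.split (nat_lit 0xc) (nat_lit 3) (.split (nat_lit 0xc) (nat_lit 4) (.split (nat_lit 0xc) (nat_lit 5) (.split (nat_lit 0xc) (nat_lit 6) (.split (nat_lit 0xc) (nat_lit 7) (.split (nat_lit 0xc) (nat_lit 8) (.split (nat_lit 0xc) (nat_lit 9) (.split (nat_lit 0xc) (nat_lit 0xa) (.sup (nat_lit 0x30007000000030007000a0007000200000000000000000000)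 (nat_lit 0x20000000000000000000000040007000b0010000d)) (.non (nat_lit 0) (nat_lit 5) (nat_lit 0x1555140) (nat_lit 0x4000500030002000400060003000000020001000000000000))) (.non (nat_lit 0) (nat_lit 5) (nat_lit 0x1454000) (nat_lit 0x1000100000001000100010000000000000000000000000000))) (.non (nat_lit 0) (nat_lit 5) (nat_lit 0x1414000) (nat_lit 0x1000100000000000100010000000000000000000000000000))) (.non (nat_lit 0) (nat_lit 5) (nat_lit 0x1404000) (nat_lit 0x1000100000000000000010000000000000000000000000000))) (.non (nat_lit 0) (nat_lit 5) (nat_lit 0x1405000) (nat_lit 0x1000100000000000000010001000000000000000000000000))) (.non (nat_lit 0) (nat_lit 6) (nat_lit 0x1514550) (nat_lit 0x4000300020000000100020000000500040006000300000000))) (.non (nat_lit 0) (nat_lit 5) (nat_lit 0x1515140) (nat_lit 0x2000200010000000100020001000000020001000000000000))) (.non (nat_lit 0) (nat_lit 5) (nat_lit 0x1555140) (nat_lit 0x4000500010002000400060003000000020003000000000000))) (.non (nat_lit 0) (nat_lit 5) (nat_lit 0x1455150) (nat_lit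 0x4000500000002000400060003000000010002000300000000))) (.non (nat_lit 0) (nat_lit 5) (nat_lit 0x1455054) (nat_lit 0x4000500000002000400060003000000000001000200030000))) (.non (nat_lit 2) (nat_lit 5) (nat_lit 0x1404005) (nat_lit 0x3000200000000000000010000000000000000000000030004)))))) (.non (nat_lit 0) (nat_lit 5) (nat_lit 0x555150) (nat_lit 0x500040002000400060003000000030002000100000000))) (.non (nat_lit 0) (nat_lit 5) (nat_lit 0x454000) (nat_lit 0x100000001000100010000000000000000000000000000))) (.non (nat_lit 0) (nat_lit 5) (nat_lit 0x414000) (nat_lit 0x100000000000100010000000000000000000000000000)))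

noncomputable def t1537_35 : Tr := (.ex (nat_lit 7) (.pd (.cons (nat_lit 3) (nat_lit 8) (nat_lit 0x10000010000) (nat_lit 0x490655a0100) (nat_lit 0x1f423f00000f423fb71ae1f1560000100000f423fb71ae1f156) .nil) (.ex (nat_lit 8) t1537_28 (.split (nat_lit 0xb) (nat_lit 0) (.split (nat_lit 0xb) (nat_lit 1) (.split (nat_lit 0xb) (nat_lit 2) (.split (nat_lit 0xb) (nat_lit 3) (.split (nat_lit 0xb) (nat_lit 4) (.split (nat_lit 0xb) (nat_lit 5) (.split (nat_lit 0xb) (nat_lit 6) (.split (nat_lit 0xb) (nat_lit 7) (.split (nat_lit 0xb) (nat_lit 9) (.split (nat_lit 0xb) (nat_lit 0xa) (.st (nat_lit 8) (nat_lit 0) (nat_lit 5) (nat_lit 0x454000) (nat_lit 0x100000001000200010000000000000000000000000000) (nat_lit 1) (nat_lit 1) (.split (nat_lit 0xa) (nat_lit 4) (.split (nat_lit 0xb) (nat_lit 8) (.ex (nat_lit 0xa) (.leaf (.cons (nat_lit 0x101540) (nat_lit 0x10000000000000003000400020003000000000000) (.cons (nat_lit 0x415400) (nat_lit 0x100000000000200030004000300000000000000000000) (.cons (nat_lit 0x455) (nat_lit 0x100000002000300040003)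 .nil))) (.cons (nat_lit 0x10000111110) (nat_lit 0x1000001) (nat_lit 0xc) (nat_lit 0x50000140230) .nil)) t1537_30) (.non (nat_lit 0) (nat_lit 5) (nat_lit 0x854000) (nat_lit 0x100000001000200010000000000000000000000000000))) (.non (nat_lit 0) (nat_lit 6) (nat_lit 0x200550) (nat_lit 0x10000000000000000000100020002000100000000)))) (.non (nat_lit 0) (nat_lit 5) (nat_lit 0x555150) (nat_lit 0x500040003000600040002000000030002000100000000))) (.non (nat_lit 0) (nat_lit 5) (nat_lit 0x450000) (nat_lit 0x100000001000100000000000000000000000000000000))) (.non (nat_lit 0) (nat_lit 5) (nat_lit 0x414000) (nat_lit 0x100000000000100010000000000000000000000000000))) (.non (nat_lit 0) (nat_lit 5) (nat_lit 0x415000) (nat_lit 0x100000000000100010001000000000000000000000000))) (.non (nat_lit 0) (nat_lit 6) (nat_lit 0x454550) (nat_lit 0x200000001000200010000000200010002000100000000))) (.non (nat_lit 0) (nat_lit 5) (nat_lit 0x554140) (nat_lit 0x200010001000200010000000000020001000000000000))) (.non (nat_lit 0) (nat_lit 5) (nat_lit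 0x454150) (nat_lit 0x200000001000200010000000000010002000100000000))) (.non (nat_lit 0) (nat_lit 5) (nat_lit 0x555150) (nat_lit 0x500010003000600040002000000020003000400000000))) (.non (nat_lit 0) (nat_lit 5) (nat_lit 0x455154) (nat_lit 0x500000003000600040002000000010002000300040000))) (.non (nat_lit 2) (nat_lit 5) (nat_lit 0x450005) (nat_lit 0x300000001000200000000000000000000000000030004))))) (.split (nat_lit 0xb) (nat_lit 0) (.split (nat_lit 0xb) (nat_lit 1) (.split (nat_lit 0xb) (nat_lit 2) (.split (nat_lit 0xb) (nat_lit 3) (.split (nat_lit 0xb) (nat_lit 4) (.split (nat_lit 0xb) (nat_lit 5) (.split (nat_lit 0xb) (nat_lit 6) t1537_34 (.non (nat_lit 0) (nat_lit 5) (nat_lit 0x405000) (nat_lit 0x100000000000000010001000000000000000000000000))) (.non (nat_lit 0) (nat_lit 6) (nat_lit 0x554550) (nat_lit 0x400020001000200030000000500040006000300000000))) (.non (nat_lit 0) (nat_lit 5) (nat_lit 0x515140) (nat_lit 0x200010000000100020001000000020001000000000000))) (.non (nat_lit 0) (nat_lit 5) (nat_lit 0x415150)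 (nat_lit 0x200000000000100020001000000010002000100000000))) (.non (nat_lit 0) (nat_lit 5) (nat_lit 0x555150) (nat_lit 0x500010002000400060003000000020003000400000000))) (.non (nat_lit 0) (nat_lit 5) (nat_lit 0x455154) (nat_lit 0x500000002000400060003000000010002000300040000))) (.non (nat_lit 2) (nat_lit 5) (nat_lit 0x414005) (nat_lit 0x300000000000100020000000000000000000000030004))))

noncomputable def t1537_36 : Tr := (.split (nat_lit 0xd) (nat_lit 1) (.split (nat_lit 0xd) (nat_lit 2) (.split (nat_lit 0xd) (nat_lit 3) (.split (nat_lit 0xd) (nat_lit 4) (.split (nat_lit 0xd) (nat_lit 5) (.split (nat_lit 0xd) (nat_lit 6) (.split (nat_lit 0xd) (nat_lit 7) (.split (nat_lit 0xd) (nat_lit 8) (.split (nat_lit 0xd) (nat_lit 9) (.split (nat_lit 0xd) (nat_lit 0xa) (.split (nat_lit 0xd) (nat_lit 0xb) (.st (nat_lit 0xc) (nat_lit 0) (nat_lit 6) (nat_lit 0x5100550) (nat_lit 0x10002000000020000000000000000000100020002000100000000) (nat_lit 1) (nat_lit 1) (.st (nat_lit 0xd) (nat_lit 0) (nat_lit 6) (nat_lit 0x5100554) (nat_lit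 0x20003000000040000000000000000000300050006000400020000) (nat_lit 1) (nat_lit 1) (.split (nat_lit 0xd) (nat_lit 0xc) (.leaf (.cons (nat_lit 0x401440) (nat_lit 0x100000000000000000002000200000001000000000000) (.cons (nat_lit 0x405400) (nat_lit 0x100000000000000010002000200000000000000000000) (.cons (nat_lit 0x455) (nat_lit 0x100000002000300040003) .nil))) (.cons (nat_lit 0x11010000111110) (nat_lit 0x1000001) (nat_lit 0xe) (nat_lit 0x76050000140230) (.cons (nat_lit 0x11010000111000) (nat_lit 0x1000100) (nat_lit 4) (nat_lit 0x54030000021000) .nil))) (.non (nat_lit 0) (nat_lit 6) (nat_lit 0x9100550) (nat_lit 0x10002000000020000000000000000000100020002000100000000))))) (.non (nat_lit 0) (nat_lit 6) (nat_lit 0x5500554) (nat_lit 0x20003000100040000000000000000000300050006000400020000))) (.non (nat_lit 0) (nat_lit 5) (nat_lit 0x5100000) (nat_lit 0x10001000000010000000000000000000000000000000000000000))) (.non (nat_lit 0) (nat_lit 6) (nat_lit 0x5140554) (nat_lit 0x20003000000040001000000000000000300050006000400020000)))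 (.non (nat_lit 0) (nat_lit 5) (nat_lit 0x5555000) (nat_lit 0x30002000100010002000400030002000000000000000000000000))) (.non (nat_lit 0) (nat_lit 5) (nat_lit 0x5455000) (nat_lit 0x20001000100000001000200030002000000000000000000000000))) (.non (nat_lit 0) (nat_lit 5) (nat_lit 0x5555000) (nat_lit 0x30002000200010001000200030004000000000000000000000000))) (.non (nat_lit 0) (nat_lit 6) (nat_lit 0x5100540) (nat_lit 0x10001000000010000000000000000000100010001000000000000))) (.non (nat_lit 0) (nat_lit 5) (nat_lit 0x5100100) (nat_lit 0x10001000000010000000000000000000000010000000000000000))) (.non (nat_lit 0) (nat_lit 5) (nat_lit 0x5100140) (nat_lit 0x10001000000010000000000000000000000010001000000000000))) (.non (nat_lit 0) (nat_lit 5) (nat_lit 0x5100150) (nat_lit 0x10001000000010000000000000000000000010001000100000000))) (.non (nat_lit 0) (nat_lit 5) (nat_lit 0x5100154) (nat_lit 0x10001000000010000000000000000000000010001000100010000)))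

noncomputable def t1537_37 : Tr := (.split (nat_lit 0xc) (nat_lit 0) (.split (nat_lit 0xc) (nat_lit 1) (.split (nat_lit 0xc) (nat_lit 2) (.split (nat_lit 0xc) (nat_lit 3) (.split (nat_lit 0xc) (nat_lit 4) (.split (nat_lit 0xc) (nat_lit 5) (.split (nat_lit 0xc) (nat_lit 6) (.split (nat_lit 0xc) (nat_lit 7) (.split (nat_lit 0xc) (nat_lit 8) (.split (nat_lit 0xc) (nat_lit 9) (.split (nat_lit 0xc) (nat_lit 0xb) (.st (nat_lit 0xa) (nat_lit 0) (nat_lit 6) (nat_lit 0x1100550) (nat_lit 0x1000000020000000000000000000100020002000100000000) (nat_lit 1) (nat_lit 1) (.split (nat_lit 0xc) (nat_lit 0xa) (.ex (nat_lit 0xc) (.leaf (.cons (nat_lit 0x401440) (nat_lit 0x100000000000000000002000200000001000000000000) (.cons (nat_lit 0x405400) (nat_lit 0x100000000000000010002000200000000000000000000) (.cons (nat_lit 0x455) (nat_lit 0x100000002000300040003) .nil))) (.cons (nat_lit 0x1010000111110) (nat_lit 0x1000001) (nat_lit 0xd) (nat_lit 0x6050000140230) (.cons (nat_lit 0x1010000111100) (nat_lit 0x1000010) (nat_lit 9) (nat_lit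 0x5040000230100) .nil))) (.split (nat_lit 0xd) (nat_lit 0) t1537_36 (.non (nat_lit 2) (nat_lit 5) (nat_lit 0x5100005) (nat_lit 0x30002000000010000000000000000000000000000000000030004)))) (.non (nat_lit 0) (nat_lit 6) (nat_lit 0x2100550) (nat_lit 0x1000000020000000000000000000100020002000100000000)))) (.non (nat_lit 3) (nat_lit 7) (nat_lit 0x1501400) (nat_lit 0x2000300010000000000000004000300000000000000000000))) (.non (nat_lit 0) (nat_lit 6) (nat_lit 0x1150554) (nat_lit 0x3000000040002000100000000000300050006000400020000))) (.non (nat_lit 0) (nat_lit 5) (nat_lit 0x1555100) (nat_lit 0x3000100020002000400030002000000010000000000000000))) (.non (nat_lit 0) (nat_lit 5) (nat_lit 0x1555000) (nat_lit 0x2000100010001000200030002000000000000000000000000))) (.non (nat_lit 0) (nat_lit 5) (nat_lit 0x1555100) (nat_lit 0x3000200020001000200030004000000010000000000000000))) (.non (nat_lit 0) (nat_lit 6) (nat_lit 0x1100540) (nat_lit 0x1000000010000000000000000000100010001000000000000))) (.non (nat_lit 0) (nat_lit 5) (nat_lit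 0x1100100) (nat_lit 0x1000000010000000000000000000000010000000000000000))) (.non (nat_lit 0) (nat_lit 5) (nat_lit 0x1100140) (nat_lit 0x1000000010000000000000000000000010001000000000000))) (.non (nat_lit 0) (nat_lit 5) (nat_lit 0x1100150) (nat_lit 0x1000000010000000000000000000000010001000100000000))) (.non (nat_lit 0) (nat_lit 5) (nat_lit 0x1100154) (nat_lit 0x1000000010000000000000000000000010001000100010000))) (.non (nat_lit 2) (nat_lit 5) (nat_lit 0x1100105) (nat_lit 0x3000000020000000000000000000000010000000000030004)))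

noncomputable def t1537_38 : Tr := (.split (nat_lit 0xc) (nat_lit 3) (.split (nat_lit 0xc) (nat_lit 4) (.split (nat_lit 0xc) (nat_lit 5) (.split (nat_lit 0xc) (nat_lit 6) (.split (nat_lit 0xc) (nat_lit 7) (.split (nat_lit 0xc) (nat_lit 8) (.split (nat_lit 0xc) (nat_lit 9) (.split (nat_lit 0xc) (nat_lit 0xa) (.sup (nat_lit 0x2000500000002000400050007000300000000000000000000) (nat_lit 0x20000000000000000000000040006000b0010000d)) (.st (nat_lit 7) (nat_lit 0) (nat_lit 5) (nat_lit 0x1555100) (nat_lit 0x3000400020002000400060005000000010000000000000000) (nat_lit 1) (nat_lit 3) (.st (nat_lit 0xa) (nat_lit 0) (nat_lit 5) (nat_lit 0x1515140) (nat_lit 0x5000400060000000100020003000000040002000000000000) (nat_lit 1) (nat_lit 3) (.st (nat_lit 0xb) (nat_lit 0) (nat_lit 5) (nat_lit 0x1515100) (nat_lit 0x3000400020000000100020003000000010000000000000000) (nat_lit 1) (nat_lit 2) (.st (nat_lit 0xc) (nat_lit 0) (nat_lit 5) (nat_lit 0x1555100) (nat_lit 0x6000500040001000200030004000000020000000000000000) (nat_lit 1) (nat_lit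 3) (.split (nat_lit 0xc) (nat_lit 0xa) (.split (nat_lit 0xc) (nat_lit 0xb) (.split (nat_lit 0xa) (nat_lit 4) (.leaf (.cons (nat_lit 0x1501400) (nat_lit 0x2000300010000000000000004000300000000000000000000) (.cons (nat_lit 0x455) (nat_lit 0x100000002000300040003) .nil)) (.cons (nat_lit 0x1110000111110) (nat_lit 0x1000001) (nat_lit 0xe) (nat_lit 0x6750000140230) (.cons (nat_lit 0x1110000111000) (nat_lit 0x1000100) (nat_lit 4) (nat_lit 0x4530000021000) .nil))) (.non (nat_lit 0) (nat_lit 5) (nat_lit 0x2a00140) (nat_lit 0x2000100030000000000000000000000040002000000000000))) (.non (nat_lit 0) (nat_lit 5) (nat_lit 0x2605000) (nat_lit 0x2000300010000000000010002000000000000000000000000))) (.non (nat_lit 0) (nat_lit 5) (nat_lit 0x2902100) (nat_lit 0x3000200040000000000000001000000020000000000000000)))))))) (.non (nat_lit 0) (nat_lit 5) (nat_lit 0x1455000) (nat_lit 0x1000100000001000100010001000000000000000000000000))) (.non (nat_lit 0) (nat_lit 5) (nat_lit 0x1415000) (nat_lit 0x1000100000000000100010001000000000000000000000000)))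 (.non (nat_lit 0) (nat_lit 5) (nat_lit 0x1405000) (nat_lit 0x1000100000000000000010001000000000000000000000000))) (.non (nat_lit 0) (nat_lit 5) (nat_lit 0x1401000) (nat_lit 0x1000100000000000000000001000000000000000000000000))) (.non (nat_lit 0) (nat_lit 6) (nat_lit 0x1100554) (nat_lit 0x1000000010000000000000000000200020003000200010000))) (.non (nat_lit 0) (nat_lit 5) (nat_lit 0x1515150) (nat_lit 0x5000400030000000100020003000000060004000200000000))) (.non (nat_lit 0) (nat_lit 5) (nat_lit 0x1515150) (nat_lit 0x5000400020000000100020003000000040006000300000000)))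

noncomputable def t1537_39 : Tr := (.ex (nat_lit 6) (.ex (nat_lit 0xb) (.split (nat_lit 0xb) (nat_lit 6) (.pd (.cons (nat_lit 3) (nat_lit 7) (nat_lit 0x10000010000) (nat_lit 0x6488055a0100) (nat_lit 0xf423f00001f423fb71ae00000b71ae1f1560000100000f423fb71ae1f156) .nil) (.split (nat_lit 0xa) (nat_lit 4) (.ex (nat_lit 0xa) (.leaf (.cons (nat_lit 0x401440) (nat_lit 0x100000000000000000002000200000001000000000000) (.cons (nat_lit 0x405400) (nat_lit 0x100000000000000010002000200000000000000000000) (.cons (nat_lit 0x455) (nat_lit 0x100000002000300040003) .nil))) (.cons (nat_lit 0x10000111110) (nat_lit 0x1000001) (nat_lit 0xc) (nat_lit 0x50000140230) .nil)) t1537_37) (.non (nat_lit 0) (nat_lit 6) (nat_lit 0x200550) (nat_lit 0x10000000000000000000100020002000100000000)))) (.sup (nat_lit 0x200000001000100020003000100000000000000000000) (nat_lit 0x10000000000000000000000030004000600080006))) (.split (nat_lit 0xc) (nat_lit 0) (.split (nat_lit 0xc) (nat_lit 1) (.split (nat_lit 0xc) (nat_lit 2) t1537_38 (.non (nat_lit 0)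 (nat_lit 5) (nat_lit 0x1501154) (nat_lit 0x3000200010000000000000001000000020003000400020000))) (.non (nat_lit 2) (nat_lit 5) (nat_lit 0x1401005) (nat_lit 0x3000200000000000000000001000000000000000000040003))) (.non (nat_lit 2) (nat_lit 5) (nat_lit 0x1401005) (nat_lit 0x3000200000000000000000001000000000000000000030004)))) (.split (nat_lit 0xc) (nat_lit 0) (.split (nat_lit 0xc) (nat_lit 1) (.split (nat_lit 0xc) (nat_lit 2) (.split (nat_lit 0xc) (nat_lit 3) (.split (nat_lit 0xc) (nat_lit 4) (.split (nat_lit 0xc) (nat_lit 5) (.split (nat_lit 0xc) (nat_lit 7) (.split (nat_lit 0xc) (nat_lit 8) (.split (nat_lit 0xc) (nat_lit 9) (.split (nat_lit 0xc) (nat_lit 0xa) (.split (nat_lit 0xc) (nat_lit 0xb) (.sup (nat_lit 0x2000200000001000100020003000100000000000000000000) (nat_lit 0x10000000000000000000000030004000600080006)) (.non (nat_lit 0) (nat_lit 5) (nat_lit 0x1401000) (nat_lit 0x1000100000000000000000001000000000000000000000000))) (.non (nat_lit 0) (nat_lit 5) (nat_lit 0x1555100) (nat_lit 0x3000200020001000200030004000000010000000000000000)))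 (.non (nat_lit 0) (nat_lit 5) (nat_lit 0x1055000) (nat_lit 0x1000000000001000100010001000000000000000000000000))) (.non (nat_lit 0) (nat_lit 5) (nat_lit 0x1015000) (nat_lit 0x1000000000000000100010001000000000000000000000000))) (.non (nat_lit 0) (nat_lit 5) (nat_lit 0x1005000) (nat_lit 0x1000000000000000000010001000000000000000000000000))) (.non (nat_lit 0) (nat_lit 6) (nat_lit 0x1100554) (nat_lit 0x1000000010000000000000000000200020003000200010000))) (.non (nat_lit 0) (nat_lit 5) (nat_lit 0x1555100) (nat_lit 0x3000200010001000200030004000000020000000000000000))) (.non (nat_lit 0) (nat_lit 5) (nat_lit 0x1455140) (nat_lit 0x3000200000001000200030004000000010002000000000000))) (.non (nat_lit 0) (nat_lit 5) (nat_lit 0x1455050) (nat_lit 0x3000200000001000200030004000000000001000200000000))) (.star (nat_lit 0xc) (nat_lit 1) (nat_lit 6))) (.star (nat_lit 0xc) (nat_lit 0) (nat_lit 6))))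

noncomputable def t1537_40 : Tr := (.ex (nat_lit 6) (.pd (.cons (nat_lit 3) (nat_lit 7) (nat_lit 0x10000010000) (nat_lit 0x488055a0100) (nat_lit 0x1f423fb71ae00000f423f545910000100000f423fb71ae1f156) .nil) t1537_35) (.split (nat_lit 0xb) (nat_lit 0) (.split (nat_lit 0xb) (nat_lit 1) (.split (nat_lit 0xb) (nat_lit 2) (.split (nat_lit 0xb) (nat_lit 3) (.split (nat_lit 0xb) (nat_lit 4) (.split (nat_lit 0xb) (nat_lit 5) (.split (nat_lit 0xb) (nat_lit 7) (.split (nat_lit 0xb) (nat_lit 8) (.split (nat_lit 0xb) (nat_lit 9) (.split (nat_lit 0xb) (nat_lit 0xa) t1537_39 (.st (nat_lit 6) (nat_lit 0) (nat_lit 5) (nat_lit 0x555100) (nat_lit 0x300020001000200030004000000010000000000000000) (nat_lit 1) (nat_lit 2) (.st (nat_lit 7) (nat_lit 0) (nat_lit 5) (nat_lit 0x555140) (nat_lit 0x400030002000400060005000000020001000000000000) (nat_lit 1) (nat_lit 3) (.st (nat_lit 0xa) (nat_lit 0) (nat_lit 5) (nat_lit 0x555140) (nat_lit 0x500060001000200030004000000040002000000000000) (nat_lit 1) (nat_lit 3) (.st (nat_lit 0xb) (nat_lit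 0) (nat_lit 5) (nat_lit 0x515140) (nat_lit 0x400030000000100020003000000020001000000000000) (nat_lit 1) (nat_lit 2) (.split (nat_lit 0xb) (nat_lit 0xa) (.split (nat_lit 0xa) (nat_lit 4) (.leaf (.cons (nat_lit 0x501500) (nat_lit 0x300020000000000000004000300010000000000000000) (.cons (nat_lit 0x455) (nat_lit 0x100000002000300040003) .nil)) (.cons (nat_lit 0x110000111110) (nat_lit 0x1000001) (nat_lit 0xd) (nat_lit 0x650000140230) (.cons (nat_lit 0x110000111100) (nat_lit 0x1000010) (nat_lit 9) (nat_lit 0x540000230100) .nil))) (.non (nat_lit 0) (nat_lit 5) (nat_lit 0xa02140) (nat_lit 0x200030000000000000001000000040002000000000000))) (.non (nat_lit 0) (nat_lit 5) (nat_lit 0x90a100) (nat_lit 0x300040000000000010002000000020000000000000000)))))))) (.non (nat_lit 0) (nat_lit 5) (nat_lit 0x455000) (nat_lit 0x100000001000100010001000000000000000000000000))) (.non (nat_lit 0) (nat_lit 5) (nat_lit 0x415000) (nat_lit 0x100000000000100010001000000000000000000000000))) (.non (nat_lit 0) (nat_lit 5) (nat_lit 0x405000) (nat_lit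 0x100000000000000010001000000000000000000000000))) (.non (nat_lit 0) (nat_lit 6) (nat_lit 0x500554) (nat_lit 0x100010000000000000000000200020003000200010000))) (.non (nat_lit 0) (nat_lit 5) (nat_lit 0x555150) (nat_lit 0x500030001000200030004000000060004000200000000))) (.non (nat_lit 0) (nat_lit 5) (nat_lit 0x555150) (nat_lit 0x500020001000200030004000000040006000300000000))) (.non (nat_lit 0) (nat_lit 5) (nat_lit 0x505154) (nat_lit 0x300010000000000010002000000020003000400020000))) (.star (nat_lit 0xb) (nat_lit 1) (nat_lit 6))) (.star (nat_lit 0xb) (nat_lit 0) (nat_lit 6))))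

noncomputable def t1537_41 : Tr := (.split (nat_lit 0xa) (nat_lit 1) (.split (nat_lit 0xa) (nat_lit 2) (.split (nat_lit 0xa) (nat_lit 3) (.split (nat_lit 0xa) (nat_lit 5) (.split (nat_lit 0xa) (nat_lit 7) (.split (nat_lit 0xa) (nat_lit 8) (.split (nat_lit 0xa) (nat_lit 9) (.split (nat_lit 0xa) (nat_lit 6) (.st (nat_lit 5) (nat_lit 0) (nat_lit 6) (nat_lit 0x100554) (nat_lit 0x10000000000000000000200020003000200010000) (nat_lit 1) (nat_lit 1) (.st (nat_lit 4) (nat_lit 0) (nat_lit 6) (nat_lit 0x100550) (nat_lit 0x10000000000000000000100020002000100000000) (nat_lit 1) (nat_lit 1) t1537_40)) (.st (nat_lit 4) (nat_lit 0) (nat_lit 5) (nat_lit 0x155150) (nat_lit 0x50001000200030004000000060004000200000000) (nat_lit 1) (nat_lit 3) (.st (nat_lit 5) (nat_lit 0) (nat_lit 6) (nat_lit 0x100554) (nat_lit 0x10000000000000000000200020003000200010000) (nat_lit 1) (nat_lit 1) (.st (nat_lit 6) (nat_lit 0) (nat_lit 5) (nat_lit 0x155140) (nat_lit 0x30001000200030004000000020001000000000000) (nat_lit 1) (nat_lit 2) (.st (nat_lit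 0xa) (nat_lit 0) (nat_lit 5) (nat_lit 0x115150) (nat_lit 0x40000000100020003000000030002000100000000) (nat_lit 1) (nat_lit 2) (.split (nat_lit 0xa) (nat_lit 4) (.split (nat_lit 0xa) (nat_lit 6) (.pd (.cons (nat_lit 3) (nat_lit 7) (nat_lit 0) (nat_lit 0x4880a640100) (nat_lit 0x437a2f423fb71ae0000054591f423f174ea00000f423fb71ae1f156) .nil) (.leaf (.cons (nat_lit 0x101440) (nat_lit 0x10000000000000002000200000001000000000000) (.cons (nat_lit 0x105400) (nat_lit 0x10000000000010002000200000000000000000000) (.cons (nat_lit 0x455) (nat_lit 0x100000002000300040003) .nil))) (.cons (nat_lit 0x10000111110) (nat_lit 0x1000001) (nat_lit 0xc) (nat_lit 0x50000140230) .nil))) (.non (nat_lit 0) (nat_lit 5) (nat_lit 0x12a100) (nat_lit 0x40000000100020003000000020000000000000000))) (.non (nat_lit 0) (nat_lit 5) (nat_lit 0x20a140) (nat_lit 0x30000000000010002000000040002000000000000)))))))) (.non (nat_lit 0) (nat_lit 6) (nat_lit 0x154554) (nat_lit 0x40003000200010000000300050006000400020000))) (.non (nat_lit 0) (nat_lit 5) (nat_lit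 0x155154) (nat_lit 0x50003000600040002000000040003000200010000))) (.non (nat_lit 0) (nat_lit 5) (nat_lit 0x155154) (nat_lit 0x50002000400060003000000040003000200010000))) (.non (nat_lit 0) (nat_lit 6) (nat_lit 0x100540) (nat_lit 0x10000000000000000000100010001000000000000))) (.non (nat_lit 0) (nat_lit 5) (nat_lit 0x100140) (nat_lit 0x10000000000000000000000010001000000000000))) (.non (nat_lit 0) (nat_lit 5) (nat_lit 0x100150) (nat_lit 0x10000000000000000000000010001000100000000))) (.non (nat_lit 0) (nat_lit 5) (nat_lit 0x100154) (nat_lit 0x10000000000000000000000010001000100010000)))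

noncomputable def t1537_42 : Tr := (.pd (.cons (nat_lit 2) (nat_lit 5) (nat_lit 0) (nat_lit 0x8766033000) (nat_lit 0xf423fb71aea2c289896500000f423fb71ae00000f423f54591) (.cons (nat_lit 2) (nat_lit 6) (nat_lit 0) (nat_lit 0x8770333000) (nat_lit 0xf423fb71aea2c2800000f423ff423f7a11d00000f423f54591) (.cons (nat_lit 3) (nat_lit 5) (nat_lit 0) (nat_lit 0x8766040100) (nat_lit 0xf423fb71aea2c289896500000f423f00000f423fb71ae1f156) (.cons (nat_lit 3) (nat_lit 6) (nat_lit 0) (nat_lit 0x8770540100) (nat_lit 0xf423fb71aea2c2800000f423ff423f00000f423fb71ae1f156) (.cons (nat_lit 4) (nat_lit 5) (nat_lit 0) (nat_lit 0x8766002100) (nat_lit 0xf423fb71aea2c28989650000000000f423fb71aea2c2804737) .nil))))) (.ex (nat_lit 4) (.ex (nat_lit 5) (.ex (nat_lit 6) (.pd (.cons (nat_lit 2) (nat_lit 7) (nat_lit 0) (nat_lit 0x8805333000) (nat_lit 0xf423fb71ae00000f423f54591f423f0671100000f423f54591) (.cons (nat_lit 3) (nat_lit 7) (nat_lit 0) (nat_lit 0x8805540100) (nat_lit 0xf423fb71ae00000f423f54591f423f00000f423fb71ae1f156) .nil)) t1537_14)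 (.split (nat_lit 0xa) (nat_lit 0) (.split (nat_lit 0xa) (nat_lit 1) (.split (nat_lit 0xa) (nat_lit 2) (.split (nat_lit 0xa) (nat_lit 3) (.split (nat_lit 0xa) (nat_lit 7) (.split (nat_lit 0xa) (nat_lit 8) (.split (nat_lit 0xa) (nat_lit 9) t1537_18 (.non (nat_lit 0) (nat_lit 5) (nat_lit 0x155000) (nat_lit 0x10001000100010001000000000000000000000000))) (.non (nat_lit 0) (nat_lit 5) (nat_lit 0x115000) (nat_lit 0x10000000100010001000000000000000000000000))) (.non (nat_lit 0) (nat_lit 5) (nat_lit 0x105000) (nat_lit 0x10000000000010001000000000000000000000000))) (.non (nat_lit 0) (nat_lit 5) (nat_lit 0x155154) (nat_lit 0x50001000200030004000000030006000400020000))) (.non (nat_lit 0) (nat_lit 5) (nat_lit 0x155154) (nat_lit 0x50001000200030004000000020004000600030000))) (.star (nat_lit 0xa) (nat_lit 1) (nat_lit 6))) (.star (nat_lit 0xa) (nat_lit 0) (nat_lit 6)))) (.split (nat_lit 0xa) (nat_lit 0) (.split (nat_lit 0xa) (nat_lit 1) (.split (nat_lit 0xa) (nat_lit 2) (.split (nat_lit 0xa) (nat_lit 3) (.split (nat_lit 0xa)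 (nat_lit 4) (.split (nat_lit 0xa) (nat_lit 7) (.split (nat_lit 0xa) (nat_lit 8) t1537_23 (.non (nat_lit 0) (nat_lit 6) (nat_lit 0x154550) (nat_lit 0x20001000200010000000200010002000100000000))) (.non (nat_lit 0) (nat_lit 6) (nat_lit 0x154554) (nat_lit 0x40001000200030000000500030006000400020000))) (.non (nat_lit 0) (nat_lit 6) (nat_lit 0x100540) (nat_lit 0x10000000000000000000100010001000000000000))) (.non (nat_lit 0) (nat_lit 6) (nat_lit 0x100440) (nat_lit 0x10000000000000000000100000001000000000000))) (.non (nat_lit 0) (nat_lit 6) (nat_lit 0x100450) (nat_lit 0x10000000000000000000100000001000100000000))) (.star (nat_lit 0xa) (nat_lit 1) (nat_lit 5))) (.star (nat_lit 0xa) (nat_lit 0) (nat_lit 5)))) (.split (nat_lit 0xa) (nat_lit 0) t1537_41 (.non (nat_lit 2) (nat_lit 5) (nat_lit 0x100145) (nat_lit 0x30000000000000000000000020001000000030004)))))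

noncomputable def t1537_43 : Tr := (.ex (nat_lit 0xa) (.split (nat_lit 0xa) (nat_lit 6) (.pd (.cons (nat_lit 3) (nat_lit 7) (nat_lit 0) (nat_lit 0x68805540100) (nat_lit 0xf423ff423f7a11e00000b71ae1f156f423f00000f423fb71ae1f156) .nil) (.leaf (.cons (nat_lit 0x101440) (nat_lit 0x10000000000000002000200000001000000000000) (.cons (nat_lit 0x105400) (nat_lit 0x10000000000010002000200000000000000000000) (.cons (nat_lit 0x455) (nat_lit 0x100000002000300040003) .nil))) (.cons (nat_lit 0x111110) (nat_lit 0x1000001) (nat_lit 8) (nat_lit 0x210340) (.cons (nat_lit 0x111100) (nat_lit 0x1000010) (nat_lit 7) (nat_lit 0x320100) .nil)))) (.non (nat_lit 0) (nat_lit 5) (nat_lit 0x295000) (nat_lit 0x10001000200020002000000000000000000000000))) (.split (nat_lit 0xb) (nat_lit 0) (.split (nat_lit 0xb) (nat_lit 1) (.split (nat_lit 0xb) (nat_lit 2) (.split (nat_lit 0xb) (nat_lit 3) (.split (nat_lit 0xb) (nat_lit 6) (.split (nat_lit 0xb) (nat_lit 7) (.split (nat_lit 0xb) (nat_lit 8) (.split (nat_lit 0xb) (nat_lit 9) (.split (nat_lit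 0xb) (nat_lit 4) (.split (nat_lit 0xb) (nat_lit 5) (.sup (nat_lit 0x200040004000600060006000100000000000000000000) (nat_lit 0x30007000b0010000d)) (.sup (nat_lit 0x200030003000400040004000100000000000000000000) (nat_lit 0x30007000b0010000d))) (.split (nat_lit 0xb) (nat_lit 5) (.st (nat_lit 0xa) (nat_lit 0) (nat_lit 5) (nat_lit 0x595000) (nat_lit 0x100020001000200020002000000000000000000000000) (nat_lit 1) (nat_lit 1) (.st (nat_lit 0xb) (nat_lit 0) (nat_lit 5) (nat_lit 0x595100) (nat_lit 0x200020001000200020002000000010000000000000000) (nat_lit 1) (nat_lit 1) (.split (nat_lit 0xb) (nat_lit 4) (.split (nat_lit 0xb) (nat_lit 0xa) (.leaf (.cons (nat_lit 0x501500) (nat_lit 0x200030000000000000004000300010000000000000000) (.cons (nat_lit 0x455) (nat_lit 0x100000002000300040003) .nil)) (.cons (nat_lit 0x110000111110) (nat_lit 0x1000001) (nat_lit 0xd) (nat_lit 0x560000140230) (.cons (nat_lit 0x110000111100) (nat_lit 0x1000010) (nat_lit 9) (nat_lit 0x450000230100) .nil))) (.non (nat_lit 0) (nat_lit 5) (nat_lit 0x995000)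 (nat_lit 0x100020001000200020002000000000000000000000000))) (.non (nat_lit 0) (nat_lit 5) (nat_lit 0xa6a100) (nat_lit 0x100010001000100010001000000010000000000000000))))) (.non (nat_lit 0) (nat_lit 6) (nat_lit 0x400540) (nat_lit 0x100000000000000000000000100010001000000000000)))) (.non (nat_lit 0) (nat_lit 5) (nat_lit 0xa94000) (nat_lit 0x200010003000400020000000000000000000000000000))) (.non (nat_lit 0) (nat_lit 5) (nat_lit 0x494000) (nat_lit 0x100000001000200010000000000000000000000000000))) (.non (nat_lit 0) (nat_lit 5) (nat_lit 0x505000) (nat_lit 0x100010000000000010001000000000000000000000000))) (.non (nat_lit 0) (nat_lit 5) (nat_lit 0x501000) (nat_lit 0x100010000000000000001000000000000000000000000))) (.non (nat_lit 0) (nat_lit 5) (nat_lit 0x595150) (nat_lit 0x200020001000200020002000000010002000100000000))) (.non (nat_lit 0) (nat_lit 5) (nat_lit 0x595054) (nat_lit 0x200020001000200020002000000000001000200010000))) (.non (nat_lit 2) (nat_lit 5) (nat_lit 0x501005) (nat_lit 0x300020000000000000001000000000000000000040003)))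 (.non (nat_lit 2) (nat_lit 5) (nat_lit 0x501005) (nat_lit 0x300020000000000000001000000000000000000030004))))

noncomputable def t1537_44 : Tr := (.ex (nat_lit 6) (.pd (.cons (nat_lit 2) (nat_lit 7) (nat_lit 0) (nat_lit 0x8805333000) (nat_lit 0xf423f7a11e00000f423f54591f423f0671100000f423f54591) (.cons (nat_lit 3) (nat_lit 7) (nat_lit 0) (nat_lit 0x8805540100) (nat_lit 0xf423f7a11e00000f423f54591f423f00000f423fb71ae1f156) (.cons (nat_lit 3) (nat_lit 8) (nat_lit 0) (nat_lit 0x9065540100) (nat_lit 0xf423f00000f423fb71ae1f156f423f00000f423fb71ae1f156) (.cons (nat_lit 3) (nat_lit 9) (nat_lit 0) (nat_lit 0x765540100) (nat_lit 0xf423fb71aea2c2804737f423f00000f423fb71ae1f156) .nil)))) (.leaf (.cons (nat_lit 0x1550) (nat_lit 0x2000200010002000100000000) (.cons (nat_lit 0x5440) (nat_lit 0x10002000200000001000000000000) (.cons (nat_lit 0x455) (nat_lit 0x100000002000300040003) .nil))) (.cons (nat_lit 0x111110) (nat_lit 0x1000001) (nat_lit 8) (nat_lit 0x210340) (.cons (nat_lit 0x111100) (nat_lit 0x1000010) (nat_lit 7)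 (nat_lit 0x320100) .nil)))) (.split (nat_lit 0xa) (nat_lit 0) (.split (nat_lit 0xa) (nat_lit 1) (.split (nat_lit 0xa) (nat_lit 2) (.split (nat_lit 0xa) (nat_lit 3) (.split (nat_lit 0xa) (nat_lit 7) (.split (nat_lit 0xa) (nat_lit 8) (.split (nat_lit 0xa) (nat_lit 9) (.split (nat_lit 0xa) (nat_lit 4) (.split (nat_lit 0xa) (nat_lit 5) (.st (nat_lit 6) (nat_lit 0) (nat_lit 5) (nat_lit 0x195000) (nat_lit 0x10001000200020002000000000000000000000000) (nat_lit 1) (nat_lit 1) t1537_43) (.sup (nat_lit 0x20003000400040004000100000000000000000000) (nat_lit 0x30007000b0010000d))) (.split (nat_lit 0xa) (nat_lit 5) (.st (nat_lit 6) (nat_lit 0) (nat_lit 5) (nat_lit 0x195000) (nat_lit 0x10001000200020002000000000000000000000000) (nat_lit 1) (nat_lit 1) (.st (nat_lit 0xa) (nat_lit 0) (nat_lit 5) (nat_lit 0x195100) (nat_lit 0x20001000200020002000000010000000000000000) (nat_lit 1) (nat_lit 1) (.split (nat_lit 0xa) (nat_lit 4) (.split (nat_lit 0xa) (nat_lit 6) (.pd (.cons (nat_lit 3) (nat_lit 7) (nat_lit 0) (nat_lit 0x4880a640100)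 (nat_lit 0x437a2f423f7a11e0000054591f423f174ea00000f423fb71ae1f156) .nil) (.leaf (.cons (nat_lit 0x101440) (nat_lit 0x10000000000000002000200000001000000000000) (.cons (nat_lit 0x105400) (nat_lit 0x10000000000010002000200000000000000000000) (.cons (nat_lit 0x455) (nat_lit 0x100000002000300040003) .nil))) (.cons (nat_lit 0x10000111110) (nat_lit 0x1000001) (nat_lit 0xc) (nat_lit 0x50000140230) .nil))) (.non (nat_lit 0) (nat_lit 5) (nat_lit 0x295000) (nat_lit 0x10001000200020002000000000000000000000000))) (.non (nat_lit 0) (nat_lit 5) (nat_lit 0x26a100) (nat_lit 0x10001000100010001000000010000000000000000))))) (.non (nat_lit 0) (nat_lit 6) (nat_lit 0x100540) (nat_lit 0x10000000000000000000100010001000000000000)))) (.non (nat_lit 0) (nat_lit 5) (nat_lit 0x155000) (nat_lit 0x10001000100010001000000000000000000000000))) (.non (nat_lit 0) (nat_lit 5) (nat_lit 0x194000) (nat_lit 0x10001000200010000000000000000000000000000))) (.non (nat_lit 0) (nat_lit 5) (nat_lit 0x105000) (nat_lit 0x10000000000010001000000000000000000000000)))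 (.non (nat_lit 0) (nat_lit 5) (nat_lit 0x195150) (nat_lit 0x20001000200020002000000010002000100000000))) (.non (nat_lit 0) (nat_lit 5) (nat_lit 0x195054) (nat_lit 0x20001000200020002000000000001000200010000))) (.star (nat_lit 0xa) (nat_lit 1) (nat_lit 6))) (.star (nat_lit 0xa) (nat_lit 0) (nat_lit 6))))

noncomputable def t1537_45 : Tr := (.split (nat_lit 0xc) (nat_lit 1) (.split (nat_lit 0xc) (nat_lit 2) (.split (nat_lit 0xc) (nat_lit 3) (.split (nat_lit 0xc) (nat_lit 4) (.split (nat_lit 0xc) (nat_lit 5) (.split (nat_lit 0xc) (nat_lit 7) (.split (nat_lit 0xc) (nat_lit 8) (.split (nat_lit 0xc) (nat_lit 9) (.split (nat_lit 0xc) (nat_lit 0xa) (.split (nat_lit 0xc) (nat_lit 6) (.st (nat_lit 0xb) (nat_lit 0) (nat_lit 6) (nat_lit 0x1500550) (nat_lit 0x1000200020000000000000000000200010002000100000000) (nat_lit 1) (nat_lit 1) (.st (nat_lit 0xc) (nat_lit 0) (nat_lit 6) (nat_lit 0x1500554) (nat_lit 0x2000300040000000000000000000500030006000400020000) (nat_lit 1) (nat_lit 1) (.split (nat_lit 0xc) (nat_lit 0xb) (.split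 (nat_lit 0xb) (nat_lit 0xa) (.split (nat_lit 0xa) (nat_lit 5) (.leaf (.cons (nat_lit 0x1501400) (nat_lit 0x1000200030000000000000003000400000000000000000000) (.cons (nat_lit 0x455) (nat_lit 0x100000002000300040003) .nil)) (.cons (nat_lit 0x1110000111110) (nat_lit 0x1000001) (nat_lit 0xe) (nat_lit 0x7650000410230) (.cons (nat_lit 0x1110000111100) (nat_lit 0x1000010) (nat_lit 0xa) (nat_lit 0x6540000320100) .nil))) (.non (nat_lit 0) (nat_lit 6) (nat_lit 0x2a00440) (nat_lit 0x1000200030000000000000000000400000002000000000000))) (.non (nat_lit 0) (nat_lit 6) (nat_lit 0x2900440) (nat_lit 0x1000200030000000000000000000200000001000000000000))) (.non (nat_lit 0) (nat_lit 6) (nat_lit 0x2500550) (nat_lit 0x1000200020000000000000000000200010002000100000000))))) (.sup (nat_lit 0x3000200020003000400040004000100000000000000000000) (nat_lit 0x40007000b0010000d))) (.non (nat_lit 0) (nat_lit 5) (nat_lit 0x1500000) (nat_lit 0x1000100010000000000000000000000000000000000000000))) (.non (nat_lit 0) (nat_lit 5) (nat_lit 0x2894000)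 (nat_lit 0x2000100000003000400020000000000000000000000000000))) (.non (nat_lit 0) (nat_lit 5) (nat_lit 0x1094000) (nat_lit 0x1000000000001000200010000000000000000000000000000))) (.non (nat_lit 0) (nat_lit 5) (nat_lit 0x1095000) (nat_lit 0x1000000000001000200020001000000000000000000000000))) (.non (nat_lit 0) (nat_lit 6) (nat_lit 0x1500400) (nat_lit 0x1000100010000000000000000000100000000000000000000))) (.non (nat_lit 0) (nat_lit 6) (nat_lit 0x1500540) (nat_lit 0x1000100010000000000000000000100010001000000000000))) (.non (nat_lit 0) (nat_lit 6) (nat_lit 0x1500440) (nat_lit 0x1000100010000000000000000000100000001000000000000))) (.non (nat_lit 0) (nat_lit 6) (nat_lit 0x1500450) (nat_lit 0x1000100010000000000000000000100000001000100000000))) (.non (nat_lit 0) (nat_lit 6) (nat_lit 0x1500454) (nat_lit 0x1000100010000000000000000000100000001000100010000)))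

noncomputable def t1537_46 : Tr := (.split (nat_lit 0xb) (nat_lit 0) (.split (nat_lit 0xb) (nat_lit 1) (.split (nat_lit 0xb) (nat_lit 2) (.split (nat_lit 0xb) (nat_lit 3) (.split (nat_lit 0xb) (nat_lit 4) (.split (nat_lit 0xb) (nat_lit 5) (.split (nat_lit 0xb) (nat_lit 7) (.split (nat_lit 0xb) (nat_lit 8) (.split (nat_lit 0xb) (nat_lit 9) (.split (nat_lit 0xb) (nat_lit 6) (.st (nat_lit 0xa) (nat_lit 0) (nat_lit 6) (nat_lit 0x500550) (nat_lit 0x100020000000000000000000200010002000100000000) (nat_lit 1) (nat_lit 1) (.ex (nat_lit 0xb) (.split (nat_lit 0xa) (nat_lit 5) (.split (nat_lit 0xb) (nat_lit 0xa) (.pd (.cons (nat_lit 3) (nat_lit 7) (nat_lit 0) (nat_lit 0xa58805540100) (nat_lit 0xf423fb71aef423f7a11e00000f423f02f7af423f00000f423fb71ae1f156) .nil) (.leaf (.cons (nat_lit 0x101440) (nat_lit 0x10000000000000002000200000001000000000000) (.cons (nat_lit 0x105400) (nat_lit 0x10000000000010002000200000000000000000000) (.cons (nat_lit 0x455) (nat_lit 0x100000002000300040003) .nil))) (.cons (nat_lit 0x110000111000)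 (nat_lit 0x1000100) (nat_lit 3) (nat_lit 0x430000201000) .nil))) (.non (nat_lit 0) (nat_lit 6) (nat_lit 0x900550) (nat_lit 0x100020000000000000000000200010002000100000000))) (.non (nat_lit 0) (nat_lit 6) (nat_lit 0xa00540) (nat_lit 0x100020000000000000000000300010002000000000000))) (.split (nat_lit 0xc) (nat_lit 0) t1537_45 (.non (nat_lit 2) (nat_lit 5) (nat_lit 0x1500005) (nat_lit 0x3000200010000000000000000000000000000000000030004))))) (.sup (nat_lit 0x300020003000400040004000100000000000000000000) (nat_lit 0x30007000b0010000d))) (.non (nat_lit 0) (nat_lit 5) (nat_lit 0xa94000) (nat_lit 0x200010003000400020000000000000000000000000000))) (.non (nat_lit 0) (nat_lit 5) (nat_lit 0x494000) (nat_lit 0x100000001000200010000000000000000000000000000))) (.non (nat_lit 0) (nat_lit 5) (nat_lit 0x495000) (nat_lit 0x100000001000200020001000000000000000000000000))) (.non (nat_lit 0) (nat_lit 6) (nat_lit 0x500400) (nat_lit 0x100010000000000000000000100000000000000000000))) (.non (nat_lit 0) (nat_lit 6) (nat_lit 0x500540)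 (nat_lit 0x100010000000000000000000100010001000000000000))) (.non (nat_lit 0) (nat_lit 6) (nat_lit 0x500440) (nat_lit 0x100010000000000000000000100000001000000000000))) (.non (nat_lit 0) (nat_lit 6) (nat_lit 0x500450) (nat_lit 0x100010000000000000000000100000001000100000000))) (.non (nat_lit 0) (nat_lit 6) (nat_lit 0x500454) (nat_lit 0x100010000000000000000000100000001000100010000))) (.non (nat_lit 2) (nat_lit 6) (nat_lit 0x500405) (nat_lit 0x300020000000000000000000100000000000000030004)))

noncomputable def t1537_47 : Tr := (.split (nat_lit 0xa) (nat_lit 8) (.split (nat_lit 0xa) (nat_lit 9) (.split (nat_lit 0xa) (nat_lit 6) (.st (nat_lit 5) (nat_lit 0) (nat_lit 6) (nat_lit 0x100550) (nat_lit 0x10000000000000000000200010002000100000000) (nat_lit 1) (nat_lit 1) (.ex (nat_lit 6) (.ex (nat_lit 0xa) (.split (nat_lit 0xa) (nat_lit 5) (.pd (.cons (nat_lit 3) (nat_lit 7) (nat_lit 0) (nat_lit 0x58805540100) (nat_lit 0xf423ff423f7a11e00000f423f17500f423f00000f423fb71ae1f156) .nil) (.leaf (.cons (nat_lit 0x101440) (nat_lit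 0x10000000000000002000200000001000000000000) (.cons (nat_lit 0x105400) (nat_lit 0x10000000000010002000200000000000000000000) (.cons (nat_lit 0x455) (nat_lit 0x100000002000300040003) .nil))) (.cons (nat_lit 0x10000111000) (nat_lit 0x1000100) (nat_lit 2) (nat_lit 0x30000201000) .nil))) (.non (nat_lit 0) (nat_lit 6) (nat_lit 0x200550) (nat_lit 0x10000000000000000000200010002000100000000))) t1537_46) (.split (nat_lit 0xb) (nat_lit 0) (.split (nat_lit 0xb) (nat_lit 1) (.split (nat_lit 0xb) (nat_lit 2) (.split (nat_lit 0xb) (nat_lit 3) (.split (nat_lit 0xb) (nat_lit 4) (.split (nat_lit 0xb) (nat_lit 5) (.split (nat_lit 0xb) (nat_lit 7) (.split (nat_lit 0xb) (nat_lit 8) (.split (nat_lit 0xb) (nat_lit 9) (.split (nat_lit 0xb) (nat_lit 0xa) (.sup (nat_lit 0x500020008000b000b000b000300000000000000000000) (nat_lit 0x6000d00160020001a)) (.sup (nat_lit 0x300020003000400040004000100000000000000000000) (nat_lit 0x30007000b0010000d))) (.non (nat_lit 0) (nat_lit 5) (nat_lit 0x455000) (nat_lit 0x100000001000100010001000000000000000000000000)))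 (.non (nat_lit 0) (nat_lit 5) (nat_lit 0x494000) (nat_lit 0x100000001000200010000000000000000000000000000))) (.non (nat_lit 0) (nat_lit 5) (nat_lit 0x405000) (nat_lit 0x100000000000000010001000000000000000000000000))) (.non (nat_lit 0) (nat_lit 6) (nat_lit 0x500550) (nat_lit 0x100010000000000000000000200010002000100000000))) (.non (nat_lit 0) (nat_lit 6) (nat_lit 0x500554) (nat_lit 0x100010000000000000000000200020003000200010000))) (.non (nat_lit 0) (nat_lit 5) (nat_lit 0x495150) (nat_lit 0x200000001000200020002000000010002000100000000))) (.non (nat_lit 0) (nat_lit 5) (nat_lit 0x495054) (nat_lit 0x200000001000200020002000000000001000200010000))) (.star (nat_lit 0xb) (nat_lit 1) (nat_lit 6))) (.star (nat_lit 0xb) (nat_lit 0) (nat_lit 6))))) (.sup (nat_lit 0x20003000400040004000100000000000000000000) (nat_lit 0x30007000b0010000d))) (.non (nat_lit 0) (nat_lit 5) (nat_lit 0x295000) (nat_lit 0x10002000300020001000000000000000000000000))) (.non (nat_lit 0) (nat_lit 5) (nat_lit 0x194000) (nat_lit 0x10001000200010000000000000000000000000000)))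

noncomputable def t1537_48 : Tr := (.ex (nat_lit 0xb) (.leaf (.cons (nat_lit 0x101540) (nat_lit 0x10000000000000003000400020003000000000000) (.cons (nat_lit 0x455) (nat_lit 0x100000002000300040003) .nil)) (.cons (nat_lit 0x110000111110) (nat_lit 0x1000001) (nat_lit 0xd) (nat_lit 0x650000140230) (.cons (nat_lit 0x110000111100) (nat_lit 0x1000010) (nat_lit 9) (nat_lit 0x540000230100) .nil))) (.split (nat_lit 0xc) (nat_lit 0) (.split (nat_lit 0xc) (nat_lit 1) (.split (nat_lit 0xc) (nat_lit 2) (.split (nat_lit 0xc) (nat_lit 3) (.split (nat_lit 0xc) (nat_lit 4) (.split (nat_lit 0xc) (nat_lit 5) (.split (nat_lit 0xc) (nat_lit 6) (.split (nat_lit 0xc) (nat_lit 7) (.split (nat_lit 0xc) (nat_lit 8) (.split (nat_lit 0xc) (nat_lit 9) (.split (nat_lit 0xc) (nat_lit 0xa) (.st (nat_lit 0xb) (nat_lit 0) (nat_lit 6) (nat_lit 0x1500550) (nat_lit 0x1000200020000000000000000000100020002000100000000) (nat_lit 1) (nat_lit 1) (.st (nat_lit 0xc) (nat_lit 0) (nat_lit 6) (nat_lit 0x1500554) (nat_lit 0x2000300040000000000000000000300050006000400020000)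 (nat_lit 1) (nat_lit 1) (.split (nat_lit 0xc) (nat_lit 0xb) (.leaf (.cons (nat_lit 0x101540) (nat_lit 0x10000000000000003000400020003000000000000) (.cons (nat_lit 0x455) (nat_lit 0x100000002000300040003) .nil)) (.cons (nat_lit 0x1110000111110) (nat_lit 0x1000001) (nat_lit 0xe) (nat_lit 0x7650000140230) (.cons (nat_lit 0x1110000111000) (nat_lit 0x1000100) (nat_lit 4) (nat_lit 0x5430000021000) .nil))) (.non (nat_lit 0) (nat_lit 6) (nat_lit 0x2500550) (nat_lit 0x1000200020000000000000000000100020002000100000000))))) (.non (nat_lit 0) (nat_lit 5) (nat_lit 0x1500000) (nat_lit 0x1000100010000000000000000000000000000000000000000))) (.non (nat_lit 0) (nat_lit 5) (nat_lit 0x2894000) (nat_lit 0x2000100000003000400020000000000000000000000000000))) (.non (nat_lit 0) (nat_lit 5) (nat_lit 0x1094000) (nat_lit 0x1000000000001000200010000000000000000000000000000))) (.non (nat_lit 0) (nat_lit 5) (nat_lit 0x1095000) (nat_lit 0x1000000000001000200020001000000000000000000000000))) (.non (nat_lit 3) (nat_lit 7) (nat_lit 0x1501400)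 (nat_lit 0x3000200010000000000000004000300000000000000000000))) (.non (nat_lit 0) (nat_lit 6) (nat_lit 0x1500540) (nat_lit 0x1000100010000000000000000000100010001000000000000))) (.non (nat_lit 0) (nat_lit 5) (nat_lit 0x1500100) (nat_lit 0x1000100010000000000000000000000010000000000000000))) (.non (nat_lit 0) (nat_lit 5) (nat_lit 0x1500140) (nat_lit 0x1000100010000000000000000000000010001000000000000))) (.non (nat_lit 0) (nat_lit 5) (nat_lit 0x1500150) (nat_lit 0x1000100010000000000000000000000010001000100000000))) (.non (nat_lit 0) (nat_lit 5) (nat_lit 0x1500154) (nat_lit 0x1000100010000000000000000000000010001000100010000))) (.non (nat_lit 2) (nat_lit 5) (nat_lit 0x1500005) (nat_lit 0x3000200010000000000000000000000000000000000030004))))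

noncomputable def t1537_49 : Tr := (.pd (.cons (nat_lit 3) (nat_lit 7) (nat_lit 0x10000010000) (nat_lit 0x488055a0100) (nat_lit 0x1f423f7a11e00000f423f545910000100000f423fb71ae1f156) (.cons (nat_lit 3) (nat_lit 8) (nat_lit 0x10000010000) (nat_lit 0x490655a0100) (nat_lit 0x1f423f00000f423fb71ae1f1560000100000f423fb71ae1f156) (.cons (nat_lit 3) (nat_lit 9) (nat_lit 0x10000010000) (nat_lit 0x407655a0100) (nat_lit 0x100000f423fb71aea2c28047370000100000f423fb71ae1f156) .nil))) (.split (nat_lit 0xa) (nat_lit 4) (.ex (nat_lit 0xa) (.leaf (.cons (nat_lit 0x101540) (nat_lit 0x10000000000000003000400020003000000000000) (.cons (nat_lit 0x455) (nat_lit 0x100000002000300040003) .nil)) (.cons (nat_lit 0x10000111110) (nat_lit 0x1000001) (nat_lit 0xc) (nat_lit 0x50000140230) .nil)) (.split (nat_lit 0xb) (nat_lit 0) (.split (nat_lit 0xb) (nat_lit 1) (.split (nat_lit 0xb) (nat_lit 2) (.split (nat_lit 0xb) (nat_lit 3) (.split (nat_lit 0xb) (nat_lit 4) (.split (nat_lit 0xb) (nat_lit 5) (.split (nat_lit 0xb) (nat_lit 6) (.split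 (nat_lit 0xb) (nat_lit 7) (.split (nat_lit 0xb) (nat_lit 8) (.split (nat_lit 0xb) (nat_lit 9) (.st (nat_lit 0xa) (nat_lit 0) (nat_lit 6) (nat_lit 0x500550) (nat_lit 0x100020000000000000000000100020002000100000000) (nat_lit 1) (nat_lit 1) (.split (nat_lit 0xb) (nat_lit 0xa) t1537_48 (.non (nat_lit 0) (nat_lit 6) (nat_lit 0x900550) (nat_lit 0x100020000000000000000000100020002000100000000)))) (.non (nat_lit 0) (nat_lit 5) (nat_lit 0xa94000) (nat_lit 0x200010003000400020000000000000000000000000000))) (.non (nat_lit 0) (nat_lit 5) (nat_lit 0x494000) (nat_lit 0x100000001000200010000000000000000000000000000))) (.non (nat_lit 0) (nat_lit 5) (nat_lit 0x495000) (nat_lit 0x100000001000200020001000000000000000000000000))) (.non (nat_lit 3) (nat_lit 7) (nat_lit 0x501500) (nat_lit 0x300020000000000000004000300010000000000000000))) (.non (nat_lit 0) (nat_lit 6) (nat_lit 0x500540) (nat_lit 0x100010000000000000000000100010001000000000000))) (.non (nat_lit 0) (nat_lit 5) (nat_lit 0x500100) (nat_lit 0x100010000000000000000000000010000000000000000)))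 (.non (nat_lit 0) (nat_lit 5) (nat_lit 0x500140) (nat_lit 0x100010000000000000000000000010001000000000000))) (.non (nat_lit 0) (nat_lit 5) (nat_lit 0x500150) (nat_lit 0x100010000000000000000000000010001000100000000))) (.non (nat_lit 0) (nat_lit 5) (nat_lit 0x500154) (nat_lit 0x100010000000000000000000000010001000100010000))) (.non (nat_lit 2) (nat_lit 5) (nat_lit 0x500105) (nat_lit 0x300020000000000000000000000010000000000030004)))) (.non (nat_lit 0) (nat_lit 6) (nat_lit 0x200550) (nat_lit 0x10000000000000000000100020002000100000000))))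

noncomputable def t1537_50 : Tr := (.st (nat_lit 4) (nat_lit 0) (nat_lit 6) (nat_lit 0x100550) (nat_lit 0x10000000000000000000100020002000100000000) (nat_lit 1) (nat_lit 1) (.ex (nat_lit 6) t1537_49 (.split (nat_lit 0xb) (nat_lit 0) (.split (nat_lit 0xb) (nat_lit 1) (.split (nat_lit 0xb) (nat_lit 2) (.split (nat_lit 0xb) (nat_lit 3) (.split (nat_lit 0xb) (nat_lit 4) (.split (nat_lit 0xb) (nat_lit 5) (.split (nat_lit 0xb) (nat_lit 7) (.split (nat_lit 0xb) (nat_lit 8) (.split (nat_lit 0xb) (nat_lit 9) (.split (nat_lit 0xb) (nat_lit 0xa) (.sup (nat_lit 0x300000005000700070007000200000000000000000000) (nat_lit 0x20000000000000000000000040007000b0010000d)) (.st (nat_lit 6) (nat_lit 0) (nat_lit 5) (nat_lit 0x495000) (nat_lit 0x100000001000200020002000000000000000000000000) (nat_lit 1) (nat_lit 1) (.st (nat_lit 0xa) (nat_lit 0) (nat_lit 5) (nat_lit 0x595100) (nat_lit 0x200020001000200020002000000010000000000000000) (nat_lit 1) (nat_lit 1) (.st (nat_lit 0xb) (nat_lit 0) (nat_lit 5) (nat_lit 0x595000) (nat_lit 0x200010001000200020002000000000000000000000000)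 (nat_lit 1) (nat_lit 1) (.split (nat_lit 0xb) (nat_lit 0xa) (.split (nat_lit 0xa) (nat_lit 4) (.leaf (.cons (nat_lit 0x501500) (nat_lit 0x300020000000000000004000300010000000000000000) (.cons (nat_lit 0x455) (nat_lit 0x100000002000300040003) .nil)) (.cons (nat_lit 0x110000111110) (nat_lit 0x1000001) (nat_lit 0xd) (nat_lit 0x650000140230) (.cons (nat_lit 0x110000111100) (nat_lit 0x1000010) (nat_lit 9) (nat_lit 0x540000230100) .nil))) (.non (nat_lit 0) (nat_lit 5) (nat_lit 0xa6a100) (nat_lit 0x100010001000100010001000000010000000000000000))) (.non (nat_lit 0) (nat_lit 5) (nat_lit 0x695000) (nat_lit 0x200010001000200020002000000000000000000000000))))))) (.non (nat_lit 0) (nat_lit 5) (nat_lit 0x455000) (nat_lit 0x100000001000100010001000000000000000000000000))) (.non (nat_lit 0) (nat_lit 5) (nat_lit 0x494000) (nat_lit 0x100000001000200010000000000000000000000000000))) (.non (nat_lit 0) (nat_lit 5) (nat_lit 0x405000) (nat_lit 0x100000000000000010001000000000000000000000000))) (.non (nat_lit 0) (nat_lit 6) (nat_lit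 0x500554) (nat_lit 0x100010000000000000000000200020003000200010000))) (.non (nat_lit 0) (nat_lit 5) (nat_lit 0x595140) (nat_lit 0x200010001000200020002000000020001000000000000))) (.non (nat_lit 0) (nat_lit 5) (nat_lit 0x495150) (nat_lit 0x200000001000200020002000000010002000100000000))) (.non (nat_lit 0) (nat_lit 5) (nat_lit 0x495054) (nat_lit 0x200000001000200020002000000000001000200010000))) (.star (nat_lit 0xb) (nat_lit 1) (nat_lit 6))) (.star (nat_lit 0xb) (nat_lit 0) (nat_lit 6)))))

noncomputable def t1537_51 : Tr := (.split (nat_lit 0xa) (nat_lit 0) (.split (nat_lit 0xa) (nat_lit 1) (.split (nat_lit 0xa) (nat_lit 2) (.split (nat_lit 0xa) (nat_lit 3) (.split (nat_lit 0xa) (nat_lit 5) (.split (nat_lit 0xa) (nat_lit 7) (.split (nat_lit 0xa) (nat_lit 8) (.split (nat_lit 0xa) (nat_lit 9) (.split (nat_lit 0xa) (nat_lit 6) (.st (nat_lit 5) (nat_lit 0) (nat_lit 6) (nat_lit 0x100554) (nat_lit 0x10000000000000000000200020003000200010000) (nat_lit 1) (nat_lit 1) t1537_50) (.st (nat_lit 4) (nat_lit 0) (nat_lit 5)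 (nat_lit 0x195140) (nat_lit 0x20001000200020002000000020001000000000000) (nat_lit 1) (nat_lit 1) (.st (nat_lit 5) (nat_lit 0) (nat_lit 6) (nat_lit 0x100554) (nat_lit 0x10000000000000000000200020003000200010000) (nat_lit 1) (nat_lit 1) (.st (nat_lit 6) (nat_lit 0) (nat_lit 5) (nat_lit 0x195000) (nat_lit 0x10001000200020002000000000000000000000000) (nat_lit 1) (nat_lit 1) (.st (nat_lit 0xa) (nat_lit 0) (nat_lit 5) (nat_lit 0x195100) (nat_lit 0x20001000200020002000000010000000000000000) (nat_lit 1) (nat_lit 1) (.split (nat_lit 0xa) (nat_lit 4) (.split (nat_lit 0xa) (nat_lit 6) (.pd (.cons (nat_lit 3) (nat_lit 7) (nat_lit 0) (nat_lit 0x4880a640100) (nat_lit 0x437a2f423f7a11e0000054591f423f174ea00000f423fb71ae1f156) .nil) (.leaf (.cons (nat_lit 0x101440) (nat_lit 0x10000000000000002000200000001000000000000) (.cons (nat_lit 0x105400) (nat_lit 0x10000000000010002000200000000000000000000) (.cons (nat_lit 0x455) (nat_lit 0x100000002000300040003) .nil))) (.cons (nat_lit 0x10000111110) (nat_lit 0x1000001) (nat_lit 0xc)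 (nat_lit 0x50000140230) .nil))) (.non (nat_lit 0) (nat_lit 5) (nat_lit 0x295000) (nat_lit 0x10001000200020002000000000000000000000000))) (.non (nat_lit 0) (nat_lit 5) (nat_lit 0x26a100) (nat_lit 0x10001000100010001000000010000000000000000)))))))) (.non (nat_lit 0) (nat_lit 5) (nat_lit 0x295000) (nat_lit 0x10002000300020001000000000000000000000000))) (.non (nat_lit 0) (nat_lit 5) (nat_lit 0x194000) (nat_lit 0x10001000200010000000000000000000000000000))) (.non (nat_lit 0) (nat_lit 5) (nat_lit 0x195000) (nat_lit 0x10001000200020001000000000000000000000000))) (.non (nat_lit 0) (nat_lit 6) (nat_lit 0x100540) (nat_lit 0x10000000000000000000100010001000000000000))) (.non (nat_lit 0) (nat_lit 5) (nat_lit 0x100140) (nat_lit 0x10000000000000000000000010001000000000000))) (.non (nat_lit 0) (nat_lit 5) (nat_lit 0x100150) (nat_lit 0x10000000000000000000000010001000100000000))) (.non (nat_lit 0) (nat_lit 5) (nat_lit 0x100154) (nat_lit 0x10000000000000000000000010001000100010000))) (.non (nat_lit 2) (nat_lit 5) (nat_lit 0x100145)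 (nat_lit 0x30000000000000000000000020001000000030004)))

noncomputable def t1537_52 : Tr := (.split (nat_lit 9) (nat_lit 8) (.split (nat_lit 4) (nat_lit 3) (.split (nat_lit 5) (nat_lit 3) t1537_42 (.non (nat_lit 0) (nat_lit 6) (nat_lit 0x950) (nat_lit 0x100010002000100000000))) (.non (nat_lit 0) (nat_lit 6) (nat_lit 0x650) (nat_lit 0x100010002000100000000))) (.split (nat_lit 9) (nat_lit 8) (.split (nat_lit 4) (nat_lit 3) (.split (nat_lit 5) (nat_lit 3) (.pd (.cons (nat_lit 2) (nat_lit 5) (nat_lit 0) (nat_lit 0x8766033000) (nat_lit 0xf423f7a11e7a11c7a11a00000f423fb71ae00000f423f54591) (.cons (nat_lit 2) (nat_lit 6) (nat_lit 0) (nat_lit 0x8770333000) (nat_lit 0xf423f7a11e7a11c00000f423ff423f7a11d00000f423f54591) (.cons (nat_lit 3) (nat_lit 5) (nat_lit 0) (nat_lit 0x8766040100) (nat_lit 0xf423f7a11e7a11c7a11a00000f423f00000f423fb71ae1f156) (.cons (nat_lit 3) (nat_lit 6) (nat_lit 0) (nat_lit 0x8770540100) (nat_lit 0xf423f7a11e7a11c00000f423ff423f00000f423fb71ae1f156) (.cons (nat_lit 4) (nat_lit 5) (nat_lit 0) (nat_lit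 0x8766002100) (nat_lit 0xf423f7a11e7a11c7a11a0000000000f423fb71aea2c2804737) .nil))))) (.st (nat_lit 7) (nat_lit 0) (nat_lit 5) (nat_lit 0x95000) (nat_lit 0x1000200020001000000000000000000000000) (nat_lit 1) (nat_lit 1) (.st (nat_lit 8) (nat_lit 0) (nat_lit 5) (nat_lit 0x94000) (nat_lit 0x1000200010000000000000000000000000000) (nat_lit 1) (nat_lit 1) (.st (nat_lit 9) (nat_lit 0) (nat_lit 5) (nat_lit 0x95000) (nat_lit 0x2000300020001000000000000000000000000) (nat_lit 2) (nat_lit 1) (.ex (nat_lit 4) (.ex (nat_lit 5) t1537_44 (.split (nat_lit 0xa) (nat_lit 0) (.split (nat_lit 0xa) (nat_lit 1) (.split (nat_lit 0xa) (nat_lit 2) (.split (nat_lit 0xa) (nat_lit 3) (.split (nat_lit 0xa) (nat_lit 4) (.split (nat_lit 0xa) (nat_lit 7) t1537_47 (.non (nat_lit 0) (nat_lit 5) (nat_lit 0x195000) (nat_lit 0x10001000200020001000000000000000000000000))) (.non (nat_lit 0) (nat_lit 6) (nat_lit 0x100540) (nat_lit 0x10000000000000000000100010001000000000000))) (.non (nat_lit 0) (nat_lit 6) (nat_lit 0x100440) (nat_lit 0x10000000000000000000100000001000000000000)))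 (.non (nat_lit 0) (nat_lit 6) (nat_lit 0x100450) (nat_lit 0x10000000000000000000100000001000100000000))) (.star (nat_lit 0xa) (nat_lit 1) (nat_lit 5))) (.star (nat_lit 0xa) (nat_lit 0) (nat_lit 5)))) t1537_51))))) (.non (nat_lit 0) (nat_lit 6) (nat_lit 0x950) (nat_lit 0x100010002000100000000))) (.non (nat_lit 0) (nat_lit 6) (nat_lit 0x650) (nat_lit 0x100010002000100000000))) (.split (nat_lit 9) (nat_lit 8) (.split (nat_lit 5) (nat_lit 3) (.sup (nat_lit 0x200040007000a0008) (nat_lit 0x8000a00070004000100000000000000000000)) (.non (nat_lit 0) (nat_lit 6) (nat_lit 0x950) (nat_lit 0x100010002000100000000))) (.non (nat_lit 0) (nat_lit 5) (nat_lit 0xd4000) (nat_lit 0x1000200010000000000000000000000000000)))))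

noncomputable def t1537_53 : Tr := (.split (nat_lit 0xc) (nat_lit 0) (.split (nat_lit 0xc) (nat_lit 1) (.split (nat_lit 0xc) (nat_lit 2) (.split (nat_lit 0xc) (nat_lit 3) (.split (nat_lit 0xc) (nat_lit 4) (.split (nat_lit 0xc) (nat_lit 5) (.split (nat_lit 0xc) (nat_lit 6) (.split (nat_lit 0xc) (nat_lit 7) (.split (nat_lit 0xc) (nat_lit 8) (.split (nat_lit 0xc) (nat_lit 9) (.split (nat_lit 0xc) (nat_lit 0xa) (.st (nat_lit 0xb) (nat_lit 0) (nat_lit 5) (nat_lit 0x1555000) (nat_lit 0x1000200010002000200020001000000000000000000000000) (nat_lit 1) (nat_lit 1) (.st (nat_lit 0xc) (nat_lit 1) (nat_lit 5) (nat_lit 0x1555001) (nat_lit 0x2000300040004000500060003000000000000000000000002) (nat_lit 1) (nat_lit 1) (.split (nat_lit 0xc) (nat_lit 0xb) (.leaf (.cons (nat_lit 0x1550) (nat_lit 0x2000200010002000100000000) (.cons (nat_lit 0x114005) (nat_lit 0x30000000100020000000000000000000000030004) (.cons (nat_lit 0x5440) (nat_lit 0x10002000200000001000000000000) (.cons (nat_lit 0x100015) (nat_lit 0x10000000000000000000000000000000100020002)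 .nil)))) (.cons (nat_lit 0x111110) (nat_lit 0x1000001) (nat_lit 8) (nat_lit 0x210340) (.cons (nat_lit 0x1111111000001) (nat_lit 0x100010) (nat_lit 0xe) (nat_lit 0x7625401000003) .nil))) (.non (nat_lit 0) (nat_lit 5) (nat_lit 0x2555000) (nat_lit 0x1000200010002000200020001000000000000000000000000))))) (.non (nat_lit 0) (nat_lit 5) (nat_lit 0x1554000) (nat_lit 0x1000100010001000100010000000000000000000000000000))) (.non (nat_lit 0) (nat_lit 5) (nat_lit 0x1440000) (nat_lit 0x1000100000001000000000000000000000000000000000000))) (.non (nat_lit 0) (nat_lit 5) (nat_lit 0x1450000) (nat_lit 0x1000100000001000100000000000000000000000000000000))) (.non (nat_lit 0) (nat_lit 5) (nat_lit 0x1454000) (nat_lit 0x1000100000001000100010000000000000000000000000000))) (.non (nat_lit 0) (nat_lit 5) (nat_lit 0x1455000) (nat_lit 0x1000100000001000100010001000000000000000000000000))) (.non (nat_lit 0) (nat_lit 6) (nat_lit 0x1450554) (nat_lit 0x4000300000002000100000000000500030006000400020000))) (.non (nat_lit 0) (nat_lit 6) (nat_lit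 0x1450554) (nat_lit 0x4000300000002000100000000000300050006000400020000))) (.non (nat_lit 0) (nat_lit 5) (nat_lit 0x1555150) (nat_lit 0x2000200010002000200020001000000010002000100000000))) (.non (nat_lit 0) (nat_lit 5) (nat_lit 0x1555054) (nat_lit 0x2000200010002000200020001000000000001000200010000))) (.non (nat_lit 2) (nat_lit 7) (nat_lit 0x1100005) (nat_lit 0x1000000010000000000000000000000000000000000020002))) (.non (nat_lit 1) (nat_lit 5) (nat_lit 0x1554001) (nat_lit 0x1000100010001000100010000000000000000000000000001)))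

noncomputable def t1537_54 : Tr := (.ex (nat_lit 9) (.leaf (.cons (nat_lit 0x1550) (nat_lit 0x2000200010002000100000000) (.cons (nat_lit 0x114005) (nat_lit 0x30000000100020000000000000000000000030004) (.cons (nat_lit 0x5440) (nat_lit 0x10002000200000001000000000000) (.cons (nat_lit 0x100015) (nat_lit 0x10000000000000000000000000000000100020002) .nil)))) (.cons (nat_lit 0x11111000001) (nat_lit 0x100010) (nat_lit 0xc) (nat_lit 0x43201000005) .nil)) (.split (nat_lit 0xb) (nat_lit 0) (.split (nat_lit 0xb) (nat_lit 1) (.split (nat_lit 0xb) (nat_lit 2) (.split (nat_lit 0xb) (nat_lit 3) (.split (nat_lit 0xb) (nat_lit 4) (.split (nat_lit 0xb) (nat_lit 5) (.split (nat_lit 0xb) (nat_lit 6) (.split (nat_lit 0xb) (nat_lit 7) (.split (nat_lit 0xb) (nat_lit 8) (.split (nat_lit 0xb) (nat_lit 0xa) (.st (nat_lit 9) (nat_lit 0) (nat_lit 5) (nat_lit 0x555000) (nat_lit 0x100010002000200020001000000000000000000000000) (nat_lit 1) (nat_lit 1) (.split (nat_lit 0xb) (nat_lit 9) (.ex (nat_lit 0xb) (.leaf (.cons (nat_lit 0x1550) (nat_lit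 0x2000200010002000100000000) (.cons (nat_lit 0x114005) (nat_lit 0x30000000100020000000000000000000000030004) (.cons (nat_lit 0x5440) (nat_lit 0x10002000200000001000000000000) (.cons (nat_lit 0x100015) (nat_lit 0x10000000000000000000000000000000100020002) .nil)))) (.cons (nat_lit 0x111110) (nat_lit 0x1000001) (nat_lit 8) (nat_lit 0x210340) (.cons (nat_lit 0x111111000001) (nat_lit 0x100010) (nat_lit 0xd) (nat_lit 0x625401000003) .nil))) t1537_53) (.non (nat_lit 0) (nat_lit 5) (nat_lit 0x955000) (nat_lit 0x100010002000200020001000000000000000000000000)))) (.non (nat_lit 0) (nat_lit 5) (nat_lit 0x554000) (nat_lit 0x100010001000100010000000000000000000000000000))) (.non (nat_lit 0) (nat_lit 5) (nat_lit 0x450000) (nat_lit 0x100000001000100000000000000000000000000000000))) (.non (nat_lit 0) (nat_lit 5) (nat_lit 0x454000) (nat_lit 0x100000001000100010000000000000000000000000000))) (.non (nat_lit 0) (nat_lit 5) (nat_lit 0x455000) (nat_lit 0x100000001000100010001000000000000000000000000))) (.non (nat_lit 0) (nat_lit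 6) (nat_lit 0x454554) (nat_lit 0x400000003000200010000000500030006000400020000))) (.non (nat_lit 0) (nat_lit 6) (nat_lit 0x454554) (nat_lit 0x400000003000200010000000300050006000400020000))) (.non (nat_lit 0) (nat_lit 5) (nat_lit 0x555150) (nat_lit 0x200010002000200020001000000010002000100000000))) (.non (nat_lit 0) (nat_lit 5) (nat_lit 0x555054) (nat_lit 0x200010002000200020001000000000001000200010000))) (.non (nat_lit 2) (nat_lit 7) (nat_lit 0x500005) (nat_lit 0x100010000000000000000000000000000000000020002))) (.non (nat_lit 1) (nat_lit 5) (nat_lit 0x554001) (nat_lit 0x100010001000100010000000000000000000000000001))))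

noncomputable def t1537_55 : Tr := (.split (nat_lit 0xe) (nat_lit 3) (.split (nat_lit 0xe) (nat_lit 4) (.split (nat_lit 0xe) (nat_lit 5) (.split (nat_lit 0xe) (nat_lit 6) (.split (nat_lit 0xe) (nat_lit 7) (.split (nat_lit 0xe) (nat_lit 8) (.split (nat_lit 0xe) (nat_lit 9) (.split (nat_lit 0xe) (nat_lit 0xa) (.split (nat_lit 0xe) (nat_lit 0xb) (.split (nat_lit 0xe) (nat_lit 0xc) (.st (nat_lit 0xd) (nat_lit 0) (nat_lit 6) (nat_lit 0x14400550) (nat_lit 0x100020000000200000000000000000000000100020002000100000000) (nat_lit 1) (nat_lit 1) (.st (nat_lit 0xe) (nat_lit 0) (nat_lit 6) (nat_lit 0x14400554) (nat_lit 0x200030000000400000000000000000000000300050006000400020000) (nat_lit 1) (nat_lit 1) (.split (nat_lit 0xe) (nat_lit 0xd) (.leaf (.cons (nat_lit 0x401540) (nat_lit 0x100000000000000000003000400020003000000000000) (.cons (nat_lit 0x114005) (nat_lit 0x30000000100020000000000000000000000030004) (.cons (nat_lit 0x100015) (nat_lit 0x10000000000000000000000000000000100020002) .nil))) (.cons (nat_lit 0x110100000111110)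 (nat_lit 0x1000001) (nat_lit 0xe) (nat_lit 0x760500000140230) (.cons (nat_lit 0x1011111000001) (nat_lit 0x100010) (nat_lit 0xd) (nat_lit 0x6025401000003) .nil))) (.non (nat_lit 0) (nat_lit 6) (nat_lit 0x24400550) (nat_lit 0x100020000000200000000000000000000000100020002000100000000))))) (.non (nat_lit 0) (nat_lit 6) (nat_lit 0x15400554) (nat_lit 0x200030001000400000000000000000000000300050006000400020000))) (.non (nat_lit 0) (nat_lit 5) (nat_lit 0x14400000) (nat_lit 0x100010000000100000000000000000000000000000000000000000000))) (.non (nat_lit 0) (nat_lit 5) (nat_lit 0x15155000) (nat_lit 0x200010001000000030002000300040002000000000000000000000000))) (.non (nat_lit 0) (nat_lit 5) (nat_lit 0x15554000) (nat_lit 0x300020002000100010004000300020000000000000000000000000000))) (.non (nat_lit 0) (nat_lit 5) (nat_lit 0x15154000) (nat_lit 0x200010001000000010002000300020000000000000000000000000000))) (.non (nat_lit 0) (nat_lit 5) (nat_lit 0x15554000) (nat_lit 0x300020001000100020002000300040000000000000000000000000000)))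 (.non (nat_lit 0) (nat_lit 5) (nat_lit 0x15155000) (nat_lit 0x200010001000000020002000300040003000000000000000000000000))) (.non (nat_lit 0) (nat_lit 6) (nat_lit 0x14400540) (nat_lit 0x100010000000100000000000000000000000100010001000000000000))) (.non (nat_lit 0) (nat_lit 5) (nat_lit 0x14400100) (nat_lit 0x100010000000100000000000000000000000000010000000000000000))) (.non (nat_lit 0) (nat_lit 5) (nat_lit 0x14400140) (nat_lit 0x100010000000100000000000000000000000000010001000000000000)))

noncomputable def t1537_56 : Tr := (.split (nat_lit 0xf) (nat_lit 4) (.split (nat_lit 0xf) (nat_lit 5) (.split (nat_lit 0xf) (nat_lit 6) (.split (nat_lit 0xf) (nat_lit 7) (.split (nat_lit 0xf) (nat_lit 8) (.split (nat_lit 0xf) (nat_lit 9) (.split (nat_lit 0xf) (nat_lit 0xa) (.split (nat_lit 0xf) (nat_lit 0xb) (.split (nat_lit 0xf) (nat_lit 0xc) (.split (nat_lit 0xf) (nat_lit 0xe) (.st (nat_lit 0xd) (nat_lit 0) (nat_lit 6) (nat_lit 0x44400550) (nat_lit 0x1000000020000000200000000000000000000000100020002000100000000) (nat_lit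 1) (nat_lit 1) (.st (nat_lit 0xf) (nat_lit 0) (nat_lit 6) (nat_lit 0x44400554) (nat_lit 0x2000000030000000400000000000000000000000300050006000400020000) (nat_lit 1) (nat_lit 1) (.split (nat_lit 0xf) (nat_lit 0xd) (.leaf (.cons (nat_lit 0x401540) (nat_lit 0x100000000000000000003000400020003000000000000) (.cons (nat_lit 0x114005) (nat_lit 0x30000000100020000000000000000000000030004) (.cons (nat_lit 0x100015) (nat_lit 0x10000000000000000000000000000000100020002) .nil))) (.cons (nat_lit 0x1010100000111110) (nat_lit 0x1000001) (nat_lit 0xe) (nat_lit 0x7060500000140230) (.cons (nat_lit 0x101011111000001) (nat_lit 0x100010) (nat_lit 0xe) (nat_lit 0x706025401000003) .nil))) (.non (nat_lit 0) (nat_lit 6) (nat_lit 0x84400550) (nat_lit 0x1000000020000000200000000000000000000000100020002000100000000))))) (.non (nat_lit 0) (nat_lit 6) (nat_lit 0x54400554) (nat_lit 0x2000100030000000400000000000000000000000300050006000400020000))) (.non (nat_lit 0) (nat_lit 5) (nat_lit 0x55454000) (nat_lit 0x3000200020004000100000003000200010000000000000000000000000000)))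 (.non (nat_lit 0) (nat_lit 5) (nat_lit 0x44400000) (nat_lit 0x1000000010000000100000000000000000000000000000000000000000000))) (.non (nat_lit 0) (nat_lit 5) (nat_lit 0x45155000) (nat_lit 0x2000000010001000000030002000300040002000000000000000000000000))) (.non (nat_lit 0) (nat_lit 5) (nat_lit 0x55054000) (nat_lit 0x2000100010002000000000003000200010000000000000000000000000000))) (.non (nat_lit 0) (nat_lit 5) (nat_lit 0x55454000) (nat_lit 0x3000100020002000100000003000400020000000000000000000000000000))) (.non (nat_lit 0) (nat_lit 5) (nat_lit 0x45554000) (nat_lit 0x3000000020001000100020002000300040000000000000000000000000000))) (.non (nat_lit 0) (nat_lit 5) (nat_lit 0x45155000) (nat_lit 0x2000000010001000000020002000300040003000000000000000000000000))) (.non (nat_lit 0) (nat_lit 6) (nat_lit 0x44400540) (nat_lit 0x1000000010000000100000000000000000000000100010001000000000000))) (.non (nat_lit 0) (nat_lit 5) (nat_lit 0x44400100) (nat_lit 0x1000000010000000100000000000000000000000000010000000000000000)))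

noncomputable def t1537_57 : Tr := (.split (nat_lit 0xe) (nat_lit 7) (.split (nat_lit 0xe) (nat_lit 8) (.split (nat_lit 0xe) (nat_lit 9) (.split (nat_lit 0xe) (nat_lit 0xa) (.split (nat_lit 0xe) (nat_lit 0xb) (.split (nat_lit 0xe) (nat_lit 0xd) (.st (nat_lit 0xc) (nat_lit 0) (nat_lit 5) (nat_lit 0x11155000) (nat_lit 0x100000002000000010002000200020001000000000000000000000000) (nat_lit 1) (nat_lit 1) (.st (nat_lit 0xe) (nat_lit 1) (nat_lit 5) (nat_lit 0x11155001) (nat_lit 0x200000003000000040004000500060003000000000000000000000002) (nat_lit 1) (nat_lit 1) (.split (nat_lit 0xe) (nat_lit 0xc) (.ex (nat_lit 0xd) (.leaf (.cons (nat_lit 0x401540) (nat_lit 0x100000000000000000003000400020003000000000000) (.cons (nat_lit 0x114005) (nat_lit 0x30000000100020000000000000000000000030004) (.cons (nat_lit 0x100015) (nat_lit 0x10000000000000000000000000000000100020002) .nil))) (.cons (nat_lit 0x10100000111110) (nat_lit 0x1000001) (nat_lit 0xd) (nat_lit 0x60500000140230) (.cons (nat_lit 0x101011111000001) (nat_lit 0x100010)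 (nat_lit 0xe) (nat_lit 0x706025401000003) .nil))) (.split (nat_lit 0xf) (nat_lit 0) (.split (nat_lit 0xf) (nat_lit 1) (.split (nat_lit 0xf) (nat_lit 2) (.split (nat_lit 0xf) (nat_lit 3) t1537_56 (.non (nat_lit 0) (nat_lit 5) (nat_lit 0x44400140) (nat_lit 0x1000000010000000100000000000000000000000000010001000000000000))) (.non (nat_lit 0) (nat_lit 5) (nat_lit 0x44400150) (nat_lit 0x1000000010000000100000000000000000000000000010001000100000000))) (.non (nat_lit 0) (nat_lit 5) (nat_lit 0x44400154) (nat_lit 0x1000000010000000100000000000000000000000000010001000100010000))) (.non (nat_lit 1) (nat_lit 5) (nat_lit 0x41155001) (nat_lit 0x1000000000001000000030002000300040002000000000000000000000002)))) (.non (nat_lit 0) (nat_lit 5) (nat_lit 0x21155000) (nat_lit 0x100000002000000010002000200020001000000000000000000000000))))) (.non (nat_lit 0) (nat_lit 6) (nat_lit 0x15400554) (nat_lit 0x200030001000400000000000000000000000300050006000400020000))) (.non (nat_lit 0) (nat_lit 5) (nat_lit 0x15555100) (nat_lit 0x200010002000200010002000200020001000000010000000000000000)))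 (.non (nat_lit 0) (nat_lit 5) (nat_lit 0x11154000) (nat_lit 0x100000001000000010001000100010000000000000000000000000000))) (.non (nat_lit 0) (nat_lit 5) (nat_lit 0x11040000) (nat_lit 0x100000001000000000001000000000000000000000000000000000000))) (.non (nat_lit 0) (nat_lit 5) (nat_lit 0x11050000) (nat_lit 0x100000001000000000001000100000000000000000000000000000000))) (.non (nat_lit 0) (nat_lit 5) (nat_lit 0x11054000) (nat_lit 0x100000001000000000001000100010000000000000000000000000000)))

noncomputable def t1537_58 : Tr := (.split (nat_lit 0xd) (nat_lit 0xc) (.st (nat_lit 0xb) (nat_lit 0) (nat_lit 6) (nat_lit 0x4400550) (nat_lit 0x10000000200000000000000000000000100020002000100000000) (nat_lit 1) (nat_lit 1) (.split (nat_lit 0xd) (nat_lit 0xb) (.ex (nat_lit 0xc) (.ex (nat_lit 0xd) (.leaf (.cons (nat_lit 0x401540) (nat_lit 0x100000000000000000003000400020003000000000000) (.cons (nat_lit 0x114005) (nat_lit 0x30000000100020000000000000000000000030004) (.cons (nat_lit 0x100015) (nat_lit 0x10000000000000000000000000000000100020002)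 .nil))) (.cons (nat_lit 0x10100000111110) (nat_lit 0x1000001) (nat_lit 0xd) (nat_lit 0x60500000140230) (.cons (nat_lit 0x1011111000001) (nat_lit 0x100010) (nat_lit 0xd) (nat_lit 0x6025401000003) .nil))) (.split (nat_lit 0xe) (nat_lit 0) (.split (nat_lit 0xe) (nat_lit 1) (.split (nat_lit 0xe) (nat_lit 2) t1537_55 (.non (nat_lit 0) (nat_lit 5) (nat_lit 0x14400150) (nat_lit 0x100010000000100000000000000000000000000010001000100000000))) (.non (nat_lit 0) (nat_lit 5) (nat_lit 0x14400154) (nat_lit 0x100010000000100000000000000000000000000010001000100010000))) (.non (nat_lit 1) (nat_lit 5) (nat_lit 0x11155001) (nat_lit 0x100000001000000030002000300040002000000000000000000000002)))) (.split (nat_lit 0xe) (nat_lit 0) (.split (nat_lit 0xe) (nat_lit 1) (.split (nat_lit 0xe) (nat_lit 2) (.split (nat_lit 0xe) (nat_lit 3) (.split (nat_lit 0xe) (nat_lit 4) (.split (nat_lit 0xe) (nat_lit 5) (.split (nat_lit 0xe) (nat_lit 6) t1537_57 (.non (nat_lit 0) (nat_lit 5) (nat_lit 0x11055000) (nat_lit 0x100000001000000000001000100010001000000000000000000000000)))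 (.non (nat_lit 0) (nat_lit 6) (nat_lit 0x15400550) (nat_lit 0x200010001000200000000000000000000000300030004000200000000))) (.non (nat_lit 0) (nat_lit 5) (nat_lit 0x15454140) (nat_lit 0x500020004000400000003000200010000000000060003000000000000))) (.non (nat_lit 0) (nat_lit 5) (nat_lit 0x15440150) (nat_lit 0x300010002000200000001000000000000000000030004000200000000))) (.non (nat_lit 0) (nat_lit 5) (nat_lit 0x11155054) (nat_lit 0x200000002000000010002000200020001000000000001000200010000))) (.non (nat_lit 0) (nat_lit 6) (nat_lit 0x14400554) (nat_lit 0x100010000000200000000000000000000000200030004000300020000))) (.non (nat_lit 1) (nat_lit 5) (nat_lit 0x11154001) (nat_lit 0x100000001000000010001000100010000000000000000000000000001)))) (.non (nat_lit 0) (nat_lit 6) (nat_lit 0x8400550) (nat_lit 0x10000000200000000000000000000000100020002000100000000)))) (.non (nat_lit 0) (nat_lit 6) (nat_lit 0x5440554) (nat_lit 0x30002000400000001000000000000000300050006000400020000)))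

noncomputable def t1537_59 : Tr := (.split (nat_lit 0xc) (nat_lit 0xb) (.st (nat_lit 9) (nat_lit 0) (nat_lit 5) (nat_lit 0x1155000) (nat_lit 0x1000000010002000200020001000000000000000000000000) (nat_lit 1) (nat_lit 1) (.split (nat_lit 0xc) (nat_lit 9) (.ex (nat_lit 0xb) (.leaf (.cons (nat_lit 0x401540) (nat_lit 0x100000000000000000003000400020003000000000000) (.cons (nat_lit 0x114005) (nat_lit 0x30000000100020000000000000000000000030004) (.cons (nat_lit 0x100015) (nat_lit 0x10000000000000000000000000000000100020002) .nil))) (.cons (nat_lit 0x100000111110) (nat_lit 0x1000001) (nat_lit 0xc) (nat_lit 0x500000140230) .nil)) (.split (nat_lit 0xd) (nat_lit 0) (.split (nat_lit 0xd) (nat_lit 1) (.split (nat_lit 0xd) (nat_lit 2) (.split (nat_lit 0xd) (nat_lit 3) (.split (nat_lit 0xd) (nat_lit 4) (.split (nat_lit 0xd) (nat_lit 5) (.split (nat_lit 0xd) (nat_lit 6) (.split (nat_lit 0xd) (nat_lit 7) (.split (nat_lit 0xd) (nat_lit 8) (.split (nat_lit 0xd) (nat_lit 9) (.split (nat_lit 0xd) (nat_lit 0xa) t1537_58 (.non (nat_lit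 0) (nat_lit 5) (nat_lit 0x5555000) (nat_lit 0x20001000100030002000300040002000000000000000000000000))) (.non (nat_lit 0) (nat_lit 5) (nat_lit 0x5155000) (nat_lit 0x10001000000010002000200020001000000000000000000000000))) (.non (nat_lit 0) (nat_lit 5) (nat_lit 0x5554000) (nat_lit 0x20001000100010002000300020000000000000000000000000000))) (.non (nat_lit 0) (nat_lit 5) (nat_lit 0x4115000) (nat_lit 0x10000000000010000000100020001000000000000000000000000))) (.non (nat_lit 0) (nat_lit 5) (nat_lit 0x5555000) (nat_lit 0x20001000100020002000300040003000000000000000000000000))) (.non (nat_lit 0) (nat_lit 6) (nat_lit 0x4400540) (nat_lit 0x10000000100000000000000000000000100010001000000000000))) (.non (nat_lit 0) (nat_lit 5) (nat_lit 0x4400100) (nat_lit 0x10000000100000000000000000000000000010000000000000000))) (.non (nat_lit 0) (nat_lit 5) (nat_lit 0x4400140) (nat_lit 0x10000000100000000000000000000000000010001000000000000))) (.non (nat_lit 0) (nat_lit 5) (nat_lit 0x4400150) (nat_lit 0x10000000100000000000000000000000000010001000100000000)))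 (.non (nat_lit 0) (nat_lit 5) (nat_lit 0x4400154) (nat_lit 0x10000000100000000000000000000000000010001000100010000))) (.non (nat_lit 1) (nat_lit 5) (nat_lit 0x5155001) (nat_lit 0x10001000000030002000300040002000000000000000000000002)))) (.non (nat_lit 0) (nat_lit 5) (nat_lit 0x2155000) (nat_lit 0x1000000010002000200020001000000000000000000000000)))) (.non (nat_lit 0) (nat_lit 6) (nat_lit 0x1450554) (nat_lit 0x3000400000002000100000000000300050006000400020000)))

noncomputable def t1537_60 : Tr := (.split (nat_lit 4) (nat_lit 3) (.split (nat_lit 0xa) (nat_lit 7) (.split (nat_lit 9) (nat_lit 8) (.split (nat_lit 5) (nat_lit 3) (.split (nat_lit 0xa) (nat_lit 0) (.ex (nat_lit 9) (.leaf (.cons (nat_lit 0x401540) (nat_lit 0x100000000000000000003000400020003000000000000) (.cons (nat_lit 0x114005) (nat_lit 0x30000000100020000000000000000000000030004) (.cons (nat_lit 0x100015) (nat_lit 0x10000000000000000000000000000000100020002) .nil))) (.cons (nat_lit 0x11111000001) (nat_lit 0x100010) (nat_lit 0xc) (nat_lit 0x43201000005)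 .nil)) (.split (nat_lit 0xc) (nat_lit 0) (.split (nat_lit 0xc) (nat_lit 1) (.split (nat_lit 0xc) (nat_lit 2) (.split (nat_lit 0xc) (nat_lit 3) (.split (nat_lit 0xc) (nat_lit 4) (.split (nat_lit 0xc) (nat_lit 5) (.split (nat_lit 0xc) (nat_lit 6) (.split (nat_lit 0xc) (nat_lit 7) (.split (nat_lit 0xc) (nat_lit 8) (.split (nat_lit 0xc) (nat_lit 0xa) t1537_59 (.non (nat_lit 0) (nat_lit 5) (nat_lit 0x1154000) (nat_lit 0x1000000010001000100010000000000000000000000000000))) (.non (nat_lit 0) (nat_lit 5) (nat_lit 0x1050000) (nat_lit 0x1000000000001000100000000000000000000000000000000))) (.non (nat_lit 0) (nat_lit 5) (nat_lit 0x1054000) (nat_lit 0x1000000000001000100010000000000000000000000000000))) (.non (nat_lit 0) (nat_lit 5) (nat_lit 0x1055000) (nat_lit 0x1000000000001000100010001000000000000000000000000))) (.non (nat_lit 0) (nat_lit 6) (nat_lit 0x1454550) (nat_lit 0x4000200000003000200010000000500040006000300000000))) (.non (nat_lit 0) (nat_lit 5) (nat_lit 0x1555140) (nat_lit 0x2000100010002000200020001000000020001000000000000)))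 (.non (nat_lit 0) (nat_lit 5) (nat_lit 0x1554150) (nat_lit 0x5000200010004000300020000000000040006000300000000))) (.non (nat_lit 0) (nat_lit 5) (nat_lit 0x1155054) (nat_lit 0x2000000010002000200020001000000000001000200010000))) (.non (nat_lit 0) (nat_lit 6) (nat_lit 0x1450554) (nat_lit 0x3000200000002000100000000000300040006000500040000))) (.non (nat_lit 1) (nat_lit 5) (nat_lit 0x1154001) (nat_lit 0x1000000010001000100010000000000000000000000000001)))) (.non (nat_lit 1) (nat_lit 5) (nat_lit 0x22a001) (nat_lit 0x20000000100020001000000000000000000000002))) (.non (nat_lit 0) (nat_lit 6) (nat_lit 0x950) (nat_lit 0x100010002000100000000))) (.non (nat_lit 0) (nat_lit 5) (nat_lit 0x195000) (nat_lit 0x10001000200020001000000000000000000000000))) (.non (nat_lit 0) (nat_lit 5) (nat_lit 0x215000) (nat_lit 0x10000000100020001000000000000000000000000))) (.non (nat_lit 0) (nat_lit 5) (nat_lit 0x800254) (nat_lit 0x100000000000000000000000000020003000200010000)))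

noncomputable def t1537_61 : Tr := (.ex (nat_lit 4) (.ex (nat_lit 5) (.split (nat_lit 0xa) (nat_lit 0) (.split (nat_lit 4) (nat_lit 3) (.split (nat_lit 5) (nat_lit 3) (.pd (.cons (nat_lit 2) (nat_lit 7) (nat_lit 0x1100000000) (nat_lit 0x8905333000) (nat_lit 0xf423f000010000100000f423f54591f423f0671100000f423f17500) .nil) (.split (nat_lit 0xa) (nat_lit 7) (.split (nat_lit 9) (nat_lit 8) t1537_54 (.non (nat_lit 0) (nat_lit 5) (nat_lit 0x195000) (nat_lit 0x10001000200020001000000000000000000000000))) (.non (nat_lit 0) (nat_lit 5) (nat_lit 0x215000) (nat_lit 0x10000000100020001000000000000000000000000)))) (.non (nat_lit 0) (nat_lit 6) (nat_lit 0x950) (nat_lit 0x100010002000100000000))) (.non (nat_lit 0) (nat_lit 6) (nat_lit 0x650) (nat_lit 0x100010002000100000000))) (.non (nat_lit 1) (nat_lit 5) (nat_lit 0x22a001) (nat_lit 0x20000000100020001000000000000000000000002))) (.split (nat_lit 0xb) (nat_lit 0) (.split (nat_lit 0xb) (nat_lit 1) (.split (nat_lit 0xb) (nat_lit 2) (.split (nat_lit 0xb) (nat_lit 3) (.split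 (nat_lit 0xb) (nat_lit 4) (.split (nat_lit 0xb) (nat_lit 6) (.split (nat_lit 0xb) (nat_lit 7) (.split (nat_lit 0xb) (nat_lit 8) (.split (nat_lit 0xb) (nat_lit 9) (.split (nat_lit 0xb) (nat_lit 0xa) (.sup (nat_lit 0x30000000000000000000000000000000100050005) (nat_lit 0x300000000000000000004000500000001000000000000)) (.non (nat_lit 0) (nat_lit 6) (nat_lit 0x514554) (nat_lit 0x400030000000100020000000500030006000400020000))) (.non (nat_lit 0) (nat_lit 6) (nat_lit 0x454554) (nat_lit 0x400000003000200010000000500030006000400020000))) (.non (nat_lit 0) (nat_lit 5) (nat_lit 0x555000) (nat_lit 0x100010001000200020001000000000000000000000000))) (.non (nat_lit 0) (nat_lit 5) (nat_lit 0x515000) (nat_lit 0x100010000000100020001000000000000000000000000))) (.non (nat_lit 1) (nat_lit 5) (nat_lit 0x555001) (nat_lit 0x100020001000200030002000000000000000000000001))) (.non (nat_lit 0) (nat_lit 6) (nat_lit 0x400540) (nat_lit 0x100000000000000000000000100010001000000000000))) (.non (nat_lit 0) (nat_lit 6) (nat_lit 0x400440) (nat_lit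 0x100000000000000000000000100000001000000000000))) (.non (nat_lit 0) (nat_lit 6) (nat_lit 0x400450) (nat_lit 0x100000000000000000000000100000001000100000000))) (.star (nat_lit 0xb) (nat_lit 1) (nat_lit 5))) (.star (nat_lit 0xb) (nat_lit 0) (nat_lit 5)))) (.split (nat_lit 0xb) (nat_lit 0) (.split (nat_lit 0xb) (nat_lit 1) (.split (nat_lit 0xb) (nat_lit 2) (.split (nat_lit 0xb) (nat_lit 3) (.split (nat_lit 0xb) (nat_lit 5) (.split (nat_lit 0xb) (nat_lit 6) (.split (nat_lit 0xb) (nat_lit 7) (.split (nat_lit 0xb) (nat_lit 8) (.split (nat_lit 0xb) (nat_lit 9) (.split (nat_lit 0xb) (nat_lit 0xa) (.st (nat_lit 4) (nat_lit 0) (nat_lit 6) (nat_lit 0x400550) (nat_lit 0x100000000000000000000000100020002000100000000) (nat_lit 1) (nat_lit 1) (.st (nat_lit 5) (nat_lit 0) (nat_lit 6) (nat_lit 0x400554) (nat_lit 0x100000000000000000000000200020003000200010000) (nat_lit 1) (nat_lit 1) (.split (nat_lit 0xb) (nat_lit 4) t1537_60 (.non (nat_lit 0) (nat_lit 6) (nat_lit 0x800550) (nat_lit 0x100000000000000000000000100020002000100000000)))))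 (.non (nat_lit 0) (nat_lit 5) (nat_lit 0x555150) (nat_lit 0x400050002000400060003000000030002000100000000))) (.non (nat_lit 0) (nat_lit 6) (nat_lit 0x454554) (nat_lit 0x400000003000200010000000300050006000400020000))) (.non (nat_lit 0) (nat_lit 5) (nat_lit 0x555000) (nat_lit 0x100010001000200020001000000000000000000000000))) (.non (nat_lit 0) (nat_lit 5) (nat_lit 0x515000) (nat_lit 0x100010000000100020001000000000000000000000000))) (.non (nat_lit 0) (nat_lit 5) (nat_lit 0x555150) (nat_lit 0x400030002000400060005000000030002000100000000))) (.non (nat_lit 0) (nat_lit 6) (nat_lit 0x400540) (nat_lit 0x100000000000000000000000100010001000000000000))) (.non (nat_lit 0) (nat_lit 5) (nat_lit 0x400140) (nat_lit 0x100000000000000000000000000010001000000000000))) (.non (nat_lit 0) (nat_lit 5) (nat_lit 0x400150) (nat_lit 0x100000000000000000000000000010001000100000000))) (.non (nat_lit 0) (nat_lit 5) (nat_lit 0x400154) (nat_lit 0x100000000000000000000000000010001000100010000))) (.non (nat_lit 1) (nat_lit 5) (nat_lit 0x555141)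 (nat_lit 0x300050002000400060003000000020001000000000004))))

noncomputable def t1537_62 : Tr := (.ex (nat_lit 0) (.ex (nat_lit 1) t1537_61 (.split (nat_lit 0xb) (nat_lit 2) (.split (nat_lit 0xb) (nat_lit 3) (.split (nat_lit 0xb) (nat_lit 4) (.split (nat_lit 0xb) (nat_lit 5) (.split (nat_lit 0xb) (nat_lit 6) (.split (nat_lit 0xb) (nat_lit 7) (.split (nat_lit 0xb) (nat_lit 8) (.split (nat_lit 0xb) (nat_lit 0xa) (.split (nat_lit 0xb) (nat_lit 0) (.split (nat_lit 0xb) (nat_lit 9) (.unj (nat_lit 0x400015) (nat_lit 0x100000000000000000000000000000000000100020002) (nat_lit 0x55400) (nat_lit 0x1000200030004000300000000000000000000)) (.sup (nat_lit 0x300000000000000000000000000000000000100050004) (nat_lit 0x30005000500000001000000000000))) (.split (nat_lit 0xb) (nat_lit 9) (.unj (nat_lit 0x400005) (nat_lit 0x100000000000000000000000000000000000000010001) (nat_lit 0x5440) (nat_lit 0x10002000200000001000000000000)) (.non (nat_lit 1) (nat_lit 5) (nat_lit 0x554001) (nat_lit 0x100010001000100010000000000000000000000000001))))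 (.non (nat_lit 0) (nat_lit 5) (nat_lit 0x555054) (nat_lit 0x400050002000400060003000000000001000200030000))) (.non (nat_lit 0) (nat_lit 5) (nat_lit 0x555000) (nat_lit 0x100010001000200020001000000000000000000000000))) (.non (nat_lit 0) (nat_lit 5) (nat_lit 0x515000) (nat_lit 0x100010000000100020001000000000000000000000000))) (.star (nat_lit 0xb) (nat_lit 1) (nat_lit 6))) (.star (nat_lit 0xb) (nat_lit 1) (nat_lit 5))) (.non (nat_lit 0) (nat_lit 5) (nat_lit 0x400154) (nat_lit 0x100000000000000000000000000010001000100010000))) (.non (nat_lit 0) (nat_lit 5) (nat_lit 0x400054) (nat_lit 0x100000000000000000000000000000001000100010000))) (.non (nat_lit 0) (nat_lit 5) (nat_lit 0x400014) (nat_lit 0x100000000000000000000000000000000000100010000)))) (.split (nat_lit 0xb) (nat_lit 2) (.split (nat_lit 0xb) (nat_lit 3) (.split (nat_lit 0xb) (nat_lit 4) (.split (nat_lit 0xb) (nat_lit 5) (.split (nat_lit 0xb) (nat_lit 6) (.split (nat_lit 0xb) (nat_lit 7) (.split (nat_lit 0xb) (nat_lit 8) (.split (nat_lit 0xb) (nat_lit 9) (.split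 (nat_lit 0xb) (nat_lit 0xa) (.split (nat_lit 0xb) (nat_lit 1) (.unj (nat_lit 0x400015) (nat_lit 0x100000000000000000000000000000000000100020002) (nat_lit 0x55400) (nat_lit 0x1000200030004000300000000000000000000)) (.unj (nat_lit 0x400005) (nat_lit 0x100000000000000000000000000000000000000010001) (nat_lit 0x5440) (nat_lit 0x10002000200000001000000000000))) (.non (nat_lit 1) (nat_lit 5) (nat_lit 0x500001) (nat_lit 0x100010000000000000000000000000000000000000001))) (.non (nat_lit 1) (nat_lit 5) (nat_lit 0x554001) (nat_lit 0x100010001000100010000000000000000000000000001))) (.non (nat_lit 0) (nat_lit 5) (nat_lit 0x555000) (nat_lit 0x100010001000200020001000000000000000000000000))) (.non (nat_lit 0) (nat_lit 5) (nat_lit 0x515000) (nat_lit 0x100010000000100020001000000000000000000000000))) (.star (nat_lit 0xb) (nat_lit 0) (nat_lit 6))) (.star (nat_lit 0xb) (nat_lit 0) (nat_lit 5))) (.non (nat_lit 1) (nat_lit 5) (nat_lit 0x555141) (nat_lit 0x300050002000400060003000000020001000000000004))) (.non (nat_lit 0) (nat_lit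 6) (nat_lit 0x400550) (nat_lit 0x100000000000000000000000100010002000100000000))) (.non (nat_lit 0) (nat_lit 6) (nat_lit 0x400554) (nat_lit 0x100000000000000000000000100010002000200010000))))

noncomputable def t1537_63 : Tr := (.split (nat_lit 0xa) (nat_lit 1) (.split (nat_lit 0xa) (nat_lit 4) (.split (nat_lit 0xa) (nat_lit 7) (.split (nat_lit 0xa) (nat_lit 8) (.split (nat_lit 0xa) (nat_lit 9) (.unj (nat_lit 0x100015) (nat_lit 0x10000000000000000000000000000000100020002) (nat_lit 0x55400) (nat_lit 0x1000200030004000300000000000000000000)) (.sup (nat_lit 0x5000000000000000000000000000000020009000a) (nat_lit 0x5000a000900000002000000000000))) (.split (nat_lit 0xa) (nat_lit 9) (.sup (nat_lit 0x5000000000000000000000000000000020009000a) (nat_lit 0x5000a000900000002000000000000)) (.non (nat_lit 0) (nat_lit 5) (nat_lit 0x150000) (nat_lit 0x10001000100000000000000000000000000000000)))) (.split (nat_lit 0xa) (nat_lit 8) (.split (nat_lit 0xa) (nat_lit 9) (.st (nat_lit 6) (nat_lit 1) (nat_lit 5) (nat_lit 0x155001) (nat_lit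 0x20001000200030002000000000000000000000001) (nat_lit 1) (nat_lit 1) (.st (nat_lit 0xa) (nat_lit 1) (nat_lit 5) (nat_lit 0x115001) (nat_lit 0x20000000100020001000000000000000000000001) (nat_lit 1) (nat_lit 1) (.st (nat_lit 7) (nat_lit 0) (nat_lit 5) (nat_lit 0x115000) (nat_lit 0x10000000100020001000000000000000000000000) (nat_lit 1) (nat_lit 1) (.st (nat_lit 8) (nat_lit 0) (nat_lit 5) (nat_lit 0x155000) (nat_lit 0x10001000200020001000000000000000000000000) (nat_lit 1) (nat_lit 1) t1537_62)))) (.non (nat_lit 0) (nat_lit 5) (nat_lit 0x154000) (nat_lit 0x10001000100010000000000000000000000000000))) (.non (nat_lit 0) (nat_lit 5) (nat_lit 0x114000) (nat_lit 0x10000000100010000000000000000000000000000)))) (.split (nat_lit 0xa) (nat_lit 7) (.split (nat_lit 0xa) (nat_lit 8) (.split (nat_lit 0xa) (nat_lit 9) (.unj (nat_lit 0x100015) (nat_lit 0x10000000000000000000000000000000100020002) (nat_lit 0x55400) (nat_lit 0x1000200030004000300000000000000000000)) (.non (nat_lit 0) (nat_lit 6) (nat_lit 0x154554) (nat_lit 0x40003000200010000000300050006000400020000)))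 (.non (nat_lit 0) (nat_lit 5) (nat_lit 0x155154) (nat_lit 0x50003000600040002000000040003000200010000))) (.non (nat_lit 0) (nat_lit 5) (nat_lit 0x155154) (nat_lit 0x50002000400060003000000040003000200010000)))) (.split (nat_lit 0xa) (nat_lit 4) (.split (nat_lit 0xa) (nat_lit 7) (.split (nat_lit 0xa) (nat_lit 8) (.split (nat_lit 0xa) (nat_lit 9) (.unj (nat_lit 0x100005) (nat_lit 0x10000000000000000000000000000000000010001) (nat_lit 0x5440) (nat_lit 0x10002000200000001000000000000)) (.unj (nat_lit 0x100005) (nat_lit 0x10000000000000000000000000000000000010001) (nat_lit 0x5440) (nat_lit 0x10002000200000001000000000000))) (.non (nat_lit 0) (nat_lit 5) (nat_lit 0x155154) (nat_lit 0x50003000600040002000000010002000300040000))) (.non (nat_lit 0) (nat_lit 5) (nat_lit 0x155154) (nat_lit 0x50002000400060003000000010002000300040000))) (.non (nat_lit 0) (nat_lit 5) (nat_lit 0x100154) (nat_lit 0x10000000000000000000000010001000100010000))))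

noncomputable def t1537_64 : Tr := (.ex (nat_lit 5) (.pd (.cons (nat_lit 2) (nat_lit 7) (nat_lit 0) (nat_lit 0x8804633000) (nat_lit 0xf423fb71ae0000054591f423f437a2174ea00000f423f54591) (.cons (nat_lit 3) (nat_lit 7) (nat_lit 0) (nat_lit 0x8804640100) (nat_lit 0xf423fb71ae0000054591f423f437a200000f423fb71ae1f156) (.cons (nat_lit 4) (nat_lit 7) (nat_lit 0) (nat_lit 0x8805502100) (nat_lit 0xf423fb71ae00000f423f5459100000f423fb71aea2c2804737) (.cons (nat_lit 4) (nat_lit 8) (nat_lit 0) (nat_lit 0x9065502100) (nat_lit 0xf423f00000f423fb71ae1f15600000f423fb71aea2c2804737) .nil)))) (.ex (nat_lit 8) (.pd (.cons (nat_lit 4) (nat_lit 9) (nat_lit 0) (nat_lit 0x765502100) (nat_lit 0xf423fb71aea2c280473700000f423fb71aea2c2804737) .nil) (.leaf (.cons (nat_lit 0x1550) (nat_lit 0x4000300030002000100000000) (.cons (nat_lit 0x5500) (nat_lit 0x10002000200010000000000000000) .nil)) (.cons (nat_lit 0x1111000) (nat_lit 0x10000100) (nat_lit 0x10) (nat_lit 0x1023000) .nil))) (.split (nat_lit 0xa) (nat_lit 0) (.split (nat_lit 0xa)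 (nat_lit 1) (.split (nat_lit 0xa) (nat_lit 2) (.split (nat_lit 0xa) (nat_lit 3) (.split (nat_lit 0xa) (nat_lit 4) (.split (nat_lit 0xa) (nat_lit 5) (.split (nat_lit 0xa) (nat_lit 6) (.split (nat_lit 0xa) (nat_lit 7) (.split (nat_lit 0xa) (nat_lit 9) (.leaf (.cons (nat_lit 0x1550) (nat_lit 0x4000300030002000100000000) (.cons (nat_lit 0x5500) (nat_lit 0x10002000200010000000000000000) (.cons (nat_lit 0x115400) (nat_lit 0x10000000200030004000300000000000000000000) .nil))) (.cons (nat_lit 0x1111000) (nat_lit 0x10000100) (nat_lit 0x10) (nat_lit 0x1023000) .nil)) (.non (nat_lit 0) (nat_lit 5) (nat_lit 0x150000) (nat_lit 0x10001000100000000000000000000000000000000))) (.non (nat_lit 0) (nat_lit 5) (nat_lit 0x114000) (nat_lit 0x10000000100010000000000000000000000000000))) (.non (nat_lit 0) (nat_lit 5) (nat_lit 0x115000) (nat_lit 0x10000000100010001000000000000000000000000))) (.non (nat_lit 2) (nat_lit 7) (nat_lit 0x151400) (nat_lit 0x30001000200000003000400000000000000000000))) (.non (nat_lit 0) (nat_lit 5) (nat_lit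 0x115100) (nat_lit 0x10000000100010001000000010000000000000000))) (.non (nat_lit 0) (nat_lit 5) (nat_lit 0x115140) (nat_lit 0x10000000100010001000000010001000000000000))) (.non (nat_lit 0) (nat_lit 5) (nat_lit 0x115150) (nat_lit 0x10000000100010001000000010001000100000000))) (.non (nat_lit 0) (nat_lit 5) (nat_lit 0x155114) (nat_lit 0x30002000400030002000000010000000100020000))) (.non (nat_lit 1) (nat_lit 5) (nat_lit 0x155151) (nat_lit 0x40003000600050004000000030002000100000002))))) (.split (nat_lit 0xa) (nat_lit 0) (.split (nat_lit 0xa) (nat_lit 1) (.split (nat_lit 0xa) (nat_lit 2) (.split (nat_lit 0xa) (nat_lit 3) (.split (nat_lit 0xa) (nat_lit 4) (.split (nat_lit 0xa) (nat_lit 6) (.split (nat_lit 0xa) (nat_lit 7) (.split (nat_lit 0xa) (nat_lit 8) (.split (nat_lit 0xa) (nat_lit 9) (.sup (nat_lit 0x30002000300050006000700000000000000000000) (nat_lit 0x3000d00160020001a)) (.sup (nat_lit 0x10001000100010001000100000000000000000000) (nat_lit 0x10003000600080006))) (.split (nat_lit 0xa) (nat_lit 9) (.sup (nat_lit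 0x10001000100010001000100000000000000000000) (nat_lit 0x20004000600080006)) (.non (nat_lit 0) (nat_lit 5) (nat_lit 0x150000) (nat_lit 0x10001000100000000000000000000000000000000)))) (.non (nat_lit 0) (nat_lit 5) (nat_lit 0x155154) (nat_lit 0x30002000400060005000000040003000200010000))) (.non (nat_lit 0) (nat_lit 5) (nat_lit 0x155150) (nat_lit 0x20001000200030004000000030002000100000000))) (.non (nat_lit 0) (nat_lit 5) (nat_lit 0x115154) (nat_lit 0x20000000100020003000000040003000200010000))) (.non (nat_lit 0) (nat_lit 5) (nat_lit 0x155154) (nat_lit 0x30001000200030004000000050006000400020000))) (.non (nat_lit 3) (nat_lit 6) (nat_lit 0x100415) (nat_lit 0x20000000000000000000100000000000300040003))) (.star (nat_lit 0xa) (nat_lit 1) (nat_lit 5))) (.star (nat_lit 0xa) (nat_lit 0) (nat_lit 5))))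

noncomputable def t1537_65 : Tr := (.pd (.cons (nat_lit 2) (nat_lit 5) (nat_lit 0) (nat_lit 0x8764033000) (nat_lit 0xf423fb71aea2c289896500000927bd8e6a200000f423f54591) (.cons (nat_lit 2) (nat_lit 6) (nat_lit 0) (nat_lit 0x8770533000) (nat_lit 0xf423fb71aea2c2800000f423ff423fb71ae00000f423f54591) .nil)) (.ex (nat_lit 2) (.pd (.cons (nat_lit 3) (nat_lit 5) (nat_lit 0) (nat_lit 0x8764040100) (nat_lit 0xf423fb71aea2c289896500000927bd00000f423fb71ae1f156) (.cons (nat_lit 3) (nat_lit 6) (nat_lit 0) (nat_lit 0x8770540100) (nat_lit 0xf423fb71aea2c2800000f423ff423f00000f423fb71ae1f156) (.cons (nat_lit 4) (nat_lit 5) (nat_lit 0) (nat_lit 0x8766002100) (nat_lit 0xf423fb71aea2c28989650000000000f423fb71aea2c2804737) (.cons (nat_lit 4) (nat_lit 6) (nat_lit 0) (nat_lit 0x8770502100) (nat_lit 0xf423fb71aea2c2800000f423f00000f423fb71aea2c2804737) .nil)))) t1537_64) (.split (nat_lit 0xa) (nat_lit 1) (.split (nat_lit 0xa) (nat_lit 3) (.split (nat_lit 0xa) (nat_lit 4) (.split (nat_lit 0xa) (nat_lit 6) (.split (nat_lit 0xa) (nat_lit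 7) (.split (nat_lit 0xa) (nat_lit 8) (.split (nat_lit 0xa) (nat_lit 9) (.split (nat_lit 0xa) (nat_lit 0) (.split (nat_lit 0xa) (nat_lit 5) (.unj (nat_lit 0x100055) (nat_lit 0x10000000000000000000000000001000200020002) (nat_lit 0x55400) (nat_lit 0x1000200030004000300000000000000000000)) (.split (nat_lit 0xa) (nat_lit 2) (.split (nat_lit 0xa) (nat_lit 5) (.sup (nat_lit 0x10000000000000000000000000007000e00140010) (nat_lit 0x5000a000f0014000f00000000000000000000)) (.non (nat_lit 0) (nat_lit 6) (nat_lit 0x100854) (nat_lit 0x20000000000000000000100000001000200010000))) (.non (nat_lit 0) (nat_lit 5) (nat_lit 0x200054) (nat_lit 0x10000000000000000000000000001000200010000)))) (.split (nat_lit 0xa) (nat_lit 5) (.unj (nat_lit 0x100015) (nat_lit 0x10000000000000000000000000000000100010001) (nat_lit 0x5500) (nat_lit 0x10002000200010000000000000000)) (.star (nat_lit 0xa) (nat_lit 0) (nat_lit 5)))) (.non (nat_lit 0) (nat_lit 5) (nat_lit 0x155150) (nat_lit 0x10001000100010001000000010001000100000000))) (.non (nat_lit 0) (nat_lit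 5) (nat_lit 0x115150) (nat_lit 0x10000000100010001000000010001000100000000))) (.non (nat_lit 0) (nat_lit 5) (nat_lit 0x155110) (nat_lit 0x20001000200030002000000010000000100000000))) (.non (nat_lit 0) (nat_lit 5) (nat_lit 0x101150) (nat_lit 0x10000000000000001000000010001000100000000))) (.non (nat_lit 0) (nat_lit 5) (nat_lit 0x100150) (nat_lit 0x10000000000000000000000010001000100000000))) (.non (nat_lit 0) (nat_lit 5) (nat_lit 0x100050) (nat_lit 0x10000000000000000000000000001000100000000))) (.non (nat_lit 0) (nat_lit 5) (nat_lit 0x100014) (nat_lit 0x10000000000000000000000000000000100010000)))))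

noncomputable def t1537_66 : Tr := (.pd (.cons (nat_lit 3) (nat_lit 5) (nat_lit 0) (nat_lit 0x8764040100) (nat_lit 0xf423f7a11e7a11c7a11a000007a11800000f423fb71ae1f156) (.cons (nat_lit 3) (nat_lit 6) (nat_lit 0) (nat_lit 0x8770540100) (nat_lit 0xf423f7a11e7a11c00000f423ff423f00000f423fb71ae1f156) (.cons (nat_lit 4) (nat_lit 5) (nat_lit 0) (nat_lit 0x8766002100) (nat_lit 0xf423f7a11e7a11c7a11a0000000000f423fb71aea2c2804737) (.cons (nat_lit 4) (nat_lit 6) (nat_lit 0) (nat_lit 0x8770502100) (nat_lit 0xf423f7a11e7a11c00000f423f00000f423fb71aea2c2804737) .nil)))) (.st (nat_lit 8) (nat_lit 0) (nat_lit 5) (nat_lit 0x94000) (nat_lit 0x1000200010000000000000000000000000000) (nat_lit 1) (nat_lit 1) (.st (nat_lit 9) (nat_lit 0) (nat_lit 5) (nat_lit 0x95000) (nat_lit 0x2000300020001000000000000000000000000) (nat_lit 2) (nat_lit 1) (.ex (nat_lit 5) (.pd (.cons (nat_lit 2) (nat_lit 7) (nat_lit 0) (nat_lit 0x8804633000) (nat_lit 0xf423f7a11e0000054591f423f437a2174ea00000f423f54591) (.cons (nat_lit 3) (nat_lit 7) (nat_lit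 0) (nat_lit 0x8804640100) (nat_lit 0xf423f7a11e0000054591f423f437a200000f423fb71ae1f156) (.cons (nat_lit 4) (nat_lit 7) (nat_lit 0) (nat_lit 0x8805502100) (nat_lit 0xf423f7a11e00000f423f5459100000f423fb71aea2c2804737) (.cons (nat_lit 4) (nat_lit 8) (nat_lit 0) (nat_lit 0x9065502100) (nat_lit 0xf423f00000f423fb71ae1f15600000f423fb71aea2c2804737) (.cons (nat_lit 4) (nat_lit 9) (nat_lit 0) (nat_lit 0x765502100) (nat_lit 0xf423fb71aea2c280473700000f423fb71aea2c2804737) .nil))))) (.leaf (.cons (nat_lit 0x1550) (nat_lit 0x4000300030002000100000000) (.cons (nat_lit 0x5500) (nat_lit 0x10002000200010000000000000000) .nil)) (.cons (nat_lit 0x1111000) (nat_lit 0x10000100) (nat_lit 0x10) (nat_lit 0x1023000) .nil))) (.split (nat_lit 0xa) (nat_lit 0) (.split (nat_lit 0xa) (nat_lit 1) (.split (nat_lit 0xa) (nat_lit 2) (.split (nat_lit 0xa) (nat_lit 3) (.split (nat_lit 0xa) (nat_lit 4) (.split (nat_lit 0xa) (nat_lit 6) (.split (nat_lit 0xa) (nat_lit 7) (.split (nat_lit 0xa) (nat_lit 8) (.split (nat_lit 0xa) (nat_lit 9) (.sup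 (nat_lit 0x10002000300030003000300000000000000000000) (nat_lit 0x20007000b0010000d)) (.non (nat_lit 0) (nat_lit 5) (nat_lit 0x295000) (nat_lit 0x10002000300020001000000000000000000000000))) (.non (nat_lit 0) (nat_lit 5) (nat_lit 0x194000) (nat_lit 0x10001000200010000000000000000000000000000))) (.non (nat_lit 0) (nat_lit 5) (nat_lit 0x195000) (nat_lit 0x10001000200020001000000000000000000000000))) (.non (nat_lit 0) (nat_lit 5) (nat_lit 0x195100) (nat_lit 0x10001000200020002000000010000000000000000))) (.non (nat_lit 0) (nat_lit 5) (nat_lit 0x195140) (nat_lit 0x10001000200020002000000020001000000000000))) (.non (nat_lit 0) (nat_lit 5) (nat_lit 0x195150) (nat_lit 0x10001000200020002000000020002000100000000))) (.non (nat_lit 0) (nat_lit 5) (nat_lit 0x195154) (nat_lit 0x10001000200020002000000020002000200010000))) (.star (nat_lit 0xa) (nat_lit 1) (nat_lit 5))) (.star (nat_lit 0xa) (nat_lit 0) (nat_lit 5)))))))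

noncomputable def t1537_67 : Tr := (.ex (nat_lit 0) (.ex (nat_lit 1) (.split (nat_lit 4) (nat_lit 3) (.split (nat_lit 6) (nat_lit 4) (.split (nat_lit 9) (nat_lit 8) t1537_65 (.split (nat_lit 9) (nat_lit 8) (.pd (.cons (nat_lit 2) (nat_lit 5) (nat_lit 0) (nat_lit 0x8764033000) (nat_lit 0xf423f7a11e7a11c7a11a000007a1187a11600000f423f54591) (.cons (nat_lit 2) (nat_lit 6) (nat_lit 0) (nat_lit 0x8770533000) (nat_lit 0xf423f7a11e7a11c00000f423ff423fb71ae00000f423f54591) .nil)) (.st (nat_lit 2) (nat_lit 0) (nat_lit 5) (nat_lit 0x95154) (nat_lit 0x1000200020002000000020002000200010000) (nat_lit 1) (nat_lit 1) t1537_66)) (.non (nat_lit 0) (nat_lit 5) (nat_lit 0x55100) (nat_lit 0x3000400030002000000010000000000000000)))) (.non (nat_lit 0) (nat_lit 5) (nat_lit 0x2a140) (nat_lit 0x100020003000000040002000000000000))) (.non (nat_lit 0) (nat_lit 5) (nat_lit 0xa250) (nat_lit 0x10002000000030004000200000000))) (.split (nat_lit 0xa) (nat_lit 2) (.split (nat_lit 0xa) (nat_lit 3) (.split (nat_lit 0xa) (nat_lit 4) (.split (nat_lit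 0xa) (nat_lit 5) (.split (nat_lit 0xa) (nat_lit 6) (.split (nat_lit 0xa) (nat_lit 7) (.split (nat_lit 0xa) (nat_lit 8) (.split (nat_lit 0xa) (nat_lit 9) (.split (nat_lit 0xa) (nat_lit 0) (.unj (nat_lit 0x100015) (nat_lit 0x10000000000000000000000000000000100020002) (nat_lit 0x5500) (nat_lit 0x10002000200010000000000000000)) (.unj (nat_lit 0x100005) (nat_lit 0x10000000000000000000000000000000000010001) (nat_lit 0x5500) (nat_lit 0x10002000200010000000000000000))) (.non (nat_lit 0) (nat_lit 5) (nat_lit 0x155154) (nat_lit 0x10001000100010001000000010001000100010000))) (.non (nat_lit 0) (nat_lit 5) (nat_lit 0x155114) (nat_lit 0x30002000400030002000000010000000100020000))) (.non (nat_lit 0) (nat_lit 5) (nat_lit 0x155104) (nat_lit 0x20001000200030002000000010000000000010000))) (.star (nat_lit 0xa) (nat_lit 1) (nat_lit 6))) (.star (nat_lit 0xa) (nat_lit 1) (nat_lit 5))) (.non (nat_lit 0) (nat_lit 5) (nat_lit 0x100154) (nat_lit 0x10000000000000000000000010001000100010000))) (.non (nat_lit 0) (nat_lit 5) (nat_lit 0x100054)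 (nat_lit 0x10000000000000000000000000001000100010000))) (.non (nat_lit 0) (nat_lit 5) (nat_lit 0x100014) (nat_lit 0x10000000000000000000000000000000100010000)))) (.split (nat_lit 0xa) (nat_lit 3) (.split (nat_lit 0xa) (nat_lit 4) (.split (nat_lit 0xa) (nat_lit 5) (.split (nat_lit 0xa) (nat_lit 6) (.split (nat_lit 0xa) (nat_lit 7) (.split (nat_lit 0xa) (nat_lit 8) (.split (nat_lit 0xa) (nat_lit 1) (.split (nat_lit 0xa) (nat_lit 2) (.split (nat_lit 0xa) (nat_lit 9) (.unj (nat_lit 0x100015) (nat_lit 0x10000000000000000000000000000000100020002) (nat_lit 0x5500) (nat_lit 0x10002000200010000000000000000)) (.unj (nat_lit 0x100015) (nat_lit 0x10000000000000000000000000000000100020002) (nat_lit 0x5500) (nat_lit 0x10002000200010000000000000000))) (.split (nat_lit 0xa) (nat_lit 9) (.unj (nat_lit 0x100015) (nat_lit 0x10000000000000000000000000000000100010001) (nat_lit 0x5500) (nat_lit 0x10002000200010000000000000000)) (.non (nat_lit 0) (nat_lit 5) (nat_lit 0x155150) (nat_lit 0x10001000100010001000000010001000100000000))))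 (.split (nat_lit 0xa) (nat_lit 2) (.split (nat_lit 0xa) (nat_lit 9) (.unj (nat_lit 0x100005) (nat_lit 0x10000000000000000000000000000000000010001) (nat_lit 0x5500) (nat_lit 0x10002000200010000000000000000)) (.non (nat_lit 0) (nat_lit 5) (nat_lit 0x155154) (nat_lit 0x10001000100010001000000010001000100010000))) (.non (nat_lit 0) (nat_lit 5) (nat_lit 0x100014) (nat_lit 0x10000000000000000000000000000000100010000)))) (.non (nat_lit 1) (nat_lit 5) (nat_lit 0x155151) (nat_lit 0x40003000600050004000000030002000100000002))) (.non (nat_lit 0) (nat_lit 5) (nat_lit 0x155154) (nat_lit 0x30002000400060005000000040003000200010000))) (.star (nat_lit 0xa) (nat_lit 0) (nat_lit 6))) (.star (nat_lit 0xa) (nat_lit 0) (nat_lit 5))) (.non (nat_lit 0) (nat_lit 5) (nat_lit 0x115154) (nat_lit 0x20000000100020003000000040003000200010000))) (.non (nat_lit 0) (nat_lit 5) (nat_lit 0x155154) (nat_lit 0x30001000200030004000000050006000400020000))))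

noncomputable def t1537_68 : Tr := (.ex (nat_lit 0xa) (.ex (nat_lit 0xb) (.split (nat_lit 0xa) (nat_lit 5) (.split (nat_lit 0xb) (nat_lit 0xa) (.pd (.cons (nat_lit 4) (nat_lit 7) (nat_lit 0) (nat_lit 0xa58805502100) (nat_lit 0xf423fb71aef423fb71ae00000f423f02f7a00000f423fb71aea2c2804737) .nil) (.leaf (.cons (nat_lit 0x1500) (nat_lit 0x1000100010000000000000000) (.cons (nat_lit 0x105400) (nat_lit 0x10000000000010002000200000000000000000000) .nil)) .nil)) (.leaf (.cons (nat_lit 0x501400) (nat_lit 0x100010000000000000001000100000000000000000000) .nil) .nil)) (.non (nat_lit 0) (nat_lit 6) (nat_lit 0xa00540) (nat_lit 0x100020000000000000000000300020001000000000000))) (.split (nat_lit 0xc) (nat_lit 0) (.split (nat_lit 0xc) (nat_lit 1) (.split (nat_lit 0xc) (nat_lit 2) (.split (nat_lit 0xc) (nat_lit 3) (.split (nat_lit 0xc) (nat_lit 4) (.split (nat_lit 0xc) (nat_lit 5) (.split (nat_lit 0xc) (nat_lit 6) (.split (nat_lit 0xc) (nat_lit 7) (.split (nat_lit 0xc) (nat_lit 8) (.split (nat_lit 0xc) (nat_lit 0xa) (.split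 (nat_lit 0xc) (nat_lit 9) (.leaf (.cons (nat_lit 0x1501400) (nat_lit 0x1000200030000000000000003000400000000000000000000) .nil) .nil) (.leaf (.cons (nat_lit 0x1501400) (nat_lit 0x1000200030000000000000003000400000000000000000000) .nil) .nil)) (.non (nat_lit 0) (nat_lit 5) (nat_lit 0x1500000) (nat_lit 0x1000100010000000000000000000000000000000000000000))) (.non (nat_lit 0) (nat_lit 5) (nat_lit 0x1555100) (nat_lit 0x3000200010002000400030002000000010000000000000000))) (.non (nat_lit 0) (nat_lit 5) (nat_lit 0x1455100) (nat_lit 0x2000100000001000200030002000000010000000000000000))) (.non (nat_lit 0) (nat_lit 5) (nat_lit 0x1555100) (nat_lit 0x3000200010001000200030004000000020000000000000000))) (.non (nat_lit 0) (nat_lit 6) (nat_lit 0x1500400) (nat_lit 0x1000100010000000000000000000100000000000000000000))) (.non (nat_lit 0) (nat_lit 5) (nat_lit 0x1515140) (nat_lit 0x3000200010000000100020003000000040002000000000000))) (.non (nat_lit 0) (nat_lit 5) (nat_lit 0x1505150) (nat_lit 0x3000200010000000000010002000000030004000200000000)))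 (.non (nat_lit 0) (nat_lit 5) (nat_lit 0x1501154) (nat_lit 0x3000200010000000000000001000000020003000400020000))) (.non (nat_lit 0) (nat_lit 6) (nat_lit 0x1500554) (nat_lit 0x1000100010000000000000000000100010001000100010000))) (.non (nat_lit 2) (nat_lit 5) (nat_lit 0x1500005) (nat_lit 0x3000200010000000000000000000000000000000000030004)))) (.split (nat_lit 0xc) (nat_lit 0) (.split (nat_lit 0xc) (nat_lit 1) (.split (nat_lit 0xc) (nat_lit 2) (.split (nat_lit 0xc) (nat_lit 3) (.split (nat_lit 0xc) (nat_lit 4) (.split (nat_lit 0xc) (nat_lit 5) (.split (nat_lit 0xc) (nat_lit 6) (.split (nat_lit 0xc) (nat_lit 7) (.split (nat_lit 0xc) (nat_lit 8) (.split (nat_lit 0xc) (nat_lit 9) (.split (nat_lit 0xc) (nat_lit 0xb) (.leaf (.cons (nat_lit 0x1501400) (nat_lit 0x1000100020000000000000002000200000000000000000000) .nil) .nil) (.non (nat_lit 0) (nat_lit 5) (nat_lit 0x1500000) (nat_lit 0x1000100010000000000000000000000000000000000000000))) (.non (nat_lit 0) (nat_lit 6) (nat_lit 0x1550540) (nat_lit 0x3000200040002000100000000000300020001000000000000)))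 (.non (nat_lit 0) (nat_lit 5) (nat_lit 0x1555100) (nat_lit 0x3000100020002000400030002000000010000000000000000))) (.non (nat_lit 0) (nat_lit 5) (nat_lit 0x1155100) (nat_lit 0x2000000010001000200030002000000010000000000000000))) (.non (nat_lit 0) (nat_lit 5) (nat_lit 0x1555100) (nat_lit 0x3000100020001000200030004000000020000000000000000))) (.non (nat_lit 0) (nat_lit 6) (nat_lit 0x1100400) (nat_lit 0x1000000010000000000000000000100000000000000000000))) (.non (nat_lit 0) (nat_lit 5) (nat_lit 0x1515140) (nat_lit 0x3000100020000000100020003000000040002000000000000))) (.non (nat_lit 0) (nat_lit 5) (nat_lit 0x1505150) (nat_lit 0x3000100020000000000010002000000030004000200000000))) (.non (nat_lit 0) (nat_lit 5) (nat_lit 0x1501154) (nat_lit 0x3000100020000000000000001000000020003000400020000))) (.non (nat_lit 0) (nat_lit 6) (nat_lit 0x1100554) (nat_lit 0x1000000010000000000000000000100010001000100010000))) (.non (nat_lit 2) (nat_lit 5) (nat_lit 0x1500005) (nat_lit 0x3000100020000000000000000000000000000000000030004))))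

noncomputable def t1537_69 : Tr := (.ex (nat_lit 5) (.ex (nat_lit 0xa) (.split (nat_lit 0xa) (nat_lit 5) (.pd (.cons (nat_lit 4) (nat_lit 7) (nat_lit 0) (nat_lit 0x58805502100) (nat_lit 0xf423ff423fb71ae00000f423f1750000000f423fb71aea2c2804737) .nil) (.leaf (.cons (nat_lit 0x1500) (nat_lit 0x1000100010000000000000000) (.cons (nat_lit 0x105400) (nat_lit 0x10000000000010002000200000000000000000000) .nil)) .nil)) (.leaf (.cons (nat_lit 0x101400) (nat_lit 0x10000000000000001000100000000000000000000) .nil) .nil)) (.split (nat_lit 0xb) (nat_lit 0) (.split (nat_lit 0xb) (nat_lit 1) (.split (nat_lit 0xb) (nat_lit 2) (.split (nat_lit 0xb) (nat_lit 3) (.split (nat_lit 0xb) (nat_lit 4) (.split (nat_lit 0xb) (nat_lit 5) (.split (nat_lit 0xb) (nat_lit 6) (.split (nat_lit 0xb) (nat_lit 7) (.split (nat_lit 0xb) (nat_lit 8) (.split (nat_lit 0xb) (nat_lit 9) t1537_68 (.leaf (.cons (nat_lit 0x541400) (nat_lit 0x200030001000000000003000400000000000000000000) (.cons (nat_lit 0x105400) (nat_lit 0x10000000000010002000200000000000000000000)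 .nil)) .nil)) (.non (nat_lit 0) (nat_lit 5) (nat_lit 0x555150) (nat_lit 0x400020003000600050004000000030002000100000000))) (.non (nat_lit 0) (nat_lit 5) (nat_lit 0x555100) (nat_lit 0x200010001000200030002000000010000000000000000))) (.non (nat_lit 0) (nat_lit 5) (nat_lit 0x515140) (nat_lit 0x200010000000100020003000000020001000000000000))) (.non (nat_lit 0) (nat_lit 6) (nat_lit 0x500400) (nat_lit 0x100010000000000000000000100000000000000000000))) (.non (nat_lit 0) (nat_lit 5) (nat_lit 0x505150) (nat_lit 0x200010000000000010002000000030002000100000000))) (.non (nat_lit 0) (nat_lit 5) (nat_lit 0x555150) (nat_lit 0x400020001000200030004000000050006000300000000))) (.non (nat_lit 0) (nat_lit 5) (nat_lit 0x515154) (nat_lit 0x400020000000100020003000000040005000600030000))) (.non (nat_lit 0) (nat_lit 6) (nat_lit 0x500554) (nat_lit 0x100010000000000000000000100010001000100010000))) (.non (nat_lit 2) (nat_lit 6) (nat_lit 0x500405) (nat_lit 0x300020000000000000000000100000000000000030004)))) (.split (nat_lit 0xb) (nat_lit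 0) (.split (nat_lit 0xb) (nat_lit 1) (.split (nat_lit 0xb) (nat_lit 2) (.split (nat_lit 0xb) (nat_lit 3) (.split (nat_lit 0xb) (nat_lit 4) (.split (nat_lit 0xb) (nat_lit 6) (.split (nat_lit 0xb) (nat_lit 7) (.split (nat_lit 0xb) (nat_lit 8) (.split (nat_lit 0xb) (nat_lit 9) (.split (nat_lit 0xb) (nat_lit 0xa) (.leaf (.cons (nat_lit 0x501400) (nat_lit 0x100010000000000000002000200000000000000000000) .nil) .nil) (.non (nat_lit 0) (nat_lit 6) (nat_lit 0x500400) (nat_lit 0x100010000000000000000000100000000000000000000))) (.non (nat_lit 0) (nat_lit 6) (nat_lit 0x550550) (nat_lit 0x300020002000100000000000400030002000100000000))) (.non (nat_lit 0) (nat_lit 6) (nat_lit 0x554500) (nat_lit 0x200010001000200010000000200010000000000000000))) (.non (nat_lit 0) (nat_lit 5) (nat_lit 0x455154) (nat_lit 0x300000002000400060005000000040003000200010000))) (.non (nat_lit 0) (nat_lit 5) (nat_lit 0x455150) (nat_lit 0x200000001000200030004000000030002000100000000))) (.non (nat_lit 0) (nat_lit 5) (nat_lit 0x415154) (nat_lit 0x200000000000100020003000000040003000200010000)))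 (.non (nat_lit 0) (nat_lit 5) (nat_lit 0x455154) (nat_lit 0x300000001000200030004000000050006000400020000))) (.non (nat_lit 0) (nat_lit 6) (nat_lit 0x400550) (nat_lit 0x100000000000000000000000100010001000100000000))) (.star (nat_lit 0xb) (nat_lit 1) (nat_lit 5))) (.star (nat_lit 0xb) (nat_lit 0) (nat_lit 5))))

noncomputable def t1537_70 : Tr := (.ex (nat_lit 5) (.pd (.cons (nat_lit 4) (nat_lit 7) (nat_lit 0) (nat_lit 0x8805502100) (nat_lit 0xf423fb71ae00000f423f5459100000f423fb71aea2c2804737) (.cons (nat_lit 4) (nat_lit 8) (nat_lit 0) (nat_lit 0x9065502100) (nat_lit 0xf423f00000f423fb71ae1f15600000f423fb71aea2c2804737) .nil)) (.ex (nat_lit 8) (.pd (.cons (nat_lit 4) (nat_lit 9) (nat_lit 0) (nat_lit 0x765502100) (nat_lit 0xf423fb71aea2c280473700000f423fb71aea2c2804737) .nil) (.leaf (.cons (nat_lit 0x1500) (nat_lit 0x1000100010000000000000000) .nil) .nil)) (.split (nat_lit 0xa) (nat_lit 0) (.split (nat_lit 0xa) (nat_lit 1) (.split (nat_lit 0xa) (nat_lit 2) (.split (nat_lit 0xa) (nat_lit 3) (.split (nat_lit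 0xa) (nat_lit 4) (.split (nat_lit 0xa) (nat_lit 5) (.split (nat_lit 0xa) (nat_lit 6) (.split (nat_lit 0xa) (nat_lit 7) (.split (nat_lit 0xa) (nat_lit 9) (.leaf (.cons (nat_lit 0x1500) (nat_lit 0x1000100010000000000000000) (.cons (nat_lit 0x115400) (nat_lit 0x10000000200030004000300000000000000000000) .nil)) .nil) (.non (nat_lit 0) (nat_lit 5) (nat_lit 0x150000) (nat_lit 0x10001000100000000000000000000000000000000))) (.non (nat_lit 0) (nat_lit 5) (nat_lit 0x114000) (nat_lit 0x10000000100010000000000000000000000000000))) (.non (nat_lit 0) (nat_lit 5) (nat_lit 0x115000) (nat_lit 0x10000000100010001000000000000000000000000))) (.non (nat_lit 4) (nat_lit 7) (nat_lit 0x151400) (nat_lit 0x30001000200000003000400000000000000000000))) (.non (nat_lit 0) (nat_lit 5) (nat_lit 0x115100) (nat_lit 0x10000000100010001000000010000000000000000))) (.non (nat_lit 0) (nat_lit 5) (nat_lit 0x115140) (nat_lit 0x10000000100010001000000010001000000000000))) (.non (nat_lit 0) (nat_lit 5) (nat_lit 0x115150) (nat_lit 0x10000000100010001000000010001000100000000)))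 (.non (nat_lit 0) (nat_lit 5) (nat_lit 0x155114) (nat_lit 0x30002000400030002000000010000000100020000))) (.non (nat_lit 1) (nat_lit 5) (nat_lit 0x155151) (nat_lit 0x40003000600050004000000030002000100000002))))) (.split (nat_lit 0xa) (nat_lit 0) (.split (nat_lit 0xa) (nat_lit 1) (.split (nat_lit 0xa) (nat_lit 2) (.split (nat_lit 0xa) (nat_lit 3) (.split (nat_lit 0xa) (nat_lit 4) (.split (nat_lit 0xa) (nat_lit 6) (.split (nat_lit 0xa) (nat_lit 7) (.split (nat_lit 0xa) (nat_lit 8) (.split (nat_lit 0xa) (nat_lit 9) t1537_69 (.leaf (.cons (nat_lit 0x151400) (nat_lit 0x30002000100000003000400000000000000000000) (.cons (nat_lit 0x105400) (nat_lit 0x10000000000010002000200000000000000000000) .nil)) .nil)) (.split (nat_lit 0xa) (nat_lit 9) (.sup (nat_lit 0x3000d00160020001a) (nat_lit 0x50003000600050003000300000000000000000000)) (.non (nat_lit 0) (nat_lit 5) (nat_lit 0x150000) (nat_lit 0x10001000100000000000000000000000000000000)))) (.non (nat_lit 0) (nat_lit 5) (nat_lit 0x155154) (nat_lit 0x30002000400060005000000040003000200010000)))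 (.non (nat_lit 0) (nat_lit 5) (nat_lit 0x155150) (nat_lit 0x20001000200030004000000030002000100000000))) (.non (nat_lit 0) (nat_lit 5) (nat_lit 0x115154) (nat_lit 0x20000000100020003000000040003000200010000))) (.non (nat_lit 0) (nat_lit 5) (nat_lit 0x155154) (nat_lit 0x30001000200030004000000050006000400020000))) (.non (nat_lit 0) (nat_lit 6) (nat_lit 0x100550) (nat_lit 0x10000000000000000000100010001000100000000))) (.star (nat_lit 0xa) (nat_lit 1) (nat_lit 5))) (.star (nat_lit 0xa) (nat_lit 0) (nat_lit 5))))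

noncomputable def t1537_71 : Tr := (.pd (.cons (nat_lit 3) (nat_lit 5) (nat_lit 0) (nat_lit 0x8764040100) (nat_lit 0xf423fb71aea2c289896500000927bd00000f423fb71ae1f156) (.cons (nat_lit 3) (nat_lit 6) (nat_lit 0) (nat_lit 0x8770440100) (nat_lit 0xf423fb71aea2c2800000f423f7a11e00000f423fb71ae1f156) (.cons (nat_lit 4) (nat_lit 5) (nat_lit 0) (nat_lit 0x8766002100) (nat_lit 0xf423fb71aea2c28989650000000000f423fb71aea2c2804737) (.cons (nat_lit 4) (nat_lit 6) (nat_lit 0) (nat_lit 0x8770502100) (nat_lit 0xf423fb71aea2c2800000f423f00000f423fb71aea2c2804737) .nil)))) (.st (nat_lit 5) (nat_lit 0) (nat_lit 6) (nat_lit 0x950) (nat_lit 0x200030002000100000000) (nat_lit 2) (nat_lit 1) (.pd (.cons (nat_lit 4) (nat_lit 7) (nat_lit 0) (nat_lit 0x8805502100) (nat_lit 0xf423fb71ae00000f423f5459100000f423fb71aea2c2804737) (.cons (nat_lit 4) (nat_lit 8) (nat_lit 0) (nat_lit 0x9065502100) (nat_lit 0xf423f00000f423fb71ae1f15600000f423fb71aea2c2804737) .nil)) (.ex (nat_lit 8) (.pd (.cons (nat_lit 4) (nat_lit 9) (nat_lit 0) (nat_lit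 0x765502100) (nat_lit 0xf423fb71aea2c280473700000f423fb71aea2c2804737) .nil) (.leaf (.cons (nat_lit 0x1500) (nat_lit 0x1000100010000000000000000) .nil) .nil)) (.split (nat_lit 0xa) (nat_lit 0) (.split (nat_lit 0xa) (nat_lit 1) (.split (nat_lit 0xa) (nat_lit 2) (.split (nat_lit 0xa) (nat_lit 3) (.split (nat_lit 0xa) (nat_lit 4) (.split (nat_lit 0xa) (nat_lit 5) (.split (nat_lit 0xa) (nat_lit 6) (.split (nat_lit 0xa) (nat_lit 7) (.split (nat_lit 0xa) (nat_lit 9) (.leaf (.cons (nat_lit 0x1500) (nat_lit 0x1000100010000000000000000) (.cons (nat_lit 0x115400) (nat_lit 0x10000000200030004000300000000000000000000) .nil)) .nil) (.non (nat_lit 0) (nat_lit 5) (nat_lit 0x150000) (nat_lit 0x10001000100000000000000000000000000000000))) (.non (nat_lit 0) (nat_lit 5) (nat_lit 0x114000) (nat_lit 0x10000000100010000000000000000000000000000))) (.non (nat_lit 0) (nat_lit 5) (nat_lit 0x115000) (nat_lit 0x10000000100010001000000000000000000000000))) (.non (nat_lit 0) (nat_lit 6) (nat_lit 0x2a8900) (nat_lit 0x20001000200010000000200020000000000000000)))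 (.non (nat_lit 0) (nat_lit 5) (nat_lit 0x115100) (nat_lit 0x10000000100010001000000010000000000000000))) (.non (nat_lit 0) (nat_lit 5) (nat_lit 0x115140) (nat_lit 0x10000000100010001000000010001000000000000))) (.non (nat_lit 0) (nat_lit 5) (nat_lit 0x115150) (nat_lit 0x10000000100010001000000010001000100000000))) (.non (nat_lit 0) (nat_lit 5) (nat_lit 0x155114) (nat_lit 0x30002000400030002000000010000000100020000))) (.non (nat_lit 1) (nat_lit 5) (nat_lit 0x155151) (nat_lit 0x40003000600050004000000030002000100000002)))))))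

noncomputable def t1537_72 : Tr := (.split (nat_lit 5) (nat_lit 4) (.pd (.cons (nat_lit 2) (nat_lit 5) (nat_lit 0) (nat_lit 0x8764033000) (nat_lit 0xf423fb71aea2c289896500000927bd8e6a200000f423f54591) (.cons (nat_lit 2) (nat_lit 6) (nat_lit 0) (nat_lit 0x8770433000) (nat_lit 0xf423fb71aea2c2800000f423fb71aea2c2800000f423f54591) .nil)) (.ex (nat_lit 2) (.pd (.cons (nat_lit 3) (nat_lit 5) (nat_lit 0) (nat_lit 0x8764040100) (nat_lit 0xf423fb71aea2c289896500000927bd00000f423fb71ae1f156) (.cons (nat_lit 3) (nat_lit 6) (nat_lit 0) (nat_lit 0x8770440100) (nat_lit 0xf423fb71aea2c2800000f423fb71ae00000f423fb71ae1f156) (.cons (nat_lit 4) (nat_lit 5) (nat_lit 0) (nat_lit 0x8766002100) (nat_lit 0xf423fb71aea2c28989650000000000f423fb71aea2c2804737) (.cons (nat_lit 4) (nat_lit 6) (nat_lit 0) (nat_lit 0x8770502100) (nat_lit 0xf423fb71aea2c2800000f423f00000f423fb71aea2c2804737) .nil)))) t1537_70) (.split (nat_lit 0xa) (nat_lit 1) (.split (nat_lit 0xa) (nat_lit 3) (.split (nat_lit 0xa) (nat_lit 4) (.split (nat_lit 0xa) (nat_lit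 5) (.split (nat_lit 0xa) (nat_lit 6) (.split (nat_lit 0xa) (nat_lit 7) (.split (nat_lit 0xa) (nat_lit 8) (.split (nat_lit 0xa) (nat_lit 9) (.split (nat_lit 0xa) (nat_lit 0) (.unj (nat_lit 0x100055) (nat_lit 0x10000000000000000000000000001000200020002) (nat_lit 0x55400) (nat_lit 0x1000200030004000300000000000000000000)) (.unj (nat_lit 0x1500) (nat_lit 0x1000100010000000000000000) (nat_lit 0x100015) (nat_lit 0x10000000000000000000000000000000100010001))) (.non (nat_lit 0) (nat_lit 5) (nat_lit 0x155150) (nat_lit 0x10001000100010001000000010001000100000000))) (.non (nat_lit 0) (nat_lit 5) (nat_lit 0x115150) (nat_lit 0x10000000100010001000000010001000100000000))) (.non (nat_lit 0) (nat_lit 5) (nat_lit 0x155110) (nat_lit 0x20001000200030002000000010000000100000000))) (.non (nat_lit 0) (nat_lit 5) (nat_lit 0x101150) (nat_lit 0x10000000000000001000000010001000100000000))) (.non (nat_lit 0) (nat_lit 6) (nat_lit 0x100550) (nat_lit 0x10000000000000000000100010001000100000000))) (.non (nat_lit 0) (nat_lit 5) (nat_lit 0x100150)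 (nat_lit 0x10000000000000000000000010001000100000000))) (.non (nat_lit 0) (nat_lit 5) (nat_lit 0x100050) (nat_lit 0x10000000000000000000000000001000100000000))) (.non (nat_lit 0) (nat_lit 5) (nat_lit 0x100014) (nat_lit 0x10000000000000000000000000000000100010000))))) (.split (nat_lit 5) (nat_lit 4) (.pd (.cons (nat_lit 2) (nat_lit 5) (nat_lit 0) (nat_lit 0x8764033000) (nat_lit 0xf423fb71aea2c289896500000927bd8e6a200000f423f54591) (.cons (nat_lit 2) (nat_lit 6) (nat_lit 0) (nat_lit 0x8770433000) (nat_lit 0xf423fb71aea2c2800000f423f7a11e7a11c00000f423f54591) .nil)) (.st (nat_lit 2) (nat_lit 0) (nat_lit 6) (nat_lit 0x954) (nat_lit 0x100020002000200010000) (nat_lit 1) (nat_lit 1) t1537_71)) (.non (nat_lit 0) (nat_lit 6) (nat_lit 0x554) (nat_lit 0x300040003000200010000))))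

noncomputable def t1537_73 : Tr := (.ex (nat_lit 0xa) (.ex (nat_lit 0xb) (.split (nat_lit 0xa) (nat_lit 5) (.split (nat_lit 0xb) (nat_lit 0xa) (.pd (.cons (nat_lit 4) (nat_lit 7) (nat_lit 0) (nat_lit 0xa58805502100) (nat_lit 0xf423fb71aef423f7a11e00000f423f02f7a00000f423fb71aea2c2804737) .nil) (.leaf (.cons (nat_lit 0x1500) (nat_lit 0x1000100010000000000000000) (.cons (nat_lit 0x105400) (nat_lit 0x10000000000010002000200000000000000000000) .nil)) .nil)) (.leaf (.cons (nat_lit 0x501400) (nat_lit 0x100010000000000000001000100000000000000000000) .nil) .nil)) (.non (nat_lit 0) (nat_lit 6) (nat_lit 0xa00540) (nat_lit 0x100020000000000000000000300020001000000000000))) (.split (nat_lit 0xc) (nat_lit 0) (.split (nat_lit 0xc) (nat_lit 1) (.split (nat_lit 0xc) (nat_lit 2) (.split (nat_lit 0xc) (nat_lit 3) (.split (nat_lit 0xc) (nat_lit 4) (.split (nat_lit 0xc) (nat_lit 5) (.split (nat_lit 0xc) (nat_lit 6) (.split (nat_lit 0xc) (nat_lit 7) (.split (nat_lit 0xc) (nat_lit 8) (.split (nat_lit 0xc) (nat_lit 9) (.split (nat_lit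 0xc) (nat_lit 0xa) (.leaf (.cons (nat_lit 0x1501400) (nat_lit 0x1000200030000000000000003000400000000000000000000) .nil) .nil) (.non (nat_lit 0) (nat_lit 5) (nat_lit 0x1500000) (nat_lit 0x1000100010000000000000000000000000000000000000000))) (.non (nat_lit 0) (nat_lit 5) (nat_lit 0x2894000) (nat_lit 0x2000100000003000400020000000000000000000000000000))) (.non (nat_lit 0) (nat_lit 5) (nat_lit 0x1094000) (nat_lit 0x1000000000001000200010000000000000000000000000000))) (.non (nat_lit 0) (nat_lit 5) (nat_lit 0x1095000) (nat_lit 0x1000000000001000200020001000000000000000000000000))) (.non (nat_lit 0) (nat_lit 5) (nat_lit 0x1095100) (nat_lit 0x1000000000001000200020002000000010000000000000000))) (.non (nat_lit 0) (nat_lit 6) (nat_lit 0x1500400) (nat_lit 0x1000100010000000000000000000100000000000000000000))) (.non (nat_lit 0) (nat_lit 5) (nat_lit 0x1515140) (nat_lit 0x3000200010000000100020003000000040002000000000000))) (.non (nat_lit 0) (nat_lit 5) (nat_lit 0x1505150) (nat_lit 0x3000200010000000000010002000000030004000200000000)))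 (.non (nat_lit 0) (nat_lit 5) (nat_lit 0x1501154) (nat_lit 0x3000200010000000000000001000000020003000400020000))) (.non (nat_lit 0) (nat_lit 6) (nat_lit 0x1500554) (nat_lit 0x1000100010000000000000000000100010001000100010000))) (.non (nat_lit 2) (nat_lit 5) (nat_lit 0x1500005) (nat_lit 0x3000200010000000000000000000000000000000000030004)))) (.split (nat_lit 0xc) (nat_lit 0) (.split (nat_lit 0xc) (nat_lit 1) (.split (nat_lit 0xc) (nat_lit 2) (.split (nat_lit 0xc) (nat_lit 3) (.split (nat_lit 0xc) (nat_lit 4) (.split (nat_lit 0xc) (nat_lit 5) (.split (nat_lit 0xc) (nat_lit 6) (.split (nat_lit 0xc) (nat_lit 7) (.split (nat_lit 0xc) (nat_lit 8) (.split (nat_lit 0xc) (nat_lit 9) (.split (nat_lit 0xc) (nat_lit 0xb) (.leaf (.cons (nat_lit 0x1501400) (nat_lit 0x1000100020000000000000002000200000000000000000000) .nil) .nil) (.non (nat_lit 0) (nat_lit 5) (nat_lit 0x1500000) (nat_lit 0x1000100010000000000000000000000000000000000000000))) (.non (nat_lit 0) (nat_lit 5) (nat_lit 0x2294000) (nat_lit 0x2000000010003000400020000000000000000000000000000)))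 (.non (nat_lit 0) (nat_lit 5) (nat_lit 0x1094000) (nat_lit 0x1000000000001000200010000000000000000000000000000))) (.non (nat_lit 0) (nat_lit 5) (nat_lit 0x1095000) (nat_lit 0x1000000000001000200020001000000000000000000000000))) (.non (nat_lit 0) (nat_lit 5) (nat_lit 0x1095100) (nat_lit 0x1000000000001000200020002000000010000000000000000))) (.non (nat_lit 0) (nat_lit 6) (nat_lit 0x1100400) (nat_lit 0x1000000010000000000000000000100000000000000000000))) (.non (nat_lit 0) (nat_lit 5) (nat_lit 0x1515140) (nat_lit 0x3000100020000000100020003000000040002000000000000))) (.non (nat_lit 0) (nat_lit 5) (nat_lit 0x1505150) (nat_lit 0x3000100020000000000010002000000030004000200000000))) (.non (nat_lit 0) (nat_lit 5) (nat_lit 0x1501154) (nat_lit 0x3000100020000000000000001000000020003000400020000))) (.non (nat_lit 0) (nat_lit 6) (nat_lit 0x1100554) (nat_lit 0x1000000010000000000000000000100010001000100010000))) (.non (nat_lit 2) (nat_lit 5) (nat_lit 0x1500005) (nat_lit 0x3000100020000000000000000000000000000000000030004))))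

noncomputable def t1537_74 : Tr := (.ex (nat_lit 5) (.ex (nat_lit 0xa) (.split (nat_lit 0xa) (nat_lit 5) (.pd (.cons (nat_lit 4) (nat_lit 7) (nat_lit 0) (nat_lit 0x58805502100) (nat_lit 0xf423ff423f7a11e00000f423f1750000000f423fb71aea2c2804737) .nil) (.leaf (.cons (nat_lit 0x1500) (nat_lit 0x1000100010000000000000000) (.cons (nat_lit 0x105400) (nat_lit 0x10000000000010002000200000000000000000000) .nil)) .nil)) (.leaf (.cons (nat_lit 0x101400) (nat_lit 0x10000000000000001000100000000000000000000) .nil) .nil)) (.split (nat_lit 0xb) (nat_lit 0) (.split (nat_lit 0xb) (nat_lit 1) (.split (nat_lit 0xb) (nat_lit 2) (.split (nat_lit 0xb) (nat_lit 3) (.split (nat_lit 0xb) (nat_lit 4) (.split (nat_lit 0xb) (nat_lit 5) (.split (nat_lit 0xb) (nat_lit 6) (.split (nat_lit 0xb) (nat_lit 7) (.split (nat_lit 0xb) (nat_lit 8) (.split (nat_lit 0xb) (nat_lit 9) t1537_73 (.non (nat_lit 0) (nat_lit 5) (nat_lit 0xa94000) (nat_lit 0x200010003000400020000000000000000000000000000))) (.non (nat_lit 0) (nat_lit 5) (nat_lit 0x494000)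 (nat_lit 0x100000001000200010000000000000000000000000000))) (.non (nat_lit 0) (nat_lit 5) (nat_lit 0x495000) (nat_lit 0x100000001000200020001000000000000000000000000))) (.non (nat_lit 0) (nat_lit 5) (nat_lit 0x495100) (nat_lit 0x100000001000200020002000000010000000000000000))) (.non (nat_lit 0) (nat_lit 6) (nat_lit 0x500400) (nat_lit 0x100010000000000000000000100000000000000000000))) (.non (nat_lit 0) (nat_lit 5) (nat_lit 0x495140) (nat_lit 0x100000001000200020002000000020001000000000000))) (.non (nat_lit 0) (nat_lit 5) (nat_lit 0x495150) (nat_lit 0x100000001000200020002000000020002000100000000))) (.non (nat_lit 0) (nat_lit 5) (nat_lit 0x515154) (nat_lit 0x400020000000100020003000000040005000600030000))) (.non (nat_lit 0) (nat_lit 6) (nat_lit 0x500554) (nat_lit 0x100010000000000000000000100010001000100010000))) (.non (nat_lit 2) (nat_lit 6) (nat_lit 0x500405) (nat_lit 0x300020000000000000000000100000000000000030004)))) (.split (nat_lit 0xb) (nat_lit 0) (.split (nat_lit 0xb) (nat_lit 1) (.split (nat_lit 0xb)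 (nat_lit 2) (.split (nat_lit 0xb) (nat_lit 3) (.split (nat_lit 0xb) (nat_lit 4) (.split (nat_lit 0xb) (nat_lit 6) (.split (nat_lit 0xb) (nat_lit 7) (.split (nat_lit 0xb) (nat_lit 8) (.split (nat_lit 0xb) (nat_lit 9) (.split (nat_lit 0xb) (nat_lit 0xa) (.leaf (.cons (nat_lit 0x501400) (nat_lit 0x100010000000000000002000200000000000000000000) .nil) .nil) (.non (nat_lit 0) (nat_lit 6) (nat_lit 0x500400) (nat_lit 0x100010000000000000000000100000000000000000000))) (.non (nat_lit 0) (nat_lit 5) (nat_lit 0x895000) (nat_lit 0x100000002000300020001000000000000000000000000))) (.non (nat_lit 0) (nat_lit 5) (nat_lit 0x494000) (nat_lit 0x100000001000200010000000000000000000000000000))) (.non (nat_lit 0) (nat_lit 5) (nat_lit 0x495000) (nat_lit 0x100000001000200020001000000000000000000000000))) (.non (nat_lit 0) (nat_lit 5) (nat_lit 0x495100) (nat_lit 0x100000001000200020002000000010000000000000000))) (.non (nat_lit 0) (nat_lit 5) (nat_lit 0x495140) (nat_lit 0x100000001000200020002000000020001000000000000))) (.non (nat_lit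 0) (nat_lit 5) (nat_lit 0x495150) (nat_lit 0x100000001000200020002000000020002000100000000))) (.non (nat_lit 0) (nat_lit 5) (nat_lit 0x495154) (nat_lit 0x100000001000200020002000000020002000200010000))) (.star (nat_lit 0xb) (nat_lit 1) (nat_lit 5))) (.star (nat_lit 0xb) (nat_lit 0) (nat_lit 5))))

noncomputable def t1537_75 : Tr := (.pd (.cons (nat_lit 2) (nat_lit 5) (nat_lit 0) (nat_lit 0x8764033000) (nat_lit 0xf423f7a11e7a11c7a11a000007a1187a11600000f423f54591) (.cons (nat_lit 2) (nat_lit 6) (nat_lit 0) (nat_lit 0x8770433000) (nat_lit 0xf423f7a11e7a11c00000f423fb71aea2c2800000f423f54591) .nil)) (.st (nat_lit 2) (nat_lit 0) (nat_lit 5) (nat_lit 0x95154) (nat_lit 0x1000200020002000000020002000200010000) (nat_lit 1) (nat_lit 1) (.pd (.cons (nat_lit 3) (nat_lit 5) (nat_lit 0) (nat_lit 0x8764040100) (nat_lit 0xf423f7a11e7a11c7a11a000007a11800000f423fb71ae1f156) (.cons (nat_lit 3) (nat_lit 6) (nat_lit 0) (nat_lit 0x8770440100) (nat_lit 0xf423f7a11e7a11c00000f423fb71ae00000f423fb71ae1f156) (.cons (nat_lit 4) (nat_lit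 5) (nat_lit 0) (nat_lit 0x8766002100) (nat_lit 0xf423f7a11e7a11c7a11a0000000000f423fb71aea2c2804737) (.cons (nat_lit 4) (nat_lit 6) (nat_lit 0) (nat_lit 0x8770502100) (nat_lit 0xf423f7a11e7a11c00000f423f00000f423fb71aea2c2804737) .nil)))) (.st (nat_lit 8) (nat_lit 0) (nat_lit 5) (nat_lit 0x94000) (nat_lit 0x1000200010000000000000000000000000000) (nat_lit 1) (nat_lit 1) (.ex (nat_lit 5) (.pd (.cons (nat_lit 4) (nat_lit 7) (nat_lit 0) (nat_lit 0x8805502100) (nat_lit 0xf423f7a11e00000f423f5459100000f423fb71aea2c2804737) (.cons (nat_lit 4) (nat_lit 8) (nat_lit 0) (nat_lit 0x9065502100) (nat_lit 0xf423f00000f423fb71ae1f15600000f423fb71aea2c2804737) (.cons (nat_lit 4) (nat_lit 9) (nat_lit 0) (nat_lit 0x765502100) (nat_lit 0xf423fb71aea2c280473700000f423fb71aea2c2804737) .nil))) (.leaf (.cons (nat_lit 0x1500) (nat_lit 0x1000100010000000000000000) .nil) .nil)) (.split (nat_lit 0xa) (nat_lit 0) (.split (nat_lit 0xa) (nat_lit 1) (.split (nat_lit 0xa) (nat_lit 2) (.split (nat_lit 0xa) (nat_lit 3) (.split (nat_lit 0xa)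 (nat_lit 4) (.split (nat_lit 0xa) (nat_lit 6) (.split (nat_lit 0xa) (nat_lit 7) (.split (nat_lit 0xa) (nat_lit 8) (.split (nat_lit 0xa) (nat_lit 9) t1537_74 (.non (nat_lit 0) (nat_lit 5) (nat_lit 0x295000) (nat_lit 0x10002000300020001000000000000000000000000))) (.non (nat_lit 0) (nat_lit 5) (nat_lit 0x194000) (nat_lit 0x10001000200010000000000000000000000000000))) (.non (nat_lit 0) (nat_lit 5) (nat_lit 0x195000) (nat_lit 0x10001000200020001000000000000000000000000))) (.non (nat_lit 0) (nat_lit 5) (nat_lit 0x195100) (nat_lit 0x10001000200020002000000010000000000000000))) (.non (nat_lit 0) (nat_lit 5) (nat_lit 0x195140) (nat_lit 0x10001000200020002000000020001000000000000))) (.non (nat_lit 0) (nat_lit 5) (nat_lit 0x195150) (nat_lit 0x10001000200020002000000020002000100000000))) (.non (nat_lit 0) (nat_lit 5) (nat_lit 0x195154) (nat_lit 0x10001000200020002000000020002000200010000))) (.star (nat_lit 0xa) (nat_lit 1) (nat_lit 5))) (.star (nat_lit 0xa) (nat_lit 0) (nat_lit 5))))))))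

noncomputable def t1537_76 : Tr := (.ex (nat_lit 1) (.split (nat_lit 4) (nat_lit 3) (.split (nat_lit 6) (nat_lit 4) (.split (nat_lit 9) (nat_lit 8) t1537_72 (.split (nat_lit 9) (nat_lit 8) (.split (nat_lit 5) (nat_lit 4) t1537_75 (.split (nat_lit 5) (nat_lit 4) (.pd (.cons (nat_lit 2) (nat_lit 5) (nat_lit 0) (nat_lit 0x8764033000) (nat_lit 0xf423f7a11e7a11c7a11a000007a1187a11600000f423f54591) (.cons (nat_lit 2) (nat_lit 6) (nat_lit 0) (nat_lit 0x8770433000) (nat_lit 0xf423f7a11e7a11c00000f423f7a11e7a11c00000f423f54591) .nil)) (.st (nat_lit 2) (nat_lit 0) (nat_lit 5) (nat_lit 0x95154) (nat_lit 0x1000200020002000000020002000200010000) (nat_lit 1) (nat_lit 1) (.pd (.cons (nat_lit 3) (nat_lit 5) (nat_lit 0) (nat_lit 0x8764040100) (nat_lit 0xf423f7a11e7a11c7a11a000007a11800000f423fb71ae1f156) (.cons (nat_lit 3) (nat_lit 6) (nat_lit 0) (nat_lit 0x8770440100) (nat_lit 0xf423f7a11e7a11c00000f423f7a11e00000f423fb71ae1f156) (.cons (nat_lit 4) (nat_lit 5) (nat_lit 0) (nat_lit 0x8766002100) (nat_lit 0xf423f7a11e7a11c7a11a0000000000f423fb71aea2c2804737)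 (.cons (nat_lit 4) (nat_lit 6) (nat_lit 0) (nat_lit 0x8770502100) (nat_lit 0xf423f7a11e7a11c00000f423f00000f423fb71aea2c2804737) .nil)))) (.st (nat_lit 5) (nat_lit 0) (nat_lit 6) (nat_lit 0x950) (nat_lit 0x200030002000100000000) (nat_lit 2) (nat_lit 1) (.pd (.cons (nat_lit 4) (nat_lit 7) (nat_lit 0) (nat_lit 0x8805502100) (nat_lit 0xf423f7a11e00000f423f5459100000f423fb71aea2c2804737) (.cons (nat_lit 4) (nat_lit 8) (nat_lit 0) (nat_lit 0x9065502100) (nat_lit 0xf423f00000f423fb71ae1f15600000f423fb71aea2c2804737) .nil)) (.st (nat_lit 8) (nat_lit 0) (nat_lit 5) (nat_lit 0x94000) (nat_lit 0x1000200010000000000000000000000000000) (nat_lit 1) (nat_lit 1) (.pd (.cons (nat_lit 4) (nat_lit 9) (nat_lit 0) (nat_lit 0x765502100) (nat_lit 0xf423fb71aea2c280473700000f423fb71aea2c2804737) .nil) (.leaf (.cons (nat_lit 0x1500) (nat_lit 0x1000100010000000000000000) .nil) .nil)))))))) (.non (nat_lit 0) (nat_lit 6) (nat_lit 0x554) (nat_lit 0x300040003000200010000)))) (.non (nat_lit 0) (nat_lit 5) (nat_lit 0x55100) (nat_lit 0x3000400030002000000010000000000000000))))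 (.non (nat_lit 0) (nat_lit 5) (nat_lit 0x2a140) (nat_lit 0x100020003000000040002000000000000))) (.non (nat_lit 0) (nat_lit 5) (nat_lit 0xa250) (nat_lit 0x10002000000030004000200000000))) (.split (nat_lit 0xa) (nat_lit 2) (.split (nat_lit 0xa) (nat_lit 3) (.split (nat_lit 0xa) (nat_lit 4) (.split (nat_lit 0xa) (nat_lit 5) (.split (nat_lit 0xa) (nat_lit 6) (.split (nat_lit 0xa) (nat_lit 7) (.split (nat_lit 0xa) (nat_lit 8) (.split (nat_lit 0xa) (nat_lit 9) (.split (nat_lit 0xa) (nat_lit 0) (.unj (nat_lit 0x1500) (nat_lit 0x1000100010000000000000000) (nat_lit 0x100015) (nat_lit 0x10000000000000000000000000000000100020002)) (.unj (nat_lit 0x100005) (nat_lit 0x10000000000000000000000000000000000010001) (nat_lit 0x1500) (nat_lit 0x1000100010000000000000000))) (.non (nat_lit 0) (nat_lit 5) (nat_lit 0x155154) (nat_lit 0x10001000100010001000000010001000100010000))) (.non (nat_lit 0) (nat_lit 5) (nat_lit 0x155114) (nat_lit 0x30002000400030002000000010000000100020000))) (.non (nat_lit 0) (nat_lit 5) (nat_lit 0x155104)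 (nat_lit 0x20001000200030002000000010000000000010000))) (.star (nat_lit 0xa) (nat_lit 1) (nat_lit 6))) (.star (nat_lit 0xa) (nat_lit 1) (nat_lit 5))) (.non (nat_lit 0) (nat_lit 5) (nat_lit 0x100154) (nat_lit 0x10000000000000000000000010001000100010000))) (.non (nat_lit 0) (nat_lit 5) (nat_lit 0x100054) (nat_lit 0x10000000000000000000000000001000100010000))) (.non (nat_lit 0) (nat_lit 5) (nat_lit 0x100014) (nat_lit 0x10000000000000000000000000000000100010000))))

noncomputable def t1537_77 : Tr := (.split (nat_lit 5) (nat_lit 4) (.st (nat_lit 3) (nat_lit 0) (nat_lit 5) (nat_lit 0x55154) (nat_lit 0x1000200030004000000050006000400020000) (nat_lit 1) (nat_lit 3) (.st (nat_lit 4) (nat_lit 0) (nat_lit 5) (nat_lit 0x15154) (nat_lit 0x100020003000000040003000200010000) (nat_lit 1) (nat_lit 2) (.st (nat_lit 6) (nat_lit 0) (nat_lit 5) (nat_lit 0x55150) (nat_lit 0x1000200030004000000030002000100000000) (nat_lit 1) (nat_lit 2) (.st (nat_lit 7) (nat_lit 0) (nat_lit 5) (nat_lit 0x55154) (nat_lit 0x2000400060005000000040003000200010000)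 (nat_lit 1) (nat_lit 3) t1537_67)))) (.st (nat_lit 3) (nat_lit 0) (nat_lit 5) (nat_lit 0x55154) (nat_lit 0x1000200030004000000050006000400020000) (nat_lit 1) (nat_lit 3) (.st (nat_lit 6) (nat_lit 0) (nat_lit 5) (nat_lit 0x55150) (nat_lit 0x1000200030004000000030002000100000000) (nat_lit 1) (nat_lit 2) (.st (nat_lit 7) (nat_lit 0) (nat_lit 5) (nat_lit 0x55154) (nat_lit 0x2000400060005000000040003000200010000) (nat_lit 1) (nat_lit 3) (.ex (nat_lit 0) t1537_76 (.split (nat_lit 0xa) (nat_lit 3) (.split (nat_lit 0xa) (nat_lit 4) (.split (nat_lit 0xa) (nat_lit 5) (.split (nat_lit 0xa) (nat_lit 6) (.split (nat_lit 0xa) (nat_lit 7) (.split (nat_lit 0xa) (nat_lit 8) (.split (nat_lit 0xa) (nat_lit 1) (.split (nat_lit 0xa) (nat_lit 2) (.split (nat_lit 0xa) (nat_lit 9) (.unj (nat_lit 0x1500) (nat_lit 0x1000100010000000000000000) (nat_lit 0x100015) (nat_lit 0x10000000000000000000000000000000100020002)) (.unj (nat_lit 0x1500) (nat_lit 0x1000100010000000000000000) (nat_lit 0x100015) (nat_lit 0x10000000000000000000000000000000100020002)))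 (.split (nat_lit 0xa) (nat_lit 9) (.unj (nat_lit 0x1500) (nat_lit 0x1000100010000000000000000) (nat_lit 0x100015) (nat_lit 0x10000000000000000000000000000000100010001)) (.non (nat_lit 0) (nat_lit 5) (nat_lit 0x155150) (nat_lit 0x10001000100010001000000010001000100000000)))) (.split (nat_lit 0xa) (nat_lit 2) (.split (nat_lit 0xa) (nat_lit 9) (.unj (nat_lit 0x100005) (nat_lit 0x10000000000000000000000000000000000010001) (nat_lit 0x1500) (nat_lit 0x1000100010000000000000000)) (.non (nat_lit 0) (nat_lit 5) (nat_lit 0x155154) (nat_lit 0x10001000100010001000000010001000100010000))) (.non (nat_lit 0) (nat_lit 5) (nat_lit 0x100014) (nat_lit 0x10000000000000000000000000000000100010000)))) (.non (nat_lit 1) (nat_lit 5) (nat_lit 0x155151) (nat_lit 0x40003000600050004000000030002000100000002))) (.non (nat_lit 0) (nat_lit 5) (nat_lit 0x155154) (nat_lit 0x30002000400060005000000040003000200010000))) (.star (nat_lit 0xa) (nat_lit 0) (nat_lit 6))) (.star (nat_lit 0xa) (nat_lit 0) (nat_lit 5))) (.non (nat_lit 0) (nat_lit 5)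 (nat_lit 0x115154) (nat_lit 0x20000000100020003000000040003000200010000))) (.non (nat_lit 0) (nat_lit 5) (nat_lit 0x155154) (nat_lit 0x30001000200030004000000050006000400020000))))))))

noncomputable def t1537_78 : Tr := (.split (nat_lit 9) (nat_lit 8) (.split (nat_lit 5) (nat_lit 3) (.pd (.cons (nat_lit 2) (nat_lit 5) (nat_lit 0) (nat_lit 0x8764033000) (nat_lit 0xf423f7a11e7a11c7a11a000007a1187a11600000f423f54591) (.cons (nat_lit 2) (nat_lit 6) (nat_lit 0) (nat_lit 0x8770333000) (nat_lit 0xf423f7a11e7a11c00000f423ff423f7a11d00000f423f54591) (.cons (nat_lit 3) (nat_lit 5) (nat_lit 0) (nat_lit 0x8764040100) (nat_lit 0xf423f7a11e7a11c7a11a000007a11800000f423fb71ae1f156) (.cons (nat_lit 3) (nat_lit 6) (nat_lit 0) (nat_lit 0x8770540100) (nat_lit 0xf423f7a11e7a11c00000f423ff423f00000f423fb71ae1f156) (.cons (nat_lit 4) (nat_lit 5) (nat_lit 0) (nat_lit 0x8766002100) (nat_lit 0xf423f7a11e7a11c7a11a0000000000f423fb71aea2c2804737) .nil))))) (.ex (nat_lit 5) (.pd (.cons (nat_lit 3) (nat_lit 7) (nat_lit 0) (nat_lit 0x8804640100)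 (nat_lit 0xf423f7a11e0000054591f423f437a200000f423fb71ae1f156) .nil) (.leaf (.cons (nat_lit 0x1540) (nat_lit 0x1000100010001000000000000) (.cons (nat_lit 0x5500) (nat_lit 0x10002000200010000000000000000) (.cons (nat_lit 0x455) (nat_lit 0x100000002000300040003) .nil))) .nil)) (.split (nat_lit 0xa) (nat_lit 0) (.split (nat_lit 0xa) (nat_lit 1) (.split (nat_lit 0xa) (nat_lit 2) (.split (nat_lit 0xa) (nat_lit 3) (.split (nat_lit 0xa) (nat_lit 4) (.split (nat_lit 0xa) (nat_lit 6) (.split (nat_lit 0xa) (nat_lit 7) (.split (nat_lit 0xa) (nat_lit 8) (.split (nat_lit 0xa) (nat_lit 9) (.leaf (.cons (nat_lit 0x101500) (nat_lit 0x10000000000000002000200010000000000000000) (.cons (nat_lit 0x455) (nat_lit 0x100000002000300040003) .nil)) .nil) (.non (nat_lit 0) (nat_lit 5) (nat_lit 0x295000) (nat_lit 0x10002000300020001000000000000000000000000))) (.non (nat_lit 0) (nat_lit 5) (nat_lit 0x194000) (nat_lit 0x10001000200010000000000000000000000000000))) (.non (nat_lit 0) (nat_lit 5) (nat_lit 0x195000) (nat_lit 0x10001000200020001000000000000000000000000)))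 (.non (nat_lit 0) (nat_lit 5) (nat_lit 0x195100) (nat_lit 0x10001000200020002000000010000000000000000))) (.non (nat_lit 0) (nat_lit 5) (nat_lit 0x195140) (nat_lit 0x10001000200020002000000020001000000000000))) (.non (nat_lit 0) (nat_lit 5) (nat_lit 0x195150) (nat_lit 0x10001000200020002000000020002000100000000))) (.non (nat_lit 0) (nat_lit 5) (nat_lit 0x195154) (nat_lit 0x10001000200020002000000020002000200010000))) (.star (nat_lit 0xa) (nat_lit 1) (nat_lit 5))) (.star (nat_lit 0xa) (nat_lit 0) (nat_lit 5))))) (.non (nat_lit 0) (nat_lit 6) (nat_lit 0x950) (nat_lit 0x100010002000100000000))) (.non (nat_lit 0) (nat_lit 5) (nat_lit 0x55100) (nat_lit 0x3000400030002000000010000000000000000)))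

noncomputable def t1537_79 : Tr := (.split (nat_lit 6) (nat_lit 4) (.split (nat_lit 9) (nat_lit 8) (.split (nat_lit 5) (nat_lit 3) (.pd (.cons (nat_lit 2) (nat_lit 5) (nat_lit 0) (nat_lit 0x8764033000) (nat_lit 0xf423fb71aea2c289896500000927bd8e6a200000f423f54591) (.cons (nat_lit 2) (nat_lit 6) (nat_lit 0) (nat_lit 0x8770333000) (nat_lit 0xf423fb71aea2c2800000f423ff423f7a11d00000f423f54591) (.cons (nat_lit 3) (nat_lit 5) (nat_lit 0) (nat_lit 0x8764040100) (nat_lit 0xf423fb71aea2c289896500000927bd00000f423fb71ae1f156) (.cons (nat_lit 3) (nat_lit 6) (nat_lit 0) (nat_lit 0x8770540100) (nat_lit 0xf423fb71aea2c2800000f423ff423f00000f423fb71ae1f156) (.cons (nat_lit 4) (nat_lit 5) (nat_lit 0) (nat_lit 0x8766002100) (nat_lit 0xf423fb71aea2c28989650000000000f423fb71aea2c2804737) .nil))))) (.ex (nat_lit 5) (.pd (.cons (nat_lit 3) (nat_lit 7) (nat_lit 0) (nat_lit 0x8804640100) (nat_lit 0xf423fb71ae0000054591f423f437a200000f423fb71ae1f156) .nil) (.leaf (.cons (nat_lit 0x1540) (nat_lit 0x1000100010001000000000000) (.cons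 (nat_lit 0x5500) (nat_lit 0x10002000200010000000000000000) (.cons (nat_lit 0x455) (nat_lit 0x100000002000300040003) .nil))) .nil)) (.split (nat_lit 0xa) (nat_lit 0) (.split (nat_lit 0xa) (nat_lit 1) (.split (nat_lit 0xa) (nat_lit 2) (.split (nat_lit 0xa) (nat_lit 3) (.split (nat_lit 0xa) (nat_lit 4) (.split (nat_lit 0xa) (nat_lit 6) (.split (nat_lit 0xa) (nat_lit 7) (.split (nat_lit 0xa) (nat_lit 8) (.split (nat_lit 0xa) (nat_lit 9) (.leaf (.cons (nat_lit 0x101500) (nat_lit 0x10000000000000002000200010000000000000000) (.cons (nat_lit 0x455) (nat_lit 0x100000002000300040003) .nil)) .nil) (.non (nat_lit 0) (nat_lit 6) (nat_lit 0x154554) (nat_lit 0x40003000200010000000500030006000400020000))) (.non (nat_lit 0) (nat_lit 6) (nat_lit 0x154550) (nat_lit 0x20001000200010000000200010002000100000000))) (.non (nat_lit 0) (nat_lit 5) (nat_lit 0x155154) (nat_lit 0x30002000400060005000000040003000200010000))) (.non (nat_lit 0) (nat_lit 5) (nat_lit 0x155150) (nat_lit 0x20001000200030004000000030002000100000000))) (.non (nat_lit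 0) (nat_lit 5) (nat_lit 0x115154) (nat_lit 0x20000000100020003000000040003000200010000))) (.non (nat_lit 0) (nat_lit 5) (nat_lit 0x155154) (nat_lit 0x30001000200030004000000050006000400020000))) (.non (nat_lit 0) (nat_lit 6) (nat_lit 0x100450) (nat_lit 0x10000000000000000000100000001000100000000))) (.star (nat_lit 0xa) (nat_lit 1) (nat_lit 5))) (.star (nat_lit 0xa) (nat_lit 0) (nat_lit 5))))) (.non (nat_lit 0) (nat_lit 6) (nat_lit 0x950) (nat_lit 0x100010002000100000000))) t1537_78) (.non (nat_lit 0) (nat_lit 5) (nat_lit 0x2a140) (nat_lit 0x100020003000000040002000000000000)))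

noncomputable def t1537_80 : Tr := (.ex (nat_lit 0) (.ex (nat_lit 1) (.split (nat_lit 4) (nat_lit 3) t1537_79 (.non (nat_lit 0) (nat_lit 5) (nat_lit 0xa250) (nat_lit 0x10002000000030004000200000000))) (.split (nat_lit 0xa) (nat_lit 2) (.split (nat_lit 0xa) (nat_lit 3) (.split (nat_lit 0xa) (nat_lit 4) (.split (nat_lit 0xa) (nat_lit 5) (.split (nat_lit 0xa) (nat_lit 6) (.split (nat_lit 0xa) (nat_lit 7) (.split (nat_lit 0xa) (nat_lit 8) (.split (nat_lit 0xa) (nat_lit 9) (.split (nat_lit 0xa) (nat_lit 0) (.unj (nat_lit 0x100015) (nat_lit 0x10000000000000000000000000000000100020002) (nat_lit 0x5500) (nat_lit 0x10002000200010000000000000000)) (.unj (nat_lit 0x100005) (nat_lit 0x10000000000000000000000000000000000010001) (nat_lit 0x1540) (nat_lit 0x1000100010001000000000000))) (.non (nat_lit 0) (nat_lit 5) (nat_lit 0x155154) (nat_lit 0x10001000100010001000000010001000100010000))) (.non (nat_lit 0) (nat_lit 5) (nat_lit 0x155114) (nat_lit 0x30002000400030002000000010000000100020000))) (.non (nat_lit 0) (nat_lit 5)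 (nat_lit 0x155104) (nat_lit 0x20001000200030002000000010000000000010000))) (.star (nat_lit 0xa) (nat_lit 1) (nat_lit 6))) (.star (nat_lit 0xa) (nat_lit 1) (nat_lit 5))) (.non (nat_lit 0) (nat_lit 5) (nat_lit 0x100154) (nat_lit 0x10000000000000000000000010001000100010000))) (.non (nat_lit 0) (nat_lit 5) (nat_lit 0x100054) (nat_lit 0x10000000000000000000000000001000100010000))) (.non (nat_lit 0) (nat_lit 5) (nat_lit 0x100014) (nat_lit 0x10000000000000000000000000000000100010000)))) (.split (nat_lit 0xa) (nat_lit 2) (.split (nat_lit 0xa) (nat_lit 3) (.split (nat_lit 0xa) (nat_lit 4) (.split (nat_lit 0xa) (nat_lit 5) (.split (nat_lit 0xa) (nat_lit 6) (.split (nat_lit 0xa) (nat_lit 7) (.split (nat_lit 0xa) (nat_lit 8) (.split (nat_lit 0xa) (nat_lit 1) (.split (nat_lit 0xa) (nat_lit 9) (.unj (nat_lit 0x100015) (nat_lit 0x10000000000000000000000000000000100020002) (nat_lit 0x5500) (nat_lit 0x10002000200010000000000000000)) (.unj (nat_lit 0x100015) (nat_lit 0x10000000000000000000000000000000100020002) (nat_lit 0x5500)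 (nat_lit 0x10002000200010000000000000000))) (.split (nat_lit 0xa) (nat_lit 9) (.unj (nat_lit 0x100005) (nat_lit 0x10000000000000000000000000000000000010001) (nat_lit 0x1540) (nat_lit 0x1000100010001000000000000)) (.non (nat_lit 0) (nat_lit 5) (nat_lit 0x155154) (nat_lit 0x10001000100010001000000010001000100010000)))) (.non (nat_lit 1) (nat_lit 5) (nat_lit 0x155151) (nat_lit 0x40003000600050004000000030002000100000002))) (.non (nat_lit 0) (nat_lit 5) (nat_lit 0x155154) (nat_lit 0x30002000400060005000000040003000200010000))) (.star (nat_lit 0xa) (nat_lit 0) (nat_lit 6))) (.star (nat_lit 0xa) (nat_lit 0) (nat_lit 5))) (.non (nat_lit 0) (nat_lit 5) (nat_lit 0x115154) (nat_lit 0x20000000100020003000000040003000200010000))) (.non (nat_lit 0) (nat_lit 5) (nat_lit 0x155154) (nat_lit 0x30001000200030004000000050006000400020000))) (.non (nat_lit 0) (nat_lit 6) (nat_lit 0x100554) (nat_lit 0x10000000000000000000100010002000200010000))))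

noncomputable def t1537_81 : Tr := (.split (nat_lit 6) (nat_lit 4) (.split (nat_lit 5) (nat_lit 3) (.split (nat_lit 5) (nat_lit 4) .uj t1537_12) (.split (nat_lit 5) (nat_lit 4) (.st (nat_lit 2) (nat_lit 0) (nat_lit 6) (nat_lit 0x554) (nat_lit 0x100010002000200010000) (nat_lit 1) (nat_lit 1) (.st (nat_lit 3) (nat_lit 0) (nat_lit 6) (nat_lit 0x550) (nat_lit 0x100010002000100000000) (nat_lit 1) (nat_lit 1) (.ex (nat_lit 0) (.ex (nat_lit 1) t1537_52 (.split (nat_lit 0xa) (nat_lit 2) (.split (nat_lit 0xa) (nat_lit 3) (.split (nat_lit 0xa) (nat_lit 4) (.split (nat_lit 0xa) (nat_lit 5) (.split (nat_lit 0xa) (nat_lit 6) (.split (nat_lit 0xa) (nat_lit 7) (.split (nat_lit 0xa) (nat_lit 8) (.split (nat_lit 0xa) (nat_lit 0) (.split (nat_lit 0xa) (nat_lit 9) (.unj (nat_lit 0x100015) (nat_lit 0x10000000000000000000000000000000100020002) (nat_lit 0x55400) (nat_lit 0x1000200030004000300000000000000000000)) (.sup (nat_lit 0x30000000000000000000000000000000100050004) (nat_lit 0x30005000500000001000000000000))) (.split (nat_lit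 0xa) (nat_lit 9) (.unj (nat_lit 0x100005) (nat_lit 0x10000000000000000000000000000000000010001) (nat_lit 0x5440) (nat_lit 0x10002000200000001000000000000)) (.unj (nat_lit 0x100005) (nat_lit 0x10000000000000000000000000000000000010001) (nat_lit 0x5440) (nat_lit 0x10002000200000001000000000000)))) (.non (nat_lit 0) (nat_lit 5) (nat_lit 0x155154) (nat_lit 0x50003000600040002000000010002000300040000))) (.non (nat_lit 0) (nat_lit 5) (nat_lit 0x155154) (nat_lit 0x50002000400060003000000010002000300040000))) (.star (nat_lit 0xa) (nat_lit 1) (nat_lit 6))) (.star (nat_lit 0xa) (nat_lit 1) (nat_lit 5))) (.non (nat_lit 0) (nat_lit 5) (nat_lit 0x100154) (nat_lit 0x10000000000000000000000010001000100010000))) (.non (nat_lit 0) (nat_lit 5) (nat_lit 0x100054) (nat_lit 0x10000000000000000000000000001000100010000))) (.non (nat_lit 0) (nat_lit 5) (nat_lit 0x100014) (nat_lit 0x10000000000000000000000000000000100010000)))) (.split (nat_lit 0xa) (nat_lit 2) (.split (nat_lit 0xa) (nat_lit 3) (.split (nat_lit 0xa) (nat_lit 5) (.split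 (nat_lit 0xa) (nat_lit 6) t1537_63 (.star (nat_lit 0xa) (nat_lit 0) (nat_lit 6))) (.star (nat_lit 0xa) (nat_lit 0) (nat_lit 5))) (.non (nat_lit 0) (nat_lit 6) (nat_lit 0x100550) (nat_lit 0x10000000000000000000100010002000100000000))) (.non (nat_lit 0) (nat_lit 6) (nat_lit 0x100554) (nat_lit 0x10000000000000000000100010002000200010000)))))) (.non (nat_lit 0) (nat_lit 6) (nat_lit 0x540) (nat_lit 0x100010001000000000000)))) (.split (nat_lit 5) (nat_lit 3) t1537_77 (.split (nat_lit 5) (nat_lit 4) (.st (nat_lit 2) (nat_lit 0) (nat_lit 6) (nat_lit 0x554) (nat_lit 0x100010002000200010000) (nat_lit 1) (nat_lit 1) (.st (nat_lit 3) (nat_lit 0) (nat_lit 5) (nat_lit 0x55154) (nat_lit 0x1000200030004000000050006000400020000) (nat_lit 1) (nat_lit 3) (.st (nat_lit 4) (nat_lit 0) (nat_lit 5) (nat_lit 0x15154) (nat_lit 0x100020003000000040003000200010000) (nat_lit 1) (nat_lit 2) (.st (nat_lit 6) (nat_lit 0) (nat_lit 5) (nat_lit 0x55150) (nat_lit 0x1000200030004000000030002000100000000) (nat_lit 1) (nat_lit 2) t1537_80)))) (.non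 (nat_lit 0) (nat_lit 6) (nat_lit 0x540) (nat_lit 0x100010001000000000000)))))

noncomputable def t1537_82 : Tr := (.ex (nat_lit 0xb) (.split (nat_lit 0xa) (nat_lit 5) (.split (nat_lit 0xb) (nat_lit 0xa) (.pd (.cons (nat_lit 3) (nat_lit 7) (nat_lit 0) (nat_lit 0xa58805540100) (nat_lit 0xf423fb71aef423fb71ae00000f423f02f7af423f00000f423fb71ae1f156) .nil) (.leaf (.cons (nat_lit 0x101440) (nat_lit 0x10000000000000002000200000001000000000000) (.cons (nat_lit 0x105400) (nat_lit 0x10000000000010002000200000000000000000000) (.cons (nat_lit 0x1055) (nat_lit 0x1000000000002000300040003) .nil))) (.cons (nat_lit 0x1111011110) (nat_lit 0x100001) (nat_lit 0xe) (nat_lit 0x7654010230) (.cons (nat_lit 0x1111011100) (nat_lit 0x100010) (nat_lit 0xa) (nat_lit 0x6543020100) .nil)))) (.leaf (.cons (nat_lit 0x501400) (nat_lit 0x100010000000000000001000100000000000000000000) (.cons (nat_lit 0x1055) (nat_lit 0x1000000000002000300040003) .nil)) (.cons (nat_lit 0x1111011110) (nat_lit 0x100001) (nat_lit 0xe) (nat_lit 0x7654010230) (.cons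 (nat_lit 0x1111011100) (nat_lit 0x100010) (nat_lit 0xa) (nat_lit 0x6543020100) .nil)))) (.leaf (.cons (nat_lit 0x101400) (nat_lit 0x10000000000000001000100000000000000000000) (.cons (nat_lit 0x1055) (nat_lit 0x1000000000002000300040003) .nil)) (.cons (nat_lit 0x1111011110) (nat_lit 0x100001) (nat_lit 0xe) (nat_lit 0x7654010230) (.cons (nat_lit 0x1111011100) (nat_lit 0x100010) (nat_lit 0xa) (nat_lit 0x6543020100) .nil)))) (.split (nat_lit 0xc) (nat_lit 0) (.split (nat_lit 0xc) (nat_lit 1) (.split (nat_lit 0xc) (nat_lit 2) (.split (nat_lit 0xc) (nat_lit 3) (.split (nat_lit 0xc) (nat_lit 4) (.split (nat_lit 0xc) (nat_lit 5) (.split (nat_lit 0xc) (nat_lit 6) (.split (nat_lit 0xc) (nat_lit 7) (.split (nat_lit 0xc) (nat_lit 8) (.split (nat_lit 0xc) (nat_lit 9) (.split (nat_lit 0xc) (nat_lit 0xa) (.leaf (.cons (nat_lit 0x1501400) (nat_lit 0x1000200030000000000000003000400000000000000000000) (.cons (nat_lit 0x1055) (nat_lit 0x1000000000002000300040003) .nil)) (.cons (nat_lit 0x1111011110) (nat_lit 0x100001) (nat_lit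 0xe) (nat_lit 0x7654010230) (.cons (nat_lit 0x1111011100) (nat_lit 0x100010) (nat_lit 0xa) (nat_lit 0x6543020100) .nil))) (.non (nat_lit 0) (nat_lit 5) (nat_lit 0x1500000) (nat_lit 0x1000100010000000000000000000000000000000000000000))) (.non (nat_lit 0) (nat_lit 5) (nat_lit 0x1055154) (nat_lit 0x1000000000002000300040005000000030006000400020000))) (.non (nat_lit 0) (nat_lit 5) (nat_lit 0x1555040) (nat_lit 0x3000200010002000400030002000000000001000000000000))) (.non (nat_lit 0) (nat_lit 5) (nat_lit 0x1455040) (nat_lit 0x2000100000001000200030002000000000001000000000000))) (.non (nat_lit 0) (nat_lit 5) (nat_lit 0x1555040) (nat_lit 0x3000200010001000200030004000000000002000000000000))) (.non (nat_lit 0) (nat_lit 6) (nat_lit 0x1500400) (nat_lit 0x1000100010000000000000000000100000000000000000000))) (.non (nat_lit 0) (nat_lit 5) (nat_lit 0x1415150) (nat_lit 0x2000100000000000100020003000000030004000200000000))) (.non (nat_lit 0) (nat_lit 5) (nat_lit 0x1515140) (nat_lit 0x3000200010000000100020003000000020004000000000000)))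 (.non (nat_lit 0) (nat_lit 5) (nat_lit 0x1415150) (nat_lit 0x2000100000000000100020003000000020004000300000000))) (.non (nat_lit 0) (nat_lit 5) (nat_lit 0x1505154) (nat_lit 0x3000200010000000000020004000000030006000500040000))) (.non (nat_lit 2) (nat_lit 5) (nat_lit 0x1500005) (nat_lit 0x3000200010000000000000000000000000000000000030004))))

noncomputable def t1537_83 : Tr := (.split (nat_lit 0xb) (nat_lit 6) (.split (nat_lit 0xb) (nat_lit 7) (.split (nat_lit 0xb) (nat_lit 8) (.split (nat_lit 0xb) (nat_lit 9) (.ex (nat_lit 0xa) t1537_82 (.split (nat_lit 0xc) (nat_lit 0) (.split (nat_lit 0xc) (nat_lit 1) (.split (nat_lit 0xc) (nat_lit 2) (.split (nat_lit 0xc) (nat_lit 3) (.split (nat_lit 0xc) (nat_lit 4) (.split (nat_lit 0xc) (nat_lit 5) (.split (nat_lit 0xc) (nat_lit 6) (.split (nat_lit 0xc) (nat_lit 7) (.split (nat_lit 0xc) (nat_lit 8) (.split (nat_lit 0xc) (nat_lit 9) (.split (nat_lit 0xc) (nat_lit 0xb) (.leaf (.cons (nat_lit 0x1501400) (nat_lit 0x1000100020000000000000002000200000000000000000000) (.cons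 (nat_lit 0x1055) (nat_lit 0x1000000000002000300040003) .nil)) (.cons (nat_lit 0x1111011110) (nat_lit 0x100001) (nat_lit 0xe) (nat_lit 0x7654010230) (.cons (nat_lit 0x1111011100) (nat_lit 0x100010) (nat_lit 0xa) (nat_lit 0x6543020100) .nil))) (.non (nat_lit 0) (nat_lit 5) (nat_lit 0x1500000) (nat_lit 0x1000100010000000000000000000000000000000000000000))) (.non (nat_lit 0) (nat_lit 5) (nat_lit 0x1055154) (nat_lit 0x1000000000002000300040005000000030006000400020000))) (.non (nat_lit 0) (nat_lit 5) (nat_lit 0x1555040) (nat_lit 0x3000100020002000400030002000000000001000000000000))) (.non (nat_lit 0) (nat_lit 5) (nat_lit 0x1155040) (nat_lit 0x2000000010001000200030002000000000001000000000000))) (.non (nat_lit 0) (nat_lit 5) (nat_lit 0x1555040) (nat_lit 0x3000100020001000200030004000000000002000000000000))) (.non (nat_lit 0) (nat_lit 6) (nat_lit 0x1100400) (nat_lit 0x1000000010000000000000000000100000000000000000000))) (.non (nat_lit 0) (nat_lit 5) (nat_lit 0x1115150) (nat_lit 0x2000000010000000100020003000000030004000200000000)))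 (.non (nat_lit 0) (nat_lit 5) (nat_lit 0x1515140) (nat_lit 0x3000100020000000100020003000000020004000000000000))) (.non (nat_lit 0) (nat_lit 5) (nat_lit 0x1115150) (nat_lit 0x2000000010000000100020003000000020004000300000000))) (.non (nat_lit 0) (nat_lit 5) (nat_lit 0x1505154) (nat_lit 0x3000100020000000000020004000000030006000500040000))) (.non (nat_lit 2) (nat_lit 5) (nat_lit 0x1500005) (nat_lit 0x3000100020000000000000000000000000000000000030004)))) (.non (nat_lit 0) (nat_lit 5) (nat_lit 0x455154) (nat_lit 0x100000002000300040005000000030006000400020000))) (.non (nat_lit 0) (nat_lit 5) (nat_lit 0x455150) (nat_lit 0x100000001000200020002000000010002000100000000))) (.non (nat_lit 0) (nat_lit 5) (nat_lit 0x555040) (nat_lit 0x200010001000200030002000000000001000000000000))) (.non (nat_lit 0) (nat_lit 5) (nat_lit 0x515140) (nat_lit 0x200010000000100020003000000010002000000000000)))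

noncomputable def t1537_84 : Tr := (.ex (nat_lit 5) (.ex (nat_lit 0xa) (.split (nat_lit 0xa) (nat_lit 5) (.pd (.cons (nat_lit 3) (nat_lit 7) (nat_lit 0) (nat_lit 0x58805540100) (nat_lit 0xf423ff423fb71ae00000f423f17500f423f00000f423fb71ae1f156) .nil) (.leaf (.cons (nat_lit 0x101440) (nat_lit 0x10000000000000002000200000001000000000000) (.cons (nat_lit 0x105400) (nat_lit 0x10000000000010002000200000000000000000000) (.cons (nat_lit 0x1055) (nat_lit 0x1000000000002000300040003) .nil))) (.cons (nat_lit 0x1111011110) (nat_lit 0x100001) (nat_lit 0xe) (nat_lit 0x7654010230) (.cons (nat_lit 0x1111011100) (nat_lit 0x100010) (nat_lit 0xa) (nat_lit 0x6543020100) .nil)))) (.leaf (.cons (nat_lit 0x101400) (nat_lit 0x10000000000000001000100000000000000000000) (.cons (nat_lit 0x1055) (nat_lit 0x1000000000002000300040003) .nil)) (.cons (nat_lit 0x1111011110) (nat_lit 0x100001) (nat_lit 0xe) (nat_lit 0x7654010230) (.cons (nat_lit 0x1111011100) (nat_lit 0x100010) (nat_lit 0xa) (nat_lit 0x6543020100) .nil)))) (.split (nat_lit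 0xb) (nat_lit 0) (.split (nat_lit 0xb) (nat_lit 1) (.split (nat_lit 0xb) (nat_lit 2) (.split (nat_lit 0xb) (nat_lit 3) (.split (nat_lit 0xb) (nat_lit 4) (.split (nat_lit 0xb) (nat_lit 5) t1537_83 (.non (nat_lit 0) (nat_lit 6) (nat_lit 0x500400) (nat_lit 0x100010000000000000000000100000000000000000000))) (.non (nat_lit 0) (nat_lit 5) (nat_lit 0x515150) (nat_lit 0x200010000000100020003000000030004000200000000))) (.non (nat_lit 0) (nat_lit 5) (nat_lit 0x401150) (nat_lit 0x100000000000000000001000000010002000100000000))) (.non (nat_lit 0) (nat_lit 5) (nat_lit 0x515150) (nat_lit 0x200010000000100020003000000020004000300000000))) (.non (nat_lit 0) (nat_lit 5) (nat_lit 0x415154) (nat_lit 0x100000000000100020003000000020004000300020000))) (.non (nat_lit 2) (nat_lit 6) (nat_lit 0x500405) (nat_lit 0x300020000000000000000000100000000000000030004)))) (.split (nat_lit 0xb) (nat_lit 0) (.split (nat_lit 0xb) (nat_lit 1) (.split (nat_lit 0xb) (nat_lit 2) (.split (nat_lit 0xb) (nat_lit 3) (.split (nat_lit 0xb) (nat_lit 4) (.split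 (nat_lit 0xb) (nat_lit 6) (.split (nat_lit 0xb) (nat_lit 7) (.split (nat_lit 0xb) (nat_lit 8) (.split (nat_lit 0xb) (nat_lit 9) (.split (nat_lit 0xb) (nat_lit 0xa) (.leaf (.cons (nat_lit 0x501400) (nat_lit 0x100010000000000000002000200000000000000000000) (.cons (nat_lit 0x1055) (nat_lit 0x1000000000002000300040003) .nil)) (.cons (nat_lit 0x1111011110) (nat_lit 0x100001) (nat_lit 0xe) (nat_lit 0x7654010230) (.cons (nat_lit 0x1111011100) (nat_lit 0x100010) (nat_lit 0xa) (nat_lit 0x6543020100) .nil))) (.non (nat_lit 0) (nat_lit 6) (nat_lit 0x500400) (nat_lit 0x100010000000000000000000100000000000000000000))) (.non (nat_lit 0) (nat_lit 5) (nat_lit 0x455154) (nat_lit 0x100000002000300040005000000030006000400020000))) (.non (nat_lit 0) (nat_lit 5) (nat_lit 0x455150) (nat_lit 0x100000001000200020002000000010002000100000000))) (.non (nat_lit 0) (nat_lit 5) (nat_lit 0x415150) (nat_lit 0x100000000000100020002000000010002000100000000))) (.non (nat_lit 0) (nat_lit 5) (nat_lit 0x405150) (nat_lit 0x100000000000000010002000000010002000100000000)))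 (.non (nat_lit 0) (nat_lit 5) (nat_lit 0x405154) (nat_lit 0x100000000000000010002000000020003000200010000))) (.non (nat_lit 0) (nat_lit 5) (nat_lit 0x401150) (nat_lit 0x100000000000000000001000000010002000100000000))) (.non (nat_lit 0) (nat_lit 5) (nat_lit 0x401154) (nat_lit 0x100000000000000000001000000010002000200010000))) (.star (nat_lit 0xb) (nat_lit 1) (nat_lit 5))) (.star (nat_lit 0xb) (nat_lit 0) (nat_lit 5))))

noncomputable def t1537_85 : Tr := (.pd (.cons (nat_lit 2) (nat_lit 5) (nat_lit 0) (nat_lit 0x8763033000) (nat_lit 0xf423fb71aea2c289896500000f423f5572c00000f423f54591) (.cons (nat_lit 2) (nat_lit 6) (nat_lit 0) (nat_lit 0x8770533000) (nat_lit 0xf423fb71aea2c2800000f423ff423fb71ae00000f423f54591) (.cons (nat_lit 3) (nat_lit 5) (nat_lit 0) (nat_lit 0x8766040100) (nat_lit 0xf423fb71aea2c289896500000f423f00000f423fb71ae1f156) (.cons (nat_lit 3) (nat_lit 6) (nat_lit 0) (nat_lit 0x8770540100) (nat_lit 0xf423fb71aea2c2800000f423ff423f00000f423fb71ae1f156) (.cons (nat_lit 4) (nat_lit 6) (nat_lit 0)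 (nat_lit 0x8770502100) (nat_lit 0xf423fb71aea2c2800000f423f00000f423fb71aea2c2804737) .nil))))) (.ex (nat_lit 5) (.pd (.cons (nat_lit 2) (nat_lit 7) (nat_lit 0) (nat_lit 0x8803633000) (nat_lit 0xf423fb71ae0000054591f423ff423f0671100000f423f54591) (.cons (nat_lit 3) (nat_lit 7) (nat_lit 0) (nat_lit 0x8805540100) (nat_lit 0xf423fb71ae00000f423f54591f423f00000f423fb71ae1f156) (.cons (nat_lit 3) (nat_lit 8) (nat_lit 0) (nat_lit 0x9065540100) (nat_lit 0xf423f00000f423fb71ae1f156f423f00000f423fb71ae1f156) (.cons (nat_lit 3) (nat_lit 9) (nat_lit 0) (nat_lit 0x765540100) (nat_lit 0xf423fb71aea2c2804737f423f00000f423fb71ae1f156) .nil)))) (.leaf (.cons (nat_lit 0x1550) (nat_lit 0x2000200010002000100000000) (.cons (nat_lit 0x5440) (nat_lit 0x10002000200000001000000000000) (.cons (nat_lit 0x1055) (nat_lit 0x1000000000002000300040003) .nil))) .nil)) (.split (nat_lit 0xa) (nat_lit 0) (.split (nat_lit 0xa) (nat_lit 1) (.split (nat_lit 0xa) (nat_lit 2) (.split (nat_lit 0xa) (nat_lit 3) (.split (nat_lit 0xa) (nat_lit 4) (.split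 (nat_lit 0xa) (nat_lit 6) (.split (nat_lit 0xa) (nat_lit 7) (.split (nat_lit 0xa) (nat_lit 8) (.split (nat_lit 0xa) (nat_lit 9) (.st (nat_lit 9) (nat_lit 0) (nat_lit 5) (nat_lit 0x55154) (nat_lit 0x2000300040005000000030006000400020000) (nat_lit 1) (nat_lit 1) t1537_84) (.non (nat_lit 0) (nat_lit 5) (nat_lit 0x155154) (nat_lit 0x10002000300040005000000030006000400020000))) (.non (nat_lit 0) (nat_lit 5) (nat_lit 0x155150) (nat_lit 0x10001000200020002000000010002000100000000))) (.non (nat_lit 0) (nat_lit 5) (nat_lit 0x115150) (nat_lit 0x10000000100020002000000010002000100000000))) (.non (nat_lit 0) (nat_lit 5) (nat_lit 0x105150) (nat_lit 0x10000000000010002000000010002000100000000))) (.non (nat_lit 0) (nat_lit 5) (nat_lit 0x105154) (nat_lit 0x10000000000010002000000020003000200010000))) (.non (nat_lit 0) (nat_lit 5) (nat_lit 0x101150) (nat_lit 0x10000000000000001000000010002000100000000))) (.non (nat_lit 0) (nat_lit 5) (nat_lit 0x101154) (nat_lit 0x10000000000000001000000010002000200010000))) (.star (nat_lit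 0xa) (nat_lit 1) (nat_lit 5))) (.star (nat_lit 0xa) (nat_lit 0) (nat_lit 5)))))

noncomputable def t1537_86 : Tr := (.st (nat_lit 1) (nat_lit 0) (nat_lit 5) (nat_lit 0x15154) (nat_lit 0x100020003000000020004000300020000) (nat_lit 1) (nat_lit 1) (.st (nat_lit 2) (nat_lit 0) (nat_lit 5) (nat_lit 0x1154) (nat_lit 0x1000000010002000200010000) (nat_lit 1) (nat_lit 1) (.st (nat_lit 3) (nat_lit 0) (nat_lit 5) (nat_lit 0x1150) (nat_lit 0x1000000010002000100000000) (nat_lit 1) (nat_lit 1) (.st (nat_lit 4) (nat_lit 0) (nat_lit 5) (nat_lit 0x5154) (nat_lit 0x10002000000020003000200010000) (nat_lit 1) (nat_lit 1) (.st (nat_lit 6) (nat_lit 0) (nat_lit 5) (nat_lit 0x5150) (nat_lit 0x10002000000010002000100000000) (nat_lit 1) (nat_lit 1) (.st (nat_lit 7) (nat_lit 0) (nat_lit 5) (nat_lit 0x15150) (nat_lit 0x100020002000000010002000100000000) (nat_lit 1) (nat_lit 1) (.st (nat_lit 8) (nat_lit 0) (nat_lit 5) (nat_lit 0x55150) (nat_lit 0x1000200020002000000010002000100000000) (nat_lit 1) (nat_lit 1) (.ex (nat_lit 0) (.split (nat_lit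 4) (nat_lit 3) (.split (nat_lit 6) (nat_lit 3) (.split (nat_lit 9) (nat_lit 8) t1537_85 (.non (nat_lit 0) (nat_lit 5) (nat_lit 0x95150) (nat_lit 0x1000200020002000000010002000100000000))) (.non (nat_lit 0) (nat_lit 5) (nat_lit 0x2a140) (nat_lit 0x100020003000000020004000000000000))) (.non (nat_lit 0) (nat_lit 5) (nat_lit 0x1250) (nat_lit 0x1000000010002000100000000))) (.split (nat_lit 0xa) (nat_lit 1) (.split (nat_lit 0xa) (nat_lit 2) (.split (nat_lit 0xa) (nat_lit 3) (.split (nat_lit 0xa) (nat_lit 4) (.split (nat_lit 0xa) (nat_lit 5) (.split (nat_lit 0xa) (nat_lit 6) (.split (nat_lit 0xa) (nat_lit 7) (.split (nat_lit 0xa) (nat_lit 8) (.split (nat_lit 0xa) (nat_lit 9) (.unj (nat_lit 0x100015) (nat_lit 0x10000000000000000000000000000000100020002) (nat_lit 0x55400) (nat_lit 0x1000200030004000300000000000000000000)) (.non (nat_lit 0) (nat_lit 5) (nat_lit 0x155154) (nat_lit 0x10002000300040005000000030006000400020000))) (.non (nat_lit 0) (nat_lit 5) (nat_lit 0x155150) (nat_lit 0x10001000200020002000000010002000100000000)))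 (.non (nat_lit 0) (nat_lit 5) (nat_lit 0x115150) (nat_lit 0x10000000100020002000000010002000100000000))) (.star (nat_lit 0xa) (nat_lit 0) (nat_lit 6))) (.star (nat_lit 0xa) (nat_lit 0) (nat_lit 5))) (.non (nat_lit 0) (nat_lit 5) (nat_lit 0x105154) (nat_lit 0x10000000000010002000000020003000200010000))) (.non (nat_lit 0) (nat_lit 5) (nat_lit 0x101150) (nat_lit 0x10000000000000001000000010002000100000000))) (.non (nat_lit 0) (nat_lit 5) (nat_lit 0x101154) (nat_lit 0x10000000000000001000000010002000200010000))) (.non (nat_lit 0) (nat_lit 5) (nat_lit 0x115154) (nat_lit 0x10000000100020003000000020004000300020000)))))))))))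

noncomputable def t1537_87 : Tr := (.split (nat_lit 5) (nat_lit 4) (.pd (.cons (nat_lit 2) (nat_lit 5) (nat_lit 0) (nat_lit 0x8763033000) (nat_lit 0xf423fb71aea2c289896500000f423f5572c00000f423f54591) (.cons (nat_lit 2) (nat_lit 6) (nat_lit 0) (nat_lit 0x8770433000) (nat_lit 0xf423fb71aea2c2800000f423fb71aea2c2800000f423f54591) (.cons (nat_lit 3) (nat_lit 5) (nat_lit 0) (nat_lit 0x8766040100) (nat_lit 0xf423fb71aea2c289896500000f423f00000f423fb71ae1f156) (.cons (nat_lit 3) (nat_lit 6) (nat_lit 0) (nat_lit 0x8770440100) (nat_lit 0xf423fb71aea2c2800000f423fb71ae00000f423fb71ae1f156) (.cons (nat_lit 4) (nat_lit 6) (nat_lit 0) (nat_lit 0x8770502100) (nat_lit 0xf423fb71aea2c2800000f423f00000f423fb71aea2c2804737) .nil))))) (.ex (nat_lit 5) (.pd (.cons (nat_lit 3) (nat_lit 7) (nat_lit 0) (nat_lit 0x8805440100) (nat_lit 0xf423fb71ae00000f423f54591437a200000f423fb71ae1f156) .nil) (.leaf (.cons (nat_lit 0x1540) (nat_lit 0x1000100010001000000000000) (.cons (nat_lit 0x5500) (nat_lit 0x10002000200010000000000000000) (.cons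 (nat_lit 0x1055) (nat_lit 0x1000000000002000300040003) .nil))) .nil)) (.split (nat_lit 0xa) (nat_lit 0) (.split (nat_lit 0xa) (nat_lit 1) (.split (nat_lit 0xa) (nat_lit 2) (.split (nat_lit 0xa) (nat_lit 3) (.split (nat_lit 0xa) (nat_lit 4) (.split (nat_lit 0xa) (nat_lit 6) (.split (nat_lit 0xa) (nat_lit 7) (.split (nat_lit 0xa) (nat_lit 8) (.split (nat_lit 0xa) (nat_lit 9) (.leaf (.cons (nat_lit 0x101500) (nat_lit 0x10000000000000002000200010000000000000000) (.cons (nat_lit 0x1055) (nat_lit 0x1000000000002000300040003) .nil)) .nil) (.non (nat_lit 0) (nat_lit 5) (nat_lit 0x155154) (nat_lit 0x10002000300040005000000030006000400020000))) (.non (nat_lit 0) (nat_lit 5) (nat_lit 0x155150) (nat_lit 0x10001000200020002000000010002000100000000))) (.non (nat_lit 0) (nat_lit 5) (nat_lit 0x115150) (nat_lit 0x10000000100020002000000010002000100000000))) (.non (nat_lit 0) (nat_lit 5) (nat_lit 0x105150) (nat_lit 0x10000000000010002000000010002000100000000))) (.non (nat_lit 0) (nat_lit 5) (nat_lit 0x105154) (nat_lit 0x10000000000010002000000020003000200010000)))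 (.non (nat_lit 0) (nat_lit 5) (nat_lit 0x101150) (nat_lit 0x10000000000000001000000010002000100000000))) (.non (nat_lit 0) (nat_lit 5) (nat_lit 0x101154) (nat_lit 0x10000000000000001000000010002000200010000))) (.star (nat_lit 0xa) (nat_lit 1) (nat_lit 5))) (.star (nat_lit 0xa) (nat_lit 0) (nat_lit 5))))) (.split (nat_lit 5) (nat_lit 4) (.pd (.cons (nat_lit 2) (nat_lit 5) (nat_lit 0) (nat_lit 0x8763033000) (nat_lit 0xf423fb71aea2c289896500000f423f5572c00000f423f54591) (.cons (nat_lit 2) (nat_lit 6) (nat_lit 0) (nat_lit 0x8770433000) (nat_lit 0xf423fb71aea2c2800000f423f7a11e7a11c00000f423f54591) (.cons (nat_lit 3) (nat_lit 5) (nat_lit 0) (nat_lit 0x8766040100) (nat_lit 0xf423fb71aea2c289896500000f423f00000f423fb71ae1f156) (.cons (nat_lit 3) (nat_lit 6) (nat_lit 0) (nat_lit 0x8770440100) (nat_lit 0xf423fb71aea2c2800000f423f7a11e00000f423fb71ae1f156) (.cons (nat_lit 4) (nat_lit 6) (nat_lit 0) (nat_lit 0x8770502100) (nat_lit 0xf423fb71aea2c2800000f423f00000f423fb71aea2c2804737) .nil))))) (.leaf (.cons (nat_lit 0x1500)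 (nat_lit 0x1000100010000000000000000) (.cons (nat_lit 0x1055) (nat_lit 0x1000000000002000300040003) .nil)) .nil)) (.non (nat_lit 0) (nat_lit 6) (nat_lit 0x554) (nat_lit 0x300040003000200010000))))

noncomputable def t1537_88 : Tr := (.ex (nat_lit 0xb) (.split (nat_lit 0xa) (nat_lit 5) (.split (nat_lit 0xb) (nat_lit 0xa) (.pd (.cons (nat_lit 3) (nat_lit 7) (nat_lit 0) (nat_lit 0xa58805540100) (nat_lit 0xf423fb71aef423fb71ae00000f423f02f7af423f00000f423fb71ae1f156) .nil) (.leaf (.cons (nat_lit 0x1440) (nat_lit 0x1000100000001000000000000) (.cons (nat_lit 0x105400) (nat_lit 0x10000000000010002000200000000000000000000) (.cons (nat_lit 0x1055) (nat_lit 0x1000000000002000300040003) (.cons (nat_lit 0x455) (nat_lit 0x100000002000300040003) .nil)))) .nil)) (.non (nat_lit 0) (nat_lit 6) (nat_lit 0x900550) (nat_lit 0x100020000000000000000000200010002000100000000))) (.non (nat_lit 0) (nat_lit 6) (nat_lit 0xa00540) (nat_lit 0x100020000000000000000000300010002000000000000))) (.split (nat_lit 0xc) (nat_lit 0) (.split (nat_lit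 0xc) (nat_lit 1) (.split (nat_lit 0xc) (nat_lit 2) (.split (nat_lit 0xc) (nat_lit 3) (.split (nat_lit 0xc) (nat_lit 4) (.split (nat_lit 0xc) (nat_lit 5) (.split (nat_lit 0xc) (nat_lit 6) (.split (nat_lit 0xc) (nat_lit 7) (.split (nat_lit 0xc) (nat_lit 8) (.split (nat_lit 0xc) (nat_lit 9) (.split (nat_lit 0xc) (nat_lit 0xa) (.leaf (.cons (nat_lit 0x1501400) (nat_lit 0x1000200030000000000000003000400000000000000000000) (.cons (nat_lit 0x1055) (nat_lit 0x1000000000002000300040003) (.cons (nat_lit 0x455) (nat_lit 0x100000002000300040003) .nil))) .nil) (.non (nat_lit 0) (nat_lit 5) (nat_lit 0x1500000) (nat_lit 0x1000100010000000000000000000000000000000000000000))) (.non (nat_lit 0) (nat_lit 5) (nat_lit 0x1055154) (nat_lit 0x1000000000002000300040005000000030006000400020000))) (.non (nat_lit 0) (nat_lit 5) (nat_lit 0x1555040) (nat_lit 0x3000200010002000400030002000000000001000000000000))) (.non (nat_lit 0) (nat_lit 5) (nat_lit 0x1455040) (nat_lit 0x2000100000001000200030002000000000001000000000000))) (.non (nat_lit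 0) (nat_lit 5) (nat_lit 0x1555040) (nat_lit 0x3000200010001000200030004000000000002000000000000))) (.non (nat_lit 0) (nat_lit 6) (nat_lit 0x1500400) (nat_lit 0x1000100010000000000000000000100000000000000000000))) (.non (nat_lit 0) (nat_lit 5) (nat_lit 0x1415150) (nat_lit 0x2000100000000000100020003000000030004000200000000))) (.non (nat_lit 0) (nat_lit 5) (nat_lit 0x1515140) (nat_lit 0x3000200010000000100020003000000020004000000000000))) (.non (nat_lit 0) (nat_lit 5) (nat_lit 0x1415150) (nat_lit 0x2000100000000000100020003000000020004000300000000))) (.non (nat_lit 0) (nat_lit 5) (nat_lit 0x1505154) (nat_lit 0x3000200010000000000020004000000030006000500040000))) (.non (nat_lit 2) (nat_lit 5) (nat_lit 0x1500005) (nat_lit 0x3000200010000000000000000000000000000000000030004))))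

noncomputable def t1537_89 : Tr := (.split (nat_lit 0xa) (nat_lit 8) (.split (nat_lit 0xa) (nat_lit 9) (.st (nat_lit 5) (nat_lit 0) (nat_lit 6) (nat_lit 0x100550) (nat_lit 0x10000000000000000000200010002000100000000) (nat_lit 1) (nat_lit 1) (.ex (nat_lit 0xa) (.split (nat_lit 0xa) (nat_lit 5) (.pd (.cons (nat_lit 3) (nat_lit 7) (nat_lit 0) (nat_lit 0x58805540100) (nat_lit 0xf423ff423fb71ae00000f423f17500f423f00000f423fb71ae1f156) .nil) (.leaf (.cons (nat_lit 0x1440) (nat_lit 0x1000100000001000000000000) (.cons (nat_lit 0x105400) (nat_lit 0x10000000000010002000200000000000000000000) (.cons (nat_lit 0x1055) (nat_lit 0x1000000000002000300040003) (.cons (nat_lit 0x455) (nat_lit 0x100000002000300040003) .nil)))) .nil)) (.non (nat_lit 0) (nat_lit 6) (nat_lit 0x200550) (nat_lit 0x10000000000000000000200010002000100000000))) (.split (nat_lit 0xb) (nat_lit 0) (.split (nat_lit 0xb) (nat_lit 1) (.split (nat_lit 0xb) (nat_lit 2) (.split (nat_lit 0xb) (nat_lit 3) (.split (nat_lit 0xb) (nat_lit 4) (.split (nat_lit 0xb)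 (nat_lit 5) (.split (nat_lit 0xb) (nat_lit 6) (.split (nat_lit 0xb) (nat_lit 7) (.split (nat_lit 0xb) (nat_lit 8) (.split (nat_lit 0xb) (nat_lit 9) (.st (nat_lit 0xa) (nat_lit 0) (nat_lit 6) (nat_lit 0x500550) (nat_lit 0x100020000000000000000000200010002000100000000) (nat_lit 1) (nat_lit 1) t1537_88) (.non (nat_lit 0) (nat_lit 5) (nat_lit 0x455154) (nat_lit 0x100000002000300040005000000030006000400020000))) (.non (nat_lit 0) (nat_lit 5) (nat_lit 0x455150) (nat_lit 0x100000001000200020002000000010002000100000000))) (.non (nat_lit 0) (nat_lit 5) (nat_lit 0x555040) (nat_lit 0x200010001000200030002000000000001000000000000))) (.non (nat_lit 0) (nat_lit 5) (nat_lit 0x515140) (nat_lit 0x200010000000100020003000000010002000000000000))) (.non (nat_lit 0) (nat_lit 6) (nat_lit 0x500400) (nat_lit 0x100010000000000000000000100000000000000000000))) (.non (nat_lit 0) (nat_lit 5) (nat_lit 0x515150) (nat_lit 0x200010000000100020003000000030004000200000000))) (.non (nat_lit 0) (nat_lit 5) (nat_lit 0x401150) (nat_lit 0x100000000000000000001000000010002000100000000)))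 (.non (nat_lit 0) (nat_lit 5) (nat_lit 0x515150) (nat_lit 0x200010000000100020003000000020004000300000000))) (.non (nat_lit 0) (nat_lit 5) (nat_lit 0x415154) (nat_lit 0x100000000000100020003000000020004000300020000))) (.non (nat_lit 2) (nat_lit 6) (nat_lit 0x500405) (nat_lit 0x300020000000000000000000100000000000000030004))))) (.non (nat_lit 0) (nat_lit 5) (nat_lit 0x155154) (nat_lit 0x10002000300040005000000030006000400020000))) (.non (nat_lit 0) (nat_lit 5) (nat_lit 0x155150) (nat_lit 0x10001000200020002000000010002000100000000)))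

noncomputable def t1537_90 : Tr := (.split (nat_lit 4) (nat_lit 3) (.split (nat_lit 6) (nat_lit 3) (.split (nat_lit 9) (nat_lit 8) (.split (nat_lit 5) (nat_lit 3) (.pd (.cons (nat_lit 2) (nat_lit 5) (nat_lit 0) (nat_lit 0x8763033000) (nat_lit 0xf423fb71aea2c289896500000f423f5572c00000f423f54591) (.cons (nat_lit 2) (nat_lit 6) (nat_lit 0) (nat_lit 0x8770333000) (nat_lit 0xf423fb71aea2c2800000f423ff423f7a11d00000f423f54591) (.cons (nat_lit 3) (nat_lit 5) (nat_lit 0) (nat_lit 0x8766040100) (nat_lit 0xf423fb71aea2c289896500000f423f00000f423fb71ae1f156) (.cons (nat_lit 3) (nat_lit 6) (nat_lit 0) (nat_lit 0x8770540100) (nat_lit 0xf423fb71aea2c2800000f423ff423f00000f423fb71ae1f156) .nil)))) (.ex (nat_lit 5) (.pd (.cons (nat_lit 3) (nat_lit 7) (nat_lit 0) (nat_lit 0x8805540100) (nat_lit 0xf423fb71ae00000f423f54591f423f00000f423fb71ae1f156) (.cons (nat_lit 3) (nat_lit 8) (nat_lit 0) (nat_lit 0x9065540100) (nat_lit 0xf423f00000f423fb71ae1f156f423f00000f423fb71ae1f156) (.cons (nat_lit 3) (nat_lit 9) (nat_lit 0) (nat_lit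 0x765540100) (nat_lit 0xf423fb71aea2c2804737f423f00000f423fb71ae1f156) .nil))) (.leaf (.cons (nat_lit 0x1440) (nat_lit 0x1000100000001000000000000) (.cons (nat_lit 0x1055) (nat_lit 0x1000000000002000300040003) (.cons (nat_lit 0x455) (nat_lit 0x100000002000300040003) .nil))) .nil)) (.split (nat_lit 0xa) (nat_lit 0) (.split (nat_lit 0xa) (nat_lit 1) (.split (nat_lit 0xa) (nat_lit 2) (.split (nat_lit 0xa) (nat_lit 3) (.split (nat_lit 0xa) (nat_lit 4) (.split (nat_lit 0xa) (nat_lit 6) (.split (nat_lit 0xa) (nat_lit 7) t1537_89 (.non (nat_lit 0) (nat_lit 5) (nat_lit 0x115150) (nat_lit 0x10000000100020002000000010002000100000000))) (.non (nat_lit 0) (nat_lit 5) (nat_lit 0x105150) (nat_lit 0x10000000000010002000000010002000100000000))) (.non (nat_lit 0) (nat_lit 5) (nat_lit 0x105154) (nat_lit 0x10000000000010002000000020003000200010000))) (.non (nat_lit 0) (nat_lit 5) (nat_lit 0x101150) (nat_lit 0x10000000000000001000000010002000100000000))) (.non (nat_lit 0) (nat_lit 5) (nat_lit 0x101154) (nat_lit 0x10000000000000001000000010002000200010000)))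 (.star (nat_lit 0xa) (nat_lit 1) (nat_lit 5))) (.star (nat_lit 0xa) (nat_lit 0) (nat_lit 5))))) (.non (nat_lit 0) (nat_lit 6) (nat_lit 0x950) (nat_lit 0x100010002000100000000))) (.non (nat_lit 0) (nat_lit 5) (nat_lit 0x95150) (nat_lit 0x1000200020002000000010002000100000000))) (.non (nat_lit 0) (nat_lit 5) (nat_lit 0x2a140) (nat_lit 0x100020003000000020004000000000000))) (.non (nat_lit 0) (nat_lit 5) (nat_lit 0x1250) (nat_lit 0x1000000010002000100000000)))

noncomputable def t1537_91 : Tr := (.split (nat_lit 5) (nat_lit 3) (.split (nat_lit 5) (nat_lit 4) t1537_86 (.st (nat_lit 1) (nat_lit 0) (nat_lit 5) (nat_lit 0x15154) (nat_lit 0x100020003000000020004000300020000) (nat_lit 1) (nat_lit 1) (.st (nat_lit 2) (nat_lit 0) (nat_lit 5) (nat_lit 0x1154) (nat_lit 0x1000000010002000200010000) (nat_lit 1) (nat_lit 1) (.st (nat_lit 3) (nat_lit 0) (nat_lit 5) (nat_lit 0x1150) (nat_lit 0x1000000010002000100000000) (nat_lit 1) (nat_lit 1) (.st (nat_lit 4) (nat_lit 0) (nat_lit 5) (nat_lit 0x5154) (nat_lit 0x10002000000020003000200010000)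 (nat_lit 1) (nat_lit 1) (.st (nat_lit 6) (nat_lit 0) (nat_lit 5) (nat_lit 0x5150) (nat_lit 0x10002000000010002000100000000) (nat_lit 1) (nat_lit 1) (.ex (nat_lit 0) (.split (nat_lit 4) (nat_lit 3) (.split (nat_lit 6) (nat_lit 3) (.split (nat_lit 9) (nat_lit 8) t1537_87 (.non (nat_lit 0) (nat_lit 5) (nat_lit 0x95150) (nat_lit 0x1000200020002000000010002000100000000))) (.non (nat_lit 0) (nat_lit 5) (nat_lit 0x2a140) (nat_lit 0x100020003000000020004000000000000))) (.non (nat_lit 0) (nat_lit 5) (nat_lit 0x1250) (nat_lit 0x1000000010002000100000000))) (.split (nat_lit 0xa) (nat_lit 1) (.split (nat_lit 0xa) (nat_lit 2) (.split (nat_lit 0xa) (nat_lit 3) (.split (nat_lit 0xa) (nat_lit 4) (.split (nat_lit 0xa) (nat_lit 5) (.split (nat_lit 0xa) (nat_lit 6) (.split (nat_lit 0xa) (nat_lit 7) (.split (nat_lit 0xa) (nat_lit 8) (.split (nat_lit 0xa) (nat_lit 9) (.unj (nat_lit 0x100015) (nat_lit 0x10000000000000000000000000000000100020002) (nat_lit 0x5500) (nat_lit 0x10002000200010000000000000000)) (.non (nat_lit 0) (nat_lit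 5) (nat_lit 0x155154) (nat_lit 0x10002000300040005000000030006000400020000))) (.non (nat_lit 0) (nat_lit 5) (nat_lit 0x155150) (nat_lit 0x10001000200020002000000010002000100000000))) (.non (nat_lit 0) (nat_lit 5) (nat_lit 0x115150) (nat_lit 0x10000000100020002000000010002000100000000))) (.star (nat_lit 0xa) (nat_lit 0) (nat_lit 6))) (.star (nat_lit 0xa) (nat_lit 0) (nat_lit 5))) (.non (nat_lit 0) (nat_lit 5) (nat_lit 0x105154) (nat_lit 0x10000000000010002000000020003000200010000))) (.non (nat_lit 0) (nat_lit 5) (nat_lit 0x101150) (nat_lit 0x10000000000000001000000010002000100000000))) (.non (nat_lit 0) (nat_lit 5) (nat_lit 0x101154) (nat_lit 0x10000000000000001000000010002000200010000))) (.non (nat_lit 0) (nat_lit 5) (nat_lit 0x115154) (nat_lit 0x10000000100020003000000020004000300020000)))))))))) (.split (nat_lit 5) (nat_lit 4) (.st (nat_lit 1) (nat_lit 0) (nat_lit 5) (nat_lit 0x15154) (nat_lit 0x100020003000000020004000300020000) (nat_lit 1) (nat_lit 1) (.st (nat_lit 2) (nat_lit 0) (nat_lit 5) (nat_lit 0x1154)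 (nat_lit 0x1000000010002000200010000) (nat_lit 1) (nat_lit 1) (.st (nat_lit 6) (nat_lit 0) (nat_lit 5) (nat_lit 0x5150) (nat_lit 0x10002000000010002000100000000) (nat_lit 1) (nat_lit 1) (.st (nat_lit 7) (nat_lit 0) (nat_lit 5) (nat_lit 0x15150) (nat_lit 0x100020002000000010002000100000000) (nat_lit 1) (nat_lit 1) (.st (nat_lit 8) (nat_lit 0) (nat_lit 5) (nat_lit 0x55150) (nat_lit 0x1000200020002000000010002000100000000) (nat_lit 1) (nat_lit 1) (.ex (nat_lit 0) t1537_90 (.split (nat_lit 0xa) (nat_lit 1) (.split (nat_lit 0xa) (nat_lit 2) (.split (nat_lit 0xa) (nat_lit 3) (.split (nat_lit 0xa) (nat_lit 4) (.split (nat_lit 0xa) (nat_lit 5) (.split (nat_lit 0xa) (nat_lit 6) (.split (nat_lit 0xa) (nat_lit 7) (.split (nat_lit 0xa) (nat_lit 8) (.split (nat_lit 0xa) (nat_lit 9) (.unj (nat_lit 0x100015) (nat_lit 0x10000000000000000000000000000000100020002) (nat_lit 0x55400) (nat_lit 0x1000200030004000300000000000000000000)) (.non (nat_lit 0) (nat_lit 5) (nat_lit 0x155154) (nat_lit 0x10002000300040005000000030006000400020000)))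 (.non (nat_lit 0) (nat_lit 5) (nat_lit 0x155150) (nat_lit 0x10001000200020002000000010002000100000000))) (.non (nat_lit 0) (nat_lit 5) (nat_lit 0x115150) (nat_lit 0x10000000100020002000000010002000100000000))) (.star (nat_lit 0xa) (nat_lit 0) (nat_lit 6))) (.star (nat_lit 0xa) (nat_lit 0) (nat_lit 5))) (.non (nat_lit 0) (nat_lit 5) (nat_lit 0x105154) (nat_lit 0x10000000000010002000000020003000200010000))) (.non (nat_lit 0) (nat_lit 5) (nat_lit 0x101150) (nat_lit 0x10000000000000001000000010002000100000000))) (.non (nat_lit 0) (nat_lit 5) (nat_lit 0x101154) (nat_lit 0x10000000000000001000000010002000200010000))) (.non (nat_lit 0) (nat_lit 5) (nat_lit 0x115154) (nat_lit 0x10000000100020003000000020004000300020000))))))))) (.non (nat_lit 0) (nat_lit 6) (nat_lit 0x540) (nat_lit 0x100010001000000000000))))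

noncomputable def t1537_92 : Tr := (.ex (nat_lit 5) (.pd (.cons (nat_lit 0) (nat_lit 7) (nat_lit 0) (nat_lit 0x8805532110) (nat_lit 0xf423fb71ae00000f423f54591f423fb71aea2c289896500000) (.cons (nat_lit 1) (nat_lit 7) (nat_lit 0) (nat_lit 0x8805532200) (nat_lit 0xf423fb71ae00000f423f54591f423fb71aea2c2800000f423f) (.cons (nat_lit 2) (nat_lit 7) (nat_lit 0) (nat_lit 0x8805533000) (nat_lit 0xf423fb71ae00000f423f54591f423fb71ae00000f423f54591) (.cons (nat_lit 3) (nat_lit 7) (nat_lit 0) (nat_lit 0x8805540100) (nat_lit 0xf423fb71ae00000f423f54591f423f00000f423fb71ae1f156) (.cons (nat_lit 3) (nat_lit 8) (nat_lit 0) (nat_lit 0x9047640100) (nat_lit 0xf423f00000437a254591f423f174ea00000f423fb71ae1f156) (.cons (nat_lit 4) (nat_lit 7) (nat_lit 0) (nat_lit 0x8805502100) (nat_lit 0xf423fb71ae00000f423f5459100000f423fb71aea2c2804737) (.cons (nat_lit 4) (nat_lit 8) (nat_lit 0) (nat_lit 0x9065502100) (nat_lit 0xf423f00000f423fb71ae1f15600000f423fb71aea2c2804737) (.cons (nat_lit 4) (nat_lit 9) (nat_lit 0) (nat_lit 0x765502100)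 (nat_lit 0xf423fb71aea2c280473700000f423fb71aea2c2804737) .nil)))))))) (.leaf (.cons (nat_lit 0x5540) (nat_lit 0x30004000300020001000000000000) (.cons (nat_lit 0x15500) (nat_lit 0x100020002000200010000000000000000) .nil)) (.cons (nat_lit 0x1111011110) (nat_lit 0x100001) (nat_lit 0xe) (nat_lit 0x3201045670) (.cons (nat_lit 0x1110011110) (nat_lit 0x1000001) (nat_lit 5) (nat_lit 0x6540032100) (.cons (nat_lit 0x1111011100) (nat_lit 0x100010) (nat_lit 0xd) (nat_lit 0x3201045600) (.cons (nat_lit 0x1110011100) (nat_lit 0x1000010) (nat_lit 4) (nat_lit 0x5430021000) (.cons (nat_lit 0x1111011000) (nat_lit 0x100100) (nat_lit 0xc) (nat_lit 0x5401023000) (.cons (nat_lit 0x1110011000) (nat_lit 0x1000100) (nat_lit 3) (nat_lit 0x4320010000) (.cons (nat_lit 0x1111010000) (nat_lit 0x101000) (nat_lit 8) (nat_lit 0x4302010000) (.cons (nat_lit 0x11110000) (nat_lit 0x100001000) (nat_lit 0x10) (nat_lit 0x21030000) .nil)))))))))) (.split (nat_lit 0xa) (nat_lit 0) (.split (nat_lit 0xa) (nat_lit 1) (.split (nat_lit 0xa) (nat_lit 2)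 (.split (nat_lit 0xa) (nat_lit 3) (.split (nat_lit 0xa) (nat_lit 4) (.split (nat_lit 0xa) (nat_lit 6) (.split (nat_lit 0xa) (nat_lit 7) (.split (nat_lit 0xa) (nat_lit 8) (.split (nat_lit 0xa) (nat_lit 9) (.sup (nat_lit 0x50000000000020009000a00000000000000000000) (nat_lit 0x100040007000a0008)) (.non (nat_lit 0) (nat_lit 5) (nat_lit 0x155150) (nat_lit 0x10002000300040002000000030002000100000000))) (.non (nat_lit 0) (nat_lit 5) (nat_lit 0x155100) (nat_lit 0x10001000200020001000000010000000000000000))) (.non (nat_lit 0) (nat_lit 5) (nat_lit 0x115100) (nat_lit 0x10000000100020001000000010000000000000000))) (.non (nat_lit 0) (nat_lit 5) (nat_lit 0x155140) (nat_lit 0x10001000200030002000000020001000000000000))) (.non (nat_lit 0) (nat_lit 5) (nat_lit 0x115140) (nat_lit 0x10000000100020001000000020001000000000000))) (.non (nat_lit 0) (nat_lit 5) (nat_lit 0x115150) (nat_lit 0x10000000100020001000000020002000100000000))) (.non (nat_lit 0) (nat_lit 5) (nat_lit 0x115154) (nat_lit 0x10000000100020001000000020002000200010000)))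 (.star (nat_lit 0xa) (nat_lit 1) (nat_lit 5))) (.star (nat_lit 0xa) (nat_lit 0) (nat_lit 5))))

noncomputable def t1537_93 : Tr := (.st (nat_lit 9) (nat_lit 0) (nat_lit 5) (nat_lit 0x55150) (nat_lit 0x2000300040002000000030002000100000000) (nat_lit 1) (nat_lit 1) (.ex (nat_lit 0) (.split (nat_lit 4) (nat_lit 3) (.split (nat_lit 7) (nat_lit 4) (.split (nat_lit 9) (nat_lit 8) (.pd (.cons (nat_lit 2) (nat_lit 5) (nat_lit 0) (nat_lit 0x8747033000) (nat_lit 0xf423fb71ae65b97f423f0000061a795b8cc00000f423f54591) (.cons (nat_lit 2) (nat_lit 6) (nat_lit 0) (nat_lit 0x8740533000) (nat_lit 0xf423fb71aea2c2800000f423f98965927bd00000f423f54591) (.cons (nat_lit 3) (nat_lit 5) (nat_lit 0) (nat_lit 0x8747040100) (nat_lit 0xf423fb71ae65b97f423f0000061a7900000f423fb71ae1f156) (.cons (nat_lit 3) (nat_lit 6) (nat_lit 0) (nat_lit 0x8740540100) (nat_lit 0xf423fb71aea2c2800000f423f9896500000f423fb71ae1f156) (.cons (nat_lit 4) (nat_lit 5) (nat_lit 0) (nat_lit 0x8766002100) (nat_lit 0xf423fb71aea2c28989650000000000f423fb71aea2c2804737)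 (.cons (nat_lit 4) (nat_lit 6) (nat_lit 0) (nat_lit 0x8770502100) (nat_lit 0xf423fb71aea2c2800000f423f00000f423fb71aea2c2804737) .nil)))))) t1537_92) (.non (nat_lit 0) (nat_lit 5) (nat_lit 0x95100) (nat_lit 0x1000200020001000000010000000000000000))) (.non (nat_lit 0) (nat_lit 5) (nat_lit 0x2a100) (nat_lit 0x100020001000000020000000000000000))) (.non (nat_lit 0) (nat_lit 5) (nat_lit 0x2a240) (nat_lit 0x100020001000000020002000000000000))) (.split (nat_lit 0xa) (nat_lit 1) (.split (nat_lit 0xa) (nat_lit 2) (.split (nat_lit 0xa) (nat_lit 3) (.split (nat_lit 0xa) (nat_lit 4) (.split (nat_lit 0xa) (nat_lit 5) (.split (nat_lit 0xa) (nat_lit 6) (.split (nat_lit 0xa) (nat_lit 7) (.split (nat_lit 0xa) (nat_lit 8) (.split (nat_lit 0xa) (nat_lit 9) (.unj (nat_lit 0x100015) (nat_lit 0x10000000000000000000000000000000100020002) (nat_lit 0x15500) (nat_lit 0x100020002000200010000000000000000)) (.non (nat_lit 0) (nat_lit 5) (nat_lit 0x155150) (nat_lit 0x10002000300040002000000030002000100000000))) (.non (nat_lit 0) (nat_lit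 5) (nat_lit 0x155100) (nat_lit 0x10001000200020001000000010000000000000000))) (.non (nat_lit 0) (nat_lit 5) (nat_lit 0x115100) (nat_lit 0x10000000100020001000000010000000000000000))) (.star (nat_lit 0xa) (nat_lit 0) (nat_lit 6))) (.star (nat_lit 0xa) (nat_lit 0) (nat_lit 5))) (.non (nat_lit 0) (nat_lit 5) (nat_lit 0x115140) (nat_lit 0x10000000100020001000000020001000000000000))) (.non (nat_lit 0) (nat_lit 5) (nat_lit 0x115150) (nat_lit 0x10000000100020001000000020002000100000000))) (.non (nat_lit 0) (nat_lit 5) (nat_lit 0x115154) (nat_lit 0x10000000100020001000000020002000200010000))) (.non (nat_lit 0) (nat_lit 5) (nat_lit 0x155154) (nat_lit 0x10002000400060003000000050004000300020000)))))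

noncomputable def t1537_94 : Tr := (.ex (nat_lit 0) (.split (nat_lit 4) (nat_lit 3) (.split (nat_lit 7) (nat_lit 4) (.split (nat_lit 9) (nat_lit 8) (.split (nat_lit 5) (nat_lit 3) (.pd (.cons (nat_lit 2) (nat_lit 5) (nat_lit 0) (nat_lit 0x8747033000) (nat_lit 0xf423fb71ae65b97f423f0000061a795b8cc00000f423f54591) (.cons (nat_lit 2) (nat_lit 6) (nat_lit 0) (nat_lit 0x8740333000) (nat_lit 0xf423fb71aea2c2800000f423f989655572c00000f423f54591) (.cons (nat_lit 2) (nat_lit 7) (nat_lit 0) (nat_lit 0x8805333000) (nat_lit 0xf423fb71ae00000f423f54591f423f0671100000f423f54591) (.cons (nat_lit 3) (nat_lit 5) (nat_lit 0) (nat_lit 0x8747040100) (nat_lit 0xf423fb71ae65b97f423f0000061a7900000f423fb71ae1f156) (.cons (nat_lit 3) (nat_lit 6) (nat_lit 0) (nat_lit 0x8740540100) (nat_lit 0xf423fb71aea2c2800000f423f9896500000f423fb71ae1f156) (.cons (nat_lit 3) (nat_lit 7) (nat_lit 0) (nat_lit 0x8805540100) (nat_lit 0xf423fb71ae00000f423f54591f423f00000f423fb71ae1f156) (.cons (nat_lit 3) (nat_lit 8) (nat_lit 0) (nat_lit 0x9047640100)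 (nat_lit 0xf423f00000437a254591f423f174ea00000f423fb71ae1f156) (.cons (nat_lit 4) (nat_lit 5) (nat_lit 0) (nat_lit 0x8766002100) (nat_lit 0xf423fb71aea2c28989650000000000f423fb71aea2c2804737) .nil)))))))) (.leaf (.cons (nat_lit 0x1550) (nat_lit 0x2000200010002000100000000) (.cons (nat_lit 0x5440) (nat_lit 0x10002000200000001000000000000) (.cons (nat_lit 0x15500) (nat_lit 0x100020002000200010000000000000000) (.cons (nat_lit 0x455) (nat_lit 0x100000002000300040003) .nil)))) .nil)) (.non (nat_lit 0) (nat_lit 6) (nat_lit 0x950) (nat_lit 0x100010002000100000000))) (.non (nat_lit 0) (nat_lit 5) (nat_lit 0x95100) (nat_lit 0x1000200020001000000010000000000000000))) (.non (nat_lit 0) (nat_lit 5) (nat_lit 0x2a100) (nat_lit 0x100020001000000020000000000000000))) (.non (nat_lit 0) (nat_lit 5) (nat_lit 0x2a240) (nat_lit 0x100020001000000020002000000000000))) (.split (nat_lit 0xa) (nat_lit 1) (.split (nat_lit 0xa) (nat_lit 2) (.split (nat_lit 0xa) (nat_lit 3) (.split (nat_lit 0xa) (nat_lit 4) (.split (nat_lit 0xa) (nat_lit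 5) (.split (nat_lit 0xa) (nat_lit 6) (.split (nat_lit 0xa) (nat_lit 7) (.split (nat_lit 0xa) (nat_lit 8) (.split (nat_lit 0xa) (nat_lit 9) (.unj (nat_lit 0x100015) (nat_lit 0x10000000000000000000000000000000100020002) (nat_lit 0x15500) (nat_lit 0x100020002000200010000000000000000)) (.non (nat_lit 0) (nat_lit 5) (nat_lit 0x155150) (nat_lit 0x10002000300040002000000030002000100000000))) (.non (nat_lit 0) (nat_lit 5) (nat_lit 0x155100) (nat_lit 0x10001000200020001000000010000000000000000))) (.non (nat_lit 0) (nat_lit 5) (nat_lit 0x115100) (nat_lit 0x10000000100020001000000010000000000000000))) (.star (nat_lit 0xa) (nat_lit 0) (nat_lit 6))) (.star (nat_lit 0xa) (nat_lit 0) (nat_lit 5))) (.non (nat_lit 0) (nat_lit 5) (nat_lit 0x115140) (nat_lit 0x10000000100020001000000020001000000000000))) (.non (nat_lit 0) (nat_lit 5) (nat_lit 0x115150) (nat_lit 0x10000000100020001000000020002000100000000))) (.non (nat_lit 0) (nat_lit 5) (nat_lit 0x115154) (nat_lit 0x10000000100020001000000020002000200010000))) (.non (nat_lit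 0) (nat_lit 5) (nat_lit 0x155154) (nat_lit 0x10002000400060003000000050004000300020000))))

noncomputable def t1537_95 : Tr := (.ex (nat_lit 5) (.pd (.cons (nat_lit 0) (nat_lit 7) (nat_lit 0) (nat_lit 0x8405532110) (nat_lit 0xf423fb71ae00000f423f54591a2c2898965927bd8e6a200000) (.cons (nat_lit 0) (nat_lit 8) (nat_lit 0) (nat_lit 0x9065532110) (nat_lit 0xf423f00000f423fb71ae1f156f423fb71aea2c289896500000) (.cons (nat_lit 1) (nat_lit 7) (nat_lit 0) (nat_lit 0x8405532200) (nat_lit 0xf423fb71ae00000f423f54591a2c2898965927bd00000f423f) (.cons (nat_lit 1) (nat_lit 8) (nat_lit 0) (nat_lit 0x9065532200) (nat_lit 0xf423f00000f423fb71ae1f156f423fb71aea2c2800000f423f) (.cons (nat_lit 2) (nat_lit 7) (nat_lit 0) (nat_lit 0x8405533000) (nat_lit 0xf423fb71ae00000f423f54591a2c289896500000f423f54591) (.cons (nat_lit 2) (nat_lit 8) (nat_lit 0) (nat_lit 0x9065533000) (nat_lit 0xf423f00000f423fb71ae1f156f423fb71ae00000f423f54591) (.cons (nat_lit 3) (nat_lit 7) (nat_lit 0) (nat_lit 0x8405540100) (nat_lit 0xf423fb71ae00000f423f54591a2c2800000f423fb71ae1f156)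 (.cons (nat_lit 3) (nat_lit 8) (nat_lit 0) (nat_lit 0x9065540100) (nat_lit 0xf423f00000f423fb71ae1f156f423f00000f423fb71ae1f156) (.cons (nat_lit 4) (nat_lit 7) (nat_lit 0) (nat_lit 0x8805502100) (nat_lit 0xf423fb71ae00000f423f5459100000f423fb71aea2c2804737) (.cons (nat_lit 4) (nat_lit 8) (nat_lit 0) (nat_lit 0x9065502100) (nat_lit 0xf423f00000f423fb71ae1f15600000f423fb71aea2c2804737) (.cons (nat_lit 4) (nat_lit 9) (nat_lit 0) (nat_lit 0x765502100) (nat_lit 0xf423fb71aea2c280473700000f423fb71aea2c2804737) .nil))))))))))) (.l31 (nat_lit 0x4321098765))) (.split (nat_lit 0xa) (nat_lit 0) (.split (nat_lit 0xa) (nat_lit 1) (.split (nat_lit 0xa) (nat_lit 2) (.split (nat_lit 0xa) (nat_lit 3) (.split (nat_lit 0xa) (nat_lit 4) (.split (nat_lit 0xa) (nat_lit 6) (.split (nat_lit 0xa) (nat_lit 7) (.split (nat_lit 0xa) (nat_lit 8) (.split (nat_lit 0xa) (nat_lit 9) (.unj (nat_lit 0x105400) (nat_lit 0x10000000000010002000200000000000000000000) (nat_lit 0x155) (nat_lit 0x10002000300040003)) (.non (nat_lit 0) (nat_lit 5) (nat_lit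 0x155140) (nat_lit 0x10002000300020001000000020001000000000000))) (.non (nat_lit 0) (nat_lit 5) (nat_lit 0x154100) (nat_lit 0x10001000200010000000000010000000000000000))) (.non (nat_lit 0) (nat_lit 5) (nat_lit 0x155100) (nat_lit 0x10001000200020001000000010000000000000000))) (.non (nat_lit 0) (nat_lit 5) (nat_lit 0x155150) (nat_lit 0x10002000400030002000000030002000100000000))) (.non (nat_lit 0) (nat_lit 5) (nat_lit 0x154140) (nat_lit 0x10001000200010000000000020001000000000000))) (.non (nat_lit 0) (nat_lit 5) (nat_lit 0x154150) (nat_lit 0x10001000200010000000000020002000100000000))) (.non (nat_lit 0) (nat_lit 5) (nat_lit 0x154154) (nat_lit 0x10001000200010000000000020002000200010000))) (.star (nat_lit 0xa) (nat_lit 1) (nat_lit 5))) (.star (nat_lit 0xa) (nat_lit 0) (nat_lit 5))))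

noncomputable def t1537_96 : Tr := (.st (nat_lit 9) (nat_lit 0) (nat_lit 5) (nat_lit 0x55140) (nat_lit 0x2000300020001000000020001000000000000) (nat_lit 1) (nat_lit 1) (.ex (nat_lit 0) (.split (nat_lit 4) (nat_lit 3) (.split (nat_lit 8) (nat_lit 4) (.split (nat_lit 9) (nat_lit 8) (.pd (.cons (nat_lit 2) (nat_lit 5) (nat_lit 0) (nat_lit 0x8487033000) (nat_lit 0xf423f65b97b71aef423f0000061a795b8cc00000f423f54591) (.cons (nat_lit 2) (nat_lit 6) (nat_lit 0) (nat_lit 0x8480533000) (nat_lit 0xf423f7a11df423f00000f423f7a11b7a11900000f423f54591) (.cons (nat_lit 3) (nat_lit 5) (nat_lit 0) (nat_lit 0x8487040100) (nat_lit 0xf423f65b97b71aef423f0000061a7900000f423fb71ae1f156) (.cons (nat_lit 3) (nat_lit 6) (nat_lit 0) (nat_lit 0x8480540100) (nat_lit 0xf423f7a11df423f00000f423f7a11b00000f423fb71ae1f156) (.cons (nat_lit 4) (nat_lit 5) (nat_lit 0) (nat_lit 0x8766002100) (nat_lit 0xf423fb71aea2c28989650000000000f423fb71aea2c2804737) (.cons (nat_lit 4) (nat_lit 6) (nat_lit 0) (nat_lit 0x8770502100) (nat_lit 0xf423fb71aea2c2800000f423f00000f423fb71aea2c2804737)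 .nil)))))) t1537_95) (.non (nat_lit 0) (nat_lit 5) (nat_lit 0x94100) (nat_lit 0x1000200010000000000010000000000000000))) (.non (nat_lit 0) (nat_lit 5) (nat_lit 0xa8100) (nat_lit 0x1000200010000000000020000000000000000))) (.non (nat_lit 0) (nat_lit 5) (nat_lit 0xa8240) (nat_lit 0x1000200010000000000020002000000000000))) (.split (nat_lit 0xa) (nat_lit 1) (.split (nat_lit 0xa) (nat_lit 2) (.split (nat_lit 0xa) (nat_lit 3) (.split (nat_lit 0xa) (nat_lit 4) (.split (nat_lit 0xa) (nat_lit 5) (.split (nat_lit 0xa) (nat_lit 6) (.split (nat_lit 0xa) (nat_lit 7) (.split (nat_lit 0xa) (nat_lit 8) (.split (nat_lit 0xa) (nat_lit 9) (.unj (nat_lit 0x100015) (nat_lit 0x10000000000000000000000000000000100020002) (nat_lit 0x15500) (nat_lit 0x200030004000300010000000000000000)) (.non (nat_lit 0) (nat_lit 5) (nat_lit 0x155140) (nat_lit 0x10002000300020001000000020001000000000000))) (.non (nat_lit 0) (nat_lit 5) (nat_lit 0x154100) (nat_lit 0x10001000200010000000000010000000000000000))) (.non (nat_lit 0) (nat_lit 5) (nat_lit 0x155100)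 (nat_lit 0x10001000200020001000000010000000000000000))) (.star (nat_lit 0xa) (nat_lit 0) (nat_lit 6))) (.star (nat_lit 0xa) (nat_lit 0) (nat_lit 5))) (.non (nat_lit 0) (nat_lit 5) (nat_lit 0x154140) (nat_lit 0x10001000200010000000000020001000000000000))) (.non (nat_lit 0) (nat_lit 5) (nat_lit 0x154150) (nat_lit 0x10001000200010000000000020002000100000000))) (.non (nat_lit 0) (nat_lit 5) (nat_lit 0x154154) (nat_lit 0x10001000200010000000000020002000200010000))) (.non (nat_lit 0) (nat_lit 5) (nat_lit 0x155154) (nat_lit 0x10003000600040002000000050004000300020000)))))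

noncomputable def t1537_97 : Tr := (.split (nat_lit 8) (nat_lit 4) (.split (nat_lit 7) (nat_lit 4) (.split (nat_lit 6) (nat_lit 3) t1537_81 (.split (nat_lit 6) (nat_lit 4) t1537_91 (.non (nat_lit 0) (nat_lit 5) (nat_lit 0x1140) (nat_lit 0x1000000010001000000000000)))) (.split (nat_lit 6) (nat_lit 3) (.split (nat_lit 6) (nat_lit 4) (.split (nat_lit 5) (nat_lit 4) (.split (nat_lit 5) (nat_lit 3) (.st (nat_lit 1) (nat_lit 0) (nat_lit 5) (nat_lit 0x55154) (nat_lit 0x2000400060003000000050004000300020000) (nat_lit 1) (nat_lit 1) (.st (nat_lit 2) (nat_lit 0) (nat_lit 5) (nat_lit 0x15154) (nat_lit 0x100020001000000020002000200010000) (nat_lit 1) (nat_lit 1) (.st (nat_lit 3) (nat_lit 0) (nat_lit 5) (nat_lit 0x15150) (nat_lit 0x100020001000000020002000100000000) (nat_lit 1) (nat_lit 1) (.st (nat_lit 4) (nat_lit 0) (nat_lit 5) (nat_lit 0x15140) (nat_lit 0x100020001000000020001000000000000) (nat_lit 1) (nat_lit 1) (.st (nat_lit 6) (nat_lit 0) (nat_lit 5) (nat_lit 0x55140) (nat_lit 0x1000200030002000000020001000000000000)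 (nat_lit 1) (nat_lit 1) (.st (nat_lit 7) (nat_lit 0) (nat_lit 5) (nat_lit 0x15100) (nat_lit 0x100020001000000010000000000000000) (nat_lit 1) (nat_lit 1) (.st (nat_lit 8) (nat_lit 0) (nat_lit 5) (nat_lit 0x55100) (nat_lit 0x1000200020001000000010000000000000000) (nat_lit 1) (nat_lit 1) t1537_93))))))) (.st (nat_lit 1) (nat_lit 0) (nat_lit 5) (nat_lit 0x55154) (nat_lit 0x2000400060003000000050004000300020000) (nat_lit 1) (nat_lit 1) (.st (nat_lit 2) (nat_lit 0) (nat_lit 5) (nat_lit 0x15154) (nat_lit 0x100020001000000020002000200010000) (nat_lit 1) (nat_lit 1) (.st (nat_lit 3) (nat_lit 0) (nat_lit 5) (nat_lit 0x15150) (nat_lit 0x100020001000000020002000100000000) (nat_lit 1) (nat_lit 1) (.st (nat_lit 4) (nat_lit 0) (nat_lit 5) (nat_lit 0x15140) (nat_lit 0x100020001000000020001000000000000) (nat_lit 1) (nat_lit 1) (.st (nat_lit 5) (nat_lit 0) (nat_lit 6) (nat_lit 0x4554) (nat_lit 0x10000000200020003000200010000) (nat_lit 1) (nat_lit 1) (.st (nat_lit 6) (nat_lit 0) (nat_lit 5) (nat_lit 0x55140) (nat_lit 0x1000200030002000000020001000000000000)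 (nat_lit 1) (nat_lit 1) (.st (nat_lit 7) (nat_lit 0) (nat_lit 5) (nat_lit 0x15100) (nat_lit 0x100020001000000010000000000000000) (nat_lit 1) (nat_lit 1) t1537_94)))))))) (.non (nat_lit 0) (nat_lit 6) (nat_lit 0x54554) (nat_lit 0x1000200030000000200040003000200010000))) (.non (nat_lit 0) (nat_lit 5) (nat_lit 0x5100) (nat_lit 0x10001000000010000000000000000))) (.non (nat_lit 0) (nat_lit 5) (nat_lit 0x5140) (nat_lit 0x10001000000010001000000000000)))) (.split (nat_lit 7) (nat_lit 4) (.split (nat_lit 6) (nat_lit 3) (.split (nat_lit 6) (nat_lit 4) (.split (nat_lit 5) (nat_lit 3) (.split (nat_lit 5) (nat_lit 4) (.st (nat_lit 1) (nat_lit 0) (nat_lit 5) (nat_lit 0x55154) (nat_lit 0x3000600040002000000050004000300020000) (nat_lit 1) (nat_lit 1) (.st (nat_lit 2) (nat_lit 0) (nat_lit 5) (nat_lit 0x54154) (nat_lit 0x1000200010000000000020002000200010000) (nat_lit 1) (nat_lit 1) (.st (nat_lit 3) (nat_lit 0) (nat_lit 5) (nat_lit 0x54150) (nat_lit 0x1000200010000000000020002000100000000) (nat_lit 1) (nat_lit 1) (.st (nat_lit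 6) (nat_lit 0) (nat_lit 5) (nat_lit 0x55150) (nat_lit 0x2000400030002000000030002000100000000) (nat_lit 1) (nat_lit 1) (.st (nat_lit 7) (nat_lit 0) (nat_lit 5) (nat_lit 0x55100) (nat_lit 0x1000200020001000000010000000000000000) (nat_lit 1) (nat_lit 1) (.st (nat_lit 8) (nat_lit 0) (nat_lit 5) (nat_lit 0x54100) (nat_lit 0x1000200010000000000010000000000000000) (nat_lit 1) (nat_lit 1) (.st (nat_lit 4) (nat_lit 0) (nat_lit 5) (nat_lit 0x54140) (nat_lit 0x1000200010000000000020001000000000000) (nat_lit 1) (nat_lit 1) t1537_96))))))) (.non (nat_lit 0) (nat_lit 6) (nat_lit 0x54540) (nat_lit 0x1000200010000000100020001000000000000))) (.non (nat_lit 0) (nat_lit 6) (nat_lit 0x54550) (nat_lit 0x1000200010000000100020002000100000000))) (.non (nat_lit 0) (nat_lit 5) (nat_lit 0x15100) (nat_lit 0x100010001000000010000000000000000))) (.non (nat_lit 0) (nat_lit 5) (nat_lit 0x15140) (nat_lit 0x100010001000000010001000000000000))) (.non (nat_lit 0) (nat_lit 5) (nat_lit 0x14100) (nat_lit 0x100010000000000010000000000000000))))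

noncomputable def t1537_98 : Tr := (.ex (nat_lit 5) (.split (nat_lit 8) (nat_lit 1) (.split (nat_lit 4) (nat_lit 3) (.split (nat_lit 9) (nat_lit 8) (.pd (.cons (nat_lit 0) (nat_lit 7) (nat_lit 0) (nat_lit 0x8105532110) (nat_lit 0xf423fb71ae00000f423f54591f423fb71aea2c284734e00000) (.cons (nat_lit 0) (nat_lit 8) (nat_lit 0) (nat_lit 0x9065532110) (nat_lit 0xf423f00000f423fb71ae1f156f423fb71aea2c289896500000) (.cons (nat_lit 1) (nat_lit 7) (nat_lit 0) (nat_lit 0x8805532200) (nat_lit 0xf423fb71ae00000f423f54591f423fb71aea2c2800000f423f) (.cons (nat_lit 1) (nat_lit 8) (nat_lit 0) (nat_lit 0x9065532200) (nat_lit 0xf423f00000f423fb71ae1f156f423fb71aea2c2800000f423f) (.cons (nat_lit 1) (nat_lit 9) (nat_lit 0) (nat_lit 0x765532200) (nat_lit 0xf423fb71aea2c2804737f423fb71aea2c2800000f423f) (.cons (nat_lit 2) (nat_lit 7) (nat_lit 0) (nat_lit 0x8105533000) (nat_lit 0xf423fb71ae00000f423f54591f423fb71ae00000a2c2804737) (.cons (nat_lit 2) (nat_lit 8) (nat_lit 0) (nat_lit 0x9065533000) (nat_lit 0xf423f00000f423fb71ae1f156f423fb71ae00000f423f54591)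 (.cons (nat_lit 3) (nat_lit 8) (nat_lit 0) (nat_lit 0x9065540100) (nat_lit 0xf423f00000f423fb71ae1f156f423f00000f423fb71ae1f156) (.cons (nat_lit 4) (nat_lit 8) (nat_lit 0) (nat_lit 0x9065502100) (nat_lit 0xf423f00000f423fb71ae1f15600000f423fb71aea2c2804737) .nil))))))))) (.leaf (.cons (nat_lit 0x15404) (nat_lit 0x200030004000300000000000000010000) (.cons (nat_lit 0x54005) (nat_lit 0x1000200010000000000000000000000020002) (.cons (nat_lit 0x10015) (nat_lit 0x100000000000000000000000100020002) .nil))) .nil)) (.non (nat_lit 0) (nat_lit 5) (nat_lit 0x94004) (nat_lit 0x1000200010000000000000000000000010000))) (.non (nat_lit 0) (nat_lit 5) (nat_lit 0x54254) (nat_lit 0x1000200010000000000010002000200020000))) (.non (nat_lit 0) (nat_lit 5) (nat_lit 0xa8004) (nat_lit 0x1000200010000000000000000000000020000))) (.split (nat_lit 0xa) (nat_lit 0) (.split (nat_lit 0xa) (nat_lit 1) (.split (nat_lit 0xa) (nat_lit 2) (.split (nat_lit 0xa) (nat_lit 3) (.split (nat_lit 0xa) (nat_lit 4) (.split (nat_lit 0xa) (nat_lit 6) (.split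 (nat_lit 0xa) (nat_lit 7) (.split (nat_lit 0xa) (nat_lit 8) (.split (nat_lit 0xa) (nat_lit 9) (.unj (nat_lit 0x105400) (nat_lit 0x10000000000010002000200000000000000000000) (nat_lit 0x155) (nat_lit 0x10002000300040003)) (.non (nat_lit 0) (nat_lit 5) (nat_lit 0x155014) (nat_lit 0x10002000300020001000000000000000100020000))) (.non (nat_lit 0) (nat_lit 5) (nat_lit 0x154004) (nat_lit 0x10001000200010000000000000000000000010000))) (.non (nat_lit 0) (nat_lit 5) (nat_lit 0x155004) (nat_lit 0x10001000200020001000000000000000000010000))) (.non (nat_lit 0) (nat_lit 5) (nat_lit 0x155054) (nat_lit 0x10002000400030002000000000001000200030000))) (.non (nat_lit 0) (nat_lit 5) (nat_lit 0x155154) (nat_lit 0x10003000600040002000000020003000400050000))) (.non (nat_lit 0) (nat_lit 5) (nat_lit 0x154154) (nat_lit 0x10001000200010000000000010002000200020000))) (.non (nat_lit 0) (nat_lit 5) (nat_lit 0x154054) (nat_lit 0x10001000200010000000000000001000200020000))) (.star (nat_lit 0xa) (nat_lit 1) (nat_lit 5))) (.star (nat_lit 0xa)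 (nat_lit 0) (nat_lit 5))))

noncomputable def t1537_99 : Tr := (.ex (nat_lit 0xb) (.split (nat_lit 0xa) (nat_lit 0) (.split (nat_lit 0xb) (nat_lit 0xa) (.pd (.cons (nat_lit 2) (nat_lit 8) (nat_lit 0) (nat_lit 0xa09065533000) (nat_lit 0xf423fb71aef423f00000f423fb71ae1f156f423fb71ae00000f423f02f7a) .nil) (.leaf (.cons (nat_lit 0x15404) (nat_lit 0x200030004000300000000000000010000) (.cons (nat_lit 0x110005) (nat_lit 0x10000000100000000000000000000000000020002) (.cons (nat_lit 0x100015) (nat_lit 0x10000000000000000000000000000000100020002) .nil))) (.cons (nat_lit 0x1111011110) (nat_lit 0x100001) (nat_lit 0xe) (nat_lit 0x1023076540) (.cons (nat_lit 0x1110011110) (nat_lit 0x1000001) (nat_lit 0xa) (nat_lit 0x2010065430) .nil)))) (.leaf (.cons (nat_lit 0x15404) (nat_lit 0x200030004000300000000000000010000) (.cons (nat_lit 0x500005) (nat_lit 0x100010000000000000000000000000000000000010001) .nil)) (.cons (nat_lit 0x1111011110) (nat_lit 0x100001) (nat_lit 0xe) (nat_lit 0x1023076540) (.cons (nat_lit 0x1110011110) (nat_lit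 0x1000001) (nat_lit 0xa) (nat_lit 0x2010065430) .nil)))) (.leaf (.cons (nat_lit 0x15404) (nat_lit 0x200030004000300000000000000010000) (.cons (nat_lit 0x100005) (nat_lit 0x10000000000000000000000000000000000010001) .nil)) (.cons (nat_lit 0x1111011110) (nat_lit 0x100001) (nat_lit 0xe) (nat_lit 0x1023076540) (.cons (nat_lit 0x1110011110) (nat_lit 0x1000001) (nat_lit 0xa) (nat_lit 0x2010065430) .nil)))) (.split (nat_lit 0xc) (nat_lit 0) (.split (nat_lit 0xc) (nat_lit 1) (.split (nat_lit 0xc) (nat_lit 2) (.split (nat_lit 0xc) (nat_lit 3) (.split (nat_lit 0xc) (nat_lit 4) (.split (nat_lit 0xc) (nat_lit 5) (.split (nat_lit 0xc) (nat_lit 6) (.split (nat_lit 0xc) (nat_lit 7) (.split (nat_lit 0xc) (nat_lit 8) (.split (nat_lit 0xc) (nat_lit 9) (.split (nat_lit 0xc) (nat_lit 0xa) (.leaf (.cons (nat_lit 0x15404) (nat_lit 0x200030004000300000000000000010000) (.cons (nat_lit 0x1500005) (nat_lit 0x1000200030000000000000000000000000000000000030004) .nil)) (.cons (nat_lit 0x1111011110) (nat_lit 0x100001) (nat_lit 0xe) (nat_lit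 0x1023076540) (.cons (nat_lit 0x1110011110) (nat_lit 0x1000001) (nat_lit 0xa) (nat_lit 0x2010065430) .nil))) (.non (nat_lit 0) (nat_lit 5) (nat_lit 0x1500000) (nat_lit 0x1000100010000000000000000000000000000000000000000))) (.non (nat_lit 0) (nat_lit 5) (nat_lit 0x1055014) (nat_lit 0x1000000000002000300020001000000000000000100020000))) (.non (nat_lit 0) (nat_lit 5) (nat_lit 0x1054004) (nat_lit 0x1000000000001000200010000000000000000000000010000))) (.non (nat_lit 0) (nat_lit 5) (nat_lit 0x1055004) (nat_lit 0x1000000000001000200020001000000000000000000010000))) (.non (nat_lit 0) (nat_lit 5) (nat_lit 0x1555014) (nat_lit 0x3000200010003000600050004000000000000000200040000))) (.non (nat_lit 0) (nat_lit 7) (nat_lit 0x1501400) (nat_lit 0x3000200010000000000000003000400000000000000000000))) (.non (nat_lit 0) (nat_lit 5) (nat_lit 0x1055154) (nat_lit 0x1000000000003000600040002000000020003000400050000))) (.non (nat_lit 0) (nat_lit 5) (nat_lit 0x1455054) (nat_lit 0x2000100000003000600040002000000000003000400050000))) (.non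 (nat_lit 0) (nat_lit 5) (nat_lit 0x1555014) (nat_lit 0x3000200010003000600040002000000000000000400050000))) (.non (nat_lit 0) (nat_lit 5) (nat_lit 0x1054014) (nat_lit 0x1000000000001000200010000000000000000000100020000))) (.non (nat_lit 1) (nat_lit 5) (nat_lit 0x1500001) (nat_lit 0x1000100010000000000000000000000000000000000000001))))

noncomputable def t1537_100 : Tr := (.split (nat_lit 0xb) (nat_lit 6) (.split (nat_lit 0xb) (nat_lit 7) (.split (nat_lit 0xb) (nat_lit 8) (.split (nat_lit 0xb) (nat_lit 9) (.ex (nat_lit 0xa) t1537_99 (.split (nat_lit 0xc) (nat_lit 0) (.split (nat_lit 0xc) (nat_lit 1) (.split (nat_lit 0xc) (nat_lit 2) (.split (nat_lit 0xc) (nat_lit 3) (.split (nat_lit 0xc) (nat_lit 4) (.split (nat_lit 0xc) (nat_lit 5) (.split (nat_lit 0xc) (nat_lit 6) (.split (nat_lit 0xc) (nat_lit 7) (.split (nat_lit 0xc) (nat_lit 8) (.split (nat_lit 0xc) (nat_lit 9) (.split (nat_lit 0xc) (nat_lit 0xb) (.leaf (.cons (nat_lit 0x15404) (nat_lit 0x200030004000300000000000000010000) (.cons (nat_lit 0x1500005) (nat_lit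 0x1000100020000000000000000000000000000000000020002) .nil)) (.cons (nat_lit 0x1111011110) (nat_lit 0x100001) (nat_lit 0xe) (nat_lit 0x1023076540) (.cons (nat_lit 0x1110011110) (nat_lit 0x1000001) (nat_lit 0xa) (nat_lit 0x2010065430) .nil))) (.non (nat_lit 0) (nat_lit 5) (nat_lit 0x1500000) (nat_lit 0x1000100010000000000000000000000000000000000000000))) (.non (nat_lit 0) (nat_lit 5) (nat_lit 0x1055014) (nat_lit 0x1000000000002000300020001000000000000000100020000))) (.non (nat_lit 0) (nat_lit 5) (nat_lit 0x1054004) (nat_lit 0x1000000000001000200010000000000000000000000010000))) (.non (nat_lit 0) (nat_lit 5) (nat_lit 0x1055004) (nat_lit 0x1000000000001000200020001000000000000000000010000))) (.non (nat_lit 0) (nat_lit 5) (nat_lit 0x1555014) (nat_lit 0x3000100020003000600050004000000000000000200040000))) (.non (nat_lit 0) (nat_lit 7) (nat_lit 0x1501400) (nat_lit 0x3000100020000000000000003000400000000000000000000))) (.non (nat_lit 0) (nat_lit 5) (nat_lit 0x1055154) (nat_lit 0x1000000000003000600040002000000020003000400050000)))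 (.non (nat_lit 0) (nat_lit 5) (nat_lit 0x1155054) (nat_lit 0x2000000010003000600040002000000000003000400050000))) (.non (nat_lit 0) (nat_lit 5) (nat_lit 0x1555014) (nat_lit 0x3000100020003000600040002000000000000000400050000))) (.non (nat_lit 0) (nat_lit 5) (nat_lit 0x1054014) (nat_lit 0x1000000000001000200010000000000000000000100020000))) (.non (nat_lit 1) (nat_lit 5) (nat_lit 0x1100001) (nat_lit 0x1000000010000000000000000000000000000000000000001)))) (.non (nat_lit 0) (nat_lit 5) (nat_lit 0x455014) (nat_lit 0x100000002000300020001000000000000000100020000))) (.non (nat_lit 0) (nat_lit 5) (nat_lit 0x454004) (nat_lit 0x100000001000200010000000000000000000000010000))) (.non (nat_lit 0) (nat_lit 5) (nat_lit 0x455004) (nat_lit 0x100000001000200020001000000000000000000010000))) (.non (nat_lit 0) (nat_lit 5) (nat_lit 0x455054) (nat_lit 0x100000002000400030002000000000001000200030000)))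

noncomputable def t1537_101 : Tr := (.pd (.cons (nat_lit 0) (nat_lit 7) (nat_lit 0) (nat_lit 0xa8105532110) (nat_lit 0xf423ff423fb71ae00000f423f54591f423fb71aea2c284734e00000) (.cons (nat_lit 0) (nat_lit 8) (nat_lit 0) (nat_lit 0xa9065532110) (nat_lit 0xf423ff423f00000f423fb71ae1f156f423fb71aea2c289896500000) (.cons (nat_lit 1) (nat_lit 7) (nat_lit 0x10000000001) (nat_lit 0x880553220a) (nat_lit 0x1f423fb71ae00000f423f54591f423fb71aea2c280000000001) (.cons (nat_lit 1) (nat_lit 8) (nat_lit 0x10000000001) (nat_lit 0x906553220a) (nat_lit 0x1f423f00000f423fb71ae1f156f423fb71aea2c280000000001) (.cons (nat_lit 1) (nat_lit 9) (nat_lit 0x10000000001) (nat_lit 0x76553220a) (nat_lit 0x100000f423fb71aea2c2804737f423fb71aea2c280000000001) .nil))))) (.ex (nat_lit 0xa) (.split (nat_lit 0xa) (nat_lit 0) (.pd (.cons (nat_lit 2) (nat_lit 8) (nat_lit 0) (nat_lit 0x9065533000) (nat_lit 0xf423ff423f00000f423fb71ae1f156f423fb71ae00000f423f17500) .nil) (.leaf (.cons (nat_lit 0x15404) (nat_lit 0x200030004000300000000000000010000)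 (.cons (nat_lit 0x110005) (nat_lit 0x10000000100000000000000000000000000020002) (.cons (nat_lit 0x100015) (nat_lit 0x10000000000000000000000000000000100020002) .nil))) (.cons (nat_lit 0x1111011110) (nat_lit 0x100001) (nat_lit 0xe) (nat_lit 0x1023076540) (.cons (nat_lit 0x1110011110) (nat_lit 0x1000001) (nat_lit 0xa) (nat_lit 0x2010065430) .nil)))) (.leaf (.cons (nat_lit 0x15404) (nat_lit 0x200030004000300000000000000010000) (.cons (nat_lit 0x100005) (nat_lit 0x10000000000000000000000000000000000010001) .nil)) (.cons (nat_lit 0x1111011110) (nat_lit 0x100001) (nat_lit 0xe) (nat_lit 0x1023076540) (.cons (nat_lit 0x1110011110) (nat_lit 0x1000001) (nat_lit 0xa) (nat_lit 0x2010065430) .nil)))) (.split (nat_lit 0xb) (nat_lit 0) (.split (nat_lit 0xb) (nat_lit 1) (.split (nat_lit 0xb) (nat_lit 2) (.split (nat_lit 0xb) (nat_lit 3) (.split (nat_lit 0xb) (nat_lit 4) (.split (nat_lit 0xb) (nat_lit 5) t1537_100 (.non (nat_lit 0) (nat_lit 8) (nat_lit 0x405400) (nat_lit 0x100000000000000010002000200000000000000000000))) (.non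 (nat_lit 0) (nat_lit 5) (nat_lit 0x455154) (nat_lit 0x100000003000600040002000000020003000400050000))) (.non (nat_lit 0) (nat_lit 5) (nat_lit 0x555054) (nat_lit 0x200010003000600040002000000000003000400050000))) (.non (nat_lit 0) (nat_lit 5) (nat_lit 0x454054) (nat_lit 0x100000001000200010000000000000001000200020000))) (.non (nat_lit 0) (nat_lit 5) (nat_lit 0x454014) (nat_lit 0x100000001000200010000000000000000000100020000))) (.non (nat_lit 1) (nat_lit 5) (nat_lit 0x500001) (nat_lit 0x100010000000000000000000000000000000000000001)))))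

noncomputable def t1537_102 : Tr := (.ex (nat_lit 5) (.split (nat_lit 8) (nat_lit 1) (.split (nat_lit 4) (nat_lit 3) (.split (nat_lit 9) (nat_lit 8) (.split (nat_lit 0xa) (nat_lit 0) (.split (nat_lit 0xb) (nat_lit 0) (.pd (.cons (nat_lit 0) (nat_lit 7) (nat_lit 0) (nat_lit 0xba8105532110) (nat_lit 0xf423ff423ff423fb71ae00000f423f54591f423fb71aea2c284734e00000) (.cons (nat_lit 0) (nat_lit 8) (nat_lit 0) (nat_lit 0xba9065532110) (nat_lit 0xf423ff423ff423f00000f423fb71ae1f156f423fb71aea2c289896500000) (.cons (nat_lit 1) (nat_lit 7) (nat_lit 0) (nat_lit 0x8805532200) (nat_lit 0xf423ff423ff423fb71ae00000f423f54591f423fb71aea2c28000007a11d) (.cons (nat_lit 1) (nat_lit 8) (nat_lit 0) (nat_lit 0x9065532200) (nat_lit 0xf423ff423ff423f00000f423fb71ae1f156f423fb71aea2c28000007a11d) (.cons (nat_lit 1) (nat_lit 9) (nat_lit 0) (nat_lit 0x765532200) (nat_lit 0xf423ff423f00000f423fb71aea2c2804737f423fb71aea2c28000007a11d) .nil))))) (.leaf (.cons (nat_lit 0x15404) (nat_lit 0x200030004000300000000000000010000) (.cons (nat_lit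 0x500005) (nat_lit 0x100010000000000000000000000000000000000020002) .nil)) (.cons (nat_lit 0x1111011110) (nat_lit 0x100001) (nat_lit 0xe) (nat_lit 0x1023076540) (.cons (nat_lit 0x1110011110) (nat_lit 0x1000001) (nat_lit 0xa) (nat_lit 0x2010065430) .nil)))) (.sup (nat_lit 0x6000d00160020001a00000000000000000000) (nat_lit 0x70005000000000000000000000001000200020003000a))) (.sup (nat_lit 0x6000d00160020001a00000000000000000000) (nat_lit 0x50007000000000000000000000001000200020003000a))) (.non (nat_lit 0) (nat_lit 5) (nat_lit 0x94004) (nat_lit 0x1000200010000000000000000000000010000))) (.non (nat_lit 0) (nat_lit 5) (nat_lit 0x54254) (nat_lit 0x1000200010000000000010002000200020000))) (.non (nat_lit 0) (nat_lit 5) (nat_lit 0xa8004) (nat_lit 0x1000200010000000000000000000000020000))) (.split (nat_lit 0xc) (nat_lit 0) (.split (nat_lit 0xc) (nat_lit 1) (.split (nat_lit 0xc) (nat_lit 2) (.split (nat_lit 0xc) (nat_lit 3) (.split (nat_lit 0xc) (nat_lit 4) (.split (nat_lit 0xc) (nat_lit 6) (.split (nat_lit 0xc) (nat_lit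 7) (.split (nat_lit 0xc) (nat_lit 8) (.split (nat_lit 0xc) (nat_lit 9) (.split (nat_lit 0xc) (nat_lit 0xa) (.split (nat_lit 0xc) (nat_lit 0xb) (.unj (nat_lit 0x100015) (nat_lit 0x10000000000000000000000000000000100020002) (nat_lit 0x1005400) (nat_lit 0x1000000000000000000010002000200000000000000000000)) (.unj (nat_lit 0x100015) (nat_lit 0x10000000000000000000000000000000100020002) (nat_lit 0x1005400) (nat_lit 0x1000000000000000000010002000200000000000000000000))) (.split (nat_lit 0xc) (nat_lit 0xb) (.unj (nat_lit 0x400015) (nat_lit 0x100000000000000000000000000000000000100020002) (nat_lit 0x1005400) (nat_lit 0x1000000000000000000010002000200000000000000000000)) (.non (nat_lit 1) (nat_lit 5) (nat_lit 0x1500001) (nat_lit 0x1000100010000000000000000000000000000000000000001)))) (.non (nat_lit 0) (nat_lit 5) (nat_lit 0x1055014) (nat_lit 0x1000000000002000300020001000000000000000100020000))) (.non (nat_lit 0) (nat_lit 5) (nat_lit 0x1054004) (nat_lit 0x1000000000001000200010000000000000000000000010000))) (.non (nat_lit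 0) (nat_lit 5) (nat_lit 0x1055004) (nat_lit 0x1000000000001000200020001000000000000000000010000))) (.non (nat_lit 0) (nat_lit 5) (nat_lit 0x1055054) (nat_lit 0x1000000000002000400030002000000000001000200030000))) (.non (nat_lit 0) (nat_lit 5) (nat_lit 0x1055154) (nat_lit 0x1000000000003000600040002000000020003000400050000))) (.non (nat_lit 0) (nat_lit 5) (nat_lit 0x1054154) (nat_lit 0x1000000000001000200010000000000010002000200020000))) (.non (nat_lit 0) (nat_lit 5) (nat_lit 0x1054054) (nat_lit 0x1000000000001000200010000000000000001000200020000))) (.star (nat_lit 0xc) (nat_lit 1) (nat_lit 5))) (.star (nat_lit 0xc) (nat_lit 0) (nat_lit 5))))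

noncomputable def t1537_103 : Tr := (.ex (nat_lit 0) (.ex (nat_lit 5) (.split (nat_lit 8) (nat_lit 1) (.split (nat_lit 4) (nat_lit 3) (.split (nat_lit 9) (nat_lit 8) t1537_101 (.non (nat_lit 0) (nat_lit 5) (nat_lit 0x94004) (nat_lit 0x1000200010000000000000000000000010000))) (.non (nat_lit 0) (nat_lit 5) (nat_lit 0x54254) (nat_lit 0x1000200010000000000010002000200020000))) (.non (nat_lit 0) (nat_lit 5) (nat_lit 0xa8004) (nat_lit 0x1000200010000000000000000000000020000))) (.split (nat_lit 0xb) (nat_lit 0) (.split (nat_lit 0xb) (nat_lit 1) (.split (nat_lit 0xb) (nat_lit 2) (.split (nat_lit 0xb) (nat_lit 3) (.split (nat_lit 0xb) (nat_lit 4) (.split (nat_lit 0xb) (nat_lit 6) (.split (nat_lit 0xb) (nat_lit 7) (.split (nat_lit 0xb) (nat_lit 8) (.split (nat_lit 0xb) (nat_lit 9) (.split (nat_lit 0xb) (nat_lit 0xa) (.unj (nat_lit 0x100015) (nat_lit 0x10000000000000000000000000000000100020002) (nat_lit 0x405400) (nat_lit 0x100000000000000010002000200000000000000000000)) (.unj (nat_lit 0x405400) (nat_lit 0x100000000000000010002000200000000000000000000)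 (nat_lit 0x155) (nat_lit 0x10002000300040003))) (.non (nat_lit 0) (nat_lit 5) (nat_lit 0x455014) (nat_lit 0x100000002000300020001000000000000000100020000))) (.non (nat_lit 0) (nat_lit 5) (nat_lit 0x454004) (nat_lit 0x100000001000200010000000000000000000000010000))) (.non (nat_lit 0) (nat_lit 5) (nat_lit 0x455004) (nat_lit 0x100000001000200020001000000000000000000010000))) (.non (nat_lit 0) (nat_lit 5) (nat_lit 0x455054) (nat_lit 0x100000002000400030002000000000001000200030000))) (.non (nat_lit 0) (nat_lit 5) (nat_lit 0x455154) (nat_lit 0x100000003000600040002000000020003000400050000))) (.non (nat_lit 0) (nat_lit 5) (nat_lit 0x454154) (nat_lit 0x100000001000200010000000000010002000200020000))) (.non (nat_lit 0) (nat_lit 5) (nat_lit 0x454054) (nat_lit 0x100000001000200010000000000000001000200020000))) (.star (nat_lit 0xb) (nat_lit 1) (nat_lit 5))) (.star (nat_lit 0xb) (nat_lit 0) (nat_lit 5)))) (.split (nat_lit 0xb) (nat_lit 1) (.split (nat_lit 0xb) (nat_lit 2) (.split (nat_lit 0xb) (nat_lit 3) (.split (nat_lit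 0xb) (nat_lit 4) (.split (nat_lit 0xb) (nat_lit 5) (.split (nat_lit 0xb) (nat_lit 6) (.split (nat_lit 0xb) (nat_lit 7) (.split (nat_lit 0xb) (nat_lit 8) (.split (nat_lit 0xb) (nat_lit 9) (.split (nat_lit 0xb) (nat_lit 0xa) t1537_102 (.non (nat_lit 1) (nat_lit 5) (nat_lit 0x500001) (nat_lit 0x100010000000000000000000000000000000000000001))) (.non (nat_lit 0) (nat_lit 5) (nat_lit 0x455014) (nat_lit 0x100000002000300020001000000000000000100020000))) (.non (nat_lit 0) (nat_lit 5) (nat_lit 0x454004) (nat_lit 0x100000001000200010000000000000000000000010000))) (.non (nat_lit 0) (nat_lit 5) (nat_lit 0x455004) (nat_lit 0x100000001000200020001000000000000000000010000))) (.star (nat_lit 0xb) (nat_lit 0) (nat_lit 6))) (.star (nat_lit 0xb) (nat_lit 0) (nat_lit 5))) (.non (nat_lit 0) (nat_lit 5) (nat_lit 0x455154) (nat_lit 0x100000003000600040002000000020003000400050000))) (.non (nat_lit 0) (nat_lit 5) (nat_lit 0x454154) (nat_lit 0x100000001000200010000000000010002000200020000))) (.non (nat_lit 0) (nat_lit 5) (nat_lit 0x454054)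 (nat_lit 0x100000001000200010000000000000001000200020000))) (.non (nat_lit 0) (nat_lit 5) (nat_lit 0x454014) (nat_lit 0x100000001000200010000000000000000000100020000))))

noncomputable def t1537_104 : Tr := (.split (nat_lit 5) (nat_lit 3) (.split (nat_lit 5) (nat_lit 4) (.st (nat_lit 1) (nat_lit 0) (nat_lit 5) (nat_lit 0x54014) (nat_lit 0x1000200010000000000000000000100020000) (nat_lit 1) (nat_lit 1) (.st (nat_lit 2) (nat_lit 0) (nat_lit 5) (nat_lit 0x54054) (nat_lit 0x1000200010000000000000001000200020000) (nat_lit 1) (nat_lit 1) (.st (nat_lit 3) (nat_lit 0) (nat_lit 5) (nat_lit 0x54154) (nat_lit 0x1000200010000000000010002000200020000) (nat_lit 1) (nat_lit 1) (.st (nat_lit 6) (nat_lit 0) (nat_lit 5) (nat_lit 0x55054) (nat_lit 0x2000400030002000000000001000200030000) (nat_lit 1) (nat_lit 1) (.st (nat_lit 7) (nat_lit 0) (nat_lit 5) (nat_lit 0x55004) (nat_lit 0x1000200020001000000000000000000010000) (nat_lit 1) (nat_lit 1) (.st (nat_lit 8) (nat_lit 0) (nat_lit 5) (nat_lit 0x54004) (nat_lit 0x1000200010000000000000000000000010000)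 (nat_lit 1) (nat_lit 1) (.st (nat_lit 9) (nat_lit 0) (nat_lit 5) (nat_lit 0x55014) (nat_lit 0x2000300020001000000000000000100020000) (nat_lit 1) (nat_lit 1) (.ex (nat_lit 0) t1537_98 (.split (nat_lit 0xa) (nat_lit 1) (.split (nat_lit 0xa) (nat_lit 2) (.split (nat_lit 0xa) (nat_lit 3) (.split (nat_lit 0xa) (nat_lit 4) (.split (nat_lit 0xa) (nat_lit 5) (.split (nat_lit 0xa) (nat_lit 6) (.split (nat_lit 0xa) (nat_lit 7) (.split (nat_lit 0xa) (nat_lit 8) (.split (nat_lit 0xa) (nat_lit 9) (.st (nat_lit 4) (nat_lit 0) (nat_lit 5) (nat_lit 0x55154) (nat_lit 0x3000600040002000000020003000400050000) (nat_lit 1) (nat_lit 1) t1537_103) (.non (nat_lit 0) (nat_lit 5) (nat_lit 0x155014) (nat_lit 0x10002000300020001000000000000000100020000))) (.non (nat_lit 0) (nat_lit 5) (nat_lit 0x154004) (nat_lit 0x10001000200010000000000000000000000010000))) (.non (nat_lit 0) (nat_lit 5) (nat_lit 0x155004) (nat_lit 0x10001000200020001000000000000000000010000))) (.star (nat_lit 0xa) (nat_lit 0) (nat_lit 6))) (.star (nat_lit 0xa) (nat_lit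 0) (nat_lit 5))) (.non (nat_lit 0) (nat_lit 5) (nat_lit 0x155154) (nat_lit 0x10003000600040002000000020003000400050000))) (.non (nat_lit 0) (nat_lit 5) (nat_lit 0x154154) (nat_lit 0x10001000200010000000000010002000200020000))) (.non (nat_lit 0) (nat_lit 5) (nat_lit 0x154054) (nat_lit 0x10001000200010000000000000001000200020000))) (.non (nat_lit 0) (nat_lit 5) (nat_lit 0x154014) (nat_lit 0x10001000200010000000000000000000100020000))))))))))) (.sup (nat_lit 0x100000000000000000000000300050004) (nat_lit 0x10005000500030000000000000000))) (.non (nat_lit 0) (nat_lit 6) (nat_lit 0x54554) (nat_lit 0x1000200010000000100010002000200020000)))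

noncomputable def t1537_105 : Tr := (.ex (nat_lit 0xb) (.leaf (.cons (nat_lit 0x15401) (nat_lit 0x200030004000300000000000000000001) (.cons (nat_lit 0x150005) (nat_lit 0x10002000300000000000000000000000000030004) .nil)) (.cons (nat_lit 0x111111000001) (nat_lit 0x100010) (nat_lit 0xd) (nat_lit 0x654023000001) (.cons (nat_lit 0x111110000001) (nat_lit 0x1000010) (nat_lit 9) (nat_lit 0x543020000001) .nil))) (.split (nat_lit 0xc) (nat_lit 0) (.split (nat_lit 0xc) (nat_lit 1) (.split (nat_lit 0xc) (nat_lit 2) (.split (nat_lit 0xc) (nat_lit 3) (.split (nat_lit 0xc) (nat_lit 4) (.split (nat_lit 0xc) (nat_lit 5) (.split (nat_lit 0xc) (nat_lit 6) (.split (nat_lit 0xc) (nat_lit 7) (.split (nat_lit 0xc) (nat_lit 8) (.split (nat_lit 0xc) (nat_lit 9) (.split (nat_lit 0xc) (nat_lit 0xa) (.st (nat_lit 0xb) (nat_lit 1) (nat_lit 5) (nat_lit 0x1554001) (nat_lit 0x1000200020002000200010000000000000000000000000001) (nat_lit 1) (nat_lit 1) (.st (nat_lit 0xc) (nat_lit 1) (nat_lit 5) (nat_lit 0x1555001) (nat_lit 0x2000300040005000600040002000000000000000000000003)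 (nat_lit 1) (nat_lit 1) (.split (nat_lit 0xc) (nat_lit 0xb) (.leaf (.cons (nat_lit 0x15401) (nat_lit 0x200030004000300000000000000000001) (.cons (nat_lit 0x150005) (nat_lit 0x10002000300000000000000000000000000030004) .nil)) (.cons (nat_lit 0x1111111000001) (nat_lit 0x100010) (nat_lit 0xe) (nat_lit 0x7654023000001) (.cons (nat_lit 0x1111100000001) (nat_lit 0x10000010) (nat_lit 4) (nat_lit 0x5432100000000) .nil))) (.non (nat_lit 1) (nat_lit 5) (nat_lit 0x2554001) (nat_lit 0x1000200020002000200010000000000000000000000000001))))) (.non (nat_lit 0) (nat_lit 5) (nat_lit 0x1500000) (nat_lit 0x1000100010000000000000000000000000000000000000000))) (.non (nat_lit 0) (nat_lit 5) (nat_lit 0x1540000) (nat_lit 0x1000100010001000000000000000000000000000000000000))) (.non (nat_lit 0) (nat_lit 5) (nat_lit 0x1550000) (nat_lit 0x1000100010001000100000000000000000000000000000000))) (.non (nat_lit 0) (nat_lit 5) (nat_lit 0x1554000) (nat_lit 0x1000100010001000100010000000000000000000000000000))) (.non (nat_lit 0) (nat_lit 5) (nat_lit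 0x1555000) (nat_lit 0x1000100010001000100010001000000000000000000000000))) (.non (nat_lit 0) (nat_lit 7) (nat_lit 0x1501400) (nat_lit 0x3000200010000000000000003000400000000000000000000))) (.non (nat_lit 1) (nat_lit 5) (nat_lit 0x1555101) (nat_lit 0x2000300040005000600040002000000010000000000000003))) (.non (nat_lit 0) (nat_lit 5) (nat_lit 0x1550154) (nat_lit 0x5000400030002000100000000000000030006000400020000))) (.non (nat_lit 0) (nat_lit 5) (nat_lit 0x1550154) (nat_lit 0x5000400030002000100000000000000020004000600030000))) (.non (nat_lit 2) (nat_lit 8) (nat_lit 0x1500005) (nat_lit 0x3000200010000000000000000000000000000000000040003))) (.non (nat_lit 1) (nat_lit 5) (nat_lit 0x1550001) (nat_lit 0x1000100010001000100000000000000000000000000000001))))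

noncomputable def t1537_106 : Tr := (.split (nat_lit 0xa) (nat_lit 7) (.split (nat_lit 0xa) (nat_lit 8) (.st (nat_lit 9) (nat_lit 1) (nat_lit 5) (nat_lit 0x154001) (nat_lit 0x10002000200010000000000000000000000000001) (nat_lit 1) (nat_lit 1) (.split (nat_lit 0xa) (nat_lit 9) (.ex (nat_lit 0xa) (.leaf (.cons (nat_lit 0x15401) (nat_lit 0x200030004000300000000000000000001) (.cons (nat_lit 0x150005) (nat_lit 0x10002000300000000000000000000000000030004) .nil)) (.cons (nat_lit 0x11111000001) (nat_lit 0x100010) (nat_lit 0xc) (nat_lit 0x54023000001) .nil)) (.split (nat_lit 0xb) (nat_lit 0) (.split (nat_lit 0xb) (nat_lit 1) (.split (nat_lit 0xb) (nat_lit 2) (.split (nat_lit 0xb) (nat_lit 3) (.split (nat_lit 0xb) (nat_lit 4) (.split (nat_lit 0xb) (nat_lit 5) (.split (nat_lit 0xb) (nat_lit 6) (.split (nat_lit 0xb) (nat_lit 7) (.split (nat_lit 0xb) (nat_lit 8) (.split (nat_lit 0xb) (nat_lit 9) (.st (nat_lit 0xa) (nat_lit 1) (nat_lit 5) (nat_lit 0x554001) (nat_lit 0x100020002000200010000000000000000000000000001) (nat_lit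 1) (nat_lit 1) (.split (nat_lit 0xb) (nat_lit 0xa) t1537_105 (.non (nat_lit 1) (nat_lit 5) (nat_lit 0x954001) (nat_lit 0x100020002000200010000000000000000000000000001)))) (.non (nat_lit 0) (nat_lit 5) (nat_lit 0x540000) (nat_lit 0x100010001000000000000000000000000000000000000))) (.non (nat_lit 0) (nat_lit 5) (nat_lit 0x550000) (nat_lit 0x100010001000100000000000000000000000000000000))) (.non (nat_lit 0) (nat_lit 5) (nat_lit 0x554000) (nat_lit 0x100010001000100010000000000000000000000000000))) (.non (nat_lit 0) (nat_lit 5) (nat_lit 0x555000) (nat_lit 0x100010001000100010001000000000000000000000000))) (.non (nat_lit 0) (nat_lit 7) (nat_lit 0x541400) (nat_lit 0x300020001000000000003000400000000000000000000))) (.non (nat_lit 1) (nat_lit 5) (nat_lit 0x555141) (nat_lit 0x300040005000600040002000000020001000000000003))) (.non (nat_lit 0) (nat_lit 5) (nat_lit 0x554154) (nat_lit 0x500040003000200010000000000030006000400020000))) (.non (nat_lit 0) (nat_lit 5) (nat_lit 0x554154) (nat_lit 0x500040003000200010000000000020004000600030000)))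 (.non (nat_lit 2) (nat_lit 8) (nat_lit 0x540005) (nat_lit 0x300020001000000000000000000000000000000040003))) (.non (nat_lit 1) (nat_lit 5) (nat_lit 0x550001) (nat_lit 0x100010001000100000000000000000000000000000001)))) (.non (nat_lit 1) (nat_lit 5) (nat_lit 0x254001) (nat_lit 0x10002000200010000000000000000000000000001)))) (.non (nat_lit 0) (nat_lit 5) (nat_lit 0x150000) (nat_lit 0x10001000100000000000000000000000000000000))) (.non (nat_lit 0) (nat_lit 5) (nat_lit 0x154000) (nat_lit 0x10001000100010000000000000000000000000000)))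

noncomputable def t1537_107 : Tr := (.pd (.cons (nat_lit 0) (nat_lit 7) (nat_lit 0) (nat_lit 0x8805532110) (nat_lit 0xf423fb71ae00000f423f54591f423fb71aea2c289896500000) (.cons (nat_lit 0) (nat_lit 8) (nat_lit 0) (nat_lit 0x9065532110) (nat_lit 0xf423f00000f423fb71ae1f156f423fb71aea2c289896500000) (.cons (nat_lit 0) (nat_lit 9) (nat_lit 0) (nat_lit 0x765532110) (nat_lit 0xf423fb71aea2c2804737f423fb71aea2c289896500000) (.cons (nat_lit 1) (nat_lit 7) (nat_lit 0) (nat_lit 0x8005532200) (nat_lit 0xf423fb71ae00000f423f54591f423fb71aea2c2800000a2c28) (.cons (nat_lit 1) (nat_lit 8) (nat_lit 0) (nat_lit 0x9065532200) (nat_lit 0xf423f00000f423fb71ae1f156f423fb71aea2c2800000f423f) (.cons (nat_lit 2) (nat_lit 8) (nat_lit 0) (nat_lit 0x9065533000) (nat_lit 0xf423f00000f423fb71ae1f156f423fb71ae00000f423f54591) (.cons (nat_lit 3) (nat_lit 8) (nat_lit 0) (nat_lit 0x9065540100) (nat_lit 0xf423f00000f423fb71ae1f156f423f00000f423fb71ae1f156) (.cons (nat_lit 4) (nat_lit 8) (nat_lit 0) (nat_lit 0x9065502100) (nat_lit 0xf423f00000f423fb71ae1f15600000f423fb71aea2c2804737)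 .nil)))))))) (.ex (nat_lit 9) (.pd (.cons (nat_lit 2) (nat_lit 7) (nat_lit 0) (nat_lit 0x8005533000) (nat_lit 0xf423fb71ae00000f423f54591f423fb71ae00000f423f02f7a) .nil) (.leaf (.cons (nat_lit 0x15401) (nat_lit 0x200030004000300000000000000000001) (.cons (nat_lit 0x54005) (nat_lit 0x1000200010000000000000000000000020002) (.cons (nat_lit 0x10015) (nat_lit 0x100000000000000000000000100020002) .nil))) (.cons (nat_lit 0x1111000001) (nat_lit 0x100010) (nat_lit 8) (nat_lit 0x2034000001) (.cons (nat_lit 0x1110000001) (nat_lit 0x1000010) (nat_lit 7) (nat_lit 0x3020000001) .nil)))) (.split (nat_lit 0xa) (nat_lit 0) (.split (nat_lit 0xa) (nat_lit 1) (.split (nat_lit 0xa) (nat_lit 2) (.split (nat_lit 0xa) (nat_lit 3) (.split (nat_lit 0xa) (nat_lit 4) (.split (nat_lit 0xa) (nat_lit 5) (.split (nat_lit 0xa) (nat_lit 6) t1537_106 (.non (nat_lit 0) (nat_lit 5) (nat_lit 0x155000) (nat_lit 0x10001000100010001000000000000000000000000))) (.non (nat_lit 0) (nat_lit 7) (nat_lit 0x151400) (nat_lit 0x30002000100000003000400000000000000000000)))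 (.non (nat_lit 1) (nat_lit 5) (nat_lit 0x155151) (nat_lit 0x40005000600040002000000030002000100000003))) (.non (nat_lit 0) (nat_lit 5) (nat_lit 0x155154) (nat_lit 0x50004000300020001000000030006000400020000))) (.non (nat_lit 0) (nat_lit 5) (nat_lit 0x155154) (nat_lit 0x50004000300020001000000020004000600030000))) (.non (nat_lit 3) (nat_lit 8) (nat_lit 0x100015) (nat_lit 0x10000000000000000000000000000000100020002))) (.non (nat_lit 1) (nat_lit 5) (nat_lit 0x150001) (nat_lit 0x10001000100000000000000000000000000000001)))))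

noncomputable def t1537_108 : Tr := (.ex (nat_lit 0xb) (.leaf (.cons (nat_lit 0x15401) (nat_lit 0x200030004000300000000000000000001) (.cons (nat_lit 0x150005) (nat_lit 0x10002000300000000000000000000000000030004) .nil)) (.cons (nat_lit 0x111111000001) (nat_lit 0x100010) (nat_lit 0xd) (nat_lit 0x654023000001) (.cons (nat_lit 0x111110000001) (nat_lit 0x1000010) (nat_lit 9) (nat_lit 0x543020000001) .nil))) (.split (nat_lit 0xc) (nat_lit 0) (.split (nat_lit 0xc) (nat_lit 1) (.split (nat_lit 0xc) (nat_lit 2) (.split (nat_lit 0xc) (nat_lit 3) (.split (nat_lit 0xc) (nat_lit 4) (.split (nat_lit 0xc) (nat_lit 5) (.split (nat_lit 0xc) (nat_lit 6) (.split (nat_lit 0xc) (nat_lit 7) (.split (nat_lit 0xc) (nat_lit 8) (.split (nat_lit 0xc) (nat_lit 9) (.split (nat_lit 0xc) (nat_lit 0xa) (.st (nat_lit 0xb) (nat_lit 1) (nat_lit 5) (nat_lit 0x1554001) (nat_lit 0x1000200020002000200010000000000000000000000000001) (nat_lit 1) (nat_lit 1) (.st (nat_lit 0xc) (nat_lit 1) (nat_lit 5) (nat_lit 0x1555001) (nat_lit 0x2000300040005000600040002000000000000000000000003)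 (nat_lit 1) (nat_lit 1) (.split (nat_lit 0xc) (nat_lit 0xb) (.leaf (.cons (nat_lit 0x15401) (nat_lit 0x200030004000300000000000000000001) (.cons (nat_lit 0x150005) (nat_lit 0x10002000300000000000000000000000000030004) .nil)) (.cons (nat_lit 0x1111111000001) (nat_lit 0x100010) (nat_lit 0xe) (nat_lit 0x7654023000001) (.cons (nat_lit 0x1111100000001) (nat_lit 0x10000010) (nat_lit 4) (nat_lit 0x5432100000000) .nil))) (.non (nat_lit 1) (nat_lit 5) (nat_lit 0x2554001) (nat_lit 0x1000200020002000200010000000000000000000000000001))))) (.non (nat_lit 0) (nat_lit 5) (nat_lit 0x1500000) (nat_lit 0x1000100010000000000000000000000000000000000000000))) (.non (nat_lit 0) (nat_lit 5) (nat_lit 0x1540000) (nat_lit 0x1000100010001000000000000000000000000000000000000))) (.non (nat_lit 0) (nat_lit 5) (nat_lit 0x1550000) (nat_lit 0x1000100010001000100000000000000000000000000000000))) (.non (nat_lit 0) (nat_lit 5) (nat_lit 0x1554000) (nat_lit 0x1000100010001000100010000000000000000000000000000))) (.non (nat_lit 0) (nat_lit 5) (nat_lit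 0x1555000) (nat_lit 0x1000100010001000100010001000000000000000000000000))) (.non (nat_lit 0) (nat_lit 7) (nat_lit 0x1501400) (nat_lit 0x3000200010000000000000003000400000000000000000000))) (.non (nat_lit 0) (nat_lit 5) (nat_lit 0x2800250) (nat_lit 0x2000100000000000000000000000000030004000200000000))) (.non (nat_lit 0) (nat_lit 5) (nat_lit 0x1000250) (nat_lit 0x1000000000000000000000000000000010002000100000000))) (.non (nat_lit 0) (nat_lit 5) (nat_lit 0x1000254) (nat_lit 0x1000000000000000000000000000000010002000200010000))) (.non (nat_lit 2) (nat_lit 8) (nat_lit 0x1500005) (nat_lit 0x3000200010000000000000000000000000000000000040003))) (.non (nat_lit 1) (nat_lit 5) (nat_lit 0x1550001) (nat_lit 0x1000100010001000100000000000000000000000000000001))))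

noncomputable def t1537_109 : Tr := (.split (nat_lit 0xa) (nat_lit 7) (.split (nat_lit 0xa) (nat_lit 8) (.st (nat_lit 9) (nat_lit 1) (nat_lit 5) (nat_lit 0x154001) (nat_lit 0x10002000200010000000000000000000000000001) (nat_lit 1) (nat_lit 1) (.split (nat_lit 0xa) (nat_lit 9) (.ex (nat_lit 0xa) (.leaf (.cons (nat_lit 0x15401) (nat_lit 0x200030004000300000000000000000001) (.cons (nat_lit 0x150005) (nat_lit 0x10002000300000000000000000000000000030004) .nil)) (.cons (nat_lit 0x11111000001) (nat_lit 0x100010) (nat_lit 0xc) (nat_lit 0x54023000001) .nil)) (.split (nat_lit 0xb) (nat_lit 0) (.split (nat_lit 0xb) (nat_lit 1) (.split (nat_lit 0xb) (nat_lit 2) (.split (nat_lit 0xb) (nat_lit 3) (.split (nat_lit 0xb) (nat_lit 4) (.split (nat_lit 0xb) (nat_lit 5) (.split (nat_lit 0xb) (nat_lit 6) (.split (nat_lit 0xb) (nat_lit 7) (.split (nat_lit 0xb) (nat_lit 8) (.split (nat_lit 0xb) (nat_lit 9) (.st (nat_lit 0xa) (nat_lit 1) (nat_lit 5) (nat_lit 0x554001) (nat_lit 0x100020002000200010000000000000000000000000001) (nat_lit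 1) (nat_lit 1) (.split (nat_lit 0xb) (nat_lit 0xa) t1537_108 (.non (nat_lit 1) (nat_lit 5) (nat_lit 0x954001) (nat_lit 0x100020002000200010000000000000000000000000001)))) (.non (nat_lit 0) (nat_lit 5) (nat_lit 0x540000) (nat_lit 0x100010001000000000000000000000000000000000000))) (.non (nat_lit 0) (nat_lit 5) (nat_lit 0x550000) (nat_lit 0x100010001000100000000000000000000000000000000))) (.non (nat_lit 0) (nat_lit 5) (nat_lit 0x554000) (nat_lit 0x100010001000100010000000000000000000000000000))) (.non (nat_lit 0) (nat_lit 5) (nat_lit 0x555000) (nat_lit 0x100010001000100010001000000000000000000000000))) (.non (nat_lit 0) (nat_lit 7) (nat_lit 0x541400) (nat_lit 0x300020001000000000003000400000000000000000000))) (.non (nat_lit 0) (nat_lit 5) (nat_lit 0xa00250) (nat_lit 0x200010000000000000000000000030004000200000000))) (.non (nat_lit 0) (nat_lit 5) (nat_lit 0x400250) (nat_lit 0x100000000000000000000000000010002000100000000))) (.non (nat_lit 0) (nat_lit 5) (nat_lit 0x400254) (nat_lit 0x100000000000000000000000000010002000200010000)))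 (.non (nat_lit 2) (nat_lit 8) (nat_lit 0x540005) (nat_lit 0x300020001000000000000000000000000000000040003))) (.non (nat_lit 1) (nat_lit 5) (nat_lit 0x550001) (nat_lit 0x100010001000100000000000000000000000000000001)))) (.non (nat_lit 1) (nat_lit 5) (nat_lit 0x254001) (nat_lit 0x10002000200010000000000000000000000000001)))) (.non (nat_lit 0) (nat_lit 5) (nat_lit 0x150000) (nat_lit 0x10001000100000000000000000000000000000000))) (.non (nat_lit 0) (nat_lit 5) (nat_lit 0x154000) (nat_lit 0x10001000100010000000000000000000000000000)))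

noncomputable def t1537_110 : Tr := (.pd (.cons (nat_lit 0) (nat_lit 7) (nat_lit 0) (nat_lit 0x8805532110) (nat_lit 0xf423fb71ae00000f423f54591f423f7a11e7a11c7a11a00000) (.cons (nat_lit 0) (nat_lit 8) (nat_lit 0) (nat_lit 0x9065532110) (nat_lit 0xf423f00000f423fb71ae1f156f423f7a11e7a11c7a11a00000) (.cons (nat_lit 0) (nat_lit 9) (nat_lit 0) (nat_lit 0x765532110) (nat_lit 0xf423fb71aea2c2804737f423f7a11e7a11c7a11a00000) (.cons (nat_lit 1) (nat_lit 7) (nat_lit 0) (nat_lit 0x8005532200) (nat_lit 0xf423fb71ae00000f423f54591f423f7a11e7a11c00000a2c28) (.cons (nat_lit 1) (nat_lit 8) (nat_lit 0) (nat_lit 0x9065532200) (nat_lit 0xf423f00000f423fb71ae1f156f423f7a11e7a11c00000f423f) (.cons (nat_lit 2) (nat_lit 8) (nat_lit 0) (nat_lit 0x9065533000) (nat_lit 0xf423f00000f423fb71ae1f156f423f7a11e00000f423f54591) (.cons (nat_lit 3) (nat_lit 8) (nat_lit 0) (nat_lit 0x9065540100) (nat_lit 0xf423f00000f423fb71ae1f156f423f00000f423fb71ae1f156) (.cons (nat_lit 4) (nat_lit 8) (nat_lit 0) (nat_lit 0x9065502100) (nat_lit 0xf423f00000f423fb71ae1f15600000f423fb71aea2c2804737)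 .nil)))))))) (.st (nat_lit 4) (nat_lit 0) (nat_lit 5) (nat_lit 0x254) (nat_lit 0x20003000200010000) (nat_lit 2) (nat_lit 1) (.ex (nat_lit 9) (.pd (.cons (nat_lit 2) (nat_lit 7) (nat_lit 0) (nat_lit 0x8005533000) (nat_lit 0xf423fb71ae00000f423f54591f423f7a11e00000f423f02f7a) .nil) (.leaf (.cons (nat_lit 0x15401) (nat_lit 0x200030004000300000000000000000001) (.cons (nat_lit 0x54005) (nat_lit 0x1000200010000000000000000000000020002) (.cons (nat_lit 0x10015) (nat_lit 0x100000000000000000000000100020002) .nil))) (.cons (nat_lit 0x1111000001) (nat_lit 0x100010) (nat_lit 8) (nat_lit 0x2034000001) (.cons (nat_lit 0x1110000001) (nat_lit 0x1000010) (nat_lit 7) (nat_lit 0x3020000001) .nil)))) (.split (nat_lit 0xa) (nat_lit 0) (.split (nat_lit 0xa) (nat_lit 1) (.split (nat_lit 0xa) (nat_lit 2) (.split (nat_lit 0xa) (nat_lit 3) (.split (nat_lit 0xa) (nat_lit 4) (.split (nat_lit 0xa) (nat_lit 5) (.split (nat_lit 0xa) (nat_lit 6) t1537_109 (.non (nat_lit 0) (nat_lit 5) (nat_lit 0x155000) (nat_lit 0x10001000100010001000000000000000000000000)))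 (.non (nat_lit 0) (nat_lit 7) (nat_lit 0x151400) (nat_lit 0x30002000100000003000400000000000000000000))) (.non (nat_lit 0) (nat_lit 5) (nat_lit 0x280250) (nat_lit 0x20001000000000000000000030004000200000000))) (.non (nat_lit 0) (nat_lit 5) (nat_lit 0x100250) (nat_lit 0x10000000000000000000000010002000100000000))) (.non (nat_lit 0) (nat_lit 5) (nat_lit 0x100254) (nat_lit 0x10000000000000000000000010002000200010000))) (.non (nat_lit 3) (nat_lit 8) (nat_lit 0x100015) (nat_lit 0x10000000000000000000000000000000100020002))) (.non (nat_lit 1) (nat_lit 5) (nat_lit 0x150001) (nat_lit 0x10001000100000000000000000000000000000001))))))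

noncomputable def t1537_111 : Tr := (.split (nat_lit 0xc) (nat_lit 0) (.split (nat_lit 0xc) (nat_lit 1) (.split (nat_lit 0xc) (nat_lit 2) (.split (nat_lit 0xc) (nat_lit 3) (.split (nat_lit 0xc) (nat_lit 4) (.split (nat_lit 0xc) (nat_lit 5) (.split (nat_lit 0xc) (nat_lit 6) (.split (nat_lit 0xc) (nat_lit 7) (.split (nat_lit 0xc) (nat_lit 8) (.split (nat_lit 0xc) (nat_lit 9) (.split (nat_lit 0xc) (nat_lit 0xa) (.st (nat_lit 0xb) (nat_lit 0) (nat_lit 5) (nat_lit 0x1500154) (nat_lit 0x1000200010000000000000000000000020002000200010000) (nat_lit 1) (nat_lit 1) (.st (nat_lit 0xc) (nat_lit 0) (nat_lit 6) (nat_lit 0x1500554) (nat_lit 0x2000300040000000000000000000200040005000600030000) (nat_lit 1) (nat_lit 1) (.split (nat_lit 0xc) (nat_lit 0xb) (.leaf (.cons (nat_lit 0x101450) (nat_lit 0x30000000000000003000400000001000200000000) (.cons (nat_lit 0x54005) (nat_lit 0x1000200010000000000000000000000020002) (.cons (nat_lit 0x105400) (nat_lit 0x10000000000010002000200000000000000000000) (.cons (nat_lit 0x101414) (nat_lit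 0x30000000000000003000400000000000200010000) .nil)))) (.cons (nat_lit 0x1110000111110) (nat_lit 0x1000001) (nat_lit 0xe) (nat_lit 0x7620000354010) (.cons (nat_lit 0x1111000001) (nat_lit 0x100010) (nat_lit 8) (nat_lit 0x2034000001) .nil))) (.non (nat_lit 0) (nat_lit 5) (nat_lit 0x2500154) (nat_lit 0x1000200010000000000000000000000020002000200010000))))) (.non (nat_lit 0) (nat_lit 5) (nat_lit 0x1500150) (nat_lit 0x1000100010000000000000000000000010001000100000000))) (.non (nat_lit 0) (nat_lit 6) (nat_lit 0x1540554) (nat_lit 0x2000300040001000000000000000200040005000600030000))) (.non (nat_lit 0) (nat_lit 5) (nat_lit 0x1455150) (nat_lit 0x5000400000003000600040002000000030002000100000000))) (.non (nat_lit 0) (nat_lit 5) (nat_lit 0x1455150) (nat_lit 0x5000400000002000400060003000000030002000100000000))) (.non (nat_lit 2) (nat_lit 7) (nat_lit 0x1101400) (nat_lit 0x1000000010000000000000002000200000000000000000000))) (.non (nat_lit 0) (nat_lit 6) (nat_lit 0x1500550) (nat_lit 0x1000100010000000000000000000100010001000100000000)))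 (.non (nat_lit 0) (nat_lit 5) (nat_lit 0x1400100) (nat_lit 0x1000100000000000000000000000000010000000000000000))) (.non (nat_lit 0) (nat_lit 5) (nat_lit 0x1400140) (nat_lit 0x1000100000000000000000000000000010001000000000000))) (.non (nat_lit 0) (nat_lit 5) (nat_lit 0x1400150) (nat_lit 0x1000100000000000000000000000000010001000100000000))) (.non (nat_lit 0) (nat_lit 5) (nat_lit 0x1400154) (nat_lit 0x1000100000000000000000000000000010001000100010000))) (.non (nat_lit 1) (nat_lit 5) (nat_lit 0x1455141) (nat_lit 0x4000300000003000600040002000000020001000000000005)))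

noncomputable def t1537_112 : Tr := (.ex (nat_lit 4) (.leaf (.cons (nat_lit 0x101450) (nat_lit 0x30000000000000003000400000001000200000000) (.cons (nat_lit 0x54005) (nat_lit 0x1000200010000000000000000000000020002) (.cons (nat_lit 0x105400) (nat_lit 0x10000000000010002000200000000000000000000) (.cons (nat_lit 0x101414) (nat_lit 0x30000000000000003000400000000000200010000) .nil)))) (.cons (nat_lit 0x10000111110) (nat_lit 0x1000001) (nat_lit 0xc) (nat_lit 0x40000532010) .nil)) (.split (nat_lit 0xb) (nat_lit 0) (.split (nat_lit 0xb) (nat_lit 1) (.split (nat_lit 0xb) (nat_lit 2) (.split (nat_lit 0xb) (nat_lit 3) (.split (nat_lit 0xb) (nat_lit 5) (.split (nat_lit 0xb) (nat_lit 6) (.split (nat_lit 0xb) (nat_lit 7) (.split (nat_lit 0xb) (nat_lit 8) (.split (nat_lit 0xb) (nat_lit 9) (.split (nat_lit 0xb) (nat_lit 0xa) (.st (nat_lit 4) (nat_lit 0) (nat_lit 5) (nat_lit 0x500154) (nat_lit 0x100010000000000000000000000020002000200010000) (nat_lit 1) (nat_lit 1) (.split (nat_lit 0xb) (nat_lit 4) (.ex (nat_lit 0xb) (.leaf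 (.cons (nat_lit 0x101450) (nat_lit 0x30000000000000003000400000001000200000000) (.cons (nat_lit 0x54005) (nat_lit 0x1000200010000000000000000000000020002) (.cons (nat_lit 0x105400) (nat_lit 0x10000000000010002000200000000000000000000) (.cons (nat_lit 0x101414) (nat_lit 0x30000000000000003000400000000000200010000) .nil)))) (.cons (nat_lit 0x110000111110) (nat_lit 0x1000001) (nat_lit 0xd) (nat_lit 0x620000354010) (.cons (nat_lit 0x1111000001) (nat_lit 0x100010) (nat_lit 8) (nat_lit 0x2034000001) .nil))) t1537_111) (.non (nat_lit 0) (nat_lit 5) (nat_lit 0x900154) (nat_lit 0x100010000000000000000000000020002000200010000)))) (.non (nat_lit 0) (nat_lit 5) (nat_lit 0x500150) (nat_lit 0x100010000000000000000000000010001000100000000))) (.non (nat_lit 0) (nat_lit 6) (nat_lit 0x550554) (nat_lit 0x300040002000100000000000200040005000600030000))) (.non (nat_lit 0) (nat_lit 5) (nat_lit 0x555150) (nat_lit 0x500010003000600040002000000040003000200000000))) (.non (nat_lit 0) (nat_lit 5) (nat_lit 0x555150) (nat_lit 0x500010002000400060003000000040003000200000000)))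 (.non (nat_lit 2) (nat_lit 7) (nat_lit 0x501400) (nat_lit 0x100010000000000000002000200000000000000000000))) (.non (nat_lit 0) (nat_lit 6) (nat_lit 0x500550) (nat_lit 0x100010000000000000000000100010001000100000000))) (.non (nat_lit 0) (nat_lit 5) (nat_lit 0x400140) (nat_lit 0x100000000000000000000000000010001000000000000))) (.non (nat_lit 0) (nat_lit 5) (nat_lit 0x400150) (nat_lit 0x100000000000000000000000000010001000100000000))) (.non (nat_lit 0) (nat_lit 5) (nat_lit 0x400154) (nat_lit 0x100000000000000000000000000010001000100010000))) (.non (nat_lit 1) (nat_lit 5) (nat_lit 0x455151) (nat_lit 0x400000003000600040002000000030002000100000005))))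

noncomputable def t1537_113 : Tr := (.split (nat_lit 0xe) (nat_lit 3) (.split (nat_lit 0xe) (nat_lit 4) (.split (nat_lit 0xe) (nat_lit 5) (.split (nat_lit 0xe) (nat_lit 6) (.split (nat_lit 0xe) (nat_lit 7) (.split (nat_lit 0xe) (nat_lit 8) (.split (nat_lit 0xe) (nat_lit 9) (.split (nat_lit 0xe) (nat_lit 0xa) (.split (nat_lit 0xe) (nat_lit 0xb) (.split (nat_lit 0xe) (nat_lit 0xc) (.st (nat_lit 0xd) (nat_lit 0) (nat_lit 5) (nat_lit 0x14100154) (nat_lit 0x100020000000000010000000000000000000000020002000200010000) (nat_lit 1) (nat_lit 1) (.st (nat_lit 0xe) (nat_lit 0) (nat_lit 6) (nat_lit 0x14100554) (nat_lit 0x200030000000000040000000000000000000200040005000600030000) (nat_lit 1) (nat_lit 1) (.split (nat_lit 0xe) (nat_lit 0xd) (.leaf (.cons (nat_lit 0x101450) (nat_lit 0x30000000000000003000400000001000200000000) (.cons (nat_lit 0x450005) (nat_lit 0x100000002000300000000000000000000000000030004) (.cons (nat_lit 0x105400) (nat_lit 0x10000000000010002000200000000000000000000) .nil))) (.cons (nat_lit 0x110010000111110)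 (nat_lit 0x1000001) (nat_lit 0xe) (nat_lit 0x760020000354010) (.cons (nat_lit 0x1101111000001) (nat_lit 0x100010) (nat_lit 0xd) (nat_lit 0x6504023000001) .nil))) (.non (nat_lit 0) (nat_lit 5) (nat_lit 0x24100154) (nat_lit 0x100020000000000010000000000000000000000020002000200010000))))) (.non (nat_lit 0) (nat_lit 6) (nat_lit 0x15100554) (nat_lit 0x200030001000000040000000000000000000200040005000600030000))) (.non (nat_lit 0) (nat_lit 5) (nat_lit 0x15454100) (nat_lit 0x300020002000400000003000200010000000000010000000000000000))) (.non (nat_lit 0) (nat_lit 5) (nat_lit 0x14100150) (nat_lit 0x100010000000000010000000000000000000000010001000100000000))) (.non (nat_lit 0) (nat_lit 5) (nat_lit 0x15454000) (nat_lit 0x200010001000200000003000200010000000000000000000000000000))) (.non (nat_lit 0) (nat_lit 5) (nat_lit 0x14455000) (nat_lit 0x200010000000100000002000300020001000000000000000000000000))) (.non (nat_lit 0) (nat_lit 5) (nat_lit 0x14455100) (nat_lit 0x300020000000100000002000300040002000000010000000000000000)))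 (.non (nat_lit 1) (nat_lit 5) (nat_lit 0x11455001) (nat_lit 0x100000001000200000003000400030002000000000000000000000002))) (.non (nat_lit 0) (nat_lit 6) (nat_lit 0x14100550) (nat_lit 0x100010000000000010000000000000000000100010001000100000000))) (.non (nat_lit 0) (nat_lit 5) (nat_lit 0x14000100) (nat_lit 0x100010000000000000000000000000000000000010000000000000000))) (.non (nat_lit 0) (nat_lit 5) (nat_lit 0x14000140) (nat_lit 0x100010000000000000000000000000000000000010001000000000000)))

noncomputable def t1537_114 : Tr := (.split (nat_lit 0xf) (nat_lit 4) (.split (nat_lit 0xf) (nat_lit 5) (.split (nat_lit 0xf) (nat_lit 6) (.split (nat_lit 0xf) (nat_lit 7) (.split (nat_lit 0xf) (nat_lit 8) (.split (nat_lit 0xf) (nat_lit 9) (.split (nat_lit 0xf) (nat_lit 0xa) (.split (nat_lit 0xf) (nat_lit 0xb) (.split (nat_lit 0xf) (nat_lit 0xc) (.split (nat_lit 0xf) (nat_lit 0xe) (.st (nat_lit 0xd) (nat_lit 0) (nat_lit 5) (nat_lit 0x44100154) (nat_lit 0x1000000020000000000010000000000000000000000020002000200010000) (nat_lit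 1) (nat_lit 1) (.st (nat_lit 0xf) (nat_lit 0) (nat_lit 6) (nat_lit 0x44100554) (nat_lit 0x2000000030000000000040000000000000000000200040005000600030000) (nat_lit 1) (nat_lit 1) (.split (nat_lit 0xf) (nat_lit 0xd) (.leaf (.cons (nat_lit 0x101450) (nat_lit 0x30000000000000003000400000001000200000000) (.cons (nat_lit 0x450005) (nat_lit 0x100000002000300000000000000000000000000030004) (.cons (nat_lit 0x105400) (nat_lit 0x10000000000010002000200000000000000000000) .nil))) (.cons (nat_lit 0x1010010000111110) (nat_lit 0x1000001) (nat_lit 0xe) (nat_lit 0x7060020000354010) (.cons (nat_lit 0x101101111000001) (nat_lit 0x100010) (nat_lit 0xe) (nat_lit 0x706504023000001) .nil))) (.non (nat_lit 0) (nat_lit 5) (nat_lit 0x84100154) (nat_lit 0x1000000020000000000010000000000000000000000020002000200010000))))) (.non (nat_lit 0) (nat_lit 6) (nat_lit 0x54100554) (nat_lit 0x2000100030000000000040000000000000000000200040005000600030000))) (.non (nat_lit 0) (nat_lit 5) (nat_lit 0x55455000) (nat_lit 0x4000300020006000500000004000300020001000000000000000000000000)))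 (.non (nat_lit 0) (nat_lit 5) (nat_lit 0x55450000) (nat_lit 0x2000100010002000300000002000100000000000000000000000000000000))) (.non (nat_lit 0) (nat_lit 5) (nat_lit 0x44100150) (nat_lit 0x1000000010000000000010000000000000000000000010001000100000000))) (.non (nat_lit 0) (nat_lit 5) (nat_lit 0x45454000) (nat_lit 0x2000000010001000200000003000200010000000000000000000000000000))) (.non (nat_lit 0) (nat_lit 5) (nat_lit 0x44455000) (nat_lit 0x2000000010000000100000002000300020001000000000000000000000000))) (.non (nat_lit 0) (nat_lit 5) (nat_lit 0x55455000) (nat_lit 0x4000100020002000300000004000500060003000000000000000000000000))) (.non (nat_lit 1) (nat_lit 5) (nat_lit 0x41455001) (nat_lit 0x1000000000001000200000003000400030002000000000000000000000002))) (.non (nat_lit 0) (nat_lit 6) (nat_lit 0x44100550) (nat_lit 0x1000000010000000000010000000000000000000100010001000100000000))) (.non (nat_lit 0) (nat_lit 5) (nat_lit 0x44000100) (nat_lit 0x1000000010000000000000000000000000000000000010000000000000000)))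

noncomputable def t1537_115 : Tr := (.split (nat_lit 0xe) (nat_lit 7) (.split (nat_lit 0xe) (nat_lit 8) (.split (nat_lit 0xe) (nat_lit 9) (.split (nat_lit 0xe) (nat_lit 0xa) (.split (nat_lit 0xe) (nat_lit 0xb) (.split (nat_lit 0xe) (nat_lit 0xd) (.st (nat_lit 0xc) (nat_lit 1) (nat_lit 5) (nat_lit 0x11454001) (nat_lit 0x100000002000200000002000200010000000000000000000000000001) (nat_lit 1) (nat_lit 1) (.st (nat_lit 0xe) (nat_lit 1) (nat_lit 5) (nat_lit 0x11455001) (nat_lit 0x200000003000400000005000600040002000000000000000000000003) (nat_lit 1) (nat_lit 1) (.split (nat_lit 0xe) (nat_lit 0xc) (.ex (nat_lit 0xd) (.leaf (.cons (nat_lit 0x101450) (nat_lit 0x30000000000000003000400000001000200000000) (.cons (nat_lit 0x450005) (nat_lit 0x100000002000300000000000000000000000000030004) (.cons (nat_lit 0x105400) (nat_lit 0x10000000000010002000200000000000000000000) .nil))) (.cons (nat_lit 0x10010000111110) (nat_lit 0x1000001) (nat_lit 0xd) (nat_lit 0x60020000354010) (.cons (nat_lit 0x101101111000001) (nat_lit 0x100010)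 (nat_lit 0xe) (nat_lit 0x706504023000001) .nil))) (.split (nat_lit 0xf) (nat_lit 0) (.split (nat_lit 0xf) (nat_lit 1) (.split (nat_lit 0xf) (nat_lit 2) (.split (nat_lit 0xf) (nat_lit 3) t1537_114 (.non (nat_lit 0) (nat_lit 5) (nat_lit 0x44000140) (nat_lit 0x1000000010000000000000000000000000000000000010001000000000000))) (.non (nat_lit 0) (nat_lit 5) (nat_lit 0x44000150) (nat_lit 0x1000000010000000000000000000000000000000000010001000100000000))) (.non (nat_lit 0) (nat_lit 5) (nat_lit 0x44000154) (nat_lit 0x1000000010000000000000000000000000000000000010001000100010000))) (.non (nat_lit 1) (nat_lit 5) (nat_lit 0x45454001) (nat_lit 0x2000000010001000200000003000400020000000000000000000000000003)))) (.non (nat_lit 1) (nat_lit 5) (nat_lit 0x21454001) (nat_lit 0x100000002000200000002000200010000000000000000000000000001))))) (.non (nat_lit 0) (nat_lit 6) (nat_lit 0x15100554) (nat_lit 0x200030001000000040000000000000000000200040005000600030000))) (.non (nat_lit 0) (nat_lit 5) (nat_lit 0x11400000) (nat_lit 0x100000001000100000000000000000000000000000000000000000000)))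 (.non (nat_lit 0) (nat_lit 5) (nat_lit 0x15100154) (nat_lit 0x200010001000000030000000000000000000000020003000400020000))) (.non (nat_lit 0) (nat_lit 5) (nat_lit 0x11440000) (nat_lit 0x100000001000100000001000000000000000000000000000000000000))) (.non (nat_lit 0) (nat_lit 5) (nat_lit 0x11450000) (nat_lit 0x100000001000100000001000100000000000000000000000000000000))) (.non (nat_lit 0) (nat_lit 5) (nat_lit 0x11454000) (nat_lit 0x100000001000100000001000100010000000000000000000000000000)))

noncomputable def t1537_116 : Tr := (.split (nat_lit 0xd) (nat_lit 0xc) (.st (nat_lit 4) (nat_lit 0) (nat_lit 5) (nat_lit 0x4100154) (nat_lit 0x10000000000010000000000000000000000020002000200010000) (nat_lit 1) (nat_lit 1) (.split (nat_lit 0xd) (nat_lit 4) (.ex (nat_lit 0xc) (.ex (nat_lit 0xd) (.leaf (.cons (nat_lit 0x101450) (nat_lit 0x30000000000000003000400000001000200000000) (.cons (nat_lit 0x450005) (nat_lit 0x100000002000300000000000000000000000000030004) (.cons (nat_lit 0x105400) (nat_lit 0x10000000000010002000200000000000000000000)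 .nil))) (.cons (nat_lit 0x10010000111110) (nat_lit 0x1000001) (nat_lit 0xd) (nat_lit 0x60020000354010) (.cons (nat_lit 0x1101111000001) (nat_lit 0x100010) (nat_lit 0xd) (nat_lit 0x6504023000001) .nil))) (.split (nat_lit 0xe) (nat_lit 0) (.split (nat_lit 0xe) (nat_lit 1) (.split (nat_lit 0xe) (nat_lit 2) t1537_113 (.non (nat_lit 0) (nat_lit 5) (nat_lit 0x14000150) (nat_lit 0x100010000000000000000000000000000000000010001000100000000))) (.non (nat_lit 0) (nat_lit 5) (nat_lit 0x14000154) (nat_lit 0x100010000000000000000000000000000000000010001000100010000))) (.non (nat_lit 1) (nat_lit 5) (nat_lit 0x15454001) (nat_lit 0x200010001000200000003000400020000000000000000000000000003)))) (.split (nat_lit 0xe) (nat_lit 0) (.split (nat_lit 0xe) (nat_lit 1) (.split (nat_lit 0xe) (nat_lit 2) (.split (nat_lit 0xe) (nat_lit 3) (.split (nat_lit 0xe) (nat_lit 4) (.split (nat_lit 0xe) (nat_lit 5) (.split (nat_lit 0xe) (nat_lit 6) t1537_115 (.non (nat_lit 0) (nat_lit 5) (nat_lit 0x11455000) (nat_lit 0x100000001000100000001000100010001000000000000000000000000)))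 (.non (nat_lit 0) (nat_lit 6) (nat_lit 0x14100554) (nat_lit 0x100010000000000030000000000000000000200020003000400020000))) (.non (nat_lit 0) (nat_lit 5) (nat_lit 0x15500150) (nat_lit 0x300020002000100010000000000000000000000040003000200000000))) (.non (nat_lit 0) (nat_lit 5) (nat_lit 0x15100150) (nat_lit 0x200010001000000010000000000000000000000020003000200000000))) (.non (nat_lit 0) (nat_lit 5) (nat_lit 0x15500150) (nat_lit 0x300010002000100020000000000000000000000020003000400000000))) (.non (nat_lit 0) (nat_lit 5) (nat_lit 0x15100154) (nat_lit 0x200010001000000020000000000000000000000020003000400030000))) (.non (nat_lit 1) (nat_lit 5) (nat_lit 0x11450001) (nat_lit 0x100000001000100000001000100000000000000000000000000000001)))) (.non (nat_lit 0) (nat_lit 5) (nat_lit 0x8100154) (nat_lit 0x10000000000010000000000000000000000020002000200010000)))) (.non (nat_lit 0) (nat_lit 6) (nat_lit 0x5500554) (nat_lit 0x30002000100040000000000000000000200040005000600030000)))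

noncomputable def t1537_117 : Tr := (.split (nat_lit 0xc) (nat_lit 0xa) (.st (nat_lit 0xb) (nat_lit 1) (nat_lit 5) (nat_lit 0x1454001) (nat_lit 0x1000200000002000200010000000000000000000000000001) (nat_lit 1) (nat_lit 1) (.split (nat_lit 0xc) (nat_lit 0xb) (.ex (nat_lit 4) (.leaf (.cons (nat_lit 0x101450) (nat_lit 0x30000000000000003000400000001000200000000) (.cons (nat_lit 0x450005) (nat_lit 0x100000002000300000000000000000000000000030004) (.cons (nat_lit 0x105400) (nat_lit 0x10000000000010002000200000000000000000000) .nil))) (.cons (nat_lit 0x10000111110) (nat_lit 0x1000001) (nat_lit 0xc) (nat_lit 0x40000532010) .nil)) (.split (nat_lit 0xd) (nat_lit 0) (.split (nat_lit 0xd) (nat_lit 1) (.split (nat_lit 0xd) (nat_lit 2) (.split (nat_lit 0xd) (nat_lit 3) (.split (nat_lit 0xd) (nat_lit 5) (.split (nat_lit 0xd) (nat_lit 6) (.split (nat_lit 0xd) (nat_lit 7) (.split (nat_lit 0xd) (nat_lit 8) (.split (nat_lit 0xd) (nat_lit 9) (.split (nat_lit 0xd) (nat_lit 0xa) (.split (nat_lit 0xd) (nat_lit 0xb) t1537_116 (.non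 (nat_lit 0) (nat_lit 5) (nat_lit 0x5454140) (nat_lit 0x30002000400000003000200010000000000020001000000000000))) (.non (nat_lit 0) (nat_lit 5) (nat_lit 0x4100150) (nat_lit 0x10000000000010000000000000000000000010001000100000000))) (.non (nat_lit 0) (nat_lit 5) (nat_lit 0x5454100) (nat_lit 0x20001000200000003000200010000000000010000000000000000))) (.non (nat_lit 0) (nat_lit 5) (nat_lit 0x4455100) (nat_lit 0x20000000100000002000300020001000000010000000000000000))) (.non (nat_lit 0) (nat_lit 5) (nat_lit 0x4455140) (nat_lit 0x30000000100000002000300040002000000020001000000000000))) (.non (nat_lit 1) (nat_lit 5) (nat_lit 0x5455001) (nat_lit 0x10001000200000003000400030002000000000000000000000002))) (.non (nat_lit 0) (nat_lit 6) (nat_lit 0x4100550) (nat_lit 0x10000000000010000000000000000000100010001000100000000))) (.non (nat_lit 0) (nat_lit 5) (nat_lit 0x4000140) (nat_lit 0x10000000000000000000000000000000000010001000000000000))) (.non (nat_lit 0) (nat_lit 5) (nat_lit 0x4000150) (nat_lit 0x10000000000000000000000000000000000010001000100000000)))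 (.non (nat_lit 0) (nat_lit 5) (nat_lit 0x4000154) (nat_lit 0x10000000000000000000000000000000000010001000100010000))) (.non (nat_lit 1) (nat_lit 5) (nat_lit 0x4455001) (nat_lit 0x10000000100000002000300020001000000000000000000000002)))) (.non (nat_lit 1) (nat_lit 5) (nat_lit 0x2454001) (nat_lit 0x1000200000002000200010000000000000000000000000001)))) (.non (nat_lit 0) (nat_lit 5) (nat_lit 0x1550154) (nat_lit 0x4000300050002000100000000000000020004000600030000)))

noncomputable def t1537_118 : Tr := (.split (nat_lit 4) (nat_lit 3) (.split (nat_lit 0xb) (nat_lit 9) (.split (nat_lit 9) (nat_lit 8) (.split (nat_lit 0xa) (nat_lit 5) (.split (nat_lit 8) (nat_lit 0) (.ex (nat_lit 0xb) (.leaf (.cons (nat_lit 0x101450) (nat_lit 0x30000000000000003000400000001000200000000) (.cons (nat_lit 0x450005) (nat_lit 0x100000002000300000000000000000000000000030004) (.cons (nat_lit 0x105400) (nat_lit 0x10000000000010002000200000000000000000000) .nil))) (.cons (nat_lit 0x101111000001) (nat_lit 0x100010) (nat_lit 0xc) (nat_lit 0x504023000001)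 .nil)) (.split (nat_lit 0xc) (nat_lit 0) (.split (nat_lit 0xc) (nat_lit 1) (.split (nat_lit 0xc) (nat_lit 2) (.split (nat_lit 0xc) (nat_lit 3) (.split (nat_lit 0xc) (nat_lit 4) (.split (nat_lit 0xc) (nat_lit 5) (.split (nat_lit 0xc) (nat_lit 6) (.split (nat_lit 0xc) (nat_lit 7) (.split (nat_lit 0xc) (nat_lit 8) (.split (nat_lit 0xc) (nat_lit 9) t1537_117 (.non (nat_lit 0) (nat_lit 5) (nat_lit 0x1440000) (nat_lit 0x1000100000001000000000000000000000000000000000000))) (.non (nat_lit 0) (nat_lit 5) (nat_lit 0x1450000) (nat_lit 0x1000100000001000100000000000000000000000000000000))) (.non (nat_lit 0) (nat_lit 5) (nat_lit 0x1454000) (nat_lit 0x1000100000001000100010000000000000000000000000000))) (.non (nat_lit 0) (nat_lit 5) (nat_lit 0x1455000) (nat_lit 0x1000100000001000100010001000000000000000000000000))) (.non (nat_lit 0) (nat_lit 6) (nat_lit 0x1540554) (nat_lit 0x3000200050001000000000000000400020004000600030000))) (.non (nat_lit 0) (nat_lit 6) (nat_lit 0x1540554) (nat_lit 0x3000200040001000000000000000200040005000600030000)))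 (.non (nat_lit 0) (nat_lit 5) (nat_lit 0x1554150) (nat_lit 0x5000400020003000200010000000000030006000400000000))) (.non (nat_lit 0) (nat_lit 5) (nat_lit 0x1554150) (nat_lit 0x5000400030003000200010000000000020004000600000000))) (.non (nat_lit 0) (nat_lit 5) (nat_lit 0x1550154) (nat_lit 0x4000300030002000100000000000000020004000600050000))) (.non (nat_lit 1) (nat_lit 5) (nat_lit 0x1450001) (nat_lit 0x1000100000001000100000000000000000000000000000001)))) (.non (nat_lit 1) (nat_lit 5) (nat_lit 0xa8001) (nat_lit 0x1000200010000000000000000000000000002))) (.non (nat_lit 0) (nat_lit 6) (nat_lit 0x100854) (nat_lit 0x20000000000000000000100000001000200010000))) (.non (nat_lit 0) (nat_lit 5) (nat_lit 0x895000) (nat_lit 0x100000002000300020001000000000000000000000000))) (.non (nat_lit 1) (nat_lit 5) (nat_lit 0x854001) (nat_lit 0x100000002000200010000000000000000000000000001))) (.non (nat_lit 0) (nat_lit 5) (nat_lit 0x100254) (nat_lit 0x10000000000000000000000010002000200010000)))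

noncomputable def t1537_119 : Tr := (.ex (nat_lit 9) (.split (nat_lit 8) (nat_lit 0) (.split (nat_lit 9) (nat_lit 8) (.split (nat_lit 0xa) (nat_lit 5) (.pd (.cons (nat_lit 2) (nat_lit 7) (nat_lit 0x11000) (nat_lit 0x58005534000) (nat_lit 0xf423ff423fb71ae00000f423f17500000010000100000f423f02f7a) .nil) (.split (nat_lit 0xa) (nat_lit 2) (.split (nat_lit 4) (nat_lit 3) t1537_112 (.non (nat_lit 0) (nat_lit 5) (nat_lit 0x100254) (nat_lit 0x10000000000000000000000010002000200010000))) (.non (nat_lit 0) (nat_lit 5) (nat_lit 0x200054) (nat_lit 0x10000000000000000000000000001000200010000)))) (.non (nat_lit 0) (nat_lit 6) (nat_lit 0x100854) (nat_lit 0x20000000000000000000100000001000200010000))) (.non (nat_lit 1) (nat_lit 5) (nat_lit 0x94001) (nat_lit 0x1000200010000000000000000000000000001))) (.non (nat_lit 1) (nat_lit 5) (nat_lit 0xa8001) (nat_lit 0x1000200010000000000000000000000000002))) (.split (nat_lit 0xb) (nat_lit 0) (.split (nat_lit 0xb) (nat_lit 1) (.split (nat_lit 0xb) (nat_lit 2) (.split (nat_lit 0xb) (nat_lit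 3) (.split (nat_lit 0xb) (nat_lit 4) (.split (nat_lit 0xb) (nat_lit 5) (.split (nat_lit 0xb) (nat_lit 6) (.split (nat_lit 0xb) (nat_lit 7) (.split (nat_lit 0xb) (nat_lit 8) (.split (nat_lit 0xb) (nat_lit 0xa) (.st (nat_lit 9) (nat_lit 1) (nat_lit 5) (nat_lit 0x454001) (nat_lit 0x100000002000200010000000000000000000000000001) (nat_lit 1) (nat_lit 1) (.split (nat_lit 0xa) (nat_lit 2) t1537_118 (.non (nat_lit 0) (nat_lit 5) (nat_lit 0x200054) (nat_lit 0x10000000000000000000000000001000200010000)))) (.non (nat_lit 0) (nat_lit 5) (nat_lit 0x554154) (nat_lit 0x400050003000200010000000000020004000600030000))) (.non (nat_lit 0) (nat_lit 5) (nat_lit 0x450000) (nat_lit 0x100000001000100000000000000000000000000000000))) (.non (nat_lit 0) (nat_lit 5) (nat_lit 0x454000) (nat_lit 0x100000001000100010000000000000000000000000000))) (.non (nat_lit 0) (nat_lit 5) (nat_lit 0x455000) (nat_lit 0x100000001000100010001000000000000000000000000))) (.non (nat_lit 0) (nat_lit 6) (nat_lit 0x550554) (nat_lit 0x300050002000100000000000400020004000600030000)))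 (.non (nat_lit 0) (nat_lit 6) (nat_lit 0x550554) (nat_lit 0x300040002000100000000000200040005000600030000))) (.non (nat_lit 0) (nat_lit 5) (nat_lit 0x555150) (nat_lit 0x500020004000300020001000000030006000400000000))) (.non (nat_lit 0) (nat_lit 5) (nat_lit 0x555150) (nat_lit 0x500030004000300020001000000020004000600000000))) (.non (nat_lit 0) (nat_lit 5) (nat_lit 0x554154) (nat_lit 0x400030003000200010000000000020004000600050000))) (.non (nat_lit 1) (nat_lit 5) (nat_lit 0x450001) (nat_lit 0x100000001000100000000000000000000000000000001))))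

noncomputable def t1537_120 : Tr := (.ex (nat_lit 5) (.ex (nat_lit 6) t1537_119 (.split (nat_lit 0xb) (nat_lit 0) (.split (nat_lit 0xb) (nat_lit 1) (.split (nat_lit 0xb) (nat_lit 2) (.split (nat_lit 0xb) (nat_lit 3) (.split (nat_lit 0xb) (nat_lit 7) (.split (nat_lit 0xb) (nat_lit 8) (.split (nat_lit 0xb) (nat_lit 9) (.split (nat_lit 0xb) (nat_lit 0xa) (.split (nat_lit 0xb) (nat_lit 4) (.split (nat_lit 0xb) (nat_lit 5) (.unj (nat_lit 0x405400) (nat_lit 0x100000000000000010002000200000000000000000000) (nat_lit 0x155) (nat_lit 0x10002000300040003)) (.unj (nat_lit 0x401400) (nat_lit 0x100000000000000000001000100000000000000000000) (nat_lit 0x10015) (nat_lit 0x100000000000000000000000100020002))) (.split (nat_lit 0xb) (nat_lit 5) (.sup (nat_lit 0x100000000000000000000000300050005) (nat_lit 0x300000000000000010005000400000000000000000000)) (.non (nat_lit 0) (nat_lit 6) (nat_lit 0x500550) (nat_lit 0x100010000000000000000000100010001000100000000)))) (.non (nat_lit 0) (nat_lit 5) (nat_lit 0x515154) (nat_lit 0x400050000000100020003000000020004000600030000)))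 (.non (nat_lit 0) (nat_lit 5) (nat_lit 0x455000) (nat_lit 0x100000001000100010001000000000000000000000000))) (.non (nat_lit 0) (nat_lit 5) (nat_lit 0x415000) (nat_lit 0x100000000000100010001000000000000000000000000))) (.non (nat_lit 0) (nat_lit 5) (nat_lit 0x405000) (nat_lit 0x100000000000000010001000000000000000000000000))) (.non (nat_lit 0) (nat_lit 5) (nat_lit 0x555150) (nat_lit 0x500020001000200030004000000030006000400000000))) (.non (nat_lit 0) (nat_lit 5) (nat_lit 0x555150) (nat_lit 0x500030001000200030004000000020004000600000000))) (.star (nat_lit 0xb) (nat_lit 1) (nat_lit 6))) (.star (nat_lit 0xb) (nat_lit 0) (nat_lit 6)))) (.split (nat_lit 0xb) (nat_lit 0) (.split (nat_lit 0xb) (nat_lit 1) (.split (nat_lit 0xb) (nat_lit 2) (.split (nat_lit 0xb) (nat_lit 3) (.split (nat_lit 0xb) (nat_lit 4) (.split (nat_lit 0xb) (nat_lit 7) (.split (nat_lit 0xb) (nat_lit 8) (.split (nat_lit 0xb) (nat_lit 9) (.split (nat_lit 0xb) (nat_lit 0xa) (.split (nat_lit 0xb) (nat_lit 6) (.unj (nat_lit 0x405400) (nat_lit 0x100000000000000010002000200000000000000000000)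 (nat_lit 0x155) (nat_lit 0x10002000300040003)) (.unj (nat_lit 0x401400) (nat_lit 0x100000000000000000001000100000000000000000000) (nat_lit 0x10015) (nat_lit 0x100000000000000000000000100020002))) (.non (nat_lit 0) (nat_lit 6) (nat_lit 0x500400) (nat_lit 0x100010000000000000000000100000000000000000000))) (.non (nat_lit 0) (nat_lit 6) (nat_lit 0x550554) (nat_lit 0x300050002000100000000000400020004000600030000))) (.non (nat_lit 0) (nat_lit 6) (nat_lit 0x554454) (nat_lit 0x200020001000200010000000200000001000200010000))) (.non (nat_lit 0) (nat_lit 6) (nat_lit 0x514554) (nat_lit 0x300050000000100020000000400020004000600030000))) (.non (nat_lit 0) (nat_lit 6) (nat_lit 0x500550) (nat_lit 0x100010000000000000000000100010001000100000000))) (.non (nat_lit 0) (nat_lit 5) (nat_lit 0x500154) (nat_lit 0x100010000000000000000000000010002000200010000))) (.non (nat_lit 0) (nat_lit 5) (nat_lit 0x500054) (nat_lit 0x100010000000000000000000000000001000200010000))) (.star (nat_lit 0xb) (nat_lit 1) (nat_lit 5))) (.star (nat_lit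 0xb) (nat_lit 0) (nat_lit 5))))

noncomputable def t1537_121 : Tr := (.split (nat_lit 0xa) (nat_lit 8) (.split (nat_lit 0xa) (nat_lit 2) (.split (nat_lit 0xa) (nat_lit 3) (.split (nat_lit 0xa) (nat_lit 4) (.split (nat_lit 0xa) (nat_lit 6) (.split (nat_lit 0xa) (nat_lit 9) (.unj (nat_lit 0x105400) (nat_lit 0x10000000000010002000200000000000000000000) (nat_lit 0x155) (nat_lit 0x10002000300040003)) (.unj (nat_lit 0x105400) (nat_lit 0x10000000000010002000200000000000000000000) (nat_lit 0x155) (nat_lit 0x10002000300040003))) (.split (nat_lit 0xa) (nat_lit 9) (.unj (nat_lit 0x101400) (nat_lit 0x10000000000000001000100000000000000000000) (nat_lit 0x10015) (nat_lit 0x100000000000000000000000100020002)) (.non (nat_lit 0) (nat_lit 5) (nat_lit 0x155000) (nat_lit 0x10001000100010001000000000000000000000000)))) (.split (nat_lit 0xa) (nat_lit 9) (.split (nat_lit 0xa) (nat_lit 6) (.sup (nat_lit 0x2000000000000000000000005000a0009) (nat_lit 0x50000000000020009000a00000000000000000000)) (.unj (nat_lit 0x101400) (nat_lit 0x10000000000000001000100000000000000000000)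 (nat_lit 0x10015) (nat_lit 0x100000000000000000000000100020002))) (.non (nat_lit 0) (nat_lit 6) (nat_lit 0x154550) (nat_lit 0x40003000200010000000200030002000100000000)))) (.split (nat_lit 0xa) (nat_lit 4) (.split (nat_lit 0xa) (nat_lit 6) (.split (nat_lit 0xa) (nat_lit 9) (.sup (nat_lit 0x2000000000000000000000005000a0009) (nat_lit 0x50000000000020009000a00000000000000000000)) (.non (nat_lit 0) (nat_lit 5) (nat_lit 0x155154) (nat_lit 0x50004000300020001000000030006000400020000))) (.non (nat_lit 0) (nat_lit 5) (nat_lit 0x155154) (nat_lit 0x50001000200030004000000030006000400020000))) (.non (nat_lit 0) (nat_lit 5) (nat_lit 0x100140) (nat_lit 0x10000000000000000000000010001000000000000)))) (.split (nat_lit 0xa) (nat_lit 3) (.split (nat_lit 0xa) (nat_lit 4) (.split (nat_lit 0xa) (nat_lit 6) (.split (nat_lit 0xa) (nat_lit 9) (.st (nat_lit 0xa) (nat_lit 0) (nat_lit 6) (nat_lit 0x100454) (nat_lit 0x20000000000000000000100000001000200010000) (nat_lit 1) (nat_lit 1) t1537_120) (.non (nat_lit 0) (nat_lit 5) (nat_lit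 0x155154) (nat_lit 0x50004000300020001000000020004000600030000))) (.non (nat_lit 0) (nat_lit 5) (nat_lit 0x155154) (nat_lit 0x50001000200030004000000020004000600030000))) (.non (nat_lit 0) (nat_lit 5) (nat_lit 0x100150) (nat_lit 0x10000000000000000000000010001000100000000))) (.non (nat_lit 0) (nat_lit 5) (nat_lit 0x100050) (nat_lit 0x10000000000000000000000000001000100000000)))) (.non (nat_lit 1) (nat_lit 5) (nat_lit 0x154001) (nat_lit 0x10001000200010000000000000000000000000001)))

noncomputable def t1537_122 : Tr := (.ex (nat_lit 5) (.ex (nat_lit 6) (.split (nat_lit 4) (nat_lit 3) (.split (nat_lit 8) (nat_lit 0) (.split (nat_lit 9) (nat_lit 8) t1537_107 (.non (nat_lit 1) (nat_lit 5) (nat_lit 0x94001) (nat_lit 0x1000200010000000000000000000000000001))) (.non (nat_lit 1) (nat_lit 5) (nat_lit 0xa8001) (nat_lit 0x1000200010000000000000000000000000002))) (.split (nat_lit 4) (nat_lit 3) (.split (nat_lit 8) (nat_lit 0) (.split (nat_lit 9) (nat_lit 8) t1537_110 (.non (nat_lit 1) (nat_lit 5) (nat_lit 0x94001) (nat_lit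 0x1000200010000000000000000000000000001))) (.non (nat_lit 1) (nat_lit 5) (nat_lit 0xa8001) (nat_lit 0x1000200010000000000000000000000000002))) (.split (nat_lit 9) (nat_lit 8) (.split (nat_lit 8) (nat_lit 0) (.sup (nat_lit 0x8000a000700040001) (nat_lit 0x200040007000a000800000000000000000000)) (.non (nat_lit 1) (nat_lit 5) (nat_lit 0xa8001) (nat_lit 0x1000200010000000000000000000000000002))) (.non (nat_lit 1) (nat_lit 5) (nat_lit 0x94001) (nat_lit 0x1000200010000000000000000000000000001))))) (.split (nat_lit 0xa) (nat_lit 0) (.split (nat_lit 0xa) (nat_lit 1) (.split (nat_lit 0xa) (nat_lit 2) (.split (nat_lit 0xa) (nat_lit 3) (.split (nat_lit 0xa) (nat_lit 7) (.split (nat_lit 0xa) (nat_lit 8) (.split (nat_lit 0xa) (nat_lit 9) (.split (nat_lit 0xa) (nat_lit 4) (.split (nat_lit 0xa) (nat_lit 5) (.unj (nat_lit 0x105400) (nat_lit 0x10000000000010002000200000000000000000000) (nat_lit 0x155) (nat_lit 0x10002000300040003)) (.unj (nat_lit 0x101400) (nat_lit 0x10000000000000001000100000000000000000000) (nat_lit 0x10015)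 (nat_lit 0x100000000000000000000000100020002))) (.split (nat_lit 0xa) (nat_lit 5) (.sup (nat_lit 0x100000000000000000000000300050005) (nat_lit 0x30000000000010005000400000000000000000000)) (.unj (nat_lit 0x101400) (nat_lit 0x10000000000000001000100000000000000000000) (nat_lit 0x10015) (nat_lit 0x100000000000000000000000100020002)))) (.non (nat_lit 0) (nat_lit 5) (nat_lit 0x155000) (nat_lit 0x10001000100010001000000000000000000000000))) (.non (nat_lit 0) (nat_lit 5) (nat_lit 0x115000) (nat_lit 0x10000000100010001000000000000000000000000))) (.non (nat_lit 0) (nat_lit 5) (nat_lit 0x105000) (nat_lit 0x10000000000010001000000000000000000000000))) (.non (nat_lit 0) (nat_lit 5) (nat_lit 0x155154) (nat_lit 0x50001000200030004000000030006000400020000))) (.non (nat_lit 0) (nat_lit 5) (nat_lit 0x155154) (nat_lit 0x50001000200030004000000020004000600030000))) (.star (nat_lit 0xa) (nat_lit 1) (nat_lit 6))) (.star (nat_lit 0xa) (nat_lit 0) (nat_lit 6)))) (.split (nat_lit 0xa) (nat_lit 0) (.split (nat_lit 0xa) (nat_lit 1)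 (.split (nat_lit 0xa) (nat_lit 7) t1537_121 (.non (nat_lit 1) (nat_lit 5) (nat_lit 0x155001) (nat_lit 0x10001000200020001000000000000000000000001))) (.star (nat_lit 0xa) (nat_lit 1) (nat_lit 5))) (.star (nat_lit 0xa) (nat_lit 0) (nat_lit 5))))

noncomputable def t1537_123 : Tr := (.split (nat_lit 0xd) (nat_lit 1) (.split (nat_lit 0xd) (nat_lit 2) (.split (nat_lit 0xd) (nat_lit 3) (.split (nat_lit 0xd) (nat_lit 4) (.split (nat_lit 0xd) (nat_lit 5) (.split (nat_lit 0xd) (nat_lit 6) (.split (nat_lit 0xd) (nat_lit 7) (.split (nat_lit 0xd) (nat_lit 8) (.split (nat_lit 0xd) (nat_lit 9) (.split (nat_lit 0xd) (nat_lit 0xa) (.split (nat_lit 0xd) (nat_lit 0xb) (.st (nat_lit 0xc) (nat_lit 1) (nat_lit 5) (nat_lit 0x5454001) (nat_lit 0x10002000200000002000200010000000000000000000000000001) (nat_lit 1) (nat_lit 1) (.st (nat_lit 0xd) (nat_lit 1) (nat_lit 5) (nat_lit 0x5455001) (nat_lit 0x20003000400000005000600040002000000000000000000000003) (nat_lit 1) (nat_lit 1) (.split (nat_lit 0xd) (nat_lit 0xc) (.leaf (.cons (nat_lit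 0x15401) (nat_lit 0x200030004000300000000000000000001) (.cons (nat_lit 0x450005) (nat_lit 0x100000002000300000000000000000000000000030004) (.cons (nat_lit 0x100055) (nat_lit 0x10000000000000000000000000002000300040003) .nil))) (.cons (nat_lit 0x11101111000001) (nat_lit 0x100010) (nat_lit 0xe) (nat_lit 0x76504023000001) (.cons (nat_lit 0x11101100000001) (nat_lit 0x10000010) (nat_lit 4) (nat_lit 0x54302100000000) .nil))) (.non (nat_lit 1) (nat_lit 5) (nat_lit 0x9454001) (nat_lit 0x10002000200000002000200010000000000000000000000000001))))) (.non (nat_lit 0) (nat_lit 5) (nat_lit 0x5400000) (nat_lit 0x10001000100000000000000000000000000000000000000000000))) (.non (nat_lit 0) (nat_lit 5) (nat_lit 0x5540154) (nat_lit 0x40003000200050001000000000000000000030006000400020000))) (.non (nat_lit 0) (nat_lit 5) (nat_lit 0x5440000) (nat_lit 0x10001000100000001000000000000000000000000000000000000))) (.non (nat_lit 0) (nat_lit 5) (nat_lit 0x5450000) (nat_lit 0x10001000100000001000100000000000000000000000000000000))) (.non (nat_lit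 0) (nat_lit 5) (nat_lit 0x5454000) (nat_lit 0x10001000100000001000100010000000000000000000000000000))) (.non (nat_lit 0) (nat_lit 5) (nat_lit 0x5455000) (nat_lit 0x10001000100000001000100010001000000000000000000000000))) (.non (nat_lit 0) (nat_lit 7) (nat_lit 0x5401400) (nat_lit 0x30002000100000000000000000003000400000000000000000000))) (.non (nat_lit 0) (nat_lit 5) (nat_lit 0x5540154) (nat_lit 0x40003000200030001000000000000000000050006000400020000))) (.non (nat_lit 0) (nat_lit 5) (nat_lit 0x4100150) (nat_lit 0x10000000000010000000000000000000000010002000100000000))) (.non (nat_lit 0) (nat_lit 5) (nat_lit 0x5550054) (nat_lit 0x50004000300020002000100000000000000000004000600030000))) (.non (nat_lit 2) (nat_lit 8) (nat_lit 0x5400005) (nat_lit 0x30002000100000000000000000000000000000000000000040003)))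

noncomputable def t1537_124 : Tr := (.split (nat_lit 0xc) (nat_lit 0) (.split (nat_lit 0xc) (nat_lit 1) (.split (nat_lit 0xc) (nat_lit 2) (.split (nat_lit 0xc) (nat_lit 3) (.split (nat_lit 0xc) (nat_lit 4) (.split (nat_lit 0xc) (nat_lit 5) (.split (nat_lit 0xc) (nat_lit 6) (.split (nat_lit 0xc) (nat_lit 7) (.split (nat_lit 0xc) (nat_lit 8) (.split (nat_lit 0xc) (nat_lit 9) (.split (nat_lit 0xc) (nat_lit 0xa) (.st (nat_lit 0xb) (nat_lit 1) (nat_lit 5) (nat_lit 0x1454001) (nat_lit 0x1000200000002000200010000000000000000000000000001) (nat_lit 1) (nat_lit 1) (.split (nat_lit 0xc) (nat_lit 0xb) (.ex (nat_lit 0xc) (.leaf (.cons (nat_lit 0x15401) (nat_lit 0x200030004000300000000000000000001) (.cons (nat_lit 0x450005) (nat_lit 0x100000002000300000000000000000000000000030004) (.cons (nat_lit 0x100055) (nat_lit 0x10000000000000000000000000002000300040003) .nil))) (.cons (nat_lit 0x1101111000001) (nat_lit 0x100010) (nat_lit 0xd) (nat_lit 0x6504023000001) (.cons (nat_lit 0x1101110000001) (nat_lit 0x1000010) (nat_lit 9)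 (nat_lit 0x5403020000001) .nil))) (.split (nat_lit 0xd) (nat_lit 0) t1537_123 (.non (nat_lit 1) (nat_lit 5) (nat_lit 0x5450001) (nat_lit 0x10001000100000001000100000000000000000000000000000001)))) (.non (nat_lit 1) (nat_lit 5) (nat_lit 0x2454001) (nat_lit 0x1000200000002000200010000000000000000000000000001)))) (.non (nat_lit 0) (nat_lit 5) (nat_lit 0x1550154) (nat_lit 0x4000300050002000100000000000000030006000400020000))) (.non (nat_lit 0) (nat_lit 5) (nat_lit 0x1440000) (nat_lit 0x1000100000001000000000000000000000000000000000000))) (.non (nat_lit 0) (nat_lit 5) (nat_lit 0x1450000) (nat_lit 0x1000100000001000100000000000000000000000000000000))) (.non (nat_lit 0) (nat_lit 5) (nat_lit 0x1454000) (nat_lit 0x1000100000001000100010000000000000000000000000000))) (.non (nat_lit 0) (nat_lit 5) (nat_lit 0x1455000) (nat_lit 0x1000100000001000100010001000000000000000000000000))) (.non (nat_lit 0) (nat_lit 7) (nat_lit 0x1441400) (nat_lit 0x3000200000001000000000003000400000000000000000000))) (.non (nat_lit 0) (nat_lit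 5) (nat_lit 0x1550154) (nat_lit 0x4000300030002000100000000000000050006000400020000))) (.non (nat_lit 0) (nat_lit 5) (nat_lit 0x1100150) (nat_lit 0x1000000010000000000000000000000010002000100000000))) (.non (nat_lit 0) (nat_lit 5) (nat_lit 0x1554054) (nat_lit 0x5000400020003000200010000000000000004000600030000))) (.non (nat_lit 2) (nat_lit 8) (nat_lit 0x1440005) (nat_lit 0x3000200000001000000000000000000000000000000040003))) (.non (nat_lit 1) (nat_lit 5) (nat_lit 0x1450001) (nat_lit 0x1000100000001000100000000000000000000000000000001)))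

noncomputable def t1537_125 : Tr := (.ex (nat_lit 9) (.pd (.cons (nat_lit 2) (nat_lit 7) (nat_lit 0) (nat_lit 0x38005533000) (nat_lit 0xf423ff423fb71ae00000f423f54591f423f7a11d00000f423f02f7a) .nil) (.leaf (.cons (nat_lit 0x15401) (nat_lit 0x200030004000300000000000000000001) (.cons (nat_lit 0x54005) (nat_lit 0x1000200010000000000000000000000020002) (.cons (nat_lit 0x10015) (nat_lit 0x100000000000000000000000100020002) (.cons (nat_lit 0x100055) (nat_lit 0x10000000000000000000000000002000300040003) .nil)))) (.cons (nat_lit 0x1111000001) (nat_lit 0x100010) (nat_lit 8) (nat_lit 0x2034000001) (.cons (nat_lit 0x1110000001) (nat_lit 0x1000010) (nat_lit 7) (nat_lit 0x3020000001) .nil)))) (.split (nat_lit 0xb) (nat_lit 0) (.split (nat_lit 0xb) (nat_lit 1) (.split (nat_lit 0xb) (nat_lit 2) (.split (nat_lit 0xb) (nat_lit 3) (.split (nat_lit 0xb) (nat_lit 4) (.split (nat_lit 0xb) (nat_lit 5) (.split (nat_lit 0xb) (nat_lit 6) (.split (nat_lit 0xb) (nat_lit 7) (.split (nat_lit 0xb) (nat_lit 8) (.split (nat_lit 0xb) (nat_lit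 0xa) (.st (nat_lit 9) (nat_lit 1) (nat_lit 5) (nat_lit 0x454001) (nat_lit 0x100000002000200010000000000000000000000000001) (nat_lit 1) (nat_lit 1) (.split (nat_lit 0xb) (nat_lit 9) (.ex (nat_lit 0xb) (.leaf (.cons (nat_lit 0x15401) (nat_lit 0x200030004000300000000000000000001) (.cons (nat_lit 0x450005) (nat_lit 0x100000002000300000000000000000000000000030004) (.cons (nat_lit 0x100055) (nat_lit 0x10000000000000000000000000002000300040003) .nil))) (.cons (nat_lit 0x101111000001) (nat_lit 0x100010) (nat_lit 0xc) (nat_lit 0x504023000001) .nil)) t1537_124) (.non (nat_lit 1) (nat_lit 5) (nat_lit 0x854001) (nat_lit 0x100000002000200010000000000000000000000000001)))) (.non (nat_lit 0) (nat_lit 5) (nat_lit 0x554154) (nat_lit 0x400050003000200010000000000030006000400020000))) (.non (nat_lit 0) (nat_lit 5) (nat_lit 0x450000) (nat_lit 0x100000001000100000000000000000000000000000000))) (.non (nat_lit 0) (nat_lit 5) (nat_lit 0x454000) (nat_lit 0x100000001000100010000000000000000000000000000))) (.non (nat_lit 0) (nat_lit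 5) (nat_lit 0x455000) (nat_lit 0x100000001000100010001000000000000000000000000))) (.non (nat_lit 0) (nat_lit 7) (nat_lit 0x451400) (nat_lit 0x300000002000100000003000400000000000000000000))) (.non (nat_lit 0) (nat_lit 5) (nat_lit 0x554154) (nat_lit 0x400030003000200010000000000050006000400020000))) (.non (nat_lit 0) (nat_lit 5) (nat_lit 0x500150) (nat_lit 0x100010000000000000000000000010002000100000000))) (.non (nat_lit 0) (nat_lit 5) (nat_lit 0x555054) (nat_lit 0x500020004000300020001000000000004000600030000))) (.non (nat_lit 3) (nat_lit 8) (nat_lit 0x400015) (nat_lit 0x100000000000000000000000000000000000100020002))) (.non (nat_lit 1) (nat_lit 5) (nat_lit 0x450001) (nat_lit 0x100000001000100000000000000000000000000000001))))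

noncomputable def t1537_126 : Tr := (.ex (nat_lit 6) (.split (nat_lit 4) (nat_lit 3) (.split (nat_lit 0xa) (nat_lit 3) (.split (nat_lit 8) (nat_lit 0) (.split (nat_lit 9) (nat_lit 8) (.pd (.cons (nat_lit 0) (nat_lit 7) (nat_lit 0) (nat_lit 0x38805532110) (nat_lit 0xf423ff423fb71ae00000f423f54591f423f7a11d7a11b7a11900000) (.cons (nat_lit 0) (nat_lit 8) (nat_lit 0) (nat_lit 0x39065532110) (nat_lit 0xf423ff423f00000f423fb71ae1f156f423f7a11d7a11b7a11900000) (.cons (nat_lit 0) (nat_lit 9) (nat_lit 0) (nat_lit 0x30765532110) (nat_lit 0xf423f00000f423fb71aea2c2804737f423f7a11d7a11b7a11900000) (.cons (nat_lit 1) (nat_lit 7) (nat_lit 0) (nat_lit 0x38005532200) (nat_lit 0xf423ff423fb71ae00000f423f54591f423f7a11d7a11b00000a2c28) (.cons (nat_lit 1) (nat_lit 8) (nat_lit 0) (nat_lit 0x39065532200) (nat_lit 0xf423ff423f00000f423fb71ae1f156f423f7a11d7a11b00000f423f) (.cons (nat_lit 2) (nat_lit 8) (nat_lit 0) (nat_lit 0x39065533000) (nat_lit 0xf423ff423f00000f423fb71ae1f156f423f7a11d00000f423f54591) (.cons (nat_lit 3) (nat_lit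 8) (nat_lit 0) (nat_lit 0xa9065540100) (nat_lit 0xf423ff423f00000f423fb71ae1f156f423f00000f423fb71ae1f156) .nil))))))) t1537_125) (.non (nat_lit 1) (nat_lit 5) (nat_lit 0x94001) (nat_lit 0x1000200010000000000000000000000000001))) (.non (nat_lit 1) (nat_lit 5) (nat_lit 0xa8001) (nat_lit 0x1000200010000000000000000000000000002))) (.non (nat_lit 0) (nat_lit 5) (nat_lit 0x200150) (nat_lit 0x10000000000000000000000010002000100000000))) (.non (nat_lit 0) (nat_lit 5) (nat_lit 0x100250) (nat_lit 0x10000000000000000000000010002000100000000))) (.split (nat_lit 0xb) (nat_lit 0) (.split (nat_lit 0xb) (nat_lit 1) (.split (nat_lit 0xb) (nat_lit 2) (.split (nat_lit 0xb) (nat_lit 3) (.split (nat_lit 0xb) (nat_lit 4) (.split (nat_lit 0xb) (nat_lit 7) (.split (nat_lit 0xb) (nat_lit 8) (.split (nat_lit 0xb) (nat_lit 9) (.split (nat_lit 0xb) (nat_lit 0xa) (.split (nat_lit 0xb) (nat_lit 5) (.unj (nat_lit 0x405400) (nat_lit 0x100000000000000010002000200000000000000000000) (nat_lit 0x155) (nat_lit 0x10002000300040003)) (.unj (nat_lit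 0x401400) (nat_lit 0x100000000000000000001000100000000000000000000) (nat_lit 0x10015) (nat_lit 0x100000000000000000000000100020002))) (.non (nat_lit 0) (nat_lit 5) (nat_lit 0x515154) (nat_lit 0x400050000000100020003000000030006000400020000))) (.non (nat_lit 0) (nat_lit 5) (nat_lit 0x455000) (nat_lit 0x100000001000100010001000000000000000000000000))) (.non (nat_lit 0) (nat_lit 5) (nat_lit 0x415000) (nat_lit 0x100000000000100010001000000000000000000000000))) (.non (nat_lit 0) (nat_lit 5) (nat_lit 0x405000) (nat_lit 0x100000000000000010001000000000000000000000000))) (.non (nat_lit 0) (nat_lit 5) (nat_lit 0x515154) (nat_lit 0x400030000000100020003000000050006000400020000))) (.non (nat_lit 0) (nat_lit 5) (nat_lit 0x500150) (nat_lit 0x100010000000000000000000000010002000100000000))) (.non (nat_lit 0) (nat_lit 5) (nat_lit 0x555054) (nat_lit 0x500020001000200030004000000000004000600030000))) (.star (nat_lit 0xb) (nat_lit 1) (nat_lit 6))) (.star (nat_lit 0xb) (nat_lit 0) (nat_lit 6))))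

noncomputable def t1537_127 : Tr := (.st (nat_lit 3) (nat_lit 0) (nat_lit 5) (nat_lit 0x100150) (nat_lit 0x10000000000000000000000010002000100000000) (nat_lit 1) (nat_lit 1) (.ex (nat_lit 5) t1537_126 (.split (nat_lit 0xb) (nat_lit 0) (.split (nat_lit 0xb) (nat_lit 1) (.split (nat_lit 0xb) (nat_lit 2) (.split (nat_lit 0xb) (nat_lit 3) (.split (nat_lit 0xb) (nat_lit 7) (.split (nat_lit 0xb) (nat_lit 8) (.split (nat_lit 0xb) (nat_lit 4) (.split (nat_lit 0xb) (nat_lit 6) (.split (nat_lit 0xb) (nat_lit 9) (.split (nat_lit 0xb) (nat_lit 0xa) (.unj (nat_lit 0x405400) (nat_lit 0x100000000000000010002000200000000000000000000) (nat_lit 0x155) (nat_lit 0x10002000300040003)) (.unj (nat_lit 0x405400) (nat_lit 0x100000000000000010002000200000000000000000000) (nat_lit 0x155) (nat_lit 0x10002000300040003))) (.split (nat_lit 0xb) (nat_lit 0xa) (.unj (nat_lit 0x405400) (nat_lit 0x100000000000000010002000200000000000000000000) (nat_lit 0x155) (nat_lit 0x10002000300040003)) (.non (nat_lit 0) (nat_lit 5) (nat_lit 0x554154) (nat_lit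 0x400050003000200010000000000030006000400020000)))) (.split (nat_lit 0xb) (nat_lit 9) (.split (nat_lit 0xb) (nat_lit 0xa) (.unj (nat_lit 0x401400) (nat_lit 0x100000000000000000001000100000000000000000000) (nat_lit 0x10015) (nat_lit 0x100000000000000000000000100020002)) (.non (nat_lit 0) (nat_lit 5) (nat_lit 0x515154) (nat_lit 0x400050000000100020003000000030006000400020000))) (.non (nat_lit 0) (nat_lit 5) (nat_lit 0x455000) (nat_lit 0x100000001000100010001000000000000000000000000)))) (.split (nat_lit 0xb) (nat_lit 6) (.split (nat_lit 0xb) (nat_lit 9) (.split (nat_lit 0xb) (nat_lit 0xa) (.unj (nat_lit 0x405400) (nat_lit 0x100000000000000010002000200000000000000000000) (nat_lit 0x100055) (nat_lit 0x10000000000000000000000000002000300040003)) (.non (nat_lit 0) (nat_lit 5) (nat_lit 0x500140) (nat_lit 0x100010000000000000000000000010001000000000000))) (.non (nat_lit 0) (nat_lit 5) (nat_lit 0x554154) (nat_lit 0x400030003000200010000000000050006000400020000))) (.non (nat_lit 0) (nat_lit 5) (nat_lit 0x515154) (nat_lit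 0x400030000000100020003000000050006000400020000)))) (.non (nat_lit 1) (nat_lit 5) (nat_lit 0x454001) (nat_lit 0x100000001000200010000000000000000000000000001))) (.non (nat_lit 1) (nat_lit 5) (nat_lit 0x455001) (nat_lit 0x100000001000200020001000000000000000000000001))) (.non (nat_lit 0) (nat_lit 5) (nat_lit 0x500150) (nat_lit 0x100010000000000000000000000010002000100000000))) (.non (nat_lit 0) (nat_lit 5) (nat_lit 0x500154) (nat_lit 0x100010000000000000000000000010002000200010000))) (.star (nat_lit 0xb) (nat_lit 1) (nat_lit 5))) (.star (nat_lit 0xb) (nat_lit 0) (nat_lit 5)))))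

noncomputable def t1537_128 : Tr := (.ex (nat_lit 0xa) (.pd (.cons (nat_lit 3) (nat_lit 8) (nat_lit 0) (nat_lit 0x29065540100) (nat_lit 0xf423ff423f00000f423fb71ae1f156f423f00000b71aea2c2804737) .nil) (.leaf (.cons (nat_lit 0x15401) (nat_lit 0x200030004000300000000000000000001) (.cons (nat_lit 0x54005) (nat_lit 0x1000200010000000000000000000000020002) (.cons (nat_lit 0x10015) (nat_lit 0x100000000000000000000000100020002) (.cons (nat_lit 0x100055) (nat_lit 0x10000000000000000000000000001000200020002) .nil)))) (.cons (nat_lit 0x1111000001) (nat_lit 0x100010) (nat_lit 8) (nat_lit 0x2034000001) (.cons (nat_lit 0x1110000001) (nat_lit 0x1000010) (nat_lit 7) (nat_lit 0x3020000001) .nil)))) (.split (nat_lit 0xb) (nat_lit 0) (.split (nat_lit 0xb) (nat_lit 1) (.split (nat_lit 0xb) (nat_lit 2) (.split (nat_lit 0xb) (nat_lit 3) (.split (nat_lit 0xb) (nat_lit 4) (.split (nat_lit 0xb) (nat_lit 5) (.split (nat_lit 0xb) (nat_lit 6) (.split (nat_lit 0xb) (nat_lit 7) (.split (nat_lit 0xb) (nat_lit 8) (.split (nat_lit 0xb) (nat_lit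 9) (.leaf (.cons (nat_lit 0x15401) (nat_lit 0x200030004000300000000000000000001) (.cons (nat_lit 0x54005) (nat_lit 0x1000200010000000000000000000000020002) (.cons (nat_lit 0x500015) (nat_lit 0x100020000000000000000000000000000000300040003) .nil))) (.cons (nat_lit 0x1111000001) (nat_lit 0x100010) (nat_lit 8) (nat_lit 0x2034000001) (.cons (nat_lit 0x1110000001) (nat_lit 0x1000010) (nat_lit 7) (nat_lit 0x3020000001) .nil))) (.non (nat_lit 0) (nat_lit 5) (nat_lit 0x554154) (nat_lit 0x400050003000200010000000000020004000600030000))) (.non (nat_lit 0) (nat_lit 5) (nat_lit 0x555150) (nat_lit 0x500040003000600040002000000010002000300000000))) (.non (nat_lit 0) (nat_lit 5) (nat_lit 0x555150) (nat_lit 0x500040002000400060003000000010002000300000000))) (.non (nat_lit 0) (nat_lit 5) (nat_lit 0x515154) (nat_lit 0x400050000000100020003000000020004000600030000))) (.non (nat_lit 0) (nat_lit 7) (nat_lit 0x501410) (nat_lit 0x300020000000000000003000400000000000100000000))) (.non (nat_lit 0) (nat_lit 5) (nat_lit 0x500150) (nat_lit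 0x100010000000000000000000000010001000100000000))) (.non (nat_lit 0) (nat_lit 5) (nat_lit 0x500050) (nat_lit 0x100010000000000000000000000000001000100000000))) (.non (nat_lit 0) (nat_lit 5) (nat_lit 0x500010) (nat_lit 0x100010000000000000000000000000000000100000000))) (.non (nat_lit 0) (nat_lit 5) (nat_lit 0x500014) (nat_lit 0x100010000000000000000000000000000000100010000))) (.non (nat_lit 1) (nat_lit 5) (nat_lit 0x555051) (nat_lit 0x400030003000600040002000000000001000200000005))))

noncomputable def t1537_129 : Tr := (.split (nat_lit 0xd) (nat_lit 1) (.split (nat_lit 0xd) (nat_lit 2) (.split (nat_lit 0xd) (nat_lit 3) (.split (nat_lit 0xd) (nat_lit 4) (.split (nat_lit 0xd) (nat_lit 5) (.split (nat_lit 0xd) (nat_lit 6) (.split (nat_lit 0xd) (nat_lit 7) (.split (nat_lit 0xd) (nat_lit 8) (.split (nat_lit 0xd) (nat_lit 9) (.split (nat_lit 0xd) (nat_lit 0xa) (.split (nat_lit 0xd) (nat_lit 0xb) (.st (nat_lit 0xc) (nat_lit 1) (nat_lit 5) (nat_lit 0x5454001) (nat_lit 0x10002000200000002000200010000000000000000000000000001)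 (nat_lit 1) (nat_lit 1) (.st (nat_lit 0xd) (nat_lit 1) (nat_lit 5) (nat_lit 0x5455001) (nat_lit 0x20003000400000005000600040002000000000000000000000003) (nat_lit 1) (nat_lit 1) (.split (nat_lit 0xd) (nat_lit 0xc) (.leaf (.cons (nat_lit 0x15401) (nat_lit 0x200030004000300000000000000000001) (.cons (nat_lit 0x450005) (nat_lit 0x100000002000300000000000000000000000000030004) (.cons (nat_lit 0x100055) (nat_lit 0x10000000000000000000000000001000200020002) .nil))) (.cons (nat_lit 0x11101111000001) (nat_lit 0x100010) (nat_lit 0xe) (nat_lit 0x76504023000001) (.cons (nat_lit 0x11101100000001) (nat_lit 0x10000010) (nat_lit 4) (nat_lit 0x54302100000000) .nil))) (.non (nat_lit 1) (nat_lit 5) (nat_lit 0x9454001) (nat_lit 0x10002000200000002000200010000000000000000000000000001))))) (.non (nat_lit 0) (nat_lit 5) (nat_lit 0x5400000) (nat_lit 0x10001000100000000000000000000000000000000000000000000))) (.non (nat_lit 0) (nat_lit 5) (nat_lit 0x5540154) (nat_lit 0x40003000200050001000000000000000000020004000600030000))) (.non (nat_lit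 0) (nat_lit 5) (nat_lit 0x5440000) (nat_lit 0x10001000100000001000000000000000000000000000000000000))) (.non (nat_lit 0) (nat_lit 5) (nat_lit 0x5450000) (nat_lit 0x10001000100000001000100000000000000000000000000000000))) (.non (nat_lit 0) (nat_lit 5) (nat_lit 0x5454000) (nat_lit 0x10001000100000001000100010000000000000000000000000000))) (.non (nat_lit 0) (nat_lit 5) (nat_lit 0x5455000) (nat_lit 0x10001000100000001000100010001000000000000000000000000))) (.non (nat_lit 0) (nat_lit 7) (nat_lit 0x5401400) (nat_lit 0x30002000100000000000000000003000400000000000000000000))) (.non (nat_lit 1) (nat_lit 5) (nat_lit 0x5455101) (nat_lit 0x20003000400000005000600040002000000010000000000000003))) (.non (nat_lit 0) (nat_lit 5) (nat_lit 0x5550150) (nat_lit 0x50004000300020002000100000000000000030006000400000000))) (.non (nat_lit 0) (nat_lit 5) (nat_lit 0x5550150) (nat_lit 0x50004000300030002000100000000000000020004000600000000))) (.non (nat_lit 0) (nat_lit 5) (nat_lit 0x5540154) (nat_lit 0x40003000200030001000000000000000000020004000600050000)))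

noncomputable def t1537_130 : Tr := (.split (nat_lit 0xc) (nat_lit 0) (.split (nat_lit 0xc) (nat_lit 1) (.split (nat_lit 0xc) (nat_lit 2) (.split (nat_lit 0xc) (nat_lit 3) (.split (nat_lit 0xc) (nat_lit 4) (.split (nat_lit 0xc) (nat_lit 5) (.split (nat_lit 0xc) (nat_lit 6) (.split (nat_lit 0xc) (nat_lit 7) (.split (nat_lit 0xc) (nat_lit 8) (.split (nat_lit 0xc) (nat_lit 9) (.split (nat_lit 0xc) (nat_lit 0xa) (.st (nat_lit 0xb) (nat_lit 1) (nat_lit 5) (nat_lit 0x1454001) (nat_lit 0x1000200000002000200010000000000000000000000000001) (nat_lit 1) (nat_lit 1) (.split (nat_lit 0xc) (nat_lit 0xb) (.ex (nat_lit 0xc) (.leaf (.cons (nat_lit 0x15401) (nat_lit 0x200030004000300000000000000000001) (.cons (nat_lit 0x450005) (nat_lit 0x100000002000300000000000000000000000000030004) (.cons (nat_lit 0x100055) (nat_lit 0x10000000000000000000000000001000200020002) .nil))) (.cons (nat_lit 0x1101111000001) (nat_lit 0x100010) (nat_lit 0xd) (nat_lit 0x6504023000001) (.cons (nat_lit 0x1101110000001) (nat_lit 0x1000010) (nat_lit 9)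 (nat_lit 0x5403020000001) .nil))) (.split (nat_lit 0xd) (nat_lit 0) t1537_129 (.non (nat_lit 1) (nat_lit 5) (nat_lit 0x5450001) (nat_lit 0x10001000100000001000100000000000000000000000000000001)))) (.non (nat_lit 1) (nat_lit 5) (nat_lit 0x2454001) (nat_lit 0x1000200000002000200010000000000000000000000000001)))) (.non (nat_lit 0) (nat_lit 5) (nat_lit 0x1550154) (nat_lit 0x4000300050002000100000000000000020004000600030000))) (.non (nat_lit 0) (nat_lit 5) (nat_lit 0x1440000) (nat_lit 0x1000100000001000000000000000000000000000000000000))) (.non (nat_lit 0) (nat_lit 5) (nat_lit 0x1450000) (nat_lit 0x1000100000001000100000000000000000000000000000000))) (.non (nat_lit 0) (nat_lit 5) (nat_lit 0x1454000) (nat_lit 0x1000100000001000100010000000000000000000000000000))) (.non (nat_lit 0) (nat_lit 5) (nat_lit 0x1455000) (nat_lit 0x1000100000001000100010001000000000000000000000000))) (.non (nat_lit 0) (nat_lit 7) (nat_lit 0x1441400) (nat_lit 0x3000200000001000000000003000400000000000000000000))) (.non (nat_lit 1) (nat_lit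 5) (nat_lit 0x1455141) (nat_lit 0x3000400000005000600040002000000020001000000000003))) (.non (nat_lit 0) (nat_lit 5) (nat_lit 0x1554150) (nat_lit 0x5000400020003000200010000000000030006000400000000))) (.non (nat_lit 0) (nat_lit 5) (nat_lit 0x1554150) (nat_lit 0x5000400030003000200010000000000020004000600000000))) (.non (nat_lit 0) (nat_lit 5) (nat_lit 0x1550154) (nat_lit 0x4000300030002000100000000000000020004000600050000))) (.non (nat_lit 1) (nat_lit 5) (nat_lit 0x1450001) (nat_lit 0x1000100000001000100000000000000000000000000000001)))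

noncomputable def t1537_131 : Tr := (.st (nat_lit 9) (nat_lit 1) (nat_lit 5) (nat_lit 0x454001) (nat_lit 0x100000002000200010000000000000000000000000001) (nat_lit 1) (nat_lit 1) (.ex (nat_lit 0xa) (.pd (.cons (nat_lit 3) (nat_lit 8) (nat_lit 0x101000000000) (nat_lit 0x92b065540100) (nat_lit 0x1f423f0000100000f423fb71ae1f156f423f00000b71aea2c2804737) .nil) (.split (nat_lit 0xb) (nat_lit 9) (.ex (nat_lit 0xb) (.leaf (.cons (nat_lit 0x15401) (nat_lit 0x200030004000300000000000000000001) (.cons (nat_lit 0x450005) (nat_lit 0x100000002000300000000000000000000000000030004) (.cons (nat_lit 0x100055) (nat_lit 0x10000000000000000000000000001000200020002) .nil))) (.cons (nat_lit 0x101111000001) (nat_lit 0x100010) (nat_lit 0xc) (nat_lit 0x504023000001) .nil)) t1537_130) (.non (nat_lit 1) (nat_lit 5) (nat_lit 0x854001) (nat_lit 0x100000002000200010000000000000000000000000001)))) (.split (nat_lit 0xc) (nat_lit 0) (.split (nat_lit 0xc) (nat_lit 1) (.split (nat_lit 0xc) (nat_lit 2) (.split (nat_lit 0xc) (nat_lit 3) (.split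 (nat_lit 0xc) (nat_lit 4) (.split (nat_lit 0xc) (nat_lit 5) (.split (nat_lit 0xc) (nat_lit 6) (.split (nat_lit 0xc) (nat_lit 7) (.split (nat_lit 0xc) (nat_lit 8) (.split (nat_lit 0xc) (nat_lit 9) (.split (nat_lit 0xc) (nat_lit 0xb) (.sup (nat_lit 0x2000000040007000b0010000d00000000000000000000) (nat_lit 0x3000000070000000000000000000000030007000a00070002)) (.non (nat_lit 0) (nat_lit 5) (nat_lit 0x1550154) (nat_lit 0x4000300050002000100000000000000020004000600030000))) (.non (nat_lit 0) (nat_lit 5) (nat_lit 0x1555010) (nat_lit 0x3000200020004000300020001000000000000000100000000))) (.non (nat_lit 0) (nat_lit 5) (nat_lit 0x1555000) (nat_lit 0x2000100010002000300020001000000000000000000000000))) (.non (nat_lit 0) (nat_lit 5) (nat_lit 0x1555010) (nat_lit 0x3000100020002000300040002000000000000000100000000))) (.non (nat_lit 0) (nat_lit 5) (nat_lit 0x1115154) (nat_lit 0x4000000050000000100020003000000020004000600030000))) (.non (nat_lit 0) (nat_lit 7) (nat_lit 0x1101410) (nat_lit 0x3000000020000000000000003000400000000000100000000)))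 (.non (nat_lit 0) (nat_lit 5) (nat_lit 0x1100150) (nat_lit 0x1000000010000000000000000000000010001000100000000))) (.non (nat_lit 0) (nat_lit 5) (nat_lit 0x1100050) (nat_lit 0x1000000010000000000000000000000000001000100000000))) (.non (nat_lit 0) (nat_lit 5) (nat_lit 0x1100010) (nat_lit 0x1000000010000000000000000000000000000000100000000))) (.non (nat_lit 0) (nat_lit 5) (nat_lit 0x1100014) (nat_lit 0x1000000010000000000000000000000000000000100010000))) (.non (nat_lit 1) (nat_lit 5) (nat_lit 0x1455001) (nat_lit 0x1000100000002000300020001000000000000000000000002)))))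

noncomputable def t1537_132 : Tr := (.split (nat_lit 9) (nat_lit 8) (.pd (.cons (nat_lit 0) (nat_lit 7) (nat_lit 0) (nat_lit 0x28805532110) (nat_lit 0xf423ff423fb71ae00000f423f54591f423fb71ae65b9761a7900000) (.cons (nat_lit 0) (nat_lit 8) (nat_lit 0) (nat_lit 0x29065532110) (nat_lit 0xf423ff423f00000f423fb71ae1f156f423fb71ae65b9761a7900000) (.cons (nat_lit 0) (nat_lit 9) (nat_lit 0) (nat_lit 0x20765532110) (nat_lit 0xf423f00000f423fb71aea2c2804737f423fb71ae65b9761a7900000) (.cons (nat_lit 1) (nat_lit 7) (nat_lit 0) (nat_lit 0x28005532200) (nat_lit 0xf423ff423fb71ae00000f423f54591f423fb71ae65b9700000a2c28) (.cons (nat_lit 1) (nat_lit 8) (nat_lit 0) (nat_lit 0x29065532200) (nat_lit 0xf423ff423f00000f423fb71ae1f156f423fb71ae65b9700000f423f) (.cons (nat_lit 2) (nat_lit 8) (nat_lit 0) (nat_lit 0xa9065533000) (nat_lit 0xf423ff423f00000f423fb71ae1f156f423fb71ae00000f423f54591) .nil)))))) (.ex (nat_lit 9) (.pd (.cons (nat_lit 2) (nat_lit 7) (nat_lit 0) (nat_lit 0xa8005533000) (nat_lit 0xf423ff423fb71ae00000f423f54591f423fb71ae00000f423f02f7a)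 .nil) t1537_128) (.split (nat_lit 0xb) (nat_lit 0) (.split (nat_lit 0xb) (nat_lit 1) (.split (nat_lit 0xb) (nat_lit 2) (.split (nat_lit 0xb) (nat_lit 3) (.split (nat_lit 0xb) (nat_lit 4) (.split (nat_lit 0xb) (nat_lit 5) (.split (nat_lit 0xb) (nat_lit 6) (.split (nat_lit 0xb) (nat_lit 7) (.split (nat_lit 0xb) (nat_lit 8) (.split (nat_lit 0xb) (nat_lit 0xa) t1537_131 (.non (nat_lit 0) (nat_lit 5) (nat_lit 0x554154) (nat_lit 0x400050003000200010000000000020004000600030000))) (.non (nat_lit 0) (nat_lit 5) (nat_lit 0x450000) (nat_lit 0x100000001000100000000000000000000000000000000))) (.non (nat_lit 0) (nat_lit 5) (nat_lit 0x454000) (nat_lit 0x100000001000100010000000000000000000000000000))) (.non (nat_lit 0) (nat_lit 5) (nat_lit 0x455000) (nat_lit 0x100000001000100010001000000000000000000000000))) (.non (nat_lit 0) (nat_lit 7) (nat_lit 0x451400) (nat_lit 0x300000002000100000003000400000000000000000000))) (.non (nat_lit 1) (nat_lit 5) (nat_lit 0x455151) (nat_lit 0x400000005000600040002000000030002000100000003)))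 (.non (nat_lit 0) (nat_lit 5) (nat_lit 0x555150) (nat_lit 0x500020004000300020001000000030006000400000000))) (.non (nat_lit 0) (nat_lit 5) (nat_lit 0x555150) (nat_lit 0x500030004000300020001000000020004000600000000))) (.non (nat_lit 0) (nat_lit 5) (nat_lit 0x554154) (nat_lit 0x400030003000200010000000000020004000600050000))) (.non (nat_lit 1) (nat_lit 5) (nat_lit 0x450001) (nat_lit 0x100000001000100000000000000000000000000000001))))) (.non (nat_lit 1) (nat_lit 5) (nat_lit 0x94001) (nat_lit 0x1000200010000000000000000000000000001)))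

noncomputable def t1537_133 : Tr := (.ex (nat_lit 5) (.ex (nat_lit 6) (.split (nat_lit 0xa) (nat_lit 2) (.split (nat_lit 4) (nat_lit 3) (.split (nat_lit 8) (nat_lit 0) t1537_132 (.non (nat_lit 1) (nat_lit 5) (nat_lit 0xa8001) (nat_lit 0x1000200010000000000000000000000000002))) (.non (nat_lit 0) (nat_lit 5) (nat_lit 0x100254) (nat_lit 0x10000000000000000000000010002000200010000))) (.non (nat_lit 0) (nat_lit 5) (nat_lit 0x200054) (nat_lit 0x10000000000000000000000000001000200010000))) (.split (nat_lit 0xb) (nat_lit 0) (.split (nat_lit 0xb) (nat_lit 1) (.split (nat_lit 0xb) (nat_lit 2) (.split (nat_lit 0xb) (nat_lit 3) (.split (nat_lit 0xb) (nat_lit 7) (.split (nat_lit 0xb) (nat_lit 8) (.split (nat_lit 0xb) (nat_lit 9) (.split (nat_lit 0xb) (nat_lit 0xa) (.split (nat_lit 0xb) (nat_lit 4) (.split (nat_lit 0xb) (nat_lit 5) (.unj (nat_lit 0x405400) (nat_lit 0x100000000000000010002000200000000000000000000) (nat_lit 0x155) (nat_lit 0x10002000300040003)) (.unj (nat_lit 0x401400) (nat_lit 0x100000000000000000001000100000000000000000000)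 (nat_lit 0x10015) (nat_lit 0x100000000000000000000000100020002))) (.split (nat_lit 0xb) (nat_lit 5) (.unj (nat_lit 0x405400) (nat_lit 0x100000000000000010002000200000000000000000000) (nat_lit 0x100055) (nat_lit 0x10000000000000000000000000001000200020002)) (.unj (nat_lit 0x401400) (nat_lit 0x100000000000000000001000100000000000000000000) (nat_lit 0x10015) (nat_lit 0x100000000000000000000000100020002)))) (.non (nat_lit 0) (nat_lit 5) (nat_lit 0x515154) (nat_lit 0x400050000000100020003000000020004000600030000))) (.non (nat_lit 0) (nat_lit 5) (nat_lit 0x455000) (nat_lit 0x100000001000100010001000000000000000000000000))) (.non (nat_lit 0) (nat_lit 5) (nat_lit 0x415000) (nat_lit 0x100000000000100010001000000000000000000000000))) (.non (nat_lit 0) (nat_lit 5) (nat_lit 0x405000) (nat_lit 0x100000000000000010001000000000000000000000000))) (.non (nat_lit 0) (nat_lit 5) (nat_lit 0x555150) (nat_lit 0x500020001000200030004000000030006000400000000))) (.non (nat_lit 0) (nat_lit 5) (nat_lit 0x555150) (nat_lit 0x500030001000200030004000000020004000600000000)))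 (.star (nat_lit 0xb) (nat_lit 1) (nat_lit 6))) (.star (nat_lit 0xb) (nat_lit 0) (nat_lit 6)))) (.split (nat_lit 0xb) (nat_lit 0) (.split (nat_lit 0xb) (nat_lit 1) (.split (nat_lit 0xb) (nat_lit 2) (.split (nat_lit 0xb) (nat_lit 3) (.split (nat_lit 0xb) (nat_lit 7) (.split (nat_lit 0xb) (nat_lit 8) (.split (nat_lit 0xb) (nat_lit 4) (.split (nat_lit 0xb) (nat_lit 6) (.split (nat_lit 0xb) (nat_lit 9) (.split (nat_lit 0xb) (nat_lit 0xa) (.unj (nat_lit 0x405400) (nat_lit 0x100000000000000010002000200000000000000000000) (nat_lit 0x155) (nat_lit 0x10002000300040003)) (.unj (nat_lit 0x405400) (nat_lit 0x100000000000000010002000200000000000000000000) (nat_lit 0x155) (nat_lit 0x10002000300040003))) (.split (nat_lit 0xb) (nat_lit 0xa) (.unj (nat_lit 0x405400) (nat_lit 0x100000000000000010002000200000000000000000000) (nat_lit 0x155) (nat_lit 0x10002000300040003)) (.non (nat_lit 0) (nat_lit 5) (nat_lit 0x554154) (nat_lit 0x400050003000200010000000000020004000600030000)))) (.split (nat_lit 0xb) (nat_lit 9) (.split (nat_lit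 0xb) (nat_lit 0xa) (.unj (nat_lit 0x401400) (nat_lit 0x100000000000000000001000100000000000000000000) (nat_lit 0x10015) (nat_lit 0x100000000000000000000000100020002)) (.non (nat_lit 0) (nat_lit 5) (nat_lit 0x515154) (nat_lit 0x400050000000100020003000000020004000600030000))) (.non (nat_lit 0) (nat_lit 5) (nat_lit 0x455000) (nat_lit 0x100000001000100010001000000000000000000000000)))) (.split (nat_lit 0xb) (nat_lit 9) (.split (nat_lit 0xb) (nat_lit 0xa) (.split (nat_lit 0xb) (nat_lit 6) (.unj (nat_lit 0x405400) (nat_lit 0x100000000000000010002000200000000000000000000) (nat_lit 0x100055) (nat_lit 0x10000000000000000000000000001000200020002)) (.unj (nat_lit 0x401400) (nat_lit 0x100000000000000000001000100000000000000000000) (nat_lit 0x10015) (nat_lit 0x100000000000000000000000100020002))) (.non (nat_lit 0) (nat_lit 5) (nat_lit 0x500150) (nat_lit 0x100010000000000000000000000010001000100000000))) (.non (nat_lit 0) (nat_lit 6) (nat_lit 0x454550) (nat_lit 0x400000003000200010000000200030002000100000000)))) (.non (nat_lit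 1) (nat_lit 5) (nat_lit 0x454001) (nat_lit 0x100000001000200010000000000000000000000000001))) (.non (nat_lit 1) (nat_lit 5) (nat_lit 0x455001) (nat_lit 0x100000001000200020001000000000000000000000001))) (.non (nat_lit 0) (nat_lit 5) (nat_lit 0x500154) (nat_lit 0x100010000000000000000000000010002000200010000))) (.non (nat_lit 0) (nat_lit 5) (nat_lit 0x500054) (nat_lit 0x100010000000000000000000000000001000200010000))) (.star (nat_lit 0xb) (nat_lit 1) (nat_lit 5))) (.star (nat_lit 0xb) (nat_lit 0) (nat_lit 5))))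

noncomputable def t1537_134 : Tr := (.split (nat_lit 0xc) (nat_lit 0) (.split (nat_lit 0xc) (nat_lit 1) (.split (nat_lit 0xc) (nat_lit 2) (.split (nat_lit 0xc) (nat_lit 3) (.split (nat_lit 0xc) (nat_lit 4) (.split (nat_lit 0xc) (nat_lit 5) (.split (nat_lit 0xc) (nat_lit 6) (.split (nat_lit 0xc) (nat_lit 7) (.split (nat_lit 0xc) (nat_lit 8) (.split (nat_lit 0xc) (nat_lit 9) (.split (nat_lit 0xc) (nat_lit 0xa) (.st (nat_lit 0xb) (nat_lit 0) (nat_lit 5) (nat_lit 0x1500154) (nat_lit 0x1000200010000000000000000000000020002000200010000) (nat_lit 1) (nat_lit 1) (.st (nat_lit 0xc) (nat_lit 0) (nat_lit 6) (nat_lit 0x1500554) (nat_lit 0x2000300040000000000000000000200040005000600030000) (nat_lit 1) (nat_lit 1) (.split (nat_lit 0xc) (nat_lit 0xb) (.leaf (.cons (nat_lit 0x101450) (nat_lit 0x30000000000000003000400000001000200000000) (.cons (nat_lit 0x54005) (nat_lit 0x1000200010000000000000000000000020002) (.cons (nat_lit 0x105400) (nat_lit 0x10000000000010002000200000000000000000000) (.cons (nat_lit 0x101414) (nat_lit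 0x30000000000000003000400000000000200010000) .nil)))) (.cons (nat_lit 0x1110000111110) (nat_lit 0x1000001) (nat_lit 0xe) (nat_lit 0x7620000354010) (.cons (nat_lit 0x1111000001) (nat_lit 0x100010) (nat_lit 8) (nat_lit 0x2034000001) .nil))) (.non (nat_lit 0) (nat_lit 5) (nat_lit 0x2500154) (nat_lit 0x1000200010000000000000000000000020002000200010000))))) (.non (nat_lit 0) (nat_lit 5) (nat_lit 0x1500150) (nat_lit 0x1000100010000000000000000000000010001000100000000))) (.non (nat_lit 0) (nat_lit 6) (nat_lit 0x1540554) (nat_lit 0x2000300040001000000000000000200040005000600030000))) (.non (nat_lit 0) (nat_lit 5) (nat_lit 0x1455150) (nat_lit 0x5000400000003000600040002000000030002000100000000))) (.non (nat_lit 0) (nat_lit 5) (nat_lit 0x1455150) (nat_lit 0x5000400000002000400060003000000030002000100000000))) (.non (nat_lit 2) (nat_lit 7) (nat_lit 0x1101400) (nat_lit 0x1000000010000000000000002000200000000000000000000))) (.non (nat_lit 0) (nat_lit 6) (nat_lit 0x1500550) (nat_lit 0x1000100010000000000000000000100010001000100000000)))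 (.non (nat_lit 0) (nat_lit 5) (nat_lit 0x1400100) (nat_lit 0x1000100000000000000000000000000010000000000000000))) (.non (nat_lit 0) (nat_lit 5) (nat_lit 0x1400140) (nat_lit 0x1000100000000000000000000000000010001000000000000))) (.non (nat_lit 0) (nat_lit 5) (nat_lit 0x1400150) (nat_lit 0x1000100000000000000000000000000010001000100000000))) (.non (nat_lit 0) (nat_lit 5) (nat_lit 0x1400154) (nat_lit 0x1000100000000000000000000000000010001000100010000))) (.non (nat_lit 1) (nat_lit 5) (nat_lit 0x1455141) (nat_lit 0x4000300000003000600040002000000020001000000000005)))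

noncomputable def t1537_135 : Tr := (.ex (nat_lit 4) (.leaf (.cons (nat_lit 0x101450) (nat_lit 0x30000000000000003000400000001000200000000) (.cons (nat_lit 0x54005) (nat_lit 0x1000200010000000000000000000000020002) (.cons (nat_lit 0x105400) (nat_lit 0x10000000000010002000200000000000000000000) (.cons (nat_lit 0x101414) (nat_lit 0x30000000000000003000400000000000200010000) .nil)))) (.cons (nat_lit 0x10000111110) (nat_lit 0x1000001) (nat_lit 0xc) (nat_lit 0x40000532010) .nil)) (.split (nat_lit 0xb) (nat_lit 0) (.split (nat_lit 0xb) (nat_lit 1) (.split (nat_lit 0xb) (nat_lit 2) (.split (nat_lit 0xb) (nat_lit 3) (.split (nat_lit 0xb) (nat_lit 5) (.split (nat_lit 0xb) (nat_lit 6) (.split (nat_lit 0xb) (nat_lit 7) (.split (nat_lit 0xb) (nat_lit 8) (.split (nat_lit 0xb) (nat_lit 9) (.split (nat_lit 0xb) (nat_lit 0xa) (.st (nat_lit 4) (nat_lit 0) (nat_lit 5) (nat_lit 0x500154) (nat_lit 0x100010000000000000000000000020002000200010000) (nat_lit 1) (nat_lit 1) (.split (nat_lit 0xb) (nat_lit 4) (.ex (nat_lit 0xb) (.leaf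 (.cons (nat_lit 0x101450) (nat_lit 0x30000000000000003000400000001000200000000) (.cons (nat_lit 0x54005) (nat_lit 0x1000200010000000000000000000000020002) (.cons (nat_lit 0x105400) (nat_lit 0x10000000000010002000200000000000000000000) (.cons (nat_lit 0x101414) (nat_lit 0x30000000000000003000400000000000200010000) .nil)))) (.cons (nat_lit 0x110000111110) (nat_lit 0x1000001) (nat_lit 0xd) (nat_lit 0x620000354010) (.cons (nat_lit 0x1111000001) (nat_lit 0x100010) (nat_lit 8) (nat_lit 0x2034000001) .nil))) t1537_134) (.non (nat_lit 0) (nat_lit 5) (nat_lit 0x900154) (nat_lit 0x100010000000000000000000000020002000200010000)))) (.non (nat_lit 0) (nat_lit 5) (nat_lit 0x500150) (nat_lit 0x100010000000000000000000000010001000100000000))) (.non (nat_lit 0) (nat_lit 6) (nat_lit 0x550554) (nat_lit 0x300040002000100000000000200040005000600030000))) (.non (nat_lit 0) (nat_lit 5) (nat_lit 0x555150) (nat_lit 0x500010003000600040002000000040003000200000000))) (.non (nat_lit 0) (nat_lit 5) (nat_lit 0x555150) (nat_lit 0x500010002000400060003000000040003000200000000)))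 (.non (nat_lit 2) (nat_lit 7) (nat_lit 0x501400) (nat_lit 0x100010000000000000002000200000000000000000000))) (.non (nat_lit 0) (nat_lit 6) (nat_lit 0x500550) (nat_lit 0x100010000000000000000000100010001000100000000))) (.non (nat_lit 0) (nat_lit 5) (nat_lit 0x400140) (nat_lit 0x100000000000000000000000000010001000000000000))) (.non (nat_lit 0) (nat_lit 5) (nat_lit 0x400150) (nat_lit 0x100000000000000000000000000010001000100000000))) (.non (nat_lit 0) (nat_lit 5) (nat_lit 0x400154) (nat_lit 0x100000000000000000000000000010001000100010000))) (.non (nat_lit 1) (nat_lit 5) (nat_lit 0x455151) (nat_lit 0x400000003000600040002000000030002000100000005))))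

noncomputable def t1537_136 : Tr := (.split (nat_lit 0xe) (nat_lit 3) (.split (nat_lit 0xe) (nat_lit 4) (.split (nat_lit 0xe) (nat_lit 5) (.split (nat_lit 0xe) (nat_lit 6) (.split (nat_lit 0xe) (nat_lit 7) (.split (nat_lit 0xe) (nat_lit 8) (.split (nat_lit 0xe) (nat_lit 9) (.split (nat_lit 0xe) (nat_lit 0xa) (.split (nat_lit 0xe) (nat_lit 0xb) (.split (nat_lit 0xe) (nat_lit 0xc) (.st (nat_lit 0xd) (nat_lit 0) (nat_lit 5) (nat_lit 0x14100154) (nat_lit 0x100020000000000010000000000000000000000020002000200010000) (nat_lit 1) (nat_lit 1) (.st (nat_lit 0xe) (nat_lit 0) (nat_lit 6) (nat_lit 0x14100554) (nat_lit 0x200030000000000040000000000000000000200040005000600030000) (nat_lit 1) (nat_lit 1) (.split (nat_lit 0xe) (nat_lit 0xd) (.leaf (.cons (nat_lit 0x101450) (nat_lit 0x30000000000000003000400000001000200000000) (.cons (nat_lit 0x450005) (nat_lit 0x100000002000300000000000000000000000000030004) (.cons (nat_lit 0x105400) (nat_lit 0x10000000000010002000200000000000000000000) .nil))) (.cons (nat_lit 0x110010000111110)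 (nat_lit 0x1000001) (nat_lit 0xe) (nat_lit 0x760020000354010) (.cons (nat_lit 0x1101111000001) (nat_lit 0x100010) (nat_lit 0xd) (nat_lit 0x6504023000001) .nil))) (.non (nat_lit 0) (nat_lit 5) (nat_lit 0x24100154) (nat_lit 0x100020000000000010000000000000000000000020002000200010000))))) (.non (nat_lit 0) (nat_lit 6) (nat_lit 0x15100554) (nat_lit 0x200030001000000040000000000000000000200040005000600030000))) (.non (nat_lit 0) (nat_lit 5) (nat_lit 0x15454100) (nat_lit 0x300020002000400000003000200010000000000010000000000000000))) (.non (nat_lit 0) (nat_lit 5) (nat_lit 0x14100150) (nat_lit 0x100010000000000010000000000000000000000010001000100000000))) (.non (nat_lit 0) (nat_lit 5) (nat_lit 0x15454000) (nat_lit 0x200010001000200000003000200010000000000000000000000000000))) (.non (nat_lit 0) (nat_lit 5) (nat_lit 0x14455000) (nat_lit 0x200010000000100000002000300020001000000000000000000000000))) (.non (nat_lit 0) (nat_lit 5) (nat_lit 0x14455100) (nat_lit 0x300020000000100000002000300040002000000010000000000000000)))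 (.non (nat_lit 1) (nat_lit 5) (nat_lit 0x11455001) (nat_lit 0x100000001000200000003000400030002000000000000000000000002))) (.non (nat_lit 0) (nat_lit 6) (nat_lit 0x14100550) (nat_lit 0x100010000000000010000000000000000000100010001000100000000))) (.non (nat_lit 0) (nat_lit 5) (nat_lit 0x14000100) (nat_lit 0x100010000000000000000000000000000000000010000000000000000))) (.non (nat_lit 0) (nat_lit 5) (nat_lit 0x14000140) (nat_lit 0x100010000000000000000000000000000000000010001000000000000)))

noncomputable def t1537_137 : Tr := (.split (nat_lit 0xf) (nat_lit 4) (.split (nat_lit 0xf) (nat_lit 5) (.split (nat_lit 0xf) (nat_lit 6) (.split (nat_lit 0xf) (nat_lit 7) (.split (nat_lit 0xf) (nat_lit 8) (.split (nat_lit 0xf) (nat_lit 9) (.split (nat_lit 0xf) (nat_lit 0xa) (.split (nat_lit 0xf) (nat_lit 0xb) (.split (nat_lit 0xf) (nat_lit 0xc) (.split (nat_lit 0xf) (nat_lit 0xe) (.st (nat_lit 0xd) (nat_lit 0) (nat_lit 5) (nat_lit 0x44100154) (nat_lit 0x1000000020000000000010000000000000000000000020002000200010000) (nat_lit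 1) (nat_lit 1) (.st (nat_lit 0xf) (nat_lit 0) (nat_lit 6) (nat_lit 0x44100554) (nat_lit 0x2000000030000000000040000000000000000000200040005000600030000) (nat_lit 1) (nat_lit 1) (.split (nat_lit 0xf) (nat_lit 0xd) (.leaf (.cons (nat_lit 0x101450) (nat_lit 0x30000000000000003000400000001000200000000) (.cons (nat_lit 0x450005) (nat_lit 0x100000002000300000000000000000000000000030004) (.cons (nat_lit 0x105400) (nat_lit 0x10000000000010002000200000000000000000000) .nil))) (.cons (nat_lit 0x1010010000111110) (nat_lit 0x1000001) (nat_lit 0xe) (nat_lit 0x7060020000354010) (.cons (nat_lit 0x101101111000001) (nat_lit 0x100010) (nat_lit 0xe) (nat_lit 0x706504023000001) .nil))) (.non (nat_lit 0) (nat_lit 5) (nat_lit 0x84100154) (nat_lit 0x1000000020000000000010000000000000000000000020002000200010000))))) (.non (nat_lit 0) (nat_lit 6) (nat_lit 0x54100554) (nat_lit 0x2000100030000000000040000000000000000000200040005000600030000))) (.non (nat_lit 0) (nat_lit 5) (nat_lit 0x55455000) (nat_lit 0x4000300020006000500000004000300020001000000000000000000000000)))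 (.non (nat_lit 0) (nat_lit 5) (nat_lit 0x55450000) (nat_lit 0x2000100010002000300000002000100000000000000000000000000000000))) (.non (nat_lit 0) (nat_lit 5) (nat_lit 0x44100150) (nat_lit 0x1000000010000000000010000000000000000000000010001000100000000))) (.non (nat_lit 0) (nat_lit 5) (nat_lit 0x45454000) (nat_lit 0x2000000010001000200000003000200010000000000000000000000000000))) (.non (nat_lit 0) (nat_lit 5) (nat_lit 0x44455000) (nat_lit 0x2000000010000000100000002000300020001000000000000000000000000))) (.non (nat_lit 0) (nat_lit 5) (nat_lit 0x55455000) (nat_lit 0x4000100020002000300000004000500060003000000000000000000000000))) (.non (nat_lit 1) (nat_lit 5) (nat_lit 0x41455001) (nat_lit 0x1000000000001000200000003000400030002000000000000000000000002))) (.non (nat_lit 0) (nat_lit 6) (nat_lit 0x44100550) (nat_lit 0x1000000010000000000010000000000000000000100010001000100000000))) (.non (nat_lit 0) (nat_lit 5) (nat_lit 0x44000100) (nat_lit 0x1000000010000000000000000000000000000000000010000000000000000)))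

noncomputable def t1537_138 : Tr := (.split (nat_lit 0xe) (nat_lit 7) (.split (nat_lit 0xe) (nat_lit 8) (.split (nat_lit 0xe) (nat_lit 9) (.split (nat_lit 0xe) (nat_lit 0xa) (.split (nat_lit 0xe) (nat_lit 0xb) (.split (nat_lit 0xe) (nat_lit 0xd) (.st (nat_lit 0xc) (nat_lit 1) (nat_lit 5) (nat_lit 0x11454001) (nat_lit 0x100000002000200000002000200010000000000000000000000000001) (nat_lit 1) (nat_lit 1) (.st (nat_lit 0xe) (nat_lit 1) (nat_lit 5) (nat_lit 0x11455001) (nat_lit 0x200000003000400000005000600040002000000000000000000000003) (nat_lit 1) (nat_lit 1) (.split (nat_lit 0xe) (nat_lit 0xc) (.ex (nat_lit 0xd) (.leaf (.cons (nat_lit 0x101450) (nat_lit 0x30000000000000003000400000001000200000000) (.cons (nat_lit 0x450005) (nat_lit 0x100000002000300000000000000000000000000030004) (.cons (nat_lit 0x105400) (nat_lit 0x10000000000010002000200000000000000000000) .nil))) (.cons (nat_lit 0x10010000111110) (nat_lit 0x1000001) (nat_lit 0xd) (nat_lit 0x60020000354010) (.cons (nat_lit 0x101101111000001) (nat_lit 0x100010)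 (nat_lit 0xe) (nat_lit 0x706504023000001) .nil))) (.split (nat_lit 0xf) (nat_lit 0) (.split (nat_lit 0xf) (nat_lit 1) (.split (nat_lit 0xf) (nat_lit 2) (.split (nat_lit 0xf) (nat_lit 3) t1537_137 (.non (nat_lit 0) (nat_lit 5) (nat_lit 0x44000140) (nat_lit 0x1000000010000000000000000000000000000000000010001000000000000))) (.non (nat_lit 0) (nat_lit 5) (nat_lit 0x44000150) (nat_lit 0x1000000010000000000000000000000000000000000010001000100000000))) (.non (nat_lit 0) (nat_lit 5) (nat_lit 0x44000154) (nat_lit 0x1000000010000000000000000000000000000000000010001000100010000))) (.non (nat_lit 1) (nat_lit 5) (nat_lit 0x45454001) (nat_lit 0x2000000010001000200000003000400020000000000000000000000000003)))) (.non (nat_lit 1) (nat_lit 5) (nat_lit 0x21454001) (nat_lit 0x100000002000200000002000200010000000000000000000000000001))))) (.non (nat_lit 0) (nat_lit 6) (nat_lit 0x15100554) (nat_lit 0x200030001000000040000000000000000000200040005000600030000))) (.non (nat_lit 0) (nat_lit 5) (nat_lit 0x11400000) (nat_lit 0x100000001000100000000000000000000000000000000000000000000)))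 (.non (nat_lit 0) (nat_lit 5) (nat_lit 0x15100154) (nat_lit 0x200010001000000030000000000000000000000020003000400020000))) (.non (nat_lit 0) (nat_lit 5) (nat_lit 0x11440000) (nat_lit 0x100000001000100000001000000000000000000000000000000000000))) (.non (nat_lit 0) (nat_lit 5) (nat_lit 0x11450000) (nat_lit 0x100000001000100000001000100000000000000000000000000000000))) (.non (nat_lit 0) (nat_lit 5) (nat_lit 0x11454000) (nat_lit 0x100000001000100000001000100010000000000000000000000000000)))

noncomputable def t1537_139 : Tr := (.split (nat_lit 0xd) (nat_lit 0xc) (.st (nat_lit 4) (nat_lit 0) (nat_lit 5) (nat_lit 0x4100154) (nat_lit 0x10000000000010000000000000000000000020002000200010000) (nat_lit 1) (nat_lit 1) (.split (nat_lit 0xd) (nat_lit 4) (.ex (nat_lit 0xc) (.ex (nat_lit 0xd) (.leaf (.cons (nat_lit 0x101450) (nat_lit 0x30000000000000003000400000001000200000000) (.cons (nat_lit 0x450005) (nat_lit 0x100000002000300000000000000000000000000030004) (.cons (nat_lit 0x105400) (nat_lit 0x10000000000010002000200000000000000000000)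 .nil))) (.cons (nat_lit 0x10010000111110) (nat_lit 0x1000001) (nat_lit 0xd) (nat_lit 0x60020000354010) (.cons (nat_lit 0x1101111000001) (nat_lit 0x100010) (nat_lit 0xd) (nat_lit 0x6504023000001) .nil))) (.split (nat_lit 0xe) (nat_lit 0) (.split (nat_lit 0xe) (nat_lit 1) (.split (nat_lit 0xe) (nat_lit 2) t1537_136 (.non (nat_lit 0) (nat_lit 5) (nat_lit 0x14000150) (nat_lit 0x100010000000000000000000000000000000000010001000100000000))) (.non (nat_lit 0) (nat_lit 5) (nat_lit 0x14000154) (nat_lit 0x100010000000000000000000000000000000000010001000100010000))) (.non (nat_lit 1) (nat_lit 5) (nat_lit 0x15454001) (nat_lit 0x200010001000200000003000400020000000000000000000000000003)))) (.split (nat_lit 0xe) (nat_lit 0) (.split (nat_lit 0xe) (nat_lit 1) (.split (nat_lit 0xe) (nat_lit 2) (.split (nat_lit 0xe) (nat_lit 3) (.split (nat_lit 0xe) (nat_lit 4) (.split (nat_lit 0xe) (nat_lit 5) (.split (nat_lit 0xe) (nat_lit 6) t1537_138 (.non (nat_lit 0) (nat_lit 5) (nat_lit 0x11455000) (nat_lit 0x100000001000100000001000100010001000000000000000000000000)))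 (.non (nat_lit 0) (nat_lit 6) (nat_lit 0x14100554) (nat_lit 0x100010000000000030000000000000000000200020003000400020000))) (.non (nat_lit 0) (nat_lit 5) (nat_lit 0x15500150) (nat_lit 0x300020002000100010000000000000000000000040003000200000000))) (.non (nat_lit 0) (nat_lit 5) (nat_lit 0x15100150) (nat_lit 0x200010001000000010000000000000000000000020003000200000000))) (.non (nat_lit 0) (nat_lit 5) (nat_lit 0x15500150) (nat_lit 0x300010002000100020000000000000000000000020003000400000000))) (.non (nat_lit 0) (nat_lit 5) (nat_lit 0x15100154) (nat_lit 0x200010001000000020000000000000000000000020003000400030000))) (.non (nat_lit 1) (nat_lit 5) (nat_lit 0x11450001) (nat_lit 0x100000001000100000001000100000000000000000000000000000001)))) (.non (nat_lit 0) (nat_lit 5) (nat_lit 0x8100154) (nat_lit 0x10000000000010000000000000000000000020002000200010000)))) (.non (nat_lit 0) (nat_lit 6) (nat_lit 0x5500554) (nat_lit 0x30002000100040000000000000000000200040005000600030000)))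

noncomputable def t1537_140 : Tr := (.split (nat_lit 0xc) (nat_lit 0xa) (.st (nat_lit 0xb) (nat_lit 1) (nat_lit 5) (nat_lit 0x1454001) (nat_lit 0x1000200000002000200010000000000000000000000000001) (nat_lit 1) (nat_lit 1) (.split (nat_lit 0xc) (nat_lit 0xb) (.ex (nat_lit 4) (.leaf (.cons (nat_lit 0x101450) (nat_lit 0x30000000000000003000400000001000200000000) (.cons (nat_lit 0x450005) (nat_lit 0x100000002000300000000000000000000000000030004) (.cons (nat_lit 0x105400) (nat_lit 0x10000000000010002000200000000000000000000) .nil))) (.cons (nat_lit 0x10000111110) (nat_lit 0x1000001) (nat_lit 0xc) (nat_lit 0x40000532010) .nil)) (.split (nat_lit 0xd) (nat_lit 0) (.split (nat_lit 0xd) (nat_lit 1) (.split (nat_lit 0xd) (nat_lit 2) (.split (nat_lit 0xd) (nat_lit 3) (.split (nat_lit 0xd) (nat_lit 5) (.split (nat_lit 0xd) (nat_lit 6) (.split (nat_lit 0xd) (nat_lit 7) (.split (nat_lit 0xd) (nat_lit 8) (.split (nat_lit 0xd) (nat_lit 9) (.split (nat_lit 0xd) (nat_lit 0xa) (.split (nat_lit 0xd) (nat_lit 0xb) t1537_139 (.non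 (nat_lit 0) (nat_lit 5) (nat_lit 0x5454140) (nat_lit 0x30002000400000003000200010000000000020001000000000000))) (.non (nat_lit 0) (nat_lit 5) (nat_lit 0x4100150) (nat_lit 0x10000000000010000000000000000000000010001000100000000))) (.non (nat_lit 0) (nat_lit 5) (nat_lit 0x5454100) (nat_lit 0x20001000200000003000200010000000000010000000000000000))) (.non (nat_lit 0) (nat_lit 5) (nat_lit 0x4455100) (nat_lit 0x20000000100000002000300020001000000010000000000000000))) (.non (nat_lit 0) (nat_lit 5) (nat_lit 0x4455140) (nat_lit 0x30000000100000002000300040002000000020001000000000000))) (.non (nat_lit 1) (nat_lit 5) (nat_lit 0x5455001) (nat_lit 0x10001000200000003000400030002000000000000000000000002))) (.non (nat_lit 0) (nat_lit 6) (nat_lit 0x4100550) (nat_lit 0x10000000000010000000000000000000100010001000100000000))) (.non (nat_lit 0) (nat_lit 5) (nat_lit 0x4000140) (nat_lit 0x10000000000000000000000000000000000010001000000000000))) (.non (nat_lit 0) (nat_lit 5) (nat_lit 0x4000150) (nat_lit 0x10000000000000000000000000000000000010001000100000000)))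 (.non (nat_lit 0) (nat_lit 5) (nat_lit 0x4000154) (nat_lit 0x10000000000000000000000000000000000010001000100010000))) (.non (nat_lit 1) (nat_lit 5) (nat_lit 0x4455001) (nat_lit 0x10000000100000002000300020001000000000000000000000002)))) (.non (nat_lit 1) (nat_lit 5) (nat_lit 0x2454001) (nat_lit 0x1000200000002000200010000000000000000000000000001)))) (.non (nat_lit 0) (nat_lit 5) (nat_lit 0x1550154) (nat_lit 0x4000300050002000100000000000000020004000600030000)))

noncomputable def t1537_141 : Tr := (.split (nat_lit 4) (nat_lit 3) (.split (nat_lit 0xb) (nat_lit 9) (.split (nat_lit 9) (nat_lit 8) (.split (nat_lit 0xa) (nat_lit 5) (.split (nat_lit 8) (nat_lit 0) (.ex (nat_lit 0xb) (.leaf (.cons (nat_lit 0x101450) (nat_lit 0x30000000000000003000400000001000200000000) (.cons (nat_lit 0x450005) (nat_lit 0x100000002000300000000000000000000000000030004) (.cons (nat_lit 0x105400) (nat_lit 0x10000000000010002000200000000000000000000) .nil))) (.cons (nat_lit 0x101111000001) (nat_lit 0x100010) (nat_lit 0xc) (nat_lit 0x504023000001)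 .nil)) (.split (nat_lit 0xc) (nat_lit 0) (.split (nat_lit 0xc) (nat_lit 1) (.split (nat_lit 0xc) (nat_lit 2) (.split (nat_lit 0xc) (nat_lit 3) (.split (nat_lit 0xc) (nat_lit 4) (.split (nat_lit 0xc) (nat_lit 5) (.split (nat_lit 0xc) (nat_lit 6) (.split (nat_lit 0xc) (nat_lit 7) (.split (nat_lit 0xc) (nat_lit 8) (.split (nat_lit 0xc) (nat_lit 9) t1537_140 (.non (nat_lit 0) (nat_lit 5) (nat_lit 0x1440000) (nat_lit 0x1000100000001000000000000000000000000000000000000))) (.non (nat_lit 0) (nat_lit 5) (nat_lit 0x1450000) (nat_lit 0x1000100000001000100000000000000000000000000000000))) (.non (nat_lit 0) (nat_lit 5) (nat_lit 0x1454000) (nat_lit 0x1000100000001000100010000000000000000000000000000))) (.non (nat_lit 0) (nat_lit 5) (nat_lit 0x1455000) (nat_lit 0x1000100000001000100010001000000000000000000000000))) (.non (nat_lit 0) (nat_lit 6) (nat_lit 0x1540554) (nat_lit 0x3000200050001000000000000000400020004000600030000))) (.non (nat_lit 0) (nat_lit 6) (nat_lit 0x1540554) (nat_lit 0x3000200040001000000000000000200040005000600030000)))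 (.non (nat_lit 0) (nat_lit 5) (nat_lit 0x1554150) (nat_lit 0x5000400020003000200010000000000030006000400000000))) (.non (nat_lit 0) (nat_lit 5) (nat_lit 0x1554150) (nat_lit 0x5000400030003000200010000000000020004000600000000))) (.non (nat_lit 0) (nat_lit 5) (nat_lit 0x1550154) (nat_lit 0x4000300030002000100000000000000020004000600050000))) (.non (nat_lit 1) (nat_lit 5) (nat_lit 0x1450001) (nat_lit 0x1000100000001000100000000000000000000000000000001)))) (.non (nat_lit 1) (nat_lit 5) (nat_lit 0xa8001) (nat_lit 0x1000200010000000000000000000000000002))) (.non (nat_lit 0) (nat_lit 6) (nat_lit 0x100854) (nat_lit 0x20000000000000000000100000001000200010000))) (.non (nat_lit 0) (nat_lit 5) (nat_lit 0x895000) (nat_lit 0x100000002000300020001000000000000000000000000))) (.non (nat_lit 1) (nat_lit 5) (nat_lit 0x854001) (nat_lit 0x100000002000200010000000000000000000000000001))) (.non (nat_lit 0) (nat_lit 5) (nat_lit 0x100254) (nat_lit 0x10000000000000000000000010002000200010000)))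

noncomputable def t1537_142 : Tr := (.ex (nat_lit 9) (.split (nat_lit 8) (nat_lit 0) (.split (nat_lit 9) (nat_lit 8) (.split (nat_lit 0xa) (nat_lit 5) (.pd (.cons (nat_lit 2) (nat_lit 7) (nat_lit 0x11000) (nat_lit 0x58005534000) (nat_lit 0xf423ff423fb71ae00000f423f17500000010000100000f423f02f7a) .nil) (.split (nat_lit 0xa) (nat_lit 2) (.split (nat_lit 4) (nat_lit 3) t1537_135 (.non (nat_lit 0) (nat_lit 5) (nat_lit 0x100254) (nat_lit 0x10000000000000000000000010002000200010000))) (.non (nat_lit 0) (nat_lit 5) (nat_lit 0x200054) (nat_lit 0x10000000000000000000000000001000200010000)))) (.non (nat_lit 0) (nat_lit 6) (nat_lit 0x100854) (nat_lit 0x20000000000000000000100000001000200010000))) (.non (nat_lit 1) (nat_lit 5) (nat_lit 0x94001) (nat_lit 0x1000200010000000000000000000000000001))) (.non (nat_lit 1) (nat_lit 5) (nat_lit 0xa8001) (nat_lit 0x1000200010000000000000000000000000002))) (.split (nat_lit 0xb) (nat_lit 0) (.split (nat_lit 0xb) (nat_lit 1) (.split (nat_lit 0xb) (nat_lit 2) (.split (nat_lit 0xb) (nat_lit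 3) (.split (nat_lit 0xb) (nat_lit 4) (.split (nat_lit 0xb) (nat_lit 5) (.split (nat_lit 0xb) (nat_lit 6) (.split (nat_lit 0xb) (nat_lit 7) (.split (nat_lit 0xb) (nat_lit 8) (.split (nat_lit 0xb) (nat_lit 0xa) (.st (nat_lit 9) (nat_lit 1) (nat_lit 5) (nat_lit 0x454001) (nat_lit 0x100000002000200010000000000000000000000000001) (nat_lit 1) (nat_lit 1) (.split (nat_lit 0xa) (nat_lit 2) t1537_141 (.non (nat_lit 0) (nat_lit 5) (nat_lit 0x200054) (nat_lit 0x10000000000000000000000000001000200010000)))) (.non (nat_lit 0) (nat_lit 5) (nat_lit 0x554154) (nat_lit 0x400050003000200010000000000020004000600030000))) (.non (nat_lit 0) (nat_lit 5) (nat_lit 0x450000) (nat_lit 0x100000001000100000000000000000000000000000000))) (.non (nat_lit 0) (nat_lit 5) (nat_lit 0x454000) (nat_lit 0x100000001000100010000000000000000000000000000))) (.non (nat_lit 0) (nat_lit 5) (nat_lit 0x455000) (nat_lit 0x100000001000100010001000000000000000000000000))) (.non (nat_lit 0) (nat_lit 6) (nat_lit 0x550554) (nat_lit 0x300050002000100000000000400020004000600030000)))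 (.non (nat_lit 0) (nat_lit 6) (nat_lit 0x550554) (nat_lit 0x300040002000100000000000200040005000600030000))) (.non (nat_lit 0) (nat_lit 5) (nat_lit 0x555150) (nat_lit 0x500020004000300020001000000030006000400000000))) (.non (nat_lit 0) (nat_lit 5) (nat_lit 0x555150) (nat_lit 0x500030004000300020001000000020004000600000000))) (.non (nat_lit 0) (nat_lit 5) (nat_lit 0x554154) (nat_lit 0x400030003000200010000000000020004000600050000))) (.non (nat_lit 1) (nat_lit 5) (nat_lit 0x450001) (nat_lit 0x100000001000100000000000000000000000000000001))))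

noncomputable def t1537_143 : Tr := (.ex (nat_lit 5) (.ex (nat_lit 6) t1537_142 (.split (nat_lit 0xb) (nat_lit 0) (.split (nat_lit 0xb) (nat_lit 1) (.split (nat_lit 0xb) (nat_lit 2) (.split (nat_lit 0xb) (nat_lit 3) (.split (nat_lit 0xb) (nat_lit 7) (.split (nat_lit 0xb) (nat_lit 8) (.split (nat_lit 0xb) (nat_lit 9) (.split (nat_lit 0xb) (nat_lit 0xa) (.split (nat_lit 0xb) (nat_lit 4) (.split (nat_lit 0xb) (nat_lit 5) (.unj (nat_lit 0x405400) (nat_lit 0x100000000000000010002000200000000000000000000) (nat_lit 0x155) (nat_lit 0x10002000300040003)) (.unj (nat_lit 0x401400) (nat_lit 0x100000000000000000001000100000000000000000000) (nat_lit 0x10015) (nat_lit 0x100000000000000000000000100020002))) (.split (nat_lit 0xb) (nat_lit 5) (.sup (nat_lit 0x100000000000000000000000300050005) (nat_lit 0x300000000000000010005000400000000000000000000)) (.non (nat_lit 0) (nat_lit 6) (nat_lit 0x500550) (nat_lit 0x100010000000000000000000100010001000100000000)))) (.non (nat_lit 0) (nat_lit 5) (nat_lit 0x515154) (nat_lit 0x400050000000100020003000000020004000600030000)))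 (.non (nat_lit 0) (nat_lit 5) (nat_lit 0x455000) (nat_lit 0x100000001000100010001000000000000000000000000))) (.non (nat_lit 0) (nat_lit 5) (nat_lit 0x415000) (nat_lit 0x100000000000100010001000000000000000000000000))) (.non (nat_lit 0) (nat_lit 5) (nat_lit 0x405000) (nat_lit 0x100000000000000010001000000000000000000000000))) (.non (nat_lit 0) (nat_lit 5) (nat_lit 0x555150) (nat_lit 0x500020001000200030004000000030006000400000000))) (.non (nat_lit 0) (nat_lit 5) (nat_lit 0x555150) (nat_lit 0x500030001000200030004000000020004000600000000))) (.star (nat_lit 0xb) (nat_lit 1) (nat_lit 6))) (.star (nat_lit 0xb) (nat_lit 0) (nat_lit 6)))) (.split (nat_lit 0xb) (nat_lit 0) (.split (nat_lit 0xb) (nat_lit 1) (.split (nat_lit 0xb) (nat_lit 2) (.split (nat_lit 0xb) (nat_lit 3) (.split (nat_lit 0xb) (nat_lit 4) (.split (nat_lit 0xb) (nat_lit 7) (.split (nat_lit 0xb) (nat_lit 8) (.split (nat_lit 0xb) (nat_lit 9) (.split (nat_lit 0xb) (nat_lit 0xa) (.split (nat_lit 0xb) (nat_lit 6) (.unj (nat_lit 0x405400) (nat_lit 0x100000000000000010002000200000000000000000000)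 (nat_lit 0x155) (nat_lit 0x10002000300040003)) (.unj (nat_lit 0x401400) (nat_lit 0x100000000000000000001000100000000000000000000) (nat_lit 0x10015) (nat_lit 0x100000000000000000000000100020002))) (.non (nat_lit 0) (nat_lit 6) (nat_lit 0x500400) (nat_lit 0x100010000000000000000000100000000000000000000))) (.non (nat_lit 0) (nat_lit 6) (nat_lit 0x550554) (nat_lit 0x300050002000100000000000400020004000600030000))) (.non (nat_lit 0) (nat_lit 6) (nat_lit 0x554454) (nat_lit 0x200020001000200010000000200000001000200010000))) (.non (nat_lit 0) (nat_lit 6) (nat_lit 0x514554) (nat_lit 0x300050000000100020000000400020004000600030000))) (.non (nat_lit 0) (nat_lit 6) (nat_lit 0x500550) (nat_lit 0x100010000000000000000000100010001000100000000))) (.non (nat_lit 0) (nat_lit 5) (nat_lit 0x500154) (nat_lit 0x100010000000000000000000000010002000200010000))) (.non (nat_lit 0) (nat_lit 5) (nat_lit 0x500054) (nat_lit 0x100010000000000000000000000000001000200010000))) (.star (nat_lit 0xb) (nat_lit 1) (nat_lit 5))) (.star (nat_lit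 0xb) (nat_lit 0) (nat_lit 5))))

noncomputable def t1537_144 : Tr := (.ex (nat_lit 2) (.ex (nat_lit 3) t1537_122 (.split (nat_lit 0xa) (nat_lit 0) (.split (nat_lit 0xa) (nat_lit 1) (.split (nat_lit 0xa) (nat_lit 2) (.split (nat_lit 0xa) (nat_lit 4) (.split (nat_lit 0xa) (nat_lit 6) (.split (nat_lit 0xa) (nat_lit 7) (.split (nat_lit 0xa) (nat_lit 8) (.split (nat_lit 0xa) (nat_lit 9) (.split (nat_lit 0xa) (nat_lit 5) t1537_127 (.sup (nat_lit 0x2000000000000000000000005000a0009) (nat_lit 0x50000000000020009000a00000000000000000000))) (.non (nat_lit 0) (nat_lit 5) (nat_lit 0x155154) (nat_lit 0x50004000300020001000000030006000400020000))) (.non (nat_lit 0) (nat_lit 5) (nat_lit 0x154150) (nat_lit 0x20001000200010000000000010002000100000000))) (.non (nat_lit 0) (nat_lit 5) (nat_lit 0x115150) (nat_lit 0x20000000100020001000000010002000100000000))) (.non (nat_lit 0) (nat_lit 5) (nat_lit 0x155154) (nat_lit 0x50001000200030004000000030006000400020000))) (.non (nat_lit 0) (nat_lit 5) (nat_lit 0x100140) (nat_lit 0x10000000000000000000000010001000000000000)))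 (.non (nat_lit 0) (nat_lit 5) (nat_lit 0x100050) (nat_lit 0x10000000000000000000000000001000100000000))) (.non (nat_lit 0) (nat_lit 5) (nat_lit 0x100054) (nat_lit 0x10000000000000000000000000001000100010000))) (.non (nat_lit 1) (nat_lit 5) (nat_lit 0x154151) (nat_lit 0x20001000200010000000000010002000100000002)))) (.split (nat_lit 0xa) (nat_lit 0) (.split (nat_lit 0xa) (nat_lit 1) (.split (nat_lit 0xa) (nat_lit 3) (.split (nat_lit 0xa) (nat_lit 4) (.split (nat_lit 0xa) (nat_lit 6) (.split (nat_lit 0xa) (nat_lit 7) (.split (nat_lit 0xa) (nat_lit 8) (.split (nat_lit 0xa) (nat_lit 9) (.split (nat_lit 0xa) (nat_lit 5) (.st (nat_lit 2) (nat_lit 0) (nat_lit 5) (nat_lit 0x100054) (nat_lit 0x10000000000000000000000000001000200010000) (nat_lit 1) (nat_lit 1) (.st (nat_lit 3) (nat_lit 0) (nat_lit 5) (nat_lit 0x100154) (nat_lit 0x10000000000000000000000010002000200010000) (nat_lit 1) (nat_lit 1) t1537_133)) (.st (nat_lit 0xa) (nat_lit 0) (nat_lit 6) (nat_lit 0x100454) (nat_lit 0x20000000000000000000100000001000200010000)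 (nat_lit 1) (nat_lit 1) (.st (nat_lit 2) (nat_lit 0) (nat_lit 5) (nat_lit 0x100054) (nat_lit 0x10000000000000000000000000001000200010000) (nat_lit 1) (nat_lit 1) (.st (nat_lit 3) (nat_lit 0) (nat_lit 5) (nat_lit 0x100154) (nat_lit 0x10000000000000000000000010002000200010000) (nat_lit 1) (nat_lit 1) t1537_143)))) (.non (nat_lit 0) (nat_lit 5) (nat_lit 0x155154) (nat_lit 0x50004000300020001000000020004000600030000))) (.non (nat_lit 0) (nat_lit 5) (nat_lit 0x154054) (nat_lit 0x20001000200010000000000000001000200010000))) (.non (nat_lit 0) (nat_lit 5) (nat_lit 0x115054) (nat_lit 0x20000000100020001000000000001000200010000))) (.non (nat_lit 0) (nat_lit 5) (nat_lit 0x155154) (nat_lit 0x50001000200030004000000020004000600030000))) (.non (nat_lit 0) (nat_lit 5) (nat_lit 0x100150) (nat_lit 0x10000000000000000000000010001000100000000))) (.non (nat_lit 0) (nat_lit 5) (nat_lit 0x100050) (nat_lit 0x10000000000000000000000000001000100000000))) (.non (nat_lit 0) (nat_lit 5) (nat_lit 0x100014) (nat_lit 0x10000000000000000000000000000000100010000)))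 (.non (nat_lit 1) (nat_lit 5) (nat_lit 0x155151) (nat_lit 0x40003000600040002000000010002000300000005))))

noncomputable def t1537_145 : Tr := (.split (nat_lit 0xd) (nat_lit 1) (.split (nat_lit 0xd) (nat_lit 2) (.split (nat_lit 0xd) (nat_lit 3) (.split (nat_lit 0xd) (nat_lit 4) (.split (nat_lit 0xd) (nat_lit 5) (.split (nat_lit 0xd) (nat_lit 6) (.split (nat_lit 0xd) (nat_lit 7) (.split (nat_lit 0xd) (nat_lit 8) (.split (nat_lit 0xd) (nat_lit 9) (.split (nat_lit 0xd) (nat_lit 0xa) (.split (nat_lit 0xd) (nat_lit 0xb) (.st (nat_lit 0xc) (nat_lit 1) (nat_lit 5) (nat_lit 0x5454001) (nat_lit 0x10002000200000002000200010000000000000000000000000001) (nat_lit 1) (nat_lit 1) (.st (nat_lit 0xd) (nat_lit 1) (nat_lit 5) (nat_lit 0x5455001) (nat_lit 0x20003000400000005000600040002000000000000000000000003) (nat_lit 1) (nat_lit 1) (.split (nat_lit 0xd) (nat_lit 0xc) (.leaf (.cons (nat_lit 0x15401) (nat_lit 0x200030004000300000000000000000001) (.cons (nat_lit 0x110005) (nat_lit 0x10000000100000000000000000000000000020002) (.cons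 (nat_lit 0x100015) (nat_lit 0x10000000000000000000000000000000100020002) .nil))) (.cons (nat_lit 0x11101111000001) (nat_lit 0x100010) (nat_lit 0xe) (nat_lit 0x76504023000001) (.cons (nat_lit 0x11101100000001) (nat_lit 0x10000010) (nat_lit 4) (nat_lit 0x54302100000000) .nil))) (.non (nat_lit 1) (nat_lit 5) (nat_lit 0x9454001) (nat_lit 0x10002000200000002000200010000000000000000000000000001))))) (.non (nat_lit 0) (nat_lit 5) (nat_lit 0x5400000) (nat_lit 0x10001000100000000000000000000000000000000000000000000))) (.non (nat_lit 1) (nat_lit 5) (nat_lit 0x5555001) (nat_lit 0x20003000400010005000600040002000000000000000000000003))) (.non (nat_lit 0) (nat_lit 5) (nat_lit 0x5440000) (nat_lit 0x10001000100000001000000000000000000000000000000000000))) (.non (nat_lit 0) (nat_lit 5) (nat_lit 0x5450000) (nat_lit 0x10001000100000001000100000000000000000000000000000000))) (.non (nat_lit 0) (nat_lit 5) (nat_lit 0x5454000) (nat_lit 0x10001000100000001000100010000000000000000000000000000))) (.non (nat_lit 0) (nat_lit 5) (nat_lit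 0x5455000) (nat_lit 0x10001000100000001000100010001000000000000000000000000))) (.non (nat_lit 0) (nat_lit 7) (nat_lit 0x5401400) (nat_lit 0x30002000100000000000000000003000400000000000000000000))) (.non (nat_lit 1) (nat_lit 5) (nat_lit 0x5455101) (nat_lit 0x20003000400000005000600040002000000010000000000000003))) (.non (nat_lit 0) (nat_lit 5) (nat_lit 0x5500154) (nat_lit 0x30002000100010000000000000000000000020004000300020000))) (.non (nat_lit 0) (nat_lit 5) (nat_lit 0x5550054) (nat_lit 0x50004000300020002000100000000000000000003000600040000))) (.non (nat_lit 0) (nat_lit 5) (nat_lit 0x5550054) (nat_lit 0x50004000300030002000100000000000000000002000400060000)))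

noncomputable def t1537_146 : Tr := (.split (nat_lit 0xc) (nat_lit 0) (.split (nat_lit 0xc) (nat_lit 1) (.split (nat_lit 0xc) (nat_lit 2) (.split (nat_lit 0xc) (nat_lit 3) (.split (nat_lit 0xc) (nat_lit 4) (.split (nat_lit 0xc) (nat_lit 5) (.split (nat_lit 0xc) (nat_lit 6) (.split (nat_lit 0xc) (nat_lit 7) (.split (nat_lit 0xc) (nat_lit 8) (.split (nat_lit 0xc) (nat_lit 9) (.split (nat_lit 0xc) (nat_lit 0xa) (.st (nat_lit 0xb) (nat_lit 1) (nat_lit 5) (nat_lit 0x1454001) (nat_lit 0x1000200000002000200010000000000000000000000000001) (nat_lit 1) (nat_lit 1) (.split (nat_lit 0xc) (nat_lit 0xb) (.ex (nat_lit 0xc) (.leaf (.cons (nat_lit 0x15401) (nat_lit 0x200030004000300000000000000000001) (.cons (nat_lit 0x110005) (nat_lit 0x10000000100000000000000000000000000020002) (.cons (nat_lit 0x100015) (nat_lit 0x10000000000000000000000000000000100020002) .nil))) (.cons (nat_lit 0x1101111000001) (nat_lit 0x100010) (nat_lit 0xd) (nat_lit 0x6504023000001) (.cons (nat_lit 0x1101110000001) (nat_lit 0x1000010) (nat_lit 9) (nat_lit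 0x5403020000001) .nil))) (.split (nat_lit 0xd) (nat_lit 0) t1537_145 (.non (nat_lit 1) (nat_lit 5) (nat_lit 0x5450001) (nat_lit 0x10001000100000001000100000000000000000000000000000001)))) (.non (nat_lit 1) (nat_lit 5) (nat_lit 0x2454001) (nat_lit 0x1000200000002000200010000000000000000000000000001)))) (.non (nat_lit 2) (nat_lit 8) (nat_lit 0x1500005) (nat_lit 0x2000100030000000000000000000000000000000000040003))) (.non (nat_lit 0) (nat_lit 5) (nat_lit 0x1440000) (nat_lit 0x1000100000001000000000000000000000000000000000000))) (.non (nat_lit 0) (nat_lit 5) (nat_lit 0x1450000) (nat_lit 0x1000100000001000100000000000000000000000000000000))) (.non (nat_lit 0) (nat_lit 5) (nat_lit 0x1454000) (nat_lit 0x1000100000001000100010000000000000000000000000000))) (.non (nat_lit 0) (nat_lit 5) (nat_lit 0x1455000) (nat_lit 0x1000100000001000100010001000000000000000000000000))) (.non (nat_lit 0) (nat_lit 7) (nat_lit 0x1441400) (nat_lit 0x3000200000001000000000003000400000000000000000000))) (.non (nat_lit 1) (nat_lit 5) (nat_lit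 0x1455141) (nat_lit 0x3000400000005000600040002000000020001000000000003))) (.non (nat_lit 0) (nat_lit 5) (nat_lit 0x1540154) (nat_lit 0x3000200010001000000000000000000020004000300020000))) (.non (nat_lit 0) (nat_lit 5) (nat_lit 0x1554054) (nat_lit 0x5000400020003000200010000000000000003000600040000))) (.non (nat_lit 0) (nat_lit 5) (nat_lit 0x1554054) (nat_lit 0x5000400030003000200010000000000000002000400060000))) (.non (nat_lit 1) (nat_lit 5) (nat_lit 0x1450001) (nat_lit 0x1000100000001000100000000000000000000000000000001)))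

noncomputable def t1537_147 : Tr := (.ex (nat_lit 9) (.leaf (.cons (nat_lit 0x15401) (nat_lit 0x200030004000300000000000000000001) (.cons (nat_lit 0x110005) (nat_lit 0x10000000100000000000000000000000000020002) (.cons (nat_lit 0x100015) (nat_lit 0x10000000000000000000000000000000100020002) .nil))) (.cons (nat_lit 0x1111000001) (nat_lit 0x100010) (nat_lit 8) (nat_lit 0x2034000001) (.cons (nat_lit 0x1110000001) (nat_lit 0x1000010) (nat_lit 7) (nat_lit 0x3020000001) .nil))) (.split (nat_lit 0xb) (nat_lit 0) (.split (nat_lit 0xb) (nat_lit 1) (.split (nat_lit 0xb) (nat_lit 2) (.split (nat_lit 0xb) (nat_lit 3) (.split (nat_lit 0xb) (nat_lit 4) (.split (nat_lit 0xb) (nat_lit 5) (.split (nat_lit 0xb) (nat_lit 6) (.split (nat_lit 0xb) (nat_lit 7) (.split (nat_lit 0xb) (nat_lit 8) (.split (nat_lit 0xb) (nat_lit 0xa) (.st (nat_lit 9) (nat_lit 1) (nat_lit 5) (nat_lit 0x454001) (nat_lit 0x100000002000200010000000000000000000000000001) (nat_lit 1) (nat_lit 1) (.split (nat_lit 0xb) (nat_lit 9) (.ex (nat_lit 0xb) (.leaf (.cons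 (nat_lit 0x15401) (nat_lit 0x200030004000300000000000000000001) (.cons (nat_lit 0x110005) (nat_lit 0x10000000100000000000000000000000000020002) (.cons (nat_lit 0x100015) (nat_lit 0x10000000000000000000000000000000100020002) .nil))) (.cons (nat_lit 0x101111000001) (nat_lit 0x100010) (nat_lit 0xc) (nat_lit 0x504023000001) .nil)) t1537_146) (.non (nat_lit 1) (nat_lit 5) (nat_lit 0x854001) (nat_lit 0x100000002000200010000000000000000000000000001)))) (.non (nat_lit 2) (nat_lit 8) (nat_lit 0x540005) (nat_lit 0x200030001000000000000000000000000000000040003))) (.non (nat_lit 0) (nat_lit 5) (nat_lit 0x450000) (nat_lit 0x100000001000100000000000000000000000000000000))) (.non (nat_lit 0) (nat_lit 5) (nat_lit 0x454000) (nat_lit 0x100000001000100010000000000000000000000000000))) (.non (nat_lit 0) (nat_lit 5) (nat_lit 0x455000) (nat_lit 0x100000001000100010001000000000000000000000000))) (.non (nat_lit 0) (nat_lit 7) (nat_lit 0x451400) (nat_lit 0x300000002000100000003000400000000000000000000))) (.non (nat_lit 1) (nat_lit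 5) (nat_lit 0x455151) (nat_lit 0x400000005000600040002000000030002000100000003))) (.non (nat_lit 0) (nat_lit 5) (nat_lit 0x550154) (nat_lit 0x300010002000100000000000000020004000300020000))) (.non (nat_lit 0) (nat_lit 5) (nat_lit 0x555054) (nat_lit 0x500020004000300020001000000000003000600040000))) (.non (nat_lit 0) (nat_lit 5) (nat_lit 0x555054) (nat_lit 0x500030004000300020001000000000002000400060000))) (.non (nat_lit 1) (nat_lit 5) (nat_lit 0x450001) (nat_lit 0x100000001000100000000000000000000000000000001))))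

noncomputable def t1537_148 : Tr := (.split (nat_lit 0xb) (nat_lit 0xa) (.pd (.cons (nat_lit 2) (nat_lit 8) (nat_lit 0) (nat_lit 0xa19065533000) (nat_lit 0xf423fb71aef423f00000f423fb71ae1f156f423fb71ae00000a2c2804737) .nil) (.ex (nat_lit 9) (.leaf (.cons (nat_lit 0x15401) (nat_lit 0x200030004000300000000000000000001) (.cons (nat_lit 0x110005) (nat_lit 0x10000000100000000000000000000000000020002) (.cons (nat_lit 0x100015) (nat_lit 0x10000000000000000000000000000000100020002) .nil))) (.cons (nat_lit 0x1111000001) (nat_lit 0x100010) (nat_lit 8) (nat_lit 0x2034000001) (.cons (nat_lit 0x1110000001) (nat_lit 0x1000010) (nat_lit 7) (nat_lit 0x3020000001) .nil))) (.split (nat_lit 0xc) (nat_lit 0) (.split (nat_lit 0xc) (nat_lit 1) (.split (nat_lit 0xc) (nat_lit 2) (.split (nat_lit 0xc) (nat_lit 3) (.split (nat_lit 0xc) (nat_lit 4) (.split (nat_lit 0xc) (nat_lit 5) (.split (nat_lit 0xc) (nat_lit 6) (.split (nat_lit 0xc) (nat_lit 7) (.split (nat_lit 0xc) (nat_lit 8) (.split (nat_lit 0xc) (nat_lit 0xa) (.split (nat_lit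 0xc) (nat_lit 0xb) (.sup (nat_lit 0x20000000000040006000b0010000d00000000000000000000) (nat_lit 0x200050000000000000000000000020004000500070003)) (.non (nat_lit 2) (nat_lit 8) (nat_lit 0x1500005) (nat_lit 0x1000200030000000000000000000000000000000000040003))) (.non (nat_lit 0) (nat_lit 5) (nat_lit 0x1555014) (nat_lit 0x5000300060004000300020001000000000000000200040000))) (.non (nat_lit 0) (nat_lit 5) (nat_lit 0x1050000) (nat_lit 0x1000000000001000100000000000000000000000000000000))) (.non (nat_lit 0) (nat_lit 5) (nat_lit 0x1054000) (nat_lit 0x1000000000001000100010000000000000000000000000000))) (.non (nat_lit 0) (nat_lit 5) (nat_lit 0x1055000) (nat_lit 0x1000000000001000100010001000000000000000000000000))) (.non (nat_lit 0) (nat_lit 7) (nat_lit 0x1051400) (nat_lit 0x3000000000002000100000003000400000000000000000000))) (.non (nat_lit 1) (nat_lit 5) (nat_lit 0x1055151) (nat_lit 0x4000000000005000600040002000000030002000100000003))) (.non (nat_lit 0) (nat_lit 5) (nat_lit 0x1150154) (nat_lit 0x3000000010002000100000000000000020004000300020000)))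 (.non (nat_lit 0) (nat_lit 5) (nat_lit 0x1550054) (nat_lit 0x3000100020002000100000000000000000002000400030000))) (.non (nat_lit 0) (nat_lit 5) (nat_lit 0x1555014) (nat_lit 0x5000200040004000300020001000000000000000300060000))) (.non (nat_lit 1) (nat_lit 5) (nat_lit 0x1050001) (nat_lit 0x1000000000001000100000000000000000000000000000001))))) (.sup (nat_lit 0x30007000b0010000d00000000000000000000) (nat_lit 0x400050000000000000000000000010003000400050001)))

noncomputable def t1537_149 : Tr := (.split (nat_lit 0xc) (nat_lit 0xb) (.split (nat_lit 0xb) (nat_lit 0xa) (.ex (nat_lit 9) (.leaf (.cons (nat_lit 0x15401) (nat_lit 0x200030004000300000000000000000001) (.cons (nat_lit 0x1500005) (nat_lit 0x1000200030000000000000000000000000000000000040003) .nil)) (.cons (nat_lit 0x1111000001) (nat_lit 0x100010) (nat_lit 8) (nat_lit 0x2034000001) (.cons (nat_lit 0x1110000001) (nat_lit 0x1000010) (nat_lit 7) (nat_lit 0x3020000001) .nil))) (.split (nat_lit 0xd) (nat_lit 0) (.split (nat_lit 0xd) (nat_lit 1) (.split (nat_lit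 0xd) (nat_lit 2) (.split (nat_lit 0xd) (nat_lit 3) (.split (nat_lit 0xd) (nat_lit 4) (.split (nat_lit 0xd) (nat_lit 5) (.split (nat_lit 0xd) (nat_lit 6) (.split (nat_lit 0xd) (nat_lit 7) (.split (nat_lit 0xd) (nat_lit 8) (.split (nat_lit 0xd) (nat_lit 0xa) (.split (nat_lit 0xd) (nat_lit 0xb) (.split (nat_lit 0xd) (nat_lit 0xc) (.sup (nat_lit 0x200000000000000040007000b0010000d00000000000000000000) (nat_lit 0x2000300050000000000000000000000020003000500070002)) (.non (nat_lit 1) (nat_lit 5) (nat_lit 0x5555001) (nat_lit 0x40003000200010005000600040002000000000000000000000003))) (.non (nat_lit 0) (nat_lit 5) (nat_lit 0x5555004) (nat_lit 0x50003000600040004000300020001000000000000000000020000))) (.non (nat_lit 0) (nat_lit 5) (nat_lit 0x5555004) (nat_lit 0x50002000400060004000300020001000000000000000000030000))) (.non (nat_lit 0) (nat_lit 5) (nat_lit 0x4050000) (nat_lit 0x10000000000000001000100000000000000000000000000000000))) (.non (nat_lit 0) (nat_lit 5) (nat_lit 0x4054000) (nat_lit 0x10000000000000001000100010000000000000000000000000000)))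 (.non (nat_lit 0) (nat_lit 5) (nat_lit 0x4055000) (nat_lit 0x10000000000000001000100010001000000000000000000000000))) (.non (nat_lit 0) (nat_lit 7) (nat_lit 0x4051400) (nat_lit 0x30000000000000002000100000003000400000000000000000000))) (.non (nat_lit 1) (nat_lit 5) (nat_lit 0x4055151) (nat_lit 0x40000000000000005000600040002000000030002000100000003))) (.non (nat_lit 0) (nat_lit 5) (nat_lit 0x5540154) (nat_lit 0x40001000200030002000000000000000000030006000500040000))) (.non (nat_lit 0) (nat_lit 5) (nat_lit 0x4550054) (nat_lit 0x30000000100020002000100000000000000000002000400030000))) (.non (nat_lit 0) (nat_lit 5) (nat_lit 0x5550014) (nat_lit 0x30001000200030002000100000000000000000000000200040000))) (.non (nat_lit 1) (nat_lit 5) (nat_lit 0x4050001) (nat_lit 0x10000000000000001000100000000000000000000000000000001)))) (.non (nat_lit 0) (nat_lit 5) (nat_lit 0x2900014) (nat_lit 0x1000200030000000000000000000000000000000100020000))) (.sup (nat_lit 0x30007000b0010000d00000000000000000000) (nat_lit 0x4000500050000000000000000000000010003000400050001)))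

noncomputable def t1537_150 : Tr := (.split (nat_lit 0xc) (nat_lit 4) (.split (nat_lit 0xc) (nat_lit 5) (.split (nat_lit 0xc) (nat_lit 6) (.split (nat_lit 0xc) (nat_lit 7) (.split (nat_lit 0xc) (nat_lit 8) (.split (nat_lit 0xc) (nat_lit 0xa) (.split (nat_lit 0xc) (nat_lit 0) (.split (nat_lit 0xc) (nat_lit 9) t1537_149 (.st (nat_lit 2) (nat_lit 0) (nat_lit 5) (nat_lit 0x1540154) (nat_lit 0x2000300040001000000000000000000020004000600050000) (nat_lit 1) (nat_lit 3) (.st (nat_lit 9) (nat_lit 0) (nat_lit 5) (nat_lit 0x1555000) (nat_lit 0x3000200010004000300020001000000000000000000000000) (nat_lit 1) (nat_lit 2) (.st (nat_lit 0xb) (nat_lit 0) (nat_lit 5) (nat_lit 0x1555004) (nat_lit 0x5000600040004000300020001000000000000000000020000) (nat_lit 1) (nat_lit 3) (.st (nat_lit 0xc) (nat_lit 0) (nat_lit 5) (nat_lit 0x1554004) (nat_lit 0x4000300020003000200010000000000000000000000010000) (nat_lit 1) (nat_lit 2) (.split (nat_lit 0xc) (nat_lit 9) (.split (nat_lit 0xc) (nat_lit 0xb) (.split (nat_lit 0xb) (nat_lit 0xa) (.leaf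 (.cons (nat_lit 0x15401) (nat_lit 0x200030004000300000000000000000001) (.cons (nat_lit 0x1500005) (nat_lit 0x1000200030000000000000000000000000000000000040003) .nil)) (.cons (nat_lit 0x1111111000001) (nat_lit 0x100010) (nat_lit 0xe) (nat_lit 0x5674023000001) (.cons (nat_lit 0x1111100000001) (nat_lit 0x10000010) (nat_lit 4) (nat_lit 0x3452100000000) .nil))) (.non (nat_lit 0) (nat_lit 5) (nat_lit 0x2980004) (nat_lit 0x2000300040001000000000000000000000000000000020000))) (.non (nat_lit 0) (nat_lit 5) (nat_lit 0x1a50000) (nat_lit 0x3000200010002000100000000000000000000000000000000))) (.non (nat_lit 0) (nat_lit 5) (nat_lit 0x2a50000) (nat_lit 0x3000200010004000200000000000000000000000000000000)))))))) (.split (nat_lit 0xc) (nat_lit 9) (.sup (nat_lit 0x30007000b0010000d00000000000000000000) (nat_lit 0x2000300040000000000000000000000010002000300040001)) (.non (nat_lit 1) (nat_lit 5) (nat_lit 0x1050001) (nat_lit 0x1000000000001000100000000000000000000000000000001)))) (.non (nat_lit 0) (nat_lit 5) (nat_lit 0x1500000)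 (nat_lit 0x1000100010000000000000000000000000000000000000000))) (.non (nat_lit 0) (nat_lit 5) (nat_lit 0x1555014) (nat_lit 0x5000400030003000600040002000000000000000100020000))) (.non (nat_lit 0) (nat_lit 5) (nat_lit 0x1555014) (nat_lit 0x5000400030002000400060003000000000000000100020000))) (.non (nat_lit 0) (nat_lit 7) (nat_lit 0x1501400) (nat_lit 0x3000200010000000000000004000300000000000000000000))) (.non (nat_lit 0) (nat_lit 7) (nat_lit 0x1501400) (nat_lit 0x3000200010000000000000003000400000000000000000000))) (.non (nat_lit 0) (nat_lit 5) (nat_lit 0x1500154) (nat_lit 0x1000100010000000000000000000000010001000100010000)))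

noncomputable def t1537_151 : Tr := (.split (nat_lit 0xb) (nat_lit 9) (.ex (nat_lit 0xa) (.ex (nat_lit 0xb) t1537_148 (.split (nat_lit 0xc) (nat_lit 1) (.split (nat_lit 0xc) (nat_lit 2) (.split (nat_lit 0xc) (nat_lit 3) t1537_150 (.non (nat_lit 0) (nat_lit 5) (nat_lit 0x1500054) (nat_lit 0x1000100010000000000000000000000000001000100010000))) (.non (nat_lit 0) (nat_lit 5) (nat_lit 0x1500014) (nat_lit 0x1000100010000000000000000000000000000000100010000))) (.non (nat_lit 0) (nat_lit 5) (nat_lit 0x1500004) (nat_lit 0x1000100010000000000000000000000000000000000010000)))) (.split (nat_lit 0xc) (nat_lit 1) (.split (nat_lit 0xc) (nat_lit 2) (.split (nat_lit 0xc) (nat_lit 3) (.split (nat_lit 0xc) (nat_lit 4) (.split (nat_lit 0xc) (nat_lit 5) (.split (nat_lit 0xc) (nat_lit 6) (.split (nat_lit 0xc) (nat_lit 7) (.split (nat_lit 0xc) (nat_lit 8) (.split (nat_lit 0xc) (nat_lit 9) (.split (nat_lit 0xc) (nat_lit 0xb) (.split (nat_lit 0xc) (nat_lit 0) (.sup (nat_lit 0x30007000b0010000d00000000000000000000) (nat_lit 0x3000300050000000000000000000000010003000400050001))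 (.sup (nat_lit 0x40007000c0010000d00000000000000000000) (nat_lit 0x2000200040000000000000000000000010002000300040001))) (.non (nat_lit 0) (nat_lit 5) (nat_lit 0x1500000) (nat_lit 0x1000100010000000000000000000000000000000000000000))) (.non (nat_lit 0) (nat_lit 5) (nat_lit 0x1555014) (nat_lit 0x5000300060004000300020001000000000000000200040000))) (.non (nat_lit 0) (nat_lit 5) (nat_lit 0x1554004) (nat_lit 0x2000100020001000200010000000000000000000000010000))) (.non (nat_lit 0) (nat_lit 5) (nat_lit 0x1515004) (nat_lit 0x2000100020000000100020001000000000000000000010000))) (.non (nat_lit 0) (nat_lit 5) (nat_lit 0x1555014) (nat_lit 0x5000300060001000200030004000000000000000200040000))) (.non (nat_lit 0) (nat_lit 7) (nat_lit 0x1501400) (nat_lit 0x3000100020000000000000003000400000000000000000000))) (.non (nat_lit 0) (nat_lit 5) (nat_lit 0x1100154) (nat_lit 0x1000000010000000000000000000000010001000100010000))) (.non (nat_lit 0) (nat_lit 5) (nat_lit 0x1100054) (nat_lit 0x1000000010000000000000000000000000001000100010000)))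 (.non (nat_lit 0) (nat_lit 5) (nat_lit 0x1100014) (nat_lit 0x1000000010000000000000000000000000000000100010000))) (.non (nat_lit 0) (nat_lit 5) (nat_lit 0x1100004) (nat_lit 0x1000000010000000000000000000000000000000000010000)))) (.st (nat_lit 2) (nat_lit 0) (nat_lit 5) (nat_lit 0x550154) (nat_lit 0x300040002000100000000000000020004000600050000) (nat_lit 1) (nat_lit 3) (.st (nat_lit 9) (nat_lit 0) (nat_lit 5) (nat_lit 0x555004) (nat_lit 0x300020004000300020001000000000000000000010000) (nat_lit 1) (nat_lit 2) (.st (nat_lit 0xa) (nat_lit 0) (nat_lit 5) (nat_lit 0x555014) (nat_lit 0x500060004000300020001000000000000000200040000) (nat_lit 1) (nat_lit 3) (.st (nat_lit 0xb) (nat_lit 0) (nat_lit 5) (nat_lit 0x554014) (nat_lit 0x400030003000200010000000000000000000100020000) (nat_lit 1) (nat_lit 2) (.split (nat_lit 0xb) (nat_lit 9) (.split (nat_lit 0xb) (nat_lit 0xa) (.leaf (.cons (nat_lit 0x15401) (nat_lit 0x200030004000300000000000000000001) (.cons (nat_lit 0x540005) (nat_lit 0x200030001000000000000000000000000000000040003)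 .nil)) (.cons (nat_lit 0x111111000001) (nat_lit 0x100010) (nat_lit 0xd) (nat_lit 0x564023000001) (.cons (nat_lit 0x111110000001) (nat_lit 0x1000010) (nat_lit 9) (nat_lit 0x453020000001) .nil))) (.non (nat_lit 0) (nat_lit 5) (nat_lit 0x9a0004) (nat_lit 0x300040002000100000000000000000000000000020000))) (.non (nat_lit 0) (nat_lit 5) (nat_lit 0xa54000) (nat_lit 0x200010003000200010000000000000000000000000000))))))))

noncomputable def t1537_152 : Tr := (.split (nat_lit 8) (nat_lit 0) (.split (nat_lit 9) (nat_lit 8) (.pd (.cons (nat_lit 0) (nat_lit 7) (nat_lit 0) (nat_lit 0x18805532110) (nat_lit 0xf423ff423fb71ae00000f423f54591f423fb71aea2c285b8d400000) (.cons (nat_lit 0) (nat_lit 8) (nat_lit 0) (nat_lit 0x19065532110) (nat_lit 0xf423ff423f00000f423fb71ae1f156f423fb71aea2c285b8d400000) (.cons (nat_lit 0) (nat_lit 9) (nat_lit 0) (nat_lit 0x10765532110) (nat_lit 0xf423f00000f423fb71aea2c2804737f423fb71aea2c285b8d400000) (.cons (nat_lit 1) (nat_lit 7) (nat_lit 0) (nat_lit 0xa8005532200) (nat_lit 0xf423ff423fb71ae00000f423f54591f423fb71aea2c2800000a2c28)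 (.cons (nat_lit 1) (nat_lit 8) (nat_lit 0) (nat_lit 0xa9065532200) (nat_lit 0xf423ff423f00000f423fb71ae1f156f423fb71aea2c2800000f423f) .nil))))) (.ex (nat_lit 0xa) (.pd (.cons (nat_lit 2) (nat_lit 8) (nat_lit 0) (nat_lit 0x19065533000) (nat_lit 0xf423ff423f00000f423fb71ae1f156f423fb71ae00000b71ae1f156) .nil) t1537_147) (.split (nat_lit 0xb) (nat_lit 1) (.split (nat_lit 0xb) (nat_lit 2) (.split (nat_lit 0xb) (nat_lit 3) (.split (nat_lit 0xb) (nat_lit 4) (.split (nat_lit 0xb) (nat_lit 5) (.split (nat_lit 0xb) (nat_lit 6) (.split (nat_lit 0xb) (nat_lit 7) (.split (nat_lit 0xb) (nat_lit 8) (.split (nat_lit 0xb) (nat_lit 0) t1537_151 (.split (nat_lit 0xb) (nat_lit 9) (.sup (nat_lit 0x30007000b0010000d00000000000000000000) (nat_lit 0x200030000000000000000000000010002000300040001)) (.non (nat_lit 1) (nat_lit 5) (nat_lit 0x450001) (nat_lit 0x100000001000100000000000000000000000000000001)))) (.non (nat_lit 0) (nat_lit 5) (nat_lit 0x555054) (nat_lit 0x500040003000600040002000000000001000200030000))) (.non (nat_lit 0)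 (nat_lit 5) (nat_lit 0x555054) (nat_lit 0x500040002000400060003000000000001000200030000))) (.non (nat_lit 0) (nat_lit 7) (nat_lit 0x501404) (nat_lit 0x300020000000000000004000300000000000000010000))) (.non (nat_lit 0) (nat_lit 7) (nat_lit 0x501404) (nat_lit 0x300020000000000000003000400000000000000010000))) (.non (nat_lit 0) (nat_lit 5) (nat_lit 0x500154) (nat_lit 0x100010000000000000000000000010001000100010000))) (.non (nat_lit 0) (nat_lit 5) (nat_lit 0x500054) (nat_lit 0x100010000000000000000000000000001000100010000))) (.non (nat_lit 0) (nat_lit 5) (nat_lit 0x500014) (nat_lit 0x100010000000000000000000000000000000100010000))) (.non (nat_lit 0) (nat_lit 5) (nat_lit 0x500004) (nat_lit 0x100010000000000000000000000000000000000010000))))) (.non (nat_lit 1) (nat_lit 5) (nat_lit 0x94001) (nat_lit 0x1000200010000000000000000000000000001))) (.non (nat_lit 1) (nat_lit 5) (nat_lit 0xa8001) (nat_lit 0x1000200010000000000000000000000000002)))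

noncomputable def t1537_153 : Tr := (.split (nat_lit 0xb) (nat_lit 2) (.split (nat_lit 0xb) (nat_lit 3) (.split (nat_lit 0xb) (nat_lit 4) (.split (nat_lit 0xb) (nat_lit 5) (.split (nat_lit 0xb) (nat_lit 6) (.split (nat_lit 0xb) (nat_lit 7) (.split (nat_lit 0xb) (nat_lit 8) (.split (nat_lit 0xb) (nat_lit 0) (.split (nat_lit 0xb) (nat_lit 9) (.sup (nat_lit 0x30007000b0010000d00000000000000000000) (nat_lit 0x200040000000000000000000000040006000600060001)) (.st (nat_lit 9) (nat_lit 0) (nat_lit 5) (nat_lit 0x555004) (nat_lit 0x300020004000300020001000000000000000000010000) (nat_lit 1) (nat_lit 2) (.st (nat_lit 0xa) (nat_lit 0) (nat_lit 5) (nat_lit 0x555014) (nat_lit 0x500060004000300020001000000000000000200040000) (nat_lit 1) (nat_lit 3) (.st (nat_lit 0xb) (nat_lit 0) (nat_lit 5) (nat_lit 0x554014) (nat_lit 0x400030003000200010000000000000000000100020000) (nat_lit 1) (nat_lit 2) (.split (nat_lit 0xb) (nat_lit 9) (.split (nat_lit 0xb) (nat_lit 0xa) (.leaf (.cons (nat_lit 0x15401) (nat_lit 0x200030004000300000000000000000001)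 (.cons (nat_lit 0x540005) (nat_lit 0x200030001000000000000000000000000000000040003) .nil)) (.cons (nat_lit 0x111111000001) (nat_lit 0x100010) (nat_lit 0xd) (nat_lit 0x564023000001) (.cons (nat_lit 0x111110000001) (nat_lit 0x1000010) (nat_lit 9) (nat_lit 0x453020000001) .nil))) (.non (nat_lit 0) (nat_lit 5) (nat_lit 0x9a0004) (nat_lit 0x300040002000100000000000000000000000000020000))) (.non (nat_lit 0) (nat_lit 5) (nat_lit 0xa54000) (nat_lit 0x200010003000200010000000000000000000000000000))))))) (.split (nat_lit 0xb) (nat_lit 9) (.sup (nat_lit 0x30007000b0010000d00000000000000000000) (nat_lit 0x200030000000000000000000000030004000400040001)) (.non (nat_lit 1) (nat_lit 5) (nat_lit 0x450001) (nat_lit 0x100000001000100000000000000000000000000000001)))) (.non (nat_lit 0) (nat_lit 5) (nat_lit 0x555054) (nat_lit 0x500040003000600040002000000000001000200030000))) (.non (nat_lit 0) (nat_lit 5) (nat_lit 0x555054) (nat_lit 0x500040002000400060003000000000001000200030000))) (.non (nat_lit 0) (nat_lit 7) (nat_lit 0x501404)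 (nat_lit 0x300020000000000000004000300000000000000010000))) (.non (nat_lit 0) (nat_lit 7) (nat_lit 0x501404) (nat_lit 0x300020000000000000003000400000000000000010000))) (.non (nat_lit 0) (nat_lit 5) (nat_lit 0xa00250) (nat_lit 0x200010000000000000000000000030004000200000000))) (.non (nat_lit 0) (nat_lit 5) (nat_lit 0x400250) (nat_lit 0x100000000000000000000000000010002000100000000))) (.non (nat_lit 0) (nat_lit 5) (nat_lit 0x500014) (nat_lit 0x100010000000000000000000000000000000100010000)))

noncomputable def t1537_154 : Tr := (.st (nat_lit 3) (nat_lit 0) (nat_lit 5) (nat_lit 0x250) (nat_lit 0x10002000100000000) (nat_lit 1) (nat_lit 1) (.st (nat_lit 4) (nat_lit 0) (nat_lit 5) (nat_lit 0x254) (nat_lit 0x20003000200010000) (nat_lit 2) (nat_lit 1) (.ex (nat_lit 0xa) (.pd (.cons (nat_lit 2) (nat_lit 8) (nat_lit 0) (nat_lit 0x19065533000) (nat_lit 0xf423ff423f00000f423fb71ae1f156f423f7a11e00000b71ae1f156) .nil) (.ex (nat_lit 9) (.leaf (.cons (nat_lit 0x15401) (nat_lit 0x200030004000300000000000000000001) (.cons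 (nat_lit 0x110005) (nat_lit 0x10000000100000000000000000000000000020002) (.cons (nat_lit 0x100015) (nat_lit 0x10000000000000000000000000000000100020002) .nil))) (.cons (nat_lit 0x1111000001) (nat_lit 0x100010) (nat_lit 8) (nat_lit 0x2034000001) (.cons (nat_lit 0x1110000001) (nat_lit 0x1000010) (nat_lit 7) (nat_lit 0x3020000001) .nil))) (.split (nat_lit 0xb) (nat_lit 0) (.split (nat_lit 0xb) (nat_lit 1) (.split (nat_lit 0xb) (nat_lit 2) (.split (nat_lit 0xb) (nat_lit 3) (.split (nat_lit 0xb) (nat_lit 4) (.split (nat_lit 0xb) (nat_lit 5) (.split (nat_lit 0xb) (nat_lit 6) (.split (nat_lit 0xb) (nat_lit 7) (.split (nat_lit 0xb) (nat_lit 8) (.split (nat_lit 0xb) (nat_lit 0xa) (.sup (nat_lit 0x2000000040007000b0010000d00000000000000000000) (nat_lit 0x30000000000000000000000050007000700070002)) (.non (nat_lit 2) (nat_lit 8) (nat_lit 0x540005) (nat_lit 0x200030001000000000000000000000000000000040003))) (.non (nat_lit 0) (nat_lit 5) (nat_lit 0x450000) (nat_lit 0x100000001000100000000000000000000000000000000))) (.non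 (nat_lit 0) (nat_lit 5) (nat_lit 0x454000) (nat_lit 0x100000001000100010000000000000000000000000000))) (.non (nat_lit 0) (nat_lit 5) (nat_lit 0x455000) (nat_lit 0x100000001000100010001000000000000000000000000))) (.non (nat_lit 0) (nat_lit 7) (nat_lit 0x451400) (nat_lit 0x300000002000100000003000400000000000000000000))) (.non (nat_lit 0) (nat_lit 5) (nat_lit 0x880250) (nat_lit 0x200000001000000000000000000030004000200000000))) (.non (nat_lit 0) (nat_lit 5) (nat_lit 0x400250) (nat_lit 0x100000000000000000000000000010002000100000000))) (.non (nat_lit 0) (nat_lit 5) (nat_lit 0x555054) (nat_lit 0x500020004000300020001000000000003000600040000))) (.non (nat_lit 0) (nat_lit 5) (nat_lit 0x555054) (nat_lit 0x500030004000300020001000000000002000400060000))) (.non (nat_lit 1) (nat_lit 5) (nat_lit 0x450001) (nat_lit 0x100000001000100000000000000000000000000000001))))) (.split (nat_lit 0xb) (nat_lit 1) t1537_153 (.non (nat_lit 0) (nat_lit 5) (nat_lit 0x500004) (nat_lit 0x100010000000000000000000000000000000000010000))))))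

noncomputable def t1537_155 : Tr := (.ex (nat_lit 6) (.split (nat_lit 0xa) (nat_lit 1) (.split (nat_lit 4) (nat_lit 3) t1537_152 (.split (nat_lit 4) (nat_lit 3) (.split (nat_lit 8) (nat_lit 0) (.split (nat_lit 9) (nat_lit 8) (.pd (.cons (nat_lit 0) (nat_lit 7) (nat_lit 0) (nat_lit 0x18805532110) (nat_lit 0xf423ff423fb71ae00000f423f54591f423f7a11e7a11c3d08900000) (.cons (nat_lit 0) (nat_lit 8) (nat_lit 0) (nat_lit 0x19065532110) (nat_lit 0xf423ff423f00000f423fb71ae1f156f423f7a11e7a11c3d08900000) (.cons (nat_lit 0) (nat_lit 9) (nat_lit 0) (nat_lit 0x10765532110) (nat_lit 0xf423f00000f423fb71aea2c2804737f423f7a11e7a11c3d08900000) (.cons (nat_lit 1) (nat_lit 7) (nat_lit 0) (nat_lit 0xa8005532200) (nat_lit 0xf423ff423fb71ae00000f423f54591f423f7a11e7a11c00000a2c28) (.cons (nat_lit 1) (nat_lit 8) (nat_lit 0) (nat_lit 0xa9065532200) (nat_lit 0xf423ff423f00000f423fb71ae1f156f423f7a11e7a11c00000f423f) .nil))))) (.st (nat_lit 2) (nat_lit 0) (nat_lit 5) (nat_lit 0x254) (nat_lit 0x10002000200010000) (nat_lit 1) (nat_lit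 1) t1537_154)) (.non (nat_lit 1) (nat_lit 5) (nat_lit 0x94001) (nat_lit 0x1000200010000000000000000000000000001))) (.non (nat_lit 1) (nat_lit 5) (nat_lit 0xa8001) (nat_lit 0x1000200010000000000000000000000000002))) (.non (nat_lit 0) (nat_lit 5) (nat_lit 0x100154) (nat_lit 0x10000000000000000000000030004000300020000)))) (.split (nat_lit 0xa) (nat_lit 1) (.split (nat_lit 9) (nat_lit 8) (.split (nat_lit 8) (nat_lit 0) (.sup (nat_lit 0x30007000b0010000d00000000000000000000) (nat_lit 0x40000000000000000000000010003000400050001)) (.non (nat_lit 1) (nat_lit 5) (nat_lit 0xa8001) (nat_lit 0x1000200010000000000000000000000000002))) (.non (nat_lit 1) (nat_lit 5) (nat_lit 0x94001) (nat_lit 0x1000200010000000000000000000000000001))) (.non (nat_lit 0) (nat_lit 5) (nat_lit 0x100154) (nat_lit 0x30000000000000000000000010002000300040000)))) (.split (nat_lit 0xb) (nat_lit 0) (.split (nat_lit 0xb) (nat_lit 1) (.split (nat_lit 0xb) (nat_lit 2) (.split (nat_lit 0xb) (nat_lit 3) (.split (nat_lit 0xb) (nat_lit 7) (.split (nat_lit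 0xb) (nat_lit 8) (.split (nat_lit 0xb) (nat_lit 9) (.split (nat_lit 0xb) (nat_lit 4) (.split (nat_lit 0xb) (nat_lit 5) (.split (nat_lit 0xb) (nat_lit 0xa) (.unj (nat_lit 0x100015) (nat_lit 0x10000000000000000000000000000000100020002) (nat_lit 0x405400) (nat_lit 0x100000000000000010002000200000000000000000000)) (.unj (nat_lit 0x405400) (nat_lit 0x100000000000000010002000200000000000000000000) (nat_lit 0x155) (nat_lit 0x10002000300040003))) (.split (nat_lit 0xb) (nat_lit 0xa) (.unj (nat_lit 0x401400) (nat_lit 0x100000000000000000001000100000000000000000000) (nat_lit 0x10015) (nat_lit 0x100000000000000000000000100020002)) (.unj (nat_lit 0x401400) (nat_lit 0x100000000000000000001000100000000000000000000) (nat_lit 0x10015) (nat_lit 0x100000000000000000000000100020002)))) (.split (nat_lit 0xb) (nat_lit 0xa) (.split (nat_lit 0xb) (nat_lit 5) (.unj (nat_lit 0x100015) (nat_lit 0x10000000000000000000000000000000100020002) (nat_lit 0x405400) (nat_lit 0x100000000000000010002000200000000000000000000)) (.unj (nat_lit 0x401400)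 (nat_lit 0x100000000000000000001000100000000000000000000) (nat_lit 0x10015) (nat_lit 0x100000000000000000000000100020002))) (.non (nat_lit 0) (nat_lit 5) (nat_lit 0x515150) (nat_lit 0x400020000000100020003000000030002000100000000)))) (.non (nat_lit 0) (nat_lit 5) (nat_lit 0x455000) (nat_lit 0x100000001000100010001000000000000000000000000))) (.non (nat_lit 0) (nat_lit 5) (nat_lit 0x415000) (nat_lit 0x100000000000100010001000000000000000000000000))) (.non (nat_lit 0) (nat_lit 5) (nat_lit 0x405000) (nat_lit 0x100000000000000010001000000000000000000000000))) (.non (nat_lit 0) (nat_lit 5) (nat_lit 0x505154) (nat_lit 0x300010000000000010002000000020004000300020000))) (.non (nat_lit 0) (nat_lit 5) (nat_lit 0x555054) (nat_lit 0x500020001000200030004000000000003000600040000))) (.star (nat_lit 0xb) (nat_lit 1) (nat_lit 6))) (.star (nat_lit 0xb) (nat_lit 0) (nat_lit 6))))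

noncomputable def t1537_156 : Tr := (.split (nat_lit 0xb) (nat_lit 3) (.split (nat_lit 0xb) (nat_lit 4) (.split (nat_lit 0xb) (nat_lit 6) (.split (nat_lit 0xb) (nat_lit 9) (.split (nat_lit 0xb) (nat_lit 0xa) (.unj (nat_lit 0x100015) (nat_lit 0x10000000000000000000000000000000100020002) (nat_lit 0x405400) (nat_lit 0x100000000000000010002000200000000000000000000)) (.unj (nat_lit 0x405400) (nat_lit 0x100000000000000010002000200000000000000000000) (nat_lit 0x155) (nat_lit 0x10002000300040003))) (.split (nat_lit 0xb) (nat_lit 0xa) (.unj (nat_lit 0x100015) (nat_lit 0x10000000000000000000000000000000100020002) (nat_lit 0x405400) (nat_lit 0x100000000000000010002000200000000000000000000)) (.non (nat_lit 0) (nat_lit 6) (nat_lit 0x554414) (nat_lit 0x400030003000200010000000200000000000100020000)))) (.split (nat_lit 0xb) (nat_lit 9) (.split (nat_lit 0xb) (nat_lit 0xa) (.unj (nat_lit 0x401400) (nat_lit 0x100000000000000000001000100000000000000000000) (nat_lit 0x10015) (nat_lit 0x100000000000000000000000100020002)) (.unj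 (nat_lit 0x401400) (nat_lit 0x100000000000000000001000100000000000000000000) (nat_lit 0x10015) (nat_lit 0x100000000000000000000000100020002))) (.non (nat_lit 0) (nat_lit 5) (nat_lit 0x455000) (nat_lit 0x100000001000100010001000000000000000000000000)))) (.split (nat_lit 0xb) (nat_lit 9) (.split (nat_lit 0xb) (nat_lit 0xa) (.split (nat_lit 0xb) (nat_lit 6) (.unj (nat_lit 0x100015) (nat_lit 0x10000000000000000000000000000000100020002) (nat_lit 0x405400) (nat_lit 0x100000000000000010002000200000000000000000000)) (.unj (nat_lit 0x401400) (nat_lit 0x100000000000000000001000100000000000000000000) (nat_lit 0x10015) (nat_lit 0x100000000000000000000000100020002))) (.non (nat_lit 0) (nat_lit 5) (nat_lit 0x500154) (nat_lit 0x100010000000000000000000000010001000100010000))) (.non (nat_lit 0) (nat_lit 6) (nat_lit 0x454550) (nat_lit 0x400000003000200010000000200030002000100000000)))) (.split (nat_lit 0xb) (nat_lit 4) (.split (nat_lit 0xb) (nat_lit 6) (.split (nat_lit 0xb) (nat_lit 9) (.split (nat_lit 0xb) (nat_lit 0xa) (.unj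 (nat_lit 0x100015) (nat_lit 0x10000000000000000000000000000000100020002) (nat_lit 0x405400) (nat_lit 0x100000000000000010002000200000000000000000000)) (.non (nat_lit 0) (nat_lit 5) (nat_lit 0x500054) (nat_lit 0x100010000000000000000000000000001000100010000))) (.non (nat_lit 0) (nat_lit 5) (nat_lit 0x550154) (nat_lit 0x300010002000100000000000000020004000300020000))) (.non (nat_lit 0) (nat_lit 5) (nat_lit 0x505154) (nat_lit 0x300010000000000010002000000020004000300020000))) (.non (nat_lit 0) (nat_lit 5) (nat_lit 0x400140) (nat_lit 0x100000000000000000000000000010001000000000000))))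

noncomputable def t1537_157 : Tr := (.ex (nat_lit 1) (.ex (nat_lit 5) t1537_155 (.split (nat_lit 0xb) (nat_lit 0) (.split (nat_lit 0xb) (nat_lit 1) (.split (nat_lit 0xb) (nat_lit 2) (.split (nat_lit 0xb) (nat_lit 7) (.split (nat_lit 0xb) (nat_lit 8) t1537_156 (.non (nat_lit 1) (nat_lit 5) (nat_lit 0x454001) (nat_lit 0x100000001000200010000000000000000000000000001))) (.non (nat_lit 1) (nat_lit 5) (nat_lit 0x455001) (nat_lit 0x100000001000200020001000000000000000000000001))) (.non (nat_lit 0) (nat_lit 6) (nat_lit 0x500554) (nat_lit 0x200010000000000000000000100010002000300020000))) (.star (nat_lit 0xb) (nat_lit 1) (nat_lit 5))) (.star (nat_lit 0xb) (nat_lit 0) (nat_lit 5)))) (.split (nat_lit 0xb) (nat_lit 2) (.split (nat_lit 0xb) (nat_lit 3) (.split (nat_lit 0xb) (nat_lit 4) (.split (nat_lit 0xb) (nat_lit 5) (.split (nat_lit 0xb) (nat_lit 6) (.split (nat_lit 0xb) (nat_lit 7) (.split (nat_lit 0xb) (nat_lit 8) (.split (nat_lit 0xb) (nat_lit 9) (.split (nat_lit 0xb) (nat_lit 0xa) (.split (nat_lit 0xb) (nat_lit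 0) (.split (nat_lit 0xb) (nat_lit 1) (.split (nat_lit 0xa) (nat_lit 1) (.split (nat_lit 9) (nat_lit 8) (.split (nat_lit 8) (nat_lit 0) (.sup (nat_lit 0x30007000b0010000d00000000000000000000) (nat_lit 0x300030000000000000000000000010003000400050001)) (.non (nat_lit 1) (nat_lit 5) (nat_lit 0xa8001) (nat_lit 0x1000200010000000000000000000000000002))) (.non (nat_lit 1) (nat_lit 5) (nat_lit 0x94001) (nat_lit 0x1000200010000000000000000000000000001))) (.non (nat_lit 0) (nat_lit 5) (nat_lit 0x600014) (nat_lit 0x100010000000000000000000000000000000100020000))) (.non (nat_lit 0) (nat_lit 5) (nat_lit 0x900014) (nat_lit 0x100010000000000000000000000000000000100020000))) (.sup (nat_lit 0x7000e00170020001a00000000000000000000) (nat_lit 0x400040000000000000000000000020004000600080001))) (.non (nat_lit 0) (nat_lit 5) (nat_lit 0x500004) (nat_lit 0x100010000000000000000000000000000000000010000))) (.non (nat_lit 0) (nat_lit 5) (nat_lit 0x555054) (nat_lit 0x500030004000300020001000000000002000400060000))) (.non (nat_lit 0) (nat_lit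 5) (nat_lit 0x554014) (nat_lit 0x200010001000200010000000000000000000100020000))) (.non (nat_lit 0) (nat_lit 5) (nat_lit 0x515014) (nat_lit 0x200010000000100020001000000000000000100020000))) (.star (nat_lit 0xb) (nat_lit 1) (nat_lit 6))) (.star (nat_lit 0xb) (nat_lit 1) (nat_lit 5))) (.non (nat_lit 0) (nat_lit 5) (nat_lit 0x400154) (nat_lit 0x100000000000000000000000000010001000100010000))) (.non (nat_lit 0) (nat_lit 5) (nat_lit 0x400054) (nat_lit 0x100000000000000000000000000000001000100010000))) (.non (nat_lit 0) (nat_lit 5) (nat_lit 0x400014) (nat_lit 0x100000000000000000000000000000000000100010000))))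

noncomputable def t1537_158 : Tr := (.split (nat_lit 4) (nat_lit 3) (.split (nat_lit 9) (nat_lit 8) (.split (nat_lit 0xa) (nat_lit 9) (.split (nat_lit 8) (nat_lit 0) (.pd (.cons (nat_lit 0) (nat_lit 7) (nat_lit 0) (nat_lit 0x1a905532110) (nat_lit 0xa2c28b71aef423f00000f423f54591f423fb71aea2c283d08b00000) (.cons (nat_lit 0) (nat_lit 8) (nat_lit 0) (nat_lit 0x1a065532110) (nat_lit 0xb71aef423f00000f423fb71ae1f156f423fb71aea2c284734e00000) (.cons (nat_lit 0) (nat_lit 9) (nat_lit 0) (nat_lit 0x10765532110) (nat_lit 0xf423f00000f423fb71aea2c2804737f423fb71aea2c285b8d400000) (.cons (nat_lit 1) (nat_lit 7) (nat_lit 0) (nat_lit 0x98005532200) (nat_lit 0xf423fb71aea2c2800000f423f54591f423fb71aea2c280000098965) (.cons (nat_lit 1) (nat_lit 8) (nat_lit 0) (nat_lit 0x99065532200) (nat_lit 0xf423fb71ae00000f423fb71ae1f156f423fb71aea2c2800000f423f) (.cons (nat_lit 2) (nat_lit 8) (nat_lit 0) (nat_lit 0x1a065533000) (nat_lit 0xb71aef423f00000f423fb71ae1f156f423fb71ae00000a2c2804737) .nil)))))) (.leaf (.cons (nat_lit 0x15401)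 (nat_lit 0x200030004000300000000000000000001) (.cons (nat_lit 0x110005) (nat_lit 0x10000000100000000000000000000000000020002) (.cons (nat_lit 0x100015) (nat_lit 0x10000000000000000000000000000000100020002) .nil))) (.cons (nat_lit 0x11111000001) (nat_lit 0x100010) (nat_lit 0xc) (nat_lit 0x54023000001) .nil))) (.non (nat_lit 1) (nat_lit 5) (nat_lit 0xa8001) (nat_lit 0x1000200010000000000000000000000000002))) (.non (nat_lit 0) (nat_lit 5) (nat_lit 0x1a8004) (nat_lit 0x40003000200010000000000000000000000020000))) (.non (nat_lit 0) (nat_lit 5) (nat_lit 0x295000) (nat_lit 0x10002000300020001000000000000000000000000))) (.split (nat_lit 4) (nat_lit 3) (.split (nat_lit 9) (nat_lit 8) (.split (nat_lit 0xa) (nat_lit 9) (.split (nat_lit 8) (nat_lit 0) (.pd (.cons (nat_lit 0) (nat_lit 7) (nat_lit 0) (nat_lit 0x1a905532110) (nat_lit 0xa2c28b71aef423f00000f423f54591f423f7a11e7a11c1e84000000) (.cons (nat_lit 0) (nat_lit 8) (nat_lit 0) (nat_lit 0x1a065532110) (nat_lit 0xb71aef423f00000f423fb71ae1f156f423f7a11e7a11c28b0300000)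 (.cons (nat_lit 0) (nat_lit 9) (nat_lit 0) (nat_lit 0x10765532110) (nat_lit 0xf423f00000f423fb71aea2c2804737f423f7a11e7a11c3d08900000) (.cons (nat_lit 1) (nat_lit 7) (nat_lit 0) (nat_lit 0x98005532200) (nat_lit 0xf423fb71aea2c2800000f423f54591f423f7a11e7a11c0000098965) (.cons (nat_lit 1) (nat_lit 8) (nat_lit 0) (nat_lit 0x99065532200) (nat_lit 0xf423fb71ae00000f423fb71ae1f156f423f7a11e7a11c00000f423f) (.cons (nat_lit 2) (nat_lit 8) (nat_lit 0) (nat_lit 0x1a065533000) (nat_lit 0xb71aef423f00000f423fb71ae1f156f423f7a11e00000a2c2804737) .nil)))))) (.leaf (.cons (nat_lit 0x15401) (nat_lit 0x200030004000300000000000000000001) (.cons (nat_lit 0x110005) (nat_lit 0x10000000100000000000000000000000000020002) (.cons (nat_lit 0x100015) (nat_lit 0x10000000000000000000000000000000100020002) .nil))) (.cons (nat_lit 0x11111000001) (nat_lit 0x100010) (nat_lit 0xc) (nat_lit 0x54023000001) .nil))) (.non (nat_lit 1) (nat_lit 5) (nat_lit 0xa8001) (nat_lit 0x1000200010000000000000000000000000002))) (.non (nat_lit 0) (nat_lit 5)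 (nat_lit 0x1a8004) (nat_lit 0x40003000200010000000000000000000000020000))) (.non (nat_lit 0) (nat_lit 5) (nat_lit 0x295000) (nat_lit 0x10002000300020001000000000000000000000000))) (.non (nat_lit 0) (nat_lit 5) (nat_lit 0x100154) (nat_lit 0x10000000000000000000000030004000300020000))))

noncomputable def t1537_159 : Tr := (.ex (nat_lit 5) (.ex (nat_lit 6) (.split (nat_lit 0xa) (nat_lit 1) t1537_158 (.non (nat_lit 0) (nat_lit 5) (nat_lit 0x2a0014) (nat_lit 0x30002000100000000000000000000000200040000))) (.split (nat_lit 0xb) (nat_lit 0) (.split (nat_lit 0xb) (nat_lit 1) (.split (nat_lit 0xb) (nat_lit 2) (.split (nat_lit 0xb) (nat_lit 3) (.split (nat_lit 0xb) (nat_lit 4) (.split (nat_lit 0xb) (nat_lit 7) (.split (nat_lit 0xb) (nat_lit 8) (.split (nat_lit 0xb) (nat_lit 9) (.split (nat_lit 0xb) (nat_lit 0xa) (.split (nat_lit 0xb) (nat_lit 5) (.unj (nat_lit 0x100015) (nat_lit 0x10000000000000000000000000000000100020002) (nat_lit 0x405400) (nat_lit 0x100000000000000010002000200000000000000000000)) (.unj (nat_lit 0x401400)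 (nat_lit 0x100000000000000000001000100000000000000000000) (nat_lit 0x10015) (nat_lit 0x100000000000000000000000100020002))) (.non (nat_lit 0) (nat_lit 5) (nat_lit 0x555000) (nat_lit 0x100010001000100010001000000000000000000000000))) (.non (nat_lit 0) (nat_lit 5) (nat_lit 0x455000) (nat_lit 0x100000001000100010001000000000000000000000000))) (.non (nat_lit 0) (nat_lit 5) (nat_lit 0x415000) (nat_lit 0x100000000000100010001000000000000000000000000))) (.non (nat_lit 0) (nat_lit 5) (nat_lit 0x405000) (nat_lit 0x100000000000000010001000000000000000000000000))) (.non (nat_lit 0) (nat_lit 5) (nat_lit 0x555154) (nat_lit 0x100010001000100010001000000010001000100010000))) (.non (nat_lit 0) (nat_lit 5) (nat_lit 0x555054) (nat_lit 0x100010001000100010001000000000001000100010000))) (.non (nat_lit 0) (nat_lit 5) (nat_lit 0x555014) (nat_lit 0x100010001000100010001000000000000000100010000))) (.star (nat_lit 0xb) (nat_lit 1) (nat_lit 6))) (.star (nat_lit 0xb) (nat_lit 0) (nat_lit 6)))) (.split (nat_lit 0xb) (nat_lit 0) (.split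 (nat_lit 0xb) (nat_lit 1) (.split (nat_lit 0xb) (nat_lit 2) (.split (nat_lit 0xb) (nat_lit 3) (.split (nat_lit 0xb) (nat_lit 7) (.split (nat_lit 0xb) (nat_lit 8) (.split (nat_lit 0xb) (nat_lit 9) (.split (nat_lit 0xb) (nat_lit 0xa) (.split (nat_lit 0xb) (nat_lit 4) (.split (nat_lit 0xb) (nat_lit 6) (.unj (nat_lit 0x100015) (nat_lit 0x10000000000000000000000000000000100020002) (nat_lit 0x405400) (nat_lit 0x100000000000000010002000200000000000000000000)) (.unj (nat_lit 0x401400) (nat_lit 0x100000000000000000001000100000000000000000000) (nat_lit 0x10015) (nat_lit 0x100000000000000000000000100020002))) (.split (nat_lit 0xb) (nat_lit 6) (.unj (nat_lit 0x100015) (nat_lit 0x10000000000000000000000000000000100020002) (nat_lit 0x405400) (nat_lit 0x100000000000000010002000200000000000000000000)) (.non (nat_lit 0) (nat_lit 5) (nat_lit 0x555154) (nat_lit 0x100010001000100010001000000010001000100010000)))) (.non (nat_lit 0) (nat_lit 5) (nat_lit 0x554054) (nat_lit 0x200040003000200010000000000000001000200030000))) (.non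 (nat_lit 0) (nat_lit 5) (nat_lit 0x555014) (nat_lit 0x200030004000300020001000000000000000100020000))) (.non (nat_lit 0) (nat_lit 5) (nat_lit 0x555054) (nat_lit 0x300040005000600040002000000000001000200030000))) (.non (nat_lit 1) (nat_lit 5) (nat_lit 0x455001) (nat_lit 0x100000001000200020001000000000000000000000001))) (.non (nat_lit 0) (nat_lit 6) (nat_lit 0x550554) (nat_lit 0x400030002000100000000000200030006000500040000))) (.non (nat_lit 0) (nat_lit 5) (nat_lit 0x554154) (nat_lit 0x300040003000200010000000000020004000600050000))) (.star (nat_lit 0xb) (nat_lit 1) (nat_lit 5))) (.star (nat_lit 0xb) (nat_lit 0) (nat_lit 5))))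

noncomputable def t1537_160 : Tr := (.split (nat_lit 0xc) (nat_lit 0) (.split (nat_lit 0xc) (nat_lit 2) (.split (nat_lit 0xc) (nat_lit 3) (.split (nat_lit 0xc) (nat_lit 4) (.split (nat_lit 0xc) (nat_lit 5) (.split (nat_lit 0xc) (nat_lit 6) (.split (nat_lit 0xc) (nat_lit 7) (.split (nat_lit 0xc) (nat_lit 8) (.split (nat_lit 0xc) (nat_lit 9) (.split (nat_lit 0xc) (nat_lit 0xa) (.split (nat_lit 0xc) (nat_lit 1) (.st (nat_lit 0xb) (nat_lit 1) (nat_lit 5) (nat_lit 0x1554001) (nat_lit 0x1000200020001000200010000000000000000000000000002) (nat_lit 1) (nat_lit 1) (.st (nat_lit 0xc) (nat_lit 1) (nat_lit 5) (nat_lit 0x1555001) (nat_lit 0x2000300040003000600040002000000000000000000000005) (nat_lit 1) (nat_lit 1) (.split (nat_lit 0xc) (nat_lit 0xb) (.split (nat_lit 0xb) (nat_lit 0xa) (.leaf (.cons (nat_lit 0x15401) (nat_lit 0x200030004000300000000000000000001) (.cons (nat_lit 0x1500005) (nat_lit 0x1000200030000000000000000000000000000000000030004) .nil)) (.cons (nat_lit 0x1111111000001) (nat_lit 0x100010) (nat_lit 0xe)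 (nat_lit 0x7651023000004) (.cons (nat_lit 0x1111110000001) (nat_lit 0x1000010) (nat_lit 0xa) (nat_lit 0x6542010000003) .nil))) (.non (nat_lit 1) (nat_lit 5) (nat_lit 0x2910001) (nat_lit 0x1000200030000000100000000000000000000000000000002))) (.non (nat_lit 1) (nat_lit 5) (nat_lit 0x2554001) (nat_lit 0x1000200020001000200010000000000000000000000000002))))) (.sup (nat_lit 0x30007000b0010000d00000000000000000000) (nat_lit 0x4000300020000000000000000000000010002000300040001))) (.non (nat_lit 0) (nat_lit 5) (nat_lit 0x1500000) (nat_lit 0x1000100010000000000000000000000000000000000000000))) (.non (nat_lit 1) (nat_lit 5) (nat_lit 0x1550001) (nat_lit 0x1000100010001000100000000000000000000000000000001))) (.non (nat_lit 1) (nat_lit 5) (nat_lit 0x1510001) (nat_lit 0x1000100010000000100000000000000000000000000000001))) (.non (nat_lit 1) (nat_lit 5) (nat_lit 0x1514001) (nat_lit 0x1000100010000000100010000000000000000000000000001))) (.non (nat_lit 1) (nat_lit 5) (nat_lit 0x1515001) (nat_lit 0x1000100010000000100010001000000000000000000000001)))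 (.non (nat_lit 0) (nat_lit 7) (nat_lit 0x1501400) (nat_lit 0x3000200010000000000000003000400000000000000000000))) (.non (nat_lit 1) (nat_lit 5) (nat_lit 0x1555101) (nat_lit 0x2000300040003000600040002000000010000000000000005))) (.non (nat_lit 1) (nat_lit 5) (nat_lit 0x1555041) (nat_lit 0x2000300040003000600040002000000000001000000000005))) (.non (nat_lit 1) (nat_lit 5) (nat_lit 0x1555011) (nat_lit 0x2000300040003000600040002000000000000000100000005))) (.non (nat_lit 1) (nat_lit 5) (nat_lit 0x1500001) (nat_lit 0x1000100010000000000000000000000000000000000000001)))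

noncomputable def t1537_161 : Tr := (.ex (nat_lit 0xa) (.pd (.cons (nat_lit 2) (nat_lit 8) (nat_lit 0) (nat_lit 0x9065533000) (nat_lit 0xf423ff423f00000f423fb71ae1f156f423fb71ae00000f423f17500) .nil) (.leaf (.cons (nat_lit 0x15401) (nat_lit 0x200030004000300000000000000000001) (.cons (nat_lit 0x110005) (nat_lit 0x10000000100000000000000000000000000020002) (.cons (nat_lit 0x100015) (nat_lit 0x10000000000000000000000000000000100020002) .nil))) (.cons (nat_lit 0x11100000001) (nat_lit 0x10000010) (nat_lit 2) (nat_lit 0x30100000002) .nil))) (.split (nat_lit 0xb) (nat_lit 0) (.split (nat_lit 0xb) (nat_lit 2) (.split (nat_lit 0xb) (nat_lit 3) (.split (nat_lit 0xb) (nat_lit 4) (.split (nat_lit 0xb) (nat_lit 5) (.split (nat_lit 0xb) (nat_lit 6) (.split (nat_lit 0xb) (nat_lit 7) (.split (nat_lit 0xb) (nat_lit 8) (.split (nat_lit 0xb) (nat_lit 9) (.split (nat_lit 0xb) (nat_lit 1) (.st (nat_lit 0xa) (nat_lit 1) (nat_lit 5) (nat_lit 0x554001) (nat_lit 0x100020001000200010000000000000000000000000002) (nat_lit 1) (nat_lit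 1) (.ex (nat_lit 0xb) (.split (nat_lit 0xb) (nat_lit 0xa) (.pd (.cons (nat_lit 2) (nat_lit 8) (nat_lit 0) (nat_lit 0xa09065533000) (nat_lit 0xf423fb71aef423f00000f423fb71ae1f156f423fb71ae00000f423f02f7a) .nil) (.leaf (.cons (nat_lit 0x15401) (nat_lit 0x200030004000300000000000000000001) (.cons (nat_lit 0x110005) (nat_lit 0x10000000100000000000000000000000000020002) (.cons (nat_lit 0x100015) (nat_lit 0x10000000000000000000000000000000100020002) .nil))) (.cons (nat_lit 0x111100000001) (nat_lit 0x10000010) (nat_lit 3) (nat_lit 0x430100000002) .nil))) (.non (nat_lit 1) (nat_lit 5) (nat_lit 0x954001) (nat_lit 0x100020001000200010000000000000000000000000002))) t1537_160)) (.sup (nat_lit 0x30007000b0010000d00000000000000000000) (nat_lit 0x300020000000000000000000000010002000300040001))) (.non (nat_lit 1) (nat_lit 5) (nat_lit 0x550001) (nat_lit 0x100010001000100000000000000000000000000000001))) (.non (nat_lit 1) (nat_lit 5) (nat_lit 0x510001) (nat_lit 0x100010000000100000000000000000000000000000001))) (.non (nat_lit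 1) (nat_lit 5) (nat_lit 0x514001) (nat_lit 0x100010000000100010000000000000000000000000001))) (.non (nat_lit 1) (nat_lit 5) (nat_lit 0x515001) (nat_lit 0x100010000000100010001000000000000000000000001))) (.non (nat_lit 0) (nat_lit 8) (nat_lit 0x405400) (nat_lit 0x100000000000000010002000200000000000000000000))) (.non (nat_lit 1) (nat_lit 5) (nat_lit 0x555141) (nat_lit 0x300040003000600040002000000020001000000000005))) (.non (nat_lit 1) (nat_lit 5) (nat_lit 0x555141) (nat_lit 0x300040003000600040002000000010002000000000005))) (.non (nat_lit 1) (nat_lit 5) (nat_lit 0x555051) (nat_lit 0x300040003000600040002000000000001000200000005))) (.non (nat_lit 1) (nat_lit 5) (nat_lit 0x500001) (nat_lit 0x100010000000000000000000000000000000000000001))))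

noncomputable def t1537_162 : Tr := (.split (nat_lit 0xc) (nat_lit 0) (.split (nat_lit 0xc) (nat_lit 2) (.split (nat_lit 0xc) (nat_lit 3) (.split (nat_lit 0xc) (nat_lit 4) (.split (nat_lit 0xc) (nat_lit 5) (.split (nat_lit 0xc) (nat_lit 6) (.split (nat_lit 0xc) (nat_lit 7) (.split (nat_lit 0xc) (nat_lit 8) (.split (nat_lit 0xc) (nat_lit 9) (.split (nat_lit 0xc) (nat_lit 0xa) (.split (nat_lit 0xc) (nat_lit 1) (.st (nat_lit 0xb) (nat_lit 1) (nat_lit 5) (nat_lit 0x1554001) (nat_lit 0x1000200020001000200010000000000000000000000000002) (nat_lit 1) (nat_lit 1) (.st (nat_lit 0xc) (nat_lit 1) (nat_lit 5) (nat_lit 0x1555001) (nat_lit 0x2000300040003000600040002000000000000000000000005) (nat_lit 1) (nat_lit 1) (.split (nat_lit 0xc) (nat_lit 0xb) (.split (nat_lit 0xb) (nat_lit 0xa) (.leaf (.cons (nat_lit 0x15401) (nat_lit 0x200030004000300000000000000000001) (.cons (nat_lit 0x1500005) (nat_lit 0x1000200030000000000000000000000000000000000030004) .nil)) (.cons (nat_lit 0x1111111000001) (nat_lit 0x100010) (nat_lit 0xe)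 (nat_lit 0x7651023000004) (.cons (nat_lit 0x1111110000001) (nat_lit 0x1000010) (nat_lit 0xa) (nat_lit 0x6542010000003) .nil))) (.non (nat_lit 1) (nat_lit 5) (nat_lit 0x2910001) (nat_lit 0x1000200030000000100000000000000000000000000000002))) (.non (nat_lit 1) (nat_lit 5) (nat_lit 0x2554001) (nat_lit 0x1000200020001000200010000000000000000000000000002))))) (.sup (nat_lit 0x40007000b0010000d00000000000000000000) (nat_lit 0x3000200020000000000000000000000030004000400040001))) (.non (nat_lit 0) (nat_lit 5) (nat_lit 0x1500000) (nat_lit 0x1000100010000000000000000000000000000000000000000))) (.non (nat_lit 1) (nat_lit 5) (nat_lit 0x1550001) (nat_lit 0x1000100010001000100000000000000000000000000000001))) (.non (nat_lit 1) (nat_lit 5) (nat_lit 0x1510001) (nat_lit 0x1000100010000000100000000000000000000000000000001))) (.non (nat_lit 1) (nat_lit 5) (nat_lit 0x1514001) (nat_lit 0x1000100010000000100010000000000000000000000000001))) (.non (nat_lit 1) (nat_lit 5) (nat_lit 0x1515001) (nat_lit 0x1000100010000000100010001000000000000000000000001)))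 (.non (nat_lit 0) (nat_lit 7) (nat_lit 0x1501400) (nat_lit 0x3000200010000000000000003000400000000000000000000))) (.non (nat_lit 0) (nat_lit 5) (nat_lit 0x2800250) (nat_lit 0x2000100000000000000000000000000030004000200000000))) (.non (nat_lit 0) (nat_lit 5) (nat_lit 0x1000250) (nat_lit 0x1000000000000000000000000000000010002000100000000))) (.non (nat_lit 0) (nat_lit 5) (nat_lit 0x1000254) (nat_lit 0x1000000000000000000000000000000010002000200010000))) (.non (nat_lit 1) (nat_lit 5) (nat_lit 0x1500001) (nat_lit 0x1000100010000000000000000000000000000000000000001)))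

noncomputable def t1537_163 : Tr := (.ex (nat_lit 0xa) (.pd (.cons (nat_lit 2) (nat_lit 8) (nat_lit 0) (nat_lit 0x9065533000) (nat_lit 0xf423ff423f00000f423fb71ae1f156f423f7a11e00000f423f17500) .nil) (.leaf (.cons (nat_lit 0x15401) (nat_lit 0x200030004000300000000000000000001) (.cons (nat_lit 0x110005) (nat_lit 0x10000000100000000000000000000000000020002) (.cons (nat_lit 0x100015) (nat_lit 0x10000000000000000000000000000000100020002) .nil))) (.cons (nat_lit 0x11100000001) (nat_lit 0x10000010) (nat_lit 2) (nat_lit 0x30100000002) .nil))) (.split (nat_lit 0xb) (nat_lit 0) (.split (nat_lit 0xb) (nat_lit 2) (.split (nat_lit 0xb) (nat_lit 3) (.split (nat_lit 0xb) (nat_lit 4) (.split (nat_lit 0xb) (nat_lit 5) (.split (nat_lit 0xb) (nat_lit 6) (.split (nat_lit 0xb) (nat_lit 7) (.split (nat_lit 0xb) (nat_lit 8) (.split (nat_lit 0xb) (nat_lit 9) (.split (nat_lit 0xb) (nat_lit 1) (.st (nat_lit 0xa) (nat_lit 1) (nat_lit 5) (nat_lit 0x554001) (nat_lit 0x100020001000200010000000000000000000000000002) (nat_lit 1) (nat_lit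 1) (.ex (nat_lit 0xb) (.split (nat_lit 0xb) (nat_lit 0xa) (.pd (.cons (nat_lit 2) (nat_lit 8) (nat_lit 0) (nat_lit 0xa09065533000) (nat_lit 0xf423fb71aef423f00000f423fb71ae1f156f423f7a11e00000f423f02f7a) .nil) (.leaf (.cons (nat_lit 0x15401) (nat_lit 0x200030004000300000000000000000001) (.cons (nat_lit 0x110005) (nat_lit 0x10000000100000000000000000000000000020002) (.cons (nat_lit 0x100015) (nat_lit 0x10000000000000000000000000000000100020002) .nil))) (.cons (nat_lit 0x111100000001) (nat_lit 0x10000010) (nat_lit 3) (nat_lit 0x430100000002) .nil))) (.non (nat_lit 1) (nat_lit 5) (nat_lit 0x954001) (nat_lit 0x100020001000200010000000000000000000000000002))) t1537_162)) (.sup (nat_lit 0x30007000b0010000d00000000000000000000) (nat_lit 0x300020000000000000000000000030004000400040001))) (.non (nat_lit 1) (nat_lit 5) (nat_lit 0x550001) (nat_lit 0x100010001000100000000000000000000000000000001))) (.non (nat_lit 1) (nat_lit 5) (nat_lit 0x510001) (nat_lit 0x100010000000100000000000000000000000000000001))) (.non (nat_lit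 1) (nat_lit 5) (nat_lit 0x514001) (nat_lit 0x100010000000100010000000000000000000000000001))) (.non (nat_lit 1) (nat_lit 5) (nat_lit 0x515001) (nat_lit 0x100010000000100010001000000000000000000000001))) (.non (nat_lit 0) (nat_lit 8) (nat_lit 0x405400) (nat_lit 0x100000000000000010002000200000000000000000000))) (.non (nat_lit 0) (nat_lit 5) (nat_lit 0xa00250) (nat_lit 0x200010000000000000000000000030004000200000000))) (.non (nat_lit 0) (nat_lit 5) (nat_lit 0x400250) (nat_lit 0x100000000000000000000000000010002000100000000))) (.non (nat_lit 0) (nat_lit 5) (nat_lit 0x400254) (nat_lit 0x100000000000000000000000000010002000200010000))) (.non (nat_lit 1) (nat_lit 5) (nat_lit 0x500001) (nat_lit 0x100010000000000000000000000000000000000000001))))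

noncomputable def t1537_164 : Tr := (.split (nat_lit 4) (nat_lit 3) (.split (nat_lit 8) (nat_lit 0) (.split (nat_lit 0xa) (nat_lit 0) (.split (nat_lit 9) (nat_lit 8) (.pd (.cons (nat_lit 0) (nat_lit 7) (nat_lit 0) (nat_lit 0xa8805532110) (nat_lit 0xf423ff423fb71ae00000f423f54591f423fb71aea2c289896500000) (.cons (nat_lit 0) (nat_lit 8) (nat_lit 0) (nat_lit 0xa9065532110) (nat_lit 0xf423ff423f00000f423fb71ae1f156f423fb71aea2c289896500000) (.cons (nat_lit 0) (nat_lit 9) (nat_lit 0) (nat_lit 0xa0765532110) (nat_lit 0xf423f00000f423fb71aea2c2804737f423fb71aea2c289896500000) (.cons (nat_lit 1) (nat_lit 7) (nat_lit 0) (nat_lit 0x8005532200) (nat_lit 0xf423ff423fb71ae00000f423f54591f423fb71aea2c280000065b97) (.cons (nat_lit 1) (nat_lit 8) (nat_lit 0) (nat_lit 0x9065532200) (nat_lit 0xf423ff423f00000f423fb71ae1f156f423fb71aea2c2800000b71ae) .nil))))) t1537_161) (.non (nat_lit 1) (nat_lit 5) (nat_lit 0x94001) (nat_lit 0x1000200010000000000000000000000000001))) (.non (nat_lit 1) (nat_lit 5) (nat_lit 0x254001) (nat_lit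 0x10001000200010000000000000000000000000002))) (.non (nat_lit 1) (nat_lit 5) (nat_lit 0xa8001) (nat_lit 0x1000200010000000000000000000000000002))) (.split (nat_lit 4) (nat_lit 3) (.split (nat_lit 8) (nat_lit 0) (.split (nat_lit 0xa) (nat_lit 0) (.split (nat_lit 9) (nat_lit 8) (.pd (.cons (nat_lit 0) (nat_lit 7) (nat_lit 0) (nat_lit 0xa8805532110) (nat_lit 0xf423ff423fb71ae00000f423f54591f423f7a11e7a11c7a11a00000) (.cons (nat_lit 0) (nat_lit 8) (nat_lit 0) (nat_lit 0xa9065532110) (nat_lit 0xf423ff423f00000f423fb71ae1f156f423f7a11e7a11c7a11a00000) (.cons (nat_lit 0) (nat_lit 9) (nat_lit 0) (nat_lit 0xa0765532110) (nat_lit 0xf423f00000f423fb71aea2c2804737f423f7a11e7a11c7a11a00000) (.cons (nat_lit 1) (nat_lit 7) (nat_lit 0) (nat_lit 0x8005532200) (nat_lit 0xf423ff423fb71ae00000f423f54591f423f7a11e7a11c0000065b97) (.cons (nat_lit 1) (nat_lit 8) (nat_lit 0) (nat_lit 0x9065532200) (nat_lit 0xf423ff423f00000f423fb71ae1f156f423f7a11e7a11c00000b71ae) .nil))))) (.st (nat_lit 2) (nat_lit 0) (nat_lit 5) (nat_lit 0x254)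 (nat_lit 0x10002000200010000) (nat_lit 1) (nat_lit 1) (.st (nat_lit 3) (nat_lit 0) (nat_lit 5) (nat_lit 0x250) (nat_lit 0x10002000100000000) (nat_lit 1) (nat_lit 1) (.st (nat_lit 4) (nat_lit 0) (nat_lit 5) (nat_lit 0x254) (nat_lit 0x20003000200010000) (nat_lit 2) (nat_lit 1) t1537_163)))) (.non (nat_lit 1) (nat_lit 5) (nat_lit 0x94001) (nat_lit 0x1000200010000000000000000000000000001))) (.non (nat_lit 1) (nat_lit 5) (nat_lit 0x254001) (nat_lit 0x10001000200010000000000000000000000000002))) (.non (nat_lit 1) (nat_lit 5) (nat_lit 0xa8001) (nat_lit 0x1000200010000000000000000000000000002))) (.split (nat_lit 0xa) (nat_lit 0) (.split (nat_lit 9) (nat_lit 8) (.split (nat_lit 8) (nat_lit 0) (.sup (nat_lit 0x8000a000700040001) (nat_lit 0x200040007000a000800000000000000000000)) (.non (nat_lit 1) (nat_lit 5) (nat_lit 0xa8001) (nat_lit 0x1000200010000000000000000000000000002))) (.non (nat_lit 1) (nat_lit 5) (nat_lit 0x94001) (nat_lit 0x1000200010000000000000000000000000001))) (.non (nat_lit 1) (nat_lit 5) (nat_lit 0x254001)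 (nat_lit 0x10001000200010000000000000000000000000002)))))

noncomputable def t1537_165 : Tr := (.split (nat_lit 0xb) (nat_lit 9) (.split (nat_lit 0xb) (nat_lit 2) (.split (nat_lit 0xb) (nat_lit 3) (.split (nat_lit 0xb) (nat_lit 4) (.split (nat_lit 0xb) (nat_lit 6) (.split (nat_lit 0xb) (nat_lit 0xa) (.unj (nat_lit 0x100015) (nat_lit 0x10000000000000000000000000000000100020002) (nat_lit 0x405400) (nat_lit 0x100000000000000010002000200000000000000000000)) (.unj (nat_lit 0x405400) (nat_lit 0x100000000000000010002000200000000000000000000) (nat_lit 0x155) (nat_lit 0x10002000300040003))) (.split (nat_lit 0xb) (nat_lit 0xa) (.unj (nat_lit 0x401400) (nat_lit 0x100000000000000000001000100000000000000000000) (nat_lit 0x10015) (nat_lit 0x100000000000000000000000100020002)) (.non (nat_lit 1) (nat_lit 5) (nat_lit 0x515001) (nat_lit 0x100010000000100010001000000000000000000000001)))) (.split (nat_lit 0xb) (nat_lit 6) (.split (nat_lit 0xb) (nat_lit 0xa) (.unj (nat_lit 0x100015) (nat_lit 0x10000000000000000000000000000000100020002)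 (nat_lit 0x405400) (nat_lit 0x100000000000000010002000200000000000000000000)) (.non (nat_lit 1) (nat_lit 5) (nat_lit 0x555141) (nat_lit 0x300040003000600040002000000020001000000000005))) (.non (nat_lit 1) (nat_lit 5) (nat_lit 0x555141) (nat_lit 0x300020003000600050004000000020001000000000004)))) (.split (nat_lit 0xb) (nat_lit 4) (.split (nat_lit 0xb) (nat_lit 6) (.split (nat_lit 0xb) (nat_lit 0xa) (.unj (nat_lit 0x100015) (nat_lit 0x10000000000000000000000000000000100020002) (nat_lit 0x405400) (nat_lit 0x100000000000000010002000200000000000000000000)) (.non (nat_lit 0) (nat_lit 6) (nat_lit 0x500550) (nat_lit 0x200010000000000000000000100010002000100000000))) (.non (nat_lit 0) (nat_lit 5) (nat_lit 0x455154) (nat_lit 0x500000001000200030004000000030006000400020000))) (.non (nat_lit 0) (nat_lit 5) (nat_lit 0x400140) (nat_lit 0x100000000000000000000000000010001000000000000)))) (.split (nat_lit 0xb) (nat_lit 3) (.split (nat_lit 0xb) (nat_lit 4) (.split (nat_lit 0xb) (nat_lit 6) (.split (nat_lit 0xb) (nat_lit 0xa)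 (.sup (nat_lit 0x30000000100000000000000000000000000040005) (nat_lit 0x300000000000000010005000500000000000000000000)) (.non (nat_lit 0) (nat_lit 6) (nat_lit 0x500454) (nat_lit 0x200010000000000000000000100000001000200010000))) (.non (nat_lit 0) (nat_lit 5) (nat_lit 0x455154) (nat_lit 0x500000001000200030004000000020004000600030000))) (.non (nat_lit 0) (nat_lit 5) (nat_lit 0x400150) (nat_lit 0x100000000000000000000000000010001000100000000))) (.non (nat_lit 0) (nat_lit 5) (nat_lit 0x400050) (nat_lit 0x100000000000000000000000000000001000100000000)))) (.non (nat_lit 1) (nat_lit 5) (nat_lit 0x555001) (nat_lit 0x100010002000300020001000000000000000000000002)))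

noncomputable def t1537_166 : Tr := (.split (nat_lit 0xd) (nat_lit 1) (.split (nat_lit 0xd) (nat_lit 2) (.split (nat_lit 0xd) (nat_lit 3) (.split (nat_lit 0xd) (nat_lit 4) (.split (nat_lit 0xd) (nat_lit 5) (.split (nat_lit 0xd) (nat_lit 6) (.split (nat_lit 0xd) (nat_lit 7) (.split (nat_lit 0xd) (nat_lit 8) (.split (nat_lit 0xd) (nat_lit 9) (.split (nat_lit 0xd) (nat_lit 0xa) (.split (nat_lit 0xd) (nat_lit 0xb) (.st (nat_lit 0xc) (nat_lit 1) (nat_lit 5) (nat_lit 0x5154001) (nat_lit 0x10002000000020001000200010000000000000000000000000002) (nat_lit 1) (nat_lit 1) (.st (nat_lit 0xd) (nat_lit 1) (nat_lit 5) (nat_lit 0x5155001) (nat_lit 0x20003000000040003000600040002000000000000000000000005) (nat_lit 1) (nat_lit 1) (.split (nat_lit 0xd) (nat_lit 0xc) (.leaf (.cons (nat_lit 0x15401) (nat_lit 0x200030004000300000000000000000001) (.cons (nat_lit 0x5100005) (nat_lit 0x10002000000030000000000000000000000000000000000030004) .nil)) (.cons (nat_lit 0x11011111000001) (nat_lit 0x100010) (nat_lit 0xe) (nat_lit 0x76051023000004)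 (.cons (nat_lit 0x11011110000001) (nat_lit 0x1000010) (nat_lit 0xa) (nat_lit 0x65042010000003) .nil))) (.non (nat_lit 1) (nat_lit 5) (nat_lit 0x9154001) (nat_lit 0x10002000000020001000200010000000000000000000000000002))))) (.non (nat_lit 1) (nat_lit 5) (nat_lit 0x5555001) (nat_lit 0x20003000100040003000600040002000000000000000000000005))) (.non (nat_lit 0) (nat_lit 5) (nat_lit 0x5100000) (nat_lit 0x10001000000010000000000000000000000000000000000000000))) (.non (nat_lit 1) (nat_lit 5) (nat_lit 0x5150001) (nat_lit 0x10001000000010001000100000000000000000000000000000001))) (.non (nat_lit 1) (nat_lit 5) (nat_lit 0x5110001) (nat_lit 0x10001000000010000000100000000000000000000000000000001))) (.non (nat_lit 1) (nat_lit 5) (nat_lit 0x5114001) (nat_lit 0x10001000000010000000100010000000000000000000000000001))) (.non (nat_lit 1) (nat_lit 5) (nat_lit 0x5115001) (nat_lit 0x10001000000010000000100010001000000000000000000000001))) (.non (nat_lit 0) (nat_lit 7) (nat_lit 0x5101400) (nat_lit 0x30002000000010000000000000003000400000000000000000000)))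 (.non (nat_lit 1) (nat_lit 5) (nat_lit 0x5155101) (nat_lit 0x20003000000040003000600040002000000010000000000000005))) (.non (nat_lit 0) (nat_lit 5) (nat_lit 0x5500154) (nat_lit 0x30002000100010000000000000000000000020004000300020000))) (.non (nat_lit 0) (nat_lit 5) (nat_lit 0x5400154) (nat_lit 0x20001000100000000000000000000000000010002000300020000))) (.non (nat_lit 0) (nat_lit 5) (nat_lit 0x5500154) (nat_lit 0x30002000200010000000000000000000000010002000300040000)))

noncomputable def t1537_167 : Tr := (.split (nat_lit 0xc) (nat_lit 0) (.split (nat_lit 0xc) (nat_lit 2) (.split (nat_lit 0xc) (nat_lit 3) (.split (nat_lit 0xc) (nat_lit 4) (.split (nat_lit 0xc) (nat_lit 5) (.split (nat_lit 0xc) (nat_lit 6) (.split (nat_lit 0xc) (nat_lit 7) (.split (nat_lit 0xc) (nat_lit 8) (.split (nat_lit 0xc) (nat_lit 9) (.split (nat_lit 0xc) (nat_lit 1) (.split (nat_lit 0xc) (nat_lit 0xb) (.st (nat_lit 0xa) (nat_lit 1) (nat_lit 5) (nat_lit 0x1154001) (nat_lit 0x1000000020001000200010000000000000000000000000002) (nat_lit 1)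 (nat_lit 1) (.split (nat_lit 0xc) (nat_lit 0xa) (.ex (nat_lit 0xc) (.leaf (.cons (nat_lit 0x15401) (nat_lit 0x200030004000300000000000000000001) (.cons (nat_lit 0x500005) (nat_lit 0x100010000000000000000000000000000000000020002) .nil)) (.cons (nat_lit 0x1011100000001) (nat_lit 0x10000010) (nat_lit 3) (nat_lit 0x4030100000002) .nil)) (.split (nat_lit 0xd) (nat_lit 0) t1537_166 (.non (nat_lit 1) (nat_lit 5) (nat_lit 0x5100001) (nat_lit 0x10001000000010000000000000000000000000000000000000001)))) (.non (nat_lit 1) (nat_lit 5) (nat_lit 0x2154001) (nat_lit 0x1000000020001000200010000000000000000000000000002)))) (.sup (nat_lit 0x30007000b0010000d00000000000000000000) (nat_lit 0x3000400020000000000000000000000010002000300040001))) (.split (nat_lit 0xc) (nat_lit 0xb) (.sup (nat_lit 0x7000f00170020001a00000000000000000000) (nat_lit 0x5000400030000000000000000000000020004000600080001)) (.non (nat_lit 0) (nat_lit 5) (nat_lit 0x1400004) (nat_lit 0x1000100000000000000000000000000000000000000010000)))) (.non (nat_lit 1) (nat_lit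 5) (nat_lit 0x1150001) (nat_lit 0x1000000010001000100000000000000000000000000000001))) (.non (nat_lit 1) (nat_lit 5) (nat_lit 0x1110001) (nat_lit 0x1000000010000000100000000000000000000000000000001))) (.non (nat_lit 1) (nat_lit 5) (nat_lit 0x1114001) (nat_lit 0x1000000010000000100010000000000000000000000000001))) (.non (nat_lit 1) (nat_lit 5) (nat_lit 0x1115001) (nat_lit 0x1000000010000000100010001000000000000000000000001))) (.non (nat_lit 0) (nat_lit 8) (nat_lit 0x1005400) (nat_lit 0x1000000000000000000010002000200000000000000000000))) (.non (nat_lit 1) (nat_lit 5) (nat_lit 0x1155141) (nat_lit 0x3000000040003000600040002000000020001000000000005))) (.non (nat_lit 1) (nat_lit 5) (nat_lit 0x1155141) (nat_lit 0x3000000040003000600040002000000010002000000000005))) (.non (nat_lit 0) (nat_lit 5) (nat_lit 0x1500154) (nat_lit 0x2000100010000000000000000000000010002000300020000))) (.non (nat_lit 1) (nat_lit 5) (nat_lit 0x1100001) (nat_lit 0x1000000010000000000000000000000000000000000000001)))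

noncomputable def t1537_168 : Tr := (.split (nat_lit 0xb) (nat_lit 1) (.split (nat_lit 4) (nat_lit 3) (.split (nat_lit 8) (nat_lit 0) (.split (nat_lit 0xa) (nat_lit 0) (.split (nat_lit 9) (nat_lit 8) (.pd (.cons (nat_lit 0) (nat_lit 7) (nat_lit 0) (nat_lit 0x1a8805532110) (nat_lit 0xf423ff423ff423fb71ae00000f423f54591f423fb71aea2c285b8d400000) (.cons (nat_lit 0) (nat_lit 8) (nat_lit 0) (nat_lit 0x1a9065532110) (nat_lit 0xf423ff423ff423f00000f423fb71ae1f156f423fb71aea2c285b8d400000) (.cons (nat_lit 0) (nat_lit 9) (nat_lit 0) (nat_lit 0x1a0765532110) (nat_lit 0xf423ff423f00000f423fb71aea2c2804737f423fb71aea2c285b8d400000) (.cons (nat_lit 1) (nat_lit 7) (nat_lit 0) (nat_lit 0xb08005532200) (nat_lit 0xf423ff423ff423fb71ae00000f423f54591f423fb71aea2c280000065b97) (.cons (nat_lit 1) (nat_lit 8) (nat_lit 0) (nat_lit 0xb09065532200) (nat_lit 0xf423ff423ff423f00000f423fb71ae1f156f423fb71aea2c2800000b71ae) .nil))))) (.ex (nat_lit 0xa) (.leaf (.cons (nat_lit 0x15401) (nat_lit 0x200030004000300000000000000000001) (.cons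 (nat_lit 0x500005) (nat_lit 0x100010000000000000000000000000000000000020002) .nil)) (.cons (nat_lit 0x11100000001) (nat_lit 0x10000010) (nat_lit 2) (nat_lit 0x30100000002) .nil)) t1537_167)) (.non (nat_lit 1) (nat_lit 5) (nat_lit 0x94001) (nat_lit 0x1000200010000000000000000000000000001))) (.non (nat_lit 1) (nat_lit 5) (nat_lit 0x254001) (nat_lit 0x10001000200010000000000000000000000000002))) (.non (nat_lit 1) (nat_lit 5) (nat_lit 0xa8001) (nat_lit 0x1000200010000000000000000000000000002))) (.split (nat_lit 0xa) (nat_lit 0) (.split (nat_lit 9) (nat_lit 8) (.split (nat_lit 8) (nat_lit 0) (.sup (nat_lit 0x6000d00160020001a00000000000000000000) (nat_lit 0x50002000000000000000000000008000b000b000b0003)) (.non (nat_lit 1) (nat_lit 5) (nat_lit 0xa8001) (nat_lit 0x1000200010000000000000000000000000002))) (.non (nat_lit 1) (nat_lit 5) (nat_lit 0x94001) (nat_lit 0x1000200010000000000000000000000000001))) (.non (nat_lit 1) (nat_lit 5) (nat_lit 0x254001) (nat_lit 0x10001000200010000000000000000000000000002)))) (.split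 (nat_lit 0xb) (nat_lit 1) (.split (nat_lit 0xa) (nat_lit 0) (.split (nat_lit 9) (nat_lit 8) (.split (nat_lit 8) (nat_lit 0) (.sup (nat_lit 0x30007000b0010000d00000000000000000000) (nat_lit 0x400000000000000000000000000010002000400050001)) (.non (nat_lit 1) (nat_lit 5) (nat_lit 0xa8001) (nat_lit 0x1000200010000000000000000000000000002))) (.non (nat_lit 1) (nat_lit 5) (nat_lit 0x94001) (nat_lit 0x1000200010000000000000000000000000001))) (.non (nat_lit 1) (nat_lit 5) (nat_lit 0x254001) (nat_lit 0x10001000200010000000000000000000000000002))) (.non (nat_lit 0) (nat_lit 5) (nat_lit 0x400154) (nat_lit 0x300000000000000000000000000010002000300040000))))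

noncomputable def t1537_169 : Tr := (.split (nat_lit 0xc) (nat_lit 3) (.split (nat_lit 0xc) (nat_lit 4) (.split (nat_lit 0xc) (nat_lit 6) (.split (nat_lit 0xc) (nat_lit 0xa) (.split (nat_lit 0xc) (nat_lit 0xb) (.unj (nat_lit 0x100015) (nat_lit 0x10000000000000000000000000000000100020002) (nat_lit 0x1005400) (nat_lit 0x1000000000000000000010002000200000000000000000000)) (.unj (nat_lit 0x100015) (nat_lit 0x10000000000000000000000000000000100020002) (nat_lit 0x1005400) (nat_lit 0x1000000000000000000010002000200000000000000000000))) (.split (nat_lit 0xc) (nat_lit 0xb) (.unj (nat_lit 0x400015) (nat_lit 0x100000000000000000000000000000000000100020002) (nat_lit 0x1005400) (nat_lit 0x1000000000000000000010002000200000000000000000000)) (.non (nat_lit 1) (nat_lit 6) (nat_lit 0x1554401) (nat_lit 0x2000100020001000200010000000100000000000000000002)))) (.split (nat_lit 0xc) (nat_lit 0xa) (.split (nat_lit 0xc) (nat_lit 0xb) (.unj (nat_lit 0x1001400) (nat_lit 0x1000000000000000000000001000100000000000000000000) (nat_lit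 0x10015) (nat_lit 0x100000000000000000000000100020002)) (.unj (nat_lit 0x1001400) (nat_lit 0x1000000000000000000000001000100000000000000000000) (nat_lit 0x10015) (nat_lit 0x100000000000000000000000100020002))) (.non (nat_lit 1) (nat_lit 5) (nat_lit 0x1115001) (nat_lit 0x1000000010000000100010001000000000000000000000001)))) (.split (nat_lit 0xc) (nat_lit 6) (.split (nat_lit 0xc) (nat_lit 0xa) (.split (nat_lit 0xc) (nat_lit 0xb) (.unj (nat_lit 0x100015) (nat_lit 0x10000000000000000000000000000000100020002) (nat_lit 0x1005400) (nat_lit 0x1000000000000000000010002000200000000000000000000)) (.non (nat_lit 0) (nat_lit 5) (nat_lit 0x1400154) (nat_lit 0x1000100000000000000000000000000010001000100010000))) (.non (nat_lit 1) (nat_lit 5) (nat_lit 0x1155141) (nat_lit 0x3000000040003000600040002000000020001000000000005))) (.non (nat_lit 1) (nat_lit 5) (nat_lit 0x1155141) (nat_lit 0x3000000020003000600050004000000020001000000000004)))) (.split (nat_lit 0xc) (nat_lit 4) (.split (nat_lit 0xc) (nat_lit 6) (.split (nat_lit 0xc)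 (nat_lit 0xa) (.split (nat_lit 0xc) (nat_lit 0xb) (.unj (nat_lit 0x100015) (nat_lit 0x10000000000000000000000000000000100020002) (nat_lit 0x1005400) (nat_lit 0x1000000000000000000010002000200000000000000000000)) (.non (nat_lit 0) (nat_lit 5) (nat_lit 0x1400054) (nat_lit 0x1000100000000000000000000000000000001000100010000))) (.non (nat_lit 0) (nat_lit 6) (nat_lit 0x1100550) (nat_lit 0x2000000010000000000000000000100010002000100000000))) (.non (nat_lit 0) (nat_lit 5) (nat_lit 0x1405154) (nat_lit 0x3000100000000000000010002000000020004000300020000))) (.non (nat_lit 0) (nat_lit 5) (nat_lit 0x1000140) (nat_lit 0x1000000000000000000000000000000010001000000000000))))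

noncomputable def t1537_170 : Tr := (.ex (nat_lit 5) (.ex (nat_lit 6) t1537_168 (.split (nat_lit 0xc) (nat_lit 0) (.split (nat_lit 0xc) (nat_lit 1) (.split (nat_lit 0xc) (nat_lit 2) (.split (nat_lit 0xc) (nat_lit 3) (.split (nat_lit 0xc) (nat_lit 4) (.split (nat_lit 0xc) (nat_lit 7) (.split (nat_lit 0xc) (nat_lit 8) (.split (nat_lit 0xc) (nat_lit 9) (.split (nat_lit 0xc) (nat_lit 0xa) (.split (nat_lit 0xc) (nat_lit 5) (.split (nat_lit 0xc) (nat_lit 0xb) (.unj (nat_lit 0x100015) (nat_lit 0x10000000000000000000000000000000100020002) (nat_lit 0x1005400) (nat_lit 0x1000000000000000000010002000200000000000000000000)) (.unj (nat_lit 0x100015) (nat_lit 0x10000000000000000000000000000000100020002) (nat_lit 0x1005400) (nat_lit 0x1000000000000000000010002000200000000000000000000))) (.split (nat_lit 0xc) (nat_lit 0xb) (.unj (nat_lit 0x1001400) (nat_lit 0x1000000000000000000000001000100000000000000000000) (nat_lit 0x10015) (nat_lit 0x100000000000000000000000100020002)) (.unj (nat_lit 0x1001400) (nat_lit 0x1000000000000000000000001000100000000000000000000)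 (nat_lit 0x10015) (nat_lit 0x100000000000000000000000100020002)))) (.non (nat_lit 1) (nat_lit 5) (nat_lit 0x1115001) (nat_lit 0x1000000010000000100010001000000000000000000000001))) (.non (nat_lit 0) (nat_lit 5) (nat_lit 0x1055000) (nat_lit 0x1000000000001000100010001000000000000000000000000))) (.non (nat_lit 0) (nat_lit 5) (nat_lit 0x1015000) (nat_lit 0x1000000000000000100010001000000000000000000000000))) (.non (nat_lit 0) (nat_lit 5) (nat_lit 0x1005000) (nat_lit 0x1000000000000000000010001000000000000000000000000))) (.non (nat_lit 1) (nat_lit 5) (nat_lit 0x1155141) (nat_lit 0x3000000020003000600050004000000020001000000000004))) (.non (nat_lit 0) (nat_lit 5) (nat_lit 0x1405154) (nat_lit 0x3000100000000000000010002000000020004000300020000))) (.non (nat_lit 0) (nat_lit 5) (nat_lit 0x1455054) (nat_lit 0x5000200000001000200030004000000000003000600040000))) (.star (nat_lit 0xc) (nat_lit 1) (nat_lit 6))) (.star (nat_lit 0xc) (nat_lit 0) (nat_lit 6)))) (.split (nat_lit 0xc) (nat_lit 0) (.split (nat_lit 0xc) (nat_lit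 1) (.split (nat_lit 0xc) (nat_lit 2) (.split (nat_lit 0xc) (nat_lit 7) (.split (nat_lit 0xc) (nat_lit 8) (.split (nat_lit 0xc) (nat_lit 9) t1537_169 (.non (nat_lit 1) (nat_lit 5) (nat_lit 0x1155001) (nat_lit 0x1000000010002000300020001000000000000000000000002))) (.non (nat_lit 1) (nat_lit 5) (nat_lit 0x1054001) (nat_lit 0x1000000000001000200010000000000000000000000000001))) (.non (nat_lit 1) (nat_lit 5) (nat_lit 0x1055001) (nat_lit 0x1000000000001000200020001000000000000000000000001))) (.non (nat_lit 0) (nat_lit 6) (nat_lit 0x1400554) (nat_lit 0x2000100000000000000000000000100010002000300020000))) (.star (nat_lit 0xc) (nat_lit 1) (nat_lit 5))) (.star (nat_lit 0xc) (nat_lit 0) (nat_lit 5))))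

noncomputable def t1537_171 : Tr := (.ex (nat_lit 1) (.ex (nat_lit 5) (.ex (nat_lit 6) t1537_164 (.split (nat_lit 0xb) (nat_lit 0) (.split (nat_lit 0xb) (nat_lit 1) (.split (nat_lit 0xb) (nat_lit 2) (.split (nat_lit 0xb) (nat_lit 3) (.split (nat_lit 0xb) (nat_lit 4) (.split (nat_lit 0xb) (nat_lit 7) (.split (nat_lit 0xb) (nat_lit 8) (.split (nat_lit 0xb) (nat_lit 9) (.split (nat_lit 0xb) (nat_lit 0xa) (.split (nat_lit 0xb) (nat_lit 5) (.unj (nat_lit 0x100015) (nat_lit 0x10000000000000000000000000000000100020002) (nat_lit 0x405400) (nat_lit 0x100000000000000010002000200000000000000000000)) (.unj (nat_lit 0x401400) (nat_lit 0x100000000000000000001000100000000000000000000) (nat_lit 0x10015) (nat_lit 0x100000000000000000000000100020002))) (.non (nat_lit 1) (nat_lit 5) (nat_lit 0x515001) (nat_lit 0x100010000000100010001000000000000000000000001))) (.non (nat_lit 0) (nat_lit 5) (nat_lit 0x455000) (nat_lit 0x100000001000100010001000000000000000000000000))) (.non (nat_lit 0) (nat_lit 5) (nat_lit 0x415000) (nat_lit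 0x100000000000100010001000000000000000000000000))) (.non (nat_lit 0) (nat_lit 5) (nat_lit 0x405000) (nat_lit 0x100000000000000010001000000000000000000000000))) (.non (nat_lit 1) (nat_lit 5) (nat_lit 0x555141) (nat_lit 0x300020003000600050004000000020001000000000004))) (.non (nat_lit 0) (nat_lit 5) (nat_lit 0x455154) (nat_lit 0x500000001000200030004000000030006000400020000))) (.non (nat_lit 0) (nat_lit 5) (nat_lit 0x455154) (nat_lit 0x500000001000200030004000000020004000600030000))) (.star (nat_lit 0xb) (nat_lit 1) (nat_lit 6))) (.star (nat_lit 0xb) (nat_lit 0) (nat_lit 6)))) (.split (nat_lit 0xb) (nat_lit 0) (.split (nat_lit 0xb) (nat_lit 1) (.split (nat_lit 0xb) (nat_lit 7) (.split (nat_lit 0xb) (nat_lit 8) t1537_165 (.non (nat_lit 1) (nat_lit 5) (nat_lit 0x454001) (nat_lit 0x100000001000200010000000000000000000000000001))) (.non (nat_lit 1) (nat_lit 5) (nat_lit 0x455001) (nat_lit 0x100000001000200020001000000000000000000000001))) (.star (nat_lit 0xb) (nat_lit 1) (nat_lit 5))) (.star (nat_lit 0xb) (nat_lit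 0) (nat_lit 5)))) (.split (nat_lit 0xb) (nat_lit 0) (.split (nat_lit 0xb) (nat_lit 2) (.split (nat_lit 0xb) (nat_lit 3) (.split (nat_lit 0xb) (nat_lit 4) (.split (nat_lit 0xb) (nat_lit 5) (.split (nat_lit 0xb) (nat_lit 6) (.split (nat_lit 0xb) (nat_lit 7) (.split (nat_lit 0xb) (nat_lit 8) (.split (nat_lit 0xb) (nat_lit 9) (.split (nat_lit 0xb) (nat_lit 0xa) t1537_170 (.split (nat_lit 0xb) (nat_lit 1) (.split (nat_lit 0xb) (nat_lit 0xa) (.split (nat_lit 0xa) (nat_lit 0) (.split (nat_lit 9) (nat_lit 8) (.split (nat_lit 8) (nat_lit 0) (.sup (nat_lit 0x30007000b0010000d00000000000000000000) (nat_lit 0x300020000000000000000000000010002000300040001)) (.non (nat_lit 1) (nat_lit 5) (nat_lit 0x5a0001) (nat_lit 0x100020001000200000000000000000000000000000003))) (.non (nat_lit 1) (nat_lit 5) (nat_lit 0x94001) (nat_lit 0x1000200010000000000000000000000000001))) (.non (nat_lit 1) (nat_lit 5) (nat_lit 0xa50001) (nat_lit 0x100020001000200000000000000000000000000000003))) (.non (nat_lit 1) (nat_lit 5) (nat_lit 0x954001) (nat_lit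 0x100020001000200010000000000000000000000000002))) (.non (nat_lit 0) (nat_lit 5) (nat_lit 0xa00054) (nat_lit 0x200010000000000000000000000000001000200030000)))) (.non (nat_lit 1) (nat_lit 5) (nat_lit 0x555001) (nat_lit 0x100010002000300020001000000000000000000000002))) (.non (nat_lit 0) (nat_lit 5) (nat_lit 0x455154) (nat_lit 0x500000003000600040002000000010002000300040000))) (.non (nat_lit 0) (nat_lit 5) (nat_lit 0x455154) (nat_lit 0x500000002000400060003000000010002000300040000))) (.star (nat_lit 0xb) (nat_lit 1) (nat_lit 6))) (.star (nat_lit 0xb) (nat_lit 1) (nat_lit 5))) (.non (nat_lit 0) (nat_lit 5) (nat_lit 0x400154) (nat_lit 0x100000000000000000000000000010001000100010000))) (.non (nat_lit 0) (nat_lit 5) (nat_lit 0x400054) (nat_lit 0x100000000000000000000000000000001000100010000))) (.non (nat_lit 0) (nat_lit 5) (nat_lit 0x400014) (nat_lit 0x100000000000000000000000000000000000100010000))) (.non (nat_lit 1) (nat_lit 5) (nat_lit 0x554001) (nat_lit 0x100010001000200010000000000000000000000000002))))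

noncomputable def t1537_172 : Tr := (.ex (nat_lit 0) (.ex (nat_lit 1) t1537_144 (.split (nat_lit 0xa) (nat_lit 2) (.split (nat_lit 0xa) (nat_lit 3) (.split (nat_lit 0xa) (nat_lit 4) (.split (nat_lit 0xa) (nat_lit 5) (.split (nat_lit 0xa) (nat_lit 6) (.split (nat_lit 0xa) (nat_lit 7) (.split (nat_lit 0xa) (nat_lit 8) (.split (nat_lit 0xa) (nat_lit 0) (.split (nat_lit 0xa) (nat_lit 9) t1537_157 (.st (nat_lit 1) (nat_lit 0) (nat_lit 5) (nat_lit 0x155054) (nat_lit 0x50004000300020001000000000002000400060000) (nat_lit 1) (nat_lit 3) (.st (nat_lit 9) (nat_lit 0) (nat_lit 5) (nat_lit 0x155014) (nat_lit 0x30004000300020001000000000000000100020000) (nat_lit 1) (nat_lit 2) (.st (nat_lit 0xa) (nat_lit 0) (nat_lit 5) (nat_lit 0x154054) (nat_lit 0x40003000200010000000000000001000200030000) (nat_lit 1) (nat_lit 2) (.st (nat_lit 2) (nat_lit 0) (nat_lit 5) (nat_lit 0x154154) (nat_lit 0x40003000200010000000000020004000600050000) (nat_lit 1) (nat_lit 3) t1537_159))))) (.split (nat_lit 0xa) (nat_lit 9) (.split (nat_lit 0xa)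 (nat_lit 0) (.split (nat_lit 0xa) (nat_lit 1) (.split (nat_lit 9) (nat_lit 8) (.split (nat_lit 8) (nat_lit 0) (.sup (nat_lit 0x6000d00160020001a00000000000000000000) (nat_lit 0x60000000000000000000000020004000600080003)) (.non (nat_lit 1) (nat_lit 5) (nat_lit 0xa8001) (nat_lit 0x1000200010000000000000000000000000002))) (.non (nat_lit 1) (nat_lit 5) (nat_lit 0x94001) (nat_lit 0x1000200010000000000000000000000000001))) (.sup (nat_lit 0x7000f00170020001a00000000000000000000) (nat_lit 0x50000000000000000000000020003000500070001))) (.non (nat_lit 1) (nat_lit 5) (nat_lit 0x254001) (nat_lit 0x10001000200010000000000000000000000000002))) (.non (nat_lit 1) (nat_lit 5) (nat_lit 0x150001) (nat_lit 0x10001000100000000000000000000000000000001)))) (.non (nat_lit 0) (nat_lit 5) (nat_lit 0x155154) (nat_lit 0x50003000600040002000000010002000300040000))) (.non (nat_lit 0) (nat_lit 5) (nat_lit 0x155154) (nat_lit 0x50002000400060003000000010002000300040000))) (.star (nat_lit 0xa) (nat_lit 1) (nat_lit 6))) (.star (nat_lit 0xa)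 (nat_lit 1) (nat_lit 5))) (.non (nat_lit 0) (nat_lit 5) (nat_lit 0x100154) (nat_lit 0x10000000000000000000000010001000100010000))) (.non (nat_lit 0) (nat_lit 5) (nat_lit 0x100054) (nat_lit 0x10000000000000000000000000001000100010000))) (.non (nat_lit 0) (nat_lit 5) (nat_lit 0x100014) (nat_lit 0x10000000000000000000000000000000100010000)))) (.split (nat_lit 0xa) (nat_lit 2) (.split (nat_lit 0xa) (nat_lit 3) (.split (nat_lit 0xa) (nat_lit 4) (.split (nat_lit 0xa) (nat_lit 5) (.split (nat_lit 0xa) (nat_lit 6) (.split (nat_lit 0xa) (nat_lit 7) (.split (nat_lit 0xa) (nat_lit 8) (.split (nat_lit 0xa) (nat_lit 9) (.split (nat_lit 0xa) (nat_lit 1) (.st (nat_lit 0) (nat_lit 1) (nat_lit 5) (nat_lit 0x154001) (nat_lit 0x10001000200010000000000000000000000000002) (nat_lit 1) (nat_lit 1) (.st (nat_lit 9) (nat_lit 1) (nat_lit 5) (nat_lit 0x155001) (nat_lit 0x10002000300020001000000000000000000000002) (nat_lit 1) (nat_lit 1) t1537_171)) (.split (nat_lit 0xa) (nat_lit 0) (.split (nat_lit 0xa) (nat_lit 1) (.split (nat_lit 9)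 (nat_lit 8) (.split (nat_lit 8) (nat_lit 0) (.sup (nat_lit 0x6000d00160020001a00000000000000000000) (nat_lit 0x60000000000000000000000020004000600080003)) (.non (nat_lit 1) (nat_lit 5) (nat_lit 0xa8001) (nat_lit 0x1000200010000000000000000000000000002))) (.non (nat_lit 1) (nat_lit 5) (nat_lit 0x94001) (nat_lit 0x1000200010000000000000000000000000001))) (.sup (nat_lit 0x7000f00170020001a00000000000000000000) (nat_lit 0x50000000000000000000000020003000500070001))) (.non (nat_lit 1) (nat_lit 5) (nat_lit 0x254001) (nat_lit 0x10001000200010000000000000000000000000002)))) (.non (nat_lit 1) (nat_lit 5) (nat_lit 0x150001) (nat_lit 0x10001000100000000000000000000000000000001))) (.non (nat_lit 1) (nat_lit 5) (nat_lit 0x110001) (nat_lit 0x10000000100000000000000000000000000000001))) (.non (nat_lit 1) (nat_lit 5) (nat_lit 0x114001) (nat_lit 0x10000000100010000000000000000000000000001))) (.star (nat_lit 0xa) (nat_lit 0) (nat_lit 6))) (.star (nat_lit 0xa) (nat_lit 0) (nat_lit 5))) (.non (nat_lit 1) (nat_lit 5) (nat_lit 0x155151)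 (nat_lit 0x40003000600040002000000030002000100000005))) (.non (nat_lit 1) (nat_lit 5) (nat_lit 0x154151) (nat_lit 0x20001000200010000000000010002000100000002))) (.non (nat_lit 1) (nat_lit 5) (nat_lit 0x155151) (nat_lit 0x40003000600040002000000010002000300000005))))

noncomputable def t1537_173 : Tr := (.pd (.cons (nat_lit 3) (nat_lit 8) (nat_lit 0) (nat_lit 0x9065540100) (nat_lit 0xf423f00000f423fb71ae1f156f423f00000f423fb71ae1f156) .nil) (.ex (nat_lit 9) (.split (nat_lit 8) (nat_lit 0) (.split (nat_lit 9) (nat_lit 8) (.split (nat_lit 4) (nat_lit 3) (.split (nat_lit 5) (nat_lit 3) (.pd (.cons (nat_lit 2) (nat_lit 7) (nat_lit 0) (nat_lit 0x8005333000) (nat_lit 0xf423fb71ae00000f423f54591f423f0671100000f423f02f7a) .nil) (.leaf (.cons (nat_lit 0x1550) (nat_lit 0x2000200010002000100000000) (.cons (nat_lit 0x54005) (nat_lit 0x1000200010000000000000000000000020002) (.cons (nat_lit 0x5440) (nat_lit 0x10002000200000001000000000000) (.cons (nat_lit 0x10015) (nat_lit 0x100000000000000000000000100020002) .nil)))) (.cons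 (nat_lit 0x111110) (nat_lit 0x1000001) (nat_lit 8) (nat_lit 0x210340) (.cons (nat_lit 0x1111000001) (nat_lit 0x100010) (nat_lit 8) (nat_lit 0x2034000001) .nil)))) (.non (nat_lit 0) (nat_lit 6) (nat_lit 0x950) (nat_lit 0x100010002000100000000))) (.non (nat_lit 0) (nat_lit 6) (nat_lit 0x650) (nat_lit 0x100010002000100000000))) (.non (nat_lit 1) (nat_lit 5) (nat_lit 0x94001) (nat_lit 0x1000200010000000000000000000000000001))) (.non (nat_lit 1) (nat_lit 5) (nat_lit 0xa8001) (nat_lit 0x1000200010000000000000000000000000002))) (.split (nat_lit 0xa) (nat_lit 0) (.split (nat_lit 0xa) (nat_lit 1) (.split (nat_lit 0xa) (nat_lit 2) (.split (nat_lit 0xa) (nat_lit 3) (.split (nat_lit 0xa) (nat_lit 4) (.split (nat_lit 0xa) (nat_lit 5) (.split (nat_lit 0xa) (nat_lit 6) (.split (nat_lit 0xa) (nat_lit 7) (.split (nat_lit 0xa) (nat_lit 8) (.sup (nat_lit 0x5000a000f000000000000000000000000000f0014) (nat_lit 0x1000140007000e000100000000)) (.non (nat_lit 0) (nat_lit 5) (nat_lit 0x150000) (nat_lit 0x10001000100000000000000000000000000000000)))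 (.non (nat_lit 0) (nat_lit 5) (nat_lit 0x154000) (nat_lit 0x10001000100010000000000000000000000000000))) (.non (nat_lit 0) (nat_lit 5) (nat_lit 0x155000) (nat_lit 0x10001000100010001000000000000000000000000))) (.non (nat_lit 0) (nat_lit 6) (nat_lit 0x154554) (nat_lit 0x40003000200010000000500030006000400020000))) (.non (nat_lit 0) (nat_lit 6) (nat_lit 0x154554) (nat_lit 0x40003000200010000000300050006000400020000))) (.non (nat_lit 0) (nat_lit 5) (nat_lit 0x155154) (nat_lit 0x50004000300020001000000030006000400020000))) (.non (nat_lit 0) (nat_lit 5) (nat_lit 0x155154) (nat_lit 0x50004000300020001000000020004000600030000))) (.non (nat_lit 3) (nat_lit 8) (nat_lit 0x100015) (nat_lit 0x10000000000000000000000000000000100020002))) (.non (nat_lit 1) (nat_lit 5) (nat_lit 0x150001) (nat_lit 0x10001000100000000000000000000000000000001)))))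

noncomputable def t1537_174 : Tr := (.ex (nat_lit 5) (.ex (nat_lit 6) t1537_173 (.split (nat_lit 0xa) (nat_lit 0) (.split (nat_lit 0xa) (nat_lit 1) (.split (nat_lit 0xa) (nat_lit 2) (.split (nat_lit 0xa) (nat_lit 3) (.split (nat_lit 0xa) (nat_lit 7) (.split (nat_lit 0xa) (nat_lit 8) (.split (nat_lit 0xa) (nat_lit 9) (.split (nat_lit 0xa) (nat_lit 4) (.split (nat_lit 0xa) (nat_lit 5) (.sup (nat_lit 0x50000000000000000000000020009000a) (nat_lit 0x5000000000000000a000900000002000000000000)) (.unj (nat_lit 0x101400) (nat_lit 0x10000000000000001000100000000000000000000) (nat_lit 0x10015) (nat_lit 0x100000000000000000000000100020002))) (.split (nat_lit 0xa) (nat_lit 5) (.sup (nat_lit 0x50000000000000000000000020009000a) (nat_lit 0x5000000000000000a000900000002000000000000)) (.non (nat_lit 0) (nat_lit 6) (nat_lit 0x100540) (nat_lit 0x10000000000000000000100010001000000000000)))) (.non (nat_lit 0) (nat_lit 5) (nat_lit 0x155000) (nat_lit 0x10001000100010001000000000000000000000000))) (.non (nat_lit 0) (nat_lit 5) (nat_lit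 0x115000) (nat_lit 0x10000000100010001000000000000000000000000))) (.non (nat_lit 0) (nat_lit 5) (nat_lit 0x105000) (nat_lit 0x10000000000010001000000000000000000000000))) (.non (nat_lit 0) (nat_lit 5) (nat_lit 0x155154) (nat_lit 0x50001000200030004000000030006000400020000))) (.non (nat_lit 0) (nat_lit 5) (nat_lit 0x155154) (nat_lit 0x50001000200030004000000020004000600030000))) (.star (nat_lit 0xa) (nat_lit 1) (nat_lit 6))) (.star (nat_lit 0xa) (nat_lit 0) (nat_lit 6)))) (.split (nat_lit 0xa) (nat_lit 0) (.split (nat_lit 0xa) (nat_lit 1) (.split (nat_lit 0xa) (nat_lit 2) (.split (nat_lit 0xa) (nat_lit 3) (.split (nat_lit 0xa) (nat_lit 4) (.split (nat_lit 0xa) (nat_lit 7) (.split (nat_lit 0xa) (nat_lit 8) (.split (nat_lit 0xa) (nat_lit 9) (.split (nat_lit 0xa) (nat_lit 6) (.sup (nat_lit 0x300000000000000000000000100050005) (nat_lit 0x30000000000000004000500000001000000000000)) (.unj (nat_lit 0x101400) (nat_lit 0x10000000000000001000100000000000000000000) (nat_lit 0x10015) (nat_lit 0x100000000000000000000000100020002)))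 (.non (nat_lit 0) (nat_lit 6) (nat_lit 0x154554) (nat_lit 0x40003000200010000000500030006000400020000))) (.non (nat_lit 0) (nat_lit 6) (nat_lit 0x154550) (nat_lit 0x20001000200010000000200010002000100000000))) (.non (nat_lit 0) (nat_lit 6) (nat_lit 0x154554) (nat_lit 0x40001000200030000000500030006000400020000))) (.non (nat_lit 0) (nat_lit 6) (nat_lit 0x100540) (nat_lit 0x10000000000000000000100010001000000000000))) (.non (nat_lit 0) (nat_lit 6) (nat_lit 0x100440) (nat_lit 0x10000000000000000000100000001000000000000))) (.non (nat_lit 0) (nat_lit 6) (nat_lit 0x100450) (nat_lit 0x10000000000000000000100000001000100000000))) (.star (nat_lit 0xa) (nat_lit 1) (nat_lit 5))) (.star (nat_lit 0xa) (nat_lit 0) (nat_lit 5))))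

noncomputable def t1537_175 : Tr := (.ex (nat_lit 1) (.ex (nat_lit 4) t1537_174 (.split (nat_lit 0xa) (nat_lit 0) (.split (nat_lit 0xa) (nat_lit 1) (.split (nat_lit 0xa) (nat_lit 2) (.split (nat_lit 0xa) (nat_lit 3) (.split (nat_lit 0xa) (nat_lit 5) (.split (nat_lit 0xa) (nat_lit 7) (.split (nat_lit 0xa) (nat_lit 8) (.split (nat_lit 0xa) (nat_lit 9) (.split (nat_lit 0xa) (nat_lit 6) (.sup (nat_lit 0x7000e00010000000000000000000000100014) (nat_lit 0x5000000000000000f0014000a000f000000000000)) (.sup (nat_lit 0x50000000000000000000000020009000a) (nat_lit 0x5000000000000000a000900000002000000000000))) (.non (nat_lit 0) (nat_lit 6) (nat_lit 0x154554) (nat_lit 0x40003000200010000000300050006000400020000))) (.non (nat_lit 0) (nat_lit 5) (nat_lit 0x155154) (nat_lit 0x50003000600040002000000040003000200010000))) (.non (nat_lit 0) (nat_lit 5) (nat_lit 0x155154) (nat_lit 0x50002000400060003000000040003000200010000))) (.non (nat_lit 0) (nat_lit 6) (nat_lit 0x100540) (nat_lit 0x10000000000000000000100010001000000000000)))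 (.non (nat_lit 0) (nat_lit 5) (nat_lit 0x100140) (nat_lit 0x10000000000000000000000010001000000000000))) (.non (nat_lit 0) (nat_lit 5) (nat_lit 0x100150) (nat_lit 0x10000000000000000000000010001000100000000))) (.non (nat_lit 0) (nat_lit 5) (nat_lit 0x100154) (nat_lit 0x10000000000000000000000010001000100010000))) (.non (nat_lit 1) (nat_lit 5) (nat_lit 0x155151) (nat_lit 0x40003000600040002000000030002000100000005)))) (.split (nat_lit 0xa) (nat_lit 2) (.split (nat_lit 0xa) (nat_lit 3) (.split (nat_lit 0xa) (nat_lit 4) (.split (nat_lit 0xa) (nat_lit 5) (.split (nat_lit 0xa) (nat_lit 6) (.split (nat_lit 0xa) (nat_lit 7) (.split (nat_lit 0xa) (nat_lit 8) (.split (nat_lit 0xa) (nat_lit 0) (.split (nat_lit 0xa) (nat_lit 9) (.sup (nat_lit 0x30000000000000000000000000000000100050004) (nat_lit 0x30005000500000001000000000000)) (.sup (nat_lit 0x30000000000000000000000000000000100050004) (nat_lit 0x30005000500000001000000000000))) (.split (nat_lit 0xa) (nat_lit 9) (.unj (nat_lit 0x100005) (nat_lit 0x10000000000000000000000000000000000010001)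 (nat_lit 0x5440) (nat_lit 0x10002000200000001000000000000)) (.non (nat_lit 1) (nat_lit 5) (nat_lit 0x150001) (nat_lit 0x10001000100000000000000000000000000000001)))) (.non (nat_lit 0) (nat_lit 5) (nat_lit 0x155154) (nat_lit 0x50003000600040002000000010002000300040000))) (.non (nat_lit 0) (nat_lit 5) (nat_lit 0x155154) (nat_lit 0x50002000400060003000000010002000300040000))) (.star (nat_lit 0xa) (nat_lit 1) (nat_lit 6))) (.star (nat_lit 0xa) (nat_lit 1) (nat_lit 5))) (.non (nat_lit 0) (nat_lit 5) (nat_lit 0x100154) (nat_lit 0x10000000000000000000000010001000100010000))) (.non (nat_lit 0) (nat_lit 5) (nat_lit 0x100054) (nat_lit 0x10000000000000000000000000001000100010000))) (.non (nat_lit 0) (nat_lit 5) (nat_lit 0x100014) (nat_lit 0x10000000000000000000000000000000100010000))))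

noncomputable def t1537_176 : Tr := (.split (nat_lit 6) (nat_lit 4) (.split (nat_lit 5) (nat_lit 3) (.split (nat_lit 5) (nat_lit 4) (.st (nat_lit 7) (nat_lit 1) (nat_lit 5) (nat_lit 0x55001) (nat_lit 0x1000200020001000000000000000000000001) (nat_lit 1) (nat_lit 1) (.st (nat_lit 8) (nat_lit 1) (nat_lit 5) (nat_lit 0x54001) (nat_lit 0x1000200010000000000000000000000000001) (nat_lit 1) (nat_lit 1) t1537_172)) (.sup (nat_lit 0x2000000000000000000000005000a0009) (nat_lit 0x20009000a00050000000000000000))) (.split (nat_lit 5) (nat_lit 4) (.st (nat_lit 2) (nat_lit 0) (nat_lit 6) (nat_lit 0x554) (nat_lit 0x100010002000200010000) (nat_lit 1) (nat_lit 1) (.st (nat_lit 3) (nat_lit 0) (nat_lit 6) (nat_lit 0x550) (nat_lit 0x100010002000100000000) (nat_lit 1) (nat_lit 1) (.st (nat_lit 7) (nat_lit 1) (nat_lit 5) (nat_lit 0x55001) (nat_lit 0x1000200020001000000000000000000000001) (nat_lit 1) (nat_lit 1) (.st (nat_lit 8) (nat_lit 1) (nat_lit 5) (nat_lit 0x54001) (nat_lit 0x1000200010000000000000000000000000001) (nat_lit 1)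 (nat_lit 1) (.ex (nat_lit 0) t1537_175 (.split (nat_lit 0xa) (nat_lit 2) (.split (nat_lit 0xa) (nat_lit 3) (.split (nat_lit 0xa) (nat_lit 4) (.split (nat_lit 0xa) (nat_lit 5) (.split (nat_lit 0xa) (nat_lit 6) (.split (nat_lit 0xa) (nat_lit 7) (.split (nat_lit 0xa) (nat_lit 8) (.split (nat_lit 0xa) (nat_lit 9) (.split (nat_lit 0xa) (nat_lit 1) (.sup (nat_lit 0x5000000000000000000000000000000020009000a) (nat_lit 0x5000a000900000002000000000000)) (.unj (nat_lit 0x100005) (nat_lit 0x10000000000000000000000000000000000010001) (nat_lit 0x5440) (nat_lit 0x10002000200000001000000000000))) (.non (nat_lit 1) (nat_lit 5) (nat_lit 0x150001) (nat_lit 0x10001000100000000000000000000000000000001))) (.non (nat_lit 1) (nat_lit 5) (nat_lit 0x110001) (nat_lit 0x10000000100000000000000000000000000000001))) (.non (nat_lit 1) (nat_lit 5) (nat_lit 0x114001) (nat_lit 0x10000000100010000000000000000000000000001))) (.star (nat_lit 0xa) (nat_lit 0) (nat_lit 6))) (.star (nat_lit 0xa) (nat_lit 0) (nat_lit 5))) (.non (nat_lit 1) (nat_lit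 5) (nat_lit 0x155151) (nat_lit 0x40003000600040002000000030002000100000005))) (.non (nat_lit 0) (nat_lit 6) (nat_lit 0x100550) (nat_lit 0x10000000000000000000100010002000100000000))) (.non (nat_lit 0) (nat_lit 6) (nat_lit 0x100554) (nat_lit 0x10000000000000000000100010002000200010000)))))))) (.non (nat_lit 0) (nat_lit 6) (nat_lit 0x540) (nat_lit 0x100010001000000000000)))) (.split (nat_lit 5) (nat_lit 3) (.split (nat_lit 5) (nat_lit 4) (.sup (nat_lit 0x100000000000000000000000300050005) (nat_lit 0x10005000400030000000000000000)) (.unj (nat_lit 0x1500) (nat_lit 0x1000100010000000000000000) (nat_lit 0x10015) (nat_lit 0x100000000000000000000000100020002))) (.split (nat_lit 5) (nat_lit 4) (.sup (nat_lit 0x300000000000000000000000100050005) (nat_lit 0x5000400030001000000000000)) (.non (nat_lit 0) (nat_lit 6) (nat_lit 0x540) (nat_lit 0x100010001000000000000)))))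

noncomputable def t1537_177 : Tr := (.ex (nat_lit 5) (.split (nat_lit 8) (nat_lit 1) (.split (nat_lit 4) (nat_lit 3) (.split (nat_lit 9) (nat_lit 8) (.split (nat_lit 8) (nat_lit 0) (.pd (.cons (nat_lit 0) (nat_lit 7) (nat_lit 0) (nat_lit 0x8105532110) (nat_lit 0xf423fb71ae00000f423f54591f423fb71aea2c284734e00000) (.cons (nat_lit 0) (nat_lit 8) (nat_lit 0) (nat_lit 0x9065532110) (nat_lit 0xf423f00000f423fb71ae1f156f423fb71aea2c289896500000) (.cons (nat_lit 1) (nat_lit 7) (nat_lit 0) (nat_lit 0x8005532200) (nat_lit 0xf423fb71ae00000f423f54591f423fb71aea2c2800000a2c28) (.cons (nat_lit 1) (nat_lit 8) (nat_lit 0) (nat_lit 0x9065532200) (nat_lit 0xf423f00000f423fb71ae1f156f423fb71aea2c2800000f423f) (.cons (nat_lit 2) (nat_lit 8) (nat_lit 0) (nat_lit 0x9065533000) (nat_lit 0xf423f00000f423fb71ae1f156f423fb71ae00000f423f54591) (.cons (nat_lit 3) (nat_lit 8) (nat_lit 0) (nat_lit 0x9065540100) (nat_lit 0xf423f00000f423fb71ae1f156f423f00000f423fb71ae1f156) (.cons (nat_lit 4) (nat_lit 8) (nat_lit 0) (nat_lit 0x9065502100)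 (nat_lit 0xf423f00000f423fb71ae1f15600000f423fb71aea2c2804737) .nil))))))) (.leaf (.cons (nat_lit 0x15404) (nat_lit 0x200030004000300000000000000010000) (.cons (nat_lit 0x15401) (nat_lit 0x200030004000300000000000000000001) (.cons (nat_lit 0x10005) (nat_lit 0x100000000000000000000000000010001) .nil))) .nil)) (.non (nat_lit 1) (nat_lit 5) (nat_lit 0xa8001) (nat_lit 0x1000200010000000000000000000000000002))) (.non (nat_lit 0) (nat_lit 5) (nat_lit 0x94004) (nat_lit 0x1000200010000000000000000000000010000))) (.non (nat_lit 0) (nat_lit 5) (nat_lit 0x54254) (nat_lit 0x1000200010000000000010002000200020000))) (.non (nat_lit 0) (nat_lit 5) (nat_lit 0xa8004) (nat_lit 0x1000200010000000000000000000000020000))) (.split (nat_lit 0xa) (nat_lit 0) (.split (nat_lit 0xa) (nat_lit 1) (.split (nat_lit 0xa) (nat_lit 2) (.split (nat_lit 0xa) (nat_lit 3) (.split (nat_lit 0xa) (nat_lit 4) (.split (nat_lit 0xa) (nat_lit 6) (.split (nat_lit 0xa) (nat_lit 7) (.split (nat_lit 0xa) (nat_lit 8) (.split (nat_lit 0xa) (nat_lit 9) (.unj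 (nat_lit 0x105400) (nat_lit 0x10000000000010002000200000000000000000000) (nat_lit 0x155) (nat_lit 0x10002000300040003)) (.non (nat_lit 0) (nat_lit 5) (nat_lit 0x155014) (nat_lit 0x10002000300020001000000000000000100020000))) (.non (nat_lit 0) (nat_lit 5) (nat_lit 0x154004) (nat_lit 0x10001000200010000000000000000000000010000))) (.non (nat_lit 0) (nat_lit 5) (nat_lit 0x155004) (nat_lit 0x10001000200020001000000000000000000010000))) (.non (nat_lit 0) (nat_lit 5) (nat_lit 0x155054) (nat_lit 0x10002000400030002000000000001000200030000))) (.non (nat_lit 0) (nat_lit 5) (nat_lit 0x155154) (nat_lit 0x10003000600040002000000020003000400050000))) (.non (nat_lit 0) (nat_lit 5) (nat_lit 0x154154) (nat_lit 0x10001000200010000000000010002000200020000))) (.non (nat_lit 0) (nat_lit 5) (nat_lit 0x154054) (nat_lit 0x10001000200010000000000000001000200020000))) (.star (nat_lit 0xa) (nat_lit 1) (nat_lit 5))) (.star (nat_lit 0xa) (nat_lit 0) (nat_lit 5))))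

noncomputable def t1537_178 : Tr := (.ex (nat_lit 0xb) (.split (nat_lit 0xb) (nat_lit 0xa) (.pd (.cons (nat_lit 2) (nat_lit 8) (nat_lit 0) (nat_lit 0xa09065533000) (nat_lit 0xf423fb71aef423f00000f423fb71ae1f156f423fb71ae00000f423f02f7a) .nil) (.leaf (.cons (nat_lit 0x15404) (nat_lit 0x200030004000300000000000000010000) (.cons (nat_lit 0x15401) (nat_lit 0x200030004000300000000000000000001) (.cons (nat_lit 0x10005) (nat_lit 0x100000000000000000000000000010001) (.cons (nat_lit 0x100015) (nat_lit 0x10000000000000000000000000000000100020002) .nil)))) .nil)) (.non (nat_lit 1) (nat_lit 5) (nat_lit 0x954001) (nat_lit 0x100020001000200010000000000000000000000000002))) (.split (nat_lit 0xc) (nat_lit 0) (.split (nat_lit 0xc) (nat_lit 1) (.split (nat_lit 0xc) (nat_lit 2) (.split (nat_lit 0xc) (nat_lit 3) (.split (nat_lit 0xc) (nat_lit 4) (.split (nat_lit 0xc) (nat_lit 5) (.split (nat_lit 0xc) (nat_lit 6) (.split (nat_lit 0xc) (nat_lit 7) (.split (nat_lit 0xc) (nat_lit 8) (.split (nat_lit 0xc) (nat_lit 9) (.split (nat_lit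 0xc) (nat_lit 0xa) (.leaf (.cons (nat_lit 0x15404) (nat_lit 0x200030004000300000000000000010000) (.cons (nat_lit 0x15401) (nat_lit 0x200030004000300000000000000000001) (.cons (nat_lit 0x1500005) (nat_lit 0x1000200030000000000000000000000000000000000030004) .nil))) .nil) (.non (nat_lit 0) (nat_lit 5) (nat_lit 0x1500000) (nat_lit 0x1000100010000000000000000000000000000000000000000))) (.non (nat_lit 0) (nat_lit 5) (nat_lit 0x1055014) (nat_lit 0x1000000000002000300020001000000000000000100020000))) (.non (nat_lit 0) (nat_lit 5) (nat_lit 0x1054004) (nat_lit 0x1000000000001000200010000000000000000000000010000))) (.non (nat_lit 0) (nat_lit 5) (nat_lit 0x1055004) (nat_lit 0x1000000000001000200020001000000000000000000010000))) (.non (nat_lit 0) (nat_lit 5) (nat_lit 0x1555014) (nat_lit 0x3000200010003000600050004000000000000000200040000))) (.non (nat_lit 0) (nat_lit 7) (nat_lit 0x1501400) (nat_lit 0x3000200010000000000000003000400000000000000000000))) (.non (nat_lit 0) (nat_lit 5) (nat_lit 0x1055154) (nat_lit 0x1000000000003000600040002000000020003000400050000)))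 (.non (nat_lit 0) (nat_lit 5) (nat_lit 0x1455054) (nat_lit 0x2000100000003000600040002000000000003000400050000))) (.non (nat_lit 0) (nat_lit 5) (nat_lit 0x1555014) (nat_lit 0x3000200010003000600040002000000000000000400050000))) (.non (nat_lit 0) (nat_lit 5) (nat_lit 0x1054014) (nat_lit 0x1000000000001000200010000000000000000000100020000))) (.non (nat_lit 1) (nat_lit 5) (nat_lit 0x1500001) (nat_lit 0x1000100010000000000000000000000000000000000000001))))

noncomputable def t1537_179 : Tr := (.pd (.cons (nat_lit 0) (nat_lit 7) (nat_lit 0) (nat_lit 0xa8105532110) (nat_lit 0xf423ff423fb71ae00000f423f54591f423fb71aea2c284734e00000) (.cons (nat_lit 0) (nat_lit 8) (nat_lit 0) (nat_lit 0xa9065532110) (nat_lit 0xf423ff423f00000f423fb71ae1f156f423fb71aea2c289896500000) (.cons (nat_lit 1) (nat_lit 7) (nat_lit 0) (nat_lit 0x8005532200) (nat_lit 0xf423ff423fb71ae00000f423f54591f423fb71aea2c280000065b97) (.cons (nat_lit 1) (nat_lit 8) (nat_lit 0) (nat_lit 0x9065532200) (nat_lit 0xf423ff423f00000f423fb71ae1f156f423fb71aea2c2800000b71ae)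 .nil)))) (.ex (nat_lit 0xa) (.pd (.cons (nat_lit 2) (nat_lit 8) (nat_lit 0) (nat_lit 0x9065533000) (nat_lit 0xf423ff423f00000f423fb71ae1f156f423fb71ae00000f423f17500) .nil) (.leaf (.cons (nat_lit 0x15404) (nat_lit 0x200030004000300000000000000010000) (.cons (nat_lit 0x15401) (nat_lit 0x200030004000300000000000000000001) (.cons (nat_lit 0x10005) (nat_lit 0x100000000000000000000000000010001) (.cons (nat_lit 0x100015) (nat_lit 0x10000000000000000000000000000000100020002) .nil)))) .nil)) (.split (nat_lit 0xb) (nat_lit 0) (.split (nat_lit 0xb) (nat_lit 1) (.split (nat_lit 0xb) (nat_lit 2) (.split (nat_lit 0xb) (nat_lit 3) (.split (nat_lit 0xb) (nat_lit 4) (.split (nat_lit 0xb) (nat_lit 5) (.split (nat_lit 0xb) (nat_lit 6) (.split (nat_lit 0xb) (nat_lit 7) (.split (nat_lit 0xb) (nat_lit 8) (.split (nat_lit 0xb) (nat_lit 9) (.st (nat_lit 0xa) (nat_lit 1) (nat_lit 5) (nat_lit 0x554001) (nat_lit 0x100020001000200010000000000000000000000000002) (nat_lit 1) (nat_lit 1) t1537_178) (.non (nat_lit 0) (nat_lit 5) (nat_lit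 0x455014) (nat_lit 0x100000002000300020001000000000000000100020000))) (.non (nat_lit 0) (nat_lit 5) (nat_lit 0x454004) (nat_lit 0x100000001000200010000000000000000000000010000))) (.non (nat_lit 0) (nat_lit 5) (nat_lit 0x455004) (nat_lit 0x100000001000200020001000000000000000000010000))) (.non (nat_lit 0) (nat_lit 5) (nat_lit 0x455054) (nat_lit 0x100000002000400030002000000000001000200030000))) (.non (nat_lit 0) (nat_lit 8) (nat_lit 0x405400) (nat_lit 0x100000000000000010002000200000000000000000000))) (.non (nat_lit 0) (nat_lit 5) (nat_lit 0x455154) (nat_lit 0x100000003000600040002000000020003000400050000))) (.non (nat_lit 0) (nat_lit 5) (nat_lit 0x555054) (nat_lit 0x200010003000600040002000000000003000400050000))) (.non (nat_lit 0) (nat_lit 5) (nat_lit 0x454054) (nat_lit 0x100000001000200010000000000000001000200020000))) (.non (nat_lit 0) (nat_lit 5) (nat_lit 0x454014) (nat_lit 0x100000001000200010000000000000000000100020000))) (.non (nat_lit 1) (nat_lit 5) (nat_lit 0x500001) (nat_lit 0x100010000000000000000000000000000000000000001)))))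

noncomputable def t1537_180 : Tr := (.split (nat_lit 0xa) (nat_lit 8) (.split (nat_lit 0xa) (nat_lit 9) (.st (nat_lit 0) (nat_lit 1) (nat_lit 5) (nat_lit 0x154001) (nat_lit 0x10001000200010000000000000000000000000002) (nat_lit 1) (nat_lit 1) (.ex (nat_lit 5) (.split (nat_lit 8) (nat_lit 1) (.split (nat_lit 4) (nat_lit 3) (.split (nat_lit 9) (nat_lit 8) (.split (nat_lit 8) (nat_lit 0) (.split (nat_lit 0xa) (nat_lit 0) t1537_179 (.non (nat_lit 1) (nat_lit 5) (nat_lit 0x254001) (nat_lit 0x10001000200010000000000000000000000000002))) (.non (nat_lit 1) (nat_lit 5) (nat_lit 0xa8001) (nat_lit 0x1000200010000000000000000000000000002))) (.non (nat_lit 0) (nat_lit 5) (nat_lit 0x94004) (nat_lit 0x1000200010000000000000000000000010000))) (.non (nat_lit 0) (nat_lit 5) (nat_lit 0x54254) (nat_lit 0x1000200010000000000010002000200020000))) (.non (nat_lit 0) (nat_lit 5) (nat_lit 0xa8004) (nat_lit 0x1000200010000000000000000000000020000))) (.split (nat_lit 0xb) (nat_lit 0) (.split (nat_lit 0xb) (nat_lit 1) (.split (nat_lit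 0xb) (nat_lit 2) (.split (nat_lit 0xb) (nat_lit 3) (.split (nat_lit 0xb) (nat_lit 4) (.split (nat_lit 0xb) (nat_lit 6) (.split (nat_lit 0xb) (nat_lit 7) (.split (nat_lit 0xb) (nat_lit 8) (.split (nat_lit 0xb) (nat_lit 9) (.split (nat_lit 0xb) (nat_lit 0xa) (.unj (nat_lit 0x100015) (nat_lit 0x10000000000000000000000000000000100020002) (nat_lit 0x405400) (nat_lit 0x100000000000000010002000200000000000000000000)) (.unj (nat_lit 0x405400) (nat_lit 0x100000000000000010002000200000000000000000000) (nat_lit 0x155) (nat_lit 0x10002000300040003))) (.non (nat_lit 0) (nat_lit 5) (nat_lit 0x455014) (nat_lit 0x100000002000300020001000000000000000100020000))) (.non (nat_lit 0) (nat_lit 5) (nat_lit 0x454004) (nat_lit 0x100000001000200010000000000000000000000010000))) (.non (nat_lit 0) (nat_lit 5) (nat_lit 0x455004) (nat_lit 0x100000001000200020001000000000000000000010000))) (.non (nat_lit 0) (nat_lit 5) (nat_lit 0x455054) (nat_lit 0x100000002000400030002000000000001000200030000))) (.non (nat_lit 0) (nat_lit 5) (nat_lit 0x455154)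 (nat_lit 0x100000003000600040002000000020003000400050000))) (.non (nat_lit 0) (nat_lit 5) (nat_lit 0x454154) (nat_lit 0x100000001000200010000000000010002000200020000))) (.non (nat_lit 0) (nat_lit 5) (nat_lit 0x454054) (nat_lit 0x100000001000200010000000000000001000200020000))) (.star (nat_lit 0xb) (nat_lit 1) (nat_lit 5))) (.star (nat_lit 0xb) (nat_lit 0) (nat_lit 5))))) (.non (nat_lit 0) (nat_lit 5) (nat_lit 0x155014) (nat_lit 0x10002000300020001000000000000000100020000))) (.non (nat_lit 0) (nat_lit 5) (nat_lit 0x154004) (nat_lit 0x10001000200010000000000000000000000010000)))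

noncomputable def t1537_181 : Tr := (.split (nat_lit 8) (nat_lit 0) (.split (nat_lit 8) (nat_lit 1) t1537_97 (.split (nat_lit 8) (nat_lit 4) (.split (nat_lit 7) (nat_lit 4) (.split (nat_lit 6) (nat_lit 3) (.split (nat_lit 6) (nat_lit 4) t1537_104 (.non (nat_lit 0) (nat_lit 5) (nat_lit 0x15154) (nat_lit 0x100010001000000010001000100010000))) (.non (nat_lit 0) (nat_lit 5) (nat_lit 0x15054) (nat_lit 0x100010001000000000001000100010000))) (.non (nat_lit 0) (nat_lit 5) (nat_lit 0x55104) (nat_lit 0x1000200020001000000010000000000010000))) (.non (nat_lit 0) (nat_lit 5) (nat_lit 0x54104) (nat_lit 0x1000200010000000000010000000000010000)))) (.split (nat_lit 8) (nat_lit 4) (.split (nat_lit 7) (nat_lit 4) (.split (nat_lit 6) (nat_lit 3) (.split (nat_lit 8) (nat_lit 1) t1537_176 (.split (nat_lit 6) (nat_lit 4) (.split (nat_lit 5) (nat_lit 3) (.split (nat_lit 5) (nat_lit 4) (.st (nat_lit 1) (nat_lit 0) (nat_lit 5) (nat_lit 0x54014) (nat_lit 0x1000200010000000000000000000100020000) (nat_lit 1) (nat_lit 1) (.st (nat_lit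 2) (nat_lit 0) (nat_lit 5) (nat_lit 0x54054) (nat_lit 0x1000200010000000000000001000200020000) (nat_lit 1) (nat_lit 1) (.st (nat_lit 3) (nat_lit 0) (nat_lit 5) (nat_lit 0x54154) (nat_lit 0x1000200010000000000010002000200020000) (nat_lit 1) (nat_lit 1) (.st (nat_lit 6) (nat_lit 0) (nat_lit 5) (nat_lit 0x55054) (nat_lit 0x2000400030002000000000001000200030000) (nat_lit 1) (nat_lit 1) (.st (nat_lit 7) (nat_lit 0) (nat_lit 5) (nat_lit 0x55004) (nat_lit 0x1000200020001000000000000000000010000) (nat_lit 1) (nat_lit 1) (.ex (nat_lit 0) t1537_177 (.split (nat_lit 0xa) (nat_lit 1) (.split (nat_lit 0xa) (nat_lit 2) (.split (nat_lit 0xa) (nat_lit 3) (.split (nat_lit 0xa) (nat_lit 4) (.split (nat_lit 0xa) (nat_lit 5) (.split (nat_lit 0xa) (nat_lit 6) (.split (nat_lit 0xa) (nat_lit 7) t1537_180 (.non (nat_lit 0) (nat_lit 5) (nat_lit 0x155004) (nat_lit 0x10001000200020001000000000000000000010000))) (.star (nat_lit 0xa) (nat_lit 0) (nat_lit 6))) (.star (nat_lit 0xa) (nat_lit 0) (nat_lit 5))) (.non (nat_lit 0) (nat_lit 5)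 (nat_lit 0x155154) (nat_lit 0x10003000600040002000000020003000400050000))) (.non (nat_lit 0) (nat_lit 5) (nat_lit 0x154154) (nat_lit 0x10001000200010000000000010002000200020000))) (.non (nat_lit 0) (nat_lit 5) (nat_lit 0x154054) (nat_lit 0x10001000200010000000000000001000200020000))) (.non (nat_lit 0) (nat_lit 5) (nat_lit 0x154014) (nat_lit 0x10001000200010000000000000000000100020000))))))))) (.sup (nat_lit 0x200000000000000000000000000050005) (nat_lit 0x10005000500030000000000000000))) (.non (nat_lit 0) (nat_lit 6) (nat_lit 0x54554) (nat_lit 0x1000200010000000100010002000200020000))) (.non (nat_lit 0) (nat_lit 5) (nat_lit 0x15154) (nat_lit 0x100010001000000010001000100010000)))) (.non (nat_lit 1) (nat_lit 5) (nat_lit 0x55151) (nat_lit 0x1000200020002000000010002000100000001))) (.non (nat_lit 1) (nat_lit 5) (nat_lit 0x55101) (nat_lit 0x1000200020001000000010000000000000001))) (.non (nat_lit 1) (nat_lit 5) (nat_lit 0x54101) (nat_lit 0x1000200010000000000010000000000000001))))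

noncomputable def t1537_182 : Tr := (.ex (nat_lit 0xb) (.split (nat_lit 0xa) (nat_lit 6) (.split (nat_lit 0xb) (nat_lit 0xa) (.pd (.cons (nat_lit 3) (nat_lit 7) (nat_lit 0) (nat_lit 0xa64905540100) (nat_lit 0xf423fb71aeb71aef423f00000a2c2804737a2c2800000f423fb71ae1f156) .nil) (.leaf (.cons (nat_lit 0x101440) (nat_lit 0x10000000000000002000200000001000000000000) (.cons (nat_lit 0x105400) (nat_lit 0x10000000000010002000200000000000000000000) (.cons (nat_lit 0x455) (nat_lit 0x100000002000300040003) .nil))) (.cons (nat_lit 0x1110111110) (nat_lit 0x1000001) (nat_lit 0xe) (nat_lit 0x5670140230) (.cons (nat_lit 0x1110111000) (nat_lit 0x1000100) (nat_lit 4) (nat_lit 0x3450021000) .nil)))) (.sup (nat_lit 0x400060000000100040006000200000000000000000000) (nat_lit 0x2000000000000000000040007000b0010000d))) (.non (nat_lit 0) (nat_lit 5) (nat_lit 0xa15000) (nat_lit 0x100020000000100020003000000000000000000000000))) (.split (nat_lit 0xc) (nat_lit 0) (.split (nat_lit 0xc) (nat_lit 1) (.split (nat_lit 0xc) (nat_lit 2) (.split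 (nat_lit 0xc) (nat_lit 3) (.split (nat_lit 0xc) (nat_lit 4) (.split (nat_lit 0xc) (nat_lit 5) (.split (nat_lit 0xc) (nat_lit 6) (.split (nat_lit 0xc) (nat_lit 7) (.split (nat_lit 0xc) (nat_lit 8) (.split (nat_lit 0xc) (nat_lit 9) (.split (nat_lit 0xc) (nat_lit 0xa) (.leaf (.cons (nat_lit 0x1501400) (nat_lit 0x1000200030000000000000004000300000000000000000000) (.cons (nat_lit 0x455) (nat_lit 0x100000002000300040003) .nil)) (.cons (nat_lit 0x1110111110) (nat_lit 0x1000001) (nat_lit 0xe) (nat_lit 0x5670140230) (.cons (nat_lit 0x1110111000) (nat_lit 0x1000100) (nat_lit 4) (nat_lit 0x3450021000) .nil))) (.non (nat_lit 0) (nat_lit 5) (nat_lit 0x1500000) (nat_lit 0x1000100010000000000000000000000000000000000000000))) (.non (nat_lit 0) (nat_lit 5) (nat_lit 0x1555000) (nat_lit 0x1000100010001000100010001000000000000000000000000))) (.non (nat_lit 0) (nat_lit 5) (nat_lit 0x1515000) (nat_lit 0x1000100010000000100010001000000000000000000000000))) (.non (nat_lit 0) (nat_lit 5) (nat_lit 0x1505000) (nat_lit 0x1000100010000000000010001000000000000000000000000)))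 (.non (nat_lit 0) (nat_lit 5) (nat_lit 0x1501000) (nat_lit 0x1000100010000000000000001000000000000000000000000))) (.non (nat_lit 0) (nat_lit 6) (nat_lit 0x1450550) (nat_lit 0x2000100000002000100000000000300030004000200000000))) (.non (nat_lit 0) (nat_lit 5) (nat_lit 0x1555100) (nat_lit 0x1000100010001000100010001000000010000000000000000))) (.non (nat_lit 0) (nat_lit 5) (nat_lit 0x1555140) (nat_lit 0x1000100010001000100010001000000010001000000000000))) (.non (nat_lit 0) (nat_lit 5) (nat_lit 0x1555150) (nat_lit 0x1000100010001000100010001000000010001000100000000))) (.non (nat_lit 0) (nat_lit 5) (nat_lit 0x1555154) (nat_lit 0x1000100010001000100010001000000010001000100010000))) (.non (nat_lit 2) (nat_lit 5) (nat_lit 0x1500005) (nat_lit 0x3000200010000000000000000000000000000000000030004))))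

noncomputable def t1537_183 : Tr := (.split (nat_lit 0xb) (nat_lit 4) (.split (nat_lit 0xb) (nat_lit 5) (.split (nat_lit 0xb) (nat_lit 6) (.split (nat_lit 0xb) (nat_lit 7) (.split (nat_lit 0xb) (nat_lit 8) (.split (nat_lit 0xb) (nat_lit 9) (.ex (nat_lit 0xa) t1537_182 (.split (nat_lit 0xc) (nat_lit 0) (.split (nat_lit 0xc) (nat_lit 1) (.split (nat_lit 0xc) (nat_lit 2) (.split (nat_lit 0xc) (nat_lit 3) (.split (nat_lit 0xc) (nat_lit 4) (.split (nat_lit 0xc) (nat_lit 5) (.split (nat_lit 0xc) (nat_lit 6) (.split (nat_lit 0xc) (nat_lit 7) (.split (nat_lit 0xc) (nat_lit 8) (.split (nat_lit 0xc) (nat_lit 9) (.split (nat_lit 0xc) (nat_lit 0xb) (.sup (nat_lit 0x3000300060000000100040006000200000000000000000000) (nat_lit 0x2000000000000000000040007000b0010000d)) (.non (nat_lit 0) (nat_lit 5) (nat_lit 0x1500000) (nat_lit 0x1000100010000000000000000000000000000000000000000))) (.non (nat_lit 0) (nat_lit 5) (nat_lit 0x1155000) (nat_lit 0x1000000010001000100010001000000000000000000000000))) (.non (nat_lit 0) (nat_lit 5)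 (nat_lit 0x1115000) (nat_lit 0x1000000010000000100010001000000000000000000000000))) (.non (nat_lit 0) (nat_lit 5) (nat_lit 0x1105000) (nat_lit 0x1000000010000000000010001000000000000000000000000))) (.non (nat_lit 0) (nat_lit 5) (nat_lit 0x1101000) (nat_lit 0x1000000010000000000000001000000000000000000000000))) (.non (nat_lit 0) (nat_lit 6) (nat_lit 0x1150550) (nat_lit 0x2000000010002000100000000000300030004000200000000))) (.non (nat_lit 0) (nat_lit 5) (nat_lit 0x1155100) (nat_lit 0x1000000010001000100010001000000010000000000000000))) (.non (nat_lit 0) (nat_lit 5) (nat_lit 0x1515140) (nat_lit 0x3000200040000000100020003000000010002000000000000))) (.non (nat_lit 0) (nat_lit 5) (nat_lit 0x1555110) (nat_lit 0x4000300060002000300040005000000010000000200000000))) (.non (nat_lit 0) (nat_lit 5) (nat_lit 0x1555104) (nat_lit 0x4000300060002000300040005000000010000000000020000))) (.non (nat_lit 1) (nat_lit 5) (nat_lit 0x1555101) (nat_lit 0x4000300060002000300040005000000010000000000000002)))) (.non (nat_lit 0) (nat_lit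 5) (nat_lit 0x555000) (nat_lit 0x100010001000100010001000000000000000000000000))) (.non (nat_lit 0) (nat_lit 5) (nat_lit 0x515000) (nat_lit 0x100010000000100010001000000000000000000000000))) (.non (nat_lit 0) (nat_lit 5) (nat_lit 0x505000) (nat_lit 0x100010000000000010001000000000000000000000000))) (.non (nat_lit 0) (nat_lit 5) (nat_lit 0x501000) (nat_lit 0x100010000000000000001000000000000000000000000))) (.non (nat_lit 0) (nat_lit 6) (nat_lit 0x550550) (nat_lit 0x200010002000100000000000300030004000200000000))) (.non (nat_lit 0) (nat_lit 5) (nat_lit 0x555100) (nat_lit 0x100010001000100010001000000010000000000000000)))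

noncomputable def t1537_184 : Tr := (.ex (nat_lit 6) (.ex (nat_lit 0xa) (.split (nat_lit 0xa) (nat_lit 6) (.pd (.cons (nat_lit 3) (nat_lit 7) (nat_lit 0) (nat_lit 0x64905540100) (nat_lit 0xf423fb71aef423f00000b71ae1f156a2c2800000f423fb71ae1f156) .nil) (.leaf (.cons (nat_lit 0x101440) (nat_lit 0x10000000000000002000200000001000000000000) (.cons (nat_lit 0x105400) (nat_lit 0x10000000000010002000200000000000000000000) (.cons (nat_lit 0x455) (nat_lit 0x100000002000300040003) .nil))) (.cons (nat_lit 0x1110111110) (nat_lit 0x1000001) (nat_lit 0xe) (nat_lit 0x5670140230) (.cons (nat_lit 0x1110111000) (nat_lit 0x1000100) (nat_lit 4) (nat_lit 0x3450021000) .nil)))) (.sup (nat_lit 0x40000000100040006000200000000000000000000) (nat_lit 0x2000000000000000000040007000b0010000d))) (.split (nat_lit 0xb) (nat_lit 0) (.split (nat_lit 0xb) (nat_lit 1) (.split (nat_lit 0xb) (nat_lit 2) (.split (nat_lit 0xb) (nat_lit 3) t1537_183 (.non (nat_lit 0) (nat_lit 5) (nat_lit 0x555140) (nat_lit 0x100010001000100010001000000010001000000000000)))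 (.non (nat_lit 0) (nat_lit 5) (nat_lit 0x555150) (nat_lit 0x100010001000100010001000000010001000100000000))) (.non (nat_lit 0) (nat_lit 5) (nat_lit 0x555154) (nat_lit 0x100010001000100010001000000010001000100010000))) (.non (nat_lit 2) (nat_lit 5) (nat_lit 0x501005) (nat_lit 0x300020000000000000001000000000000000000030004)))) (.split (nat_lit 0xb) (nat_lit 0) (.split (nat_lit 0xb) (nat_lit 1) (.split (nat_lit 0xb) (nat_lit 2) (.split (nat_lit 0xb) (nat_lit 3) (.split (nat_lit 0xb) (nat_lit 4) (.split (nat_lit 0xb) (nat_lit 5) (.split (nat_lit 0xb) (nat_lit 7) (.split (nat_lit 0xb) (nat_lit 8) (.split (nat_lit 0xb) (nat_lit 9) (.split (nat_lit 0xb) (nat_lit 0xa) (.sup (nat_lit 0x300030000000100040006000200000000000000000000) (nat_lit 0x2000000000000000000040007000b0010000d)) (.non (nat_lit 0) (nat_lit 5) (nat_lit 0x501000) (nat_lit 0x100010000000000000001000000000000000000000000))) (.non (nat_lit 0) (nat_lit 5) (nat_lit 0x455000) (nat_lit 0x100000001000100010001000000000000000000000000))) (.non (nat_lit 0) (nat_lit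 5) (nat_lit 0x415000) (nat_lit 0x100000000000100010001000000000000000000000000))) (.non (nat_lit 0) (nat_lit 5) (nat_lit 0x405000) (nat_lit 0x100000000000000010001000000000000000000000000))) (.non (nat_lit 0) (nat_lit 6) (nat_lit 0x440554) (nat_lit 0x100000001000000000000000200020003000200010000))) (.non (nat_lit 0) (nat_lit 5) (nat_lit 0x455100) (nat_lit 0x100000001000100010001000000010000000000000000))) (.non (nat_lit 0) (nat_lit 5) (nat_lit 0x455140) (nat_lit 0x100000001000100010001000000010001000000000000))) (.non (nat_lit 0) (nat_lit 5) (nat_lit 0x555050) (nat_lit 0x300020001000200030004000000000001000200000000))) (.star (nat_lit 0xb) (nat_lit 1) (nat_lit 6))) (.star (nat_lit 0xb) (nat_lit 0) (nat_lit 6))))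

noncomputable def t1537_185 : Tr := (.pd (.cons (nat_lit 2) (nat_lit 5) (nat_lit 0) (nat_lit 0x4987033000) (nat_lit 0x98965a2c28b71aef423f00000927bd8e6a200000f423f54591) (.cons (nat_lit 2) (nat_lit 6) (nat_lit 0) (nat_lit 0x4980333000) (nat_lit 0xa2c28b71aef423f00000f423f989655572c00000f423f54591) (.cons (nat_lit 3) (nat_lit 5) (nat_lit 0) (nat_lit 0x4987040100) (nat_lit 0x98965a2c28b71aef423f00000927bd00000f423fb71ae1f156) (.cons (nat_lit 3) (nat_lit 6) (nat_lit 0) (nat_lit 0x4980540100) (nat_lit 0xa2c28b71aef423f00000f423f9896500000f423fb71ae1f156) (.cons (nat_lit 4) (nat_lit 5) (nat_lit 0) (nat_lit 0x8766002100) (nat_lit 0xf423fb71aea2c28989650000000000f423fb71aea2c2804737) .nil))))) (.ex (nat_lit 6) (.pd (.cons (nat_lit 3) (nat_lit 7) (nat_lit 0) (nat_lit 0x4905540100) (nat_lit 0xb71aef423f00000f423f54591a2c2800000f423fb71ae1f156) (.cons (nat_lit 3) (nat_lit 8) (nat_lit 0) (nat_lit 0x4065540100) (nat_lit 0xf423f00000f423fb71ae1f156b71ae00000f423fb71ae1f156) (.cons (nat_lit 3) (nat_lit 9) (nat_lit 0) (nat_lit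 0x765540100) (nat_lit 0xf423fb71aea2c2804737f423f00000f423fb71ae1f156) .nil))) (.leaf (.cons (nat_lit 0x41540) (nat_lit 0x1000000000003000400020003000000000000) (.cons (nat_lit 0x5440) (nat_lit 0x10002000200000001000000000000) (.cons (nat_lit 0x455) (nat_lit 0x100000002000300040003) .nil))) (.cons (nat_lit 0x1110111110) (nat_lit 0x1000001) (nat_lit 0xe) (nat_lit 0x5670140230) (.cons (nat_lit 0x1110111000) (nat_lit 0x1000100) (nat_lit 4) (nat_lit 0x3450021000) .nil)))) (.split (nat_lit 0xa) (nat_lit 0) (.split (nat_lit 0xa) (nat_lit 1) (.split (nat_lit 0xa) (nat_lit 2) (.split (nat_lit 0xa) (nat_lit 3) (.split (nat_lit 0xa) (nat_lit 4) (.split (nat_lit 0xa) (nat_lit 5) (.split (nat_lit 0xa) (nat_lit 7) (.split (nat_lit 0xa) (nat_lit 8) (.split (nat_lit 0xa) (nat_lit 9) t1537_184 (.non (nat_lit 0) (nat_lit 5) (nat_lit 0x155000) (nat_lit 0x10001000100010001000000000000000000000000))) (.non (nat_lit 0) (nat_lit 5) (nat_lit 0x115000) (nat_lit 0x10000000100010001000000000000000000000000))) (.non (nat_lit 0) (nat_lit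 5) (nat_lit 0x105000) (nat_lit 0x10000000000010001000000000000000000000000))) (.non (nat_lit 0) (nat_lit 6) (nat_lit 0x140554) (nat_lit 0x10001000000000000000200020003000200010000))) (.non (nat_lit 0) (nat_lit 5) (nat_lit 0x155100) (nat_lit 0x10001000100010001000000010000000000000000))) (.non (nat_lit 0) (nat_lit 5) (nat_lit 0x155140) (nat_lit 0x10001000100010001000000010001000000000000))) (.non (nat_lit 0) (nat_lit 5) (nat_lit 0x155150) (nat_lit 0x10001000100010001000000010001000100000000))) (.star (nat_lit 0xa) (nat_lit 1) (nat_lit 6))) (.star (nat_lit 0xa) (nat_lit 0) (nat_lit 6)))))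

noncomputable def t1537_186 : Tr := (.st (nat_lit 3) (nat_lit 0) (nat_lit 5) (nat_lit 0x55154) (nat_lit 0x4000300020001000000050006000400020000) (nat_lit 1) (nat_lit 3) (.st (nat_lit 5) (nat_lit 0) (nat_lit 6) (nat_lit 0x40554) (nat_lit 0x1000000000000000200020003000200010000) (nat_lit 1) (nat_lit 1) (.st (nat_lit 7) (nat_lit 0) (nat_lit 6) (nat_lit 0x54554) (nat_lit 0x4000300020000000300050006000400020000) (nat_lit 1) (nat_lit 1) (.st (nat_lit 8) (nat_lit 0) (nat_lit 5) (nat_lit 0x55154) (nat_lit 0x5000600040002000000040003000200010000) (nat_lit 1) (nat_lit 3) (.st (nat_lit 4) (nat_lit 0) (nat_lit 5) (nat_lit 0x54154) (nat_lit 0x3000200010000000000040003000200010000) (nat_lit 1) (nat_lit 2) (.st (nat_lit 9) (nat_lit 0) (nat_lit 5) (nat_lit 0x55150) (nat_lit 0x4000300020001000000030002000100000000) (nat_lit 1) (nat_lit 2) (.ex (nat_lit 0) (.split (nat_lit 4) (nat_lit 3) (.split (nat_lit 9) (nat_lit 4) (.split (nat_lit 9) (nat_lit 8) (.split (nat_lit 5) (nat_lit 3) t1537_185 (.non (nat_lit 0) (nat_lit 6) (nat_lit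 0x950) (nat_lit 0x100010002000100000000))) (.non (nat_lit 0) (nat_lit 5) (nat_lit 0x6a100) (nat_lit 0x4000300020001000000020000000000000000))) (.non (nat_lit 0) (nat_lit 5) (nat_lit 0xa8140) (nat_lit 0x3000200010000000000040002000000000000))) (.non (nat_lit 0) (nat_lit 5) (nat_lit 0xa0250) (nat_lit 0x2000100000000000000030004000200000000))) (.split (nat_lit 0xa) (nat_lit 1) (.split (nat_lit 0xa) (nat_lit 2) (.split (nat_lit 0xa) (nat_lit 3) (.split (nat_lit 0xa) (nat_lit 4) (.split (nat_lit 0xa) (nat_lit 5) (.split (nat_lit 0xa) (nat_lit 6) (.split (nat_lit 0xa) (nat_lit 7) (.split (nat_lit 0xa) (nat_lit 8) (.split (nat_lit 0xa) (nat_lit 9) (.unj (nat_lit 0x100015) (nat_lit 0x10000000000000000000000000000000100020002) (nat_lit 0x55400) (nat_lit 0x1000200030004000300000000000000000000)) (.non (nat_lit 0) (nat_lit 5) (nat_lit 0x155150) (nat_lit 0x20004000300020001000000030002000100000000))) (.non (nat_lit 0) (nat_lit 5) (nat_lit 0x155154) (nat_lit 0x30005000600040002000000040003000200010000))) (.non (nat_lit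 0) (nat_lit 6) (nat_lit 0x154554) (nat_lit 0x10004000300020000000300050006000400020000))) (.star (nat_lit 0xa) (nat_lit 0) (nat_lit 6))) (.star (nat_lit 0xa) (nat_lit 0) (nat_lit 5))) (.non (nat_lit 0) (nat_lit 5) (nat_lit 0x154154) (nat_lit 0x20003000200010000000000040003000200010000))) (.non (nat_lit 0) (nat_lit 5) (nat_lit 0x155154) (nat_lit 0x30004000300020001000000050006000400020000))) (.non (nat_lit 0) (nat_lit 6) (nat_lit 0x100554) (nat_lit 0x10000000000000000000100010002000200010000))) (.non (nat_lit 0) (nat_lit 6) (nat_lit 0x150554) (nat_lit 0x10002000100000000000200030004000300020000))))))))))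

noncomputable def t1537_187 : Tr := (.ex (nat_lit 5) (.split (nat_lit 4) (nat_lit 3) (.split (nat_lit 9) (nat_lit 4) (.split (nat_lit 9) (nat_lit 8) (.split (nat_lit 8) (nat_lit 0) (.pd (.cons (nat_lit 0) (nat_lit 7) (nat_lit 0) (nat_lit 0x4905532110) (nat_lit 0xb71aef423f00000f423f54591a2c2898965927bd8e6a200000) (.cons (nat_lit 0) (nat_lit 8) (nat_lit 0) (nat_lit 0x4065532110) (nat_lit 0xf423f00000f423fb71ae1f156b71aea2c2898965927bd00000) (.cons (nat_lit 0) (nat_lit 9) (nat_lit 0) (nat_lit 0x765532110) (nat_lit 0xf423fb71aea2c2804737f423fb71aea2c289896500000) (.cons (nat_lit 1) (nat_lit 7) (nat_lit 0) (nat_lit 0x8005594300) (nat_lit 0x98965927bd00000f423f54591a2c28b71aef423f000008e6a2) (.cons (nat_lit 1) (nat_lit 8) (nat_lit 0) (nat_lit 0x4065532200) (nat_lit 0xf423f00000f423fb71ae1f156b71aea2c289896500000f423f) (.cons (nat_lit 2) (nat_lit 8) (nat_lit 0) (nat_lit 0x4065533000) (nat_lit 0xf423f00000f423fb71ae1f156b71aea2c2800000f423f54591) (.cons (nat_lit 3) (nat_lit 8) (nat_lit 0) (nat_lit 0x4065540100) (nat_lit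 0xf423f00000f423fb71ae1f156b71ae00000f423fb71ae1f156) (.cons (nat_lit 4) (nat_lit 8) (nat_lit 0) (nat_lit 0x9065502100) (nat_lit 0xf423f00000f423fb71ae1f15600000f423fb71aea2c2804737) .nil)))))))) (.leaf (.cons (nat_lit 0x15401) (nat_lit 0x200030004000300000000000000000001) (.cons (nat_lit 0x54005) (nat_lit 0x1000200010000000000000000000000020002) (.cons (nat_lit 0x50105) (nat_lit 0x2000300000000000000010000000000030004) (.cons (nat_lit 0x10015) (nat_lit 0x100000000000000000000000100020002) .nil)))) (.cons (nat_lit 0x1111011101) (nat_lit 0x100010) (nat_lit 0xe) (nat_lit 0x4023056701) (.cons (nat_lit 0x1100011101) (nat_lit 0x10000010) (nat_lit 4) (nat_lit 0x2100034500) .nil)))) (.non (nat_lit 1) (nat_lit 5) (nat_lit 0xa8001) (nat_lit 0x1000200010000000000000000000000000002))) (.non (nat_lit 0) (nat_lit 5) (nat_lit 0x6a100) (nat_lit 0x4000300020001000000020000000000000000))) (.non (nat_lit 0) (nat_lit 5) (nat_lit 0xa8140) (nat_lit 0x3000200010000000000040002000000000000))) (.non (nat_lit 0) (nat_lit 5) (nat_lit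 0xa0250) (nat_lit 0x2000100000000000000030004000200000000))) (.split (nat_lit 0xa) (nat_lit 0) (.split (nat_lit 0xa) (nat_lit 1) (.split (nat_lit 0xa) (nat_lit 2) (.split (nat_lit 0xa) (nat_lit 3) (.split (nat_lit 0xa) (nat_lit 4) (.split (nat_lit 0xa) (nat_lit 6) (.split (nat_lit 0xa) (nat_lit 7) (.split (nat_lit 0xa) (nat_lit 8) (.split (nat_lit 0xa) (nat_lit 9) (.unj (nat_lit 0x105400) (nat_lit 0x10000000000010002000200000000000000000000) (nat_lit 0x155) (nat_lit 0x10002000300040003)) (.non (nat_lit 0) (nat_lit 5) (nat_lit 0x155150) (nat_lit 0x20004000300020001000000030002000100000000))) (.non (nat_lit 0) (nat_lit 5) (nat_lit 0x155154) (nat_lit 0x30005000600040002000000040003000200010000))) (.non (nat_lit 1) (nat_lit 5) (nat_lit 0x155001) (nat_lit 0x10001000200020001000000000000000000000001))) (.non (nat_lit 1) (nat_lit 5) (nat_lit 0x155141) (nat_lit 0x10003000400030002000000020001000000000002))) (.non (nat_lit 0) (nat_lit 5) (nat_lit 0x154154) (nat_lit 0x20003000200010000000000040003000200010000))) (.non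 (nat_lit 0) (nat_lit 5) (nat_lit 0x155154) (nat_lit 0x30004000300020001000000050006000400020000))) (.non (nat_lit 0) (nat_lit 6) (nat_lit 0x154554) (nat_lit 0x40003000200010000000200040005000600030000))) (.star (nat_lit 0xa) (nat_lit 1) (nat_lit 5))) (.star (nat_lit 0xa) (nat_lit 0) (nat_lit 5))))

noncomputable def t1537_188 : Tr := (.ex (nat_lit 0xb) (.split (nat_lit 0xb) (nat_lit 0xa) (.pd (.cons (nat_lit 2) (nat_lit 8) (nat_lit 0) (nat_lit 0xa14065533000) (nat_lit 0xf423fb71aef423f00000f423fb71ae1f156b71aea2c2800000a2c2804737) .nil) (.leaf (.cons (nat_lit 0x15401) (nat_lit 0x200030004000300000000000000000001) (.cons (nat_lit 0x110005) (nat_lit 0x10000000100000000000000000000000000020002) (.cons (nat_lit 0x100015) (nat_lit 0x10000000000000000000000000000000100020002) .nil))) (.cons (nat_lit 0x1111011101) (nat_lit 0x100010) (nat_lit 0xe) (nat_lit 0x4023056701) (.cons (nat_lit 0x1100011101) (nat_lit 0x10000010) (nat_lit 4) (nat_lit 0x2100034500) .nil)))) (.sup (nat_lit 0x40007000b0010000d00020000000000000000)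 (nat_lit 0x400060000000000000000000000000001000400060002))) (.split (nat_lit 0xc) (nat_lit 0) (.split (nat_lit 0xc) (nat_lit 1) (.split (nat_lit 0xc) (nat_lit 2) (.split (nat_lit 0xc) (nat_lit 3) (.split (nat_lit 0xc) (nat_lit 4) (.split (nat_lit 0xc) (nat_lit 5) (.split (nat_lit 0xc) (nat_lit 6) (.split (nat_lit 0xc) (nat_lit 7) (.split (nat_lit 0xc) (nat_lit 8) (.split (nat_lit 0xc) (nat_lit 9) (.split (nat_lit 0xc) (nat_lit 0xa) (.leaf (.cons (nat_lit 0x15401) (nat_lit 0x200030004000300000000000000000001) (.cons (nat_lit 0x1500005) (nat_lit 0x1000200030000000000000000000000000000000000040003) .nil)) (.cons (nat_lit 0x1111011101) (nat_lit 0x100010) (nat_lit 0xe) (nat_lit 0x4023056701) (.cons (nat_lit 0x1100011101) (nat_lit 0x10000010) (nat_lit 4) (nat_lit 0x2100034500) .nil))) (.non (nat_lit 0) (nat_lit 5) (nat_lit 0x1500000) (nat_lit 0x1000100010000000000000000000000000000000000000000))) (.non (nat_lit 0) (nat_lit 5) (nat_lit 0x1555100) (nat_lit 0x3000200010004000300020001000000020000000000000000))) (.non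 (nat_lit 0) (nat_lit 5) (nat_lit 0x1455100) (nat_lit 0x2000100000002000300020001000000010000000000000000))) (.non (nat_lit 0) (nat_lit 5) (nat_lit 0x1555100) (nat_lit 0x3000200010002000300040002000000010000000000000000))) (.non (nat_lit 0) (nat_lit 5) (nat_lit 0x1555154) (nat_lit 0x1000100010001000100010001000000010001000100010000))) (.non (nat_lit 0) (nat_lit 7) (nat_lit 0x1501400) (nat_lit 0x3000200010000000000000003000400000000000000000000))) (.non (nat_lit 0) (nat_lit 5) (nat_lit 0x1554140) (nat_lit 0x3000200010003000200010000000000040002000000000000))) (.non (nat_lit 0) (nat_lit 5) (nat_lit 0x1550150) (nat_lit 0x3000200010002000100000000000000030004000200000000))) (.non (nat_lit 0) (nat_lit 5) (nat_lit 0x1500014) (nat_lit 0x1000100010000000000000000000000000000000100010000))) (.non (nat_lit 0) (nat_lit 5) (nat_lit 0x1500004) (nat_lit 0x1000100010000000000000000000000000000000000010000))) (.non (nat_lit 1) (nat_lit 5) (nat_lit 0x1055101) (nat_lit 0x1000000000002000300020001000000010000000000000002))))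

noncomputable def t1537_189 : Tr := (.split (nat_lit 0xb) (nat_lit 4) (.split (nat_lit 0xb) (nat_lit 5) (.split (nat_lit 0xb) (nat_lit 6) (.split (nat_lit 0xb) (nat_lit 7) (.split (nat_lit 0xb) (nat_lit 8) (.split (nat_lit 0xb) (nat_lit 9) (.ex (nat_lit 0xa) t1537_188 (.split (nat_lit 0xc) (nat_lit 0) (.split (nat_lit 0xc) (nat_lit 1) (.split (nat_lit 0xc) (nat_lit 2) (.split (nat_lit 0xc) (nat_lit 3) (.split (nat_lit 0xc) (nat_lit 4) (.split (nat_lit 0xc) (nat_lit 5) (.split (nat_lit 0xc) (nat_lit 6) (.split (nat_lit 0xc) (nat_lit 7) (.split (nat_lit 0xc) (nat_lit 8) (.split (nat_lit 0xc) (nat_lit 9) (.split (nat_lit 0xc) (nat_lit 0xb) (.sup (nat_lit 0x40007000b0010000d00020000000000000000) (nat_lit 0x3000300060000000000000000000000000001000400060002)) (.non (nat_lit 0) (nat_lit 5) (nat_lit 0x1500000) (nat_lit 0x1000100010000000000000000000000000000000000000000))) (.non (nat_lit 0) (nat_lit 5) (nat_lit 0x1555100) (nat_lit 0x3000100020004000300020001000000020000000000000000))) (.non (nat_lit 0) (nat_lit 5)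 (nat_lit 0x1155100) (nat_lit 0x2000000010002000300020001000000010000000000000000))) (.non (nat_lit 0) (nat_lit 5) (nat_lit 0x1555100) (nat_lit 0x3000100020002000300040002000000010000000000000000))) (.non (nat_lit 0) (nat_lit 5) (nat_lit 0x1555014) (nat_lit 0x5000300060001000200030004000000000000000200040000))) (.non (nat_lit 0) (nat_lit 6) (nat_lit 0x1540554) (nat_lit 0x4000300060001000000000000000200020003000400050000))) (.non (nat_lit 0) (nat_lit 5) (nat_lit 0x1554140) (nat_lit 0x3000100020003000200010000000000040002000000000000))) (.non (nat_lit 0) (nat_lit 5) (nat_lit 0x1550150) (nat_lit 0x3000100020002000100000000000000030004000200000000))) (.non (nat_lit 0) (nat_lit 5) (nat_lit 0x1100014) (nat_lit 0x1000000010000000000000000000000000000000100010000))) (.non (nat_lit 0) (nat_lit 5) (nat_lit 0x1100004) (nat_lit 0x1000000010000000000000000000000000000000000010000))) (.non (nat_lit 1) (nat_lit 5) (nat_lit 0x1055101) (nat_lit 0x1000000000002000300020001000000010000000000000002)))) (.non (nat_lit 0) (nat_lit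 5) (nat_lit 0x554140) (nat_lit 0x200010003000200010000000000020001000000000000))) (.non (nat_lit 0) (nat_lit 5) (nat_lit 0x555100) (nat_lit 0x200010002000300020001000000010000000000000000))) (.non (nat_lit 0) (nat_lit 5) (nat_lit 0x555150) (nat_lit 0x400020004000500060003000000030002000100000000))) (.non (nat_lit 0) (nat_lit 5) (nat_lit 0x555154) (nat_lit 0x100010001000100010001000000010001000100010000))) (.non (nat_lit 0) (nat_lit 7) (nat_lit 0x501404) (nat_lit 0x300020000000000000003000400000000000000010000))) (.non (nat_lit 0) (nat_lit 5) (nat_lit 0x550150) (nat_lit 0x200010002000100000000000000030002000100000000)))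

noncomputable def t1537_190 : Tr := (.split (nat_lit 0xa) (nat_lit 1) (.split (nat_lit 4) (nat_lit 3) (.split (nat_lit 9) (nat_lit 4) (.split (nat_lit 9) (nat_lit 8) (.split (nat_lit 8) (nat_lit 0) (.pd (.cons (nat_lit 0) (nat_lit 7) (nat_lit 0) (nat_lit 0x14905532110) (nat_lit 0xf423fb71aef423f00000f423f54591a2c2898965927bd5161100000) (.cons (nat_lit 0) (nat_lit 8) (nat_lit 0) (nat_lit 0x14065532110) (nat_lit 0xf423ff423f00000f423fb71ae1f156b71aea2c28989655572c00000) (.cons (nat_lit 0) (nat_lit 9) (nat_lit 0) (nat_lit 0x10765532110) (nat_lit 0xf423f00000f423fb71aea2c2804737f423fb71aea2c285b8d400000) (.cons (nat_lit 1) (nat_lit 7) (nat_lit 0) (nat_lit 0xa8005594300) (nat_lit 0xf423f98965927bd00000f423f54591a2c28b71aef423f000008e6a2) (.cons (nat_lit 1) (nat_lit 8) (nat_lit 0) (nat_lit 0xa4065532200) (nat_lit 0xf423ff423f00000f423fb71ae1f156b71aea2c289896500000f423f) .nil))))) (.ex (nat_lit 0xa) (.pd (.cons (nat_lit 2) (nat_lit 8) (nat_lit 0) (nat_lit 0x14065533000) (nat_lit 0xf423ff423f00000f423fb71ae1f156b71aea2c2800000b71ae1f156)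 .nil) (.leaf (.cons (nat_lit 0x15401) (nat_lit 0x200030004000300000000000000000001) (.cons (nat_lit 0x110005) (nat_lit 0x10000000100000000000000000000000000020002) (.cons (nat_lit 0x100015) (nat_lit 0x10000000000000000000000000000000100020002) .nil))) (.cons (nat_lit 0x1111011101) (nat_lit 0x100010) (nat_lit 0xe) (nat_lit 0x4023056701) (.cons (nat_lit 0x1100011101) (nat_lit 0x10000010) (nat_lit 4) (nat_lit 0x2100034500) .nil)))) (.split (nat_lit 0xb) (nat_lit 0) (.split (nat_lit 0xb) (nat_lit 1) (.split (nat_lit 0xb) (nat_lit 2) (.split (nat_lit 0xb) (nat_lit 3) t1537_189 (.non (nat_lit 0) (nat_lit 5) (nat_lit 0x555150) (nat_lit 0x400020004000300020001000000050006000300000000))) (.non (nat_lit 0) (nat_lit 5) (nat_lit 0x500014) (nat_lit 0x100010000000000000000000000000000000100010000))) (.non (nat_lit 0) (nat_lit 5) (nat_lit 0x500004) (nat_lit 0x100010000000000000000000000000000000000010000))) (.non (nat_lit 1) (nat_lit 5) (nat_lit 0x455101) (nat_lit 0x100000002000300020001000000010000000000000002))))) (.non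 (nat_lit 1) (nat_lit 5) (nat_lit 0xa8001) (nat_lit 0x1000200010000000000000000000000000002))) (.non (nat_lit 0) (nat_lit 5) (nat_lit 0x6a100) (nat_lit 0x4000300020001000000020000000000000000))) (.non (nat_lit 0) (nat_lit 5) (nat_lit 0xa8140) (nat_lit 0x3000200010000000000040002000000000000))) (.non (nat_lit 0) (nat_lit 5) (nat_lit 0xa0250) (nat_lit 0x2000100000000000000030004000200000000))) (.split (nat_lit 0xa) (nat_lit 1) (.split (nat_lit 9) (nat_lit 4) (.split (nat_lit 9) (nat_lit 8) (.split (nat_lit 8) (nat_lit 0) (.sup (nat_lit 0x40007000b0010000d00020000000000000000) (nat_lit 0x40000000000000000000000000001000400060002)) (.non (nat_lit 1) (nat_lit 5) (nat_lit 0xa8001) (nat_lit 0x1000200010000000000000000000000000002))) (.non (nat_lit 0) (nat_lit 5) (nat_lit 0x6a100) (nat_lit 0x4000300020001000000020000000000000000))) (.non (nat_lit 0) (nat_lit 5) (nat_lit 0xa8140) (nat_lit 0x3000200010000000000040002000000000000))) (.non (nat_lit 0) (nat_lit 5) (nat_lit 0x100154) (nat_lit 0x30000000000000000000000010002000300040000))))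

noncomputable def t1537_191 : Tr := (.ex (nat_lit 1) (.ex (nat_lit 5) t1537_190 (.split (nat_lit 0xb) (nat_lit 0) (.split (nat_lit 0xb) (nat_lit 1) (.split (nat_lit 0xb) (nat_lit 2) (.split (nat_lit 0xb) (nat_lit 3) (.split (nat_lit 0xb) (nat_lit 4) (.split (nat_lit 0xb) (nat_lit 6) (.split (nat_lit 0xb) (nat_lit 7) (.split (nat_lit 0xb) (nat_lit 8) (.split (nat_lit 0xb) (nat_lit 9) (.split (nat_lit 0xb) (nat_lit 0xa) (.unj (nat_lit 0x100015) (nat_lit 0x10000000000000000000000000000000100020002) (nat_lit 0x405400) (nat_lit 0x100000000000000010002000200000000000000000000)) (.unj (nat_lit 0x405400) (nat_lit 0x100000000000000010002000200000000000000000000) (nat_lit 0x155) (nat_lit 0x10002000300040003))) (.non (nat_lit 0) (nat_lit 5) (nat_lit 0x455150) (nat_lit 0x200000004000300020001000000030002000100000000))) (.non (nat_lit 0) (nat_lit 5) (nat_lit 0x455154) (nat_lit 0x300000005000600040002000000040003000200010000))) (.non (nat_lit 1) (nat_lit 5) (nat_lit 0x455001) (nat_lit 0x100000001000200020001000000000000000000000001)))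 (.non (nat_lit 1) (nat_lit 5) (nat_lit 0x455141) (nat_lit 0x100000003000400030002000000020001000000000002))) (.non (nat_lit 0) (nat_lit 5) (nat_lit 0x454154) (nat_lit 0x200000003000200010000000000040003000200010000))) (.non (nat_lit 0) (nat_lit 5) (nat_lit 0x550154) (nat_lit 0x200010002000100000000000000030004000300020000))) (.non (nat_lit 0) (nat_lit 5) (nat_lit 0x554154) (nat_lit 0x300020003000200010000000000040005000600040000))) (.star (nat_lit 0xb) (nat_lit 1) (nat_lit 5))) (.star (nat_lit 0xb) (nat_lit 0) (nat_lit 5)))) (.split (nat_lit 0xb) (nat_lit 0) (.split (nat_lit 0xb) (nat_lit 2) (.split (nat_lit 0xb) (nat_lit 3) (.split (nat_lit 0xb) (nat_lit 4) (.split (nat_lit 0xb) (nat_lit 5) (.split (nat_lit 0xb) (nat_lit 6) (.split (nat_lit 0xb) (nat_lit 7) (.split (nat_lit 0xb) (nat_lit 8) (.split (nat_lit 0xb) (nat_lit 9) (.split (nat_lit 0xb) (nat_lit 0xa) (.split (nat_lit 0xb) (nat_lit 1) (.split (nat_lit 0xa) (nat_lit 1) (.split (nat_lit 9) (nat_lit 4) (.split (nat_lit 9) (nat_lit 8) (.split (nat_lit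 8) (nat_lit 0) (.sup (nat_lit 0x40007000b0010000d00020000000000000000) (nat_lit 0x300030000000000000000000000000001000400060002)) (.non (nat_lit 1) (nat_lit 5) (nat_lit 0xa8001) (nat_lit 0x1000200010000000000000000000000000002))) (.non (nat_lit 0) (nat_lit 5) (nat_lit 0x6a100) (nat_lit 0x4000300020001000000020000000000000000))) (.non (nat_lit 0) (nat_lit 5) (nat_lit 0xa8140) (nat_lit 0x3000200010000000000040002000000000000))) (.non (nat_lit 0) (nat_lit 5) (nat_lit 0x600014) (nat_lit 0x100010000000000000000000000000000000100020000))) (.non (nat_lit 0) (nat_lit 5) (nat_lit 0x900014) (nat_lit 0x100010000000000000000000000000000000100020000))) (.non (nat_lit 0) (nat_lit 5) (nat_lit 0x500004) (nat_lit 0x100010000000000000000000000000000000000010000))) (.non (nat_lit 0) (nat_lit 5) (nat_lit 0x455150) (nat_lit 0x200000004000300020001000000030002000100000000))) (.non (nat_lit 0) (nat_lit 5) (nat_lit 0x455104) (nat_lit 0x200000002000300020001000000010000000000010000))) (.non (nat_lit 0) (nat_lit 5) (nat_lit 0x555104)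 (nat_lit 0x300010002000300040002000000010000000000020000))) (.star (nat_lit 0xb) (nat_lit 1) (nat_lit 6))) (.star (nat_lit 0xb) (nat_lit 1) (nat_lit 5))) (.non (nat_lit 0) (nat_lit 5) (nat_lit 0x554144) (nat_lit 0x300010003000200010000000000040002000000020000))) (.non (nat_lit 0) (nat_lit 5) (nat_lit 0x400054) (nat_lit 0x100000000000000000000000000000001000100010000))) (.non (nat_lit 0) (nat_lit 5) (nat_lit 0x400014) (nat_lit 0x100000000000000000000000000000000000100010000))) (.non (nat_lit 1) (nat_lit 5) (nat_lit 0x455101) (nat_lit 0x100000002000300020001000000010000000000000002))))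

noncomputable def t1537_192 : Tr := (.split (nat_lit 8) (nat_lit 0) (.split (nat_lit 5) (nat_lit 3) (.sup (nat_lit 0x100040007000a0008) (nat_lit 0x100040007000a000800000000000000000000)) (.st (nat_lit 1) (nat_lit 0) (nat_lit 6) (nat_lit 0x50554) (nat_lit 0x2000100000000000200030004000300020000) (nat_lit 1) (nat_lit 1) (.st (nat_lit 2) (nat_lit 0) (nat_lit 6) (nat_lit 0x554) (nat_lit 0x100010002000200010000) (nat_lit 1) (nat_lit 1) t1537_186))) (.split (nat_lit 5) (nat_lit 3) (.st (nat_lit 0) (nat_lit 1) (nat_lit 5) (nat_lit 0x55101) (nat_lit 0x2000300020001000000010000000000000002) (nat_lit 1) (nat_lit 1) (.st (nat_lit 2) (nat_lit 1) (nat_lit 5) (nat_lit 0x55151) (nat_lit 0x5000600040002000000040003000200000003) (nat_lit 1) (nat_lit 1) (.st (nat_lit 3) (nat_lit 0) (nat_lit 5) (nat_lit 0x55154) (nat_lit 0x4000300020001000000050006000400020000) (nat_lit 1) (nat_lit 3) (.st (nat_lit 6) (nat_lit 1) (nat_lit 5) (nat_lit 0x55141) (nat_lit 0x3000400030002000000020001000000000002) (nat_lit 1) (nat_lit 1) (.st (nat_lit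 7) (nat_lit 1) (nat_lit 5) (nat_lit 0x55001) (nat_lit 0x1000200020001000000000000000000000001) (nat_lit 1) (nat_lit 1) (.st (nat_lit 8) (nat_lit 0) (nat_lit 5) (nat_lit 0x55154) (nat_lit 0x5000600040002000000040003000200010000) (nat_lit 1) (nat_lit 3) (.st (nat_lit 4) (nat_lit 0) (nat_lit 5) (nat_lit 0x54154) (nat_lit 0x3000200010000000000040003000200010000) (nat_lit 1) (nat_lit 2) (.st (nat_lit 9) (nat_lit 0) (nat_lit 5) (nat_lit 0x55150) (nat_lit 0x4000300020001000000030002000100000000) (nat_lit 1) (nat_lit 2) (.ex (nat_lit 1) t1537_187 (.split (nat_lit 0xa) (nat_lit 0) (.split (nat_lit 0xa) (nat_lit 2) (.split (nat_lit 0xa) (nat_lit 3) (.split (nat_lit 0xa) (nat_lit 4) (.split (nat_lit 0xa) (nat_lit 5) (.split (nat_lit 0xa) (nat_lit 6) (.split (nat_lit 0xa) (nat_lit 7) (.split (nat_lit 0xa) (nat_lit 8) (.split (nat_lit 0xa) (nat_lit 9) t1537_191 (.non (nat_lit 0) (nat_lit 5) (nat_lit 0x155150) (nat_lit 0x20004000300020001000000030002000100000000))) (.non (nat_lit 0) (nat_lit 5) (nat_lit 0x155104) (nat_lit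 0x20002000300020001000000010000000000010000))) (.non (nat_lit 0) (nat_lit 5) (nat_lit 0x155114) (nat_lit 0x30002000300040002000000010000000100020000))) (.star (nat_lit 0xa) (nat_lit 1) (nat_lit 6))) (.star (nat_lit 0xa) (nat_lit 1) (nat_lit 5))) (.non (nat_lit 0) (nat_lit 5) (nat_lit 0x100154) (nat_lit 0x10000000000000000000000010001000100010000))) (.non (nat_lit 0) (nat_lit 5) (nat_lit 0x100054) (nat_lit 0x10000000000000000000000000001000100010000))) (.non (nat_lit 0) (nat_lit 5) (nat_lit 0x100014) (nat_lit 0x10000000000000000000000000000000100010000))) (.non (nat_lit 1) (nat_lit 5) (nat_lit 0x155101) (nat_lit 0x10002000300020001000000010000000000000002)))))))))))) (.non (nat_lit 1) (nat_lit 6) (nat_lit 0x54551) (nat_lit 0x2000200010000000100020002000100000001))))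

noncomputable def t1537_193 : Tr := (.ex (nat_lit 5) (.pd (.cons (nat_lit 0) (nat_lit 7) (nat_lit 0) (nat_lit 0x3905532110) (nat_lit 0xb71aef423f00000f423f54591f423f65b9761a795b8cc00000) (.cons (nat_lit 0) (nat_lit 8) (nat_lit 0) (nat_lit 0x3065532110) (nat_lit 0xf423f00000f423fb71ae1f156f423f7a11d7a11b7a11900000) (.cons (nat_lit 0) (nat_lit 9) (nat_lit 0) (nat_lit 0x765532110) (nat_lit 0xf423fb71aea2c2804737f423fb71aea2c289896500000) (.cons (nat_lit 1) (nat_lit 7) (nat_lit 0) (nat_lit 0x3905532200) (nat_lit 0xb71aef423f00000f423f54591f423f65b9761a7900000f423f) (.cons (nat_lit 1) (nat_lit 8) (nat_lit 0) (nat_lit 0x3065532200) (nat_lit 0xf423f00000f423fb71ae1f156f423f7a11d7a11b00000f423f) (.cons (nat_lit 1) (nat_lit 9) (nat_lit 0) (nat_lit 0x765532200) (nat_lit 0xf423fb71aea2c2804737f423fb71aea2c2800000f423f) (.cons (nat_lit 2) (nat_lit 7) (nat_lit 0) (nat_lit 0x3905533000) (nat_lit 0xb71aef423f00000f423f54591f423f65b9700000f423f54591) (.cons (nat_lit 2) (nat_lit 8) (nat_lit 0) (nat_lit 0x3065533000) (nat_lit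 0xf423f00000f423fb71ae1f156f423f7a11d00000f423f54591) (.cons (nat_lit 2) (nat_lit 9) (nat_lit 0) (nat_lit 0x765533000) (nat_lit 0xf423fb71aea2c2804737f423fb71ae00000f423f54591) (.cons (nat_lit 3) (nat_lit 7) (nat_lit 0) (nat_lit 0x8805540100) (nat_lit 0xf423fb71ae00000f423f54591f423f00000f423fb71ae1f156) (.cons (nat_lit 3) (nat_lit 8) (nat_lit 0) (nat_lit 0x9065540100) (nat_lit 0xf423f00000f423fb71ae1f156f423f00000f423fb71ae1f156) (.cons (nat_lit 3) (nat_lit 9) (nat_lit 0) (nat_lit 0x765540100) (nat_lit 0xf423fb71aea2c2804737f423f00000f423fb71ae1f156) (.cons (nat_lit 4) (nat_lit 9) (nat_lit 0) (nat_lit 0x765502100) (nat_lit 0xf423fb71aea2c280473700000f423fb71aea2c2804737) .nil))))))))))))) (.l31 (nat_lit 0x9876543210))) (.split (nat_lit 0xa) (nat_lit 0) (.split (nat_lit 0xa) (nat_lit 1) (.split (nat_lit 0xa) (nat_lit 2) (.split (nat_lit 0xa) (nat_lit 3) (.split (nat_lit 0xa) (nat_lit 4) (.split (nat_lit 0xa) (nat_lit 6) (.split (nat_lit 0xa) (nat_lit 7) (.split (nat_lit 0xa) (nat_lit 8) (.split (nat_lit 0xa)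 (nat_lit 9) (.unj (nat_lit 0x105400) (nat_lit 0x10000000000010002000200000000000000000000) (nat_lit 0x155) (nat_lit 0x10002000300040003)) (.non (nat_lit 0) (nat_lit 5) (nat_lit 0x150150) (nat_lit 0x10002000100000000000000010002000100000000))) (.non (nat_lit 0) (nat_lit 5) (nat_lit 0x154150) (nat_lit 0x10002000200010000000000010002000100000000))) (.non (nat_lit 0) (nat_lit 5) (nat_lit 0x155150) (nat_lit 0x10002000200020001000000010002000100000000))) (.non (nat_lit 0) (nat_lit 5) (nat_lit 0x155154) (nat_lit 0x10005000400030002000000030006000400020000))) (.non (nat_lit 0) (nat_lit 5) (nat_lit 0x150154) (nat_lit 0x10002000100000000000000020003000200010000))) (.non (nat_lit 0) (nat_lit 5) (nat_lit 0x140150) (nat_lit 0x10001000000000000000000010002000100000000))) (.non (nat_lit 0) (nat_lit 5) (nat_lit 0x140154) (nat_lit 0x10001000000000000000000010002000200010000))) (.star (nat_lit 0xa) (nat_lit 1) (nat_lit 5))) (.star (nat_lit 0xa) (nat_lit 0) (nat_lit 5))))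

noncomputable def t1537_194 : Tr := (.st (nat_lit 4) (nat_lit 0) (nat_lit 5) (nat_lit 0x50154) (nat_lit 0x2000100000000000000020003000200010000) (nat_lit 1) (nat_lit 1) (.st (nat_lit 9) (nat_lit 0) (nat_lit 5) (nat_lit 0x50150) (nat_lit 0x2000100000000000000010002000100000000) (nat_lit 1) (nat_lit 1) (.ex (nat_lit 0) (.split (nat_lit 4) (nat_lit 3) (.split (nat_lit 9) (nat_lit 3) (.split (nat_lit 9) (nat_lit 8) (.pd (.cons (nat_lit 2) (nat_lit 5) (nat_lit 0) (nat_lit 0x3987033000) (nat_lit 0x98965a2c28b71aef423f00000f423f5572c00000f423f54591) (.cons (nat_lit 2) (nat_lit 6) (nat_lit 0) (nat_lit 0x3980533000) (nat_lit 0xa2c28b71aef423f00000f423ff423f5b8d400000f423f54591) (.cons (nat_lit 3) (nat_lit 5) (nat_lit 0) (nat_lit 0x8766040100) (nat_lit 0xf423fb71aea2c289896500000f423f00000f423fb71ae1f156) (.cons (nat_lit 3) (nat_lit 6) (nat_lit 0) (nat_lit 0x8770540100) (nat_lit 0xf423fb71aea2c2800000f423ff423f00000f423fb71ae1f156) .nil)))) t1537_193) (.non (nat_lit 0) (nat_lit 5) (nat_lit 0x6a040) (nat_lit 0x4000300020001000000000002000000000000)))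 (.non (nat_lit 0) (nat_lit 5) (nat_lit 0xa8140) (nat_lit 0x3000200010000000000020004000000000000))) (.non (nat_lit 0) (nat_lit 5) (nat_lit 0x40250) (nat_lit 0x1000000000000000000010002000100000000))) (.split (nat_lit 0xa) (nat_lit 1) (.split (nat_lit 0xa) (nat_lit 2) (.split (nat_lit 0xa) (nat_lit 3) (.split (nat_lit 0xa) (nat_lit 4) (.split (nat_lit 0xa) (nat_lit 5) (.split (nat_lit 0xa) (nat_lit 6) (.split (nat_lit 0xa) (nat_lit 7) (.split (nat_lit 0xa) (nat_lit 8) (.split (nat_lit 0xa) (nat_lit 9) (.unj (nat_lit 0x100015) (nat_lit 0x10000000000000000000000000000000100020002) (nat_lit 0x55400) (nat_lit 0x1000200030004000300000000000000000000)) (.non (nat_lit 0) (nat_lit 5) (nat_lit 0x150150) (nat_lit 0x10002000100000000000000010002000100000000))) (.non (nat_lit 0) (nat_lit 5) (nat_lit 0x154150) (nat_lit 0x10002000200010000000000010002000100000000))) (.non (nat_lit 0) (nat_lit 5) (nat_lit 0x155150) (nat_lit 0x10002000200020001000000010002000100000000))) (.star (nat_lit 0xa) (nat_lit 0) (nat_lit 6))) (.star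 (nat_lit 0xa) (nat_lit 0) (nat_lit 5))) (.non (nat_lit 0) (nat_lit 5) (nat_lit 0x150154) (nat_lit 0x10002000100000000000000020003000200010000))) (.non (nat_lit 0) (nat_lit 5) (nat_lit 0x140150) (nat_lit 0x10001000000000000000000010002000100000000))) (.non (nat_lit 0) (nat_lit 5) (nat_lit 0x140154) (nat_lit 0x10001000000000000000000010002000200010000))) (.non (nat_lit 0) (nat_lit 5) (nat_lit 0x154154) (nat_lit 0x10003000200010000000000020004000300020000))))))

noncomputable def t1537_195 : Tr := (.split (nat_lit 9) (nat_lit 3) (.split (nat_lit 9) (nat_lit 4) t1537_181 (.split (nat_lit 8) (nat_lit 1) (.split (nat_lit 8) (nat_lit 4) (.split (nat_lit 7) (nat_lit 4) (.split (nat_lit 6) (nat_lit 3) (.split (nat_lit 6) (nat_lit 4) (.split (nat_lit 5) (nat_lit 4) t1537_192 (.non (nat_lit 0) (nat_lit 6) (nat_lit 0x54554) (nat_lit 0x3000200010000000200040003000200010000))) (.non (nat_lit 0) (nat_lit 5) (nat_lit 0x55100) (nat_lit 0x1000100010001000000010000000000000000))) (.non (nat_lit 0) (nat_lit 5) (nat_lit 0x55140)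 (nat_lit 0x1000100010001000000010001000000000000))) (.non (nat_lit 0) (nat_lit 5) (nat_lit 0x54100) (nat_lit 0x1000100010000000000010000000000000000))) (.non (nat_lit 0) (nat_lit 5) (nat_lit 0x50100) (nat_lit 0x1000100000000000000010000000000000000))) (.non (nat_lit 0) (nat_lit 5) (nat_lit 0x55114) (nat_lit 0x2000300020001000000010000000100020000)))) (.split (nat_lit 9) (nat_lit 4) (.split (nat_lit 8) (nat_lit 0) (.split (nat_lit 8) (nat_lit 1) (.split (nat_lit 8) (nat_lit 4) (.split (nat_lit 7) (nat_lit 4) (.split (nat_lit 6) (nat_lit 3) (.split (nat_lit 6) (nat_lit 4) (.split (nat_lit 5) (nat_lit 3) (.split (nat_lit 5) (nat_lit 4) (.st (nat_lit 1) (nat_lit 0) (nat_lit 5) (nat_lit 0x54154) (nat_lit 0x3000200010000000000020004000300020000) (nat_lit 1) (nat_lit 1) (.st (nat_lit 2) (nat_lit 0) (nat_lit 5) (nat_lit 0x40154) (nat_lit 0x1000000000000000000010002000200010000) (nat_lit 1) (nat_lit 1) (.st (nat_lit 3) (nat_lit 0) (nat_lit 5) (nat_lit 0x40150) (nat_lit 0x1000000000000000000010002000100000000) (nat_lit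 1) (nat_lit 1) (.st (nat_lit 6) (nat_lit 0) (nat_lit 5) (nat_lit 0x55154) (nat_lit 0x5000400030002000000030006000400020000) (nat_lit 1) (nat_lit 1) (.st (nat_lit 7) (nat_lit 0) (nat_lit 5) (nat_lit 0x55150) (nat_lit 0x2000200020001000000010002000100000000) (nat_lit 1) (nat_lit 1) (.st (nat_lit 8) (nat_lit 0) (nat_lit 5) (nat_lit 0x54150) (nat_lit 0x2000200010000000000010002000100000000) (nat_lit 1) (nat_lit 1) t1537_194)))))) (.non (nat_lit 0) (nat_lit 6) (nat_lit 0x50554) (nat_lit 0x2000100000000000100020003000200010000))) (.non (nat_lit 0) (nat_lit 6) (nat_lit 0x40550) (nat_lit 0x1000000000000000100010002000100000000))) (.non (nat_lit 0) (nat_lit 5) (nat_lit 0x55140) (nat_lit 0x1000100010001000000010001000000000000))) (.non (nat_lit 0) (nat_lit 5) (nat_lit 0x55040) (nat_lit 0x1000100010001000000000001000000000000))) (.non (nat_lit 0) (nat_lit 5) (nat_lit 0x54140) (nat_lit 0x1000100010000000000010001000000000000))) (.non (nat_lit 0) (nat_lit 5) (nat_lit 0x50140) (nat_lit 0x1000100000000000000010001000000000000)))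 (.non (nat_lit 0) (nat_lit 5) (nat_lit 0x50054) (nat_lit 0x1000100000000000000000001000100010000))) (.non (nat_lit 1) (nat_lit 5) (nat_lit 0x54151) (nat_lit 0x2000200010000000000010002000100000001))) (.non (nat_lit 0) (nat_lit 5) (nat_lit 0x40140) (nat_lit 0x1000000000000000000010001000000000000))))

noncomputable def t1537_196 : Tr := (.split (nat_lit 4) (nat_lit 3) (.pd (.cons (nat_lit 0) (nat_lit 7) (nat_lit 0) (nat_lit 0x2905532110) (nat_lit 0xb71aef423f00000f423f54591f423fb71ae516113d08500000) (.cons (nat_lit 0) (nat_lit 8) (nat_lit 0) (nat_lit 0x2065532110) (nat_lit 0xf423f00000f423fb71ae1f156f423fb71ae65b9761a7900000) (.cons (nat_lit 0) (nat_lit 9) (nat_lit 0) (nat_lit 0x765532110) (nat_lit 0xf423fb71aea2c2804737f423fb71aea2c289896500000) (.cons (nat_lit 1) (nat_lit 7) (nat_lit 0) (nat_lit 0x2905532200) (nat_lit 0xb71aef423f00000f423f54591f423fb71ae5161100000f423f) (.cons (nat_lit 1) (nat_lit 8) (nat_lit 0) (nat_lit 0x2065532200) (nat_lit 0xf423f00000f423fb71ae1f156f423fb71ae65b9700000f423f) (.cons (nat_lit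 1) (nat_lit 9) (nat_lit 0) (nat_lit 0x765532200) (nat_lit 0xf423fb71aea2c2804737f423fb71aea2c2800000f423f) (.cons (nat_lit 2) (nat_lit 7) (nat_lit 0) (nat_lit 0x8805533000) (nat_lit 0xf423fb71ae00000f423f54591f423fb71ae00000f423f54591) (.cons (nat_lit 2) (nat_lit 8) (nat_lit 0) (nat_lit 0x9065533000) (nat_lit 0xf423f00000f423fb71ae1f156f423fb71ae00000f423f54591) (.cons (nat_lit 2) (nat_lit 9) (nat_lit 0) (nat_lit 0x765533000) (nat_lit 0xf423fb71aea2c2804737f423fb71ae00000f423f54591) (.cons (nat_lit 3) (nat_lit 8) (nat_lit 0) (nat_lit 0x2065540100) (nat_lit 0xf423f00000f423fb71ae1f156f423f00000b71aea2c2804737) (.cons (nat_lit 3) (nat_lit 9) (nat_lit 0) (nat_lit 0x765540100) (nat_lit 0xf423fb71aea2c2804737f423f00000f423fb71ae1f156) (.cons (nat_lit 4) (nat_lit 9) (nat_lit 0) (nat_lit 0x765502100) (nat_lit 0xf423fb71aea2c280473700000f423fb71aea2c2804737) .nil)))))))))))) (.leaf (.cons (nat_lit 0x50015) (nat_lit 0x2000100000000000000000000000300040003) (.cons (nat_lit 0x40055) (nat_lit 0x1000000000000000000000001000200020002)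 .nil)) (.cons (nat_lit 0x1111011110) (nat_lit 0x100001) (nat_lit 0xe) (nat_lit 0x4567032010) (.cons (nat_lit 0x1110011110) (nat_lit 0x1000001) (nat_lit 0xd) (nat_lit 0x4560032010) (.cons (nat_lit 0x1100011110) (nat_lit 0x10000001) (nat_lit 0xc) (nat_lit 0x4500032010) (.cons (nat_lit 0x1000011110) (nat_lit 0x100000001) (nat_lit 8) (nat_lit 0x2000043010) (.cons (nat_lit 0x1111011100) (nat_lit 0x100010) (nat_lit 5) (nat_lit 0x3456001200) (.cons (nat_lit 0x1110011100) (nat_lit 0x1000010) (nat_lit 4) (nat_lit 0x3450001200) (.cons (nat_lit 0x1100011100) (nat_lit 0x10000010) (nat_lit 3) (nat_lit 0x3400001200) (.cons (nat_lit 0x1000000111) (nat_lit 0x100001000) (nat_lit 0x10) (nat_lit 0x3000000210) .nil)))))))))) (.non (nat_lit 0) (nat_lit 5) (nat_lit 0x40254) (nat_lit 0x1000000000000000000010002000200010000)))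

noncomputable def t1537_197 : Tr := (.ex (nat_lit 0) (.split (nat_lit 9) (nat_lit 8) (.pd (.cons (nat_lit 2) (nat_lit 5) (nat_lit 0x11000) (nat_lit 0x8766034000) (nat_lit 0xf423fb71aea2c289896500000000010000100000f423f54591) (.cons (nat_lit 2) (nat_lit 6) (nat_lit 0x11000) (nat_lit 0x8770534000) (nat_lit 0xf423fb71aea2c2800000f423f000010000100000f423f54591) .nil)) (.ex (nat_lit 5) (.split (nat_lit 9) (nat_lit 2) t1537_196 (.non (nat_lit 0) (nat_lit 5) (nat_lit 0xa8050) (nat_lit 0x3000200010000000000000002000400000000))) (.split (nat_lit 0xa) (nat_lit 0) (.split (nat_lit 0xa) (nat_lit 1) (.split (nat_lit 0xa) (nat_lit 2) (.split (nat_lit 0xa) (nat_lit 3) (.split (nat_lit 0xa) (nat_lit 4) (.split (nat_lit 0xa) (nat_lit 6) (.split (nat_lit 0xa) (nat_lit 7) (.split (nat_lit 0xa) (nat_lit 8) (.split (nat_lit 0xa) (nat_lit 9) (.unj (nat_lit 0x105400) (nat_lit 0x10000000000010002000200000000000000000000) (nat_lit 0x155) (nat_lit 0x10002000300040003)) (.non (nat_lit 0) (nat_lit 5) (nat_lit 0x155150) (nat_lit 0x20004000300020001000000010002000300000000)))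 (.non (nat_lit 0) (nat_lit 5) (nat_lit 0x154054) (nat_lit 0x10002000200010000000000000001000200010000))) (.non (nat_lit 0) (nat_lit 5) (nat_lit 0x155054) (nat_lit 0x10002000200020001000000000001000200010000))) (.non (nat_lit 0) (nat_lit 5) (nat_lit 0x155154) (nat_lit 0x10005000400030002000000020004000600030000))) (.non (nat_lit 0) (nat_lit 5) (nat_lit 0x154154) (nat_lit 0x10003000200010000000000020003000400020000))) (.non (nat_lit 0) (nat_lit 5) (nat_lit 0x140154) (nat_lit 0x10001000000000000000000010002000200010000))) (.non (nat_lit 0) (nat_lit 5) (nat_lit 0x140054) (nat_lit 0x10001000000000000000000000001000200010000))) (.star (nat_lit 0xa) (nat_lit 1) (nat_lit 5))) (.star (nat_lit 0xa) (nat_lit 0) (nat_lit 5))))) (.non (nat_lit 0) (nat_lit 5) (nat_lit 0x6a010) (nat_lit 0x4000300020001000000000000000200000000))) (.split (nat_lit 0xa) (nat_lit 1) (.split (nat_lit 0xa) (nat_lit 2) (.split (nat_lit 0xa) (nat_lit 3) (.split (nat_lit 0xa) (nat_lit 4) (.split (nat_lit 0xa) (nat_lit 5) (.split (nat_lit 0xa) (nat_lit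 6) (.split (nat_lit 0xa) (nat_lit 7) (.split (nat_lit 0xa) (nat_lit 8) (.split (nat_lit 0xa) (nat_lit 9) (.sup (nat_lit 0x5000000000000000000000000000000020009000a) (nat_lit 0x100040007000a000800000000000000000000)) (.non (nat_lit 0) (nat_lit 5) (nat_lit 0x155150) (nat_lit 0x20004000300020001000000010002000300000000))) (.non (nat_lit 0) (nat_lit 5) (nat_lit 0x154054) (nat_lit 0x10002000200010000000000000001000200010000))) (.non (nat_lit 0) (nat_lit 5) (nat_lit 0x155054) (nat_lit 0x10002000200020001000000000001000200010000))) (.star (nat_lit 0xa) (nat_lit 0) (nat_lit 6))) (.star (nat_lit 0xa) (nat_lit 0) (nat_lit 5))) (.non (nat_lit 0) (nat_lit 5) (nat_lit 0x154154) (nat_lit 0x10003000200010000000000020003000400020000))) (.non (nat_lit 0) (nat_lit 5) (nat_lit 0x140154) (nat_lit 0x10001000000000000000000010002000200010000))) (.non (nat_lit 0) (nat_lit 5) (nat_lit 0x140054) (nat_lit 0x10001000000000000000000000001000200010000))) (.non (nat_lit 0) (nat_lit 5) (nat_lit 0x150154) (nat_lit 0x10002000100000000000000010002000300020000))))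

noncomputable def t1537_198 : Tr := (.ex (nat_lit 5) (.split (nat_lit 9) (nat_lit 2) (.split (nat_lit 4) (nat_lit 3) (.split (nat_lit 9) (nat_lit 8) (.split (nat_lit 8) (nat_lit 0) (.pd (.cons (nat_lit 0) (nat_lit 7) (nat_lit 0) (nat_lit 0x2905532110) (nat_lit 0xb71aef423f00000f423f54591f423fb71ae516113d08500000) (.cons (nat_lit 0) (nat_lit 8) (nat_lit 0) (nat_lit 0x2065532110) (nat_lit 0xf423f00000f423fb71ae1f156f423fb71ae65b9761a7900000) (.cons (nat_lit 0) (nat_lit 9) (nat_lit 0) (nat_lit 0x765532110) (nat_lit 0xf423fb71aea2c2804737f423fb71aea2c289896500000) (.cons (nat_lit 1) (nat_lit 7) (nat_lit 0) (nat_lit 0x8005532900) (nat_lit 0x98965927bd00000f423f54591f423fb71aea2c28000008e6a2) (.cons (nat_lit 1) (nat_lit 8) (nat_lit 0) (nat_lit 0x2065532200) (nat_lit 0xf423f00000f423fb71ae1f156f423fb71ae65b9700000f423f) (.cons (nat_lit 2) (nat_lit 7) (nat_lit 0) (nat_lit 0x8005533000) (nat_lit 0xf423fb71ae00000f423f54591f423fb71ae00000f423f02f7a) (.cons (nat_lit 2) (nat_lit 8) (nat_lit 0) (nat_lit 0x9065533000) (nat_lit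 0xf423f00000f423fb71ae1f156f423fb71ae00000f423f54591) (.cons (nat_lit 3) (nat_lit 8) (nat_lit 0) (nat_lit 0x2065540100) (nat_lit 0xf423f00000f423fb71ae1f156f423f00000b71aea2c2804737) .nil)))))))) (.leaf (.cons (nat_lit 0x15401) (nat_lit 0x200030004000300000000000000000001) (.cons (nat_lit 0x54005) (nat_lit 0x1000200010000000000000000000000020002) (.cons (nat_lit 0x10015) (nat_lit 0x100000000000000000000000100020002) (.cons (nat_lit 0x40055) (nat_lit 0x1000000000000000000000001000200020002) .nil)))) .nil)) (.non (nat_lit 1) (nat_lit 5) (nat_lit 0xa8001) (nat_lit 0x1000200010000000000000000000000000002))) (.non (nat_lit 0) (nat_lit 5) (nat_lit 0x6a010) (nat_lit 0x4000300020001000000000000000200000000))) (.non (nat_lit 0) (nat_lit 5) (nat_lit 0x40254) (nat_lit 0x1000000000000000000010002000200010000))) (.non (nat_lit 0) (nat_lit 5) (nat_lit 0xa8050) (nat_lit 0x3000200010000000000000002000400000000))) (.split (nat_lit 0xa) (nat_lit 0) (.split (nat_lit 0xa) (nat_lit 1) (.split (nat_lit 0xa) (nat_lit 2) (.split (nat_lit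 0xa) (nat_lit 3) (.split (nat_lit 0xa) (nat_lit 4) (.split (nat_lit 0xa) (nat_lit 6) (.split (nat_lit 0xa) (nat_lit 7) (.split (nat_lit 0xa) (nat_lit 8) (.split (nat_lit 0xa) (nat_lit 9) (.unj (nat_lit 0x105400) (nat_lit 0x10000000000010002000200000000000000000000) (nat_lit 0x155) (nat_lit 0x10002000300040003)) (.non (nat_lit 0) (nat_lit 5) (nat_lit 0x155150) (nat_lit 0x20004000300020001000000010002000300000000))) (.non (nat_lit 0) (nat_lit 5) (nat_lit 0x154054) (nat_lit 0x10002000200010000000000000001000200010000))) (.non (nat_lit 0) (nat_lit 5) (nat_lit 0x155054) (nat_lit 0x10002000200020001000000000001000200010000))) (.non (nat_lit 0) (nat_lit 5) (nat_lit 0x155154) (nat_lit 0x10005000400030002000000020004000600030000))) (.non (nat_lit 0) (nat_lit 5) (nat_lit 0x154154) (nat_lit 0x10003000200010000000000020003000400020000))) (.non (nat_lit 0) (nat_lit 5) (nat_lit 0x140154) (nat_lit 0x10001000000000000000000010002000200010000))) (.non (nat_lit 0) (nat_lit 5) (nat_lit 0x140054) (nat_lit 0x10001000000000000000000000001000200010000)))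 (.star (nat_lit 0xa) (nat_lit 1) (nat_lit 5))) (.star (nat_lit 0xa) (nat_lit 0) (nat_lit 5))))

noncomputable def t1537_199 : Tr := (.split (nat_lit 6) (nat_lit 3) (.split (nat_lit 6) (nat_lit 4) (.split (nat_lit 5) (nat_lit 3) (.split (nat_lit 5) (nat_lit 4) (.split (nat_lit 8) (nat_lit 0) (.st (nat_lit 1) (nat_lit 0) (nat_lit 5) (nat_lit 0x50154) (nat_lit 0x2000100000000000000010002000300020000) (nat_lit 1) (nat_lit 1) (.st (nat_lit 2) (nat_lit 0) (nat_lit 5) (nat_lit 0x40054) (nat_lit 0x1000000000000000000000001000200010000) (nat_lit 1) (nat_lit 1) (.st (nat_lit 3) (nat_lit 0) (nat_lit 5) (nat_lit 0x40154) (nat_lit 0x1000000000000000000010002000200010000) (nat_lit 1) (nat_lit 1) (.st (nat_lit 6) (nat_lit 0) (nat_lit 5) (nat_lit 0x55154) (nat_lit 0x5000400030002000000020004000600030000) (nat_lit 1) (nat_lit 1) (.st (nat_lit 7) (nat_lit 0) (nat_lit 5) (nat_lit 0x55054) (nat_lit 0x2000200020001000000000001000200010000) (nat_lit 1) (nat_lit 1) (.st (nat_lit 8) (nat_lit 0) (nat_lit 5) (nat_lit 0x54054) (nat_lit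 0x2000200010000000000000001000200010000) (nat_lit 1) (nat_lit 1) (.st (nat_lit 9) (nat_lit 0) (nat_lit 5) (nat_lit 0x55150) (nat_lit 0x4000300020001000000010002000300000000) (nat_lit 1) (nat_lit 2) (.st (nat_lit 4) (nat_lit 0) (nat_lit 5) (nat_lit 0x54154) (nat_lit 0x3000200010000000000020003000400020000) (nat_lit 1) (nat_lit 1) t1537_197)))))))) (.st (nat_lit 0) (nat_lit 1) (nat_lit 5) (nat_lit 0x55011) (nat_lit 0x2000300020001000000000000000100000002) (nat_lit 1) (nat_lit 1) (.st (nat_lit 1) (nat_lit 0) (nat_lit 5) (nat_lit 0x50154) (nat_lit 0x2000100000000000000010002000300020000) (nat_lit 1) (nat_lit 1) (.st (nat_lit 2) (nat_lit 0) (nat_lit 5) (nat_lit 0x40054) (nat_lit 0x1000000000000000000000001000200010000) (nat_lit 1) (nat_lit 1) (.st (nat_lit 6) (nat_lit 0) (nat_lit 5) (nat_lit 0x55154) (nat_lit 0x5000400030002000000020004000600030000) (nat_lit 1) (nat_lit 1) (.st (nat_lit 7) (nat_lit 0) (nat_lit 5) (nat_lit 0x55054) (nat_lit 0x2000200020001000000000001000200010000) (nat_lit 1) (nat_lit 1) (.st (nat_lit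 8) (nat_lit 0) (nat_lit 5) (nat_lit 0x54054) (nat_lit 0x2000200010000000000000001000200010000) (nat_lit 1) (nat_lit 1) (.st (nat_lit 9) (nat_lit 0) (nat_lit 5) (nat_lit 0x55150) (nat_lit 0x4000300020001000000010002000300000000) (nat_lit 1) (nat_lit 2) t1537_198)))))))) (.non (nat_lit 0) (nat_lit 6) (nat_lit 0x54554) (nat_lit 0x3000200010000000100020003000400020000))) (.non (nat_lit 0) (nat_lit 6) (nat_lit 0x40554) (nat_lit 0x1000000000000000100010002000200010000))) (.non (nat_lit 0) (nat_lit 5) (nat_lit 0x55150) (nat_lit 0x1000100010001000000010001000100000000))) (.non (nat_lit 0) (nat_lit 5) (nat_lit 0x55050) (nat_lit 0x1000100010001000000000001000100000000)))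

noncomputable def t1537_200 : Tr := (.ex (nat_lit 7) (.pd (.cons (nat_lit 0) (nat_lit 8) (nat_lit 0) (nat_lit 0x1065532110) (nat_lit 0xf423f00000f423fb71ae1f156f423fb71aea2c285b8d400000) (.cons (nat_lit 0) (nat_lit 9) (nat_lit 0) (nat_lit 0x765532110) (nat_lit 0xf423fb71aea2c2804737f423fb71aea2c289896500000) (.cons (nat_lit 1) (nat_lit 8) (nat_lit 0) (nat_lit 0x9065532200) (nat_lit 0xf423f00000f423fb71ae1f156f423fb71aea2c2800000f423f) (.cons (nat_lit 1) (nat_lit 9) (nat_lit 0) (nat_lit 0x765532200) (nat_lit 0xf423fb71aea2c2804737f423fb71aea2c2800000f423f) (.cons (nat_lit 2) (nat_lit 8) (nat_lit 0) (nat_lit 0x1065533000) (nat_lit 0xf423f00000f423fb71ae1f156f423fb71ae00000b71ae1f156) (.cons (nat_lit 2) (nat_lit 9) (nat_lit 0) (nat_lit 0x765533000) (nat_lit 0xf423fb71aea2c2804737f423fb71ae00000f423f54591) (.cons (nat_lit 3) (nat_lit 9) (nat_lit 0) (nat_lit 0x765540100) (nat_lit 0xf423fb71aea2c2804737f423f00000f423fb71ae1f156) (.cons (nat_lit 4) (nat_lit 9) (nat_lit 0) (nat_lit 0x765502100) (nat_lit 0xf423fb71aea2c280473700000f423fb71aea2c2804737)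 .nil)))))))) (.leaf (.cons (nat_lit 0x54005) (nat_lit 0x3000200010000000000000000000000040003) (.cons (nat_lit 0x40015) (nat_lit 0x1000000000000000000000000000100020002) .nil)) (.cons (nat_lit 0x1100000011) (nat_lit 0x10000100) (nat_lit 0x10) (nat_lit 0x2300000010) .nil))) (.split (nat_lit 0xa) (nat_lit 0) (.split (nat_lit 0xa) (nat_lit 1) (.split (nat_lit 0xa) (nat_lit 2) (.split (nat_lit 0xa) (nat_lit 3) (.split (nat_lit 0xa) (nat_lit 4) (.split (nat_lit 0xa) (nat_lit 6) (.split (nat_lit 0xa) (nat_lit 8) (.split (nat_lit 0xa) (nat_lit 9) (.split (nat_lit 0xa) (nat_lit 5) (.unj (nat_lit 0x155) (nat_lit 0x10002000300040003) (nat_lit 0x115400) (nat_lit 0x10000000100020002000200000000000000000000)) (.unj (nat_lit 0x40015) (nat_lit 0x1000000000000000000000000000100020002) (nat_lit 0x105400) (nat_lit 0x10000000000010001000100000000000000000000))) (.non (nat_lit 0) (nat_lit 5) (nat_lit 0x154000) (nat_lit 0x10001000100010000000000000000000000000000))) (.non (nat_lit 0) (nat_lit 5) (nat_lit 0x114000) (nat_lit 0x10000000100010000000000000000000000000000)))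 (.non (nat_lit 0) (nat_lit 5) (nat_lit 0x105000) (nat_lit 0x10000000000010001000000000000000000000000))) (.non (nat_lit 0) (nat_lit 5) (nat_lit 0x155144) (nat_lit 0x30002000300040002000000020001000000010000))) (.non (nat_lit 0) (nat_lit 5) (nat_lit 0x115150) (nat_lit 0x20000000100020001000000010002000100000000))) (.non (nat_lit 0) (nat_lit 5) (nat_lit 0x154014) (nat_lit 0x10001000100010000000000000000000100010000))) (.non (nat_lit 0) (nat_lit 5) (nat_lit 0x154004) (nat_lit 0x10001000100010000000000000000000000010000))) (.non (nat_lit 2) (nat_lit 7) (nat_lit 0x140005) (nat_lit 0x10001000000000000000000000000000000020002))))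

noncomputable def t1537_201 : Tr := (.split (nat_lit 4) (nat_lit 3) (.split (nat_lit 9) (nat_lit 8) (.pd (.cons (nat_lit 0) (nat_lit 7) (nat_lit 0) (nat_lit 0x1905532110) (nat_lit 0xb71aef423f00000f423f54591f423fb71aea2c284734e00000) (.cons (nat_lit 1) (nat_lit 7) (nat_lit 0) (nat_lit 0x8805532200) (nat_lit 0xf423fb71ae00000f423f54591f423fb71aea2c2800000f423f) (.cons (nat_lit 2) (nat_lit 7) (nat_lit 0) (nat_lit 0x1905533000) (nat_lit 0xb71aef423f00000f423f54591f423fb71ae00000a2c2804737) .nil))) t1537_200) (.non (nat_lit 0) (nat_lit 5) (nat_lit 0x6a004) (nat_lit 0x4000300020001000000000000000000020000))) (.split (nat_lit 4) (nat_lit 3) (.split (nat_lit 9) (nat_lit 8) (.pd (.cons (nat_lit 0) (nat_lit 7) (nat_lit 0) (nat_lit 0x1905532110) (nat_lit 0xb71aef423f00000f423f54591f423f7a11e7a11c28b0300000) (.cons (nat_lit 1) (nat_lit 7) (nat_lit 0) (nat_lit 0x8805532200) (nat_lit 0xf423fb71ae00000f423f54591f423f7a11e7a11c00000f423f) (.cons (nat_lit 2) (nat_lit 7) (nat_lit 0) (nat_lit 0x1905533000) (nat_lit 0xb71aef423f00000f423f54591f423f7a11e00000a2c2804737)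 .nil))) (.st (nat_lit 7) (nat_lit 0) (nat_lit 5) (nat_lit 0x55254) (nat_lit 0x2000200020001000000010002000200020000) (nat_lit 1) (nat_lit 1) (.pd (.cons (nat_lit 0) (nat_lit 8) (nat_lit 0) (nat_lit 0x1065532110) (nat_lit 0xf423f00000f423fb71ae1f156f423f7a11e7a11c3d08900000) (.cons (nat_lit 0) (nat_lit 9) (nat_lit 0) (nat_lit 0x765532110) (nat_lit 0xf423fb71aea2c2804737f423f7a11e7a11c7a11a00000) (.cons (nat_lit 1) (nat_lit 8) (nat_lit 0) (nat_lit 0x9065532200) (nat_lit 0xf423f00000f423fb71ae1f156f423f7a11e7a11c00000f423f) (.cons (nat_lit 1) (nat_lit 9) (nat_lit 0) (nat_lit 0x765532200) (nat_lit 0xf423fb71aea2c2804737f423f7a11e7a11c00000f423f) (.cons (nat_lit 2) (nat_lit 8) (nat_lit 0) (nat_lit 0x1065533000) (nat_lit 0xf423f00000f423fb71ae1f156f423f7a11e00000b71ae1f156) (.cons (nat_lit 2) (nat_lit 9) (nat_lit 0) (nat_lit 0x765533000) (nat_lit 0xf423fb71aea2c2804737f423f7a11e00000f423f54591) (.cons (nat_lit 3) (nat_lit 9) (nat_lit 0) (nat_lit 0x765540100) (nat_lit 0xf423fb71aea2c2804737f423f00000f423fb71ae1f156)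 (.cons (nat_lit 4) (nat_lit 9) (nat_lit 0) (nat_lit 0x765502100) (nat_lit 0xf423fb71aea2c280473700000f423fb71aea2c2804737) .nil)))))))) (.leaf (.cons (nat_lit 0x54005) (nat_lit 0x3000200010000000000000000000000040003) (.cons (nat_lit 0x40015) (nat_lit 0x1000000000000000000000000000100020002) .nil)) (.cons (nat_lit 0x1100000011) (nat_lit 0x10000100) (nat_lit 0x10) (nat_lit 0x2300000010) .nil))))) (.non (nat_lit 0) (nat_lit 5) (nat_lit 0x6a004) (nat_lit 0x4000300020001000000000000000000020000))) (.non (nat_lit 0) (nat_lit 5) (nat_lit 0x40154) (nat_lit 0x1000000000000000000030004000300020000))))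

noncomputable def t1537_202 : Tr := (.ex (nat_lit 5) (.ex (nat_lit 6) (.split (nat_lit 9) (nat_lit 1) t1537_201 (.non (nat_lit 0) (nat_lit 5) (nat_lit 0xa8014) (nat_lit 0x3000200010000000000000000000200040000))) (.split (nat_lit 0xa) (nat_lit 0) (.split (nat_lit 0xa) (nat_lit 1) (.split (nat_lit 0xa) (nat_lit 2) (.split (nat_lit 0xa) (nat_lit 3) (.split (nat_lit 0xa) (nat_lit 4) (.split (nat_lit 0xa) (nat_lit 7) (.split (nat_lit 0xa) (nat_lit 8) (.split (nat_lit 0xa) (nat_lit 9) (.split (nat_lit 0xa) (nat_lit 5) (.unj (nat_lit 0x40015) (nat_lit 0x1000000000000000000000000000100020002) (nat_lit 0x105400) (nat_lit 0x10000000000010002000200000000000000000000)) (.unj (nat_lit 0x101400) (nat_lit 0x10000000000000001000100000000000000000000) (nat_lit 0x40015) (nat_lit 0x1000000000000000000000000000100020002))) (.non (nat_lit 0) (nat_lit 5) (nat_lit 0x155000) (nat_lit 0x10001000100010001000000000000000000000000))) (.non (nat_lit 0) (nat_lit 5) (nat_lit 0x115000) (nat_lit 0x10000000100010001000000000000000000000000)))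 (.non (nat_lit 0) (nat_lit 5) (nat_lit 0x105000) (nat_lit 0x10000000000010001000000000000000000000000))) (.non (nat_lit 0) (nat_lit 5) (nat_lit 0x155154) (nat_lit 0x10001000100010001000000010001000100010000))) (.non (nat_lit 0) (nat_lit 5) (nat_lit 0x155054) (nat_lit 0x10001000100010001000000000001000100010000))) (.non (nat_lit 0) (nat_lit 5) (nat_lit 0x155014) (nat_lit 0x10001000100010001000000000000000100010000))) (.star (nat_lit 0xa) (nat_lit 1) (nat_lit 6))) (.star (nat_lit 0xa) (nat_lit 0) (nat_lit 6)))) (.split (nat_lit 0xa) (nat_lit 0) (.split (nat_lit 0xa) (nat_lit 1) (.split (nat_lit 0xa) (nat_lit 2) (.split (nat_lit 0xa) (nat_lit 3) (.split (nat_lit 0xa) (nat_lit 8) (.split (nat_lit 0xa) (nat_lit 9) (.split (nat_lit 0xa) (nat_lit 4) (.split (nat_lit 0xa) (nat_lit 6) (.split (nat_lit 0xa) (nat_lit 7) (.unj (nat_lit 0x40015) (nat_lit 0x1000000000000000000000000000100020002) (nat_lit 0x105400) (nat_lit 0x10000000000010002000200000000000000000000)) (.unj (nat_lit 0x40015) (nat_lit 0x1000000000000000000000000000100020002)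 (nat_lit 0x105400) (nat_lit 0x10000000000010001000100000000000000000000))) (.split (nat_lit 0xa) (nat_lit 7) (.unj (nat_lit 0x101400) (nat_lit 0x10000000000000001000100000000000000000000) (nat_lit 0x40015) (nat_lit 0x1000000000000000000000000000100020002)) (.non (nat_lit 0) (nat_lit 5) (nat_lit 0x105000) (nat_lit 0x10000000000010001000000000000000000000000)))) (.split (nat_lit 0xa) (nat_lit 6) (.split (nat_lit 0xa) (nat_lit 7) (.unj (nat_lit 0x40015) (nat_lit 0x1000000000000000000000000000100020002) (nat_lit 0x105400) (nat_lit 0x10000000000010002000200000000000000000000)) (.non (nat_lit 0) (nat_lit 5) (nat_lit 0x155144) (nat_lit 0x30002000300040002000000020001000000010000))) (.non (nat_lit 0) (nat_lit 5) (nat_lit 0x155154) (nat_lit 0x10001000100010001000000010001000100010000)))) (.non (nat_lit 0) (nat_lit 5) (nat_lit 0x155054) (nat_lit 0x20004000300020001000000000001000200030000))) (.non (nat_lit 0) (nat_lit 5) (nat_lit 0x155154) (nat_lit 0x30005000600040002000000010002000300040000))) (.non (nat_lit 0) (nat_lit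 6) (nat_lit 0x154554) (nat_lit 0x40003000200010000000200030006000500040000))) (.non (nat_lit 0) (nat_lit 5) (nat_lit 0x155154) (nat_lit 0x30004000300020001000000020004000600050000))) (.star (nat_lit 0xa) (nat_lit 1) (nat_lit 5))) (.star (nat_lit 0xa) (nat_lit 0) (nat_lit 5))))

noncomputable def t1537_203 : Tr := (.ex (nat_lit 6) (.split (nat_lit 9) (nat_lit 1) (.split (nat_lit 4) (nat_lit 3) (.split (nat_lit 0xa) (nat_lit 3) (.split (nat_lit 9) (nat_lit 8) (.pd (.cons (nat_lit 0) (nat_lit 7) (nat_lit 0) (nat_lit 0x31905532110) (nat_lit 0xf423fb71aef423f00000f423f54591f423f7a11d7a11b28b0200000) (.cons (nat_lit 0) (nat_lit 8) (nat_lit 0) (nat_lit 0x31065532110) (nat_lit 0xf423ff423f00000f423fb71ae1f156f423f7a11d7a11b3d08800000) (.cons (nat_lit 0) (nat_lit 9) (nat_lit 0) (nat_lit 0x30765532110) (nat_lit 0xf423f00000f423fb71aea2c2804737f423f7a11d7a11b7a11900000) (.cons (nat_lit 1) (nat_lit 7) (nat_lit 0) (nat_lit 0x38805532200) (nat_lit 0xf423ff423fb71ae00000f423f54591f423f7a11d7a11b00000f423f) (.cons (nat_lit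 1) (nat_lit 8) (nat_lit 0) (nat_lit 0x39065532200) (nat_lit 0xf423ff423f00000f423fb71ae1f156f423f7a11d7a11b00000f423f) (.cons (nat_lit 1) (nat_lit 9) (nat_lit 0) (nat_lit 0x30765532200) (nat_lit 0xf423f00000f423fb71aea2c2804737f423f7a11d7a11b00000f423f) (.cons (nat_lit 2) (nat_lit 7) (nat_lit 0) (nat_lit 0x31905533000) (nat_lit 0xf423fb71aef423f00000f423f54591f423f7a11d00000a2c2804737) (.cons (nat_lit 2) (nat_lit 8) (nat_lit 0) (nat_lit 0x31065533000) (nat_lit 0xf423ff423f00000f423fb71ae1f156f423f7a11d00000b71ae1f156) (.cons (nat_lit 2) (nat_lit 9) (nat_lit 0) (nat_lit 0x30765533000) (nat_lit 0xf423f00000f423fb71aea2c2804737f423f7a11d00000f423f54591) (.cons (nat_lit 3) (nat_lit 9) (nat_lit 0) (nat_lit 0xa0765540100) (nat_lit 0xf423f00000f423fb71aea2c2804737f423f00000f423fb71ae1f156) .nil)))))))))) (.leaf (.cons (nat_lit 0x54005) (nat_lit 0x3000200010000000000000000000000040003) (.cons (nat_lit 0x40015) (nat_lit 0x1000000000000000000000000000100020002) (.cons (nat_lit 0x100055) (nat_lit 0x10000000000000000000000000002000300040003)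 .nil))) (.cons (nat_lit 0x1100000011) (nat_lit 0x10000100) (nat_lit 0x10) (nat_lit 0x2300000010) .nil))) (.non (nat_lit 0) (nat_lit 5) (nat_lit 0x6a004) (nat_lit 0x4000300020001000000000000000000020000))) (.non (nat_lit 0) (nat_lit 5) (nat_lit 0x200150) (nat_lit 0x10000000000000000000000010002000100000000))) (.non (nat_lit 0) (nat_lit 5) (nat_lit 0x100250) (nat_lit 0x10000000000000000000000010002000100000000))) (.non (nat_lit 0) (nat_lit 5) (nat_lit 0xa8014) (nat_lit 0x3000200010000000000000000000200040000))) (.split (nat_lit 0xb) (nat_lit 0) (.split (nat_lit 0xb) (nat_lit 1) (.split (nat_lit 0xb) (nat_lit 2) (.split (nat_lit 0xb) (nat_lit 3) (.split (nat_lit 0xb) (nat_lit 4) (.split (nat_lit 0xb) (nat_lit 7) (.split (nat_lit 0xb) (nat_lit 8) (.split (nat_lit 0xb) (nat_lit 9) (.split (nat_lit 0xb) (nat_lit 0xa) (.split (nat_lit 0xb) (nat_lit 5) (.unj (nat_lit 0x40015) (nat_lit 0x1000000000000000000000000000100020002) (nat_lit 0x405400) (nat_lit 0x100000000000000010002000200000000000000000000)) (.unj (nat_lit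 0x401400) (nat_lit 0x100000000000000000001000100000000000000000000) (nat_lit 0x40015) (nat_lit 0x1000000000000000000000000000100020002))) (.non (nat_lit 0) (nat_lit 5) (nat_lit 0x555054) (nat_lit 0x100010001000100010001000000000001000100010000))) (.non (nat_lit 0) (nat_lit 5) (nat_lit 0x455000) (nat_lit 0x100000001000100010001000000000000000000000000))) (.non (nat_lit 0) (nat_lit 5) (nat_lit 0x415000) (nat_lit 0x100000000000100010001000000000000000000000000))) (.non (nat_lit 0) (nat_lit 5) (nat_lit 0x405000) (nat_lit 0x100000000000000010001000000000000000000000000))) (.non (nat_lit 0) (nat_lit 5) (nat_lit 0x554154) (nat_lit 0x200030003000200010000000000040006000500040000))) (.non (nat_lit 0) (nat_lit 5) (nat_lit 0x500150) (nat_lit 0x100010000000000000000000000010002000100000000))) (.non (nat_lit 0) (nat_lit 5) (nat_lit 0x455014) (nat_lit 0x100000001000100010001000000000000000100010000))) (.star (nat_lit 0xb) (nat_lit 1) (nat_lit 6))) (.star (nat_lit 0xb) (nat_lit 0) (nat_lit 6))))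

noncomputable def t1537_204 : Tr := (.split (nat_lit 0xa) (nat_lit 8) (.split (nat_lit 0xa) (nat_lit 9) (.split (nat_lit 0xa) (nat_lit 0) (.st (nat_lit 7) (nat_lit 0) (nat_lit 5) (nat_lit 0x155154) (nat_lit 0x10002000200020001000000010002000200020000) (nat_lit 1) (nat_lit 1) (.st (nat_lit 3) (nat_lit 0) (nat_lit 5) (nat_lit 0x100150) (nat_lit 0x10000000000000000000000010002000100000000) (nat_lit 1) (nat_lit 1) (.st (nat_lit 4) (nat_lit 0) (nat_lit 5) (nat_lit 0x154154) (nat_lit 0x30003000200010000000000040006000500040000) (nat_lit 1) (nat_lit 2) (.st (nat_lit 0xa) (nat_lit 0) (nat_lit 5) (nat_lit 0x154154) (nat_lit 0x40003000200010000000000030006000500040000) (nat_lit 1) (nat_lit 2) (.ex (nat_lit 5) t1537_203 (.split (nat_lit 0xb) (nat_lit 0) (.split (nat_lit 0xb) (nat_lit 1) (.split (nat_lit 0xb) (nat_lit 2) (.split (nat_lit 0xb) (nat_lit 3) (.split (nat_lit 0xb) (nat_lit 4) (.split (nat_lit 0xb) (nat_lit 7) (.split (nat_lit 0xb) (nat_lit 8) (.split (nat_lit 0xb) (nat_lit 9) (.split (nat_lit 0xb) (nat_lit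 0xa) (.split (nat_lit 0xb) (nat_lit 6) (.unj (nat_lit 0x40015) (nat_lit 0x1000000000000000000000000000100020002) (nat_lit 0x405400) (nat_lit 0x100000000000000010002000200000000000000000000)) (.unj (nat_lit 0x401400) (nat_lit 0x100000000000000000001000100000000000000000000) (nat_lit 0x40015) (nat_lit 0x1000000000000000000000000000100020002))) (.non (nat_lit 0) (nat_lit 5) (nat_lit 0x554154) (nat_lit 0x200040003000200010000000000030006000500040000))) (.non (nat_lit 0) (nat_lit 5) (nat_lit 0x455054) (nat_lit 0x200000004000300020001000000000001000200030000))) (.non (nat_lit 0) (nat_lit 5) (nat_lit 0x555054) (nat_lit 0x300010005000600040002000000000002000300040000))) (.non (nat_lit 0) (nat_lit 5) (nat_lit 0x555154) (nat_lit 0x100010002000200020001000000010002000200020000))) (.non (nat_lit 0) (nat_lit 5) (nat_lit 0x554154) (nat_lit 0x200030003000200010000000000040006000500040000))) (.non (nat_lit 0) (nat_lit 5) (nat_lit 0x500150) (nat_lit 0x100010000000000000000000000010002000100000000))) (.non (nat_lit 0) (nat_lit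 5) (nat_lit 0x555054) (nat_lit 0x300020004000300020001000000000004000600050000))) (.star (nat_lit 0xb) (nat_lit 1) (nat_lit 5))) (.star (nat_lit 0xb) (nat_lit 0) (nat_lit 5)))))))) (.sup (nat_lit 0x6000e00170020001a00000000000000000000) (nat_lit 0x50000000000000000000000030006000400020004))) (.non (nat_lit 0) (nat_lit 5) (nat_lit 0x155144) (nat_lit 0x30004000300020001000000010002000000020000))) (.non (nat_lit 0) (nat_lit 5) (nat_lit 0x154150) (nat_lit 0x20001000200010000000000010002000100000000)))

noncomputable def t1537_205 : Tr := (.split (nat_lit 0xa) (nat_lit 2) (.split (nat_lit 0xa) (nat_lit 5) (.split (nat_lit 0xa) (nat_lit 6) (.split (nat_lit 0xa) (nat_lit 8) (.split (nat_lit 0xa) (nat_lit 9) (.split (nat_lit 0xa) (nat_lit 3) (.split (nat_lit 0xa) (nat_lit 4) (.split (nat_lit 0xa) (nat_lit 7) (.split (nat_lit 0xa) (nat_lit 0) (.split (nat_lit 9) (nat_lit 1) (.sup (nat_lit 0x3000d00160020001a00000000000000000000) (nat_lit 0x30000000000000000000000020003000500060007)) (.non (nat_lit 0) (nat_lit 5) (nat_lit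 0xa8014) (nat_lit 0x3000200010000000000000000000200040000))) (.split (nat_lit 0xa) (nat_lit 0) (.split (nat_lit 9) (nat_lit 1) (.sup (nat_lit 0x7000000000000000000000000000000000006000a) (nat_lit 0x100040007000a000800000000000000000000)) (.non (nat_lit 0) (nat_lit 5) (nat_lit 0xa8014) (nat_lit 0x3000200010000000000000000000200040000))) (.sup (nat_lit 0x8000000000000000000000000000000000004000a) (nat_lit 0x100040007000a000800000000000000000000)))) (.split (nat_lit 0xa) (nat_lit 0) (.sup (nat_lit 0x5000a000f0014000f) (nat_lit 0x100000007000e0014001000000000000000000000)) (.non (nat_lit 1) (nat_lit 5) (nat_lit 0x22a001) (nat_lit 0x20000000100020001000000000000000000000002)))) (.split (nat_lit 0xa) (nat_lit 7) (.split (nat_lit 0xa) (nat_lit 0) (.split (nat_lit 0xa) (nat_lit 4) (.split (nat_lit 9) (nat_lit 1) (.sup (nat_lit 0x1000300060008000600000000000000000000) (nat_lit 0x10000000000000000000000010001000100010001)) (.non (nat_lit 0) (nat_lit 5) (nat_lit 0xa8014) (nat_lit 0x3000200010000000000000000000200040000)))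 (.non (nat_lit 1) (nat_lit 5) (nat_lit 0x1002a1) (nat_lit 0x40000000000000000000000030002000100000002))) (.sup (nat_lit 0x30007000c0010000d00000000000000000000) (nat_lit 0x20000000000000000000000020001000100010002))) (.non (nat_lit 0) (nat_lit 5) (nat_lit 0x155144) (nat_lit 0x30002000300040002000000020001000000010000)))) (.split (nat_lit 0xa) (nat_lit 4) (.split (nat_lit 0xa) (nat_lit 7) (.sup (nat_lit 0x6000e00170020001a00000000000000000000) (nat_lit 0x50000000000000000000000030006000400020004)) (.non (nat_lit 0) (nat_lit 5) (nat_lit 0x115150) (nat_lit 0x20000000100020001000000010002000100000000))) (.non (nat_lit 0) (nat_lit 5) (nat_lit 0x100140) (nat_lit 0x10000000000000000000000010001000000000000)))) (.non (nat_lit 0) (nat_lit 5) (nat_lit 0x155054) (nat_lit 0x20004000300020001000000000001000200030000))) (.non (nat_lit 0) (nat_lit 5) (nat_lit 0x155154) (nat_lit 0x30005000600040002000000010002000300040000))) (.star (nat_lit 0xa) (nat_lit 0) (nat_lit 6))) (.star (nat_lit 0xa) (nat_lit 0) (nat_lit 5))) (.non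 (nat_lit 0) (nat_lit 5) (nat_lit 0x155154) (nat_lit 0x30004000300020001000000020004000600050000)))

noncomputable def t1537_206 : Tr := (.split (nat_lit 4) (nat_lit 3) (.split (nat_lit 9) (nat_lit 8) (.split (nat_lit 8) (nat_lit 0) (.pd (.cons (nat_lit 0) (nat_lit 7) (nat_lit 0) (nat_lit 0x1905532110) (nat_lit 0xb71aef423f00000f423f54591f423fb71aea2c284734e00000) (.cons (nat_lit 0) (nat_lit 8) (nat_lit 0) (nat_lit 0x1065532110) (nat_lit 0xf423f00000f423fb71ae1f156f423fb71aea2c285b8d400000) (.cons (nat_lit 0) (nat_lit 9) (nat_lit 0) (nat_lit 0x765532110) (nat_lit 0xf423fb71aea2c2804737f423fb71aea2c289896500000) (.cons (nat_lit 1) (nat_lit 7) (nat_lit 0) (nat_lit 0x8005532200) (nat_lit 0xf423fb71ae00000f423f54591f423fb71aea2c2800000a2c28) (.cons (nat_lit 1) (nat_lit 8) (nat_lit 0) (nat_lit 0x9065532200) (nat_lit 0xf423f00000f423fb71ae1f156f423fb71aea2c2800000f423f) (.cons (nat_lit 2) (nat_lit 8) (nat_lit 0) (nat_lit 0x1065533000) (nat_lit 0xf423f00000f423fb71ae1f156f423fb71ae00000b71ae1f156) .nil)))))) (.leaf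 (.cons (nat_lit 0x15401) (nat_lit 0x200030004000300000000000000000001) (.cons (nat_lit 0x50005) (nat_lit 0x1000100000000000000000000000000010001) (.cons (nat_lit 0x40015) (nat_lit 0x1000000000000000000000000000100020002) .nil))) .nil)) (.non (nat_lit 1) (nat_lit 5) (nat_lit 0xa8001) (nat_lit 0x1000200010000000000000000000000000002))) (.non (nat_lit 0) (nat_lit 5) (nat_lit 0x6a004) (nat_lit 0x4000300020001000000000000000000020000))) (.split (nat_lit 4) (nat_lit 3) (.split (nat_lit 9) (nat_lit 8) (.split (nat_lit 8) (nat_lit 0) (.pd (.cons (nat_lit 0) (nat_lit 7) (nat_lit 0) (nat_lit 0x1905532110) (nat_lit 0xb71aef423f00000f423f54591f423f7a11e7a11c28b0300000) (.cons (nat_lit 0) (nat_lit 8) (nat_lit 0) (nat_lit 0x1065532110) (nat_lit 0xf423f00000f423fb71ae1f156f423f7a11e7a11c3d08900000) (.cons (nat_lit 0) (nat_lit 9) (nat_lit 0) (nat_lit 0x765532110) (nat_lit 0xf423fb71aea2c2804737f423f7a11e7a11c7a11a00000) (.cons (nat_lit 1) (nat_lit 7) (nat_lit 0) (nat_lit 0x8005532200) (nat_lit 0xf423fb71ae00000f423f54591f423f7a11e7a11c00000a2c28)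 (.cons (nat_lit 1) (nat_lit 8) (nat_lit 0) (nat_lit 0x9065532200) (nat_lit 0xf423f00000f423fb71ae1f156f423f7a11e7a11c00000f423f) (.cons (nat_lit 2) (nat_lit 8) (nat_lit 0) (nat_lit 0x1065533000) (nat_lit 0xf423f00000f423fb71ae1f156f423f7a11e00000b71ae1f156) .nil)))))) (.leaf (.cons (nat_lit 0x15401) (nat_lit 0x200030004000300000000000000000001) (.cons (nat_lit 0x50005) (nat_lit 0x1000100000000000000000000000000010001) (.cons (nat_lit 0x40015) (nat_lit 0x1000000000000000000000000000100020002) .nil))) .nil)) (.non (nat_lit 1) (nat_lit 5) (nat_lit 0xa8001) (nat_lit 0x1000200010000000000000000000000000002))) (.non (nat_lit 0) (nat_lit 5) (nat_lit 0x6a004) (nat_lit 0x4000300020001000000000000000000020000))) (.non (nat_lit 0) (nat_lit 5) (nat_lit 0x40154) (nat_lit 0x1000000000000000000030004000300020000))))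

noncomputable def t1537_207 : Tr := (.ex (nat_lit 5) (.ex (nat_lit 6) (.split (nat_lit 9) (nat_lit 1) t1537_206 (.non (nat_lit 0) (nat_lit 5) (nat_lit 0xa8014) (nat_lit 0x3000200010000000000000000000200040000))) (.split (nat_lit 0xa) (nat_lit 0) (.split (nat_lit 0xa) (nat_lit 1) (.split (nat_lit 0xa) (nat_lit 2) (.split (nat_lit 0xa) (nat_lit 3) (.split (nat_lit 0xa) (nat_lit 4) (.split (nat_lit 0xa) (nat_lit 7) (.split (nat_lit 0xa) (nat_lit 8) (.split (nat_lit 0xa) (nat_lit 9) (.split (nat_lit 0xa) (nat_lit 5) (.unj (nat_lit 0x40015) (nat_lit 0x1000000000000000000000000000100020002) (nat_lit 0x105400) (nat_lit 0x10000000000010002000200000000000000000000)) (.unj (nat_lit 0x101400) (nat_lit 0x10000000000000001000100000000000000000000) (nat_lit 0x10015) (nat_lit 0x100000000000000000000000100020002))) (.non (nat_lit 0) (nat_lit 5) (nat_lit 0x155000) (nat_lit 0x10001000100010001000000000000000000000000))) (.non (nat_lit 0) (nat_lit 5) (nat_lit 0x115000) (nat_lit 0x10000000100010001000000000000000000000000)))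 (.non (nat_lit 0) (nat_lit 5) (nat_lit 0x105000) (nat_lit 0x10000000000010001000000000000000000000000))) (.non (nat_lit 0) (nat_lit 5) (nat_lit 0x155154) (nat_lit 0x10001000100010001000000010001000100010000))) (.non (nat_lit 0) (nat_lit 5) (nat_lit 0x155054) (nat_lit 0x10001000100010001000000000001000100010000))) (.non (nat_lit 0) (nat_lit 5) (nat_lit 0x155014) (nat_lit 0x10001000100010001000000000000000100010000))) (.star (nat_lit 0xa) (nat_lit 1) (nat_lit 6))) (.star (nat_lit 0xa) (nat_lit 0) (nat_lit 6)))) (.split (nat_lit 0xa) (nat_lit 0) (.split (nat_lit 0xa) (nat_lit 1) (.split (nat_lit 0xa) (nat_lit 2) (.split (nat_lit 0xa) (nat_lit 3) (.split (nat_lit 0xa) (nat_lit 7) (.split (nat_lit 0xa) (nat_lit 8) (.split (nat_lit 0xa) (nat_lit 9) (.split (nat_lit 0xa) (nat_lit 4) (.split (nat_lit 0xa) (nat_lit 6) (.unj (nat_lit 0x40015) (nat_lit 0x1000000000000000000000000000100020002) (nat_lit 0x105400) (nat_lit 0x10000000000010002000200000000000000000000)) (.unj (nat_lit 0x101400) (nat_lit 0x10000000000000001000100000000000000000000)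 (nat_lit 0x10015) (nat_lit 0x100000000000000000000000100020002))) (.split (nat_lit 0xa) (nat_lit 6) (.unj (nat_lit 0x40015) (nat_lit 0x1000000000000000000000000000100020002) (nat_lit 0x105400) (nat_lit 0x10000000000010002000200000000000000000000)) (.non (nat_lit 0) (nat_lit 5) (nat_lit 0x155154) (nat_lit 0x10001000100010001000000010001000100010000)))) (.non (nat_lit 0) (nat_lit 5) (nat_lit 0x155054) (nat_lit 0x20004000300020001000000000001000200030000))) (.non (nat_lit 0) (nat_lit 5) (nat_lit 0x155154) (nat_lit 0x30005000600040002000000010002000300040000))) (.non (nat_lit 1) (nat_lit 5) (nat_lit 0x155001) (nat_lit 0x10001000200020001000000000000000000000001))) (.non (nat_lit 0) (nat_lit 6) (nat_lit 0x154554) (nat_lit 0x40003000200010000000200030006000500040000))) (.non (nat_lit 0) (nat_lit 5) (nat_lit 0x155154) (nat_lit 0x30004000300020001000000020004000600050000))) (.star (nat_lit 0xa) (nat_lit 1) (nat_lit 5))) (.star (nat_lit 0xa) (nat_lit 0) (nat_lit 5))))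

noncomputable def t1537_208 : Tr := (.split (nat_lit 4) (nat_lit 3) (.split (nat_lit 9) (nat_lit 8) (.split (nat_lit 8) (nat_lit 0) (.split (nat_lit 0xa) (nat_lit 0) (.pd (.cons (nat_lit 0) (nat_lit 7) (nat_lit 0) (nat_lit 0xa1905532110) (nat_lit 0xf423fb71aef423f00000f423f54591f423fb71aea2c284734e00000) (.cons (nat_lit 0) (nat_lit 8) (nat_lit 0) (nat_lit 0xa1065532110) (nat_lit 0xf423ff423f00000f423fb71ae1f156f423fb71aea2c285b8d400000) (.cons (nat_lit 0) (nat_lit 9) (nat_lit 0) (nat_lit 0xa0765532110) (nat_lit 0xf423f00000f423fb71aea2c2804737f423fb71aea2c289896500000) (.cons (nat_lit 1) (nat_lit 7) (nat_lit 0) (nat_lit 0x8005532200) (nat_lit 0xf423ff423fb71ae00000f423f54591f423fb71aea2c280000065b97) (.cons (nat_lit 1) (nat_lit 8) (nat_lit 0) (nat_lit 0x9065532200) (nat_lit 0xf423ff423f00000f423fb71ae1f156f423fb71aea2c2800000b71ae) .nil))))) (.leaf (.cons (nat_lit 0x15401) (nat_lit 0x200030004000300000000000000000001) (.cons (nat_lit 0x140005) (nat_lit 0x10001000000000000000000000000000000020002) .nil)) .nil))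 (.non (nat_lit 1) (nat_lit 5) (nat_lit 0x254001) (nat_lit 0x10001000200010000000000000000000000000002))) (.non (nat_lit 1) (nat_lit 5) (nat_lit 0xa8001) (nat_lit 0x1000200010000000000000000000000000002))) (.non (nat_lit 0) (nat_lit 5) (nat_lit 0x6a004) (nat_lit 0x4000300020001000000000000000000020000))) (.split (nat_lit 4) (nat_lit 3) (.split (nat_lit 9) (nat_lit 8) (.split (nat_lit 8) (nat_lit 0) (.split (nat_lit 0xa) (nat_lit 0) (.pd (.cons (nat_lit 0) (nat_lit 7) (nat_lit 0) (nat_lit 0xa1905532110) (nat_lit 0xf423fb71aef423f00000f423f54591f423f7a11e7a11c28b0300000) (.cons (nat_lit 0) (nat_lit 8) (nat_lit 0) (nat_lit 0xa1065532110) (nat_lit 0xf423ff423f00000f423fb71ae1f156f423f7a11e7a11c3d08900000) (.cons (nat_lit 0) (nat_lit 9) (nat_lit 0) (nat_lit 0xa0765532110) (nat_lit 0xf423f00000f423fb71aea2c2804737f423f7a11e7a11c7a11a00000) (.cons (nat_lit 1) (nat_lit 7) (nat_lit 0) (nat_lit 0x8005532200) (nat_lit 0xf423ff423fb71ae00000f423f54591f423f7a11e7a11c0000065b97) (.cons (nat_lit 1) (nat_lit 8) (nat_lit 0)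 (nat_lit 0x9065532200) (nat_lit 0xf423ff423f00000f423fb71ae1f156f423f7a11e7a11c00000b71ae) .nil))))) (.leaf (.cons (nat_lit 0x15401) (nat_lit 0x200030004000300000000000000000001) (.cons (nat_lit 0x140005) (nat_lit 0x10001000000000000000000000000000000020002) .nil)) .nil)) (.non (nat_lit 1) (nat_lit 5) (nat_lit 0x254001) (nat_lit 0x10001000200010000000000000000000000000002))) (.non (nat_lit 1) (nat_lit 5) (nat_lit 0xa8001) (nat_lit 0x1000200010000000000000000000000000002))) (.non (nat_lit 0) (nat_lit 5) (nat_lit 0x6a004) (nat_lit 0x4000300020001000000000000000000020000))) (.non (nat_lit 0) (nat_lit 5) (nat_lit 0x40154) (nat_lit 0x1000000000000000000030004000300020000))))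

noncomputable def t1537_209 : Tr := (.ex (nat_lit 5) (.ex (nat_lit 6) (.split (nat_lit 9) (nat_lit 1) t1537_208 (.non (nat_lit 0) (nat_lit 5) (nat_lit 0xa8014) (nat_lit 0x3000200010000000000000000000200040000))) (.split (nat_lit 0xb) (nat_lit 0) (.split (nat_lit 0xb) (nat_lit 1) (.split (nat_lit 0xb) (nat_lit 2) (.split (nat_lit 0xb) (nat_lit 3) (.split (nat_lit 0xb) (nat_lit 4) (.split (nat_lit 0xb) (nat_lit 7) (.split (nat_lit 0xb) (nat_lit 8) (.split (nat_lit 0xb) (nat_lit 9) (.split (nat_lit 0xb) (nat_lit 0xa) (.split (nat_lit 0xb) (nat_lit 5) (.unj (nat_lit 0x40015) (nat_lit 0x1000000000000000000000000000100020002) (nat_lit 0x405400) (nat_lit 0x100000000000000010002000200000000000000000000)) (.unj (nat_lit 0x401400) (nat_lit 0x100000000000000000001000100000000000000000000) (nat_lit 0x10015) (nat_lit 0x100000000000000000000000100020002))) (.non (nat_lit 1) (nat_lit 5) (nat_lit 0x515001) (nat_lit 0x100010000000100010001000000000000000000000001))) (.non (nat_lit 0) (nat_lit 5) (nat_lit 0x455000) (nat_lit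 0x100000001000100010001000000000000000000000000))) (.non (nat_lit 0) (nat_lit 5) (nat_lit 0x415000) (nat_lit 0x100000000000100010001000000000000000000000000))) (.non (nat_lit 0) (nat_lit 5) (nat_lit 0x405000) (nat_lit 0x100000000000000010001000000000000000000000000))) (.non (nat_lit 0) (nat_lit 5) (nat_lit 0x455154) (nat_lit 0x100000001000100010001000000010001000100010000))) (.non (nat_lit 0) (nat_lit 5) (nat_lit 0x455054) (nat_lit 0x100000001000100010001000000000001000100010000))) (.non (nat_lit 0) (nat_lit 5) (nat_lit 0x455014) (nat_lit 0x100000001000100010001000000000000000100010000))) (.star (nat_lit 0xb) (nat_lit 1) (nat_lit 6))) (.star (nat_lit 0xb) (nat_lit 0) (nat_lit 6)))) (.split (nat_lit 0xb) (nat_lit 0) (.split (nat_lit 0xb) (nat_lit 1) (.split (nat_lit 0xb) (nat_lit 2) (.split (nat_lit 0xb) (nat_lit 3) (.split (nat_lit 0xb) (nat_lit 7) (.split (nat_lit 0xb) (nat_lit 8) (.split (nat_lit 0xb) (nat_lit 9) (.split (nat_lit 0xb) (nat_lit 4) (.split (nat_lit 0xb) (nat_lit 6) (.split (nat_lit 0xb) (nat_lit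 0xa) (.unj (nat_lit 0x40015) (nat_lit 0x1000000000000000000000000000100020002) (nat_lit 0x405400) (nat_lit 0x100000000000000010002000200000000000000000000)) (.unj (nat_lit 0x40015) (nat_lit 0x1000000000000000000000000000100020002) (nat_lit 0x405400) (nat_lit 0x100000000000000010002000200000000000000000000))) (.split (nat_lit 0xb) (nat_lit 0xa) (.unj (nat_lit 0x401400) (nat_lit 0x100000000000000000001000100000000000000000000) (nat_lit 0x10015) (nat_lit 0x100000000000000000000000100020002)) (.non (nat_lit 1) (nat_lit 5) (nat_lit 0x515001) (nat_lit 0x100010000000100010001000000000000000000000001)))) (.split (nat_lit 0xb) (nat_lit 6) (.split (nat_lit 0xb) (nat_lit 0xa) (.unj (nat_lit 0x40015) (nat_lit 0x1000000000000000000000000000100020002) (nat_lit 0x405400) (nat_lit 0x100000000000000010002000200000000000000000000)) (.non (nat_lit 1) (nat_lit 5) (nat_lit 0x555141) (nat_lit 0x300040003000600040002000000020001000000000005))) (.non (nat_lit 0) (nat_lit 5) (nat_lit 0x455154) (nat_lit 0x100000001000100010001000000010001000100010000))))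 (.non (nat_lit 0) (nat_lit 5) (nat_lit 0x455054) (nat_lit 0x200000004000300020001000000000001000200030000))) (.non (nat_lit 0) (nat_lit 5) (nat_lit 0x455154) (nat_lit 0x300000005000600040002000000010002000300040000))) (.non (nat_lit 1) (nat_lit 5) (nat_lit 0x455001) (nat_lit 0x100000001000200020001000000000000000000000001))) (.non (nat_lit 0) (nat_lit 6) (nat_lit 0x454554) (nat_lit 0x400000003000200010000000200030006000500040000))) (.non (nat_lit 0) (nat_lit 5) (nat_lit 0x455154) (nat_lit 0x300000004000300020001000000020004000600050000))) (.star (nat_lit 0xb) (nat_lit 1) (nat_lit 5))) (.star (nat_lit 0xb) (nat_lit 0) (nat_lit 5))))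

noncomputable def t1537_210 : Tr := (.split (nat_lit 8) (nat_lit 0) (.split (nat_lit 5) (nat_lit 3) (.split (nat_lit 5) (nat_lit 4) (.st (nat_lit 1) (nat_lit 0) (nat_lit 5) (nat_lit 0x54154) (nat_lit 0x3000200010000000000010002000300040000) (nat_lit 1) (nat_lit 2) (.st (nat_lit 2) (nat_lit 0) (nat_lit 5) (nat_lit 0x55154) (nat_lit 0x4000300020001000000020004000600050000) (nat_lit 1) (nat_lit 3) (.st (nat_lit 8) (nat_lit 0) (nat_lit 5) (nat_lit 0x55154) (nat_lit 0x5000600040002000000010002000300040000) (nat_lit 1) (nat_lit 3) (.st (nat_lit 9) (nat_lit 0) (nat_lit 5) (nat_lit 0x55054) (nat_lit 0x4000300020001000000000001000200030000) (nat_lit 1) (nat_lit 2) (.ex (nat_lit 0) (.ex (nat_lit 3) t1537_202 (.split (nat_lit 0xa) (nat_lit 1) (.split (nat_lit 0xa) (nat_lit 2) (.split (nat_lit 0xa) (nat_lit 4) (.split (nat_lit 0xa) (nat_lit 5) (.split (nat_lit 0xa) (nat_lit 6) (.split (nat_lit 0xa) (nat_lit 7) t1537_204 (.non (nat_lit 0) (nat_lit 5) (nat_lit 0x115150) (nat_lit 0x20000000100020001000000010002000100000000)))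 (.non (nat_lit 0) (nat_lit 5) (nat_lit 0x155054) (nat_lit 0x10001000100010001000000000001000100010000))) (.non (nat_lit 0) (nat_lit 6) (nat_lit 0x154554) (nat_lit 0x40003000200010000000200030006000500040000))) (.non (nat_lit 0) (nat_lit 5) (nat_lit 0x100140) (nat_lit 0x10000000000000000000000010001000000000000))) (.non (nat_lit 0) (nat_lit 5) (nat_lit 0x100050) (nat_lit 0x10000000000000000000000000001000100000000))) (.non (nat_lit 0) (nat_lit 5) (nat_lit 0x100054) (nat_lit 0x10000000000000000000000000001000100010000)))) (.split (nat_lit 0xa) (nat_lit 1) t1537_205 (.non (nat_lit 0) (nat_lit 5) (nat_lit 0x154154) (nat_lit 0x20003000200010000000000010002000300040000)))))))) (.unj (nat_lit 0x40015) (nat_lit 0x1000000000000000000000000000100020002) (nat_lit 0x5500) (nat_lit 0x10002000200010000000000000000))) (.split (nat_lit 5) (nat_lit 4) (.sup (nat_lit 0x3000000000000000000000000000100050004) (nat_lit 0x30005000500000001000000000000)) (.non (nat_lit 0) (nat_lit 6) (nat_lit 0x540) (nat_lit 0x100010001000000000000))))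 (.split (nat_lit 5) (nat_lit 3) (.split (nat_lit 5) (nat_lit 4) (.st (nat_lit 1) (nat_lit 0) (nat_lit 5) (nat_lit 0x54154) (nat_lit 0x3000200010000000000010002000300040000) (nat_lit 1) (nat_lit 2) (.st (nat_lit 7) (nat_lit 1) (nat_lit 5) (nat_lit 0x55001) (nat_lit 0x1000200020001000000000000000000000001) (nat_lit 1) (nat_lit 1) (.st (nat_lit 8) (nat_lit 0) (nat_lit 5) (nat_lit 0x55154) (nat_lit 0x5000600040002000000010002000300040000) (nat_lit 1) (nat_lit 3) (.st (nat_lit 9) (nat_lit 0) (nat_lit 5) (nat_lit 0x55054) (nat_lit 0x4000300020001000000000001000200030000) (nat_lit 1) (nat_lit 2) (.ex (nat_lit 0) t1537_207 (.split (nat_lit 0xa) (nat_lit 1) (.split (nat_lit 0xa) (nat_lit 2) (.split (nat_lit 0xa) (nat_lit 3) (.split (nat_lit 0xa) (nat_lit 4) (.split (nat_lit 0xa) (nat_lit 5) (.split (nat_lit 0xa) (nat_lit 6) (.split (nat_lit 0xa) (nat_lit 7) (.split (nat_lit 0xa) (nat_lit 8) (.split (nat_lit 0xa) (nat_lit 9) t1537_209 (.non (nat_lit 0) (nat_lit 5) (nat_lit 0x155054) (nat_lit 0x20004000300020001000000000001000200030000)))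 (.non (nat_lit 0) (nat_lit 5) (nat_lit 0x155154) (nat_lit 0x30005000600040002000000010002000300040000))) (.non (nat_lit 1) (nat_lit 5) (nat_lit 0x114001) (nat_lit 0x10000000100010000000000000000000000000001))) (.star (nat_lit 0xa) (nat_lit 0) (nat_lit 6))) (.star (nat_lit 0xa) (nat_lit 0) (nat_lit 5))) (.non (nat_lit 1) (nat_lit 5) (nat_lit 0x155151) (nat_lit 0x40003000600040002000000030002000100000005))) (.non (nat_lit 1) (nat_lit 5) (nat_lit 0x154151) (nat_lit 0x20001000200010000000000010002000100000002))) (.non (nat_lit 0) (nat_lit 5) (nat_lit 0x155154) (nat_lit 0x30004000300020001000000020004000600050000))) (.non (nat_lit 0) (nat_lit 5) (nat_lit 0x154154) (nat_lit 0x20003000200010000000000010002000300040000)))))))) (.unj (nat_lit 0x40015) (nat_lit 0x1000000000000000000000000000100020002) (nat_lit 0x5500) (nat_lit 0x10002000200010000000000000000))) (.split (nat_lit 5) (nat_lit 4) (.sup (nat_lit 0x3000000000000000000000000000100050004) (nat_lit 0x30005000500000001000000000000)) (.non (nat_lit 0) (nat_lit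 6) (nat_lit 0x540) (nat_lit 0x100010001000000000000)))))

noncomputable def t1537_211 : Tr := (.ex (nat_lit 0xa) (.split (nat_lit 0xa) (nat_lit 9) (.pd (.cons (nat_lit 2) (nat_lit 8) (nat_lit 0) (nat_lit 0x90065533000) (nat_lit 0xf423fb71ae00000f423fb71ae1f156f423fb71ae00000f423f02f7a) .nil) (.leaf (.cons (nat_lit 0x150005) (nat_lit 0x10002000100000000000000000000000000020002) (.cons (nat_lit 0x40015) (nat_lit 0x1000000000000000000000000000100020002) .nil)) (.cons (nat_lit 0x11111000001) (nat_lit 0x100010) (nat_lit 9) (nat_lit 0x20345000001) (.cons (nat_lit 0x11110000001) (nat_lit 0x1000010) (nat_lit 8) (nat_lit 0x20340000001) (.cons (nat_lit 0x11100000001) (nat_lit 0x10000010) (nat_lit 7) (nat_lit 0x30200000001) (.cons (nat_lit 0x11000000001) (nat_lit 0x100000010) (nat_lit 1) (nat_lit 0x21000000000) .nil)))))) (.non (nat_lit 1) (nat_lit 5) (nat_lit 0x250001) (nat_lit 0x10002000100000000000000000000000000000001))) (.split (nat_lit 0xb) (nat_lit 0) (.split (nat_lit 0xb) (nat_lit 1) (.split (nat_lit 0xb) (nat_lit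 2) (.split (nat_lit 0xb) (nat_lit 3) (.split (nat_lit 0xb) (nat_lit 4) (.split (nat_lit 0xb) (nat_lit 5) (.split (nat_lit 0xb) (nat_lit 6) (.split (nat_lit 0xb) (nat_lit 7) (.split (nat_lit 0xb) (nat_lit 8) (.split (nat_lit 0xb) (nat_lit 9) (.st (nat_lit 0xa) (nat_lit 1) (nat_lit 5) (nat_lit 0x550001) (nat_lit 0x100020002000100000000000000000000000000000001) (nat_lit 1) (nat_lit 1) (.st (nat_lit 0xb) (nat_lit 1) (nat_lit 5) (nat_lit 0x555001) (nat_lit 0x200030004000300020001000000000000000000000002) (nat_lit 1) (nat_lit 1) (.split (nat_lit 0xb) (nat_lit 0xa) (.split (nat_lit 0xa) (nat_lit 9) (.leaf (.cons (nat_lit 0x540005) (nat_lit 0x100020003000000000000000000000000000000030004) .nil) (.cons (nat_lit 0x111111000001) (nat_lit 0x100010) (nat_lit 0xd) (nat_lit 0x320456000001) (.cons (nat_lit 0x111110000001) (nat_lit 0x1000010) (nat_lit 0xc) (nat_lit 0x540230000001) (.cons (nat_lit 0x111100000001) (nat_lit 0x10000010) (nat_lit 8) (nat_lit 0x430200000001) .nil)))) (.non (nat_lit 0) (nat_lit 5) (nat_lit 0xa54000)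 (nat_lit 0x100020003000200010000000000000000000000000000))) (.non (nat_lit 1) (nat_lit 5) (nat_lit 0x950001) (nat_lit 0x100020002000100000000000000000000000000000001))))) (.non (nat_lit 0) (nat_lit 5) (nat_lit 0x540000) (nat_lit 0x100010001000000000000000000000000000000000000))) (.non (nat_lit 0) (nat_lit 5) (nat_lit 0x550000) (nat_lit 0x100010001000100000000000000000000000000000000))) (.non (nat_lit 0) (nat_lit 5) (nat_lit 0x554000) (nat_lit 0x100010001000100010000000000000000000000000000))) (.non (nat_lit 0) (nat_lit 5) (nat_lit 0x555000) (nat_lit 0x100010001000100010001000000000000000000000000))) (.non (nat_lit 0) (nat_lit 7) (nat_lit 0x541400) (nat_lit 0x300020001000000000003000400000000000000000000))) (.non (nat_lit 1) (nat_lit 5) (nat_lit 0x555101) (nat_lit 0x200030004000300020001000000010000000000000002))) (.non (nat_lit 0) (nat_lit 5) (nat_lit 0x554154) (nat_lit 0x500040003000200010000000000030006000400020000))) (.non (nat_lit 0) (nat_lit 5) (nat_lit 0x554154) (nat_lit 0x500040003000200010000000000020004000600030000)))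 (.non (nat_lit 3) (nat_lit 9) (nat_lit 0x400015) (nat_lit 0x100000000000000000000000000000000000100020002))) (.non (nat_lit 1) (nat_lit 5) (nat_lit 0x540001) (nat_lit 0x100010001000000000000000000000000000000000001))))

noncomputable def t1537_212 : Tr := (.pd (.cons (nat_lit 0) (nat_lit 9) (nat_lit 0) (nat_lit 0x765532110) (nat_lit 0xf423fb71aea2c2804737f423fb71aea2c289896500000) (.cons (nat_lit 1) (nat_lit 9) (nat_lit 0) (nat_lit 0x765532200) (nat_lit 0xf423fb71aea2c2804737f423fb71aea2c2800000f423f) (.cons (nat_lit 2) (nat_lit 9) (nat_lit 0) (nat_lit 0x765533000) (nat_lit 0xf423fb71aea2c2804737f423fb71ae00000f423f54591) (.cons (nat_lit 3) (nat_lit 9) (nat_lit 0) (nat_lit 0x765540100) (nat_lit 0xf423fb71aea2c2804737f423f00000f423fb71ae1f156) (.cons (nat_lit 4) (nat_lit 9) (nat_lit 0) (nat_lit 0x765502100) (nat_lit 0xf423fb71aea2c280473700000f423fb71aea2c2804737) .nil))))) (.ex (nat_lit 9) (.pd (.cons (nat_lit 2) (nat_lit 7) (nat_lit 0) (nat_lit 0x905533000) (nat_lit 0xb71aef423f00000f423f54591f423fb71ae00000f423f02f7a)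 (.cons (nat_lit 2) (nat_lit 8) (nat_lit 0) (nat_lit 0x65533000) (nat_lit 0xf423f00000f423fb71ae1f156f423fb71ae00000f423f17500) .nil)) (.leaf (.cons (nat_lit 0x54005) (nat_lit 0x3000200010000000000000000000000030004) (.cons (nat_lit 0x40015) (nat_lit 0x1000000000000000000000000000100020002) .nil)) (.cons (nat_lit 0x1100000001) (nat_lit 0x10000010) (nat_lit 1) (nat_lit 0x1200000000) (.cons (nat_lit 0x1100000011) (nat_lit 0x10000100) (nat_lit 0x10) (nat_lit 0x2300000001) .nil)))) (.split (nat_lit 0xa) (nat_lit 0) (.split (nat_lit 0xa) (nat_lit 1) (.split (nat_lit 0xa) (nat_lit 2) (.split (nat_lit 0xa) (nat_lit 3) (.split (nat_lit 0xa) (nat_lit 4) (.split (nat_lit 0xa) (nat_lit 5) (.split (nat_lit 0xa) (nat_lit 6) (.split (nat_lit 0xa) (nat_lit 7) (.split (nat_lit 0xa) (nat_lit 8) (.st (nat_lit 9) (nat_lit 1) (nat_lit 5) (nat_lit 0x150001) (nat_lit 0x10002000100000000000000000000000000000001) (nat_lit 1) (nat_lit 1) t1537_211) (.non (nat_lit 0) (nat_lit 5) (nat_lit 0x150000) (nat_lit 0x10001000100000000000000000000000000000000)))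 (.non (nat_lit 0) (nat_lit 5) (nat_lit 0x154000) (nat_lit 0x10001000100010000000000000000000000000000))) (.non (nat_lit 0) (nat_lit 5) (nat_lit 0x155000) (nat_lit 0x10001000100010001000000000000000000000000))) (.non (nat_lit 0) (nat_lit 7) (nat_lit 0x151400) (nat_lit 0x30002000100000003000400000000000000000000))) (.non (nat_lit 1) (nat_lit 5) (nat_lit 0x155141) (nat_lit 0x30004000300020001000000020001000000000002))) (.non (nat_lit 0) (nat_lit 5) (nat_lit 0x155154) (nat_lit 0x50004000300020001000000030006000400020000))) (.non (nat_lit 0) (nat_lit 5) (nat_lit 0x155154) (nat_lit 0x50004000300020001000000020004000600030000))) (.non (nat_lit 3) (nat_lit 9) (nat_lit 0x100015) (nat_lit 0x10000000000000000000000000000000100020002))) (.non (nat_lit 1) (nat_lit 5) (nat_lit 0x140001) (nat_lit 0x10001000000000000000000000000000000000001)))))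

noncomputable def t1537_213 : Tr := (.ex (nat_lit 7) (.pd (.cons (nat_lit 0) (nat_lit 8) (nat_lit 0) (nat_lit 0x9065532110) (nat_lit 0xf423f00000f423fb71ae1f156f423fb71aea2c289896500000) (.cons (nat_lit 1) (nat_lit 8) (nat_lit 0) (nat_lit 0x65532200) (nat_lit 0xf423f00000f423fb71ae1f156f423fb71aea2c2800000b71ae) .nil)) (.ex (nat_lit 8) t1537_212 (.split (nat_lit 0xa) (nat_lit 0) (.split (nat_lit 0xa) (nat_lit 1) (.split (nat_lit 0xa) (nat_lit 2) (.split (nat_lit 0xa) (nat_lit 3) (.split (nat_lit 0xa) (nat_lit 4) (.split (nat_lit 0xa) (nat_lit 5) (.split (nat_lit 0xa) (nat_lit 6) (.split (nat_lit 0xa) (nat_lit 7) (.split (nat_lit 0xa) (nat_lit 9) (.unj (nat_lit 0x155) (nat_lit 0x10002000300040003) (nat_lit 0x115400) (nat_lit 0x10000000200030004000300000000000000000000)) (.non (nat_lit 0) (nat_lit 5) (nat_lit 0x150000) (nat_lit 0x10001000100000000000000000000000000000000))) (.non (nat_lit 0) (nat_lit 5) (nat_lit 0x114000) (nat_lit 0x10000000100010000000000000000000000000000))) (.non (nat_lit 0) (nat_lit 5) (nat_lit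 0x115000) (nat_lit 0x10000000100010001000000000000000000000000))) (.non (nat_lit 0) (nat_lit 7) (nat_lit 0x151400) (nat_lit 0x30001000200000003000400000000000000000000))) (.non (nat_lit 0) (nat_lit 5) (nat_lit 0x155154) (nat_lit 0x50003000600040002000000040003000200010000))) (.non (nat_lit 0) (nat_lit 5) (nat_lit 0x154150) (nat_lit 0x20001000200010000000000010002000100000000))) (.non (nat_lit 0) (nat_lit 5) (nat_lit 0x154054) (nat_lit 0x20001000200010000000000000001000200010000))) (.non (nat_lit 0) (nat_lit 5) (nat_lit 0x155154) (nat_lit 0x50003000600040002000000010002000300040000))) (.non (nat_lit 1) (nat_lit 5) (nat_lit 0x150001) (nat_lit 0x10001000100000000000000000000000000000001))))) (.split (nat_lit 0xa) (nat_lit 0) (.split (nat_lit 0xa) (nat_lit 1) (.split (nat_lit 0xa) (nat_lit 2) (.split (nat_lit 0xa) (nat_lit 3) (.split (nat_lit 0xa) (nat_lit 4) (.split (nat_lit 0xa) (nat_lit 6) (.split (nat_lit 0xa) (nat_lit 8) (.split (nat_lit 0xa) (nat_lit 9) (.split (nat_lit 0xa) (nat_lit 5) (.unj (nat_lit 0x155)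 (nat_lit 0x10002000300040003) (nat_lit 0x115400) (nat_lit 0x10000000100020002000200000000000000000000)) (.unj (nat_lit 0x40015) (nat_lit 0x1000000000000000000000000000100020002) (nat_lit 0x105400) (nat_lit 0x10000000000010001000100000000000000000000))) (.non (nat_lit 0) (nat_lit 5) (nat_lit 0x154000) (nat_lit 0x10001000100010000000000000000000000000000))) (.non (nat_lit 0) (nat_lit 5) (nat_lit 0x114000) (nat_lit 0x10000000100010000000000000000000000000000))) (.non (nat_lit 0) (nat_lit 5) (nat_lit 0x105000) (nat_lit 0x10000000000010001000000000000000000000000))) (.non (nat_lit 0) (nat_lit 5) (nat_lit 0x155154) (nat_lit 0x50002000400060003000000040003000200010000))) (.non (nat_lit 0) (nat_lit 5) (nat_lit 0x115150) (nat_lit 0x20000000100020001000000010002000100000000))) (.non (nat_lit 0) (nat_lit 5) (nat_lit 0x115054) (nat_lit 0x20000000100020001000000000001000200010000))) (.non (nat_lit 0) (nat_lit 5) (nat_lit 0x155154) (nat_lit 0x50002000400060003000000010002000300040000))) (.non (nat_lit 1) (nat_lit 5) (nat_lit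 0x154001) (nat_lit 0x10001000100010000000000000000000000000001))))

noncomputable def t1537_214 : Tr := (.split (nat_lit 4) (nat_lit 3) (.split (nat_lit 9) (nat_lit 0) (.split (nat_lit 9) (nat_lit 8) (.pd (.cons (nat_lit 0) (nat_lit 7) (nat_lit 0) (nat_lit 0x8805532110) (nat_lit 0xf423fb71ae00000f423f54591f423fb71aea2c289896500000) (.cons (nat_lit 1) (nat_lit 7) (nat_lit 0) (nat_lit 0x905532200) (nat_lit 0xb71aef423f00000f423f54591f423fb71aea2c2800000a2c28) .nil)) t1537_213) (.non (nat_lit 1) (nat_lit 5) (nat_lit 0x6a001) (nat_lit 0x4000300020001000000000000000000000002))) (.split (nat_lit 9) (nat_lit 0) (.split (nat_lit 9) (nat_lit 8) (.pd (.cons (nat_lit 0) (nat_lit 7) (nat_lit 0) (nat_lit 0x8805532110) (nat_lit 0xf423fb71ae00000f423f54591f423fb71aea2c289896500000) (.cons (nat_lit 1) (nat_lit 7) (nat_lit 0) (nat_lit 0x905532200) (nat_lit 0xb71aef423f00000f423f54591f423fb71aea2c280000051612) .nil)) (.st (nat_lit 7) (nat_lit 1) (nat_lit 5) (nat_lit 0xaa001) (nat_lit 0x2000200020001000000000000000000000002)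 (nat_lit 2) (nat_lit 1) (.pd (.cons (nat_lit 0) (nat_lit 8) (nat_lit 0) (nat_lit 0x9065532110) (nat_lit 0xf423f00000f423fb71ae1f156f423fb71aea2c289896500000) (.cons (nat_lit 1) (nat_lit 8) (nat_lit 0) (nat_lit 0x65532200) (nat_lit 0xf423f00000f423fb71ae1f156f423fb71aea2c28000007a11e) .nil)) (.st (nat_lit 8) (nat_lit 1) (nat_lit 5) (nat_lit 0xa8001) (nat_lit 0x2000200010000000000000000000000000002) (nat_lit 2) (nat_lit 1) (.pd (.cons (nat_lit 0) (nat_lit 9) (nat_lit 0) (nat_lit 0x765532110) (nat_lit 0xf423fb71aea2c2804737f423fb71aea2c289896500000) (.cons (nat_lit 1) (nat_lit 9) (nat_lit 0) (nat_lit 0x765532200) (nat_lit 0xf423fb71aea2c2804737f423fb71aea2c2800000f423f) (.cons (nat_lit 2) (nat_lit 9) (nat_lit 0) (nat_lit 0x765533000) (nat_lit 0xf423fb71aea2c2804737f423fb71ae00000f423f54591) (.cons (nat_lit 3) (nat_lit 9) (nat_lit 0) (nat_lit 0x765540100) (nat_lit 0xf423fb71aea2c2804737f423f00000f423fb71ae1f156) (.cons (nat_lit 4) (nat_lit 9) (nat_lit 0) (nat_lit 0x765502100) (nat_lit 0xf423fb71aea2c280473700000f423fb71aea2c2804737)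 .nil))))) (.st (nat_lit 9) (nat_lit 1) (nat_lit 5) (nat_lit 0xa0001) (nat_lit 0x2000100000000000000000000000000000002) (nat_lit 2) (nat_lit 1) (.leaf (.cons (nat_lit 0x40005) (nat_lit 0x1000000000000000000000000000000010001) .nil) (.cons (nat_lit 0x1100000001) (nat_lit 0x10000010) (nat_lit 6) (nat_lit 0x1200000000) .nil)))))))) (.non (nat_lit 1) (nat_lit 5) (nat_lit 0x90001) (nat_lit 0x1000100000000000000000000000000000001))) (.non (nat_lit 1) (nat_lit 5) (nat_lit 0x55001) (nat_lit 0x4000300020001000000000000000000000003)))) (.split (nat_lit 9) (nat_lit 0) (.sup (nat_lit 0x7000a000a000a0006) (nat_lit 0x100040007000a000800000000000000000000)) (.split (nat_lit 4) (nat_lit 3) (.split (nat_lit 9) (nat_lit 0) (.split (nat_lit 9) (nat_lit 8) (.pd (.cons (nat_lit 0) (nat_lit 7) (nat_lit 0) (nat_lit 0x8805532110) (nat_lit 0xf423fb71ae00000f423f54591f423f7a11e7a11c7a11a00000) (.cons (nat_lit 1) (nat_lit 7) (nat_lit 0) (nat_lit 0x905532200) (nat_lit 0xb71aef423f00000f423f54591f423f7a11e7a11c0000051612) .nil)) (.st (nat_lit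 7) (nat_lit 1) (nat_lit 5) (nat_lit 0xaa001) (nat_lit 0x2000200020001000000000000000000000002) (nat_lit 2) (nat_lit 1) (.pd (.cons (nat_lit 0) (nat_lit 8) (nat_lit 0) (nat_lit 0x9065532110) (nat_lit 0xf423f00000f423fb71ae1f156f423f7a11e7a11c7a11a00000) (.cons (nat_lit 1) (nat_lit 8) (nat_lit 0) (nat_lit 0x65532200) (nat_lit 0xf423f00000f423fb71ae1f156f423f7a11e7a11c000007a11e) .nil)) (.st (nat_lit 8) (nat_lit 1) (nat_lit 5) (nat_lit 0xa8001) (nat_lit 0x2000200010000000000000000000000000002) (nat_lit 2) (nat_lit 1) (.pd (.cons (nat_lit 0) (nat_lit 9) (nat_lit 0) (nat_lit 0x765532110) (nat_lit 0xf423fb71aea2c2804737f423f7a11e7a11c7a11a00000) (.cons (nat_lit 1) (nat_lit 9) (nat_lit 0) (nat_lit 0x765532200) (nat_lit 0xf423fb71aea2c2804737f423f7a11e7a11c00000f423f) (.cons (nat_lit 2) (nat_lit 9) (nat_lit 0) (nat_lit 0x765533000) (nat_lit 0xf423fb71aea2c2804737f423f7a11e00000f423f54591) (.cons (nat_lit 3) (nat_lit 9) (nat_lit 0) (nat_lit 0x765540100) (nat_lit 0xf423fb71aea2c2804737f423f00000f423fb71ae1f156) (.cons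 (nat_lit 4) (nat_lit 9) (nat_lit 0) (nat_lit 0x765502100) (nat_lit 0xf423fb71aea2c280473700000f423fb71aea2c2804737) .nil))))) (.st (nat_lit 4) (nat_lit 0) (nat_lit 5) (nat_lit 0x254) (nat_lit 0x20003000200010000) (nat_lit 2) (nat_lit 1) (.st (nat_lit 9) (nat_lit 1) (nat_lit 5) (nat_lit 0xa0001) (nat_lit 0x2000100000000000000000000000000000002) (nat_lit 2) (nat_lit 1) (.leaf (.cons (nat_lit 0x40005) (nat_lit 0x1000000000000000000000000000000010001) .nil) (.cons (nat_lit 0x1100000001) (nat_lit 0x10000010) (nat_lit 6) (nat_lit 0x1200000000) .nil))))))))) (.non (nat_lit 1) (nat_lit 5) (nat_lit 0x90001) (nat_lit 0x1000100000000000000000000000000000001))) (.non (nat_lit 1) (nat_lit 5) (nat_lit 0x55001) (nat_lit 0x4000300020001000000000000000000000003))) (.sup (nat_lit 0x8000a000700040001) (nat_lit 0x100040007000a000800000000000000000000)))))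

noncomputable def t1537_215 : Tr := (.split (nat_lit 0xa) (nat_lit 3) (.split (nat_lit 0xa) (nat_lit 4) (.split (nat_lit 0xa) (nat_lit 6) (.split (nat_lit 0xa) (nat_lit 7) (.split (nat_lit 0xa) (nat_lit 8) (.split (nat_lit 0xa) (nat_lit 9) (.unj (nat_lit 0x40015) (nat_lit 0x1000000000000000000000000000100020002) (nat_lit 0x105400) (nat_lit 0x10000000000010002000200000000000000000000)) (.unj (nat_lit 0x105400) (nat_lit 0x10000000000010002000200000000000000000000) (nat_lit 0x155) (nat_lit 0x10002000300040003))) (.split (nat_lit 0xa) (nat_lit 9) (.unj (nat_lit 0x40015) (nat_lit 0x1000000000000000000000000000100020002) (nat_lit 0x105400) (nat_lit 0x10000000000010002000200000000000000000000)) (.non (nat_lit 0) (nat_lit 5) (nat_lit 0x150000) (nat_lit 0x10001000100000000000000000000000000000000)))) (.split (nat_lit 0xa) (nat_lit 8) (.split (nat_lit 0xa) (nat_lit 9) (.unj (nat_lit 0x40015) (nat_lit 0x1000000000000000000000000000100020002) (nat_lit 0x105400) (nat_lit 0x10000000000010001000100000000000000000000)) (.non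 (nat_lit 0) (nat_lit 5) (nat_lit 0x154000) (nat_lit 0x10001000100010000000000000000000000000000))) (.non (nat_lit 0) (nat_lit 5) (nat_lit 0x114000) (nat_lit 0x10000000100010000000000000000000000000000)))) (.split (nat_lit 0xa) (nat_lit 7) (.split (nat_lit 0xa) (nat_lit 8) (.split (nat_lit 0xa) (nat_lit 9) (.unj (nat_lit 0x101400) (nat_lit 0x10000000000000001000100000000000000000000) (nat_lit 0x40015) (nat_lit 0x1000000000000000000000000000100020002)) (.non (nat_lit 0) (nat_lit 5) (nat_lit 0x155000) (nat_lit 0x10001000100010001000000000000000000000000))) (.non (nat_lit 0) (nat_lit 5) (nat_lit 0x115000) (nat_lit 0x10000000100010001000000000000000000000000))) (.non (nat_lit 0) (nat_lit 5) (nat_lit 0x105000) (nat_lit 0x10000000000010001000000000000000000000000)))) (.split (nat_lit 0xa) (nat_lit 7) (.split (nat_lit 0xa) (nat_lit 8) (.split (nat_lit 0xa) (nat_lit 9) (.split (nat_lit 0xa) (nat_lit 6) (.unj (nat_lit 0x40015) (nat_lit 0x1000000000000000000000000000100020002) (nat_lit 0x105400) (nat_lit 0x10000000000010002000200000000000000000000))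 (.unj (nat_lit 0x101400) (nat_lit 0x10000000000000001000100000000000000000000) (nat_lit 0x40015) (nat_lit 0x1000000000000000000000000000100020002))) (.non (nat_lit 0) (nat_lit 6) (nat_lit 0x154550) (nat_lit 0x40003000200010000000200030002000100000000))) (.non (nat_lit 0) (nat_lit 5) (nat_lit 0x155154) (nat_lit 0x50003000600040002000000040003000200010000))) (.non (nat_lit 0) (nat_lit 5) (nat_lit 0x155154) (nat_lit 0x50002000400060003000000040003000200010000)))) (.split (nat_lit 0xa) (nat_lit 4) (.split (nat_lit 0xa) (nat_lit 6) (.split (nat_lit 0xa) (nat_lit 7) (.split (nat_lit 0xa) (nat_lit 8) (.split (nat_lit 0xa) (nat_lit 9) (.unj (nat_lit 0x40015) (nat_lit 0x1000000000000000000000000000100020002) (nat_lit 0x105400) (nat_lit 0x10000000000010002000200000000000000000000)) (.non (nat_lit 0) (nat_lit 5) (nat_lit 0x155154) (nat_lit 0x50004000300020001000000030006000400020000))) (.non (nat_lit 0) (nat_lit 5) (nat_lit 0x154150) (nat_lit 0x20001000200010000000000010002000100000000))) (.non (nat_lit 0) (nat_lit 5)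 (nat_lit 0x115150) (nat_lit 0x20000000100020001000000010002000100000000))) (.non (nat_lit 0) (nat_lit 5) (nat_lit 0x155154) (nat_lit 0x50001000200030004000000030006000400020000))) (.non (nat_lit 0) (nat_lit 5) (nat_lit 0x100140) (nat_lit 0x10000000000000000000000010001000000000000))))

noncomputable def t1537_216 : Tr := (.ex (nat_lit 5) (.ex (nat_lit 6) t1537_214 (.split (nat_lit 0xa) (nat_lit 0) (.split (nat_lit 0xa) (nat_lit 1) (.split (nat_lit 0xa) (nat_lit 2) (.split (nat_lit 0xa) (nat_lit 3) (.split (nat_lit 0xa) (nat_lit 7) (.split (nat_lit 0xa) (nat_lit 8) (.split (nat_lit 0xa) (nat_lit 9) (.split (nat_lit 0xa) (nat_lit 4) (.split (nat_lit 0xa) (nat_lit 5) (.unj (nat_lit 0x40015) (nat_lit 0x1000000000000000000000000000100020002) (nat_lit 0x105400) (nat_lit 0x10000000000010002000200000000000000000000)) (.unj (nat_lit 0x101400) (nat_lit 0x10000000000000001000100000000000000000000) (nat_lit 0x40015) (nat_lit 0x1000000000000000000000000000100020002))) (.split (nat_lit 0xa) (nat_lit 5) (.unj (nat_lit 0x40015)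 (nat_lit 0x1000000000000000000000000000100020002) (nat_lit 0x105400) (nat_lit 0x10000000000010002000200000000000000000000)) (.unj (nat_lit 0x101400) (nat_lit 0x10000000000000001000100000000000000000000) (nat_lit 0x40015) (nat_lit 0x1000000000000000000000000000100020002)))) (.non (nat_lit 0) (nat_lit 5) (nat_lit 0x155000) (nat_lit 0x10001000100010001000000000000000000000000))) (.non (nat_lit 0) (nat_lit 5) (nat_lit 0x115000) (nat_lit 0x10000000100010001000000000000000000000000))) (.non (nat_lit 0) (nat_lit 5) (nat_lit 0x105000) (nat_lit 0x10000000000010001000000000000000000000000))) (.non (nat_lit 0) (nat_lit 5) (nat_lit 0x155154) (nat_lit 0x50001000200030004000000030006000400020000))) (.non (nat_lit 0) (nat_lit 5) (nat_lit 0x155154) (nat_lit 0x50001000200030004000000020004000600030000))) (.star (nat_lit 0xa) (nat_lit 1) (nat_lit 6))) (.star (nat_lit 0xa) (nat_lit 0) (nat_lit 6)))) (.split (nat_lit 0xa) (nat_lit 0) (.split (nat_lit 0xa) (nat_lit 1) (.split (nat_lit 0xa) (nat_lit 2) t1537_215 (.split (nat_lit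 0xa) (nat_lit 3) (.split (nat_lit 0xa) (nat_lit 4) (.split (nat_lit 0xa) (nat_lit 6) (.split (nat_lit 0xa) (nat_lit 7) (.split (nat_lit 0xa) (nat_lit 8) (.split (nat_lit 0xa) (nat_lit 9) (.split (nat_lit 0xa) (nat_lit 2) (.sup (nat_lit 0x500000000000000000000000000020009000a) (nat_lit 0x2000000000005000a000900000000000000000000)) (.non (nat_lit 0) (nat_lit 5) (nat_lit 0x200054) (nat_lit 0x10000000000000000000000000001000200010000))) (.non (nat_lit 0) (nat_lit 5) (nat_lit 0x155154) (nat_lit 0x50004000300020001000000020004000600030000))) (.non (nat_lit 0) (nat_lit 5) (nat_lit 0x154054) (nat_lit 0x20001000200010000000000000001000200010000))) (.non (nat_lit 0) (nat_lit 5) (nat_lit 0x115054) (nat_lit 0x20000000100020001000000000001000200010000))) (.non (nat_lit 0) (nat_lit 5) (nat_lit 0x155154) (nat_lit 0x50001000200030004000000020004000600030000))) (.non (nat_lit 0) (nat_lit 5) (nat_lit 0x100150) (nat_lit 0x10000000000000000000000010001000100000000))) (.non (nat_lit 0) (nat_lit 5) (nat_lit 0x100050) (nat_lit 0x10000000000000000000000000001000100000000))))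 (.star (nat_lit 0xa) (nat_lit 1) (nat_lit 5))) (.star (nat_lit 0xa) (nat_lit 0) (nat_lit 5))))

noncomputable def t1537_217 : Tr := (.ex (nat_lit 6) (.split (nat_lit 4) (nat_lit 3) (.split (nat_lit 9) (nat_lit 0) (.split (nat_lit 9) (nat_lit 8) (.pd (.cons (nat_lit 0) (nat_lit 7) (nat_lit 0) (nat_lit 0x38805532110) (nat_lit 0xf423ff423fb71ae00000f423f54591f423f7a11d7a11b7a11900000) (.cons (nat_lit 0) (nat_lit 8) (nat_lit 0) (nat_lit 0x39065532110) (nat_lit 0xf423ff423f00000f423fb71ae1f156f423f7a11d7a11b7a11900000) (.cons (nat_lit 0) (nat_lit 9) (nat_lit 0) (nat_lit 0x30765532110) (nat_lit 0xf423f00000f423fb71aea2c2804737f423f7a11d7a11b7a11900000) (.cons (nat_lit 1) (nat_lit 7) (nat_lit 0) (nat_lit 0x30905532200) (nat_lit 0xf423fb71aef423f00000f423f54591f423f7a11d7a11b0000051612) (.cons (nat_lit 1) (nat_lit 8) (nat_lit 0) (nat_lit 0x30065532200) (nat_lit 0xf423ff423f00000f423fb71ae1f156f423f7a11d7a11b000007a11e) (.cons (nat_lit 1) (nat_lit 9) (nat_lit 0) (nat_lit 0x30765532200) (nat_lit 0xf423f00000f423fb71aea2c2804737f423f7a11d7a11b00000f423f)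 (.cons (nat_lit 2) (nat_lit 9) (nat_lit 0) (nat_lit 0x30765533000) (nat_lit 0xf423f00000f423fb71aea2c2804737f423f7a11d00000f423f54591) (.cons (nat_lit 3) (nat_lit 9) (nat_lit 0) (nat_lit 0xa0765540100) (nat_lit 0xf423f00000f423fb71aea2c2804737f423f00000f423fb71ae1f156) .nil)))))))) (.leaf (.cons (nat_lit 0x40005) (nat_lit 0x1000000000000000000000000000000010001) (.cons (nat_lit 0x100055) (nat_lit 0x10000000000000000000000000002000300040003) .nil)) (.cons (nat_lit 0x1100000001) (nat_lit 0x10000010) (nat_lit 6) (nat_lit 0x1200000000) .nil))) (.non (nat_lit 1) (nat_lit 5) (nat_lit 0x90001) (nat_lit 0x1000100000000000000000000000000000001))) (.non (nat_lit 1) (nat_lit 5) (nat_lit 0x55001) (nat_lit 0x4000300020001000000000000000000000003))) (.non (nat_lit 0) (nat_lit 5) (nat_lit 0x100250) (nat_lit 0x10000000000000000000000010002000100000000))) (.split (nat_lit 0xb) (nat_lit 0) (.split (nat_lit 0xb) (nat_lit 1) (.split (nat_lit 0xb) (nat_lit 2) (.split (nat_lit 0xb) (nat_lit 3) (.split (nat_lit 0xb) (nat_lit 4) (.split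 (nat_lit 0xb) (nat_lit 7) (.split (nat_lit 0xb) (nat_lit 8) (.split (nat_lit 0xb) (nat_lit 9) (.split (nat_lit 0xb) (nat_lit 0xa) (.split (nat_lit 0xb) (nat_lit 5) (.unj (nat_lit 0x40005) (nat_lit 0x1000000000000000000000000000000010001) (nat_lit 0x405400) (nat_lit 0x100000000000000010002000200000000000000000000)) (.unj (nat_lit 0x40005) (nat_lit 0x1000000000000000000000000000000010001) (nat_lit 0x401400) (nat_lit 0x100000000000000000001000100000000000000000000))) (.non (nat_lit 0) (nat_lit 5) (nat_lit 0x515154) (nat_lit 0x400050000000100020003000000030006000400020000))) (.non (nat_lit 0) (nat_lit 5) (nat_lit 0x455000) (nat_lit 0x100000001000100010001000000000000000000000000))) (.non (nat_lit 0) (nat_lit 5) (nat_lit 0x415000) (nat_lit 0x100000000000100010001000000000000000000000000))) (.non (nat_lit 0) (nat_lit 5) (nat_lit 0x405000) (nat_lit 0x100000000000000010001000000000000000000000000))) (.non (nat_lit 0) (nat_lit 5) (nat_lit 0x515154) (nat_lit 0x400030000000100020003000000050006000400020000))) (.non (nat_lit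 0) (nat_lit 5) (nat_lit 0x500150) (nat_lit 0x100010000000000000000000000010002000100000000))) (.non (nat_lit 0) (nat_lit 5) (nat_lit 0x555054) (nat_lit 0x500020001000200030004000000000004000600030000))) (.star (nat_lit 0xb) (nat_lit 1) (nat_lit 6))) (.star (nat_lit 0xb) (nat_lit 0) (nat_lit 6))))

noncomputable def t1537_218 : Tr := (.st (nat_lit 7) (nat_lit 1) (nat_lit 5) (nat_lit 0xaa001) (nat_lit 0x2000200020001000000000000000000000002) (nat_lit 2) (nat_lit 1) (.st (nat_lit 8) (nat_lit 1) (nat_lit 5) (nat_lit 0xa8001) (nat_lit 0x2000200010000000000000000000000000002) (nat_lit 2) (nat_lit 1) (.st (nat_lit 3) (nat_lit 0) (nat_lit 5) (nat_lit 0x100150) (nat_lit 0x10000000000000000000000010002000100000000) (nat_lit 1) (nat_lit 1) (.st (nat_lit 9) (nat_lit 1) (nat_lit 5) (nat_lit 0xa0001) (nat_lit 0x2000100000000000000000000000000000002) (nat_lit 2) (nat_lit 1) (.ex (nat_lit 5) t1537_217 (.split (nat_lit 0xb) (nat_lit 0) (.split (nat_lit 0xb) (nat_lit 1) (.split (nat_lit 0xb) (nat_lit 2) (.split (nat_lit 0xb)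 (nat_lit 3) (.split (nat_lit 0xb) (nat_lit 7) (.split (nat_lit 0xb) (nat_lit 8) (.split (nat_lit 0xb) (nat_lit 9) (.split (nat_lit 0xb) (nat_lit 4) (.split (nat_lit 0xb) (nat_lit 6) (.split (nat_lit 0xb) (nat_lit 0xa) (.unj (nat_lit 0x40005) (nat_lit 0x1000000000000000000000000000000010001) (nat_lit 0x405400) (nat_lit 0x100000000000000010002000200000000000000000000)) (.unj (nat_lit 0x40005) (nat_lit 0x1000000000000000000000000000000010001) (nat_lit 0x405400) (nat_lit 0x100000000000000010002000200000000000000000000))) (.split (nat_lit 0xb) (nat_lit 0xa) (.unj (nat_lit 0x40005) (nat_lit 0x1000000000000000000000000000000010001) (nat_lit 0x401400) (nat_lit 0x100000000000000000001000100000000000000000000)) (.non (nat_lit 0) (nat_lit 5) (nat_lit 0x515154) (nat_lit 0x400050000000100020003000000030006000400020000)))) (.split (nat_lit 0xb) (nat_lit 6) (.split (nat_lit 0xb) (nat_lit 0xa) (.unj (nat_lit 0x40005) (nat_lit 0x1000000000000000000000000000000010001) (nat_lit 0x405400) (nat_lit 0x100000000000000010002000200000000000000000000))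 (.non (nat_lit 0) (nat_lit 5) (nat_lit 0x500140) (nat_lit 0x100010000000000000000000000010001000000000000))) (.non (nat_lit 0) (nat_lit 5) (nat_lit 0x515154) (nat_lit 0x400030000000100020003000000050006000400020000)))) (.non (nat_lit 1) (nat_lit 5) (nat_lit 0x8a0001) (nat_lit 0x100000002000100000000000000000000000000000002))) (.non (nat_lit 1) (nat_lit 5) (nat_lit 0x8a8001) (nat_lit 0x100000002000200010000000000000000000000000002))) (.non (nat_lit 1) (nat_lit 5) (nat_lit 0x8aa001) (nat_lit 0x100000002000200020001000000000000000000000002))) (.non (nat_lit 0) (nat_lit 5) (nat_lit 0x500150) (nat_lit 0x100010000000000000000000000010002000100000000))) (.non (nat_lit 0) (nat_lit 5) (nat_lit 0x500154) (nat_lit 0x100010000000000000000000000010002000200010000))) (.star (nat_lit 0xb) (nat_lit 1) (nat_lit 5))) (.star (nat_lit 0xb) (nat_lit 0) (nat_lit 5))))))))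

noncomputable def t1537_219 : Tr := (.ex (nat_lit 2) (.ex (nat_lit 3) t1537_216 (.split (nat_lit 0xa) (nat_lit 1) (.split (nat_lit 0xa) (nat_lit 2) (.split (nat_lit 0xa) (nat_lit 4) (.split (nat_lit 0xa) (nat_lit 6) (.split (nat_lit 0xa) (nat_lit 7) (.split (nat_lit 0xa) (nat_lit 8) (.split (nat_lit 0xa) (nat_lit 9) (.split (nat_lit 0xa) (nat_lit 0) (.split (nat_lit 0xa) (nat_lit 5) (.split (nat_lit 0xa) (nat_lit 3) (.split (nat_lit 9) (nat_lit 0) (.sup (nat_lit 0x20006000b0010000d00000000000000000000) (nat_lit 0x20000000000000000000000020005000500050003)) t1537_218) (.non (nat_lit 0) (nat_lit 5) (nat_lit 0x200150) (nat_lit 0x10000000000000000000000010002000100000000))) (.unj (nat_lit 0x40015) (nat_lit 0x1000000000000000000000000000100020002) (nat_lit 0x105400) (nat_lit 0x10000000000010002000200000000000000000000))) (.split (nat_lit 0xa) (nat_lit 5) (.sup (nat_lit 0x6000e00170020001a00000000000000000000) (nat_lit 0x40000000000000000000000030006000500040002)) (.star (nat_lit 0xa) (nat_lit 0) (nat_lit 5))))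 (.non (nat_lit 0) (nat_lit 5) (nat_lit 0x155154) (nat_lit 0x50004000300020001000000030006000400020000))) (.non (nat_lit 0) (nat_lit 5) (nat_lit 0x154150) (nat_lit 0x20001000200010000000000010002000100000000))) (.non (nat_lit 0) (nat_lit 5) (nat_lit 0x115150) (nat_lit 0x20000000100020001000000010002000100000000))) (.non (nat_lit 0) (nat_lit 5) (nat_lit 0x155154) (nat_lit 0x50001000200030004000000030006000400020000))) (.non (nat_lit 0) (nat_lit 5) (nat_lit 0x100140) (nat_lit 0x10000000000000000000000010001000000000000))) (.non (nat_lit 0) (nat_lit 5) (nat_lit 0x100050) (nat_lit 0x10000000000000000000000000001000100000000))) (.non (nat_lit 0) (nat_lit 5) (nat_lit 0x100054) (nat_lit 0x10000000000000000000000000001000100010000)))) (.split (nat_lit 0xa) (nat_lit 1) (.split (nat_lit 0xa) (nat_lit 3) (.split (nat_lit 0xa) (nat_lit 4) (.split (nat_lit 0xa) (nat_lit 6) (.split (nat_lit 0xa) (nat_lit 7) (.split (nat_lit 0xa) (nat_lit 8) (.split (nat_lit 0xa) (nat_lit 9) (.split (nat_lit 0xa) (nat_lit 0) (.split (nat_lit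 0xa) (nat_lit 5) (.split (nat_lit 0xa) (nat_lit 2) (.split (nat_lit 9) (nat_lit 0) (.sup (nat_lit 0x50000000000000000000000000005000a000a0006) (nat_lit 0x100040007000a000800000000000000000000)) (.split (nat_lit 9) (nat_lit 0) (.sup (nat_lit 0x20006000b0010000d00000000000000000000) (nat_lit 0x20000000000000000000000020003000500040002)) (.non (nat_lit 1) (nat_lit 5) (nat_lit 0x55001) (nat_lit 0x4000300020001000000000000000000000003)))) (.non (nat_lit 0) (nat_lit 5) (nat_lit 0x200054) (nat_lit 0x10000000000000000000000000001000200010000))) (.split (nat_lit 0xa) (nat_lit 2) (.sup (nat_lit 0x500000000000000000000000000020009000a) (nat_lit 0x2000000000005000a000900000000000000000000)) (.non (nat_lit 0) (nat_lit 5) (nat_lit 0x200054) (nat_lit 0x10000000000000000000000000001000200010000)))) (.split (nat_lit 0xa) (nat_lit 5) (.sup (nat_lit 0x800000000000000000000000000000009000a0007) (nat_lit 0x100040007000a000800000000000000000000)) (.star (nat_lit 0xa) (nat_lit 0) (nat_lit 5)))) (.non (nat_lit 0) (nat_lit 5) (nat_lit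 0x155154) (nat_lit 0x50004000300020001000000020004000600030000))) (.non (nat_lit 0) (nat_lit 5) (nat_lit 0x154054) (nat_lit 0x20001000200010000000000000001000200010000))) (.non (nat_lit 0) (nat_lit 5) (nat_lit 0x115054) (nat_lit 0x20000000100020001000000000001000200010000))) (.non (nat_lit 0) (nat_lit 5) (nat_lit 0x155154) (nat_lit 0x50001000200030004000000020004000600030000))) (.non (nat_lit 0) (nat_lit 5) (nat_lit 0x100150) (nat_lit 0x10000000000000000000000010001000100000000))) (.non (nat_lit 0) (nat_lit 5) (nat_lit 0x100050) (nat_lit 0x10000000000000000000000000001000100000000))) (.non (nat_lit 0) (nat_lit 5) (nat_lit 0x100014) (nat_lit 0x10000000000000000000000000000000100010000))))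

noncomputable def t1537_220 : Tr := (.split (nat_lit 0xa) (nat_lit 1) (.split (nat_lit 0xa) (nat_lit 2) (.split (nat_lit 0xa) (nat_lit 3) (.split (nat_lit 0xa) (nat_lit 4) (.split (nat_lit 0xa) (nat_lit 0) (.split (nat_lit 9) (nat_lit 0) (.sup (nat_lit 0x20006000b0010000d00000000000000000000) (nat_lit 0x10000000000000000000000010002000300040003)) (.non (nat_lit 1) (nat_lit 5) (nat_lit 0x1a8001) (nat_lit 0x20003000200010000000000000000000000000004))) (.split (nat_lit 0xa) (nat_lit 0) (.split (nat_lit 9) (nat_lit 0) (.sup (nat_lit 0x20007000b0010000d00000000000000000000) (nat_lit 0x20000000000000000000000010001000200030002)) (.non (nat_lit 1) (nat_lit 5) (nat_lit 0x280001) (nat_lit 0x10001000000000000000000000000000000000002))) (.non (nat_lit 1) (nat_lit 5) (nat_lit 0x154001) (nat_lit 0x30003000200010000000000000000000000000004)))) (.split (nat_lit 0xa) (nat_lit 0) (.split (nat_lit 0xa) (nat_lit 4) (.split (nat_lit 9) (nat_lit 0) (.sup (nat_lit 0x1000300060008000600000000000000000000) (nat_lit 0x10000000000000000000000010001000100010001))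 (.non (nat_lit 1) (nat_lit 5) (nat_lit 0x1a8001) (nat_lit 0x20003000200010000000000000000000000000004))) (.non (nat_lit 1) (nat_lit 5) (nat_lit 0x140281) (nat_lit 0x30001000000000000000000020001000000000002))) (.non (nat_lit 1) (nat_lit 5) (nat_lit 0x250201) (nat_lit 0x20002000100000000000000010000000000000003)))) (.split (nat_lit 0xa) (nat_lit 4) (.sup (nat_lit 0x6000e00170020001a00000000000000000000) (nat_lit 0x40000000000000000000000030006000500040002)) (.non (nat_lit 0) (nat_lit 5) (nat_lit 0x100140) (nat_lit 0x10000000000000000000000010001000000000000)))) (.split (nat_lit 0xa) (nat_lit 3) (.split (nat_lit 0xa) (nat_lit 4) (.sup (nat_lit 0x800000000000000000000000000000009000a0007) (nat_lit 0x100040007000a000800000000000000000000)) (.non (nat_lit 0) (nat_lit 5) (nat_lit 0x100150) (nat_lit 0x10000000000000000000000010001000100000000))) (.non (nat_lit 0) (nat_lit 5) (nat_lit 0x100050) (nat_lit 0x10000000000000000000000000001000100000000)))) (.split (nat_lit 0xa) (nat_lit 2) (.split (nat_lit 0xa) (nat_lit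 3) (.split (nat_lit 0xa) (nat_lit 4) (.sup (nat_lit 0x900000000000000000000000000000000000a0007) (nat_lit 0x100040007000a000800000000000000000000)) (.non (nat_lit 0) (nat_lit 5) (nat_lit 0x100154) (nat_lit 0x10000000000000000000000010001000100010000))) (.non (nat_lit 0) (nat_lit 5) (nat_lit 0x100054) (nat_lit 0x10000000000000000000000000001000100010000))) (.non (nat_lit 0) (nat_lit 5) (nat_lit 0x100014) (nat_lit 0x10000000000000000000000000000000100010000))))

noncomputable def t1537_221 : Tr := (.ex (nat_lit 0) (.ex (nat_lit 1) t1537_219 (.split (nat_lit 0xa) (nat_lit 2) (.split (nat_lit 0xa) (nat_lit 3) (.split (nat_lit 0xa) (nat_lit 4) (.split (nat_lit 0xa) (nat_lit 5) (.split (nat_lit 0xa) (nat_lit 6) (.split (nat_lit 0xa) (nat_lit 7) (.split (nat_lit 0xa) (nat_lit 8) (.split (nat_lit 0xa) (nat_lit 0) (.split (nat_lit 0xa) (nat_lit 9) (.split (nat_lit 0xa) (nat_lit 1) (.split (nat_lit 9) (nat_lit 0) (.sup (nat_lit 0x500000000000000000000000000000005000a0006) (nat_lit 0x100040007000a000800000000000000000000))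 (.split (nat_lit 9) (nat_lit 0) (.sup (nat_lit 0x20007000b0010000d00000000000000000000) (nat_lit 0x20000000000000000000000010002000300040002)) (.non (nat_lit 1) (nat_lit 5) (nat_lit 0x55001) (nat_lit 0x4000300020001000000000000000000000003)))) (.sup (nat_lit 0x30007000c0010000d00000000000000000000) (nat_lit 0x20000000000000000000000010001000200030001))) (.split (nat_lit 0xa) (nat_lit 1) (.split (nat_lit 0xa) (nat_lit 9) (.split (nat_lit 9) (nat_lit 0) (.sup (nat_lit 0x3000d00160020001a00000000000000000000) (nat_lit 0x20000000000000000000000020004000500070004)) (.non (nat_lit 1) (nat_lit 5) (nat_lit 0x2a0001) (nat_lit 0x10002000100000000000000000000000000000002))) (.non (nat_lit 0) (nat_lit 5) (nat_lit 0x1a8004) (nat_lit 0x40003000200010000000000000000000000020000))) (.non (nat_lit 0) (nat_lit 5) (nat_lit 0x2a0014) (nat_lit 0x30002000100000000000000000000000200040000)))) (.split (nat_lit 0xa) (nat_lit 9) (.sup (nat_lit 0x900000000000000000000000000000000000a0007) (nat_lit 0x100040007000a000800000000000000000000))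 (.non (nat_lit 1) (nat_lit 5) (nat_lit 0x140001) (nat_lit 0x10001000000000000000000000000000000000001)))) (.non (nat_lit 0) (nat_lit 5) (nat_lit 0x155154) (nat_lit 0x50003000600040002000000010002000300040000))) (.non (nat_lit 0) (nat_lit 5) (nat_lit 0x155154) (nat_lit 0x50002000400060003000000010002000300040000))) (.star (nat_lit 0xa) (nat_lit 1) (nat_lit 6))) (.star (nat_lit 0xa) (nat_lit 1) (nat_lit 5))) (.non (nat_lit 0) (nat_lit 5) (nat_lit 0x100154) (nat_lit 0x10000000000000000000000010001000100010000))) (.non (nat_lit 0) (nat_lit 5) (nat_lit 0x100054) (nat_lit 0x10000000000000000000000000001000100010000))) (.non (nat_lit 0) (nat_lit 5) (nat_lit 0x100014) (nat_lit 0x10000000000000000000000000000000100010000)))) (.split (nat_lit 0xa) (nat_lit 5) (.split (nat_lit 0xa) (nat_lit 6) (.split (nat_lit 0xa) (nat_lit 7) (.split (nat_lit 0xa) (nat_lit 8) (.split (nat_lit 0xa) (nat_lit 9) t1537_220 (.non (nat_lit 1) (nat_lit 5) (nat_lit 0x140001) (nat_lit 0x10001000000000000000000000000000000000001))) (.non (nat_lit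 1) (nat_lit 5) (nat_lit 0x150001) (nat_lit 0x10001000100000000000000000000000000000001))) (.non (nat_lit 1) (nat_lit 5) (nat_lit 0x154001) (nat_lit 0x10001000100010000000000000000000000000001))) (.star (nat_lit 0xa) (nat_lit 0) (nat_lit 6))) (.star (nat_lit 0xa) (nat_lit 0) (nat_lit 5))))

noncomputable def t1537_222 : Tr := (.ex (nat_lit 5) (.split (nat_lit 8) (nat_lit 1) (.split (nat_lit 4) (nat_lit 3) (.split (nat_lit 9) (nat_lit 8) (.split (nat_lit 9) (nat_lit 0) (.pd (.cons (nat_lit 0) (nat_lit 7) (nat_lit 0) (nat_lit 0x8105532110) (nat_lit 0xf423fb71ae00000f423f54591f423fb71aea2c284734e00000) (.cons (nat_lit 0) (nat_lit 8) (nat_lit 0) (nat_lit 0x9065532110) (nat_lit 0xf423f00000f423fb71ae1f156f423fb71aea2c289896500000) (.cons (nat_lit 1) (nat_lit 7) (nat_lit 0) (nat_lit 0x905532200) (nat_lit 0xb71aef423f00000f423f54591f423fb71aea2c2800000a2c28) (.cons (nat_lit 1) (nat_lit 8) (nat_lit 0) (nat_lit 0x65532200) (nat_lit 0xf423f00000f423fb71ae1f156f423fb71aea2c2800000b71ae) (.cons (nat_lit 1) (nat_lit 9) (nat_lit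 0) (nat_lit 0x765532200) (nat_lit 0xf423fb71aea2c2804737f423fb71aea2c2800000f423f) (.cons (nat_lit 2) (nat_lit 8) (nat_lit 0) (nat_lit 0x65533000) (nat_lit 0xf423f00000f423fb71ae1f156f423fb71ae00000f423f17500) .nil)))))) (.leaf (.cons (nat_lit 0x15404) (nat_lit 0x200030004000300000000000000010000) (.cons (nat_lit 0x50005) (nat_lit 0x1000100000000000000000000000000010001) (.cons (nat_lit 0x40015) (nat_lit 0x1000000000000000000000000000100020002) .nil))) .nil)) (.split (nat_lit 9) (nat_lit 0) (.pd (.cons (nat_lit 0) (nat_lit 7) (nat_lit 0) (nat_lit 0x8105532110) (nat_lit 0xf423fb71ae00000f423f54591f423fb71aea2c284734e00000) (.cons (nat_lit 0) (nat_lit 8) (nat_lit 0) (nat_lit 0x9065532110) (nat_lit 0xf423f00000f423fb71ae1f156f423fb71aea2c289896500000) (.cons (nat_lit 1) (nat_lit 7) (nat_lit 0) (nat_lit 0x905532200) (nat_lit 0xb71aef423f00000f423f54591f423fb71aea2c280000051612) (.cons (nat_lit 1) (nat_lit 8) (nat_lit 0) (nat_lit 0x65532200) (nat_lit 0xf423f00000f423fb71ae1f156f423fb71aea2c28000007a11e) (.cons (nat_lit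 1) (nat_lit 9) (nat_lit 0) (nat_lit 0x765532200) (nat_lit 0xf423fb71aea2c2804737f423fb71aea2c2800000f423f) .nil))))) (.leaf (.cons (nat_lit 0x15404) (nat_lit 0x200030004000300000000000000010000) (.cons (nat_lit 0x40005) (nat_lit 0x1000000000000000000000000000000010001) .nil)) .nil)) (.non (nat_lit 1) (nat_lit 5) (nat_lit 0x55001) (nat_lit 0x4000300020001000000000000000000000003)))) (.non (nat_lit 0) (nat_lit 5) (nat_lit 0x94004) (nat_lit 0x1000200010000000000000000000000010000))) (.non (nat_lit 0) (nat_lit 5) (nat_lit 0x54254) (nat_lit 0x1000200010000000000010002000200020000))) (.non (nat_lit 0) (nat_lit 5) (nat_lit 0xa8004) (nat_lit 0x1000200010000000000000000000000020000))) (.split (nat_lit 0xa) (nat_lit 0) (.split (nat_lit 0xa) (nat_lit 1) (.split (nat_lit 0xa) (nat_lit 2) (.split (nat_lit 0xa) (nat_lit 3) (.split (nat_lit 0xa) (nat_lit 4) (.split (nat_lit 0xa) (nat_lit 6) (.split (nat_lit 0xa) (nat_lit 7) (.split (nat_lit 0xa) (nat_lit 8) (.split (nat_lit 0xa) (nat_lit 9) (.unj (nat_lit 0x40015) (nat_lit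 0x1000000000000000000000000000100020002) (nat_lit 0x105400) (nat_lit 0x10000000000010002000200000000000000000000)) (.non (nat_lit 0) (nat_lit 5) (nat_lit 0x155014) (nat_lit 0x10002000300020001000000000000000100020000))) (.non (nat_lit 0) (nat_lit 5) (nat_lit 0x154004) (nat_lit 0x10001000200010000000000000000000000010000))) (.non (nat_lit 0) (nat_lit 5) (nat_lit 0x155004) (nat_lit 0x10001000200020001000000000000000000010000))) (.non (nat_lit 0) (nat_lit 5) (nat_lit 0x155054) (nat_lit 0x10002000400030002000000000001000200030000))) (.non (nat_lit 0) (nat_lit 5) (nat_lit 0x155154) (nat_lit 0x10003000600040002000000020003000400050000))) (.non (nat_lit 0) (nat_lit 5) (nat_lit 0x154154) (nat_lit 0x10001000200010000000000010002000200020000))) (.non (nat_lit 0) (nat_lit 5) (nat_lit 0x154054) (nat_lit 0x10001000200010000000000000001000200020000))) (.star (nat_lit 0xa) (nat_lit 1) (nat_lit 5))) (.star (nat_lit 0xa) (nat_lit 0) (nat_lit 5))))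

noncomputable def t1537_223 : Tr := (.ex (nat_lit 5) (.split (nat_lit 8) (nat_lit 1) (.split (nat_lit 4) (nat_lit 3) (.split (nat_lit 9) (nat_lit 8) (.split (nat_lit 9) (nat_lit 0) (.split (nat_lit 0xa) (nat_lit 0) (.pd (.cons (nat_lit 0) (nat_lit 7) (nat_lit 0) (nat_lit 0xa8105532110) (nat_lit 0xf423ff423fb71ae00000f423f54591f423fb71aea2c284734e00000) (.cons (nat_lit 0) (nat_lit 8) (nat_lit 0) (nat_lit 0xa9065532110) (nat_lit 0xf423ff423f00000f423fb71ae1f156f423fb71aea2c289896500000) (.cons (nat_lit 1) (nat_lit 7) (nat_lit 0) (nat_lit 0x905532200) (nat_lit 0xf423fb71aef423f00000f423f54591f423fb71aea2c280000065b97) (.cons (nat_lit 1) (nat_lit 8) (nat_lit 0) (nat_lit 0x65532200) (nat_lit 0xf423ff423f00000f423fb71ae1f156f423fb71aea2c28000007a11d) (.cons (nat_lit 1) (nat_lit 9) (nat_lit 0) (nat_lit 0x765532200) (nat_lit 0xf423f00000f423fb71aea2c2804737f423fb71aea2c2800000b71ae) .nil))))) (.leaf (.cons (nat_lit 0x15404) (nat_lit 0x200030004000300000000000000010000) (.cons (nat_lit 0x140005) (nat_lit 0x10001000000000000000000000000000000020002)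 .nil)) .nil)) (.split (nat_lit 0xa) (nat_lit 0) (.pd (.cons (nat_lit 0) (nat_lit 7) (nat_lit 0) (nat_lit 0xa8105532110) (nat_lit 0xf423ff423fb71ae00000f423f54591f423fb71aea2c284734e00000) (.cons (nat_lit 0) (nat_lit 8) (nat_lit 0) (nat_lit 0xa9065532110) (nat_lit 0xf423ff423f00000f423fb71ae1f156f423fb71aea2c289896500000) (.cons (nat_lit 1) (nat_lit 7) (nat_lit 0) (nat_lit 0x905532200) (nat_lit 0xf423fb71aef423f00000f423f54591f423fb71aea2c280000028b07) (.cons (nat_lit 1) (nat_lit 8) (nat_lit 0) (nat_lit 0x65532200) (nat_lit 0xf423ff423f00000f423fb71ae1f156f423fb71aea2c28000003d08d) (.cons (nat_lit 1) (nat_lit 9) (nat_lit 0) (nat_lit 0x765532200) (nat_lit 0xf423f00000f423fb71aea2c2804737f423fb71aea2c28000007a11e) .nil))))) (.leaf (.cons (nat_lit 0x15404) (nat_lit 0x200030004000300000000000000010000) (.cons (nat_lit 0x100005) (nat_lit 0x10000000000000000000000000000000000010001) .nil)) .nil)) (.non (nat_lit 1) (nat_lit 5) (nat_lit 0x154001) (nat_lit 0x30003000200010000000000000000000000000004)))) (.non (nat_lit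 1) (nat_lit 5) (nat_lit 0x1a8001) (nat_lit 0x20003000200010000000000000000000000000004))) (.non (nat_lit 0) (nat_lit 5) (nat_lit 0x94004) (nat_lit 0x1000200010000000000000000000000010000))) (.non (nat_lit 0) (nat_lit 5) (nat_lit 0x54254) (nat_lit 0x1000200010000000000010002000200020000))) (.non (nat_lit 0) (nat_lit 5) (nat_lit 0xa8004) (nat_lit 0x1000200010000000000000000000000020000))) (.split (nat_lit 0xb) (nat_lit 0) (.split (nat_lit 0xb) (nat_lit 1) (.split (nat_lit 0xb) (nat_lit 2) (.split (nat_lit 0xb) (nat_lit 3) (.split (nat_lit 0xb) (nat_lit 4) (.split (nat_lit 0xb) (nat_lit 6) (.split (nat_lit 0xb) (nat_lit 7) (.split (nat_lit 0xb) (nat_lit 8) (.split (nat_lit 0xb) (nat_lit 9) (.split (nat_lit 0xb) (nat_lit 0xa) (.unj (nat_lit 0x40015) (nat_lit 0x1000000000000000000000000000100020002) (nat_lit 0x405400) (nat_lit 0x100000000000000010002000200000000000000000000)) (.unj (nat_lit 0x40015) (nat_lit 0x1000000000000000000000000000100020002) (nat_lit 0x405400) (nat_lit 0x100000000000000010002000200000000000000000000)))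 (.non (nat_lit 0) (nat_lit 5) (nat_lit 0x455014) (nat_lit 0x100000002000300020001000000000000000100020000))) (.non (nat_lit 0) (nat_lit 5) (nat_lit 0x454004) (nat_lit 0x100000001000200010000000000000000000000010000))) (.non (nat_lit 0) (nat_lit 5) (nat_lit 0x455004) (nat_lit 0x100000001000200020001000000000000000000010000))) (.non (nat_lit 0) (nat_lit 5) (nat_lit 0x455054) (nat_lit 0x100000002000400030002000000000001000200030000))) (.non (nat_lit 0) (nat_lit 5) (nat_lit 0x455154) (nat_lit 0x100000003000600040002000000020003000400050000))) (.non (nat_lit 0) (nat_lit 5) (nat_lit 0x454154) (nat_lit 0x100000001000200010000000000010002000200020000))) (.non (nat_lit 0) (nat_lit 5) (nat_lit 0x454054) (nat_lit 0x100000001000200010000000000000001000200020000))) (.star (nat_lit 0xb) (nat_lit 1) (nat_lit 5))) (.star (nat_lit 0xb) (nat_lit 0) (nat_lit 5))))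

noncomputable def t1537_224 : Tr := (.split (nat_lit 8) (nat_lit 1) (.split (nat_lit 6) (nat_lit 3) (.split (nat_lit 6) (nat_lit 4) (.split (nat_lit 5) (nat_lit 3) (.split (nat_lit 5) (nat_lit 4) t1537_221 (.unj (nat_lit 0x40015) (nat_lit 0x1000000000000000000000000000100020002) (nat_lit 0x5500) (nat_lit 0x10002000200010000000000000000))) (.split (nat_lit 5) (nat_lit 4) (.sup (nat_lit 0x500000000000000000000000000020009000a) (nat_lit 0x5000a000900000002000000000000)) (.non (nat_lit 0) (nat_lit 6) (nat_lit 0x540) (nat_lit 0x100010001000000000000)))) (.split (nat_lit 5) (nat_lit 3) (.split (nat_lit 5) (nat_lit 4) (.unj (nat_lit 0x40015) (nat_lit 0x1000000000000000000000000000100020002) (nat_lit 0x5500) (nat_lit 0x10002000200010000000000000000)) (.unj (nat_lit 0x1500) (nat_lit 0x1000100010000000000000000) (nat_lit 0x40015) (nat_lit 0x1000000000000000000000000000100020002))) (.split (nat_lit 5) (nat_lit 4) (.unj (nat_lit 0x40015) (nat_lit 0x1000000000000000000000000000100020002) (nat_lit 0x5500) (nat_lit 0x10002000200010000000000000000))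 (.non (nat_lit 0) (nat_lit 6) (nat_lit 0x540) (nat_lit 0x100010001000000000000))))) (.split (nat_lit 6) (nat_lit 4) (.split (nat_lit 5) (nat_lit 3) (.split (nat_lit 5) (nat_lit 4) (.sup (nat_lit 0x3000000000000000000000000000100050005) (nat_lit 0x30005000400000001000000000000)) (.unj (nat_lit 0x40015) (nat_lit 0x1000000000000000000000000000100020002) (nat_lit 0x5500) (nat_lit 0x10002000200010000000000000000))) (.split (nat_lit 5) (nat_lit 4) (.sup (nat_lit 0x5000500000002000000000000) (nat_lit 0x3000000000000000000000000000100050005)) (.non (nat_lit 0) (nat_lit 6) (nat_lit 0x540) (nat_lit 0x100010001000000000000)))) (.non (nat_lit 0) (nat_lit 5) (nat_lit 0x1140) (nat_lit 0x1000000010001000000000000)))) (.split (nat_lit 6) (nat_lit 3) (.split (nat_lit 6) (nat_lit 4) (.split (nat_lit 5) (nat_lit 3) (.split (nat_lit 5) (nat_lit 4) (.st (nat_lit 1) (nat_lit 0) (nat_lit 5) (nat_lit 0x54014) (nat_lit 0x1000200010000000000000000000100020000) (nat_lit 1) (nat_lit 1) (.st (nat_lit 6) (nat_lit 0) (nat_lit 5) (nat_lit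 0x55054) (nat_lit 0x2000400030002000000000001000200030000) (nat_lit 1) (nat_lit 1) (.st (nat_lit 7) (nat_lit 0) (nat_lit 5) (nat_lit 0x55004) (nat_lit 0x1000200020001000000000000000000010000) (nat_lit 1) (nat_lit 1) (.st (nat_lit 8) (nat_lit 0) (nat_lit 5) (nat_lit 0x54004) (nat_lit 0x1000200010000000000000000000000010000) (nat_lit 1) (nat_lit 1) (.st (nat_lit 9) (nat_lit 0) (nat_lit 5) (nat_lit 0x55014) (nat_lit 0x2000300020001000000000000000100020000) (nat_lit 1) (nat_lit 1) (.ex (nat_lit 0) t1537_222 (.split (nat_lit 0xa) (nat_lit 1) (.split (nat_lit 0xa) (nat_lit 2) (.split (nat_lit 0xa) (nat_lit 3) (.split (nat_lit 0xa) (nat_lit 4) (.split (nat_lit 0xa) (nat_lit 5) (.split (nat_lit 0xa) (nat_lit 6) (.split (nat_lit 0xa) (nat_lit 7) (.split (nat_lit 0xa) (nat_lit 8) (.split (nat_lit 0xa) (nat_lit 9) t1537_223 (.non (nat_lit 0) (nat_lit 5) (nat_lit 0x155014) (nat_lit 0x10002000300020001000000000000000100020000))) (.non (nat_lit 0) (nat_lit 5) (nat_lit 0x154004) (nat_lit 0x10001000200010000000000000000000000010000)))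 (.non (nat_lit 0) (nat_lit 5) (nat_lit 0x155004) (nat_lit 0x10001000200020001000000000000000000010000))) (.star (nat_lit 0xa) (nat_lit 0) (nat_lit 6))) (.star (nat_lit 0xa) (nat_lit 0) (nat_lit 5))) (.non (nat_lit 0) (nat_lit 5) (nat_lit 0x155154) (nat_lit 0x10003000600040002000000020003000400050000))) (.non (nat_lit 0) (nat_lit 5) (nat_lit 0x154154) (nat_lit 0x10001000200010000000000010002000200020000))) (.non (nat_lit 0) (nat_lit 5) (nat_lit 0x154054) (nat_lit 0x10001000200010000000000000001000200020000))) (.non (nat_lit 0) (nat_lit 5) (nat_lit 0x154014) (nat_lit 0x10001000200010000000000000000000100020000))))))))) (.unj (nat_lit 0x40015) (nat_lit 0x1000000000000000000000000000100020002) (nat_lit 0x5500) (nat_lit 0x10002000200010000000000000000))) (.non (nat_lit 0) (nat_lit 6) (nat_lit 0x54554) (nat_lit 0x1000200010000000100010002000200020000))) (.non (nat_lit 0) (nat_lit 5) (nat_lit 0x15154) (nat_lit 0x100010001000000010001000100010000))) (.non (nat_lit 0) (nat_lit 5) (nat_lit 0x15054) (nat_lit 0x100010001000000000001000100010000))))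

noncomputable def t1537_225 : Tr := (.pd (.cons (nat_lit 0) (nat_lit 7) (nat_lit 0) (nat_lit 0x1905532110) (nat_lit 0xb71aef423f00000f423f54591f423fb71aea2c284734e00000) (.cons (nat_lit 1) (nat_lit 7) (nat_lit 0) (nat_lit 0x905532200) (nat_lit 0xb71aef423f00000f423f54591f423fb71aea2c2800000a2c28) .nil)) (.ex (nat_lit 7) (.pd (.cons (nat_lit 0) (nat_lit 8) (nat_lit 0) (nat_lit 0x1065532110) (nat_lit 0xf423f00000f423fb71ae1f156f423fb71aea2c285b8d400000) (.cons (nat_lit 0) (nat_lit 9) (nat_lit 0) (nat_lit 0x765532110) (nat_lit 0xf423fb71aea2c2804737f423fb71aea2c289896500000) (.cons (nat_lit 1) (nat_lit 8) (nat_lit 0) (nat_lit 0x65532200) (nat_lit 0xf423f00000f423fb71ae1f156f423fb71aea2c2800000b71ae) (.cons (nat_lit 1) (nat_lit 9) (nat_lit 0) (nat_lit 0x765532200) (nat_lit 0xf423fb71aea2c2804737f423fb71aea2c2800000f423f) (.cons (nat_lit 2) (nat_lit 9) (nat_lit 0) (nat_lit 0x765533000) (nat_lit 0xf423fb71aea2c2804737f423fb71ae00000f423f54591) (.cons (nat_lit 3) (nat_lit 9) (nat_lit 0) (nat_lit 0x765540100) (nat_lit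 0xf423fb71aea2c2804737f423f00000f423fb71ae1f156) (.cons (nat_lit 4) (nat_lit 9) (nat_lit 0) (nat_lit 0x765502100) (nat_lit 0xf423fb71aea2c280473700000f423fb71aea2c2804737) .nil))))))) (.leaf (.cons (nat_lit 0x40005) (nat_lit 0x1000000000000000000000000000000010001) .nil) .nil)) (.split (nat_lit 0xa) (nat_lit 0) (.split (nat_lit 0xa) (nat_lit 1) (.split (nat_lit 0xa) (nat_lit 2) (.split (nat_lit 0xa) (nat_lit 3) (.split (nat_lit 0xa) (nat_lit 4) (.split (nat_lit 0xa) (nat_lit 6) (.split (nat_lit 0xa) (nat_lit 8) (.split (nat_lit 0xa) (nat_lit 9) (.split (nat_lit 0xa) (nat_lit 5) (.unj (nat_lit 0x155) (nat_lit 0x10002000300040003) (nat_lit 0x115400) (nat_lit 0x10000000100020002000200000000000000000000)) (.unj (nat_lit 0x40005) (nat_lit 0x1000000000000000000000000000000010001) (nat_lit 0x105400) (nat_lit 0x10000000000010001000100000000000000000000))) (.non (nat_lit 0) (nat_lit 5) (nat_lit 0x154000) (nat_lit 0x10001000100010000000000000000000000000000))) (.non (nat_lit 0) (nat_lit 5) (nat_lit 0x114000) (nat_lit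 0x10000000100010000000000000000000000000000))) (.non (nat_lit 0) (nat_lit 5) (nat_lit 0x105000) (nat_lit 0x10000000000010001000000000000000000000000))) (.non (nat_lit 0) (nat_lit 5) (nat_lit 0x155144) (nat_lit 0x30002000300040002000000020001000000010000))) (.non (nat_lit 0) (nat_lit 5) (nat_lit 0x115150) (nat_lit 0x20000000100020001000000010002000100000000))) (.non (nat_lit 0) (nat_lit 5) (nat_lit 0x154014) (nat_lit 0x10001000100010000000000000000000100010000))) (.non (nat_lit 0) (nat_lit 5) (nat_lit 0x154004) (nat_lit 0x10001000100010000000000000000000000010000))) (.non (nat_lit 1) (nat_lit 5) (nat_lit 0x154001) (nat_lit 0x10001000100010000000000000000000000000001)))))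

noncomputable def t1537_226 : Tr := (.split (nat_lit 9) (nat_lit 0) (.pd (.cons (nat_lit 0) (nat_lit 7) (nat_lit 0) (nat_lit 0x1905532110) (nat_lit 0xb71aef423f00000f423f54591f423f7a11e7a11c28b0300000) (.cons (nat_lit 1) (nat_lit 7) (nat_lit 0) (nat_lit 0x905532200) (nat_lit 0xb71aef423f00000f423f54591f423f7a11e7a11c00000a2c28) .nil)) (.st (nat_lit 7) (nat_lit 0) (nat_lit 5) (nat_lit 0x55254) (nat_lit 0x2000200020001000000010002000200020000) (nat_lit 1) (nat_lit 1) (.pd (.cons (nat_lit 0) (nat_lit 8) (nat_lit 0) (nat_lit 0x1065532110) (nat_lit 0xf423f00000f423fb71ae1f156f423f7a11e7a11c3d08900000) (.cons (nat_lit 0) (nat_lit 9) (nat_lit 0) (nat_lit 0x765532110) (nat_lit 0xf423fb71aea2c2804737f423f7a11e7a11c7a11a00000) (.cons (nat_lit 1) (nat_lit 8) (nat_lit 0) (nat_lit 0x65532200) (nat_lit 0xf423f00000f423fb71ae1f156f423f7a11e7a11c00000b71ae) (.cons (nat_lit 1) (nat_lit 9) (nat_lit 0) (nat_lit 0x765532200) (nat_lit 0xf423fb71aea2c2804737f423f7a11e7a11c00000f423f) (.cons (nat_lit 2) (nat_lit 9) (nat_lit 0) (nat_lit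 0x765533000) (nat_lit 0xf423fb71aea2c2804737f423f7a11e00000f423f54591) (.cons (nat_lit 3) (nat_lit 9) (nat_lit 0) (nat_lit 0x765540100) (nat_lit 0xf423fb71aea2c2804737f423f00000f423fb71ae1f156) (.cons (nat_lit 4) (nat_lit 9) (nat_lit 0) (nat_lit 0x765502100) (nat_lit 0xf423fb71aea2c280473700000f423fb71aea2c2804737) .nil))))))) (.leaf (.cons (nat_lit 0x40005) (nat_lit 0x1000000000000000000000000000000010001) .nil) .nil)))) (.split (nat_lit 9) (nat_lit 0) (.pd (.cons (nat_lit 0) (nat_lit 7) (nat_lit 0) (nat_lit 0x1905532110) (nat_lit 0xb71aef423f00000f423f54591f423f7a11e7a11c28b0300000) (.cons (nat_lit 1) (nat_lit 7) (nat_lit 0) (nat_lit 0x905532200) (nat_lit 0xb71aef423f00000f423f54591f423f7a11e7a11c0000051612) .nil)) (.st (nat_lit 7) (nat_lit 0) (nat_lit 5) (nat_lit 0x55254) (nat_lit 0x2000200020001000000010002000200020000) (nat_lit 1) (nat_lit 1) (.pd (.cons (nat_lit 0) (nat_lit 8) (nat_lit 0) (nat_lit 0x1065532110) (nat_lit 0xf423f00000f423fb71ae1f156f423f7a11e7a11c3d08900000) (.cons (nat_lit 0) (nat_lit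 9) (nat_lit 0) (nat_lit 0x765532110) (nat_lit 0xf423fb71aea2c2804737f423f7a11e7a11c7a11a00000) (.cons (nat_lit 1) (nat_lit 8) (nat_lit 0) (nat_lit 0x65532200) (nat_lit 0xf423f00000f423fb71ae1f156f423f7a11e7a11c000007a11e) (.cons (nat_lit 1) (nat_lit 9) (nat_lit 0) (nat_lit 0x765532200) (nat_lit 0xf423fb71aea2c2804737f423f7a11e7a11c00000f423f) (.cons (nat_lit 2) (nat_lit 9) (nat_lit 0) (nat_lit 0x765533000) (nat_lit 0xf423fb71aea2c2804737f423f7a11e00000f423f54591) (.cons (nat_lit 3) (nat_lit 9) (nat_lit 0) (nat_lit 0x765540100) (nat_lit 0xf423fb71aea2c2804737f423f00000f423fb71ae1f156) (.cons (nat_lit 4) (nat_lit 9) (nat_lit 0) (nat_lit 0x765502100) (nat_lit 0xf423fb71aea2c280473700000f423fb71aea2c2804737) .nil))))))) (.leaf (.cons (nat_lit 0x40005) (nat_lit 0x1000000000000000000000000000000010001) .nil) .nil)))) (.non (nat_lit 1) (nat_lit 5) (nat_lit 0x55001) (nat_lit 0x4000300020001000000000000000000000003))))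

noncomputable def t1537_227 : Tr := (.ex (nat_lit 6) (.split (nat_lit 9) (nat_lit 1) (.split (nat_lit 4) (nat_lit 3) (.split (nat_lit 9) (nat_lit 8) (.split (nat_lit 9) (nat_lit 0) t1537_225 (.split (nat_lit 9) (nat_lit 0) (.pd (.cons (nat_lit 0) (nat_lit 7) (nat_lit 0) (nat_lit 0x1905532110) (nat_lit 0xb71aef423f00000f423f54591f423fb71aea2c284734e00000) (.cons (nat_lit 1) (nat_lit 7) (nat_lit 0) (nat_lit 0x905532200) (nat_lit 0xb71aef423f00000f423f54591f423fb71aea2c280000051612) .nil)) (.st (nat_lit 7) (nat_lit 1) (nat_lit 5) (nat_lit 0xaa001) (nat_lit 0x2000200020001000000000000000000000002) (nat_lit 2) (nat_lit 1) (.pd (.cons (nat_lit 0) (nat_lit 8) (nat_lit 0) (nat_lit 0x1065532110) (nat_lit 0xf423f00000f423fb71ae1f156f423fb71aea2c285b8d400000) (.cons (nat_lit 0) (nat_lit 9) (nat_lit 0) (nat_lit 0x765532110) (nat_lit 0xf423fb71aea2c2804737f423fb71aea2c289896500000) (.cons (nat_lit 1) (nat_lit 8) (nat_lit 0) (nat_lit 0x65532200) (nat_lit 0xf423f00000f423fb71ae1f156f423fb71aea2c28000007a11e) (.cons (nat_lit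 1) (nat_lit 9) (nat_lit 0) (nat_lit 0x765532200) (nat_lit 0xf423fb71aea2c2804737f423fb71aea2c2800000f423f) (.cons (nat_lit 2) (nat_lit 9) (nat_lit 0) (nat_lit 0x765533000) (nat_lit 0xf423fb71aea2c2804737f423fb71ae00000f423f54591) (.cons (nat_lit 3) (nat_lit 9) (nat_lit 0) (nat_lit 0x765540100) (nat_lit 0xf423fb71aea2c2804737f423f00000f423fb71ae1f156) (.cons (nat_lit 4) (nat_lit 9) (nat_lit 0) (nat_lit 0x765502100) (nat_lit 0xf423fb71aea2c280473700000f423fb71aea2c2804737) .nil))))))) (.leaf (.cons (nat_lit 0x40005) (nat_lit 0x1000000000000000000000000000000010001) .nil) .nil)))) (.non (nat_lit 1) (nat_lit 5) (nat_lit 0x55001) (nat_lit 0x4000300020001000000000000000000000003)))) (.non (nat_lit 0) (nat_lit 5) (nat_lit 0x6a004) (nat_lit 0x4000300020001000000000000000000020000))) (.split (nat_lit 4) (nat_lit 3) (.split (nat_lit 9) (nat_lit 8) t1537_226 (.non (nat_lit 0) (nat_lit 5) (nat_lit 0x6a004) (nat_lit 0x4000300020001000000000000000000020000))) (.non (nat_lit 0) (nat_lit 5) (nat_lit 0x40154) (nat_lit 0x1000000000000000000030004000300020000))))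 (.non (nat_lit 0) (nat_lit 5) (nat_lit 0xa8014) (nat_lit 0x3000200010000000000000000000200040000))) (.split (nat_lit 0xa) (nat_lit 0) (.split (nat_lit 0xa) (nat_lit 1) (.split (nat_lit 0xa) (nat_lit 2) (.split (nat_lit 0xa) (nat_lit 3) (.split (nat_lit 0xa) (nat_lit 4) (.split (nat_lit 0xa) (nat_lit 7) (.split (nat_lit 0xa) (nat_lit 8) (.split (nat_lit 0xa) (nat_lit 9) (.split (nat_lit 0xa) (nat_lit 5) (.unj (nat_lit 0x40005) (nat_lit 0x1000000000000000000000000000000010001) (nat_lit 0x105400) (nat_lit 0x10000000000010002000200000000000000000000)) (.unj (nat_lit 0x40005) (nat_lit 0x1000000000000000000000000000000010001) (nat_lit 0x101400) (nat_lit 0x10000000000000001000100000000000000000000))) (.non (nat_lit 0) (nat_lit 5) (nat_lit 0x155000) (nat_lit 0x10001000100010001000000000000000000000000))) (.non (nat_lit 0) (nat_lit 5) (nat_lit 0x115000) (nat_lit 0x10000000100010001000000000000000000000000))) (.non (nat_lit 0) (nat_lit 5) (nat_lit 0x105000) (nat_lit 0x10000000000010001000000000000000000000000))) (.non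 (nat_lit 0) (nat_lit 5) (nat_lit 0x155154) (nat_lit 0x10001000100010001000000010001000100010000))) (.non (nat_lit 0) (nat_lit 5) (nat_lit 0x155054) (nat_lit 0x10001000100010001000000000001000100010000))) (.non (nat_lit 0) (nat_lit 5) (nat_lit 0x155014) (nat_lit 0x10001000100010001000000000000000100010000))) (.star (nat_lit 0xa) (nat_lit 1) (nat_lit 6))) (.star (nat_lit 0xa) (nat_lit 0) (nat_lit 6))))

noncomputable def t1537_228 : Tr := (.split (nat_lit 9) (nat_lit 0) (.pd (.cons (nat_lit 0) (nat_lit 7) (nat_lit 0) (nat_lit 0x31905532110) (nat_lit 0xf423fb71aef423f00000f423f54591f423f7a11d7a11b28b0200000) (.cons (nat_lit 0) (nat_lit 8) (nat_lit 0) (nat_lit 0x31065532110) (nat_lit 0xf423ff423f00000f423fb71ae1f156f423f7a11d7a11b3d08800000) (.cons (nat_lit 0) (nat_lit 9) (nat_lit 0) (nat_lit 0x30765532110) (nat_lit 0xf423f00000f423fb71aea2c2804737f423f7a11d7a11b7a11900000) (.cons (nat_lit 1) (nat_lit 7) (nat_lit 0) (nat_lit 0x30905532200) (nat_lit 0xf423fb71aef423f00000f423f54591f423f7a11d7a11b00000a2c28) (.cons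 (nat_lit 1) (nat_lit 8) (nat_lit 0) (nat_lit 0x30065532200) (nat_lit 0xf423ff423f00000f423fb71ae1f156f423f7a11d7a11b00000b71ae) (.cons (nat_lit 1) (nat_lit 9) (nat_lit 0) (nat_lit 0x30765532200) (nat_lit 0xf423f00000f423fb71aea2c2804737f423f7a11d7a11b00000f423f) (.cons (nat_lit 2) (nat_lit 9) (nat_lit 0) (nat_lit 0x30765533000) (nat_lit 0xf423f00000f423fb71aea2c2804737f423f7a11d00000f423f54591) (.cons (nat_lit 3) (nat_lit 9) (nat_lit 0) (nat_lit 0xa0765540100) (nat_lit 0xf423f00000f423fb71aea2c2804737f423f00000f423fb71ae1f156) .nil)))))))) (.leaf (.cons (nat_lit 0x40005) (nat_lit 0x1000000000000000000000000000000010001) (.cons (nat_lit 0x100055) (nat_lit 0x10000000000000000000000000002000300040003) .nil)) .nil)) (.split (nat_lit 9) (nat_lit 0) (.pd (.cons (nat_lit 0) (nat_lit 7) (nat_lit 0) (nat_lit 0x31905532110) (nat_lit 0xf423fb71aef423f00000f423f54591f423f7a11d7a11b28b0200000) (.cons (nat_lit 0) (nat_lit 8) (nat_lit 0) (nat_lit 0x31065532110) (nat_lit 0xf423ff423f00000f423fb71ae1f156f423f7a11d7a11b3d08800000)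 (.cons (nat_lit 0) (nat_lit 9) (nat_lit 0) (nat_lit 0x30765532110) (nat_lit 0xf423f00000f423fb71aea2c2804737f423f7a11d7a11b7a11900000) (.cons (nat_lit 1) (nat_lit 7) (nat_lit 0) (nat_lit 0x30905532200) (nat_lit 0xf423fb71aef423f00000f423f54591f423f7a11d7a11b0000051612) (.cons (nat_lit 1) (nat_lit 8) (nat_lit 0) (nat_lit 0x30065532200) (nat_lit 0xf423ff423f00000f423fb71ae1f156f423f7a11d7a11b000007a11e) (.cons (nat_lit 1) (nat_lit 9) (nat_lit 0) (nat_lit 0x30765532200) (nat_lit 0xf423f00000f423fb71aea2c2804737f423f7a11d7a11b00000f423f) (.cons (nat_lit 2) (nat_lit 9) (nat_lit 0) (nat_lit 0x30765533000) (nat_lit 0xf423f00000f423fb71aea2c2804737f423f7a11d00000f423f54591) (.cons (nat_lit 3) (nat_lit 9) (nat_lit 0) (nat_lit 0xa0765540100) (nat_lit 0xf423f00000f423fb71aea2c2804737f423f00000f423fb71ae1f156) .nil)))))))) (.leaf (.cons (nat_lit 0x40005) (nat_lit 0x1000000000000000000000000000000010001) (.cons (nat_lit 0x100055) (nat_lit 0x10000000000000000000000000002000300040003) .nil)) .nil)) (.non (nat_lit 1) (nat_lit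 5) (nat_lit 0x55001) (nat_lit 0x4000300020001000000000000000000000003))))

noncomputable def t1537_229 : Tr := (.ex (nat_lit 5) (.ex (nat_lit 6) (.split (nat_lit 9) (nat_lit 1) (.split (nat_lit 4) (nat_lit 3) (.split (nat_lit 0xa) (nat_lit 3) (.split (nat_lit 9) (nat_lit 8) t1537_228 (.non (nat_lit 0) (nat_lit 5) (nat_lit 0x6a004) (nat_lit 0x4000300020001000000000000000000020000))) (.non (nat_lit 0) (nat_lit 5) (nat_lit 0x200150) (nat_lit 0x10000000000000000000000010002000100000000))) (.non (nat_lit 0) (nat_lit 5) (nat_lit 0x100250) (nat_lit 0x10000000000000000000000010002000100000000))) (.non (nat_lit 0) (nat_lit 5) (nat_lit 0xa8014) (nat_lit 0x3000200010000000000000000000200040000))) (.split (nat_lit 0xb) (nat_lit 0) (.split (nat_lit 0xb) (nat_lit 1) (.split (nat_lit 0xb) (nat_lit 2) (.split (nat_lit 0xb) (nat_lit 3) (.split (nat_lit 0xb) (nat_lit 4) (.split (nat_lit 0xb) (nat_lit 7) (.split (nat_lit 0xb) (nat_lit 8) (.split (nat_lit 0xb) (nat_lit 9) (.split (nat_lit 0xb) (nat_lit 0xa) (.split (nat_lit 0xb)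 (nat_lit 5) (.unj (nat_lit 0x40005) (nat_lit 0x1000000000000000000000000000000010001) (nat_lit 0x405400) (nat_lit 0x100000000000000010002000200000000000000000000)) (.unj (nat_lit 0x40005) (nat_lit 0x1000000000000000000000000000000010001) (nat_lit 0x401400) (nat_lit 0x100000000000000000001000100000000000000000000))) (.non (nat_lit 0) (nat_lit 5) (nat_lit 0x555054) (nat_lit 0x100010001000100010001000000000001000100010000))) (.non (nat_lit 0) (nat_lit 5) (nat_lit 0x455000) (nat_lit 0x100000001000100010001000000000000000000000000))) (.non (nat_lit 0) (nat_lit 5) (nat_lit 0x415000) (nat_lit 0x100000000000100010001000000000000000000000000))) (.non (nat_lit 0) (nat_lit 5) (nat_lit 0x405000) (nat_lit 0x100000000000000010001000000000000000000000000))) (.non (nat_lit 0) (nat_lit 5) (nat_lit 0x554154) (nat_lit 0x200030003000200010000000000040006000500040000))) (.non (nat_lit 0) (nat_lit 5) (nat_lit 0x500150) (nat_lit 0x100010000000000000000000000010002000100000000))) (.non (nat_lit 0) (nat_lit 5) (nat_lit 0x455014) (nat_lit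 0x100000001000100010001000000000000000100010000))) (.star (nat_lit 0xb) (nat_lit 1) (nat_lit 6))) (.star (nat_lit 0xb) (nat_lit 0) (nat_lit 6)))) (.split (nat_lit 0xb) (nat_lit 0) (.split (nat_lit 0xb) (nat_lit 1) (.split (nat_lit 0xb) (nat_lit 2) (.split (nat_lit 0xb) (nat_lit 3) (.split (nat_lit 0xb) (nat_lit 4) (.split (nat_lit 0xb) (nat_lit 7) (.split (nat_lit 0xb) (nat_lit 8) (.split (nat_lit 0xb) (nat_lit 9) (.split (nat_lit 0xb) (nat_lit 0xa) (.split (nat_lit 0xb) (nat_lit 6) (.unj (nat_lit 0x40005) (nat_lit 0x1000000000000000000000000000000010001) (nat_lit 0x405400) (nat_lit 0x100000000000000010002000200000000000000000000)) (.unj (nat_lit 0x40005) (nat_lit 0x1000000000000000000000000000000010001) (nat_lit 0x401400) (nat_lit 0x100000000000000000001000100000000000000000000))) (.non (nat_lit 0) (nat_lit 5) (nat_lit 0x554154) (nat_lit 0x200040003000200010000000000030006000500040000))) (.non (nat_lit 0) (nat_lit 5) (nat_lit 0x455054) (nat_lit 0x200000004000300020001000000000001000200030000))) (.non (nat_lit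 0) (nat_lit 5) (nat_lit 0x555054) (nat_lit 0x300010005000600040002000000000002000300040000))) (.non (nat_lit 0) (nat_lit 5) (nat_lit 0x555154) (nat_lit 0x100010002000200020001000000010002000200020000))) (.non (nat_lit 0) (nat_lit 5) (nat_lit 0x554154) (nat_lit 0x200030003000200010000000000040006000500040000))) (.non (nat_lit 0) (nat_lit 5) (nat_lit 0x500150) (nat_lit 0x100010000000000000000000000010002000100000000))) (.non (nat_lit 0) (nat_lit 5) (nat_lit 0x555054) (nat_lit 0x300020004000300020001000000000004000600050000))) (.star (nat_lit 0xb) (nat_lit 1) (nat_lit 5))) (.star (nat_lit 0xb) (nat_lit 0) (nat_lit 5))))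

noncomputable def t1537_230 : Tr := (.ex (nat_lit 3) (.ex (nat_lit 5) t1537_227 (.split (nat_lit 0xa) (nat_lit 0) (.split (nat_lit 0xa) (nat_lit 1) (.split (nat_lit 0xa) (nat_lit 2) (.split (nat_lit 0xa) (nat_lit 3) (.split (nat_lit 0xa) (nat_lit 8) (.split (nat_lit 0xa) (nat_lit 9) (.split (nat_lit 0xa) (nat_lit 4) (.split (nat_lit 0xa) (nat_lit 6) (.split (nat_lit 0xa) (nat_lit 7) (.unj (nat_lit 0x40005) (nat_lit 0x1000000000000000000000000000000010001) (nat_lit 0x105400) (nat_lit 0x10000000000010002000200000000000000000000)) (.unj (nat_lit 0x40005) (nat_lit 0x1000000000000000000000000000000010001) (nat_lit 0x105400) (nat_lit 0x10000000000010001000100000000000000000000))) (.split (nat_lit 0xa) (nat_lit 7) (.unj (nat_lit 0x40005) (nat_lit 0x1000000000000000000000000000000010001) (nat_lit 0x101400) (nat_lit 0x10000000000000001000100000000000000000000)) (.non (nat_lit 0) (nat_lit 5) (nat_lit 0x105000) (nat_lit 0x10000000000010001000000000000000000000000)))) (.split (nat_lit 0xa) (nat_lit 6) (.split (nat_lit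 0xa) (nat_lit 7) (.unj (nat_lit 0x40005) (nat_lit 0x1000000000000000000000000000000010001) (nat_lit 0x105400) (nat_lit 0x10000000000010002000200000000000000000000)) (.non (nat_lit 0) (nat_lit 5) (nat_lit 0x155144) (nat_lit 0x30002000300040002000000020001000000010000))) (.non (nat_lit 0) (nat_lit 5) (nat_lit 0x155154) (nat_lit 0x10001000100010001000000010001000100010000)))) (.non (nat_lit 0) (nat_lit 5) (nat_lit 0x155054) (nat_lit 0x20004000300020001000000000001000200030000))) (.non (nat_lit 0) (nat_lit 5) (nat_lit 0x155154) (nat_lit 0x30005000600040002000000010002000300040000))) (.non (nat_lit 0) (nat_lit 6) (nat_lit 0x154554) (nat_lit 0x40003000200010000000200030006000500040000))) (.non (nat_lit 0) (nat_lit 5) (nat_lit 0x155154) (nat_lit 0x30004000300020001000000020004000600050000))) (.star (nat_lit 0xa) (nat_lit 1) (nat_lit 5))) (.star (nat_lit 0xa) (nat_lit 0) (nat_lit 5)))) (.split (nat_lit 0xa) (nat_lit 1) (.split (nat_lit 0xa) (nat_lit 2) (.split (nat_lit 0xa) (nat_lit 4) (.split (nat_lit 0xa) (nat_lit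 5) (.split (nat_lit 0xa) (nat_lit 6) (.split (nat_lit 0xa) (nat_lit 7) (.split (nat_lit 0xa) (nat_lit 8) (.split (nat_lit 0xa) (nat_lit 9) (.split (nat_lit 0xa) (nat_lit 0) (.st (nat_lit 7) (nat_lit 0) (nat_lit 5) (nat_lit 0x155154) (nat_lit 0x10002000200020001000000010002000200020000) (nat_lit 1) (nat_lit 1) t1537_229) (.split (nat_lit 0xa) (nat_lit 0) (.split (nat_lit 0xa) (nat_lit 3) (.split (nat_lit 9) (nat_lit 0) (.split (nat_lit 9) (nat_lit 1) (.sup (nat_lit 0x3000d00160020001a00000000000000000000) (nat_lit 0x50000000000000000000000030006000500030003)) (.non (nat_lit 0) (nat_lit 5) (nat_lit 0xa8014) (nat_lit 0x3000200010000000000000000000200040000))) (.non (nat_lit 1) (nat_lit 5) (nat_lit 0x1a8001) (nat_lit 0x20003000200010000000000000000000000000004))) (.non (nat_lit 0) (nat_lit 5) (nat_lit 0x200150) (nat_lit 0x10000000000000000000000010002000100000000))) (.non (nat_lit 1) (nat_lit 5) (nat_lit 0x250081) (nat_lit 0x20002000100000000000000000001000000000003)))) (.non (nat_lit 0) (nat_lit 5) (nat_lit 0x155144)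 (nat_lit 0x30004000300020001000000010002000000020000))) (.non (nat_lit 0) (nat_lit 5) (nat_lit 0x154150) (nat_lit 0x20001000200010000000000010002000100000000))) (.non (nat_lit 0) (nat_lit 5) (nat_lit 0x115150) (nat_lit 0x20000000100020001000000010002000100000000))) (.non (nat_lit 0) (nat_lit 5) (nat_lit 0x155054) (nat_lit 0x10001000100010001000000000001000100010000))) (.non (nat_lit 0) (nat_lit 6) (nat_lit 0x154554) (nat_lit 0x40003000200010000000200030006000500040000))) (.non (nat_lit 0) (nat_lit 5) (nat_lit 0x100140) (nat_lit 0x10000000000000000000000010001000000000000))) (.non (nat_lit 0) (nat_lit 5) (nat_lit 0x100050) (nat_lit 0x10000000000000000000000000001000100000000))) (.non (nat_lit 0) (nat_lit 5) (nat_lit 0x100054) (nat_lit 0x10000000000000000000000000001000100010000))))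

noncomputable def t1537_231 : Tr := (.ex (nat_lit 0xa) (.ex (nat_lit 0xb) (.split (nat_lit 0xb) (nat_lit 0xa) (.pd (.cons (nat_lit 2) (nat_lit 9) (nat_lit 0) (nat_lit 0xa00765533000) (nat_lit 0xf423fb71ae00000f423fb71aea2c2804737f423fb71ae00000f423f02f7a) .nil) (.leaf (.cons (nat_lit 0x40005) (nat_lit 0x1000000000000000000000000000000010001) (.cons (nat_lit 0x100015) (nat_lit 0x10000000000000000000000000000000100020002) .nil)) .nil)) (.leaf (.cons (nat_lit 0x500005) (nat_lit 0x100010000000000000000000000000000000000010001) .nil) .nil)) (.split (nat_lit 0xc) (nat_lit 0) (.split (nat_lit 0xc) (nat_lit 1) (.split (nat_lit 0xc) (nat_lit 2) (.split (nat_lit 0xc) (nat_lit 3) (.split (nat_lit 0xc) (nat_lit 5) (.split (nat_lit 0xc) (nat_lit 6) (.split (nat_lit 0xc) (nat_lit 7) (.split (nat_lit 0xc) (nat_lit 8) (.split (nat_lit 0xc) (nat_lit 9) (.split (nat_lit 0xc) (nat_lit 0xa) (.split (nat_lit 0xc) (nat_lit 4) (.leaf (.cons (nat_lit 0x1500005) (nat_lit 0x1000200030000000000000000000000000000000000030004) .nil) .nil)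 (.leaf (.cons (nat_lit 0x1500005) (nat_lit 0x1000200030000000000000000000000000000000000030004) .nil) .nil)) (.non (nat_lit 0) (nat_lit 5) (nat_lit 0x1500000) (nat_lit 0x1000100010000000000000000000000000000000000000000))) (.non (nat_lit 0) (nat_lit 5) (nat_lit 0x1555004) (nat_lit 0x3000200010004000300020001000000000000000000020000))) (.non (nat_lit 0) (nat_lit 5) (nat_lit 0x1455004) (nat_lit 0x2000100000002000300020001000000000000000000010000))) (.non (nat_lit 0) (nat_lit 5) (nat_lit 0x1555004) (nat_lit 0x3000200010002000300040002000000000000000000010000))) (.non (nat_lit 1) (nat_lit 5) (nat_lit 0x1555001) (nat_lit 0x1000100010001000100010001000000000000000000000001))) (.non (nat_lit 0) (nat_lit 7) (nat_lit 0x1501400) (nat_lit 0x3000200010000000000000003000400000000000000000000))) (.non (nat_lit 0) (nat_lit 5) (nat_lit 0x1540154) (nat_lit 0x3000200010001000000000000000000020004000300020000))) (.non (nat_lit 0) (nat_lit 5) (nat_lit 0x1550054) (nat_lit 0x3000200010002000100000000000000000002000400030000))) (.non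 (nat_lit 0) (nat_lit 5) (nat_lit 0x1554014) (nat_lit 0x3000200010003000200010000000000000000000200040000))) (.non (nat_lit 1) (nat_lit 5) (nat_lit 0x1500001) (nat_lit 0x1000100010000000000000000000000000000000000000001)))) (.split (nat_lit 0xc) (nat_lit 0) (.split (nat_lit 0xc) (nat_lit 1) (.split (nat_lit 0xc) (nat_lit 2) (.split (nat_lit 0xc) (nat_lit 3) (.split (nat_lit 0xc) (nat_lit 4) (.split (nat_lit 0xc) (nat_lit 5) (.split (nat_lit 0xc) (nat_lit 6) (.split (nat_lit 0xc) (nat_lit 7) (.split (nat_lit 0xc) (nat_lit 8) (.split (nat_lit 0xc) (nat_lit 9) (.split (nat_lit 0xc) (nat_lit 0xb) (.leaf (.cons (nat_lit 0x1500005) (nat_lit 0x1000100020000000000000000000000000000000000020002) .nil) .nil) (.non (nat_lit 0) (nat_lit 5) (nat_lit 0x1500000) (nat_lit 0x1000100010000000000000000000000000000000000000000))) (.non (nat_lit 0) (nat_lit 5) (nat_lit 0x1555004) (nat_lit 0x3000100020004000300020001000000000000000000020000))) (.non (nat_lit 0) (nat_lit 5) (nat_lit 0x1155004) (nat_lit 0x2000000010002000300020001000000000000000000010000)))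 (.non (nat_lit 0) (nat_lit 5) (nat_lit 0x1555004) (nat_lit 0x3000100020002000300040002000000000000000000010000))) (.non (nat_lit 1) (nat_lit 5) (nat_lit 0x1155001) (nat_lit 0x1000000010001000100010001000000000000000000000001))) (.non (nat_lit 0) (nat_lit 7) (nat_lit 0x1501400) (nat_lit 0x3000100020000000000000003000400000000000000000000))) (.non (nat_lit 1) (nat_lit 5) (nat_lit 0x1555101) (nat_lit 0x4000300060004000300020001000000020000000000000005))) (.non (nat_lit 0) (nat_lit 5) (nat_lit 0x1540154) (nat_lit 0x3000100020001000000000000000000020004000300020000))) (.non (nat_lit 0) (nat_lit 5) (nat_lit 0x1550054) (nat_lit 0x3000100020002000100000000000000000002000400030000))) (.non (nat_lit 0) (nat_lit 5) (nat_lit 0x1554014) (nat_lit 0x3000100020003000200010000000000000000000200040000))) (.non (nat_lit 1) (nat_lit 5) (nat_lit 0x1100001) (nat_lit 0x1000000010000000000000000000000000000000000000001))))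

noncomputable def t1537_232 : Tr := (.ex (nat_lit 7) (.pd (.cons (nat_lit 0) (nat_lit 8) (nat_lit 0) (nat_lit 0xa1065532110) (nat_lit 0xf423ff423f00000f423fb71ae1f156f423fb71aea2c285b8d400000) (.cons (nat_lit 0) (nat_lit 9) (nat_lit 0) (nat_lit 0xa0765532110) (nat_lit 0xf423f00000f423fb71aea2c2804737f423fb71aea2c289896500000) (.cons (nat_lit 1) (nat_lit 8) (nat_lit 0) (nat_lit 0x65532200) (nat_lit 0xf423ff423f00000f423fb71ae1f156f423fb71aea2c28000007a11d) (.cons (nat_lit 1) (nat_lit 9) (nat_lit 0) (nat_lit 0x765532200) (nat_lit 0xf423f00000f423fb71aea2c2804737f423fb71aea2c2800000b71ae) .nil)))) (.ex (nat_lit 0xa) (.pd (.cons (nat_lit 2) (nat_lit 9) (nat_lit 0) (nat_lit 0x765533000) (nat_lit 0xf423f00000f423fb71aea2c2804737f423fb71ae00000f423f17500) .nil) (.leaf (.cons (nat_lit 0x40005) (nat_lit 0x1000000000000000000000000000000010001) (.cons (nat_lit 0x100015) (nat_lit 0x10000000000000000000000000000000100020002) .nil)) .nil)) (.split (nat_lit 0xb) (nat_lit 0) (.split (nat_lit 0xb) (nat_lit 1) (.split (nat_lit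 0xb) (nat_lit 2) (.split (nat_lit 0xb) (nat_lit 3) (.split (nat_lit 0xb) (nat_lit 5) (.split (nat_lit 0xb) (nat_lit 6) (.split (nat_lit 0xb) (nat_lit 7) (.split (nat_lit 0xb) (nat_lit 8) (.split (nat_lit 0xb) (nat_lit 9) (.split (nat_lit 0xb) (nat_lit 4) t1537_231 (.leaf (.cons (nat_lit 0x40005) (nat_lit 0x1000000000000000000000000000000010001) (.cons (nat_lit 0x500105) (nat_lit 0x200030000000000000000000000010000000000030004) (.cons (nat_lit 0x100015) (nat_lit 0x10000000000000000000000000000000100020002) .nil))) .nil)) (.non (nat_lit 0) (nat_lit 5) (nat_lit 0x554014) (nat_lit 0x200010003000200010000000000000000000100020000))) (.non (nat_lit 0) (nat_lit 5) (nat_lit 0x555004) (nat_lit 0x200010002000300020001000000000000000000010000))) (.non (nat_lit 0) (nat_lit 5) (nat_lit 0x555054) (nat_lit 0x400020004000500060003000000000001000200030000))) (.non (nat_lit 1) (nat_lit 5) (nat_lit 0x555001) (nat_lit 0x100010001000100010001000000000000000000000001))) (.non (nat_lit 1) (nat_lit 7) (nat_lit 0x501401) (nat_lit 0x300020000000000000003000400000000000000000001)))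 (.non (nat_lit 0) (nat_lit 5) (nat_lit 0x554154) (nat_lit 0x400020003000200010000000000030006000500040000))) (.non (nat_lit 0) (nat_lit 5) (nat_lit 0x555054) (nat_lit 0x400020004000300020001000000000003000600050000))) (.non (nat_lit 0) (nat_lit 5) (nat_lit 0x550054) (nat_lit 0x200010002000100000000000000000001000200030000))) (.non (nat_lit 1) (nat_lit 5) (nat_lit 0x500001) (nat_lit 0x100010000000000000000000000000000000000000001))))) (.split (nat_lit 0xb) (nat_lit 0) (.split (nat_lit 0xb) (nat_lit 1) (.split (nat_lit 0xb) (nat_lit 2) (.split (nat_lit 0xb) (nat_lit 3) (.split (nat_lit 0xb) (nat_lit 4) (.split (nat_lit 0xb) (nat_lit 6) (.split (nat_lit 0xb) (nat_lit 8) (.split (nat_lit 0xb) (nat_lit 9) (.split (nat_lit 0xb) (nat_lit 0xa) (.split (nat_lit 0xb) (nat_lit 5) (.unj (nat_lit 0x100015) (nat_lit 0x10000000000000000000000000000000100020002) (nat_lit 0x415400) (nat_lit 0x100000000000100020002000200000000000000000000)) (.unj (nat_lit 0x40005) (nat_lit 0x1000000000000000000000000000000010001) (nat_lit 0x405400)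 (nat_lit 0x100000000000000010001000100000000000000000000))) (.non (nat_lit 0) (nat_lit 5) (nat_lit 0x555054) (nat_lit 0x400020004000500060003000000000001000200030000))) (.non (nat_lit 0) (nat_lit 5) (nat_lit 0x454000) (nat_lit 0x100000001000100010000000000000000000000000000))) (.non (nat_lit 0) (nat_lit 5) (nat_lit 0x414000) (nat_lit 0x100000000000100010000000000000000000000000000))) (.non (nat_lit 0) (nat_lit 5) (nat_lit 0x405000) (nat_lit 0x100000000000000010001000000000000000000000000))) (.non (nat_lit 0) (nat_lit 5) (nat_lit 0x455144) (nat_lit 0x300000002000300040002000000020001000000010000))) (.non (nat_lit 0) (nat_lit 5) (nat_lit 0x415150) (nat_lit 0x200000000000100020001000000010002000100000000))) (.non (nat_lit 0) (nat_lit 5) (nat_lit 0x454014) (nat_lit 0x100000001000100010000000000000000000100010000))) (.non (nat_lit 0) (nat_lit 5) (nat_lit 0x454004) (nat_lit 0x100000001000100010000000000000000000000010000))) (.non (nat_lit 1) (nat_lit 5) (nat_lit 0x454001) (nat_lit 0x100000001000100010000000000000000000000000001))))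

noncomputable def t1537_233 : Tr := (.ex (nat_lit 0xa) (.ex (nat_lit 0xb) (.split (nat_lit 0xb) (nat_lit 0xa) (.pd (.cons (nat_lit 2) (nat_lit 9) (nat_lit 0) (nat_lit 0xa00765533000) (nat_lit 0xf423fb71ae00000f423fb71aea2c2804737f423f7a11e00000f423f02f7a) .nil) (.leaf (.cons (nat_lit 0x40005) (nat_lit 0x1000000000000000000000000000000010001) (.cons (nat_lit 0x100015) (nat_lit 0x10000000000000000000000000000000100020002) .nil)) .nil)) (.leaf (.cons (nat_lit 0x500005) (nat_lit 0x100010000000000000000000000000000000000010001) .nil) .nil)) (.split (nat_lit 0xc) (nat_lit 0) (.split (nat_lit 0xc) (nat_lit 1) (.split (nat_lit 0xc) (nat_lit 2) (.split (nat_lit 0xc) (nat_lit 3) (.split (nat_lit 0xc) (nat_lit 4) (.split (nat_lit 0xc) (nat_lit 5) (.split (nat_lit 0xc) (nat_lit 6) (.split (nat_lit 0xc) (nat_lit 7) (.split (nat_lit 0xc) (nat_lit 8) (.split (nat_lit 0xc) (nat_lit 9) (.split (nat_lit 0xc) (nat_lit 0xa) (.leaf (.cons (nat_lit 0x1500005) (nat_lit 0x1000200030000000000000000000000000000000000030004) .nil) .nil)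 (.non (nat_lit 0) (nat_lit 5) (nat_lit 0x1500000) (nat_lit 0x1000100010000000000000000000000000000000000000000))) (.non (nat_lit 0) (nat_lit 5) (nat_lit 0x1555004) (nat_lit 0x3000200010004000300020001000000000000000000020000))) (.non (nat_lit 0) (nat_lit 5) (nat_lit 0x1455004) (nat_lit 0x2000100000002000300020001000000000000000000010000))) (.non (nat_lit 0) (nat_lit 5) (nat_lit 0x1555004) (nat_lit 0x3000200010002000300040002000000000000000000010000))) (.non (nat_lit 1) (nat_lit 5) (nat_lit 0x1555001) (nat_lit 0x1000100010001000100010001000000000000000000000001))) (.non (nat_lit 0) (nat_lit 7) (nat_lit 0x1501400) (nat_lit 0x3000200010000000000000003000400000000000000000000))) (.non (nat_lit 0) (nat_lit 5) (nat_lit 0x2800250) (nat_lit 0x2000100000000000000000000000000030004000200000000))) (.non (nat_lit 0) (nat_lit 5) (nat_lit 0x1000250) (nat_lit 0x1000000000000000000000000000000010002000100000000))) (.non (nat_lit 0) (nat_lit 5) (nat_lit 0x1550054) (nat_lit 0x3000200010002000100000000000000000002000400030000)))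 (.non (nat_lit 0) (nat_lit 5) (nat_lit 0x1554014) (nat_lit 0x3000200010003000200010000000000000000000200040000))) (.non (nat_lit 1) (nat_lit 5) (nat_lit 0x1500001) (nat_lit 0x1000100010000000000000000000000000000000000000001)))) (.split (nat_lit 0xc) (nat_lit 0) (.split (nat_lit 0xc) (nat_lit 1) (.split (nat_lit 0xc) (nat_lit 2) (.split (nat_lit 0xc) (nat_lit 3) (.split (nat_lit 0xc) (nat_lit 4) (.split (nat_lit 0xc) (nat_lit 5) (.split (nat_lit 0xc) (nat_lit 6) (.split (nat_lit 0xc) (nat_lit 7) (.split (nat_lit 0xc) (nat_lit 8) (.split (nat_lit 0xc) (nat_lit 9) (.split (nat_lit 0xc) (nat_lit 0xb) (.leaf (.cons (nat_lit 0x1500005) (nat_lit 0x1000100020000000000000000000000000000000000020002) .nil) .nil) (.non (nat_lit 0) (nat_lit 5) (nat_lit 0x1500000) (nat_lit 0x1000100010000000000000000000000000000000000000000))) (.non (nat_lit 0) (nat_lit 5) (nat_lit 0x1555004) (nat_lit 0x3000100020004000300020001000000000000000000020000))) (.non (nat_lit 0) (nat_lit 5) (nat_lit 0x1155004) (nat_lit 0x2000000010002000300020001000000000000000000010000)))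 (.non (nat_lit 0) (nat_lit 5) (nat_lit 0x1555004) (nat_lit 0x3000100020002000300040002000000000000000000010000))) (.non (nat_lit 1) (nat_lit 5) (nat_lit 0x1155001) (nat_lit 0x1000000010001000100010001000000000000000000000001))) (.non (nat_lit 0) (nat_lit 7) (nat_lit 0x1501400) (nat_lit 0x3000100020000000000000003000400000000000000000000))) (.non (nat_lit 0) (nat_lit 5) (nat_lit 0x2200250) (nat_lit 0x2000000010000000000000000000000030004000200000000))) (.non (nat_lit 0) (nat_lit 5) (nat_lit 0x1000250) (nat_lit 0x1000000000000000000000000000000010002000100000000))) (.non (nat_lit 0) (nat_lit 5) (nat_lit 0x1550054) (nat_lit 0x3000100020002000100000000000000000002000400030000))) (.non (nat_lit 0) (nat_lit 5) (nat_lit 0x1554014) (nat_lit 0x3000100020003000200010000000000000000000200040000))) (.non (nat_lit 1) (nat_lit 5) (nat_lit 0x1100001) (nat_lit 0x1000000010000000000000000000000000000000000000001))))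

noncomputable def t1537_234 : Tr := (.pd (.cons (nat_lit 0) (nat_lit 7) (nat_lit 0) (nat_lit 0xa1905532110) (nat_lit 0xf423fb71aef423f00000f423f54591f423f7a11e7a11c28b0300000) (.cons (nat_lit 1) (nat_lit 7) (nat_lit 0) (nat_lit 0x905532200) (nat_lit 0xf423fb71aef423f00000f423f54591f423f7a11e7a11c0000065b97) .nil)) (.st (nat_lit 7) (nat_lit 0) (nat_lit 5) (nat_lit 0x55254) (nat_lit 0x2000200020001000000010002000200020000) (nat_lit 1) (nat_lit 1) (.pd (.cons (nat_lit 0) (nat_lit 8) (nat_lit 0) (nat_lit 0xa1065532110) (nat_lit 0xf423ff423f00000f423fb71ae1f156f423f7a11e7a11c3d08900000) (.cons (nat_lit 0) (nat_lit 9) (nat_lit 0) (nat_lit 0xa0765532110) (nat_lit 0xf423f00000f423fb71aea2c2804737f423f7a11e7a11c7a11a00000) (.cons (nat_lit 1) (nat_lit 8) (nat_lit 0) (nat_lit 0x65532200) (nat_lit 0xf423ff423f00000f423fb71ae1f156f423f7a11e7a11c000007a11d) (.cons (nat_lit 1) (nat_lit 9) (nat_lit 0) (nat_lit 0x765532200) (nat_lit 0xf423f00000f423fb71aea2c2804737f423f7a11e7a11c00000b71ae) .nil)))) (.ex (nat_lit 0xa) (.pd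 (.cons (nat_lit 2) (nat_lit 9) (nat_lit 0) (nat_lit 0x765533000) (nat_lit 0xf423f00000f423fb71aea2c2804737f423f7a11e00000f423f17500) .nil) (.leaf (.cons (nat_lit 0x40005) (nat_lit 0x1000000000000000000000000000000010001) (.cons (nat_lit 0x100015) (nat_lit 0x10000000000000000000000000000000100020002) .nil)) .nil)) (.split (nat_lit 0xb) (nat_lit 0) (.split (nat_lit 0xb) (nat_lit 1) (.split (nat_lit 0xb) (nat_lit 2) (.split (nat_lit 0xb) (nat_lit 3) (.split (nat_lit 0xb) (nat_lit 4) (.split (nat_lit 0xb) (nat_lit 5) (.split (nat_lit 0xb) (nat_lit 6) (.split (nat_lit 0xb) (nat_lit 7) (.split (nat_lit 0xb) (nat_lit 8) (.split (nat_lit 0xb) (nat_lit 9) t1537_233 (.non (nat_lit 0) (nat_lit 5) (nat_lit 0x554014) (nat_lit 0x200010003000200010000000000000000000100020000))) (.non (nat_lit 0) (nat_lit 5) (nat_lit 0x555004) (nat_lit 0x200010002000300020001000000000000000000010000))) (.non (nat_lit 0) (nat_lit 5) (nat_lit 0x555054) (nat_lit 0x400020004000500060003000000000001000200030000))) (.non (nat_lit 1) (nat_lit 5)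 (nat_lit 0x555001) (nat_lit 0x100010001000100010001000000000000000000000001))) (.non (nat_lit 1) (nat_lit 7) (nat_lit 0x501401) (nat_lit 0x300020000000000000003000400000000000000000001))) (.non (nat_lit 0) (nat_lit 5) (nat_lit 0xa00250) (nat_lit 0x200010000000000000000000000030004000200000000))) (.non (nat_lit 0) (nat_lit 5) (nat_lit 0x400250) (nat_lit 0x100000000000000000000000000010002000100000000))) (.non (nat_lit 0) (nat_lit 5) (nat_lit 0x555054) (nat_lit 0x400020004000300020001000000000003000600050000))) (.non (nat_lit 0) (nat_lit 5) (nat_lit 0x550054) (nat_lit 0x200010002000100000000000000000001000200030000))) (.non (nat_lit 1) (nat_lit 5) (nat_lit 0x500001) (nat_lit 0x100010000000000000000000000000000000000000001)))))))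

noncomputable def t1537_235 : Tr := (.split (nat_lit 4) (nat_lit 3) (.split (nat_lit 9) (nat_lit 8) (.split (nat_lit 9) (nat_lit 0) (.split (nat_lit 0xa) (nat_lit 0) (.pd (.cons (nat_lit 0) (nat_lit 7) (nat_lit 0) (nat_lit 0xa1905532110) (nat_lit 0xf423fb71aef423f00000f423f54591f423fb71aea2c284734e00000) (.cons (nat_lit 1) (nat_lit 7) (nat_lit 0) (nat_lit 0x905532200) (nat_lit 0xf423fb71aef423f00000f423f54591f423fb71aea2c280000065b97) .nil)) t1537_232) (.split (nat_lit 0xa) (nat_lit 0) (.pd (.cons (nat_lit 0) (nat_lit 7) (nat_lit 0) (nat_lit 0xa1905532110) (nat_lit 0xf423fb71aef423f00000f423f54591f423fb71aea2c284734e00000) (.cons (nat_lit 1) (nat_lit 7) (nat_lit 0) (nat_lit 0x905532200) (nat_lit 0xf423fb71aef423f00000f423f54591f423fb71aea2c280000028b07) .nil)) (.st (nat_lit 7) (nat_lit 1) (nat_lit 5) (nat_lit 0x255001) (nat_lit 0x10002000200020001000000000000000000000002) (nat_lit 1) (nat_lit 1) (.pd (.cons (nat_lit 0) (nat_lit 8) (nat_lit 0) (nat_lit 0xa1065532110) (nat_lit 0xf423ff423f00000f423fb71ae1f156f423fb71aea2c285b8d400000)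 (.cons (nat_lit 0) (nat_lit 9) (nat_lit 0) (nat_lit 0xa0765532110) (nat_lit 0xf423f00000f423fb71aea2c2804737f423fb71aea2c289896500000) (.cons (nat_lit 1) (nat_lit 8) (nat_lit 0) (nat_lit 0x65532200) (nat_lit 0xf423ff423f00000f423fb71ae1f156f423fb71aea2c28000003d08d) (.cons (nat_lit 1) (nat_lit 9) (nat_lit 0) (nat_lit 0x765532200) (nat_lit 0xf423f00000f423fb71aea2c2804737f423fb71aea2c28000007a11e) .nil)))) (.leaf (.cons (nat_lit 0x100005) (nat_lit 0x10000000000000000000000000000000000010001) .nil) .nil)))) (.non (nat_lit 1) (nat_lit 5) (nat_lit 0x154001) (nat_lit 0x30003000200010000000000000000000000000004)))) (.non (nat_lit 1) (nat_lit 5) (nat_lit 0x1a8001) (nat_lit 0x20003000200010000000000000000000000000004))) (.non (nat_lit 0) (nat_lit 5) (nat_lit 0x6a004) (nat_lit 0x4000300020001000000000000000000020000))) (.split (nat_lit 4) (nat_lit 3) (.split (nat_lit 9) (nat_lit 8) (.split (nat_lit 9) (nat_lit 0) (.split (nat_lit 0xa) (nat_lit 0) t1537_234 (.split (nat_lit 0xa) (nat_lit 0) (.pd (.cons (nat_lit 0) (nat_lit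 7) (nat_lit 0) (nat_lit 0xa1905532110) (nat_lit 0xf423fb71aef423f00000f423f54591f423f7a11e7a11c28b0300000) (.cons (nat_lit 1) (nat_lit 7) (nat_lit 0) (nat_lit 0x905532200) (nat_lit 0xf423fb71aef423f00000f423f54591f423f7a11e7a11c0000028b07) .nil)) (.st (nat_lit 7) (nat_lit 0) (nat_lit 5) (nat_lit 0x55254) (nat_lit 0x2000200020001000000010002000200020000) (nat_lit 1) (nat_lit 1) (.pd (.cons (nat_lit 0) (nat_lit 8) (nat_lit 0) (nat_lit 0xa1065532110) (nat_lit 0xf423ff423f00000f423fb71ae1f156f423f7a11e7a11c3d08900000) (.cons (nat_lit 0) (nat_lit 9) (nat_lit 0) (nat_lit 0xa0765532110) (nat_lit 0xf423f00000f423fb71aea2c2804737f423f7a11e7a11c7a11a00000) (.cons (nat_lit 1) (nat_lit 8) (nat_lit 0) (nat_lit 0x65532200) (nat_lit 0xf423ff423f00000f423fb71ae1f156f423f7a11e7a11c000003d08d) (.cons (nat_lit 1) (nat_lit 9) (nat_lit 0) (nat_lit 0x765532200) (nat_lit 0xf423f00000f423fb71aea2c2804737f423f7a11e7a11c000007a11e) .nil)))) (.leaf (.cons (nat_lit 0x100005) (nat_lit 0x10000000000000000000000000000000000010001) .nil)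 .nil)))) (.non (nat_lit 1) (nat_lit 5) (nat_lit 0x154001) (nat_lit 0x30003000200010000000000000000000000000004)))) (.non (nat_lit 1) (nat_lit 5) (nat_lit 0x1a8001) (nat_lit 0x20003000200010000000000000000000000000004))) (.non (nat_lit 0) (nat_lit 5) (nat_lit 0x6a004) (nat_lit 0x4000300020001000000000000000000020000))) (.non (nat_lit 0) (nat_lit 5) (nat_lit 0x40154) (nat_lit 0x1000000000000000000030004000300020000))))

noncomputable def t1537_236 : Tr := (.ex (nat_lit 5) (.ex (nat_lit 6) (.split (nat_lit 9) (nat_lit 1) t1537_235 (.non (nat_lit 0) (nat_lit 5) (nat_lit 0xa8014) (nat_lit 0x3000200010000000000000000000200040000))) (.split (nat_lit 0xb) (nat_lit 0) (.split (nat_lit 0xb) (nat_lit 1) (.split (nat_lit 0xb) (nat_lit 2) (.split (nat_lit 0xb) (nat_lit 3) (.split (nat_lit 0xb) (nat_lit 4) (.split (nat_lit 0xb) (nat_lit 7) (.split (nat_lit 0xb) (nat_lit 8) (.split (nat_lit 0xb) (nat_lit 9) (.split (nat_lit 0xb) (nat_lit 0xa) (.split (nat_lit 0xb) (nat_lit 5) (.unj (nat_lit 0x40005) (nat_lit 0x1000000000000000000000000000000010001)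 (nat_lit 0x405400) (nat_lit 0x100000000000000010002000200000000000000000000)) (.unj (nat_lit 0x40005) (nat_lit 0x1000000000000000000000000000000010001) (nat_lit 0x401400) (nat_lit 0x100000000000000000001000100000000000000000000))) (.non (nat_lit 1) (nat_lit 5) (nat_lit 0x555001) (nat_lit 0x100010001000100010001000000000000000000000001))) (.non (nat_lit 0) (nat_lit 5) (nat_lit 0x455000) (nat_lit 0x100000001000100010001000000000000000000000000))) (.non (nat_lit 0) (nat_lit 5) (nat_lit 0x415000) (nat_lit 0x100000000000100010001000000000000000000000000))) (.non (nat_lit 0) (nat_lit 5) (nat_lit 0x405000) (nat_lit 0x100000000000000010001000000000000000000000000))) (.non (nat_lit 0) (nat_lit 5) (nat_lit 0x455154) (nat_lit 0x100000001000100010001000000010001000100010000))) (.non (nat_lit 0) (nat_lit 5) (nat_lit 0x455054) (nat_lit 0x100000001000100010001000000000001000100010000))) (.non (nat_lit 0) (nat_lit 5) (nat_lit 0x455014) (nat_lit 0x100000001000100010001000000000000000100010000))) (.star (nat_lit 0xb) (nat_lit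 1) (nat_lit 6))) (.star (nat_lit 0xb) (nat_lit 0) (nat_lit 6)))) (.split (nat_lit 0xb) (nat_lit 0) (.split (nat_lit 0xb) (nat_lit 1) (.split (nat_lit 0xb) (nat_lit 2) (.split (nat_lit 0xb) (nat_lit 3) (.split (nat_lit 0xb) (nat_lit 8) (.split (nat_lit 0xb) (nat_lit 9) (.split (nat_lit 0xb) (nat_lit 4) (.split (nat_lit 0xb) (nat_lit 6) (.split (nat_lit 0xb) (nat_lit 7) (.split (nat_lit 0xb) (nat_lit 0xa) (.unj (nat_lit 0x40005) (nat_lit 0x1000000000000000000000000000000010001) (nat_lit 0x405400) (nat_lit 0x100000000000000010002000200000000000000000000)) (.unj (nat_lit 0x40005) (nat_lit 0x1000000000000000000000000000000010001) (nat_lit 0x405400) (nat_lit 0x100000000000000010002000200000000000000000000))) (.split (nat_lit 0xb) (nat_lit 0xa) (.unj (nat_lit 0x40005) (nat_lit 0x1000000000000000000000000000000010001) (nat_lit 0x405400) (nat_lit 0x100000000000000010001000100000000000000000000)) (.non (nat_lit 0) (nat_lit 5) (nat_lit 0x555054) (nat_lit 0x400020004000500060003000000000001000200030000)))) (.split (nat_lit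 0xb) (nat_lit 7) (.split (nat_lit 0xb) (nat_lit 0xa) (.unj (nat_lit 0x40005) (nat_lit 0x1000000000000000000000000000000010001) (nat_lit 0x401400) (nat_lit 0x100000000000000000001000100000000000000000000)) (.non (nat_lit 1) (nat_lit 5) (nat_lit 0x555001) (nat_lit 0x100010001000100010001000000000000000000000001))) (.non (nat_lit 0) (nat_lit 5) (nat_lit 0x405000) (nat_lit 0x100000000000000010001000000000000000000000000)))) (.split (nat_lit 0xb) (nat_lit 6) (.split (nat_lit 0xb) (nat_lit 7) (.split (nat_lit 0xb) (nat_lit 0xa) (.unj (nat_lit 0x40005) (nat_lit 0x1000000000000000000000000000000010001) (nat_lit 0x405400) (nat_lit 0x100000000000000010002000200000000000000000000)) (.non (nat_lit 1) (nat_lit 6) (nat_lit 0x554541) (nat_lit 0x600050003000200010000000300040002000000000004))) (.non (nat_lit 0) (nat_lit 5) (nat_lit 0x455144) (nat_lit 0x300000002000300040002000000020001000000010000))) (.non (nat_lit 0) (nat_lit 5) (nat_lit 0x455154) (nat_lit 0x100000001000100010001000000010001000100010000)))) (.non (nat_lit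 0) (nat_lit 5) (nat_lit 0x455054) (nat_lit 0x200000004000300020001000000000001000200030000))) (.non (nat_lit 0) (nat_lit 5) (nat_lit 0x455154) (nat_lit 0x300000005000600040002000000010002000300040000))) (.non (nat_lit 0) (nat_lit 6) (nat_lit 0x454554) (nat_lit 0x400000003000200010000000200030006000500040000))) (.non (nat_lit 0) (nat_lit 5) (nat_lit 0x455154) (nat_lit 0x300000004000300020001000000020004000600050000))) (.star (nat_lit 0xb) (nat_lit 1) (nat_lit 5))) (.star (nat_lit 0xb) (nat_lit 0) (nat_lit 5))))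

noncomputable def t1537_237 : Tr := (.split (nat_lit 4) (nat_lit 3) (.split (nat_lit 9) (nat_lit 8) (.split (nat_lit 9) (nat_lit 0) (.split (nat_lit 0xa) (nat_lit 0) (.split (nat_lit 0xb) (nat_lit 0) (.pd (.cons (nat_lit 0) (nat_lit 7) (nat_lit 0) (nat_lit 0xba1905532110) (nat_lit 0xf423ff423fb71aef423f00000f423f54591f423fb71aea2c284734e00000) (.cons (nat_lit 0) (nat_lit 8) (nat_lit 0) (nat_lit 0xba1065532110) (nat_lit 0xf423ff423ff423f00000f423fb71ae1f156f423fb71aea2c285b8d400000) (.cons (nat_lit 0) (nat_lit 9) (nat_lit 0) (nat_lit 0xba0765532110) (nat_lit 0xf423ff423f00000f423fb71aea2c2804737f423fb71aea2c289896500000) (.cons (nat_lit 1) (nat_lit 7) (nat_lit 0) (nat_lit 0x905532200) (nat_lit 0xf423ff423fb71aef423f00000f423f54591f423fb71aea2c280000028b06) (.cons (nat_lit 1) (nat_lit 8) (nat_lit 0) (nat_lit 0x65532200) (nat_lit 0xf423ff423ff423f00000f423fb71ae1f156f423fb71aea2c28000003d08c) (.cons (nat_lit 1) (nat_lit 9) (nat_lit 0) (nat_lit 0x765532200) (nat_lit 0xf423ff423f00000f423fb71aea2c2804737f423fb71aea2c28000007a11d)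 .nil)))))) (.leaf (.cons (nat_lit 0x500005) (nat_lit 0x100010000000000000000000000000000000000020002) .nil) .nil)) (.non (nat_lit 1) (nat_lit 5) (nat_lit 0x940001) (nat_lit 0x100010001000000000000000000000000000000000002))) (.non (nat_lit 1) (nat_lit 5) (nat_lit 0x640001) (nat_lit 0x100010001000000000000000000000000000000000002))) (.non (nat_lit 1) (nat_lit 5) (nat_lit 0x580001) (nat_lit 0x100010001000000000000000000000000000000000002))) (.non (nat_lit 0) (nat_lit 5) (nat_lit 0x6a004) (nat_lit 0x4000300020001000000000000000000020000))) (.split (nat_lit 4) (nat_lit 3) (.split (nat_lit 9) (nat_lit 8) (.split (nat_lit 9) (nat_lit 0) (.split (nat_lit 0xa) (nat_lit 0) (.split (nat_lit 0xb) (nat_lit 0) (.pd (.cons (nat_lit 0) (nat_lit 7) (nat_lit 0) (nat_lit 0xba1905532110) (nat_lit 0xf423ff423fb71aef423f00000f423f54591f423f7a11e7a11c28b0300000) (.cons (nat_lit 0) (nat_lit 8) (nat_lit 0) (nat_lit 0xba1065532110) (nat_lit 0xf423ff423ff423f00000f423fb71ae1f156f423f7a11e7a11c3d08900000) (.cons (nat_lit 0) (nat_lit 9)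 (nat_lit 0) (nat_lit 0xba0765532110) (nat_lit 0xf423ff423f00000f423fb71aea2c2804737f423f7a11e7a11c7a11a00000) (.cons (nat_lit 1) (nat_lit 7) (nat_lit 0) (nat_lit 0x905532200) (nat_lit 0xf423ff423fb71aef423f00000f423f54591f423f7a11e7a11c0000028b06) (.cons (nat_lit 1) (nat_lit 8) (nat_lit 0) (nat_lit 0x65532200) (nat_lit 0xf423ff423ff423f00000f423fb71ae1f156f423f7a11e7a11c000003d08c) (.cons (nat_lit 1) (nat_lit 9) (nat_lit 0) (nat_lit 0x765532200) (nat_lit 0xf423ff423f00000f423fb71aea2c2804737f423f7a11e7a11c000007a11d) .nil)))))) (.leaf (.cons (nat_lit 0x500005) (nat_lit 0x100010000000000000000000000000000000000020002) .nil) .nil)) (.non (nat_lit 1) (nat_lit 5) (nat_lit 0x940001) (nat_lit 0x100010001000000000000000000000000000000000002))) (.non (nat_lit 1) (nat_lit 5) (nat_lit 0x640001) (nat_lit 0x100010001000000000000000000000000000000000002))) (.non (nat_lit 1) (nat_lit 5) (nat_lit 0x580001) (nat_lit 0x100010001000000000000000000000000000000000002))) (.non (nat_lit 0) (nat_lit 5) (nat_lit 0x6a004) (nat_lit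 0x4000300020001000000000000000000020000))) (.non (nat_lit 0) (nat_lit 5) (nat_lit 0x40154) (nat_lit 0x1000000000000000000030004000300020000))))

noncomputable def t1537_238 : Tr := (.ex (nat_lit 5) (.ex (nat_lit 6) (.split (nat_lit 9) (nat_lit 1) t1537_237 (.non (nat_lit 0) (nat_lit 5) (nat_lit 0xa8014) (nat_lit 0x3000200010000000000000000000200040000))) (.split (nat_lit 0xc) (nat_lit 0) (.split (nat_lit 0xc) (nat_lit 1) (.split (nat_lit 0xc) (nat_lit 2) (.split (nat_lit 0xc) (nat_lit 3) (.split (nat_lit 0xc) (nat_lit 4) (.split (nat_lit 0xc) (nat_lit 7) (.split (nat_lit 0xc) (nat_lit 8) (.split (nat_lit 0xc) (nat_lit 9) (.split (nat_lit 0xc) (nat_lit 0xa) (.split (nat_lit 0xc) (nat_lit 0xb) (.split (nat_lit 0xc) (nat_lit 5) (.unj (nat_lit 0x40005) (nat_lit 0x1000000000000000000000000000000010001) (nat_lit 0x1005400) (nat_lit 0x1000000000000000000010002000200000000000000000000)) (.unj (nat_lit 0x40005) (nat_lit 0x1000000000000000000000000000000010001) (nat_lit 0x1001400) (nat_lit 0x1000000000000000000000001000100000000000000000000)))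 (.non (nat_lit 1) (nat_lit 5) (nat_lit 0x1455001) (nat_lit 0x1000100000001000100010001000000000000000000000001))) (.non (nat_lit 1) (nat_lit 5) (nat_lit 0x1155001) (nat_lit 0x1000000010001000100010001000000000000000000000001))) (.non (nat_lit 0) (nat_lit 5) (nat_lit 0x1055000) (nat_lit 0x1000000000001000100010001000000000000000000000000))) (.non (nat_lit 0) (nat_lit 5) (nat_lit 0x1015000) (nat_lit 0x1000000000000000100010001000000000000000000000000))) (.non (nat_lit 0) (nat_lit 5) (nat_lit 0x1005000) (nat_lit 0x1000000000000000000010001000000000000000000000000))) (.non (nat_lit 0) (nat_lit 5) (nat_lit 0x1055154) (nat_lit 0x1000000000001000100010001000000010001000100010000))) (.non (nat_lit 0) (nat_lit 5) (nat_lit 0x1055054) (nat_lit 0x1000000000001000100010001000000000001000100010000))) (.non (nat_lit 0) (nat_lit 5) (nat_lit 0x1055014) (nat_lit 0x1000000000001000100010001000000000000000100010000))) (.star (nat_lit 0xc) (nat_lit 1) (nat_lit 6))) (.star (nat_lit 0xc) (nat_lit 0) (nat_lit 6)))) (.split (nat_lit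 0xc) (nat_lit 0) (.split (nat_lit 0xc) (nat_lit 1) (.split (nat_lit 0xc) (nat_lit 2) (.split (nat_lit 0xc) (nat_lit 3) (.split (nat_lit 0xc) (nat_lit 7) (.split (nat_lit 0xc) (nat_lit 8) (.split (nat_lit 0xc) (nat_lit 9) (.split (nat_lit 0xc) (nat_lit 0xa) (.split (nat_lit 0xc) (nat_lit 0xb) (.split (nat_lit 0xc) (nat_lit 4) (.split (nat_lit 0xc) (nat_lit 6) (.unj (nat_lit 0x40005) (nat_lit 0x1000000000000000000000000000000010001) (nat_lit 0x1005400) (nat_lit 0x1000000000000000000010002000200000000000000000000)) (.unj (nat_lit 0x40005) (nat_lit 0x1000000000000000000000000000000010001) (nat_lit 0x1001400) (nat_lit 0x1000000000000000000000001000100000000000000000000))) (.split (nat_lit 0xc) (nat_lit 6) (.unj (nat_lit 0x40005) (nat_lit 0x1000000000000000000000000000000010001) (nat_lit 0x1005400) (nat_lit 0x1000000000000000000010002000200000000000000000000)) (.non (nat_lit 0) (nat_lit 5) (nat_lit 0x1055154) (nat_lit 0x1000000000001000100010001000000010001000100010000)))) (.non (nat_lit 1) (nat_lit 6) (nat_lit 0x1554401)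 (nat_lit 0x2000300020003000200010000000100000000000000000004))) (.non (nat_lit 1) (nat_lit 6) (nat_lit 0x1554401) (nat_lit 0x2000200030003000200010000000100000000000000000004))) (.non (nat_lit 0) (nat_lit 5) (nat_lit 0x1055054) (nat_lit 0x2000000000004000300020001000000000001000200030000))) (.non (nat_lit 0) (nat_lit 5) (nat_lit 0x1055154) (nat_lit 0x3000000000005000600040002000000010002000300040000))) (.non (nat_lit 1) (nat_lit 5) (nat_lit 0x1555001) (nat_lit 0x1000100010002000200020001000000000000000000000002))) (.non (nat_lit 0) (nat_lit 6) (nat_lit 0x1054554) (nat_lit 0x4000000000003000200010000000200030006000500040000))) (.non (nat_lit 0) (nat_lit 5) (nat_lit 0x1055154) (nat_lit 0x3000000000004000300020001000000020004000600050000))) (.star (nat_lit 0xc) (nat_lit 1) (nat_lit 5))) (.star (nat_lit 0xc) (nat_lit 0) (nat_lit 5))))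

noncomputable def t1537_239 : Tr := (.pd (.cons (nat_lit 0) (nat_lit 7) (nat_lit 0) (nat_lit 0x41905532110) (nat_lit 0xf423fb71aef423f00000f423f54591b71aea2c2898965411a600000) (.cons (nat_lit 1) (nat_lit 7) (nat_lit 0) (nat_lit 0x9055a4300) (nat_lit 0x98965b71aef423f00000f423f54591a2c28b71aef423f00000411a6) .nil)) (.ex (nat_lit 7) (.pd (.cons (nat_lit 0) (nat_lit 8) (nat_lit 0) (nat_lit 0x41065532110) (nat_lit 0xf423ff423f00000f423fb71ae1f156b71aea2c28989655572c00000) (.cons (nat_lit 0) (nat_lit 9) (nat_lit 0) (nat_lit 0x40765532110) (nat_lit 0xf423f00000f423fb71aea2c2804737b71aea2c2898965927bd00000) (.cons (nat_lit 1) (nat_lit 8) (nat_lit 0) (nat_lit 0x655a4300) (nat_lit 0x98965f423f00000f423fb71ae1f156a2c28b71aef423f000005572c) (.cons (nat_lit 1) (nat_lit 9) (nat_lit 0) (nat_lit 0x7655a4300) (nat_lit 0x9896500000f423fb71aea2c2804737a2c28b71aef423f00000927bd) .nil)))) (.leaf (.cons (nat_lit 0x40005) (nat_lit 0x1000000000000000000000000000000010001) (.cons (nat_lit 0x100145) (nat_lit 0x30000000000000000000000020001000000030004)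 (.cons (nat_lit 0x100015) (nat_lit 0x10000000000000000000000000000000100020002) .nil))) .nil)) (.split (nat_lit 0xb) (nat_lit 0) (.split (nat_lit 0xb) (nat_lit 1) (.split (nat_lit 0xb) (nat_lit 2) (.split (nat_lit 0xb) (nat_lit 3) (.split (nat_lit 0xb) (nat_lit 4) (.split (nat_lit 0xb) (nat_lit 6) (.split (nat_lit 0xb) (nat_lit 8) (.split (nat_lit 0xb) (nat_lit 9) (.split (nat_lit 0xb) (nat_lit 0xa) (.split (nat_lit 0xb) (nat_lit 5) (.unj (nat_lit 0x100015) (nat_lit 0x10000000000000000000000000000000100020002) (nat_lit 0x415400) (nat_lit 0x100000000000100020002000200000000000000000000)) (.unj (nat_lit 0x40005) (nat_lit 0x1000000000000000000000000000000010001) (nat_lit 0x405400) (nat_lit 0x100000000000000010001000100000000000000000000))) (.non (nat_lit 0) (nat_lit 5) (nat_lit 0x555150) (nat_lit 0x500040002000400060003000000030002000100000000))) (.non (nat_lit 0) (nat_lit 5) (nat_lit 0x454000) (nat_lit 0x100000001000100010000000000000000000000000000))) (.non (nat_lit 0) (nat_lit 5) (nat_lit 0x414000) (nat_lit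 0x100000000000100010000000000000000000000000000))) (.non (nat_lit 0) (nat_lit 5) (nat_lit 0x405000) (nat_lit 0x100000000000000010001000000000000000000000000))) (.non (nat_lit 0) (nat_lit 5) (nat_lit 0x515140) (nat_lit 0x200010000000100020001000000020001000000000000))) (.non (nat_lit 0) (nat_lit 5) (nat_lit 0x415150) (nat_lit 0x200000000000100020001000000010002000100000000))) (.non (nat_lit 0) (nat_lit 5) (nat_lit 0x555150) (nat_lit 0x500010002000400060003000000020003000400000000))) (.non (nat_lit 0) (nat_lit 5) (nat_lit 0x454004) (nat_lit 0x100000001000100010000000000000000000000010000))) (.non (nat_lit 1) (nat_lit 5) (nat_lit 0x454001) (nat_lit 0x100000001000100010000000000000000000000000001)))))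

noncomputable def t1537_240 : Tr := (.ex (nat_lit 5) (.ex (nat_lit 6) (.split (nat_lit 9) (nat_lit 1) (.split (nat_lit 4) (nat_lit 3) (.split (nat_lit 0xa) (nat_lit 4) (.split (nat_lit 9) (nat_lit 8) (.split (nat_lit 9) (nat_lit 0) (.split (nat_lit 0xa) (nat_lit 0) t1537_239 (.non (nat_lit 1) (nat_lit 5) (nat_lit 0x250201) (nat_lit 0x20002000100000000000000010000000000000003))) (.non (nat_lit 1) (nat_lit 5) (nat_lit 0x1a8001) (nat_lit 0x20003000200010000000000000000000000000004))) (.non (nat_lit 0) (nat_lit 5) (nat_lit 0x6a004) (nat_lit 0x4000300020001000000000000000000020000))) (.non (nat_lit 1) (nat_lit 5) (nat_lit 0x140281) (nat_lit 0x30001000000000000000000020001000000000002))) (.non (nat_lit 0) (nat_lit 5) (nat_lit 0x200254) (nat_lit 0x10000000000000000000000020003000200010000))) (.non (nat_lit 0) (nat_lit 5) (nat_lit 0xa8014) (nat_lit 0x3000200010000000000000000000200040000))) (.split (nat_lit 0xb) (nat_lit 0) (.split (nat_lit 0xb) (nat_lit 1) (.split (nat_lit 0xb) (nat_lit 2) (.split (nat_lit 0xb) (nat_lit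 3) (.split (nat_lit 0xb) (nat_lit 4) (.split (nat_lit 0xb) (nat_lit 7) (.split (nat_lit 0xb) (nat_lit 8) (.split (nat_lit 0xb) (nat_lit 9) (.split (nat_lit 0xb) (nat_lit 0xa) (.split (nat_lit 0xb) (nat_lit 5) (.unj (nat_lit 0x40005) (nat_lit 0x1000000000000000000000000000000010001) (nat_lit 0x405400) (nat_lit 0x100000000000000010002000200000000000000000000)) (.unj (nat_lit 0x40005) (nat_lit 0x1000000000000000000000000000000010001) (nat_lit 0x401400) (nat_lit 0x100000000000000000001000100000000000000000000))) (.non (nat_lit 0) (nat_lit 5) (nat_lit 0x555154) (nat_lit 0x100010001000100010001000000010001000100010000))) (.non (nat_lit 0) (nat_lit 5) (nat_lit 0x455000) (nat_lit 0x100000001000100010001000000000000000000000000))) (.non (nat_lit 0) (nat_lit 5) (nat_lit 0x415000) (nat_lit 0x100000000000100010001000000000000000000000000))) (.non (nat_lit 0) (nat_lit 5) (nat_lit 0x405000) (nat_lit 0x100000000000000010001000000000000000000000000))) (.non (nat_lit 0) (nat_lit 5) (nat_lit 0x555150) (nat_lit 0x500030001000200030004000000060004000200000000)))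 (.non (nat_lit 0) (nat_lit 5) (nat_lit 0x555150) (nat_lit 0x500020001000200030004000000040006000300000000))) (.non (nat_lit 0) (nat_lit 5) (nat_lit 0x455014) (nat_lit 0x100000001000100010001000000000000000100010000))) (.star (nat_lit 0xb) (nat_lit 1) (nat_lit 6))) (.star (nat_lit 0xb) (nat_lit 0) (nat_lit 6)))) (.split (nat_lit 0xb) (nat_lit 0) (.split (nat_lit 0xb) (nat_lit 1) (.split (nat_lit 0xb) (nat_lit 2) (.split (nat_lit 0xb) (nat_lit 3) (.split (nat_lit 0xb) (nat_lit 4) (.split (nat_lit 0xb) (nat_lit 8) (.split (nat_lit 0xb) (nat_lit 9) (.split (nat_lit 0xb) (nat_lit 0xa) (.split (nat_lit 0xb) (nat_lit 6) (.split (nat_lit 0xb) (nat_lit 7) (.unj (nat_lit 0x40005) (nat_lit 0x1000000000000000000000000000000010001) (nat_lit 0x405400) (nat_lit 0x100000000000000010002000200000000000000000000)) (.unj (nat_lit 0x40005) (nat_lit 0x1000000000000000000000000000000010001) (nat_lit 0x405400) (nat_lit 0x100000000000000010001000100000000000000000000))) (.split (nat_lit 0xb) (nat_lit 7) (.unj (nat_lit 0x40005) (nat_lit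 0x1000000000000000000000000000000010001) (nat_lit 0x401400) (nat_lit 0x100000000000000000001000100000000000000000000)) (.non (nat_lit 0) (nat_lit 5) (nat_lit 0x405000) (nat_lit 0x100000000000000010001000000000000000000000000)))) (.non (nat_lit 1) (nat_lit 5) (nat_lit 0x555141) (nat_lit 0x300060004000300020001000000040002000000000005))) (.non (nat_lit 0) (nat_lit 5) (nat_lit 0x455054) (nat_lit 0x200000004000300020001000000000001000200030000))) (.non (nat_lit 0) (nat_lit 5) (nat_lit 0x455154) (nat_lit 0x300000005000600040002000000010002000300040000))) (.non (nat_lit 0) (nat_lit 6) (nat_lit 0x550554) (nat_lit 0x400030002000100000000000200060005000400030000))) (.non (nat_lit 0) (nat_lit 5) (nat_lit 0x554154) (nat_lit 0x300020003000200010000000000040006000500040000))) (.non (nat_lit 0) (nat_lit 5) (nat_lit 0x550154) (nat_lit 0x200010002000100000000000000020003000400030000))) (.star (nat_lit 0xb) (nat_lit 1) (nat_lit 5))) (.star (nat_lit 0xb) (nat_lit 0) (nat_lit 5))))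

noncomputable def t1537_241 : Tr := (.split (nat_lit 0xa) (nat_lit 9) (.split (nat_lit 0xa) (nat_lit 3) (.split (nat_lit 0xa) (nat_lit 4) (.ex (nat_lit 0) t1537_236 (.split (nat_lit 0xb) (nat_lit 1) (.split (nat_lit 0xb) (nat_lit 2) (.split (nat_lit 0xb) (nat_lit 3) (.split (nat_lit 0xb) (nat_lit 4) (.split (nat_lit 0xb) (nat_lit 5) (.split (nat_lit 0xb) (nat_lit 6) (.split (nat_lit 0xb) (nat_lit 7) (.split (nat_lit 0xb) (nat_lit 8) (.split (nat_lit 0xb) (nat_lit 9) (.split (nat_lit 0xb) (nat_lit 0xa) (.st (nat_lit 7) (nat_lit 1) (nat_lit 5) (nat_lit 0x555001) (nat_lit 0x100010002000200020001000000000000000000000002) (nat_lit 1) (nat_lit 1) t1537_238) (.non (nat_lit 1) (nat_lit 5) (nat_lit 0x500001) (nat_lit 0x100010000000000000000000000000000000000000001))) (.non (nat_lit 0) (nat_lit 5) (nat_lit 0x455054) (nat_lit 0x200000004000300020001000000000001000200030000))) (.non (nat_lit 0) (nat_lit 5) (nat_lit 0x455154) (nat_lit 0x300000005000600040002000000010002000300040000))) (.non (nat_lit 1) (nat_lit 5) (nat_lit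 0x454001) (nat_lit 0x100000001000100010000000000000000000000000001))) (.star (nat_lit 0xb) (nat_lit 0) (nat_lit 6))) (.star (nat_lit 0xb) (nat_lit 0) (nat_lit 5))) (.non (nat_lit 1) (nat_lit 5) (nat_lit 0x554141) (nat_lit 0x300020003000200010000000000020001000000000004))) (.non (nat_lit 1) (nat_lit 5) (nat_lit 0x554141) (nat_lit 0x300020003000200010000000000010002000000000004))) (.non (nat_lit 0) (nat_lit 5) (nat_lit 0x455154) (nat_lit 0x300000004000300020001000000020004000600050000))) (.non (nat_lit 0) (nat_lit 5) (nat_lit 0x454154) (nat_lit 0x200000003000200010000000000010002000300040000)))) t1537_240) (.split (nat_lit 0xa) (nat_lit 4) (.split (nat_lit 0xa) (nat_lit 0) (.split (nat_lit 0xa) (nat_lit 3) (.split (nat_lit 9) (nat_lit 0) (.split (nat_lit 9) (nat_lit 1) (.sup (nat_lit 0x3000d00160020001a00000000000000000000) (nat_lit 0x50000000000000000000000030006000500030003)) (.non (nat_lit 0) (nat_lit 5) (nat_lit 0xa8014) (nat_lit 0x3000200010000000000000000000200040000))) (.non (nat_lit 1) (nat_lit 5) (nat_lit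 0x1a8001) (nat_lit 0x20003000200010000000000000000000000000004))) (.non (nat_lit 0) (nat_lit 5) (nat_lit 0x200150) (nat_lit 0x10000000000000000000000010002000100000000))) (.non (nat_lit 1) (nat_lit 5) (nat_lit 0x250081) (nat_lit 0x20002000100000000000000000001000000000003))) (.non (nat_lit 0) (nat_lit 5) (nat_lit 0x100140) (nat_lit 0x10000000000000000000000010001000000000000)))) (.non (nat_lit 0) (nat_lit 5) (nat_lit 0x155054) (nat_lit 0x20004000300020001000000000001000200030000)))

noncomputable def t1537_242 : Tr := (.split (nat_lit 9) (nat_lit 4) (.split (nat_lit 8) (nat_lit 0) (.split (nat_lit 8) (nat_lit 4) (.split (nat_lit 7) (nat_lit 4) (.split (nat_lit 9) (nat_lit 1) t1537_224 (.split (nat_lit 8) (nat_lit 1) (.split (nat_lit 6) (nat_lit 3) (.split (nat_lit 6) (nat_lit 4) (.split (nat_lit 5) (nat_lit 3) (.split (nat_lit 5) (nat_lit 4) (.st (nat_lit 1) (nat_lit 0) (nat_lit 5) (nat_lit 0x54154) (nat_lit 0x3000200010000000000010002000300040000) (nat_lit 1) (nat_lit 2) (.st (nat_lit 2) (nat_lit 0) (nat_lit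 5) (nat_lit 0x55154) (nat_lit 0x4000300020001000000020004000600050000) (nat_lit 1) (nat_lit 3) (.st (nat_lit 8) (nat_lit 0) (nat_lit 5) (nat_lit 0x55154) (nat_lit 0x5000600040002000000010002000300040000) (nat_lit 1) (nat_lit 3) (.ex (nat_lit 0) t1537_230 (.split (nat_lit 0xa) (nat_lit 1) (.split (nat_lit 0xa) (nat_lit 2) (.split (nat_lit 0xa) (nat_lit 5) (.split (nat_lit 0xa) (nat_lit 6) (.split (nat_lit 0xa) (nat_lit 7) (.split (nat_lit 0xa) (nat_lit 8) t1537_241 (.non (nat_lit 0) (nat_lit 5) (nat_lit 0x155154) (nat_lit 0x30005000600040002000000010002000300040000))) (.non (nat_lit 1) (nat_lit 5) (nat_lit 0x154001) (nat_lit 0x10001000100010000000000000000000000000001))) (.star (nat_lit 0xa) (nat_lit 0) (nat_lit 6))) (.star (nat_lit 0xa) (nat_lit 0) (nat_lit 5))) (.non (nat_lit 0) (nat_lit 5) (nat_lit 0x155154) (nat_lit 0x30004000300020001000000020004000600050000))) (.non (nat_lit 0) (nat_lit 5) (nat_lit 0x154154) (nat_lit 0x20003000200010000000000010002000300040000))))))) (.unj (nat_lit 0x40005) (nat_lit 0x1000000000000000000000000000000010001)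 (nat_lit 0x5500) (nat_lit 0x10002000200010000000000000000))) (.split (nat_lit 5) (nat_lit 4) (.unj (nat_lit 0x40005) (nat_lit 0x1000000000000000000000000000000010001) (nat_lit 0x5440) (nat_lit 0x10002000200000001000000000000)) (.non (nat_lit 0) (nat_lit 6) (nat_lit 0x540) (nat_lit 0x100010001000000000000)))) (.non (nat_lit 0) (nat_lit 5) (nat_lit 0x55154) (nat_lit 0x1000100010001000000010001000100010000))) (.non (nat_lit 0) (nat_lit 5) (nat_lit 0x55054) (nat_lit 0x1000100010001000000000001000100010000))) (.non (nat_lit 0) (nat_lit 5) (nat_lit 0x50004) (nat_lit 0x1000100000000000000000000000000010000)))) (.non (nat_lit 1) (nat_lit 5) (nat_lit 0x55151) (nat_lit 0x2000300040002000000030002000100000001))) (.non (nat_lit 1) (nat_lit 5) (nat_lit 0x55141) (nat_lit 0x2000300020001000000020001000000000001))) (.non (nat_lit 1) (nat_lit 5) (nat_lit 0x50001) (nat_lit 0x1000100000000000000000000000000000001))) (.non (nat_lit 1) (nat_lit 5) (nat_lit 0x55151) (nat_lit 0x4000300020001000000030002000100000002)))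

noncomputable def t1537_243 : Tr := (.split (nat_lit 8) (nat_lit 3) (.split (nat_lit 7) (nat_lit 2) (.split (nat_lit 7) (nat_lit 3) (.split (nat_lit 9) (nat_lit 0) (.split (nat_lit 9) (nat_lit 1) (.split (nat_lit 9) (nat_lit 2) t1537_195 (.split (nat_lit 9) (nat_lit 3) (.split (nat_lit 9) (nat_lit 4) (.split (nat_lit 8) (nat_lit 1) (.split (nat_lit 8) (nat_lit 4) (.split (nat_lit 7) (nat_lit 4) t1537_199 (.non (nat_lit 0) (nat_lit 5) (nat_lit 0x54150) (nat_lit 0x1000100010000000000010001000100000000))) (.non (nat_lit 0) (nat_lit 5) (nat_lit 0x50150) (nat_lit 0x1000100000000000000010001000100000000))) (.non (nat_lit 0) (nat_lit 5) (nat_lit 0x50014) (nat_lit 0x1000100000000000000000000000100010000))) (.non (nat_lit 0) (nat_lit 5) (nat_lit 0x40150) (nat_lit 0x1000000000000000000010001000100000000))) (.non (nat_lit 0) (nat_lit 5) (nat_lit 0x40050) (nat_lit 0x1000000000000000000000001000100000000)))) (.split (nat_lit 9) (nat_lit 2) (.split (nat_lit 9) (nat_lit 3) (.split (nat_lit 9) (nat_lit 4) (.split (nat_lit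 8) (nat_lit 1) (.split (nat_lit 8) (nat_lit 4) (.split (nat_lit 7) (nat_lit 4) (.split (nat_lit 6) (nat_lit 3) (.split (nat_lit 6) (nat_lit 4) t1537_210 (.non (nat_lit 0) (nat_lit 5) (nat_lit 0x55154) (nat_lit 0x1000100010001000000010001000100010000))) (.non (nat_lit 0) (nat_lit 5) (nat_lit 0x55054) (nat_lit 0x1000100010001000000000001000100010000))) (.non (nat_lit 0) (nat_lit 5) (nat_lit 0x54154) (nat_lit 0x1000100010000000000010001000100010000))) (.non (nat_lit 0) (nat_lit 5) (nat_lit 0x55144) (nat_lit 0x2000300020001000000020001000000010000))) (.non (nat_lit 0) (nat_lit 5) (nat_lit 0x50004) (nat_lit 0x1000100000000000000000000000000010000))) (.non (nat_lit 0) (nat_lit 5) (nat_lit 0x40154) (nat_lit 0x1000000000000000000010001000100010000))) (.non (nat_lit 0) (nat_lit 5) (nat_lit 0x40054) (nat_lit 0x1000000000000000000000001000100010000))) (.non (nat_lit 0) (nat_lit 5) (nat_lit 0x40014) (nat_lit 0x1000000000000000000000000000100010000)))) (.split (nat_lit 9) (nat_lit 2) (.split (nat_lit 9) (nat_lit 3) t1537_242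 (.non (nat_lit 1) (nat_lit 5) (nat_lit 0x50151) (nat_lit 0x2000100000000000000010002000100000001))) (.non (nat_lit 1) (nat_lit 5) (nat_lit 0x55151) (nat_lit 0x4000300020001000000010002000300000002)))) (.non (nat_lit 0) (nat_lit 5) (nat_lit 0x15150) (nat_lit 0x100020001000000010002000100000000))) (.non (nat_lit 0) (nat_lit 5) (nat_lit 0x15054) (nat_lit 0x100020001000000000001000200010000))) (.non (nat_lit 0) (nat_lit 5) (nat_lit 0x54150) (nat_lit 0x1000200010000000000010002000100000000)))

noncomputable def t1537 : Tr := (.split (nat_lit 8) (nat_lit 2) t1537_243 (.non (nat_lit 0) (nat_lit 5) (nat_lit 0x54054) (nat_lit 0x1000200010000000000000001000200010000)))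

noncomputable def D17 : RL := (.cons (nat_lit 0x2222222222222222222222222222222222222222222222222222222222222222222222222222222222222222222222222222222b222aaaaa222222b2322aaaaa22222223232aaa2222222222325aa22222222222252aa222222222aaaaa2b222222222aaaaab2322222222aaa2223232222222aa22222325222222aa22222252) t1537 .nil)

theorem cov_D17 : Cov 1537 1538 := by
  have h1 : rl D17 (nat_lit 1537) = true := by decide +kernel
  have h2 : 1537 + rlen D17 = 1538 := by decide +kernel
  exact cov_of h1 h2

end MP86a502
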