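import Pool.Agent.Lib.MP_86a502_gt.U.Rlc
import Pool.Agent.Lib.MP_86a502_gt.U.D17

set_option autoImplicit false
set_option maxRecDepth 1000000
set_option linter.all false

/-! Certificates, numbers 758 to 758. -/

namespace MP86a502

noncomputable def t758_1 : Tr := (.ex (nat_lit 8) (.split (nat_lit 9) (nat_lit 8) (.pd (.cons (nat_lit 0) (nat_lit 5) (nat_lit 0) (nat_lit 0x8766042110) (nat_lit 0xf423fb71aea2c289896500000f423ff423fb71ae1f15600000) (.cons (nat_lit 1) (nat_lit 5) (nat_lit 0) (nat_lit 0x8766042200) (nat_lit 0xf423fb71aea2c289896500000f423ff423fb71ae00000f423f) (.cons (nat_lit 2) (nat_lit 5) (nat_lit 0) (nat_lit 0x8766043000) (nat_lit 0xf423fb71aea2c289896500000f423ff423f00000f423fb71ae) (.cons (nat_lit 3) (nat_lit 5) (nat_lit 0) (nat_lit 0x8766040100) (nat_lit 0xf423fb71aea2c289896500000f423f00000f423f54591437a2) .nil)))) (.leaf (.cons (nat_lit 0x1454) (nat_lit 0x1000200000003000400030000) (.cons (nat_lit 0x554) (nat_lit 0x100010001000100010000) (.cons (nat_lit 0x1540) (nat_lit 0x1000200020001000000000000)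 .nil))) .nil)) (.split (nat_lit 9) (nat_lit 8) (.pd (.cons (nat_lit 0) (nat_lit 5) (nat_lit 0) (nat_lit 0x8766042110) (nat_lit 0xf423f7a11e7a11c7a11a00000f423ff423fb71ae1f15600000) (.cons (nat_lit 1) (nat_lit 5) (nat_lit 0) (nat_lit 0x8766042200) (nat_lit 0xf423f7a11e7a11c7a11a00000f423ff423fb71ae00000f423f) (.cons (nat_lit 2) (nat_lit 5) (nat_lit 0) (nat_lit 0x8766043000) (nat_lit 0xf423f7a11e7a11c7a11a00000f423ff423f00000f423fb71ae) (.cons (nat_lit 3) (nat_lit 5) (nat_lit 0) (nat_lit 0x8766040100) (nat_lit 0xf423f7a11e7a11c7a11a00000f423f00000f423f54591437a2) .nil)))) (.leaf (.cons (nat_lit 0x1454) (nat_lit 0x1000200000003000400030000) (.cons (nat_lit 0x554) (nat_lit 0x100010001000100010000) (.cons (nat_lit 0x1540) (nat_lit 0x1000200020001000000000000) .nil))) .nil)) (.non (nat_lit 1) (nat_lit 4) (nat_lit 0x55400) (nat_lit 0x3000400030002000100000000000000000000)))) (.split (nat_lit 0xa) (nat_lit 0) (.split (nat_lit 0xa) (nat_lit 1) (.split (nat_lit 0xa) (nat_lit 2) (.split (nat_lit 0xa) (nat_lit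 3) (.split (nat_lit 0xa) (nat_lit 4) (.split (nat_lit 0xa) (nat_lit 5) (.split (nat_lit 0xa) (nat_lit 6) (.split (nat_lit 0xa) (nat_lit 7) (.split (nat_lit 0xa) (nat_lit 9) (.st (nat_lit 8) (nat_lit 1) (nat_lit 4) (nat_lit 0x154000) (nat_lit 0x10001000200010000000000000000000000000000) (nat_lit 1) (nat_lit 1) (.split (nat_lit 9) (nat_lit 8) (.split (nat_lit 0xa) (nat_lit 8) (.pd (.cons (nat_lit 0) (nat_lit 5) (nat_lit 0) (nat_lit 0x88766042110) (nat_lit 0xf423ff423f7a11d7a11b7a11900000f423ff423fb71ae1f15600000) (.cons (nat_lit 1) (nat_lit 5) (nat_lit 0) (nat_lit 0x88766042200) (nat_lit 0xf423ff423f7a11d7a11b7a11900000f423ff423fb71ae00000f423f) (.cons (nat_lit 2) (nat_lit 5) (nat_lit 0) (nat_lit 0x88766043000) (nat_lit 0xf423ff423f7a11d7a11b7a11900000f423ff423f00000f423fb71ae) (.cons (nat_lit 3) (nat_lit 5) (nat_lit 0) (nat_lit 0x88766040100) (nat_lit 0xf423ff423f7a11d7a11b7a11900000f423f00000f423f54591437a2) .nil)))) (.leaf (.cons (nat_lit 0x1454) (nat_lit 0x1000200000003000400030000) (.cons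 (nat_lit 0x554) (nat_lit 0x100010001000100010000) (.cons (nat_lit 0x1540) (nat_lit 0x1000200020001000000000000) .nil))) .nil)) (.non (nat_lit 1) (nat_lit 4) (nat_lit 0x254000) (nat_lit 0x10001000200010000000000000000000000000000))) (.non (nat_lit 1) (nat_lit 4) (nat_lit 0x194000) (nat_lit 0x10001000200010000000000000000000000000000)))) (.non (nat_lit 1) (nat_lit 4) (nat_lit 0x150000) (nat_lit 0x10001000100000000000000000000000000000000))) (.non (nat_lit 1) (nat_lit 4) (nat_lit 0x114000) (nat_lit 0x10000000100010000000000000000000000000000))) (.non (nat_lit 1) (nat_lit 4) (nat_lit 0x115000) (nat_lit 0x10000000100010001000000000000000000000000))) (.non (nat_lit 1) (nat_lit 4) (nat_lit 0x115400) (nat_lit 0x10000000100010001000100000000000000000000))) (.non (nat_lit 1) (nat_lit 6) (nat_lit 0x150500) (nat_lit 0x30001000200000000000300040000000000000000))) (.non (nat_lit 1) (nat_lit 4) (nat_lit 0x115440) (nat_lit 0x10000000100010001000100000001000000000000))) (.non (nat_lit 1) (nat_lit 4) (nat_lit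 0x115450) (nat_lit 0x10000000100010001000100000001000100000000))) (.non (nat_lit 2) (nat_lit 4) (nat_lit 0x155405) (nat_lit 0x30002000400030002000100000000000000020001))) (.non (nat_lit 1) (nat_lit 4) (nat_lit 0x155451) (nat_lit 0x40003000600050004000300000002000100000002))))

noncomputable def t758_2 : Tr := (.ex (nat_lit 9) (.split (nat_lit 9) (nat_lit 7) (.pd (.cons (nat_lit 0) (nat_lit 5) (nat_lit 0) (nat_lit 0x7766042110) (nat_lit 0xf423ff423f7a11d7a11b00000f423ff423fb71ae1f15600000) (.cons (nat_lit 1) (nat_lit 5) (nat_lit 0) (nat_lit 0x7766042200) (nat_lit 0xf423ff423f7a11d7a11b00000f423ff423fb71ae00000f423f) (.cons (nat_lit 2) (nat_lit 5) (nat_lit 0) (nat_lit 0x7766043000) (nat_lit 0xf423ff423f7a11d7a11b00000f423ff423f00000f423fb71ae) (.cons (nat_lit 3) (nat_lit 5) (nat_lit 0) (nat_lit 0x7766040100) (nat_lit 0xf423ff423f7a11d7a11b00000f423f00000f423f54591437a2) .nil)))) (.leaf (.cons (nat_lit 0x1454) (nat_lit 0x1000200000003000400030000) (.cons (nat_lit 0x554) (nat_lit 0x100010001000100010000)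 (.cons (nat_lit 0x1540) (nat_lit 0x1000200020001000000000000) (.cons (nat_lit 0x45500) (nat_lit 0x1000000020003000400030000000000000000) .nil)))) .nil)) (.non (nat_lit 1) (nat_lit 4) (nat_lit 0x95000) (nat_lit 0x1000100020001000000000000000000000000))) (.split (nat_lit 0xa) (nat_lit 0) (.split (nat_lit 0xa) (nat_lit 1) (.split (nat_lit 0xa) (nat_lit 2) (.split (nat_lit 0xa) (nat_lit 3) (.split (nat_lit 0xa) (nat_lit 4) (.split (nat_lit 0xa) (nat_lit 5) (.split (nat_lit 0xa) (nat_lit 6) (.split (nat_lit 0xa) (nat_lit 7) (.split (nat_lit 0xa) (nat_lit 8) (.split (nat_lit 0xa) (nat_lit 9) (.split (nat_lit 9) (nat_lit 7) (.split (nat_lit 5) (nat_lit 3) (.sup (nat_lit 0x300070005000b0009000700060000000000000000) (nat_lit 0x4000f00100008)) (.non (nat_lit 1) (nat_lit 4) (nat_lit 0xaa840) (nat_lit 0x1000100020002000200000002000000000000))) (.non (nat_lit 1) (nat_lit 4) (nat_lit 0x95000) (nat_lit 0x1000100020001000000000000000000000000))) (.non (nat_lit 1) (nat_lit 4) (nat_lit 0x255000) (nat_lit 0x10002000100020001000000000000000000000000)))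 (.non (nat_lit 1) (nat_lit 4) (nat_lit 0x154000) (nat_lit 0x10001000100010000000000000000000000000000))) (.non (nat_lit 1) (nat_lit 4) (nat_lit 0x144000) (nat_lit 0x10001000000010000000000000000000000000000))) (.non (nat_lit 1) (nat_lit 4) (nat_lit 0x145000) (nat_lit 0x10001000000010001000000000000000000000000))) (.non (nat_lit 1) (nat_lit 4) (nat_lit 0x145400) (nat_lit 0x10001000000010001000100000000000000000000))) (.non (nat_lit 1) (nat_lit 6) (nat_lit 0x144500) (nat_lit 0x30002000000010000000300040000000000000000))) (.non (nat_lit 1) (nat_lit 4) (nat_lit 0x145440) (nat_lit 0x10001000000010001000100000001000000000000))) (.non (nat_lit 1) (nat_lit 4) (nat_lit 0x145450) (nat_lit 0x10001000000010001000100000001000100000000))) (.non (nat_lit 2) (nat_lit 4) (nat_lit 0x155444) (nat_lit 0x20003000200040003000200000001000000010000))) (.non (nat_lit 1) (nat_lit 4) (nat_lit 0x155441) (nat_lit 0x20003000200040003000200000001000000000001))))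

noncomputable def t758_3 : Tr := (.split (nat_lit 9) (nat_lit 3) (.split (nat_lit 9) (nat_lit 4) (.split (nat_lit 9) (nat_lit 5) (.split (nat_lit 9) (nat_lit 6) (.split (nat_lit 9) (nat_lit 8) (.st (nat_lit 7) (nat_lit 1) (nat_lit 4) (nat_lit 0x55000) (nat_lit 0x1000100020001000000000000000000000000) (nat_lit 1) (nat_lit 1) (.ex (nat_lit 8) t758_2 (.split (nat_lit 0xa) (nat_lit 0) (.split (nat_lit 0xa) (nat_lit 1) (.split (nat_lit 0xa) (nat_lit 2) (.split (nat_lit 0xa) (nat_lit 3) (.split (nat_lit 0xa) (nat_lit 4) (.split (nat_lit 0xa) (nat_lit 5) (.split (nat_lit 0xa) (nat_lit 6) (.split (nat_lit 0xa) (nat_lit 7) (.split (nat_lit 0xa) (nat_lit 9) (.split (nat_lit 0xa) (nat_lit 8) (.split (nat_lit 9) (nat_lit 7) (.split (nat_lit 5) (nat_lit 3) (.sup (nat_lit 0x300050007000b0009000700060000000000000000) (nat_lit 0x4000f00100008)) (.non (nat_lit 1) (nat_lit 4) (nat_lit 0xaa840) (nat_lit 0x1000100020002000200000002000000000000))) (.non (nat_lit 1) (nat_lit 4) (nat_lit 0x95000) (nat_lit 0x1000100020001000000000000000000000000)))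 (.non (nat_lit 1) (nat_lit 4) (nat_lit 0x255000) (nat_lit 0x10001000200020001000000000000000000000000))) (.non (nat_lit 1) (nat_lit 4) (nat_lit 0x154000) (nat_lit 0x10001000100010000000000000000000000000000))) (.non (nat_lit 1) (nat_lit 4) (nat_lit 0x114000) (nat_lit 0x10000000100010000000000000000000000000000))) (.non (nat_lit 1) (nat_lit 4) (nat_lit 0x115000) (nat_lit 0x10000000100010001000000000000000000000000))) (.non (nat_lit 1) (nat_lit 4) (nat_lit 0x115400) (nat_lit 0x10000000100010001000100000000000000000000))) (.non (nat_lit 1) (nat_lit 6) (nat_lit 0x114500) (nat_lit 0x30000000200010000000300040000000000000000))) (.non (nat_lit 1) (nat_lit 4) (nat_lit 0x115440) (nat_lit 0x10000000100010001000100000001000000000000))) (.non (nat_lit 1) (nat_lit 4) (nat_lit 0x115450) (nat_lit 0x10000000100010001000100000001000100000000))) (.non (nat_lit 2) (nat_lit 4) (nat_lit 0x155444) (nat_lit 0x20002000300040003000200000001000000010000))) (.non (nat_lit 1) (nat_lit 4) (nat_lit 0x155441) (nat_lit 0x20002000300040003000200000001000000000001)))))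 (.non (nat_lit 1) (nat_lit 4) (nat_lit 0x54000) (nat_lit 0x1000100010000000000000000000000000000))) (.non (nat_lit 1) (nat_lit 4) (nat_lit 0x45000) (nat_lit 0x1000000010001000000000000000000000000))) (.non (nat_lit 1) (nat_lit 4) (nat_lit 0x45400) (nat_lit 0x1000000010001000100000000000000000000))) (.non (nat_lit 1) (nat_lit 6) (nat_lit 0x54500) (nat_lit 0x3000100020000000300040000000000000000))) (.non (nat_lit 1) (nat_lit 4) (nat_lit 0x45440) (nat_lit 0x1000000010001000100000001000000000000)))

noncomputable def t758_4 : Tr := (.split (nat_lit 9) (nat_lit 0) (.split (nat_lit 9) (nat_lit 1) (.split (nat_lit 9) (nat_lit 2) (.split (nat_lit 9) (nat_lit 3) (.split (nat_lit 9) (nat_lit 4) (.split (nat_lit 9) (nat_lit 5) (.split (nat_lit 9) (nat_lit 7) (.split (nat_lit 9) (nat_lit 8) (.st (nat_lit 6) (nat_lit 1) (nat_lit 4) (nat_lit 0x45400) (nat_lit 0x1000000010002000100000000000000000000) (nat_lit 1) (nat_lit 1) (.st (nat_lit 7) (nat_lit 1) (nat_lit 4) (nat_lit 0x55400) (nat_lit 0x1000100020002000100000000000000000000)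 (nat_lit 1) (nat_lit 1) (.st (nat_lit 8) (nat_lit 1) (nat_lit 4) (nat_lit 0x55450) (nat_lit 0x2000200030004000300000002000100000000) (nat_lit 1) (nat_lit 1) (.st (nat_lit 9) (nat_lit 1) (nat_lit 4) (nat_lit 0x55440) (nat_lit 0x2000100020003000200000001000000000000) (nat_lit 1) (nat_lit 1) (.split (nat_lit 9) (nat_lit 6) (.pd (.cons (nat_lit 0) (nat_lit 5) (nat_lit 0) (nat_lit 0x6766042110) (nat_lit 0xf423ff423fb71ae65b9700000f423ff423fb71ae1f15600000) (.cons (nat_lit 1) (nat_lit 5) (nat_lit 0) (nat_lit 0x6766042200) (nat_lit 0xf423ff423fb71ae65b9700000f423ff423fb71ae00000f423f) (.cons (nat_lit 2) (nat_lit 5) (nat_lit 0) (nat_lit 0x6766043000) (nat_lit 0xf423ff423fb71ae65b9700000f423ff423f00000f423fb71ae) (.cons (nat_lit 3) (nat_lit 5) (nat_lit 0) (nat_lit 0x6766040100) (nat_lit 0xf423ff423fb71ae65b9700000f423f00000f423f54591437a2) (.cons (nat_lit 3) (nat_lit 7) (nat_lit 0) (nat_lit 0x6805440100) (nat_lit 0xf423ff423f00000b71aea2c280473700000f423f54591437a2) .nil))))) (.leaf (.cons (nat_lit 0x1454)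 (nat_lit 0x1000200000003000400030000) (.cons (nat_lit 0x554) (nat_lit 0x100010001000100010000) (.cons (nat_lit 0x1540) (nat_lit 0x1000200020001000000000000) (.cons (nat_lit 0x45500) (nat_lit 0x1000000010002000200020000000000000000) .nil)))) .nil)) (.non (nat_lit 1) (nat_lit 4) (nat_lit 0x85400) (nat_lit 0x1000000010002000100000000000000000000))))))) (.non (nat_lit 1) (nat_lit 4) (nat_lit 0x55000) (nat_lit 0x1000100010001000000000000000000000000))) (.non (nat_lit 1) (nat_lit 4) (nat_lit 0x45000) (nat_lit 0x1000000010001000000000000000000000000))) (.non (nat_lit 1) (nat_lit 4) (nat_lit 0x41400) (nat_lit 0x1000000000001000100000000000000000000))) (.non (nat_lit 1) (nat_lit 6) (nat_lit 0x40540) (nat_lit 0x1000000000000000200020001000000000000))) (.non (nat_lit 1) (nat_lit 4) (nat_lit 0x41440) (nat_lit 0x1000000000001000100000001000000000000))) (.star (nat_lit 9) (nat_lit 2) (nat_lit 6))) (.star (nat_lit 9) (nat_lit 1) (nat_lit 6))) (.non (nat_lit 1) (nat_lit 4) (nat_lit 0x55441) (nat_lit 0x2000100020003000200000001000000000001)))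

noncomputable def t758_5 : Tr := (.pd (.cons (nat_lit 3) (nat_lit 4) (nat_lit 0) (nat_lit 0x765500100) (nat_lit 0xf423fb71aea2c28989650000000000f423f54591437a2) (.cons (nat_lit 3) (nat_lit 6) (nat_lit 0) (nat_lit 0x770440100) (nat_lit 0xf423fb71ae00000f423f5459100000f423f54591437a2) .nil)) (.ex (nat_lit 6) (.pd (.cons (nat_lit 3) (nat_lit 7) (nat_lit 0) (nat_lit 0x805440100) (nat_lit 0xf423f00000f423fb71ae1f15600000f423f54591437a2) .nil) (.ex (nat_lit 7) (.pd (.cons (nat_lit 3) (nat_lit 8) (nat_lit 0) (nat_lit 0x65440100) (nat_lit 0xf423fb71aea2c280473700000f423f54591437a2) .nil) (.ex (nat_lit 8) (.pd (.cons (nat_lit 0) (nat_lit 5) (nat_lit 0) (nat_lit 0x766042110) (nat_lit 0xf423fb71aea2c2800000f423ff423fb71ae1f15600000) (.cons (nat_lit 1) (nat_lit 5) (nat_lit 0) (nat_lit 0x766042200) (nat_lit 0xf423fb71aea2c2800000f423ff423fb71ae00000f423f) (.cons (nat_lit 2) (nat_lit 5) (nat_lit 0) (nat_lit 0x766043000) (nat_lit 0xf423fb71aea2c2800000f423ff423f00000f423fb71ae) (.cons (nat_lit 3) (nat_lit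 5) (nat_lit 0) (nat_lit 0x766040100) (nat_lit 0xf423fb71aea2c2800000f423f00000f423f54591437a2) .nil)))) (.leaf (.cons (nat_lit 0x1454) (nat_lit 0x1000200000003000400030000) (.cons (nat_lit 0x554) (nat_lit 0x100010001000100010000) (.cons (nat_lit 0x1540) (nat_lit 0x1000200020001000000000000) .nil))) .nil)) (.split (nat_lit 9) (nat_lit 0) (.split (nat_lit 9) (nat_lit 1) (.split (nat_lit 9) (nat_lit 2) (.split (nat_lit 9) (nat_lit 3) (.split (nat_lit 9) (nat_lit 4) (.split (nat_lit 9) (nat_lit 5) (.split (nat_lit 9) (nat_lit 6) (.split (nat_lit 9) (nat_lit 7) t758_1 (.non (nat_lit 1) (nat_lit 4) (nat_lit 0x54000) (nat_lit 0x1000100010000000000000000000000000000))) (.non (nat_lit 1) (nat_lit 4) (nat_lit 0x55000) (nat_lit 0x1000100010001000000000000000000000000))) (.non (nat_lit 1) (nat_lit 4) (nat_lit 0x55400) (nat_lit 0x1000100010001000100000000000000000000))) (.non (nat_lit 1) (nat_lit 6) (nat_lit 0x54500) (nat_lit 0x3000200010000000300040000000000000000))) (.non (nat_lit 1) (nat_lit 4) (nat_lit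 0x55440) (nat_lit 0x1000100010001000100000001000000000000))) (.non (nat_lit 1) (nat_lit 4) (nat_lit 0x55450) (nat_lit 0x1000100010001000100000001000100000000))) (.non (nat_lit 3) (nat_lit 4) (nat_lit 0x54014) (nat_lit 0x3000200010000000000000000000300040000))) (.non (nat_lit 3) (nat_lit 4) (nat_lit 0x50015) (nat_lit 0x2000100000000000000000000000300040003))))) (.split (nat_lit 9) (nat_lit 0) (.split (nat_lit 9) (nat_lit 1) (.split (nat_lit 9) (nat_lit 2) t758_3 (.non (nat_lit 1) (nat_lit 4) (nat_lit 0x45450) (nat_lit 0x1000000010001000100000001000100000000))) (.non (nat_lit 2) (nat_lit 4) (nat_lit 0x55445) (nat_lit 0x3000200040003000200000001000000020001))) (.non (nat_lit 2) (nat_lit 4) (nat_lit 0x55445) (nat_lit 0x3000200040003000200000001000000010002))))) t758_4))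

noncomputable def t758_6 : Tr := (.ex (nat_lit 1) (.split (nat_lit 8) (nat_lit 7) t758_5 (.split (nat_lit 8) (nat_lit 7) (.pd (.cons (nat_lit 3) (nat_lit 4) (nat_lit 0) (nat_lit 0x765500100) (nat_lit 0xf423f7a11e7a11c7a11a0000000000f423f54591437a2) (.cons (nat_lit 3) (nat_lit 6) (nat_lit 0) (nat_lit 0x770440100) (nat_lit 0xf423f7a11e00000f423f5459100000f423f54591437a2) .nil)) (.st (nat_lit 6) (nat_lit 1) (nat_lit 4) (nat_lit 0x25400) (nat_lit 0x100020002000100000000000000000000) (nat_lit 1) (nat_lit 1) (.pd (.cons (nat_lit 3) (nat_lit 7) (nat_lit 0) (nat_lit 0x805440100) (nat_lit 0xf423f00000f423fb71ae1f15600000f423f54591437a2) .nil) (.st (nat_lit 7) (nat_lit 1) (nat_lit 4) (nat_lit 0x25000) (nat_lit 0x100020001000000000000000000000000) (nat_lit 1) (nat_lit 1) (.pd (.cons (nat_lit 3) (nat_lit 8) (nat_lit 0) (nat_lit 0x65440100) (nat_lit 0xf423fb71aea2c280473700000f423f54591437a2) .nil) (.st (nat_lit 8) (nat_lit 1) (nat_lit 4) (nat_lit 0x25400) (nat_lit 0x200030002000100000000000000000000) (nat_lit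 2) (nat_lit 1) (.pd (.cons (nat_lit 0) (nat_lit 5) (nat_lit 0) (nat_lit 0x766042110) (nat_lit 0xf423f7a11e7a11c00000f423ff423fb71ae1f15600000) (.cons (nat_lit 1) (nat_lit 5) (nat_lit 0) (nat_lit 0x766042200) (nat_lit 0xf423f7a11e7a11c00000f423ff423fb71ae00000f423f) (.cons (nat_lit 2) (nat_lit 5) (nat_lit 0) (nat_lit 0x766043000) (nat_lit 0xf423f7a11e7a11c00000f423ff423f00000f423fb71ae) (.cons (nat_lit 3) (nat_lit 5) (nat_lit 0) (nat_lit 0x766040100) (nat_lit 0xf423f7a11e7a11c00000f423f00000f423f54591437a2) .nil)))) (.leaf (.cons (nat_lit 0x1454) (nat_lit 0x1000200000003000400030000) (.cons (nat_lit 0x554) (nat_lit 0x100010001000100010000) (.cons (nat_lit 0x1540) (nat_lit 0x1000200020001000000000000) .nil))) .nil)))))))) (.non (nat_lit 1) (nat_lit 4) (nat_lit 0x15440) (nat_lit 0x300040003000200000001000000000000)))) (.split (nat_lit 9) (nat_lit 0) (.split (nat_lit 9) (nat_lit 2) (.split (nat_lit 9) (nat_lit 3) (.split (nat_lit 9) (nat_lit 4) (.split (nat_lit 9) (nat_lit 5) (.split (nat_lit 9)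 (nat_lit 6) (.split (nat_lit 9) (nat_lit 7) (.split (nat_lit 9) (nat_lit 8) (.unj (nat_lit 0x40015) (nat_lit 0x1000000000000000000000000000200020001) (nat_lit 0x15500) (nat_lit 0x100020003000400030000000000000000)) (.sup (nat_lit 0x3000000000000000000000000000300050003) (nat_lit 0x3000500040001000000000000))) (.non (nat_lit 2) (nat_lit 4) (nat_lit 0x55445) (nat_lit 0x3000200040003000200000001000000020001))) (.star (nat_lit 9) (nat_lit 1) (nat_lit 6))) (.non (nat_lit 1) (nat_lit 6) (nat_lit 0x40540) (nat_lit 0x1000000000000000200020001000000000000))) (.star (nat_lit 9) (nat_lit 1) (nat_lit 4))) (.non (nat_lit 1) (nat_lit 6) (nat_lit 0x40550) (nat_lit 0x1000000000000000200020002000100000000))) (.non (nat_lit 1) (nat_lit 6) (nat_lit 0x40550) (nat_lit 0x1000000000000000400030003000200000000))) (.non (nat_lit 2) (nat_lit 4) (nat_lit 0x40005) (nat_lit 0x1000000000000000000000000000000010001))))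

noncomputable def t758_7 : Tr := (.ex (nat_lit 0) (.ex (nat_lit 1) (.pd (.cons (nat_lit 0) (nat_lit 5) (nat_lit 0) (nat_lit 0x8766042110) (nat_lit 0xf423fb71aea2c289896500000f423ff423fb71ae1f15600000) (.cons (nat_lit 3) (nat_lit 8) (nat_lit 0) (nat_lit 0x65440100) (nat_lit 0xf423f00000f423fb71aea2c280473700000f423f5459106711) .nil)) (.split (nat_lit 5) (nat_lit 3) (.leaf (.cons (nat_lit 0x1454) (nat_lit 0x1000200000003000400030000) (.cons (nat_lit 0x554) (nat_lit 0x100010001000100010000) (.cons (nat_lit 0x1540) (nat_lit 0x1000200020001000000000000) (.cons (nat_lit 0x50015) (nat_lit 0x2000100000000000000000000000300040003) .nil)))) (.cons (nat_lit 0x111100) (nat_lit 0x1000010) (nat_lit 0x10) (nat_lit 0x102300) .nil)) (.non (nat_lit 1) (nat_lit 4) (nat_lit 0xa850) (nat_lit 0x10002000300000004000200000000)))) (.split (nat_lit 0xa) (nat_lit 0) (.split (nat_lit 0xa) (nat_lit 2) (.split (nat_lit 0xa) (nat_lit 3) (.split (nat_lit 0xa) (nat_lit 4) (.split (nat_lit 0xa) (nat_lit 5) (.split (nat_lit 0xa)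 (nat_lit 6) (.split (nat_lit 0xa) (nat_lit 7) (.split (nat_lit 0xa) (nat_lit 8) (.split (nat_lit 0xa) (nat_lit 9) (.unj (nat_lit 0x100015) (nat_lit 0x10000000000000000000000000000000200020001) (nat_lit 0x15500) (nat_lit 0x100020003000400030000000000000000)) (.non (nat_lit 2) (nat_lit 4) (nat_lit 0x140005) (nat_lit 0x10001000000000000000000000000000000010001))) (.non (nat_lit 1) (nat_lit 4) (nat_lit 0x155451) (nat_lit 0x30004000600050004000300000002000100000002))) (.non (nat_lit 1) (nat_lit 4) (nat_lit 0x155441) (nat_lit 0x20002000300040003000200000001000000000001))) (.star (nat_lit 0xa) (nat_lit 1) (nat_lit 6))) (.non (nat_lit 1) (nat_lit 4) (nat_lit 0x155451) (nat_lit 0x30002000300040005000600000004000200000001))) (.star (nat_lit 0xa) (nat_lit 1) (nat_lit 4))) (.non (nat_lit 1) (nat_lit 6) (nat_lit 0x100550) (nat_lit 0x10000000000000000000200020002000100000000))) (.non (nat_lit 1) (nat_lit 6) (nat_lit 0x100550) (nat_lit 0x10000000000000000000400030003000200000000))) (.non (nat_lit 2) (nat_lit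 4) (nat_lit 0x100005) (nat_lit 0x10000000000000000000000000000000000010001)))) (.split (nat_lit 0xa) (nat_lit 1) (.split (nat_lit 0xa) (nat_lit 2) (.split (nat_lit 0xa) (nat_lit 3) (.split (nat_lit 0xa) (nat_lit 4) (.split (nat_lit 0xa) (nat_lit 5) (.split (nat_lit 0xa) (nat_lit 6) (.split (nat_lit 0xa) (nat_lit 7) (.split (nat_lit 0xa) (nat_lit 8) (.split (nat_lit 0xa) (nat_lit 9) (.sup (nat_lit 0x3000500040001000000000000) (nat_lit 0x30003000000000000000000000000000300050005)) (.non (nat_lit 1) (nat_lit 4) (nat_lit 0x140001) (nat_lit 0x10001000000000000000000000000000000000001))) (.non (nat_lit 1) (nat_lit 4) (nat_lit 0x150001) (nat_lit 0x10001000100000000000000000000000000000001))) (.non (nat_lit 1) (nat_lit 4) (nat_lit 0x154001) (nat_lit 0x10001000100010000000000000000000000000001))) (.non (nat_lit 1) (nat_lit 4) (nat_lit 0x155450) (nat_lit 0x20001000200030004000300000002000100000000))) (.non (nat_lit 1) (nat_lit 4) (nat_lit 0x155401) (nat_lit 0x10001000100010001000100000000000000000001)))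 (.non (nat_lit 1) (nat_lit 6) (nat_lit 0x100540) (nat_lit 0x10000000000000000000200020001000000000000))) (.non (nat_lit 1) (nat_lit 4) (nat_lit 0x155441) (nat_lit 0x10001000100010001000100000001000000000001))) (.non (nat_lit 1) (nat_lit 4) (nat_lit 0x155451) (nat_lit 0x10001000100010001000100000001000100000001))) (.non (nat_lit 2) (nat_lit 4) (nat_lit 0x100005) (nat_lit 0x10000000000000000000000000000000000010001))))

noncomputable def t758_8 : Tr := (.split (nat_lit 9) (nat_lit 4) (.split (nat_lit 9) (nat_lit 5) (.split (nat_lit 9) (nat_lit 6) (.split (nat_lit 9) (nat_lit 7) (.split (nat_lit 9) (nat_lit 8) (.split (nat_lit 9) (nat_lit 0) (.split (nat_lit 8) (nat_lit 7) (.split (nat_lit 5) (nat_lit 3) (.sup (nat_lit 0x6000c0012001800130000000000000000) (nat_lit 0xb000000000000000000000001001a00200015)) (.non (nat_lit 1) (nat_lit 4) (nat_lit 0xa850) (nat_lit 0x10002000300000004000200000000))) (.split (nat_lit 8) (nat_lit 7) (.split (nat_lit 5) (nat_lit 3) (.sup (nat_lit 0x300040005000500040000000000000000)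 (nat_lit 0x3000000000000000000000001000700080005)) (.non (nat_lit 1) (nat_lit 4) (nat_lit 0x1a840) (nat_lit 0x100010001000100000001000000000000))) (.non (nat_lit 1) (nat_lit 4) (nat_lit 0x15440) (nat_lit 0x300040003000200000001000000000000)))) (.unj (nat_lit 0x40015) (nat_lit 0x1000000000000000000000000000100010001) (nat_lit 0x15500) (nat_lit 0x100020003000400030000000000000000))) (.st (nat_lit 6) (nat_lit 1) (nat_lit 4) (nat_lit 0x55450) (nat_lit 0x1000200030004000300000002000100000000) (nat_lit 1) (nat_lit 2) (.st (nat_lit 7) (nat_lit 1) (nat_lit 4) (nat_lit 0x55441) (nat_lit 0x2000300040003000200000001000000000001) (nat_lit 1) (nat_lit 2) (.st (nat_lit 8) (nat_lit 1) (nat_lit 4) (nat_lit 0x55451) (nat_lit 0x4000600050004000300000002000100000002) (nat_lit 1) (nat_lit 3) (.split (nat_lit 9) (nat_lit 0) (.split (nat_lit 8) (nat_lit 7) (.split (nat_lit 9) (nat_lit 8) (.pd (.cons (nat_lit 1) (nat_lit 5) (nat_lit 0) (nat_lit 0x987042200) (nat_lit 0x98965a2c28b71aef423f00000f423ff423fb71ae00000927bd)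 (.cons (nat_lit 2) (nat_lit 5) (nat_lit 0) (nat_lit 0x987043000) (nat_lit 0x98965a2c28b71aef423f00000f423ff423f00000f423f5572c) .nil)) (.st (nat_lit 9) (nat_lit 2) (nat_lit 4) (nat_lit 0x55445) (nat_lit 0x6000500040003000200000001000000020004) (nat_lit 1) (nat_lit 3) t758_7)) (.non (nat_lit 1) (nat_lit 4) (nat_lit 0x6a001) (nat_lit 0x4000300020001000000000000000000000002))) (.non (nat_lit 1) (nat_lit 4) (nat_lit 0xa5400) (nat_lit 0x1000200030002000100000000000000000000))) (.non (nat_lit 2) (nat_lit 4) (nat_lit 0xa8005) (nat_lit 0x3000200010000000000000000000000020004))))))) (.non (nat_lit 2) (nat_lit 4) (nat_lit 0x55445) (nat_lit 0x3000200040003000200000001000000010002))) (.non (nat_lit 1) (nat_lit 4) (nat_lit 0x55441) (nat_lit 0x2000100020003000200000001000000000001))) (.non (nat_lit 1) (nat_lit 4) (nat_lit 0x45451) (nat_lit 0x2000000010002000300000002000100000001))) (.non (nat_lit 1) (nat_lit 6) (nat_lit 0x40540) (nat_lit 0x1000000000000000200020001000000000000)))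

noncomputable def t758_9 : Tr := (.ex (nat_lit 8) (.split (nat_lit 9) (nat_lit 8) (.pd (.cons (nat_lit 0) (nat_lit 5) (nat_lit 0) (nat_lit 0x8766042110) (nat_lit 0xf423fb71aea2c289896500000f423ff423fb71ae1f15600000) (.cons (nat_lit 1) (nat_lit 5) (nat_lit 0) (nat_lit 0x8766042200) (nat_lit 0xf423fb71aea2c289896500000f423ff423fb71ae00000f423f) (.cons (nat_lit 2) (nat_lit 5) (nat_lit 0) (nat_lit 0x8766043000) (nat_lit 0xf423fb71aea2c289896500000f423ff423f00000f423fb71ae) (.cons (nat_lit 3) (nat_lit 5) (nat_lit 0) (nat_lit 0x8766040100) (nat_lit 0xf423fb71aea2c289896500000f423f00000f423f54591437a2) .nil)))) (.leaf (.cons (nat_lit 0x1501) (nat_lit 0x1000200020000000000000001) (.cons (nat_lit 0x1415) (nat_lit 0x1000200000000000300040003) (.cons (nat_lit 0x515) (nat_lit 0x100010000000100010001) .nil))) .nil)) (.split (nat_lit 9) (nat_lit 8) (.pd (.cons (nat_lit 0) (nat_lit 5) (nat_lit 0) (nat_lit 0x8766042110) (nat_lit 0xf423f7a11e7a11c7a11a00000f423ff423fb71ae1f15600000) (.cons (nat_lit 1) (nat_lit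 5) (nat_lit 0) (nat_lit 0x8766042200) (nat_lit 0xf423f7a11e7a11c7a11a00000f423ff423fb71ae00000f423f) (.cons (nat_lit 2) (nat_lit 5) (nat_lit 0) (nat_lit 0x8766043000) (nat_lit 0xf423f7a11e7a11c7a11a00000f423ff423f00000f423fb71ae) (.cons (nat_lit 3) (nat_lit 5) (nat_lit 0) (nat_lit 0x8766040100) (nat_lit 0xf423f7a11e7a11c7a11a00000f423f00000f423f54591437a2) .nil)))) (.leaf (.cons (nat_lit 0x1501) (nat_lit 0x1000200020000000000000001) (.cons (nat_lit 0x1415) (nat_lit 0x1000200000000000300040003) (.cons (nat_lit 0x515) (nat_lit 0x100010000000100010001) .nil))) .nil)) (.non (nat_lit 1) (nat_lit 4) (nat_lit 0x55400) (nat_lit 0x3000400030002000100000000000000000000)))) (.split (nat_lit 0xa) (nat_lit 0) (.split (nat_lit 0xa) (nat_lit 1) (.split (nat_lit 0xa) (nat_lit 2) (.split (nat_lit 0xa) (nat_lit 3) (.split (nat_lit 0xa) (nat_lit 4) (.split (nat_lit 0xa) (nat_lit 5) (.split (nat_lit 0xa) (nat_lit 6) (.split (nat_lit 0xa) (nat_lit 7) (.split (nat_lit 0xa) (nat_lit 9) (.st (nat_lit 8) (nat_lit 1)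 (nat_lit 4) (nat_lit 0x154000) (nat_lit 0x10001000200010000000000000000000000000000) (nat_lit 1) (nat_lit 1) (.split (nat_lit 9) (nat_lit 8) (.split (nat_lit 0xa) (nat_lit 8) (.pd (.cons (nat_lit 0) (nat_lit 5) (nat_lit 0) (nat_lit 0x88766042110) (nat_lit 0xf423ff423f7a11d7a11b7a11900000f423ff423fb71ae1f15600000) (.cons (nat_lit 1) (nat_lit 5) (nat_lit 0) (nat_lit 0x88766042200) (nat_lit 0xf423ff423f7a11d7a11b7a11900000f423ff423fb71ae00000f423f) (.cons (nat_lit 2) (nat_lit 5) (nat_lit 0) (nat_lit 0x88766043000) (nat_lit 0xf423ff423f7a11d7a11b7a11900000f423ff423f00000f423fb71ae) (.cons (nat_lit 3) (nat_lit 5) (nat_lit 0) (nat_lit 0x88766040100) (nat_lit 0xf423ff423f7a11d7a11b7a11900000f423f00000f423f54591437a2) .nil)))) (.leaf (.cons (nat_lit 0x1501) (nat_lit 0x1000200020000000000000001) (.cons (nat_lit 0x1415) (nat_lit 0x1000200000000000300040003) (.cons (nat_lit 0x515) (nat_lit 0x100010000000100010001) .nil))) .nil)) (.non (nat_lit 1) (nat_lit 4) (nat_lit 0x254000) (nat_lit 0x10001000200010000000000000000000000000000)))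 (.non (nat_lit 1) (nat_lit 4) (nat_lit 0x194000) (nat_lit 0x10001000200010000000000000000000000000000)))) (.non (nat_lit 1) (nat_lit 4) (nat_lit 0x150000) (nat_lit 0x10001000100000000000000000000000000000000))) (.non (nat_lit 1) (nat_lit 4) (nat_lit 0x114000) (nat_lit 0x10000000100010000000000000000000000000000))) (.non (nat_lit 1) (nat_lit 4) (nat_lit 0x115000) (nat_lit 0x10000000100010001000000000000000000000000))) (.non (nat_lit 1) (nat_lit 4) (nat_lit 0x115400) (nat_lit 0x10000000100010001000100000000000000000000))) (.non (nat_lit 1) (nat_lit 6) (nat_lit 0x150500) (nat_lit 0x30001000200000000000300040000000000000000))) (.non (nat_lit 1) (nat_lit 4) (nat_lit 0x155450) (nat_lit 0x30002000400030002000100000002000100000000))) (.non (nat_lit 1) (nat_lit 4) (nat_lit 0x155450) (nat_lit 0x30002000400030002000100000001000200000000))) (.non (nat_lit 2) (nat_lit 4) (nat_lit 0x115405) (nat_lit 0x10000000100010001000100000000000000010001))) (.non (nat_lit 1) (nat_lit 4) (nat_lit 0x115401) (nat_lit 0x10000000100010001000100000000000000000001))))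

noncomputable def t758_10 : Tr := (.ex (nat_lit 9) (.split (nat_lit 9) (nat_lit 7) (.pd (.cons (nat_lit 0) (nat_lit 5) (nat_lit 0) (nat_lit 0x7766042110) (nat_lit 0xf423ff423f7a11d7a11b00000f423ff423fb71ae1f15600000) (.cons (nat_lit 1) (nat_lit 5) (nat_lit 0) (nat_lit 0x7766042200) (nat_lit 0xf423ff423f7a11d7a11b00000f423ff423fb71ae00000f423f) (.cons (nat_lit 2) (nat_lit 5) (nat_lit 0) (nat_lit 0x7766043000) (nat_lit 0xf423ff423f7a11d7a11b00000f423ff423f00000f423fb71ae) (.cons (nat_lit 3) (nat_lit 5) (nat_lit 0) (nat_lit 0x7766040100) (nat_lit 0xf423ff423f7a11d7a11b00000f423f00000f423f54591437a2) .nil)))) (.leaf (.cons (nat_lit 0x45500) (nat_lit 0x1000000020003000400030000000000000000) (.cons (nat_lit 0x1501) (nat_lit 0x1000200020000000000000001) (.cons (nat_lit 0x1415) (nat_lit 0x1000200000000000300040003) (.cons (nat_lit 0x515) (nat_lit 0x100010000000100010001) .nil)))) .nil)) (.non (nat_lit 1) (nat_lit 4) (nat_lit 0x95000) (nat_lit 0x1000100020001000000000000000000000000))) (.split (nat_lit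 0xa) (nat_lit 0) (.split (nat_lit 0xa) (nat_lit 1) (.split (nat_lit 0xa) (nat_lit 2) (.split (nat_lit 0xa) (nat_lit 3) (.split (nat_lit 0xa) (nat_lit 4) (.split (nat_lit 0xa) (nat_lit 5) (.split (nat_lit 0xa) (nat_lit 6) (.split (nat_lit 0xa) (nat_lit 7) (.split (nat_lit 0xa) (nat_lit 8) (.split (nat_lit 0xa) (nat_lit 9) (.split (nat_lit 9) (nat_lit 7) (.split (nat_lit 5) (nat_lit 0) (.sup (nat_lit 0x300070005000b0009000700060000000000000000) (nat_lit 0x80010000f0004)) (.non (nat_lit 1) (nat_lit 4) (nat_lit 0xaa801) (nat_lit 0x1000100020002000200000000000000000002))) (.non (nat_lit 1) (nat_lit 4) (nat_lit 0x95000) (nat_lit 0x1000100020001000000000000000000000000))) (.non (nat_lit 1) (nat_lit 4) (nat_lit 0x255000) (nat_lit 0x10002000100020001000000000000000000000000))) (.non (nat_lit 1) (nat_lit 4) (nat_lit 0x154000) (nat_lit 0x10001000100010000000000000000000000000000))) (.non (nat_lit 1) (nat_lit 4) (nat_lit 0x144000) (nat_lit 0x10001000000010000000000000000000000000000))) (.non (nat_lit 1)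 (nat_lit 4) (nat_lit 0x145000) (nat_lit 0x10001000000010001000000000000000000000000))) (.non (nat_lit 1) (nat_lit 4) (nat_lit 0x145400) (nat_lit 0x10001000000010001000100000000000000000000))) (.non (nat_lit 1) (nat_lit 6) (nat_lit 0x144500) (nat_lit 0x30002000000010000000300040000000000000000))) (.non (nat_lit 1) (nat_lit 4) (nat_lit 0x155441) (nat_lit 0x20003000200040003000200000001000000000001))) (.non (nat_lit 1) (nat_lit 4) (nat_lit 0x155411) (nat_lit 0x20003000200040003000200000000000100000001))) (.non (nat_lit 2) (nat_lit 4) (nat_lit 0x145405) (nat_lit 0x10001000000010001000100000000000000010001))) (.non (nat_lit 1) (nat_lit 4) (nat_lit 0x145401) (nat_lit 0x10001000000010001000100000000000000000001))))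

noncomputable def t758_11 : Tr := (.split (nat_lit 9) (nat_lit 3) (.split (nat_lit 9) (nat_lit 4) (.split (nat_lit 9) (nat_lit 5) (.split (nat_lit 9) (nat_lit 6) (.split (nat_lit 9) (nat_lit 8) (.st (nat_lit 7) (nat_lit 1) (nat_lit 4) (nat_lit 0x55000) (nat_lit 0x1000100020001000000000000000000000000) (nat_lit 1) (nat_lit 1) (.ex (nat_lit 8) t758_10 (.split (nat_lit 0xa) (nat_lit 0) (.split (nat_lit 0xa) (nat_lit 1) (.split (nat_lit 0xa) (nat_lit 2) (.split (nat_lit 0xa) (nat_lit 3) (.split (nat_lit 0xa) (nat_lit 4) (.split (nat_lit 0xa) (nat_lit 5) (.split (nat_lit 0xa) (nat_lit 6) (.split (nat_lit 0xa) (nat_lit 7) (.split (nat_lit 0xa) (nat_lit 9) (.split (nat_lit 0xa) (nat_lit 8) (.split (nat_lit 9) (nat_lit 7) (.split (nat_lit 5) (nat_lit 0) (.sup (nat_lit 0x300050007000b0009000700060000000000000000) (nat_lit 0x80010000f0004)) (.non (nat_lit 1) (nat_lit 4) (nat_lit 0xaa801) (nat_lit 0x1000100020002000200000000000000000002))) (.non (nat_lit 1) (nat_lit 4) (nat_lit 0x95000) (nat_lit 0x1000100020001000000000000000000000000)))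 (.non (nat_lit 1) (nat_lit 4) (nat_lit 0x255000) (nat_lit 0x10001000200020001000000000000000000000000))) (.non (nat_lit 1) (nat_lit 4) (nat_lit 0x154000) (nat_lit 0x10001000100010000000000000000000000000000))) (.non (nat_lit 1) (nat_lit 4) (nat_lit 0x114000) (nat_lit 0x10000000100010000000000000000000000000000))) (.non (nat_lit 1) (nat_lit 4) (nat_lit 0x115000) (nat_lit 0x10000000100010001000000000000000000000000))) (.non (nat_lit 1) (nat_lit 4) (nat_lit 0x115400) (nat_lit 0x10000000100010001000100000000000000000000))) (.non (nat_lit 1) (nat_lit 6) (nat_lit 0x114500) (nat_lit 0x30000000200010000000300040000000000000000))) (.non (nat_lit 1) (nat_lit 4) (nat_lit 0x155441) (nat_lit 0x20002000300040003000200000001000000000001))) (.non (nat_lit 1) (nat_lit 4) (nat_lit 0x155411) (nat_lit 0x20002000300040003000200000000000100000001))) (.non (nat_lit 2) (nat_lit 4) (nat_lit 0x115405) (nat_lit 0x10000000100010001000100000000000000010001))) (.non (nat_lit 1) (nat_lit 4) (nat_lit 0x115401) (nat_lit 0x10000000100010001000100000000000000000001)))))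 (.non (nat_lit 1) (nat_lit 4) (nat_lit 0x54000) (nat_lit 0x1000100010000000000000000000000000000))) (.non (nat_lit 1) (nat_lit 4) (nat_lit 0x45000) (nat_lit 0x1000000010001000000000000000000000000))) (.non (nat_lit 1) (nat_lit 4) (nat_lit 0x45400) (nat_lit 0x1000000010001000100000000000000000000))) (.non (nat_lit 1) (nat_lit 6) (nat_lit 0x54500) (nat_lit 0x3000100020000000300040000000000000000))) (.non (nat_lit 1) (nat_lit 4) (nat_lit 0x55451) (nat_lit 0x3000200040003000200000002000100000001)))

noncomputable def t758_12 : Tr := (.split (nat_lit 9) (nat_lit 0) (.split (nat_lit 9) (nat_lit 1) (.split (nat_lit 9) (nat_lit 2) (.split (nat_lit 9) (nat_lit 3) (.split (nat_lit 9) (nat_lit 4) (.split (nat_lit 9) (nat_lit 5) (.split (nat_lit 9) (nat_lit 7) (.split (nat_lit 9) (nat_lit 8) (.st (nat_lit 6) (nat_lit 1) (nat_lit 4) (nat_lit 0x45400) (nat_lit 0x1000000010002000100000000000000000000) (nat_lit 1) (nat_lit 1) (.st (nat_lit 7) (nat_lit 1) (nat_lit 4) (nat_lit 0x55400) (nat_lit 0x1000100020002000100000000000000000000)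 (nat_lit 1) (nat_lit 1) (.st (nat_lit 8) (nat_lit 2) (nat_lit 4) (nat_lit 0x55405) (nat_lit 0x2000200030004000300000000000000010002) (nat_lit 1) (nat_lit 1) (.st (nat_lit 9) (nat_lit 1) (nat_lit 4) (nat_lit 0x55401) (nat_lit 0x2000100020003000200000000000000000001) (nat_lit 1) (nat_lit 1) (.split (nat_lit 9) (nat_lit 6) (.pd (.cons (nat_lit 0) (nat_lit 5) (nat_lit 0) (nat_lit 0x6766042110) (nat_lit 0xf423ff423fb71ae65b9700000f423ff423fb71ae1f15600000) (.cons (nat_lit 0) (nat_lit 7) (nat_lit 0) (nat_lit 0x6805442110) (nat_lit 0xf423ff423f00000b71aea2c2804737f423fb71ae1f15600000) (.cons (nat_lit 1) (nat_lit 5) (nat_lit 0) (nat_lit 0x6766042200) (nat_lit 0xf423ff423fb71ae65b9700000f423ff423fb71ae00000f423f) (.cons (nat_lit 2) (nat_lit 5) (nat_lit 0) (nat_lit 0x6766043000) (nat_lit 0xf423ff423fb71ae65b9700000f423ff423f00000f423fb71ae) (.cons (nat_lit 3) (nat_lit 5) (nat_lit 0) (nat_lit 0x6766040100) (nat_lit 0xf423ff423fb71ae65b9700000f423f00000f423f54591437a2) .nil))))) (.leaf (.cons (nat_lit 0x45500)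 (nat_lit 0x1000000010002000200020000000000000000) (.cons (nat_lit 0x1501) (nat_lit 0x1000200020000000000000001) (.cons (nat_lit 0x1415) (nat_lit 0x1000200000000000300040003) (.cons (nat_lit 0x515) (nat_lit 0x100010000000100010001) .nil)))) .nil)) (.non (nat_lit 1) (nat_lit 4) (nat_lit 0x85400) (nat_lit 0x1000000010002000100000000000000000000))))))) (.non (nat_lit 1) (nat_lit 4) (nat_lit 0x55000) (nat_lit 0x1000100010001000000000000000000000000))) (.non (nat_lit 1) (nat_lit 4) (nat_lit 0x45000) (nat_lit 0x1000000010001000000000000000000000000))) (.non (nat_lit 1) (nat_lit 4) (nat_lit 0x41400) (nat_lit 0x1000000000001000100000000000000000000))) (.non (nat_lit 1) (nat_lit 6) (nat_lit 0x40501) (nat_lit 0x1000000000000000200020000000000000001))) (.non (nat_lit 1) (nat_lit 4) (nat_lit 0x55441) (nat_lit 0x2000100020003000200000001000000000001))) (.star (nat_lit 9) (nat_lit 2) (nat_lit 6))) (.star (nat_lit 9) (nat_lit 1) (nat_lit 6))) (.non (nat_lit 1) (nat_lit 4) (nat_lit 0x41401) (nat_lit 0x1000000000001000100000000000000000001)))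

noncomputable def t758_13 : Tr := (.ex (nat_lit 6) (.pd (.cons (nat_lit 0) (nat_lit 7) (nat_lit 0) (nat_lit 0x805442110) (nat_lit 0xf423f00000f423fb71ae1f156f423fb71ae1f15600000) .nil) (.ex (nat_lit 7) (.pd (.cons (nat_lit 0) (nat_lit 8) (nat_lit 0) (nat_lit 0x65442110) (nat_lit 0xf423fb71aea2c2804737f423fb71ae1f15600000) .nil) (.ex (nat_lit 8) (.pd (.cons (nat_lit 0) (nat_lit 5) (nat_lit 0) (nat_lit 0x766042110) (nat_lit 0xf423fb71aea2c2800000f423ff423fb71ae1f15600000) (.cons (nat_lit 1) (nat_lit 5) (nat_lit 0) (nat_lit 0x766042200) (nat_lit 0xf423fb71aea2c2800000f423ff423fb71ae00000f423f) (.cons (nat_lit 2) (nat_lit 5) (nat_lit 0) (nat_lit 0x766043000) (nat_lit 0xf423fb71aea2c2800000f423ff423f00000f423fb71ae) (.cons (nat_lit 3) (nat_lit 5) (nat_lit 0) (nat_lit 0x766040100) (nat_lit 0xf423fb71aea2c2800000f423f00000f423f54591437a2) .nil)))) (.leaf (.cons (nat_lit 0x1501) (nat_lit 0x1000200020000000000000001) (.cons (nat_lit 0x1415) (nat_lit 0x1000200000000000300040003) (.cons (nat_lit 0x515)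 (nat_lit 0x100010000000100010001) .nil))) .nil)) (.split (nat_lit 9) (nat_lit 0) (.split (nat_lit 9) (nat_lit 1) (.split (nat_lit 9) (nat_lit 2) (.split (nat_lit 9) (nat_lit 3) (.split (nat_lit 9) (nat_lit 4) (.split (nat_lit 9) (nat_lit 5) (.split (nat_lit 9) (nat_lit 6) (.split (nat_lit 9) (nat_lit 7) t758_9 (.non (nat_lit 1) (nat_lit 4) (nat_lit 0x54000) (nat_lit 0x1000100010000000000000000000000000000))) (.non (nat_lit 1) (nat_lit 4) (nat_lit 0x55000) (nat_lit 0x1000100010001000000000000000000000000))) (.non (nat_lit 1) (nat_lit 4) (nat_lit 0x55400) (nat_lit 0x1000100010001000100000000000000000000))) (.non (nat_lit 1) (nat_lit 6) (nat_lit 0x54500) (nat_lit 0x3000200010000000300040000000000000000))) (.non (nat_lit 0) (nat_lit 4) (nat_lit 0x50054) (nat_lit 0x2000100000000000000000003000400030000))) (.non (nat_lit 0) (nat_lit 4) (nat_lit 0x54014) (nat_lit 0x3000200010000000000000000000400030000))) (.non (nat_lit 2) (nat_lit 4) (nat_lit 0x55405) (nat_lit 0x1000100010001000100000000000000010001)))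 (.non (nat_lit 1) (nat_lit 4) (nat_lit 0x55401) (nat_lit 0x1000100010001000100000000000000000001))))) (.split (nat_lit 9) (nat_lit 0) (.split (nat_lit 9) (nat_lit 1) (.split (nat_lit 9) (nat_lit 2) t758_11 (.non (nat_lit 1) (nat_lit 4) (nat_lit 0x55451) (nat_lit 0x3000200040003000200000001000200000001))) (.non (nat_lit 2) (nat_lit 4) (nat_lit 0x45405) (nat_lit 0x1000000010001000100000000000000010001))) (.non (nat_lit 1) (nat_lit 4) (nat_lit 0x45401) (nat_lit 0x1000000010001000100000000000000000001))))) t758_12)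

noncomputable def t758_14 : Tr := (.pd (.cons (nat_lit 1) (nat_lit 5) (nat_lit 0) (nat_lit 0x3987042200) (nat_lit 0x98965a2c28b71aef423f00000f423f927bd8e6a200000f423f) (.cons (nat_lit 2) (nat_lit 5) (nat_lit 0) (nat_lit 0x3987043000) (nat_lit 0x98965a2c28b71aef423f00000f423f927bd00000f423fb71ae) (.cons (nat_lit 3) (nat_lit 5) (nat_lit 0) (nat_lit 0x8766040100) (nat_lit 0xf423fb71aea2c289896500000f423f00000f423f54591437a2) .nil))) (.st (nat_lit 9) (nat_lit 1) (nat_lit 4) (nat_lit 0x55451) (nat_lit 0x6000500040003000200000004000200000001) (nat_lit 1) (nat_lit 3) (.ex (nat_lit 3) (.pd (.cons (nat_lit 0) (nat_lit 8) (nat_lit 0) (nat_lit 0x3065442110) (nat_lit 0xf423f00000f423fb71aea2c2804737b71aea2c280473700000) .nil) (.split (nat_lit 5) (nat_lit 0) (.leaf (.cons (nat_lit 0x50054) (nat_lit 0x2000100000000000000000003000400030000) (.cons (nat_lit 0x1501) (nat_lit 0x1000200020000000000000001) (.cons (nat_lit 0x1415) (nat_lit 0x1000200000000000300040003) (.cons (nat_lit 0x515) (nat_lit 0x100010000000100010001)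 .nil)))) (.cons (nat_lit 0x110011) (nat_lit 0x1000100) (nat_lit 0x10) (nat_lit 0x100032) .nil)) (.non (nat_lit 1) (nat_lit 6) (nat_lit 0x501) (nat_lit 0x100010000000000000001)))) (.split (nat_lit 0xa) (nat_lit 0) (.split (nat_lit 0xa) (nat_lit 1) (.split (nat_lit 0xa) (nat_lit 2) (.split (nat_lit 0xa) (nat_lit 4) (.split (nat_lit 0xa) (nat_lit 5) (.split (nat_lit 0xa) (nat_lit 6) (.split (nat_lit 0xa) (nat_lit 7) (.split (nat_lit 0xa) (nat_lit 8) (.split (nat_lit 0xa) (nat_lit 9) (.sup (nat_lit 0x3000500040000000000000001) (nat_lit 0x30003000000000000000000000005000500030000)) (.non (nat_lit 1) (nat_lit 4) (nat_lit 0x140040) (nat_lit 0x10001000000000000000000000001000000000000))) (.non (nat_lit 1) (nat_lit 4) (nat_lit 0x150040) (nat_lit 0x10001000100000000000000000001000000000000))) (.non (nat_lit 1) (nat_lit 4) (nat_lit 0x154040) (nat_lit 0x10001000100010000000000000001000000000000))) (.non (nat_lit 1) (nat_lit 4) (nat_lit 0x155040) (nat_lit 0x10001000100010001000000000001000000000000))) (.non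 (nat_lit 1) (nat_lit 4) (nat_lit 0x155440) (nat_lit 0x10001000100010001000100000001000000000000))) (.non (nat_lit 1) (nat_lit 6) (nat_lit 0x140540) (nat_lit 0x30001000000000000000300040002000000000000))) (.non (nat_lit 1) (nat_lit 4) (nat_lit 0x100050) (nat_lit 0x10000000000000000000000000001000100000000))) (.non (nat_lit 2) (nat_lit 4) (nat_lit 0x155445) (nat_lit 0x10001000100010001000100000001000000010001))) (.non (nat_lit 1) (nat_lit 4) (nat_lit 0x155441) (nat_lit 0x10001000100010001000100000001000000000001))))))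

noncomputable def t758_15 : Tr := (.split (nat_lit 9) (nat_lit 0) (.split (nat_lit 9) (nat_lit 1) (.split (nat_lit 9) (nat_lit 2) (.split (nat_lit 9) (nat_lit 4) (.split (nat_lit 9) (nat_lit 5) (.split (nat_lit 9) (nat_lit 6) (.split (nat_lit 9) (nat_lit 7) (.split (nat_lit 9) (nat_lit 8) (.split (nat_lit 9) (nat_lit 3) (.split (nat_lit 8) (nat_lit 7) (.split (nat_lit 5) (nat_lit 0) (.sup (nat_lit 0x6000c0012001800130000000000000000) (nat_lit 0xb0000000000000000000000150020001a0001)) (.non (nat_lit 1) (nat_lit 6) (nat_lit 0x501) (nat_lit 0x100010000000000000001))) (.split (nat_lit 8) (nat_lit 7) (.split (nat_lit 5) (nat_lit 0) (.sup (nat_lit 0x300040005000500040000000000000000) (nat_lit 0x3000000000000000000000005000800070001)) (.non (nat_lit 1) (nat_lit 4) (nat_lit 0x1a801) (nat_lit 0x100010001000100000000000000000001))) (.non (nat_lit 1) (nat_lit 4) (nat_lit 0x15401) (nat_lit 0x300040003000200000000000000000001)))) (.unj (nat_lit 0x40054) (nat_lit 0x1000000000000000000000001000100010000) (nat_lit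 0x15500) (nat_lit 0x100020003000400030000000000000000))) (.st (nat_lit 6) (nat_lit 1) (nat_lit 4) (nat_lit 0x55451) (nat_lit 0x3000400050006000400000002000100000002) (nat_lit 1) (nat_lit 3) (.st (nat_lit 7) (nat_lit 1) (nat_lit 4) (nat_lit 0x55441) (nat_lit 0x2000300040003000200000001000000000001) (nat_lit 1) (nat_lit 2) (.st (nat_lit 8) (nat_lit 1) (nat_lit 4) (nat_lit 0x55450) (nat_lit 0x3000400030002000100000002000100000000) (nat_lit 1) (nat_lit 2) (.split (nat_lit 9) (nat_lit 3) (.split (nat_lit 8) (nat_lit 7) (.split (nat_lit 9) (nat_lit 8) t758_14 (.non (nat_lit 1) (nat_lit 4) (nat_lit 0x6a040) (nat_lit 0x4000300020001000000000002000000000000))) (.non (nat_lit 1) (nat_lit 4) (nat_lit 0xa5400) (nat_lit 0x1000200030002000100000000000000000000))) (.non (nat_lit 1) (nat_lit 4) (nat_lit 0xa8050) (nat_lit 0x3000200010000000000000004000200000000))))))) (.non (nat_lit 1) (nat_lit 4) (nat_lit 0x55451) (nat_lit 0x3000200040003000200000002000100000001))) (.non (nat_lit 1) (nat_lit 4) (nat_lit 0x55441)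 (nat_lit 0x2000100020003000200000001000000000001))) (.non (nat_lit 1) (nat_lit 4) (nat_lit 0x55451) (nat_lit 0x3000100020003000400000002000100000002))) (.non (nat_lit 1) (nat_lit 6) (nat_lit 0x40550) (nat_lit 0x3000000000000000300040002000100000000))) (.non (nat_lit 1) (nat_lit 4) (nat_lit 0x40050) (nat_lit 0x1000000000000000000000001000100000000))) (.non (nat_lit 2) (nat_lit 6) (nat_lit 0x40505) (nat_lit 0x1000000000000000400030000000000020003))) (.non (nat_lit 1) (nat_lit 6) (nat_lit 0x40541) (nat_lit 0x2000000000000000400030001000000000003)))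

noncomputable def t758_16 : Tr := (.ex (nat_lit 2) (.ex (nat_lit 3) (.split (nat_lit 8) (nat_lit 7) (.pd (.cons (nat_lit 0) (nat_lit 4) (nat_lit 0) (nat_lit 0x765502110) (nat_lit 0xf423fb71aea2c289896500000f423fb71ae1f15600000) (.cons (nat_lit 0) (nat_lit 6) (nat_lit 0) (nat_lit 0x770442110) (nat_lit 0xf423fb71ae00000f423f54591f423fb71ae1f15600000) .nil)) t758_13) (.split (nat_lit 8) (nat_lit 7) (.pd (.cons (nat_lit 0) (nat_lit 4) (nat_lit 0) (nat_lit 0x765502110) (nat_lit 0xf423f7a11e7a11c7a11a00000f423fb71ae1f15600000) (.cons (nat_lit 0) (nat_lit 6) (nat_lit 0) (nat_lit 0x770442110) (nat_lit 0xf423f7a11e00000f423f54591f423fb71ae1f15600000) .nil)) (.st (nat_lit 6) (nat_lit 1) (nat_lit 4) (nat_lit 0x25400) (nat_lit 0x100020002000100000000000000000000) (nat_lit 1) (nat_lit 1) (.pd (.cons (nat_lit 0) (nat_lit 7) (nat_lit 0) (nat_lit 0x805442110) (nat_lit 0xf423f00000f423fb71ae1f156f423fb71ae1f15600000) .nil) (.st (nat_lit 7) (nat_lit 1) (nat_lit 4) (nat_lit 0x25000) (nat_lit 0x100020001000000000000000000000000)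 (nat_lit 1) (nat_lit 1) (.pd (.cons (nat_lit 0) (nat_lit 8) (nat_lit 0) (nat_lit 0x65442110) (nat_lit 0xf423fb71aea2c2804737f423fb71ae1f15600000) .nil) (.st (nat_lit 8) (nat_lit 1) (nat_lit 4) (nat_lit 0x25400) (nat_lit 0x200030002000100000000000000000000) (nat_lit 2) (nat_lit 1) (.pd (.cons (nat_lit 0) (nat_lit 5) (nat_lit 0) (nat_lit 0x766042110) (nat_lit 0xf423f7a11e7a11c00000f423ff423fb71ae1f15600000) (.cons (nat_lit 1) (nat_lit 5) (nat_lit 0) (nat_lit 0x766042200) (nat_lit 0xf423f7a11e7a11c00000f423ff423fb71ae00000f423f) (.cons (nat_lit 2) (nat_lit 5) (nat_lit 0) (nat_lit 0x766043000) (nat_lit 0xf423f7a11e7a11c00000f423ff423f00000f423fb71ae) (.cons (nat_lit 3) (nat_lit 5) (nat_lit 0) (nat_lit 0x766040100) (nat_lit 0xf423f7a11e7a11c00000f423f00000f423f54591437a2) .nil)))) (.leaf (.cons (nat_lit 0x1501) (nat_lit 0x1000200020000000000000001) (.cons (nat_lit 0x1415) (nat_lit 0x1000200000000000300040003) (.cons (nat_lit 0x515) (nat_lit 0x100010000000100010001) .nil))) .nil)))))))) (.non (nat_lit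 1) (nat_lit 4) (nat_lit 0x15401) (nat_lit 0x300040003000200000000000000000001)))) t758_15) (.split (nat_lit 9) (nat_lit 0) (.split (nat_lit 9) (nat_lit 1) (.split (nat_lit 9) (nat_lit 3) (.split (nat_lit 9) (nat_lit 4) (.split (nat_lit 9) (nat_lit 5) (.split (nat_lit 9) (nat_lit 6) (.split (nat_lit 9) (nat_lit 7) (.split (nat_lit 9) (nat_lit 8) (.unj (nat_lit 0x40054) (nat_lit 0x1000000000000000000000001000200020000) (nat_lit 0x15500) (nat_lit 0x100020003000400030000000000000000)) (.sup (nat_lit 0x3000500040000000000000001) (nat_lit 0x3000000000000000000000003000500030000))) (.non (nat_lit 1) (nat_lit 4) (nat_lit 0x55451) (nat_lit 0x3000200040003000200000001000200000001))) (.star (nat_lit 9) (nat_lit 2) (nat_lit 6))) (.non (nat_lit 1) (nat_lit 4) (nat_lit 0x55451) (nat_lit 0x3000100020003000400000001000200000002))) (.star (nat_lit 9) (nat_lit 2) (nat_lit 4))) (.non (nat_lit 1) (nat_lit 4) (nat_lit 0x40050) (nat_lit 0x1000000000000000000000001000100000000))) (.non (nat_lit 2) (nat_lit 6) (nat_lit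 0x40505) (nat_lit 0x1000000000000000400030000000000020003))) (.non (nat_lit 1) (nat_lit 6) (nat_lit 0x40511) (nat_lit 0x2000000000000000400030000000100000003))))

noncomputable def t758_17 : Tr := (.pd (.cons (nat_lit 1) (nat_lit 5) (nat_lit 0) (nat_lit 0x737042200) (nat_lit 0xf423f7a11df423f00000f423f7a11b7a11900000f423f) (.cons (nat_lit 2) (nat_lit 5) (nat_lit 0) (nat_lit 0x737043000) (nat_lit 0xf423f7a11df423f00000f423f7a11b00000f423fb71ae) (.cons (nat_lit 3) (nat_lit 5) (nat_lit 0) (nat_lit 0x766040100) (nat_lit 0xf423fb71aea2c2800000f423f00000f423f54591437a2) .nil))) (.ex (nat_lit 5) (.pd (.cons (nat_lit 0) (nat_lit 7) (nat_lit 0) (nat_lit 0x805442110) (nat_lit 0xf423f00000f423fb71ae1f156f423fb71ae1f15600000) (.cons (nat_lit 1) (nat_lit 7) (nat_lit 0) (nat_lit 0x805442200) (nat_lit 0xf423f00000f423fb71ae1f156f423fb71ae00000f423f) (.cons (nat_lit 2) (nat_lit 7) (nat_lit 0) (nat_lit 0x805443000) (nat_lit 0xf423f00000f423fb71ae1f156f423f00000f423fb71ae) (.cons (nat_lit 3) (nat_lit 7) (nat_lit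 0) (nat_lit 0x805440100) (nat_lit 0xf423f00000f423fb71ae1f15600000f423f54591437a2) (.cons (nat_lit 3) (nat_lit 8) (nat_lit 0) (nat_lit 0x65440100) (nat_lit 0xf423fb71aea2c280473700000f423f54591437a2) .nil))))) (.leaf (.cons (nat_lit 0x14054) (nat_lit 0x100020000000000000003000400030000) (.cons (nat_lit 0x5540) (nat_lit 0x20003000400030001000000000000) .nil)) (.cons (nat_lit 0x111001100) (nat_lit 0x100010) (nat_lit 8) (nat_lit 0x201003400) (.cons (nat_lit 0x110001100) (nat_lit 0x1000010) (nat_lit 2) (nat_lit 0x320001000) (.cons (nat_lit 0x110001000) (nat_lit 0x1000100) (nat_lit 1) (nat_lit 0x210000000) .nil))))) (.split (nat_lit 9) (nat_lit 0) (.split (nat_lit 9) (nat_lit 1) (.split (nat_lit 9) (nat_lit 2) (.split (nat_lit 9) (nat_lit 3) (.split (nat_lit 9) (nat_lit 4) (.split (nat_lit 9) (nat_lit 6) (.split (nat_lit 9) (nat_lit 7) (.split (nat_lit 9) (nat_lit 8) (.unj (nat_lit 0x55) (nat_lit 0x1000200020001) (nat_lit 0x41500) (nat_lit 0x1000000000001000200020000000000000000)) (.non (nat_lit 1)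 (nat_lit 4) (nat_lit 0x55400) (nat_lit 0x1000100010001000100000000000000000000))) (.non (nat_lit 1) (nat_lit 4) (nat_lit 0x45400) (nat_lit 0x1000000010001000100000000000000000000))) (.non (nat_lit 1) (nat_lit 4) (nat_lit 0x41400) (nat_lit 0x1000000000001000100000000000000000000))) (.non (nat_lit 1) (nat_lit 6) (nat_lit 0x40500) (nat_lit 0x1000000000000000100010000000000000000))) (.non (nat_lit 1) (nat_lit 4) (nat_lit 0x45440) (nat_lit 0x1000000010001000100000001000000000000))) (.non (nat_lit 1) (nat_lit 4) (nat_lit 0x45450) (nat_lit 0x1000000010001000100000001000100000000))) (.non (nat_lit 2) (nat_lit 6) (nat_lit 0x40505) (nat_lit 0x3000000000000000400030000000000020001))) (.non (nat_lit 2) (nat_lit 6) (nat_lit 0x40505) (nat_lit 0x3000000000000000400030000000000010002)))))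

noncomputable def t758_18 : Tr := (.ex (nat_lit 2) (.split (nat_lit 8) (nat_lit 7) (.pd (.cons (nat_lit 3) (nat_lit 4) (nat_lit 0) (nat_lit 0x765500100) (nat_lit 0xf423fb71aea2c28989650000000000f423f54591437a2) (.cons (nat_lit 3) (nat_lit 6) (nat_lit 0) (nat_lit 0x770440100) (nat_lit 0xf423fb71ae00000f423f5459100000f423f54591437a2) .nil)) (.ex (nat_lit 4) (.split (nat_lit 7) (nat_lit 3) t758_17 (.non (nat_lit 1) (nat_lit 4) (nat_lit 0x2a040) (nat_lit 0x100020001000000000002000000000000))) (.split (nat_lit 9) (nat_lit 0) (.split (nat_lit 9) (nat_lit 1) (.split (nat_lit 9) (nat_lit 2) (.split (nat_lit 9) (nat_lit 3) (.split (nat_lit 9) (nat_lit 5) (.split (nat_lit 9) (nat_lit 6) (.split (nat_lit 9) (nat_lit 7) (.split (nat_lit 9) (nat_lit 8) (.unj (nat_lit 0x55) (nat_lit 0x1000200020001) (nat_lit 0x41500) (nat_lit 0x1000000000001000200020000000000000000)) (.non (nat_lit 1) (nat_lit 4) (nat_lit 0x55450) (nat_lit 0x1000200030002000100000002000100000000))) (.non (nat_lit 1) (nat_lit 4) (nat_lit 0x55040)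 (nat_lit 0x1000100020001000000000001000000000000))) (.non (nat_lit 1) (nat_lit 4) (nat_lit 0x55440) (nat_lit 0x1000100020002000100000001000000000000))) (.non (nat_lit 1) (nat_lit 6) (nat_lit 0x40500) (nat_lit 0x1000000000000000100010000000000000000))) (.non (nat_lit 1) (nat_lit 4) (nat_lit 0x55050) (nat_lit 0x1000100020001000000000002000100000000))) (.star (nat_lit 9) (nat_lit 2) (nat_lit 4))) (.star (nat_lit 9) (nat_lit 1) (nat_lit 4))) (.non (nat_lit 2) (nat_lit 6) (nat_lit 0x40505) (nat_lit 0x3000000000000000300040000000000010002))))) (.non (nat_lit 1) (nat_lit 4) (nat_lit 0x25040) (nat_lit 0x100020001000000000001000000000000))) (.split (nat_lit 9) (nat_lit 3) (.split (nat_lit 9) (nat_lit 4) (.split (nat_lit 9) (nat_lit 5) (.split (nat_lit 9) (nat_lit 6) (.split (nat_lit 9) (nat_lit 7) (.split (nat_lit 9) (nat_lit 8) (.split (nat_lit 9) (nat_lit 0) (.split (nat_lit 9) (nat_lit 1) (.unj (nat_lit 0x40015) (nat_lit 0x1000000000000000000000000000200020001) (nat_lit 0x15500) (nat_lit 0x100020003000400030000000000000000))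 (.unj (nat_lit 0x40014) (nat_lit 0x1000000000000000000000000000100010000) (nat_lit 0x15500) (nat_lit 0x100020003000400030000000000000000))) (.split (nat_lit 9) (nat_lit 1) (.unj (nat_lit 0x40015) (nat_lit 0x1000000000000000000000000000100010001) (nat_lit 0x15500) (nat_lit 0x100020003000400030000000000000000)) (.non (nat_lit 2) (nat_lit 4) (nat_lit 0x40005) (nat_lit 0x1000000000000000000000000000000010001)))) (.non (nat_lit 1) (nat_lit 4) (nat_lit 0x54050) (nat_lit 0x1000100010000000000000001000100000000))) (.non (nat_lit 1) (nat_lit 4) (nat_lit 0x55040) (nat_lit 0x1000100020001000000000001000000000000))) (.star (nat_lit 9) (nat_lit 2) (nat_lit 6))) (.non (nat_lit 1) (nat_lit 4) (nat_lit 0x45450) (nat_lit 0x1000000010001000100000001000100000000))) (.star (nat_lit 9) (nat_lit 2) (nat_lit 4))) (.non (nat_lit 1) (nat_lit 4) (nat_lit 0x40050) (nat_lit 0x1000000000000000000000001000100000000))))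

noncomputable def t758_19 : Tr := (.st (nat_lit 7) (nat_lit 1) (nat_lit 4) (nat_lit 0x15040) (nat_lit 0x100020001000000000001000000000000) (nat_lit 1) (nat_lit 1) (.st (nat_lit 8) (nat_lit 1) (nat_lit 4) (nat_lit 0x15450) (nat_lit 0x200030002000100000002000100000000) (nat_lit 1) (nat_lit 1) (.ex (nat_lit 0) (.ex (nat_lit 1) t758_18 (.split (nat_lit 9) (nat_lit 0) (.split (nat_lit 9) (nat_lit 3) (.split (nat_lit 9) (nat_lit 4) (.split (nat_lit 9) (nat_lit 5) (.split (nat_lit 9) (nat_lit 6) (.split (nat_lit 9) (nat_lit 7) (.split (nat_lit 9) (nat_lit 8) (.split (nat_lit 9) (nat_lit 2) (.unj (nat_lit 0x40015) (nat_lit 0x1000000000000000000000000000200020001) (nat_lit 0x15500) (nat_lit 0x100020003000400030000000000000000)) (.unj (nat_lit 0x40014) (nat_lit 0x1000000000000000000000000000100010000) (nat_lit 0x15500) (nat_lit 0x100020003000400030000000000000000))) (.non (nat_lit 1) (nat_lit 4) (nat_lit 0x55450) (nat_lit 0x1000200030002000100000002000100000000))) (.non (nat_lit 1) (nat_lit 4) (nat_lit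 0x55040) (nat_lit 0x1000100020001000000000001000000000000))) (.star (nat_lit 9) (nat_lit 1) (nat_lit 6))) (.non (nat_lit 2) (nat_lit 6) (nat_lit 0x40505) (nat_lit 0x3000000000000000400030000000000020001))) (.star (nat_lit 9) (nat_lit 1) (nat_lit 4))) (.non (nat_lit 1) (nat_lit 4) (nat_lit 0x55050) (nat_lit 0x1000100020001000000000002000100000000))) (.non (nat_lit 2) (nat_lit 4) (nat_lit 0x40005) (nat_lit 0x1000000000000000000000000000000010001)))) (.split (nat_lit 9) (nat_lit 1) (.split (nat_lit 9) (nat_lit 3) (.split (nat_lit 9) (nat_lit 4) (.split (nat_lit 9) (nat_lit 5) (.split (nat_lit 9) (nat_lit 6) (.split (nat_lit 9) (nat_lit 7) (.split (nat_lit 9) (nat_lit 8) (.split (nat_lit 9) (nat_lit 2) (.sup (nat_lit 0x7000e00170020001a0000000000000000) (nat_lit 0x700000000000000000000000100110014000d)) (.unj (nat_lit 0x40015) (nat_lit 0x1000000000000000000000000000100010001) (nat_lit 0x15500) (nat_lit 0x100020003000400030000000000000000))) (.non (nat_lit 1) (nat_lit 4) (nat_lit 0x55450) (nat_lit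 0x1000200030002000100000002000100000000))) (.non (nat_lit 1) (nat_lit 4) (nat_lit 0x55040) (nat_lit 0x1000100020001000000000001000000000000))) (.non (nat_lit 1) (nat_lit 4) (nat_lit 0x55440) (nat_lit 0x1000100020002000100000001000000000000))) (.non (nat_lit 2) (nat_lit 6) (nat_lit 0x40505) (nat_lit 0x3000000000000000400030000000000010002))) (.non (nat_lit 2) (nat_lit 6) (nat_lit 0x40505) (nat_lit 0x3000000000000000300040000000000010002))) (.non (nat_lit 1) (nat_lit 4) (nat_lit 0x55050) (nat_lit 0x1000100020001000000000002000100000000))) (.non (nat_lit 2) (nat_lit 4) (nat_lit 0x40005) (nat_lit 0x1000000000000000000000000000000010001))))))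

noncomputable def t758_20 : Tr := (.split (nat_lit 5) (nat_lit 0) (.st (nat_lit 3) (nat_lit 1) (nat_lit 4) (nat_lit 0x15050) (nat_lit 0x100020001000000000002000100000000) (nat_lit 1) (nat_lit 1) (.st (nat_lit 6) (nat_lit 1) (nat_lit 4) (nat_lit 0x15440) (nat_lit 0x100020002000100000001000000000000) (nat_lit 1) (nat_lit 1) t758_19)) (.st (nat_lit 0) (nat_lit 2) (nat_lit 4) (nat_lit 0x15445) (nat_lit 0x100020002000200000001000000010002) (nat_lit 1) (nat_lit 1) (.st (nat_lit 1) (nat_lit 2) (nat_lit 6) (nat_lit 0x505) (nat_lit 0x400030000000000020003) (nat_lit 1) (nat_lit 1) (.st (nat_lit 2) (nat_lit 1) (nat_lit 4) (nat_lit 0x15451) (nat_lit 0x200040003000200000003000200000001) (nat_lit 1) (nat_lit 1) (.st (nat_lit 3) (nat_lit 1) (nat_lit 4) (nat_lit 0x15050) (nat_lit 0x100020001000000000002000100000000) (nat_lit 1) (nat_lit 1) (.st (nat_lit 4) (nat_lit 1) (nat_lit 6) (nat_lit 0x501) (nat_lit 0x200020000000000000001) (nat_lit 1) (nat_lit 1) (.st (nat_lit 5) (nat_lit 1) (nat_lit 4) (nat_lit 0x15441)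 (nat_lit 0x100020002000200000001000000000001) (nat_lit 1) (nat_lit 1) (.st (nat_lit 6) (nat_lit 1) (nat_lit 4) (nat_lit 0x15440) (nat_lit 0x100020002000100000001000000000000) (nat_lit 1) (nat_lit 1) (.pd (.cons (nat_lit 0) (nat_lit 7) (nat_lit 0) (nat_lit 0x805442110) (nat_lit 0xf423f00000f423fb71ae1f156f423fb71ae1f15600000) .nil) (.st (nat_lit 7) (nat_lit 1) (nat_lit 4) (nat_lit 0x15040) (nat_lit 0x100020001000000000001000000000000) (nat_lit 1) (nat_lit 1) (.st (nat_lit 8) (nat_lit 1) (nat_lit 4) (nat_lit 0x15450) (nat_lit 0x200030002000100000002000100000000) (nat_lit 1) (nat_lit 1) (.split (nat_lit 7) (nat_lit 3) (.split (nat_lit 8) (nat_lit 7) (.pd (.cons (nat_lit 1) (nat_lit 5) (nat_lit 0) (nat_lit 0x737042200) (nat_lit 0xf423f7a11df423f00000f423f7a11b7a11900000f423f) (.cons (nat_lit 2) (nat_lit 5) (nat_lit 0) (nat_lit 0x737043000) (nat_lit 0xf423f7a11df423f00000f423f7a11b00000f423fb71ae) (.cons (nat_lit 3) (nat_lit 5) (nat_lit 0) (nat_lit 0x766040100) (nat_lit 0xf423fb71aea2c2800000f423f00000f423f54591437a2)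 .nil))) (.split (nat_lit 5) (nat_lit 0) (.leaf (.cons (nat_lit 0x14054) (nat_lit 0x100020000000000000003000400030000) (.cons (nat_lit 0x5540) (nat_lit 0x20003000400030001000000000000) (.cons (nat_lit 0x1501) (nat_lit 0x1000200020000000000000001) (.cons (nat_lit 0x1415) (nat_lit 0x1000200000000000300040003) (.cons (nat_lit 0x515) (nat_lit 0x100010000000100010001) .nil))))) (.cons (nat_lit 0x111101011) (nat_lit 0x10100) (nat_lit 0xa) (nat_lit 0x203401065) .nil)) (.non (nat_lit 1) (nat_lit 4) (nat_lit 0x2a881) (nat_lit 0x100020002000200000001000000000002)))) (.non (nat_lit 1) (nat_lit 4) (nat_lit 0x25040) (nat_lit 0x100020001000000000001000000000000))) (.non (nat_lit 1) (nat_lit 4) (nat_lit 0x2a040) (nat_lit 0x100020001000000000002000000000000))))))))))))))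

noncomputable def t758_21 : Tr := (.pd (.cons (nat_lit 0) (nat_lit 5) (nat_lit 0) (nat_lit 0x766042110) (nat_lit 0xf423fb71aea2c2800000f423ff423fb71ae1f15600000) (.cons (nat_lit 1) (nat_lit 5) (nat_lit 0) (nat_lit 0x707042200) (nat_lit 0xf423f7a11df423f00000f423ff423fb71ae000007a11b) (.cons (nat_lit 2) (nat_lit 5) (nat_lit 0) (nat_lit 0x707043000) (nat_lit 0xf423f7a11df423f00000f423ff423f00000f423f3d08a) .nil))) (.ex (nat_lit 5) (.pd (.cons (nat_lit 0) (nat_lit 7) (nat_lit 0) (nat_lit 0x805442110) (nat_lit 0xf423f00000f423fb71ae1f156f423fb71ae1f15600000) (.cons (nat_lit 0) (nat_lit 8) (nat_lit 0) (nat_lit 0x65442110) (nat_lit 0xf423fb71aea2c2804737f423fb71ae1f15600000) (.cons (nat_lit 1) (nat_lit 7) (nat_lit 0) (nat_lit 0x805442200) (nat_lit 0xf423f00000f423fb71ae1f156f423fb71ae00000f423f) (.cons (nat_lit 2) (nat_lit 7) (nat_lit 0) (nat_lit 0x805443000) (nat_lit 0xf423f00000f423fb71ae1f156f423f00000f423fb71ae) (.cons (nat_lit 3) (nat_lit 7) (nat_lit 0) (nat_lit 0x805440100) (nat_lit 0xf423f00000f423fb71ae1f15600000f423f54591437a2)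 .nil))))) (.leaf (.cons (nat_lit 0x5501) (nat_lit 0x20003000400030000000000000001) (.cons (nat_lit 0x14015) (nat_lit 0x100020000000000000000000300040003) .nil)) (.cons (nat_lit 0x111100001) (nat_lit 0x10010) (nat_lit 8) (nat_lit 0x203400001) (.cons (nat_lit 0x111000001) (nat_lit 0x100010) (nat_lit 7) (nat_lit 0x302000001) (.cons (nat_lit 0x110000001) (nat_lit 0x1000010) (nat_lit 1) (nat_lit 0x210000000) (.cons (nat_lit 0x110000011) (nat_lit 0x1000100) (nat_lit 2) (nat_lit 0x320000001) .nil)))))) (.split (nat_lit 9) (nat_lit 0) (.split (nat_lit 9) (nat_lit 1) (.split (nat_lit 9) (nat_lit 2) (.split (nat_lit 9) (nat_lit 3) (.split (nat_lit 9) (nat_lit 4) (.split (nat_lit 9) (nat_lit 6) (.split (nat_lit 9) (nat_lit 7) (.split (nat_lit 9) (nat_lit 8) (.unj (nat_lit 0x55) (nat_lit 0x1000200020001) (nat_lit 0x41500) (nat_lit 0x1000000000001000200020000000000000000)) (.non (nat_lit 1) (nat_lit 4) (nat_lit 0x55400) (nat_lit 0x1000100010001000100000000000000000000))) (.non (nat_lit 1) (nat_lit 4) (nat_lit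 0x45400) (nat_lit 0x1000000010001000100000000000000000000))) (.non (nat_lit 1) (nat_lit 4) (nat_lit 0x41400) (nat_lit 0x1000000000001000100000000000000000000))) (.non (nat_lit 1) (nat_lit 6) (nat_lit 0x40500) (nat_lit 0x1000000000000000100010000000000000000))) (.non (nat_lit 1) (nat_lit 6) (nat_lit 0x40550) (nat_lit 0x3000000000000000400030002000100000000))) (.non (nat_lit 1) (nat_lit 6) (nat_lit 0x40550) (nat_lit 0x3000000000000000400030001000200000000))) (.non (nat_lit 2) (nat_lit 4) (nat_lit 0x45405) (nat_lit 0x1000000010001000100000000000000010001))) (.non (nat_lit 1) (nat_lit 4) (nat_lit 0x45401) (nat_lit 0x1000000010001000100000000000000000001)))))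

noncomputable def t758_22 : Tr := (.ex (nat_lit 3) (.split (nat_lit 8) (nat_lit 7) (.pd (.cons (nat_lit 0) (nat_lit 4) (nat_lit 0) (nat_lit 0x765502110) (nat_lit 0xf423fb71aea2c289896500000f423fb71ae1f15600000) (.cons (nat_lit 0) (nat_lit 6) (nat_lit 0) (nat_lit 0x770442110) (nat_lit 0xf423fb71ae00000f423f54591f423fb71ae1f15600000) .nil)) (.ex (nat_lit 4) (.split (nat_lit 7) (nat_lit 0) t758_21 (.non (nat_lit 1) (nat_lit 4) (nat_lit 0x2a001) (nat_lit 0x100020001000000000000000000000002))) (.split (nat_lit 9) (nat_lit 0) (.split (nat_lit 9) (nat_lit 1) (.split (nat_lit 9) (nat_lit 2) (.split (nat_lit 9) (nat_lit 3) (.split (nat_lit 9) (nat_lit 5) (.split (nat_lit 9) (nat_lit 6) (.split (nat_lit 9) (nat_lit 7) (.split (nat_lit 9) (nat_lit 8) (.unj (nat_lit 0x55) (nat_lit 0x1000200020001) (nat_lit 0x41500) (nat_lit 0x1000000000001000200020000000000000000)) (.non (nat_lit 1) (nat_lit 6) (nat_lit 0x54500) (nat_lit 0x3000200010000000300040000000000000000))) (.non (nat_lit 1) (nat_lit 4) (nat_lit 0x55001)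 (nat_lit 0x1000100020001000000000000000000000001))) (.non (nat_lit 1) (nat_lit 4) (nat_lit 0x55401) (nat_lit 0x1000100020002000100000000000000000001))) (.non (nat_lit 1) (nat_lit 6) (nat_lit 0x40500) (nat_lit 0x1000000000000000100010000000000000000))) (.non (nat_lit 1) (nat_lit 6) (nat_lit 0x40550) (nat_lit 0x3000000000000000300040002000100000000))) (.star (nat_lit 9) (nat_lit 2) (nat_lit 4))) (.star (nat_lit 9) (nat_lit 1) (nat_lit 4))) (.non (nat_lit 1) (nat_lit 6) (nat_lit 0x44501) (nat_lit 0x3000000010000000300040000000000000002))))) (.non (nat_lit 1) (nat_lit 4) (nat_lit 0x25001) (nat_lit 0x100020001000000000000000000000001))) (.split (nat_lit 9) (nat_lit 0) (.split (nat_lit 9) (nat_lit 2) (.split (nat_lit 9) (nat_lit 4) (.split (nat_lit 9) (nat_lit 5) (.split (nat_lit 9) (nat_lit 6) (.split (nat_lit 9) (nat_lit 7) (.split (nat_lit 9) (nat_lit 8) (.split (nat_lit 9) (nat_lit 1) (.sup (nat_lit 0x7000e00170020001a0000000000000000) (nat_lit 0x700000000000000000000000d001400110001)) (.unj (nat_lit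 0x40054) (nat_lit 0x1000000000000000000000001000100010000) (nat_lit 0x15500) (nat_lit 0x100020003000400030000000000000000))) (.non (nat_lit 2) (nat_lit 4) (nat_lit 0x55405) (nat_lit 0x1000200030002000100000000000000010002))) (.non (nat_lit 1) (nat_lit 4) (nat_lit 0x55001) (nat_lit 0x1000100020001000000000000000000000001))) (.non (nat_lit 1) (nat_lit 4) (nat_lit 0x55401) (nat_lit 0x1000100020002000100000000000000000001))) (.non (nat_lit 1) (nat_lit 6) (nat_lit 0x40550) (nat_lit 0x3000000000000000400030002000100000000))) (.non (nat_lit 1) (nat_lit 6) (nat_lit 0x40550) (nat_lit 0x3000000000000000300040002000100000000))) (.non (nat_lit 1) (nat_lit 4) (nat_lit 0x40050) (nat_lit 0x1000000000000000000000001000100000000))) (.non (nat_lit 2) (nat_lit 4) (nat_lit 0x55005) (nat_lit 0x1000100020001000000000000000000010002))))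

noncomputable def t758_23 : Tr := (.st (nat_lit 8) (nat_lit 2) (nat_lit 4) (nat_lit 0x15405) (nat_lit 0x200030002000100000000000000010002) (nat_lit 1) (nat_lit 1) (.ex (nat_lit 1) (.ex (nat_lit 2) t758_22 (.split (nat_lit 9) (nat_lit 0) (.split (nat_lit 9) (nat_lit 3) (.split (nat_lit 9) (nat_lit 4) (.split (nat_lit 9) (nat_lit 5) (.split (nat_lit 9) (nat_lit 6) (.split (nat_lit 9) (nat_lit 7) (.split (nat_lit 9) (nat_lit 8) (.split (nat_lit 9) (nat_lit 1) (.unj (nat_lit 0x40054) (nat_lit 0x1000000000000000000000001000200020000) (nat_lit 0x15500) (nat_lit 0x100020003000400030000000000000000)) (.unj (nat_lit 0x40014) (nat_lit 0x1000000000000000000000000000100010000) (nat_lit 0x15500) (nat_lit 0x100020003000400030000000000000000))) (.non (nat_lit 2) (nat_lit 4) (nat_lit 0x55405) (nat_lit 0x1000200030002000100000000000000010002))) (.non (nat_lit 1) (nat_lit 4) (nat_lit 0x55001) (nat_lit 0x1000100020001000000000000000000000001))) (.star (nat_lit 9) (nat_lit 2) (nat_lit 6))) (.non (nat_lit 1) (nat_lit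 6) (nat_lit 0x40550) (nat_lit 0x3000000000000000400030001000200000000))) (.star (nat_lit 9) (nat_lit 2) (nat_lit 4))) (.non (nat_lit 1) (nat_lit 4) (nat_lit 0x40050) (nat_lit 0x1000000000000000000000001000100000000))) (.non (nat_lit 2) (nat_lit 4) (nat_lit 0x55005) (nat_lit 0x1000100020001000000000000000000010002)))) (.split (nat_lit 9) (nat_lit 0) (.split (nat_lit 9) (nat_lit 4) (.split (nat_lit 9) (nat_lit 5) (.split (nat_lit 9) (nat_lit 6) (.split (nat_lit 9) (nat_lit 7) (.split (nat_lit 9) (nat_lit 8) (.split (nat_lit 9) (nat_lit 2) (.split (nat_lit 9) (nat_lit 3) (.unj (nat_lit 0x40054) (nat_lit 0x1000000000000000000000001000200020000) (nat_lit 0x15500) (nat_lit 0x100020003000400030000000000000000)) (.unj (nat_lit 0x40054) (nat_lit 0x1000000000000000000000001000100010000) (nat_lit 0x15500) (nat_lit 0x100020003000400030000000000000000))) (.split (nat_lit 9) (nat_lit 3) (.unj (nat_lit 0x40014) (nat_lit 0x1000000000000000000000000000100010000) (nat_lit 0x15500) (nat_lit 0x100020003000400030000000000000000))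 (.non (nat_lit 1) (nat_lit 4) (nat_lit 0x40050) (nat_lit 0x1000000000000000000000001000100000000)))) (.non (nat_lit 2) (nat_lit 4) (nat_lit 0x54005) (nat_lit 0x1000100010000000000000000000000010001))) (.non (nat_lit 1) (nat_lit 4) (nat_lit 0x55001) (nat_lit 0x1000100020001000000000000000000000001))) (.star (nat_lit 9) (nat_lit 1) (nat_lit 6))) (.non (nat_lit 2) (nat_lit 4) (nat_lit 0x45405) (nat_lit 0x1000000010001000100000000000000010001))) (.star (nat_lit 9) (nat_lit 1) (nat_lit 4))) (.non (nat_lit 2) (nat_lit 4) (nat_lit 0x40005) (nat_lit 0x1000000000000000000000000000000010001)))))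

noncomputable def t758_24 : Tr := (.split (nat_lit 5) (nat_lit 3) (.st (nat_lit 0) (nat_lit 2) (nat_lit 4) (nat_lit 0x15005) (nat_lit 0x100020001000000000000000000010002) (nat_lit 1) (nat_lit 1) (.st (nat_lit 6) (nat_lit 1) (nat_lit 4) (nat_lit 0x15401) (nat_lit 0x100020002000100000000000000000001) (nat_lit 1) (nat_lit 1) (.st (nat_lit 7) (nat_lit 1) (nat_lit 4) (nat_lit 0x15001) (nat_lit 0x100020001000000000000000000000001) (nat_lit 1) (nat_lit 1) t758_23))) (.st (nat_lit 0) (nat_lit 2) (nat_lit 4) (nat_lit 0x15005) (nat_lit 0x100020001000000000000000000010002) (nat_lit 1) (nat_lit 1) (.st (nat_lit 1) (nat_lit 2) (nat_lit 4) (nat_lit 0x15445) (nat_lit 0x200040003000200000001000000020003) (nat_lit 1) (nat_lit 1) (.st (nat_lit 2) (nat_lit 1) (nat_lit 6) (nat_lit 0x550) (nat_lit 0x400030003000200000000) (nat_lit 1) (nat_lit 1) (.st (nat_lit 3) (nat_lit 1) (nat_lit 4) (nat_lit 0x15451) (nat_lit 0x100020002000200000002000100000001) (nat_lit 1) (nat_lit 1) (.st (nat_lit 4) (nat_lit 1) (nat_lit 6)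 (nat_lit 0x540) (nat_lit 0x200020001000000000000) (nat_lit 1) (nat_lit 1) (.st (nat_lit 5) (nat_lit 1) (nat_lit 4) (nat_lit 0x15441) (nat_lit 0x100020002000200000001000000000001) (nat_lit 1) (nat_lit 1) (.st (nat_lit 6) (nat_lit 1) (nat_lit 4) (nat_lit 0x15401) (nat_lit 0x100020002000100000000000000000001) (nat_lit 1) (nat_lit 1) (.pd (.cons (nat_lit 3) (nat_lit 7) (nat_lit 0) (nat_lit 0x805440100) (nat_lit 0xf423f00000f423fb71ae1f15600000f423f54591437a2) .nil) (.st (nat_lit 7) (nat_lit 1) (nat_lit 4) (nat_lit 0x15001) (nat_lit 0x100020001000000000000000000000001) (nat_lit 1) (nat_lit 1) (.st (nat_lit 8) (nat_lit 2) (nat_lit 4) (nat_lit 0x15405) (nat_lit 0x200030002000100000000000000010002) (nat_lit 1) (nat_lit 1) (.split (nat_lit 8) (nat_lit 7) (.split (nat_lit 7) (nat_lit 0) (.pd (.cons (nat_lit 0) (nat_lit 5) (nat_lit 0) (nat_lit 0x766042110) (nat_lit 0xf423fb71aea2c2800000f423ff423fb71ae1f15600000) (.cons (nat_lit 1) (nat_lit 5) (nat_lit 0) (nat_lit 0x707042200) (nat_lit 0xf423f7a11df423f00000f423ff423fb71ae000007a11b)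 (.cons (nat_lit 2) (nat_lit 5) (nat_lit 0) (nat_lit 0x707043000) (nat_lit 0xf423f7a11df423f00000f423ff423f00000f423f3d08a) .nil))) (.split (nat_lit 5) (nat_lit 3) (.leaf (.cons (nat_lit 0x1454) (nat_lit 0x1000200000003000400030000) (.cons (nat_lit 0x554) (nat_lit 0x100010001000100010000) (.cons (nat_lit 0x1540) (nat_lit 0x1000200020001000000000000) (.cons (nat_lit 0x14015) (nat_lit 0x100020000000000000000000300040003) (.cons (nat_lit 0x5501) (nat_lit 0x20003000400030000000000000001) .nil))))) (.cons (nat_lit 0x111101101) (nat_lit 0x10010) (nat_lit 0xa) (nat_lit 0x203405601) .nil)) (.non (nat_lit 1) (nat_lit 4) (nat_lit 0xa850) (nat_lit 0x10002000300000004000200000000)))) (.non (nat_lit 1) (nat_lit 4) (nat_lit 0x2a001) (nat_lit 0x100020001000000000000000000000002))) (.non (nat_lit 1) (nat_lit 4) (nat_lit 0x25001) (nat_lit 0x100020001000000000000000000000001))))))))))))))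

noncomputable def t758_25 : Tr := (.split (nat_lit 9) (nat_lit 0) (.split (nat_lit 9) (nat_lit 1) (.split (nat_lit 9) (nat_lit 2) (.split (nat_lit 9) (nat_lit 3) (.split (nat_lit 9) (nat_lit 4) (.split (nat_lit 9) (nat_lit 5) (.split (nat_lit 9) (nat_lit 6) (.split (nat_lit 9) (nat_lit 7) (.st (nat_lit 8) (nat_lit 1) (nat_lit 4) (nat_lit 0x54040) (nat_lit 0x1000200010000000000000001000000000000) (nat_lit 1) (nat_lit 1) (.split (nat_lit 8) (nat_lit 3) (.split (nat_lit 8) (nat_lit 7) (.split (nat_lit 9) (nat_lit 8) (.pd (.cons (nat_lit 1) (nat_lit 5) (nat_lit 0) (nat_lit 0x8387042200) (nat_lit 0xf423f65b97b71aef423f00000f423f61a795b8cc00000f423f) (.cons (nat_lit 2) (nat_lit 5) (nat_lit 0) (nat_lit 0x8387043000) (nat_lit 0xf423f65b97b71aef423f00000f423f61a7900000f423fb71ae) (.cons (nat_lit 3) (nat_lit 5) (nat_lit 0) (nat_lit 0x8766040100) (nat_lit 0xf423fb71aea2c289896500000f423f00000f423f54591437a2) .nil))) (.st (nat_lit 9) (nat_lit 1) (nat_lit 4) (nat_lit 0x55050) (nat_lit 0x2000300020001000000000002000100000000)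 (nat_lit 1) (nat_lit 1) (.split (nat_lit 5) (nat_lit 0) (.leaf (.cons (nat_lit 0x50054) (nat_lit 0x1000200000000000000000003000400030000) (.cons (nat_lit 0x1501) (nat_lit 0x1000200020000000000000001) (.cons (nat_lit 0x1415) (nat_lit 0x1000200000000000300040003) (.cons (nat_lit 0x515) (nat_lit 0x100010000000100010001) .nil)))) (.cons (nat_lit 0x110011) (nat_lit 0x1000100) (nat_lit 0x10) (nat_lit 0x100032) .nil)) (.non (nat_lit 1) (nat_lit 4) (nat_lit 0xaa881) (nat_lit 0x1000200020002000200000001000000000002))))) (.non (nat_lit 1) (nat_lit 4) (nat_lit 0x94040) (nat_lit 0x1000200010000000000000001000000000000))) (.non (nat_lit 1) (nat_lit 4) (nat_lit 0xa5400) (nat_lit 0x1000200030002000100000000000000000000))) (.non (nat_lit 1) (nat_lit 4) (nat_lit 0xa8040) (nat_lit 0x1000200010000000000000002000000000000)))) (.non (nat_lit 1) (nat_lit 4) (nat_lit 0x54000) (nat_lit 0x1000100010000000000000000000000000000))) (.non (nat_lit 1) (nat_lit 4) (nat_lit 0x55000) (nat_lit 0x1000100010001000000000000000000000000)))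 (.non (nat_lit 1) (nat_lit 4) (nat_lit 0x55400) (nat_lit 0x1000100010001000100000000000000000000))) (.non (nat_lit 1) (nat_lit 6) (nat_lit 0x54500) (nat_lit 0x3000200010000000300040000000000000000))) (.non (nat_lit 1) (nat_lit 4) (nat_lit 0x50040) (nat_lit 0x1000100000000000000000001000000000000))) (.non (nat_lit 1) (nat_lit 4) (nat_lit 0x50050) (nat_lit 0x1000100000000000000000001000100000000))) (.non (nat_lit 2) (nat_lit 4) (nat_lit 0x55405) (nat_lit 0x1000100010001000100000000000000010001))) (.non (nat_lit 1) (nat_lit 4) (nat_lit 0x55401) (nat_lit 0x1000100010001000100000000000000000001)))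

noncomputable def t758_26 : Tr := (.ex (nat_lit 3) (.pd (.cons (nat_lit 0) (nat_lit 8) (nat_lit 0) (nat_lit 0x65442110) (nat_lit 0xf423fb71aea2c2804737f423fb71ae1f15600000) .nil) (.ex (nat_lit 8) (.split (nat_lit 8) (nat_lit 3) (.split (nat_lit 8) (nat_lit 7) (.pd (.cons (nat_lit 0) (nat_lit 7) (nat_lit 0) (nat_lit 0x305442110) (nat_lit 0xf423f00000f423fb71ae1f156b71aea2c280473700000) (.cons (nat_lit 1) (nat_lit 5) (nat_lit 0) (nat_lit 0x387042200) (nat_lit 0xa2c28b71aef423f00000f423f98965927bd00000f423f) (.cons (nat_lit 2) (nat_lit 5) (nat_lit 0) (nat_lit 0x387043000) (nat_lit 0xa2c28b71aef423f00000f423f9896500000f423fb71ae) (.cons (nat_lit 3) (nat_lit 5) (nat_lit 0) (nat_lit 0x766040100) (nat_lit 0xf423fb71aea2c2800000f423f00000f423f54591437a2) .nil)))) (.split (nat_lit 5) (nat_lit 0) (.leaf (.cons (nat_lit 0x14054) (nat_lit 0x200010000000000000003000400030000) (.cons (nat_lit 0x1501) (nat_lit 0x1000200020000000000000001) (.cons (nat_lit 0x1415) (nat_lit 0x1000200000000000300040003) (.cons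 (nat_lit 0x515) (nat_lit 0x100010000000100010001) .nil)))) (.cons (nat_lit 0x111101011) (nat_lit 0x10100) (nat_lit 5) (nat_lit 0x543206001) .nil)) (.non (nat_lit 1) (nat_lit 6) (nat_lit 0x501) (nat_lit 0x100010000000000000001)))) (.non (nat_lit 1) (nat_lit 4) (nat_lit 0x1a840) (nat_lit 0x400030002000100000002000000000000))) (.non (nat_lit 1) (nat_lit 4) (nat_lit 0x2a050) (nat_lit 0x300020001000000000004000200000000))) t758_25)) (.split (nat_lit 9) (nat_lit 0) (.split (nat_lit 9) (nat_lit 1) (.split (nat_lit 9) (nat_lit 2) (.split (nat_lit 9) (nat_lit 4) (.split (nat_lit 9) (nat_lit 5) (.split (nat_lit 9) (nat_lit 6) (.split (nat_lit 9) (nat_lit 7) (.split (nat_lit 9) (nat_lit 8) (.sup (nat_lit 0x3000500040000000000000001) (nat_lit 0x3000300000000000000000005000500030000)) (.non (nat_lit 1) (nat_lit 4) (nat_lit 0x50040) (nat_lit 0x1000100000000000000000001000000000000))) (.non (nat_lit 1) (nat_lit 4) (nat_lit 0x54040) (nat_lit 0x1000100010000000000000001000000000000))) (.non (nat_lit 1) (nat_lit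 4) (nat_lit 0x55040) (nat_lit 0x1000100010001000000000001000000000000))) (.non (nat_lit 1) (nat_lit 4) (nat_lit 0x55440) (nat_lit 0x1000100010001000100000001000000000000))) (.non (nat_lit 1) (nat_lit 6) (nat_lit 0x50540) (nat_lit 0x3000100000000000300040002000000000000))) (.non (nat_lit 1) (nat_lit 4) (nat_lit 0x40050) (nat_lit 0x1000000000000000000000001000100000000))) (.non (nat_lit 2) (nat_lit 4) (nat_lit 0x55445) (nat_lit 0x1000100010001000100000001000000010001))) (.non (nat_lit 1) (nat_lit 4) (nat_lit 0x55441) (nat_lit 0x1000100010001000100000001000000000001))))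

noncomputable def t758_27 : Tr := (.split (nat_lit 8) (nat_lit 3) (.split (nat_lit 7) (nat_lit 0) (.split (nat_lit 7) (nat_lit 3) (.split (nat_lit 5) (nat_lit 0) (.split (nat_lit 5) (nat_lit 3) .uj (.st (nat_lit 2) (nat_lit 1) (nat_lit 6) (nat_lit 0x550) (nat_lit 0x400030003000200000000) (nat_lit 1) (nat_lit 1) (.st (nat_lit 3) (nat_lit 1) (nat_lit 6) (nat_lit 0x550) (nat_lit 0x200020002000100000000) (nat_lit 1) (nat_lit 1) (.st (nat_lit 4) (nat_lit 1) (nat_lit 6) (nat_lit 0x540) (nat_lit 0x200020001000000000000) (nat_lit 1) (nat_lit 1) (.st (nat_lit 5) (nat_lit 1) (nat_lit 6) (nat_lit 0x540) (nat_lit 0x200020001000000000000) (nat_lit 1) (nat_lit 1) (.ex (nat_lit 0) t758_6 (.split (nat_lit 9) (nat_lit 1) (.split (nat_lit 9) (nat_lit 2) (.split (nat_lit 9) (nat_lit 3) t758_8 (.non (nat_lit 1) (nat_lit 6) (nat_lit 0x40550) (nat_lit 0x1000000000000000200020002000100000000))) (.non (nat_lit 1) (nat_lit 6) (nat_lit 0x40550) (nat_lit 0x1000000000000000400030003000200000000))) (.non (nat_lit 2) (nat_lit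 4) (nat_lit 0x40005) (nat_lit 0x1000000000000000000000000000000010001))))))))) (.split (nat_lit 5) (nat_lit 3) (.st (nat_lit 0) (nat_lit 2) (nat_lit 6) (nat_lit 0x505) (nat_lit 0x200020000000000010002) (nat_lit 1) (nat_lit 1) (.st (nat_lit 1) (nat_lit 2) (nat_lit 6) (nat_lit 0x505) (nat_lit 0x400030000000000020003) (nat_lit 1) (nat_lit 1) (.st (nat_lit 4) (nat_lit 1) (nat_lit 6) (nat_lit 0x501) (nat_lit 0x200020000000000000001) (nat_lit 1) (nat_lit 1) (.st (nat_lit 5) (nat_lit 1) (nat_lit 6) (nat_lit 0x501) (nat_lit 0x200020000000000000001) (nat_lit 1) (nat_lit 1) t758_16)))) (.non (nat_lit 1) (nat_lit 6) (nat_lit 0x541) (nat_lit 0x200020001000000000001)))) (.split (nat_lit 5) (nat_lit 3) t758_20 (.non (nat_lit 1) (nat_lit 4) (nat_lit 0x5440) (nat_lit 0x10001000100000001000000000000)))) (.split (nat_lit 7) (nat_lit 3) (.split (nat_lit 5) (nat_lit 0) t758_24 (.non (nat_lit 1) (nat_lit 4) (nat_lit 0x5401) (nat_lit 0x10001000100000000000000000001))) (.non (nat_lit 1) (nat_lit 4) (nat_lit 0x15041)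 (nat_lit 0x100020001000000000001000000000001)))) (.split (nat_lit 7) (nat_lit 0) (.split (nat_lit 7) (nat_lit 3) (.split (nat_lit 5) (nat_lit 3) (.split (nat_lit 5) (nat_lit 0) (.sup (nat_lit 0x20009000a0005) (nat_lit 0x100040007000a00080000000000000000)) (.st (nat_lit 0) (nat_lit 2) (nat_lit 6) (nat_lit 0x505) (nat_lit 0x200020000000000010002) (nat_lit 1) (nat_lit 1) (.st (nat_lit 1) (nat_lit 2) (nat_lit 6) (nat_lit 0x505) (nat_lit 0x400030000000000020003) (nat_lit 1) (nat_lit 1) (.st (nat_lit 4) (nat_lit 1) (nat_lit 6) (nat_lit 0x501) (nat_lit 0x200020000000000000001) (nat_lit 1) (nat_lit 1) (.st (nat_lit 5) (nat_lit 1) (nat_lit 6) (nat_lit 0x501) (nat_lit 0x200020000000000000001) (nat_lit 1) (nat_lit 1) (.st (nat_lit 6) (nat_lit 2) (nat_lit 4) (nat_lit 0x15445) (nat_lit 0x200030004000300000001000000010002) (nat_lit 1) (nat_lit 2) (.st (nat_lit 7) (nat_lit 1) (nat_lit 4) (nat_lit 0x15451) (nat_lit 0x300040003000200000002000100000001) (nat_lit 1) (nat_lit 2) (.ex (nat_lit 2) t758_26 (.split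 (nat_lit 9) (nat_lit 0) (.split (nat_lit 9) (nat_lit 1) (.split (nat_lit 9) (nat_lit 3) (.split (nat_lit 9) (nat_lit 4) (.split (nat_lit 9) (nat_lit 5) (.split (nat_lit 9) (nat_lit 6) (.split (nat_lit 9) (nat_lit 7) (.split (nat_lit 9) (nat_lit 8) (.sup (nat_lit 0x3000500040000000000000001) (nat_lit 0x3000000000000000000000003000500030000)) (.non (nat_lit 1) (nat_lit 4) (nat_lit 0x50050) (nat_lit 0x1000100000000000000000001000100000000))) (.non (nat_lit 1) (nat_lit 4) (nat_lit 0x54050) (nat_lit 0x1000100010000000000000001000100000000))) (.star (nat_lit 9) (nat_lit 2) (nat_lit 6))) (.non (nat_lit 1) (nat_lit 4) (nat_lit 0x55450) (nat_lit 0x1000100010001000100000001000100000000))) (.star (nat_lit 9) (nat_lit 2) (nat_lit 4))) (.non (nat_lit 1) (nat_lit 4) (nat_lit 0x40050) (nat_lit 0x1000000000000000000000001000100000000))) (.non (nat_lit 2) (nat_lit 6) (nat_lit 0x40505) (nat_lit 0x1000000000000000400030000000000020003))) (.non (nat_lit 1) (nat_lit 4) (nat_lit 0x55451) (nat_lit 0x1000100010001000100000001000100000001)))))))))))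 (.non (nat_lit 1) (nat_lit 4) (nat_lit 0x15440) (nat_lit 0x100010001000100000001000000000000))) (.non (nat_lit 1) (nat_lit 4) (nat_lit 0x14040) (nat_lit 0x100010000000000000001000000000000))) (.non (nat_lit 2) (nat_lit 4) (nat_lit 0x15445) (nat_lit 0x200030002000100000001000000010002))))

noncomputable def t758_28 : Tr := (.ex (nat_lit 8) (.split (nat_lit 8) (nat_lit 7) (.pd (.cons (nat_lit 1) (nat_lit 5) (nat_lit 0) (nat_lit 0x287042200) (nat_lit 0xa2c28b71aef423f00000f423ff423f5b8d400000f423f) (.cons (nat_lit 2) (nat_lit 5) (nat_lit 0) (nat_lit 0x766043000) (nat_lit 0xf423fb71aea2c2800000f423ff423f00000f423fb71ae) .nil)) (.leaf (.cons (nat_lit 0x15014) (nat_lit 0x300020001000000000000000400030000) (.cons (nat_lit 0x10054) (nat_lit 0x100000000000000000001000200020000) (.cons (nat_lit 0x10015) (nat_lit 0x100000000000000000000000200020001) .nil))) (.cons (nat_lit 0x111001100) (nat_lit 0x100010) (nat_lit 3) (nat_lit 0x234000100) (.cons (nat_lit 0x110001100) (nat_lit 0x1000010) (nat_lit 2) (nat_lit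 0x230000100) .nil)))) (.non (nat_lit 1) (nat_lit 4) (nat_lit 0x1a810) (nat_lit 0x400030002000100000000000200000000))) (.split (nat_lit 9) (nat_lit 0) (.split (nat_lit 9) (nat_lit 1) (.split (nat_lit 9) (nat_lit 2) (.split (nat_lit 9) (nat_lit 3) (.split (nat_lit 9) (nat_lit 4) (.split (nat_lit 9) (nat_lit 5) (.split (nat_lit 9) (nat_lit 6) (.split (nat_lit 9) (nat_lit 7) (.st (nat_lit 8) (nat_lit 1) (nat_lit 4) (nat_lit 0x54010) (nat_lit 0x1000200010000000000000000000100000000) (nat_lit 1) (nat_lit 1) (.split (nat_lit 8) (nat_lit 7) (.split (nat_lit 9) (nat_lit 8) (.pd (.cons (nat_lit 1) (nat_lit 5) (nat_lit 0) (nat_lit 0x8287042200) (nat_lit 0xf423f65b97b71aef423f00000f423ff423f249e800000f423f) (.cons (nat_lit 2) (nat_lit 5) (nat_lit 0) (nat_lit 0x8766043000) (nat_lit 0xf423fb71aea2c289896500000f423ff423f00000f423fb71ae) .nil)) (.st (nat_lit 9) (nat_lit 1) (nat_lit 4) (nat_lit 0x55050) (nat_lit 0x2000300020001000000000001000200000000) (nat_lit 1) (nat_lit 1) (.leaf (.cons (nat_lit 0x54014) (nat_lit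 0x1000200010000000000000000000200020000) (.cons (nat_lit 0x10054) (nat_lit 0x100000000000000000001000200020000) (.cons (nat_lit 0x10015) (nat_lit 0x100000000000000000000000200020001) .nil))) (.cons (nat_lit 0x1110001100) (nat_lit 0x1000010) (nat_lit 8) (nat_lit 0x2010004300) (.cons (nat_lit 0x1100001100) (nat_lit 0x10000010) (nat_lit 2) (nat_lit 0x3200000100) .nil))))) (.non (nat_lit 1) (nat_lit 4) (nat_lit 0x94010) (nat_lit 0x1000200010000000000000000000100000000))) (.non (nat_lit 1) (nat_lit 4) (nat_lit 0xa5400) (nat_lit 0x1000200030002000100000000000000000000)))) (.non (nat_lit 1) (nat_lit 4) (nat_lit 0x54000) (nat_lit 0x1000100010000000000000000000000000000))) (.non (nat_lit 1) (nat_lit 4) (nat_lit 0x55000) (nat_lit 0x1000100010001000000000000000000000000))) (.non (nat_lit 1) (nat_lit 4) (nat_lit 0x55400) (nat_lit 0x1000100010001000100000000000000000000))) (.non (nat_lit 1) (nat_lit 6) (nat_lit 0x54500) (nat_lit 0x3000200010000000300040000000000000000))) (.non (nat_lit 1) (nat_lit 4) (nat_lit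 0x50050) (nat_lit 0x1000100000000000000000001000100000000))) (.non (nat_lit 1) (nat_lit 4) (nat_lit 0x50010) (nat_lit 0x1000100000000000000000000000100000000))) (.non (nat_lit 0) (nat_lit 8) (nat_lit 0x40054) (nat_lit 0x1000000000000000000000001000200020000))) (.non (nat_lit 1) (nat_lit 4) (nat_lit 0x55051) (nat_lit 0x2000300020001000000000001000200000001))))

noncomputable def t758_29 : Tr := (.ex (nat_lit 7) (.pd (.cons (nat_lit 0) (nat_lit 8) (nat_lit 0) (nat_lit 0x65442110) (nat_lit 0xf423fb71aea2c2804737f423fb71ae1f15600000) (.cons (nat_lit 1) (nat_lit 8) (nat_lit 0) (nat_lit 0x65442200) (nat_lit 0xf423fb71aea2c2804737f423fb71ae00000f423f) (.cons (nat_lit 2) (nat_lit 8) (nat_lit 0) (nat_lit 0x65443000) (nat_lit 0xf423fb71aea2c2804737f423f00000f423fb71ae) (.cons (nat_lit 3) (nat_lit 8) (nat_lit 0) (nat_lit 0x65440100) (nat_lit 0xf423fb71aea2c280473700000f423f54591437a2) .nil)))) t758_28) (.split (nat_lit 9) (nat_lit 0) (.split (nat_lit 9) (nat_lit 2) (.split (nat_lit 9) (nat_lit 3) (.split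 (nat_lit 9) (nat_lit 4) (.split (nat_lit 9) (nat_lit 5) (.split (nat_lit 9) (nat_lit 6) (.split (nat_lit 9) (nat_lit 8) (.split (nat_lit 9) (nat_lit 1) (.unj (nat_lit 0x55) (nat_lit 0x1000200020001) (nat_lit 0x45500) (nat_lit 0x1000000020003000400030000000000000000)) (.st (nat_lit 7) (nat_lit 1) (nat_lit 4) (nat_lit 0x55000) (nat_lit 0x1000100020001000000000000000000000000) (nat_lit 1) (nat_lit 1) (.st (nat_lit 8) (nat_lit 1) (nat_lit 4) (nat_lit 0x55010) (nat_lit 0x1000200020001000000000000000100000000) (nat_lit 1) (nat_lit 1) (.st (nat_lit 9) (nat_lit 1) (nat_lit 4) (nat_lit 0x55410) (nat_lit 0x2000200030002000100000000000100000000) (nat_lit 1) (nat_lit 1) (.split (nat_lit 8) (nat_lit 7) (.split (nat_lit 9) (nat_lit 7) (.split (nat_lit 9) (nat_lit 1) (.pd (.cons (nat_lit 1) (nat_lit 5) (nat_lit 0) (nat_lit 0x7287042200) (nat_lit 0xf423f7a11b7a11df423f00000f423ff423f3d08800000f423f) (.cons (nat_lit 2) (nat_lit 5) (nat_lit 0) (nat_lit 0x1797043000) (nat_lit 0x7a11bf423f7a11df423f00000f423ff423f000007a1197a117)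 .nil)) (.leaf (.cons (nat_lit 0x50014) (nat_lit 0x1000100000000000000000000000200020000) (.cons (nat_lit 0x45500) (nat_lit 0x1000000020003000400030000000000000000) .nil)) .nil)) (.non (nat_lit 2) (nat_lit 4) (nat_lit 0xaa004) (nat_lit 0x2000100020001000000000000000000020000))) (.non (nat_lit 1) (nat_lit 4) (nat_lit 0x95000) (nat_lit 0x1000100020001000000000000000000000000))) (.non (nat_lit 1) (nat_lit 4) (nat_lit 0x65000) (nat_lit 0x1000100020001000000000000000000000000))))))) (.non (nat_lit 1) (nat_lit 4) (nat_lit 0x54000) (nat_lit 0x1000100010000000000000000000000000000))) (.non (nat_lit 1) (nat_lit 4) (nat_lit 0x45000) (nat_lit 0x1000000010001000000000000000000000000))) (.non (nat_lit 1) (nat_lit 4) (nat_lit 0x45400) (nat_lit 0x1000000010001000100000000000000000000))) (.non (nat_lit 1) (nat_lit 6) (nat_lit 0x54500) (nat_lit 0x3000100020000000300040000000000000000))) (.non (nat_lit 1) (nat_lit 4) (nat_lit 0x54050) (nat_lit 0x1000100010000000000000001000100000000))) (.non (nat_lit 1) (nat_lit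 4) (nat_lit 0x54010) (nat_lit 0x1000100010000000000000000000100000000))) (.non (nat_lit 1) (nat_lit 4) (nat_lit 0x55411) (nat_lit 0x2000200030002000100000000000100000001))))

noncomputable def t758_30 : Tr := (.ex (nat_lit 5) (.ex (nat_lit 6) (.split (nat_lit 8) (nat_lit 2) (.pd (.cons (nat_lit 1) (nat_lit 7) (nat_lit 0) (nat_lit 0x205442200) (nat_lit 0xf423f00000f423fb71ae1f156f423f7a11d00000f423f) (.cons (nat_lit 2) (nat_lit 7) (nat_lit 0) (nat_lit 0x805443000) (nat_lit 0xf423f00000f423fb71ae1f156f423f00000f423fb71ae) .nil)) t758_29) (.non (nat_lit 1) (nat_lit 4) (nat_lit 0x2a050) (nat_lit 0x300020001000000000002000400000000))) (.split (nat_lit 9) (nat_lit 1) (.split (nat_lit 9) (nat_lit 2) (.split (nat_lit 9) (nat_lit 3) (.split (nat_lit 9) (nat_lit 5) (.split (nat_lit 9) (nat_lit 7) (.split (nat_lit 9) (nat_lit 8) (.split (nat_lit 9) (nat_lit 0) (.split (nat_lit 9) (nat_lit 4) (.unj (nat_lit 0x55) (nat_lit 0x1000200020001) (nat_lit 0x45500) (nat_lit 0x1000000010002000200020000000000000000))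 (.unj (nat_lit 0x55) (nat_lit 0x1000200020001) (nat_lit 0x41500) (nat_lit 0x1000000000001000100010000000000000000))) (.split (nat_lit 9) (nat_lit 4) (.sup (nat_lit 0x5000a00090002) (nat_lit 0x1000000030007000a00080000000000000000)) (.non (nat_lit 2) (nat_lit 6) (nat_lit 0x40505) (nat_lit 0x3000000000000000300040000000000010002)))) (.non (nat_lit 1) (nat_lit 4) (nat_lit 0x55000) (nat_lit 0x1000100010001000000000000000000000000))) (.non (nat_lit 1) (nat_lit 4) (nat_lit 0x45000) (nat_lit 0x1000000010001000000000000000000000000))) (.non (nat_lit 1) (nat_lit 4) (nat_lit 0x41400) (nat_lit 0x1000000000001000100000000000000000000))) (.non (nat_lit 1) (nat_lit 4) (nat_lit 0x55050) (nat_lit 0x1000100010001000000000001000100000000))) (.star (nat_lit 9) (nat_lit 2) (nat_lit 6))) (.star (nat_lit 9) (nat_lit 1) (nat_lit 6)))) (.split (nat_lit 9) (nat_lit 0) (.split (nat_lit 9) (nat_lit 1) (.split (nat_lit 9) (nat_lit 2) (.split (nat_lit 9) (nat_lit 3) (.split (nat_lit 9) (nat_lit 4) (.split (nat_lit 9) (nat_lit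 6) (.split (nat_lit 9) (nat_lit 7) (.split (nat_lit 9) (nat_lit 8) (.unj (nat_lit 0x55) (nat_lit 0x1000200020001) (nat_lit 0x41500) (nat_lit 0x1000000000001000200020000000000000000)) (.non (nat_lit 1) (nat_lit 4) (nat_lit 0x55400) (nat_lit 0x1000100010001000100000000000000000000))) (.non (nat_lit 1) (nat_lit 4) (nat_lit 0x45400) (nat_lit 0x1000000010001000100000000000000000000))) (.non (nat_lit 1) (nat_lit 4) (nat_lit 0x41400) (nat_lit 0x1000000000001000100000000000000000000))) (.non (nat_lit 1) (nat_lit 6) (nat_lit 0x40500) (nat_lit 0x1000000000000000100010000000000000000))) (.non (nat_lit 1) (nat_lit 4) (nat_lit 0x55450) (nat_lit 0x1000100010001000100000001000100000000))) (.non (nat_lit 1) (nat_lit 4) (nat_lit 0x55410) (nat_lit 0x1000100010001000100000000000100000000))) (.non (nat_lit 2) (nat_lit 6) (nat_lit 0x40505) (nat_lit 0x3000000000000000400030000000000020001))) (.non (nat_lit 2) (nat_lit 6) (nat_lit 0x40505) (nat_lit 0x3000000000000000400030000000000010002))))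

noncomputable def t758_31 : Tr := (.ex (nat_lit 3) (.ex (nat_lit 4) t758_30 (.split (nat_lit 9) (nat_lit 0) (.split (nat_lit 9) (nat_lit 1) (.split (nat_lit 9) (nat_lit 2) (.split (nat_lit 9) (nat_lit 3) (.split (nat_lit 9) (nat_lit 5) (.split (nat_lit 9) (nat_lit 7) (.split (nat_lit 9) (nat_lit 8) (.split (nat_lit 9) (nat_lit 6) (.unj (nat_lit 0x55) (nat_lit 0x1000200020001) (nat_lit 0x41500) (nat_lit 0x1000000000001000200020000000000000000)) (.unj (nat_lit 0x55) (nat_lit 0x1000200020001) (nat_lit 0x41500) (nat_lit 0x1000000000001000100010000000000000000))) (.non (nat_lit 1) (nat_lit 6) (nat_lit 0x54500) (nat_lit 0x3000200010000000300040000000000000000))) (.non (nat_lit 1) (nat_lit 6) (nat_lit 0x54500) (nat_lit 0x3000100020000000300040000000000000000))) (.non (nat_lit 1) (nat_lit 6) (nat_lit 0x40500) (nat_lit 0x1000000000000000100010000000000000000))) (.non (nat_lit 1) (nat_lit 6) (nat_lit 0x40550) (nat_lit 0x3000000000000000300040002000100000000))) (.star (nat_lit 9) (nat_lit 2) (nat_lit 4)))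 (.star (nat_lit 9) (nat_lit 1) (nat_lit 4))) (.non (nat_lit 2) (nat_lit 6) (nat_lit 0x40505) (nat_lit 0x3000000000000000300040000000000010002)))) (.split (nat_lit 9) (nat_lit 2) (.split (nat_lit 9) (nat_lit 4) (.split (nat_lit 9) (nat_lit 5) (.split (nat_lit 9) (nat_lit 6) (.split (nat_lit 9) (nat_lit 7) (.split (nat_lit 9) (nat_lit 8) (.split (nat_lit 9) (nat_lit 0) (.split (nat_lit 9) (nat_lit 1) (.split (nat_lit 9) (nat_lit 3) (.split (nat_lit 8) (nat_lit 2) (.sup (nat_lit 0x3000c00160020001a0000000000000000) (nat_lit 0x2000000000000000000000005000700070004)) (.non (nat_lit 1) (nat_lit 4) (nat_lit 0x68050) (nat_lit 0x1000200010000000000000002000300000000))) (.split (nat_lit 9) (nat_lit 3) (.split (nat_lit 8) (nat_lit 2) (.sup (nat_lit 0x20007000b0010000d0000000000000000) (nat_lit 0x2000000000000000000000003000300030001)) (.non (nat_lit 1) (nat_lit 4) (nat_lit 0xa0050) (nat_lit 0x1000100000000000000000002000200000000))) (.non (nat_lit 1) (nat_lit 4) (nat_lit 0x54050) (nat_lit 0x3000200010000000000000004000300000000))))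 (.sup (nat_lit 0x90000000000000000000000080007000a0000) (nat_lit 0x100040007000a00080000000000000000))) (.split (nat_lit 9) (nat_lit 1) (.split (nat_lit 9) (nat_lit 0) (.split (nat_lit 9) (nat_lit 3) (.split (nat_lit 8) (nat_lit 2) (.sup (nat_lit 0x100030006000800060000000000000000) (nat_lit 0x1000000000000000000000001000100010001)) (.non (nat_lit 1) (nat_lit 4) (nat_lit 0x68050) (nat_lit 0x1000200010000000000000002000300000000))) (.non (nat_lit 1) (nat_lit 4) (nat_lit 0x600a1) (nat_lit 0x4000100000000000000000003000200000002))) (.sup (nat_lit 0x7000f00170020001a0000000000000000) (nat_lit 0x5000000000000000000000003000100030006))) (.non (nat_lit 2) (nat_lit 4) (nat_lit 0x40005) (nat_lit 0x1000000000000000000000000000000010001)))) (.non (nat_lit 1) (nat_lit 4) (nat_lit 0x50050) (nat_lit 0x1000100000000000000000001000100000000))) (.non (nat_lit 1) (nat_lit 4) (nat_lit 0x54050) (nat_lit 0x1000100010000000000000001000100000000))) (.non (nat_lit 1) (nat_lit 4) (nat_lit 0x55050) (nat_lit 0x1000100010001000000000001000100000000)))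 (.non (nat_lit 1) (nat_lit 4) (nat_lit 0x55450) (nat_lit 0x1000100010001000100000001000100000000))) (.non (nat_lit 1) (nat_lit 6) (nat_lit 0x40550) (nat_lit 0x3000000000000000300040002000100000000))) (.non (nat_lit 1) (nat_lit 4) (nat_lit 0x40050) (nat_lit 0x1000000000000000000000001000100000000))))

noncomputable def t758_32 : Tr := (.ex (nat_lit 4) (.split (nat_lit 8) (nat_lit 2) (.split (nat_lit 8) (nat_lit 7) (.split (nat_lit 9) (nat_lit 7) (.split (nat_lit 9) (nat_lit 1) (.pd (.cons (nat_lit 1) (nat_lit 5) (nat_lit 0) (nat_lit 0x7287042200) (nat_lit 0xf423f7a11b7a11df423f00000f423ff423f3d08800000f423f) (.cons (nat_lit 1) (nat_lit 7) (nat_lit 0) (nat_lit 0x9205442200) (nat_lit 0xf423ff423f00000f423fb71ae1f156f423f7a11d00000f423f) (.cons (nat_lit 2) (nat_lit 5) (nat_lit 0) (nat_lit 0x1797043000) (nat_lit 0x7a11bf423f7a11df423f00000f423ff423f000007a1197a117) (.cons (nat_lit 2) (nat_lit 7) (nat_lit 0) (nat_lit 0x1805443000) (nat_lit 0xf423ff423f00000f423fb71ae1f156f423f00000b71aea2c28) .nil))))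 (.leaf (.cons (nat_lit 0x50014) (nat_lit 0x1000100000000000000000000000200020000) (.cons (nat_lit 0x45500) (nat_lit 0x1000000020003000400030000000000000000) .nil)) .nil)) (.non (nat_lit 2) (nat_lit 4) (nat_lit 0xaa004) (nat_lit 0x2000100020001000000000000000000020000))) (.non (nat_lit 1) (nat_lit 4) (nat_lit 0x95000) (nat_lit 0x1000100020001000000000000000000000000))) (.non (nat_lit 1) (nat_lit 4) (nat_lit 0x65000) (nat_lit 0x1000100020001000000000000000000000000))) (.non (nat_lit 1) (nat_lit 4) (nat_lit 0xaa010) (nat_lit 0x1000200020001000000000000000200000000))) (.split (nat_lit 0xa) (nat_lit 0) (.split (nat_lit 0xa) (nat_lit 1) (.split (nat_lit 0xa) (nat_lit 2) (.split (nat_lit 0xa) (nat_lit 3) (.split (nat_lit 0xa) (nat_lit 5) (.split (nat_lit 0xa) (nat_lit 6) (.split (nat_lit 0xa) (nat_lit 7) (.split (nat_lit 0xa) (nat_lit 8) (.split (nat_lit 0xa) (nat_lit 9) (.unj (nat_lit 0x55) (nat_lit 0x1000200020001) (nat_lit 0x101500) (nat_lit 0x10000000000000001000200020000000000000000)) (.non (nat_lit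 1) (nat_lit 4) (nat_lit 0x155410) (nat_lit 0x10002000200030002000100000000000100000000))) (.non (nat_lit 1) (nat_lit 4) (nat_lit 0x155010) (nat_lit 0x10001000200020001000000000000000100000000))) (.non (nat_lit 1) (nat_lit 4) (nat_lit 0x155000) (nat_lit 0x10001000100020001000000000000000000000000))) (.non (nat_lit 1) (nat_lit 4) (nat_lit 0x155400) (nat_lit 0x10001000100020002000100000000000000000000))) (.non (nat_lit 1) (nat_lit 4) (nat_lit 0x155450) (nat_lit 0x10002000300040003000200000001000200000000))) (.non (nat_lit 1) (nat_lit 6) (nat_lit 0x100550) (nat_lit 0x30000000000000000000300040002000100000000))) (.star (nat_lit 0xa) (nat_lit 2) (nat_lit 4))) (.star (nat_lit 0xa) (nat_lit 1) (nat_lit 4))) (.non (nat_lit 2) (nat_lit 6) (nat_lit 0x100505) (nat_lit 0x30000000000000000000300040000000000010002))))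

noncomputable def t758_33 : Tr := (.split (nat_lit 9) (nat_lit 2) (.split (nat_lit 9) (nat_lit 3) (.split (nat_lit 9) (nat_lit 7) (.split (nat_lit 9) (nat_lit 8) (.split (nat_lit 9) (nat_lit 1) (.split (nat_lit 8) (nat_lit 2) (.sup (nat_lit 0x50000000000000000000000000006000a0005) (nat_lit 0x100040007000a00080000000000000000)) (.non (nat_lit 1) (nat_lit 4) (nat_lit 0x2a050) (nat_lit 0x300020001000000000002000400000000))) (.sup (nat_lit 0x6000f00170020001a0000000000000000) (nat_lit 0x4000000000000000000000001000200060003))) (.split (nat_lit 9) (nat_lit 1) (.split (nat_lit 9) (nat_lit 8) (.split (nat_lit 8) (nat_lit 2) (.sup (nat_lit 0x10006000b0010000d0000000000000000) (nat_lit 0x1000000000000000000000001000200030002)) (.non (nat_lit 1) (nat_lit 4) (nat_lit 0xa8010) (nat_lit 0x1000200010000000000000000000200000000))) (.non (nat_lit 1) (nat_lit 4) (nat_lit 0x94010) (nat_lit 0x1000200010000000000000000000100000000))) (.non (nat_lit 2) (nat_lit 4) (nat_lit 0xa8005) (nat_lit 0x3000200010000000000000000000000040002))))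 (.split (nat_lit 9) (nat_lit 8) (.st (nat_lit 5) (nat_lit 1) (nat_lit 4) (nat_lit 0x55450) (nat_lit 0x2000300040003000200000001000200000000) (nat_lit 1) (nat_lit 1) (.st (nat_lit 6) (nat_lit 1) (nat_lit 4) (nat_lit 0x55400) (nat_lit 0x1000100020002000100000000000000000000) (nat_lit 1) (nat_lit 1) (.st (nat_lit 7) (nat_lit 1) (nat_lit 4) (nat_lit 0x55000) (nat_lit 0x1000100020001000000000000000000000000) (nat_lit 1) (nat_lit 1) (.st (nat_lit 8) (nat_lit 1) (nat_lit 4) (nat_lit 0x55010) (nat_lit 0x1000200020001000000000000000100000000) (nat_lit 1) (nat_lit 1) (.st (nat_lit 9) (nat_lit 1) (nat_lit 4) (nat_lit 0x55410) (nat_lit 0x2000200030002000100000000000100000000) (nat_lit 1) (nat_lit 1) t758_32))))) (.non (nat_lit 1) (nat_lit 4) (nat_lit 0x54000) (nat_lit 0x1000100010000000000000000000000000000)))) (.split (nat_lit 9) (nat_lit 7) (.split (nat_lit 9) (nat_lit 8) (.sup (nat_lit 0x90000000000000000000000080007000a0000) (nat_lit 0x100040007000a00080000000000000000)) (.non (nat_lit 1) (nat_lit 4)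 (nat_lit 0x50050) (nat_lit 0x1000100000000000000000001000100000000))) (.non (nat_lit 1) (nat_lit 4) (nat_lit 0x54050) (nat_lit 0x1000100010000000000000001000100000000)))) (.split (nat_lit 9) (nat_lit 3) (.split (nat_lit 9) (nat_lit 7) (.split (nat_lit 9) (nat_lit 8) (.sup (nat_lit 0x90000000000000000000000000007000a0000) (nat_lit 0x100040007000a00080000000000000000)) (.non (nat_lit 1) (nat_lit 4) (nat_lit 0x50010) (nat_lit 0x1000100000000000000000000000100000000))) (.non (nat_lit 1) (nat_lit 4) (nat_lit 0x54010) (nat_lit 0x1000100010000000000000000000100000000))) (.non (nat_lit 1) (nat_lit 4) (nat_lit 0x40050) (nat_lit 0x1000000000000000000000001000100000000))))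

noncomputable def t758_34 : Tr := (.ex (nat_lit 0) (.ex (nat_lit 1) (.ex (nat_lit 2) t758_31 (.split (nat_lit 9) (nat_lit 3) (.split (nat_lit 9) (nat_lit 4) (.split (nat_lit 9) (nat_lit 5) (.split (nat_lit 9) (nat_lit 6) (.split (nat_lit 9) (nat_lit 7) (.split (nat_lit 9) (nat_lit 8) (.split (nat_lit 9) (nat_lit 0) (.split (nat_lit 9) (nat_lit 1) (.split (nat_lit 9) (nat_lit 2) (.split (nat_lit 8) (nat_lit 2) (.sup (nat_lit 0x20007000b0010000d0000000000000000) (nat_lit 0x1000000000000000000000001000300030001)) (.non (nat_lit 1) (nat_lit 4) (nat_lit 0x6a010) (nat_lit 0x2000300020001000000000000000400000000))) (.non (nat_lit 1) (nat_lit 4) (nat_lit 0x90050) (nat_lit 0x1000100000000000000000001000200000000))) (.sup (nat_lit 0x90000000000000000000000000007000a0000) (nat_lit 0x100040007000a00080000000000000000))) (.split (nat_lit 9) (nat_lit 1) (.sup (nat_lit 0x80000000000000000000000000007000a0009) (nat_lit 0x100040007000a00080000000000000000)) (.non (nat_lit 2) (nat_lit 4) (nat_lit 0x40005) (nat_lit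 0x1000000000000000000000000000000010001)))) (.non (nat_lit 1) (nat_lit 4) (nat_lit 0x50010) (nat_lit 0x1000100000000000000000000000100000000))) (.non (nat_lit 1) (nat_lit 4) (nat_lit 0x54010) (nat_lit 0x1000100010000000000000000000100000000))) (.star (nat_lit 9) (nat_lit 2) (nat_lit 6))) (.non (nat_lit 1) (nat_lit 4) (nat_lit 0x55410) (nat_lit 0x1000100010001000100000000000100000000))) (.star (nat_lit 9) (nat_lit 2) (nat_lit 4))) (.non (nat_lit 1) (nat_lit 4) (nat_lit 0x40050) (nat_lit 0x1000000000000000000000001000100000000)))) (.split (nat_lit 9) (nat_lit 0) (.split (nat_lit 9) (nat_lit 4) (.split (nat_lit 9) (nat_lit 5) (.split (nat_lit 9) (nat_lit 6) t758_33 (.star (nat_lit 9) (nat_lit 1) (nat_lit 6))) (.non (nat_lit 2) (nat_lit 6) (nat_lit 0x40505) (nat_lit 0x3000000000000000400030000000000020001))) (.star (nat_lit 9) (nat_lit 1) (nat_lit 4))) (.non (nat_lit 2) (nat_lit 4) (nat_lit 0x40005) (nat_lit 0x1000000000000000000000000000000010001)))) (.split (nat_lit 9) (nat_lit 1) (.split (nat_lit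 9) (nat_lit 4) (.split (nat_lit 9) (nat_lit 5) (.split (nat_lit 9) (nat_lit 7) (.split (nat_lit 9) (nat_lit 8) (.split (nat_lit 9) (nat_lit 2) (.split (nat_lit 9) (nat_lit 3) (.split (nat_lit 9) (nat_lit 6) (.split (nat_lit 9) (nat_lit 0) (.split (nat_lit 8) (nat_lit 2) (.sup (nat_lit 0x3000d00160020001a0000000000000000) (nat_lit 0x3000000000000000000000003000700080005)) (.non (nat_lit 1) (nat_lit 4) (nat_lit 0x2a050) (nat_lit 0x300020001000000000002000400000000))) (.split (nat_lit 9) (nat_lit 0) (.split (nat_lit 8) (nat_lit 2) (.sup (nat_lit 0x70000000000000000000000000006000a000a) (nat_lit 0x100040007000a00080000000000000000)) (.non (nat_lit 1) (nat_lit 4) (nat_lit 0x2a050) (nat_lit 0x300020001000000000002000400000000))) (.sup (nat_lit 0x800000000000000000000000000020007000a) (nat_lit 0x100040007000a00080000000000000000)))) (.sup (nat_lit 0x5000a00090002) (nat_lit 0x1000000030007000a00080000000000000000))) (.split (nat_lit 9) (nat_lit 6) (.split (nat_lit 9) (nat_lit 0) (.split (nat_lit 9) (nat_lit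 3) (.split (nat_lit 8) (nat_lit 2) (.sup (nat_lit 0x100030006000800060000000000000000) (nat_lit 0x1000000000000000000000001000100010001)) (.non (nat_lit 1) (nat_lit 4) (nat_lit 0x68050) (nat_lit 0x1000200010000000000000002000300000000))) (.non (nat_lit 1) (nat_lit 4) (nat_lit 0x600a1) (nat_lit 0x4000100000000000000000003000200000002))) (.sup (nat_lit 0x7000f00170020001a0000000000000000) (nat_lit 0x5000000000000000000000003000100030006))) (.non (nat_lit 1) (nat_lit 4) (nat_lit 0x55050) (nat_lit 0x1000100010001000000000001000100000000)))) (.split (nat_lit 9) (nat_lit 3) (.split (nat_lit 9) (nat_lit 6) (.sup (nat_lit 0x80000000000000000000000000007000a0009) (nat_lit 0x100040007000a00080000000000000000)) (.star (nat_lit 9) (nat_lit 2) (nat_lit 6))) (.non (nat_lit 1) (nat_lit 4) (nat_lit 0x40050) (nat_lit 0x1000000000000000000000001000100000000)))) (.non (nat_lit 1) (nat_lit 4) (nat_lit 0x55051) (nat_lit 0x2000300020001000000000001000200000001))) (.non (nat_lit 1) (nat_lit 4) (nat_lit 0x55411) (nat_lit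 0x2000200030002000100000000000100000001))) (.non (nat_lit 2) (nat_lit 6) (nat_lit 0x40505) (nat_lit 0x3000000000000000400030000000000010002))) (.non (nat_lit 2) (nat_lit 6) (nat_lit 0x40505) (nat_lit 0x3000000000000000300040000000000010002))) (.non (nat_lit 2) (nat_lit 4) (nat_lit 0x40005) (nat_lit 0x1000000000000000000000000000000010001))))

noncomputable def t758_35 : Tr := (.ex (nat_lit 4) (.split (nat_lit 9) (nat_lit 3) (.split (nat_lit 7) (nat_lit 0) (.split (nat_lit 8) (nat_lit 2) (.split (nat_lit 8) (nat_lit 7) (.pd (.cons (nat_lit 0) (nat_lit 8) (nat_lit 0) (nat_lit 0x3065442110) (nat_lit 0xf423f00000f423fb71aea2c2804737b71aea2c280473700000) (.cons (nat_lit 1) (nat_lit 5) (nat_lit 0) (nat_lit 0x3707042800) (nat_lit 0xf423f989655572cf423f00000f423fb71aea2c280000045c09) (.cons (nat_lit 1) (nat_lit 7) (nat_lit 0) (nat_lit 0x3205442200) (nat_lit 0xf423ff423f00000f423fb71ae1f156b71ae65b9700000f423f) (.cons (nat_lit 2) (nat_lit 5) (nat_lit 0) (nat_lit 0x3707043000) (nat_lit 0xf423ff423f7a11df423f00000f423fb71ae00000f423f3d08a)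 (.cons (nat_lit 2) (nat_lit 7) (nat_lit 0) (nat_lit 0x3805443000) (nat_lit 0xf423ff423f00000f423fb71ae1f156b71ae00000f423fb71ae) .nil))))) (.leaf (.cons (nat_lit 0x15014) (nat_lit 0x300020001000000000000000400030000) (.cons (nat_lit 0x10054) (nat_lit 0x100000000000000000001000200020000) (.cons (nat_lit 0x5501) (nat_lit 0x20003000400030000000000000001) (.cons (nat_lit 0x10015) (nat_lit 0x100000000000000000000000200020001) .nil)))) .nil)) (.non (nat_lit 1) (nat_lit 4) (nat_lit 0x1a810) (nat_lit 0x400030002000100000000000200000000))) (.non (nat_lit 1) (nat_lit 4) (nat_lit 0x68050) (nat_lit 0x1000200010000000000000002000300000000))) (.non (nat_lit 1) (nat_lit 4) (nat_lit 0x2a001) (nat_lit 0x100020001000000000000000000000002))) (.non (nat_lit 1) (nat_lit 4) (nat_lit 0x95051) (nat_lit 0x1000200020001000000000002000200000001))) (.split (nat_lit 0xa) (nat_lit 0) (.split (nat_lit 0xa) (nat_lit 1) (.split (nat_lit 0xa) (nat_lit 2) (.split (nat_lit 0xa) (nat_lit 3) (.split (nat_lit 0xa) (nat_lit 5) (.split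 (nat_lit 0xa) (nat_lit 6) (.split (nat_lit 0xa) (nat_lit 7) (.split (nat_lit 0xa) (nat_lit 8) (.split (nat_lit 0xa) (nat_lit 9) (.unj (nat_lit 0x55) (nat_lit 0x1000200020001) (nat_lit 0x101500) (nat_lit 0x10000000000000001000200020000000000000000)) (.non (nat_lit 1) (nat_lit 4) (nat_lit 0x155451) (nat_lit 0x10002000500060004000200000003000400000003))) (.non (nat_lit 1) (nat_lit 4) (nat_lit 0x155450) (nat_lit 0x20001000400030002000100000002000300000000))) (.non (nat_lit 1) (nat_lit 4) (nat_lit 0x115001) (nat_lit 0x10000000100020001000000000000000000000001))) (.non (nat_lit 1) (nat_lit 4) (nat_lit 0x115401) (nat_lit 0x10000000100020002000100000000000000000001))) (.non (nat_lit 1) (nat_lit 4) (nat_lit 0x115451) (nat_lit 0x10000000300040003000200000001000200000002))) (.non (nat_lit 1) (nat_lit 4) (nat_lit 0x155051) (nat_lit 0x10001000200020001000000000002000200000001))) (.star (nat_lit 0xa) (nat_lit 2) (nat_lit 4))) (.star (nat_lit 0xa) (nat_lit 1) (nat_lit 4))) (.non (nat_lit 1) (nat_lit 4) (nat_lit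 0x115411) (nat_lit 0x10000000200030002000100000000000100000002))))

noncomputable def t758_36 : Tr := (.ex (nat_lit 3) (.ex (nat_lit 4) (.split (nat_lit 7) (nat_lit 0) (.split (nat_lit 8) (nat_lit 2) (.split (nat_lit 8) (nat_lit 7) (.pd (.cons (nat_lit 0) (nat_lit 8) (nat_lit 0) (nat_lit 0x65442110) (nat_lit 0xf423fb71aea2c2804737f423fb71ae1f15600000) (.cons (nat_lit 1) (nat_lit 5) (nat_lit 0) (nat_lit 0x707042800) (nat_lit 0xa2c285b8d4f423f00000f423ff423fb71ae000005160d) (.cons (nat_lit 1) (nat_lit 7) (nat_lit 0) (nat_lit 0x205442200) (nat_lit 0xf423f00000f423fb71ae1f156f423f7a11d00000f423f) (.cons (nat_lit 2) (nat_lit 5) (nat_lit 0) (nat_lit 0x707043000) (nat_lit 0xf423f7a11df423f00000f423ff423f00000f423f3d08a) (.cons (nat_lit 2) (nat_lit 7) (nat_lit 0) (nat_lit 0x805443000) (nat_lit 0xf423f00000f423fb71ae1f156f423f00000f423fb71ae) .nil))))) (.leaf (.cons (nat_lit 0x15014) (nat_lit 0x300020001000000000000000400030000) (.cons (nat_lit 0x10054) (nat_lit 0x100000000000000000001000200020000) (.cons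 (nat_lit 0x5501) (nat_lit 0x20003000400030000000000000001) (.cons (nat_lit 0x10015) (nat_lit 0x100000000000000000000000200020001) .nil)))) .nil)) (.non (nat_lit 1) (nat_lit 4) (nat_lit 0x1a810) (nat_lit 0x400030002000100000000000200000000))) (.non (nat_lit 1) (nat_lit 4) (nat_lit 0x2a050) (nat_lit 0x300020001000000000002000400000000))) (.non (nat_lit 1) (nat_lit 4) (nat_lit 0x2a001) (nat_lit 0x100020001000000000000000000000002))) (.split (nat_lit 9) (nat_lit 0) (.split (nat_lit 9) (nat_lit 1) (.split (nat_lit 9) (nat_lit 2) (.split (nat_lit 9) (nat_lit 3) (.split (nat_lit 9) (nat_lit 5) (.split (nat_lit 9) (nat_lit 6) (.split (nat_lit 9) (nat_lit 7) (.split (nat_lit 9) (nat_lit 8) (.unj (nat_lit 0x55) (nat_lit 0x1000200020001) (nat_lit 0x41500) (nat_lit 0x1000000000001000200020000000000000000)) (.non (nat_lit 1) (nat_lit 4) (nat_lit 0x55011) (nat_lit 0x1000200020001000000000000000100000001))) (.non (nat_lit 1) (nat_lit 4) (nat_lit 0x55001) (nat_lit 0x1000100020001000000000000000000000001))) (.non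 (nat_lit 1) (nat_lit 4) (nat_lit 0x55401) (nat_lit 0x1000100020002000100000000000000000001))) (.non (nat_lit 1) (nat_lit 4) (nat_lit 0x55451) (nat_lit 0x1000300040003000200000001000200000002))) (.non (nat_lit 1) (nat_lit 6) (nat_lit 0x40550) (nat_lit 0x3000000000000000300040002000100000000))) (.star (nat_lit 9) (nat_lit 2) (nat_lit 4))) (.star (nat_lit 9) (nat_lit 1) (nat_lit 4))) (.non (nat_lit 1) (nat_lit 4) (nat_lit 0x55411) (nat_lit 0x1000200030002000100000000000100000002)))) (.split (nat_lit 9) (nat_lit 0) (.split (nat_lit 9) (nat_lit 2) (.split (nat_lit 9) (nat_lit 4) (.split (nat_lit 9) (nat_lit 5) (.split (nat_lit 9) (nat_lit 6) (.split (nat_lit 9) (nat_lit 7) (.split (nat_lit 9) (nat_lit 8) (.split (nat_lit 9) (nat_lit 1) (.st (nat_lit 3) (nat_lit 1) (nat_lit 4) (nat_lit 0x55051) (nat_lit 0x1000200020001000000000002000200000001) (nat_lit 1) (nat_lit 1) (.st (nat_lit 9) (nat_lit 1) (nat_lit 4) (nat_lit 0x55451) (nat_lit 0x2000500060004000200000003000400000003) (nat_lit 1) (nat_lit 1)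 t758_35)) (.sup (nat_lit 0x4000000000000000000000004000500030000) (nat_lit 0x20003000500040000000000000001))) (.non (nat_lit 1) (nat_lit 4) (nat_lit 0x50050) (nat_lit 0x1000100000000000000000001000100000000))) (.non (nat_lit 1) (nat_lit 4) (nat_lit 0x54050) (nat_lit 0x1000100010000000000000001000100000000))) (.non (nat_lit 1) (nat_lit 4) (nat_lit 0x55050) (nat_lit 0x1000100010001000000000001000100000000))) (.non (nat_lit 1) (nat_lit 4) (nat_lit 0x55450) (nat_lit 0x1000100010001000100000001000100000000))) (.non (nat_lit 1) (nat_lit 6) (nat_lit 0x40550) (nat_lit 0x3000000000000000300040002000100000000))) (.non (nat_lit 1) (nat_lit 4) (nat_lit 0x40050) (nat_lit 0x1000000000000000000000001000100000000))) (.non (nat_lit 1) (nat_lit 4) (nat_lit 0x55411) (nat_lit 0x1000200030002000100000000000100000002))))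

noncomputable def t758_37 : Tr := (.ex (nat_lit 4) (.split (nat_lit 7) (nat_lit 0) (.split (nat_lit 8) (nat_lit 2) (.split (nat_lit 8) (nat_lit 7) (.split (nat_lit 9) (nat_lit 1) (.pd (.cons (nat_lit 1) (nat_lit 5) (nat_lit 0) (nat_lit 0x9707042800) (nat_lit 0xf423fa2c285b8d4f423f00000f423ff423fb71ae000005160d) (.cons (nat_lit 1) (nat_lit 7) (nat_lit 0) (nat_lit 0x9205442200) (nat_lit 0xf423ff423f00000f423fb71ae1f156f423f7a11d00000f423f) (.cons (nat_lit 2) (nat_lit 5) (nat_lit 0) (nat_lit 0x1707043000) (nat_lit 0xf423ff423f7a11df423f00000f423ff423f00000b71ae28b04) (.cons (nat_lit 2) (nat_lit 7) (nat_lit 0) (nat_lit 0x1805443000) (nat_lit 0xf423ff423f00000f423fb71ae1f156f423f00000b71aea2c28) .nil)))) (.leaf (.cons (nat_lit 0x50014) (nat_lit 0x1000100000000000000000000000200020000) (.cons (nat_lit 0x40054) (nat_lit 0x1000000000000000000000001000200020000) (.cons (nat_lit 0x5501) (nat_lit 0x20003000400030000000000000001) .nil))) .nil)) (.non (nat_lit 2) (nat_lit 4) (nat_lit 0x95005) (nat_lit 0x1000100020001000000000000000000020002)))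 (.non (nat_lit 1) (nat_lit 4) (nat_lit 0x1a810) (nat_lit 0x400030002000100000000000200000000))) (.non (nat_lit 1) (nat_lit 4) (nat_lit 0x2a050) (nat_lit 0x300020001000000000002000400000000))) (.non (nat_lit 1) (nat_lit 4) (nat_lit 0x2a001) (nat_lit 0x100020001000000000000000000000002))) (.split (nat_lit 0xa) (nat_lit 0) (.split (nat_lit 0xa) (nat_lit 1) (.split (nat_lit 0xa) (nat_lit 2) (.split (nat_lit 0xa) (nat_lit 3) (.split (nat_lit 0xa) (nat_lit 5) (.split (nat_lit 0xa) (nat_lit 6) (.split (nat_lit 0xa) (nat_lit 7) (.split (nat_lit 0xa) (nat_lit 8) (.split (nat_lit 0xa) (nat_lit 9) (.unj (nat_lit 0x55) (nat_lit 0x1000200020001) (nat_lit 0x101500) (nat_lit 0x10000000000000001000200020000000000000000)) (.non (nat_lit 2) (nat_lit 6) (nat_lit 0x140504) (nat_lit 0x30002000000000000000300040000000000010000))) (.non (nat_lit 1) (nat_lit 4) (nat_lit 0x115011) (nat_lit 0x10000000200020001000000000000000100000001))) (.non (nat_lit 1) (nat_lit 4) (nat_lit 0x115001) (nat_lit 0x10000000100020001000000000000000000000001)))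 (.non (nat_lit 1) (nat_lit 4) (nat_lit 0x115401) (nat_lit 0x10000000100020002000100000000000000000001))) (.non (nat_lit 1) (nat_lit 4) (nat_lit 0x115451) (nat_lit 0x10000000300040003000200000001000200000002))) (.non (nat_lit 1) (nat_lit 6) (nat_lit 0x100550) (nat_lit 0x30000000000000000000300040002000100000000))) (.star (nat_lit 0xa) (nat_lit 2) (nat_lit 4))) (.star (nat_lit 0xa) (nat_lit 1) (nat_lit 4))) (.non (nat_lit 1) (nat_lit 4) (nat_lit 0x115411) (nat_lit 0x10000000200030002000100000000000100000002))))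

noncomputable def t758_38 : Tr := (.ex (nat_lit 8) (.split (nat_lit 8) (nat_lit 7) (.pd (.cons (nat_lit 1) (nat_lit 5) (nat_lit 0) (nat_lit 0x766042200) (nat_lit 0xf423fb71aea2c2800000f423ff423fb71ae00000f423f) (.cons (nat_lit 2) (nat_lit 5) (nat_lit 0) (nat_lit 0x187043000) (nat_lit 0xa2c28b71aef423f00000f423ff423f0000098965927bd) .nil)) (.leaf (.cons (nat_lit 0x15014) (nat_lit 0x300020001000000000000000300040000) (.cons (nat_lit 0x10054) (nat_lit 0x100000000000000000001000200020000) (.cons (nat_lit 0x10015) (nat_lit 0x100000000000000000000000200020001) .nil))) (.cons (nat_lit 0x111000011) (nat_lit 0x100100) (nat_lit 3) (nat_lit 0x234000010) (.cons (nat_lit 0x110000011) (nat_lit 0x1000100) (nat_lit 2) (nat_lit 0x230000010) .nil)))) (.non (nat_lit 2) (nat_lit 4) (nat_lit 0x1a804) (nat_lit 0x400030002000100000000000000020000))) (.split (nat_lit 9) (nat_lit 0) (.split (nat_lit 9) (nat_lit 1) (.split (nat_lit 9) (nat_lit 2) (.split (nat_lit 9) (nat_lit 3) (.split (nat_lit 9) (nat_lit 4) (.split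 (nat_lit 9) (nat_lit 5) (.split (nat_lit 9) (nat_lit 6) (.split (nat_lit 9) (nat_lit 7) (.st (nat_lit 8) (nat_lit 2) (nat_lit 4) (nat_lit 0x54004) (nat_lit 0x1000200010000000000000000000000010000) (nat_lit 1) (nat_lit 1) (.split (nat_lit 8) (nat_lit 7) (.split (nat_lit 9) (nat_lit 8) (.pd (.cons (nat_lit 1) (nat_lit 5) (nat_lit 0) (nat_lit 0x8766042200) (nat_lit 0xf423fb71aea2c289896500000f423ff423fb71ae00000f423f) (.cons (nat_lit 2) (nat_lit 5) (nat_lit 0) (nat_lit 0x8187043000) (nat_lit 0xf423f65b97b71aef423f00000f423ff423f0000061a795b8cc) .nil)) (.st (nat_lit 9) (nat_lit 2) (nat_lit 4) (nat_lit 0x55005) (nat_lit 0x2000300020001000000000000000000020001) (nat_lit 1) (nat_lit 1) (.leaf (.cons (nat_lit 0x54014) (nat_lit 0x1000200010000000000000000000200020000) (.cons (nat_lit 0x10054) (nat_lit 0x100000000000000000001000200020000) (.cons (nat_lit 0x10015) (nat_lit 0x100000000000000000000000200020001) .nil))) (.cons (nat_lit 0x1110000011) (nat_lit 0x1000100) (nat_lit 8) (nat_lit 0x2010000034) (.cons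 (nat_lit 0x1100000011) (nat_lit 0x10000100) (nat_lit 2) (nat_lit 0x3200000010) .nil))))) (.non (nat_lit 2) (nat_lit 4) (nat_lit 0x94004) (nat_lit 0x1000200010000000000000000000000010000))) (.non (nat_lit 1) (nat_lit 4) (nat_lit 0xa5400) (nat_lit 0x1000200030002000100000000000000000000)))) (.non (nat_lit 1) (nat_lit 4) (nat_lit 0x54000) (nat_lit 0x1000100010000000000000000000000000000))) (.non (nat_lit 1) (nat_lit 4) (nat_lit 0x55000) (nat_lit 0x1000100010001000000000000000000000000))) (.non (nat_lit 1) (nat_lit 4) (nat_lit 0x55400) (nat_lit 0x1000100010001000100000000000000000000))) (.non (nat_lit 1) (nat_lit 6) (nat_lit 0x54500) (nat_lit 0x3000200010000000300040000000000000000))) (.non (nat_lit 2) (nat_lit 4) (nat_lit 0x55045) (nat_lit 0x2000300020001000000000001000000020001))) (.non (nat_lit 0) (nat_lit 8) (nat_lit 0x40054) (nat_lit 0x1000000000000000000000001000200020000))) (.non (nat_lit 2) (nat_lit 4) (nat_lit 0x50004) (nat_lit 0x1000100000000000000000000000000010000))) (.non (nat_lit 2)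 (nat_lit 4) (nat_lit 0x50005) (nat_lit 0x1000100000000000000000000000000010001))))

noncomputable def t758_39 : Tr := (.ex (nat_lit 7) (.pd (.cons (nat_lit 0) (nat_lit 8) (nat_lit 0) (nat_lit 0x65442110) (nat_lit 0xf423fb71aea2c2804737f423fb71ae1f15600000) (.cons (nat_lit 1) (nat_lit 8) (nat_lit 0) (nat_lit 0x65442200) (nat_lit 0xf423fb71aea2c2804737f423fb71ae00000f423f) (.cons (nat_lit 2) (nat_lit 8) (nat_lit 0) (nat_lit 0x65443000) (nat_lit 0xf423fb71aea2c2804737f423f00000f423fb71ae) (.cons (nat_lit 3) (nat_lit 8) (nat_lit 0) (nat_lit 0x65440100) (nat_lit 0xf423fb71aea2c280473700000f423f54591437a2) .nil)))) t758_38) (.split (nat_lit 9) (nat_lit 0) (.split (nat_lit 9) (nat_lit 1) (.split (nat_lit 9) (nat_lit 3) (.split (nat_lit 9) (nat_lit 4) (.split (nat_lit 9) (nat_lit 5) (.split (nat_lit 9) (nat_lit 6) (.split (nat_lit 9) (nat_lit 8) (.split (nat_lit 9) (nat_lit 2) (.unj (nat_lit 0x55) (nat_lit 0x1000200020001) (nat_lit 0x45500) (nat_lit 0x1000000020003000400030000000000000000)) (.st (nat_lit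 7) (nat_lit 1) (nat_lit 4) (nat_lit 0x55000) (nat_lit 0x1000100020001000000000000000000000000) (nat_lit 1) (nat_lit 1) (.st (nat_lit 8) (nat_lit 1) (nat_lit 4) (nat_lit 0x55410) (nat_lit 0x2000200030002000100000000000100000000) (nat_lit 1) (nat_lit 1) (.st (nat_lit 9) (nat_lit 1) (nat_lit 4) (nat_lit 0x55010) (nat_lit 0x2000100020001000000000000000100000000) (nat_lit 1) (nat_lit 1) (.split (nat_lit 9) (nat_lit 2) (.split (nat_lit 8) (nat_lit 7) (.split (nat_lit 9) (nat_lit 7) (.pd (.cons (nat_lit 1) (nat_lit 5) (nat_lit 0) (nat_lit 0x2797042200) (nat_lit 0x7a11bf423f7a11df423f00000f423ff423f3d08800000f423f) (.cons (nat_lit 2) (nat_lit 5) (nat_lit 0) (nat_lit 0x7187043000) (nat_lit 0xf423f7a11b7a11df423f00000f423ff423f000007a1197a117) .nil)) (.leaf (.cons (nat_lit 0x50014) (nat_lit 0x1000100000000000000000000000200020000) (.cons (nat_lit 0x45500) (nat_lit 0x1000000020003000400030000000000000000) .nil)) .nil)) (.non (nat_lit 1) (nat_lit 4) (nat_lit 0x95000) (nat_lit 0x1000100020001000000000000000000000000)))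 (.non (nat_lit 1) (nat_lit 4) (nat_lit 0x65000) (nat_lit 0x1000100020001000000000000000000000000))) (.non (nat_lit 1) (nat_lit 4) (nat_lit 0xaa010) (nat_lit 0x2000100020001000000000000000200000000))))))) (.non (nat_lit 1) (nat_lit 4) (nat_lit 0x54000) (nat_lit 0x1000100010000000000000000000000000000))) (.non (nat_lit 1) (nat_lit 4) (nat_lit 0x45000) (nat_lit 0x1000000010001000000000000000000000000))) (.non (nat_lit 1) (nat_lit 4) (nat_lit 0x45400) (nat_lit 0x1000000010001000100000000000000000000))) (.non (nat_lit 1) (nat_lit 6) (nat_lit 0x54500) (nat_lit 0x3000100020000000300040000000000000000))) (.non (nat_lit 2) (nat_lit 4) (nat_lit 0x55444) (nat_lit 0x2000200030002000100000001000000010000))) (.non (nat_lit 2) (nat_lit 4) (nat_lit 0x54004) (nat_lit 0x1000100010000000000000000000000010000))) (.non (nat_lit 2) (nat_lit 4) (nat_lit 0x54005) (nat_lit 0x1000100010000000000000000000000010001))))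

noncomputable def t758_40 : Tr := (.ex (nat_lit 5) (.ex (nat_lit 6) (.split (nat_lit 8) (nat_lit 1) (.pd (.cons (nat_lit 1) (nat_lit 7) (nat_lit 0) (nat_lit 0x805442200) (nat_lit 0xf423f00000f423fb71ae1f156f423fb71ae00000f423f) (.cons (nat_lit 2) (nat_lit 7) (nat_lit 0) (nat_lit 0x105443000) (nat_lit 0xf423f00000f423fb71ae1f156f423f00000b71aea2c28) .nil)) t758_39) (.non (nat_lit 2) (nat_lit 4) (nat_lit 0x2a005) (nat_lit 0x300020001000000000000000000040002))) (.split (nat_lit 9) (nat_lit 0) (.split (nat_lit 9) (nat_lit 1) (.split (nat_lit 9) (nat_lit 2) (.split (nat_lit 9) (nat_lit 5) (.split (nat_lit 9) (nat_lit 7) (.split (nat_lit 9) (nat_lit 8) (.split (nat_lit 9) (nat_lit 3) (.split (nat_lit 9) (nat_lit 4) (.unj (nat_lit 0x55) (nat_lit 0x1000200020001) (nat_lit 0x45500) (nat_lit 0x1000000010002000200020000000000000000)) (.unj (nat_lit 0x55) (nat_lit 0x1000200020001) (nat_lit 0x41500) (nat_lit 0x1000000000001000100010000000000000000))) (.split (nat_lit 9) (nat_lit 4) (.sup (nat_lit 0x20009000a0005)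 (nat_lit 0x1000000030007000a00080000000000000000)) (.non (nat_lit 1) (nat_lit 6) (nat_lit 0x40550) (nat_lit 0x3000000000000000300040002000100000000)))) (.non (nat_lit 1) (nat_lit 4) (nat_lit 0x55000) (nat_lit 0x1000100010001000000000000000000000000))) (.non (nat_lit 1) (nat_lit 4) (nat_lit 0x45000) (nat_lit 0x1000000010001000000000000000000000000))) (.non (nat_lit 1) (nat_lit 4) (nat_lit 0x41400) (nat_lit 0x1000000000001000100000000000000000000))) (.star (nat_lit 9) (nat_lit 2) (nat_lit 6))) (.star (nat_lit 9) (nat_lit 1) (nat_lit 6))) (.non (nat_lit 2) (nat_lit 4) (nat_lit 0x55005) (nat_lit 0x1000100010001000000000000000000010001)))) (.split (nat_lit 9) (nat_lit 0) (.split (nat_lit 9) (nat_lit 1) (.split (nat_lit 9) (nat_lit 2) (.split (nat_lit 9) (nat_lit 3) (.split (nat_lit 9) (nat_lit 4) (.split (nat_lit 9) (nat_lit 6) (.split (nat_lit 9) (nat_lit 7) (.split (nat_lit 9) (nat_lit 8) (.unj (nat_lit 0x55) (nat_lit 0x1000200020001) (nat_lit 0x41500) (nat_lit 0x1000000000001000200020000000000000000))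 (.non (nat_lit 1) (nat_lit 4) (nat_lit 0x55400) (nat_lit 0x1000100010001000100000000000000000000))) (.non (nat_lit 1) (nat_lit 4) (nat_lit 0x45400) (nat_lit 0x1000000010001000100000000000000000000))) (.non (nat_lit 1) (nat_lit 4) (nat_lit 0x41400) (nat_lit 0x1000000000001000100000000000000000000))) (.non (nat_lit 1) (nat_lit 6) (nat_lit 0x40500) (nat_lit 0x1000000000000000100010000000000000000))) (.non (nat_lit 1) (nat_lit 6) (nat_lit 0x40550) (nat_lit 0x3000000000000000400030002000100000000))) (.non (nat_lit 1) (nat_lit 6) (nat_lit 0x40550) (nat_lit 0x3000000000000000400030001000200000000))) (.non (nat_lit 2) (nat_lit 4) (nat_lit 0x55404) (nat_lit 0x1000100010001000100000000000000010000))) (.non (nat_lit 2) (nat_lit 4) (nat_lit 0x55405) (nat_lit 0x1000100010001000100000000000000010001))))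

noncomputable def t758_41 : Tr := (.ex (nat_lit 3) (.ex (nat_lit 4) t758_40 (.split (nat_lit 9) (nat_lit 0) (.split (nat_lit 9) (nat_lit 1) (.split (nat_lit 9) (nat_lit 2) (.split (nat_lit 9) (nat_lit 3) (.split (nat_lit 9) (nat_lit 5) (.split (nat_lit 9) (nat_lit 7) (.split (nat_lit 9) (nat_lit 8) (.split (nat_lit 9) (nat_lit 6) (.unj (nat_lit 0x55) (nat_lit 0x1000200020001) (nat_lit 0x41500) (nat_lit 0x1000000000001000200020000000000000000)) (.unj (nat_lit 0x55) (nat_lit 0x1000200020001) (nat_lit 0x41500) (nat_lit 0x1000000000001000100010000000000000000))) (.non (nat_lit 1) (nat_lit 6) (nat_lit 0x54500) (nat_lit 0x3000200010000000300040000000000000000))) (.non (nat_lit 1) (nat_lit 6) (nat_lit 0x54500) (nat_lit 0x3000100020000000300040000000000000000))) (.non (nat_lit 1) (nat_lit 6) (nat_lit 0x40500) (nat_lit 0x1000000000000000100010000000000000000))) (.non (nat_lit 1) (nat_lit 6) (nat_lit 0x40550) (nat_lit 0x3000000000000000300040002000100000000))) (.star (nat_lit 9) (nat_lit 2) (nat_lit 4)))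 (.star (nat_lit 9) (nat_lit 1) (nat_lit 4))) (.non (nat_lit 2) (nat_lit 6) (nat_lit 0x40505) (nat_lit 0x3000000000000000300040000000000010002)))) (.split (nat_lit 9) (nat_lit 2) (.split (nat_lit 9) (nat_lit 4) (.split (nat_lit 9) (nat_lit 5) (.split (nat_lit 9) (nat_lit 7) (.split (nat_lit 9) (nat_lit 8) (.split (nat_lit 9) (nat_lit 0) (.split (nat_lit 9) (nat_lit 1) (.split (nat_lit 9) (nat_lit 6) (.split (nat_lit 9) (nat_lit 3) (.split (nat_lit 8) (nat_lit 1) (.sup (nat_lit 0x3000d00160020001a0000000000000000) (nat_lit 0x3000000000000000000000005000800070003)) (.non (nat_lit 2) (nat_lit 4) (nat_lit 0x2a005) (nat_lit 0x300020001000000000000000000040002))) (.split (nat_lit 9) (nat_lit 3) (.split (nat_lit 8) (nat_lit 1) (.sup (nat_lit 0x700000000000000000000000a000a00060000) (nat_lit 0x100040007000a00080000000000000000)) (.non (nat_lit 2) (nat_lit 4) (nat_lit 0x2a005) (nat_lit 0x300020001000000000000000000040002))) (.sup (nat_lit 0x800000000000000000000000a000700020000) (nat_lit 0x100040007000a00080000000000000000))))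 (.sup (nat_lit 0x20009000a0005) (nat_lit 0x1000000030007000a00080000000000000000))) (.split (nat_lit 9) (nat_lit 6) (.sup (nat_lit 0x8000000000000000000000009000a00070000) (nat_lit 0x100040007000a00080000000000000000)) (.star (nat_lit 9) (nat_lit 1) (nat_lit 6)))) (.split (nat_lit 9) (nat_lit 1) (.split (nat_lit 9) (nat_lit 6) (.split (nat_lit 9) (nat_lit 0) (.split (nat_lit 9) (nat_lit 3) (.split (nat_lit 8) (nat_lit 1) (.sup (nat_lit 0x100030006000800060000000000000000) (nat_lit 0x1000000000000000000000001000100010001)) (.non (nat_lit 2) (nat_lit 4) (nat_lit 0x68005) (nat_lit 0x1000200010000000000000000000000030002))) (.sup (nat_lit 0x7000f00170020001a0000000000000000) (nat_lit 0x5000000000000000000000006000300010003))) (.non (nat_lit 2) (nat_lit 4) (nat_lit 0x90085) (nat_lit 0x2000100000000000000000001000000020003))) (.non (nat_lit 1) (nat_lit 4) (nat_lit 0x45441) (nat_lit 0x2000000010002000100000001000000000001))) (.non (nat_lit 2) (nat_lit 4) (nat_lit 0x40005) (nat_lit 0x1000000000000000000000000000000010001))))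 (.non (nat_lit 2) (nat_lit 4) (nat_lit 0x55045) (nat_lit 0x2000300020001000000000001000000020001))) (.non (nat_lit 2) (nat_lit 4) (nat_lit 0x55444) (nat_lit 0x2000200030002000100000001000000010000))) (.non (nat_lit 1) (nat_lit 6) (nat_lit 0x40550) (nat_lit 0x3000000000000000400030002000100000000))) (.non (nat_lit 1) (nat_lit 6) (nat_lit 0x40550) (nat_lit 0x3000000000000000300040002000100000000))) (.non (nat_lit 1) (nat_lit 4) (nat_lit 0x40050) (nat_lit 0x1000000000000000000000001000100000000))))

noncomputable def t758_42 : Tr := (.ex (nat_lit 4) (.split (nat_lit 9) (nat_lit 2) (.split (nat_lit 8) (nat_lit 7) (.split (nat_lit 9) (nat_lit 7) (.split (nat_lit 8) (nat_lit 1) (.pd (.cons (nat_lit 1) (nat_lit 5) (nat_lit 0) (nat_lit 0x2797042200) (nat_lit 0x7a11bf423f7a11df423f00000f423ff423f3d08800000f423f) (.cons (nat_lit 1) (nat_lit 7) (nat_lit 0) (nat_lit 0x2805442200) (nat_lit 0xf423ff423f00000f423fb71ae1f156f423f7a11d00000f423f) (.cons (nat_lit 2) (nat_lit 5) (nat_lit 0) (nat_lit 0x7187043000)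 (nat_lit 0xf423f7a11b7a11df423f00000f423ff423f000007a1197a117) (.cons (nat_lit 2) (nat_lit 7) (nat_lit 0) (nat_lit 0x9105443000) (nat_lit 0xf423ff423f00000f423fb71ae1f156f423f00000b71aea2c28) .nil)))) (.leaf (.cons (nat_lit 0x50014) (nat_lit 0x1000100000000000000000000000200020000) (.cons (nat_lit 0x45500) (nat_lit 0x1000000020003000400030000000000000000) .nil)) .nil)) (.non (nat_lit 2) (nat_lit 4) (nat_lit 0xaa004) (nat_lit 0x1000200020001000000000000000000020000))) (.non (nat_lit 1) (nat_lit 4) (nat_lit 0x95000) (nat_lit 0x1000100020001000000000000000000000000))) (.non (nat_lit 1) (nat_lit 4) (nat_lit 0x65000) (nat_lit 0x1000100020001000000000000000000000000))) (.non (nat_lit 1) (nat_lit 4) (nat_lit 0xaa010) (nat_lit 0x2000100020001000000000000000200000000))) (.split (nat_lit 0xa) (nat_lit 0) (.split (nat_lit 0xa) (nat_lit 1) (.split (nat_lit 0xa) (nat_lit 2) (.split (nat_lit 0xa) (nat_lit 3) (.split (nat_lit 0xa) (nat_lit 5) (.split (nat_lit 0xa) (nat_lit 6) (.split (nat_lit 0xa) (nat_lit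 7) (.split (nat_lit 0xa) (nat_lit 8) (.split (nat_lit 0xa) (nat_lit 9) (.unj (nat_lit 0x55) (nat_lit 0x1000200020001) (nat_lit 0x101500) (nat_lit 0x10000000000000001000200020000000000000000)) (.non (nat_lit 1) (nat_lit 4) (nat_lit 0x155010) (nat_lit 0x10002000100020001000000000000000100000000))) (.non (nat_lit 1) (nat_lit 4) (nat_lit 0x155410) (nat_lit 0x10002000200030002000100000000000100000000))) (.non (nat_lit 1) (nat_lit 4) (nat_lit 0x155000) (nat_lit 0x10001000100020001000000000000000000000000))) (.non (nat_lit 1) (nat_lit 4) (nat_lit 0x155400) (nat_lit 0x10001000100020002000100000000000000000000))) (.non (nat_lit 1) (nat_lit 4) (nat_lit 0x155450) (nat_lit 0x10003000200040003000200000001000200000000))) (.non (nat_lit 1) (nat_lit 6) (nat_lit 0x100550) (nat_lit 0x30000000000000000000300040002000100000000))) (.star (nat_lit 0xa) (nat_lit 2) (nat_lit 4))) (.star (nat_lit 0xa) (nat_lit 1) (nat_lit 4))) (.non (nat_lit 2) (nat_lit 6) (nat_lit 0x100505) (nat_lit 0x30000000000000000000300040000000000010002))))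

noncomputable def t758_43 : Tr := (.split (nat_lit 9) (nat_lit 0) (.split (nat_lit 9) (nat_lit 1) (.split (nat_lit 9) (nat_lit 7) (.split (nat_lit 9) (nat_lit 8) (.split (nat_lit 9) (nat_lit 2) (.split (nat_lit 8) (nat_lit 1) (.sup (nat_lit 0x5000000000000000000000005000a00060000) (nat_lit 0x100040007000a00080000000000000000)) (.non (nat_lit 2) (nat_lit 4) (nat_lit 0x2a005) (nat_lit 0x300020001000000000000000000040002))) (.sup (nat_lit 0x6000f00170020001a0000000000000000) (nat_lit 0x4000000000000000000000003000600020001))) (.split (nat_lit 9) (nat_lit 2) (.split (nat_lit 9) (nat_lit 8) (.split (nat_lit 8) (nat_lit 1) (.sup (nat_lit 0x10006000b0010000d0000000000000000) (nat_lit 0x1000000000000000000000002000300020001)) (.non (nat_lit 2) (nat_lit 4) (nat_lit 0xa8004) (nat_lit 0x1000200010000000000000000000000020000))) (.non (nat_lit 1) (nat_lit 4) (nat_lit 0x6a010) (nat_lit 0x4000300020001000000000000000200000000))) (.non (nat_lit 1) (nat_lit 4) (nat_lit 0xa8050) (nat_lit 0x3000200010000000000000002000400000000))))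 (.split (nat_lit 9) (nat_lit 8) (.st (nat_lit 5) (nat_lit 1) (nat_lit 4) (nat_lit 0x55450) (nat_lit 0x3000200040003000200000001000200000000) (nat_lit 1) (nat_lit 1) (.st (nat_lit 6) (nat_lit 1) (nat_lit 4) (nat_lit 0x55400) (nat_lit 0x1000100020002000100000000000000000000) (nat_lit 1) (nat_lit 1) (.st (nat_lit 7) (nat_lit 1) (nat_lit 4) (nat_lit 0x55000) (nat_lit 0x1000100020001000000000000000000000000) (nat_lit 1) (nat_lit 1) (.st (nat_lit 8) (nat_lit 1) (nat_lit 4) (nat_lit 0x55410) (nat_lit 0x2000200030002000100000000000100000000) (nat_lit 1) (nat_lit 1) (.st (nat_lit 9) (nat_lit 1) (nat_lit 4) (nat_lit 0x55010) (nat_lit 0x2000100020001000000000000000100000000) (nat_lit 1) (nat_lit 1) t758_42))))) (.non (nat_lit 1) (nat_lit 4) (nat_lit 0x54000) (nat_lit 0x1000100010000000000000000000000000000)))) (.split (nat_lit 9) (nat_lit 7) (.split (nat_lit 9) (nat_lit 8) (.sup (nat_lit 0x9000000000000000000000000000a00070000) (nat_lit 0x100040007000a00080000000000000000)) (.non (nat_lit 2) (nat_lit 4)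 (nat_lit 0x50004) (nat_lit 0x1000100000000000000000000000000010000))) (.non (nat_lit 2) (nat_lit 4) (nat_lit 0x54004) (nat_lit 0x1000100010000000000000000000000010000)))) (.split (nat_lit 9) (nat_lit 1) (.split (nat_lit 9) (nat_lit 7) (.split (nat_lit 9) (nat_lit 8) (.sup (nat_lit 0x9000000000000000000000000000a00070008) (nat_lit 0x100040007000a00080000000000000000)) (.non (nat_lit 2) (nat_lit 4) (nat_lit 0x50005) (nat_lit 0x1000100000000000000000000000000010001))) (.non (nat_lit 1) (nat_lit 4) (nat_lit 0x55011) (nat_lit 0x2000100020001000000000000000100000001))) (.non (nat_lit 2) (nat_lit 4) (nat_lit 0x40005) (nat_lit 0x1000000000000000000000000000000010001))))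

noncomputable def t758_44 : Tr := (.ex (nat_lit 0) (.ex (nat_lit 1) (.ex (nat_lit 2) t758_41 (.split (nat_lit 9) (nat_lit 3) (.split (nat_lit 9) (nat_lit 4) (.split (nat_lit 9) (nat_lit 5) (.split (nat_lit 9) (nat_lit 6) t758_43 (.star (nat_lit 9) (nat_lit 2) (nat_lit 6))) (.non (nat_lit 1) (nat_lit 6) (nat_lit 0x40550) (nat_lit 0x3000000000000000400030001000200000000))) (.star (nat_lit 9) (nat_lit 2) (nat_lit 4))) (.non (nat_lit 1) (nat_lit 4) (nat_lit 0x40050) (nat_lit 0x1000000000000000000000001000100000000)))) (.split (nat_lit 9) (nat_lit 0) (.split (nat_lit 9) (nat_lit 4) (.split (nat_lit 9) (nat_lit 5) (.split (nat_lit 9) (nat_lit 6) (.split (nat_lit 9) (nat_lit 7) (.split (nat_lit 9) (nat_lit 8) (.split (nat_lit 9) (nat_lit 2) (.split (nat_lit 9) (nat_lit 3) (.split (nat_lit 9) (nat_lit 1) (.split (nat_lit 8) (nat_lit 1) (.sup (nat_lit 0x20007000b0010000d0000000000000000) (nat_lit 0x1000000000000000000000001000300030001)) (.non (nat_lit 2) (nat_lit 4) (nat_lit 0x6a004) (nat_lit 0x2000300020001000000000000000000040000)))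 (.non (nat_lit 2) (nat_lit 4) (nat_lit 0x90005) (nat_lit 0x1000100000000000000000000000000020001))) (.sup (nat_lit 0x8000000000000000000000009000a00070000) (nat_lit 0x100040007000a00080000000000000000))) (.split (nat_lit 9) (nat_lit 3) (.sup (nat_lit 0x9000000000000000000000000000a00070000) (nat_lit 0x100040007000a00080000000000000000)) (.non (nat_lit 1) (nat_lit 4) (nat_lit 0x40050) (nat_lit 0x1000000000000000000000001000100000000)))) (.non (nat_lit 2) (nat_lit 4) (nat_lit 0x50004) (nat_lit 0x1000100000000000000000000000000010000))) (.non (nat_lit 2) (nat_lit 4) (nat_lit 0x54004) (nat_lit 0x1000100010000000000000000000000010000))) (.star (nat_lit 9) (nat_lit 1) (nat_lit 6))) (.non (nat_lit 2) (nat_lit 4) (nat_lit 0x55404) (nat_lit 0x1000100010001000100000000000000010000))) (.star (nat_lit 9) (nat_lit 1) (nat_lit 4))) (.non (nat_lit 2) (nat_lit 4) (nat_lit 0x40005) (nat_lit 0x1000000000000000000000000000000010001)))) (.split (nat_lit 9) (nat_lit 1) (.split (nat_lit 9) (nat_lit 4) (.split (nat_lit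 9) (nat_lit 5) (.split (nat_lit 9) (nat_lit 6) (.split (nat_lit 9) (nat_lit 7) (.split (nat_lit 9) (nat_lit 8) (.split (nat_lit 9) (nat_lit 2) (.split (nat_lit 9) (nat_lit 3) (.split (nat_lit 9) (nat_lit 0) (.split (nat_lit 8) (nat_lit 1) (.sup (nat_lit 0x3000c00160020001a0000000000000000) (nat_lit 0x2000000000000000000000004000700070005)) (.non (nat_lit 2) (nat_lit 4) (nat_lit 0x68005) (nat_lit 0x1000200010000000000000000000000030002))) (.split (nat_lit 9) (nat_lit 0) (.split (nat_lit 8) (nat_lit 1) (.sup (nat_lit 0x20007000b0010000d0000000000000000) (nat_lit 0x2000000000000000000000001000300030003)) (.non (nat_lit 2) (nat_lit 4) (nat_lit 0xa0005) (nat_lit 0x1000100000000000000000000000000020002))) (.non (nat_lit 2) (nat_lit 4) (nat_lit 0x54005) (nat_lit 0x3000200010000000000000000000000030004)))) (.split (nat_lit 9) (nat_lit 0) (.split (nat_lit 9) (nat_lit 3) (.split (nat_lit 8) (nat_lit 1) (.sup (nat_lit 0x100030006000800060000000000000000) (nat_lit 0x1000000000000000000000001000100010001))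 (.non (nat_lit 2) (nat_lit 4) (nat_lit 0x68005) (nat_lit 0x1000200010000000000000000000000030002))) (.sup (nat_lit 0x7000f00170020001a0000000000000000) (nat_lit 0x5000000000000000000000006000300010003))) (.non (nat_lit 2) (nat_lit 4) (nat_lit 0x90085) (nat_lit 0x2000100000000000000000001000000020003)))) (.split (nat_lit 9) (nat_lit 3) (.sup (nat_lit 0x9000000000000000000000000000a00070008) (nat_lit 0x100040007000a00080000000000000000)) (.non (nat_lit 1) (nat_lit 4) (nat_lit 0x40050) (nat_lit 0x1000000000000000000000001000100000000)))) (.non (nat_lit 2) (nat_lit 4) (nat_lit 0x50005) (nat_lit 0x1000100000000000000000000000000010001))) (.non (nat_lit 2) (nat_lit 4) (nat_lit 0x54005) (nat_lit 0x1000100010000000000000000000000010001))) (.non (nat_lit 2) (nat_lit 4) (nat_lit 0x55005) (nat_lit 0x1000100010001000000000000000000010001))) (.non (nat_lit 2) (nat_lit 4) (nat_lit 0x55405) (nat_lit 0x1000100010001000100000000000000010001))) (.non (nat_lit 2) (nat_lit 6) (nat_lit 0x40505) (nat_lit 0x3000000000000000300040000000000010002)))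 (.non (nat_lit 2) (nat_lit 4) (nat_lit 0x40005) (nat_lit 0x1000000000000000000000000000000010001))))

noncomputable def t758_45 : Tr := (.ex (nat_lit 4) (.split (nat_lit 9) (nat_lit 2) (.split (nat_lit 7) (nat_lit 3) (.split (nat_lit 8) (nat_lit 7) (.split (nat_lit 8) (nat_lit 1) (.pd (.cons (nat_lit 1) (nat_lit 5) (nat_lit 0) (nat_lit 0x2737042200) (nat_lit 0xf423ff423f7a11df423f00000f423f7a11b3d08800000f423f) (.cons (nat_lit 1) (nat_lit 7) (nat_lit 0) (nat_lit 0x2805442200) (nat_lit 0xf423ff423f00000f423fb71ae1f156f423f7a11d00000f423f) (.cons (nat_lit 2) (nat_lit 5) (nat_lit 0) (nat_lit 0x9187047000) (nat_lit 0xf423f7a11b7a11df423f00000f423ff423f000007a1197a117) (.cons (nat_lit 2) (nat_lit 7) (nat_lit 0) (nat_lit 0x9105443000) (nat_lit 0xf423ff423f00000f423fb71ae1f156f423f00000b71aea2c28) .nil)))) (.leaf (.cons (nat_lit 0x50014) (nat_lit 0x1000100000000000000000000000200020000) (.cons (nat_lit 0x5540) (nat_lit 0x20003000400030001000000000000) (.cons (nat_lit 0x40015) (nat_lit 0x1000000000000000000000000000200020001)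 .nil))) .nil)) (.non (nat_lit 2) (nat_lit 4) (nat_lit 0x2a084) (nat_lit 0x200020001000000000001000000020000))) (.non (nat_lit 1) (nat_lit 4) (nat_lit 0x25040) (nat_lit 0x100020001000000000001000000000000))) (.non (nat_lit 1) (nat_lit 4) (nat_lit 0x2a040) (nat_lit 0x100020001000000000002000000000000))) (.non (nat_lit 1) (nat_lit 4) (nat_lit 0x95050) (nat_lit 0x1000100020001000000000002000200000000))) (.split (nat_lit 0xa) (nat_lit 0) (.split (nat_lit 0xa) (nat_lit 1) (.split (nat_lit 0xa) (nat_lit 2) (.split (nat_lit 0xa) (nat_lit 3) (.split (nat_lit 0xa) (nat_lit 5) (.split (nat_lit 0xa) (nat_lit 6) (.split (nat_lit 0xa) (nat_lit 7) (.split (nat_lit 0xa) (nat_lit 8) (.split (nat_lit 0xa) (nat_lit 9) (.unj (nat_lit 0x55) (nat_lit 0x1000200020001) (nat_lit 0x101500) (nat_lit 0x10000000000000001000200020000000000000000)) (.non (nat_lit 1) (nat_lit 6) (nat_lit 0x140510) (nat_lit 0x30002000000000000000300040000000100000000))) (.non (nat_lit 1) (nat_lit 4) (nat_lit 0x115450) (nat_lit 0x10000000200030002000100000002000100000000)))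 (.non (nat_lit 1) (nat_lit 4) (nat_lit 0x115040) (nat_lit 0x10000000100020001000000000001000000000000))) (.non (nat_lit 1) (nat_lit 4) (nat_lit 0x115440) (nat_lit 0x10000000100020002000100000001000000000000))) (.non (nat_lit 1) (nat_lit 4) (nat_lit 0x155450) (nat_lit 0x10001000200040003000200000003000200000000))) (.non (nat_lit 1) (nat_lit 4) (nat_lit 0x115050) (nat_lit 0x10000000100020001000000000002000100000000))) (.star (nat_lit 0xa) (nat_lit 2) (nat_lit 4))) (.star (nat_lit 0xa) (nat_lit 1) (nat_lit 4))) (.non (nat_lit 2) (nat_lit 6) (nat_lit 0x100505) (nat_lit 0x30000000000000000000300040000000000010002))))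

noncomputable def t758_46 : Tr := (.ex (nat_lit 2) (.ex (nat_lit 4) (.split (nat_lit 7) (nat_lit 3) (.split (nat_lit 8) (nat_lit 7) (.split (nat_lit 8) (nat_lit 1) (.pd (.cons (nat_lit 1) (nat_lit 5) (nat_lit 0) (nat_lit 0x737042200) (nat_lit 0xf423f7a11df423f00000f423f7a11b7a11900000f423f) (.cons (nat_lit 1) (nat_lit 7) (nat_lit 0) (nat_lit 0x805442200) (nat_lit 0xf423f00000f423fb71ae1f156f423fb71ae00000f423f) (.cons (nat_lit 2) (nat_lit 5) (nat_lit 0) (nat_lit 0x187047000) (nat_lit 0x7a11b7a11df423f00000f423ff423f000007a1197a117) (.cons (nat_lit 2) (nat_lit 7) (nat_lit 0) (nat_lit 0x105443000) (nat_lit 0xf423f00000f423fb71ae1f156f423f00000b71aea2c28) (.cons (nat_lit 3) (nat_lit 8) (nat_lit 0) (nat_lit 0x65440100) (nat_lit 0xf423fb71aea2c280473700000f423f54591437a2) .nil))))) (.leaf (.cons (nat_lit 0x15014) (nat_lit 0x300020001000000000000000300040000) (.cons (nat_lit 0x10054) (nat_lit 0x100000000000000000001000200020000) (.cons (nat_lit 0x5540) (nat_lit 0x20003000400030001000000000000) (.cons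 (nat_lit 0x10015) (nat_lit 0x100000000000000000000000200020001) .nil)))) .nil)) (.non (nat_lit 2) (nat_lit 4) (nat_lit 0x2a084) (nat_lit 0x200020001000000000001000000020000))) (.non (nat_lit 1) (nat_lit 4) (nat_lit 0x25040) (nat_lit 0x100020001000000000001000000000000))) (.non (nat_lit 1) (nat_lit 4) (nat_lit 0x2a040) (nat_lit 0x100020001000000000002000000000000))) (.split (nat_lit 9) (nat_lit 0) (.split (nat_lit 9) (nat_lit 1) (.split (nat_lit 9) (nat_lit 2) (.split (nat_lit 9) (nat_lit 3) (.split (nat_lit 9) (nat_lit 5) (.split (nat_lit 9) (nat_lit 6) (.split (nat_lit 9) (nat_lit 7) (.split (nat_lit 9) (nat_lit 8) (.unj (nat_lit 0x55) (nat_lit 0x1000200020001) (nat_lit 0x41500) (nat_lit 0x1000000000001000200020000000000000000)) (.non (nat_lit 1) (nat_lit 4) (nat_lit 0x55450) (nat_lit 0x1000200030002000100000002000100000000))) (.non (nat_lit 1) (nat_lit 4) (nat_lit 0x55040) (nat_lit 0x1000100020001000000000001000000000000))) (.non (nat_lit 1) (nat_lit 4) (nat_lit 0x55440) (nat_lit 0x1000100020002000100000001000000000000)))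 (.non (nat_lit 1) (nat_lit 6) (nat_lit 0x40500) (nat_lit 0x1000000000000000100010000000000000000))) (.non (nat_lit 1) (nat_lit 4) (nat_lit 0x55050) (nat_lit 0x1000100020001000000000002000100000000))) (.star (nat_lit 9) (nat_lit 2) (nat_lit 4))) (.star (nat_lit 9) (nat_lit 1) (nat_lit 4))) (.non (nat_lit 2) (nat_lit 6) (nat_lit 0x40505) (nat_lit 0x3000000000000000300040000000000010002)))) (.split (nat_lit 9) (nat_lit 1) (.split (nat_lit 9) (nat_lit 3) (.split (nat_lit 9) (nat_lit 4) (.split (nat_lit 9) (nat_lit 5) (.split (nat_lit 9) (nat_lit 6) (.split (nat_lit 9) (nat_lit 7) (.split (nat_lit 9) (nat_lit 8) (.split (nat_lit 9) (nat_lit 0) t758_45 (.sup (nat_lit 0x4000000000000000000000000000300050004) (nat_lit 0x20003000500040001000000000000))) (.non (nat_lit 1) (nat_lit 4) (nat_lit 0x54050) (nat_lit 0x1000100010000000000000001000100000000))) (.non (nat_lit 1) (nat_lit 4) (nat_lit 0x55040) (nat_lit 0x1000100020001000000000001000000000000))) (.star (nat_lit 9) (nat_lit 2) (nat_lit 6))) (.non (nat_lit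 1) (nat_lit 4) (nat_lit 0x45450) (nat_lit 0x1000000010001000100000001000100000000))) (.star (nat_lit 9) (nat_lit 2) (nat_lit 4))) (.non (nat_lit 1) (nat_lit 4) (nat_lit 0x40050) (nat_lit 0x1000000000000000000000001000100000000))) (.non (nat_lit 2) (nat_lit 4) (nat_lit 0x55045) (nat_lit 0x1000200020001000000000001000000020001))))

noncomputable def t758_47 : Tr := (.ex (nat_lit 4) (.split (nat_lit 7) (nat_lit 3) (.split (nat_lit 8) (nat_lit 7) (.split (nat_lit 9) (nat_lit 0) (.split (nat_lit 8) (nat_lit 1) (.pd (.cons (nat_lit 1) (nat_lit 5) (nat_lit 0) (nat_lit 0x737042200) (nat_lit 0xf423ff423f7a11df423f00000f423f7a11b7a11900000b71ae) (.cons (nat_lit 1) (nat_lit 7) (nat_lit 0) (nat_lit 0x805442200) (nat_lit 0xf423ff423f00000f423fb71ae1f156f423fb71ae00000b71ae) (.cons (nat_lit 2) (nat_lit 5) (nat_lit 0) (nat_lit 0x187047000) (nat_lit 0xf423f7a11b7a11df423f00000f423ff423f000007a1193d086) (.cons (nat_lit 2) (nat_lit 7) (nat_lit 0) (nat_lit 0x105443000) (nat_lit 0xf423ff423f00000f423fb71ae1f156f423f00000b71ae65b97)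 (.cons (nat_lit 3) (nat_lit 8) (nat_lit 0) (nat_lit 0x65440100) (nat_lit 0xf423f00000f423fb71aea2c280473700000f423f5459106711) .nil))))) (.leaf (.cons (nat_lit 0x15014) (nat_lit 0x300020001000000000000000300040000) (.cons (nat_lit 0x10054) (nat_lit 0x100000000000000000001000200020000) (.cons (nat_lit 0x5540) (nat_lit 0x20003000400030001000000000000) (.cons (nat_lit 0x10015) (nat_lit 0x100000000000000000000000200020001) .nil)))) .nil)) (.non (nat_lit 2) (nat_lit 4) (nat_lit 0x2a084) (nat_lit 0x200020001000000000001000000020000))) (.non (nat_lit 2) (nat_lit 4) (nat_lit 0x95045) (nat_lit 0x1000200020001000000000001000000020002))) (.non (nat_lit 1) (nat_lit 4) (nat_lit 0x25040) (nat_lit 0x100020001000000000001000000000000))) (.non (nat_lit 1) (nat_lit 4) (nat_lit 0x2a040) (nat_lit 0x100020001000000000002000000000000))) (.split (nat_lit 0xa) (nat_lit 0) (.split (nat_lit 0xa) (nat_lit 1) (.split (nat_lit 0xa) (nat_lit 2) (.split (nat_lit 0xa) (nat_lit 3) (.split (nat_lit 0xa) (nat_lit 5) (.split (nat_lit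 0xa) (nat_lit 6) (.split (nat_lit 0xa) (nat_lit 7) (.split (nat_lit 0xa) (nat_lit 8) (.split (nat_lit 0xa) (nat_lit 9) (.unj (nat_lit 0x55) (nat_lit 0x1000200020001) (nat_lit 0x101500) (nat_lit 0x10000000000000001000200020000000000000000)) (.non (nat_lit 1) (nat_lit 6) (nat_lit 0x140501) (nat_lit 0x30002000000000000000300040000000000000001))) (.non (nat_lit 1) (nat_lit 4) (nat_lit 0x115450) (nat_lit 0x10000000200030002000100000002000100000000))) (.non (nat_lit 1) (nat_lit 4) (nat_lit 0x115040) (nat_lit 0x10000000100020001000000000001000000000000))) (.non (nat_lit 1) (nat_lit 4) (nat_lit 0x115440) (nat_lit 0x10000000100020002000100000001000000000000))) (.non (nat_lit 1) (nat_lit 6) (nat_lit 0x100500) (nat_lit 0x10000000000000000000100010000000000000000))) (.non (nat_lit 1) (nat_lit 4) (nat_lit 0x115050) (nat_lit 0x10000000100020001000000000002000100000000))) (.star (nat_lit 0xa) (nat_lit 2) (nat_lit 4))) (.star (nat_lit 0xa) (nat_lit 1) (nat_lit 4))) (.non (nat_lit 1) (nat_lit 6) (nat_lit 0x140501)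 (nat_lit 0x30001000000000000000300040000000000000002))))

noncomputable def t758_48 : Tr := (.split (nat_lit 9) (nat_lit 5) (.split (nat_lit 9) (nat_lit 6) (.split (nat_lit 9) (nat_lit 7) (.split (nat_lit 9) (nat_lit 8) (.split (nat_lit 9) (nat_lit 2) (.st (nat_lit 0) (nat_lit 2) (nat_lit 4) (nat_lit 0x55045) (nat_lit 0x1000200020001000000000001000000020002) (nat_lit 1) (nat_lit 1) (.st (nat_lit 9) (nat_lit 2) (nat_lit 4) (nat_lit 0x55445) (nat_lit 0x2000500060004000200000003000000040003) (nat_lit 1) (nat_lit 1) (.ex (nat_lit 2) t758_47 (.split (nat_lit 0xa) (nat_lit 0) (.split (nat_lit 0xa) (nat_lit 1) (.split (nat_lit 0xa) (nat_lit 3) (.split (nat_lit 0xa) (nat_lit 4) (.split (nat_lit 0xa) (nat_lit 5) (.split (nat_lit 0xa) (nat_lit 6) (.split (nat_lit 0xa) (nat_lit 7) (.split (nat_lit 0xa) (nat_lit 8) (.split (nat_lit 0xa) (nat_lit 9) (.split (nat_lit 0xa) (nat_lit 2) (.split (nat_lit 9) (nat_lit 0) (.split (nat_lit 8) (nat_lit 1) (.sup (nat_lit 0x10007000b0010000d0001000000000000) (nat_lit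 0x20002000000000000000000000000000500050003)) (.non (nat_lit 2) (nat_lit 4) (nat_lit 0x2a084) (nat_lit 0x200020001000000000001000000020000))) (.non (nat_lit 2) (nat_lit 4) (nat_lit 0x95045) (nat_lit 0x1000200020001000000000001000000020002))) (.non (nat_lit 1) (nat_lit 4) (nat_lit 0x215050) (nat_lit 0x10000000100020001000000000002000200000000))) (.non (nat_lit 1) (nat_lit 4) (nat_lit 0x155451) (nat_lit 0x30002000300060004000200000005000400000001))) (.non (nat_lit 1) (nat_lit 4) (nat_lit 0x114050) (nat_lit 0x10000000100010000000000000001000100000000))) (.non (nat_lit 1) (nat_lit 4) (nat_lit 0x115040) (nat_lit 0x10000000100020001000000000001000000000000))) (.star (nat_lit 0xa) (nat_lit 2) (nat_lit 6))) (.non (nat_lit 1) (nat_lit 4) (nat_lit 0x105450) (nat_lit 0x10000000000010001000100000001000100000000))) (.star (nat_lit 0xa) (nat_lit 2) (nat_lit 4))) (.non (nat_lit 1) (nat_lit 4) (nat_lit 0x100050) (nat_lit 0x10000000000000000000000000001000100000000))) (.non (nat_lit 2) (nat_lit 4) (nat_lit 0x115045)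 (nat_lit 0x10000000200020001000000000001000000020001))) (.non (nat_lit 1) (nat_lit 4) (nat_lit 0x155451) (nat_lit 0x30001000300060004000200000005000400000002)))))) (.sup (nat_lit 0x4000000000000000000000000000300050004) (nat_lit 0x20003000500040001000000000000))) (.non (nat_lit 1) (nat_lit 4) (nat_lit 0x55450) (nat_lit 0x1000200030002000100000002000100000000))) (.non (nat_lit 1) (nat_lit 4) (nat_lit 0x55040) (nat_lit 0x1000100020001000000000001000000000000))) (.non (nat_lit 1) (nat_lit 4) (nat_lit 0x55440) (nat_lit 0x1000100020002000100000001000000000000))) (.non (nat_lit 2) (nat_lit 4) (nat_lit 0x55405) (nat_lit 0x1000100010001000100000000000000010001)))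

noncomputable def t758_49 : Tr := (.split (nat_lit 8) (nat_lit 1) (.pd (.cons (nat_lit 1) (nat_lit 5) (nat_lit 0) (nat_lit 0x387042200) (nat_lit 0xa2c28b71aef423f00000f423f98965927bd00000f423f) (.cons (nat_lit 2) (nat_lit 5) (nat_lit 0) (nat_lit 0x187048000) (nat_lit 0x65b97b71aef423f00000f423ff423f0000061a795b8cc) .nil)) (.ex (nat_lit 5) (.pd (.cons (nat_lit 0) (nat_lit 8) (nat_lit 0) (nat_lit 0x65442110) (nat_lit 0xf423fb71aea2c2804737f423fb71ae1f15600000) (.cons (nat_lit 1) (nat_lit 7) (nat_lit 0) (nat_lit 0x305442200) (nat_lit 0xf423f00000f423fb71ae1f156b71aea2c2800000f423f) (.cons (nat_lit 1) (nat_lit 8) (nat_lit 0) (nat_lit 0x65442200) (nat_lit 0xf423fb71aea2c2804737f423fb71ae00000f423f) (.cons (nat_lit 2) (nat_lit 7) (nat_lit 0) (nat_lit 0x105448000) (nat_lit 0xb71ae00000f423fb71ae1f156f423f00000a2c2898965) (.cons (nat_lit 2) (nat_lit 8) (nat_lit 0) (nat_lit 0x65443000) (nat_lit 0xf423fb71aea2c2804737f423f00000f423fb71ae) (.cons (nat_lit 3) (nat_lit 8) (nat_lit 0) (nat_lit 0x65440100)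 (nat_lit 0xf423fb71aea2c280473700000f423f54591437a2) .nil)))))) (.leaf (.cons (nat_lit 0x15014) (nat_lit 0x300020001000000000000000300040000) (.cons (nat_lit 0x10054) (nat_lit 0x100000000000000000001000100010000) (.cons (nat_lit 0x10015) (nat_lit 0x100000000000000000000000200020001) .nil))) .nil)) (.split (nat_lit 9) (nat_lit 0) (.split (nat_lit 9) (nat_lit 1) (.split (nat_lit 9) (nat_lit 2) (.split (nat_lit 9) (nat_lit 3) (.split (nat_lit 9) (nat_lit 4) (.split (nat_lit 9) (nat_lit 6) (.split (nat_lit 9) (nat_lit 7) (.split (nat_lit 9) (nat_lit 8) (.unj (nat_lit 0x55) (nat_lit 0x1000200020001) (nat_lit 0x41500) (nat_lit 0x1000000000001000200020000000000000000)) (.non (nat_lit 1) (nat_lit 4) (nat_lit 0x55400) (nat_lit 0x1000100010001000100000000000000000000))) (.non (nat_lit 1) (nat_lit 4) (nat_lit 0x45400) (nat_lit 0x1000000010001000100000000000000000000))) (.non (nat_lit 1) (nat_lit 4) (nat_lit 0x41400) (nat_lit 0x1000000000001000100000000000000000000))) (.non (nat_lit 1) (nat_lit 6) (nat_lit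 0x40500) (nat_lit 0x1000000000000000100010000000000000000))) (.non (nat_lit 1) (nat_lit 4) (nat_lit 0x55440) (nat_lit 0x1000100010001000100000001000000000000))) (.non (nat_lit 1) (nat_lit 4) (nat_lit 0x55450) (nat_lit 0x1000100010001000100000001000100000000))) (.non (nat_lit 2) (nat_lit 4) (nat_lit 0x55404) (nat_lit 0x1000100010001000100000000000000010000))) (.non (nat_lit 2) (nat_lit 4) (nat_lit 0x55405) (nat_lit 0x1000100010001000100000000000000010001))))) (.non (nat_lit 2) (nat_lit 4) (nat_lit 0x28084) (nat_lit 0x200010000000000000001000000020000)))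

noncomputable def t758_50 : Tr := (.ex (nat_lit 2) (.ex (nat_lit 4) (.split (nat_lit 8) (nat_lit 3) (.split (nat_lit 8) (nat_lit 7) t758_49 (.non (nat_lit 1) (nat_lit 4) (nat_lit 0x1a840) (nat_lit 0x400030002000100000002000000000000))) (.non (nat_lit 1) (nat_lit 4) (nat_lit 0x2a050) (nat_lit 0x300020001000000000004000200000000))) (.split (nat_lit 9) (nat_lit 0) (.split (nat_lit 9) (nat_lit 1) (.split (nat_lit 9) (nat_lit 2) (.split (nat_lit 9) (nat_lit 3) (.split (nat_lit 9) (nat_lit 5) (.split (nat_lit 9) (nat_lit 6) (.split (nat_lit 9) (nat_lit 7) (.split (nat_lit 9) (nat_lit 8) (.unj (nat_lit 0x55) (nat_lit 0x1000200020001) (nat_lit 0x41500) (nat_lit 0x1000000000001000200020000000000000000)) (.non (nat_lit 1) (nat_lit 6) (nat_lit 0x54500) (nat_lit 0x3000200010000000300040000000000000000))) (.non (nat_lit 1) (nat_lit 6) (nat_lit 0x54500) (nat_lit 0x3000100020000000300040000000000000000))) (.non (nat_lit 2) (nat_lit 4) (nat_lit 0x55444) (nat_lit 0x1000200020002000100000001000000010000))) (.non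 (nat_lit 1) (nat_lit 6) (nat_lit 0x40500) (nat_lit 0x1000000000000000100010000000000000000))) (.non (nat_lit 1) (nat_lit 6) (nat_lit 0x50540) (nat_lit 0x3000100000000000300040002000000000000))) (.star (nat_lit 9) (nat_lit 2) (nat_lit 4))) (.star (nat_lit 9) (nat_lit 1) (nat_lit 4))) (.non (nat_lit 2) (nat_lit 4) (nat_lit 0x55445) (nat_lit 0x1000400030002000100000002000000030002)))) (.split (nat_lit 9) (nat_lit 0) (.split (nat_lit 9) (nat_lit 1) (.split (nat_lit 9) (nat_lit 3) (.split (nat_lit 9) (nat_lit 4) (.split (nat_lit 9) (nat_lit 5) (.split (nat_lit 9) (nat_lit 6) (.split (nat_lit 9) (nat_lit 7) (.split (nat_lit 9) (nat_lit 8) (.split (nat_lit 9) (nat_lit 2) (.split (nat_lit 8) (nat_lit 1) (.split (nat_lit 8) (nat_lit 3) (.sup (nat_lit 0x10006000b0010000d0000000000000000) (nat_lit 0x2000000000000000000000001000300020001)) (.non (nat_lit 1) (nat_lit 4) (nat_lit 0x68050) (nat_lit 0x1000200010000000000000003000200000000))) (.non (nat_lit 2) (nat_lit 4) (nat_lit 0x28084) (nat_lit 0x200010000000000000001000000020000)))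 (.split (nat_lit 9) (nat_lit 2) (.split (nat_lit 8) (nat_lit 1) (.sup (nat_lit 0x7000000000000000000000000000a00060000) (nat_lit 0x100040007000a00080000000000000000)) (.non (nat_lit 2) (nat_lit 4) (nat_lit 0x28084) (nat_lit 0x200010000000000000001000000020000))) (.non (nat_lit 1) (nat_lit 4) (nat_lit 0x54050) (nat_lit 0x3000200010000000000000003000400000000)))) (.non (nat_lit 1) (nat_lit 4) (nat_lit 0x50050) (nat_lit 0x1000100000000000000000001000100000000))) (.non (nat_lit 1) (nat_lit 4) (nat_lit 0x54050) (nat_lit 0x1000100010000000000000001000100000000))) (.star (nat_lit 9) (nat_lit 2) (nat_lit 6))) (.non (nat_lit 1) (nat_lit 4) (nat_lit 0x55450) (nat_lit 0x1000100010001000100000001000100000000))) (.star (nat_lit 9) (nat_lit 2) (nat_lit 4))) (.non (nat_lit 1) (nat_lit 4) (nat_lit 0x40050) (nat_lit 0x1000000000000000000000001000100000000))) (.non (nat_lit 2) (nat_lit 4) (nat_lit 0x54045) (nat_lit 0x1000200010000000000000001000000020001))) (.non (nat_lit 2) (nat_lit 4) (nat_lit 0x55445) (nat_lit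 0x1000400030002000100000002000000030002))))

noncomputable def t758_51 : Tr := (.split (nat_lit 8) (nat_lit 3) (.split (nat_lit 7) (nat_lit 3) (.split (nat_lit 5) (nat_lit 3) t758_44 (.sup (nat_lit 0x300000000000000000000000300050003) (nat_lit 0x3000500040001000000000000))) (.split (nat_lit 5) (nat_lit 3) (.st (nat_lit 1) (nat_lit 2) (nat_lit 4) (nat_lit 0x15045) (nat_lit 0x200020001000000000001000000020001) (nat_lit 1) (nat_lit 1) (.st (nat_lit 3) (nat_lit 1) (nat_lit 4) (nat_lit 0x15050) (nat_lit 0x100020001000000000002000100000000) (nat_lit 1) (nat_lit 1) (.st (nat_lit 5) (nat_lit 2) (nat_lit 4) (nat_lit 0x15445) (nat_lit 0x300040003000200000002000000020001) (nat_lit 1) (nat_lit 1) (.st (nat_lit 6) (nat_lit 1) (nat_lit 4) (nat_lit 0x15440) (nat_lit 0x100020002000100000001000000000000) (nat_lit 1) (nat_lit 1) (.st (nat_lit 7) (nat_lit 1) (nat_lit 4) (nat_lit 0x15040) (nat_lit 0x100020001000000000001000000000000) (nat_lit 1) (nat_lit 1) (.st (nat_lit 8) (nat_lit 1) (nat_lit 4) (nat_lit 0x15450)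 (nat_lit 0x200030002000100000002000100000000) (nat_lit 1) (nat_lit 1) (.ex (nat_lit 0) t758_46 (.split (nat_lit 9) (nat_lit 1) (.split (nat_lit 9) (nat_lit 3) (.split (nat_lit 9) (nat_lit 4) t758_48 (.non (nat_lit 2) (nat_lit 6) (nat_lit 0x40505) (nat_lit 0x3000000000000000300040000000000010002))) (.non (nat_lit 1) (nat_lit 4) (nat_lit 0x55050) (nat_lit 0x1000100020001000000000002000100000000))) (.non (nat_lit 2) (nat_lit 4) (nat_lit 0x40005) (nat_lit 0x1000000000000000000000000000000010001)))))))))) (.non (nat_lit 1) (nat_lit 4) (nat_lit 0x5440) (nat_lit 0x10001000100000001000000000000)))) (.split (nat_lit 7) (nat_lit 3) (.split (nat_lit 5) (nat_lit 3) (.st (nat_lit 0) (nat_lit 2) (nat_lit 4) (nat_lit 0x15445) (nat_lit 0x400030002000100000002000000030002) (nat_lit 1) (nat_lit 1) (.st (nat_lit 1) (nat_lit 2) (nat_lit 4) (nat_lit 0x14045) (nat_lit 0x200010000000000000001000000020001) (nat_lit 1) (nat_lit 1) (.st (nat_lit 3) (nat_lit 2) (nat_lit 4) (nat_lit 0x15045) (nat_lit 0x300020001000000000002000000020001)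 (nat_lit 1) (nat_lit 1) (.st (nat_lit 6) (nat_lit 2) (nat_lit 4) (nat_lit 0x15444) (nat_lit 0x200020002000100000001000000010000) (nat_lit 1) (nat_lit 1) (.st (nat_lit 7) (nat_lit 2) (nat_lit 4) (nat_lit 0x15044) (nat_lit 0x200020001000000000001000000010000) (nat_lit 1) (nat_lit 1) (.st (nat_lit 8) (nat_lit 2) (nat_lit 4) (nat_lit 0x14044) (nat_lit 0x200010000000000000001000000010000) (nat_lit 1) (nat_lit 1) t758_50)))))) (.non (nat_lit 1) (nat_lit 4) (nat_lit 0x15440) (nat_lit 0x100010001000100000001000000000000))) (.non (nat_lit 1) (nat_lit 4) (nat_lit 0x14040) (nat_lit 0x100010000000000000001000000000000))))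

noncomputable def t758_52 : Tr := (.pd (.cons (nat_lit 0) (nat_lit 8) (nat_lit 0) (nat_lit 0x65442110) (nat_lit 0xf423fb71aea2c2804737f423fb71ae1f15600000) (.cons (nat_lit 1) (nat_lit 8) (nat_lit 0) (nat_lit 0x65442200) (nat_lit 0xf423fb71aea2c2804737f423fb71ae00000f423f) (.cons (nat_lit 2) (nat_lit 8) (nat_lit 0) (nat_lit 0x65443000) (nat_lit 0xf423fb71aea2c2804737f423f00000f423fb71ae) (.cons (nat_lit 3) (nat_lit 8) (nat_lit 0) (nat_lit 0x65440100) (nat_lit 0xf423fb71aea2c280473700000f423f54591437a2) .nil)))) (.ex (nat_lit 8) (.split (nat_lit 8) (nat_lit 7) (.pd (.cons (nat_lit 1) (nat_lit 5) (nat_lit 0) (nat_lit 0x287042200) (nat_lit 0xa2c28b71aef423f00000f423ff423f5b8d400000f423f) (.cons (nat_lit 2) (nat_lit 5) (nat_lit 0) (nat_lit 0x187043000) (nat_lit 0xa2c28b71aef423f00000f423ff423f0000098965927bd) .nil)) (.leaf (.cons (nat_lit 0x10014) (nat_lit 0x100000000000000000000000100010000) .nil) .nil)) (.non (nat_lit 1) (nat_lit 4) (nat_lit 0x1a810) (nat_lit 0x400030002000100000000000200000000)))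 (.split (nat_lit 9) (nat_lit 0) (.split (nat_lit 9) (nat_lit 1) (.split (nat_lit 9) (nat_lit 2) (.split (nat_lit 9) (nat_lit 3) (.split (nat_lit 9) (nat_lit 4) (.split (nat_lit 9) (nat_lit 5) (.split (nat_lit 9) (nat_lit 6) (.split (nat_lit 9) (nat_lit 7) (.st (nat_lit 8) (nat_lit 1) (nat_lit 4) (nat_lit 0x54010) (nat_lit 0x1000200010000000000000000000100000000) (nat_lit 1) (nat_lit 1) (.split (nat_lit 8) (nat_lit 7) (.split (nat_lit 9) (nat_lit 8) (.pd (.cons (nat_lit 1) (nat_lit 5) (nat_lit 0) (nat_lit 0x8287042200) (nat_lit 0xf423f65b97b71aef423f00000f423ff423f249e800000f423f) (.cons (nat_lit 2) (nat_lit 5) (nat_lit 0) (nat_lit 0x8187043000) (nat_lit 0xf423f65b97b71aef423f00000f423ff423f0000061a795b8cc) .nil)) (.leaf (.cons (nat_lit 0x10014) (nat_lit 0x100000000000000000000000100010000) .nil) .nil)) (.non (nat_lit 1) (nat_lit 4) (nat_lit 0x94010) (nat_lit 0x1000200010000000000000000000100000000))) (.non (nat_lit 1) (nat_lit 4) (nat_lit 0xa5400) (nat_lit 0x1000200030002000100000000000000000000))))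 (.non (nat_lit 1) (nat_lit 4) (nat_lit 0x54000) (nat_lit 0x1000100010000000000000000000000000000))) (.non (nat_lit 1) (nat_lit 4) (nat_lit 0x55000) (nat_lit 0x1000100010001000000000000000000000000))) (.non (nat_lit 1) (nat_lit 4) (nat_lit 0x55400) (nat_lit 0x1000100010001000100000000000000000000))) (.non (nat_lit 1) (nat_lit 6) (nat_lit 0x54500) (nat_lit 0x3000200010000000300040000000000000000))) (.non (nat_lit 1) (nat_lit 4) (nat_lit 0x50050) (nat_lit 0x1000100000000000000000001000100000000))) (.non (nat_lit 1) (nat_lit 4) (nat_lit 0x50010) (nat_lit 0x1000100000000000000000000000100000000))) (.non (nat_lit 2) (nat_lit 4) (nat_lit 0x50004) (nat_lit 0x1000100000000000000000000000000010000))) (.non (nat_lit 1) (nat_lit 4) (nat_lit 0x55051) (nat_lit 0x2000300020001000000000001000200000001)))))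

noncomputable def t758_53 : Tr := (.ex (nat_lit 6) (.split (nat_lit 8) (nat_lit 2) (.split (nat_lit 8) (nat_lit 1) (.pd (.cons (nat_lit 1) (nat_lit 7) (nat_lit 0) (nat_lit 0x205442200) (nat_lit 0xf423f00000f423fb71ae1f156f423f7a11d00000f423f) (.cons (nat_lit 2) (nat_lit 7) (nat_lit 0) (nat_lit 0x105443000) (nat_lit 0xf423f00000f423fb71ae1f156f423f00000b71aea2c28) .nil)) (.ex (nat_lit 7) t758_52 (.split (nat_lit 9) (nat_lit 0) (.split (nat_lit 9) (nat_lit 1) (.split (nat_lit 9) (nat_lit 2) (.split (nat_lit 9) (nat_lit 3) (.split (nat_lit 9) (nat_lit 4) (.split (nat_lit 9) (nat_lit 5) (.split (nat_lit 9) (nat_lit 6) (.split (nat_lit 9) (nat_lit 8) (.unj (nat_lit 0x55) (nat_lit 0x1000200020001) (nat_lit 0x45500) (nat_lit 0x1000000020003000400030000000000000000)) (.non (nat_lit 1) (nat_lit 4) (nat_lit 0x54000) (nat_lit 0x1000100010000000000000000000000000000))) (.non (nat_lit 1) (nat_lit 4) (nat_lit 0x45000) (nat_lit 0x1000000010001000000000000000000000000))) (.non (nat_lit 1) (nat_lit 4) (nat_lit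 0x45400) (nat_lit 0x1000000010001000100000000000000000000))) (.non (nat_lit 1) (nat_lit 6) (nat_lit 0x54500) (nat_lit 0x3000100020000000300040000000000000000))) (.non (nat_lit 1) (nat_lit 4) (nat_lit 0x54050) (nat_lit 0x1000100010000000000000001000100000000))) (.non (nat_lit 1) (nat_lit 4) (nat_lit 0x54010) (nat_lit 0x1000100010000000000000000000100000000))) (.non (nat_lit 2) (nat_lit 4) (nat_lit 0x54004) (nat_lit 0x1000100010000000000000000000000010000))) (.non (nat_lit 1) (nat_lit 4) (nat_lit 0x55411) (nat_lit 0x2000200030002000100000000000100000001))))) (.non (nat_lit 2) (nat_lit 4) (nat_lit 0x2a005) (nat_lit 0x300020001000000000000000000040002))) (.non (nat_lit 1) (nat_lit 4) (nat_lit 0x2a050) (nat_lit 0x300020001000000000002000400000000))) (.split (nat_lit 9) (nat_lit 0) (.split (nat_lit 9) (nat_lit 1) (.split (nat_lit 9) (nat_lit 2) (.split (nat_lit 9) (nat_lit 3) (.split (nat_lit 9) (nat_lit 5) (.split (nat_lit 9) (nat_lit 7) (.split (nat_lit 9) (nat_lit 8) (.split (nat_lit 9) (nat_lit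 4) (.unj (nat_lit 0x55) (nat_lit 0x1000200020001) (nat_lit 0x45500) (nat_lit 0x1000000010002000200020000000000000000)) (.unj (nat_lit 0x10014) (nat_lit 0x100000000000000000000000100010000) (nat_lit 0x41500) (nat_lit 0x1000000000001000100010000000000000000))) (.non (nat_lit 1) (nat_lit 4) (nat_lit 0x55000) (nat_lit 0x1000100010001000000000000000000000000))) (.non (nat_lit 1) (nat_lit 4) (nat_lit 0x45000) (nat_lit 0x1000000010001000000000000000000000000))) (.non (nat_lit 1) (nat_lit 4) (nat_lit 0x41400) (nat_lit 0x1000000000001000100000000000000000000))) (.non (nat_lit 1) (nat_lit 4) (nat_lit 0x55050) (nat_lit 0x1000100010001000000000001000100000000))) (.star (nat_lit 9) (nat_lit 2) (nat_lit 6))) (.star (nat_lit 9) (nat_lit 1) (nat_lit 6))) (.non (nat_lit 2) (nat_lit 4) (nat_lit 0x55005) (nat_lit 0x1000100010001000000000000000000010001))))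

noncomputable def t758_54 : Tr := (.ex (nat_lit 7) (.split (nat_lit 8) (nat_lit 7) (.pd (.cons (nat_lit 1) (nat_lit 5) (nat_lit 0) (nat_lit 0x3287042200) (nat_lit 0xf423fa2c28b71aef423f00000f423fb71ae4734e00000f423f) (.cons (nat_lit 1) (nat_lit 8) (nat_lit 0) (nat_lit 0x3065442200) (nat_lit 0xf423f00000f423fb71aea2c2804737b71aea2c2800000f423f) (.cons (nat_lit 2) (nat_lit 5) (nat_lit 0) (nat_lit 0x3187043000) (nat_lit 0xf423fa2c28b71aef423f00000f423fb71ae0000098965927bd) (.cons (nat_lit 2) (nat_lit 8) (nat_lit 0) (nat_lit 0x3065443000) (nat_lit 0xf423f00000f423fb71aea2c2804737b71ae00000f423fb71ae) (.cons (nat_lit 3) (nat_lit 8) (nat_lit 0) (nat_lit 0x9065440100) (nat_lit 0xf423f00000f423fb71aea2c280473700000f423f54591437a2) .nil))))) (.ex (nat_lit 9) (.pd (.cons (nat_lit 0) (nat_lit 8) (nat_lit 0) (nat_lit 0x3065442110) (nat_lit 0xf423f00000f423fb71aea2c2804737b71aea2c280473700000) .nil) (.leaf (.cons (nat_lit 0x10014) (nat_lit 0x100000000000000000000000100010000) .nil) .nil)) (.split (nat_lit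 0xa) (nat_lit 0) (.split (nat_lit 0xa) (nat_lit 1) (.split (nat_lit 0xa) (nat_lit 2) (.split (nat_lit 0xa) (nat_lit 3) (.split (nat_lit 0xa) (nat_lit 4) (.split (nat_lit 0xa) (nat_lit 5) (.split (nat_lit 0xa) (nat_lit 6) (.split (nat_lit 0xa) (nat_lit 7) (.split (nat_lit 0xa) (nat_lit 8) (.leaf (.cons (nat_lit 0x10014) (nat_lit 0x100000000000000000000000100010000) (.cons (nat_lit 0x140054) (nat_lit 0x10002000000000000000000000003000400030000) .nil)) .nil) (.non (nat_lit 1) (nat_lit 4) (nat_lit 0x150050) (nat_lit 0x10001000100000000000000000001000100000000))) (.non (nat_lit 1) (nat_lit 4) (nat_lit 0x155410) (nat_lit 0x20001000200030002000100000000000100000000))) (.non (nat_lit 1) (nat_lit 4) (nat_lit 0x155050) (nat_lit 0x10001000100010001000000000001000100000000))) (.non (nat_lit 1) (nat_lit 4) (nat_lit 0x155450) (nat_lit 0x10001000100010001000100000001000100000000))) (.non (nat_lit 1) (nat_lit 6) (nat_lit 0x140540) (nat_lit 0x30002000000000000000300040001000000000000))) (.non (nat_lit 1) (nat_lit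 4) (nat_lit 0x140040) (nat_lit 0x10001000000000000000000000001000000000000))) (.non (nat_lit 1) (nat_lit 4) (nat_lit 0x140050) (nat_lit 0x10001000000000000000000000001000100000000))) (.non (nat_lit 2) (nat_lit 4) (nat_lit 0x155045) (nat_lit 0x30002000300020001000000000001000000040002))) (.non (nat_lit 3) (nat_lit 8) (nat_lit 0x140015) (nat_lit 0x20001000000000000000000000000000300040003))))) (.non (nat_lit 1) (nat_lit 4) (nat_lit 0x1a810) (nat_lit 0x400030002000100000000000200000000))) (.split (nat_lit 0xa) (nat_lit 0) (.split (nat_lit 0xa) (nat_lit 1) (.split (nat_lit 0xa) (nat_lit 2) (.split (nat_lit 0xa) (nat_lit 3) (.split (nat_lit 0xa) (nat_lit 4) (.split (nat_lit 0xa) (nat_lit 5) (.split (nat_lit 0xa) (nat_lit 6) (.split (nat_lit 0xa) (nat_lit 8) (.split (nat_lit 0xa) (nat_lit 9) (.unj (nat_lit 0x55) (nat_lit 0x1000200020001) (nat_lit 0x105500) (nat_lit 0x10000000000020003000400030000000000000000)) (.non (nat_lit 1) (nat_lit 4) (nat_lit 0x155410) (nat_lit 0x20001000200030002000100000000000100000000)))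 (.non (nat_lit 1) (nat_lit 4) (nat_lit 0x114000) (nat_lit 0x10000000100010000000000000000000000000000))) (.non (nat_lit 1) (nat_lit 4) (nat_lit 0x105000) (nat_lit 0x10000000000010001000000000000000000000000))) (.non (nat_lit 1) (nat_lit 4) (nat_lit 0x105400) (nat_lit 0x10000000000010001000100000000000000000000))) (.non (nat_lit 1) (nat_lit 6) (nat_lit 0x114500) (nat_lit 0x30000000100020000000300040000000000000000))) (.non (nat_lit 1) (nat_lit 4) (nat_lit 0x114050) (nat_lit 0x10000000100010000000000000001000100000000))) (.non (nat_lit 1) (nat_lit 4) (nat_lit 0x114010) (nat_lit 0x10000000100010000000000000000000100000000))) (.non (nat_lit 2) (nat_lit 4) (nat_lit 0x114004) (nat_lit 0x10000000100010000000000000000000000010000))) (.non (nat_lit 1) (nat_lit 4) (nat_lit 0x115411) (nat_lit 0x20000000200030002000100000000000100000001))))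

noncomputable def t758_55 : Tr := (.ex (nat_lit 6) (.split (nat_lit 8) (nat_lit 2) (.split (nat_lit 9) (nat_lit 3) (.split (nat_lit 8) (nat_lit 1) (.pd (.cons (nat_lit 1) (nat_lit 7) (nat_lit 0) (nat_lit 0x3205442200) (nat_lit 0xf423ff423f00000f423fb71ae1f156b71ae65b9700000f423f) (.cons (nat_lit 2) (nat_lit 7) (nat_lit 0) (nat_lit 0x3105443000) (nat_lit 0xf423ff423f00000f423fb71ae1f156b71ae00000b71aea2c28) .nil)) t758_54) (.non (nat_lit 2) (nat_lit 4) (nat_lit 0x2a005) (nat_lit 0x300020001000000000000000000040002))) (.split (nat_lit 9) (nat_lit 3) (.split (nat_lit 8) (nat_lit 1) (.pd (.cons (nat_lit 1) (nat_lit 7) (nat_lit 0) (nat_lit 0x3205442200) (nat_lit 0xf423ff423f00000f423fb71ae1f1567a11e3d08b00000f423f) (.cons (nat_lit 2) (nat_lit 7) (nat_lit 0) (nat_lit 0x3105443000) (nat_lit 0xf423ff423f00000f423fb71ae1f1567a11e00000b71aea2c28) .nil)) (.st (nat_lit 7) (nat_lit 1) (nat_lit 4) (nat_lit 0x95050) (nat_lit 0x1000200020001000000000002000200000000) (nat_lit 1) (nat_lit 1) (.split (nat_lit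 8) (nat_lit 7) (.pd (.cons (nat_lit 1) (nat_lit 5) (nat_lit 0) (nat_lit 0x3287042200) (nat_lit 0xf423fa2c28b71aef423f00000f423f7a11e1e84200000f423f) (.cons (nat_lit 1) (nat_lit 8) (nat_lit 0) (nat_lit 0x3065442200) (nat_lit 0xf423f00000f423fb71aea2c28047377a11e7a11c00000f423f) (.cons (nat_lit 2) (nat_lit 5) (nat_lit 0) (nat_lit 0x3187043000) (nat_lit 0xf423fa2c28b71aef423f00000f423f7a11e0000098965927bd) (.cons (nat_lit 2) (nat_lit 8) (nat_lit 0) (nat_lit 0x3065443000) (nat_lit 0xf423f00000f423fb71aea2c28047377a11e00000f423fb71ae) (.cons (nat_lit 3) (nat_lit 8) (nat_lit 0) (nat_lit 0x9065440100) (nat_lit 0xf423f00000f423fb71aea2c280473700000f423f54591437a2) .nil))))) (.leaf (.cons (nat_lit 0x10014) (nat_lit 0x100000000000000000000000100010000) (.cons (nat_lit 0x40054) (nat_lit 0x1000000000000000000000001000100010000) .nil)) .nil)) (.non (nat_lit 1) (nat_lit 4) (nat_lit 0x1a810) (nat_lit 0x400030002000100000000000200000000))))) (.non (nat_lit 2) (nat_lit 4) (nat_lit 0x2a005) (nat_lit 0x300020001000000000000000000040002)))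 (.non (nat_lit 1) (nat_lit 4) (nat_lit 0x54050) (nat_lit 0x3000200010000000000000004000300000000)))) (.non (nat_lit 1) (nat_lit 4) (nat_lit 0x68050) (nat_lit 0x1000200010000000000000002000300000000))) (.split (nat_lit 0xa) (nat_lit 0) (.split (nat_lit 0xa) (nat_lit 1) (.split (nat_lit 0xa) (nat_lit 2) (.split (nat_lit 0xa) (nat_lit 3) (.split (nat_lit 0xa) (nat_lit 5) (.split (nat_lit 0xa) (nat_lit 7) (.split (nat_lit 0xa) (nat_lit 8) (.split (nat_lit 0xa) (nat_lit 9) (.split (nat_lit 0xa) (nat_lit 4) (.unj (nat_lit 0x55) (nat_lit 0x1000200020001) (nat_lit 0x105500) (nat_lit 0x10000000000010002000200020000000000000000)) (.unj (nat_lit 0x10014) (nat_lit 0x100000000000000000000000100010000) (nat_lit 0x101500) (nat_lit 0x10000000000000001000100010000000000000000))) (.non (nat_lit 1) (nat_lit 4) (nat_lit 0x155050) (nat_lit 0x10001000100010001000000000001000100000000))) (.non (nat_lit 1) (nat_lit 4) (nat_lit 0x115000) (nat_lit 0x10000000100010001000000000000000000000000))) (.non (nat_lit 1) (nat_lit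 4) (nat_lit 0x105000) (nat_lit 0x10000000000010001000000000000000000000000))) (.non (nat_lit 1) (nat_lit 4) (nat_lit 0x101400) (nat_lit 0x10000000000000001000100000000000000000000))) (.non (nat_lit 1) (nat_lit 4) (nat_lit 0x115050) (nat_lit 0x10000000100010001000000000001000100000000))) (.star (nat_lit 0xa) (nat_lit 2) (nat_lit 6))) (.star (nat_lit 0xa) (nat_lit 1) (nat_lit 6))) (.non (nat_lit 1) (nat_lit 4) (nat_lit 0x155451) (nat_lit 0x40001000400050006000300000002000300000002))))

noncomputable def t758_56 : Tr := (.ex (nat_lit 4) (.ex (nat_lit 5) t758_55 (.split (nat_lit 0xa) (nat_lit 0) (.split (nat_lit 0xa) (nat_lit 1) (.split (nat_lit 0xa) (nat_lit 2) (.split (nat_lit 0xa) (nat_lit 3) (.split (nat_lit 0xa) (nat_lit 4) (.split (nat_lit 0xa) (nat_lit 6) (.split (nat_lit 0xa) (nat_lit 7) (.split (nat_lit 0xa) (nat_lit 8) (.split (nat_lit 0xa) (nat_lit 9) (.unj (nat_lit 0x10014) (nat_lit 0x100000000000000000000000100010000) (nat_lit 0x101500) (nat_lit 0x10000000000000001000200020000000000000000))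 (.non (nat_lit 1) (nat_lit 4) (nat_lit 0x155450) (nat_lit 0x10001000100010001000100000001000100000000))) (.non (nat_lit 1) (nat_lit 4) (nat_lit 0x115400) (nat_lit 0x10000000100010001000100000000000000000000))) (.non (nat_lit 1) (nat_lit 4) (nat_lit 0x105400) (nat_lit 0x10000000000010001000100000000000000000000))) (.non (nat_lit 1) (nat_lit 4) (nat_lit 0x101400) (nat_lit 0x10000000000000001000100000000000000000000))) (.non (nat_lit 1) (nat_lit 6) (nat_lit 0x100500) (nat_lit 0x10000000000000000000100010000000000000000))) (.non (nat_lit 1) (nat_lit 4) (nat_lit 0x115450) (nat_lit 0x10000000100010001000100000001000100000000))) (.non (nat_lit 1) (nat_lit 4) (nat_lit 0x115410) (nat_lit 0x10000000100010001000100000000000100000000))) (.non (nat_lit 2) (nat_lit 4) (nat_lit 0x115404) (nat_lit 0x10000000100010001000100000000000000010000))) (.non (nat_lit 2) (nat_lit 4) (nat_lit 0x115405) (nat_lit 0x10000000100010001000100000000000000010001)))) (.split (nat_lit 0xa) (nat_lit 0) (.split (nat_lit 0xa) (nat_lit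 1) (.split (nat_lit 0xa) (nat_lit 2) (.split (nat_lit 0xa) (nat_lit 3) (.split (nat_lit 0xa) (nat_lit 5) (.split (nat_lit 0xa) (nat_lit 7) (.split (nat_lit 0xa) (nat_lit 8) (.split (nat_lit 0xa) (nat_lit 9) (.split (nat_lit 0xa) (nat_lit 6) (.unj (nat_lit 0x10014) (nat_lit 0x100000000000000000000000100010000) (nat_lit 0x101500) (nat_lit 0x10000000000000001000200020000000000000000)) (.unj (nat_lit 0x10014) (nat_lit 0x100000000000000000000000100010000) (nat_lit 0x101500) (nat_lit 0x10000000000000001000100010000000000000000))) (.non (nat_lit 1) (nat_lit 6) (nat_lit 0x140540) (nat_lit 0x30002000000000000000300040001000000000000))) (.non (nat_lit 1) (nat_lit 4) (nat_lit 0x155450) (nat_lit 0x20001000400030002000100000002000300000000))) (.non (nat_lit 1) (nat_lit 6) (nat_lit 0x114500) (nat_lit 0x30000000100020000000300040000000000000000))) (.non (nat_lit 1) (nat_lit 6) (nat_lit 0x100500) (nat_lit 0x10000000000000000000100010000000000000000))) (.non (nat_lit 1) (nat_lit 6) (nat_lit 0x140540) (nat_lit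 0x30001000000000000000300040002000000000000))) (.star (nat_lit 0xa) (nat_lit 2) (nat_lit 4))) (.star (nat_lit 0xa) (nat_lit 1) (nat_lit 4))) (.non (nat_lit 2) (nat_lit 6) (nat_lit 0x100505) (nat_lit 0x30000000000000000000300040000000000010002))))

noncomputable def t758_57 : Tr := (.pd (.cons (nat_lit 1) (nat_lit 5) (nat_lit 0) (nat_lit 0x33287042200) (nat_lit 0xf423ff423fa2c28b71aef423f00000f423f7a11d1e84100000f423f) (.cons (nat_lit 2) (nat_lit 5) (nat_lit 0) (nat_lit 0x33187043000) (nat_lit 0xf423ff423fa2c28b71aef423f00000f423f7a11d0000098965927bd) .nil)) (.ex (nat_lit 5) (.pd (.cons (nat_lit 1) (nat_lit 7) (nat_lit 0) (nat_lit 0x33205442200) (nat_lit 0xf423ff423ff423f00000f423fb71ae1f1567a11d3d08a00000f423f) (.cons (nat_lit 1) (nat_lit 8) (nat_lit 0) (nat_lit 0x33065442200) (nat_lit 0xf423ff423f00000f423fb71aea2c28047377a11d7a11b00000f423f) (.cons (nat_lit 2) (nat_lit 7) (nat_lit 0) (nat_lit 0x33105443000) (nat_lit 0xf423ff423ff423f00000f423fb71ae1f1567a11d00000b71aea2c28) (.cons (nat_lit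 2) (nat_lit 8) (nat_lit 0) (nat_lit 0x33065443000) (nat_lit 0xf423ff423f00000f423fb71aea2c28047377a11d00000f423fb71ae) (.cons (nat_lit 3) (nat_lit 8) (nat_lit 0) (nat_lit 0xa9065440100) (nat_lit 0xf423ff423f00000f423fb71aea2c280473700000f423f54591437a2) .nil))))) (.leaf (.cons (nat_lit 0x10014) (nat_lit 0x100000000000000000000000100010000) (.cons (nat_lit 0x140054) (nat_lit 0x10001000000000000000000000002000200020000) .nil)) .nil)) (.split (nat_lit 0xb) (nat_lit 0) (.split (nat_lit 0xb) (nat_lit 1) (.split (nat_lit 0xb) (nat_lit 2) (.split (nat_lit 0xb) (nat_lit 3) (.split (nat_lit 0xb) (nat_lit 4) (.split (nat_lit 0xb) (nat_lit 6) (.split (nat_lit 0xb) (nat_lit 7) (.split (nat_lit 0xb) (nat_lit 8) (.split (nat_lit 0xb) (nat_lit 9) (.split (nat_lit 0xb) (nat_lit 0xa) (.unj (nat_lit 0x10014) (nat_lit 0x100000000000000000000000100010000) (nat_lit 0x401500) (nat_lit 0x100000000000000000001000200020000000000000000)) (.non (nat_lit 1) (nat_lit 4) (nat_lit 0x554450) (nat_lit 0x200030002000200010000000100000004000300000000)))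 (.non (nat_lit 1) (nat_lit 4) (nat_lit 0x554450) (nat_lit 0x200020003000200010000000100000004000300000000))) (.non (nat_lit 1) (nat_lit 4) (nat_lit 0x415400) (nat_lit 0x100000000000100010001000100000000000000000000))) (.non (nat_lit 1) (nat_lit 4) (nat_lit 0x405400) (nat_lit 0x100000000000000010001000100000000000000000000))) (.non (nat_lit 1) (nat_lit 4) (nat_lit 0x401400) (nat_lit 0x100000000000000000001000100000000000000000000))) (.non (nat_lit 1) (nat_lit 6) (nat_lit 0x400500) (nat_lit 0x100000000000000000000000100010000000000000000))) (.non (nat_lit 1) (nat_lit 4) (nat_lit 0x540050) (nat_lit 0x100010001000000000000000000000002000100000000))) (.non (nat_lit 1) (nat_lit 4) (nat_lit 0x415410) (nat_lit 0x100000000000100010001000100000000000100000000))) (.non (nat_lit 2) (nat_lit 4) (nat_lit 0x415404) (nat_lit 0x100000000000100010001000100000000000000010000))) (.non (nat_lit 2) (nat_lit 4) (nat_lit 0x415405) (nat_lit 0x100000000000100010001000100000000000000010001)))))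

noncomputable def t758_58 : Tr := (.split (nat_lit 0xa) (nat_lit 9) (.st (nat_lit 6) (nat_lit 1) (nat_lit 4) (nat_lit 0x155450) (nat_lit 0x10001000200020002000100000002000200000000) (nat_lit 1) (nat_lit 1) (.st (nat_lit 7) (nat_lit 1) (nat_lit 4) (nat_lit 0x155050) (nat_lit 0x10001000200020001000000000002000200000000) (nat_lit 1) (nat_lit 1) (.ex (nat_lit 4) (.split (nat_lit 8) (nat_lit 2) (.split (nat_lit 9) (nat_lit 3) (.split (nat_lit 0xa) (nat_lit 3) (.split (nat_lit 8) (nat_lit 7) (.split (nat_lit 8) (nat_lit 1) t758_57 (.non (nat_lit 2) (nat_lit 4) (nat_lit 0x2a005) (nat_lit 0x300020001000000000000000000040002))) (.non (nat_lit 1) (nat_lit 4) (nat_lit 0x1a810) (nat_lit 0x400030002000100000000000200000000))) (.non (nat_lit 1) (nat_lit 4) (nat_lit 0x240050) (nat_lit 0x10001000000000000000000000002000100000000))) (.non (nat_lit 1) (nat_lit 4) (nat_lit 0x180050) (nat_lit 0x10001000000000000000000000002000100000000))) (.non (nat_lit 1) (nat_lit 4) (nat_lit 0x160050) (nat_lit 0x10001000100000000000000000002000200000000)))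 (.split (nat_lit 0xb) (nat_lit 0) (.split (nat_lit 0xb) (nat_lit 1) (.split (nat_lit 0xb) (nat_lit 2) (.split (nat_lit 0xb) (nat_lit 3) (.split (nat_lit 0xb) (nat_lit 5) (.split (nat_lit 0xb) (nat_lit 6) (.split (nat_lit 0xb) (nat_lit 7) (.split (nat_lit 0xb) (nat_lit 8) (.split (nat_lit 0xb) (nat_lit 9) (.split (nat_lit 0xb) (nat_lit 0xa) (.unj (nat_lit 0x10014) (nat_lit 0x100000000000000000000000100010000) (nat_lit 0x401500) (nat_lit 0x100000000000000000001000200020000000000000000)) (.non (nat_lit 1) (nat_lit 4) (nat_lit 0x555450) (nat_lit 0x200040003000400030002000100000006000500000000))) (.non (nat_lit 1) (nat_lit 4) (nat_lit 0x555450) (nat_lit 0x200030004000400030002000100000006000500000000))) (.non (nat_lit 1) (nat_lit 4) (nat_lit 0x554050) (nat_lit 0x100010001000200010000000000000002000200000000))) (.non (nat_lit 1) (nat_lit 4) (nat_lit 0x555050) (nat_lit 0x100010001000200020001000000000002000200000000))) (.non (nat_lit 1) (nat_lit 4) (nat_lit 0x555450) (nat_lit 0x100010001000200020002000100000002000200000000)))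 (.non (nat_lit 1) (nat_lit 6) (nat_lit 0x400500) (nat_lit 0x100000000000000000000000100010000000000000000))) (.non (nat_lit 1) (nat_lit 4) (nat_lit 0x540050) (nat_lit 0x100010001000000000000000000000002000100000000))) (.star (nat_lit 0xb) (nat_lit 2) (nat_lit 4))) (.star (nat_lit 0xb) (nat_lit 1) (nat_lit 4))) (.non (nat_lit 2) (nat_lit 6) (nat_lit 0x400505) (nat_lit 0x300000000000000000000000300040000000000010002)))))) (.non (nat_lit 1) (nat_lit 4) (nat_lit 0x140040) (nat_lit 0x10001000000000000000000000001000000000000)))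

noncomputable def t758_59 : Tr := (.pd (.cons (nat_lit 1) (nat_lit 5) (nat_lit 0) (nat_lit 0x287049300) (nat_lit 0x8e6a2a2c28b71aef423f00000f423f927bd98965000008b821) (.cons (nat_lit 1) (nat_lit 7) (nat_lit 0) (nat_lit 0x205449300) (nat_lit 0x98965f423f00000f423fb71ae1f156a2c28b71ae00000927bd) (.cons (nat_lit 1) (nat_lit 8) (nat_lit 0) (nat_lit 0x65449300) (nat_lit 0xa2c2800000f423fb71aea2c2804737b71aef423f0000098965) (.cons (nat_lit 2) (nat_lit 5) (nat_lit 0) (nat_lit 0x187049000) (nat_lit 0xb71aea2c28b71aef423f00000f423ff423f0000098965411a6) (.cons (nat_lit 2) (nat_lit 7) (nat_lit 0) (nat_lit 0x105449000) (nat_lit 0xb71aef423f00000f423fb71ae1f156f423f00000b71ae51611) (.cons (nat_lit 2) (nat_lit 8) (nat_lit 0) (nat_lit 0x65449000) (nat_lit 0xb71ae00000f423fb71aea2c2804737f423f00000f423f65b97) .nil)))))) (.ex (nat_lit 9) (.pd (.cons (nat_lit 0) (nat_lit 8) (nat_lit 0) (nat_lit 0x3065442110) (nat_lit 0xf423f00000f423fb71aea2c2804737b71aea2c280473700000) (.cons (nat_lit 3) (nat_lit 8) (nat_lit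 0) (nat_lit 0x65440100) (nat_lit 0xf423f00000f423fb71aea2c280473700000f423f5459106711) .nil)) (.leaf (.cons (nat_lit 0x10014) (nat_lit 0x100000000000000000000000100010000) .nil) .nil)) (.split (nat_lit 0xa) (nat_lit 0) (.split (nat_lit 0xa) (nat_lit 1) (.split (nat_lit 0xa) (nat_lit 2) (.split (nat_lit 0xa) (nat_lit 3) (.split (nat_lit 0xa) (nat_lit 4) (.split (nat_lit 0xa) (nat_lit 5) (.split (nat_lit 0xa) (nat_lit 6) (.split (nat_lit 0xa) (nat_lit 7) (.split (nat_lit 0xa) (nat_lit 8) (.sup (nat_lit 0x3000d00160020001a0000000000000000) (nat_lit 0x30006000000000000000000000005000300030005)) (.non (nat_lit 1) (nat_lit 4) (nat_lit 0x150050) (nat_lit 0x10001000100000000000000000001000100000000))) (.non (nat_lit 1) (nat_lit 4) (nat_lit 0x155410) (nat_lit 0x20001000200030002000100000000000100000000))) (.non (nat_lit 1) (nat_lit 4) (nat_lit 0x155050) (nat_lit 0x10001000100010001000000000001000100000000))) (.non (nat_lit 1) (nat_lit 4) (nat_lit 0x155450) (nat_lit 0x10001000100010001000100000001000100000000)))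 (.non (nat_lit 1) (nat_lit 6) (nat_lit 0x140540) (nat_lit 0x30002000000000000000300040001000000000000))) (.non (nat_lit 1) (nat_lit 4) (nat_lit 0x140040) (nat_lit 0x10001000000000000000000000001000000000000))) (.non (nat_lit 1) (nat_lit 4) (nat_lit 0x140050) (nat_lit 0x10001000000000000000000000001000100000000))) (.non (nat_lit 2) (nat_lit 4) (nat_lit 0x140005) (nat_lit 0x10001000000000000000000000000000000010001))) (.non (nat_lit 1) (nat_lit 4) (nat_lit 0x140001) (nat_lit 0x10001000000000000000000000000000000000001)))))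

noncomputable def t758_60 : Tr := (.ex (nat_lit 5) (.ex (nat_lit 6) (.split (nat_lit 9) (nat_lit 0) (.split (nat_lit 8) (nat_lit 2) (.split (nat_lit 9) (nat_lit 3) (.split (nat_lit 8) (nat_lit 7) (.split (nat_lit 8) (nat_lit 1) t758_59 (.non (nat_lit 2) (nat_lit 4) (nat_lit 0x68005) (nat_lit 0x1000200010000000000000000000000030002))) (.non (nat_lit 1) (nat_lit 4) (nat_lit 0x1a810) (nat_lit 0x400030002000100000000000200000000))) (.non (nat_lit 1) (nat_lit 4) (nat_lit 0x600a1) (nat_lit 0x4000100000000000000000003000200000002))) (.non (nat_lit 1) (nat_lit 4) (nat_lit 0x68050) (nat_lit 0x1000200010000000000000002000300000000))) (.non (nat_lit 2) (nat_lit 4) (nat_lit 0x90085) (nat_lit 0x2000100000000000000000001000000020003))) (.split (nat_lit 0xa) (nat_lit 0) (.split (nat_lit 0xa) (nat_lit 1) (.split (nat_lit 0xa) (nat_lit 2) (.split (nat_lit 0xa) (nat_lit 3) (.split (nat_lit 0xa) (nat_lit 5) (.split (nat_lit 0xa) (nat_lit 7) (.split (nat_lit 0xa) (nat_lit 8) (.split (nat_lit 0xa) (nat_lit 9) (.split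 (nat_lit 0xa) (nat_lit 4) (.unj (nat_lit 0x55) (nat_lit 0x1000200020001) (nat_lit 0x105500) (nat_lit 0x10000000000010002000200020000000000000000)) (.unj (nat_lit 0x10014) (nat_lit 0x100000000000000000000000100010000) (nat_lit 0x101500) (nat_lit 0x10000000000000001000100010000000000000000))) (.non (nat_lit 1) (nat_lit 4) (nat_lit 0x155050) (nat_lit 0x10001000100010001000000000001000100000000))) (.non (nat_lit 1) (nat_lit 4) (nat_lit 0x115000) (nat_lit 0x10000000100010001000000000000000000000000))) (.non (nat_lit 1) (nat_lit 4) (nat_lit 0x105000) (nat_lit 0x10000000000010001000000000000000000000000))) (.non (nat_lit 1) (nat_lit 4) (nat_lit 0x101400) (nat_lit 0x10000000000000001000100000000000000000000))) (.non (nat_lit 1) (nat_lit 4) (nat_lit 0x115050) (nat_lit 0x10000000100010001000000000001000100000000))) (.star (nat_lit 0xa) (nat_lit 2) (nat_lit 6))) (.star (nat_lit 0xa) (nat_lit 1) (nat_lit 6))) (.non (nat_lit 1) (nat_lit 4) (nat_lit 0x155411) (nat_lit 0x30001000200030004000200000000000100000002))))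 (.split (nat_lit 0xa) (nat_lit 0) (.split (nat_lit 0xa) (nat_lit 1) (.split (nat_lit 0xa) (nat_lit 2) (.split (nat_lit 0xa) (nat_lit 3) (.split (nat_lit 0xa) (nat_lit 4) (.split (nat_lit 0xa) (nat_lit 6) (.split (nat_lit 0xa) (nat_lit 7) (.split (nat_lit 0xa) (nat_lit 8) (.split (nat_lit 0xa) (nat_lit 9) (.unj (nat_lit 0x10014) (nat_lit 0x100000000000000000000000100010000) (nat_lit 0x101500) (nat_lit 0x10000000000000001000200020000000000000000)) (.non (nat_lit 1) (nat_lit 4) (nat_lit 0x155450) (nat_lit 0x10001000100010001000100000001000100000000))) (.non (nat_lit 1) (nat_lit 4) (nat_lit 0x115400) (nat_lit 0x10000000100010001000100000000000000000000))) (.non (nat_lit 1) (nat_lit 4) (nat_lit 0x105400) (nat_lit 0x10000000000010001000100000000000000000000))) (.non (nat_lit 1) (nat_lit 4) (nat_lit 0x101400) (nat_lit 0x10000000000000001000100000000000000000000))) (.non (nat_lit 1) (nat_lit 6) (nat_lit 0x100500) (nat_lit 0x10000000000000000000100010000000000000000))) (.non (nat_lit 1) (nat_lit 4) (nat_lit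 0x115450) (nat_lit 0x10000000100010001000100000001000100000000))) (.non (nat_lit 1) (nat_lit 4) (nat_lit 0x115410) (nat_lit 0x10000000100010001000100000000000100000000))) (.non (nat_lit 2) (nat_lit 4) (nat_lit 0x115404) (nat_lit 0x10000000100010001000100000000000000010000))) (.non (nat_lit 1) (nat_lit 4) (nat_lit 0x155451) (nat_lit 0x10001000100010001000100000001000100000001))))

noncomputable def t758_61 : Tr := (.split (nat_lit 9) (nat_lit 0) (.split (nat_lit 9) (nat_lit 1) (.st (nat_lit 8) (nat_lit 1) (nat_lit 4) (nat_lit 0x55450) (nat_lit 0x1000400030002000100000002000300000000) (nat_lit 1) (nat_lit 2) (.ex (nat_lit 3) t758_56 (.split (nat_lit 0xa) (nat_lit 0) (.split (nat_lit 0xa) (nat_lit 1) (.split (nat_lit 0xa) (nat_lit 2) (.split (nat_lit 0xa) (nat_lit 4) (.split (nat_lit 0xa) (nat_lit 5) (.split (nat_lit 0xa) (nat_lit 6) (.split (nat_lit 0xa) (nat_lit 7) (.split (nat_lit 0xa) (nat_lit 8) t758_58 (.non (nat_lit 1) (nat_lit 4) (nat_lit 0x110050) (nat_lit 0x10000000100000000000000000001000100000000)))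 (.non (nat_lit 1) (nat_lit 4) (nat_lit 0x114050) (nat_lit 0x10000000100010000000000000001000100000000))) (.non (nat_lit 1) (nat_lit 4) (nat_lit 0x115050) (nat_lit 0x10000000100010001000000000001000100000000))) (.non (nat_lit 1) (nat_lit 4) (nat_lit 0x115450) (nat_lit 0x10000000100010001000100000001000100000000))) (.non (nat_lit 1) (nat_lit 6) (nat_lit 0x140540) (nat_lit 0x30001000000000000000300040002000000000000))) (.non (nat_lit 1) (nat_lit 4) (nat_lit 0x100050) (nat_lit 0x10000000000000000000000000001000100000000))) (.non (nat_lit 2) (nat_lit 4) (nat_lit 0x155045) (nat_lit 0x30001000300020001000000000002000000040002))) (.non (nat_lit 1) (nat_lit 4) (nat_lit 0x155451) (nat_lit 0x40003000400030002000100000006000500000002))))) (.split (nat_lit 9) (nat_lit 1) (.split (nat_lit 9) (nat_lit 3) (.split (nat_lit 8) (nat_lit 1) (.split (nat_lit 8) (nat_lit 2) (.sup (nat_lit 0x10006000b0010000d0000000000000000) (nat_lit 0x2000000000000000000000002000200020001)) (.non (nat_lit 1) (nat_lit 4) (nat_lit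 0x68050) (nat_lit 0x1000200010000000000000002000300000000))) (.non (nat_lit 2) (nat_lit 4) (nat_lit 0x6a004) (nat_lit 0x2000300020001000000000000000000040000))) (.non (nat_lit 2) (nat_lit 4) (nat_lit 0x50085) (nat_lit 0x2000100000000000000000001000000020001))) (.non (nat_lit 2) (nat_lit 4) (nat_lit 0x94084) (nat_lit 0x2000200010000000000000001000000030000)))) (.split (nat_lit 9) (nat_lit 1) (.st (nat_lit 3) (nat_lit 1) (nat_lit 4) (nat_lit 0x55451) (nat_lit 0x4000400030002000100000006000500000002) (nat_lit 1) (nat_lit 3) (.st (nat_lit 7) (nat_lit 1) (nat_lit 4) (nat_lit 0x55451) (nat_lit 0x2000500060004000200000003000400000001) (nat_lit 1) (nat_lit 3) (.st (nat_lit 8) (nat_lit 1) (nat_lit 4) (nat_lit 0x55450) (nat_lit 0x1000400030002000100000002000300000000) (nat_lit 1) (nat_lit 2) (.ex (nat_lit 4) t758_60 (.split (nat_lit 0xa) (nat_lit 0) (.split (nat_lit 0xa) (nat_lit 1) (.split (nat_lit 0xa) (nat_lit 2) (.split (nat_lit 0xa) (nat_lit 3) (.split (nat_lit 0xa) (nat_lit 5) (.split (nat_lit 0xa)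 (nat_lit 7) (.split (nat_lit 0xa) (nat_lit 8) (.split (nat_lit 0xa) (nat_lit 9) (.split (nat_lit 0xa) (nat_lit 6) (.unj (nat_lit 0x10014) (nat_lit 0x100000000000000000000000100010000) (nat_lit 0x101500) (nat_lit 0x10000000000000001000200020000000000000000)) (.unj (nat_lit 0x10014) (nat_lit 0x100000000000000000000000100010000) (nat_lit 0x101500) (nat_lit 0x10000000000000001000100010000000000000000))) (.non (nat_lit 1) (nat_lit 6) (nat_lit 0x140540) (nat_lit 0x30002000000000000000300040001000000000000))) (.non (nat_lit 1) (nat_lit 4) (nat_lit 0x155450) (nat_lit 0x20001000400030002000100000002000300000000))) (.non (nat_lit 1) (nat_lit 4) (nat_lit 0x155451) (nat_lit 0x30002000500060004000200000003000400000001))) (.non (nat_lit 1) (nat_lit 6) (nat_lit 0x100500) (nat_lit 0x10000000000000000000100010000000000000000))) (.non (nat_lit 1) (nat_lit 4) (nat_lit 0x155451) (nat_lit 0x30004000400030002000100000006000500000002))) (.star (nat_lit 0xa) (nat_lit 2) (nat_lit 4))) (.star (nat_lit 0xa) (nat_lit 1)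 (nat_lit 4))) (.non (nat_lit 1) (nat_lit 6) (nat_lit 0x140501) (nat_lit 0x30001000000000000000300040000000000000002))))))) (.non (nat_lit 2) (nat_lit 4) (nat_lit 0x40005) (nat_lit 0x1000000000000000000000000000000010001))))

noncomputable def t758_62 : Tr := (.ex (nat_lit 3) (.ex (nat_lit 4) (.ex (nat_lit 5) t758_53 (.split (nat_lit 9) (nat_lit 0) (.split (nat_lit 9) (nat_lit 1) (.split (nat_lit 9) (nat_lit 2) (.split (nat_lit 9) (nat_lit 3) (.split (nat_lit 9) (nat_lit 4) (.split (nat_lit 9) (nat_lit 6) (.split (nat_lit 9) (nat_lit 7) (.split (nat_lit 9) (nat_lit 8) (.unj (nat_lit 0x10014) (nat_lit 0x100000000000000000000000100010000) (nat_lit 0x41500) (nat_lit 0x1000000000001000200020000000000000000)) (.non (nat_lit 1) (nat_lit 4) (nat_lit 0x55400) (nat_lit 0x1000100010001000100000000000000000000))) (.non (nat_lit 1) (nat_lit 4) (nat_lit 0x45400) (nat_lit 0x1000000010001000100000000000000000000))) (.non (nat_lit 1) (nat_lit 4) (nat_lit 0x41400) (nat_lit 0x1000000000001000100000000000000000000)))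 (.non (nat_lit 1) (nat_lit 6) (nat_lit 0x40500) (nat_lit 0x1000000000000000100010000000000000000))) (.non (nat_lit 1) (nat_lit 4) (nat_lit 0x55450) (nat_lit 0x1000100010001000100000001000100000000))) (.non (nat_lit 1) (nat_lit 4) (nat_lit 0x55410) (nat_lit 0x1000100010001000100000000000100000000))) (.non (nat_lit 2) (nat_lit 4) (nat_lit 0x55404) (nat_lit 0x1000100010001000100000000000000010000))) (.non (nat_lit 2) (nat_lit 4) (nat_lit 0x55405) (nat_lit 0x1000100010001000100000000000000010001)))) (.split (nat_lit 9) (nat_lit 0) (.split (nat_lit 9) (nat_lit 1) (.split (nat_lit 9) (nat_lit 2) (.split (nat_lit 9) (nat_lit 3) (.split (nat_lit 9) (nat_lit 5) (.split (nat_lit 9) (nat_lit 7) (.split (nat_lit 9) (nat_lit 8) (.split (nat_lit 9) (nat_lit 6) (.unj (nat_lit 0x10014) (nat_lit 0x100000000000000000000000100010000) (nat_lit 0x41500) (nat_lit 0x1000000000001000200020000000000000000)) (.unj (nat_lit 0x10014) (nat_lit 0x100000000000000000000000100010000) (nat_lit 0x41500) (nat_lit 0x1000000000001000100010000000000000000)))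 (.non (nat_lit 1) (nat_lit 6) (nat_lit 0x54500) (nat_lit 0x3000200010000000300040000000000000000))) (.non (nat_lit 1) (nat_lit 6) (nat_lit 0x54500) (nat_lit 0x3000100020000000300040000000000000000))) (.non (nat_lit 1) (nat_lit 6) (nat_lit 0x40500) (nat_lit 0x1000000000000000100010000000000000000))) (.non (nat_lit 1) (nat_lit 6) (nat_lit 0x40550) (nat_lit 0x3000000000000000300040002000100000000))) (.star (nat_lit 9) (nat_lit 2) (nat_lit 4))) (.star (nat_lit 9) (nat_lit 1) (nat_lit 4))) (.non (nat_lit 2) (nat_lit 6) (nat_lit 0x40505) (nat_lit 0x3000000000000000300040000000000010002)))) (.split (nat_lit 9) (nat_lit 2) (.split (nat_lit 9) (nat_lit 4) (.split (nat_lit 9) (nat_lit 5) (.split (nat_lit 9) (nat_lit 6) (.split (nat_lit 9) (nat_lit 7) (.split (nat_lit 9) (nat_lit 8) t758_61 (.non (nat_lit 1) (nat_lit 4) (nat_lit 0x50050) (nat_lit 0x1000100000000000000000001000100000000))) (.non (nat_lit 1) (nat_lit 4) (nat_lit 0x54050) (nat_lit 0x1000100010000000000000001000100000000))) (.non (nat_lit 1)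 (nat_lit 4) (nat_lit 0x55050) (nat_lit 0x1000100010001000000000001000100000000))) (.non (nat_lit 1) (nat_lit 4) (nat_lit 0x55450) (nat_lit 0x1000100010001000100000001000100000000))) (.non (nat_lit 1) (nat_lit 6) (nat_lit 0x40550) (nat_lit 0x3000000000000000300040002000100000000))) (.non (nat_lit 1) (nat_lit 4) (nat_lit 0x40050) (nat_lit 0x1000000000000000000000001000100000000))))

noncomputable def t758_63 : Tr := (.split (nat_lit 8) (nat_lit 1) (.pd (.cons (nat_lit 1) (nat_lit 5) (nat_lit 0) (nat_lit 0x2287042200) (nat_lit 0xf423fa2c28b71aef423f00000f423ff423f1e84300000f423f) (.cons (nat_lit 2) (nat_lit 5) (nat_lit 0) (nat_lit 0x9187043000) (nat_lit 0xf423fa2c28b71aef423f00000f423ff423f0000098965927bd) .nil)) (.ex (nat_lit 5) (.pd (.cons (nat_lit 1) (nat_lit 7) (nat_lit 0) (nat_lit 0x2205442200) (nat_lit 0xf423ff423f00000f423fb71ae1f156f423f3d08c00000f423f) (.cons (nat_lit 1) (nat_lit 8) (nat_lit 0) (nat_lit 0x2065442200) (nat_lit 0xf423f00000f423fb71aea2c2804737f423f7a11d00000f423f) (.cons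 (nat_lit 2) (nat_lit 7) (nat_lit 0) (nat_lit 0x9105443000) (nat_lit 0xf423ff423f00000f423fb71ae1f156f423f00000b71aea2c28) (.cons (nat_lit 2) (nat_lit 8) (nat_lit 0) (nat_lit 0x9065443000) (nat_lit 0xf423f00000f423fb71aea2c2804737f423f00000f423fb71ae) .nil)))) (.leaf (.cons (nat_lit 0x10014) (nat_lit 0x100000000000000000000000100010000) (.cons (nat_lit 0x40054) (nat_lit 0x1000000000000000000000001000200020000) (.cons (nat_lit 0x40015) (nat_lit 0x1000000000000000000000000000200020001) .nil))) .nil)) (.split (nat_lit 0xa) (nat_lit 0) (.split (nat_lit 0xa) (nat_lit 1) (.split (nat_lit 0xa) (nat_lit 2) (.split (nat_lit 0xa) (nat_lit 3) (.split (nat_lit 0xa) (nat_lit 4) (.split (nat_lit 0xa) (nat_lit 6) (.split (nat_lit 0xa) (nat_lit 7) (.split (nat_lit 0xa) (nat_lit 8) (.split (nat_lit 0xa) (nat_lit 9) (.unj (nat_lit 0x10014) (nat_lit 0x100000000000000000000000100010000) (nat_lit 0x101500) (nat_lit 0x10000000000000001000200020000000000000000)) (.non (nat_lit 1) (nat_lit 4) (nat_lit 0x155410) (nat_lit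 0x10001000100010001000100000000000100000000))) (.non (nat_lit 1) (nat_lit 4) (nat_lit 0x115400) (nat_lit 0x10000000100010001000100000000000000000000))) (.non (nat_lit 1) (nat_lit 4) (nat_lit 0x105400) (nat_lit 0x10000000000010001000100000000000000000000))) (.non (nat_lit 1) (nat_lit 4) (nat_lit 0x101400) (nat_lit 0x10000000000000001000100000000000000000000))) (.non (nat_lit 1) (nat_lit 6) (nat_lit 0x100500) (nat_lit 0x10000000000000000000100010000000000000000))) (.non (nat_lit 1) (nat_lit 4) (nat_lit 0x115450) (nat_lit 0x10000000100010001000100000001000100000000))) (.non (nat_lit 1) (nat_lit 4) (nat_lit 0x115410) (nat_lit 0x10000000100010001000100000000000100000000))) (.non (nat_lit 2) (nat_lit 4) (nat_lit 0x115404) (nat_lit 0x10000000100010001000100000000000000010000))) (.non (nat_lit 2) (nat_lit 4) (nat_lit 0x115405) (nat_lit 0x10000000100010001000100000000000000010001))))) (.non (nat_lit 2) (nat_lit 4) (nat_lit 0x2a005) (nat_lit 0x300020001000000000000000000040002)))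

noncomputable def t758_64 : Tr := (.split (nat_lit 9) (nat_lit 1) (.st (nat_lit 6) (nat_lit 1) (nat_lit 4) (nat_lit 0x55450) (nat_lit 0x1000200020002000100000001000200000000) (nat_lit 1) (nat_lit 1) (.st (nat_lit 7) (nat_lit 1) (nat_lit 4) (nat_lit 0x55050) (nat_lit 0x1000200020001000000000001000200000000) (nat_lit 1) (nat_lit 1) (.st (nat_lit 8) (nat_lit 1) (nat_lit 4) (nat_lit 0x54050) (nat_lit 0x1000200010000000000000001000200000000) (nat_lit 1) (nat_lit 1) (.ex (nat_lit 4) (.split (nat_lit 8) (nat_lit 2) (.split (nat_lit 9) (nat_lit 2) (.split (nat_lit 8) (nat_lit 7) t758_63 (.non (nat_lit 1) (nat_lit 4) (nat_lit 0x5a010) (nat_lit 0x1000300020001000000000000000200000000))) (.non (nat_lit 1) (nat_lit 4) (nat_lit 0x90050) (nat_lit 0x1000100000000000000000001000200000000))) (.non (nat_lit 1) (nat_lit 4) (nat_lit 0x6a010) (nat_lit 0x2000300020001000000000000000400000000))) (.split (nat_lit 0xa) (nat_lit 0) (.split (nat_lit 0xa) (nat_lit 1) (.split (nat_lit 0xa) (nat_lit 2) (.split (nat_lit 0xa)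 (nat_lit 3) (.split (nat_lit 0xa) (nat_lit 5) (.split (nat_lit 0xa) (nat_lit 6) (.split (nat_lit 0xa) (nat_lit 7) (.split (nat_lit 0xa) (nat_lit 8) (.split (nat_lit 0xa) (nat_lit 9) (.unj (nat_lit 0x10014) (nat_lit 0x100000000000000000000000100010000) (nat_lit 0x101500) (nat_lit 0x10000000000000001000200020000000000000000)) (.non (nat_lit 1) (nat_lit 6) (nat_lit 0x140510) (nat_lit 0x30002000000000000000300040000000100000000))) (.non (nat_lit 1) (nat_lit 4) (nat_lit 0x154050) (nat_lit 0x10001000200010000000000000001000200000000))) (.non (nat_lit 1) (nat_lit 4) (nat_lit 0x155050) (nat_lit 0x10001000200020001000000000001000200000000))) (.non (nat_lit 1) (nat_lit 4) (nat_lit 0x155450) (nat_lit 0x10001000200020002000100000001000200000000))) (.non (nat_lit 1) (nat_lit 6) (nat_lit 0x100500) (nat_lit 0x10000000000000000000100010000000000000000))) (.non (nat_lit 1) (nat_lit 6) (nat_lit 0x100550) (nat_lit 0x30000000000000000000300040002000100000000))) (.star (nat_lit 0xa) (nat_lit 2) (nat_lit 4))) (.star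 (nat_lit 0xa) (nat_lit 1) (nat_lit 4))) (.non (nat_lit 2) (nat_lit 6) (nat_lit 0x100505) (nat_lit 0x30000000000000000000300040000000000010002))))))) (.split (nat_lit 9) (nat_lit 1) (.split (nat_lit 9) (nat_lit 2) (.split (nat_lit 8) (nat_lit 1) (.split (nat_lit 8) (nat_lit 2) (.sup (nat_lit 0x20006000b0010000d0000000000000000) (nat_lit 0x2000000000000000000000001000200020001)) (.non (nat_lit 1) (nat_lit 4) (nat_lit 0x6a010) (nat_lit 0x2000300020001000000000000000400000000))) (.non (nat_lit 2) (nat_lit 4) (nat_lit 0x6a004) (nat_lit 0x2000300020001000000000000000000040000))) (.non (nat_lit 1) (nat_lit 4) (nat_lit 0x90050) (nat_lit 0x1000100000000000000000001000200000000))) (.non (nat_lit 2) (nat_lit 4) (nat_lit 0x90005) (nat_lit 0x1000100000000000000000000000000020001))))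

noncomputable def t758_65 : Tr := (.split (nat_lit 9) (nat_lit 1) (.pd (.cons (nat_lit 1) (nat_lit 5) (nat_lit 0) (nat_lit 0x9287042200) (nat_lit 0xf423fa2c28b71aef423f00000f423ff423f5b8d400000f423f) (.cons (nat_lit 2) (nat_lit 5) (nat_lit 0) (nat_lit 0x1187043000) (nat_lit 0xf423fa2c28b71aef423f00000f423ff423f000005b8d45160d) .nil)) (.ex (nat_lit 5) (.pd (.cons (nat_lit 1) (nat_lit 7) (nat_lit 0) (nat_lit 0x9205442200) (nat_lit 0xf423ff423f00000f423fb71ae1f156f423f7a11d00000f423f) (.cons (nat_lit 1) (nat_lit 8) (nat_lit 0) (nat_lit 0x9065442200) (nat_lit 0xf423f00000f423fb71aea2c2804737f423fb71ae00000f423f) (.cons (nat_lit 2) (nat_lit 7) (nat_lit 0) (nat_lit 0x1105443000) (nat_lit 0xf423ff423f00000f423fb71ae1f156f423f000007a11d7a11b) (.cons (nat_lit 2) (nat_lit 8) (nat_lit 0) (nat_lit 0x1065443000) (nat_lit 0xf423f00000f423fb71aea2c2804737f423f00000b71aea2c28) .nil)))) (.leaf (.cons (nat_lit 0x10014) (nat_lit 0x100000000000000000000000100010000) (.cons (nat_lit 0x40054) (nat_lit 0x1000000000000000000000001000200020000)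 (.cons (nat_lit 0x40015) (nat_lit 0x1000000000000000000000000000200020001) .nil))) .nil)) (.split (nat_lit 0xa) (nat_lit 0) (.split (nat_lit 0xa) (nat_lit 1) (.split (nat_lit 0xa) (nat_lit 2) (.split (nat_lit 0xa) (nat_lit 3) (.split (nat_lit 0xa) (nat_lit 4) (.split (nat_lit 0xa) (nat_lit 6) (.split (nat_lit 0xa) (nat_lit 7) (.split (nat_lit 0xa) (nat_lit 8) (.split (nat_lit 0xa) (nat_lit 9) (.unj (nat_lit 0x10014) (nat_lit 0x100000000000000000000000100010000) (nat_lit 0x101500) (nat_lit 0x10000000000000001000200020000000000000000)) (.non (nat_lit 2) (nat_lit 4) (nat_lit 0x155404) (nat_lit 0x10001000100010001000100000000000000010000))) (.non (nat_lit 1) (nat_lit 4) (nat_lit 0x115400) (nat_lit 0x10000000100010001000100000000000000000000))) (.non (nat_lit 1) (nat_lit 4) (nat_lit 0x105400) (nat_lit 0x10000000000010001000100000000000000000000))) (.non (nat_lit 1) (nat_lit 4) (nat_lit 0x101400) (nat_lit 0x10000000000000001000100000000000000000000))) (.non (nat_lit 1) (nat_lit 6) (nat_lit 0x100500)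 (nat_lit 0x10000000000000000000100010000000000000000))) (.non (nat_lit 1) (nat_lit 4) (nat_lit 0x115450) (nat_lit 0x10000000100010001000100000001000100000000))) (.non (nat_lit 1) (nat_lit 4) (nat_lit 0x115410) (nat_lit 0x10000000100010001000100000000000100000000))) (.non (nat_lit 2) (nat_lit 4) (nat_lit 0x115404) (nat_lit 0x10000000100010001000100000000000000010000))) (.non (nat_lit 2) (nat_lit 4) (nat_lit 0x115405) (nat_lit 0x10000000100010001000100000000000000010001))))) (.non (nat_lit 2) (nat_lit 4) (nat_lit 0x90005) (nat_lit 0x1000100000000000000000000000000020001)))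

noncomputable def t758_66 : Tr := (.split (nat_lit 9) (nat_lit 3) (.st (nat_lit 6) (nat_lit 2) (nat_lit 4) (nat_lit 0x55405) (nat_lit 0x1000200020002000100000000000000020001) (nat_lit 1) (nat_lit 1) (.st (nat_lit 7) (nat_lit 2) (nat_lit 4) (nat_lit 0x55005) (nat_lit 0x1000200020001000000000000000000020001) (nat_lit 1) (nat_lit 1) (.st (nat_lit 8) (nat_lit 2) (nat_lit 4) (nat_lit 0x54005) (nat_lit 0x1000200010000000000000000000000020001) (nat_lit 1) (nat_lit 1) (.ex (nat_lit 4) (.split (nat_lit 8) (nat_lit 2) (.split (nat_lit 8) (nat_lit 7) (.split (nat_lit 8) (nat_lit 1) t758_65 (.non (nat_lit 2) (nat_lit 4) (nat_lit 0x6a004) (nat_lit 0x2000300020001000000000000000000040000))) (.non (nat_lit 1) (nat_lit 4) (nat_lit 0x1a810) (nat_lit 0x400030002000100000000000200000000))) (.non (nat_lit 1) (nat_lit 4) (nat_lit 0x2a050) (nat_lit 0x300020001000000000002000400000000))) (.split (nat_lit 0xa) (nat_lit 0) (.split (nat_lit 0xa) (nat_lit 1) (.split (nat_lit 0xa) (nat_lit 2) (.split (nat_lit 0xa) (nat_lit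 3) (.split (nat_lit 0xa) (nat_lit 5) (.split (nat_lit 0xa) (nat_lit 6) (.split (nat_lit 0xa) (nat_lit 7) (.split (nat_lit 0xa) (nat_lit 8) (.split (nat_lit 0xa) (nat_lit 9) (.unj (nat_lit 0x10014) (nat_lit 0x100000000000000000000000100010000) (nat_lit 0x101500) (nat_lit 0x10000000000000001000200020000000000000000)) (.non (nat_lit 2) (nat_lit 6) (nat_lit 0x140504) (nat_lit 0x30002000000000000000300040000000000010000))) (.non (nat_lit 1) (nat_lit 6) (nat_lit 0x114500) (nat_lit 0x30000000200010000000300040000000000000000))) (.non (nat_lit 1) (nat_lit 6) (nat_lit 0x114500) (nat_lit 0x30000000100020000000300040000000000000000))) (.non (nat_lit 2) (nat_lit 4) (nat_lit 0x155405) (nat_lit 0x10001000200020002000100000000000000020001))) (.non (nat_lit 1) (nat_lit 6) (nat_lit 0x100500) (nat_lit 0x10000000000000000000100010000000000000000))) (.non (nat_lit 1) (nat_lit 6) (nat_lit 0x100550) (nat_lit 0x30000000000000000000300040002000100000000))) (.star (nat_lit 0xa) (nat_lit 2) (nat_lit 4))) (.star (nat_lit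 0xa) (nat_lit 1) (nat_lit 4))) (.non (nat_lit 2) (nat_lit 6) (nat_lit 0x100505) (nat_lit 0x30000000000000000000300040000000000010002))))))) (.split (nat_lit 9) (nat_lit 1) (.split (nat_lit 9) (nat_lit 3) (.split (nat_lit 8) (nat_lit 1) (.split (nat_lit 8) (nat_lit 2) (.sup (nat_lit 0x10006000b0010000d0000000000000000) (nat_lit 0x2000000000000000000000002000200020001)) (.non (nat_lit 1) (nat_lit 4) (nat_lit 0x68050) (nat_lit 0x1000200010000000000000002000300000000))) (.non (nat_lit 2) (nat_lit 4) (nat_lit 0x6a004) (nat_lit 0x2000300020001000000000000000000040000))) (.non (nat_lit 2) (nat_lit 4) (nat_lit 0x50085) (nat_lit 0x2000100000000000000000001000000020001))) (.non (nat_lit 2) (nat_lit 4) (nat_lit 0x94084) (nat_lit 0x2000200010000000000000001000000030000))))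

noncomputable def t758_67 : Tr := (.ex (nat_lit 1) (.ex (nat_lit 2) t758_62 (.split (nat_lit 9) (nat_lit 3) (.split (nat_lit 9) (nat_lit 4) (.split (nat_lit 9) (nat_lit 5) (.split (nat_lit 9) (nat_lit 6) (.split (nat_lit 9) (nat_lit 7) (.split (nat_lit 9) (nat_lit 8) (.split (nat_lit 9) (nat_lit 0) t758_64 (.split (nat_lit 9) (nat_lit 1) (.split (nat_lit 9) (nat_lit 0) (.split (nat_lit 9) (nat_lit 2) (.split (nat_lit 8) (nat_lit 1) (.split (nat_lit 8) (nat_lit 2) (.sup (nat_lit 0x10006000b0010000d0000000000000000) (nat_lit 0x2000000000000000000000001000200020002)) (.non (nat_lit 1) (nat_lit 4) (nat_lit 0x6a010) (nat_lit 0x2000300020001000000000000000400000000))) (.non (nat_lit 2) (nat_lit 4) (nat_lit 0x68005) (nat_lit 0x1000200010000000000000000000000030002))) (.non (nat_lit 1) (nat_lit 4) (nat_lit 0x90050) (nat_lit 0x1000100000000000000000001000200000000))) (.non (nat_lit 1) (nat_lit 4) (nat_lit 0xa00a1) (nat_lit 0x2000100000000000000000001000200000002))) (.non (nat_lit 2) (nat_lit 4) (nat_lit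 0x40005) (nat_lit 0x1000000000000000000000000000000010001)))) (.non (nat_lit 1) (nat_lit 4) (nat_lit 0x50010) (nat_lit 0x1000100000000000000000000000100000000))) (.non (nat_lit 1) (nat_lit 4) (nat_lit 0x54010) (nat_lit 0x1000100010000000000000000000100000000))) (.star (nat_lit 9) (nat_lit 2) (nat_lit 6))) (.non (nat_lit 1) (nat_lit 4) (nat_lit 0x55410) (nat_lit 0x1000100010001000100000000000100000000))) (.star (nat_lit 9) (nat_lit 2) (nat_lit 4))) (.non (nat_lit 1) (nat_lit 4) (nat_lit 0x40050) (nat_lit 0x1000000000000000000000001000100000000)))) (.split (nat_lit 9) (nat_lit 0) (.split (nat_lit 9) (nat_lit 4) (.split (nat_lit 9) (nat_lit 5) (.split (nat_lit 9) (nat_lit 6) (.split (nat_lit 9) (nat_lit 7) (.split (nat_lit 9) (nat_lit 8) (.split (nat_lit 9) (nat_lit 2) t758_66 (.split (nat_lit 9) (nat_lit 3) (.split (nat_lit 9) (nat_lit 1) (.split (nat_lit 9) (nat_lit 2) (.split (nat_lit 8) (nat_lit 1) (.split (nat_lit 8) (nat_lit 2) (.sup (nat_lit 0x20006000b0010000d0000000000000000) (nat_lit 0x2000000000000000000000001000200020001))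 (.non (nat_lit 1) (nat_lit 4) (nat_lit 0x6a010) (nat_lit 0x2000300020001000000000000000400000000))) (.non (nat_lit 2) (nat_lit 4) (nat_lit 0x6a004) (nat_lit 0x2000300020001000000000000000000040000))) (.non (nat_lit 1) (nat_lit 4) (nat_lit 0x90050) (nat_lit 0x1000100000000000000000001000200000000))) (.non (nat_lit 2) (nat_lit 4) (nat_lit 0x90005) (nat_lit 0x1000100000000000000000000000000020001))) (.non (nat_lit 1) (nat_lit 4) (nat_lit 0x40050) (nat_lit 0x1000000000000000000000001000100000000)))) (.non (nat_lit 2) (nat_lit 4) (nat_lit 0x50004) (nat_lit 0x1000100000000000000000000000000010000))) (.non (nat_lit 2) (nat_lit 4) (nat_lit 0x54004) (nat_lit 0x1000100010000000000000000000000010000))) (.star (nat_lit 9) (nat_lit 1) (nat_lit 6))) (.non (nat_lit 2) (nat_lit 4) (nat_lit 0x55404) (nat_lit 0x1000100010001000100000000000000010000))) (.star (nat_lit 9) (nat_lit 1) (nat_lit 4))) (.non (nat_lit 2) (nat_lit 4) (nat_lit 0x40005) (nat_lit 0x1000000000000000000000000000000010001))))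

noncomputable def t758_68 : Tr := (.ex (nat_lit 7) (.split (nat_lit 8) (nat_lit 7) (.pd (.cons (nat_lit 0) (nat_lit 8) (nat_lit 0) (nat_lit 0x9065442110) (nat_lit 0xf423f00000f423fb71aea2c2804737f423fb71ae1f15600000) (.cons (nat_lit 1) (nat_lit 5) (nat_lit 0) (nat_lit 0x287042200) (nat_lit 0xf423fa2c28b71aef423f00000f423ff423f5b8d400000b71ae) (.cons (nat_lit 1) (nat_lit 8) (nat_lit 0) (nat_lit 0x65442200) (nat_lit 0xf423f00000f423fb71aea2c2804737f423fb71ae00000b71ae) (.cons (nat_lit 2) (nat_lit 5) (nat_lit 0) (nat_lit 0x187043000) (nat_lit 0xf423fa2c28b71aef423f00000f423ff423f00000989655572c) (.cons (nat_lit 2) (nat_lit 8) (nat_lit 0) (nat_lit 0x65443000) (nat_lit 0xf423f00000f423fb71aea2c2804737f423f00000f423f7a11d) .nil))))) (.ex (nat_lit 9) (.pd (.cons (nat_lit 3) (nat_lit 8) (nat_lit 0) (nat_lit 0x65440100) (nat_lit 0xf423f00000f423fb71aea2c280473700000f423f5459106711) .nil) (.leaf (.cons (nat_lit 0x10014) (nat_lit 0x100000000000000000000000100010000) .nil) .nil)) (.split (nat_lit 0xa) (nat_lit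 0) (.split (nat_lit 0xa) (nat_lit 1) (.split (nat_lit 0xa) (nat_lit 2) (.split (nat_lit 0xa) (nat_lit 3) (.split (nat_lit 0xa) (nat_lit 4) (.split (nat_lit 0xa) (nat_lit 5) (.split (nat_lit 0xa) (nat_lit 6) (.split (nat_lit 0xa) (nat_lit 7) (.split (nat_lit 0xa) (nat_lit 8) (.leaf (.cons (nat_lit 0x10014) (nat_lit 0x100000000000000000000000100010000) (.cons (nat_lit 0x140015) (nat_lit 0x10002000000000000000000000000000300040003) .nil)) .nil) (.non (nat_lit 1) (nat_lit 4) (nat_lit 0x155050) (nat_lit 0x20001000300020001000000000001000200000000))) (.non (nat_lit 1) (nat_lit 4) (nat_lit 0x155410) (nat_lit 0x20001000200030002000100000000000100000000))) (.non (nat_lit 1) (nat_lit 4) (nat_lit 0x155411) (nat_lit 0x30002000200030004000200000000000100000001))) (.non (nat_lit 1) (nat_lit 6) (nat_lit 0x140501) (nat_lit 0x30002000000000000000400030000000000000001))) (.non (nat_lit 1) (nat_lit 6) (nat_lit 0x140501) (nat_lit 0x30002000000000000000300040000000000000001))) (.non (nat_lit 0) (nat_lit 8) (nat_lit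 0x140054) (nat_lit 0x20001000000000000000000000003000400030000))) (.non (nat_lit 1) (nat_lit 4) (nat_lit 0x155051) (nat_lit 0x30002000300020001000000000002000400000001))) (.non (nat_lit 2) (nat_lit 4) (nat_lit 0x140005) (nat_lit 0x10001000000000000000000000000000000010001))) (.non (nat_lit 1) (nat_lit 4) (nat_lit 0x140001) (nat_lit 0x10001000000000000000000000000000000000001))))) (.non (nat_lit 1) (nat_lit 4) (nat_lit 0x1a810) (nat_lit 0x400030002000100000000000200000000))) (.split (nat_lit 0xa) (nat_lit 0) (.split (nat_lit 0xa) (nat_lit 1) (.split (nat_lit 0xa) (nat_lit 2) (.split (nat_lit 0xa) (nat_lit 3) (.split (nat_lit 0xa) (nat_lit 4) (.split (nat_lit 0xa) (nat_lit 5) (.split (nat_lit 0xa) (nat_lit 6) (.split (nat_lit 0xa) (nat_lit 8) (.split (nat_lit 0xa) (nat_lit 9) (.unj (nat_lit 0x55) (nat_lit 0x1000200020001) (nat_lit 0x105500) (nat_lit 0x10000000000020003000400030000000000000000)) (.non (nat_lit 1) (nat_lit 4) (nat_lit 0x155410) (nat_lit 0x20001000200030002000100000000000100000000)))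 (.non (nat_lit 1) (nat_lit 4) (nat_lit 0x114000) (nat_lit 0x10000000100010000000000000000000000000000))) (.non (nat_lit 1) (nat_lit 4) (nat_lit 0x105000) (nat_lit 0x10000000000010001000000000000000000000000))) (.non (nat_lit 1) (nat_lit 4) (nat_lit 0x105400) (nat_lit 0x10000000000010001000100000000000000000000))) (.non (nat_lit 1) (nat_lit 6) (nat_lit 0x114500) (nat_lit 0x30000000100020000000300040000000000000000))) (.non (nat_lit 1) (nat_lit 4) (nat_lit 0x114050) (nat_lit 0x10000000100010000000000000001000100000000))) (.non (nat_lit 1) (nat_lit 4) (nat_lit 0x114010) (nat_lit 0x10000000100010000000000000000000100000000))) (.non (nat_lit 2) (nat_lit 4) (nat_lit 0x114004) (nat_lit 0x10000000100010000000000000000000000010000))) (.non (nat_lit 1) (nat_lit 4) (nat_lit 0x115411) (nat_lit 0x20000000200030002000100000000000100000001))))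

noncomputable def t758_69 : Tr := (.ex (nat_lit 6) (.split (nat_lit 8) (nat_lit 2) (.split (nat_lit 9) (nat_lit 0) (.split (nat_lit 8) (nat_lit 1) (.pd (.cons (nat_lit 1) (nat_lit 7) (nat_lit 0) (nat_lit 0x205442200) (nat_lit 0xf423ff423f00000f423fb71ae1f156f423f7a11d00000b71ae) (.cons (nat_lit 2) (nat_lit 7) (nat_lit 0) (nat_lit 0x105443000) (nat_lit 0xf423ff423f00000f423fb71ae1f156f423f00000b71ae65b97) .nil)) t758_68) (.non (nat_lit 2) (nat_lit 4) (nat_lit 0x68005) (nat_lit 0x1000200010000000000000000000000030002))) (.split (nat_lit 9) (nat_lit 0) (.split (nat_lit 8) (nat_lit 1) (.pd (.cons (nat_lit 1) (nat_lit 7) (nat_lit 0) (nat_lit 0x205442200) (nat_lit 0xf423ff423f00000f423fb71ae1f156f423f7a11d000007a11e) (.cons (nat_lit 2) (nat_lit 7) (nat_lit 0) (nat_lit 0x105443000) (nat_lit 0xf423ff423f00000f423fb71ae1f156f423f00000b71ae28b07) .nil)) (.st (nat_lit 7) (nat_lit 2) (nat_lit 4) (nat_lit 0x95005) (nat_lit 0x1000200020001000000000000000000020002) (nat_lit 1) (nat_lit 1) (.split (nat_lit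 8) (nat_lit 7) (.pd (.cons (nat_lit 0) (nat_lit 8) (nat_lit 0) (nat_lit 0x9065442110) (nat_lit 0xf423f00000f423fb71aea2c2804737f423fb71ae1f15600000) (.cons (nat_lit 1) (nat_lit 5) (nat_lit 0) (nat_lit 0x287042200) (nat_lit 0xf423fa2c28b71aef423f00000f423ff423f5b8d4000007a11e) (.cons (nat_lit 1) (nat_lit 8) (nat_lit 0) (nat_lit 0x65442200) (nat_lit 0xf423f00000f423fb71aea2c2804737f423fb71ae000007a11e) (.cons (nat_lit 2) (nat_lit 5) (nat_lit 0) (nat_lit 0x187043000) (nat_lit 0xf423fa2c28b71aef423f00000f423ff423f00000989651869c) (.cons (nat_lit 2) (nat_lit 8) (nat_lit 0) (nat_lit 0x65443000) (nat_lit 0xf423f00000f423fb71aea2c2804737f423f00000f423f3d08d) .nil))))) (.leaf (.cons (nat_lit 0x10014) (nat_lit 0x100000000000000000000000100010000) (.cons (nat_lit 0x40015) (nat_lit 0x1000000000000000000000000000100010001) .nil)) .nil)) (.non (nat_lit 1) (nat_lit 4) (nat_lit 0x1a810) (nat_lit 0x400030002000100000000000200000000))))) (.non (nat_lit 2) (nat_lit 4) (nat_lit 0xa0005) (nat_lit 0x1000100000000000000000000000000020002)))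 (.non (nat_lit 2) (nat_lit 4) (nat_lit 0x54005) (nat_lit 0x3000200010000000000000000000000030004)))) (.non (nat_lit 1) (nat_lit 4) (nat_lit 0x2a050) (nat_lit 0x300020001000000000002000400000000))) (.split (nat_lit 0xa) (nat_lit 0) (.split (nat_lit 0xa) (nat_lit 1) (.split (nat_lit 0xa) (nat_lit 2) (.split (nat_lit 0xa) (nat_lit 3) (.split (nat_lit 0xa) (nat_lit 5) (.split (nat_lit 0xa) (nat_lit 7) (.split (nat_lit 0xa) (nat_lit 8) (.split (nat_lit 0xa) (nat_lit 9) (.split (nat_lit 0xa) (nat_lit 4) (.unj (nat_lit 0x55) (nat_lit 0x1000200020001) (nat_lit 0x105500) (nat_lit 0x10000000000010002000200020000000000000000)) (.unj (nat_lit 0x10014) (nat_lit 0x100000000000000000000000100010000) (nat_lit 0x101500) (nat_lit 0x10000000000000001000100010000000000000000))) (.non (nat_lit 1) (nat_lit 4) (nat_lit 0x155411) (nat_lit 0x30002000200030004000200000000000100000001))) (.non (nat_lit 1) (nat_lit 4) (nat_lit 0x115000) (nat_lit 0x10000000100010001000000000000000000000000))) (.non (nat_lit 1) (nat_lit 4)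 (nat_lit 0x105000) (nat_lit 0x10000000000010001000000000000000000000000))) (.non (nat_lit 1) (nat_lit 4) (nat_lit 0x101400) (nat_lit 0x10000000000000001000100000000000000000000))) (.non (nat_lit 1) (nat_lit 4) (nat_lit 0x115050) (nat_lit 0x10000000100010001000000000001000100000000))) (.star (nat_lit 0xa) (nat_lit 2) (nat_lit 6))) (.star (nat_lit 0xa) (nat_lit 1) (nat_lit 6))) (.non (nat_lit 1) (nat_lit 4) (nat_lit 0x155411) (nat_lit 0x30001000200030004000200000000000100000002))))

noncomputable def t758_70 : Tr := (.ex (nat_lit 4) (.ex (nat_lit 5) t758_69 (.split (nat_lit 0xa) (nat_lit 0) (.split (nat_lit 0xa) (nat_lit 1) (.split (nat_lit 0xa) (nat_lit 2) (.split (nat_lit 0xa) (nat_lit 3) (.split (nat_lit 0xa) (nat_lit 4) (.split (nat_lit 0xa) (nat_lit 6) (.split (nat_lit 0xa) (nat_lit 7) (.split (nat_lit 0xa) (nat_lit 8) (.split (nat_lit 0xa) (nat_lit 9) (.unj (nat_lit 0x10014) (nat_lit 0x100000000000000000000000100010000) (nat_lit 0x101500) (nat_lit 0x10000000000000001000200020000000000000000))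 (.non (nat_lit 1) (nat_lit 6) (nat_lit 0x140501) (nat_lit 0x30002000000000000000400030000000000000001))) (.non (nat_lit 1) (nat_lit 4) (nat_lit 0x115400) (nat_lit 0x10000000100010001000100000000000000000000))) (.non (nat_lit 1) (nat_lit 4) (nat_lit 0x105400) (nat_lit 0x10000000000010001000100000000000000000000))) (.non (nat_lit 1) (nat_lit 4) (nat_lit 0x101400) (nat_lit 0x10000000000000001000100000000000000000000))) (.non (nat_lit 1) (nat_lit 6) (nat_lit 0x100500) (nat_lit 0x10000000000000000000100010000000000000000))) (.non (nat_lit 1) (nat_lit 4) (nat_lit 0x115450) (nat_lit 0x10000000100010001000100000001000100000000))) (.non (nat_lit 1) (nat_lit 4) (nat_lit 0x115410) (nat_lit 0x10000000100010001000100000000000100000000))) (.non (nat_lit 2) (nat_lit 4) (nat_lit 0x115404) (nat_lit 0x10000000100010001000100000000000000010000))) (.non (nat_lit 1) (nat_lit 6) (nat_lit 0x140501) (nat_lit 0x30001000000000000000400030000000000000002)))) (.split (nat_lit 0xa) (nat_lit 0) (.split (nat_lit 0xa) (nat_lit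 1) (.split (nat_lit 0xa) (nat_lit 2) (.split (nat_lit 0xa) (nat_lit 3) (.split (nat_lit 0xa) (nat_lit 5) (.split (nat_lit 0xa) (nat_lit 7) (.split (nat_lit 0xa) (nat_lit 8) (.split (nat_lit 0xa) (nat_lit 9) (.split (nat_lit 0xa) (nat_lit 6) (.unj (nat_lit 0x10014) (nat_lit 0x100000000000000000000000100010000) (nat_lit 0x101500) (nat_lit 0x10000000000000001000200020000000000000000)) (.unj (nat_lit 0x10014) (nat_lit 0x100000000000000000000000100010000) (nat_lit 0x101500) (nat_lit 0x10000000000000001000100010000000000000000))) (.non (nat_lit 1) (nat_lit 6) (nat_lit 0x140501) (nat_lit 0x30002000000000000000300040000000000000001))) (.non (nat_lit 1) (nat_lit 6) (nat_lit 0x114500) (nat_lit 0x30000000200010000000300040000000000000000))) (.non (nat_lit 1) (nat_lit 6) (nat_lit 0x114500) (nat_lit 0x30000000100020000000300040000000000000000))) (.non (nat_lit 1) (nat_lit 6) (nat_lit 0x100500) (nat_lit 0x10000000000000000000100010000000000000000))) (.non (nat_lit 1) (nat_lit 6) (nat_lit 0x100550) (nat_lit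 0x30000000000000000000300040002000100000000))) (.star (nat_lit 0xa) (nat_lit 2) (nat_lit 4))) (.star (nat_lit 0xa) (nat_lit 1) (nat_lit 4))) (.non (nat_lit 1) (nat_lit 6) (nat_lit 0x140501) (nat_lit 0x30001000000000000000300040000000000000002))))

noncomputable def t758_71 : Tr := (.split (nat_lit 0xb) (nat_lit 0xa) (.ex (nat_lit 0xa) (.pd (.cons (nat_lit 0) (nat_lit 8) (nat_lit 0x101000000000) (nat_lit 0x93b065442110) (nat_lit 0x1f423f0000100000f423fb71aea2c2804737b71aea2c280473700000) .nil) (.leaf (.cons (nat_lit 0x10014) (nat_lit 0x100000000000000000000000100010000) (.cons (nat_lit 0x440015) (nat_lit 0x100000002000000000000000000000000000300040003) .nil)) .nil)) (.split (nat_lit 0xc) (nat_lit 0) (.split (nat_lit 0xc) (nat_lit 1) (.split (nat_lit 0xc) (nat_lit 2) (.split (nat_lit 0xc) (nat_lit 3) (.split (nat_lit 0xc) (nat_lit 4) (.split (nat_lit 0xc) (nat_lit 5) (.split (nat_lit 0xc) (nat_lit 6) (.split (nat_lit 0xc) (nat_lit 7) (.split (nat_lit 0xc) (nat_lit 8) (.split (nat_lit 0xc) (nat_lit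 9) (.split (nat_lit 0xc) (nat_lit 0xb) (.leaf (.cons (nat_lit 0x10014) (nat_lit 0x100000000000000000000000100010000) (.cons (nat_lit 0x1100054) (nat_lit 0x1000000020000000000000000000000000003000400030000) (.cons (nat_lit 0x440015) (nat_lit 0x100000002000000000000000000000000000300040003) .nil))) .nil) (.leaf (.cons (nat_lit 0x10014) (nat_lit 0x100000000000000000000000100010000) (.cons (nat_lit 0x1100054) (nat_lit 0x1000000020000000000000000000000000003000400030000) (.cons (nat_lit 0x440015) (nat_lit 0x100000002000000000000000000000000000300040003) .nil))) .nil)) (.non (nat_lit 2) (nat_lit 4) (nat_lit 0x1555005) (nat_lit 0x4000300020006000300020001000000000000000000040005))) (.non (nat_lit 1) (nat_lit 4) (nat_lit 0x1110050) (nat_lit 0x1000000010000000100000000000000000001000100000000))) (.non (nat_lit 1) (nat_lit 4) (nat_lit 0x1115410) (nat_lit 0x2000000010000000200030002000100000000000100000000))) (.non (nat_lit 1) (nat_lit 4) (nat_lit 0x1115050) (nat_lit 0x1000000010000000100010001000000000001000100000000)))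 (.non (nat_lit 1) (nat_lit 4) (nat_lit 0x1115450) (nat_lit 0x1000000010000000100010001000100000001000100000000))) (.non (nat_lit 1) (nat_lit 6) (nat_lit 0x1100540) (nat_lit 0x3000000020000000000000000000300040001000000000000))) (.non (nat_lit 1) (nat_lit 4) (nat_lit 0x1100040) (nat_lit 0x1000000010000000000000000000000000001000000000000))) (.non (nat_lit 1) (nat_lit 4) (nat_lit 0x1100050) (nat_lit 0x1000000010000000000000000000000000001000100000000))) (.non (nat_lit 2) (nat_lit 4) (nat_lit 0x1154005) (nat_lit 0x2000000010001000200010000000000000000000000030002))) (.non (nat_lit 2) (nat_lit 4) (nat_lit 0x1550005) (nat_lit 0x2000100010002000100000000000000000000000000020003)))) (.leaf (.cons (nat_lit 0x10014) (nat_lit 0x100000000000000000000000100010000) (.cons (nat_lit 0x500054) (nat_lit 0x100020000000000000000000000000003000400030000) (.cons (nat_lit 0x440015) (nat_lit 0x100000002000000000000000000000000000300040003) .nil))) .nil))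

noncomputable def t758_72 : Tr := (.ex (nat_lit 9) (.pd (.cons (nat_lit 3) (nat_lit 8) (nat_lit 0) (nat_lit 0xa0065440100) (nat_lit 0xf423ff423f00000f423fb71aea2c280473700000f423f5459106711) .nil) (.ex (nat_lit 0xa) (.pd (.cons (nat_lit 0) (nat_lit 8) (nat_lit 0) (nat_lit 0x39065442110) (nat_lit 0xf423ff423f00000f423fb71aea2c2804737b71aea2c280473700000) .nil) (.leaf (.cons (nat_lit 0x10014) (nat_lit 0x100000000000000000000000100010000) .nil) .nil)) (.split (nat_lit 0xb) (nat_lit 0) (.split (nat_lit 0xb) (nat_lit 1) (.split (nat_lit 0xb) (nat_lit 2) (.split (nat_lit 0xb) (nat_lit 3) (.split (nat_lit 0xb) (nat_lit 4) (.split (nat_lit 0xb) (nat_lit 5) (.split (nat_lit 0xb) (nat_lit 6) (.split (nat_lit 0xb) (nat_lit 7) (.split (nat_lit 0xb) (nat_lit 8) (.split (nat_lit 0xb) (nat_lit 9) (.leaf (.cons (nat_lit 0x10014) (nat_lit 0x100000000000000000000000100010000) (.cons (nat_lit 0x500054) (nat_lit 0x100020000000000000000000000000003000400030000) .nil)) .nil) (.non (nat_lit 3) (nat_lit 8) (nat_lit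 0x440015) (nat_lit 0x100000002000000000000000000000000000300040003))) (.non (nat_lit 1) (nat_lit 4) (nat_lit 0x510050) (nat_lit 0x100010000000100000000000000000001000100000000))) (.non (nat_lit 1) (nat_lit 4) (nat_lit 0x515410) (nat_lit 0x200010000000200030002000100000000000100000000))) (.non (nat_lit 1) (nat_lit 4) (nat_lit 0x515050) (nat_lit 0x100010000000100010001000000000001000100000000))) (.non (nat_lit 1) (nat_lit 4) (nat_lit 0x515450) (nat_lit 0x100010000000100010001000100000001000100000000))) (.non (nat_lit 1) (nat_lit 6) (nat_lit 0x500540) (nat_lit 0x300020000000000000000000300040001000000000000))) (.non (nat_lit 1) (nat_lit 4) (nat_lit 0x500040) (nat_lit 0x100010000000000000000000000000001000000000000))) (.non (nat_lit 1) (nat_lit 4) (nat_lit 0x500050) (nat_lit 0x100010000000000000000000000000001000100000000))) (.non (nat_lit 2) (nat_lit 4) (nat_lit 0x554005) (nat_lit 0x200010001000200010000000000000000000000030002))) (.non (nat_lit 2) (nat_lit 4) (nat_lit 0x555405) (nat_lit 0x400020003000400030002000100000000000000050006)))))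 (.split (nat_lit 0xb) (nat_lit 0) (.split (nat_lit 0xb) (nat_lit 1) (.split (nat_lit 0xb) (nat_lit 2) (.split (nat_lit 0xb) (nat_lit 3) (.split (nat_lit 0xb) (nat_lit 4) (.split (nat_lit 0xb) (nat_lit 5) (.split (nat_lit 0xb) (nat_lit 6) (.split (nat_lit 0xb) (nat_lit 7) (.split (nat_lit 0xb) (nat_lit 8) t758_71 (.non (nat_lit 1) (nat_lit 4) (nat_lit 0x455050) (nat_lit 0x200000001000300020001000000000001000200000000))) (.non (nat_lit 1) (nat_lit 4) (nat_lit 0x455410) (nat_lit 0x200000001000200030002000100000000000100000000))) (.non (nat_lit 1) (nat_lit 4) (nat_lit 0x555450) (nat_lit 0x400010002000400050006000300000002000300000000))) (.non (nat_lit 1) (nat_lit 6) (nat_lit 0x440501) (nat_lit 0x300000002000000000000000400030000000000000001))) (.non (nat_lit 1) (nat_lit 6) (nat_lit 0x440501) (nat_lit 0x300000002000000000000000300040000000000000001))) (.non (nat_lit 1) (nat_lit 4) (nat_lit 0x555450) (nat_lit 0x400030002000400030002000100000006000500000000))) (.non (nat_lit 1) (nat_lit 4) (nat_lit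 0x554050) (nat_lit 0x200010001000200010000000000000002000300000000))) (.non (nat_lit 2) (nat_lit 4) (nat_lit 0x440005) (nat_lit 0x100000001000000000000000000000000000000010001))) (.non (nat_lit 1) (nat_lit 4) (nat_lit 0x440001) (nat_lit 0x100000001000000000000000000000000000000000001))))

noncomputable def t758_73 : Tr := (.pd (.cons (nat_lit 1) (nat_lit 7) (nat_lit 0) (nat_lit 0x30205442200) (nat_lit 0xf423ff423ff423f00000f423fb71ae1f156b71ae65b9700000b71ae) (.cons (nat_lit 2) (nat_lit 7) (nat_lit 0) (nat_lit 0x30105443000) (nat_lit 0xf423ff423ff423f00000f423fb71ae1f156b71ae00000b71ae65b97) .nil)) (.ex (nat_lit 7) (.split (nat_lit 8) (nat_lit 7) (.pd (.cons (nat_lit 1) (nat_lit 5) (nat_lit 0) (nat_lit 0x30287042200) (nat_lit 0xf423ff423fa2c28b71aef423f00000f423fb71ae4734e00000b71ae) (.cons (nat_lit 1) (nat_lit 8) (nat_lit 0) (nat_lit 0x30065442200) (nat_lit 0xf423ff423f00000f423fb71aea2c2804737b71aea2c2800000b71ae) (.cons (nat_lit 2) (nat_lit 5) (nat_lit 0) (nat_lit 0x30187043000) (nat_lit 0xf423ff423fa2c28b71aef423f00000f423fb71ae00000989655572c)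 (.cons (nat_lit 2) (nat_lit 8) (nat_lit 0) (nat_lit 0x30065443000) (nat_lit 0xf423ff423f00000f423fb71aea2c2804737b71ae00000f423f7a11d) .nil)))) t758_72) (.non (nat_lit 1) (nat_lit 4) (nat_lit 0x1a810) (nat_lit 0x400030002000100000000000200000000))) (.split (nat_lit 0xb) (nat_lit 0) (.split (nat_lit 0xb) (nat_lit 1) (.split (nat_lit 0xb) (nat_lit 2) (.split (nat_lit 0xb) (nat_lit 3) (.split (nat_lit 0xb) (nat_lit 4) (.split (nat_lit 0xb) (nat_lit 5) (.split (nat_lit 0xb) (nat_lit 6) (.split (nat_lit 0xb) (nat_lit 8) (.split (nat_lit 0xb) (nat_lit 9) (.split (nat_lit 0xb) (nat_lit 0xa) (.unj (nat_lit 0x55) (nat_lit 0x1000200020001) (nat_lit 0x405500) (nat_lit 0x100000000000000020003000400030000000000000000)) (.non (nat_lit 1) (nat_lit 4) (nat_lit 0x515410) (nat_lit 0x200010000000200030002000100000000000100000000))) (.non (nat_lit 1) (nat_lit 4) (nat_lit 0x455410) (nat_lit 0x200000001000200030002000100000000000100000000))) (.non (nat_lit 1) (nat_lit 4) (nat_lit 0x414000) (nat_lit 0x100000000000100010000000000000000000000000000)))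 (.non (nat_lit 1) (nat_lit 4) (nat_lit 0x405000) (nat_lit 0x100000000000000010001000000000000000000000000))) (.non (nat_lit 1) (nat_lit 4) (nat_lit 0x405400) (nat_lit 0x100000000000000010001000100000000000000000000))) (.non (nat_lit 1) (nat_lit 6) (nat_lit 0x414500) (nat_lit 0x300000000000100020000000300040000000000000000))) (.non (nat_lit 1) (nat_lit 4) (nat_lit 0x414050) (nat_lit 0x100000000000100010000000000000001000100000000))) (.non (nat_lit 1) (nat_lit 4) (nat_lit 0x414010) (nat_lit 0x100000000000100010000000000000000000100000000))) (.non (nat_lit 2) (nat_lit 4) (nat_lit 0x414004) (nat_lit 0x100000000000100010000000000000000000000010000))) (.non (nat_lit 1) (nat_lit 4) (nat_lit 0x415411) (nat_lit 0x200000000000200030002000100000000000100000001)))))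

noncomputable def t758_74 : Tr := (.pd (.cons (nat_lit 1) (nat_lit 5) (nat_lit 0) (nat_lit 0x30287042200) (nat_lit 0xf423ff423fa2c28b71aef423f00000f423fb71ae4734e000007a11e) (.cons (nat_lit 1) (nat_lit 8) (nat_lit 0) (nat_lit 0x30065442200) (nat_lit 0xf423ff423f00000f423fb71aea2c2804737b71aea2c28000007a11e) (.cons (nat_lit 2) (nat_lit 5) (nat_lit 0) (nat_lit 0x30187043000) (nat_lit 0xf423ff423fa2c28b71aef423f00000f423fb71ae00000989651869c) (.cons (nat_lit 2) (nat_lit 8) (nat_lit 0) (nat_lit 0x30065443000) (nat_lit 0xf423ff423f00000f423fb71aea2c2804737b71ae00000f423f3d08d) .nil)))) (.ex (nat_lit 0xa) (.pd (.cons (nat_lit 0) (nat_lit 8) (nat_lit 0) (nat_lit 0x39065442110) (nat_lit 0xf423ff423f00000f423fb71aea2c2804737b71aea2c280473700000) .nil) (.leaf (.cons (nat_lit 0x10014) (nat_lit 0x100000000000000000000000100010000) (.cons (nat_lit 0x40015) (nat_lit 0x1000000000000000000000000000100010001) .nil)) .nil)) (.split (nat_lit 0xb) (nat_lit 0) (.split (nat_lit 0xb) (nat_lit 1) (.split (nat_lit 0xb)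 (nat_lit 2) (.split (nat_lit 0xb) (nat_lit 3) (.split (nat_lit 0xb) (nat_lit 4) (.split (nat_lit 0xb) (nat_lit 5) (.split (nat_lit 0xb) (nat_lit 6) (.split (nat_lit 0xb) (nat_lit 7) (.split (nat_lit 0xb) (nat_lit 8) (.split (nat_lit 0xb) (nat_lit 9) (.leaf (.cons (nat_lit 0x10014) (nat_lit 0x100000000000000000000000100010000) (.cons (nat_lit 0x500054) (nat_lit 0x100020000000000000000000000000003000400030000) (.cons (nat_lit 0x40015) (nat_lit 0x1000000000000000000000000000100010001) .nil))) .nil) (.non (nat_lit 2) (nat_lit 4) (nat_lit 0xa80005) (nat_lit 0x200010003000000000000000000000000000000020004))) (.non (nat_lit 1) (nat_lit 4) (nat_lit 0x510050) (nat_lit 0x100010000000100000000000000000001000100000000))) (.non (nat_lit 1) (nat_lit 4) (nat_lit 0x515410) (nat_lit 0x200010000000200030002000100000000000100000000))) (.non (nat_lit 1) (nat_lit 4) (nat_lit 0x515050) (nat_lit 0x100010000000100010001000000000001000100000000))) (.non (nat_lit 1) (nat_lit 4) (nat_lit 0x515450) (nat_lit 0x100010000000100010001000100000001000100000000)))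 (.non (nat_lit 1) (nat_lit 6) (nat_lit 0x500540) (nat_lit 0x300020000000000000000000300040001000000000000))) (.non (nat_lit 1) (nat_lit 4) (nat_lit 0x500040) (nat_lit 0x100010000000000000000000000000001000000000000))) (.non (nat_lit 1) (nat_lit 4) (nat_lit 0x500050) (nat_lit 0x100010000000000000000000000000001000100000000))) (.non (nat_lit 2) (nat_lit 4) (nat_lit 0x490005) (nat_lit 0x100000001000100000000000000000000000000020002))) (.non (nat_lit 2) (nat_lit 4) (nat_lit 0x480005) (nat_lit 0x100000001000000000000000000000000000000010002)))))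

noncomputable def t758_75 : Tr := (.pd (.cons (nat_lit 1) (nat_lit 5) (nat_lit 0) (nat_lit 0x30287042200) (nat_lit 0xf423ff423fa2c28b71aef423f00000f423f7a11e1e84200000b71ae) (.cons (nat_lit 1) (nat_lit 8) (nat_lit 0) (nat_lit 0x30065442200) (nat_lit 0xf423ff423f00000f423fb71aea2c28047377a11e7a11c00000b71ae) (.cons (nat_lit 2) (nat_lit 5) (nat_lit 0) (nat_lit 0x30187043000) (nat_lit 0xf423ff423fa2c28b71aef423f00000f423f7a11e00000989655572c) (.cons (nat_lit 2) (nat_lit 8) (nat_lit 0) (nat_lit 0x30065443000) (nat_lit 0xf423ff423f00000f423fb71aea2c28047377a11e00000f423f7a11d) .nil)))) (.ex (nat_lit 9) (.pd (.cons (nat_lit 3) (nat_lit 8) (nat_lit 0) (nat_lit 0xa0065440100) (nat_lit 0xf423ff423f00000f423fb71aea2c280473700000f423f5459106711) .nil) (.leaf (.cons (nat_lit 0x10014) (nat_lit 0x100000000000000000000000100010000) (.cons (nat_lit 0x100054) (nat_lit 0x10000000000000000000000000001000100010000) .nil)) .nil)) (.split (nat_lit 0xb) (nat_lit 0) (.split (nat_lit 0xb) (nat_lit 1) (.split (nat_lit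 0xb) (nat_lit 2) (.split (nat_lit 0xb) (nat_lit 3) (.split (nat_lit 0xb) (nat_lit 4) (.split (nat_lit 0xb) (nat_lit 5) (.split (nat_lit 0xb) (nat_lit 6) (.split (nat_lit 0xb) (nat_lit 7) (.split (nat_lit 0xb) (nat_lit 8) (.split (nat_lit 0xb) (nat_lit 0xa) (.leaf (.cons (nat_lit 0x10014) (nat_lit 0x100000000000000000000000100010000) (.cons (nat_lit 0x100054) (nat_lit 0x10000000000000000000000000001000100010000) (.cons (nat_lit 0x440015) (nat_lit 0x100000002000000000000000000000000000300040003) .nil))) .nil) (.non (nat_lit 1) (nat_lit 4) (nat_lit 0xa80050) (nat_lit 0x200030001000000000000000000000004000200000000))) (.non (nat_lit 1) (nat_lit 4) (nat_lit 0x614050) (nat_lit 0x100010000000200010000000000000002000200000000))) (.non (nat_lit 1) (nat_lit 4) (nat_lit 0x455410) (nat_lit 0x200000001000200030002000100000000000100000000))) (.non (nat_lit 1) (nat_lit 4) (nat_lit 0x615450) (nat_lit 0x100010000000200020002000100000002000200000000))) (.non (nat_lit 1) (nat_lit 6) (nat_lit 0x440501) (nat_lit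 0x300000002000000000000000400030000000000000001))) (.non (nat_lit 1) (nat_lit 6) (nat_lit 0x440501) (nat_lit 0x300000002000000000000000300040000000000000001))) (.non (nat_lit 1) (nat_lit 4) (nat_lit 0x600050) (nat_lit 0x100010000000000000000000000000002000100000000))) (.non (nat_lit 1) (nat_lit 4) (nat_lit 0x610050) (nat_lit 0x100010000000100000000000000000002000200000000))) (.non (nat_lit 2) (nat_lit 4) (nat_lit 0x440005) (nat_lit 0x100000001000000000000000000000000000000010001))) (.non (nat_lit 1) (nat_lit 4) (nat_lit 0x440001) (nat_lit 0x100000001000000000000000000000000000000000001)))))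

noncomputable def t758_76 : Tr := (.split (nat_lit 0xa) (nat_lit 3) (.split (nat_lit 9) (nat_lit 0) (.split (nat_lit 8) (nat_lit 1) t758_73 (.non (nat_lit 2) (nat_lit 4) (nat_lit 0x68005) (nat_lit 0x1000200010000000000000000000000030002))) (.split (nat_lit 9) (nat_lit 0) (.split (nat_lit 8) (nat_lit 1) (.pd (.cons (nat_lit 1) (nat_lit 7) (nat_lit 0) (nat_lit 0x30205442200) (nat_lit 0xf423ff423ff423f00000f423fb71ae1f156b71ae65b97000007a11e) (.cons (nat_lit 2) (nat_lit 7) (nat_lit 0) (nat_lit 0x30105443000) (nat_lit 0xf423ff423ff423f00000f423fb71ae1f156b71ae00000b71ae28b07) .nil)) (.st (nat_lit 7) (nat_lit 2) (nat_lit 4) (nat_lit 0x95005) (nat_lit 0x1000200020001000000000000000000020002) (nat_lit 1) (nat_lit 1) (.split (nat_lit 8) (nat_lit 7) t758_74 (.non (nat_lit 1) (nat_lit 4) (nat_lit 0x1a810) (nat_lit 0x400030002000100000000000200000000))))) (.non (nat_lit 2) (nat_lit 4) (nat_lit 0xa0005) (nat_lit 0x1000100000000000000000000000000020002))) (.non (nat_lit 2) (nat_lit 4) (nat_lit 0x54005) (nat_lit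 0x3000200010000000000000000000000030004)))) (.split (nat_lit 0xa) (nat_lit 3) (.split (nat_lit 9) (nat_lit 0) (.split (nat_lit 8) (nat_lit 1) (.pd (.cons (nat_lit 1) (nat_lit 7) (nat_lit 0) (nat_lit 0x30205442200) (nat_lit 0xf423ff423ff423f00000f423fb71ae1f1567a11e3d08b00000b71ae) (.cons (nat_lit 2) (nat_lit 7) (nat_lit 0) (nat_lit 0x30105443000) (nat_lit 0xf423ff423ff423f00000f423fb71ae1f1567a11e00000b71ae65b97) .nil)) (.st (nat_lit 7) (nat_lit 1) (nat_lit 4) (nat_lit 0x215050) (nat_lit 0x10000000200020001000000000002000200000000) (nat_lit 1) (nat_lit 1) (.split (nat_lit 8) (nat_lit 7) t758_75 (.non (nat_lit 1) (nat_lit 4) (nat_lit 0x1a810) (nat_lit 0x400030002000100000000000200000000))))) (.non (nat_lit 2) (nat_lit 4) (nat_lit 0x68005) (nat_lit 0x1000200010000000000000000000000030002))) (.split (nat_lit 9) (nat_lit 0) (.split (nat_lit 8) (nat_lit 1) (.pd (.cons (nat_lit 1) (nat_lit 7) (nat_lit 0) (nat_lit 0x30205442200) (nat_lit 0xf423ff423ff423f00000f423fb71ae1f1567a11e3d08b000007a11e) (.cons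 (nat_lit 2) (nat_lit 7) (nat_lit 0) (nat_lit 0x30105443000) (nat_lit 0xf423ff423ff423f00000f423fb71ae1f1567a11e00000b71ae28b07) .nil)) (.st (nat_lit 7) (nat_lit 1) (nat_lit 4) (nat_lit 0x215050) (nat_lit 0x10000000200020001000000000002000200000000) (nat_lit 1) (nat_lit 1) (.split (nat_lit 8) (nat_lit 7) (.pd (.cons (nat_lit 1) (nat_lit 5) (nat_lit 0) (nat_lit 0x30287042200) (nat_lit 0xf423ff423fa2c28b71aef423f00000f423f7a11e1e842000007a11e) (.cons (nat_lit 1) (nat_lit 8) (nat_lit 0) (nat_lit 0x30065442200) (nat_lit 0xf423ff423f00000f423fb71aea2c28047377a11e7a11c000007a11e) (.cons (nat_lit 2) (nat_lit 5) (nat_lit 0) (nat_lit 0x30187043000) (nat_lit 0xf423ff423fa2c28b71aef423f00000f423f7a11e00000989651869c) (.cons (nat_lit 2) (nat_lit 8) (nat_lit 0) (nat_lit 0x30065443000) (nat_lit 0xf423ff423f00000f423fb71aea2c28047377a11e00000f423f3d08d) .nil)))) (.leaf (.cons (nat_lit 0x10014) (nat_lit 0x100000000000000000000000100010000) (.cons (nat_lit 0x100054) (nat_lit 0x10000000000000000000000000001000100010000)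 (.cons (nat_lit 0x40015) (nat_lit 0x1000000000000000000000000000100010001) .nil))) .nil)) (.non (nat_lit 1) (nat_lit 4) (nat_lit 0x1a810) (nat_lit 0x400030002000100000000000200000000))))) (.non (nat_lit 2) (nat_lit 4) (nat_lit 0xa0005) (nat_lit 0x1000100000000000000000000000000020002))) (.non (nat_lit 2) (nat_lit 4) (nat_lit 0x54005) (nat_lit 0x3000200010000000000000000000000030004)))) (.non (nat_lit 1) (nat_lit 4) (nat_lit 0x114050) (nat_lit 0x30000000200010000000000000004000300000000))))

noncomputable def t758_77 : Tr := (.ex (nat_lit 5) (.ex (nat_lit 6) (.split (nat_lit 8) (nat_lit 2) t758_76 (.non (nat_lit 1) (nat_lit 4) (nat_lit 0x128050) (nat_lit 0x10000000200010000000000000002000300000000))) (.split (nat_lit 0xb) (nat_lit 0) (.split (nat_lit 0xb) (nat_lit 1) (.split (nat_lit 0xb) (nat_lit 2) (.split (nat_lit 0xb) (nat_lit 3) (.split (nat_lit 0xb) (nat_lit 5) (.split (nat_lit 0xb) (nat_lit 7) (.split (nat_lit 0xb) (nat_lit 8) (.split (nat_lit 0xb) (nat_lit 9) (.split (nat_lit 0xb) (nat_lit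 0xa) (.split (nat_lit 0xb) (nat_lit 4) (.unj (nat_lit 0x55) (nat_lit 0x1000200020001) (nat_lit 0x405500) (nat_lit 0x100000000000000010002000200020000000000000000)) (.unj (nat_lit 0x10014) (nat_lit 0x100000000000000000000000100010000) (nat_lit 0x401500) (nat_lit 0x100000000000000000001000100010000000000000000))) (.non (nat_lit 1) (nat_lit 4) (nat_lit 0x515050) (nat_lit 0x100010000000100010001000000000001000100000000))) (.non (nat_lit 1) (nat_lit 4) (nat_lit 0x555450) (nat_lit 0x400010002000400050006000300000002000300000000))) (.non (nat_lit 1) (nat_lit 4) (nat_lit 0x415000) (nat_lit 0x100000000000100010001000000000000000000000000))) (.non (nat_lit 1) (nat_lit 4) (nat_lit 0x405000) (nat_lit 0x100000000000000010001000000000000000000000000))) (.non (nat_lit 1) (nat_lit 4) (nat_lit 0x401400) (nat_lit 0x100000000000000000001000100000000000000000000))) (.non (nat_lit 1) (nat_lit 4) (nat_lit 0x415050) (nat_lit 0x100000000000100010001000000000001000100000000))) (.star (nat_lit 0xb) (nat_lit 2) (nat_lit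 6))) (.star (nat_lit 0xb) (nat_lit 1) (nat_lit 6))) (.non (nat_lit 1) (nat_lit 4) (nat_lit 0x455411) (nat_lit 0x300000001000200030004000200000000000100000002)))) (.split (nat_lit 0xb) (nat_lit 0) (.split (nat_lit 0xb) (nat_lit 1) (.split (nat_lit 0xb) (nat_lit 2) (.split (nat_lit 0xb) (nat_lit 3) (.split (nat_lit 0xb) (nat_lit 4) (.split (nat_lit 0xb) (nat_lit 6) (.split (nat_lit 0xb) (nat_lit 7) (.split (nat_lit 0xb) (nat_lit 8) (.split (nat_lit 0xb) (nat_lit 9) (.split (nat_lit 0xb) (nat_lit 0xa) (.unj (nat_lit 0x10014) (nat_lit 0x100000000000000000000000100010000) (nat_lit 0x401500) (nat_lit 0x100000000000000000001000200020000000000000000)) (.non (nat_lit 1) (nat_lit 4) (nat_lit 0x515450) (nat_lit 0x100010000000100010001000100000001000100000000))) (.non (nat_lit 1) (nat_lit 6) (nat_lit 0x440501) (nat_lit 0x300000002000000000000000400030000000000000001))) (.non (nat_lit 1) (nat_lit 4) (nat_lit 0x415400) (nat_lit 0x100000000000100010001000100000000000000000000))) (.non (nat_lit 1) (nat_lit 4)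 (nat_lit 0x405400) (nat_lit 0x100000000000000010001000100000000000000000000))) (.non (nat_lit 1) (nat_lit 4) (nat_lit 0x401400) (nat_lit 0x100000000000000000001000100000000000000000000))) (.non (nat_lit 1) (nat_lit 6) (nat_lit 0x400500) (nat_lit 0x100000000000000000000000100010000000000000000))) (.non (nat_lit 1) (nat_lit 4) (nat_lit 0x415450) (nat_lit 0x100000000000100010001000100000001000100000000))) (.non (nat_lit 1) (nat_lit 4) (nat_lit 0x415410) (nat_lit 0x100000000000100010001000100000000000100000000))) (.non (nat_lit 2) (nat_lit 4) (nat_lit 0x415404) (nat_lit 0x100000000000100010001000100000000000000010000))) (.non (nat_lit 1) (nat_lit 6) (nat_lit 0x440501) (nat_lit 0x300000001000000000000000400030000000000000002))))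

noncomputable def t758_78 : Tr := (.pd (.cons (nat_lit 1) (nat_lit 7) (nat_lit 0) (nat_lit 0x330205442200) (nat_lit 0xf423ff423ff423ff423f00000f423fb71ae1f1567a11d3d08a00000b71ae) (.cons (nat_lit 1) (nat_lit 8) (nat_lit 0) (nat_lit 0x330065442200) (nat_lit 0xf423ff423ff423f00000f423fb71aea2c28047377a11d7a11b00000b71ae) (.cons (nat_lit 2) (nat_lit 7) (nat_lit 0) (nat_lit 0x330105443000) (nat_lit 0xf423ff423ff423ff423f00000f423fb71ae1f1567a11d00000b71ae65b97) (.cons (nat_lit 2) (nat_lit 8) (nat_lit 0) (nat_lit 0x330065443000) (nat_lit 0xf423ff423ff423f00000f423fb71aea2c28047377a11d00000f423f7a11d) .nil)))) (.ex (nat_lit 9) (.pd (.cons (nat_lit 3) (nat_lit 8) (nat_lit 0) (nat_lit 0xba0065440100) (nat_lit 0xf423ff423ff423f00000f423fb71aea2c280473700000f423f5459106711) .nil) (.leaf (.cons (nat_lit 0x10014) (nat_lit 0x100000000000000000000000100010000) (.cons (nat_lit 0x500054) (nat_lit 0x100010000000000000000000000000002000200020000) .nil)) .nil)) (.split (nat_lit 0xc) (nat_lit 0) (.split (nat_lit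 0xc) (nat_lit 1) (.split (nat_lit 0xc) (nat_lit 2) (.split (nat_lit 0xc) (nat_lit 3) (.split (nat_lit 0xc) (nat_lit 4) (.split (nat_lit 0xc) (nat_lit 5) (.split (nat_lit 0xc) (nat_lit 6) (.split (nat_lit 0xc) (nat_lit 7) (.split (nat_lit 0xc) (nat_lit 8) (.split (nat_lit 0xc) (nat_lit 0xa) (.split (nat_lit 0xc) (nat_lit 0xb) (.leaf (.cons (nat_lit 0x10014) (nat_lit 0x100000000000000000000000100010000) (.cons (nat_lit 0x500054) (nat_lit 0x100010000000000000000000000000002000200020000) (.cons (nat_lit 0x1040015) (nat_lit 0x1000000000002000000000000000000000000000300040003) .nil))) .nil) (.non (nat_lit 1) (nat_lit 4) (nat_lit 0x1554050) (nat_lit 0x2000300020001000200010000000000000004000300000000))) (.non (nat_lit 1) (nat_lit 4) (nat_lit 0x1554050) (nat_lit 0x2000200030001000200010000000000000004000300000000))) (.non (nat_lit 1) (nat_lit 4) (nat_lit 0x1514050) (nat_lit 0x1000100010000000200010000000000000002000200000000))) (.non (nat_lit 1) (nat_lit 4) (nat_lit 0x1055410) (nat_lit 0x2000000000001000200030002000100000000000100000000)))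 (.non (nat_lit 1) (nat_lit 4) (nat_lit 0x1515450) (nat_lit 0x1000100010000000200020002000100000002000200000000))) (.non (nat_lit 1) (nat_lit 6) (nat_lit 0x1040501) (nat_lit 0x3000000000002000000000000000400030000000000000001))) (.non (nat_lit 1) (nat_lit 6) (nat_lit 0x1040501) (nat_lit 0x3000000000002000000000000000300040000000000000001))) (.non (nat_lit 1) (nat_lit 4) (nat_lit 0x1500050) (nat_lit 0x1000100010000000000000000000000000002000100000000))) (.non (nat_lit 1) (nat_lit 4) (nat_lit 0x1510050) (nat_lit 0x1000100010000000100000000000000000002000200000000))) (.non (nat_lit 2) (nat_lit 4) (nat_lit 0x1040005) (nat_lit 0x1000000000001000000000000000000000000000000010001))) (.non (nat_lit 1) (nat_lit 4) (nat_lit 0x1040001) (nat_lit 0x1000000000001000000000000000000000000000000000001)))))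

noncomputable def t758_79 : Tr := (.ex (nat_lit 5) (.pd (.cons (nat_lit 1) (nat_lit 7) (nat_lit 0) (nat_lit 0x330205442200) (nat_lit 0xf423ff423ff423ff423f00000f423fb71ae1f1567a11d3d08a000007a11e) (.cons (nat_lit 1) (nat_lit 8) (nat_lit 0) (nat_lit 0x330065442200) (nat_lit 0xf423ff423ff423f00000f423fb71aea2c28047377a11d7a11b000007a11e) (.cons (nat_lit 2) (nat_lit 7) (nat_lit 0) (nat_lit 0x330105443000) (nat_lit 0xf423ff423ff423ff423f00000f423fb71ae1f1567a11d00000b71ae28b07) (.cons (nat_lit 2) (nat_lit 8) (nat_lit 0) (nat_lit 0x330065443000) (nat_lit 0xf423ff423ff423f00000f423fb71aea2c28047377a11d00000f423f3d08d) .nil)))) (.leaf (.cons (nat_lit 0x10014) (nat_lit 0x100000000000000000000000100010000) (.cons (nat_lit 0x500054) (nat_lit 0x100010000000000000000000000000002000200020000) (.cons (nat_lit 0x40015) (nat_lit 0x1000000000000000000000000000100010001) .nil))) .nil)) (.split (nat_lit 0xc) (nat_lit 0) (.split (nat_lit 0xc) (nat_lit 1) (.split (nat_lit 0xc) (nat_lit 2) (.split (nat_lit 0xc) (nat_lit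 3) (.split (nat_lit 0xc) (nat_lit 4) (.split (nat_lit 0xc) (nat_lit 6) (.split (nat_lit 0xc) (nat_lit 7) (.split (nat_lit 0xc) (nat_lit 8) (.split (nat_lit 0xc) (nat_lit 9) (.split (nat_lit 0xc) (nat_lit 0xa) (.split (nat_lit 0xc) (nat_lit 0xb) (.unj (nat_lit 0x10014) (nat_lit 0x100000000000000000000000100010000) (nat_lit 0x1001500) (nat_lit 0x1000000000000000000000001000200020000000000000000)) (.non (nat_lit 1) (nat_lit 4) (nat_lit 0x1514450) (nat_lit 0x2000300020000000200010000000100000004000300000000))) (.non (nat_lit 1) (nat_lit 4) (nat_lit 0x1514450) (nat_lit 0x2000200030000000200010000000100000004000300000000))) (.non (nat_lit 1) (nat_lit 4) (nat_lit 0x2aaa8a1) (nat_lit 0x2000100010002000200020002000200000002000200000002))) (.non (nat_lit 1) (nat_lit 4) (nat_lit 0x1015400) (nat_lit 0x1000000000000000100010001000100000000000000000000))) (.non (nat_lit 1) (nat_lit 4) (nat_lit 0x1005400) (nat_lit 0x1000000000000000000010001000100000000000000000000))) (.non (nat_lit 1) (nat_lit 4) (nat_lit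 0x1001400) (nat_lit 0x1000000000000000000000001000100000000000000000000))) (.non (nat_lit 1) (nat_lit 6) (nat_lit 0x1000500) (nat_lit 0x1000000000000000000000000000100010000000000000000))) (.non (nat_lit 1) (nat_lit 4) (nat_lit 0x1500050) (nat_lit 0x1000100010000000000000000000000000002000100000000))) (.non (nat_lit 1) (nat_lit 4) (nat_lit 0x1015410) (nat_lit 0x1000000000000000100010001000100000000000100000000))) (.non (nat_lit 2) (nat_lit 4) (nat_lit 0x1015404) (nat_lit 0x1000000000000000100010001000100000000000000010000))) (.non (nat_lit 1) (nat_lit 4) (nat_lit 0x1595451) (nat_lit 0x2000100010001000200020002000200000002000200000002))))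

noncomputable def t758_80 : Tr := (.split (nat_lit 9) (nat_lit 0) (.split (nat_lit 8) (nat_lit 1) (.pd (.cons (nat_lit 1) (nat_lit 5) (nat_lit 0) (nat_lit 0x330287042200) (nat_lit 0xf423ff423ff423fa2c28b71aef423f00000f423f7a11d1e84100000b71ae) (.cons (nat_lit 2) (nat_lit 5) (nat_lit 0) (nat_lit 0x330187043000) (nat_lit 0xf423ff423ff423fa2c28b71aef423f00000f423f7a11d00000989655572c) .nil)) (.ex (nat_lit 5) t758_78 (.split (nat_lit 0xc) (nat_lit 0) (.split (nat_lit 0xc) (nat_lit 1) (.split (nat_lit 0xc) (nat_lit 2) (.split (nat_lit 0xc) (nat_lit 3) (.split (nat_lit 0xc) (nat_lit 4) (.split (nat_lit 0xc) (nat_lit 6) (.split (nat_lit 0xc) (nat_lit 7) (.split (nat_lit 0xc) (nat_lit 8) (.split (nat_lit 0xc) (nat_lit 9) (.split (nat_lit 0xc) (nat_lit 0xa) (.split (nat_lit 0xc) (nat_lit 0xb) (.unj (nat_lit 0x10014) (nat_lit 0x100000000000000000000000100010000) (nat_lit 0x1001500) (nat_lit 0x1000000000000000000000001000200020000000000000000)) (.non (nat_lit 1) (nat_lit 4) (nat_lit 0x1514450) (nat_lit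 0x2000300020000000200010000000100000004000300000000))) (.non (nat_lit 1) (nat_lit 4) (nat_lit 0x1514450) (nat_lit 0x2000200030000000200010000000100000004000300000000))) (.non (nat_lit 1) (nat_lit 6) (nat_lit 0x1040501) (nat_lit 0x3000000000002000000000000000400030000000000000001))) (.non (nat_lit 1) (nat_lit 4) (nat_lit 0x1015400) (nat_lit 0x1000000000000000100010001000100000000000000000000))) (.non (nat_lit 1) (nat_lit 4) (nat_lit 0x1005400) (nat_lit 0x1000000000000000000010001000100000000000000000000))) (.non (nat_lit 1) (nat_lit 4) (nat_lit 0x1001400) (nat_lit 0x1000000000000000000000001000100000000000000000000))) (.non (nat_lit 1) (nat_lit 6) (nat_lit 0x1000500) (nat_lit 0x1000000000000000000000000000100010000000000000000))) (.non (nat_lit 1) (nat_lit 4) (nat_lit 0x1500050) (nat_lit 0x1000100010000000000000000000000000002000100000000))) (.non (nat_lit 1) (nat_lit 4) (nat_lit 0x1015410) (nat_lit 0x1000000000000000100010001000100000000000100000000))) (.non (nat_lit 2) (nat_lit 4) (nat_lit 0x1015404)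 (nat_lit 0x1000000000000000100010001000100000000000000010000))) (.non (nat_lit 1) (nat_lit 6) (nat_lit 0x1040501) (nat_lit 0x3000000000001000000000000000400030000000000000002))))) (.non (nat_lit 2) (nat_lit 4) (nat_lit 0x68005) (nat_lit 0x1000200010000000000000000000000030002))) (.split (nat_lit 9) (nat_lit 0) (.split (nat_lit 8) (nat_lit 1) (.pd (.cons (nat_lit 1) (nat_lit 5) (nat_lit 0) (nat_lit 0x330287042200) (nat_lit 0xf423ff423ff423fa2c28b71aef423f00000f423f7a11d1e841000007a11e) (.cons (nat_lit 2) (nat_lit 5) (nat_lit 0) (nat_lit 0x330187043000) (nat_lit 0xf423ff423ff423fa2c28b71aef423f00000f423f7a11d00000989651869c) .nil)) t758_79) (.non (nat_lit 2) (nat_lit 4) (nat_lit 0xa0005) (nat_lit 0x1000100000000000000000000000000020002))) (.non (nat_lit 2) (nat_lit 4) (nat_lit 0x54005) (nat_lit 0x3000200010000000000000000000000030004))))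

noncomputable def t758_81 : Tr := (.st (nat_lit 6) (nat_lit 1) (nat_lit 4) (nat_lit 0x515450) (nat_lit 0x100010000000200020002000100000002000200000000) (nat_lit 1) (nat_lit 1) (.st (nat_lit 7) (nat_lit 1) (nat_lit 4) (nat_lit 0x515050) (nat_lit 0x100010000000200020001000000000002000200000000) (nat_lit 1) (nat_lit 1) (.ex (nat_lit 4) (.split (nat_lit 8) (nat_lit 2) (.split (nat_lit 0xa) (nat_lit 3) (.split (nat_lit 0xb) (nat_lit 3) (.split (nat_lit 8) (nat_lit 7) t758_80 (.non (nat_lit 1) (nat_lit 4) (nat_lit 0x1a810) (nat_lit 0x400030002000100000000000200000000))) (.non (nat_lit 1) (nat_lit 4) (nat_lit 0x900050) (nat_lit 0x100010000000000000000000000000002000100000000))) (.non (nat_lit 1) (nat_lit 4) (nat_lit 0x600050) (nat_lit 0x100010000000000000000000000000002000100000000))) (.non (nat_lit 1) (nat_lit 4) (nat_lit 0x520050) (nat_lit 0x100010000000100000000000000000002000200000000))) (.split (nat_lit 0xc) (nat_lit 0) (.split (nat_lit 0xc) (nat_lit 1) (.split (nat_lit 0xc) (nat_lit 2) (.split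 (nat_lit 0xc) (nat_lit 3) (.split (nat_lit 0xc) (nat_lit 5) (.split (nat_lit 0xc) (nat_lit 6) (.split (nat_lit 0xc) (nat_lit 7) (.split (nat_lit 0xc) (nat_lit 8) (.split (nat_lit 0xc) (nat_lit 9) (.split (nat_lit 0xc) (nat_lit 0xa) (.split (nat_lit 0xc) (nat_lit 0xb) (.unj (nat_lit 0x10014) (nat_lit 0x100000000000000000000000100010000) (nat_lit 0x1001500) (nat_lit 0x1000000000000000000000001000200020000000000000000)) (.non (nat_lit 1) (nat_lit 4) (nat_lit 0x1515450) (nat_lit 0x2000400030000000400030002000100000006000500000000))) (.non (nat_lit 1) (nat_lit 4) (nat_lit 0x1515450) (nat_lit 0x2000300040000000400030002000100000006000500000000))) (.non (nat_lit 1) (nat_lit 6) (nat_lit 0x1040501) (nat_lit 0x3000000000002000000000000000300040000000000000001))) (.non (nat_lit 1) (nat_lit 4) (nat_lit 0x1514050) (nat_lit 0x1000100010000000200010000000000000002000200000000))) (.non (nat_lit 1) (nat_lit 4) (nat_lit 0x1515050) (nat_lit 0x1000100010000000200020001000000000002000200000000))) (.non (nat_lit 1)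 (nat_lit 4) (nat_lit 0x1515450) (nat_lit 0x1000100010000000200020002000100000002000200000000))) (.non (nat_lit 1) (nat_lit 6) (nat_lit 0x1000500) (nat_lit 0x1000000000000000000000000000100010000000000000000))) (.non (nat_lit 1) (nat_lit 4) (nat_lit 0x1500050) (nat_lit 0x1000100010000000000000000000000000002000100000000))) (.star (nat_lit 0xc) (nat_lit 2) (nat_lit 4))) (.star (nat_lit 0xc) (nat_lit 1) (nat_lit 4))) (.non (nat_lit 1) (nat_lit 6) (nat_lit 0x1040501) (nat_lit 0x3000000000001000000000000000300040000000000000002))))))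

noncomputable def t758_82 : Tr := (.ex (nat_lit 3) (.ex (nat_lit 4) t758_77 (.split (nat_lit 0xb) (nat_lit 0) (.split (nat_lit 0xb) (nat_lit 1) (.split (nat_lit 0xb) (nat_lit 2) (.split (nat_lit 0xb) (nat_lit 3) (.split (nat_lit 0xb) (nat_lit 5) (.split (nat_lit 0xb) (nat_lit 7) (.split (nat_lit 0xb) (nat_lit 8) (.split (nat_lit 0xb) (nat_lit 9) (.split (nat_lit 0xb) (nat_lit 0xa) (.split (nat_lit 0xb) (nat_lit 6) (.unj (nat_lit 0x10014) (nat_lit 0x100000000000000000000000100010000) (nat_lit 0x401500) (nat_lit 0x100000000000000000001000200020000000000000000)) (.unj (nat_lit 0x10014) (nat_lit 0x100000000000000000000000100010000) (nat_lit 0x401500) (nat_lit 0x100000000000000000001000100010000000000000000))) (.non (nat_lit 1) (nat_lit 6) (nat_lit 0x500540) (nat_lit 0x300020000000000000000000300040001000000000000))) (.non (nat_lit 1) (nat_lit 6) (nat_lit 0x440501) (nat_lit 0x300000002000000000000000300040000000000000001))) (.non (nat_lit 1) (nat_lit 4) (nat_lit 0x515450) (nat_lit 0x200010000000400030002000100000002000300000000)))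 (.non (nat_lit 1) (nat_lit 6) (nat_lit 0x414500) (nat_lit 0x300000000000100020000000300040000000000000000))) (.non (nat_lit 1) (nat_lit 6) (nat_lit 0x400500) (nat_lit 0x100000000000000000000000100010000000000000000))) (.non (nat_lit 1) (nat_lit 6) (nat_lit 0x500540) (nat_lit 0x300010000000000000000000300040002000000000000))) (.star (nat_lit 0xb) (nat_lit 2) (nat_lit 4))) (.star (nat_lit 0xb) (nat_lit 1) (nat_lit 4))) (.non (nat_lit 1) (nat_lit 6) (nat_lit 0x440501) (nat_lit 0x300000001000000000000000300040000000000000002)))) (.split (nat_lit 0xb) (nat_lit 0) (.split (nat_lit 0xb) (nat_lit 1) (.split (nat_lit 0xb) (nat_lit 2) (.split (nat_lit 0xb) (nat_lit 4) (.split (nat_lit 0xb) (nat_lit 5) (.split (nat_lit 0xb) (nat_lit 6) (.split (nat_lit 0xb) (nat_lit 7) (.split (nat_lit 0xb) (nat_lit 8) (.split (nat_lit 0xb) (nat_lit 9) (.split (nat_lit 0xb) (nat_lit 0xa) t758_81 (.non (nat_lit 1) (nat_lit 4) (nat_lit 0x500040) (nat_lit 0x100010000000000000000000000000001000000000000))) (.non (nat_lit 1)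 (nat_lit 4) (nat_lit 0x555450) (nat_lit 0x400030002000400030002000100000006000500000000))) (.non (nat_lit 1) (nat_lit 4) (nat_lit 0x410050) (nat_lit 0x100000000000100000000000000000001000100000000))) (.non (nat_lit 1) (nat_lit 4) (nat_lit 0x414050) (nat_lit 0x100000000000100010000000000000001000100000000))) (.non (nat_lit 1) (nat_lit 4) (nat_lit 0x415050) (nat_lit 0x100000000000100010001000000000001000100000000))) (.non (nat_lit 1) (nat_lit 4) (nat_lit 0x415450) (nat_lit 0x100000000000100010001000100000001000100000000))) (.non (nat_lit 1) (nat_lit 6) (nat_lit 0x500540) (nat_lit 0x300010000000000000000000300040002000000000000))) (.non (nat_lit 1) (nat_lit 4) (nat_lit 0x400050) (nat_lit 0x100000000000000000000000000000001000100000000))) (.non (nat_lit 2) (nat_lit 4) (nat_lit 0x454045) (nat_lit 0x200000001000200010000000000000001000000030002))) (.non (nat_lit 1) (nat_lit 4) (nat_lit 0x554051) (nat_lit 0x300020001000200010000000000000004000300000002))))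

noncomputable def t758_83 : Tr := (.ex (nat_lit 6) (.split (nat_lit 9) (nat_lit 0) (.split (nat_lit 8) (nat_lit 2) (.split (nat_lit 0xa) (nat_lit 3) (.split (nat_lit 8) (nat_lit 7) (.split (nat_lit 0xa) (nat_lit 9) (.split (nat_lit 8) (nat_lit 1) (.pd (.cons (nat_lit 1) (nat_lit 5) (nat_lit 0) (nat_lit 0x9028704a300) (nat_lit 0x8e6a28b821a2c28b71aef423f00000f423f927bd989650000089540) (.cons (nat_lit 1) (nat_lit 7) (nat_lit 0) (nat_lit 0x9020544a300) (nat_lit 0x98965927bdf423f00000f423fb71ae1f156a2c28b71ae000008e6a2) (.cons (nat_lit 1) (nat_lit 8) (nat_lit 0) (nat_lit 0x9006544a300) (nat_lit 0xa2c289896500000f423fb71aea2c2804737b71aef423f00000927bd) (.cons (nat_lit 2) (nat_lit 5) (nat_lit 0) (nat_lit 0x9018704a000) (nat_lit 0xb71aea2c28a2c28b71aef423f00000f423ff423f000009896536ee3) (.cons (nat_lit 2) (nat_lit 7) (nat_lit 0) (nat_lit 0x9010544a000) (nat_lit 0xb71aea2c28f423f00000f423fb71ae1f156f423f00000b71ae4734e) (.cons (nat_lit 2) (nat_lit 8) (nat_lit 0) (nat_lit 0x9006544a000) (nat_lit 0xb71aea2c2800000f423fb71aea2c2804737f423f00000f423f5b8d4)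 .nil)))))) (.leaf (.cons (nat_lit 0x10014) (nat_lit 0x100000000000000000000000100010000) (.cons (nat_lit 0x140054) (nat_lit 0x20001000000000000000000000003000400030000) (.cons (nat_lit 0x140015) (nat_lit 0x10002000000000000000000000000000300040003) .nil))) .nil)) (.non (nat_lit 2) (nat_lit 4) (nat_lit 0x68005) (nat_lit 0x1000200010000000000000000000000030002))) (.non (nat_lit 1) (nat_lit 4) (nat_lit 0x2400a1) (nat_lit 0x30004000000000000000000000002000100000002))) (.non (nat_lit 1) (nat_lit 4) (nat_lit 0x1a810) (nat_lit 0x400030002000100000000000200000000))) (.non (nat_lit 1) (nat_lit 4) (nat_lit 0x290050) (nat_lit 0x20001000100000000000000000003000200000000))) (.non (nat_lit 1) (nat_lit 4) (nat_lit 0x128050) (nat_lit 0x10000000200010000000000000002000300000000))) (.non (nat_lit 2) (nat_lit 4) (nat_lit 0x290005) (nat_lit 0x10002000100000000000000000000000000020003))) (.split (nat_lit 0xb) (nat_lit 0) (.split (nat_lit 0xb) (nat_lit 1) (.split (nat_lit 0xb) (nat_lit 2) (.split (nat_lit 0xb) (nat_lit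 3) (.split (nat_lit 0xb) (nat_lit 5) (.split (nat_lit 0xb) (nat_lit 7) (.split (nat_lit 0xb) (nat_lit 8) (.split (nat_lit 0xb) (nat_lit 9) (.split (nat_lit 0xb) (nat_lit 0xa) (.split (nat_lit 0xb) (nat_lit 4) (.unj (nat_lit 0x55) (nat_lit 0x1000200020001) (nat_lit 0x405500) (nat_lit 0x100000000000000010002000200020000000000000000)) (.unj (nat_lit 0x10014) (nat_lit 0x100000000000000000000000100010000) (nat_lit 0x401500) (nat_lit 0x100000000000000000001000100010000000000000000))) (.non (nat_lit 1) (nat_lit 4) (nat_lit 0x545440) (nat_lit 0x200020001000000010002000100000001000000000000))) (.non (nat_lit 1) (nat_lit 4) (nat_lit 0x555410) (nat_lit 0x300010002000200030004000200000000000100000000))) (.non (nat_lit 1) (nat_lit 4) (nat_lit 0x415000) (nat_lit 0x100000000000100010001000000000000000000000000))) (.non (nat_lit 1) (nat_lit 4) (nat_lit 0x405000) (nat_lit 0x100000000000000010001000000000000000000000000))) (.non (nat_lit 1) (nat_lit 4) (nat_lit 0x401400) (nat_lit 0x100000000000000000001000100000000000000000000)))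 (.non (nat_lit 1) (nat_lit 4) (nat_lit 0x551050) (nat_lit 0x200020001000100000001000000000003000200000000))) (.star (nat_lit 0xb) (nat_lit 2) (nat_lit 6))) (.star (nat_lit 0xb) (nat_lit 1) (nat_lit 6))) (.non (nat_lit 1) (nat_lit 4) (nat_lit 0x555441) (nat_lit 0x500020003000200040006000300000001000000000004))))

noncomputable def t758_84 : Tr := (.ex (nat_lit 4) (.ex (nat_lit 5) t758_83 (.split (nat_lit 0xb) (nat_lit 0) (.split (nat_lit 0xb) (nat_lit 1) (.split (nat_lit 0xb) (nat_lit 2) (.split (nat_lit 0xb) (nat_lit 3) (.split (nat_lit 0xb) (nat_lit 4) (.split (nat_lit 0xb) (nat_lit 6) (.split (nat_lit 0xb) (nat_lit 7) (.split (nat_lit 0xb) (nat_lit 8) (.split (nat_lit 0xb) (nat_lit 9) (.split (nat_lit 0xb) (nat_lit 0xa) (.unj (nat_lit 0x10014) (nat_lit 0x100000000000000000000000100010000) (nat_lit 0x401500) (nat_lit 0x100000000000000000001000200020000000000000000)) (.non (nat_lit 1) (nat_lit 4) (nat_lit 0x551450) (nat_lit 0x300040002000100000001000200000003000200000000))) (.non (nat_lit 1)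 (nat_lit 4) (nat_lit 0x555450) (nat_lit 0x100010001000100010001000100000001000100000000))) (.non (nat_lit 1) (nat_lit 4) (nat_lit 0x415400) (nat_lit 0x100000000000100010001000100000000000000000000))) (.non (nat_lit 1) (nat_lit 4) (nat_lit 0x405400) (nat_lit 0x100000000000000010001000100000000000000000000))) (.non (nat_lit 1) (nat_lit 4) (nat_lit 0x401400) (nat_lit 0x100000000000000000001000100000000000000000000))) (.non (nat_lit 1) (nat_lit 6) (nat_lit 0x400500) (nat_lit 0x100000000000000000000000100010000000000000000))) (.non (nat_lit 1) (nat_lit 4) (nat_lit 0x550450) (nat_lit 0x200020001000100000000000100000003000200000000))) (.non (nat_lit 1) (nat_lit 4) (nat_lit 0x415410) (nat_lit 0x100000000000100010001000100000000000100000000))) (.non (nat_lit 2) (nat_lit 4) (nat_lit 0x415404) (nat_lit 0x100000000000100010001000100000000000000010000))) (.non (nat_lit 1) (nat_lit 4) (nat_lit 0x555451) (nat_lit 0x100010001000100010001000100000001000100000001)))) (.split (nat_lit 0xb) (nat_lit 0) (.split (nat_lit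 0xb) (nat_lit 1) (.split (nat_lit 0xb) (nat_lit 2) (.split (nat_lit 0xb) (nat_lit 3) (.split (nat_lit 0xb) (nat_lit 5) (.split (nat_lit 0xb) (nat_lit 7) (.split (nat_lit 0xb) (nat_lit 8) (.split (nat_lit 0xb) (nat_lit 9) (.split (nat_lit 0xb) (nat_lit 0xa) (.split (nat_lit 0xb) (nat_lit 6) (.unj (nat_lit 0x10014) (nat_lit 0x100000000000000000000000100010000) (nat_lit 0x401500) (nat_lit 0x100000000000000000001000200020000000000000000)) (.unj (nat_lit 0x10014) (nat_lit 0x100000000000000000000000100010000) (nat_lit 0x401500) (nat_lit 0x100000000000000000001000100010000000000000000))) (.non (nat_lit 1) (nat_lit 4) (nat_lit 0x555051) (nat_lit 0x300060004000300020001000000000005000400000002))) (.non (nat_lit 1) (nat_lit 6) (nat_lit 0x540500) (nat_lit 0x300010002000000000000000300040000000000000000))) (.non (nat_lit 1) (nat_lit 4) (nat_lit 0x515450) (nat_lit 0x200010000000400030002000100000002000300000000))) (.non (nat_lit 1) (nat_lit 4) (nat_lit 0x555450) (nat_lit 0x300020001000500060004000200000003000400000000)))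 (.non (nat_lit 1) (nat_lit 6) (nat_lit 0x400500) (nat_lit 0x100000000000000000000000100010000000000000000))) (.non (nat_lit 1) (nat_lit 4) (nat_lit 0x555450) (nat_lit 0x300040002000400030002000100000006000500000000))) (.star (nat_lit 0xb) (nat_lit 2) (nat_lit 4))) (.star (nat_lit 0xb) (nat_lit 1) (nat_lit 4))) (.non (nat_lit 1) (nat_lit 6) (nat_lit 0x440501) (nat_lit 0x300000001000000000000000300040000000000000002))))

noncomputable def t758_85 : Tr := (.pd (.cons (nat_lit 1) (nat_lit 5) (nat_lit 0) (nat_lit 0x20287042200) (nat_lit 0xf423ff423fa2c28b71aef423f00000f423ff423f1e84300000b71ae) (.cons (nat_lit 2) (nat_lit 5) (nat_lit 0) (nat_lit 0xa0187043000) (nat_lit 0xf423ff423fa2c28b71aef423f00000f423ff423f00000989655572c) .nil)) (.ex (nat_lit 5) (.pd (.cons (nat_lit 1) (nat_lit 7) (nat_lit 0) (nat_lit 0x20205442200) (nat_lit 0xf423ff423ff423f00000f423fb71ae1f156f423f3d08c00000b71ae) (.cons (nat_lit 1) (nat_lit 8) (nat_lit 0) (nat_lit 0x20065442200) (nat_lit 0xf423ff423f00000f423fb71aea2c2804737f423f7a11d00000b71ae)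 (.cons (nat_lit 2) (nat_lit 7) (nat_lit 0) (nat_lit 0xa0105443000) (nat_lit 0xf423ff423ff423f00000f423fb71ae1f156f423f00000b71ae65b97) (.cons (nat_lit 2) (nat_lit 8) (nat_lit 0) (nat_lit 0xa0065443000) (nat_lit 0xf423ff423f00000f423fb71aea2c2804737f423f00000f423f7a11d) .nil)))) (.leaf (.cons (nat_lit 0x10014) (nat_lit 0x100000000000000000000000100010000) (.cons (nat_lit 0x100054) (nat_lit 0x10000000000000000000000000001000200020000) (.cons (nat_lit 0x100015) (nat_lit 0x10000000000000000000000000000000200020001) .nil))) .nil)) (.split (nat_lit 0xb) (nat_lit 0) (.split (nat_lit 0xb) (nat_lit 1) (.split (nat_lit 0xb) (nat_lit 2) (.split (nat_lit 0xb) (nat_lit 3) (.split (nat_lit 0xb) (nat_lit 4) (.split (nat_lit 0xb) (nat_lit 6) (.split (nat_lit 0xb) (nat_lit 7) (.split (nat_lit 0xb) (nat_lit 8) (.split (nat_lit 0xb) (nat_lit 9) (.split (nat_lit 0xb) (nat_lit 0xa) (.unj (nat_lit 0x10014) (nat_lit 0x100000000000000000000000100010000) (nat_lit 0x401500) (nat_lit 0x100000000000000000001000200020000000000000000))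 (.non (nat_lit 1) (nat_lit 4) (nat_lit 0x515410) (nat_lit 0x100010000000100010001000100000000000100000000))) (.non (nat_lit 1) (nat_lit 6) (nat_lit 0x440501) (nat_lit 0x300000002000000000000000400030000000000000001))) (.non (nat_lit 1) (nat_lit 4) (nat_lit 0x415400) (nat_lit 0x100000000000100010001000100000000000000000000))) (.non (nat_lit 1) (nat_lit 4) (nat_lit 0x405400) (nat_lit 0x100000000000000010001000100000000000000000000))) (.non (nat_lit 1) (nat_lit 4) (nat_lit 0x401400) (nat_lit 0x100000000000000000001000100000000000000000000))) (.non (nat_lit 1) (nat_lit 6) (nat_lit 0x400500) (nat_lit 0x100000000000000000000000100010000000000000000))) (.non (nat_lit 1) (nat_lit 4) (nat_lit 0x415450) (nat_lit 0x100000000000100010001000100000001000100000000))) (.non (nat_lit 1) (nat_lit 4) (nat_lit 0x415410) (nat_lit 0x100000000000100010001000100000000000100000000))) (.non (nat_lit 2) (nat_lit 4) (nat_lit 0x415404) (nat_lit 0x100000000000100010001000100000000000000010000))) (.non (nat_lit 1) (nat_lit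 6) (nat_lit 0x440501) (nat_lit 0x300000001000000000000000400030000000000000002)))))

noncomputable def t758_86 : Tr := (.pd (.cons (nat_lit 1) (nat_lit 5) (nat_lit 0) (nat_lit 0x20287042200) (nat_lit 0xf423ff423fa2c28b71aef423f00000f423ff423f1e843000007a11e) (.cons (nat_lit 2) (nat_lit 5) (nat_lit 0) (nat_lit 0xa0187043000) (nat_lit 0xf423ff423fa2c28b71aef423f00000f423ff423f00000989651869c) .nil)) (.ex (nat_lit 5) (.pd (.cons (nat_lit 1) (nat_lit 7) (nat_lit 0) (nat_lit 0x20205442200) (nat_lit 0xf423ff423ff423f00000f423fb71ae1f156f423f3d08c000007a11e) (.cons (nat_lit 1) (nat_lit 8) (nat_lit 0) (nat_lit 0x20065442200) (nat_lit 0xf423ff423f00000f423fb71aea2c2804737f423f7a11d000007a11e) (.cons (nat_lit 2) (nat_lit 7) (nat_lit 0) (nat_lit 0xa0105443000) (nat_lit 0xf423ff423ff423f00000f423fb71ae1f156f423f00000b71ae28b07) (.cons (nat_lit 2) (nat_lit 8) (nat_lit 0) (nat_lit 0xa0065443000) (nat_lit 0xf423ff423f00000f423fb71aea2c2804737f423f00000f423f3d08d) .nil)))) (.leaf (.cons (nat_lit 0x10014) (nat_lit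 0x100000000000000000000000100010000) (.cons (nat_lit 0x100054) (nat_lit 0x10000000000000000000000000001000200020000) (.cons (nat_lit 0x100015) (nat_lit 0x10000000000000000000000000000000200020001) .nil))) .nil)) (.split (nat_lit 0xb) (nat_lit 0) (.split (nat_lit 0xb) (nat_lit 1) (.split (nat_lit 0xb) (nat_lit 2) (.split (nat_lit 0xb) (nat_lit 3) (.split (nat_lit 0xb) (nat_lit 4) (.split (nat_lit 0xb) (nat_lit 6) (.split (nat_lit 0xb) (nat_lit 7) (.split (nat_lit 0xb) (nat_lit 8) (.split (nat_lit 0xb) (nat_lit 9) (.split (nat_lit 0xb) (nat_lit 0xa) (.unj (nat_lit 0x10014) (nat_lit 0x100000000000000000000000100010000) (nat_lit 0x401500) (nat_lit 0x100000000000000000001000200020000000000000000)) (.non (nat_lit 1) (nat_lit 4) (nat_lit 0x515410) (nat_lit 0x100010000000100010001000100000000000100000000))) (.non (nat_lit 1) (nat_lit 4) (nat_lit 0xaaa8a1) (nat_lit 0x200010002000200020002000200000001000200000002))) (.non (nat_lit 1) (nat_lit 4) (nat_lit 0x415400) (nat_lit 0x100000000000100010001000100000000000000000000)))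 (.non (nat_lit 1) (nat_lit 4) (nat_lit 0x405400) (nat_lit 0x100000000000000010001000100000000000000000000))) (.non (nat_lit 1) (nat_lit 4) (nat_lit 0x401400) (nat_lit 0x100000000000000000001000100000000000000000000))) (.non (nat_lit 1) (nat_lit 6) (nat_lit 0x400500) (nat_lit 0x100000000000000000000000100010000000000000000))) (.non (nat_lit 1) (nat_lit 4) (nat_lit 0x415450) (nat_lit 0x100000000000100010001000100000001000100000000))) (.non (nat_lit 1) (nat_lit 4) (nat_lit 0x415410) (nat_lit 0x100000000000100010001000100000000000100000000))) (.non (nat_lit 2) (nat_lit 4) (nat_lit 0x415404) (nat_lit 0x100000000000100010001000100000000000000010000))) (.non (nat_lit 1) (nat_lit 4) (nat_lit 0x595451) (nat_lit 0x200010001000200020002000200000001000200000002)))))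

noncomputable def t758_87 : Tr := (.st (nat_lit 6) (nat_lit 1) (nat_lit 4) (nat_lit 0x115450) (nat_lit 0x10000000200020002000100000001000200000000) (nat_lit 1) (nat_lit 1) (.st (nat_lit 7) (nat_lit 1) (nat_lit 4) (nat_lit 0x115050) (nat_lit 0x10000000200020001000000000001000200000000) (nat_lit 1) (nat_lit 1) (.ex (nat_lit 4) (.split (nat_lit 8) (nat_lit 2) (.split (nat_lit 0xa) (nat_lit 2) (.split (nat_lit 8) (nat_lit 7) (.split (nat_lit 9) (nat_lit 0) (.split (nat_lit 8) (nat_lit 1) t758_85 (.non (nat_lit 2) (nat_lit 4) (nat_lit 0x68005) (nat_lit 0x1000200010000000000000000000000030002))) (.split (nat_lit 9) (nat_lit 0) (.split (nat_lit 8) (nat_lit 1) t758_86 (.non (nat_lit 2) (nat_lit 4) (nat_lit 0xa0005) (nat_lit 0x1000100000000000000000000000000020002))) (.non (nat_lit 2) (nat_lit 4) (nat_lit 0x54005) (nat_lit 0x3000200010000000000000000000000030004)))) (.non (nat_lit 1) (nat_lit 4) (nat_lit 0x11a010) (nat_lit 0x10000000300020001000000000000000200000000))) (.non (nat_lit 1) (nat_lit 4) (nat_lit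 0x210050) (nat_lit 0x10000000100000000000000000001000200000000))) (.non (nat_lit 1) (nat_lit 4) (nat_lit 0x12a010) (nat_lit 0x20000000300020001000000000000000400000000))) (.split (nat_lit 0xb) (nat_lit 0) (.split (nat_lit 0xb) (nat_lit 1) (.split (nat_lit 0xb) (nat_lit 2) (.split (nat_lit 0xb) (nat_lit 3) (.split (nat_lit 0xb) (nat_lit 5) (.split (nat_lit 0xb) (nat_lit 6) (.split (nat_lit 0xb) (nat_lit 7) (.split (nat_lit 0xb) (nat_lit 8) (.split (nat_lit 0xb) (nat_lit 9) (.split (nat_lit 0xb) (nat_lit 0xa) (.unj (nat_lit 0x10014) (nat_lit 0x100000000000000000000000100010000) (nat_lit 0x401500) (nat_lit 0x100000000000000000001000200020000000000000000)) (.non (nat_lit 1) (nat_lit 6) (nat_lit 0x500510) (nat_lit 0x300020000000000000000000300040000000100000000))) (.non (nat_lit 1) (nat_lit 6) (nat_lit 0x440501) (nat_lit 0x300000002000000000000000300040000000000000001))) (.non (nat_lit 1) (nat_lit 4) (nat_lit 0x514050) (nat_lit 0x100010000000200010000000000000001000200000000))) (.non (nat_lit 1) (nat_lit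 4) (nat_lit 0x515050) (nat_lit 0x100010000000200020001000000000001000200000000))) (.non (nat_lit 1) (nat_lit 4) (nat_lit 0x515450) (nat_lit 0x100010000000200020002000100000001000200000000))) (.non (nat_lit 1) (nat_lit 6) (nat_lit 0x400500) (nat_lit 0x100000000000000000000000100010000000000000000))) (.non (nat_lit 1) (nat_lit 6) (nat_lit 0x400550) (nat_lit 0x300000000000000000000000300040002000100000000))) (.star (nat_lit 0xb) (nat_lit 2) (nat_lit 4))) (.star (nat_lit 0xb) (nat_lit 1) (nat_lit 4))) (.non (nat_lit 1) (nat_lit 6) (nat_lit 0x440501) (nat_lit 0x300000001000000000000000300040000000000000002))))))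

noncomputable def t758_88 : Tr := (.ex (nat_lit 2) (.ex (nat_lit 3) t758_70 (.split (nat_lit 0xa) (nat_lit 0) (.split (nat_lit 0xa) (nat_lit 1) (.split (nat_lit 0xa) (nat_lit 2) (.split (nat_lit 0xa) (nat_lit 4) (.split (nat_lit 0xa) (nat_lit 5) (.split (nat_lit 0xa) (nat_lit 6) (.split (nat_lit 0xa) (nat_lit 7) (.split (nat_lit 0xa) (nat_lit 8) (.split (nat_lit 0xa) (nat_lit 9) t758_82 (.st (nat_lit 7) (nat_lit 1) (nat_lit 4) (nat_lit 0x155450) (nat_lit 0x20001000500060004000200000003000400000000) (nat_lit 1) (nat_lit 3) t758_84)) (.non (nat_lit 1) (nat_lit 4) (nat_lit 0x110050) (nat_lit 0x10000000100000000000000000001000100000000))) (.non (nat_lit 1) (nat_lit 4) (nat_lit 0x114050) (nat_lit 0x10000000100010000000000000001000100000000))) (.non (nat_lit 1) (nat_lit 4) (nat_lit 0x115050) (nat_lit 0x10000000100010001000000000001000100000000))) (.non (nat_lit 1) (nat_lit 4) (nat_lit 0x115450) (nat_lit 0x10000000100010001000100000001000100000000))) (.non (nat_lit 1) (nat_lit 6) (nat_lit 0x100550)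 (nat_lit 0x30000000000000000000300040002000100000000))) (.non (nat_lit 1) (nat_lit 4) (nat_lit 0x100050) (nat_lit 0x10000000000000000000000000001000100000000))) (.non (nat_lit 2) (nat_lit 4) (nat_lit 0x154045) (nat_lit 0x20001000200010000000000000001000000030002))) (.non (nat_lit 2) (nat_lit 4) (nat_lit 0x155445) (nat_lit 0x40003000400030002000100000002000000050006)))) (.split (nat_lit 0xa) (nat_lit 0) (.split (nat_lit 0xa) (nat_lit 3) (.split (nat_lit 0xa) (nat_lit 4) (.split (nat_lit 0xa) (nat_lit 5) (.split (nat_lit 0xa) (nat_lit 6) (.split (nat_lit 0xa) (nat_lit 7) (.split (nat_lit 0xa) (nat_lit 8) (.split (nat_lit 0xa) (nat_lit 9) (.split (nat_lit 0xa) (nat_lit 1) t758_87 (.split (nat_lit 0xa) (nat_lit 1) (.split (nat_lit 0xa) (nat_lit 2) (.split (nat_lit 9) (nat_lit 0) (.split (nat_lit 8) (nat_lit 1) (.split (nat_lit 8) (nat_lit 2) (.sup (nat_lit 0x4000d00160020001a0000000000000000) (nat_lit 0x30001000000000000000000000001000300030002)) (.non (nat_lit 1) (nat_lit 4) (nat_lit 0x12a010) (nat_lit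 0x20000000300020001000000000000000400000000))) (.non (nat_lit 2) (nat_lit 4) (nat_lit 0x12a004) (nat_lit 0x20000000300020001000000000000000000040000))) (.non (nat_lit 2) (nat_lit 4) (nat_lit 0x190005) (nat_lit 0x10001000100000000000000000000000000020002))) (.non (nat_lit 1) (nat_lit 4) (nat_lit 0x210050) (nat_lit 0x10000000100000000000000000001000200000000))) (.non (nat_lit 2) (nat_lit 4) (nat_lit 0x210005) (nat_lit 0x10000000100000000000000000000000000020001)))) (.non (nat_lit 1) (nat_lit 4) (nat_lit 0x155051) (nat_lit 0x30002000300020001000000000002000400000001))) (.non (nat_lit 1) (nat_lit 4) (nat_lit 0x110010) (nat_lit 0x10000000100000000000000000000000100000000))) (.non (nat_lit 1) (nat_lit 4) (nat_lit 0x114010) (nat_lit 0x10000000100010000000000000000000100000000))) (.star (nat_lit 0xa) (nat_lit 2) (nat_lit 6))) (.non (nat_lit 1) (nat_lit 4) (nat_lit 0x115410) (nat_lit 0x10000000100010001000100000000000100000000))) (.star (nat_lit 0xa) (nat_lit 2) (nat_lit 4))) (.non (nat_lit 1) (nat_lit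 4) (nat_lit 0x100050) (nat_lit 0x10000000000000000000000000001000100000000))) (.non (nat_lit 1) (nat_lit 4) (nat_lit 0x155051) (nat_lit 0x30001000300020001000000000002000400000002))))

noncomputable def t758_89 : Tr := (.ex (nat_lit 4) (.split (nat_lit 8) (nat_lit 2) (.split (nat_lit 8) (nat_lit 7) (.split (nat_lit 9) (nat_lit 0) (.split (nat_lit 8) (nat_lit 1) (.split (nat_lit 0xa) (nat_lit 1) (.pd (.cons (nat_lit 1) (nat_lit 5) (nat_lit 0) (nat_lit 0xa0287042200) (nat_lit 0xf423ff423fa2c28b71aef423f00000f423ff423f5b8d400000b71ae) (.cons (nat_lit 1) (nat_lit 7) (nat_lit 0) (nat_lit 0xa0205442200) (nat_lit 0xf423ff423ff423f00000f423fb71ae1f156f423f7a11d00000b71ae) (.cons (nat_lit 1) (nat_lit 8) (nat_lit 0) (nat_lit 0xa0065442200) (nat_lit 0xf423ff423f00000f423fb71aea2c2804737f423fb71ae00000b71ae) (.cons (nat_lit 2) (nat_lit 5) (nat_lit 0) (nat_lit 0x10187043000) (nat_lit 0xf423ff423fa2c28b71aef423f00000f423ff423f000005b8d41457c) (.cons (nat_lit 2) (nat_lit 7) (nat_lit 0) (nat_lit 0x10105443000)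 (nat_lit 0xf423ff423ff423f00000f423fb71ae1f156f423f000007a11d3d08a) (.cons (nat_lit 2) (nat_lit 8) (nat_lit 0) (nat_lit 0x10065443000) (nat_lit 0xf423ff423f00000f423fb71aea2c2804737f423f00000b71ae65b97) .nil)))))) (.leaf (.cons (nat_lit 0x10014) (nat_lit 0x100000000000000000000000100010000) (.cons (nat_lit 0x100054) (nat_lit 0x10000000000000000000000000001000200020000) (.cons (nat_lit 0x100015) (nat_lit 0x10000000000000000000000000000000200020001) .nil))) .nil)) (.non (nat_lit 2) (nat_lit 4) (nat_lit 0x210005) (nat_lit 0x10000000100000000000000000000000000020001))) (.non (nat_lit 2) (nat_lit 4) (nat_lit 0x12a004) (nat_lit 0x20000000300020001000000000000000000040000))) (.non (nat_lit 2) (nat_lit 4) (nat_lit 0x190005) (nat_lit 0x10001000100000000000000000000000000020002))) (.non (nat_lit 1) (nat_lit 4) (nat_lit 0x1a810) (nat_lit 0x400030002000100000000000200000000))) (.non (nat_lit 1) (nat_lit 4) (nat_lit 0x2a050) (nat_lit 0x300020001000000000002000400000000))) (.split (nat_lit 0xb) (nat_lit 0)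 (.split (nat_lit 0xb) (nat_lit 1) (.split (nat_lit 0xb) (nat_lit 2) (.split (nat_lit 0xb) (nat_lit 3) (.split (nat_lit 0xb) (nat_lit 5) (.split (nat_lit 0xb) (nat_lit 6) (.split (nat_lit 0xb) (nat_lit 7) (.split (nat_lit 0xb) (nat_lit 8) (.split (nat_lit 0xb) (nat_lit 9) (.split (nat_lit 0xb) (nat_lit 0xa) (.unj (nat_lit 0x10014) (nat_lit 0x100000000000000000000000100010000) (nat_lit 0x401500) (nat_lit 0x100000000000000000001000200020000000000000000)) (.non (nat_lit 2) (nat_lit 4) (nat_lit 0x554005) (nat_lit 0x100020001000200010000000000000000000000030002))) (.non (nat_lit 1) (nat_lit 6) (nat_lit 0x440501) (nat_lit 0x300000002000000000000000300040000000000000001))) (.non (nat_lit 1) (nat_lit 6) (nat_lit 0x414500) (nat_lit 0x300000000000200010000000300040000000000000000))) (.non (nat_lit 1) (nat_lit 6) (nat_lit 0x414500) (nat_lit 0x300000000000100020000000300040000000000000000))) (.non (nat_lit 2) (nat_lit 4) (nat_lit 0x515405) (nat_lit 0x100010000000200020002000100000000000000020001))) (.non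 (nat_lit 1) (nat_lit 6) (nat_lit 0x400500) (nat_lit 0x100000000000000000000000100010000000000000000))) (.non (nat_lit 1) (nat_lit 6) (nat_lit 0x400550) (nat_lit 0x300000000000000000000000300040002000100000000))) (.star (nat_lit 0xb) (nat_lit 2) (nat_lit 4))) (.star (nat_lit 0xb) (nat_lit 1) (nat_lit 4))) (.non (nat_lit 1) (nat_lit 6) (nat_lit 0x440501) (nat_lit 0x300000001000000000000000300040000000000000002))))

noncomputable def t758_90 : Tr := (.pd (.cons (nat_lit 1) (nat_lit 5) (nat_lit 0) (nat_lit 0x287042200) (nat_lit 0xf423ff423fa2c28b71aef423f00000f423ff423f5b8d4000007a11d) (.cons (nat_lit 2) (nat_lit 5) (nat_lit 0) (nat_lit 0x187043000) (nat_lit 0xf423ff423fa2c28b71aef423f00000f423ff423f00000989651869b) .nil)) (.ex (nat_lit 5) (.pd (.cons (nat_lit 0) (nat_lit 8) (nat_lit 0) (nat_lit 0xa9065442110) (nat_lit 0xf423ff423f00000f423fb71aea2c2804737f423fb71ae1f15600000) (.cons (nat_lit 1) (nat_lit 7) (nat_lit 0) (nat_lit 0x205442200) (nat_lit 0xf423ff423ff423f00000f423fb71ae1f156f423f7a11d000007a11d)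 (.cons (nat_lit 1) (nat_lit 8) (nat_lit 0) (nat_lit 0x65442200) (nat_lit 0xf423ff423f00000f423fb71aea2c2804737f423fb71ae000007a11d) (.cons (nat_lit 2) (nat_lit 7) (nat_lit 0) (nat_lit 0x105443000) (nat_lit 0xf423ff423ff423f00000f423fb71ae1f156f423f00000b71ae28b06) (.cons (nat_lit 2) (nat_lit 8) (nat_lit 0) (nat_lit 0x65443000) (nat_lit 0xf423ff423f00000f423fb71aea2c2804737f423f00000f423f3d08c) .nil))))) (.leaf (.cons (nat_lit 0x10014) (nat_lit 0x100000000000000000000000100010000) (.cons (nat_lit 0x140015) (nat_lit 0x10001000000000000000000000000000200020002) .nil)) .nil)) (.split (nat_lit 0xb) (nat_lit 0) (.split (nat_lit 0xb) (nat_lit 1) (.split (nat_lit 0xb) (nat_lit 2) (.split (nat_lit 0xb) (nat_lit 3) (.split (nat_lit 0xb) (nat_lit 4) (.split (nat_lit 0xb) (nat_lit 6) (.split (nat_lit 0xb) (nat_lit 7) (.split (nat_lit 0xb) (nat_lit 8) (.split (nat_lit 0xb) (nat_lit 9) (.split (nat_lit 0xb) (nat_lit 0xa) (.unj (nat_lit 0x10014) (nat_lit 0x100000000000000000000000100010000) (nat_lit 0x401500)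 (nat_lit 0x100000000000000000001000200020000000000000000)) (.non (nat_lit 1) (nat_lit 6) (nat_lit 0x500501) (nat_lit 0x300020000000000000000000400030000000000000001))) (.non (nat_lit 1) (nat_lit 6) (nat_lit 0x440501) (nat_lit 0x300000002000000000000000400030000000000000001))) (.non (nat_lit 1) (nat_lit 4) (nat_lit 0x415400) (nat_lit 0x100000000000100010001000100000000000000000000))) (.non (nat_lit 1) (nat_lit 4) (nat_lit 0x405400) (nat_lit 0x100000000000000010001000100000000000000000000))) (.non (nat_lit 1) (nat_lit 4) (nat_lit 0x401400) (nat_lit 0x100000000000000000001000100000000000000000000))) (.non (nat_lit 1) (nat_lit 6) (nat_lit 0x400500) (nat_lit 0x100000000000000000000000100010000000000000000))) (.non (nat_lit 1) (nat_lit 4) (nat_lit 0x415450) (nat_lit 0x100000000000100010001000100000001000100000000))) (.non (nat_lit 1) (nat_lit 4) (nat_lit 0x415410) (nat_lit 0x100000000000100010001000100000000000100000000))) (.non (nat_lit 2) (nat_lit 4) (nat_lit 0x415404) (nat_lit 0x100000000000100010001000100000000000000010000)))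 (.non (nat_lit 1) (nat_lit 6) (nat_lit 0x500501) (nat_lit 0x300010000000000000000000400030000000000000002)))))

noncomputable def t758_91 : Tr := (.pd (.cons (nat_lit 1) (nat_lit 7) (nat_lit 0) (nat_lit 0x300205442200) (nat_lit 0xf423ff423ff423ff423f00000f423fb71ae1f156b71ae65b97000007a11d) (.cons (nat_lit 1) (nat_lit 8) (nat_lit 0) (nat_lit 0x300065442200) (nat_lit 0xf423ff423ff423f00000f423fb71aea2c2804737b71aea2c28000007a11d) (.cons (nat_lit 2) (nat_lit 7) (nat_lit 0) (nat_lit 0x300105443000) (nat_lit 0xf423ff423ff423ff423f00000f423fb71ae1f156b71ae00000b71ae28b06) (.cons (nat_lit 2) (nat_lit 8) (nat_lit 0) (nat_lit 0x300065443000) (nat_lit 0xf423ff423ff423f00000f423fb71aea2c2804737b71ae00000f423f3d08c) .nil)))) (.ex (nat_lit 0xb) (.pd (.cons (nat_lit 0) (nat_lit 8) (nat_lit 0) (nat_lit 0x3a9065442110) (nat_lit 0xf423ff423ff423f00000f423fb71aea2c2804737b71aea2c280473700000) .nil) (.leaf (.cons (nat_lit 0x10014) (nat_lit 0x100000000000000000000000100010000) (.cons (nat_lit 0x140015) (nat_lit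 0x10001000000000000000000000000000200020002) .nil)) .nil)) (.split (nat_lit 0xc) (nat_lit 0) (.split (nat_lit 0xc) (nat_lit 1) (.split (nat_lit 0xc) (nat_lit 2) (.split (nat_lit 0xc) (nat_lit 3) (.split (nat_lit 0xc) (nat_lit 4) (.split (nat_lit 0xc) (nat_lit 5) (.split (nat_lit 0xc) (nat_lit 6) (.split (nat_lit 0xc) (nat_lit 7) (.split (nat_lit 0xc) (nat_lit 8) (.split (nat_lit 0xc) (nat_lit 9) (.split (nat_lit 0xc) (nat_lit 0xa) (.leaf (.cons (nat_lit 0x10014) (nat_lit 0x100000000000000000000000100010000) (.cons (nat_lit 0x1400054) (nat_lit 0x1000200000000000000000000000000000003000400030000) (.cons (nat_lit 0x140015) (nat_lit 0x10001000000000000000000000000000200020002) .nil))) .nil) (.non (nat_lit 2) (nat_lit 4) (nat_lit 0x1554005) (nat_lit 0x2000100030002000200010000000000000000000000030004))) (.non (nat_lit 2) (nat_lit 4) (nat_lit 0x1554005) (nat_lit 0x2000100020003000200010000000000000000000000030004))) (.non (nat_lit 1) (nat_lit 4) (nat_lit 0x1410050) (nat_lit 0x1000100000000000100000000000000000001000100000000)))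 (.non (nat_lit 1) (nat_lit 4) (nat_lit 0x1415410) (nat_lit 0x2000100000000000200030002000100000000000100000000))) (.non (nat_lit 1) (nat_lit 4) (nat_lit 0x1415050) (nat_lit 0x1000100000000000100010001000000000001000100000000))) (.non (nat_lit 1) (nat_lit 4) (nat_lit 0x1415450) (nat_lit 0x1000100000000000100010001000100000001000100000000))) (.non (nat_lit 1) (nat_lit 6) (nat_lit 0x1400540) (nat_lit 0x3000200000000000000000000000300040001000000000000))) (.non (nat_lit 1) (nat_lit 4) (nat_lit 0x1400040) (nat_lit 0x1000100000000000000000000000000000001000000000000))) (.non (nat_lit 1) (nat_lit 4) (nat_lit 0x1400050) (nat_lit 0x1000100000000000000000000000000000001000100000000))) (.non (nat_lit 2) (nat_lit 4) (nat_lit 0x1150005) (nat_lit 0x1000000010001000100000000000000000000000000020002))) (.non (nat_lit 2) (nat_lit 4) (nat_lit 0x1140005) (nat_lit 0x1000000010001000000000000000000000000000000010002)))))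

noncomputable def t758_92 : Tr := (.ex (nat_lit 5) (.pd (.cons (nat_lit 1) (nat_lit 7) (nat_lit 0) (nat_lit 0x300205442200) (nat_lit 0xf423ff423ff423ff423f00000f423fb71ae1f1567a11e3d08b000007a11d) (.cons (nat_lit 1) (nat_lit 8) (nat_lit 0) (nat_lit 0x300065442200) (nat_lit 0xf423ff423ff423f00000f423fb71aea2c28047377a11e7a11c000007a11d) (.cons (nat_lit 2) (nat_lit 7) (nat_lit 0) (nat_lit 0x300105443000) (nat_lit 0xf423ff423ff423ff423f00000f423fb71ae1f1567a11e00000b71ae28b06) (.cons (nat_lit 2) (nat_lit 8) (nat_lit 0) (nat_lit 0x300065443000) (nat_lit 0xf423ff423ff423f00000f423fb71aea2c28047377a11e00000f423f3d08c) .nil)))) (.leaf (.cons (nat_lit 0x10014) (nat_lit 0x100000000000000000000000100010000) (.cons (nat_lit 0x400054) (nat_lit 0x100000000000000000000000000000001000100010000) (.cons (nat_lit 0x140015) (nat_lit 0x10001000000000000000000000000000200020002) .nil))) .nil)) (.split (nat_lit 0xc) (nat_lit 0) (.split (nat_lit 0xc) (nat_lit 1) (.split (nat_lit 0xc) (nat_lit 2) (.split (nat_lit 0xc)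 (nat_lit 3) (.split (nat_lit 0xc) (nat_lit 4) (.split (nat_lit 0xc) (nat_lit 6) (.split (nat_lit 0xc) (nat_lit 7) (.split (nat_lit 0xc) (nat_lit 8) (.split (nat_lit 0xc) (nat_lit 9) (.split (nat_lit 0xc) (nat_lit 0xa) (.split (nat_lit 0xc) (nat_lit 0xb) (.unj (nat_lit 0x10014) (nat_lit 0x100000000000000000000000100010000) (nat_lit 0x1001500) (nat_lit 0x1000000000000000000000001000200020000000000000000)) (.non (nat_lit 1) (nat_lit 4) (nat_lit 0x2810050) (nat_lit 0x1000200000000000100000000000000000003000200000000))) (.non (nat_lit 1) (nat_lit 6) (nat_lit 0x1100501) (nat_lit 0x3000000020000000000000000000400030000000000000001))) (.non (nat_lit 1) (nat_lit 6) (nat_lit 0x1040501) (nat_lit 0x3000000000002000000000000000400030000000000000001))) (.non (nat_lit 1) (nat_lit 4) (nat_lit 0x1015400) (nat_lit 0x1000000000000000100010001000100000000000000000000))) (.non (nat_lit 1) (nat_lit 4) (nat_lit 0x1005400) (nat_lit 0x1000000000000000000010001000100000000000000000000))) (.non (nat_lit 1) (nat_lit 4)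 (nat_lit 0x1001400) (nat_lit 0x1000000000000000000000001000100000000000000000000))) (.non (nat_lit 1) (nat_lit 6) (nat_lit 0x1000500) (nat_lit 0x1000000000000000000000000000100010000000000000000))) (.non (nat_lit 1) (nat_lit 4) (nat_lit 0x1800050) (nat_lit 0x1000100000000000000000000000000000002000100000000))) (.non (nat_lit 1) (nat_lit 4) (nat_lit 0x1015410) (nat_lit 0x1000000000000000100010001000100000000000100000000))) (.non (nat_lit 2) (nat_lit 4) (nat_lit 0x1015404) (nat_lit 0x1000000000000000100010001000100000000000000010000))) (.non (nat_lit 1) (nat_lit 4) (nat_lit 0x1955451) (nat_lit 0x2000100010001000200020002000200000002000200000002))))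

noncomputable def t758_93 : Tr := (.split (nat_lit 0xb) (nat_lit 3) (.split (nat_lit 8) (nat_lit 7) (.split (nat_lit 8) (nat_lit 1) (.pd (.cons (nat_lit 1) (nat_lit 5) (nat_lit 0) (nat_lit 0x300287042200) (nat_lit 0xf423ff423ff423fa2c28b71aef423f00000f423fb71ae4734e000007a11d) (.cons (nat_lit 2) (nat_lit 5) (nat_lit 0) (nat_lit 0x300187043000) (nat_lit 0xf423ff423ff423fa2c28b71aef423f00000f423fb71ae00000989651869b) .nil)) (.ex (nat_lit 5) t758_91 (.split (nat_lit 0xc) (nat_lit 0) (.split (nat_lit 0xc) (nat_lit 1) (.split (nat_lit 0xc) (nat_lit 2) (.split (nat_lit 0xc) (nat_lit 3) (.split (nat_lit 0xc) (nat_lit 4) (.split (nat_lit 0xc) (nat_lit 6) (.split (nat_lit 0xc) (nat_lit 7) (.split (nat_lit 0xc) (nat_lit 8) (.split (nat_lit 0xc) (nat_lit 9) (.split (nat_lit 0xc) (nat_lit 0xa) (.split (nat_lit 0xc) (nat_lit 0xb) (.unj (nat_lit 0x10014) (nat_lit 0x100000000000000000000000100010000) (nat_lit 0x1001500) (nat_lit 0x1000000000000000000000001000200020000000000000000)) (.non (nat_lit 1) (nat_lit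 4) (nat_lit 0x1415450) (nat_lit 0x1000100000000000100010001000100000001000100000000))) (.non (nat_lit 1) (nat_lit 6) (nat_lit 0x1100501) (nat_lit 0x3000000020000000000000000000400030000000000000001))) (.non (nat_lit 1) (nat_lit 6) (nat_lit 0x1040501) (nat_lit 0x3000000000002000000000000000400030000000000000001))) (.non (nat_lit 1) (nat_lit 4) (nat_lit 0x1015400) (nat_lit 0x1000000000000000100010001000100000000000000000000))) (.non (nat_lit 1) (nat_lit 4) (nat_lit 0x1005400) (nat_lit 0x1000000000000000000010001000100000000000000000000))) (.non (nat_lit 1) (nat_lit 4) (nat_lit 0x1001400) (nat_lit 0x1000000000000000000000001000100000000000000000000))) (.non (nat_lit 1) (nat_lit 6) (nat_lit 0x1000500) (nat_lit 0x1000000000000000000000000000100010000000000000000))) (.non (nat_lit 1) (nat_lit 4) (nat_lit 0x1015450) (nat_lit 0x1000000000000000100010001000100000001000100000000))) (.non (nat_lit 1) (nat_lit 4) (nat_lit 0x1015410) (nat_lit 0x1000000000000000100010001000100000000000100000000))) (.non (nat_lit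 2) (nat_lit 4) (nat_lit 0x1015404) (nat_lit 0x1000000000000000100010001000100000000000000010000))) (.non (nat_lit 1) (nat_lit 6) (nat_lit 0x1100501) (nat_lit 0x3000000010000000000000000000400030000000000000002))))) (.non (nat_lit 2) (nat_lit 4) (nat_lit 0x160005) (nat_lit 0x10001000100000000000000000000000000020002))) (.non (nat_lit 1) (nat_lit 4) (nat_lit 0x1a810) (nat_lit 0x400030002000100000000000200000000))) (.split (nat_lit 0xb) (nat_lit 3) (.split (nat_lit 8) (nat_lit 7) (.split (nat_lit 8) (nat_lit 1) (.pd (.cons (nat_lit 1) (nat_lit 5) (nat_lit 0) (nat_lit 0x300287042200) (nat_lit 0xf423ff423ff423fa2c28b71aef423f00000f423f7a11e1e842000007a11d) (.cons (nat_lit 2) (nat_lit 5) (nat_lit 0) (nat_lit 0x300187043000) (nat_lit 0xf423ff423ff423fa2c28b71aef423f00000f423f7a11e00000989651869b) .nil)) t758_92) (.non (nat_lit 2) (nat_lit 4) (nat_lit 0x160005) (nat_lit 0x10001000100000000000000000000000000020002))) (.non (nat_lit 1) (nat_lit 4) (nat_lit 0x1a810) (nat_lit 0x400030002000100000000000200000000)))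 (.non (nat_lit 1) (nat_lit 4) (nat_lit 0x414050) (nat_lit 0x300000000000200010000000000000004000300000000))))

noncomputable def t758_94 : Tr := (.ex (nat_lit 5) (.pd (.cons (nat_lit 1) (nat_lit 7) (nat_lit 0) (nat_lit 0x3300205442200) (nat_lit 0xf423ff423ff423ff423ff423f00000f423fb71ae1f1567a11d3d08a000007a11d) (.cons (nat_lit 1) (nat_lit 8) (nat_lit 0) (nat_lit 0x3300065442200) (nat_lit 0xf423ff423ff423ff423f00000f423fb71aea2c28047377a11d7a11b000007a11d) (.cons (nat_lit 2) (nat_lit 7) (nat_lit 0) (nat_lit 0x3300105443000) (nat_lit 0xf423ff423ff423ff423ff423f00000f423fb71ae1f1567a11d00000b71ae28b06) (.cons (nat_lit 2) (nat_lit 8) (nat_lit 0) (nat_lit 0x3300065443000) (nat_lit 0xf423ff423ff423ff423f00000f423fb71aea2c28047377a11d00000f423f3d08c) .nil)))) (.leaf (.cons (nat_lit 0x10014) (nat_lit 0x100000000000000000000000100010000) (.cons (nat_lit 0x1400054) (nat_lit 0x1000100000000000000000000000000000002000200020000) (.cons (nat_lit 0x140015) (nat_lit 0x10001000000000000000000000000000200020002)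 .nil))) .nil)) (.split (nat_lit 0xd) (nat_lit 0) (.split (nat_lit 0xd) (nat_lit 1) (.split (nat_lit 0xd) (nat_lit 2) (.split (nat_lit 0xd) (nat_lit 3) (.split (nat_lit 0xd) (nat_lit 4) (.split (nat_lit 0xd) (nat_lit 6) (.split (nat_lit 0xd) (nat_lit 7) (.split (nat_lit 0xd) (nat_lit 8) (.split (nat_lit 0xd) (nat_lit 9) (.split (nat_lit 0xd) (nat_lit 0xa) (.split (nat_lit 0xd) (nat_lit 0xb) (.split (nat_lit 0xd) (nat_lit 0xc) (.unj (nat_lit 0x10014) (nat_lit 0x100000000000000000000000100010000) (nat_lit 0x4001500) (nat_lit 0x10000000000000000000000000001000200020000000000000000)) (.non (nat_lit 1) (nat_lit 4) (nat_lit 0x5414450) (nat_lit 0x20003000200000000000200010000000100000004000300000000))) (.non (nat_lit 1) (nat_lit 4) (nat_lit 0x5414450) (nat_lit 0x20002000300000000000200010000000100000004000300000000))) (.non (nat_lit 1) (nat_lit 6) (nat_lit 0x4100501) (nat_lit 0x30000000000020000000000000000000400030000000000000001))) (.non (nat_lit 1) (nat_lit 6) (nat_lit 0x4040501) (nat_lit 0x30000000000000002000000000000000400030000000000000001)))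 (.non (nat_lit 1) (nat_lit 4) (nat_lit 0x4015400) (nat_lit 0x10000000000000000000100010001000100000000000000000000))) (.non (nat_lit 1) (nat_lit 4) (nat_lit 0x4005400) (nat_lit 0x10000000000000000000000010001000100000000000000000000))) (.non (nat_lit 1) (nat_lit 4) (nat_lit 0x4001400) (nat_lit 0x10000000000000000000000000001000100000000000000000000))) (.non (nat_lit 1) (nat_lit 6) (nat_lit 0x4000500) (nat_lit 0x10000000000000000000000000000000100010000000000000000))) (.non (nat_lit 1) (nat_lit 4) (nat_lit 0x5400050) (nat_lit 0x10001000100000000000000000000000000000002000100000000))) (.non (nat_lit 1) (nat_lit 4) (nat_lit 0x4015410) (nat_lit 0x10000000000000000000100010001000100000000000100000000))) (.non (nat_lit 2) (nat_lit 4) (nat_lit 0x4015404) (nat_lit 0x10000000000000000000100010001000100000000000000010000))) (.non (nat_lit 1) (nat_lit 4) (nat_lit 0x5555451) (nat_lit 0x20001000100010001000200020002000200000002000200000002))))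

noncomputable def t758_95 : Tr := (.ex (nat_lit 4) (.split (nat_lit 9) (nat_lit 0) (.split (nat_lit 0xa) (nat_lit 0) (.split (nat_lit 8) (nat_lit 2) (.split (nat_lit 0xb) (nat_lit 3) (.split (nat_lit 0xc) (nat_lit 3) (.split (nat_lit 8) (nat_lit 7) (.split (nat_lit 8) (nat_lit 1) (.pd (.cons (nat_lit 1) (nat_lit 5) (nat_lit 0) (nat_lit 0x3300287042200) (nat_lit 0xf423ff423ff423ff423fa2c28b71aef423f00000f423f7a11d1e841000007a11d) (.cons (nat_lit 2) (nat_lit 5) (nat_lit 0) (nat_lit 0x3300187043000) (nat_lit 0xf423ff423ff423ff423fa2c28b71aef423f00000f423f7a11d00000989651869b) .nil)) t758_94) (.non (nat_lit 2) (nat_lit 4) (nat_lit 0x160005) (nat_lit 0x10001000100000000000000000000000000020002))) (.non (nat_lit 1) (nat_lit 4) (nat_lit 0x1a810) (nat_lit 0x400030002000100000000000200000000))) (.non (nat_lit 1) (nat_lit 4) (nat_lit 0x2400050) (nat_lit 0x1000100000000000000000000000000000002000100000000))) (.non (nat_lit 1) (nat_lit 4) (nat_lit 0x1800050) (nat_lit 0x1000100000000000000000000000000000002000100000000)))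 (.non (nat_lit 1) (nat_lit 4) (nat_lit 0x1420050) (nat_lit 0x1000100000000000100000000000000000002000200000000))) (.non (nat_lit 2) (nat_lit 4) (nat_lit 0x240005) (nat_lit 0x10001000000000000000000000000000000010002))) (.non (nat_lit 2) (nat_lit 4) (nat_lit 0x180005) (nat_lit 0x10001000000000000000000000000000000010002))) (.split (nat_lit 0xd) (nat_lit 0) (.split (nat_lit 0xd) (nat_lit 1) (.split (nat_lit 0xd) (nat_lit 2) (.split (nat_lit 0xd) (nat_lit 3) (.split (nat_lit 0xd) (nat_lit 5) (.split (nat_lit 0xd) (nat_lit 6) (.split (nat_lit 0xd) (nat_lit 7) (.split (nat_lit 0xd) (nat_lit 8) (.split (nat_lit 0xd) (nat_lit 9) (.split (nat_lit 0xd) (nat_lit 0xa) (.split (nat_lit 0xd) (nat_lit 0xb) (.split (nat_lit 0xd) (nat_lit 0xc) (.unj (nat_lit 0x10014) (nat_lit 0x100000000000000000000000100010000) (nat_lit 0x4001500) (nat_lit 0x10000000000000000000000000001000200020000000000000000)) (.non (nat_lit 1) (nat_lit 4) (nat_lit 0x5415450) (nat_lit 0x20004000300000000000400030002000100000006000500000000)))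 (.non (nat_lit 1) (nat_lit 4) (nat_lit 0x5415450) (nat_lit 0x20003000400000000000400030002000100000006000500000000))) (.non (nat_lit 1) (nat_lit 6) (nat_lit 0x4100501) (nat_lit 0x30000000000020000000000000000000300040000000000000001))) (.non (nat_lit 1) (nat_lit 6) (nat_lit 0x4040501) (nat_lit 0x30000000000000002000000000000000300040000000000000001))) (.non (nat_lit 1) (nat_lit 4) (nat_lit 0x5414050) (nat_lit 0x10001000100000000000200010000000000000002000200000000))) (.non (nat_lit 1) (nat_lit 4) (nat_lit 0x5415050) (nat_lit 0x10001000100000000000200020001000000000002000200000000))) (.non (nat_lit 1) (nat_lit 4) (nat_lit 0x5415450) (nat_lit 0x10001000100000000000200020002000100000002000200000000))) (.non (nat_lit 1) (nat_lit 6) (nat_lit 0x4000500) (nat_lit 0x10000000000000000000000000000000100010000000000000000))) (.non (nat_lit 1) (nat_lit 4) (nat_lit 0x5400050) (nat_lit 0x10001000100000000000000000000000000000002000100000000))) (.star (nat_lit 0xd) (nat_lit 2) (nat_lit 4))) (.star (nat_lit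 0xd) (nat_lit 1) (nat_lit 4))) (.non (nat_lit 1) (nat_lit 6) (nat_lit 0x4100501) (nat_lit 0x30000000000010000000000000000000300040000000000000002))))

noncomputable def t758_96 : Tr := (.ex (nat_lit 3) (.ex (nat_lit 4) (.split (nat_lit 9) (nat_lit 0) (.split (nat_lit 0xa) (nat_lit 0) (.split (nat_lit 8) (nat_lit 2) t758_93 (.non (nat_lit 1) (nat_lit 4) (nat_lit 0x428050) (nat_lit 0x100000000000200010000000000000002000300000000))) (.non (nat_lit 2) (nat_lit 4) (nat_lit 0x240005) (nat_lit 0x10001000000000000000000000000000000010002))) (.non (nat_lit 2) (nat_lit 4) (nat_lit 0x180005) (nat_lit 0x10001000000000000000000000000000000010002))) (.split (nat_lit 0xc) (nat_lit 0) (.split (nat_lit 0xc) (nat_lit 1) (.split (nat_lit 0xc) (nat_lit 2) (.split (nat_lit 0xc) (nat_lit 3) (.split (nat_lit 0xc) (nat_lit 5) (.split (nat_lit 0xc) (nat_lit 6) (.split (nat_lit 0xc) (nat_lit 7) (.split (nat_lit 0xc) (nat_lit 8) (.split (nat_lit 0xc) (nat_lit 9) (.split (nat_lit 0xc) (nat_lit 0xa) (.split (nat_lit 0xc)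 (nat_lit 0xb) (.unj (nat_lit 0x10014) (nat_lit 0x100000000000000000000000100010000) (nat_lit 0x1001500) (nat_lit 0x1000000000000000000000001000200020000000000000000)) (.non (nat_lit 1) (nat_lit 6) (nat_lit 0x1400540) (nat_lit 0x3000200000000000000000000000300040001000000000000))) (.non (nat_lit 1) (nat_lit 6) (nat_lit 0x1100501) (nat_lit 0x3000000020000000000000000000300040000000000000001))) (.non (nat_lit 1) (nat_lit 6) (nat_lit 0x1040501) (nat_lit 0x3000000000002000000000000000300040000000000000001))) (.non (nat_lit 1) (nat_lit 4) (nat_lit 0x1415450) (nat_lit 0x2000100000000000400030002000100000002000300000000))) (.non (nat_lit 1) (nat_lit 6) (nat_lit 0x1014500) (nat_lit 0x3000000000000000100020000000300040000000000000000))) (.non (nat_lit 2) (nat_lit 4) (nat_lit 0x1155405) (nat_lit 0x1000000010001000200020002000100000000000000020002))) (.non (nat_lit 1) (nat_lit 6) (nat_lit 0x1000500) (nat_lit 0x1000000000000000000000000000100010000000000000000))) (.non (nat_lit 1) (nat_lit 6) (nat_lit 0x1400540)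 (nat_lit 0x3000100000000000000000000000300040002000000000000))) (.star (nat_lit 0xc) (nat_lit 2) (nat_lit 4))) (.star (nat_lit 0xc) (nat_lit 1) (nat_lit 4))) (.non (nat_lit 1) (nat_lit 6) (nat_lit 0x1100501) (nat_lit 0x3000000010000000000000000000300040000000000000002)))) (.split (nat_lit 0xc) (nat_lit 0) (.split (nat_lit 0xc) (nat_lit 1) (.split (nat_lit 0xc) (nat_lit 2) (.split (nat_lit 0xc) (nat_lit 4) (.split (nat_lit 0xc) (nat_lit 5) (.split (nat_lit 0xc) (nat_lit 6) (.split (nat_lit 0xc) (nat_lit 7) (.split (nat_lit 0xc) (nat_lit 8) (.split (nat_lit 0xc) (nat_lit 9) (.split (nat_lit 0xc) (nat_lit 0xa) (.split (nat_lit 0xc) (nat_lit 0xb) t758_95 (.non (nat_lit 1) (nat_lit 4) (nat_lit 0x1400040) (nat_lit 0x1000100000000000000000000000000000001000000000000))) (.non (nat_lit 1) (nat_lit 4) (nat_lit 0x1515450) (nat_lit 0x4000300020000000400030002000100000006000500000000))) (.non (nat_lit 1) (nat_lit 4) (nat_lit 0x1455450) (nat_lit 0x4000300000002000400030002000100000006000500000000))) (.non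 (nat_lit 1) (nat_lit 4) (nat_lit 0x1010050) (nat_lit 0x1000000000000000100000000000000000001000100000000))) (.non (nat_lit 1) (nat_lit 4) (nat_lit 0x1014050) (nat_lit 0x1000000000000000100010000000000000001000100000000))) (.non (nat_lit 1) (nat_lit 4) (nat_lit 0x1015050) (nat_lit 0x1000000000000000100010001000000000001000100000000))) (.non (nat_lit 1) (nat_lit 4) (nat_lit 0x1015450) (nat_lit 0x1000000000000000100010001000100000001000100000000))) (.non (nat_lit 1) (nat_lit 6) (nat_lit 0x1400540) (nat_lit 0x3000100000000000000000000000300040002000000000000))) (.non (nat_lit 1) (nat_lit 4) (nat_lit 0x1000050) (nat_lit 0x1000000000000000000000000000000000001000100000000))) (.non (nat_lit 2) (nat_lit 4) (nat_lit 0x1150005) (nat_lit 0x1000000010001000100000000000000000000000000020002))) (.non (nat_lit 1) (nat_lit 4) (nat_lit 0x1540051) (nat_lit 0x2000100010001000000000000000000000002000100000002))))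

noncomputable def t758_97 : Tr := (.ex (nat_lit 3) (.ex (nat_lit 4) (.split (nat_lit 9) (nat_lit 0) (.split (nat_lit 0xa) (nat_lit 0) (.split (nat_lit 8) (nat_lit 2) (.split (nat_lit 8) (nat_lit 7) (.split (nat_lit 8) (nat_lit 1) t758_90 (.non (nat_lit 2) (nat_lit 4) (nat_lit 0x160005) (nat_lit 0x10001000100000000000000000000000000020002))) (.non (nat_lit 1) (nat_lit 4) (nat_lit 0x1a810) (nat_lit 0x400030002000100000000000200000000))) (.non (nat_lit 1) (nat_lit 4) (nat_lit 0x2a050) (nat_lit 0x300020001000000000002000400000000))) (.non (nat_lit 2) (nat_lit 4) (nat_lit 0x240005) (nat_lit 0x10001000000000000000000000000000000010002))) (.non (nat_lit 2) (nat_lit 4) (nat_lit 0x180005) (nat_lit 0x10001000000000000000000000000000000010002))) (.split (nat_lit 0xb) (nat_lit 0) (.split (nat_lit 0xb) (nat_lit 1) (.split (nat_lit 0xb) (nat_lit 2) (.split (nat_lit 0xb) (nat_lit 3) (.split (nat_lit 0xb) (nat_lit 5) (.split (nat_lit 0xb) (nat_lit 6) (.split (nat_lit 0xb) (nat_lit 7) (.split (nat_lit 0xb) (nat_lit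 8) (.split (nat_lit 0xb) (nat_lit 9) (.split (nat_lit 0xb) (nat_lit 0xa) (.unj (nat_lit 0x10014) (nat_lit 0x100000000000000000000000100010000) (nat_lit 0x401500) (nat_lit 0x100000000000000000001000200020000000000000000)) (.non (nat_lit 1) (nat_lit 6) (nat_lit 0x500501) (nat_lit 0x300020000000000000000000300040000000000000001))) (.non (nat_lit 1) (nat_lit 6) (nat_lit 0x440501) (nat_lit 0x300000002000000000000000300040000000000000001))) (.non (nat_lit 1) (nat_lit 6) (nat_lit 0x414500) (nat_lit 0x300000000000200010000000300040000000000000000))) (.non (nat_lit 1) (nat_lit 6) (nat_lit 0x414500) (nat_lit 0x300000000000100020000000300040000000000000000))) (.non (nat_lit 2) (nat_lit 4) (nat_lit 0x555405) (nat_lit 0x100010001000200020002000100000000000000020002))) (.non (nat_lit 1) (nat_lit 6) (nat_lit 0x400500) (nat_lit 0x100000000000000000000000100010000000000000000))) (.non (nat_lit 1) (nat_lit 6) (nat_lit 0x400550) (nat_lit 0x300000000000000000000000300040002000100000000))) (.star (nat_lit 0xb) (nat_lit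 2) (nat_lit 4))) (.star (nat_lit 0xb) (nat_lit 1) (nat_lit 4))) (.non (nat_lit 1) (nat_lit 6) (nat_lit 0x500501) (nat_lit 0x300010000000000000000000300040000000000000002)))) (.split (nat_lit 0xb) (nat_lit 0) (.split (nat_lit 0xb) (nat_lit 1) (.split (nat_lit 0xb) (nat_lit 2) (.split (nat_lit 0xb) (nat_lit 4) (.split (nat_lit 0xb) (nat_lit 5) (.split (nat_lit 0xb) (nat_lit 6) (.split (nat_lit 0xb) (nat_lit 7) (.split (nat_lit 0xb) (nat_lit 8) (.split (nat_lit 0xb) (nat_lit 9) (.split (nat_lit 0xb) (nat_lit 0xa) t758_96 (.non (nat_lit 2) (nat_lit 4) (nat_lit 0x555405) (nat_lit 0x200040003000400030002000100000000000000050006))) (.non (nat_lit 2) (nat_lit 4) (nat_lit 0x555405) (nat_lit 0x200030004000400030002000100000000000000050006))) (.non (nat_lit 1) (nat_lit 4) (nat_lit 0x410050) (nat_lit 0x100000000000100000000000000000001000100000000))) (.non (nat_lit 1) (nat_lit 4) (nat_lit 0x414050) (nat_lit 0x100000000000100010000000000000001000100000000))) (.non (nat_lit 1) (nat_lit 4) (nat_lit 0x415050)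 (nat_lit 0x100000000000100010001000000000001000100000000))) (.non (nat_lit 1) (nat_lit 4) (nat_lit 0x415450) (nat_lit 0x100000000000100010001000100000001000100000000))) (.non (nat_lit 1) (nat_lit 6) (nat_lit 0x400550) (nat_lit 0x300000000000000000000000300040002000100000000))) (.non (nat_lit 1) (nat_lit 4) (nat_lit 0x400050) (nat_lit 0x100000000000000000000000000000001000100000000))) (.non (nat_lit 2) (nat_lit 4) (nat_lit 0x550005) (nat_lit 0x100010001000100000000000000000000000000020002))) (.non (nat_lit 2) (nat_lit 4) (nat_lit 0x540005) (nat_lit 0x100010001000000000000000000000000000000010002))))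

noncomputable def t758_98 : Tr := (.ex (nat_lit 5) (.pd (.cons (nat_lit 1) (nat_lit 7) (nat_lit 0) (nat_lit 0x200205442200) (nat_lit 0xf423ff423ff423ff423f00000f423fb71ae1f156f423f3d08c000007a11d) (.cons (nat_lit 1) (nat_lit 8) (nat_lit 0) (nat_lit 0x200065442200) (nat_lit 0xf423ff423ff423f00000f423fb71aea2c2804737f423f7a11d000007a11d) (.cons (nat_lit 2) (nat_lit 7) (nat_lit 0) (nat_lit 0xb00105443000) (nat_lit 0xf423ff423ff423ff423f00000f423fb71ae1f156f423f00000b71ae28b06) (.cons (nat_lit 2) (nat_lit 8) (nat_lit 0) (nat_lit 0xb00065443000) (nat_lit 0xf423ff423ff423f00000f423fb71aea2c2804737f423f00000f423f3d08c) .nil)))) (.leaf (.cons (nat_lit 0x10014) (nat_lit 0x100000000000000000000000100010000) (.cons (nat_lit 0x400054) (nat_lit 0x100000000000000000000000000000001000200020000) (.cons (nat_lit 0x400015) (nat_lit 0x100000000000000000000000000000000000200020001) .nil))) .nil)) (.split (nat_lit 0xc) (nat_lit 0) (.split (nat_lit 0xc) (nat_lit 1) (.split (nat_lit 0xc) (nat_lit 2) (.split (nat_lit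 0xc) (nat_lit 3) (.split (nat_lit 0xc) (nat_lit 4) (.split (nat_lit 0xc) (nat_lit 6) (.split (nat_lit 0xc) (nat_lit 7) (.split (nat_lit 0xc) (nat_lit 8) (.split (nat_lit 0xc) (nat_lit 9) (.split (nat_lit 0xc) (nat_lit 0xa) (.split (nat_lit 0xc) (nat_lit 0xb) (.unj (nat_lit 0x10014) (nat_lit 0x100000000000000000000000100010000) (nat_lit 0x1001500) (nat_lit 0x1000000000000000000000001000200020000000000000000)) (.non (nat_lit 1) (nat_lit 4) (nat_lit 0x1415410) (nat_lit 0x1000100000000000100010001000100000000000100000000))) (.non (nat_lit 1) (nat_lit 6) (nat_lit 0x1100501) (nat_lit 0x3000000020000000000000000000400030000000000000001))) (.non (nat_lit 1) (nat_lit 6) (nat_lit 0x1040501) (nat_lit 0x3000000000002000000000000000400030000000000000001))) (.non (nat_lit 1) (nat_lit 4) (nat_lit 0x1015400) (nat_lit 0x1000000000000000100010001000100000000000000000000))) (.non (nat_lit 1) (nat_lit 4) (nat_lit 0x1005400) (nat_lit 0x1000000000000000000010001000100000000000000000000))) (.non (nat_lit 1) (nat_lit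 4) (nat_lit 0x1001400) (nat_lit 0x1000000000000000000000001000100000000000000000000))) (.non (nat_lit 1) (nat_lit 6) (nat_lit 0x1000500) (nat_lit 0x1000000000000000000000000000100010000000000000000))) (.non (nat_lit 1) (nat_lit 4) (nat_lit 0x1015450) (nat_lit 0x1000000000000000100010001000100000001000100000000))) (.non (nat_lit 1) (nat_lit 4) (nat_lit 0x1015410) (nat_lit 0x1000000000000000100010001000100000000000100000000))) (.non (nat_lit 2) (nat_lit 4) (nat_lit 0x1015404) (nat_lit 0x1000000000000000100010001000100000000000000010000))) (.non (nat_lit 1) (nat_lit 4) (nat_lit 0x1555451) (nat_lit 0x2000100010001000200020002000200000001000200000002))))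

noncomputable def t758_99 : Tr := (.ex (nat_lit 4) (.split (nat_lit 9) (nat_lit 0) (.split (nat_lit 0xa) (nat_lit 0) (.split (nat_lit 8) (nat_lit 2) (.split (nat_lit 0xb) (nat_lit 2) (.split (nat_lit 8) (nat_lit 7) (.split (nat_lit 8) (nat_lit 1) (.pd (.cons (nat_lit 1) (nat_lit 5) (nat_lit 0) (nat_lit 0x200287042200) (nat_lit 0xf423ff423ff423fa2c28b71aef423f00000f423ff423f1e843000007a11d) (.cons (nat_lit 2) (nat_lit 5) (nat_lit 0) (nat_lit 0xb00187043000) (nat_lit 0xf423ff423ff423fa2c28b71aef423f00000f423ff423f00000989651869b) .nil)) t758_98) (.non (nat_lit 2) (nat_lit 4) (nat_lit 0x160005) (nat_lit 0x10001000100000000000000000000000000020002))) (.non (nat_lit 1) (nat_lit 4) (nat_lit 0x41a010) (nat_lit 0x100000000000300020001000000000000000200000000))) (.non (nat_lit 1) (nat_lit 4) (nat_lit 0x810050) (nat_lit 0x100000000000100000000000000000001000200000000))) (.non (nat_lit 1) (nat_lit 4) (nat_lit 0x42a010) (nat_lit 0x200000000000300020001000000000000000400000000))) (.non (nat_lit 2) (nat_lit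 4) (nat_lit 0x240005) (nat_lit 0x10001000000000000000000000000000000010002))) (.non (nat_lit 2) (nat_lit 4) (nat_lit 0x180005) (nat_lit 0x10001000000000000000000000000000000010002))) (.split (nat_lit 0xc) (nat_lit 0) (.split (nat_lit 0xc) (nat_lit 1) (.split (nat_lit 0xc) (nat_lit 2) (.split (nat_lit 0xc) (nat_lit 3) (.split (nat_lit 0xc) (nat_lit 5) (.split (nat_lit 0xc) (nat_lit 6) (.split (nat_lit 0xc) (nat_lit 7) (.split (nat_lit 0xc) (nat_lit 8) (.split (nat_lit 0xc) (nat_lit 9) (.split (nat_lit 0xc) (nat_lit 0xa) (.split (nat_lit 0xc) (nat_lit 0xb) (.unj (nat_lit 0x10014) (nat_lit 0x100000000000000000000000100010000) (nat_lit 0x1001500) (nat_lit 0x1000000000000000000000001000200020000000000000000)) (.non (nat_lit 1) (nat_lit 6) (nat_lit 0x1400510) (nat_lit 0x3000200000000000000000000000300040000000100000000))) (.non (nat_lit 1) (nat_lit 6) (nat_lit 0x1100501) (nat_lit 0x3000000020000000000000000000300040000000000000001))) (.non (nat_lit 1) (nat_lit 6) (nat_lit 0x1040501) (nat_lit 0x3000000000002000000000000000300040000000000000001)))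 (.non (nat_lit 1) (nat_lit 4) (nat_lit 0x1414050) (nat_lit 0x1000100000000000200010000000000000001000200000000))) (.non (nat_lit 1) (nat_lit 4) (nat_lit 0x1415050) (nat_lit 0x1000100000000000200020001000000000001000200000000))) (.non (nat_lit 1) (nat_lit 4) (nat_lit 0x1415450) (nat_lit 0x1000100000000000200020002000100000001000200000000))) (.non (nat_lit 1) (nat_lit 6) (nat_lit 0x1000500) (nat_lit 0x1000000000000000000000000000100010000000000000000))) (.non (nat_lit 1) (nat_lit 6) (nat_lit 0x1000550) (nat_lit 0x3000000000000000000000000000300040002000100000000))) (.star (nat_lit 0xc) (nat_lit 2) (nat_lit 4))) (.star (nat_lit 0xc) (nat_lit 1) (nat_lit 4))) (.non (nat_lit 1) (nat_lit 6) (nat_lit 0x1100501) (nat_lit 0x3000000010000000000000000000300040000000000000002))))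

noncomputable def t758_100 : Tr := (.split (nat_lit 0xa) (nat_lit 4) (.split (nat_lit 0xa) (nat_lit 5) (.split (nat_lit 0xa) (nat_lit 6) (.split (nat_lit 0xa) (nat_lit 7) (.split (nat_lit 0xa) (nat_lit 8) (.split (nat_lit 0xa) (nat_lit 9) (.st (nat_lit 1) (nat_lit 2) (nat_lit 4) (nat_lit 0x150005) (nat_lit 0x10001000100000000000000000000000000020002) (nat_lit 1) (nat_lit 1) (.st (nat_lit 6) (nat_lit 2) (nat_lit 4) (nat_lit 0x155405) (nat_lit 0x10001000200020002000100000000000000020002) (nat_lit 1) (nat_lit 1) (.st (nat_lit 7) (nat_lit 2) (nat_lit 4) (nat_lit 0x155005) (nat_lit 0x10001000200020001000000000000000000020002) (nat_lit 1) (nat_lit 1) (.ex (nat_lit 2) t758_97 (.split (nat_lit 0xb) (nat_lit 0) (.split (nat_lit 0xb) (nat_lit 1) (.split (nat_lit 0xb) (nat_lit 3) (.split (nat_lit 0xb) (nat_lit 4) (.split (nat_lit 0xb) (nat_lit 5) (.split (nat_lit 0xb) (nat_lit 6) (.split (nat_lit 0xb) (nat_lit 7) (.split (nat_lit 0xb) (nat_lit 8) (.split (nat_lit 0xb) (nat_lit 9) (.split (nat_lit 0xb)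 (nat_lit 0xa) t758_99 (.non (nat_lit 1) (nat_lit 4) (nat_lit 0x515051) (nat_lit 0x300020000000300020001000000000002000400000001))) (.non (nat_lit 1) (nat_lit 4) (nat_lit 0x455051) (nat_lit 0x300000002000300020001000000000002000400000001))) (.non (nat_lit 1) (nat_lit 4) (nat_lit 0x410010) (nat_lit 0x100000000000100000000000000000000000100000000))) (.non (nat_lit 1) (nat_lit 4) (nat_lit 0x414010) (nat_lit 0x100000000000100010000000000000000000100000000))) (.star (nat_lit 0xb) (nat_lit 2) (nat_lit 6))) (.non (nat_lit 1) (nat_lit 4) (nat_lit 0x415410) (nat_lit 0x100000000000100010001000100000000000100000000))) (.star (nat_lit 0xb) (nat_lit 2) (nat_lit 4))) (.non (nat_lit 1) (nat_lit 4) (nat_lit 0x400050) (nat_lit 0x100000000000000000000000000000001000100000000))) (.non (nat_lit 2) (nat_lit 4) (nat_lit 0x550005) (nat_lit 0x100010001000100000000000000000000000000020002))) (.non (nat_lit 1) (nat_lit 4) (nat_lit 0x550051) (nat_lit 0x200010001000100000000000000000001000200000002))))))) (.non (nat_lit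 1) (nat_lit 4) (nat_lit 0x140001) (nat_lit 0x10001000000000000000000000000000000000001))) (.non (nat_lit 1) (nat_lit 4) (nat_lit 0x155411) (nat_lit 0x30001000400030002000100000000000200000002))) (.non (nat_lit 1) (nat_lit 4) (nat_lit 0x115411) (nat_lit 0x20000000200030002000100000000000100000001))) (.non (nat_lit 1) (nat_lit 4) (nat_lit 0x155411) (nat_lit 0x30001000200030004000200000000000100000002))) (.non (nat_lit 1) (nat_lit 6) (nat_lit 0x140501) (nat_lit 0x30001000000000000000400030000000000000002))) (.non (nat_lit 1) (nat_lit 6) (nat_lit 0x140501) (nat_lit 0x30001000000000000000300040000000000000002)))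

noncomputable def t758_101 : Tr := (.ex (nat_lit 0) (.ex (nat_lit 1) t758_88 (.split (nat_lit 0xa) (nat_lit 0) (.split (nat_lit 0xa) (nat_lit 3) (.split (nat_lit 0xa) (nat_lit 4) (.split (nat_lit 0xa) (nat_lit 5) (.split (nat_lit 0xa) (nat_lit 6) (.split (nat_lit 0xa) (nat_lit 7) (.split (nat_lit 0xa) (nat_lit 8) (.split (nat_lit 0xa) (nat_lit 9) (.split (nat_lit 0xa) (nat_lit 2) (.st (nat_lit 5) (nat_lit 2) (nat_lit 4) (nat_lit 0x155405) (nat_lit 0x30002000500040003000200000000000000060004) (nat_lit 1) (nat_lit 1) (.st (nat_lit 6) (nat_lit 2) (nat_lit 4) (nat_lit 0x115405) (nat_lit 0x10000000200020002000100000000000000020001) (nat_lit 1) (nat_lit 1) (.st (nat_lit 7) (nat_lit 2) (nat_lit 4) (nat_lit 0x115005) (nat_lit 0x10000000200020001000000000000000000020001) (nat_lit 1) (nat_lit 1) t758_89))) (.split (nat_lit 0xa) (nat_lit 1) (.split (nat_lit 0xa) (nat_lit 2) (.split (nat_lit 9) (nat_lit 0) (.split (nat_lit 8) (nat_lit 1) (.split (nat_lit 8) (nat_lit 2) (.sup (nat_lit 0x4000d00160020001a0000000000000000)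 (nat_lit 0x30001000000000000000000000001000300030002)) (.non (nat_lit 1) (nat_lit 4) (nat_lit 0x12a010) (nat_lit 0x20000000300020001000000000000000400000000))) (.non (nat_lit 2) (nat_lit 4) (nat_lit 0x12a004) (nat_lit 0x20000000300020001000000000000000000040000))) (.non (nat_lit 2) (nat_lit 4) (nat_lit 0x190005) (nat_lit 0x10001000100000000000000000000000000020002))) (.non (nat_lit 1) (nat_lit 4) (nat_lit 0x210050) (nat_lit 0x10000000100000000000000000001000200000000))) (.non (nat_lit 2) (nat_lit 4) (nat_lit 0x210005) (nat_lit 0x10000000100000000000000000000000000020001)))) (.non (nat_lit 2) (nat_lit 4) (nat_lit 0x140005) (nat_lit 0x10001000000000000000000000000000000010001))) (.non (nat_lit 2) (nat_lit 4) (nat_lit 0x110004) (nat_lit 0x10000000100000000000000000000000000010000))) (.non (nat_lit 2) (nat_lit 4) (nat_lit 0x114004) (nat_lit 0x10000000100010000000000000000000000010000))) (.star (nat_lit 0xa) (nat_lit 1) (nat_lit 6))) (.non (nat_lit 2) (nat_lit 4) (nat_lit 0x115404) (nat_lit 0x10000000100010001000100000000000000010000)))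 (.star (nat_lit 0xa) (nat_lit 1) (nat_lit 4))) (.non (nat_lit 2) (nat_lit 4) (nat_lit 0x154045) (nat_lit 0x20001000200010000000000000001000000030002))) (.non (nat_lit 2) (nat_lit 4) (nat_lit 0x100005) (nat_lit 0x10000000000000000000000000000000000010001)))) (.split (nat_lit 0xa) (nat_lit 1) (.split (nat_lit 0xa) (nat_lit 2) (.split (nat_lit 0xa) (nat_lit 3) t758_100 (.non (nat_lit 2) (nat_lit 4) (nat_lit 0x155445) (nat_lit 0x40003000400030002000100000002000000050006))) (.non (nat_lit 1) (nat_lit 4) (nat_lit 0x155051) (nat_lit 0x30001000300020001000000000002000400000002))) (.non (nat_lit 2) (nat_lit 4) (nat_lit 0x100005) (nat_lit 0x10000000000000000000000000000000000010001))))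

noncomputable def t758_102 : Tr := (.pd (.cons (nat_lit 1) (nat_lit 5) (nat_lit 0) (nat_lit 0x287049300) (nat_lit 0x8e6a2a2c28b71aef423f00000f423f927bd98965000008b821) (.cons (nat_lit 1) (nat_lit 7) (nat_lit 0) (nat_lit 0x205449300) (nat_lit 0x98965f423f00000f423fb71ae1f156a2c28b71ae00000927bd) (.cons (nat_lit 1) (nat_lit 8) (nat_lit 0) (nat_lit 0x65449300) (nat_lit 0xa2c2800000f423fb71aea2c2804737b71aef423f0000098965) (.cons (nat_lit 2) (nat_lit 5) (nat_lit 0) (nat_lit 0x187049000) (nat_lit 0xb71aea2c28b71aef423f00000f423ff423f0000098965411a6) (.cons (nat_lit 2) (nat_lit 7) (nat_lit 0) (nat_lit 0x105449000) (nat_lit 0xb71aef423f00000f423fb71ae1f156f423f00000b71ae51611) (.cons (nat_lit 2) (nat_lit 8) (nat_lit 0) (nat_lit 0x65449000) (nat_lit 0xb71ae00000f423fb71aea2c2804737f423f00000f423f65b97) .nil)))))) (.ex (nat_lit 9) (.pd (.cons (nat_lit 0) (nat_lit 8) (nat_lit 0) (nat_lit 0x3065442110) (nat_lit 0xf423f00000f423fb71aea2c2804737b71aea2c280473700000) (.cons (nat_lit 3) (nat_lit 8) (nat_lit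 0) (nat_lit 0x65440100) (nat_lit 0xf423f00000f423fb71aea2c280473700000f423f5459106711) .nil)) (.leaf (.cons (nat_lit 0x10014) (nat_lit 0x100000000000000000000000100010000) .nil) .nil)) (.split (nat_lit 0xa) (nat_lit 0) (.split (nat_lit 0xa) (nat_lit 1) (.split (nat_lit 0xa) (nat_lit 2) (.split (nat_lit 0xa) (nat_lit 3) (.split (nat_lit 0xa) (nat_lit 4) (.split (nat_lit 0xa) (nat_lit 5) (.split (nat_lit 0xa) (nat_lit 6) (.split (nat_lit 0xa) (nat_lit 7) (.split (nat_lit 0xa) (nat_lit 8) (.sup (nat_lit 0x3000d00160020001a0000000000000000) (nat_lit 0x30006000000000000000000000005000300030005)) (.non (nat_lit 1) (nat_lit 4) (nat_lit 0x150050) (nat_lit 0x10001000100000000000000000001000100000000))) (.non (nat_lit 1) (nat_lit 4) (nat_lit 0x155410) (nat_lit 0x20001000200030002000100000000000100000000))) (.non (nat_lit 1) (nat_lit 4) (nat_lit 0x155050) (nat_lit 0x10001000100010001000000000001000100000000))) (.non (nat_lit 1) (nat_lit 4) (nat_lit 0x155450) (nat_lit 0x10001000100010001000100000001000100000000)))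 (.non (nat_lit 1) (nat_lit 6) (nat_lit 0x140540) (nat_lit 0x30002000000000000000300040001000000000000))) (.non (nat_lit 1) (nat_lit 4) (nat_lit 0x140040) (nat_lit 0x10001000000000000000000000001000000000000))) (.non (nat_lit 1) (nat_lit 4) (nat_lit 0x140050) (nat_lit 0x10001000000000000000000000001000100000000))) (.non (nat_lit 2) (nat_lit 4) (nat_lit 0x140005) (nat_lit 0x10001000000000000000000000000000000010001))) (.non (nat_lit 1) (nat_lit 4) (nat_lit 0x140001) (nat_lit 0x10001000000000000000000000000000000000001)))))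

noncomputable def t758_103 : Tr := (.ex (nat_lit 5) (.ex (nat_lit 6) (.split (nat_lit 9) (nat_lit 0) (.split (nat_lit 8) (nat_lit 2) (.split (nat_lit 9) (nat_lit 3) (.split (nat_lit 8) (nat_lit 7) (.split (nat_lit 8) (nat_lit 1) t758_102 (.non (nat_lit 2) (nat_lit 4) (nat_lit 0x68005) (nat_lit 0x1000200010000000000000000000000030002))) (.non (nat_lit 1) (nat_lit 4) (nat_lit 0x1a810) (nat_lit 0x400030002000100000000000200000000))) (.non (nat_lit 1) (nat_lit 4) (nat_lit 0x600a1) (nat_lit 0x4000100000000000000000003000200000002))) (.non (nat_lit 1) (nat_lit 4) (nat_lit 0x68050) (nat_lit 0x1000200010000000000000002000300000000))) (.non (nat_lit 2) (nat_lit 4) (nat_lit 0x90085) (nat_lit 0x2000100000000000000000001000000020003))) (.split (nat_lit 0xa) (nat_lit 0) (.split (nat_lit 0xa) (nat_lit 1) (.split (nat_lit 0xa) (nat_lit 2) (.split (nat_lit 0xa) (nat_lit 3) (.split (nat_lit 0xa) (nat_lit 5) (.split (nat_lit 0xa) (nat_lit 7) (.split (nat_lit 0xa) (nat_lit 8) (.split (nat_lit 0xa) (nat_lit 9)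 (.split (nat_lit 0xa) (nat_lit 4) (.unj (nat_lit 0x55) (nat_lit 0x1000200020001) (nat_lit 0x105500) (nat_lit 0x10000000000010002000200020000000000000000)) (.unj (nat_lit 0x10014) (nat_lit 0x100000000000000000000000100010000) (nat_lit 0x101500) (nat_lit 0x10000000000000001000100010000000000000000))) (.non (nat_lit 1) (nat_lit 4) (nat_lit 0x155050) (nat_lit 0x10001000100010001000000000001000100000000))) (.non (nat_lit 1) (nat_lit 4) (nat_lit 0x115000) (nat_lit 0x10000000100010001000000000000000000000000))) (.non (nat_lit 1) (nat_lit 4) (nat_lit 0x105000) (nat_lit 0x10000000000010001000000000000000000000000))) (.non (nat_lit 1) (nat_lit 4) (nat_lit 0x101400) (nat_lit 0x10000000000000001000100000000000000000000))) (.non (nat_lit 1) (nat_lit 4) (nat_lit 0x115050) (nat_lit 0x10000000100010001000000000001000100000000))) (.star (nat_lit 0xa) (nat_lit 2) (nat_lit 6))) (.star (nat_lit 0xa) (nat_lit 1) (nat_lit 6))) (.non (nat_lit 1) (nat_lit 4) (nat_lit 0x155411) (nat_lit 0x30001000200030004000200000000000100000002))))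 (.split (nat_lit 0xa) (nat_lit 0) (.split (nat_lit 0xa) (nat_lit 1) (.split (nat_lit 0xa) (nat_lit 2) (.split (nat_lit 0xa) (nat_lit 3) (.split (nat_lit 0xa) (nat_lit 4) (.split (nat_lit 0xa) (nat_lit 6) (.split (nat_lit 0xa) (nat_lit 7) (.split (nat_lit 0xa) (nat_lit 8) (.split (nat_lit 0xa) (nat_lit 9) (.unj (nat_lit 0x10014) (nat_lit 0x100000000000000000000000100010000) (nat_lit 0x101500) (nat_lit 0x10000000000000001000200020000000000000000)) (.non (nat_lit 1) (nat_lit 4) (nat_lit 0x155450) (nat_lit 0x10001000100010001000100000001000100000000))) (.non (nat_lit 1) (nat_lit 4) (nat_lit 0x115400) (nat_lit 0x10000000100010001000100000000000000000000))) (.non (nat_lit 1) (nat_lit 4) (nat_lit 0x105400) (nat_lit 0x10000000000010001000100000000000000000000))) (.non (nat_lit 1) (nat_lit 4) (nat_lit 0x101400) (nat_lit 0x10000000000000001000100000000000000000000))) (.non (nat_lit 1) (nat_lit 6) (nat_lit 0x100500) (nat_lit 0x10000000000000000000100010000000000000000))) (.non (nat_lit 1) (nat_lit 4) (nat_lit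 0x115450) (nat_lit 0x10000000100010001000100000001000100000000))) (.non (nat_lit 1) (nat_lit 4) (nat_lit 0x115410) (nat_lit 0x10000000100010001000100000000000100000000))) (.non (nat_lit 2) (nat_lit 4) (nat_lit 0x115404) (nat_lit 0x10000000100010001000100000000000000010000))) (.non (nat_lit 1) (nat_lit 4) (nat_lit 0x155451) (nat_lit 0x10001000100010001000100000001000100000001))))

noncomputable def t758_104 : Tr := (.split (nat_lit 9) (nat_lit 2) (.split (nat_lit 9) (nat_lit 3) (.st (nat_lit 8) (nat_lit 2) (nat_lit 4) (nat_lit 0x55405) (nat_lit 0x1000400030002000100000000000000030002) (nat_lit 1) (nat_lit 2) t758_101) (.st (nat_lit 0) (nat_lit 2) (nat_lit 4) (nat_lit 0x55445) (nat_lit 0x4000400030002000100000002000000050006) (nat_lit 1) (nat_lit 3) (.st (nat_lit 1) (nat_lit 2) (nat_lit 4) (nat_lit 0x55045) (nat_lit 0x2000300020001000000000001000000040003) (nat_lit 1) (nat_lit 2) (.st (nat_lit 2) (nat_lit 1) (nat_lit 4) (nat_lit 0x55051) (nat_lit 0x2000300020001000000000003000400000001) (nat_lit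 1) (nat_lit 2) (.st (nat_lit 3) (nat_lit 1) (nat_lit 4) (nat_lit 0x55451) (nat_lit 0x4000400030002000100000006000500000002) (nat_lit 1) (nat_lit 3) (.st (nat_lit 7) (nat_lit 1) (nat_lit 4) (nat_lit 0x55451) (nat_lit 0x2000500060004000200000003000400000001) (nat_lit 1) (nat_lit 3) (.st (nat_lit 8) (nat_lit 1) (nat_lit 4) (nat_lit 0x55450) (nat_lit 0x1000400030002000100000002000300000000) (nat_lit 1) (nat_lit 2) (.ex (nat_lit 4) t758_103 (.split (nat_lit 0xa) (nat_lit 0) (.split (nat_lit 0xa) (nat_lit 1) (.split (nat_lit 0xa) (nat_lit 2) (.split (nat_lit 0xa) (nat_lit 3) (.split (nat_lit 0xa) (nat_lit 5) (.split (nat_lit 0xa) (nat_lit 7) (.split (nat_lit 0xa) (nat_lit 8) (.split (nat_lit 0xa) (nat_lit 9) (.split (nat_lit 0xa) (nat_lit 6) (.unj (nat_lit 0x10014) (nat_lit 0x100000000000000000000000100010000) (nat_lit 0x101500) (nat_lit 0x10000000000000001000200020000000000000000)) (.unj (nat_lit 0x10014) (nat_lit 0x100000000000000000000000100010000) (nat_lit 0x101500) (nat_lit 0x10000000000000001000100010000000000000000)))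 (.non (nat_lit 1) (nat_lit 6) (nat_lit 0x140540) (nat_lit 0x30002000000000000000300040001000000000000))) (.non (nat_lit 1) (nat_lit 4) (nat_lit 0x155450) (nat_lit 0x20001000400030002000100000002000300000000))) (.non (nat_lit 1) (nat_lit 4) (nat_lit 0x155451) (nat_lit 0x30002000500060004000200000003000400000001))) (.non (nat_lit 1) (nat_lit 6) (nat_lit 0x100500) (nat_lit 0x10000000000000000000100010000000000000000))) (.non (nat_lit 1) (nat_lit 4) (nat_lit 0x155451) (nat_lit 0x30004000400030002000100000006000500000002))) (.star (nat_lit 0xa) (nat_lit 2) (nat_lit 4))) (.star (nat_lit 0xa) (nat_lit 1) (nat_lit 4))) (.non (nat_lit 1) (nat_lit 6) (nat_lit 0x140501) (nat_lit 0x30001000000000000000300040000000000000002))))))))))) (.split (nat_lit 9) (nat_lit 3) (.split (nat_lit 9) (nat_lit 0) (.split (nat_lit 9) (nat_lit 2) (.split (nat_lit 8) (nat_lit 1) (.split (nat_lit 8) (nat_lit 2) (.sup (nat_lit 0x10006000b0010000d0000000000000000) (nat_lit 0x2000000000000000000000001000200020002)) (.non (nat_lit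 1) (nat_lit 4) (nat_lit 0x6a010) (nat_lit 0x2000300020001000000000000000400000000))) (.non (nat_lit 2) (nat_lit 4) (nat_lit 0x68005) (nat_lit 0x1000200010000000000000000000000030002))) (.non (nat_lit 1) (nat_lit 4) (nat_lit 0x90050) (nat_lit 0x1000100000000000000000001000200000000))) (.non (nat_lit 1) (nat_lit 4) (nat_lit 0xa00a1) (nat_lit 0x2000100000000000000000001000200000002))) (.non (nat_lit 1) (nat_lit 4) (nat_lit 0x40050) (nat_lit 0x1000000000000000000000001000100000000))))

noncomputable def t758_105 : Tr := (.split (nat_lit 8) (nat_lit 1) (.split (nat_lit 8) (nat_lit 2) t758_27 (.split (nat_lit 8) (nat_lit 3) (.split (nat_lit 7) (nat_lit 3) (.split (nat_lit 5) (nat_lit 3) (.split (nat_lit 7) (nat_lit 0) (.split (nat_lit 5) (nat_lit 0) t758_34 (.sup (nat_lit 0x3000500040000000000000001) (nat_lit 0x300000000000000000003000500030000))) (.split (nat_lit 5) (nat_lit 0) (.st (nat_lit 0) (nat_lit 1) (nat_lit 4) (nat_lit 0x15411) (nat_lit 0x200030002000100000000000100000002) (nat_lit 1) (nat_lit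 1) (.st (nat_lit 2) (nat_lit 1) (nat_lit 4) (nat_lit 0x15051) (nat_lit 0x200020001000000000001000200000001) (nat_lit 1) (nat_lit 1) (.st (nat_lit 5) (nat_lit 1) (nat_lit 4) (nat_lit 0x15451) (nat_lit 0x300040003000200000001000200000002) (nat_lit 1) (nat_lit 1) (.st (nat_lit 6) (nat_lit 1) (nat_lit 4) (nat_lit 0x15401) (nat_lit 0x100020002000100000000000000000001) (nat_lit 1) (nat_lit 1) (.st (nat_lit 7) (nat_lit 1) (nat_lit 4) (nat_lit 0x15001) (nat_lit 0x100020001000000000000000000000001) (nat_lit 1) (nat_lit 1) (.st (nat_lit 8) (nat_lit 1) (nat_lit 4) (nat_lit 0x15011) (nat_lit 0x200020001000000000000000100000001) (nat_lit 1) (nat_lit 1) (.ex (nat_lit 1) t758_36 (.split (nat_lit 9) (nat_lit 0) (.split (nat_lit 9) (nat_lit 2) (.split (nat_lit 9) (nat_lit 4) (.split (nat_lit 9) (nat_lit 5) (.split (nat_lit 9) (nat_lit 6) (.split (nat_lit 9) (nat_lit 7) (.split (nat_lit 9) (nat_lit 8) (.split (nat_lit 9) (nat_lit 3) t758_37 (.sup (nat_lit 0x4000000000000000000000004000500030000) (nat_lit 0x20003000500040000000000000001)))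 (.non (nat_lit 1) (nat_lit 4) (nat_lit 0x55011) (nat_lit 0x1000200020001000000000000000100000001))) (.non (nat_lit 1) (nat_lit 4) (nat_lit 0x55001) (nat_lit 0x1000100020001000000000000000000000001))) (.star (nat_lit 9) (nat_lit 1) (nat_lit 6))) (.non (nat_lit 1) (nat_lit 4) (nat_lit 0x55451) (nat_lit 0x1000300040003000200000001000200000002))) (.star (nat_lit 9) (nat_lit 1) (nat_lit 4))) (.non (nat_lit 1) (nat_lit 4) (nat_lit 0x55051) (nat_lit 0x1000200020001000000000001000200000001))) (.non (nat_lit 1) (nat_lit 4) (nat_lit 0x55411) (nat_lit 0x1000200030002000100000000000100000002)))))))))) (.non (nat_lit 1) (nat_lit 4) (nat_lit 0x5401) (nat_lit 0x10001000100000000000000000001)))) (.non (nat_lit 1) (nat_lit 4) (nat_lit 0x15450) (nat_lit 0x100010001000100000001000100000000))) (.non (nat_lit 1) (nat_lit 4) (nat_lit 0x14050) (nat_lit 0x100010000000000000001000100000000))) (.non (nat_lit 1) (nat_lit 4) (nat_lit 0x10050) (nat_lit 0x100000000000000000001000100000000)))) (.split (nat_lit 7) (nat_lit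 0) (.split (nat_lit 5) (nat_lit 0) (.split (nat_lit 8) (nat_lit 2) t758_51 (.split (nat_lit 8) (nat_lit 3) (.split (nat_lit 7) (nat_lit 3) (.split (nat_lit 5) (nat_lit 3) (.ex (nat_lit 0) t758_67 (.split (nat_lit 9) (nat_lit 1) (.split (nat_lit 9) (nat_lit 4) (.split (nat_lit 9) (nat_lit 5) (.split (nat_lit 9) (nat_lit 6) (.split (nat_lit 9) (nat_lit 7) (.split (nat_lit 9) (nat_lit 8) t758_104 (.non (nat_lit 1) (nat_lit 4) (nat_lit 0x55051) (nat_lit 0x2000300020001000000000001000200000001))) (.non (nat_lit 1) (nat_lit 4) (nat_lit 0x55411) (nat_lit 0x2000200030002000100000000000100000001))) (.non (nat_lit 2) (nat_lit 4) (nat_lit 0x55005) (nat_lit 0x1000100010001000000000000000000010001))) (.non (nat_lit 2) (nat_lit 4) (nat_lit 0x55405) (nat_lit 0x1000100010001000100000000000000010001))) (.non (nat_lit 2) (nat_lit 6) (nat_lit 0x40505) (nat_lit 0x3000000000000000300040000000000010002))) (.non (nat_lit 2) (nat_lit 4) (nat_lit 0x40005) (nat_lit 0x1000000000000000000000000000000010001)))) (.non (nat_lit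 1) (nat_lit 4) (nat_lit 0x15450) (nat_lit 0x100010001000100000001000100000000))) (.non (nat_lit 1) (nat_lit 4) (nat_lit 0x14050) (nat_lit 0x100010000000000000001000100000000))) (.non (nat_lit 1) (nat_lit 4) (nat_lit 0x10050) (nat_lit 0x100000000000000000001000100000000)))) (.non (nat_lit 2) (nat_lit 4) (nat_lit 0x15405) (nat_lit 0x100010001000100000000000000010001))) (.non (nat_lit 2) (nat_lit 4) (nat_lit 0x14005) (nat_lit 0x100010000000000000000000000010001))))

noncomputable def t758_106 : Tr := (.split (nat_lit 9) (nat_lit 0) (.split (nat_lit 9) (nat_lit 1) (.split (nat_lit 9) (nat_lit 2) (.split (nat_lit 9) (nat_lit 3) (.split (nat_lit 9) (nat_lit 4) (.split (nat_lit 9) (nat_lit 5) (.split (nat_lit 9) (nat_lit 6) (.split (nat_lit 9) (nat_lit 7) (.st (nat_lit 8) (nat_lit 1) (nat_lit 4) (nat_lit 0x54001) (nat_lit 0x1000200010000000000000000000000000001) (nat_lit 1) (nat_lit 1) (.split (nat_lit 8) (nat_lit 7) (.split (nat_lit 9) (nat_lit 8) (.split (nat_lit 8) (nat_lit 0) (.pd (.cons (nat_lit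 0) (nat_lit 5) (nat_lit 0) (nat_lit 0x8766042110) (nat_lit 0xf423fb71aea2c289896500000f423ff423fb71ae1f15600000) (.cons (nat_lit 1) (nat_lit 5) (nat_lit 0) (nat_lit 0x8087042200) (nat_lit 0xf423f65b97b71aef423f00000f423ff423fb71ae0000061a79) (.cons (nat_lit 2) (nat_lit 5) (nat_lit 0) (nat_lit 0x8087043000) (nat_lit 0xf423f65b97b71aef423f00000f423ff423f00000f423f249e8) .nil))) (.st (nat_lit 9) (nat_lit 1) (nat_lit 4) (nat_lit 0x55451) (nat_lit 0x4000600050004000300000002000100000003) (nat_lit 1) (nat_lit 2) (.split (nat_lit 5) (nat_lit 3) (.leaf (.cons (nat_lit 0x1454) (nat_lit 0x1000200000003000400030000) (.cons (nat_lit 0x554) (nat_lit 0x100010001000100010000) (.cons (nat_lit 0x1540) (nat_lit 0x1000200020001000000000000) (.cons (nat_lit 0x50015) (nat_lit 0x1000200000000000000000000000300040003) .nil)))) (.cons (nat_lit 0x111100) (nat_lit 0x1000010) (nat_lit 0x10) (nat_lit 0x102300) .nil)) (.non (nat_lit 1) (nat_lit 4) (nat_lit 0xa850) (nat_lit 0x10002000300000004000200000000))))) (.non (nat_lit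 1) (nat_lit 4) (nat_lit 0xa8001) (nat_lit 0x1000200010000000000000000000000000002))) (.non (nat_lit 1) (nat_lit 4) (nat_lit 0x94001) (nat_lit 0x1000200010000000000000000000000000001))) (.non (nat_lit 1) (nat_lit 4) (nat_lit 0xa5400) (nat_lit 0x1000200030002000100000000000000000000)))) (.non (nat_lit 1) (nat_lit 4) (nat_lit 0x54000) (nat_lit 0x1000100010000000000000000000000000000))) (.non (nat_lit 1) (nat_lit 4) (nat_lit 0x55000) (nat_lit 0x1000100010001000000000000000000000000))) (.non (nat_lit 1) (nat_lit 4) (nat_lit 0x55400) (nat_lit 0x1000100010001000100000000000000000000))) (.non (nat_lit 1) (nat_lit 6) (nat_lit 0x54500) (nat_lit 0x3000200010000000300040000000000000000))) (.non (nat_lit 1) (nat_lit 4) (nat_lit 0x55440) (nat_lit 0x1000100010001000100000001000000000000))) (.non (nat_lit 1) (nat_lit 4) (nat_lit 0x55450) (nat_lit 0x1000100010001000100000001000100000000))) (.non (nat_lit 2) (nat_lit 4) (nat_lit 0x50005) (nat_lit 0x1000100000000000000000000000000010001))) (.non (nat_lit 1) (nat_lit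 4) (nat_lit 0x50001) (nat_lit 0x1000100000000000000000000000000000001)))

noncomputable def t758_107 : Tr := (.ex (nat_lit 0) (.ex (nat_lit 1) (.pd (.cons (nat_lit 3) (nat_lit 8) (nat_lit 0) (nat_lit 0x65440100) (nat_lit 0xf423fb71aea2c280473700000f423f54591437a2) .nil) (.ex (nat_lit 8) (.split (nat_lit 8) (nat_lit 7) (.split (nat_lit 8) (nat_lit 0) (.pd (.cons (nat_lit 0) (nat_lit 5) (nat_lit 0) (nat_lit 0x766042110) (nat_lit 0xf423fb71aea2c2800000f423ff423fb71ae1f15600000) (.cons (nat_lit 1) (nat_lit 5) (nat_lit 0) (nat_lit 0x87042200) (nat_lit 0xa2c28b71aef423f00000f423ff423fb71ae0000098965) (.cons (nat_lit 2) (nat_lit 5) (nat_lit 0) (nat_lit 0x87043000) (nat_lit 0xa2c28b71aef423f00000f423ff423f00000f423f5b8d4) (.cons (nat_lit 3) (nat_lit 7) (nat_lit 0) (nat_lit 0x5440100) (nat_lit 0xf423f00000f423fb71ae1f15600000f423f5459106711) .nil)))) (.split (nat_lit 5) (nat_lit 3) (.leaf (.cons (nat_lit 0x1454) (nat_lit 0x1000200000003000400030000) (.cons (nat_lit 0x554) (nat_lit 0x100010001000100010000)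 (.cons (nat_lit 0x1540) (nat_lit 0x1000200020001000000000000) (.cons (nat_lit 0x14015) (nat_lit 0x200010000000000000000000300040003) .nil)))) (.cons (nat_lit 0x111101101) (nat_lit 0x10010) (nat_lit 5) (nat_lit 0x123405600) .nil)) (.non (nat_lit 1) (nat_lit 4) (nat_lit 0xa850) (nat_lit 0x10002000300000004000200000000)))) (.non (nat_lit 2) (nat_lit 4) (nat_lit 0x2a005) (nat_lit 0x300020001000000000000000000020004))) (.non (nat_lit 1) (nat_lit 4) (nat_lit 0x1a801) (nat_lit 0x400030002000100000000000000000002))) t758_106)) (.split (nat_lit 9) (nat_lit 0) (.split (nat_lit 9) (nat_lit 2) (.split (nat_lit 9) (nat_lit 3) (.split (nat_lit 9) (nat_lit 4) (.split (nat_lit 9) (nat_lit 5) (.split (nat_lit 9) (nat_lit 6) (.split (nat_lit 9) (nat_lit 7) (.split (nat_lit 9) (nat_lit 8) (.sup (nat_lit 0x3000000000000000000000000000300050003) (nat_lit 0x3000500040001000000000000)) (.non (nat_lit 2) (nat_lit 4) (nat_lit 0x50005) (nat_lit 0x1000100000000000000000000000000010001))) (.non (nat_lit 2) (nat_lit 4) (nat_lit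 0x54005) (nat_lit 0x1000100010000000000000000000000010001))) (.star (nat_lit 9) (nat_lit 1) (nat_lit 6))) (.non (nat_lit 1) (nat_lit 6) (nat_lit 0x40540) (nat_lit 0x1000000000000000200020001000000000000))) (.star (nat_lit 9) (nat_lit 1) (nat_lit 4))) (.non (nat_lit 1) (nat_lit 6) (nat_lit 0x40550) (nat_lit 0x1000000000000000200020002000100000000))) (.non (nat_lit 1) (nat_lit 6) (nat_lit 0x40550) (nat_lit 0x1000000000000000400030003000200000000))) (.non (nat_lit 2) (nat_lit 4) (nat_lit 0x40005) (nat_lit 0x1000000000000000000000000000000010001)))) (.split (nat_lit 9) (nat_lit 1) (.split (nat_lit 9) (nat_lit 2) (.split (nat_lit 9) (nat_lit 3) (.split (nat_lit 9) (nat_lit 4) (.split (nat_lit 9) (nat_lit 5) (.split (nat_lit 9) (nat_lit 6) (.split (nat_lit 9) (nat_lit 7) (.split (nat_lit 9) (nat_lit 8) (.sup (nat_lit 0x3000500040001000000000000) (nat_lit 0x3000300000000000000000000000300050005)) (.non (nat_lit 1) (nat_lit 4) (nat_lit 0x50001) (nat_lit 0x1000100000000000000000000000000000001))) (.non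 (nat_lit 1) (nat_lit 4) (nat_lit 0x54001) (nat_lit 0x1000100010000000000000000000000000001))) (.non (nat_lit 1) (nat_lit 4) (nat_lit 0x55001) (nat_lit 0x1000100010001000000000000000000000001))) (.non (nat_lit 1) (nat_lit 4) (nat_lit 0x55401) (nat_lit 0x1000100010001000100000000000000000001))) (.non (nat_lit 1) (nat_lit 6) (nat_lit 0x40540) (nat_lit 0x1000000000000000200020001000000000000))) (.non (nat_lit 1) (nat_lit 4) (nat_lit 0x55441) (nat_lit 0x1000100010001000100000001000000000001))) (.non (nat_lit 1) (nat_lit 4) (nat_lit 0x55451) (nat_lit 0x1000100010001000100000001000100000001))) (.non (nat_lit 2) (nat_lit 4) (nat_lit 0x40005) (nat_lit 0x1000000000000000000000000000000010001))))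

noncomputable def t758_108 : Tr := (.pd (.cons (nat_lit 1) (nat_lit 5) (nat_lit 0) (nat_lit 0x87048300) (nat_lit 0x51611b71aef423f00000f423fb71aef423f000003d085) (.cons (nat_lit 2) (nat_lit 5) (nat_lit 0) (nat_lit 0x87048000) (nat_lit 0x65b97b71aef423f00000f423ff423f00000f423f249e8) .nil)) (.ex (nat_lit 5) (.pd (.cons (nat_lit 0) (nat_lit 7) (nat_lit 0) (nat_lit 0x305442110) (nat_lit 0xf423f00000f423fb71ae1f156b71aea2c280473700000) (.cons (nat_lit 0) (nat_lit 8) (nat_lit 0) (nat_lit 0x65442110) (nat_lit 0xf423fb71aea2c2804737f423fb71ae1f15600000) (.cons (nat_lit 1) (nat_lit 7) (nat_lit 0) (nat_lit 0x5448300) (nat_lit 0xa2c2800000f423fb71ae1f156b71aef423f0000098965) (.cons (nat_lit 1) (nat_lit 8) (nat_lit 0) (nat_lit 0x65442200) (nat_lit 0xf423fb71aea2c2804737f423fb71ae00000f423f) (.cons (nat_lit 2) (nat_lit 7) (nat_lit 0) (nat_lit 0x5448000) (nat_lit 0xb71ae00000f423fb71ae1f156f423f00000f423f65b97) (.cons (nat_lit 2) (nat_lit 8) (nat_lit 0) (nat_lit 0x65443000) (nat_lit 0xf423fb71aea2c2804737f423f00000f423fb71ae)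 (.cons (nat_lit 3) (nat_lit 7) (nat_lit 0) (nat_lit 0x5440100) (nat_lit 0xf423f00000f423fb71ae1f15600000f423f5459106711) (.cons (nat_lit 3) (nat_lit 8) (nat_lit 0) (nat_lit 0x65440100) (nat_lit 0xf423fb71aea2c280473700000f423f54591437a2) .nil)))))))) (.leaf (.cons (nat_lit 0x14054) (nat_lit 0x200010000000000000003000400030000) (.cons (nat_lit 0x14015) (nat_lit 0x200010000000000000000000300040003) .nil)) .nil)) (.split (nat_lit 9) (nat_lit 0) (.split (nat_lit 9) (nat_lit 1) (.split (nat_lit 9) (nat_lit 2) (.split (nat_lit 9) (nat_lit 3) (.split (nat_lit 9) (nat_lit 4) (.split (nat_lit 9) (nat_lit 6) (.split (nat_lit 9) (nat_lit 7) (.split (nat_lit 9) (nat_lit 8) (.unj (nat_lit 0x55) (nat_lit 0x1000200020001) (nat_lit 0x41500) (nat_lit 0x1000000000001000200020000000000000000)) (.non (nat_lit 1) (nat_lit 4) (nat_lit 0x55400) (nat_lit 0x1000100010001000100000000000000000000))) (.non (nat_lit 1) (nat_lit 4) (nat_lit 0x45400) (nat_lit 0x1000000010001000100000000000000000000))) (.non (nat_lit 1) (nat_lit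 4) (nat_lit 0x41400) (nat_lit 0x1000000000001000100000000000000000000))) (.non (nat_lit 1) (nat_lit 6) (nat_lit 0x40500) (nat_lit 0x1000000000000000100010000000000000000))) (.non (nat_lit 1) (nat_lit 4) (nat_lit 0x55440) (nat_lit 0x1000100010001000100000001000000000000))) (.non (nat_lit 1) (nat_lit 4) (nat_lit 0x55450) (nat_lit 0x1000100010001000100000001000100000000))) (.non (nat_lit 2) (nat_lit 4) (nat_lit 0x55405) (nat_lit 0x1000100010001000100000000000000010001))) (.non (nat_lit 1) (nat_lit 4) (nat_lit 0x55401) (nat_lit 0x1000100010001000100000000000000000001)))))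

noncomputable def t758_109 : Tr := (.split (nat_lit 5) (nat_lit 3) (.st (nat_lit 0) (nat_lit 1) (nat_lit 4) (nat_lit 0x15051) (nat_lit 0x300020001000000000002000100000002) (nat_lit 1) (nat_lit 1) (.st (nat_lit 1) (nat_lit 2) (nat_lit 4) (nat_lit 0x15445) (nat_lit 0x400030002000100000002000000020003) (nat_lit 1) (nat_lit 1) (.st (nat_lit 2) (nat_lit 1) (nat_lit 4) (nat_lit 0x15451) (nat_lit 0x400030002000100000003000200000002) (nat_lit 1) (nat_lit 1) (.st (nat_lit 3) (nat_lit 1) (nat_lit 4) (nat_lit 0x14051) (nat_lit 0x200010000000000000002000100000001) (nat_lit 1) (nat_lit 1) (.st (nat_lit 6) (nat_lit 1) (nat_lit 4) (nat_lit 0x15441) (nat_lit 0x200020002000100000001000000000001) (nat_lit 1) (nat_lit 1) (.st (nat_lit 7) (nat_lit 1) (nat_lit 4) (nat_lit 0x15041) (nat_lit 0x200020001000000000001000000000001) (nat_lit 1) (nat_lit 1) (.st (nat_lit 8) (nat_lit 1) (nat_lit 4) (nat_lit 0x14041) (nat_lit 0x200010000000000000001000000000001) (nat_lit 1) (nat_lit 1) (.ex (nat_lit 4) (.split (nat_lit 8)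 (nat_lit 0) (.split (nat_lit 8) (nat_lit 3) (.split (nat_lit 8) (nat_lit 7) t758_108 (.non (nat_lit 1) (nat_lit 4) (nat_lit 0x1a840) (nat_lit 0x400030002000100000002000000000000))) (.non (nat_lit 1) (nat_lit 4) (nat_lit 0x2a050) (nat_lit 0x300020001000000000004000200000000))) (.non (nat_lit 1) (nat_lit 4) (nat_lit 0x28081) (nat_lit 0x200010000000000000001000000000002))) (.split (nat_lit 9) (nat_lit 0) (.split (nat_lit 9) (nat_lit 1) (.split (nat_lit 9) (nat_lit 2) (.split (nat_lit 9) (nat_lit 3) (.split (nat_lit 9) (nat_lit 5) (.split (nat_lit 9) (nat_lit 6) (.split (nat_lit 9) (nat_lit 7) (.split (nat_lit 9) (nat_lit 8) (.unj (nat_lit 0x55) (nat_lit 0x1000200020001) (nat_lit 0x41500) (nat_lit 0x1000000000001000200020000000000000000)) (.non (nat_lit 1) (nat_lit 4) (nat_lit 0x54041) (nat_lit 0x1000200010000000000000001000000000001))) (.non (nat_lit 1) (nat_lit 4) (nat_lit 0x55041) (nat_lit 0x1000200020001000000000001000000000001))) (.non (nat_lit 1) (nat_lit 4) (nat_lit 0x55441) (nat_lit 0x1000200020002000100000001000000000001)))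 (.non (nat_lit 1) (nat_lit 6) (nat_lit 0x40500) (nat_lit 0x1000000000000000100010000000000000000))) (.non (nat_lit 1) (nat_lit 4) (nat_lit 0x54051) (nat_lit 0x1000200010000000000000002000100000001))) (.star (nat_lit 9) (nat_lit 2) (nat_lit 4))) (.star (nat_lit 9) (nat_lit 1) (nat_lit 4))) (.non (nat_lit 1) (nat_lit 4) (nat_lit 0x55051) (nat_lit 0x1000300020001000000000002000100000002))))))))))) (.non (nat_lit 1) (nat_lit 4) (nat_lit 0x15440) (nat_lit 0x100010001000100000001000000000000)))

noncomputable def t758_110 : Tr := (.split (nat_lit 8) (nat_lit 7) (.pd (.cons (nat_lit 1) (nat_lit 5) (nat_lit 0) (nat_lit 0x87042800) (nat_lit 0x51611b71aef423f00000f423ff423fb71ae000003d085) (.cons (nat_lit 2) (nat_lit 5) (nat_lit 0) (nat_lit 0x87043000) (nat_lit 0xa2c28b71aef423f00000f423ff423f00000f423f5b8d4) .nil)) (.ex (nat_lit 5) (.pd (.cons (nat_lit 0) (nat_lit 8) (nat_lit 0) (nat_lit 0x65442110) (nat_lit 0xf423fb71aea2c2804737f423fb71ae1f15600000) (.cons (nat_lit 1) (nat_lit 7) (nat_lit 0) (nat_lit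 0x5442800) (nat_lit 0xa2c2800000f423fb71ae1f156f423fb71ae0000098965) (.cons (nat_lit 1) (nat_lit 8) (nat_lit 0) (nat_lit 0x65442200) (nat_lit 0xf423fb71aea2c2804737f423fb71ae00000f423f) (.cons (nat_lit 2) (nat_lit 7) (nat_lit 0) (nat_lit 0x5443000) (nat_lit 0xf423f00000f423fb71ae1f156f423f00000f423f7a11d) (.cons (nat_lit 2) (nat_lit 8) (nat_lit 0) (nat_lit 0x65443000) (nat_lit 0xf423fb71aea2c2804737f423f00000f423fb71ae) (.cons (nat_lit 3) (nat_lit 8) (nat_lit 0) (nat_lit 0x65440100) (nat_lit 0xf423fb71aea2c280473700000f423f54591437a2) .nil)))))) (.leaf (.cons (nat_lit 0x15014) (nat_lit 0x300020001000000000000000400030000) (.cons (nat_lit 0x10054) (nat_lit 0x100000000000000000001000200020000) (.cons (nat_lit 0x10015) (nat_lit 0x100000000000000000000000100010001) .nil))) .nil)) (.split (nat_lit 9) (nat_lit 0) (.split (nat_lit 9) (nat_lit 1) (.split (nat_lit 9) (nat_lit 2) (.split (nat_lit 9) (nat_lit 3) (.split (nat_lit 9) (nat_lit 4) (.split (nat_lit 9) (nat_lit 6) (.split (nat_lit 9) (nat_lit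 7) (.split (nat_lit 9) (nat_lit 8) (.unj (nat_lit 0x55) (nat_lit 0x1000200020001) (nat_lit 0x41500) (nat_lit 0x1000000000001000200020000000000000000)) (.non (nat_lit 1) (nat_lit 4) (nat_lit 0x55400) (nat_lit 0x1000100010001000100000000000000000000))) (.non (nat_lit 1) (nat_lit 4) (nat_lit 0x45400) (nat_lit 0x1000000010001000100000000000000000000))) (.non (nat_lit 1) (nat_lit 4) (nat_lit 0x41400) (nat_lit 0x1000000000001000100000000000000000000))) (.non (nat_lit 1) (nat_lit 6) (nat_lit 0x40500) (nat_lit 0x1000000000000000100010000000000000000))) (.non (nat_lit 1) (nat_lit 4) (nat_lit 0x55450) (nat_lit 0x1000100010001000100000001000100000000))) (.non (nat_lit 1) (nat_lit 4) (nat_lit 0x55410) (nat_lit 0x1000100010001000100000000000100000000))) (.non (nat_lit 2) (nat_lit 4) (nat_lit 0x55405) (nat_lit 0x1000100010001000100000000000000010001))) (.non (nat_lit 1) (nat_lit 4) (nat_lit 0x55401) (nat_lit 0x1000100010001000100000000000000000001))))) (.non (nat_lit 1) (nat_lit 4) (nat_lit 0x1a810) (nat_lit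 0x400030002000100000000000200000000)))

noncomputable def t758_111 : Tr := (.ex (nat_lit 1) (.ex (nat_lit 4) (.split (nat_lit 8) (nat_lit 0) (.split (nat_lit 8) (nat_lit 2) t758_110 (.non (nat_lit 1) (nat_lit 4) (nat_lit 0x2a050) (nat_lit 0x300020001000000000002000400000000))) (.non (nat_lit 1) (nat_lit 4) (nat_lit 0x28021) (nat_lit 0x200010000000000000000000100000002))) (.split (nat_lit 9) (nat_lit 0) (.split (nat_lit 9) (nat_lit 1) (.split (nat_lit 9) (nat_lit 2) (.split (nat_lit 9) (nat_lit 3) (.split (nat_lit 9) (nat_lit 5) (.split (nat_lit 9) (nat_lit 6) (.split (nat_lit 9) (nat_lit 7) (.split (nat_lit 9) (nat_lit 8) (.unj (nat_lit 0x55) (nat_lit 0x1000200020001) (nat_lit 0x41500) (nat_lit 0x1000000000001000200020000000000000000)) (.non (nat_lit 1) (nat_lit 4) (nat_lit 0x54011) (nat_lit 0x1000200010000000000000000000100000001))) (.non (nat_lit 1) (nat_lit 4) (nat_lit 0x55011) (nat_lit 0x1000200020001000000000000000100000001))) (.non (nat_lit 1) (nat_lit 4) (nat_lit 0x55411) (nat_lit 0x1000200020002000100000000000100000001)))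 (.non (nat_lit 1) (nat_lit 6) (nat_lit 0x40500) (nat_lit 0x1000000000000000100010000000000000000))) (.non (nat_lit 1) (nat_lit 4) (nat_lit 0x55451) (nat_lit 0x1000400030002000100000002000300000002))) (.star (nat_lit 9) (nat_lit 2) (nat_lit 4))) (.star (nat_lit 9) (nat_lit 1) (nat_lit 4))) (.non (nat_lit 1) (nat_lit 4) (nat_lit 0x55051) (nat_lit 0x1000300020001000000000001000200000002)))) (.split (nat_lit 9) (nat_lit 0) (.split (nat_lit 9) (nat_lit 2) (.split (nat_lit 9) (nat_lit 3) (.split (nat_lit 9) (nat_lit 4) (.split (nat_lit 9) (nat_lit 5) (.split (nat_lit 9) (nat_lit 6) (.split (nat_lit 9) (nat_lit 7) (.split (nat_lit 9) (nat_lit 8) (.split (nat_lit 9) (nat_lit 1) (.split (nat_lit 8) (nat_lit 0) (.split (nat_lit 8) (nat_lit 2) (.sup (nat_lit 0x10006000b0010000d0000000000000000) (nat_lit 0x2000000000000000000000001000200030001)) (.non (nat_lit 1) (nat_lit 4) (nat_lit 0x2a050) (nat_lit 0x300020001000000000002000400000000))) (.non (nat_lit 1) (nat_lit 4) (nat_lit 0x28021) (nat_lit 0x200010000000000000000000100000002)))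 (.split (nat_lit 9) (nat_lit 1) (.split (nat_lit 8) (nat_lit 0) (.split (nat_lit 8) (nat_lit 2) (.sup (nat_lit 0x70000000000000000000000000006000a0000) (nat_lit 0x100040007000a00080000000000000000)) (.non (nat_lit 1) (nat_lit 4) (nat_lit 0x2a050) (nat_lit 0x300020001000000000002000400000000))) (.non (nat_lit 1) (nat_lit 4) (nat_lit 0x28021) (nat_lit 0x200010000000000000000000100000002))) (.non (nat_lit 2) (nat_lit 4) (nat_lit 0x54005) (nat_lit 0x3000200010000000000000000000000040003)))) (.non (nat_lit 1) (nat_lit 4) (nat_lit 0x54011) (nat_lit 0x1000200010000000000000000000100000001))) (.non (nat_lit 1) (nat_lit 4) (nat_lit 0x55011) (nat_lit 0x1000200020001000000000000000100000001))) (.star (nat_lit 9) (nat_lit 1) (nat_lit 6))) (.non (nat_lit 2) (nat_lit 4) (nat_lit 0x55405) (nat_lit 0x1000100010001000100000000000000010001))) (.star (nat_lit 9) (nat_lit 1) (nat_lit 4))) (.non (nat_lit 1) (nat_lit 4) (nat_lit 0x55451) (nat_lit 0x1000400030002000100000002000300000002))) (.non (nat_lit 1) (nat_lit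 4) (nat_lit 0x54051) (nat_lit 0x1000200010000000000000001000200000001))) (.non (nat_lit 1) (nat_lit 4) (nat_lit 0x55051) (nat_lit 0x1000300020001000000000001000200000002))))

noncomputable def t758 : Tr := (.split (nat_lit 8) (nat_lit 0) t758_105 (.split (nat_lit 8) (nat_lit 1) (.split (nat_lit 7) (nat_lit 0) (.split (nat_lit 7) (nat_lit 3) (.split (nat_lit 5) (nat_lit 0) (.split (nat_lit 8) (nat_lit 2) (.split (nat_lit 8) (nat_lit 3) (.split (nat_lit 5) (nat_lit 3) (.sup (nat_lit 0x5000a00090002) (nat_lit 0x100040007000a00080000000000000000)) (.st (nat_lit 2) (nat_lit 1) (nat_lit 6) (nat_lit 0x550) (nat_lit 0x400030003000200000000) (nat_lit 1) (nat_lit 1) (.st (nat_lit 3) (nat_lit 1) (nat_lit 6) (nat_lit 0x550) (nat_lit 0x200020002000100000000) (nat_lit 1) (nat_lit 1) (.st (nat_lit 4) (nat_lit 1) (nat_lit 6) (nat_lit 0x540) (nat_lit 0x200020001000000000000) (nat_lit 1) (nat_lit 1) (.st (nat_lit 5) (nat_lit 1) (nat_lit 6) (nat_lit 0x540) (nat_lit 0x200020001000000000000) (nat_lit 1) (nat_lit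 1) (.st (nat_lit 6) (nat_lit 1) (nat_lit 4) (nat_lit 0x15451) (nat_lit 0x200030004000300000002000100000001) (nat_lit 1) (nat_lit 2) (.st (nat_lit 7) (nat_lit 2) (nat_lit 4) (nat_lit 0x15445) (nat_lit 0x300040003000200000001000000010002) (nat_lit 1) (nat_lit 2) t758_107))))))) t758_109) (.split (nat_lit 8) (nat_lit 3) (.split (nat_lit 5) (nat_lit 3) (.st (nat_lit 0) (nat_lit 1) (nat_lit 4) (nat_lit 0x15051) (nat_lit 0x300020001000000000001000200000002) (nat_lit 1) (nat_lit 1) (.st (nat_lit 2) (nat_lit 1) (nat_lit 4) (nat_lit 0x14051) (nat_lit 0x200010000000000000001000200000001) (nat_lit 1) (nat_lit 1) (.st (nat_lit 3) (nat_lit 1) (nat_lit 4) (nat_lit 0x15451) (nat_lit 0x400030002000100000002000300000002) (nat_lit 1) (nat_lit 1) (.st (nat_lit 6) (nat_lit 1) (nat_lit 4) (nat_lit 0x15411) (nat_lit 0x200020002000100000000000100000001) (nat_lit 1) (nat_lit 1) (.st (nat_lit 7) (nat_lit 1) (nat_lit 4) (nat_lit 0x15011) (nat_lit 0x200020001000000000000000100000001) (nat_lit 1) (nat_lit 1) (.st (nat_lit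 8) (nat_lit 1) (nat_lit 4) (nat_lit 0x14011) (nat_lit 0x200010000000000000000000100000001) (nat_lit 1) (nat_lit 1) t758_111)))))) (.non (nat_lit 1) (nat_lit 4) (nat_lit 0x15450) (nat_lit 0x100010001000100000001000100000000))) (.non (nat_lit 1) (nat_lit 4) (nat_lit 0x10050) (nat_lit 0x100000000000000000001000100000000)))) (.non (nat_lit 1) (nat_lit 4) (nat_lit 0x15401) (nat_lit 0x100010001000100000000000000000001))) (.non (nat_lit 1) (nat_lit 4) (nat_lit 0x15451) (nat_lit 0x200030002000100000002000100000001))) (.non (nat_lit 1) (nat_lit 4) (nat_lit 0x14001) (nat_lit 0x100010000000000000000000000000001))) (.non (nat_lit 2) (nat_lit 4) (nat_lit 0x10005) (nat_lit 0x100000000000000000000000000010001))))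

noncomputable def D9 : RL := (.cons (nat_lit 0x222222222222222222222222222222222222222222222222222222222222222222222222222222222222222222222222222222222222222222222222b222aaaa2222222b2322a22a2222222232322222222222222325a22a22222222225222222222222aa2a223222222222a222232522222222a222225232222222aa2a22232) t758 .nil)

theorem cov_D9 : Cov 758 759 := by
  have h1 : rl D9 (nat_lit 758) = true := by decide +kernel
  have h2 : 758 + rlen D9 = 759 := by decide +kernel
  exact cov_of h1 h2

end MP86a502
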