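import Pool.Agent.Lib.MP_86a502_gt.U.Rlc
import Pool.Agent.Lib.MP_86a502_gt.U.D02

set_option autoImplicit false
set_option maxRecDepth 1000000
set_option linter.all false

/-! Certificates, numbers 762 to 808. -/

namespace MP86a502

noncomputable def t762_1 : Tr := (.ex (nat_lit 2) (.pd (.cons (nat_lit 0) (nat_lit 7) (nat_lit 0) (nat_lit 0x305442110) (nat_lit 0xf423f00000f423fb71ae1f156b71aea2c280473700000) (.cons (nat_lit 3) (nat_lit 7) (nat_lit 0) (nat_lit 0x5440100) (nat_lit 0xf423f00000f423fb71ae1f15600000f423f5459106711) .nil)) (.ex (nat_lit 6) (.pd (.cons (nat_lit 0) (nat_lit 8) (nat_lit 0) (nat_lit 0x65442110) (nat_lit 0xf423fb71aea2c2804737f423fb71ae1f15600000) (.cons (nat_lit 1) (nat_lit 4) (nat_lit 0) (nat_lit 0x87608300) (nat_lit 0x4734ea2c28b71aef423f00000b71aef423f0000022dfa) (.cons (nat_lit 1) (nat_lit 8) (nat_lit 0) (nat_lit 0x65442200) (nat_lit 0xf423fb71aea2c2804737f423fb71ae00000f423f) (.cons (nat_lit 2) (nat_lit 4) (nat_lit 0) (nat_lit 0x87608000) (nat_lit 0x5b8d4a2c28b71aef423f00000f423f00000f423f1457c)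 (.cons (nat_lit 2) (nat_lit 8) (nat_lit 0) (nat_lit 0x65443000) (nat_lit 0xf423fb71aea2c2804737f423f00000f423fb71ae) (.cons (nat_lit 3) (nat_lit 8) (nat_lit 0) (nat_lit 0x65440100) (nat_lit 0xf423fb71aea2c280473700000f423f54591437a2) .nil)))))) (.leaf (.cons (nat_lit 0x14054) (nat_lit 0x200010000000000000003000400030000) (.cons (nat_lit 0x14015) (nat_lit 0x200010000000000000000000300040003) .nil)) .nil)) (.split (nat_lit 9) (nat_lit 0) (.split (nat_lit 9) (nat_lit 1) (.split (nat_lit 9) (nat_lit 2) (.split (nat_lit 9) (nat_lit 3) (.split (nat_lit 9) (nat_lit 4) (.split (nat_lit 9) (nat_lit 5) (.split (nat_lit 9) (nat_lit 7) (.split (nat_lit 9) (nat_lit 8) (.unj (nat_lit 0x55) (nat_lit 0x1000200020001) (nat_lit 0x45500) (nat_lit 0x1000000010002000200020000000000000000)) (.non (nat_lit 1) (nat_lit 5) (nat_lit 0x55000) (nat_lit 0x1000100010001000000000000000000000000))) (.non (nat_lit 1) (nat_lit 5) (nat_lit 0x45000) (nat_lit 0x1000000010001000000000000000000000000))) (.non (nat_lit 1) (nat_lit 7) (nat_lit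 0x41400) (nat_lit 0x1000000000001000100000000000000000000))) (.non (nat_lit 1) (nat_lit 7) (nat_lit 0x41500) (nat_lit 0x1000000000001000100010000000000000000))) (.non (nat_lit 1) (nat_lit 5) (nat_lit 0x55040) (nat_lit 0x1000100010001000000000001000000000000))) (.non (nat_lit 1) (nat_lit 5) (nat_lit 0x55050) (nat_lit 0x1000100010001000000000001000100000000))) (.non (nat_lit 2) (nat_lit 5) (nat_lit 0x55005) (nat_lit 0x1000100010001000000000000000000010001))) (.non (nat_lit 1) (nat_lit 5) (nat_lit 0x55001) (nat_lit 0x1000100010001000000000000000000000001))))) (.split (nat_lit 9) (nat_lit 0) (.split (nat_lit 9) (nat_lit 3) (.split (nat_lit 9) (nat_lit 4) (.split (nat_lit 9) (nat_lit 5) (.split (nat_lit 9) (nat_lit 6) (.split (nat_lit 9) (nat_lit 7) (.split (nat_lit 9) (nat_lit 8) (.split (nat_lit 9) (nat_lit 1) (.sup (nat_lit 0x5000000000000000000000000000a00090002) (nat_lit 0x100040007000a00080000000000000000)) (.unj (nat_lit 0x40014) (nat_lit 0x1000000000000000000000000000100010000) (nat_lit 0x15500)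 (nat_lit 0x100020003000400030000000000000000))) (.non (nat_lit 1) (nat_lit 5) (nat_lit 0x50050) (nat_lit 0x1000100000000000000000001000100000000))) (.star (nat_lit 9) (nat_lit 2) (nat_lit 7))) (.non (nat_lit 1) (nat_lit 5) (nat_lit 0x55050) (nat_lit 0x1000100010001000000000001000100000000))) (.star (nat_lit 9) (nat_lit 2) (nat_lit 5))) (.non (nat_lit 1) (nat_lit 7) (nat_lit 0x41500) (nat_lit 0x1000000000001000200020000000000000000))) (.non (nat_lit 1) (nat_lit 5) (nat_lit 0x40050) (nat_lit 0x1000000000000000000000001000100000000))) (.non (nat_lit 1) (nat_lit 5) (nat_lit 0x50051) (nat_lit 0x1000100000000000000000001000100000001))))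

noncomputable def t762_2 : Tr := (.split (nat_lit 8) (nat_lit 0) (.split (nat_lit 8) (nat_lit 3) .uj (.sup (nat_lit 0x20009000a0005) (nat_lit 0x100040007000a00080000000000000000))) (.split (nat_lit 8) (nat_lit 3) (.sup (nat_lit 0x5000a00090002) (nat_lit 0x100040007000a00080000000000000000)) (.st (nat_lit 0) (nat_lit 1) (nat_lit 5) (nat_lit 0x15051) (nat_lit 0x300020001000000000002000100000002) (nat_lit 1) (nat_lit 1) (.st (nat_lit 3) (nat_lit 1) (nat_lit 5) (nat_lit 0x14051) (nat_lit 0x200010000000000000002000100000001) (nat_lit 1) (nat_lit 1) (.st (nat_lit 7) (nat_lit 1) (nat_lit 5) (nat_lit 0x15041) (nat_lit 0x200020001000000000001000000000001) (nat_lit 1) (nat_lit 1) (.st (nat_lit 8) (nat_lit 1) (nat_lit 5) (nat_lit 0x14041) (nat_lit 0x200010000000000000001000000000001) (nat_lit 1) (nat_lit 1) (.split (nat_lit 8) (nat_lit 0) (.split (nat_lit 8) (nat_lit 3) (.split (nat_lit 8) (nat_lit 7) (.pd (.cons (nat_lit 1) (nat_lit 6) (nat_lit 0) (nat_lit 0x80448300) (nat_lit 0x65b97f423f00000f423f54591b71aef423f0000061a79)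 (.cons (nat_lit 2) (nat_lit 6) (nat_lit 0) (nat_lit 0x80448000) (nat_lit 0x7a11df423f00000f423f54591f423f00000f423f3d08a) .nil)) (.ex (nat_lit 1) t762_1 (.split (nat_lit 9) (nat_lit 0) (.split (nat_lit 9) (nat_lit 3) (.split (nat_lit 9) (nat_lit 4) (.split (nat_lit 9) (nat_lit 5) (.split (nat_lit 9) (nat_lit 6) (.split (nat_lit 9) (nat_lit 7) (.split (nat_lit 9) (nat_lit 8) (.split (nat_lit 9) (nat_lit 2) (.sup (nat_lit 0x3000000000000000000000000000400050001) (nat_lit 0x100020003000500040000000000000000)) (.unj (nat_lit 0x40014) (nat_lit 0x1000000000000000000000000000100010000) (nat_lit 0x15500) (nat_lit 0x100020003000400030000000000000000))) (.non (nat_lit 1) (nat_lit 5) (nat_lit 0x54041) (nat_lit 0x1000200010000000000000001000000000001))) (.star (nat_lit 9) (nat_lit 1) (nat_lit 7))) (.non (nat_lit 2) (nat_lit 5) (nat_lit 0x55005) (nat_lit 0x1000100010001000000000000000000010001))) (.star (nat_lit 9) (nat_lit 1) (nat_lit 5))) (.non (nat_lit 1) (nat_lit 7) (nat_lit 0x41500) (nat_lit 0x1000000000001000200020000000000000000)))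 (.non (nat_lit 1) (nat_lit 5) (nat_lit 0x54051) (nat_lit 0x1000200010000000000000002000100000001))) (.non (nat_lit 1) (nat_lit 5) (nat_lit 0x55051) (nat_lit 0x1000300020001000000000002000100000002))))) (.non (nat_lit 1) (nat_lit 5) (nat_lit 0x1a050) (nat_lit 0x300020001000000000002000100000000))) (.non (nat_lit 1) (nat_lit 5) (nat_lit 0x2a050) (nat_lit 0x300020001000000000004000200000000))) (.non (nat_lit 1) (nat_lit 5) (nat_lit 0x28081) (nat_lit 0x200010000000000000001000000000002)))))))))

noncomputable def t762 : Tr := (.split (nat_lit 6) (nat_lit 0) (.split (nat_lit 6) (nat_lit 3) t762_2 (.non (nat_lit 1) (nat_lit 7) (nat_lit 0x1550) (nat_lit 0x3000400030002000100000000))) (.non (nat_lit 2) (nat_lit 7) (nat_lit 0x1505) (nat_lit 0x3000400030000000000010002)))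

noncomputable def t764_1 : Tr := (.ex (nat_lit 6) (.ex (nat_lit 7) (.split (nat_lit 8) (nat_lit 7) (.pd (.cons (nat_lit 0) (nat_lit 8) (nat_lit 0) (nat_lit 0x65442110) (nat_lit 0xf423fb71aea2c2804737f423fb71ae1f15600000) (.cons (nat_lit 1) (nat_lit 4) (nat_lit 0) (nat_lit 0x87608300) (nat_lit 0x4734ea2c28b71aef423f00000b71aef423f0000022dfa) (.cons (nat_lit 1) (nat_lit 5) (nat_lit 0) (nat_lit 0x87048300) (nat_lit 0x51611b71aef423f00000f423fb71aef423f000003d085) (.cons (nat_lit 1) (nat_lit 8) (nat_lit 0) (nat_lit 0x65442200) (nat_lit 0xf423fb71aea2c2804737f423fb71ae00000f423f) (.cons (nat_lit 2) (nat_lit 4) (nat_lit 0) (nat_lit 0x87608000) (nat_lit 0x5b8d4a2c28b71aef423f00000f423f00000f423f1457c) (.cons (nat_lit 2) (nat_lit 5) (nat_lit 0) (nat_lit 0x87048000) (nat_lit 0x65b97b71aef423f00000f423ff423f00000f423f249e8) (.cons (nat_lit 2) (nat_lit 8) (nat_lit 0) (nat_lit 0x65443000) (nat_lit 0xf423fb71aea2c2804737f423f00000f423fb71ae) (.cons (nat_lit 3) (nat_lit 8) (nat_lit 0) (nat_lit 0x65440100) (nat_lit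 0xf423fb71aea2c280473700000f423f54591437a2) .nil)))))))) (.leaf (.cons (nat_lit 0x14054) (nat_lit 0x200010000000000000003000400030000) (.cons (nat_lit 0x14015) (nat_lit 0x200010000000000000000000300040003) .nil)) .nil)) (.non (nat_lit 1) (nat_lit 6) (nat_lit 0x18041) (nat_lit 0x200010000000000000001000000000001))) (.split (nat_lit 9) (nat_lit 0) (.split (nat_lit 9) (nat_lit 1) (.split (nat_lit 9) (nat_lit 2) (.split (nat_lit 9) (nat_lit 3) (.split (nat_lit 9) (nat_lit 4) (.split (nat_lit 9) (nat_lit 5) (.split (nat_lit 9) (nat_lit 8) (.split (nat_lit 9) (nat_lit 6) (.unj (nat_lit 0x55) (nat_lit 0x1000200020001) (nat_lit 0x45500) (nat_lit 0x1000000020003000400030000000000000000)) (.unj (nat_lit 0x45000) (nat_lit 0x1000000010001000000000000000000000000) (nat_lit 0x55) (nat_lit 0x1000200020001))) (.non (nat_lit 1) (nat_lit 6) (nat_lit 0x54000) (nat_lit 0x1000100010000000000000000000000000000))) (.non (nat_lit 1) (nat_lit 6) (nat_lit 0x54500) (nat_lit 0x3000100020000000400030000000000000000))) (.non (nat_lit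 1) (nat_lit 6) (nat_lit 0x54500) (nat_lit 0x3000100020000000300040000000000000000))) (.non (nat_lit 1) (nat_lit 6) (nat_lit 0x54040) (nat_lit 0x1000100010000000000000001000000000000))) (.star (nat_lit 9) (nat_lit 2) (nat_lit 7))) (.star (nat_lit 9) (nat_lit 1) (nat_lit 7))) (.non (nat_lit 1) (nat_lit 6) (nat_lit 0x54001) (nat_lit 0x1000100010000000000000000000000000001)))) (.split (nat_lit 9) (nat_lit 0) (.split (nat_lit 9) (nat_lit 1) (.split (nat_lit 9) (nat_lit 2) (.split (nat_lit 9) (nat_lit 3) (.split (nat_lit 9) (nat_lit 4) (.split (nat_lit 9) (nat_lit 5) (.split (nat_lit 9) (nat_lit 8) (.split (nat_lit 9) (nat_lit 7) (.unj (nat_lit 0x55) (nat_lit 0x1000200020001) (nat_lit 0x45500) (nat_lit 0x1000000010002000200020000000000000000)) (.unj (nat_lit 0x45000) (nat_lit 0x1000000010001000000000000000000000000) (nat_lit 0x55) (nat_lit 0x1000200020001))) (.non (nat_lit 1) (nat_lit 6) (nat_lit 0x54041) (nat_lit 0x1000200010000000000000001000000000001))) (.non (nat_lit 1) (nat_lit 7) (nat_lit 0x41400)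 (nat_lit 0x1000000000001000100000000000000000000))) (.non (nat_lit 1) (nat_lit 7) (nat_lit 0x41500) (nat_lit 0x1000000000001000100010000000000000000))) (.non (nat_lit 1) (nat_lit 6) (nat_lit 0x54051) (nat_lit 0x1000200010000000000000002000100000001))) (.star (nat_lit 9) (nat_lit 2) (nat_lit 6))) (.star (nat_lit 9) (nat_lit 1) (nat_lit 6))) (.non (nat_lit 1) (nat_lit 7) (nat_lit 0x41501) (nat_lit 0x2000000000003000400030000000000000001))))

noncomputable def t764_2 : Tr := (.ex (nat_lit 1) (.ex (nat_lit 2) (.split (nat_lit 8) (nat_lit 3) (.split (nat_lit 8) (nat_lit 0) (.pd (.cons (nat_lit 0) (nat_lit 7) (nat_lit 0) (nat_lit 0x305442110) (nat_lit 0xf423f00000f423fb71ae1f156b71aea2c280473700000) (.cons (nat_lit 3) (nat_lit 7) (nat_lit 0) (nat_lit 0x5440100) (nat_lit 0xf423f00000f423fb71ae1f15600000f423f5459106711) .nil)) t764_1) (.non (nat_lit 1) (nat_lit 6) (nat_lit 0x28081) (nat_lit 0x200010000000000000001000000000002))) (.non (nat_lit 1) (nat_lit 6) (nat_lit 0x14081) (nat_lit 0x200010000000000000001000000000001)))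 (.split (nat_lit 9) (nat_lit 0) (.split (nat_lit 9) (nat_lit 3) (.split (nat_lit 9) (nat_lit 4) (.split (nat_lit 9) (nat_lit 5) (.split (nat_lit 9) (nat_lit 6) (.split (nat_lit 9) (nat_lit 7) (.split (nat_lit 9) (nat_lit 8) (.split (nat_lit 9) (nat_lit 1) (.sup (nat_lit 0x5000000000000000000000000000a00090002) (nat_lit 0x100040007000a00080000000000000000)) (.unj (nat_lit 0x40014) (nat_lit 0x1000000000000000000000000000100010000) (nat_lit 0x15500) (nat_lit 0x100020003000400030000000000000000))) (.non (nat_lit 1) (nat_lit 6) (nat_lit 0x50050) (nat_lit 0x1000100000000000000000001000100000000))) (.star (nat_lit 9) (nat_lit 2) (nat_lit 7))) (.star (nat_lit 9) (nat_lit 2) (nat_lit 6))) (.non (nat_lit 1) (nat_lit 6) (nat_lit 0x40550) (nat_lit 0x3000000000000000400030001000200000000))) (.non (nat_lit 1) (nat_lit 6) (nat_lit 0x40550) (nat_lit 0x3000000000000000300040001000200000000))) (.non (nat_lit 1) (nat_lit 6) (nat_lit 0x40050) (nat_lit 0x1000000000000000000000001000100000000))) (.non (nat_lit 1) (nat_lit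 6) (nat_lit 0x50051) (nat_lit 0x1000100000000000000000001000100000001)))) (.split (nat_lit 9) (nat_lit 0) (.split (nat_lit 9) (nat_lit 3) (.split (nat_lit 9) (nat_lit 4) (.split (nat_lit 9) (nat_lit 5) (.split (nat_lit 9) (nat_lit 6) (.split (nat_lit 9) (nat_lit 7) (.split (nat_lit 9) (nat_lit 8) (.split (nat_lit 9) (nat_lit 2) (.sup (nat_lit 0x50000000000000000000000000008000a0002) (nat_lit 0x100040007000a00080000000000000000)) (.unj (nat_lit 0x40014) (nat_lit 0x1000000000000000000000000000100010000) (nat_lit 0x15500) (nat_lit 0x100020003000400030000000000000000))) (.non (nat_lit 1) (nat_lit 6) (nat_lit 0x54041) (nat_lit 0x1000200010000000000000001000000000001))) (.star (nat_lit 9) (nat_lit 1) (nat_lit 7))) (.star (nat_lit 9) (nat_lit 1) (nat_lit 6))) (.non (nat_lit 1) (nat_lit 7) (nat_lit 0x41500) (nat_lit 0x1000000000001000200020000000000000000))) (.non (nat_lit 1) (nat_lit 7) (nat_lit 0x41500) (nat_lit 0x1000000000001000200020000000000000000))) (.non (nat_lit 1) (nat_lit 6) (nat_lit 0x54051) (nat_lit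 0x1000200010000000000000002000100000001))) (.non (nat_lit 2) (nat_lit 6) (nat_lit 0x40005) (nat_lit 0x1000000000000000000000000000000010001))))

noncomputable def t764 : Tr := (.split (nat_lit 8) (nat_lit 0) (.split (nat_lit 8) (nat_lit 3) .uj (.sup (nat_lit 0x20009000a0005) (nat_lit 0x100040007000a00080000000000000000))) (.split (nat_lit 8) (nat_lit 3) (.sup (nat_lit 0x5000a00090002) (nat_lit 0x100040007000a00080000000000000000)) (.st (nat_lit 0) (nat_lit 2) (nat_lit 6) (nat_lit 0x14045) (nat_lit 0x200010000000000000001000000010002) (nat_lit 1) (nat_lit 1) (.st (nat_lit 3) (nat_lit 1) (nat_lit 6) (nat_lit 0x14051) (nat_lit 0x200010000000000000002000100000001) (nat_lit 1) (nat_lit 1) (.st (nat_lit 8) (nat_lit 1) (nat_lit 6) (nat_lit 0x14041) (nat_lit 0x200010000000000000001000000000001) (nat_lit 1) (nat_lit 1) t764_2)))))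

noncomputable def t767_1 : Tr := (.ex (nat_lit 5) (.split (nat_lit 7) (nat_lit 2) (.split (nat_lit 7) (nat_lit 1) (.pd (.cons (nat_lit 1) (nat_lit 6) (nat_lit 0) (nat_lit 0x820442200) (nat_lit 0xf423ff423f00000f423f54591f423f7a11d00000f423f) (.cons (nat_lit 2) (nat_lit 6) (nat_lit 0) (nat_lit 0x810443000) (nat_lit 0xf423ff423f00000f423f54591f423f00000b71aea2c28) .nil)) (.ex (nat_lit 8) (.pd (.cons (nat_lit 0) (nat_lit 7) (nat_lit 0) (nat_lit 0x605442110) (nat_lit 0xf423f00000b71aea2c2804737f423fb71ae1f15600000) (.cons (nat_lit 1) (nat_lit 7) (nat_lit 0) (nat_lit 0x605442200) (nat_lit 0xf423f00000b71aea2c2804737f423fb71ae00000f423f) (.cons (nat_lit 2) (nat_lit 7) (nat_lit 0) (nat_lit 0x605443000) (nat_lit 0xf423f00000b71aea2c2804737f423f00000f423fb71ae) (.cons (nat_lit 3) (nat_lit 7) (nat_lit 0) (nat_lit 0x605440100) (nat_lit 0xf423f00000b71aea2c280473700000f423f54591437a2) .nil)))) (.leaf (.cons (nat_lit 0x4014) (nat_lit 0x10000000000000000000100010000) (.cons (nat_lit 0x5510) (nat_lit 0x20003000400030000000100000000)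 (.cons (nat_lit 0x5504) (nat_lit 0x20003000400030000000000010000) .nil))) .nil)) (.split (nat_lit 9) (nat_lit 0) (.split (nat_lit 9) (nat_lit 1) (.split (nat_lit 9) (nat_lit 2) (.split (nat_lit 9) (nat_lit 3) (.split (nat_lit 9) (nat_lit 5) (.split (nat_lit 9) (nat_lit 6) (.split (nat_lit 9) (nat_lit 7) (.split (nat_lit 9) (nat_lit 4) (.unj (nat_lit 0x55) (nat_lit 0x1000200020001) (nat_lit 0x51500) (nat_lit 0x1000200000003000400030000000000000000)) (.unj (nat_lit 0x55) (nat_lit 0x1000200020001) (nat_lit 0x41500) (nat_lit 0x1000000000001000200020000000000000000))) (.non (nat_lit 1) (nat_lit 4) (nat_lit 0x55000) (nat_lit 0x1000100010001000000000000000000000000))) (.non (nat_lit 1) (nat_lit 4) (nat_lit 0x51000) (nat_lit 0x1000100000001000000000000000000000000))) (.non (nat_lit 1) (nat_lit 4) (nat_lit 0x51400) (nat_lit 0x1000100000001000100000000000000000000))) (.non (nat_lit 1) (nat_lit 4) (nat_lit 0x55050) (nat_lit 0x1000100010001000000000001000100000000))) (.non (nat_lit 1) (nat_lit 4) (nat_lit 0x55010)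 (nat_lit 0x1000100010001000000000000000100000000))) (.non (nat_lit 2) (nat_lit 4) (nat_lit 0x55004) (nat_lit 0x1000100010001000000000000000000010000))) (.non (nat_lit 1) (nat_lit 4) (nat_lit 0x55451) (nat_lit 0x2000300030004000200000001000200000001))))) (.non (nat_lit 2) (nat_lit 4) (nat_lit 0x2a804) (nat_lit 0x100020002000100000000000000020000))) (.non (nat_lit 1) (nat_lit 4) (nat_lit 0x2a810) (nat_lit 0x100020002000100000000000200000000))) (.split (nat_lit 9) (nat_lit 0) (.split (nat_lit 9) (nat_lit 1) (.split (nat_lit 9) (nat_lit 2) (.split (nat_lit 9) (nat_lit 3) (.split (nat_lit 9) (nat_lit 6) (.split (nat_lit 9) (nat_lit 7) (.split (nat_lit 9) (nat_lit 8) (.split (nat_lit 9) (nat_lit 4) (.unj (nat_lit 0x55) (nat_lit 0x1000200020001) (nat_lit 0x41500) (nat_lit 0x1000000000001000200020000000000000000)) (.unj (nat_lit 0x4014) (nat_lit 0x10000000000000000000100010000) (nat_lit 0x40500) (nat_lit 0x1000000000000000100010000000000000000))) (.non (nat_lit 1) (nat_lit 4) (nat_lit 0x51400) (nat_lit 0x1000100000001000100000000000000000000)))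 (.non (nat_lit 1) (nat_lit 4) (nat_lit 0x45400) (nat_lit 0x1000000010001000100000000000000000000))) (.non (nat_lit 1) (nat_lit 4) (nat_lit 0x41400) (nat_lit 0x1000000000001000100000000000000000000))) (.non (nat_lit 1) (nat_lit 4) (nat_lit 0x45450) (nat_lit 0x1000000010001000100000001000100000000))) (.star (nat_lit 9) (nat_lit 2) (nat_lit 5))) (.star (nat_lit 9) (nat_lit 1) (nat_lit 5))) (.non (nat_lit 1) (nat_lit 4) (nat_lit 0x55451) (nat_lit 0x2000200030004000300000001000200000001))))

noncomputable def t767_2 : Tr := (.ex (nat_lit 3) (.ex (nat_lit 4) t767_1 (.split (nat_lit 9) (nat_lit 1) (.split (nat_lit 9) (nat_lit 2) (.split (nat_lit 9) (nat_lit 6) (.split (nat_lit 9) (nat_lit 7) (.split (nat_lit 9) (nat_lit 0) (.split (nat_lit 9) (nat_lit 3) (.split (nat_lit 9) (nat_lit 5) (.split (nat_lit 9) (nat_lit 8) (.unj (nat_lit 0x55) (nat_lit 0x1000200020001) (nat_lit 0x41500) (nat_lit 0x1000000000001000200020000000000000000)) (.unj (nat_lit 0x55) (nat_lit 0x1000200020001) (nat_lit 0x41500) (nat_lit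 0x1000000000001000200020000000000000000))) (.split (nat_lit 9) (nat_lit 8) (.unj (nat_lit 0x4014) (nat_lit 0x10000000000000000000100010000) (nat_lit 0x40500) (nat_lit 0x1000000000000000100010000000000000000)) (.non (nat_lit 1) (nat_lit 4) (nat_lit 0x51400) (nat_lit 0x1000100000001000100000000000000000000)))) (.split (nat_lit 9) (nat_lit 5) (.split (nat_lit 9) (nat_lit 8) (.sup (nat_lit 0x20000000000000000000500050000) (nat_lit 0x3000000000001000500050000000000000000)) (.non (nat_lit 1) (nat_lit 4) (nat_lit 0x55050) (nat_lit 0x1000100010001000000000001000100000000))) (.non (nat_lit 1) (nat_lit 4) (nat_lit 0x45450) (nat_lit 0x1000000010001000100000001000100000000)))) (.split (nat_lit 9) (nat_lit 5) (.split (nat_lit 9) (nat_lit 8) (.split (nat_lit 9) (nat_lit 3) (.sup (nat_lit 0x20000000000000000000500050000) (nat_lit 0x3000000000001000500050000000000000000)) (.sup (nat_lit 0x20000000000000000000500050000) (nat_lit 0x3000000000001000500050000000000000000))) (.non (nat_lit 1) (nat_lit 4) (nat_lit 0x55451)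 (nat_lit 0x2000300030004000200000001000200000001))) (.non (nat_lit 1) (nat_lit 4) (nat_lit 0x55451) (nat_lit 0x2000200030004000300000001000200000001)))) (.non (nat_lit 1) (nat_lit 4) (nat_lit 0x55410) (nat_lit 0x1000100020002000100000000000100000000))) (.non (nat_lit 1) (nat_lit 4) (nat_lit 0x55400) (nat_lit 0x1000100010002000100000000000000000000))) (.star (nat_lit 9) (nat_lit 2) (nat_lit 4))) (.star (nat_lit 9) (nat_lit 1) (nat_lit 4)))) (.split (nat_lit 9) (nat_lit 1) (.split (nat_lit 9) (nat_lit 2) (.split (nat_lit 9) (nat_lit 5) (.split (nat_lit 9) (nat_lit 6) (.split (nat_lit 9) (nat_lit 7) (.split (nat_lit 9) (nat_lit 8) (.split (nat_lit 9) (nat_lit 0) (.split (nat_lit 9) (nat_lit 4) (.split (nat_lit 9) (nat_lit 3) (.split (nat_lit 7) (nat_lit 1) (.split (nat_lit 7) (nat_lit 2) (.sup (nat_lit 0x60001000b0010000d0000000000000000) (nat_lit 0x2000000000000000000000003000500050002)) (.non (nat_lit 1) (nat_lit 4) (nat_lit 0x2a810) (nat_lit 0x100020002000100000000000200000000))) (.non (nat_lit 2)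 (nat_lit 4) (nat_lit 0x2a804) (nat_lit 0x100020002000100000000000000020000))) (.non (nat_lit 1) (nat_lit 4) (nat_lit 0x95450) (nat_lit 0x1000100020002000100000002000200000000))) (.sup (nat_lit 0x20000000000000000000500050000) (nat_lit 0x3000000000001000500050000000000000000))) (.split (nat_lit 9) (nat_lit 4) (.split (nat_lit 9) (nat_lit 0) (.split (nat_lit 9) (nat_lit 3) (.split (nat_lit 7) (nat_lit 1) (.sup (nat_lit 0x300010006000800060000000000000000) (nat_lit 0x2000000000000000000000002000200020002)) (.non (nat_lit 2) (nat_lit 4) (nat_lit 0x2a804) (nat_lit 0x100020002000100000000000000020000))) (.non (nat_lit 1) (nat_lit 4) (nat_lit 0x95450) (nat_lit 0x1000100020002000100000002000200000000))) (.non (nat_lit 1) (nat_lit 4) (nat_lit 0xaa8a1) (nat_lit 0x2000100020002000100000002000200000002))) (.sup (nat_lit 0x20000000000000000000500050000) (nat_lit 0x3000000000001000500050000000000000000)))) (.non (nat_lit 1) (nat_lit 4) (nat_lit 0x55050) (nat_lit 0x1000100010001000000000001000100000000))) (.non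 (nat_lit 1) (nat_lit 4) (nat_lit 0x55410) (nat_lit 0x1000100020002000100000000000100000000))) (.non (nat_lit 1) (nat_lit 4) (nat_lit 0x55400) (nat_lit 0x1000100010002000100000000000000000000))) (.non (nat_lit 1) (nat_lit 4) (nat_lit 0x45450) (nat_lit 0x1000000010001000100000001000100000000))) (.non (nat_lit 1) (nat_lit 4) (nat_lit 0x40050) (nat_lit 0x1000000000000000000000001000100000000))) (.non (nat_lit 2) (nat_lit 4) (nat_lit 0x55405) (nat_lit 0x1000100020002000100000000000000020001))))

noncomputable def t767_3 : Tr := (.split (nat_lit 7) (nat_lit 3) (.split (nat_lit 7) (nat_lit 2) (.sup (nat_lit 0x280050004a0025) (nat_lit 0x1c00030037005000410000000000000000)) (.st (nat_lit 1) (nat_lit 2) (nat_lit 4) (nat_lit 0x15405) (nat_lit 0x100020002000100000000000000020001) (nat_lit 1) (nat_lit 1) (.st (nat_lit 2) (nat_lit 1) (nat_lit 4) (nat_lit 0x15450) (nat_lit 0x100020002000100000001000200000000) (nat_lit 1) (nat_lit 1) (.ex (nat_lit 0) t767_2 (.split (nat_lit 9) (nat_lit 1) (.split (nat_lit 9) (nat_lit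 2) (.split (nat_lit 9) (nat_lit 5) (.split (nat_lit 9) (nat_lit 6) (.split (nat_lit 9) (nat_lit 7) (.split (nat_lit 9) (nat_lit 8) (.split (nat_lit 9) (nat_lit 3) (.split (nat_lit 9) (nat_lit 4) (.split (nat_lit 9) (nat_lit 0) (.split (nat_lit 7) (nat_lit 1) (.split (nat_lit 7) (nat_lit 2) (.sup (nat_lit 0x60001000b0010000d0000000000000000) (nat_lit 0x2000000000000000000000002000500050003)) (.non (nat_lit 1) (nat_lit 4) (nat_lit 0x2a810) (nat_lit 0x100020002000100000000000200000000))) (.non (nat_lit 2) (nat_lit 4) (nat_lit 0x2a804) (nat_lit 0x100020002000100000000000000020000))) (.non (nat_lit 2) (nat_lit 4) (nat_lit 0x95405) (nat_lit 0x1000100020002000100000000000000020002))) (.sup (nat_lit 0x20000000000000000000500050000) (nat_lit 0x3000000000001000500050000000000000000))) (.split (nat_lit 9) (nat_lit 4) (.split (nat_lit 9) (nat_lit 0) (.split (nat_lit 9) (nat_lit 3) (.split (nat_lit 7) (nat_lit 1) (.sup (nat_lit 0x300010006000800060000000000000000) (nat_lit 0x2000000000000000000000002000200020002))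 (.non (nat_lit 2) (nat_lit 4) (nat_lit 0x2a804) (nat_lit 0x100020002000100000000000000020000))) (.non (nat_lit 1) (nat_lit 4) (nat_lit 0x95450) (nat_lit 0x1000100020002000100000002000200000000))) (.non (nat_lit 1) (nat_lit 4) (nat_lit 0xaa8a1) (nat_lit 0x2000100020002000100000002000200000002))) (.sup (nat_lit 0x20000000000000000000500050000) (nat_lit 0x3000000000001000500050000000000000000)))) (.non (nat_lit 1) (nat_lit 4) (nat_lit 0x55451) (nat_lit 0x2000300030004000200000001000200000001))) (.non (nat_lit 1) (nat_lit 4) (nat_lit 0x55410) (nat_lit 0x1000100020002000100000000000100000000))) (.non (nat_lit 1) (nat_lit 4) (nat_lit 0x55400) (nat_lit 0x1000100010002000100000000000000000000))) (.non (nat_lit 1) (nat_lit 4) (nat_lit 0x55451) (nat_lit 0x2000200030004000300000001000200000001))) (.non (nat_lit 1) (nat_lit 4) (nat_lit 0x55450) (nat_lit 0x1000100020002000100000001000200000000))) (.non (nat_lit 2) (nat_lit 4) (nat_lit 0x40005) (nat_lit 0x1000000000000000000000000000000010001))))))) (.non (nat_lit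 2) (nat_lit 4) (nat_lit 0x15444) (nat_lit 0x100020002000100000001000000010000)))

noncomputable def t767_4 : Tr := (.ex (nat_lit 2) (.ex (nat_lit 4) (.split (nat_lit 8) (nat_lit 3) (.split (nat_lit 7) (nat_lit 1) (.pd (.cons (nat_lit 1) (nat_lit 6) (nat_lit 0) (nat_lit 0x370442200) (nat_lit 0xf423ff423f00000f423f54591b71aea2c2800000f423f) (.cons (nat_lit 1) (nat_lit 8) (nat_lit 0) (nat_lit 0x65442200) (nat_lit 0xf423fb71aea2c2804737f423fb71ae00000f423f) (.cons (nat_lit 2) (nat_lit 6) (nat_lit 0) (nat_lit 0x310443000) (nat_lit 0xf423ff423f00000f423f54591b71ae00000b71aea2c28) (.cons (nat_lit 3) (nat_lit 7) (nat_lit 0) (nat_lit 0x605440100) (nat_lit 0xf423f00000b71aea2c280473700000f423f54591437a2) .nil)))) (.leaf (.cons (nat_lit 0x15014) (nat_lit 0x100030002000000000000000300040000) (.cons (nat_lit 0x4054) (nat_lit 0x10000000000000001000200020000) (.cons (nat_lit 0x11540) (nat_lit 0x200000003000400030001000000000000) (.cons (nat_lit 0x5504) (nat_lit 0x20003000400030000000000010000) (.cons (nat_lit 0x4015)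 (nat_lit 0x10000000000000000000200020001) .nil))))) (.cons (nat_lit 0x111101011) (nat_lit 0x10100) (nat_lit 0xd) (nat_lit 0x240103056) .nil))) (.non (nat_lit 2) (nat_lit 4) (nat_lit 0x2a804) (nat_lit 0x100020002000100000000000000020000))) (.non (nat_lit 1) (nat_lit 4) (nat_lit 0x2a840) (nat_lit 0x200010002000100000002000000000000))) (.split (nat_lit 9) (nat_lit 1) (.split (nat_lit 9) (nat_lit 2) (.split (nat_lit 9) (nat_lit 3) (.split (nat_lit 9) (nat_lit 5) (.split (nat_lit 9) (nat_lit 6) (.split (nat_lit 9) (nat_lit 7) (.split (nat_lit 9) (nat_lit 8) (.split (nat_lit 9) (nat_lit 0) (.unj (nat_lit 0x55) (nat_lit 0x1000200020001) (nat_lit 0x41500) (nat_lit 0x1000000000001000200020000000000000000)) (.sup (nat_lit 0x20000000000000005000a00090000) (nat_lit 0x50000000000020009000a0000000000000000))) (.non (nat_lit 1) (nat_lit 4) (nat_lit 0x55440) (nat_lit 0x1000200010002000100000001000000000000))) (.non (nat_lit 2) (nat_lit 4) (nat_lit 0x55404) (nat_lit 0x1000100020002000100000000000000010000))) (.non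 (nat_lit 1) (nat_lit 4) (nat_lit 0x55400) (nat_lit 0x1000100010002000100000000000000000000))) (.non (nat_lit 2) (nat_lit 4) (nat_lit 0x55444) (nat_lit 0x1000200020003000200000001000000010000))) (.non (nat_lit 1) (nat_lit 4) (nat_lit 0x55450) (nat_lit 0x1000200010002000100000002000100000000))) (.star (nat_lit 9) (nat_lit 2) (nat_lit 4))) (.star (nat_lit 9) (nat_lit 1) (nat_lit 4)))) (.split (nat_lit 9) (nat_lit 1) (.split (nat_lit 9) (nat_lit 3) (.split (nat_lit 9) (nat_lit 4) (.split (nat_lit 9) (nat_lit 5) (.split (nat_lit 9) (nat_lit 6) (.split (nat_lit 9) (nat_lit 7) (.split (nat_lit 9) (nat_lit 8) (.split (nat_lit 9) (nat_lit 0) (.sup (nat_lit 0x280000000000000000000000000050004a0025) (nat_lit 0x1c00030037005000410000000000000000)) (.sup (nat_lit 0x4000000000000000000000000000300050004) (nat_lit 0x200000003000500040001000000000000))) (.non (nat_lit 1) (nat_lit 4) (nat_lit 0x55440) (nat_lit 0x1000200010002000100000001000000000000))) (.non (nat_lit 1) (nat_lit 4) (nat_lit 0x55050) (nat_lit 0x1000100010001000000000001000100000000)))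 (.non (nat_lit 1) (nat_lit 4) (nat_lit 0x55400) (nat_lit 0x1000100010002000100000000000000000000))) (.star (nat_lit 9) (nat_lit 2) (nat_lit 5))) (.star (nat_lit 9) (nat_lit 2) (nat_lit 4))) (.non (nat_lit 1) (nat_lit 4) (nat_lit 0x40050) (nat_lit 0x1000000000000000000000001000100000000))) (.non (nat_lit 2) (nat_lit 4) (nat_lit 0x55405) (nat_lit 0x1000100020002000100000000000000020001))))

noncomputable def t767_5 : Tr := (.ex (nat_lit 4) (.split (nat_lit 8) (nat_lit 3) (.split (nat_lit 9) (nat_lit 0) (.split (nat_lit 7) (nat_lit 1) (.pd (.cons (nat_lit 1) (nat_lit 6) (nat_lit 0) (nat_lit 0x370442200) (nat_lit 0xf423ff423ff423f00000f423f54591b71aea2c2800000b71ae) (.cons (nat_lit 1) (nat_lit 8) (nat_lit 0) (nat_lit 0x65442200) (nat_lit 0xf423f00000f423fb71aea2c2804737f423fb71ae00000b71ae) (.cons (nat_lit 2) (nat_lit 6) (nat_lit 0) (nat_lit 0x310443000) (nat_lit 0xf423ff423ff423f00000f423f54591b71ae00000b71ae65b97) (.cons (nat_lit 3) (nat_lit 7) (nat_lit 0) (nat_lit 0x605440100) (nat_lit 0xf423ff423f00000b71aea2c280473700000f423f5459106711)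 .nil)))) (.leaf (.cons (nat_lit 0x15014) (nat_lit 0x100030002000000000000000300040000) (.cons (nat_lit 0x4054) (nat_lit 0x10000000000000001000200020000) (.cons (nat_lit 0x11540) (nat_lit 0x200000003000400030001000000000000) (.cons (nat_lit 0x5504) (nat_lit 0x20003000400030000000000010000) (.cons (nat_lit 0x4015) (nat_lit 0x10000000000000000000200020001) .nil))))) (.cons (nat_lit 0x1111101011) (nat_lit 0x10100) (nat_lit 0xe) (nat_lit 0x7240103056) .nil))) (.non (nat_lit 2) (nat_lit 4) (nat_lit 0x2a804) (nat_lit 0x100020002000100000000000000020000))) (.non (nat_lit 2) (nat_lit 4) (nat_lit 0x95405) (nat_lit 0x1000100020002000100000000000000020002))) (.non (nat_lit 1) (nat_lit 4) (nat_lit 0x2a840) (nat_lit 0x200010002000100000002000000000000))) (.split (nat_lit 0xa) (nat_lit 0) (.split (nat_lit 0xa) (nat_lit 1) (.split (nat_lit 0xa) (nat_lit 2) (.split (nat_lit 0xa) (nat_lit 3) (.split (nat_lit 0xa) (nat_lit 5) (.split (nat_lit 0xa) (nat_lit 6) (.split (nat_lit 0xa) (nat_lit 7) (.split (nat_lit 0xa) (nat_lit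 8) (.split (nat_lit 0xa) (nat_lit 9) (.unj (nat_lit 0x55) (nat_lit 0x1000200020001) (nat_lit 0x101500) (nat_lit 0x10000000000000001000200020000000000000000)) (.non (nat_lit 2) (nat_lit 4) (nat_lit 0x155445) (nat_lit 0x10002000400050006000300000002000000040003))) (.non (nat_lit 1) (nat_lit 4) (nat_lit 0x115440) (nat_lit 0x10000000200010002000100000001000000000000))) (.non (nat_lit 2) (nat_lit 4) (nat_lit 0x115404) (nat_lit 0x10000000100020002000100000000000000010000))) (.non (nat_lit 1) (nat_lit 4) (nat_lit 0x115400) (nat_lit 0x10000000100010002000100000000000000000000))) (.non (nat_lit 2) (nat_lit 4) (nat_lit 0x115444) (nat_lit 0x10000000200020003000200000001000000010000))) (.non (nat_lit 1) (nat_lit 4) (nat_lit 0x115450) (nat_lit 0x10000000200010002000100000002000100000000))) (.star (nat_lit 0xa) (nat_lit 2) (nat_lit 4))) (.star (nat_lit 0xa) (nat_lit 1) (nat_lit 4))) (.non (nat_lit 2) (nat_lit 4) (nat_lit 0x155405) (nat_lit 0x10001000100020002000100000000000000020002))))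

noncomputable def t767_6 : Tr := (.split (nat_lit 9) (nat_lit 3) (.split (nat_lit 9) (nat_lit 5) (.split (nat_lit 9) (nat_lit 6) (.split (nat_lit 9) (nat_lit 7) (.split (nat_lit 9) (nat_lit 8) (.split (nat_lit 9) (nat_lit 2) (.split (nat_lit 9) (nat_lit 4) (.st (nat_lit 0) (nat_lit 2) (nat_lit 4) (nat_lit 0x55405) (nat_lit 0x1000100020002000100000000000000020002) (nat_lit 1) (nat_lit 1) (.st (nat_lit 9) (nat_lit 2) (nat_lit 4) (nat_lit 0x55445) (nat_lit 0x2000400050006000300000002000000040003) (nat_lit 1) (nat_lit 1) (.ex (nat_lit 2) t767_5 (.split (nat_lit 0xa) (nat_lit 0) (.split (nat_lit 0xa) (nat_lit 1) (.split (nat_lit 0xa) (nat_lit 3) (.split (nat_lit 0xa) (nat_lit 4) (.split (nat_lit 0xa) (nat_lit 5) (.split (nat_lit 0xa) (nat_lit 6) (.split (nat_lit 0xa) (nat_lit 7) (.split (nat_lit 0xa) (nat_lit 8) (.split (nat_lit 0xa) (nat_lit 9) (.sup (nat_lit 0x2800000000000000000000000000000050004a0025) (nat_lit 0x1c00030037005000410000000000000000)) (.non (nat_lit 2) (nat_lit 4) (nat_lit 0x155445)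 (nat_lit 0x10002000400050006000300000002000000040003))) (.non (nat_lit 1) (nat_lit 4) (nat_lit 0x115440) (nat_lit 0x10000000200010002000100000001000000000000))) (.non (nat_lit 1) (nat_lit 4) (nat_lit 0x115050) (nat_lit 0x10000000100010001000000000001000100000000))) (.non (nat_lit 1) (nat_lit 4) (nat_lit 0x115400) (nat_lit 0x10000000100010002000100000000000000000000))) (.star (nat_lit 0xa) (nat_lit 2) (nat_lit 5))) (.star (nat_lit 0xa) (nat_lit 2) (nat_lit 4))) (.non (nat_lit 1) (nat_lit 4) (nat_lit 0x100050) (nat_lit 0x10000000000000000000000000001000100000000))) (.non (nat_lit 2) (nat_lit 4) (nat_lit 0x115405) (nat_lit 0x10000000100020002000100000000000000020001))) (.non (nat_lit 2) (nat_lit 4) (nat_lit 0x155405) (nat_lit 0x10001000100020002000100000000000000020002)))))) (.sup (nat_lit 0x20000000000000005000a00090000) (nat_lit 0x50000000000020009000a0000000000000000))) (.split (nat_lit 9) (nat_lit 4) (.sup (nat_lit 0x4000000000000000000000000000300050004) (nat_lit 0x200000003000500040001000000000000))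 (.star (nat_lit 9) (nat_lit 2) (nat_lit 4)))) (.non (nat_lit 1) (nat_lit 4) (nat_lit 0x55440) (nat_lit 0x1000200010002000100000001000000000000))) (.non (nat_lit 1) (nat_lit 4) (nat_lit 0x55451) (nat_lit 0x2000300030004000200000002000100000001))) (.non (nat_lit 1) (nat_lit 4) (nat_lit 0x55400) (nat_lit 0x1000100010002000100000000000000000000))) (.non (nat_lit 1) (nat_lit 4) (nat_lit 0x55451) (nat_lit 0x2000300020004000300000002000100000001))) (.non (nat_lit 1) (nat_lit 4) (nat_lit 0x55450) (nat_lit 0x1000200010002000100000002000100000000)))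

noncomputable def t767_7 : Tr := (.ex (nat_lit 4) (.split (nat_lit 8) (nat_lit 3) (.split (nat_lit 7) (nat_lit 0) (.pd (.cons (nat_lit 0) (nat_lit 6) (nat_lit 0) (nat_lit 0x370442110) (nat_lit 0xf423ff423f00000f423f54591b71aea2c280473700000) (.cons (nat_lit 0) (nat_lit 8) (nat_lit 0) (nat_lit 0x65442110) (nat_lit 0xf423fb71aea2c2804737f423fb71ae1f15600000) (.cons (nat_lit 1) (nat_lit 6) (nat_lit 0) (nat_lit 0x300442200) (nat_lit 0xf423ff423f00000f423f54591b71aea2c2800000b71ae) (.cons (nat_lit 2) (nat_lit 6) (nat_lit 0) (nat_lit 0x300443000) (nat_lit 0xf423ff423f00000f423f54591b71ae00000f423f7a11d) (.cons (nat_lit 3) (nat_lit 6) (nat_lit 0) (nat_lit 0x800440100) (nat_lit 0xf423ff423f00000f423f5459100000f423f5459106711) (.cons (nat_lit 3) (nat_lit 7) (nat_lit 0) (nat_lit 0x605440100) (nat_lit 0xf423f00000b71aea2c280473700000f423f54591437a2) .nil)))))) (.leaf (.cons (nat_lit 0x11054) (nat_lit 0x200000001000000000003000400030000) (.cons (nat_lit 0x11540) (nat_lit 0x200000003000400030001000000000000)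 (.cons (nat_lit 0x5501) (nat_lit 0x20003000400030000000000000001) (.cons (nat_lit 0x5015) (nat_lit 0x20001000000000000000300040003) .nil)))) (.cons (nat_lit 0x111101101) (nat_lit 0x10010) (nat_lit 0xd) (nat_lit 0x420105603) (.cons (nat_lit 0x111001101) (nat_lit 0x100010) (nat_lit 4) (nat_lit 0x312004500) (.cons (nat_lit 0x111101011) (nat_lit 0x10100) (nat_lit 0xd) (nat_lit 0x240103065) (.cons (nat_lit 0x111001011) (nat_lit 0x100100) (nat_lit 4) (nat_lit 0x423005001) .nil)))))) (.non (nat_lit 1) (nat_lit 4) (nat_lit 0x2a801) (nat_lit 0x100020002000100000000000000000002))) (.non (nat_lit 1) (nat_lit 4) (nat_lit 0x2a840) (nat_lit 0x200010002000100000002000000000000))) (.split (nat_lit 9) (nat_lit 0) (.split (nat_lit 9) (nat_lit 1) (.split (nat_lit 9) (nat_lit 2) (.split (nat_lit 9) (nat_lit 3) (.split (nat_lit 9) (nat_lit 5) (.split (nat_lit 9) (nat_lit 6) (.split (nat_lit 9) (nat_lit 7) (.split (nat_lit 9) (nat_lit 8) (.unj (nat_lit 0x55) (nat_lit 0x1000200020001) (nat_lit 0x41500) (nat_lit 0x1000000000001000200020000000000000000))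 (.non (nat_lit 1) (nat_lit 4) (nat_lit 0x55440) (nat_lit 0x1000200010002000100000001000000000000))) (.non (nat_lit 1) (nat_lit 4) (nat_lit 0x55401) (nat_lit 0x1000100020002000100000000000000000001))) (.non (nat_lit 1) (nat_lit 4) (nat_lit 0x55400) (nat_lit 0x1000100010002000100000000000000000000))) (.non (nat_lit 1) (nat_lit 4) (nat_lit 0x55441) (nat_lit 0x1000200020003000200000001000000000001))) (.non (nat_lit 1) (nat_lit 4) (nat_lit 0x55450) (nat_lit 0x1000200010002000100000002000100000000))) (.star (nat_lit 9) (nat_lit 2) (nat_lit 4))) (.star (nat_lit 9) (nat_lit 1) (nat_lit 4))) (.non (nat_lit 1) (nat_lit 4) (nat_lit 0x55451) (nat_lit 0x1000300030004000200000002000100000002))))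

noncomputable def t767_8 : Tr := (.st (nat_lit 5) (nat_lit 1) (nat_lit 4) (nat_lit 0x15441) (nat_lit 0x200020003000200000001000000000001) (nat_lit 1) (nat_lit 1) (.st (nat_lit 7) (nat_lit 1) (nat_lit 4) (nat_lit 0x15401) (nat_lit 0x100020002000100000000000000000001) (nat_lit 1) (nat_lit 1) (.st (nat_lit 8) (nat_lit 1) (nat_lit 4) (nat_lit 0x15440) (nat_lit 0x200010002000100000001000000000000) (nat_lit 1) (nat_lit 1) (.ex (nat_lit 1) (.ex (nat_lit 2) t767_7 (.split (nat_lit 9) (nat_lit 0) (.split (nat_lit 9) (nat_lit 3) (.split (nat_lit 9) (nat_lit 4) (.split (nat_lit 9) (nat_lit 5) (.split (nat_lit 9) (nat_lit 6) (.split (nat_lit 9) (nat_lit 7) (.split (nat_lit 9) (nat_lit 8) (.split (nat_lit 9) (nat_lit 1) (.sup (nat_lit 0x5000000000000000000000000000a00090002) (nat_lit 0x300010007000a00080000000000000000)) (.unj (nat_lit 0x40014) (nat_lit 0x1000000000000000000000000000100010000) (nat_lit 0x15500) (nat_lit 0x100010002000200020000000000000000))) (.non (nat_lit 1) (nat_lit 4) (nat_lit 0x55440) (nat_lit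 0x1000200010002000100000001000000000000))) (.non (nat_lit 1) (nat_lit 4) (nat_lit 0x55050) (nat_lit 0x1000100010001000000000001000100000000))) (.non (nat_lit 1) (nat_lit 4) (nat_lit 0x55400) (nat_lit 0x1000100010002000100000000000000000000))) (.star (nat_lit 9) (nat_lit 2) (nat_lit 5))) (.star (nat_lit 9) (nat_lit 2) (nat_lit 4))) (.non (nat_lit 1) (nat_lit 4) (nat_lit 0x40050) (nat_lit 0x1000000000000000000000001000100000000))) (.non (nat_lit 1) (nat_lit 4) (nat_lit 0x55051) (nat_lit 0x1000100010001000000000001000100000001)))) (.split (nat_lit 9) (nat_lit 0) (.split (nat_lit 9) (nat_lit 3) (.split (nat_lit 9) (nat_lit 4) (.split (nat_lit 9) (nat_lit 5) (.split (nat_lit 9) (nat_lit 6) (.split (nat_lit 9) (nat_lit 7) (.split (nat_lit 9) (nat_lit 8) (.split (nat_lit 9) (nat_lit 2) (.sup (nat_lit 0x50000000000000000000000000006000a0005) (nat_lit 0x400000007000a00080001000000000000)) (.unj (nat_lit 0x40014) (nat_lit 0x1000000000000000000000000000100010000) (nat_lit 0x15500) (nat_lit 0x100010002000200020000000000000000)))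 (.non (nat_lit 1) (nat_lit 4) (nat_lit 0x55440) (nat_lit 0x1000200010002000100000001000000000000))) (.non (nat_lit 1) (nat_lit 4) (nat_lit 0x55401) (nat_lit 0x1000100020002000100000000000000000001))) (.non (nat_lit 1) (nat_lit 4) (nat_lit 0x55400) (nat_lit 0x1000100010002000100000000000000000000))) (.star (nat_lit 9) (nat_lit 1) (nat_lit 5))) (.star (nat_lit 9) (nat_lit 1) (nat_lit 4))) (.non (nat_lit 1) (nat_lit 4) (nat_lit 0x55450) (nat_lit 0x1000200010002000100000002000100000000))) (.non (nat_lit 1) (nat_lit 4) (nat_lit 0x55451) (nat_lit 0x1000300030004000200000002000100000002)))))))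

noncomputable def t767_9 : Tr := (.split (nat_lit 8) (nat_lit 3) (.split (nat_lit 7) (nat_lit 0) (.split (nat_lit 7) (nat_lit 1) (.split (nat_lit 7) (nat_lit 2) (.split (nat_lit 7) (nat_lit 3) .uj (.sup (nat_lit 0x20009000a0005) (nat_lit 0x300010007000a00080000000000000000))) (.split (nat_lit 7) (nat_lit 3) (.sup (nat_lit 0x25004a00500028) (nat_lit 0x1c00030037005000410000000000000000)) (.non (nat_lit 1) (nat_lit 4) (nat_lit 0x4050) (nat_lit 0x10000000000000001000100000000)))) t767_3) (.split (nat_lit 7) (nat_lit 1) (.split (nat_lit 7) (nat_lit 2) (.split (nat_lit 7) (nat_lit 3) (.sup (nat_lit 0x5000a00090002) (nat_lit 0x300010007000a00080000000000000000)) (.non (nat_lit 1) (nat_lit 4) (nat_lit 0x15441) (nat_lit 0x100020002000100000001000000000001))) (.non (nat_lit 1) (nat_lit 4) (nat_lit 0x15411) (nat_lit 0x100020002000100000000000100000001))) (.non (nat_lit 2) (nat_lit 4) (nat_lit 0x4005) (nat_lit 0x10000000000000000000000010001)))) (.split (nat_lit 7) (nat_lit 2) (.split (nat_lit 7) (nat_lit 3)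 (.split (nat_lit 7) (nat_lit 0) (.split (nat_lit 7) (nat_lit 1) (.sup (nat_lit 0x20009000a0005) (nat_lit 0x100030007000a00080000000000000000)) (.st (nat_lit 1) (nat_lit 2) (nat_lit 4) (nat_lit 0x15405) (nat_lit 0x100020002000100000000000000020001) (nat_lit 1) (nat_lit 1) (.st (nat_lit 5) (nat_lit 2) (nat_lit 4) (nat_lit 0x15444) (nat_lit 0x200020003000200000001000000010000) (nat_lit 1) (nat_lit 1) (.st (nat_lit 7) (nat_lit 2) (nat_lit 4) (nat_lit 0x15404) (nat_lit 0x100020002000100000000000000010000) (nat_lit 1) (nat_lit 1) (.st (nat_lit 8) (nat_lit 1) (nat_lit 4) (nat_lit 0x15440) (nat_lit 0x200010002000100000001000000000000) (nat_lit 1) (nat_lit 1) (.st (nat_lit 3) (nat_lit 1) (nat_lit 4) (nat_lit 0x15450) (nat_lit 0x200010002000100000002000100000000) (nat_lit 1) (nat_lit 1) (.ex (nat_lit 0) t767_4 (.split (nat_lit 9) (nat_lit 1) t767_6 (.non (nat_lit 2) (nat_lit 4) (nat_lit 0x40005) (nat_lit 0x1000000000000000000000000000000010001)))))))))) (.split (nat_lit 7) (nat_lit 1) (.st (nat_lit 0) (nat_lit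 1) (nat_lit 4) (nat_lit 0x15451) (nat_lit 0x300030004000200000002000100000002) (nat_lit 1) (nat_lit 1) (.st (nat_lit 3) (nat_lit 1) (nat_lit 4) (nat_lit 0x15450) (nat_lit 0x200010002000100000002000100000000) (nat_lit 1) (nat_lit 1) t767_8)) (.non (nat_lit 2) (nat_lit 4) (nat_lit 0x4005) (nat_lit 0x10000000000000000000000010001)))) (.non (nat_lit 1) (nat_lit 4) (nat_lit 0x15040) (nat_lit 0x100010001000000000001000000000000))) (.non (nat_lit 1) (nat_lit 4) (nat_lit 0x15050) (nat_lit 0x100010001000000000001000100000000))))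

noncomputable def t767_10 : Tr := (.split (nat_lit 9) (nat_lit 0) (.split (nat_lit 9) (nat_lit 3) (.split (nat_lit 9) (nat_lit 5) (.unj (nat_lit 0x55) (nat_lit 0x1000200020001) (nat_lit 0x41500) (nat_lit 0x1000000000001000200020000000000000000)) (.unj (nat_lit 0x40500) (nat_lit 0x1000000000000000100010000000000000000) (nat_lit 0x55) (nat_lit 0x1000200020001))) (.split (nat_lit 9) (nat_lit 5) (.sup (nat_lit 0x10000000000000000000400050003) (nat_lit 0x3000000000001000500050000000000000000)) (.non (nat_lit 1) (nat_lit 4) (nat_lit 0x51450) (nat_lit 0x1000100000001000100000001000100000000)))) (.split (nat_lit 9) (nat_lit 5) (.split (nat_lit 9) (nat_lit 3) (.sup (nat_lit 0x20000000000000005000a00090000) (nat_lit 0x50000000000020009000a0000000000000000)) (.st (nat_lit 0) (nat_lit 1) (nat_lit 5) (nat_lit 0x55151) (nat_lit 0x6000300010002000000030005000400000004) (nat_lit 1) (nat_lit 2) (.st (nat_lit 1) (nat_lit 2) (nat_lit 4) (nat_lit 0x15405) (nat_lit 0x100020002000100000000000000020001) (nat_lit 1) (nat_lit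 1) (.st (nat_lit 2) (nat_lit 1) (nat_lit 4) (nat_lit 0x15450) (nat_lit 0x200010002000100000001000200000000) (nat_lit 1) (nat_lit 1) (.st (nat_lit 3) (nat_lit 1) (nat_lit 4) (nat_lit 0x55450) (nat_lit 0x1000200010002000100000002000200000000) (nat_lit 1) (nat_lit 1) (.st (nat_lit 4) (nat_lit 1) (nat_lit 5) (nat_lit 0x55151) (nat_lit 0x6000300010002000000040005000400000003) (nat_lit 1) (nat_lit 2) (.st (nat_lit 5) (nat_lit 1) (nat_lit 4) (nat_lit 0x55451) (nat_lit 0x2000500030006000400000003000400000001) (nat_lit 1) (nat_lit 2) (.st (nat_lit 9) (nat_lit 1) (nat_lit 4) (nat_lit 0x55451) (nat_lit 0x2000200010002000100000002000200000001) (nat_lit 1) (nat_lit 1) (.split (nat_lit 9) (nat_lit 0) (.split (nat_lit 9) (nat_lit 3) (.split (nat_lit 8) (nat_lit 2) (.split (nat_lit 9) (nat_lit 4) (.leaf (.cons (nat_lit 0x14014) (nat_lit 0x100010000000000000000000200020000) (.cons (nat_lit 0x41500) (nat_lit 0x1000000000001000200020000000000000000) (.cons (nat_lit 0x40550) (nat_lit 0x3000000000000000300040002000100000000)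 (.cons (nat_lit 0x40541) (nat_lit 0x2000000000000000200020001000000000001) .nil)))) (.cons (nat_lit 0x1111101101) (nat_lit 0x10010) (nat_lit 0xb) (nat_lit 0x6320105407) (.cons (nat_lit 0x1111011101) (nat_lit 0x100010) (nat_lit 0xb) (nat_lit 0x576023401) .nil))) (.non (nat_lit 1) (nat_lit 5) (nat_lit 0x40241) (nat_lit 0x2000000000000000000010001000000000001))) (.non (nat_lit 1) (nat_lit 4) (nat_lit 0x2a810) (nat_lit 0x200010002000100000000000200000000))) (.non (nat_lit 1) (nat_lit 4) (nat_lit 0x95450) (nat_lit 0x1000200010002000100000002000200000000))) (.non (nat_lit 1) (nat_lit 4) (nat_lit 0xaa8a1) (nat_lit 0x2000200010002000100000002000200000002))))))))))) (.non (nat_lit 1) (nat_lit 4) (nat_lit 0x55451) (nat_lit 0x2000300020004000300000001000200000001))))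

noncomputable def t767_11 : Tr := (.ex (nat_lit 4) (.ex (nat_lit 5) (.split (nat_lit 8) (nat_lit 2) (.split (nat_lit 7) (nat_lit 1) (.pd (.cons (nat_lit 1) (nat_lit 6) (nat_lit 0) (nat_lit 0x270442200) (nat_lit 0xf423ff423f00000f423f54591f423f7a11d00000f423f) (.cons (nat_lit 1) (nat_lit 8) (nat_lit 0) (nat_lit 0x65442200) (nat_lit 0xf423fb71aea2c2804737f423fb71ae00000f423f) (.cons (nat_lit 2) (nat_lit 6) (nat_lit 0) (nat_lit 0x810443000) (nat_lit 0xf423ff423f00000f423f54591f423f00000b71aea2c28) (.cons (nat_lit 2) (nat_lit 7) (nat_lit 0) (nat_lit 0x605443000) (nat_lit 0xf423f00000b71aea2c2804737f423f00000f423fb71ae) .nil)))) (.leaf (.cons (nat_lit 0x14014) (nat_lit 0x100010000000000000000000200020000) (.cons (nat_lit 0x11510) (nat_lit 0x200000003000400030000000100000000) (.cons (nat_lit 0x5504) (nat_lit 0x20003000400030000000000010000) .nil))) .nil)) (.non (nat_lit 2) (nat_lit 4) (nat_lit 0x2a804) (nat_lit 0x100020002000100000000000000020000))) (.non (nat_lit 1) (nat_lit 4) (nat_lit 0x2a810) (nat_lit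 0x200010002000100000000000200000000))) (.split (nat_lit 9) (nat_lit 0) (.split (nat_lit 9) (nat_lit 1) (.split (nat_lit 9) (nat_lit 2) (.split (nat_lit 9) (nat_lit 3) (.split (nat_lit 9) (nat_lit 6) (.split (nat_lit 9) (nat_lit 7) (.split (nat_lit 9) (nat_lit 8) (.split (nat_lit 9) (nat_lit 4) (.unj (nat_lit 0x55) (nat_lit 0x1000200020001) (nat_lit 0x41500) (nat_lit 0x1000000000001000200020000000000000000)) (.unj (nat_lit 0x40500) (nat_lit 0x1000000000000000100010000000000000000) (nat_lit 0x55) (nat_lit 0x1000200020001))) (.non (nat_lit 1) (nat_lit 4) (nat_lit 0x51400) (nat_lit 0x1000100000001000100000000000000000000))) (.non (nat_lit 1) (nat_lit 4) (nat_lit 0x45400) (nat_lit 0x1000000010001000100000000000000000000))) (.non (nat_lit 1) (nat_lit 4) (nat_lit 0x41400) (nat_lit 0x1000000000001000100000000000000000000))) (.non (nat_lit 1) (nat_lit 4) (nat_lit 0x51450) (nat_lit 0x1000100000001000100000001000100000000))) (.star (nat_lit 9) (nat_lit 2) (nat_lit 5))) (.star (nat_lit 9) (nat_lit 1) (nat_lit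 5))) (.non (nat_lit 1) (nat_lit 4) (nat_lit 0x55451) (nat_lit 0x2000300020004000300000001000200000001)))) (.split (nat_lit 9) (nat_lit 1) (.split (nat_lit 9) (nat_lit 2) (.split (nat_lit 9) (nat_lit 6) (.split (nat_lit 9) (nat_lit 7) (.split (nat_lit 9) (nat_lit 8) t767_10 (.non (nat_lit 1) (nat_lit 4) (nat_lit 0x55410) (nat_lit 0x1000200010002000100000000000100000000))) (.non (nat_lit 2) (nat_lit 4) (nat_lit 0x55404) (nat_lit 0x1000100020002000100000000000000010000))) (.non (nat_lit 1) (nat_lit 4) (nat_lit 0x55400) (nat_lit 0x1000100010002000100000000000000000000))) (.star (nat_lit 9) (nat_lit 2) (nat_lit 4))) (.star (nat_lit 9) (nat_lit 1) (nat_lit 4))))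

noncomputable def t767_12 : Tr := (.ex (nat_lit 4) (.split (nat_lit 9) (nat_lit 3) (.split (nat_lit 8) (nat_lit 2) (.split (nat_lit 7) (nat_lit 0) (.pd (.cons (nat_lit 0) (nat_lit 8) (nat_lit 0) (nat_lit 0x3065442110) (nat_lit 0xf423f00000f423fb71aea2c2804737b71aea2c280473700000) (.cons (nat_lit 1) (nat_lit 6) (nat_lit 0) (nat_lit 0x3200442200) (nat_lit 0xf423ff423ff423f00000f423f54591b71ae65b9700000b71ae) (.cons (nat_lit 2) (nat_lit 6) (nat_lit 0) (nat_lit 0x3800443000) (nat_lit 0xf423ff423ff423f00000f423f54591b71ae00000f423f7a11d) (.cons (nat_lit 2) (nat_lit 7) (nat_lit 0) (nat_lit 0x3605443000) (nat_lit 0xf423ff423f00000b71aea2c2804737b71ae00000f423fb71ae) .nil)))) (.leaf (.cons (nat_lit 0x15014) (nat_lit 0x300010002000000000000000400030000) (.cons (nat_lit 0x10054) (nat_lit 0x100000000000000000001000200020000) (.cons (nat_lit 0x11510) (nat_lit 0x200000003000400030000000100000000) (.cons (nat_lit 0x5501) (nat_lit 0x20003000400030000000000000001) (.cons (nat_lit 0x10015) (nat_lit 0x100000000000000000000000200020001)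 .nil))))) (.cons (nat_lit 0x1111101101) (nat_lit 0x10010) (nat_lit 0xe) (nat_lit 0x7420106503) .nil))) (.non (nat_lit 1) (nat_lit 4) (nat_lit 0x2a801) (nat_lit 0x100020002000100000000000000000002))) (.non (nat_lit 1) (nat_lit 4) (nat_lit 0x2a810) (nat_lit 0x200010002000100000000000200000000))) (.non (nat_lit 1) (nat_lit 4) (nat_lit 0x95450) (nat_lit 0x1000200010002000100000002000200000000))) (.split (nat_lit 0xa) (nat_lit 0) (.split (nat_lit 0xa) (nat_lit 1) (.split (nat_lit 0xa) (nat_lit 2) (.split (nat_lit 0xa) (nat_lit 3) (.split (nat_lit 0xa) (nat_lit 5) (.split (nat_lit 0xa) (nat_lit 6) (.split (nat_lit 0xa) (nat_lit 7) (.split (nat_lit 0xa) (nat_lit 8) (.split (nat_lit 0xa) (nat_lit 9) (.unj (nat_lit 0x55) (nat_lit 0x1000200020001) (nat_lit 0x101500) (nat_lit 0x10000000000000001000200020000000000000000)) (.non (nat_lit 1) (nat_lit 4) (nat_lit 0x155451) (nat_lit 0x10002000500040006000300000003000400000002))) (.non (nat_lit 1) (nat_lit 4) (nat_lit 0x115410) (nat_lit 0x10000000200010002000100000000000100000000)))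 (.non (nat_lit 1) (nat_lit 4) (nat_lit 0x115401) (nat_lit 0x10000000100020002000100000000000000000001))) (.non (nat_lit 1) (nat_lit 4) (nat_lit 0x115400) (nat_lit 0x10000000100010002000100000000000000000000))) (.non (nat_lit 1) (nat_lit 4) (nat_lit 0x115411) (nat_lit 0x10000000200020003000200000000000100000001))) (.non (nat_lit 1) (nat_lit 4) (nat_lit 0x155450) (nat_lit 0x10001000200010002000100000002000200000000))) (.star (nat_lit 0xa) (nat_lit 2) (nat_lit 4))) (.star (nat_lit 0xa) (nat_lit 1) (nat_lit 4))) (.non (nat_lit 1) (nat_lit 4) (nat_lit 0x115451) (nat_lit 0x10000000300030004000200000001000200000002))))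

noncomputable def t767_13 : Tr := (.ex (nat_lit 3) (.ex (nat_lit 4) (.split (nat_lit 8) (nat_lit 2) (.split (nat_lit 7) (nat_lit 0) (.pd (.cons (nat_lit 0) (nat_lit 8) (nat_lit 0) (nat_lit 0x65442110) (nat_lit 0xf423fb71aea2c2804737f423fb71ae1f15600000) (.cons (nat_lit 1) (nat_lit 6) (nat_lit 0) (nat_lit 0x200442200) (nat_lit 0xf423ff423f00000f423f54591f423f7a11d00000b71ae) (.cons (nat_lit 2) (nat_lit 6) (nat_lit 0) (nat_lit 0x800443000) (nat_lit 0xf423ff423f00000f423f54591f423f00000f423f7a11d) (.cons (nat_lit 2) (nat_lit 7) (nat_lit 0) (nat_lit 0x605443000) (nat_lit 0xf423f00000b71aea2c2804737f423f00000f423fb71ae) .nil)))) (.leaf (.cons (nat_lit 0x15014) (nat_lit 0x300010002000000000000000400030000) (.cons (nat_lit 0x10054) (nat_lit 0x100000000000000000001000200020000) (.cons (nat_lit 0x11510) (nat_lit 0x200000003000400030000000100000000) (.cons (nat_lit 0x5501) (nat_lit 0x20003000400030000000000000001) (.cons (nat_lit 0x10015) (nat_lit 0x100000000000000000000000200020001) .nil))))) (.cons (nat_lit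 0x111101101) (nat_lit 0x10010) (nat_lit 0xd) (nat_lit 0x420106503) .nil))) (.non (nat_lit 1) (nat_lit 4) (nat_lit 0x2a801) (nat_lit 0x100020002000100000000000000000002))) (.non (nat_lit 1) (nat_lit 4) (nat_lit 0x2a810) (nat_lit 0x200010002000100000000000200000000))) (.split (nat_lit 9) (nat_lit 0) (.split (nat_lit 9) (nat_lit 1) (.split (nat_lit 9) (nat_lit 2) (.split (nat_lit 9) (nat_lit 5) (.split (nat_lit 9) (nat_lit 6) (.split (nat_lit 9) (nat_lit 7) (.split (nat_lit 9) (nat_lit 8) (.split (nat_lit 9) (nat_lit 3) (.unj (nat_lit 0x55) (nat_lit 0x1000200020001) (nat_lit 0x41500) (nat_lit 0x1000000000001000200020000000000000000)) (.sup (nat_lit 0x2000000000000000000000009000a0005) (nat_lit 0x50000000000020009000a0000000000000000))) (.non (nat_lit 1) (nat_lit 4) (nat_lit 0x55410) (nat_lit 0x1000200010002000100000000000100000000))) (.non (nat_lit 1) (nat_lit 4) (nat_lit 0x55401) (nat_lit 0x1000100020002000100000000000000000001))) (.non (nat_lit 1) (nat_lit 4) (nat_lit 0x55400) (nat_lit 0x1000100010002000100000000000000000000)))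 (.non (nat_lit 1) (nat_lit 4) (nat_lit 0x55411) (nat_lit 0x1000200020003000200000000000100000001))) (.star (nat_lit 9) (nat_lit 2) (nat_lit 4))) (.star (nat_lit 9) (nat_lit 1) (nat_lit 4))) (.non (nat_lit 1) (nat_lit 4) (nat_lit 0x55451) (nat_lit 0x1000300030004000200000001000200000002)))) (.split (nat_lit 9) (nat_lit 0) (.split (nat_lit 9) (nat_lit 2) (.split (nat_lit 9) (nat_lit 5) (.split (nat_lit 9) (nat_lit 6) (.split (nat_lit 9) (nat_lit 7) (.split (nat_lit 9) (nat_lit 8) (.split (nat_lit 9) (nat_lit 1) (.split (nat_lit 9) (nat_lit 4) (.st (nat_lit 3) (nat_lit 1) (nat_lit 4) (nat_lit 0x55450) (nat_lit 0x1000200010002000100000002000200000000) (nat_lit 1) (nat_lit 1) (.st (nat_lit 9) (nat_lit 1) (nat_lit 4) (nat_lit 0x55451) (nat_lit 0x2000500040006000300000003000400000002) (nat_lit 1) (nat_lit 1) t767_12)) (.sup (nat_lit 0x2000000000000000000000009000a0005) (nat_lit 0x50000000000020009000a0000000000000000))) (.split (nat_lit 9) (nat_lit 4) (.sup (nat_lit 0x4000000000000000000000004000500030000)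 (nat_lit 0x20003000500040000000000000001)) (.star (nat_lit 9) (nat_lit 1) (nat_lit 4)))) (.non (nat_lit 1) (nat_lit 4) (nat_lit 0x55410) (nat_lit 0x1000200010002000100000000000100000000))) (.non (nat_lit 1) (nat_lit 4) (nat_lit 0x55050) (nat_lit 0x1000100010001000000000001000100000000))) (.non (nat_lit 1) (nat_lit 4) (nat_lit 0x55400) (nat_lit 0x1000100010002000100000000000000000000))) (.non (nat_lit 1) (nat_lit 4) (nat_lit 0x51450) (nat_lit 0x1000100000001000100000001000100000000))) (.non (nat_lit 1) (nat_lit 4) (nat_lit 0x40050) (nat_lit 0x1000000000000000000000001000100000000))) (.non (nat_lit 1) (nat_lit 4) (nat_lit 0x55051) (nat_lit 0x1000100010001000000000001000100000001))))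

noncomputable def t767_14 : Tr := (.split (nat_lit 7) (nat_lit 2) (.split (nat_lit 7) (nat_lit 3) (.split (nat_lit 7) (nat_lit 0) (.split (nat_lit 7) (nat_lit 1) (.sup (nat_lit 0x25004a00500028) (nat_lit 0x3001c0037005000410000000000000000)) (.st (nat_lit 7) (nat_lit 2) (nat_lit 4) (nat_lit 0x15404) (nat_lit 0x100020002000100000000000000010000) (nat_lit 1) (nat_lit 1) (.st (nat_lit 8) (nat_lit 1) (nat_lit 4) (nat_lit 0x15410) (nat_lit 0x200010002000100000000000100000000) (nat_lit 1) (nat_lit 1) t767_11))) (.split (nat_lit 7) (nat_lit 1) (.st (nat_lit 2) (nat_lit 1) (nat_lit 4) (nat_lit 0x15450) (nat_lit 0x200010002000100000001000200000000) (nat_lit 1) (nat_lit 1) (.st (nat_lit 5) (nat_lit 1) (nat_lit 4) (nat_lit 0x15411) (nat_lit 0x200020003000200000000000100000001) (nat_lit 1) (nat_lit 1) (.st (nat_lit 7) (nat_lit 1) (nat_lit 4) (nat_lit 0x15401) (nat_lit 0x100020002000100000000000000000001) (nat_lit 1) (nat_lit 1) (.st (nat_lit 8) (nat_lit 1) (nat_lit 4) (nat_lit 0x15410) (nat_lit 0x200010002000100000000000100000000)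 (nat_lit 1) (nat_lit 1) (.st (nat_lit 0) (nat_lit 1) (nat_lit 4) (nat_lit 0x15451) (nat_lit 0x300030004000200000001000200000002) (nat_lit 1) (nat_lit 1) (.ex (nat_lit 1) t767_13 (.split (nat_lit 9) (nat_lit 0) (.split (nat_lit 9) (nat_lit 2) (.split (nat_lit 9) (nat_lit 4) (.split (nat_lit 9) (nat_lit 5) (.split (nat_lit 9) (nat_lit 6) (.split (nat_lit 9) (nat_lit 7) (.split (nat_lit 9) (nat_lit 8) (.split (nat_lit 9) (nat_lit 3) (.sup (nat_lit 0x28000000000000000000000025004a00500000) (nat_lit 0x3001c0037005000410000000000000000)) (.sup (nat_lit 0x4000000000000000000000004000500030000) (nat_lit 0x20003000500040000000000000001))) (.non (nat_lit 1) (nat_lit 4) (nat_lit 0x55410) (nat_lit 0x1000200010002000100000000000100000000))) (.non (nat_lit 1) (nat_lit 4) (nat_lit 0x55401) (nat_lit 0x1000100020002000100000000000000000001))) (.non (nat_lit 1) (nat_lit 4) (nat_lit 0x55400) (nat_lit 0x1000100010002000100000000000000000000))) (.star (nat_lit 9) (nat_lit 1) (nat_lit 5))) (.star (nat_lit 9) (nat_lit 1)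 (nat_lit 4))) (.non (nat_lit 1) (nat_lit 4) (nat_lit 0x55450) (nat_lit 0x1000200010002000100000001000200000000))) (.non (nat_lit 1) (nat_lit 4) (nat_lit 0x55451) (nat_lit 0x1000300030004000200000001000200000002))))))))) (.non (nat_lit 2) (nat_lit 4) (nat_lit 0x4005) (nat_lit 0x10000000000000000000000010001)))) (.non (nat_lit 1) (nat_lit 4) (nat_lit 0x15050) (nat_lit 0x100010001000000000001000100000000))) (.non (nat_lit 1) (nat_lit 4) (nat_lit 0x15010) (nat_lit 0x100010001000000000000000100000000)))

noncomputable def t767_15 : Tr := (.ex (nat_lit 2) (.ex (nat_lit 4) (.split (nat_lit 7) (nat_lit 3) (.split (nat_lit 8) (nat_lit 1) (.pd (.cons (nat_lit 1) (nat_lit 6) (nat_lit 0) (nat_lit 0x830442200) (nat_lit 0xf423ff423f00000f423f54591b71aea2c2800000f423f) (.cons (nat_lit 1) (nat_lit 7) (nat_lit 0) (nat_lit 0x605442200) (nat_lit 0xf423f00000b71aea2c2804737f423fb71ae00000f423f) (.cons (nat_lit 2) (nat_lit 6) (nat_lit 0) (nat_lit 0x130443000) (nat_lit 0xf423ff423f00000f423f54591b71ae00000b71aea2c28) (.cons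 (nat_lit 3) (nat_lit 8) (nat_lit 0) (nat_lit 0x65440100) (nat_lit 0xf423fb71aea2c280473700000f423f54591437a2) .nil)))) (.leaf (.cons (nat_lit 0x15014) (nat_lit 0x300010002000000000000000300040000) (.cons (nat_lit 0x10054) (nat_lit 0x100000000000000000001000200020000) (.cons (nat_lit 0x5540) (nat_lit 0x20003000400030001000000000000) (.cons (nat_lit 0x11504) (nat_lit 0x200000003000400030000000000010000) (.cons (nat_lit 0x10015) (nat_lit 0x100000000000000000000000200020001) .nil))))) (.cons (nat_lit 0x111101011) (nat_lit 0x10100) (nat_lit 0xd) (nat_lit 0x420103056) .nil))) (.non (nat_lit 2) (nat_lit 4) (nat_lit 0x2a804) (nat_lit 0x200010002000100000000000000020000))) (.non (nat_lit 1) (nat_lit 4) (nat_lit 0x2a840) (nat_lit 0x100020002000100000002000000000000))) (.split (nat_lit 9) (nat_lit 1) (.split (nat_lit 9) (nat_lit 2) (.split (nat_lit 9) (nat_lit 3) (.split (nat_lit 9) (nat_lit 5) (.split (nat_lit 9) (nat_lit 6) (.split (nat_lit 9) (nat_lit 7) (.split (nat_lit 9) (nat_lit 8) (.split (nat_lit 9)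 (nat_lit 0) (.unj (nat_lit 0x55) (nat_lit 0x1000200020001) (nat_lit 0x41500) (nat_lit 0x1000000000001000200020000000000000000)) (.sup (nat_lit 0x200000000000000000005000a00090000) (nat_lit 0x50000000000020009000a0000000000000000))) (.non (nat_lit 2) (nat_lit 4) (nat_lit 0x55404) (nat_lit 0x1000200010002000100000000000000010000))) (.non (nat_lit 1) (nat_lit 4) (nat_lit 0x55440) (nat_lit 0x1000100020002000100000001000000000000))) (.non (nat_lit 1) (nat_lit 4) (nat_lit 0x55400) (nat_lit 0x1000100010002000100000000000000000000))) (.non (nat_lit 2) (nat_lit 4) (nat_lit 0x55444) (nat_lit 0x1000200020003000200000001000000010000))) (.non (nat_lit 1) (nat_lit 4) (nat_lit 0x55450) (nat_lit 0x1000100020002000100000002000100000000))) (.star (nat_lit 9) (nat_lit 2) (nat_lit 4))) (.star (nat_lit 9) (nat_lit 1) (nat_lit 4)))) (.split (nat_lit 9) (nat_lit 1) (.split (nat_lit 9) (nat_lit 3) (.split (nat_lit 9) (nat_lit 4) (.split (nat_lit 9) (nat_lit 5) (.split (nat_lit 9) (nat_lit 6) (.split (nat_lit 9) (nat_lit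 7) (.split (nat_lit 9) (nat_lit 8) (.split (nat_lit 9) (nat_lit 0) (.sup (nat_lit 0x280000000000000000000000000050004a0025) (nat_lit 0x3001c0037005000410000000000000000)) (.sup (nat_lit 0x4000000000000000000000000000300050004) (nat_lit 0x20003000500040001000000000000))) (.non (nat_lit 1) (nat_lit 4) (nat_lit 0x55050) (nat_lit 0x1000100010001000000000001000100000000))) (.non (nat_lit 1) (nat_lit 4) (nat_lit 0x55440) (nat_lit 0x1000100020002000100000001000000000000))) (.non (nat_lit 1) (nat_lit 4) (nat_lit 0x55400) (nat_lit 0x1000100010002000100000000000000000000))) (.star (nat_lit 9) (nat_lit 2) (nat_lit 5))) (.star (nat_lit 9) (nat_lit 2) (nat_lit 4))) (.non (nat_lit 1) (nat_lit 4) (nat_lit 0x40050) (nat_lit 0x1000000000000000000000001000100000000))) (.non (nat_lit 2) (nat_lit 4) (nat_lit 0x55405) (nat_lit 0x1000200010002000100000000000000020001))))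

noncomputable def t767_16 : Tr := (.ex (nat_lit 4) (.split (nat_lit 7) (nat_lit 3) (.split (nat_lit 9) (nat_lit 0) (.split (nat_lit 8) (nat_lit 1) (.pd (.cons (nat_lit 1) (nat_lit 6) (nat_lit 0) (nat_lit 0x830442200) (nat_lit 0xf423ff423ff423f00000f423f54591b71aea2c2800000b71ae) (.cons (nat_lit 1) (nat_lit 7) (nat_lit 0) (nat_lit 0x605442200) (nat_lit 0xf423ff423f00000b71aea2c2804737f423fb71ae00000b71ae) (.cons (nat_lit 2) (nat_lit 6) (nat_lit 0) (nat_lit 0x130443000) (nat_lit 0xf423ff423ff423f00000f423f54591b71ae00000b71ae65b97) (.cons (nat_lit 3) (nat_lit 8) (nat_lit 0) (nat_lit 0x65440100) (nat_lit 0xf423f00000f423fb71aea2c280473700000f423f5459106711) .nil)))) (.leaf (.cons (nat_lit 0x15014) (nat_lit 0x300010002000000000000000300040000) (.cons (nat_lit 0x10054) (nat_lit 0x100000000000000000001000200020000) (.cons (nat_lit 0x5540) (nat_lit 0x20003000400030001000000000000) (.cons (nat_lit 0x11504) (nat_lit 0x200000003000400030000000000010000) (.cons (nat_lit 0x10015) (nat_lit 0x100000000000000000000000200020001)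 .nil))))) (.cons (nat_lit 0x1111101011) (nat_lit 0x10100) (nat_lit 0xe) (nat_lit 0x7420103056) .nil))) (.non (nat_lit 2) (nat_lit 4) (nat_lit 0x2a804) (nat_lit 0x200010002000100000000000000020000))) (.non (nat_lit 2) (nat_lit 4) (nat_lit 0x95405) (nat_lit 0x1000200010002000100000000000000020002))) (.non (nat_lit 1) (nat_lit 4) (nat_lit 0x2a840) (nat_lit 0x100020002000100000002000000000000))) (.split (nat_lit 0xa) (nat_lit 0) (.split (nat_lit 0xa) (nat_lit 1) (.split (nat_lit 0xa) (nat_lit 2) (.split (nat_lit 0xa) (nat_lit 3) (.split (nat_lit 0xa) (nat_lit 5) (.split (nat_lit 0xa) (nat_lit 6) (.split (nat_lit 0xa) (nat_lit 7) (.split (nat_lit 0xa) (nat_lit 8) (.split (nat_lit 0xa) (nat_lit 9) (.unj (nat_lit 0x55) (nat_lit 0x1000200020001) (nat_lit 0x101500) (nat_lit 0x10000000000000001000200020000000000000000)) (.non (nat_lit 2) (nat_lit 4) (nat_lit 0x155445) (nat_lit 0x10002000500040006000300000002000000040003))) (.non (nat_lit 2) (nat_lit 4) (nat_lit 0x115404) (nat_lit 0x10000000200010002000100000000000000010000)))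 (.non (nat_lit 1) (nat_lit 4) (nat_lit 0x115440) (nat_lit 0x10000000100020002000100000001000000000000))) (.non (nat_lit 1) (nat_lit 4) (nat_lit 0x115400) (nat_lit 0x10000000100010002000100000000000000000000))) (.non (nat_lit 2) (nat_lit 4) (nat_lit 0x115444) (nat_lit 0x10000000200020003000200000001000000010000))) (.non (nat_lit 1) (nat_lit 4) (nat_lit 0x115450) (nat_lit 0x10000000100020002000100000002000100000000))) (.star (nat_lit 0xa) (nat_lit 2) (nat_lit 4))) (.star (nat_lit 0xa) (nat_lit 1) (nat_lit 4))) (.non (nat_lit 2) (nat_lit 4) (nat_lit 0x155405) (nat_lit 0x10001000200010002000100000000000000020002))))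

noncomputable def t767_17 : Tr := (.split (nat_lit 9) (nat_lit 3) (.split (nat_lit 9) (nat_lit 5) (.split (nat_lit 9) (nat_lit 6) (.split (nat_lit 9) (nat_lit 7) (.split (nat_lit 9) (nat_lit 8) (.split (nat_lit 9) (nat_lit 2) (.split (nat_lit 9) (nat_lit 4) (.st (nat_lit 0) (nat_lit 2) (nat_lit 4) (nat_lit 0x55405) (nat_lit 0x1000200010002000100000000000000020002) (nat_lit 1) (nat_lit 1) (.st (nat_lit 9) (nat_lit 2) (nat_lit 4) (nat_lit 0x55445) (nat_lit 0x2000500040006000300000002000000040003) (nat_lit 1) (nat_lit 1) (.ex (nat_lit 2) t767_16 (.split (nat_lit 0xa) (nat_lit 0) (.split (nat_lit 0xa) (nat_lit 1) (.split (nat_lit 0xa) (nat_lit 3) (.split (nat_lit 0xa) (nat_lit 4) (.split (nat_lit 0xa) (nat_lit 5) (.split (nat_lit 0xa) (nat_lit 6) (.split (nat_lit 0xa) (nat_lit 7) (.split (nat_lit 0xa) (nat_lit 8) (.split (nat_lit 0xa) (nat_lit 9) (.sup (nat_lit 0x2800000000000000000000000000000050004a0025) (nat_lit 0x3001c0037005000410000000000000000)) (.non (nat_lit 2) (nat_lit 4) (nat_lit 0x155445)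 (nat_lit 0x10002000500040006000300000002000000040003))) (.non (nat_lit 1) (nat_lit 4) (nat_lit 0x115050) (nat_lit 0x10000000100010001000000000001000100000000))) (.non (nat_lit 1) (nat_lit 4) (nat_lit 0x115440) (nat_lit 0x10000000100020002000100000001000000000000))) (.non (nat_lit 1) (nat_lit 4) (nat_lit 0x115400) (nat_lit 0x10000000100010002000100000000000000000000))) (.star (nat_lit 0xa) (nat_lit 2) (nat_lit 5))) (.star (nat_lit 0xa) (nat_lit 2) (nat_lit 4))) (.non (nat_lit 1) (nat_lit 4) (nat_lit 0x100050) (nat_lit 0x10000000000000000000000000001000100000000))) (.non (nat_lit 2) (nat_lit 4) (nat_lit 0x115405) (nat_lit 0x10000000200010002000100000000000000020001))) (.non (nat_lit 2) (nat_lit 4) (nat_lit 0x155405) (nat_lit 0x10001000200010002000100000000000000020002)))))) (.sup (nat_lit 0x200000000000000000005000a00090000) (nat_lit 0x50000000000020009000a0000000000000000))) (.split (nat_lit 9) (nat_lit 4) (.sup (nat_lit 0x4000000000000000000000000000300050004) (nat_lit 0x20003000500040001000000000000))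 (.star (nat_lit 9) (nat_lit 2) (nat_lit 4)))) (.non (nat_lit 1) (nat_lit 4) (nat_lit 0x55451) (nat_lit 0x2000300030004000200000002000100000001))) (.non (nat_lit 1) (nat_lit 4) (nat_lit 0x55440) (nat_lit 0x1000100020002000100000001000000000000))) (.non (nat_lit 1) (nat_lit 4) (nat_lit 0x55400) (nat_lit 0x1000100010002000100000000000000000000))) (.non (nat_lit 1) (nat_lit 4) (nat_lit 0x55451) (nat_lit 0x2000200030004000300000002000100000001))) (.non (nat_lit 1) (nat_lit 4) (nat_lit 0x55450) (nat_lit 0x1000100020002000100000002000100000000)))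

noncomputable def t767_18 : Tr := (.split (nat_lit 9) (nat_lit 0) (.split (nat_lit 9) (nat_lit 3) (.split (nat_lit 9) (nat_lit 5) (.unj (nat_lit 0x55) (nat_lit 0x1000200020001) (nat_lit 0x41500) (nat_lit 0x1000000000001000200020000000000000000)) (.unj (nat_lit 0x40500) (nat_lit 0x1000000000000000100010000000000000000) (nat_lit 0x55) (nat_lit 0x1000200020001))) (.split (nat_lit 9) (nat_lit 5) (.sup (nat_lit 0x200000000000000000009000a0005) (nat_lit 0x50000000000020009000a0000000000000000)) (.non (nat_lit 1) (nat_lit 4) (nat_lit 0x45450) (nat_lit 0x1000000010001000100000001000100000000)))) (.split (nat_lit 9) (nat_lit 5) (.split (nat_lit 9) (nat_lit 3) (.sup (nat_lit 0x10000000000000003000500040000) (nat_lit 0x3000000000001000500050000000000000000)) (.st (nat_lit 0) (nat_lit 1) (nat_lit 5) (nat_lit 0x55151) (nat_lit 0x6000100030002000000030005000400000004) (nat_lit 1) (nat_lit 2) (.st (nat_lit 1) (nat_lit 2) (nat_lit 4) (nat_lit 0x15405) (nat_lit 0x200010002000100000000000000020001) (nat_lit 1) (nat_lit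 1) (.st (nat_lit 2) (nat_lit 1) (nat_lit 4) (nat_lit 0x15450) (nat_lit 0x100020002000100000001000200000000) (nat_lit 1) (nat_lit 1) (.st (nat_lit 3) (nat_lit 1) (nat_lit 4) (nat_lit 0x55450) (nat_lit 0x1000100020002000100000002000200000000) (nat_lit 1) (nat_lit 1) (.st (nat_lit 4) (nat_lit 1) (nat_lit 5) (nat_lit 0x55151) (nat_lit 0x6000100030002000000040005000400000003) (nat_lit 1) (nat_lit 2) (.st (nat_lit 5) (nat_lit 1) (nat_lit 4) (nat_lit 0x55451) (nat_lit 0x2000300050006000400000003000400000001) (nat_lit 1) (nat_lit 2) (.st (nat_lit 9) (nat_lit 1) (nat_lit 4) (nat_lit 0x55451) (nat_lit 0x2000100020002000100000002000200000001) (nat_lit 1) (nat_lit 1) (.split (nat_lit 9) (nat_lit 0) (.split (nat_lit 9) (nat_lit 3) (.split (nat_lit 7) (nat_lit 2) (.split (nat_lit 9) (nat_lit 4) (.leaf (.cons (nat_lit 0x14014) (nat_lit 0x100010000000000000000000200020000) (.cons (nat_lit 0x41500) (nat_lit 0x1000000000001000200020000000000000000) (.cons (nat_lit 0x40550) (nat_lit 0x3000000000000000300040002000100000000)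 (.cons (nat_lit 0x40541) (nat_lit 0x2000000000000000200020001000000000001) .nil)))) (.cons (nat_lit 0x1111101101) (nat_lit 0x10010) (nat_lit 0xb) (nat_lit 0x6230105407) (.cons (nat_lit 0x1111011101) (nat_lit 0x100010) (nat_lit 0xb) (nat_lit 0x756023401) .nil))) (.non (nat_lit 1) (nat_lit 5) (nat_lit 0x40241) (nat_lit 0x2000000000000000000010001000000000001))) (.non (nat_lit 1) (nat_lit 4) (nat_lit 0x2a810) (nat_lit 0x100020002000100000000000200000000))) (.non (nat_lit 1) (nat_lit 4) (nat_lit 0x95450) (nat_lit 0x1000100020002000100000002000200000000))) (.non (nat_lit 1) (nat_lit 4) (nat_lit 0xaa8a1) (nat_lit 0x2000100020002000100000002000200000002))))))))))) (.non (nat_lit 1) (nat_lit 4) (nat_lit 0x55451) (nat_lit 0x2000200030004000300000001000200000001))))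

noncomputable def t767_19 : Tr := (.ex (nat_lit 4) (.ex (nat_lit 5) (.split (nat_lit 7) (nat_lit 2) (.split (nat_lit 8) (nat_lit 1) (.pd (.cons (nat_lit 1) (nat_lit 6) (nat_lit 0) (nat_lit 0x820442200) (nat_lit 0xf423ff423f00000f423f54591f423f7a11d00000f423f) (.cons (nat_lit 1) (nat_lit 7) (nat_lit 0) (nat_lit 0x605442200) (nat_lit 0xf423f00000b71aea2c2804737f423fb71ae00000f423f) (.cons (nat_lit 2) (nat_lit 6) (nat_lit 0) (nat_lit 0x170443000) (nat_lit 0xf423ff423f00000f423f54591f423f00000b71aea2c28) (.cons (nat_lit 2) (nat_lit 8) (nat_lit 0) (nat_lit 0x65443000) (nat_lit 0xf423fb71aea2c2804737f423f00000f423fb71ae) .nil)))) (.leaf (.cons (nat_lit 0x14014) (nat_lit 0x100010000000000000000000200020000) (.cons (nat_lit 0x11504) (nat_lit 0x200000003000400030000000000010000) (.cons (nat_lit 0x5510) (nat_lit 0x20003000400030000000100000000) .nil))) .nil)) (.non (nat_lit 2) (nat_lit 4) (nat_lit 0x2a804) (nat_lit 0x200010002000100000000000000020000))) (.non (nat_lit 1) (nat_lit 4) (nat_lit 0x2a810) (nat_lit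 0x100020002000100000000000200000000))) (.split (nat_lit 9) (nat_lit 0) (.split (nat_lit 9) (nat_lit 1) (.split (nat_lit 9) (nat_lit 2) (.split (nat_lit 9) (nat_lit 3) (.split (nat_lit 9) (nat_lit 6) (.split (nat_lit 9) (nat_lit 7) (.split (nat_lit 9) (nat_lit 8) (.split (nat_lit 9) (nat_lit 4) (.unj (nat_lit 0x55) (nat_lit 0x1000200020001) (nat_lit 0x41500) (nat_lit 0x1000000000001000200020000000000000000)) (.unj (nat_lit 0x40500) (nat_lit 0x1000000000000000100010000000000000000) (nat_lit 0x55) (nat_lit 0x1000200020001))) (.non (nat_lit 1) (nat_lit 4) (nat_lit 0x51400) (nat_lit 0x1000100000001000100000000000000000000))) (.non (nat_lit 1) (nat_lit 4) (nat_lit 0x45400) (nat_lit 0x1000000010001000100000000000000000000))) (.non (nat_lit 1) (nat_lit 4) (nat_lit 0x41400) (nat_lit 0x1000000000001000100000000000000000000))) (.non (nat_lit 1) (nat_lit 4) (nat_lit 0x45450) (nat_lit 0x1000000010001000100000001000100000000))) (.star (nat_lit 9) (nat_lit 2) (nat_lit 5))) (.star (nat_lit 9) (nat_lit 1) (nat_lit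 5))) (.non (nat_lit 1) (nat_lit 4) (nat_lit 0x55451) (nat_lit 0x2000200030004000300000001000200000001)))) (.split (nat_lit 9) (nat_lit 1) (.split (nat_lit 9) (nat_lit 2) (.split (nat_lit 9) (nat_lit 6) (.split (nat_lit 9) (nat_lit 7) (.split (nat_lit 9) (nat_lit 8) t767_18 (.non (nat_lit 2) (nat_lit 4) (nat_lit 0x55404) (nat_lit 0x1000200010002000100000000000000010000))) (.non (nat_lit 1) (nat_lit 4) (nat_lit 0x55410) (nat_lit 0x1000100020002000100000000000100000000))) (.non (nat_lit 1) (nat_lit 4) (nat_lit 0x55400) (nat_lit 0x1000100010002000100000000000000000000))) (.star (nat_lit 9) (nat_lit 2) (nat_lit 4))) (.star (nat_lit 9) (nat_lit 1) (nat_lit 4))))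

noncomputable def t767_20 : Tr := (.ex (nat_lit 5) (.split (nat_lit 8) (nat_lit 2) (.split (nat_lit 8) (nat_lit 1) (.pd (.cons (nat_lit 1) (nat_lit 6) (nat_lit 0) (nat_lit 0x270442200) (nat_lit 0xf423ff423f00000f423f54591f423f7a11d00000f423f) (.cons (nat_lit 2) (nat_lit 6) (nat_lit 0) (nat_lit 0x170443000) (nat_lit 0xf423ff423f00000f423f54591f423f00000b71aea2c28) .nil)) (.ex (nat_lit 7) (.pd (.cons (nat_lit 0) (nat_lit 8) (nat_lit 0) (nat_lit 0x65442110) (nat_lit 0xf423fb71aea2c2804737f423fb71ae1f15600000) (.cons (nat_lit 1) (nat_lit 8) (nat_lit 0) (nat_lit 0x65442200) (nat_lit 0xf423fb71aea2c2804737f423fb71ae00000f423f) (.cons (nat_lit 2) (nat_lit 8) (nat_lit 0) (nat_lit 0x65443000) (nat_lit 0xf423fb71aea2c2804737f423f00000f423fb71ae) (.cons (nat_lit 3) (nat_lit 8) (nat_lit 0) (nat_lit 0x65440100) (nat_lit 0xf423fb71aea2c280473700000f423f54591437a2) .nil)))) (.leaf (.cons (nat_lit 0x10014) (nat_lit 0x100000000000000000000000100010000) (.cons (nat_lit 0x11510) (nat_lit 0x200000003000400030000000100000000)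 (.cons (nat_lit 0x11504) (nat_lit 0x200000003000400030000000000010000) .nil))) .nil)) (.split (nat_lit 9) (nat_lit 0) (.split (nat_lit 9) (nat_lit 1) (.split (nat_lit 9) (nat_lit 2) (.split (nat_lit 9) (nat_lit 3) (.split (nat_lit 9) (nat_lit 5) (.split (nat_lit 9) (nat_lit 6) (.split (nat_lit 9) (nat_lit 8) (.split (nat_lit 9) (nat_lit 4) (.unj (nat_lit 0x55) (nat_lit 0x1000200020001) (nat_lit 0x45500) (nat_lit 0x1000000020003000400030000000000000000)) (.unj (nat_lit 0x55) (nat_lit 0x1000200020001) (nat_lit 0x41500) (nat_lit 0x1000000000001000200020000000000000000))) (.non (nat_lit 1) (nat_lit 4) (nat_lit 0x55000) (nat_lit 0x1000100010001000000000000000000000000))) (.non (nat_lit 1) (nat_lit 4) (nat_lit 0x45000) (nat_lit 0x1000000010001000000000000000000000000))) (.non (nat_lit 1) (nat_lit 4) (nat_lit 0x45400) (nat_lit 0x1000000010001000100000000000000000000))) (.non (nat_lit 1) (nat_lit 4) (nat_lit 0x55050) (nat_lit 0x1000100010001000000000001000100000000))) (.non (nat_lit 1) (nat_lit 4) (nat_lit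 0x55010) (nat_lit 0x1000100010001000000000000000100000000))) (.non (nat_lit 2) (nat_lit 4) (nat_lit 0x55004) (nat_lit 0x1000100010001000000000000000000010000))) (.non (nat_lit 1) (nat_lit 4) (nat_lit 0x55451) (nat_lit 0x2000300030004000200000001000200000001))))) (.non (nat_lit 2) (nat_lit 4) (nat_lit 0x2a804) (nat_lit 0x200010002000100000000000000020000))) (.non (nat_lit 1) (nat_lit 4) (nat_lit 0x2a810) (nat_lit 0x200010002000100000000000200000000))) (.split (nat_lit 9) (nat_lit 0) (.split (nat_lit 9) (nat_lit 1) (.split (nat_lit 9) (nat_lit 2) (.split (nat_lit 9) (nat_lit 3) (.split (nat_lit 9) (nat_lit 6) (.split (nat_lit 9) (nat_lit 7) (.split (nat_lit 9) (nat_lit 8) (.split (nat_lit 9) (nat_lit 4) (.unj (nat_lit 0x55) (nat_lit 0x1000200020001) (nat_lit 0x41500) (nat_lit 0x1000000000001000200020000000000000000)) (.unj (nat_lit 0x10014) (nat_lit 0x100000000000000000000000100010000) (nat_lit 0x40500) (nat_lit 0x1000000000000000100010000000000000000))) (.non (nat_lit 1) (nat_lit 4) (nat_lit 0x51400)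 (nat_lit 0x1000100000001000100000000000000000000))) (.non (nat_lit 1) (nat_lit 4) (nat_lit 0x45400) (nat_lit 0x1000000010001000100000000000000000000))) (.non (nat_lit 1) (nat_lit 4) (nat_lit 0x41400) (nat_lit 0x1000000000001000100000000000000000000))) (.non (nat_lit 1) (nat_lit 4) (nat_lit 0x51450) (nat_lit 0x1000100000001000100000001000100000000))) (.star (nat_lit 9) (nat_lit 2) (nat_lit 5))) (.star (nat_lit 9) (nat_lit 1) (nat_lit 5))) (.non (nat_lit 1) (nat_lit 4) (nat_lit 0x55451) (nat_lit 0x2000300020004000300000001000200000001))))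

noncomputable def t767_21 : Tr := (.ex (nat_lit 3) (.ex (nat_lit 4) t767_20 (.split (nat_lit 9) (nat_lit 1) (.split (nat_lit 9) (nat_lit 2) (.split (nat_lit 9) (nat_lit 6) (.split (nat_lit 9) (nat_lit 8) (.split (nat_lit 9) (nat_lit 0) (.split (nat_lit 9) (nat_lit 3) (.split (nat_lit 9) (nat_lit 5) (.split (nat_lit 9) (nat_lit 7) (.unj (nat_lit 0x55) (nat_lit 0x1000200020001) (nat_lit 0x41500) (nat_lit 0x1000000000001000200020000000000000000)) (.unj (nat_lit 0x55) (nat_lit 0x1000200020001) (nat_lit 0x41500) (nat_lit 0x1000000000001000200020000000000000000))) (.split (nat_lit 9) (nat_lit 7) (.unj (nat_lit 0x10014) (nat_lit 0x100000000000000000000000100010000) (nat_lit 0x40500) (nat_lit 0x1000000000000000100010000000000000000)) (.non (nat_lit 1) (nat_lit 4) (nat_lit 0x45400) (nat_lit 0x1000000010001000100000000000000000000)))) (.split (nat_lit 9) (nat_lit 5) (.split (nat_lit 9) (nat_lit 7) (.sup (nat_lit 0x200000000000000000000000500050000) (nat_lit 0x3000000000001000500050000000000000000)) (.non (nat_lit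 1) (nat_lit 4) (nat_lit 0x55050) (nat_lit 0x1000100010001000000000001000100000000))) (.non (nat_lit 1) (nat_lit 4) (nat_lit 0x51450) (nat_lit 0x1000100000001000100000001000100000000)))) (.split (nat_lit 9) (nat_lit 5) (.split (nat_lit 9) (nat_lit 7) (.split (nat_lit 9) (nat_lit 3) (.sup (nat_lit 0x200000000000000000000000500050000) (nat_lit 0x3000000000001000500050000000000000000)) (.sup (nat_lit 0x200000000000000000000000500050000) (nat_lit 0x3000000000001000500050000000000000000))) (.non (nat_lit 1) (nat_lit 4) (nat_lit 0x55451) (nat_lit 0x2000300030004000200000001000200000001))) (.non (nat_lit 1) (nat_lit 4) (nat_lit 0x55451) (nat_lit 0x2000300020004000300000001000200000001)))) (.non (nat_lit 1) (nat_lit 4) (nat_lit 0x55410) (nat_lit 0x1000200010002000100000000000100000000))) (.non (nat_lit 1) (nat_lit 4) (nat_lit 0x55400) (nat_lit 0x1000100010002000100000000000000000000))) (.star (nat_lit 9) (nat_lit 2) (nat_lit 4))) (.star (nat_lit 9) (nat_lit 1) (nat_lit 4)))) (.split (nat_lit 9) (nat_lit 1)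 (.split (nat_lit 9) (nat_lit 2) (.split (nat_lit 9) (nat_lit 5) (.split (nat_lit 9) (nat_lit 6) (.split (nat_lit 9) (nat_lit 7) (.split (nat_lit 9) (nat_lit 8) (.split (nat_lit 9) (nat_lit 0) (.split (nat_lit 9) (nat_lit 4) (.split (nat_lit 9) (nat_lit 3) (.split (nat_lit 8) (nat_lit 1) (.split (nat_lit 8) (nat_lit 2) (.sup (nat_lit 0x10006000b0010000d0000000000000000) (nat_lit 0x2000000000000000000000003000500050002)) (.non (nat_lit 1) (nat_lit 4) (nat_lit 0x2a810) (nat_lit 0x200010002000100000000000200000000))) (.non (nat_lit 2) (nat_lit 4) (nat_lit 0x2a804) (nat_lit 0x200010002000100000000000000020000))) (.non (nat_lit 1) (nat_lit 4) (nat_lit 0x95450) (nat_lit 0x1000200010002000100000002000200000000))) (.sup (nat_lit 0x200000000000000000000000500050000) (nat_lit 0x3000000000001000500050000000000000000))) (.split (nat_lit 9) (nat_lit 4) (.split (nat_lit 9) (nat_lit 0) (.split (nat_lit 9) (nat_lit 3) (.split (nat_lit 8) (nat_lit 1) (.sup (nat_lit 0x100030006000800060000000000000000) (nat_lit 0x2000000000000000000000002000200020002))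 (.non (nat_lit 2) (nat_lit 4) (nat_lit 0x2a804) (nat_lit 0x200010002000100000000000000020000))) (.non (nat_lit 1) (nat_lit 4) (nat_lit 0x95450) (nat_lit 0x1000200010002000100000002000200000000))) (.non (nat_lit 1) (nat_lit 4) (nat_lit 0xaa8a1) (nat_lit 0x2000200010002000100000002000200000002))) (.sup (nat_lit 0x200000000000000000000000500050000) (nat_lit 0x3000000000001000500050000000000000000)))) (.non (nat_lit 1) (nat_lit 4) (nat_lit 0x55410) (nat_lit 0x1000200010002000100000000000100000000))) (.non (nat_lit 1) (nat_lit 4) (nat_lit 0x55050) (nat_lit 0x1000100010001000000000001000100000000))) (.non (nat_lit 1) (nat_lit 4) (nat_lit 0x55400) (nat_lit 0x1000100010002000100000000000000000000))) (.non (nat_lit 1) (nat_lit 4) (nat_lit 0x51450) (nat_lit 0x1000100000001000100000001000100000000))) (.non (nat_lit 1) (nat_lit 4) (nat_lit 0x40050) (nat_lit 0x1000000000000000000000001000100000000))) (.non (nat_lit 2) (nat_lit 4) (nat_lit 0x55405) (nat_lit 0x1000200010002000100000000000000020001))))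

noncomputable def t767_22 : Tr := (.split (nat_lit 7) (nat_lit 2) (.split (nat_lit 7) (nat_lit 3) (.st (nat_lit 1) (nat_lit 2) (nat_lit 4) (nat_lit 0x15405) (nat_lit 0x200010002000100000000000000020001) (nat_lit 1) (nat_lit 1) (.st (nat_lit 2) (nat_lit 1) (nat_lit 4) (nat_lit 0x15450) (nat_lit 0x200010002000100000001000200000000) (nat_lit 1) (nat_lit 1) (.ex (nat_lit 0) t767_21 (.split (nat_lit 9) (nat_lit 1) (.split (nat_lit 9) (nat_lit 2) (.split (nat_lit 9) (nat_lit 5) (.split (nat_lit 9) (nat_lit 6) (.split (nat_lit 9) (nat_lit 7) (.split (nat_lit 9) (nat_lit 8) (.split (nat_lit 9) (nat_lit 3) (.split (nat_lit 9) (nat_lit 4) (.split (nat_lit 9) (nat_lit 0) (.split (nat_lit 8) (nat_lit 1) (.split (nat_lit 8) (nat_lit 2) (.sup (nat_lit 0x10006000b0010000d0000000000000000) (nat_lit 0x2000000000000000000000002000500050003)) (.non (nat_lit 1) (nat_lit 4) (nat_lit 0x2a810) (nat_lit 0x200010002000100000000000200000000))) (.non (nat_lit 2) (nat_lit 4) (nat_lit 0x2a804) (nat_lit 0x200010002000100000000000000020000)))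 (.non (nat_lit 2) (nat_lit 4) (nat_lit 0x95405) (nat_lit 0x1000200010002000100000000000000020002))) (.sup (nat_lit 0x200000000000000000000000500050000) (nat_lit 0x3000000000001000500050000000000000000))) (.split (nat_lit 9) (nat_lit 4) (.split (nat_lit 9) (nat_lit 0) (.split (nat_lit 9) (nat_lit 3) (.split (nat_lit 8) (nat_lit 1) (.sup (nat_lit 0x100030006000800060000000000000000) (nat_lit 0x2000000000000000000000002000200020002)) (.non (nat_lit 2) (nat_lit 4) (nat_lit 0x2a804) (nat_lit 0x200010002000100000000000000020000))) (.non (nat_lit 1) (nat_lit 4) (nat_lit 0x95450) (nat_lit 0x1000200010002000100000002000200000000))) (.non (nat_lit 1) (nat_lit 4) (nat_lit 0xaa8a1) (nat_lit 0x2000200010002000100000002000200000002))) (.sup (nat_lit 0x200000000000000000000000500050000) (nat_lit 0x3000000000001000500050000000000000000)))) (.non (nat_lit 1) (nat_lit 4) (nat_lit 0x55410) (nat_lit 0x1000200010002000100000000000100000000))) (.non (nat_lit 1) (nat_lit 4) (nat_lit 0x55451) (nat_lit 0x2000300030004000200000001000200000001)))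 (.non (nat_lit 1) (nat_lit 4) (nat_lit 0x55400) (nat_lit 0x1000100010002000100000000000000000000))) (.non (nat_lit 1) (nat_lit 4) (nat_lit 0x55451) (nat_lit 0x2000300020004000300000001000200000001))) (.non (nat_lit 1) (nat_lit 4) (nat_lit 0x55450) (nat_lit 0x1000200010002000100000001000200000000))) (.non (nat_lit 2) (nat_lit 4) (nat_lit 0x40005) (nat_lit 0x1000000000000000000000000000000010001)))))) (.non (nat_lit 1) (nat_lit 4) (nat_lit 0x15050) (nat_lit 0x100010001000000000001000100000000))) (.non (nat_lit 1) (nat_lit 4) (nat_lit 0x15010) (nat_lit 0x100010001000000000000000100000000)))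

noncomputable def t767_23 : Tr := (.ex (nat_lit 4) (.split (nat_lit 7) (nat_lit 3) (.split (nat_lit 8) (nat_lit 0) (.pd (.cons (nat_lit 0) (nat_lit 6) (nat_lit 0) (nat_lit 0x830442110) (nat_lit 0xf423ff423f00000f423f54591b71aea2c280473700000) (.cons (nat_lit 0) (nat_lit 7) (nat_lit 0) (nat_lit 0x605442110) (nat_lit 0xf423f00000b71aea2c2804737f423fb71ae1f15600000) (.cons (nat_lit 1) (nat_lit 6) (nat_lit 0) (nat_lit 0x30442200) (nat_lit 0xf423ff423f00000f423f54591b71aea2c2800000b71ae) (.cons (nat_lit 2) (nat_lit 6) (nat_lit 0) (nat_lit 0x30443000) (nat_lit 0xf423ff423f00000f423f54591b71ae00000f423f7a11d) (.cons (nat_lit 3) (nat_lit 6) (nat_lit 0) (nat_lit 0x70440100) (nat_lit 0xf423ff423f00000f423f5459100000f423f5459106711) (.cons (nat_lit 3) (nat_lit 8) (nat_lit 0) (nat_lit 0x65440100) (nat_lit 0xf423fb71aea2c280473700000f423f54591437a2) .nil)))))) (.leaf (.cons (nat_lit 0x5054) (nat_lit 0x20001000000000003000400030000) (.cons (nat_lit 0x11501) (nat_lit 0x200000003000400030000000000000001) (.cons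 (nat_lit 0x5540) (nat_lit 0x20003000400030001000000000000) (.cons (nat_lit 0x11015) (nat_lit 0x200000001000000000000000300040003) .nil)))) (.cons (nat_lit 0x111101101) (nat_lit 0x10010) (nat_lit 0xd) (nat_lit 0x240105603) (.cons (nat_lit 0x111001101) (nat_lit 0x100010) (nat_lit 4) (nat_lit 0x132004500) (.cons (nat_lit 0x111101011) (nat_lit 0x10100) (nat_lit 0xd) (nat_lit 0x420103065) (.cons (nat_lit 0x111001011) (nat_lit 0x100100) (nat_lit 4) (nat_lit 0x243005001) .nil)))))) (.non (nat_lit 1) (nat_lit 4) (nat_lit 0x2a801) (nat_lit 0x200010002000100000000000000000002))) (.non (nat_lit 1) (nat_lit 4) (nat_lit 0x2a840) (nat_lit 0x100020002000100000002000000000000))) (.split (nat_lit 9) (nat_lit 0) (.split (nat_lit 9) (nat_lit 1) (.split (nat_lit 9) (nat_lit 2) (.split (nat_lit 9) (nat_lit 3) (.split (nat_lit 9) (nat_lit 5) (.split (nat_lit 9) (nat_lit 6) (.split (nat_lit 9) (nat_lit 7) (.split (nat_lit 9) (nat_lit 8) (.unj (nat_lit 0x55) (nat_lit 0x1000200020001) (nat_lit 0x41500) (nat_lit 0x1000000000001000200020000000000000000))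 (.non (nat_lit 1) (nat_lit 4) (nat_lit 0x55401) (nat_lit 0x1000200010002000100000000000000000001))) (.non (nat_lit 1) (nat_lit 4) (nat_lit 0x55440) (nat_lit 0x1000100020002000100000001000000000000))) (.non (nat_lit 1) (nat_lit 4) (nat_lit 0x55400) (nat_lit 0x1000100010002000100000000000000000000))) (.non (nat_lit 1) (nat_lit 4) (nat_lit 0x55441) (nat_lit 0x1000200020003000200000001000000000001))) (.non (nat_lit 1) (nat_lit 4) (nat_lit 0x55450) (nat_lit 0x1000100020002000100000002000100000000))) (.star (nat_lit 9) (nat_lit 2) (nat_lit 4))) (.star (nat_lit 9) (nat_lit 1) (nat_lit 4))) (.non (nat_lit 1) (nat_lit 4) (nat_lit 0x55451) (nat_lit 0x1000300030004000200000002000100000002))))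

noncomputable def t767_24 : Tr := (.st (nat_lit 5) (nat_lit 1) (nat_lit 4) (nat_lit 0x15441) (nat_lit 0x200020003000200000001000000000001) (nat_lit 1) (nat_lit 1) (.st (nat_lit 7) (nat_lit 1) (nat_lit 4) (nat_lit 0x15440) (nat_lit 0x100020002000100000001000000000000) (nat_lit 1) (nat_lit 1) (.st (nat_lit 8) (nat_lit 1) (nat_lit 4) (nat_lit 0x15401) (nat_lit 0x200010002000100000000000000000001) (nat_lit 1) (nat_lit 1) (.ex (nat_lit 1) (.ex (nat_lit 2) t767_23 (.split (nat_lit 9) (nat_lit 0) (.split (nat_lit 9) (nat_lit 3) (.split (nat_lit 9) (nat_lit 4) (.split (nat_lit 9) (nat_lit 5) (.split (nat_lit 9) (nat_lit 6) (.split (nat_lit 9) (nat_lit 7) (.split (nat_lit 9) (nat_lit 8) (.split (nat_lit 9) (nat_lit 1) (.sup (nat_lit 0x5000000000000000000000000000a00090002) (nat_lit 0x100030007000a00080000000000000000)) (.unj (nat_lit 0x40014) (nat_lit 0x1000000000000000000000000000100010000) (nat_lit 0x15500) (nat_lit 0x100010002000200020000000000000000))) (.non (nat_lit 1) (nat_lit 4) (nat_lit 0x55050) (nat_lit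 0x1000100010001000000000001000100000000))) (.non (nat_lit 1) (nat_lit 4) (nat_lit 0x55440) (nat_lit 0x1000100020002000100000001000000000000))) (.non (nat_lit 1) (nat_lit 4) (nat_lit 0x55400) (nat_lit 0x1000100010002000100000000000000000000))) (.star (nat_lit 9) (nat_lit 2) (nat_lit 5))) (.star (nat_lit 9) (nat_lit 2) (nat_lit 4))) (.non (nat_lit 1) (nat_lit 4) (nat_lit 0x40050) (nat_lit 0x1000000000000000000000001000100000000))) (.non (nat_lit 1) (nat_lit 4) (nat_lit 0x55051) (nat_lit 0x1000100010001000000000001000100000001)))) (.split (nat_lit 9) (nat_lit 0) (.split (nat_lit 9) (nat_lit 3) (.split (nat_lit 9) (nat_lit 4) (.split (nat_lit 9) (nat_lit 5) (.split (nat_lit 9) (nat_lit 6) (.split (nat_lit 9) (nat_lit 7) (.split (nat_lit 9) (nat_lit 8) (.split (nat_lit 9) (nat_lit 2) (.sup (nat_lit 0x50000000000000000000000000006000a0005) (nat_lit 0x40007000a00080001000000000000)) (.unj (nat_lit 0x40014) (nat_lit 0x1000000000000000000000000000100010000) (nat_lit 0x15500) (nat_lit 0x100010002000200020000000000000000)))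 (.non (nat_lit 1) (nat_lit 4) (nat_lit 0x55401) (nat_lit 0x1000200010002000100000000000000000001))) (.non (nat_lit 1) (nat_lit 4) (nat_lit 0x55440) (nat_lit 0x1000100020002000100000001000000000000))) (.non (nat_lit 1) (nat_lit 4) (nat_lit 0x55400) (nat_lit 0x1000100010002000100000000000000000000))) (.star (nat_lit 9) (nat_lit 1) (nat_lit 5))) (.star (nat_lit 9) (nat_lit 1) (nat_lit 4))) (.non (nat_lit 1) (nat_lit 4) (nat_lit 0x55450) (nat_lit 0x1000100020002000100000002000100000000))) (.non (nat_lit 1) (nat_lit 4) (nat_lit 0x55451) (nat_lit 0x1000300030004000200000002000100000002)))))))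

noncomputable def t767_25 : Tr := (.ex (nat_lit 4) (.split (nat_lit 9) (nat_lit 3) (.split (nat_lit 7) (nat_lit 2) (.split (nat_lit 8) (nat_lit 0) (.pd (.cons (nat_lit 0) (nat_lit 7) (nat_lit 0) (nat_lit 0x3605442110) (nat_lit 0xf423ff423f00000b71aea2c2804737b71aea2c280473700000) (.cons (nat_lit 1) (nat_lit 6) (nat_lit 0) (nat_lit 0x3020442200) (nat_lit 0xf423ff423ff423f00000f423f54591b71ae65b9700000b71ae) (.cons (nat_lit 2) (nat_lit 6) (nat_lit 0) (nat_lit 0x3070443000) (nat_lit 0xf423ff423ff423f00000f423f54591b71ae00000f423f7a11d) (.cons (nat_lit 2) (nat_lit 8) (nat_lit 0) (nat_lit 0x3065443000) (nat_lit 0xf423f00000f423fb71aea2c2804737b71ae00000f423fb71ae) .nil)))) (.leaf (.cons (nat_lit 0x15014) (nat_lit 0x100030002000000000000000400030000) (.cons (nat_lit 0x4054) (nat_lit 0x10000000000000001000200020000) (.cons (nat_lit 0x11501) (nat_lit 0x200000003000400030000000000000001) (.cons (nat_lit 0x5510) (nat_lit 0x20003000400030000000100000000) (.cons (nat_lit 0x4015) (nat_lit 0x10000000000000000000200020001)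 .nil))))) (.cons (nat_lit 0x1111101101) (nat_lit 0x10010) (nat_lit 0xe) (nat_lit 0x7240106503) .nil))) (.non (nat_lit 1) (nat_lit 4) (nat_lit 0x2a801) (nat_lit 0x200010002000100000000000000000002))) (.non (nat_lit 1) (nat_lit 4) (nat_lit 0x2a810) (nat_lit 0x100020002000100000000000200000000))) (.non (nat_lit 1) (nat_lit 4) (nat_lit 0x95450) (nat_lit 0x1000100020002000100000002000200000000))) (.split (nat_lit 0xa) (nat_lit 0) (.split (nat_lit 0xa) (nat_lit 1) (.split (nat_lit 0xa) (nat_lit 2) (.split (nat_lit 0xa) (nat_lit 3) (.split (nat_lit 0xa) (nat_lit 5) (.split (nat_lit 0xa) (nat_lit 6) (.split (nat_lit 0xa) (nat_lit 7) (.split (nat_lit 0xa) (nat_lit 8) (.split (nat_lit 0xa) (nat_lit 9) (.unj (nat_lit 0x55) (nat_lit 0x1000200020001) (nat_lit 0x101500) (nat_lit 0x10000000000000001000200020000000000000000)) (.non (nat_lit 1) (nat_lit 4) (nat_lit 0x155451) (nat_lit 0x10002000400050006000300000003000400000002))) (.non (nat_lit 1) (nat_lit 4) (nat_lit 0x115401) (nat_lit 0x10000000200010002000100000000000000000001)))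 (.non (nat_lit 1) (nat_lit 4) (nat_lit 0x115410) (nat_lit 0x10000000100020002000100000000000100000000))) (.non (nat_lit 1) (nat_lit 4) (nat_lit 0x115400) (nat_lit 0x10000000100010002000100000000000000000000))) (.non (nat_lit 1) (nat_lit 4) (nat_lit 0x115411) (nat_lit 0x10000000200020003000200000000000100000001))) (.non (nat_lit 1) (nat_lit 4) (nat_lit 0x155450) (nat_lit 0x10001000100020002000100000002000200000000))) (.star (nat_lit 0xa) (nat_lit 2) (nat_lit 4))) (.star (nat_lit 0xa) (nat_lit 1) (nat_lit 4))) (.non (nat_lit 1) (nat_lit 4) (nat_lit 0x115451) (nat_lit 0x10000000300030004000200000001000200000002))))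

noncomputable def t767_26 : Tr := (.ex (nat_lit 3) (.ex (nat_lit 4) (.split (nat_lit 7) (nat_lit 2) (.split (nat_lit 8) (nat_lit 0) (.pd (.cons (nat_lit 0) (nat_lit 7) (nat_lit 0) (nat_lit 0x605442110) (nat_lit 0xf423f00000b71aea2c2804737f423fb71ae1f15600000) (.cons (nat_lit 1) (nat_lit 6) (nat_lit 0) (nat_lit 0x20442200) (nat_lit 0xf423ff423f00000f423f54591f423f7a11d00000b71ae) (.cons (nat_lit 2) (nat_lit 6) (nat_lit 0) (nat_lit 0x70443000) (nat_lit 0xf423ff423f00000f423f54591f423f00000f423f7a11d) (.cons (nat_lit 2) (nat_lit 8) (nat_lit 0) (nat_lit 0x65443000) (nat_lit 0xf423fb71aea2c2804737f423f00000f423fb71ae) .nil)))) (.leaf (.cons (nat_lit 0x15014) (nat_lit 0x100030002000000000000000400030000) (.cons (nat_lit 0x4054) (nat_lit 0x10000000000000001000200020000) (.cons (nat_lit 0x11501) (nat_lit 0x200000003000400030000000000000001) (.cons (nat_lit 0x5510) (nat_lit 0x20003000400030000000100000000) (.cons (nat_lit 0x4015) (nat_lit 0x10000000000000000000200020001) .nil))))) (.cons (nat_lit 0x111101101)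 (nat_lit 0x10010) (nat_lit 0xd) (nat_lit 0x240106503) .nil))) (.non (nat_lit 1) (nat_lit 4) (nat_lit 0x2a801) (nat_lit 0x200010002000100000000000000000002))) (.non (nat_lit 1) (nat_lit 4) (nat_lit 0x2a810) (nat_lit 0x100020002000100000000000200000000))) (.split (nat_lit 9) (nat_lit 0) (.split (nat_lit 9) (nat_lit 1) (.split (nat_lit 9) (nat_lit 2) (.split (nat_lit 9) (nat_lit 5) (.split (nat_lit 9) (nat_lit 6) (.split (nat_lit 9) (nat_lit 7) (.split (nat_lit 9) (nat_lit 8) (.split (nat_lit 9) (nat_lit 3) (.unj (nat_lit 0x55) (nat_lit 0x1000200020001) (nat_lit 0x41500) (nat_lit 0x1000000000001000200020000000000000000)) (.sup (nat_lit 0x200000000000000000009000a0005) (nat_lit 0x50000000000020009000a0000000000000000))) (.non (nat_lit 1) (nat_lit 4) (nat_lit 0x55401) (nat_lit 0x1000200010002000100000000000000000001))) (.non (nat_lit 1) (nat_lit 4) (nat_lit 0x55410) (nat_lit 0x1000100020002000100000000000100000000))) (.non (nat_lit 1) (nat_lit 4) (nat_lit 0x55400) (nat_lit 0x1000100010002000100000000000000000000)))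 (.non (nat_lit 1) (nat_lit 4) (nat_lit 0x55411) (nat_lit 0x1000200020003000200000000000100000001))) (.star (nat_lit 9) (nat_lit 2) (nat_lit 4))) (.star (nat_lit 9) (nat_lit 1) (nat_lit 4))) (.non (nat_lit 1) (nat_lit 4) (nat_lit 0x55451) (nat_lit 0x1000300030004000200000001000200000002)))) (.split (nat_lit 9) (nat_lit 0) (.split (nat_lit 9) (nat_lit 2) (.split (nat_lit 9) (nat_lit 5) (.split (nat_lit 9) (nat_lit 6) (.split (nat_lit 9) (nat_lit 7) (.split (nat_lit 9) (nat_lit 8) (.split (nat_lit 9) (nat_lit 1) (.split (nat_lit 9) (nat_lit 4) (.st (nat_lit 3) (nat_lit 1) (nat_lit 4) (nat_lit 0x55450) (nat_lit 0x1000100020002000100000002000200000000) (nat_lit 1) (nat_lit 1) (.st (nat_lit 9) (nat_lit 1) (nat_lit 4) (nat_lit 0x55451) (nat_lit 0x2000400050006000300000003000400000002) (nat_lit 1) (nat_lit 1) t767_25)) (.sup (nat_lit 0x200000000000000000009000a0005) (nat_lit 0x50000000000020009000a0000000000000000))) (.split (nat_lit 9) (nat_lit 4) (.sup (nat_lit 0x4000000000000000000000004000500030000) (nat_lit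 0x200000003000500040000000000000001)) (.star (nat_lit 9) (nat_lit 1) (nat_lit 4)))) (.non (nat_lit 1) (nat_lit 4) (nat_lit 0x55050) (nat_lit 0x1000100010001000000000001000100000000))) (.non (nat_lit 1) (nat_lit 4) (nat_lit 0x55410) (nat_lit 0x1000100020002000100000000000100000000))) (.non (nat_lit 1) (nat_lit 4) (nat_lit 0x55400) (nat_lit 0x1000100010002000100000000000000000000))) (.non (nat_lit 1) (nat_lit 4) (nat_lit 0x45450) (nat_lit 0x1000000010001000100000001000100000000))) (.non (nat_lit 1) (nat_lit 4) (nat_lit 0x40050) (nat_lit 0x1000000000000000000000001000100000000))) (.non (nat_lit 1) (nat_lit 4) (nat_lit 0x55051) (nat_lit 0x1000100010001000000000001000100000001))))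

noncomputable def t767_27 : Tr := (.split (nat_lit 7) (nat_lit 0) (.split (nat_lit 7) (nat_lit 1) (.split (nat_lit 7) (nat_lit 2) (.split (nat_lit 7) (nat_lit 3) (.sup (nat_lit 0x5000a00090002) (nat_lit 0x100030007000a00080000000000000000)) (.st (nat_lit 0) (nat_lit 1) (nat_lit 4) (nat_lit 0x15451) (nat_lit 0x300030004000200000002000100000002) (nat_lit 1) (nat_lit 1) (.st (nat_lit 3) (nat_lit 1) (nat_lit 4) (nat_lit 0x15450) (nat_lit 0x100020002000100000002000100000000) (nat_lit 1) (nat_lit 1) t767_24))) (.split (nat_lit 7) (nat_lit 3) (.st (nat_lit 2) (nat_lit 1) (nat_lit 4) (nat_lit 0x15450) (nat_lit 0x100020002000100000001000200000000) (nat_lit 1) (nat_lit 1) (.st (nat_lit 5) (nat_lit 1) (nat_lit 4) (nat_lit 0x15411) (nat_lit 0x200020003000200000000000100000001) (nat_lit 1) (nat_lit 1) (.st (nat_lit 7) (nat_lit 1) (nat_lit 4) (nat_lit 0x15410) (nat_lit 0x100020002000100000000000100000000) (nat_lit 1) (nat_lit 1) (.st (nat_lit 8) (nat_lit 1) (nat_lit 4) (nat_lit 0x15401) (nat_lit 0x200010002000100000000000000000001)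 (nat_lit 1) (nat_lit 1) (.st (nat_lit 0) (nat_lit 1) (nat_lit 4) (nat_lit 0x15451) (nat_lit 0x300030004000200000001000200000002) (nat_lit 1) (nat_lit 1) (.ex (nat_lit 1) t767_26 (.split (nat_lit 9) (nat_lit 0) (.split (nat_lit 9) (nat_lit 2) (.split (nat_lit 9) (nat_lit 4) (.split (nat_lit 9) (nat_lit 5) (.split (nat_lit 9) (nat_lit 6) (.split (nat_lit 9) (nat_lit 7) (.split (nat_lit 9) (nat_lit 8) (.split (nat_lit 9) (nat_lit 3) (.sup (nat_lit 0x28000000000000000000000025004a00500000) (nat_lit 0x1c00030037005000410000000000000000)) (.sup (nat_lit 0x4000000000000000000000004000500030000) (nat_lit 0x200000003000500040000000000000001))) (.non (nat_lit 1) (nat_lit 4) (nat_lit 0x55401) (nat_lit 0x1000200010002000100000000000000000001))) (.non (nat_lit 1) (nat_lit 4) (nat_lit 0x55410) (nat_lit 0x1000100020002000100000000000100000000))) (.non (nat_lit 1) (nat_lit 4) (nat_lit 0x55400) (nat_lit 0x1000100010002000100000000000000000000))) (.star (nat_lit 9) (nat_lit 1) (nat_lit 5))) (.star (nat_lit 9) (nat_lit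 1) (nat_lit 4))) (.non (nat_lit 1) (nat_lit 4) (nat_lit 0x55450) (nat_lit 0x1000100020002000100000001000200000000))) (.non (nat_lit 1) (nat_lit 4) (nat_lit 0x55451) (nat_lit 0x1000300030004000200000001000200000002))))))))) (.non (nat_lit 1) (nat_lit 4) (nat_lit 0x4050) (nat_lit 0x10000000000000001000100000000)))) (.non (nat_lit 2) (nat_lit 4) (nat_lit 0x15005) (nat_lit 0x100010001000000000000000000010001))) (.non (nat_lit 1) (nat_lit 4) (nat_lit 0x15001) (nat_lit 0x100010001000000000000000000000001)))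

noncomputable def t767 : Tr := (.split (nat_lit 8) (nat_lit 0) (.split (nat_lit 8) (nat_lit 1) (.split (nat_lit 8) (nat_lit 2) t767_9 (.split (nat_lit 8) (nat_lit 3) t767_14 (.non (nat_lit 1) (nat_lit 4) (nat_lit 0x10050) (nat_lit 0x100000000000000000001000100000000)))) (.split (nat_lit 8) (nat_lit 3) (.split (nat_lit 7) (nat_lit 0) (.split (nat_lit 7) (nat_lit 1) (.split (nat_lit 8) (nat_lit 2) (.split (nat_lit 7) (nat_lit 2) (.split (nat_lit 7) (nat_lit 3) (.sup (nat_lit 0x280050004a0025) (nat_lit 0x3001c0037005000410000000000000000)) (.st (nat_lit 1) (nat_lit 2) (nat_lit 4) (nat_lit 0x15405) (nat_lit 0x200010002000100000000000000020001) (nat_lit 1) (nat_lit 1) (.st (nat_lit 5) (nat_lit 2) (nat_lit 4) (nat_lit 0x15444) (nat_lit 0x200020003000200000001000000010000) (nat_lit 1) (nat_lit 1) (.st (nat_lit 7) (nat_lit 1) (nat_lit 4) (nat_lit 0x15440) (nat_lit 0x100020002000100000001000000000000) (nat_lit 1) (nat_lit 1) (.st (nat_lit 8) (nat_lit 2) (nat_lit 4) (nat_lit 0x15404) (nat_lit 0x200010002000100000000000000010000)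 (nat_lit 1) (nat_lit 1) (.st (nat_lit 3) (nat_lit 1) (nat_lit 4) (nat_lit 0x15450) (nat_lit 0x100020002000100000002000100000000) (nat_lit 1) (nat_lit 1) (.ex (nat_lit 0) t767_15 (.split (nat_lit 9) (nat_lit 1) t767_17 (.non (nat_lit 2) (nat_lit 4) (nat_lit 0x40005) (nat_lit 0x1000000000000000000000000000000010001)))))))))) (.split (nat_lit 7) (nat_lit 3) (.st (nat_lit 7) (nat_lit 1) (nat_lit 4) (nat_lit 0x15410) (nat_lit 0x100020002000100000000000100000000) (nat_lit 1) (nat_lit 1) (.st (nat_lit 8) (nat_lit 2) (nat_lit 4) (nat_lit 0x15404) (nat_lit 0x200010002000100000000000000010000) (nat_lit 1) (nat_lit 1) t767_19)) (.non (nat_lit 1) (nat_lit 4) (nat_lit 0x4050) (nat_lit 0x10000000000000001000100000000)))) t767_22) (.non (nat_lit 2) (nat_lit 4) (nat_lit 0x15004) (nat_lit 0x100010001000000000000000000010000))) (.non (nat_lit 2) (nat_lit 4) (nat_lit 0x15005) (nat_lit 0x100010001000000000000000000010001))) (.non (nat_lit 2) (nat_lit 4) (nat_lit 0x15444) (nat_lit 0x200010002000100000001000000010000))))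 (.split (nat_lit 8) (nat_lit 1) (.split (nat_lit 8) (nat_lit 2) (.split (nat_lit 8) (nat_lit 3) t767_27 (.non (nat_lit 1) (nat_lit 4) (nat_lit 0x15441) (nat_lit 0x200010002000100000001000000000001))) (.non (nat_lit 1) (nat_lit 4) (nat_lit 0x15411) (nat_lit 0x200010002000100000000000100000001))) (.non (nat_lit 2) (nat_lit 4) (nat_lit 0x10005) (nat_lit 0x100000000000000000000000000010001))))

noncomputable def t768_1 : Tr := (.ex (nat_lit 8) (.pd (.cons (nat_lit 0) (nat_lit 5) (nat_lit 0) (nat_lit 0x666042110) (nat_lit 0xf423ff423f7a11d00000f423ff423fb71ae1f15600000) (.cons (nat_lit 1) (nat_lit 5) (nat_lit 0) (nat_lit 0x666042200) (nat_lit 0xf423ff423f7a11d00000f423ff423fb71ae00000f423f) (.cons (nat_lit 2) (nat_lit 5) (nat_lit 0) (nat_lit 0x666043000) (nat_lit 0xf423ff423f7a11d00000f423ff423f00000f423fb71ae) (.cons (nat_lit 3) (nat_lit 5) (nat_lit 0) (nat_lit 0x666040100) (nat_lit 0xf423ff423f7a11d00000f423f00000f423f54591437a2) (.cons (nat_lit 3) (nat_lit 7) (nat_lit 0) (nat_lit 0x605440100) (nat_lit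 0xf423f00000b71aea2c280473700000f423f54591437a2) .nil))))) (.leaf (.cons (nat_lit 0x1454) (nat_lit 0x1000200000003000400030000) (.cons (nat_lit 0x554) (nat_lit 0x100010001000100010000) (.cons (nat_lit 0x1540) (nat_lit 0x1000200020001000000000000) .nil))) .nil)) (.split (nat_lit 9) (nat_lit 0) (.split (nat_lit 9) (nat_lit 1) (.split (nat_lit 9) (nat_lit 2) (.split (nat_lit 9) (nat_lit 3) (.split (nat_lit 9) (nat_lit 4) (.split (nat_lit 9) (nat_lit 5) (.split (nat_lit 9) (nat_lit 6) (.split (nat_lit 9) (nat_lit 7) (.st (nat_lit 8) (nat_lit 1) (nat_lit 4) (nat_lit 0x55400) (nat_lit 0x1000200010002000100000000000000000000) (nat_lit 1) (nat_lit 1) (.st (nat_lit 9) (nat_lit 1) (nat_lit 4) (nat_lit 0x55450) (nat_lit 0x2000300020004000300000002000100000000) (nat_lit 1) (nat_lit 1) (.split (nat_lit 9) (nat_lit 8) (.pd (.cons (nat_lit 0) (nat_lit 5) (nat_lit 0) (nat_lit 0x8666042110) (nat_lit 0xf423fb71aef423f65b9700000f423ff423fb71ae1f15600000) (.cons (nat_lit 1) (nat_lit 5) (nat_lit 0) (nat_lit 0x8666042200)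 (nat_lit 0xf423fb71aef423f65b9700000f423ff423fb71ae00000f423f) (.cons (nat_lit 2) (nat_lit 5) (nat_lit 0) (nat_lit 0x8666043000) (nat_lit 0xf423fb71aef423f65b9700000f423ff423f00000f423fb71ae) (.cons (nat_lit 3) (nat_lit 5) (nat_lit 0) (nat_lit 0x8666040100) (nat_lit 0xf423fb71aef423f65b9700000f423f00000f423f54591437a2) .nil)))) (.leaf (.cons (nat_lit 0x1454) (nat_lit 0x1000200000003000400030000) (.cons (nat_lit 0x554) (nat_lit 0x100010001000100010000) (.cons (nat_lit 0x51500) (nat_lit 0x1000200000003000400030000000000000000) (.cons (nat_lit 0x1540) (nat_lit 0x1000200020001000000000000) .nil)))) .nil)) (.non (nat_lit 1) (nat_lit 4) (nat_lit 0x95400) (nat_lit 0x1000200010002000100000000000000000000))))) (.non (nat_lit 1) (nat_lit 4) (nat_lit 0x55000) (nat_lit 0x1000100010001000000000000000000000000))) (.non (nat_lit 1) (nat_lit 4) (nat_lit 0x51000) (nat_lit 0x1000100000001000000000000000000000000))) (.non (nat_lit 1) (nat_lit 4) (nat_lit 0x51400) (nat_lit 0x1000100000001000100000000000000000000))) (.non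 (nat_lit 1) (nat_lit 6) (nat_lit 0x40540) (nat_lit 0x1000000000000000200020001000000000000))) (.non (nat_lit 1) (nat_lit 4) (nat_lit 0x51440) (nat_lit 0x1000100000001000100000001000000000000))) (.non (nat_lit 1) (nat_lit 4) (nat_lit 0x51450) (nat_lit 0x1000100000001000100000001000100000000))) (.non (nat_lit 3) (nat_lit 4) (nat_lit 0x51014) (nat_lit 0x3000200000001000000000000000300040000))) (.non (nat_lit 1) (nat_lit 4) (nat_lit 0x55451) (nat_lit 0x2000300020004000300000002000100000001))))

noncomputable def t768_2 : Tr := (.split (nat_lit 9) (nat_lit 0) (.split (nat_lit 9) (nat_lit 1) (.split (nat_lit 9) (nat_lit 2) (.split (nat_lit 9) (nat_lit 3) (.split (nat_lit 9) (nat_lit 4) (.split (nat_lit 9) (nat_lit 5) (.split (nat_lit 9) (nat_lit 6) (.split (nat_lit 9) (nat_lit 8) (.st (nat_lit 7) (nat_lit 1) (nat_lit 4) (nat_lit 0x55400) (nat_lit 0x1000100020002000100000000000000000000) (nat_lit 1) (nat_lit 1) (.st (nat_lit 8) (nat_lit 1) (nat_lit 4) (nat_lit 0x55440) (nat_lit 0x1000200020003000200000001000000000000)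 (nat_lit 1) (nat_lit 1) (.pd (.cons (nat_lit 3) (nat_lit 7) (nat_lit 0) (nat_lit 0x9605440100) (nat_lit 0xf423ff423f00000b71aea2c280473700000f423f54591437a2) .nil) (.st (nat_lit 9) (nat_lit 1) (nat_lit 4) (nat_lit 0x55450) (nat_lit 0x2000200030004000300000002000100000000) (nat_lit 1) (nat_lit 1) (.split (nat_lit 9) (nat_lit 7) (.pd (.cons (nat_lit 0) (nat_lit 5) (nat_lit 0) (nat_lit 0x7666042110) (nat_lit 0xf423ff423fb71ae65b9700000f423ff423fb71ae1f15600000) (.cons (nat_lit 1) (nat_lit 5) (nat_lit 0) (nat_lit 0x7666042200) (nat_lit 0xf423ff423fb71ae65b9700000f423ff423fb71ae00000f423f) (.cons (nat_lit 2) (nat_lit 5) (nat_lit 0) (nat_lit 0x7666043000) (nat_lit 0xf423ff423fb71ae65b9700000f423ff423f00000f423fb71ae) (.cons (nat_lit 3) (nat_lit 5) (nat_lit 0) (nat_lit 0x7666040100) (nat_lit 0xf423ff423fb71ae65b9700000f423f00000f423f54591437a2) .nil)))) (.leaf (.cons (nat_lit 0x1454) (nat_lit 0x1000200000003000400030000) (.cons (nat_lit 0x554) (nat_lit 0x100010001000100010000) (.cons (nat_lit 0x1540) (nat_lit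 0x1000200020001000000000000) (.cons (nat_lit 0x45500) (nat_lit 0x1000000020003000400030000000000000000) .nil)))) .nil)) (.non (nat_lit 1) (nat_lit 4) (nat_lit 0x95400) (nat_lit 0x1000100020002000100000000000000000000))))))) (.non (nat_lit 1) (nat_lit 4) (nat_lit 0x55000) (nat_lit 0x1000100010001000000000000000000000000))) (.non (nat_lit 1) (nat_lit 4) (nat_lit 0x45000) (nat_lit 0x1000000010001000000000000000000000000))) (.non (nat_lit 1) (nat_lit 4) (nat_lit 0x45400) (nat_lit 0x1000000010001000100000000000000000000))) (.non (nat_lit 1) (nat_lit 6) (nat_lit 0x40540) (nat_lit 0x1000000000000000200020001000000000000))) (.non (nat_lit 1) (nat_lit 4) (nat_lit 0x45440) (nat_lit 0x1000000010001000100000001000000000000))) (.non (nat_lit 1) (nat_lit 4) (nat_lit 0x45450) (nat_lit 0x1000000010001000100000001000100000000))) (.non (nat_lit 3) (nat_lit 4) (nat_lit 0x45014) (nat_lit 0x3000000020001000000000000000300040000))) (.non (nat_lit 1) (nat_lit 4) (nat_lit 0x55451) (nat_lit 0x2000200030004000300000002000100000001)))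

noncomputable def t768_3 : Tr := (.ex (nat_lit 0) (.ex (nat_lit 1) (.pd (.cons (nat_lit 3) (nat_lit 4) (nat_lit 0) (nat_lit 0x665500100) (nat_lit 0xf423ff423f7a11d7a11b0000000000f423f54591437a2) (.cons (nat_lit 3) (nat_lit 6) (nat_lit 0) (nat_lit 0x870440100) (nat_lit 0xf423ff423f00000f423f5459100000f423f54591437a2) .nil)) (.ex (nat_lit 7) (.pd (.cons (nat_lit 3) (nat_lit 8) (nat_lit 0) (nat_lit 0x65440100) (nat_lit 0xf423fb71aea2c280473700000f423f54591437a2) .nil) t768_1) t768_2)) (.split (nat_lit 9) (nat_lit 0) (.split (nat_lit 9) (nat_lit 2) (.split (nat_lit 9) (nat_lit 3) (.split (nat_lit 9) (nat_lit 4) (.split (nat_lit 9) (nat_lit 5) (.split (nat_lit 9) (nat_lit 6) (.split (nat_lit 9) (nat_lit 7) (.split (nat_lit 9) (nat_lit 8) (.unj (nat_lit 0x40015) (nat_lit 0x1000000000000000000000000000200020001) (nat_lit 0x15500) (nat_lit 0x100010002000200020000000000000000)) (.sup (nat_lit 0x3000000000000000000000000000300050003) (nat_lit 0x3000500040001000000000000))) (.split (nat_lit 9) (nat_lit 8) (.sup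 (nat_lit 0x3000000000000000000000000000300050003) (nat_lit 0x3000500040001000000000000)) (.non (nat_lit 1) (nat_lit 4) (nat_lit 0x55000) (nat_lit 0x1000100010001000000000000000000000000)))) (.star (nat_lit 9) (nat_lit 1) (nat_lit 6))) (.non (nat_lit 1) (nat_lit 4) (nat_lit 0x55440) (nat_lit 0x1000100010002000200000001000000000000))) (.star (nat_lit 9) (nat_lit 1) (nat_lit 4))) (.non (nat_lit 1) (nat_lit 4) (nat_lit 0x55450) (nat_lit 0x1000100010002000200000002000100000000))) (.non (nat_lit 1) (nat_lit 6) (nat_lit 0x40550) (nat_lit 0x1000000000000000400030003000200000000))) (.non (nat_lit 2) (nat_lit 4) (nat_lit 0x40005) (nat_lit 0x1000000000000000000000000000000010001)))) (.split (nat_lit 9) (nat_lit 1) (.split (nat_lit 9) (nat_lit 2) (.split (nat_lit 9) (nat_lit 3) (.split (nat_lit 9) (nat_lit 4) (.split (nat_lit 9) (nat_lit 5) (.split (nat_lit 9) (nat_lit 6) (.split (nat_lit 9) (nat_lit 7) (.split (nat_lit 9) (nat_lit 8) (.split (nat_lit 9) (nat_lit 0) (.split (nat_lit 5) (nat_lit 3) (.sup (nat_lit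 0x200020005000500040000000000000000) (nat_lit 0x3000000000000000000000001000700080005)) (.non (nat_lit 1) (nat_lit 4) (nat_lit 0x2a840) (nat_lit 0x100010002000200000002000000000000))) (.unj (nat_lit 0x40015) (nat_lit 0x1000000000000000000000000000100010001) (nat_lit 0x15500) (nat_lit 0x100010002000200020000000000000000))) (.non (nat_lit 1) (nat_lit 4) (nat_lit 0x55451) (nat_lit 0x2000300020004000300000002000100000001))) (.non (nat_lit 1) (nat_lit 4) (nat_lit 0x55451) (nat_lit 0x2000200030004000300000002000100000001))) (.non (nat_lit 1) (nat_lit 4) (nat_lit 0x55400) (nat_lit 0x1000100010002000100000000000000000000))) (.non (nat_lit 1) (nat_lit 4) (nat_lit 0x55440) (nat_lit 0x1000100010002000200000001000000000000))) (.non (nat_lit 1) (nat_lit 6) (nat_lit 0x40540) (nat_lit 0x1000000000000000200020001000000000000))) (.non (nat_lit 1) (nat_lit 4) (nat_lit 0x55450) (nat_lit 0x1000100010002000200000002000100000000))) (.non (nat_lit 1) (nat_lit 6) (nat_lit 0x40550) (nat_lit 0x1000000000000000400030003000200000000)))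 (.non (nat_lit 2) (nat_lit 4) (nat_lit 0x40005) (nat_lit 0x1000000000000000000000000000000010001))))

noncomputable def t768_4 : Tr := (.ex (nat_lit 8) (.pd (.cons (nat_lit 0) (nat_lit 5) (nat_lit 0) (nat_lit 0x666042110) (nat_lit 0xf423ff423f7a11d00000f423ff423fb71ae1f15600000) (.cons (nat_lit 0) (nat_lit 7) (nat_lit 0) (nat_lit 0x605442110) (nat_lit 0xf423f00000b71aea2c2804737f423fb71ae1f15600000) (.cons (nat_lit 1) (nat_lit 5) (nat_lit 0) (nat_lit 0x666042200) (nat_lit 0xf423ff423f7a11d00000f423ff423fb71ae00000f423f) (.cons (nat_lit 2) (nat_lit 5) (nat_lit 0) (nat_lit 0x666043000) (nat_lit 0xf423ff423f7a11d00000f423ff423f00000f423fb71ae) (.cons (nat_lit 3) (nat_lit 5) (nat_lit 0) (nat_lit 0x666040100) (nat_lit 0xf423ff423f7a11d00000f423f00000f423f54591437a2) .nil))))) (.leaf (.cons (nat_lit 0x1501) (nat_lit 0x1000200020000000000000001) (.cons (nat_lit 0x1415) (nat_lit 0x1000200000000000300040003) (.cons (nat_lit 0x515) (nat_lit 0x100010000000100010001) .nil))) .nil)) (.split (nat_lit 9) (nat_lit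 0) (.split (nat_lit 9) (nat_lit 1) (.split (nat_lit 9) (nat_lit 2) (.split (nat_lit 9) (nat_lit 3) (.split (nat_lit 9) (nat_lit 4) (.split (nat_lit 9) (nat_lit 5) (.split (nat_lit 9) (nat_lit 6) (.split (nat_lit 9) (nat_lit 7) (.st (nat_lit 8) (nat_lit 1) (nat_lit 4) (nat_lit 0x55400) (nat_lit 0x1000200010002000100000000000000000000) (nat_lit 1) (nat_lit 1) (.st (nat_lit 9) (nat_lit 2) (nat_lit 4) (nat_lit 0x55405) (nat_lit 0x2000300020004000300000000000000010002) (nat_lit 1) (nat_lit 1) (.split (nat_lit 9) (nat_lit 8) (.pd (.cons (nat_lit 0) (nat_lit 5) (nat_lit 0) (nat_lit 0x8666042110) (nat_lit 0xf423fb71aef423f65b9700000f423ff423fb71ae1f15600000) (.cons (nat_lit 1) (nat_lit 5) (nat_lit 0) (nat_lit 0x8666042200) (nat_lit 0xf423fb71aef423f65b9700000f423ff423fb71ae00000f423f) (.cons (nat_lit 2) (nat_lit 5) (nat_lit 0) (nat_lit 0x8666043000) (nat_lit 0xf423fb71aef423f65b9700000f423ff423f00000f423fb71ae) (.cons (nat_lit 3) (nat_lit 5) (nat_lit 0) (nat_lit 0x8666040100) (nat_lit 0xf423fb71aef423f65b9700000f423f00000f423f54591437a2)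 .nil)))) (.leaf (.cons (nat_lit 0x51500) (nat_lit 0x1000200000003000400030000000000000000) (.cons (nat_lit 0x1501) (nat_lit 0x1000200020000000000000001) (.cons (nat_lit 0x1415) (nat_lit 0x1000200000000000300040003) (.cons (nat_lit 0x515) (nat_lit 0x100010000000100010001) .nil)))) .nil)) (.non (nat_lit 1) (nat_lit 4) (nat_lit 0x95400) (nat_lit 0x1000200010002000100000000000000000000))))) (.non (nat_lit 1) (nat_lit 4) (nat_lit 0x55000) (nat_lit 0x1000100010001000000000000000000000000))) (.non (nat_lit 1) (nat_lit 4) (nat_lit 0x51000) (nat_lit 0x1000100000001000000000000000000000000))) (.non (nat_lit 1) (nat_lit 4) (nat_lit 0x51400) (nat_lit 0x1000100000001000100000000000000000000))) (.non (nat_lit 1) (nat_lit 6) (nat_lit 0x40501) (nat_lit 0x1000000000000000200020000000000000001))) (.non (nat_lit 2) (nat_lit 4) (nat_lit 0x55445) (nat_lit 0x2000300020004000300000001000000010002))) (.non (nat_lit 0) (nat_lit 4) (nat_lit 0x51014) (nat_lit 0x3000200000001000000000000000400030000))) (.non (nat_lit 2) (nat_lit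 4) (nat_lit 0x51405) (nat_lit 0x1000100000001000100000000000000010001))) (.non (nat_lit 1) (nat_lit 4) (nat_lit 0x51401) (nat_lit 0x1000100000001000100000000000000000001))))

noncomputable def t768_5 : Tr := (.split (nat_lit 9) (nat_lit 0) (.split (nat_lit 9) (nat_lit 1) (.split (nat_lit 9) (nat_lit 2) (.split (nat_lit 9) (nat_lit 3) (.split (nat_lit 9) (nat_lit 4) (.split (nat_lit 9) (nat_lit 5) (.split (nat_lit 9) (nat_lit 6) (.split (nat_lit 9) (nat_lit 8) (.st (nat_lit 7) (nat_lit 1) (nat_lit 4) (nat_lit 0x55400) (nat_lit 0x1000100020002000100000000000000000000) (nat_lit 1) (nat_lit 1) (.st (nat_lit 8) (nat_lit 1) (nat_lit 4) (nat_lit 0x55401) (nat_lit 0x1000200020003000200000000000000000001) (nat_lit 1) (nat_lit 1) (.pd (.cons (nat_lit 0) (nat_lit 7) (nat_lit 0) (nat_lit 0x9605442110) (nat_lit 0xf423ff423f00000b71aea2c2804737f423fb71ae1f15600000) .nil) (.st (nat_lit 9) (nat_lit 2) (nat_lit 4) (nat_lit 0x55405) (nat_lit 0x2000200030004000300000000000000010002) (nat_lit 1) (nat_lit 1) (.split (nat_lit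 9) (nat_lit 7) (.pd (.cons (nat_lit 0) (nat_lit 5) (nat_lit 0) (nat_lit 0x7666042110) (nat_lit 0xf423ff423fb71ae65b9700000f423ff423fb71ae1f15600000) (.cons (nat_lit 1) (nat_lit 5) (nat_lit 0) (nat_lit 0x7666042200) (nat_lit 0xf423ff423fb71ae65b9700000f423ff423fb71ae00000f423f) (.cons (nat_lit 2) (nat_lit 5) (nat_lit 0) (nat_lit 0x7666043000) (nat_lit 0xf423ff423fb71ae65b9700000f423ff423f00000f423fb71ae) (.cons (nat_lit 3) (nat_lit 5) (nat_lit 0) (nat_lit 0x7666040100) (nat_lit 0xf423ff423fb71ae65b9700000f423f00000f423f54591437a2) .nil)))) (.leaf (.cons (nat_lit 0x45500) (nat_lit 0x1000000020003000400030000000000000000) (.cons (nat_lit 0x1501) (nat_lit 0x1000200020000000000000001) (.cons (nat_lit 0x1415) (nat_lit 0x1000200000000000300040003) (.cons (nat_lit 0x515) (nat_lit 0x100010000000100010001) .nil)))) .nil)) (.non (nat_lit 1) (nat_lit 4) (nat_lit 0x95400) (nat_lit 0x1000100020002000100000000000000000000))))))) (.non (nat_lit 1) (nat_lit 4) (nat_lit 0x55000) (nat_lit 0x1000100010001000000000000000000000000)))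 (.non (nat_lit 1) (nat_lit 4) (nat_lit 0x45000) (nat_lit 0x1000000010001000000000000000000000000))) (.non (nat_lit 1) (nat_lit 4) (nat_lit 0x45400) (nat_lit 0x1000000010001000100000000000000000000))) (.non (nat_lit 1) (nat_lit 6) (nat_lit 0x40501) (nat_lit 0x1000000000000000200020000000000000001))) (.non (nat_lit 2) (nat_lit 4) (nat_lit 0x55445) (nat_lit 0x2000200030004000300000001000000010002))) (.non (nat_lit 0) (nat_lit 4) (nat_lit 0x45014) (nat_lit 0x3000000020001000000000000000400030000))) (.non (nat_lit 2) (nat_lit 4) (nat_lit 0x45405) (nat_lit 0x1000000010001000100000000000000010001))) (.non (nat_lit 1) (nat_lit 4) (nat_lit 0x45401) (nat_lit 0x1000000010001000100000000000000000001)))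

noncomputable def t768_6 : Tr := (.ex (nat_lit 2) (.ex (nat_lit 3) (.pd (.cons (nat_lit 0) (nat_lit 4) (nat_lit 0) (nat_lit 0x665502110) (nat_lit 0xf423ff423f7a11d7a11b00000f423fb71ae1f15600000) (.cons (nat_lit 0) (nat_lit 6) (nat_lit 0) (nat_lit 0x870442110) (nat_lit 0xf423ff423f00000f423f54591f423fb71ae1f15600000) .nil)) (.ex (nat_lit 7) (.pd (.cons (nat_lit 0) (nat_lit 8) (nat_lit 0) (nat_lit 0x65442110) (nat_lit 0xf423fb71aea2c2804737f423fb71ae1f15600000) .nil) t768_4) t768_5)) (.split (nat_lit 9) (nat_lit 0) (.split (nat_lit 9) (nat_lit 1) (.split (nat_lit 9) (nat_lit 2) (.split (nat_lit 9) (nat_lit 4) (.split (nat_lit 9) (nat_lit 5) (.split (nat_lit 9) (nat_lit 6) (.split (nat_lit 9) (nat_lit 7) (.split (nat_lit 9) (nat_lit 8) (.split (nat_lit 9) (nat_lit 3) (.split (nat_lit 5) (nat_lit 0) (.sup (nat_lit 0x200020005000500040000000000000000) (nat_lit 0x3000000000000000000000005000800070001)) (.non (nat_lit 1) (nat_lit 4) (nat_lit 0x2a801) (nat_lit 0x100010002000200000000000000000002))) (.unj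 (nat_lit 0x40054) (nat_lit 0x1000000000000000000000001000100010000) (nat_lit 0x15500) (nat_lit 0x100010002000200020000000000000000))) (.non (nat_lit 2) (nat_lit 4) (nat_lit 0x55445) (nat_lit 0x2000300020004000300000001000000010002))) (.non (nat_lit 2) (nat_lit 4) (nat_lit 0x55445) (nat_lit 0x2000200030004000300000001000000010002))) (.non (nat_lit 1) (nat_lit 4) (nat_lit 0x55400) (nat_lit 0x1000100010002000100000000000000000000))) (.non (nat_lit 1) (nat_lit 4) (nat_lit 0x55401) (nat_lit 0x1000100010002000200000000000000000001))) (.non (nat_lit 1) (nat_lit 6) (nat_lit 0x40550) (nat_lit 0x3000000000000000300040002000100000000))) (.non (nat_lit 1) (nat_lit 4) (nat_lit 0x40050) (nat_lit 0x1000000000000000000000001000100000000))) (.non (nat_lit 2) (nat_lit 6) (nat_lit 0x40505) (nat_lit 0x1000000000000000400030000000000020003))) (.non (nat_lit 1) (nat_lit 6) (nat_lit 0x40541) (nat_lit 0x2000000000000000400030001000000000003)))) (.split (nat_lit 9) (nat_lit 0) (.split (nat_lit 9) (nat_lit 1) (.split (nat_lit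 9) (nat_lit 3) (.split (nat_lit 9) (nat_lit 4) (.split (nat_lit 9) (nat_lit 5) (.split (nat_lit 9) (nat_lit 6) (.split (nat_lit 9) (nat_lit 7) (.split (nat_lit 9) (nat_lit 8) (.unj (nat_lit 0x40054) (nat_lit 0x1000000000000000000000001000200020000) (nat_lit 0x15500) (nat_lit 0x100010002000200020000000000000000)) (.sup (nat_lit 0x3000500040000000000000001) (nat_lit 0x3000000000000000000000003000500030000))) (.split (nat_lit 9) (nat_lit 8) (.sup (nat_lit 0x3000500040000000000000001) (nat_lit 0x3000000000000000000000003000500030000)) (.non (nat_lit 1) (nat_lit 4) (nat_lit 0x55000) (nat_lit 0x1000100010001000000000000000000000000)))) (.star (nat_lit 9) (nat_lit 2) (nat_lit 6))) (.non (nat_lit 1) (nat_lit 4) (nat_lit 0x55401) (nat_lit 0x1000100010002000200000000000000000001))) (.star (nat_lit 9) (nat_lit 2) (nat_lit 4))) (.non (nat_lit 1) (nat_lit 4) (nat_lit 0x40050) (nat_lit 0x1000000000000000000000001000100000000))) (.non (nat_lit 2) (nat_lit 6) (nat_lit 0x40505) (nat_lit 0x1000000000000000400030000000000020003)))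 (.non (nat_lit 1) (nat_lit 6) (nat_lit 0x40511) (nat_lit 0x2000000000000000400030000000100000003))))

noncomputable def t768_7 : Tr := (.st (nat_lit 7) (nat_lit 1) (nat_lit 4) (nat_lit 0x15440) (nat_lit 0x100020002000100000001000000000000) (nat_lit 1) (nat_lit 1) (.st (nat_lit 8) (nat_lit 1) (nat_lit 4) (nat_lit 0x15441) (nat_lit 0x200020003000200000001000000000001) (nat_lit 1) (nat_lit 1) (.split (nat_lit 7) (nat_lit 3) (.pd (.cons (nat_lit 1) (nat_lit 5) (nat_lit 0) (nat_lit 0x637042200) (nat_lit 0xf423fa2c28b71ae00000f423f98965927bd00000f423f) (.cons (nat_lit 2) (nat_lit 5) (nat_lit 0) (nat_lit 0x637043000) (nat_lit 0xf423fa2c28b71ae00000f423f9896500000f423fb71ae) .nil)) (.ex (nat_lit 2) (.pd (.cons (nat_lit 0) (nat_lit 6) (nat_lit 0) (nat_lit 0x830442110) (nat_lit 0xf423ff423f00000f423f54591b71aea2c280473700000) (.cons (nat_lit 0) (nat_lit 7) (nat_lit 0) (nat_lit 0x605442110) (nat_lit 0xf423f00000b71aea2c2804737f423fb71ae1f15600000) (.cons (nat_lit 3) (nat_lit 5) (nat_lit 0) (nat_lit 0x666040100)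 (nat_lit 0xf423ff423f7a11d00000f423f00000f423f54591437a2) .nil))) (.split (nat_lit 5) (nat_lit 0) (.leaf (.cons (nat_lit 0x5054) (nat_lit 0x20001000000000003000400030000) (.cons (nat_lit 0x1501) (nat_lit 0x1000200020000000000000001) (.cons (nat_lit 0x1415) (nat_lit 0x1000200000000000300040003) (.cons (nat_lit 0x515) (nat_lit 0x100010000000100010001) .nil)))) (.cons (nat_lit 0x110011) (nat_lit 0x1000100) (nat_lit 0x10) (nat_lit 0x100032) .nil)) (.non (nat_lit 1) (nat_lit 4) (nat_lit 0x2a801) (nat_lit 0x100010002000200000000000000000002)))) (.split (nat_lit 9) (nat_lit 0) (.split (nat_lit 9) (nat_lit 1) (.split (nat_lit 9) (nat_lit 3) (.split (nat_lit 9) (nat_lit 4) (.split (nat_lit 9) (nat_lit 5) (.split (nat_lit 9) (nat_lit 6) (.split (nat_lit 9) (nat_lit 7) (.split (nat_lit 9) (nat_lit 8) (.sup (nat_lit 0x3000500040000000000000001) (nat_lit 0x3000000000000000000000003000500030000)) (.non (nat_lit 1) (nat_lit 4) (nat_lit 0x55050) (nat_lit 0x1000100010001000000000001000100000000))) (.non (nat_lit 1)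 (nat_lit 4) (nat_lit 0x55440) (nat_lit 0x1000100020002000100000001000000000000))) (.star (nat_lit 9) (nat_lit 2) (nat_lit 6))) (.non (nat_lit 1) (nat_lit 4) (nat_lit 0x45450) (nat_lit 0x1000000010001000100000001000100000000))) (.star (nat_lit 9) (nat_lit 2) (nat_lit 4))) (.non (nat_lit 1) (nat_lit 4) (nat_lit 0x40050) (nat_lit 0x1000000000000000000000001000100000000))) (.non (nat_lit 2) (nat_lit 6) (nat_lit 0x40505) (nat_lit 0x1000000000000000400030000000000020003))) (.non (nat_lit 1) (nat_lit 4) (nat_lit 0x45451) (nat_lit 0x1000000010001000100000001000100000001))))) (.non (nat_lit 1) (nat_lit 4) (nat_lit 0x2a840) (nat_lit 0x100020002000100000002000000000000)))))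

noncomputable def t768_8 : Tr := (.st (nat_lit 7) (nat_lit 1) (nat_lit 4) (nat_lit 0x15401) (nat_lit 0x100020002000100000000000000000001) (nat_lit 1) (nat_lit 1) (.st (nat_lit 8) (nat_lit 1) (nat_lit 4) (nat_lit 0x15441) (nat_lit 0x200020003000200000001000000000001) (nat_lit 1) (nat_lit 1) (.split (nat_lit 7) (nat_lit 0) (.pd (.cons (nat_lit 1) (nat_lit 5) (nat_lit 0) (nat_lit 0x607042200) (nat_lit 0xf423fa2c28b71ae00000f423ff423fb71ae0000098965) (.cons (nat_lit 2) (nat_lit 5) (nat_lit 0) (nat_lit 0x607043000) (nat_lit 0xf423fa2c28b71ae00000f423ff423f00000f423f5b8d4) .nil)) (.ex (nat_lit 1) (.pd (.cons (nat_lit 0) (nat_lit 5) (nat_lit 0) (nat_lit 0x666042110) (nat_lit 0xf423ff423f7a11d00000f423ff423fb71ae1f15600000) (.cons (nat_lit 3) (nat_lit 6) (nat_lit 0) (nat_lit 0x800440100) (nat_lit 0xf423ff423f00000f423f5459100000f423f5459106711) (.cons (nat_lit 3) (nat_lit 7) (nat_lit 0) (nat_lit 0x605440100) (nat_lit 0xf423f00000b71aea2c280473700000f423f54591437a2) .nil))) (.split (nat_lit 5) (nat_lit 3)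 (.leaf (.cons (nat_lit 0x1454) (nat_lit 0x1000200000003000400030000) (.cons (nat_lit 0x554) (nat_lit 0x100010001000100010000) (.cons (nat_lit 0x1540) (nat_lit 0x1000200020001000000000000) (.cons (nat_lit 0x5015) (nat_lit 0x20001000000000000000300040003) .nil)))) (.cons (nat_lit 0x111100) (nat_lit 0x1000010) (nat_lit 0x10) (nat_lit 0x102300) .nil)) (.non (nat_lit 1) (nat_lit 4) (nat_lit 0x2a840) (nat_lit 0x100010002000200000002000000000000)))) (.split (nat_lit 9) (nat_lit 0) (.split (nat_lit 9) (nat_lit 2) (.split (nat_lit 9) (nat_lit 3) (.split (nat_lit 9) (nat_lit 4) (.split (nat_lit 9) (nat_lit 5) (.split (nat_lit 9) (nat_lit 6) (.split (nat_lit 9) (nat_lit 7) (.split (nat_lit 9) (nat_lit 8) (.sup (nat_lit 0x3000000000000000000000000000300050003) (nat_lit 0x3000500040001000000000000)) (.non (nat_lit 1) (nat_lit 4) (nat_lit 0x55441) (nat_lit 0x1000200020003000200000001000000000001))) (.non (nat_lit 1) (nat_lit 4) (nat_lit 0x55401) (nat_lit 0x1000100020002000100000000000000000001))) (.star (nat_lit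 9) (nat_lit 1) (nat_lit 6))) (.non (nat_lit 1) (nat_lit 4) (nat_lit 0x55440) (nat_lit 0x1000100010002000200000001000000000000))) (.star (nat_lit 9) (nat_lit 1) (nat_lit 4))) (.non (nat_lit 1) (nat_lit 4) (nat_lit 0x55450) (nat_lit 0x1000100010002000200000002000100000000))) (.non (nat_lit 1) (nat_lit 6) (nat_lit 0x40550) (nat_lit 0x1000000000000000400030003000200000000))) (.non (nat_lit 1) (nat_lit 4) (nat_lit 0x55451) (nat_lit 0x1000200030004000300000002000100000002))))) (.non (nat_lit 1) (nat_lit 4) (nat_lit 0x2a801) (nat_lit 0x100020002000100000000000000000002)))))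

noncomputable def t768_9 : Tr := (.split (nat_lit 7) (nat_lit 0) (.split (nat_lit 7) (nat_lit 3) (.split (nat_lit 5) (nat_lit 0) (.split (nat_lit 5) (nat_lit 3) .uj (.st (nat_lit 2) (nat_lit 1) (nat_lit 6) (nat_lit 0x550) (nat_lit 0x400030003000200000000) (nat_lit 1) (nat_lit 1) (.st (nat_lit 3) (nat_lit 1) (nat_lit 4) (nat_lit 0x15450) (nat_lit 0x100010002000200000002000100000000) (nat_lit 1) (nat_lit 1) (.st (nat_lit 4) (nat_lit 1) (nat_lit 6) (nat_lit 0x540) (nat_lit 0x200020001000000000000) (nat_lit 1) (nat_lit 1) (.st (nat_lit 5) (nat_lit 1) (nat_lit 4) (nat_lit 0x15440) (nat_lit 0x100010002000200000001000000000000) (nat_lit 1) (nat_lit 1) t768_3))))) (.split (nat_lit 5) (nat_lit 3) (.st (nat_lit 0) (nat_lit 2) (nat_lit 4) (nat_lit 0x15405) (nat_lit 0x100010002000200000000000000010002) (nat_lit 1) (nat_lit 1) (.st (nat_lit 1) (nat_lit 2) (nat_lit 6) (nat_lit 0x505) (nat_lit 0x400030000000000020003) (nat_lit 1) (nat_lit 1) (.st (nat_lit 4) (nat_lit 1) (nat_lit 6) (nat_lit 0x501) (nat_lit 0x200020000000000000001)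 (nat_lit 1) (nat_lit 1) (.st (nat_lit 5) (nat_lit 1) (nat_lit 4) (nat_lit 0x15401) (nat_lit 0x100010002000200000000000000000001) (nat_lit 1) (nat_lit 1) t768_6)))) (.non (nat_lit 1) (nat_lit 4) (nat_lit 0x15441) (nat_lit 0x100010002000200000001000000000001)))) (.split (nat_lit 5) (nat_lit 3) (.split (nat_lit 5) (nat_lit 0) (.sup (nat_lit 0x20009000a0005) (nat_lit 0x300010007000a00080000000000000000)) (.st (nat_lit 0) (nat_lit 1) (nat_lit 4) (nat_lit 0x15451) (nat_lit 0x200030004000300000002000100000002) (nat_lit 1) (nat_lit 1) (.st (nat_lit 1) (nat_lit 2) (nat_lit 6) (nat_lit 0x505) (nat_lit 0x400030000000000020003) (nat_lit 1) (nat_lit 1) (.st (nat_lit 3) (nat_lit 1) (nat_lit 4) (nat_lit 0x15450) (nat_lit 0x100020002000100000002000100000000) (nat_lit 1) (nat_lit 1) (.st (nat_lit 4) (nat_lit 1) (nat_lit 6) (nat_lit 0x501) (nat_lit 0x200020000000000000001) (nat_lit 1) (nat_lit 1) (.st (nat_lit 5) (nat_lit 1) (nat_lit 4) (nat_lit 0x15401) (nat_lit 0x100010002000200000000000000000001) (nat_lit 1) (nat_lit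 1) t768_7)))))) (.non (nat_lit 1) (nat_lit 4) (nat_lit 0x5440) (nat_lit 0x10001000100000001000000000000)))) (.split (nat_lit 7) (nat_lit 3) (.split (nat_lit 5) (nat_lit 0) (.split (nat_lit 5) (nat_lit 3) (.sup (nat_lit 0x5000a00090002) (nat_lit 0x300010007000a00080000000000000000)) (.st (nat_lit 0) (nat_lit 1) (nat_lit 4) (nat_lit 0x15451) (nat_lit 0x200030004000300000002000100000002) (nat_lit 1) (nat_lit 1) (.st (nat_lit 2) (nat_lit 1) (nat_lit 6) (nat_lit 0x550) (nat_lit 0x400030003000200000000) (nat_lit 1) (nat_lit 1) (.st (nat_lit 3) (nat_lit 1) (nat_lit 4) (nat_lit 0x15450) (nat_lit 0x100010002000200000002000100000000) (nat_lit 1) (nat_lit 1) (.st (nat_lit 4) (nat_lit 1) (nat_lit 6) (nat_lit 0x540) (nat_lit 0x200020001000000000000) (nat_lit 1) (nat_lit 1) (.st (nat_lit 5) (nat_lit 1) (nat_lit 4) (nat_lit 0x15440) (nat_lit 0x100010002000200000001000000000000) (nat_lit 1) (nat_lit 1) t768_8)))))) (.non (nat_lit 1) (nat_lit 4) (nat_lit 0x5401) (nat_lit 0x10001000100000000000000000001))) (.non (nat_lit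 1) (nat_lit 4) (nat_lit 0x15441) (nat_lit 0x100020002000100000001000000000001))))

noncomputable def t768_10 : Tr := (.st (nat_lit 8) (nat_lit 1) (nat_lit 4) (nat_lit 0x15440) (nat_lit 0x200010002000100000001000000000000) (nat_lit 1) (nat_lit 1) (.split (nat_lit 8) (nat_lit 3) (.pd (.cons (nat_lit 1) (nat_lit 5) (nat_lit 0) (nat_lit 0x368042200) (nat_lit 0xa2c28f423fb71ae00000f423f98965927bd00000f423f) (.cons (nat_lit 2) (nat_lit 5) (nat_lit 0) (nat_lit 0x368043000) (nat_lit 0xa2c28f423fb71ae00000f423f9896500000f423fb71ae) .nil)) (.ex (nat_lit 2) (.pd (.cons (nat_lit 0) (nat_lit 6) (nat_lit 0) (nat_lit 0x370442110) (nat_lit 0xf423ff423f00000f423f54591b71aea2c280473700000) (.cons (nat_lit 0) (nat_lit 8) (nat_lit 0) (nat_lit 0x65442110) (nat_lit 0xf423fb71aea2c2804737f423fb71ae1f15600000) (.cons (nat_lit 3) (nat_lit 5) (nat_lit 0) (nat_lit 0x666040100) (nat_lit 0xf423ff423f7a11d00000f423f00000f423f54591437a2) .nil))) (.split (nat_lit 5) (nat_lit 0) (.leaf (.cons (nat_lit 0x11054) (nat_lit 0x200000001000000000003000400030000)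 (.cons (nat_lit 0x11540) (nat_lit 0x200000003000400030001000000000000) (.cons (nat_lit 0x1501) (nat_lit 0x1000200020000000000000001) (.cons (nat_lit 0x1415) (nat_lit 0x1000200000000000300040003) (.cons (nat_lit 0x515) (nat_lit 0x100010000000100010001) .nil))))) (.cons (nat_lit 0x110011) (nat_lit 0x1000100) (nat_lit 0x10) (nat_lit 0x100032) .nil)) (.non (nat_lit 1) (nat_lit 4) (nat_lit 0x2a801) (nat_lit 0x100010002000200000000000000000002)))) (.split (nat_lit 9) (nat_lit 0) (.split (nat_lit 9) (nat_lit 1) (.split (nat_lit 9) (nat_lit 3) (.split (nat_lit 9) (nat_lit 4) (.split (nat_lit 9) (nat_lit 5) (.split (nat_lit 9) (nat_lit 6) (.split (nat_lit 9) (nat_lit 7) (.split (nat_lit 9) (nat_lit 8) (.sup (nat_lit 0x3000500040000000000000001) (nat_lit 0x3000000000000000000000003000500030000)) (.non (nat_lit 1) (nat_lit 4) (nat_lit 0x55440) (nat_lit 0x1000200010002000100000001000000000000))) (.non (nat_lit 1) (nat_lit 4) (nat_lit 0x55050) (nat_lit 0x1000100010001000000000001000100000000))) (.star (nat_lit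 9) (nat_lit 2) (nat_lit 6))) (.non (nat_lit 1) (nat_lit 4) (nat_lit 0x51450) (nat_lit 0x1000100000001000100000001000100000000))) (.star (nat_lit 9) (nat_lit 2) (nat_lit 4))) (.non (nat_lit 1) (nat_lit 4) (nat_lit 0x40050) (nat_lit 0x1000000000000000000000001000100000000))) (.non (nat_lit 2) (nat_lit 6) (nat_lit 0x40505) (nat_lit 0x1000000000000000400030000000000020003))) (.non (nat_lit 1) (nat_lit 4) (nat_lit 0x51451) (nat_lit 0x1000100000001000100000001000100000001))))) (.non (nat_lit 1) (nat_lit 4) (nat_lit 0x2a840) (nat_lit 0x200010002000100000002000000000000))))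

noncomputable def t768_11 : Tr := (.split (nat_lit 7) (nat_lit 0) (.pd (.cons (nat_lit 0) (nat_lit 6) (nat_lit 0) (nat_lit 0x370442110) (nat_lit 0xf423ff423f00000f423f54591b71aea2c280473700000) (.cons (nat_lit 3) (nat_lit 6) (nat_lit 0) (nat_lit 0x800440100) (nat_lit 0xf423ff423f00000f423f5459100000f423f5459106711) .nil)) (.ex (nat_lit 4) (.pd (.cons (nat_lit 0) (nat_lit 8) (nat_lit 0) (nat_lit 0x65442110) (nat_lit 0xf423fb71aea2c2804737f423fb71ae1f15600000) (.cons (nat_lit 1) (nat_lit 5) (nat_lit 0) (nat_lit 0x607048300) (nat_lit 0xa2c28927bd9896500000f423fb71aef423f000008e6a2) (.cons (nat_lit 2) (nat_lit 5) (nat_lit 0) (nat_lit 0x607048000) (nat_lit 0xb71ae98965a2c2800000f423ff423f00000f423f5572c) (.cons (nat_lit 3) (nat_lit 7) (nat_lit 0) (nat_lit 0x605440100) (nat_lit 0xf423f00000b71aea2c280473700000f423f54591437a2) .nil)))) (.leaf (.cons (nat_lit 0x11054) (nat_lit 0x200000001000000000003000400030000) (.cons (nat_lit 0x11540) (nat_lit 0x200000003000400030001000000000000) (.cons (nat_lit 0x5501)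 (nat_lit 0x20003000400030000000000000001) (.cons (nat_lit 0x5015) (nat_lit 0x20001000000000000000300040003) .nil)))) (.cons (nat_lit 0x111101101) (nat_lit 0x10010) (nat_lit 0xd) (nat_lit 0x420105603) (.cons (nat_lit 0x111001101) (nat_lit 0x100010) (nat_lit 4) (nat_lit 0x312004500) (.cons (nat_lit 0x111101011) (nat_lit 0x10100) (nat_lit 0xd) (nat_lit 0x240103065) (.cons (nat_lit 0x111001011) (nat_lit 0x100100) (nat_lit 4) (nat_lit 0x423005001) .nil)))))) (.split (nat_lit 9) (nat_lit 0) (.split (nat_lit 9) (nat_lit 1) (.split (nat_lit 9) (nat_lit 2) (.split (nat_lit 9) (nat_lit 3) (.split (nat_lit 9) (nat_lit 5) (.split (nat_lit 9) (nat_lit 6) (.split (nat_lit 9) (nat_lit 7) (.split (nat_lit 9) (nat_lit 8) (.unj (nat_lit 0x55) (nat_lit 0x1000200020001) (nat_lit 0x41500) (nat_lit 0x1000000000001000200020000000000000000)) (.non (nat_lit 1) (nat_lit 4) (nat_lit 0x55440) (nat_lit 0x1000200010002000100000001000000000000))) (.non (nat_lit 1) (nat_lit 4) (nat_lit 0x55401) (nat_lit 0x1000100020002000100000000000000000001)))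 (.non (nat_lit 1) (nat_lit 4) (nat_lit 0x55400) (nat_lit 0x1000100010002000100000000000000000000))) (.non (nat_lit 1) (nat_lit 4) (nat_lit 0x55441) (nat_lit 0x1000200020003000200000001000000000001))) (.non (nat_lit 1) (nat_lit 4) (nat_lit 0x55450) (nat_lit 0x1000200010002000100000002000100000000))) (.star (nat_lit 9) (nat_lit 2) (nat_lit 4))) (.star (nat_lit 9) (nat_lit 1) (nat_lit 4))) (.non (nat_lit 1) (nat_lit 4) (nat_lit 0x55451) (nat_lit 0x1000300030004000200000002000100000002))))) (.non (nat_lit 1) (nat_lit 4) (nat_lit 0x2a801) (nat_lit 0x100020002000100000000000000000002)))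

noncomputable def t768_12 : Tr := (.st (nat_lit 7) (nat_lit 1) (nat_lit 4) (nat_lit 0x15401) (nat_lit 0x100020002000100000000000000000001) (nat_lit 1) (nat_lit 1) (.st (nat_lit 8) (nat_lit 1) (nat_lit 4) (nat_lit 0x15440) (nat_lit 0x200010002000100000001000000000000) (nat_lit 1) (nat_lit 1) (.ex (nat_lit 1) (.ex (nat_lit 2) (.split (nat_lit 8) (nat_lit 3) t768_11 (.non (nat_lit 1) (nat_lit 4) (nat_lit 0x2a840) (nat_lit 0x200010002000100000002000000000000))) (.split (nat_lit 9) (nat_lit 0) (.split (nat_lit 9) (nat_lit 3) (.split (nat_lit 9) (nat_lit 4) (.split (nat_lit 9) (nat_lit 5) (.split (nat_lit 9) (nat_lit 6) (.split (nat_lit 9) (nat_lit 7) (.split (nat_lit 9) (nat_lit 8) (.split (nat_lit 9) (nat_lit 1) (.sup (nat_lit 0x5000000000000000000000000000a00090002) (nat_lit 0x300010007000a00080000000000000000)) (.unj (nat_lit 0x40014) (nat_lit 0x1000000000000000000000000000100010000) (nat_lit 0x15500) (nat_lit 0x100010002000200020000000000000000))) (.non (nat_lit 1) (nat_lit 4) (nat_lit 0x55440) (nat_lit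 0x1000200010002000100000001000000000000))) (.non (nat_lit 1) (nat_lit 4) (nat_lit 0x55050) (nat_lit 0x1000100010001000000000001000100000000))) (.star (nat_lit 9) (nat_lit 2) (nat_lit 6))) (.non (nat_lit 1) (nat_lit 4) (nat_lit 0x51450) (nat_lit 0x1000100000001000100000001000100000000))) (.star (nat_lit 9) (nat_lit 2) (nat_lit 4))) (.non (nat_lit 1) (nat_lit 4) (nat_lit 0x40050) (nat_lit 0x1000000000000000000000001000100000000))) (.non (nat_lit 1) (nat_lit 4) (nat_lit 0x55051) (nat_lit 0x1000100010001000000000001000100000001)))) (.split (nat_lit 9) (nat_lit 0) (.split (nat_lit 9) (nat_lit 3) (.split (nat_lit 9) (nat_lit 4) (.split (nat_lit 9) (nat_lit 5) (.split (nat_lit 9) (nat_lit 6) (.split (nat_lit 9) (nat_lit 7) (.split (nat_lit 9) (nat_lit 8) (.split (nat_lit 9) (nat_lit 2) (.sup (nat_lit 0x50000000000000000000000000006000a0005) (nat_lit 0x400000007000a00080001000000000000)) (.unj (nat_lit 0x40014) (nat_lit 0x1000000000000000000000000000100010000) (nat_lit 0x15500) (nat_lit 0x100010002000200020000000000000000)))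 (.non (nat_lit 1) (nat_lit 4) (nat_lit 0x55440) (nat_lit 0x1000200010002000100000001000000000000))) (.non (nat_lit 1) (nat_lit 4) (nat_lit 0x55401) (nat_lit 0x1000100020002000100000000000000000001))) (.star (nat_lit 9) (nat_lit 1) (nat_lit 6))) (.non (nat_lit 1) (nat_lit 4) (nat_lit 0x55441) (nat_lit 0x1000200020003000200000001000000000001))) (.star (nat_lit 9) (nat_lit 1) (nat_lit 4))) (.non (nat_lit 1) (nat_lit 4) (nat_lit 0x55450) (nat_lit 0x1000200010002000100000002000100000000))) (.non (nat_lit 1) (nat_lit 4) (nat_lit 0x55451) (nat_lit 0x1000300030004000200000002000100000002))))))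

noncomputable def t768_13 : Tr := (.st (nat_lit 7) (nat_lit 1) (nat_lit 4) (nat_lit 0x15441) (nat_lit 0x200020003000200000001000000000001) (nat_lit 1) (nat_lit 1) (.st (nat_lit 8) (nat_lit 1) (nat_lit 4) (nat_lit 0x15401) (nat_lit 0x200010002000100000000000000000001) (nat_lit 1) (nat_lit 1) (.split (nat_lit 8) (nat_lit 0) (.pd (.cons (nat_lit 1) (nat_lit 5) (nat_lit 0) (nat_lit 0x68042200) (nat_lit 0xa2c28f423fb71ae00000f423ff423fb71ae0000098965) (.cons (nat_lit 2) (nat_lit 5) (nat_lit 0) (nat_lit 0x68043000) (nat_lit 0xa2c28f423fb71ae00000f423ff423f00000f423f5b8d4) .nil)) (.ex (nat_lit 1) (.pd (.cons (nat_lit 0) (nat_lit 5) (nat_lit 0) (nat_lit 0x666042110) (nat_lit 0xf423ff423f7a11d00000f423ff423fb71ae1f15600000) (.cons (nat_lit 3) (nat_lit 6) (nat_lit 0) (nat_lit 0x70440100) (nat_lit 0xf423ff423f00000f423f5459100000f423f5459106711) (.cons (nat_lit 3) (nat_lit 8) (nat_lit 0) (nat_lit 0x65440100) (nat_lit 0xf423fb71aea2c280473700000f423f54591437a2) .nil))) (.split (nat_lit 5) (nat_lit 3) (.leaf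 (.cons (nat_lit 0x1454) (nat_lit 0x1000200000003000400030000) (.cons (nat_lit 0x554) (nat_lit 0x100010001000100010000) (.cons (nat_lit 0x1540) (nat_lit 0x1000200020001000000000000) (.cons (nat_lit 0x11015) (nat_lit 0x200000001000000000000000300040003) .nil)))) (.cons (nat_lit 0x111100) (nat_lit 0x1000010) (nat_lit 0x10) (nat_lit 0x102300) .nil)) (.non (nat_lit 1) (nat_lit 4) (nat_lit 0x2a840) (nat_lit 0x100010002000200000002000000000000)))) (.split (nat_lit 9) (nat_lit 0) (.split (nat_lit 9) (nat_lit 2) (.split (nat_lit 9) (nat_lit 3) (.split (nat_lit 9) (nat_lit 4) (.split (nat_lit 9) (nat_lit 5) (.split (nat_lit 9) (nat_lit 6) (.split (nat_lit 9) (nat_lit 7) (.split (nat_lit 9) (nat_lit 8) (.sup (nat_lit 0x3000000000000000000000000000300050003) (nat_lit 0x3000500040001000000000000)) (.non (nat_lit 1) (nat_lit 4) (nat_lit 0x55401) (nat_lit 0x1000200010002000100000000000000000001))) (.non (nat_lit 1) (nat_lit 4) (nat_lit 0x55441) (nat_lit 0x1000200020003000200000001000000000001))) (.star (nat_lit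 9) (nat_lit 1) (nat_lit 6))) (.non (nat_lit 1) (nat_lit 4) (nat_lit 0x55440) (nat_lit 0x1000100010002000200000001000000000000))) (.star (nat_lit 9) (nat_lit 1) (nat_lit 4))) (.non (nat_lit 1) (nat_lit 4) (nat_lit 0x55450) (nat_lit 0x1000100010002000200000002000100000000))) (.non (nat_lit 1) (nat_lit 6) (nat_lit 0x40550) (nat_lit 0x1000000000000000400030003000200000000))) (.non (nat_lit 1) (nat_lit 4) (nat_lit 0x55451) (nat_lit 0x1000300020004000300000002000100000002))))) (.non (nat_lit 1) (nat_lit 4) (nat_lit 0x2a801) (nat_lit 0x200010002000100000000000000000002)))))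

noncomputable def t768_14 : Tr := (.split (nat_lit 8) (nat_lit 0) (.pd (.cons (nat_lit 0) (nat_lit 6) (nat_lit 0) (nat_lit 0x830442110) (nat_lit 0xf423ff423f00000f423f54591b71aea2c280473700000) (.cons (nat_lit 3) (nat_lit 6) (nat_lit 0) (nat_lit 0x70440100) (nat_lit 0xf423ff423f00000f423f5459100000f423f5459106711) .nil)) (.ex (nat_lit 4) (.pd (.cons (nat_lit 0) (nat_lit 7) (nat_lit 0) (nat_lit 0x605442110) (nat_lit 0xf423f00000b71aea2c2804737f423fb71ae1f15600000) (.cons (nat_lit 1) (nat_lit 5) (nat_lit 0) (nat_lit 0x68047300) (nat_lit 0x927bda2c289896500000f423fb71aef423f000008e6a2) (.cons (nat_lit 2) (nat_lit 5) (nat_lit 0) (nat_lit 0x68047000) (nat_lit 0x98965b71aea2c2800000f423ff423f00000f423f5572c) (.cons (nat_lit 3) (nat_lit 8) (nat_lit 0) (nat_lit 0x65440100) (nat_lit 0xf423fb71aea2c280473700000f423f54591437a2) .nil)))) (.leaf (.cons (nat_lit 0x5054) (nat_lit 0x20001000000000003000400030000) (.cons (nat_lit 0x11501) (nat_lit 0x200000003000400030000000000000001) (.cons (nat_lit 0x5540) (nat_lit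 0x20003000400030001000000000000) (.cons (nat_lit 0x11015) (nat_lit 0x200000001000000000000000300040003) .nil)))) (.cons (nat_lit 0x111101101) (nat_lit 0x10010) (nat_lit 0xd) (nat_lit 0x240105603) (.cons (nat_lit 0x111001101) (nat_lit 0x100010) (nat_lit 4) (nat_lit 0x132004500) (.cons (nat_lit 0x111101011) (nat_lit 0x10100) (nat_lit 0xd) (nat_lit 0x420103065) (.cons (nat_lit 0x111001011) (nat_lit 0x100100) (nat_lit 4) (nat_lit 0x243005001) .nil)))))) (.split (nat_lit 9) (nat_lit 0) (.split (nat_lit 9) (nat_lit 1) (.split (nat_lit 9) (nat_lit 2) (.split (nat_lit 9) (nat_lit 3) (.split (nat_lit 9) (nat_lit 5) (.split (nat_lit 9) (nat_lit 6) (.split (nat_lit 9) (nat_lit 7) (.split (nat_lit 9) (nat_lit 8) (.unj (nat_lit 0x55) (nat_lit 0x1000200020001) (nat_lit 0x41500) (nat_lit 0x1000000000001000200020000000000000000)) (.non (nat_lit 1) (nat_lit 4) (nat_lit 0x55401) (nat_lit 0x1000200010002000100000000000000000001))) (.non (nat_lit 1) (nat_lit 4) (nat_lit 0x55440) (nat_lit 0x1000100020002000100000001000000000000)))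 (.non (nat_lit 1) (nat_lit 4) (nat_lit 0x55400) (nat_lit 0x1000100010002000100000000000000000000))) (.non (nat_lit 1) (nat_lit 4) (nat_lit 0x55441) (nat_lit 0x1000200020003000200000001000000000001))) (.non (nat_lit 1) (nat_lit 4) (nat_lit 0x55450) (nat_lit 0x1000100020002000100000002000100000000))) (.star (nat_lit 9) (nat_lit 2) (nat_lit 4))) (.star (nat_lit 9) (nat_lit 1) (nat_lit 4))) (.non (nat_lit 1) (nat_lit 4) (nat_lit 0x55451) (nat_lit 0x1000300030004000200000002000100000002))))) (.non (nat_lit 1) (nat_lit 4) (nat_lit 0x2a801) (nat_lit 0x200010002000100000000000000000002)))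

noncomputable def t768_15 : Tr := (.st (nat_lit 7) (nat_lit 1) (nat_lit 4) (nat_lit 0x15440) (nat_lit 0x100020002000100000001000000000000) (nat_lit 1) (nat_lit 1) (.st (nat_lit 8) (nat_lit 1) (nat_lit 4) (nat_lit 0x15401) (nat_lit 0x200010002000100000000000000000001) (nat_lit 1) (nat_lit 1) (.ex (nat_lit 1) (.ex (nat_lit 2) (.split (nat_lit 7) (nat_lit 3) t768_14 (.non (nat_lit 1) (nat_lit 4) (nat_lit 0x2a840) (nat_lit 0x100020002000100000002000000000000))) (.split (nat_lit 9) (nat_lit 0) (.split (nat_lit 9) (nat_lit 3) (.split (nat_lit 9) (nat_lit 4) (.split (nat_lit 9) (nat_lit 5) (.split (nat_lit 9) (nat_lit 6) (.split (nat_lit 9) (nat_lit 7) (.split (nat_lit 9) (nat_lit 8) (.split (nat_lit 9) (nat_lit 1) (.sup (nat_lit 0x5000000000000000000000000000a00090002) (nat_lit 0x100030007000a00080000000000000000)) (.unj (nat_lit 0x40014) (nat_lit 0x1000000000000000000000000000100010000) (nat_lit 0x15500) (nat_lit 0x100010002000200020000000000000000))) (.non (nat_lit 1) (nat_lit 4) (nat_lit 0x55050) (nat_lit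 0x1000100010001000000000001000100000000))) (.non (nat_lit 1) (nat_lit 4) (nat_lit 0x55440) (nat_lit 0x1000100020002000100000001000000000000))) (.star (nat_lit 9) (nat_lit 2) (nat_lit 6))) (.non (nat_lit 1) (nat_lit 4) (nat_lit 0x45450) (nat_lit 0x1000000010001000100000001000100000000))) (.star (nat_lit 9) (nat_lit 2) (nat_lit 4))) (.non (nat_lit 1) (nat_lit 4) (nat_lit 0x40050) (nat_lit 0x1000000000000000000000001000100000000))) (.non (nat_lit 1) (nat_lit 4) (nat_lit 0x55051) (nat_lit 0x1000100010001000000000001000100000001)))) (.split (nat_lit 9) (nat_lit 0) (.split (nat_lit 9) (nat_lit 3) (.split (nat_lit 9) (nat_lit 4) (.split (nat_lit 9) (nat_lit 5) (.split (nat_lit 9) (nat_lit 6) (.split (nat_lit 9) (nat_lit 7) (.split (nat_lit 9) (nat_lit 8) (.split (nat_lit 9) (nat_lit 2) (.sup (nat_lit 0x50000000000000000000000000006000a0005) (nat_lit 0x40007000a00080001000000000000)) (.unj (nat_lit 0x40014) (nat_lit 0x1000000000000000000000000000100010000) (nat_lit 0x15500) (nat_lit 0x100010002000200020000000000000000)))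 (.non (nat_lit 1) (nat_lit 4) (nat_lit 0x55401) (nat_lit 0x1000200010002000100000000000000000001))) (.non (nat_lit 1) (nat_lit 4) (nat_lit 0x55440) (nat_lit 0x1000100020002000100000001000000000000))) (.star (nat_lit 9) (nat_lit 1) (nat_lit 6))) (.non (nat_lit 1) (nat_lit 4) (nat_lit 0x55441) (nat_lit 0x1000200020003000200000001000000000001))) (.star (nat_lit 9) (nat_lit 1) (nat_lit 4))) (.non (nat_lit 1) (nat_lit 4) (nat_lit 0x55450) (nat_lit 0x1000100020002000100000002000100000000))) (.non (nat_lit 1) (nat_lit 4) (nat_lit 0x55451) (nat_lit 0x1000300030004000200000002000100000002))))))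

noncomputable def t768 : Tr := (.split (nat_lit 8) (nat_lit 0) (.split (nat_lit 8) (nat_lit 3) t768_9 (.split (nat_lit 7) (nat_lit 3) (.split (nat_lit 5) (nat_lit 3) (.split (nat_lit 7) (nat_lit 0) (.split (nat_lit 5) (nat_lit 0) (.sup (nat_lit 0x20009000a0005) (nat_lit 0x100030007000a00080000000000000000)) (.st (nat_lit 0) (nat_lit 1) (nat_lit 4) (nat_lit 0x15451) (nat_lit 0x300020004000300000002000100000002) (nat_lit 1) (nat_lit 1) (.st (nat_lit 1) (nat_lit 2) (nat_lit 6) (nat_lit 0x505) (nat_lit 0x400030000000000020003) (nat_lit 1) (nat_lit 1) (.st (nat_lit 3) (nat_lit 1) (nat_lit 4) (nat_lit 0x15450) (nat_lit 0x200010002000100000002000100000000) (nat_lit 1) (nat_lit 1) (.st (nat_lit 4) (nat_lit 1) (nat_lit 6) (nat_lit 0x501) (nat_lit 0x200020000000000000001) (nat_lit 1) (nat_lit 1) (.st (nat_lit 5) (nat_lit 1) (nat_lit 4) (nat_lit 0x15401) (nat_lit 0x100010002000200000000000000000001) (nat_lit 1) (nat_lit 1) (.st (nat_lit 7) (nat_lit 1) (nat_lit 4) (nat_lit 0x15441) (nat_lit 0x200020003000200000001000000000001)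 (nat_lit 1) (nat_lit 1) t768_10))))))) (.split (nat_lit 5) (nat_lit 0) (.st (nat_lit 0) (nat_lit 1) (nat_lit 4) (nat_lit 0x15451) (nat_lit 0x300030004000200000002000100000002) (nat_lit 1) (nat_lit 1) (.st (nat_lit 3) (nat_lit 1) (nat_lit 4) (nat_lit 0x15450) (nat_lit 0x200010002000100000002000100000000) (nat_lit 1) (nat_lit 1) (.st (nat_lit 5) (nat_lit 1) (nat_lit 4) (nat_lit 0x15441) (nat_lit 0x200020003000200000001000000000001) (nat_lit 1) (nat_lit 1) t768_12))) (.non (nat_lit 1) (nat_lit 4) (nat_lit 0x5401) (nat_lit 0x10001000100000000000000000001)))) (.non (nat_lit 1) (nat_lit 4) (nat_lit 0x11440) (nat_lit 0x100000001000100000001000000000000))) (.non (nat_lit 1) (nat_lit 4) (nat_lit 0x15040) (nat_lit 0x100010001000000000001000000000000)))) (.split (nat_lit 8) (nat_lit 3) (.split (nat_lit 7) (nat_lit 0) (.split (nat_lit 5) (nat_lit 0) (.split (nat_lit 7) (nat_lit 3) (.split (nat_lit 5) (nat_lit 3) (.sup (nat_lit 0x5000a00090002) (nat_lit 0x100030007000a00080000000000000000)) (.st (nat_lit 0) (nat_lit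 1) (nat_lit 4) (nat_lit 0x15451) (nat_lit 0x300020004000300000002000100000002) (nat_lit 1) (nat_lit 1) (.st (nat_lit 2) (nat_lit 1) (nat_lit 6) (nat_lit 0x550) (nat_lit 0x400030003000200000000) (nat_lit 1) (nat_lit 1) (.st (nat_lit 3) (nat_lit 1) (nat_lit 4) (nat_lit 0x15450) (nat_lit 0x100010002000200000002000100000000) (nat_lit 1) (nat_lit 1) (.st (nat_lit 4) (nat_lit 1) (nat_lit 6) (nat_lit 0x540) (nat_lit 0x200020001000000000000) (nat_lit 1) (nat_lit 1) (.st (nat_lit 5) (nat_lit 1) (nat_lit 4) (nat_lit 0x15440) (nat_lit 0x100010002000200000001000000000000) (nat_lit 1) (nat_lit 1) t768_13)))))) (.split (nat_lit 5) (nat_lit 3) (.st (nat_lit 0) (nat_lit 1) (nat_lit 4) (nat_lit 0x15451) (nat_lit 0x300030004000200000002000100000002) (nat_lit 1) (nat_lit 1) (.st (nat_lit 3) (nat_lit 1) (nat_lit 4) (nat_lit 0x15450) (nat_lit 0x100020002000100000002000100000000) (nat_lit 1) (nat_lit 1) (.st (nat_lit 5) (nat_lit 1) (nat_lit 4) (nat_lit 0x15441) (nat_lit 0x200020003000200000001000000000001) (nat_lit 1)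 (nat_lit 1) t768_15))) (.non (nat_lit 1) (nat_lit 4) (nat_lit 0x5440) (nat_lit 0x10001000100000001000000000000)))) (.non (nat_lit 1) (nat_lit 4) (nat_lit 0x11401) (nat_lit 0x100000001000100000000000000000001))) (.non (nat_lit 1) (nat_lit 4) (nat_lit 0x15001) (nat_lit 0x100010001000000000000000000000001))) (.non (nat_lit 1) (nat_lit 4) (nat_lit 0x15441) (nat_lit 0x200010002000100000001000000000001))))

noncomputable def t770_1 : Tr := (.ex (nat_lit 9) (.split (nat_lit 9) (nat_lit 8) (.pd (.cons (nat_lit 1) (nat_lit 4) (nat_lit 0) (nat_lit 0x8637602200) (nat_lit 0xf423fb71ae61a7965b97f423f000005b8cc515fe00000f423f) (.cons (nat_lit 2) (nat_lit 4) (nat_lit 0) (nat_lit 0x8637603000) (nat_lit 0xf423fb71ae61a7965b97f423f000005b8cc00000f423fb71ae) (.cons (nat_lit 3) (nat_lit 4) (nat_lit 0) (nat_lit 0x8665500100) (nat_lit 0xf423fb71aef423f65b9761a790000000000f423f54591437a2) .nil))) (.leaf (.cons (nat_lit 0x5054) (nat_lit 0x20001000000000003000400030000) (.cons (nat_lit 0x51500) (nat_lit 0x1000200000003000400030000000000000000)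 (.cons (nat_lit 0x5540) (nat_lit 0x20003000400030001000000000000) (.cons (nat_lit 0x515) (nat_lit 0x100010000000100010001) .nil)))) (.cons (nat_lit 0x1111101100) (nat_lit 0x10010) (nat_lit 0xd) (nat_lit 0x3240105600) (.cons (nat_lit 0x1111001100) (nat_lit 0x100010) (nat_lit 4) (nat_lit 0x5423001000) .nil)))) (.sup (nat_lit 0x5000a00090002) (nat_lit 0x7000a0000000a000a00060000000000000000))) (.split (nat_lit 0xa) (nat_lit 0) (.split (nat_lit 0xa) (nat_lit 1) (.split (nat_lit 0xa) (nat_lit 2) (.split (nat_lit 0xa) (nat_lit 3) (.split (nat_lit 0xa) (nat_lit 4) (.split (nat_lit 0xa) (nat_lit 5) (.split (nat_lit 0xa) (nat_lit 6) (.split (nat_lit 0xa) (nat_lit 7) (.split (nat_lit 0xa) (nat_lit 8) (.split (nat_lit 0xa) (nat_lit 9) (.split (nat_lit 9) (nat_lit 8) (.par (nat_lit 0x155450) (nat_lit 0x10002000300030004000200000002000100000000)) (.non (nat_lit 1) (nat_lit 5) (nat_lit 0x295000) (nat_lit 0x10002000300010002000000000000000000000000))) (.sup (nat_lit 0x7000a000b0002000b000900050000000000000000) (nat_lit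 0x7001000100005))) (.non (nat_lit 1) (nat_lit 5) (nat_lit 0x150000) (nat_lit 0x10001000100000000000000000000000000000000))) (.non (nat_lit 1) (nat_lit 5) (nat_lit 0x155000) (nat_lit 0x10001000100010001000000000000000000000000))) (.non (nat_lit 1) (nat_lit 5) (nat_lit 0x151000) (nat_lit 0x10001000100000001000000000000000000000000))) (.non (nat_lit 1) (nat_lit 6) (nat_lit 0x150500) (nat_lit 0x30002000100000000000400030000000000000000))) (.non (nat_lit 1) (nat_lit 6) (nat_lit 0x150500) (nat_lit 0x30002000100000000000300040000000000000000))) (.non (nat_lit 1) (nat_lit 5) (nat_lit 0x155040) (nat_lit 0x10001000100010001000000000001000000000000))) (.non (nat_lit 1) (nat_lit 5) (nat_lit 0x155050) (nat_lit 0x10001000100010001000000000001000100000000))) (.non (nat_lit 2) (nat_lit 6) (nat_lit 0x100505) (nat_lit 0x10000000000000000000300040000000000020003))) (.non (nat_lit 1) (nat_lit 6) (nat_lit 0x140501) (nat_lit 0x20001000000000000000300040000000000000003))))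

noncomputable def t770_2 : Tr := (.ex (nat_lit 8) (.pd (.cons (nat_lit 0) (nat_lit 7) (nat_lit 0) (nat_lit 0x605442110) (nat_lit 0xf423f00000b71aea2c2804737f423fb71ae1f15600000) (.cons (nat_lit 1) (nat_lit 4) (nat_lit 0) (nat_lit 0x637602200) (nat_lit 0xf423f7a11b7a11df423f000007a1197a11700000f423f) (.cons (nat_lit 2) (nat_lit 4) (nat_lit 0) (nat_lit 0x637603000) (nat_lit 0xf423f7a11b7a11df423f000007a11900000f423fb71ae) (.cons (nat_lit 3) (nat_lit 4) (nat_lit 0) (nat_lit 0x665500100) (nat_lit 0xf423ff423f7a11d7a11b0000000000f423f54591437a2) .nil)))) (.leaf (.cons (nat_lit 0x5054) (nat_lit 0x20001000000000003000400030000) (.cons (nat_lit 0x1501) (nat_lit 0x1000200020000000000000001) (.cons (nat_lit 0x515) (nat_lit 0x100010000000100010001) .nil))) (.cons (nat_lit 0x110011) (nat_lit 0x1000100) (nat_lit 0x10) (nat_lit 0x10032) .nil))) (.split (nat_lit 9) (nat_lit 0) (.split (nat_lit 9) (nat_lit 1) (.split (nat_lit 9) (nat_lit 2) (.split (nat_lit 9) (nat_lit 3) (.split (nat_lit 9) (nat_lit 4) (.split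 (nat_lit 9) (nat_lit 5) (.split (nat_lit 9) (nat_lit 6) (.split (nat_lit 9) (nat_lit 7) (.ex (nat_lit 8) t770_1 (.split (nat_lit 0xa) (nat_lit 0) (.split (nat_lit 0xa) (nat_lit 1) (.split (nat_lit 0xa) (nat_lit 2) (.split (nat_lit 0xa) (nat_lit 3) (.split (nat_lit 0xa) (nat_lit 4) (.split (nat_lit 0xa) (nat_lit 5) (.split (nat_lit 0xa) (nat_lit 6) (.split (nat_lit 0xa) (nat_lit 7) (.split (nat_lit 0xa) (nat_lit 9) (.sup (nat_lit 0x50005000b0002000b000900050000000000000000) (nat_lit 0x7001000100005)) (.non (nat_lit 1) (nat_lit 5) (nat_lit 0x150000) (nat_lit 0x10001000100000000000000000000000000000000))) (.non (nat_lit 1) (nat_lit 5) (nat_lit 0x115000) (nat_lit 0x10000000100010001000000000000000000000000))) (.non (nat_lit 1) (nat_lit 5) (nat_lit 0x111000) (nat_lit 0x10000000100000001000000000000000000000000))) (.non (nat_lit 1) (nat_lit 6) (nat_lit 0x150500) (nat_lit 0x30001000200000000000400030000000000000000))) (.non (nat_lit 1) (nat_lit 5) (nat_lit 0x155141) (nat_lit 0x30002000400020003000000020001000000000001)))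 (.non (nat_lit 1) (nat_lit 5) (nat_lit 0x115040) (nat_lit 0x10000000100010001000000000001000000000000))) (.non (nat_lit 1) (nat_lit 5) (nat_lit 0x115050) (nat_lit 0x10000000100010001000000000001000100000000))) (.non (nat_lit 2) (nat_lit 5) (nat_lit 0x155045) (nat_lit 0x30002000400020003000000000001000000020001))) (.non (nat_lit 1) (nat_lit 5) (nat_lit 0x155141) (nat_lit 0x30002000400020003000000010001000000000002)))) (.non (nat_lit 1) (nat_lit 5) (nat_lit 0x55000) (nat_lit 0x1000100010001000000000000000000000000))) (.non (nat_lit 1) (nat_lit 5) (nat_lit 0x51000) (nat_lit 0x1000100000001000000000000000000000000))) (.non (nat_lit 1) (nat_lit 6) (nat_lit 0x40501) (nat_lit 0x1000000000000000200020000000000000001))) (.non (nat_lit 1) (nat_lit 6) (nat_lit 0x40501) (nat_lit 0x1000000000000000200020000000000000001))) (.non (nat_lit 1) (nat_lit 5) (nat_lit 0x55040) (nat_lit 0x1000100010001000000000001000000000000))) (.non (nat_lit 1) (nat_lit 5) (nat_lit 0x55050) (nat_lit 0x1000100010001000000000001000100000000)))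 (.non (nat_lit 2) (nat_lit 6) (nat_lit 0x40505) (nat_lit 0x1000000000000000300040000000000020003))) (.non (nat_lit 1) (nat_lit 6) (nat_lit 0x50501) (nat_lit 0x2000100000000000300040000000000000003))))

noncomputable def t770_3 : Tr := (.ex (nat_lit 6) (.ex (nat_lit 7) (.split (nat_lit 7) (nat_lit 3) (.pd (.cons (nat_lit 0) (nat_lit 6) (nat_lit 0) (nat_lit 0x830442110) (nat_lit 0xf423ff423f00000f423f54591b71aea2c280473700000) .nil) t770_2) (.non (nat_lit 1) (nat_lit 5) (nat_lit 0x2a050) (nat_lit 0x100030002000000000004000200000000))) (.split (nat_lit 9) (nat_lit 0) (.split (nat_lit 9) (nat_lit 1) (.split (nat_lit 9) (nat_lit 2) (.split (nat_lit 9) (nat_lit 3) (.split (nat_lit 9) (nat_lit 4) (.split (nat_lit 9) (nat_lit 5) (.split (nat_lit 9) (nat_lit 6) (.split (nat_lit 9) (nat_lit 8) (.split (nat_lit 9) (nat_lit 7) (.split (nat_lit 7) (nat_lit 3) (.par (nat_lit 0x55440) (nat_lit 0x1000100020002000100000001000000000000)) (.non (nat_lit 1) (nat_lit 5) (nat_lit 0x8a040) (nat_lit 0x1000000020001000000000002000000000000)))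 (.non (nat_lit 1) (nat_lit 5) (nat_lit 0x85040) (nat_lit 0x1000000020001000000000001000000000000))) (.non (nat_lit 1) (nat_lit 5) (nat_lit 0x55000) (nat_lit 0x1000100010001000000000000000000000000))) (.non (nat_lit 1) (nat_lit 5) (nat_lit 0x45000) (nat_lit 0x1000000010001000000000000000000000000))) (.non (nat_lit 1) (nat_lit 6) (nat_lit 0x44540) (nat_lit 0x3000000020000000400030001000000000000))) (.non (nat_lit 1) (nat_lit 5) (nat_lit 0x55150) (nat_lit 0x2000100030002000000010002000100000000))) (.non (nat_lit 1) (nat_lit 5) (nat_lit 0x44040) (nat_lit 0x1000000010000000000000001000000000000))) (.non (nat_lit 1) (nat_lit 5) (nat_lit 0x44050) (nat_lit 0x1000000010000000000000001000100000000))) (.non (nat_lit 2) (nat_lit 6) (nat_lit 0x40505) (nat_lit 0x1000000000000000300040000000000020003))) (.non (nat_lit 1) (nat_lit 5) (nat_lit 0x55051) (nat_lit 0x2000100030002000000000002000100000001)))) (.split (nat_lit 9) (nat_lit 0) (.split (nat_lit 9) (nat_lit 1) (.split (nat_lit 9) (nat_lit 2) (.split (nat_lit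 9) (nat_lit 3) (.split (nat_lit 9) (nat_lit 4) (.split (nat_lit 9) (nat_lit 5) (.split (nat_lit 9) (nat_lit 7) (.split (nat_lit 9) (nat_lit 8) (.sup (nat_lit 0x5000a00090002) (nat_lit 0x500050000000a000a00060000000000000000)) (.non (nat_lit 1) (nat_lit 5) (nat_lit 0x51000) (nat_lit 0x1000100000001000000000000000000000000))) (.non (nat_lit 1) (nat_lit 5) (nat_lit 0x45000) (nat_lit 0x1000000010001000000000000000000000000))) (.non (nat_lit 1) (nat_lit 6) (nat_lit 0x40501) (nat_lit 0x1000000000000000200020000000000000001))) (.non (nat_lit 1) (nat_lit 5) (nat_lit 0x55151) (nat_lit 0x3000200030004000000020002000100000001))) (.non (nat_lit 1) (nat_lit 5) (nat_lit 0x45040) (nat_lit 0x1000000010001000000000001000000000000))) (.star (nat_lit 9) (nat_lit 2) (nat_lit 6))) (.star (nat_lit 9) (nat_lit 1) (nat_lit 6))) (.non (nat_lit 1) (nat_lit 5) (nat_lit 0x55151) (nat_lit 0x3000200030004000000010002000100000002))))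

noncomputable def t770_4 : Tr := (.ex (nat_lit 2) (.split (nat_lit 4) (nat_lit 0) (.pd (.cons (nat_lit 3) (nat_lit 5) (nat_lit 0) (nat_lit 0x666000100) (nat_lit 0xf423ff423f7a11d00000f423f00000f423f5459106711) .nil) (.ex (nat_lit 3) t770_3 (.split (nat_lit 9) (nat_lit 0) (.split (nat_lit 9) (nat_lit 1) (.split (nat_lit 9) (nat_lit 2) (.split (nat_lit 9) (nat_lit 4) (.split (nat_lit 9) (nat_lit 5) (.split (nat_lit 9) (nat_lit 6) (.split (nat_lit 9) (nat_lit 7) (.split (nat_lit 9) (nat_lit 8) (.split (nat_lit 9) (nat_lit 3) (.split (nat_lit 7) (nat_lit 3) (.par (nat_lit 0x55450) (nat_lit 0x1000100020002000100000002000100000000)) (.non (nat_lit 1) (nat_lit 5) (nat_lit 0x6a040) (nat_lit 0x2000100030002000000000004000000000000))) (.non (nat_lit 1) (nat_lit 5) (nat_lit 0x84050) (nat_lit 0x1000000010000000000000002000100000000))) (.non (nat_lit 1) (nat_lit 5) (nat_lit 0x55040) (nat_lit 0x1000100010001000000000001000000000000))) (.non (nat_lit 1) (nat_lit 5) (nat_lit 0x44040) (nat_lit 0x1000000010000000000000001000000000000)))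 (.non (nat_lit 1) (nat_lit 5) (nat_lit 0x45040) (nat_lit 0x1000000010001000000000001000000000000))) (.non (nat_lit 1) (nat_lit 6) (nat_lit 0x44540) (nat_lit 0x3000000010000000400030002000000000000))) (.non (nat_lit 1) (nat_lit 5) (nat_lit 0x55151) (nat_lit 0x3000100030002000000020004000200000001))) (.non (nat_lit 1) (nat_lit 5) (nat_lit 0x40050) (nat_lit 0x1000000000000000000000001000100000000))) (.non (nat_lit 2) (nat_lit 6) (nat_lit 0x40505) (nat_lit 0x1000000000000000300040000000000020003))) (.non (nat_lit 1) (nat_lit 5) (nat_lit 0x55151) (nat_lit 0x3000100030002000000010004000200000002))))) (.non (nat_lit 1) (nat_lit 6) (nat_lit 0x501) (nat_lit 0x100010000000000000001))) (.split (nat_lit 9) (nat_lit 0) (.split (nat_lit 9) (nat_lit 1) (.split (nat_lit 9) (nat_lit 3) (.split (nat_lit 9) (nat_lit 4) (.split (nat_lit 9) (nat_lit 5) (.split (nat_lit 9) (nat_lit 6) (.split (nat_lit 9) (nat_lit 7) (.split (nat_lit 9) (nat_lit 8) (.sup (nat_lit 0x5000a00090000000000000002) (nat_lit 0x5000000000000000000000005000a00060000))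 (.non (nat_lit 1) (nat_lit 5) (nat_lit 0x55050) (nat_lit 0x1000100010001000000000001000100000000))) (.non (nat_lit 1) (nat_lit 5) (nat_lit 0x44050) (nat_lit 0x1000000010000000000000001000100000000))) (.star (nat_lit 9) (nat_lit 2) (nat_lit 6))) (.star (nat_lit 9) (nat_lit 2) (nat_lit 5))) (.non (nat_lit 1) (nat_lit 6) (nat_lit 0x40550) (nat_lit 0x3000000000000000300040001000200000000))) (.non (nat_lit 1) (nat_lit 5) (nat_lit 0x40050) (nat_lit 0x1000000000000000000000001000100000000))) (.non (nat_lit 2) (nat_lit 6) (nat_lit 0x40505) (nat_lit 0x1000000000000000300040000000000020003))) (.non (nat_lit 1) (nat_lit 6) (nat_lit 0x40511) (nat_lit 0x2000000000000000300040000000100000003))))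

noncomputable def t770_5 : Tr := (.ex (nat_lit 8) (.ex (nat_lit 9) (.split (nat_lit 9) (nat_lit 8) (.pd (.cons (nat_lit 0) (nat_lit 4) (nat_lit 0) (nat_lit 0x8665502110) (nat_lit 0xf423fb71aef423f65b9761a7900000f423fb71ae1f15600000) (.cons (nat_lit 1) (nat_lit 4) (nat_lit 0) (nat_lit 0x8607602200) (nat_lit 0xf423fb71ae61a7965b97f423f00000f423fb71ae000005b8cc) (.cons (nat_lit 2) (nat_lit 4) (nat_lit 0) (nat_lit 0x8607603000) (nat_lit 0xf423fb71ae61a7965b97f423f00000f423f00000f423f1e83b) .nil))) (.leaf (.cons (nat_lit 0x554) (nat_lit 0x100010001000100010000) (.cons (nat_lit 0x51500) (nat_lit 0x1000200000003000400030000000000000000) (.cons (nat_lit 0x1540) (nat_lit 0x1000200020001000000000000) (.cons (nat_lit 0x5015) (nat_lit 0x20001000000000000000300040003) .nil)))) (.cons (nat_lit 0x11110) (nat_lit 0x100001) (nat_lit 0x10) (nat_lit 0x32100) .nil))) (.sup (nat_lit 0x20009000a0005) (nat_lit 0x7000a0000000a000a00060000000000000000))) (.split (nat_lit 0xa) (nat_lit 0) (.split (nat_lit 0xa) (nat_lit 1)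 (.split (nat_lit 0xa) (nat_lit 2) (.split (nat_lit 0xa) (nat_lit 3) (.split (nat_lit 0xa) (nat_lit 4) (.split (nat_lit 0xa) (nat_lit 5) (.split (nat_lit 0xa) (nat_lit 6) (.split (nat_lit 0xa) (nat_lit 7) (.split (nat_lit 0xa) (nat_lit 8) (.split (nat_lit 0xa) (nat_lit 9) (.split (nat_lit 9) (nat_lit 8) (.par (nat_lit 0x155405) (nat_lit 0x10002000300030004000200000000000000010002)) (.non (nat_lit 1) (nat_lit 5) (nat_lit 0x295000) (nat_lit 0x10002000300010002000000000000000000000000))) (.sup (nat_lit 0x7000a000b0002000b000900050000000000000000) (nat_lit 0x5001000100007))) (.non (nat_lit 1) (nat_lit 5) (nat_lit 0x150000) (nat_lit 0x10001000100000000000000000000000000000000))) (.non (nat_lit 1) (nat_lit 5) (nat_lit 0x155000) (nat_lit 0x10001000100010001000000000000000000000000))) (.non (nat_lit 1) (nat_lit 5) (nat_lit 0x151000) (nat_lit 0x10001000100000001000000000000000000000000))) (.non (nat_lit 1) (nat_lit 6) (nat_lit 0x150500) (nat_lit 0x30002000100000000000400030000000000000000))) (.non (nat_lit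 1) (nat_lit 6) (nat_lit 0x150500) (nat_lit 0x30002000100000000000300040000000000000000))) (.non (nat_lit 1) (nat_lit 6) (nat_lit 0x140540) (nat_lit 0x20001000000000000000300040003000000000000))) (.non (nat_lit 1) (nat_lit 6) (nat_lit 0x100550) (nat_lit 0x10000000000000000000300040003000200000000))) (.non (nat_lit 2) (nat_lit 5) (nat_lit 0x155005) (nat_lit 0x10001000100010001000000000000000000010001))) (.non (nat_lit 1) (nat_lit 5) (nat_lit 0x155001) (nat_lit 0x10001000100010001000000000000000000000001)))) (.split (nat_lit 0xa) (nat_lit 0) (.split (nat_lit 0xa) (nat_lit 1) (.split (nat_lit 0xa) (nat_lit 2) (.split (nat_lit 0xa) (nat_lit 3) (.split (nat_lit 0xa) (nat_lit 4) (.split (nat_lit 0xa) (nat_lit 5) (.split (nat_lit 0xa) (nat_lit 6) (.split (nat_lit 0xa) (nat_lit 7) (.split (nat_lit 0xa) (nat_lit 9) (.sup (nat_lit 0x50005000b0002000b000900050000000000000000) (nat_lit 0x5001000100007)) (.non (nat_lit 1) (nat_lit 5) (nat_lit 0x150000) (nat_lit 0x10001000100000000000000000000000000000000))) (.non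 (nat_lit 1) (nat_lit 5) (nat_lit 0x115000) (nat_lit 0x10000000100010001000000000000000000000000))) (.non (nat_lit 1) (nat_lit 5) (nat_lit 0x111000) (nat_lit 0x10000000100000001000000000000000000000000))) (.non (nat_lit 1) (nat_lit 6) (nat_lit 0x150500) (nat_lit 0x30001000200000000000400030000000000000000))) (.non (nat_lit 1) (nat_lit 5) (nat_lit 0x155141) (nat_lit 0x30002000400020003000000020001000000000001))) (.non (nat_lit 1) (nat_lit 5) (nat_lit 0x151150) (nat_lit 0x20001000200000001000000010002000100000000))) (.non (nat_lit 1) (nat_lit 5) (nat_lit 0x155051) (nat_lit 0x30002000400020003000000000001000200000001))) (.non (nat_lit 2) (nat_lit 5) (nat_lit 0x115005) (nat_lit 0x10000000100010001000000000000000000010001))) (.non (nat_lit 1) (nat_lit 5) (nat_lit 0x115001) (nat_lit 0x10000000100010001000000000000000000000001))))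

noncomputable def t770_6 : Tr := (.ex (nat_lit 7) (.split (nat_lit 7) (nat_lit 0) (.pd (.cons (nat_lit 3) (nat_lit 6) (nat_lit 0) (nat_lit 0x800440100) (nat_lit 0xf423ff423f00000f423f5459100000f423f5459106711) .nil) (.ex (nat_lit 8) (.pd (.cons (nat_lit 0) (nat_lit 4) (nat_lit 0) (nat_lit 0x665502110) (nat_lit 0xf423ff423f7a11d7a11b00000f423fb71ae1f15600000) (.cons (nat_lit 1) (nat_lit 4) (nat_lit 0) (nat_lit 0x607602200) (nat_lit 0xf423f7a11b7a11df423f00000f423fb71ae000007a119) (.cons (nat_lit 2) (nat_lit 4) (nat_lit 0) (nat_lit 0x607603000) (nat_lit 0xf423f7a11b7a11df423f00000f423f00000f423f3d088) (.cons (nat_lit 3) (nat_lit 7) (nat_lit 0) (nat_lit 0x605440100) (nat_lit 0xf423f00000b71aea2c280473700000f423f54591437a2) .nil)))) (.leaf (.cons (nat_lit 0x554) (nat_lit 0x100010001000100010000) (.cons (nat_lit 0x1540) (nat_lit 0x1000200020001000000000000) (.cons (nat_lit 0x5015) (nat_lit 0x20001000000000000000300040003) .nil))) (.cons (nat_lit 0x11110) (nat_lit 0x100001) (nat_lit 0x10) (nat_lit 0x32100)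 .nil))) (.split (nat_lit 9) (nat_lit 0) (.split (nat_lit 9) (nat_lit 1) (.split (nat_lit 9) (nat_lit 2) (.split (nat_lit 9) (nat_lit 3) (.split (nat_lit 9) (nat_lit 4) (.split (nat_lit 9) (nat_lit 5) (.split (nat_lit 9) (nat_lit 6) (.split (nat_lit 9) (nat_lit 7) t770_5 (.non (nat_lit 1) (nat_lit 5) (nat_lit 0x55000) (nat_lit 0x1000100010001000000000000000000000000))) (.non (nat_lit 1) (nat_lit 5) (nat_lit 0x51000) (nat_lit 0x1000100000001000000000000000000000000))) (.non (nat_lit 1) (nat_lit 6) (nat_lit 0x40540) (nat_lit 0x1000000000000000200020001000000000000))) (.non (nat_lit 1) (nat_lit 6) (nat_lit 0x40540) (nat_lit 0x1000000000000000200020001000000000000))) (.non (nat_lit 1) (nat_lit 6) (nat_lit 0x50540) (nat_lit 0x2000100000000000300040003000000000000))) (.non (nat_lit 1) (nat_lit 6) (nat_lit 0x40550) (nat_lit 0x1000000000000000300040003000200000000))) (.non (nat_lit 2) (nat_lit 5) (nat_lit 0x55005) (nat_lit 0x1000100010001000000000000000000010001))) (.non (nat_lit 1) (nat_lit 5) (nat_lit 0x55001)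 (nat_lit 0x1000100010001000000000000000000000001))))) (.non (nat_lit 2) (nat_lit 5) (nat_lit 0x2a005) (nat_lit 0x100030002000000000000000000020004))) (.split (nat_lit 9) (nat_lit 0) (.split (nat_lit 9) (nat_lit 1) (.split (nat_lit 9) (nat_lit 2) (.split (nat_lit 9) (nat_lit 3) (.split (nat_lit 9) (nat_lit 4) (.split (nat_lit 9) (nat_lit 5) (.split (nat_lit 9) (nat_lit 6) (.split (nat_lit 9) (nat_lit 8) (.split (nat_lit 9) (nat_lit 7) (.split (nat_lit 7) (nat_lit 0) (.par (nat_lit 0x55401) (nat_lit 0x1000100020002000100000000000000000001)) (.non (nat_lit 1) (nat_lit 5) (nat_lit 0x8a001) (nat_lit 0x1000000020001000000000000000000000002))) (.non (nat_lit 1) (nat_lit 5) (nat_lit 0x85001) (nat_lit 0x1000000020001000000000000000000000001))) (.non (nat_lit 1) (nat_lit 5) (nat_lit 0x55000) (nat_lit 0x1000100010001000000000000000000000000))) (.non (nat_lit 1) (nat_lit 5) (nat_lit 0x45000) (nat_lit 0x1000000010001000000000000000000000000))) (.non (nat_lit 1) (nat_lit 6) (nat_lit 0x40540) (nat_lit 0x1000000000000000200020001000000000000)))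 (.non (nat_lit 1) (nat_lit 6) (nat_lit 0x40540) (nat_lit 0x1000000000000000200020001000000000000))) (.non (nat_lit 1) (nat_lit 5) (nat_lit 0x45151) (nat_lit 0x2000000020001000000010002000100000001))) (.non (nat_lit 1) (nat_lit 6) (nat_lit 0x40550) (nat_lit 0x1000000000000000300040003000200000000))) (.non (nat_lit 2) (nat_lit 5) (nat_lit 0x44005) (nat_lit 0x1000000010000000000000000000000010001))) (.non (nat_lit 1) (nat_lit 5) (nat_lit 0x44001) (nat_lit 0x1000000010000000000000000000000000001))))

noncomputable def t770_7 : Tr := (.ex (nat_lit 0) (.ex (nat_lit 1) (.split (nat_lit 4) (nat_lit 3) (.pd (.cons (nat_lit 0) (nat_lit 5) (nat_lit 0) (nat_lit 0x666032110) (nat_lit 0xf423ff423f7a11d00000f423fb71aea2c280473700000) .nil) (.ex (nat_lit 6) t770_6 (.split (nat_lit 9) (nat_lit 0) (.split (nat_lit 9) (nat_lit 1) (.split (nat_lit 9) (nat_lit 2) (.split (nat_lit 9) (nat_lit 3) (.split (nat_lit 9) (nat_lit 4) (.split (nat_lit 9) (nat_lit 5) (.split (nat_lit 9) (nat_lit 7) (.split (nat_lit 9) (nat_lit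 8) (.sup (nat_lit 0x20009000a0005) (nat_lit 0x500050000000a000a00060000000000000000)) (.non (nat_lit 1) (nat_lit 5) (nat_lit 0x51000) (nat_lit 0x1000100000001000000000000000000000000))) (.non (nat_lit 1) (nat_lit 5) (nat_lit 0x45000) (nat_lit 0x1000000010001000000000000000000000000))) (.non (nat_lit 1) (nat_lit 6) (nat_lit 0x40540) (nat_lit 0x1000000000000000200020001000000000000))) (.non (nat_lit 1) (nat_lit 6) (nat_lit 0x40540) (nat_lit 0x1000000000000000200020001000000000000))) (.non (nat_lit 1) (nat_lit 5) (nat_lit 0x55150) (nat_lit 0x2000100010002000000010002000100000000))) (.star (nat_lit 9) (nat_lit 2) (nat_lit 6))) (.star (nat_lit 9) (nat_lit 1) (nat_lit 6))) (.non (nat_lit 1) (nat_lit 5) (nat_lit 0x45001) (nat_lit 0x1000000010001000000000000000000000001))))) (.non (nat_lit 1) (nat_lit 6) (nat_lit 0x540) (nat_lit 0x100010001000000000000))) (.split (nat_lit 9) (nat_lit 0) (.split (nat_lit 9) (nat_lit 2) (.split (nat_lit 9) (nat_lit 3) (.split (nat_lit 9) (nat_lit 4) (.split (nat_lit 9) (nat_lit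 5) (.split (nat_lit 9) (nat_lit 6) (.split (nat_lit 9) (nat_lit 7) (.split (nat_lit 9) (nat_lit 8) (.sup (nat_lit 0x50000000000000000000000000006000a0005) (nat_lit 0x5000a00090002000000000000)) (.non (nat_lit 2) (nat_lit 5) (nat_lit 0x55005) (nat_lit 0x1000100010001000000000000000000010001))) (.non (nat_lit 2) (nat_lit 5) (nat_lit 0x44005) (nat_lit 0x1000000010000000000000000000000010001))) (.star (nat_lit 9) (nat_lit 1) (nat_lit 6))) (.star (nat_lit 9) (nat_lit 1) (nat_lit 5))) (.non (nat_lit 1) (nat_lit 6) (nat_lit 0x40540) (nat_lit 0x1000000000000000200020001000000000000))) (.non (nat_lit 1) (nat_lit 6) (nat_lit 0x40550) (nat_lit 0x1000000000000000200020002000100000000))) (.non (nat_lit 1) (nat_lit 6) (nat_lit 0x40550) (nat_lit 0x1000000000000000300040003000200000000))) (.non (nat_lit 2) (nat_lit 5) (nat_lit 0x40005) (nat_lit 0x1000000000000000000000000000000010001)))) (.split (nat_lit 9) (nat_lit 1) (.split (nat_lit 9) (nat_lit 2) (.split (nat_lit 9) (nat_lit 3) (.split (nat_lit 9) (nat_lit 4)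 (.split (nat_lit 9) (nat_lit 5) (.split (nat_lit 9) (nat_lit 6) (.split (nat_lit 9) (nat_lit 7) (.split (nat_lit 9) (nat_lit 8) (.split (nat_lit 9) (nat_lit 0) (.split (nat_lit 7) (nat_lit 0) (.par (nat_lit 0x55405) (nat_lit 0x1000100020002000100000000000000010002)) (.non (nat_lit 1) (nat_lit 5) (nat_lit 0x6a001) (nat_lit 0x2000100030002000000000000000000000004))) (.non (nat_lit 2) (nat_lit 5) (nat_lit 0x84005) (nat_lit 0x1000000010000000000000000000000010002))) (.non (nat_lit 1) (nat_lit 5) (nat_lit 0x55001) (nat_lit 0x1000100010001000000000000000000000001))) (.non (nat_lit 1) (nat_lit 5) (nat_lit 0x44001) (nat_lit 0x1000000010000000000000000000000000001))) (.non (nat_lit 1) (nat_lit 5) (nat_lit 0x45001) (nat_lit 0x1000000010001000000000000000000000001))) (.non (nat_lit 1) (nat_lit 6) (nat_lit 0x40540) (nat_lit 0x1000000000000000200020001000000000000))) (.non (nat_lit 1) (nat_lit 6) (nat_lit 0x40540) (nat_lit 0x1000000000000000200020001000000000000))) (.non (nat_lit 1) (nat_lit 6) (nat_lit 0x40550)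 (nat_lit 0x1000000000000000200020002000100000000))) (.non (nat_lit 1) (nat_lit 6) (nat_lit 0x40550) (nat_lit 0x1000000000000000300040003000200000000))) (.non (nat_lit 2) (nat_lit 5) (nat_lit 0x40005) (nat_lit 0x1000000000000000000000000000000010001))))

noncomputable def t770_8 : Tr := (.pd (.cons (nat_lit 0) (nat_lit 8) (nat_lit 0) (nat_lit 0x65442110) (nat_lit 0xf423fb71aea2c2804737f423fb71ae1f15600000) .nil) (.ex (nat_lit 8) (.split (nat_lit 8) (nat_lit 3) (.pd (.cons (nat_lit 0) (nat_lit 6) (nat_lit 0) (nat_lit 0x370442110) (nat_lit 0xf423ff423f00000f423f54591b71aea2c280473700000) (.cons (nat_lit 1) (nat_lit 4) (nat_lit 0) (nat_lit 0x368602200) (nat_lit 0x7a11bf423f7a11df423f000007a1197a11700000f423f) (.cons (nat_lit 2) (nat_lit 4) (nat_lit 0) (nat_lit 0x368603000) (nat_lit 0x7a11bf423f7a11df423f000007a11900000f423fb71ae) (.cons (nat_lit 3) (nat_lit 4) (nat_lit 0) (nat_lit 0x665500100) (nat_lit 0xf423ff423f7a11d7a11b0000000000f423f54591437a2) .nil)))) (.leaf (.cons (nat_lit 0x11054) (nat_lit 0x200000001000000000003000400030000)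 (.cons (nat_lit 0x11540) (nat_lit 0x200000003000400030001000000000000) (.cons (nat_lit 0x1501) (nat_lit 0x1000200020000000000000001) (.cons (nat_lit 0x515) (nat_lit 0x100010000000100010001) .nil)))) (.cons (nat_lit 0x110011) (nat_lit 0x1000100) (nat_lit 0x10) (nat_lit 0x10032) .nil))) (.non (nat_lit 1) (nat_lit 5) (nat_lit 0x2a050) (nat_lit 0x300010002000000000004000200000000))) (.split (nat_lit 9) (nat_lit 0) (.split (nat_lit 9) (nat_lit 1) (.split (nat_lit 9) (nat_lit 2) (.split (nat_lit 9) (nat_lit 3) (.split (nat_lit 9) (nat_lit 4) (.split (nat_lit 9) (nat_lit 5) (.split (nat_lit 9) (nat_lit 6) (.split (nat_lit 9) (nat_lit 7) (.split (nat_lit 9) (nat_lit 8) (.split (nat_lit 8) (nat_lit 3) (.par (nat_lit 0x55440) (nat_lit 0x1000200010002000100000001000000000000)) (.non (nat_lit 1) (nat_lit 5) (nat_lit 0xa2040) (nat_lit 0x1000200000001000000000002000000000000))) (.non (nat_lit 1) (nat_lit 5) (nat_lit 0x91040) (nat_lit 0x1000200000001000000000001000000000000))) (.non (nat_lit 1) (nat_lit 5) (nat_lit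 0x55000) (nat_lit 0x1000100010001000000000000000000000000))) (.non (nat_lit 1) (nat_lit 5) (nat_lit 0x51000) (nat_lit 0x1000100000001000000000000000000000000))) (.non (nat_lit 1) (nat_lit 6) (nat_lit 0x50540) (nat_lit 0x3000200000000000400030001000000000000))) (.non (nat_lit 1) (nat_lit 5) (nat_lit 0x55150) (nat_lit 0x2000300010002000000010002000100000000))) (.non (nat_lit 1) (nat_lit 5) (nat_lit 0x50040) (nat_lit 0x1000100000000000000000001000000000000))) (.non (nat_lit 1) (nat_lit 5) (nat_lit 0x50050) (nat_lit 0x1000100000000000000000001000100000000))) (.non (nat_lit 2) (nat_lit 6) (nat_lit 0x40505) (nat_lit 0x1000000000000000300040000000000020003))) (.non (nat_lit 1) (nat_lit 5) (nat_lit 0x55051) (nat_lit 0x2000300010002000000000002000100000001)))))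

noncomputable def t770_9 : Tr := (.ex (nat_lit 9) (.split (nat_lit 9) (nat_lit 7) (.pd (.cons (nat_lit 1) (nat_lit 4) (nat_lit 0) (nat_lit 0x7368602200) (nat_lit 0xf423f61a79b71ae65b97f423f000005b8cc515fe00000f423f) (.cons (nat_lit 2) (nat_lit 4) (nat_lit 0) (nat_lit 0x7368603000) (nat_lit 0xf423f61a79b71ae65b97f423f000005b8cc00000f423fb71ae) (.cons (nat_lit 3) (nat_lit 4) (nat_lit 0) (nat_lit 0x7665500100) (nat_lit 0xf423ff423fb71ae65b9761a790000000000f423f54591437a2) .nil))) (.leaf (.cons (nat_lit 0x11054) (nat_lit 0x200000001000000000003000400030000) (.cons (nat_lit 0x45500) (nat_lit 0x1000000020003000400030000000000000000) (.cons (nat_lit 0x11540) (nat_lit 0x200000003000400030001000000000000) (.cons (nat_lit 0x515) (nat_lit 0x100010000000100010001) .nil)))) (.cons (nat_lit 0x1111101100) (nat_lit 0x10010) (nat_lit 0xd) (nat_lit 0x3420105600) (.cons (nat_lit 0x1111001100) (nat_lit 0x100010) (nat_lit 4) (nat_lit 0x5243001000) .nil)))) (.sup (nat_lit 0x5000a00090002) (nat_lit 0x70000000a000a000a00060000000000000000)))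 (.split (nat_lit 0xa) (nat_lit 0) (.split (nat_lit 0xa) (nat_lit 1) (.split (nat_lit 0xa) (nat_lit 2) (.split (nat_lit 0xa) (nat_lit 3) (.split (nat_lit 0xa) (nat_lit 4) (.split (nat_lit 0xa) (nat_lit 5) (.split (nat_lit 0xa) (nat_lit 6) (.split (nat_lit 0xa) (nat_lit 7) (.split (nat_lit 0xa) (nat_lit 8) (.split (nat_lit 0xa) (nat_lit 9) (.split (nat_lit 9) (nat_lit 7) (.par (nat_lit 0x155450) (nat_lit 0x10002000300030004000200000002000100000000)) (.non (nat_lit 1) (nat_lit 5) (nat_lit 0x295000) (nat_lit 0x10002000100030002000000000000000000000000))) (.sup (nat_lit 0x7000a0002000b000b000900050000000000000000) (nat_lit 0x7001000100005))) (.non (nat_lit 1) (nat_lit 5) (nat_lit 0x155000) (nat_lit 0x10001000100010001000000000000000000000000))) (.non (nat_lit 1) (nat_lit 5) (nat_lit 0x144000) (nat_lit 0x10001000000010000000000000000000000000000))) (.non (nat_lit 1) (nat_lit 5) (nat_lit 0x145000) (nat_lit 0x10001000000010001000000000000000000000000))) (.non (nat_lit 1) (nat_lit 6) (nat_lit 0x144500) (nat_lit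 0x30002000000010000000400030000000000000000))) (.non (nat_lit 1) (nat_lit 6) (nat_lit 0x144500) (nat_lit 0x30002000000010000000300040000000000000000))) (.non (nat_lit 1) (nat_lit 5) (nat_lit 0x155040) (nat_lit 0x10001000100010001000000000001000000000000))) (.non (nat_lit 1) (nat_lit 5) (nat_lit 0x155050) (nat_lit 0x10001000100010001000000000001000100000000))) (.non (nat_lit 2) (nat_lit 6) (nat_lit 0x100505) (nat_lit 0x10000000000000000000300040000000000020003))) (.non (nat_lit 1) (nat_lit 6) (nat_lit 0x140501) (nat_lit 0x20001000000000000000300040000000000000003))))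

noncomputable def t770_10 : Tr := (.ex (nat_lit 7) (.ex (nat_lit 8) (.split (nat_lit 8) (nat_lit 3) (.pd (.cons (nat_lit 0) (nat_lit 6) (nat_lit 0x1010000000) (nat_lit 0x7390442110) (nat_lit 0x1f423f0000100000f423f54591b71aea2c280473700000) .nil) t770_9) (.non (nat_lit 1) (nat_lit 5) (nat_lit 0x2a050) (nat_lit 0x300010002000000000004000200000000))) (.split (nat_lit 0xa) (nat_lit 0) (.split (nat_lit 0xa) (nat_lit 1) (.split (nat_lit 0xa) (nat_lit 2) (.split (nat_lit 0xa) (nat_lit 3) (.split (nat_lit 0xa) (nat_lit 4) (.split (nat_lit 0xa) (nat_lit 5) (.split (nat_lit 0xa) (nat_lit 6) (.split (nat_lit 0xa) (nat_lit 7) (.split (nat_lit 0xa) (nat_lit 9) (.split (nat_lit 0xa) (nat_lit 8) (.split (nat_lit 8) (nat_lit 3) (.par (nat_lit 0x115440) (nat_lit 0x10000000200010002000100000001000000000000)) (.non (nat_lit 1) (nat_lit 5) (nat_lit 0x222040) (nat_lit 0x10000000200000001000000000002000000000000))) (.non (nat_lit 1) (nat_lit 5) (nat_lit 0x211040) (nat_lit 0x10000000200000001000000000001000000000000)))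 (.non (nat_lit 1) (nat_lit 5) (nat_lit 0x155000) (nat_lit 0x10001000100010001000000000000000000000000))) (.non (nat_lit 1) (nat_lit 5) (nat_lit 0x115000) (nat_lit 0x10000000100010001000000000000000000000000))) (.non (nat_lit 1) (nat_lit 5) (nat_lit 0x111000) (nat_lit 0x10000000100000001000000000000000000000000))) (.non (nat_lit 1) (nat_lit 6) (nat_lit 0x110540) (nat_lit 0x30000000200000000000400030001000000000000))) (.non (nat_lit 1) (nat_lit 5) (nat_lit 0x115150) (nat_lit 0x20000000300010002000000010002000100000000))) (.non (nat_lit 1) (nat_lit 5) (nat_lit 0x110040) (nat_lit 0x10000000100000000000000000001000000000000))) (.non (nat_lit 1) (nat_lit 5) (nat_lit 0x110050) (nat_lit 0x10000000100000000000000000001000100000000))) (.non (nat_lit 2) (nat_lit 5) (nat_lit 0x155045) (nat_lit 0x30001000400020003000000000002000000020001))) (.non (nat_lit 1) (nat_lit 5) (nat_lit 0x155141) (nat_lit 0x30001000400020003000000010002000000000002)))) (.split (nat_lit 0xa) (nat_lit 0) (.split (nat_lit 0xa) (nat_lit 1)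 (.split (nat_lit 0xa) (nat_lit 2) (.split (nat_lit 0xa) (nat_lit 3) (.split (nat_lit 0xa) (nat_lit 4) (.split (nat_lit 0xa) (nat_lit 5) (.split (nat_lit 0xa) (nat_lit 6) (.split (nat_lit 0xa) (nat_lit 8) (.split (nat_lit 0xa) (nat_lit 9) (.split (nat_lit 0xa) (nat_lit 7) (.split (nat_lit 9) (nat_lit 7) (.split (nat_lit 8) (nat_lit 3) (.sup (nat_lit 0x500050002000b000b000900050000000000000000) (nat_lit 0x7001000100005)) (.non (nat_lit 1) (nat_lit 5) (nat_lit 0x2aa040) (nat_lit 0x10001000200020002000000000002000000000000))) (.non (nat_lit 1) (nat_lit 5) (nat_lit 0x185000) (nat_lit 0x10001000000020001000000000000000000000000))) (.non (nat_lit 1) (nat_lit 5) (nat_lit 0x245000) (nat_lit 0x10001000000020001000000000000000000000000))) (.non (nat_lit 1) (nat_lit 5) (nat_lit 0x144000) (nat_lit 0x10001000000010000000000000000000000000000))) (.non (nat_lit 1) (nat_lit 5) (nat_lit 0x115000) (nat_lit 0x10000000100010001000000000000000000000000))) (.non (nat_lit 1) (nat_lit 5) (nat_lit 0x105000) (nat_lit 0x10000000000010001000000000000000000000000)))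 (.non (nat_lit 1) (nat_lit 6) (nat_lit 0x144500) (nat_lit 0x30001000000020000000400030000000000000000))) (.non (nat_lit 1) (nat_lit 5) (nat_lit 0x155141) (nat_lit 0x30002000200040003000000020001000000000001))) (.non (nat_lit 1) (nat_lit 5) (nat_lit 0x115040) (nat_lit 0x10000000100010001000000000001000000000000))) (.non (nat_lit 1) (nat_lit 5) (nat_lit 0x115050) (nat_lit 0x10000000100010001000000000001000100000000))) (.non (nat_lit 2) (nat_lit 5) (nat_lit 0x155045) (nat_lit 0x30002000200040003000000000001000000020001))) (.non (nat_lit 1) (nat_lit 5) (nat_lit 0x155141) (nat_lit 0x30002000200040003000000010001000000000002))))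

noncomputable def t770_11 : Tr := (.ex (nat_lit 3) (.ex (nat_lit 6) (.ex (nat_lit 7) t770_8 (.split (nat_lit 9) (nat_lit 0) (.split (nat_lit 9) (nat_lit 1) (.split (nat_lit 9) (nat_lit 2) (.split (nat_lit 9) (nat_lit 3) (.split (nat_lit 9) (nat_lit 4) (.split (nat_lit 9) (nat_lit 5) (.split (nat_lit 9) (nat_lit 6) (.split (nat_lit 9) (nat_lit 8) t770_10 (.non (nat_lit 1) (nat_lit 5) (nat_lit 0x55000) (nat_lit 0x1000100010001000000000000000000000000))) (.non (nat_lit 1) (nat_lit 5) (nat_lit 0x45000) (nat_lit 0x1000000010001000000000000000000000000))) (.non (nat_lit 1) (nat_lit 6) (nat_lit 0x40501) (nat_lit 0x1000000000000000200020000000000000001))) (.non (nat_lit 1) (nat_lit 6) (nat_lit 0x40501) (nat_lit 0x1000000000000000200020000000000000001))) (.non (nat_lit 1) (nat_lit 5) (nat_lit 0x55040) (nat_lit 0x1000100010001000000000001000000000000))) (.non (nat_lit 1) (nat_lit 5) (nat_lit 0x55050) (nat_lit 0x1000100010001000000000001000100000000))) (.non (nat_lit 2) (nat_lit 6) (nat_lit 0x40505) (nat_lit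 0x1000000000000000300040000000000020003))) (.non (nat_lit 1) (nat_lit 6) (nat_lit 0x44501) (nat_lit 0x2000000010000000300040000000000000003)))) (.split (nat_lit 9) (nat_lit 0) (.split (nat_lit 9) (nat_lit 1) (.split (nat_lit 9) (nat_lit 2) (.split (nat_lit 9) (nat_lit 3) (.split (nat_lit 9) (nat_lit 4) (.split (nat_lit 9) (nat_lit 5) (.split (nat_lit 9) (nat_lit 7) (.split (nat_lit 9) (nat_lit 8) (.sup (nat_lit 0x5000a00090002) (nat_lit 0x500000005000a000a00060000000000000000)) (.non (nat_lit 1) (nat_lit 5) (nat_lit 0x51000) (nat_lit 0x1000100000001000000000000000000000000))) (.non (nat_lit 1) (nat_lit 5) (nat_lit 0x45000) (nat_lit 0x1000000010001000000000000000000000000))) (.non (nat_lit 1) (nat_lit 6) (nat_lit 0x40501) (nat_lit 0x1000000000000000200020000000000000001))) (.non (nat_lit 1) (nat_lit 5) (nat_lit 0x55151) (nat_lit 0x3000300020004000000020002000100000001))) (.non (nat_lit 1) (nat_lit 5) (nat_lit 0x51040) (nat_lit 0x1000100000001000000000001000000000000))) (.star (nat_lit 9) (nat_lit 2)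 (nat_lit 6))) (.star (nat_lit 9) (nat_lit 1) (nat_lit 6))) (.non (nat_lit 1) (nat_lit 5) (nat_lit 0x55151) (nat_lit 0x3000300020004000000010002000100000002)))) (.split (nat_lit 9) (nat_lit 0) (.split (nat_lit 9) (nat_lit 1) (.split (nat_lit 9) (nat_lit 2) (.split (nat_lit 9) (nat_lit 4) (.split (nat_lit 9) (nat_lit 5) (.split (nat_lit 9) (nat_lit 6) (.split (nat_lit 9) (nat_lit 7) (.split (nat_lit 9) (nat_lit 8) (.split (nat_lit 9) (nat_lit 3) (.split (nat_lit 8) (nat_lit 3) (.par (nat_lit 0x55450) (nat_lit 0x1000200010002000100000002000100000000)) (.non (nat_lit 1) (nat_lit 5) (nat_lit 0x6a040) (nat_lit 0x2000300010002000000000004000000000000))) (.non (nat_lit 1) (nat_lit 5) (nat_lit 0x90050) (nat_lit 0x1000100000000000000000002000100000000))) (.non (nat_lit 1) (nat_lit 5) (nat_lit 0x50040) (nat_lit 0x1000100000000000000000001000000000000))) (.non (nat_lit 1) (nat_lit 5) (nat_lit 0x55040) (nat_lit 0x1000100010001000000000001000000000000))) (.non (nat_lit 1) (nat_lit 5) (nat_lit 0x51040) (nat_lit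 0x1000100000001000000000001000000000000))) (.non (nat_lit 1) (nat_lit 6) (nat_lit 0x50540) (nat_lit 0x3000100000000000400030002000000000000))) (.non (nat_lit 1) (nat_lit 5) (nat_lit 0x55151) (nat_lit 0x3000300010002000000020004000200000001))) (.non (nat_lit 1) (nat_lit 5) (nat_lit 0x40050) (nat_lit 0x1000000000000000000000001000100000000))) (.non (nat_lit 2) (nat_lit 6) (nat_lit 0x40505) (nat_lit 0x1000000000000000300040000000000020003))) (.non (nat_lit 1) (nat_lit 5) (nat_lit 0x55151) (nat_lit 0x3000300010002000000010004000200000002))))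

noncomputable def t770_12 : Tr := (.ex (nat_lit 8) (.split (nat_lit 8) (nat_lit 3) (.pd (.cons (nat_lit 0) (nat_lit 6) (nat_lit 0) (nat_lit 0x370442110) (nat_lit 0xf423ff423f00000f423f54591b71aea2c280473700000) (.cons (nat_lit 1) (nat_lit 4) (nat_lit 0) (nat_lit 0x607608300) (nat_lit 0xa2c285160d5b8d4f423f00000b71aef423f000003d07c) (.cons (nat_lit 2) (nat_lit 4) (nat_lit 0) (nat_lit 0x607608000) (nat_lit 0xb71ae61a7965b97f423f00000f423f00000f423f1e83b) (.cons (nat_lit 3) (nat_lit 7) (nat_lit 0) (nat_lit 0x605440100) (nat_lit 0xf423f00000b71aea2c280473700000f423f54591437a2) .nil)))) (.leaf (.cons (nat_lit 0x11054) (nat_lit 0x200000001000000000003000400030000) (.cons (nat_lit 0x11540) (nat_lit 0x200000003000400030001000000000000) (.cons (nat_lit 0x5501) (nat_lit 0x20003000400030000000000000001) (.cons (nat_lit 0x5015) (nat_lit 0x20001000000000000000300040003) .nil)))) (.cons (nat_lit 0x111101101) (nat_lit 0x10010) (nat_lit 0xd) (nat_lit 0x420105603) (.cons (nat_lit 0x111001101) (nat_lit 0x100010) (nat_lit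 4) (nat_lit 0x312004500) (.cons (nat_lit 0x111101011) (nat_lit 0x10100) (nat_lit 0xd) (nat_lit 0x240103065) (.cons (nat_lit 0x111001011) (nat_lit 0x100100) (nat_lit 4) (nat_lit 0x423005001) .nil)))))) (.non (nat_lit 1) (nat_lit 5) (nat_lit 0x2a050) (nat_lit 0x300010002000000000004000200000000))) (.split (nat_lit 9) (nat_lit 0) (.split (nat_lit 9) (nat_lit 1) (.split (nat_lit 9) (nat_lit 2) (.split (nat_lit 9) (nat_lit 3) (.split (nat_lit 9) (nat_lit 4) (.split (nat_lit 9) (nat_lit 5) (.split (nat_lit 9) (nat_lit 6) (.split (nat_lit 9) (nat_lit 7) (.split (nat_lit 9) (nat_lit 8) (.split (nat_lit 8) (nat_lit 3) (.sup (nat_lit 0x200040003000b0010000d0000000000000000) (nat_lit 0x5000f000f0006)) (.non (nat_lit 1) (nat_lit 5) (nat_lit 0xa2040) (nat_lit 0x1000200000001000000000002000000000000))) (.non (nat_lit 1) (nat_lit 5) (nat_lit 0x91040) (nat_lit 0x1000200000001000000000001000000000000))) (.non (nat_lit 1) (nat_lit 5) (nat_lit 0x55000) (nat_lit 0x1000100010001000000000000000000000000))) (.non (nat_lit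 1) (nat_lit 5) (nat_lit 0x51000) (nat_lit 0x1000100000001000000000000000000000000))) (.non (nat_lit 1) (nat_lit 6) (nat_lit 0x50540) (nat_lit 0x3000200000000000400030001000000000000))) (.non (nat_lit 1) (nat_lit 5) (nat_lit 0x55150) (nat_lit 0x2000300010002000000010002000100000000))) (.non (nat_lit 1) (nat_lit 5) (nat_lit 0x50040) (nat_lit 0x1000100000000000000000001000000000000))) (.non (nat_lit 1) (nat_lit 5) (nat_lit 0x50050) (nat_lit 0x1000100000000000000000001000100000000))) (.non (nat_lit 2) (nat_lit 5) (nat_lit 0x55005) (nat_lit 0x1000100010001000000000000000000010001))) (.non (nat_lit 1) (nat_lit 5) (nat_lit 0x55001) (nat_lit 0x1000100010001000000000000000000000001))))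

noncomputable def t770_13 : Tr := (.ex (nat_lit 6) (.ex (nat_lit 7) (.split (nat_lit 7) (nat_lit 0) (.pd (.cons (nat_lit 0) (nat_lit 8) (nat_lit 0) (nat_lit 0x65442110) (nat_lit 0xf423fb71aea2c2804737f423fb71ae1f15600000) (.cons (nat_lit 3) (nat_lit 6) (nat_lit 0) (nat_lit 0x800440100) (nat_lit 0xf423ff423f00000f423f5459100000f423f5459106711) .nil)) t770_12) (.non (nat_lit 2) (nat_lit 5) (nat_lit 0x2a005) (nat_lit 0x100030002000000000000000000020004))) (.split (nat_lit 9) (nat_lit 0) (.split (nat_lit 9) (nat_lit 1) (.split (nat_lit 9) (nat_lit 2) (.split (nat_lit 9) (nat_lit 3) (.split (nat_lit 9) (nat_lit 4) (.split (nat_lit 9) (nat_lit 5) (.split (nat_lit 9) (nat_lit 6) (.split (nat_lit 9) (nat_lit 8) (.split (nat_lit 9) (nat_lit 7) (.split (nat_lit 8) (nat_lit 3) (.split (nat_lit 7) (nat_lit 0) (.sup (nat_lit 0x200030004000b0010000d0000000000000000) (nat_lit 0x6000f000f0005)) (.non (nat_lit 1) (nat_lit 5) (nat_lit 0x8a001) (nat_lit 0x1000000020001000000000000000000000002))) (.non (nat_lit 1) (nat_lit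 5) (nat_lit 0x2a050) (nat_lit 0x300010002000000000004000200000000))) (.non (nat_lit 1) (nat_lit 5) (nat_lit 0x85001) (nat_lit 0x1000000020001000000000000000000000001))) (.non (nat_lit 1) (nat_lit 5) (nat_lit 0x55000) (nat_lit 0x1000100010001000000000000000000000000))) (.non (nat_lit 1) (nat_lit 5) (nat_lit 0x45000) (nat_lit 0x1000000010001000000000000000000000000))) (.non (nat_lit 1) (nat_lit 6) (nat_lit 0x44501) (nat_lit 0x3000000020000000400030000000000000001))) (.non (nat_lit 1) (nat_lit 6) (nat_lit 0x44501) (nat_lit 0x3000000020000000300040000000000000001))) (.non (nat_lit 1) (nat_lit 5) (nat_lit 0x55040) (nat_lit 0x1000100010001000000000001000000000000))) (.non (nat_lit 1) (nat_lit 5) (nat_lit 0x55050) (nat_lit 0x1000100010001000000000001000100000000))) (.non (nat_lit 2) (nat_lit 5) (nat_lit 0x44005) (nat_lit 0x1000000010000000000000000000000010001))) (.non (nat_lit 1) (nat_lit 5) (nat_lit 0x44001) (nat_lit 0x1000000010000000000000000000000000001)))) (.split (nat_lit 9) (nat_lit 0) (.split (nat_lit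 9) (nat_lit 1) (.split (nat_lit 9) (nat_lit 2) (.split (nat_lit 9) (nat_lit 3) (.split (nat_lit 9) (nat_lit 4) (.split (nat_lit 9) (nat_lit 7) (.split (nat_lit 9) (nat_lit 8) (.split (nat_lit 9) (nat_lit 5) (.sup (nat_lit 0x5000a00090002) (nat_lit 0x3000000010007000a00080000000000000000)) (.unj (nat_lit 0x41400) (nat_lit 0x1000000000001000100000000000000000000) (nat_lit 0x55) (nat_lit 0x1000200020001))) (.non (nat_lit 1) (nat_lit 5) (nat_lit 0x51000) (nat_lit 0x1000100000001000000000000000000000000))) (.non (nat_lit 1) (nat_lit 5) (nat_lit 0x45000) (nat_lit 0x1000000010001000000000000000000000000))) (.non (nat_lit 1) (nat_lit 5) (nat_lit 0x55141) (nat_lit 0x2000200020003000000010001000000000001))) (.non (nat_lit 1) (nat_lit 5) (nat_lit 0x51040) (nat_lit 0x1000100000001000000000001000000000000))) (.star (nat_lit 9) (nat_lit 2) (nat_lit 6))) (.star (nat_lit 9) (nat_lit 1) (nat_lit 6))) (.non (nat_lit 1) (nat_lit 5) (nat_lit 0x45001) (nat_lit 0x1000000010001000000000000000000000001))))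

noncomputable def t770_14 : Tr := (.ex (nat_lit 3) (.ex (nat_lit 4) (.ex (nat_lit 5) t770_13 (.split (nat_lit 9) (nat_lit 0) (.split (nat_lit 9) (nat_lit 1) (.split (nat_lit 9) (nat_lit 2) (.split (nat_lit 9) (nat_lit 3) (.split (nat_lit 9) (nat_lit 4) (.split (nat_lit 9) (nat_lit 7) (.split (nat_lit 9) (nat_lit 8) (.split (nat_lit 9) (nat_lit 6) (.unj (nat_lit 0x55) (nat_lit 0x1000200020001) (nat_lit 0x41500) (nat_lit 0x1000000000001000200020000000000000000)) (.unj (nat_lit 0x41400) (nat_lit 0x1000000000001000100000000000000000000) (nat_lit 0x55) (nat_lit 0x1000200020001))) (.non (nat_lit 1) (nat_lit 6) (nat_lit 0x50540) (nat_lit 0x3000200000000000400030001000000000000))) (.non (nat_lit 1) (nat_lit 6) (nat_lit 0x44501) (nat_lit 0x3000000020000000400030000000000000001))) (.non (nat_lit 1) (nat_lit 6) (nat_lit 0x40500) (nat_lit 0x1000000000000000100010000000000000000))) (.non (nat_lit 1) (nat_lit 6) (nat_lit 0x50540) (nat_lit 0x3000100000000000400030002000000000000))) (.star (nat_lit 9) (nat_lit 2)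 (nat_lit 5))) (.star (nat_lit 9) (nat_lit 1) (nat_lit 5))) (.non (nat_lit 1) (nat_lit 6) (nat_lit 0x44501) (nat_lit 0x3000000010000000400030000000000000002)))) (.split (nat_lit 9) (nat_lit 0) (.split (nat_lit 9) (nat_lit 1) (.split (nat_lit 9) (nat_lit 2) (.split (nat_lit 9) (nat_lit 3) (.split (nat_lit 9) (nat_lit 5) (.split (nat_lit 9) (nat_lit 6) (.split (nat_lit 9) (nat_lit 7) (.split (nat_lit 9) (nat_lit 8) (.unj (nat_lit 0x55) (nat_lit 0x1000200020001) (nat_lit 0x41500) (nat_lit 0x1000000000001000200020000000000000000)) (.non (nat_lit 1) (nat_lit 5) (nat_lit 0x55150) (nat_lit 0x2000300010002000000010002000100000000))) (.non (nat_lit 1) (nat_lit 6) (nat_lit 0x44501) (nat_lit 0x3000000020000000300040000000000000001))) (.non (nat_lit 1) (nat_lit 5) (nat_lit 0x55141) (nat_lit 0x2000200020003000000010001000000000001))) (.non (nat_lit 1) (nat_lit 6) (nat_lit 0x40500) (nat_lit 0x1000000000000000100010000000000000000))) (.non (nat_lit 1) (nat_lit 6) (nat_lit 0x50540) (nat_lit 0x3000100000000000300040002000000000000)))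 (.non (nat_lit 1) (nat_lit 6) (nat_lit 0x40550) (nat_lit 0x3000000000000000300040001000200000000))) (.non (nat_lit 2) (nat_lit 6) (nat_lit 0x40505) (nat_lit 0x3000000000000000300040000000000020001))) (.non (nat_lit 1) (nat_lit 6) (nat_lit 0x44501) (nat_lit 0x3000000010000000300040000000000000002)))) (.split (nat_lit 9) (nat_lit 0) (.split (nat_lit 9) (nat_lit 1) (.split (nat_lit 9) (nat_lit 2) (.split (nat_lit 9) (nat_lit 4) (.split (nat_lit 9) (nat_lit 5) (.split (nat_lit 9) (nat_lit 6) (.split (nat_lit 9) (nat_lit 7) (.split (nat_lit 9) (nat_lit 8) (.split (nat_lit 9) (nat_lit 3) (.split (nat_lit 8) (nat_lit 3) (.split (nat_lit 7) (nat_lit 0) (.sup (nat_lit 0x30004000b0010000d0000000000000000) (nat_lit 0x3000000000000000000000005000b000b0003)) (.non (nat_lit 1) (nat_lit 5) (nat_lit 0xaa0a1) (nat_lit 0x1000200020002000000000002000100000002))) (.non (nat_lit 1) (nat_lit 5) (nat_lit 0x6a040) (nat_lit 0x2000300010002000000000004000000000000))) (.non (nat_lit 1) (nat_lit 5) (nat_lit 0x90050) (nat_lit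 0x1000100000000000000000002000100000000))) (.non (nat_lit 1) (nat_lit 5) (nat_lit 0x50040) (nat_lit 0x1000100000000000000000001000000000000))) (.non (nat_lit 1) (nat_lit 5) (nat_lit 0x55040) (nat_lit 0x1000100010001000000000001000000000000))) (.non (nat_lit 1) (nat_lit 5) (nat_lit 0x51040) (nat_lit 0x1000100000001000000000001000000000000))) (.non (nat_lit 1) (nat_lit 6) (nat_lit 0x50540) (nat_lit 0x3000100000000000400030002000000000000))) (.non (nat_lit 1) (nat_lit 6) (nat_lit 0x50540) (nat_lit 0x3000100000000000300040002000000000000))) (.non (nat_lit 1) (nat_lit 5) (nat_lit 0x40050) (nat_lit 0x1000000000000000000000001000100000000))) (.non (nat_lit 2) (nat_lit 5) (nat_lit 0x55045) (nat_lit 0x1000100010001000000000001000000010001))) (.non (nat_lit 1) (nat_lit 5) (nat_lit 0x55041) (nat_lit 0x1000100010001000000000001000000000001))))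

noncomputable def t770_15 : Tr := (.ex (nat_lit 0) (.ex (nat_lit 1) (.ex (nat_lit 2) t770_14 (.split (nat_lit 9) (nat_lit 0) (.split (nat_lit 9) (nat_lit 3) (.split (nat_lit 9) (nat_lit 4) (.split (nat_lit 9) (nat_lit 5) (.split (nat_lit 9) (nat_lit 6) (.split (nat_lit 9) (nat_lit 7) (.split (nat_lit 9) (nat_lit 8) (.split (nat_lit 9) (nat_lit 1) (.sup (nat_lit 0x5000000000000000000000000000a00090002) (nat_lit 0x300010007000a00080000000000000000)) (.unj (nat_lit 0x40014) (nat_lit 0x1000000000000000000000000000100010000) (nat_lit 0x15500) (nat_lit 0x100010002000200020000000000000000))) (.non (nat_lit 1) (nat_lit 5) (nat_lit 0x50050) (nat_lit 0x1000100000000000000000001000100000000))) (.non (nat_lit 1) (nat_lit 5) (nat_lit 0x55050) (nat_lit 0x1000100010001000000000001000100000000))) (.star (nat_lit 9) (nat_lit 2) (nat_lit 6))) (.star (nat_lit 9) (nat_lit 2) (nat_lit 5))) (.non (nat_lit 1) (nat_lit 6) (nat_lit 0x40550) (nat_lit 0x3000000000000000300040001000200000000))) (.non (nat_lit 1) (nat_lit 5)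 (nat_lit 0x40050) (nat_lit 0x1000000000000000000000001000100000000))) (.non (nat_lit 1) (nat_lit 5) (nat_lit 0x55051) (nat_lit 0x1000100010001000000000001000100000001)))) (.split (nat_lit 9) (nat_lit 0) (.split (nat_lit 9) (nat_lit 3) (.split (nat_lit 9) (nat_lit 4) (.split (nat_lit 9) (nat_lit 5) (.split (nat_lit 9) (nat_lit 6) (.split (nat_lit 9) (nat_lit 7) (.split (nat_lit 9) (nat_lit 8) (.split (nat_lit 9) (nat_lit 2) (.sup (nat_lit 0x50000000000000000000000000006000a0005) (nat_lit 0x400000007000a00080001000000000000)) (.unj (nat_lit 0x40014) (nat_lit 0x1000000000000000000000000000100010000) (nat_lit 0x15500) (nat_lit 0x100010002000200020000000000000000))) (.non (nat_lit 2) (nat_lit 5) (nat_lit 0x55005) (nat_lit 0x1000100010001000000000000000000010001))) (.non (nat_lit 2) (nat_lit 5) (nat_lit 0x44005) (nat_lit 0x1000000010000000000000000000000010001))) (.star (nat_lit 9) (nat_lit 1) (nat_lit 6))) (.star (nat_lit 9) (nat_lit 1) (nat_lit 5))) (.non (nat_lit 2) (nat_lit 6) (nat_lit 0x40505) (nat_lit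 0x3000000000000000300040000000000020001))) (.non (nat_lit 2) (nat_lit 5) (nat_lit 0x55045) (nat_lit 0x1000100010001000000000001000000010001))) (.non (nat_lit 2) (nat_lit 5) (nat_lit 0x40005) (nat_lit 0x1000000000000000000000000000000010001)))) (.split (nat_lit 9) (nat_lit 1) (.split (nat_lit 9) (nat_lit 2) (.split (nat_lit 9) (nat_lit 3) (.split (nat_lit 9) (nat_lit 4) (.split (nat_lit 9) (nat_lit 5) (.split (nat_lit 9) (nat_lit 6) (.split (nat_lit 9) (nat_lit 7) (.split (nat_lit 9) (nat_lit 8) (.split (nat_lit 9) (nat_lit 0) (.split (nat_lit 8) (nat_lit 3) (.split (nat_lit 7) (nat_lit 0) (.sup (nat_lit 0x40003000b0010000d0000000000000000) (nat_lit 0x3000000000000000000000003000b000b0005)) (.non (nat_lit 1) (nat_lit 5) (nat_lit 0x6a001) (nat_lit 0x2000100030002000000000000000000000004))) (.non (nat_lit 1) (nat_lit 5) (nat_lit 0x2a050) (nat_lit 0x300010002000000000004000200000000))) (.non (nat_lit 2) (nat_lit 5) (nat_lit 0x84005) (nat_lit 0x1000000010000000000000000000000010002))) (.non (nat_lit 1)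 (nat_lit 5) (nat_lit 0x55001) (nat_lit 0x1000100010001000000000000000000000001))) (.non (nat_lit 1) (nat_lit 5) (nat_lit 0x44001) (nat_lit 0x1000000010000000000000000000000000001))) (.non (nat_lit 1) (nat_lit 5) (nat_lit 0x45001) (nat_lit 0x1000000010001000000000000000000000001))) (.non (nat_lit 1) (nat_lit 6) (nat_lit 0x44501) (nat_lit 0x3000000010000000400030000000000000002))) (.non (nat_lit 1) (nat_lit 6) (nat_lit 0x44501) (nat_lit 0x3000000010000000300040000000000000002))) (.non (nat_lit 1) (nat_lit 5) (nat_lit 0x55041) (nat_lit 0x1000100010001000000000001000000000001))) (.non (nat_lit 1) (nat_lit 5) (nat_lit 0x55051) (nat_lit 0x1000100010001000000000001000100000001))) (.non (nat_lit 2) (nat_lit 5) (nat_lit 0x40005) (nat_lit 0x1000000000000000000000000000000010001))))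

noncomputable def t770_16 : Tr := (.split (nat_lit 8) (nat_lit 3) (.split (nat_lit 7) (nat_lit 0) (.split (nat_lit 7) (nat_lit 3) (.split (nat_lit 4) (nat_lit 0) (.split (nat_lit 4) (nat_lit 3) .uj (.split (nat_lit 4) (nat_lit 3) (.sup (nat_lit 0x20009000a0005) (nat_lit 0x50005000a000a00060000000000000000)) (.non (nat_lit 1) (nat_lit 6) (nat_lit 0x540) (nat_lit 0x100010001000000000000)))) (.split (nat_lit 4) (nat_lit 3) (.split (nat_lit 4) (nat_lit 0) (.sup (nat_lit 0x5000a00090002) (nat_lit 0x50005000a000a00060000000000000000)) (.non (nat_lit 1) (nat_lit 6) (nat_lit 0x501) (nat_lit 0x100010000000000000001))) (.non (nat_lit 1) (nat_lit 6) (nat_lit 0x541) (nat_lit 0x200020001000000000001)))) (.split (nat_lit 4) (nat_lit 3) (.split (nat_lit 4) (nat_lit 0) (.sup (nat_lit 0x20009000a0005) (nat_lit 0x300010007000a00080000000000000000)) (.st (nat_lit 0) (nat_lit 2) (nat_lit 6) (nat_lit 0x505) (nat_lit 0x200020000000000010002) (nat_lit 1) (nat_lit 1) (.st (nat_lit 1) (nat_lit 2) (nat_lit 6) (nat_lit 0x505)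 (nat_lit 0x300040000000000020003) (nat_lit 1) (nat_lit 1) (.st (nat_lit 4) (nat_lit 1) (nat_lit 6) (nat_lit 0x501) (nat_lit 0x200020000000000000001) (nat_lit 1) (nat_lit 1) (.st (nat_lit 5) (nat_lit 1) (nat_lit 6) (nat_lit 0x501) (nat_lit 0x200020000000000000001) (nat_lit 1) (nat_lit 1) t770_4))))) (.non (nat_lit 1) (nat_lit 6) (nat_lit 0x4550) (nat_lit 0x10000000200020002000100000000)))) (.split (nat_lit 4) (nat_lit 0) (.split (nat_lit 7) (nat_lit 3) (.split (nat_lit 4) (nat_lit 3) (.sup (nat_lit 0x5000a00090002) (nat_lit 0x300010007000a00080000000000000000)) (.st (nat_lit 2) (nat_lit 1) (nat_lit 6) (nat_lit 0x550) (nat_lit 0x300040003000200000000) (nat_lit 1) (nat_lit 1) (.st (nat_lit 3) (nat_lit 1) (nat_lit 6) (nat_lit 0x550) (nat_lit 0x200020002000100000000) (nat_lit 1) (nat_lit 1) (.st (nat_lit 4) (nat_lit 1) (nat_lit 6) (nat_lit 0x540) (nat_lit 0x200020001000000000000) (nat_lit 1) (nat_lit 1) (.st (nat_lit 5) (nat_lit 1) (nat_lit 6) (nat_lit 0x540) (nat_lit 0x200020001000000000000) (nat_lit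 1) (nat_lit 1) t770_7))))) (.split (nat_lit 4) (nat_lit 3) (.sup (nat_lit 0x8001400140008) (nat_lit 0x70001000e001400100000000000000000)) (.non (nat_lit 1) (nat_lit 5) (nat_lit 0x5151) (nat_lit 0x20001000000010002000100000001)))) (.non (nat_lit 2) (nat_lit 6) (nat_lit 0x4505) (nat_lit 0x10000000200020000000000010002)))) (.split (nat_lit 7) (nat_lit 3) (.split (nat_lit 4) (nat_lit 3) (.split (nat_lit 7) (nat_lit 0) (.split (nat_lit 4) (nat_lit 0) (.sup (nat_lit 0x20009000a0005) (nat_lit 0x100030007000a00080000000000000000)) (.st (nat_lit 0) (nat_lit 2) (nat_lit 6) (nat_lit 0x505) (nat_lit 0x200020000000000010002) (nat_lit 1) (nat_lit 1) (.st (nat_lit 1) (nat_lit 2) (nat_lit 6) (nat_lit 0x505) (nat_lit 0x300040000000000020003) (nat_lit 1) (nat_lit 1) (.st (nat_lit 4) (nat_lit 1) (nat_lit 6) (nat_lit 0x501) (nat_lit 0x200020000000000000001) (nat_lit 1) (nat_lit 1) (.st (nat_lit 5) (nat_lit 1) (nat_lit 6) (nat_lit 0x501) (nat_lit 0x200020000000000000001) (nat_lit 1) (nat_lit 1) (.ex (nat_lit 2) (.split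 (nat_lit 4) (nat_lit 0) (.pd (.cons (nat_lit 3) (nat_lit 5) (nat_lit 0) (nat_lit 0x666000100) (nat_lit 0xf423ff423f7a11d00000f423f00000f423f5459106711) .nil) t770_11) (.non (nat_lit 1) (nat_lit 6) (nat_lit 0x501) (nat_lit 0x100010000000000000001))) (.split (nat_lit 9) (nat_lit 0) (.split (nat_lit 9) (nat_lit 1) (.split (nat_lit 9) (nat_lit 3) (.split (nat_lit 9) (nat_lit 4) (.split (nat_lit 9) (nat_lit 5) (.split (nat_lit 9) (nat_lit 6) (.split (nat_lit 9) (nat_lit 7) (.split (nat_lit 9) (nat_lit 8) (.sup (nat_lit 0x5000a00090000000000000002) (nat_lit 0x5000000000000000000000005000a00060000)) (.non (nat_lit 1) (nat_lit 5) (nat_lit 0x50050) (nat_lit 0x1000100000000000000000001000100000000))) (.non (nat_lit 1) (nat_lit 5) (nat_lit 0x55050) (nat_lit 0x1000100010001000000000001000100000000))) (.star (nat_lit 9) (nat_lit 2) (nat_lit 6))) (.star (nat_lit 9) (nat_lit 2) (nat_lit 5))) (.non (nat_lit 1) (nat_lit 6) (nat_lit 0x40550) (nat_lit 0x3000000000000000300040001000200000000))) (.non (nat_lit 1) (nat_lit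 5) (nat_lit 0x40050) (nat_lit 0x1000000000000000000000001000100000000))) (.non (nat_lit 2) (nat_lit 6) (nat_lit 0x40505) (nat_lit 0x1000000000000000300040000000000020003))) (.non (nat_lit 1) (nat_lit 6) (nat_lit 0x40511) (nat_lit 0x2000000000000000300040000000100000003))))))))) (.split (nat_lit 4) (nat_lit 0) t770_15 (.non (nat_lit 2) (nat_lit 6) (nat_lit 0x4505) (nat_lit 0x10000000200020000000000010002)))) (.non (nat_lit 1) (nat_lit 6) (nat_lit 0x10550) (nat_lit 0x100000000000200020002000100000000))) (.non (nat_lit 1) (nat_lit 5) (nat_lit 0x15040) (nat_lit 0x100010001000000000001000000000000))))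

noncomputable def t770_17 : Tr := (.pd (.cons (nat_lit 3) (nat_lit 6) (nat_lit 0x1010000000) (nat_lit 0x7090440100) (nat_lit 0x1f423f0000100000f423f5459100000f423f5459106711) .nil) (.ex (nat_lit 9) (.split (nat_lit 9) (nat_lit 7) (.pd (.cons (nat_lit 0) (nat_lit 4) (nat_lit 0) (nat_lit 0x7665502110) (nat_lit 0xf423ff423fb71ae65b9761a7900000f423fb71ae1f15600000) (.cons (nat_lit 1) (nat_lit 4) (nat_lit 0) (nat_lit 0x7068602200) (nat_lit 0xf423f61a79b71ae65b97f423f00000f423fb71ae000005b8cc) (.cons (nat_lit 2) (nat_lit 4) (nat_lit 0) (nat_lit 0x7068603000) (nat_lit 0xf423f61a79b71ae65b97f423f00000f423f00000f423f1e83b) .nil))) (.leaf (.cons (nat_lit 0x554) (nat_lit 0x100010001000100010000) (.cons (nat_lit 0x1540) (nat_lit 0x1000200020001000000000000) (.cons (nat_lit 0x11015) (nat_lit 0x200000001000000000000000300040003) (.cons (nat_lit 0x45500) (nat_lit 0x1000000020003000400030000000000000000) .nil)))) (.cons (nat_lit 0x11110) (nat_lit 0x100001) (nat_lit 0x10) (nat_lit 0x32100) .nil))) (.sup (nat_lit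 0x20009000a0005) (nat_lit 0x70000000a000a000a00060000000000000000))) (.split (nat_lit 0xa) (nat_lit 0) (.split (nat_lit 0xa) (nat_lit 1) (.split (nat_lit 0xa) (nat_lit 2) (.split (nat_lit 0xa) (nat_lit 3) (.split (nat_lit 0xa) (nat_lit 4) (.split (nat_lit 0xa) (nat_lit 5) (.split (nat_lit 0xa) (nat_lit 6) (.split (nat_lit 0xa) (nat_lit 7) (.split (nat_lit 0xa) (nat_lit 8) (.split (nat_lit 0xa) (nat_lit 9) (.split (nat_lit 9) (nat_lit 7) (.par (nat_lit 0x155405) (nat_lit 0x10002000300030004000200000000000000010002)) (.non (nat_lit 1) (nat_lit 5) (nat_lit 0x295000) (nat_lit 0x10002000100030002000000000000000000000000))) (.sup (nat_lit 0x7000a0002000b000b000900050000000000000000) (nat_lit 0x5001000100007))) (.non (nat_lit 1) (nat_lit 5) (nat_lit 0x155000) (nat_lit 0x10001000100010001000000000000000000000000))) (.non (nat_lit 1) (nat_lit 5) (nat_lit 0x144000) (nat_lit 0x10001000000010000000000000000000000000000))) (.non (nat_lit 1) (nat_lit 5) (nat_lit 0x145000) (nat_lit 0x10001000000010001000000000000000000000000)))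 (.non (nat_lit 1) (nat_lit 6) (nat_lit 0x144500) (nat_lit 0x30002000000010000000400030000000000000000))) (.non (nat_lit 1) (nat_lit 6) (nat_lit 0x144500) (nat_lit 0x30002000000010000000300040000000000000000))) (.non (nat_lit 1) (nat_lit 6) (nat_lit 0x140540) (nat_lit 0x20001000000000000000300040003000000000000))) (.non (nat_lit 1) (nat_lit 6) (nat_lit 0x100550) (nat_lit 0x10000000000000000000300040003000200000000))) (.non (nat_lit 2) (nat_lit 5) (nat_lit 0x155005) (nat_lit 0x10001000100010001000000000000000000010001))) (.non (nat_lit 1) (nat_lit 5) (nat_lit 0x155001) (nat_lit 0x10001000100010001000000000000000000000001)))))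

noncomputable def t770_18 : Tr := (.ex (nat_lit 7) (.ex (nat_lit 8) (.split (nat_lit 8) (nat_lit 0) t770_17 (.non (nat_lit 2) (nat_lit 5) (nat_lit 0x2a005) (nat_lit 0x300010002000000000000000000020004))) (.split (nat_lit 0xa) (nat_lit 0) (.split (nat_lit 0xa) (nat_lit 1) (.split (nat_lit 0xa) (nat_lit 2) (.split (nat_lit 0xa) (nat_lit 3) (.split (nat_lit 0xa) (nat_lit 4) (.split (nat_lit 0xa) (nat_lit 5) (.split (nat_lit 0xa) (nat_lit 6) (.split (nat_lit 0xa) (nat_lit 7) (.split (nat_lit 0xa) (nat_lit 9) (.split (nat_lit 0xa) (nat_lit 8) (.split (nat_lit 8) (nat_lit 0) (.par (nat_lit 0x115401) (nat_lit 0x10000000200010002000100000000000000000001)) (.non (nat_lit 1) (nat_lit 5) (nat_lit 0x222001) (nat_lit 0x10000000200000001000000000000000000000002))) (.non (nat_lit 1) (nat_lit 5) (nat_lit 0x211001) (nat_lit 0x10000000200000001000000000000000000000001))) (.non (nat_lit 1) (nat_lit 5) (nat_lit 0x155000) (nat_lit 0x10001000100010001000000000000000000000000))) (.non (nat_lit 1) (nat_lit 5) (nat_lit 0x115000)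 (nat_lit 0x10000000100010001000000000000000000000000))) (.non (nat_lit 1) (nat_lit 5) (nat_lit 0x111000) (nat_lit 0x10000000100000001000000000000000000000000))) (.non (nat_lit 1) (nat_lit 6) (nat_lit 0x100540) (nat_lit 0x10000000000000000000200020001000000000000))) (.non (nat_lit 1) (nat_lit 5) (nat_lit 0x155141) (nat_lit 0x30001000400020003000000020001000000000002))) (.non (nat_lit 1) (nat_lit 5) (nat_lit 0x155141) (nat_lit 0x30001000400020003000000010002000000000002))) (.non (nat_lit 1) (nat_lit 5) (nat_lit 0x155051) (nat_lit 0x30001000400020003000000000001000200000002))) (.non (nat_lit 2) (nat_lit 5) (nat_lit 0x110005) (nat_lit 0x10000000100000000000000000000000000010001))) (.non (nat_lit 1) (nat_lit 5) (nat_lit 0x110001) (nat_lit 0x10000000100000000000000000000000000000001)))) (.split (nat_lit 0xa) (nat_lit 0) (.split (nat_lit 0xa) (nat_lit 1) (.split (nat_lit 0xa) (nat_lit 2) (.split (nat_lit 0xa) (nat_lit 3) (.split (nat_lit 0xa) (nat_lit 4) (.split (nat_lit 0xa) (nat_lit 5) (.split (nat_lit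 0xa) (nat_lit 6) (.split (nat_lit 0xa) (nat_lit 8) (.split (nat_lit 0xa) (nat_lit 9) (.split (nat_lit 0xa) (nat_lit 7) (.split (nat_lit 9) (nat_lit 7) (.split (nat_lit 8) (nat_lit 0) (.sup (nat_lit 0x500050002000b000b000900050000000000000000) (nat_lit 0x5001000100007)) (.non (nat_lit 1) (nat_lit 5) (nat_lit 0x2aa001) (nat_lit 0x10001000200020002000000000000000000000002))) (.non (nat_lit 1) (nat_lit 5) (nat_lit 0x185000) (nat_lit 0x10001000000020001000000000000000000000000))) (.non (nat_lit 1) (nat_lit 5) (nat_lit 0x245000) (nat_lit 0x10001000000020001000000000000000000000000))) (.non (nat_lit 1) (nat_lit 5) (nat_lit 0x144000) (nat_lit 0x10001000000010000000000000000000000000000))) (.non (nat_lit 1) (nat_lit 5) (nat_lit 0x115000) (nat_lit 0x10000000100010001000000000000000000000000))) (.non (nat_lit 1) (nat_lit 5) (nat_lit 0x105000) (nat_lit 0x10000000000010001000000000000000000000000))) (.non (nat_lit 1) (nat_lit 6) (nat_lit 0x144500) (nat_lit 0x30001000000020000000400030000000000000000))) (.non (nat_lit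 1) (nat_lit 5) (nat_lit 0x155141) (nat_lit 0x30002000200040003000000020001000000000001))) (.non (nat_lit 1) (nat_lit 5) (nat_lit 0x145150) (nat_lit 0x20001000000020001000000010002000100000000))) (.non (nat_lit 1) (nat_lit 5) (nat_lit 0x155051) (nat_lit 0x30002000200040003000000000001000200000001))) (.non (nat_lit 2) (nat_lit 5) (nat_lit 0x115005) (nat_lit 0x10000000100010001000000000000000000010001))) (.non (nat_lit 1) (nat_lit 5) (nat_lit 0x115001) (nat_lit 0x10000000100010001000000000000000000000001))))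

noncomputable def t770_19 : Tr := (.ex (nat_lit 7) (.pd (.cons (nat_lit 3) (nat_lit 8) (nat_lit 0) (nat_lit 0x65440100) (nat_lit 0xf423fb71aea2c280473700000f423f54591437a2) .nil) (.ex (nat_lit 8) (.split (nat_lit 8) (nat_lit 0) (.pd (.cons (nat_lit 0) (nat_lit 4) (nat_lit 0) (nat_lit 0x665502110) (nat_lit 0xf423ff423f7a11d7a11b00000f423fb71ae1f15600000) (.cons (nat_lit 1) (nat_lit 4) (nat_lit 0) (nat_lit 0x68602200) (nat_lit 0x7a11bf423f7a11df423f00000f423fb71ae000007a119) (.cons (nat_lit 2) (nat_lit 4) (nat_lit 0) (nat_lit 0x68603000) (nat_lit 0x7a11bf423f7a11df423f00000f423f00000f423f3d088) (.cons (nat_lit 3) (nat_lit 6) (nat_lit 0) (nat_lit 0x70440100) (nat_lit 0xf423ff423f00000f423f5459100000f423f5459106711) .nil)))) (.leaf (.cons (nat_lit 0x554) (nat_lit 0x100010001000100010000) (.cons (nat_lit 0x1540) (nat_lit 0x1000200020001000000000000) (.cons (nat_lit 0x11015) (nat_lit 0x200000001000000000000000300040003) .nil))) (.cons (nat_lit 0x11110) (nat_lit 0x100001) (nat_lit 0x10) (nat_lit 0x32100)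 .nil))) (.non (nat_lit 2) (nat_lit 5) (nat_lit 0x2a005) (nat_lit 0x300010002000000000000000000020004))) (.split (nat_lit 9) (nat_lit 0) (.split (nat_lit 9) (nat_lit 1) (.split (nat_lit 9) (nat_lit 2) (.split (nat_lit 9) (nat_lit 3) (.split (nat_lit 9) (nat_lit 4) (.split (nat_lit 9) (nat_lit 5) (.split (nat_lit 9) (nat_lit 6) (.split (nat_lit 9) (nat_lit 7) (.split (nat_lit 9) (nat_lit 8) (.split (nat_lit 8) (nat_lit 0) (.par (nat_lit 0x55401) (nat_lit 0x1000200010002000100000000000000000001)) (.non (nat_lit 1) (nat_lit 5) (nat_lit 0xa2001) (nat_lit 0x1000200000001000000000000000000000002))) (.non (nat_lit 1) (nat_lit 5) (nat_lit 0x91001) (nat_lit 0x1000200000001000000000000000000000001))) (.non (nat_lit 1) (nat_lit 5) (nat_lit 0x55000) (nat_lit 0x1000100010001000000000000000000000000))) (.non (nat_lit 1) (nat_lit 5) (nat_lit 0x51000) (nat_lit 0x1000100000001000000000000000000000000))) (.non (nat_lit 1) (nat_lit 6) (nat_lit 0x40540) (nat_lit 0x1000000000000000200020001000000000000))) (.non (nat_lit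 1) (nat_lit 6) (nat_lit 0x40540) (nat_lit 0x1000000000000000200020001000000000000))) (.non (nat_lit 1) (nat_lit 5) (nat_lit 0x51151) (nat_lit 0x2000200000001000000010002000100000001))) (.non (nat_lit 1) (nat_lit 6) (nat_lit 0x40550) (nat_lit 0x1000000000000000300040003000200000000))) (.non (nat_lit 2) (nat_lit 5) (nat_lit 0x50005) (nat_lit 0x1000100000000000000000000000000010001))) (.non (nat_lit 1) (nat_lit 5) (nat_lit 0x50001) (nat_lit 0x1000100000000000000000000000000000001))))) (.split (nat_lit 9) (nat_lit 0) (.split (nat_lit 9) (nat_lit 1) (.split (nat_lit 9) (nat_lit 2) (.split (nat_lit 9) (nat_lit 3) (.split (nat_lit 9) (nat_lit 4) (.split (nat_lit 9) (nat_lit 5) (.split (nat_lit 9) (nat_lit 6) (.split (nat_lit 9) (nat_lit 8) t770_18 (.non (nat_lit 1) (nat_lit 5) (nat_lit 0x55000) (nat_lit 0x1000100010001000000000000000000000000))) (.non (nat_lit 1) (nat_lit 5) (nat_lit 0x45000) (nat_lit 0x1000000010001000000000000000000000000))) (.non (nat_lit 1) (nat_lit 6) (nat_lit 0x40540) (nat_lit 0x1000000000000000200020001000000000000)))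 (.non (nat_lit 1) (nat_lit 6) (nat_lit 0x40540) (nat_lit 0x1000000000000000200020001000000000000))) (.non (nat_lit 1) (nat_lit 6) (nat_lit 0x44540) (nat_lit 0x2000000010000000300040003000000000000))) (.non (nat_lit 1) (nat_lit 6) (nat_lit 0x40550) (nat_lit 0x1000000000000000300040003000200000000))) (.non (nat_lit 2) (nat_lit 5) (nat_lit 0x55005) (nat_lit 0x1000100010001000000000000000000010001))) (.non (nat_lit 1) (nat_lit 5) (nat_lit 0x55001) (nat_lit 0x1000100010001000000000000000000000001))))

noncomputable def t770_20 : Tr := (.ex (nat_lit 0) (.ex (nat_lit 1) (.split (nat_lit 4) (nat_lit 3) (.pd (.cons (nat_lit 0) (nat_lit 5) (nat_lit 0) (nat_lit 0x666032110) (nat_lit 0xf423ff423f7a11d00000f423fb71aea2c280473700000) .nil) (.ex (nat_lit 6) t770_19 (.split (nat_lit 9) (nat_lit 0) (.split (nat_lit 9) (nat_lit 1) (.split (nat_lit 9) (nat_lit 2) (.split (nat_lit 9) (nat_lit 3) (.split (nat_lit 9) (nat_lit 4) (.split (nat_lit 9) (nat_lit 5) (.split (nat_lit 9) (nat_lit 7) (.split (nat_lit 9) (nat_lit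 8) (.sup (nat_lit 0x20009000a0005) (nat_lit 0x500000005000a000a00060000000000000000)) (.non (nat_lit 1) (nat_lit 5) (nat_lit 0x51000) (nat_lit 0x1000100000001000000000000000000000000))) (.non (nat_lit 1) (nat_lit 5) (nat_lit 0x45000) (nat_lit 0x1000000010001000000000000000000000000))) (.non (nat_lit 1) (nat_lit 6) (nat_lit 0x40540) (nat_lit 0x1000000000000000200020001000000000000))) (.non (nat_lit 1) (nat_lit 6) (nat_lit 0x40540) (nat_lit 0x1000000000000000200020001000000000000))) (.non (nat_lit 1) (nat_lit 5) (nat_lit 0x55150) (nat_lit 0x2000100010002000000010002000100000000))) (.star (nat_lit 9) (nat_lit 2) (nat_lit 6))) (.star (nat_lit 9) (nat_lit 1) (nat_lit 6))) (.non (nat_lit 1) (nat_lit 5) (nat_lit 0x51001) (nat_lit 0x1000100000001000000000000000000000001))))) (.non (nat_lit 1) (nat_lit 6) (nat_lit 0x540) (nat_lit 0x100010001000000000000))) (.split (nat_lit 9) (nat_lit 0) (.split (nat_lit 9) (nat_lit 2) (.split (nat_lit 9) (nat_lit 3) (.split (nat_lit 9) (nat_lit 4) (.split (nat_lit 9) (nat_lit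 5) (.split (nat_lit 9) (nat_lit 6) (.split (nat_lit 9) (nat_lit 7) (.split (nat_lit 9) (nat_lit 8) (.sup (nat_lit 0x50000000000000000000000000006000a0005) (nat_lit 0x5000a00090002000000000000)) (.non (nat_lit 2) (nat_lit 5) (nat_lit 0x50005) (nat_lit 0x1000100000000000000000000000000010001))) (.non (nat_lit 2) (nat_lit 5) (nat_lit 0x55005) (nat_lit 0x1000100010001000000000000000000010001))) (.star (nat_lit 9) (nat_lit 1) (nat_lit 6))) (.star (nat_lit 9) (nat_lit 1) (nat_lit 5))) (.non (nat_lit 1) (nat_lit 6) (nat_lit 0x40540) (nat_lit 0x1000000000000000200020001000000000000))) (.non (nat_lit 1) (nat_lit 6) (nat_lit 0x40550) (nat_lit 0x1000000000000000200020002000100000000))) (.non (nat_lit 1) (nat_lit 6) (nat_lit 0x40550) (nat_lit 0x1000000000000000300040003000200000000))) (.non (nat_lit 2) (nat_lit 5) (nat_lit 0x40005) (nat_lit 0x1000000000000000000000000000000010001)))) (.split (nat_lit 9) (nat_lit 1) (.split (nat_lit 9) (nat_lit 2) (.split (nat_lit 9) (nat_lit 3) (.split (nat_lit 9) (nat_lit 4)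 (.split (nat_lit 9) (nat_lit 5) (.split (nat_lit 9) (nat_lit 6) (.split (nat_lit 9) (nat_lit 7) (.split (nat_lit 9) (nat_lit 8) (.split (nat_lit 9) (nat_lit 0) (.split (nat_lit 8) (nat_lit 0) (.par (nat_lit 0x55405) (nat_lit 0x1000200010002000100000000000000010002)) (.non (nat_lit 1) (nat_lit 5) (nat_lit 0x6a001) (nat_lit 0x2000300010002000000000000000000000004))) (.non (nat_lit 2) (nat_lit 5) (nat_lit 0x90005) (nat_lit 0x1000100000000000000000000000000010002))) (.non (nat_lit 1) (nat_lit 5) (nat_lit 0x50001) (nat_lit 0x1000100000000000000000000000000000001))) (.non (nat_lit 1) (nat_lit 5) (nat_lit 0x55001) (nat_lit 0x1000100010001000000000000000000000001))) (.non (nat_lit 1) (nat_lit 5) (nat_lit 0x51001) (nat_lit 0x1000100000001000000000000000000000001))) (.non (nat_lit 1) (nat_lit 6) (nat_lit 0x40540) (nat_lit 0x1000000000000000200020001000000000000))) (.non (nat_lit 1) (nat_lit 6) (nat_lit 0x40540) (nat_lit 0x1000000000000000200020001000000000000))) (.non (nat_lit 1) (nat_lit 6) (nat_lit 0x40550)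 (nat_lit 0x1000000000000000200020002000100000000))) (.non (nat_lit 1) (nat_lit 6) (nat_lit 0x40550) (nat_lit 0x1000000000000000300040003000200000000))) (.non (nat_lit 2) (nat_lit 5) (nat_lit 0x40005) (nat_lit 0x1000000000000000000000000000000010001))))

noncomputable def t770_21 : Tr := (.ex (nat_lit 8) (.split (nat_lit 8) (nat_lit 0) (.pd (.cons (nat_lit 0) (nat_lit 7) (nat_lit 0) (nat_lit 0x605442110) (nat_lit 0xf423f00000b71aea2c2804737f423fb71ae1f15600000) (.cons (nat_lit 1) (nat_lit 4) (nat_lit 0) (nat_lit 0x68607300) (nat_lit 0x5160da2c285b8d4f423f00000b71aef423f000003d07c) (.cons (nat_lit 2) (nat_lit 4) (nat_lit 0) (nat_lit 0x68607000) (nat_lit 0x61a79b71ae65b97f423f00000f423f00000f423f1e83b) (.cons (nat_lit 3) (nat_lit 6) (nat_lit 0) (nat_lit 0x70440100) (nat_lit 0xf423ff423f00000f423f5459100000f423f5459106711) .nil)))) (.leaf (.cons (nat_lit 0x5054) (nat_lit 0x20001000000000003000400030000) (.cons (nat_lit 0x11501) (nat_lit 0x200000003000400030000000000000001) (.cons (nat_lit 0x5540) (nat_lit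 0x20003000400030001000000000000) (.cons (nat_lit 0x11015) (nat_lit 0x200000001000000000000000300040003) .nil)))) (.cons (nat_lit 0x111101101) (nat_lit 0x10010) (nat_lit 0xd) (nat_lit 0x240105603) (.cons (nat_lit 0x111001101) (nat_lit 0x100010) (nat_lit 4) (nat_lit 0x132004500) (.cons (nat_lit 0x111101011) (nat_lit 0x10100) (nat_lit 0xd) (nat_lit 0x420103065) (.cons (nat_lit 0x111001011) (nat_lit 0x100100) (nat_lit 4) (nat_lit 0x243005001) .nil)))))) (.non (nat_lit 2) (nat_lit 5) (nat_lit 0x2a005) (nat_lit 0x300010002000000000000000000020004))) (.split (nat_lit 9) (nat_lit 0) (.split (nat_lit 9) (nat_lit 1) (.split (nat_lit 9) (nat_lit 2) (.split (nat_lit 9) (nat_lit 3) (.split (nat_lit 9) (nat_lit 4) (.split (nat_lit 9) (nat_lit 5) (.split (nat_lit 9) (nat_lit 6) (.split (nat_lit 9) (nat_lit 7) (.split (nat_lit 9) (nat_lit 8) (.split (nat_lit 8) (nat_lit 0) (.sup (nat_lit 0x200040003000b0010000d0000000000000000) (nat_lit 0x6000f000f0005)) (.non (nat_lit 1) (nat_lit 5) (nat_lit 0xa2001) (nat_lit 0x1000200000001000000000000000000000002)))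 (.non (nat_lit 1) (nat_lit 5) (nat_lit 0x91001) (nat_lit 0x1000200000001000000000000000000000001))) (.non (nat_lit 1) (nat_lit 5) (nat_lit 0x55000) (nat_lit 0x1000100010001000000000000000000000000))) (.non (nat_lit 1) (nat_lit 5) (nat_lit 0x51000) (nat_lit 0x1000100000001000000000000000000000000))) (.non (nat_lit 1) (nat_lit 6) (nat_lit 0x50501) (nat_lit 0x3000200000000000400030000000000000001))) (.non (nat_lit 1) (nat_lit 6) (nat_lit 0x50501) (nat_lit 0x3000200000000000300040000000000000001))) (.non (nat_lit 1) (nat_lit 5) (nat_lit 0x55040) (nat_lit 0x1000100010001000000000001000000000000))) (.non (nat_lit 1) (nat_lit 5) (nat_lit 0x55050) (nat_lit 0x1000100010001000000000001000100000000))) (.non (nat_lit 2) (nat_lit 5) (nat_lit 0x50005) (nat_lit 0x1000100000000000000000000000000010001))) (.non (nat_lit 1) (nat_lit 5) (nat_lit 0x50001) (nat_lit 0x1000100000000000000000000000000000001))))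

noncomputable def t770_22 : Tr := (.ex (nat_lit 6) (.ex (nat_lit 7) (.split (nat_lit 7) (nat_lit 3) (.pd (.cons (nat_lit 0) (nat_lit 6) (nat_lit 0) (nat_lit 0x830442110) (nat_lit 0xf423ff423f00000f423f54591b71aea2c280473700000) (.cons (nat_lit 3) (nat_lit 8) (nat_lit 0) (nat_lit 0x65440100) (nat_lit 0xf423fb71aea2c280473700000f423f54591437a2) .nil)) t770_21) (.non (nat_lit 1) (nat_lit 5) (nat_lit 0x2a050) (nat_lit 0x100030002000000000004000200000000))) (.split (nat_lit 9) (nat_lit 0) (.split (nat_lit 9) (nat_lit 1) (.split (nat_lit 9) (nat_lit 2) (.split (nat_lit 9) (nat_lit 3) (.split (nat_lit 9) (nat_lit 4) (.split (nat_lit 9) (nat_lit 5) (.split (nat_lit 9) (nat_lit 6) (.split (nat_lit 9) (nat_lit 8) (.split (nat_lit 9) (nat_lit 7) (.split (nat_lit 8) (nat_lit 0) (.split (nat_lit 7) (nat_lit 3) (.sup (nat_lit 0x200030004000b0010000d0000000000000000) (nat_lit 0x5000f000f0006)) (.non (nat_lit 1) (nat_lit 5) (nat_lit 0x8a040) (nat_lit 0x1000000020001000000000002000000000000))) (.non (nat_lit 1) (nat_lit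 5) (nat_lit 0xaa081) (nat_lit 0x1000200020002000000000001000000000002))) (.non (nat_lit 1) (nat_lit 5) (nat_lit 0x85040) (nat_lit 0x1000000020001000000000001000000000000))) (.non (nat_lit 1) (nat_lit 5) (nat_lit 0x55000) (nat_lit 0x1000100010001000000000000000000000000))) (.non (nat_lit 1) (nat_lit 5) (nat_lit 0x45000) (nat_lit 0x1000000010001000000000000000000000000))) (.non (nat_lit 1) (nat_lit 6) (nat_lit 0x44540) (nat_lit 0x3000000020000000400030001000000000000))) (.non (nat_lit 1) (nat_lit 5) (nat_lit 0x55150) (nat_lit 0x2000100030002000000010002000100000000))) (.non (nat_lit 1) (nat_lit 5) (nat_lit 0x44040) (nat_lit 0x1000000010000000000000001000000000000))) (.non (nat_lit 1) (nat_lit 5) (nat_lit 0x44050) (nat_lit 0x1000000010000000000000001000100000000))) (.non (nat_lit 2) (nat_lit 5) (nat_lit 0x55005) (nat_lit 0x1000100010001000000000000000000010001))) (.non (nat_lit 1) (nat_lit 5) (nat_lit 0x55001) (nat_lit 0x1000100010001000000000000000000000001)))) (.split (nat_lit 9) (nat_lit 0) (.split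 (nat_lit 9) (nat_lit 1) (.split (nat_lit 9) (nat_lit 2) (.split (nat_lit 9) (nat_lit 3) (.split (nat_lit 9) (nat_lit 4) (.split (nat_lit 9) (nat_lit 7) (.split (nat_lit 9) (nat_lit 8) (.split (nat_lit 9) (nat_lit 5) (.sup (nat_lit 0x20009000a0005) (nat_lit 0x3000000010007000a00080000000000000000)) (.unj (nat_lit 0x41400) (nat_lit 0x1000000000001000100000000000000000000) (nat_lit 0x55) (nat_lit 0x1000200020001))) (.non (nat_lit 1) (nat_lit 5) (nat_lit 0x51000) (nat_lit 0x1000100000001000000000000000000000000))) (.non (nat_lit 1) (nat_lit 5) (nat_lit 0x45000) (nat_lit 0x1000000010001000000000000000000000000))) (.non (nat_lit 1) (nat_lit 5) (nat_lit 0x55141) (nat_lit 0x2000200020003000000010001000000000001))) (.non (nat_lit 1) (nat_lit 5) (nat_lit 0x45040) (nat_lit 0x1000000010001000000000001000000000000))) (.star (nat_lit 9) (nat_lit 2) (nat_lit 6))) (.star (nat_lit 9) (nat_lit 1) (nat_lit 6))) (.non (nat_lit 1) (nat_lit 5) (nat_lit 0x51001) (nat_lit 0x1000100000001000000000000000000000001))))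

noncomputable def t770_23 : Tr := (.ex (nat_lit 3) (.ex (nat_lit 4) (.ex (nat_lit 5) t770_22 (.split (nat_lit 9) (nat_lit 0) (.split (nat_lit 9) (nat_lit 1) (.split (nat_lit 9) (nat_lit 2) (.split (nat_lit 9) (nat_lit 3) (.split (nat_lit 9) (nat_lit 4) (.split (nat_lit 9) (nat_lit 7) (.split (nat_lit 9) (nat_lit 8) (.split (nat_lit 9) (nat_lit 6) (.unj (nat_lit 0x55) (nat_lit 0x1000200020001) (nat_lit 0x41500) (nat_lit 0x1000000000001000200020000000000000000)) (.unj (nat_lit 0x41400) (nat_lit 0x1000000000001000100000000000000000000) (nat_lit 0x55) (nat_lit 0x1000200020001))) (.non (nat_lit 1) (nat_lit 6) (nat_lit 0x50501) (nat_lit 0x3000200000000000400030000000000000001))) (.non (nat_lit 1) (nat_lit 6) (nat_lit 0x44540) (nat_lit 0x3000000020000000400030001000000000000))) (.non (nat_lit 1) (nat_lit 6) (nat_lit 0x40500) (nat_lit 0x1000000000000000100010000000000000000))) (.non (nat_lit 1) (nat_lit 6) (nat_lit 0x44540) (nat_lit 0x3000000010000000400030002000000000000))) (.star (nat_lit 9) (nat_lit 2)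 (nat_lit 5))) (.star (nat_lit 9) (nat_lit 1) (nat_lit 5))) (.non (nat_lit 1) (nat_lit 6) (nat_lit 0x50501) (nat_lit 0x3000100000000000400030000000000000002)))) (.split (nat_lit 9) (nat_lit 0) (.split (nat_lit 9) (nat_lit 1) (.split (nat_lit 9) (nat_lit 2) (.split (nat_lit 9) (nat_lit 3) (.split (nat_lit 9) (nat_lit 5) (.split (nat_lit 9) (nat_lit 6) (.split (nat_lit 9) (nat_lit 7) (.split (nat_lit 9) (nat_lit 8) (.unj (nat_lit 0x55) (nat_lit 0x1000200020001) (nat_lit 0x41500) (nat_lit 0x1000000000001000200020000000000000000)) (.non (nat_lit 1) (nat_lit 6) (nat_lit 0x50501) (nat_lit 0x3000200000000000300040000000000000001))) (.non (nat_lit 1) (nat_lit 5) (nat_lit 0x55150) (nat_lit 0x2000100030002000000010002000100000000))) (.non (nat_lit 1) (nat_lit 5) (nat_lit 0x55141) (nat_lit 0x2000200020003000000010001000000000001))) (.non (nat_lit 1) (nat_lit 6) (nat_lit 0x40500) (nat_lit 0x1000000000000000100010000000000000000))) (.non (nat_lit 1) (nat_lit 6) (nat_lit 0x44540) (nat_lit 0x3000000010000000300040002000000000000)))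 (.non (nat_lit 1) (nat_lit 6) (nat_lit 0x40550) (nat_lit 0x3000000000000000300040001000200000000))) (.non (nat_lit 2) (nat_lit 6) (nat_lit 0x40505) (nat_lit 0x3000000000000000300040000000000020001))) (.non (nat_lit 1) (nat_lit 6) (nat_lit 0x50501) (nat_lit 0x3000100000000000300040000000000000002)))) (.split (nat_lit 9) (nat_lit 0) (.split (nat_lit 9) (nat_lit 1) (.split (nat_lit 9) (nat_lit 2) (.split (nat_lit 9) (nat_lit 4) (.split (nat_lit 9) (nat_lit 5) (.split (nat_lit 9) (nat_lit 6) (.split (nat_lit 9) (nat_lit 7) (.split (nat_lit 9) (nat_lit 8) (.split (nat_lit 9) (nat_lit 3) (.split (nat_lit 8) (nat_lit 0) (.split (nat_lit 7) (nat_lit 3) (.sup (nat_lit 0x40003000b0010000d0000000000000000) (nat_lit 0x3000000000000000000000005000b000b0003)) (.non (nat_lit 1) (nat_lit 5) (nat_lit 0x6a040) (nat_lit 0x2000100030002000000000004000000000000))) (.non (nat_lit 1) (nat_lit 5) (nat_lit 0xaa0a1) (nat_lit 0x1000200020002000000000002000100000002))) (.non (nat_lit 1) (nat_lit 5) (nat_lit 0x84050) (nat_lit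 0x1000000010000000000000002000100000000))) (.non (nat_lit 1) (nat_lit 5) (nat_lit 0x55040) (nat_lit 0x1000100010001000000000001000000000000))) (.non (nat_lit 1) (nat_lit 5) (nat_lit 0x44040) (nat_lit 0x1000000010000000000000001000000000000))) (.non (nat_lit 1) (nat_lit 5) (nat_lit 0x45040) (nat_lit 0x1000000010001000000000001000000000000))) (.non (nat_lit 1) (nat_lit 6) (nat_lit 0x44540) (nat_lit 0x3000000010000000400030002000000000000))) (.non (nat_lit 1) (nat_lit 6) (nat_lit 0x44540) (nat_lit 0x3000000010000000300040002000000000000))) (.non (nat_lit 1) (nat_lit 5) (nat_lit 0x40050) (nat_lit 0x1000000000000000000000001000100000000))) (.non (nat_lit 2) (nat_lit 5) (nat_lit 0x55045) (nat_lit 0x1000100010001000000000001000000010001))) (.non (nat_lit 1) (nat_lit 5) (nat_lit 0x55041) (nat_lit 0x1000100010001000000000001000000000001))))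

noncomputable def t770_24 : Tr := (.ex (nat_lit 0) (.ex (nat_lit 1) (.ex (nat_lit 2) t770_23 (.split (nat_lit 9) (nat_lit 0) (.split (nat_lit 9) (nat_lit 3) (.split (nat_lit 9) (nat_lit 4) (.split (nat_lit 9) (nat_lit 5) (.split (nat_lit 9) (nat_lit 6) (.split (nat_lit 9) (nat_lit 7) (.split (nat_lit 9) (nat_lit 8) (.split (nat_lit 9) (nat_lit 1) (.sup (nat_lit 0x5000000000000000000000000000a00090002) (nat_lit 0x100030007000a00080000000000000000)) (.unj (nat_lit 0x40014) (nat_lit 0x1000000000000000000000000000100010000) (nat_lit 0x15500) (nat_lit 0x100010002000200020000000000000000))) (.non (nat_lit 1) (nat_lit 5) (nat_lit 0x55050) (nat_lit 0x1000100010001000000000001000100000000))) (.non (nat_lit 1) (nat_lit 5) (nat_lit 0x44050) (nat_lit 0x1000000010000000000000001000100000000))) (.star (nat_lit 9) (nat_lit 2) (nat_lit 6))) (.star (nat_lit 9) (nat_lit 2) (nat_lit 5))) (.non (nat_lit 1) (nat_lit 6) (nat_lit 0x40550) (nat_lit 0x3000000000000000300040001000200000000))) (.non (nat_lit 1) (nat_lit 5)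 (nat_lit 0x40050) (nat_lit 0x1000000000000000000000001000100000000))) (.non (nat_lit 1) (nat_lit 5) (nat_lit 0x55051) (nat_lit 0x1000100010001000000000001000100000001)))) (.split (nat_lit 9) (nat_lit 0) (.split (nat_lit 9) (nat_lit 3) (.split (nat_lit 9) (nat_lit 4) (.split (nat_lit 9) (nat_lit 5) (.split (nat_lit 9) (nat_lit 6) (.split (nat_lit 9) (nat_lit 7) (.split (nat_lit 9) (nat_lit 8) (.split (nat_lit 9) (nat_lit 2) (.sup (nat_lit 0x50000000000000000000000000006000a0005) (nat_lit 0x40007000a00080001000000000000)) (.unj (nat_lit 0x40014) (nat_lit 0x1000000000000000000000000000100010000) (nat_lit 0x15500) (nat_lit 0x100010002000200020000000000000000))) (.non (nat_lit 2) (nat_lit 5) (nat_lit 0x50005) (nat_lit 0x1000100000000000000000000000000010001))) (.non (nat_lit 2) (nat_lit 5) (nat_lit 0x55005) (nat_lit 0x1000100010001000000000000000000010001))) (.star (nat_lit 9) (nat_lit 1) (nat_lit 6))) (.star (nat_lit 9) (nat_lit 1) (nat_lit 5))) (.non (nat_lit 2) (nat_lit 6) (nat_lit 0x40505) (nat_lit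 0x3000000000000000300040000000000020001))) (.non (nat_lit 2) (nat_lit 5) (nat_lit 0x55045) (nat_lit 0x1000100010001000000000001000000010001))) (.non (nat_lit 2) (nat_lit 5) (nat_lit 0x40005) (nat_lit 0x1000000000000000000000000000000010001)))) (.split (nat_lit 9) (nat_lit 1) (.split (nat_lit 9) (nat_lit 2) (.split (nat_lit 9) (nat_lit 3) (.split (nat_lit 9) (nat_lit 4) (.split (nat_lit 9) (nat_lit 5) (.split (nat_lit 9) (nat_lit 6) (.split (nat_lit 9) (nat_lit 7) (.split (nat_lit 9) (nat_lit 8) (.split (nat_lit 9) (nat_lit 0) (.split (nat_lit 8) (nat_lit 0) (.split (nat_lit 7) (nat_lit 3) (.sup (nat_lit 0x30004000b0010000d0000000000000000) (nat_lit 0x3000000000000000000000003000b000b0005)) (.non (nat_lit 1) (nat_lit 5) (nat_lit 0x2a050) (nat_lit 0x100030002000000000004000200000000))) (.non (nat_lit 1) (nat_lit 5) (nat_lit 0x6a001) (nat_lit 0x2000300010002000000000000000000000004))) (.non (nat_lit 2) (nat_lit 5) (nat_lit 0x90005) (nat_lit 0x1000100000000000000000000000000010002))) (.non (nat_lit 1)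 (nat_lit 5) (nat_lit 0x50001) (nat_lit 0x1000100000000000000000000000000000001))) (.non (nat_lit 1) (nat_lit 5) (nat_lit 0x55001) (nat_lit 0x1000100010001000000000000000000000001))) (.non (nat_lit 1) (nat_lit 5) (nat_lit 0x51001) (nat_lit 0x1000100000001000000000000000000000001))) (.non (nat_lit 1) (nat_lit 6) (nat_lit 0x50501) (nat_lit 0x3000100000000000400030000000000000002))) (.non (nat_lit 1) (nat_lit 6) (nat_lit 0x50501) (nat_lit 0x3000100000000000300040000000000000002))) (.non (nat_lit 1) (nat_lit 5) (nat_lit 0x55041) (nat_lit 0x1000100010001000000000001000000000001))) (.non (nat_lit 1) (nat_lit 5) (nat_lit 0x55051) (nat_lit 0x1000100010001000000000001000100000001))) (.non (nat_lit 2) (nat_lit 5) (nat_lit 0x40005) (nat_lit 0x1000000000000000000000000000000010001))))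

noncomputable def t770 : Tr := (.split (nat_lit 8) (nat_lit 0) t770_16 (.split (nat_lit 7) (nat_lit 0) (.split (nat_lit 4) (nat_lit 0) (.split (nat_lit 8) (nat_lit 3) (.split (nat_lit 7) (nat_lit 3) (.split (nat_lit 4) (nat_lit 3) (.sup (nat_lit 0x5000a00090002) (nat_lit 0x100030007000a00080000000000000000)) (.st (nat_lit 2) (nat_lit 1) (nat_lit 6) (nat_lit 0x550) (nat_lit 0x300040003000200000000) (nat_lit 1) (nat_lit 1) (.st (nat_lit 3) (nat_lit 1) (nat_lit 6) (nat_lit 0x550) (nat_lit 0x200020002000100000000) (nat_lit 1) (nat_lit 1) (.st (nat_lit 4) (nat_lit 1) (nat_lit 6) (nat_lit 0x540) (nat_lit 0x200020001000000000000) (nat_lit 1) (nat_lit 1) (.st (nat_lit 5) (nat_lit 1) (nat_lit 6) (nat_lit 0x540) (nat_lit 0x200020001000000000000) (nat_lit 1) (nat_lit 1) t770_20))))) (.split (nat_lit 4) (nat_lit 3) t770_24 (.non (nat_lit 1) (nat_lit 6) (nat_lit 0x4550) (nat_lit 0x10000000200020002000100000000)))) (.split (nat_lit 7) (nat_lit 3) (.split (nat_lit 4) (nat_lit 3) (.sup (nat_lit 0x8001400140008)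 (nat_lit 0x10007000e001400100000000000000000)) (.non (nat_lit 1) (nat_lit 5) (nat_lit 0x11151) (nat_lit 0x200000001000000010002000100000001))) (.non (nat_lit 1) (nat_lit 5) (nat_lit 0x15040) (nat_lit 0x100010001000000000001000000000000)))) (.non (nat_lit 2) (nat_lit 6) (nat_lit 0x10505) (nat_lit 0x100000000000200020000000000010002))) (.non (nat_lit 1) (nat_lit 5) (nat_lit 0x15001) (nat_lit 0x100010001000000000000000000000001))))

noncomputable def t774_1 : Tr := (.ex (nat_lit 4) (.ex (nat_lit 5) (.split (nat_lit 7) (nat_lit 2) (.split (nat_lit 7) (nat_lit 1) (.pd (.cons (nat_lit 0) (nat_lit 7) (nat_lit 0) (nat_lit 0x405442110) (nat_lit 0xf423f00000f423fb71ae14581f423fb71ae1f15600000) (.cons (nat_lit 1) (nat_lit 6) (nat_lit 0) (nat_lit 0x720482200) (nat_lit 0x7a11c7a11a00000f423f7a11ef423f3d08700000f423f) (.cons (nat_lit 1) (nat_lit 7) (nat_lit 0) (nat_lit 0x405442200) (nat_lit 0xf423f00000f423fb71ae14581f423fb71ae00000f423f) (.cons (nat_lit 1) (nat_lit 8) (nat_lit 0) (nat_lit 0x27652200) (nat_lit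 0x7a11a7a11c7a11ef423ff423f3d08700000f423f) (.cons (nat_lit 2) (nat_lit 6) (nat_lit 0) (nat_lit 0x710483000) (nat_lit 0x7a11c7a11a00000f423f7a11ef423f000007a1187a116) (.cons (nat_lit 2) (nat_lit 7) (nat_lit 0) (nat_lit 0x405443000) (nat_lit 0xf423f00000f423fb71ae14581f423f00000f423fb71ae) (.cons (nat_lit 2) (nat_lit 8) (nat_lit 0) (nat_lit 0x17653000) (nat_lit 0x7a11a7a11c7a11ef423ff423f000007a1187a116) (.cons (nat_lit 3) (nat_lit 7) (nat_lit 0) (nat_lit 0x405440100) (nat_lit 0xf423f00000f423fb71ae1458100000f423f54591437a2) .nil)))))))) (.leaf (.cons (nat_lit 0x4014) (nat_lit 0x10000000000000000000100010000) .nil) .nil)) (.non (nat_lit 2) (nat_lit 4) (nat_lit 0x2a004) (nat_lit 0x100020001000000000000000000020000))) (.non (nat_lit 1) (nat_lit 4) (nat_lit 0x2a010) (nat_lit 0x100020001000000000000000200000000))) (.split (nat_lit 9) (nat_lit 0) (.split (nat_lit 9) (nat_lit 1) (.split (nat_lit 9) (nat_lit 2) (.split (nat_lit 9) (nat_lit 3) (.split (nat_lit 9) (nat_lit 6) (.split (nat_lit 9) (nat_lit 7)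 (.split (nat_lit 9) (nat_lit 8) (.split (nat_lit 9) (nat_lit 4) (.unj (nat_lit 0x55) (nat_lit 0x1000200020001) (nat_lit 0x82900) (nat_lit 0x1000000000001000200020000000000000000)) (.unj (nat_lit 0x4014) (nat_lit 0x10000000000000000000100010000) (nat_lit 0x40500) (nat_lit 0x1000000000000000100010000000000000000))) (.non (nat_lit 1) (nat_lit 4) (nat_lit 0x55400) (nat_lit 0x1000100010001000100000000000000000000))) (.non (nat_lit 1) (nat_lit 4) (nat_lit 0x45400) (nat_lit 0x1000000010001000100000000000000000000))) (.non (nat_lit 1) (nat_lit 4) (nat_lit 0x41400) (nat_lit 0x1000000000001000100000000000000000000))) (.non (nat_lit 1) (nat_lit 4) (nat_lit 0x45450) (nat_lit 0x1000000010001000100000001000100000000))) (.star (nat_lit 9) (nat_lit 2) (nat_lit 5))) (.star (nat_lit 9) (nat_lit 1) (nat_lit 5))) (.non (nat_lit 2) (nat_lit 4) (nat_lit 0x45405) (nat_lit 0x1000000010001000100000000000000010001)))) (.split (nat_lit 9) (nat_lit 0) (.split (nat_lit 9) (nat_lit 1) (.split (nat_lit 9) (nat_lit 2) (.split (nat_lit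 9) (nat_lit 3) (.split (nat_lit 9) (nat_lit 6) (.split (nat_lit 9) (nat_lit 7) (.split (nat_lit 9) (nat_lit 8) (.split (nat_lit 9) (nat_lit 5) (.unj (nat_lit 0x55) (nat_lit 0x1000200020001) (nat_lit 0x50900) (nat_lit 0x1000100000000000100020000000000000000)) (.unj (nat_lit 0x4014) (nat_lit 0x10000000000000000000100010000) (nat_lit 0x40500) (nat_lit 0x1000000000000000100010000000000000000))) (.non (nat_lit 1) (nat_lit 4) (nat_lit 0x55450) (nat_lit 0x1000200030002000100000001000200000000))) (.non (nat_lit 1) (nat_lit 4) (nat_lit 0x55010) (nat_lit 0x1000100020001000000000000000100000000))) (.non (nat_lit 1) (nat_lit 4) (nat_lit 0x55410) (nat_lit 0x1000100020002000100000000000100000000))) (.non (nat_lit 1) (nat_lit 5) (nat_lit 0x54150) (nat_lit 0x1000100010000000000010001000100000000))) (.star (nat_lit 9) (nat_lit 2) (nat_lit 4))) (.star (nat_lit 9) (nat_lit 1) (nat_lit 4))) (.non (nat_lit 2) (nat_lit 5) (nat_lit 0x54105) (nat_lit 0x1000100010000000000010000000000010001))))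

noncomputable def t774_2 : Tr := (.pd (.cons (nat_lit 1) (nat_lit 6) (nat_lit 0) (nat_lit 0x3720482200) (nat_lit 0xf423f7a11c7a11a00000f423f7a11eb71ae28b0100000f423f) (.cons (nat_lit 1) (nat_lit 7) (nat_lit 0) (nat_lit 0x3405442200) (nat_lit 0xf423ff423f00000f423fb71ae14581b71aea2c2800000f423f) (.cons (nat_lit 1) (nat_lit 8) (nat_lit 0) (nat_lit 0x3027652200) (nat_lit 0xf423f000007a11a7a11c7a11ef423fb71ae28b0100000f423f) (.cons (nat_lit 2) (nat_lit 6) (nat_lit 0) (nat_lit 0x3710483000) (nat_lit 0xf423f7a11c7a11a00000f423f7a11eb71ae000007a1187a116) (.cons (nat_lit 2) (nat_lit 7) (nat_lit 0) (nat_lit 0x3405443000) (nat_lit 0xf423ff423f00000f423fb71ae14581b71ae00000f423fb71ae) (.cons (nat_lit 2) (nat_lit 8) (nat_lit 0) (nat_lit 0x3017653000) (nat_lit 0xf423f000007a11a7a11c7a11ef423fb71ae000007a1187a116) (.cons (nat_lit 3) (nat_lit 7) (nat_lit 0) (nat_lit 0x9405440100) (nat_lit 0xf423ff423f00000f423fb71ae1458100000f423f54591437a2) .nil))))))) (.ex (nat_lit 9) (.pd (.cons (nat_lit 0) (nat_lit 7) (nat_lit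 0) (nat_lit 0x3405442110) (nat_lit 0xf423ff423f00000f423fb71ae14581b71aea2c280473700000) .nil) (.leaf (.cons (nat_lit 0x4014) (nat_lit 0x10000000000000000000100010000) .nil) .nil)) (.split (nat_lit 0xa) (nat_lit 0) (.split (nat_lit 0xa) (nat_lit 1) (.split (nat_lit 0xa) (nat_lit 2) (.split (nat_lit 0xa) (nat_lit 3) (.split (nat_lit 0xa) (nat_lit 4) (.split (nat_lit 0xa) (nat_lit 5) (.split (nat_lit 0xa) (nat_lit 6) (.split (nat_lit 0xa) (nat_lit 7) (.split (nat_lit 0xa) (nat_lit 8) (.leaf (.cons (nat_lit 0x4014) (nat_lit 0x10000000000000000000100010000) (.cons (nat_lit 0x140054) (nat_lit 0x10002000000000000000000000003000400030000) .nil)) .nil) (.non (nat_lit 1) (nat_lit 4) (nat_lit 0x154050) (nat_lit 0x10001000100010000000000000001000100000000))) (.non (nat_lit 1) (nat_lit 4) (nat_lit 0x115010) (nat_lit 0x10000000100020001000000000000000100000000))) (.non (nat_lit 1) (nat_lit 4) (nat_lit 0x115410) (nat_lit 0x10000000100020002000100000000000100000000))) (.non (nat_lit 1) (nat_lit 4) (nat_lit 0x145450)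 (nat_lit 0x10001000000010001000100000001000100000000))) (.non (nat_lit 1) (nat_lit 5) (nat_lit 0x154150) (nat_lit 0x10001000100010000000000010001000100000000))) (.non (nat_lit 1) (nat_lit 4) (nat_lit 0x140040) (nat_lit 0x10001000000000000000000000001000000000000))) (.non (nat_lit 1) (nat_lit 4) (nat_lit 0x140050) (nat_lit 0x10001000000000000000000000001000100000000))) (.non (nat_lit 2) (nat_lit 4) (nat_lit 0x115005) (nat_lit 0x10000000100020001000000000000000000020001))) (.non (nat_lit 1) (nat_lit 4) (nat_lit 0x155451) (nat_lit 0x20003000300060004000200000004000500000001)))))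

noncomputable def t774_3 : Tr := (.split (nat_lit 0xb) (nat_lit 0xa) (.ex (nat_lit 0xa) (.split (nat_lit 0xa) (nat_lit 3) (.pd (.cons (nat_lit 0) (nat_lit 7) (nat_lit 0x101000000000) (nat_lit 0x93b405442110) (nat_lit 0x1f423f00001f423f00000f423fb71ae14581b71aea2c280473700000) .nil) (.leaf (.cons (nat_lit 0x4014) (nat_lit 0x10000000000000000000100010000) (.cons (nat_lit 0x440015) (nat_lit 0x100000002000000000000000000000000000300040003) .nil)) .nil)) (.non (nat_lit 1) (nat_lit 4) (nat_lit 0x215050) (nat_lit 0x10000000100020001000000000002000200000000))) (.split (nat_lit 0xc) (nat_lit 0) (.split (nat_lit 0xc) (nat_lit 1) (.split (nat_lit 0xc) (nat_lit 2) (.split (nat_lit 0xc) (nat_lit 3) (.split (nat_lit 0xc) (nat_lit 4) (.split (nat_lit 0xc) (nat_lit 5) (.split (nat_lit 0xc) (nat_lit 6) (.split (nat_lit 0xc) (nat_lit 7) (.split (nat_lit 0xc) (nat_lit 8) (.split (nat_lit 0xc) (nat_lit 9) (.split (nat_lit 0xc) (nat_lit 0xb) (.leaf (.cons (nat_lit 0x4014) (nat_lit 0x10000000000000000000100010000) (.cons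 (nat_lit 0x1100054) (nat_lit 0x1000000020000000000000000000000000003000400030000) (.cons (nat_lit 0x440015) (nat_lit 0x100000002000000000000000000000000000300040003) .nil))) .nil) (.non (nat_lit 1) (nat_lit 4) (nat_lit 0x1515450) (nat_lit 0x2000100030000000300060004000200000004000500000000))) (.non (nat_lit 1) (nat_lit 4) (nat_lit 0x1155450) (nat_lit 0x2000000030001000300060004000200000004000500000000))) (.non (nat_lit 1) (nat_lit 4) (nat_lit 0x1114050) (nat_lit 0x1000000010000000100010000000000000001000100000000))) (.non (nat_lit 1) (nat_lit 4) (nat_lit 0x1015010) (nat_lit 0x1000000000000000100020001000000000000000100000000))) (.non (nat_lit 1) (nat_lit 4) (nat_lit 0x1015410) (nat_lit 0x1000000000000000100020002000100000000000100000000))) (.non (nat_lit 1) (nat_lit 4) (nat_lit 0x1105450) (nat_lit 0x1000000010000000000010001000100000001000100000000))) (.non (nat_lit 1) (nat_lit 5) (nat_lit 0x1114150) (nat_lit 0x1000000010000000100010000000000010001000100000000))) (.non (nat_lit 1) (nat_lit 4) (nat_lit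 0x1100040) (nat_lit 0x1000000010000000000000000000000000001000000000000))) (.non (nat_lit 1) (nat_lit 4) (nat_lit 0x1100050) (nat_lit 0x1000000010000000000000000000000000001000100000000))) (.non (nat_lit 2) (nat_lit 4) (nat_lit 0x1154005) (nat_lit 0x2000000010001000100020000000000000000000000030002))) (.non (nat_lit 1) (nat_lit 4) (nat_lit 0x1115451) (nat_lit 0x2000000030000000300060004000200000004000500000001)))) (.non (nat_lit 1) (nat_lit 4) (nat_lit 0x555450) (nat_lit 0x200030001000300060004000200000004000500000000)))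

noncomputable def t774_4 : Tr := (.ex (nat_lit 9) (.pd (.cons (nat_lit 3) (nat_lit 7) (nat_lit 0) (nat_lit 0xa0405440100) (nat_lit 0xf423ff423ff423f00000f423fb71ae1458100000f423f5459106711) .nil) (.ex (nat_lit 0xa) (.split (nat_lit 0xa) (nat_lit 3) (.pd (.cons (nat_lit 0) (nat_lit 7) (nat_lit 0) (nat_lit 0x39405442110) (nat_lit 0xf423ff423ff423f00000f423fb71ae14581b71aea2c280473700000) .nil) (.leaf (.cons (nat_lit 0x4014) (nat_lit 0x10000000000000000000100010000) .nil) .nil)) (.non (nat_lit 1) (nat_lit 4) (nat_lit 0x215050) (nat_lit 0x10000000100020001000000000002000200000000))) (.split (nat_lit 0xb) (nat_lit 0) (.split (nat_lit 0xb) (nat_lit 1) (.split (nat_lit 0xb) (nat_lit 2) (.split (nat_lit 0xb) (nat_lit 3) (.split (nat_lit 0xb) (nat_lit 4) (.split (nat_lit 0xb) (nat_lit 5) (.split (nat_lit 0xb) (nat_lit 6) (.split (nat_lit 0xb) (nat_lit 7) (.split (nat_lit 0xb) (nat_lit 8) (.split (nat_lit 0xb) (nat_lit 9) (.leaf (.cons (nat_lit 0x4014) (nat_lit 0x10000000000000000000100010000) (.cons (nat_lit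 0x500054) (nat_lit 0x100020000000000000000000000000003000400030000) .nil)) .nil) (.non (nat_lit 1) (nat_lit 4) (nat_lit 0x555450) (nat_lit 0x200030001000300060004000200000004000500000000))) (.non (nat_lit 1) (nat_lit 4) (nat_lit 0x514050) (nat_lit 0x100010000000100010000000000000001000100000000))) (.non (nat_lit 1) (nat_lit 4) (nat_lit 0x415010) (nat_lit 0x100000000000100020001000000000000000100000000))) (.non (nat_lit 1) (nat_lit 4) (nat_lit 0x415410) (nat_lit 0x100000000000100020002000100000000000100000000))) (.non (nat_lit 1) (nat_lit 4) (nat_lit 0x505450) (nat_lit 0x100010000000000010001000100000001000100000000))) (.non (nat_lit 1) (nat_lit 5) (nat_lit 0x514150) (nat_lit 0x100010000000100010000000000010001000100000000))) (.non (nat_lit 1) (nat_lit 4) (nat_lit 0x500040) (nat_lit 0x100010000000000000000000000000001000000000000))) (.non (nat_lit 1) (nat_lit 4) (nat_lit 0x500050) (nat_lit 0x100010000000000000000000000000001000100000000))) (.non (nat_lit 2) (nat_lit 4) (nat_lit 0x554005) (nat_lit 0x200010001000100020000000000000000000000030002)))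 (.non (nat_lit 1) (nat_lit 4) (nat_lit 0x515451) (nat_lit 0x200030000000300060004000200000004000500000001))))) (.split (nat_lit 0xb) (nat_lit 0) (.split (nat_lit 0xb) (nat_lit 1) (.split (nat_lit 0xb) (nat_lit 2) (.split (nat_lit 0xb) (nat_lit 3) (.split (nat_lit 0xb) (nat_lit 4) (.split (nat_lit 0xb) (nat_lit 5) (.split (nat_lit 0xb) (nat_lit 6) (.split (nat_lit 0xb) (nat_lit 7) (.split (nat_lit 0xb) (nat_lit 8) t774_3 (.non (nat_lit 1) (nat_lit 4) (nat_lit 0x555050) (nat_lit 0x200010001000300040002000000000002000300000000))) (.non (nat_lit 1) (nat_lit 4) (nat_lit 0x415010) (nat_lit 0x100000000000100020001000000000000000100000000))) (.non (nat_lit 1) (nat_lit 4) (nat_lit 0x415410) (nat_lit 0x100000000000100020002000100000000000100000000))) (.non (nat_lit 1) (nat_lit 4) (nat_lit 0x515450) (nat_lit 0x100010000000200040003000200000002000300000000))) (.non (nat_lit 1) (nat_lit 5) (nat_lit 0x515150) (nat_lit 0x100010000000300040002000000020002000300000000))) (.non (nat_lit 1) (nat_lit 4) (nat_lit 0x515050)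 (nat_lit 0x100010000000100020001000000000002000200000000))) (.non (nat_lit 1) (nat_lit 4) (nat_lit 0x554050) (nat_lit 0x200010001000100020000000000000002000300000000))) (.non (nat_lit 2) (nat_lit 4) (nat_lit 0x440005) (nat_lit 0x100000001000000000000000000000000000000010001))) (.non (nat_lit 1) (nat_lit 4) (nat_lit 0x440001) (nat_lit 0x100000001000000000000000000000000000000000001))))

noncomputable def t774_5 : Tr := (.ex (nat_lit 3) (.pd (.cons (nat_lit 0) (nat_lit 7) (nat_lit 0) (nat_lit 0x9405442110) (nat_lit 0xf423ff423f00000f423fb71ae14581f423fb71ae1f15600000) .nil) (.ex (nat_lit 9) (.pd (.cons (nat_lit 3) (nat_lit 7) (nat_lit 0) (nat_lit 0x405440100) (nat_lit 0xf423ff423f00000f423fb71ae1458100000f423f5459106711) .nil) (.leaf (.cons (nat_lit 0x4014) (nat_lit 0x10000000000000000000100010000) .nil) .nil)) (.split (nat_lit 0xa) (nat_lit 0) (.split (nat_lit 0xa) (nat_lit 1) (.split (nat_lit 0xa) (nat_lit 2) (.split (nat_lit 0xa) (nat_lit 3) (.split (nat_lit 0xa) (nat_lit 4) (.split (nat_lit 0xa)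 (nat_lit 5) (.split (nat_lit 0xa) (nat_lit 6) (.split (nat_lit 0xa) (nat_lit 7) (.split (nat_lit 0xa) (nat_lit 8) (.leaf (.cons (nat_lit 0x4014) (nat_lit 0x10000000000000000000100010000) (.cons (nat_lit 0x140015) (nat_lit 0x10002000000000000000000000000000300040003) .nil)) .nil) (.non (nat_lit 1) (nat_lit 4) (nat_lit 0x115450) (nat_lit 0x10000000200030002000100000001000200000000))) (.non (nat_lit 1) (nat_lit 4) (nat_lit 0x115010) (nat_lit 0x10000000100020001000000000000000100000000))) (.non (nat_lit 1) (nat_lit 4) (nat_lit 0x115410) (nat_lit 0x10000000100020002000100000000000100000000))) (.non (nat_lit 1) (nat_lit 4) (nat_lit 0x155451) (nat_lit 0x30002000300060005000400000002000400000001))) (.non (nat_lit 1) (nat_lit 5) (nat_lit 0x155151) (nat_lit 0x30002000500060003000000040002000400000001))) (.non (nat_lit 1) (nat_lit 4) (nat_lit 0x155451) (nat_lit 0x30002000300060004000200000004000500000001))) (.non (nat_lit 1) (nat_lit 4) (nat_lit 0x115050) (nat_lit 0x10000000100020001000000000001000200000000)))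 (.non (nat_lit 2) (nat_lit 4) (nat_lit 0x140005) (nat_lit 0x10001000000000000000000000000000000010001))) (.non (nat_lit 1) (nat_lit 4) (nat_lit 0x140001) (nat_lit 0x10001000000000000000000000000000000000001))))) (.split (nat_lit 0xa) (nat_lit 0) (.split (nat_lit 0xa) (nat_lit 1) (.split (nat_lit 0xa) (nat_lit 2) (.split (nat_lit 0xa) (nat_lit 4) (.split (nat_lit 0xa) (nat_lit 5) (.split (nat_lit 0xa) (nat_lit 6) (.split (nat_lit 0xa) (nat_lit 7) (.split (nat_lit 0xa) (nat_lit 8) (.split (nat_lit 0xa) (nat_lit 9) (.st (nat_lit 3) (nat_lit 1) (nat_lit 4) (nat_lit 0x115050) (nat_lit 0x10000000100020001000000000002000200000000) (nat_lit 1) (nat_lit 1) t774_4) (.non (nat_lit 1) (nat_lit 4) (nat_lit 0x155451) (nat_lit 0x30002000300060004000200000004000500000001))) (.non (nat_lit 1) (nat_lit 4) (nat_lit 0x114050) (nat_lit 0x10000000100010000000000000001000100000000))) (.non (nat_lit 1) (nat_lit 4) (nat_lit 0x115010) (nat_lit 0x10000000100020001000000000000000100000000))) (.non (nat_lit 1) (nat_lit 4) (nat_lit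 0x115410) (nat_lit 0x10000000100020002000100000000000100000000))) (.non (nat_lit 1) (nat_lit 4) (nat_lit 0x105450) (nat_lit 0x10000000000010001000100000001000100000000))) (.non (nat_lit 1) (nat_lit 5) (nat_lit 0x114150) (nat_lit 0x10000000100010000000000010001000100000000))) (.non (nat_lit 1) (nat_lit 4) (nat_lit 0x100050) (nat_lit 0x10000000000000000000000000001000100000000))) (.non (nat_lit 2) (nat_lit 4) (nat_lit 0x115005) (nat_lit 0x10000000100020001000000000000000000020001))) (.non (nat_lit 1) (nat_lit 4) (nat_lit 0x155451) (nat_lit 0x30001000300060004000200000004000500000002))))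

noncomputable def t774_6 : Tr := (.split (nat_lit 9) (nat_lit 6) (.split (nat_lit 9) (nat_lit 7) (.split (nat_lit 9) (nat_lit 8) (.split (nat_lit 9) (nat_lit 3) (.st (nat_lit 0) (nat_lit 2) (nat_lit 4) (nat_lit 0x55005) (nat_lit 0x1000100020001000000000000000000020002) (nat_lit 1) (nat_lit 1) (.st (nat_lit 4) (nat_lit 2) (nat_lit 5) (nat_lit 0x55105) (nat_lit 0x1000300040002000000020000000000030002) (nat_lit 1) (nat_lit 1) (.st (nat_lit 5) (nat_lit 2) (nat_lit 4) (nat_lit 0x55405) (nat_lit 0x1000200040003000200000000000000030002) (nat_lit 1) (nat_lit 1) (.split (nat_lit 7) (nat_lit 2) (.split (nat_lit 9) (nat_lit 0) (.split (nat_lit 7) (nat_lit 1) (.pd (.cons (nat_lit 1) (nat_lit 6) (nat_lit 0) (nat_lit 0x720482200) (nat_lit 0xf423f7a11c7a11a00000f423f7a11ef423f3d08700000b71ae) (.cons (nat_lit 1) (nat_lit 7) (nat_lit 0) (nat_lit 0x405442200) (nat_lit 0xf423ff423f00000f423fb71ae14581f423fb71ae00000b71ae) (.cons (nat_lit 1) (nat_lit 8) (nat_lit 0) (nat_lit 0x27652200) (nat_lit 0xf423f000007a11a7a11c7a11ef423ff423f3d08700000b71ae)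 (.cons (nat_lit 2) (nat_lit 6) (nat_lit 0) (nat_lit 0x710483000) (nat_lit 0xf423f7a11c7a11a00000f423f7a11ef423f000007a1183d085) (.cons (nat_lit 2) (nat_lit 7) (nat_lit 0) (nat_lit 0x405443000) (nat_lit 0xf423ff423f00000f423fb71ae14581f423f00000f423f7a11d) (.cons (nat_lit 2) (nat_lit 8) (nat_lit 0) (nat_lit 0x17653000) (nat_lit 0xf423f000007a11a7a11c7a11ef423ff423f000007a1183d085) .nil)))))) t774_5) (.non (nat_lit 2) (nat_lit 4) (nat_lit 0x2a004) (nat_lit 0x100020001000000000000000000020000))) (.non (nat_lit 2) (nat_lit 4) (nat_lit 0x95005) (nat_lit 0x1000100020001000000000000000000020002))) (.non (nat_lit 1) (nat_lit 4) (nat_lit 0x2a010) (nat_lit 0x100020001000000000000000200000000)))))) (.split (nat_lit 9) (nat_lit 0) (.split (nat_lit 9) (nat_lit 3) (.split (nat_lit 7) (nat_lit 1) (.split (nat_lit 7) (nat_lit 2) (.sup (nat_lit 0x500020005000800080000000000000000) (nat_lit 0x3000000000000000000000003000300030003)) (.non (nat_lit 1) (nat_lit 4) (nat_lit 0x2a010) (nat_lit 0x100020001000000000000000200000000)))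 (.non (nat_lit 2) (nat_lit 4) (nat_lit 0x2a004) (nat_lit 0x100020001000000000000000000020000))) (.non (nat_lit 1) (nat_lit 4) (nat_lit 0x95050) (nat_lit 0x1000100020001000000000002000200000000))) (.non (nat_lit 1) (nat_lit 4) (nat_lit 0xaa0a1) (nat_lit 0x2000100020001000000000002000200000002)))) (.non (nat_lit 1) (nat_lit 4) (nat_lit 0x55450) (nat_lit 0x1000200030002000100000001000200000000))) (.non (nat_lit 1) (nat_lit 4) (nat_lit 0x55010) (nat_lit 0x1000100020001000000000000000100000000))) (.non (nat_lit 1) (nat_lit 4) (nat_lit 0x55410) (nat_lit 0x1000100020002000100000000000100000000)))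

noncomputable def t774_7 : Tr := (.ex (nat_lit 0) (.ex (nat_lit 3) t774_1 (.split (nat_lit 9) (nat_lit 1) (.split (nat_lit 9) (nat_lit 2) (.split (nat_lit 9) (nat_lit 4) (.split (nat_lit 9) (nat_lit 5) (.split (nat_lit 9) (nat_lit 6) (.split (nat_lit 9) (nat_lit 7) (.split (nat_lit 9) (nat_lit 8) (.split (nat_lit 9) (nat_lit 0) (.st (nat_lit 3) (nat_lit 1) (nat_lit 4) (nat_lit 0x55050) (nat_lit 0x1000100020001000000000002000200000000) (nat_lit 1) (nat_lit 1) (.st (nat_lit 4) (nat_lit 1) (nat_lit 5) (nat_lit 0x55150) (nat_lit 0x1000300040002000000020002000300000000) (nat_lit 1) (nat_lit 1) (.st (nat_lit 5) (nat_lit 1) (nat_lit 4) (nat_lit 0x55450) (nat_lit 0x1000200040003000200000002000300000000) (nat_lit 1) (nat_lit 1) (.split (nat_lit 7) (nat_lit 2) (.split (nat_lit 9) (nat_lit 3) (.split (nat_lit 7) (nat_lit 1) t774_2 (.non (nat_lit 2) (nat_lit 4) (nat_lit 0x2a004) (nat_lit 0x100020001000000000000000000020000))) (.non (nat_lit 1) (nat_lit 4) (nat_lit 0x95050) (nat_lit 0x1000100020001000000000002000200000000)))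 (.non (nat_lit 1) (nat_lit 4) (nat_lit 0x2a010) (nat_lit 0x100020001000000000000000200000000)))))) (.split (nat_lit 9) (nat_lit 0) (.split (nat_lit 9) (nat_lit 3) (.split (nat_lit 7) (nat_lit 1) (.split (nat_lit 7) (nat_lit 2) (.sup (nat_lit 0x500020005000800080000000000000000) (nat_lit 0x3000000000000000000000003000300030003)) (.non (nat_lit 1) (nat_lit 4) (nat_lit 0x2a010) (nat_lit 0x100020001000000000000000200000000))) (.non (nat_lit 2) (nat_lit 4) (nat_lit 0x2a004) (nat_lit 0x100020001000000000000000000020000))) (.non (nat_lit 1) (nat_lit 4) (nat_lit 0x95050) (nat_lit 0x1000100020001000000000002000200000000))) (.non (nat_lit 1) (nat_lit 4) (nat_lit 0xaa0a1) (nat_lit 0x2000100020001000000000002000200000002)))) (.non (nat_lit 1) (nat_lit 4) (nat_lit 0x54050) (nat_lit 0x1000100010000000000000001000100000000))) (.non (nat_lit 1) (nat_lit 4) (nat_lit 0x55010) (nat_lit 0x1000100020001000000000000000100000000))) (.non (nat_lit 1) (nat_lit 4) (nat_lit 0x55410) (nat_lit 0x1000100020002000100000000000100000000)))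 (.non (nat_lit 1) (nat_lit 4) (nat_lit 0x45450) (nat_lit 0x1000000010001000100000001000100000000))) (.non (nat_lit 1) (nat_lit 5) (nat_lit 0x54150) (nat_lit 0x1000100010000000000010001000100000000))) (.non (nat_lit 1) (nat_lit 4) (nat_lit 0x40050) (nat_lit 0x1000000000000000000000001000100000000))) (.non (nat_lit 2) (nat_lit 4) (nat_lit 0x55005) (nat_lit 0x1000100020001000000000000000000020001)))) (.split (nat_lit 9) (nat_lit 1) (.split (nat_lit 9) (nat_lit 2) (.split (nat_lit 9) (nat_lit 4) (.split (nat_lit 9) (nat_lit 5) t774_6 (.non (nat_lit 2) (nat_lit 4) (nat_lit 0x45405) (nat_lit 0x1000000010001000100000000000000010001))) (.non (nat_lit 2) (nat_lit 5) (nat_lit 0x54105) (nat_lit 0x1000100010000000000010000000000010001))) (.non (nat_lit 1) (nat_lit 4) (nat_lit 0x55050) (nat_lit 0x1000100020001000000000001000200000000))) (.non (nat_lit 2) (nat_lit 4) (nat_lit 0x40005) (nat_lit 0x1000000000000000000000000000000010001))))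

noncomputable def t774_8 : Tr := (.split (nat_lit 7) (nat_lit 1) (.split (nat_lit 7) (nat_lit 2) (.split (nat_lit 7) (nat_lit 3) (.split (nat_lit 6) (nat_lit 0) (.split (nat_lit 6) (nat_lit 3) .uj (.sup (nat_lit 0x20009000a0005) (nat_lit 0x8000500030009000a0000000000000000))) (.split (nat_lit 6) (nat_lit 3) (.sup (nat_lit 0x5000a00090002) (nat_lit 0x8000500030009000a0000000000000000)) (.non (nat_lit 1) (nat_lit 4) (nat_lit 0x5441) (nat_lit 0x10002000100000001000000000001)))) (.split (nat_lit 6) (nat_lit 0) (.split (nat_lit 6) (nat_lit 3) (.sup (nat_lit 0x1000500050003) (nat_lit 0x300010003000500050000000000000000)) (.non (nat_lit 1) (nat_lit 4) (nat_lit 0x5040) (nat_lit 0x10001000000000001000000000000))) (.non (nat_lit 1) (nat_lit 4) (nat_lit 0x15441) (nat_lit 0x100020002000100000001000000000001)))) (.split (nat_lit 7) (nat_lit 3) (.split (nat_lit 6) (nat_lit 0) (.split (nat_lit 6) (nat_lit 3) (.split (nat_lit 7) (nat_lit 2) (.sup (nat_lit 0x50009000a0005) (nat_lit 0x600020006000a000a0000000000000000))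 (.non (nat_lit 1) (nat_lit 4) (nat_lit 0x2a010) (nat_lit 0x100020001000000000000000200000000))) (.non (nat_lit 1) (nat_lit 4) (nat_lit 0x5050) (nat_lit 0x10001000000000001000100000000))) (.non (nat_lit 1) (nat_lit 4) (nat_lit 0x15411) (nat_lit 0x100020002000100000000000100000001))) (.non (nat_lit 1) (nat_lit 4) (nat_lit 0x4050) (nat_lit 0x10000000000000001000100000000)))) (.split (nat_lit 7) (nat_lit 3) (.split (nat_lit 6) (nat_lit 0) (.split (nat_lit 6) (nat_lit 3) (.split (nat_lit 7) (nat_lit 2) (.split (nat_lit 7) (nat_lit 1) (.sup (nat_lit 0x5000a00090005) (nat_lit 0x600020006000a000a0000000000000000)) (.non (nat_lit 2) (nat_lit 4) (nat_lit 0x2a004) (nat_lit 0x100020001000000000000000000020000))) (.st (nat_lit 1) (nat_lit 2) (nat_lit 4) (nat_lit 0x15005) (nat_lit 0x100020001000000000000000000020001) (nat_lit 1) (nat_lit 1) (.st (nat_lit 2) (nat_lit 1) (nat_lit 4) (nat_lit 0x15050) (nat_lit 0x100020001000000000001000200000000) (nat_lit 1) (nat_lit 1) (.st (nat_lit 6) (nat_lit 1) (nat_lit 4) (nat_lit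 0x15410) (nat_lit 0x100020002000100000000000100000000) (nat_lit 1) (nat_lit 1) (.st (nat_lit 7) (nat_lit 1) (nat_lit 4) (nat_lit 0x15010) (nat_lit 0x100020001000000000000000100000000) (nat_lit 1) (nat_lit 1) (.st (nat_lit 8) (nat_lit 1) (nat_lit 4) (nat_lit 0x15450) (nat_lit 0x200030002000100000001000200000000) (nat_lit 1) (nat_lit 1) t774_7)))))) (.non (nat_lit 2) (nat_lit 4) (nat_lit 0x15444) (nat_lit 0x100020002000100000001000000010000))) (.non (nat_lit 2) (nat_lit 4) (nat_lit 0x5005) (nat_lit 0x10001000000000000000000010001))) (.non (nat_lit 2) (nat_lit 4) (nat_lit 0x15044) (nat_lit 0x100020001000000000001000000010000))))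

noncomputable def t774_9 : Tr := (.split (nat_lit 6) (nat_lit 3) (.split (nat_lit 6) (nat_lit 0) (.sup (nat_lit 0x20009000a0005) (nat_lit 0x300050008000a00090000000000000000)) (.st (nat_lit 0) (nat_lit 2) (nat_lit 4) (nat_lit 0x5405) (nat_lit 0x10002000100000000000000010002) (nat_lit 1) (nat_lit 1) (.st (nat_lit 1) (nat_lit 2) (nat_lit 4) (nat_lit 0x15445) (nat_lit 0x200030004000200000001000000020003) (nat_lit 1) (nat_lit 1) (.st (nat_lit 2) (nat_lit 1) (nat_lit 5) (nat_lit 0x15151) (nat_lit 0x400030002000000020003000200000001) (nat_lit 1) (nat_lit 1) (.st (nat_lit 3) (nat_lit 1) (nat_lit 4) (nat_lit 0x15451) (nat_lit 0x200020002000100000002000100000001) (nat_lit 1) (nat_lit 1) (.st (nat_lit 4) (nat_lit 1) (nat_lit 5) (nat_lit 0x15150) (nat_lit 0x300020001000000020002000100000000) (nat_lit 1) (nat_lit 1) (.st (nat_lit 5) (nat_lit 2) (nat_lit 4) (nat_lit 0x15405) (nat_lit 0x100020003000200000000000000010002) (nat_lit 1) (nat_lit 1) (.st (nat_lit 6) (nat_lit 1) (nat_lit 4) (nat_lit 0x5401) (nat_lit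 0x10002000100000000000000000001) (nat_lit 1) (nat_lit 1) (.st (nat_lit 7) (nat_lit 1) (nat_lit 4) (nat_lit 0x15401) (nat_lit 0x100020002000100000000000000000001) (nat_lit 1) (nat_lit 1) (.pd (.cons (nat_lit 0) (nat_lit 8) (nat_lit 0) (nat_lit 0x65442110) (nat_lit 0xf423fb71aea2c283d08bf423fb71ae1f15600000) .nil) (.st (nat_lit 8) (nat_lit 1) (nat_lit 4) (nat_lit 0x15441) (nat_lit 0x200020002000100000001000000000001) (nat_lit 1) (nat_lit 1) (.pd (.cons (nat_lit 3) (nat_lit 6) (nat_lit 0) (nat_lit 0x480440100) (nat_lit 0xb71aef423f00000f423f28b0700000f423f54591437a2) .nil) (.split (nat_lit 8) (nat_lit 3) (.split (nat_lit 6) (nat_lit 0) (.leaf (.cons (nat_lit 0x14054) (nat_lit 0x200010000000000000003000400030000) (.cons (nat_lit 0x12940) (nat_lit 0x200000001000200030001000000000000) (.cons (nat_lit 0x14940) (nat_lit 0x200010000000100020001000000000000) (.cons (nat_lit 0x5601) (nat_lit 0x10002000200010000000000000001) (.cons (nat_lit 0x5015) (nat_lit 0x10002000000000000000300040003) (.cons (nat_lit 0x21601)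 (nat_lit 0x100000002000300020000000000000001) .nil)))))) (.cons (nat_lit 0x111011101) (nat_lit 0x100010) (nat_lit 0xd) (nat_lit 0x45012306) (.cons (nat_lit 0x111101011) (nat_lit 0x10100) (nat_lit 0xd) (nat_lit 0x540106032) .nil))) (.non (nat_lit 1) (nat_lit 4) (nat_lit 0xa801) (nat_lit 0x10002000100000000000000000002))) (.non (nat_lit 1) (nat_lit 4) (nat_lit 0x2a050) (nat_lit 0x300020001000000000004000200000000))))))))))))))) (.non (nat_lit 1) (nat_lit 4) (nat_lit 0x15040) (nat_lit 0x100010001000000000001000000000000)))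

noncomputable def t774_10 : Tr := (.split (nat_lit 6) (nat_lit 0) (.split (nat_lit 6) (nat_lit 3) (.sup (nat_lit 0x5000a00090002) (nat_lit 0x300050008000a00090000000000000000)) (.st (nat_lit 0) (nat_lit 2) (nat_lit 4) (nat_lit 0x15445) (nat_lit 0x200020002000100000001000000010002) (nat_lit 1) (nat_lit 1) (.st (nat_lit 1) (nat_lit 2) (nat_lit 5) (nat_lit 0x15145) (nat_lit 0x400030002000000020001000000020003) (nat_lit 1) (nat_lit 1) (.st (nat_lit 2) (nat_lit 1) (nat_lit 4) (nat_lit 0x15451) (nat_lit 0x200030004000200000003000200000001) (nat_lit 1) (nat_lit 1) (.st (nat_lit 3) (nat_lit 1) (nat_lit 4) (nat_lit 0x5450) (nat_lit 0x10002000100000002000100000000) (nat_lit 1) (nat_lit 1) (.st (nat_lit 4) (nat_lit 2) (nat_lit 5) (nat_lit 0x15105) (nat_lit 0x300020001000000020000000000010002) (nat_lit 1) (nat_lit 1) (.st (nat_lit 5) (nat_lit 1) (nat_lit 4) (nat_lit 0x15450) (nat_lit 0x100020003000200000002000100000000) (nat_lit 1) (nat_lit 1) (.st (nat_lit 6) (nat_lit 1) (nat_lit 4) (nat_lit 0x5440) (nat_lit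 0x10002000100000001000000000000) (nat_lit 1) (nat_lit 1) (.st (nat_lit 7) (nat_lit 1) (nat_lit 4) (nat_lit 0x15440) (nat_lit 0x100020002000100000001000000000000) (nat_lit 1) (nat_lit 1) (.pd (.cons (nat_lit 3) (nat_lit 8) (nat_lit 0) (nat_lit 0x65440100) (nat_lit 0xf423fb71aea2c283d08b00000f423f54591437a2) .nil) (.st (nat_lit 8) (nat_lit 1) (nat_lit 4) (nat_lit 0x15441) (nat_lit 0x200020002000100000001000000000001) (nat_lit 1) (nat_lit 1) (.pd (.cons (nat_lit 0) (nat_lit 6) (nat_lit 0) (nat_lit 0x480442110) (nat_lit 0xb71aef423f00000f423f28b07f423fb71ae1f15600000) .nil) (.split (nat_lit 8) (nat_lit 0) (.split (nat_lit 6) (nat_lit 3) (.leaf (.cons (nat_lit 0x5054) (nat_lit 0x10002000000000003000400030000) (.cons (nat_lit 0x21640) (nat_lit 0x100000002000300020001000000000000) (.cons (nat_lit 0x14901) (nat_lit 0x200010000000100020000000000000001) (.cons (nat_lit 0x5640) (nat_lit 0x10002000200010001000000000000) (.cons (nat_lit 0x14015) (nat_lit 0x200010000000000000000000300040003) (.cons (nat_lit 0x12901)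 (nat_lit 0x200000001000200030000000000000001) .nil)))))) (.cons (nat_lit 0x111101101) (nat_lit 0x10010) (nat_lit 0xd) (nat_lit 0x540102306) (.cons (nat_lit 0x111011011) (nat_lit 0x100100) (nat_lit 0xd) (nat_lit 0x45016032) .nil))) (.non (nat_lit 1) (nat_lit 4) (nat_lit 0xa840) (nat_lit 0x10002000100000002000000000000))) (.non (nat_lit 1) (nat_lit 4) (nat_lit 0x2a881) (nat_lit 0x200020002000100000001000000000002))))))))))))))) (.non (nat_lit 1) (nat_lit 4) (nat_lit 0x15001) (nat_lit 0x100010001000000000000000000000001)))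

noncomputable def t774 : Tr := (.split (nat_lit 8) (nat_lit 0) (.split (nat_lit 8) (nat_lit 3) (.split (nat_lit 7) (nat_lit 0) t774_8 (.split (nat_lit 7) (nat_lit 1) (.split (nat_lit 7) (nat_lit 2) (.split (nat_lit 7) (nat_lit 3) (.split (nat_lit 6) (nat_lit 0) (.split (nat_lit 6) (nat_lit 3) (.sup (nat_lit 0x3000500050001) (nat_lit 0x300010003000500050000000000000000)) (.non (nat_lit 1) (nat_lit 4) (nat_lit 0x15441) (nat_lit 0x100020002000100000001000000000001))) (.non (nat_lit 1) (nat_lit 4) (nat_lit 0x5001) (nat_lit 0x10001000000000000000000000001))) (.non (nat_lit 1) (nat_lit 4) (nat_lit 0x15041) (nat_lit 0x100020001000000000001000000000001))) (.non (nat_lit 1) (nat_lit 4) (nat_lit 0x15011) (nat_lit 0x100020001000000000000000100000001))) (.non (nat_lit 2) (nat_lit 4) (nat_lit 0x4005) (nat_lit 0x10000000000000000000000010001)))) (.split (nat_lit 7) (nat_lit 0) (.split (nat_lit 7) (nat_lit 1) (.split (nat_lit 7) (nat_lit 2) (.split (nat_lit 7) (nat_lit 3) t774_9 (.non (nat_lit 1) (nat_lit 4) (nat_lit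 0x14040) (nat_lit 0x100010000000000000001000000000000))) (.non (nat_lit 1) (nat_lit 4) (nat_lit 0x14050) (nat_lit 0x100010000000000000001000100000000))) (.non (nat_lit 2) (nat_lit 4) (nat_lit 0x15445) (nat_lit 0x200030002000100000001000000020001))) (.non (nat_lit 1) (nat_lit 5) (nat_lit 0x15141) (nat_lit 0x200020001000000010001000000000001)))) (.split (nat_lit 8) (nat_lit 3) (.split (nat_lit 7) (nat_lit 0) (.split (nat_lit 7) (nat_lit 1) (.split (nat_lit 7) (nat_lit 2) (.split (nat_lit 7) (nat_lit 3) t774_10 (.non (nat_lit 1) (nat_lit 4) (nat_lit 0x15451) (nat_lit 0x200030002000100000002000100000001))) (.non (nat_lit 1) (nat_lit 4) (nat_lit 0x15451) (nat_lit 0x200030002000100000001000200000001))) (.non (nat_lit 2) (nat_lit 4) (nat_lit 0x14005) (nat_lit 0x100010000000000000000000000010001))) (.non (nat_lit 1) (nat_lit 4) (nat_lit 0x14001) (nat_lit 0x100010000000000000000000000000001))) (.non (nat_lit 1) (nat_lit 5) (nat_lit 0x14141) (nat_lit 0x200010000000000010001000000000001))))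

noncomputable def t795_1 : Tr := (.ex (nat_lit 0) (.split (nat_lit 7) (nat_lit 6) (.pd (.cons (nat_lit 2) (nat_lit 4) (nat_lit 0) (nat_lit 0x65503000) (nat_lit 0xf423f7a11e7a11c00000f423f00000f423f54591) (.cons (nat_lit 2) (nat_lit 5) (nat_lit 0x11000) (nat_lit 0x66034000) (nat_lit 0xf423f7a11e00000000010000100000f423f54591) (.cons (nat_lit 3) (nat_lit 4) (nat_lit 0) (nat_lit 0x65500100) (nat_lit 0xf423f7a11e7a11c0000000000f423fb71ae1f156) (.cons (nat_lit 3) (nat_lit 5) (nat_lit 0) (nat_lit 0x66040100) (nat_lit 0xf423f7a11e00000f423f00000f423fb71ae1f156) .nil)))) (.ex (nat_lit 5) (.split (nat_lit 4) (nat_lit 3) (.pd (.cons (nat_lit 2) (nat_lit 6) (nat_lit 0) (nat_lit 0x70433000) (nat_lit 0xf423f00000f423f54591437a200000f423f54591) (.cons (nat_lit 3) (nat_lit 6) (nat_lit 0) (nat_lit 0x70440100) (nat_lit 0xf423f00000f423f5459100000f423fb71ae1f156) (.cons (nat_lit 3) (nat_lit 7) (nat_lit 0) (nat_lit 0x5440100) (nat_lit 0xf423fb71ae1f15600000f423fb71ae1f156) .nil))) (.leaf (.cons (nat_lit 0x550) (nat_lit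 0x100010001000100000000) (.cons (nat_lit 0x1540) (nat_lit 0x1000200020001000000000000) .nil)) (.cons (nat_lit 0x11000) (nat_lit 0x100100) (nat_lit 0) (nat_lit 0x10000) .nil))) (.non (nat_lit 0) (nat_lit 5) (nat_lit 0x190) (nat_lit 0x10001000100000000))) (.split (nat_lit 8) (nat_lit 0) (.split (nat_lit 8) (nat_lit 1) (.split (nat_lit 8) (nat_lit 2) (.split (nat_lit 8) (nat_lit 3) (.split (nat_lit 8) (nat_lit 4) (.split (nat_lit 8) (nat_lit 6) (.split (nat_lit 8) (nat_lit 7) (.split (nat_lit 8) (nat_lit 5) (.split (nat_lit 4) (nat_lit 3) (.sup (nat_lit 0x200030004000400020000000000000000) (nat_lit 0x3000600080006)) (.non (nat_lit 0) (nat_lit 5) (nat_lit 0x190) (nat_lit 0x10001000100000000))) (.non (nat_lit 0) (nat_lit 4) (nat_lit 0x29400) (nat_lit 0x100010002000200000000000000000000))) (.non (nat_lit 0) (nat_lit 4) (nat_lit 0x15400) (nat_lit 0x100010001000100000000000000000000))) (.non (nat_lit 0) (nat_lit 4) (nat_lit 0x11400) (nat_lit 0x100000001000100000000000000000000))) (.non (nat_lit 0) (nat_lit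 5) (nat_lit 0x20294) (nat_lit 0x100000000000000020003000400020000))) (.non (nat_lit 0) (nat_lit 4) (nat_lit 0x26890) (nat_lit 0x100010001000100000001000100000000))) (.non (nat_lit 0) (nat_lit 4) (nat_lit 0x19490) (nat_lit 0x200010002000200000001000200000000))) (.star (nat_lit 8) (nat_lit 1) (nat_lit 5))) (.star (nat_lit 8) (nat_lit 0) (nat_lit 5))))) (.sup (nat_lit 0x30007000a0008) (nat_lit 0x8000a000700020000000000000000))) (.split (nat_lit 8) (nat_lit 1) (.split (nat_lit 8) (nat_lit 2) (.split (nat_lit 8) (nat_lit 3) (.split (nat_lit 8) (nat_lit 4) (.split (nat_lit 8) (nat_lit 5) (.split (nat_lit 8) (nat_lit 6) (.split (nat_lit 8) (nat_lit 7) (.unj (nat_lit 0x10015) (nat_lit 0x100000000000000000000000100020002) (nat_lit 0x5500) (nat_lit 0x10001000100010000000000000000)) (.non (nat_lit 1) (nat_lit 4) (nat_lit 0x16801) (nat_lit 0x200030002000100000000000000000001))) (.non (nat_lit 0) (nat_lit 4) (nat_lit 0x19400) (nat_lit 0x100010002000100000000000000000000))) (.star (nat_lit 8) (nat_lit 0) (nat_lit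 5))) (.star (nat_lit 8) (nat_lit 0) (nat_lit 4))) (.non (nat_lit 0) (nat_lit 5) (nat_lit 0x20290) (nat_lit 0x100000000000000010002000200000000))) (.non (nat_lit 0) (nat_lit 4) (nat_lit 0x10094) (nat_lit 0x100000000000000000001000200010000))) (.non (nat_lit 0) (nat_lit 5) (nat_lit 0x10294) (nat_lit 0x100000000000000010002000300020000))))

noncomputable def t795_2 : Tr := (.ex (nat_lit 1) (.ex (nat_lit 4) (.split (nat_lit 3) (nat_lit 2) (.split (nat_lit 7) (nat_lit 0) (.pd (.cons (nat_lit 0) (nat_lit 6) (nat_lit 0) (nat_lit 0x70442110) (nat_lit 0xf423f00000f423f54591f423f7a11e7a11c00000) (.cons (nat_lit 0) (nat_lit 7) (nat_lit 0) (nat_lit 0x5442110) (nat_lit 0xf423fb71ae1f156f423f7a11e7a11c00000) (.cons (nat_lit 1) (nat_lit 6) (nat_lit 0) (nat_lit 0x442200) (nat_lit 0xf423f00000f423f54591f423f7a11e00000b71ae) (.cons (nat_lit 1) (nat_lit 7) (nat_lit 0) (nat_lit 0x5442200) (nat_lit 0xf423fb71ae1f156f423f7a11e00000f423f) (.cons (nat_lit 2) (nat_lit 6) (nat_lit 0) (nat_lit 0x443000) (nat_lit 0xf423f00000f423f54591f423f00000f423f17500)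 (.cons (nat_lit 2) (nat_lit 7) (nat_lit 0) (nat_lit 0x5443000) (nat_lit 0xf423fb71ae1f156f423f00000f423f54591) (.cons (nat_lit 3) (nat_lit 7) (nat_lit 0) (nat_lit 0x5440100) (nat_lit 0xf423fb71ae1f15600000f423fb71ae1f156) .nil))))))) (.leaf (.cons (nat_lit 0x5005) (nat_lit 0x10001000000000000000000010001) (.cons (nat_lit 0x4015) (nat_lit 0x10000000000000000000100020002) .nil)) (.cons (nat_lit 0x10000001) (nat_lit 0x1000010) (nat_lit 0) (nat_lit 0x10000000) .nil))) (.non (nat_lit 1) (nat_lit 4) (nat_lit 0x9001) (nat_lit 0x10001000000000000000000000001))) (.sup (nat_lit 0x8000a00070002) (nat_lit 0x30007000a00080000000000000000))) (.split (nat_lit 8) (nat_lit 0) (.split (nat_lit 8) (nat_lit 1) (.split (nat_lit 8) (nat_lit 2) (.split (nat_lit 8) (nat_lit 3) (.split (nat_lit 8) (nat_lit 5) (.split (nat_lit 8) (nat_lit 6) (.split (nat_lit 8) (nat_lit 7) (.unj (nat_lit 0x55) (nat_lit 0x1000100010001) (nat_lit 0x11500) (nat_lit 0x100000001000200020000000000000000)) (.non (nat_lit 1) (nat_lit 4) (nat_lit 0x16001)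 (nat_lit 0x100020001000000000000000000000001))) (.non (nat_lit 0) (nat_lit 4) (nat_lit 0x19400) (nat_lit 0x100010002000100000000000000000000))) (.non (nat_lit 1) (nat_lit 4) (nat_lit 0x26801) (nat_lit 0x100040003000200000000000000000002))) (.non (nat_lit 0) (nat_lit 5) (nat_lit 0x20294) (nat_lit 0x200000000000000010003000400020000))) (.non (nat_lit 0) (nat_lit 4) (nat_lit 0x10094) (nat_lit 0x100000000000000000001000200010000))) (.star (nat_lit 8) (nat_lit 1) (nat_lit 4))) (.star (nat_lit 8) (nat_lit 0) (nat_lit 4)))) (.split (nat_lit 8) (nat_lit 0) (.split (nat_lit 8) (nat_lit 2) (.split (nat_lit 8) (nat_lit 3) (.split (nat_lit 8) (nat_lit 4) (.split (nat_lit 8) (nat_lit 5) (.split (nat_lit 8) (nat_lit 6) (.split (nat_lit 8) (nat_lit 7) (.split (nat_lit 8) (nat_lit 1) (.split (nat_lit 7) (nat_lit 0) (.sup (nat_lit 0x30006000800060000000000000000) (nat_lit 0x200000000000000000003000400040002)) (.non (nat_lit 1) (nat_lit 4) (nat_lit 0x9001) (nat_lit 0x10001000000000000000000000001))) (.non (nat_lit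 0) (nat_lit 4) (nat_lit 0x20094) (nat_lit 0x100000000000000000001000200020000))) (.non (nat_lit 0) (nat_lit 4) (nat_lit 0x16804) (nat_lit 0x200030002000100000000000000010000))) (.non (nat_lit 0) (nat_lit 4) (nat_lit 0x19400) (nat_lit 0x100010002000100000000000000000000))) (.star (nat_lit 8) (nat_lit 1) (nat_lit 5))) (.star (nat_lit 8) (nat_lit 1) (nat_lit 4))) (.non (nat_lit 0) (nat_lit 4) (nat_lit 0x10054) (nat_lit 0x100000000000000000001000100010000))) (.non (nat_lit 0) (nat_lit 4) (nat_lit 0x10014) (nat_lit 0x100000000000000000000000100010000))) (.non (nat_lit 1) (nat_lit 4) (nat_lit 0x16801) (nat_lit 0x100030002000100000000000000000002))))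

noncomputable def t795_3 : Tr := (.split (nat_lit 7) (nat_lit 0) (.split (nat_lit 4) (nat_lit 3) .uj (.st (nat_lit 1) (nat_lit 0) (nat_lit 5) (nat_lit 0x294) (nat_lit 0x10002000300020000) (nat_lit 1) (nat_lit 1) (.st (nat_lit 3) (nat_lit 0) (nat_lit 5) (nat_lit 0x290) (nat_lit 0x10002000200000000) (nat_lit 2) (nat_lit 1) (.st (nat_lit 4) (nat_lit 0) (nat_lit 5) (nat_lit 0x294) (nat_lit 0x20003000400020000) (nat_lit 2) (nat_lit 1) t795_1)))) (.split (nat_lit 4) (nat_lit 3) (.st (nat_lit 0) (nat_lit 1) (nat_lit 4) (nat_lit 0x6801) (nat_lit 0x30002000100000000000000000002) (nat_lit 1) (nat_lit 1) (.st (nat_lit 5) (nat_lit 1) (nat_lit 4) (nat_lit 0x6801) (nat_lit 0x40003000200000000000000000002) (nat_lit 2) (nat_lit 1) (.st (nat_lit 7) (nat_lit 1) (nat_lit 4) (nat_lit 0x6001) (nat_lit 0x20001000000000000000000000001) (nat_lit 1) (nat_lit 1) t795_2))) (.st (nat_lit 0) (nat_lit 1) (nat_lit 4) (nat_lit 0x6801) (nat_lit 0x30002000100000000000000000002) (nat_lit 1) (nat_lit 1) (.st (nat_lit 1) (nat_lit 0)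 (nat_lit 5) (nat_lit 0x294) (nat_lit 0x10002000300020000) (nat_lit 1) (nat_lit 1) (.st (nat_lit 3) (nat_lit 0) (nat_lit 5) (nat_lit 0x290) (nat_lit 0x10002000200000000) (nat_lit 2) (nat_lit 1) (.st (nat_lit 4) (nat_lit 0) (nat_lit 5) (nat_lit 0x294) (nat_lit 0x20003000400020000) (nat_lit 2) (nat_lit 1) (.st (nat_lit 5) (nat_lit 1) (nat_lit 4) (nat_lit 0x6801) (nat_lit 0x40003000200000000000000000002) (nat_lit 2) (nat_lit 1) (.pd (.cons (nat_lit 3) (nat_lit 7) (nat_lit 0) (nat_lit 0x5440100) (nat_lit 0xf423fb71ae1f15600000f423fb71ae1f156) .nil) (.st (nat_lit 7) (nat_lit 1) (nat_lit 4) (nat_lit 0x6001) (nat_lit 0x20001000000000000000000000001) (nat_lit 1) (nat_lit 1) (.split (nat_lit 7) (nat_lit 0) (.split (nat_lit 4) (nat_lit 3) (.pd (.cons (nat_lit 2) (nat_lit 6) (nat_lit 0) (nat_lit 0x433000) (nat_lit 0xf423f00000f423f54591437a200000f423f17500) .nil) (.split (nat_lit 3) (nat_lit 2) (.split (nat_lit 7) (nat_lit 6) (.leaf (.cons (nat_lit 0x550) (nat_lit 0x100010001000100000000) (.cons (nat_lit 0x5005)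 (nat_lit 0x10001000000000000000000010001) (.cons (nat_lit 0x1540) (nat_lit 0x1000200020001000000000000) (.cons (nat_lit 0x4015) (nat_lit 0x10000000000000000000100020002) .nil)))) (.cons (nat_lit 0x11110) (nat_lit 0x100001) (nat_lit 0xf) (nat_lit 0x32100) (.cons (nat_lit 0x11100001) (nat_lit 0x10010) (nat_lit 0xf) (nat_lit 0x12300000) .nil))) (.non (nat_lit 1) (nat_lit 4) (nat_lit 0x5401) (nat_lit 0x20002000100000000000000000001))) (.non (nat_lit 0) (nat_lit 5) (nat_lit 0x154) (nat_lit 0x10002000200010000)))) (.non (nat_lit 0) (nat_lit 5) (nat_lit 0x190) (nat_lit 0x10001000100000000))) (.non (nat_lit 1) (nat_lit 4) (nat_lit 0x9001) (nat_lit 0x10001000000000000000000000001))))))))))))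

noncomputable def t795 : Tr := (.split (nat_lit 7) (nat_lit 1) (.split (nat_lit 7) (nat_lit 3) (.split (nat_lit 5) (nat_lit 3) t795_3 (.non (nat_lit 0) (nat_lit 4) (nat_lit 0x6890) (nat_lit 0x10001000100000001000100000000))) (.non (nat_lit 0) (nat_lit 4) (nat_lit 0x9090) (nat_lit 0x10001000000000001000100000000))) (.non (nat_lit 0) (nat_lit 4) (nat_lit 0x6814) (nat_lit 0x30002000100000000000100020000)))

noncomputable def t801_1 : Tr := (.ex (nat_lit 6) (.pd (.cons (nat_lit 3) (nat_lit 7) (nat_lit 0) (nat_lit 0x5440100) (nat_lit 0xf423fb71ae1f15600000f423fb71ae1f156) .nil) (.ex (nat_lit 7) (.pd (.cons (nat_lit 3) (nat_lit 6) (nat_lit 0) (nat_lit 0x50440100) (nat_lit 0xf423f00000b71ae1f15600000f423fb71ae1f156) .nil) (.split (nat_lit 3) (nat_lit 2) (.split (nat_lit 4) (nat_lit 3) (.leaf (.cons (nat_lit 0x4540) (nat_lit 0x10000000200020001000000000000) (.cons (nat_lit 0x1540) (nat_lit 0x1000200020001000000000000) .nil)) (.cons (nat_lit 0x11100) (nat_lit 0x100010) (nat_lit 6) (nat_lit 0x21000) .nil))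 (.non (nat_lit 0) (nat_lit 5) (nat_lit 0x190) (nat_lit 0x10001000100000000))) (.non (nat_lit 0) (nat_lit 5) (nat_lit 0x154) (nat_lit 0x10002000200010000)))) (.split (nat_lit 8) (nat_lit 0) (.split (nat_lit 8) (nat_lit 1) (.split (nat_lit 8) (nat_lit 2) (.split (nat_lit 8) (nat_lit 3) (.split (nat_lit 8) (nat_lit 4) (.split (nat_lit 8) (nat_lit 5) (.split (nat_lit 8) (nat_lit 6) (.split (nat_lit 8) (nat_lit 7) (.split (nat_lit 4) (nat_lit 3) (.sup (nat_lit 0x200030003000500030000000000000000) (nat_lit 0x3000600080006)) (.non (nat_lit 0) (nat_lit 5) (nat_lit 0x190) (nat_lit 0x10001000100000000))) (.split (nat_lit 8) (nat_lit 7) (.split (nat_lit 4) (nat_lit 3) (.sup (nat_lit 0x300040002000400020000000000000000) (nat_lit 0x3000600080006)) (.non (nat_lit 0) (nat_lit 5) (nat_lit 0x190) (nat_lit 0x10001000100000000))) (.sup (nat_lit 0x30007000a0008) (nat_lit 0x8000a0000000700020000000000000000)))) (.non (nat_lit 0) (nat_lit 4) (nat_lit 0x15400) (nat_lit 0x100010001000100000000000000000000))) (.non (nat_lit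 0) (nat_lit 4) (nat_lit 0x14400) (nat_lit 0x100010000000100000000000000000000))) (.non (nat_lit 0) (nat_lit 5) (nat_lit 0x20294) (nat_lit 0x100000000000000020003000400020000))) (.non (nat_lit 0) (nat_lit 4) (nat_lit 0x28094) (nat_lit 0x200010000000000000003000400020000))) (.non (nat_lit 0) (nat_lit 4) (nat_lit 0x10094) (nat_lit 0x100000000000000000001000200010000))) (.non (nat_lit 0) (nat_lit 5) (nat_lit 0x10294) (nat_lit 0x100000000000000010002000300020000))) (.non (nat_lit 2) (nat_lit 4) (nat_lit 0x14405) (nat_lit 0x300020000000100000000000000030004))))) (.split (nat_lit 8) (nat_lit 0) (.split (nat_lit 8) (nat_lit 1) (.split (nat_lit 8) (nat_lit 2) (.split (nat_lit 8) (nat_lit 3) (.split (nat_lit 8) (nat_lit 4) (.split (nat_lit 8) (nat_lit 5) (.split (nat_lit 8) (nat_lit 7) (.split (nat_lit 8) (nat_lit 6) (.split (nat_lit 4) (nat_lit 3) (.sup (nat_lit 0x200030003000500030000000000000000) (nat_lit 0x3000600080006)) (.non (nat_lit 0) (nat_lit 5) (nat_lit 0x190) (nat_lit 0x10001000100000000))) (.split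 (nat_lit 8) (nat_lit 6) (.split (nat_lit 4) (nat_lit 3) (.sup (nat_lit 0x300020004000400020000000000000000) (nat_lit 0x3000600080006)) (.non (nat_lit 0) (nat_lit 5) (nat_lit 0x190) (nat_lit 0x10001000100000000))) (.sup (nat_lit 0x30007000a0008) (nat_lit 0x80000000a000700020000000000000000)))) (.non (nat_lit 0) (nat_lit 4) (nat_lit 0x15400) (nat_lit 0x100010001000100000000000000000000))) (.non (nat_lit 0) (nat_lit 4) (nat_lit 0x11400) (nat_lit 0x100000001000100000000000000000000))) (.non (nat_lit 0) (nat_lit 5) (nat_lit 0x20294) (nat_lit 0x100000000000000020003000400020000))) (.non (nat_lit 0) (nat_lit 4) (nat_lit 0x22094) (nat_lit 0x200000001000000000003000400020000))) (.non (nat_lit 0) (nat_lit 4) (nat_lit 0x10094) (nat_lit 0x100000000000000000001000200010000))) (.non (nat_lit 0) (nat_lit 5) (nat_lit 0x10294) (nat_lit 0x100000000000000010002000300020000))) (.non (nat_lit 2) (nat_lit 4) (nat_lit 0x11405) (nat_lit 0x300000002000100000000000000030004))))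

noncomputable def t801_2 : Tr := (.ex (nat_lit 0) (.pd (.cons (nat_lit 2) (nat_lit 4) (nat_lit 0) (nat_lit 0x55503000) (nat_lit 0xf423ff423f7a11d00000f423f00000f423f54591) (.cons (nat_lit 2) (nat_lit 5) (nat_lit 0x11000) (nat_lit 0x76034000) (nat_lit 0xf423ff423f00000000010000100000f423f54591) (.cons (nat_lit 3) (nat_lit 4) (nat_lit 0) (nat_lit 0x55500100) (nat_lit 0xf423ff423f7a11d0000000000f423fb71ae1f156) (.cons (nat_lit 3) (nat_lit 5) (nat_lit 0) (nat_lit 0x76040100) (nat_lit 0xf423ff423f00000f423f00000f423fb71ae1f156) .nil)))) (.ex (nat_lit 5) t801_1 (.split (nat_lit 8) (nat_lit 0) (.split (nat_lit 8) (nat_lit 1) (.split (nat_lit 8) (nat_lit 2) (.split (nat_lit 8) (nat_lit 3) (.split (nat_lit 8) (nat_lit 4) (.split (nat_lit 8) (nat_lit 6) (.split (nat_lit 8) (nat_lit 7) (.split (nat_lit 8) (nat_lit 5) (.split (nat_lit 4) (nat_lit 3) (.sup (nat_lit 0x200020002000400020000000000000000) (nat_lit 0x4000600080006)) (.non (nat_lit 0) (nat_lit 5) (nat_lit 0x190) (nat_lit 0x10001000100000000))) (.non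 (nat_lit 0) (nat_lit 4) (nat_lit 0x25400) (nat_lit 0x100010001000200000000000000000000))) (.non (nat_lit 0) (nat_lit 4) (nat_lit 0x14400) (nat_lit 0x100010000000100000000000000000000))) (.non (nat_lit 0) (nat_lit 4) (nat_lit 0x11400) (nat_lit 0x100000001000100000000000000000000))) (.non (nat_lit 0) (nat_lit 5) (nat_lit 0x20294) (nat_lit 0x100000000000000020003000400020000))) (.non (nat_lit 0) (nat_lit 4) (nat_lit 0x2a890) (nat_lit 0x200010001000200000002000200000000))) (.non (nat_lit 0) (nat_lit 4) (nat_lit 0x15490) (nat_lit 0x200010001000200000001000200000000))) (.star (nat_lit 8) (nat_lit 1) (nat_lit 5))) (.star (nat_lit 8) (nat_lit 0) (nat_lit 5))))) (.split (nat_lit 8) (nat_lit 1) (.split (nat_lit 8) (nat_lit 2) (.split (nat_lit 8) (nat_lit 3) (.split (nat_lit 8) (nat_lit 4) (.split (nat_lit 8) (nat_lit 5) (.split (nat_lit 8) (nat_lit 6) (.split (nat_lit 8) (nat_lit 7) (.unj (nat_lit 0x10015) (nat_lit 0x100000000000000000000000100020002) (nat_lit 0x5500) (nat_lit 0x10001000200020000000000000000))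 (.sup (nat_lit 0x2000000000000000000000005000a0009) (nat_lit 0x20005000a00080000000000000000))) (.split (nat_lit 8) (nat_lit 7) (.sup (nat_lit 0x2000000000000000000000005000a0009) (nat_lit 0x50002000a00080000000000000000)) (.non (nat_lit 0) (nat_lit 4) (nat_lit 0x15400) (nat_lit 0x100010001000100000000000000000000)))) (.star (nat_lit 8) (nat_lit 0) (nat_lit 5))) (.star (nat_lit 8) (nat_lit 0) (nat_lit 4))) (.non (nat_lit 0) (nat_lit 5) (nat_lit 0x20290) (nat_lit 0x100000000000000010002000200000000))) (.non (nat_lit 0) (nat_lit 4) (nat_lit 0x10094) (nat_lit 0x100000000000000000001000200010000))) (.non (nat_lit 0) (nat_lit 5) (nat_lit 0x10294) (nat_lit 0x100000000000000010002000300020000))))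

noncomputable def t801 : Tr := (.split (nat_lit 7) (nat_lit 3) (.split (nat_lit 6) (nat_lit 3) (.split (nat_lit 5) (nat_lit 3) (.split (nat_lit 4) (nat_lit 3) .uj (.st (nat_lit 1) (nat_lit 0) (nat_lit 5) (nat_lit 0x294) (nat_lit 0x10002000300020000) (nat_lit 1) (nat_lit 1) (.st (nat_lit 4) (nat_lit 0) (nat_lit 5) (nat_lit 0x294) (nat_lit 0x20003000400020000) (nat_lit 2) (nat_lit 1) (.st (nat_lit 3) (nat_lit 0) (nat_lit 5) (nat_lit 0x290) (nat_lit 0x10002000200000000) (nat_lit 2) (nat_lit 1) t801_2)))) (.non (nat_lit 0) (nat_lit 4) (nat_lit 0xa890) (nat_lit 0x10001000200000002000200000000))) (.non (nat_lit 0) (nat_lit 4) (nat_lit 0x2894) (nat_lit 0x2000100000003000400020000))) (.non (nat_lit 0) (nat_lit 4) (nat_lit 0x8894) (nat_lit 0x20000000100000003000400020000)))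

noncomputable def D11_36 : RL := (.cons (nat_lit 0x22222222222222222222222222222222222222222222222222222222222222222222222222222222222222222222222222222222222222222222222222222222222222222c22a22222222222c232a222222222222325a222222222222252a22222222222aaaa2c22222222222222c23222222222222223252222222222222252) (.split (nat_lit 7) (nat_lit 3) (.split (nat_lit 6) (nat_lit 3) (.split (nat_lit 5) (nat_lit 3) (.split (nat_lit 4) (nat_lit 3) .uj (.non (nat_lit 0) (nat_lit 6) (nat_lit 0x550) (nat_lit 0x100010001000100000000))) (.non (nat_lit 0) (nat_lit 6) (nat_lit 0x550) (nat_lit 0x100010001000100000000))) (.non (nat_lit 0) (nat_lit 5) (nat_lit 0x6090) (nat_lit 0x10001000000000001000100000000))) (.non (nat_lit 0) (nat_lit 5) (nat_lit 0x9090) (nat_lit 0x10001000000000001000100000000))) (.cons (nat_lit 0x22222222222222222222222222222222222222222222222222222222222222222222222222222222222222222222222222222222222222222222222222222222222222222c22a22222222222c232a2222222222223252222222222222252222222222222aa222c22222222222222c23222222222222223252222222222222252)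 (.split (nat_lit 7) (nat_lit 3) (.split (nat_lit 6) (nat_lit 3) .uj (.non (nat_lit 0) (nat_lit 5) (nat_lit 0x6090) (nat_lit 0x10001000000000001000100000000))) (.non (nat_lit 0) (nat_lit 5) (nat_lit 0x9090) (nat_lit 0x10001000000000001000100000000))) (.cons (nat_lit 0x22222222222222222222222222222222222222222222222222222222222222222222222222222222222222222222222222222222222222222222222222222222222222222c22a22222222222c232a2222222222223252222222222222252222222222222aa222c22222222222222c23222222222222223252222222222222252) (.split (nat_lit 6) (nat_lit 3) (.split (nat_lit 7) (nat_lit 3) .uj (.split (nat_lit 7) (nat_lit 3) (.sup (nat_lit 0x1000300050004) (nat_lit 0x10003000500040000000000000000)) (.non (nat_lit 0) (nat_lit 6) (nat_lit 0x4090) (nat_lit 0x10000000000000001000100000000)))) (.non (nat_lit 0) (nat_lit 7) (nat_lit 0x1550) (nat_lit 0x1000100010001000100000000))) (.cons (nat_lit 0x22222222222222222222222222222222222222222222222222222222222222222222222222222222222222222222222222222222222222222222222222222222222222222232a222222222222232a222222222223325a222222222222252a22222222222aaaa2c22222222222222c23222222222222223252222222222222252)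 t801 (.cons (nat_lit 0x22222222222222222222222222222222222222222222222222222222222222222222222222222222222222222222222222222222222222222222222222222222222222222232a2aa222222222232a2222222222233252222222222222252222222222222aa222c22222222222222c23222222222a222232522222222a2222252) (.split (nat_lit 7) (nat_lit 1) (.split (nat_lit 7) (nat_lit 3) (.split (nat_lit 6) (nat_lit 3) (.split (nat_lit 7) (nat_lit 0) .uj (.split (nat_lit 7) (nat_lit 0) (.sup (nat_lit 0x4000500050003) (nat_lit 0x10003000500040000000000000000)) (.non (nat_lit 1) (nat_lit 6) (nat_lit 0x4501) (nat_lit 0x10000000100010000000000000001)))) (.non (nat_lit 0) (nat_lit 4) (nat_lit 0x2894) (nat_lit 0x2000100000003000400020000))) (.non (nat_lit 0) (nat_lit 4) (nat_lit 0x8894) (nat_lit 0x20000000100000003000400020000))) (.non (nat_lit 0) (nat_lit 6) (nat_lit 0x4514) (nat_lit 0x30000000400030000000100020000))) (.cons (nat_lit 0x22222222222222222222222222222222222222222222222222222222222222222222222222222222222222222222222222222222222222222222222222222222222222222232a222222222222232a2222222222233252222222222222252222222222222aa222c22222222222222c23222222222222223252222222222222252)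 (.split (nat_lit 7) (nat_lit 3) (.split (nat_lit 6) (nat_lit 3) .uj (.sup (nat_lit 0x30007000a0008) (nat_lit 0x50002000a00080000000000000000))) (.non (nat_lit 0) (nat_lit 6) (nat_lit 0x4550) (nat_lit 0x10000000100010001000100000000))) (.cons (nat_lit 0x22222222222222222222222222222222222222222222222222222222222222222222222222222222222222222222222222222222222222222222222222222222222222222232a222222222222232a2222222222233252222222222222252222222222222aa222c22222222222222c23222222222222223252222222222222252) (.split (nat_lit 7) (nat_lit 3) (.split (nat_lit 6) (nat_lit 3) .uj (.non (nat_lit 0) (nat_lit 7) (nat_lit 0x1550) (nat_lit 0x1000100010001000100000000))) (.non (nat_lit 0) (nat_lit 6) (nat_lit 0x4550) (nat_lit 0x10000000100010001000100000000))) (.cons (nat_lit 0x22222222222222222222222222222222222222222222222222222222222222222222222222222222222222222222222222222222222222222222222222222222222222222b23a22222222222b232a22222222222232ca2222222222232c2a22222222222aaaa2c22222222222222c23222222222222223252222222222222252)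 (.split (nat_lit 7) (nat_lit 3) (.split (nat_lit 6) (nat_lit 3) (.split (nat_lit 5) (nat_lit 3) (.split (nat_lit 4) (nat_lit 3) .uj (.non (nat_lit 0) (nat_lit 5) (nat_lit 0x8294) (nat_lit 0x10000000000020003000400020000))) (.non (nat_lit 0) (nat_lit 4) (nat_lit 0x2894) (nat_lit 0x1000200000003000400020000))) (.non (nat_lit 0) (nat_lit 4) (nat_lit 0xa890) (nat_lit 0x10002000100000002000200000000))) (.non (nat_lit 0) (nat_lit 4) (nat_lit 0xa094) (nat_lit 0x20001000000000003000400020000))) (.cons (nat_lit 0x22222222222222222222222222222222222222222222222222222222222222222222222222222222222222222222222222222222222222222222222222222222222222222b23a22222222222b232a22222222222232ca2222222222232c2222222222222aaa22c22222222222222c23222222222222223252222222222222252) (.split (nat_lit 7) (nat_lit 3) (.split (nat_lit 6) (nat_lit 3) (.split (nat_lit 5) (nat_lit 3) .uj (.non (nat_lit 0) (nat_lit 4) (nat_lit 0x2894) (nat_lit 0x1000200000003000400020000))) (.non (nat_lit 0) (nat_lit 4) (nat_lit 0xa890) (nat_lit 0x10002000100000002000200000000)))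 (.non (nat_lit 0) (nat_lit 4) (nat_lit 0xa094) (nat_lit 0x20001000000000003000400020000))) (.cons (nat_lit 0x22222222222222222222222222222222222222222222222222222222222222222222222222222222222222222222222222222222222222222222222222222222222222222b23a22222222222b232a22222222222232c22222222222232c2a22222222222aa2a2c22222222222222c23222222222222223252222222222222252) (.split (nat_lit 7) (nat_lit 3) (.split (nat_lit 6) (nat_lit 3) (.split (nat_lit 4) (nat_lit 3) .uj (.non (nat_lit 0) (nat_lit 7) (nat_lit 0x690) (nat_lit 0x100010001000100000000))) (.non (nat_lit 0) (nat_lit 4) (nat_lit 0xa890) (nat_lit 0x10002000100000002000200000000))) (.non (nat_lit 0) (nat_lit 4) (nat_lit 0xa094) (nat_lit 0x20001000000000003000400020000))) (.cons (nat_lit 0x22222222222222222222222222222222222222222222222222222222222222222222222222222222222222222222222222222222222222222222222222222222222222222b23a22222222222b232a22222222222232c22222222222232c2222222222222aa222c22222222222222c23222222222222223252222222222222252) (.split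 (nat_lit 7) (nat_lit 3) (.split (nat_lit 6) (nat_lit 3) .uj (.non (nat_lit 0) (nat_lit 7) (nat_lit 0x2990) (nat_lit 0x1000100010001000100000000))) (.non (nat_lit 0) (nat_lit 6) (nat_lit 0x8690) (nat_lit 0x10000000100010001000100000000))) .nil)))))))))))

noncomputable def D11_24 : RL := (.skip (.skip (.skip (.skip (.skip (.skip (.skip (.skip (.skip (.cons (nat_lit 0x22222222222222222222222222222222222222222222222222222222222222222222222222222222222222222222222222222222222222222222222222222222222222222c22a2aa22222222c2322222222222222325a222222222222252a22222222222a2aa2c22222222222222c23222222222a222232522222222a2222252) t795 (.cons (nat_lit 0x22222222222222222222222222222222222222222222222222222222222222222222222222222222222222222222222222222222222222222222222222222222222222222c22a22222222222c2322222222222222325a222222222222252a22222222222a2aa2c22222222222222c23222222222222223252222222222222252) (.split (nat_lit 7) (nat_lit 3) (.split (nat_lit 5) (nat_lit 3) (.split (nat_lit 4) (nat_lit 3) .uj (.non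 (nat_lit 0) (nat_lit 6) (nat_lit 0x550) (nat_lit 0x100010001000100000000))) (.non (nat_lit 0) (nat_lit 4) (nat_lit 0x6890) (nat_lit 0x10001000100000001000100000000))) (.non (nat_lit 0) (nat_lit 4) (nat_lit 0x9090) (nat_lit 0x10001000000000001000100000000))) (.cons (nat_lit 0x22222222222222222222222222222222222222222222222222222222222222222222222222222222222222222222222222222222222222222222222222222222222222222c22a22222222222c23222222222222223252222222222222252222222222222a2222c22222222222222c23222222222222223252222222222222252) (.split (nat_lit 7) (nat_lit 3) .uj (.non (nat_lit 0) (nat_lit 4) (nat_lit 0x9090) (nat_lit 0x10001000000000001000100000000))) D11_36))))))))))))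

noncomputable def D11_12 : RL := (.cons (nat_lit 0x2222222222222222222222222222222222222222222222222222222222222222222222222222222222222222222222222222222222222222222222223223a22a222222232322aaaa222222223232a22a222222222324222222222223224222222222222aaa22232222222222a222325222222222a22225232222222aaa222232) t774 (.cons (nat_lit 0x22222222222222222222222222222222222222222222222222222222222222222222222222222222222222222222222222222222222222222222222232232222222222232322a22a22222222323222222222222223242222222222232242222222222222a22223222222222222223252222222222222252322222222a2222232) (.split (nat_lit 7) (nat_lit 0) (.split (nat_lit 7) (nat_lit 3) .uj (.sup (nat_lit 0x1000500050003) (nat_lit 0x300010003000500050000000000000000))) (.split (nat_lit 7) (nat_lit 3) (.sup (nat_lit 0x3000500050001) (nat_lit 0x300010003000500050000000000000000)) (.non (nat_lit 1) (nat_lit 4) (nat_lit 0x15041) (nat_lit 0x100020001000000000001000000000001)))) (.cons (nat_lit 0x2222222222222222222222222222222222222222222222222222222222222222222222222222222222222222222222222222222222222222222222223223222222222223232222222222222232322222222222222324222222222223224222222222222222222322222222222222325222222222222225232222222222222232)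 .uj (.cons (nat_lit 0x22222222222222222222222222222222222222222222222222222222222222222222222222222222222222222222222222222222222222222222222232232222222222232322a22a22222222323222222222222223242222222222232242222222222222a22223222222222222223252222222222222252322222222a2222232) (.split (nat_lit 7) (nat_lit 0) (.split (nat_lit 7) (nat_lit 3) .uj (.sup (nat_lit 0x1000500050003) (nat_lit 0x300010003000500050000000000000000))) (.split (nat_lit 7) (nat_lit 3) (.sup (nat_lit 0x3000500050001) (nat_lit 0x300010003000500050000000000000000)) (.non (nat_lit 1) (nat_lit 4) (nat_lit 0x15041) (nat_lit 0x100020001000000000001000000000001)))) (.cons (nat_lit 0x2222222222222222222222222222222222222222222222222222222222222222222222222222222222222222222222222222222222222222222222223223222222222223232222222222222232322222222222222324222222222223224222222222222222222322222222222222325222222222222225232222222222222232) .uj (.cons (nat_lit 0x22222222222222222222222222222222222222222222222222222222222222222222222222222222222222222222222222222222222222222222222232232222222222232322a22a22222222323222222222222223242222222222232242222222222222a22223222222222222223252222222222222252322222222a2222232)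 (.split (nat_lit 7) (nat_lit 0) (.split (nat_lit 7) (nat_lit 3) .uj (.sup (nat_lit 0x1000500050003) (nat_lit 0x300010003000500050000000000000000))) (.split (nat_lit 7) (nat_lit 3) (.sup (nat_lit 0x3000500050001) (nat_lit 0x300010003000500050000000000000000)) (.non (nat_lit 1) (nat_lit 6) (nat_lit 0x14941) (nat_lit 0x200020000000100020001000000000001)))) (.skip (.skip (.skip (.skip (.skip (.skip D11_24))))))))))))

noncomputable def D11 : RL := (.cons (nat_lit 0x222222222222222222222222222222222222222222222222222222222222222222222222222222222222222222222222222222222222222222222222b222a22a2222222b23222222222222223232a22a222222222325222222222222225222222222222a2a222322222222222222325222222222222225232222222a2a222232) t762 (.cons (nat_lit 0x222222222222222222222222222222222222222222222222222222222222222222222222222222222222222222222222222222222222222222222222b22222222222222b232222222222222232322222222222222325222222222222225222222222222222222322222222222222325222222222222225232222222222222232) .uj (.cons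 (nat_lit 0x222222222222222222222222222222222222222222222222222222222222222222222222222222222222222222222222222222222222222222222222b222a22a2222222b232222222222222232322222222222222325222222222222225222222222222a22222322222222222222325222222222222225232222222a22222232) t764 (.cons (nat_lit 0x222222222222222222222222222222222222222222222222222222222222222222222222222222222222222222222222222222222222222222222222b22222222222222b232222222222222232322222222222222325222222222222225222222222222222222322222222222222325222222222222225232222222222222232) .uj (.cons (nat_lit 0x222222222222222222222222222222222222222222222222222222222222222222222222222222222222222222222222222222222222222222222222b22222222222222b232222222222222232322222222222222325222222222222225222222222222222222322222222222222325222222222222225232222222222222232) .uj (.cons (nat_lit 0x2222222222222222222222222222222222222222222222222222222222222222222222222222222222222222222222222222222222222222222222222322aaaa222222222322aaaa2222222332322222222222222325222222222222225222222222222aa22223222222222aa22232522222222aa22225232222222aa2222232)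 t767 (.cons (nat_lit 0x2222222222222222222222222222222222222222222222222222222222222222222222222222222222222222222222222222222222222222222222222322a22a222222222322a22a2222222332322222222222222325a22a22222222225222222222222aa2a22322222222222222325222222222222225232222222aa2a22232) t768 (.cons (nat_lit 0x2222222222222222222222222222222222222222222222222222222222222222222222222222222222222222222222222222222222222222222222222322222222222222232222222222222332322222222222222325222222222222225222222222222222222322222222222222325222222222222225232222222222222232) .uj (.cons (nat_lit 0x2222222222222222222222222222222222222222222222222222222222222222222222222222222222222222222222222222222222222222222222222322a22a222222222322a22a22222223323222222222222223252222222222222252a22a2222222aa22a2322222222222222325222222222222225232222222aa22a2232) t770 (.cons (nat_lit 0x2222222222222222222222222222222222222222222222222222222222222222222222222222222222222222222222222222222222222222222222222322222222222222232222222222222332322222222222222325222222222222225222222222222222222322222222222222325222222222222225232222222222222232)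 .uj (.cons (nat_lit 0x2222222222222222222222222222222222222222222222222222222222222222222222222222222222222222222222222222222222222222222222222322222222222222232222222222222332322222222222222325222222222222225222222222222222222322222222222222325222222222222225232222222222222232) .uj (.cons (nat_lit 0x2222222222222222222222222222222222222222222222222222222222222222222222222222222222222222222222222222222222222222222222222322222222222222232222222222222332322222222222222325222222222222225222222222222222222322222222222222325222222222222225232222222222222232) .uj D11_12))))))))))))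

theorem cov_D11 : Cov 762 809 := by
  have h1 : rl D11 (nat_lit 762) = true := by decide +kernel
  have h2 : 762 + rlen D11 = 809 := by decide +kernel
  exact cov_of h1 h2

end MP86a502
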