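import Pool.Agent.Lib.MP_86a502_gt.U.Rlc
import Pool.Agent.Lib.MP_86a502_gt.U.D04

set_option autoImplicit false
set_option maxRecDepth 1000000
set_option linter.all false

/-! Certificates, numbers 1122 to 1138. -/

namespace MP86a502

noncomputable def t1122_1 : Tr := (.ex (nat_lit 4) (.split (nat_lit 7) (nat_lit 3) (.pd (.cons (nat_lit 0) (nat_lit 5) (nat_lit 0) (nat_lit 0x737041110) (nat_lit 0xf423f7a11df423f00000f423f7a11bf423f3d08800000) (.cons (nat_lit 0) (nat_lit 7) (nat_lit 0) (nat_lit 0x805441110) (nat_lit 0xf423f00000f423fb71ae1f156f423ff423f7a11d00000) (.cons (nat_lit 1) (nat_lit 5) (nat_lit 0) (nat_lit 0x737043200) (nat_lit 0xf423f7a11df423f00000f423f7a11bf423f00000f423f) (.cons (nat_lit 1) (nat_lit 7) (nat_lit 0) (nat_lit 0x805443200) (nat_lit 0xf423f00000f423fb71ae1f156f423ff423f00000f423f) (.cons (nat_lit 2) (nat_lit 7) (nat_lit 0) (nat_lit 0x805441000) (nat_lit 0xf423f00000f423fb71ae1f156f423f00000b71ae1f156) (.cons (nat_lit 3) (nat_lit 5) (nat_lit 0) (nat_lit 0x766040100) (nat_lit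 0xf423fb71aea2c2800000f423f00000f423fb71ae1f156) (.cons (nat_lit 3) (nat_lit 7) (nat_lit 0) (nat_lit 0x805440100) (nat_lit 0xf423f00000f423fb71ae1f15600000f423fb71ae1f156) (.cons (nat_lit 3) (nat_lit 8) (nat_lit 0) (nat_lit 0x65440100) (nat_lit 0xf423fb71aea2c280473700000f423fb71ae1f156) .nil)))))))) (.leaf (.cons (nat_lit 0x5540) (nat_lit 0x20003000400030001000000000000) (.cons (nat_lit 0x14045) (nat_lit 0x100020000000000000003000000040003) .nil)) (.cons (nat_lit 0x111001110) (nat_lit 0x100001) (nat_lit 9) (nat_lit 0x201003540) (.cons (nat_lit 0x110001110) (nat_lit 0x1000001) (nat_lit 3) (nat_lit 0x430002010) (.cons (nat_lit 0x111101000) (nat_lit 0x10010) (nat_lit 8) (nat_lit 0x203401000) (.cons (nat_lit 0x111001000) (nat_lit 0x100010) (nat_lit 7) (nat_lit 0x302001000) (.cons (nat_lit 0x110001000) (nat_lit 0x1000010) (nat_lit 1) (nat_lit 0x210000000) .nil))))))) (.non (nat_lit 0) (nat_lit 4) (nat_lit 0x2a040) (nat_lit 0x100020001000000000002000000000000))) (.split (nat_lit 9) (nat_lit 0) (.split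 (nat_lit 9) (nat_lit 1) (.split (nat_lit 9) (nat_lit 2) (.split (nat_lit 9) (nat_lit 3) (.split (nat_lit 9) (nat_lit 5) (.split (nat_lit 9) (nat_lit 6) (.split (nat_lit 9) (nat_lit 7) (.split (nat_lit 9) (nat_lit 8) (.unj (nat_lit 0x55) (nat_lit 0x1000100020002) (nat_lit 0x41500) (nat_lit 0x1000000000001000200020000000000000000)) (.non (nat_lit 0) (nat_lit 4) (nat_lit 0x55444) (nat_lit 0x1000200030002000100000002000000010000))) (.non (nat_lit 0) (nat_lit 4) (nat_lit 0x55040) (nat_lit 0x1000100020001000000000001000000000000))) (.non (nat_lit 0) (nat_lit 4) (nat_lit 0x55440) (nat_lit 0x1000100020002000100000001000000000000))) (.non (nat_lit 0) (nat_lit 4) (nat_lit 0x55454) (nat_lit 0x1000200040003000200000003000100020000))) (.non (nat_lit 0) (nat_lit 4) (nat_lit 0x55044) (nat_lit 0x1000100020001000000000002000000010000))) (.non (nat_lit 0) (nat_lit 6) (nat_lit 0x40514) (nat_lit 0x3000000000000000300040000000200010000))) (.star (nat_lit 9) (nat_lit 1) (nat_lit 4))) (.star (nat_lit 9) (nat_lit 0)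 (nat_lit 4))))

noncomputable def t1122_2 : Tr := (.ex (nat_lit 0) (.ex (nat_lit 2) (.split (nat_lit 8) (nat_lit 7) (.pd (.cons (nat_lit 3) (nat_lit 4) (nat_lit 0) (nat_lit 0x765500100) (nat_lit 0xf423fb71aea2c28989650000000000f423fb71ae1f156) (.cons (nat_lit 3) (nat_lit 6) (nat_lit 0) (nat_lit 0x770440100) (nat_lit 0xf423fb71ae00000f423f5459100000f423fb71ae1f156) .nil)) t1122_1) (.non (nat_lit 0) (nat_lit 4) (nat_lit 0x25040) (nat_lit 0x100020001000000000001000000000000))) (.split (nat_lit 9) (nat_lit 1) (.split (nat_lit 9) (nat_lit 3) (.split (nat_lit 9) (nat_lit 4) (.split (nat_lit 9) (nat_lit 5) (.split (nat_lit 9) (nat_lit 6) (.split (nat_lit 9) (nat_lit 7) (.split (nat_lit 9) (nat_lit 8) (.split (nat_lit 9) (nat_lit 0) (.sup (nat_lit 0x7000e00170020001a0000000000000000) (nat_lit 0x5000000000000000000000001000b0011000d)) (.unj (nat_lit 0x40015) (nat_lit 0x1000000000000000000000000000100010001) (nat_lit 0x15500) (nat_lit 0x100020003000400030000000000000000))) (.non (nat_lit 0) (nat_lit 4)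 (nat_lit 0x55444) (nat_lit 0x1000200030002000100000002000000010000))) (.non (nat_lit 0) (nat_lit 4) (nat_lit 0x55040) (nat_lit 0x1000100020001000000000001000000000000))) (.non (nat_lit 0) (nat_lit 4) (nat_lit 0x55440) (nat_lit 0x1000100020002000100000001000000000000))) (.non (nat_lit 0) (nat_lit 4) (nat_lit 0x45454) (nat_lit 0x1000000010001000100000001000100010000))) (.non (nat_lit 0) (nat_lit 6) (nat_lit 0x40514) (nat_lit 0x3000000000000000300040000000200010000))) (.non (nat_lit 0) (nat_lit 4) (nat_lit 0x55044) (nat_lit 0x1000100020001000000000002000000010000))) (.non (nat_lit 0) (nat_lit 4) (nat_lit 0x40014) (nat_lit 0x1000000000000000000000000000100010000)))) (.split (nat_lit 9) (nat_lit 1) (.split (nat_lit 9) (nat_lit 3) (.split (nat_lit 9) (nat_lit 4) (.split (nat_lit 9) (nat_lit 5) (.split (nat_lit 9) (nat_lit 6) (.split (nat_lit 9) (nat_lit 7) (.split (nat_lit 9) (nat_lit 8) (.split (nat_lit 9) (nat_lit 2) (.unj (nat_lit 0x40015) (nat_lit 0x1000000000000000000000000000100020002) (nat_lit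 0x15500) (nat_lit 0x100020003000400030000000000000000)) (.unj (nat_lit 0x40015) (nat_lit 0x1000000000000000000000000000100010001) (nat_lit 0x15500) (nat_lit 0x100020003000400030000000000000000))) (.non (nat_lit 0) (nat_lit 4) (nat_lit 0x55444) (nat_lit 0x1000200030002000100000002000000010000))) (.non (nat_lit 0) (nat_lit 4) (nat_lit 0x55040) (nat_lit 0x1000100020001000000000001000000000000))) (.star (nat_lit 9) (nat_lit 0) (nat_lit 6))) (.non (nat_lit 0) (nat_lit 4) (nat_lit 0x55454) (nat_lit 0x1000200040003000200000003000100020000))) (.star (nat_lit 9) (nat_lit 0) (nat_lit 4))) (.non (nat_lit 0) (nat_lit 4) (nat_lit 0x55044) (nat_lit 0x1000100020001000000000002000000010000))) (.non (nat_lit 0) (nat_lit 4) (nat_lit 0x55054) (nat_lit 0x1000100020001000000000002000100020000))))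

noncomputable def t1122_3 : Tr := (.ex (nat_lit 4) (.split (nat_lit 7) (nat_lit 2) (.pd (.cons (nat_lit 0) (nat_lit 5) (nat_lit 0) (nat_lit 0x727041110) (nat_lit 0xf423f7a11df423f00000f423ff423f7a11b3d08800000) (.cons (nat_lit 0) (nat_lit 7) (nat_lit 0) (nat_lit 0x805441110) (nat_lit 0xf423f00000f423fb71ae1f156f423ff423f7a11d00000) (.cons (nat_lit 1) (nat_lit 5) (nat_lit 0) (nat_lit 0x727043200) (nat_lit 0xf423f7a11df423f00000f423ff423f7a11b00000f423f) (.cons (nat_lit 1) (nat_lit 7) (nat_lit 0) (nat_lit 0x805443200) (nat_lit 0xf423f00000f423fb71ae1f156f423ff423f00000f423f) (.cons (nat_lit 2) (nat_lit 5) (nat_lit 0) (nat_lit 0x766041000) (nat_lit 0xf423fb71aea2c2800000f423ff423f00000b71ae1f156) (.cons (nat_lit 2) (nat_lit 7) (nat_lit 0) (nat_lit 0x805441000) (nat_lit 0xf423f00000f423fb71ae1f156f423f00000b71ae1f156) (.cons (nat_lit 2) (nat_lit 8) (nat_lit 0) (nat_lit 0x65441000) (nat_lit 0xf423fb71aea2c2804737f423f00000b71ae1f156) (.cons (nat_lit 3) (nat_lit 7) (nat_lit 0) (nat_lit 0x805440100)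 (nat_lit 0xf423f00000f423fb71ae1f15600000f423fb71ae1f156) .nil)))))))) (.leaf (.cons (nat_lit 0x5510) (nat_lit 0x20003000400030000000100000000) (.cons (nat_lit 0x14015) (nat_lit 0x100020000000000000000000300040003) .nil)) (.cons (nat_lit 0x111001110) (nat_lit 0x100001) (nat_lit 9) (nat_lit 0x201005340) (.cons (nat_lit 0x110001110) (nat_lit 0x1000001) (nat_lit 3) (nat_lit 0x430000210) (.cons (nat_lit 0x111100100) (nat_lit 0x10010) (nat_lit 8) (nat_lit 0x203400100) (.cons (nat_lit 0x111000100) (nat_lit 0x100010) (nat_lit 7) (nat_lit 0x302000100) (.cons (nat_lit 0x110000100) (nat_lit 0x1000010) (nat_lit 1) (nat_lit 0x210000000) .nil))))))) (.non (nat_lit 0) (nat_lit 4) (nat_lit 0x2a010) (nat_lit 0x100020001000000000000000200000000))) (.split (nat_lit 9) (nat_lit 0) (.split (nat_lit 9) (nat_lit 1) (.split (nat_lit 9) (nat_lit 2) (.split (nat_lit 9) (nat_lit 3) (.split (nat_lit 9) (nat_lit 5) (.split (nat_lit 9) (nat_lit 6) (.split (nat_lit 9) (nat_lit 7) (.split (nat_lit 9) (nat_lit 8) (.unj (nat_lit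 0x55) (nat_lit 0x1000100020002) (nat_lit 0x41500) (nat_lit 0x1000000000001000200020000000000000000)) (.non (nat_lit 0) (nat_lit 4) (nat_lit 0x55414) (nat_lit 0x1000200030002000100000000000200010000))) (.non (nat_lit 0) (nat_lit 4) (nat_lit 0x55010) (nat_lit 0x1000100020001000000000000000100000000))) (.non (nat_lit 0) (nat_lit 4) (nat_lit 0x55410) (nat_lit 0x1000100020002000100000000000100000000))) (.non (nat_lit 0) (nat_lit 4) (nat_lit 0x55454) (nat_lit 0x1000200040003000200000001000300020000))) (.non (nat_lit 0) (nat_lit 6) (nat_lit 0x40544) (nat_lit 0x3000000000000000300040002000000010000))) (.non (nat_lit 0) (nat_lit 4) (nat_lit 0x55014) (nat_lit 0x1000100020001000000000000000200010000))) (.star (nat_lit 9) (nat_lit 1) (nat_lit 4))) (.star (nat_lit 9) (nat_lit 0) (nat_lit 4))))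

noncomputable def t1122_4 : Tr := (.ex (nat_lit 0) (.ex (nat_lit 3) (.split (nat_lit 8) (nat_lit 7) (.pd (.cons (nat_lit 2) (nat_lit 4) (nat_lit 0) (nat_lit 0x765501000) (nat_lit 0xf423fb71aea2c289896500000f423f00000b71ae1f156) (.cons (nat_lit 2) (nat_lit 6) (nat_lit 0) (nat_lit 0x770441000) (nat_lit 0xf423fb71ae00000f423f54591f423f00000b71ae1f156) .nil)) t1122_3) (.non (nat_lit 0) (nat_lit 4) (nat_lit 0x25010) (nat_lit 0x100020001000000000000000100000000))) (.split (nat_lit 9) (nat_lit 1) (.split (nat_lit 9) (nat_lit 2) (.split (nat_lit 9) (nat_lit 4) (.split (nat_lit 9) (nat_lit 5) (.split (nat_lit 9) (nat_lit 6) (.split (nat_lit 9) (nat_lit 7) (.split (nat_lit 9) (nat_lit 8) (.split (nat_lit 9) (nat_lit 0) (.sup (nat_lit 0x7000e00170020001a0000000000000000) (nat_lit 0x500000000000000000000000b00010011000d)) (.unj (nat_lit 0x40045) (nat_lit 0x1000000000000000000000001000000010001) (nat_lit 0x15500) (nat_lit 0x100020003000400030000000000000000))) (.non (nat_lit 0) (nat_lit 4) (nat_lit 0x55414)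 (nat_lit 0x1000200030002000100000000000200010000))) (.non (nat_lit 0) (nat_lit 4) (nat_lit 0x55010) (nat_lit 0x1000100020001000000000000000100000000))) (.non (nat_lit 0) (nat_lit 4) (nat_lit 0x55410) (nat_lit 0x1000100020002000100000000000100000000))) (.non (nat_lit 0) (nat_lit 4) (nat_lit 0x45454) (nat_lit 0x1000000010001000100000001000100010000))) (.non (nat_lit 0) (nat_lit 6) (nat_lit 0x40544) (nat_lit 0x3000000000000000300040002000000010000))) (.non (nat_lit 0) (nat_lit 4) (nat_lit 0x55014) (nat_lit 0x1000100020001000000000000000200010000))) (.non (nat_lit 0) (nat_lit 4) (nat_lit 0x40044) (nat_lit 0x1000000000000000000000001000000010000)))) (.split (nat_lit 9) (nat_lit 1) (.split (nat_lit 9) (nat_lit 2) (.split (nat_lit 9) (nat_lit 4) (.split (nat_lit 9) (nat_lit 5) (.split (nat_lit 9) (nat_lit 6) (.split (nat_lit 9) (nat_lit 7) (.split (nat_lit 9) (nat_lit 8) (.split (nat_lit 9) (nat_lit 3) (.unj (nat_lit 0x40045) (nat_lit 0x1000000000000000000000001000000020002) (nat_lit 0x15500) (nat_lit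 0x100020003000400030000000000000000)) (.unj (nat_lit 0x40045) (nat_lit 0x1000000000000000000000001000000010001) (nat_lit 0x15500) (nat_lit 0x100020003000400030000000000000000))) (.non (nat_lit 0) (nat_lit 4) (nat_lit 0x55414) (nat_lit 0x1000200030002000100000000000200010000))) (.non (nat_lit 0) (nat_lit 4) (nat_lit 0x55010) (nat_lit 0x1000100020001000000000000000100000000))) (.star (nat_lit 9) (nat_lit 0) (nat_lit 6))) (.non (nat_lit 0) (nat_lit 4) (nat_lit 0x55454) (nat_lit 0x1000200040003000200000001000300020000))) (.star (nat_lit 9) (nat_lit 0) (nat_lit 4))) (.non (nat_lit 0) (nat_lit 4) (nat_lit 0x55014) (nat_lit 0x1000100020001000000000000000200010000))) (.non (nat_lit 0) (nat_lit 4) (nat_lit 0x55054) (nat_lit 0x1000100020001000000000001000200020000))))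

noncomputable def t1122_5 : Tr := (.split (nat_lit 8) (nat_lit 2) (.split (nat_lit 8) (nat_lit 3) (.split (nat_lit 7) (nat_lit 2) (.split (nat_lit 7) (nat_lit 3) .uj (.st (nat_lit 1) (nat_lit 0) (nat_lit 4) (nat_lit 0x15054) (nat_lit 0x100020001000000000002000100020000) (nat_lit 1) (nat_lit 1) (.st (nat_lit 3) (nat_lit 0) (nat_lit 4) (nat_lit 0x15044) (nat_lit 0x100020001000000000002000000010000) (nat_lit 1) (nat_lit 1) (.st (nat_lit 5) (nat_lit 0) (nat_lit 4) (nat_lit 0x15454) (nat_lit 0x200040003000200000003000100020000) (nat_lit 1) (nat_lit 1) (.st (nat_lit 6) (nat_lit 0) (nat_lit 4) (nat_lit 0x15440) (nat_lit 0x100020002000100000001000000000000) (nat_lit 1) (nat_lit 1) (.st (nat_lit 7) (nat_lit 0) (nat_lit 4) (nat_lit 0x15040) (nat_lit 0x100020001000000000001000000000000) (nat_lit 1) (nat_lit 1) (.st (nat_lit 8) (nat_lit 0) (nat_lit 4) (nat_lit 0x15444) (nat_lit 0x200030002000100000002000000010000) (nat_lit 1) (nat_lit 1) t1122_2))))))) (.split (nat_lit 7) (nat_lit 3) (.st (nat_lit 1) (nat_lit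 0) (nat_lit 4) (nat_lit 0x15054) (nat_lit 0x100020001000000000001000200020000) (nat_lit 1) (nat_lit 1) (.st (nat_lit 2) (nat_lit 0) (nat_lit 4) (nat_lit 0x15014) (nat_lit 0x100020001000000000000000200010000) (nat_lit 1) (nat_lit 1) (.st (nat_lit 5) (nat_lit 0) (nat_lit 4) (nat_lit 0x15454) (nat_lit 0x200040003000200000001000300020000) (nat_lit 1) (nat_lit 1) (.st (nat_lit 6) (nat_lit 0) (nat_lit 4) (nat_lit 0x15410) (nat_lit 0x100020002000100000000000100000000) (nat_lit 1) (nat_lit 1) (.st (nat_lit 7) (nat_lit 0) (nat_lit 4) (nat_lit 0x15010) (nat_lit 0x100020001000000000000000100000000) (nat_lit 1) (nat_lit 1) (.st (nat_lit 8) (nat_lit 0) (nat_lit 4) (nat_lit 0x15414) (nat_lit 0x200030002000100000000000200010000) (nat_lit 1) (nat_lit 1) t1122_4)))))) (.non (nat_lit 0) (nat_lit 4) (nat_lit 0x15050) (nat_lit 0x100020001000000000001000100000000)))) (.split (nat_lit 7) (nat_lit 2) (.split (nat_lit 7) (nat_lit 3) (.sup (nat_lit 0x20005000a0008) (nat_lit 0x100040007000a00080000000000000000)) (.non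 (nat_lit 0) (nat_lit 4) (nat_lit 0x14040) (nat_lit 0x100010000000000000001000000000000))) (.non (nat_lit 0) (nat_lit 4) (nat_lit 0x14054) (nat_lit 0x100010000000000000001000100010000)))) (.split (nat_lit 8) (nat_lit 3) (.split (nat_lit 7) (nat_lit 2) (.split (nat_lit 7) (nat_lit 3) (.sup (nat_lit 0x50002000a0008) (nat_lit 0x100040007000a00080000000000000000)) (.non (nat_lit 0) (nat_lit 4) (nat_lit 0x14054) (nat_lit 0x100010000000000000001000100010000))) (.non (nat_lit 0) (nat_lit 4) (nat_lit 0x14010) (nat_lit 0x100010000000000000000000100000000))) (.non (nat_lit 0) (nat_lit 4) (nat_lit 0x10054) (nat_lit 0x100000000000000000001000100010000))))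

noncomputable def t1122_6 : Tr := (.pd (.cons (nat_lit 0) (nat_lit 5) (nat_lit 0) (nat_lit 0x187041110) (nat_lit 0xa2c28b71aef423f00000f423ff423ff423f1e84300000) (.cons (nat_lit 1) (nat_lit 5) (nat_lit 0) (nat_lit 0x766043200) (nat_lit 0xf423fb71aea2c2800000f423ff423ff423f00000f423f) .nil)) (.ex (nat_lit 5) (.pd (.cons (nat_lit 0) (nat_lit 7) (nat_lit 0) (nat_lit 0x105441110) (nat_lit 0xf423f00000f423fb71ae1f156f423ff423f3d08c00000) (.cons (nat_lit 0) (nat_lit 8) (nat_lit 0) (nat_lit 0x65441110) (nat_lit 0xf423fb71aea2c2804737f423ff423f7a11d00000) (.cons (nat_lit 1) (nat_lit 7) (nat_lit 0) (nat_lit 0x805443200) (nat_lit 0xf423f00000f423fb71ae1f156f423ff423f00000f423f) (.cons (nat_lit 1) (nat_lit 8) (nat_lit 0) (nat_lit 0x65443200) (nat_lit 0xf423fb71aea2c2804737f423ff423f00000f423f) (.cons (nat_lit 2) (nat_lit 8) (nat_lit 0) (nat_lit 0x65441000) (nat_lit 0xf423fb71aea2c2804737f423f00000b71ae1f156) (.cons (nat_lit 3) (nat_lit 8) (nat_lit 0) (nat_lit 0x65440100) (nat_lit 0xf423fb71aea2c280473700000f423fb71ae1f156)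 .nil)))))) (.leaf (.cons (nat_lit 0x15005) (nat_lit 0x300020001000000000000000000040003) (.cons (nat_lit 0x10045) (nat_lit 0x100000000000000000001000000020002) (.cons (nat_lit 0x10015) (nat_lit 0x100000000000000000000000100020002) .nil))) (.cons (nat_lit 0x111101110) (nat_lit 0x10001) (nat_lit 0xa) (nat_lit 0x345602100) (.cons (nat_lit 0x111001110) (nat_lit 0x100001) (nat_lit 9) (nat_lit 0x345002100) (.cons (nat_lit 0x110001110) (nat_lit 0x1000001) (nat_lit 8) (nat_lit 0x340002100) (.cons (nat_lit 0x100001110) (nat_lit 0x10000001) (nat_lit 7) (nat_lit 0x300002100) .nil)))))) (.split (nat_lit 9) (nat_lit 1) (.split (nat_lit 9) (nat_lit 2) (.split (nat_lit 9) (nat_lit 3) (.split (nat_lit 9) (nat_lit 4) (.split (nat_lit 9) (nat_lit 6) (.split (nat_lit 9) (nat_lit 7) (.split (nat_lit 9) (nat_lit 8) (.split (nat_lit 9) (nat_lit 0) (.unj (nat_lit 0x55) (nat_lit 0x1000100020002) (nat_lit 0x41500) (nat_lit 0x1000000000001000200020000000000000000)) (.sup (nat_lit 0x3000000010004000800060000000000000000)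 (nat_lit 0x200000000000000000002000200050002))) (.non (nat_lit 0) (nat_lit 4) (nat_lit 0x55400) (nat_lit 0x1000100010001000100000000000000000000))) (.non (nat_lit 0) (nat_lit 4) (nat_lit 0x45400) (nat_lit 0x1000000010001000100000000000000000000))) (.non (nat_lit 0) (nat_lit 4) (nat_lit 0x41400) (nat_lit 0x1000000000001000100000000000000000000))) (.non (nat_lit 0) (nat_lit 6) (nat_lit 0x40500) (nat_lit 0x1000000000000000100010000000000000000))) (.non (nat_lit 0) (nat_lit 4) (nat_lit 0x55444) (nat_lit 0x1000100010001000100000001000000010000))) (.non (nat_lit 0) (nat_lit 4) (nat_lit 0x55414) (nat_lit 0x1000100010001000100000000000100010000))) (.non (nat_lit 0) (nat_lit 4) (nat_lit 0x55404) (nat_lit 0x1000100010001000100000000000000010000)))))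

noncomputable def t1122_7 : Tr := (.ex (nat_lit 3) (.ex (nat_lit 4) (.split (nat_lit 8) (nat_lit 1) (.split (nat_lit 8) (nat_lit 7) t1122_6 (.non (nat_lit 0) (nat_lit 4) (nat_lit 0x1a804) (nat_lit 0x400030002000100000000000000020000))) (.non (nat_lit 0) (nat_lit 4) (nat_lit 0x2a044) (nat_lit 0x300020001000000000002000000040000))) (.split (nat_lit 9) (nat_lit 0) (.split (nat_lit 9) (nat_lit 1) (.split (nat_lit 9) (nat_lit 2) (.split (nat_lit 9) (nat_lit 3) (.split (nat_lit 9) (nat_lit 5) (.split (nat_lit 9) (nat_lit 6) (.split (nat_lit 9) (nat_lit 7) (.split (nat_lit 9) (nat_lit 8) (.unj (nat_lit 0x55) (nat_lit 0x1000100020002) (nat_lit 0x41500) (nat_lit 0x1000000000001000200020000000000000000)) (.non (nat_lit 0) (nat_lit 4) (nat_lit 0x54054) (nat_lit 0x1000200010000000000000001000100020000))) (.non (nat_lit 0) (nat_lit 4) (nat_lit 0x55054) (nat_lit 0x1000200020001000000000001000100020000))) (.non (nat_lit 0) (nat_lit 4) (nat_lit 0x55454) (nat_lit 0x1000200020002000100000001000100020000))) (.non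 (nat_lit 0) (nat_lit 6) (nat_lit 0x40500) (nat_lit 0x1000000000000000100010000000000000000))) (.non (nat_lit 0) (nat_lit 6) (nat_lit 0x40544) (nat_lit 0x3000000000000000300040002000000010000))) (.non (nat_lit 0) (nat_lit 6) (nat_lit 0x40514) (nat_lit 0x3000000000000000300040000000200010000))) (.star (nat_lit 9) (nat_lit 1) (nat_lit 4))) (.star (nat_lit 9) (nat_lit 0) (nat_lit 4)))) (.split (nat_lit 9) (nat_lit 1) (.split (nat_lit 9) (nat_lit 2) (.split (nat_lit 9) (nat_lit 4) (.split (nat_lit 9) (nat_lit 5) (.split (nat_lit 9) (nat_lit 6) (.split (nat_lit 9) (nat_lit 7) (.split (nat_lit 9) (nat_lit 8) (.split (nat_lit 9) (nat_lit 0) (.split (nat_lit 9) (nat_lit 3) (.split (nat_lit 8) (nat_lit 1) (.sup (nat_lit 0x3000d00160020001a0000000000000000) (nat_lit 0x2000000000000000000000004000300070005)) (.non (nat_lit 0) (nat_lit 4) (nat_lit 0x68044) (nat_lit 0x1000200010000000000000002000000030000))) (.non (nat_lit 0) (nat_lit 4) (nat_lit 0x90054) (nat_lit 0x1000100000000000000000002000100020000)))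 (.sup (nat_lit 0x900000000000000000000000800000007000a) (nat_lit 0x100040007000a00080000000000000000))) (.non (nat_lit 0) (nat_lit 4) (nat_lit 0x50044) (nat_lit 0x1000100000000000000000001000000010000))) (.non (nat_lit 0) (nat_lit 4) (nat_lit 0x54044) (nat_lit 0x1000100010000000000000001000000010000))) (.non (nat_lit 0) (nat_lit 4) (nat_lit 0x55044) (nat_lit 0x1000100010001000000000001000000010000))) (.non (nat_lit 0) (nat_lit 4) (nat_lit 0x55444) (nat_lit 0x1000100010001000100000001000000010000))) (.non (nat_lit 0) (nat_lit 6) (nat_lit 0x40544) (nat_lit 0x3000000000000000300040002000000010000))) (.non (nat_lit 0) (nat_lit 4) (nat_lit 0x40054) (nat_lit 0x1000000000000000000000001000100010000))) (.non (nat_lit 0) (nat_lit 4) (nat_lit 0x40044) (nat_lit 0x1000000000000000000000001000000010000))))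

noncomputable def t1122_8 : Tr := (.ex (nat_lit 0) (.ex (nat_lit 2) t1122_7 (.split (nat_lit 9) (nat_lit 1) (.split (nat_lit 9) (nat_lit 3) (.split (nat_lit 9) (nat_lit 4) (.split (nat_lit 9) (nat_lit 5) (.split (nat_lit 9) (nat_lit 6) (.split (nat_lit 9) (nat_lit 7) (.split (nat_lit 9) (nat_lit 8) (.split (nat_lit 9) (nat_lit 0) (.split (nat_lit 9) (nat_lit 2) (.split (nat_lit 8) (nat_lit 1) (.sup (nat_lit 0x3000d00160020001a0000000000000000) (nat_lit 0x2000000000000000000000003000400070005)) (.non (nat_lit 0) (nat_lit 4) (nat_lit 0x2a044) (nat_lit 0x300020001000000000002000000040000))) (.non (nat_lit 0) (nat_lit 4) (nat_lit 0x90054) (nat_lit 0x1000100000000000000000001000200020000))) (.sup (nat_lit 0x900000000000000000000000000080007000a) (nat_lit 0x100040007000a00080000000000000000))) (.non (nat_lit 0) (nat_lit 4) (nat_lit 0x50014) (nat_lit 0x1000100000000000000000000000100010000))) (.non (nat_lit 0) (nat_lit 4) (nat_lit 0x54014) (nat_lit 0x1000100010000000000000000000100010000))) (.non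 (nat_lit 0) (nat_lit 4) (nat_lit 0x55014) (nat_lit 0x1000100010001000000000000000100010000))) (.non (nat_lit 0) (nat_lit 4) (nat_lit 0x55414) (nat_lit 0x1000100010001000100000000000100010000))) (.non (nat_lit 0) (nat_lit 6) (nat_lit 0x40514) (nat_lit 0x3000000000000000300040000000200010000))) (.non (nat_lit 0) (nat_lit 4) (nat_lit 0x40054) (nat_lit 0x1000000000000000000000001000100010000))) (.non (nat_lit 0) (nat_lit 4) (nat_lit 0x40014) (nat_lit 0x1000000000000000000000000000100010000)))) (.split (nat_lit 9) (nat_lit 1) (.split (nat_lit 9) (nat_lit 4) (.split (nat_lit 9) (nat_lit 6) (.split (nat_lit 9) (nat_lit 7) (.split (nat_lit 9) (nat_lit 8) (.split (nat_lit 9) (nat_lit 2) (.split (nat_lit 9) (nat_lit 3) (.split (nat_lit 9) (nat_lit 5) (.split (nat_lit 9) (nat_lit 0) (.split (nat_lit 8) (nat_lit 1) (.sup (nat_lit 0x20007000b0010000d0000000000000000) (nat_lit 0x1000000000000000000000001000100030003)) (.non (nat_lit 0) (nat_lit 4) (nat_lit 0x2a044) (nat_lit 0x300020001000000000002000000040000)))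 (.split (nat_lit 9) (nat_lit 0) (.split (nat_lit 8) (nat_lit 1) (.sup (nat_lit 0x700000000000000000000000000000006000a) (nat_lit 0x100040007000a00080000000000000000)) (.non (nat_lit 0) (nat_lit 4) (nat_lit 0x2a044) (nat_lit 0x300020001000000000002000000040000))) (.sup (nat_lit 0x800000000000000000000000000000004000a) (nat_lit 0x100040007000a00080000000000000000)))) (.sup (nat_lit 0x50000000300090010000c0000000000000000) (nat_lit 0x3000000000000000000050005000a0005))) (.split (nat_lit 9) (nat_lit 5) (.sup (nat_lit 0x900000000000000000000000800000007000a) (nat_lit 0x100040007000a00080000000000000000)) (.non (nat_lit 0) (nat_lit 4) (nat_lit 0x55444) (nat_lit 0x1000100010001000100000001000000010000)))) (.split (nat_lit 9) (nat_lit 3) (.split (nat_lit 9) (nat_lit 5) (.sup (nat_lit 0x900000000000000000000000000080007000a) (nat_lit 0x100040007000a00080000000000000000)) (.non (nat_lit 0) (nat_lit 4) (nat_lit 0x55414) (nat_lit 0x1000100010001000100000000000100010000))) (.non (nat_lit 0) (nat_lit 4) (nat_lit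 0x40054) (nat_lit 0x1000000000000000000000001000100010000)))) (.non (nat_lit 0) (nat_lit 4) (nat_lit 0x54054) (nat_lit 0x1000200010000000000000001000100020000))) (.non (nat_lit 0) (nat_lit 4) (nat_lit 0x55054) (nat_lit 0x1000200020001000000000001000100020000))) (.star (nat_lit 9) (nat_lit 0) (nat_lit 6))) (.star (nat_lit 9) (nat_lit 0) (nat_lit 4))) (.non (nat_lit 0) (nat_lit 4) (nat_lit 0x50054) (nat_lit 0x1000100000000000000000001000100020000))))

noncomputable def t1122_9 : Tr := (.split (nat_lit 8) (nat_lit 0) (.pd (.cons (nat_lit 0) (nat_lit 5) (nat_lit 0) (nat_lit 0x766041110) (nat_lit 0xf423fb71aea2c2800000f423ff423ff423f7a11d00000) (.cons (nat_lit 1) (nat_lit 5) (nat_lit 0) (nat_lit 0x87043200) (nat_lit 0xa2c28b71aef423f00000f423ff423ff423f000003d08b) .nil)) (.ex (nat_lit 5) (.pd (.cons (nat_lit 0) (nat_lit 7) (nat_lit 0) (nat_lit 0x805441110) (nat_lit 0xf423f00000f423fb71ae1f156f423ff423f7a11d00000) (.cons (nat_lit 0) (nat_lit 8) (nat_lit 0) (nat_lit 0x65441110) (nat_lit 0xf423fb71aea2c2804737f423ff423f7a11d00000)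 (.cons (nat_lit 1) (nat_lit 7) (nat_lit 0) (nat_lit 0x5443200) (nat_lit 0xf423f00000f423fb71ae1f156f423ff423f000007a11e) (.cons (nat_lit 1) (nat_lit 8) (nat_lit 0) (nat_lit 0x65443200) (nat_lit 0xf423fb71aea2c2804737f423ff423f00000f423f) (.cons (nat_lit 2) (nat_lit 8) (nat_lit 0) (nat_lit 0x65441000) (nat_lit 0xf423fb71aea2c2804737f423f00000b71ae1f156) (.cons (nat_lit 3) (nat_lit 8) (nat_lit 0) (nat_lit 0x65440100) (nat_lit 0xf423fb71aea2c280473700000f423fb71ae1f156) .nil)))))) (.leaf (.cons (nat_lit 0x10005) (nat_lit 0x100000000000000000000000000010001) .nil) (.cons (nat_lit 0x110000001) (nat_lit 0x1000010) (nat_lit 6) (nat_lit 0x120000000) .nil))) (.split (nat_lit 9) (nat_lit 0) (.split (nat_lit 9) (nat_lit 1) (.split (nat_lit 9) (nat_lit 2) (.split (nat_lit 9) (nat_lit 3) (.split (nat_lit 9) (nat_lit 4) (.split (nat_lit 9) (nat_lit 6) (.split (nat_lit 9) (nat_lit 7) (.split (nat_lit 9) (nat_lit 8) (.unj (nat_lit 0x10005) (nat_lit 0x100000000000000000000000000010001) (nat_lit 0x41500) (nat_lit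 0x1000000000001000200020000000000000000)) (.non (nat_lit 0) (nat_lit 4) (nat_lit 0x55400) (nat_lit 0x1000100010001000100000000000000000000))) (.non (nat_lit 0) (nat_lit 4) (nat_lit 0x45400) (nat_lit 0x1000000010001000100000000000000000000))) (.non (nat_lit 0) (nat_lit 4) (nat_lit 0x41400) (nat_lit 0x1000000000001000100000000000000000000))) (.non (nat_lit 0) (nat_lit 6) (nat_lit 0x40500) (nat_lit 0x1000000000000000100010000000000000000))) (.non (nat_lit 0) (nat_lit 6) (nat_lit 0x40544) (nat_lit 0x3000000000000000400030002000000010000))) (.non (nat_lit 0) (nat_lit 6) (nat_lit 0x40514) (nat_lit 0x3000000000000000400030000000200010000))) (.non (nat_lit 0) (nat_lit 6) (nat_lit 0x40544) (nat_lit 0x3000000000000000400030001000000020000))) (.non (nat_lit 1) (nat_lit 4) (nat_lit 0x6a001) (nat_lit 0x2000300020001000000000000000000000004))))) (.non (nat_lit 1) (nat_lit 4) (nat_lit 0x15401) (nat_lit 0x400030002000100000000000000000003)))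

noncomputable def t1122_10 : Tr := (.ex (nat_lit 3) (.ex (nat_lit 4) (.split (nat_lit 8) (nat_lit 7) t1122_9 (.non (nat_lit 1) (nat_lit 4) (nat_lit 0x24001) (nat_lit 0x100010000000000000000000000000001))) (.split (nat_lit 9) (nat_lit 0) (.split (nat_lit 9) (nat_lit 1) (.split (nat_lit 9) (nat_lit 2) (.split (nat_lit 9) (nat_lit 3) (.split (nat_lit 9) (nat_lit 5) (.split (nat_lit 9) (nat_lit 6) (.split (nat_lit 9) (nat_lit 7) (.split (nat_lit 9) (nat_lit 8) (.unj (nat_lit 0x10005) (nat_lit 0x100000000000000000000000000010001) (nat_lit 0x41500) (nat_lit 0x1000000000001000200020000000000000000)) (.non (nat_lit 0) (nat_lit 6) (nat_lit 0x54500) (nat_lit 0x3000200010000000300040000000000000000))) (.non (nat_lit 0) (nat_lit 6) (nat_lit 0x54500) (nat_lit 0x3000100020000000300040000000000000000))) (.non (nat_lit 1) (nat_lit 4) (nat_lit 0xaa801) (nat_lit 0x1000200020002000100000000000000000002))) (.non (nat_lit 0) (nat_lit 6) (nat_lit 0x40500) (nat_lit 0x1000000000000000100010000000000000000))) (.non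 (nat_lit 0) (nat_lit 6) (nat_lit 0x40544) (nat_lit 0x3000000000000000300040002000000010000))) (.non (nat_lit 0) (nat_lit 6) (nat_lit 0x40514) (nat_lit 0x3000000000000000300040000000200010000))) (.star (nat_lit 9) (nat_lit 1) (nat_lit 4))) (.star (nat_lit 9) (nat_lit 0) (nat_lit 4)))) (.split (nat_lit 9) (nat_lit 0) (.split (nat_lit 9) (nat_lit 1) (.split (nat_lit 9) (nat_lit 2) (.split (nat_lit 9) (nat_lit 4) (.split (nat_lit 9) (nat_lit 5) (.split (nat_lit 9) (nat_lit 6) (.split (nat_lit 9) (nat_lit 7) (.split (nat_lit 9) (nat_lit 8) (.split (nat_lit 9) (nat_lit 3) (.split (nat_lit 8) (nat_lit 0) (.sup (nat_lit 0x20006000b0010000d0000000000000000) (nat_lit 0x1000000000000000000000003000200040002)) (.non (nat_lit 1) (nat_lit 4) (nat_lit 0x15401) (nat_lit 0x400030002000100000000000000000003))) (.sup (nat_lit 0x30007000b0010000d0000000000000000) (nat_lit 0x3000000000000000000000004000200040001))) (.non (nat_lit 1) (nat_lit 4) (nat_lit 0xa8001) (nat_lit 0x1000200010000000000000000000000000002)))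 (.non (nat_lit 1) (nat_lit 4) (nat_lit 0xaa001) (nat_lit 0x1000200020001000000000000000000000002))) (.non (nat_lit 1) (nat_lit 4) (nat_lit 0xaa801) (nat_lit 0x1000200020002000100000000000000000002))) (.non (nat_lit 0) (nat_lit 6) (nat_lit 0x40544) (nat_lit 0x3000000000000000400030002000000010000))) (.non (nat_lit 0) (nat_lit 6) (nat_lit 0x40544) (nat_lit 0x3000000000000000300040002000000010000))) (.non (nat_lit 0) (nat_lit 4) (nat_lit 0x40054) (nat_lit 0x1000000000000000000000001000100010000))) (.non (nat_lit 0) (nat_lit 4) (nat_lit 0x40044) (nat_lit 0x1000000000000000000000001000000010000))) (.non (nat_lit 1) (nat_lit 4) (nat_lit 0x6a001) (nat_lit 0x2000300020001000000000000000000000004))))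

noncomputable def t1122_11 : Tr := (.ex (nat_lit 1) (.ex (nat_lit 2) t1122_10 (.split (nat_lit 9) (nat_lit 0) (.split (nat_lit 9) (nat_lit 1) (.split (nat_lit 9) (nat_lit 3) (.split (nat_lit 9) (nat_lit 4) (.split (nat_lit 9) (nat_lit 5) (.split (nat_lit 9) (nat_lit 6) (.split (nat_lit 9) (nat_lit 7) (.split (nat_lit 9) (nat_lit 8) (.split (nat_lit 9) (nat_lit 2) (.split (nat_lit 8) (nat_lit 0) (.sup (nat_lit 0x20006000b0010000d0000000000000000) (nat_lit 0x1000000000000000000000002000300040002)) (.non (nat_lit 1) (nat_lit 4) (nat_lit 0x15401) (nat_lit 0x400030002000100000000000000000003))) (.sup (nat_lit 0x30007000b0010000d0000000000000000) (nat_lit 0x3000000000000000000000002000400040001))) (.non (nat_lit 1) (nat_lit 4) (nat_lit 0xa8001) (nat_lit 0x1000200010000000000000000000000000002))) (.non (nat_lit 1) (nat_lit 4) (nat_lit 0xaa001) (nat_lit 0x1000200020001000000000000000000000002))) (.non (nat_lit 1) (nat_lit 4) (nat_lit 0xaa801) (nat_lit 0x1000200020002000100000000000000000002))) (.non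 (nat_lit 0) (nat_lit 6) (nat_lit 0x40514) (nat_lit 0x3000000000000000400030000000200010000))) (.non (nat_lit 0) (nat_lit 6) (nat_lit 0x40514) (nat_lit 0x3000000000000000300040000000200010000))) (.non (nat_lit 0) (nat_lit 4) (nat_lit 0x40054) (nat_lit 0x1000000000000000000000001000100010000))) (.non (nat_lit 0) (nat_lit 4) (nat_lit 0x40014) (nat_lit 0x1000000000000000000000000000100010000))) (.non (nat_lit 1) (nat_lit 4) (nat_lit 0x6a001) (nat_lit 0x2000300020001000000000000000000000004)))) (.split (nat_lit 9) (nat_lit 0) (.split (nat_lit 9) (nat_lit 2) (.split (nat_lit 9) (nat_lit 3) (.split (nat_lit 9) (nat_lit 4) (.split (nat_lit 9) (nat_lit 5) (.split (nat_lit 9) (nat_lit 6) (.split (nat_lit 9) (nat_lit 7) (.split (nat_lit 9) (nat_lit 8) (.sup (nat_lit 0x30007000b0010000d0000000000000000) (nat_lit 0x2000000000000000000000002000200040001)) (.non (nat_lit 1) (nat_lit 4) (nat_lit 0xa8001) (nat_lit 0x1000200010000000000000000000000000002))) (.non (nat_lit 0) (nat_lit 4) (nat_lit 0x55054) (nat_lit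 0x2000100020001000000000001000100020000))) (.star (nat_lit 9) (nat_lit 1) (nat_lit 6))) (.non (nat_lit 0) (nat_lit 6) (nat_lit 0x40544) (nat_lit 0x3000000000000000400030001000000020000))) (.star (nat_lit 9) (nat_lit 1) (nat_lit 4))) (.non (nat_lit 0) (nat_lit 4) (nat_lit 0x40044) (nat_lit 0x1000000000000000000000001000000010000))) (.non (nat_lit 0) (nat_lit 4) (nat_lit 0x40014) (nat_lit 0x1000000000000000000000000000100010000))) (.non (nat_lit 1) (nat_lit 4) (nat_lit 0x6a001) (nat_lit 0x2000300020001000000000000000000000004))))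

noncomputable def t1122_12 : Tr := (.ex (nat_lit 4) (.split (nat_lit 9) (nat_lit 2) (.split (nat_lit 7) (nat_lit 3) (.split (nat_lit 8) (nat_lit 7) (.split (nat_lit 8) (nat_lit 0) (.pd (.cons (nat_lit 0) (nat_lit 5) (nat_lit 0) (nat_lit 0x2737041110) (nat_lit 0xf423ff423f7a11df423f00000f423f7a11bb71ae28b0200000) (.cons (nat_lit 0) (nat_lit 7) (nat_lit 0) (nat_lit 0x2805441110) (nat_lit 0xf423ff423f00000f423fb71ae1f156f423fb71ae65b9700000) (.cons (nat_lit 1) (nat_lit 5) (nat_lit 0) (nat_lit 0x2087047200) (nat_lit 0xf423f7a11b7a11df423f00000f423ff423fb71ae000007a119) (.cons (nat_lit 1) (nat_lit 7) (nat_lit 0) (nat_lit 0x2005443200) (nat_lit 0xf423ff423f00000f423fb71ae1f156f423fb71ae00000b71ae) (.cons (nat_lit 3) (nat_lit 8) (nat_lit 0) (nat_lit 0x2065440100) (nat_lit 0xf423f00000f423fb71aea2c280473700000b71aea2c2804737) .nil))))) (.leaf (.cons (nat_lit 0x5540) (nat_lit 0x20003000400030001000000000000) (.cons (nat_lit 0x15005) (nat_lit 0x300020001000000000000000000030004) (.cons (nat_lit 0x10045)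 (nat_lit 0x100000000000000000001000000020002) (.cons (nat_lit 0x10015) (nat_lit 0x100000000000000000000000100020002) .nil)))) .nil)) (.non (nat_lit 1) (nat_lit 4) (nat_lit 0x2a081) (nat_lit 0x200020001000000000001000000000002))) (.non (nat_lit 0) (nat_lit 4) (nat_lit 0x25040) (nat_lit 0x100020001000000000001000000000000))) (.non (nat_lit 0) (nat_lit 4) (nat_lit 0x2a040) (nat_lit 0x100020001000000000002000000000000))) (.non (nat_lit 0) (nat_lit 4) (nat_lit 0x95054) (nat_lit 0x1000100020001000000000002000200020000))) (.split (nat_lit 0xa) (nat_lit 0) (.split (nat_lit 0xa) (nat_lit 1) (.split (nat_lit 0xa) (nat_lit 2) (.split (nat_lit 0xa) (nat_lit 3) (.split (nat_lit 0xa) (nat_lit 5) (.split (nat_lit 0xa) (nat_lit 6) (.split (nat_lit 0xa) (nat_lit 7) (.split (nat_lit 0xa) (nat_lit 8) (.split (nat_lit 0xa) (nat_lit 9) (.unj (nat_lit 0x55) (nat_lit 0x1000100020002) (nat_lit 0x101500) (nat_lit 0x10000000000000001000200020000000000000000)) (.non (nat_lit 0) (nat_lit 4) (nat_lit 0x155454) (nat_lit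 0x10002000300060004000200000005000300040000))) (.non (nat_lit 0) (nat_lit 4) (nat_lit 0x115444) (nat_lit 0x10000000200030002000100000002000000010000))) (.non (nat_lit 0) (nat_lit 4) (nat_lit 0x115040) (nat_lit 0x10000000100020001000000000001000000000000))) (.non (nat_lit 0) (nat_lit 4) (nat_lit 0x115440) (nat_lit 0x10000000100020002000100000001000000000000))) (.non (nat_lit 0) (nat_lit 4) (nat_lit 0x115454) (nat_lit 0x10000000200040003000200000003000100020000))) (.non (nat_lit 0) (nat_lit 4) (nat_lit 0x115044) (nat_lit 0x10000000100020001000000000002000000010000))) (.non (nat_lit 0) (nat_lit 4) (nat_lit 0x155054) (nat_lit 0x10001000100020001000000000002000200020000))) (.star (nat_lit 0xa) (nat_lit 1) (nat_lit 4))) (.star (nat_lit 0xa) (nat_lit 0) (nat_lit 4))))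

noncomputable def t1122_13 : Tr := (.ex (nat_lit 2) (.ex (nat_lit 4) (.split (nat_lit 7) (nat_lit 3) (.split (nat_lit 8) (nat_lit 7) (.split (nat_lit 8) (nat_lit 0) (.pd (.cons (nat_lit 0) (nat_lit 5) (nat_lit 0) (nat_lit 0x737041110) (nat_lit 0xf423f7a11df423f00000f423f7a11bf423f3d08800000) (.cons (nat_lit 0) (nat_lit 7) (nat_lit 0) (nat_lit 0x805441110) (nat_lit 0xf423f00000f423fb71ae1f156f423ff423f7a11d00000) (.cons (nat_lit 1) (nat_lit 5) (nat_lit 0) (nat_lit 0x87047200) (nat_lit 0x7a11b7a11df423f00000f423ff423ff423f000007a119) (.cons (nat_lit 1) (nat_lit 7) (nat_lit 0) (nat_lit 0x5443200) (nat_lit 0xf423f00000f423fb71ae1f156f423ff423f00000b71ae) (.cons (nat_lit 3) (nat_lit 8) (nat_lit 0) (nat_lit 0x65440100) (nat_lit 0xf423fb71aea2c280473700000f423fb71ae1f156) .nil))))) (.leaf (.cons (nat_lit 0x5540) (nat_lit 0x20003000400030001000000000000) (.cons (nat_lit 0x15005) (nat_lit 0x300020001000000000000000000030004) (.cons (nat_lit 0x10045) (nat_lit 0x100000000000000000001000000020002) (.cons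 (nat_lit 0x10015) (nat_lit 0x100000000000000000000000100020002) .nil)))) .nil)) (.non (nat_lit 1) (nat_lit 4) (nat_lit 0x2a081) (nat_lit 0x200020001000000000001000000000002))) (.non (nat_lit 0) (nat_lit 4) (nat_lit 0x25040) (nat_lit 0x100020001000000000001000000000000))) (.non (nat_lit 0) (nat_lit 4) (nat_lit 0x2a040) (nat_lit 0x100020001000000000002000000000000))) (.split (nat_lit 9) (nat_lit 0) (.split (nat_lit 9) (nat_lit 1) (.split (nat_lit 9) (nat_lit 2) (.split (nat_lit 9) (nat_lit 3) (.split (nat_lit 9) (nat_lit 5) (.split (nat_lit 9) (nat_lit 6) (.split (nat_lit 9) (nat_lit 7) (.split (nat_lit 9) (nat_lit 8) (.unj (nat_lit 0x55) (nat_lit 0x1000100020002) (nat_lit 0x41500) (nat_lit 0x1000000000001000200020000000000000000)) (.non (nat_lit 0) (nat_lit 4) (nat_lit 0x55444) (nat_lit 0x1000200030002000100000002000000010000))) (.non (nat_lit 0) (nat_lit 4) (nat_lit 0x55040) (nat_lit 0x1000100020001000000000001000000000000))) (.non (nat_lit 0) (nat_lit 4) (nat_lit 0x55440) (nat_lit 0x1000100020002000100000001000000000000)))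 (.non (nat_lit 0) (nat_lit 4) (nat_lit 0x55454) (nat_lit 0x1000200040003000200000003000100020000))) (.non (nat_lit 0) (nat_lit 4) (nat_lit 0x55044) (nat_lit 0x1000100020001000000000002000000010000))) (.non (nat_lit 0) (nat_lit 6) (nat_lit 0x40514) (nat_lit 0x3000000000000000300040000000200010000))) (.star (nat_lit 9) (nat_lit 1) (nat_lit 4))) (.star (nat_lit 9) (nat_lit 0) (nat_lit 4)))) (.split (nat_lit 9) (nat_lit 1) (.split (nat_lit 9) (nat_lit 3) (.split (nat_lit 9) (nat_lit 4) (.split (nat_lit 9) (nat_lit 5) (.split (nat_lit 9) (nat_lit 6) (.split (nat_lit 9) (nat_lit 7) (.split (nat_lit 9) (nat_lit 8) (.split (nat_lit 9) (nat_lit 0) (.st (nat_lit 2) (nat_lit 0) (nat_lit 4) (nat_lit 0x55054) (nat_lit 0x1000100020001000000000002000200020000) (nat_lit 1) (nat_lit 1) (.st (nat_lit 9) (nat_lit 0) (nat_lit 4) (nat_lit 0x55454) (nat_lit 0x2000300060004000200000005000300040000) (nat_lit 1) (nat_lit 1) t1122_12)) (.sup (nat_lit 0x4000000000000000000000000000400030005) (nat_lit 0x20003000500040001000000000000)))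 (.non (nat_lit 0) (nat_lit 4) (nat_lit 0x55444) (nat_lit 0x1000200030002000100000002000000010000))) (.non (nat_lit 0) (nat_lit 4) (nat_lit 0x55040) (nat_lit 0x1000100020001000000000001000000000000))) (.non (nat_lit 0) (nat_lit 4) (nat_lit 0x55440) (nat_lit 0x1000100020002000100000001000000000000))) (.non (nat_lit 0) (nat_lit 4) (nat_lit 0x45454) (nat_lit 0x1000000010001000100000001000100010000))) (.non (nat_lit 0) (nat_lit 6) (nat_lit 0x40514) (nat_lit 0x3000000000000000300040000000200010000))) (.non (nat_lit 0) (nat_lit 4) (nat_lit 0x55044) (nat_lit 0x1000100020001000000000002000000010000))) (.non (nat_lit 0) (nat_lit 4) (nat_lit 0x40014) (nat_lit 0x1000000000000000000000000000100010000))))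

noncomputable def t1122_14 : Tr := (.ex (nat_lit 4) (.split (nat_lit 7) (nat_lit 3) (.split (nat_lit 8) (nat_lit 7) (.split (nat_lit 8) (nat_lit 0) (.split (nat_lit 9) (nat_lit 0) (.pd (.cons (nat_lit 0) (nat_lit 5) (nat_lit 0) (nat_lit 0x9737041110) (nat_lit 0xf423ff423f7a11df423f00000f423f7a11bf423f3d08800000) (.cons (nat_lit 0) (nat_lit 7) (nat_lit 0) (nat_lit 0x9805441110) (nat_lit 0xf423ff423f00000f423fb71ae1f156f423ff423f7a11d00000) (.cons (nat_lit 1) (nat_lit 5) (nat_lit 0) (nat_lit 0x87047200) (nat_lit 0xf423f7a11b7a11df423f00000f423ff423ff423f000003d088) (.cons (nat_lit 1) (nat_lit 7) (nat_lit 0) (nat_lit 0x5443200) (nat_lit 0xf423ff423f00000f423fb71ae1f156f423ff423f000007a11d) .nil)))) (.leaf (.cons (nat_lit 0x5540) (nat_lit 0x20003000400030001000000000000) (.cons (nat_lit 0x50005) (nat_lit 0x1000100000000000000000000000000020002) (.cons (nat_lit 0x40015) (nat_lit 0x1000000000000000000000000000100020002) .nil))) .nil)) (.non (nat_lit 1) (nat_lit 4) (nat_lit 0x95041) (nat_lit 0x1000200020001000000000001000000000002)))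 (.non (nat_lit 1) (nat_lit 4) (nat_lit 0x6a001) (nat_lit 0x2000300020001000000000000000000000004))) (.non (nat_lit 0) (nat_lit 4) (nat_lit 0x25040) (nat_lit 0x100020001000000000001000000000000))) (.non (nat_lit 0) (nat_lit 4) (nat_lit 0x2a040) (nat_lit 0x100020001000000000002000000000000))) (.split (nat_lit 0xa) (nat_lit 0) (.split (nat_lit 0xa) (nat_lit 1) (.split (nat_lit 0xa) (nat_lit 2) (.split (nat_lit 0xa) (nat_lit 3) (.split (nat_lit 0xa) (nat_lit 5) (.split (nat_lit 0xa) (nat_lit 6) (.split (nat_lit 0xa) (nat_lit 7) (.split (nat_lit 0xa) (nat_lit 8) (.split (nat_lit 0xa) (nat_lit 9) (.unj (nat_lit 0x55) (nat_lit 0x1000100020002) (nat_lit 0x101500) (nat_lit 0x10000000000000001000200020000000000000000)) (.non (nat_lit 1) (nat_lit 6) (nat_lit 0x140501) (nat_lit 0x30002000000000000000300040000000000000001))) (.non (nat_lit 0) (nat_lit 4) (nat_lit 0x115444) (nat_lit 0x10000000200030002000100000002000000010000))) (.non (nat_lit 0) (nat_lit 4) (nat_lit 0x115040) (nat_lit 0x10000000100020001000000000001000000000000)))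 (.non (nat_lit 0) (nat_lit 4) (nat_lit 0x115440) (nat_lit 0x10000000100020002000100000001000000000000))) (.non (nat_lit 0) (nat_lit 4) (nat_lit 0x115454) (nat_lit 0x10000000200040003000200000003000100020000))) (.non (nat_lit 0) (nat_lit 4) (nat_lit 0x115044) (nat_lit 0x10000000100020001000000000002000000010000))) (.non (nat_lit 0) (nat_lit 6) (nat_lit 0x100514) (nat_lit 0x30000000000000000000300040000000200010000))) (.star (nat_lit 0xa) (nat_lit 1) (nat_lit 4))) (.star (nat_lit 0xa) (nat_lit 0) (nat_lit 4))))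

noncomputable def t1122_15 : Tr := (.ex (nat_lit 4) (.split (nat_lit 7) (nat_lit 2) (.split (nat_lit 9) (nat_lit 3) (.split (nat_lit 8) (nat_lit 7) (.split (nat_lit 8) (nat_lit 0) (.pd (.cons (nat_lit 0) (nat_lit 5) (nat_lit 0) (nat_lit 0x3727041110) (nat_lit 0xf423ff423f7a11df423f00000f423fb71ae7a11b28b0200000) (.cons (nat_lit 0) (nat_lit 7) (nat_lit 0) (nat_lit 0x3805441110) (nat_lit 0xf423ff423f00000f423fb71ae1f156b71aef423f65b9700000) (.cons (nat_lit 1) (nat_lit 5) (nat_lit 0) (nat_lit 0x3087043700) (nat_lit 0xf423f7a11b7a11df423f00000f423fb71aef423f000007a119) (.cons (nat_lit 1) (nat_lit 7) (nat_lit 0) (nat_lit 0x3005443200) (nat_lit 0xf423ff423f00000f423fb71ae1f156b71aef423f00000b71ae) (.cons (nat_lit 2) (nat_lit 8) (nat_lit 0) (nat_lit 0x3065441000) (nat_lit 0xf423f00000f423fb71aea2c2804737b71ae00000a2c2804737) .nil))))) (.leaf (.cons (nat_lit 0x5510) (nat_lit 0x20003000400030000000100000000) (.cons (nat_lit 0x15005) (nat_lit 0x300020001000000000000000000030004) (.cons (nat_lit 0x10045)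 (nat_lit 0x100000000000000000001000000020002) (.cons (nat_lit 0x10015) (nat_lit 0x100000000000000000000000100020002) .nil)))) .nil)) (.non (nat_lit 1) (nat_lit 4) (nat_lit 0x2a021) (nat_lit 0x200020001000000000000000100000002))) (.non (nat_lit 0) (nat_lit 4) (nat_lit 0x25010) (nat_lit 0x100020001000000000000000100000000))) (.non (nat_lit 0) (nat_lit 4) (nat_lit 0x95054) (nat_lit 0x1000100020001000000000002000200020000))) (.non (nat_lit 0) (nat_lit 4) (nat_lit 0x2a010) (nat_lit 0x100020001000000000000000200000000))) (.split (nat_lit 0xa) (nat_lit 0) (.split (nat_lit 0xa) (nat_lit 1) (.split (nat_lit 0xa) (nat_lit 2) (.split (nat_lit 0xa) (nat_lit 3) (.split (nat_lit 0xa) (nat_lit 5) (.split (nat_lit 0xa) (nat_lit 6) (.split (nat_lit 0xa) (nat_lit 7) (.split (nat_lit 0xa) (nat_lit 8) (.split (nat_lit 0xa) (nat_lit 9) (.unj (nat_lit 0x55) (nat_lit 0x1000100020002) (nat_lit 0x101500) (nat_lit 0x10000000000000001000200020000000000000000)) (.non (nat_lit 0) (nat_lit 4) (nat_lit 0x155454) (nat_lit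 0x10002000300060004000200000003000500040000))) (.non (nat_lit 0) (nat_lit 4) (nat_lit 0x115414) (nat_lit 0x10000000200030002000100000000000200010000))) (.non (nat_lit 0) (nat_lit 4) (nat_lit 0x115010) (nat_lit 0x10000000100020001000000000000000100000000))) (.non (nat_lit 0) (nat_lit 4) (nat_lit 0x115410) (nat_lit 0x10000000100020002000100000000000100000000))) (.non (nat_lit 0) (nat_lit 4) (nat_lit 0x115454) (nat_lit 0x10000000200040003000200000001000300020000))) (.non (nat_lit 0) (nat_lit 4) (nat_lit 0x155054) (nat_lit 0x10001000100020001000000000002000200020000))) (.non (nat_lit 0) (nat_lit 4) (nat_lit 0x115014) (nat_lit 0x10000000100020001000000000000000200010000))) (.star (nat_lit 0xa) (nat_lit 1) (nat_lit 4))) (.star (nat_lit 0xa) (nat_lit 0) (nat_lit 4))))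

noncomputable def t1122_16 : Tr := (.ex (nat_lit 3) (.ex (nat_lit 4) (.split (nat_lit 7) (nat_lit 2) (.split (nat_lit 8) (nat_lit 7) (.split (nat_lit 8) (nat_lit 0) (.pd (.cons (nat_lit 0) (nat_lit 5) (nat_lit 0) (nat_lit 0x727041110) (nat_lit 0xf423f7a11df423f00000f423ff423f7a11b3d08800000) (.cons (nat_lit 0) (nat_lit 7) (nat_lit 0) (nat_lit 0x805441110) (nat_lit 0xf423f00000f423fb71ae1f156f423ff423f7a11d00000) (.cons (nat_lit 1) (nat_lit 5) (nat_lit 0) (nat_lit 0x87043700) (nat_lit 0x7a11b7a11df423f00000f423ff423ff423f000007a119) (.cons (nat_lit 1) (nat_lit 7) (nat_lit 0) (nat_lit 0x5443200) (nat_lit 0xf423f00000f423fb71ae1f156f423ff423f00000b71ae) (.cons (nat_lit 2) (nat_lit 8) (nat_lit 0) (nat_lit 0x65441000) (nat_lit 0xf423fb71aea2c2804737f423f00000b71ae1f156) .nil))))) (.leaf (.cons (nat_lit 0x5510) (nat_lit 0x20003000400030000000100000000) (.cons (nat_lit 0x15005) (nat_lit 0x300020001000000000000000000030004) (.cons (nat_lit 0x10045) (nat_lit 0x100000000000000000001000000020002) (.cons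 (nat_lit 0x10015) (nat_lit 0x100000000000000000000000100020002) .nil)))) .nil)) (.non (nat_lit 1) (nat_lit 4) (nat_lit 0x2a021) (nat_lit 0x200020001000000000000000100000002))) (.non (nat_lit 0) (nat_lit 4) (nat_lit 0x25010) (nat_lit 0x100020001000000000000000100000000))) (.non (nat_lit 0) (nat_lit 4) (nat_lit 0x2a010) (nat_lit 0x100020001000000000000000200000000))) (.split (nat_lit 9) (nat_lit 0) (.split (nat_lit 9) (nat_lit 1) (.split (nat_lit 9) (nat_lit 2) (.split (nat_lit 9) (nat_lit 3) (.split (nat_lit 9) (nat_lit 5) (.split (nat_lit 9) (nat_lit 6) (.split (nat_lit 9) (nat_lit 7) (.split (nat_lit 9) (nat_lit 8) (.unj (nat_lit 0x55) (nat_lit 0x1000100020002) (nat_lit 0x41500) (nat_lit 0x1000000000001000200020000000000000000)) (.non (nat_lit 0) (nat_lit 4) (nat_lit 0x55414) (nat_lit 0x1000200030002000100000000000200010000))) (.non (nat_lit 0) (nat_lit 4) (nat_lit 0x55010) (nat_lit 0x1000100020001000000000000000100000000))) (.non (nat_lit 0) (nat_lit 4) (nat_lit 0x55410) (nat_lit 0x1000100020002000100000000000100000000)))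 (.non (nat_lit 0) (nat_lit 4) (nat_lit 0x55454) (nat_lit 0x1000200040003000200000001000300020000))) (.non (nat_lit 0) (nat_lit 6) (nat_lit 0x40544) (nat_lit 0x3000000000000000300040002000000010000))) (.non (nat_lit 0) (nat_lit 4) (nat_lit 0x55014) (nat_lit 0x1000100020001000000000000000200010000))) (.star (nat_lit 9) (nat_lit 1) (nat_lit 4))) (.star (nat_lit 9) (nat_lit 0) (nat_lit 4)))) (.split (nat_lit 9) (nat_lit 1) (.split (nat_lit 9) (nat_lit 2) (.split (nat_lit 9) (nat_lit 4) (.split (nat_lit 9) (nat_lit 5) (.split (nat_lit 9) (nat_lit 6) (.split (nat_lit 9) (nat_lit 7) (.split (nat_lit 9) (nat_lit 8) (.split (nat_lit 9) (nat_lit 0) (.st (nat_lit 3) (nat_lit 0) (nat_lit 4) (nat_lit 0x55054) (nat_lit 0x1000100020001000000000002000200020000) (nat_lit 1) (nat_lit 1) (.st (nat_lit 9) (nat_lit 0) (nat_lit 4) (nat_lit 0x55454) (nat_lit 0x2000300060004000200000003000500040000) (nat_lit 1) (nat_lit 1) t1122_15)) (.sup (nat_lit 0x4000000000000000000000004000000030005) (nat_lit 0x20003000500040000000100000000)))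 (.non (nat_lit 0) (nat_lit 4) (nat_lit 0x55414) (nat_lit 0x1000200030002000100000000000200010000))) (.non (nat_lit 0) (nat_lit 4) (nat_lit 0x55010) (nat_lit 0x1000100020001000000000000000100000000))) (.non (nat_lit 0) (nat_lit 4) (nat_lit 0x55410) (nat_lit 0x1000100020002000100000000000100000000))) (.non (nat_lit 0) (nat_lit 4) (nat_lit 0x45454) (nat_lit 0x1000000010001000100000001000100010000))) (.non (nat_lit 0) (nat_lit 6) (nat_lit 0x40544) (nat_lit 0x3000000000000000300040002000000010000))) (.non (nat_lit 0) (nat_lit 4) (nat_lit 0x55014) (nat_lit 0x1000100020001000000000000000200010000))) (.non (nat_lit 0) (nat_lit 4) (nat_lit 0x40044) (nat_lit 0x1000000000000000000000001000000010000))))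

noncomputable def t1122_17 : Tr := (.ex (nat_lit 4) (.split (nat_lit 7) (nat_lit 2) (.split (nat_lit 8) (nat_lit 7) (.split (nat_lit 8) (nat_lit 0) (.split (nat_lit 9) (nat_lit 0) (.pd (.cons (nat_lit 0) (nat_lit 5) (nat_lit 0) (nat_lit 0x9727041110) (nat_lit 0xf423ff423f7a11df423f00000f423ff423f7a11b3d08800000) (.cons (nat_lit 0) (nat_lit 7) (nat_lit 0) (nat_lit 0x9805441110) (nat_lit 0xf423ff423f00000f423fb71ae1f156f423ff423f7a11d00000) (.cons (nat_lit 1) (nat_lit 5) (nat_lit 0) (nat_lit 0x87043700) (nat_lit 0xf423f7a11b7a11df423f00000f423ff423ff423f000003d088) (.cons (nat_lit 1) (nat_lit 7) (nat_lit 0) (nat_lit 0x5443200) (nat_lit 0xf423ff423f00000f423fb71ae1f156f423ff423f000007a11d) .nil)))) (.leaf (.cons (nat_lit 0x5510) (nat_lit 0x20003000400030000000100000000) (.cons (nat_lit 0x50005) (nat_lit 0x1000100000000000000000000000000020002) (.cons (nat_lit 0x40045) (nat_lit 0x1000000000000000000000001000000020002) .nil))) .nil)) (.non (nat_lit 1) (nat_lit 4) (nat_lit 0x95011) (nat_lit 0x1000200020001000000000000000100000002)))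 (.non (nat_lit 1) (nat_lit 4) (nat_lit 0x6a001) (nat_lit 0x2000300020001000000000000000000000004))) (.non (nat_lit 0) (nat_lit 4) (nat_lit 0x25010) (nat_lit 0x100020001000000000000000100000000))) (.non (nat_lit 0) (nat_lit 4) (nat_lit 0x2a010) (nat_lit 0x100020001000000000000000200000000))) (.split (nat_lit 0xa) (nat_lit 0) (.split (nat_lit 0xa) (nat_lit 1) (.split (nat_lit 0xa) (nat_lit 2) (.split (nat_lit 0xa) (nat_lit 3) (.split (nat_lit 0xa) (nat_lit 5) (.split (nat_lit 0xa) (nat_lit 6) (.split (nat_lit 0xa) (nat_lit 7) (.split (nat_lit 0xa) (nat_lit 8) (.split (nat_lit 0xa) (nat_lit 9) (.unj (nat_lit 0x55) (nat_lit 0x1000100020002) (nat_lit 0x101500) (nat_lit 0x10000000000000001000200020000000000000000)) (.non (nat_lit 1) (nat_lit 6) (nat_lit 0x140501) (nat_lit 0x30002000000000000000300040000000000000001))) (.non (nat_lit 0) (nat_lit 4) (nat_lit 0x115414) (nat_lit 0x10000000200030002000100000000000200010000))) (.non (nat_lit 0) (nat_lit 4) (nat_lit 0x115010) (nat_lit 0x10000000100020001000000000000000100000000)))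 (.non (nat_lit 0) (nat_lit 4) (nat_lit 0x115410) (nat_lit 0x10000000100020002000100000000000100000000))) (.non (nat_lit 0) (nat_lit 4) (nat_lit 0x115454) (nat_lit 0x10000000200040003000200000001000300020000))) (.non (nat_lit 0) (nat_lit 6) (nat_lit 0x100544) (nat_lit 0x30000000000000000000300040002000000010000))) (.non (nat_lit 0) (nat_lit 4) (nat_lit 0x115014) (nat_lit 0x10000000100020001000000000000000200010000))) (.star (nat_lit 0xa) (nat_lit 1) (nat_lit 4))) (.star (nat_lit 0xa) (nat_lit 0) (nat_lit 4))))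

noncomputable def t1122_18 : Tr := (.split (nat_lit 7) (nat_lit 2) (.split (nat_lit 7) (nat_lit 3) (.split (nat_lit 8) (nat_lit 0) (.sup (nat_lit 0x50005000a0006) (nat_lit 0x100040007000a00080000000000000000)) (.st (nat_lit 0) (nat_lit 1) (nat_lit 4) (nat_lit 0x2a001) (nat_lit 0x300020001000000000000000000000004) (nat_lit 1) (nat_lit 2) (.st (nat_lit 6) (nat_lit 1) (nat_lit 4) (nat_lit 0x2a801) (nat_lit 0x200020002000100000000000000000002) (nat_lit 2) (nat_lit 1) (.st (nat_lit 7) (nat_lit 1) (nat_lit 4) (nat_lit 0x2a001) (nat_lit 0x200020001000000000000000000000002) (nat_lit 2) (nat_lit 1) (.st (nat_lit 8) (nat_lit 1) (nat_lit 4) (nat_lit 0x28001) (nat_lit 0x200010000000000000000000000000002) (nat_lit 2) (nat_lit 1) t1122_11))))) (.st (nat_lit 1) (nat_lit 0) (nat_lit 4) (nat_lit 0x15054) (nat_lit 0x100020001000000000002000100020000) (nat_lit 1) (nat_lit 1) (.st (nat_lit 3) (nat_lit 0) (nat_lit 4) (nat_lit 0x15044) (nat_lit 0x100020001000000000002000000010000) (nat_lit 1) (nat_lit 1) (.st (nat_lit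 5) (nat_lit 0) (nat_lit 4) (nat_lit 0x15454) (nat_lit 0x200040003000200000003000100020000) (nat_lit 1) (nat_lit 1) (.st (nat_lit 6) (nat_lit 0) (nat_lit 4) (nat_lit 0x15440) (nat_lit 0x100020002000100000001000000000000) (nat_lit 1) (nat_lit 1) (.st (nat_lit 7) (nat_lit 0) (nat_lit 4) (nat_lit 0x15040) (nat_lit 0x100020001000000000001000000000000) (nat_lit 1) (nat_lit 1) (.st (nat_lit 8) (nat_lit 0) (nat_lit 4) (nat_lit 0x15444) (nat_lit 0x200030002000100000002000000010000) (nat_lit 1) (nat_lit 1) (.ex (nat_lit 0) t1122_13 (.split (nat_lit 9) (nat_lit 1) (.split (nat_lit 9) (nat_lit 3) (.split (nat_lit 9) (nat_lit 4) (.split (nat_lit 9) (nat_lit 5) (.split (nat_lit 9) (nat_lit 6) (.split (nat_lit 9) (nat_lit 7) (.split (nat_lit 9) (nat_lit 8) (.split (nat_lit 9) (nat_lit 2) t1122_14 (.sup (nat_lit 0x4000000000000000000000000000400030005) (nat_lit 0x20003000500040001000000000000))) (.non (nat_lit 0) (nat_lit 4) (nat_lit 0x55444) (nat_lit 0x1000200030002000100000002000000010000))) (.non (nat_lit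 0) (nat_lit 4) (nat_lit 0x55040) (nat_lit 0x1000100020001000000000001000000000000))) (.star (nat_lit 9) (nat_lit 0) (nat_lit 6))) (.non (nat_lit 0) (nat_lit 4) (nat_lit 0x55454) (nat_lit 0x1000200040003000200000003000100020000))) (.star (nat_lit 9) (nat_lit 0) (nat_lit 4))) (.non (nat_lit 0) (nat_lit 4) (nat_lit 0x55044) (nat_lit 0x1000100020001000000000002000000010000))) (.non (nat_lit 0) (nat_lit 4) (nat_lit 0x55054) (nat_lit 0x1000100020001000000000002000100020000))))))))))) (.split (nat_lit 7) (nat_lit 3) (.st (nat_lit 1) (nat_lit 0) (nat_lit 4) (nat_lit 0x15054) (nat_lit 0x100020001000000000001000200020000) (nat_lit 1) (nat_lit 1) (.st (nat_lit 2) (nat_lit 0) (nat_lit 4) (nat_lit 0x15014) (nat_lit 0x100020001000000000000000200010000) (nat_lit 1) (nat_lit 1) (.st (nat_lit 5) (nat_lit 0) (nat_lit 4) (nat_lit 0x15454) (nat_lit 0x200040003000200000001000300020000) (nat_lit 1) (nat_lit 1) (.st (nat_lit 6) (nat_lit 0) (nat_lit 4) (nat_lit 0x15410) (nat_lit 0x100020002000100000000000100000000)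 (nat_lit 1) (nat_lit 1) (.st (nat_lit 7) (nat_lit 0) (nat_lit 4) (nat_lit 0x15010) (nat_lit 0x100020001000000000000000100000000) (nat_lit 1) (nat_lit 1) (.st (nat_lit 8) (nat_lit 0) (nat_lit 4) (nat_lit 0x15414) (nat_lit 0x200030002000100000000000200010000) (nat_lit 1) (nat_lit 1) (.ex (nat_lit 0) t1122_16 (.split (nat_lit 9) (nat_lit 1) (.split (nat_lit 9) (nat_lit 2) (.split (nat_lit 9) (nat_lit 4) (.split (nat_lit 9) (nat_lit 5) (.split (nat_lit 9) (nat_lit 6) (.split (nat_lit 9) (nat_lit 7) (.split (nat_lit 9) (nat_lit 8) (.split (nat_lit 9) (nat_lit 3) t1122_17 (.sup (nat_lit 0x4000000000000000000000004000000030005) (nat_lit 0x20003000500040000000100000000))) (.non (nat_lit 0) (nat_lit 4) (nat_lit 0x55414) (nat_lit 0x1000200030002000100000000000200010000))) (.non (nat_lit 0) (nat_lit 4) (nat_lit 0x55010) (nat_lit 0x1000100020001000000000000000100000000))) (.star (nat_lit 9) (nat_lit 0) (nat_lit 6))) (.non (nat_lit 0) (nat_lit 4) (nat_lit 0x55454) (nat_lit 0x1000200040003000200000001000300020000)))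 (.star (nat_lit 9) (nat_lit 0) (nat_lit 4))) (.non (nat_lit 0) (nat_lit 4) (nat_lit 0x55014) (nat_lit 0x1000100020001000000000000000200010000))) (.non (nat_lit 0) (nat_lit 4) (nat_lit 0x55054) (nat_lit 0x1000100020001000000000001000200020000)))))))))) (.non (nat_lit 0) (nat_lit 4) (nat_lit 0x15050) (nat_lit 0x100020001000000000001000100000000))))

noncomputable def t1122_19 : Tr := (.split (nat_lit 8) (nat_lit 0) (.pd (.cons (nat_lit 0) (nat_lit 5) (nat_lit 0) (nat_lit 0x387041110) (nat_lit 0xa2c28b71aef423f00000f423f98965f423f5572c00000) (.cons (nat_lit 1) (nat_lit 5) (nat_lit 0) (nat_lit 0x87048200) (nat_lit 0x65b97b71aef423f00000f423ff423ff423f0000061a79) .nil)) (.ex (nat_lit 5) (.pd (.cons (nat_lit 0) (nat_lit 7) (nat_lit 0) (nat_lit 0x305441110) (nat_lit 0xf423f00000f423fb71ae1f156b71aef423f65b9700000) (.cons (nat_lit 0) (nat_lit 8) (nat_lit 0) (nat_lit 0x65441110) (nat_lit 0xf423fb71aea2c2804737f423ff423f7a11d00000) (.cons (nat_lit 1) (nat_lit 7) (nat_lit 0) (nat_lit 0x5448200) (nat_lit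 0xb71ae00000f423fb71ae1f156f423ff423f00000a2c28) (.cons (nat_lit 1) (nat_lit 8) (nat_lit 0) (nat_lit 0x65443200) (nat_lit 0xf423fb71aea2c2804737f423ff423f00000f423f) (.cons (nat_lit 2) (nat_lit 8) (nat_lit 0) (nat_lit 0x65441000) (nat_lit 0xf423fb71aea2c2804737f423f00000b71ae1f156) (.cons (nat_lit 3) (nat_lit 8) (nat_lit 0) (nat_lit 0x65440100) (nat_lit 0xf423fb71aea2c280473700000f423fb71ae1f156) .nil)))))) (.leaf (.cons (nat_lit 0x15005) (nat_lit 0x300020001000000000000000000030004) (.cons (nat_lit 0x10045) (nat_lit 0x100000000000000000001000000010001) (.cons (nat_lit 0x10015) (nat_lit 0x100000000000000000000000100020002) .nil))) .nil)) (.split (nat_lit 9) (nat_lit 0) (.split (nat_lit 9) (nat_lit 1) (.split (nat_lit 9) (nat_lit 2) (.split (nat_lit 9) (nat_lit 3) (.split (nat_lit 9) (nat_lit 4) (.split (nat_lit 9) (nat_lit 6) (.split (nat_lit 9) (nat_lit 7) (.split (nat_lit 9) (nat_lit 8) (.unj (nat_lit 0x55) (nat_lit 0x1000100020002) (nat_lit 0x41500) (nat_lit 0x1000000000001000200020000000000000000))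 (.non (nat_lit 0) (nat_lit 4) (nat_lit 0x55400) (nat_lit 0x1000100010001000100000000000000000000))) (.non (nat_lit 0) (nat_lit 4) (nat_lit 0x45400) (nat_lit 0x1000000010001000100000000000000000000))) (.non (nat_lit 0) (nat_lit 4) (nat_lit 0x41400) (nat_lit 0x1000000000001000100000000000000000000))) (.non (nat_lit 0) (nat_lit 6) (nat_lit 0x40500) (nat_lit 0x1000000000000000100010000000000000000))) (.non (nat_lit 0) (nat_lit 4) (nat_lit 0x55440) (nat_lit 0x1000100010001000100000001000000000000))) (.non (nat_lit 0) (nat_lit 4) (nat_lit 0x55454) (nat_lit 0x1000100010001000100000001000100010000))) (.non (nat_lit 0) (nat_lit 4) (nat_lit 0x55444) (nat_lit 0x1000100010001000100000001000000010000))) (.non (nat_lit 1) (nat_lit 4) (nat_lit 0x55401) (nat_lit 0x1000100010001000100000000000000000001))))) (.non (nat_lit 1) (nat_lit 4) (nat_lit 0x28081) (nat_lit 0x200010000000000000001000000000002)))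

noncomputable def t1122_20 : Tr := (.ex (nat_lit 4) (.split (nat_lit 8) (nat_lit 3) (.split (nat_lit 9) (nat_lit 3) (.split (nat_lit 8) (nat_lit 7) (.split (nat_lit 8) (nat_lit 0) (.pd (.cons (nat_lit 0) (nat_lit 5) (nat_lit 0) (nat_lit 0x3387041110) (nat_lit 0xf423fa2c28b71aef423f00000f423f5b8d4f423f1457c00000) (.cons (nat_lit 0) (nat_lit 7) (nat_lit 0) (nat_lit 0x3305441110) (nat_lit 0xf423ff423f00000f423fb71ae1f1567a11df423f3d08a00000) (.cons (nat_lit 0) (nat_lit 8) (nat_lit 0) (nat_lit 0x3065441110) (nat_lit 0xf423f00000f423fb71aea2c2804737b71aef423f65b9700000) (.cons (nat_lit 1) (nat_lit 5) (nat_lit 0) (nat_lit 0x3087048200) (nat_lit 0xf423f51611b71aef423f00000f423fb71aef423f000003d085) (.cons (nat_lit 1) (nat_lit 7) (nat_lit 0) (nat_lit 0x3005448200) (nat_lit 0xf423fa2c2800000f423fb71ae1f156b71aef423f0000098965) (.cons (nat_lit 1) (nat_lit 8) (nat_lit 0) (nat_lit 0x3065443200) (nat_lit 0xf423f00000f423fb71aea2c2804737b71aef423f00000f423f) (.cons (nat_lit 2) (nat_lit 8) (nat_lit 0) (nat_lit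 0x3065441000) (nat_lit 0xf423f00000f423fb71aea2c2804737b71ae00000a2c2804737) (.cons (nat_lit 3) (nat_lit 8) (nat_lit 0) (nat_lit 0x9065440100) (nat_lit 0xf423f00000f423fb71aea2c280473700000f423fb71ae1f156) .nil)))))))) (.leaf (.cons (nat_lit 0x15005) (nat_lit 0x300020001000000000000000000030004) (.cons (nat_lit 0x10045) (nat_lit 0x100000000000000000001000000010001) (.cons (nat_lit 0x10015) (nat_lit 0x100000000000000000000000100020002) .nil))) .nil)) (.non (nat_lit 1) (nat_lit 4) (nat_lit 0x28081) (nat_lit 0x200010000000000000001000000000002))) (.non (nat_lit 0) (nat_lit 4) (nat_lit 0x5a040) (nat_lit 0x1000300020001000000000002000000000000))) (.non (nat_lit 0) (nat_lit 4) (nat_lit 0x90044) (nat_lit 0x1000100000000000000000002000000010000))) (.non (nat_lit 0) (nat_lit 4) (nat_lit 0x6a040) (nat_lit 0x2000300020001000000000004000000000000))) (.split (nat_lit 0xa) (nat_lit 0) (.split (nat_lit 0xa) (nat_lit 1) (.split (nat_lit 0xa) (nat_lit 2) (.split (nat_lit 0xa) (nat_lit 3) (.split (nat_lit 0xa)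 (nat_lit 5) (.split (nat_lit 0xa) (nat_lit 6) (.split (nat_lit 0xa) (nat_lit 7) (.split (nat_lit 0xa) (nat_lit 8) (.split (nat_lit 0xa) (nat_lit 9) (.unj (nat_lit 0x55) (nat_lit 0x1000100020002) (nat_lit 0x101500) (nat_lit 0x10000000000000001000200020000000000000000)) (.non (nat_lit 0) (nat_lit 4) (nat_lit 0x154054) (nat_lit 0x10002000200010000000000000003000100020000))) (.non (nat_lit 0) (nat_lit 4) (nat_lit 0x154044) (nat_lit 0x10001000200010000000000000002000000010000))) (.non (nat_lit 0) (nat_lit 4) (nat_lit 0x155044) (nat_lit 0x10001000200020001000000000002000000010000))) (.non (nat_lit 0) (nat_lit 4) (nat_lit 0x155444) (nat_lit 0x10001000200020002000100000002000000010000))) (.non (nat_lit 0) (nat_lit 4) (nat_lit 0x155454) (nat_lit 0x10003000500040003000200000006000200040000))) (.non (nat_lit 0) (nat_lit 4) (nat_lit 0x150044) (nat_lit 0x10001000100000000000000000002000000010000))) (.non (nat_lit 0) (nat_lit 4) (nat_lit 0x155054) (nat_lit 0x10002000300020001000000000004000200030000))) (.star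 (nat_lit 0xa) (nat_lit 1) (nat_lit 4))) (.star (nat_lit 0xa) (nat_lit 0) (nat_lit 4))))

noncomputable def t1122_21 : Tr := (.ex (nat_lit 3) (.ex (nat_lit 4) (.split (nat_lit 8) (nat_lit 3) (.split (nat_lit 8) (nat_lit 7) t1122_19 (.non (nat_lit 0) (nat_lit 4) (nat_lit 0x1a840) (nat_lit 0x400030002000100000002000000000000))) (.non (nat_lit 0) (nat_lit 4) (nat_lit 0x2a044) (nat_lit 0x300020001000000000004000000020000))) (.split (nat_lit 9) (nat_lit 0) (.split (nat_lit 9) (nat_lit 1) (.split (nat_lit 9) (nat_lit 2) (.split (nat_lit 9) (nat_lit 3) (.split (nat_lit 9) (nat_lit 5) (.split (nat_lit 9) (nat_lit 6) (.split (nat_lit 9) (nat_lit 7) (.split (nat_lit 9) (nat_lit 8) (.unj (nat_lit 0x55) (nat_lit 0x1000100020002) (nat_lit 0x41500) (nat_lit 0x1000000000001000200020000000000000000)) (.non (nat_lit 0) (nat_lit 4) (nat_lit 0x55454) (nat_lit 0x2000400030002000100000003000100020000))) (.non (nat_lit 0) (nat_lit 6) (nat_lit 0x54500) (nat_lit 0x3000100020000000300040000000000000000))) (.non (nat_lit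 1) (nat_lit 4) (nat_lit 0x55441) (nat_lit 0x1000200020002000100000001000000000001))) (.non (nat_lit 0) (nat_lit 6) (nat_lit 0x40500) (nat_lit 0x1000000000000000100010000000000000000))) (.non (nat_lit 0) (nat_lit 6) (nat_lit 0x50540) (nat_lit 0x3000100000000000300040002000000000000))) (.non (nat_lit 0) (nat_lit 6) (nat_lit 0x40514) (nat_lit 0x3000000000000000300040000000200010000))) (.star (nat_lit 9) (nat_lit 1) (nat_lit 4))) (.star (nat_lit 9) (nat_lit 0) (nat_lit 4)))) (.split (nat_lit 9) (nat_lit 0) (.split (nat_lit 9) (nat_lit 1) (.split (nat_lit 9) (nat_lit 2) (.split (nat_lit 9) (nat_lit 4) (.split (nat_lit 9) (nat_lit 5) (.split (nat_lit 9) (nat_lit 6) (.split (nat_lit 9) (nat_lit 7) (.split (nat_lit 9) (nat_lit 8) (.st (nat_lit 3) (nat_lit 0) (nat_lit 4) (nat_lit 0x50044) (nat_lit 0x1000100000000000000000002000000010000) (nat_lit 1) (nat_lit 1) (.st (nat_lit 5) (nat_lit 0) (nat_lit 4) (nat_lit 0x55454) (nat_lit 0x3000500040003000200000006000200040000) (nat_lit 1) (nat_lit 1) (.st (nat_lit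 9) (nat_lit 0) (nat_lit 4) (nat_lit 0x54054) (nat_lit 0x2000200010000000000000003000100020000) (nat_lit 1) (nat_lit 1) t1122_20))) (.non (nat_lit 0) (nat_lit 4) (nat_lit 0x50040) (nat_lit 0x1000100000000000000000001000000000000))) (.non (nat_lit 0) (nat_lit 4) (nat_lit 0x54040) (nat_lit 0x1000100010000000000000001000000000000))) (.non (nat_lit 0) (nat_lit 4) (nat_lit 0x55040) (nat_lit 0x1000100010001000000000001000000000000))) (.non (nat_lit 0) (nat_lit 4) (nat_lit 0x55440) (nat_lit 0x1000100010001000100000001000000000000))) (.non (nat_lit 0) (nat_lit 6) (nat_lit 0x50540) (nat_lit 0x3000100000000000300040002000000000000))) (.non (nat_lit 0) (nat_lit 4) (nat_lit 0x40054) (nat_lit 0x1000000000000000000000001000100010000))) (.non (nat_lit 0) (nat_lit 4) (nat_lit 0x40044) (nat_lit 0x1000000000000000000000001000000010000))) (.non (nat_lit 1) (nat_lit 4) (nat_lit 0x50041) (nat_lit 0x1000100000000000000000001000000000001))))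

noncomputable def t1122_22 : Tr := (.ex (nat_lit 1) (.ex (nat_lit 2) t1122_21 (.split (nat_lit 9) (nat_lit 0) (.split (nat_lit 9) (nat_lit 1) (.split (nat_lit 9) (nat_lit 3) (.split (nat_lit 9) (nat_lit 4) (.split (nat_lit 9) (nat_lit 5) (.split (nat_lit 9) (nat_lit 6) (.split (nat_lit 9) (nat_lit 7) (.split (nat_lit 9) (nat_lit 8) (.split (nat_lit 9) (nat_lit 2) (.split (nat_lit 8) (nat_lit 0) (.split (nat_lit 8) (nat_lit 3) (.sup (nat_lit 0x3000c00160020001a0000000000000000) (nat_lit 0x2000000000000000000000002000500070005)) (.non (nat_lit 0) (nat_lit 4) (nat_lit 0x2a044) (nat_lit 0x300020001000000000004000000020000))) (.non (nat_lit 1) (nat_lit 4) (nat_lit 0x28081) (nat_lit 0x200010000000000000001000000000002))) (.split (nat_lit 9) (nat_lit 2) (.split (nat_lit 8) (nat_lit 0) (.sup (nat_lit 0x7000000000000000000000000000a000a0006) (nat_lit 0x100040007000a00080000000000000000)) (.non (nat_lit 1) (nat_lit 4) (nat_lit 0x28081) (nat_lit 0x200010000000000000001000000000002))) (.non (nat_lit 0)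 (nat_lit 4) (nat_lit 0x50054) (nat_lit 0x3000100000000000000000002000400030000)))) (.non (nat_lit 0) (nat_lit 4) (nat_lit 0x50054) (nat_lit 0x1000100000000000000000001000100010000))) (.non (nat_lit 0) (nat_lit 4) (nat_lit 0x55450) (nat_lit 0x2000200030002000100000001000100000000))) (.non (nat_lit 0) (nat_lit 4) (nat_lit 0x55054) (nat_lit 0x1000100010001000000000001000100010000))) (.non (nat_lit 0) (nat_lit 4) (nat_lit 0x55454) (nat_lit 0x1000100010001000100000001000100010000))) (.non (nat_lit 0) (nat_lit 6) (nat_lit 0x40514) (nat_lit 0x3000000000000000300040000000200010000))) (.non (nat_lit 0) (nat_lit 4) (nat_lit 0x40054) (nat_lit 0x1000000000000000000000001000100010000))) (.non (nat_lit 0) (nat_lit 4) (nat_lit 0x40014) (nat_lit 0x1000000000000000000000000000100010000))) (.non (nat_lit 1) (nat_lit 4) (nat_lit 0x55451) (nat_lit 0x2000400030002000100000002000100000003)))) (.split (nat_lit 9) (nat_lit 2) (.split (nat_lit 9) (nat_lit 3) (.split (nat_lit 9) (nat_lit 4) (.split (nat_lit 9) (nat_lit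 5) (.split (nat_lit 9) (nat_lit 6) (.split (nat_lit 9) (nat_lit 7) (.split (nat_lit 9) (nat_lit 8) (.split (nat_lit 9) (nat_lit 0) (.split (nat_lit 9) (nat_lit 1) (.split (nat_lit 8) (nat_lit 0) (.sup (nat_lit 0x50000000000000000000000000005000a0006) (nat_lit 0x100040007000a00080000000000000000)) (.non (nat_lit 1) (nat_lit 4) (nat_lit 0x28081) (nat_lit 0x200010000000000000001000000000002))) (.non (nat_lit 0) (nat_lit 4) (nat_lit 0x80054) (nat_lit 0x1000000000000000000000001000100020000))) (.sup (nat_lit 0x90000000000000000000000000000000a0007) (nat_lit 0x100040007000a00080000000000000000))) (.non (nat_lit 0) (nat_lit 4) (nat_lit 0x50044) (nat_lit 0x1000100000000000000000001000000010000))) (.non (nat_lit 0) (nat_lit 4) (nat_lit 0x54044) (nat_lit 0x1000100010000000000000001000000010000))) (.star (nat_lit 9) (nat_lit 1) (nat_lit 6))) (.non (nat_lit 0) (nat_lit 4) (nat_lit 0x55444) (nat_lit 0x1000100010001000100000001000000010000))) (.star (nat_lit 9) (nat_lit 1) (nat_lit 4))) (.non (nat_lit 0)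 (nat_lit 4) (nat_lit 0x40044) (nat_lit 0x1000000000000000000000001000000010000))) (.non (nat_lit 0) (nat_lit 4) (nat_lit 0x40014) (nat_lit 0x1000000000000000000000000000100010000))))

noncomputable def t1122_23 : Tr := (.split (nat_lit 8) (nat_lit 0) (.pd (.cons (nat_lit 0) (nat_lit 5) (nat_lit 0) (nat_lit 0x287041110) (nat_lit 0xa2c28b71aef423f00000f423ff423f989655572c00000) (.cons (nat_lit 1) (nat_lit 5) (nat_lit 0) (nat_lit 0x87043800) (nat_lit 0x65b97b71aef423f00000f423ff423ff423f0000061a79) .nil)) (.ex (nat_lit 5) (.pd (.cons (nat_lit 0) (nat_lit 7) (nat_lit 0) (nat_lit 0x205441110) (nat_lit 0xf423f00000f423fb71ae1f156f423fb71ae65b9700000) (.cons (nat_lit 0) (nat_lit 8) (nat_lit 0) (nat_lit 0x65441110) (nat_lit 0xf423fb71aea2c2804737f423ff423f7a11d00000) (.cons (nat_lit 1) (nat_lit 7) (nat_lit 0) (nat_lit 0x5443800) (nat_lit 0xb71ae00000f423fb71ae1f156f423ff423f00000a2c28) (.cons (nat_lit 1) (nat_lit 8) (nat_lit 0) (nat_lit 0x65443200) (nat_lit 0xf423fb71aea2c2804737f423ff423f00000f423f)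 (.cons (nat_lit 2) (nat_lit 8) (nat_lit 0) (nat_lit 0x65441000) (nat_lit 0xf423fb71aea2c2804737f423f00000b71ae1f156) (.cons (nat_lit 3) (nat_lit 8) (nat_lit 0) (nat_lit 0x65440100) (nat_lit 0xf423fb71aea2c280473700000f423fb71ae1f156) .nil)))))) (.leaf (.cons (nat_lit 0x15005) (nat_lit 0x300020001000000000000000000030004) (.cons (nat_lit 0x10045) (nat_lit 0x100000000000000000001000000020002) (.cons (nat_lit 0x10015) (nat_lit 0x100000000000000000000000100010001) .nil))) .nil)) (.split (nat_lit 9) (nat_lit 0) (.split (nat_lit 9) (nat_lit 1) (.split (nat_lit 9) (nat_lit 2) (.split (nat_lit 9) (nat_lit 3) (.split (nat_lit 9) (nat_lit 4) (.split (nat_lit 9) (nat_lit 6) (.split (nat_lit 9) (nat_lit 7) (.split (nat_lit 9) (nat_lit 8) (.unj (nat_lit 0x55) (nat_lit 0x1000100020002) (nat_lit 0x41500) (nat_lit 0x1000000000001000200020000000000000000)) (.non (nat_lit 0) (nat_lit 4) (nat_lit 0x55400) (nat_lit 0x1000100010001000100000000000000000000))) (.non (nat_lit 0) (nat_lit 4) (nat_lit 0x45400) (nat_lit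 0x1000000010001000100000000000000000000))) (.non (nat_lit 0) (nat_lit 4) (nat_lit 0x41400) (nat_lit 0x1000000000001000100000000000000000000))) (.non (nat_lit 0) (nat_lit 6) (nat_lit 0x40500) (nat_lit 0x1000000000000000100010000000000000000))) (.non (nat_lit 0) (nat_lit 4) (nat_lit 0x55454) (nat_lit 0x1000100010001000100000001000100010000))) (.non (nat_lit 0) (nat_lit 4) (nat_lit 0x55410) (nat_lit 0x1000100010001000100000000000100000000))) (.non (nat_lit 0) (nat_lit 4) (nat_lit 0x55414) (nat_lit 0x1000100010001000100000000000100010000))) (.non (nat_lit 1) (nat_lit 4) (nat_lit 0x55401) (nat_lit 0x1000100010001000100000000000000000001))))) (.non (nat_lit 1) (nat_lit 4) (nat_lit 0x28021) (nat_lit 0x200010000000000000000000100000002)))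

noncomputable def t1122_24 : Tr := (.ex (nat_lit 3) (.ex (nat_lit 4) (.split (nat_lit 8) (nat_lit 2) (.split (nat_lit 8) (nat_lit 7) t1122_23 (.non (nat_lit 0) (nat_lit 4) (nat_lit 0x1a810) (nat_lit 0x400030002000100000000000200000000))) (.non (nat_lit 0) (nat_lit 4) (nat_lit 0x2a014) (nat_lit 0x300020001000000000000000400020000))) (.split (nat_lit 9) (nat_lit 0) (.split (nat_lit 9) (nat_lit 1) (.split (nat_lit 9) (nat_lit 2) (.split (nat_lit 9) (nat_lit 3) (.split (nat_lit 9) (nat_lit 5) (.split (nat_lit 9) (nat_lit 6) (.split (nat_lit 9) (nat_lit 7) (.split (nat_lit 9) (nat_lit 8) (.unj (nat_lit 0x55) (nat_lit 0x1000100020002) (nat_lit 0x41500) (nat_lit 0x1000000000001000200020000000000000000)) (.non (nat_lit 0) (nat_lit 4) (nat_lit 0x55454) (nat_lit 0x2000400030002000100000001000300020000))) (.non (nat_lit 0) (nat_lit 6) (nat_lit 0x54500) (nat_lit 0x3000100020000000300040000000000000000))) (.non (nat_lit 1) (nat_lit 4) (nat_lit 0x55411) (nat_lit 0x1000200020002000100000000000100000001)))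 (.non (nat_lit 0) (nat_lit 6) (nat_lit 0x40500) (nat_lit 0x1000000000000000100010000000000000000))) (.non (nat_lit 0) (nat_lit 6) (nat_lit 0x40544) (nat_lit 0x3000000000000000300040002000000010000))) (.non (nat_lit 0) (nat_lit 6) (nat_lit 0x50510) (nat_lit 0x3000100000000000300040000000200000000))) (.star (nat_lit 9) (nat_lit 1) (nat_lit 4))) (.star (nat_lit 9) (nat_lit 0) (nat_lit 4)))) (.split (nat_lit 9) (nat_lit 0) (.split (nat_lit 9) (nat_lit 1) (.split (nat_lit 9) (nat_lit 2) (.split (nat_lit 9) (nat_lit 4) (.split (nat_lit 9) (nat_lit 5) (.split (nat_lit 9) (nat_lit 6) (.split (nat_lit 9) (nat_lit 7) (.split (nat_lit 9) (nat_lit 8) (.split (nat_lit 9) (nat_lit 3) (.split (nat_lit 8) (nat_lit 0) (.split (nat_lit 8) (nat_lit 2) (.sup (nat_lit 0x3000c00160020001a0000000000000000) (nat_lit 0x2000000000000000000000005000200070005)) (.non (nat_lit 0) (nat_lit 4) (nat_lit 0x2a014) (nat_lit 0x300020001000000000000000400020000))) (.non (nat_lit 1) (nat_lit 4) (nat_lit 0x28021) (nat_lit 0x200010000000000000000000100000002)))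 (.split (nat_lit 9) (nat_lit 3) (.split (nat_lit 8) (nat_lit 0) (.sup (nat_lit 0x700000000000000000000000a0000000a0006) (nat_lit 0x100040007000a00080000000000000000)) (.non (nat_lit 1) (nat_lit 4) (nat_lit 0x28021) (nat_lit 0x200010000000000000000000100000002))) (.non (nat_lit 0) (nat_lit 4) (nat_lit 0x50054) (nat_lit 0x3000100000000000000000004000200030000)))) (.non (nat_lit 0) (nat_lit 4) (nat_lit 0x50054) (nat_lit 0x1000100000000000000000001000100010000))) (.non (nat_lit 0) (nat_lit 4) (nat_lit 0x55450) (nat_lit 0x2000200030002000100000001000100000000))) (.non (nat_lit 0) (nat_lit 4) (nat_lit 0x55054) (nat_lit 0x1000100010001000000000001000100010000))) (.non (nat_lit 0) (nat_lit 4) (nat_lit 0x55454) (nat_lit 0x1000100010001000100000001000100010000))) (.non (nat_lit 0) (nat_lit 6) (nat_lit 0x40544) (nat_lit 0x3000000000000000300040002000000010000))) (.non (nat_lit 0) (nat_lit 4) (nat_lit 0x40054) (nat_lit 0x1000000000000000000000001000100010000))) (.non (nat_lit 0) (nat_lit 4) (nat_lit 0x40044)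 (nat_lit 0x1000000000000000000000001000000010000))) (.non (nat_lit 1) (nat_lit 4) (nat_lit 0x55451) (nat_lit 0x2000400030002000100000001000200000003))))

noncomputable def t1122_25 : Tr := (.ex (nat_lit 4) (.split (nat_lit 8) (nat_lit 2) (.split (nat_lit 9) (nat_lit 2) (.split (nat_lit 8) (nat_lit 7) (.split (nat_lit 8) (nat_lit 0) (.pd (.cons (nat_lit 0) (nat_lit 5) (nat_lit 0) (nat_lit 0x2287041110) (nat_lit 0xf423fa2c28b71aef423f00000f423ff423f5b8d41457c00000) (.cons (nat_lit 0) (nat_lit 7) (nat_lit 0) (nat_lit 0x2205441110) (nat_lit 0xf423ff423f00000f423fb71ae1f156f423f7a11d3d08a00000) (.cons (nat_lit 0) (nat_lit 8) (nat_lit 0) (nat_lit 0x2065441110) (nat_lit 0xf423f00000f423fb71aea2c2804737f423fb71ae65b9700000) (.cons (nat_lit 1) (nat_lit 5) (nat_lit 0) (nat_lit 0x2087043800) (nat_lit 0xf423f51611b71aef423f00000f423ff423fb71ae000003d085) (.cons (nat_lit 1) (nat_lit 7) (nat_lit 0) (nat_lit 0x2005443800) (nat_lit 0xf423fa2c2800000f423fb71ae1f156f423fb71ae0000098965) (.cons (nat_lit 1) (nat_lit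 8) (nat_lit 0) (nat_lit 0x2065443200) (nat_lit 0xf423f00000f423fb71aea2c2804737f423fb71ae00000f423f) (.cons (nat_lit 2) (nat_lit 8) (nat_lit 0) (nat_lit 0x9065441000) (nat_lit 0xf423f00000f423fb71aea2c2804737f423f00000b71ae1f156) (.cons (nat_lit 3) (nat_lit 8) (nat_lit 0) (nat_lit 0x2065440100) (nat_lit 0xf423f00000f423fb71aea2c280473700000b71aea2c2804737) .nil)))))))) (.leaf (.cons (nat_lit 0x15005) (nat_lit 0x300020001000000000000000000030004) (.cons (nat_lit 0x10045) (nat_lit 0x100000000000000000001000000020002) (.cons (nat_lit 0x10015) (nat_lit 0x100000000000000000000000100010001) .nil))) .nil)) (.non (nat_lit 1) (nat_lit 4) (nat_lit 0x28021) (nat_lit 0x200010000000000000000000100000002))) (.non (nat_lit 0) (nat_lit 4) (nat_lit 0x5a010) (nat_lit 0x1000300020001000000000000000200000000))) (.non (nat_lit 0) (nat_lit 4) (nat_lit 0x90014) (nat_lit 0x1000100000000000000000000000200010000))) (.non (nat_lit 0) (nat_lit 4) (nat_lit 0x6a010) (nat_lit 0x2000300020001000000000000000400000000))) (.split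 (nat_lit 0xa) (nat_lit 0) (.split (nat_lit 0xa) (nat_lit 1) (.split (nat_lit 0xa) (nat_lit 2) (.split (nat_lit 0xa) (nat_lit 3) (.split (nat_lit 0xa) (nat_lit 5) (.split (nat_lit 0xa) (nat_lit 6) (.split (nat_lit 0xa) (nat_lit 7) (.split (nat_lit 0xa) (nat_lit 8) (.split (nat_lit 0xa) (nat_lit 9) (.unj (nat_lit 0x55) (nat_lit 0x1000100020002) (nat_lit 0x101500) (nat_lit 0x10000000000000001000200020000000000000000)) (.non (nat_lit 0) (nat_lit 4) (nat_lit 0x154054) (nat_lit 0x10002000200010000000000000001000300020000))) (.non (nat_lit 0) (nat_lit 4) (nat_lit 0x154014) (nat_lit 0x10001000200010000000000000000000200010000))) (.non (nat_lit 0) (nat_lit 4) (nat_lit 0x155014) (nat_lit 0x10001000200020001000000000000000200010000))) (.non (nat_lit 0) (nat_lit 4) (nat_lit 0x155414) (nat_lit 0x10001000200020002000100000000000200010000))) (.non (nat_lit 0) (nat_lit 4) (nat_lit 0x155454) (nat_lit 0x10003000500040003000200000002000600040000))) (.non (nat_lit 0) (nat_lit 4) (nat_lit 0x155054) (nat_lit 0x10002000300020001000000000002000400030000)))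 (.non (nat_lit 0) (nat_lit 4) (nat_lit 0x150014) (nat_lit 0x10001000100000000000000000000000200010000))) (.star (nat_lit 0xa) (nat_lit 1) (nat_lit 4))) (.star (nat_lit 0xa) (nat_lit 0) (nat_lit 4))))

noncomputable def t1122_26 : Tr := (.ex (nat_lit 1) (.ex (nat_lit 2) t1122_24 (.split (nat_lit 9) (nat_lit 0) (.split (nat_lit 9) (nat_lit 1) (.split (nat_lit 9) (nat_lit 3) (.split (nat_lit 9) (nat_lit 4) (.split (nat_lit 9) (nat_lit 5) (.split (nat_lit 9) (nat_lit 6) (.split (nat_lit 9) (nat_lit 7) (.split (nat_lit 9) (nat_lit 8) (.st (nat_lit 2) (nat_lit 0) (nat_lit 4) (nat_lit 0x50014) (nat_lit 0x1000100000000000000000000000200010000) (nat_lit 1) (nat_lit 1) (.st (nat_lit 3) (nat_lit 0) (nat_lit 4) (nat_lit 0x55054) (nat_lit 0x2000300020001000000000002000400030000) (nat_lit 1) (nat_lit 1) (.st (nat_lit 5) (nat_lit 0) (nat_lit 4) (nat_lit 0x55454) (nat_lit 0x3000500040003000200000002000600040000) (nat_lit 1) (nat_lit 1) (.st (nat_lit 9) (nat_lit 0) (nat_lit 4) (nat_lit 0x54054) (nat_lit 0x2000200010000000000000001000300020000)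 (nat_lit 1) (nat_lit 1) t1122_25)))) (.non (nat_lit 0) (nat_lit 4) (nat_lit 0x50010) (nat_lit 0x1000100000000000000000000000100000000))) (.non (nat_lit 0) (nat_lit 4) (nat_lit 0x54010) (nat_lit 0x1000100010000000000000000000100000000))) (.non (nat_lit 0) (nat_lit 4) (nat_lit 0x55010) (nat_lit 0x1000100010001000000000000000100000000))) (.non (nat_lit 0) (nat_lit 4) (nat_lit 0x55410) (nat_lit 0x1000100010001000100000000000100000000))) (.non (nat_lit 0) (nat_lit 6) (nat_lit 0x50510) (nat_lit 0x3000100000000000300040000000200000000))) (.non (nat_lit 0) (nat_lit 4) (nat_lit 0x40054) (nat_lit 0x1000000000000000000000001000100010000))) (.non (nat_lit 0) (nat_lit 4) (nat_lit 0x40014) (nat_lit 0x1000000000000000000000000000100010000))) (.non (nat_lit 1) (nat_lit 4) (nat_lit 0x50011) (nat_lit 0x1000100000000000000000000000100000001)))) (.split (nat_lit 9) (nat_lit 2) (.split (nat_lit 9) (nat_lit 3) (.split (nat_lit 9) (nat_lit 4) (.split (nat_lit 9) (nat_lit 5) (.split (nat_lit 9) (nat_lit 6) (.split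 (nat_lit 9) (nat_lit 7) (.split (nat_lit 9) (nat_lit 8) (.split (nat_lit 9) (nat_lit 0) (.split (nat_lit 9) (nat_lit 1) (.split (nat_lit 8) (nat_lit 0) (.sup (nat_lit 0x50000000000000000000000050000000a0006) (nat_lit 0x100040007000a00080000000000000000)) (.non (nat_lit 1) (nat_lit 4) (nat_lit 0x28021) (nat_lit 0x200010000000000000000000100000002))) (.non (nat_lit 0) (nat_lit 4) (nat_lit 0x80054) (nat_lit 0x1000000000000000000000001000100020000))) (.sup (nat_lit 0x90000000000000000000000000000000a0007) (nat_lit 0x100040007000a00080000000000000000))) (.non (nat_lit 0) (nat_lit 4) (nat_lit 0x50014) (nat_lit 0x1000100000000000000000000000100010000))) (.non (nat_lit 0) (nat_lit 4) (nat_lit 0x54014) (nat_lit 0x1000100010000000000000000000100010000))) (.star (nat_lit 9) (nat_lit 1) (nat_lit 6))) (.non (nat_lit 0) (nat_lit 4) (nat_lit 0x55414) (nat_lit 0x1000100010001000100000000000100010000))) (.star (nat_lit 9) (nat_lit 1) (nat_lit 4))) (.non (nat_lit 0) (nat_lit 4) (nat_lit 0x40044) (nat_lit 0x1000000000000000000000001000000010000)))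 (.non (nat_lit 0) (nat_lit 4) (nat_lit 0x40014) (nat_lit 0x1000000000000000000000000000100010000))))

noncomputable def t1122_27 : Tr := (.split (nat_lit 8) (nat_lit 2) (.split (nat_lit 8) (nat_lit 3) t1122_18 (.split (nat_lit 7) (nat_lit 2) (.split (nat_lit 7) (nat_lit 3) (.st (nat_lit 6) (nat_lit 1) (nat_lit 4) (nat_lit 0x15441) (nat_lit 0x200020002000100000001000000000001) (nat_lit 1) (nat_lit 1) (.st (nat_lit 7) (nat_lit 1) (nat_lit 4) (nat_lit 0x15041) (nat_lit 0x200020001000000000001000000000001) (nat_lit 1) (nat_lit 1) (.st (nat_lit 8) (nat_lit 0) (nat_lit 4) (nat_lit 0x15454) (nat_lit 0x400030002000100000003000100020000) (nat_lit 1) (nat_lit 2) (.ex (nat_lit 0) t1122_22 (.split (nat_lit 9) (nat_lit 2) (.split (nat_lit 9) (nat_lit 3) (.split (nat_lit 9) (nat_lit 4) (.split (nat_lit 9) (nat_lit 5) (.split (nat_lit 9) (nat_lit 6) (.split (nat_lit 9) (nat_lit 7) (.split (nat_lit 9) (nat_lit 8) (.split (nat_lit 9) (nat_lit 1) (.split (nat_lit 9) (nat_lit 0) (.split (nat_lit 8) (nat_lit 0)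 (.split (nat_lit 8) (nat_lit 3) (.sup (nat_lit 0x10006000b0010000d0000000000000000) (nat_lit 0x1000000000000000000000001000200030002)) (.non (nat_lit 0) (nat_lit 4) (nat_lit 0x2a044) (nat_lit 0x300020001000000000004000000020000))) (.non (nat_lit 1) (nat_lit 4) (nat_lit 0x6a001) (nat_lit 0x2000300020001000000000000000000000004))) (.non (nat_lit 1) (nat_lit 4) (nat_lit 0x94041) (nat_lit 0x1000200010000000000000001000000000002))) (.sup (nat_lit 0x90000000000000000000000000000000a0007) (nat_lit 0x100040007000a00080000000000000000))) (.non (nat_lit 0) (nat_lit 4) (nat_lit 0x55454) (nat_lit 0x2000400030002000100000003000100020000))) (.non (nat_lit 1) (nat_lit 4) (nat_lit 0x54001) (nat_lit 0x1000100010000000000000000000000000001))) (.star (nat_lit 9) (nat_lit 0) (nat_lit 6))) (.non (nat_lit 1) (nat_lit 4) (nat_lit 0x55401) (nat_lit 0x1000100010001000100000000000000000001))) (.star (nat_lit 9) (nat_lit 0) (nat_lit 4))) (.non (nat_lit 1) (nat_lit 4) (nat_lit 0x50041) (nat_lit 0x1000100000000000000000001000000000001)))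 (.non (nat_lit 1) (nat_lit 4) (nat_lit 0x55451) (nat_lit 0x2000400030002000100000002000100000003))))))) (.non (nat_lit 0) (nat_lit 4) (nat_lit 0x14040) (nat_lit 0x100010000000000000001000000000000))) (.non (nat_lit 0) (nat_lit 4) (nat_lit 0x14054) (nat_lit 0x100010000000000000001000100010000)))) (.split (nat_lit 8) (nat_lit 3) (.split (nat_lit 7) (nat_lit 2) (.split (nat_lit 7) (nat_lit 3) (.st (nat_lit 6) (nat_lit 1) (nat_lit 4) (nat_lit 0x15411) (nat_lit 0x200020002000100000000000100000001) (nat_lit 1) (nat_lit 1) (.st (nat_lit 7) (nat_lit 1) (nat_lit 4) (nat_lit 0x15011) (nat_lit 0x200020001000000000000000100000001) (nat_lit 1) (nat_lit 1) (.st (nat_lit 8) (nat_lit 0) (nat_lit 4) (nat_lit 0x15454) (nat_lit 0x400030002000100000001000300020000) (nat_lit 1) (nat_lit 2) (.ex (nat_lit 0) t1122_26 (.split (nat_lit 9) (nat_lit 2) (.split (nat_lit 9) (nat_lit 3) (.split (nat_lit 9) (nat_lit 4) (.split (nat_lit 9) (nat_lit 5) (.split (nat_lit 9) (nat_lit 6) (.split (nat_lit 9) (nat_lit 7) (.split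 (nat_lit 9) (nat_lit 8) (.split (nat_lit 9) (nat_lit 1) (.split (nat_lit 9) (nat_lit 0) (.split (nat_lit 8) (nat_lit 0) (.split (nat_lit 8) (nat_lit 2) (.sup (nat_lit 0x10006000b0010000d0000000000000000) (nat_lit 0x1000000000000000000000002000100030002)) (.non (nat_lit 0) (nat_lit 4) (nat_lit 0x2a014) (nat_lit 0x300020001000000000000000400020000))) (.non (nat_lit 1) (nat_lit 4) (nat_lit 0x6a001) (nat_lit 0x2000300020001000000000000000000000004))) (.non (nat_lit 1) (nat_lit 4) (nat_lit 0x94011) (nat_lit 0x1000200010000000000000000000100000002))) (.sup (nat_lit 0x90000000000000000000000000000000a0007) (nat_lit 0x100040007000a00080000000000000000))) (.non (nat_lit 0) (nat_lit 4) (nat_lit 0x55454) (nat_lit 0x2000400030002000100000001000300020000))) (.non (nat_lit 1) (nat_lit 4) (nat_lit 0x54001) (nat_lit 0x1000100010000000000000000000000000001))) (.star (nat_lit 9) (nat_lit 0) (nat_lit 6))) (.non (nat_lit 1) (nat_lit 4) (nat_lit 0x55401) (nat_lit 0x1000100010001000100000000000000000001))) (.star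 (nat_lit 9) (nat_lit 0) (nat_lit 4))) (.non (nat_lit 1) (nat_lit 4) (nat_lit 0x55451) (nat_lit 0x2000400030002000100000001000200000003))) (.non (nat_lit 1) (nat_lit 4) (nat_lit 0x50011) (nat_lit 0x1000100000000000000000000000100000001))))))) (.non (nat_lit 0) (nat_lit 4) (nat_lit 0x14054) (nat_lit 0x100010000000000000001000100010000))) (.non (nat_lit 0) (nat_lit 4) (nat_lit 0x14010) (nat_lit 0x100010000000000000000000100000000))) (.non (nat_lit 0) (nat_lit 4) (nat_lit 0x10054) (nat_lit 0x100000000000000000001000100010000))))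

noncomputable def t1122_28 : Tr := (.split (nat_lit 8) (nat_lit 0) (.pd (.cons (nat_lit 0) (nat_lit 5) (nat_lit 0) (nat_lit 0x187041110) (nat_lit 0xa2c28b71aef423f00000f423ff423ff423f1e84300000) (.cons (nat_lit 1) (nat_lit 5) (nat_lit 0) (nat_lit 0x87043200) (nat_lit 0xa2c28b71aef423f00000f423ff423ff423f0000098965) .nil)) (.ex (nat_lit 5) (.pd (.cons (nat_lit 0) (nat_lit 7) (nat_lit 0) (nat_lit 0x105441110) (nat_lit 0xf423f00000f423fb71ae1f156f423ff423f3d08c00000) (.cons (nat_lit 0) (nat_lit 8) (nat_lit 0) (nat_lit 0x65441110) (nat_lit 0xf423fb71aea2c2804737f423ff423f7a11d00000) (.cons (nat_lit 1) (nat_lit 7) (nat_lit 0) (nat_lit 0x5443200) (nat_lit 0xf423f00000f423fb71ae1f156f423ff423f00000b71ae) (.cons (nat_lit 1) (nat_lit 8) (nat_lit 0) (nat_lit 0x65443200) (nat_lit 0xf423fb71aea2c2804737f423ff423f00000f423f) (.cons (nat_lit 2) (nat_lit 8) (nat_lit 0) (nat_lit 0x65441000) (nat_lit 0xf423fb71aea2c2804737f423f00000b71ae1f156) (.cons (nat_lit 3) (nat_lit 8) (nat_lit 0) (nat_lit 0x65440100)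 (nat_lit 0xf423fb71aea2c280473700000f423fb71ae1f156) .nil)))))) (.leaf (.cons (nat_lit 0x10005) (nat_lit 0x100000000000000000000000000010001) .nil) .nil)) (.split (nat_lit 9) (nat_lit 0) (.split (nat_lit 9) (nat_lit 1) (.split (nat_lit 9) (nat_lit 2) (.split (nat_lit 9) (nat_lit 3) (.split (nat_lit 9) (nat_lit 4) (.split (nat_lit 9) (nat_lit 6) (.split (nat_lit 9) (nat_lit 7) (.split (nat_lit 9) (nat_lit 8) (.unj (nat_lit 0x10005) (nat_lit 0x100000000000000000000000000010001) (nat_lit 0x41500) (nat_lit 0x1000000000001000200020000000000000000)) (.non (nat_lit 0) (nat_lit 4) (nat_lit 0x55400) (nat_lit 0x1000100010001000100000000000000000000))) (.non (nat_lit 0) (nat_lit 4) (nat_lit 0x45400) (nat_lit 0x1000000010001000100000000000000000000))) (.non (nat_lit 0) (nat_lit 4) (nat_lit 0x41400) (nat_lit 0x1000000000001000100000000000000000000))) (.non (nat_lit 0) (nat_lit 6) (nat_lit 0x40500) (nat_lit 0x1000000000000000100010000000000000000))) (.non (nat_lit 0) (nat_lit 4) (nat_lit 0x55444) (nat_lit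 0x1000100010001000100000001000000010000))) (.non (nat_lit 0) (nat_lit 4) (nat_lit 0x55414) (nat_lit 0x1000100010001000100000000000100010000))) (.non (nat_lit 0) (nat_lit 4) (nat_lit 0x55404) (nat_lit 0x1000100010001000100000000000000010000))) (.non (nat_lit 1) (nat_lit 4) (nat_lit 0x55401) (nat_lit 0x1000100010001000100000000000000000001))))) (.split (nat_lit 8) (nat_lit 0) (.pd (.cons (nat_lit 0) (nat_lit 5) (nat_lit 0) (nat_lit 0x187041110) (nat_lit 0xa2c28b71aef423f00000f423ff423ff423f1e84300000) (.cons (nat_lit 1) (nat_lit 5) (nat_lit 0) (nat_lit 0x87043200) (nat_lit 0xa2c28b71aef423f00000f423ff423ff423f000003d08b) .nil)) (.ex (nat_lit 5) (.pd (.cons (nat_lit 0) (nat_lit 7) (nat_lit 0) (nat_lit 0x105441110) (nat_lit 0xf423f00000f423fb71ae1f156f423ff423f3d08c00000) (.cons (nat_lit 0) (nat_lit 8) (nat_lit 0) (nat_lit 0x65441110) (nat_lit 0xf423fb71aea2c2804737f423ff423f7a11d00000) (.cons (nat_lit 1) (nat_lit 7) (nat_lit 0) (nat_lit 0x5443200) (nat_lit 0xf423f00000f423fb71ae1f156f423ff423f000007a11e)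 (.cons (nat_lit 1) (nat_lit 8) (nat_lit 0) (nat_lit 0x65443200) (nat_lit 0xf423fb71aea2c2804737f423ff423f00000f423f) (.cons (nat_lit 2) (nat_lit 8) (nat_lit 0) (nat_lit 0x65441000) (nat_lit 0xf423fb71aea2c2804737f423f00000b71ae1f156) (.cons (nat_lit 3) (nat_lit 8) (nat_lit 0) (nat_lit 0x65440100) (nat_lit 0xf423fb71aea2c280473700000f423fb71ae1f156) .nil)))))) (.leaf (.cons (nat_lit 0x10005) (nat_lit 0x100000000000000000000000000010001) .nil) .nil)) (.split (nat_lit 9) (nat_lit 0) (.split (nat_lit 9) (nat_lit 1) (.split (nat_lit 9) (nat_lit 2) (.split (nat_lit 9) (nat_lit 3) (.split (nat_lit 9) (nat_lit 4) (.split (nat_lit 9) (nat_lit 6) (.split (nat_lit 9) (nat_lit 7) (.split (nat_lit 9) (nat_lit 8) (.unj (nat_lit 0x10005) (nat_lit 0x100000000000000000000000000010001) (nat_lit 0x41500) (nat_lit 0x1000000000001000200020000000000000000)) (.non (nat_lit 0) (nat_lit 4) (nat_lit 0x55400) (nat_lit 0x1000100010001000100000000000000000000))) (.non (nat_lit 0) (nat_lit 4) (nat_lit 0x45400) (nat_lit 0x1000000010001000100000000000000000000)))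 (.non (nat_lit 0) (nat_lit 4) (nat_lit 0x41400) (nat_lit 0x1000000000001000100000000000000000000))) (.non (nat_lit 0) (nat_lit 6) (nat_lit 0x40500) (nat_lit 0x1000000000000000100010000000000000000))) (.non (nat_lit 0) (nat_lit 4) (nat_lit 0x55444) (nat_lit 0x1000100010001000100000001000000010000))) (.non (nat_lit 0) (nat_lit 4) (nat_lit 0x55414) (nat_lit 0x1000100010001000100000000000100010000))) (.non (nat_lit 0) (nat_lit 4) (nat_lit 0x55404) (nat_lit 0x1000100010001000100000000000000010000))) (.non (nat_lit 1) (nat_lit 4) (nat_lit 0x6a001) (nat_lit 0x2000300020001000000000000000000000004))))) (.non (nat_lit 1) (nat_lit 4) (nat_lit 0x15401) (nat_lit 0x400030002000100000000000000000003))))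

noncomputable def t1122_29 : Tr := (.split (nat_lit 8) (nat_lit 7) (.split (nat_lit 8) (nat_lit 0) (.pd (.cons (nat_lit 0) (nat_lit 5) (nat_lit 0) (nat_lit 0x3187041110) (nat_lit 0xf423fa2c28b71aef423f00000f423fb71aef423f0a2bd00000) (.cons (nat_lit 0) (nat_lit 7) (nat_lit 0) (nat_lit 0x3105441110) (nat_lit 0xf423ff423f00000f423fb71ae1f156b71aef423f28b0600000) (.cons (nat_lit 0) (nat_lit 8) (nat_lit 0) (nat_lit 0x3065441110) (nat_lit 0xf423f00000f423fb71aea2c2804737b71aef423f65b9700000) (.cons (nat_lit 1) (nat_lit 5) (nat_lit 0) (nat_lit 0x3087043200) (nat_lit 0xf423fa2c28b71aef423f00000f423fb71aef423f0000098965) (.cons (nat_lit 1) (nat_lit 7) (nat_lit 0) (nat_lit 0x3005443200) (nat_lit 0xf423ff423f00000f423fb71ae1f156b71aef423f00000b71ae) (.cons (nat_lit 1) (nat_lit 8) (nat_lit 0) (nat_lit 0x3065443200) (nat_lit 0xf423f00000f423fb71aea2c2804737b71aef423f00000f423f) (.cons (nat_lit 2) (nat_lit 8) (nat_lit 0) (nat_lit 0x3065441000) (nat_lit 0xf423f00000f423fb71aea2c2804737b71ae00000a2c2804737)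 (.cons (nat_lit 3) (nat_lit 8) (nat_lit 0) (nat_lit 0x9065440100) (nat_lit 0xf423f00000f423fb71aea2c280473700000f423fb71ae1f156) .nil)))))))) (.leaf (.cons (nat_lit 0x10005) (nat_lit 0x100000000000000000000000000010001) .nil) .nil)) (.split (nat_lit 8) (nat_lit 0) (.pd (.cons (nat_lit 0) (nat_lit 5) (nat_lit 0) (nat_lit 0x3187041110) (nat_lit 0xf423fa2c28b71aef423f00000f423fb71aef423f0a2bd00000) (.cons (nat_lit 0) (nat_lit 7) (nat_lit 0) (nat_lit 0x3105441110) (nat_lit 0xf423ff423f00000f423fb71ae1f156b71aef423f28b0600000) (.cons (nat_lit 0) (nat_lit 8) (nat_lit 0) (nat_lit 0x3065441110) (nat_lit 0xf423f00000f423fb71aea2c2804737b71aef423f65b9700000) (.cons (nat_lit 1) (nat_lit 5) (nat_lit 0) (nat_lit 0x3087043200) (nat_lit 0xf423fa2c28b71aef423f00000f423fb71aef423f000003d08b) (.cons (nat_lit 1) (nat_lit 7) (nat_lit 0) (nat_lit 0x3005443200) (nat_lit 0xf423ff423f00000f423fb71ae1f156b71aef423f000007a11e) (.cons (nat_lit 1) (nat_lit 8) (nat_lit 0) (nat_lit 0x3065443200) (nat_lit 0xf423f00000f423fb71aea2c2804737b71aef423f00000f423f)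 (.cons (nat_lit 2) (nat_lit 8) (nat_lit 0) (nat_lit 0x3065441000) (nat_lit 0xf423f00000f423fb71aea2c2804737b71ae00000a2c2804737) (.cons (nat_lit 3) (nat_lit 8) (nat_lit 0) (nat_lit 0x9065440100) (nat_lit 0xf423f00000f423fb71aea2c280473700000f423fb71ae1f156) .nil)))))))) (.leaf (.cons (nat_lit 0x10005) (nat_lit 0x100000000000000000000000000010001) .nil) .nil)) (.non (nat_lit 1) (nat_lit 4) (nat_lit 0x15401) (nat_lit 0x400030002000100000000000000000003)))) (.non (nat_lit 0) (nat_lit 4) (nat_lit 0x1a804) (nat_lit 0x400030002000100000000000000020000)))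

noncomputable def t1122_30 : Tr := (.split (nat_lit 9) (nat_lit 0) (.st (nat_lit 3) (nat_lit 0) (nat_lit 4) (nat_lit 0x50054) (nat_lit 0x1000100000000000000000002000100020000) (nat_lit 1) (nat_lit 1) (.st (nat_lit 5) (nat_lit 0) (nat_lit 4) (nat_lit 0x55454) (nat_lit 0x2000500040003000200000004000300060000) (nat_lit 1) (nat_lit 1) (.st (nat_lit 9) (nat_lit 0) (nat_lit 4) (nat_lit 0x55054) (nat_lit 0x2000300020001000000000003000200040000) (nat_lit 1) (nat_lit 1) (.ex (nat_lit 4) (.split (nat_lit 8) (nat_lit 1) (.split (nat_lit 9) (nat_lit 3) t1122_29 (.non (nat_lit 0) (nat_lit 4) (nat_lit 0x90054) (nat_lit 0x1000100000000000000000002000100020000))) (.non (nat_lit 0) (nat_lit 4) (nat_lit 0x68044) (nat_lit 0x1000200010000000000000002000000030000))) (.split (nat_lit 0xa) (nat_lit 0) (.split (nat_lit 0xa) (nat_lit 1) (.split (nat_lit 0xa) (nat_lit 2) (.split (nat_lit 0xa) (nat_lit 3) (.split (nat_lit 0xa) (nat_lit 5) (.split (nat_lit 0xa) (nat_lit 6) (.split (nat_lit 0xa) (nat_lit 7) (.split (nat_lit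 0xa) (nat_lit 8) (.split (nat_lit 0xa) (nat_lit 9) (.unj (nat_lit 0x10005) (nat_lit 0x100000000000000000000000000010001) (nat_lit 0x101500) (nat_lit 0x10000000000000001000200020000000000000000)) (.non (nat_lit 0) (nat_lit 4) (nat_lit 0x155054) (nat_lit 0x10002000300020001000000000003000200040000))) (.non (nat_lit 0) (nat_lit 4) (nat_lit 0x155444) (nat_lit 0x20001000400030002000100000002000000030000))) (.non (nat_lit 0) (nat_lit 4) (nat_lit 0x115054) (nat_lit 0x10000000200020001000000000001000100020000))) (.non (nat_lit 0) (nat_lit 4) (nat_lit 0x115454) (nat_lit 0x10000000200020002000100000001000100020000))) (.non (nat_lit 0) (nat_lit 4) (nat_lit 0x155454) (nat_lit 0x10002000500040003000200000004000300060000))) (.non (nat_lit 0) (nat_lit 4) (nat_lit 0x150054) (nat_lit 0x10001000100000000000000000002000100020000))) (.non (nat_lit 0) (nat_lit 4) (nat_lit 0x154054) (nat_lit 0x10001000200010000000000000002000200030000))) (.star (nat_lit 0xa) (nat_lit 1) (nat_lit 4))) (.star (nat_lit 0xa) (nat_lit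 0) (nat_lit 4))))))) (.split (nat_lit 9) (nat_lit 0) (.split (nat_lit 9) (nat_lit 3) (.split (nat_lit 8) (nat_lit 0) (.split (nat_lit 8) (nat_lit 1) (.sup (nat_lit 0x10006000b0010000d0000000000000000) (nat_lit 0x2000000000000000000000002000100020002)) (.non (nat_lit 0) (nat_lit 4) (nat_lit 0x68044) (nat_lit 0x1000200010000000000000002000000030000))) (.non (nat_lit 1) (nat_lit 4) (nat_lit 0x6a001) (nat_lit 0x2000300020001000000000000000000000004))) (.non (nat_lit 0) (nat_lit 4) (nat_lit 0x90054) (nat_lit 0x1000100000000000000000002000100020000))) (.non (nat_lit 1) (nat_lit 4) (nat_lit 0x94081) (nat_lit 0x2000200010000000000000001000000000003))))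

noncomputable def t1122_31 : Tr := (.split (nat_lit 8) (nat_lit 7) (.split (nat_lit 8) (nat_lit 0) (.pd (.cons (nat_lit 0) (nat_lit 5) (nat_lit 0) (nat_lit 0x2187041110) (nat_lit 0xf423fa2c28b71aef423f00000f423ff423fb71ae0a2bd00000) (.cons (nat_lit 0) (nat_lit 7) (nat_lit 0) (nat_lit 0x2105441110) (nat_lit 0xf423ff423f00000f423fb71ae1f156f423fb71ae28b0600000) (.cons (nat_lit 0) (nat_lit 8) (nat_lit 0) (nat_lit 0x2065441110) (nat_lit 0xf423f00000f423fb71aea2c2804737f423fb71ae65b9700000) (.cons (nat_lit 1) (nat_lit 5) (nat_lit 0) (nat_lit 0x2087043200) (nat_lit 0xf423fa2c28b71aef423f00000f423ff423fb71ae0000098965) (.cons (nat_lit 1) (nat_lit 7) (nat_lit 0) (nat_lit 0x2005443200) (nat_lit 0xf423ff423f00000f423fb71ae1f156f423fb71ae00000b71ae) (.cons (nat_lit 1) (nat_lit 8) (nat_lit 0) (nat_lit 0x2065443200) (nat_lit 0xf423f00000f423fb71aea2c2804737f423fb71ae00000f423f) (.cons (nat_lit 2) (nat_lit 8) (nat_lit 0) (nat_lit 0x9065441000) (nat_lit 0xf423f00000f423fb71aea2c2804737f423f00000b71ae1f156)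 (.cons (nat_lit 3) (nat_lit 8) (nat_lit 0) (nat_lit 0x2065440100) (nat_lit 0xf423f00000f423fb71aea2c280473700000b71aea2c2804737) .nil)))))))) (.leaf (.cons (nat_lit 0x10005) (nat_lit 0x100000000000000000000000000010001) .nil) .nil)) (.split (nat_lit 8) (nat_lit 0) (.pd (.cons (nat_lit 0) (nat_lit 5) (nat_lit 0) (nat_lit 0x2187041110) (nat_lit 0xf423fa2c28b71aef423f00000f423ff423fb71ae0a2bd00000) (.cons (nat_lit 0) (nat_lit 7) (nat_lit 0) (nat_lit 0x2105441110) (nat_lit 0xf423ff423f00000f423fb71ae1f156f423fb71ae28b0600000) (.cons (nat_lit 0) (nat_lit 8) (nat_lit 0) (nat_lit 0x2065441110) (nat_lit 0xf423f00000f423fb71aea2c2804737f423fb71ae65b9700000) (.cons (nat_lit 1) (nat_lit 5) (nat_lit 0) (nat_lit 0x2087043200) (nat_lit 0xf423fa2c28b71aef423f00000f423ff423fb71ae000003d08b) (.cons (nat_lit 1) (nat_lit 7) (nat_lit 0) (nat_lit 0x2005443200) (nat_lit 0xf423ff423f00000f423fb71ae1f156f423fb71ae000007a11e) (.cons (nat_lit 1) (nat_lit 8) (nat_lit 0) (nat_lit 0x2065443200) (nat_lit 0xf423f00000f423fb71aea2c2804737f423fb71ae00000f423f)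 (.cons (nat_lit 2) (nat_lit 8) (nat_lit 0) (nat_lit 0x9065441000) (nat_lit 0xf423f00000f423fb71aea2c2804737f423f00000b71ae1f156) (.cons (nat_lit 3) (nat_lit 8) (nat_lit 0) (nat_lit 0x2065440100) (nat_lit 0xf423f00000f423fb71aea2c280473700000b71aea2c2804737) .nil)))))))) (.leaf (.cons (nat_lit 0x10005) (nat_lit 0x100000000000000000000000000010001) .nil) .nil)) (.non (nat_lit 1) (nat_lit 4) (nat_lit 0x15401) (nat_lit 0x400030002000100000000000000000003)))) (.non (nat_lit 0) (nat_lit 4) (nat_lit 0x1a804) (nat_lit 0x400030002000100000000000000020000)))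

noncomputable def t1122_32 : Tr := (.split (nat_lit 9) (nat_lit 0) (.st (nat_lit 2) (nat_lit 0) (nat_lit 4) (nat_lit 0x50054) (nat_lit 0x1000100000000000000000001000200020000) (nat_lit 1) (nat_lit 1) (.st (nat_lit 3) (nat_lit 0) (nat_lit 4) (nat_lit 0x54054) (nat_lit 0x1000200010000000000000002000200030000) (nat_lit 1) (nat_lit 1) (.st (nat_lit 5) (nat_lit 0) (nat_lit 4) (nat_lit 0x55454) (nat_lit 0x2000500040003000200000003000400060000) (nat_lit 1) (nat_lit 1) (.st (nat_lit 9) (nat_lit 0) (nat_lit 4) (nat_lit 0x55054) (nat_lit 0x2000300020001000000000002000300040000) (nat_lit 1) (nat_lit 1) (.ex (nat_lit 4) (.split (nat_lit 8) (nat_lit 1) (.split (nat_lit 9) (nat_lit 2) t1122_31 (.non (nat_lit 0) (nat_lit 4) (nat_lit 0x90054) (nat_lit 0x1000100000000000000000001000200020000))) (.non (nat_lit 0) (nat_lit 4) (nat_lit 0x2a044) (nat_lit 0x300020001000000000002000000040000))) (.split (nat_lit 0xa) (nat_lit 0) (.split (nat_lit 0xa) (nat_lit 1) (.split (nat_lit 0xa) (nat_lit 2) (.split (nat_lit 0xa)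 (nat_lit 3) (.split (nat_lit 0xa) (nat_lit 5) (.split (nat_lit 0xa) (nat_lit 6) (.split (nat_lit 0xa) (nat_lit 7) (.split (nat_lit 0xa) (nat_lit 8) (.split (nat_lit 0xa) (nat_lit 9) (.unj (nat_lit 0x10005) (nat_lit 0x100000000000000000000000000010001) (nat_lit 0x101500) (nat_lit 0x10000000000000001000200020000000000000000)) (.non (nat_lit 0) (nat_lit 4) (nat_lit 0x155054) (nat_lit 0x10002000300020001000000000002000300040000))) (.non (nat_lit 0) (nat_lit 4) (nat_lit 0x155414) (nat_lit 0x20001000400030002000100000000000200030000))) (.non (nat_lit 0) (nat_lit 4) (nat_lit 0x115054) (nat_lit 0x10000000200020001000000000001000100020000))) (.non (nat_lit 0) (nat_lit 4) (nat_lit 0x115454) (nat_lit 0x10000000200020002000100000001000100020000))) (.non (nat_lit 0) (nat_lit 4) (nat_lit 0x155454) (nat_lit 0x10002000500040003000200000003000400060000))) (.non (nat_lit 0) (nat_lit 4) (nat_lit 0x154054) (nat_lit 0x10001000200010000000000000002000200030000))) (.non (nat_lit 0) (nat_lit 4) (nat_lit 0x150054) (nat_lit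 0x10001000100000000000000000001000200020000))) (.star (nat_lit 0xa) (nat_lit 1) (nat_lit 4))) (.star (nat_lit 0xa) (nat_lit 0) (nat_lit 4)))))))) (.split (nat_lit 9) (nat_lit 0) (.split (nat_lit 9) (nat_lit 2) (.split (nat_lit 8) (nat_lit 0) (.split (nat_lit 8) (nat_lit 1) (.sup (nat_lit 0x10006000b0010000d0000000000000000) (nat_lit 0x2000000000000000000000001000200020002)) (.non (nat_lit 0) (nat_lit 4) (nat_lit 0x2a044) (nat_lit 0x300020001000000000002000000040000))) (.non (nat_lit 1) (nat_lit 4) (nat_lit 0x6a001) (nat_lit 0x2000300020001000000000000000000000004))) (.non (nat_lit 0) (nat_lit 4) (nat_lit 0x90054) (nat_lit 0x1000100000000000000000001000200020000))) (.non (nat_lit 1) (nat_lit 4) (nat_lit 0x94021) (nat_lit 0x2000200010000000000000000000100000003))))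

noncomputable def t1122_33 : Tr := (.ex (nat_lit 2) (.ex (nat_lit 3) (.ex (nat_lit 4) (.split (nat_lit 8) (nat_lit 1) (.split (nat_lit 8) (nat_lit 7) t1122_28 (.non (nat_lit 0) (nat_lit 4) (nat_lit 0x1a804) (nat_lit 0x400030002000100000000000000020000))) (.non (nat_lit 0) (nat_lit 4) (nat_lit 0x2a044) (nat_lit 0x300020001000000000002000000040000))) (.split (nat_lit 9) (nat_lit 0) (.split (nat_lit 9) (nat_lit 1) (.split (nat_lit 9) (nat_lit 2) (.split (nat_lit 9) (nat_lit 3) (.split (nat_lit 9) (nat_lit 5) (.split (nat_lit 9) (nat_lit 6) (.split (nat_lit 9) (nat_lit 7) (.split (nat_lit 9) (nat_lit 8) (.unj (nat_lit 0x10005) (nat_lit 0x100000000000000000000000000010001) (nat_lit 0x41500) (nat_lit 0x1000000000001000200020000000000000000)) (.non (nat_lit 0) (nat_lit 4) (nat_lit 0x54054) (nat_lit 0x1000200010000000000000001000100020000))) (.non (nat_lit 0) (nat_lit 4) (nat_lit 0x55054) (nat_lit 0x1000200020001000000000001000100020000))) (.non (nat_lit 0) (nat_lit 4) (nat_lit 0x55454) (nat_lit 0x1000200020002000100000001000100020000)))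 (.non (nat_lit 0) (nat_lit 6) (nat_lit 0x40500) (nat_lit 0x1000000000000000100010000000000000000))) (.non (nat_lit 0) (nat_lit 6) (nat_lit 0x40544) (nat_lit 0x3000000000000000300040002000000010000))) (.non (nat_lit 0) (nat_lit 6) (nat_lit 0x40514) (nat_lit 0x3000000000000000300040000000200010000))) (.star (nat_lit 9) (nat_lit 1) (nat_lit 4))) (.star (nat_lit 9) (nat_lit 0) (nat_lit 4)))) (.split (nat_lit 9) (nat_lit 1) (.split (nat_lit 9) (nat_lit 2) (.split (nat_lit 9) (nat_lit 4) (.split (nat_lit 9) (nat_lit 5) (.split (nat_lit 9) (nat_lit 6) (.split (nat_lit 9) (nat_lit 7) (.split (nat_lit 9) (nat_lit 8) t1122_30 (.non (nat_lit 0) (nat_lit 4) (nat_lit 0x50044) (nat_lit 0x1000100000000000000000001000000010000))) (.non (nat_lit 0) (nat_lit 4) (nat_lit 0x54044) (nat_lit 0x1000100010000000000000001000000010000))) (.non (nat_lit 0) (nat_lit 4) (nat_lit 0x55044) (nat_lit 0x1000100010001000000000001000000010000))) (.non (nat_lit 0) (nat_lit 4) (nat_lit 0x55444) (nat_lit 0x1000100010001000100000001000000010000)))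 (.non (nat_lit 0) (nat_lit 6) (nat_lit 0x40544) (nat_lit 0x3000000000000000300040002000000010000))) (.non (nat_lit 0) (nat_lit 4) (nat_lit 0x40054) (nat_lit 0x1000000000000000000000001000100010000))) (.non (nat_lit 0) (nat_lit 4) (nat_lit 0x40044) (nat_lit 0x1000000000000000000000001000000010000)))) (.split (nat_lit 9) (nat_lit 1) (.split (nat_lit 9) (nat_lit 3) (.split (nat_lit 9) (nat_lit 4) (.split (nat_lit 9) (nat_lit 5) (.split (nat_lit 9) (nat_lit 6) (.split (nat_lit 9) (nat_lit 7) (.split (nat_lit 9) (nat_lit 8) t1122_32 (.non (nat_lit 0) (nat_lit 4) (nat_lit 0x50014) (nat_lit 0x1000100000000000000000000000100010000))) (.non (nat_lit 0) (nat_lit 4) (nat_lit 0x54014) (nat_lit 0x1000100010000000000000000000100010000))) (.non (nat_lit 0) (nat_lit 4) (nat_lit 0x55014) (nat_lit 0x1000100010001000000000000000100010000))) (.non (nat_lit 0) (nat_lit 4) (nat_lit 0x55414) (nat_lit 0x1000100010001000100000000000100010000))) (.non (nat_lit 0) (nat_lit 6) (nat_lit 0x40514) (nat_lit 0x3000000000000000300040000000200010000)))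 (.non (nat_lit 0) (nat_lit 4) (nat_lit 0x40054) (nat_lit 0x1000000000000000000000001000100010000))) (.non (nat_lit 0) (nat_lit 4) (nat_lit 0x40014) (nat_lit 0x1000000000000000000000000000100010000))))

noncomputable def t1122_34 : Tr := (.split (nat_lit 9) (nat_lit 0) (.pd (.cons (nat_lit 0) (nat_lit 5) (nat_lit 0) (nat_lit 0x9187041110) (nat_lit 0xf423fa2c28b71aef423f00000f423ff423ff423f1e84300000) (.cons (nat_lit 1) (nat_lit 5) (nat_lit 0) (nat_lit 0x87043200) (nat_lit 0xf423fa2c28b71aef423f00000f423ff423ff423f000005b8d4) .nil)) (.ex (nat_lit 5) (.pd (.cons (nat_lit 0) (nat_lit 7) (nat_lit 0) (nat_lit 0x9105441110) (nat_lit 0xf423ff423f00000f423fb71ae1f156f423ff423f3d08c00000) (.cons (nat_lit 0) (nat_lit 8) (nat_lit 0) (nat_lit 0x9065441110) (nat_lit 0xf423f00000f423fb71aea2c2804737f423ff423f7a11d00000) (.cons (nat_lit 1) (nat_lit 7) (nat_lit 0) (nat_lit 0x5443200) (nat_lit 0xf423ff423f00000f423fb71ae1f156f423ff423f000007a11d) (.cons (nat_lit 1) (nat_lit 8) (nat_lit 0) (nat_lit 0x65443200)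 (nat_lit 0xf423f00000f423fb71aea2c2804737f423ff423f00000b71ae) .nil)))) (.leaf (.cons (nat_lit 0x10005) (nat_lit 0x100000000000000000000000000010001) (.cons (nat_lit 0x40045) (nat_lit 0x1000000000000000000000001000000020002) (.cons (nat_lit 0x40015) (nat_lit 0x1000000000000000000000000000100020002) .nil))) .nil)) (.split (nat_lit 0xa) (nat_lit 0) (.split (nat_lit 0xa) (nat_lit 1) (.split (nat_lit 0xa) (nat_lit 2) (.split (nat_lit 0xa) (nat_lit 3) (.split (nat_lit 0xa) (nat_lit 4) (.split (nat_lit 0xa) (nat_lit 6) (.split (nat_lit 0xa) (nat_lit 7) (.split (nat_lit 0xa) (nat_lit 8) (.split (nat_lit 0xa) (nat_lit 9) (.unj (nat_lit 0x10005) (nat_lit 0x100000000000000000000000000010001) (nat_lit 0x101500) (nat_lit 0x10000000000000001000200020000000000000000)) (.non (nat_lit 1) (nat_lit 4) (nat_lit 0x155401) (nat_lit 0x10001000100010001000100000000000000000001))) (.non (nat_lit 0) (nat_lit 4) (nat_lit 0x115400) (nat_lit 0x10000000100010001000100000000000000000000))) (.non (nat_lit 0) (nat_lit 4) (nat_lit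 0x105400) (nat_lit 0x10000000000010001000100000000000000000000))) (.non (nat_lit 0) (nat_lit 4) (nat_lit 0x101400) (nat_lit 0x10000000000000001000100000000000000000000))) (.non (nat_lit 0) (nat_lit 6) (nat_lit 0x100500) (nat_lit 0x10000000000000000000100010000000000000000))) (.non (nat_lit 0) (nat_lit 4) (nat_lit 0x115444) (nat_lit 0x10000000100010001000100000001000000010000))) (.non (nat_lit 0) (nat_lit 4) (nat_lit 0x115414) (nat_lit 0x10000000100010001000100000000000100010000))) (.non (nat_lit 0) (nat_lit 4) (nat_lit 0x115404) (nat_lit 0x10000000100010001000100000000000000010000))) (.non (nat_lit 1) (nat_lit 4) (nat_lit 0x115401) (nat_lit 0x10000000100010001000100000000000000000001))))) (.split (nat_lit 9) (nat_lit 0) (.pd (.cons (nat_lit 0) (nat_lit 5) (nat_lit 0) (nat_lit 0x9187041110) (nat_lit 0xf423fa2c28b71aef423f00000f423ff423ff423f1e84300000) (.cons (nat_lit 1) (nat_lit 5) (nat_lit 0) (nat_lit 0x87043200) (nat_lit 0xf423fa2c28b71aef423f00000f423ff423ff423f000001e844) .nil)) (.ex (nat_lit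 5) (.pd (.cons (nat_lit 0) (nat_lit 7) (nat_lit 0) (nat_lit 0x9105441110) (nat_lit 0xf423ff423f00000f423fb71ae1f156f423ff423f3d08c00000) (.cons (nat_lit 0) (nat_lit 8) (nat_lit 0) (nat_lit 0x9065441110) (nat_lit 0xf423f00000f423fb71aea2c2804737f423ff423f7a11d00000) (.cons (nat_lit 1) (nat_lit 7) (nat_lit 0) (nat_lit 0x5443200) (nat_lit 0xf423ff423f00000f423fb71ae1f156f423ff423f000003d08d) (.cons (nat_lit 1) (nat_lit 8) (nat_lit 0) (nat_lit 0x65443200) (nat_lit 0xf423f00000f423fb71aea2c2804737f423ff423f000007a11e) .nil)))) (.leaf (.cons (nat_lit 0x40005) (nat_lit 0x1000000000000000000000000000000010001) .nil) .nil)) (.split (nat_lit 0xa) (nat_lit 0) (.split (nat_lit 0xa) (nat_lit 1) (.split (nat_lit 0xa) (nat_lit 2) (.split (nat_lit 0xa) (nat_lit 3) (.split (nat_lit 0xa) (nat_lit 4) (.split (nat_lit 0xa) (nat_lit 6) (.split (nat_lit 0xa) (nat_lit 7) (.split (nat_lit 0xa) (nat_lit 8) (.split (nat_lit 0xa) (nat_lit 9) (.unj (nat_lit 0x10005) (nat_lit 0x100000000000000000000000000010001) (nat_lit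 0x101500) (nat_lit 0x10000000000000001000200020000000000000000)) (.non (nat_lit 1) (nat_lit 4) (nat_lit 0x294001) (nat_lit 0x10002000200010000000000000000000000000003))) (.non (nat_lit 0) (nat_lit 4) (nat_lit 0x115400) (nat_lit 0x10000000100010001000100000000000000000000))) (.non (nat_lit 0) (nat_lit 4) (nat_lit 0x105400) (nat_lit 0x10000000000010001000100000000000000000000))) (.non (nat_lit 0) (nat_lit 4) (nat_lit 0x101400) (nat_lit 0x10000000000000001000100000000000000000000))) (.non (nat_lit 0) (nat_lit 6) (nat_lit 0x100500) (nat_lit 0x10000000000000000000100010000000000000000))) (.non (nat_lit 0) (nat_lit 4) (nat_lit 0x115444) (nat_lit 0x10000000100010001000100000001000000010000))) (.non (nat_lit 0) (nat_lit 4) (nat_lit 0x115414) (nat_lit 0x10000000100010001000100000000000100010000))) (.non (nat_lit 0) (nat_lit 4) (nat_lit 0x115404) (nat_lit 0x10000000100010001000100000000000000010000))) (.non (nat_lit 1) (nat_lit 4) (nat_lit 0x190001) (nat_lit 0x10001000100000000000000000000000000000002)))))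 (.non (nat_lit 1) (nat_lit 4) (nat_lit 0x55001) (nat_lit 0x3000300020001000000000000000000000004))))

noncomputable def t1122_35 : Tr := (.split (nat_lit 9) (nat_lit 2) (.split (nat_lit 9) (nat_lit 3) (.ex (nat_lit 4) (.split (nat_lit 8) (nat_lit 1) (.split (nat_lit 8) (nat_lit 7) (.split (nat_lit 8) (nat_lit 0) t1122_34 (.non (nat_lit 1) (nat_lit 4) (nat_lit 0x6a001) (nat_lit 0x2000300020001000000000000000000000004))) (.non (nat_lit 0) (nat_lit 4) (nat_lit 0x1a804) (nat_lit 0x400030002000100000000000000020000))) (.non (nat_lit 0) (nat_lit 4) (nat_lit 0x2a044) (nat_lit 0x300020001000000000002000000040000))) (.split (nat_lit 0xa) (nat_lit 0) (.split (nat_lit 0xa) (nat_lit 1) (.split (nat_lit 0xa) (nat_lit 2) (.split (nat_lit 0xa) (nat_lit 3) (.split (nat_lit 0xa) (nat_lit 5) (.split (nat_lit 0xa) (nat_lit 6) (.split (nat_lit 0xa) (nat_lit 7) (.split (nat_lit 0xa) (nat_lit 8) (.split (nat_lit 0xa) (nat_lit 9) (.unj (nat_lit 0x10005) (nat_lit 0x100000000000000000000000000010001) (nat_lit 0x101500)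 (nat_lit 0x10000000000000001000200020000000000000000)) (.non (nat_lit 1) (nat_lit 6) (nat_lit 0x140501) (nat_lit 0x30002000000000000000300040000000000000001))) (.non (nat_lit 0) (nat_lit 4) (nat_lit 0x114054) (nat_lit 0x10000000200010000000000000001000100020000))) (.non (nat_lit 0) (nat_lit 4) (nat_lit 0x115054) (nat_lit 0x10000000200020001000000000001000100020000))) (.non (nat_lit 0) (nat_lit 4) (nat_lit 0x115454) (nat_lit 0x10000000200020002000100000001000100020000))) (.non (nat_lit 0) (nat_lit 6) (nat_lit 0x100500) (nat_lit 0x10000000000000000000100010000000000000000))) (.non (nat_lit 0) (nat_lit 6) (nat_lit 0x100544) (nat_lit 0x30000000000000000000300040002000000010000))) (.non (nat_lit 0) (nat_lit 6) (nat_lit 0x100514) (nat_lit 0x30000000000000000000300040000000200010000))) (.star (nat_lit 0xa) (nat_lit 1) (nat_lit 4))) (.star (nat_lit 0xa) (nat_lit 0) (nat_lit 4)))) (.split (nat_lit 9) (nat_lit 0) (.split (nat_lit 9) (nat_lit 3) (.split (nat_lit 8) (nat_lit 0) (.split (nat_lit 8) (nat_lit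 1) (.sup (nat_lit 0x10006000b0010000d0000000000000000) (nat_lit 0x2000000000000000000000002000100020002)) (.non (nat_lit 0) (nat_lit 4) (nat_lit 0x68044) (nat_lit 0x1000200010000000000000002000000030000))) (.non (nat_lit 1) (nat_lit 4) (nat_lit 0x6a001) (nat_lit 0x2000300020001000000000000000000000004))) (.non (nat_lit 0) (nat_lit 4) (nat_lit 0x90054) (nat_lit 0x1000100000000000000000002000100020000))) (.non (nat_lit 1) (nat_lit 4) (nat_lit 0x94081) (nat_lit 0x2000200010000000000000001000000000003)))) (.split (nat_lit 9) (nat_lit 3) (.split (nat_lit 9) (nat_lit 0) (.split (nat_lit 9) (nat_lit 2) (.split (nat_lit 8) (nat_lit 0) (.split (nat_lit 8) (nat_lit 1) (.sup (nat_lit 0x10006000b0010000d0000000000000000) (nat_lit 0x2000000000000000000000001000200020002)) (.non (nat_lit 0) (nat_lit 4) (nat_lit 0x2a044) (nat_lit 0x300020001000000000002000000040000))) (.non (nat_lit 1) (nat_lit 4) (nat_lit 0x6a001) (nat_lit 0x2000300020001000000000000000000000004))) (.non (nat_lit 0) (nat_lit 4) (nat_lit 0x90054)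 (nat_lit 0x1000100000000000000000001000200020000))) (.non (nat_lit 1) (nat_lit 4) (nat_lit 0x94021) (nat_lit 0x2000200010000000000000000000100000003))) (.non (nat_lit 0) (nat_lit 4) (nat_lit 0x40054) (nat_lit 0x1000000000000000000000001000100010000))))

noncomputable def t1122_36 : Tr := (.split (nat_lit 8) (nat_lit 0) (.split (nat_lit 8) (nat_lit 1) t1122_5 (.split (nat_lit 8) (nat_lit 2) (.split (nat_lit 8) (nat_lit 3) (.split (nat_lit 7) (nat_lit 2) (.split (nat_lit 7) (nat_lit 3) (.st (nat_lit 1) (nat_lit 0) (nat_lit 4) (nat_lit 0x10054) (nat_lit 0x100000000000000000001000100020000) (nat_lit 1) (nat_lit 1) (.st (nat_lit 6) (nat_lit 0) (nat_lit 4) (nat_lit 0x15454) (nat_lit 0x200020002000100000001000100020000) (nat_lit 1) (nat_lit 1) (.st (nat_lit 7) (nat_lit 0) (nat_lit 4) (nat_lit 0x15054) (nat_lit 0x200020001000000000001000100020000) (nat_lit 1) (nat_lit 1) (.st (nat_lit 8) (nat_lit 0) (nat_lit 4) (nat_lit 0x14054) (nat_lit 0x200010000000000000001000100020000) (nat_lit 1) (nat_lit 1) t1122_8))))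 (.non (nat_lit 0) (nat_lit 4) (nat_lit 0x14044) (nat_lit 0x100010000000000000001000000010000))) (.non (nat_lit 0) (nat_lit 4) (nat_lit 0x14014) (nat_lit 0x100010000000000000000000100010000))) (.non (nat_lit 0) (nat_lit 4) (nat_lit 0x10044) (nat_lit 0x100000000000000000001000000010000))) (.non (nat_lit 0) (nat_lit 4) (nat_lit 0x10014) (nat_lit 0x100000000000000000000000100010000)))) (.split (nat_lit 8) (nat_lit 1) t1122_27 (.split (nat_lit 8) (nat_lit 2) (.split (nat_lit 8) (nat_lit 3) (.split (nat_lit 7) (nat_lit 2) (.split (nat_lit 7) (nat_lit 3) (.st (nat_lit 1) (nat_lit 0) (nat_lit 4) (nat_lit 0x10054) (nat_lit 0x100000000000000000001000100020000) (nat_lit 1) (nat_lit 1) (.st (nat_lit 6) (nat_lit 0) (nat_lit 4) (nat_lit 0x15454) (nat_lit 0x200020002000100000001000100020000) (nat_lit 1) (nat_lit 1) (.st (nat_lit 7) (nat_lit 0) (nat_lit 4) (nat_lit 0x15054) (nat_lit 0x200020001000000000001000100020000) (nat_lit 1) (nat_lit 1) (.st (nat_lit 8) (nat_lit 0) (nat_lit 4) (nat_lit 0x14054) (nat_lit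 0x200010000000000000001000100020000) (nat_lit 1) (nat_lit 1) (.ex (nat_lit 0) t1122_33 (.split (nat_lit 9) (nat_lit 1) (.split (nat_lit 9) (nat_lit 4) (.split (nat_lit 9) (nat_lit 5) (.split (nat_lit 9) (nat_lit 6) (.split (nat_lit 9) (nat_lit 7) (.split (nat_lit 9) (nat_lit 8) t1122_35 (.non (nat_lit 0) (nat_lit 4) (nat_lit 0x54054) (nat_lit 0x1000200010000000000000001000100020000))) (.non (nat_lit 0) (nat_lit 4) (nat_lit 0x55054) (nat_lit 0x1000200020001000000000001000100020000))) (.star (nat_lit 9) (nat_lit 0) (nat_lit 6))) (.non (nat_lit 1) (nat_lit 4) (nat_lit 0x55401) (nat_lit 0x1000100010001000100000000000000000001))) (.star (nat_lit 9) (nat_lit 0) (nat_lit 4))) (.non (nat_lit 0) (nat_lit 4) (nat_lit 0x50054) (nat_lit 0x1000100000000000000000001000100020000)))))))) (.non (nat_lit 0) (nat_lit 4) (nat_lit 0x14044) (nat_lit 0x100010000000000000001000000010000))) (.non (nat_lit 0) (nat_lit 4) (nat_lit 0x14014) (nat_lit 0x100010000000000000000000100010000))) (.non (nat_lit 0) (nat_lit 4) (nat_lit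 0x10044) (nat_lit 0x100000000000000000001000000010000))) (.non (nat_lit 0) (nat_lit 4) (nat_lit 0x10014) (nat_lit 0x100000000000000000000000100010000)))))

noncomputable def t1122 : Tr := (.split (nat_lit 5) (nat_lit 2) (.split (nat_lit 5) (nat_lit 3) t1122_36 (.non (nat_lit 0) (nat_lit 6) (nat_lit 0x554) (nat_lit 0x400030003000100020000))) (.non (nat_lit 0) (nat_lit 6) (nat_lit 0x554) (nat_lit 0x400030001000300020000)))

noncomputable def t1125_1 : Tr := (.pd (.cons (nat_lit 0) (nat_lit 7) (nat_lit 0) (nat_lit 0x805441110) (nat_lit 0xf423f00000f423fb71ae1f156f423ff423f7a11d00000) (.cons (nat_lit 1) (nat_lit 7) (nat_lit 0) (nat_lit 0x805443200) (nat_lit 0xf423f00000f423fb71ae1f156f423ff423f00000f423f) (.cons (nat_lit 2) (nat_lit 7) (nat_lit 0) (nat_lit 0x805441000) (nat_lit 0xf423f00000f423fb71ae1f156f423f00000b71ae1f156) (.cons (nat_lit 3) (nat_lit 7) (nat_lit 0) (nat_lit 0x805440100) (nat_lit 0xf423f00000f423fb71ae1f15600000f423fb71ae1f156) (.cons (nat_lit 3) (nat_lit 8) (nat_lit 0) (nat_lit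 0x65440100) (nat_lit 0xf423fb71aea2c280473700000f423fb71ae1f156) .nil))))) (.ex (nat_lit 8) (.split (nat_lit 7) (nat_lit 3) (.pd (.cons (nat_lit 0) (nat_lit 4) (nat_lit 0) (nat_lit 0x737601110) (nat_lit 0xf423f65b97b71aef423f0000061a79f423f1e83b00000) (.cons (nat_lit 1) (nat_lit 4) (nat_lit 0) (nat_lit 0x737603200) (nat_lit 0xf423f65b97b71aef423f0000061a79f423f00000f423f) (.cons (nat_lit 3) (nat_lit 4) (nat_lit 0) (nat_lit 0x765500100) (nat_lit 0xf423fb71aea2c28989650000000000f423fb71ae1f156) .nil))) (.leaf (.cons (nat_lit 0x5540) (nat_lit 0x20003000400030001000000000000) (.cons (nat_lit 0x14045) (nat_lit 0x100020000000000000003000000040003) .nil)) (.cons (nat_lit 0x111001110) (nat_lit 0x100001) (nat_lit 9) (nat_lit 0x201003540) (.cons (nat_lit 0x110001110) (nat_lit 0x1000001) (nat_lit 3) (nat_lit 0x430002010) (.cons (nat_lit 0x111101000) (nat_lit 0x10010) (nat_lit 8) (nat_lit 0x203401000) (.cons (nat_lit 0x111001000) (nat_lit 0x100010) (nat_lit 7) (nat_lit 0x302001000) (.cons (nat_lit 0x110001000)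 (nat_lit 0x1000010) (nat_lit 1) (nat_lit 0x210000000) .nil))))))) (.non (nat_lit 0) (nat_lit 5) (nat_lit 0x2a040) (nat_lit 0x100020001000000000002000000000000))) (.split (nat_lit 9) (nat_lit 0) (.split (nat_lit 9) (nat_lit 1) (.split (nat_lit 9) (nat_lit 2) (.split (nat_lit 9) (nat_lit 3) (.split (nat_lit 9) (nat_lit 4) (.split (nat_lit 9) (nat_lit 5) (.split (nat_lit 9) (nat_lit 6) (.split (nat_lit 9) (nat_lit 7) (.split (nat_lit 9) (nat_lit 8) (.split (nat_lit 7) (nat_lit 3) (.sup (nat_lit 0x1000200030006000800060000000000000000) (nat_lit 0x1000300060005)) (.non (nat_lit 0) (nat_lit 5) (nat_lit 0x2a040) (nat_lit 0x100020001000000000002000000000000))) (.non (nat_lit 0) (nat_lit 5) (nat_lit 0x95040) (nat_lit 0x1000200020001000000000001000000000000))) (.non (nat_lit 0) (nat_lit 5) (nat_lit 0x54000) (nat_lit 0x1000100010000000000000000000000000000))) (.non (nat_lit 0) (nat_lit 5) (nat_lit 0x55000) (nat_lit 0x1000100010001000000000000000000000000))) (.non (nat_lit 0) (nat_lit 6) (nat_lit 0x54500)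 (nat_lit 0x3000200010000000400030000000000000000))) (.non (nat_lit 0) (nat_lit 5) (nat_lit 0x55154) (nat_lit 0x2000300040002000000010003000100020000))) (.non (nat_lit 0) (nat_lit 5) (nat_lit 0x54040) (nat_lit 0x1000100010000000000000001000000000000))) (.non (nat_lit 0) (nat_lit 5) (nat_lit 0x54054) (nat_lit 0x1000100010000000000000001000100010000))) (.non (nat_lit 0) (nat_lit 5) (nat_lit 0x54044) (nat_lit 0x1000100010000000000000001000000010000))) (.non (nat_lit 3) (nat_lit 5) (nat_lit 0x54005) (nat_lit 0x3000200010000000000000000000000030004)))))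

noncomputable def t1125_2 : Tr := (.ex (nat_lit 4) (.ex (nat_lit 5) (.ex (nat_lit 6) t1125_1 (.split (nat_lit 9) (nat_lit 0) (.split (nat_lit 9) (nat_lit 1) (.split (nat_lit 9) (nat_lit 2) (.split (nat_lit 9) (nat_lit 3) (.split (nat_lit 9) (nat_lit 4) (.split (nat_lit 9) (nat_lit 7) (.split (nat_lit 9) (nat_lit 8) (.split (nat_lit 9) (nat_lit 5) (.sup (nat_lit 0x1000300050004) (nat_lit 0x2000000010003000500040000000000000000)) (.unj (nat_lit 0x41400) (nat_lit 0x1000000000001000100000000000000000000) (nat_lit 0x55) (nat_lit 0x1000100020002))) (.non (nat_lit 0) (nat_lit 5) (nat_lit 0x55000) (nat_lit 0x1000100010001000000000000000000000000))) (.non (nat_lit 0) (nat_lit 5) (nat_lit 0x45000) (nat_lit 0x1000000010001000000000000000000000000))) (.non (nat_lit 0) (nat_lit 5) (nat_lit 0x55154) (nat_lit 0x2000200040003000000010003000100020000))) (.non (nat_lit 0) (nat_lit 5) (nat_lit 0x45040) (nat_lit 0x1000000010001000000000001000000000000))) (.non (nat_lit 0) (nat_lit 5) (nat_lit 0x45054) (nat_lit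 0x1000000010001000000000001000100010000))) (.star (nat_lit 9) (nat_lit 1) (nat_lit 6))) (.star (nat_lit 9) (nat_lit 0) (nat_lit 6)))) (.split (nat_lit 9) (nat_lit 0) (.split (nat_lit 9) (nat_lit 1) (.split (nat_lit 9) (nat_lit 2) (.split (nat_lit 9) (nat_lit 3) (.split (nat_lit 9) (nat_lit 4) (.split (nat_lit 9) (nat_lit 7) (.split (nat_lit 9) (nat_lit 8) (.split (nat_lit 9) (nat_lit 6) (.unj (nat_lit 0x55) (nat_lit 0x1000100020002) (nat_lit 0x41500) (nat_lit 0x1000000000001000200020000000000000000)) (.unj (nat_lit 0x41400) (nat_lit 0x1000000000001000100000000000000000000) (nat_lit 0x55) (nat_lit 0x1000100020002))) (.non (nat_lit 0) (nat_lit 6) (nat_lit 0x54500) (nat_lit 0x3000200010000000400030000000000000000))) (.non (nat_lit 0) (nat_lit 5) (nat_lit 0x55040) (nat_lit 0x1000100020001000000000001000000000000))) (.non (nat_lit 0) (nat_lit 6) (nat_lit 0x40500) (nat_lit 0x1000000000000000100010000000000000000))) (.non (nat_lit 0) (nat_lit 5) (nat_lit 0x55044) (nat_lit 0x1000100020001000000000002000000010000)))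 (.non (nat_lit 0) (nat_lit 6) (nat_lit 0x40514) (nat_lit 0x3000000000000000400030000000200010000))) (.star (nat_lit 9) (nat_lit 1) (nat_lit 5))) (.star (nat_lit 9) (nat_lit 0) (nat_lit 5)))) (.split (nat_lit 9) (nat_lit 0) (.split (nat_lit 9) (nat_lit 1) (.split (nat_lit 9) (nat_lit 2) (.split (nat_lit 9) (nat_lit 3) (.split (nat_lit 9) (nat_lit 5) (.split (nat_lit 9) (nat_lit 6) (.split (nat_lit 9) (nat_lit 7) (.split (nat_lit 9) (nat_lit 8) (.unj (nat_lit 0x55) (nat_lit 0x1000100020002) (nat_lit 0x41500) (nat_lit 0x1000000000001000200020000000000000000)) (.non (nat_lit 0) (nat_lit 5) (nat_lit 0x55154) (nat_lit 0x2000300040002000000010003000100020000))) (.non (nat_lit 0) (nat_lit 5) (nat_lit 0x55040) (nat_lit 0x1000100020001000000000001000000000000))) (.non (nat_lit 0) (nat_lit 5) (nat_lit 0x55154) (nat_lit 0x2000200040003000000010003000100020000))) (.non (nat_lit 0) (nat_lit 6) (nat_lit 0x40500) (nat_lit 0x1000000000000000100010000000000000000))) (.non (nat_lit 0) (nat_lit 5) (nat_lit 0x55044)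 (nat_lit 0x1000100020001000000000002000000010000))) (.non (nat_lit 0) (nat_lit 6) (nat_lit 0x40514) (nat_lit 0x3000000000000000300040000000200010000))) (.non (nat_lit 0) (nat_lit 5) (nat_lit 0x55054) (nat_lit 0x1000100020001000000000002000100020000))) (.non (nat_lit 3) (nat_lit 5) (nat_lit 0x40015) (nat_lit 0x1000000000000000000000000000100020002))))

noncomputable def t1125_3 : Tr := (.ex (nat_lit 0) (.ex (nat_lit 2) (.split (nat_lit 8) (nat_lit 7) (.pd (.cons (nat_lit 3) (nat_lit 5) (nat_lit 0) (nat_lit 0x766040100) (nat_lit 0xf423fb71aea2c2800000f423f00000f423fb71ae1f156) (.cons (nat_lit 3) (nat_lit 6) (nat_lit 0) (nat_lit 0x770440100) (nat_lit 0xf423fb71ae00000f423f5459100000f423fb71ae1f156) .nil)) t1125_2) (.non (nat_lit 0) (nat_lit 5) (nat_lit 0x25040) (nat_lit 0x100020001000000000001000000000000))) (.split (nat_lit 9) (nat_lit 1) (.split (nat_lit 9) (nat_lit 3) (.split (nat_lit 9) (nat_lit 4) (.split (nat_lit 9) (nat_lit 5) (.split (nat_lit 9) (nat_lit 6) (.split (nat_lit 9) (nat_lit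 7) (.split (nat_lit 9) (nat_lit 8) (.split (nat_lit 9) (nat_lit 0) (.sup (nat_lit 0x7000e00170020001a0000000000000000) (nat_lit 0x5000000000000000000000001000b0011000d)) (.unj (nat_lit 0x40015) (nat_lit 0x1000000000000000000000000000100010001) (nat_lit 0x15500) (nat_lit 0x100020003000400030000000000000000))) (.non (nat_lit 0) (nat_lit 5) (nat_lit 0x54054) (nat_lit 0x1000100010000000000000001000100010000))) (.non (nat_lit 0) (nat_lit 5) (nat_lit 0x55040) (nat_lit 0x1000100020001000000000001000000000000))) (.non (nat_lit 0) (nat_lit 5) (nat_lit 0x45054) (nat_lit 0x1000000010001000000000001000100010000))) (.non (nat_lit 0) (nat_lit 6) (nat_lit 0x40514) (nat_lit 0x3000000000000000400030000000200010000))) (.non (nat_lit 0) (nat_lit 6) (nat_lit 0x40514) (nat_lit 0x3000000000000000300040000000200010000))) (.non (nat_lit 0) (nat_lit 5) (nat_lit 0x55044) (nat_lit 0x1000100020001000000000002000000010000))) (.non (nat_lit 0) (nat_lit 5) (nat_lit 0x40014) (nat_lit 0x1000000000000000000000000000100010000))))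 (.split (nat_lit 9) (nat_lit 1) (.split (nat_lit 9) (nat_lit 3) (.split (nat_lit 9) (nat_lit 5) (.split (nat_lit 9) (nat_lit 6) (.split (nat_lit 9) (nat_lit 7) (.split (nat_lit 9) (nat_lit 2) (.split (nat_lit 9) (nat_lit 4) (.split (nat_lit 9) (nat_lit 8) (.unj (nat_lit 0x40015) (nat_lit 0x1000000000000000000000000000100020002) (nat_lit 0x15500) (nat_lit 0x100020003000400030000000000000000)) (.sup (nat_lit 0x20000000000000000000000000005000a0009) (nat_lit 0x100040007000a00080000000000000000))) (.split (nat_lit 9) (nat_lit 8) (.split (nat_lit 9) (nat_lit 0) (.sup (nat_lit 0x50005000a0006) (nat_lit 0x2000000000005000a00090000000000000000)) (.non (nat_lit 1) (nat_lit 6) (nat_lit 0x40501) (nat_lit 0x1000000000000000100010000000000000001))) (.non (nat_lit 0) (nat_lit 5) (nat_lit 0x55154) (nat_lit 0x2000300040002000000010003000100020000)))) (.split (nat_lit 9) (nat_lit 4) (.split (nat_lit 9) (nat_lit 8) (.unj (nat_lit 0x40015) (nat_lit 0x1000000000000000000000000000100010001) (nat_lit 0x15500) (nat_lit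 0x100020003000400030000000000000000)) (.non (nat_lit 0) (nat_lit 5) (nat_lit 0x54054) (nat_lit 0x1000100010000000000000001000100010000))) (.non (nat_lit 0) (nat_lit 6) (nat_lit 0x40514) (nat_lit 0x3000000000000000300040000000200010000)))) (.non (nat_lit 0) (nat_lit 5) (nat_lit 0x55040) (nat_lit 0x1000100020001000000000001000000000000))) (.star (nat_lit 9) (nat_lit 0) (nat_lit 6))) (.star (nat_lit 9) (nat_lit 0) (nat_lit 5))) (.non (nat_lit 0) (nat_lit 5) (nat_lit 0x55044) (nat_lit 0x1000100020001000000000002000000010000))) (.non (nat_lit 0) (nat_lit 5) (nat_lit 0x55054) (nat_lit 0x1000100020001000000000002000100020000))))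

noncomputable def t1125_4 : Tr := (.pd (.cons (nat_lit 0) (nat_lit 7) (nat_lit 0) (nat_lit 0x805441110) (nat_lit 0xf423f00000f423fb71ae1f156f423ff423f7a11d00000) (.cons (nat_lit 1) (nat_lit 7) (nat_lit 0) (nat_lit 0x805443200) (nat_lit 0xf423f00000f423fb71ae1f156f423ff423f00000f423f) (.cons (nat_lit 2) (nat_lit 7) (nat_lit 0) (nat_lit 0x805441000) (nat_lit 0xf423f00000f423fb71ae1f156f423f00000b71ae1f156) (.cons (nat_lit 2) (nat_lit 8) (nat_lit 0) (nat_lit 0x65441000) (nat_lit 0xf423fb71aea2c2804737f423f00000b71ae1f156) (.cons (nat_lit 3) (nat_lit 7) (nat_lit 0) (nat_lit 0x805440100) (nat_lit 0xf423f00000f423fb71ae1f15600000f423fb71ae1f156) .nil))))) (.ex (nat_lit 8) (.split (nat_lit 7) (nat_lit 2) (.pd (.cons (nat_lit 0) (nat_lit 4) (nat_lit 0) (nat_lit 0x727601110) (nat_lit 0xf423f65b97b71aef423f00000f423f61a791e83b00000) (.cons (nat_lit 1) (nat_lit 4) (nat_lit 0) (nat_lit 0x727603200) (nat_lit 0xf423f65b97b71aef423f00000f423f61a7900000f423f) (.cons (nat_lit 2) (nat_lit 4) (nat_lit 0) (nat_lit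 0x765501000) (nat_lit 0xf423fb71aea2c289896500000f423f00000b71ae1f156) .nil))) (.leaf (.cons (nat_lit 0x5510) (nat_lit 0x20003000400030000000100000000) (.cons (nat_lit 0x14015) (nat_lit 0x100020000000000000000000300040003) .nil)) (.cons (nat_lit 0x111001110) (nat_lit 0x100001) (nat_lit 9) (nat_lit 0x201005340) (.cons (nat_lit 0x110001110) (nat_lit 0x1000001) (nat_lit 3) (nat_lit 0x430000210) (.cons (nat_lit 0x111100100) (nat_lit 0x10010) (nat_lit 8) (nat_lit 0x203400100) (.cons (nat_lit 0x111000100) (nat_lit 0x100010) (nat_lit 7) (nat_lit 0x302000100) (.cons (nat_lit 0x110000100) (nat_lit 0x1000010) (nat_lit 1) (nat_lit 0x210000000) .nil))))))) (.non (nat_lit 0) (nat_lit 5) (nat_lit 0x2a010) (nat_lit 0x100020001000000000000000200000000))) (.split (nat_lit 9) (nat_lit 0) (.split (nat_lit 9) (nat_lit 1) (.split (nat_lit 9) (nat_lit 2) (.split (nat_lit 9) (nat_lit 3) (.split (nat_lit 9) (nat_lit 4) (.split (nat_lit 9) (nat_lit 5) (.split (nat_lit 9) (nat_lit 6) (.split (nat_lit 9) (nat_lit 7) (.split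 (nat_lit 9) (nat_lit 8) (.split (nat_lit 7) (nat_lit 2) (.sup (nat_lit 0x1000200030006000800060000000000000000) (nat_lit 0x3000100060005)) (.non (nat_lit 0) (nat_lit 5) (nat_lit 0x2a010) (nat_lit 0x100020001000000000000000200000000))) (.non (nat_lit 0) (nat_lit 5) (nat_lit 0x95010) (nat_lit 0x1000200020001000000000000000100000000))) (.non (nat_lit 0) (nat_lit 5) (nat_lit 0x54000) (nat_lit 0x1000100010000000000000000000000000000))) (.non (nat_lit 0) (nat_lit 5) (nat_lit 0x55000) (nat_lit 0x1000100010001000000000000000000000000))) (.non (nat_lit 0) (nat_lit 6) (nat_lit 0x54500) (nat_lit 0x3000200010000000400030000000000000000))) (.non (nat_lit 0) (nat_lit 5) (nat_lit 0x55154) (nat_lit 0x2000300040002000000010001000300020000))) (.non (nat_lit 0) (nat_lit 5) (nat_lit 0x54054) (nat_lit 0x1000100010000000000000001000100010000))) (.non (nat_lit 0) (nat_lit 5) (nat_lit 0x54010) (nat_lit 0x1000100010000000000000000000100000000))) (.non (nat_lit 0) (nat_lit 5) (nat_lit 0x54014) (nat_lit 0x1000100010000000000000000000100010000)))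 (.non (nat_lit 2) (nat_lit 5) (nat_lit 0x54005) (nat_lit 0x3000200010000000000000000000000030004)))))

noncomputable def t1125_5 : Tr := (.ex (nat_lit 4) (.ex (nat_lit 5) (.ex (nat_lit 6) t1125_4 (.split (nat_lit 9) (nat_lit 0) (.split (nat_lit 9) (nat_lit 1) (.split (nat_lit 9) (nat_lit 2) (.split (nat_lit 9) (nat_lit 3) (.split (nat_lit 9) (nat_lit 4) (.split (nat_lit 9) (nat_lit 7) (.split (nat_lit 9) (nat_lit 8) (.split (nat_lit 9) (nat_lit 5) (.sup (nat_lit 0x3000100050004) (nat_lit 0x2000000010003000500040000000000000000)) (.unj (nat_lit 0x41400) (nat_lit 0x1000000000001000100000000000000000000) (nat_lit 0x55) (nat_lit 0x1000100020002))) (.non (nat_lit 0) (nat_lit 5) (nat_lit 0x55000) (nat_lit 0x1000100010001000000000000000000000000))) (.non (nat_lit 0) (nat_lit 5) (nat_lit 0x45000) (nat_lit 0x1000000010001000000000000000000000000))) (.non (nat_lit 0) (nat_lit 5) (nat_lit 0x55154) (nat_lit 0x2000200040003000000010001000300020000))) (.non (nat_lit 0) (nat_lit 5) (nat_lit 0x45054) (nat_lit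 0x1000000010001000000000001000100010000))) (.non (nat_lit 0) (nat_lit 5) (nat_lit 0x45010) (nat_lit 0x1000000010001000000000000000100000000))) (.star (nat_lit 9) (nat_lit 1) (nat_lit 6))) (.star (nat_lit 9) (nat_lit 0) (nat_lit 6)))) (.split (nat_lit 9) (nat_lit 0) (.split (nat_lit 9) (nat_lit 1) (.split (nat_lit 9) (nat_lit 2) (.split (nat_lit 9) (nat_lit 3) (.split (nat_lit 9) (nat_lit 4) (.split (nat_lit 9) (nat_lit 7) (.split (nat_lit 9) (nat_lit 8) (.split (nat_lit 9) (nat_lit 6) (.unj (nat_lit 0x55) (nat_lit 0x1000100020002) (nat_lit 0x41500) (nat_lit 0x1000000000001000200020000000000000000)) (.unj (nat_lit 0x41400) (nat_lit 0x1000000000001000100000000000000000000) (nat_lit 0x55) (nat_lit 0x1000100020002))) (.non (nat_lit 0) (nat_lit 6) (nat_lit 0x54500) (nat_lit 0x3000200010000000400030000000000000000))) (.non (nat_lit 0) (nat_lit 5) (nat_lit 0x55010) (nat_lit 0x1000100020001000000000000000100000000))) (.non (nat_lit 0) (nat_lit 6) (nat_lit 0x40500) (nat_lit 0x1000000000000000100010000000000000000)))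 (.non (nat_lit 0) (nat_lit 6) (nat_lit 0x40544) (nat_lit 0x3000000000000000400030002000000010000))) (.non (nat_lit 0) (nat_lit 5) (nat_lit 0x55014) (nat_lit 0x1000100020001000000000000000200010000))) (.star (nat_lit 9) (nat_lit 1) (nat_lit 5))) (.star (nat_lit 9) (nat_lit 0) (nat_lit 5)))) (.split (nat_lit 9) (nat_lit 0) (.split (nat_lit 9) (nat_lit 1) (.split (nat_lit 9) (nat_lit 2) (.split (nat_lit 9) (nat_lit 3) (.split (nat_lit 9) (nat_lit 5) (.split (nat_lit 9) (nat_lit 6) (.split (nat_lit 9) (nat_lit 7) (.split (nat_lit 9) (nat_lit 8) (.unj (nat_lit 0x55) (nat_lit 0x1000100020002) (nat_lit 0x41500) (nat_lit 0x1000000000001000200020000000000000000)) (.non (nat_lit 0) (nat_lit 5) (nat_lit 0x55154) (nat_lit 0x2000300040002000000010001000300020000))) (.non (nat_lit 0) (nat_lit 5) (nat_lit 0x55010) (nat_lit 0x1000100020001000000000000000100000000))) (.non (nat_lit 0) (nat_lit 5) (nat_lit 0x55154) (nat_lit 0x2000200040003000000010001000300020000))) (.non (nat_lit 0) (nat_lit 6) (nat_lit 0x40500)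 (nat_lit 0x1000000000000000100010000000000000000))) (.non (nat_lit 0) (nat_lit 6) (nat_lit 0x40544) (nat_lit 0x3000000000000000300040002000000010000))) (.non (nat_lit 0) (nat_lit 5) (nat_lit 0x55014) (nat_lit 0x1000100020001000000000000000200010000))) (.non (nat_lit 0) (nat_lit 5) (nat_lit 0x55054) (nat_lit 0x1000100020001000000000001000200020000))) (.non (nat_lit 2) (nat_lit 5) (nat_lit 0x40045) (nat_lit 0x1000000000000000000000001000000020002))))

noncomputable def t1125_6 : Tr := (.ex (nat_lit 0) (.ex (nat_lit 3) (.split (nat_lit 8) (nat_lit 7) (.pd (.cons (nat_lit 2) (nat_lit 5) (nat_lit 0) (nat_lit 0x766041000) (nat_lit 0xf423fb71aea2c2800000f423ff423f00000b71ae1f156) (.cons (nat_lit 2) (nat_lit 6) (nat_lit 0) (nat_lit 0x770441000) (nat_lit 0xf423fb71ae00000f423f54591f423f00000b71ae1f156) .nil)) t1125_5) (.non (nat_lit 0) (nat_lit 5) (nat_lit 0x25010) (nat_lit 0x100020001000000000000000100000000))) (.split (nat_lit 9) (nat_lit 1) (.split (nat_lit 9) (nat_lit 2) (.split (nat_lit 9) (nat_lit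 4) (.split (nat_lit 9) (nat_lit 5) (.split (nat_lit 9) (nat_lit 6) (.split (nat_lit 9) (nat_lit 7) (.split (nat_lit 9) (nat_lit 8) (.split (nat_lit 9) (nat_lit 0) (.sup (nat_lit 0x7000e00170020001a0000000000000000) (nat_lit 0x500000000000000000000000b00010011000d)) (.unj (nat_lit 0x40045) (nat_lit 0x1000000000000000000000001000000010001) (nat_lit 0x15500) (nat_lit 0x100020003000400030000000000000000))) (.non (nat_lit 0) (nat_lit 5) (nat_lit 0x54054) (nat_lit 0x1000100010000000000000001000100010000))) (.non (nat_lit 0) (nat_lit 5) (nat_lit 0x55010) (nat_lit 0x1000100020001000000000000000100000000))) (.non (nat_lit 0) (nat_lit 5) (nat_lit 0x45054) (nat_lit 0x1000000010001000000000001000100010000))) (.non (nat_lit 0) (nat_lit 6) (nat_lit 0x40544) (nat_lit 0x3000000000000000400030002000000010000))) (.non (nat_lit 0) (nat_lit 6) (nat_lit 0x40544) (nat_lit 0x3000000000000000300040002000000010000))) (.non (nat_lit 0) (nat_lit 5) (nat_lit 0x55014) (nat_lit 0x1000100020001000000000000000200010000)))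 (.non (nat_lit 0) (nat_lit 5) (nat_lit 0x40044) (nat_lit 0x1000000000000000000000001000000010000)))) (.split (nat_lit 9) (nat_lit 1) (.split (nat_lit 9) (nat_lit 2) (.split (nat_lit 9) (nat_lit 5) (.split (nat_lit 9) (nat_lit 6) (.split (nat_lit 9) (nat_lit 7) (.split (nat_lit 9) (nat_lit 3) (.split (nat_lit 9) (nat_lit 4) (.split (nat_lit 9) (nat_lit 8) (.unj (nat_lit 0x40045) (nat_lit 0x1000000000000000000000001000000020002) (nat_lit 0x15500) (nat_lit 0x100020003000400030000000000000000)) (.sup (nat_lit 0x20000000000000000000000050000000a0009) (nat_lit 0x100040007000a00080000000000000000))) (.split (nat_lit 9) (nat_lit 8) (.split (nat_lit 9) (nat_lit 0) (.sup (nat_lit 0x50005000a0006) (nat_lit 0x2000000000005000a00090000000000000000)) (.non (nat_lit 1) (nat_lit 6) (nat_lit 0x40501) (nat_lit 0x1000000000000000100010000000000000001))) (.non (nat_lit 0) (nat_lit 5) (nat_lit 0x55154) (nat_lit 0x2000300040002000000010001000300020000)))) (.split (nat_lit 9) (nat_lit 4) (.split (nat_lit 9) (nat_lit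 8) (.unj (nat_lit 0x40045) (nat_lit 0x1000000000000000000000001000000010001) (nat_lit 0x15500) (nat_lit 0x100020003000400030000000000000000)) (.non (nat_lit 0) (nat_lit 5) (nat_lit 0x54054) (nat_lit 0x1000100010000000000000001000100010000))) (.non (nat_lit 0) (nat_lit 6) (nat_lit 0x40544) (nat_lit 0x3000000000000000300040002000000010000)))) (.non (nat_lit 0) (nat_lit 5) (nat_lit 0x55010) (nat_lit 0x1000100020001000000000000000100000000))) (.star (nat_lit 9) (nat_lit 0) (nat_lit 6))) (.star (nat_lit 9) (nat_lit 0) (nat_lit 5))) (.non (nat_lit 0) (nat_lit 5) (nat_lit 0x55014) (nat_lit 0x1000100020001000000000000000200010000))) (.non (nat_lit 0) (nat_lit 5) (nat_lit 0x55054) (nat_lit 0x1000100020001000000000001000200020000))))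

noncomputable def t1125_7 : Tr := (.ex (nat_lit 6) (.split (nat_lit 8) (nat_lit 1) (.split (nat_lit 8) (nat_lit 7) (.pd (.cons (nat_lit 0) (nat_lit 4) (nat_lit 0) (nat_lit 0x187601110) (nat_lit 0x98965a2c28b71aef423f00000f423ff423f1869b00000) (.cons (nat_lit 0) (nat_lit 7) (nat_lit 0) (nat_lit 0x105441110) (nat_lit 0xf423f00000f423fb71ae1f156f423ff423f3d08c00000) (.cons (nat_lit 0) (nat_lit 8) (nat_lit 0) (nat_lit 0x65441110) (nat_lit 0xf423fb71aea2c2804737f423ff423f7a11d00000) (.cons (nat_lit 1) (nat_lit 4) (nat_lit 0) (nat_lit 0x765503200) (nat_lit 0xf423fb71aea2c289896500000f423ff423f00000f423f) (.cons (nat_lit 1) (nat_lit 7) (nat_lit 0) (nat_lit 0x805443200) (nat_lit 0xf423f00000f423fb71ae1f156f423ff423f00000f423f) (.cons (nat_lit 1) (nat_lit 8) (nat_lit 0) (nat_lit 0x65443200) (nat_lit 0xf423fb71aea2c2804737f423ff423f00000f423f) (.cons (nat_lit 2) (nat_lit 8) (nat_lit 0) (nat_lit 0x65441000) (nat_lit 0xf423fb71aea2c2804737f423f00000b71ae1f156) (.cons (nat_lit 3) (nat_lit 8) (nat_lit 0)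 (nat_lit 0x65440100) (nat_lit 0xf423fb71aea2c280473700000f423fb71ae1f156) .nil)))))))) (.leaf (.cons (nat_lit 0x15005) (nat_lit 0x300020001000000000000000000040003) (.cons (nat_lit 0x10045) (nat_lit 0x100000000000000000001000000020002) (.cons (nat_lit 0x10015) (nat_lit 0x100000000000000000000000100020002) .nil))) (.cons (nat_lit 0x111101110) (nat_lit 0x10001) (nat_lit 0xa) (nat_lit 0x345602100) (.cons (nat_lit 0x111001110) (nat_lit 0x100001) (nat_lit 9) (nat_lit 0x345002100) (.cons (nat_lit 0x110001110) (nat_lit 0x1000001) (nat_lit 8) (nat_lit 0x340002100) (.cons (nat_lit 0x100001110) (nat_lit 0x10000001) (nat_lit 7) (nat_lit 0x300002100) .nil)))))) (.non (nat_lit 0) (nat_lit 5) (nat_lit 0x1a044) (nat_lit 0x300020001000000000001000000020000))) (.non (nat_lit 0) (nat_lit 5) (nat_lit 0x2a044) (nat_lit 0x300020001000000000002000000040000))) (.split (nat_lit 9) (nat_lit 0) (.split (nat_lit 9) (nat_lit 1) (.split (nat_lit 9) (nat_lit 2) (.split (nat_lit 9) (nat_lit 3) (.split (nat_lit 9) (nat_lit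 7) (.split (nat_lit 9) (nat_lit 8) (.split (nat_lit 9) (nat_lit 4) (.split (nat_lit 9) (nat_lit 5) (.unj (nat_lit 0x55) (nat_lit 0x1000100020002) (nat_lit 0x45500) (nat_lit 0x1000000010002000200020000000000000000)) (.unj (nat_lit 0x41400) (nat_lit 0x1000000000001000100000000000000000000) (nat_lit 0x55) (nat_lit 0x1000100020002))) (.split (nat_lit 9) (nat_lit 5) (.unj (nat_lit 0x55) (nat_lit 0x1000100020002) (nat_lit 0x41500) (nat_lit 0x1000000000001000100010000000000000000)) (.non (nat_lit 0) (nat_lit 6) (nat_lit 0x40500) (nat_lit 0x1000000000000000100010000000000000000)))) (.non (nat_lit 0) (nat_lit 5) (nat_lit 0x55000) (nat_lit 0x1000100010001000000000000000000000000))) (.non (nat_lit 0) (nat_lit 5) (nat_lit 0x45000) (nat_lit 0x1000000010001000000000000000000000000))) (.non (nat_lit 0) (nat_lit 5) (nat_lit 0x55044) (nat_lit 0x1000100010001000000000001000000010000))) (.non (nat_lit 0) (nat_lit 5) (nat_lit 0x55014) (nat_lit 0x1000100010001000000000000000100010000))) (.star (nat_lit 9) (nat_lit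 1) (nat_lit 6))) (.star (nat_lit 9) (nat_lit 0) (nat_lit 6))))

noncomputable def t1125_8 : Tr := (.ex (nat_lit 4) (.ex (nat_lit 5) t1125_7 (.split (nat_lit 9) (nat_lit 0) (.split (nat_lit 9) (nat_lit 1) (.split (nat_lit 9) (nat_lit 2) (.split (nat_lit 9) (nat_lit 3) (.split (nat_lit 9) (nat_lit 4) (.split (nat_lit 9) (nat_lit 7) (.split (nat_lit 9) (nat_lit 8) (.split (nat_lit 9) (nat_lit 6) (.unj (nat_lit 0x55) (nat_lit 0x1000100020002) (nat_lit 0x41500) (nat_lit 0x1000000000001000200020000000000000000)) (.unj (nat_lit 0x41400) (nat_lit 0x1000000000001000100000000000000000000) (nat_lit 0x55) (nat_lit 0x1000100020002))) (.non (nat_lit 0) (nat_lit 5) (nat_lit 0x54054) (nat_lit 0x1000200010000000000000001000100020000))) (.non (nat_lit 0) (nat_lit 5) (nat_lit 0x55054) (nat_lit 0x1000200020001000000000001000100020000))) (.non (nat_lit 0) (nat_lit 6) (nat_lit 0x40500) (nat_lit 0x1000000000000000100010000000000000000))) (.non (nat_lit 0) (nat_lit 6) (nat_lit 0x40544) (nat_lit 0x3000000000000000400030002000000010000)))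 (.non (nat_lit 0) (nat_lit 6) (nat_lit 0x40514) (nat_lit 0x3000000000000000400030000000200010000))) (.star (nat_lit 9) (nat_lit 1) (nat_lit 5))) (.star (nat_lit 9) (nat_lit 0) (nat_lit 5)))) (.split (nat_lit 9) (nat_lit 1) (.split (nat_lit 9) (nat_lit 2) (.split (nat_lit 9) (nat_lit 3) (.split (nat_lit 9) (nat_lit 5) (.split (nat_lit 9) (nat_lit 7) (.split (nat_lit 9) (nat_lit 8) (.split (nat_lit 9) (nat_lit 0) (.split (nat_lit 9) (nat_lit 6) (.unj (nat_lit 0x55) (nat_lit 0x1000100020002) (nat_lit 0x41500) (nat_lit 0x1000000000001000200020000000000000000)) (.unj (nat_lit 0x55) (nat_lit 0x1000100020002) (nat_lit 0x41500) (nat_lit 0x1000000000001000100010000000000000000))) (.split (nat_lit 9) (nat_lit 6) (.split (nat_lit 9) (nat_lit 0) (.sup (nat_lit 0x50005000a0006) (nat_lit 0x2000000000005000a00090000000000000000)) (.non (nat_lit 1) (nat_lit 6) (nat_lit 0x40501) (nat_lit 0x1000000000000000100010000000000000001))) (.star (nat_lit 9) (nat_lit 0) (nat_lit 6)))) (.non (nat_lit 0) (nat_lit 5) (nat_lit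 0x55144) (nat_lit 0x2000300020001000000010001000000020000))) (.non (nat_lit 0) (nat_lit 5) (nat_lit 0x55054) (nat_lit 0x1000200020001000000000001000100020000))) (.non (nat_lit 0) (nat_lit 6) (nat_lit 0x40500) (nat_lit 0x1000000000000000100010000000000000000))) (.non (nat_lit 0) (nat_lit 5) (nat_lit 0x55154) (nat_lit 0x2000300020001000000010003000200040000))) (.non (nat_lit 0) (nat_lit 5) (nat_lit 0x55154) (nat_lit 0x2000300020001000000010002000300040000))) (.non (nat_lit 0) (nat_lit 5) (nat_lit 0x50054) (nat_lit 0x1000100000000000000000001000100020000))))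

noncomputable def t1125_9 : Tr := (.ex (nat_lit 2) (.ex (nat_lit 3) t1125_8 (.split (nat_lit 9) (nat_lit 1) (.split (nat_lit 9) (nat_lit 2) (.split (nat_lit 9) (nat_lit 4) (.split (nat_lit 9) (nat_lit 5) (.split (nat_lit 9) (nat_lit 6) (.split (nat_lit 9) (nat_lit 7) (.split (nat_lit 9) (nat_lit 8) (.split (nat_lit 9) (nat_lit 0) (.split (nat_lit 9) (nat_lit 3) (.split (nat_lit 8) (nat_lit 1) (.sup (nat_lit 0x3000d00160020001a0000000000000000) (nat_lit 0x2000000000000000000000004000300070005)) (.non (nat_lit 0) (nat_lit 5) (nat_lit 0x68044) (nat_lit 0x1000200010000000000000002000000030000))) (.non (nat_lit 0) (nat_lit 5) (nat_lit 0x90054) (nat_lit 0x1000100000000000000000002000100020000))) (.sup (nat_lit 0x900000000000000000000000800000007000a) (nat_lit 0x100040007000a00080000000000000000))) (.non (nat_lit 0) (nat_lit 5) (nat_lit 0x50044) (nat_lit 0x1000100000000000000000001000000010000))) (.non (nat_lit 0) (nat_lit 5) (nat_lit 0x54044) (nat_lit 0x1000100010000000000000001000000010000))) (.non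 (nat_lit 0) (nat_lit 5) (nat_lit 0x55044) (nat_lit 0x1000100010001000000000001000000010000))) (.non (nat_lit 0) (nat_lit 6) (nat_lit 0x40544) (nat_lit 0x3000000000000000400030002000000010000))) (.non (nat_lit 0) (nat_lit 5) (nat_lit 0x55154) (nat_lit 0x2000300020001000000010003000200040000))) (.non (nat_lit 0) (nat_lit 5) (nat_lit 0x40054) (nat_lit 0x1000000000000000000000001000100010000))) (.non (nat_lit 0) (nat_lit 5) (nat_lit 0x40044) (nat_lit 0x1000000000000000000000001000000010000)))) (.split (nat_lit 9) (nat_lit 1) (.split (nat_lit 9) (nat_lit 3) (.split (nat_lit 9) (nat_lit 4) (.split (nat_lit 9) (nat_lit 5) (.split (nat_lit 9) (nat_lit 6) (.split (nat_lit 9) (nat_lit 7) (.split (nat_lit 9) (nat_lit 8) (.split (nat_lit 9) (nat_lit 0) (.split (nat_lit 9) (nat_lit 2) (.split (nat_lit 8) (nat_lit 1) (.sup (nat_lit 0x3000d00160020001a0000000000000000) (nat_lit 0x2000000000000000000000003000400070005)) (.non (nat_lit 0) (nat_lit 5) (nat_lit 0x2a044) (nat_lit 0x300020001000000000002000000040000)))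 (.non (nat_lit 0) (nat_lit 5) (nat_lit 0x90054) (nat_lit 0x1000100000000000000000001000200020000))) (.sup (nat_lit 0x900000000000000000000000000080007000a) (nat_lit 0x100040007000a00080000000000000000))) (.non (nat_lit 0) (nat_lit 5) (nat_lit 0x50014) (nat_lit 0x1000100000000000000000000000100010000))) (.non (nat_lit 0) (nat_lit 5) (nat_lit 0x54014) (nat_lit 0x1000100010000000000000000000100010000))) (.non (nat_lit 0) (nat_lit 5) (nat_lit 0x55014) (nat_lit 0x1000100010001000000000000000100010000))) (.non (nat_lit 0) (nat_lit 6) (nat_lit 0x40514) (nat_lit 0x3000000000000000400030000000200010000))) (.non (nat_lit 0) (nat_lit 5) (nat_lit 0x55154) (nat_lit 0x2000300020001000000010002000300040000))) (.non (nat_lit 0) (nat_lit 5) (nat_lit 0x40054) (nat_lit 0x1000000000000000000000001000100010000))) (.non (nat_lit 0) (nat_lit 5) (nat_lit 0x40014) (nat_lit 0x1000000000000000000000000000100010000))))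

noncomputable def t1125_10 : Tr := (.st (nat_lit 1) (nat_lit 0) (nat_lit 5) (nat_lit 0x10054) (nat_lit 0x100000000000000000001000100020000) (nat_lit 1) (nat_lit 1) (.st (nat_lit 7) (nat_lit 0) (nat_lit 5) (nat_lit 0x15054) (nat_lit 0x200020001000000000001000100020000) (nat_lit 1) (nat_lit 1) (.st (nat_lit 8) (nat_lit 0) (nat_lit 5) (nat_lit 0x14054) (nat_lit 0x200010000000000000001000100020000) (nat_lit 1) (nat_lit 1) (.ex (nat_lit 0) t1125_9 (.split (nat_lit 9) (nat_lit 1) (.split (nat_lit 9) (nat_lit 5) (.split (nat_lit 9) (nat_lit 6) (.split (nat_lit 9) (nat_lit 7) (.split (nat_lit 9) (nat_lit 8) (.split (nat_lit 9) (nat_lit 2) (.split (nat_lit 9) (nat_lit 3) (.split (nat_lit 9) (nat_lit 4) (.split (nat_lit 9) (nat_lit 0) (.split (nat_lit 8) (nat_lit 1) (.sup (nat_lit 0x20007000b0010000d0000000000000000) (nat_lit 0x1000000000000000000000001000100030003)) (.non (nat_lit 0) (nat_lit 5) (nat_lit 0x2a044) (nat_lit 0x300020001000000000002000000040000))) (.split (nat_lit 9) (nat_lit 0) (.split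 (nat_lit 8) (nat_lit 1) (.sup (nat_lit 0x700000000000000000000000000000006000a) (nat_lit 0x100040007000a00080000000000000000)) (.non (nat_lit 0) (nat_lit 5) (nat_lit 0x2a044) (nat_lit 0x300020001000000000002000000040000))) (.sup (nat_lit 0x800000000000000000000000000000004000a) (nat_lit 0x100040007000a00080000000000000000)))) (.split (nat_lit 9) (nat_lit 0) (.sup (nat_lit 0x50005000a0006) (nat_lit 0x2000000000005000a00090000000000000000)) (.non (nat_lit 1) (nat_lit 6) (nat_lit 0x40501) (nat_lit 0x1000000000000000100010000000000000001)))) (.split (nat_lit 9) (nat_lit 4) (.sup (nat_lit 0x900000000000000000000000800000007000a) (nat_lit 0x100040007000a00080000000000000000)) (.non (nat_lit 0) (nat_lit 5) (nat_lit 0x55154) (nat_lit 0x2000300020001000000010003000200040000)))) (.split (nat_lit 9) (nat_lit 3) (.split (nat_lit 9) (nat_lit 4) (.sup (nat_lit 0x900000000000000000000000000080007000a) (nat_lit 0x100040007000a00080000000000000000)) (.non (nat_lit 0) (nat_lit 5) (nat_lit 0x55154) (nat_lit 0x2000300020001000000010002000300040000)))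 (.non (nat_lit 0) (nat_lit 5) (nat_lit 0x40054) (nat_lit 0x1000000000000000000000001000100010000)))) (.non (nat_lit 0) (nat_lit 5) (nat_lit 0x54054) (nat_lit 0x1000200010000000000000001000100020000))) (.non (nat_lit 0) (nat_lit 5) (nat_lit 0x55054) (nat_lit 0x1000200020001000000000001000100020000))) (.star (nat_lit 9) (nat_lit 0) (nat_lit 6))) (.star (nat_lit 9) (nat_lit 0) (nat_lit 5))) (.non (nat_lit 0) (nat_lit 5) (nat_lit 0x50054) (nat_lit 0x1000100000000000000000001000100020000)))))))

noncomputable def t1125_11 : Tr := (.split (nat_lit 8) (nat_lit 7) (.split (nat_lit 8) (nat_lit 0) (.pd (.cons (nat_lit 0) (nat_lit 4) (nat_lit 0) (nat_lit 0x765501110) (nat_lit 0xf423fb71aea2c289896500000f423ff423f7a11d00000) (.cons (nat_lit 0) (nat_lit 7) (nat_lit 0) (nat_lit 0x805441110) (nat_lit 0xf423f00000f423fb71ae1f156f423ff423f7a11d00000) (.cons (nat_lit 0) (nat_lit 8) (nat_lit 0) (nat_lit 0x65441110) (nat_lit 0xf423fb71aea2c2804737f423ff423f7a11d00000) (.cons (nat_lit 1) (nat_lit 4) (nat_lit 0)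 (nat_lit 0x87603200) (nat_lit 0x98965a2c28b71aef423f00000f423ff423f0000030d3b) (.cons (nat_lit 1) (nat_lit 7) (nat_lit 0) (nat_lit 0x5443200) (nat_lit 0xf423f00000f423fb71ae1f156f423ff423f000007a11e) (.cons (nat_lit 1) (nat_lit 8) (nat_lit 0) (nat_lit 0x65443200) (nat_lit 0xf423fb71aea2c2804737f423ff423f00000f423f) (.cons (nat_lit 2) (nat_lit 8) (nat_lit 0) (nat_lit 0x65441000) (nat_lit 0xf423fb71aea2c2804737f423f00000b71ae1f156) (.cons (nat_lit 3) (nat_lit 8) (nat_lit 0) (nat_lit 0x65440100) (nat_lit 0xf423fb71aea2c280473700000f423fb71ae1f156) .nil)))))))) (.leaf (.cons (nat_lit 0x10005) (nat_lit 0x100000000000000000000000000010001) .nil) (.cons (nat_lit 0x110000001) (nat_lit 0x1000010) (nat_lit 6) (nat_lit 0x120000000) .nil))) (.pd (.cons (nat_lit 0) (nat_lit 4) (nat_lit 0) (nat_lit 0x765501110) (nat_lit 0xf423fb71aea2c289896500000f423ff423f7a11d00000) (.cons (nat_lit 0) (nat_lit 7) (nat_lit 0) (nat_lit 0x805441110) (nat_lit 0xf423f00000f423fb71ae1f156f423ff423f7a11d00000) (.cons (nat_lit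 0) (nat_lit 8) (nat_lit 0) (nat_lit 0x65441110) (nat_lit 0xf423fb71aea2c2804737f423ff423f7a11d00000) (.cons (nat_lit 1) (nat_lit 7) (nat_lit 0x100000001) (nat_lit 0x5443208) (nat_lit 0x100000f423fb71ae1f156f423ff423f0000000001) (.cons (nat_lit 1) (nat_lit 8) (nat_lit 0) (nat_lit 0x65443200) (nat_lit 0xf423fb71aea2c2804737f423ff423f00000f423f) (.cons (nat_lit 2) (nat_lit 8) (nat_lit 0) (nat_lit 0x65441000) (nat_lit 0xf423fb71aea2c2804737f423f00000b71ae1f156) (.cons (nat_lit 3) (nat_lit 8) (nat_lit 0) (nat_lit 0x65440100) (nat_lit 0xf423fb71aea2c280473700000f423fb71ae1f156) .nil))))))) (.split (nat_lit 8) (nat_lit 0) (.leaf (.cons (nat_lit 0x15401) (nat_lit 0x400030002000100000000000000000003) (.cons (nat_lit 0x10005) (nat_lit 0x100000000000000000000000000010001) .nil)) (.cons (nat_lit 0x111000001) (nat_lit 0x100010) (nat_lit 0x10) (nat_lit 0x123000000) .nil)) (.non (nat_lit 1) (nat_lit 5) (nat_lit 0x3c001) (nat_lit 0x200010000000000000000000000000003))))) (.non (nat_lit 1) (nat_lit 5) (nat_lit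 0x24001) (nat_lit 0x100010000000000000000000000000001)))

noncomputable def t1125_12 : Tr := (.ex (nat_lit 5) (.ex (nat_lit 6) t1125_11 (.split (nat_lit 9) (nat_lit 0) (.split (nat_lit 9) (nat_lit 1) (.split (nat_lit 9) (nat_lit 7) (.split (nat_lit 9) (nat_lit 8) (.split (nat_lit 9) (nat_lit 2) (.split (nat_lit 9) (nat_lit 3) (.split (nat_lit 9) (nat_lit 4) (.split (nat_lit 9) (nat_lit 5) (.unj (nat_lit 0x55) (nat_lit 0x1000100020002) (nat_lit 0x45500) (nat_lit 0x1000000010002000200020000000000000000)) (.unj (nat_lit 0x10005) (nat_lit 0x100000000000000000000000000010001) (nat_lit 0x41400) (nat_lit 0x1000000000001000100000000000000000000))) (.split (nat_lit 9) (nat_lit 5) (.unj (nat_lit 0x10005) (nat_lit 0x100000000000000000000000000010001) (nat_lit 0x41500) (nat_lit 0x1000000000001000100010000000000000000)) (.non (nat_lit 0) (nat_lit 6) (nat_lit 0x40500) (nat_lit 0x1000000000000000100010000000000000000)))) (.split (nat_lit 9) (nat_lit 4) (.split (nat_lit 9) (nat_lit 5) (.sup (nat_lit 0x70000000000000000000000000006000a)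 (nat_lit 0x4000000000007000a00080001000000000000)) (.non (nat_lit 0) (nat_lit 6) (nat_lit 0x40544) (nat_lit 0x3000000000000000400030002000000010000))) (.non (nat_lit 0) (nat_lit 5) (nat_lit 0x55154) (nat_lit 0x4000100020003000000020003000100020000)))) (.split (nat_lit 9) (nat_lit 3) (.split (nat_lit 9) (nat_lit 4) (.split (nat_lit 9) (nat_lit 5) (.sup (nat_lit 0x70000000000000000000000000006000a) (nat_lit 0x4000000000007000a00080000000100000000)) (.non (nat_lit 0) (nat_lit 6) (nat_lit 0x40514) (nat_lit 0x3000000000000000400030000000200010000))) (.non (nat_lit 0) (nat_lit 5) (nat_lit 0x55154) (nat_lit 0x4000100020003000000020001000300020000))) (.non (nat_lit 0) (nat_lit 5) (nat_lit 0x40054) (nat_lit 0x1000000000000000000000001000100010000)))) (.non (nat_lit 0) (nat_lit 5) (nat_lit 0x55000) (nat_lit 0x1000100010001000000000000000000000000))) (.non (nat_lit 0) (nat_lit 5) (nat_lit 0x45000) (nat_lit 0x1000000010001000000000000000000000000))) (.star (nat_lit 9) (nat_lit 1) (nat_lit 6))) (.star (nat_lit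 9) (nat_lit 0) (nat_lit 6)))) (.split (nat_lit 9) (nat_lit 0) (.split (nat_lit 9) (nat_lit 1) (.split (nat_lit 9) (nat_lit 2) (.split (nat_lit 9) (nat_lit 3) (.split (nat_lit 9) (nat_lit 4) (.split (nat_lit 9) (nat_lit 7) (.split (nat_lit 9) (nat_lit 8) (.split (nat_lit 9) (nat_lit 6) (.unj (nat_lit 0x10005) (nat_lit 0x100000000000000000000000000010001) (nat_lit 0x41500) (nat_lit 0x1000000000001000200020000000000000000)) (.unj (nat_lit 0x10005) (nat_lit 0x100000000000000000000000000010001) (nat_lit 0x41400) (nat_lit 0x1000000000001000100000000000000000000))) (.non (nat_lit 0) (nat_lit 6) (nat_lit 0x54500) (nat_lit 0x3000200010000000400030000000000000000))) (.non (nat_lit 0) (nat_lit 6) (nat_lit 0x54500) (nat_lit 0x3000100020000000400030000000000000000))) (.non (nat_lit 0) (nat_lit 6) (nat_lit 0x40500) (nat_lit 0x1000000000000000100010000000000000000))) (.non (nat_lit 0) (nat_lit 6) (nat_lit 0x40544) (nat_lit 0x3000000000000000400030002000000010000))) (.non (nat_lit 0) (nat_lit 6) (nat_lit 0x40514)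 (nat_lit 0x3000000000000000400030000000200010000))) (.star (nat_lit 9) (nat_lit 1) (nat_lit 5))) (.star (nat_lit 9) (nat_lit 0) (nat_lit 5))))

noncomputable def t1125_13 : Tr := (.ex (nat_lit 3) (.ex (nat_lit 4) t1125_12 (.split (nat_lit 9) (nat_lit 0) (.split (nat_lit 9) (nat_lit 1) (.split (nat_lit 9) (nat_lit 2) (.split (nat_lit 9) (nat_lit 3) (.split (nat_lit 9) (nat_lit 5) (.split (nat_lit 9) (nat_lit 7) (.split (nat_lit 9) (nat_lit 8) (.split (nat_lit 9) (nat_lit 6) (.unj (nat_lit 0x10005) (nat_lit 0x100000000000000000000000000010001) (nat_lit 0x41500) (nat_lit 0x1000000000001000200020000000000000000)) (.unj (nat_lit 0x10005) (nat_lit 0x100000000000000000000000000010001) (nat_lit 0x41500) (nat_lit 0x1000000000001000100010000000000000000))) (.non (nat_lit 0) (nat_lit 6) (nat_lit 0x54500) (nat_lit 0x3000200010000000300040000000000000000))) (.non (nat_lit 0) (nat_lit 6) (nat_lit 0x54500) (nat_lit 0x3000100020000000300040000000000000000))) (.non (nat_lit 0) (nat_lit 6) (nat_lit 0x40500) (nat_lit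 0x1000000000000000100010000000000000000))) (.non (nat_lit 0) (nat_lit 6) (nat_lit 0x40544) (nat_lit 0x3000000000000000300040002000000010000))) (.non (nat_lit 0) (nat_lit 6) (nat_lit 0x40514) (nat_lit 0x3000000000000000300040000000200010000))) (.non (nat_lit 0) (nat_lit 6) (nat_lit 0x40544) (nat_lit 0x3000000000000000300040001000000020000))) (.non (nat_lit 1) (nat_lit 5) (nat_lit 0x6a001) (nat_lit 0x2000300020001000000000000000000000004)))) (.split (nat_lit 9) (nat_lit 0) (.split (nat_lit 9) (nat_lit 1) (.split (nat_lit 9) (nat_lit 2) (.split (nat_lit 9) (nat_lit 4) (.split (nat_lit 9) (nat_lit 5) (.split (nat_lit 9) (nat_lit 7) (.split (nat_lit 9) (nat_lit 8) (.split (nat_lit 9) (nat_lit 6) (.split (nat_lit 9) (nat_lit 3) (.split (nat_lit 8) (nat_lit 0) (.sup (nat_lit 0x20006000b0010000d0000000000000000) (nat_lit 0x1000000000000000000000003000200040002)) (.split (nat_lit 8) (nat_lit 0) (.sup (nat_lit 0x10006000b0010000d0000000000000000) (nat_lit 0x1000000000000000000000003000200040002)) (.non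 (nat_lit 1) (nat_lit 5) (nat_lit 0x3c001) (nat_lit 0x200010000000000000000000000000003)))) (.sup (nat_lit 0x30007000b0010000d0000000000000000) (nat_lit 0x3000000000000000000000004000200040001))) (.sup (nat_lit 0x70000000000000000000000000006000a) (nat_lit 0x4000000000007000a00080001000000000000))) (.non (nat_lit 1) (nat_lit 5) (nat_lit 0xa8001) (nat_lit 0x1000200010000000000000000000000000002))) (.non (nat_lit 1) (nat_lit 5) (nat_lit 0xaa001) (nat_lit 0x1000200020001000000000000000000000002))) (.non (nat_lit 0) (nat_lit 6) (nat_lit 0x40544) (nat_lit 0x3000000000000000400030002000000010000))) (.non (nat_lit 0) (nat_lit 6) (nat_lit 0x40544) (nat_lit 0x3000000000000000300040002000000010000))) (.non (nat_lit 0) (nat_lit 5) (nat_lit 0x40054) (nat_lit 0x1000000000000000000000001000100010000))) (.non (nat_lit 0) (nat_lit 5) (nat_lit 0x40044) (nat_lit 0x1000000000000000000000001000000010000))) (.non (nat_lit 1) (nat_lit 5) (nat_lit 0x6a001) (nat_lit 0x2000300020001000000000000000000000004))))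

noncomputable def t1125_14 : Tr := (.ex (nat_lit 1) (.ex (nat_lit 2) t1125_13 (.split (nat_lit 9) (nat_lit 0) (.split (nat_lit 9) (nat_lit 1) (.split (nat_lit 9) (nat_lit 3) (.split (nat_lit 9) (nat_lit 4) (.split (nat_lit 9) (nat_lit 5) (.split (nat_lit 9) (nat_lit 7) (.split (nat_lit 9) (nat_lit 8) (.split (nat_lit 9) (nat_lit 6) (.split (nat_lit 9) (nat_lit 2) (.split (nat_lit 8) (nat_lit 0) (.sup (nat_lit 0x20006000b0010000d0000000000000000) (nat_lit 0x1000000000000000000000002000300040002)) (.split (nat_lit 8) (nat_lit 0) (.sup (nat_lit 0x10006000b0010000d0000000000000000) (nat_lit 0x1000000000000000000000002000300040002)) (.non (nat_lit 1) (nat_lit 5) (nat_lit 0x3c001) (nat_lit 0x200010000000000000000000000000003)))) (.sup (nat_lit 0x30007000b0010000d0000000000000000) (nat_lit 0x3000000000000000000000002000400040001))) (.sup (nat_lit 0x70000000000000000000000000006000a) (nat_lit 0x4000000000007000a00080000000100000000))) (.non (nat_lit 1) (nat_lit 5) (nat_lit 0xa8001) (nat_lit 0x1000200010000000000000000000000000002)))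 (.non (nat_lit 1) (nat_lit 5) (nat_lit 0xaa001) (nat_lit 0x1000200020001000000000000000000000002))) (.non (nat_lit 0) (nat_lit 6) (nat_lit 0x40514) (nat_lit 0x3000000000000000400030000000200010000))) (.non (nat_lit 0) (nat_lit 6) (nat_lit 0x40514) (nat_lit 0x3000000000000000300040000000200010000))) (.non (nat_lit 0) (nat_lit 5) (nat_lit 0x40054) (nat_lit 0x1000000000000000000000001000100010000))) (.non (nat_lit 0) (nat_lit 5) (nat_lit 0x40014) (nat_lit 0x1000000000000000000000000000100010000))) (.non (nat_lit 1) (nat_lit 5) (nat_lit 0x6a001) (nat_lit 0x2000300020001000000000000000000000004)))) (.split (nat_lit 9) (nat_lit 0) (.split (nat_lit 9) (nat_lit 2) (.split (nat_lit 9) (nat_lit 3) (.split (nat_lit 9) (nat_lit 4) (.split (nat_lit 9) (nat_lit 5) (.split (nat_lit 9) (nat_lit 6) (.split (nat_lit 9) (nat_lit 7) (.split (nat_lit 9) (nat_lit 8) (.sup (nat_lit 0x30007000b0010000d0000000000000000) (nat_lit 0x2000000000000000000000002000200040001)) (.non (nat_lit 1) (nat_lit 5) (nat_lit 0xa8001)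 (nat_lit 0x1000200010000000000000000000000000002))) (.non (nat_lit 0) (nat_lit 5) (nat_lit 0x55054) (nat_lit 0x2000100020001000000000001000100020000))) (.star (nat_lit 9) (nat_lit 1) (nat_lit 6))) (.star (nat_lit 9) (nat_lit 1) (nat_lit 5))) (.non (nat_lit 0) (nat_lit 6) (nat_lit 0x40544) (nat_lit 0x3000000000000000300040001000000020000))) (.non (nat_lit 0) (nat_lit 5) (nat_lit 0x40044) (nat_lit 0x1000000000000000000000001000000010000))) (.non (nat_lit 0) (nat_lit 5) (nat_lit 0x40014) (nat_lit 0x1000000000000000000000000000100010000))) (.non (nat_lit 1) (nat_lit 5) (nat_lit 0x6a001) (nat_lit 0x2000300020001000000000000000000000004))))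

noncomputable def t1125_15 : Tr := (.ex (nat_lit 5) (.ex (nat_lit 6) (.split (nat_lit 7) (nat_lit 3) (.split (nat_lit 8) (nat_lit 7) (.split (nat_lit 8) (nat_lit 0) (.pd (.cons (nat_lit 0) (nat_lit 4) (nat_lit 0) (nat_lit 0x737601110) (nat_lit 0xf423f65b97b71aef423f0000061a79f423f1e83b00000) (.cons (nat_lit 0) (nat_lit 7) (nat_lit 0) (nat_lit 0x805441110) (nat_lit 0xf423f00000f423fb71ae1f156f423ff423f7a11d00000) (.cons (nat_lit 1) (nat_lit 4) (nat_lit 0) (nat_lit 0x87607200) (nat_lit 0x61a7965b97b71aef423f00000f423ff423f000005b8cc) (.cons (nat_lit 1) (nat_lit 7) (nat_lit 0) (nat_lit 0x5443200) (nat_lit 0xf423f00000f423fb71ae1f156f423ff423f00000b71ae) (.cons (nat_lit 3) (nat_lit 8) (nat_lit 0) (nat_lit 0x65440100) (nat_lit 0xf423fb71aea2c280473700000f423fb71ae1f156) .nil))))) (.leaf (.cons (nat_lit 0x5540) (nat_lit 0x20003000400030001000000000000) (.cons (nat_lit 0x15005) (nat_lit 0x300020001000000000000000000030004) (.cons (nat_lit 0x10045) (nat_lit 0x100000000000000000001000000020002) (.cons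 (nat_lit 0x10015) (nat_lit 0x100000000000000000000000100020002) .nil)))) .nil)) (.non (nat_lit 1) (nat_lit 5) (nat_lit 0x2a081) (nat_lit 0x200020001000000000001000000000002))) (.non (nat_lit 0) (nat_lit 5) (nat_lit 0x25040) (nat_lit 0x100020001000000000001000000000000))) (.non (nat_lit 0) (nat_lit 5) (nat_lit 0x2a040) (nat_lit 0x100020001000000000002000000000000))) (.split (nat_lit 9) (nat_lit 0) (.split (nat_lit 9) (nat_lit 1) (.split (nat_lit 9) (nat_lit 2) (.split (nat_lit 9) (nat_lit 3) (.split (nat_lit 9) (nat_lit 4) (.split (nat_lit 9) (nat_lit 7) (.split (nat_lit 9) (nat_lit 8) (.split (nat_lit 9) (nat_lit 5) (.sup (nat_lit 0x1000300050004) (nat_lit 0x2000000010003000500040000000000000000)) (.unj (nat_lit 0x41400) (nat_lit 0x1000000000001000100000000000000000000) (nat_lit 0x55) (nat_lit 0x1000100020002))) (.non (nat_lit 0) (nat_lit 5) (nat_lit 0x55000) (nat_lit 0x1000100010001000000000000000000000000))) (.non (nat_lit 0) (nat_lit 5) (nat_lit 0x45000) (nat_lit 0x1000000010001000000000000000000000000)))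 (.non (nat_lit 0) (nat_lit 5) (nat_lit 0x55154) (nat_lit 0x2000200040003000000010003000100020000))) (.non (nat_lit 0) (nat_lit 5) (nat_lit 0x45040) (nat_lit 0x1000000010001000000000001000000000000))) (.non (nat_lit 0) (nat_lit 5) (nat_lit 0x45054) (nat_lit 0x1000000010001000000000001000100010000))) (.star (nat_lit 9) (nat_lit 1) (nat_lit 6))) (.star (nat_lit 9) (nat_lit 0) (nat_lit 6)))) (.split (nat_lit 9) (nat_lit 0) (.split (nat_lit 9) (nat_lit 1) (.split (nat_lit 9) (nat_lit 2) (.split (nat_lit 9) (nat_lit 3) (.split (nat_lit 9) (nat_lit 4) (.split (nat_lit 9) (nat_lit 7) (.split (nat_lit 9) (nat_lit 8) (.split (nat_lit 9) (nat_lit 6) (.unj (nat_lit 0x55) (nat_lit 0x1000100020002) (nat_lit 0x41500) (nat_lit 0x1000000000001000200020000000000000000)) (.unj (nat_lit 0x41400) (nat_lit 0x1000000000001000100000000000000000000) (nat_lit 0x55) (nat_lit 0x1000100020002))) (.non (nat_lit 0) (nat_lit 6) (nat_lit 0x54500) (nat_lit 0x3000200010000000400030000000000000000))) (.non (nat_lit 0) (nat_lit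 5) (nat_lit 0x55040) (nat_lit 0x1000100020001000000000001000000000000))) (.non (nat_lit 0) (nat_lit 6) (nat_lit 0x40500) (nat_lit 0x1000000000000000100010000000000000000))) (.non (nat_lit 0) (nat_lit 5) (nat_lit 0x55044) (nat_lit 0x1000100020001000000000002000000010000))) (.non (nat_lit 0) (nat_lit 6) (nat_lit 0x40514) (nat_lit 0x3000000000000000400030000000200010000))) (.star (nat_lit 9) (nat_lit 1) (nat_lit 5))) (.star (nat_lit 9) (nat_lit 0) (nat_lit 5))))

noncomputable def t1125_16 : Tr := (.ex (nat_lit 6) (.split (nat_lit 9) (nat_lit 2) (.split (nat_lit 7) (nat_lit 3) (.split (nat_lit 8) (nat_lit 7) (.split (nat_lit 8) (nat_lit 0) (.pd (.cons (nat_lit 0) (nat_lit 4) (nat_lit 0) (nat_lit 0x2737601110) (nat_lit 0xf423ff423f65b97b71aef423f0000061a79b71ae0a2b500000) (.cons (nat_lit 0) (nat_lit 7) (nat_lit 0) (nat_lit 0x2805441110) (nat_lit 0xf423ff423f00000f423fb71ae1f156f423fb71ae65b9700000) (.cons (nat_lit 1) (nat_lit 4) (nat_lit 0) (nat_lit 0x2087607200) (nat_lit 0xf423f61a7965b97b71aef423f00000f423fb71ae000005b8cc)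 (.cons (nat_lit 1) (nat_lit 7) (nat_lit 0) (nat_lit 0x2005443200) (nat_lit 0xf423ff423f00000f423fb71ae1f156f423fb71ae00000b71ae) .nil)))) (.st (nat_lit 9) (nat_lit 0) (nat_lit 4) (nat_lit 0x55454) (nat_lit 0x2000300060004000200000005000300040000) (nat_lit 1) (nat_lit 1) (.pd (.cons (nat_lit 3) (nat_lit 8) (nat_lit 0) (nat_lit 0x2065440100) (nat_lit 0xf423f00000f423fb71aea2c280473700000b71aea2c2804737) .nil) (.leaf (.cons (nat_lit 0x5540) (nat_lit 0x20003000400030001000000000000) (.cons (nat_lit 0x15005) (nat_lit 0x300020001000000000000000000030004) (.cons (nat_lit 0x10045) (nat_lit 0x100000000000000000001000000020002) (.cons (nat_lit 0x10015) (nat_lit 0x100000000000000000000000100020002) .nil)))) .nil)))) (.non (nat_lit 1) (nat_lit 5) (nat_lit 0x2a081) (nat_lit 0x200020001000000000001000000000002))) (.non (nat_lit 0) (nat_lit 5) (nat_lit 0x25040) (nat_lit 0x100020001000000000001000000000000))) (.non (nat_lit 0) (nat_lit 5) (nat_lit 0x2a040) (nat_lit 0x100020001000000000002000000000000))) (.non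 (nat_lit 0) (nat_lit 5) (nat_lit 0x95054) (nat_lit 0x1000100020001000000000002000200020000))) (.split (nat_lit 0xa) (nat_lit 0) (.split (nat_lit 0xa) (nat_lit 1) (.split (nat_lit 0xa) (nat_lit 2) (.split (nat_lit 0xa) (nat_lit 3) (.split (nat_lit 0xa) (nat_lit 4) (.split (nat_lit 0xa) (nat_lit 7) (.split (nat_lit 0xa) (nat_lit 8) (.split (nat_lit 0xa) (nat_lit 9) (.split (nat_lit 0xa) (nat_lit 5) (.sup (nat_lit 0x1000300050004) (nat_lit 0x20000000000010003000500040000000000000000)) (.unj (nat_lit 0x101400) (nat_lit 0x10000000000000001000100000000000000000000) (nat_lit 0x55) (nat_lit 0x1000100020002))) (.non (nat_lit 0) (nat_lit 5) (nat_lit 0x145054) (nat_lit 0x10001000000010001000000000001000100010000))) (.non (nat_lit 0) (nat_lit 5) (nat_lit 0x115000) (nat_lit 0x10000000100010001000000000000000000000000))) (.non (nat_lit 0) (nat_lit 5) (nat_lit 0x105000) (nat_lit 0x10000000000010001000000000000000000000000))) (.non (nat_lit 0) (nat_lit 5) (nat_lit 0x115154) (nat_lit 0x20000000200040003000000010003000100020000)))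 (.non (nat_lit 0) (nat_lit 5) (nat_lit 0x105040) (nat_lit 0x10000000000010001000000000001000000000000))) (.non (nat_lit 0) (nat_lit 5) (nat_lit 0x105054) (nat_lit 0x10000000000010001000000000001000100010000))) (.star (nat_lit 0xa) (nat_lit 1) (nat_lit 6))) (.star (nat_lit 0xa) (nat_lit 0) (nat_lit 6))))

noncomputable def t1125_17 : Tr := (.ex (nat_lit 4) (.ex (nat_lit 5) t1125_16 (.split (nat_lit 0xa) (nat_lit 0) (.split (nat_lit 0xa) (nat_lit 1) (.split (nat_lit 0xa) (nat_lit 2) (.split (nat_lit 0xa) (nat_lit 3) (.split (nat_lit 0xa) (nat_lit 4) (.split (nat_lit 0xa) (nat_lit 7) (.split (nat_lit 0xa) (nat_lit 8) (.split (nat_lit 0xa) (nat_lit 9) (.split (nat_lit 0xa) (nat_lit 6) (.unj (nat_lit 0x55) (nat_lit 0x1000100020002) (nat_lit 0x101500) (nat_lit 0x10000000000000001000200020000000000000000)) (.unj (nat_lit 0x101400) (nat_lit 0x10000000000000001000100000000000000000000) (nat_lit 0x55) (nat_lit 0x1000100020002))) (.non (nat_lit 0) (nat_lit 6) (nat_lit 0x140510) (nat_lit 0x30002000000000000000400030000000100000000)))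 (.non (nat_lit 0) (nat_lit 6) (nat_lit 0x114500) (nat_lit 0x30000000200010000000400030000000000000000))) (.non (nat_lit 0) (nat_lit 5) (nat_lit 0x115040) (nat_lit 0x10000000100020001000000000001000000000000))) (.non (nat_lit 0) (nat_lit 6) (nat_lit 0x100500) (nat_lit 0x10000000000000000000100010000000000000000))) (.non (nat_lit 0) (nat_lit 5) (nat_lit 0x115044) (nat_lit 0x10000000100020001000000000002000000010000))) (.non (nat_lit 0) (nat_lit 5) (nat_lit 0x155054) (nat_lit 0x10001000100020001000000000002000200020000))) (.star (nat_lit 0xa) (nat_lit 1) (nat_lit 5))) (.star (nat_lit 0xa) (nat_lit 0) (nat_lit 5)))) (.split (nat_lit 0xa) (nat_lit 0) (.split (nat_lit 0xa) (nat_lit 1) (.split (nat_lit 0xa) (nat_lit 2) (.split (nat_lit 0xa) (nat_lit 3) (.split (nat_lit 0xa) (nat_lit 5) (.split (nat_lit 0xa) (nat_lit 6) (.split (nat_lit 0xa) (nat_lit 7) (.split (nat_lit 0xa) (nat_lit 8) (.split (nat_lit 0xa) (nat_lit 9) (.unj (nat_lit 0x55) (nat_lit 0x1000100020002) (nat_lit 0x101500) (nat_lit 0x10000000000000001000200020000000000000000))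 (.non (nat_lit 0) (nat_lit 6) (nat_lit 0x140510) (nat_lit 0x30002000000000000000300040000000100000000))) (.non (nat_lit 0) (nat_lit 5) (nat_lit 0x115154) (nat_lit 0x20000000300040002000000010003000100020000))) (.non (nat_lit 0) (nat_lit 5) (nat_lit 0x115040) (nat_lit 0x10000000100020001000000000001000000000000))) (.non (nat_lit 0) (nat_lit 5) (nat_lit 0x115154) (nat_lit 0x20000000200040003000000010003000100020000))) (.non (nat_lit 0) (nat_lit 6) (nat_lit 0x100500) (nat_lit 0x10000000000000000000100010000000000000000))) (.non (nat_lit 0) (nat_lit 5) (nat_lit 0x115044) (nat_lit 0x10000000100020001000000000002000000010000))) (.non (nat_lit 0) (nat_lit 5) (nat_lit 0x155054) (nat_lit 0x10001000100020001000000000002000200020000))) (.non (nat_lit 0) (nat_lit 5) (nat_lit 0x115054) (nat_lit 0x10000000100020001000000000002000100020000))) (.non (nat_lit 1) (nat_lit 6) (nat_lit 0x110501) (nat_lit 0x30000000100000000000300040000000000000002))))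

noncomputable def t1125_18 : Tr := (.ex (nat_lit 6) (.split (nat_lit 7) (nat_lit 3) (.split (nat_lit 8) (nat_lit 7) (.split (nat_lit 8) (nat_lit 0) (.split (nat_lit 9) (nat_lit 0) (.pd (.cons (nat_lit 0) (nat_lit 4) (nat_lit 0) (nat_lit 0x9737601110) (nat_lit 0xf423ff423f65b97b71aef423f0000061a79f423f1e83b00000) (.cons (nat_lit 0) (nat_lit 7) (nat_lit 0) (nat_lit 0x9805441110) (nat_lit 0xf423ff423f00000f423fb71ae1f156f423ff423f7a11d00000) (.cons (nat_lit 1) (nat_lit 4) (nat_lit 0) (nat_lit 0x87607200) (nat_lit 0xf423f61a7965b97b71aef423f00000f423ff423f000001e83b) (.cons (nat_lit 1) (nat_lit 7) (nat_lit 0) (nat_lit 0x5443200) (nat_lit 0xf423ff423f00000f423fb71ae1f156f423ff423f000007a11d) .nil)))) (.leaf (.cons (nat_lit 0x5540) (nat_lit 0x20003000400030001000000000000) (.cons (nat_lit 0x50005) (nat_lit 0x1000100000000000000000000000000020002) (.cons (nat_lit 0x40015) (nat_lit 0x1000000000000000000000000000100020002) .nil))) .nil)) (.non (nat_lit 1) (nat_lit 5) (nat_lit 0x95041) (nat_lit 0x1000200020001000000000001000000000002)))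 (.non (nat_lit 1) (nat_lit 5) (nat_lit 0x6a001) (nat_lit 0x2000300020001000000000000000000000004))) (.non (nat_lit 0) (nat_lit 5) (nat_lit 0x25040) (nat_lit 0x100020001000000000001000000000000))) (.non (nat_lit 0) (nat_lit 5) (nat_lit 0x2a040) (nat_lit 0x100020001000000000002000000000000))) (.split (nat_lit 0xa) (nat_lit 0) (.split (nat_lit 0xa) (nat_lit 1) (.split (nat_lit 0xa) (nat_lit 2) (.split (nat_lit 0xa) (nat_lit 3) (.split (nat_lit 0xa) (nat_lit 4) (.split (nat_lit 0xa) (nat_lit 7) (.split (nat_lit 0xa) (nat_lit 8) (.split (nat_lit 0xa) (nat_lit 9) (.split (nat_lit 0xa) (nat_lit 5) (.unj (nat_lit 0x40015) (nat_lit 0x1000000000000000000000000000100020002) (nat_lit 0x105500) (nat_lit 0x10000000000010002000200020000000000000000)) (.unj (nat_lit 0x101400) (nat_lit 0x10000000000000001000100000000000000000000) (nat_lit 0x55) (nat_lit 0x1000100020002))) (.non (nat_lit 0) (nat_lit 5) (nat_lit 0x155054) (nat_lit 0x20001000200040003000000000003000100020000))) (.non (nat_lit 0) (nat_lit 5) (nat_lit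 0x115000) (nat_lit 0x10000000100010001000000000000000000000000))) (.non (nat_lit 0) (nat_lit 5) (nat_lit 0x105000) (nat_lit 0x10000000000010001000000000000000000000000))) (.non (nat_lit 0) (nat_lit 5) (nat_lit 0x115154) (nat_lit 0x20000000200040003000000010003000100020000))) (.non (nat_lit 0) (nat_lit 5) (nat_lit 0x105040) (nat_lit 0x10000000000010001000000000001000000000000))) (.non (nat_lit 0) (nat_lit 5) (nat_lit 0x105054) (nat_lit 0x10000000000010001000000000001000100010000))) (.star (nat_lit 0xa) (nat_lit 1) (nat_lit 6))) (.star (nat_lit 0xa) (nat_lit 0) (nat_lit 6))))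

noncomputable def t1125_19 : Tr := (.ex (nat_lit 4) (.ex (nat_lit 5) t1125_18 (.split (nat_lit 0xa) (nat_lit 0) (.split (nat_lit 0xa) (nat_lit 1) (.split (nat_lit 0xa) (nat_lit 2) (.split (nat_lit 0xa) (nat_lit 3) (.split (nat_lit 0xa) (nat_lit 4) (.split (nat_lit 0xa) (nat_lit 7) (.split (nat_lit 0xa) (nat_lit 8) (.split (nat_lit 0xa) (nat_lit 9) (.split (nat_lit 0xa) (nat_lit 6) (.unj (nat_lit 0x55) (nat_lit 0x1000100020002) (nat_lit 0x101500) (nat_lit 0x10000000000000001000200020000000000000000)) (.unj (nat_lit 0x101400) (nat_lit 0x10000000000000001000100000000000000000000) (nat_lit 0x55) (nat_lit 0x1000100020002))) (.non (nat_lit 1) (nat_lit 6) (nat_lit 0x140501) (nat_lit 0x30002000000000000000400030000000000000001))) (.non (nat_lit 0) (nat_lit 6) (nat_lit 0x114500) (nat_lit 0x30000000200010000000400030000000000000000))) (.non (nat_lit 0) (nat_lit 5) (nat_lit 0x115040) (nat_lit 0x10000000100020001000000000001000000000000))) (.non (nat_lit 0) (nat_lit 6) (nat_lit 0x100500) (nat_lit 0x10000000000000000000100010000000000000000)))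 (.non (nat_lit 0) (nat_lit 5) (nat_lit 0x115044) (nat_lit 0x10000000100020001000000000002000000010000))) (.non (nat_lit 0) (nat_lit 6) (nat_lit 0x100514) (nat_lit 0x30000000000000000000400030000000200010000))) (.star (nat_lit 0xa) (nat_lit 1) (nat_lit 5))) (.star (nat_lit 0xa) (nat_lit 0) (nat_lit 5)))) (.split (nat_lit 0xa) (nat_lit 0) (.split (nat_lit 0xa) (nat_lit 1) (.split (nat_lit 0xa) (nat_lit 2) (.split (nat_lit 0xa) (nat_lit 3) (.split (nat_lit 0xa) (nat_lit 5) (.split (nat_lit 0xa) (nat_lit 6) (.split (nat_lit 0xa) (nat_lit 7) (.split (nat_lit 0xa) (nat_lit 8) (.split (nat_lit 0xa) (nat_lit 9) (.unj (nat_lit 0x55) (nat_lit 0x1000100020002) (nat_lit 0x101500) (nat_lit 0x10000000000000001000200020000000000000000)) (.non (nat_lit 1) (nat_lit 6) (nat_lit 0x140501) (nat_lit 0x30002000000000000000300040000000000000001))) (.non (nat_lit 0) (nat_lit 5) (nat_lit 0x115154) (nat_lit 0x20000000300040002000000010003000100020000))) (.non (nat_lit 0) (nat_lit 5) (nat_lit 0x115040) (nat_lit 0x10000000100020001000000000001000000000000)))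 (.non (nat_lit 0) (nat_lit 5) (nat_lit 0x115154) (nat_lit 0x20000000200040003000000010003000100020000))) (.non (nat_lit 0) (nat_lit 6) (nat_lit 0x100500) (nat_lit 0x10000000000000000000100010000000000000000))) (.non (nat_lit 0) (nat_lit 5) (nat_lit 0x115044) (nat_lit 0x10000000100020001000000000002000000010000))) (.non (nat_lit 0) (nat_lit 6) (nat_lit 0x100514) (nat_lit 0x30000000000000000000300040000000200010000))) (.non (nat_lit 0) (nat_lit 5) (nat_lit 0x115054) (nat_lit 0x10000000100020001000000000002000100020000))) (.non (nat_lit 1) (nat_lit 5) (nat_lit 0x155041) (nat_lit 0x10001000200020001000000000001000000000002))))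

noncomputable def t1125_20 : Tr := (.ex (nat_lit 0) (.ex (nat_lit 2) (.ex (nat_lit 4) t1125_15 (.split (nat_lit 9) (nat_lit 0) (.split (nat_lit 9) (nat_lit 1) (.split (nat_lit 9) (nat_lit 2) (.split (nat_lit 9) (nat_lit 3) (.split (nat_lit 9) (nat_lit 5) (.split (nat_lit 9) (nat_lit 6) (.split (nat_lit 9) (nat_lit 7) (.split (nat_lit 9) (nat_lit 8) (.unj (nat_lit 0x55) (nat_lit 0x1000100020002) (nat_lit 0x41500) (nat_lit 0x1000000000001000200020000000000000000)) (.non (nat_lit 0) (nat_lit 5) (nat_lit 0x55154) (nat_lit 0x2000300040002000000010003000100020000))) (.non (nat_lit 0) (nat_lit 5) (nat_lit 0x55040) (nat_lit 0x1000100020001000000000001000000000000))) (.non (nat_lit 0) (nat_lit 5) (nat_lit 0x55154) (nat_lit 0x2000200040003000000010003000100020000))) (.non (nat_lit 0) (nat_lit 6) (nat_lit 0x40500) (nat_lit 0x1000000000000000100010000000000000000))) (.non (nat_lit 0) (nat_lit 5) (nat_lit 0x55044) (nat_lit 0x1000100020001000000000002000000010000))) (.non (nat_lit 0) (nat_lit 6) (nat_lit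 0x40514) (nat_lit 0x3000000000000000300040000000200010000))) (.non (nat_lit 0) (nat_lit 5) (nat_lit 0x55054) (nat_lit 0x1000100020001000000000002000100020000))) (.non (nat_lit 1) (nat_lit 6) (nat_lit 0x50501) (nat_lit 0x3000100000000000300040000000000000002)))) (.split (nat_lit 9) (nat_lit 1) (.split (nat_lit 9) (nat_lit 3) (.split (nat_lit 9) (nat_lit 4) (.split (nat_lit 9) (nat_lit 5) (.split (nat_lit 9) (nat_lit 6) (.split (nat_lit 9) (nat_lit 7) (.split (nat_lit 9) (nat_lit 8) (.split (nat_lit 9) (nat_lit 0) (.st (nat_lit 2) (nat_lit 0) (nat_lit 5) (nat_lit 0x55054) (nat_lit 0x1000100020001000000000002000200020000) (nat_lit 1) (nat_lit 1) t1125_17) (.sup (nat_lit 0x4000000000000000000000000000400030005) (nat_lit 0x20003000500040001000000000000))) (.non (nat_lit 0) (nat_lit 5) (nat_lit 0x54054) (nat_lit 0x1000100010000000000000001000100010000))) (.non (nat_lit 0) (nat_lit 5) (nat_lit 0x55040) (nat_lit 0x1000100020001000000000001000000000000))) (.non (nat_lit 0) (nat_lit 5) (nat_lit 0x45054)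 (nat_lit 0x1000000010001000000000001000100010000))) (.non (nat_lit 0) (nat_lit 6) (nat_lit 0x40514) (nat_lit 0x3000000000000000400030000000200010000))) (.non (nat_lit 0) (nat_lit 6) (nat_lit 0x40514) (nat_lit 0x3000000000000000300040000000200010000))) (.non (nat_lit 0) (nat_lit 5) (nat_lit 0x55044) (nat_lit 0x1000100020001000000000002000000010000))) (.non (nat_lit 0) (nat_lit 5) (nat_lit 0x40014) (nat_lit 0x1000000000000000000000000000100010000)))) (.split (nat_lit 9) (nat_lit 1) (.split (nat_lit 9) (nat_lit 3) (.split (nat_lit 9) (nat_lit 4) (.split (nat_lit 9) (nat_lit 5) (.split (nat_lit 9) (nat_lit 6) (.split (nat_lit 9) (nat_lit 7) (.split (nat_lit 9) (nat_lit 8) (.split (nat_lit 9) (nat_lit 2) t1125_19 (.sup (nat_lit 0x4000000000000000000000000000400030005) (nat_lit 0x20003000500040001000000000000))) (.non (nat_lit 1) (nat_lit 5) (nat_lit 0x50001) (nat_lit 0x1000100000000000000000000000000000001))) (.non (nat_lit 0) (nat_lit 5) (nat_lit 0x55040) (nat_lit 0x1000100020001000000000001000000000000)))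 (.star (nat_lit 9) (nat_lit 0) (nat_lit 6))) (.star (nat_lit 9) (nat_lit 0) (nat_lit 5))) (.non (nat_lit 1) (nat_lit 6) (nat_lit 0x50501) (nat_lit 0x3000100000000000300040000000000000002))) (.non (nat_lit 0) (nat_lit 5) (nat_lit 0x55044) (nat_lit 0x1000100020001000000000002000000010000))) (.non (nat_lit 0) (nat_lit 5) (nat_lit 0x55054) (nat_lit 0x1000100020001000000000002000100020000))))

noncomputable def t1125_21 : Tr := (.ex (nat_lit 5) (.ex (nat_lit 6) (.split (nat_lit 7) (nat_lit 2) (.split (nat_lit 8) (nat_lit 7) (.split (nat_lit 8) (nat_lit 0) (.pd (.cons (nat_lit 0) (nat_lit 4) (nat_lit 0) (nat_lit 0x727601110) (nat_lit 0xf423f65b97b71aef423f00000f423f61a791e83b00000) (.cons (nat_lit 0) (nat_lit 7) (nat_lit 0) (nat_lit 0x805441110) (nat_lit 0xf423f00000f423fb71ae1f156f423ff423f7a11d00000) (.cons (nat_lit 1) (nat_lit 4) (nat_lit 0) (nat_lit 0x87603700) (nat_lit 0x61a7965b97b71aef423f00000f423ff423f000005b8cc) (.cons (nat_lit 1) (nat_lit 7) (nat_lit 0) (nat_lit 0x5443200) (nat_lit 0xf423f00000f423fb71ae1f156f423ff423f00000b71ae)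 (.cons (nat_lit 2) (nat_lit 8) (nat_lit 0) (nat_lit 0x65441000) (nat_lit 0xf423fb71aea2c2804737f423f00000b71ae1f156) .nil))))) (.leaf (.cons (nat_lit 0x5510) (nat_lit 0x20003000400030000000100000000) (.cons (nat_lit 0x15005) (nat_lit 0x300020001000000000000000000030004) (.cons (nat_lit 0x10045) (nat_lit 0x100000000000000000001000000020002) (.cons (nat_lit 0x10015) (nat_lit 0x100000000000000000000000100020002) .nil)))) .nil)) (.non (nat_lit 1) (nat_lit 5) (nat_lit 0x2a021) (nat_lit 0x200020001000000000000000100000002))) (.non (nat_lit 0) (nat_lit 5) (nat_lit 0x25010) (nat_lit 0x100020001000000000000000100000000))) (.non (nat_lit 0) (nat_lit 5) (nat_lit 0x2a010) (nat_lit 0x100020001000000000000000200000000))) (.split (nat_lit 9) (nat_lit 0) (.split (nat_lit 9) (nat_lit 1) (.split (nat_lit 9) (nat_lit 2) (.split (nat_lit 9) (nat_lit 3) (.split (nat_lit 9) (nat_lit 4) (.split (nat_lit 9) (nat_lit 7) (.split (nat_lit 9) (nat_lit 8) (.split (nat_lit 9) (nat_lit 5) (.sup (nat_lit 0x3000100050004) (nat_lit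 0x2000000010003000500040000000000000000)) (.unj (nat_lit 0x41400) (nat_lit 0x1000000000001000100000000000000000000) (nat_lit 0x55) (nat_lit 0x1000100020002))) (.non (nat_lit 0) (nat_lit 5) (nat_lit 0x55000) (nat_lit 0x1000100010001000000000000000000000000))) (.non (nat_lit 0) (nat_lit 5) (nat_lit 0x45000) (nat_lit 0x1000000010001000000000000000000000000))) (.non (nat_lit 0) (nat_lit 5) (nat_lit 0x55154) (nat_lit 0x2000200040003000000010001000300020000))) (.non (nat_lit 0) (nat_lit 5) (nat_lit 0x45054) (nat_lit 0x1000000010001000000000001000100010000))) (.non (nat_lit 0) (nat_lit 5) (nat_lit 0x45010) (nat_lit 0x1000000010001000000000000000100000000))) (.star (nat_lit 9) (nat_lit 1) (nat_lit 6))) (.star (nat_lit 9) (nat_lit 0) (nat_lit 6)))) (.split (nat_lit 9) (nat_lit 0) (.split (nat_lit 9) (nat_lit 1) (.split (nat_lit 9) (nat_lit 2) (.split (nat_lit 9) (nat_lit 3) (.split (nat_lit 9) (nat_lit 4) (.split (nat_lit 9) (nat_lit 7) (.split (nat_lit 9) (nat_lit 8) (.split (nat_lit 9) (nat_lit 6)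 (.unj (nat_lit 0x55) (nat_lit 0x1000100020002) (nat_lit 0x41500) (nat_lit 0x1000000000001000200020000000000000000)) (.unj (nat_lit 0x41400) (nat_lit 0x1000000000001000100000000000000000000) (nat_lit 0x55) (nat_lit 0x1000100020002))) (.non (nat_lit 0) (nat_lit 6) (nat_lit 0x54500) (nat_lit 0x3000200010000000400030000000000000000))) (.non (nat_lit 0) (nat_lit 5) (nat_lit 0x55010) (nat_lit 0x1000100020001000000000000000100000000))) (.non (nat_lit 0) (nat_lit 6) (nat_lit 0x40500) (nat_lit 0x1000000000000000100010000000000000000))) (.non (nat_lit 0) (nat_lit 6) (nat_lit 0x40544) (nat_lit 0x3000000000000000400030002000000010000))) (.non (nat_lit 0) (nat_lit 5) (nat_lit 0x55014) (nat_lit 0x1000100020001000000000000000200010000))) (.star (nat_lit 9) (nat_lit 1) (nat_lit 5))) (.star (nat_lit 9) (nat_lit 0) (nat_lit 5))))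

noncomputable def t1125_22 : Tr := (.ex (nat_lit 6) (.split (nat_lit 7) (nat_lit 2) (.split (nat_lit 9) (nat_lit 3) (.split (nat_lit 8) (nat_lit 7) (.split (nat_lit 8) (nat_lit 0) (.pd (.cons (nat_lit 0) (nat_lit 4) (nat_lit 0) (nat_lit 0x3727601110) (nat_lit 0xf423ff423f65b97b71aef423f00000b71ae61a790a2b500000) (.cons (nat_lit 0) (nat_lit 7) (nat_lit 0) (nat_lit 0x3805441110) (nat_lit 0xf423ff423f00000f423fb71ae1f156b71aef423f65b9700000) (.cons (nat_lit 1) (nat_lit 4) (nat_lit 0) (nat_lit 0x3087603700) (nat_lit 0xf423f61a7965b97b71aef423f00000b71aef423f000005b8cc) (.cons (nat_lit 1) (nat_lit 7) (nat_lit 0) (nat_lit 0x3005443200) (nat_lit 0xf423ff423f00000f423fb71ae1f156b71aef423f00000b71ae) .nil)))) (.st (nat_lit 9) (nat_lit 0) (nat_lit 4) (nat_lit 0x55454) (nat_lit 0x2000300060004000200000003000500040000) (nat_lit 1) (nat_lit 1) (.pd (.cons (nat_lit 2) (nat_lit 8) (nat_lit 0) (nat_lit 0x3065441000) (nat_lit 0xf423f00000f423fb71aea2c2804737b71ae00000a2c2804737) .nil) (.leaf (.cons (nat_lit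 0x5510) (nat_lit 0x20003000400030000000100000000) (.cons (nat_lit 0x15005) (nat_lit 0x300020001000000000000000000030004) (.cons (nat_lit 0x10045) (nat_lit 0x100000000000000000001000000020002) (.cons (nat_lit 0x10015) (nat_lit 0x100000000000000000000000100020002) .nil)))) .nil)))) (.non (nat_lit 1) (nat_lit 5) (nat_lit 0x2a021) (nat_lit 0x200020001000000000000000100000002))) (.non (nat_lit 0) (nat_lit 5) (nat_lit 0x25010) (nat_lit 0x100020001000000000000000100000000))) (.non (nat_lit 0) (nat_lit 5) (nat_lit 0x95054) (nat_lit 0x1000100020001000000000002000200020000))) (.non (nat_lit 0) (nat_lit 5) (nat_lit 0x2a010) (nat_lit 0x100020001000000000000000200000000))) (.split (nat_lit 0xa) (nat_lit 0) (.split (nat_lit 0xa) (nat_lit 1) (.split (nat_lit 0xa) (nat_lit 2) (.split (nat_lit 0xa) (nat_lit 3) (.split (nat_lit 0xa) (nat_lit 4) (.split (nat_lit 0xa) (nat_lit 7) (.split (nat_lit 0xa) (nat_lit 8) (.split (nat_lit 0xa) (nat_lit 9) (.split (nat_lit 0xa) (nat_lit 5) (.sup (nat_lit 0x3000100050004)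 (nat_lit 0x20000000000010003000500040000000000000000)) (.unj (nat_lit 0x101400) (nat_lit 0x10000000000000001000100000000000000000000) (nat_lit 0x55) (nat_lit 0x1000100020002))) (.non (nat_lit 0) (nat_lit 5) (nat_lit 0x145054) (nat_lit 0x10001000000010001000000000001000100010000))) (.non (nat_lit 0) (nat_lit 5) (nat_lit 0x115000) (nat_lit 0x10000000100010001000000000000000000000000))) (.non (nat_lit 0) (nat_lit 5) (nat_lit 0x105000) (nat_lit 0x10000000000010001000000000000000000000000))) (.non (nat_lit 0) (nat_lit 5) (nat_lit 0x115154) (nat_lit 0x20000000200040003000000010001000300020000))) (.non (nat_lit 0) (nat_lit 5) (nat_lit 0x105054) (nat_lit 0x10000000000010001000000000001000100010000))) (.non (nat_lit 0) (nat_lit 5) (nat_lit 0x105010) (nat_lit 0x10000000000010001000000000000000100000000))) (.star (nat_lit 0xa) (nat_lit 1) (nat_lit 6))) (.star (nat_lit 0xa) (nat_lit 0) (nat_lit 6))))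

noncomputable def t1125_23 : Tr := (.ex (nat_lit 4) (.ex (nat_lit 5) t1125_22 (.split (nat_lit 0xa) (nat_lit 0) (.split (nat_lit 0xa) (nat_lit 1) (.split (nat_lit 0xa) (nat_lit 2) (.split (nat_lit 0xa) (nat_lit 3) (.split (nat_lit 0xa) (nat_lit 4) (.split (nat_lit 0xa) (nat_lit 7) (.split (nat_lit 0xa) (nat_lit 8) (.split (nat_lit 0xa) (nat_lit 9) (.split (nat_lit 0xa) (nat_lit 6) (.unj (nat_lit 0x55) (nat_lit 0x1000100020002) (nat_lit 0x101500) (nat_lit 0x10000000000000001000200020000000000000000)) (.unj (nat_lit 0x101400) (nat_lit 0x10000000000000001000100000000000000000000) (nat_lit 0x55) (nat_lit 0x1000100020002))) (.non (nat_lit 0) (nat_lit 6) (nat_lit 0x140540) (nat_lit 0x30002000000000000000400030001000000000000))) (.non (nat_lit 0) (nat_lit 6) (nat_lit 0x114500) (nat_lit 0x30000000200010000000400030000000000000000))) (.non (nat_lit 0) (nat_lit 5) (nat_lit 0x115010) (nat_lit 0x10000000100020001000000000000000100000000))) (.non (nat_lit 0) (nat_lit 6) (nat_lit 0x100500) (nat_lit 0x10000000000000000000100010000000000000000)))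 (.non (nat_lit 0) (nat_lit 5) (nat_lit 0x155054) (nat_lit 0x10001000100020001000000000002000200020000))) (.non (nat_lit 0) (nat_lit 5) (nat_lit 0x115014) (nat_lit 0x10000000100020001000000000000000200010000))) (.star (nat_lit 0xa) (nat_lit 1) (nat_lit 5))) (.star (nat_lit 0xa) (nat_lit 0) (nat_lit 5)))) (.split (nat_lit 0xa) (nat_lit 0) (.split (nat_lit 0xa) (nat_lit 1) (.split (nat_lit 0xa) (nat_lit 2) (.split (nat_lit 0xa) (nat_lit 3) (.split (nat_lit 0xa) (nat_lit 5) (.split (nat_lit 0xa) (nat_lit 6) (.split (nat_lit 0xa) (nat_lit 7) (.split (nat_lit 0xa) (nat_lit 8) (.split (nat_lit 0xa) (nat_lit 9) (.unj (nat_lit 0x55) (nat_lit 0x1000100020002) (nat_lit 0x101500) (nat_lit 0x10000000000000001000200020000000000000000)) (.non (nat_lit 0) (nat_lit 6) (nat_lit 0x140540) (nat_lit 0x30002000000000000000300040001000000000000))) (.non (nat_lit 0) (nat_lit 5) (nat_lit 0x115154) (nat_lit 0x20000000300040002000000010001000300020000))) (.non (nat_lit 0) (nat_lit 5) (nat_lit 0x115010) (nat_lit 0x10000000100020001000000000000000100000000)))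 (.non (nat_lit 0) (nat_lit 5) (nat_lit 0x115154) (nat_lit 0x20000000200040003000000010001000300020000))) (.non (nat_lit 0) (nat_lit 6) (nat_lit 0x100500) (nat_lit 0x10000000000000000000100010000000000000000))) (.non (nat_lit 0) (nat_lit 5) (nat_lit 0x155054) (nat_lit 0x10001000100020001000000000002000200020000))) (.non (nat_lit 0) (nat_lit 5) (nat_lit 0x115014) (nat_lit 0x10000000100020001000000000000000200010000))) (.non (nat_lit 0) (nat_lit 5) (nat_lit 0x115054) (nat_lit 0x10000000100020001000000000001000200020000))) (.non (nat_lit 1) (nat_lit 6) (nat_lit 0x110501) (nat_lit 0x30000000100000000000300040000000000000002))))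

noncomputable def t1125_24 : Tr := (.ex (nat_lit 6) (.split (nat_lit 7) (nat_lit 2) (.split (nat_lit 8) (nat_lit 7) (.split (nat_lit 8) (nat_lit 0) (.split (nat_lit 9) (nat_lit 0) (.pd (.cons (nat_lit 0) (nat_lit 4) (nat_lit 0) (nat_lit 0x9727601110) (nat_lit 0xf423ff423f65b97b71aef423f00000f423f61a791e83b00000) (.cons (nat_lit 0) (nat_lit 7) (nat_lit 0) (nat_lit 0x9805441110) (nat_lit 0xf423ff423f00000f423fb71ae1f156f423ff423f7a11d00000) (.cons (nat_lit 1) (nat_lit 4) (nat_lit 0) (nat_lit 0x87603700) (nat_lit 0xf423f61a7965b97b71aef423f00000f423ff423f000001e83b) (.cons (nat_lit 1) (nat_lit 7) (nat_lit 0) (nat_lit 0x5443200) (nat_lit 0xf423ff423f00000f423fb71ae1f156f423ff423f000007a11d) .nil)))) (.leaf (.cons (nat_lit 0x5510) (nat_lit 0x20003000400030000000100000000) (.cons (nat_lit 0x50005) (nat_lit 0x1000100000000000000000000000000020002) (.cons (nat_lit 0x40045) (nat_lit 0x1000000000000000000000001000000020002) .nil))) .nil)) (.non (nat_lit 1) (nat_lit 5) (nat_lit 0x95011) (nat_lit 0x1000200020001000000000000000100000002)))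 (.non (nat_lit 1) (nat_lit 5) (nat_lit 0x6a001) (nat_lit 0x2000300020001000000000000000000000004))) (.non (nat_lit 0) (nat_lit 5) (nat_lit 0x25010) (nat_lit 0x100020001000000000000000100000000))) (.non (nat_lit 0) (nat_lit 5) (nat_lit 0x2a010) (nat_lit 0x100020001000000000000000200000000))) (.split (nat_lit 0xa) (nat_lit 0) (.split (nat_lit 0xa) (nat_lit 1) (.split (nat_lit 0xa) (nat_lit 2) (.split (nat_lit 0xa) (nat_lit 3) (.split (nat_lit 0xa) (nat_lit 4) (.split (nat_lit 0xa) (nat_lit 7) (.split (nat_lit 0xa) (nat_lit 8) (.split (nat_lit 0xa) (nat_lit 9) (.split (nat_lit 0xa) (nat_lit 5) (.unj (nat_lit 0x40045) (nat_lit 0x1000000000000000000000001000000020002) (nat_lit 0x105500) (nat_lit 0x10000000000010002000200020000000000000000)) (.unj (nat_lit 0x101400) (nat_lit 0x10000000000000001000100000000000000000000) (nat_lit 0x55) (nat_lit 0x1000100020002))) (.non (nat_lit 0) (nat_lit 5) (nat_lit 0x155054) (nat_lit 0x20001000200040003000000000001000300020000))) (.non (nat_lit 0) (nat_lit 5) (nat_lit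 0x115000) (nat_lit 0x10000000100010001000000000000000000000000))) (.non (nat_lit 0) (nat_lit 5) (nat_lit 0x105000) (nat_lit 0x10000000000010001000000000000000000000000))) (.non (nat_lit 0) (nat_lit 5) (nat_lit 0x115154) (nat_lit 0x20000000200040003000000010001000300020000))) (.non (nat_lit 0) (nat_lit 5) (nat_lit 0x105054) (nat_lit 0x10000000000010001000000000001000100010000))) (.non (nat_lit 0) (nat_lit 5) (nat_lit 0x105010) (nat_lit 0x10000000000010001000000000000000100000000))) (.star (nat_lit 0xa) (nat_lit 1) (nat_lit 6))) (.star (nat_lit 0xa) (nat_lit 0) (nat_lit 6))))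

noncomputable def t1125_25 : Tr := (.ex (nat_lit 4) (.ex (nat_lit 5) t1125_24 (.split (nat_lit 0xa) (nat_lit 0) (.split (nat_lit 0xa) (nat_lit 1) (.split (nat_lit 0xa) (nat_lit 2) (.split (nat_lit 0xa) (nat_lit 3) (.split (nat_lit 0xa) (nat_lit 4) (.split (nat_lit 0xa) (nat_lit 7) (.split (nat_lit 0xa) (nat_lit 8) (.split (nat_lit 0xa) (nat_lit 9) (.split (nat_lit 0xa) (nat_lit 6) (.unj (nat_lit 0x55) (nat_lit 0x1000100020002) (nat_lit 0x101500) (nat_lit 0x10000000000000001000200020000000000000000)) (.unj (nat_lit 0x101400) (nat_lit 0x10000000000000001000100000000000000000000) (nat_lit 0x55) (nat_lit 0x1000100020002))) (.non (nat_lit 1) (nat_lit 6) (nat_lit 0x140501) (nat_lit 0x30002000000000000000400030000000000000001))) (.non (nat_lit 0) (nat_lit 6) (nat_lit 0x114500) (nat_lit 0x30000000200010000000400030000000000000000))) (.non (nat_lit 0) (nat_lit 5) (nat_lit 0x115010) (nat_lit 0x10000000100020001000000000000000100000000))) (.non (nat_lit 0) (nat_lit 6) (nat_lit 0x100500) (nat_lit 0x10000000000000000000100010000000000000000)))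 (.non (nat_lit 0) (nat_lit 6) (nat_lit 0x100544) (nat_lit 0x30000000000000000000400030002000000010000))) (.non (nat_lit 0) (nat_lit 5) (nat_lit 0x115014) (nat_lit 0x10000000100020001000000000000000200010000))) (.star (nat_lit 0xa) (nat_lit 1) (nat_lit 5))) (.star (nat_lit 0xa) (nat_lit 0) (nat_lit 5)))) (.split (nat_lit 0xa) (nat_lit 0) (.split (nat_lit 0xa) (nat_lit 1) (.split (nat_lit 0xa) (nat_lit 2) (.split (nat_lit 0xa) (nat_lit 3) (.split (nat_lit 0xa) (nat_lit 5) (.split (nat_lit 0xa) (nat_lit 6) (.split (nat_lit 0xa) (nat_lit 7) (.split (nat_lit 0xa) (nat_lit 8) (.split (nat_lit 0xa) (nat_lit 9) (.unj (nat_lit 0x55) (nat_lit 0x1000100020002) (nat_lit 0x101500) (nat_lit 0x10000000000000001000200020000000000000000)) (.non (nat_lit 1) (nat_lit 6) (nat_lit 0x140501) (nat_lit 0x30002000000000000000300040000000000000001))) (.non (nat_lit 0) (nat_lit 5) (nat_lit 0x115154) (nat_lit 0x20000000300040002000000010001000300020000))) (.non (nat_lit 0) (nat_lit 5) (nat_lit 0x115010) (nat_lit 0x10000000100020001000000000000000100000000)))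 (.non (nat_lit 0) (nat_lit 5) (nat_lit 0x115154) (nat_lit 0x20000000200040003000000010001000300020000))) (.non (nat_lit 0) (nat_lit 6) (nat_lit 0x100500) (nat_lit 0x10000000000000000000100010000000000000000))) (.non (nat_lit 0) (nat_lit 6) (nat_lit 0x100544) (nat_lit 0x30000000000000000000300040002000000010000))) (.non (nat_lit 0) (nat_lit 5) (nat_lit 0x115014) (nat_lit 0x10000000100020001000000000000000200010000))) (.non (nat_lit 0) (nat_lit 5) (nat_lit 0x115054) (nat_lit 0x10000000100020001000000000001000200020000))) (.non (nat_lit 1) (nat_lit 5) (nat_lit 0x155011) (nat_lit 0x10001000200020001000000000000000100000002))))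

noncomputable def t1125_26 : Tr := (.ex (nat_lit 0) (.ex (nat_lit 3) (.ex (nat_lit 4) t1125_21 (.split (nat_lit 9) (nat_lit 0) (.split (nat_lit 9) (nat_lit 1) (.split (nat_lit 9) (nat_lit 2) (.split (nat_lit 9) (nat_lit 3) (.split (nat_lit 9) (nat_lit 5) (.split (nat_lit 9) (nat_lit 6) (.split (nat_lit 9) (nat_lit 7) (.split (nat_lit 9) (nat_lit 8) (.unj (nat_lit 0x55) (nat_lit 0x1000100020002) (nat_lit 0x41500) (nat_lit 0x1000000000001000200020000000000000000)) (.non (nat_lit 0) (nat_lit 5) (nat_lit 0x55154) (nat_lit 0x2000300040002000000010001000300020000))) (.non (nat_lit 0) (nat_lit 5) (nat_lit 0x55010) (nat_lit 0x1000100020001000000000000000100000000))) (.non (nat_lit 0) (nat_lit 5) (nat_lit 0x55154) (nat_lit 0x2000200040003000000010001000300020000))) (.non (nat_lit 0) (nat_lit 6) (nat_lit 0x40500) (nat_lit 0x1000000000000000100010000000000000000))) (.non (nat_lit 0) (nat_lit 6) (nat_lit 0x40544) (nat_lit 0x3000000000000000300040002000000010000))) (.non (nat_lit 0) (nat_lit 5) (nat_lit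 0x55014) (nat_lit 0x1000100020001000000000000000200010000))) (.non (nat_lit 0) (nat_lit 5) (nat_lit 0x55054) (nat_lit 0x1000100020001000000000001000200020000))) (.non (nat_lit 1) (nat_lit 6) (nat_lit 0x50501) (nat_lit 0x3000100000000000300040000000000000002)))) (.split (nat_lit 9) (nat_lit 1) (.split (nat_lit 9) (nat_lit 2) (.split (nat_lit 9) (nat_lit 4) (.split (nat_lit 9) (nat_lit 5) (.split (nat_lit 9) (nat_lit 6) (.split (nat_lit 9) (nat_lit 7) (.split (nat_lit 9) (nat_lit 8) (.split (nat_lit 9) (nat_lit 0) (.st (nat_lit 3) (nat_lit 0) (nat_lit 5) (nat_lit 0x55054) (nat_lit 0x1000100020001000000000002000200020000) (nat_lit 1) (nat_lit 1) t1125_23) (.sup (nat_lit 0x4000000000000000000000004000000030005) (nat_lit 0x20003000500040000000100000000))) (.non (nat_lit 0) (nat_lit 5) (nat_lit 0x54054) (nat_lit 0x1000100010000000000000001000100010000))) (.non (nat_lit 0) (nat_lit 5) (nat_lit 0x55010) (nat_lit 0x1000100020001000000000000000100000000))) (.non (nat_lit 0) (nat_lit 5) (nat_lit 0x45054)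 (nat_lit 0x1000000010001000000000001000100010000))) (.non (nat_lit 0) (nat_lit 6) (nat_lit 0x40544) (nat_lit 0x3000000000000000400030002000000010000))) (.non (nat_lit 0) (nat_lit 6) (nat_lit 0x40544) (nat_lit 0x3000000000000000300040002000000010000))) (.non (nat_lit 0) (nat_lit 5) (nat_lit 0x55014) (nat_lit 0x1000100020001000000000000000200010000))) (.non (nat_lit 0) (nat_lit 5) (nat_lit 0x40044) (nat_lit 0x1000000000000000000000001000000010000)))) (.split (nat_lit 9) (nat_lit 1) (.split (nat_lit 9) (nat_lit 2) (.split (nat_lit 9) (nat_lit 4) (.split (nat_lit 9) (nat_lit 5) (.split (nat_lit 9) (nat_lit 6) (.split (nat_lit 9) (nat_lit 7) (.split (nat_lit 9) (nat_lit 8) (.split (nat_lit 9) (nat_lit 3) t1125_25 (.sup (nat_lit 0x4000000000000000000000004000000030005) (nat_lit 0x20003000500040000000100000000))) (.non (nat_lit 1) (nat_lit 5) (nat_lit 0x50001) (nat_lit 0x1000100000000000000000000000000000001))) (.non (nat_lit 0) (nat_lit 5) (nat_lit 0x55010) (nat_lit 0x1000100020001000000000000000100000000)))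 (.star (nat_lit 9) (nat_lit 0) (nat_lit 6))) (.star (nat_lit 9) (nat_lit 0) (nat_lit 5))) (.non (nat_lit 1) (nat_lit 6) (nat_lit 0x50501) (nat_lit 0x3000100000000000300040000000000000002))) (.non (nat_lit 0) (nat_lit 5) (nat_lit 0x55014) (nat_lit 0x1000100020001000000000000000200010000))) (.non (nat_lit 0) (nat_lit 5) (nat_lit 0x55054) (nat_lit 0x1000100020001000000000001000200020000))))

noncomputable def t1125_27 : Tr := (.ex (nat_lit 6) (.split (nat_lit 8) (nat_lit 3) (.split (nat_lit 8) (nat_lit 7) (.split (nat_lit 8) (nat_lit 0) (.pd (.cons (nat_lit 0) (nat_lit 4) (nat_lit 0) (nat_lit 0x387601110) (nat_lit 0x98965a2c28b71aef423f00000927bdf423f5161100000) (.cons (nat_lit 0) (nat_lit 7) (nat_lit 0) (nat_lit 0x305441110) (nat_lit 0xf423f00000f423fb71ae1f156b71aef423f65b9700000) (.cons (nat_lit 0) (nat_lit 8) (nat_lit 0) (nat_lit 0x65441110) (nat_lit 0xf423fb71aea2c2804737f423ff423f7a11d00000) (.cons (nat_lit 1) (nat_lit 4) (nat_lit 0) (nat_lit 0x87608200) (nat_lit 0x5b8d4a2c28b71aef423f00000f423ff423f000005160d)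 (.cons (nat_lit 1) (nat_lit 7) (nat_lit 0) (nat_lit 0x5448200) (nat_lit 0xb71ae00000f423fb71ae1f156f423ff423f00000a2c28) (.cons (nat_lit 1) (nat_lit 8) (nat_lit 0) (nat_lit 0x65443200) (nat_lit 0xf423fb71aea2c2804737f423ff423f00000f423f) (.cons (nat_lit 2) (nat_lit 8) (nat_lit 0) (nat_lit 0x65441000) (nat_lit 0xf423fb71aea2c2804737f423f00000b71ae1f156) (.cons (nat_lit 3) (nat_lit 8) (nat_lit 0) (nat_lit 0x65440100) (nat_lit 0xf423fb71aea2c280473700000f423fb71ae1f156) .nil)))))))) (.leaf (.cons (nat_lit 0x15005) (nat_lit 0x300020001000000000000000000030004) (.cons (nat_lit 0x10045) (nat_lit 0x100000000000000000001000000010001) (.cons (nat_lit 0x10015) (nat_lit 0x100000000000000000000000100020002) .nil))) .nil)) (.non (nat_lit 1) (nat_lit 5) (nat_lit 0x28081) (nat_lit 0x200010000000000000001000000000002))) (.non (nat_lit 0) (nat_lit 5) (nat_lit 0x1a044) (nat_lit 0x300020001000000000002000000010000))) (.non (nat_lit 0) (nat_lit 5) (nat_lit 0x2a044) (nat_lit 0x300020001000000000004000000020000)))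 (.split (nat_lit 9) (nat_lit 0) (.split (nat_lit 9) (nat_lit 1) (.split (nat_lit 9) (nat_lit 2) (.split (nat_lit 9) (nat_lit 3) (.split (nat_lit 9) (nat_lit 7) (.split (nat_lit 9) (nat_lit 8) (.split (nat_lit 9) (nat_lit 4) (.split (nat_lit 9) (nat_lit 5) (.unj (nat_lit 0x55) (nat_lit 0x1000100020002) (nat_lit 0x45500) (nat_lit 0x1000000010002000200020000000000000000)) (.unj (nat_lit 0x41400) (nat_lit 0x1000000000001000100000000000000000000) (nat_lit 0x55) (nat_lit 0x1000100020002))) (.split (nat_lit 9) (nat_lit 5) (.unj (nat_lit 0x55) (nat_lit 0x1000100020002) (nat_lit 0x41500) (nat_lit 0x1000000000001000100010000000000000000)) (.non (nat_lit 0) (nat_lit 6) (nat_lit 0x40500) (nat_lit 0x1000000000000000100010000000000000000)))) (.non (nat_lit 0) (nat_lit 5) (nat_lit 0x55000) (nat_lit 0x1000100010001000000000000000000000000))) (.non (nat_lit 0) (nat_lit 5) (nat_lit 0x45000) (nat_lit 0x1000000010001000000000000000000000000))) (.non (nat_lit 0) (nat_lit 5) (nat_lit 0x55040) (nat_lit 0x1000100010001000000000001000000000000)))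 (.non (nat_lit 0) (nat_lit 5) (nat_lit 0x55054) (nat_lit 0x1000100010001000000000001000100010000))) (.star (nat_lit 9) (nat_lit 1) (nat_lit 6))) (.star (nat_lit 9) (nat_lit 0) (nat_lit 6))))

noncomputable def t1125_28 : Tr := (.ex (nat_lit 6) (.split (nat_lit 8) (nat_lit 3) (.split (nat_lit 9) (nat_lit 3) (.split (nat_lit 8) (nat_lit 7) (.split (nat_lit 8) (nat_lit 0) (.pd (.cons (nat_lit 0) (nat_lit 4) (nat_lit 0) (nat_lit 0x3387601110) (nat_lit 0xf423f98965a2c28b71aef423f000005572cf423f08b7800000) (.cons (nat_lit 0) (nat_lit 7) (nat_lit 0) (nat_lit 0x3305441110) (nat_lit 0xf423ff423f00000f423fb71ae1f1567a11df423f3d08a00000) (.cons (nat_lit 0) (nat_lit 8) (nat_lit 0) (nat_lit 0x3065441110) (nat_lit 0xf423f00000f423fb71aea2c2804737b71aef423f65b9700000) (.cons (nat_lit 1) (nat_lit 4) (nat_lit 0) (nat_lit 0x3087608200) (nat_lit 0xf423f4734ea2c28b71aef423f00000b71aef423f0000022dfa) (.cons (nat_lit 1) (nat_lit 7) (nat_lit 0) (nat_lit 0x3005448200) (nat_lit 0xf423fa2c2800000f423fb71ae1f156b71aef423f0000098965)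 (.cons (nat_lit 1) (nat_lit 8) (nat_lit 0) (nat_lit 0x3065443200) (nat_lit 0xf423f00000f423fb71aea2c2804737b71aef423f00000f423f) (.cons (nat_lit 2) (nat_lit 8) (nat_lit 0) (nat_lit 0x3065441000) (nat_lit 0xf423f00000f423fb71aea2c2804737b71ae00000a2c2804737) (.cons (nat_lit 3) (nat_lit 8) (nat_lit 0) (nat_lit 0x9065440100) (nat_lit 0xf423f00000f423fb71aea2c280473700000f423fb71ae1f156) .nil)))))))) (.leaf (.cons (nat_lit 0x15005) (nat_lit 0x300020001000000000000000000030004) (.cons (nat_lit 0x10045) (nat_lit 0x100000000000000000001000000010001) (.cons (nat_lit 0x10015) (nat_lit 0x100000000000000000000000100020002) .nil))) .nil)) (.non (nat_lit 1) (nat_lit 5) (nat_lit 0x28081) (nat_lit 0x200010000000000000001000000000002))) (.non (nat_lit 0) (nat_lit 5) (nat_lit 0x5a040) (nat_lit 0x1000300020001000000000002000000000000))) (.non (nat_lit 0) (nat_lit 5) (nat_lit 0x90044) (nat_lit 0x1000100000000000000000002000000010000))) (.non (nat_lit 0) (nat_lit 5) (nat_lit 0x6a040) (nat_lit 0x2000300020001000000000004000000000000)))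 (.split (nat_lit 0xa) (nat_lit 0) (.split (nat_lit 0xa) (nat_lit 1) (.split (nat_lit 0xa) (nat_lit 2) (.split (nat_lit 0xa) (nat_lit 3) (.split (nat_lit 0xa) (nat_lit 4) (.split (nat_lit 0xa) (nat_lit 7) (.split (nat_lit 0xa) (nat_lit 8) (.split (nat_lit 0xa) (nat_lit 9) (.split (nat_lit 0xa) (nat_lit 5) (.unj (nat_lit 0x55) (nat_lit 0x1000100020002) (nat_lit 0x105500) (nat_lit 0x10000000000010002000200020000000000000000)) (.unj (nat_lit 0x101400) (nat_lit 0x10000000000000001000100000000000000000000) (nat_lit 0x55) (nat_lit 0x1000100020002))) (.non (nat_lit 0) (nat_lit 5) (nat_lit 0x155040) (nat_lit 0x10001000100010001000000000001000000000000))) (.non (nat_lit 0) (nat_lit 5) (nat_lit 0x115000) (nat_lit 0x10000000100010001000000000000000000000000))) (.non (nat_lit 0) (nat_lit 5) (nat_lit 0x105000) (nat_lit 0x10000000000010001000000000000000000000000))) (.non (nat_lit 0) (nat_lit 5) (nat_lit 0x155154) (nat_lit 0x20003000500040003000000010006000200040000))) (.non (nat_lit 0) (nat_lit 5) (nat_lit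 0x115040) (nat_lit 0x10000000100010001000000000001000000000000))) (.non (nat_lit 0) (nat_lit 5) (nat_lit 0x115054) (nat_lit 0x10000000100010001000000000001000100010000))) (.star (nat_lit 0xa) (nat_lit 1) (nat_lit 6))) (.star (nat_lit 0xa) (nat_lit 0) (nat_lit 6))))

noncomputable def t1125_29 : Tr := (.ex (nat_lit 4) (.ex (nat_lit 5) t1125_28 (.split (nat_lit 0xa) (nat_lit 0) (.split (nat_lit 0xa) (nat_lit 1) (.split (nat_lit 0xa) (nat_lit 2) (.split (nat_lit 0xa) (nat_lit 3) (.split (nat_lit 0xa) (nat_lit 4) (.split (nat_lit 0xa) (nat_lit 7) (.split (nat_lit 0xa) (nat_lit 8) (.split (nat_lit 0xa) (nat_lit 9) (.split (nat_lit 0xa) (nat_lit 6) (.unj (nat_lit 0x55) (nat_lit 0x1000100020002) (nat_lit 0x101500) (nat_lit 0x10000000000000001000200020000000000000000)) (.unj (nat_lit 0x101400) (nat_lit 0x10000000000000001000100000000000000000000) (nat_lit 0x55) (nat_lit 0x1000100020002))) (.non (nat_lit 0) (nat_lit 5) (nat_lit 0x154054) (nat_lit 0x10002000200010000000000000003000100020000))) (.non (nat_lit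 0) (nat_lit 5) (nat_lit 0x154044) (nat_lit 0x10001000200010000000000000002000000010000))) (.non (nat_lit 0) (nat_lit 5) (nat_lit 0x155044) (nat_lit 0x10001000200020001000000000002000000010000))) (.non (nat_lit 0) (nat_lit 6) (nat_lit 0x100500) (nat_lit 0x10000000000000000000100010000000000000000))) (.non (nat_lit 0) (nat_lit 5) (nat_lit 0x150044) (nat_lit 0x10001000100000000000000000002000000010000))) (.non (nat_lit 0) (nat_lit 5) (nat_lit 0x155054) (nat_lit 0x10002000300020001000000000004000200030000))) (.star (nat_lit 0xa) (nat_lit 1) (nat_lit 5))) (.star (nat_lit 0xa) (nat_lit 0) (nat_lit 5)))) (.split (nat_lit 0xa) (nat_lit 0) (.split (nat_lit 0xa) (nat_lit 1) (.split (nat_lit 0xa) (nat_lit 2) (.split (nat_lit 0xa) (nat_lit 3) (.split (nat_lit 0xa) (nat_lit 5) (.split (nat_lit 0xa) (nat_lit 6) (.split (nat_lit 0xa) (nat_lit 7) (.split (nat_lit 0xa) (nat_lit 8) (.split (nat_lit 0xa) (nat_lit 9) (.unj (nat_lit 0x55) (nat_lit 0x1000100020002) (nat_lit 0x101500) (nat_lit 0x10000000000000001000200020000000000000000))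 (.non (nat_lit 0) (nat_lit 5) (nat_lit 0x155144) (nat_lit 0x20003000300020001000000010004000000020000))) (.non (nat_lit 0) (nat_lit 5) (nat_lit 0x155140) (nat_lit 0x20001000300020001000000010002000000000000))) (.non (nat_lit 0) (nat_lit 5) (nat_lit 0x155044) (nat_lit 0x10001000200020001000000000002000000010000))) (.non (nat_lit 0) (nat_lit 5) (nat_lit 0x155154) (nat_lit 0x20003000500040003000000010006000200040000))) (.non (nat_lit 0) (nat_lit 6) (nat_lit 0x100500) (nat_lit 0x10000000000000000000100010000000000000000))) (.non (nat_lit 0) (nat_lit 5) (nat_lit 0x150044) (nat_lit 0x10001000100000000000000000002000000010000))) (.non (nat_lit 0) (nat_lit 5) (nat_lit 0x155054) (nat_lit 0x10002000300020001000000000004000200030000))) (.non (nat_lit 0) (nat_lit 5) (nat_lit 0x155144) (nat_lit 0x20002000300020001000000010004000000030000))) (.non (nat_lit 1) (nat_lit 5) (nat_lit 0x155041) (nat_lit 0x10001000300020001000000000002000000000002))))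

noncomputable def t1125_30 : Tr := (.ex (nat_lit 3) (.ex (nat_lit 4) (.ex (nat_lit 5) t1125_27 (.split (nat_lit 9) (nat_lit 0) (.split (nat_lit 9) (nat_lit 1) (.split (nat_lit 9) (nat_lit 2) (.split (nat_lit 9) (nat_lit 3) (.split (nat_lit 9) (nat_lit 4) (.split (nat_lit 9) (nat_lit 7) (.split (nat_lit 9) (nat_lit 8) (.split (nat_lit 9) (nat_lit 6) (.unj (nat_lit 0x55) (nat_lit 0x1000100020002) (nat_lit 0x41500) (nat_lit 0x1000000000001000200020000000000000000)) (.unj (nat_lit 0x41400) (nat_lit 0x1000000000001000100000000000000000000) (nat_lit 0x55) (nat_lit 0x1000100020002))) (.non (nat_lit 0) (nat_lit 6) (nat_lit 0x54500) (nat_lit 0x3000200010000000400030000000000000000))) (.non (nat_lit 0) (nat_lit 6) (nat_lit 0x54500) (nat_lit 0x3000100020000000400030000000000000000))) (.non (nat_lit 0) (nat_lit 6) (nat_lit 0x40500) (nat_lit 0x1000000000000000100010000000000000000))) (.non (nat_lit 0) (nat_lit 6) (nat_lit 0x50540) (nat_lit 0x3000100000000000400030002000000000000))) (.non (nat_lit 0) (nat_lit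 6) (nat_lit 0x40514) (nat_lit 0x3000000000000000400030000000200010000))) (.star (nat_lit 9) (nat_lit 1) (nat_lit 5))) (.star (nat_lit 9) (nat_lit 0) (nat_lit 5)))) (.split (nat_lit 9) (nat_lit 0) (.split (nat_lit 9) (nat_lit 1) (.split (nat_lit 9) (nat_lit 2) (.split (nat_lit 9) (nat_lit 3) (.split (nat_lit 9) (nat_lit 5) (.split (nat_lit 9) (nat_lit 7) (.split (nat_lit 9) (nat_lit 8) (.split (nat_lit 9) (nat_lit 6) (.unj (nat_lit 0x55) (nat_lit 0x1000100020002) (nat_lit 0x41500) (nat_lit 0x1000000000001000200020000000000000000)) (.unj (nat_lit 0x55) (nat_lit 0x1000100020002) (nat_lit 0x41500) (nat_lit 0x1000000000001000100010000000000000000))) (.non (nat_lit 0) (nat_lit 5) (nat_lit 0x55144) (nat_lit 0x2000300020001000000010002000000010000))) (.non (nat_lit 0) (nat_lit 6) (nat_lit 0x54500) (nat_lit 0x3000100020000000300040000000000000000))) (.non (nat_lit 0) (nat_lit 6) (nat_lit 0x40500) (nat_lit 0x1000000000000000100010000000000000000))) (.non (nat_lit 0) (nat_lit 5) (nat_lit 0x54154) (nat_lit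 0x2000200010000000000010003000100020000))) (.non (nat_lit 0) (nat_lit 6) (nat_lit 0x40514) (nat_lit 0x3000000000000000300040000000200010000))) (.non (nat_lit 0) (nat_lit 6) (nat_lit 0x40544) (nat_lit 0x3000000000000000300040001000000020000))) (.non (nat_lit 1) (nat_lit 6) (nat_lit 0x50501) (nat_lit 0x3000100000000000300040000000000000002)))) (.split (nat_lit 9) (nat_lit 0) (.split (nat_lit 9) (nat_lit 1) (.split (nat_lit 9) (nat_lit 2) (.split (nat_lit 9) (nat_lit 4) (.split (nat_lit 9) (nat_lit 5) (.split (nat_lit 9) (nat_lit 6) (.split (nat_lit 9) (nat_lit 7) (.split (nat_lit 9) (nat_lit 8) (.st (nat_lit 3) (nat_lit 0) (nat_lit 5) (nat_lit 0x50044) (nat_lit 0x1000100000000000000000002000000010000) (nat_lit 1) (nat_lit 1) (.st (nat_lit 9) (nat_lit 0) (nat_lit 5) (nat_lit 0x54054) (nat_lit 0x2000200010000000000000003000100020000) (nat_lit 1) (nat_lit 1) t1125_29)) (.non (nat_lit 0) (nat_lit 5) (nat_lit 0x50040) (nat_lit 0x1000100000000000000000001000000000000))) (.non (nat_lit 0) (nat_lit 5)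 (nat_lit 0x54040) (nat_lit 0x1000100010000000000000001000000000000))) (.non (nat_lit 0) (nat_lit 5) (nat_lit 0x55040) (nat_lit 0x1000100010001000000000001000000000000))) (.non (nat_lit 0) (nat_lit 6) (nat_lit 0x50540) (nat_lit 0x3000100000000000400030002000000000000))) (.non (nat_lit 0) (nat_lit 5) (nat_lit 0x54154) (nat_lit 0x2000200010000000000010003000100020000))) (.non (nat_lit 0) (nat_lit 5) (nat_lit 0x40054) (nat_lit 0x1000000000000000000000001000100010000))) (.non (nat_lit 0) (nat_lit 5) (nat_lit 0x40044) (nat_lit 0x1000000000000000000000001000000010000))) (.non (nat_lit 1) (nat_lit 5) (nat_lit 0x50041) (nat_lit 0x1000100000000000000000001000000000001))))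

noncomputable def t1125_31 : Tr := (.ex (nat_lit 1) (.ex (nat_lit 2) t1125_30 (.split (nat_lit 9) (nat_lit 1) (.split (nat_lit 9) (nat_lit 3) (.split (nat_lit 9) (nat_lit 4) (.split (nat_lit 9) (nat_lit 5) (.split (nat_lit 9) (nat_lit 6) (.split (nat_lit 9) (nat_lit 7) (.split (nat_lit 9) (nat_lit 8) (.split (nat_lit 9) (nat_lit 0) (.split (nat_lit 9) (nat_lit 2) (.split (nat_lit 8) (nat_lit 0) (.split (nat_lit 8) (nat_lit 3) (.sup (nat_lit 0x3000c00160020001a0000000000000000) (nat_lit 0x2000000000000000000000002000500070005)) (.non (nat_lit 0) (nat_lit 5) (nat_lit 0x2a044) (nat_lit 0x300020001000000000004000000020000))) (.non (nat_lit 1) (nat_lit 5) (nat_lit 0x28081) (nat_lit 0x200010000000000000001000000000002))) (.split (nat_lit 9) (nat_lit 2) (.split (nat_lit 8) (nat_lit 0) (.sup (nat_lit 0x7000000000000000000000000000a000a0006) (nat_lit 0x100040007000a00080000000000000000)) (.non (nat_lit 1) (nat_lit 5) (nat_lit 0x28081) (nat_lit 0x200010000000000000001000000000002))) (.non (nat_lit 0)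 (nat_lit 5) (nat_lit 0x50054) (nat_lit 0x3000100000000000000000002000400030000)))) (.sup (nat_lit 0x80000000000000000000000000009000a0007) (nat_lit 0x100040007000a00080000000000000000))) (.non (nat_lit 0) (nat_lit 5) (nat_lit 0x50054) (nat_lit 0x1000100000000000000000001000100010000))) (.non (nat_lit 0) (nat_lit 5) (nat_lit 0x54054) (nat_lit 0x1000100010000000000000001000100010000))) (.non (nat_lit 0) (nat_lit 5) (nat_lit 0x55054) (nat_lit 0x1000100010001000000000001000100010000))) (.non (nat_lit 0) (nat_lit 6) (nat_lit 0x40514) (nat_lit 0x3000000000000000400030000000200010000))) (.non (nat_lit 0) (nat_lit 6) (nat_lit 0x40514) (nat_lit 0x3000000000000000300040000000200010000))) (.non (nat_lit 0) (nat_lit 5) (nat_lit 0x40054) (nat_lit 0x1000000000000000000000001000100010000))) (.non (nat_lit 0) (nat_lit 5) (nat_lit 0x40014) (nat_lit 0x1000000000000000000000000000100010000)))) (.split (nat_lit 9) (nat_lit 2) (.split (nat_lit 9) (nat_lit 3) (.split (nat_lit 9) (nat_lit 4) (.split (nat_lit 9) (nat_lit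 5) (.split (nat_lit 9) (nat_lit 6) (.split (nat_lit 9) (nat_lit 7) (.split (nat_lit 9) (nat_lit 8) (.split (nat_lit 9) (nat_lit 0) (.split (nat_lit 9) (nat_lit 1) (.split (nat_lit 8) (nat_lit 0) (.sup (nat_lit 0x50000000000000000000000000005000a0006) (nat_lit 0x100040007000a00080000000000000000)) (.non (nat_lit 1) (nat_lit 5) (nat_lit 0x28081) (nat_lit 0x200010000000000000001000000000002))) (.non (nat_lit 0) (nat_lit 5) (nat_lit 0x80054) (nat_lit 0x1000000000000000000000001000100020000))) (.sup (nat_lit 0x90000000000000000000000000000000a0007) (nat_lit 0x100040007000a00080000000000000000))) (.non (nat_lit 0) (nat_lit 5) (nat_lit 0x50044) (nat_lit 0x1000100000000000000000001000000010000))) (.non (nat_lit 0) (nat_lit 5) (nat_lit 0x54044) (nat_lit 0x1000100010000000000000001000000010000))) (.star (nat_lit 9) (nat_lit 1) (nat_lit 6))) (.star (nat_lit 9) (nat_lit 1) (nat_lit 5))) (.non (nat_lit 0) (nat_lit 6) (nat_lit 0x40544) (nat_lit 0x3000000000000000300040001000000020000))) (.non (nat_lit 0)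 (nat_lit 5) (nat_lit 0x40044) (nat_lit 0x1000000000000000000000001000000010000))) (.non (nat_lit 0) (nat_lit 5) (nat_lit 0x40014) (nat_lit 0x1000000000000000000000000000100010000))))

noncomputable def t1125_32 : Tr := (.split (nat_lit 8) (nat_lit 3) (.split (nat_lit 7) (nat_lit 2) (.split (nat_lit 7) (nat_lit 3) (.split (nat_lit 8) (nat_lit 0) (.sup (nat_lit 0x50005000a0006) (nat_lit 0x100040007000a00080000000000000000)) (.st (nat_lit 0) (nat_lit 1) (nat_lit 5) (nat_lit 0x2a001) (nat_lit 0x300020001000000000000000000000004) (nat_lit 1) (nat_lit 2) (.st (nat_lit 7) (nat_lit 1) (nat_lit 5) (nat_lit 0x2a001) (nat_lit 0x200020001000000000000000000000002) (nat_lit 2) (nat_lit 1) (.st (nat_lit 8) (nat_lit 1) (nat_lit 5) (nat_lit 0x28001) (nat_lit 0x200010000000000000000000000000002) (nat_lit 2) (nat_lit 1) t1125_14)))) (.st (nat_lit 1) (nat_lit 0) (nat_lit 5) (nat_lit 0x15054) (nat_lit 0x100020001000000000002000100020000) (nat_lit 1) (nat_lit 1) (.st (nat_lit 3) (nat_lit 0) (nat_lit 5) (nat_lit 0x15044)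 (nat_lit 0x100020001000000000002000000010000) (nat_lit 1) (nat_lit 1) (.st (nat_lit 7) (nat_lit 0) (nat_lit 5) (nat_lit 0x15040) (nat_lit 0x100020001000000000001000000000000) (nat_lit 1) (nat_lit 1) (.st (nat_lit 8) (nat_lit 1) (nat_lit 5) (nat_lit 0x15041) (nat_lit 0x200020001000000000001000000000001) (nat_lit 1) (nat_lit 1) t1125_20))))) (.split (nat_lit 7) (nat_lit 3) (.st (nat_lit 1) (nat_lit 0) (nat_lit 5) (nat_lit 0x15054) (nat_lit 0x100020001000000000001000200020000) (nat_lit 1) (nat_lit 1) (.st (nat_lit 2) (nat_lit 0) (nat_lit 5) (nat_lit 0x15014) (nat_lit 0x100020001000000000000000200010000) (nat_lit 1) (nat_lit 1) (.st (nat_lit 7) (nat_lit 0) (nat_lit 5) (nat_lit 0x15010) (nat_lit 0x100020001000000000000000100000000) (nat_lit 1) (nat_lit 1) (.st (nat_lit 8) (nat_lit 1) (nat_lit 5) (nat_lit 0x15011) (nat_lit 0x200020001000000000000000100000001) (nat_lit 1) (nat_lit 1) t1125_26)))) (.non (nat_lit 0) (nat_lit 5) (nat_lit 0x15050) (nat_lit 0x100020001000000000001000100000000)))) (.split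 (nat_lit 7) (nat_lit 2) (.split (nat_lit 7) (nat_lit 3) (.st (nat_lit 7) (nat_lit 1) (nat_lit 5) (nat_lit 0x15041) (nat_lit 0x200020001000000000001000000000001) (nat_lit 1) (nat_lit 1) (.st (nat_lit 8) (nat_lit 1) (nat_lit 5) (nat_lit 0x14041) (nat_lit 0x200010000000000000001000000000001) (nat_lit 1) (nat_lit 1) (.ex (nat_lit 0) t1125_31 (.split (nat_lit 9) (nat_lit 3) (.split (nat_lit 9) (nat_lit 4) (.split (nat_lit 9) (nat_lit 5) (.split (nat_lit 9) (nat_lit 6) (.split (nat_lit 9) (nat_lit 7) (.split (nat_lit 9) (nat_lit 8) (.split (nat_lit 9) (nat_lit 1) (.split (nat_lit 9) (nat_lit 2) (.split (nat_lit 9) (nat_lit 0) (.split (nat_lit 8) (nat_lit 0) (.split (nat_lit 8) (nat_lit 3) (.sup (nat_lit 0x10006000b0010000d0000000000000000) (nat_lit 0x1000000000000000000000001000200030002)) (.non (nat_lit 0) (nat_lit 5) (nat_lit 0x2a044) (nat_lit 0x300020001000000000004000000020000))) (.non (nat_lit 1) (nat_lit 5) (nat_lit 0x6a001) (nat_lit 0x2000300020001000000000000000000000004))) (.non (nat_lit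 1) (nat_lit 5) (nat_lit 0x94041) (nat_lit 0x1000200010000000000000001000000000002))) (.sup (nat_lit 0x80000000000000000000000000009000a0007) (nat_lit 0x100040007000a00080000000000000000))) (.split (nat_lit 9) (nat_lit 2) (.sup (nat_lit 0x90000000000000000000000000000000a0007) (nat_lit 0x100040007000a00080000000000000000)) (.non (nat_lit 0) (nat_lit 5) (nat_lit 0x40014) (nat_lit 0x1000000000000000000000000000100010000)))) (.non (nat_lit 1) (nat_lit 5) (nat_lit 0x50001) (nat_lit 0x1000100000000000000000000000000000001))) (.non (nat_lit 1) (nat_lit 5) (nat_lit 0x54001) (nat_lit 0x1000100010000000000000000000000000001))) (.star (nat_lit 9) (nat_lit 0) (nat_lit 6))) (.star (nat_lit 9) (nat_lit 0) (nat_lit 5))) (.non (nat_lit 1) (nat_lit 6) (nat_lit 0x50501) (nat_lit 0x3000100000000000300040000000000000002))) (.non (nat_lit 1) (nat_lit 5) (nat_lit 0x50041) (nat_lit 0x1000100000000000000000001000000000001)))))) (.non (nat_lit 0) (nat_lit 5) (nat_lit 0x14040) (nat_lit 0x100010000000000000001000000000000)))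 (.non (nat_lit 0) (nat_lit 5) (nat_lit 0x14054) (nat_lit 0x100010000000000000001000100010000))))

noncomputable def t1125_33 : Tr := (.ex (nat_lit 6) (.split (nat_lit 8) (nat_lit 2) (.split (nat_lit 8) (nat_lit 7) (.split (nat_lit 8) (nat_lit 0) (.pd (.cons (nat_lit 0) (nat_lit 4) (nat_lit 0) (nat_lit 0x287601110) (nat_lit 0x98965a2c28b71aef423f00000f423f927bd5161100000) (.cons (nat_lit 0) (nat_lit 7) (nat_lit 0) (nat_lit 0x205441110) (nat_lit 0xf423f00000f423fb71ae1f156f423fb71ae65b9700000) (.cons (nat_lit 0) (nat_lit 8) (nat_lit 0) (nat_lit 0x65441110) (nat_lit 0xf423fb71aea2c2804737f423ff423f7a11d00000) (.cons (nat_lit 1) (nat_lit 4) (nat_lit 0) (nat_lit 0x87603800) (nat_lit 0x5b8d4a2c28b71aef423f00000f423ff423f000005160d) (.cons (nat_lit 1) (nat_lit 7) (nat_lit 0) (nat_lit 0x5443800) (nat_lit 0xb71ae00000f423fb71ae1f156f423ff423f00000a2c28) (.cons (nat_lit 1) (nat_lit 8) (nat_lit 0) (nat_lit 0x65443200) (nat_lit 0xf423fb71aea2c2804737f423ff423f00000f423f) (.cons (nat_lit 2) (nat_lit 8) (nat_lit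 0) (nat_lit 0x65441000) (nat_lit 0xf423fb71aea2c2804737f423f00000b71ae1f156) (.cons (nat_lit 3) (nat_lit 8) (nat_lit 0) (nat_lit 0x65440100) (nat_lit 0xf423fb71aea2c280473700000f423fb71ae1f156) .nil)))))))) (.leaf (.cons (nat_lit 0x15005) (nat_lit 0x300020001000000000000000000030004) (.cons (nat_lit 0x10045) (nat_lit 0x100000000000000000001000000020002) (.cons (nat_lit 0x10015) (nat_lit 0x100000000000000000000000100010001) .nil))) .nil)) (.non (nat_lit 1) (nat_lit 5) (nat_lit 0x28021) (nat_lit 0x200010000000000000000000100000002))) (.non (nat_lit 0) (nat_lit 5) (nat_lit 0x1a014) (nat_lit 0x300020001000000000000000200010000))) (.non (nat_lit 0) (nat_lit 5) (nat_lit 0x2a014) (nat_lit 0x300020001000000000000000400020000))) (.split (nat_lit 9) (nat_lit 0) (.split (nat_lit 9) (nat_lit 1) (.split (nat_lit 9) (nat_lit 2) (.split (nat_lit 9) (nat_lit 3) (.split (nat_lit 9) (nat_lit 7) (.split (nat_lit 9) (nat_lit 8) (.split (nat_lit 9) (nat_lit 4) (.split (nat_lit 9) (nat_lit 5) (.unj (nat_lit 0x55)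 (nat_lit 0x1000100020002) (nat_lit 0x45500) (nat_lit 0x1000000010002000200020000000000000000)) (.unj (nat_lit 0x41400) (nat_lit 0x1000000000001000100000000000000000000) (nat_lit 0x55) (nat_lit 0x1000100020002))) (.split (nat_lit 9) (nat_lit 5) (.unj (nat_lit 0x55) (nat_lit 0x1000100020002) (nat_lit 0x41500) (nat_lit 0x1000000000001000100010000000000000000)) (.non (nat_lit 0) (nat_lit 6) (nat_lit 0x40500) (nat_lit 0x1000000000000000100010000000000000000)))) (.non (nat_lit 0) (nat_lit 5) (nat_lit 0x55000) (nat_lit 0x1000100010001000000000000000000000000))) (.non (nat_lit 0) (nat_lit 5) (nat_lit 0x45000) (nat_lit 0x1000000010001000000000000000000000000))) (.non (nat_lit 0) (nat_lit 5) (nat_lit 0x55054) (nat_lit 0x1000100010001000000000001000100010000))) (.non (nat_lit 0) (nat_lit 5) (nat_lit 0x55010) (nat_lit 0x1000100010001000000000000000100000000))) (.star (nat_lit 9) (nat_lit 1) (nat_lit 6))) (.star (nat_lit 9) (nat_lit 0) (nat_lit 6))))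

noncomputable def t1125_34 : Tr := (.ex (nat_lit 3) (.ex (nat_lit 4) (.ex (nat_lit 5) t1125_33 (.split (nat_lit 9) (nat_lit 0) (.split (nat_lit 9) (nat_lit 1) (.split (nat_lit 9) (nat_lit 2) (.split (nat_lit 9) (nat_lit 3) (.split (nat_lit 9) (nat_lit 4) (.split (nat_lit 9) (nat_lit 7) (.split (nat_lit 9) (nat_lit 8) (.split (nat_lit 9) (nat_lit 6) (.unj (nat_lit 0x55) (nat_lit 0x1000100020002) (nat_lit 0x41500) (nat_lit 0x1000000000001000200020000000000000000)) (.unj (nat_lit 0x41400) (nat_lit 0x1000000000001000100000000000000000000) (nat_lit 0x55) (nat_lit 0x1000100020002))) (.non (nat_lit 0) (nat_lit 6) (nat_lit 0x54500) (nat_lit 0x3000200010000000400030000000000000000))) (.non (nat_lit 0) (nat_lit 6) (nat_lit 0x54500) (nat_lit 0x3000100020000000400030000000000000000))) (.non (nat_lit 0) (nat_lit 6) (nat_lit 0x40500) (nat_lit 0x1000000000000000100010000000000000000))) (.non (nat_lit 0) (nat_lit 6) (nat_lit 0x40544) (nat_lit 0x3000000000000000400030002000000010000))) (.non (nat_lit 0) (nat_lit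 6) (nat_lit 0x50510) (nat_lit 0x3000100000000000400030000000200000000))) (.star (nat_lit 9) (nat_lit 1) (nat_lit 5))) (.star (nat_lit 9) (nat_lit 0) (nat_lit 5)))) (.split (nat_lit 9) (nat_lit 0) (.split (nat_lit 9) (nat_lit 1) (.split (nat_lit 9) (nat_lit 2) (.split (nat_lit 9) (nat_lit 3) (.split (nat_lit 9) (nat_lit 5) (.split (nat_lit 9) (nat_lit 7) (.split (nat_lit 9) (nat_lit 8) (.split (nat_lit 9) (nat_lit 6) (.unj (nat_lit 0x55) (nat_lit 0x1000100020002) (nat_lit 0x41500) (nat_lit 0x1000000000001000200020000000000000000)) (.unj (nat_lit 0x55) (nat_lit 0x1000100020002) (nat_lit 0x41500) (nat_lit 0x1000000000001000100010000000000000000))) (.non (nat_lit 0) (nat_lit 5) (nat_lit 0x55114) (nat_lit 0x2000300020001000000010000000200010000))) (.non (nat_lit 0) (nat_lit 6) (nat_lit 0x54500) (nat_lit 0x3000100020000000300040000000000000000))) (.non (nat_lit 0) (nat_lit 6) (nat_lit 0x40500) (nat_lit 0x1000000000000000100010000000000000000))) (.non (nat_lit 0) (nat_lit 6) (nat_lit 0x40544) (nat_lit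 0x3000000000000000300040002000000010000))) (.non (nat_lit 0) (nat_lit 5) (nat_lit 0x54154) (nat_lit 0x2000200010000000000010001000300020000))) (.non (nat_lit 0) (nat_lit 6) (nat_lit 0x40544) (nat_lit 0x3000000000000000300040001000000020000))) (.non (nat_lit 1) (nat_lit 6) (nat_lit 0x50501) (nat_lit 0x3000100000000000300040000000000000002)))) (.split (nat_lit 9) (nat_lit 1) (.split (nat_lit 9) (nat_lit 2) (.split (nat_lit 9) (nat_lit 4) (.split (nat_lit 9) (nat_lit 5) (.split (nat_lit 9) (nat_lit 6) (.split (nat_lit 9) (nat_lit 7) (.split (nat_lit 9) (nat_lit 8) (.split (nat_lit 9) (nat_lit 0) (.split (nat_lit 9) (nat_lit 3) (.split (nat_lit 8) (nat_lit 0) (.split (nat_lit 8) (nat_lit 2) (.sup (nat_lit 0x3000c00160020001a0000000000000000) (nat_lit 0x2000000000000000000000005000200070005)) (.non (nat_lit 0) (nat_lit 5) (nat_lit 0x2a014) (nat_lit 0x300020001000000000000000400020000))) (.non (nat_lit 1) (nat_lit 5) (nat_lit 0x28021) (nat_lit 0x200010000000000000000000100000002))) (.split (nat_lit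 9) (nat_lit 3) (.split (nat_lit 8) (nat_lit 0) (.sup (nat_lit 0x700000000000000000000000a0000000a0006) (nat_lit 0x100040007000a00080000000000000000)) (.non (nat_lit 1) (nat_lit 5) (nat_lit 0x28021) (nat_lit 0x200010000000000000000000100000002))) (.non (nat_lit 0) (nat_lit 5) (nat_lit 0x50054) (nat_lit 0x3000100000000000000000004000200030000)))) (.sup (nat_lit 0x80000000000000000000000090000000a0007) (nat_lit 0x100040007000a00080000000000000000))) (.non (nat_lit 0) (nat_lit 5) (nat_lit 0x50054) (nat_lit 0x1000100000000000000000001000100010000))) (.non (nat_lit 0) (nat_lit 5) (nat_lit 0x54054) (nat_lit 0x1000100010000000000000001000100010000))) (.non (nat_lit 0) (nat_lit 5) (nat_lit 0x55054) (nat_lit 0x1000100010001000000000001000100010000))) (.non (nat_lit 0) (nat_lit 6) (nat_lit 0x40544) (nat_lit 0x3000000000000000400030002000000010000))) (.non (nat_lit 0) (nat_lit 6) (nat_lit 0x40544) (nat_lit 0x3000000000000000300040002000000010000))) (.non (nat_lit 0) (nat_lit 5) (nat_lit 0x40054) (nat_lit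 0x1000000000000000000000001000100010000))) (.non (nat_lit 0) (nat_lit 5) (nat_lit 0x40044) (nat_lit 0x1000000000000000000000001000000010000))))

noncomputable def t1125_35 : Tr := (.ex (nat_lit 6) (.split (nat_lit 8) (nat_lit 2) (.split (nat_lit 9) (nat_lit 2) (.split (nat_lit 8) (nat_lit 7) (.split (nat_lit 8) (nat_lit 0) (.pd (.cons (nat_lit 0) (nat_lit 4) (nat_lit 0) (nat_lit 0x2287601110) (nat_lit 0xf423f98965a2c28b71aef423f00000f423f5572c08b7800000) (.cons (nat_lit 0) (nat_lit 7) (nat_lit 0) (nat_lit 0x2205441110) (nat_lit 0xf423ff423f00000f423fb71ae1f156f423f7a11d3d08a00000) (.cons (nat_lit 0) (nat_lit 8) (nat_lit 0) (nat_lit 0x2065441110) (nat_lit 0xf423f00000f423fb71aea2c2804737f423fb71ae65b9700000) (.cons (nat_lit 1) (nat_lit 4) (nat_lit 0) (nat_lit 0x2087603800) (nat_lit 0xf423f4734ea2c28b71aef423f00000f423fb71ae0000022dfa) (.cons (nat_lit 1) (nat_lit 7) (nat_lit 0) (nat_lit 0x2005443800) (nat_lit 0xf423fa2c2800000f423fb71ae1f156f423fb71ae0000098965) (.cons (nat_lit 1) (nat_lit 8)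 (nat_lit 0) (nat_lit 0x2065443200) (nat_lit 0xf423f00000f423fb71aea2c2804737f423fb71ae00000f423f) (.cons (nat_lit 2) (nat_lit 8) (nat_lit 0) (nat_lit 0x9065441000) (nat_lit 0xf423f00000f423fb71aea2c2804737f423f00000b71ae1f156) (.cons (nat_lit 3) (nat_lit 8) (nat_lit 0) (nat_lit 0x2065440100) (nat_lit 0xf423f00000f423fb71aea2c280473700000b71aea2c2804737) .nil)))))))) (.leaf (.cons (nat_lit 0x15005) (nat_lit 0x300020001000000000000000000030004) (.cons (nat_lit 0x10045) (nat_lit 0x100000000000000000001000000020002) (.cons (nat_lit 0x10015) (nat_lit 0x100000000000000000000000100010001) .nil))) .nil)) (.non (nat_lit 1) (nat_lit 5) (nat_lit 0x28021) (nat_lit 0x200010000000000000000000100000002))) (.non (nat_lit 0) (nat_lit 5) (nat_lit 0x5a010) (nat_lit 0x1000300020001000000000000000200000000))) (.non (nat_lit 0) (nat_lit 5) (nat_lit 0x90014) (nat_lit 0x1000100000000000000000000000200010000))) (.non (nat_lit 0) (nat_lit 5) (nat_lit 0x6a010) (nat_lit 0x2000300020001000000000000000400000000))) (.split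 (nat_lit 0xa) (nat_lit 0) (.split (nat_lit 0xa) (nat_lit 1) (.split (nat_lit 0xa) (nat_lit 2) (.split (nat_lit 0xa) (nat_lit 3) (.split (nat_lit 0xa) (nat_lit 4) (.split (nat_lit 0xa) (nat_lit 7) (.split (nat_lit 0xa) (nat_lit 8) (.split (nat_lit 0xa) (nat_lit 9) (.split (nat_lit 0xa) (nat_lit 5) (.unj (nat_lit 0x55) (nat_lit 0x1000100020002) (nat_lit 0x105500) (nat_lit 0x10000000000010002000200020000000000000000)) (.unj (nat_lit 0x101400) (nat_lit 0x10000000000000001000100000000000000000000) (nat_lit 0x55) (nat_lit 0x1000100020002))) (.non (nat_lit 0) (nat_lit 5) (nat_lit 0x155010) (nat_lit 0x10001000100010001000000000000000100000000))) (.non (nat_lit 0) (nat_lit 5) (nat_lit 0x115000) (nat_lit 0x10000000100010001000000000000000000000000))) (.non (nat_lit 0) (nat_lit 5) (nat_lit 0x105000) (nat_lit 0x10000000000010001000000000000000000000000))) (.non (nat_lit 0) (nat_lit 5) (nat_lit 0x155154) (nat_lit 0x20003000500040003000000010002000600040000))) (.non (nat_lit 0) (nat_lit 5) (nat_lit 0x115054)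 (nat_lit 0x10000000100010001000000000001000100010000))) (.non (nat_lit 0) (nat_lit 5) (nat_lit 0x115010) (nat_lit 0x10000000100010001000000000000000100000000))) (.star (nat_lit 0xa) (nat_lit 1) (nat_lit 6))) (.star (nat_lit 0xa) (nat_lit 0) (nat_lit 6))))

noncomputable def t1125_36 : Tr := (.ex (nat_lit 4) (.ex (nat_lit 5) t1125_35 (.split (nat_lit 0xa) (nat_lit 0) (.split (nat_lit 0xa) (nat_lit 1) (.split (nat_lit 0xa) (nat_lit 2) (.split (nat_lit 0xa) (nat_lit 3) (.split (nat_lit 0xa) (nat_lit 4) (.split (nat_lit 0xa) (nat_lit 7) (.split (nat_lit 0xa) (nat_lit 8) (.split (nat_lit 0xa) (nat_lit 9) (.split (nat_lit 0xa) (nat_lit 6) (.unj (nat_lit 0x55) (nat_lit 0x1000100020002) (nat_lit 0x101500) (nat_lit 0x10000000000000001000200020000000000000000)) (.unj (nat_lit 0x101400) (nat_lit 0x10000000000000001000100000000000000000000) (nat_lit 0x55) (nat_lit 0x1000100020002))) (.non (nat_lit 0) (nat_lit 5) (nat_lit 0x154054) (nat_lit 0x10002000200010000000000000001000300020000))) (.non (nat_lit 0)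 (nat_lit 5) (nat_lit 0x154014) (nat_lit 0x10001000200010000000000000000000200010000))) (.non (nat_lit 0) (nat_lit 5) (nat_lit 0x155014) (nat_lit 0x10001000200020001000000000000000200010000))) (.non (nat_lit 0) (nat_lit 6) (nat_lit 0x100500) (nat_lit 0x10000000000000000000100010000000000000000))) (.non (nat_lit 0) (nat_lit 5) (nat_lit 0x155054) (nat_lit 0x10002000300020001000000000002000400030000))) (.non (nat_lit 0) (nat_lit 5) (nat_lit 0x150014) (nat_lit 0x10001000100000000000000000000000200010000))) (.star (nat_lit 0xa) (nat_lit 1) (nat_lit 5))) (.star (nat_lit 0xa) (nat_lit 0) (nat_lit 5)))) (.split (nat_lit 0xa) (nat_lit 0) (.split (nat_lit 0xa) (nat_lit 1) (.split (nat_lit 0xa) (nat_lit 2) (.split (nat_lit 0xa) (nat_lit 3) (.split (nat_lit 0xa) (nat_lit 5) (.split (nat_lit 0xa) (nat_lit 6) (.split (nat_lit 0xa) (nat_lit 7) (.split (nat_lit 0xa) (nat_lit 8) (.split (nat_lit 0xa) (nat_lit 9) (.unj (nat_lit 0x55) (nat_lit 0x1000100020002) (nat_lit 0x101500) (nat_lit 0x10000000000000001000200020000000000000000))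 (.non (nat_lit 0) (nat_lit 5) (nat_lit 0x155114) (nat_lit 0x20003000300020001000000010000000400020000))) (.non (nat_lit 0) (nat_lit 5) (nat_lit 0x155110) (nat_lit 0x20001000300020001000000010000000200000000))) (.non (nat_lit 0) (nat_lit 5) (nat_lit 0x155014) (nat_lit 0x10001000200020001000000000000000200010000))) (.non (nat_lit 0) (nat_lit 5) (nat_lit 0x155154) (nat_lit 0x20003000500040003000000010002000600040000))) (.non (nat_lit 0) (nat_lit 6) (nat_lit 0x100500) (nat_lit 0x10000000000000000000100010000000000000000))) (.non (nat_lit 0) (nat_lit 5) (nat_lit 0x155054) (nat_lit 0x10002000300020001000000000002000400030000))) (.non (nat_lit 0) (nat_lit 5) (nat_lit 0x150014) (nat_lit 0x10001000100000000000000000000000200010000))) (.non (nat_lit 0) (nat_lit 5) (nat_lit 0x155114) (nat_lit 0x20002000300020001000000010000000400030000))) (.non (nat_lit 1) (nat_lit 5) (nat_lit 0x155011) (nat_lit 0x10001000300020001000000000000000200000002))))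

noncomputable def t1125_37 : Tr := (.ex (nat_lit 1) (.ex (nat_lit 2) t1125_34 (.split (nat_lit 9) (nat_lit 0) (.split (nat_lit 9) (nat_lit 1) (.split (nat_lit 9) (nat_lit 3) (.split (nat_lit 9) (nat_lit 4) (.split (nat_lit 9) (nat_lit 5) (.split (nat_lit 9) (nat_lit 6) (.split (nat_lit 9) (nat_lit 7) (.split (nat_lit 9) (nat_lit 8) (.st (nat_lit 2) (nat_lit 0) (nat_lit 5) (nat_lit 0x50014) (nat_lit 0x1000100000000000000000000000200010000) (nat_lit 1) (nat_lit 1) (.st (nat_lit 3) (nat_lit 0) (nat_lit 5) (nat_lit 0x55054) (nat_lit 0x2000300020001000000000002000400030000) (nat_lit 1) (nat_lit 1) (.st (nat_lit 9) (nat_lit 0) (nat_lit 5) (nat_lit 0x54054) (nat_lit 0x2000200010000000000000001000300020000) (nat_lit 1) (nat_lit 1) t1125_36))) (.non (nat_lit 0) (nat_lit 5) (nat_lit 0x50010) (nat_lit 0x1000100000000000000000000000100000000))) (.non (nat_lit 0) (nat_lit 5) (nat_lit 0x54010) (nat_lit 0x1000100010000000000000000000100000000))) (.non (nat_lit 0) (nat_lit 5) (nat_lit 0x55010) (nat_lit 0x1000100010001000000000000000100000000)))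 (.non (nat_lit 0) (nat_lit 6) (nat_lit 0x50510) (nat_lit 0x3000100000000000400030000000200000000))) (.non (nat_lit 0) (nat_lit 5) (nat_lit 0x54154) (nat_lit 0x2000200010000000000010001000300020000))) (.non (nat_lit 0) (nat_lit 5) (nat_lit 0x40054) (nat_lit 0x1000000000000000000000001000100010000))) (.non (nat_lit 0) (nat_lit 5) (nat_lit 0x40014) (nat_lit 0x1000000000000000000000000000100010000))) (.non (nat_lit 1) (nat_lit 5) (nat_lit 0x50011) (nat_lit 0x1000100000000000000000000000100000001)))) (.split (nat_lit 9) (nat_lit 2) (.split (nat_lit 9) (nat_lit 3) (.split (nat_lit 9) (nat_lit 4) (.split (nat_lit 9) (nat_lit 5) (.split (nat_lit 9) (nat_lit 6) (.split (nat_lit 9) (nat_lit 7) (.split (nat_lit 9) (nat_lit 8) (.split (nat_lit 9) (nat_lit 0) (.split (nat_lit 9) (nat_lit 1) (.split (nat_lit 8) (nat_lit 0) (.sup (nat_lit 0x50000000000000000000000050000000a0006) (nat_lit 0x100040007000a00080000000000000000)) (.non (nat_lit 1) (nat_lit 5) (nat_lit 0x28021) (nat_lit 0x200010000000000000000000100000002)))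 (.non (nat_lit 0) (nat_lit 5) (nat_lit 0x80054) (nat_lit 0x1000000000000000000000001000100020000))) (.sup (nat_lit 0x90000000000000000000000000000000a0007) (nat_lit 0x100040007000a00080000000000000000))) (.non (nat_lit 0) (nat_lit 5) (nat_lit 0x50014) (nat_lit 0x1000100000000000000000000000100010000))) (.non (nat_lit 0) (nat_lit 5) (nat_lit 0x54014) (nat_lit 0x1000100010000000000000000000100010000))) (.star (nat_lit 9) (nat_lit 1) (nat_lit 6))) (.star (nat_lit 9) (nat_lit 1) (nat_lit 5))) (.non (nat_lit 0) (nat_lit 6) (nat_lit 0x40544) (nat_lit 0x3000000000000000300040001000000020000))) (.non (nat_lit 0) (nat_lit 5) (nat_lit 0x40044) (nat_lit 0x1000000000000000000000001000000010000))) (.non (nat_lit 0) (nat_lit 5) (nat_lit 0x40014) (nat_lit 0x1000000000000000000000000000100010000))))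

noncomputable def t1125_38 : Tr := (.split (nat_lit 8) (nat_lit 0) (.pd (.cons (nat_lit 0) (nat_lit 4) (nat_lit 0) (nat_lit 0x187601110) (nat_lit 0x98965a2c28b71aef423f00000f423ff423f1869b00000) (.cons (nat_lit 0) (nat_lit 7) (nat_lit 0) (nat_lit 0x105441110) (nat_lit 0xf423f00000f423fb71ae1f156f423ff423f3d08c00000) (.cons (nat_lit 0) (nat_lit 8) (nat_lit 0) (nat_lit 0x65441110) (nat_lit 0xf423fb71aea2c2804737f423ff423f7a11d00000) (.cons (nat_lit 1) (nat_lit 4) (nat_lit 0) (nat_lit 0x87603200) (nat_lit 0x98965a2c28b71aef423f00000f423ff423f00000927bd) (.cons (nat_lit 1) (nat_lit 7) (nat_lit 0) (nat_lit 0x5443200) (nat_lit 0xf423f00000f423fb71ae1f156f423ff423f00000b71ae) (.cons (nat_lit 1) (nat_lit 8) (nat_lit 0) (nat_lit 0x65443200) (nat_lit 0xf423fb71aea2c2804737f423ff423f00000f423f) (.cons (nat_lit 2) (nat_lit 8) (nat_lit 0) (nat_lit 0x65441000) (nat_lit 0xf423fb71aea2c2804737f423f00000b71ae1f156) (.cons (nat_lit 3) (nat_lit 8) (nat_lit 0) (nat_lit 0x65440100) (nat_lit 0xf423fb71aea2c280473700000f423fb71ae1f156)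 .nil)))))))) (.leaf (.cons (nat_lit 0x10005) (nat_lit 0x100000000000000000000000000010001) .nil) .nil)) (.split (nat_lit 8) (nat_lit 0) (.pd (.cons (nat_lit 0) (nat_lit 4) (nat_lit 0) (nat_lit 0x187601110) (nat_lit 0x98965a2c28b71aef423f00000f423ff423f1869b00000) (.cons (nat_lit 0) (nat_lit 7) (nat_lit 0) (nat_lit 0x105441110) (nat_lit 0xf423f00000f423fb71ae1f156f423ff423f3d08c00000) (.cons (nat_lit 0) (nat_lit 8) (nat_lit 0) (nat_lit 0x65441110) (nat_lit 0xf423fb71aea2c2804737f423ff423f7a11d00000) (.cons (nat_lit 1) (nat_lit 4) (nat_lit 0) (nat_lit 0x87603200) (nat_lit 0x98965a2c28b71aef423f00000f423ff423f0000030d3b) (.cons (nat_lit 1) (nat_lit 7) (nat_lit 0) (nat_lit 0x5443200) (nat_lit 0xf423f00000f423fb71ae1f156f423ff423f000007a11e) (.cons (nat_lit 1) (nat_lit 8) (nat_lit 0) (nat_lit 0x65443200) (nat_lit 0xf423fb71aea2c2804737f423ff423f00000f423f) (.cons (nat_lit 2) (nat_lit 8) (nat_lit 0) (nat_lit 0x65441000) (nat_lit 0xf423fb71aea2c2804737f423f00000b71ae1f156) (.cons (nat_lit 3) (nat_lit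 8) (nat_lit 0) (nat_lit 0x65440100) (nat_lit 0xf423fb71aea2c280473700000f423fb71ae1f156) .nil)))))))) (.leaf (.cons (nat_lit 0x10005) (nat_lit 0x100000000000000000000000000010001) .nil) .nil)) (.pd (.cons (nat_lit 0) (nat_lit 4) (nat_lit 0) (nat_lit 0x187601110) (nat_lit 0x98965a2c28b71aef423f00000f423ff423f1869b00000) (.cons (nat_lit 0) (nat_lit 7) (nat_lit 0) (nat_lit 0x105441110) (nat_lit 0xf423f00000f423fb71ae1f156f423ff423f3d08c00000) (.cons (nat_lit 0) (nat_lit 8) (nat_lit 0) (nat_lit 0x65441110) (nat_lit 0xf423fb71aea2c2804737f423ff423f7a11d00000) (.cons (nat_lit 1) (nat_lit 7) (nat_lit 0x100000001) (nat_lit 0x5443208) (nat_lit 0x100000f423fb71ae1f156f423ff423f0000000001) (.cons (nat_lit 1) (nat_lit 8) (nat_lit 0) (nat_lit 0x65443200) (nat_lit 0xf423fb71aea2c2804737f423ff423f00000f423f) (.cons (nat_lit 2) (nat_lit 8) (nat_lit 0) (nat_lit 0x65441000) (nat_lit 0xf423fb71aea2c2804737f423f00000b71ae1f156) (.cons (nat_lit 3) (nat_lit 8) (nat_lit 0) (nat_lit 0x65440100) (nat_lit 0xf423fb71aea2c280473700000f423fb71ae1f156)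 .nil))))))) (.leaf (.cons (nat_lit 0x15401) (nat_lit 0x400030002000100000000000000000003) (.cons (nat_lit 0x10005) (nat_lit 0x100000000000000000000000000010001) .nil)) .nil))))

noncomputable def t1125_39 : Tr := (.ex (nat_lit 5) (.ex (nat_lit 6) (.split (nat_lit 8) (nat_lit 1) (.split (nat_lit 8) (nat_lit 7) t1125_38 (.non (nat_lit 0) (nat_lit 5) (nat_lit 0x1a044) (nat_lit 0x300020001000000000001000000020000))) (.non (nat_lit 0) (nat_lit 5) (nat_lit 0x2a044) (nat_lit 0x300020001000000000002000000040000))) (.split (nat_lit 9) (nat_lit 0) (.split (nat_lit 9) (nat_lit 1) (.split (nat_lit 9) (nat_lit 2) (.split (nat_lit 9) (nat_lit 3) (.split (nat_lit 9) (nat_lit 7) (.split (nat_lit 9) (nat_lit 8) (.split (nat_lit 9) (nat_lit 4) (.split (nat_lit 9) (nat_lit 5) (.unj (nat_lit 0x55) (nat_lit 0x1000100020002) (nat_lit 0x45500) (nat_lit 0x1000000010002000200020000000000000000)) (.unj (nat_lit 0x10005) (nat_lit 0x100000000000000000000000000010001) (nat_lit 0x41400) (nat_lit 0x1000000000001000100000000000000000000)))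 (.split (nat_lit 9) (nat_lit 5) (.unj (nat_lit 0x10005) (nat_lit 0x100000000000000000000000000010001) (nat_lit 0x41500) (nat_lit 0x1000000000001000100010000000000000000)) (.non (nat_lit 0) (nat_lit 6) (nat_lit 0x40500) (nat_lit 0x1000000000000000100010000000000000000)))) (.non (nat_lit 0) (nat_lit 5) (nat_lit 0x55000) (nat_lit 0x1000100010001000000000000000000000000))) (.non (nat_lit 0) (nat_lit 5) (nat_lit 0x45000) (nat_lit 0x1000000010001000000000000000000000000))) (.non (nat_lit 0) (nat_lit 5) (nat_lit 0x55044) (nat_lit 0x1000100010001000000000001000000010000))) (.non (nat_lit 0) (nat_lit 5) (nat_lit 0x55014) (nat_lit 0x1000100010001000000000000000100010000))) (.star (nat_lit 9) (nat_lit 1) (nat_lit 6))) (.star (nat_lit 9) (nat_lit 0) (nat_lit 6)))) (.split (nat_lit 9) (nat_lit 0) (.split (nat_lit 9) (nat_lit 1) (.split (nat_lit 9) (nat_lit 2) (.split (nat_lit 9) (nat_lit 3) (.split (nat_lit 9) (nat_lit 4) (.split (nat_lit 9) (nat_lit 7) (.split (nat_lit 9) (nat_lit 8) (.split (nat_lit 9)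 (nat_lit 6) (.unj (nat_lit 0x10005) (nat_lit 0x100000000000000000000000000010001) (nat_lit 0x41500) (nat_lit 0x1000000000001000200020000000000000000)) (.unj (nat_lit 0x10005) (nat_lit 0x100000000000000000000000000010001) (nat_lit 0x41400) (nat_lit 0x1000000000001000100000000000000000000))) (.non (nat_lit 0) (nat_lit 5) (nat_lit 0x54054) (nat_lit 0x1000200010000000000000001000100020000))) (.non (nat_lit 0) (nat_lit 5) (nat_lit 0x55054) (nat_lit 0x1000200020001000000000001000100020000))) (.non (nat_lit 0) (nat_lit 6) (nat_lit 0x40500) (nat_lit 0x1000000000000000100010000000000000000))) (.non (nat_lit 0) (nat_lit 6) (nat_lit 0x40544) (nat_lit 0x3000000000000000400030002000000010000))) (.non (nat_lit 0) (nat_lit 6) (nat_lit 0x40514) (nat_lit 0x3000000000000000400030000000200010000))) (.star (nat_lit 9) (nat_lit 1) (nat_lit 5))) (.star (nat_lit 9) (nat_lit 0) (nat_lit 5))))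

noncomputable def t1125_40 : Tr := (.split (nat_lit 8) (nat_lit 0) (.pd (.cons (nat_lit 0) (nat_lit 4) (nat_lit 0) (nat_lit 0x3187601110) (nat_lit 0xf423f98965a2c28b71aef423f00000b71aef423f0411500000) (.cons (nat_lit 0) (nat_lit 7) (nat_lit 0) (nat_lit 0x3105441110) (nat_lit 0xf423ff423f00000f423fb71ae1f156b71aef423f28b0600000) (.cons (nat_lit 0) (nat_lit 8) (nat_lit 0) (nat_lit 0x3065441110) (nat_lit 0xf423f00000f423fb71aea2c2804737b71aef423f65b9700000) (.cons (nat_lit 1) (nat_lit 4) (nat_lit 0) (nat_lit 0x3087603200) (nat_lit 0xf423f98965a2c28b71aef423f00000b71aef423f00000927bd) (.cons (nat_lit 1) (nat_lit 7) (nat_lit 0) (nat_lit 0x3005443200) (nat_lit 0xf423ff423f00000f423fb71ae1f156b71aef423f00000b71ae) (.cons (nat_lit 1) (nat_lit 8) (nat_lit 0) (nat_lit 0x3065443200) (nat_lit 0xf423f00000f423fb71aea2c2804737b71aef423f00000f423f) (.cons (nat_lit 2) (nat_lit 8) (nat_lit 0) (nat_lit 0x3065441000) (nat_lit 0xf423f00000f423fb71aea2c2804737b71ae00000a2c2804737) (.cons (nat_lit 3) (nat_lit 8)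 (nat_lit 0) (nat_lit 0x9065440100) (nat_lit 0xf423f00000f423fb71aea2c280473700000f423fb71ae1f156) .nil)))))))) (.leaf (.cons (nat_lit 0x10005) (nat_lit 0x100000000000000000000000000010001) .nil) .nil)) (.split (nat_lit 8) (nat_lit 0) (.pd (.cons (nat_lit 0) (nat_lit 4) (nat_lit 0) (nat_lit 0x3187601110) (nat_lit 0xf423f98965a2c28b71aef423f00000b71aef423f0411500000) (.cons (nat_lit 0) (nat_lit 7) (nat_lit 0) (nat_lit 0x3105441110) (nat_lit 0xf423ff423f00000f423fb71ae1f156b71aef423f28b0600000) (.cons (nat_lit 0) (nat_lit 8) (nat_lit 0) (nat_lit 0x3065441110) (nat_lit 0xf423f00000f423fb71aea2c2804737b71aef423f65b9700000) (.cons (nat_lit 1) (nat_lit 4) (nat_lit 0) (nat_lit 0x3087603200) (nat_lit 0xf423f98965a2c28b71aef423f00000b71aef423f0000030d3b) (.cons (nat_lit 1) (nat_lit 7) (nat_lit 0) (nat_lit 0x3005443200) (nat_lit 0xf423ff423f00000f423fb71ae1f156b71aef423f000007a11e) (.cons (nat_lit 1) (nat_lit 8) (nat_lit 0) (nat_lit 0x3065443200) (nat_lit 0xf423f00000f423fb71aea2c2804737b71aef423f00000f423f)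 (.cons (nat_lit 2) (nat_lit 8) (nat_lit 0) (nat_lit 0x3065441000) (nat_lit 0xf423f00000f423fb71aea2c2804737b71ae00000a2c2804737) (.cons (nat_lit 3) (nat_lit 8) (nat_lit 0) (nat_lit 0x9065440100) (nat_lit 0xf423f00000f423fb71aea2c280473700000f423fb71ae1f156) .nil)))))))) (.leaf (.cons (nat_lit 0x10005) (nat_lit 0x100000000000000000000000000010001) .nil) .nil)) (.pd (.cons (nat_lit 0) (nat_lit 4) (nat_lit 0) (nat_lit 0x3187601110) (nat_lit 0xf423f98965a2c28b71aef423f00000b71aef423f0411500000) (.cons (nat_lit 0) (nat_lit 7) (nat_lit 0) (nat_lit 0x3105441110) (nat_lit 0xf423ff423f00000f423fb71ae1f156b71aef423f28b0600000) (.cons (nat_lit 0) (nat_lit 8) (nat_lit 0) (nat_lit 0x3065441110) (nat_lit 0xf423f00000f423fb71aea2c2804737b71aef423f65b9700000) (.cons (nat_lit 1) (nat_lit 7) (nat_lit 0x100000001) (nat_lit 0x3005443208) (nat_lit 0xf423f0000100000f423fb71ae1f156b71aef423f0000000001) (.cons (nat_lit 1) (nat_lit 8) (nat_lit 0) (nat_lit 0x3065443200) (nat_lit 0xf423f00000f423fb71aea2c2804737b71aef423f00000f423f)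 (.cons (nat_lit 2) (nat_lit 8) (nat_lit 0) (nat_lit 0x3065441000) (nat_lit 0xf423f00000f423fb71aea2c2804737b71ae00000a2c2804737) (.cons (nat_lit 3) (nat_lit 8) (nat_lit 0) (nat_lit 0x9065440100) (nat_lit 0xf423f00000f423fb71aea2c280473700000f423fb71ae1f156) .nil))))))) (.leaf (.cons (nat_lit 0x15401) (nat_lit 0x400030002000100000000000000000003) (.cons (nat_lit 0x10005) (nat_lit 0x100000000000000000000000000010001) .nil)) .nil))))

noncomputable def t1125_41 : Tr := (.ex (nat_lit 5) (.ex (nat_lit 6) (.split (nat_lit 8) (nat_lit 1) (.split (nat_lit 9) (nat_lit 3) (.split (nat_lit 8) (nat_lit 7) t1125_40 (.non (nat_lit 0) (nat_lit 5) (nat_lit 0x1a044) (nat_lit 0x300020001000000000001000000020000))) (.non (nat_lit 0) (nat_lit 5) (nat_lit 0x90054) (nat_lit 0x1000100000000000000000002000100020000))) (.non (nat_lit 0) (nat_lit 5) (nat_lit 0x68044) (nat_lit 0x1000200010000000000000002000000030000))) (.split (nat_lit 0xa) (nat_lit 0) (.split (nat_lit 0xa) (nat_lit 1) (.split (nat_lit 0xa) (nat_lit 2)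 (.split (nat_lit 0xa) (nat_lit 3) (.split (nat_lit 0xa) (nat_lit 4) (.split (nat_lit 0xa) (nat_lit 7) (.split (nat_lit 0xa) (nat_lit 8) (.split (nat_lit 0xa) (nat_lit 9) (.split (nat_lit 0xa) (nat_lit 5) (.unj (nat_lit 0x55) (nat_lit 0x1000100020002) (nat_lit 0x105500) (nat_lit 0x10000000000010002000200020000000000000000)) (.unj (nat_lit 0x10005) (nat_lit 0x100000000000000000000000000010001) (nat_lit 0x101400) (nat_lit 0x10000000000000001000100000000000000000000))) (.non (nat_lit 0) (nat_lit 5) (nat_lit 0x155044) (nat_lit 0x10001000100010001000000000001000000010000))) (.non (nat_lit 0) (nat_lit 5) (nat_lit 0x115000) (nat_lit 0x10000000100010001000000000000000000000000))) (.non (nat_lit 0) (nat_lit 5) (nat_lit 0x105000) (nat_lit 0x10000000000010001000000000000000000000000))) (.non (nat_lit 0) (nat_lit 5) (nat_lit 0x155154) (nat_lit 0x20002000500040003000000010004000300060000))) (.non (nat_lit 0) (nat_lit 5) (nat_lit 0x115044) (nat_lit 0x10000000100010001000000000001000000010000))) (.non (nat_lit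 0) (nat_lit 5) (nat_lit 0x115014) (nat_lit 0x10000000100010001000000000000000100010000))) (.star (nat_lit 0xa) (nat_lit 1) (nat_lit 6))) (.star (nat_lit 0xa) (nat_lit 0) (nat_lit 6)))) (.split (nat_lit 0xa) (nat_lit 0) (.split (nat_lit 0xa) (nat_lit 1) (.split (nat_lit 0xa) (nat_lit 2) (.split (nat_lit 0xa) (nat_lit 3) (.split (nat_lit 0xa) (nat_lit 4) (.split (nat_lit 0xa) (nat_lit 7) (.split (nat_lit 0xa) (nat_lit 8) (.split (nat_lit 0xa) (nat_lit 9) (.split (nat_lit 0xa) (nat_lit 6) (.unj (nat_lit 0x10005) (nat_lit 0x100000000000000000000000000010001) (nat_lit 0x101500) (nat_lit 0x10000000000000001000200020000000000000000)) (.unj (nat_lit 0x10005) (nat_lit 0x100000000000000000000000000010001) (nat_lit 0x101400) (nat_lit 0x10000000000000001000100000000000000000000))) (.non (nat_lit 0) (nat_lit 5) (nat_lit 0x155054) (nat_lit 0x10002000300020001000000000003000200040000))) (.non (nat_lit 0) (nat_lit 5) (nat_lit 0x114054) (nat_lit 0x10000000200010000000000000001000100020000))) (.non (nat_lit 0)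 (nat_lit 5) (nat_lit 0x115054) (nat_lit 0x10000000200020001000000000001000100020000))) (.non (nat_lit 0) (nat_lit 6) (nat_lit 0x100500) (nat_lit 0x10000000000000000000100010000000000000000))) (.non (nat_lit 0) (nat_lit 5) (nat_lit 0x150054) (nat_lit 0x10001000100000000000000000002000100020000))) (.non (nat_lit 0) (nat_lit 5) (nat_lit 0x154054) (nat_lit 0x10001000200010000000000000002000200030000))) (.star (nat_lit 0xa) (nat_lit 1) (nat_lit 5))) (.star (nat_lit 0xa) (nat_lit 0) (nat_lit 5))))

noncomputable def t1125_42 : Tr := (.split (nat_lit 9) (nat_lit 7) (.split (nat_lit 9) (nat_lit 8) (.split (nat_lit 9) (nat_lit 0) (.st (nat_lit 3) (nat_lit 0) (nat_lit 5) (nat_lit 0x50054) (nat_lit 0x1000100000000000000000002000100020000) (nat_lit 1) (nat_lit 1) (.st (nat_lit 9) (nat_lit 0) (nat_lit 5) (nat_lit 0x55054) (nat_lit 0x2000300020001000000000003000200040000) (nat_lit 1) (nat_lit 1) (.ex (nat_lit 4) t1125_41 (.split (nat_lit 0xa) (nat_lit 0) (.split (nat_lit 0xa) (nat_lit 1) (.split (nat_lit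 0xa) (nat_lit 2) (.split (nat_lit 0xa) (nat_lit 3) (.split (nat_lit 0xa) (nat_lit 5) (.split (nat_lit 0xa) (nat_lit 6) (.split (nat_lit 0xa) (nat_lit 7) (.split (nat_lit 0xa) (nat_lit 8) (.split (nat_lit 0xa) (nat_lit 9) (.unj (nat_lit 0x10005) (nat_lit 0x100000000000000000000000000010001) (nat_lit 0x101500) (nat_lit 0x10000000000000001000200020000000000000000)) (.non (nat_lit 0) (nat_lit 5) (nat_lit 0x155054) (nat_lit 0x10002000300020001000000000003000200040000))) (.non (nat_lit 0) (nat_lit 5) (nat_lit 0x115144) (nat_lit 0x20000000300020001000000010001000000020000))) (.non (nat_lit 0) (nat_lit 5) (nat_lit 0x115054) (nat_lit 0x10000000200020001000000000001000100020000))) (.non (nat_lit 0) (nat_lit 5) (nat_lit 0x155154) (nat_lit 0x20002000500040003000000010004000300060000))) (.non (nat_lit 0) (nat_lit 6) (nat_lit 0x100500) (nat_lit 0x10000000000000000000100010000000000000000))) (.non (nat_lit 0) (nat_lit 5) (nat_lit 0x150054) (nat_lit 0x10001000100000000000000000002000100020000))) (.non (nat_lit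 0) (nat_lit 5) (nat_lit 0x154054) (nat_lit 0x10001000200010000000000000002000200030000))) (.non (nat_lit 0) (nat_lit 5) (nat_lit 0x154144) (nat_lit 0x20001000200010000000000010002000000030000))) (.non (nat_lit 1) (nat_lit 6) (nat_lit 0x110501) (nat_lit 0x30000000100000000000300040000000000000002)))))) (.split (nat_lit 9) (nat_lit 0) (.split (nat_lit 9) (nat_lit 3) (.split (nat_lit 8) (nat_lit 0) (.split (nat_lit 8) (nat_lit 1) (.sup (nat_lit 0x10006000b0010000d0000000000000000) (nat_lit 0x2000000000000000000000002000100020002)) (.non (nat_lit 0) (nat_lit 5) (nat_lit 0x68044) (nat_lit 0x1000200010000000000000002000000030000))) (.non (nat_lit 1) (nat_lit 5) (nat_lit 0x6a001) (nat_lit 0x2000300020001000000000000000000000004))) (.non (nat_lit 0) (nat_lit 5) (nat_lit 0x90054) (nat_lit 0x1000100000000000000000002000100020000))) (.non (nat_lit 1) (nat_lit 5) (nat_lit 0x94081) (nat_lit 0x2000200010000000000000001000000000003)))) (.non (nat_lit 0) (nat_lit 5) (nat_lit 0x50044) (nat_lit 0x1000100000000000000000001000000010000)))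 (.non (nat_lit 0) (nat_lit 5) (nat_lit 0x54044) (nat_lit 0x1000100010000000000000001000000010000)))

noncomputable def t1125_43 : Tr := (.split (nat_lit 8) (nat_lit 0) (.pd (.cons (nat_lit 0) (nat_lit 4) (nat_lit 0) (nat_lit 0x2187601110) (nat_lit 0xf423f98965a2c28b71aef423f00000f423fb71ae0411500000) (.cons (nat_lit 0) (nat_lit 7) (nat_lit 0) (nat_lit 0x2105441110) (nat_lit 0xf423ff423f00000f423fb71ae1f156f423fb71ae28b0600000) (.cons (nat_lit 0) (nat_lit 8) (nat_lit 0) (nat_lit 0x2065441110) (nat_lit 0xf423f00000f423fb71aea2c2804737f423fb71ae65b9700000) (.cons (nat_lit 1) (nat_lit 4) (nat_lit 0) (nat_lit 0x2087603200) (nat_lit 0xf423f98965a2c28b71aef423f00000f423fb71ae00000927bd) (.cons (nat_lit 1) (nat_lit 7) (nat_lit 0) (nat_lit 0x2005443200) (nat_lit 0xf423ff423f00000f423fb71ae1f156f423fb71ae00000b71ae) (.cons (nat_lit 1) (nat_lit 8) (nat_lit 0) (nat_lit 0x2065443200) (nat_lit 0xf423f00000f423fb71aea2c2804737f423fb71ae00000f423f) (.cons (nat_lit 2) (nat_lit 8) (nat_lit 0) (nat_lit 0x9065441000)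 (nat_lit 0xf423f00000f423fb71aea2c2804737f423f00000b71ae1f156) (.cons (nat_lit 3) (nat_lit 8) (nat_lit 0) (nat_lit 0x2065440100) (nat_lit 0xf423f00000f423fb71aea2c280473700000b71aea2c2804737) .nil)))))))) (.leaf (.cons (nat_lit 0x10005) (nat_lit 0x100000000000000000000000000010001) .nil) .nil)) (.split (nat_lit 8) (nat_lit 0) (.pd (.cons (nat_lit 0) (nat_lit 4) (nat_lit 0) (nat_lit 0x2187601110) (nat_lit 0xf423f98965a2c28b71aef423f00000f423fb71ae0411500000) (.cons (nat_lit 0) (nat_lit 7) (nat_lit 0) (nat_lit 0x2105441110) (nat_lit 0xf423ff423f00000f423fb71ae1f156f423fb71ae28b0600000) (.cons (nat_lit 0) (nat_lit 8) (nat_lit 0) (nat_lit 0x2065441110) (nat_lit 0xf423f00000f423fb71aea2c2804737f423fb71ae65b9700000) (.cons (nat_lit 1) (nat_lit 4) (nat_lit 0) (nat_lit 0x2087603200) (nat_lit 0xf423f98965a2c28b71aef423f00000f423fb71ae0000030d3b) (.cons (nat_lit 1) (nat_lit 7) (nat_lit 0) (nat_lit 0x2005443200) (nat_lit 0xf423ff423f00000f423fb71ae1f156f423fb71ae000007a11e) (.cons (nat_lit 1) (nat_lit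 8) (nat_lit 0) (nat_lit 0x2065443200) (nat_lit 0xf423f00000f423fb71aea2c2804737f423fb71ae00000f423f) (.cons (nat_lit 2) (nat_lit 8) (nat_lit 0) (nat_lit 0x9065441000) (nat_lit 0xf423f00000f423fb71aea2c2804737f423f00000b71ae1f156) (.cons (nat_lit 3) (nat_lit 8) (nat_lit 0) (nat_lit 0x2065440100) (nat_lit 0xf423f00000f423fb71aea2c280473700000b71aea2c2804737) .nil)))))))) (.leaf (.cons (nat_lit 0x10005) (nat_lit 0x100000000000000000000000000010001) .nil) .nil)) (.pd (.cons (nat_lit 0) (nat_lit 4) (nat_lit 0) (nat_lit 0x2187601110) (nat_lit 0xf423f98965a2c28b71aef423f00000f423fb71ae0411500000) (.cons (nat_lit 0) (nat_lit 7) (nat_lit 0) (nat_lit 0x2105441110) (nat_lit 0xf423ff423f00000f423fb71ae1f156f423fb71ae28b0600000) (.cons (nat_lit 0) (nat_lit 8) (nat_lit 0) (nat_lit 0x2065441110) (nat_lit 0xf423f00000f423fb71aea2c2804737f423fb71ae65b9700000) (.cons (nat_lit 1) (nat_lit 7) (nat_lit 0x100000001) (nat_lit 0x2005443208) (nat_lit 0xf423f0000100000f423fb71ae1f156f423fb71ae0000000001) (.cons (nat_lit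 1) (nat_lit 8) (nat_lit 0) (nat_lit 0x2065443200) (nat_lit 0xf423f00000f423fb71aea2c2804737f423fb71ae00000f423f) (.cons (nat_lit 2) (nat_lit 8) (nat_lit 0) (nat_lit 0x9065441000) (nat_lit 0xf423f00000f423fb71aea2c2804737f423f00000b71ae1f156) (.cons (nat_lit 3) (nat_lit 8) (nat_lit 0) (nat_lit 0x2065440100) (nat_lit 0xf423f00000f423fb71aea2c280473700000b71aea2c2804737) .nil))))))) (.leaf (.cons (nat_lit 0x15401) (nat_lit 0x400030002000100000000000000000003) (.cons (nat_lit 0x10005) (nat_lit 0x100000000000000000000000000010001) .nil)) .nil))))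

noncomputable def t1125_44 : Tr := (.ex (nat_lit 5) (.ex (nat_lit 6) (.split (nat_lit 8) (nat_lit 1) (.split (nat_lit 9) (nat_lit 2) (.split (nat_lit 8) (nat_lit 7) t1125_43 (.non (nat_lit 0) (nat_lit 5) (nat_lit 0x1a044) (nat_lit 0x300020001000000000001000000020000))) (.non (nat_lit 0) (nat_lit 5) (nat_lit 0x90054) (nat_lit 0x1000100000000000000000001000200020000))) (.non (nat_lit 0) (nat_lit 5) (nat_lit 0x2a044) (nat_lit 0x300020001000000000002000000040000))) (.split (nat_lit 0xa) (nat_lit 0) (.split (nat_lit 0xa) (nat_lit 1) (.split (nat_lit 0xa) (nat_lit 2) (.split (nat_lit 0xa) (nat_lit 3) (.split (nat_lit 0xa) (nat_lit 4) (.split (nat_lit 0xa) (nat_lit 7) (.split (nat_lit 0xa) (nat_lit 8) (.split (nat_lit 0xa) (nat_lit 9) (.split (nat_lit 0xa) (nat_lit 5) (.unj (nat_lit 0x55) (nat_lit 0x1000100020002) (nat_lit 0x105500) (nat_lit 0x10000000000010002000200020000000000000000)) (.unj (nat_lit 0x10005) (nat_lit 0x100000000000000000000000000010001) (nat_lit 0x101400) (nat_lit 0x10000000000000001000100000000000000000000)))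 (.non (nat_lit 0) (nat_lit 5) (nat_lit 0x155014) (nat_lit 0x10001000100010001000000000000000100010000))) (.non (nat_lit 0) (nat_lit 5) (nat_lit 0x115000) (nat_lit 0x10000000100010001000000000000000000000000))) (.non (nat_lit 0) (nat_lit 5) (nat_lit 0x105000) (nat_lit 0x10000000000010001000000000000000000000000))) (.non (nat_lit 0) (nat_lit 5) (nat_lit 0x155154) (nat_lit 0x20002000500040003000000010003000400060000))) (.non (nat_lit 0) (nat_lit 5) (nat_lit 0x115044) (nat_lit 0x10000000100010001000000000001000000010000))) (.non (nat_lit 0) (nat_lit 5) (nat_lit 0x115014) (nat_lit 0x10000000100010001000000000000000100010000))) (.star (nat_lit 0xa) (nat_lit 1) (nat_lit 6))) (.star (nat_lit 0xa) (nat_lit 0) (nat_lit 6)))) (.split (nat_lit 0xa) (nat_lit 0) (.split (nat_lit 0xa) (nat_lit 1) (.split (nat_lit 0xa) (nat_lit 2) (.split (nat_lit 0xa) (nat_lit 3) (.split (nat_lit 0xa) (nat_lit 4) (.split (nat_lit 0xa) (nat_lit 7) (.split (nat_lit 0xa) (nat_lit 8) (.split (nat_lit 0xa) (nat_lit 9) (.split (nat_lit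 0xa) (nat_lit 6) (.unj (nat_lit 0x10005) (nat_lit 0x100000000000000000000000000010001) (nat_lit 0x101500) (nat_lit 0x10000000000000001000200020000000000000000)) (.unj (nat_lit 0x10005) (nat_lit 0x100000000000000000000000000010001) (nat_lit 0x101400) (nat_lit 0x10000000000000001000100000000000000000000))) (.non (nat_lit 0) (nat_lit 5) (nat_lit 0x155054) (nat_lit 0x10002000300020001000000000002000300040000))) (.non (nat_lit 0) (nat_lit 5) (nat_lit 0x114054) (nat_lit 0x10000000200010000000000000001000100020000))) (.non (nat_lit 0) (nat_lit 5) (nat_lit 0x115054) (nat_lit 0x10000000200020001000000000001000100020000))) (.non (nat_lit 0) (nat_lit 6) (nat_lit 0x100500) (nat_lit 0x10000000000000000000100010000000000000000))) (.non (nat_lit 0) (nat_lit 5) (nat_lit 0x154054) (nat_lit 0x10001000200010000000000000002000200030000))) (.non (nat_lit 0) (nat_lit 5) (nat_lit 0x150054) (nat_lit 0x10001000100000000000000000001000200020000))) (.star (nat_lit 0xa) (nat_lit 1) (nat_lit 5))) (.star (nat_lit 0xa) (nat_lit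 0) (nat_lit 5))))

noncomputable def t1125_45 : Tr := (.split (nat_lit 9) (nat_lit 8) (.split (nat_lit 9) (nat_lit 0) (.st (nat_lit 2) (nat_lit 0) (nat_lit 5) (nat_lit 0x50054) (nat_lit 0x1000100000000000000000001000200020000) (nat_lit 1) (nat_lit 1) (.st (nat_lit 3) (nat_lit 0) (nat_lit 5) (nat_lit 0x54054) (nat_lit 0x1000200010000000000000002000200030000) (nat_lit 1) (nat_lit 1) (.st (nat_lit 9) (nat_lit 0) (nat_lit 5) (nat_lit 0x55054) (nat_lit 0x2000300020001000000000002000300040000) (nat_lit 1) (nat_lit 1) (.ex (nat_lit 4) t1125_44 (.split (nat_lit 0xa) (nat_lit 0) (.split (nat_lit 0xa) (nat_lit 1) (.split (nat_lit 0xa) (nat_lit 2) (.split (nat_lit 0xa) (nat_lit 3) (.split (nat_lit 0xa) (nat_lit 5) (.split (nat_lit 0xa) (nat_lit 6) (.split (nat_lit 0xa) (nat_lit 7) (.split (nat_lit 0xa) (nat_lit 8) (.split (nat_lit 0xa) (nat_lit 9) (.unj (nat_lit 0x10005) (nat_lit 0x100000000000000000000000000010001) (nat_lit 0x101500) (nat_lit 0x10000000000000001000200020000000000000000)) (.non (nat_lit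 0) (nat_lit 5) (nat_lit 0x155054) (nat_lit 0x10002000300020001000000000002000300040000))) (.non (nat_lit 0) (nat_lit 5) (nat_lit 0x115144) (nat_lit 0x20000000300020001000000010001000000020000))) (.non (nat_lit 0) (nat_lit 5) (nat_lit 0x115054) (nat_lit 0x10000000200020001000000000001000100020000))) (.non (nat_lit 0) (nat_lit 5) (nat_lit 0x155154) (nat_lit 0x20002000500040003000000010003000400060000))) (.non (nat_lit 0) (nat_lit 6) (nat_lit 0x100500) (nat_lit 0x10000000000000000000100010000000000000000))) (.non (nat_lit 0) (nat_lit 5) (nat_lit 0x154054) (nat_lit 0x10001000200010000000000000002000200030000))) (.non (nat_lit 0) (nat_lit 5) (nat_lit 0x150054) (nat_lit 0x10001000100000000000000000001000200020000))) (.non (nat_lit 0) (nat_lit 5) (nat_lit 0x154114) (nat_lit 0x20001000200010000000000010000000200030000))) (.non (nat_lit 1) (nat_lit 6) (nat_lit 0x110501) (nat_lit 0x30000000100000000000300040000000000000002))))))) (.split (nat_lit 9) (nat_lit 0) (.split (nat_lit 9) (nat_lit 2) (.split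 (nat_lit 8) (nat_lit 0) (.split (nat_lit 8) (nat_lit 1) (.sup (nat_lit 0x10006000b0010000d0000000000000000) (nat_lit 0x2000000000000000000000001000200020002)) (.non (nat_lit 0) (nat_lit 5) (nat_lit 0x2a044) (nat_lit 0x300020001000000000002000000040000))) (.non (nat_lit 1) (nat_lit 5) (nat_lit 0x6a001) (nat_lit 0x2000300020001000000000000000000000004))) (.non (nat_lit 0) (nat_lit 5) (nat_lit 0x90054) (nat_lit 0x1000100000000000000000001000200020000))) (.non (nat_lit 1) (nat_lit 5) (nat_lit 0x94021) (nat_lit 0x2000200010000000000000000000100000003)))) (.non (nat_lit 0) (nat_lit 5) (nat_lit 0x50014) (nat_lit 0x1000100000000000000000000000100010000)))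

noncomputable def t1125_46 : Tr := (.ex (nat_lit 2) (.ex (nat_lit 3) (.ex (nat_lit 4) t1125_39 (.split (nat_lit 9) (nat_lit 0) (.split (nat_lit 9) (nat_lit 1) (.split (nat_lit 9) (nat_lit 2) (.split (nat_lit 9) (nat_lit 3) (.split (nat_lit 9) (nat_lit 5) (.split (nat_lit 9) (nat_lit 7) (.split (nat_lit 9) (nat_lit 8) (.split (nat_lit 9) (nat_lit 6) (.unj (nat_lit 0x10005) (nat_lit 0x100000000000000000000000000010001) (nat_lit 0x41500) (nat_lit 0x1000000000001000200020000000000000000)) (.unj (nat_lit 0x10005) (nat_lit 0x100000000000000000000000000010001) (nat_lit 0x41500) (nat_lit 0x1000000000001000100010000000000000000))) (.non (nat_lit 0) (nat_lit 5) (nat_lit 0x55144) (nat_lit 0x2000300020001000000010001000000020000))) (.non (nat_lit 0) (nat_lit 5) (nat_lit 0x55054) (nat_lit 0x1000200020001000000000001000100020000))) (.non (nat_lit 0) (nat_lit 6) (nat_lit 0x40500) (nat_lit 0x1000000000000000100010000000000000000))) (.non (nat_lit 0) (nat_lit 5) (nat_lit 0x55154) (nat_lit 0x2000300020001000000010003000200040000)))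 (.non (nat_lit 0) (nat_lit 5) (nat_lit 0x55154) (nat_lit 0x2000300020001000000010002000300040000))) (.non (nat_lit 0) (nat_lit 5) (nat_lit 0x50054) (nat_lit 0x1000100000000000000000001000100020000))) (.non (nat_lit 1) (nat_lit 6) (nat_lit 0x50501) (nat_lit 0x3000100000000000300040000000000000002)))) (.split (nat_lit 9) (nat_lit 1) (.split (nat_lit 9) (nat_lit 2) (.split (nat_lit 9) (nat_lit 4) (.split (nat_lit 9) (nat_lit 5) (.split (nat_lit 9) (nat_lit 6) t1125_42 (.non (nat_lit 0) (nat_lit 5) (nat_lit 0x55044) (nat_lit 0x1000100010001000000000001000000010000))) (.non (nat_lit 0) (nat_lit 6) (nat_lit 0x40544) (nat_lit 0x3000000000000000400030002000000010000))) (.non (nat_lit 0) (nat_lit 5) (nat_lit 0x55154) (nat_lit 0x2000300020001000000010003000200040000))) (.non (nat_lit 0) (nat_lit 5) (nat_lit 0x40054) (nat_lit 0x1000000000000000000000001000100010000))) (.non (nat_lit 0) (nat_lit 5) (nat_lit 0x40044) (nat_lit 0x1000000000000000000000001000000010000)))) (.split (nat_lit 9) (nat_lit 1) (.split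 (nat_lit 9) (nat_lit 3) (.split (nat_lit 9) (nat_lit 4) (.split (nat_lit 9) (nat_lit 5) (.split (nat_lit 9) (nat_lit 6) (.split (nat_lit 9) (nat_lit 7) t1125_45 (.non (nat_lit 0) (nat_lit 5) (nat_lit 0x54014) (nat_lit 0x1000100010000000000000000000100010000))) (.non (nat_lit 0) (nat_lit 5) (nat_lit 0x55014) (nat_lit 0x1000100010001000000000000000100010000))) (.non (nat_lit 0) (nat_lit 6) (nat_lit 0x40514) (nat_lit 0x3000000000000000400030000000200010000))) (.non (nat_lit 0) (nat_lit 5) (nat_lit 0x55154) (nat_lit 0x2000300020001000000010002000300040000))) (.non (nat_lit 0) (nat_lit 5) (nat_lit 0x40054) (nat_lit 0x1000000000000000000000001000100010000))) (.non (nat_lit 0) (nat_lit 5) (nat_lit 0x40014) (nat_lit 0x1000000000000000000000000000100010000))))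

noncomputable def t1125_47 : Tr := (.ex (nat_lit 6) (.split (nat_lit 8) (nat_lit 1) (.split (nat_lit 8) (nat_lit 7) (.split (nat_lit 8) (nat_lit 0) (.split (nat_lit 9) (nat_lit 0) (.pd (.cons (nat_lit 0) (nat_lit 4) (nat_lit 0) (nat_lit 0x9187601110) (nat_lit 0xf423f98965a2c28b71aef423f00000f423ff423f1869b00000) (.cons (nat_lit 0) (nat_lit 7) (nat_lit 0) (nat_lit 0x9105441110) (nat_lit 0xf423ff423f00000f423fb71ae1f156f423ff423f3d08c00000) (.cons (nat_lit 0) (nat_lit 8) (nat_lit 0) (nat_lit 0x9065441110) (nat_lit 0xf423f00000f423fb71aea2c2804737f423ff423f7a11d00000) (.cons (nat_lit 1) (nat_lit 4) (nat_lit 0) (nat_lit 0x87603200) (nat_lit 0xf423f98965a2c28b71aef423f00000f423ff423f000005572c) (.cons (nat_lit 1) (nat_lit 7) (nat_lit 0) (nat_lit 0x5443200) (nat_lit 0xf423ff423f00000f423fb71ae1f156f423ff423f000007a11d) (.cons (nat_lit 1) (nat_lit 8) (nat_lit 0) (nat_lit 0x65443200) (nat_lit 0xf423f00000f423fb71aea2c2804737f423ff423f00000b71ae) .nil)))))) (.leaf (.cons (nat_lit 0x10005) (nat_lit 0x100000000000000000000000000010001)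 (.cons (nat_lit 0x40045) (nat_lit 0x1000000000000000000000001000000020002) (.cons (nat_lit 0x40015) (nat_lit 0x1000000000000000000000000000100020002) .nil))) .nil)) (.split (nat_lit 9) (nat_lit 0) (.pd (.cons (nat_lit 0) (nat_lit 4) (nat_lit 0) (nat_lit 0x9187601110) (nat_lit 0xf423f98965a2c28b71aef423f00000f423ff423f1869b00000) (.cons (nat_lit 0) (nat_lit 7) (nat_lit 0) (nat_lit 0x9105441110) (nat_lit 0xf423ff423f00000f423fb71ae1f156f423ff423f3d08c00000) (.cons (nat_lit 0) (nat_lit 8) (nat_lit 0) (nat_lit 0x9065441110) (nat_lit 0xf423f00000f423fb71aea2c2804737f423ff423f7a11d00000) (.cons (nat_lit 1) (nat_lit 4) (nat_lit 0) (nat_lit 0x87603200) (nat_lit 0xf423f98965a2c28b71aef423f00000f423ff423f000001869c) (.cons (nat_lit 1) (nat_lit 7) (nat_lit 0) (nat_lit 0x5443200) (nat_lit 0xf423ff423f00000f423fb71ae1f156f423ff423f000003d08d) (.cons (nat_lit 1) (nat_lit 8) (nat_lit 0) (nat_lit 0x65443200) (nat_lit 0xf423f00000f423fb71aea2c2804737f423ff423f000007a11e) .nil)))))) (.leaf (.cons (nat_lit 0x40005)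 (nat_lit 0x1000000000000000000000000000000010001) .nil) .nil)) (.non (nat_lit 1) (nat_lit 5) (nat_lit 0x55001) (nat_lit 0x3000300020001000000000000000000000004)))) (.non (nat_lit 1) (nat_lit 5) (nat_lit 0x6a001) (nat_lit 0x2000300020001000000000000000000000004))) (.non (nat_lit 0) (nat_lit 5) (nat_lit 0x1a044) (nat_lit 0x300020001000000000001000000020000))) (.non (nat_lit 0) (nat_lit 5) (nat_lit 0x2a044) (nat_lit 0x300020001000000000002000000040000))) (.split (nat_lit 0xa) (nat_lit 0) (.split (nat_lit 0xa) (nat_lit 1) (.split (nat_lit 0xa) (nat_lit 2) (.split (nat_lit 0xa) (nat_lit 3) (.split (nat_lit 0xa) (nat_lit 7) (.split (nat_lit 0xa) (nat_lit 8) (.split (nat_lit 0xa) (nat_lit 9) (.split (nat_lit 0xa) (nat_lit 4) (.split (nat_lit 0xa) (nat_lit 5) (.unj (nat_lit 0x55) (nat_lit 0x1000100020002) (nat_lit 0x105500) (nat_lit 0x10000000000010002000200020000000000000000)) (.unj (nat_lit 0x10005) (nat_lit 0x100000000000000000000000000010001) (nat_lit 0x101400) (nat_lit 0x10000000000000001000100000000000000000000)))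 (.split (nat_lit 0xa) (nat_lit 5) (.unj (nat_lit 0x10005) (nat_lit 0x100000000000000000000000000010001) (nat_lit 0x101500) (nat_lit 0x10000000000000001000100010000000000000000)) (.non (nat_lit 0) (nat_lit 6) (nat_lit 0x100500) (nat_lit 0x10000000000000000000100010000000000000000)))) (.non (nat_lit 1) (nat_lit 5) (nat_lit 0x155001) (nat_lit 0x10001000100010001000000000000000000000001))) (.non (nat_lit 0) (nat_lit 5) (nat_lit 0x115000) (nat_lit 0x10000000100010001000000000000000000000000))) (.non (nat_lit 0) (nat_lit 5) (nat_lit 0x105000) (nat_lit 0x10000000000010001000000000000000000000000))) (.non (nat_lit 0) (nat_lit 5) (nat_lit 0x115044) (nat_lit 0x10000000100010001000000000001000000010000))) (.non (nat_lit 0) (nat_lit 5) (nat_lit 0x115014) (nat_lit 0x10000000100010001000000000000000100010000))) (.star (nat_lit 0xa) (nat_lit 1) (nat_lit 6))) (.star (nat_lit 0xa) (nat_lit 0) (nat_lit 6))))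

noncomputable def t1125_48 : Tr := (.ex (nat_lit 4) (.ex (nat_lit 5) t1125_47 (.split (nat_lit 0xa) (nat_lit 0) (.split (nat_lit 0xa) (nat_lit 1) (.split (nat_lit 0xa) (nat_lit 2) (.split (nat_lit 0xa) (nat_lit 3) (.split (nat_lit 0xa) (nat_lit 4) (.split (nat_lit 0xa) (nat_lit 7) (.split (nat_lit 0xa) (nat_lit 8) (.split (nat_lit 0xa) (nat_lit 9) (.split (nat_lit 0xa) (nat_lit 6) (.unj (nat_lit 0x10005) (nat_lit 0x100000000000000000000000000010001) (nat_lit 0x101500) (nat_lit 0x10000000000000001000200020000000000000000)) (.unj (nat_lit 0x10005) (nat_lit 0x100000000000000000000000000010001) (nat_lit 0x101400) (nat_lit 0x10000000000000001000100000000000000000000))) (.non (nat_lit 1) (nat_lit 6) (nat_lit 0x140501) (nat_lit 0x30002000000000000000400030000000000000001))) (.non (nat_lit 0) (nat_lit 5) (nat_lit 0x114054) (nat_lit 0x10000000200010000000000000001000100020000))) (.non (nat_lit 0) (nat_lit 5) (nat_lit 0x115054) (nat_lit 0x10000000200020001000000000001000100020000))) (.non (nat_lit 0)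 (nat_lit 6) (nat_lit 0x100500) (nat_lit 0x10000000000000000000100010000000000000000))) (.non (nat_lit 0) (nat_lit 6) (nat_lit 0x100544) (nat_lit 0x30000000000000000000400030002000000010000))) (.non (nat_lit 0) (nat_lit 6) (nat_lit 0x100514) (nat_lit 0x30000000000000000000400030000000200010000))) (.star (nat_lit 0xa) (nat_lit 1) (nat_lit 5))) (.star (nat_lit 0xa) (nat_lit 0) (nat_lit 5)))) (.split (nat_lit 0xa) (nat_lit 0) (.split (nat_lit 0xa) (nat_lit 1) (.split (nat_lit 0xa) (nat_lit 2) (.split (nat_lit 0xa) (nat_lit 3) (.split (nat_lit 0xa) (nat_lit 5) (.split (nat_lit 0xa) (nat_lit 7) (.split (nat_lit 0xa) (nat_lit 8) (.split (nat_lit 0xa) (nat_lit 9) (.split (nat_lit 0xa) (nat_lit 6) (.unj (nat_lit 0x10005) (nat_lit 0x100000000000000000000000000010001) (nat_lit 0x101500) (nat_lit 0x10000000000000001000200020000000000000000)) (.unj (nat_lit 0x10005) (nat_lit 0x100000000000000000000000000010001) (nat_lit 0x101500) (nat_lit 0x10000000000000001000100010000000000000000))) (.non (nat_lit 1) (nat_lit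 6) (nat_lit 0x140501) (nat_lit 0x30002000000000000000300040000000000000001))) (.non (nat_lit 0) (nat_lit 5) (nat_lit 0x115144) (nat_lit 0x20000000300020001000000010001000000020000))) (.non (nat_lit 0) (nat_lit 5) (nat_lit 0x115054) (nat_lit 0x10000000200020001000000000001000100020000))) (.non (nat_lit 0) (nat_lit 6) (nat_lit 0x100500) (nat_lit 0x10000000000000000000100010000000000000000))) (.non (nat_lit 0) (nat_lit 5) (nat_lit 0x115154) (nat_lit 0x20000000300020001000000010003000200040000))) (.non (nat_lit 0) (nat_lit 5) (nat_lit 0x115154) (nat_lit 0x20000000300020001000000010002000300040000))) (.non (nat_lit 0) (nat_lit 5) (nat_lit 0x110054) (nat_lit 0x10000000100000000000000000001000100020000))) (.non (nat_lit 1) (nat_lit 6) (nat_lit 0x140501) (nat_lit 0x30001000000000000000300040000000000000002))))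

noncomputable def t1125_49 : Tr := (.st (nat_lit 1) (nat_lit 0) (nat_lit 5) (nat_lit 0x10054) (nat_lit 0x100000000000000000001000100020000) (nat_lit 1) (nat_lit 1) (.st (nat_lit 7) (nat_lit 0) (nat_lit 5) (nat_lit 0x15054) (nat_lit 0x200020001000000000001000100020000) (nat_lit 1) (nat_lit 1) (.st (nat_lit 8) (nat_lit 0) (nat_lit 5) (nat_lit 0x14054) (nat_lit 0x200010000000000000001000100020000) (nat_lit 1) (nat_lit 1) (.ex (nat_lit 0) t1125_46 (.split (nat_lit 9) (nat_lit 1) (.split (nat_lit 9) (nat_lit 4) (.split (nat_lit 9) (nat_lit 5) (.split (nat_lit 9) (nat_lit 6) (.split (nat_lit 9) (nat_lit 7) (.split (nat_lit 9) (nat_lit 8) (.split (nat_lit 9) (nat_lit 2) (.split (nat_lit 9) (nat_lit 3) t1125_48 (.split (nat_lit 9) (nat_lit 0) (.split (nat_lit 9) (nat_lit 3) (.split (nat_lit 8) (nat_lit 0) (.split (nat_lit 8) (nat_lit 1) (.sup (nat_lit 0x10006000b0010000d0000000000000000) (nat_lit 0x2000000000000000000000002000100020002)) (.non (nat_lit 0) (nat_lit 5) (nat_lit 0x68044) (nat_lit 0x1000200010000000000000002000000030000)))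 (.non (nat_lit 1) (nat_lit 5) (nat_lit 0x6a001) (nat_lit 0x2000300020001000000000000000000000004))) (.non (nat_lit 0) (nat_lit 5) (nat_lit 0x90054) (nat_lit 0x1000100000000000000000002000100020000))) (.non (nat_lit 1) (nat_lit 5) (nat_lit 0x94081) (nat_lit 0x2000200010000000000000001000000000003)))) (.split (nat_lit 9) (nat_lit 3) (.split (nat_lit 9) (nat_lit 0) (.split (nat_lit 9) (nat_lit 2) (.split (nat_lit 8) (nat_lit 0) (.split (nat_lit 8) (nat_lit 1) (.sup (nat_lit 0x10006000b0010000d0000000000000000) (nat_lit 0x2000000000000000000000001000200020002)) (.non (nat_lit 0) (nat_lit 5) (nat_lit 0x2a044) (nat_lit 0x300020001000000000002000000040000))) (.non (nat_lit 1) (nat_lit 5) (nat_lit 0x6a001) (nat_lit 0x2000300020001000000000000000000000004))) (.non (nat_lit 0) (nat_lit 5) (nat_lit 0x90054) (nat_lit 0x1000100000000000000000001000200020000))) (.non (nat_lit 1) (nat_lit 5) (nat_lit 0x94021) (nat_lit 0x2000200010000000000000000000100000003))) (.non (nat_lit 0) (nat_lit 5) (nat_lit 0x40054)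 (nat_lit 0x1000000000000000000000001000100010000)))) (.non (nat_lit 0) (nat_lit 5) (nat_lit 0x54054) (nat_lit 0x1000200010000000000000001000100020000))) (.non (nat_lit 0) (nat_lit 5) (nat_lit 0x55054) (nat_lit 0x1000200020001000000000001000100020000))) (.star (nat_lit 9) (nat_lit 0) (nat_lit 6))) (.star (nat_lit 9) (nat_lit 0) (nat_lit 5))) (.non (nat_lit 1) (nat_lit 6) (nat_lit 0x50501) (nat_lit 0x3000100000000000300040000000000000002))) (.non (nat_lit 0) (nat_lit 5) (nat_lit 0x50054) (nat_lit 0x1000100000000000000000001000100020000)))))))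

noncomputable def t1125_50 : Tr := (.split (nat_lit 8) (nat_lit 1) (.split (nat_lit 8) (nat_lit 2) t1125_32 (.split (nat_lit 8) (nat_lit 3) (.split (nat_lit 7) (nat_lit 2) (.split (nat_lit 7) (nat_lit 3) (.st (nat_lit 7) (nat_lit 1) (nat_lit 5) (nat_lit 0x15011) (nat_lit 0x200020001000000000000000100000001) (nat_lit 1) (nat_lit 1) (.st (nat_lit 8) (nat_lit 1) (nat_lit 5) (nat_lit 0x14011) (nat_lit 0x200010000000000000000000100000001) (nat_lit 1) (nat_lit 1) (.ex (nat_lit 0) t1125_37 (.split (nat_lit 9) (nat_lit 2) (.split (nat_lit 9) (nat_lit 4) (.split (nat_lit 9) (nat_lit 5) (.split (nat_lit 9) (nat_lit 6) (.split (nat_lit 9) (nat_lit 7) (.split (nat_lit 9) (nat_lit 8) (.split (nat_lit 9) (nat_lit 1) (.split (nat_lit 9) (nat_lit 3) (.split (nat_lit 9) (nat_lit 0) (.split (nat_lit 8) (nat_lit 0) (.split (nat_lit 8) (nat_lit 2) (.sup (nat_lit 0x10006000b0010000d0000000000000000) (nat_lit 0x1000000000000000000000002000100030002)) (.non (nat_lit 0) (nat_lit 5) (nat_lit 0x2a014) (nat_lit 0x300020001000000000000000400020000)))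 (.non (nat_lit 1) (nat_lit 5) (nat_lit 0x6a001) (nat_lit 0x2000300020001000000000000000000000004))) (.non (nat_lit 1) (nat_lit 5) (nat_lit 0x94011) (nat_lit 0x1000200010000000000000000000100000002))) (.sup (nat_lit 0x80000000000000000000000090000000a0007) (nat_lit 0x100040007000a00080000000000000000))) (.split (nat_lit 9) (nat_lit 3) (.sup (nat_lit 0x90000000000000000000000000000000a0007) (nat_lit 0x100040007000a00080000000000000000)) (.non (nat_lit 0) (nat_lit 5) (nat_lit 0x40044) (nat_lit 0x1000000000000000000000001000000010000)))) (.non (nat_lit 1) (nat_lit 5) (nat_lit 0x50001) (nat_lit 0x1000100000000000000000000000000000001))) (.non (nat_lit 1) (nat_lit 5) (nat_lit 0x54001) (nat_lit 0x1000100010000000000000000000000000001))) (.star (nat_lit 9) (nat_lit 0) (nat_lit 6))) (.star (nat_lit 9) (nat_lit 0) (nat_lit 5))) (.non (nat_lit 1) (nat_lit 6) (nat_lit 0x50501) (nat_lit 0x3000100000000000300040000000000000002))) (.non (nat_lit 1) (nat_lit 5) (nat_lit 0x50011) (nat_lit 0x1000100000000000000000000000100000001))))))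 (.non (nat_lit 0) (nat_lit 5) (nat_lit 0x14054) (nat_lit 0x100010000000000000001000100010000))) (.non (nat_lit 0) (nat_lit 5) (nat_lit 0x14010) (nat_lit 0x100010000000000000000000100000000))) (.non (nat_lit 0) (nat_lit 5) (nat_lit 0x10054) (nat_lit 0x100000000000000000001000100010000)))) (.split (nat_lit 8) (nat_lit 2) (.split (nat_lit 8) (nat_lit 3) (.split (nat_lit 7) (nat_lit 2) (.split (nat_lit 7) (nat_lit 3) t1125_49 (.non (nat_lit 0) (nat_lit 5) (nat_lit 0x14044) (nat_lit 0x100010000000000000001000000010000))) (.non (nat_lit 0) (nat_lit 5) (nat_lit 0x14014) (nat_lit 0x100010000000000000000000100010000))) (.non (nat_lit 0) (nat_lit 5) (nat_lit 0x10044) (nat_lit 0x100000000000000000001000000010000))) (.non (nat_lit 0) (nat_lit 5) (nat_lit 0x10014) (nat_lit 0x100000000000000000000000100010000))))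

noncomputable def t1125_51 : Tr := (.split (nat_lit 4) (nat_lit 3) (.split (nat_lit 8) (nat_lit 0) (.split (nat_lit 8) (nat_lit 1) (.split (nat_lit 8) (nat_lit 2) (.split (nat_lit 8) (nat_lit 3) (.split (nat_lit 7) (nat_lit 2) (.split (nat_lit 7) (nat_lit 3) .uj (.st (nat_lit 1) (nat_lit 0) (nat_lit 5) (nat_lit 0x15054) (nat_lit 0x100020001000000000002000100020000) (nat_lit 1) (nat_lit 1) (.st (nat_lit 3) (nat_lit 0) (nat_lit 5) (nat_lit 0x15044) (nat_lit 0x100020001000000000002000000010000) (nat_lit 1) (nat_lit 1) (.st (nat_lit 7) (nat_lit 0) (nat_lit 5) (nat_lit 0x15040) (nat_lit 0x100020001000000000001000000000000) (nat_lit 1) (nat_lit 1) t1125_3)))) (.split (nat_lit 7) (nat_lit 3) (.st (nat_lit 1) (nat_lit 0) (nat_lit 5) (nat_lit 0x15054) (nat_lit 0x100020001000000000001000200020000) (nat_lit 1) (nat_lit 1) (.st (nat_lit 2) (nat_lit 0) (nat_lit 5) (nat_lit 0x15014) (nat_lit 0x100020001000000000000000200010000) (nat_lit 1) (nat_lit 1) (.st (nat_lit 7) (nat_lit 0) (nat_lit 5) (nat_lit 0x15010)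 (nat_lit 0x100020001000000000000000100000000) (nat_lit 1) (nat_lit 1) t1125_6))) (.non (nat_lit 0) (nat_lit 5) (nat_lit 0x15050) (nat_lit 0x100020001000000000001000100000000)))) (.split (nat_lit 7) (nat_lit 2) (.split (nat_lit 7) (nat_lit 3) (.sup (nat_lit 0x20005000a0008) (nat_lit 0x100040007000a00080000000000000000)) (.non (nat_lit 0) (nat_lit 5) (nat_lit 0x14040) (nat_lit 0x100010000000000000001000000000000))) (.non (nat_lit 0) (nat_lit 5) (nat_lit 0x14054) (nat_lit 0x100010000000000000001000100010000)))) (.split (nat_lit 8) (nat_lit 3) (.split (nat_lit 7) (nat_lit 2) (.split (nat_lit 7) (nat_lit 3) (.sup (nat_lit 0x50002000a0008) (nat_lit 0x100040007000a00080000000000000000)) (.non (nat_lit 0) (nat_lit 5) (nat_lit 0x14054) (nat_lit 0x100010000000000000001000100010000))) (.non (nat_lit 0) (nat_lit 5) (nat_lit 0x14010) (nat_lit 0x100010000000000000000000100000000))) (.non (nat_lit 0) (nat_lit 5) (nat_lit 0x10054) (nat_lit 0x100000000000000000001000100010000)))) (.split (nat_lit 8) (nat_lit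 2) (.split (nat_lit 8) (nat_lit 3) (.split (nat_lit 7) (nat_lit 2) (.split (nat_lit 7) (nat_lit 3) t1125_10 (.non (nat_lit 0) (nat_lit 5) (nat_lit 0x14044) (nat_lit 0x100010000000000000001000000010000))) (.non (nat_lit 0) (nat_lit 5) (nat_lit 0x14014) (nat_lit 0x100010000000000000000000100010000))) (.non (nat_lit 0) (nat_lit 5) (nat_lit 0x10044) (nat_lit 0x100000000000000000001000000010000))) (.non (nat_lit 0) (nat_lit 5) (nat_lit 0x10014) (nat_lit 0x100000000000000000000000100010000)))) t1125_50) (.non (nat_lit 0) (nat_lit 6) (nat_lit 0x554) (nat_lit 0x300040003000100020000)))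

noncomputable def t1125 : Tr := (.split (nat_lit 4) (nat_lit 2) t1125_51 (.non (nat_lit 0) (nat_lit 6) (nat_lit 0x554) (nat_lit 0x300040001000300020000)))

noncomputable def t1131_1 : Tr := (.ex (nat_lit 2) (.ex (nat_lit 4) (.split (nat_lit 8) (nat_lit 3) (.pd (.cons (nat_lit 0) (nat_lit 6) (nat_lit 0) (nat_lit 0x370441110) (nat_lit 0xf423ff423f00000f423f54591b71aef423f65b9700000) (.cons (nat_lit 0) (nat_lit 8) (nat_lit 0) (nat_lit 0x65441110) (nat_lit 0xf423fb71aea2c2804737f423ff423f7a11d00000) (.cons (nat_lit 1) (nat_lit 6) (nat_lit 0x10000001) (nat_lit 0x300443207) (nat_lit 0xf423f0000100000f423f54591b71aef423f0000000001) (.cons (nat_lit 3) (nat_lit 7) (nat_lit 0) (nat_lit 0x605440100) (nat_lit 0xf423f00000b71aea2c280473700000f423fb71ae1f156) .nil)))) (.split (nat_lit 7) (nat_lit 0) (.leaf (.cons (nat_lit 0x11540) (nat_lit 0x200000003000400030001000000000000) (.cons (nat_lit 0x5501) (nat_lit 0x20003000400030000000000000001) (.cons (nat_lit 0x15005) (nat_lit 0x100030002000000000000000000030004)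 (.cons (nat_lit 0x4045) (nat_lit 0x10000000000000001000000020002) (.cons (nat_lit 0x4015) (nat_lit 0x10000000000000000000100020002) .nil))))) (.cons (nat_lit 0x111101001) (nat_lit 0x10010) (nat_lit 0xc) (nat_lit 0x420105003) .nil)) (.non (nat_lit 1) (nat_lit 4) (nat_lit 0x2a801) (nat_lit 0x100020002000100000000000000000002)))) (.non (nat_lit 0) (nat_lit 4) (nat_lit 0x2a840) (nat_lit 0x200010002000100000002000000000000))) (.split (nat_lit 9) (nat_lit 0) (.split (nat_lit 9) (nat_lit 1) (.split (nat_lit 9) (nat_lit 3) (.split (nat_lit 9) (nat_lit 5) (.split (nat_lit 9) (nat_lit 6) (.split (nat_lit 9) (nat_lit 7) (.split (nat_lit 9) (nat_lit 8) (.split (nat_lit 9) (nat_lit 2) (.unj (nat_lit 0x55) (nat_lit 0x1000100020002) (nat_lit 0x41500) (nat_lit 0x1000000000001000200020000000000000000)) (.sup (nat_lit 0x50002000a0008) (nat_lit 0x2000000000005000a00090000000000000000))) (.non (nat_lit 0) (nat_lit 4) (nat_lit 0x55440) (nat_lit 0x1000200010002000100000001000000000000))) (.non (nat_lit 1) (nat_lit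 4) (nat_lit 0x55401) (nat_lit 0x1000100020002000100000000000000000001))) (.non (nat_lit 0) (nat_lit 4) (nat_lit 0x55400) (nat_lit 0x1000100010002000100000000000000000000))) (.non (nat_lit 1) (nat_lit 4) (nat_lit 0x55441) (nat_lit 0x1000200020003000200000001000000000001))) (.non (nat_lit 0) (nat_lit 4) (nat_lit 0x55444) (nat_lit 0x1000200010002000100000002000000010000))) (.star (nat_lit 9) (nat_lit 1) (nat_lit 4))) (.star (nat_lit 9) (nat_lit 0) (nat_lit 4)))) (.split (nat_lit 9) (nat_lit 1) (.split (nat_lit 9) (nat_lit 3) (.split (nat_lit 9) (nat_lit 5) (.split (nat_lit 9) (nat_lit 6) (.split (nat_lit 9) (nat_lit 7) (.split (nat_lit 9) (nat_lit 8) (.split (nat_lit 9) (nat_lit 0) (.split (nat_lit 9) (nat_lit 4) (.split (nat_lit 9) (nat_lit 2) (.split (nat_lit 8) (nat_lit 3) (.split (nat_lit 7) (nat_lit 0) (.sup (nat_lit 0x40003000b0010000d0000000000000000) (nat_lit 0x3000000000000000000000003000600090006)) (.non (nat_lit 1) (nat_lit 4) (nat_lit 0x2a801) (nat_lit 0x100020002000100000000000000000002)))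 (.non (nat_lit 0) (nat_lit 4) (nat_lit 0x2a840) (nat_lit 0x200010002000100000002000000000000))) (.non (nat_lit 0) (nat_lit 4) (nat_lit 0x95454) (nat_lit 0x1000200010002000100000002000200020000))) (.sup (nat_lit 0x50002000a0008) (nat_lit 0x2000000000005000a00090000000000000000))) (.split (nat_lit 9) (nat_lit 4) (.sup (nat_lit 0x4000000000000000000000000000400030005) (nat_lit 0x200000003000500040001000000000000)) (.star (nat_lit 9) (nat_lit 0) (nat_lit 4)))) (.non (nat_lit 0) (nat_lit 4) (nat_lit 0x55440) (nat_lit 0x1000200010002000100000001000000000000))) (.non (nat_lit 0) (nat_lit 4) (nat_lit 0x55054) (nat_lit 0x1000100010001000000000001000100010000))) (.non (nat_lit 0) (nat_lit 4) (nat_lit 0x55400) (nat_lit 0x1000100010002000100000000000000000000))) (.non (nat_lit 0) (nat_lit 4) (nat_lit 0x51454) (nat_lit 0x1000100000001000100000001000100010000))) (.non (nat_lit 0) (nat_lit 4) (nat_lit 0x55444) (nat_lit 0x1000200010002000100000002000000010000))) (.non (nat_lit 0) (nat_lit 4) (nat_lit 0x40014)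 (nat_lit 0x1000000000000000000000000000100010000))))

noncomputable def t1131_2 : Tr := (.split (nat_lit 8) (nat_lit 3) (.split (nat_lit 7) (nat_lit 0) (.split (nat_lit 7) (nat_lit 2) (.split (nat_lit 7) (nat_lit 3) .uj (.sup (nat_lit 0x1000300050004) (nat_lit 0x200010003000500040000000000000000))) (.split (nat_lit 7) (nat_lit 3) (.sup (nat_lit 0x3000100050004) (nat_lit 0x200010003000500040000000000000000)) (.non (nat_lit 0) (nat_lit 4) (nat_lit 0x15450) (nat_lit 0x100020002000100000001000100000000)))) (.split (nat_lit 7) (nat_lit 2) (.split (nat_lit 7) (nat_lit 3) (.sup (nat_lit 0x50005000a0006) (nat_lit 0x300010007000a00080000000000000000)) (.non (nat_lit 1) (nat_lit 4) (nat_lit 0x15441) (nat_lit 0x100020002000100000001000000000001))) (.non (nat_lit 1) (nat_lit 4) (nat_lit 0x15411) (nat_lit 0x100020002000100000000000100000001)))) (.split (nat_lit 7) (nat_lit 2) (.split (nat_lit 7) (nat_lit 3) (.split (nat_lit 7) (nat_lit 0) (.sup (nat_lit 0x1000300050004) (nat_lit 0x100020003000500040000000000000000))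 (.st (nat_lit 1) (nat_lit 0) (nat_lit 4) (nat_lit 0x15454) (nat_lit 0x200010002000100000002000100020000) (nat_lit 1) (nat_lit 1) (.st (nat_lit 5) (nat_lit 1) (nat_lit 4) (nat_lit 0x15441) (nat_lit 0x200020003000200000001000000000001) (nat_lit 1) (nat_lit 1) (.st (nat_lit 7) (nat_lit 1) (nat_lit 4) (nat_lit 0x15401) (nat_lit 0x100020002000100000000000000000001) (nat_lit 1) (nat_lit 1) (.st (nat_lit 8) (nat_lit 0) (nat_lit 4) (nat_lit 0x15440) (nat_lit 0x200010002000100000001000000000000) (nat_lit 1) (nat_lit 1) (.st (nat_lit 3) (nat_lit 0) (nat_lit 4) (nat_lit 0x15444) (nat_lit 0x200010002000100000002000000010000) (nat_lit 1) (nat_lit 1) (.ex (nat_lit 0) t1131_1 (.split (nat_lit 9) (nat_lit 1) (.split (nat_lit 9) (nat_lit 3) (.split (nat_lit 9) (nat_lit 4) (.split (nat_lit 9) (nat_lit 5) (.split (nat_lit 9) (nat_lit 6) (.split (nat_lit 9) (nat_lit 7) (.split (nat_lit 9) (nat_lit 8) (.split (nat_lit 9) (nat_lit 2) (.sup (nat_lit 0x2500000000000000000000000000280050004a) (nat_lit 0x1c00030037005000410000000000000000))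 (.sup (nat_lit 0x4000000000000000000000000000400030005) (nat_lit 0x200000003000500040001000000000000))) (.non (nat_lit 0) (nat_lit 4) (nat_lit 0x55440) (nat_lit 0x1000200010002000100000001000000000000))) (.non (nat_lit 1) (nat_lit 4) (nat_lit 0x44001) (nat_lit 0x1000000010000000000000000000000000001))) (.non (nat_lit 0) (nat_lit 4) (nat_lit 0x55400) (nat_lit 0x1000100010002000100000000000000000000))) (.star (nat_lit 9) (nat_lit 0) (nat_lit 5))) (.star (nat_lit 9) (nat_lit 0) (nat_lit 4))) (.non (nat_lit 0) (nat_lit 4) (nat_lit 0x55444) (nat_lit 0x1000200010002000100000002000000010000))) (.non (nat_lit 0) (nat_lit 4) (nat_lit 0x55454) (nat_lit 0x1000200010002000100000002000100020000)))))))))) (.non (nat_lit 0) (nat_lit 4) (nat_lit 0x15040) (nat_lit 0x100010001000000000001000000000000))) (.non (nat_lit 0) (nat_lit 4) (nat_lit 0x15054) (nat_lit 0x100010001000000000001000100010000))))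

noncomputable def t1131_3 : Tr := (.ex (nat_lit 3) (.ex (nat_lit 4) (.split (nat_lit 8) (nat_lit 2) (.pd (.cons (nat_lit 0) (nat_lit 6) (nat_lit 0) (nat_lit 0x270441110) (nat_lit 0xf423ff423f00000f423f54591f423fb71ae65b9700000) (.cons (nat_lit 0) (nat_lit 8) (nat_lit 0) (nat_lit 0x65441110) (nat_lit 0xf423fb71aea2c2804737f423ff423f7a11d00000) (.cons (nat_lit 1) (nat_lit 6) (nat_lit 0x10000001) (nat_lit 0x200443207) (nat_lit 0xf423f0000100000f423f54591f423fb71ae0000000001) (.cons (nat_lit 2) (nat_lit 7) (nat_lit 0) (nat_lit 0x605441000) (nat_lit 0xf423f00000b71aea2c2804737f423f00000b71ae1f156) .nil)))) (.split (nat_lit 7) (nat_lit 0) (.leaf (.cons (nat_lit 0x11510) (nat_lit 0x200000003000400030000000100000000) (.cons (nat_lit 0x5501) (nat_lit 0x20003000400030000000000000001) (.cons (nat_lit 0x15005) (nat_lit 0x100030002000000000000000000030004) (.cons (nat_lit 0x4045) (nat_lit 0x10000000000000001000000020002) (.cons (nat_lit 0x4015) (nat_lit 0x10000000000000000000100020002) .nil))))) (.cons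 (nat_lit 0x111100101) (nat_lit 0x10010) (nat_lit 0xc) (nat_lit 0x420100503) .nil)) (.non (nat_lit 1) (nat_lit 4) (nat_lit 0x2a801) (nat_lit 0x100020002000100000000000000000002)))) (.non (nat_lit 0) (nat_lit 4) (nat_lit 0x2a810) (nat_lit 0x200010002000100000000000200000000))) (.split (nat_lit 9) (nat_lit 0) (.split (nat_lit 9) (nat_lit 1) (.split (nat_lit 9) (nat_lit 2) (.split (nat_lit 9) (nat_lit 5) (.split (nat_lit 9) (nat_lit 6) (.split (nat_lit 9) (nat_lit 7) (.split (nat_lit 9) (nat_lit 8) (.split (nat_lit 9) (nat_lit 3) (.unj (nat_lit 0x55) (nat_lit 0x1000100020002) (nat_lit 0x41500) (nat_lit 0x1000000000001000200020000000000000000)) (.sup (nat_lit 0x20005000a0008) (nat_lit 0x2000000000005000a00090000000000000000))) (.non (nat_lit 0) (nat_lit 4) (nat_lit 0x55410) (nat_lit 0x1000200010002000100000000000100000000))) (.non (nat_lit 1) (nat_lit 4) (nat_lit 0x55401) (nat_lit 0x1000100020002000100000000000000000001))) (.non (nat_lit 0) (nat_lit 4) (nat_lit 0x55400) (nat_lit 0x1000100010002000100000000000000000000)))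 (.non (nat_lit 1) (nat_lit 4) (nat_lit 0x55411) (nat_lit 0x1000200020003000200000000000100000001))) (.non (nat_lit 0) (nat_lit 4) (nat_lit 0x55414) (nat_lit 0x1000200010002000100000000000200010000))) (.star (nat_lit 9) (nat_lit 1) (nat_lit 4))) (.star (nat_lit 9) (nat_lit 0) (nat_lit 4)))) (.split (nat_lit 9) (nat_lit 1) (.split (nat_lit 9) (nat_lit 2) (.split (nat_lit 9) (nat_lit 5) (.split (nat_lit 9) (nat_lit 6) (.split (nat_lit 9) (nat_lit 7) (.split (nat_lit 9) (nat_lit 8) (.split (nat_lit 9) (nat_lit 0) (.split (nat_lit 9) (nat_lit 4) (.split (nat_lit 9) (nat_lit 3) (.split (nat_lit 8) (nat_lit 2) (.split (nat_lit 7) (nat_lit 0) (.sup (nat_lit 0x40003000b0010000d0000000000000000) (nat_lit 0x3000000000000000000000006000300090006)) (.non (nat_lit 1) (nat_lit 4) (nat_lit 0x2a801) (nat_lit 0x100020002000100000000000000000002))) (.non (nat_lit 0) (nat_lit 4) (nat_lit 0x2a810) (nat_lit 0x200010002000100000000000200000000))) (.non (nat_lit 0) (nat_lit 4) (nat_lit 0x95454) (nat_lit 0x1000200010002000100000002000200020000)))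 (.sup (nat_lit 0x20005000a0008) (nat_lit 0x2000000000005000a00090000000000000000))) (.split (nat_lit 9) (nat_lit 4) (.sup (nat_lit 0x4000000000000000000000004000000030005) (nat_lit 0x200000003000500040000000100000000)) (.star (nat_lit 9) (nat_lit 0) (nat_lit 4)))) (.non (nat_lit 0) (nat_lit 4) (nat_lit 0x55410) (nat_lit 0x1000200010002000100000000000100000000))) (.non (nat_lit 0) (nat_lit 4) (nat_lit 0x55054) (nat_lit 0x1000100010001000000000001000100010000))) (.non (nat_lit 0) (nat_lit 4) (nat_lit 0x55400) (nat_lit 0x1000100010002000100000000000000000000))) (.non (nat_lit 0) (nat_lit 4) (nat_lit 0x51454) (nat_lit 0x1000100000001000100000001000100010000))) (.non (nat_lit 0) (nat_lit 4) (nat_lit 0x55414) (nat_lit 0x1000200010002000100000000000200010000))) (.non (nat_lit 0) (nat_lit 4) (nat_lit 0x40044) (nat_lit 0x1000000000000000000000001000000010000))))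

noncomputable def t1131_4 : Tr := (.ex (nat_lit 2) (.ex (nat_lit 4) (.split (nat_lit 7) (nat_lit 3) (.pd (.cons (nat_lit 0) (nat_lit 6) (nat_lit 0) (nat_lit 0x830441110) (nat_lit 0xf423ff423f00000f423f54591b71aef423f65b9700000) (.cons (nat_lit 0) (nat_lit 7) (nat_lit 0) (nat_lit 0x605441110) (nat_lit 0xf423f00000b71aea2c2804737f423ff423f7a11d00000) (.cons (nat_lit 1) (nat_lit 6) (nat_lit 0x100000001) (nat_lit 0x30443208) (nat_lit 0x1f423f00000f423f54591b71aef423f0000000001) (.cons (nat_lit 3) (nat_lit 8) (nat_lit 0) (nat_lit 0x65440100) (nat_lit 0xf423fb71aea2c280473700000f423fb71ae1f156) .nil)))) (.split (nat_lit 8) (nat_lit 0) (.leaf (.cons (nat_lit 0x5540) (nat_lit 0x20003000400030001000000000000) (.cons (nat_lit 0x11501) (nat_lit 0x200000003000400030000000000000001) (.cons (nat_lit 0x15005) (nat_lit 0x300010002000000000000000000030004) (.cons (nat_lit 0x10045) (nat_lit 0x100000000000000000001000000020002) (.cons (nat_lit 0x10015) (nat_lit 0x100000000000000000000000100020002) .nil))))) (.cons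 (nat_lit 0x111101001) (nat_lit 0x10010) (nat_lit 0xc) (nat_lit 0x420103005) .nil)) (.non (nat_lit 1) (nat_lit 4) (nat_lit 0x2a801) (nat_lit 0x200010002000100000000000000000002)))) (.non (nat_lit 0) (nat_lit 4) (nat_lit 0x2a840) (nat_lit 0x100020002000100000002000000000000))) (.split (nat_lit 9) (nat_lit 0) (.split (nat_lit 9) (nat_lit 1) (.split (nat_lit 9) (nat_lit 3) (.split (nat_lit 9) (nat_lit 5) (.split (nat_lit 9) (nat_lit 6) (.split (nat_lit 9) (nat_lit 7) (.split (nat_lit 9) (nat_lit 8) (.split (nat_lit 9) (nat_lit 2) (.unj (nat_lit 0x55) (nat_lit 0x1000100020002) (nat_lit 0x41500) (nat_lit 0x1000000000001000200020000000000000000)) (.sup (nat_lit 0x50002000a0008) (nat_lit 0x2000000000005000a00090000000000000000))) (.non (nat_lit 1) (nat_lit 4) (nat_lit 0x55401) (nat_lit 0x1000200010002000100000000000000000001))) (.non (nat_lit 0) (nat_lit 4) (nat_lit 0x55440) (nat_lit 0x1000100020002000100000001000000000000))) (.non (nat_lit 0) (nat_lit 4) (nat_lit 0x55400) (nat_lit 0x1000100010002000100000000000000000000)))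 (.non (nat_lit 1) (nat_lit 4) (nat_lit 0x55441) (nat_lit 0x1000200020003000200000001000000000001))) (.non (nat_lit 0) (nat_lit 4) (nat_lit 0x55444) (nat_lit 0x1000100020002000100000002000000010000))) (.star (nat_lit 9) (nat_lit 1) (nat_lit 4))) (.star (nat_lit 9) (nat_lit 0) (nat_lit 4)))) (.split (nat_lit 9) (nat_lit 1) (.split (nat_lit 9) (nat_lit 3) (.split (nat_lit 9) (nat_lit 5) (.split (nat_lit 9) (nat_lit 6) (.split (nat_lit 9) (nat_lit 7) (.split (nat_lit 9) (nat_lit 8) (.split (nat_lit 9) (nat_lit 0) (.split (nat_lit 9) (nat_lit 4) (.split (nat_lit 9) (nat_lit 2) (.split (nat_lit 8) (nat_lit 0) (.split (nat_lit 7) (nat_lit 3) (.sup (nat_lit 0x30004000b0010000d0000000000000000) (nat_lit 0x3000000000000000000000003000600090006)) (.non (nat_lit 0) (nat_lit 4) (nat_lit 0x2a840) (nat_lit 0x100020002000100000002000000000000))) (.non (nat_lit 1) (nat_lit 4) (nat_lit 0x2a801) (nat_lit 0x200010002000100000000000000000002))) (.non (nat_lit 0) (nat_lit 4) (nat_lit 0x95454) (nat_lit 0x1000100020002000100000002000200020000)))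 (.sup (nat_lit 0x50002000a0008) (nat_lit 0x2000000000005000a00090000000000000000))) (.split (nat_lit 9) (nat_lit 4) (.sup (nat_lit 0x4000000000000000000000000000400030005) (nat_lit 0x20003000500040001000000000000)) (.star (nat_lit 9) (nat_lit 0) (nat_lit 4)))) (.non (nat_lit 0) (nat_lit 4) (nat_lit 0x55054) (nat_lit 0x1000100010001000000000001000100010000))) (.non (nat_lit 0) (nat_lit 4) (nat_lit 0x55440) (nat_lit 0x1000100020002000100000001000000000000))) (.non (nat_lit 0) (nat_lit 4) (nat_lit 0x55400) (nat_lit 0x1000100010002000100000000000000000000))) (.non (nat_lit 0) (nat_lit 4) (nat_lit 0x45454) (nat_lit 0x1000000010001000100000001000100010000))) (.non (nat_lit 0) (nat_lit 4) (nat_lit 0x55444) (nat_lit 0x1000100020002000100000002000000010000))) (.non (nat_lit 0) (nat_lit 4) (nat_lit 0x40014) (nat_lit 0x1000000000000000000000000000100010000))))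

noncomputable def t1131_5 : Tr := (.ex (nat_lit 3) (.ex (nat_lit 4) (.split (nat_lit 7) (nat_lit 2) (.pd (.cons (nat_lit 0) (nat_lit 6) (nat_lit 0) (nat_lit 0x820441110) (nat_lit 0xf423ff423f00000f423f54591f423fb71ae65b9700000) (.cons (nat_lit 0) (nat_lit 7) (nat_lit 0) (nat_lit 0x605441110) (nat_lit 0xf423f00000b71aea2c2804737f423ff423f7a11d00000) (.cons (nat_lit 1) (nat_lit 6) (nat_lit 0x100000001) (nat_lit 0x20443208) (nat_lit 0x1f423f00000f423f54591f423fb71ae0000000001) (.cons (nat_lit 2) (nat_lit 8) (nat_lit 0) (nat_lit 0x65441000) (nat_lit 0xf423fb71aea2c2804737f423f00000b71ae1f156) .nil)))) (.split (nat_lit 8) (nat_lit 0) (.leaf (.cons (nat_lit 0x5510) (nat_lit 0x20003000400030000000100000000) (.cons (nat_lit 0x11501) (nat_lit 0x200000003000400030000000000000001) (.cons (nat_lit 0x15005) (nat_lit 0x300010002000000000000000000030004) (.cons (nat_lit 0x10045) (nat_lit 0x100000000000000000001000000020002) (.cons (nat_lit 0x10015) (nat_lit 0x100000000000000000000000100020002) .nil))))) (.cons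 (nat_lit 0x111100101) (nat_lit 0x10010) (nat_lit 0xc) (nat_lit 0x420100305) .nil)) (.non (nat_lit 1) (nat_lit 4) (nat_lit 0x2a801) (nat_lit 0x200010002000100000000000000000002)))) (.non (nat_lit 0) (nat_lit 4) (nat_lit 0x2a810) (nat_lit 0x100020002000100000000000200000000))) (.split (nat_lit 9) (nat_lit 0) (.split (nat_lit 9) (nat_lit 1) (.split (nat_lit 9) (nat_lit 2) (.split (nat_lit 9) (nat_lit 5) (.split (nat_lit 9) (nat_lit 6) (.split (nat_lit 9) (nat_lit 7) (.split (nat_lit 9) (nat_lit 8) (.split (nat_lit 9) (nat_lit 3) (.unj (nat_lit 0x55) (nat_lit 0x1000100020002) (nat_lit 0x41500) (nat_lit 0x1000000000001000200020000000000000000)) (.sup (nat_lit 0x20005000a0008) (nat_lit 0x2000000000005000a00090000000000000000))) (.non (nat_lit 1) (nat_lit 4) (nat_lit 0x55401) (nat_lit 0x1000200010002000100000000000000000001))) (.non (nat_lit 0) (nat_lit 4) (nat_lit 0x55410) (nat_lit 0x1000100020002000100000000000100000000))) (.non (nat_lit 0) (nat_lit 4) (nat_lit 0x55400) (nat_lit 0x1000100010002000100000000000000000000)))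 (.non (nat_lit 1) (nat_lit 4) (nat_lit 0x55411) (nat_lit 0x1000200020003000200000000000100000001))) (.non (nat_lit 0) (nat_lit 4) (nat_lit 0x55414) (nat_lit 0x1000100020002000100000000000200010000))) (.star (nat_lit 9) (nat_lit 1) (nat_lit 4))) (.star (nat_lit 9) (nat_lit 0) (nat_lit 4)))) (.split (nat_lit 9) (nat_lit 1) (.split (nat_lit 9) (nat_lit 2) (.split (nat_lit 9) (nat_lit 5) (.split (nat_lit 9) (nat_lit 6) (.split (nat_lit 9) (nat_lit 7) (.split (nat_lit 9) (nat_lit 8) (.split (nat_lit 9) (nat_lit 0) (.split (nat_lit 9) (nat_lit 4) (.split (nat_lit 9) (nat_lit 3) (.split (nat_lit 8) (nat_lit 0) (.split (nat_lit 7) (nat_lit 2) (.sup (nat_lit 0x30004000b0010000d0000000000000000) (nat_lit 0x3000000000000000000000006000300090006)) (.non (nat_lit 0) (nat_lit 4) (nat_lit 0x2a810) (nat_lit 0x100020002000100000000000200000000))) (.non (nat_lit 1) (nat_lit 4) (nat_lit 0x2a801) (nat_lit 0x200010002000100000000000000000002))) (.non (nat_lit 0) (nat_lit 4) (nat_lit 0x95454) (nat_lit 0x1000100020002000100000002000200020000)))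 (.sup (nat_lit 0x20005000a0008) (nat_lit 0x2000000000005000a00090000000000000000))) (.split (nat_lit 9) (nat_lit 4) (.sup (nat_lit 0x4000000000000000000000004000000030005) (nat_lit 0x20003000500040000000100000000)) (.star (nat_lit 9) (nat_lit 0) (nat_lit 4)))) (.non (nat_lit 0) (nat_lit 4) (nat_lit 0x55054) (nat_lit 0x1000100010001000000000001000100010000))) (.non (nat_lit 0) (nat_lit 4) (nat_lit 0x55410) (nat_lit 0x1000100020002000100000000000100000000))) (.non (nat_lit 0) (nat_lit 4) (nat_lit 0x55400) (nat_lit 0x1000100010002000100000000000000000000))) (.non (nat_lit 0) (nat_lit 4) (nat_lit 0x45454) (nat_lit 0x1000000010001000100000001000100010000))) (.non (nat_lit 0) (nat_lit 4) (nat_lit 0x55414) (nat_lit 0x1000100020002000100000000000200010000))) (.non (nat_lit 0) (nat_lit 4) (nat_lit 0x40044) (nat_lit 0x1000000000000000000000001000000010000))))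

noncomputable def t1131_6 : Tr := (.split (nat_lit 7) (nat_lit 2) (.split (nat_lit 7) (nat_lit 3) (.sup (nat_lit 0x50005000a0006) (nat_lit 0x100030007000a00080000000000000000)) (.st (nat_lit 1) (nat_lit 0) (nat_lit 4) (nat_lit 0x15454) (nat_lit 0x100020002000100000002000100020000) (nat_lit 1) (nat_lit 1) (.st (nat_lit 5) (nat_lit 1) (nat_lit 4) (nat_lit 0x15441) (nat_lit 0x200020003000200000001000000000001) (nat_lit 1) (nat_lit 1) (.st (nat_lit 7) (nat_lit 0) (nat_lit 4) (nat_lit 0x15440) (nat_lit 0x100020002000100000001000000000000) (nat_lit 1) (nat_lit 1) (.st (nat_lit 8) (nat_lit 1) (nat_lit 4) (nat_lit 0x15401) (nat_lit 0x200010002000100000000000000000001) (nat_lit 1) (nat_lit 1) (.st (nat_lit 3) (nat_lit 0) (nat_lit 4) (nat_lit 0x15444) (nat_lit 0x100020002000100000002000000010000) (nat_lit 1) (nat_lit 1) (.ex (nat_lit 0) t1131_4 (.split (nat_lit 9) (nat_lit 1) (.split (nat_lit 9) (nat_lit 3) (.split (nat_lit 9) (nat_lit 4) (.split (nat_lit 9) (nat_lit 5) (.split (nat_lit 9) (nat_lit 6)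 (.split (nat_lit 9) (nat_lit 7) (.split (nat_lit 9) (nat_lit 8) (.split (nat_lit 9) (nat_lit 2) (.sup (nat_lit 0x2500000000000000000000000000280050004a) (nat_lit 0x3001c0037005000410000000000000000)) (.sup (nat_lit 0x4000000000000000000000000000400030005) (nat_lit 0x20003000500040001000000000000))) (.non (nat_lit 1) (nat_lit 4) (nat_lit 0x50001) (nat_lit 0x1000100000000000000000000000000000001))) (.non (nat_lit 0) (nat_lit 4) (nat_lit 0x55440) (nat_lit 0x1000100020002000100000001000000000000))) (.non (nat_lit 0) (nat_lit 4) (nat_lit 0x55400) (nat_lit 0x1000100010002000100000000000000000000))) (.star (nat_lit 9) (nat_lit 0) (nat_lit 5))) (.star (nat_lit 9) (nat_lit 0) (nat_lit 4))) (.non (nat_lit 0) (nat_lit 4) (nat_lit 0x55444) (nat_lit 0x1000100020002000100000002000000010000))) (.non (nat_lit 0) (nat_lit 4) (nat_lit 0x55454) (nat_lit 0x1000100020002000100000002000100020000)))))))))) (.split (nat_lit 7) (nat_lit 3) (.st (nat_lit 1) (nat_lit 0) (nat_lit 4) (nat_lit 0x15454) (nat_lit 0x100020002000100000001000200020000)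 (nat_lit 1) (nat_lit 1) (.st (nat_lit 5) (nat_lit 1) (nat_lit 4) (nat_lit 0x15411) (nat_lit 0x200020003000200000000000100000001) (nat_lit 1) (nat_lit 1) (.st (nat_lit 7) (nat_lit 0) (nat_lit 4) (nat_lit 0x15410) (nat_lit 0x100020002000100000000000100000000) (nat_lit 1) (nat_lit 1) (.st (nat_lit 8) (nat_lit 1) (nat_lit 4) (nat_lit 0x15401) (nat_lit 0x200010002000100000000000000000001) (nat_lit 1) (nat_lit 1) (.st (nat_lit 2) (nat_lit 0) (nat_lit 4) (nat_lit 0x15414) (nat_lit 0x100020002000100000000000200010000) (nat_lit 1) (nat_lit 1) (.ex (nat_lit 0) t1131_5 (.split (nat_lit 9) (nat_lit 1) (.split (nat_lit 9) (nat_lit 2) (.split (nat_lit 9) (nat_lit 4) (.split (nat_lit 9) (nat_lit 5) (.split (nat_lit 9) (nat_lit 6) (.split (nat_lit 9) (nat_lit 7) (.split (nat_lit 9) (nat_lit 8) (.split (nat_lit 9) (nat_lit 3) (.sup (nat_lit 0x2500000000000000000000002800000050004a) (nat_lit 0x3001c0037005000410000000000000000)) (.sup (nat_lit 0x4000000000000000000000004000000030005) (nat_lit 0x20003000500040000000100000000)))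 (.non (nat_lit 1) (nat_lit 4) (nat_lit 0x50001) (nat_lit 0x1000100000000000000000000000000000001))) (.non (nat_lit 0) (nat_lit 4) (nat_lit 0x55410) (nat_lit 0x1000100020002000100000000000100000000))) (.non (nat_lit 0) (nat_lit 4) (nat_lit 0x55400) (nat_lit 0x1000100010002000100000000000000000000))) (.star (nat_lit 9) (nat_lit 0) (nat_lit 5))) (.star (nat_lit 9) (nat_lit 0) (nat_lit 4))) (.non (nat_lit 0) (nat_lit 4) (nat_lit 0x55414) (nat_lit 0x1000100020002000100000000000200010000))) (.non (nat_lit 0) (nat_lit 4) (nat_lit 0x55454) (nat_lit 0x1000100020002000100000001000200020000))))))))) (.non (nat_lit 0) (nat_lit 4) (nat_lit 0x15450) (nat_lit 0x100020002000100000001000100000000))))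

noncomputable def t1131_7 : Tr := (.split (nat_lit 8) (nat_lit 0) (.split (nat_lit 8) (nat_lit 2) t1131_2 (.split (nat_lit 8) (nat_lit 3) (.split (nat_lit 7) (nat_lit 2) (.split (nat_lit 7) (nat_lit 3) (.split (nat_lit 7) (nat_lit 0) (.sup (nat_lit 0x3000100050004) (nat_lit 0x100020003000500040000000000000000)) (.st (nat_lit 1) (nat_lit 0) (nat_lit 4) (nat_lit 0x15454) (nat_lit 0x200010002000100000001000200020000) (nat_lit 1) (nat_lit 1) (.st (nat_lit 5) (nat_lit 1) (nat_lit 4) (nat_lit 0x15411) (nat_lit 0x200020003000200000000000100000001) (nat_lit 1) (nat_lit 1) (.st (nat_lit 7) (nat_lit 1) (nat_lit 4) (nat_lit 0x15401) (nat_lit 0x100020002000100000000000000000001) (nat_lit 1) (nat_lit 1) (.st (nat_lit 8) (nat_lit 0) (nat_lit 4) (nat_lit 0x15410) (nat_lit 0x200010002000100000000000100000000) (nat_lit 1) (nat_lit 1) (.st (nat_lit 2) (nat_lit 0) (nat_lit 4) (nat_lit 0x15414) (nat_lit 0x200010002000100000000000200010000) (nat_lit 1) (nat_lit 1) (.ex (nat_lit 0) t1131_3 (.split (nat_lit 9) (nat_lit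 1) (.split (nat_lit 9) (nat_lit 2) (.split (nat_lit 9) (nat_lit 4) (.split (nat_lit 9) (nat_lit 5) (.split (nat_lit 9) (nat_lit 6) (.split (nat_lit 9) (nat_lit 7) (.split (nat_lit 9) (nat_lit 8) (.split (nat_lit 9) (nat_lit 3) (.sup (nat_lit 0x2500000000000000000000002800000050004a) (nat_lit 0x1c00030037005000410000000000000000)) (.sup (nat_lit 0x4000000000000000000000004000000030005) (nat_lit 0x200000003000500040000000100000000))) (.non (nat_lit 0) (nat_lit 4) (nat_lit 0x55410) (nat_lit 0x1000200010002000100000000000100000000))) (.non (nat_lit 1) (nat_lit 4) (nat_lit 0x44001) (nat_lit 0x1000000010000000000000000000000000001))) (.non (nat_lit 0) (nat_lit 4) (nat_lit 0x55400) (nat_lit 0x1000100010002000100000000000000000000))) (.star (nat_lit 9) (nat_lit 0) (nat_lit 5))) (.star (nat_lit 9) (nat_lit 0) (nat_lit 4))) (.non (nat_lit 0) (nat_lit 4) (nat_lit 0x55414) (nat_lit 0x1000200010002000100000000000200010000))) (.non (nat_lit 0) (nat_lit 4) (nat_lit 0x55454) (nat_lit 0x1000200010002000100000001000200020000))))))))))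 (.non (nat_lit 0) (nat_lit 4) (nat_lit 0x15054) (nat_lit 0x100010001000000000001000100010000))) (.non (nat_lit 0) (nat_lit 4) (nat_lit 0x15010) (nat_lit 0x100010001000000000000000100000000))) (.non (nat_lit 0) (nat_lit 4) (nat_lit 0x15450) (nat_lit 0x200010002000100000001000100000000)))) (.split (nat_lit 8) (nat_lit 2) (.split (nat_lit 8) (nat_lit 3) (.split (nat_lit 7) (nat_lit 0) t1131_6 (.non (nat_lit 1) (nat_lit 4) (nat_lit 0x15001) (nat_lit 0x100010001000000000000000000000001))) (.non (nat_lit 1) (nat_lit 4) (nat_lit 0x15441) (nat_lit 0x200010002000100000001000000000001))) (.non (nat_lit 1) (nat_lit 4) (nat_lit 0x15411) (nat_lit 0x200010002000100000000000100000001))))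

noncomputable def t1131 : Tr := (.split (nat_lit 8) (nat_lit 1) (.split (nat_lit 7) (nat_lit 1) t1131_7 (.non (nat_lit 0) (nat_lit 4) (nat_lit 0x15454) (nat_lit 0x100020002000100000001000100020000))) (.non (nat_lit 0) (nat_lit 4) (nat_lit 0x15454) (nat_lit 0x200010002000100000001000100020000)))

noncomputable def t1138_1 : Tr := (.split (nat_lit 8) (nat_lit 3) (.split (nat_lit 7) (nat_lit 0) (.split (nat_lit 7) (nat_lit 2) (.split (nat_lit 7) (nat_lit 3) (.split (nat_lit 6) (nat_lit 2) (.split (nat_lit 6) (nat_lit 3) .uj (.sup (nat_lit 0x1000300050004) (nat_lit 0x400030002000400050000000000000000))) (.split (nat_lit 6) (nat_lit 3) (.sup (nat_lit 0x3000100050004) (nat_lit 0x400030002000400050000000000000000)) (.non (nat_lit 0) (nat_lit 4) (nat_lit 0x5450) (nat_lit 0x10002000100000001000100000000)))) (.split (nat_lit 6) (nat_lit 2) (.split (nat_lit 6) (nat_lit 3) (.sup (nat_lit 0x1000300050004) (nat_lit 0x300010003000500050000000000000000)) (.non (nat_lit 0) (nat_lit 4) (nat_lit 0x5040) (nat_lit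 0x10001000000000001000000000000))) (.non (nat_lit 0) (nat_lit 4) (nat_lit 0x15450) (nat_lit 0x100020002000100000001000100000000)))) (.split (nat_lit 7) (nat_lit 3) (.split (nat_lit 6) (nat_lit 2) (.split (nat_lit 6) (nat_lit 3) (.sup (nat_lit 0x3000100050004) (nat_lit 0x300010003000500050000000000000000)) (.non (nat_lit 0) (nat_lit 4) (nat_lit 0x15450) (nat_lit 0x100020002000100000001000100000000))) (.non (nat_lit 0) (nat_lit 4) (nat_lit 0x5010) (nat_lit 0x10001000000000000000100000000))) (.non (nat_lit 0) (nat_lit 4) (nat_lit 0x15050) (nat_lit 0x100020001000000000001000100000000)))) (.split (nat_lit 7) (nat_lit 2) (.split (nat_lit 7) (nat_lit 3) (.split (nat_lit 6) (nat_lit 2) (.split (nat_lit 6) (nat_lit 3) (.split (nat_lit 7) (nat_lit 0) (.sup (nat_lit 0x3000300050003) (nat_lit 0x300010003000500050000000000000000)) (.non (nat_lit 1) (nat_lit 4) (nat_lit 0x2a001) (nat_lit 0x100020001000000000000000000000002))) (.non (nat_lit 1) (nat_lit 4) (nat_lit 0x15441) (nat_lit 0x100020002000100000001000000000001)))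 (.non (nat_lit 1) (nat_lit 4) (nat_lit 0x15411) (nat_lit 0x100020002000100000000000100000001))) (.non (nat_lit 1) (nat_lit 4) (nat_lit 0x15041) (nat_lit 0x100020001000000000001000000000001))) (.non (nat_lit 1) (nat_lit 4) (nat_lit 0x15011) (nat_lit 0x100020001000000000000000100000001)))) (.split (nat_lit 7) (nat_lit 0) (.split (nat_lit 7) (nat_lit 2) (.split (nat_lit 7) (nat_lit 3) (.split (nat_lit 6) (nat_lit 2) (.split (nat_lit 6) (nat_lit 3) (.sup (nat_lit 0x1000300050004) (nat_lit 0x200030004000500040000000000000000)) (.non (nat_lit 0) (nat_lit 4) (nat_lit 0x15040) (nat_lit 0x100010001000000000001000000000000))) (.non (nat_lit 0) (nat_lit 4) (nat_lit 0x15054) (nat_lit 0x100010001000000000001000100010000))) (.non (nat_lit 0) (nat_lit 4) (nat_lit 0x14040) (nat_lit 0x100010000000000000001000000000000))) (.non (nat_lit 0) (nat_lit 4) (nat_lit 0x14054) (nat_lit 0x100010000000000000001000100010000))) (.non (nat_lit 1) (nat_lit 5) (nat_lit 0x15141) (nat_lit 0x200020001000000010001000000000001))))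

noncomputable def t1138 : Tr := (.split (nat_lit 7) (nat_lit 1) (.split (nat_lit 8) (nat_lit 2) t1138_1 (.split (nat_lit 8) (nat_lit 3) (.split (nat_lit 7) (nat_lit 0) (.split (nat_lit 7) (nat_lit 2) (.split (nat_lit 7) (nat_lit 3) (.split (nat_lit 6) (nat_lit 2) (.split (nat_lit 6) (nat_lit 3) (.sup (nat_lit 0x3000100050004) (nat_lit 0x200030004000500040000000000000000)) (.non (nat_lit 0) (nat_lit 4) (nat_lit 0x15054) (nat_lit 0x100010001000000000001000100010000))) (.non (nat_lit 0) (nat_lit 4) (nat_lit 0x15010) (nat_lit 0x100010001000000000000000100000000))) (.non (nat_lit 0) (nat_lit 4) (nat_lit 0x14054) (nat_lit 0x100010000000000000001000100010000))) (.non (nat_lit 0) (nat_lit 4) (nat_lit 0x14010) (nat_lit 0x100010000000000000000000100000000))) (.non (nat_lit 1) (nat_lit 5) (nat_lit 0x15111) (nat_lit 0x200020001000000010000000100000001))) (.non (nat_lit 0) (nat_lit 4) (nat_lit 0x10054) (nat_lit 0x100000000000000000001000100010000)))) (.non (nat_lit 0) (nat_lit 4) (nat_lit 0x15054) (nat_lit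 0x100020001000000000001000100020000)))

noncomputable def D15_12 : RL := (.cons (nat_lit 0x2222222222222222222222222222222222222222222222222222222222222222222222222222222222222222222222222222222222222222222222222322aa22222222222322aa2222222223323222222222222223252222222222222252aa222222222aa22a22322222222aa22a223222222222222233252222222222222252) (.split (nat_lit 4) (nat_lit 2) (.split (nat_lit 4) (nat_lit 3) (.split (nat_lit 8) (nat_lit 2) (.split (nat_lit 8) (nat_lit 3) (.split (nat_lit 7) (nat_lit 2) (.split (nat_lit 7) (nat_lit 3) .uj (.sup (nat_lit 0x1000300050004) (nat_lit 0x200010003000500040000000000000000))) (.split (nat_lit 7) (nat_lit 3) (.sup (nat_lit 0x3000100050004) (nat_lit 0x200010003000500040000000000000000)) (.non (nat_lit 0) (nat_lit 5) (nat_lit 0x4054) (nat_lit 0x10000000000000001000100010000)))) (.split (nat_lit 7) (nat_lit 2) (.split (nat_lit 7) (nat_lit 3) (.sup (nat_lit 0x1000300050004) (nat_lit 0x100020003000500040000000000000000)) (.non (nat_lit 0) (nat_lit 5) (nat_lit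 0x15040) (nat_lit 0x100010001000000000001000000000000))) (.non (nat_lit 0) (nat_lit 5) (nat_lit 0x15054) (nat_lit 0x100010001000000000001000100010000)))) (.split (nat_lit 8) (nat_lit 3) (.split (nat_lit 7) (nat_lit 2) (.split (nat_lit 7) (nat_lit 3) (.sup (nat_lit 0x3000100050004) (nat_lit 0x100020003000500040000000000000000)) (.non (nat_lit 0) (nat_lit 5) (nat_lit 0x15054) (nat_lit 0x100010001000000000001000100010000))) (.non (nat_lit 0) (nat_lit 5) (nat_lit 0x15010) (nat_lit 0x100010001000000000000000100000000))) (.non (nat_lit 0) (nat_lit 5) (nat_lit 0x10054) (nat_lit 0x100000000000000000001000100010000)))) (.non (nat_lit 0) (nat_lit 6) (nat_lit 0x554) (nat_lit 0x300040003000100020000))) (.non (nat_lit 0) (nat_lit 6) (nat_lit 0x554) (nat_lit 0x300040001000300020000))) (.cons (nat_lit 0x2222222222222222222222222222222222222222222222222222222222222222222222222222222222222222222222222222222222222222222222222322222222222222232222222222222332322222222222222325222222222222225222222222222222222232222222222222223222222222222233252222222222222252)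 .uj (.cons (nat_lit 0x2222222222222222222222222222222222222222222222222222222222222222222222222222222222222222222222222222222222222222222222222322222222222222232222222222222332322222222222222325222222222222225222222222222222222232222222222222223222222222222233252222222222222252) .uj (.cons (nat_lit 0x2222222222222222222222222222222222222222222222222222222222222222222222222222222222222222222222222222222222222222222222222322222222222222232222222222222332322222222222222325222222222222225222222222222222222232222222222222223222222222222233252222222222222252) .uj (.cons (nat_lit 0x2222222222222222222222222222222222222222222222222222222222222222222222222222222222222222222222222222222222222222222222223223aa22222222232322aaaa222222223232aa22222222222324222222222223224222222222222aaa2222322222222aaa22223222222222a222332522222222a2222252) t1138 .nil)))))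

noncomputable def D15 : RL := (.cons (nat_lit 0x222222222222222222222222222222222222222222222222222222222222222222222222222222222222222222222222222222222222222222222222b222aaaa2222222b2322aa222222222232322222222222222325aa2222222222225222222222222aa2a222322222222aa2a222322222222a222233252222222a22222252) t1122 (.cons (nat_lit 0x222222222222222222222222222222222222222222222222222222222222222222222222222222222222222222222222222222222222222222222222b222aa222222222b23222222222222223232aa22222222222325222222222222225222222222222a2a2222322222222a2a22223222222222222233252222222222222252) (.split (nat_lit 6) (nat_lit 2) (.split (nat_lit 6) (nat_lit 3) (.split (nat_lit 8) (nat_lit 2) (.split (nat_lit 8) (nat_lit 3) .uj (.sup (nat_lit 0x20005000a0008) (nat_lit 0x100040007000a00080000000000000000))) (.split (nat_lit 8) (nat_lit 3) (.sup (nat_lit 0x50002000a0008) (nat_lit 0x100040007000a00080000000000000000)) (.non (nat_lit 0) (nat_lit 4) (nat_lit 0x10054) (nat_lit 0x100000000000000000001000100010000))))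 (.non (nat_lit 0) (nat_lit 7) (nat_lit 0x1544) (nat_lit 0x3000400030002000000010000))) (.non (nat_lit 0) (nat_lit 7) (nat_lit 0x1514) (nat_lit 0x3000400030000000200010000))) (.cons (nat_lit 0x222222222222222222222222222222222222222222222222222222222222222222222222222222222222222222222222222222222222222222222222b22222222222222b232222222222222232322222222222222325222222222222225222222222222222222232222222222222223222222222222233252222222222222252) .uj (.cons (nat_lit 0x222222222222222222222222222222222222222222222222222222222222222222222222222222222222222222222222222222222222222222222222b222aaaa2222222b2322aa2222222222323222222222222223252222222222222252aa222222222aa22a22322222222aa22a22322222222a222233252222222a22222252) t1125 (.cons (nat_lit 0x222222222222222222222222222222222222222222222222222222222222222222222222222222222222222222222222222222222222222222222222b222aa222222222b23222222222222223232aa22222222222325222222222222225222222222222a2a2222322222222a2a22223222222222222233252222222222222252)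 (.split (nat_lit 6) (nat_lit 2) (.split (nat_lit 6) (nat_lit 3) (.split (nat_lit 8) (nat_lit 2) (.split (nat_lit 8) (nat_lit 3) .uj (.sup (nat_lit 0x20005000a0008) (nat_lit 0x100040007000a00080000000000000000))) (.split (nat_lit 8) (nat_lit 3) (.sup (nat_lit 0x50002000a0008) (nat_lit 0x100040007000a00080000000000000000)) (.non (nat_lit 0) (nat_lit 5) (nat_lit 0x10054) (nat_lit 0x100000000000000000001000100010000)))) (.non (nat_lit 0) (nat_lit 7) (nat_lit 0x1544) (nat_lit 0x3000400030002000000010000))) (.non (nat_lit 0) (nat_lit 7) (nat_lit 0x1514) (nat_lit 0x3000400030000000200010000))) (.cons (nat_lit 0x222222222222222222222222222222222222222222222222222222222222222222222222222222222222222222222222222222222222222222222222b22222222222222b232222222222222232322222222222222325222222222222225222222222222222222232222222222222223222222222222233252222222222222252) .uj (.cons (nat_lit 0x222222222222222222222222222222222222222222222222222222222222222222222222222222222222222222222222222222222222222222222222b222aa222222222b232222222222222232322222222222222325222222222222225222222222222a222222322222222a2222223222222222222233252222222222222252)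 (.split (nat_lit 8) (nat_lit 2) (.split (nat_lit 8) (nat_lit 3) .uj (.sup (nat_lit 0x20005000a0008) (nat_lit 0x100040007000a00080000000000000000))) (.split (nat_lit 8) (nat_lit 3) (.sup (nat_lit 0x50002000a0008) (nat_lit 0x100040007000a00080000000000000000)) (.non (nat_lit 0) (nat_lit 6) (nat_lit 0x10054) (nat_lit 0x100000000000000000001000100010000)))) (.cons (nat_lit 0x222222222222222222222222222222222222222222222222222222222222222222222222222222222222222222222222222222222222222222222222b22222222222222b232222222222222232322222222222222325222222222222225222222222222222222232222222222222223222222222222233252222222222222252) .uj (.cons (nat_lit 0x222222222222222222222222222222222222222222222222222222222222222222222222222222222222222222222222222222222222222222222222b22222222222222b232222222222222232322222222222222325222222222222225222222222222222222232222222222222223222222222222233252222222222222252) .uj (.cons (nat_lit 0x2222222222222222222222222222222222222222222222222222222222222222222222222222222222222222222222222222222222222222222222222322aaaa222222222322aaaa2222222332322222222222222325222222222222225222222222222aa22222322222222aa22222322222222aa22233252222222aa2222252)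 t1131 (.cons (nat_lit 0x2222222222222222222222222222222222222222222222222222222222222222222222222222222222222222222222222222222222222222222222222322aa22222222222322aa222222222332322222222222222325aa2222222222225222222222222aa2a222322222222aa2a2223222222222222233252222222222222252) (.split (nat_lit 5) (nat_lit 2) (.split (nat_lit 5) (nat_lit 3) (.split (nat_lit 8) (nat_lit 2) (.split (nat_lit 8) (nat_lit 3) (.split (nat_lit 7) (nat_lit 2) (.split (nat_lit 7) (nat_lit 3) .uj (.sup (nat_lit 0x1000300050004) (nat_lit 0x200010003000500040000000000000000))) (.split (nat_lit 7) (nat_lit 3) (.sup (nat_lit 0x3000100050004) (nat_lit 0x200010003000500040000000000000000)) (.non (nat_lit 0) (nat_lit 4) (nat_lit 0x15450) (nat_lit 0x100020002000100000001000100000000)))) (.split (nat_lit 7) (nat_lit 2) (.split (nat_lit 7) (nat_lit 3) (.sup (nat_lit 0x1000300050004) (nat_lit 0x100020003000500040000000000000000)) (.non (nat_lit 0) (nat_lit 4) (nat_lit 0x15040) (nat_lit 0x100010001000000000001000000000000))) (.non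 (nat_lit 0) (nat_lit 4) (nat_lit 0x15054) (nat_lit 0x100010001000000000001000100010000)))) (.split (nat_lit 8) (nat_lit 3) (.split (nat_lit 7) (nat_lit 2) (.split (nat_lit 7) (nat_lit 3) (.sup (nat_lit 0x3000100050004) (nat_lit 0x100020003000500040000000000000000)) (.non (nat_lit 0) (nat_lit 4) (nat_lit 0x15054) (nat_lit 0x100010001000000000001000100010000))) (.non (nat_lit 0) (nat_lit 4) (nat_lit 0x15010) (nat_lit 0x100010001000000000000000100000000))) (.non (nat_lit 0) (nat_lit 4) (nat_lit 0x15450) (nat_lit 0x200010002000100000001000100000000)))) (.non (nat_lit 0) (nat_lit 6) (nat_lit 0x554) (nat_lit 0x400030003000100020000))) (.non (nat_lit 0) (nat_lit 6) (nat_lit 0x554) (nat_lit 0x400030001000300020000))) (.cons (nat_lit 0x2222222222222222222222222222222222222222222222222222222222222222222222222222222222222222222222222222222222222222222222222322222222222222232222222222222332322222222222222325222222222222225222222222222222222232222222222222223222222222222233252222222222222252) .uj D15_12))))))))))))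

theorem cov_D15 : Cov 1122 1139 := by
  have h1 : rl D15 (nat_lit 1122) = true := by decide +kernel
  have h2 : 1122 + rlen D15 = 1139 := by decide +kernel
  exact cov_of h1 h2

end MP86a502
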