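import Pool.Agent.Lib.MP_86a502_gt.U.Rlc
import Pool.Agent.Lib.MP_86a502_gt.U.D09

set_option autoImplicit false
set_option maxRecDepth 1000000
set_option linter.all false

/-! Certificates, numbers 1548 to 1645. -/

namespace MP86a502

noncomputable def t1548 : Tr := (.split (nat_lit 9) (nat_lit 2) (.split (nat_lit 9) (nat_lit 3) (.split (nat_lit 8) (nat_lit 2) (.split (nat_lit 8) (nat_lit 3) (.split (nat_lit 6) (nat_lit 2) (.split (nat_lit 6) (nat_lit 3) (.split (nat_lit 6) (nat_lit 4) (.split (nat_lit 5) (nat_lit 3) (.split (nat_lit 5) (nat_lit 4) (.split (nat_lit 9) (nat_lit 4) (.split (nat_lit 8) (nat_lit 4) .uj (.sup (nat_lit 0x100040007000a0008) (nat_lit 0x300010007000a000800000000000000000000))) (.split (nat_lit 8) (nat_lit 4) (.sup (nat_lit 0x100040007000a0008) (nat_lit 0x100030007000a000800000000000000000000)) (.non (nat_lit 0) (nat_lit 5) (nat_lit 0x54100) (nat_lit 0x1000100010000000000010000000000000000)))) (.non (nat_lit 0) (nat_lit 7) (nat_lit 0x1550) (nat_lit 0x3000400030002000100000000)))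 (.non (nat_lit 0) (nat_lit 7) (nat_lit 0x1550) (nat_lit 0x2000200010002000100000000))) (.non (nat_lit 0) (nat_lit 7) (nat_lit 0x1550) (nat_lit 0x4000300030002000100000000))) (.non (nat_lit 0) (nat_lit 5) (nat_lit 0x55150) (nat_lit 0x1000100020002000000010002000100000000))) (.non (nat_lit 0) (nat_lit 5) (nat_lit 0x55054) (nat_lit 0x1000100020002000000000001000200010000))) (.non (nat_lit 0) (nat_lit 5) (nat_lit 0x55150) (nat_lit 0x1000200020001000000010002000100000000))) (.non (nat_lit 0) (nat_lit 5) (nat_lit 0x55054) (nat_lit 0x1000200020001000000000001000200010000))) (.non (nat_lit 0) (nat_lit 5) (nat_lit 0x55150) (nat_lit 0x2000100020001000000010002000100000000))) (.non (nat_lit 0) (nat_lit 5) (nat_lit 0x55054) (nat_lit 0x2000100020001000000000001000200010000)))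

noncomputable def t1550_1 : Tr := (.split (nat_lit 9) (nat_lit 3) (.split (nat_lit 9) (nat_lit 4) (.split (nat_lit 8) (nat_lit 2) (.split (nat_lit 8) (nat_lit 3) (.split (nat_lit 8) (nat_lit 4) (.split (nat_lit 7) (nat_lit 4) .uj (.split (nat_lit 7) (nat_lit 4) (.sup (nat_lit 0x100040007000a0008) (nat_lit 0x300030007000a000800000000000000000000)) (.non (nat_lit 0) (nat_lit 6) (nat_lit 0xa8100) (nat_lit 0x1000100020000000000020000000000000000)))) (.split (nat_lit 7) (nat_lit 4) (.sup (nat_lit 0x100040007000a0008) (nat_lit 0x300010007000a000800000000000000000000)) (.non (nat_lit 0) (nat_lit 6) (nat_lit 0x14100) (nat_lit 0x100010000000000010000000000000000)))) (.split (nat_lit 8) (nat_lit 4) (.split (nat_lit 7) (nat_lit 4) (.sup (nat_lit 0x40008000e00140010) (nat_lit 0x70001000e0014001000000000000000000000)) (.non (nat_lit 0) (nat_lit 6) (nat_lit 0x14140) (nat_lit 0x100010000000000010001000000000000))) (.non (nat_lit 0) (nat_lit 6) (nat_lit 0x10140) (nat_lit 0x100000000000000010001000000000000))))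 (.split (nat_lit 8) (nat_lit 3) (.split (nat_lit 8) (nat_lit 4) (.split (nat_lit 7) (nat_lit 4) (.split (nat_lit 8) (nat_lit 2) (.sup (nat_lit 0x50009000e00140010) (nat_lit 0x70001000e0014001000000000000000000000)) (.non (nat_lit 0) (nat_lit 6) (nat_lit 0xa8050) (nat_lit 0x1000300020000000000000002000400000000))) (.non (nat_lit 0) (nat_lit 6) (nat_lit 0x14150) (nat_lit 0x100010000000000010001000100000000))) (.non (nat_lit 0) (nat_lit 6) (nat_lit 0x10150) (nat_lit 0x100000000000000010001000100000000))) (.non (nat_lit 0) (nat_lit 6) (nat_lit 0x10050) (nat_lit 0x100000000000000000001000100000000)))) (.split (nat_lit 8) (nat_lit 2) (.split (nat_lit 8) (nat_lit 3) (.split (nat_lit 8) (nat_lit 4) (.split (nat_lit 7) (nat_lit 4) (.sup (nat_lit 0x100040007000a0008) (nat_lit 0x100030007000a000800000000000000000000)) (.non (nat_lit 0) (nat_lit 6) (nat_lit 0x44100) (nat_lit 0x1000000010000000000010000000000000000))) (.non (nat_lit 0) (nat_lit 6) (nat_lit 0x54100) (nat_lit 0x1000100010000000000010000000000000000)))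 (.non (nat_lit 0) (nat_lit 6) (nat_lit 0x54140) (nat_lit 0x1000100010000000000010001000000000000))) (.non (nat_lit 0) (nat_lit 6) (nat_lit 0x54150) (nat_lit 0x1000100010000000000010001000100000000)))) (.split (nat_lit 9) (nat_lit 4) (.split (nat_lit 8) (nat_lit 2) (.split (nat_lit 8) (nat_lit 3) (.split (nat_lit 8) (nat_lit 4) (.split (nat_lit 7) (nat_lit 4) (.sup (nat_lit 0x40008000e00140010) (nat_lit 0x10007000e0014001000000000000000000000)) (.non (nat_lit 0) (nat_lit 6) (nat_lit 0x44140) (nat_lit 0x1000000010000000000010001000000000000))) (.non (nat_lit 0) (nat_lit 6) (nat_lit 0x54140) (nat_lit 0x1000100010000000000010001000000000000))) (.non (nat_lit 0) (nat_lit 6) (nat_lit 0x54040) (nat_lit 0x1000100010000000000000001000000000000))) (.non (nat_lit 0) (nat_lit 6) (nat_lit 0x54050) (nat_lit 0x1000100010000000000000001000100000000))) (.non (nat_lit 0) (nat_lit 6) (nat_lit 0x40140) (nat_lit 0x1000000000000000000010001000000000000))))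

noncomputable def t1550 : Tr := (.split (nat_lit 7) (nat_lit 3) (.split (nat_lit 6) (nat_lit 3) (.split (nat_lit 6) (nat_lit 4) (.split (nat_lit 5) (nat_lit 2) (.split (nat_lit 5) (nat_lit 3) (.split (nat_lit 5) (nat_lit 4) (.split (nat_lit 9) (nat_lit 2) t1550_1 (.split (nat_lit 9) (nat_lit 3) (.split (nat_lit 9) (nat_lit 4) (.split (nat_lit 8) (nat_lit 2) (.split (nat_lit 8) (nat_lit 3) (.split (nat_lit 8) (nat_lit 4) (.split (nat_lit 7) (nat_lit 4) (.split (nat_lit 9) (nat_lit 2) (.sup (nat_lit 0x50009000e00140010) (nat_lit 0x10007000e0014001000000000000000000000)) (.non (nat_lit 0) (nat_lit 6) (nat_lit 0xa8050) (nat_lit 0x3000100020000000000000002000400000000))) (.non (nat_lit 0) (nat_lit 6) (nat_lit 0x44150) (nat_lit 0x1000000010000000000010001000100000000))) (.non (nat_lit 0) (nat_lit 6) (nat_lit 0x54150) (nat_lit 0x1000100010000000000010001000100000000))) (.non (nat_lit 0) (nat_lit 6) (nat_lit 0x54050) (nat_lit 0x1000100010000000000000001000100000000))) (.non (nat_lit 0) (nat_lit 6) (nat_lit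 0x54010) (nat_lit 0x1000100010000000000000000000100000000))) (.non (nat_lit 0) (nat_lit 6) (nat_lit 0x40150) (nat_lit 0x1000000000000000000010001000100000000))) (.non (nat_lit 0) (nat_lit 6) (nat_lit 0x40050) (nat_lit 0x1000000000000000000000001000100000000)))) (.non (nat_lit 0) (nat_lit 7) (nat_lit 0x1550) (nat_lit 0x3000400030002000100000000))) (.non (nat_lit 0) (nat_lit 7) (nat_lit 0x1550) (nat_lit 0x2000200010002000100000000))) (.non (nat_lit 0) (nat_lit 7) (nat_lit 0x1550) (nat_lit 0x3000400010002000300000000))) (.non (nat_lit 0) (nat_lit 7) (nat_lit 0x1550) (nat_lit 0x4000300030002000100000000))) (.non (nat_lit 0) (nat_lit 7) (nat_lit 0x1550) (nat_lit 0x2000200010002000100000000))) (.non (nat_lit 0) (nat_lit 6) (nat_lit 0x54150) (nat_lit 0x1000100020000000000010002000100000000)))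

noncomputable def t1554_1 : Tr := (.pd (.cons (nat_lit 2) (nat_lit 5) (nat_lit 0) (nat_lit 0x8766033000) (nat_lit 0xf423fb71aea2c289896500000f423fb71ae00000f423f54591) (.cons (nat_lit 2) (nat_lit 6) (nat_lit 0) (nat_lit 0x5980333000) (nat_lit 0xa2c28b71aef423f0000098965f423f5572c00000f423f54591) (.cons (nat_lit 3) (nat_lit 5) (nat_lit 0) (nat_lit 0x8766040100) (nat_lit 0xf423fb71aea2c289896500000f423f00000f423fb71ae1f156) (.cons (nat_lit 3) (nat_lit 6) (nat_lit 0) (nat_lit 0x5980540100) (nat_lit 0xa2c28b71aef423f0000098965f423f00000f423fb71ae1f156) (.cons (nat_lit 4) (nat_lit 5) (nat_lit 0) (nat_lit 0x8766002100) (nat_lit 0xf423fb71aea2c28989650000000000f423fb71aea2c2804737) .nil))))) (.ex (nat_lit 6) (.pd (.cons (nat_lit 3) (nat_lit 7) (nat_lit 0) (nat_lit 0x5905540100) (nat_lit 0xb71aef423f00000f423f28b07f423f00000f423fb71ae1f156) (.cons (nat_lit 3) (nat_lit 8) (nat_lit 0) (nat_lit 0x5065540100) (nat_lit 0xf423f00000f423fb71ae14581f423f00000f423fb71ae1f156) (.cons (nat_lit 3) (nat_lit 9) (nat_lit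 0) (nat_lit 0x765540100) (nat_lit 0xf423fb71aea2c283d08bf423f00000f423fb71ae1f156) .nil))) (.leaf (.cons (nat_lit 0x42440) (nat_lit 0x1000000000001000200000001000000000000) (.cons (nat_lit 0x2a440) (nat_lit 0x100020003000400000002000000000000) (.cons (nat_lit 0x455) (nat_lit 0x100000002000300040003) .nil))) (.cons (nat_lit 0x1110111110) (nat_lit 0x1000001) (nat_lit 0xe) (nat_lit 0x5670410230) (.cons (nat_lit 0x1110111100) (nat_lit 0x1000010) (nat_lit 0xa) (nat_lit 0x4560320100) .nil)))) (.split (nat_lit 0xa) (nat_lit 0) (.split (nat_lit 0xa) (nat_lit 1) (.split (nat_lit 0xa) (nat_lit 2) (.split (nat_lit 0xa) (nat_lit 3) (.split (nat_lit 0xa) (nat_lit 4) (.split (nat_lit 0xa) (nat_lit 5) (.split (nat_lit 0xa) (nat_lit 7) (.split (nat_lit 0xa) (nat_lit 8) (.split (nat_lit 0xa) (nat_lit 9) (.leaf (.cons (nat_lit 0x252400) (nat_lit 0x10002000100000002000300000000000000000000) (.cons (nat_lit 0x20a400) (nat_lit 0x10000000000010002000200000000000000000000) (.cons (nat_lit 0x455) (nat_lit 0x100000002000300040003)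 .nil))) (.cons (nat_lit 0x1110111110) (nat_lit 0x1000001) (nat_lit 0xe) (nat_lit 0x5670410230) (.cons (nat_lit 0x1110111100) (nat_lit 0x1000010) (nat_lit 0xa) (nat_lit 0x4560320100) .nil))) (.non (nat_lit 0) (nat_lit 5) (nat_lit 0x155000) (nat_lit 0x10001000100010001000000000000000000000000))) (.non (nat_lit 0) (nat_lit 5) (nat_lit 0x115000) (nat_lit 0x10000000100010001000000000000000000000000))) (.non (nat_lit 0) (nat_lit 5) (nat_lit 0x105000) (nat_lit 0x10000000000010001000000000000000000000000))) (.non (nat_lit 0) (nat_lit 6) (nat_lit 0x140550) (nat_lit 0x10001000000000000000200010002000100000000))) (.non (nat_lit 0) (nat_lit 6) (nat_lit 0x140554) (nat_lit 0x10001000000000000000200020003000200010000))) (.non (nat_lit 0) (nat_lit 5) (nat_lit 0x155154) (nat_lit 0x50001000200030004000000030006000400020000))) (.non (nat_lit 0) (nat_lit 5) (nat_lit 0x155154) (nat_lit 0x50001000200030004000000020004000600030000))) (.star (nat_lit 0xa) (nat_lit 1) (nat_lit 6))) (.star (nat_lit 0xa) (nat_lit 0) (nat_lit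 6)))))

noncomputable def t1554_2 : Tr := (.st (nat_lit 1) (nat_lit 0) (nat_lit 6) (nat_lit 0x50554) (nat_lit 0x2000100000000000300020004000300020000) (nat_lit 1) (nat_lit 1) (.st (nat_lit 2) (nat_lit 0) (nat_lit 6) (nat_lit 0x554) (nat_lit 0x100010002000200010000) (nat_lit 1) (nat_lit 1) (.st (nat_lit 3) (nat_lit 0) (nat_lit 6) (nat_lit 0x550) (nat_lit 0x100010002000100000000) (nat_lit 1) (nat_lit 1) (.st (nat_lit 5) (nat_lit 0) (nat_lit 6) (nat_lit 0x40550) (nat_lit 0x1000000000000000200010002000100000000) (nat_lit 1) (nat_lit 1) (.st (nat_lit 7) (nat_lit 0) (nat_lit 6) (nat_lit 0x54554) (nat_lit 0x4000300020000000500030006000400020000) (nat_lit 1) (nat_lit 1) (.st (nat_lit 8) (nat_lit 0) (nat_lit 6) (nat_lit 0x54550) (nat_lit 0x2000200010000000200010002000100000000) (nat_lit 1) (nat_lit 1) (.st (nat_lit 9) (nat_lit 0) (nat_lit 6) (nat_lit 0x50550) (nat_lit 0x2000100000000000200010002000100000000) (nat_lit 1) (nat_lit 1) (.st (nat_lit 4) (nat_lit 0) (nat_lit 6) (nat_lit 0x40554) (nat_lit 0x1000000000000000200020003000200010000)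 (nat_lit 1) (nat_lit 1) (.ex (nat_lit 0) (.split (nat_lit 4) (nat_lit 3) (.split (nat_lit 5) (nat_lit 3) t1554_1 (.non (nat_lit 0) (nat_lit 6) (nat_lit 0xa0940) (nat_lit 0x2000100000000000300020004000000000000))) (.non (nat_lit 0) (nat_lit 6) (nat_lit 0x650) (nat_lit 0x100010002000100000000))) (.split (nat_lit 0xa) (nat_lit 1) (.split (nat_lit 0xa) (nat_lit 2) (.split (nat_lit 0xa) (nat_lit 3) (.split (nat_lit 0xa) (nat_lit 4) (.split (nat_lit 0xa) (nat_lit 5) (.split (nat_lit 0xa) (nat_lit 6) (.split (nat_lit 0xa) (nat_lit 7) (.split (nat_lit 0xa) (nat_lit 8) (.split (nat_lit 0xa) (nat_lit 9) (.unj (nat_lit 0x100015) (nat_lit 0x10000000000000000000000000000000100020002) (nat_lit 0x55400) (nat_lit 0x1000100010001000100000000000000000000)) (.non (nat_lit 0) (nat_lit 6) (nat_lit 0x150550) (nat_lit 0x10002000100000000000200010002000100000000))) (.non (nat_lit 0) (nat_lit 6) (nat_lit 0x154550) (nat_lit 0x10002000200010000000200010002000100000000))) (.non (nat_lit 0) (nat_lit 6) (nat_lit 0x154554) (nat_lit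 0x10004000300020000000500030006000400020000))) (.star (nat_lit 0xa) (nat_lit 0) (nat_lit 6))) (.star (nat_lit 0xa) (nat_lit 0) (nat_lit 5))) (.non (nat_lit 0) (nat_lit 6) (nat_lit 0x140554) (nat_lit 0x10001000000000000000200020003000200010000))) (.non (nat_lit 0) (nat_lit 6) (nat_lit 0x100550) (nat_lit 0x10000000000000000000100010002000100000000))) (.non (nat_lit 0) (nat_lit 6) (nat_lit 0x100554) (nat_lit 0x10000000000000000000100010002000200010000))) (.non (nat_lit 0) (nat_lit 6) (nat_lit 0x150554) (nat_lit 0x10002000100000000000300020004000300020000))))))))))))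

noncomputable def t1554_3 : Tr := (.ex (nat_lit 2) (.pd (.cons (nat_lit 3) (nat_lit 5) (nat_lit 0) (nat_lit 0x8764040100) (nat_lit 0xf423fb71aea2c289896500000927bd00000f423fb71ae1f156) (.cons (nat_lit 3) (nat_lit 6) (nat_lit 0) (nat_lit 0x5980440100) (nat_lit 0xa2c28b71aef423f0000098965927bd00000f423fb71ae1f156) (.cons (nat_lit 4) (nat_lit 5) (nat_lit 0) (nat_lit 0x8766002100) (nat_lit 0xf423fb71aea2c28989650000000000f423fb71aea2c2804737) (.cons (nat_lit 4) (nat_lit 6) (nat_lit 0) (nat_lit 0x5980502100) (nat_lit 0xa2c28b71aef423f000009896500000f423fb71aea2c2804737) (.cons (nat_lit 4) (nat_lit 8) (nat_lit 0) (nat_lit 0x5065502100) (nat_lit 0xf423f00000f423fb71ae1458100000f423fb71aea2c2804737) .nil))))) (.ex (nat_lit 8) (.pd (.cons (nat_lit 4) (nat_lit 7) (nat_lit 0) (nat_lit 0x5905502100) (nat_lit 0xb71aef423f00000f423f28b0700000f423fb71aea2c2804737) (.cons (nat_lit 4) (nat_lit 9) (nat_lit 0) (nat_lit 0x765502100) (nat_lit 0xf423fb71aea2c283d08b00000f423fb71aea2c2804737) .nil)) (.leaf (.cons (nat_lit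 0x1500) (nat_lit 0x1000100010000000000000000) .nil) .nil)) (.split (nat_lit 0xa) (nat_lit 0) (.split (nat_lit 0xa) (nat_lit 1) (.split (nat_lit 0xa) (nat_lit 2) (.split (nat_lit 0xa) (nat_lit 3) (.split (nat_lit 0xa) (nat_lit 4) (.split (nat_lit 0xa) (nat_lit 5) (.split (nat_lit 0xa) (nat_lit 6) (.split (nat_lit 0xa) (nat_lit 7) (.split (nat_lit 0xa) (nat_lit 9) (.sup (nat_lit 0x10006000b0010000d) (nat_lit 0x20002000300020002000200000000000000000000)) (.non (nat_lit 0) (nat_lit 5) (nat_lit 0x150000) (nat_lit 0x10001000100000000000000000000000000000000))) (.non (nat_lit 0) (nat_lit 5) (nat_lit 0x114000) (nat_lit 0x10000000100010000000000000000000000000000))) (.non (nat_lit 0) (nat_lit 5) (nat_lit 0x115000) (nat_lit 0x10000000100010001000000000000000000000000))) (.non (nat_lit 0) (nat_lit 6) (nat_lit 0x150400) (nat_lit 0x10001000100000000000100000000000000000000))) (.non (nat_lit 0) (nat_lit 5) (nat_lit 0x115100) (nat_lit 0x10000000100010001000000010000000000000000))) (.non (nat_lit 0) (nat_lit 5)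 (nat_lit 0x115140) (nat_lit 0x10000000100010001000000010001000000000000))) (.non (nat_lit 0) (nat_lit 5) (nat_lit 0x115150) (nat_lit 0x10000000100010001000000010001000100000000))) (.non (nat_lit 0) (nat_lit 5) (nat_lit 0x155114) (nat_lit 0x30002000400030002000000010000000100020000))) (.non (nat_lit 1) (nat_lit 5) (nat_lit 0x155151) (nat_lit 0x40003000600050004000000030002000100000002))))) (.split (nat_lit 0xa) (nat_lit 1) (.split (nat_lit 0xa) (nat_lit 3) (.split (nat_lit 0xa) (nat_lit 4) (.split (nat_lit 0xa) (nat_lit 5) (.split (nat_lit 0xa) (nat_lit 6) (.split (nat_lit 0xa) (nat_lit 7) (.split (nat_lit 0xa) (nat_lit 8) (.split (nat_lit 0xa) (nat_lit 9) (.split (nat_lit 0xa) (nat_lit 0) (.unj (nat_lit 0x100055) (nat_lit 0x10000000000000000000000000001000200020002) (nat_lit 0x55400) (nat_lit 0x1000100010001000100000000000000000000)) (.unj (nat_lit 0x1500) (nat_lit 0x1000100010000000000000000) (nat_lit 0x100015) (nat_lit 0x10000000000000000000000000000000100010001))) (.non (nat_lit 0) (nat_lit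 5) (nat_lit 0x155150) (nat_lit 0x10001000100010001000000010001000100000000))) (.non (nat_lit 0) (nat_lit 5) (nat_lit 0x115150) (nat_lit 0x10000000100010001000000010001000100000000))) (.non (nat_lit 0) (nat_lit 5) (nat_lit 0x155110) (nat_lit 0x20001000200030002000000010000000100000000))) (.non (nat_lit 0) (nat_lit 5) (nat_lit 0x101150) (nat_lit 0x10000000000000001000000010001000100000000))) (.non (nat_lit 0) (nat_lit 6) (nat_lit 0x100550) (nat_lit 0x10000000000000000000100010001000100000000))) (.non (nat_lit 0) (nat_lit 5) (nat_lit 0x100150) (nat_lit 0x10000000000000000000000010001000100000000))) (.non (nat_lit 0) (nat_lit 5) (nat_lit 0x100050) (nat_lit 0x10000000000000000000000000001000100000000))) (.non (nat_lit 0) (nat_lit 5) (nat_lit 0x100014) (nat_lit 0x10000000000000000000000000000000100010000))))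

noncomputable def t1554_4 : Tr := (.ex (nat_lit 0) (.ex (nat_lit 1) (.split (nat_lit 4) (nat_lit 3) (.split (nat_lit 6) (nat_lit 4) (.split (nat_lit 5) (nat_lit 4) (.pd (.cons (nat_lit 2) (nat_lit 5) (nat_lit 0) (nat_lit 0x8764033000) (nat_lit 0xf423fb71aea2c289896500000927bd8e6a200000f423f54591) (.cons (nat_lit 2) (nat_lit 6) (nat_lit 0) (nat_lit 0x5980433000) (nat_lit 0xa2c28b71aef423f0000098965927bd8e6a200000f423f54591) .nil)) t1554_3) (.non (nat_lit 0) (nat_lit 6) (nat_lit 0xa0940) (nat_lit 0x2000100000000000300040002000000000000))) (.non (nat_lit 0) (nat_lit 5) (nat_lit 0x2a140) (nat_lit 0x100020003000000040002000000000000))) (.non (nat_lit 0) (nat_lit 5) (nat_lit 0xa250) (nat_lit 0x10002000000030004000200000000))) (.split (nat_lit 0xa) (nat_lit 2) (.split (nat_lit 0xa) (nat_lit 3) (.split (nat_lit 0xa) (nat_lit 4) (.split (nat_lit 0xa) (nat_lit 5) (.split (nat_lit 0xa) (nat_lit 6) (.split (nat_lit 0xa) (nat_lit 7) (.split (nat_lit 0xa) (nat_lit 8) (.split (nat_lit 0xa) (nat_lit 9) (.split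 (nat_lit 0xa) (nat_lit 0) (.unj (nat_lit 0x1500) (nat_lit 0x1000100010000000000000000) (nat_lit 0x100015) (nat_lit 0x10000000000000000000000000000000100020002)) (.unj (nat_lit 0x100005) (nat_lit 0x10000000000000000000000000000000000010001) (nat_lit 0x1500) (nat_lit 0x1000100010000000000000000))) (.non (nat_lit 0) (nat_lit 5) (nat_lit 0x155154) (nat_lit 0x10001000100010001000000010001000100010000))) (.non (nat_lit 0) (nat_lit 5) (nat_lit 0x155114) (nat_lit 0x30002000400030002000000010000000100020000))) (.non (nat_lit 0) (nat_lit 5) (nat_lit 0x155104) (nat_lit 0x20001000200030002000000010000000000010000))) (.star (nat_lit 0xa) (nat_lit 1) (nat_lit 6))) (.star (nat_lit 0xa) (nat_lit 1) (nat_lit 5))) (.non (nat_lit 0) (nat_lit 5) (nat_lit 0x100154) (nat_lit 0x10000000000000000000000010001000100010000))) (.non (nat_lit 0) (nat_lit 5) (nat_lit 0x100054) (nat_lit 0x10000000000000000000000000001000100010000))) (.non (nat_lit 0) (nat_lit 5) (nat_lit 0x100014) (nat_lit 0x10000000000000000000000000000000100010000))))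 (.split (nat_lit 0xa) (nat_lit 3) (.split (nat_lit 0xa) (nat_lit 4) (.split (nat_lit 0xa) (nat_lit 5) (.split (nat_lit 0xa) (nat_lit 6) (.split (nat_lit 0xa) (nat_lit 7) (.split (nat_lit 0xa) (nat_lit 8) (.split (nat_lit 0xa) (nat_lit 9) (.split (nat_lit 0xa) (nat_lit 1) (.split (nat_lit 0xa) (nat_lit 2) (.unj (nat_lit 0x1500) (nat_lit 0x1000100010000000000000000) (nat_lit 0x100015) (nat_lit 0x10000000000000000000000000000000100020002)) (.unj (nat_lit 0x1500) (nat_lit 0x1000100010000000000000000) (nat_lit 0x100015) (nat_lit 0x10000000000000000000000000000000100010001))) (.split (nat_lit 0xa) (nat_lit 2) (.unj (nat_lit 0x100005) (nat_lit 0x10000000000000000000000000000000000010001) (nat_lit 0x1500) (nat_lit 0x1000100010000000000000000)) (.non (nat_lit 0) (nat_lit 5) (nat_lit 0x100014) (nat_lit 0x10000000000000000000000000000000100010000)))) (.non (nat_lit 0) (nat_lit 6) (nat_lit 0x154554) (nat_lit 0x30006000400020000000500040003000200010000))) (.non (nat_lit 1) (nat_lit 5) (nat_lit 0x155151) (nat_lit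 0x40003000600050004000000030002000100000002))) (.non (nat_lit 0) (nat_lit 5) (nat_lit 0x155154) (nat_lit 0x30002000400060005000000040003000200010000))) (.star (nat_lit 0xa) (nat_lit 0) (nat_lit 6))) (.star (nat_lit 0xa) (nat_lit 0) (nat_lit 5))) (.non (nat_lit 0) (nat_lit 5) (nat_lit 0x115154) (nat_lit 0x20000000100020003000000040003000200010000))) (.non (nat_lit 0) (nat_lit 5) (nat_lit 0x155154) (nat_lit 0x30001000200030004000000050006000400020000))))

noncomputable def t1554_5 : Tr := (.ex (nat_lit 0) (.split (nat_lit 4) (nat_lit 3) (.split (nat_lit 6) (nat_lit 4) (.split (nat_lit 5) (nat_lit 3) (.pd (.cons (nat_lit 2) (nat_lit 5) (nat_lit 0) (nat_lit 0x8764033000) (nat_lit 0xf423fb71aea2c289896500000927bd8e6a200000f423f54591) (.cons (nat_lit 2) (nat_lit 6) (nat_lit 0) (nat_lit 0x5980333000) (nat_lit 0xa2c28b71aef423f0000098965f423f5572c00000f423f54591) (.cons (nat_lit 3) (nat_lit 5) (nat_lit 0) (nat_lit 0x8764040100) (nat_lit 0xf423fb71aea2c289896500000927bd00000f423fb71ae1f156) (.cons (nat_lit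 3) (nat_lit 6) (nat_lit 0) (nat_lit 0x5980540100) (nat_lit 0xa2c28b71aef423f0000098965f423f00000f423fb71ae1f156) (.cons (nat_lit 4) (nat_lit 5) (nat_lit 0) (nat_lit 0x8766002100) (nat_lit 0xf423fb71aea2c28989650000000000f423fb71aea2c2804737) .nil))))) (.leaf (.cons (nat_lit 0xa1900) (nat_lit 0x2000100000004000300020000000000000000) (.cons (nat_lit 0x5900) (nat_lit 0x10002000100010000000000000000) (.cons (nat_lit 0x455) (nat_lit 0x100000002000300040003) .nil))) .nil)) (.non (nat_lit 0) (nat_lit 6) (nat_lit 0xa0940) (nat_lit 0x2000100000000000300020004000000000000))) (.non (nat_lit 0) (nat_lit 5) (nat_lit 0x2a140) (nat_lit 0x100020003000000040002000000000000))) (.non (nat_lit 0) (nat_lit 5) (nat_lit 0xa250) (nat_lit 0x10002000000030004000200000000))) (.split (nat_lit 0xa) (nat_lit 1) (.split (nat_lit 0xa) (nat_lit 2) (.split (nat_lit 0xa) (nat_lit 3) (.split (nat_lit 0xa) (nat_lit 4) (.split (nat_lit 0xa) (nat_lit 5) (.split (nat_lit 0xa) (nat_lit 6) (.split (nat_lit 0xa) (nat_lit 7) (.split (nat_lit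 0xa) (nat_lit 8) (.split (nat_lit 0xa) (nat_lit 9) (.unj (nat_lit 0x100015) (nat_lit 0x10000000000000000000000000000000100020002) (nat_lit 0x5900) (nat_lit 0x10002000100010000000000000000)) (.non (nat_lit 0) (nat_lit 6) (nat_lit 0x150550) (nat_lit 0x10002000100000000000200010002000100000000))) (.non (nat_lit 0) (nat_lit 6) (nat_lit 0x154550) (nat_lit 0x10002000200010000000200010002000100000000))) (.non (nat_lit 0) (nat_lit 5) (nat_lit 0x155154) (nat_lit 0x30002000400060005000000040003000200010000))) (.star (nat_lit 0xa) (nat_lit 0) (nat_lit 6))) (.star (nat_lit 0xa) (nat_lit 0) (nat_lit 5))) (.non (nat_lit 0) (nat_lit 5) (nat_lit 0x115154) (nat_lit 0x20000000100020003000000040003000200010000))) (.non (nat_lit 0) (nat_lit 5) (nat_lit 0x155154) (nat_lit 0x30001000200030004000000050006000400020000))) (.non (nat_lit 0) (nat_lit 6) (nat_lit 0x100554) (nat_lit 0x10000000000000000000100010002000200010000))) (.non (nat_lit 0) (nat_lit 6) (nat_lit 0x150554) (nat_lit 0x10002000100000000000300020004000300020000))))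

noncomputable def t1554_6 : Tr := (.pd (.cons (nat_lit 2) (nat_lit 5) (nat_lit 0) (nat_lit 0x8763033000) (nat_lit 0xf423fb71aea2c289896500000f423f5572c00000f423f54591) (.cons (nat_lit 2) (nat_lit 6) (nat_lit 0) (nat_lit 0x5980533000) (nat_lit 0xa2c28b71aef423f0000098965f423fb71ae00000f423f54591) (.cons (nat_lit 3) (nat_lit 5) (nat_lit 0) (nat_lit 0x8766040100) (nat_lit 0xf423fb71aea2c289896500000f423f00000f423fb71ae1f156) (.cons (nat_lit 3) (nat_lit 6) (nat_lit 0) (nat_lit 0x5980540100) (nat_lit 0xa2c28b71aef423f0000098965f423f00000f423fb71ae1f156) (.cons (nat_lit 4) (nat_lit 6) (nat_lit 0) (nat_lit 0x5980502100) (nat_lit 0xa2c28b71aef423f000009896500000f423fb71aea2c2804737) .nil))))) (.ex (nat_lit 5) (.pd (.cons (nat_lit 3) (nat_lit 7) (nat_lit 0) (nat_lit 0x5905540100) (nat_lit 0xb71aef423f00000f423f28b07f423f00000f423fb71ae1f156) (.cons (nat_lit 3) (nat_lit 8) (nat_lit 0) (nat_lit 0x5065540100) (nat_lit 0xf423f00000f423fb71ae14581f423f00000f423fb71ae1f156) (.cons (nat_lit 3) (nat_lit 9) (nat_lit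 0) (nat_lit 0x765540100) (nat_lit 0xf423fb71aea2c283d08bf423f00000f423fb71ae1f156) .nil))) (.leaf (.cons (nat_lit 0xa1840) (nat_lit 0x2000100000004000300000002000000000000) (.cons (nat_lit 0x5840) (nat_lit 0x10002000100000001000000000000) (.cons (nat_lit 0x1055) (nat_lit 0x1000000000002000300040003) .nil))) (.cons (nat_lit 0x1111011110) (nat_lit 0x100001) (nat_lit 0xe) (nat_lit 0x7654010230) (.cons (nat_lit 0x1111011100) (nat_lit 0x100010) (nat_lit 0xa) (nat_lit 0x6543020100) .nil)))) (.split (nat_lit 0xa) (nat_lit 0) (.split (nat_lit 0xa) (nat_lit 1) (.split (nat_lit 0xa) (nat_lit 2) (.split (nat_lit 0xa) (nat_lit 3) (.split (nat_lit 0xa) (nat_lit 4) (.split (nat_lit 0xa) (nat_lit 6) (.split (nat_lit 0xa) (nat_lit 7) (.split (nat_lit 0xa) (nat_lit 8) (.split (nat_lit 0xa) (nat_lit 9) (.leaf (.cons (nat_lit 0x142400) (nat_lit 0x10001000000000001000200000000000000000000) (.cons (nat_lit 0x12a400) (nat_lit 0x20000000100020003000400000000000000000000) (.cons (nat_lit 0x1055) (nat_lit 0x1000000000002000300040003)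 .nil))) (.cons (nat_lit 0x1111011110) (nat_lit 0x100001) (nat_lit 0xe) (nat_lit 0x7654010230) (.cons (nat_lit 0x1111011100) (nat_lit 0x100010) (nat_lit 0xa) (nat_lit 0x6543020100) .nil))) (.non (nat_lit 0) (nat_lit 5) (nat_lit 0x155154) (nat_lit 0x10002000300040005000000030006000400020000))) (.non (nat_lit 0) (nat_lit 5) (nat_lit 0x155150) (nat_lit 0x10001000200020002000000010002000100000000))) (.non (nat_lit 0) (nat_lit 5) (nat_lit 0x115150) (nat_lit 0x10000000100020002000000010002000100000000))) (.non (nat_lit 0) (nat_lit 5) (nat_lit 0x105150) (nat_lit 0x10000000000010002000000010002000100000000))) (.non (nat_lit 0) (nat_lit 5) (nat_lit 0x105154) (nat_lit 0x10000000000010002000000020003000200010000))) (.non (nat_lit 0) (nat_lit 5) (nat_lit 0x101150) (nat_lit 0x10000000000000001000000010002000100000000))) (.non (nat_lit 0) (nat_lit 5) (nat_lit 0x101154) (nat_lit 0x10000000000000001000000010002000200010000))) (.star (nat_lit 0xa) (nat_lit 1) (nat_lit 5))) (.star (nat_lit 0xa) (nat_lit 0) (nat_lit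 5)))))

noncomputable def t1554_7 : Tr := (.st (nat_lit 1) (nat_lit 0) (nat_lit 5) (nat_lit 0x15154) (nat_lit 0x100020003000000020004000300020000) (nat_lit 1) (nat_lit 1) (.st (nat_lit 2) (nat_lit 0) (nat_lit 5) (nat_lit 0x1154) (nat_lit 0x1000000010002000200010000) (nat_lit 1) (nat_lit 1) (.st (nat_lit 3) (nat_lit 0) (nat_lit 5) (nat_lit 0x1150) (nat_lit 0x1000000010002000100000000) (nat_lit 1) (nat_lit 1) (.st (nat_lit 6) (nat_lit 0) (nat_lit 5) (nat_lit 0x5150) (nat_lit 0x10002000000010002000100000000) (nat_lit 1) (nat_lit 1) (.st (nat_lit 7) (nat_lit 0) (nat_lit 5) (nat_lit 0x15150) (nat_lit 0x100020002000000010002000100000000) (nat_lit 1) (nat_lit 1) (.st (nat_lit 8) (nat_lit 0) (nat_lit 5) (nat_lit 0x55150) (nat_lit 0x1000200020002000000010002000100000000) (nat_lit 1) (nat_lit 1) (.st (nat_lit 9) (nat_lit 0) (nat_lit 5) (nat_lit 0x55154) (nat_lit 0x2000300040005000000030006000400020000) (nat_lit 1) (nat_lit 1) (.st (nat_lit 4) (nat_lit 0) (nat_lit 5) (nat_lit 0x5154) (nat_lit 0x10002000000020003000200010000)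 (nat_lit 1) (nat_lit 1) (.ex (nat_lit 0) (.split (nat_lit 4) (nat_lit 3) (.split (nat_lit 6) (nat_lit 3) t1554_6 (.non (nat_lit 0) (nat_lit 5) (nat_lit 0x2a140) (nat_lit 0x100020003000000020004000000000000))) (.non (nat_lit 0) (nat_lit 5) (nat_lit 0x1250) (nat_lit 0x1000000010002000100000000))) (.split (nat_lit 0xa) (nat_lit 1) (.split (nat_lit 0xa) (nat_lit 2) (.split (nat_lit 0xa) (nat_lit 3) (.split (nat_lit 0xa) (nat_lit 4) (.split (nat_lit 0xa) (nat_lit 5) (.split (nat_lit 0xa) (nat_lit 6) (.split (nat_lit 0xa) (nat_lit 7) (.split (nat_lit 0xa) (nat_lit 8) (.split (nat_lit 0xa) (nat_lit 9) (.unj (nat_lit 0x100015) (nat_lit 0x10000000000000000000000000000000100020002) (nat_lit 0x55400) (nat_lit 0x1000100010001000100000000000000000000)) (.non (nat_lit 0) (nat_lit 5) (nat_lit 0x155154) (nat_lit 0x10002000300040005000000030006000400020000))) (.non (nat_lit 0) (nat_lit 5) (nat_lit 0x155150) (nat_lit 0x10001000200020002000000010002000100000000))) (.non (nat_lit 0) (nat_lit 5) (nat_lit 0x115150)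 (nat_lit 0x10000000100020002000000010002000100000000))) (.star (nat_lit 0xa) (nat_lit 0) (nat_lit 6))) (.star (nat_lit 0xa) (nat_lit 0) (nat_lit 5))) (.non (nat_lit 0) (nat_lit 5) (nat_lit 0x105154) (nat_lit 0x10000000000010002000000020003000200010000))) (.non (nat_lit 0) (nat_lit 5) (nat_lit 0x101150) (nat_lit 0x10000000000000001000000010002000100000000))) (.non (nat_lit 0) (nat_lit 5) (nat_lit 0x101154) (nat_lit 0x10000000000000001000000010002000200010000))) (.non (nat_lit 0) (nat_lit 5) (nat_lit 0x115154) (nat_lit 0x10000000100020003000000020004000300020000))))))))))))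

noncomputable def t1554_8 : Tr := (.ex (nat_lit 0) (.split (nat_lit 4) (nat_lit 3) (.split (nat_lit 6) (nat_lit 3) (.split (nat_lit 5) (nat_lit 4) (.pd (.cons (nat_lit 2) (nat_lit 5) (nat_lit 0) (nat_lit 0x8763033000) (nat_lit 0xf423fb71aea2c289896500000f423f5572c00000f423f54591) (.cons (nat_lit 2) (nat_lit 6) (nat_lit 0) (nat_lit 0x5980433000) (nat_lit 0xa2c28b71aef423f0000098965927bd8e6a200000f423f54591) (.cons (nat_lit 3) (nat_lit 5) (nat_lit 0) (nat_lit 0x8766040100) (nat_lit 0xf423fb71aea2c289896500000f423f00000f423fb71ae1f156) (.cons (nat_lit 3) (nat_lit 6) (nat_lit 0) (nat_lit 0x5980440100) (nat_lit 0xa2c28b71aef423f0000098965927bd00000f423fb71ae1f156) (.cons (nat_lit 4) (nat_lit 6) (nat_lit 0) (nat_lit 0x5980502100) (nat_lit 0xa2c28b71aef423f000009896500000f423fb71aea2c2804737) .nil))))) (.leaf (.cons (nat_lit 0x42500) (nat_lit 0x1000000000001000200010000000000000000) (.cons (nat_lit 0x2a500) (nat_lit 0x100020003000400020000000000000000) (.cons (nat_lit 0x1055) (nat_lit 0x1000000000002000300040003)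 .nil))) .nil)) (.non (nat_lit 0) (nat_lit 6) (nat_lit 0xa0940) (nat_lit 0x2000100000000000300040002000000000000))) (.non (nat_lit 0) (nat_lit 5) (nat_lit 0x2a140) (nat_lit 0x100020003000000020004000000000000))) (.non (nat_lit 0) (nat_lit 5) (nat_lit 0x1250) (nat_lit 0x1000000010002000100000000))) (.split (nat_lit 0xa) (nat_lit 1) (.split (nat_lit 0xa) (nat_lit 2) (.split (nat_lit 0xa) (nat_lit 3) (.split (nat_lit 0xa) (nat_lit 4) (.split (nat_lit 0xa) (nat_lit 5) (.split (nat_lit 0xa) (nat_lit 6) (.split (nat_lit 0xa) (nat_lit 7) (.split (nat_lit 0xa) (nat_lit 8) (.split (nat_lit 0xa) (nat_lit 9) (.unj (nat_lit 0x100015) (nat_lit 0x10000000000000000000000000000000100020002) (nat_lit 0x42500) (nat_lit 0x1000000000001000200010000000000000000)) (.non (nat_lit 0) (nat_lit 5) (nat_lit 0x155154) (nat_lit 0x10002000300040005000000030006000400020000))) (.non (nat_lit 0) (nat_lit 5) (nat_lit 0x155150) (nat_lit 0x10001000200020002000000010002000100000000))) (.non (nat_lit 0) (nat_lit 5) (nat_lit 0x115150)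 (nat_lit 0x10000000100020002000000010002000100000000))) (.star (nat_lit 0xa) (nat_lit 0) (nat_lit 6))) (.star (nat_lit 0xa) (nat_lit 0) (nat_lit 5))) (.non (nat_lit 0) (nat_lit 5) (nat_lit 0x105154) (nat_lit 0x10000000000010002000000020003000200010000))) (.non (nat_lit 0) (nat_lit 5) (nat_lit 0x101150) (nat_lit 0x10000000000000001000000010002000100000000))) (.non (nat_lit 0) (nat_lit 5) (nat_lit 0x101154) (nat_lit 0x10000000000000001000000010002000200010000))) (.non (nat_lit 0) (nat_lit 5) (nat_lit 0x115154) (nat_lit 0x10000000100020003000000020004000300020000))))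

noncomputable def t1554_9 : Tr := (.ex (nat_lit 0) (.split (nat_lit 4) (nat_lit 3) (.split (nat_lit 6) (nat_lit 3) (.split (nat_lit 5) (nat_lit 3) (.pd (.cons (nat_lit 2) (nat_lit 5) (nat_lit 0) (nat_lit 0x8763033000) (nat_lit 0xf423fb71aea2c289896500000f423f5572c00000f423f54591) (.cons (nat_lit 2) (nat_lit 6) (nat_lit 0) (nat_lit 0x5980333000) (nat_lit 0xa2c28b71aef423f0000098965f423f5572c00000f423f54591) (.cons (nat_lit 3) (nat_lit 5) (nat_lit 0) (nat_lit 0x8766040100) (nat_lit 0xf423fb71aea2c289896500000f423f00000f423fb71ae1f156) (.cons (nat_lit 3) (nat_lit 6) (nat_lit 0) (nat_lit 0x5980540100) (nat_lit 0xa2c28b71aef423f0000098965f423f00000f423fb71ae1f156) (.cons (nat_lit 3) (nat_lit 7) (nat_lit 0) (nat_lit 0x5905540100) (nat_lit 0xb71aef423f00000f423f28b07f423f00000f423fb71ae1f156) (.cons (nat_lit 3) (nat_lit 8) (nat_lit 0) (nat_lit 0x5065540100) (nat_lit 0xf423f00000f423fb71ae14581f423f00000f423fb71ae1f156) (.cons (nat_lit 3) (nat_lit 9) (nat_lit 0) (nat_lit 0x765540100) (nat_lit 0xf423fb71aea2c283d08bf423f00000f423fb71ae1f156)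 .nil))))))) (.leaf (.cons (nat_lit 0x1440) (nat_lit 0x1000100000001000000000000) (.cons (nat_lit 0x1055) (nat_lit 0x1000000000002000300040003) (.cons (nat_lit 0x455) (nat_lit 0x100000002000300040003) .nil))) .nil)) (.non (nat_lit 0) (nat_lit 6) (nat_lit 0xa0940) (nat_lit 0x2000100000000000300020004000000000000))) (.non (nat_lit 0) (nat_lit 5) (nat_lit 0x2a140) (nat_lit 0x100020003000000020004000000000000))) (.non (nat_lit 0) (nat_lit 5) (nat_lit 0x1250) (nat_lit 0x1000000010002000100000000))) (.split (nat_lit 0xa) (nat_lit 1) (.split (nat_lit 0xa) (nat_lit 2) (.split (nat_lit 0xa) (nat_lit 3) (.split (nat_lit 0xa) (nat_lit 4) (.split (nat_lit 0xa) (nat_lit 5) (.split (nat_lit 0xa) (nat_lit 6) (.split (nat_lit 0xa) (nat_lit 7) (.split (nat_lit 0xa) (nat_lit 8) (.split (nat_lit 0xa) (nat_lit 9) (.unj (nat_lit 0x100015) (nat_lit 0x10000000000000000000000000000000100020002) (nat_lit 0x55400) (nat_lit 0x1000100010001000100000000000000000000)) (.non (nat_lit 0) (nat_lit 5) (nat_lit 0x155154) (nat_lit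 0x10002000300040005000000030006000400020000))) (.non (nat_lit 0) (nat_lit 5) (nat_lit 0x155150) (nat_lit 0x10001000200020002000000010002000100000000))) (.non (nat_lit 0) (nat_lit 5) (nat_lit 0x115150) (nat_lit 0x10000000100020002000000010002000100000000))) (.star (nat_lit 0xa) (nat_lit 0) (nat_lit 6))) (.star (nat_lit 0xa) (nat_lit 0) (nat_lit 5))) (.non (nat_lit 0) (nat_lit 5) (nat_lit 0x105154) (nat_lit 0x10000000000010002000000020003000200010000))) (.non (nat_lit 0) (nat_lit 5) (nat_lit 0x101150) (nat_lit 0x10000000000000001000000010002000100000000))) (.non (nat_lit 0) (nat_lit 5) (nat_lit 0x101154) (nat_lit 0x10000000000000001000000010002000200010000))) (.non (nat_lit 0) (nat_lit 5) (nat_lit 0x115154) (nat_lit 0x10000000100020003000000020004000300020000))))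

noncomputable def t1554_10 : Tr := (.split (nat_lit 6) (nat_lit 3) (.split (nat_lit 6) (nat_lit 4) (.split (nat_lit 5) (nat_lit 3) (.split (nat_lit 5) (nat_lit 4) .uj (.split (nat_lit 5) (nat_lit 4) (.sup (nat_lit 0x100040007000a0008) (nat_lit 0x800090009000a000800000000000000000000)) (.non (nat_lit 0) (nat_lit 6) (nat_lit 0xa0940) (nat_lit 0x2000100000000000300040002000000000000)))) (.split (nat_lit 5) (nat_lit 4) t1554_2 (.non (nat_lit 0) (nat_lit 6) (nat_lit 0x540) (nat_lit 0x100010001000000000000)))) (.split (nat_lit 5) (nat_lit 3) (.split (nat_lit 5) (nat_lit 4) (.split (nat_lit 6) (nat_lit 4) (.sup (nat_lit 0x100040007000a0008) (nat_lit 0x9000900080008000a00000000000000000000)) (.non (nat_lit 0) (nat_lit 5) (nat_lit 0x2a140) (nat_lit 0x100020003000000040002000000000000))) (.st (nat_lit 3) (nat_lit 0) (nat_lit 5) (nat_lit 0x55154) (nat_lit 0x1000200030004000000050006000400020000) (nat_lit 1) (nat_lit 3) (.st (nat_lit 5) (nat_lit 0) (nat_lit 6) (nat_lit 0x54550) (nat_lit 0x3000200010000000400030002000100000000)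 (nat_lit 1) (nat_lit 2) (.st (nat_lit 6) (nat_lit 0) (nat_lit 5) (nat_lit 0x55150) (nat_lit 0x1000200030004000000030002000100000000) (nat_lit 1) (nat_lit 2) (.st (nat_lit 7) (nat_lit 0) (nat_lit 5) (nat_lit 0x55154) (nat_lit 0x2000400060005000000040003000200010000) (nat_lit 1) (nat_lit 3) (.st (nat_lit 9) (nat_lit 0) (nat_lit 6) (nat_lit 0x54554) (nat_lit 0x6000400020000000500040003000200010000) (nat_lit 1) (nat_lit 3) t1554_4)))))) (.split (nat_lit 5) (nat_lit 4) (.st (nat_lit 1) (nat_lit 0) (nat_lit 6) (nat_lit 0x50554) (nat_lit 0x2000100000000000300020004000300020000) (nat_lit 1) (nat_lit 1) (.st (nat_lit 2) (nat_lit 0) (nat_lit 6) (nat_lit 0x554) (nat_lit 0x100010002000200010000) (nat_lit 1) (nat_lit 1) (.st (nat_lit 3) (nat_lit 0) (nat_lit 5) (nat_lit 0x55154) (nat_lit 0x1000200030004000000050006000400020000) (nat_lit 1) (nat_lit 3) t1554_5))) (.non (nat_lit 0) (nat_lit 6) (nat_lit 0x540) (nat_lit 0x100010001000000000000))))) (.split (nat_lit 6) (nat_lit 4) (.split (nat_lit 5) (nat_lit 3)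 (.split (nat_lit 5) (nat_lit 4) t1554_7 (.st (nat_lit 1) (nat_lit 0) (nat_lit 5) (nat_lit 0x15154) (nat_lit 0x100020003000000020004000300020000) (nat_lit 1) (nat_lit 1) (.st (nat_lit 2) (nat_lit 0) (nat_lit 5) (nat_lit 0x1154) (nat_lit 0x1000000010002000200010000) (nat_lit 1) (nat_lit 1) (.st (nat_lit 3) (nat_lit 0) (nat_lit 5) (nat_lit 0x1150) (nat_lit 0x1000000010002000100000000) (nat_lit 1) (nat_lit 1) t1554_8)))) (.split (nat_lit 5) (nat_lit 4) (.st (nat_lit 1) (nat_lit 0) (nat_lit 5) (nat_lit 0x15154) (nat_lit 0x100020003000000020004000300020000) (nat_lit 1) (nat_lit 1) (.st (nat_lit 2) (nat_lit 0) (nat_lit 5) (nat_lit 0x1154) (nat_lit 0x1000000010002000200010000) (nat_lit 1) (nat_lit 1) (.st (nat_lit 5) (nat_lit 0) (nat_lit 6) (nat_lit 0x40550) (nat_lit 0x1000000000000000200010002000100000000) (nat_lit 1) (nat_lit 1) (.st (nat_lit 6) (nat_lit 0) (nat_lit 5) (nat_lit 0x5150) (nat_lit 0x10002000000010002000100000000) (nat_lit 1) (nat_lit 1) (.st (nat_lit 7) (nat_lit 0) (nat_lit 5) (nat_lit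 0x15150) (nat_lit 0x100020002000000010002000100000000) (nat_lit 1) (nat_lit 1) (.st (nat_lit 8) (nat_lit 0) (nat_lit 5) (nat_lit 0x55150) (nat_lit 0x1000200020002000000010002000100000000) (nat_lit 1) (nat_lit 1) (.st (nat_lit 9) (nat_lit 0) (nat_lit 5) (nat_lit 0x55154) (nat_lit 0x2000300040005000000030006000400020000) (nat_lit 1) (nat_lit 1) t1554_9))))))) (.non (nat_lit 0) (nat_lit 6) (nat_lit 0x540) (nat_lit 0x100010001000000000000)))) (.non (nat_lit 0) (nat_lit 5) (nat_lit 0x1140) (nat_lit 0x1000000010001000000000000))))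

noncomputable def t1554_11 : Tr := (.st (nat_lit 9) (nat_lit 0) (nat_lit 5) (nat_lit 0x55014) (nat_lit 0x2000300020001000000000000000100020000) (nat_lit 1) (nat_lit 1) (.pd (.cons (nat_lit 0) (nat_lit 7) (nat_lit 0) (nat_lit 0x8105932110) (nat_lit 0x7a11c7a11a00000f423f7a11ef423fb71aea2c281e83e00000) (.cons (nat_lit 0) (nat_lit 8) (nat_lit 0) (nat_lit 0x5065532110) (nat_lit 0xf423f00000f423fb71ae14581f423fb71aea2c289896500000) (.cons (nat_lit 1) (nat_lit 7) (nat_lit 0) (nat_lit 0x5905532200) (nat_lit 0xb71aef423f00000f423f28b07f423fb71aea2c2800000f423f) (.cons (nat_lit 1) (nat_lit 8) (nat_lit 0) (nat_lit 0x5065532200) (nat_lit 0xf423f00000f423fb71ae14581f423fb71aea2c2800000f423f) .nil)))) (.ex (nat_lit 0) (.pd (.cons (nat_lit 2) (nat_lit 8) (nat_lit 0) (nat_lit 0x5065533000) (nat_lit 0xf423f00000f423fb71ae14581f423fb71ae00000f423f54591) (.cons (nat_lit 3) (nat_lit 8) (nat_lit 0) (nat_lit 0x5065540100) (nat_lit 0xf423f00000f423fb71ae14581f423f00000f423fb71ae1f156) (.cons (nat_lit 4) (nat_lit 8)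 (nat_lit 0) (nat_lit 0x5065502100) (nat_lit 0xf423f00000f423fb71ae1458100000f423fb71aea2c2804737) .nil))) (.leaf (.cons (nat_lit 0x54005) (nat_lit 0x1000200010000000000000000000000020002) (.cons (nat_lit 0x50405) (nat_lit 0x2000300000000000100000000000000040003) (.cons (nat_lit 0x15005) (nat_lit 0x300020001000000000000000000040003) .nil))) .nil)) (.split (nat_lit 0xa) (nat_lit 1) (.split (nat_lit 0xa) (nat_lit 2) (.split (nat_lit 0xa) (nat_lit 3) (.split (nat_lit 0xa) (nat_lit 4) (.split (nat_lit 0xa) (nat_lit 5) (.split (nat_lit 0xa) (nat_lit 6) (.split (nat_lit 0xa) (nat_lit 7) (.split (nat_lit 0xa) (nat_lit 8) (.split (nat_lit 0xa) (nat_lit 9) (.sup (nat_lit 0x5000000000000000000000000000000050009000a) (nat_lit 0x600020006000a000a00000000000000000000)) (.non (nat_lit 0) (nat_lit 5) (nat_lit 0x155014) (nat_lit 0x10002000300020001000000000000000100020000))) (.non (nat_lit 0) (nat_lit 5) (nat_lit 0x154004) (nat_lit 0x10001000200010000000000000000000000010000))) (.non (nat_lit 0) (nat_lit 5) (nat_lit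 0x155004) (nat_lit 0x10001000200020001000000000000000000010000))) (.star (nat_lit 0xa) (nat_lit 0) (nat_lit 6))) (.star (nat_lit 0xa) (nat_lit 0) (nat_lit 5))) (.non (nat_lit 0) (nat_lit 5) (nat_lit 0x155154) (nat_lit 0x10003000600040002000000020003000400050000))) (.non (nat_lit 0) (nat_lit 5) (nat_lit 0x154154) (nat_lit 0x10001000200010000000000010002000200020000))) (.non (nat_lit 0) (nat_lit 5) (nat_lit 0x154054) (nat_lit 0x10001000200010000000000000001000200020000))) (.non (nat_lit 0) (nat_lit 5) (nat_lit 0x154014) (nat_lit 0x10001000200010000000000000000000100020000))))))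

noncomputable def t1554_12 : Tr := (.split (nat_lit 8) (nat_lit 1) (.split (nat_lit 8) (nat_lit 4) (.split (nat_lit 7) (nat_lit 4) t1554_10 (.split (nat_lit 6) (nat_lit 3) (.split (nat_lit 6) (nat_lit 4) (.split (nat_lit 5) (nat_lit 3) (.split (nat_lit 5) (nat_lit 4) (.sup (nat_lit 0x100040007000a0008) (nat_lit 0x8000500030009000a00000000000000000000)) (.non (nat_lit 0) (nat_lit 6) (nat_lit 0x54500) (nat_lit 0x1000100010000000100010000000000000000))) (.non (nat_lit 0) (nat_lit 6) (nat_lit 0x54540) (nat_lit 0x1000100010000000100010001000000000000))) (.non (nat_lit 0) (nat_lit 5) (nat_lit 0x5100) (nat_lit 0x10001000000010000000000000000))) (.non (nat_lit 0) (nat_lit 5) (nat_lit 0x5140) (nat_lit 0x10001000000010001000000000000)))) (.split (nat_lit 7) (nat_lit 4) (.split (nat_lit 6) (nat_lit 3) (.split (nat_lit 6) (nat_lit 4) (.split (nat_lit 5) (nat_lit 3) (.split (nat_lit 5) (nat_lit 4) (.sup (nat_lit 0x100040007000a0008) (nat_lit 0x600020006000a000a00000000000000000000)) (.non (nat_lit 0) (nat_lit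 6) (nat_lit 0x50500) (nat_lit 0x1000100000000000100010000000000000000))) (.non (nat_lit 0) (nat_lit 6) (nat_lit 0x50540) (nat_lit 0x1000100000000000100010001000000000000))) (.non (nat_lit 0) (nat_lit 5) (nat_lit 0x15100) (nat_lit 0x100010001000000010000000000000000))) (.non (nat_lit 0) (nat_lit 5) (nat_lit 0x15140) (nat_lit 0x100010001000000010001000000000000))) (.non (nat_lit 0) (nat_lit 5) (nat_lit 0x14100) (nat_lit 0x100010000000000010000000000000000)))) (.split (nat_lit 8) (nat_lit 4) (.split (nat_lit 7) (nat_lit 4) (.split (nat_lit 6) (nat_lit 3) (.split (nat_lit 6) (nat_lit 4) (.split (nat_lit 5) (nat_lit 3) (.split (nat_lit 5) (nat_lit 4) (.st (nat_lit 1) (nat_lit 0) (nat_lit 5) (nat_lit 0x54014) (nat_lit 0x1000200010000000000000000000100020000) (nat_lit 1) (nat_lit 1) (.st (nat_lit 2) (nat_lit 0) (nat_lit 5) (nat_lit 0x54054) (nat_lit 0x1000200010000000000000001000200020000) (nat_lit 1) (nat_lit 1) (.st (nat_lit 3) (nat_lit 0) (nat_lit 5) (nat_lit 0x54154) (nat_lit 0x1000200010000000000010002000200020000)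 (nat_lit 1) (nat_lit 1) (.st (nat_lit 5) (nat_lit 0) (nat_lit 6) (nat_lit 0x54454) (nat_lit 0x3000400020000000200000001000200030000) (nat_lit 1) (nat_lit 1) (.st (nat_lit 6) (nat_lit 0) (nat_lit 5) (nat_lit 0x55054) (nat_lit 0x2000400030002000000000001000200030000) (nat_lit 1) (nat_lit 1) (.st (nat_lit 7) (nat_lit 0) (nat_lit 5) (nat_lit 0x55004) (nat_lit 0x1000200020001000000000000000000010000) (nat_lit 1) (nat_lit 1) (.st (nat_lit 8) (nat_lit 0) (nat_lit 5) (nat_lit 0x54004) (nat_lit 0x1000200010000000000000000000000010000) (nat_lit 1) (nat_lit 1) (.split (nat_lit 8) (nat_lit 1) (.split (nat_lit 4) (nat_lit 3) (.pd (.cons (nat_lit 0) (nat_lit 9) (nat_lit 0) (nat_lit 0x187632110) (nat_lit 0x7a11a7a11c7a11ef423ff423fb71aea2c281e83e00000) (.cons (nat_lit 1) (nat_lit 9) (nat_lit 0) (nat_lit 0x765532200) (nat_lit 0xf423fb71aea2c283d08bf423fb71aea2c2800000f423f) .nil)) t1554_11) (.non (nat_lit 0) (nat_lit 5) (nat_lit 0x54254) (nat_lit 0x1000200010000000000010002000200020000))) (.non (nat_lit 0) (nat_lit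 5) (nat_lit 0xa8004) (nat_lit 0x1000200010000000000000000000000020000)))))))))) (.non (nat_lit 0) (nat_lit 6) (nat_lit 0x50554) (nat_lit 0x1000100000000000100010001000100010000))) (.non (nat_lit 0) (nat_lit 6) (nat_lit 0x50454) (nat_lit 0x1000100000000000100000001000100010000))) (.non (nat_lit 0) (nat_lit 5) (nat_lit 0x15154) (nat_lit 0x100010001000000010001000100010000))) (.non (nat_lit 0) (nat_lit 5) (nat_lit 0x15054) (nat_lit 0x100010001000000000001000100010000))) (.non (nat_lit 0) (nat_lit 5) (nat_lit 0x55104) (nat_lit 0x1000200020001000000010000000000010000))) (.non (nat_lit 0) (nat_lit 5) (nat_lit 0x54104) (nat_lit 0x1000200010000000000010000000000010000))))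

noncomputable def t1554_13 : Tr := (.ex (nat_lit 6) (.split (nat_lit 4) (nat_lit 3) (.split (nat_lit 8) (nat_lit 0) (.pd (.cons (nat_lit 0) (nat_lit 7) (nat_lit 0) (nat_lit 0x5905532110) (nat_lit 0xb71aef423f00000f423f28b07f423fb71aea2c289896500000) (.cons (nat_lit 0) (nat_lit 8) (nat_lit 0) (nat_lit 0x5065532110) (nat_lit 0xf423f00000f423fb71ae14581f423fb71aea2c289896500000) (.cons (nat_lit 0) (nat_lit 9) (nat_lit 0) (nat_lit 0x765532110) (nat_lit 0xf423fb71aea2c283d08bf423fb71aea2c289896500000) (.cons (nat_lit 1) (nat_lit 7) (nat_lit 0) (nat_lit 0x8005932200) (nat_lit 0x7a11c7a11a00000f423f7a11ef423fb71aea2c28000007a118) (.cons (nat_lit 1) (nat_lit 8) (nat_lit 0) (nat_lit 0x5065532200) (nat_lit 0xf423f00000f423fb71ae14581f423fb71aea2c2800000f423f) (.cons (nat_lit 1) (nat_lit 9) (nat_lit 0) (nat_lit 0x87632200) (nat_lit 0x7a11a7a11c7a11ef423ff423fb71aea2c28000007a118) (.cons (nat_lit 2) (nat_lit 8) (nat_lit 0) (nat_lit 0x5065533000) (nat_lit 0xf423f00000f423fb71ae14581f423fb71ae00000f423f54591)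 (.cons (nat_lit 3) (nat_lit 8) (nat_lit 0) (nat_lit 0x5065540100) (nat_lit 0xf423f00000f423fb71ae14581f423f00000f423fb71ae1f156) (.cons (nat_lit 4) (nat_lit 8) (nat_lit 0) (nat_lit 0x5065502100) (nat_lit 0xf423f00000f423fb71ae1458100000f423fb71aea2c2804737) .nil))))))))) (.leaf (.cons (nat_lit 0x54005) (nat_lit 0x1000200010000000000000000000000020002) (.cons (nat_lit 0x50405) (nat_lit 0x2000300000000000100000000000000030004) (.cons (nat_lit 0x15005) (nat_lit 0x300020001000000000000000000030004) .nil))) .nil)) (.non (nat_lit 1) (nat_lit 5) (nat_lit 0xa8001) (nat_lit 0x1000200010000000000000000000000000002))) (.split (nat_lit 8) (nat_lit 0) (.sup (nat_lit 0x40005000500050003) (nat_lit 0x3000100030005000500000000000000000000)) (.non (nat_lit 1) (nat_lit 5) (nat_lit 0xa8001) (nat_lit 0x1000200010000000000000000000000000002)))) (.split (nat_lit 0xa) (nat_lit 0) (.split (nat_lit 0xa) (nat_lit 1) (.split (nat_lit 0xa) (nat_lit 2) (.split (nat_lit 0xa) (nat_lit 3) (.split (nat_lit 0xa) (nat_lit 7) (.split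 (nat_lit 0xa) (nat_lit 8) (.split (nat_lit 0xa) (nat_lit 9) (.split (nat_lit 0xa) (nat_lit 4) (.split (nat_lit 0xa) (nat_lit 5) (.unj (nat_lit 0x20a400) (nat_lit 0x10000000000010002000200000000000000000000) (nat_lit 0x155) (nat_lit 0x10002000300040003)) (.unj (nat_lit 0x101400) (nat_lit 0x10000000000000001000100000000000000000000) (nat_lit 0x10015) (nat_lit 0x100000000000000000000000100020002))) (.split (nat_lit 0xa) (nat_lit 5) (.sup (nat_lit 0x30002000000020006000500000000000000000000) (nat_lit 0x200000000000000000002000500080007)) (.unj (nat_lit 0x101400) (nat_lit 0x10000000000000001000100000000000000000000) (nat_lit 0x10015) (nat_lit 0x100000000000000000000000100020002)))) (.non (nat_lit 0) (nat_lit 5) (nat_lit 0x155000) (nat_lit 0x10001000100010001000000000000000000000000))) (.non (nat_lit 0) (nat_lit 5) (nat_lit 0x115000) (nat_lit 0x10000000100010001000000000000000000000000))) (.non (nat_lit 0) (nat_lit 5) (nat_lit 0x105000) (nat_lit 0x10000000000010001000000000000000000000000))) (.non (nat_lit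 0) (nat_lit 5) (nat_lit 0x155154) (nat_lit 0x50001000200030004000000030006000400020000))) (.non (nat_lit 0) (nat_lit 5) (nat_lit 0x155154) (nat_lit 0x50001000200030004000000020004000600030000))) (.star (nat_lit 0xa) (nat_lit 1) (nat_lit 6))) (.star (nat_lit 0xa) (nat_lit 0) (nat_lit 6))))

noncomputable def t1554_14 : Tr := (.ex (nat_lit 3) (.ex (nat_lit 5) t1554_13 (.split (nat_lit 0xa) (nat_lit 0) (.split (nat_lit 0xa) (nat_lit 1) (.split (nat_lit 0xa) (nat_lit 2) (.split (nat_lit 0xa) (nat_lit 3) (.split (nat_lit 0xa) (nat_lit 7) (.split (nat_lit 0xa) (nat_lit 8) (.split (nat_lit 0xa) (nat_lit 9) (.split (nat_lit 0xa) (nat_lit 4) (.split (nat_lit 0xa) (nat_lit 6) (.unj (nat_lit 0x142400) (nat_lit 0x10001000000000001000200000000000000000000) (nat_lit 0x155) (nat_lit 0x10002000300040003)) (.unj (nat_lit 0x101400) (nat_lit 0x10000000000000001000100000000000000000000) (nat_lit 0x10015) (nat_lit 0x100000000000000000000000100020002))) (.split (nat_lit 0xa) (nat_lit 6) (.sup (nat_lit 0x30002000000020005000600000000000000000000)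 (nat_lit 0x200000000000000000002000500080007)) (.unj (nat_lit 0x101400) (nat_lit 0x10000000000000001000100000000000000000000) (nat_lit 0x10015) (nat_lit 0x100000000000000000000000100020002)))) (.non (nat_lit 0) (nat_lit 6) (nat_lit 0x140400) (nat_lit 0x10001000000000000000100000000000000000000))) (.non (nat_lit 0) (nat_lit 6) (nat_lit 0x150400) (nat_lit 0x10001000100000000000100000000000000000000))) (.non (nat_lit 0) (nat_lit 6) (nat_lit 0x154400) (nat_lit 0x10001000100010000000100000000000000000000))) (.non (nat_lit 0) (nat_lit 6) (nat_lit 0x154554) (nat_lit 0x50003000200010000000400030006000400020000))) (.non (nat_lit 0) (nat_lit 6) (nat_lit 0x154554) (nat_lit 0x50003000200010000000400020004000600030000))) (.star (nat_lit 0xa) (nat_lit 1) (nat_lit 5))) (.star (nat_lit 0xa) (nat_lit 0) (nat_lit 5)))) (.split (nat_lit 0xa) (nat_lit 0) (.split (nat_lit 0xa) (nat_lit 1) (.split (nat_lit 0xa) (nat_lit 2) (.split (nat_lit 0xa) (nat_lit 4) (.split (nat_lit 0xa) (nat_lit 5) (.split (nat_lit 0xa) (nat_lit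 6) (.split (nat_lit 0xa) (nat_lit 7) (.split (nat_lit 0xa) (nat_lit 8) (.split (nat_lit 0xa) (nat_lit 9) (.split (nat_lit 0xa) (nat_lit 3) (.split (nat_lit 8) (nat_lit 0) (.sup (nat_lit 0x5000200050008000800000000000000000000) (nat_lit 0x40000000000000000000000040007000700080005)) (.non (nat_lit 1) (nat_lit 5) (nat_lit 0xa8001) (nat_lit 0x1000200010000000000000000000000000002))) (.non (nat_lit 0) (nat_lit 5) (nat_lit 0x200150) (nat_lit 0x10000000000000000000000010002000100000000))) (.non (nat_lit 0) (nat_lit 5) (nat_lit 0x155154) (nat_lit 0x50004000300020001000000030006000400020000))) (.non (nat_lit 0) (nat_lit 5) (nat_lit 0x154150) (nat_lit 0x20001000200010000000000010002000100000000))) (.non (nat_lit 0) (nat_lit 5) (nat_lit 0x115150) (nat_lit 0x20000000100020001000000010002000100000000))) (.non (nat_lit 0) (nat_lit 5) (nat_lit 0x155154) (nat_lit 0x50001000200030004000000030006000400020000))) (.non (nat_lit 0) (nat_lit 6) (nat_lit 0x154554) (nat_lit 0x50003000200010000000400030006000400020000)))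 (.non (nat_lit 0) (nat_lit 5) (nat_lit 0x100140) (nat_lit 0x10000000000000000000000010001000000000000))) (.non (nat_lit 0) (nat_lit 5) (nat_lit 0x100050) (nat_lit 0x10000000000000000000000000001000100000000))) (.non (nat_lit 0) (nat_lit 5) (nat_lit 0x100054) (nat_lit 0x10000000000000000000000000001000100010000))) (.non (nat_lit 1) (nat_lit 5) (nat_lit 0x154151) (nat_lit 0x20001000200010000000000010002000100000002))))

noncomputable def t1554_15 : Tr := (.ex (nat_lit 1) (.ex (nat_lit 2) t1554_14 (.split (nat_lit 0xa) (nat_lit 0) (.split (nat_lit 0xa) (nat_lit 1) (.split (nat_lit 0xa) (nat_lit 3) (.split (nat_lit 0xa) (nat_lit 4) (.split (nat_lit 0xa) (nat_lit 5) (.split (nat_lit 0xa) (nat_lit 6) (.split (nat_lit 0xa) (nat_lit 7) (.split (nat_lit 0xa) (nat_lit 8) (.split (nat_lit 0xa) (nat_lit 9) (.split (nat_lit 0xa) (nat_lit 2) (.split (nat_lit 8) (nat_lit 0) (.sup (nat_lit 0x30000000000000000000000000003000500050003) (nat_lit 0x3000100030005000500000000000000000000)) (.non (nat_lit 1) (nat_lit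 5) (nat_lit 0xa8001) (nat_lit 0x1000200010000000000000000000000000002))) (.non (nat_lit 0) (nat_lit 5) (nat_lit 0x200054) (nat_lit 0x10000000000000000000000000001000200010000))) (.non (nat_lit 0) (nat_lit 5) (nat_lit 0x155154) (nat_lit 0x50004000300020001000000020004000600030000))) (.non (nat_lit 0) (nat_lit 5) (nat_lit 0x154054) (nat_lit 0x20001000200010000000000000001000200010000))) (.non (nat_lit 0) (nat_lit 5) (nat_lit 0x115054) (nat_lit 0x20000000100020001000000000001000200010000))) (.non (nat_lit 0) (nat_lit 5) (nat_lit 0x155154) (nat_lit 0x50001000200030004000000020004000600030000))) (.non (nat_lit 0) (nat_lit 6) (nat_lit 0x154554) (nat_lit 0x50003000200010000000400020004000600030000))) (.non (nat_lit 0) (nat_lit 5) (nat_lit 0x100150) (nat_lit 0x10000000000000000000000010001000100000000))) (.non (nat_lit 0) (nat_lit 5) (nat_lit 0x100050) (nat_lit 0x10000000000000000000000000001000100000000))) (.non (nat_lit 0) (nat_lit 5) (nat_lit 0x100014) (nat_lit 0x10000000000000000000000000000000100010000)))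 (.non (nat_lit 1) (nat_lit 5) (nat_lit 0x155151) (nat_lit 0x40003000600040002000000010002000300000005)))) (.split (nat_lit 0xa) (nat_lit 2) (.split (nat_lit 0xa) (nat_lit 3) (.split (nat_lit 0xa) (nat_lit 4) (.split (nat_lit 0xa) (nat_lit 5) (.split (nat_lit 0xa) (nat_lit 6) (.split (nat_lit 0xa) (nat_lit 7) (.split (nat_lit 0xa) (nat_lit 8) (.split (nat_lit 0xa) (nat_lit 9) (.split (nat_lit 0xa) (nat_lit 0) (.sup (nat_lit 0xb0006000b0010001000000000000000000000) (nat_lit 0x70000000000000000000000030006000a000f0008)) (.sup (nat_lit 0x40000000000000000000000000000000000050004) (nat_lit 0x3000100030005000500000000000000000000))) (.non (nat_lit 0) (nat_lit 6) (nat_lit 0x154554) (nat_lit 0x50006000400020000000300010002000300040000))) (.non (nat_lit 0) (nat_lit 5) (nat_lit 0x155154) (nat_lit 0x50003000600040002000000010002000300040000))) (.non (nat_lit 0) (nat_lit 5) (nat_lit 0x155154) (nat_lit 0x50002000400060003000000010002000300040000))) (.star (nat_lit 0xa) (nat_lit 1) (nat_lit 6))) (.star (nat_lit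 0xa) (nat_lit 1) (nat_lit 5))) (.non (nat_lit 0) (nat_lit 5) (nat_lit 0x100154) (nat_lit 0x10000000000000000000000010001000100010000))) (.non (nat_lit 0) (nat_lit 5) (nat_lit 0x100054) (nat_lit 0x10000000000000000000000000001000100010000))) (.non (nat_lit 0) (nat_lit 5) (nat_lit 0x100014) (nat_lit 0x10000000000000000000000000000000100010000))))

noncomputable def t1554_16 : Tr := (.split (nat_lit 6) (nat_lit 4) (.split (nat_lit 5) (nat_lit 4) (.st (nat_lit 7) (nat_lit 1) (nat_lit 5) (nat_lit 0x55001) (nat_lit 0x1000200020001000000000000000000000001) (nat_lit 1) (nat_lit 1) (.st (nat_lit 8) (nat_lit 1) (nat_lit 5) (nat_lit 0x54001) (nat_lit 0x1000200010000000000000000000000000001) (nat_lit 1) (nat_lit 1) (.st (nat_lit 9) (nat_lit 1) (nat_lit 6) (nat_lit 0x54401) (nat_lit 0x2000200010000000100000000000000000001) (nat_lit 1) (nat_lit 1) (.ex (nat_lit 0) t1554_15 (.split (nat_lit 0xa) (nat_lit 2) (.split (nat_lit 0xa) (nat_lit 3) (.split (nat_lit 0xa) (nat_lit 4) (.split (nat_lit 0xa) (nat_lit 5) (.split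 (nat_lit 0xa) (nat_lit 6) (.split (nat_lit 0xa) (nat_lit 7) (.split (nat_lit 0xa) (nat_lit 8) (.split (nat_lit 0xa) (nat_lit 9) (.split (nat_lit 0xa) (nat_lit 1) (.split (nat_lit 0xa) (nat_lit 0) (.split (nat_lit 8) (nat_lit 0) (.sup (nat_lit 0x500000000000000000000000000000005000a0009) (nat_lit 0x600020006000a000a00000000000000000000)) (.non (nat_lit 1) (nat_lit 5) (nat_lit 0xa8001) (nat_lit 0x1000200010000000000000000000000000002))) (.non (nat_lit 1) (nat_lit 5) (nat_lit 0x254001) (nat_lit 0x10001000200010000000000000000000000000002))) (.sup (nat_lit 0x40000000000000000000000000000000000050004) (nat_lit 0x3000100030005000500000000000000000000))) (.non (nat_lit 1) (nat_lit 5) (nat_lit 0x150001) (nat_lit 0x10001000100000000000000000000000000000001))) (.non (nat_lit 1) (nat_lit 5) (nat_lit 0x110001) (nat_lit 0x10000000100000000000000000000000000000001))) (.non (nat_lit 1) (nat_lit 5) (nat_lit 0x114001) (nat_lit 0x10000000100010000000000000000000000000001))) (.star (nat_lit 0xa) (nat_lit 0) (nat_lit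 6))) (.star (nat_lit 0xa) (nat_lit 0) (nat_lit 5))) (.non (nat_lit 1) (nat_lit 5) (nat_lit 0x155151) (nat_lit 0x40003000600040002000000030002000100000005))) (.non (nat_lit 1) (nat_lit 5) (nat_lit 0x154151) (nat_lit 0x20001000200010000000000010002000100000002))) (.non (nat_lit 1) (nat_lit 5) (nat_lit 0x155151) (nat_lit 0x40003000600040002000000010002000300000005))))))) (.split (nat_lit 8) (nat_lit 0) (.split (nat_lit 5) (nat_lit 4) (.split (nat_lit 4) (nat_lit 3) (.sup (nat_lit 0x500000004000a000c00050000000000000000) (nat_lit 0x30000000000000000000200090010000e)) (.non (nat_lit 0) (nat_lit 6) (nat_lit 0x80a50) (nat_lit 0x1000000000000000200030004000200000000))) (.non (nat_lit 0) (nat_lit 6) (nat_lit 0xa0940) (nat_lit 0x2000100000000000300040002000000000000))) (.non (nat_lit 1) (nat_lit 5) (nat_lit 0xa8001) (nat_lit 0x1000200010000000000000000000000000002)))) (.split (nat_lit 5) (nat_lit 4) (.split (nat_lit 8) (nat_lit 0) (.split (nat_lit 6) (nat_lit 4) (.split (nat_lit 4) (nat_lit 3) (.sup (nat_lit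 0x400000005000c000a00050000000000000000) (nat_lit 0x30000000000000000000200090010000e)) (.non (nat_lit 0) (nat_lit 5) (nat_lit 0xa250) (nat_lit 0x10002000000030004000200000000))) (.non (nat_lit 0) (nat_lit 5) (nat_lit 0x2a140) (nat_lit 0x100020003000000040002000000000000))) (.non (nat_lit 1) (nat_lit 5) (nat_lit 0xa8001) (nat_lit 0x1000200010000000000000000000000000002))) (.unj (nat_lit 0x1500) (nat_lit 0x1000100010000000000000000) (nat_lit 0x10015) (nat_lit 0x100000000000000000000000100020002))))

noncomputable def t1554_17 : Tr := (.st (nat_lit 0xa) (nat_lit 1) (nat_lit 5) (nat_lit 0x554001) (nat_lit 0x100020001000200010000000000000000000000000002) (nat_lit 1) (nat_lit 1) (.ex (nat_lit 0xb) (.split (nat_lit 0xa) (nat_lit 0) (.split (nat_lit 0xb) (nat_lit 0xa) (.pd (.cons (nat_lit 2) (nat_lit 8) (nat_lit 0) (nat_lit 0xa05065533000) (nat_lit 0xf423fb71aef423f00000f423fb71ae14581f423fb71ae00000f423f02f7a) .nil) (.leaf (.cons (nat_lit 0x10005) (nat_lit 0x100000000000000000000000000010001) (.cons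 (nat_lit 0x100015) (nat_lit 0x10000000000000000000000000000000100020002) .nil)) .nil)) (.non (nat_lit 1) (nat_lit 5) (nat_lit 0x954001) (nat_lit 0x100020001000200010000000000000000000000000002))) (.non (nat_lit 1) (nat_lit 5) (nat_lit 0xa50001) (nat_lit 0x100020001000200000000000000000000000000000003))) (.split (nat_lit 0xc) (nat_lit 0) (.split (nat_lit 0xc) (nat_lit 1) (.split (nat_lit 0xc) (nat_lit 2) (.split (nat_lit 0xc) (nat_lit 3) (.split (nat_lit 0xc) (nat_lit 4) (.split (nat_lit 0xc) (nat_lit 5) (.split (nat_lit 0xc) (nat_lit 6) (.split (nat_lit 0xc) (nat_lit 7) (.split (nat_lit 0xc) (nat_lit 8) (.split (nat_lit 0xc) (nat_lit 9) (.split (nat_lit 0xc) (nat_lit 0xa) (.leaf (.cons (nat_lit 0x1500005) (nat_lit 0x1000200030000000000000000000000000000000000030004) .nil) .nil) (.non (nat_lit 0) (nat_lit 5) (nat_lit 0x1500000) (nat_lit 0x1000100010000000000000000000000000000000000000000))) (.non (nat_lit 0) (nat_lit 5) (nat_lit 0x1055014) (nat_lit 0x1000000000002000300020001000000000000000100020000)))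 (.non (nat_lit 0) (nat_lit 5) (nat_lit 0x1054004) (nat_lit 0x1000000000001000200010000000000000000000000010000))) (.non (nat_lit 0) (nat_lit 5) (nat_lit 0x1055004) (nat_lit 0x1000000000001000200020001000000000000000000010000))) (.non (nat_lit 0) (nat_lit 5) (nat_lit 0x1555014) (nat_lit 0x3000200010003000600050004000000000000000200040000))) (.non (nat_lit 0) (nat_lit 6) (nat_lit 0x1554414) (nat_lit 0x3000200010005000600030000000400000000000200040000))) (.non (nat_lit 0) (nat_lit 5) (nat_lit 0x1055154) (nat_lit 0x1000000000003000600040002000000020003000400050000))) (.non (nat_lit 0) (nat_lit 5) (nat_lit 0x1455054) (nat_lit 0x2000100000003000600040002000000000003000400050000))) (.non (nat_lit 0) (nat_lit 5) (nat_lit 0x1555014) (nat_lit 0x3000200010003000600040002000000000000000400050000))) (.non (nat_lit 0) (nat_lit 5) (nat_lit 0x1054014) (nat_lit 0x1000000000001000200010000000000000000000100020000))) (.non (nat_lit 1) (nat_lit 5) (nat_lit 0x1500001) (nat_lit 0x1000100010000000000000000000000000000000000000001)))))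

noncomputable def t1554_18 : Tr := (.split (nat_lit 0xa) (nat_lit 6) (.split (nat_lit 0xa) (nat_lit 7) (.split (nat_lit 0xa) (nat_lit 8) (.split (nat_lit 0xa) (nat_lit 9) (.st (nat_lit 0) (nat_lit 1) (nat_lit 5) (nat_lit 0x154001) (nat_lit 0x10001000200010000000000000000000000000002) (nat_lit 1) (nat_lit 1) (.ex (nat_lit 0xa) (.split (nat_lit 0xa) (nat_lit 0) (.pd (.cons (nat_lit 2) (nat_lit 8) (nat_lit 0) (nat_lit 0x5065533000) (nat_lit 0xf423ff423f00000f423fb71ae14581f423fb71ae00000f423f17500) .nil) (.leaf (.cons (nat_lit 0x10005) (nat_lit 0x100000000000000000000000000010001) (.cons (nat_lit 0x100015) (nat_lit 0x10000000000000000000000000000000100020002) .nil)) .nil)) (.non (nat_lit 1) (nat_lit 5) (nat_lit 0x254001) (nat_lit 0x10001000200010000000000000000000000000002))) (.split (nat_lit 0xb) (nat_lit 0) (.split (nat_lit 0xb) (nat_lit 1) (.split (nat_lit 0xb) (nat_lit 2) (.split (nat_lit 0xb) (nat_lit 3) (.split (nat_lit 0xb) (nat_lit 4) (.split (nat_lit 0xb) (nat_lit 5) (.split (nat_lit 0xb)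 (nat_lit 6) (.split (nat_lit 0xb) (nat_lit 7) (.split (nat_lit 0xb) (nat_lit 8) (.split (nat_lit 0xb) (nat_lit 9) t1554_17 (.non (nat_lit 0) (nat_lit 5) (nat_lit 0x455014) (nat_lit 0x100000002000300020001000000000000000100020000))) (.non (nat_lit 0) (nat_lit 5) (nat_lit 0x454004) (nat_lit 0x100000001000200010000000000000000000000010000))) (.non (nat_lit 0) (nat_lit 5) (nat_lit 0x455004) (nat_lit 0x100000001000200020001000000000000000000010000))) (.non (nat_lit 0) (nat_lit 5) (nat_lit 0x455054) (nat_lit 0x100000002000400030002000000000001000200030000))) (.non (nat_lit 0) (nat_lit 6) (nat_lit 0x454454) (nat_lit 0x100000003000400020000000200000001000200030000))) (.non (nat_lit 0) (nat_lit 5) (nat_lit 0x455154) (nat_lit 0x100000003000600040002000000020003000400050000))) (.non (nat_lit 0) (nat_lit 5) (nat_lit 0x555054) (nat_lit 0x200010003000600040002000000000003000400050000))) (.non (nat_lit 0) (nat_lit 5) (nat_lit 0x454054) (nat_lit 0x100000001000200010000000000000001000200020000))) (.non (nat_lit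 0) (nat_lit 5) (nat_lit 0x454014) (nat_lit 0x100000001000200010000000000000000000100020000))) (.non (nat_lit 1) (nat_lit 5) (nat_lit 0x500001) (nat_lit 0x100010000000000000000000000000000000000000001))))) (.non (nat_lit 0) (nat_lit 5) (nat_lit 0x155014) (nat_lit 0x10002000300020001000000000000000100020000))) (.non (nat_lit 0) (nat_lit 5) (nat_lit 0x154004) (nat_lit 0x10001000200010000000000000000000000010000))) (.non (nat_lit 0) (nat_lit 5) (nat_lit 0x155004) (nat_lit 0x10001000200020001000000000000000000010000))) (.star (nat_lit 0xa) (nat_lit 0) (nat_lit 6)))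

noncomputable def t1554_19 : Tr := (.st (nat_lit 8) (nat_lit 0) (nat_lit 5) (nat_lit 0x54004) (nat_lit 0x1000200010000000000000000000000010000) (nat_lit 1) (nat_lit 1) (.split (nat_lit 8) (nat_lit 1) (.split (nat_lit 4) (nat_lit 3) (.split (nat_lit 8) (nat_lit 0) (.pd (.cons (nat_lit 0) (nat_lit 9) (nat_lit 0) (nat_lit 0x187632110) (nat_lit 0x7a11a7a11c7a11ef423ff423fb71aea2c281e83e00000) (.cons (nat_lit 1) (nat_lit 9) (nat_lit 0) (nat_lit 0x87632200) (nat_lit 0x7a11a7a11c7a11ef423ff423fb71aea2c28000007a118) .nil)) (.st (nat_lit 9) (nat_lit 0) (nat_lit 5) (nat_lit 0x55014) (nat_lit 0x2000300020001000000000000000100020000) (nat_lit 1) (nat_lit 1) (.pd (.cons (nat_lit 0) (nat_lit 7) (nat_lit 0) (nat_lit 0x8105932110) (nat_lit 0x7a11c7a11a00000f423f7a11ef423fb71aea2c281e83e00000) (.cons (nat_lit 0) (nat_lit 8) (nat_lit 0) (nat_lit 0x5065532110) (nat_lit 0xf423f00000f423fb71ae14581f423fb71aea2c289896500000) (.cons (nat_lit 1) (nat_lit 7) (nat_lit 0) (nat_lit 0x8005932200) (nat_lit 0x7a11c7a11a00000f423f7a11ef423fb71aea2c28000007a118)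 (.cons (nat_lit 1) (nat_lit 8) (nat_lit 0) (nat_lit 0x5065532200) (nat_lit 0xf423f00000f423fb71ae14581f423fb71aea2c2800000f423f) .nil)))) (.ex (nat_lit 0) (.pd (.cons (nat_lit 2) (nat_lit 8) (nat_lit 0) (nat_lit 0x5065533000) (nat_lit 0xf423f00000f423fb71ae14581f423fb71ae00000f423f54591) (.cons (nat_lit 3) (nat_lit 8) (nat_lit 0) (nat_lit 0x5065540100) (nat_lit 0xf423f00000f423fb71ae14581f423f00000f423fb71ae1f156) (.cons (nat_lit 4) (nat_lit 8) (nat_lit 0) (nat_lit 0x5065502100) (nat_lit 0xf423f00000f423fb71ae1458100000f423fb71aea2c2804737) .nil))) (.leaf (.cons (nat_lit 0x10005) (nat_lit 0x100000000000000000000000000010001) .nil) .nil)) (.split (nat_lit 0xa) (nat_lit 1) (.split (nat_lit 0xa) (nat_lit 2) (.split (nat_lit 0xa) (nat_lit 3) (.split (nat_lit 0xa) (nat_lit 4) (.split (nat_lit 0xa) (nat_lit 5) t1554_18 (.star (nat_lit 0xa) (nat_lit 0) (nat_lit 5))) (.non (nat_lit 0) (nat_lit 5) (nat_lit 0x155154) (nat_lit 0x10003000600040002000000020003000400050000))) (.non (nat_lit 0) (nat_lit 5) (nat_lit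 0x154154) (nat_lit 0x10001000200010000000000010002000200020000))) (.non (nat_lit 0) (nat_lit 5) (nat_lit 0x154054) (nat_lit 0x10001000200010000000000000001000200020000))) (.non (nat_lit 0) (nat_lit 5) (nat_lit 0x154014) (nat_lit 0x10001000200010000000000000000000100020000))))))) (.non (nat_lit 1) (nat_lit 5) (nat_lit 0xa8001) (nat_lit 0x1000200010000000000000000000000000002))) (.non (nat_lit 0) (nat_lit 5) (nat_lit 0x54254) (nat_lit 0x1000200010000000000010002000200020000))) (.non (nat_lit 0) (nat_lit 5) (nat_lit 0xa8004) (nat_lit 0x1000200010000000000000000000000020000))))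

noncomputable def t1554_20 : Tr := (.split (nat_lit 9) (nat_lit 4) (.split (nat_lit 8) (nat_lit 0) t1554_12 (.split (nat_lit 8) (nat_lit 4) (.split (nat_lit 7) (nat_lit 4) (.split (nat_lit 6) (nat_lit 3) (.split (nat_lit 5) (nat_lit 3) (.split (nat_lit 8) (nat_lit 1) t1554_16 (.split (nat_lit 6) (nat_lit 4) (.split (nat_lit 5) (nat_lit 4) (.st (nat_lit 1) (nat_lit 0) (nat_lit 5) (nat_lit 0x54014) (nat_lit 0x1000200010000000000000000000100020000) (nat_lit 1) (nat_lit 1) (.st (nat_lit 2) (nat_lit 0) (nat_lit 5) (nat_lit 0x54054) (nat_lit 0x1000200010000000000000001000200020000) (nat_lit 1) (nat_lit 1) (.st (nat_lit 3) (nat_lit 0) (nat_lit 5) (nat_lit 0x54154) (nat_lit 0x1000200010000000000010002000200020000) (nat_lit 1) (nat_lit 1) (.st (nat_lit 5) (nat_lit 0) (nat_lit 6) (nat_lit 0x54454) (nat_lit 0x3000400020000000200000001000200030000) (nat_lit 1) (nat_lit 1) (.st (nat_lit 6) (nat_lit 0) (nat_lit 5) (nat_lit 0x55054) (nat_lit 0x2000400030002000000000001000200030000) (nat_lit 1) (nat_lit 1) (.st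 (nat_lit 7) (nat_lit 0) (nat_lit 5) (nat_lit 0x55004) (nat_lit 0x1000200020001000000000000000000010000) (nat_lit 1) (nat_lit 1) t1554_19)))))) (.non (nat_lit 0) (nat_lit 6) (nat_lit 0x50554) (nat_lit 0x1000100000000000100010001000100010000))) (.non (nat_lit 0) (nat_lit 5) (nat_lit 0x15154) (nat_lit 0x100010001000000010001000100010000)))) (.non (nat_lit 1) (nat_lit 6) (nat_lit 0x54551) (nat_lit 0x2000200010000000200010002000100000001))) (.non (nat_lit 1) (nat_lit 5) (nat_lit 0x55151) (nat_lit 0x1000200020002000000010002000100000001))) (.non (nat_lit 1) (nat_lit 5) (nat_lit 0x55101) (nat_lit 0x1000200020001000000010000000000000001))) (.non (nat_lit 1) (nat_lit 5) (nat_lit 0x54101) (nat_lit 0x1000200010000000000010000000000000001)))) (.split (nat_lit 8) (nat_lit 0) (.split (nat_lit 8) (nat_lit 1) (.split (nat_lit 8) (nat_lit 4) (.split (nat_lit 7) (nat_lit 4) (.split (nat_lit 6) (nat_lit 3) (.split (nat_lit 6) (nat_lit 4) (.split (nat_lit 5) (nat_lit 3) (.split (nat_lit 5) (nat_lit 4) (.sup (nat_lit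 0x100040007000a0008) (nat_lit 0x300050008000a000900000000000000000000)) (.non (nat_lit 0) (nat_lit 6) (nat_lit 0x40500) (nat_lit 0x1000000000000000100010000000000000000))) (.non (nat_lit 0) (nat_lit 6) (nat_lit 0x40540) (nat_lit 0x1000000000000000100010001000000000000))) (.non (nat_lit 0) (nat_lit 5) (nat_lit 0x55100) (nat_lit 0x1000100010001000000010000000000000000))) (.non (nat_lit 0) (nat_lit 5) (nat_lit 0x55140) (nat_lit 0x1000100010001000000010001000000000000))) (.non (nat_lit 0) (nat_lit 5) (nat_lit 0x54100) (nat_lit 0x1000100010000000000010000000000000000))) (.non (nat_lit 0) (nat_lit 5) (nat_lit 0x50100) (nat_lit 0x1000100000000000000010000000000000000))) (.non (nat_lit 0) (nat_lit 5) (nat_lit 0x55114) (nat_lit 0x2000300020001000000010000000100020000))) (.non (nat_lit 1) (nat_lit 6) (nat_lit 0x54501) (nat_lit 0x2000200010000000100010000000000000001))))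

noncomputable def t1554 : Tr := (.split (nat_lit 9) (nat_lit 2) (.split (nat_lit 9) (nat_lit 3) (.split (nat_lit 8) (nat_lit 2) (.split (nat_lit 8) (nat_lit 3) (.split (nat_lit 7) (nat_lit 2) (.split (nat_lit 7) (nat_lit 3) t1554_20 (.non (nat_lit 0) (nat_lit 5) (nat_lit 0x15150) (nat_lit 0x100020001000000010002000100000000))) (.non (nat_lit 0) (nat_lit 5) (nat_lit 0x15054) (nat_lit 0x100020001000000000001000200010000))) (.non (nat_lit 0) (nat_lit 5) (nat_lit 0x54150) (nat_lit 0x1000200010000000000010002000100000000))) (.non (nat_lit 0) (nat_lit 5) (nat_lit 0x54054) (nat_lit 0x1000200010000000000000001000200010000))) (.non (nat_lit 0) (nat_lit 6) (nat_lit 0x50550) (nat_lit 0x2000100000000000100010002000100000000))) (.non (nat_lit 0) (nat_lit 6) (nat_lit 0x50454) (nat_lit 0x2000100000000000100000001000200010000)))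

noncomputable def t1590_1 : Tr := (.ex (nat_lit 5) (.pd (.cons (nat_lit 0) (nat_lit 6) (nat_lit 0) (nat_lit 0x8740532110) (nat_lit 0xf423fb71aea2c2800000f423f98965927bd8e6a28b82100000) (.cons (nat_lit 1) (nat_lit 6) (nat_lit 0) (nat_lit 0x8740532200) (nat_lit 0xf423fb71aea2c2800000f423f98965927bd8e6a200000f423f) (.cons (nat_lit 2) (nat_lit 6) (nat_lit 0) (nat_lit 0x8740533000) (nat_lit 0xf423fb71aea2c2800000f423f98965927bd00000f423f54591) (.cons (nat_lit 3) (nat_lit 6) (nat_lit 0) (nat_lit 0x8740540100) (nat_lit 0xf423fb71aea2c2800000f423f9896500000f423fb71ae1f156) (.cons (nat_lit 3) (nat_lit 8) (nat_lit 0) (nat_lit 0x9047640100) (nat_lit 0xf423f00000437a254591f423f174ea00000f423fb71ae1f156) (.cons (nat_lit 4) (nat_lit 6) (nat_lit 0) (nat_lit 0x8770502100) (nat_lit 0xf423fb71aea2c2800000f423f00000f423fb71aea2c2804737) (.cons (nat_lit 4) (nat_lit 8) (nat_lit 0) (nat_lit 0x9065502100) (nat_lit 0xf423f00000f423fb71ae1f15600000f423fb71aea2c2804737) (.cons (nat_lit 4) (nat_lit 9) (nat_lit 0) (nat_lit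 0x765502100) (nat_lit 0xf423fb71aea2c280473700000f423fb71aea2c2804737) .nil)))))))) (.leaf (.cons (nat_lit 0x5540) (nat_lit 0x30004000300020001000000000000) (.cons (nat_lit 0x15500) (nat_lit 0x100020002000200010000000000000000) .nil)) (.cons (nat_lit 0x1111011110) (nat_lit 0x100001) (nat_lit 0xe) (nat_lit 0x3201045670) (.cons (nat_lit 0x1110011110) (nat_lit 0x1000001) (nat_lit 5) (nat_lit 0x6540032100) (.cons (nat_lit 0x1111011100) (nat_lit 0x100010) (nat_lit 0xd) (nat_lit 0x3201045600) (.cons (nat_lit 0x1110011100) (nat_lit 0x1000010) (nat_lit 4) (nat_lit 0x5430021000) (.cons (nat_lit 0x1111011000) (nat_lit 0x100100) (nat_lit 0xc) (nat_lit 0x5401023000) (.cons (nat_lit 0x1110011000) (nat_lit 0x1000100) (nat_lit 3) (nat_lit 0x4320010000) (.cons (nat_lit 0x1111010000) (nat_lit 0x101000) (nat_lit 8) (nat_lit 0x4302010000) (.cons (nat_lit 0x11110000) (nat_lit 0x100001000) (nat_lit 0x10) (nat_lit 0x21030000) .nil)))))))))) (.split (nat_lit 0xa) (nat_lit 0) (.split (nat_lit 0xa) (nat_lit 1) (.split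 (nat_lit 0xa) (nat_lit 2) (.split (nat_lit 0xa) (nat_lit 3) (.split (nat_lit 0xa) (nat_lit 4) (.split (nat_lit 0xa) (nat_lit 6) (.split (nat_lit 0xa) (nat_lit 7) (.split (nat_lit 0xa) (nat_lit 8) (.split (nat_lit 0xa) (nat_lit 9) (.sup (nat_lit 0x50000000000020009000a00000000000000000000) (nat_lit 0x100040007000a0008)) (.non (nat_lit 0) (nat_lit 5) (nat_lit 0x155150) (nat_lit 0x10002000300040002000000030002000100000000))) (.non (nat_lit 0) (nat_lit 5) (nat_lit 0x155100) (nat_lit 0x10001000200020001000000010000000000000000))) (.non (nat_lit 0) (nat_lit 5) (nat_lit 0x115100) (nat_lit 0x10000000100020001000000010000000000000000))) (.non (nat_lit 0) (nat_lit 5) (nat_lit 0x155140) (nat_lit 0x10001000200030002000000020001000000000000))) (.non (nat_lit 0) (nat_lit 5) (nat_lit 0x115140) (nat_lit 0x10000000100020001000000020001000000000000))) (.non (nat_lit 0) (nat_lit 5) (nat_lit 0x115150) (nat_lit 0x10000000100020001000000020002000100000000))) (.star (nat_lit 0xa) (nat_lit 2) (nat_lit 5))) (.non (nat_lit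 0) (nat_lit 5) (nat_lit 0x155154) (nat_lit 0x10002000400060003000000050004000300020000))) (.star (nat_lit 0xa) (nat_lit 0) (nat_lit 5))))

noncomputable def t1590_2 : Tr := (.st (nat_lit 9) (nat_lit 0) (nat_lit 5) (nat_lit 0x55150) (nat_lit 0x2000300040002000000030002000100000000) (nat_lit 1) (nat_lit 1) (.ex (nat_lit 0) (.split (nat_lit 4) (nat_lit 3) (.split (nat_lit 7) (nat_lit 4) (.split (nat_lit 9) (nat_lit 8) (.pd (.cons (nat_lit 1) (nat_lit 5) (nat_lit 0) (nat_lit 0x8747032200) (nat_lit 0xf423fb71ae65b97f423f0000061a795b8cc515fe00000f423f) (.cons (nat_lit 1) (nat_lit 7) (nat_lit 0) (nat_lit 0x8805532200) (nat_lit 0xf423fb71ae00000f423f54591f423fb71aea2c2800000f423f) (.cons (nat_lit 3) (nat_lit 5) (nat_lit 0) (nat_lit 0x8747040100) (nat_lit 0xf423fb71ae65b97f423f0000061a7900000f423fb71ae1f156) (.cons (nat_lit 3) (nat_lit 7) (nat_lit 0) (nat_lit 0x8805540100) (nat_lit 0xf423fb71ae00000f423f54591f423f00000f423fb71ae1f156) (.cons (nat_lit 4) (nat_lit 5) (nat_lit 0) (nat_lit 0x8766002100) (nat_lit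 0xf423fb71aea2c28989650000000000f423fb71aea2c2804737) (.cons (nat_lit 4) (nat_lit 7) (nat_lit 0) (nat_lit 0x8805502100) (nat_lit 0xf423fb71ae00000f423f5459100000f423fb71aea2c2804737) .nil)))))) t1590_1) (.non (nat_lit 0) (nat_lit 5) (nat_lit 0x95100) (nat_lit 0x1000200020001000000010000000000000000))) (.non (nat_lit 0) (nat_lit 5) (nat_lit 0x2a100) (nat_lit 0x100020001000000020000000000000000))) (.non (nat_lit 0) (nat_lit 5) (nat_lit 0x2a240) (nat_lit 0x100020001000000020002000000000000))) (.split (nat_lit 0xa) (nat_lit 1) (.split (nat_lit 0xa) (nat_lit 2) (.split (nat_lit 0xa) (nat_lit 3) (.split (nat_lit 0xa) (nat_lit 4) (.split (nat_lit 0xa) (nat_lit 5) (.split (nat_lit 0xa) (nat_lit 6) (.split (nat_lit 0xa) (nat_lit 7) (.split (nat_lit 0xa) (nat_lit 8) (.split (nat_lit 0xa) (nat_lit 9) (.unj (nat_lit 0x100015) (nat_lit 0x10000000000000000000000000000000100020002) (nat_lit 0x15500) (nat_lit 0x100020002000200010000000000000000)) (.non (nat_lit 0) (nat_lit 5) (nat_lit 0x155150) (nat_lit 0x10002000300040002000000030002000100000000)))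 (.non (nat_lit 0) (nat_lit 5) (nat_lit 0x155100) (nat_lit 0x10001000200020001000000010000000000000000))) (.star (nat_lit 0xa) (nat_lit 0) (nat_lit 7))) (.non (nat_lit 0) (nat_lit 5) (nat_lit 0x155140) (nat_lit 0x10001000200030002000000020001000000000000))) (.star (nat_lit 0xa) (nat_lit 0) (nat_lit 5))) (.non (nat_lit 0) (nat_lit 5) (nat_lit 0x115140) (nat_lit 0x10000000100020001000000020001000000000000))) (.non (nat_lit 0) (nat_lit 5) (nat_lit 0x115150) (nat_lit 0x10000000100020001000000020002000100000000))) (.non (nat_lit 0) (nat_lit 5) (nat_lit 0x115154) (nat_lit 0x10000000100020001000000020002000200010000))) (.non (nat_lit 0) (nat_lit 5) (nat_lit 0x155154) (nat_lit 0x10002000400060003000000050004000300020000)))))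

noncomputable def t1590_3 : Tr := (.ex (nat_lit 5) (.pd (.cons (nat_lit 0) (nat_lit 6) (nat_lit 0) (nat_lit 0x8480532110) (nat_lit 0xf423f7a11df423f00000f423f7a11b7a1197a1177a11500000) (.cons (nat_lit 0) (nat_lit 8) (nat_lit 0) (nat_lit 0x9065532110) (nat_lit 0xf423f00000f423fb71ae1f156f423fb71aea2c289896500000) (.cons (nat_lit 1) (nat_lit 6) (nat_lit 0) (nat_lit 0x8480532200) (nat_lit 0xf423f7a11df423f00000f423f7a11b7a1197a11700000f423f) (.cons (nat_lit 1) (nat_lit 8) (nat_lit 0) (nat_lit 0x9065532200) (nat_lit 0xf423f00000f423fb71ae1f156f423fb71aea2c2800000f423f) (.cons (nat_lit 2) (nat_lit 6) (nat_lit 0) (nat_lit 0x8480533000) (nat_lit 0xf423f7a11df423f00000f423f7a11b7a11900000f423f54591) (.cons (nat_lit 2) (nat_lit 8) (nat_lit 0) (nat_lit 0x9065533000) (nat_lit 0xf423f00000f423fb71ae1f156f423fb71ae00000f423f54591) (.cons (nat_lit 3) (nat_lit 6) (nat_lit 0) (nat_lit 0x8480540100) (nat_lit 0xf423f7a11df423f00000f423f7a11b00000f423fb71ae1f156) (.cons (nat_lit 3) (nat_lit 8) (nat_lit 0) (nat_lit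 0x9065540100) (nat_lit 0xf423f00000f423fb71ae1f156f423f00000f423fb71ae1f156) (.cons (nat_lit 4) (nat_lit 6) (nat_lit 0) (nat_lit 0x8770502100) (nat_lit 0xf423fb71aea2c2800000f423f00000f423fb71aea2c2804737) (.cons (nat_lit 4) (nat_lit 8) (nat_lit 0) (nat_lit 0x9065502100) (nat_lit 0xf423f00000f423fb71ae1f15600000f423fb71aea2c2804737) (.cons (nat_lit 4) (nat_lit 9) (nat_lit 0) (nat_lit 0x765502100) (nat_lit 0xf423fb71aea2c280473700000f423fb71aea2c2804737) .nil))))))))))) (.l31 (nat_lit 0x4321098765))) (.split (nat_lit 0xa) (nat_lit 0) (.split (nat_lit 0xa) (nat_lit 1) (.split (nat_lit 0xa) (nat_lit 2) (.split (nat_lit 0xa) (nat_lit 3) (.split (nat_lit 0xa) (nat_lit 4) (.split (nat_lit 0xa) (nat_lit 6) (.split (nat_lit 0xa) (nat_lit 7) (.split (nat_lit 0xa) (nat_lit 8) (.split (nat_lit 0xa) (nat_lit 9) (.unj (nat_lit 0x105400) (nat_lit 0x10000000000010002000200000000000000000000) (nat_lit 0x155) (nat_lit 0x10002000300040003)) (.non (nat_lit 0) (nat_lit 5) (nat_lit 0x155140) (nat_lit 0x10002000300020001000000020001000000000000)))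 (.non (nat_lit 0) (nat_lit 5) (nat_lit 0x154100) (nat_lit 0x10001000200010000000000010000000000000000))) (.non (nat_lit 0) (nat_lit 5) (nat_lit 0x155100) (nat_lit 0x10001000200020001000000010000000000000000))) (.non (nat_lit 0) (nat_lit 5) (nat_lit 0x155150) (nat_lit 0x10002000400030002000000030002000100000000))) (.non (nat_lit 0) (nat_lit 5) (nat_lit 0x154140) (nat_lit 0x10001000200010000000000020001000000000000))) (.non (nat_lit 0) (nat_lit 5) (nat_lit 0x154150) (nat_lit 0x10001000200010000000000020002000100000000))) (.star (nat_lit 0xa) (nat_lit 2) (nat_lit 5))) (.non (nat_lit 0) (nat_lit 5) (nat_lit 0x155154) (nat_lit 0x10003000600040002000000050004000300020000))) (.star (nat_lit 0xa) (nat_lit 0) (nat_lit 5))))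

noncomputable def t1590_4 : Tr := (.st (nat_lit 9) (nat_lit 0) (nat_lit 5) (nat_lit 0x55140) (nat_lit 0x2000300020001000000020001000000000000) (nat_lit 1) (nat_lit 1) (.ex (nat_lit 0) (.split (nat_lit 4) (nat_lit 3) (.split (nat_lit 8) (nat_lit 4) (.split (nat_lit 9) (nat_lit 8) (.pd (.cons (nat_lit 1) (nat_lit 5) (nat_lit 0) (nat_lit 0x8487032200) (nat_lit 0xf423f65b97b71aef423f0000061a795b8cc515fe00000f423f) (.cons (nat_lit 1) (nat_lit 7) (nat_lit 0) (nat_lit 0x8405532200) (nat_lit 0xf423fb71ae00000f423f54591a2c2898965927bd00000f423f) (.cons (nat_lit 3) (nat_lit 5) (nat_lit 0) (nat_lit 0x8487040100) (nat_lit 0xf423f65b97b71aef423f0000061a7900000f423fb71ae1f156) (.cons (nat_lit 3) (nat_lit 7) (nat_lit 0) (nat_lit 0x8405540100) (nat_lit 0xf423fb71ae00000f423f54591a2c2800000f423fb71ae1f156) (.cons (nat_lit 4) (nat_lit 5) (nat_lit 0) (nat_lit 0x8766002100) (nat_lit 0xf423fb71aea2c28989650000000000f423fb71aea2c2804737) (.cons (nat_lit 4) (nat_lit 7) (nat_lit 0) (nat_lit 0x8805502100) (nat_lit 0xf423fb71ae00000f423f5459100000f423fb71aea2c2804737)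 .nil)))))) t1590_3) (.non (nat_lit 0) (nat_lit 5) (nat_lit 0x94100) (nat_lit 0x1000200010000000000010000000000000000))) (.non (nat_lit 0) (nat_lit 5) (nat_lit 0xa8100) (nat_lit 0x1000200010000000000020000000000000000))) (.non (nat_lit 0) (nat_lit 5) (nat_lit 0xa8240) (nat_lit 0x1000200010000000000020002000000000000))) (.split (nat_lit 0xa) (nat_lit 1) (.split (nat_lit 0xa) (nat_lit 2) (.split (nat_lit 0xa) (nat_lit 3) (.split (nat_lit 0xa) (nat_lit 4) (.split (nat_lit 0xa) (nat_lit 5) (.split (nat_lit 0xa) (nat_lit 6) (.split (nat_lit 0xa) (nat_lit 7) (.split (nat_lit 0xa) (nat_lit 8) (.split (nat_lit 0xa) (nat_lit 9) (.unj (nat_lit 0x100015) (nat_lit 0x10000000000000000000000000000000100020002) (nat_lit 0x15500) (nat_lit 0x200030004000300010000000000000000)) (.non (nat_lit 0) (nat_lit 5) (nat_lit 0x155140) (nat_lit 0x10002000300020001000000020001000000000000))) (.non (nat_lit 0) (nat_lit 5) (nat_lit 0x154100) (nat_lit 0x10001000200010000000000010000000000000000))) (.star (nat_lit 0xa) (nat_lit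 0) (nat_lit 7))) (.non (nat_lit 0) (nat_lit 5) (nat_lit 0x155150) (nat_lit 0x10002000400030002000000030002000100000000))) (.star (nat_lit 0xa) (nat_lit 0) (nat_lit 5))) (.non (nat_lit 0) (nat_lit 5) (nat_lit 0x154140) (nat_lit 0x10001000200010000000000020001000000000000))) (.non (nat_lit 0) (nat_lit 5) (nat_lit 0x154150) (nat_lit 0x10001000200010000000000020002000100000000))) (.non (nat_lit 0) (nat_lit 5) (nat_lit 0x154154) (nat_lit 0x10001000200010000000000020002000200010000))) (.non (nat_lit 0) (nat_lit 5) (nat_lit 0x155154) (nat_lit 0x10003000600040002000000050004000300020000)))))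

noncomputable def t1590_5 : Tr := (.ex (nat_lit 5) (.pd (.cons (nat_lit 0) (nat_lit 6) (nat_lit 0) (nat_lit 0x3980532110) (nat_lit 0xa2c28b71aef423f00000f423ff423f5b8d45160d3d07c00000) (.cons (nat_lit 0) (nat_lit 8) (nat_lit 0) (nat_lit 0x3065532110) (nat_lit 0xf423f00000f423fb71ae1f156f423f7a11d7a11b7a11900000) (.cons (nat_lit 0) (nat_lit 9) (nat_lit 0) (nat_lit 0x765532110) (nat_lit 0xf423fb71aea2c2804737f423fb71aea2c289896500000) (.cons (nat_lit 1) (nat_lit 6) (nat_lit 0) (nat_lit 0x3980532200) (nat_lit 0xa2c28b71aef423f00000f423ff423f5b8d45160d00000f423f) (.cons (nat_lit 1) (nat_lit 8) (nat_lit 0) (nat_lit 0x3065532200) (nat_lit 0xf423f00000f423fb71ae1f156f423f7a11d7a11b00000f423f) (.cons (nat_lit 1) (nat_lit 9) (nat_lit 0) (nat_lit 0x765532200) (nat_lit 0xf423fb71aea2c2804737f423fb71aea2c2800000f423f) (.cons (nat_lit 2) (nat_lit 6) (nat_lit 0) (nat_lit 0x3980533000) (nat_lit 0xa2c28b71aef423f00000f423ff423f5b8d400000f423f54591) (.cons (nat_lit 2) (nat_lit 8) (nat_lit 0) (nat_lit 0x3065533000)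 (nat_lit 0xf423f00000f423fb71ae1f156f423f7a11d00000f423f54591) (.cons (nat_lit 2) (nat_lit 9) (nat_lit 0) (nat_lit 0x765533000) (nat_lit 0xf423fb71aea2c2804737f423fb71ae00000f423f54591) (.cons (nat_lit 3) (nat_lit 6) (nat_lit 0) (nat_lit 0x8770540100) (nat_lit 0xf423fb71aea2c2800000f423ff423f00000f423fb71ae1f156) (.cons (nat_lit 3) (nat_lit 8) (nat_lit 0) (nat_lit 0x9065540100) (nat_lit 0xf423f00000f423fb71ae1f156f423f00000f423fb71ae1f156) (.cons (nat_lit 3) (nat_lit 9) (nat_lit 0) (nat_lit 0x765540100) (nat_lit 0xf423fb71aea2c2804737f423f00000f423fb71ae1f156) (.cons (nat_lit 4) (nat_lit 9) (nat_lit 0) (nat_lit 0x765502100) (nat_lit 0xf423fb71aea2c280473700000f423fb71aea2c2804737) .nil))))))))))))) (.l31 (nat_lit 0x9876543210))) (.split (nat_lit 0xa) (nat_lit 0) (.split (nat_lit 0xa) (nat_lit 1) (.split (nat_lit 0xa) (nat_lit 2) (.split (nat_lit 0xa) (nat_lit 3) (.split (nat_lit 0xa) (nat_lit 4) (.split (nat_lit 0xa) (nat_lit 6) (.split (nat_lit 0xa) (nat_lit 7) (.split (nat_lit 0xa) (nat_lit 8)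 (.split (nat_lit 0xa) (nat_lit 9) (.unj (nat_lit 0x105400) (nat_lit 0x10000000000010002000200000000000000000000) (nat_lit 0x155) (nat_lit 0x10002000300040003)) (.non (nat_lit 0) (nat_lit 5) (nat_lit 0x150150) (nat_lit 0x10002000100000000000000010002000100000000))) (.non (nat_lit 0) (nat_lit 5) (nat_lit 0x154150) (nat_lit 0x10002000200010000000000010002000100000000))) (.non (nat_lit 0) (nat_lit 5) (nat_lit 0x155150) (nat_lit 0x10002000200020001000000010002000100000000))) (.non (nat_lit 0) (nat_lit 5) (nat_lit 0x155154) (nat_lit 0x10005000400030002000000030006000400020000))) (.non (nat_lit 0) (nat_lit 5) (nat_lit 0x150154) (nat_lit 0x10002000100000000000000020003000200010000))) (.non (nat_lit 0) (nat_lit 5) (nat_lit 0x140150) (nat_lit 0x10001000000000000000000010002000100000000))) (.star (nat_lit 0xa) (nat_lit 2) (nat_lit 5))) (.non (nat_lit 0) (nat_lit 5) (nat_lit 0x154154) (nat_lit 0x10003000200010000000000020004000300020000))) (.star (nat_lit 0xa) (nat_lit 0) (nat_lit 5))))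

noncomputable def t1590_6 : Tr := (.st (nat_lit 8) (nat_lit 0) (nat_lit 5) (nat_lit 0x54150) (nat_lit 0x2000200010000000000010002000100000000) (nat_lit 1) (nat_lit 1) (.st (nat_lit 9) (nat_lit 0) (nat_lit 5) (nat_lit 0x50150) (nat_lit 0x2000100000000000000010002000100000000) (nat_lit 1) (nat_lit 1) (.ex (nat_lit 0) (.split (nat_lit 4) (nat_lit 3) (.split (nat_lit 9) (nat_lit 3) (.split (nat_lit 9) (nat_lit 8) (.pd (.cons (nat_lit 1) (nat_lit 5) (nat_lit 0) (nat_lit 0x3987032200) (nat_lit 0x98965a2c28b71aef423f00000f423f5572c45c0900000f423f) (.cons (nat_lit 1) (nat_lit 7) (nat_lit 0) (nat_lit 0x3905532200) (nat_lit 0xb71aef423f00000f423f54591f423f65b9761a7900000f423f) (.cons (nat_lit 3) (nat_lit 5) (nat_lit 0) (nat_lit 0x8766040100) (nat_lit 0xf423fb71aea2c289896500000f423f00000f423fb71ae1f156) (.cons (nat_lit 3) (nat_lit 7) (nat_lit 0) (nat_lit 0x8805540100) (nat_lit 0xf423fb71ae00000f423f54591f423f00000f423fb71ae1f156) .nil)))) t1590_5) (.non (nat_lit 0) (nat_lit 5) (nat_lit 0x6a040) (nat_lit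 0x4000300020001000000000002000000000000))) (.non (nat_lit 0) (nat_lit 5) (nat_lit 0xa8140) (nat_lit 0x3000200010000000000020004000000000000))) (.non (nat_lit 0) (nat_lit 5) (nat_lit 0x40250) (nat_lit 0x1000000000000000000010002000100000000))) (.split (nat_lit 0xa) (nat_lit 1) (.split (nat_lit 0xa) (nat_lit 2) (.split (nat_lit 0xa) (nat_lit 3) (.split (nat_lit 0xa) (nat_lit 4) (.split (nat_lit 0xa) (nat_lit 5) (.split (nat_lit 0xa) (nat_lit 6) (.split (nat_lit 0xa) (nat_lit 7) (.split (nat_lit 0xa) (nat_lit 8) (.split (nat_lit 0xa) (nat_lit 9) (.unj (nat_lit 0x100015) (nat_lit 0x10000000000000000000000000000000100020002) (nat_lit 0x55400) (nat_lit 0x1000200030004000300000000000000000000)) (.non (nat_lit 0) (nat_lit 5) (nat_lit 0x150150) (nat_lit 0x10002000100000000000000010002000100000000))) (.non (nat_lit 0) (nat_lit 5) (nat_lit 0x154150) (nat_lit 0x10002000200010000000000010002000100000000))) (.star (nat_lit 0xa) (nat_lit 0) (nat_lit 7))) (.non (nat_lit 0) (nat_lit 5) (nat_lit 0x155154) (nat_lit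 0x10005000400030002000000030006000400020000))) (.star (nat_lit 0xa) (nat_lit 0) (nat_lit 5))) (.non (nat_lit 0) (nat_lit 5) (nat_lit 0x150154) (nat_lit 0x10002000100000000000000020003000200010000))) (.non (nat_lit 0) (nat_lit 5) (nat_lit 0x140150) (nat_lit 0x10001000000000000000000010002000100000000))) (.non (nat_lit 0) (nat_lit 5) (nat_lit 0x140154) (nat_lit 0x10001000000000000000000010002000200010000))) (.non (nat_lit 0) (nat_lit 5) (nat_lit 0x154154) (nat_lit 0x10003000200010000000000020004000300020000))))))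

noncomputable def t1590_7 : Tr := (.split (nat_lit 9) (nat_lit 3) (.split (nat_lit 9) (nat_lit 4) (.split (nat_lit 8) (nat_lit 4) (.split (nat_lit 7) (nat_lit 4) .uj (.st (nat_lit 1) (nat_lit 0) (nat_lit 5) (nat_lit 0x55154) (nat_lit 0x2000400060003000000050004000300020000) (nat_lit 1) (nat_lit 1) (.st (nat_lit 2) (nat_lit 0) (nat_lit 5) (nat_lit 0x15154) (nat_lit 0x100020001000000020002000200010000) (nat_lit 1) (nat_lit 1) (.st (nat_lit 3) (nat_lit 0) (nat_lit 5) (nat_lit 0x15150) (nat_lit 0x100020001000000020002000100000000) (nat_lit 1) (nat_lit 1) (.st (nat_lit 4) (nat_lit 0) (nat_lit 5) (nat_lit 0x15140) (nat_lit 0x100020001000000020001000000000000) (nat_lit 1) (nat_lit 1) (.st (nat_lit 6) (nat_lit 0) (nat_lit 5) (nat_lit 0x55140) (nat_lit 0x1000200030002000000020001000000000000) (nat_lit 1) (nat_lit 1) (.st (nat_lit 7) (nat_lit 0) (nat_lit 5) (nat_lit 0x15100) (nat_lit 0x100020001000000010000000000000000) (nat_lit 1) (nat_lit 1) (.st (nat_lit 8) (nat_lit 0) (nat_lit 5) (nat_lit 0x55100) (nat_lit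 0x1000200020001000000010000000000000000) (nat_lit 1) (nat_lit 1) t1590_2)))))))) (.split (nat_lit 7) (nat_lit 4) (.st (nat_lit 1) (nat_lit 0) (nat_lit 5) (nat_lit 0x55154) (nat_lit 0x3000600040002000000050004000300020000) (nat_lit 1) (nat_lit 1) (.st (nat_lit 2) (nat_lit 0) (nat_lit 5) (nat_lit 0x54154) (nat_lit 0x1000200010000000000020002000200010000) (nat_lit 1) (nat_lit 1) (.st (nat_lit 3) (nat_lit 0) (nat_lit 5) (nat_lit 0x54150) (nat_lit 0x1000200010000000000020002000100000000) (nat_lit 1) (nat_lit 1) (.st (nat_lit 4) (nat_lit 0) (nat_lit 5) (nat_lit 0x54140) (nat_lit 0x1000200010000000000020001000000000000) (nat_lit 1) (nat_lit 1) (.st (nat_lit 6) (nat_lit 0) (nat_lit 5) (nat_lit 0x55150) (nat_lit 0x2000400030002000000030002000100000000) (nat_lit 1) (nat_lit 1) (.st (nat_lit 7) (nat_lit 0) (nat_lit 5) (nat_lit 0x55100) (nat_lit 0x1000200020001000000010000000000000000) (nat_lit 1) (nat_lit 1) (.st (nat_lit 8) (nat_lit 0) (nat_lit 5) (nat_lit 0x54100) (nat_lit 0x1000200010000000000010000000000000000)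 (nat_lit 1) (nat_lit 1) t1590_4))))))) (.non (nat_lit 0) (nat_lit 5) (nat_lit 0x14100) (nat_lit 0x100010000000000010000000000000000)))) (.split (nat_lit 8) (nat_lit 4) (.split (nat_lit 7) (nat_lit 4) (.sup (nat_lit 0x100040007000a0008) (nat_lit 0x100040007000a000800000000000000000000)) (.non (nat_lit 0) (nat_lit 5) (nat_lit 0x54100) (nat_lit 0x1000100010000000000010000000000000000))) (.non (nat_lit 0) (nat_lit 5) (nat_lit 0x50100) (nat_lit 0x1000100000000000000010000000000000000)))) (.split (nat_lit 9) (nat_lit 4) (.split (nat_lit 8) (nat_lit 4) (.split (nat_lit 7) (nat_lit 4) (.st (nat_lit 1) (nat_lit 0) (nat_lit 5) (nat_lit 0x54154) (nat_lit 0x3000200010000000000020004000300020000) (nat_lit 1) (nat_lit 1) (.st (nat_lit 2) (nat_lit 0) (nat_lit 5) (nat_lit 0x40154) (nat_lit 0x1000000000000000000010002000200010000) (nat_lit 1) (nat_lit 1) (.st (nat_lit 3) (nat_lit 0) (nat_lit 5) (nat_lit 0x40150) (nat_lit 0x1000000000000000000010002000100000000) (nat_lit 1) (nat_lit 1) (.st (nat_lit 4) (nat_lit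 0) (nat_lit 5) (nat_lit 0x50154) (nat_lit 0x2000100000000000000020003000200010000) (nat_lit 1) (nat_lit 1) (.st (nat_lit 6) (nat_lit 0) (nat_lit 5) (nat_lit 0x55154) (nat_lit 0x5000400030002000000030006000400020000) (nat_lit 1) (nat_lit 1) (.st (nat_lit 7) (nat_lit 0) (nat_lit 5) (nat_lit 0x55150) (nat_lit 0x2000200020001000000010002000100000000) (nat_lit 1) (nat_lit 1) t1590_6)))))) (.non (nat_lit 0) (nat_lit 5) (nat_lit 0x54140) (nat_lit 0x1000100010000000000010001000000000000))) (.non (nat_lit 0) (nat_lit 5) (nat_lit 0x50140) (nat_lit 0x1000100000000000000010001000000000000))) (.non (nat_lit 0) (nat_lit 5) (nat_lit 0x40140) (nat_lit 0x1000000000000000000010001000000000000))))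

noncomputable def t1590_8 : Tr := (.ex (nat_lit 5) (.pd (.cons (nat_lit 0) (nat_lit 6) (nat_lit 0) (nat_lit 0x2980532110) (nat_lit 0xa2c28b71aef423f00000f423ff423fb71ae4734e22dfa00000) (.cons (nat_lit 0) (nat_lit 8) (nat_lit 0) (nat_lit 0x2065532110) (nat_lit 0xf423f00000f423fb71ae1f156f423fb71ae65b9761a7900000) (.cons (nat_lit 0) (nat_lit 9) (nat_lit 0) (nat_lit 0x765532110) (nat_lit 0xf423fb71aea2c2804737f423fb71aea2c289896500000) (.cons (nat_lit 1) (nat_lit 6) (nat_lit 0) (nat_lit 0x2980532200) (nat_lit 0xa2c28b71aef423f00000f423ff423fb71ae4734e00000f423f) (.cons (nat_lit 1) (nat_lit 8) (nat_lit 0) (nat_lit 0x2065532200) (nat_lit 0xf423f00000f423fb71ae1f156f423fb71ae65b9700000f423f) (.cons (nat_lit 1) (nat_lit 9) (nat_lit 0) (nat_lit 0x765532200) (nat_lit 0xf423fb71aea2c2804737f423fb71aea2c2800000f423f) (.cons (nat_lit 2) (nat_lit 6) (nat_lit 0) (nat_lit 0x8770533000) (nat_lit 0xf423fb71aea2c2800000f423ff423fb71ae00000f423f54591) (.cons (nat_lit 2) (nat_lit 8) (nat_lit 0) (nat_lit 0x9065533000)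 (nat_lit 0xf423f00000f423fb71ae1f156f423fb71ae00000f423f54591) (.cons (nat_lit 2) (nat_lit 9) (nat_lit 0) (nat_lit 0x765533000) (nat_lit 0xf423fb71aea2c2804737f423fb71ae00000f423f54591) (.cons (nat_lit 3) (nat_lit 8) (nat_lit 0) (nat_lit 0x2065540100) (nat_lit 0xf423f00000f423fb71ae1f156f423f00000b71aea2c2804737) (.cons (nat_lit 3) (nat_lit 9) (nat_lit 0) (nat_lit 0x765540100) (nat_lit 0xf423fb71aea2c2804737f423f00000f423fb71ae1f156) (.cons (nat_lit 4) (nat_lit 9) (nat_lit 0) (nat_lit 0x765502100) (nat_lit 0xf423fb71aea2c280473700000f423fb71aea2c2804737) .nil)))))))))))) (.leaf (.cons (nat_lit 0x50015) (nat_lit 0x2000100000000000000000000000300040003) (.cons (nat_lit 0x40055) (nat_lit 0x1000000000000000000000001000200020002) .nil)) (.cons (nat_lit 0x1111011110) (nat_lit 0x100001) (nat_lit 0xe) (nat_lit 0x4567032010) (.cons (nat_lit 0x1110011110) (nat_lit 0x1000001) (nat_lit 0xd) (nat_lit 0x4560032010) (.cons (nat_lit 0x1100011110) (nat_lit 0x10000001) (nat_lit 0xc) (nat_lit 0x4500032010) (.cons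 (nat_lit 0x1000011110) (nat_lit 0x100000001) (nat_lit 8) (nat_lit 0x2000043010) (.cons (nat_lit 0x1111011100) (nat_lit 0x100010) (nat_lit 5) (nat_lit 0x3456001200) (.cons (nat_lit 0x1110011100) (nat_lit 0x1000010) (nat_lit 4) (nat_lit 0x3450001200) (.cons (nat_lit 0x1100011100) (nat_lit 0x10000010) (nat_lit 3) (nat_lit 0x3400001200) (.cons (nat_lit 0x1000000111) (nat_lit 0x100001000) (nat_lit 0x10) (nat_lit 0x3000000210) .nil)))))))))) (.split (nat_lit 0xa) (nat_lit 0) (.split (nat_lit 0xa) (nat_lit 1) (.split (nat_lit 0xa) (nat_lit 2) (.split (nat_lit 0xa) (nat_lit 3) (.split (nat_lit 0xa) (nat_lit 4) (.split (nat_lit 0xa) (nat_lit 6) (.split (nat_lit 0xa) (nat_lit 7) (.split (nat_lit 0xa) (nat_lit 8) (.split (nat_lit 0xa) (nat_lit 9) (.unj (nat_lit 0x105400) (nat_lit 0x10000000000010002000200000000000000000000) (nat_lit 0x155) (nat_lit 0x10002000300040003)) (.non (nat_lit 0) (nat_lit 5) (nat_lit 0x155150) (nat_lit 0x20004000300020001000000010002000300000000))) (.non (nat_lit 0) (nat_lit 5) (nat_lit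 0x154054) (nat_lit 0x10002000200010000000000000001000200010000))) (.non (nat_lit 0) (nat_lit 5) (nat_lit 0x155054) (nat_lit 0x10002000200020001000000000001000200010000))) (.non (nat_lit 0) (nat_lit 5) (nat_lit 0x155154) (nat_lit 0x10005000400030002000000020004000600030000))) (.non (nat_lit 0) (nat_lit 5) (nat_lit 0x154154) (nat_lit 0x10003000200010000000000020003000400020000))) (.non (nat_lit 0) (nat_lit 5) (nat_lit 0x140154) (nat_lit 0x10001000000000000000000010002000200010000))) (.star (nat_lit 0xa) (nat_lit 2) (nat_lit 5))) (.non (nat_lit 0) (nat_lit 5) (nat_lit 0x150154) (nat_lit 0x10002000100000000000000010002000300020000))) (.star (nat_lit 0xa) (nat_lit 0) (nat_lit 5))))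

noncomputable def t1590_9 : Tr := (.st (nat_lit 4) (nat_lit 0) (nat_lit 5) (nat_lit 0x54154) (nat_lit 0x3000200010000000000020003000400020000) (nat_lit 1) (nat_lit 1) (.st (nat_lit 6) (nat_lit 0) (nat_lit 5) (nat_lit 0x55154) (nat_lit 0x5000400030002000000020004000600030000) (nat_lit 1) (nat_lit 1) (.st (nat_lit 7) (nat_lit 0) (nat_lit 5) (nat_lit 0x55054) (nat_lit 0x2000200020001000000000001000200010000) (nat_lit 1) (nat_lit 1) (.st (nat_lit 8) (nat_lit 0) (nat_lit 5) (nat_lit 0x54054) (nat_lit 0x2000200010000000000000001000200010000) (nat_lit 1) (nat_lit 1) (.st (nat_lit 9) (nat_lit 0) (nat_lit 5) (nat_lit 0x55150) (nat_lit 0x4000300020001000000010002000300000000) (nat_lit 1) (nat_lit 2) (.ex (nat_lit 0) (.split (nat_lit 9) (nat_lit 2) (.split (nat_lit 4) (nat_lit 3) (.split (nat_lit 9) (nat_lit 8) (.pd (.cons (nat_lit 1) (nat_lit 5) (nat_lit 0) (nat_lit 0x2987032200) (nat_lit 0x98965a2c28b71aef423f00000f423fb71ae411a600000f423f) (.cons (nat_lit 1) (nat_lit 7) (nat_lit 0) (nat_lit 0x2905532200)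 (nat_lit 0xb71aef423f00000f423f54591f423fb71ae5161100000f423f) .nil)) t1590_8) (.non (nat_lit 0) (nat_lit 5) (nat_lit 0x6a010) (nat_lit 0x4000300020001000000000000000200000000))) (.non (nat_lit 0) (nat_lit 5) (nat_lit 0x40254) (nat_lit 0x1000000000000000000010002000200010000))) (.non (nat_lit 0) (nat_lit 5) (nat_lit 0xa8050) (nat_lit 0x3000200010000000000000002000400000000))) (.split (nat_lit 0xa) (nat_lit 1) (.split (nat_lit 0xa) (nat_lit 2) (.split (nat_lit 0xa) (nat_lit 3) (.split (nat_lit 0xa) (nat_lit 4) (.split (nat_lit 0xa) (nat_lit 5) (.split (nat_lit 0xa) (nat_lit 6) (.split (nat_lit 0xa) (nat_lit 7) (.split (nat_lit 0xa) (nat_lit 8) (.split (nat_lit 0xa) (nat_lit 9) (.sup (nat_lit 0x5000000000000000000000000000000020009000a) (nat_lit 0x100040007000a000800000000000000000000)) (.non (nat_lit 0) (nat_lit 5) (nat_lit 0x155150) (nat_lit 0x20004000300020001000000010002000300000000))) (.non (nat_lit 0) (nat_lit 5) (nat_lit 0x154054) (nat_lit 0x10002000200010000000000000001000200010000))) (.star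 (nat_lit 0xa) (nat_lit 0) (nat_lit 7))) (.non (nat_lit 0) (nat_lit 5) (nat_lit 0x155154) (nat_lit 0x10005000400030002000000020004000600030000))) (.star (nat_lit 0xa) (nat_lit 0) (nat_lit 5))) (.non (nat_lit 0) (nat_lit 5) (nat_lit 0x154154) (nat_lit 0x10003000200010000000000020003000400020000))) (.non (nat_lit 0) (nat_lit 5) (nat_lit 0x140154) (nat_lit 0x10001000000000000000000010002000200010000))) (.non (nat_lit 0) (nat_lit 5) (nat_lit 0x140054) (nat_lit 0x10001000000000000000000000001000200010000))) (.non (nat_lit 0) (nat_lit 5) (nat_lit 0x150154) (nat_lit 0x10002000100000000000000010002000300020000)))))))))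

noncomputable def t1590 : Tr := (.split (nat_lit 9) (nat_lit 0) (.split (nat_lit 9) (nat_lit 1) (.split (nat_lit 8) (nat_lit 1) (.split (nat_lit 8) (nat_lit 3) (.split (nat_lit 6) (nat_lit 1) (.split (nat_lit 6) (nat_lit 3) (.split (nat_lit 6) (nat_lit 4) (.split (nat_lit 5) (nat_lit 4) (.split (nat_lit 9) (nat_lit 2) t1590_7 (.split (nat_lit 9) (nat_lit 3) (.split (nat_lit 9) (nat_lit 4) (.split (nat_lit 8) (nat_lit 4) (.split (nat_lit 7) (nat_lit 4) (.st (nat_lit 1) (nat_lit 0) (nat_lit 5) (nat_lit 0x50154) (nat_lit 0x2000100000000000000010002000300020000) (nat_lit 1) (nat_lit 1) (.st (nat_lit 2) (nat_lit 0) (nat_lit 5) (nat_lit 0x40054) (nat_lit 0x1000000000000000000000001000200010000) (nat_lit 1) (nat_lit 1) (.st (nat_lit 3) (nat_lit 0) (nat_lit 5) (nat_lit 0x40154) (nat_lit 0x1000000000000000000010002000200010000) (nat_lit 1) (nat_lit 1) t1590_9))) (.non (nat_lit 0) (nat_lit 5) (nat_lit 0x54150) (nat_lit 0x1000100010000000000010001000100000000))) (.non (nat_lit 0) (nat_lit 5) (nat_lit 0x50150)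 (nat_lit 0x1000100000000000000010001000100000000))) (.non (nat_lit 0) (nat_lit 5) (nat_lit 0x40150) (nat_lit 0x1000000000000000000010001000100000000))) (.non (nat_lit 0) (nat_lit 5) (nat_lit 0x40050) (nat_lit 0x1000000000000000000000001000100000000)))) (.non (nat_lit 0) (nat_lit 7) (nat_lit 0x1550) (nat_lit 0x3000400030002000100000000))) (.non (nat_lit 0) (nat_lit 7) (nat_lit 0x1550) (nat_lit 0x4000300030002000100000000))) (.non (nat_lit 0) (nat_lit 7) (nat_lit 0x1550) (nat_lit 0x2000200010002000100000000))) (.non (nat_lit 0) (nat_lit 7) (nat_lit 0x1454) (nat_lit 0x4000300000001000200030000))) (.non (nat_lit 0) (nat_lit 5) (nat_lit 0x54150) (nat_lit 0x1000200010000000000010002000100000000))) (.non (nat_lit 2) (nat_lit 5) (nat_lit 0x54005) (nat_lit 0x1000200010000000000000000000000020002))) (.non (nat_lit 2) (nat_lit 5) (nat_lit 0x54005) (nat_lit 0x3000200010000000000000000000000040003))) (.non (nat_lit 2) (nat_lit 5) (nat_lit 0x54005) (nat_lit 0x3000200010000000000000000000000030004)))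

noncomputable def t1591_1 : Tr := (.ex (nat_lit 0) (.pd (.cons (nat_lit 1) (nat_lit 5) (nat_lit 0) (nat_lit 0x8487032200) (nat_lit 0xf423f65b97b71aef423f0000061a795b8cc515fe00000f423f) (.cons (nat_lit 1) (nat_lit 6) (nat_lit 0) (nat_lit 0x8480532200) (nat_lit 0xf423f7a11df423f00000f423f7a11b7a1197a11700000f423f) (.cons (nat_lit 1) (nat_lit 7) (nat_lit 0) (nat_lit 0x8405532200) (nat_lit 0xf423fb71ae00000f423f54591a2c2898965927bd00000f423f) (.cons (nat_lit 1) (nat_lit 8) (nat_lit 0) (nat_lit 0x9065532200) (nat_lit 0xf423f00000f423fb71ae1f156f423fb71aea2c2800000f423f) (.cons (nat_lit 3) (nat_lit 5) (nat_lit 0) (nat_lit 0x8487040100) (nat_lit 0xf423f65b97b71aef423f0000061a7900000f423fb71ae1f156) (.cons (nat_lit 3) (nat_lit 6) (nat_lit 0) (nat_lit 0x8480540100) (nat_lit 0xf423f7a11df423f00000f423f7a11b00000f423fb71ae1f156) (.cons (nat_lit 3) (nat_lit 7) (nat_lit 0) (nat_lit 0x8405540100) (nat_lit 0xf423fb71ae00000f423f54591a2c2800000f423fb71ae1f156) (.cons (nat_lit 3) (nat_lit 8) (nat_lit 0) (nat_lit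 0x9065540100) (nat_lit 0xf423f00000f423fb71ae1f156f423f00000f423fb71ae1f156) (.cons (nat_lit 4) (nat_lit 5) (nat_lit 0) (nat_lit 0x8766002100) (nat_lit 0xf423fb71aea2c28989650000000000f423fb71aea2c2804737) (.cons (nat_lit 4) (nat_lit 6) (nat_lit 0) (nat_lit 0x8770502100) (nat_lit 0xf423fb71aea2c2800000f423f00000f423fb71aea2c2804737) (.cons (nat_lit 4) (nat_lit 7) (nat_lit 0) (nat_lit 0x8805502100) (nat_lit 0xf423fb71ae00000f423f5459100000f423fb71aea2c2804737) (.cons (nat_lit 4) (nat_lit 8) (nat_lit 0) (nat_lit 0x9065502100) (nat_lit 0xf423f00000f423fb71ae1f15600000f423fb71aea2c2804737) (.cons (nat_lit 4) (nat_lit 9) (nat_lit 0) (nat_lit 0x765502100) (nat_lit 0xf423fb71aea2c280473700000f423fb71aea2c2804737) .nil))))))))))))) (.l31 (nat_lit 0x4321098765))) (.split (nat_lit 0xa) (nat_lit 1) (.split (nat_lit 0xa) (nat_lit 2) (.split (nat_lit 0xa) (nat_lit 3) (.split (nat_lit 0xa) (nat_lit 4) (.split (nat_lit 0xa) (nat_lit 5) (.split (nat_lit 0xa) (nat_lit 6) (.split (nat_lit 0xa) (nat_lit 7) (.split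 (nat_lit 0xa) (nat_lit 8) (.split (nat_lit 0xa) (nat_lit 9) (.unj (nat_lit 0x100015) (nat_lit 0x10000000000000000000000000000000100020002) (nat_lit 0x15500) (nat_lit 0x200030004000300010000000000000000)) (.non (nat_lit 0) (nat_lit 5) (nat_lit 0x155140) (nat_lit 0x10002000300020001000000020001000000000000))) (.star (nat_lit 0xa) (nat_lit 0) (nat_lit 8))) (.non (nat_lit 0) (nat_lit 5) (nat_lit 0x155100) (nat_lit 0x10001000200020001000000010000000000000000))) (.non (nat_lit 0) (nat_lit 5) (nat_lit 0x155150) (nat_lit 0x10002000400030002000000030002000100000000))) (.star (nat_lit 0xa) (nat_lit 0) (nat_lit 5))) (.non (nat_lit 0) (nat_lit 5) (nat_lit 0x154140) (nat_lit 0x10001000200010000000000020001000000000000))) (.non (nat_lit 0) (nat_lit 5) (nat_lit 0x154150) (nat_lit 0x10001000200010000000000020002000100000000))) (.non (nat_lit 0) (nat_lit 5) (nat_lit 0x154154) (nat_lit 0x10001000200010000000000020002000200010000))) (.non (nat_lit 0) (nat_lit 5) (nat_lit 0x155154) (nat_lit 0x10003000600040002000000050004000300020000))))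

noncomputable def t1591_2 : Tr := (.ex (nat_lit 0) (.pd (.cons (nat_lit 1) (nat_lit 5) (nat_lit 0) (nat_lit 0x3987032200) (nat_lit 0x98965a2c28b71aef423f00000f423f5572c45c0900000f423f) (.cons (nat_lit 1) (nat_lit 6) (nat_lit 0) (nat_lit 0x3980532200) (nat_lit 0xa2c28b71aef423f00000f423ff423f5b8d45160d00000f423f) (.cons (nat_lit 1) (nat_lit 7) (nat_lit 0) (nat_lit 0x3905532200) (nat_lit 0xb71aef423f00000f423f54591f423f65b9761a7900000f423f) (.cons (nat_lit 1) (nat_lit 8) (nat_lit 0) (nat_lit 0x3065532200) (nat_lit 0xf423f00000f423fb71ae1f156f423f7a11d7a11b00000f423f) (.cons (nat_lit 1) (nat_lit 9) (nat_lit 0) (nat_lit 0x765532200) (nat_lit 0xf423fb71aea2c2804737f423fb71aea2c2800000f423f) (.cons (nat_lit 3) (nat_lit 5) (nat_lit 0) (nat_lit 0x8766040100) (nat_lit 0xf423fb71aea2c289896500000f423f00000f423fb71ae1f156) (.cons (nat_lit 3) (nat_lit 6) (nat_lit 0) (nat_lit 0x8770540100) (nat_lit 0xf423fb71aea2c2800000f423ff423f00000f423fb71ae1f156) (.cons (nat_lit 3) (nat_lit 7) (nat_lit 0) (nat_lit 0x8805540100)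 (nat_lit 0xf423fb71ae00000f423f54591f423f00000f423fb71ae1f156) (.cons (nat_lit 3) (nat_lit 8) (nat_lit 0) (nat_lit 0x9065540100) (nat_lit 0xf423f00000f423fb71ae1f156f423f00000f423fb71ae1f156) (.cons (nat_lit 3) (nat_lit 9) (nat_lit 0) (nat_lit 0x765540100) (nat_lit 0xf423fb71aea2c2804737f423f00000f423fb71ae1f156) (.cons (nat_lit 4) (nat_lit 9) (nat_lit 0) (nat_lit 0x765502100) (nat_lit 0xf423fb71aea2c280473700000f423fb71aea2c2804737) .nil))))))))))) (.l31 (nat_lit 0x9876543210))) (.split (nat_lit 0xa) (nat_lit 1) (.split (nat_lit 0xa) (nat_lit 2) (.split (nat_lit 0xa) (nat_lit 3) (.split (nat_lit 0xa) (nat_lit 4) (.split (nat_lit 0xa) (nat_lit 5) (.split (nat_lit 0xa) (nat_lit 6) (.split (nat_lit 0xa) (nat_lit 7) (.split (nat_lit 0xa) (nat_lit 8) (.split (nat_lit 0xa) (nat_lit 9) (.unj (nat_lit 0x100015) (nat_lit 0x10000000000000000000000000000000100020002) (nat_lit 0x55400) (nat_lit 0x1000200030004000300000000000000000000)) (.non (nat_lit 0) (nat_lit 5) (nat_lit 0x150150) (nat_lit 0x10002000100000000000000010002000100000000)))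 (.star (nat_lit 0xa) (nat_lit 0) (nat_lit 8))) (.non (nat_lit 0) (nat_lit 5) (nat_lit 0x155150) (nat_lit 0x10002000200020001000000010002000100000000))) (.non (nat_lit 0) (nat_lit 5) (nat_lit 0x155154) (nat_lit 0x10005000400030002000000030006000400020000))) (.star (nat_lit 0xa) (nat_lit 0) (nat_lit 5))) (.non (nat_lit 0) (nat_lit 5) (nat_lit 0x150154) (nat_lit 0x10002000100000000000000020003000200010000))) (.non (nat_lit 0) (nat_lit 5) (nat_lit 0x140150) (nat_lit 0x10001000000000000000000010002000100000000))) (.non (nat_lit 0) (nat_lit 5) (nat_lit 0x140154) (nat_lit 0x10001000000000000000000010002000200010000))) (.non (nat_lit 0) (nat_lit 5) (nat_lit 0x154154) (nat_lit 0x10003000200010000000000020004000300020000))))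

noncomputable def t1591_3 : Tr := (.split (nat_lit 9) (nat_lit 3) (.split (nat_lit 9) (nat_lit 4) (.split (nat_lit 8) (nat_lit 4) .uj (.st (nat_lit 1) (nat_lit 0) (nat_lit 5) (nat_lit 0x55154) (nat_lit 0x3000600040002000000050004000300020000) (nat_lit 1) (nat_lit 1) (.st (nat_lit 2) (nat_lit 0) (nat_lit 5) (nat_lit 0x54154) (nat_lit 0x1000200010000000000020002000200010000) (nat_lit 1) (nat_lit 1) (.st (nat_lit 3) (nat_lit 0) (nat_lit 5) (nat_lit 0x54150) (nat_lit 0x1000200010000000000020002000100000000) (nat_lit 1) (nat_lit 1) (.st (nat_lit 4) (nat_lit 0) (nat_lit 5) (nat_lit 0x54140) (nat_lit 0x1000200010000000000020001000000000000) (nat_lit 1) (nat_lit 1) (.st (nat_lit 7) (nat_lit 0) (nat_lit 5) (nat_lit 0x55100) (nat_lit 0x1000200020001000000010000000000000000) (nat_lit 1) (nat_lit 1) (.st (nat_lit 8) (nat_lit 0) (nat_lit 5) (nat_lit 0x54100) (nat_lit 0x1000200010000000000010000000000000000) (nat_lit 1) (nat_lit 1) (.st (nat_lit 9) (nat_lit 0) (nat_lit 5) (nat_lit 0x55140) (nat_lit 0x2000300020001000000020001000000000000)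 (nat_lit 1) (nat_lit 1) (.split (nat_lit 4) (nat_lit 3) (.split (nat_lit 8) (nat_lit 4) (.split (nat_lit 9) (nat_lit 8) (.pd (.cons (nat_lit 0) (nat_lit 6) (nat_lit 0) (nat_lit 0x8480532110) (nat_lit 0xf423f7a11df423f00000f423f7a11b7a1197a1177a11500000) (.cons (nat_lit 0) (nat_lit 7) (nat_lit 0) (nat_lit 0x8405532110) (nat_lit 0xf423fb71ae00000f423f54591a2c2898965927bd8e6a200000) (.cons (nat_lit 2) (nat_lit 6) (nat_lit 0) (nat_lit 0x8480533000) (nat_lit 0xf423f7a11df423f00000f423f7a11b7a11900000f423f54591) (.cons (nat_lit 2) (nat_lit 7) (nat_lit 0) (nat_lit 0x8405533000) (nat_lit 0xf423fb71ae00000f423f54591a2c289896500000f423f54591) .nil)))) t1591_1) (.non (nat_lit 0) (nat_lit 5) (nat_lit 0x94100) (nat_lit 0x1000200010000000000010000000000000000))) (.non (nat_lit 0) (nat_lit 5) (nat_lit 0xa8100) (nat_lit 0x1000200010000000000020000000000000000))) (.non (nat_lit 0) (nat_lit 5) (nat_lit 0xa8240) (nat_lit 0x1000200010000000000020002000000000000))))))))))) (.split (nat_lit 8) (nat_lit 4) (.sup (nat_lit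 0x100040007000a0008) (nat_lit 0x100040007000a000800000000000000000000)) (.non (nat_lit 0) (nat_lit 5) (nat_lit 0x50100) (nat_lit 0x1000100000000000000010000000000000000)))) (.split (nat_lit 9) (nat_lit 4) (.split (nat_lit 8) (nat_lit 4) (.st (nat_lit 1) (nat_lit 0) (nat_lit 5) (nat_lit 0x54154) (nat_lit 0x3000200010000000000020004000300020000) (nat_lit 1) (nat_lit 1) (.st (nat_lit 2) (nat_lit 0) (nat_lit 5) (nat_lit 0x40154) (nat_lit 0x1000000000000000000010002000200010000) (nat_lit 1) (nat_lit 1) (.st (nat_lit 3) (nat_lit 0) (nat_lit 5) (nat_lit 0x40150) (nat_lit 0x1000000000000000000010002000100000000) (nat_lit 1) (nat_lit 1) (.st (nat_lit 4) (nat_lit 0) (nat_lit 5) (nat_lit 0x50154) (nat_lit 0x2000100000000000000020003000200010000) (nat_lit 1) (nat_lit 1) (.st (nat_lit 7) (nat_lit 0) (nat_lit 5) (nat_lit 0x55150) (nat_lit 0x2000200020001000000010002000100000000) (nat_lit 1) (nat_lit 1) (.st (nat_lit 8) (nat_lit 0) (nat_lit 5) (nat_lit 0x54150) (nat_lit 0x2000200010000000000010002000100000000)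 (nat_lit 1) (nat_lit 1) (.split (nat_lit 4) (nat_lit 3) (.pd (.cons (nat_lit 0) (nat_lit 9) (nat_lit 0) (nat_lit 0x765532110) (nat_lit 0xf423fb71aea2c2804737f423fb71aea2c289896500000) (.cons (nat_lit 2) (nat_lit 9) (nat_lit 0) (nat_lit 0x765533000) (nat_lit 0xf423fb71aea2c2804737f423fb71ae00000f423f54591) .nil)) (.st (nat_lit 9) (nat_lit 0) (nat_lit 5) (nat_lit 0x50150) (nat_lit 0x2000100000000000000010002000100000000) (nat_lit 1) (nat_lit 1) (.split (nat_lit 9) (nat_lit 3) (.split (nat_lit 9) (nat_lit 8) (.pd (.cons (nat_lit 0) (nat_lit 6) (nat_lit 0) (nat_lit 0x3980532110) (nat_lit 0xa2c28b71aef423f00000f423ff423f5b8d45160d3d07c00000) (.cons (nat_lit 0) (nat_lit 7) (nat_lit 0) (nat_lit 0x3905532110) (nat_lit 0xb71aef423f00000f423f54591f423f65b9761a795b8cc00000) (.cons (nat_lit 2) (nat_lit 6) (nat_lit 0) (nat_lit 0x3980533000) (nat_lit 0xa2c28b71aef423f00000f423ff423f5b8d400000f423f54591) (.cons (nat_lit 2) (nat_lit 7) (nat_lit 0) (nat_lit 0x3905533000) (nat_lit 0xb71aef423f00000f423f54591f423f65b9700000f423f54591)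 .nil)))) t1591_2) (.non (nat_lit 0) (nat_lit 5) (nat_lit 0x6a040) (nat_lit 0x4000300020001000000000002000000000000))) (.non (nat_lit 0) (nat_lit 5) (nat_lit 0xa8140) (nat_lit 0x3000200010000000000020004000000000000))))) (.non (nat_lit 0) (nat_lit 5) (nat_lit 0x40250) (nat_lit 0x1000000000000000000010002000100000000))))))))) (.non (nat_lit 0) (nat_lit 5) (nat_lit 0x50140) (nat_lit 0x1000100000000000000010001000000000000))) (.non (nat_lit 0) (nat_lit 5) (nat_lit 0x40140) (nat_lit 0x1000000000000000000010001000000000000))))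

noncomputable def t1591 : Tr := (.split (nat_lit 9) (nat_lit 1) (.split (nat_lit 7) (nat_lit 1) (.split (nat_lit 7) (nat_lit 3) (.split (nat_lit 7) (nat_lit 4) t1591_3 (.non (nat_lit 0) (nat_lit 8) (nat_lit 0x5540) (nat_lit 0x30004000300020001000000000000))) (.non (nat_lit 0) (nat_lit 5) (nat_lit 0x15150) (nat_lit 0x100020001000000010002000100000000))) (.non (nat_lit 0) (nat_lit 8) (nat_lit 0x5414) (nat_lit 0x30004000300000000000100020000))) (.non (nat_lit 2) (nat_lit 5) (nat_lit 0x54005) (nat_lit 0x3000200010000000000000000000000040003)))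

noncomputable def t1593_1 : Tr := (.ex (nat_lit 9) (.pd (.cons (nat_lit 0) (nat_lit 5) (nat_lit 0) (nat_lit 0x8747032110) (nat_lit 0xf423fb71ae65b97f423f0000061a795b8cc515fe3d05a00000) (.cons (nat_lit 1) (nat_lit 5) (nat_lit 0) (nat_lit 0x8747032200) (nat_lit 0xf423fb71ae65b97f423f0000061a795b8cc515fe00000f423f) (.cons (nat_lit 2) (nat_lit 5) (nat_lit 0) (nat_lit 0x8747033000) (nat_lit 0xf423fb71ae65b97f423f0000061a795b8cc00000f423f54591) (.cons (nat_lit 3) (nat_lit 5) (nat_lit 0) (nat_lit 0x8747040100) (nat_lit 0xf423fb71ae65b97f423f0000061a7900000f423fb71ae1f156) (.cons (nat_lit 4) (nat_lit 5) (nat_lit 0) (nat_lit 0x8766002100) (nat_lit 0xf423fb71aea2c28989650000000000f423fb71aea2c2804737) .nil))))) (.leaf (.cons (nat_lit 0x5540) (nat_lit 0x30004000300020001000000000000) (.cons (nat_lit 0x15500) (nat_lit 0x100020002000200010000000000000000) .nil)) (.cons (nat_lit 0x1111011110) (nat_lit 0x100001) (nat_lit 0xe) (nat_lit 0x3201045670) (.cons (nat_lit 0x1110011110) (nat_lit 0x1000001) (nat_lit 5)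 (nat_lit 0x6540032100) (.cons (nat_lit 0x1111011100) (nat_lit 0x100010) (nat_lit 0xd) (nat_lit 0x3201045600) (.cons (nat_lit 0x1110011100) (nat_lit 0x1000010) (nat_lit 4) (nat_lit 0x5430021000) (.cons (nat_lit 0x1111011000) (nat_lit 0x100100) (nat_lit 0xc) (nat_lit 0x5401023000) (.cons (nat_lit 0x1110011000) (nat_lit 0x1000100) (nat_lit 3) (nat_lit 0x4320010000) (.cons (nat_lit 0x1111010000) (nat_lit 0x101000) (nat_lit 8) (nat_lit 0x4302010000) (.cons (nat_lit 0x11110000) (nat_lit 0x100001000) (nat_lit 0x10) (nat_lit 0x21030000) .nil)))))))))) (.split (nat_lit 0xa) (nat_lit 0) (.split (nat_lit 0xa) (nat_lit 1) (.split (nat_lit 0xa) (nat_lit 2) (.split (nat_lit 0xa) (nat_lit 3) (.split (nat_lit 0xa) (nat_lit 4) (.split (nat_lit 0xa) (nat_lit 5) (.split (nat_lit 0xa) (nat_lit 6) (.split (nat_lit 0xa) (nat_lit 7) (.split (nat_lit 0xa) (nat_lit 8) (.split (nat_lit 0xa) (nat_lit 9) (.par (nat_lit 0x155150) (nat_lit 0x10002000300040002000000030002000100000000)) (.sup (nat_lit 0x20003000300030005000400000000000000000000)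 (nat_lit 0x10006000b0010000d))) (.non (nat_lit 0) (nat_lit 6) (nat_lit 0x150000) (nat_lit 0x10001000100000000000000000000000000000000))) (.non (nat_lit 0) (nat_lit 6) (nat_lit 0x154000) (nat_lit 0x10001000100010000000000000000000000000000))) (.non (nat_lit 0) (nat_lit 7) (nat_lit 0x151400) (nat_lit 0x30002000100000004000300000000000000000000))) (.non (nat_lit 0) (nat_lit 7) (nat_lit 0x151400) (nat_lit 0x30002000100000003000400000000000000000000))) (.non (nat_lit 0) (nat_lit 6) (nat_lit 0x154100) (nat_lit 0x10001000100010000000000010000000000000000))) (.non (nat_lit 0) (nat_lit 6) (nat_lit 0x154140) (nat_lit 0x10001000100010000000000010001000000000000))) (.non (nat_lit 0) (nat_lit 6) (nat_lit 0x154150) (nat_lit 0x10001000100010000000000010001000100000000))) (.non (nat_lit 0) (nat_lit 6) (nat_lit 0x154154) (nat_lit 0x10001000100010000000000010001000100010000))) (.non (nat_lit 2) (nat_lit 6) (nat_lit 0x150005) (nat_lit 0x30002000100000000000000000000000000030004))))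

noncomputable def t1593_2 : Tr := (.ex (nat_lit 7) (.pd (.cons (nat_lit 3) (nat_lit 8) (nat_lit 0) (nat_lit 0x9047640100) (nat_lit 0xf423f00000437a254591f423f174ea00000f423fb71ae1f156) (.cons (nat_lit 4) (nat_lit 8) (nat_lit 0) (nat_lit 0x9065502100) (nat_lit 0xf423f00000f423fb71ae1f15600000f423fb71aea2c2804737) .nil)) (.ex (nat_lit 8) (.pd (.cons (nat_lit 4) (nat_lit 9) (nat_lit 0) (nat_lit 0x765502100) (nat_lit 0xf423fb71aea2c280473700000f423fb71aea2c2804737) .nil) t1593_1) (.split (nat_lit 0xa) (nat_lit 0) (.split (nat_lit 0xa) (nat_lit 1) (.split (nat_lit 0xa) (nat_lit 2) (.split (nat_lit 0xa) (nat_lit 3) (.split (nat_lit 0xa) (nat_lit 4) (.split (nat_lit 0xa) (nat_lit 5) (.split (nat_lit 0xa) (nat_lit 6) (.split (nat_lit 0xa) (nat_lit 7) (.split (nat_lit 0xa) (nat_lit 9) (.sup (nat_lit 0x3000300070007000a000800000000000000000000) (nat_lit 0x3000d00160020001a)) (.non (nat_lit 0) (nat_lit 6) (nat_lit 0x150000) (nat_lit 0x10001000100000000000000000000000000000000))) (.non (nat_lit 0) (nat_lit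 6) (nat_lit 0x114000) (nat_lit 0x10000000100010000000000000000000000000000))) (.non (nat_lit 0) (nat_lit 7) (nat_lit 0x151400) (nat_lit 0x30001000200000004000300000000000000000000))) (.non (nat_lit 0) (nat_lit 6) (nat_lit 0x154554) (nat_lit 0x40003000600050000000200040003000200010000))) (.non (nat_lit 0) (nat_lit 6) (nat_lit 0x114100) (nat_lit 0x10000000100010000000000010000000000000000))) (.non (nat_lit 0) (nat_lit 6) (nat_lit 0x114140) (nat_lit 0x10000000100010000000000010001000000000000))) (.non (nat_lit 0) (nat_lit 6) (nat_lit 0x114150) (nat_lit 0x10000000100010000000000010001000100000000))) (.non (nat_lit 0) (nat_lit 6) (nat_lit 0x114154) (nat_lit 0x10000000100010000000000010001000100010000))) (.non (nat_lit 2) (nat_lit 6) (nat_lit 0x150005) (nat_lit 0x30001000200000000000000000000000000030004))))) (.split (nat_lit 0xa) (nat_lit 0) (.split (nat_lit 0xa) (nat_lit 1) (.split (nat_lit 0xa) (nat_lit 2) (.split (nat_lit 0xa) (nat_lit 3) (.split (nat_lit 0xa) (nat_lit 4) (.split (nat_lit 0xa) (nat_lit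 5) (.split (nat_lit 0xa) (nat_lit 8) (.split (nat_lit 0xa) (nat_lit 9) (.split (nat_lit 0xa) (nat_lit 6) (.sup (nat_lit 0x100040007000a0008) (nat_lit 0x3000000030007000a000800000000000000000000)) (.sup (nat_lit 0x7000f00170020001a) (nat_lit 0x30000000100010005000400000000000000000000))) (.non (nat_lit 0) (nat_lit 6) (nat_lit 0x154000) (nat_lit 0x10001000100010000000000000000000000000000))) (.non (nat_lit 0) (nat_lit 6) (nat_lit 0x114000) (nat_lit 0x10000000100010000000000000000000000000000))) (.non (nat_lit 0) (nat_lit 6) (nat_lit 0x154540) (nat_lit 0x20001000200030000000100020001000000000000))) (.non (nat_lit 0) (nat_lit 6) (nat_lit 0x104100) (nat_lit 0x10000000000010000000000010000000000000000))) (.non (nat_lit 0) (nat_lit 6) (nat_lit 0x104140) (nat_lit 0x10000000000010000000000010001000000000000))) (.star (nat_lit 0xa) (nat_lit 2) (nat_lit 7))) (.non (nat_lit 0) (nat_lit 6) (nat_lit 0x154144) (nat_lit 0x20001000200030000000000020001000000010000))) (.star (nat_lit 0xa) (nat_lit 0) (nat_lit 7))))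

noncomputable def t1593_3 : Tr := (.ex (nat_lit 5) (.ex (nat_lit 6) t1593_2 (.split (nat_lit 0xa) (nat_lit 0) (.split (nat_lit 0xa) (nat_lit 1) (.split (nat_lit 0xa) (nat_lit 2) (.split (nat_lit 0xa) (nat_lit 3) (.split (nat_lit 0xa) (nat_lit 4) (.split (nat_lit 0xa) (nat_lit 5) (.split (nat_lit 0xa) (nat_lit 8) (.split (nat_lit 0xa) (nat_lit 9) (.split (nat_lit 0xa) (nat_lit 7) (.sup (nat_lit 0x30000000000010005000400000000000000000000) (nat_lit 0x10002000300050004)) (.sup (nat_lit 0x7000f00170020001a) (nat_lit 0x30000000100010005000400000000000000000000))) (.non (nat_lit 0) (nat_lit 7) (nat_lit 0x151400) (nat_lit 0x30002000100000004000300000000000000000000))) (.non (nat_lit 0) (nat_lit 7) (nat_lit 0x151400) (nat_lit 0x30001000200000004000300000000000000000000))) (.non (nat_lit 0) (nat_lit 7) (nat_lit 0x101400) (nat_lit 0x10000000000000001000100000000000000000000))) (.non (nat_lit 0) (nat_lit 6) (nat_lit 0x154154) (nat_lit 0x20001000200030000000000040003000200010000))) (.non (nat_lit 0) (nat_lit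 7) (nat_lit 0x101540) (nat_lit 0x30000000000000004000300010002000000000000))) (.star (nat_lit 0xa) (nat_lit 2) (nat_lit 6))) (.non (nat_lit 0) (nat_lit 7) (nat_lit 0x101414) (nat_lit 0x30000000000000004000300000000000100020000))) (.star (nat_lit 0xa) (nat_lit 0) (nat_lit 6)))) (.split (nat_lit 0xa) (nat_lit 0) (.split (nat_lit 0xa) (nat_lit 1) (.split (nat_lit 0xa) (nat_lit 2) (.split (nat_lit 0xa) (nat_lit 3) (.split (nat_lit 0xa) (nat_lit 4) (.split (nat_lit 0xa) (nat_lit 6) (.split (nat_lit 0xa) (nat_lit 7) (.split (nat_lit 0xa) (nat_lit 8) (.split (nat_lit 0xa) (nat_lit 9) (.sup (nat_lit 0x50000000000020009000a00000000000000000000) (nat_lit 0x100040007000a0008)) (.non (nat_lit 0) (nat_lit 7) (nat_lit 0x151400) (nat_lit 0x30002000100000003000400000000000000000000))) (.non (nat_lit 0) (nat_lit 6) (nat_lit 0x154554) (nat_lit 0x40003000600050000000200040003000200010000))) (.non (nat_lit 0) (nat_lit 6) (nat_lit 0x154540) (nat_lit 0x20001000200030000000100020001000000000000))) (.non (nat_lit 0) (nat_lit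 7) (nat_lit 0x101400) (nat_lit 0x10000000000000001000100000000000000000000))) (.non (nat_lit 0) (nat_lit 6) (nat_lit 0x114550) (nat_lit 0x20000000100020000000100030002000100000000))) (.non (nat_lit 0) (nat_lit 6) (nat_lit 0x104554) (nat_lit 0x20000000000010000000100020003000200010000))) (.non (nat_lit 0) (nat_lit 6) (nat_lit 0x154554) (nat_lit 0x40001000200030000000200040005000600030000))) (.non (nat_lit 0) (nat_lit 7) (nat_lit 0x101414) (nat_lit 0x30000000000000003000400000000000100020000))) (.non (nat_lit 2) (nat_lit 7) (nat_lit 0x101405) (nat_lit 0x10000000000000001000100000000000000010001))))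

noncomputable def t1593_4 : Tr := (.split (nat_lit 7) (nat_lit 4) (.split (nat_lit 9) (nat_lit 8) (.pd (.cons (nat_lit 3) (nat_lit 6) (nat_lit 0) (nat_lit 0x8740540100) (nat_lit 0xf423fb71aea2c2800000f423f9896500000f423fb71ae1f156) (.cons (nat_lit 3) (nat_lit 7) (nat_lit 0) (nat_lit 0x8805540100) (nat_lit 0xf423fb71ae00000f423f54591f423f00000f423fb71ae1f156) .nil)) (.ex (nat_lit 3) (.split (nat_lit 4) (nat_lit 3) (.pd (.cons (nat_lit 1) (nat_lit 6) (nat_lit 0) (nat_lit 0x8740532200) (nat_lit 0xf423fb71aea2c2800000f423f98965927bd8e6a200000f423f) (.cons (nat_lit 1) (nat_lit 7) (nat_lit 0) (nat_lit 0x8805532200) (nat_lit 0xf423fb71ae00000f423f54591f423fb71aea2c2800000f423f) (.cons (nat_lit 4) (nat_lit 6) (nat_lit 0) (nat_lit 0x8770502100) (nat_lit 0xf423fb71aea2c2800000f423f00000f423fb71aea2c2804737) (.cons (nat_lit 4) (nat_lit 7) (nat_lit 0) (nat_lit 0x8805502100) (nat_lit 0xf423fb71ae00000f423f5459100000f423fb71aea2c2804737) .nil)))) t1593_3) (.non (nat_lit 0) (nat_lit 6) (nat_lit 0x28250) (nat_lit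 0x100020000000000030004000200000000))) (.split (nat_lit 0xa) (nat_lit 0) (.split (nat_lit 0xa) (nat_lit 1) (.split (nat_lit 0xa) (nat_lit 2) (.split (nat_lit 0xa) (nat_lit 4) (.split (nat_lit 0xa) (nat_lit 5) (.split (nat_lit 0xa) (nat_lit 6) (.split (nat_lit 0xa) (nat_lit 7) (.split (nat_lit 0xa) (nat_lit 8) (.split (nat_lit 0xa) (nat_lit 9) (.unj (nat_lit 0x100055) (nat_lit 0x10000000000000000000000000002000300040003) (nat_lit 0x55400) (nat_lit 0x1000200030004000300000000000000000000)) (.non (nat_lit 0) (nat_lit 6) (nat_lit 0x154140) (nat_lit 0x10001000100010000000000010001000000000000))) (.non (nat_lit 0) (nat_lit 6) (nat_lit 0x114140) (nat_lit 0x10000000100010000000000010001000000000000))) (.non (nat_lit 0) (nat_lit 6) (nat_lit 0x104140) (nat_lit 0x10000000000010000000000010001000000000000))) (.non (nat_lit 0) (nat_lit 7) (nat_lit 0x101540) (nat_lit 0x30000000000000004000300010002000000000000))) (.non (nat_lit 0) (nat_lit 6) (nat_lit 0x104554) (nat_lit 0x20000000000010000000100020003000200010000)))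 (.non (nat_lit 0) (nat_lit 6) (nat_lit 0x100140) (nat_lit 0x10000000000000000000000010001000000000000))) (.non (nat_lit 0) (nat_lit 6) (nat_lit 0x100050) (nat_lit 0x10000000000000000000000000001000100000000))) (.non (nat_lit 0) (nat_lit 6) (nat_lit 0x100054) (nat_lit 0x10000000000000000000000000001000100010000))) (.non (nat_lit 2) (nat_lit 6) (nat_lit 0x100145) (nat_lit 0x30000000000000000000000010002000000030004))))) (.sup (nat_lit 0x100040007000a0008) (nat_lit 0x500070007000a000800000000000000000000))) (.non (nat_lit 0) (nat_lit 6) (nat_lit 0xa8140) (nat_lit 0x1000200030000000000040002000000000000)))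

noncomputable def t1593_5 : Tr := (.ex (nat_lit 1) (.ex (nat_lit 2) t1593_4 (.split (nat_lit 0xa) (nat_lit 1) (.split (nat_lit 0xa) (nat_lit 3) (.split (nat_lit 0xa) (nat_lit 4) (.split (nat_lit 0xa) (nat_lit 5) (.split (nat_lit 0xa) (nat_lit 6) (.split (nat_lit 0xa) (nat_lit 7) (.split (nat_lit 0xa) (nat_lit 8) (.split (nat_lit 0xa) (nat_lit 9) (.split (nat_lit 0xa) (nat_lit 0) (.unj (nat_lit 0x100055) (nat_lit 0x10000000000000000000000000001000200020002) (nat_lit 0x55400) (nat_lit 0x1000200030004000300000000000000000000)) (.unj (nat_lit 0x100015) (nat_lit 0x10000000000000000000000000000000100010001) (nat_lit 0x15500) (nat_lit 0x100020002000200010000000000000000))) (.non (nat_lit 0) (nat_lit 6) (nat_lit 0x154150) (nat_lit 0x10001000100010000000000010001000100000000))) (.non (nat_lit 0) (nat_lit 6) (nat_lit 0x114150) (nat_lit 0x10000000100010000000000010001000100000000))) (.star (nat_lit 0xa) (nat_lit 2) (nat_lit 7))) (.star (nat_lit 0xa) (nat_lit 2) (nat_lit 6))) (.non (nat_lit 0) (nat_lit 6)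 (nat_lit 0x154554) (nat_lit 0x40001000200030000000200040005000600030000))) (.non (nat_lit 0) (nat_lit 6) (nat_lit 0x100150) (nat_lit 0x10000000000000000000000010001000100000000))) (.non (nat_lit 0) (nat_lit 6) (nat_lit 0x100050) (nat_lit 0x10000000000000000000000000001000100000000))) (.non (nat_lit 0) (nat_lit 6) (nat_lit 0x100014) (nat_lit 0x10000000000000000000000000000000100010000)))) (.split (nat_lit 0xa) (nat_lit 0) (.split (nat_lit 0xa) (nat_lit 2) (.split (nat_lit 0xa) (nat_lit 3) (.split (nat_lit 0xa) (nat_lit 4) (.split (nat_lit 0xa) (nat_lit 5) (.split (nat_lit 0xa) (nat_lit 6) (.split (nat_lit 0xa) (nat_lit 7) (.split (nat_lit 0xa) (nat_lit 8) (.split (nat_lit 0xa) (nat_lit 9) (.unj (nat_lit 0x100015) (nat_lit 0x10000000000000000000000000000000100020002) (nat_lit 0x15500) (nat_lit 0x100020002000200010000000000000000)) (.non (nat_lit 0) (nat_lit 6) (nat_lit 0x154154) (nat_lit 0x10001000100010000000000010001000100010000))) (.non (nat_lit 0) (nat_lit 6) (nat_lit 0x114154) (nat_lit 0x10000000100010000000000010001000100010000)))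 (.non (nat_lit 0) (nat_lit 6) (nat_lit 0x154144) (nat_lit 0x20001000200030000000000020001000000010000))) (.non (nat_lit 0) (nat_lit 7) (nat_lit 0x101414) (nat_lit 0x30000000000000004000300000000000100020000))) (.non (nat_lit 0) (nat_lit 7) (nat_lit 0x101414) (nat_lit 0x30000000000000003000400000000000100020000))) (.non (nat_lit 0) (nat_lit 6) (nat_lit 0x100154) (nat_lit 0x10000000000000000000000010001000100010000))) (.non (nat_lit 0) (nat_lit 6) (nat_lit 0x100054) (nat_lit 0x10000000000000000000000000001000100010000))) (.non (nat_lit 0) (nat_lit 6) (nat_lit 0x100014) (nat_lit 0x10000000000000000000000000000000100010000))) (.non (nat_lit 2) (nat_lit 6) (nat_lit 0x100005) (nat_lit 0x10000000000000000000000000000000000010001))))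

noncomputable def t1593_6 : Tr := (.pd (.cons (nat_lit 0) (nat_lit 8) (nat_lit 0) (nat_lit 0x9065532110) (nat_lit 0xf423f00000f423fb71ae1f156f423fb71aea2c289896500000) (.cons (nat_lit 1) (nat_lit 8) (nat_lit 0) (nat_lit 0x9065532200) (nat_lit 0xf423f00000f423fb71ae1f156f423fb71aea2c2800000f423f) (.cons (nat_lit 2) (nat_lit 8) (nat_lit 0) (nat_lit 0x9065533000) (nat_lit 0xf423f00000f423fb71ae1f156f423fb71ae00000f423f54591) (.cons (nat_lit 3) (nat_lit 8) (nat_lit 0) (nat_lit 0x9065540100) (nat_lit 0xf423f00000f423fb71ae1f156f423f00000f423fb71ae1f156) (.cons (nat_lit 4) (nat_lit 8) (nat_lit 0) (nat_lit 0x9065502100) (nat_lit 0xf423f00000f423fb71ae1f15600000f423fb71aea2c2804737) (.cons (nat_lit 4) (nat_lit 9) (nat_lit 0) (nat_lit 0x765502100) (nat_lit 0xf423fb71aea2c280473700000f423fb71aea2c2804737) .nil)))))) (.ex (nat_lit 9) (.pd (.cons (nat_lit 0) (nat_lit 5) (nat_lit 0) (nat_lit 0x8487032110) (nat_lit 0xf423f65b97b71aef423f0000061a795b8cc515fe3d05a00000) (.cons (nat_lit 1) (nat_lit 5) (nat_lit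 0) (nat_lit 0x8487032200) (nat_lit 0xf423f65b97b71aef423f0000061a795b8cc515fe00000f423f) (.cons (nat_lit 2) (nat_lit 5) (nat_lit 0) (nat_lit 0x8487033000) (nat_lit 0xf423f65b97b71aef423f0000061a795b8cc00000f423f54591) (.cons (nat_lit 3) (nat_lit 5) (nat_lit 0) (nat_lit 0x8487040100) (nat_lit 0xf423f65b97b71aef423f0000061a7900000f423fb71ae1f156) (.cons (nat_lit 4) (nat_lit 5) (nat_lit 0) (nat_lit 0x8766002100) (nat_lit 0xf423fb71aea2c28989650000000000f423fb71aea2c2804737) .nil))))) (.l31 (nat_lit 0x4321098765))) (.split (nat_lit 0xa) (nat_lit 0) (.split (nat_lit 0xa) (nat_lit 1) (.split (nat_lit 0xa) (nat_lit 2) (.split (nat_lit 0xa) (nat_lit 3) (.split (nat_lit 0xa) (nat_lit 4) (.split (nat_lit 0xa) (nat_lit 5) (.split (nat_lit 0xa) (nat_lit 6) (.split (nat_lit 0xa) (nat_lit 7) (.split (nat_lit 0xa) (nat_lit 8) (.sup (nat_lit 0x10002000300060009000700000000000000000000) (nat_lit 0x10006000b0010000d)) (.non (nat_lit 0) (nat_lit 6) (nat_lit 0x150000) (nat_lit 0x10001000100000000000000000000000000000000)))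 (.non (nat_lit 0) (nat_lit 6) (nat_lit 0x154000) (nat_lit 0x10001000100010000000000000000000000000000))) (.non (nat_lit 0) (nat_lit 7) (nat_lit 0x151400) (nat_lit 0x30002000100000004000300000000000000000000))) (.non (nat_lit 0) (nat_lit 6) (nat_lit 0x154550) (nat_lit 0x20003000400020000000100030002000100000000))) (.non (nat_lit 0) (nat_lit 6) (nat_lit 0x150100) (nat_lit 0x10001000100000000000000010000000000000000))) (.non (nat_lit 0) (nat_lit 6) (nat_lit 0x150140) (nat_lit 0x10001000100000000000000010001000000000000))) (.non (nat_lit 0) (nat_lit 6) (nat_lit 0x150150) (nat_lit 0x10001000100000000000000010001000100000000))) (.non (nat_lit 0) (nat_lit 6) (nat_lit 0x150154) (nat_lit 0x10001000100000000000000010001000100010000))) (.non (nat_lit 2) (nat_lit 6) (nat_lit 0x150005) (nat_lit 0x30002000100000000000000000000000000030004)))))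

noncomputable def t1593_7 : Tr := (.ex (nat_lit 6) (.ex (nat_lit 7) t1593_6 (.split (nat_lit 0xa) (nat_lit 0) (.split (nat_lit 0xa) (nat_lit 1) (.split (nat_lit 0xa) (nat_lit 2) (.split (nat_lit 0xa) (nat_lit 3) (.split (nat_lit 0xa) (nat_lit 4) (.split (nat_lit 0xa) (nat_lit 5) (.split (nat_lit 0xa) (nat_lit 8) (.split (nat_lit 0xa) (nat_lit 9) (.split (nat_lit 0xa) (nat_lit 6) (.sup (nat_lit 0x10002000300050004) (nat_lit 0x20000000100030005000400000000000000000000)) (.unj (nat_lit 0x105000) (nat_lit 0x10000000000010001000000000000000000000000) (nat_lit 0x155) (nat_lit 0x10002000300040003))) (.non (nat_lit 0) (nat_lit 6) (nat_lit 0x154000) (nat_lit 0x10001000100010000000000000000000000000000))) (.non (nat_lit 0) (nat_lit 6) (nat_lit 0x114000) (nat_lit 0x10000000100010000000000000000000000000000))) (.non (nat_lit 0) (nat_lit 6) (nat_lit 0x154550) (nat_lit 0x20002000400030000000100030002000100000000))) (.non (nat_lit 0) (nat_lit 6) (nat_lit 0x114100) (nat_lit 0x10000000100010000000000010000000000000000)))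 (.non (nat_lit 0) (nat_lit 6) (nat_lit 0x114140) (nat_lit 0x10000000100010000000000010001000000000000))) (.star (nat_lit 0xa) (nat_lit 2) (nat_lit 7))) (.non (nat_lit 0) (nat_lit 6) (nat_lit 0x114154) (nat_lit 0x10000000100010000000000010001000100010000))) (.star (nat_lit 0xa) (nat_lit 0) (nat_lit 7)))) (.split (nat_lit 0xa) (nat_lit 0) (.split (nat_lit 0xa) (nat_lit 1) (.split (nat_lit 0xa) (nat_lit 2) (.split (nat_lit 0xa) (nat_lit 3) (.split (nat_lit 0xa) (nat_lit 4) (.split (nat_lit 0xa) (nat_lit 5) (.split (nat_lit 0xa) (nat_lit 8) (.split (nat_lit 0xa) (nat_lit 9) (.split (nat_lit 0xa) (nat_lit 7) (.unj (nat_lit 0x105400) (nat_lit 0x10000000000010002000200000000000000000000) (nat_lit 0x155) (nat_lit 0x10002000300040003)) (.unj (nat_lit 0x105000) (nat_lit 0x10000000000010001000000000000000000000000) (nat_lit 0x155) (nat_lit 0x10002000300040003))) (.non (nat_lit 0) (nat_lit 7) (nat_lit 0x151400) (nat_lit 0x30002000100000004000300000000000000000000))) (.non (nat_lit 0) (nat_lit 6) (nat_lit 0x154100)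 (nat_lit 0x10001000200010000000000010000000000000000))) (.non (nat_lit 0) (nat_lit 7) (nat_lit 0x101400) (nat_lit 0x10000000000000001000100000000000000000000))) (.non (nat_lit 0) (nat_lit 6) (nat_lit 0x154140) (nat_lit 0x10001000200010000000000020001000000000000))) (.non (nat_lit 0) (nat_lit 6) (nat_lit 0x154150) (nat_lit 0x10001000200010000000000020002000100000000))) (.star (nat_lit 0xa) (nat_lit 2) (nat_lit 6))) (.non (nat_lit 0) (nat_lit 7) (nat_lit 0x101414) (nat_lit 0x30000000000000004000300000000000100020000))) (.star (nat_lit 0xa) (nat_lit 0) (nat_lit 6))))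

noncomputable def t1593_8 : Tr := (.ex (nat_lit 1) (.pd (.cons (nat_lit 3) (nat_lit 6) (nat_lit 0) (nat_lit 0x8480540100) (nat_lit 0xf423f7a11df423f00000f423f7a11b00000f423fb71ae1f156) (.cons (nat_lit 3) (nat_lit 7) (nat_lit 0) (nat_lit 0x8405540100) (nat_lit 0xf423fb71ae00000f423f54591a2c2800000f423fb71ae1f156) (.cons (nat_lit 4) (nat_lit 6) (nat_lit 0) (nat_lit 0x8770502100) (nat_lit 0xf423fb71aea2c2800000f423f00000f423fb71aea2c2804737) (.cons (nat_lit 4) (nat_lit 7) (nat_lit 0) (nat_lit 0x8805502100) (nat_lit 0xf423fb71ae00000f423f5459100000f423fb71aea2c2804737) .nil)))) (.ex (nat_lit 5) t1593_7 (.split (nat_lit 0xa) (nat_lit 0) (.split (nat_lit 0xa) (nat_lit 1) (.split (nat_lit 0xa) (nat_lit 2) (.split (nat_lit 0xa) (nat_lit 3) (.split (nat_lit 0xa) (nat_lit 4) (.split (nat_lit 0xa) (nat_lit 6) (.split (nat_lit 0xa) (nat_lit 7) (.split (nat_lit 0xa) (nat_lit 8) (.split (nat_lit 0xa) (nat_lit 9) (.unj (nat_lit 0x105400) (nat_lit 0x10000000000010002000200000000000000000000) (nat_lit 0x155) (nat_lit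 0x10002000300040003)) (.non (nat_lit 0) (nat_lit 6) (nat_lit 0x154550) (nat_lit 0x20003000400020000000100030002000100000000))) (.non (nat_lit 0) (nat_lit 6) (nat_lit 0x154100) (nat_lit 0x10001000200010000000000010000000000000000))) (.non (nat_lit 0) (nat_lit 6) (nat_lit 0x154550) (nat_lit 0x20002000400030000000100030002000100000000))) (.non (nat_lit 0) (nat_lit 7) (nat_lit 0x101400) (nat_lit 0x10000000000000001000100000000000000000000))) (.non (nat_lit 0) (nat_lit 6) (nat_lit 0x154140) (nat_lit 0x10001000200010000000000020001000000000000))) (.non (nat_lit 0) (nat_lit 6) (nat_lit 0x154150) (nat_lit 0x10001000200010000000000020002000100000000))) (.non (nat_lit 0) (nat_lit 6) (nat_lit 0x154154) (nat_lit 0x10001000200010000000000020002000200010000))) (.non (nat_lit 0) (nat_lit 7) (nat_lit 0x101414) (nat_lit 0x30000000000000003000400000000000100020000))) (.non (nat_lit 2) (nat_lit 7) (nat_lit 0x101405) (nat_lit 0x10000000000000001000100000000000000010001))))) (.split (nat_lit 0xa) (nat_lit 0) (.split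 (nat_lit 0xa) (nat_lit 2) (.split (nat_lit 0xa) (nat_lit 3) (.split (nat_lit 0xa) (nat_lit 4) (.split (nat_lit 0xa) (nat_lit 5) (.split (nat_lit 0xa) (nat_lit 6) (.split (nat_lit 0xa) (nat_lit 7) (.split (nat_lit 0xa) (nat_lit 8) (.split (nat_lit 0xa) (nat_lit 9) (.unj (nat_lit 0x100015) (nat_lit 0x10000000000000000000000000000000100020002) (nat_lit 0x15500) (nat_lit 0x200030004000300010000000000000000)) (.non (nat_lit 0) (nat_lit 6) (nat_lit 0x150154) (nat_lit 0x10001000100000000000000010001000100010000))) (.non (nat_lit 0) (nat_lit 6) (nat_lit 0x154100) (nat_lit 0x10001000200010000000000010000000000000000))) (.non (nat_lit 0) (nat_lit 6) (nat_lit 0x114154) (nat_lit 0x10000000100010000000000010001000100010000))) (.non (nat_lit 0) (nat_lit 7) (nat_lit 0x101414) (nat_lit 0x30000000000000004000300000000000100020000))) (.non (nat_lit 0) (nat_lit 7) (nat_lit 0x101414) (nat_lit 0x30000000000000003000400000000000100020000))) (.non (nat_lit 0) (nat_lit 6) (nat_lit 0x154140) (nat_lit 0x10001000200010000000000020001000000000000)))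 (.non (nat_lit 0) (nat_lit 6) (nat_lit 0x154150) (nat_lit 0x10001000200010000000000020002000100000000))) (.non (nat_lit 0) (nat_lit 6) (nat_lit 0x100014) (nat_lit 0x10000000000000000000000000000000100010000))) (.non (nat_lit 2) (nat_lit 6) (nat_lit 0x100005) (nat_lit 0x10000000000000000000000000000000000010001))))

noncomputable def t1593_9 : Tr := (.st (nat_lit 2) (nat_lit 0) (nat_lit 6) (nat_lit 0x54154) (nat_lit 0x1000200010000000000020002000200010000) (nat_lit 1) (nat_lit 1) (.st (nat_lit 3) (nat_lit 0) (nat_lit 6) (nat_lit 0x54150) (nat_lit 0x1000200010000000000020002000100000000) (nat_lit 1) (nat_lit 1) (.st (nat_lit 4) (nat_lit 0) (nat_lit 6) (nat_lit 0x54140) (nat_lit 0x1000200010000000000020001000000000000) (nat_lit 1) (nat_lit 1) (.st (nat_lit 8) (nat_lit 0) (nat_lit 6) (nat_lit 0x54100) (nat_lit 0x1000200010000000000010000000000000000) (nat_lit 1) (nat_lit 1) (.ex (nat_lit 0) (.split (nat_lit 4) (nat_lit 3) (.split (nat_lit 8) (nat_lit 4) (.split (nat_lit 9) (nat_lit 8) (.pd (.cons (nat_lit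 1) (nat_lit 6) (nat_lit 0) (nat_lit 0x8480532200) (nat_lit 0xf423f7a11df423f00000f423f7a11b7a1197a11700000f423f) (.cons (nat_lit 1) (nat_lit 7) (nat_lit 0) (nat_lit 0x8405532200) (nat_lit 0xf423fb71ae00000f423f54591a2c2898965927bd00000f423f) .nil)) t1593_8) (.non (nat_lit 0) (nat_lit 6) (nat_lit 0x94100) (nat_lit 0x1000200010000000000010000000000000000))) (.non (nat_lit 0) (nat_lit 6) (nat_lit 0xa8100) (nat_lit 0x1000200010000000000020000000000000000))) (.non (nat_lit 0) (nat_lit 6) (nat_lit 0xa8240) (nat_lit 0x1000200010000000000020002000000000000))) (.split (nat_lit 0xa) (nat_lit 1) (.split (nat_lit 0xa) (nat_lit 2) (.split (nat_lit 0xa) (nat_lit 3) (.split (nat_lit 0xa) (nat_lit 4) (.split (nat_lit 0xa) (nat_lit 5) (.split (nat_lit 0xa) (nat_lit 6) (.split (nat_lit 0xa) (nat_lit 7) (.split (nat_lit 0xa) (nat_lit 8) (.split (nat_lit 0xa) (nat_lit 9) (.unj (nat_lit 0x100015) (nat_lit 0x10000000000000000000000000000000100020002) (nat_lit 0x15500) (nat_lit 0x200030004000300010000000000000000)) (.non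 (nat_lit 2) (nat_lit 6) (nat_lit 0x150005) (nat_lit 0x30002000100000000000000000000000000030004))) (.non (nat_lit 0) (nat_lit 6) (nat_lit 0x154100) (nat_lit 0x10001000200010000000000010000000000000000))) (.star (nat_lit 0xa) (nat_lit 0) (nat_lit 7))) (.star (nat_lit 0xa) (nat_lit 0) (nat_lit 6))) (.non (nat_lit 2) (nat_lit 7) (nat_lit 0x101405) (nat_lit 0x10000000000000001000100000000000000010001))) (.non (nat_lit 0) (nat_lit 6) (nat_lit 0x154140) (nat_lit 0x10001000200010000000000020001000000000000))) (.non (nat_lit 0) (nat_lit 6) (nat_lit 0x154150) (nat_lit 0x10001000200010000000000020002000100000000))) (.non (nat_lit 0) (nat_lit 6) (nat_lit 0x154154) (nat_lit 0x10001000200010000000000020002000200010000))) (.non (nat_lit 2) (nat_lit 6) (nat_lit 0x100005) (nat_lit 0x10000000000000000000000000000000000010001))))))))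

noncomputable def t1593_10 : Tr := (.ex (nat_lit 7) (.pd (.cons (nat_lit 0) (nat_lit 5) (nat_lit 0) (nat_lit 0x3987032110) (nat_lit 0x98965a2c28b71aef423f00000f423f5572c45c091e82a00000) (.cons (nat_lit 0) (nat_lit 8) (nat_lit 0) (nat_lit 0x3065532110) (nat_lit 0xf423f00000f423fb71ae1f156f423f7a11d7a11b7a11900000) (.cons (nat_lit 0) (nat_lit 9) (nat_lit 0) (nat_lit 0x765532110) (nat_lit 0xf423fb71aea2c2804737f423fb71aea2c289896500000) (.cons (nat_lit 1) (nat_lit 5) (nat_lit 0) (nat_lit 0x3987032200) (nat_lit 0x98965a2c28b71aef423f00000f423f5572c45c0900000f423f) (.cons (nat_lit 1) (nat_lit 8) (nat_lit 0) (nat_lit 0x3065532200) (nat_lit 0xf423f00000f423fb71ae1f156f423f7a11d7a11b00000f423f) (.cons (nat_lit 1) (nat_lit 9) (nat_lit 0) (nat_lit 0x765532200) (nat_lit 0xf423fb71aea2c2804737f423fb71aea2c2800000f423f) (.cons (nat_lit 2) (nat_lit 5) (nat_lit 0) (nat_lit 0x3987033000) (nat_lit 0x98965a2c28b71aef423f00000f423f5572c00000f423f54591) (.cons (nat_lit 2) (nat_lit 8) (nat_lit 0) (nat_lit 0x3065533000)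 (nat_lit 0xf423f00000f423fb71ae1f156f423f7a11d00000f423f54591) (.cons (nat_lit 2) (nat_lit 9) (nat_lit 0) (nat_lit 0x765533000) (nat_lit 0xf423fb71aea2c2804737f423fb71ae00000f423f54591) (.cons (nat_lit 3) (nat_lit 5) (nat_lit 0) (nat_lit 0x8766040100) (nat_lit 0xf423fb71aea2c289896500000f423f00000f423fb71ae1f156) (.cons (nat_lit 3) (nat_lit 8) (nat_lit 0) (nat_lit 0x9065540100) (nat_lit 0xf423f00000f423fb71ae1f156f423f00000f423fb71ae1f156) (.cons (nat_lit 3) (nat_lit 9) (nat_lit 0) (nat_lit 0x765540100) (nat_lit 0xf423fb71aea2c2804737f423f00000f423fb71ae1f156) (.cons (nat_lit 4) (nat_lit 9) (nat_lit 0) (nat_lit 0x765502100) (nat_lit 0xf423fb71aea2c280473700000f423fb71aea2c2804737) .nil))))))))))))) (.l31 (nat_lit 0x9876543210))) (.split (nat_lit 0xa) (nat_lit 0) (.split (nat_lit 0xa) (nat_lit 1) (.split (nat_lit 0xa) (nat_lit 2) (.split (nat_lit 0xa) (nat_lit 3) (.split (nat_lit 0xa) (nat_lit 4) (.split (nat_lit 0xa) (nat_lit 5) (.split (nat_lit 0xa) (nat_lit 8) (.split (nat_lit 0xa) (nat_lit 9)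 (.split (nat_lit 0xa) (nat_lit 6) (.unj (nat_lit 0x155) (nat_lit 0x10002000300040003) (nat_lit 0x115400) (nat_lit 0x10000000100020002000200000000000000000000)) (.unj (nat_lit 0x105000) (nat_lit 0x10000000000010001000000000000000000000000) (nat_lit 0x155) (nat_lit 0x10002000300040003))) (.non (nat_lit 0) (nat_lit 6) (nat_lit 0x154000) (nat_lit 0x10001000100010000000000000000000000000000))) (.non (nat_lit 0) (nat_lit 6) (nat_lit 0x114000) (nat_lit 0x10000000100010000000000000000000000000000))) (.non (nat_lit 0) (nat_lit 6) (nat_lit 0x154554) (nat_lit 0x20005000400030000000100030006000400020000))) (.non (nat_lit 0) (nat_lit 6) (nat_lit 0x154140) (nat_lit 0x10001000100010000000000010001000000000000))) (.non (nat_lit 0) (nat_lit 6) (nat_lit 0x154040) (nat_lit 0x10001000100010000000000000001000000000000))) (.star (nat_lit 0xa) (nat_lit 2) (nat_lit 7))) (.non (nat_lit 0) (nat_lit 6) (nat_lit 0x154054) (nat_lit 0x10001000100010000000000000001000100010000))) (.star (nat_lit 0xa) (nat_lit 0) (nat_lit 7))))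

noncomputable def t1593_11 : Tr := (.ex (nat_lit 5) (.ex (nat_lit 6) t1593_10 (.split (nat_lit 0xa) (nat_lit 0) (.split (nat_lit 0xa) (nat_lit 1) (.split (nat_lit 0xa) (nat_lit 2) (.split (nat_lit 0xa) (nat_lit 3) (.split (nat_lit 0xa) (nat_lit 4) (.split (nat_lit 0xa) (nat_lit 5) (.split (nat_lit 0xa) (nat_lit 8) (.split (nat_lit 0xa) (nat_lit 9) (.split (nat_lit 0xa) (nat_lit 7) (.unj (nat_lit 0x105400) (nat_lit 0x10000000000010002000200000000000000000000) (nat_lit 0x155) (nat_lit 0x10002000300040003)) (.unj (nat_lit 0x105000) (nat_lit 0x10000000000010001000000000000000000000000) (nat_lit 0x155) (nat_lit 0x10002000300040003))) (.non (nat_lit 0) (nat_lit 6) (nat_lit 0x150150) (nat_lit 0x10002000100000000000000010002000100000000))) (.non (nat_lit 0) (nat_lit 6) (nat_lit 0x154150) (nat_lit 0x10002000200010000000000010002000100000000))) (.non (nat_lit 0) (nat_lit 7) (nat_lit 0x101400) (nat_lit 0x10000000000000001000100000000000000000000))) (.non (nat_lit 0) (nat_lit 6) (nat_lit 0x150154) (nat_lit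 0x10002000100000000000000020003000200010000))) (.non (nat_lit 0) (nat_lit 6) (nat_lit 0x140150) (nat_lit 0x10001000000000000000000010002000100000000))) (.star (nat_lit 0xa) (nat_lit 2) (nat_lit 6))) (.non (nat_lit 0) (nat_lit 6) (nat_lit 0x154154) (nat_lit 0x10003000200010000000000020004000300020000))) (.star (nat_lit 0xa) (nat_lit 0) (nat_lit 6)))) (.split (nat_lit 0xa) (nat_lit 0) (.split (nat_lit 0xa) (nat_lit 1) (.split (nat_lit 0xa) (nat_lit 2) (.split (nat_lit 0xa) (nat_lit 3) (.split (nat_lit 0xa) (nat_lit 4) (.split (nat_lit 0xa) (nat_lit 6) (.split (nat_lit 0xa) (nat_lit 7) (.split (nat_lit 0xa) (nat_lit 8) (.split (nat_lit 0xa) (nat_lit 9) (.unj (nat_lit 0x105400) (nat_lit 0x10000000000010002000200000000000000000000) (nat_lit 0x155) (nat_lit 0x10002000300040003)) (.non (nat_lit 0) (nat_lit 6) (nat_lit 0x154540) (nat_lit 0x20003000200010000000100010002000000000000))) (.non (nat_lit 0) (nat_lit 6) (nat_lit 0x154150) (nat_lit 0x10002000200010000000000010002000100000000))) (.non (nat_lit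 0) (nat_lit 6) (nat_lit 0x154554) (nat_lit 0x20005000400030000000100030006000400020000))) (.non (nat_lit 0) (nat_lit 7) (nat_lit 0x101400) (nat_lit 0x10000000000000001000100000000000000000000))) (.non (nat_lit 0) (nat_lit 6) (nat_lit 0x154550) (nat_lit 0x20003000200010000000100030004000200000000))) (.non (nat_lit 0) (nat_lit 6) (nat_lit 0x140150) (nat_lit 0x10001000000000000000000010002000100000000))) (.non (nat_lit 0) (nat_lit 6) (nat_lit 0x154550) (nat_lit 0x20003000200010000000100020004000300000000))) (.non (nat_lit 0) (nat_lit 6) (nat_lit 0x154154) (nat_lit 0x10003000200010000000000020004000300020000))) (.non (nat_lit 2) (nat_lit 7) (nat_lit 0x101405) (nat_lit 0x10000000000000001000100000000000000010001))))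

noncomputable def t1593_12 : Tr := (.st (nat_lit 8) (nat_lit 0) (nat_lit 6) (nat_lit 0x54150) (nat_lit 0x2000200010000000000010002000100000000) (nat_lit 1) (nat_lit 1) (.st (nat_lit 9) (nat_lit 0) (nat_lit 6) (nat_lit 0x50150) (nat_lit 0x2000100000000000000010002000100000000) (nat_lit 1) (nat_lit 1) (.ex (nat_lit 0) (.split (nat_lit 4) (nat_lit 3) (.split (nat_lit 9) (nat_lit 3) (.split (nat_lit 9) (nat_lit 8) (.pd (.cons (nat_lit 1) (nat_lit 6) (nat_lit 0) (nat_lit 0x3980532200) (nat_lit 0xa2c28b71aef423f00000f423ff423f5b8d45160d00000f423f) (.cons (nat_lit 1) (nat_lit 7) (nat_lit 0) (nat_lit 0x3905532200) (nat_lit 0xb71aef423f00000f423f54591f423f65b9761a7900000f423f) (.cons (nat_lit 3) (nat_lit 6) (nat_lit 0) (nat_lit 0x8770540100) (nat_lit 0xf423fb71aea2c2800000f423ff423f00000f423fb71ae1f156) (.cons (nat_lit 3) (nat_lit 7) (nat_lit 0) (nat_lit 0x8805540100) (nat_lit 0xf423fb71ae00000f423f54591f423f00000f423fb71ae1f156) .nil)))) t1593_11) (.non (nat_lit 0) (nat_lit 6) (nat_lit 0x68140) (nat_lit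 0x3000200010000000000010002000000000000))) (.non (nat_lit 0) (nat_lit 6) (nat_lit 0xa8140) (nat_lit 0x3000200010000000000020004000000000000))) (.non (nat_lit 0) (nat_lit 6) (nat_lit 0x40250) (nat_lit 0x1000000000000000000010002000100000000))) (.split (nat_lit 0xa) (nat_lit 1) (.split (nat_lit 0xa) (nat_lit 2) (.split (nat_lit 0xa) (nat_lit 3) (.split (nat_lit 0xa) (nat_lit 4) (.split (nat_lit 0xa) (nat_lit 5) (.split (nat_lit 0xa) (nat_lit 6) (.split (nat_lit 0xa) (nat_lit 7) (.split (nat_lit 0xa) (nat_lit 8) (.split (nat_lit 0xa) (nat_lit 9) (.unj (nat_lit 0x100015) (nat_lit 0x10000000000000000000000000000000100020002) (nat_lit 0x55400) (nat_lit 0x1000200030004000300000000000000000000)) (.non (nat_lit 0) (nat_lit 6) (nat_lit 0x150150) (nat_lit 0x10002000100000000000000010002000100000000))) (.non (nat_lit 0) (nat_lit 6) (nat_lit 0x154150) (nat_lit 0x10002000200010000000000010002000100000000))) (.star (nat_lit 0xa) (nat_lit 0) (nat_lit 7))) (.star (nat_lit 0xa) (nat_lit 0) (nat_lit 6))) (.non (nat_lit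 2) (nat_lit 7) (nat_lit 0x101405) (nat_lit 0x10000000000000001000100000000000000010001))) (.non (nat_lit 0) (nat_lit 6) (nat_lit 0x150154) (nat_lit 0x10002000100000000000000020003000200010000))) (.non (nat_lit 0) (nat_lit 6) (nat_lit 0x140150) (nat_lit 0x10001000000000000000000010002000100000000))) (.non (nat_lit 0) (nat_lit 6) (nat_lit 0x140154) (nat_lit 0x10001000000000000000000010002000200010000))) (.non (nat_lit 0) (nat_lit 6) (nat_lit 0x154154) (nat_lit 0x10003000200010000000000020004000300020000))))))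

noncomputable def t1593_13 : Tr := (.split (nat_lit 9) (nat_lit 3) (.split (nat_lit 9) (nat_lit 4) (.split (nat_lit 8) (nat_lit 4) (.split (nat_lit 7) (nat_lit 4) .uj (.st (nat_lit 4) (nat_lit 0) (nat_lit 6) (nat_lit 0x54154) (nat_lit 0x1000200030000000000040003000200010000) (nat_lit 1) (nat_lit 2) (.ex (nat_lit 0) t1593_5 (.split (nat_lit 0xa) (nat_lit 1) (.split (nat_lit 0xa) (nat_lit 3) (.split (nat_lit 0xa) (nat_lit 4) (.split (nat_lit 0xa) (nat_lit 5) (.split (nat_lit 0xa) (nat_lit 6) (.split (nat_lit 0xa) (nat_lit 7) (.split (nat_lit 0xa) (nat_lit 8) (.split (nat_lit 0xa) (nat_lit 9) (.split (nat_lit 0xa) (nat_lit 2) (.unj (nat_lit 0x100015) (nat_lit 0x10000000000000000000000000000000100020002) (nat_lit 0x15500) (nat_lit 0x100020002000200010000000000000000)) (.unj (nat_lit 0x100015) (nat_lit 0x10000000000000000000000000000000100010001) (nat_lit 0x15500) (nat_lit 0x100020002000200010000000000000000))) (.non (nat_lit 2) (nat_lit 6) (nat_lit 0x150005) (nat_lit 0x30002000100000000000000000000000000030004)))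 (.non (nat_lit 2) (nat_lit 6) (nat_lit 0x150005) (nat_lit 0x30001000200000000000000000000000000030004))) (.star (nat_lit 0xa) (nat_lit 0) (nat_lit 7))) (.star (nat_lit 0xa) (nat_lit 0) (nat_lit 6))) (.non (nat_lit 2) (nat_lit 7) (nat_lit 0x101405) (nat_lit 0x10000000000000001000100000000000000010001))) (.non (nat_lit 0) (nat_lit 6) (nat_lit 0x154154) (nat_lit 0x20001000200030000000000040003000200010000))) (.non (nat_lit 2) (nat_lit 6) (nat_lit 0x100145) (nat_lit 0x30000000000000000000000010002000000030004))) (.non (nat_lit 2) (nat_lit 6) (nat_lit 0x100005) (nat_lit 0x10000000000000000000000000000000000010001)))))) (.split (nat_lit 7) (nat_lit 4) t1593_9 (.non (nat_lit 0) (nat_lit 6) (nat_lit 0x14100) (nat_lit 0x100010000000000010000000000000000)))) (.split (nat_lit 8) (nat_lit 4) (.split (nat_lit 7) (nat_lit 4) (.sup (nat_lit 0x100040007000a0008) (nat_lit 0x100040007000a000800000000000000000000)) (.non (nat_lit 0) (nat_lit 6) (nat_lit 0x54100) (nat_lit 0x1000100010000000000010000000000000000)))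 (.non (nat_lit 0) (nat_lit 6) (nat_lit 0x50100) (nat_lit 0x1000100000000000000010000000000000000)))) (.split (nat_lit 9) (nat_lit 4) (.split (nat_lit 8) (nat_lit 4) (.split (nat_lit 7) (nat_lit 4) (.st (nat_lit 1) (nat_lit 0) (nat_lit 6) (nat_lit 0x54154) (nat_lit 0x3000200010000000000020004000300020000) (nat_lit 1) (nat_lit 1) (.st (nat_lit 2) (nat_lit 0) (nat_lit 6) (nat_lit 0x40154) (nat_lit 0x1000000000000000000010002000200010000) (nat_lit 1) (nat_lit 1) (.st (nat_lit 3) (nat_lit 0) (nat_lit 6) (nat_lit 0x40150) (nat_lit 0x1000000000000000000010002000100000000) (nat_lit 1) (nat_lit 1) (.st (nat_lit 4) (nat_lit 0) (nat_lit 6) (nat_lit 0x50154) (nat_lit 0x2000100000000000000020003000200010000) (nat_lit 1) (nat_lit 1) t1593_12)))) (.non (nat_lit 0) (nat_lit 6) (nat_lit 0x54140) (nat_lit 0x1000100010000000000010001000000000000))) (.non (nat_lit 0) (nat_lit 6) (nat_lit 0x50140) (nat_lit 0x1000100000000000000010001000000000000))) (.non (nat_lit 0) (nat_lit 6) (nat_lit 0x40140) (nat_lit 0x1000000000000000000010001000000000000))))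

noncomputable def t1593_14 : Tr := (.ex (nat_lit 7) (.pd (.cons (nat_lit 0) (nat_lit 5) (nat_lit 0) (nat_lit 0x2987032110) (nat_lit 0x98965a2c28b71aef423f00000f423fb71ae411a60f41200000) (.cons (nat_lit 0) (nat_lit 8) (nat_lit 0) (nat_lit 0x2065532110) (nat_lit 0xf423f00000f423fb71ae1f156f423fb71ae65b9761a7900000) (.cons (nat_lit 0) (nat_lit 9) (nat_lit 0) (nat_lit 0x765532110) (nat_lit 0xf423fb71aea2c2804737f423fb71aea2c289896500000) (.cons (nat_lit 1) (nat_lit 5) (nat_lit 0) (nat_lit 0x2987032200) (nat_lit 0x98965a2c28b71aef423f00000f423fb71ae411a600000f423f) (.cons (nat_lit 1) (nat_lit 8) (nat_lit 0) (nat_lit 0x2065532200) (nat_lit 0xf423f00000f423fb71ae1f156f423fb71ae65b9700000f423f) (.cons (nat_lit 1) (nat_lit 9) (nat_lit 0) (nat_lit 0x765532200) (nat_lit 0xf423fb71aea2c2804737f423fb71aea2c2800000f423f) (.cons (nat_lit 2) (nat_lit 5) (nat_lit 0) (nat_lit 0x8766033000) (nat_lit 0xf423fb71aea2c289896500000f423fb71ae00000f423f54591) (.cons (nat_lit 2) (nat_lit 8) (nat_lit 0) (nat_lit 0x9065533000)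 (nat_lit 0xf423f00000f423fb71ae1f156f423fb71ae00000f423f54591) (.cons (nat_lit 2) (nat_lit 9) (nat_lit 0) (nat_lit 0x765533000) (nat_lit 0xf423fb71aea2c2804737f423fb71ae00000f423f54591) (.cons (nat_lit 3) (nat_lit 8) (nat_lit 0) (nat_lit 0x2065540100) (nat_lit 0xf423f00000f423fb71ae1f156f423f00000b71aea2c2804737) (.cons (nat_lit 3) (nat_lit 9) (nat_lit 0) (nat_lit 0x765540100) (nat_lit 0xf423fb71aea2c2804737f423f00000f423fb71ae1f156) (.cons (nat_lit 4) (nat_lit 9) (nat_lit 0) (nat_lit 0x765502100) (nat_lit 0xf423fb71aea2c280473700000f423fb71aea2c2804737) .nil)))))))))))) (.leaf (.cons (nat_lit 0x50015) (nat_lit 0x2000100000000000000000000000300040003) (.cons (nat_lit 0x40055) (nat_lit 0x1000000000000000000000001000200020002) .nil)) (.cons (nat_lit 0x1111011110) (nat_lit 0x100001) (nat_lit 0xe) (nat_lit 0x4567032010) (.cons (nat_lit 0x1110011110) (nat_lit 0x1000001) (nat_lit 0xd) (nat_lit 0x4560032010) (.cons (nat_lit 0x1100011110) (nat_lit 0x10000001) (nat_lit 0xc) (nat_lit 0x4500032010) (.cons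 (nat_lit 0x1000011110) (nat_lit 0x100000001) (nat_lit 8) (nat_lit 0x2000043010) (.cons (nat_lit 0x1111011100) (nat_lit 0x100010) (nat_lit 5) (nat_lit 0x3456001200) (.cons (nat_lit 0x1110011100) (nat_lit 0x1000010) (nat_lit 4) (nat_lit 0x3450001200) (.cons (nat_lit 0x1100011100) (nat_lit 0x10000010) (nat_lit 3) (nat_lit 0x3400001200) (.cons (nat_lit 0x1000000111) (nat_lit 0x100001000) (nat_lit 0x10) (nat_lit 0x3000000210) .nil)))))))))) (.split (nat_lit 0xa) (nat_lit 0) (.split (nat_lit 0xa) (nat_lit 1) (.split (nat_lit 0xa) (nat_lit 2) (.split (nat_lit 0xa) (nat_lit 3) (.split (nat_lit 0xa) (nat_lit 4) (.split (nat_lit 0xa) (nat_lit 5) (.split (nat_lit 0xa) (nat_lit 8) (.split (nat_lit 0xa) (nat_lit 9) (.split (nat_lit 0xa) (nat_lit 6) (.unj (nat_lit 0x155) (nat_lit 0x10002000300040003) (nat_lit 0x115400) (nat_lit 0x10000000100020002000200000000000000000000)) (.unj (nat_lit 0x105000) (nat_lit 0x10000000000010001000000000000000000000000) (nat_lit 0x155) (nat_lit 0x10002000300040003))) (.non (nat_lit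 0) (nat_lit 6) (nat_lit 0x154000) (nat_lit 0x10001000100010000000000000000000000000000))) (.non (nat_lit 0) (nat_lit 6) (nat_lit 0x114000) (nat_lit 0x10000000100010000000000000000000000000000))) (.non (nat_lit 0) (nat_lit 6) (nat_lit 0x154554) (nat_lit 0x20005000400030000000100020004000600030000))) (.non (nat_lit 0) (nat_lit 6) (nat_lit 0x154150) (nat_lit 0x10001000100010000000000010001000100000000))) (.non (nat_lit 0) (nat_lit 6) (nat_lit 0x154050) (nat_lit 0x10001000100010000000000000001000100000000))) (.star (nat_lit 0xa) (nat_lit 2) (nat_lit 7))) (.non (nat_lit 0) (nat_lit 6) (nat_lit 0x154014) (nat_lit 0x10001000100010000000000000000000100010000))) (.star (nat_lit 0xa) (nat_lit 0) (nat_lit 7))))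

noncomputable def t1593_15 : Tr := (.ex (nat_lit 5) (.ex (nat_lit 6) t1593_14 (.split (nat_lit 0xa) (nat_lit 0) (.split (nat_lit 0xa) (nat_lit 1) (.split (nat_lit 0xa) (nat_lit 2) (.split (nat_lit 0xa) (nat_lit 3) (.split (nat_lit 0xa) (nat_lit 4) (.split (nat_lit 0xa) (nat_lit 5) (.split (nat_lit 0xa) (nat_lit 8) (.split (nat_lit 0xa) (nat_lit 9) (.split (nat_lit 0xa) (nat_lit 7) (.unj (nat_lit 0x105400) (nat_lit 0x10000000000010002000200000000000000000000) (nat_lit 0x155) (nat_lit 0x10002000300040003)) (.unj (nat_lit 0x105000) (nat_lit 0x10000000000010001000000000000000000000000) (nat_lit 0x155) (nat_lit 0x10002000300040003))) (.non (nat_lit 0) (nat_lit 6) (nat_lit 0x150054) (nat_lit 0x10002000100000000000000000001000200010000))) (.non (nat_lit 0) (nat_lit 6) (nat_lit 0x154054) (nat_lit 0x10002000200010000000000000001000200010000))) (.non (nat_lit 0) (nat_lit 7) (nat_lit 0x101400) (nat_lit 0x10000000000000001000100000000000000000000))) (.non (nat_lit 0) (nat_lit 6) (nat_lit 0x154154) (nat_lit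 0x10003000200010000000000020003000400020000))) (.non (nat_lit 0) (nat_lit 6) (nat_lit 0x140154) (nat_lit 0x10001000000000000000000010002000200010000))) (.star (nat_lit 0xa) (nat_lit 2) (nat_lit 6))) (.non (nat_lit 0) (nat_lit 6) (nat_lit 0x150154) (nat_lit 0x10002000100000000000000010002000300020000))) (.star (nat_lit 0xa) (nat_lit 0) (nat_lit 6)))) (.split (nat_lit 0xa) (nat_lit 0) (.split (nat_lit 0xa) (nat_lit 1) (.split (nat_lit 0xa) (nat_lit 2) (.split (nat_lit 0xa) (nat_lit 3) (.split (nat_lit 0xa) (nat_lit 4) (.split (nat_lit 0xa) (nat_lit 6) (.split (nat_lit 0xa) (nat_lit 7) (.split (nat_lit 0xa) (nat_lit 8) (.split (nat_lit 0xa) (nat_lit 9) (.unj (nat_lit 0x105400) (nat_lit 0x10000000000010002000200000000000000000000) (nat_lit 0x155) (nat_lit 0x10002000300040003)) (.non (nat_lit 0) (nat_lit 6) (nat_lit 0x154450) (nat_lit 0x20003000200010000000100000001000200000000))) (.non (nat_lit 0) (nat_lit 6) (nat_lit 0x154054) (nat_lit 0x10002000200010000000000000001000200010000))) (.non (nat_lit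 0) (nat_lit 6) (nat_lit 0x154554) (nat_lit 0x20005000400030000000100020004000600030000))) (.non (nat_lit 0) (nat_lit 7) (nat_lit 0x101400) (nat_lit 0x10000000000000001000100000000000000000000))) (.non (nat_lit 0) (nat_lit 6) (nat_lit 0x154154) (nat_lit 0x10003000200010000000000020003000400020000))) (.non (nat_lit 0) (nat_lit 6) (nat_lit 0x154454) (nat_lit 0x20003000200010000000100000003000400020000))) (.non (nat_lit 0) (nat_lit 6) (nat_lit 0x150550) (nat_lit 0x20002000100000000000100010002000300000000))) (.non (nat_lit 0) (nat_lit 6) (nat_lit 0x154454) (nat_lit 0x20003000200010000000100000002000400030000))) (.non (nat_lit 2) (nat_lit 7) (nat_lit 0x101405) (nat_lit 0x10000000000000001000100000000000000010001))))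

noncomputable def t1593_16 : Tr := (.st (nat_lit 2) (nat_lit 0) (nat_lit 6) (nat_lit 0x40054) (nat_lit 0x1000000000000000000000001000200010000) (nat_lit 1) (nat_lit 1) (.st (nat_lit 3) (nat_lit 0) (nat_lit 6) (nat_lit 0x40154) (nat_lit 0x1000000000000000000010002000200010000) (nat_lit 1) (nat_lit 1) (.st (nat_lit 4) (nat_lit 0) (nat_lit 6) (nat_lit 0x54154) (nat_lit 0x3000200010000000000020003000400020000) (nat_lit 1) (nat_lit 1) (.st (nat_lit 8) (nat_lit 0) (nat_lit 6) (nat_lit 0x54054) (nat_lit 0x2000200010000000000000001000200010000) (nat_lit 1) (nat_lit 1) (.st (nat_lit 9) (nat_lit 0) (nat_lit 6) (nat_lit 0x50054) (nat_lit 0x2000100000000000000000001000200010000) (nat_lit 1) (nat_lit 1) (.ex (nat_lit 0) (.split (nat_lit 9) (nat_lit 2) (.split (nat_lit 4) (nat_lit 3) (.split (nat_lit 9) (nat_lit 8) (.pd (.cons (nat_lit 1) (nat_lit 6) (nat_lit 0) (nat_lit 0x2980532200) (nat_lit 0xa2c28b71aef423f00000f423ff423fb71ae4734e00000f423f) (.cons (nat_lit 1) (nat_lit 7) (nat_lit 0) (nat_lit 0x2905532200)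 (nat_lit 0xb71aef423f00000f423f54591f423fb71ae5161100000f423f) .nil)) t1593_15) (.non (nat_lit 0) (nat_lit 6) (nat_lit 0x68050) (nat_lit 0x3000200010000000000000001000200000000))) (.non (nat_lit 0) (nat_lit 6) (nat_lit 0x40254) (nat_lit 0x1000000000000000000010002000200010000))) (.non (nat_lit 0) (nat_lit 6) (nat_lit 0xa8050) (nat_lit 0x3000200010000000000000002000400000000))) (.split (nat_lit 0xa) (nat_lit 1) (.split (nat_lit 0xa) (nat_lit 2) (.split (nat_lit 0xa) (nat_lit 3) (.split (nat_lit 0xa) (nat_lit 4) (.split (nat_lit 0xa) (nat_lit 5) (.split (nat_lit 0xa) (nat_lit 6) (.split (nat_lit 0xa) (nat_lit 7) (.split (nat_lit 0xa) (nat_lit 8) (.split (nat_lit 0xa) (nat_lit 9) (.sup (nat_lit 0x5000000000000000000000000000000020009000a) (nat_lit 0x100040007000a000800000000000000000000)) (.non (nat_lit 0) (nat_lit 6) (nat_lit 0x150054) (nat_lit 0x10002000100000000000000000001000200010000))) (.non (nat_lit 0) (nat_lit 6) (nat_lit 0x154054) (nat_lit 0x10002000200010000000000000001000200010000))) (.star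 (nat_lit 0xa) (nat_lit 0) (nat_lit 7))) (.star (nat_lit 0xa) (nat_lit 0) (nat_lit 6))) (.non (nat_lit 2) (nat_lit 7) (nat_lit 0x101405) (nat_lit 0x10000000000000001000100000000000000010001))) (.non (nat_lit 0) (nat_lit 6) (nat_lit 0x154154) (nat_lit 0x10003000200010000000000020003000400020000))) (.non (nat_lit 0) (nat_lit 6) (nat_lit 0x140154) (nat_lit 0x10001000000000000000000010002000200010000))) (.non (nat_lit 0) (nat_lit 6) (nat_lit 0x140054) (nat_lit 0x10001000000000000000000000001000200010000))) (.non (nat_lit 0) (nat_lit 6) (nat_lit 0x150154) (nat_lit 0x10002000100000000000000010002000300020000)))))))))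

noncomputable def t1593 : Tr := (.split (nat_lit 9) (nat_lit 0) (.split (nat_lit 9) (nat_lit 1) (.split (nat_lit 8) (nat_lit 1) (.split (nat_lit 8) (nat_lit 3) (.split (nat_lit 6) (nat_lit 4) (.split (nat_lit 5) (nat_lit 1) (.split (nat_lit 5) (nat_lit 3) (.split (nat_lit 5) (nat_lit 4) (.split (nat_lit 9) (nat_lit 2) t1593_13 (.split (nat_lit 9) (nat_lit 3) (.split (nat_lit 9) (nat_lit 4) (.split (nat_lit 8) (nat_lit 4) (.split (nat_lit 7) (nat_lit 4) (.st (nat_lit 1) (nat_lit 0) (nat_lit 6) (nat_lit 0x50154) (nat_lit 0x2000100000000000000010002000300020000) (nat_lit 1) (nat_lit 1) t1593_16) (.non (nat_lit 0) (nat_lit 6) (nat_lit 0x54150) (nat_lit 0x1000100010000000000010001000100000000))) (.non (nat_lit 0) (nat_lit 6) (nat_lit 0x50150) (nat_lit 0x1000100000000000000010001000100000000))) (.non (nat_lit 0) (nat_lit 6) (nat_lit 0x40150) (nat_lit 0x1000000000000000000010001000100000000))) (.non (nat_lit 0) (nat_lit 6) (nat_lit 0x40050) (nat_lit 0x1000000000000000000000001000100000000)))) (.non (nat_lit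 0) (nat_lit 7) (nat_lit 0x1550) (nat_lit 0x3000400030002000100000000))) (.non (nat_lit 0) (nat_lit 7) (nat_lit 0x1550) (nat_lit 0x2000200010002000100000000))) (.non (nat_lit 0) (nat_lit 7) (nat_lit 0x1454) (nat_lit 0x3000400000001000200030000))) (.non (nat_lit 0) (nat_lit 7) (nat_lit 0x1550) (nat_lit 0x4000300030002000100000000))) (.non (nat_lit 0) (nat_lit 6) (nat_lit 0x54150) (nat_lit 0x1000200010000000000010002000100000000))) (.non (nat_lit 2) (nat_lit 6) (nat_lit 0x54005) (nat_lit 0x1000200010000000000000000000000020002))) (.non (nat_lit 2) (nat_lit 6) (nat_lit 0x54005) (nat_lit 0x3000200010000000000000000000000040003))) (.non (nat_lit 2) (nat_lit 6) (nat_lit 0x54005) (nat_lit 0x3000200010000000000000000000000030004)))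

noncomputable def t1594_1 : Tr := (.ex (nat_lit 9) (.pd (.cons (nat_lit 0) (nat_lit 5) (nat_lit 0) (nat_lit 0x8487032110) (nat_lit 0xf423f65b97b71aef423f0000061a795b8cc515fe3d05a00000) (.cons (nat_lit 0) (nat_lit 7) (nat_lit 0) (nat_lit 0x8405532110) (nat_lit 0xf423fb71ae00000f423f54591a2c2898965927bd8e6a200000) (.cons (nat_lit 1) (nat_lit 5) (nat_lit 0) (nat_lit 0x8487032200) (nat_lit 0xf423f65b97b71aef423f0000061a795b8cc515fe00000f423f) (.cons (nat_lit 1) (nat_lit 7) (nat_lit 0) (nat_lit 0x8405532200) (nat_lit 0xf423fb71ae00000f423f54591a2c2898965927bd00000f423f) (.cons (nat_lit 2) (nat_lit 5) (nat_lit 0) (nat_lit 0x8487033000) (nat_lit 0xf423f65b97b71aef423f0000061a795b8cc00000f423f54591) (.cons (nat_lit 2) (nat_lit 7) (nat_lit 0) (nat_lit 0x8405533000) (nat_lit 0xf423fb71ae00000f423f54591a2c289896500000f423f54591) (.cons (nat_lit 3) (nat_lit 5) (nat_lit 0) (nat_lit 0x8487040100) (nat_lit 0xf423f65b97b71aef423f0000061a7900000f423fb71ae1f156) (.cons (nat_lit 3) (nat_lit 7) (nat_lit 0) (nat_lit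 0x8405540100) (nat_lit 0xf423fb71ae00000f423f54591a2c2800000f423fb71ae1f156) (.cons (nat_lit 4) (nat_lit 5) (nat_lit 0) (nat_lit 0x8766002100) (nat_lit 0xf423fb71aea2c28989650000000000f423fb71aea2c2804737) (.cons (nat_lit 4) (nat_lit 7) (nat_lit 0) (nat_lit 0x8805502100) (nat_lit 0xf423fb71ae00000f423f5459100000f423fb71aea2c2804737) .nil)))))))))) (.l31 (nat_lit 0x4321098765))) (.split (nat_lit 0xa) (nat_lit 0) (.split (nat_lit 0xa) (nat_lit 1) (.split (nat_lit 0xa) (nat_lit 2) (.split (nat_lit 0xa) (nat_lit 3) (.split (nat_lit 0xa) (nat_lit 4) (.split (nat_lit 0xa) (nat_lit 5) (.split (nat_lit 0xa) (nat_lit 6) (.split (nat_lit 0xa) (nat_lit 7) (.split (nat_lit 0xa) (nat_lit 8) (.sup (nat_lit 0x10002000300060009000700000000000000000000) (nat_lit 0x10006000b0010000d)) (.non (nat_lit 0) (nat_lit 6) (nat_lit 0x150000) (nat_lit 0x10001000100000000000000000000000000000000))) (.non (nat_lit 0) (nat_lit 6) (nat_lit 0x154000) (nat_lit 0x10001000100010000000000000000000000000000))) (.non (nat_lit 0) (nat_lit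 8) (nat_lit 0x105400) (nat_lit 0x10000000000010002000200000000000000000000))) (.non (nat_lit 0) (nat_lit 6) (nat_lit 0x154550) (nat_lit 0x20003000400020000000100030002000100000000))) (.non (nat_lit 0) (nat_lit 6) (nat_lit 0x150100) (nat_lit 0x10001000100000000000000010000000000000000))) (.non (nat_lit 0) (nat_lit 6) (nat_lit 0x150140) (nat_lit 0x10001000100000000000000010001000000000000))) (.non (nat_lit 0) (nat_lit 6) (nat_lit 0x150150) (nat_lit 0x10001000100000000000000010001000100000000))) (.non (nat_lit 0) (nat_lit 6) (nat_lit 0x150154) (nat_lit 0x10001000100000000000000010001000100010000))) (.non (nat_lit 2) (nat_lit 6) (nat_lit 0x150005) (nat_lit 0x30002000100000000000000000000000000030004))))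

noncomputable def t1594_2 : Tr := (.ex (nat_lit 1) (.pd (.cons (nat_lit 3) (nat_lit 6) (nat_lit 0) (nat_lit 0x8480540100) (nat_lit 0xf423f7a11df423f00000f423f7a11b00000f423fb71ae1f156) (.cons (nat_lit 3) (nat_lit 8) (nat_lit 0) (nat_lit 0x9065540100) (nat_lit 0xf423f00000f423fb71ae1f156f423f00000f423fb71ae1f156) (.cons (nat_lit 4) (nat_lit 6) (nat_lit 0) (nat_lit 0x8770502100) (nat_lit 0xf423fb71aea2c2800000f423f00000f423fb71aea2c2804737) (.cons (nat_lit 4) (nat_lit 8) (nat_lit 0) (nat_lit 0x9065502100) (nat_lit 0xf423f00000f423fb71ae1f15600000f423fb71aea2c2804737) .nil)))) (.ex (nat_lit 7) (.pd (.cons (nat_lit 4) (nat_lit 9) (nat_lit 0) (nat_lit 0x765502100) (nat_lit 0xf423fb71aea2c280473700000f423fb71aea2c2804737) .nil) t1594_1) (.split (nat_lit 0xa) (nat_lit 0) (.split (nat_lit 0xa) (nat_lit 1) (.split (nat_lit 0xa) (nat_lit 2) (.split (nat_lit 0xa) (nat_lit 3) (.split (nat_lit 0xa) (nat_lit 4) (.split (nat_lit 0xa) (nat_lit 5) (.split (nat_lit 0xa) (nat_lit 6) (.split (nat_lit 0xa) (nat_lit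 8) (.split (nat_lit 0xa) (nat_lit 9) (.sup (nat_lit 0x10002000300050004) (nat_lit 0x20000000100030005000400000000000000000000)) (.non (nat_lit 0) (nat_lit 6) (nat_lit 0x154000) (nat_lit 0x10001000100010000000000000000000000000000))) (.non (nat_lit 0) (nat_lit 6) (nat_lit 0x114000) (nat_lit 0x10000000100010000000000000000000000000000))) (.non (nat_lit 0) (nat_lit 8) (nat_lit 0x105000) (nat_lit 0x10000000000010001000000000000000000000000))) (.non (nat_lit 0) (nat_lit 6) (nat_lit 0x154550) (nat_lit 0x20002000400030000000100030002000100000000))) (.non (nat_lit 0) (nat_lit 6) (nat_lit 0x114100) (nat_lit 0x10000000100010000000000010000000000000000))) (.non (nat_lit 0) (nat_lit 6) (nat_lit 0x114140) (nat_lit 0x10000000100010000000000010001000000000000))) (.non (nat_lit 0) (nat_lit 6) (nat_lit 0x114150) (nat_lit 0x10000000100010000000000010001000100000000))) (.non (nat_lit 0) (nat_lit 6) (nat_lit 0x114154) (nat_lit 0x10000000100010000000000010001000100010000))) (.non (nat_lit 2) (nat_lit 6) (nat_lit 0x114005)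 (nat_lit 0x30000000100020000000000000000000000030004))))) (.split (nat_lit 0xa) (nat_lit 0) (.split (nat_lit 0xa) (nat_lit 2) (.split (nat_lit 0xa) (nat_lit 3) (.split (nat_lit 0xa) (nat_lit 4) (.split (nat_lit 0xa) (nat_lit 5) (.split (nat_lit 0xa) (nat_lit 6) (.split (nat_lit 0xa) (nat_lit 7) (.split (nat_lit 0xa) (nat_lit 8) (.split (nat_lit 0xa) (nat_lit 9) (.unj (nat_lit 0x100015) (nat_lit 0x10000000000000000000000000000000100020002) (nat_lit 0x15500) (nat_lit 0x200030004000300010000000000000000)) (.non (nat_lit 0) (nat_lit 6) (nat_lit 0x150154) (nat_lit 0x10001000100000000000000010001000100010000))) (.non (nat_lit 0) (nat_lit 6) (nat_lit 0x154100) (nat_lit 0x10001000200010000000000010000000000000000))) (.non (nat_lit 0) (nat_lit 6) (nat_lit 0x114154) (nat_lit 0x10000000100010000000000010001000100010000))) (.non (nat_lit 0) (nat_lit 8) (nat_lit 0x105400) (nat_lit 0x10000000000010002000200000000000000000000))) (.non (nat_lit 0) (nat_lit 8) (nat_lit 0x105400) (nat_lit 0x10000000000010002000200000000000000000000)))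 (.non (nat_lit 0) (nat_lit 6) (nat_lit 0x154140) (nat_lit 0x10001000200010000000000020001000000000000))) (.non (nat_lit 0) (nat_lit 6) (nat_lit 0x154150) (nat_lit 0x10001000200010000000000020002000100000000))) (.non (nat_lit 0) (nat_lit 6) (nat_lit 0x100014) (nat_lit 0x10000000000000000000000000000000100010000))) (.non (nat_lit 2) (nat_lit 6) (nat_lit 0x100005) (nat_lit 0x10000000000000000000000000000000000010001))))

noncomputable def t1594_3 : Tr := (.st (nat_lit 2) (nat_lit 0) (nat_lit 6) (nat_lit 0x54154) (nat_lit 0x1000200010000000000020002000200010000) (nat_lit 1) (nat_lit 1) (.st (nat_lit 3) (nat_lit 0) (nat_lit 6) (nat_lit 0x54150) (nat_lit 0x1000200010000000000020002000100000000) (nat_lit 1) (nat_lit 1) (.st (nat_lit 4) (nat_lit 0) (nat_lit 6) (nat_lit 0x54140) (nat_lit 0x1000200010000000000020001000000000000) (nat_lit 1) (nat_lit 1) (.st (nat_lit 8) (nat_lit 0) (nat_lit 6) (nat_lit 0x54100) (nat_lit 0x1000200010000000000010000000000000000) (nat_lit 1) (nat_lit 1) (.ex (nat_lit 0) (.split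 (nat_lit 4) (nat_lit 3) (.split (nat_lit 8) (nat_lit 4) (.split (nat_lit 9) (nat_lit 8) (.pd (.cons (nat_lit 1) (nat_lit 6) (nat_lit 0) (nat_lit 0x8480532200) (nat_lit 0xf423f7a11df423f00000f423f7a11b7a1197a11700000f423f) (.cons (nat_lit 1) (nat_lit 8) (nat_lit 0) (nat_lit 0x9065532200) (nat_lit 0xf423f00000f423fb71ae1f156f423fb71aea2c2800000f423f) .nil)) t1594_2) (.non (nat_lit 0) (nat_lit 6) (nat_lit 0x94100) (nat_lit 0x1000200010000000000010000000000000000))) (.non (nat_lit 0) (nat_lit 6) (nat_lit 0xa8100) (nat_lit 0x1000200010000000000020000000000000000))) (.non (nat_lit 0) (nat_lit 6) (nat_lit 0xa8240) (nat_lit 0x1000200010000000000020002000000000000))) (.split (nat_lit 0xa) (nat_lit 1) (.split (nat_lit 0xa) (nat_lit 2) (.split (nat_lit 0xa) (nat_lit 3) (.split (nat_lit 0xa) (nat_lit 4) (.split (nat_lit 0xa) (nat_lit 5) (.split (nat_lit 0xa) (nat_lit 6) (.split (nat_lit 0xa) (nat_lit 7) (.split (nat_lit 0xa) (nat_lit 8) (.split (nat_lit 0xa) (nat_lit 9) (.unj (nat_lit 0x100015) (nat_lit 0x10000000000000000000000000000000100020002)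 (nat_lit 0x15500) (nat_lit 0x200030004000300010000000000000000)) (.non (nat_lit 2) (nat_lit 6) (nat_lit 0x150005) (nat_lit 0x30002000100000000000000000000000000030004))) (.star (nat_lit 0xa) (nat_lit 0) (nat_lit 8))) (.non (nat_lit 2) (nat_lit 6) (nat_lit 0x114005) (nat_lit 0x30000000100020000000000000000000000030004))) (.star (nat_lit 0xa) (nat_lit 0) (nat_lit 6))) (.non (nat_lit 0) (nat_lit 8) (nat_lit 0x105400) (nat_lit 0x10000000000010002000200000000000000000000))) (.non (nat_lit 0) (nat_lit 6) (nat_lit 0x154140) (nat_lit 0x10001000200010000000000020001000000000000))) (.non (nat_lit 0) (nat_lit 6) (nat_lit 0x154150) (nat_lit 0x10001000200010000000000020002000100000000))) (.non (nat_lit 0) (nat_lit 6) (nat_lit 0x154154) (nat_lit 0x10001000200010000000000020002000200010000))) (.non (nat_lit 2) (nat_lit 6) (nat_lit 0x100005) (nat_lit 0x10000000000000000000000000000000000010001))))))))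

noncomputable def t1594_4 : Tr := (.ex (nat_lit 7) (.pd (.cons (nat_lit 0) (nat_lit 5) (nat_lit 0) (nat_lit 0x3987032110) (nat_lit 0x98965a2c28b71aef423f00000f423f5572c45c091e82a00000) (.cons (nat_lit 0) (nat_lit 9) (nat_lit 0) (nat_lit 0x765532110) (nat_lit 0xf423fb71aea2c2804737f423fb71aea2c289896500000) (.cons (nat_lit 1) (nat_lit 5) (nat_lit 0) (nat_lit 0x3987032200) (nat_lit 0x98965a2c28b71aef423f00000f423f5572c45c0900000f423f) (.cons (nat_lit 1) (nat_lit 9) (nat_lit 0) (nat_lit 0x765532200) (nat_lit 0xf423fb71aea2c2804737f423fb71aea2c2800000f423f) (.cons (nat_lit 2) (nat_lit 5) (nat_lit 0) (nat_lit 0x3987033000) (nat_lit 0x98965a2c28b71aef423f00000f423f5572c00000f423f54591) (.cons (nat_lit 2) (nat_lit 9) (nat_lit 0) (nat_lit 0x765533000) (nat_lit 0xf423fb71aea2c2804737f423fb71ae00000f423f54591) (.cons (nat_lit 3) (nat_lit 5) (nat_lit 0) (nat_lit 0x8766040100) (nat_lit 0xf423fb71aea2c289896500000f423f00000f423fb71ae1f156) (.cons (nat_lit 3) (nat_lit 9) (nat_lit 0) (nat_lit 0x765540100) (nat_lit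 0xf423fb71aea2c2804737f423f00000f423fb71ae1f156) (.cons (nat_lit 4) (nat_lit 9) (nat_lit 0) (nat_lit 0x765502100) (nat_lit 0xf423fb71aea2c280473700000f423fb71aea2c2804737) .nil))))))))) (.l31 (nat_lit 0x9876543210))) (.split (nat_lit 0xa) (nat_lit 0) (.split (nat_lit 0xa) (nat_lit 1) (.split (nat_lit 0xa) (nat_lit 2) (.split (nat_lit 0xa) (nat_lit 3) (.split (nat_lit 0xa) (nat_lit 4) (.split (nat_lit 0xa) (nat_lit 5) (.split (nat_lit 0xa) (nat_lit 6) (.split (nat_lit 0xa) (nat_lit 8) (.split (nat_lit 0xa) (nat_lit 9) (.unj (nat_lit 0x155) (nat_lit 0x10002000300040003) (nat_lit 0x115400) (nat_lit 0x10000000100020002000200000000000000000000)) (.non (nat_lit 0) (nat_lit 6) (nat_lit 0x154000) (nat_lit 0x10001000100010000000000000000000000000000))) (.non (nat_lit 0) (nat_lit 6) (nat_lit 0x114000) (nat_lit 0x10000000100010000000000000000000000000000))) (.non (nat_lit 0) (nat_lit 8) (nat_lit 0x105000) (nat_lit 0x10000000000010001000000000000000000000000))) (.non (nat_lit 0) (nat_lit 6) (nat_lit 0x154554)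 (nat_lit 0x20005000400030000000100030006000400020000))) (.non (nat_lit 0) (nat_lit 6) (nat_lit 0x154140) (nat_lit 0x10001000100010000000000010001000000000000))) (.non (nat_lit 0) (nat_lit 6) (nat_lit 0x154040) (nat_lit 0x10001000100010000000000000001000000000000))) (.non (nat_lit 0) (nat_lit 6) (nat_lit 0x154050) (nat_lit 0x10001000100010000000000000001000100000000))) (.non (nat_lit 0) (nat_lit 6) (nat_lit 0x154054) (nat_lit 0x10001000100010000000000000001000100010000))) (.non (nat_lit 2) (nat_lit 6) (nat_lit 0x114005) (nat_lit 0x30000000100020000000000000000000000030004))))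

noncomputable def t1594_5 : Tr := (.split (nat_lit 9) (nat_lit 8) (.pd (.cons (nat_lit 0) (nat_lit 7) (nat_lit 0) (nat_lit 0x3905532110) (nat_lit 0xb71aef423f00000f423f54591f423f65b9761a795b8cc00000) (.cons (nat_lit 2) (nat_lit 7) (nat_lit 0) (nat_lit 0x3905533000) (nat_lit 0xb71aef423f00000f423f54591f423f65b9700000f423f54591) .nil)) (.ex (nat_lit 0) (.pd (.cons (nat_lit 1) (nat_lit 6) (nat_lit 0) (nat_lit 0x3980532200) (nat_lit 0xa2c28b71aef423f00000f423ff423f5b8d45160d00000f423f) (.cons (nat_lit 1) (nat_lit 7) (nat_lit 0) (nat_lit 0x3905532200) (nat_lit 0xb71aef423f00000f423f54591f423f65b9761a7900000f423f) (.cons (nat_lit 1) (nat_lit 8) (nat_lit 0) (nat_lit 0x3065532200) (nat_lit 0xf423f00000f423fb71ae1f156f423f7a11d7a11b00000f423f) (.cons (nat_lit 3) (nat_lit 6) (nat_lit 0) (nat_lit 0x8770540100) (nat_lit 0xf423fb71aea2c2800000f423ff423f00000f423fb71ae1f156) (.cons (nat_lit 3) (nat_lit 7) (nat_lit 0) (nat_lit 0x8805540100) (nat_lit 0xf423fb71ae00000f423f54591f423f00000f423fb71ae1f156) (.cons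 (nat_lit 3) (nat_lit 8) (nat_lit 0) (nat_lit 0x9065540100) (nat_lit 0xf423f00000f423fb71ae1f156f423f00000f423fb71ae1f156) .nil)))))) t1594_4) (.split (nat_lit 0xa) (nat_lit 1) (.split (nat_lit 0xa) (nat_lit 2) (.split (nat_lit 0xa) (nat_lit 3) (.split (nat_lit 0xa) (nat_lit 4) (.split (nat_lit 0xa) (nat_lit 5) (.split (nat_lit 0xa) (nat_lit 6) (.split (nat_lit 0xa) (nat_lit 7) (.split (nat_lit 0xa) (nat_lit 8) (.split (nat_lit 0xa) (nat_lit 9) (.unj (nat_lit 0x100015) (nat_lit 0x10000000000000000000000000000000100020002) (nat_lit 0x55400) (nat_lit 0x1000200030004000300000000000000000000)) (.non (nat_lit 0) (nat_lit 6) (nat_lit 0x150150) (nat_lit 0x10002000100000000000000010002000100000000))) (.star (nat_lit 0xa) (nat_lit 0) (nat_lit 8))) (.non (nat_lit 2) (nat_lit 6) (nat_lit 0x114005) (nat_lit 0x30000000100020000000000000000000000030004))) (.star (nat_lit 0xa) (nat_lit 0) (nat_lit 6))) (.non (nat_lit 0) (nat_lit 8) (nat_lit 0x105400) (nat_lit 0x10000000000010002000200000000000000000000))) (.non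 (nat_lit 0) (nat_lit 6) (nat_lit 0x150154) (nat_lit 0x10002000100000000000000020003000200010000))) (.non (nat_lit 0) (nat_lit 6) (nat_lit 0x140150) (nat_lit 0x10001000000000000000000010002000100000000))) (.non (nat_lit 0) (nat_lit 6) (nat_lit 0x140154) (nat_lit 0x10001000000000000000000010002000200010000))) (.non (nat_lit 0) (nat_lit 6) (nat_lit 0x154154) (nat_lit 0x10003000200010000000000020004000300020000))))) (.non (nat_lit 0) (nat_lit 6) (nat_lit 0x68140) (nat_lit 0x3000200010000000000010002000000000000)))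

noncomputable def t1594 : Tr := (.split (nat_lit 9) (nat_lit 1) (.split (nat_lit 7) (nat_lit 1) (.split (nat_lit 7) (nat_lit 3) (.split (nat_lit 7) (nat_lit 4) (.split (nat_lit 9) (nat_lit 3) (.split (nat_lit 9) (nat_lit 4) (.split (nat_lit 8) (nat_lit 4) .uj t1594_3) (.split (nat_lit 8) (nat_lit 4) (.sup (nat_lit 0x100040007000a0008) (nat_lit 0x100040007000a000800000000000000000000)) (.non (nat_lit 0) (nat_lit 6) (nat_lit 0x50100) (nat_lit 0x1000100000000000000010000000000000000)))) (.split (nat_lit 9) (nat_lit 4) (.split (nat_lit 8) (nat_lit 4) (.st (nat_lit 1) (nat_lit 0) (nat_lit 6) (nat_lit 0x54154) (nat_lit 0x3000200010000000000020004000300020000) (nat_lit 1) (nat_lit 1) (.st (nat_lit 2) (nat_lit 0) (nat_lit 6) (nat_lit 0x40154) (nat_lit 0x1000000000000000000010002000200010000) (nat_lit 1) (nat_lit 1) (.st (nat_lit 3) (nat_lit 0) (nat_lit 6) (nat_lit 0x40150) (nat_lit 0x1000000000000000000010002000100000000) (nat_lit 1) (nat_lit 1) (.st (nat_lit 4) (nat_lit 0) (nat_lit 6) (nat_lit 0x50154)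 (nat_lit 0x2000100000000000000020003000200010000) (nat_lit 1) (nat_lit 1) (.st (nat_lit 8) (nat_lit 0) (nat_lit 6) (nat_lit 0x54150) (nat_lit 0x2000200010000000000010002000100000000) (nat_lit 1) (nat_lit 1) (.st (nat_lit 9) (nat_lit 0) (nat_lit 6) (nat_lit 0x50150) (nat_lit 0x2000100000000000000010002000100000000) (nat_lit 1) (nat_lit 1) (.split (nat_lit 4) (nat_lit 3) (.split (nat_lit 9) (nat_lit 3) t1594_5 (.non (nat_lit 0) (nat_lit 6) (nat_lit 0xa8140) (nat_lit 0x3000200010000000000020004000000000000))) (.non (nat_lit 0) (nat_lit 6) (nat_lit 0x40250) (nat_lit 0x1000000000000000000010002000100000000))))))))) (.non (nat_lit 0) (nat_lit 6) (nat_lit 0x50140) (nat_lit 0x1000100000000000000010001000000000000))) (.non (nat_lit 0) (nat_lit 6) (nat_lit 0x40140) (nat_lit 0x1000000000000000000010001000000000000)))) (.non (nat_lit 0) (nat_lit 8) (nat_lit 0x5540) (nat_lit 0x30004000300020001000000000000))) (.non (nat_lit 0) (nat_lit 8) (nat_lit 0x5540) (nat_lit 0x30004000300010002000000000000))) (.non (nat_lit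 0) (nat_lit 8) (nat_lit 0x5414) (nat_lit 0x30004000300000000000100020000))) (.non (nat_lit 2) (nat_lit 6) (nat_lit 0x54005) (nat_lit 0x3000200010000000000000000000000040003)))

noncomputable def t1596_1 : Tr := (.ex (nat_lit 9) (.pd (.cons (nat_lit 0) (nat_lit 5) (nat_lit 0) (nat_lit 0x8487032110) (nat_lit 0xf423f65b97b71aef423f0000061a795b8cc515fe3d05a00000) (.cons (nat_lit 0) (nat_lit 6) (nat_lit 0) (nat_lit 0x8480532110) (nat_lit 0xf423f7a11df423f00000f423f7a11b7a1197a1177a11500000) (.cons (nat_lit 1) (nat_lit 5) (nat_lit 0) (nat_lit 0x8487032200) (nat_lit 0xf423f65b97b71aef423f0000061a795b8cc515fe00000f423f) (.cons (nat_lit 1) (nat_lit 6) (nat_lit 0) (nat_lit 0x8480532200) (nat_lit 0xf423f7a11df423f00000f423f7a11b7a1197a11700000f423f) (.cons (nat_lit 2) (nat_lit 5) (nat_lit 0) (nat_lit 0x8487033000) (nat_lit 0xf423f65b97b71aef423f0000061a795b8cc00000f423f54591) (.cons (nat_lit 2) (nat_lit 6) (nat_lit 0) (nat_lit 0x8480533000) (nat_lit 0xf423f7a11df423f00000f423f7a11b7a11900000f423f54591) (.cons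 (nat_lit 3) (nat_lit 5) (nat_lit 0) (nat_lit 0x8487040100) (nat_lit 0xf423f65b97b71aef423f0000061a7900000f423fb71ae1f156) (.cons (nat_lit 3) (nat_lit 6) (nat_lit 0) (nat_lit 0x8480540100) (nat_lit 0xf423f7a11df423f00000f423f7a11b00000f423fb71ae1f156) (.cons (nat_lit 4) (nat_lit 5) (nat_lit 0) (nat_lit 0x8766002100) (nat_lit 0xf423fb71aea2c28989650000000000f423fb71aea2c2804737) (.cons (nat_lit 4) (nat_lit 6) (nat_lit 0) (nat_lit 0x8770502100) (nat_lit 0xf423fb71aea2c2800000f423f00000f423fb71aea2c2804737) .nil)))))))))) (.l31 (nat_lit 0x4321098765))) (.split (nat_lit 0xa) (nat_lit 0) (.split (nat_lit 0xa) (nat_lit 1) (.split (nat_lit 0xa) (nat_lit 2) (.split (nat_lit 0xa) (nat_lit 3) (.split (nat_lit 0xa) (nat_lit 4) (.split (nat_lit 0xa) (nat_lit 5) (.split (nat_lit 0xa) (nat_lit 6) (.split (nat_lit 0xa) (nat_lit 7) (.split (nat_lit 0xa) (nat_lit 8) (.sup (nat_lit 0x10002000300060009000700000000000000000000) (nat_lit 0x10006000b0010000d)) (.non (nat_lit 0) (nat_lit 7) (nat_lit 0x150000) (nat_lit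 0x10001000100000000000000000000000000000000))) (.non (nat_lit 0) (nat_lit 8) (nat_lit 0x145400) (nat_lit 0x20001000000030004000300000000000000000000))) (.non (nat_lit 0) (nat_lit 7) (nat_lit 0x151400) (nat_lit 0x30002000100000004000300000000000000000000))) (.non (nat_lit 0) (nat_lit 7) (nat_lit 0x151400) (nat_lit 0x30002000100000003000400000000000000000000))) (.non (nat_lit 0) (nat_lit 7) (nat_lit 0x150100) (nat_lit 0x10001000100000000000000010000000000000000))) (.non (nat_lit 0) (nat_lit 7) (nat_lit 0x150140) (nat_lit 0x10001000100000000000000010001000000000000))) (.non (nat_lit 0) (nat_lit 7) (nat_lit 0x150150) (nat_lit 0x10001000100000000000000010001000100000000))) (.non (nat_lit 0) (nat_lit 7) (nat_lit 0x150154) (nat_lit 0x10001000100000000000000010001000100010000))) (.non (nat_lit 2) (nat_lit 7) (nat_lit 0x150005) (nat_lit 0x30002000100000000000000000000000000030004))))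

noncomputable def t1596_2 : Tr := (.ex (nat_lit 7) (.ex (nat_lit 8) (.pd (.cons (nat_lit 4) (nat_lit 9) (nat_lit 0) (nat_lit 0x765502100) (nat_lit 0xf423fb71aea2c280473700000f423fb71aea2c2804737) .nil) t1596_1) (.split (nat_lit 0xa) (nat_lit 0) (.split (nat_lit 0xa) (nat_lit 1) (.split (nat_lit 0xa) (nat_lit 2) (.split (nat_lit 0xa) (nat_lit 3) (.split (nat_lit 0xa) (nat_lit 4) (.split (nat_lit 0xa) (nat_lit 5) (.split (nat_lit 0xa) (nat_lit 6) (.split (nat_lit 0xa) (nat_lit 9) (.split (nat_lit 0xa) (nat_lit 7) (.sup (nat_lit 0x10001000300050007000500000000000000000000) (nat_lit 0x20007000b0010000d)) (.sup (nat_lit 0x7000f00170020001a) (nat_lit 0x30000000100050007000600000000000000000000))) (.non (nat_lit 0) (nat_lit 7) (nat_lit 0x150000) (nat_lit 0x10001000100000000000000000000000000000000))) (.non (nat_lit 0) (nat_lit 7) (nat_lit 0x151400) (nat_lit 0x30001000200000004000300000000000000000000))) (.non (nat_lit 0) (nat_lit 7) (nat_lit 0x151400) (nat_lit 0x30001000200000003000400000000000000000000)))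 (.non (nat_lit 0) (nat_lit 7) (nat_lit 0x110100) (nat_lit 0x10000000100000000000000010000000000000000))) (.non (nat_lit 0) (nat_lit 7) (nat_lit 0x110140) (nat_lit 0x10000000100000000000000010001000000000000))) (.star (nat_lit 0xa) (nat_lit 2) (nat_lit 8))) (.non (nat_lit 0) (nat_lit 7) (nat_lit 0x110154) (nat_lit 0x10000000100000000000000010001000100010000))) (.star (nat_lit 0xa) (nat_lit 0) (nat_lit 8)))) (.split (nat_lit 0xa) (nat_lit 0) (.split (nat_lit 0xa) (nat_lit 1) (.split (nat_lit 0xa) (nat_lit 2) (.split (nat_lit 0xa) (nat_lit 3) (.split (nat_lit 0xa) (nat_lit 4) (.split (nat_lit 0xa) (nat_lit 5) (.split (nat_lit 0xa) (nat_lit 6) (.split (nat_lit 0xa) (nat_lit 9) (.split (nat_lit 0xa) (nat_lit 8) (.sup (nat_lit 0x10002000300050004) (nat_lit 0x20000000100030005000400000000000000000000)) (.sup (nat_lit 0x7000f00170020001a) (nat_lit 0x30000000100050007000600000000000000000000))) (.non (nat_lit 0) (nat_lit 8) (nat_lit 0x145400) (nat_lit 0x20001000000030004000300000000000000000000))) (.non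 (nat_lit 0) (nat_lit 8) (nat_lit 0x105000) (nat_lit 0x10000000000010001000000000000000000000000))) (.non (nat_lit 0) (nat_lit 8) (nat_lit 0x105400) (nat_lit 0x10000000000010001000100000000000000000000))) (.non (nat_lit 0) (nat_lit 8) (nat_lit 0x105500) (nat_lit 0x20000000000030004000300010000000000000000))) (.non (nat_lit 0) (nat_lit 8) (nat_lit 0x105440) (nat_lit 0x20000000000030004000300000001000000000000))) (.star (nat_lit 0xa) (nat_lit 2) (nat_lit 7))) (.non (nat_lit 0) (nat_lit 8) (nat_lit 0x105404) (nat_lit 0x20000000000030004000300000000000000010000))) (.star (nat_lit 0xa) (nat_lit 0) (nat_lit 7))))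

noncomputable def t1596_3 : Tr := (.ex (nat_lit 3) (.pd (.cons (nat_lit 4) (nat_lit 7) (nat_lit 0) (nat_lit 0x8805502100) (nat_lit 0xf423fb71ae00000f423f5459100000f423fb71aea2c2804737) (.cons (nat_lit 4) (nat_lit 8) (nat_lit 0) (nat_lit 0x9065502100) (nat_lit 0xf423f00000f423fb71ae1f15600000f423fb71aea2c2804737) .nil)) (.ex (nat_lit 4) (.split (nat_lit 4) (nat_lit 3) (.pd (.cons (nat_lit 1) (nat_lit 7) (nat_lit 0) (nat_lit 0x8405532200) (nat_lit 0xf423fb71ae00000f423f54591a2c2898965927bd00000f423f) (.cons (nat_lit 1) (nat_lit 8) (nat_lit 0) (nat_lit 0x9065532200) (nat_lit 0xf423f00000f423fb71ae1f156f423fb71aea2c2800000f423f) .nil)) t1596_2) (.non (nat_lit 0) (nat_lit 7) (nat_lit 0xa0250) (nat_lit 0x1000200000000000000030004000200000000))) (.split (nat_lit 0xa) (nat_lit 0) (.split (nat_lit 0xa) (nat_lit 1) (.split (nat_lit 0xa) (nat_lit 2) (.split (nat_lit 0xa) (nat_lit 3) (.split (nat_lit 0xa) (nat_lit 5) (.split (nat_lit 0xa) (nat_lit 6) (.split (nat_lit 0xa) (nat_lit 7) (.split (nat_lit 0xa)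 (nat_lit 8) (.split (nat_lit 0xa) (nat_lit 9) (.sup (nat_lit 0x90011001f002c002400000000000000000000) (nat_lit 0x30000000000000000000000050019002c00400034)) (.non (nat_lit 0) (nat_lit 7) (nat_lit 0x150100) (nat_lit 0x10001000100000000000000010000000000000000))) (.non (nat_lit 0) (nat_lit 7) (nat_lit 0x110100) (nat_lit 0x10000000100000000000000010000000000000000))) (.non (nat_lit 0) (nat_lit 8) (nat_lit 0x105500) (nat_lit 0x20000000000030004000300010000000000000000))) (.non (nat_lit 0) (nat_lit 7) (nat_lit 0x111500) (nat_lit 0x30000000100000004000300020000000000000000))) (.non (nat_lit 0) (nat_lit 7) (nat_lit 0x111500) (nat_lit 0x30000000100000003000400020000000000000000))) (.non (nat_lit 0) (nat_lit 7) (nat_lit 0x100140) (nat_lit 0x10000000000000000000000010001000000000000))) (.non (nat_lit 0) (nat_lit 7) (nat_lit 0x100150) (nat_lit 0x10000000000000000000000010001000100000000))) (.non (nat_lit 0) (nat_lit 7) (nat_lit 0x100154) (nat_lit 0x10000000000000000000000010001000100010000))) (.non (nat_lit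 2) (nat_lit 7) (nat_lit 0x110105) (nat_lit 0x30000000100000000000000020000000000030004))))) (.split (nat_lit 0xa) (nat_lit 0) (.split (nat_lit 0xa) (nat_lit 1) (.split (nat_lit 0xa) (nat_lit 2) (.split (nat_lit 0xa) (nat_lit 4) (.split (nat_lit 0xa) (nat_lit 5) (.split (nat_lit 0xa) (nat_lit 6) (.split (nat_lit 0xa) (nat_lit 7) (.split (nat_lit 0xa) (nat_lit 8) (.split (nat_lit 0xa) (nat_lit 9) (.unj (nat_lit 0x100055) (nat_lit 0x10000000000000000000000000002000300040003) (nat_lit 0x55400) (nat_lit 0x1000200030004000300000000000000000000)) (.non (nat_lit 0) (nat_lit 7) (nat_lit 0x150140) (nat_lit 0x10001000100000000000000010001000000000000))) (.non (nat_lit 0) (nat_lit 7) (nat_lit 0x110140) (nat_lit 0x10000000100000000000000010001000000000000))) (.non (nat_lit 0) (nat_lit 8) (nat_lit 0x105440) (nat_lit 0x20000000000030004000300000001000000000000))) (.non (nat_lit 0) (nat_lit 7) (nat_lit 0x101540) (nat_lit 0x30000000000000004000300010002000000000000))) (.non (nat_lit 0) (nat_lit 7) (nat_lit 0x101540)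 (nat_lit 0x30000000000000003000400010002000000000000))) (.non (nat_lit 0) (nat_lit 7) (nat_lit 0x100140) (nat_lit 0x10000000000000000000000010001000000000000))) (.non (nat_lit 0) (nat_lit 7) (nat_lit 0x100050) (nat_lit 0x10000000000000000000000000001000100000000))) (.non (nat_lit 0) (nat_lit 7) (nat_lit 0x100054) (nat_lit 0x10000000000000000000000000001000100010000))) (.non (nat_lit 2) (nat_lit 7) (nat_lit 0x100145) (nat_lit 0x30000000000000000000000010002000000030004))))

noncomputable def t1596_4 : Tr := (.ex (nat_lit 1) (.ex (nat_lit 2) (.split (nat_lit 8) (nat_lit 4) (.split (nat_lit 9) (nat_lit 8) (.pd (.cons (nat_lit 3) (nat_lit 7) (nat_lit 0) (nat_lit 0x8405540100) (nat_lit 0xf423fb71ae00000f423f54591a2c2800000f423fb71ae1f156) (.cons (nat_lit 3) (nat_lit 8) (nat_lit 0) (nat_lit 0x9065540100) (nat_lit 0xf423f00000f423fb71ae1f156f423f00000f423fb71ae1f156) .nil)) t1596_3) (.sup (nat_lit 0x100040007000a0008) (nat_lit 0x300040007000a000800000000000000000000))) (.non (nat_lit 0) (nat_lit 7) (nat_lit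 0xa0150) (nat_lit 0x1000200000000000000030002000100000000))) (.split (nat_lit 0xa) (nat_lit 1) (.split (nat_lit 0xa) (nat_lit 3) (.split (nat_lit 0xa) (nat_lit 4) (.split (nat_lit 0xa) (nat_lit 5) (.split (nat_lit 0xa) (nat_lit 6) (.split (nat_lit 0xa) (nat_lit 7) (.split (nat_lit 0xa) (nat_lit 8) (.split (nat_lit 0xa) (nat_lit 9) (.split (nat_lit 0xa) (nat_lit 0) (.unj (nat_lit 0x100055) (nat_lit 0x10000000000000000000000000001000200020002) (nat_lit 0x55400) (nat_lit 0x1000200030004000300000000000000000000)) (.unj (nat_lit 0x100015) (nat_lit 0x10000000000000000000000000000000100010001) (nat_lit 0x15500) (nat_lit 0x200030004000300010000000000000000))) (.non (nat_lit 0) (nat_lit 7) (nat_lit 0x150150) (nat_lit 0x10001000100000000000000010001000100000000))) (.star (nat_lit 0xa) (nat_lit 2) (nat_lit 8))) (.star (nat_lit 0xa) (nat_lit 2) (nat_lit 7))) (.non (nat_lit 0) (nat_lit 7) (nat_lit 0x101450) (nat_lit 0x30000000000000004000300000001000200000000))) (.non (nat_lit 0) (nat_lit 7) (nat_lit 0x101450)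 (nat_lit 0x30000000000000003000400000001000200000000))) (.non (nat_lit 0) (nat_lit 7) (nat_lit 0x100150) (nat_lit 0x10000000000000000000000010001000100000000))) (.non (nat_lit 0) (nat_lit 7) (nat_lit 0x100050) (nat_lit 0x10000000000000000000000000001000100000000))) (.non (nat_lit 0) (nat_lit 7) (nat_lit 0x100014) (nat_lit 0x10000000000000000000000000000000100010000)))) (.split (nat_lit 0xa) (nat_lit 0) (.split (nat_lit 0xa) (nat_lit 2) (.split (nat_lit 0xa) (nat_lit 3) (.split (nat_lit 0xa) (nat_lit 4) (.split (nat_lit 0xa) (nat_lit 5) (.split (nat_lit 0xa) (nat_lit 6) (.split (nat_lit 0xa) (nat_lit 7) (.split (nat_lit 0xa) (nat_lit 8) (.split (nat_lit 0xa) (nat_lit 9) (.unj (nat_lit 0x100015) (nat_lit 0x10000000000000000000000000000000100020002) (nat_lit 0x15500) (nat_lit 0x200030004000300010000000000000000)) (.non (nat_lit 0) (nat_lit 7) (nat_lit 0x150154) (nat_lit 0x10001000100000000000000010001000100010000))) (.non (nat_lit 0) (nat_lit 7) (nat_lit 0x110154) (nat_lit 0x10000000100000000000000010001000100010000)))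 (.non (nat_lit 0) (nat_lit 8) (nat_lit 0x105404) (nat_lit 0x20000000000030004000300000000000000010000))) (.non (nat_lit 0) (nat_lit 7) (nat_lit 0x101414) (nat_lit 0x30000000000000004000300000000000100020000))) (.non (nat_lit 0) (nat_lit 7) (nat_lit 0x101414) (nat_lit 0x30000000000000003000400000000000100020000))) (.non (nat_lit 0) (nat_lit 7) (nat_lit 0x100154) (nat_lit 0x10000000000000000000000010001000100010000))) (.non (nat_lit 0) (nat_lit 7) (nat_lit 0x100054) (nat_lit 0x10000000000000000000000000001000100010000))) (.non (nat_lit 0) (nat_lit 7) (nat_lit 0x100014) (nat_lit 0x10000000000000000000000000000000100010000))) (.non (nat_lit 2) (nat_lit 7) (nat_lit 0x100005) (nat_lit 0x10000000000000000000000000000000000010001))))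

noncomputable def t1596_5 : Tr := (.ex (nat_lit 8) (.pd (.cons (nat_lit 0) (nat_lit 5) (nat_lit 0) (nat_lit 0x3987032110) (nat_lit 0x98965a2c28b71aef423f00000f423f5572c45c091e82a00000) (.cons (nat_lit 0) (nat_lit 6) (nat_lit 0) (nat_lit 0x3980532110) (nat_lit 0xa2c28b71aef423f00000f423ff423f5b8d45160d3d07c00000) (.cons (nat_lit 0) (nat_lit 9) (nat_lit 0) (nat_lit 0x765532110) (nat_lit 0xf423fb71aea2c2804737f423fb71aea2c289896500000) (.cons (nat_lit 1) (nat_lit 5) (nat_lit 0) (nat_lit 0x3987032200) (nat_lit 0x98965a2c28b71aef423f00000f423f5572c45c0900000f423f) (.cons (nat_lit 1) (nat_lit 6) (nat_lit 0) (nat_lit 0x3980532200) (nat_lit 0xa2c28b71aef423f00000f423ff423f5b8d45160d00000f423f) (.cons (nat_lit 1) (nat_lit 9) (nat_lit 0) (nat_lit 0x765532200) (nat_lit 0xf423fb71aea2c2804737f423fb71aea2c2800000f423f) (.cons (nat_lit 2) (nat_lit 5) (nat_lit 0) (nat_lit 0x3987033000) (nat_lit 0x98965a2c28b71aef423f00000f423f5572c00000f423f54591) (.cons (nat_lit 2) (nat_lit 6) (nat_lit 0) (nat_lit 0x3980533000)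 (nat_lit 0xa2c28b71aef423f00000f423ff423f5b8d400000f423f54591) (.cons (nat_lit 2) (nat_lit 9) (nat_lit 0) (nat_lit 0x765533000) (nat_lit 0xf423fb71aea2c2804737f423fb71ae00000f423f54591) (.cons (nat_lit 3) (nat_lit 5) (nat_lit 0) (nat_lit 0x8766040100) (nat_lit 0xf423fb71aea2c289896500000f423f00000f423fb71ae1f156) (.cons (nat_lit 3) (nat_lit 6) (nat_lit 0) (nat_lit 0x8770540100) (nat_lit 0xf423fb71aea2c2800000f423ff423f00000f423fb71ae1f156) (.cons (nat_lit 3) (nat_lit 9) (nat_lit 0) (nat_lit 0x765540100) (nat_lit 0xf423fb71aea2c2804737f423f00000f423fb71ae1f156) (.cons (nat_lit 4) (nat_lit 9) (nat_lit 0) (nat_lit 0x765502100) (nat_lit 0xf423fb71aea2c280473700000f423fb71aea2c2804737) .nil))))))))))))) (.l31 (nat_lit 0x9876543210))) (.split (nat_lit 0xa) (nat_lit 0) (.split (nat_lit 0xa) (nat_lit 1) (.split (nat_lit 0xa) (nat_lit 2) (.split (nat_lit 0xa) (nat_lit 3) (.split (nat_lit 0xa) (nat_lit 4) (.split (nat_lit 0xa) (nat_lit 5) (.split (nat_lit 0xa) (nat_lit 6) (.split (nat_lit 0xa) (nat_lit 9)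 (.split (nat_lit 0xa) (nat_lit 7) (.unj (nat_lit 0x155) (nat_lit 0x10002000300040003) (nat_lit 0x115400) (nat_lit 0x10000000200030004000300000000000000000000)) (.unj (nat_lit 0x114000) (nat_lit 0x10000000100010000000000000000000000000000) (nat_lit 0x155) (nat_lit 0x10002000300040003))) (.non (nat_lit 0) (nat_lit 7) (nat_lit 0x150000) (nat_lit 0x10001000100000000000000000000000000000000))) (.non (nat_lit 0) (nat_lit 7) (nat_lit 0x151400) (nat_lit 0x30001000200000004000300000000000000000000))) (.non (nat_lit 0) (nat_lit 7) (nat_lit 0x151400) (nat_lit 0x30001000200000003000400000000000000000000))) (.non (nat_lit 0) (nat_lit 7) (nat_lit 0x150140) (nat_lit 0x10001000100000000000000010001000000000000))) (.non (nat_lit 0) (nat_lit 7) (nat_lit 0x150040) (nat_lit 0x10001000100000000000000000001000000000000))) (.star (nat_lit 0xa) (nat_lit 2) (nat_lit 8))) (.non (nat_lit 0) (nat_lit 7) (nat_lit 0x150054) (nat_lit 0x10001000100000000000000000001000100010000))) (.star (nat_lit 0xa) (nat_lit 0) (nat_lit 8))))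

noncomputable def t1596_6 : Tr := (.ex (nat_lit 1) (.pd (.cons (nat_lit 3) (nat_lit 7) (nat_lit 0) (nat_lit 0x8805540100) (nat_lit 0xf423fb71ae00000f423f54591f423f00000f423fb71ae1f156) (.cons (nat_lit 3) (nat_lit 8) (nat_lit 0) (nat_lit 0x9065540100) (nat_lit 0xf423f00000f423fb71ae1f156f423f00000f423fb71ae1f156) .nil)) (.ex (nat_lit 7) t1596_5 (.split (nat_lit 0xa) (nat_lit 0) (.split (nat_lit 0xa) (nat_lit 1) (.split (nat_lit 0xa) (nat_lit 2) (.split (nat_lit 0xa) (nat_lit 3) (.split (nat_lit 0xa) (nat_lit 4) (.split (nat_lit 0xa) (nat_lit 5) (.split (nat_lit 0xa) (nat_lit 6) (.split (nat_lit 0xa) (nat_lit 9) (.split (nat_lit 0xa) (nat_lit 8) (.unj (nat_lit 0x155) (nat_lit 0x10002000300040003) (nat_lit 0x115400) (nat_lit 0x10000000100020002000200000000000000000000)) (.unj (nat_lit 0x114000) (nat_lit 0x10000000100010000000000000000000000000000) (nat_lit 0x155) (nat_lit 0x10002000300040003))) (.non (nat_lit 0) (nat_lit 7) (nat_lit 0x150150) (nat_lit 0x10002000100000000000000010002000100000000)))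 (.non (nat_lit 0) (nat_lit 8) (nat_lit 0x105000) (nat_lit 0x10000000000010001000000000000000000000000))) (.non (nat_lit 0) (nat_lit 8) (nat_lit 0x105400) (nat_lit 0x10000000000010001000100000000000000000000))) (.non (nat_lit 0) (nat_lit 7) (nat_lit 0x150154) (nat_lit 0x10002000100000000000000020003000200010000))) (.non (nat_lit 0) (nat_lit 7) (nat_lit 0x140150) (nat_lit 0x10001000000000000000000010002000100000000))) (.star (nat_lit 0xa) (nat_lit 2) (nat_lit 7))) (.non (nat_lit 0) (nat_lit 8) (nat_lit 0x105404) (nat_lit 0x20000000000030004000300000000000000010000))) (.star (nat_lit 0xa) (nat_lit 0) (nat_lit 7))))) (.split (nat_lit 0xa) (nat_lit 0) (.split (nat_lit 0xa) (nat_lit 2) (.split (nat_lit 0xa) (nat_lit 3) (.split (nat_lit 0xa) (nat_lit 4) (.split (nat_lit 0xa) (nat_lit 5) (.split (nat_lit 0xa) (nat_lit 6) (.split (nat_lit 0xa) (nat_lit 7) (.split (nat_lit 0xa) (nat_lit 8) (.split (nat_lit 0xa) (nat_lit 9) (.unj (nat_lit 0x100015) (nat_lit 0x10000000000000000000000000000000100020002) (nat_lit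 0x55400) (nat_lit 0x1000200030004000300000000000000000000)) (.non (nat_lit 0) (nat_lit 7) (nat_lit 0x150150) (nat_lit 0x10002000100000000000000010002000100000000))) (.non (nat_lit 0) (nat_lit 7) (nat_lit 0x150054) (nat_lit 0x10001000100000000000000000001000100010000))) (.non (nat_lit 0) (nat_lit 8) (nat_lit 0x105404) (nat_lit 0x20000000000030004000300000000000000010000))) (.non (nat_lit 0) (nat_lit 7) (nat_lit 0x101414) (nat_lit 0x30000000000000004000300000000000100020000))) (.non (nat_lit 0) (nat_lit 7) (nat_lit 0x101414) (nat_lit 0x30000000000000003000400000000000100020000))) (.non (nat_lit 0) (nat_lit 7) (nat_lit 0x100154) (nat_lit 0x10000000000000000000000010001000100010000))) (.non (nat_lit 0) (nat_lit 7) (nat_lit 0x140150) (nat_lit 0x10001000000000000000000010002000100000000))) (.non (nat_lit 0) (nat_lit 7) (nat_lit 0x100014) (nat_lit 0x10000000000000000000000000000000100010000))) (.non (nat_lit 2) (nat_lit 7) (nat_lit 0x100005) (nat_lit 0x10000000000000000000000000000000000010001))))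

noncomputable def t1596_7 : Tr := (.st (nat_lit 2) (nat_lit 0) (nat_lit 7) (nat_lit 0x40154) (nat_lit 0x1000000000000000000010002000200010000) (nat_lit 1) (nat_lit 1) (.st (nat_lit 3) (nat_lit 0) (nat_lit 7) (nat_lit 0x40150) (nat_lit 0x1000000000000000000010002000100000000) (nat_lit 1) (nat_lit 1) (.st (nat_lit 4) (nat_lit 0) (nat_lit 7) (nat_lit 0x50154) (nat_lit 0x2000100000000000000020003000200010000) (nat_lit 1) (nat_lit 1) (.st (nat_lit 9) (nat_lit 0) (nat_lit 7) (nat_lit 0x50150) (nat_lit 0x2000100000000000000010002000100000000) (nat_lit 1) (nat_lit 1) (.ex (nat_lit 0) (.split (nat_lit 4) (nat_lit 3) (.split (nat_lit 9) (nat_lit 3) (.split (nat_lit 9) (nat_lit 8) (.pd (.cons (nat_lit 1) (nat_lit 7) (nat_lit 0) (nat_lit 0x3905532200) (nat_lit 0xb71aef423f00000f423f54591f423f65b9761a7900000f423f) (.cons (nat_lit 1) (nat_lit 8) (nat_lit 0) (nat_lit 0x3065532200) (nat_lit 0xf423f00000f423fb71ae1f156f423f7a11d7a11b00000f423f) .nil)) t1596_6) (.non (nat_lit 0) (nat_lit 7) (nat_lit 0x60150) (nat_lit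 0x2000100000000000000010002000100000000))) (.non (nat_lit 0) (nat_lit 7) (nat_lit 0x80150) (nat_lit 0x1000000000000000000010002000100000000))) (.non (nat_lit 0) (nat_lit 7) (nat_lit 0x40250) (nat_lit 0x1000000000000000000010002000100000000))) (.split (nat_lit 0xa) (nat_lit 1) (.split (nat_lit 0xa) (nat_lit 2) (.split (nat_lit 0xa) (nat_lit 3) (.split (nat_lit 0xa) (nat_lit 4) (.split (nat_lit 0xa) (nat_lit 5) (.split (nat_lit 0xa) (nat_lit 6) (.split (nat_lit 0xa) (nat_lit 7) (.split (nat_lit 0xa) (nat_lit 8) (.split (nat_lit 0xa) (nat_lit 9) (.unj (nat_lit 0x100015) (nat_lit 0x10000000000000000000000000000000100020002) (nat_lit 0x55400) (nat_lit 0x1000200030004000300000000000000000000)) (.non (nat_lit 0) (nat_lit 7) (nat_lit 0x150150) (nat_lit 0x10002000100000000000000010002000100000000))) (.star (nat_lit 0xa) (nat_lit 0) (nat_lit 8))) (.star (nat_lit 0xa) (nat_lit 0) (nat_lit 7))) (.non (nat_lit 0) (nat_lit 8) (nat_lit 0x105400) (nat_lit 0x10000000000010002000200000000000000000000))) (.non (nat_lit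 0) (nat_lit 8) (nat_lit 0x105400) (nat_lit 0x10000000000010002000200000000000000000000))) (.non (nat_lit 0) (nat_lit 7) (nat_lit 0x150154) (nat_lit 0x10002000100000000000000020003000200010000))) (.non (nat_lit 0) (nat_lit 7) (nat_lit 0x140150) (nat_lit 0x10001000000000000000000010002000100000000))) (.non (nat_lit 0) (nat_lit 7) (nat_lit 0x140154) (nat_lit 0x10001000000000000000000010002000200010000))) (.non (nat_lit 2) (nat_lit 7) (nat_lit 0x100005) (nat_lit 0x10000000000000000000000000000000000010001))))))))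

noncomputable def t1596_8 : Tr := (.ex (nat_lit 7) (.split (nat_lit 9) (nat_lit 1) (.split (nat_lit 9) (nat_lit 8) (.pd (.cons (nat_lit 0) (nat_lit 5) (nat_lit 0) (nat_lit 0x1987032110) (nat_lit 0x98965a2c28b71aef423f00000f423fb71aea2c2836ee300000) (.cons (nat_lit 0) (nat_lit 6) (nat_lit 0) (nat_lit 0x1980532110) (nat_lit 0xa2c28b71aef423f00000f423ff423fb71aea2c283d08b00000) (.cons (nat_lit 0) (nat_lit 9) (nat_lit 0) (nat_lit 0x765532110) (nat_lit 0xf423fb71aea2c2804737f423fb71aea2c289896500000) (.cons (nat_lit 1) (nat_lit 5) (nat_lit 0) (nat_lit 0x8766032200) (nat_lit 0xf423fb71aea2c289896500000f423fb71aea2c2800000f423f) (.cons (nat_lit 1) (nat_lit 6) (nat_lit 0) (nat_lit 0x8770532200) (nat_lit 0xf423fb71aea2c2800000f423ff423fb71aea2c2800000f423f) (.cons (nat_lit 1) (nat_lit 9) (nat_lit 0) (nat_lit 0x765532200) (nat_lit 0xf423fb71aea2c2804737f423fb71aea2c2800000f423f) (.cons (nat_lit 2) (nat_lit 9) (nat_lit 0) (nat_lit 0x765533000) (nat_lit 0xf423fb71aea2c2804737f423fb71ae00000f423f54591) (.cons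 (nat_lit 3) (nat_lit 9) (nat_lit 0) (nat_lit 0x765540100) (nat_lit 0xf423fb71aea2c2804737f423f00000f423fb71ae1f156) (.cons (nat_lit 4) (nat_lit 9) (nat_lit 0) (nat_lit 0x765502100) (nat_lit 0xf423fb71aea2c280473700000f423fb71aea2c2804737) .nil))))))))) (.leaf (.cons (nat_lit 0x54005) (nat_lit 0x3000200010000000000000000000000040003) (.cons (nat_lit 0x40015) (nat_lit 0x1000000000000000000000000000100020002) .nil)) (.cons (nat_lit 0x1110011110) (nat_lit 0x1000001) (nat_lit 5) (nat_lit 0x4560001230) (.cons (nat_lit 0x1100011110) (nat_lit 0x10000001) (nat_lit 4) (nat_lit 0x4500001230) .nil)))) (.non (nat_lit 2) (nat_lit 7) (nat_lit 0x50005) (nat_lit 0x1000100000000000000000000000000010001))) (.non (nat_lit 0) (nat_lit 7) (nat_lit 0xa0054) (nat_lit 0x2000100000000000000000001000200030000))) (.split (nat_lit 0xa) (nat_lit 0) (.split (nat_lit 0xa) (nat_lit 1) (.split (nat_lit 0xa) (nat_lit 2) (.split (nat_lit 0xa) (nat_lit 3) (.split (nat_lit 0xa) (nat_lit 4) (.split (nat_lit 0xa) (nat_lit 5) (.split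 (nat_lit 0xa) (nat_lit 6) (.split (nat_lit 0xa) (nat_lit 8) (.split (nat_lit 0xa) (nat_lit 9) (.unj (nat_lit 0x155) (nat_lit 0x10002000300040003) (nat_lit 0x115400) (nat_lit 0x10000000100020002000200000000000000000000)) (.non (nat_lit 0) (nat_lit 8) (nat_lit 0x145400) (nat_lit 0x20001000000030004000300000000000000000000))) (.non (nat_lit 2) (nat_lit 7) (nat_lit 0x150005) (nat_lit 0x10003000200000000000000000000000000040003))) (.non (nat_lit 0) (nat_lit 8) (nat_lit 0x105000) (nat_lit 0x10000000000010001000000000000000000000000))) (.non (nat_lit 0) (nat_lit 8) (nat_lit 0x105400) (nat_lit 0x10000000000010001000100000000000000000000))) (.non (nat_lit 0) (nat_lit 8) (nat_lit 0x105500) (nat_lit 0x20000000000030004000300010000000000000000))) (.non (nat_lit 0) (nat_lit 8) (nat_lit 0x105440) (nat_lit 0x20000000000030004000300000001000000000000))) (.star (nat_lit 0xa) (nat_lit 2) (nat_lit 7))) (.non (nat_lit 0) (nat_lit 8) (nat_lit 0x105404) (nat_lit 0x20000000000030004000300000000000000010000))) (.star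 (nat_lit 0xa) (nat_lit 0) (nat_lit 7))))

noncomputable def t1596_9 : Tr := (.ex (nat_lit 7) (.split (nat_lit 9) (nat_lit 1) (.split (nat_lit 9) (nat_lit 8) (.pd (.cons (nat_lit 0) (nat_lit 5) (nat_lit 0) (nat_lit 0x1987032110) (nat_lit 0x98965a2c28b71aef423f00000f423f7a11e7a11c1869800000) (.cons (nat_lit 0) (nat_lit 6) (nat_lit 0) (nat_lit 0x1980532110) (nat_lit 0xa2c28b71aef423f00000f423ff423f7a11e7a11c1e84000000) (.cons (nat_lit 0) (nat_lit 9) (nat_lit 0) (nat_lit 0x765532110) (nat_lit 0xf423fb71aea2c2804737f423f7a11e7a11c7a11a00000) (.cons (nat_lit 1) (nat_lit 5) (nat_lit 0) (nat_lit 0x8766032200) (nat_lit 0xf423fb71aea2c289896500000f423f7a11e7a11c00000f423f) (.cons (nat_lit 1) (nat_lit 6) (nat_lit 0) (nat_lit 0x8770532200) (nat_lit 0xf423fb71aea2c2800000f423ff423f7a11e7a11c00000f423f) (.cons (nat_lit 1) (nat_lit 9) (nat_lit 0) (nat_lit 0x765532200) (nat_lit 0xf423fb71aea2c2804737f423f7a11e7a11c00000f423f) (.cons (nat_lit 2) (nat_lit 9) (nat_lit 0) (nat_lit 0x765533000) (nat_lit 0xf423fb71aea2c2804737f423f7a11e00000f423f54591)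 (.cons (nat_lit 3) (nat_lit 9) (nat_lit 0) (nat_lit 0x765540100) (nat_lit 0xf423fb71aea2c2804737f423f00000f423fb71ae1f156) (.cons (nat_lit 4) (nat_lit 9) (nat_lit 0) (nat_lit 0x765502100) (nat_lit 0xf423fb71aea2c280473700000f423fb71aea2c2804737) .nil))))))))) (.leaf (.cons (nat_lit 0x54005) (nat_lit 0x3000200010000000000000000000000040003) (.cons (nat_lit 0x40015) (nat_lit 0x1000000000000000000000000000100020002) .nil)) (.cons (nat_lit 0x1100000011) (nat_lit 0x10000100) (nat_lit 0x10) (nat_lit 0x2300000010) .nil))) (.non (nat_lit 0) (nat_lit 7) (nat_lit 0x60254) (nat_lit 0x2000100000000000000010002000200020000))) (.non (nat_lit 0) (nat_lit 7) (nat_lit 0xa0054) (nat_lit 0x2000100000000000000000001000200030000))) (.split (nat_lit 0xa) (nat_lit 0) (.split (nat_lit 0xa) (nat_lit 1) (.split (nat_lit 0xa) (nat_lit 2) (.split (nat_lit 0xa) (nat_lit 3) (.split (nat_lit 0xa) (nat_lit 4) (.split (nat_lit 0xa) (nat_lit 5) (.split (nat_lit 0xa) (nat_lit 6) (.split (nat_lit 0xa) (nat_lit 8) (.split (nat_lit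 0xa) (nat_lit 9) (.unj (nat_lit 0x155) (nat_lit 0x10001000100010001) (nat_lit 0x115400) (nat_lit 0x10000000100020002000200000000000000000000)) (.non (nat_lit 0) (nat_lit 7) (nat_lit 0x150254) (nat_lit 0x10002000100000000000000010002000200020000))) (.non (nat_lit 2) (nat_lit 7) (nat_lit 0x150005) (nat_lit 0x10003000200000000000000000000000000040003))) (.non (nat_lit 0) (nat_lit 8) (nat_lit 0x105000) (nat_lit 0x10000000000010001000000000000000000000000))) (.non (nat_lit 0) (nat_lit 8) (nat_lit 0x105400) (nat_lit 0x10000000000010001000100000000000000000000))) (.non (nat_lit 0) (nat_lit 7) (nat_lit 0x200254) (nat_lit 0x10000000000000000000000020003000200010000))) (.non (nat_lit 0) (nat_lit 7) (nat_lit 0x100250) (nat_lit 0x10000000000000000000000010002000100000000))) (.star (nat_lit 0xa) (nat_lit 2) (nat_lit 7))) (.non (nat_lit 0) (nat_lit 7) (nat_lit 0x140254) (nat_lit 0x10001000000000000000000010002000200020000))) (.star (nat_lit 0xa) (nat_lit 0) (nat_lit 7))))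

noncomputable def t1596_10 : Tr := (.ex (nat_lit 7) (.split (nat_lit 9) (nat_lit 1) (.split (nat_lit 9) (nat_lit 8) (.pd (.cons (nat_lit 0) (nat_lit 5) (nat_lit 0) (nat_lit 0x41987032110) (nat_lit 0xf423f98965a2c28b71aef423f00000b71aea2c289896530d3b00000) (.cons (nat_lit 0) (nat_lit 6) (nat_lit 0) (nat_lit 0x41980532110) (nat_lit 0xf423fa2c28b71aef423f00000f423fb71aea2c289896536ee300000) (.cons (nat_lit 0) (nat_lit 9) (nat_lit 0) (nat_lit 0x40765532110) (nat_lit 0xf423f00000f423fb71aea2c2804737b71aea2c2898965927bd00000) (.cons (nat_lit 1) (nat_lit 5) (nat_lit 0) (nat_lit 0x48766032200) (nat_lit 0xf423ff423fb71aea2c289896500000b71aea2c289896500000f423f) (.cons (nat_lit 1) (nat_lit 6) (nat_lit 0) (nat_lit 0x48770532200) (nat_lit 0xf423ff423fb71aea2c2800000f423fb71aea2c289896500000f423f) (.cons (nat_lit 1) (nat_lit 9) (nat_lit 0) (nat_lit 0x40765532200) (nat_lit 0xf423f00000f423fb71aea2c2804737b71aea2c289896500000f423f) (.cons (nat_lit 2) (nat_lit 9) (nat_lit 0) (nat_lit 0x40765533000) (nat_lit 0xf423f00000f423fb71aea2c2804737b71aea2c2800000f423f54591)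 (.cons (nat_lit 3) (nat_lit 9) (nat_lit 0) (nat_lit 0x40765540100) (nat_lit 0xf423f00000f423fb71aea2c2804737b71ae00000f423fb71ae1f156) (.cons (nat_lit 4) (nat_lit 9) (nat_lit 0) (nat_lit 0xa0765502100) (nat_lit 0xf423f00000f423fb71aea2c280473700000f423fb71aea2c2804737) .nil))))))))) (.leaf (.cons (nat_lit 0x54005) (nat_lit 0x3000200010000000000000000000000040003) (.cons (nat_lit 0x40015) (nat_lit 0x1000000000000000000000000000100020002) .nil)) (.cons (nat_lit 0x1100000011) (nat_lit 0x10000100) (nat_lit 0x10) (nat_lit 0x2300000010) .nil))) (.non (nat_lit 2) (nat_lit 7) (nat_lit 0x50005) (nat_lit 0x1000100000000000000000000000000010001))) (.non (nat_lit 0) (nat_lit 7) (nat_lit 0xa0054) (nat_lit 0x2000100000000000000000001000200030000))) (.split (nat_lit 0xb) (nat_lit 0) (.split (nat_lit 0xb) (nat_lit 1) (.split (nat_lit 0xb) (nat_lit 2) (.split (nat_lit 0xb) (nat_lit 3) (.split (nat_lit 0xb) (nat_lit 4) (.split (nat_lit 0xb) (nat_lit 5) (.split (nat_lit 0xb) (nat_lit 6) (.split (nat_lit 0xb) (nat_lit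 8) (.split (nat_lit 0xb) (nat_lit 9) (.split (nat_lit 0xb) (nat_lit 0xa) (.unj (nat_lit 0x155) (nat_lit 0x10002000300040003) (nat_lit 0x415400) (nat_lit 0x100000000000100020002000200000000000000000000)) (.non (nat_lit 0) (nat_lit 8) (nat_lit 0x505400) (nat_lit 0x200010000000000030004000300000000000000000000))) (.non (nat_lit 0) (nat_lit 8) (nat_lit 0x445400) (nat_lit 0x200000001000000030004000300000000000000000000))) (.non (nat_lit 2) (nat_lit 7) (nat_lit 0x450005) (nat_lit 0x100000003000200000000000000000000000000040003))) (.non (nat_lit 0) (nat_lit 8) (nat_lit 0x405000) (nat_lit 0x100000000000000010001000000000000000000000000))) (.non (nat_lit 0) (nat_lit 8) (nat_lit 0x405400) (nat_lit 0x100000000000000010001000100000000000000000000))) (.non (nat_lit 0) (nat_lit 8) (nat_lit 0x405500) (nat_lit 0x200000000000000030004000300010000000000000000))) (.non (nat_lit 0) (nat_lit 8) (nat_lit 0x405440) (nat_lit 0x200000000000000030004000300000001000000000000))) (.star (nat_lit 0xb) (nat_lit 2) (nat_lit 7)))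 (.non (nat_lit 0) (nat_lit 8) (nat_lit 0x405404) (nat_lit 0x200000000000000030004000300000000000000010000))) (.star (nat_lit 0xb) (nat_lit 0) (nat_lit 7))))

noncomputable def t1596_11 : Tr := (.ex (nat_lit 7) (.split (nat_lit 9) (nat_lit 1) (.split (nat_lit 9) (nat_lit 8) (.pd (.cons (nat_lit 0) (nat_lit 5) (nat_lit 0) (nat_lit 0x41987032110) (nat_lit 0xf423f98965a2c28b71aef423f000007a11e7a11c7a11a1869600000) (.cons (nat_lit 0) (nat_lit 6) (nat_lit 0) (nat_lit 0x41980532110) (nat_lit 0xf423fa2c28b71aef423f00000f423f7a11e7a11c7a11a1e83e00000) (.cons (nat_lit 0) (nat_lit 9) (nat_lit 0) (nat_lit 0x40765532110) (nat_lit 0xf423f00000f423fb71aea2c28047377a11e7a11c7a11a7a11800000) (.cons (nat_lit 1) (nat_lit 5) (nat_lit 0) (nat_lit 0x48766032200) (nat_lit 0xf423ff423fb71aea2c2898965000007a11e7a11c7a11a00000f423f) (.cons (nat_lit 1) (nat_lit 6) (nat_lit 0) (nat_lit 0x48770532200) (nat_lit 0xf423ff423fb71aea2c2800000f423f7a11e7a11c7a11a00000f423f) (.cons (nat_lit 1) (nat_lit 9) (nat_lit 0) (nat_lit 0x40765532200)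 (nat_lit 0xf423f00000f423fb71aea2c28047377a11e7a11c7a11a00000f423f) (.cons (nat_lit 2) (nat_lit 9) (nat_lit 0) (nat_lit 0x40765533000) (nat_lit 0xf423f00000f423fb71aea2c28047377a11e7a11c00000f423f54591) (.cons (nat_lit 3) (nat_lit 9) (nat_lit 0) (nat_lit 0x40765540100) (nat_lit 0xf423f00000f423fb71aea2c28047377a11e00000f423fb71ae1f156) (.cons (nat_lit 4) (nat_lit 9) (nat_lit 0) (nat_lit 0xa0765502100) (nat_lit 0xf423f00000f423fb71aea2c280473700000f423fb71aea2c2804737) .nil))))))))) (.leaf (.cons (nat_lit 0x54005) (nat_lit 0x3000200010000000000000000000000040003) (.cons (nat_lit 0x40015) (nat_lit 0x1000000000000000000000000000100020002) .nil)) (.cons (nat_lit 0x1100000011) (nat_lit 0x10000100) (nat_lit 0x10) (nat_lit 0x2300000010) .nil))) (.non (nat_lit 0) (nat_lit 7) (nat_lit 0x260154) (nat_lit 0x10002000100000000000000020002000200020000))) (.non (nat_lit 0) (nat_lit 7) (nat_lit 0xa0054) (nat_lit 0x2000100000000000000000001000200030000))) (.split (nat_lit 0xb) (nat_lit 0) (.split (nat_lit 0xb)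 (nat_lit 1) (.split (nat_lit 0xb) (nat_lit 2) (.split (nat_lit 0xb) (nat_lit 3) (.split (nat_lit 0xb) (nat_lit 4) (.split (nat_lit 0xb) (nat_lit 5) (.split (nat_lit 0xb) (nat_lit 6) (.split (nat_lit 0xb) (nat_lit 8) (.split (nat_lit 0xb) (nat_lit 9) (.split (nat_lit 0xb) (nat_lit 0xa) (.unj (nat_lit 0x155) (nat_lit 0x10002000300040003) (nat_lit 0x415400) (nat_lit 0x100000000000100020002000200000000000000000000)) (.non (nat_lit 0) (nat_lit 7) (nat_lit 0xa00150) (nat_lit 0x100020000000000000000000000030002000100000000))) (.non (nat_lit 0) (nat_lit 7) (nat_lit 0x650154) (nat_lit 0x100010002000100000000000000020002000200020000))) (.non (nat_lit 2) (nat_lit 7) (nat_lit 0x450005) (nat_lit 0x100000003000200000000000000000000000000040003))) (.non (nat_lit 0) (nat_lit 8) (nat_lit 0x405000) (nat_lit 0x100000000000000010001000000000000000000000000))) (.non (nat_lit 0) (nat_lit 8) (nat_lit 0x405400) (nat_lit 0x100000000000000010001000100000000000000000000))) (.non (nat_lit 0) (nat_lit 7) (nat_lit 0x600140)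 (nat_lit 0x100010000000000000000000000020001000000000000))) (.non (nat_lit 0) (nat_lit 7) (nat_lit 0x600150) (nat_lit 0x100010000000000000000000000020002000100000000))) (.star (nat_lit 0xb) (nat_lit 2) (nat_lit 7))) (.non (nat_lit 0) (nat_lit 7) (nat_lit 0x640154) (nat_lit 0x100010001000000000000000000020002000200020000))) (.star (nat_lit 0xb) (nat_lit 0) (nat_lit 7))))

noncomputable def t1596_12 : Tr := (.ex (nat_lit 7) (.split (nat_lit 9) (nat_lit 1) (.split (nat_lit 9) (nat_lit 8) (.pd (.cons (nat_lit 0) (nat_lit 5) (nat_lit 0) (nat_lit 0x441987032110) (nat_lit 0xf423ff423f98965a2c28b71aef423f000007a11d7a11b7a1191869500000) (.cons (nat_lit 0) (nat_lit 6) (nat_lit 0) (nat_lit 0x441980532110) (nat_lit 0xf423ff423fa2c28b71aef423f00000f423f7a11d7a11b7a1191e83d00000) (.cons (nat_lit 0) (nat_lit 9) (nat_lit 0) (nat_lit 0x440765532110) (nat_lit 0xf423ff423f00000f423fb71aea2c28047377a11d7a11b7a1197a11700000) (.cons (nat_lit 1) (nat_lit 5) (nat_lit 0) (nat_lit 0x448766032200) (nat_lit 0xf423ff423ff423fb71aea2c2898965000007a11d7a11b7a11900000f423f)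 (.cons (nat_lit 1) (nat_lit 6) (nat_lit 0) (nat_lit 0x448770532200) (nat_lit 0xf423ff423ff423fb71aea2c2800000f423f7a11d7a11b7a11900000f423f) (.cons (nat_lit 1) (nat_lit 9) (nat_lit 0) (nat_lit 0x440765532200) (nat_lit 0xf423ff423f00000f423fb71aea2c28047377a11d7a11b7a11900000f423f) (.cons (nat_lit 2) (nat_lit 9) (nat_lit 0) (nat_lit 0x440765533000) (nat_lit 0xf423ff423f00000f423fb71aea2c28047377a11d7a11b00000f423f54591) (.cons (nat_lit 3) (nat_lit 9) (nat_lit 0) (nat_lit 0x440765540100) (nat_lit 0xf423ff423f00000f423fb71aea2c28047377a11d00000f423fb71ae1f156) (.cons (nat_lit 4) (nat_lit 9) (nat_lit 0) (nat_lit 0xba0765502100) (nat_lit 0xf423ff423f00000f423fb71aea2c280473700000f423fb71aea2c2804737) .nil))))))))) (.leaf (.cons (nat_lit 0x54005) (nat_lit 0x3000200010000000000000000000000040003) (.cons (nat_lit 0x40015) (nat_lit 0x1000000000000000000000000000100020002) .nil)) (.cons (nat_lit 0x1100000011) (nat_lit 0x10000100) (nat_lit 0x10) (nat_lit 0x2300000010) .nil))) (.non (nat_lit 0) (nat_lit 7)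 (nat_lit 0x560154) (nat_lit 0x100010002000100000000000000020002000200020000))) (.non (nat_lit 0) (nat_lit 7) (nat_lit 0xa0054) (nat_lit 0x2000100000000000000000001000200030000))) (.split (nat_lit 0xc) (nat_lit 0) (.split (nat_lit 0xc) (nat_lit 1) (.split (nat_lit 0xc) (nat_lit 2) (.split (nat_lit 0xc) (nat_lit 3) (.split (nat_lit 0xc) (nat_lit 4) (.split (nat_lit 0xc) (nat_lit 5) (.split (nat_lit 0xc) (nat_lit 6) (.split (nat_lit 0xc) (nat_lit 8) (.split (nat_lit 0xc) (nat_lit 9) (.split (nat_lit 0xc) (nat_lit 0xa) (.split (nat_lit 0xc) (nat_lit 0xb) (.unj (nat_lit 0x155) (nat_lit 0x10002000300040003) (nat_lit 0x1015400) (nat_lit 0x1000000000000000100020002000200000000000000000000)) (.non (nat_lit 0) (nat_lit 7) (nat_lit 0x1550154) (nat_lit 0x2000400030002000100000000000000060005000400030000))) (.non (nat_lit 0) (nat_lit 7) (nat_lit 0x1550154) (nat_lit 0x2000300040002000100000000000000060005000400030000))) (.non (nat_lit 0) (nat_lit 7) (nat_lit 0x1550154) (nat_lit 0x1000100010002000100000000000000020002000200020000)))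 (.non (nat_lit 2) (nat_lit 7) (nat_lit 0x1050005) (nat_lit 0x1000000000003000200000000000000000000000000040003))) (.non (nat_lit 0) (nat_lit 8) (nat_lit 0x1005000) (nat_lit 0x1000000000000000000010001000000000000000000000000))) (.non (nat_lit 0) (nat_lit 8) (nat_lit 0x1005400) (nat_lit 0x1000000000000000000010001000100000000000000000000))) (.non (nat_lit 0) (nat_lit 7) (nat_lit 0x1500140) (nat_lit 0x1000100010000000000000000000000020001000000000000))) (.non (nat_lit 0) (nat_lit 7) (nat_lit 0x1500150) (nat_lit 0x1000100010000000000000000000000020002000100000000))) (.star (nat_lit 0xc) (nat_lit 2) (nat_lit 7))) (.non (nat_lit 0) (nat_lit 7) (nat_lit 0x1540154) (nat_lit 0x1000100010001000000000000000000020002000200020000))) (.star (nat_lit 0xc) (nat_lit 0) (nat_lit 7))))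

noncomputable def t1596_13 : Tr := (.split (nat_lit 0xb) (nat_lit 0) (.split (nat_lit 0xb) (nat_lit 1) (.split (nat_lit 0xb) (nat_lit 2) (.split (nat_lit 0xb) (nat_lit 3) (.split (nat_lit 0xb) (nat_lit 5) (.split (nat_lit 0xb) (nat_lit 6) (.split (nat_lit 0xb) (nat_lit 7) (.split (nat_lit 0xb) (nat_lit 8) (.split (nat_lit 0xb) (nat_lit 9) (.split (nat_lit 0xb) (nat_lit 0xa) (.st (nat_lit 4) (nat_lit 0) (nat_lit 7) (nat_lit 0x500140) (nat_lit 0x100010000000000000000000000020001000000000000) (nat_lit 1) (nat_lit 1) (.split (nat_lit 4) (nat_lit 3) (.split (nat_lit 0xa) (nat_lit 4) (.split (nat_lit 0xb) (nat_lit 4) (.pd (.cons (nat_lit 1) (nat_lit 7) (nat_lit 0x1100000000) (nat_lit 0x448905532200) (nat_lit 0xf423ff423f000010000100000f423f545917a11d7a11b7a11900000f423f) (.cons (nat_lit 1) (nat_lit 8) (nat_lit 0) (nat_lit 0x449065532200) (nat_lit 0xf423ff423ff423f00000f423fb71ae1f1567a11d7a11b7a11900000f423f) .nil)) (.st (nat_lit 0xa) (nat_lit 0) (nat_lit 7) (nat_lit 0x550154) (nat_lit 0x300040002000100000000000000060005000400030000)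 (nat_lit 1) (nat_lit 2) (.st (nat_lit 0xb) (nat_lit 0) (nat_lit 7) (nat_lit 0x550154) (nat_lit 0x400030002000100000000000000060005000400030000) (nat_lit 1) (nat_lit 2) t1596_12))) (.non (nat_lit 0) (nat_lit 7) (nat_lit 0x900140) (nat_lit 0x100010000000000000000000000020001000000000000))) (.non (nat_lit 0) (nat_lit 7) (nat_lit 0x600140) (nat_lit 0x100010000000000000000000000020001000000000000))) (.non (nat_lit 0) (nat_lit 7) (nat_lit 0xa00240) (nat_lit 0x100010000000000000000000000020002000000000000)))) (.non (nat_lit 0) (nat_lit 7) (nat_lit 0x500100) (nat_lit 0x100010000000000000000000000010000000000000000))) (.non (nat_lit 0) (nat_lit 7) (nat_lit 0x550144) (nat_lit 0x200010002000100000000000000020001000000010000))) (.non (nat_lit 0) (nat_lit 7) (nat_lit 0x450154) (nat_lit 0x100000001000100000000000000010001000100010000))) (.non (nat_lit 0) (nat_lit 8) (nat_lit 0x405500) (nat_lit 0x200000000000000030004000300010000000000000000))) (.non (nat_lit 0) (nat_lit 7) (nat_lit 0x501500) (nat_lit 0x300010000000000000004000300020000000000000000)))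 (.non (nat_lit 0) (nat_lit 7) (nat_lit 0x501500) (nat_lit 0x300010000000000000003000400020000000000000000))) (.non (nat_lit 0) (nat_lit 7) (nat_lit 0x400140) (nat_lit 0x100000000000000000000000000010001000000000000))) (.non (nat_lit 0) (nat_lit 7) (nat_lit 0x400150) (nat_lit 0x100000000000000000000000000010001000100000000))) (.non (nat_lit 0) (nat_lit 7) (nat_lit 0x400154) (nat_lit 0x100000000000000000000000000010001000100010000))) (.non (nat_lit 2) (nat_lit 7) (nat_lit 0x440005) (nat_lit 0x100000001000000000000000000000000000000020002)))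

noncomputable def t1596_14 : Tr := (.ex (nat_lit 4) (.split (nat_lit 4) (nat_lit 3) (.pd (.cons (nat_lit 1) (nat_lit 7) (nat_lit 0x1100000000) (nat_lit 0x8905532200) (nat_lit 0x10000100000f423f54591f423fb71aea2c2800000f423f) (.cons (nat_lit 1) (nat_lit 8) (nat_lit 0) (nat_lit 0x9065532200) (nat_lit 0xf423f00000f423fb71ae1f156f423fb71aea2c2800000f423f) .nil)) t1596_8) (.split (nat_lit 4) (nat_lit 3) (.pd (.cons (nat_lit 1) (nat_lit 7) (nat_lit 0x1100000000) (nat_lit 0x8905532200) (nat_lit 0x10000100000f423f54591f423f7a11e7a11c00000f423f) (.cons (nat_lit 1) (nat_lit 8) (nat_lit 0) (nat_lit 0x9065532200) (nat_lit 0xf423f00000f423fb71ae1f156f423f7a11e7a11c00000f423f) .nil)) t1596_9) (.non (nat_lit 0) (nat_lit 7) (nat_lit 0x40154) (nat_lit 0x1000000000000000000030004000300020000)))) (.split (nat_lit 0xa) (nat_lit 0) (.split (nat_lit 0xa) (nat_lit 1) (.split (nat_lit 0xa) (nat_lit 2) (.split (nat_lit 0xa) (nat_lit 3) (.split (nat_lit 0xa) (nat_lit 5) (.split (nat_lit 0xa) (nat_lit 6) (.split (nat_lit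 0xa) (nat_lit 7) (.split (nat_lit 0xa) (nat_lit 8) (.split (nat_lit 0xa) (nat_lit 9) (.ex (nat_lit 4) (.split (nat_lit 4) (nat_lit 3) (.split (nat_lit 0xa) (nat_lit 4) (.pd (.cons (nat_lit 1) (nat_lit 7) (nat_lit 0x1100000000) (nat_lit 0x48905532200) (nat_lit 0xf423f000010000100000f423f54591b71aea2c289896500000f423f) (.cons (nat_lit 1) (nat_lit 8) (nat_lit 0) (nat_lit 0x49065532200) (nat_lit 0xf423ff423f00000f423fb71ae1f156b71aea2c289896500000f423f) .nil)) t1596_10) (.split (nat_lit 0xa) (nat_lit 4) (.pd (.cons (nat_lit 1) (nat_lit 7) (nat_lit 0x1100000000) (nat_lit 0x48905532200) (nat_lit 0xf423f000010000100000f423f545917a11e7a11c7a11a00000f423f) (.cons (nat_lit 1) (nat_lit 8) (nat_lit 0) (nat_lit 0x49065532200) (nat_lit 0xf423ff423f00000f423fb71ae1f1567a11e7a11c7a11a00000f423f) .nil)) (.st (nat_lit 0xa) (nat_lit 0) (nat_lit 7) (nat_lit 0x200150) (nat_lit 0x20000000000000000000000030002000100000000) (nat_lit 2) (nat_lit 1) t1596_11)) (.non (nat_lit 0) (nat_lit 7) (nat_lit 0x100154) (nat_lit 0x30000000000000000000000040003000200010000))))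 (.non (nat_lit 0) (nat_lit 7) (nat_lit 0x200254) (nat_lit 0x10000000000000000000000020003000200010000))) t1596_13) (.non (nat_lit 0) (nat_lit 7) (nat_lit 0x140154) (nat_lit 0x10001000000000000000000010001000100010000))) (.non (nat_lit 0) (nat_lit 7) (nat_lit 0x150154) (nat_lit 0x10001000100000000000000010001000100010000))) (.non (nat_lit 0) (nat_lit 8) (nat_lit 0x105500) (nat_lit 0x20000000000030004000300010000000000000000))) (.non (nat_lit 0) (nat_lit 7) (nat_lit 0x101540) (nat_lit 0x30000000000000004000300020001000000000000))) (.non (nat_lit 0) (nat_lit 7) (nat_lit 0x101540) (nat_lit 0x30000000000000003000400020001000000000000))) (.non (nat_lit 0) (nat_lit 7) (nat_lit 0x100140) (nat_lit 0x10000000000000000000000010001000000000000))) (.non (nat_lit 0) (nat_lit 7) (nat_lit 0x100150) (nat_lit 0x10000000000000000000000010001000100000000))) (.non (nat_lit 0) (nat_lit 7) (nat_lit 0x100154) (nat_lit 0x10000000000000000000000010001000100010000))) (.non (nat_lit 2) (nat_lit 7) (nat_lit 0x140005) (nat_lit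 0x10001000000000000000000000000000000020002))))

noncomputable def t1596_15 : Tr := (.ex (nat_lit 7) (.split (nat_lit 9) (nat_lit 1) (.split (nat_lit 4) (nat_lit 3) (.split (nat_lit 0xa) (nat_lit 3) (.split (nat_lit 9) (nat_lit 8) (.pd (.cons (nat_lit 0) (nat_lit 5) (nat_lit 0) (nat_lit 0x31987032110) (nat_lit 0xf423f98965a2c28b71aef423f00000f423f7a11d7a11b1869700000) (.cons (nat_lit 0) (nat_lit 6) (nat_lit 0) (nat_lit 0x31980532110) (nat_lit 0xf423fa2c28b71aef423f00000f423ff423f7a11d7a11b1e83f00000) (.cons (nat_lit 0) (nat_lit 9) (nat_lit 0) (nat_lit 0x30765532110) (nat_lit 0xf423f00000f423fb71aea2c2804737f423f7a11d7a11b7a11900000) (.cons (nat_lit 2) (nat_lit 9) (nat_lit 0) (nat_lit 0x30765533000) (nat_lit 0xf423f00000f423fb71aea2c2804737f423f7a11d00000f423f54591) (.cons (nat_lit 3) (nat_lit 9) (nat_lit 0) (nat_lit 0xa0765540100) (nat_lit 0xf423f00000f423fb71aea2c2804737f423f00000f423fb71ae1f156) .nil))))) (.st (nat_lit 0xa) (nat_lit 0) (nat_lit 5) (nat_lit 0x154154) (nat_lit 0x40003000200010000000000030006000500040000)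 (nat_lit 1) (nat_lit 2) (.pd (.cons (nat_lit 1) (nat_lit 5) (nat_lit 0) (nat_lit 0x38766032200) (nat_lit 0xf423ff423fb71aea2c289896500000f423f7a11d7a11b00000f423f) (.cons (nat_lit 1) (nat_lit 6) (nat_lit 0) (nat_lit 0x38770532200) (nat_lit 0xf423ff423fb71aea2c2800000f423ff423f7a11d7a11b00000f423f) (.cons (nat_lit 1) (nat_lit 7) (nat_lit 0) (nat_lit 0x38805532200) (nat_lit 0xf423ff423fb71ae00000f423f54591f423f7a11d7a11b00000f423f) (.cons (nat_lit 1) (nat_lit 8) (nat_lit 0) (nat_lit 0x39065532200) (nat_lit 0xf423ff423f00000f423fb71ae1f156f423f7a11d7a11b00000f423f) (.cons (nat_lit 1) (nat_lit 9) (nat_lit 0) (nat_lit 0x30765532200) (nat_lit 0xf423f00000f423fb71aea2c2804737f423f7a11d7a11b00000f423f) .nil))))) (.leaf (.cons (nat_lit 0x54005) (nat_lit 0x3000200010000000000000000000000040003) (.cons (nat_lit 0x40015) (nat_lit 0x1000000000000000000000000000100020002) (.cons (nat_lit 0x100055) (nat_lit 0x10000000000000000000000000002000300040003) .nil))) (.cons (nat_lit 0x1100000011) (nat_lit 0x10000100)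 (nat_lit 0x10) (nat_lit 0x2300000010) .nil))))) (.non (nat_lit 0) (nat_lit 7) (nat_lit 0x160154) (nat_lit 0x10002000100000000000000010002000200020000))) (.non (nat_lit 0) (nat_lit 7) (nat_lit 0x200150) (nat_lit 0x10000000000000000000000010002000100000000))) (.non (nat_lit 0) (nat_lit 7) (nat_lit 0x100250) (nat_lit 0x10000000000000000000000010002000100000000))) (.non (nat_lit 0) (nat_lit 7) (nat_lit 0xa0054) (nat_lit 0x2000100000000000000000001000200030000))) (.split (nat_lit 0xb) (nat_lit 0) (.split (nat_lit 0xb) (nat_lit 1) (.split (nat_lit 0xb) (nat_lit 2) (.split (nat_lit 0xb) (nat_lit 3) (.split (nat_lit 0xb) (nat_lit 4) (.split (nat_lit 0xb) (nat_lit 5) (.split (nat_lit 0xb) (nat_lit 6) (.split (nat_lit 0xb) (nat_lit 8) (.split (nat_lit 0xb) (nat_lit 9) (.split (nat_lit 0xb) (nat_lit 0xa) (.unj (nat_lit 0x155) (nat_lit 0x10002000300040003) (nat_lit 0x415400) (nat_lit 0x100000000000100020002000200000000000000000000)) (.non (nat_lit 0) (nat_lit 8) (nat_lit 0x505400) (nat_lit 0x200010000000000030004000300000000000000000000)))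 (.non (nat_lit 0) (nat_lit 7) (nat_lit 0x550154) (nat_lit 0x100010002000100000000000000010002000200020000))) (.non (nat_lit 2) (nat_lit 7) (nat_lit 0x450005) (nat_lit 0x100000003000200000000000000000000000000040003))) (.non (nat_lit 0) (nat_lit 8) (nat_lit 0x405000) (nat_lit 0x100000000000000010001000000000000000000000000))) (.non (nat_lit 0) (nat_lit 8) (nat_lit 0x405400) (nat_lit 0x100000000000000010001000100000000000000000000))) (.non (nat_lit 0) (nat_lit 8) (nat_lit 0x405500) (nat_lit 0x200000000000000030004000300010000000000000000))) (.non (nat_lit 0) (nat_lit 7) (nat_lit 0x500150) (nat_lit 0x100010000000000000000000000010002000100000000))) (.star (nat_lit 0xb) (nat_lit 2) (nat_lit 7))) (.non (nat_lit 0) (nat_lit 7) (nat_lit 0x540154) (nat_lit 0x100010001000000000000000000010002000200020000))) (.star (nat_lit 0xb) (nat_lit 0) (nat_lit 7))))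

noncomputable def t1596_16 : Tr := (.split (nat_lit 0xa) (nat_lit 7) (.split (nat_lit 0xa) (nat_lit 8) (.split (nat_lit 0xa) (nat_lit 9) (.st (nat_lit 3) (nat_lit 0) (nat_lit 7) (nat_lit 0x100150) (nat_lit 0x10000000000000000000000010002000100000000) (nat_lit 1) (nat_lit 1) (.ex (nat_lit 4) t1596_15 (.split (nat_lit 0xb) (nat_lit 0) (.split (nat_lit 0xb) (nat_lit 1) (.split (nat_lit 0xb) (nat_lit 2) (.split (nat_lit 0xb) (nat_lit 3) (.split (nat_lit 0xb) (nat_lit 5) (.split (nat_lit 0xb) (nat_lit 6) (.split (nat_lit 0xb) (nat_lit 7) (.split (nat_lit 0xb) (nat_lit 8) (.split (nat_lit 0xb) (nat_lit 9) (.split (nat_lit 0xb) (nat_lit 0xa) (.split (nat_lit 0xb) (nat_lit 4) (.split (nat_lit 0xa) (nat_lit 3) (.split (nat_lit 9) (nat_lit 1) (.sup (nat_lit 0x3000d00160020001a00000000000000000000) (nat_lit 0x300050000000000000000000000060009000800060005)) (.non (nat_lit 0) (nat_lit 7) (nat_lit 0xa0054) (nat_lit 0x2000100000000000000000001000200030000))) (.non (nat_lit 0) (nat_lit 7) (nat_lit 0x200150) (nat_lit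 0x10000000000000000000000010002000100000000))) (.non (nat_lit 0) (nat_lit 7) (nat_lit 0x900150) (nat_lit 0x100010000000000000000000000020002000100000000))) (.non (nat_lit 0) (nat_lit 7) (nat_lit 0x500140) (nat_lit 0x100010000000000000000000000010001000000000000))) (.non (nat_lit 0) (nat_lit 7) (nat_lit 0x440154) (nat_lit 0x100000001000000000000000000010001000100010000))) (.non (nat_lit 0) (nat_lit 7) (nat_lit 0x450154) (nat_lit 0x100000001000100000000000000010001000100010000))) (.non (nat_lit 0) (nat_lit 8) (nat_lit 0x405500) (nat_lit 0x200000000000000030004000300010000000000000000))) (.non (nat_lit 0) (nat_lit 7) (nat_lit 0x401540) (nat_lit 0x300000000000000000004000300020001000000000000))) (.non (nat_lit 0) (nat_lit 7) (nat_lit 0x401540) (nat_lit 0x300000000000000000003000400020001000000000000))) (.non (nat_lit 0) (nat_lit 7) (nat_lit 0x400140) (nat_lit 0x100000000000000000000000000010001000000000000))) (.non (nat_lit 0) (nat_lit 7) (nat_lit 0x400150) (nat_lit 0x100000000000000000000000000010001000100000000)))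 (.non (nat_lit 0) (nat_lit 7) (nat_lit 0x400154) (nat_lit 0x100000000000000000000000000010001000100010000))) (.non (nat_lit 2) (nat_lit 7) (nat_lit 0x440005) (nat_lit 0x100000001000000000000000000000000000000020002))))) (.non (nat_lit 0) (nat_lit 7) (nat_lit 0x140054) (nat_lit 0x10001000000000000000000000001000100010000))) (.non (nat_lit 0) (nat_lit 7) (nat_lit 0x150054) (nat_lit 0x10001000100000000000000000001000100010000))) (.non (nat_lit 0) (nat_lit 8) (nat_lit 0x105440) (nat_lit 0x20000000000030004000300000001000000000000)))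

noncomputable def t1596_17 : Tr := (.st (nat_lit 9) (nat_lit 2) (nat_lit 7) (nat_lit 0x50005) (nat_lit 0x2000100000000000000000000000000020002) (nat_lit 1) (nat_lit 1) (.ex (nat_lit 2) (.ex (nat_lit 3) t1596_14 (.split (nat_lit 0xa) (nat_lit 0) (.split (nat_lit 0xa) (nat_lit 1) (.split (nat_lit 0xa) (nat_lit 2) (.split (nat_lit 0xa) (nat_lit 4) (.split (nat_lit 0xa) (nat_lit 5) (.split (nat_lit 0xa) (nat_lit 6) t1596_16 (.non (nat_lit 0) (nat_lit 7) (nat_lit 0x101540) (nat_lit 0x30000000000000004000300010002000000000000))) (.non (nat_lit 0) (nat_lit 7) (nat_lit 0x101540) (nat_lit 0x30000000000000003000400010002000000000000))) (.non (nat_lit 0) (nat_lit 7) (nat_lit 0x100140) (nat_lit 0x10000000000000000000000010001000000000000))) (.non (nat_lit 0) (nat_lit 7) (nat_lit 0x100050) (nat_lit 0x10000000000000000000000000001000100000000))) (.non (nat_lit 0) (nat_lit 7) (nat_lit 0x100054) (nat_lit 0x10000000000000000000000000001000100010000))) (.non (nat_lit 2) (nat_lit 7) (nat_lit 0x140005) (nat_lit 0x10001000000000000000000000000000000020002))))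 (.split (nat_lit 0xa) (nat_lit 0) (.split (nat_lit 0xa) (nat_lit 1) (.split (nat_lit 0xa) (nat_lit 3) (.split (nat_lit 0xa) (nat_lit 4) (.split (nat_lit 0xa) (nat_lit 5) (.split (nat_lit 0xa) (nat_lit 6) (.split (nat_lit 0xa) (nat_lit 7) (.split (nat_lit 0xa) (nat_lit 8) (.split (nat_lit 0xa) (nat_lit 9) (.split (nat_lit 0xa) (nat_lit 2) (.split (nat_lit 9) (nat_lit 1) (.sup (nat_lit 0x3000d00160020001a00000000000000000000) (nat_lit 0x40000000000000000000000030005000800060005)) (.non (nat_lit 0) (nat_lit 7) (nat_lit 0x1a0014) (nat_lit 0x10002000100000000000000000000000200030000))) (.non (nat_lit 0) (nat_lit 7) (nat_lit 0x200054) (nat_lit 0x10000000000000000000000000001000200010000))) (.non (nat_lit 0) (nat_lit 7) (nat_lit 0x140014) (nat_lit 0x10001000000000000000000000000000100010000))) (.star (nat_lit 0xa) (nat_lit 2) (nat_lit 8))) (.star (nat_lit 0xa) (nat_lit 2) (nat_lit 7))) (.non (nat_lit 0) (nat_lit 7) (nat_lit 0x101450) (nat_lit 0x30000000000000004000300000001000200000000))) (.non (nat_lit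 0) (nat_lit 7) (nat_lit 0x101450) (nat_lit 0x30000000000000003000400000001000200000000))) (.non (nat_lit 0) (nat_lit 7) (nat_lit 0x100150) (nat_lit 0x10000000000000000000000010001000100000000))) (.non (nat_lit 0) (nat_lit 7) (nat_lit 0x100050) (nat_lit 0x10000000000000000000000000001000100000000))) (.non (nat_lit 0) (nat_lit 7) (nat_lit 0x100014) (nat_lit 0x10000000000000000000000000000000100010000))) (.non (nat_lit 2) (nat_lit 7) (nat_lit 0x140005) (nat_lit 0x10001000000000000000000000000000000020002)))))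

noncomputable def t1596_18 : Tr := (.split (nat_lit 9) (nat_lit 1) (.split (nat_lit 9) (nat_lit 3) (.split (nat_lit 9) (nat_lit 4) (.split (nat_lit 8) (nat_lit 4) .uj (.ex (nat_lit 0) t1596_4 (.split (nat_lit 0xa) (nat_lit 1) (.split (nat_lit 0xa) (nat_lit 3) (.split (nat_lit 0xa) (nat_lit 4) (.split (nat_lit 0xa) (nat_lit 5) (.split (nat_lit 0xa) (nat_lit 6) (.split (nat_lit 0xa) (nat_lit 7) (.split (nat_lit 0xa) (nat_lit 8) (.split (nat_lit 0xa) (nat_lit 9) (.split (nat_lit 0xa) (nat_lit 2) (.unj (nat_lit 0x100015) (nat_lit 0x10000000000000000000000000000000100020002) (nat_lit 0x15500) (nat_lit 0x200030004000300010000000000000000)) (.unj (nat_lit 0x100015) (nat_lit 0x10000000000000000000000000000000100010001) (nat_lit 0x15500) (nat_lit 0x200030004000300010000000000000000))) (.non (nat_lit 2) (nat_lit 7) (nat_lit 0x150005) (nat_lit 0x30002000100000000000000000000000000030004))) (.star (nat_lit 0xa) (nat_lit 0) (nat_lit 8))) (.star (nat_lit 0xa) (nat_lit 0) (nat_lit 7))) (.non (nat_lit 0) (nat_lit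 8) (nat_lit 0x105400) (nat_lit 0x10000000000010002000200000000000000000000))) (.non (nat_lit 0) (nat_lit 8) (nat_lit 0x105400) (nat_lit 0x10000000000010002000200000000000000000000))) (.non (nat_lit 2) (nat_lit 7) (nat_lit 0x110105) (nat_lit 0x30000000100000000000000020000000000030004))) (.non (nat_lit 2) (nat_lit 7) (nat_lit 0x100145) (nat_lit 0x30000000000000000000000010002000000030004))) (.non (nat_lit 2) (nat_lit 7) (nat_lit 0x100005) (nat_lit 0x10000000000000000000000000000000000010001))))) (.split (nat_lit 8) (nat_lit 4) (.sup (nat_lit 0x100040007000a0008) (nat_lit 0x100040007000a000800000000000000000000)) (.non (nat_lit 0) (nat_lit 7) (nat_lit 0x50100) (nat_lit 0x1000100000000000000010000000000000000)))) (.split (nat_lit 9) (nat_lit 4) (.split (nat_lit 8) (nat_lit 4) t1596_7 (.non (nat_lit 0) (nat_lit 7) (nat_lit 0x50140) (nat_lit 0x1000100000000000000010001000000000000))) (.non (nat_lit 0) (nat_lit 7) (nat_lit 0x40140) (nat_lit 0x1000000000000000000010001000000000000)))) (.split (nat_lit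 9) (nat_lit 3) (.split (nat_lit 9) (nat_lit 4) (.split (nat_lit 8) (nat_lit 4) (.st (nat_lit 0) (nat_lit 2) (nat_lit 7) (nat_lit 0x40005) (nat_lit 0x1000000000000000000000000000000020002) (nat_lit 1) (nat_lit 1) (.st (nat_lit 1) (nat_lit 2) (nat_lit 7) (nat_lit 0x40005) (nat_lit 0x1000000000000000000000000000000020002) (nat_lit 1) (nat_lit 1) (.st (nat_lit 8) (nat_lit 2) (nat_lit 7) (nat_lit 0x50005) (nat_lit 0x3000200000000000000000000000000040003) (nat_lit 1) (nat_lit 1) t1596_17))) (.non (nat_lit 0) (nat_lit 7) (nat_lit 0x50154) (nat_lit 0x1000100000000000000010001000100010000))) (.non (nat_lit 0) (nat_lit 7) (nat_lit 0x40154) (nat_lit 0x1000000000000000000010001000100010000))) (.non (nat_lit 0) (nat_lit 7) (nat_lit 0x40054) (nat_lit 0x1000000000000000000000001000100010000))))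

noncomputable def t1596 : Tr := (.split (nat_lit 7) (nat_lit 4) t1596_18 (.non (nat_lit 0) (nat_lit 8) (nat_lit 0x5540) (nat_lit 0x30004000300020001000000000000)))

noncomputable def t1599_1 : Tr := (.ex (nat_lit 8) (.pd (.cons (nat_lit 4) (nat_lit 9) (nat_lit 0) (nat_lit 0x765502100) (nat_lit 0xf423fb71aea2c280473700000f423fb71aea2c2804737) .nil) (.ex (nat_lit 9) (.pd (.cons (nat_lit 4) (nat_lit 8) (nat_lit 0) (nat_lit 0x7065502100) (nat_lit 0xf423f00000b71aea2c280473700000f423fb71aea2c2804737) .nil) (.leaf (.cons (nat_lit 0x1500) (nat_lit 0x1000100010000000000000000) .nil) (.cons (nat_lit 0x111000) (nat_lit 0x1000100) (nat_lit 6) (nat_lit 0x12000) .nil))) (.split (nat_lit 0xa) (nat_lit 0) (.split (nat_lit 0xa) (nat_lit 1) (.split (nat_lit 0xa) (nat_lit 2) (.split (nat_lit 0xa) (nat_lit 3) (.split (nat_lit 0xa) (nat_lit 4) (.split (nat_lit 0xa) (nat_lit 5) (.split (nat_lit 0xa) (nat_lit 6) (.split (nat_lit 0xa) (nat_lit 7) (.split (nat_lit 0xa) (nat_lit 8) (.sup (nat_lit 0x20003000200050004000200000000000000000000)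 (nat_lit 0x20006000b0010000d)) (.non (nat_lit 0) (nat_lit 5) (nat_lit 0x154000) (nat_lit 0x10001000100010000000000000000000000000000))) (.non (nat_lit 0) (nat_lit 5) (nat_lit 0x144000) (nat_lit 0x10001000000010000000000000000000000000000))) (.non (nat_lit 0) (nat_lit 5) (nat_lit 0x145000) (nat_lit 0x10001000000010001000000000000000000000000))) (.non (nat_lit 0) (nat_lit 6) (nat_lit 0x280940) (nat_lit 0x20001000000000000000300040002000000000000))) (.non (nat_lit 0) (nat_lit 6) (nat_lit 0x100940) (nat_lit 0x10000000000000000000100020001000000000000))) (.non (nat_lit 0) (nat_lit 5) (nat_lit 0x155150) (nat_lit 0x20002000100020001000000010002000100000000))) (.non (nat_lit 0) (nat_lit 5) (nat_lit 0x155054) (nat_lit 0x20002000100020001000000000001000200010000))) (.non (nat_lit 2) (nat_lit 5) (nat_lit 0x144005) (nat_lit 0x30002000000010000000000000000000000040003))) (.non (nat_lit 2) (nat_lit 5) (nat_lit 0x144005) (nat_lit 0x30002000000010000000000000000000000030004))))) (.split (nat_lit 0xa) (nat_lit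 0) (.split (nat_lit 0xa) (nat_lit 1) (.split (nat_lit 0xa) (nat_lit 2) (.split (nat_lit 0xa) (nat_lit 3) (.split (nat_lit 0xa) (nat_lit 4) (.split (nat_lit 0xa) (nat_lit 5) (.split (nat_lit 0xa) (nat_lit 6) (.split (nat_lit 0xa) (nat_lit 7) (.split (nat_lit 0xa) (nat_lit 9) (.sup (nat_lit 0x20002000300050004000200000000000000000000) (nat_lit 0x20006000b0010000d)) (.non (nat_lit 0) (nat_lit 5) (nat_lit 0x154000) (nat_lit 0x10001000100010000000000000000000000000000))) (.non (nat_lit 0) (nat_lit 5) (nat_lit 0x114000) (nat_lit 0x10000000100010000000000000000000000000000))) (.non (nat_lit 0) (nat_lit 5) (nat_lit 0x115000) (nat_lit 0x10000000100010001000000000000000000000000))) (.non (nat_lit 0) (nat_lit 6) (nat_lit 0x220940) (nat_lit 0x20000000100000000000300040002000000000000))) (.non (nat_lit 0) (nat_lit 6) (nat_lit 0x100940) (nat_lit 0x10000000000000000000100020001000000000000))) (.non (nat_lit 0) (nat_lit 5) (nat_lit 0x155150) (nat_lit 0x20001000200020001000000010002000100000000))) (.non (nat_lit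 0) (nat_lit 5) (nat_lit 0x155054) (nat_lit 0x20001000200020001000000000001000200010000))) (.non (nat_lit 2) (nat_lit 5) (nat_lit 0x114005) (nat_lit 0x30000000200010000000000000000000000040003))) (.non (nat_lit 2) (nat_lit 5) (nat_lit 0x114005) (nat_lit 0x30000000200010000000000000000000000030004))))

noncomputable def t1599_2 : Tr := (.ex (nat_lit 1) (.pd (.cons (nat_lit 3) (nat_lit 5) (nat_lit 0) (nat_lit 0x7766040100) (nat_lit 0xf423ff423f7a11d7a11b00000f423f00000f423fb71ae1f156) (.cons (nat_lit 3) (nat_lit 6) (nat_lit 0) (nat_lit 0x7770440100) (nat_lit 0xf423ff423f7a11d00000f423f7a11e00000f423fb71ae1f156) (.cons (nat_lit 4) (nat_lit 5) (nat_lit 0) (nat_lit 0x7766002100) (nat_lit 0xf423ff423f7a11d7a11b0000000000f423fb71aea2c2804737) (.cons (nat_lit 4) (nat_lit 6) (nat_lit 0) (nat_lit 0x7770502100) (nat_lit 0xf423ff423f7a11d00000f423f00000f423fb71aea2c2804737) .nil)))) (.ex (nat_lit 6) (.pd (.cons (nat_lit 4) (nat_lit 7) (nat_lit 0) (nat_lit 0x9805502100) (nat_lit 0xf423ff423f00000f423f5459100000f423fb71aea2c2804737)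 .nil) t1599_1) (.split (nat_lit 0xa) (nat_lit 0) (.split (nat_lit 0xa) (nat_lit 1) (.split (nat_lit 0xa) (nat_lit 2) (.split (nat_lit 0xa) (nat_lit 3) (.split (nat_lit 0xa) (nat_lit 4) (.split (nat_lit 0xa) (nat_lit 5) (.split (nat_lit 0xa) (nat_lit 7) (.split (nat_lit 0xa) (nat_lit 8) (.split (nat_lit 0xa) (nat_lit 9) (.sup (nat_lit 0x10001000100020002000100000000000000000000) (nat_lit 0x10003000600080006)) (.non (nat_lit 0) (nat_lit 5) (nat_lit 0x145000) (nat_lit 0x10001000000010001000000000000000000000000))) (.non (nat_lit 0) (nat_lit 5) (nat_lit 0x115000) (nat_lit 0x10000000100010001000000000000000000000000))) (.non (nat_lit 0) (nat_lit 5) (nat_lit 0x105000) (nat_lit 0x10000000000010001000000000000000000000000))) (.non (nat_lit 0) (nat_lit 6) (nat_lit 0x200950) (nat_lit 0x10000000000000000000200030002000100000000))) (.non (nat_lit 0) (nat_lit 6) (nat_lit 0x100940) (nat_lit 0x10000000000000000000100020001000000000000))) (.non (nat_lit 0) (nat_lit 5) (nat_lit 0x155150) (nat_lit 0x20001000100020002000000010002000100000000)))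 (.star (nat_lit 0xa) (nat_lit 2) (nat_lit 6))) (.non (nat_lit 2) (nat_lit 5) (nat_lit 0x105005) (nat_lit 0x30000000000010002000000000000000000040003))) (.star (nat_lit 0xa) (nat_lit 0) (nat_lit 6))))) (.split (nat_lit 0xa) (nat_lit 0) (.split (nat_lit 0xa) (nat_lit 2) (.split (nat_lit 0xa) (nat_lit 3) (.split (nat_lit 0xa) (nat_lit 4) (.split (nat_lit 0xa) (nat_lit 5) (.split (nat_lit 0xa) (nat_lit 6) (.split (nat_lit 0xa) (nat_lit 7) (.split (nat_lit 0xa) (nat_lit 8) (.split (nat_lit 0xa) (nat_lit 9) (.unj (nat_lit 0x1500) (nat_lit 0x1000100010000000000000000) (nat_lit 0x100015) (nat_lit 0x10000000000000000000000000000000100020002)) (.non (nat_lit 2) (nat_lit 5) (nat_lit 0x144005) (nat_lit 0x30002000000010000000000000000000000040003))) (.non (nat_lit 2) (nat_lit 5) (nat_lit 0x114005) (nat_lit 0x30000000200010000000000000000000000040003))) (.non (nat_lit 0) (nat_lit 5) (nat_lit 0x155000) (nat_lit 0x10001000100020001000000000000000000000000))) (.non (nat_lit 2) (nat_lit 5) (nat_lit 0x105005) (nat_lit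 0x30000000000010002000000000000000000040003))) (.non (nat_lit 0) (nat_lit 6) (nat_lit 0x200950) (nat_lit 0x10000000000000000000200030002000100000000))) (.non (nat_lit 0) (nat_lit 5) (nat_lit 0x100154) (nat_lit 0x10000000000000000000000010001000100010000))) (.non (nat_lit 0) (nat_lit 5) (nat_lit 0x100054) (nat_lit 0x10000000000000000000000000001000100010000))) (.non (nat_lit 0) (nat_lit 5) (nat_lit 0x100014) (nat_lit 0x10000000000000000000000000000000100010000))) (.non (nat_lit 2) (nat_lit 5) (nat_lit 0x100005) (nat_lit 0x10000000000000000000000000000000000010001))))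

noncomputable def t1599_3 : Tr := (.pd (.cons (nat_lit 3) (nat_lit 5) (nat_lit 0) (nat_lit 0x7764040100) (nat_lit 0xf423ff423f7a11d7a11b000007a11900000f423fb71ae1f156) (.cons (nat_lit 3) (nat_lit 6) (nat_lit 0) (nat_lit 0x7770540100) (nat_lit 0xf423ff423f7a11d00000f423ff423f00000f423fb71ae1f156) (.cons (nat_lit 4) (nat_lit 5) (nat_lit 0) (nat_lit 0x7766002100) (nat_lit 0xf423ff423f7a11d7a11b0000000000f423fb71aea2c2804737) (.cons (nat_lit 4) (nat_lit 6) (nat_lit 0) (nat_lit 0x7770502100) (nat_lit 0xf423ff423f7a11d00000f423f00000f423fb71aea2c2804737) .nil)))) (.ex (nat_lit 5) (.pd (.cons (nat_lit 2) (nat_lit 7) (nat_lit 0) (nat_lit 0x9804633000) (nat_lit 0xf423ff423f0000054591f423f437a2174ea00000f423f54591) (.cons (nat_lit 3) (nat_lit 7) (nat_lit 0) (nat_lit 0x9804640100) (nat_lit 0xf423ff423f0000054591f423f437a200000f423fb71ae1f156) (.cons (nat_lit 4) (nat_lit 7) (nat_lit 0) (nat_lit 0x9805502100) (nat_lit 0xf423ff423f00000f423f5459100000f423fb71aea2c2804737) (.cons (nat_lit 4) (nat_lit 8) (nat_lit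 0) (nat_lit 0x7065502100) (nat_lit 0xf423f00000b71aea2c280473700000f423fb71aea2c2804737) (.cons (nat_lit 4) (nat_lit 9) (nat_lit 0) (nat_lit 0x765502100) (nat_lit 0xf423fb71aea2c280473700000f423fb71aea2c2804737) .nil))))) (.leaf (.cons (nat_lit 0x1550) (nat_lit 0x4000300030002000100000000) (.cons (nat_lit 0x5500) (nat_lit 0x10002000200010000000000000000) .nil)) (.cons (nat_lit 0x1111011100) (nat_lit 0x100010) (nat_lit 0xa) (nat_lit 0x2103045600) (.cons (nat_lit 0x1111011000) (nat_lit 0x100100) (nat_lit 9) (nat_lit 0x2103045000) .nil)))) (.split (nat_lit 0xa) (nat_lit 0) (.split (nat_lit 0xa) (nat_lit 1) (.split (nat_lit 0xa) (nat_lit 2) (.split (nat_lit 0xa) (nat_lit 3) (.split (nat_lit 0xa) (nat_lit 4) (.split (nat_lit 0xa) (nat_lit 6) (.split (nat_lit 0xa) (nat_lit 7) (.split (nat_lit 0xa) (nat_lit 8) (.split (nat_lit 0xa) (nat_lit 9) (.sup (nat_lit 0x10001000100030003000300000000000000000000) (nat_lit 0x20007000b0010000d)) (.non (nat_lit 0) (nat_lit 5) (nat_lit 0x155154) (nat_lit 0x20004000300060005000000040003000200010000)))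 (.non (nat_lit 0) (nat_lit 5) (nat_lit 0x155154) (nat_lit 0x20003000400060005000000040003000200010000))) (.non (nat_lit 0) (nat_lit 5) (nat_lit 0x155000) (nat_lit 0x10001000100020001000000000000000000000000))) (.non (nat_lit 0) (nat_lit 5) (nat_lit 0x155100) (nat_lit 0x10001000100020002000000010000000000000000))) (.non (nat_lit 0) (nat_lit 5) (nat_lit 0x155140) (nat_lit 0x10001000100020002000000020001000000000000))) (.non (nat_lit 0) (nat_lit 5) (nat_lit 0x155150) (nat_lit 0x10001000100020002000000020002000100000000))) (.star (nat_lit 0xa) (nat_lit 2) (nat_lit 5))) (.non (nat_lit 3) (nat_lit 5) (nat_lit 0x100015) (nat_lit 0x10000000000000000000000000000000100020002))) (.star (nat_lit 0xa) (nat_lit 0) (nat_lit 5)))))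

noncomputable def t1599_4 : Tr := (.ex (nat_lit 0) (.split (nat_lit 4) (nat_lit 3) (.split (nat_lit 6) (nat_lit 4) (.pd (.cons (nat_lit 1) (nat_lit 5) (nat_lit 0) (nat_lit 0x7764032200) (nat_lit 0xf423ff423f7a11d7a11b000007a1197a1177a11500000f423f) (.cons (nat_lit 1) (nat_lit 6) (nat_lit 0) (nat_lit 0x7770532200) (nat_lit 0xf423ff423f7a11d00000f423ff423fb71aea2c2800000f423f) .nil)) (.ex (nat_lit 1) t1599_3 (.split (nat_lit 0xa) (nat_lit 0) (.split (nat_lit 0xa) (nat_lit 2) (.split (nat_lit 0xa) (nat_lit 3) (.split (nat_lit 0xa) (nat_lit 4) (.split (nat_lit 0xa) (nat_lit 6) (.split (nat_lit 0xa) (nat_lit 7) (.split (nat_lit 0xa) (nat_lit 8) (.split (nat_lit 0xa) (nat_lit 9) (.split (nat_lit 0xa) (nat_lit 5) (.unj (nat_lit 0x100015) (nat_lit 0x10000000000000000000000000000000100020002) (nat_lit 0x5500) (nat_lit 0x10002000200010000000000000000)) (.sup (nat_lit 0x2000200040005000300020000000000000000) (nat_lit 0x20000000000000000000000000001000400080006))) (.non (nat_lit 0) (nat_lit 5) (nat_lit 0x155144)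 (nat_lit 0x20003000200040003000000020001000000010000))) (.non (nat_lit 0) (nat_lit 5) (nat_lit 0x155144) (nat_lit 0x20002000300040003000000020001000000010000))) (.non (nat_lit 0) (nat_lit 5) (nat_lit 0x155000) (nat_lit 0x10001000100020001000000000000000000000000))) (.non (nat_lit 0) (nat_lit 5) (nat_lit 0x155100) (nat_lit 0x10001000100020002000000010000000000000000))) (.non (nat_lit 0) (nat_lit 5) (nat_lit 0x155140) (nat_lit 0x10001000100020002000000020001000000000000))) (.non (nat_lit 0) (nat_lit 5) (nat_lit 0x155150) (nat_lit 0x10001000100020002000000020002000100000000))) (.non (nat_lit 0) (nat_lit 5) (nat_lit 0x100014) (nat_lit 0x10000000000000000000000000000000100010000))) (.non (nat_lit 2) (nat_lit 5) (nat_lit 0x100005) (nat_lit 0x10000000000000000000000000000000000010001))))) (.non (nat_lit 0) (nat_lit 5) (nat_lit 0xaa100) (nat_lit 0x1000100020002000000020000000000000000))) (.non (nat_lit 0) (nat_lit 5) (nat_lit 0xaa240) (nat_lit 0x1000100020002000000020002000000000000))) (.split (nat_lit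 0xa) (nat_lit 1) (.split (nat_lit 0xa) (nat_lit 2) (.split (nat_lit 0xa) (nat_lit 3) (.split (nat_lit 0xa) (nat_lit 4) (.split (nat_lit 0xa) (nat_lit 5) (.split (nat_lit 0xa) (nat_lit 6) (.split (nat_lit 0xa) (nat_lit 7) (.split (nat_lit 0xa) (nat_lit 8) (.split (nat_lit 0xa) (nat_lit 9) (.unj (nat_lit 0x100015) (nat_lit 0x10000000000000000000000000000000100020002) (nat_lit 0x5500) (nat_lit 0x10002000200010000000000000000)) (.non (nat_lit 0) (nat_lit 5) (nat_lit 0x155154) (nat_lit 0x20004000300060005000000040003000200010000))) (.non (nat_lit 0) (nat_lit 5) (nat_lit 0x155154) (nat_lit 0x20003000400060005000000040003000200010000))) (.non (nat_lit 0) (nat_lit 5) (nat_lit 0x155000) (nat_lit 0x10001000100020001000000000000000000000000))) (.star (nat_lit 0xa) (nat_lit 0) (nat_lit 6))) (.star (nat_lit 0xa) (nat_lit 0) (nat_lit 5))) (.non (nat_lit 0) (nat_lit 5) (nat_lit 0x155140) (nat_lit 0x10001000100020002000000020001000000000000))) (.non (nat_lit 0) (nat_lit 5) (nat_lit 0x155150) (nat_lit 0x10001000100020002000000020002000100000000)))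 (.non (nat_lit 0) (nat_lit 5) (nat_lit 0x155154) (nat_lit 0x10001000100020002000000020002000200010000))) (.non (nat_lit 2) (nat_lit 5) (nat_lit 0x100005) (nat_lit 0x10000000000000000000000000000000000010001))))

noncomputable def t1599_5 : Tr := (.ex (nat_lit 0xa) (.ex (nat_lit 0xb) (.split (nat_lit 0xa) (nat_lit 5) (.split (nat_lit 0xb) (nat_lit 0xa) (.pd (.cons (nat_lit 4) (nat_lit 7) (nat_lit 0) (nat_lit 0xa59805502100) (nat_lit 0xf423fb71aef423ff423f00000f423f02f7a00000f423fb71aea2c2804737) .nil) (.leaf (.cons (nat_lit 0x1500) (nat_lit 0x1000100010000000000000000) (.cons (nat_lit 0x105400) (nat_lit 0x10000000000010002000200000000000000000000) .nil)) .nil)) (.leaf (.cons (nat_lit 0x501400) (nat_lit 0x100010000000000000001000100000000000000000000) .nil) .nil)) (.non (nat_lit 0) (nat_lit 6) (nat_lit 0xa00540) (nat_lit 0x100020000000000000000000300020001000000000000))) (.split (nat_lit 0xc) (nat_lit 0) (.split (nat_lit 0xc) (nat_lit 1) (.split (nat_lit 0xc) (nat_lit 2) (.split (nat_lit 0xc) (nat_lit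 3) (.split (nat_lit 0xc) (nat_lit 4) (.split (nat_lit 0xc) (nat_lit 5) (.split (nat_lit 0xc) (nat_lit 6) (.split (nat_lit 0xc) (nat_lit 7) (.split (nat_lit 0xc) (nat_lit 8) (.split (nat_lit 0xc) (nat_lit 9) (.split (nat_lit 0xc) (nat_lit 0xa) (.leaf (.cons (nat_lit 0x1501400) (nat_lit 0x1000200030000000000000003000400000000000000000000) .nil) .nil) (.non (nat_lit 0) (nat_lit 5) (nat_lit 0x1500000) (nat_lit 0x1000100010000000000000000000000000000000000000000))) (.non (nat_lit 0) (nat_lit 5) (nat_lit 0x1455140) (nat_lit 0x2000100000003000200040003000000020001000000000000))) (.non (nat_lit 0) (nat_lit 5) (nat_lit 0x1455140) (nat_lit 0x2000100000002000300040003000000020001000000000000))) (.non (nat_lit 0) (nat_lit 5) (nat_lit 0x1055000) (nat_lit 0x1000000000001000100020001000000000000000000000000))) (.non (nat_lit 0) (nat_lit 5) (nat_lit 0x1055100) (nat_lit 0x1000000000001000100020002000000010000000000000000))) (.non (nat_lit 0) (nat_lit 6) (nat_lit 0x1500400) (nat_lit 0x1000100010000000000000000000100000000000000000000)))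 (.non (nat_lit 0) (nat_lit 5) (nat_lit 0x1545140) (nat_lit 0x3000200010001000000020003000000040002000000000000))) (.non (nat_lit 0) (nat_lit 5) (nat_lit 0x1505150) (nat_lit 0x3000200010000000000010002000000030004000200000000))) (.non (nat_lit 0) (nat_lit 5) (nat_lit 0x1501154) (nat_lit 0x3000200010000000000000001000000020003000400020000))) (.non (nat_lit 0) (nat_lit 6) (nat_lit 0x1500554) (nat_lit 0x1000100010000000000000000000100010001000100010000))) (.non (nat_lit 2) (nat_lit 5) (nat_lit 0x1500005) (nat_lit 0x3000200010000000000000000000000000000000000030004)))) (.split (nat_lit 0xc) (nat_lit 0) (.split (nat_lit 0xc) (nat_lit 1) (.split (nat_lit 0xc) (nat_lit 2) (.split (nat_lit 0xc) (nat_lit 3) (.split (nat_lit 0xc) (nat_lit 4) (.split (nat_lit 0xc) (nat_lit 5) (.split (nat_lit 0xc) (nat_lit 6) (.split (nat_lit 0xc) (nat_lit 7) (.split (nat_lit 0xc) (nat_lit 8) (.split (nat_lit 0xc) (nat_lit 9) (.split (nat_lit 0xc) (nat_lit 0xb) (.leaf (.cons (nat_lit 0x1501400) (nat_lit 0x1000100020000000000000002000200000000000000000000)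 .nil) .nil) (.non (nat_lit 0) (nat_lit 5) (nat_lit 0x1500000) (nat_lit 0x1000100010000000000000000000000000000000000000000))) (.non (nat_lit 0) (nat_lit 5) (nat_lit 0x1155140) (nat_lit 0x2000000010003000200040003000000020001000000000000))) (.non (nat_lit 0) (nat_lit 5) (nat_lit 0x1155140) (nat_lit 0x2000000010002000300040003000000020001000000000000))) (.non (nat_lit 0) (nat_lit 5) (nat_lit 0x1055000) (nat_lit 0x1000000000001000100020001000000000000000000000000))) (.non (nat_lit 0) (nat_lit 5) (nat_lit 0x1055100) (nat_lit 0x1000000000001000100020002000000010000000000000000))) (.non (nat_lit 0) (nat_lit 6) (nat_lit 0x1100400) (nat_lit 0x1000000010000000000000000000100000000000000000000))) (.non (nat_lit 0) (nat_lit 5) (nat_lit 0x1545140) (nat_lit 0x3000100020001000000020003000000040002000000000000))) (.non (nat_lit 0) (nat_lit 5) (nat_lit 0x1505150) (nat_lit 0x3000100020000000000010002000000030004000200000000))) (.non (nat_lit 0) (nat_lit 5) (nat_lit 0x1501154) (nat_lit 0x3000100020000000000000001000000020003000400020000)))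 (.non (nat_lit 0) (nat_lit 6) (nat_lit 0x1100554) (nat_lit 0x1000000010000000000000000000100010001000100010000))) (.non (nat_lit 2) (nat_lit 5) (nat_lit 0x1500005) (nat_lit 0x3000100020000000000000000000000000000000000030004))))

noncomputable def t1599_6 : Tr := (.ex (nat_lit 5) (.ex (nat_lit 0xa) (.split (nat_lit 0xa) (nat_lit 5) (.pd (.cons (nat_lit 4) (nat_lit 7) (nat_lit 0) (nat_lit 0x59805502100) (nat_lit 0xf423ff423ff423f00000f423f1750000000f423fb71aea2c2804737) .nil) (.leaf (.cons (nat_lit 0x1500) (nat_lit 0x1000100010000000000000000) (.cons (nat_lit 0x105400) (nat_lit 0x10000000000010002000200000000000000000000) .nil)) .nil)) (.leaf (.cons (nat_lit 0x101400) (nat_lit 0x10000000000000001000100000000000000000000) .nil) .nil)) (.split (nat_lit 0xb) (nat_lit 0) (.split (nat_lit 0xb) (nat_lit 1) (.split (nat_lit 0xb) (nat_lit 2) (.split (nat_lit 0xb) (nat_lit 3) (.split (nat_lit 0xb) (nat_lit 4) (.split (nat_lit 0xb) (nat_lit 5) (.split (nat_lit 0xb) (nat_lit 6) (.split (nat_lit 0xb) (nat_lit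 7) (.split (nat_lit 0xb) (nat_lit 8) (.split (nat_lit 0xb) (nat_lit 9) t1599_5 (.non (nat_lit 0) (nat_lit 5) (nat_lit 0x555140) (nat_lit 0x200010003000200040003000000020001000000000000))) (.non (nat_lit 0) (nat_lit 5) (nat_lit 0x555140) (nat_lit 0x200010002000300040003000000020001000000000000))) (.non (nat_lit 0) (nat_lit 5) (nat_lit 0x455000) (nat_lit 0x100000001000100020001000000000000000000000000))) (.non (nat_lit 0) (nat_lit 5) (nat_lit 0x455100) (nat_lit 0x100000001000100020002000000010000000000000000))) (.non (nat_lit 0) (nat_lit 6) (nat_lit 0x500400) (nat_lit 0x100010000000000000000000100000000000000000000))) (.non (nat_lit 0) (nat_lit 5) (nat_lit 0x455140) (nat_lit 0x100000001000100020002000000020001000000000000))) (.non (nat_lit 0) (nat_lit 5) (nat_lit 0x455150) (nat_lit 0x100000001000100020002000000020002000100000000))) (.non (nat_lit 0) (nat_lit 5) (nat_lit 0x545154) (nat_lit 0x400020001000000020003000000040005000600030000))) (.non (nat_lit 0) (nat_lit 6) (nat_lit 0x500554) (nat_lit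 0x100010000000000000000000100010001000100010000))) (.non (nat_lit 2) (nat_lit 6) (nat_lit 0x500405) (nat_lit 0x300020000000000000000000100000000000000030004)))) (.split (nat_lit 0xb) (nat_lit 0) (.split (nat_lit 0xb) (nat_lit 1) (.split (nat_lit 0xb) (nat_lit 2) (.split (nat_lit 0xb) (nat_lit 3) (.split (nat_lit 0xb) (nat_lit 4) (.split (nat_lit 0xb) (nat_lit 6) (.split (nat_lit 0xb) (nat_lit 7) (.split (nat_lit 0xb) (nat_lit 8) (.split (nat_lit 0xb) (nat_lit 9) (.split (nat_lit 0xb) (nat_lit 0xa) (.leaf (.cons (nat_lit 0x501400) (nat_lit 0x100010000000000000002000200000000000000000000) .nil) .nil) (.non (nat_lit 0) (nat_lit 6) (nat_lit 0x500400) (nat_lit 0x100010000000000000000000100000000000000000000))) (.non (nat_lit 0) (nat_lit 5) (nat_lit 0x455154) (nat_lit 0x200000004000300060005000000040003000200010000))) (.non (nat_lit 0) (nat_lit 5) (nat_lit 0x455154) (nat_lit 0x200000003000400060005000000040003000200010000))) (.non (nat_lit 0) (nat_lit 5) (nat_lit 0x455000) (nat_lit 0x100000001000100020001000000000000000000000000)))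 (.non (nat_lit 0) (nat_lit 5) (nat_lit 0x455100) (nat_lit 0x100000001000100020002000000010000000000000000))) (.non (nat_lit 0) (nat_lit 5) (nat_lit 0x455140) (nat_lit 0x100000001000100020002000000020001000000000000))) (.non (nat_lit 0) (nat_lit 5) (nat_lit 0x455150) (nat_lit 0x100000001000100020002000000020002000100000000))) (.star (nat_lit 0xb) (nat_lit 2) (nat_lit 5))) (.non (nat_lit 0) (nat_lit 6) (nat_lit 0x400554) (nat_lit 0x100000000000000000000000100010001000100010000))) (.star (nat_lit 0xb) (nat_lit 0) (nat_lit 5))))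

noncomputable def t1599_7 : Tr := (.ex (nat_lit 1) (.pd (.cons (nat_lit 3) (nat_lit 5) (nat_lit 0) (nat_lit 0x7764040100) (nat_lit 0xf423ff423f7a11d7a11b000007a11900000f423fb71ae1f156) (.cons (nat_lit 3) (nat_lit 6) (nat_lit 0) (nat_lit 0x7770440100) (nat_lit 0xf423ff423f7a11d00000f423fb71ae00000f423fb71ae1f156) (.cons (nat_lit 4) (nat_lit 5) (nat_lit 0) (nat_lit 0x7766002100) (nat_lit 0xf423ff423f7a11d7a11b0000000000f423fb71aea2c2804737) (.cons (nat_lit 4) (nat_lit 6) (nat_lit 0) (nat_lit 0x7770502100) (nat_lit 0xf423ff423f7a11d00000f423f00000f423fb71aea2c2804737) .nil)))) (.ex (nat_lit 5) (.pd (.cons (nat_lit 4) (nat_lit 7) (nat_lit 0) (nat_lit 0x9805502100) (nat_lit 0xf423ff423f00000f423f5459100000f423fb71aea2c2804737) (.cons (nat_lit 4) (nat_lit 8) (nat_lit 0) (nat_lit 0x7065502100) (nat_lit 0xf423f00000b71aea2c280473700000f423fb71aea2c2804737) (.cons (nat_lit 4) (nat_lit 9) (nat_lit 0) (nat_lit 0x765502100) (nat_lit 0xf423fb71aea2c280473700000f423fb71aea2c2804737) .nil))) (.leaf (.cons (nat_lit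 0x1500) (nat_lit 0x1000100010000000000000000) .nil) .nil)) (.split (nat_lit 0xa) (nat_lit 0) (.split (nat_lit 0xa) (nat_lit 1) (.split (nat_lit 0xa) (nat_lit 2) (.split (nat_lit 0xa) (nat_lit 3) (.split (nat_lit 0xa) (nat_lit 4) (.split (nat_lit 0xa) (nat_lit 6) (.split (nat_lit 0xa) (nat_lit 7) (.split (nat_lit 0xa) (nat_lit 8) (.split (nat_lit 0xa) (nat_lit 9) t1599_6 (.non (nat_lit 0) (nat_lit 5) (nat_lit 0x155154) (nat_lit 0x20004000300060005000000040003000200010000))) (.non (nat_lit 0) (nat_lit 5) (nat_lit 0x155154) (nat_lit 0x20003000400060005000000040003000200010000))) (.non (nat_lit 0) (nat_lit 5) (nat_lit 0x155000) (nat_lit 0x10001000100020001000000000000000000000000))) (.non (nat_lit 0) (nat_lit 5) (nat_lit 0x155100) (nat_lit 0x10001000100020002000000010000000000000000))) (.non (nat_lit 0) (nat_lit 5) (nat_lit 0x155140) (nat_lit 0x10001000100020002000000020001000000000000))) (.non (nat_lit 0) (nat_lit 5) (nat_lit 0x155150) (nat_lit 0x10001000100020002000000020002000100000000))) (.star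 (nat_lit 0xa) (nat_lit 2) (nat_lit 5))) (.non (nat_lit 0) (nat_lit 6) (nat_lit 0x100554) (nat_lit 0x10000000000000000000100010001000100010000))) (.star (nat_lit 0xa) (nat_lit 0) (nat_lit 5))))) (.split (nat_lit 0xa) (nat_lit 0) (.split (nat_lit 0xa) (nat_lit 2) (.split (nat_lit 0xa) (nat_lit 3) (.split (nat_lit 0xa) (nat_lit 4) (.split (nat_lit 0xa) (nat_lit 5) (.split (nat_lit 0xa) (nat_lit 6) (.split (nat_lit 0xa) (nat_lit 7) (.split (nat_lit 0xa) (nat_lit 8) (.split (nat_lit 0xa) (nat_lit 9) (.unj (nat_lit 0x1500) (nat_lit 0x1000100010000000000000000) (nat_lit 0x100015) (nat_lit 0x10000000000000000000000000000000100020002)) (.non (nat_lit 0) (nat_lit 5) (nat_lit 0x155144) (nat_lit 0x20003000200040003000000020001000000010000))) (.non (nat_lit 0) (nat_lit 5) (nat_lit 0x155144) (nat_lit 0x20002000300040003000000020001000000010000))) (.non (nat_lit 0) (nat_lit 5) (nat_lit 0x155000) (nat_lit 0x10001000100020001000000000000000000000000))) (.non (nat_lit 0) (nat_lit 5) (nat_lit 0x155100) (nat_lit 0x10001000100020002000000010000000000000000)))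 (.non (nat_lit 0) (nat_lit 6) (nat_lit 0x100554) (nat_lit 0x10000000000000000000100010001000100010000))) (.non (nat_lit 0) (nat_lit 5) (nat_lit 0x155140) (nat_lit 0x10001000100020002000000020001000000000000))) (.non (nat_lit 0) (nat_lit 5) (nat_lit 0x155150) (nat_lit 0x10001000100020002000000020002000100000000))) (.non (nat_lit 0) (nat_lit 5) (nat_lit 0x100014) (nat_lit 0x10000000000000000000000000000000100010000))) (.non (nat_lit 2) (nat_lit 5) (nat_lit 0x100005) (nat_lit 0x10000000000000000000000000000000000010001))))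

noncomputable def t1599_8 : Tr := (.st (nat_lit 5) (nat_lit 0) (nat_lit 6) (nat_lit 0x950) (nat_lit 0x200030002000100000000) (nat_lit 2) (nat_lit 1) (.ex (nat_lit 1) (.pd (.cons (nat_lit 3) (nat_lit 5) (nat_lit 0) (nat_lit 0x7764040100) (nat_lit 0xf423ff423f7a11d7a11b000007a11900000f423fb71ae1f156) (.cons (nat_lit 3) (nat_lit 6) (nat_lit 0) (nat_lit 0x7770440100) (nat_lit 0xf423ff423f7a11d00000f423f7a11e00000f423fb71ae1f156) (.cons (nat_lit 4) (nat_lit 5) (nat_lit 0) (nat_lit 0x7766002100) (nat_lit 0xf423ff423f7a11d7a11b0000000000f423fb71aea2c2804737) (.cons (nat_lit 4) (nat_lit 6) (nat_lit 0) (nat_lit 0x7770502100) (nat_lit 0xf423ff423f7a11d00000f423f00000f423fb71aea2c2804737) (.cons (nat_lit 4) (nat_lit 7) (nat_lit 0) (nat_lit 0x9805502100) (nat_lit 0xf423ff423f00000f423f5459100000f423fb71aea2c2804737) (.cons (nat_lit 4) (nat_lit 8) (nat_lit 0) (nat_lit 0x7065502100) (nat_lit 0xf423f00000b71aea2c280473700000f423fb71aea2c2804737) (.cons (nat_lit 4) (nat_lit 9) (nat_lit 0) (nat_lit 0x765502100)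 (nat_lit 0xf423fb71aea2c280473700000f423fb71aea2c2804737) .nil))))))) (.leaf (.cons (nat_lit 0x1500) (nat_lit 0x1000100010000000000000000) .nil) .nil)) (.split (nat_lit 0xa) (nat_lit 0) (.split (nat_lit 0xa) (nat_lit 2) (.split (nat_lit 0xa) (nat_lit 3) (.split (nat_lit 0xa) (nat_lit 4) (.split (nat_lit 0xa) (nat_lit 5) (.split (nat_lit 0xa) (nat_lit 6) (.split (nat_lit 0xa) (nat_lit 7) (.split (nat_lit 0xa) (nat_lit 8) (.split (nat_lit 0xa) (nat_lit 9) (.unj (nat_lit 0x1500) (nat_lit 0x1000100010000000000000000) (nat_lit 0x100015) (nat_lit 0x10000000000000000000000000000000100020002)) (.non (nat_lit 0) (nat_lit 5) (nat_lit 0x155144) (nat_lit 0x20003000200040003000000020001000000010000))) (.non (nat_lit 0) (nat_lit 5) (nat_lit 0x155144) (nat_lit 0x20002000300040003000000020001000000010000))) (.non (nat_lit 0) (nat_lit 5) (nat_lit 0x155000) (nat_lit 0x10001000100020001000000000000000000000000))) (.non (nat_lit 0) (nat_lit 5) (nat_lit 0x155100) (nat_lit 0x10001000100020002000000010000000000000000)))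 (.non (nat_lit 0) (nat_lit 6) (nat_lit 0x200950) (nat_lit 0x10000000000000000000200030002000100000000))) (.non (nat_lit 0) (nat_lit 5) (nat_lit 0x155140) (nat_lit 0x10001000100020002000000020001000000000000))) (.non (nat_lit 0) (nat_lit 5) (nat_lit 0x155150) (nat_lit 0x10001000100020002000000020002000100000000))) (.non (nat_lit 0) (nat_lit 5) (nat_lit 0x100014) (nat_lit 0x10000000000000000000000000000000100010000))) (.non (nat_lit 2) (nat_lit 5) (nat_lit 0x100005) (nat_lit 0x10000000000000000000000000000000000010001)))))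

noncomputable def t1599_9 : Tr := (.st (nat_lit 8) (nat_lit 0) (nat_lit 5) (nat_lit 0x55154) (nat_lit 0x3000400060005000000040003000200010000) (nat_lit 1) (nat_lit 2) (.st (nat_lit 9) (nat_lit 0) (nat_lit 5) (nat_lit 0x55154) (nat_lit 0x4000300060005000000040003000200010000) (nat_lit 1) (nat_lit 2) (.ex (nat_lit 0) (.split (nat_lit 4) (nat_lit 3) (.split (nat_lit 6) (nat_lit 4) (.split (nat_lit 5) (nat_lit 4) (.pd (.cons (nat_lit 1) (nat_lit 5) (nat_lit 0) (nat_lit 0x7764032200) (nat_lit 0xf423ff423f7a11d7a11b000007a1197a1177a11500000f423f) (.cons (nat_lit 1) (nat_lit 6) (nat_lit 0) (nat_lit 0x7770432200) (nat_lit 0xf423ff423f7a11d00000f423fb71aea2c289896500000f423f) .nil)) t1599_7) (.split (nat_lit 5) (nat_lit 4) (.pd (.cons (nat_lit 1) (nat_lit 5) (nat_lit 0) (nat_lit 0x7764032200) (nat_lit 0xf423ff423f7a11d7a11b000007a1197a1177a11500000f423f) (.cons (nat_lit 1) (nat_lit 6) (nat_lit 0) (nat_lit 0x7770432200) (nat_lit 0xf423ff423f7a11d00000f423f7a11e7a11c7a11a00000f423f) .nil)) t1599_8) (.non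 (nat_lit 0) (nat_lit 6) (nat_lit 0x554) (nat_lit 0x300040003000200010000)))) (.non (nat_lit 0) (nat_lit 5) (nat_lit 0xaa100) (nat_lit 0x1000100020002000000020000000000000000))) (.non (nat_lit 0) (nat_lit 5) (nat_lit 0xaa240) (nat_lit 0x1000100020002000000020002000000000000))) (.split (nat_lit 0xa) (nat_lit 1) (.split (nat_lit 0xa) (nat_lit 2) (.split (nat_lit 0xa) (nat_lit 3) (.split (nat_lit 0xa) (nat_lit 4) (.split (nat_lit 0xa) (nat_lit 5) (.split (nat_lit 0xa) (nat_lit 6) (.split (nat_lit 0xa) (nat_lit 7) (.split (nat_lit 0xa) (nat_lit 8) (.split (nat_lit 0xa) (nat_lit 9) (.unj (nat_lit 0x1500) (nat_lit 0x1000100010000000000000000) (nat_lit 0x100015) (nat_lit 0x10000000000000000000000000000000100020002)) (.non (nat_lit 0) (nat_lit 5) (nat_lit 0x155154) (nat_lit 0x20004000300060005000000040003000200010000))) (.non (nat_lit 0) (nat_lit 5) (nat_lit 0x155154) (nat_lit 0x20003000400060005000000040003000200010000))) (.non (nat_lit 0) (nat_lit 5) (nat_lit 0x155000) (nat_lit 0x10001000100020001000000000000000000000000)))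 (.star (nat_lit 0xa) (nat_lit 0) (nat_lit 6))) (.star (nat_lit 0xa) (nat_lit 0) (nat_lit 5))) (.non (nat_lit 0) (nat_lit 5) (nat_lit 0x155140) (nat_lit 0x10001000100020002000000020001000000000000))) (.non (nat_lit 0) (nat_lit 5) (nat_lit 0x155150) (nat_lit 0x10001000100020002000000020002000100000000))) (.non (nat_lit 0) (nat_lit 5) (nat_lit 0x155154) (nat_lit 0x10001000100020002000000020002000200010000))) (.non (nat_lit 2) (nat_lit 5) (nat_lit 0x100005) (nat_lit 0x10000000000000000000000000000000000010001))))))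

noncomputable def t1599_10 : Tr := (.split (nat_lit 6) (nat_lit 4) (.split (nat_lit 5) (nat_lit 4) .uj (.split (nat_lit 5) (nat_lit 4) (.sup (nat_lit 0x100040007000a0008) (nat_lit 0x50005000a000a000600000000000000000000)) (.st (nat_lit 2) (nat_lit 0) (nat_lit 6) (nat_lit 0x954) (nat_lit 0x100020002000200010000) (nat_lit 1) (nat_lit 1) (.st (nat_lit 3) (nat_lit 0) (nat_lit 6) (nat_lit 0x950) (nat_lit 0x100020002000100000000) (nat_lit 1) (nat_lit 1) (.st (nat_lit 4) (nat_lit 0) (nat_lit 6) (nat_lit 0x940) (nat_lit 0x100020001000000000000) (nat_lit 1) (nat_lit 1) (.st (nat_lit 5) (nat_lit 0) (nat_lit 6) (nat_lit 0x950) (nat_lit 0x200030002000100000000) (nat_lit 2) (nat_lit 1) (.ex (nat_lit 0) (.split (nat_lit 4) (nat_lit 3) (.split (nat_lit 5) (nat_lit 4) (.pd (.cons (nat_lit 1) (nat_lit 5) (nat_lit 0) (nat_lit 0x7766032200) (nat_lit 0xf423ff423f7a11d7a11b00000f423fb71aea2c2800000f423f) (.cons (nat_lit 1) (nat_lit 6) (nat_lit 0) (nat_lit 0x7770432200) (nat_lit 0xf423ff423f7a11d00000f423f7a11e7a11c7a11a00000f423f)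 .nil)) t1599_2) (.non (nat_lit 0) (nat_lit 6) (nat_lit 0x554) (nat_lit 0x300040003000200010000))) (.non (nat_lit 0) (nat_lit 6) (nat_lit 0x640) (nat_lit 0x100010001000000000000))) (.split (nat_lit 0xa) (nat_lit 1) (.split (nat_lit 0xa) (nat_lit 2) (.split (nat_lit 0xa) (nat_lit 3) (.split (nat_lit 0xa) (nat_lit 4) (.split (nat_lit 0xa) (nat_lit 5) (.split (nat_lit 0xa) (nat_lit 6) (.split (nat_lit 0xa) (nat_lit 7) (.split (nat_lit 0xa) (nat_lit 8) (.split (nat_lit 0xa) (nat_lit 9) (.unj (nat_lit 0x1500) (nat_lit 0x1000100010000000000000000) (nat_lit 0x100015) (nat_lit 0x10000000000000000000000000000000100020002)) (.non (nat_lit 2) (nat_lit 5) (nat_lit 0x144005) (nat_lit 0x30002000000010000000000000000000000030004))) (.non (nat_lit 2) (nat_lit 5) (nat_lit 0x114005) (nat_lit 0x30000000200010000000000000000000000030004))) (.non (nat_lit 0) (nat_lit 5) (nat_lit 0x155000) (nat_lit 0x10001000100020001000000000000000000000000))) (.star (nat_lit 0xa) (nat_lit 0) (nat_lit 6))) (.star (nat_lit 0xa) (nat_lit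 0) (nat_lit 5))) (.non (nat_lit 0) (nat_lit 6) (nat_lit 0x100940) (nat_lit 0x10000000000000000000100020001000000000000))) (.non (nat_lit 0) (nat_lit 6) (nat_lit 0x100950) (nat_lit 0x10000000000000000000100020002000100000000))) (.non (nat_lit 0) (nat_lit 6) (nat_lit 0x100954) (nat_lit 0x10000000000000000000100020002000200010000))) (.non (nat_lit 2) (nat_lit 5) (nat_lit 0x100005) (nat_lit 0x10000000000000000000000000000000000010001)))))))))) (.split (nat_lit 5) (nat_lit 4) (.st (nat_lit 2) (nat_lit 0) (nat_lit 5) (nat_lit 0x55154) (nat_lit 0x1000100020002000000020002000200010000) (nat_lit 1) (nat_lit 1) (.st (nat_lit 3) (nat_lit 0) (nat_lit 5) (nat_lit 0x55150) (nat_lit 0x1000100020002000000020002000100000000) (nat_lit 1) (nat_lit 1) (.st (nat_lit 4) (nat_lit 0) (nat_lit 5) (nat_lit 0x55140) (nat_lit 0x1000100020002000000020001000000000000) (nat_lit 1) (nat_lit 1) (.st (nat_lit 6) (nat_lit 0) (nat_lit 5) (nat_lit 0x55100) (nat_lit 0x1000100020002000000010000000000000000) (nat_lit 1) (nat_lit 1) (.st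 (nat_lit 8) (nat_lit 0) (nat_lit 5) (nat_lit 0x55154) (nat_lit 0x3000400060005000000040003000200010000) (nat_lit 1) (nat_lit 2) (.st (nat_lit 9) (nat_lit 0) (nat_lit 5) (nat_lit 0x55154) (nat_lit 0x4000300060005000000040003000200010000) (nat_lit 1) (nat_lit 2) t1599_4)))))) (.st (nat_lit 2) (nat_lit 0) (nat_lit 5) (nat_lit 0x55154) (nat_lit 0x1000100020002000000020002000200010000) (nat_lit 1) (nat_lit 1) (.st (nat_lit 3) (nat_lit 0) (nat_lit 5) (nat_lit 0x55150) (nat_lit 0x1000100020002000000020002000100000000) (nat_lit 1) (nat_lit 1) (.st (nat_lit 4) (nat_lit 0) (nat_lit 5) (nat_lit 0x55140) (nat_lit 0x1000100020002000000020001000000000000) (nat_lit 1) (nat_lit 1) (.st (nat_lit 6) (nat_lit 0) (nat_lit 5) (nat_lit 0x55100) (nat_lit 0x1000100020002000000010000000000000000) (nat_lit 1) (nat_lit 1) t1599_9))))))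

noncomputable def t1599 : Tr := (.split (nat_lit 9) (nat_lit 0) (.split (nat_lit 9) (nat_lit 1) (.split (nat_lit 9) (nat_lit 2) (.split (nat_lit 9) (nat_lit 3) (.split (nat_lit 8) (nat_lit 0) (.split (nat_lit 8) (nat_lit 1) (.split (nat_lit 8) (nat_lit 2) (.split (nat_lit 8) (nat_lit 3) (.split (nat_lit 9) (nat_lit 4) (.split (nat_lit 8) (nat_lit 4) t1599_10 (.split (nat_lit 6) (nat_lit 4) (.split (nat_lit 5) (nat_lit 4) (.sup (nat_lit 0x100040007000a0008) (nat_lit 0x300010007000a000800000000000000000000)) (.non (nat_lit 0) (nat_lit 6) (nat_lit 0x54554) (nat_lit 0x1000300020000000200040003000200010000))) (.non (nat_lit 0) (nat_lit 5) (nat_lit 0x15100) (nat_lit 0x100010001000000010000000000000000)))) (.split (nat_lit 8) (nat_lit 4) (.split (nat_lit 6) (nat_lit 4) (.split (nat_lit 5) (nat_lit 4) (.sup (nat_lit 0x100040007000a0008) (nat_lit 0x100030007000a000800000000000000000000)) (.non (nat_lit 0) (nat_lit 6) (nat_lit 0x54554) (nat_lit 0x3000100020000000200040003000200010000))) (.non (nat_lit 0)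 (nat_lit 5) (nat_lit 0x45100) (nat_lit 0x1000000010001000000010000000000000000))) (.non (nat_lit 0) (nat_lit 5) (nat_lit 0x54100) (nat_lit 0x1000100010000000000010000000000000000)))) (.non (nat_lit 0) (nat_lit 5) (nat_lit 0x55150) (nat_lit 0x1000200020001000000010002000100000000))) (.non (nat_lit 0) (nat_lit 5) (nat_lit 0x55054) (nat_lit 0x1000200020001000000000001000200010000))) (.non (nat_lit 2) (nat_lit 5) (nat_lit 0x54005) (nat_lit 0x1000300020000000000000000000000040003))) (.non (nat_lit 2) (nat_lit 5) (nat_lit 0x54005) (nat_lit 0x1000300020000000000000000000000030004))) (.non (nat_lit 0) (nat_lit 5) (nat_lit 0x55150) (nat_lit 0x2000100020001000000010002000100000000))) (.non (nat_lit 0) (nat_lit 5) (nat_lit 0x55054) (nat_lit 0x2000100020001000000000001000200010000))) (.non (nat_lit 2) (nat_lit 5) (nat_lit 0x54005) (nat_lit 0x3000100020000000000000000000000040003))) (.non (nat_lit 2) (nat_lit 5) (nat_lit 0x54005) (nat_lit 0x3000100020000000000000000000000030004)))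

noncomputable def t1602_1 : Tr := (.split (nat_lit 6) (nat_lit 4) (.split (nat_lit 5) (nat_lit 1) (.split (nat_lit 5) (nat_lit 3) (.split (nat_lit 5) (nat_lit 4) (.split (nat_lit 9) (nat_lit 3) (.split (nat_lit 9) (nat_lit 4) (.split (nat_lit 8) (nat_lit 3) (.split (nat_lit 8) (nat_lit 4) (.split (nat_lit 7) (nat_lit 4) .uj (.split (nat_lit 7) (nat_lit 4) (.sup (nat_lit 0x100040007000a0008) (nat_lit 0x300030007000a000800000000000000000000)) (.non (nat_lit 0) (nat_lit 6) (nat_lit 0xa8100) (nat_lit 0x1000100020000000000020000000000000000)))) (.split (nat_lit 7) (nat_lit 4) (.sup (nat_lit 0x100040007000a0008) (nat_lit 0x300010007000a000800000000000000000000)) (.non (nat_lit 0) (nat_lit 6) (nat_lit 0x14100) (nat_lit 0x100010000000000010000000000000000)))) (.split (nat_lit 8) (nat_lit 4) (.split (nat_lit 7) (nat_lit 4) (.sup (nat_lit 0x40008000e00140010) (nat_lit 0x70001000e0014001000000000000000000000)) (.non (nat_lit 0) (nat_lit 6) (nat_lit 0x14140) (nat_lit 0x100010000000000010001000000000000)))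 (.non (nat_lit 0) (nat_lit 6) (nat_lit 0x10140) (nat_lit 0x100000000000000010001000000000000)))) (.split (nat_lit 8) (nat_lit 3) (.split (nat_lit 8) (nat_lit 4) (.split (nat_lit 7) (nat_lit 4) (.sup (nat_lit 0x100040007000a0008) (nat_lit 0x100030007000a000800000000000000000000)) (.non (nat_lit 0) (nat_lit 6) (nat_lit 0x44100) (nat_lit 0x1000000010000000000010000000000000000))) (.non (nat_lit 0) (nat_lit 6) (nat_lit 0x54100) (nat_lit 0x1000100010000000000010000000000000000))) (.non (nat_lit 0) (nat_lit 6) (nat_lit 0x54140) (nat_lit 0x1000100010000000000010001000000000000)))) (.split (nat_lit 9) (nat_lit 4) (.split (nat_lit 8) (nat_lit 3) (.split (nat_lit 8) (nat_lit 4) (.split (nat_lit 7) (nat_lit 4) (.sup (nat_lit 0x40008000e00140010) (nat_lit 0x10007000e0014001000000000000000000000)) (.non (nat_lit 0) (nat_lit 6) (nat_lit 0x44140) (nat_lit 0x1000000010000000000010001000000000000))) (.non (nat_lit 0) (nat_lit 6) (nat_lit 0x54140) (nat_lit 0x1000100010000000000010001000000000000))) (.non (nat_lit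 0) (nat_lit 6) (nat_lit 0x54040) (nat_lit 0x1000100010000000000000001000000000000))) (.non (nat_lit 0) (nat_lit 6) (nat_lit 0x40140) (nat_lit 0x1000000000000000000010001000000000000)))) (.non (nat_lit 0) (nat_lit 7) (nat_lit 0x1550) (nat_lit 0x3000400030002000100000000))) (.non (nat_lit 0) (nat_lit 7) (nat_lit 0x1550) (nat_lit 0x2000200010002000100000000))) (.non (nat_lit 0) (nat_lit 7) (nat_lit 0x1454) (nat_lit 0x3000400000001000200030000))) (.non (nat_lit 0) (nat_lit 7) (nat_lit 0x1550) (nat_lit 0x4000300030002000100000000)))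

noncomputable def t1602 : Tr := (.split (nat_lit 9) (nat_lit 1) (.split (nat_lit 8) (nat_lit 1) t1602_1 (.non (nat_lit 2) (nat_lit 6) (nat_lit 0x54005) (nat_lit 0x1000300020000000000000000000000040003))) (.non (nat_lit 2) (nat_lit 6) (nat_lit 0x54005) (nat_lit 0x3000100020000000000000000000000040003)))

noncomputable def t1606_1 : Tr := (.pd (.cons (nat_lit 1) (nat_lit 5) (nat_lit 0) (nat_lit 0x8764032200) (nat_lit 0xf423fb71aea2c289896500000927bd8e6a28b82100000f423f) (.cons (nat_lit 1) (nat_lit 6) (nat_lit 0) (nat_lit 0x5980432200) (nat_lit 0xa2c28b71aef423f0000098965927bd8e6a28b82100000f423f) (.cons (nat_lit 3) (nat_lit 5) (nat_lit 0) (nat_lit 0x8764040100) (nat_lit 0xf423fb71aea2c289896500000927bd00000f423fb71ae1f156) (.cons (nat_lit 3) (nat_lit 6) (nat_lit 0) (nat_lit 0x5980440100) (nat_lit 0xa2c28b71aef423f0000098965927bd00000f423fb71ae1f156) (.cons (nat_lit 4) (nat_lit 5) (nat_lit 0) (nat_lit 0x8766002100) (nat_lit 0xf423fb71aea2c28989650000000000f423fb71aea2c2804737) (.cons (nat_lit 4)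 (nat_lit 6) (nat_lit 0) (nat_lit 0x5980502100) (nat_lit 0xa2c28b71aef423f000009896500000f423fb71aea2c2804737) (.cons (nat_lit 4) (nat_lit 8) (nat_lit 0) (nat_lit 0x5065502100) (nat_lit 0xf423f00000f423fb71ae1458100000f423fb71aea2c2804737) .nil))))))) (.ex (nat_lit 8) (.pd (.cons (nat_lit 4) (nat_lit 7) (nat_lit 0) (nat_lit 0x5905502100) (nat_lit 0xb71aef423f00000f423f28b0700000f423fb71aea2c2804737) (.cons (nat_lit 4) (nat_lit 9) (nat_lit 0) (nat_lit 0x765502100) (nat_lit 0xf423fb71aea2c283d08b00000f423fb71aea2c2804737) .nil)) (.leaf (.cons (nat_lit 0x1500) (nat_lit 0x1000100010000000000000000) .nil) .nil)) (.split (nat_lit 0xa) (nat_lit 0) (.split (nat_lit 0xa) (nat_lit 1) (.split (nat_lit 0xa) (nat_lit 2) (.split (nat_lit 0xa) (nat_lit 3) (.split (nat_lit 0xa) (nat_lit 4) (.split (nat_lit 0xa) (nat_lit 5) (.split (nat_lit 0xa) (nat_lit 6) (.split (nat_lit 0xa) (nat_lit 7) (.split (nat_lit 0xa) (nat_lit 9) (.sup (nat_lit 0x10006000b0010000d) (nat_lit 0x20002000300020002000200000000000000000000))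 (.non (nat_lit 0) (nat_lit 5) (nat_lit 0x150000) (nat_lit 0x10001000100000000000000000000000000000000))) (.non (nat_lit 0) (nat_lit 5) (nat_lit 0x114000) (nat_lit 0x10000000100010000000000000000000000000000))) (.non (nat_lit 0) (nat_lit 5) (nat_lit 0x115000) (nat_lit 0x10000000100010001000000000000000000000000))) (.non (nat_lit 0) (nat_lit 6) (nat_lit 0x150400) (nat_lit 0x10001000100000000000100000000000000000000))) (.non (nat_lit 0) (nat_lit 5) (nat_lit 0x115100) (nat_lit 0x10000000100010001000000010000000000000000))) (.non (nat_lit 0) (nat_lit 5) (nat_lit 0x115140) (nat_lit 0x10000000100010001000000010001000000000000))) (.non (nat_lit 0) (nat_lit 5) (nat_lit 0x115150) (nat_lit 0x10000000100010001000000010001000100000000))) (.non (nat_lit 0) (nat_lit 5) (nat_lit 0x155114) (nat_lit 0x30002000400030002000000010000000100020000))) (.non (nat_lit 2) (nat_lit 5) (nat_lit 0x150005) (nat_lit 0x30001000200000000000000000000000000030004)))))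

noncomputable def t1606_2 : Tr := (.ex (nat_lit 1) (.ex (nat_lit 2) (.split (nat_lit 4) (nat_lit 3) (.split (nat_lit 6) (nat_lit 4) (.split (nat_lit 5) (nat_lit 4) t1606_1 (.non (nat_lit 0) (nat_lit 6) (nat_lit 0xa0940) (nat_lit 0x2000100000000000300040002000000000000))) (.non (nat_lit 0) (nat_lit 5) (nat_lit 0x2a140) (nat_lit 0x100020003000000040002000000000000))) (.non (nat_lit 0) (nat_lit 5) (nat_lit 0xa250) (nat_lit 0x10002000000030004000200000000))) (.split (nat_lit 0xa) (nat_lit 1) (.split (nat_lit 0xa) (nat_lit 3) (.split (nat_lit 0xa) (nat_lit 4) (.split (nat_lit 0xa) (nat_lit 5) (.split (nat_lit 0xa) (nat_lit 6) (.split (nat_lit 0xa) (nat_lit 7) (.split (nat_lit 0xa) (nat_lit 8) (.split (nat_lit 0xa) (nat_lit 9) (.split (nat_lit 0xa) (nat_lit 0) (.unj (nat_lit 0x100055) (nat_lit 0x10000000000000000000000000001000200020002) (nat_lit 0x55400) (nat_lit 0x1000100010001000100000000000000000000)) (.unj (nat_lit 0x1500) (nat_lit 0x1000100010000000000000000) (nat_lit 0x100015) (nat_lit 0x10000000000000000000000000000000100010001)))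 (.non (nat_lit 0) (nat_lit 5) (nat_lit 0x155150) (nat_lit 0x10001000100010001000000010001000100000000))) (.non (nat_lit 0) (nat_lit 5) (nat_lit 0x115150) (nat_lit 0x10000000100010001000000010001000100000000))) (.non (nat_lit 0) (nat_lit 5) (nat_lit 0x155110) (nat_lit 0x20001000200030002000000010000000100000000))) (.star (nat_lit 0xa) (nat_lit 2) (nat_lit 6))) (.star (nat_lit 0xa) (nat_lit 2) (nat_lit 5))) (.non (nat_lit 0) (nat_lit 5) (nat_lit 0x100150) (nat_lit 0x10000000000000000000000010001000100000000))) (.non (nat_lit 0) (nat_lit 5) (nat_lit 0x100050) (nat_lit 0x10000000000000000000000000001000100000000))) (.non (nat_lit 0) (nat_lit 5) (nat_lit 0x100014) (nat_lit 0x10000000000000000000000000000000100010000)))) (.split (nat_lit 0xa) (nat_lit 0) (.split (nat_lit 0xa) (nat_lit 2) (.split (nat_lit 0xa) (nat_lit 3) (.split (nat_lit 0xa) (nat_lit 4) (.split (nat_lit 0xa) (nat_lit 5) (.split (nat_lit 0xa) (nat_lit 6) (.split (nat_lit 0xa) (nat_lit 7) (.split (nat_lit 0xa) (nat_lit 8) (.split (nat_lit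 0xa) (nat_lit 9) (.unj (nat_lit 0x1500) (nat_lit 0x1000100010000000000000000) (nat_lit 0x100015) (nat_lit 0x10000000000000000000000000000000100020002)) (.non (nat_lit 0) (nat_lit 5) (nat_lit 0x155154) (nat_lit 0x10001000100010001000000010001000100010000))) (.non (nat_lit 0) (nat_lit 5) (nat_lit 0x155114) (nat_lit 0x30002000400030002000000010000000100020000))) (.non (nat_lit 0) (nat_lit 5) (nat_lit 0x155104) (nat_lit 0x20001000200030002000000010000000000010000))) (.non (nat_lit 0) (nat_lit 5) (nat_lit 0x155150) (nat_lit 0x20001000200030004000000030002000100000000))) (.non (nat_lit 0) (nat_lit 6) (nat_lit 0x154550) (nat_lit 0x20003000200010000000400030002000100000000))) (.non (nat_lit 0) (nat_lit 5) (nat_lit 0x100154) (nat_lit 0x10000000000000000000000010001000100010000))) (.non (nat_lit 0) (nat_lit 5) (nat_lit 0x100054) (nat_lit 0x10000000000000000000000000001000100010000))) (.non (nat_lit 0) (nat_lit 5) (nat_lit 0x100014) (nat_lit 0x10000000000000000000000000000000100010000))) (.non (nat_lit 2)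 (nat_lit 5) (nat_lit 0x100005) (nat_lit 0x10000000000000000000000000000000000010001))))

noncomputable def t1606_3 : Tr := (.split (nat_lit 6) (nat_lit 4) (.split (nat_lit 5) (nat_lit 4) .uj (.split (nat_lit 5) (nat_lit 4) (.sup (nat_lit 0x100040007000a0008) (nat_lit 0x800090009000a000800000000000000000000)) (.non (nat_lit 0) (nat_lit 6) (nat_lit 0xa0940) (nat_lit 0x2000100000000000300040002000000000000)))) (.split (nat_lit 5) (nat_lit 4) (.split (nat_lit 6) (nat_lit 4) (.sup (nat_lit 0x100040007000a0008) (nat_lit 0x9000900080008000a00000000000000000000)) (.non (nat_lit 0) (nat_lit 5) (nat_lit 0x2a140) (nat_lit 0x100020003000000040002000000000000))) (.st (nat_lit 3) (nat_lit 0) (nat_lit 5) (nat_lit 0x55154) (nat_lit 0x1000200030004000000050006000400020000) (nat_lit 1) (nat_lit 3) (.st (nat_lit 4) (nat_lit 0) (nat_lit 5) (nat_lit 0x15154) (nat_lit 0x100020003000000040003000200010000) (nat_lit 1) (nat_lit 2) (.st (nat_lit 5) (nat_lit 0) (nat_lit 6) (nat_lit 0x54550) (nat_lit 0x3000200010000000400030002000100000000)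 (nat_lit 1) (nat_lit 2) (.st (nat_lit 6) (nat_lit 0) (nat_lit 5) (nat_lit 0x55150) (nat_lit 0x1000200030004000000030002000100000000) (nat_lit 1) (nat_lit 2) (.st (nat_lit 7) (nat_lit 0) (nat_lit 5) (nat_lit 0x55154) (nat_lit 0x2000400060005000000040003000200010000) (nat_lit 1) (nat_lit 3) (.st (nat_lit 9) (nat_lit 0) (nat_lit 6) (nat_lit 0x54554) (nat_lit 0x6000400020000000500040003000200010000) (nat_lit 1) (nat_lit 3) (.ex (nat_lit 0) t1606_2 (.split (nat_lit 0xa) (nat_lit 1) (.split (nat_lit 0xa) (nat_lit 3) (.split (nat_lit 0xa) (nat_lit 4) (.split (nat_lit 0xa) (nat_lit 5) (.split (nat_lit 0xa) (nat_lit 6) (.split (nat_lit 0xa) (nat_lit 7) (.split (nat_lit 0xa) (nat_lit 8) (.split (nat_lit 0xa) (nat_lit 9) (.split (nat_lit 0xa) (nat_lit 2) (.unj (nat_lit 0x1500) (nat_lit 0x1000100010000000000000000) (nat_lit 0x100015) (nat_lit 0x10000000000000000000000000000000100020002)) (.unj (nat_lit 0x1500) (nat_lit 0x1000100010000000000000000) (nat_lit 0x100015) (nat_lit 0x10000000000000000000000000000000100010001)))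 (.non (nat_lit 0) (nat_lit 6) (nat_lit 0x154554) (nat_lit 0x30006000400020000000500040003000200010000))) (.non (nat_lit 2) (nat_lit 5) (nat_lit 0x150005) (nat_lit 0x30001000200000000000000000000000000030004))) (.non (nat_lit 0) (nat_lit 5) (nat_lit 0x155154) (nat_lit 0x30002000400060005000000040003000200010000))) (.star (nat_lit 0xa) (nat_lit 0) (nat_lit 6))) (.star (nat_lit 0xa) (nat_lit 0) (nat_lit 5))) (.non (nat_lit 0) (nat_lit 5) (nat_lit 0x115154) (nat_lit 0x20000000100020003000000040003000200010000))) (.non (nat_lit 0) (nat_lit 5) (nat_lit 0x155154) (nat_lit 0x30001000200030004000000050006000400020000))) (.non (nat_lit 2) (nat_lit 5) (nat_lit 0x100005) (nat_lit 0x10000000000000000000000000000000000010001))))))))))))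

noncomputable def t1606 : Tr := (.split (nat_lit 9) (nat_lit 1) (.split (nat_lit 9) (nat_lit 3) (.split (nat_lit 8) (nat_lit 0) (.split (nat_lit 8) (nat_lit 1) (.split (nat_lit 8) (nat_lit 2) (.split (nat_lit 8) (nat_lit 3) (.split (nat_lit 7) (nat_lit 1) (.split (nat_lit 7) (nat_lit 3) (.split (nat_lit 9) (nat_lit 4) (.split (nat_lit 8) (nat_lit 4) (.split (nat_lit 7) (nat_lit 4) t1606_3 (.split (nat_lit 6) (nat_lit 4) (.split (nat_lit 5) (nat_lit 4) (.sup (nat_lit 0x100040007000a0008) (nat_lit 0x8000500030009000a00000000000000000000)) (.non (nat_lit 0) (nat_lit 6) (nat_lit 0x54500) (nat_lit 0x1000100010000000100010000000000000000))) (.non (nat_lit 0) (nat_lit 5) (nat_lit 0x5100) (nat_lit 0x10001000000010000000000000000)))) (.split (nat_lit 7) (nat_lit 4) (.split (nat_lit 6) (nat_lit 4) (.split (nat_lit 5) (nat_lit 4) (.sup (nat_lit 0x100040007000a0008) (nat_lit 0x600020006000a000a00000000000000000000)) (.non (nat_lit 0) (nat_lit 6) (nat_lit 0x50500) (nat_lit 0x1000100000000000100010000000000000000)))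 (.non (nat_lit 0) (nat_lit 5) (nat_lit 0x15100) (nat_lit 0x100010001000000010000000000000000))) (.non (nat_lit 0) (nat_lit 5) (nat_lit 0x14100) (nat_lit 0x100010000000000010000000000000000)))) (.split (nat_lit 8) (nat_lit 4) (.split (nat_lit 7) (nat_lit 4) (.split (nat_lit 6) (nat_lit 4) (.split (nat_lit 5) (nat_lit 4) (.sup (nat_lit 0x100040007000a0008) (nat_lit 0x300050008000a000900000000000000000000)) (.non (nat_lit 0) (nat_lit 6) (nat_lit 0x40500) (nat_lit 0x1000000000000000100010000000000000000))) (.non (nat_lit 0) (nat_lit 5) (nat_lit 0x55100) (nat_lit 0x1000100010001000000010000000000000000))) (.non (nat_lit 0) (nat_lit 5) (nat_lit 0x54100) (nat_lit 0x1000100010000000000010000000000000000))) (.non (nat_lit 0) (nat_lit 5) (nat_lit 0x50100) (nat_lit 0x1000100000000000000010000000000000000)))) (.non (nat_lit 0) (nat_lit 5) (nat_lit 0x15150) (nat_lit 0x100020001000000010002000100000000))) (.non (nat_lit 2) (nat_lit 5) (nat_lit 0x54005) (nat_lit 0x1000200030000000000000000000000040003))) (.non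 (nat_lit 0) (nat_lit 5) (nat_lit 0x54150) (nat_lit 0x1000200010000000000010002000100000000))) (.non (nat_lit 0) (nat_lit 5) (nat_lit 0x54054) (nat_lit 0x1000200010000000000000001000200010000))) (.non (nat_lit 2) (nat_lit 5) (nat_lit 0x54005) (nat_lit 0x1000200010000000000000000000000020002))) (.non (nat_lit 2) (nat_lit 5) (nat_lit 0x54005) (nat_lit 0x1000200010000000000000000000000020002))) (.non (nat_lit 0) (nat_lit 6) (nat_lit 0x50550) (nat_lit 0x2000100000000000100010002000100000000))) (.non (nat_lit 2) (nat_lit 5) (nat_lit 0x54005) (nat_lit 0x3000200010000000000000000000000040003)))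

noncomputable def t1645_1 : Tr := (.pd (.cons (nat_lit 0) (nat_lit 8) (nat_lit 0) (nat_lit 0x9065532110) (nat_lit 0xf423f00000f423fb71ae1f156f423fb71aea2c289896500000) (.cons (nat_lit 1) (nat_lit 8) (nat_lit 0) (nat_lit 0x9065532200) (nat_lit 0xf423f00000f423fb71ae1f156f423fb71aea2c2800000f423f) (.cons (nat_lit 2) (nat_lit 8) (nat_lit 0) (nat_lit 0x9065533000) (nat_lit 0xf423f00000f423fb71ae1f156f423fb71ae00000f423f54591) (.cons (nat_lit 3) (nat_lit 8) (nat_lit 0) (nat_lit 0x9065540100) (nat_lit 0xf423f00000f423fb71ae1f156f423f00000f423fb71ae1f156) (.cons (nat_lit 4) (nat_lit 8) (nat_lit 0) (nat_lit 0x9065502100) (nat_lit 0xf423f00000f423fb71ae1f15600000f423fb71aea2c2804737) (.cons (nat_lit 4) (nat_lit 9) (nat_lit 0) (nat_lit 0x765502100) (nat_lit 0xf423fb71aea2c280473700000f423fb71aea2c2804737) .nil)))))) (.ex (nat_lit 9) (.pd (.cons (nat_lit 0) (nat_lit 5) (nat_lit 0) (nat_lit 0x8487032110) (nat_lit 0xf423f65b97b71aef423f0000061a795b8cc515fe3d05a00000) (.cons (nat_lit 1) (nat_lit 5) (nat_lit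 0) (nat_lit 0x8487032200) (nat_lit 0xf423f65b97b71aef423f0000061a795b8cc515fe00000f423f) (.cons (nat_lit 2) (nat_lit 5) (nat_lit 0) (nat_lit 0x8487033000) (nat_lit 0xf423f65b97b71aef423f0000061a795b8cc00000f423f54591) (.cons (nat_lit 3) (nat_lit 5) (nat_lit 0) (nat_lit 0x8487040100) (nat_lit 0xf423f65b97b71aef423f0000061a7900000f423fb71ae1f156) (.cons (nat_lit 4) (nat_lit 5) (nat_lit 0) (nat_lit 0x8766002100) (nat_lit 0xf423fb71aea2c28989650000000000f423fb71aea2c2804737) .nil))))) (.l31 (nat_lit 0x4321098765))) (.split (nat_lit 0xa) (nat_lit 0) (.split (nat_lit 0xa) (nat_lit 1) (.split (nat_lit 0xa) (nat_lit 2) (.split (nat_lit 0xa) (nat_lit 3) (.split (nat_lit 0xa) (nat_lit 4) (.split (nat_lit 0xa) (nat_lit 5) (.split (nat_lit 0xa) (nat_lit 6) (.split (nat_lit 0xa) (nat_lit 7) (.split (nat_lit 0xa) (nat_lit 8) (.sup (nat_lit 0x10002000300060009000700000000000000000000) (nat_lit 0x10006000b0010000d)) (.non (nat_lit 0) (nat_lit 6) (nat_lit 0x150000) (nat_lit 0x10001000100000000000000000000000000000000)))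 (.non (nat_lit 0) (nat_lit 6) (nat_lit 0x154000) (nat_lit 0x10001000100010000000000000000000000000000))) (.non (nat_lit 0) (nat_lit 7) (nat_lit 0x151400) (nat_lit 0x30002000100000004000300000000000000000000))) (.non (nat_lit 0) (nat_lit 6) (nat_lit 0x154550) (nat_lit 0x20003000400020000000100030002000100000000))) (.non (nat_lit 0) (nat_lit 6) (nat_lit 0x150100) (nat_lit 0x10001000100000000000000010000000000000000))) (.non (nat_lit 0) (nat_lit 6) (nat_lit 0x150140) (nat_lit 0x10001000100000000000000010001000000000000))) (.non (nat_lit 0) (nat_lit 6) (nat_lit 0x150150) (nat_lit 0x10001000100000000000000010001000100000000))) (.non (nat_lit 0) (nat_lit 6) (nat_lit 0x150154) (nat_lit 0x10001000100000000000000010001000100010000))) (.non (nat_lit 3) (nat_lit 6) (nat_lit 0x150005) (nat_lit 0x30002000100000000000000000000000000030004)))))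

noncomputable def t1645_2 : Tr := (.ex (nat_lit 6) (.ex (nat_lit 7) t1645_1 (.split (nat_lit 0xa) (nat_lit 0) (.split (nat_lit 0xa) (nat_lit 1) (.split (nat_lit 0xa) (nat_lit 2) (.split (nat_lit 0xa) (nat_lit 3) (.split (nat_lit 0xa) (nat_lit 4) (.split (nat_lit 0xa) (nat_lit 5) (.split (nat_lit 0xa) (nat_lit 8) (.split (nat_lit 0xa) (nat_lit 9) (.split (nat_lit 0xa) (nat_lit 6) (.sup (nat_lit 0x10002000300050004) (nat_lit 0x20000000100030005000400000000000000000000)) (.unj (nat_lit 0x105000) (nat_lit 0x10000000000010001000000000000000000000000) (nat_lit 0x155) (nat_lit 0x10002000300040003))) (.non (nat_lit 0) (nat_lit 6) (nat_lit 0x154000) (nat_lit 0x10001000100010000000000000000000000000000))) (.non (nat_lit 0) (nat_lit 6) (nat_lit 0x114000) (nat_lit 0x10000000100010000000000000000000000000000))) (.non (nat_lit 0) (nat_lit 6) (nat_lit 0x154550) (nat_lit 0x20002000400030000000100030002000100000000))) (.non (nat_lit 0) (nat_lit 6) (nat_lit 0x114100) (nat_lit 0x10000000100010000000000010000000000000000)))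 (.star (nat_lit 0xa) (nat_lit 3) (nat_lit 7))) (.non (nat_lit 0) (nat_lit 6) (nat_lit 0x114150) (nat_lit 0x10000000100010000000000010001000100000000))) (.non (nat_lit 0) (nat_lit 6) (nat_lit 0x114154) (nat_lit 0x10000000100010000000000010001000100010000))) (.star (nat_lit 0xa) (nat_lit 0) (nat_lit 7)))) (.split (nat_lit 0xa) (nat_lit 0) (.split (nat_lit 0xa) (nat_lit 1) (.split (nat_lit 0xa) (nat_lit 2) (.split (nat_lit 0xa) (nat_lit 3) (.split (nat_lit 0xa) (nat_lit 4) (.split (nat_lit 0xa) (nat_lit 5) (.split (nat_lit 0xa) (nat_lit 8) (.split (nat_lit 0xa) (nat_lit 9) (.split (nat_lit 0xa) (nat_lit 7) (.unj (nat_lit 0x105400) (nat_lit 0x10000000000010002000200000000000000000000) (nat_lit 0x155) (nat_lit 0x10002000300040003)) (.unj (nat_lit 0x105000) (nat_lit 0x10000000000010001000000000000000000000000) (nat_lit 0x155) (nat_lit 0x10002000300040003))) (.non (nat_lit 0) (nat_lit 7) (nat_lit 0x151400) (nat_lit 0x30002000100000004000300000000000000000000))) (.non (nat_lit 0) (nat_lit 6) (nat_lit 0x154100)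 (nat_lit 0x10001000200010000000000010000000000000000))) (.non (nat_lit 0) (nat_lit 7) (nat_lit 0x101400) (nat_lit 0x10000000000000001000100000000000000000000))) (.non (nat_lit 0) (nat_lit 6) (nat_lit 0x154140) (nat_lit 0x10001000200010000000000020001000000000000))) (.star (nat_lit 0xa) (nat_lit 3) (nat_lit 6))) (.non (nat_lit 0) (nat_lit 6) (nat_lit 0x154154) (nat_lit 0x10001000200010000000000020002000200010000))) (.non (nat_lit 0) (nat_lit 7) (nat_lit 0x101414) (nat_lit 0x30000000000000004000300000000000100020000))) (.star (nat_lit 0xa) (nat_lit 0) (nat_lit 6))))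

noncomputable def t1645_3 : Tr := (.pd (.cons (nat_lit 4) (nat_lit 6) (nat_lit 0) (nat_lit 0x8770502100) (nat_lit 0xf423fb71aea2c2800000f423f00000f423fb71aea2c2804737) (.cons (nat_lit 4) (nat_lit 7) (nat_lit 0) (nat_lit 0x8805502100) (nat_lit 0xf423fb71ae00000f423f5459100000f423fb71aea2c2804737) .nil)) (.st (nat_lit 4) (nat_lit 0) (nat_lit 6) (nat_lit 0x54140) (nat_lit 0x1000200010000000000020001000000000000) (nat_lit 1) (nat_lit 1) (.st (nat_lit 8) (nat_lit 0) (nat_lit 6) (nat_lit 0x54100) (nat_lit 0x1000200010000000000010000000000000000) (nat_lit 1) (nat_lit 1) (.split (nat_lit 4) (nat_lit 3) (.split (nat_lit 8) (nat_lit 4) (.pd (.cons (nat_lit 1) (nat_lit 6) (nat_lit 0) (nat_lit 0x8480532200) (nat_lit 0xf423f7a11df423f00000f423f7a11b7a1197a11700000f423f) (.cons (nat_lit 1) (nat_lit 7) (nat_lit 0) (nat_lit 0x8405532200) (nat_lit 0xf423fb71ae00000f423f54591a2c2898965927bd00000f423f) (.cons (nat_lit 2) (nat_lit 6) (nat_lit 0) (nat_lit 0x8480533000) (nat_lit 0xf423f7a11df423f00000f423f7a11b7a11900000f423f54591)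 (.cons (nat_lit 2) (nat_lit 7) (nat_lit 0) (nat_lit 0x8405533000) (nat_lit 0xf423fb71ae00000f423f54591a2c289896500000f423f54591) .nil)))) (.ex (nat_lit 5) t1645_2 (.split (nat_lit 0xa) (nat_lit 0) (.split (nat_lit 0xa) (nat_lit 1) (.split (nat_lit 0xa) (nat_lit 2) (.split (nat_lit 0xa) (nat_lit 3) (.split (nat_lit 0xa) (nat_lit 4) (.split (nat_lit 0xa) (nat_lit 6) (.split (nat_lit 0xa) (nat_lit 7) (.split (nat_lit 0xa) (nat_lit 8) (.split (nat_lit 0xa) (nat_lit 9) (.unj (nat_lit 0x105400) (nat_lit 0x10000000000010002000200000000000000000000) (nat_lit 0x155) (nat_lit 0x10002000300040003)) (.non (nat_lit 0) (nat_lit 6) (nat_lit 0x154550) (nat_lit 0x20003000400020000000100030002000100000000))) (.non (nat_lit 0) (nat_lit 6) (nat_lit 0x154100) (nat_lit 0x10001000200010000000000010000000000000000))) (.non (nat_lit 0) (nat_lit 6) (nat_lit 0x154550) (nat_lit 0x20002000400030000000100030002000100000000))) (.non (nat_lit 0) (nat_lit 7) (nat_lit 0x101400) (nat_lit 0x10000000000000001000100000000000000000000)))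 (.non (nat_lit 0) (nat_lit 6) (nat_lit 0x154140) (nat_lit 0x10001000200010000000000020001000000000000))) (.non (nat_lit 0) (nat_lit 6) (nat_lit 0x154150) (nat_lit 0x10001000200010000000000020002000100000000))) (.non (nat_lit 0) (nat_lit 6) (nat_lit 0x154154) (nat_lit 0x10001000200010000000000020002000200010000))) (.non (nat_lit 0) (nat_lit 7) (nat_lit 0x101414) (nat_lit 0x30000000000000003000400000000000100020000))) (.non (nat_lit 3) (nat_lit 6) (nat_lit 0x100015) (nat_lit 0x10000000000000000000000000000000100020002))))) (.non (nat_lit 0) (nat_lit 6) (nat_lit 0xa8100) (nat_lit 0x1000200010000000000020000000000000000))) (.non (nat_lit 0) (nat_lit 6) (nat_lit 0xa8240) (nat_lit 0x1000200010000000000020002000000000000))))))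

noncomputable def t1645_4 : Tr := (.ex (nat_lit 7) (.pd (.cons (nat_lit 0) (nat_lit 5) (nat_lit 0) (nat_lit 0x3987032110) (nat_lit 0x98965a2c28b71aef423f00000f423f5572c45c091e82a00000) (.cons (nat_lit 0) (nat_lit 8) (nat_lit 0) (nat_lit 0x3065532110) (nat_lit 0xf423f00000f423fb71ae1f156f423f7a11d7a11b7a11900000) (.cons (nat_lit 0) (nat_lit 9) (nat_lit 0) (nat_lit 0x765532110) (nat_lit 0xf423fb71aea2c2804737f423fb71aea2c289896500000) (.cons (nat_lit 1) (nat_lit 5) (nat_lit 0) (nat_lit 0x3987032200) (nat_lit 0x98965a2c28b71aef423f00000f423f5572c45c0900000f423f) (.cons (nat_lit 1) (nat_lit 8) (nat_lit 0) (nat_lit 0x3065532200) (nat_lit 0xf423f00000f423fb71ae1f156f423f7a11d7a11b00000f423f) (.cons (nat_lit 1) (nat_lit 9) (nat_lit 0) (nat_lit 0x765532200) (nat_lit 0xf423fb71aea2c2804737f423fb71aea2c2800000f423f) (.cons (nat_lit 2) (nat_lit 5) (nat_lit 0) (nat_lit 0x3987033000) (nat_lit 0x98965a2c28b71aef423f00000f423f5572c00000f423f54591) (.cons (nat_lit 2) (nat_lit 8) (nat_lit 0) (nat_lit 0x3065533000)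 (nat_lit 0xf423f00000f423fb71ae1f156f423f7a11d00000f423f54591) (.cons (nat_lit 2) (nat_lit 9) (nat_lit 0) (nat_lit 0x765533000) (nat_lit 0xf423fb71aea2c2804737f423fb71ae00000f423f54591) (.cons (nat_lit 3) (nat_lit 5) (nat_lit 0) (nat_lit 0x8766040100) (nat_lit 0xf423fb71aea2c289896500000f423f00000f423fb71ae1f156) (.cons (nat_lit 3) (nat_lit 8) (nat_lit 0) (nat_lit 0x9065540100) (nat_lit 0xf423f00000f423fb71ae1f156f423f00000f423fb71ae1f156) (.cons (nat_lit 3) (nat_lit 9) (nat_lit 0) (nat_lit 0x765540100) (nat_lit 0xf423fb71aea2c2804737f423f00000f423fb71ae1f156) (.cons (nat_lit 4) (nat_lit 9) (nat_lit 0) (nat_lit 0x765502100) (nat_lit 0xf423fb71aea2c280473700000f423fb71aea2c2804737) .nil))))))))))))) (.l31 (nat_lit 0x9876543210))) (.split (nat_lit 0xa) (nat_lit 0) (.split (nat_lit 0xa) (nat_lit 1) (.split (nat_lit 0xa) (nat_lit 2) (.split (nat_lit 0xa) (nat_lit 3) (.split (nat_lit 0xa) (nat_lit 4) (.split (nat_lit 0xa) (nat_lit 5) (.split (nat_lit 0xa) (nat_lit 8) (.split (nat_lit 0xa) (nat_lit 9)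 (.split (nat_lit 0xa) (nat_lit 6) (.unj (nat_lit 0x155) (nat_lit 0x10002000300040003) (nat_lit 0x115400) (nat_lit 0x10000000100020002000200000000000000000000)) (.unj (nat_lit 0x105000) (nat_lit 0x10000000000010001000000000000000000000000) (nat_lit 0x155) (nat_lit 0x10002000300040003))) (.non (nat_lit 0) (nat_lit 6) (nat_lit 0x154000) (nat_lit 0x10001000100010000000000000000000000000000))) (.non (nat_lit 0) (nat_lit 6) (nat_lit 0x114000) (nat_lit 0x10000000100010000000000000000000000000000))) (.non (nat_lit 0) (nat_lit 6) (nat_lit 0x154554) (nat_lit 0x20005000400030000000100030006000400020000))) (.non (nat_lit 0) (nat_lit 6) (nat_lit 0x154140) (nat_lit 0x10001000100010000000000010001000000000000))) (.star (nat_lit 0xa) (nat_lit 3) (nat_lit 7))) (.non (nat_lit 0) (nat_lit 6) (nat_lit 0x154050) (nat_lit 0x10001000100010000000000000001000100000000))) (.non (nat_lit 0) (nat_lit 6) (nat_lit 0x154054) (nat_lit 0x10001000100010000000000000001000100010000))) (.star (nat_lit 0xa) (nat_lit 0) (nat_lit 7))))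

noncomputable def t1645_5 : Tr := (.ex (nat_lit 5) (.ex (nat_lit 6) t1645_4 (.split (nat_lit 0xa) (nat_lit 0) (.split (nat_lit 0xa) (nat_lit 1) (.split (nat_lit 0xa) (nat_lit 2) (.split (nat_lit 0xa) (nat_lit 3) (.split (nat_lit 0xa) (nat_lit 4) (.split (nat_lit 0xa) (nat_lit 5) (.split (nat_lit 0xa) (nat_lit 8) (.split (nat_lit 0xa) (nat_lit 9) (.split (nat_lit 0xa) (nat_lit 7) (.unj (nat_lit 0x105400) (nat_lit 0x10000000000010002000200000000000000000000) (nat_lit 0x155) (nat_lit 0x10002000300040003)) (.unj (nat_lit 0x105000) (nat_lit 0x10000000000010001000000000000000000000000) (nat_lit 0x155) (nat_lit 0x10002000300040003))) (.non (nat_lit 0) (nat_lit 6) (nat_lit 0x150150) (nat_lit 0x10002000100000000000000010002000100000000))) (.non (nat_lit 0) (nat_lit 6) (nat_lit 0x154150) (nat_lit 0x10002000200010000000000010002000100000000))) (.non (nat_lit 0) (nat_lit 7) (nat_lit 0x101400) (nat_lit 0x10000000000000001000100000000000000000000))) (.non (nat_lit 0) (nat_lit 6) (nat_lit 0x150154) (nat_lit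 0x10002000100000000000000020003000200010000))) (.star (nat_lit 0xa) (nat_lit 3) (nat_lit 6))) (.non (nat_lit 0) (nat_lit 6) (nat_lit 0x140154) (nat_lit 0x10001000000000000000000010002000200010000))) (.non (nat_lit 0) (nat_lit 6) (nat_lit 0x154154) (nat_lit 0x10003000200010000000000020004000300020000))) (.star (nat_lit 0xa) (nat_lit 0) (nat_lit 6)))) (.split (nat_lit 0xa) (nat_lit 0) (.split (nat_lit 0xa) (nat_lit 1) (.split (nat_lit 0xa) (nat_lit 2) (.split (nat_lit 0xa) (nat_lit 3) (.split (nat_lit 0xa) (nat_lit 4) (.split (nat_lit 0xa) (nat_lit 6) (.split (nat_lit 0xa) (nat_lit 7) (.split (nat_lit 0xa) (nat_lit 8) (.split (nat_lit 0xa) (nat_lit 9) (.unj (nat_lit 0x105400) (nat_lit 0x10000000000010002000200000000000000000000) (nat_lit 0x155) (nat_lit 0x10002000300040003)) (.non (nat_lit 0) (nat_lit 6) (nat_lit 0x154540) (nat_lit 0x20003000200010000000100010002000000000000))) (.non (nat_lit 0) (nat_lit 6) (nat_lit 0x154150) (nat_lit 0x10002000200010000000000010002000100000000))) (.non (nat_lit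 0) (nat_lit 6) (nat_lit 0x154554) (nat_lit 0x20005000400030000000100030006000400020000))) (.non (nat_lit 0) (nat_lit 7) (nat_lit 0x101400) (nat_lit 0x10000000000000001000100000000000000000000))) (.non (nat_lit 0) (nat_lit 6) (nat_lit 0x154550) (nat_lit 0x20003000200010000000100030004000200000000))) (.non (nat_lit 0) (nat_lit 6) (nat_lit 0x140150) (nat_lit 0x10001000000000000000000010002000100000000))) (.non (nat_lit 0) (nat_lit 6) (nat_lit 0x154550) (nat_lit 0x20003000200010000000100020004000300000000))) (.non (nat_lit 0) (nat_lit 6) (nat_lit 0x154154) (nat_lit 0x10003000200010000000000020004000300020000))) (.non (nat_lit 3) (nat_lit 6) (nat_lit 0x100015) (nat_lit 0x10000000000000000000000000000000100020002))))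

noncomputable def t1645_6 : Tr := (.split (nat_lit 9) (nat_lit 3) (.split (nat_lit 9) (nat_lit 4) (.split (nat_lit 8) (nat_lit 4) .uj (.st (nat_lit 2) (nat_lit 0) (nat_lit 6) (nat_lit 0x54154) (nat_lit 0x1000200010000000000020002000200010000) (nat_lit 1) (nat_lit 1) (.st (nat_lit 3) (nat_lit 0) (nat_lit 6) (nat_lit 0x54150) (nat_lit 0x1000200010000000000020002000100000000) (nat_lit 1) (nat_lit 1) (.split (nat_lit 9) (nat_lit 8) t1645_3 (.non (nat_lit 0) (nat_lit 6) (nat_lit 0x94100) (nat_lit 0x1000200010000000000010000000000000000)))))) (.split (nat_lit 8) (nat_lit 4) (.sup (nat_lit 0x100040007000a0008) (nat_lit 0x100040007000a000800000000000000000000)) (.non (nat_lit 0) (nat_lit 6) (nat_lit 0x50100) (nat_lit 0x1000100000000000000010000000000000000)))) (.split (nat_lit 9) (nat_lit 4) (.split (nat_lit 8) (nat_lit 4) (.st (nat_lit 2) (nat_lit 0) (nat_lit 6) (nat_lit 0x40154) (nat_lit 0x1000000000000000000010002000200010000) (nat_lit 1) (nat_lit 1) (.st (nat_lit 3) (nat_lit 0) (nat_lit 6) (nat_lit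 0x40150) (nat_lit 0x1000000000000000000010002000100000000) (nat_lit 1) (nat_lit 1) (.st (nat_lit 4) (nat_lit 0) (nat_lit 6) (nat_lit 0x50154) (nat_lit 0x2000100000000000000020003000200010000) (nat_lit 1) (nat_lit 1) (.st (nat_lit 8) (nat_lit 0) (nat_lit 6) (nat_lit 0x54150) (nat_lit 0x2000200010000000000010002000100000000) (nat_lit 1) (nat_lit 1) (.st (nat_lit 9) (nat_lit 0) (nat_lit 6) (nat_lit 0x50150) (nat_lit 0x2000100000000000000010002000100000000) (nat_lit 1) (nat_lit 1) (.split (nat_lit 4) (nat_lit 3) (.split (nat_lit 9) (nat_lit 3) (.split (nat_lit 9) (nat_lit 8) (.pd (.cons (nat_lit 1) (nat_lit 6) (nat_lit 0) (nat_lit 0x3980532200) (nat_lit 0xa2c28b71aef423f00000f423ff423f5b8d45160d00000f423f) (.cons (nat_lit 1) (nat_lit 7) (nat_lit 0) (nat_lit 0x3905532200) (nat_lit 0xb71aef423f00000f423f54591f423f65b9761a7900000f423f) (.cons (nat_lit 2) (nat_lit 6) (nat_lit 0) (nat_lit 0x3980533000) (nat_lit 0xa2c28b71aef423f00000f423ff423f5b8d400000f423f54591) (.cons (nat_lit 2) (nat_lit 7) (nat_lit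 0) (nat_lit 0x3905533000) (nat_lit 0xb71aef423f00000f423f54591f423f65b9700000f423f54591) .nil)))) t1645_5) (.non (nat_lit 0) (nat_lit 6) (nat_lit 0x68140) (nat_lit 0x3000200010000000000010002000000000000))) (.non (nat_lit 0) (nat_lit 6) (nat_lit 0xa8140) (nat_lit 0x3000200010000000000020004000000000000))) (.non (nat_lit 0) (nat_lit 6) (nat_lit 0x40250) (nat_lit 0x1000000000000000000010002000100000000)))))))) (.non (nat_lit 0) (nat_lit 6) (nat_lit 0x50140) (nat_lit 0x1000100000000000000010001000000000000))) (.non (nat_lit 0) (nat_lit 6) (nat_lit 0x40140) (nat_lit 0x1000000000000000000010001000000000000))))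

noncomputable def t1645 : Tr := (.split (nat_lit 9) (nat_lit 2) (.split (nat_lit 8) (nat_lit 2) (.split (nat_lit 5) (nat_lit 2) (.split (nat_lit 5) (nat_lit 4) t1645_6 (.non (nat_lit 0) (nat_lit 7) (nat_lit 0x1550) (nat_lit 0x3000400030002000100000000))) (.non (nat_lit 0) (nat_lit 7) (nat_lit 0x1550) (nat_lit 0x3000400010002000300000000))) (.non (nat_lit 0) (nat_lit 6) (nat_lit 0x54054) (nat_lit 0x1000200010000000000000001000200010000))) (.non (nat_lit 3) (nat_lit 6) (nat_lit 0x50015) (nat_lit 0x2000100000000000000000000000300040003)))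

noncomputable def D20_96 : RL := (.cons (nat_lit 0x2222222222222222222222222222222222222222222222222222222222222222222222222222222222222222222222222222222b22222222222222b232222222222222232322222222222222325222222222222225222222222222222222b22222222222222b2322222222222222323222222222222223252222222222222252) .uj (.cons (nat_lit 0x2222222222222222222222222222222222222222222222222222222222222222222222222222222222222222222222222222222b222aaa22222222b2322a2a222222222323222222222222223252222222222222252a2a22222222aa22a2b222222222a2222b2322222222aa22a2323222222222222223252222222222222252) t1645 .nil))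

noncomputable def D20_84 : RL := (.skip (.skip (.skip (.skip (.skip (.skip (.skip (.skip (.skip (.skip (.skip (.cons (nat_lit 0x2222222222222222222222222222222222222222222222222222222222222222222222222222222222222222222222222222222b222a2a22222222b23222222222222223232a2a2222222222325222222222222225222222222222a2a222b22222222222222b2322222222a2a222323222222222222223252222222222222252) (.split (nat_lit 9) (nat_lit 2) (.split (nat_lit 7) (nat_lit 2) (.split (nat_lit 7) (nat_lit 4) (.split (nat_lit 9) (nat_lit 4) .uj (.sup (nat_lit 0x100040007000a0008) (nat_lit 0x100040007000a000800000000000000000000))) (.non (nat_lit 0) (nat_lit 8) (nat_lit 0x5540) (nat_lit 0x30004000300020001000000000000))) (.non (nat_lit 0) (nat_lit 5) (nat_lit 0x15054) (nat_lit 0x100020001000000000001000200010000))) (.non (nat_lit 3) (nat_lit 5) (nat_lit 0x50015) (nat_lit 0x2000100000000000000000000000300040003))) D20_96))))))))))))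

noncomputable def D20_72 : RL := (.skip (.skip (.skip (.skip (.skip (.skip (.skip (.skip (.skip (.skip (.skip (.skip D20_84))))))))))))

noncomputable def D20_60 : RL := (.cons (nat_lit 0x222222222222222222222222222222222222222222222222222222222222222222222222222222222222222222222222222222232232222222222232322a22222222222323222222222222223242222222222232242222222222222a2222b22222222222222b2322222222222222323222222222222223252222222222222252) (.split (nat_lit 8) (nat_lit 4) .uj (.sup (nat_lit 0x100040007000a0008) (nat_lit 0x600020006000a000a00000000000000000000))) (.cons (nat_lit 0x22222222222222222222222222222222222222222222222222222222222222222222222222222222222222222222222222222223223a222222222232322aa2a2222222232322222222222222324222222222223224222222222222aa2222b2222222222a222b232222222222222232322222222a222223252222222222222252) (.split (nat_lit 8) (nat_lit 1) (.split (nat_lit 8) (nat_lit 3) (.split (nat_lit 9) (nat_lit 4) (.split (nat_lit 8) (nat_lit 4) .uj (.sup (nat_lit 0x100040007000a0008)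 (nat_lit 0x600020006000a000a00000000000000000000))) (.split (nat_lit 8) (nat_lit 4) (.sup (nat_lit 0x100040007000a0008) (nat_lit 0x300050008000a000900000000000000000000)) (.non (nat_lit 0) (nat_lit 5) (nat_lit 0x50100) (nat_lit 0x1000100000000000000010000000000000000)))) (.non (nat_lit 0) (nat_lit 5) (nat_lit 0x54150) (nat_lit 0x1000200010000000000010002000100000000))) (.non (nat_lit 2) (nat_lit 5) (nat_lit 0x54005) (nat_lit 0x1000200010000000000000000000000020002))) (.cons (nat_lit 0x222222222222222222222222222222222222222222222222222222222222222222222222222222222222222222222222222222232232222222222232322a22222222222323222222222222223242222222222232242222222222222a2222b22222222222222b2322222222222222323222222222222223252222222222222252) (.split (nat_lit 8) (nat_lit 4) .uj (.sup (nat_lit 0x100040007000a0008) (nat_lit 0x600020006000a000a00000000000000000000))) (.cons (nat_lit 0x222222222222222222222222222222222222222222222222222222222222222222222222222222222222222222222222222222232232222222222232322aa2a22222222323222222222222223242222222222232242222222222222a2222b2222222222a222b232222222222222232322222222a222223252222222222222252)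 (.split (nat_lit 8) (nat_lit 1) (.split (nat_lit 8) (nat_lit 3) (.split (nat_lit 8) (nat_lit 4) .uj (.sup (nat_lit 0x100040007000a0008) (nat_lit 0x600020006000a000a00000000000000000000))) (.non (nat_lit 0) (nat_lit 7) (nat_lit 0x52550) (nat_lit 0x2000200000001000200010002000100000000))) (.non (nat_lit 2) (nat_lit 7) (nat_lit 0x50405) (nat_lit 0x2000300000000000100000000000000040003))) (.skip (.skip (.skip (.skip (.skip (.skip (.skip (.skip D20_72))))))))))))

noncomputable def D20_48 : RL := (.cons (nat_lit 0x2222222222222222222222222222222222222222222222222222222222222222222222222222222222222222222222222222222b222aa2a2222222b2322a222222222223232a222222222222325222222222222225222222222222aaa222b222222222a2222b23222222222222223232222222a2222223252222222222222252) t1596 (.cons (nat_lit 0x2222222222222222222222222222222222222222222222222222222222222222222222222222222222222222222222222222222b222a2222222222b232222222222222232322222222222222325222222222222225222222222222a22222b22222222222222b2322222222222222323222222222222223252222222222222252)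 (.split (nat_lit 9) (nat_lit 4) .uj (.sup (nat_lit 0x100040007000a0008) (nat_lit 0x100040007000a000800000000000000000000))) (.cons (nat_lit 0x2222222222222222222222222222222222222222222222222222222222222222222222222222222222222222222222222222222b222a2222222222b232222222222222232322222222222222325222222222222225222222222222a22222b22222222222222b2322222222222222323222222222222223252222222222222252) (.split (nat_lit 9) (nat_lit 4) .uj (.sup (nat_lit 0x100040007000a0008) (nat_lit 0x100040007000a000800000000000000000000))) (.cons (nat_lit 0x22222222222222222222222222222222222222222222222222222222222222222222222222222222222222222222222222222222322aaaaa22222222322aaaaa222222332322222222222222325a222222222222252a2222222222aa2aa2b222222222aa222b2322222222aa22223232222222aa22222325222222aa22222252) t1599 (.cons (nat_lit 0x22222222222222222222222222222222222222222222222222222222222222222222222222222222222222222222222222222222322aa2a222222222322aa2a2222222332322222222222222325aa2a222222222252a2222222222aa2aa2b222222222aa2a2b23222222222222223232222222aa2a2223252222222222222252)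 (.split (nat_lit 9) (nat_lit 1) (.split (nat_lit 9) (nat_lit 3) (.split (nat_lit 8) (nat_lit 1) (.split (nat_lit 8) (nat_lit 3) (.split (nat_lit 6) (nat_lit 1) (.split (nat_lit 6) (nat_lit 3) (.split (nat_lit 6) (nat_lit 4) (.split (nat_lit 5) (nat_lit 4) (.split (nat_lit 9) (nat_lit 4) (.split (nat_lit 8) (nat_lit 4) .uj (.sup (nat_lit 0x100040007000a0008) (nat_lit 0x300010007000a000800000000000000000000))) (.split (nat_lit 8) (nat_lit 4) (.sup (nat_lit 0x100040007000a0008) (nat_lit 0x100030007000a000800000000000000000000)) (.non (nat_lit 0) (nat_lit 5) (nat_lit 0x54100) (nat_lit 0x1000100010000000000010000000000000000)))) (.non (nat_lit 0) (nat_lit 7) (nat_lit 0x1550) (nat_lit 0x3000400030002000100000000))) (.non (nat_lit 0) (nat_lit 7) (nat_lit 0x1550) (nat_lit 0x4000300030002000100000000))) (.non (nat_lit 0) (nat_lit 5) (nat_lit 0x55150) (nat_lit 0x1000100020002000000010002000100000000))) (.non (nat_lit 0) (nat_lit 7) (nat_lit 0x1454) (nat_lit 0x4000300000001000200030000))) (.non (nat_lit 0)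 (nat_lit 5) (nat_lit 0x55150) (nat_lit 0x1000200020001000000010002000100000000))) (.non (nat_lit 2) (nat_lit 5) (nat_lit 0x54005) (nat_lit 0x1000300020000000000000000000000040003))) (.non (nat_lit 0) (nat_lit 5) (nat_lit 0x55150) (nat_lit 0x2000100020001000000010002000100000000))) (.non (nat_lit 2) (nat_lit 5) (nat_lit 0x54005) (nat_lit 0x3000100020000000000000000000000040003))) (.cons (nat_lit 0x222222222222222222222222222222222222222222222222222222222222222222222222222222222222222222222222222222223222222222222222322a22222222223323222222222222223252222222222222252222222222222a2222b22222222222222b2322222222222222323222222222222223252222222222222252) (.split (nat_lit 8) (nat_lit 4) .uj (.sup (nat_lit 0x100040007000a0008) (nat_lit 0x300010007000a000800000000000000000000))) (.cons (nat_lit 0x22222222222222222222222222222222222222222222222222222222222222222222222222222222222222222222222222222222322aa2a222222222322aa2a222222233232a222222222222325a222222222222252aa2a2222222aaaaa2b222222222aa22ab23222222222222223232222222aa22a223252222222222222252)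 t1602 (.cons (nat_lit 0x222222222222222222222222222222222222222222222222222222222222222222222222222222222222222222222222222222223222222222222222322a22222222223323222222222222223252222222222222252222222222222a2222b22222222222222b2322222222222222323222222222222223252222222222222252) (.split (nat_lit 8) (nat_lit 4) .uj (.sup (nat_lit 0x100040007000a0008) (nat_lit 0x300010007000a000800000000000000000000))) (.cons (nat_lit 0x222222222222222222222222222222222222222222222222222222222222222222222222222222222222222222222222222222223222222222222222322a22222222223323222222222222223252222222222222252222222222222a2222b22222222222222b2322222222222222323222222222222223252222222222222252) (.split (nat_lit 8) (nat_lit 4) .uj (.sup (nat_lit 0x100040007000a0008) (nat_lit 0x300010007000a000800000000000000000000))) (.cons (nat_lit 0x22222222222222222222222222222222222222222222222222222222222222222222222222222222222222222222222222222222322222222222222232222222222222332322222222222222325222222222222225222222222222222222b22222222222222b2322222222222222323222222222222223252222222222222252)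 .uj (.cons (nat_lit 0x22222222222222222222222222222222222222222222222222222222222222222222222222222222222222222222222222222223223aa2a222222232322aaaaa22222223232aa2a222222222324a222222222232242a2222222222aaaaa2b222222222aaa22b23222222222a22223232222222aaa22223252222222a22222252) t1606 (.cons (nat_lit 0x222222222222222222222222222222222222222222222222222222222222222222222222222222222222222222222222222222232232222222222232322aa2a222222223232a2222222222223242222222222232242222222222222aa222b2222222222a222b232222222222222232322222222a222223252222222222222252) (.split (nat_lit 8) (nat_lit 1) (.split (nat_lit 8) (nat_lit 3) (.split (nat_lit 8) (nat_lit 4) (.split (nat_lit 7) (nat_lit 4) .uj (.sup (nat_lit 0x100040007000a0008) (nat_lit 0x8000500030009000a00000000000000000000))) (.split (nat_lit 7) (nat_lit 4) (.sup (nat_lit 0x100040007000a0008) (nat_lit 0x600020006000a000a00000000000000000000)) (.non (nat_lit 0) (nat_lit 5) (nat_lit 0x14100) (nat_lit 0x100010000000000010000000000000000)))) (.non (nat_lit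 0) (nat_lit 5) (nat_lit 0x54150) (nat_lit 0x1000200010000000000010002000100000000))) (.non (nat_lit 2) (nat_lit 5) (nat_lit 0x54005) (nat_lit 0x1000200010000000000000000000000020002))) D20_60))))))))))))

noncomputable def D20_36 : RL := (.skip (.skip (.skip (.skip (.skip (.skip (.cons (nat_lit 0x2222222222222222222222222222222222222222222222222222222222222222222222222222222222222222222222222222222b222aaaaa222222b2322aa2a222222223232a222222222222325aa2a222222222252a2222222222aaaaa2b222222222aa2a2b2322222222a222223232222222aa2a222325222222a222222252) t1590 (.cons (nat_lit 0x2222222222222222222222222222222222222222222222222222222222222222222222222222222222222222222222222222222b222aa2a2222222b2322a222222222223232aa2a222222222325222222222222225222222222222aaa222b222222222a2a22b23222222222222223232222222a2a22223252222222222222252) t1591 (.cons (nat_lit 0x2222222222222222222222222222222222222222222222222222222222222222222222222222222222222222222222222222222b222a2222222222b232222222222222232322222222222222325222222222222225222222222222a22222b22222222222222b2322222222222222323222222222222223252222222222222252)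 (.split (nat_lit 9) (nat_lit 4) .uj (.sup (nat_lit 0x100040007000a0008) (nat_lit 0x100040007000a000800000000000000000000))) (.cons (nat_lit 0x2222222222222222222222222222222222222222222222222222222222222222222222222222222222222222222222222222222b222aaaaa222222b2322aa2a222222223232a222222222222325a222222222222252aa2a2222222aaaaa2b222222222aa22ab2322222222a222223232222222aa22a22325222222a222222252) t1593 (.cons (nat_lit 0x2222222222222222222222222222222222222222222222222222222222222222222222222222222222222222222222222222222b222aa2a2222222b2322a222222222223232aa2a222222222325222222222222225222222222222aaa222b222222222a2a22b23222222222222223232222222a2a22223252222222222222252) t1594 (.cons (nat_lit 0x2222222222222222222222222222222222222222222222222222222222222222222222222222222222222222222222222222222b222a2222222222b232222222222222232322222222222222325222222222222225222222222222a22222b22222222222222b2322222222222222323222222222222223252222222222222252) (.split (nat_lit 9) (nat_lit 4) .uj (.sup (nat_lit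 0x100040007000a0008) (nat_lit 0x100040007000a000800000000000000000000))) D20_48))))))))))))

noncomputable def D20_24 : RL := (.skip (.skip (.skip (.skip (.skip (.skip (.skip (.skip (.skip (.skip (.skip (.skip D20_36))))))))))))

noncomputable def D20_12 : RL := (.skip (.skip (.skip (.skip (.skip (.skip (.skip (.skip (.skip (.skip (.skip (.skip D20_24))))))))))))

noncomputable def D20 : RL := (.cons (nat_lit 0x22222222222222222222222222222222222222222222222222222222222222222222222222222222222222222222222222222222322aaa2222222222322aaa22222222332322222222222222325aaa2222222222252aa222222222aa2aa2b222222222aa2aab2322222222aa2a22323222222222222223252222222222222252) t1548 (.cons (nat_lit 0x222222222222222222222222222222222222222222222222222222222222222222222222222222222222222222222222222222223222222222222222322aa2222222223323222222222222223252222222222222252222222222222a2222b2222222222a222b2322222222222222323222222222222223252222222222222252) (.split (nat_lit 8) (nat_lit 3) (.split (nat_lit 8) (nat_lit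 4) .uj (.sup (nat_lit 0x100040007000a0008) (nat_lit 0x300010007000a000800000000000000000000))) (.non (nat_lit 0) (nat_lit 5) (nat_lit 0x55150) (nat_lit 0x1000200020001000000010002000100000000))) (.cons (nat_lit 0x22222222222222222222222222222222222222222222222222222222222222222222222222222222222222222222222222222222322aaa2222222222322aaa2222222233232aa22222222222325aa22222222222252aaa22222222aaaaa2b222222222aaaaab2322222222aa22a2323222222222222223252222222222222252) t1550 (.cons (nat_lit 0x222222222222222222222222222222222222222222222222222222222222222222222222222222222222222222222222222222223222222222222222322aa2222222223323222222222222223252222222222222252222222222222a2222b2222222222a222b2322222222222222323222222222222223252222222222222252) (.split (nat_lit 8) (nat_lit 3) (.split (nat_lit 8) (nat_lit 4) .uj (.sup (nat_lit 0x100040007000a0008) (nat_lit 0x300010007000a000800000000000000000000))) (.split (nat_lit 8) (nat_lit 4) (.sup (nat_lit 0x40008000e00140010) (nat_lit 0x70001000e0014001000000000000000000000))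 (.non (nat_lit 0) (nat_lit 6) (nat_lit 0x10140) (nat_lit 0x100000000000000010001000000000000)))) (.cons (nat_lit 0x222222222222222222222222222222222222222222222222222222222222222222222222222222222222222222222222222222223222222222222222322aa2222222223323222222222222223252222222222222252222222222222a2222b2222222222a222b2322222222222222323222222222222223252222222222222252) (.split (nat_lit 8) (nat_lit 3) (.split (nat_lit 8) (nat_lit 4) .uj (.sup (nat_lit 0x100040007000a0008) (nat_lit 0x300010007000a000800000000000000000000))) (.split (nat_lit 8) (nat_lit 4) (.sup (nat_lit 0x40008000e00140010) (nat_lit 0x70001000e0014001000000000000000000000)) (.non (nat_lit 0) (nat_lit 7) (nat_lit 0x10140) (nat_lit 0x100000000000000010001000000000000)))) (.cons (nat_lit 0x22222222222222222222222222222222222222222222222222222222222222222222222222222222222222222222222222222222322222222222222232222222222222332322222222222222325222222222222225222222222222222222b22222222222222b2322222222222222323222222222222223252222222222222252)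 .uj (.cons (nat_lit 0x22222222222222222222222222222222222222222222222222222222222222222222222222222222222222222222222222222223223aaa2222222232322aaaaa22222223232aaa2222222222324aa22222222232242aa222222222aaaaa2b222222222aaaaab2322222222aaa22232322222222a222223252222222a22222252) t1554 (.cons (nat_lit 0x222222222222222222222222222222222222222222222222222222222222222222222222222222222222222222222222222222232232222222222232322aaa2222222223232aa222222222223242222222222232242222222222222aa222b2222222222aa22b23222222222a2222323222222222222223252222222222222252) (.split (nat_lit 8) (nat_lit 2) (.split (nat_lit 8) (nat_lit 3) (.split (nat_lit 7) (nat_lit 3) (.split (nat_lit 8) (nat_lit 4) (.split (nat_lit 7) (nat_lit 4) .uj (.sup (nat_lit 0x100040007000a0008) (nat_lit 0x8000500030009000a00000000000000000000))) (.split (nat_lit 7) (nat_lit 4) (.sup (nat_lit 0x100040007000a0008) (nat_lit 0x600020006000a000a00000000000000000000)) (.non (nat_lit 0) (nat_lit 5) (nat_lit 0x14100) (nat_lit 0x100010000000000010000000000000000))))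 (.non (nat_lit 0) (nat_lit 5) (nat_lit 0x15150) (nat_lit 0x100020001000000010002000100000000))) (.non (nat_lit 0) (nat_lit 5) (nat_lit 0x54150) (nat_lit 0x1000200010000000000010002000100000000))) (.non (nat_lit 0) (nat_lit 5) (nat_lit 0x54054) (nat_lit 0x1000200010000000000000001000200010000))) (.cons (nat_lit 0x222222222222222222222222222222222222222222222222222222222222222222222222222222222222222222222222222222232232222222222232322aa2222222222323222222222222223242222222222232242222222222222a2222b2222222222a222b2322222222222222323222222222222223252222222222222252) (.split (nat_lit 8) (nat_lit 3) (.split (nat_lit 8) (nat_lit 4) .uj (.sup (nat_lit 0x100040007000a0008) (nat_lit 0x600020006000a000a00000000000000000000))) (.non (nat_lit 0) (nat_lit 5) (nat_lit 0x54150) (nat_lit 0x1000200010000000000010002000100000000))) (.cons (nat_lit 0x22222222222222222222222222222222222222222222222222222222222222222222222222222222222222222222222222222223223aa22222222232322aaa22222222232322222222222222324222222222223224222222222222aa2222b222222222aa222b23222222222a2222323222222222222223252222222222222252)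 (.split (nat_lit 8) (nat_lit 2) (.split (nat_lit 8) (nat_lit 3) (.split (nat_lit 9) (nat_lit 3) (.split (nat_lit 9) (nat_lit 4) (.split (nat_lit 8) (nat_lit 4) .uj (.sup (nat_lit 0x100040007000a0008) (nat_lit 0x600020006000a000a00000000000000000000))) (.split (nat_lit 8) (nat_lit 4) (.sup (nat_lit 0x100040007000a0008) (nat_lit 0x300050008000a000900000000000000000000)) (.non (nat_lit 0) (nat_lit 5) (nat_lit 0x50100) (nat_lit 0x1000100000000000000010000000000000000)))) (.split (nat_lit 9) (nat_lit 4) (.split (nat_lit 8) (nat_lit 4) (.split (nat_lit 9) (nat_lit 3) (.split (nat_lit 4) (nat_lit 3) (.par (nat_lit 0x42550) (nat_lit 0x2000000000001000200010002000100000000)) (.non (nat_lit 0) (nat_lit 5) (nat_lit 0x40250) (nat_lit 0x1000000000000000000010002000100000000))) (.non (nat_lit 0) (nat_lit 5) (nat_lit 0xa8140) (nat_lit 0x3000200010000000000020004000000000000))) (.non (nat_lit 0) (nat_lit 5) (nat_lit 0x50140) (nat_lit 0x1000100000000000000010001000000000000))) (.non (nat_lit 0) (nat_lit 5) (nat_lit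 0x40140) (nat_lit 0x1000000000000000000010001000000000000)))) (.non (nat_lit 0) (nat_lit 5) (nat_lit 0x54150) (nat_lit 0x1000200010000000000010002000100000000))) (.non (nat_lit 0) (nat_lit 5) (nat_lit 0x54054) (nat_lit 0x1000200010000000000000001000200010000))) (.cons (nat_lit 0x222222222222222222222222222222222222222222222222222222222222222222222222222222222222222222222222222222232232222222222232322aa2222222222323222222222222223242222222222232242222222222222a2222b2222222222a222b2322222222222222323222222222222223252222222222222252) (.split (nat_lit 8) (nat_lit 3) (.split (nat_lit 8) (nat_lit 4) .uj (.sup (nat_lit 0x100040007000a0008) (nat_lit 0x600020006000a000a00000000000000000000))) (.non (nat_lit 0) (nat_lit 7) (nat_lit 0x52550) (nat_lit 0x2000200000001000200010002000100000000))) (.cons (nat_lit 0x222222222222222222222222222222222222222222222222222222222222222222222222222222222222222222222222222222232232222222222232322aaa222222222323222222222222223242222222222232242222222222222a2222b2222222222a222b23222222222a2222323222222222222223252222222222222252)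 (.split (nat_lit 8) (nat_lit 2) (.split (nat_lit 8) (nat_lit 3) (.split (nat_lit 8) (nat_lit 4) .uj (.sup (nat_lit 0x100040007000a0008) (nat_lit 0x600020006000a000a00000000000000000000))) (.non (nat_lit 0) (nat_lit 7) (nat_lit 0x52550) (nat_lit 0x2000200000001000200010002000100000000))) (.non (nat_lit 0) (nat_lit 7) (nat_lit 0x52454) (nat_lit 0x2000200000001000200000001000200010000))) D20_12))))))))))))

theorem cov_D20 : Cov 1548 1646 := by
  have h1 : rl D20 (nat_lit 1548) = true := by decide +kernel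
  have h2 : 1548 + rlen D20 = 1646 := by decide +kernel
  exact cov_of h1 h2

end MP86a502
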