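import Pool.Agent.Lib.MP_86a502_gt.U.D00
import Pool.Agent.Lib.MP_86a502_gt.U.D01
import Pool.Agent.Lib.MP_86a502_gt.U.D02
import Pool.Agent.Lib.MP_86a502_gt.U.D03
import Pool.Agent.Lib.MP_86a502_gt.U.D04
import Pool.Agent.Lib.MP_86a502_gt.U.D05
import Pool.Agent.Lib.MP_86a502_gt.U.D06
import Pool.Agent.Lib.MP_86a502_gt.U.D07
import Pool.Agent.Lib.MP_86a502_gt.U.D08
import Pool.Agent.Lib.MP_86a502_gt.U.D09
import Pool.Agent.Lib.MP_86a502_gt.U.D10
import Pool.Agent.Lib.MP_86a502_gt.U.D11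
import Pool.Agent.Lib.MP_86a502_gt.U.D12
import Pool.Agent.Lib.MP_86a502_gt.U.D13
import Pool.Agent.Lib.MP_86a502_gt.U.D14
import Pool.Agent.Lib.MP_86a502_gt.U.D15
import Pool.Agent.Lib.MP_86a502_gt.U.D16
import Pool.Agent.Lib.MP_86a502_gt.U.D17
import Pool.Agent.Lib.MP_86a502_gt.U.D18
import Pool.Agent.Lib.MP_86a502_gt.U.D19
import Pool.Agent.Lib.MP_86a502_gt.U.D20
import Pool.Agent.Lib.MP_86a502_gt.U.D21
import Pool.Agent.Lib.MP_86a502_gt.U.D22

set_option autoImplicit false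

/-! # All pairs of halves are certified -/

namespace MP86a502

theorem cov_all : Cov 0 2704 :=
  cov_D0
  |>.trans cov_D1
  |>.trans cov_D2
  |>.trans cov_D3
  |>.trans cov_D4
  |>.trans cov_D5
  |>.trans cov_D6
  |>.trans cov_D7
  |>.trans cov_D8
  |>.trans cov_D9
  |>.trans cov_D10
  |>.trans cov_D11
  |>.trans cov_D12
  |>.trans cov_D13
  |>.trans cov_D14
  |>.trans cov_D15
  |>.trans cov_D16
  |>.trans cov_D17
  |>.trans cov_D18
  |>.trans cov_D19
  |>.trans cov_D20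
  |>.trans cov_D21
  |>.trans cov_D22

theorem hdat (h k : ℕ) (hhk : h ≤ k) (hk : k < 52) : ∃ c t, hR h k c t = true := by
  have h1 := cov_all (52 * h + k) (Nat.zero_le _) (by omega)
  have h2 : (52 * h + k) / 52 = h := by omega
  have h3 : (52 * h + k) % 52 = k := by omega
  rw [h2, h3] at h1
  exact h1 hhk

end MP86a502
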