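import Pool.Agent.Lib.MP_86a502_gt.U.Chk

set_option autoImplicit false
set_option linter.unusedVariables false
set_option maxRecDepth 100000

/-! # Small tables and their verification -/

namespace MP86a502

/-- lists of certificates for saturated nodes of halves -/
inductive ZL : Type
  | nil : ZL
  | cons (h u x s v r w : ℕ) (l : ZL) : ZL

/-- some entry of the list certifies the node `u` of the half `h` -/
noncomputable def zC (h u : ℕ) (l : ZL) : Bool :=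
  ZL.rec false (fun h' u' x s v r w _ f =>
    bcB (bcB (Nat.beq h h') (bcB (Nat.beq u u')
      (bcB (bcB (Nat.beq x (hP h)) true (Nat.beq x (hQ h)))
        (bcB (nz v x) false (npdz (lN (hT h)) (lC (hT h)) s v u r w)) false) false) false)
      true f) l

/-- the certificates -/
noncomputable def zD : ZL :=
  (.cons (nat_lit 1) (nat_lit 2) (nat_lit 0) (nat_lit 0x14) (nat_lit 0x200020000) (nat_lit 1) (nat_lit 1) (.cons (nat_lit 1) (nat_lit 1) (nat_lit 0) (nat_lit 0x14) (nat_lit 0x200020000) (nat_lit 1) (nat_lit 1) (.cons (nat_lit 2) (nat_lit 2) (nat_lit 0) (nat_lit 0x14) (nat_lit 0x200020000) (nat_lit 1) (nat_lit 1) (.cons (nat_lit 2) (nat_lit 1) (nat_lit 0) (nat_lit 0x14) (nat_lit 0x200020000) (nat_lit 1) (nat_lit 1) (.cons (nat_lit 0xb) (nat_lit 2) (nat_lit 0) (nat_lit 0x54) (nat_lit 0x1000200020000) (nat_lit 1) (nat_lit 1) (.cons (nat_lit 0xb) (nat_lit 1) (nat_lit 0) (nat_lit 0x54) (nat_lit 0x1000200020000)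 (nat_lit 1) (nat_lit 1) (.cons (nat_lit 0xc) (nat_lit 2) (nat_lit 0) (nat_lit 0x54) (nat_lit 0x1000200020000) (nat_lit 1) (nat_lit 1) (.cons (nat_lit 0xc) (nat_lit 1) (nat_lit 0) (nat_lit 0x54) (nat_lit 0x1000200020000) (nat_lit 1) (nat_lit 1) (.cons (nat_lit 0xd) (nat_lit 2) (nat_lit 0) (nat_lit 0x54) (nat_lit 0x1000200020000) (nat_lit 1) (nat_lit 1) (.cons (nat_lit 0xd) (nat_lit 1) (nat_lit 0) (nat_lit 0x54) (nat_lit 0x1000200020000) (nat_lit 1) (nat_lit 1) (.cons (nat_lit 0xf) (nat_lit 2) (nat_lit 0) (nat_lit 0x94) (nat_lit 0x1000200010000) (nat_lit 1) (nat_lit 1) (.cons (nat_lit 0x10) (nat_lit 2) (nat_lit 0) (nat_lit 0x94) (nat_lit 0x1000200010000) (nat_lit 1) (nat_lit 1) (.cons (nat_lit 0x11) (nat_lit 2) (nat_lit 0) (nat_lit 0x94) (nat_lit 0x1000200010000) (nat_lit 1) (nat_lit 1) (.cons (nat_lit 0x11) (nat_lit 1) (nat_lit 3) (nat_lit 0x15) (nat_lit 0x100020002) (nat_lit 1) (nat_lit 1) (.cons (nat_lit 0x11)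 (nat_lit 0) (nat_lit 3) (nat_lit 0x15) (nat_lit 0x100020002) (nat_lit 1) (nat_lit 1) (.cons (nat_lit 0x13) (nat_lit 1) (nat_lit 3) (nat_lit 0x15) (nat_lit 0x100020002) (nat_lit 1) (nat_lit 1) (.cons (nat_lit 0x13) (nat_lit 0) (nat_lit 3) (nat_lit 0x15) (nat_lit 0x100020002) (nat_lit 1) (nat_lit 1) (.cons (nat_lit 0x14) (nat_lit 1) (nat_lit 3) (nat_lit 0x15) (nat_lit 0x100020002) (nat_lit 1) (nat_lit 1) (.cons (nat_lit 0x14) (nat_lit 0) (nat_lit 3) (nat_lit 0x15) (nat_lit 0x100020002) (nat_lit 1) (nat_lit 1) (.cons (nat_lit 0x16) (nat_lit 1) (nat_lit 2) (nat_lit 0x45) (nat_lit 0x1000000020002) (nat_lit 1) (nat_lit 1) (.cons (nat_lit 0x16) (nat_lit 0) (nat_lit 2) (nat_lit 0x45) (nat_lit 0x1000000020002) (nat_lit 1) (nat_lit 1) (.cons (nat_lit 0x17) (nat_lit 1) (nat_lit 2) (nat_lit 0x45) (nat_lit 0x1000000020002) (nat_lit 1) (nat_lit 1) (.cons (nat_lit 0x17) (nat_lit 0) (nat_lit 2) (nat_lit 0x45) (nat_lit 0x1000000020002)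 (nat_lit 1) (nat_lit 1) (.cons (nat_lit 0x18) (nat_lit 1) (nat_lit 2) (nat_lit 0x45) (nat_lit 0x1000000020002) (nat_lit 1) (nat_lit 1) (.cons (nat_lit 0x18) (nat_lit 0) (nat_lit 2) (nat_lit 0x45) (nat_lit 0x1000000020002) (nat_lit 1) (nat_lit 1) (.cons (nat_lit 0x1a) (nat_lit 0) (nat_lit 2) (nat_lit 0x49) (nat_lit 0x1000000010002) (nat_lit 1) (nat_lit 1) (.cons (nat_lit 0x1b) (nat_lit 1) (nat_lit 3) (nat_lit 0x29) (nat_lit 0x100020002) (nat_lit 2) (nat_lit 1) (.cons (nat_lit 0x1c) (nat_lit 1) (nat_lit 3) (nat_lit 0x29) (nat_lit 0x100020002) (nat_lit 2) (nat_lit 1) (.cons (nat_lit 0x1c) (nat_lit 0) (nat_lit 2) (nat_lit 0x49) (nat_lit 0x1000000010002) (nat_lit 1) (nat_lit 1) (.cons (nat_lit 0x1f) (nat_lit 1) (nat_lit 3) (nat_lit 0x15) (nat_lit 0x100020002) (nat_lit 1) (nat_lit 1) (.cons (nat_lit 0x1f) (nat_lit 0) (nat_lit 3) (nat_lit 0x15) (nat_lit 0x100020002) (nat_lit 1) (nat_lit 1) (.cons (nat_lit 0x20) (nat_lit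 3) (nat_lit 4) (nat_lit 0x55) (nat_lit 0x2000300040003) (nat_lit 1) (nat_lit 1) (.cons (nat_lit 0x20) (nat_lit 2) (nat_lit 4) (nat_lit 0x55) (nat_lit 0x1000200020002) (nat_lit 1) (nat_lit 1) (.cons (nat_lit 0x20) (nat_lit 1) (nat_lit 4) (nat_lit 0x15) (nat_lit 0x100020002) (nat_lit 1) (nat_lit 1) (.cons (nat_lit 0x20) (nat_lit 0) (nat_lit 4) (nat_lit 0x15) (nat_lit 0x100020002) (nat_lit 1) (nat_lit 1) (.cons (nat_lit 0x22) (nat_lit 1) (nat_lit 3) (nat_lit 0x15) (nat_lit 0x100020002) (nat_lit 1) (nat_lit 1) (.cons (nat_lit 0x22) (nat_lit 0) (nat_lit 3) (nat_lit 0x15) (nat_lit 0x100020002) (nat_lit 1) (nat_lit 1) (.cons (nat_lit 0x23) (nat_lit 3) (nat_lit 4) (nat_lit 0x55) (nat_lit 0x2000300040003) (nat_lit 1) (nat_lit 1) (.cons (nat_lit 0x23) (nat_lit 2) (nat_lit 4) (nat_lit 0x55) (nat_lit 0x1000200020002) (nat_lit 1) (nat_lit 1) (.cons (nat_lit 0x23) (nat_lit 1) (nat_lit 4) (nat_lit 0x15) (nat_lit 0x100020002)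 (nat_lit 1) (nat_lit 1) (.cons (nat_lit 0x23) (nat_lit 0) (nat_lit 4) (nat_lit 0x15) (nat_lit 0x100020002) (nat_lit 1) (nat_lit 1) (.cons (nat_lit 0x24) (nat_lit 1) (nat_lit 3) (nat_lit 0x15) (nat_lit 0x100020002) (nat_lit 1) (nat_lit 1) (.cons (nat_lit 0x24) (nat_lit 0) (nat_lit 3) (nat_lit 0x15) (nat_lit 0x100020002) (nat_lit 1) (nat_lit 1) (.cons (nat_lit 0x25) (nat_lit 3) (nat_lit 4) (nat_lit 0x55) (nat_lit 0x2000300040003) (nat_lit 1) (nat_lit 1) (.cons (nat_lit 0x25) (nat_lit 2) (nat_lit 4) (nat_lit 0x55) (nat_lit 0x1000200020002) (nat_lit 1) (nat_lit 1) (.cons (nat_lit 0x25) (nat_lit 1) (nat_lit 4) (nat_lit 0x15) (nat_lit 0x100020002) (nat_lit 1) (nat_lit 1) (.cons (nat_lit 0x25) (nat_lit 0) (nat_lit 4) (nat_lit 0x15) (nat_lit 0x100020002) (nat_lit 1) (nat_lit 1) (.cons (nat_lit 0x26) (nat_lit 3) (nat_lit 4) (nat_lit 0x55) (nat_lit 0x2000300040003) (nat_lit 1) (nat_lit 1) (.cons (nat_lit 0x26) (nat_lit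 2) (nat_lit 4) (nat_lit 0x55) (nat_lit 0x1000200020002) (nat_lit 1) (nat_lit 1) (.cons (nat_lit 0x26) (nat_lit 1) (nat_lit 3) (nat_lit 0x15) (nat_lit 0x100020002) (nat_lit 1) (nat_lit 1) (.cons (nat_lit 0x26) (nat_lit 0) (nat_lit 3) (nat_lit 0x15) (nat_lit 0x100020002) (nat_lit 1) (nat_lit 1) (.cons (nat_lit 0x27) (nat_lit 2) (nat_lit 0) (nat_lit 0x154) (nat_lit 0x10001000200010000) (nat_lit 1) (nat_lit 1) (.cons (nat_lit 0x28) (nat_lit 2) (nat_lit 0) (nat_lit 0x154) (nat_lit 0x10001000200010000) (nat_lit 1) (nat_lit 1) (.cons (nat_lit 0x29) (nat_lit 4) (nat_lit 3) (nat_lit 0x115) (nat_lit 0x20000000300040003) (nat_lit 1) (nat_lit 1) (.cons (nat_lit 0x29) (nat_lit 2) (nat_lit 0) (nat_lit 0x154) (nat_lit 0x10001000200010000) (nat_lit 1) (nat_lit 1) (.cons (nat_lit 0x29) (nat_lit 1) (nat_lit 3) (nat_lit 0x15) (nat_lit 0x100020002) (nat_lit 1) (nat_lit 1) (.cons (nat_lit 0x29) (nat_lit 0) (nat_lit 3) (nat_lit 0x15)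 (nat_lit 0x100020002) (nat_lit 1) (nat_lit 1) (.cons (nat_lit 0x2b) (nat_lit 4) (nat_lit 3) (nat_lit 0x115) (nat_lit 0x20000000300040003) (nat_lit 1) (nat_lit 1) (.cons (nat_lit 0x2b) (nat_lit 2) (nat_lit 3) (nat_lit 0x115) (nat_lit 0x10000000200020002) (nat_lit 1) (nat_lit 1) (.cons (nat_lit 0x2b) (nat_lit 1) (nat_lit 3) (nat_lit 0x15) (nat_lit 0x100020002) (nat_lit 1) (nat_lit 1) (.cons (nat_lit 0x2b) (nat_lit 0) (nat_lit 3) (nat_lit 0x15) (nat_lit 0x100020002) (nat_lit 1) (nat_lit 1) (.cons (nat_lit 0x2c) (nat_lit 4) (nat_lit 3) (nat_lit 0x115) (nat_lit 0x20000000300040003) (nat_lit 1) (nat_lit 1) (.cons (nat_lit 0x2c) (nat_lit 2) (nat_lit 3) (nat_lit 0x115) (nat_lit 0x10000000200020002) (nat_lit 1) (nat_lit 1) (.cons (nat_lit 0x2c) (nat_lit 1) (nat_lit 3) (nat_lit 0x15) (nat_lit 0x100020002) (nat_lit 1) (nat_lit 1) (.cons (nat_lit 0x2c) (nat_lit 0) (nat_lit 3) (nat_lit 0x15) (nat_lit 0x100020002) (nat_lit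 1) (nat_lit 1) (.cons (nat_lit 0x2d) (nat_lit 4) (nat_lit 3) (nat_lit 0x115) (nat_lit 0x20000000300040003) (nat_lit 1) (nat_lit 1) (.cons (nat_lit 0x2d) (nat_lit 3) (nat_lit 4) (nat_lit 0x55) (nat_lit 0x2000300040003) (nat_lit 1) (nat_lit 1) (.cons (nat_lit 0x2d) (nat_lit 2) (nat_lit 3) (nat_lit 0x115) (nat_lit 0x10000000200020002) (nat_lit 1) (nat_lit 1) (.cons (nat_lit 0x2d) (nat_lit 1) (nat_lit 3) (nat_lit 0x15) (nat_lit 0x100020002) (nat_lit 1) (nat_lit 1) (.cons (nat_lit 0x2d) (nat_lit 0) (nat_lit 3) (nat_lit 0x15) (nat_lit 0x100020002) (nat_lit 1) (nat_lit 1) (.cons (nat_lit 0x2f) (nat_lit 4) (nat_lit 2) (nat_lit 0x149) (nat_lit 0x20001000000010002) (nat_lit 1) (nat_lit 1) (.cons (nat_lit 0x2f) (nat_lit 1) (nat_lit 2) (nat_lit 0x149) (nat_lit 0x20001000000020003) (nat_lit 2) (nat_lit 1) (.cons (nat_lit 0x2f) (nat_lit 0) (nat_lit 2) (nat_lit 0x109) (nat_lit 0x10000000000010002) (nat_lit 1) (nat_lit 1) (.cons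 (nat_lit 0x30) (nat_lit 4) (nat_lit 3) (nat_lit 0x129) (nat_lit 0x20000000100020003) (nat_lit 1) (nat_lit 1) (.cons (nat_lit 0x30) (nat_lit 2) (nat_lit 3) (nat_lit 0x129) (nat_lit 0x20000000200030004) (nat_lit 2) (nat_lit 1) (.cons (nat_lit 0x30) (nat_lit 1) (nat_lit 3) (nat_lit 0x29) (nat_lit 0x100020002) (nat_lit 2) (nat_lit 1) (.cons (nat_lit 0x30) (nat_lit 0) (nat_lit 3) (nat_lit 0x109) (nat_lit 0x10000000000010002) (nat_lit 1) (nat_lit 1) (.cons (nat_lit 0x31) (nat_lit 2) (nat_lit 4) (nat_lit 0xa9) (nat_lit 0x1000200020002) (nat_lit 2) (nat_lit 1) (.cons (nat_lit 0x31) (nat_lit 1) (nat_lit 4) (nat_lit 0x29) (nat_lit 0x100020002) (nat_lit 2) (nat_lit 1) (.cons (nat_lit 0x31) (nat_lit 0) (nat_lit 4) (nat_lit 0xa9) (nat_lit 0x1000200030004) (nat_lit 1) (nat_lit 2) (.cons (nat_lit 0x32) (nat_lit 4) (nat_lit 2) (nat_lit 0x149) (nat_lit 0x20001000000010002) (nat_lit 1) (nat_lit 1) (.cons (nat_lit 0x32) (nat_lit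 2) (nat_lit 3) (nat_lit 0x129) (nat_lit 0x20000000200030004) (nat_lit 2) (nat_lit 1) (.cons (nat_lit 0x32) (nat_lit 1) (nat_lit 2) (nat_lit 0x149) (nat_lit 0x20001000000020003) (nat_lit 2) (nat_lit 1) (.cons (nat_lit 0x32) (nat_lit 0) (nat_lit 2) (nat_lit 0x109) (nat_lit 0x10000000000010002) (nat_lit 1) (nat_lit 1) (.cons (nat_lit 0x33) (nat_lit 4) (nat_lit 2) (nat_lit 0x149) (nat_lit 0x20001000000010002) (nat_lit 1) (nat_lit 1) (.cons (nat_lit 0x33) (nat_lit 2) (nat_lit 4) (nat_lit 0xa9) (nat_lit 0x1000200020002) (nat_lit 2) (nat_lit 1) (.cons (nat_lit 0x33) (nat_lit 1) (nat_lit 2) (nat_lit 0x149) (nat_lit 0x20001000000020003) (nat_lit 2) (nat_lit 1) (.cons (nat_lit 0x33) (nat_lit 0) (nat_lit 2) (nat_lit 0x109) (nat_lit 0x10000000000010002) (nat_lit 1) (nat_lit 1) .nil))))))))))))))))))))))))))))))))))))))))))))))))))))))))))))))))))))))))))))))))))))))))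

theorem zD_ok : ∀ h < 52, ∀ u < 16, bt (hS h) u = true →
    u < lN (hT h) ∧ zC h u zD = true := by decide +kernel

/-- certificate for a node of a half that has no neighbour outside -/
theorem half_cert (h : ℕ) (hh : h < 52) (u : ℕ) (hu : u < 16) (hs : bt (hS h) u = true) :
    u < lN (hT h) ∧ ∃ x s v r w, (x = hP h ∨ x = hQ h) ∧ nz v x = false ∧
      npdz (lN (hT h)) (lC (hT h)) s v u r w = true := by
  obtain ⟨h1, h2⟩ := zD_ok h hh u hu hs
  refine ⟨h1, ?_⟩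
  have key : ∀ l : ZL, zC h u l = true → ∃ x s v r w, (x = hP h ∨ x = hQ h) ∧ nz v x = false ∧
      npdz (lN (hT h)) (lC (hT h)) s v u r w = true := by
    intro l
    induction l with
    | nil => intro hf; exact absurd hf (by simp [zC])
    | cons h' u' x s v r w l ih =>
      intro hf
      change bcB (bcB (Nat.beq h h') (bcB (Nat.beq u u')
        (bcB (bcB (Nat.beq x (hP h)) true (Nat.beq x (hQ h)))
          (bcB (nz v x) false (npdz (lN (hT h)) (lC (hT h)) s v u r w)) false) false) false)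
        true (zC h u l) = true at hf
      rcases hb : (bcB (Nat.beq h h') (bcB (Nat.beq u u')
        (bcB (bcB (Nat.beq x (hP h)) true (Nat.beq x (hQ h)))
          (bcB (nz v x) false (npdz (lN (hT h)) (lC (hT h)) s v u r w)) false) false) false) with _ | _
      · rw [hb] at hf
        exact ih hf
      · refine ⟨x, s, v, r, w, ?_⟩
        rcases h1 : Nat.beq h h' with _ | _ <;> rw [h1] at hb <;> [cases hb; skip]
        rcases h2 : Nat.beq u u' with _ | _ <;> rw [h2] at hb <;> [cases hb; skip]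
        change bcB (bcB (Nat.beq x (hP h)) true (Nat.beq x (hQ h)))
          (bcB (nz v x) false (npdz (lN (hT h)) (lC (hT h)) s v u r w)) false = true at hb
        rcases h4 : nz v x with _ | _
        · rw [h4] at hb
          rcases h3 : Nat.beq x (hP h) with _ | _
          · rw [h3] at hb
            rcases h5 : Nat.beq x (hQ h) with _ | _
            · rw [h5] at hb; cases hb
            · rw [h5] at hb
              exact ⟨Or.inr (Nat.eq_of_beq_eq_true h5), rfl, hb⟩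
          · rw [h3] at hb
            exact ⟨Or.inl (Nat.eq_of_beq_eq_true h3), rfl, hb⟩
        · rw [h4] at hb
          rcases h3 : (bcB (Nat.beq x (hP h)) true (Nat.beq x (hQ h))) with _ | _ <;>
            rw [h3] at hb <;> cases hb
  exact key zD h2

/-- ranges -/
theorem half_rng : ∀ h < 52, hT h < 12 ∧ hP h < lN (hT h) ∧ hQ h < lN (hT h) ∧ hP h ≠ hQ h := by
  decide +kernel

theorem lN_rng : ∀ t < 12, 2 ≤ lN t ∧ lN t ≤ 5 := by decide +kernel

theorem lP_rng : ∀ t < 12, ∀ i < 8, ∀ j < 8, lP t i j = lP t j i ∧ lP t i i = 2 ∧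
    (lP t i j = 8 → t = 0) ∧ (lP t i j ≠ 10) := by decide +kernel

/-- `ps` is an automorphism of the diagram `t` -/
noncomputable def auC (t ps : ℕ) : Bool :=
  bcB (Nat.beq (or16 (fun a => bcN (Nat.ble (Nat.add a (nat_lit 1)) (lN t)) (bit (nb ps a))
      (nat_lit 0))) (full (lN t)))
    (all16 (fun a => bcB (Nat.ble (Nat.add a (nat_lit 1)) (lN t)) (all16 (fun b =>
      bcB (Nat.ble (Nat.add b (nat_lit 1)) (lN t))
        (Nat.beq (lP t (nb ps a) (nb ps b)) (lP t a b)) true)) true)) false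

/-- lists of automorphisms -/
inductive AL : Type
  | nil : AL
  | cons (t a b h ps : ℕ) (l : AL) : AL

noncomputable def aC (t a b : ℕ) (l : AL) : Bool :=
  AL.rec false (fun t' a' b' h ps _ f =>
    bcB (bcB (Nat.beq t t') (bcB (Nat.beq a a') (Nat.beq b b') false) false)
      (bcB (Nat.ble h (nat_lit 51)) (bcB (Nat.beq (hT h) t) (bcB (auC t ps)
        (bcB (bcB (Nat.beq (nb ps (hP h)) a) (Nat.beq (nb ps (hQ h)) b) false) true
          (bcB (Nat.beq (nb ps (hP h)) b) (Nat.beq (nb ps (hQ h)) a) false))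
          false) false) false) f) l

noncomputable def aD : AL :=
  (.cons (nat_lit 0) (nat_lit 0) (nat_lit 1) (nat_lit 0) (nat_lit 0x10) (.cons (nat_lit 1) (nat_lit 1) (nat_lit 2) (nat_lit 3) (nat_lit 0x210) (.cons (nat_lit 1) (nat_lit 0) (nat_lit 2) (nat_lit 2) (nat_lit 0x210) (.cons (nat_lit 1) (nat_lit 0) (nat_lit 1) (nat_lit 1) (nat_lit 0x210) (.cons (nat_lit 2) (nat_lit 1) (nat_lit 2) (nat_lit 6) (nat_lit 0x210) (.cons (nat_lit 2) (nat_lit 0) (nat_lit 2) (nat_lit 5) (nat_lit 0x210) (.cons (nat_lit 2) (nat_lit 0) (nat_lit 1) (nat_lit 4) (nat_lit 0x210) (.cons (nat_lit 3) (nat_lit 1) (nat_lit 2) (nat_lit 7) (nat_lit 0x12) (.cons (nat_lit 3) (nat_lit 0) (nat_lit 2) (nat_lit 8) (nat_lit 0x210) (.cons (nat_lit 3) (nat_lit 0) (nat_lit 1) (nat_lit 7) (nat_lit 0x210) (.cons (nat_lit 4) (nat_lit 1) (nat_lit 2) (nat_lit 9) (nat_lit 0x12) (.cons (nat_lit 4) (nat_lit 0) (nat_lit 2) (nat_lit 0xa) (nat_lit 0x210) (.cons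 (nat_lit 4) (nat_lit 0) (nat_lit 1) (nat_lit 9) (nat_lit 0x210) (.cons (nat_lit 5) (nat_lit 2) (nat_lit 3) (nat_lit 0xb) (nat_lit 0x123) (.cons (nat_lit 5) (nat_lit 1) (nat_lit 3) (nat_lit 0xc) (nat_lit 0x123) (.cons (nat_lit 5) (nat_lit 1) (nat_lit 2) (nat_lit 0xe) (nat_lit 0x3210) (.cons (nat_lit 5) (nat_lit 0) (nat_lit 3) (nat_lit 0xd) (nat_lit 0x3210) (.cons (nat_lit 5) (nat_lit 0) (nat_lit 2) (nat_lit 0xc) (nat_lit 0x3210) (.cons (nat_lit 5) (nat_lit 0) (nat_lit 1) (nat_lit 0xb) (nat_lit 0x3210) (.cons (nat_lit 6) (nat_lit 2) (nat_lit 3) (nat_lit 0x14) (nat_lit 0x3210) (.cons (nat_lit 6) (nat_lit 1) (nat_lit 3) (nat_lit 0x13) (nat_lit 0x3210) (.cons (nat_lit 6) (nat_lit 1) (nat_lit 2) (nat_lit 0x12) (nat_lit 0x3210) (.cons (nat_lit 6) (nat_lit 0) (nat_lit 3) (nat_lit 0x11) (nat_lit 0x3210) (.cons (nat_lit 6) (nat_lit 0) (nat_lit 2) (nat_lit 0x10) (nat_lit 0x3210) (.cons (nat_lit 6) (nat_lit 0) (nat_lit 1)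 (nat_lit 0xf) (nat_lit 0x3210) (.cons (nat_lit 7) (nat_lit 2) (nat_lit 3) (nat_lit 0x18) (nat_lit 0x3210) (.cons (nat_lit 7) (nat_lit 1) (nat_lit 3) (nat_lit 0x17) (nat_lit 0x2310) (.cons (nat_lit 7) (nat_lit 1) (nat_lit 2) (nat_lit 0x17) (nat_lit 0x3210) (.cons (nat_lit 7) (nat_lit 0) (nat_lit 3) (nat_lit 0x16) (nat_lit 0x2310) (.cons (nat_lit 7) (nat_lit 0) (nat_lit 2) (nat_lit 0x16) (nat_lit 0x3210) (.cons (nat_lit 7) (nat_lit 0) (nat_lit 1) (nat_lit 0x15) (nat_lit 0x3210) (.cons (nat_lit 8) (nat_lit 2) (nat_lit 3) (nat_lit 0x1c) (nat_lit 0x3210) (.cons (nat_lit 8) (nat_lit 1) (nat_lit 3) (nat_lit 0x1a) (nat_lit 0x2301) (.cons (nat_lit 8) (nat_lit 1) (nat_lit 2) (nat_lit 0x1b) (nat_lit 0x2301) (.cons (nat_lit 8) (nat_lit 0) (nat_lit 3) (nat_lit 0x1b) (nat_lit 0x3210) (.cons (nat_lit 8) (nat_lit 0) (nat_lit 2) (nat_lit 0x1a) (nat_lit 0x3210) (.cons (nat_lit 8) (nat_lit 0) (nat_lit 1) (nat_lit 0x19) (nat_lit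 0x3210) (.cons (nat_lit 9) (nat_lit 3) (nat_lit 4) (nat_lit 0x26) (nat_lit 0x43210) (.cons (nat_lit 9) (nat_lit 2) (nat_lit 4) (nat_lit 0x25) (nat_lit 0x43210) (.cons (nat_lit 9) (nat_lit 2) (nat_lit 3) (nat_lit 0x24) (nat_lit 0x43210) (.cons (nat_lit 9) (nat_lit 1) (nat_lit 4) (nat_lit 0x23) (nat_lit 0x43210) (.cons (nat_lit 9) (nat_lit 1) (nat_lit 3) (nat_lit 0x22) (nat_lit 0x43210) (.cons (nat_lit 9) (nat_lit 1) (nat_lit 2) (nat_lit 0x21) (nat_lit 0x43210) (.cons (nat_lit 9) (nat_lit 0) (nat_lit 4) (nat_lit 0x20) (nat_lit 0x43210) (.cons (nat_lit 9) (nat_lit 0) (nat_lit 3) (nat_lit 0x1f) (nat_lit 0x43210) (.cons (nat_lit 9) (nat_lit 0) (nat_lit 2) (nat_lit 0x1e) (nat_lit 0x43210) (.cons (nat_lit 9) (nat_lit 0) (nat_lit 1) (nat_lit 0x1d) (nat_lit 0x43210) (.cons (nat_lit 0xa) (nat_lit 3) (nat_lit 4) (nat_lit 0x2d) (nat_lit 0x43210) (.cons (nat_lit 0xa) (nat_lit 2) (nat_lit 4) (nat_lit 0x2c) (nat_lit 0x34210)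 (.cons (nat_lit 0xa) (nat_lit 2) (nat_lit 3) (nat_lit 0x2c) (nat_lit 0x43210) (.cons (nat_lit 0xa) (nat_lit 1) (nat_lit 4) (nat_lit 0x2b) (nat_lit 0x34210) (.cons (nat_lit 0xa) (nat_lit 1) (nat_lit 3) (nat_lit 0x2b) (nat_lit 0x43210) (.cons (nat_lit 0xa) (nat_lit 1) (nat_lit 2) (nat_lit 0x2a) (nat_lit 0x43210) (.cons (nat_lit 0xa) (nat_lit 0) (nat_lit 4) (nat_lit 0x29) (nat_lit 0x34210) (.cons (nat_lit 0xa) (nat_lit 0) (nat_lit 3) (nat_lit 0x29) (nat_lit 0x43210) (.cons (nat_lit 0xa) (nat_lit 0) (nat_lit 2) (nat_lit 0x28) (nat_lit 0x43210) (.cons (nat_lit 0xa) (nat_lit 0) (nat_lit 1) (nat_lit 0x27) (nat_lit 0x43210) (.cons (nat_lit 0xb) (nat_lit 3) (nat_lit 4) (nat_lit 0x32) (nat_lit 0x23401) (.cons (nat_lit 0xb) (nat_lit 2) (nat_lit 4) (nat_lit 0x33) (nat_lit 0x43210) (.cons (nat_lit 0xb) (nat_lit 2) (nat_lit 3) (nat_lit 0x32) (nat_lit 0x43210) (.cons (nat_lit 0xb) (nat_lit 1) (nat_lit 4) (nat_lit 0x2f) (nat_lit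 0x23401) (.cons (nat_lit 0xb) (nat_lit 1) (nat_lit 3) (nat_lit 0x30) (nat_lit 0x23401) (.cons (nat_lit 0xb) (nat_lit 1) (nat_lit 2) (nat_lit 0x31) (nat_lit 0x23401) (.cons (nat_lit 0xb) (nat_lit 0) (nat_lit 4) (nat_lit 0x31) (nat_lit 0x43210) (.cons (nat_lit 0xb) (nat_lit 0) (nat_lit 3) (nat_lit 0x30) (nat_lit 0x43210) (.cons (nat_lit 0xb) (nat_lit 0) (nat_lit 2) (nat_lit 0x2f) (nat_lit 0x43210) (.cons (nat_lit 0xb) (nat_lit 0) (nat_lit 1) (nat_lit 0x2e) (nat_lit 0x43210) .nil)))))))))))))))))))))))))))))))))))))))))))))))))))))))))))))))))))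

theorem aD_ok : ∀ t < 12, ∀ a < 8, ∀ b < 8, a < b → b < lN t → aC t a b aD = true := by
  decide +kernel

/-- code of a near pair of the triangle `x, y, z` -/
noncomputable def nrT (t x y z : ℕ) : Bool :=
  bcB (Nat.beq (lP t x y) (nat_lit 2))
    (any16 (fun w => bcB (Nat.ble (Nat.add w (nat_lit 1)) (lN t))
      (bcB (Nat.beq w z) false (bcB (Nat.beq (lP t x w) (nat_lit 2)) false
        (bcB (Nat.beq (lP t y w) (nat_lit 2)) false true))) false)) true

/-- at least two of the three corners are near -/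
noncomputable def tN (t i j k : ℕ) : Bool :=
  bcB (nrT t i j k) (bcB (nrT t i k j) true (nrT t j k i)) (bcB (nrT t i k j) (nrT t j k i) false)

/-- check of a triangle -/
noncomputable def tR (t i j k : ℕ) (tr : Tr) : Bool :=
  chk false (full (lN t)) (nat_lit 0) (Nat.lor (bit i) (Nat.lor (bit j) (bit k))) (nat_lit 0) tr
    (lN t) (lC t) (nat_lit 0)
    (Nat.lor (Nat.shiftLeft (nat_lit 1) (pos i i)) (Nat.lor (Nat.shiftLeft (nat_lit 1) (pos j j))
      (Nat.shiftLeft (nat_lit 1) (pos k k))))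

noncomputable def tT0 : Tr := (.st (nat_lit 0) (nat_lit 4) (nat_lit 4) (nat_lit 0x15) (nat_lit 0x100020002) (nat_lit 1) (nat_lit 1) (.st (nat_lit 1) (nat_lit 4) (nat_lit 4) (nat_lit 0x15) (nat_lit 0x100020002) (nat_lit 1) (nat_lit 1) (.st (nat_lit 2) (nat_lit 4) (nat_lit 4) (nat_lit 0x55) (nat_lit 0x1000200020002) (nat_lit 1) (nat_lit 1) (.st (nat_lit 3) (nat_lit 4) (nat_lit 4) (nat_lit 0x55) (nat_lit 0x2000300040003) (nat_lit 1) (nat_lit 1) (.ex (nat_lit 4) (.pd (.cons (nat_lit 2) (nat_lit 2) (nat_lit 0x11000) (nat_lit 0x34000) (nat_lit 0x10000100000f423f54591) (.cons (nat_lit 3) (nat_lit 3) (nat_lit 0) (nat_lit 0x40100) (nat_lit 0xf423f00000f423fb71ae1f156) .nil)) (.leaf .nil (.cons (nat_lit 0x1111) (nat_lit 0x10000) (nat_lit 0x10) (nat_lit 0x3210) .nil))) (.split (nat_lit 5) (nat_lit 0) (.split (nat_lit 5) (nat_lit 1) (.split (nat_lit 5) (nat_lit 2) (.split (nat_lit 5) (nat_lit 3) (.ex (nat_lit 4) (.ex (nat_lit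 5) (.split (nat_lit 4) (nat_lit 3) (.split (nat_lit 5) (nat_lit 4) (.pd (.cons (nat_lit 2) (nat_lit 2) (nat_lit 0) (nat_lit 0x433000) (nat_lit 0xf423fb71aea2c2800000f423f54591) (.cons (nat_lit 3) (nat_lit 3) (nat_lit 0) (nat_lit 0x440100) (nat_lit 0xf423fb71ae00000f423fb71ae1f156) .nil)) (.leaf .nil (.cons (nat_lit 0x111110) (nat_lit 1) (nat_lit 3) (nat_lit 0x432100) .nil))) (.split (nat_lit 5) (nat_lit 4) (.pd (.cons (nat_lit 2) (nat_lit 2) (nat_lit 0) (nat_lit 0x433000) (nat_lit 0xf423f7a11e7a11c00000f423f54591) (.cons (nat_lit 3) (nat_lit 3) (nat_lit 0) (nat_lit 0x440100) (nat_lit 0xf423f7a11e00000f423fb71ae1f156) .nil)) (.leaf .nil (.cons (nat_lit 0x1111) (nat_lit 0x10000) (nat_lit 0x10) (nat_lit 0x3210) .nil))) (.non (nat_lit 0) (nat_lit 0) (nat_lit 0x554) (nat_lit 0x300040003000200010000)))) (.non (nat_lit 0) (nat_lit 0) (nat_lit 0xa54) (nat_lit 0x100020003000200010000))) (.split (nat_lit 6) (nat_lit 0)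 (.split (nat_lit 6) (nat_lit 1) (.split (nat_lit 6) (nat_lit 2) (.split (nat_lit 6) (nat_lit 3) (.split (nat_lit 6) (nat_lit 4) (.ex (nat_lit 5) (.split (nat_lit 4) (nat_lit 3) (.split (nat_lit 5) (nat_lit 4) (.split (nat_lit 6) (nat_lit 5) (.pd (.cons (nat_lit 2) (nat_lit 2) (nat_lit 0) (nat_lit 0x5433000) (nat_lit 0xf423fb71aea2c289896500000f423f54591) (.cons (nat_lit 3) (nat_lit 3) (nat_lit 0) (nat_lit 0x5440100) (nat_lit 0xf423fb71aea2c2800000f423fb71ae1f156) .nil)) (.leaf .nil (.cons (nat_lit 0x1111) (nat_lit 0x10000) (nat_lit 0x10) (nat_lit 0x3210) .nil))) (.split (nat_lit 6) (nat_lit 5) (.pd (.cons (nat_lit 2) (nat_lit 2) (nat_lit 0) (nat_lit 0x5433000) (nat_lit 0xf423f7a11e7a11c7a11a00000f423f54591) (.cons (nat_lit 3) (nat_lit 3) (nat_lit 0) (nat_lit 0x5440100) (nat_lit 0xf423f7a11e7a11c00000f423fb71ae1f156) .nil)) (.leaf .nil (.cons (nat_lit 0x1111) (nat_lit 0x10000) (nat_lit 0x10) (nat_lit 0x3210) .nil)))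 (.non (nat_lit 0) (nat_lit 0) (nat_lit 0x1550) (nat_lit 0x3000400030002000100000000)))) (.non (nat_lit 0) (nat_lit 0) (nat_lit 0x2950) (nat_lit 0x1000200030002000100000000))) (.non (nat_lit 0) (nat_lit 0) (nat_lit 0x2a50) (nat_lit 0x1000200030004000200000000))) (.split (nat_lit 7) (nat_lit 0) (.split (nat_lit 7) (nat_lit 1) (.split (nat_lit 7) (nat_lit 2) (.split (nat_lit 7) (nat_lit 3) (.split (nat_lit 7) (nat_lit 4) (.split (nat_lit 7) (nat_lit 6) (.st (nat_lit 5) (nat_lit 0) (nat_lit 0) (nat_lit 0x5500) (nat_lit 0x10001000200010000000000000000) (nat_lit 1) (nat_lit 1) (.split (nat_lit 4) (nat_lit 3) (.split (nat_lit 5) (nat_lit 4) (.split (nat_lit 6) (nat_lit 5) (.split (nat_lit 7) (nat_lit 5) (.pd (.cons (nat_lit 2) (nat_lit 2) (nat_lit 0) (nat_lit 0x55433000) (nat_lit 0xf423ff423f7a11d7a11b7a11900000f423f54591) (.cons (nat_lit 3) (nat_lit 3) (nat_lit 0) (nat_lit 0x55440100) (nat_lit 0xf423ff423f7a11d7a11b00000f423fb71ae1f156)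 .nil)) (.leaf .nil (.cons (nat_lit 0x1111) (nat_lit 0x10000) (nat_lit 0x10) (nat_lit 0x3210) .nil))) (.non (nat_lit 0) (nat_lit 0) (nat_lit 0x9500) (nat_lit 0x10001000200010000000000000000))) (.non (nat_lit 0) (nat_lit 0) (nat_lit 0x6500) (nat_lit 0x10001000200010000000000000000))) (.non (nat_lit 0) (nat_lit 0) (nat_lit 0xa900) (nat_lit 0x10001000200020000000000000000))) (.non (nat_lit 0) (nat_lit 0) (nat_lit 0xaa40) (nat_lit 0x10001000200020002000000000000)))) (.non (nat_lit 0) (nat_lit 0) (nat_lit 0x5400) (nat_lit 0x10001000100000000000000000000))) (.non (nat_lit 0) (nat_lit 0) (nat_lit 0x4500) (nat_lit 0x10000000100010000000000000000))) (.non (nat_lit 0) (nat_lit 0) (nat_lit 0x4540) (nat_lit 0x10000000100010001000000000000))) (.non (nat_lit 0) (nat_lit 0) (nat_lit 0x4550) (nat_lit 0x10000000100010001000100000000))) (.non (nat_lit 0) (nat_lit 0) (nat_lit 0x4554) (nat_lit 0x10000000100010001000100010000))) (.non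 (nat_lit 4) (nat_lit 4) (nat_lit 0x5405) (nat_lit 0x30001000200000000000000030004)))) (.non (nat_lit 0) (nat_lit 0) (nat_lit 0x1500) (nat_lit 0x1000100010000000000000000))) (.non (nat_lit 0) (nat_lit 0) (nat_lit 0x1540) (nat_lit 0x1000100010001000000000000))) (.non (nat_lit 0) (nat_lit 0) (nat_lit 0x1550) (nat_lit 0x1000100010001000100000000))) (.non (nat_lit 0) (nat_lit 0) (nat_lit 0x1554) (nat_lit 0x1000100010001000100010000))) (.non (nat_lit 4) (nat_lit 4) (nat_lit 0x1015) (nat_lit 0x1000000000000000100020002)))) (.split (nat_lit 6) (nat_lit 0) (.split (nat_lit 6) (nat_lit 1) (.split (nat_lit 6) (nat_lit 2) (.split (nat_lit 6) (nat_lit 3) (.split (nat_lit 6) (nat_lit 5) (.st (nat_lit 4) (nat_lit 0) (nat_lit 0) (nat_lit 0x1540) (nat_lit 0x1000100020001000000000000) (nat_lit 1) (nat_lit 1) (.ex (nat_lit 5) (.ex (nat_lit 6) (.split (nat_lit 4) (nat_lit 3) (.split (nat_lit 5) (nat_lit 4) (.split (nat_lit 6) (nat_lit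 4) (.pd (.cons (nat_lit 2) (nat_lit 2) (nat_lit 0) (nat_lit 0x4433000) (nat_lit 0xf423ff423f7a11d7a11b00000f423f54591) (.cons (nat_lit 3) (nat_lit 3) (nat_lit 0) (nat_lit 0x4440100) (nat_lit 0xf423ff423f7a11d00000f423fb71ae1f156) .nil)) (.leaf .nil (.cons (nat_lit 0x1111110) (nat_lit 1) (nat_lit 9) (nat_lit 0x2103450) (.cons (nat_lit 0x1111100) (nat_lit 0x10) (nat_lit 8) (nat_lit 0x2103400) (.cons (nat_lit 0x1111000) (nat_lit 0x100) (nat_lit 7) (nat_lit 0x3201000) .nil))))) (.non (nat_lit 0) (nat_lit 0) (nat_lit 0x2540) (nat_lit 0x1000100020001000000000000))) (.non (nat_lit 0) (nat_lit 0) (nat_lit 0x1940) (nat_lit 0x1000100020001000000000000))) (.non (nat_lit 0) (nat_lit 0) (nat_lit 0x2a40) (nat_lit 0x1000100020002000000000000))) (.split (nat_lit 7) (nat_lit 0) (.split (nat_lit 7) (nat_lit 1) (.split (nat_lit 7) (nat_lit 2) (.split (nat_lit 7) (nat_lit 3) (.split (nat_lit 7) (nat_lit 4) (.split (nat_lit 7) (nat_lit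 5) (.st (nat_lit 6) (nat_lit 0) (nat_lit 0) (nat_lit 0x5540) (nat_lit 0x10002000100020001000000000000) (nat_lit 1) (nat_lit 1) (.split (nat_lit 4) (nat_lit 3) (.split (nat_lit 5) (nat_lit 4) (.split (nat_lit 6) (nat_lit 4) (.split (nat_lit 7) (nat_lit 6) (.pd (.cons (nat_lit 2) (nat_lit 2) (nat_lit 0) (nat_lit 0x64433000) (nat_lit 0xf423fb71aef423f65b9761a7900000f423f54591) (.cons (nat_lit 3) (nat_lit 3) (nat_lit 0) (nat_lit 0x64440100) (nat_lit 0xf423fb71aef423f65b9700000f423fb71ae1f156) .nil)) (.leaf .nil (.cons (nat_lit 0x1111) (nat_lit 0x10000) (nat_lit 0x10) (nat_lit 0x3210) .nil))) (.non (nat_lit 0) (nat_lit 0) (nat_lit 0x9540) (nat_lit 0x10002000100020001000000000000))) (.non (nat_lit 0) (nat_lit 0) (nat_lit 0x2540) (nat_lit 0x1000100020001000000000000))) (.non (nat_lit 0) (nat_lit 0) (nat_lit 0x1940) (nat_lit 0x1000100020001000000000000))) (.non (nat_lit 0) (nat_lit 0) (nat_lit 0x2a40) (nat_lit 0x1000100020002000000000000))))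 (.non (nat_lit 0) (nat_lit 0) (nat_lit 0x5500) (nat_lit 0x10001000100010000000000000000))) (.non (nat_lit 0) (nat_lit 0) (nat_lit 0x5100) (nat_lit 0x10001000000010000000000000000))) (.non (nat_lit 0) (nat_lit 0) (nat_lit 0x5140) (nat_lit 0x10001000000010001000000000000))) (.non (nat_lit 0) (nat_lit 0) (nat_lit 0x5150) (nat_lit 0x10001000000010001000100000000))) (.non (nat_lit 0) (nat_lit 0) (nat_lit 0x5154) (nat_lit 0x10001000000010001000100010000))) (.non (nat_lit 4) (nat_lit 4) (nat_lit 0x4015) (nat_lit 0x10000000000000000000100020002)))) (.split (nat_lit 7) (nat_lit 0) (.split (nat_lit 7) (nat_lit 1) (.split (nat_lit 7) (nat_lit 2) (.split (nat_lit 7) (nat_lit 3) (.split (nat_lit 7) (nat_lit 4) (.split (nat_lit 7) (nat_lit 6) (.st (nat_lit 5) (nat_lit 0) (nat_lit 0) (nat_lit 0x5540) (nat_lit 0x10001000200020001000000000000) (nat_lit 1) (nat_lit 1) (.st (nat_lit 6) (nat_lit 0) (nat_lit 0) (nat_lit 0x5550) (nat_lit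 0x10002000200030002000100000000) (nat_lit 1) (nat_lit 1) (.split (nat_lit 4) (nat_lit 3) (.split (nat_lit 5) (nat_lit 4) (.split (nat_lit 6) (nat_lit 4) (.split (nat_lit 7) (nat_lit 5) (.pd (.cons (nat_lit 2) (nat_lit 2) (nat_lit 0) (nat_lit 0x54433000) (nat_lit 0xf423ff423fb71ae65b9761a7900000f423f54591) (.cons (nat_lit 3) (nat_lit 3) (nat_lit 0) (nat_lit 0x54440100) (nat_lit 0xf423ff423fb71ae65b9700000f423fb71ae1f156) .nil)) (.leaf .nil (.cons (nat_lit 0x1111) (nat_lit 0x10000) (nat_lit 0x10) (nat_lit 0x3210) .nil))) (.non (nat_lit 0) (nat_lit 0) (nat_lit 0x9540) (nat_lit 0x10001000200020001000000000000))) (.non (nat_lit 0) (nat_lit 0) (nat_lit 0x2540) (nat_lit 0x1000100020001000000000000))) (.non (nat_lit 0) (nat_lit 0) (nat_lit 0x1940) (nat_lit 0x1000100020001000000000000))) (.non (nat_lit 0) (nat_lit 0) (nat_lit 0x2a40) (nat_lit 0x1000100020002000000000000))))) (.non (nat_lit 0) (nat_lit 0) (nat_lit 0x5500)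 (nat_lit 0x10001000100010000000000000000))) (.non (nat_lit 0) (nat_lit 0) (nat_lit 0x4500) (nat_lit 0x10000000100010000000000000000))) (.non (nat_lit 0) (nat_lit 0) (nat_lit 0x4540) (nat_lit 0x10000000100010001000000000000))) (.non (nat_lit 0) (nat_lit 0) (nat_lit 0x4550) (nat_lit 0x10000000100010001000100000000))) (.non (nat_lit 0) (nat_lit 0) (nat_lit 0x4554) (nat_lit 0x10000000100010001000100010000))) (.non (nat_lit 4) (nat_lit 4) (nat_lit 0x4015) (nat_lit 0x10000000000000000000100020002))))) (.non (nat_lit 0) (nat_lit 0) (nat_lit 0x1500) (nat_lit 0x1000100010000000000000000))) (.non (nat_lit 0) (nat_lit 0) (nat_lit 0x1140) (nat_lit 0x1000000010001000000000000))) (.non (nat_lit 0) (nat_lit 0) (nat_lit 0x1150) (nat_lit 0x1000000010001000100000000))) (.non (nat_lit 0) (nat_lit 0) (nat_lit 0x1154) (nat_lit 0x1000000010001000100010000))) (.non (nat_lit 4) (nat_lit 4) (nat_lit 0x1015) (nat_lit 0x1000000000000000100020002))))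 (.non (nat_lit 0) (nat_lit 0) (nat_lit 0x540) (nat_lit 0x100010001000000000000))) (.non (nat_lit 0) (nat_lit 0) (nat_lit 0x550) (nat_lit 0x100010001000100000000))) (.non (nat_lit 0) (nat_lit 0) (nat_lit 0x554) (nat_lit 0x100010001000100010000))) (.non (nat_lit 4) (nat_lit 4) (nat_lit 0x415) (nat_lit 0x100000000000100020002))))))))

theorem tR_0 : tR (nat_lit 9) (nat_lit 0) (nat_lit 1) (nat_lit 4) tT0 = true := by decide +kernel

noncomputable def tT1 : Tr := (.st (nat_lit 0) (nat_lit 3) (nat_lit 3) (nat_lit 0x15) (nat_lit 0x100020002) (nat_lit 1) (nat_lit 1) (.st (nat_lit 1) (nat_lit 3) (nat_lit 3) (nat_lit 0x15) (nat_lit 0x100020002) (nat_lit 1) (nat_lit 1) (.st (nat_lit 2) (nat_lit 4) (nat_lit 4) (nat_lit 0x55) (nat_lit 0x1000200020002) (nat_lit 1) (nat_lit 1) (.st (nat_lit 3) (nat_lit 4) (nat_lit 4) (nat_lit 0x55) (nat_lit 0x2000300040003) (nat_lit 1) (nat_lit 1) (.ex (nat_lit 4) (.split (nat_lit 4) (nat_lit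 3) (.pd (.cons (nat_lit 1) (nat_lit 1) (nat_lit 0) (nat_lit 0x32200) (nat_lit 0xf423fb71aea2c2800000f423f) (.cons (nat_lit 2) (nat_lit 2) (nat_lit 0) (nat_lit 0x33000) (nat_lit 0xf423fb71ae00000f423f54591) .nil)) (.leaf .nil (.cons (nat_lit 0x11110) (nat_lit 1) (nat_lit 2) (nat_lit 0x32100) .nil))) (.split (nat_lit 4) (nat_lit 3) (.pd (.cons (nat_lit 1) (nat_lit 1) (nat_lit 0) (nat_lit 0x32200) (nat_lit 0xf423f7a11e7a11c00000f423f) (.cons (nat_lit 2) (nat_lit 2) (nat_lit 0) (nat_lit 0x33000) (nat_lit 0xf423f7a11e00000f423f54591) .nil)) (.leaf .nil (.cons (nat_lit 0x11100) (nat_lit 0x10) (nat_lit 6) (nat_lit 0x1200) .nil))) (.split (nat_lit 4) (nat_lit 3) (.pd (.cons (nat_lit 1) (nat_lit 1) (nat_lit 0) (nat_lit 0x32200) (nat_lit 0xf423f54591437a200000f423f) (.cons (nat_lit 2) (nat_lit 2) (nat_lit 0) (nat_lit 0x33000) (nat_lit 0xf423f5459100000f423f54591) .nil)) (.leaf .nil (.cons (nat_lit 0x11110) (nat_lit 1)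 (nat_lit 0x10) (nat_lit 0x1230) .nil))) (.non (nat_lit 0) (nat_lit 0) (nat_lit 0x350) (nat_lit 0x10002000100000000))))) (.split (nat_lit 5) (nat_lit 0) (.split (nat_lit 5) (nat_lit 1) (.split (nat_lit 5) (nat_lit 2) (.split (nat_lit 5) (nat_lit 3) (.ex (nat_lit 4) (.ex (nat_lit 5) (.split (nat_lit 4) (nat_lit 3) (.split (nat_lit 5) (nat_lit 4) (.pd (.cons (nat_lit 1) (nat_lit 1) (nat_lit 0) (nat_lit 0x432200) (nat_lit 0xf423fb71aea2c289896500000f423f) (.cons (nat_lit 2) (nat_lit 2) (nat_lit 0) (nat_lit 0x433000) (nat_lit 0xf423fb71aea2c2800000f423f54591) .nil)) (.leaf .nil (.cons (nat_lit 0x111110) (nat_lit 1) (nat_lit 3) (nat_lit 0x432100) .nil))) (.split (nat_lit 5) (nat_lit 4) (.pd (.cons (nat_lit 1) (nat_lit 1) (nat_lit 0) (nat_lit 0x432200) (nat_lit 0xf423f7a11e7a11c7a11a00000f423f) (.cons (nat_lit 2) (nat_lit 2) (nat_lit 0) (nat_lit 0x433000) (nat_lit 0xf423f7a11e7a11c00000f423f54591) .nil)) (.leaf .nil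 (.cons (nat_lit 0x1111) (nat_lit 0x10000) (nat_lit 0x10) (nat_lit 0x3210) .nil))) (.non (nat_lit 0) (nat_lit 0) (nat_lit 0x554) (nat_lit 0x300040003000200010000)))) (.non (nat_lit 0) (nat_lit 0) (nat_lit 0xa54) (nat_lit 0x100020003000200010000))) (.split (nat_lit 6) (nat_lit 0) (.split (nat_lit 6) (nat_lit 1) (.split (nat_lit 6) (nat_lit 2) (.split (nat_lit 6) (nat_lit 3) (.split (nat_lit 6) (nat_lit 4) (.ex (nat_lit 5) (.split (nat_lit 4) (nat_lit 3) (.split (nat_lit 5) (nat_lit 4) (.split (nat_lit 6) (nat_lit 5) (.pd (.cons (nat_lit 1) (nat_lit 1) (nat_lit 0) (nat_lit 0x5432200) (nat_lit 0xf423fb71aea2c2898965927bd00000f423f) (.cons (nat_lit 2) (nat_lit 2) (nat_lit 0) (nat_lit 0x5433000) (nat_lit 0xf423fb71aea2c289896500000f423f54591) .nil)) (.leaf .nil (.cons (nat_lit 0x1111) (nat_lit 0x10000) (nat_lit 0x10) (nat_lit 0x3210) .nil))) (.split (nat_lit 6) (nat_lit 5) (.pd (.cons (nat_lit 1) (nat_lit 1) (nat_lit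 0) (nat_lit 0x5432200) (nat_lit 0xf423f7a11e7a11c7a11a7a11800000f423f) (.cons (nat_lit 2) (nat_lit 2) (nat_lit 0) (nat_lit 0x5433000) (nat_lit 0xf423f7a11e7a11c7a11a00000f423f54591) .nil)) (.leaf .nil (.cons (nat_lit 0x1111) (nat_lit 0x10000) (nat_lit 0x10) (nat_lit 0x3210) .nil))) (.non (nat_lit 0) (nat_lit 0) (nat_lit 0x1550) (nat_lit 0x3000400030002000100000000)))) (.non (nat_lit 0) (nat_lit 0) (nat_lit 0x2950) (nat_lit 0x1000200030002000100000000))) (.non (nat_lit 0) (nat_lit 0) (nat_lit 0x2a50) (nat_lit 0x1000200030004000200000000))) (.split (nat_lit 7) (nat_lit 0) (.split (nat_lit 7) (nat_lit 1) (.split (nat_lit 7) (nat_lit 2) (.split (nat_lit 7) (nat_lit 3) (.split (nat_lit 7) (nat_lit 4) (.split (nat_lit 7) (nat_lit 6) (.st (nat_lit 5) (nat_lit 0) (nat_lit 0) (nat_lit 0x5500) (nat_lit 0x10001000200010000000000000000) (nat_lit 1) (nat_lit 1) (.split (nat_lit 4) (nat_lit 3) (.split (nat_lit 5) (nat_lit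 4) (.split (nat_lit 6) (nat_lit 5) (.split (nat_lit 7) (nat_lit 5) (.pd (.cons (nat_lit 1) (nat_lit 1) (nat_lit 0) (nat_lit 0x55432200) (nat_lit 0xf423ff423f7a11d7a11b7a1197a11700000f423f) (.cons (nat_lit 2) (nat_lit 2) (nat_lit 0) (nat_lit 0x55433000) (nat_lit 0xf423ff423f7a11d7a11b7a11900000f423f54591) .nil)) (.leaf .nil (.cons (nat_lit 0x1111) (nat_lit 0x10000) (nat_lit 0x10) (nat_lit 0x3210) .nil))) (.non (nat_lit 0) (nat_lit 0) (nat_lit 0x9500) (nat_lit 0x10001000200010000000000000000))) (.non (nat_lit 0) (nat_lit 0) (nat_lit 0x6500) (nat_lit 0x10001000200010000000000000000))) (.non (nat_lit 0) (nat_lit 0) (nat_lit 0xa900) (nat_lit 0x10001000200020000000000000000))) (.non (nat_lit 0) (nat_lit 0) (nat_lit 0xaa40) (nat_lit 0x10001000200020002000000000000)))) (.non (nat_lit 0) (nat_lit 0) (nat_lit 0x5400) (nat_lit 0x10001000100000000000000000000))) (.non (nat_lit 0) (nat_lit 0) (nat_lit 0x4500) (nat_lit 0x10000000100010000000000000000)))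 (.non (nat_lit 0) (nat_lit 0) (nat_lit 0x4540) (nat_lit 0x10000000100010001000000000000))) (.non (nat_lit 0) (nat_lit 0) (nat_lit 0x4550) (nat_lit 0x10000000100010001000100000000))) (.non (nat_lit 0) (nat_lit 0) (nat_lit 0x4554) (nat_lit 0x10000000100010001000100010000))) (.non (nat_lit 3) (nat_lit 3) (nat_lit 0x5405) (nat_lit 0x30001000200000000000000030004)))) (.non (nat_lit 0) (nat_lit 0) (nat_lit 0x1500) (nat_lit 0x1000100010000000000000000))) (.non (nat_lit 0) (nat_lit 0) (nat_lit 0x1540) (nat_lit 0x1000100010001000000000000))) (.non (nat_lit 0) (nat_lit 0) (nat_lit 0x1550) (nat_lit 0x1000100010001000100000000))) (.non (nat_lit 0) (nat_lit 0) (nat_lit 0x1554) (nat_lit 0x1000100010001000100010000))) (.non (nat_lit 3) (nat_lit 3) (nat_lit 0x1505) (nat_lit 0x3000200010000000000030004)))) (.split (nat_lit 6) (nat_lit 0) (.split (nat_lit 6) (nat_lit 1) (.split (nat_lit 6) (nat_lit 2) (.split (nat_lit 6) (nat_lit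 3) (.split (nat_lit 6) (nat_lit 5) (.st (nat_lit 4) (nat_lit 0) (nat_lit 0) (nat_lit 0x1540) (nat_lit 0x1000100020001000000000000) (nat_lit 1) (nat_lit 1) (.ex (nat_lit 5) (.ex (nat_lit 6) (.split (nat_lit 4) (nat_lit 3) (.split (nat_lit 5) (nat_lit 4) (.split (nat_lit 6) (nat_lit 4) (.pd (.cons (nat_lit 1) (nat_lit 1) (nat_lit 0) (nat_lit 0x4432200) (nat_lit 0xf423ff423f7a11d7a11b7a11900000f423f) (.cons (nat_lit 2) (nat_lit 2) (nat_lit 0) (nat_lit 0x4433000) (nat_lit 0xf423ff423f7a11d7a11b00000f423f54591) .nil)) (.leaf .nil (.cons (nat_lit 0x1111110) (nat_lit 1) (nat_lit 9) (nat_lit 0x2103450) (.cons (nat_lit 0x1111100) (nat_lit 0x10) (nat_lit 8) (nat_lit 0x2103400) (.cons (nat_lit 0x1111000) (nat_lit 0x100) (nat_lit 7) (nat_lit 0x3201000) .nil))))) (.non (nat_lit 0) (nat_lit 0) (nat_lit 0x2540) (nat_lit 0x1000100020001000000000000))) (.non (nat_lit 0) (nat_lit 0) (nat_lit 0x1940) (nat_lit 0x1000100020001000000000000)))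 (.non (nat_lit 0) (nat_lit 0) (nat_lit 0x2a40) (nat_lit 0x1000100020002000000000000))) (.split (nat_lit 7) (nat_lit 0) (.split (nat_lit 7) (nat_lit 1) (.split (nat_lit 7) (nat_lit 2) (.split (nat_lit 7) (nat_lit 3) (.split (nat_lit 7) (nat_lit 4) (.split (nat_lit 7) (nat_lit 5) (.st (nat_lit 6) (nat_lit 0) (nat_lit 0) (nat_lit 0x5540) (nat_lit 0x10002000100020001000000000000) (nat_lit 1) (nat_lit 1) (.split (nat_lit 4) (nat_lit 3) (.split (nat_lit 5) (nat_lit 4) (.split (nat_lit 6) (nat_lit 4) (.split (nat_lit 7) (nat_lit 6) (.pd (.cons (nat_lit 1) (nat_lit 1) (nat_lit 0) (nat_lit 0x64432200) (nat_lit 0xf423fb71aef423f65b9761a795b8cc00000f423f) (.cons (nat_lit 2) (nat_lit 2) (nat_lit 0) (nat_lit 0x64433000) (nat_lit 0xf423fb71aef423f65b9761a7900000f423f54591) .nil)) (.leaf .nil (.cons (nat_lit 0x1111) (nat_lit 0x10000) (nat_lit 0x10) (nat_lit 0x3210) .nil))) (.non (nat_lit 0) (nat_lit 0) (nat_lit 0x9540) (nat_lit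 0x10002000100020001000000000000))) (.non (nat_lit 0) (nat_lit 0) (nat_lit 0x2540) (nat_lit 0x1000100020001000000000000))) (.non (nat_lit 0) (nat_lit 0) (nat_lit 0x1940) (nat_lit 0x1000100020001000000000000))) (.non (nat_lit 0) (nat_lit 0) (nat_lit 0x2a40) (nat_lit 0x1000100020002000000000000)))) (.non (nat_lit 0) (nat_lit 0) (nat_lit 0x5500) (nat_lit 0x10001000100010000000000000000))) (.non (nat_lit 0) (nat_lit 0) (nat_lit 0x5100) (nat_lit 0x10001000000010000000000000000))) (.non (nat_lit 0) (nat_lit 0) (nat_lit 0x5140) (nat_lit 0x10001000000010001000000000000))) (.non (nat_lit 0) (nat_lit 0) (nat_lit 0x5150) (nat_lit 0x10001000000010001000100000000))) (.non (nat_lit 0) (nat_lit 0) (nat_lit 0x5154) (nat_lit 0x10001000000010001000100010000))) (.non (nat_lit 3) (nat_lit 3) (nat_lit 0x5105) (nat_lit 0x30002000000010000000000030004)))) (.split (nat_lit 7) (nat_lit 0) (.split (nat_lit 7) (nat_lit 1) (.split (nat_lit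 7) (nat_lit 2) (.split (nat_lit 7) (nat_lit 3) (.split (nat_lit 7) (nat_lit 4) (.split (nat_lit 7) (nat_lit 6) (.st (nat_lit 5) (nat_lit 0) (nat_lit 0) (nat_lit 0x5540) (nat_lit 0x10001000200020001000000000000) (nat_lit 1) (nat_lit 1) (.st (nat_lit 6) (nat_lit 0) (nat_lit 0) (nat_lit 0x5550) (nat_lit 0x10002000200030002000100000000) (nat_lit 1) (nat_lit 1) (.split (nat_lit 4) (nat_lit 3) (.split (nat_lit 5) (nat_lit 4) (.split (nat_lit 6) (nat_lit 4) (.split (nat_lit 7) (nat_lit 5) (.pd (.cons (nat_lit 1) (nat_lit 1) (nat_lit 0) (nat_lit 0x54432200) (nat_lit 0xf423ff423fb71ae65b9761a795b8cc00000f423f) (.cons (nat_lit 2) (nat_lit 2) (nat_lit 0) (nat_lit 0x54433000) (nat_lit 0xf423ff423fb71ae65b9761a7900000f423f54591) .nil)) (.leaf .nil (.cons (nat_lit 0x1111) (nat_lit 0x10000) (nat_lit 0x10) (nat_lit 0x3210) .nil))) (.non (nat_lit 0) (nat_lit 0) (nat_lit 0x9540) (nat_lit 0x10001000200020001000000000000))) (.non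 (nat_lit 0) (nat_lit 0) (nat_lit 0x2540) (nat_lit 0x1000100020001000000000000))) (.non (nat_lit 0) (nat_lit 0) (nat_lit 0x1940) (nat_lit 0x1000100020001000000000000))) (.non (nat_lit 0) (nat_lit 0) (nat_lit 0x2a40) (nat_lit 0x1000100020002000000000000))))) (.non (nat_lit 0) (nat_lit 0) (nat_lit 0x5500) (nat_lit 0x10001000100010000000000000000))) (.non (nat_lit 0) (nat_lit 0) (nat_lit 0x4500) (nat_lit 0x10000000100010000000000000000))) (.non (nat_lit 0) (nat_lit 0) (nat_lit 0x4540) (nat_lit 0x10000000100010001000000000000))) (.non (nat_lit 0) (nat_lit 0) (nat_lit 0x4550) (nat_lit 0x10000000100010001000100000000))) (.non (nat_lit 0) (nat_lit 0) (nat_lit 0x4554) (nat_lit 0x10000000100010001000100010000))) (.non (nat_lit 3) (nat_lit 3) (nat_lit 0x4505) (nat_lit 0x30000000200010000000000030004))))) (.non (nat_lit 0) (nat_lit 0) (nat_lit 0x1500) (nat_lit 0x1000100010000000000000000))) (.non (nat_lit 0) (nat_lit 0)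 (nat_lit 0x1140) (nat_lit 0x1000000010001000000000000))) (.non (nat_lit 0) (nat_lit 0) (nat_lit 0x1150) (nat_lit 0x1000000010001000100000000))) (.non (nat_lit 0) (nat_lit 0) (nat_lit 0x1154) (nat_lit 0x1000000010001000100010000))) (.non (nat_lit 3) (nat_lit 3) (nat_lit 0x1505) (nat_lit 0x3000100020000000000030004)))) (.non (nat_lit 0) (nat_lit 0) (nat_lit 0x540) (nat_lit 0x100010001000000000000))) (.non (nat_lit 0) (nat_lit 0) (nat_lit 0x550) (nat_lit 0x100010001000100000000))) (.non (nat_lit 0) (nat_lit 0) (nat_lit 0x554) (nat_lit 0x100010001000100010000))) (.non (nat_lit 3) (nat_lit 3) (nat_lit 0x415) (nat_lit 0x100000000000100020002))))))))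

theorem tR_1 : tR (nat_lit 9) (nat_lit 0) (nat_lit 3) (nat_lit 4) tT1 = true := by decide +kernel

noncomputable def tT2 : Tr := (.st (nat_lit 0) (nat_lit 3) (nat_lit 3) (nat_lit 0x15) (nat_lit 0x100020002) (nat_lit 1) (nat_lit 1) (.st (nat_lit 1) (nat_lit 3) (nat_lit 3) (nat_lit 0x15) (nat_lit 0x100020002) (nat_lit 1) (nat_lit 1) (.st (nat_lit 2) (nat_lit 0) (nat_lit 0) (nat_lit 0x154) (nat_lit 0x10001000200010000) (nat_lit 1) (nat_lit 1) (.st (nat_lit 3) (nat_lit 4) (nat_lit 4) (nat_lit 0x55) (nat_lit 0x2000300040003) (nat_lit 1) (nat_lit 1) (.st (nat_lit 4) (nat_lit 3) (nat_lit 3) (nat_lit 0x115) (nat_lit 0x20000000300040003) (nat_lit 1) (nat_lit 1) (.pd (.cons (nat_lit 1) (nat_lit 1) (nat_lit 0) (nat_lit 0x22200) (nat_lit 0xf423ff423f7a11d00000f423f) (.cons (nat_lit 2) (nat_lit 2) (nat_lit 0) (nat_lit 0x43000) (nat_lit 0xf423ff423f00000f423f54591) .nil)) (.leaf .nil .nil)))))))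

theorem tR_2 : tR (nat_lit 0xa) (nat_lit 0) (nat_lit 3) (nat_lit 4) tT2 = true := by decide +kernel

/-- the exceptional triangles -/
def exT (t i j k : ℕ) : Bool := (t == 9 && i == 0 && j == 1 && k == 4) || (t == 9 && i == 0 && j == 3 && k == 4) || (t == 10 && i == 0 && j == 3 && k == 4)

theorem tN_ok : ∀ t < 12, ∀ i < 8, ∀ j < 8, ∀ k < 8, i < j → j < k → k < lN t →
    (tN t i j k || exT t i j k) = true := by
  have h : ∀ t < 12, ∀ i < 8, ∀ j < 8, ∀ k < 8,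
      (!(decide (i < j) && decide (j < k) && decide (k < lN t)) || (tN t i j k || exT t i j k))
        = true := by decide +kernel
  intro t ht i hi j hj k hk h1 h2 h3
  have h4 := h t ht i hi j hj k hk
  simpa only [h1, h2, h3, decide_true, Bool.and_self, Bool.not_true, Bool.false_or] using h4

theorem tdat (t i j k : ℕ) (ht : t < 12) (hij : i < j) (hjk : j < k) (hk : k < lN t) :
    tN t i j k = true ∨ ∃ tr, tR t i j k tr = true := by
  have hl := (lN_rng t ht).2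
  have h := tN_ok t ht i (by omega) j (by omega) k (by omega) hij hjk hk
  rw [Bool.or_eq_true] at h
  rcases h with h | h
  · exact Or.inl h
  · simp only [exT, Bool.or_eq_true, Bool.and_eq_true, beq_iff_eq] at h
    rcases h with (⟨⟨⟨rfl, rfl⟩, rfl⟩, rfl⟩ | ⟨⟨⟨rfl, rfl⟩, rfl⟩, rfl⟩) | ⟨⟨⟨rfl, rfl⟩, rfl⟩, rfl⟩
    · exact Or.inr ⟨_, tR_0⟩
    · exact Or.inr ⟨_, tR_1⟩
    · exact Or.inr ⟨_, tR_2⟩

/-- the known vertices of the exceptional graph -/
def V31 : ℕ := nat_lit 0x10000000000000001111100000000000111110000000000011111000000000001111100000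

theorem V31_spec : ∀ x < 16, ∀ y < 16, vt V31 x y = true ↔
    (x < 5 ∧ 5 ≤ y ∧ y < 10 ∧ (x < 4 ∨ y = 9)) := by decide +kernel

theorem V31_lt : V31 < 2 ^ 1024 := by decide +kernel

/-- the numbers of `hR` are small -/
theorem hS_lt : ∀ h < 52, hS h < 2 ^ 32 := by decide +kernel

theorem leaf_31 : ∃ n, leafQ 72 (full 5) (Nat.xor (full 10) (full 5)) 10 c31 (adjM c31) (full 10) V31
    n .nil = true :=
  ⟨(.cons (nat_lit 0x40055) (nat_lit 0x1000000000000000000000002000300040003) .nil), by decide +kernel⟩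

theorem c31_spec : (∀ a < 16, ∀ b < 16, cd c31 a b = cd c31 b a) ∧
    (∀ a < 16, ∀ b < 16, (a = b ∨ 10 ≤ a ∨ 10 ≤ b) → cd c31 a b = 2) ∧
    (∀ a < 16, ∀ b < 16, 2 ≤ cd c31 a b ∧ cd c31 a b ≤ 5) := by decide +kernel

/-- the two halves of the exceptional graph are not positive definite -/
theorem npd_31 : (∃ s u, npd 10 c31 s u = true ∧ ∀ a < 16, nz u a = true → bt (full 5) a = true) ∧
    (∃ s u, npd 10 c31 s u = true ∧ ∀ a < 16, nz u a = true →
      bt (Nat.xor (full 10) (full 5)) a = true) :=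
  ⟨⟨(nat_lit 0x155), (nat_lit 0x10002000300040003), by decide +kernel, by decide +kernel⟩, ⟨(nat_lit 0x55400), (nat_lit 0x1000200030004000300000000000000000000), by decide +kernel, by decide +kernel⟩⟩

/-- symmetry and ranges of the tables of types -/
theorem tP_rng : ∀ t < 19, tK t ≤ 8 ∧ 2 ≤ tK t ∧ ∀ i < 8, ∀ j < 8, tP t i j = tP t j i ∧
    tW t i j = tW t j i ∧ tP t i i = 2 ∧ tW t i i = 0 := by decide +kernel

/-- every node but the first is attached to an earlier one -/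
theorem tP_con : ∀ t < 19, ∀ i < tK t, 0 < i → ∃ j < i, tP t i j ≠ 2 := by decide +kernel

/-- near pairs of a type -/
def nrP (t i j : ℕ) : Prop := i ≠ j ∧ (tP t i j ≠ 2 ∨ ∃ k < tK t, k ≠ i ∧ k ≠ j ∧ tP t i k ≠ 2 ∧
  tP t k j ≠ 2)

instance (t i j : ℕ) : Decidable (nrP t i j) := by unfold nrP; infer_instance

/-- the bound for a component of type `t`; the types `17`, `18` have no bonus -/
theorem tP_bound : ∀ t < 19, ∑ i ∈ Finset.range (tK t), ∑ j ∈ Finset.range (tK t),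
    ((if nrP t i j then 2 else 0) + (if t < 17 then tW t i j else 0)) +
      (if t < 17 then 0 else 12) ≤ 8 * tK t := by decide +kernel

theorem tW_17 : ∀ t < 19, 17 ≤ t → ∀ i < 8, ∀ j < 8, tW t i j = 0 := by decide +kernel

/-- values of the partial map `l` are compatible with the new value `a` -/
def cpT (t t' : ℕ) (l : List ℕ) (a : ℕ) : Bool :=
  (List.range l.length).all fun j =>
    (l.getD j 0 != a) && (tP t l.length j == tP t' a (l.getD j 0))

/-- all extensions of a partial isomorphism from the type `t` to the type `t'` are good -/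
def btT (t t' : ℕ) : ℕ → List ℕ → Bool
  | 0, l => (t == t') && (List.range (tK t)).all fun i => (List.range (tK t)).all fun j =>
      tW t i j == tW t' (l.getD i 0) (l.getD j 0)
  | n + 1, l => (List.range (tK t')).all fun a => !(cpT t t' l a) || btT t t' n (l ++ [a])

theorem btT_ok : ∀ t < 19, ∀ t' < 19, tK t = tK t' → btT t t' (tK t) [] = true := by
  decide +kernel

end MP86a502
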