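import Pool.Agent.Lib.MP_86a502_gt.Base
import Pool.Agent.Lib.MP_86a502_gt.Tre
import Pool.Agent.Lib.MP_86a502_gt.U.Chk

set_option autoImplicit false
set_option linter.unusedSectionVars false

/-! # Definitions for the unconditional bound

`lab g i j` is the label of the edge `i, j` of the Coxeter diagram: `2, ..., 6`, `7` for finite
labels at least `7`, `8` for dotted edges. -/

namespace MP86a502

section
variable {ι : Type}

/-- The label of the edge `i, j`. -/
noncomputable def lab (g : ι → ι → ℝ) (i j : ι) : ℕ :=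
  if -(1 / 4) < g i j then 2 else if -(3 / 5) < g i j then 3 else if -(3 / 4) < g i j then 4
  else if -(41 / 50) < g i j then 5 else if -(22 / 25) < g i j then 6 else if -1 < g i j then 7
  else 8

/-- The label `l` has the code `c`: codes `2, ..., 8` are exact, a code `c ≥ 10` means that the
label is finite and at least `c - 8`. -/
def ok (c l : ℕ) : Prop := (c ≤ 8 ∧ l = c) ∨ (10 ≤ c ∧ c ≤ l + 8 ∧ l ≤ 7)

/-- Minimal sets that are not positive definite (Lannér diagrams). -/
def Lan (g : ι → ι → ℝ) (X : Finset ι) : Prop := ¬ PD g X ∧ ∀ Y ⊂ X, PD g Y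

/-- `f` identifies a connected component of `S` with the type `t`. -/
structure Mt (g : ι → ι → ℝ) (S : Finset ι) (t : ℕ) (f : ℕ → ι) : Prop where
  mem : ∀ i < tK t, f i ∈ S
  inj : ∀ i < tK t, ∀ j < tK t, f i = f j → i = j
  lb : ∀ i < tK t, ∀ j < tK t, i ≠ j → lab g (f i) (f j) = tP t i j
  closed : ∀ i < tK t, ∀ z ∈ S, adj g (f i) z → ∃ j < tK t, f j = z

open scoped Classical in
/-- The bonus of the pair `x, y` in `S`, in half-units. -/
noncomputable def bon (g : ι → ι → ℝ) (S : Finset ι) (x y : ι) : ℕ :=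
  (Finset.range 17 ×ˢ (Finset.range 8 ×ˢ Finset.range 8)).sup fun p =>
    if ∃ f : ℕ → ι, Mt g S p.1 f ∧ p.2.1 < tK p.1 ∧ p.2.2 < tK p.1 ∧ f p.2.1 = x ∧ f p.2.2 = y
    then tW p.1 p.2.1 p.2.2 else 0

open scoped Classical in
/-- The weight of the pair `x, y` in `S`, in half-units. -/
noncomputable def wt (g : ι → ι → ℝ) (S : Finset ι) (x y : ι) : ℕ :=
  (if near g S x y then 2 else 0) + bon g S x y

open scoped Classical in
/-- The image of a set of numbers `< 16`. -/
noncomputable def img (φ : ℕ → ι) (p : ℕ → Bool) : Finset ι :=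
  ((Finset.range 16).filter (fun a => p a = true)).image φ

/-- `φ` identifies the set `X` with the Lannér diagram number `t`. -/
structure LP (g : ι → ι → ℝ) (t : ℕ) (φ : ℕ → ι) (X : Finset ι) : Prop where
  inj : ∀ a < lN t, ∀ b < lN t, φ a = φ b → a = b
  mem : ∀ z, z ∈ X ↔ ∃ a < lN t, φ a = z
  cod : ∀ a < lN t, ∀ b < lN t, a ≠ b → ok (lP t a b) (lab g (φ a) (φ b))

end

section
variable {ι : Type} [Fintype ι] [DecidableEq ι]

/-- `Cox` with two more geometric facts. -/
structure CoxH (n : ℕ) (g : ι → ι → ℝ) : Prop extends Cox n g where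
  rcs : ∀ c d : ι → ℝ, ∑ i, ∑ j, c i * c j * g i j < 0 →
    (∑ i, ∑ j, c i * c j * g i j) * (∑ i, ∑ j, d i * d j * g i j) ≤
      (∑ i, ∑ j, c i * d j * g i j) ^ 2
  radon : ∀ W : Finset ι, W.card = n + 2 → ∃ A ⊆ W, ∃ B ⊆ W, Disjoint A B ∧ ¬ PD g A ∧ ¬ PD g B

open scoped Classical in
/-- The components of type `I2(5)` and `H3` of `S`. -/
noncomputable def dk (g : ι → ι → ℝ) (S : Finset ι) : Finset (Finset ι) :=
  S.powerset.filter fun K => ∃ t f, (t = 17 ∨ t = 18) ∧ Mt g S t f ∧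
    K = (Finset.range (tK t)).image f

/-- The sum of the weights of the corners of the 2-face `T` (ordered pairs). -/
noncomputable def fsum (n : ℕ) (g : ι → ι → ℝ) (T : Finset ι) : ℕ :=
  ∑ S ∈ ov n g T, ∑ x ∈ S \ T, ∑ y ∈ (S \ T).erase x, wt g S x y

/-- The union of the vertices of the face `T`. -/
noncomputable def hull (n : ℕ) (g : ι → ι → ℝ) (T : Finset ι) : Finset ι :=
  (ov n g T).biUnion id

/-- The quadrangles with hull `W`. -/
noncomputable def QF (n : ℕ) (g : ι → ι → ℝ) (W : Finset ι) : Finset (Finset ι) :=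
  (faces2 n g).filter (fun T => (ov n g T).card = 4 ∧ hull n g T = W)

/-- The triangles with hull `M`. -/
noncomputable def TF (n : ℕ) (g : ι → ι → ℝ) (M : Finset ι) : Finset (Finset ι) :=
  (faces2 n g).filter (fun T => (ov n g T).card = 3 ∧ hull n g T = M)

/-- The inequality for `W` with defect `e`. -/
def defQ (e n : ℕ) (g : ι → ι → ℝ) (W : Finset ι) : Prop :=
  4 * (QF n g W).card ≤ e + ∑ T ∈ QF n g W, fsum n g T

/-- The inequality for `M`. -/
def defT (n : ℕ) (g : ι → ι → ℝ) (M : Finset ι) : Prop :=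
  8 * (TF n g M).card ≤ ∑ T ∈ TF n g M, fsum n g T

/-- The exceptional graph: two chains `f 0, ..., f 4` and `f 5, ..., f 9`. -/
structure S31 (n : ℕ) (g : ι → ι → ℝ) (W : Finset ι) (f : ℕ → ι) : Prop where
  card : W.card = n + 2
  mem : ∀ i < 10, f i ∈ W
  inj : ∀ i < 10, ∀ j < 10, f i = f j → i = j
  lb : ∀ i < 10, ∀ j < 10, i ≠ j → lab g (f i) (f j) = p31 i j
  closed : ∀ i < 10, ∀ z ∈ W, adj g (f i) z → ∃ j < 10, f j = z
  ver : ∀ u < 5, ∀ v < 5, (u < 4 ∨ v = 4) → PD g ((W.erase (f u)).erase (f (5 + v)))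

/-- What the certificates use: `W` is the set of facets under consideration (`q = true`: `n + 2`
facets, quadrangles; `q = false`: `n + 1` facets, triangles), the nodes `a < m` are known facets
`φ a`; `c` is the matrix of codes; all neighbours in `W` of the nodes in `sat` are known; the pairs
in `V` are known vertices; `A`, `B` are Lannér diagrams. -/
structure Sem0 (q : Bool) (n : ℕ) (g : ι → ι → ℝ) (W : Finset ι) (A B m c sat V : ℕ)
    (φ : ℕ → ι) : Prop where
  cardQ : q = true → W.card = n + 2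
  cardT : q = false → W.card = n + 1
  m16 : m ≤ 16
  mem : ∀ a < m, φ a ∈ W
  inj : ∀ a < m, ∀ b < m, φ a = φ b → a = b
  cod : ∀ a < m, ∀ b < m, a ≠ b → ok (cd c a b) (lab g (φ a) (φ b))
  sym : ∀ a < 16, ∀ b < 16, cd c a b = cd c b a
  out : ∀ a < 16, ∀ b < 16, (a = b ∨ m ≤ a ∨ m ≤ b) → cd c a b = 2
  st : ∀ a, bt sat a = true → a < m ∧ ∀ z ∈ W, adj g (φ a) z → ∃ b < m, φ b = z
  ver : ∀ x y, vt V x y = true → PD g ((W.erase (φ x)).erase (φ y)) ∧
    bt A x = true ∧ (q = true → bt B y = true) ∧ (q = false → x = y)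
  aA : ∀ a, bt A a = true → a < m
  aB : ∀ a, bt B a = true → a < m
  dis : ∀ a, bt A a = true → bt B a = true → False
  npA : ¬ PD g (img φ (bt A))
  npB : q = true → ¬ PD g (img φ (bt B))
  nB : q = false → ∀ a, bt B a = false

/-- ... and moreover: `rm`, `cm` are the marked nodes, the sides of a star quadrangle (of a
triangle, if `q = false`). -/
structure Sem (q : Bool) (n : ℕ) (g : ι → ι → ℝ) (W : Finset ι) (A B rm cm m c sat V : ℕ)
    (φ : ℕ → ι) : Prop extends Sem0 q n g W A B m c sat V φ where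
  minA : ∀ Y ⊂ img φ (bt A), PD g Y
  minB : q = true → ∀ Y ⊂ img φ (bt B), PD g Y
  rmm : ∀ a, bt rm a = true → a < m
  cmm : ∀ a, bt cm a = true → a < m
  rmz : ∀ i, rm.testBit i = true → 4 ∣ i
  cmz : ∀ i, cm.testBit i = true → 4 ∣ i
  rm2 : 2 ≤ ((Finset.range 16).filter (fun a => bt rm a = true)).card
  rm3 : q = false → 3 ≤ ((Finset.range 16).filter (fun a => bt rm a = true)).card
  cm2 : q = true → 2 ≤ ((Finset.range 16).filter (fun a => bt cm a = true)).card
  hit : ∀ Z ⊆ W, ¬ PD g Z → (∀ a, bt rm a = true → φ a ∈ Z) ∨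
    (q = true ∧ ∀ a, bt cm a = true → φ a ∈ Z)
  star : q = true → ∀ a b, bt rm a = true → bt cm b = true → g (φ a) (φ b) = 0 ∧
    ∀ z ∈ W, adj g z (φ a) → adj g z (φ b) → ∃ d, (bt rm d = true ∨ bt cm d = true) ∧ φ d = z
  fin : ∀ z ∈ W, (∀ a < m, φ a ≠ z) → ∀ w ∈ W, w ≠ z → lab g z w ≤ 7

/-- The conclusion of the certificates. -/
def Goal (q : Bool) (n : ℕ) (g : ι → ι → ℝ) (W : Finset ι) : Prop :=
  (q = true → defQ 0 n g W ∨ ∃ f, S31 n g W f) ∧ (q = false → defT n g W)

end

end MP86a502
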