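import Pool.Agent.Lib.MP_86a502_gt.U.Evd

set_option autoImplicit false
set_option linter.unusedSectionVars false

/-! # JOB Eva. The sums of the checker (60-120 lines)

`rectS A V F` is a nested `tri` (`tri_eq`; `bcN_eq`): the rows `x' < x` in `A`, the columns `y' < y` in
`row V x ∧ row V x'` (`bt_land`, `vt V x y = bt (row V x) y` by definition). `tripS` similarly. -/

namespace MP86a502

theorem Eva_range {i : ℕ} (hi : i < 16) (g : ℕ → ℕ) :
    ∑ j ∈ Finset.range i, g j = ∑ j ∈ Finset.range 16, if j < i then g j else 0 := by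
  rw [← Finset.sum_filter]
  refine Finset.sum_congr ?_ fun _ _ => rfl
  ext j
  simp only [Finset.mem_range, Finset.mem_filter]
  omega

theorem Eva_ite (c : Prop) [Decidable c] (s : Finset ℕ) (g : ℕ → ℕ) :
    (if c then ∑ j ∈ s, g j else 0) = ∑ j ∈ s, if c then g j else 0 := by
  split_ifs
  · rfl
  · rw [Finset.sum_const_zero]

theorem Eva_bcN (c : Bool) (t : ℕ) : bcN c t (nat_lit 0) = if c = true then t else 0 := bcN_eq c t 0

theorem Eva_vt (V x x' y : ℕ) :
    bt (Nat.land (row V x) (row V x')) y = true ↔ vt V x y = true ∧ vt V x' y = true := by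
  rw [bt_land, Bool.and_eq_true]
  exact Iff.rfl

theorem rectS_eq (A V : ℕ) (F : ℕ → ℕ → ℕ → ℕ → ℕ) : rectS A V F =
    ∑ r ∈ RC A V, F r.1 r.2.1 r.2.2.1 r.2.2.2 := by
  unfold rectS RC
  rw [tri_eq, Finset.sum_filter, Finset.sum_product]
  refine Finset.sum_congr rfl fun x hx => ?_
  have hx16 := Finset.mem_range.1 hx
  rw [Finset.sum_product]
  have e1 : ∀ x', bcN (bt A x') (tri (bt (Nat.land (row V x) (row V x'))) (fun _ r => r)
      (fun y y' => bcN (bt (Nat.land (row V x) (row V x')) y') (F x x' y y') (nat_lit 0))) (nat_lit 0) =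
      ∑ y ∈ Finset.range 16, ∑ y' ∈ Finset.range 16, if bt A x' = true ∧ (vt V x y = true ∧ vt V x' y = true) ∧
        y' < y ∧ vt V x y' = true ∧ vt V x' y' = true then F x x' y y' else 0 := by
    intro x'
    rw [Eva_bcN, tri_eq, Eva_ite]
    refine Finset.sum_congr rfl fun y hy => ?_
    rw [Eva_range (Finset.mem_range.1 hy), Eva_ite, Eva_ite]
    refine Finset.sum_congr rfl fun y' _ => ?_
    rw [Eva_bcN]
    simp only [Eva_vt, ite_and]
  rw [Eva_range hx16, Eva_ite]
  refine Finset.sum_congr rfl fun x' _ => ?_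
  rw [e1, Eva_ite, Eva_ite, Finset.sum_product]
  refine Finset.sum_congr rfl fun y _ => ?_
  rw [Eva_ite, Eva_ite]
  refine Finset.sum_congr rfl fun y' _ => ?_
  simp only [← ite_and]
  refine if_congr ?_ rfl rfl
  tauto

theorem tripS_eq (A V : ℕ) (F : ℕ → ℕ → ℕ → ℕ) : tripS A V F =
    ∑ r ∈ TC A V, F r.1 r.2.1 r.2.2 := by
  unfold tripS TC
  rw [tri_eq, Finset.sum_filter, Finset.sum_product]
  refine Finset.sum_congr rfl fun x hx => ?_
  have hx16 := Finset.mem_range.1 hx
  rw [Finset.sum_product]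
  have e0 : ∀ y z : ℕ, (Nat.ble (Nat.add z (nat_lit 1)) y = true) ↔ z < y := fun y z => by
    rw [Nat.ble_eq]
    exact Iff.rfl
  have e1 : ∀ y, bcN (vt V y y) (sum16 (fun z => bcN (Nat.ble (Nat.add z (nat_lit 1)) y) (bcN (vt V z z) (F x y z)
      (nat_lit 0)) (nat_lit 0))) (nat_lit 0) =
      ∑ z ∈ Finset.range 16, if vt V y y = true ∧ z < y ∧ vt V z z = true then F x y z else 0 := by
    intro y
    rw [Eva_bcN, sum16_eq, Eva_ite]
    refine Finset.sum_congr rfl fun z _ => ?_
    rw [Eva_bcN, Eva_bcN]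
    simp only [e0, ite_and]
  rw [Eva_range hx16, Eva_ite]
  refine Finset.sum_congr rfl fun y _ => ?_
  rw [e1, Eva_ite, Eva_ite]
  refine Finset.sum_congr rfl fun z _ => ?_
  simp only [← ite_and, bcB_and]
  refine if_congr ?_ rfl rfl
  tauto

end MP86a502
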