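import Pool.Agent.Lib.MP_86a502_gt.U.Evd

set_option autoImplicit false
set_option linter.unusedSectionVars false

/-! # JOB Evb. The weights of the checker are lower bounds (150-220 lines)

* `fl_bon`: induction on the list `l`: if `x, y ∈ K`, `K ⊆ S` and `bd ∩ S = ∅` for the first entry, let
  `f i = φ a` where `a ∈ K` is the node with `nb ps a = i` (it exists for `i < tK t` because
  `or16 (...) = full (tK t)`; the map `a ↦ nb ps a` from `K` onto the numbers `< tK t` is a bijection
  because `K` has `tK t` elements). Then `Mt g T t f`: `mem` (`K ⊆ S`), `inj`, `lb` (the codes are entries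
  of `tP`, exact (`≤ 8`: `decide +kernel`), so they are the labels; both orders by symmetry, `tP_rng`),
  `closed`: the neighbours in `T ⊆ W` of the nodes of `K ⊆ sat` are known (`st`), so they are in `nbS ad K`
  (`bt_adjM`, the label is not `2`), so in `K` or in `bd` (`bt_xor`, `bt_lor`), and `bd ∩ S = ∅`. So
  `bon g T (φ x) (φ y) ≥ tW t (nb ps x) (nb ps y)` (`Finset.le_sup`; `t ≤ 16`, `tK t ≤ 8`).
* `cw_le`: `near`: if the code of `x, y` is not `2` it is not `10` (`noP`), so the label is not `2`; a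
  common known neighbour in `S` (if `Nat.land (Nat.land (row ad x) (row ad y)) S ≠ 0` then some bit of it is
  set; it is of the form `4 * b`, `b < 16`, by `row_adjM4`). -/

namespace MP86a502

section
variable {ι : Type} [Fintype ι] [DecidableEq ι] {n : ℕ} {g : ι → ι → ℝ} {q : Bool} {W : Finset ι}
  {A B m c sat V : ℕ} {φ : ℕ → ι}

private theorem Evb_adj_symm (h : Diag g) {x y : ι} (ha : adj g x y) : adj g y x :=
  ⟨ha.1.symm, by rw [h.symm]; exact ha.2⟩

private theorem Evb_near_symm (h : Diag g) {S : Finset ι} {x y : ι} (ha : near g S x y) :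
    near g S y x := by
  refine ⟨ha.1.symm, ?_⟩
  rcases ha.2 with h1 | ⟨z, hz, h1, h2⟩
  · exact Or.inl (by rw [h.symm]; exact h1)
  · exact Or.inr ⟨z, hz, Evb_adj_symm h h2, Evb_adj_symm h h1⟩

private theorem Evb_bon_ge {S : Finset ι} {x y : ι} {t i j : ℕ} {f : ℕ → ι} (ht : t ≤ 16)
    (hf : Mt g S t f) (hi : i < tK t) (hj : j < tK t) (hx : f i = x) (hy : f j = y) :
    tW t i j ≤ bon g S x y := by
  have hK : tK t ≤ 8 := (tP_rng t (by omega)).1
  have hm : ((t, (i, j)) : ℕ × ℕ × ℕ) ∈ Finset.range 17 ×ˢ (Finset.range 8 ×ˢ Finset.range 8) := by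
    simp only [Finset.mem_product, Finset.mem_range]
    omega
  have h2 : ∃ f : ℕ → ι, Mt g S t f ∧ i < tK t ∧ j < tK t ∧ f i = x ∧ f j = y :=
    ⟨f, hf, hi, hj, hx, hy⟩
  unfold bon
  refine le_trans ?_ (Finset.le_sup hm)
  simp only
  rw [if_pos h2]

private theorem Evb_bon_le {S : Finset ι} {x y : ι} {N : ℕ}
    (h : ∀ t i j f, t ≤ 16 → Mt g S t f → i < tK t → j < tK t → f i = x → f j = y → tW t i j ≤ N) :
    bon g S x y ≤ N := by
  unfold bon
  refine Finset.sup_le ?_
  rintro ⟨t, i, j⟩ hp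
  simp only [Finset.mem_product, Finset.mem_range] at hp
  simp only
  split_ifs with h1
  · obtain ⟨f, hf, hi, hj, hx, hy⟩ := h1
    exact h t i j f (by omega) hf hi hj hx hy
  · exact Nat.zero_le _

private theorem Evb_bon_comm (S : Finset ι) (x y : ι) : bon g S x y ≤ bon g S y x := by
  refine Evb_bon_le ?_
  intro t i j f ht hf hi hj hx hy
  have h1 := tP_rng t (by omega)
  have h2 := (h1.2.2 i (by omega) j (by omega)).2.1
  rw [h2]
  exact Evb_bon_ge ht hf hj hi hy hx

theorem wt_comm (h : Diag g) (S : Finset ι) (x y : ι) : wt g S x y = wt g S y x := by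
  have h1 : bon g S x y = bon g S y x := le_antisymm (Evb_bon_comm S x y) (Evb_bon_comm S y x)
  unfold wt
  rw [h1]
  congr 1
  by_cases h2 : near g S x y
  · rw [if_pos h2, if_pos (Evb_near_symm h h2)]
  · rw [if_neg h2, if_neg (fun h3 => h2 (Evb_near_symm h h3))]

private theorem Evb_tP8 : ∀ t < 19, ∀ i < 8, ∀ j < 8, tP t i j ≤ 8 := by decide +kernel

private theorem Evb_code {a b : ℕ} (h : Diag g) (σ : Sem0 q n g W A B m c sat V φ)
    (ha : a < m) (hb : b < m) (had : adj g (φ a) (φ b)) : cd c a b ≠ 2 := by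
  have hab : a ≠ b := by
    rintro rfl
    exact had.1 rfl
  have h1 := σ.cod a ha b hb hab
  have h2 := ((lab_adj h).1 had).2
  intro h3
  rw [h3] at h1
  rcases h1 with h1 | h1
  · exact h2 h1.2
  · omega

private theorem Evb_adj {a b : ℕ} (h : Diag g) (σ : Sem0 q n g W A B m c sat V φ)
    (hc : noP c = true) (ha : a < m) (hb : b < m) (hcd : cd c a b ≠ 2) : adj g (φ a) (φ b) := by
  have hm := σ.m16
  have hab : a ≠ b := by
    rintro rfl
    exact hcd (σ.out a (by omega) a (by omega) (Or.inl rfl))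
  have h1 := σ.cod a ha b hb hab
  have h10 := noP_sound (a := a) (b := b) hc (by omega) (by omega)
  refine (lab_adj h).2 ⟨fun h2 => hab (σ.inj a ha b hb h2), ?_⟩
  intro h3
  rw [h3] at h1
  rcases h1 with h1 | h1
  · exact hcd h1.2.symm
  · omega

private theorem Evb_entry (h : Diag g) (σ : Sem0 q n g W A B m c sat V φ) {K bd t ps : ℕ}
    (h1 : t ≤ 16) (h2 : sub K sat = true)
    (h3 : bd = Nat.xor (Nat.lor (nbS (adjM c) K) K) K)
    (h4 : or16 (fun a => bcN (bt K a) (bit (nb ps a)) (nat_lit 0)) = full (tK t))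
    (h5 : sum16 (fun a => bcN (bt K a) (nat_lit 1) (nat_lit 0)) = tK t)
    (h6 : atri (bt K) (fun a b => bcB (bt K b)
      (Nat.beq (cd c a b) (tP t (nb ps a) (nb ps b))) true) = true)
    {S : ℕ} {T : Finset ι} (hT : T ⊆ W)
    (hS : ∀ a < m, bt S a = true ↔ φ a ∈ T) (hS' : ∀ a, bt S a = true → a < m) {x y : ℕ}
    (hKx : bt K x = true) (hKy : bt K y = true) (hKS : sub K S = true)
    (hbd : Nat.land bd S = 0) (hx : x < m) (hy : y < m) :
    tW t (nb ps x) (nb ps y) ≤ bon g T (φ x) (φ y) := by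
  have hm := σ.m16
  obtain ⟨hK8, hK2, hsym⟩ := tP_rng t (by omega)
  -- the nodes of K and their numbers
  have E1 : ∀ i, i < tK t ↔ ∃ a < 16, bt K a = true ∧ i = nb ps a := by
    intro i
    rw [← bt_full (m := tK t) (by omega), ← h4, bt_or16]
    constructor
    · rintro ⟨a, ha, hb⟩
      rw [bcN_eq] at hb
      split_ifs at hb with hK
      · exact ⟨a, ha, hK, bt_bit.1 hb⟩
      · rw [show (nat_lit 0) = 0 from rfl, bt_zero] at hb
        cases hb
    · rintro ⟨a, ha, hK, hi⟩
      refine ⟨a, ha, ?_⟩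
      rw [bcN_eq, if_pos hK]
      exact bt_bit.2 hi
  have hcard : ((Finset.range 16).filter (fun a => bt K a = true)).card = tK t := by
    rw [← h5, sum16_eq, Finset.card_filter]
    refine Finset.sum_congr rfl ?_
    intro a _
    rw [bcN_eq]
  have himg : ((Finset.range 16).filter (fun a => bt K a = true)).image (nb ps) =
      Finset.range (tK t) := by
    ext i
    simp only [Finset.mem_image, Finset.mem_filter, Finset.mem_range]
    rw [E1 i]
    constructor
    · rintro ⟨a, ⟨ha, hK⟩, hi⟩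
      exact ⟨a, ha, hK, hi.symm⟩
    · rintro ⟨a, ha, hK, hi⟩
      exact ⟨a, ⟨ha, hK⟩, hi.symm⟩
  have hinj : Set.InjOn (nb ps) ((Finset.range 16).filter (fun a => bt K a = true)) := by
    refine Finset.injOn_of_card_image_eq ?_
    rw [himg, hcard, Finset.card_range]
  have hinj' : ∀ a < 16, ∀ b < 16, bt K a = true → bt K b = true → nb ps a = nb ps b → a = b := by
    intro a ha b hb hKa hKb hab
    refine hinj ?_ ?_ hab
    · simp [ha, hKa]
    · simp [hb, hKb]
  have hex : ∀ i, i < tK t → ∃ a < 16, bt K a = true ∧ i = nb ps a := fun i hi => (E1 i).1 hi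
  choose! a ha using hex
  have haK : ∀ i < tK t, bt K (a i) = true := fun i hi => (ha i hi).2.1
  have ha16 : ∀ i < tK t, a i < 16 := fun i hi => (ha i hi).1
  have han : ∀ i < tK t, nb ps (a i) = i := fun i hi => (ha i hi).2.2.symm
  have haS : ∀ i < tK t, bt S (a i) = true := fun i hi => sub_bt hKS (haK i hi)
  have ham : ∀ i < tK t, a i < m := fun i hi => hS' _ (haS i hi)
  have hat : ∀ u < 16, ∀ v < u, bt K u = true → bt K v = true →
      cd c u v = tP t (nb ps u) (nb ps v) := by
    intro u hu v hv hKu hKv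
    have h7 := atri_iff.1 h6 u hu hKu v hv
    have h8 := bcB_imp.1 h7 hKv
    exact Nat.eq_of_beq_eq_true h8
  have hlab : ∀ i < tK t, ∀ j < tK t, a j < a i → lab g (φ (a i)) (φ (a j)) = tP t i j := by
    intro i hi j hj hlt
    have h7 := hat (a i) (ha16 i hi) (a j) hlt (haK i hi) (haK j hj)
    rw [han i hi, han j hj] at h7
    have h8 := σ.cod (a i) (ham i hi) (a j) (ham j hj) (by omega)
    have h9 := Evb_tP8 t (by omega) i (by omega) j (by omega)
    rw [h7] at h8
    rcases h8 with h8 | h8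
    · exact h8.2
    · omega
  have hMt : Mt g T t (fun i => φ (a i)) := by
    refine ⟨?_, ?_, ?_, ?_⟩
    · intro i hi
      exact (hS _ (ham i hi)).1 (haS i hi)
    · intro i hi j hj hij
      have h7 := σ.inj _ (ham i hi) _ (ham j hj) hij
      rw [← han i hi, ← han j hj, h7]
    · intro i hi j hj hij
      have hne : a i ≠ a j := by
        intro h7
        apply hij
        rw [← han i hi, ← han j hj, h7]
      rcases Nat.lt_or_gt_of_ne hne with h7 | h7
      · change lab g (φ (a i)) (φ (a j)) = tP t i j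
        rw [lab_comm h, hlab j hj i hi h7]
        exact (hsym j (by omega) i (by omega)).1
      · exact hlab i hi j hj h7
    · intro i hi z hz haz
      obtain ⟨-, hst⟩ := σ.st (a i) (sub_bt h2 (haK i hi))
      obtain ⟨b, hb, rfl⟩ := hst z (hT hz) haz
      have hcd := Evb_code h σ (ham i hi) hb haz
      have hrow : bt (row (adjM c) (a i)) b = true := (bt_adjM (ha16 i hi) (by omega)).2 hcd
      have hnb : bt (nbS (adjM c) K) b = true := by
        unfold nbS
        rw [bt_or16]
        refine ⟨a i, ha16 i hi, ?_⟩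
        rw [bcN_eq, if_pos (haK i hi)]
        exact hrow
      have hKb : bt K b = true := by
        by_contra hKb
        have hKb' : bt K b = false := by simpa using hKb
        have h7 : bt bd b = true := by
          rw [h3, bt_xor, bt_lor, hnb, hKb']
          rfl
        have h8 : bt S b = true := (hS b hb).2 hz
        have h9 : bt (Nat.land bd S) b = true := by
          rw [bt_land, h7, h8]
          rfl
        rw [hbd, bt_zero] at h9
        cases h9
      have hj : nb ps b < tK t := (E1 _).2 ⟨b, by omega, hKb, rfl⟩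
      refine ⟨nb ps b, hj, ?_⟩
      have h7 : a (nb ps b) = b :=
        hinj' _ (ha16 _ hj) _ (by omega) (haK _ hj) hKb (han _ hj)
      change φ (a (nb ps b)) = φ b
      rw [h7]
  have hjx : nb ps x < tK t := (E1 _).2 ⟨x, by omega, hKx, rfl⟩
  have hjy : nb ps y < tK t := (E1 _).2 ⟨y, by omega, hKy, rfl⟩
  refine Evb_bon_ge h1 hMt hjx hjy ?_ ?_
  · rw [hinj' _ (ha16 _ hjx) x (by omega) (haK _ hjx) hKx (han _ hjx)]
  · rw [hinj' _ (ha16 _ hjy) y (by omega) (haK _ hjy) hKy (han _ hjy)]

theorem fl_bon (h : Diag g) (σ : Sem0 q n g W A B m c sat V φ) (l : FL)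
    (hl : flC c sat (adjM c) l = true) {S : ℕ} {T : Finset ι} (hT : T ⊆ W)
    (hS : ∀ a < m, bt S a = true ↔ φ a ∈ T) (hS' : ∀ a, bt S a = true → a < m) {x y : ℕ}
    (hx : x < m) (hy : y < m) : flW S x y l ≤ bon g T (φ x) (φ y) := by
  induction l with
  | nil => exact Nat.zero_le _
  | cons K bd t ps l ih =>
    have hl' : bcB (Nat.ble t (nat_lit 16))
      (bcB (sub K sat)
        (bcB (Nat.beq bd (Nat.xor (Nat.lor (nbS (adjM c) K) K) K))
          (bcB (Nat.beq (or16 (fun a => bcN (bt K a) (bit (nb ps a)) (nat_lit 0))) (full (tK t)))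
            (bcB (Nat.beq (sum16 (fun a => bcN (bt K a) (nat_lit 1) (nat_lit 0))) (tK t))
              (bcB (atri (bt K) (fun a b => bcB (bt K b)
                  (Nat.beq (cd c a b) (tP t (nb ps a) (nb ps b))) true)) (flC c sat (adjM c) l) false)
              false) false) false) false) false = true := hl
    rw [bcB_and, bcB_and, bcB_and, bcB_and, bcB_and, bcB_and] at hl'
    obtain ⟨h1, h2, h3, h4, h5, h6, h7⟩ := hl'
    have hih := ih h7
    have hw : flW S x y (.cons K bd t ps l) = bcN (bt K x) (bcN (bt K y) (bcN (sub K S)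
        (bcN (Nat.beq (Nat.land bd S) (nat_lit 0))
        (tW t (nb ps x) (nb ps y)) (flW S x y l)) (flW S x y l)) (flW S x y l)) (flW S x y l) := rfl
    rw [hw, bcN_eq, bcN_eq, bcN_eq, bcN_eq]
    split_ifs with g1 g2 g3 g4
    · exact Evb_entry h σ (Nat.le_of_ble_eq_true h1) h2 (Nat.eq_of_beq_eq_true h3)
        (Nat.eq_of_beq_eq_true h4) (Nat.eq_of_beq_eq_true h5) h6 hT hS hS' g1 g2 g3
        (Nat.eq_of_beq_eq_true g4) hx hy
    · exact hih
    · exact hih
    · exact hih
    · exact hih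

private theorem Evb_near (h : Diag g) (σ : Sem0 q n g W A B m c sat V φ) (hc : noP c = true)
    {S : ℕ} {T : Finset ι}
    (hS : ∀ a < m, bt S a = true ↔ φ a ∈ T) (hS' : ∀ a, bt S a = true → a < m) {x y : ℕ}
    (hx : x < m) (hy : y < m) (hxy : x ≠ y)
    (hn : bt (row (adjM c) x) y = true ∨
      Nat.land (Nat.land (row (adjM c) x) (row (adjM c) y)) S ≠ 0) : near g T (φ x) (φ y) := by
  have hm := σ.m16
  refine ⟨fun h1 => hxy (σ.inj x hx y hy h1), ?_⟩
  rcases hn with hn | hn
  · left
    have h1 := (bt_adjM (c := c) (a := x) (b := y) (by omega) (by omega)).1 hn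
    exact (Evb_adj h σ hc hx hy h1).2
  · right
    obtain ⟨i, hi⟩ := Nat.exists_testBit_of_ne_zero hn
    have hi' : (((row (adjM c) x) &&& (row (adjM c) y)) &&& S).testBit i = true := hi
    rw [Nat.testBit_and, Nat.testBit_and, Bool.and_eq_true, Bool.and_eq_true] at hi'
    obtain ⟨⟨h1, h2⟩, h3⟩ := hi'
    obtain ⟨b, hb, rfl⟩ := row_adjM4 h1
    rw [← bt_eq] at h1 h2 h3
    have hbm := hS' b h3
    have h4 := (bt_adjM (c := c) (a := x) (b := b) (by omega) (by omega)).1 h1
    have h5 := (bt_adjM (c := c) (a := y) (b := b) (by omega) (by omega)).1 h2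
    exact ⟨φ b, (hS b hbm).1 h3, Evb_adj h σ hc hx hbm h4,
      Evb_adj_symm h (Evb_adj h σ hc hy hbm h5)⟩

theorem cw_le (h : Diag g) (σ : Sem0 q n g W A B m c sat V φ) (hc : noP c = true) (l : FL)
    (hl : flC c sat (adjM c) l = true) {S : ℕ} {T : Finset ι} (hT : T ⊆ W)
    (hS : ∀ a < m, bt S a = true ↔ φ a ∈ T) (hS' : ∀ a, bt S a = true → a < m) {x y : ℕ}
    (hx : x < m) (hy : y < m) (hxy : x ≠ y) : cw (adjM c) S x y l ≤ wt g T (φ x) (φ y) := by
  have h1 := fl_bon h σ l hl hT hS hS' hx hy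
  have hw : cw (adjM c) S x y l = bcN (bt (row (adjM c) x) y) 2
    (bcN (Nat.beq (Nat.land (Nat.land (row (adjM c) x) (row (adjM c) y)) S) 0) 0 2) +
      flW S x y l := rfl
  rw [hw]
  unfold wt
  refine Nat.add_le_add ?_ h1
  rw [bcN_eq, bcN_eq]
  by_cases g4 : near g T (φ x) (φ y)
  · rw [if_pos g4]
    split_ifs <;> omega
  · rw [if_neg g4]
    rw [if_neg (fun g1 => g4 (Evb_near h σ hc hS hS' hx hy hxy (Or.inl g1))), if_pos]
    by_contra g3
    refine g4 (Evb_near h σ hc hS hS' hx hy hxy (Or.inr ?_))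
    intro h2
    rw [h2] at g3
    exact g3 rfl

end

end MP86a502
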