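import Pool.Agent.Lib.MP_86a502_gt.U.Cod
import Pool.Agent.Lib.MP_86a502_gt.Pol
import Pool.Agent.Lib.MP_86a502_gt.Pob

set_option autoImplicit false
set_option linter.unusedSectionVars false

/-! # JOB Evc. Quadrangles with a given hull (120-200 lines)

Library: `quad_of_card` (`Pob.lean`), `quad_ov`, `quad_card` (`Pol.lean`), `pd_subset` (`Sti.lean`).

* `hull_quad`: `hull` is the union of the four vertices (`quad_ov`).
* `quad_sides`: let `X`, `Y ⊆ W` be disjoint and not positive definite, `T ∈ QF n g W`. Then `T` is a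
  quadrangle with sides `x ≠ x'` in `X` and `y ≠ y'` in `Y`, and `T = W \ {x, x', y, y'}`. Proof: the four
  vertices are `W` minus one of `i, i'` and one of `j, j'`, positive definite, so each of the pairs
  `{i or i', j or j'}` meets `X` and meets `Y`, so one element is in `X` and the other one in `Y`; hence
  `i, i' ∈ X`, `j, j' ∈ Y` or conversely (exchange the names).
* `quad_mem`: conversely, four positive definite sets `W` minus `x or x'`, `y or y'` give `T ∈ QF n g W`
  (`insert x (insert y T) = (W.erase x').erase y'` for `T = co4 W x x' y y'`). `ov n g T` consists of the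
  four vertices (distinct), and `S \ T` has two elements: `fsum` is the sum of the
  `wt g S x y + wt g S y x`. -/

namespace MP86a502

section
variable {ι : Type} [Fintype ι] [DecidableEq ι] {n : ℕ} {g : ι → ι → ℝ}
  {W : Finset ι}

theorem hull_quad (H : Cox n g) {T : Finset ι} {i i' j j' : ι} (q : Quad n g T i i' j j') :
    hull n g T = insert i (insert i' (insert j (insert j' T))) := by
  unfold hull
  rw [quad_ov H q]
  ext z
  simp only [Finset.mem_biUnion, Finset.mem_insert, Finset.mem_singleton, id]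
  constructor
  · rintro ⟨S, hS, hz⟩
    rcases hS with rfl | rfl | rfl | rfl <;> simp only [Finset.mem_insert] at hz <;> tauto
  · rintro (h | h | h | h | h)
    · exact ⟨_, Or.inl rfl, by simp [h]⟩
    · exact ⟨_, Or.inr (Or.inr (Or.inl rfl)), by simp [h]⟩
    · exact ⟨_, Or.inl rfl, by simp [h]⟩
    · exact ⟨_, Or.inr (Or.inl rfl), by simp [h]⟩
    · exact ⟨_, Or.inl rfl, by simp [h]⟩

private theorem Evc_erase {T : Finset ι} {i i' j j' : ι} (hi : i ∉ T) (hj : j ∉ T)
    (ii' : i ≠ i') (ij : i ≠ j) (ij' : i ≠ j') (i'j : i' ≠ j) (jj' : j ≠ j') :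
    ((insert i (insert i' (insert j (insert j' T)))).erase i).erase j =
      insert i' (insert j' T) := by
  rw [Finset.erase_insert (by simp [hi, ii', ij, ij']), Finset.erase_insert_of_ne i'j,
    Finset.erase_insert (by simp [hj, jj'])]

private theorem Evc_comm4 {T : Finset ι} {i i' j j' : ι} :
    (insert i (insert i' (insert j (insert j' T))) : Finset ι) =
      insert i' (insert i (insert j (insert j' T))) := Finset.insert_comm _ _ _

private theorem Evc_comm4' {T : Finset ι} {i i' j j' : ι} :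
    (insert i (insert i' (insert j (insert j' T))) : Finset ι) =
      insert i (insert i' (insert j' (insert j T))) := by
  rw [Finset.insert_comm j j' T]

/-- the four vertices of a quadrangle in terms of its hull -/
private theorem Evc_vert {T W : Finset ι} {i i' j j' : ι} (hi : i ∉ T) (hi' : i' ∉ T)
    (hj : j ∉ T) (hj' : j' ∉ T) (ii' : i ≠ i') (jj' : j ≠ j') (ij : i ≠ j) (ij' : i ≠ j')
    (i'j : i' ≠ j) (i'j' : i' ≠ j') (hW : W = insert i (insert i' (insert j (insert j' T)))) :
    (W.erase i').erase j' = insert i (insert j T) ∧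
    (W.erase i').erase j = insert i (insert j' T) ∧
    (W.erase i).erase j' = insert i' (insert j T) ∧
    (W.erase i).erase j = insert i' (insert j' T) := by
  refine ⟨?_, ?_, ?_, ?_⟩
  · rw [hW, Evc_comm4, Evc_comm4']
    exact Evc_erase hi' hj' ii'.symm i'j' i'j ij' jj'.symm
  · rw [hW, Evc_comm4]
    exact Evc_erase hi' hj ii'.symm i'j i'j' ij jj'
  · rw [hW, Evc_comm4']
    exact Evc_erase hi hj' ii' ij' ij i'j' jj'.symm
  · rw [hW]
    exact Evc_erase hi hj ii' ij ij' i'j jj'

private theorem Evc_co4 {T W : Finset ι} {i i' j j' : ι} (hi : i ∉ T) (hi' : i' ∉ T)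
    (hj : j ∉ T) (hj' : j' ∉ T) (ii' : i ≠ i') (jj' : j ≠ j') (ij : i ≠ j) (ij' : i ≠ j')
    (i'j : i' ≠ j) (i'j' : i' ≠ j') (hW : W = insert i (insert i' (insert j (insert j' T)))) :
    T = co4 W i i' j j' := by
  unfold co4
  rw [hW, Finset.erase_insert (by simp [hi, ii', ij, ij']),
    Finset.erase_insert (by simp [hi', i'j, i'j']), Finset.erase_insert (by simp [hj, jj']),
    Finset.erase_insert hj']

private theorem Evc_swap {W : Finset ι} {i i' j j' : ι} : co4 W i i' j j' = co4 W j j' i i' := by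
  unfold co4
  ext z
  simp only [Finset.mem_erase]
  tauto

private theorem Evc_hit {X S : Finset ι} {a b : ι} (hX : X ⊆ insert a (insert b S))
    (nX : ¬ PD g X) (hS : PD g S) : a ∈ X ∨ b ∈ X := by
  by_contra hcon
  rw [not_or] at hcon
  apply nX
  refine pd_subset hS fun z hz => ?_
  have h := hX hz
  rw [Finset.mem_insert, Finset.mem_insert] at h
  rcases h with h | h | h
  · exact absurd (h ▸ hz) hcon.1
  · exact absurd (h ▸ hz) hcon.2
  · exact h

private theorem Evc_sub1 {T : Finset ι} {i i' j j' : ι} :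
    (insert i (insert i' (insert j (insert j' T))) : Finset ι) ⊆
      insert i' (insert j' (insert i (insert j T))) := by
  intro z hz
  simp only [Finset.mem_insert] at hz ⊢
  tauto

private theorem Evc_sub2 {T : Finset ι} {i i' j j' : ι} :
    (insert i (insert i' (insert j (insert j' T))) : Finset ι) ⊆
      insert i' (insert j (insert i (insert j' T))) := by
  intro z hz
  simp only [Finset.mem_insert] at hz ⊢
  tauto

private theorem Evc_sub3 {T : Finset ι} {i i' j j' : ι} :
    (insert i (insert i' (insert j (insert j' T))) : Finset ι) ⊆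
      insert i (insert j' (insert i' (insert j T))) := by
  intro z hz
  simp only [Finset.mem_insert] at hz ⊢
  tauto

private theorem Evc_sub4 {T : Finset ι} {i i' j j' : ι} :
    (insert i (insert i' (insert j (insert j' T))) : Finset ι) ⊆
      insert i (insert j (insert i' (insert j' T))) := by
  intro z hz
  simp only [Finset.mem_insert] at hz ⊢
  tauto

theorem quad_sides (H : Cox n g) (hW : W.card = n + 2) {X Y : Finset ι} (hX : X ⊆ W) (hY : Y ⊆ W)
    (hd : Disjoint X Y) (nX : ¬ PD g X) (nY : ¬ PD g Y) {T : Finset ι} (hT : T ∈ QF n g W) :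
    ∃ x ∈ X, ∃ x' ∈ X, ∃ y ∈ Y, ∃ y' ∈ Y, x ≠ x' ∧ y ≠ y' ∧ T = co4 W x x' y y' ∧
      PD g ((W.erase x).erase y) ∧ PD g ((W.erase x).erase y') ∧ PD g ((W.erase x').erase y) ∧
      PD g ((W.erase x').erase y') := by
  unfold QF at hT
  rw [Finset.mem_filter] at hT
  obtain ⟨hf, hc, hh⟩ := hT
  obtain ⟨i, i', j, j', q⟩ := quad_of_card H hf hc
  rw [hull_quad H q] at hh
  obtain ⟨e1, e2, e3, e4⟩ := Evc_vert q.hi q.hi' q.hj q.hj' q.ii' q.jj' q.ij q.ij' q.i'j q.i'j'
    hh.symm
  have eT := Evc_co4 q.hi q.hi' q.hj q.hj' q.ii' q.jj' q.ij q.ij' q.i'j q.i'j' hh.symm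
  rw [← hh] at hX hY
  have x1 := Evc_hit (hX.trans Evc_sub1) nX q.v1
  have x2 := Evc_hit (hX.trans Evc_sub2) nX q.v2
  have x3 := Evc_hit (hX.trans Evc_sub3) nX q.v3
  have x4 := Evc_hit (hX.trans Evc_sub4) nX q.v4
  have y1 := Evc_hit (hY.trans Evc_sub1) nY q.v1
  have y2 := Evc_hit (hY.trans Evc_sub2) nY q.v2
  have y3 := Evc_hit (hY.trans Evc_sub3) nY q.v3
  have y4 := Evc_hit (hY.trans Evc_sub4) nY q.v4
  have hdis : ∀ z, z ∈ X → z ∈ Y → False := fun z h1 h2 => Finset.disjoint_left.1 hd h1 h2
  have di := hdis i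
  have di' := hdis i'
  have dj := hdis j
  have dj' := hdis j'
  have key : (i ∈ X ∧ i' ∈ X ∧ j ∈ Y ∧ j' ∈ Y) ∨ (j ∈ X ∧ j' ∈ X ∧ i ∈ Y ∧ i' ∈ Y) := by
    by_cases a : i ∈ X
    · have b := di a
      have c : j' ∈ Y := y3.resolve_left b
      have d : j ∈ Y := y4.resolve_left b
      exact Or.inl ⟨a, x1.resolve_right fun h => dj' h c, d, c⟩
    · have c : j' ∈ X := x3.resolve_left a
      have d : j ∈ X := x4.resolve_left a
      exact Or.inr ⟨d, c, y3.resolve_right (dj' c), y1.resolve_right (dj' c)⟩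
  rcases key with ⟨k1, k2, k3, k4⟩ | ⟨k1, k2, k3, k4⟩
  · refine ⟨i, k1, i', k2, j, k3, j', k4, q.ii', q.jj', eT, ?_, ?_, ?_, ?_⟩
    · rw [e4]; exact q.v4
    · rw [e3]; exact q.v3
    · rw [e2]; exact q.v2
    · rw [e1]; exact q.v1
  · refine ⟨j, k1, j', k2, i, k3, i', k4, q.jj', q.ii', eT.trans Evc_swap, ?_, ?_, ?_, ?_⟩
    · rw [Finset.erase_right_comm, e4]; exact q.v4
    · rw [Finset.erase_right_comm, e2]; exact q.v2
    · rw [Finset.erase_right_comm, e3]; exact q.v3
    · rw [Finset.erase_right_comm, e1]; exact q.v1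

private theorem Evc_sum2 {T : Finset ι} {x y : ι} (hx : x ∉ T) (hy : y ∉ T) (xy : x ≠ y)
    (f : ι → ι → ℕ) :
    (∑ a ∈ insert x (insert y T) \ T, ∑ b ∈ (insert x (insert y T) \ T).erase a, f a b) =
      f x y + f y x := by
  have e : insert x (insert y T) \ T = {x, y} := by
    ext z
    simp only [Finset.mem_sdiff, Finset.mem_insert, Finset.mem_singleton]
    constructor
    · rintro ⟨h1 | h1 | h1, h2⟩
      · exact Or.inl h1
      · exact Or.inr h1
      · exact absurd h1 h2
    · rintro (h1 | h1)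
      · exact ⟨Or.inl h1, h1 ▸ hx⟩
      · exact ⟨Or.inr (Or.inl h1), h1 ▸ hy⟩
  have e1 : ({x, y} : Finset ι).erase x = {y} := Finset.erase_insert (by simp [xy])
  have e2 : ({x, y} : Finset ι).erase y = {x} := by
    rw [Finset.pair_comm]
    exact Finset.erase_insert (by simp [xy.symm])
  rw [e, Finset.sum_pair xy, e1, e2, Finset.sum_singleton, Finset.sum_singleton]

theorem quad_mem (H : Cox n g) (hW : W.card = n + 2) {x x' y y' : ι} (hx : x ∈ W) (hx' : x' ∈ W)
    (hy : y ∈ W) (hy' : y' ∈ W) (hd : [x, x', y, y'].Nodup) (h1 : PD g ((W.erase x).erase y))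
    (h2 : PD g ((W.erase x).erase y')) (h3 : PD g ((W.erase x').erase y))
    (h4 : PD g ((W.erase x').erase y')) : co4 W x x' y y' ∈ QF n g W ∧
    fsum n g (co4 W x x' y y') =
      (wt g ((W.erase x').erase y') x y + wt g ((W.erase x').erase y') y x) +
      (wt g ((W.erase x').erase y) x y' + wt g ((W.erase x').erase y) y' x) +
      (wt g ((W.erase x).erase y') x' y + wt g ((W.erase x).erase y') y x') +
      (wt g ((W.erase x).erase y) x' y' + wt g ((W.erase x).erase y) y' x') := by
  simp only [List.nodup_cons, List.mem_cons, List.not_mem_nil, or_false, not_or,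
    not_false_eq_true, List.nodup_nil, and_true] at hd
  obtain ⟨⟨xx', xy, xy'⟩, ⟨x'y, x'y'⟩, yy'⟩ := hd
  obtain ⟨T, hT⟩ : ∃ T, T = co4 W x x' y y' := ⟨_, rfl⟩
  rw [← hT]
  have tx : x ∉ T := by rw [hT]; simp [co4]
  have tx' : x' ∉ T := by rw [hT]; simp [co4]
  have ty : y ∉ T := by rw [hT]; simp [co4]
  have ty' : y' ∉ T := by rw [hT]; simp [co4]
  have eW : W = insert x (insert x' (insert y (insert y' T))) := by
    rw [hT]
    unfold co4
    rw [Finset.insert_erase (by simp [hy', Ne.symm yy', Ne.symm x'y', Ne.symm xy']),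
      Finset.insert_erase (by simp [hy, Ne.symm x'y, Ne.symm xy]),
      Finset.insert_erase (by simp [hx', Ne.symm xx']), Finset.insert_erase hx]
  have hcard : T.card + 2 = n := by
    have h := hW
    rw [eW, Finset.card_insert_of_notMem (by simp [tx, xx', xy, xy']),
      Finset.card_insert_of_notMem (by simp [tx', x'y, x'y']),
      Finset.card_insert_of_notMem (by simp [ty, yy']), Finset.card_insert_of_notMem ty'] at h
    omega
  obtain ⟨e1, e2, e3, e4⟩ := Evc_vert tx tx' ty ty' xx' yy' xy xy' x'y x'y' eW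
  rw [e4] at h1
  rw [e3] at h2
  rw [e2] at h3
  rw [e1] at h4
  have hpd : PD g T := pd_subset h1 fun z hz =>
    Finset.mem_insert_of_mem (Finset.mem_insert_of_mem hz)
  have q : Quad n g T x x' y y' :=
    ⟨hcard, hpd, tx, tx', ty, ty', xx', yy', xy, xy', x'y, x'y', h4, h3, h2, h1⟩
  refine ⟨?_, ?_⟩
  · unfold QF
    rw [Finset.mem_filter]
    exact ⟨mem_faces2.2 ⟨hcard, hpd⟩, quad_card H q, (hull_quad H q).trans eW.symm⟩
  · have d12 : insert x (insert y T) ≠ insert x (insert y' T) := Pol_ne' ty (Ne.symm xy) yy'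
    have d13 : insert x (insert y T) ≠ insert x' (insert y T) := Pol_ne tx xx' xy
    have d14 : insert x (insert y T) ≠ insert x' (insert y' T) := Pol_ne tx xx' xy'
    have d23 : insert x (insert y' T) ≠ insert x' (insert y T) := Pol_ne tx xx' xy
    have d24 : insert x (insert y' T) ≠ insert x' (insert y' T) := Pol_ne tx xx' xy'
    have d34 : insert x' (insert y T) ≠ insert x' (insert y' T) := Pol_ne' ty (Ne.symm x'y) yy'
    unfold fsum
    rw [quad_ov H q, Finset.sum_insert (by
        rw [Finset.mem_insert, Finset.mem_insert, Finset.mem_singleton, not_or, not_or]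
        exact ⟨d12, d13, d14⟩),
      Finset.sum_insert (by
        rw [Finset.mem_insert, Finset.mem_singleton, not_or]
        exact ⟨d23, d24⟩),
      Finset.sum_insert (by
        rw [Finset.mem_singleton]
        exact d34), Finset.sum_singleton,
      Evc_sum2 tx ty xy, Evc_sum2 tx ty' xy', Evc_sum2 tx' ty x'y, Evc_sum2 tx' ty' x'y',
      e1, e2, e3, e4]
    omega

end

end MP86a502
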