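import Pool.Agent.Lib.MP_86a502_gt.U.Sop
import Pool.Agent.Lib.MP_86a502_gt.U.DatS

set_option autoImplicit false
set_option linter.unusedSectionVars false

/-! # Index sets for the evaluation of the leaves -/

namespace MP86a502

/-- the rectangles of `V` with rows in `A`: `x' < x`, `y' < y` -/
def RC (A V : ℕ) : Finset (ℕ × ℕ × ℕ × ℕ) :=
  (Finset.range 16 ×ˢ Finset.range 16 ×ˢ Finset.range 16 ×ˢ Finset.range 16).filter fun r =>
    r.2.1 < r.1 ∧ r.2.2.2 < r.2.2.1 ∧ bt A r.1 = true ∧ bt A r.2.1 = true ∧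
      vt V r.1 r.2.2.1 = true ∧ vt V r.1 r.2.2.2 = true ∧ vt V r.2.1 r.2.2.1 = true ∧
      vt V r.2.1 r.2.2.2 = true

/-- the triples of `V` in `A`: `z < y < x` -/
def TC (A V : ℕ) : Finset (ℕ × ℕ × ℕ) :=
  (Finset.range 16 ×ˢ Finset.range 16 ×ˢ Finset.range 16).filter fun r =>
    r.2.1 < r.1 ∧ r.2.2 < r.2.1 ∧ bt A r.1 = true ∧ vt V r.1 r.1 = true ∧
      vt V r.2.1 r.2.1 = true ∧ vt V r.2.2 r.2.2 = true

end MP86a502
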