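import Pool.Agent.Lib.MP_86a502_gt.U.Cod
import Pool.Agent.Lib.MP_86a502_gt.Pol
import Pool.Agent.Lib.MP_86a502_gt.Pob

set_option autoImplicit false
set_option linter.unusedSectionVars false

/-! # JOB Evt. Triangles with a given hull (100-160 lines)

Library: `tri_of_card` (`Pob.lean`), `tri_ov`, `tri_npd` (`Pol.lean`), `pd_subset` (`Sti.lean`).

* `hull_tri`: `hull` is the union of the three vertices (`tri_ov`).
* `tri_sides`: let `X ⊆ W` be not positive definite, `T ∈ TF n g W`, `W.card = n + 1`. The three vertices are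
  `W` minus one of the sides `a, b, c`, positive definite, so `X` contains `a, b, c`.
* `tri_mem`: conversely, three positive definite sets `W.erase x, W.erase y, W.erase z` (and `W` itself is
  not positive definite; it has `n + 1` elements, `Cox.card_le`) give `T = co3 W x y z ∈ TF n g W`: the
  vertices that contain `T` are exactly these three (`Tri`, `tri_ov`), and `fsum` is the sum of the
  `wt g S x y + wt g S y x` over the three vertices. -/

namespace MP86a502

section
variable {ι : Type} [Fintype ι] [DecidableEq ι] {n : ℕ} {g : ι → ι → ℝ}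
  {W : Finset ι}

theorem hull_tri (H : Cox n g) {T : Finset ι} {a b c : ι} (q : Tri n g T a b c) :
    hull n g T = insert a (insert b (insert c T)) := by
  unfold hull
  rw [tri_ov H q]
  ext z
  simp only [Finset.mem_biUnion, Finset.mem_insert, Finset.mem_singleton, id]
  constructor
  · rintro ⟨S, hS, hz⟩
    rcases hS with rfl | rfl | rfl <;> simp only [Finset.mem_insert] at hz <;> tauto
  · rintro (h | h | h | h)
    · exact ⟨_, Or.inl rfl, by simp [h]⟩
    · exact ⟨_, Or.inl rfl, by simp [h]⟩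
    · exact ⟨_, Or.inr (Or.inl rfl), by simp [h]⟩
    · exact ⟨_, Or.inl rfl, by simp [h]⟩

/-- the three vertices of a triangle in terms of its hull -/
private theorem Evt_vert {T W : Finset ι} {a b c : ι} (ha : a ∉ T) (hb : b ∉ T) (hc : c ∉ T)
    (ab : a ≠ b) (bc : b ≠ c) (ac : a ≠ c) (hW : W = insert a (insert b (insert c T))) :
    W.erase c = insert a (insert b T) ∧ W.erase a = insert b (insert c T) ∧
      W.erase b = insert a (insert c T) := by
  refine ⟨?_, ?_, ?_⟩
  · rw [hW, Finset.erase_insert_of_ne ac, Finset.erase_insert_of_ne bc, Finset.erase_insert hc]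
  · rw [hW, Finset.erase_insert (by simp [ha, ab, ac])]
  · rw [hW, Finset.erase_insert_of_ne ab, Finset.erase_insert (by simp [hb, bc])]

private theorem Evt_co3 {T W : Finset ι} {a b c : ι} (ha : a ∉ T) (hb : b ∉ T) (hc : c ∉ T)
    (ab : a ≠ b) (bc : b ≠ c) (ac : a ≠ c) (hW : W = insert a (insert b (insert c T))) :
    T = co3 W a b c := by
  unfold co3
  rw [hW, Finset.erase_insert (by simp [ha, ab, ac]), Finset.erase_insert (by simp [hb, bc]),
    Finset.erase_insert hc]

private theorem Evt_hit {X : Finset ι} {a : ι} (hX : X ⊆ W) (nX : ¬ PD g X)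
    (hS : PD g (W.erase a)) : a ∈ X := by
  by_contra hcon
  apply nX
  refine pd_subset hS fun z hz => ?_
  rw [Finset.mem_erase]
  exact ⟨fun h => hcon (h ▸ hz), hX hz⟩

theorem tri_sides (H : Cox n g) (hW : W.card = n + 1) {X : Finset ι} (hX : X ⊆ W)
    (nX : ¬ PD g X) {T : Finset ι} (hT : T ∈ TF n g W) :
    ∃ x ∈ X, ∃ y ∈ X, ∃ z ∈ X, x ≠ y ∧ x ≠ z ∧ y ≠ z ∧ T = co3 W x y z ∧
      PD g (W.erase x) ∧ PD g (W.erase y) ∧ PD g (W.erase z) := by
  unfold TF at hT
  rw [Finset.mem_filter] at hT
  obtain ⟨hf, hc, hh⟩ := hT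
  obtain ⟨a, b, c, q⟩ := tri_of_card H hf hc
  rw [hull_tri H q] at hh
  obtain ⟨e1, e2, e3⟩ := Evt_vert q.ha q.hb q.hc q.ab q.bc q.ac hh.symm
  have p1 : PD g (W.erase a) := by rw [e2]; exact q.v2
  have p2 : PD g (W.erase b) := by rw [e3]; exact q.v3
  have p3 : PD g (W.erase c) := by rw [e1]; exact q.v1
  exact ⟨a, Evt_hit hX nX p1, b, Evt_hit hX nX p2, c, Evt_hit hX nX p3, q.ab, q.ac, q.bc,
    Evt_co3 q.ha q.hb q.hc q.ab q.bc q.ac hh.symm, p1, p2, p3⟩

private theorem Evt_sum2 {T : Finset ι} {x y : ι} (hx : x ∉ T) (hy : y ∉ T) (xy : x ≠ y)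
    (f : ι → ι → ℕ) :
    (∑ a ∈ insert x (insert y T) \ T, ∑ b ∈ (insert x (insert y T) \ T).erase a, f a b) =
      f x y + f y x := by
  have e : insert x (insert y T) \ T = {x, y} := by
    ext z
    simp only [Finset.mem_sdiff, Finset.mem_insert, Finset.mem_singleton]
    constructor
    · rintro ⟨h1 | h1 | h1, h2⟩
      · exact Or.inl h1
      · exact Or.inr h1
      · exact absurd h1 h2
    · rintro (h1 | h1)
      · exact ⟨Or.inl h1, h1 ▸ hx⟩
      · exact ⟨Or.inr (Or.inl h1), h1 ▸ hy⟩
  have e1 : ({x, y} : Finset ι).erase x = {y} := Finset.erase_insert (by simp [xy])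
  have e2 : ({x, y} : Finset ι).erase y = {x} := by
    rw [Finset.pair_comm]
    exact Finset.erase_insert (by simp [xy.symm])
  rw [e, Finset.sum_pair xy, e1, e2, Finset.sum_singleton, Finset.sum_singleton]

theorem tri_mem (H : Cox n g) (hW : W.card = n + 1) {x y z : ι} (hx : x ∈ W) (hy : y ∈ W)
    (hz : z ∈ W) (hd : [x, y, z].Nodup) (h1 : PD g (W.erase x)) (h2 : PD g (W.erase y))
    (h3 : PD g (W.erase z)) (hn : ¬ PD g W) : co3 W x y z ∈ TF n g W ∧
    fsum n g (co3 W x y z) =
      (wt g (W.erase z) x y + wt g (W.erase z) y x) + (wt g (W.erase y) x z + wt g (W.erase y) z x) +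
      (wt g (W.erase x) y z + wt g (W.erase x) z y) := by
  simp only [List.nodup_cons, List.mem_cons, List.not_mem_nil, or_false, not_or,
    not_false_eq_true, List.nodup_nil, and_true] at hd
  obtain ⟨⟨xy, xz⟩, yz⟩ := hd
  obtain ⟨T, hT⟩ : ∃ T, T = co3 W x y z := ⟨_, rfl⟩
  rw [← hT]
  have tx : x ∉ T := by rw [hT]; simp [co3]
  have ty : y ∉ T := by rw [hT]; simp [co3]
  have tz : z ∉ T := by rw [hT]; simp [co3]
  have eW : W = insert x (insert y (insert z T)) := by
    rw [hT]
    unfold co3
    rw [Finset.insert_erase (by simp [hz, Ne.symm yz, Ne.symm xz]),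
      Finset.insert_erase (by simp [hy, Ne.symm xy]), Finset.insert_erase hx]
  have hcard : T.card + 2 = n := by
    have h := hW
    rw [eW, Finset.card_insert_of_notMem (by simp [tx, xy, xz]),
      Finset.card_insert_of_notMem (by simp [ty, yz]), Finset.card_insert_of_notMem tz] at h
    omega
  obtain ⟨e1, e2, e3⟩ := Evt_vert tx ty tz xy yz xz eW
  rw [e2] at h1
  rw [e3] at h2
  rw [e1] at h3
  have hpd : PD g T := pd_subset h1 fun z hz =>
    Finset.mem_insert_of_mem (Finset.mem_insert_of_mem hz)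
  have q : Tri n g T x y z := ⟨hcard, hpd, tx, ty, tz, xy, yz, xz, h3, h1, h2⟩
  have d12 : insert x (insert y T) ≠ insert y (insert z T) := Pol_ne tx xy xz
  have d13 : insert x (insert y T) ≠ insert x (insert z T) := Pol_ne' ty (Ne.symm xy) yz
  have d23 : insert y (insert z T) ≠ insert x (insert z T) := Pol_ne ty (Ne.symm xy) yz
  refine ⟨?_, ?_⟩
  · unfold TF
    rw [Finset.mem_filter]
    refine ⟨mem_faces2.2 ⟨hcard, hpd⟩, ?_, (hull_tri H q).trans eW.symm⟩
    rw [tri_ov H q, Finset.card_insert_of_notMem, Finset.card_insert_of_notMem,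
      Finset.card_singleton]
    · rw [Finset.mem_singleton]
      exact d23
    · rw [Finset.mem_insert, Finset.mem_singleton, not_or]
      exact ⟨d12, d13⟩
  · unfold fsum
    rw [tri_ov H q, Finset.sum_insert (by
        rw [Finset.mem_insert, Finset.mem_singleton, not_or]
        exact ⟨d12, d13⟩),
      Finset.sum_insert (by
        rw [Finset.mem_singleton]
        exact d23), Finset.sum_singleton,
      Evt_sum2 tx ty xy, Evt_sum2 ty tz yz, Evt_sum2 tx tz xz, e1, e2, e3]
    omega

end

end MP86a502
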