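import Pool.Agent.Lib.MP_86a502_gt.U.Slf

set_option autoImplicit false
set_option linter.unusedSectionVars false

/-! # JOB Gwa. The exceptional graph has defect at most `144` (60-120 lines)

Build `Sem0 true n g W (full 5) (Nat.xor (full 10) (full 5)) 10 c31 (full 10) V31 f` from `S31 n g W f`
(`c31_spec`, `V31_spec`, `bt_full`, `bt_xor`; `p31 i j` is `cd c31 i j` by definition; the codes are at most
`5`, so `ok c l` is `l = c`; `npA`, `npB` from `npd_31`, `npd_sound` and `pd_subset`), and apply
`leafQ_sound` to `leaf_31` (`e = 72`). -/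

namespace MP86a502

open scoped Classical in
private theorem Gwa_img {ι : Type} {f : ℕ → ι} {p q : ℕ → Bool} (h : ∀ a < 16, p a = true → q a = true) :
    img f p ⊆ img f q := by
  intro z hz
  unfold img at hz ⊢
  rw [Finset.mem_image] at hz ⊢
  obtain ⟨a, ha, he⟩ := hz
  rw [Finset.mem_filter, Finset.mem_range] at ha
  exact ⟨a, by rw [Finset.mem_filter, Finset.mem_range]; exact ⟨ha.1, h a ha.1 ha.2⟩, he⟩

section
variable {ι : Type} [Fintype ι] [DecidableEq ι] {n : ℕ} {g : ι → ι → ℝ} {W : Finset ι}

private theorem Gwa_full5 {a : ℕ} : bt (full 5) a = true ↔ a < 5 := bt_full (by norm_num)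

private theorem Gwa_full10 {a : ℕ} : bt (full 10) a = true ↔ a < 10 := bt_full (by norm_num)

private theorem Gwa_xor {a : ℕ} : bt (Nat.xor (full 10) (full 5)) a = true ↔ a < 10 ∧ 5 ≤ a := by
  rw [bt_xor]
  have h5 := @Gwa_full5 a
  have h10 := @Gwa_full10 a
  by_cases h1 : a < 5
  · have e1 : bt (full 5) a = true := h5.2 h1
    have e2 : bt (full 10) a = true := h10.2 (by omega)
    rw [e1, e2]
    simp
    omega
  · have e1 : bt (full 5) a = false := by
      rw [← Bool.not_eq_true]
      exact fun hc => h1 (h5.1 hc)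
    rw [e1, Bool.xor_false, h10]
    omega

private theorem Gwa_vt {x y : ℕ} (h : vt V31 x y = true) : x < 5 ∧ 5 ≤ y ∧ y < 10 ∧ (x < 4 ∨ y = 9) := by
  have hy : y < 16 := vt_lt h
  have hx : x < 16 := by
    by_contra hx
    rw [not_lt] at hx
    have h1 : V31.testBit (64 * x + 4 * y) = true := by
      rw [← vt_eq V31 x hy]
      exact h
    have h2 : V31 < 2 ^ (64 * x + 4 * y) :=
      lt_of_lt_of_le V31_lt (Nat.pow_le_pow_right (by norm_num) (by omega))
    rw [Nat.testBit_lt_two_pow h2] at h1
    exact Bool.false_ne_true h1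
  exact (V31_spec x hx y hy).1 h

private theorem Gwa_sem (H : CoxH n g) {f : ℕ → ι} (h : S31 n g W f) :
    Sem0 true n g W (full 5) (Nat.xor (full 10) (full 5)) 10 c31 (full 10) V31 f := by
  have hcod : ∀ a < 10, ∀ b < 10, a ≠ b → ok (cd c31 a b) (lab g (f a) (f b)) := by
    intro a ha b hb hab
    left
    refine ⟨?_, h.lb a ha b hb hab⟩
    have := (c31_spec.2.2 a (by omega) b (by omega)).2
    omega
  exact
    { cardQ := fun _ => h.card
      cardT := fun hq => absurd hq (by decide)
      m16 := by norm_num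
      mem := h.mem
      inj := h.inj
      cod := hcod
      sym := c31_spec.1
      out := c31_spec.2.1
      st := fun a ha => ⟨Gwa_full10.1 ha, fun z hz hadj => h.closed a (Gwa_full10.1 ha) z hz hadj⟩
      ver := by
        intro x y hxy
        obtain ⟨h1, h2, h3, h4⟩ := Gwa_vt hxy
        refine ⟨?_, Gwa_full5.2 h1, fun _ => Gwa_xor.2 ⟨h3, h2⟩, fun hq => absurd hq (by decide)⟩
        have h5 := h.ver x h1 (y - 5) (by omega) (by omega)
        have h6 : 5 + (y - 5) = y := by omega
        rw [h6] at h5
        exact h5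
      aA := fun a ha => by
        have := Gwa_full5.1 ha
        omega
      aB := fun a ha => (Gwa_xor.1 ha).1
      dis := fun a ha hb => by
        have h1 := Gwa_full5.1 ha
        have h2 := (Gwa_xor.1 hb).2
        omega
      npA := by
        obtain ⟨s, u, h1, h2⟩ := npd_31.1
        intro hp
        exact npd_sound H.toDiag (by norm_num) hcod h.inj h1 (pd_subset hp (Gwa_img h2))
      npB := by
        intro _
        obtain ⟨s, u, h1, h2⟩ := npd_31.2
        intro hp
        exact npd_sound H.toDiag (by norm_num) hcod h.inj h1 (pd_subset hp (Gwa_img h2))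
      nB := fun hq => absurd hq (by decide) }

theorem def_31 (H : CoxH n g) {f : ℕ → ι} (h : S31 n g W f) : defQ 144 n g W := by
  obtain ⟨nl, hl⟩ := leaf_31
  exact leafQ_sound H (Gwa_sem H h) hl

end

end MP86a502
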