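import Pool.Agent.Lib.MP_86a502_gt.U.Gwd

set_option autoImplicit false
set_option linter.unusedSectionVars false

/-! # JOB Gwe. The slots of the exceptional graph (100-160 lines)

`f 0 - f 1 - f 2 - f 3 - f 4` and `f 5 - f 6 - f 7 - f 8 - f 9`, labels `5, 3, 3, 3`, and `f 3 - f 9` (label
`3`); no other edges, and no facet of `W` outside is adjacent to one of these ten.
`W.erase (f u)`, `.erase (f (5 + v))` is a vertex for `u < 4` or `v = 4` (`S31.ver`).

A slot (`true, u, v`), `u ∈ {0, 1, 2}`, `v ∈ {2, 3}`: `S = W \ {f u, f (5+v)}`, `K = {f 5, ..., f (4+v)}`;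
a slot (`false, u, v`), `u ∈ {2, 3}`, `v ∈ {0, 1, 2}`: `S = W \ {f u, f (5+v)}`, `K = {f 0, ..., f (u-1)}`.
`K` has two or three elements and is a component of `S` of type `I2(5)` (`t = 17`: `tK 17 = 2`,
`tP 17 0 1 = 5`) or `H3` (`t = 18`: `tK 18 = 3`, labels `5`, `3`): the match is `i ↦ f (5 + i)` or `i ↦ f i`; the
only neighbour in `W` outside `K` is the removed facet. `slot_inj`: by the injectivity of `f` the set
`W \ S = {f u, f (5+v)}` determines `u, v`, and `K` the kind. (`p31` values: `decide`.) -/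

namespace MP86a502

section
variable {ι : Type} [Fintype ι] [DecidableEq ι] {n : ℕ} {g : ι → ι → ℝ} {W : Finset ι}

private theorem Gwe_dec : ∀ b < 6, (b = 0 ∨ b = 5) → ∀ k < 4, 2 ≤ k →
    tK (15 + k) = k ∧ (∀ i < k, ∀ j < k, i ≠ j → p31 (b + i) (b + j) = tP (15 + k) i j) ∧
    (∀ i < k, ∀ j < 10, j ≠ b + i → p31 (b + i) j ≠ 2 → b ≤ j ∧ j ≤ b + k) := by
  intro b _ hb k hk hk2
  have hk' : k = 2 ∨ k = 3 := by omega
  rcases hb with rfl | rfl <;> rcases hk' with rfl | rfl
  · exact ⟨by decide +kernel, by decide +kernel, by decide +kernel⟩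
  · exact ⟨by decide +kernel, by decide +kernel, by decide +kernel⟩
  · exact ⟨by decide +kernel, by decide +kernel, by decide +kernel⟩
  · exact ⟨by decide +kernel, by decide +kernel, by decide +kernel⟩

private theorem Gwe_key (H : Cox n g) {f : ℕ → ι} (h : S31 n g W f) (b k u v : ℕ) (hb : b = 0 ∨ b = 5)
    (hk2 : 2 ≤ k) (hk4 : k < 4) (hnot : ∀ i < k, b + i ≠ u ∧ b + i ≠ 5 + v)
    (hu : u < 10) (hv : v < 5)
    (hrem : b + k = u ∨ b + k = 5 + v) :
    (Finset.range k).image (fun i => f (b + i)) ∈ dk g ((W.erase (f u)).erase (f (5 + v))) := by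
  obtain ⟨d1, d2, d3⟩ := Gwe_dec b (by omega) hb k hk4 hk2
  have hS : ∀ i < k, f (b + i) ∈ (W.erase (f u)).erase (f (5 + v)) := by
    intro i hi
    obtain ⟨n1, n2⟩ := hnot i hi
    rw [Finset.mem_erase, Finset.mem_erase]
    refine ⟨fun he => n2 (h.inj _ (by omega) _ (by omega) he), fun he => n1 (h.inj _ (by omega) _ (by omega) he),
      h.mem _ (by omega)⟩
  simp only [dk, Finset.mem_filter, Finset.mem_powerset]
  constructor
  · intro z hz
    obtain ⟨i, hi, rfl⟩ := Finset.mem_image.1 hz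
    exact hS i (Finset.mem_range.1 hi)
  · refine ⟨15 + k, fun i => f (b + i), by omega, ⟨?_, ?_, ?_, ?_⟩, ?_⟩
    · intro i hi
      rw [d1] at hi
      exact hS i hi
    · intro i hi j hj he
      rw [d1] at hi hj
      have := h.inj _ (by omega) _ (by omega) he
      omega
    · intro i hi j hj hij
      rw [d1] at hi hj
      rw [h.lb _ (by omega) _ (by omega) (by omega)]
      exact d2 i hi j hj hij
    · intro i hi z hz hadj
      rw [d1] at hi
      rw [Finset.mem_erase, Finset.mem_erase] at hz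
      obtain ⟨z1, z2, z3⟩ := hz
      obtain ⟨j, hj, rfl⟩ := h.closed (b + i) (by omega) z z3 hadj
      have hne : j ≠ b + i := by
        rintro rfl
        exact hadj.1 rfl
      have hl := ((lab_adj H.toDiag).1 hadj).2
      rw [h.lb _ (by omega) _ hj (fun h0 => hne h0.symm)] at hl
      obtain ⟨e1, e2⟩ := d3 i hi j hj hne hl
      have hne2 : j ≠ b + k := by
        rintro rfl
        rcases hrem with h5 | h5
        · rw [h5] at z2
          exact z2 rfl
        · rw [h5] at z1
          exact z1 rfl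
      refine ⟨j - b, by rw [d1]; omega, ?_⟩
      show f (b + (j - b)) = f j
      congr 1
      omega
    · rw [d1]

private theorem Gwe_cases {i : Bool × ℕ × ℕ} (hi : i ∈ slI) :
    (∃ u v, u < 3 ∧ (v = 2 ∨ v = 3) ∧ i = (true, u, v)) ∨ (∃ u v, (u = 2 ∨ u = 3) ∧ v < 3 ∧ i = (false, u, v)) := by
  simp only [slI, Finset.mem_insert, Finset.mem_singleton] at hi
  rcases hi with rfl | rfl | rfl | rfl | rfl | rfl | rfl | rfl | rfl | rfl | rfl | rfl
  · exact Or.inl ⟨0, 2, by omega, by omega, rfl⟩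
  · exact Or.inl ⟨0, 3, by omega, by omega, rfl⟩
  · exact Or.inl ⟨1, 2, by omega, by omega, rfl⟩
  · exact Or.inl ⟨1, 3, by omega, by omega, rfl⟩
  · exact Or.inl ⟨2, 2, by omega, by omega, rfl⟩
  · exact Or.inl ⟨2, 3, by omega, by omega, rfl⟩
  · exact Or.inr ⟨2, 0, by omega, by omega, rfl⟩
  · exact Or.inr ⟨2, 1, by omega, by omega, rfl⟩
  · exact Or.inr ⟨2, 2, by omega, by omega, rfl⟩
  · exact Or.inr ⟨3, 0, by omega, by omega, rfl⟩
  · exact Or.inr ⟨3, 1, by omega, by omega, rfl⟩
  · exact Or.inr ⟨3, 2, by omega, by omega, rfl⟩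

private theorem Gwe_vert {f : ℕ → ι} (h : S31 n g W f) {u v : ℕ} (hu : u < 4) (hv : v < 5) :
    (W.erase (f u)).erase (f (5 + v)) ∈ verts n g := by
  rw [mem_verts]
  refine ⟨?_, h.ver u (by omega) v hv (Or.inl hu)⟩
  have h1 : f (5 + v) ∈ W.erase (f u) := by
    rw [Finset.mem_erase]
    refine ⟨fun he => ?_, h.mem _ (by omega)⟩
    have := h.inj _ (by omega) _ (by omega) he
    omega
  rw [Finset.card_erase_of_mem h1, Finset.card_erase_of_mem (h.mem u (by omega)), h.card]
  omega

private theorem Gwe_uv {f : ℕ → ι} (h : S31 n g W f) {u v u' v' : ℕ} (hu : u < 4) (hv : v < 5) (hu' : u' < 4)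
    (hv' : v' < 5) (he : (W.erase (f u)).erase (f (5 + v)) = (W.erase (f u')).erase (f (5 + v'))) :
    u = u' ∧ v = v' := by
  constructor
  · by_contra hne
    have h1 : f u ∈ (W.erase (f u')).erase (f (5 + v')) := by
      rw [Finset.mem_erase, Finset.mem_erase]
      refine ⟨fun h2 => ?_, fun h2 => ?_, h.mem _ (by omega)⟩
      · have := h.inj _ (by omega) _ (by omega) h2
        omega
      · exact hne (h.inj _ (by omega) _ (by omega) h2)
    rw [← he, Finset.mem_erase, Finset.mem_erase] at h1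
    exact h1.2.1 rfl
  · by_contra hne
    have h1 : f (5 + v) ∈ (W.erase (f u')).erase (f (5 + v')) := by
      rw [Finset.mem_erase, Finset.mem_erase]
      refine ⟨fun h2 => ?_, fun h2 => ?_, h.mem _ (by omega)⟩
      · have := h.inj _ (by omega) _ (by omega) h2
        omega
      · have := h.inj _ (by omega) _ (by omega) h2
        omega
    rw [← he, Finset.mem_erase] at h1
    exact h1.1 rfl

private theorem Gwe_diff {f : ℕ → ι} (h : S31 n g W f) {u v : ℕ} (hu : u < 4) (hv : 2 ≤ v)
    (he : (Finset.Ico 5 (5 + v)).image f = (Finset.range u).image f) : False := by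
  have h1 : f 5 ∈ (Finset.range u).image f := by
    rw [← he]
    exact Finset.mem_image_of_mem f (Finset.mem_Ico.2 ⟨le_rfl, by omega⟩)
  obtain ⟨a, ha, h2⟩ := Finset.mem_image.1 h1
  rw [Finset.mem_range] at ha
  have := h.inj a (by omega) 5 (by omega) h2
  omega

theorem slot_mem (H : Cox n g) {f : ℕ → ι} (h : S31 n g W f) {i : Bool × ℕ × ℕ} (hi : i ∈ slI) :
    (slot W f i).1 ∈ verts n g ∧ (slot W f i).2 ∈ dk g (slot W f i).1 := by
  rcases Gwe_cases hi with ⟨u, v, hu, hv, rfl⟩ | ⟨u, v, hu, hv, rfl⟩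
  · refine ⟨Gwe_vert (u := u) (v := v) h (by omega) (by omega), ?_⟩
    have e : (slot W f (true, u, v)).2 = (Finset.range v).image (fun i => f (5 + i)) := by
      show (Finset.Ico 5 (5 + v)).image f = _
      ext z
      simp only [Finset.mem_image, Finset.mem_Ico, Finset.mem_range]
      constructor
      · rintro ⟨a, ha, rfl⟩
        exact ⟨a - 5, by omega, by congr 1; omega⟩
      · rintro ⟨a, ha, rfl⟩
        exact ⟨5 + a, by omega, rfl⟩
    rw [e]
    exact Gwe_key H h 5 v u v (Or.inr rfl) (by omega) (by omega) (fun i hi => by omega) (by omega) (by omega)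
      (Or.inr rfl)
  · refine ⟨Gwe_vert (u := u) (v := v) h (by omega) (by omega), ?_⟩
    have e : (slot W f (false, u, v)).2 = (Finset.range u).image (fun i => f (0 + i)) := by
      show (Finset.range u).image f = _
      simp only [Nat.zero_add]
    rw [e]
    exact Gwe_key H h 0 u u v (Or.inl rfl) (by omega) (by omega) (fun i hi => by omega) (by omega) (by omega)
      (Or.inl (by omega))

theorem slot_inj {f : ℕ → ι} (h : S31 n g W f) {i j : Bool × ℕ × ℕ} (hi : i ∈ slI) (hj : j ∈ slI)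
    (he : slot W f i = slot W f j) : i = j := by
  rcases Gwe_cases hi with ⟨u, v, hu, hv, rfl⟩ | ⟨u, v, hu, hv, rfl⟩ <;>
    rcases Gwe_cases hj with ⟨u', v', hu', hv', rfl⟩ | ⟨u', v', hu', hv', rfl⟩ <;>
    obtain ⟨rfl, rfl⟩ := Gwe_uv (u := u) (v := v) (u' := u') (v' := v') h (by omega) (by omega) (by omega)
      (by omega) (congrArg Prod.fst he)
  · rfl
  · exact (Gwe_diff (u := u) (v := v) h (by omega) (by omega) (congrArg Prod.snd he)).elim
  · exact (Gwe_diff (u := u) (v := v) h (by omega) (by omega) (congrArg Prod.snd he).symm).elim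
  · rfl

end

end MP86a502
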