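import Pool.Agent.Lib.MP_86a502_gt.U.Gwb
import Pool.Agent.Lib.MP_86a502_gt.U.Gwe

set_option autoImplicit false
set_option linter.unusedSectionVars false

/-! # JOB Gwc. Counting the slots (40-80 lines)

Choose `f` for every exceptional `W`. The `12 N` slots `(S, K)` are distinct (`slot_inj`, `slot_uniq`) and
belong to the set of pairs `S ∈ verts n g`, `K ∈ dk g S` (`Finset.sigma` or a `biUnion`/`card_le_card` argument,
`Finset.card_le_card_of_injOn`). -/

namespace MP86a502

section
variable {ι : Type} [Fintype ι] [DecidableEq ι] {n : ℕ} {g : ι → ι → ℝ}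

open scoped Classical in
theorem slots_le (H : Cox n g) :
    12 * (Finset.univ.filter (fun W : Finset ι => ∃ f, S31 n g W f)).card ≤
      ∑ S ∈ verts n g, (dk g S).card := by
  obtain ⟨E, hE⟩ : ∃ E, E = Finset.univ.filter (fun W : Finset ι => ∃ f, S31 n g W f) := ⟨_, rfl⟩
  rw [← hE]
  have hmem : ∀ W ∈ E, ∃ f, S31 n g W f := by
    intro W hW
    rw [hE, Finset.mem_filter] at hW
    exact hW.2
  rcases isEmpty_or_nonempty ι with hι | hι
  · have h0 : E = ∅ := by
      rw [Finset.eq_empty_iff_forall_notMem]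
      intro W hW
      obtain ⟨f, _⟩ := hmem W hW
      exact hι.elim (f 0)
    rw [h0, Finset.card_empty, mul_zero]
    exact Nat.zero_le _
  choose! f hf using hmem
  have hcard : slI.card = 12 := by decide
  have h1 : 12 * E.card = (E ×ˢ slI).card := by
    rw [Finset.card_product, hcard, mul_comm]
  have h2 : ∑ S ∈ verts n g, (dk g S).card = ((verts n g).sigma (fun S => dk g S)).card := by
    rw [Finset.card_sigma]
  rw [h1, h2]
  refine Finset.card_le_card_of_injOn (fun p => ⟨(slot p.1 (f p.1) p.2).1, (slot p.1 (f p.1) p.2).2⟩) ?_ ?_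
  · rintro ⟨W, i⟩ hp
    rw [Finset.mem_coe, Finset.mem_product] at hp
    rw [Finset.mem_coe, Finset.mem_sigma]
    exact slot_mem H (hf W hp.1) hp.2
  · rintro ⟨W, i⟩ hp ⟨W', j⟩ hq he
    rw [Finset.mem_coe, Finset.mem_product] at hp hq
    have he1 : slot W (f W) i = slot W' (f W') j := by
      simp only [Sigma.mk.injEq, heq_eq_eq] at he
      exact Prod.ext he.1 he.2
    have hW : W = W' := slot_uniq H (hf W hp.1) (hf W' hq.1) hp.2 hq.2 he1
    subst hW
    have hi : i = j := slot_inj (hf W hp.1) hp.2 hq.2 he1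
    rw [hi]

end

end MP86a502
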