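import Pool.Agent.Lib.MP_86a502_gt.U.Def2

set_option autoImplicit false
set_option linter.unusedSectionVars false

/-! # JOB Hsa. Double counting (60-100 lines)

Both sides are sums over the triples (vertex `S`, ordered pair `x ≠ y` of `S`); the 2-face is
`T = S \ {x, y}` (`|S| = n`, so `T.card + 2 = n`, and `T` is positive definite by `pd_subset`). For `T ∈ faces2`,
`S ∈ ov n g T`, `x, y ∈ S \ T`, `x ≠ y`: the map `(T, S, x, y) ↦ (S, x, y)` is injective because
`T = S \ {x, y}` (`(S \ T).card = 2`). -/

namespace MP86a502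

section
variable {ι : Type} [Fintype ι] [DecidableEq ι] {n : ℕ} {g : ι → ι → ℝ}

theorem sum_fsum (n : ℕ) (g : ι → ι → ℝ) : ∑ T ∈ faces2 n g, fsum n g T ≤
    ∑ S ∈ verts n g, ∑ x ∈ S, ∑ y ∈ S.erase x, wt g S x y := by
  classical
  have e1 : ∀ T ∈ faces2 n g, fsum n g T = ∑ S ∈ verts n g, ∑ x ∈ S, ∑ y ∈ S.erase x,
      (if T ⊆ S ∧ x ∉ T ∧ y ∉ T then wt g S x y else 0) := by
    intro T _
    unfold fsum
    have e2 : ov n g T = (verts n g).filter (fun S => T ⊆ S) := by
      ext S
      rw [Finset.mem_filter, mem_ov, mem_verts]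
    rw [e2, Finset.sum_filter]
    refine Finset.sum_congr rfl fun S _ => ?_
    by_cases hTS : T ⊆ S
    · rw [if_pos hTS]
      simp only [hTS, true_and]
      have e3 : S \ T = S.filter (fun x => x ∉ T) := by
        ext x
        rw [Finset.mem_sdiff, Finset.mem_filter]
      rw [e3, Finset.sum_filter]
      refine Finset.sum_congr rfl fun x _ => ?_
      by_cases hx : x ∈ T
      · simp [hx]
      · simp only [hx, not_false_eq_true, if_true, true_and]
        have e4 : (S.filter (fun x => x ∉ T)).erase x = (S.erase x).filter (fun y => y ∉ T) := by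
          ext y
          simp only [Finset.mem_erase, Finset.mem_filter]
          tauto
        rw [e4, Finset.sum_filter]
    · rw [if_neg hTS]
      refine (Finset.sum_eq_zero fun x _ => Finset.sum_eq_zero fun y _ => ?_).symm
      simp [hTS]
  rw [Finset.sum_congr rfl e1, Finset.sum_comm]
  refine Finset.sum_le_sum fun S hS => ?_
  rw [Finset.sum_comm]
  refine Finset.sum_le_sum fun x hx => ?_
  rw [Finset.sum_comm]
  refine Finset.sum_le_sum fun y hy => ?_
  rw [← Finset.sum_filter, Finset.sum_const, smul_eq_mul]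
  have hc : ((faces2 n g).filter (fun T => T ⊆ S ∧ x ∉ T ∧ y ∉ T)).card ≤ 1 := by
    rw [Finset.card_le_one]
    have hu : ∀ T ∈ (faces2 n g).filter (fun T => T ⊆ S ∧ x ∉ T ∧ y ∉ T), T = (S.erase x).erase y := by
      intro T hT
      rw [Finset.mem_filter, mem_faces2] at hT
      obtain ⟨⟨hT1, _⟩, hTS, hxT, hyT⟩ := hT
      refine Finset.eq_of_subset_of_card_le (fun z hz => ?_) ?_
      · rw [Finset.mem_erase, Finset.mem_erase]
        exact ⟨fun h => hyT (h ▸ hz), fun h => hxT (h ▸ hz), hTS hz⟩
      · rw [Finset.card_erase_of_mem hy, Finset.card_erase_of_mem hx]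
        have := (mem_verts.1 hS).1
        omega
    intro T hT T' hT'
    rw [hu T hT, hu T' hT']
  calc _ ≤ 1 * wt g S x y := Nat.mul_le_mul_right _ hc
    _ = wt g S x y := one_mul _

end

end MP86a502
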