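import Pool.Agent.Lib.MP_86a502_gt.U.Itb
import Pool.Agent.Lib.MP_86a502_gt.U.Gwc
import Pool.Agent.Lib.MP_86a502_gt.U.Hsa
import Pool.Agent.Lib.MP_86a502_gt.Pob

set_option autoImplicit false
set_option linter.unusedSectionVars false

/-! # JOB Hsm. Summation (80-140 lines)

* `main_ineq`: `∑_T (5 - k_T) ≤ |Q| + 2 |Tr|` with the sets `Q`, `Tr` of the 2-faces with `4`, `3` vertices
  (`ov_card_ge`: `k_T ≥ 3`). Grouping by the hull, `4 |Q| = ∑_W 4 |QF n g W|`, and
  `4 |QF n g W| ≤ 144 [W exceptional] + ∑_{T ∈ QF n g W} fsum`; `8 |Tr| ≤ ∑_{T ∈ Tr} fsum`. So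
  `4 ∑_T (5 - k_T) ≤ ∑_T fsum n g T + 144 N ≤ ∑_S (∑ wt + 12 |dk g S|) ≤ 8 n |verts|` by `slots_le`,
  `sum_fsum`, `vert_bound`.
* `no_22`: `Cox.count` and `2 n ≤ Bn n` for `n ≥ 22` (even: `n (n - 6) / 8 ≥ 2 n`; odd:
  `(n - 1)(n - 5) / 8 ≥ 2 n` for `n ≥ 23`). -/

namespace MP86a502

section
variable {ι : Type} [Fintype ι] [DecidableEq ι] {n : ℕ} {g : ι → ι → ℝ}

theorem main_ineq (H : Cox n g) (hQ : ∀ W, defQ 0 n g W ∨ (defQ 144 n g W ∧ ∃ f, S31 n g W f))
    (hT : ∀ M, defT n g M) :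
    4 * ∑ T ∈ faces2 n g, (5 - ((ov n g T).card : ℝ)) ≤ 8 * n * ((verts n g).card : ℝ) := by
  classical
  obtain ⟨Q, hQd⟩ : ∃ Q, Q = (faces2 n g).filter (fun T => (ov n g T).card = 4) := ⟨_, rfl⟩
  obtain ⟨R, hRd⟩ : ∃ R, R = (faces2 n g).filter (fun T => (ov n g T).card = 3) := ⟨_, rfl⟩
  have hQF : ∀ W, QF n g W = Q.filter (fun T => hull n g T = W) := by
    intro W
    rw [hQd, Finset.filter_filter]
    rfl
  have hTF : ∀ W, TF n g W = R.filter (fun T => hull n g T = W) := by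
    intro W
    rw [hRd, Finset.filter_filter]
    rfl
  -- the quadrangles
  have q1 : 4 * Q.card ≤ 144 * (Finset.univ.filter (fun W : Finset ι => ∃ f, S31 n g W f)).card +
      ∑ T ∈ Q, fsum n g T := by
    have e1 : Q.card = ∑ W : Finset ι, (QF n g W).card := by
      rw [Finset.card_eq_sum_card_fiberwise (f := fun T => hull n g T) (t := Finset.univ)
        (fun _ _ => Finset.mem_coe.2 (Finset.mem_univ _))]
      exact Finset.sum_congr rfl fun W _ => by rw [hQF W]
    have e2 : ∑ T ∈ Q, fsum n g T = ∑ W : Finset ι, ∑ T ∈ QF n g W, fsum n g T := by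
      rw [← Finset.sum_fiberwise Q (fun T => hull n g T)]
      exact Finset.sum_congr rfl fun W _ => by rw [hQF W]
    have e3 : 144 * (Finset.univ.filter (fun W : Finset ι => ∃ f, S31 n g W f)).card =
        ∑ W : Finset ι, (if ∃ f, S31 n g W f then 144 else 0) := by
      rw [← Finset.sum_filter, Finset.sum_const, smul_eq_mul, mul_comm]
    rw [e1, e2, e3, Finset.mul_sum, ← Finset.sum_add_distrib]
    refine Finset.sum_le_sum fun W _ => ?_
    rcases hQ W with h1 | ⟨h1, h2⟩
    · unfold defQ at h1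
      omega
    · rw [if_pos h2]
      exact h1
  have t1 : 8 * R.card ≤ ∑ T ∈ R, fsum n g T := by
    have e1 : R.card = ∑ W : Finset ι, (TF n g W).card := by
      rw [Finset.card_eq_sum_card_fiberwise (f := fun T => hull n g T) (t := Finset.univ)
        (fun _ _ => Finset.mem_coe.2 (Finset.mem_univ _))]
      exact Finset.sum_congr rfl fun W _ => by rw [hTF W]
    have e2 : ∑ T ∈ R, fsum n g T = ∑ W : Finset ι, ∑ T ∈ TF n g W, fsum n g T := by
      rw [← Finset.sum_fiberwise R (fun T => hull n g T)]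
      exact Finset.sum_congr rfl fun W _ => by rw [hTF W]
    rw [e1, e2, Finset.mul_sum]
    exact Finset.sum_le_sum fun W _ => hT W
  have d1 : ∑ T ∈ Q, fsum n g T + ∑ T ∈ R, fsum n g T ≤ ∑ T ∈ faces2 n g, fsum n g T := by
    have hd : Disjoint Q R := by
      rw [Finset.disjoint_left, hQd, hRd]
      intro T h1 h2
      rw [Finset.mem_filter] at h1 h2
      omega
    rw [← Finset.sum_union hd]
    refine Finset.sum_le_sum_of_subset (Finset.union_subset ?_ ?_)
    · rw [hQd]
      exact Finset.filter_subset _ _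
    · rw [hRd]
      exact Finset.filter_subset _ _
  have v1 : ∑ S ∈ verts n g, (∑ x ∈ S, ∑ y ∈ S.erase x, wt g S x y + 12 * (dk g S).card) ≤
      8 * n * (verts n g).card := by
    calc ∑ S ∈ verts n g, (∑ x ∈ S, ∑ y ∈ S.erase x, wt g S x y + 12 * (dk g S).card)
        ≤ ∑ S ∈ verts n g, 8 * n := by
          refine Finset.sum_le_sum fun S hS => ?_
          obtain ⟨hc, hp⟩ := mem_verts.1 hS
          have h1 := vert_bound H.toDiag n S hc hp
          rwa [hc] at h1
      _ = 8 * n * (verts n g).card := by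
          rw [Finset.sum_const, smul_eq_mul, mul_comm]
  rw [Finset.sum_add_distrib, ← Finset.mul_sum] at v1
  have s1 := slots_le H
  have s2 := sum_fsum n g
  have main : 4 * Q.card + 8 * R.card ≤ 8 * n * (verts n g).card := by
    have s3 : (Finset.univ.filter (fun W : Finset ι => ∃ f, S31 n g W f)).card * 144 =
        12 * (12 * (Finset.univ.filter (fun W : Finset ι => ∃ f, S31 n g W f)).card) := by ring
    omega
  have c1 : ∑ T ∈ faces2 n g, (5 - ((ov n g T).card : ℝ)) ≤ (Q.card : ℝ) + 2 * (R.card : ℝ) := by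
    have e1 : (Q.card : ℝ) = ∑ T ∈ faces2 n g, (if (ov n g T).card = 4 then (1 : ℝ) else 0) := by
      rw [← Finset.sum_filter, Finset.sum_const, nsmul_eq_mul, mul_one, hQd]
    have e2 : (R.card : ℝ) = ∑ T ∈ faces2 n g, (if (ov n g T).card = 3 then (1 : ℝ) else 0) := by
      rw [← Finset.sum_filter, Finset.sum_const, nsmul_eq_mul, mul_one, hRd]
    rw [e1, e2, Finset.mul_sum, ← Finset.sum_add_distrib]
    refine Finset.sum_le_sum fun T hT => ?_
    have h3 := ov_card_ge H hT
    rcases Nat.lt_or_ge (ov n g T).card 5 with h5 | h5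
    · have h6 : (ov n g T).card = 3 ∨ (ov n g T).card = 4 := by omega
      rcases h6 with h6 | h6
      · rw [h6]
        norm_num
      · rw [h6]
        norm_num
    · have h6 : (5 : ℝ) ≤ ((ov n g T).card : ℝ) := by exact_mod_cast h5
      rw [if_neg (by omega), if_neg (by omega)]
      linarith
  have main' : 4 * (Q.card : ℝ) + 8 * (R.card : ℝ) ≤ 8 * n * ((verts n g).card : ℝ) := by exact_mod_cast main
  linarith

theorem Bn_ge (hn : 22 ≤ n) : 2 * (n : ℝ) ≤ Bn n := by
  have h1 : (22 : ℝ) ≤ n := by exact_mod_cast hn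
  unfold Bn
  split_ifs
  · nlinarith
  · nlinarith

theorem no_22 (H : Cox n g) (hn : 22 ≤ n)
    (hQ : ∀ W, defQ 0 n g W ∨ (defQ 144 n g W ∧ ∃ f, S31 n g W f)) (hT : ∀ M, defT n g M) :
    False := by
  have h1 := main_ineq H hQ hT
  have h2 := H.count
  have h3 := Bn_ge hn
  have h4 : (0 : ℝ) ≤ ((verts n g).card : ℝ) := Nat.cast_nonneg _
  nlinarith

end

end MP86a502
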