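import Pool.Agent.Lib.MP_86a502_gt.U.Rte

set_option autoImplicit false
set_option linter.unusedSectionVars false

/-! # JOB Rta. The initial state of a pair of halves (150-250 lines)

`RootH` (`Rtd.lean`): `X`, `Y` are disjoint Lannér diagrams in `W`, identified with the diagrams
number `hT h`, `hT k` by `φ₁`, `φ₂`; the marks are `φ₁ (hP h), φ₁ (hQ h)` and `φ₂ (hP k), φ₂ (hQ k)`.
Build `Sem true n g W A B rm cm m c sat V φ` with the numbers of `hR`: `φ a = φ₁ a` for
`a < n₁ = lN (hT h)`, `φ a = φ₂ (a - n₁)` otherwise, `m = n₁ + n₂ ≤ 10`. The matrix `c` has the entries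
`hE h k a b` (`hM`, `all16_iff`). Codes inside a half: `LP.cod`. Codes between the two halves: `10` is
fine because the label is `≤ 7` (a dotted pair `x ∈ X`, `y ∈ Y` is not positive definite and does not
contain both marks of a side, see `hit`); code `2`: one of the two nodes is in `hS` (`half_sat`, for the
second half via `RootH.symm`), or the distances `hA` to the marks are `0 + 0`, `0 + 1`, `1 + 0`: use
`RootH.star` (for `0 + 0`: `g = 0`; for `1`: a neighbour of a mark (codes of `lP` are symmetric, `lP_rng`,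
`≠ 2` means adjacent) which is not a mark). `hit`: if `Z ⊆ W` is not positive definite then for each pair
of marks `a` (row), `b` (column) `a ∈ Z` or `b ∈ Z`. `fin`: a dotted pair `z, w` is not positive definite, so
it is equal to the two marks of a side, so `z` is known. `ver`: `vt_lor`, `vt_one`. `rmz`, `cmz`: `bit_dvd`,
`Nat.testBit_or`. Finally `chk_sound`. -/

namespace MP86a502

section
variable {ι : Type} [Fintype ι] [DecidableEq ι] {n : ℕ} {g : ι → ι → ℝ}

private def Rta_phi (N1 : ℕ) (φ₁ φ₂ : ℕ → ι) (a : ℕ) : ι := if a < N1 then φ₁ a else φ₂ (a - N1)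

private theorem Rta_lt {N1 : ℕ} {φ₁ φ₂ : ℕ → ι} {a : ℕ} (h : a < N1) :
    Rta_phi N1 φ₁ φ₂ a = φ₁ a := if_pos h

private theorem Rta_ge {N1 : ℕ} {φ₁ φ₂ : ℕ → ι} {a : ℕ} (h : N1 ≤ a) :
    Rta_phi N1 φ₁ φ₂ a = φ₂ (a - N1) := if_neg (by omega)

/-- a set which misses a mark of each side is positive definite -/
private theorem Rta_pd {W X Y : Finset ι} {h k : ℕ} {φ₁ φ₂ : ℕ → ι}
    (R : RootH n g W X Y h k φ₁ φ₂) {Z : Finset ι} (hZ : Z ⊆ W) {a b : ℕ}
    (ha : a = hP h ∨ a = hQ h) (hb : b = hP k ∨ b = hQ k) (h1 : φ₁ a ∉ Z) (h2 : φ₂ b ∉ Z) :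
    PD g Z := by
  refine pd_subset (R.ver a b ha hb) ?_
  intro z hz
  refine Finset.mem_erase.2 ⟨fun e => h2 (e ▸ hz), Finset.mem_erase.2 ⟨fun e => h1 (e ▸ hz), hZ hz⟩⟩

/-- a mark of the first half different from a given facet -/
private theorem Rta_mark {W X Y : Finset ι} {h k : ℕ} {φ₁ φ₂ : ℕ → ι}
    (R : RootH n g W X Y h k φ₁ φ₂) (x : ι) : ∃ a, (a = hP h ∨ a = hQ h) ∧ φ₁ a ≠ x := by
  obtain ⟨-, h1, h2, h3⟩ := half_rng h R.hh
  by_cases hx : φ₁ (hP h) = x
  · refine ⟨hQ h, Or.inr rfl, fun h4 => h3 (R.lpX.inj _ h1 _ h2 (hx.trans h4.symm))⟩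
  · exact ⟨hP h, Or.inl rfl, hx⟩

private theorem Rta_cross {W X Y : Finset ι} {h k : ℕ} {φ₁ φ₂ : ℕ → ι} (H : CoxH n g)
    (R : RootH n g W X Y h k φ₁ φ₂) {u v : ℕ} (hu : u < lN (hT h)) (hv : v < lN (hT k)) :
    φ₁ u ≠ φ₂ v ∧ lab g (φ₁ u) (φ₂ v) ≤ 7 := by
  have hx : φ₁ u ∈ X := (R.lpX.mem _).2 ⟨u, hu, rfl⟩
  have hy : φ₂ v ∈ Y := (R.lpY.mem _).2 ⟨v, hv, rfl⟩
  have hne : φ₁ u ≠ φ₂ v := fun e => Finset.disjoint_left.1 R.dis hx (e ▸ hy)
  refine ⟨hne, (pd_lab H.toDiag hne).1 ?_⟩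
  obtain ⟨a, ha, ha'⟩ := Rta_mark R (φ₁ u)
  obtain ⟨b, hb, hb'⟩ := Rta_mark (R.symm H.toDiag) (φ₂ v)
  have hk := half_rng k R.hk
  have hh := half_rng h R.hh
  have hax : φ₁ a ∈ X := (R.lpX.mem _).2 ⟨a, by rcases ha with rfl | rfl; exacts [hh.2.1, hh.2.2.1], rfl⟩
  have hby : φ₂ b ∈ Y := (R.lpY.mem _).2 ⟨b, by rcases hb with rfl | rfl; exacts [hk.2.1, hk.2.2.1], rfl⟩
  refine Rta_pd R (a := a) (b := b) ?_ ha hb ?_ ?_
  · intro z hz
    rcases Finset.mem_insert.1 hz with rfl | hz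
    · exact R.subX hx
    · rw [Finset.mem_singleton.1 hz]
      exact R.subY hy
  · intro hm
    rcases Finset.mem_insert.1 hm with hm | hm
    · exact ha' hm
    · rw [Finset.mem_singleton.1 hm] at hax
      exact Finset.disjoint_left.1 R.dis hax hy
  · intro hm
    rcases Finset.mem_insert.1 hm with hm | hm
    · rw [hm] at hby
      exact Finset.disjoint_left.1 R.dis hx hby
    · exact hb' (Finset.mem_singleton.1 hm)

/-- the number `hA` -/
private theorem Rta_hA (h u : ℕ) :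
    (hA h u = 0 ∧ (u = hP h ∨ u = hQ h)) ∨
    (hA h u = 1 ∧ u ≠ hP h ∧ u ≠ hQ h ∧ (lP (hT h) u (hP h) ≠ 2 ∨ lP (hT h) u (hQ h) ≠ 2)) ∨
    hA h u = 2 := by
  unfold hA
  simp only [bcN_eq, Nat.beq_eq]
  by_cases h1 : u = hP h
  · left
    rw [if_pos h1]
    exact ⟨rfl, Or.inl h1⟩
  · rw [if_neg h1]
    by_cases h2 : u = hQ h
    · left
      rw [if_pos h2]
      exact ⟨rfl, Or.inr h2⟩
    · rw [if_neg h2]
      by_cases h3 : lP (hT h) u (hP h) = 2
      · by_cases h4 : lP (hT h) u (hQ h) = 2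
        · right; right
          rw [if_pos h3, if_pos h4]
        · right; left
          rw [if_pos h3, if_neg h4]
          exact ⟨rfl, h1, h2, Or.inr h4⟩
      · right; left
        rw [if_neg h3]
        exact ⟨rfl, h1, h2, Or.inl h3⟩

/-- nonzero codes inside a half -/
private theorem Rta_adj (H : CoxH n g) {X : Finset ι} {t : ℕ} {φ : ℕ → ι} (L : LP g t φ X)
    (ht : t < 12) {u v : ℕ} (hu : u < lN t) (hv : v < lN t) (hne : u ≠ v) (hc : lP t u v ≠ 2) :
    adj g (φ u) (φ v) := by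
  have hlt := (lN_rng t ht).2
  have hne' : φ u ≠ φ v := fun e => hne (L.inj u hu v hv e)
  refine (lab_adj H.toDiag).2 ⟨hne', ?_⟩
  have h10 := (lP_rng t ht u (by omega) v (by omega)).2.2.2
  rcases L.cod u hu v hv hne with ⟨_, h2⟩ | ⟨h1, h2, _⟩
  · omega
  · omega

/-- two nodes close to the marks are orthogonal -/
private theorem Rta_zero (H : CoxH n g) {W X Y : Finset ι} {h k : ℕ} {φ₁ φ₂ : ℕ → ι}
    (R : RootH n g W X Y h k φ₁ φ₂) {u v : ℕ} (hu : u < lN (hT h)) (hv : v < lN (hT k))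
    (hA2 : hA h u = 1) (hv0 : v = hP k ∨ v = hQ k) : g (φ₁ u) (φ₂ v) = 0 := by
  have hh := half_rng h R.hh
  have hx : φ₁ u ∈ X := (R.lpX.mem _).2 ⟨u, hu, rfl⟩
  have hk := half_rng k R.hk
  rcases Rta_hA h u with h1 | h1 | h1
  · omega
  · by_contra hg
    obtain ⟨-, n1, n2, h3⟩ := h1
    have key : ∀ a, (a = hP h ∨ a = hQ h) → a < lN (hT h) → u ≠ a → lP (hT h) u a ≠ 2 → False := by
      intro a ha hal hua hc
      have hadj := Rta_adj H R.lpX hh.1 hu hal hua hc
      have hne := (Rta_cross H R hu hv).1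
      have h4 := (R.star a v ha hv0).2 (φ₁ u) (R.subX hx) hadj ⟨hne, hg⟩
      rcases h4 with h4 | h4 | h4 | h4
      · exact n1 (R.lpX.inj _ hu _ hh.2.1 h4)
      · exact n2 (R.lpX.inj _ hu _ hh.2.2.1 h4)
      · exact (Rta_cross H R hu hk.2.1).1 h4
      · exact (Rta_cross H R hu hk.2.2.1).1 h4
    rcases h3 with h3 | h3
    · exact key _ (Or.inl rfl) hh.2.1 n1 h3
    · exact key _ (Or.inr rfl) hh.2.2.1 n2 h3
  · omega

private theorem Rta_hC (H : CoxH n g) {W X Y : Finset ι} {h k : ℕ} {φ₁ φ₂ : ℕ → ι}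
    (R : RootH n g W X Y h k φ₁ φ₂) {u v : ℕ} (hu : u < lN (hT h)) (hv : v < lN (hT k)) :
    ok (hC h k u v) (lab g (φ₁ u) (φ₂ v)) := by
  obtain ⟨hne, h7⟩ := Rta_cross H R hu hv
  have h2 := (lab_rng H.toDiag hne).1
  have hx : φ₁ u ∈ X := (R.lpX.mem _).2 ⟨u, hu, rfl⟩
  have hy : φ₂ v ∈ Y := (R.lpY.mem _).2 ⟨v, hv, rfl⟩
  have ok2 : g (φ₁ u) (φ₂ v) = 0 → ok 2 (lab g (φ₁ u) (φ₂ v)) := fun h0 =>
    Or.inl ⟨by norm_num, (lab_two H.toDiag hne).2 h0⟩
  unfold hC
  simp only [bcN_eq]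
  by_cases h1 : bt (hS h) u = true
  · rw [if_pos h1]
    apply ok2
    by_contra hg
    exact (half_sat H R h1).2 (φ₂ v) (R.subY hy) (fun hm => Finset.disjoint_left.1 R.dis hm hy)
      ⟨hne, hg⟩
  rw [if_neg h1]
  by_cases h3 : bt (hS k) v = true
  · rw [if_pos h3]
    apply ok2
    by_contra hg
    refine (half_sat H (R.symm H.toDiag) h3).2 (φ₁ u) (R.subX hx)
      (fun hm => Finset.disjoint_left.1 R.dis hx hm) ⟨hne.symm, ?_⟩
    rw [H.symm]
    exact hg
  rw [if_neg h3]
  by_cases h4 : Nat.ble (Nat.add (hA h u) (hA k v)) 1 = true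
  · rw [if_pos h4]
    have h5 : hA h u + hA k v ≤ 1 := Nat.le_of_ble_eq_true h4
    apply ok2
    rcases Rta_hA h u with h6 | h6 | h6
    · rcases Rta_hA k v with h8 | h8 | h8
      · exact (R.star u v h6.2 h8.2).1
      · rw [H.symm]
        exact Rta_zero H (R.symm H.toDiag) hv hu h8.1 h6.2
      · omega
    · rcases Rta_hA k v with h8 | h8 | h8
      · exact Rta_zero H R hu hv h6.1 h8.2
      · omega
      · omega
    · omega
  · rw [if_neg h4]
    right
    omega

/-- the code of a pair of nodes -/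
private theorem Rta_hE (h k a b : ℕ) : hE h k a b =
    if a = b then 2 else if lN (hT h) + lN (hT k) ≤ a then 2 else
    if lN (hT h) + lN (hT k) ≤ b then 2 else
    if a < lN (hT h) then (if b < lN (hT h) then lP (hT h) a b else hC h k a (b - lN (hT h)))
    else (if b < lN (hT h) then hC h k b (a - lN (hT h))
      else lP (hT k) (a - lN (hT h)) (b - lN (hT h))) := by
  unfold hE
  simp only [bcN_eq, Nat.beq_eq, Nat.ble_eq]
  rfl

theorem root_sound (H : CoxH n g) (l5 : ∀ X, Lan g X → X.card ≤ 5) {W X Y : Finset ι} {h k : ℕ}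
    {φ₁ φ₂ : ℕ → ι} (R : RootH n g W X Y h k φ₁ φ₂) {c : ℕ} {t : Tr} (hR : hR h k c t = true) :
    defQ 0 n g W ∨ ∃ f, S31 n g W f := by
  have hR' : bcB (hM h k c) (chk true (full (lN (hT h)))
      (Nat.xor (full (Nat.add (lN (hT h)) (lN (hT k)))) (full (lN (hT h))))
      (Nat.lor (bit (hP h)) (bit (hQ h)))
      (Nat.lor (bit (Nat.add (lN (hT h)) (hP k))) (bit (Nat.add (lN (hT h)) (hQ k)))) t
      (Nat.add (lN (hT h)) (lN (hT k))) c
      (Nat.lor (hS h) (Nat.shiftLeft (hS k) (Nat.mul (nat_lit 4) (lN (hT h)))))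
      (Nat.lor
        (Nat.lor (Nat.shiftLeft (nat_lit 1) (pos (hP h) (Nat.add (lN (hT h)) (hP k))))
          (Nat.shiftLeft (nat_lit 1) (pos (hP h) (Nat.add (lN (hT h)) (hQ k)))))
        (Nat.lor (Nat.shiftLeft (nat_lit 1) (pos (hQ h) (Nat.add (lN (hT h)) (hP k))))
          (Nat.shiftLeft (nat_lit 1) (pos (hQ h) (Nat.add (lN (hT h)) (hQ k))))))) false = true := hR
  obtain ⟨hM1, hchk⟩ := bcB_and.1 hR'
  clear hR' hR
  obtain ⟨ht1, hp1, hq1, hpq1⟩ := half_rng h R.hh
  obtain ⟨ht2, hp2, hq2, hpq2⟩ := half_rng k R.hk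
  have hl1 := lN_rng _ ht1
  have hl2 := lN_rng _ ht2
  have hcd : ∀ a < 16, ∀ b < 16, cd c a b = hE h k a b := by
    intro a ha b hb
    have h1 := all16_iff.1 (all16_iff.1 (show all16 (fun a => all16 (fun b =>
      Nat.beq (cd c a b) (hE h k a b))) = true from hM1) a ha) b hb
    exact Nat.eq_of_beq_eq_true h1
  have hlP1 := lP_rng _ ht1
  have hlP2 := lP_rng _ ht2
  have Rs := R.symm H.toDiag
  generalize hN1 : lN (hT h) = N1 at *
  generalize hN2 : lN (hT k) = N2 at *
  set φ : ℕ → ι := Rta_phi N1 φ₁ φ₂ with hφ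
  have memX : ∀ a, a < N1 → φ₁ a ∈ X := fun a ha => (R.lpX.mem _).2 ⟨a, hN1.symm ▸ ha, rfl⟩
  have memY : ∀ a, a < N2 → φ₂ a ∈ Y := fun a ha => (R.lpY.mem _).2 ⟨a, hN2.symm ▸ ha, rfl⟩
  have hadd : ∀ a b : ℕ, Nat.add a b = a + b := fun _ _ => rfl
  simp only [hadd] at hchk
  have btA : ∀ a, bt (full N1) a = true ↔ a < N1 := fun a => bt_full (by omega)
  have btB : ∀ a, bt (Nat.xor (full (N1 + N2)) (full N1)) a = true ↔ (N1 ≤ a ∧ a < N1 + N2) := by
    intro a
    rw [bt_xor]
    have e1 := btA a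
    have e2 : bt (full (N1 + N2)) a = true ↔ a < N1 + N2 := bt_full (by omega)
    by_cases h1 : a < N1
    · rw [e1.2 h1, e2.2 (by omega)]
      simp only [Bool.xor_self, Bool.false_eq_true, false_iff]
      omega
    · have h3 : bt (full N1) a = false := by
        rw [← Bool.not_eq_true, e1]
        exact h1
      rw [h3, Bool.xor_false, e2]
      omega
  have btrm : ∀ a, bt (Nat.lor (bit (hP h)) (bit (hQ h))) a = true ↔ (a = hP h ∨ a = hQ h) := by
    intro a
    rw [bt_lor, Bool.or_eq_true, bt_bit, bt_bit]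
  have btcm : ∀ a, bt (Nat.lor (bit (N1 + hP k)) (bit (N1 + hQ k))) a = true ↔
      (a = N1 + hP k ∨ a = N1 + hQ k) := by
    intro a
    rw [bt_lor, Bool.or_eq_true, bt_bit, bt_bit]
  have imA : img φ (bt (full N1)) = X := by
    ext z
    rw [mem_img, R.lpX.mem, hN1]
    constructor
    · rintro ⟨a, -, ha, rfl⟩
      have h1 := (btA a).1 ha
      exact ⟨a, h1, (Rta_lt h1).symm⟩
    · rintro ⟨a, ha, rfl⟩
      exact ⟨a, by omega, (btA a).2 ha, Rta_lt ha⟩
  have imB : img φ (bt (Nat.xor (full (N1 + N2)) (full N1))) = Y := by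
    ext z
    rw [mem_img, R.lpY.mem, hN2]
    constructor
    · rintro ⟨a, -, ha, rfl⟩
      have h1 := (btB a).1 ha
      exact ⟨a - N1, by omega, (Rta_ge h1.1).symm⟩
    · rintro ⟨a, ha, rfl⟩
      refine ⟨N1 + a, by omega, (btB _).2 ⟨by omega, by omega⟩, ?_⟩
      rw [hφ, Rta_ge (by omega), Nat.add_sub_cancel_left]
  have cross : ∀ u v, u < N1 → v < N2 → φ₁ u ≠ φ₂ v := fun u v hu hv =>
    (Rta_cross H R (hN1.symm ▸ hu) (hN2.symm ▸ hv)).1
  have hit : ∀ Z ⊆ W, ¬ PD g Z → (∀ a, (a = hP h ∨ a = hQ h) → φ a ∈ Z) ∨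
      (∀ a, (a = N1 + hP k ∨ a = N1 + hQ k) → φ a ∈ Z) := by
    intro Z hZ hn
    by_contra hcon
    rw [not_or] at hcon
    obtain ⟨h1, h2⟩ := hcon
    push Not at h1 h2
    obtain ⟨a, ha, ha'⟩ := h1
    obtain ⟨b, hb, hb'⟩ := h2
    have ha2 : a < N1 := by rcases ha with rfl | rfl; exacts [hp1, hq1]
    rw [hφ, Rta_lt ha2] at ha'
    rw [hφ, Rta_ge (by omega)] at hb'
    exact hn (Rta_pd R hZ ha (b := b - N1) (by omega) ha' hb')
  have hS0 : Sem0 true n g W (full N1) (Nat.xor (full (N1 + N2)) (full N1)) (N1 + N2) c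
      (Nat.lor (hS h) (Nat.shiftLeft (hS k) (Nat.mul (nat_lit 4) N1)))
      (Nat.lor
        (Nat.lor (Nat.shiftLeft (nat_lit 1) (pos (hP h) (N1 + hP k)))
          (Nat.shiftLeft (nat_lit 1) (pos (hP h) (N1 + hQ k))))
        (Nat.lor (Nat.shiftLeft (nat_lit 1) (pos (hQ h) (N1 + hP k)))
          (Nat.shiftLeft (nat_lit 1) (pos (hQ h) (N1 + hQ k))))) φ := by
    refine ⟨fun _ => R.card, fun hf => absurd hf (by simp), by omega, ?_, ?_, ?_, ?_, ?_, ?_, ?_,
      ?_, ?_, ?_, ?_, ?_, fun hf => absurd hf (by simp)⟩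
    · intro a ha
      by_cases h1 : a < N1
      · rw [hφ, Rta_lt h1]; exact R.subX (memX a h1)
      · rw [hφ, Rta_ge (by omega)]; exact R.subY (memY _ (by omega))
    · intro a ha b hb hab
      by_cases h1 : a < N1
      · by_cases h2 : b < N1
        · rw [hφ, Rta_lt h1, Rta_lt h2] at hab
          exact R.lpX.inj a (hN1.symm ▸ h1) b (hN1.symm ▸ h2) hab
        · rw [hφ, Rta_lt h1, Rta_ge (by omega)] at hab
          exact absurd hab (cross _ _ h1 (by omega))
      · by_cases h2 : b < N1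
        · rw [hφ, Rta_ge (by omega), Rta_lt h2] at hab
          exact absurd hab.symm (cross _ _ h2 (by omega))
        · rw [hφ, Rta_ge (by omega), Rta_ge (by omega)] at hab
          have := R.lpY.inj (a - N1) (by omega) (b - N1) (by omega) hab
          omega
    · intro a ha b hb hab
      rw [hcd a (by omega) b (by omega), Rta_hE, hN1, hN2, if_neg hab, if_neg (by omega),
        if_neg (by omega)]
      by_cases h1 : a < N1
      · rw [if_pos h1]
        by_cases h2 : b < N1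
        · rw [if_pos h2, hφ, Rta_lt h1, Rta_lt h2]
          exact R.lpX.cod a (hN1.symm ▸ h1) b (hN1.symm ▸ h2) hab
        · rw [if_neg h2, hφ, Rta_lt h1, Rta_ge (by omega)]
          exact Rta_hC H R (by omega) (by omega)
      · rw [if_neg h1]
        by_cases h2 : b < N1
        · rw [if_pos h2, hφ, Rta_ge (by omega), Rta_lt h2, lab_comm H.toDiag]
          exact Rta_hC H R (by omega) (by omega)
        · rw [if_neg h2, hφ, Rta_ge (by omega), Rta_ge (by omega)]
          exact R.lpY.cod (a - N1) (by omega) (b - N1) (by omega) (by omega)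
    · intro a ha b hb
      rw [hcd a ha b hb, hcd b hb a ha, Rta_hE, Rta_hE, hN1, hN2]
      by_cases e : a = b
      · rw [e]
      rw [if_neg e, if_neg (Ne.symm e)]
      by_cases e1 : N1 + N2 ≤ a
      · rw [if_pos e1, if_pos e1]
        by_cases e2 : N1 + N2 ≤ b
        · rw [if_pos e2]
        · rw [if_neg e2]
      rw [if_neg e1, if_neg e1]
      by_cases e2 : N1 + N2 ≤ b
      · rw [if_pos e2, if_pos e2]
      rw [if_neg e2, if_neg e2]
      by_cases e3 : a < N1
      · by_cases e4 : b < N1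
        · simp only [if_pos e3, if_pos e4]
          exact (hlP1 a (by omega) b (by omega)).1
        · simp only [if_pos e3, if_neg e4]
      · by_cases e4 : b < N1
        · simp only [if_neg e3, if_pos e4]
        · simp only [if_neg e3, if_neg e4]
          exact (hlP2 (a - N1) (by omega) (b - N1) (by omega)).1
    · intro a ha b hb hab
      rw [hcd a ha b hb, Rta_hE, hN1, hN2]
      rcases hab with e | e | e
      · rw [if_pos e]
      · split_ifs <;> rfl
      · split_ifs <;> rfl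
    · intro a ha
      rw [bt_lor, Bool.or_eq_true, bt_shl] at ha
      rcases ha with ha | ⟨ha, ha'⟩
      · obtain ⟨h1, h2⟩ := half_sat H R ha
        rw [hN1] at h1
        refine ⟨by omega, fun z hz hadj => ?_⟩
        rw [hφ, Rta_lt h1] at hadj
        have hzX : z ∈ X := by
          by_contra hcon
          exact h2 z hz hcon hadj
        obtain ⟨b, hb, rfl⟩ := (R.lpX.mem z).1 hzX
        rw [hN1] at hb
        exact ⟨b, by omega, Rta_lt hb⟩
      · obtain ⟨h1, h2⟩ := half_sat H Rs ha'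
        rw [hN2] at h1
        refine ⟨by omega, fun z hz hadj => ?_⟩
        rw [hφ, Rta_ge ha] at hadj
        have hzY : z ∈ Y := by
          by_contra hcon
          exact h2 z hz hcon hadj
        obtain ⟨b, hb, rfl⟩ := (R.lpY.mem z).1 hzY
        rw [hN2] at hb
        refine ⟨N1 + b, by omega, ?_⟩
        rw [hφ, Rta_ge (by omega), Nat.add_sub_cancel_left]
    · intro x y hxy
      rw [vt_lor, vt_lor, vt_lor, Bool.or_eq_true, Bool.or_eq_true, Bool.or_eq_true,
        vt_one (by omega), vt_one (by omega), vt_one (by omega), vt_one (by omega)] at hxy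
      have hx : x = hP h ∨ x = hQ h := by
        rcases hxy with (hxy | hxy) | (hxy | hxy)
        exacts [Or.inl hxy.1, Or.inl hxy.1, Or.inr hxy.1, Or.inr hxy.1]
      have hy : y = N1 + hP k ∨ y = N1 + hQ k := by
        rcases hxy with (hxy | hxy) | (hxy | hxy)
        exacts [Or.inl hxy.2, Or.inr hxy.2, Or.inl hxy.2, Or.inr hxy.2]
      have hx2 : x < N1 := by rcases hx with rfl | rfl; exacts [hp1, hq1]
      refine ⟨?_, (btA x).2 hx2, fun _ => (btB y).2 (by omega), fun hf => absurd hf (by simp)⟩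
      rw [hφ, Rta_lt hx2, Rta_ge (by omega)]
      exact R.ver x (y - N1) hx (by omega)
    · intro a ha
      have := (btA a).1 ha
      omega
    · intro a ha
      exact ((btB a).1 ha).2
    · intro a ha hb
      have h1 := (btA a).1 ha
      have h2 := (btB a).1 hb
      omega
    · rw [imA]
      exact R.lanX.1
    · intro _
      rw [imB]
      exact R.lanY.1
  have hS1 : Sem true n g W (full N1) (Nat.xor (full (N1 + N2)) (full N1))
      (Nat.lor (bit (hP h)) (bit (hQ h))) (Nat.lor (bit (N1 + hP k)) (bit (N1 + hQ k)))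
      (N1 + N2) c
      (Nat.lor (hS h) (Nat.shiftLeft (hS k) (Nat.mul (nat_lit 4) N1)))
      (Nat.lor
        (Nat.lor (Nat.shiftLeft (nat_lit 1) (pos (hP h) (N1 + hP k)))
          (Nat.shiftLeft (nat_lit 1) (pos (hP h) (N1 + hQ k))))
        (Nat.lor (Nat.shiftLeft (nat_lit 1) (pos (hQ h) (N1 + hP k)))
          (Nat.shiftLeft (nat_lit 1) (pos (hQ h) (N1 + hQ k))))) φ := by
    refine ⟨hS0, ?_, ?_, ?_, ?_, ?_, ?_, ?_, fun hf => absurd hf (by simp), ?_, ?_, ?_, ?_⟩
    · rw [imA]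
      exact R.lanX.2
    · intro _
      rw [imB]
      exact R.lanY.2
    · intro a ha
      rcases (btrm a).1 ha with rfl | rfl
      · omega
      · omega
    · intro a ha
      have := (btcm a).1 ha
      omega
    · intro i hi
      have h1 : ((bit (hP h)) ||| (bit (hQ h))).testBit i = true := hi
      rw [Nat.testBit_or, Bool.or_eq_true] at h1
      rcases h1 with h1 | h1
      exacts [bit_dvd h1, bit_dvd h1]
    · intro i hi
      have h1 : ((bit (N1 + hP k)) ||| (bit (N1 + hQ k))).testBit i = true := hi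
      rw [Nat.testBit_or, Bool.or_eq_true] at h1
      rcases h1 with h1 | h1
      exacts [bit_dvd h1, bit_dvd h1]
    · have h1 : ({hP h, hQ h} : Finset ℕ) ⊆ (Finset.range 16).filter
          (fun a => bt (Nat.lor (bit (hP h)) (bit (hQ h))) a = true) := by
        intro a ha
        rw [Finset.mem_insert, Finset.mem_singleton] at ha
        refine Finset.mem_filter.2 ⟨Finset.mem_range.2 ?_, (btrm a).2 ha⟩
        rcases ha with rfl | rfl <;> omega
      calc 2 = ({hP h, hQ h} : Finset ℕ).card := (Finset.card_pair hpq1).symm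
        _ ≤ _ := Finset.card_le_card h1
    · intro _
      have h1 : ({N1 + hP k, N1 + hQ k} : Finset ℕ) ⊆ (Finset.range 16).filter
          (fun a => bt (Nat.lor (bit (N1 + hP k)) (bit (N1 + hQ k))) a = true) := by
        intro a ha
        rw [Finset.mem_insert, Finset.mem_singleton] at ha
        refine Finset.mem_filter.2 ⟨Finset.mem_range.2 (by omega), (btcm a).2 ha⟩
      calc 2 = ({N1 + hP k, N1 + hQ k} : Finset ℕ).card :=
            (Finset.card_pair (by omega)).symm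
        _ ≤ _ := Finset.card_le_card h1
    · intro Z hZ hn
      rcases hit Z hZ hn with h1 | h1
      · exact Or.inl fun a ha => h1 a ((btrm a).1 ha)
      · exact Or.inr ⟨rfl, fun a ha => h1 a ((btcm a).1 ha)⟩
    · intro _ a b ha hb
      have ha1 := (btrm a).1 ha
      have hb1 := (btcm b).1 hb
      have ha2 : a < N1 := by rcases ha1 with rfl | rfl; exacts [hp1, hq1]
      have hst := R.star a (b - N1) ha1 (by omega)
      rw [hφ, Rta_lt ha2, Rta_ge (by omega)]
      refine ⟨hst.1, fun z hz h1 h2 => ?_⟩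
      rcases hst.2 z hz h1 h2 with rfl | rfl | rfl | rfl
      · exact ⟨hP h, Or.inl ((btrm _).2 (Or.inl rfl)), Rta_lt hp1⟩
      · exact ⟨hQ h, Or.inl ((btrm _).2 (Or.inr rfl)), Rta_lt hq1⟩
      · refine ⟨N1 + hP k, Or.inr ((btcm _).2 (Or.inl rfl)), ?_⟩
        rw [Rta_ge (by omega), Nat.add_sub_cancel_left]
      · refine ⟨N1 + hQ k, Or.inr ((btcm _).2 (Or.inr rfl)), ?_⟩
        rw [Rta_ge (by omega), Nat.add_sub_cancel_left]
    · intro z hz hza w hw hwz
      by_contra hcon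
      have hnp : ¬ PD g {z, w} := fun hp => hcon ((pd_lab H.toDiag (Ne.symm hwz)).1 hp)
      have hsub : ({z, w} : Finset ι) ⊆ W := by
        intro y hy
        rcases Finset.mem_insert.1 hy with rfl | hy
        · exact hz
        · rw [Finset.mem_singleton.1 hy]
          exact hw
      have aux : ∀ a b : ℕ, a < N1 + N2 → b < N1 + N2 → a ≠ b → φ a ∈ ({z, w} : Finset ι) →
          φ b ∈ ({z, w} : Finset ι) → False := by
        intro a b ha hb hab h1 h2
        rw [Finset.mem_insert, Finset.mem_singleton] at h1 h2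
        have h3 : φ a = w := h1.resolve_left (hza a ha)
        have h4 : φ b = w := h2.resolve_left (hza b hb)
        exact hab (hS0.inj a ha b hb (h3.trans h4.symm))
      rcases hit _ hsub hnp with h1 | h1
      · exact aux (hP h) (hQ h) (by omega) (by omega) hpq1 (h1 _ (Or.inl rfl)) (h1 _ (Or.inr rfl))
      · exact aux (N1 + hP k) (N1 + hQ k) (by omega) (by omega) (by omega) (h1 _ (Or.inl rfl))
          (h1 _ (Or.inr rfl))
  exact (chk_sound H l5 (fun h => by cases h) t _ _ _ _ _ hS1 hchk).1 rfl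

end

end MP86a502
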