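import Pool.Agent.Lib.MP_86a502_gt.U.Lcl
import Pool.Agent.Lib.MP_86a502_gt.U.DatS

set_option autoImplicit false
set_option linter.unusedSectionVars false

/-! # JOB Rtg. Halves (80-120 lines)

`lan_cls` gives `LP g t φ X`, `x = φ a`, `x' = φ b`; if `a < b` use `aD_ok t a b`, if `b < a` exchange.
`aC t a b aD = true` gives (by induction on the list: state the induction for a general list `l`)
`h < 52`, `hT h = t`, and an automorphism `ps` of the diagram (`auC t ps = true`: `a ↦ nb ps a` is onto the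
numbers `< lN t`, so a permutation, and it preserves `lP`) with `nb ps (hP h) = a`, `nb ps (hQ h) = b` (or
exchanged): take `φ₁ i = φ (nb ps i)`. (`half_rng`, `lN_rng`.) -/

namespace MP86a502

section
variable {ι : Type} [Fintype ι] [DecidableEq ι] {n : ℕ} {g : ι → ι → ℝ}

private theorem Rtg_aC {t a b : ℕ} (l : AL) (hl : aC t a b l = true) :
    ∃ h < 52, hT h = t ∧ ∃ ps, auC t ps = true ∧
      ((nb ps (hP h) = a ∧ nb ps (hQ h) = b) ∨ (nb ps (hP h) = b ∧ nb ps (hQ h) = a)) := by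
  induction l with
  | nil => exact absurd hl (by simp [aC])
  | cons t' a' b' h ps l ih =>
    have hl' : bcB (bcB (Nat.beq t t') (bcB (Nat.beq a a') (Nat.beq b b') false) false)
      (bcB (Nat.ble h (nat_lit 51)) (bcB (Nat.beq (hT h) t) (bcB (auC t ps)
        (bcB (bcB (Nat.beq (nb ps (hP h)) a) (Nat.beq (nb ps (hQ h)) b) false) true
          (bcB (Nat.beq (nb ps (hP h)) b) (Nat.beq (nb ps (hQ h)) a) false))
          false) false) false) (aC t a b l) = true := hl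
    rw [bcB_iff] at hl'
    rcases hl' with ⟨-, h2⟩ | ⟨-, h2⟩
    · rw [bcB_and, bcB_and, bcB_and, bcB_or, bcB_and, bcB_and] at h2
      obtain ⟨h3, h4, h5, h6⟩ := h2
      have h3' : h ≤ 51 := Nat.le_of_ble_eq_true h3
      refine ⟨h, by omega, Nat.eq_of_beq_eq_true h4, ps, h5, ?_⟩
      rcases h6 with ⟨h7, h8⟩ | ⟨h7, h8⟩
      · exact Or.inl ⟨Nat.eq_of_beq_eq_true h7, Nat.eq_of_beq_eq_true h8⟩
      · exact Or.inr ⟨Nat.eq_of_beq_eq_true h7, Nat.eq_of_beq_eq_true h8⟩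
    · exact ih h2

private theorem Rtg_au {t ps : ℕ} (ht : t < 12) (hau : auC t ps = true) {φ : ℕ → ι} {X : Finset ι}
    (hL : LP g t φ X) : LP g t (fun i => φ (nb ps i)) X := by
  obtain ⟨hN2, hN5⟩ := lN_rng t ht
  unfold auC at hau
  rw [bcB_and] at hau
  obtain ⟨h1, h2⟩ := hau
  have h1' : or16 (fun a => bcN (Nat.ble (Nat.add a (nat_lit 1)) (lN t)) (bit (nb ps a))
      (nat_lit 0)) = full (lN t) := Nat.eq_of_beq_eq_true h1
  have E1 : ∀ i, i < lN t ↔ ∃ a < lN t, i = nb ps a := by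
    intro i
    rw [← bt_full (m := lN t) (by omega), ← h1', bt_or16]
    constructor
    · rintro ⟨a, ha, hb⟩
      rw [bcN_eq] at hb
      split_ifs at hb with hK
      · have hK' : a + 1 ≤ lN t := Nat.le_of_ble_eq_true hK
        exact ⟨a, by omega, bt_bit.1 hb⟩
      · rw [show (nat_lit 0) = 0 from rfl, bt_zero] at hb
        cases hb
    · rintro ⟨a, ha, hi⟩
      refine ⟨a, by omega, ?_⟩
      have hK : Nat.ble (Nat.add a (nat_lit 1)) (lN t) = true :=
        Nat.ble_eq_true_of_le (show a + 1 ≤ lN t by omega)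
      rw [bcN_eq, if_pos hK]
      exact bt_bit.2 hi
  have h2' : ∀ a < lN t, ∀ b < lN t, lP t (nb ps a) (nb ps b) = lP t a b := by
    intro a ha b hb
    have h3 := bcB_imp.1 (all16_iff.1 h2 a (by omega))
      (Nat.ble_eq_true_of_le (show a + 1 ≤ lN t by omega))
    have h4 := bcB_imp.1 (all16_iff.1 h3 b (by omega))
      (Nat.ble_eq_true_of_le (show b + 1 ≤ lN t by omega))
    exact Nat.eq_of_beq_eq_true h4
  have himg : (Finset.range (lN t)).image (nb ps) = Finset.range (lN t) := by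
    ext i
    simp only [Finset.mem_image, Finset.mem_range]
    rw [E1 i]
    constructor
    · rintro ⟨a, ha, hi⟩
      exact ⟨a, ha, hi.symm⟩
    · rintro ⟨a, ha, hi⟩
      exact ⟨a, ha, hi.symm⟩
  have hinj : Set.InjOn (nb ps) (Finset.range (lN t)) := by
    refine Finset.injOn_of_card_image_eq ?_
    rw [himg]
  have hinj' : ∀ a < lN t, ∀ b < lN t, nb ps a = nb ps b → a = b := by
    intro a ha b hb hab
    refine hinj ?_ ?_ hab
    · simp [ha]
    · simp [hb]
  have hlt : ∀ a < lN t, nb ps a < lN t := fun a ha => (E1 _).2 ⟨a, ha, rfl⟩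
  refine ⟨?_, ?_, ?_⟩
  · intro a ha b hb hab
    exact hinj' a ha b hb (hL.inj _ (hlt a ha) _ (hlt b hb) hab)
  · intro z
    rw [hL.mem z]
    constructor
    · rintro ⟨i, hi, hz⟩
      obtain ⟨a, ha, rfl⟩ := (E1 i).1 hi
      exact ⟨a, ha, hz⟩
    · rintro ⟨a, ha, hz⟩
      exact ⟨nb ps a, hlt a ha, hz⟩
  · intro a ha b hb hab
    have h3 := hL.cod _ (hlt a ha) _ (hlt b hb) (fun h4 => hab (hinj' a ha b hb h4))
    rw [h2' a ha b hb] at h3
    exact h3

theorem half_ex (H : CoxH n g) {X : Finset ι} (hX : Lan g X) {x x' : ι} (hx : x ∈ X) (hx' : x' ∈ X)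
    (hne : x ≠ x') : ∃ h < 52, ∃ φ, LP g (hT h) φ X ∧
      ((φ (hP h) = x ∧ φ (hQ h) = x') ∨ (φ (hP h) = x' ∧ φ (hQ h) = x)) := by
  obtain ⟨t, ht, φ, hL⟩ := lan_cls H hX
  obtain ⟨hN2, hN5⟩ := lN_rng t ht
  have key : ∀ a b, a < b → b < lN t → ∃ h < 52, ∃ ψ : ℕ → ι, LP g (hT h) ψ X ∧
      ((ψ (hP h) = φ a ∧ ψ (hQ h) = φ b) ∨ (ψ (hP h) = φ b ∧ ψ (hQ h) = φ a)) := by
    intro a b hab hb
    obtain ⟨h, hh, hhT, ps, hau, hcase⟩ :=
      Rtg_aC aD (aD_ok t ht a (by omega) b (by omega) hab hb)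
    refine ⟨h, hh, fun i => φ (nb ps i), ?_, ?_⟩
    · rw [hhT]
      exact Rtg_au ht hau hL
    · rcases hcase with ⟨h1, h2⟩ | ⟨h1, h2⟩
      · left
        simp only [h1, h2, and_self]
      · right
        simp only [h1, h2, and_self]
  obtain ⟨a, ha, rfl⟩ := (hL.mem x).1 hx
  obtain ⟨b, hb, rfl⟩ := (hL.mem x').1 hx'
  have hab : a ≠ b := by
    rintro rfl
    exact hne rfl
  rcases Nat.lt_or_gt_of_ne hab with h1 | h1
  · exact key a b h1 hb
  · obtain ⟨h, hh, ψ, h2, h3⟩ := key b a h1 ha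
    exact ⟨h, hh, ψ, h2, h3.symm⟩

end

end MP86a502
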