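import Pool.Agent.Lib.MP_86a502_gt.U.Rtf
import Pool.Agent.Lib.MP_86a502_gt.U.Rtg
import Pool.Agent.Lib.MP_86a502_gt.U.Rta

set_option autoImplicit false
set_option linter.unusedSectionVars false

/-! # JOB Rtb. All quadrangles (60-100 lines)

If all `T ∈ QF n g W` have `fsum ≥ 4` then `defQ 0`. Otherwise `star_sides`, `half_ex` for both
sides give `RootH`; `h ≤ k` or `k ≤ h` (`RootH.symm`), the data `hdat`, and `root_sound` with
`lan_card`. -/

namespace MP86a502

section
variable {ι : Type} [Fintype ι] [DecidableEq ι] {n : ℕ} {g : ι → ι → ℝ}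

theorem QF_ok (H : CoxH n g)
    (hdat : ∀ h k, h ≤ k → k < 52 → ∃ c t, hR h k c t = true) (W : Finset ι) :
    defQ 0 n g W ∨ ∃ f, S31 n g W f := by
  by_cases hall : ∀ T ∈ QF n g W, 4 ≤ fsum n g T
  · left
    unfold defQ
    have h1 := Finset.card_nsmul_le_sum (QF n g W) (fun T => fsum n g T) 4 hall
    rw [smul_eq_mul] at h1
    omega
  · push Not at hall
    obtain ⟨T, hT, hf⟩ := hall
    obtain ⟨hW, X, hXW, Y, hYW, hdis, hX, hY, x, hx, x', hx', y, hy, y', hy', hne, hne', hst⟩ :=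
      star_sides H hT hf
    obtain ⟨h, hh, φ₁, hφ₁, hm₁⟩ := half_ex H hX hx hx' hne
    obtain ⟨k, hk, φ₂, hφ₂, hm₂⟩ := half_ex H hY hy hy' hne'
    have hA : ∀ a, (a = hP h ∨ a = hQ h) → (φ₁ a = x ∨ φ₁ a = x') := by
      intro a ha
      rcases hm₁ with ⟨e1, e2⟩ | ⟨e1, e2⟩ <;> rcases ha with rfl | rfl
      · exact Or.inl e1
      · exact Or.inr e2
      · exact Or.inr e1
      · exact Or.inl e2
    have hB : ∀ b, (b = hP k ∨ b = hQ k) → (φ₂ b = y ∨ φ₂ b = y') := by
      intro b hb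
      rcases hm₂ with ⟨e1, e2⟩ | ⟨e1, e2⟩ <;> rcases hb with rfl | rfl
      · exact Or.inl e1
      · exact Or.inr e2
      · exact Or.inr e1
      · exact Or.inl e2
    have hX2 : ∀ z, (z = x ∨ z = x') → (z = φ₁ (hP h) ∨ z = φ₁ (hQ h)) := by
      intro z hz
      rcases hm₁ with ⟨e1, e2⟩ | ⟨e1, e2⟩ <;> rcases hz with rfl | rfl
      · exact Or.inl e1.symm
      · exact Or.inr e2.symm
      · exact Or.inr e2.symm
      · exact Or.inl e1.symm
    have hY2 : ∀ z, (z = y ∨ z = y') → (z = φ₂ (hP k) ∨ z = φ₂ (hQ k)) := by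
      intro z hz
      rcases hm₂ with ⟨e1, e2⟩ | ⟨e1, e2⟩ <;> rcases hz with rfl | rfl
      · exact Or.inl e1.symm
      · exact Or.inr e2.symm
      · exact Or.inr e2.symm
      · exact Or.inl e1.symm
    have R : RootH n g W X Y h k φ₁ φ₂ := by
      refine ⟨hW, hh, hk, hXW, hYW, hdis, hX, hY, hφ₁, hφ₂, ?_, ?_⟩
      · intro a b ha hb
        exact (hst _ _ (hA a ha) (hB b hb)).1
      · intro a b ha hb
        refine ⟨(hst _ _ (hA a ha) (hB b hb)).2.1, ?_⟩
        intro z hz h1 h2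
        rcases (hst _ _ (hA a ha) (hB b hb)).2.2 z hz h1 h2 with h3 | h3 | h3 | h3
        · rcases hX2 z (Or.inl h3) with h4 | h4
          · exact Or.inl h4
          · exact Or.inr (Or.inl h4)
        · rcases hX2 z (Or.inr h3) with h4 | h4
          · exact Or.inl h4
          · exact Or.inr (Or.inl h4)
        · rcases hY2 z (Or.inl h3) with h4 | h4
          · exact Or.inr (Or.inr (Or.inl h4))
          · exact Or.inr (Or.inr (Or.inr h4))
        · rcases hY2 z (Or.inr h3) with h4 | h4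
          · exact Or.inr (Or.inr (Or.inl h4))
          · exact Or.inr (Or.inr (Or.inr h4))
    have l5 : ∀ X, Lan g X → X.card ≤ 5 := fun X hX => lan_card H hX
    rcases Nat.le_total h k with hle | hle
    · obtain ⟨c, t, hR⟩ := hdat h k hle hk
      exact root_sound H l5 R hR
    · obtain ⟨c, t, hR⟩ := hdat k h hle hh
      exact root_sound H l5 (RootH.symm H.toDiag R) hR

end

end MP86a502
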