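import Pool.Agent.Lib.MP_86a502_gt.U.Fmd
import Pool.Agent.Lib.MP_86a502_gt.U.Pdc
import Pool.Agent.Lib.MP_86a502_gt.U.ChL

set_option autoImplicit false
set_option linter.unusedSectionVars false

/-! # JOB Fml. `D_k`, `E_k` are positive definite (120-180 lines)

For a vector `c` write `x a = c (f a)` (`a < k`).
* `D_k` (`0` and `1` attached to `2`): `Q = ½ x_{k-1}² + ½ ∑_{2 ≤ a, a+1 < k} (x_a - x_{a+1})² +
  (x_0 - x_2/2)² + (x_1 - x_2/2)²` for `k ≥ 3`. Suggestion: let `Q_m` be the quadratic form of the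
  first `m` nodes; then `Q_{m+1} = Q_m + x_m² - x_{m-1} x_m` for `m ≥ 3` (the node `m` is only adjacent to
  `m - 1` among the first `m` nodes), and by induction `Q_m ≥ ½ x_{m-1}²` for `m ≥ 3` and
  (`Q_m - ½ x_{m-1}² = 0` and `x_{m-1} = 0` imply that all `x_a = 0`). For `k ≤ 2` the nodes are orthogonal.
* `E_k`: `E_pd` in `ChL.lean` and `pdC_sound` (the codes are the labels: `ok c l` for `l = c ≤ 8`;
  `X = img f (bt (full k))`). -/

namespace MP86a502

section
variable {ι : Type} {g : ι → ι → ℝ}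

private theorem Fml_core {k m0 : ℕ} (hm0 : 1 ≤ m0) (G : ℕ → ℕ → ℝ) (hs : ∀ a b, G a b = G b a)
    (hd : ∀ a, G a a = 1)
    (hG : ∀ m, m0 ≤ m → m < k → ∀ a < m, G a m = if a + 1 = m then -(1 / 2) else 0) (x : ℕ → ℝ)
    (b1 : x (m0 - 1) ^ 2 / 2 ≤ ∑ a ∈ Finset.range m0, ∑ b ∈ Finset.range m0, x a * x b * G a b)
    (b2 : x (m0 - 1) = 0 → ∑ a ∈ Finset.range m0, ∑ b ∈ Finset.range m0, x a * x b * G a b ≤ 0 →
      ∀ a < m0, x a = 0) :
    ∀ m, m0 ≤ m → m ≤ k →
      x (m - 1) ^ 2 / 2 ≤ ∑ a ∈ Finset.range m, ∑ b ∈ Finset.range m, x a * x b * G a b ∧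
      (x (m - 1) = 0 → ∑ a ∈ Finset.range m, ∑ b ∈ Finset.range m, x a * x b * G a b ≤ 0 →
        ∀ a < m, x a = 0) := by
  intro m hm
  induction m, hm using Nat.le_induction with
  | base => exact fun _ => ⟨b1, b2⟩
  | succ m hm IH =>
    intro hmk
    obtain ⟨i1, i2⟩ := IH (by omega)
    have hrow : ∑ a ∈ Finset.range m, x a * x m * G a m = -(1 / 2) * (x (m - 1) * x m) := by
      rw [Finset.sum_eq_single_of_mem (m - 1) (Finset.mem_range.2 (by omega))]
      · rw [hG m hm (by omega) (m - 1) (by omega), if_pos (by omega)]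
        ring
      · intro a ha hne
        rw [hG m hm (by omega) a (Finset.mem_range.1 ha), if_neg (by omega)]
        ring
    have hcol : ∑ b ∈ Finset.range m, x m * x b * G m b = -(1 / 2) * (x (m - 1) * x m) := by
      rw [← hrow]
      refine Finset.sum_congr rfl fun a _ => ?_
      rw [hs m a]
      ring
    have hQ : ∑ a ∈ Finset.range (m + 1), ∑ b ∈ Finset.range (m + 1), x a * x b * G a b =
        (∑ a ∈ Finset.range m, ∑ b ∈ Finset.range m, x a * x b * G a b) + x m ^ 2 - x (m - 1) * x m := by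
      rw [Finset.sum_range_succ]
      simp only [Finset.sum_range_succ, Finset.sum_add_distrib]
      rw [hrow, hcol, hd m]
      ring
    rw [hQ]
    have e : m + 1 - 1 = m := by omega
    rw [e]
    refine ⟨by nlinarith [sq_nonneg (x m - x (m - 1))], fun hx hq => ?_⟩
    rw [hx] at hq
    have h1 : ∑ a ∈ Finset.range m, ∑ b ∈ Finset.range m, x a * x b * G a b ≤ 0 := by linarith
    have h2 : x (m - 1) ^ 2 ≤ 0 := by linarith
    have h3 : x (m - 1) = 0 := by nlinarith [sq_nonneg (x (m - 1))]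
    intro a ha
    rcases Nat.lt_succ_iff_lt_or_eq.1 ha with h4 | h4
    · exact i2 h3 h1 a h4
    · rw [h4]
      exact hx

private theorem Fml_pd (h : Diag g) {k j l : ℕ} {f : ℕ → ι} {X : Finset ι} (hF : Fm g k j l f X) (m0 : ℕ)
    (hm0 : 1 ≤ m0) (hk : m0 ≤ k)
    (hG : ∀ m, m0 ≤ m → m < k → ∀ a < m, g (f a) (f m) = if a + 1 = m then -(1 / 2) else 0)
    (b1 : ∀ x : ℕ → ℝ, x (m0 - 1) ^ 2 / 2 ≤
      ∑ a ∈ Finset.range m0, ∑ b ∈ Finset.range m0, x a * x b * g (f a) (f b))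
    (b2 : ∀ x : ℕ → ℝ, x (m0 - 1) = 0 →
      ∑ a ∈ Finset.range m0, ∑ b ∈ Finset.range m0, x a * x b * g (f a) (f b) ≤ 0 →
      ∀ a < m0, x a = 0) : PD g X := by
  classical
  have hX : X = (Finset.range k).image f := by
    ext z
    rw [hF.mem z]
    simp only [Finset.mem_image, Finset.mem_range]
  have hinj : Set.InjOn f (Finset.range k : Set ℕ) := by
    intro a ha b hb hab
    exact hF.inj a (Finset.mem_range.1 ha) b (Finset.mem_range.1 hb) hab
  intro c hc
  have hsum : ∑ i ∈ X, ∑ j ∈ X, c i * c j * g i j =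
      ∑ a ∈ Finset.range k, ∑ b ∈ Finset.range k, c (f a) * c (f b) * g (f a) (f b) := by
    rw [hX, Finset.sum_image hinj]
    refine Finset.sum_congr rfl fun a _ => ?_
    rw [Finset.sum_image hinj]
  obtain ⟨c1, c2⟩ := Fml_core hm0 (fun a b => g (f a) (f b)) (fun a b => h.symm _ _) (fun a => h.diag _) hG
    (fun a => c (f a)) (b1 fun a => c (f a)) (b2 fun a => c (f a)) k hk le_rfl
  rw [hsum]
  by_contra hcon
  push Not at hcon
  obtain ⟨i, hi, hne⟩ := hc
  obtain ⟨a, ha, rfl⟩ := (hF.mem i).1 hi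
  have h2 : c (f (k - 1)) ^ 2 / 2 ≤ 0 := le_trans c1 hcon
  have h3 : c (f (k - 1)) = 0 := by nlinarith [sq_nonneg (c (f (k - 1)))]
  exact hne (c2 h3 hcon a ha)

private theorem Fml_empty {k j l : ℕ} {f : ℕ → ι} {X : Finset ι} (hF : Fm g k j l f X) (hk : k = 0) : PD g X := by
  rintro c ⟨i, hi, _⟩
  obtain ⟨a, ha, _⟩ := (hF.mem i).1 hi
  omega

private theorem Fml_ne {k j l : ℕ} {f : ℕ → ι} {X : Finset ι} (hF : Fm g k j l f X) {a b : ℕ} (hb : b < k)
    (ha : a < b) : f a ≠ f b := by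
  intro he
  have := hF.inj a (by omega) b hb he
  omega

private theorem Fml_two (h : Diag g) {i j : ι} (hij : i ≠ j) (hl : lab g i j = 2) : g i j = 0 :=
  (lab_two h hij).1 hl

private theorem Fml_three (h : Diag g) {i j : ι} (hij : i ≠ j) (hl : lab g i j = 3) : g i j = -(1 / 2) := by
  rcases lab_spec h hij with h1 | h1 | h1 | h1 | h1 | h1 | h1
  · omega
  · exact h1.2
  all_goals omega

theorem pd_D (h : Diag g) {k : ℕ} {f : ℕ → ι} {X : Finset ι} (hF : Fm g k 2 3 f X) : PD g X := by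
  rcases Nat.lt_or_ge k 3 with h0 | h0
  · rcases Nat.eq_zero_or_pos k with h1 | h1
    · exact Fml_empty hF h1
    rcases Nat.lt_or_ge k 2 with h2 | h2
    · refine Fml_pd h hF 1 le_rfl h1 ?_ ?_ ?_
      · intro m hm hmk
        omega
      · intro x
        simp only [Finset.sum_range_one, h.diag]
        nlinarith [sq_nonneg (x 0)]
      · intro x hx _ a ha
        obtain rfl : a = 0 := by omega
        exact hx
    have hc01 := hF.cod 1 (by omega) 0 (by omega)
    rw [if_pos rfl, if_neg (by omega)] at hc01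
    have hg01 : g (f 0) (f 1) = 0 := Fml_two h (Fml_ne hF (by omega) (by omega)) hc01
    have hQ2 : ∀ x : ℕ → ℝ, ∑ a ∈ Finset.range 2, ∑ b ∈ Finset.range 2, x a * x b * g (f a) (f b) =
        x 0 ^ 2 + x 1 ^ 2 := by
      intro x
      simp only [Finset.sum_range_succ, Finset.sum_range_zero, h.diag, h.symm (f 1) (f 0), hg01]
      ring
    refine Fml_pd h hF 2 (by norm_num) h2 ?_ ?_ ?_
    · intro m hm hmk
      omega
    · intro x
      rw [hQ2]
      show x 1 ^ 2 / 2 ≤ _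
      nlinarith [sq_nonneg (x 0), sq_nonneg (x 1)]
    · intro x hx hq a ha
      change x 1 = 0 at hx
      rw [hQ2, hx] at hq
      have h4 : x 0 = 0 := by nlinarith [sq_nonneg (x 0)]
      interval_cases a
      · exact h4
      · exact hx
  have hc01 := hF.cod 1 (by omega) 0 (by omega)
  rw [if_pos rfl, if_neg (by omega)] at hc01
  have hg01 : g (f 0) (f 1) = 0 := Fml_two h (Fml_ne hF (by omega) (by omega)) hc01
  have hc02 := hF.cod 2 (by omega) 0 (by omega)
  rw [if_pos rfl, if_pos rfl] at hc02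
  have hg02 : g (f 0) (f 2) = -(1 / 2) := Fml_three h (Fml_ne hF (by omega) (by omega)) hc02
  have hc12 := hF.cod 2 (by omega) 1 (by omega)
  rw [if_neg (by omega), if_pos (by omega)] at hc12
  have hg12 : g (f 1) (f 2) = -(1 / 2) := Fml_three h (Fml_ne hF (by omega) (by omega)) hc12
  have hQ3 : ∀ x : ℕ → ℝ, ∑ a ∈ Finset.range 3, ∑ b ∈ Finset.range 3, x a * x b * g (f a) (f b) =
      x 0 ^ 2 + x 1 ^ 2 + x 2 ^ 2 - x 0 * x 2 - x 1 * x 2 := by
    intro x
    simp only [Finset.sum_range_succ, Finset.sum_range_zero, h.diag, h.symm (f 1) (f 0), h.symm (f 2) (f 0),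
      h.symm (f 2) (f 1), hg01, hg02, hg12]
    ring
  refine Fml_pd h hF 3 (by norm_num) h0 ?_ ?_ ?_
  · intro m hm hmk a ha
    have hc := hF.cod m hmk a ha
    have hne := Fml_ne hF hmk ha
    by_cases h1 : a + 1 = m
    · rw [if_pos h1]
      apply Fml_three h hne
      rw [hc]
      split_ifs <;> omega
    · rw [if_neg h1]
      apply Fml_two h hne
      rw [hc]
      split_ifs <;> omega
  · intro x
    rw [hQ3]
    show x 2 ^ 2 / 2 ≤ _
    nlinarith [sq_nonneg (x 0 - x 2 / 2), sq_nonneg (x 1 - x 2 / 2)]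
  · intro x hx hq a ha
    change x 2 = 0 at hx
    rw [hQ3, hx] at hq
    have h4 : x 0 = 0 := by nlinarith [sq_nonneg (x 0), sq_nonneg (x 1)]
    have h5 : x 1 = 0 := by nlinarith [sq_nonneg (x 0), sq_nonneg (x 1)]
    interval_cases a
    · exact h4
    · exact h5
    · exact hx

theorem pd_E (h : Diag g) {k : ℕ} (h6 : 6 ≤ k) (h8 : k ≤ 8) {f : ℕ → ι} {X : Finset ι}
    (hF : Fm g k 3 3 f X) : PD g X := by
  obtain ⟨c, par, D, hc, hs, hd, hp⟩ := E_pd k h6 h8
  have key : ∀ a < k, ∀ b < k, a < b → cd c a b = lab g (f a) (f b) ∧ cd c a b ≤ 8 := by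
    intro a ha b hb hab
    have h1 := hc a (by omega) b (by omega) hab
    have h2 := hF.cod b hb a hab
    rw [if_pos hb] at h1
    rw [h1, h2]
    refine ⟨rfl, ?_⟩
    split_ifs <;> omega
  have hX : X = img f (bt (full k)) := by
    ext z
    rw [hF.mem z, mem_img]
    constructor
    · rintro ⟨a, ha, rfl⟩
      exact ⟨a, by omega, (bt_full (by omega)).2 ha, rfl⟩
    · rintro ⟨a, _, h2, rfl⟩
      exact ⟨a, (bt_full (by omega)).1 h2, rfl⟩
  rw [hX]
  refine pdC_sound h (φ := f) (m := k) (by omega) ?_ hs hd hF.inj (fun a _ h2 => (bt_full (by omega)).1 h2) hp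
  intro a ha b hb hab
  left
  rcases Nat.lt_or_gt_of_ne hab with h1 | h1
  · obtain ⟨k1, k2⟩ := key a ha b hb h1
    exact ⟨k2, k1.symm⟩
  · obtain ⟨k1, k2⟩ := key b hb a ha h1
    rw [hs a (by omega) b (by omega), lab_comm h (f a) (f b)]
    exact ⟨k2, k1.symm⟩

end

end MP86a502
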