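import Pool.Agent.Lib.MP_86a502_gt.U.Fmc
import Pool.Agent.Lib.MP_86a502_gt.U.Fml

set_option autoImplicit false
set_option linter.unusedSectionVars false

/-! # The families are positive definite -/

namespace MP86a502

section
variable {ι : Type} {g : ι → ι → ℝ}

theorem fam_pd (h : Diag g) {k : ℕ} {X : Finset ι} (hF : FamX g k X) : PD g X := by
  obtain ⟨f, hF | hF | hF | ⟨h6, h8, hF⟩⟩ := hF
  · exact pd_A h hF
  · exact pd_B h hF
  · exact pd_D h hF
  · exact pd_E h h6 h8 hF

end

end MP86a502
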