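import Pool.Agent.Lib.MP_86a502_gt.U.Val

set_option autoImplicit false
set_option linter.unusedSectionVars false

/-! # JOB Lcn. Connectedness (80-140 lines)

* `exists_lan`: a subset of `S` that is not positive definite and has the smallest cardinality.
* `con_of_min`: if `A ⊂ X`, nonempty, has no edge to `X \ A`, both are proper subsets, so positive
  definite, and `X` is positive definite by `pd_union`.
* `noncut`: take a connected proper subset `A ⊂ X` of maximal cardinality (a singleton is connected).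
  By `Con g X` there are `a ∈ A`, `b ∈ X \ A` adjacent; `insert b A` is connected; by maximality it is
  `X`, so `A = X.erase b`. -/

namespace MP86a502

variable {ι : Type} [DecidableEq ι] {g : ι → ι → ℝ}

theorem exists_lan {S : Finset ι} (hS : ¬ PD g S) : ∃ X ⊆ S, Lan g X := by
  classical
  let F : Finset (Finset ι) := S.powerset.filter (fun X => ¬ PD g X)
  have hF : F.Nonempty := ⟨S, Finset.mem_filter.2 ⟨Finset.mem_powerset_self S, hS⟩⟩
  obtain ⟨X, hX, hmin⟩ := Finset.exists_min_image F Finset.card hF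
  have hX' := Finset.mem_filter.1 hX
  refine ⟨X, Finset.mem_powerset.1 hX'.1, hX'.2, fun Y hY => ?_⟩
  by_contra hnp
  have hYF : Y ∈ F := Finset.mem_filter.2
    ⟨Finset.mem_powerset.2 (hY.subset.trans (Finset.mem_powerset.1 hX'.1)), hnp⟩
  exact absurd (hmin Y hYF) (not_le.2 (Finset.card_lt_card hY))

theorem con_of_min (h : Diag g) {X : Finset ι} (hX : ¬ PD g X) (hp : ∀ Y ⊂ X, PD g Y) :
    Con g X := by
  intro A hA hne hAX
  by_contra hcon
  have hno : ∀ a ∈ A, ∀ b ∈ X, b ∉ A → ¬ adj g a b :=
    fun a ha b hb hbA hab => hcon ⟨a, ha, b, hb, hbA, hab⟩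
  have hA' : A ⊂ X := lt_of_le_of_ne hA hAX
  have hB' : X \ A ⊂ X := by
    refine lt_of_le_of_ne Finset.sdiff_subset ?_
    intro he
    obtain ⟨a, ha⟩ := hne
    have h1 : a ∈ X \ A := by rw [he]; exact hA ha
    exact (Finset.mem_sdiff.1 h1).2 ha
  have hu := pd_union (A := A) (B := X \ A) h.symm Finset.disjoint_sdiff (hp A hA') (hp _ hB') (by
    intro a ha b hb
    have hb' := Finset.mem_sdiff.1 hb
    by_contra hab
    refine hno a ha b hb'.1 hb'.2 ⟨?_, hab⟩
    rintro rfl
    exact hb'.2 ha)
  rw [Finset.union_sdiff_of_subset hA] at hu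
  exact hX hu

theorem lan_con (h : Diag g) {X : Finset ι} (hX : Lan g X) : Con g X :=
  con_of_min h hX.1 hX.2

private theorem Lcn_insert (h : Diag g) {A : Finset ι} (hA : Con g A) {a b : ι} (ha : a ∈ A)
    (hb : b ∉ A) (hab : adj g a b) : Con g (insert b A) := by
  intro D hD hne hDne
  by_cases hbD : b ∈ D
  · by_cases hD' : (D.erase b).Nonempty
    · have hsub : D.erase b ⊆ A := by
        intro x hx
        have hx' := Finset.mem_erase.1 hx
        rcases Finset.mem_insert.1 (hD hx'.2) with h1 | h1
        · exact absurd h1 hx'.1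
        · exact h1
      have hneA : D.erase b ≠ A := by
        intro he
        apply hDne
        rw [← he, Finset.insert_erase hbD]
      obtain ⟨d, hd, e, he, heD, hde⟩ := hA _ hsub hD' hneA
      refine ⟨d, (Finset.mem_erase.1 hd).2, e, Finset.mem_insert_of_mem he, ?_, hde⟩
      intro heD'
      refine heD (Finset.mem_erase.2 ⟨?_, heD'⟩)
      rintro rfl
      exact hb he
    · refine ⟨b, hbD, a, Finset.mem_insert_of_mem ha, ?_, h.adj_comm.1 hab⟩
      intro haD
      refine hD' ⟨a, Finset.mem_erase.2 ⟨?_, haD⟩⟩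
      rintro rfl
      exact hb ha
  · have hsub : D ⊆ A := by
      intro x hx
      rcases Finset.mem_insert.1 (hD hx) with h1 | h1
      · exact absurd (h1 ▸ hx) hbD
      · exact h1
    by_cases hDA : D = A
    · exact ⟨a, hDA ▸ ha, b, Finset.mem_insert_self b A, hbD, hab⟩
    · obtain ⟨d, hd, e, he, heD, hde⟩ := hA D hsub hne hDA
      exact ⟨d, hd, e, Finset.mem_insert_of_mem he, heD, hde⟩

private theorem Lcn_single (x : ι) : Con g {x} := by
  intro A hA hne hAX
  exfalso
  apply hAX
  exact Finset.Nonempty.subset_singleton_iff hne |>.1 hA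

theorem noncut (h : Diag g) {X : Finset ι} (hX : Con g X) (hc : 2 ≤ X.card) :
    ∃ v ∈ X, Con g (X.erase v) ∧ ∃ y ∈ X.erase v, adj g v y := by
  classical
  let F : Finset (Finset ι) := X.powerset.filter (fun A => A.Nonempty ∧ A ≠ X ∧ Con g A)
  have hXne : X.Nonempty := Finset.card_pos.1 (by omega)
  have hF : F.Nonempty := by
    obtain ⟨x, hx⟩ := hXne
    refine ⟨{x}, Finset.mem_filter.2 ⟨Finset.mem_powerset.2 (Finset.singleton_subset_iff.2 hx),
      Finset.singleton_nonempty x, ?_, Lcn_single x⟩⟩
    intro he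
    rw [← he, Finset.card_singleton] at hc
    omega
  obtain ⟨A, hA, hmax⟩ := Finset.exists_max_image F Finset.card hF
  obtain ⟨hA1, hA2, hA3, hA4⟩ := Finset.mem_filter.1 hA
  have hAX := Finset.mem_powerset.1 hA1
  obtain ⟨a, ha, b, hb, hbA, hab⟩ := hX A hAX hA2 hA3
  have hins : insert b A = X := by
    by_contra hne
    have hmem : insert b A ∈ F := Finset.mem_filter.2
      ⟨Finset.mem_powerset.2 (Finset.insert_subset hb hAX), Finset.insert_nonempty b A, hne,
        Lcn_insert h hA4 ha hbA hab⟩
    have h1 := hmax _ hmem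
    rw [Finset.card_insert_of_notMem hbA] at h1
    omega
  have hAe : X.erase b = A := by
    rw [← hins, Finset.erase_insert hbA]
  refine ⟨b, hb, ?_, a, ?_, h.adj_comm.1 hab⟩
  · rw [hAe]
    exact hA4
  · rw [hAe]
    exact ha

end MP86a502
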