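import Pool.Agent.Lib.MP_86a502_gt.U.Smb
import Pool.Agent.Lib.MP_86a502_gt.U.Lcn

set_option autoImplicit false
set_option linter.unusedSectionVars false

/-! # JOB Sma. Small diagrams (100-150 lines)

* `small_step`: `eR_all e`, `chl_sound` with `m = eN e + 1`, `φ a = ψ a` for `a < eN e` and
  `φ (eN e) = v`. The codes of the matrix are `eE e a b` (`all16_iff`): `eP e a b` for old nodes, `10`
  between the new node and the old ones (the label is `≤ 7` because the pair is a proper subset of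
  `X`, `pd_lab`; `eN e ≥ 2`). The tables are symmetric (`decide +kernel`).
* `small_cls`: induction on `k`. `k = 2`: `X = {x, y}`, adjacent; the label is `3, ..., 7`: `e = 0`
  (`eN 0 = 2`, `eP 0 0 1 = 11`) or `8`: `t = 0` (`lN 0 = 2`, `lP 0 0 1 = 8`). `k + 1 ≥ 3`: `noncut`;
  `Y = X.erase v` is connected and positive definite, so the induction hypothesis gives `EQ` (not
  `LP`, by `lp_npd`) with `eN e = k ≤ 4`, so `e < 9`; then `small_step`. -/

namespace MP86a502

theorem Sma_eN : ∀ e < 12, 2 ≤ eN e ∧ eN e ≤ 5 ∧ (eN e ≤ 4 → e < 9) := by decide +kernel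

theorem Sma_eE1 : ∀ e < 9, ∀ a < eN e, ∀ b < eN e, a = b ∨ eE e a b = eP e a b := by decide +kernel

theorem Sma_eE2 : ∀ e < 9, ∀ a < eN e, eE e a (eN e) = 10 ∧ eE e (eN e) a = 10 := by decide +kernel

theorem Sma_eE : ∀ e < 9, ∀ a < 16, ∀ b < 16, a ≠ b → a ≤ eN e → b ≤ eN e →
    (a < eN e → b < eN e → eE e a b = eP e a b) ∧ ((a = eN e ∨ b = eN e) → eE e a b = 10) := by
  intro e he a ha b hb hab h1 h2
  refine ⟨fun h5 h6 => (Sma_eE1 e he a h5 b h6).resolve_left hab, fun h5 => ?_⟩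
  rcases h5 with rfl | rfl
  · exact (Sma_eE2 e he b (by omega)).2
  · exact (Sma_eE2 e he a (by omega)).1

theorem Sma_sym : ∀ e < 9, ∀ a < 16, ∀ b < 16, eE e a b = eE e b a := by decide +kernel

theorem Sma_two : eN 0 = 2 ∧ eP 0 0 1 = 11 ∧ eP 0 1 0 = 11 ∧ lN 0 = 2 ∧ lP 0 0 1 = 8 ∧ lP 0 1 0 = 8 := by
  decide +kernel

section
variable {ι : Type} [Fintype ι] [DecidableEq ι] {n : ℕ} {g : ι → ι → ℝ}

theorem small_step (H : CoxH n g) {e : ℕ} (he : e < 9) {ψ : ℕ → ι} {Y : Finset ι}
    (hY : EQ g e ψ Y) {v : ι} (hv : v ∉ Y) (hp : ∀ Z ⊂ insert v Y, PD g Z)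
    (ha : ∃ y ∈ Y, adj g v y) :
    (∃ e < 12, ∃ ψ, EQ g e ψ (insert v Y)) ∨ (∃ t < 12, ∃ ψ, LP g t ψ (insert v Y)) := by
  obtain ⟨h2, h5, _⟩ := Sma_eN e (by omega)
  obtain ⟨c, t, hR⟩ := eR_all e he
  unfold eR at hR
  rw [bcB_and] at hR
  obtain ⟨hM, hchl⟩ := hR
  have hcd : ∀ a < 16, ∀ b < 16, cd c a b = eE e a b := by
    intro a ha b hb
    exact Nat.eq_of_beq_eq_true ((all16_iff.1 ((all16_iff.1 hM) a ha)) b hb)
  have hcardY := eq_card hY
  have hcard : (insert v Y).card = eN e + 1 := by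
    rw [Finset.card_insert_of_notMem hv, hcardY]
  set φ : ℕ → ι := fun a => if a < eN e then ψ a else v with hφ
  have hφ1 : ∀ a, a < eN e → φ a = ψ a := fun a ha => if_pos ha
  have hφ2 : φ (eN e) = v := if_neg (lt_irrefl _)
  have hψY : ∀ a, a < eN e → ψ a ∈ Y := fun a ha => (hY.mem _).2 ⟨a, ha, rfl⟩
  have hnev : ∀ a, a < eN e → ψ a ≠ v := fun a ha h => hv (h ▸ hψY a ha)
  have hinj : ∀ a < eN e + 1, ∀ b < eN e + 1, φ a = φ b → a = b := by
    intro a ha b hb hab
    rcases Nat.lt_succ_iff_lt_or_eq.1 ha with ha | rfl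
    · rcases Nat.lt_succ_iff_lt_or_eq.1 hb with hb | rfl
      · rw [hφ1 a ha, hφ1 b hb] at hab
        exact hY.inj a ha b hb hab
      · rw [hφ1 a ha, hφ2] at hab
        exact absurd hab (hnev a ha)
    · rcases Nat.lt_succ_iff_lt_or_eq.1 hb with hb | rfl
      · rw [hφ1 b hb, hφ2] at hab
        exact absurd hab.symm (hnev b hb)
      · rfl
  have hmem : ∀ z, z ∈ insert v Y ↔ ∃ a < eN e + 1, φ a = z := by
    intro z
    rw [Finset.mem_insert, hY.mem]
    constructor
    · rintro (rfl | ⟨a, ha, rfl⟩)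
      · exact ⟨eN e, Nat.lt_succ_self _, hφ2⟩
      · exact ⟨a, by omega, hφ1 a ha⟩
    · rintro ⟨a, ha, rfl⟩
      rcases Nat.lt_succ_iff_lt_or_eq.1 ha with ha | rfl
      · exact Or.inr ⟨a, ha, (hφ1 a ha).symm⟩
      · exact Or.inl hφ2
  have hpair : ∀ a < eN e, ok 10 (lab g (ψ a) v) := by
    intro a ha
    have hne := hnev a ha
    have hss : ({ψ a, v} : Finset ι) ⊂ insert v Y := by
      rw [Finset.ssubset_iff_subset_ne]
      refine ⟨?_, fun h => ?_⟩
      · intro z hz
        rw [Finset.mem_insert, Finset.mem_singleton] at hz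
        rcases hz with rfl | rfl
        · exact Finset.mem_insert_of_mem (hψY a ha)
        · exact Finset.mem_insert_self _ _
      · have h3 := congrArg Finset.card h
        rw [hcard, Finset.card_pair hne] at h3
        omega
    have h7 := (pd_lab H.toDiag hne).1 (hp _ hss)
    have h8 := (lab_rng H.toDiag hne).1
    exact Or.inr ⟨le_refl _, by omega, h7⟩
  have hcod : ∀ a < eN e + 1, ∀ b < eN e + 1, a ≠ b → ok (cd c a b) (lab g (φ a) (φ b)) := by
    intro a ha b hb hab
    rw [hcd a (by omega) b (by omega)]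
    obtain ⟨hE1, hE2⟩ := Sma_eE e he a (by omega) b (by omega) hab (by omega) (by omega)
    rcases Nat.lt_succ_iff_lt_or_eq.1 ha with ha | rfl
    · rcases Nat.lt_succ_iff_lt_or_eq.1 hb with hb | rfl
      · rw [hE1 ha hb, hφ1 a ha, hφ1 b hb]
        exact hY.cod a ha b hb hab
      · rw [hE2 (Or.inr rfl), hφ1 a ha, hφ2]
        exact hpair a ha
    · rcases Nat.lt_succ_iff_lt_or_eq.1 hb with hb | rfl
      · rw [hE2 (Or.inl rfl), hφ1 b hb, hφ2, lab_comm H.toDiag]
        exact hpair b hb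
      · exact absurd rfl hab
  have hsym : ∀ a < 16, ∀ b < 16, cd c a b = cd c b a := by
    intro a ha b hb
    rw [hcd a ha b hb, hcd b hb a ha]
    exact Sma_sym e he a ha b hb
  have hadj : ∃ a, a + 1 < eN e + 1 ∧ adj g (φ (eN e + 1 - 1)) (φ a) := by
    obtain ⟨y, hy, hvy⟩ := ha
    obtain ⟨a, ha, rfl⟩ := (hY.mem y).1 hy
    refine ⟨a, by omega, ?_⟩
    rw [Nat.add_sub_cancel, hφ2, hφ1 a ha]
    exact hvy
  exact chl_sound H hp (by omega) (by omega) hinj hmem hadj t c hcod hsym hchl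

theorem Sma_pair (H : CoxH n g) {X : Finset ι} (hk : X.card = 2) (hc : Con g X) :
    (∃ e < 12, ∃ ψ, EQ g e ψ X) ∨ (∃ t < 12, ∃ ψ, LP g t ψ X) := by
  obtain ⟨he, he1, he2, hl, hl1, hl2⟩ := Sma_two
  obtain ⟨x, y, hxy, rfl⟩ := Finset.card_eq_two.1 hk
  have hadj : adj g x y := by
    obtain ⟨a, ha, b, hb, hba, hab⟩ := hc {x} (by simp) ⟨x, Finset.mem_singleton_self x⟩ (by
      intro h
      have h3 := congrArg Finset.card h
      rw [hk, Finset.card_singleton] at h3
      omega)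
    rw [Finset.mem_singleton] at ha hba
    rw [Finset.mem_insert, Finset.mem_singleton] at hb
    rcases hb with hb | hb
    · exact absurd hb hba
    · rw [← ha, ← hb]
      exact hab
  have hl3 := ((lab_adj H.toDiag).1 hadj).2
  obtain ⟨hr1, hr2⟩ := lab_rng H.toDiag hxy
  set ψ : ℕ → ι := fun a => if a = 0 then x else y with hψ
  have h0 : ψ 0 = x := if_pos rfl
  have h1 : ψ 1 = y := if_neg one_ne_zero
  have hinj : ∀ a < 2, ∀ b < 2, ψ a = ψ b → a = b := by
    intro a ha b hb hab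
    interval_cases a <;> interval_cases b
    · rfl
    · rw [h0, h1] at hab
      exact absurd hab hxy
    · rw [h0, h1] at hab
      exact absurd hab.symm hxy
    · rfl
  have hmem : ∀ z, z ∈ ({x, y} : Finset ι) ↔ ∃ a < 2, ψ a = z := by
    intro z
    rw [Finset.mem_insert, Finset.mem_singleton]
    constructor
    · rintro (rfl | rfl)
      · exact ⟨0, by omega, h0⟩
      · exact ⟨1, by omega, h1⟩
    · rintro ⟨a, ha, rfl⟩
      interval_cases a
      · exact Or.inl h0
      · exact Or.inr h1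
  by_cases h7 : lab g x y ≤ 7
  · left
    refine ⟨0, by omega, ψ, ⟨?_, ?_, ?_⟩⟩
    · rw [he]
      exact hinj
    · rw [he]
      exact hmem
    · rw [he]
      intro a ha b hb hab
      interval_cases a <;> interval_cases b
      · exact absurd rfl hab
      · rw [he1, h0, h1]
        exact Or.inr ⟨by omega, by omega, h7⟩
      · rw [he2, h0, h1, lab_comm H.toDiag]
        exact Or.inr ⟨by omega, by omega, h7⟩
      · exact absurd rfl hab
  · right
    refine ⟨0, by omega, ψ, ⟨?_, ?_, ?_⟩⟩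
    · rw [hl]
      exact hinj
    · rw [hl]
      exact hmem
    · rw [hl]
      intro a ha b hb hab
      interval_cases a <;> interval_cases b
      · exact absurd rfl hab
      · rw [hl1, h0, h1]
        exact Or.inl ⟨by omega, by omega⟩
      · rw [hl2, h0, h1, lab_comm H.toDiag]
        exact Or.inl ⟨by omega, by omega⟩
      · exact absurd rfl hab

theorem small_cls (H : CoxH n g) (k : ℕ) (h2 : 2 ≤ k) (h5 : k ≤ 5) {X : Finset ι}
    (hk : X.card = k) (hc : Con g X) (hp : ∀ Z ⊂ X, PD g Z) :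
    (∃ e < 12, ∃ ψ, EQ g e ψ X) ∨ (∃ t < 12, ∃ ψ, LP g t ψ X) := by
  induction k, h2 using Nat.le_induction generalizing X with
  | base => exact Sma_pair H hk hc
  | succ k hk2 ih =>
    obtain ⟨v, hv, hcon, hy⟩ := noncut H.toDiag hc (by omega)
    have hcard : (X.erase v).card = k := by
      rw [Finset.card_erase_of_mem hv, hk]
      omega
    have hss : X.erase v ⊂ X := Finset.erase_ssubset hv
    have hpY : ∀ Z ⊂ X.erase v, PD g Z := fun Z hZ => hp Z (hZ.trans hss)
    have hXe : insert v (X.erase v) = X := Finset.insert_erase hv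
    rcases ih (by omega) hcard hcon hpY with ⟨e, he, ψ, hE⟩ | ⟨t, ht, ψ, hL⟩
    · have h3 := eq_card hE
      have he9 : e < 9 := (Sma_eN e he).2.2 (by omega)
      have hstep := small_step H he9 hE (Finset.notMem_erase v X) (by rw [hXe]; exact hp) hy
      rw [hXe] at hstep
      exact hstep
    · exact absurd (hp _ hss) (lp_npd H.toDiag ht hL)

end

end MP86a502
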