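import Pool.Agent.Lib.MP_86a502_gt.U.Lcf
import Pool.Agent.Lib.MP_86a502_gt.U.Fmn
import Pool.Agent.Lib.MP_86a502_gt.U.Sma

set_option autoImplicit false
set_option linter.unusedSectionVars false

/-! # JOB Lcl. Classification of the Lannér diagrams (60-100 lines)

* `big_cls`: induction on `k ≥ 6`: `noncut`, `Y = X.erase v` is positive definite and connected, so `FamX`
  for `Y` (`fam5` or induction), `fam_step`.
* `lan_cls`: `X` is connected (`lan_con`); it has at least two elements (`pd_empty`, `pd_single`). If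
  `2 ≤ |X| ≤ 5`: `small_cls`, and not `EQ` because of `eq_pd`. If `|X| ≥ 6`: `big_cls` and `fam_pd`:
  contradiction. -/

namespace MP86a502

section
variable {ι : Type} [Fintype ι] [DecidableEq ι] {n : ℕ} {g : ι → ι → ℝ}

theorem big_cls (H : CoxH n g) (k : ℕ) (h6 : 6 ≤ k) : ∀ X : Finset ι, X.card = k → Con g X →
    (∀ Z ⊂ X, PD g Z) → FamX g k X := by
  induction k, h6 using Nat.le_induction with
  | base =>
    intro X hc hX hp
    obtain ⟨v, hv, hcon, ha⟩ := noncut H.toDiag hX (by omega)
    have hs : X.erase v ⊂ X := Finset.erase_ssubset hv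
    have hcard : (X.erase v).card = 5 := by rw [Finset.card_erase_of_mem hv, hc]
    have hF := fam5 H hcard hcon (hp _ hs)
    have h1 := fam_step H (le_refl 5) hF (Finset.notMem_erase v X) ha (by rw [Finset.insert_erase hv]; exact hp)
    rwa [Finset.insert_erase hv] at h1
  | succ k hk ih =>
    intro X hc hX hp
    obtain ⟨v, hv, hcon, ha⟩ := noncut H.toDiag hX (by omega)
    have hs : X.erase v ⊂ X := Finset.erase_ssubset hv
    have hcard : (X.erase v).card = k := by rw [Finset.card_erase_of_mem hv, hc]; rfl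
    have hF := ih (X.erase v) hcard hcon (fun Z hZ => hp Z (hZ.trans hs))
    have h1 := fam_step H (by omega) hF (Finset.notMem_erase v X) ha (by rw [Finset.insert_erase hv]; exact hp)
    rwa [Finset.insert_erase hv] at h1

/-- Lannér's classification (grouped). -/
theorem lan_cls (H : CoxH n g) {X : Finset ι} (hX : Lan g X) : ∃ t < 12, ∃ φ, LP g t φ X := by
  have hcon := lan_con H.toDiag hX
  rcases Nat.lt_or_ge X.card 2 with h2 | h2
  · exfalso
    apply hX.1
    rcases Nat.eq_zero_or_pos X.card with h0 | h0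
    · rw [Finset.card_eq_zero.1 h0]
      exact pd_empty
    · obtain ⟨i, hi⟩ := Finset.card_eq_one.1 (show X.card = 1 by omega)
      rw [hi]
      exact pd_single (H.diag i)
  · rcases Nat.lt_or_ge X.card 6 with h6 | h6
    · rcases small_cls H X.card h2 (by omega) rfl hcon hX.2 with ⟨e, he, ψ, hE⟩ | h
      · exact absurd (eq_pd H.toDiag he hE) hX.1
      · exact h
    · exact absurd (fam_pd H.toDiag (big_cls H X.card h6 X rfl hcon hX.2)) hX.1

theorem lan_card (H : CoxH n g) {X : Finset ι} (hX : Lan g X) : X.card ≤ 5 := by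
  obtain ⟨t, ht, φ, hφ⟩ := lan_cls H hX
  rw [lp_card hφ]
  exact (lN_rng t ht).2

end

end MP86a502
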