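import Pool.Agent.Lib.MP_86a502_gt.U.Def2

set_option autoImplicit false
set_option linter.unusedSectionVars false

/-! # JOB Val. Labels and values (100-160 lines)

From `Diag.ang`: off the diagonal `g i j ≤ -1` or `g i j = -cos(π/m)` with `m ≥ 2`:
`m = 2`: `0`; `m = 3`: `-1/2`; `m = 4`: `-√2/2`; `m = 5`: `-(1+√5)/4` (`Real.cos_pi_div_five`);
`m = 6`: `-√3/2`; `m ≥ 7`: `cos(π/m) ≥ cos(π/7)` (`Real.cos_le_cos_of_nonneg_of_le_pi`) and
`cos(π/m) < 1`. For `x = cos(π/7) ≥ cos(π/6) ≥ 0.866`: `cos(4π/7) = -cos(3π/7)` gives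
`8x⁴-8x²+1+4x³-3x = (x+1)(8x³-4x²-4x+1) = 0` (`Real.cos_three_mul`, `Real.cos_two_mul` twice), so
`p(x) = 8x³-4x²-4x+1 = 0`. For `a = 0.9009688`: `p(a) < 0` and
`p(x) - p(a) = (x - a) (8(x² + x a + a²) - 4(x + a) - 4)` with a positive second factor, hence `x > a`.
See also `Ang.lean` (`Diag.vals`). The thresholds in the definition of `lab` lie strictly between
these values. -/

namespace MP86a502

variable {ι : Type} {g : ι → ι → ℝ}

theorem Val_cos7 : (9009688 / 10000000 : ℝ) < Real.cos (Real.pi / 7) := by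
  have hpi := Real.pi_pos
  have h6 : √3 / 2 ≤ Real.cos (Real.pi / 7) := by
    rw [← Real.cos_pi_div_six]
    exact Real.cos_le_cos_of_nonneg_of_le_pi (by positivity) (by linarith) (by linarith)
  have h3 : (173 / 100 : ℝ) ≤ √3 := by
    apply Real.le_sqrt_of_sq_le
    norm_num
  have h4 : Real.cos (2 * (2 * (Real.pi / 7))) = - Real.cos (3 * (Real.pi / 7)) := by
    rw [← Real.cos_pi_sub]
    congr 1
    ring
  rw [Real.cos_two_mul, Real.cos_two_mul, Real.cos_three_mul] at h4
  generalize Real.cos (Real.pi / 7) = x at h4 h6 ⊢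
  have h5 : (x + 1) * (8 * x ^ 3 - 4 * x ^ 2 - 4 * x + 1) = 0 := by linear_combination h4
  have h7 : 8 * x ^ 3 - 4 * x ^ 2 - 4 * x + 1 = 0 := by
    rcases mul_eq_zero.1 h5 with h | h
    · exfalso
      linarith
    · exact h
  have hx : (86 / 100 : ℝ) ≤ x := by linarith
  by_contra hcon
  push Not at hcon
  have h8 : 0 < 8 * (x ^ 2 + x * (9009688 / 10000000) + (9009688 / 10000000) ^ 2) -
      4 * (x + (9009688 / 10000000)) - 4 := by nlinarith
  have h9 : 0 ≤ ((9009688 / 10000000) - x) *
      (8 * (x ^ 2 + x * (9009688 / 10000000) + (9009688 / 10000000) ^ 2) -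
      4 * (x + (9009688 / 10000000)) - 4) := mul_nonneg (sub_nonneg.2 hcon) h8.le
  have h10 : ((9009688 / 10000000) - x) *
      (8 * (x ^ 2 + x * (9009688 / 10000000) + (9009688 / 10000000) ^ 2) -
      4 * (x + (9009688 / 10000000)) - 4) =
      (8 * (9009688 / 10000000) ^ 3 - 4 * (9009688 / 10000000) ^ 2 - 4 * (9009688 / 10000000) + 1) -
      (8 * x ^ 3 - 4 * x ^ 2 - 4 * x + 1) := by ring
  rw [h10, h7] at h9
  norm_num at h9

theorem Val_two : (7 / 5 : ℝ) < √2 ∧ √2 < 3 / 2 := by
  constructor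
  · rw [Real.lt_sqrt (by norm_num)]
    norm_num
  · rw [Real.sqrt_lt' (by norm_num)]
    norm_num

theorem Val_five : (11 / 5 : ℝ) < √5 ∧ √5 < 57 / 25 := by
  constructor
  · rw [Real.lt_sqrt (by norm_num)]
    norm_num
  · rw [Real.sqrt_lt' (by norm_num)]
    norm_num

theorem Val_three : (17 / 10 : ℝ) < √3 ∧ √3 < 7 / 4 := by
  constructor
  · rw [Real.lt_sqrt (by norm_num)]
    norm_num
  · rw [Real.sqrt_lt' (by norm_num)]
    norm_num

theorem lab_spec (h : Diag g) {i j : ι} (hij : i ≠ j) :
    (lab g i j = 2 ∧ g i j = 0) ∨ (lab g i j = 3 ∧ g i j = -(1 / 2)) ∨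
    (lab g i j = 4 ∧ g i j = -(√2 / 2)) ∨ (lab g i j = 5 ∧ g i j = -((1 + √5) / 4)) ∨
    (lab g i j = 6 ∧ g i j = -(√3 / 2)) ∨
    (lab g i j = 7 ∧ g i j ≤ -(9009688 / 10000000) ∧ -1 < g i j) ∨ (lab g i j = 8 ∧ g i j ≤ -1) := by
  obtain ⟨h2a, h2b⟩ := Val_two
  obtain ⟨h3a, h3b⟩ := Val_three
  obtain ⟨h5a, h5b⟩ := Val_five
  have key : ∀ x : ℝ, g i j = x → lab g i j =
      if -(1 / 4) < x then 2 else if -(3 / 5) < x then 3 else if -(3 / 4) < x then 4
      else if -(41 / 50) < x then 5 else if -(22 / 25) < x then 6 else if -1 < x then 7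
      else 8 := by
    intro x hx
    unfold lab
    rw [hx]
  rcases h.ang i j hij with h1 | ⟨m, hm, h1⟩
  · right; right; right; right; right; right
    refine ⟨?_, h1⟩
    rw [key _ rfl, if_neg (by linarith), if_neg (by linarith), if_neg (by linarith),
      if_neg (by linarith), if_neg (by linarith), if_neg (by linarith)]
  · rcases Nat.lt_or_ge m 7 with h7 | h7
    · interval_cases m
      · left
        have h2 : g i j = 0 := by
          rw [h1]
          push_cast
          rw [Real.cos_pi_div_two, neg_zero]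
        refine ⟨?_, h2⟩
        rw [key _ h2, if_pos (by norm_num)]
      · right; left
        have h2 : g i j = -(1 / 2) := by
          rw [h1]
          push_cast
          rw [Real.cos_pi_div_three]
        refine ⟨?_, h2⟩
        rw [key _ h2, if_neg (by norm_num), if_pos (by norm_num)]
      · right; right; left
        have h2 : g i j = -(√2 / 2) := by
          rw [h1]
          push_cast
          rw [Real.cos_pi_div_four]
        refine ⟨?_, h2⟩
        rw [key _ h2, if_neg (by linarith), if_neg (by linarith), if_pos (by linarith)]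
      · right; right; right; left
        have h2 : g i j = -((1 + √5) / 4) := by
          rw [h1]
          push_cast
          rw [Real.cos_pi_div_five]
        refine ⟨?_, h2⟩
        rw [key _ h2, if_neg (by linarith), if_neg (by linarith), if_neg (by linarith),
          if_pos (by linarith)]
      · right; right; right; right; left
        have h2 : g i j = -(√3 / 2) := by
          rw [h1]
          push_cast
          rw [Real.cos_pi_div_six]
        refine ⟨?_, h2⟩
        rw [key _ h2, if_neg (by linarith), if_neg (by linarith), if_neg (by linarith),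
          if_neg (by linarith), if_pos (by linarith)]
    · right; right; right; right; right; left
      have hm' : (7 : ℝ) ≤ m := by exact_mod_cast h7
      have hpi := Real.pi_pos
      have h2 : Real.pi / (m : ℝ) ≤ Real.pi / 7 :=
        div_le_div_of_nonneg_left hpi.le (by norm_num) hm'
      have h3 : 0 < Real.pi / (m : ℝ) := by positivity
      have h4 := Real.cos_le_cos_of_nonneg_of_le_pi h3.le (by linarith) h2
      have h5 : Real.cos (Real.pi / (m : ℝ)) < 1 := by
        rw [← Real.cos_zero]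
        exact Real.cos_lt_cos_of_nonneg_of_le_pi le_rfl (by linarith) h3
      have h6 := Val_cos7
      have h8 : g i j ≤ -(9009688 / 10000000) := by rw [h1]; linarith
      have h9 : -1 < g i j := by rw [h1]; linarith
      refine ⟨?_, h8, h9⟩
      rw [key _ rfl, if_neg (by linarith), if_neg (by linarith), if_neg (by linarith),
        if_neg (by linarith), if_neg (by linarith), if_pos h9]

theorem lab_comm (h : Diag g) (i j : ι) : lab g i j = lab g j i := by
  unfold lab
  rw [h.symm i j]

theorem lab_rng (h : Diag g) {i j : ι} (hij : i ≠ j) : 2 ≤ lab g i j ∧ lab g i j ≤ 8 := by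
  rcases lab_spec h hij with h | h | h | h | h | h | h <;> omega

theorem lab_two (h : Diag g) {i j : ι} (hij : i ≠ j) : lab g i j = 2 ↔ g i j = 0 := by
  obtain ⟨h2a, h2b⟩ := Val_two
  obtain ⟨h3a, h3b⟩ := Val_three
  obtain ⟨h5a, h5b⟩ := Val_five
  constructor
  · intro h2
    rcases lab_spec h hij with h1 | h1 | h1 | h1 | h1 | h1 | h1
    · exact h1.2
    all_goals omega
  · intro h2
    rcases lab_spec h hij with h1 | h1 | h1 | h1 | h1 | h1 | h1
    · exact h1.1
    · exfalso; linarith [h1.2]
    · exfalso; linarith [h1.2]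
    · exfalso; linarith [h1.2]
    · exfalso; linarith [h1.2]
    · exfalso; linarith [h1.2.1]
    · exfalso; linarith [h1.2]

theorem lab_adj (h : Diag g) {i j : ι} : adj g i j ↔ i ≠ j ∧ lab g i j ≠ 2 := by
  unfold adj
  constructor
  · rintro ⟨h1, h2⟩
    exact ⟨h1, fun h3 => h2 ((lab_two h h1).1 h3)⟩
  · rintro ⟨h1, h2⟩
    exact ⟨h1, fun h3 => h2 ((lab_two h h1).2 h3)⟩

theorem lab_fin (h : Diag g) {i j : ι} (hij : i ≠ j) : lab g i j ≤ 7 ↔ -1 < g i j := by
  obtain ⟨h2a, h2b⟩ := Val_two
  obtain ⟨h3a, h3b⟩ := Val_three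
  obtain ⟨h5a, h5b⟩ := Val_five
  rcases lab_spec h hij with h1 | h1 | h1 | h1 | h1 | h1 | h1
  · exact ⟨fun _ => by linarith [h1.2], fun _ => by omega⟩
  · exact ⟨fun _ => by linarith [h1.2], fun _ => by omega⟩
  · exact ⟨fun _ => by linarith [h1.2], fun _ => by omega⟩
  · exact ⟨fun _ => by linarith [h1.2], fun _ => by omega⟩
  · exact ⟨fun _ => by linarith [h1.2], fun _ => by omega⟩
  · exact ⟨fun _ => h1.2.2, fun _ => by omega⟩
  · exact ⟨fun h2 => by omega, fun h2 => by linarith [h1.2]⟩

theorem pd_lab [DecidableEq ι] (h : Diag g) {i j : ι} (hij : i ≠ j) :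
    PD g {i, j} ↔ lab g i j ≤ 7 := by
  rw [lab_fin h hij]
  exact pd_pair h.symm h.diag (fun i j => h.nonpos) hij

end MP86a502
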