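import Pool.Agent.Lib.MP_86a502_gt.U.Evt
import Pool.Agent.Lib.MP_86a502_gt.U.Val
import Pool.Agent.Lib.MP_86a502_gt.U.DatS
import Pool.Agent.Lib.MP_86a502_gt.U.Bla

set_option autoImplicit false
set_option linter.unusedSectionVars false

/-! # JOB Rti. Triangles with two near corners (80-130 lines)

`nrT t i j k = true` (the pair `i, j` in the triangle `i, j, k`): the sides `φ i`, `φ j` are adjacent or have
a common neighbour `φ w`, `w ≠ k`, so it is in the vertex `M.erase (φ k)` (`φ` is injective on `X`): the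
codes of `lP` different from `2` are not `10` (`lP_rng`), so the label is not `2` (`ok`), so `adj`. Hence
`near`, and the corner contributes at least `4` to `fsum` (`tri_mem`; `near` is symmetric). `tN` says that
two corners are near. -/

namespace MP86a502

section
variable {ι : Type} [Fintype ι] [DecidableEq ι] {n : ℕ} {g : ι → ι → ℝ}

theorem Rti_adj (H : CoxH n g) {X : Finset ι} {t : ℕ} (ht : t < 12) {φ : ℕ → ι} (hφ : LP g t φ X) {a b : ℕ}
    (ha : a < lN t) (hb : b < lN t) (hc : lP t a b ≠ 2) : adj g (φ a) (φ b) := by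
  have hl := (lN_rng t ht).2
  have hr := lP_rng t ht a (by omega) b (by omega)
  have hne : a ≠ b := by
    intro h
    subst h
    exact hc hr.2.1
  have hφne : φ a ≠ φ b := fun h => hne (hφ.inj a ha b hb h)
  have hok := hφ.cod a ha b hb hne
  have h10 := hr.2.2.2
  rw [lab_adj H.toDiag]
  refine ⟨hφne, ?_⟩
  unfold ok at hok
  rcases hok with ⟨h1, h2⟩ | ⟨h1, h2, h3⟩
  · rw [h2]
    exact hc
  · omega

theorem Rti_nrT {t x y z : ℕ} (h : nrT t x y z = true) : lP t x y ≠ 2 ∨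
    ∃ w < lN t, w ≠ z ∧ lP t x w ≠ 2 ∧ lP t y w ≠ 2 := by
  unfold nrT at h
  by_cases h2 : lP t x y = 2
  · right
    rw [bcB_iff] at h
    rcases h with ⟨_, h⟩ | ⟨h, _⟩
    · rw [any16_iff] at h
      obtain ⟨w, _, hw⟩ := h
      rw [bcB_and, bcB_iff] at hw
      obtain ⟨h3, h4⟩ := hw
      have h5 : w + 1 ≤ lN t := Nat.le_of_ble_eq_true h3
      rcases h4 with ⟨_, h4⟩ | ⟨h6, h4⟩
      · exact absurd h4 (by simp)
      · rw [bcB_iff] at h4
        rcases h4 with ⟨_, h4⟩ | ⟨h7, h4⟩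
        · exact absurd h4 (by simp)
        · rw [bcB_iff] at h4
          rcases h4 with ⟨_, h4⟩ | ⟨h8, _⟩
          · exact absurd h4 (by simp)
          · refine ⟨w, h5, Nat.ne_of_beq_eq_false h6, ?_, ?_⟩
            · exact Nat.ne_of_beq_eq_false h7
            · exact Nat.ne_of_beq_eq_false h8
    · exact absurd h2 (Nat.ne_of_beq_eq_false h)
  · exact Or.inl h2

theorem Rti_near (H : CoxH n g) {M X : Finset ι} (hX : X ⊆ M) {t : ℕ} (ht : t < 12) {φ : ℕ → ι}
    (hφ : LP g t φ X) {i j k : ℕ} (hij : i ≠ j) (hi : i < lN t) (hj : j < lN t) (hk : k < lN t)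
    (h : nrT t i j k = true) : near g (M.erase (φ k)) (φ i) (φ j) := by
  have hl := (lN_rng t ht).2
  refine ⟨fun he => hij (hφ.inj i hi j hj he), ?_⟩
  rcases Rti_nrT h with h1 | ⟨w, hw, hwk, h1, h2⟩
  · exact Or.inl (Rti_adj H ht hφ hi hj h1).2
  · right
    refine ⟨φ w, ?_, Rti_adj H ht hφ hi hw h1, Rti_adj H ht hφ hw hj ?_⟩
    · rw [Finset.mem_erase]
      exact ⟨fun he => hwk (hφ.inj w hw k hk he), hX ((hφ.mem _).2 ⟨w, hw, rfl⟩)⟩
    · rw [(lP_rng t ht w (by omega) j (by omega)).1]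
      exact h2

theorem Rti_symm (h : Diag g) {S : Finset ι} {x y : ι} (hn : near g S x y) : near g S y x := by
  obtain ⟨h1, h2⟩ := hn
  refine ⟨h1.symm, ?_⟩
  rcases h2 with h2 | ⟨z, hz, h3, h4⟩
  · left
    rw [h.symm y x]
    exact h2
  · right
    refine ⟨z, hz, ⟨h4.1.symm, ?_⟩, ⟨h3.1.symm, ?_⟩⟩
    · rw [h.symm y z]
      exact h4.2
    · rw [h.symm z x]
      exact h3.2

theorem Rti_wt (h : Diag g) {S : Finset ι} {x y : ι} (hn : near g S x y) : 4 ≤ wt g S x y + wt g S y x := by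
  unfold wt
  rw [if_pos hn, if_pos (Rti_symm h hn)]
  omega

/-- two near corners -/
theorem tri_near (H : CoxH n g) {M X : Finset ι} (hM : M.card = n + 1) (hX : X ⊆ M)
    {t : ℕ} (ht : t < 12) {φ : ℕ → ι} (hφ : LP g t φ X) {i j k : ℕ} (hij : i < j) (hjk : j < k)
    (hk : k < lN t) (p1 : PD g (M.erase (φ i))) (p2 : PD g (M.erase (φ j)))
    (p3 : PD g (M.erase (φ k))) (hN : tN t i j k = true) (hn : ¬ PD g M) :
    8 ≤ fsum n g (co3 M (φ i) (φ j) (φ k)) := by
  have hi' : i < lN t := by omega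
  have hj' : j < lN t := by omega
  have hmem : ∀ a, a < lN t → φ a ∈ M := fun a ha => hX ((hφ.mem _).2 ⟨a, ha, rfl⟩)
  have hne : ∀ a b, a < lN t → b < lN t → a ≠ b → φ a ≠ φ b := fun a b ha hb hab he =>
    hab (hφ.inj a ha b hb he)
  have hd : [φ i, φ j, φ k].Nodup := by
    simp only [List.nodup_cons, List.mem_cons, List.not_mem_nil, or_false, not_or, List.nodup_nil, and_true,
      not_false_eq_true]
    exact ⟨⟨hne i j hi' hj' (by omega), hne i k hi' hk (by omega)⟩, hne j k hj' hk (by omega)⟩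
  have hf := (tri_mem H.toCox hM (hmem i hi') (hmem j hj') (hmem k hk) hd p1 p2 p3 hn).2
  rw [hf]
  have a1 : nrT t i j k = true → 4 ≤ wt g (M.erase (φ k)) (φ i) (φ j) + wt g (M.erase (φ k)) (φ j) (φ i) :=
    fun h => Rti_wt H.toDiag (Rti_near H hX ht hφ (by omega) hi' hj' hk h)
  have a2 : nrT t i k j = true → 4 ≤ wt g (M.erase (φ j)) (φ i) (φ k) + wt g (M.erase (φ j)) (φ k) (φ i) :=
    fun h => Rti_wt H.toDiag (Rti_near H hX ht hφ (by omega) hi' hk hj' h)
  have a3 : nrT t j k i = true → 4 ≤ wt g (M.erase (φ i)) (φ j) (φ k) + wt g (M.erase (φ i)) (φ k) (φ j) :=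
    fun h => Rti_wt H.toDiag (Rti_near H hX ht hφ (by omega) hj' hk hi' h)
  unfold tN at hN
  rw [bcB_iff] at hN
  rcases hN with ⟨h1, h2⟩ | ⟨_, h2⟩
  · have b1 := a1 h1
    rw [bcB_or] at h2
    rcases h2 with h2 | h2
    · have b2 := a2 h2
      omega
    · have b3 := a3 h2
      omega
  · rw [bcB_and] at h2
    have b2 := a2 h2.1
    have b3 := a3 h2.2
    omega

end

end MP86a502
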