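import Pool.Agent.Lib.MP_86a502_gt.U.Rth
import Pool.Agent.Lib.MP_86a502_gt.U.Rti
import Pool.Agent.Lib.MP_86a502_gt.U.Evt
import Pool.Agent.Lib.MP_86a502_gt.U.Lcl

set_option autoImplicit false
set_option linter.unusedSectionVars false

/-! # JOB Rtc. All triangles (80-120 lines)

If all `T ∈ TF n g M` have `fsum ≥ 8` then `defT`. Otherwise let `T ∈ TF n g M` with `fsum n g T < 8`; by
`tri_of_card`, `hull_tri` `M.card = n + 1` and `M` is not positive definite (`tri_npd`); by `tri_sides` (with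
`X = M`) the sides are `x, y, z`; take `X ⊆ M` with `Lan g X` (`exists_lan`); `x, y, z ∈ X` because `M.erase x`
etc. are positive definite; `lan_cls`: `LP g t φ X`; `x, y, z` are `φ i, φ j, φ k` with `i < j < k` after
renaming (`co3` does not depend on the order). `tdat`: `tri_near` contradicts `fsum < 8`, or `tri_root`. -/

namespace MP86a502

section
variable {ι : Type} [Fintype ι] [DecidableEq ι] {n : ℕ} {g : ι → ι → ℝ}

theorem Rtc_swap12 (W : Finset ι) (x y z : ι) : co3 W x y z = co3 W y x z := by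
  unfold co3
  rw [Finset.erase_right_comm (s := W)]

theorem Rtc_swap23 (W : Finset ι) (x y z : ι) : co3 W x y z = co3 W x z y := by
  unfold co3
  rw [Finset.erase_right_comm]

/-- the ordered case -/
theorem Rtc_ord (H : CoxH n g) {M X : Finset ι} (hM : M.card = n + 1) (hn : ¬ PD g M) (hX : X ⊆ M)
    (lX : Lan g X) {t : ℕ} (ht : t < 12) {φ : ℕ → ι} (hφ : LP g t φ X) {i j k : ℕ} (hij : i < j) (hjk : j < k)
    (hk : k < lN t) (p1 : PD g (M.erase (φ i))) (p2 : PD g (M.erase (φ j)))
    (p3 : PD g (M.erase (φ k))) (hf : fsum n g (co3 M (φ i) (φ j) (φ k)) < 8) : defT n g M := by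
  rcases tdat t i j k ht hij hjk hk with h | ⟨tr, h⟩
  · have h1 := tri_near H hM hX ht hφ hij hjk hk p1 p2 p3 h hn
    exact absurd h1 (not_le.2 hf)
  · exact tri_root H hM hX lX ht hφ hij hjk hk p1 p2 p3 h

theorem TF_ok (H : CoxH n g) (M : Finset ι) : defT n g M := by
  by_cases hall : ∀ T ∈ TF n g M, 8 ≤ fsum n g T
  · unfold defT
    have h1 := Finset.card_nsmul_le_sum (TF n g M) (fun T => fsum n g T) 8 hall
    rw [smul_eq_mul] at h1
    linarith
  · push Not at hall
    obtain ⟨T, hT, hlt⟩ := hall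
    have hT' := hT
    unfold TF at hT'
    rw [Finset.mem_filter] at hT'
    obtain ⟨hT1, hT2, hT3⟩ := hT'
    obtain ⟨a, b, c, q⟩ := tri_of_card H.toCox hT1 hT2
    have hMeq : M = insert a (insert b (insert c T)) := by
      rw [← hT3]
      exact hull_tri H.toCox q
    have hM : M.card = n + 1 := by
      rw [hMeq, Finset.card_insert_of_notMem (by simp [q.ab, q.ac, q.ha]),
        Finset.card_insert_of_notMem (by simp [q.bc, q.hb]), Finset.card_insert_of_notMem q.hc]
      have := q.face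
      omega
    have hn : ¬ PD g M := by
      rw [hMeq]
      exact tri_npd H.toCox q
    obtain ⟨X, hX, lX⟩ := exists_lan hn
    obtain ⟨t, ht, φ, hφ⟩ := lan_cls H lX
    obtain ⟨x, hx, y, hy, z, hz, hxy, hxz, hyz, hTeq, px, py, pz⟩ := tri_sides H.toCox hM hX lX.1 hT
    obtain ⟨i, hi, rfl⟩ := (hφ.mem x).1 hx
    obtain ⟨j, hj, rfl⟩ := (hφ.mem y).1 hy
    obtain ⟨k, hk, rfl⟩ := (hφ.mem z).1 hz
    have hij : i ≠ j := fun h => hxy (by rw [h])
    have hik : i ≠ k := fun h => hxz (by rw [h])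
    have hjk : j ≠ k := fun h => hyz (by rw [h])
    rw [hTeq] at hlt
    rcases lt_or_gt_of_ne hij with h1 | h1
    · rcases lt_or_gt_of_ne hjk with h2 | h2
      · exact Rtc_ord H hM hn hX lX ht hφ h1 h2 hk px py pz hlt
      · rcases lt_or_gt_of_ne hik with h3 | h3
        · rw [Rtc_swap23] at hlt
          exact Rtc_ord H hM hn hX lX ht hφ h3 h2 hj px pz py hlt
        · rw [Rtc_swap23, Rtc_swap12] at hlt
          exact Rtc_ord H hM hn hX lX ht hφ h3 h1 hj pz px py hlt
    · rcases lt_or_gt_of_ne hik with h2 | h2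
      · rw [Rtc_swap12] at hlt
        exact Rtc_ord H hM hn hX lX ht hφ h1 h2 hk py px pz hlt
      · rcases lt_or_gt_of_ne hjk with h3 | h3
        · rw [Rtc_swap12, Rtc_swap23] at hlt
          exact Rtc_ord H hM hn hX lX ht hφ h3 h2 hi py pz px hlt
        · rw [Rtc_swap12, Rtc_swap23, Rtc_swap12] at hlt
          exact Rtc_ord H hM hn hX lX ht hφ h3 h1 hi pz py px hlt

end

end MP86a502
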