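import Pool.Agent.Lib.MP_86a502_gt.U.Geo
import Pool.Agent.Lib.MP_86a502_gt.U.Hsm
import Pool.Agent.Lib.MP_86a502_gt.U.Gwa
import Pool.Agent.Lib.MP_86a502_gt.U.Rtb
import Pool.Agent.Lib.MP_86a502_gt.U.Rtc

set_option autoImplicit false
set_option linter.unusedSectionVars false

/-! # There is no compact Coxeter polytope of dimension at least 22 -/

namespace MP86a502

theorem no_ccp {n N : ℕ} {e : Fin N → Fin (n + 1) → ℝ} (hn : 22 ≤ n) (h : CCP n N e)
    (hdat : ∀ h k, h ≤ k → k < 52 → ∃ c t, hR h k c t = true) : False := by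
  have H := coxH_of_ccp h (by omega)
  refine no_22 H.toCox hn (fun W => ?_) (TF_ok H)
  rcases QF_ok H hdat W with h1 | ⟨f, hf⟩
  · exact Or.inl h1
  · exact Or.inr ⟨def_31 H hf, f, hf⟩

end MP86a502
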