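import Pool.Agent.Lib.MP_86a502_gt.U.Fmd

set_option autoImplicit false
set_option linter.unusedSectionVars false

/-! # JOB Fma. Chains with two ends (120-180 lines)

The vector is `2` on the chain `f 0, ..., f r`, and on an end `L` it is `1, 1` (two neighbours) or `√2`
(one neighbour). Its value of the quadratic form is at most
`4 (r + 1) - 2 * r * (2 * 2 / 2) + e(L) + e(R) = 4 + e(L) + e(R)` with
`e(L) = ∑_{u ∈ L} (κ_u² + 2 * 2 κ_u g(x, u)) ≤ -2` (two neighbours: `2 - 4`; one: `2 - 4`), because all the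
other off-diagonal entries are `≤ 0` (`Diag.nonpos`, `Diag.half`). So `Q ≤ 0`: use `npd_of_le`.
Suggestion: first prove, for a finite set `S` that is the disjoint union of `P` (the chain), `L`, `R`, that
`Q` splits as `Q_P + Q_L + Q_R + 2 (P,L) + 2 (P,R) + 2 (L,R)`; for `Q_P` use induction on `r`. -/

namespace MP86a502

section
variable {ι : Type} [DecidableEq ι] {g : ι → ι → ℝ}

/-- the bilinear form on two sets -/
noncomputable def Fma_B (g : ι → ι → ℝ) (c : ι → ℝ) (A B : Finset ι) : ℝ :=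
  ∑ i ∈ A, ∑ j ∈ B, c i * c j * g i j

theorem Fma_union (h : Diag g) (c : ι → ℝ) {A B : Finset ι} (hd : Disjoint A B) :
    Fma_B g c (A ∪ B) (A ∪ B) = Fma_B g c A A + Fma_B g c B B + 2 * Fma_B g c A B := by
  unfold Fma_B
  rw [Finset.sum_union hd]
  have h1 : ∀ i, ∑ j ∈ A ∪ B, c i * c j * g i j = ∑ j ∈ A, c i * c j * g i j + ∑ j ∈ B, c i * c j * g i j :=
    fun i => Finset.sum_union hd
  simp only [h1, Finset.sum_add_distrib]
  have hc : ∑ i ∈ B, ∑ j ∈ A, c i * c j * g i j = ∑ i ∈ A, ∑ j ∈ B, c i * c j * g i j := by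
    rw [Finset.sum_comm]
    refine Finset.sum_congr rfl fun i _ => Finset.sum_congr rfl fun j _ => ?_
    rw [h.symm j i]
    ring
  rw [hc]
  ring

theorem Fma_le (h : Diag g) {c : ι → ℝ} (hc : ∀ i, 0 ≤ c i) {A B : Finset ι} (hd : Disjoint A B) {x : ι}
    (hx : x ∈ A) : Fma_B g c A B ≤ Fma_B g c {x} B := by
  unfold Fma_B
  rw [Finset.sum_singleton, ← Finset.add_sum_erase A _ hx]
  have h1 : ∑ i ∈ A.erase x, ∑ j ∈ B, c i * c j * g i j ≤ 0 := by
    refine Finset.sum_nonpos fun i hi => Finset.sum_nonpos fun j hj => ?_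
    have hne : i ≠ j := by
      rintro rfl
      exact (Finset.disjoint_left.1 hd) (Finset.mem_of_mem_erase hi) hj
    exact mul_nonpos_of_nonneg_of_nonpos (mul_nonneg (hc i) (hc j)) (h.nonpos hne)
  linarith

theorem Fma_chain (h : Diag g) {c : ι → ℝ} (hc : ∀ i, 0 ≤ c i) {f : ℕ → ι} {r : ℕ}
    (inj : ∀ a ≤ r, ∀ b ≤ r, f a = f b → a = b) (ha : ∀ a < r, adj g (f a) (f (a + 1)))
    (h2 : ∀ a ≤ r, c (f a) = 2) : ∀ k ≤ r,
    Fma_B g c ((Finset.range (k + 1)).image f) ((Finset.range (k + 1)).image f) ≤ 4 := by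
  intro k
  induction k with
  | zero =>
    intro _
    have h1 : (Finset.range (0 + 1)).image f = {f 0} := by simp
    rw [h1]
    unfold Fma_B
    rw [Finset.sum_singleton, Finset.sum_singleton, h2 0 (Nat.zero_le _), h.diag]
    norm_num
  | succ k ih =>
    intro hk
    have h1 : (Finset.range (k + 1 + 1)).image f = (Finset.range (k + 1)).image f ∪ {f (k + 1)} := by
      rw [Finset.range_add_one (n := k + 1), Finset.image_insert, Finset.insert_eq, Finset.union_comm]
    have hd : Disjoint ((Finset.range (k + 1)).image f) {f (k + 1)} := by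
      rw [Finset.disjoint_singleton_right, Finset.mem_image]
      rintro ⟨a, ha', hab⟩
      rw [Finset.mem_range] at ha'
      have := inj a (by omega) (k + 1) hk hab
      omega
    rw [h1, Fma_union h c hd]
    have h3 := ih (by omega)
    have h4 : Fma_B g c ((Finset.range (k + 1)).image f) {f (k + 1)} ≤ Fma_B g c {f k} {f (k + 1)} := by
      apply Fma_le h hc hd
      rw [Finset.mem_image]
      exact ⟨k, Finset.mem_range.2 (by omega), rfl⟩
    have h5 : Fma_B g c {f (k + 1)} {f (k + 1)} = 4 := by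
      unfold Fma_B
      rw [Finset.sum_singleton, Finset.sum_singleton, h2 (k + 1) hk, h.diag]
      norm_num
    have h6 : Fma_B g c {f k} {f (k + 1)} ≤ -2 := by
      unfold Fma_B
      rw [Finset.sum_singleton, Finset.sum_singleton, h2 (k + 1) hk, h2 k (by omega)]
      have h7 := h.half (ha k (by omega)).1 (ha k (by omega)).2
      linarith
    linarith

theorem Fma_end (h : Diag g) {x : ι} {L : Finset ι} (hL : End g x L) :
    ∃ w : ℝ, 0 < w ∧ ∀ c : ι → ℝ, c x = 2 → (∀ u ∈ L, c u = w) →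
      Fma_B g c L L + 2 * Fma_B g c {x} L ≤ -2 := by
  rcases hL with ⟨u, u', hne, hm, h1, h2⟩ | ⟨u, hm, hne, h1⟩
  · refine ⟨1, one_pos, fun c hx hc => ?_⟩
    have hLe : L = {u, u'} := by
      ext z
      rw [hm, Finset.mem_insert, Finset.mem_singleton]
    have hcu : c u = 1 := hc u ((hm u).2 (Or.inl rfl))
    have hcu' : c u' = 1 := hc u' ((hm u').2 (Or.inr rfl))
    rw [hLe]
    unfold Fma_B
    rw [Finset.sum_singleton, Finset.sum_pair hne, Finset.sum_pair hne, Finset.sum_pair hne, Finset.sum_pair hne, hx, hcu, hcu',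
      h.diag, h.diag]
    have h3 := h.half h1.1 h1.2
    have h4 := h.half h2.1 h2.2
    have h5 := h.nonpos hne
    have h6 := h.nonpos hne.symm
    linarith
  · refine ⟨√2, by positivity, fun c hx hc => ?_⟩
    have hLe : L = {u} := by
      ext z
      rw [hm, Finset.mem_singleton]
    have hcu : c u = √2 := hc u ((hm u).2 rfl)
    rw [hLe]
    unfold Fma_B
    rw [Finset.sum_singleton, Finset.sum_singleton, Finset.sum_singleton, Finset.sum_singleton, hx, hcu, h.diag]
    have h3 : √2 * √2 = 2 := Real.mul_self_sqrt (by norm_num)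
    have h4 : 0 < √2 := by positivity
    have h5 : √2 * g x u ≤ √2 * (-(√2 / 2)) := mul_le_mul_of_nonneg_left h1 h4.le
    nlinarith

theorem npd_chain (h : Diag g) {f : ℕ → ι} {r : ℕ} {L R : Finset ι}
    (inj : ∀ a ≤ r, ∀ b ≤ r, f a = f b → a = b) (ha : ∀ a < r, adj g (f a) (f (a + 1)))
    (hL : End g (f 0) L) (hR : End g (f r) R) (hd : Disjoint L R)
    (hfL : ∀ a ≤ r, f a ∉ L) (hfR : ∀ a ≤ r, f a ∉ R) :
    ¬ PD g ((Finset.range (r + 1)).image f ∪ L ∪ R) := by
  obtain ⟨wL, hwL, hcL⟩ := Fma_end h hL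
  obtain ⟨wR, hwR, hcR⟩ := Fma_end h hR
  set P : Finset ι := (Finset.range (r + 1)).image f with hP
  have hfP : ∀ a ≤ r, f a ∈ P := fun a ha => Finset.mem_image.2 ⟨a, Finset.mem_range.2 (by omega), rfl⟩
  have hPL : Disjoint P L := by
    rw [Finset.disjoint_left]
    intro z hz
    obtain ⟨a, ha', rfl⟩ := Finset.mem_image.1 hz
    rw [Finset.mem_range] at ha'
    exact hfL a (by omega)
  have hPR : Disjoint P R := by
    rw [Finset.disjoint_left]
    intro z hz
    obtain ⟨a, ha', rfl⟩ := Finset.mem_image.1 hz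
    rw [Finset.mem_range] at ha'
    exact hfR a (by omega)
  set c : ι → ℝ := fun i => if i ∈ P then 2 else if i ∈ L then wL else wR with hcdef
  have hc0 : ∀ i, 0 ≤ c i := by
    intro i
    simp only [hcdef]
    split_ifs
    · norm_num
    · exact hwL.le
    · exact hwR.le
  have hcP : ∀ a ≤ r, c (f a) = 2 := fun a ha => if_pos (hfP a ha)
  have hcL' : ∀ u ∈ L, c u = wL := by
    intro u hu
    have h1 : u ∉ P := (Finset.disjoint_right.1 hPL) hu
    simp only [hcdef]
    rw [if_neg h1, if_pos hu]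
  have hcR' : ∀ u ∈ R, c u = wR := by
    intro u hu
    have h1 : u ∉ P := (Finset.disjoint_right.1 hPR) hu
    have h2 : u ∉ L := (Finset.disjoint_right.1 hd) hu
    simp only [hcdef]
    rw [if_neg h1, if_neg h2]
  have e1 := hcL c (hcP 0 (Nat.zero_le _)) hcL'
  have e2 := hcR c (hcP r le_rfl) hcR'
  have e3 := Fma_chain h hc0 inj ha hcP r le_rfl
  have hPLR : Disjoint (P ∪ L) R := by
    rw [Finset.disjoint_union_left]
    exact ⟨hPR, hd⟩
  have e4 := Fma_le h hc0 hPL (hfP 0 (Nat.zero_le _))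
  have e5 := Fma_le h hc0 hPLR (Finset.mem_union_left L (hfP r le_rfl))
  have e6 := Fma_union h c hPL
  have e7 := Fma_union h c hPLR
  refine npd_of_le c ⟨f 0, ?_, ?_⟩ ?_
  · exact Finset.mem_union_left _ (Finset.mem_union_left _ (hfP 0 (Nat.zero_le _)))
  · rw [hcP 0 (Nat.zero_le _)]
    norm_num
  · have e8 : Fma_B g c (P ∪ L ∪ R) (P ∪ L ∪ R) ≤ 0 := by linarith
    exact e8

end

end MP86a502
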