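import Pool.Agent.Lib.MP_86a502_gt.U.Fmd

set_option autoImplicit false
set_option linter.unusedSectionVars false

/-! # JOB Fmb. Small diagrams and cycles (100-150 lines)

* `npd_star4`: vector `2` at `x`, `√2` at `u` (label at least `4`), `1`, `1` at `v`, `w`:
  `4 + 2 + 1 + 1 - 4 - 2 - 2 ≤ 0` (`Sml_gen` or `npd_of_le`).
* `npd_F4`: path `p, q, r, s, t` with `g q r ≤ -√2/2`: vector `√2, 2√2, 3, 2, 1`:
  squares `2 + 8 + 9 + 4 + 1 = 24`, mixed: `p q`: `4`, `q r`: `2·2√2·3·√2/2 = 12`, `r s`: `6`, `s t`: `2`;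
  `24 - 24 ≤ 0`.
* `cyc_par`: a cycle with all labels `3`: for the vector `1, ..., 1` all rows vanish, so `Q = 0`, against
  `Cox.cpt`. -/

namespace MP86a502

section
variable {ι : Type} [DecidableEq ι] {g : ι → ι → ℝ}

theorem npd_star4 (h : Diag g) {x u v w : ι} (hd : [x, u, v, w].Nodup)
    (hu : g x u ≤ -(√2 / 2)) (hv : adj g x v) (hw : adj g x w) : ¬ PD g {x, u, v, w} := by
  rw [← Sml_im4]
  refine Sml_gen _ (Sml_inj4 hd) ![2, √2, 1, 1] ⟨0, by norm_num⟩ ?_
  simp only [List.nodup_cons, List.mem_cons, List.not_mem_nil, or_false, not_or,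
    not_false_eq_true, List.nodup_nil, and_true] at hd
  obtain ⟨⟨xu, xv, xw⟩, ⟨uv, uw⟩, vw⟩ := hd
  have e2 := h.half hv.1 hv.2
  have e3 := h.half hw.1 hw.2
  have f1 := h.nonpos uv
  have f2 := h.nonpos uw
  have f3 := h.nonpos vw
  have s0 : (0 : ℝ) ≤ √2 := Real.sqrt_nonneg 2
  have s2 : √2 * √2 = (2 : ℝ) := Real.mul_self_sqrt (by norm_num)
  have e1 : √2 * g x u ≤ -1 := by
    have := mul_le_mul_of_nonneg_left hu s0
    linarith
  have f4 : √2 * g u v ≤ 0 := mul_nonpos_of_nonneg_of_nonpos s0 f1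
  have f5 : √2 * g u w ≤ 0 := mul_nonpos_of_nonneg_of_nonpos s0 f2
  simp only [Fin.sum_univ_four, Matrix.cons_val_zero, Matrix.cons_val_one, Matrix.cons_val,
    h.diag, h.symm u x, h.symm v x, h.symm w x, h.symm v u, h.symm w u, h.symm w v]
  linarith

theorem npd_F4 (h : Diag g) {p q r s t : ι} (hd : [p, q, r, s, t].Nodup) (hpq : adj g p q)
    (hqr : g q r ≤ -(√2 / 2)) (hrs : adj g r s) (hst : adj g s t) : ¬ PD g {p, q, r, s, t} := by
  rw [← Sml_im5]
  refine Sml_gen _ (Sml_inj5 hd) ![√2, 2 * √2, 3, 2, 1] ⟨2, by show (3 : ℝ) ≠ 0; norm_num⟩ ?_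
  simp only [List.nodup_cons, List.mem_cons, List.not_mem_nil, or_false, not_or,
    not_false_eq_true, List.nodup_nil, and_true] at hd
  obtain ⟨⟨pq, pr, ps, pt⟩, ⟨qr, qs, qt⟩, ⟨rs, rt⟩, st⟩ := hd
  have e1 := h.half hpq.1 hpq.2
  have e3 := h.half hrs.1 hrs.2
  have e4 := h.half hst.1 hst.2
  have f3 := h.nonpos rt
  have s0 : (0 : ℝ) ≤ √2 := Real.sqrt_nonneg 2
  have s2 : √2 * √2 = (2 : ℝ) := Real.mul_self_sqrt (by norm_num)
  have e2 : √2 * g q r ≤ -1 := by
    have := mul_le_mul_of_nonneg_left hqr s0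
    linarith
  have k1 : √2 * g p r ≤ 0 := mul_nonpos_of_nonneg_of_nonpos s0 (h.nonpos pr)
  have k2 : √2 * g p s ≤ 0 := mul_nonpos_of_nonneg_of_nonpos s0 (h.nonpos ps)
  have k3 : √2 * g p t ≤ 0 := mul_nonpos_of_nonneg_of_nonpos s0 (h.nonpos pt)
  have k4 : √2 * g q s ≤ 0 := mul_nonpos_of_nonneg_of_nonpos s0 (h.nonpos qs)
  have k5 : √2 * g q t ≤ 0 := mul_nonpos_of_nonneg_of_nonpos s0 (h.nonpos qt)
  have k6 : √2 * √2 * g p q = 2 * g p q := by rw [s2]
  simp only [Fin.sum_univ_five, Matrix.cons_val_zero, Matrix.cons_val_one, Matrix.cons_val,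
    h.diag, h.symm q p, h.symm r p, h.symm s p, h.symm t p, h.symm r q,
    h.symm s q, h.symm t q, h.symm s r, h.symm t r, h.symm t s]
  linarith

/-- a row of the matrix of a cycle -/
theorem Fmb_row {k : ℕ} (hk : 3 ≤ k) {G : ℕ → ℕ → ℝ} (hG : ∀ a, G a a = 1)
    (hs : ∀ a b, G a b = G b a)
    (hf : ∀ b < k, ∀ a < b, G a b = if b = a + 1 ∨ (a = 0 ∧ b + 1 = k) then -(1 / 2) else 0)
    {a : ℕ} (ha : a < k) : ∑ b ∈ Finset.range k, G a b = 0 := by
  have key : ∀ b ∈ Finset.range k, G a b = ((if b = a then (1 : ℝ) else 0) +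
      (if b = (if a + 1 = k then 0 else a + 1) then -(1 / 2 : ℝ) else 0)) +
      (if b = (if a = 0 then k - 1 else a - 1) then -(1 / 2 : ℝ) else 0) := by
    intro b hb
    rw [Finset.mem_range] at hb
    rcases lt_trichotomy a b with hab | hab | hab
    · rw [hf b hb a hab]
      split_ifs <;> first | omega | norm_num
    · subst hab
      rw [hG]
      split_ifs <;> first | omega | norm_num
    · rw [hs, hf a ha b hab]
      split_ifs <;> first | omega | norm_num
  rw [Finset.sum_congr rfl key, Finset.sum_add_distrib, Finset.sum_add_distrib,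
    Finset.sum_ite_eq', Finset.sum_ite_eq', Finset.sum_ite_eq']
  have h1 : (if a + 1 = k then 0 else a + 1) ∈ Finset.range k := by
    rw [Finset.mem_range]; split_ifs <;> omega
  have h2 : (if a = 0 then k - 1 else a - 1) ∈ Finset.range k := by
    rw [Finset.mem_range]; split_ifs <;> omega
  rw [if_pos (Finset.mem_range.2 ha), if_pos h1, if_pos h2]
  norm_num

variable [Fintype ι] {n : ℕ}

theorem cyc_par (H : Cox n g) {f : ℕ → ι} {k : ℕ} (hk : 3 ≤ k)
    (inj : ∀ a < k, ∀ b < k, f a = f b → a = b)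
    (hf : ∀ b < k, ∀ a < b, g (f a) (f b) =
      if b = a + 1 ∨ (a = 0 ∧ b + 1 = k) then -(1 / 2) else 0) : False := by
  have hinj : Set.InjOn f (Finset.range k : Set ℕ) := by
    intro a ha b hb hab
    rw [Finset.mem_coe, Finset.mem_range] at ha hb
    exact inj a ha b hb hab
  have row : ∀ i ∈ (Finset.range k).image f, ∑ j ∈ (Finset.range k).image f,
      (fun _ => (1 : ℝ)) j * g i j = 0 := by
    intro i hi
    obtain ⟨a, ha, rfl⟩ := Finset.mem_image.1 hi
    rw [Finset.mem_range] at ha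
    rw [Finset.sum_image hinj]
    simp only [one_mul]
    exact Fmb_row (G := fun a b => g (f a) (f b)) hk (fun a => H.diag _) (fun a b => H.symm _ _)
      hf ha
  have hQ := H.cpt ((Finset.range k).image f) (fun _ => (1 : ℝ)) (fun _ _ => zero_le_one)
    ⟨f 0, Finset.mem_image_of_mem f (Finset.mem_range.2 (by omega)), one_ne_zero⟩
    (fun i hi => le_of_eq (row i hi))
  have hQ0 : ∑ i ∈ (Finset.range k).image f, ∑ j ∈ (Finset.range k).image f,
      (fun _ => (1 : ℝ)) i * (fun _ => (1 : ℝ)) j * g i j = 0 := by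
    refine Finset.sum_eq_zero fun i hi => ?_
    have := row i hi
    simp only [one_mul] at this ⊢
    exact this
  rw [hQ0] at hQ
  exact lt_irrefl _ hQ

end

end MP86a502
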