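import Pool.Agent.Lib.MP_86a502_gt.U.Fmd

set_option autoImplicit false
set_option linter.unusedSectionVars false

/-! # JOB Fmc. `A_k`, `B_k` are positive definite (100-160 lines)

For a vector `c` write `x a = c (f a)` (`a < k`). Sums of squares:
* `A_k` (path `0, ..., k - 1`): `Q = ½ x_0² + ½ x_{k-1}² + ½ ∑_{a+1<k} (x_a - x_{a+1})²`;
* `B_k` (label `4` between `0` and `1`, entry `-√2/2`): `Q = ½ (√2 x_0 - x_1)² +
  ½ ∑_{1 ≤ a, a+1<k} (x_a - x_{a+1})² + ½ x_{k-1}²` for `k ≥ 2`.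
If `Q = 0` then all `x_a = 0`. Suggestion: let `Q_m` be the quadratic form of the first `m` nodes; then
`Q_{m+1} = Q_m + x_m² - x_{m-1} x_m` (the node `m ≥ 2` is only adjacent to `m - 1` among the first `m`
nodes), and by induction `Q_m ≥ ½ x_{m-1}²` and (`Q_m - ½ x_{m-1}² = 0` and `x_{m-1} = 0` imply that all
`x_a = 0`). -/

namespace MP86a502

section
variable {ι : Type} {g : ι → ι → ℝ}

private theorem Fmc_core {k m0 : ℕ} (hm0 : 1 ≤ m0) (G : ℕ → ℕ → ℝ) (hs : ∀ a b, G a b = G b a)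
    (hd : ∀ a, G a a = 1)
    (hG : ∀ m, m0 ≤ m → m < k → ∀ a < m, G a m = if a + 1 = m then -(1 / 2) else 0) (x : ℕ → ℝ)
    (b1 : x (m0 - 1) ^ 2 / 2 ≤ ∑ a ∈ Finset.range m0, ∑ b ∈ Finset.range m0, x a * x b * G a b)
    (b2 : x (m0 - 1) = 0 → ∑ a ∈ Finset.range m0, ∑ b ∈ Finset.range m0, x a * x b * G a b ≤ 0 →
      ∀ a < m0, x a = 0) :
    ∀ m, m0 ≤ m → m ≤ k →
      x (m - 1) ^ 2 / 2 ≤ ∑ a ∈ Finset.range m, ∑ b ∈ Finset.range m, x a * x b * G a b ∧
      (x (m - 1) = 0 → ∑ a ∈ Finset.range m, ∑ b ∈ Finset.range m, x a * x b * G a b ≤ 0 →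
        ∀ a < m, x a = 0) := by
  intro m hm
  induction m, hm using Nat.le_induction with
  | base => exact fun _ => ⟨b1, b2⟩
  | succ m hm IH =>
    intro hmk
    obtain ⟨i1, i2⟩ := IH (by omega)
    have hrow : ∑ a ∈ Finset.range m, x a * x m * G a m = -(1 / 2) * (x (m - 1) * x m) := by
      rw [Finset.sum_eq_single_of_mem (m - 1) (Finset.mem_range.2 (by omega))]
      · rw [hG m hm (by omega) (m - 1) (by omega), if_pos (by omega)]
        ring
      · intro a ha hne
        rw [hG m hm (by omega) a (Finset.mem_range.1 ha), if_neg (by omega)]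
        ring
    have hcol : ∑ b ∈ Finset.range m, x m * x b * G m b = -(1 / 2) * (x (m - 1) * x m) := by
      rw [← hrow]
      refine Finset.sum_congr rfl fun a _ => ?_
      rw [hs m a]
      ring
    have hQ : ∑ a ∈ Finset.range (m + 1), ∑ b ∈ Finset.range (m + 1), x a * x b * G a b =
        (∑ a ∈ Finset.range m, ∑ b ∈ Finset.range m, x a * x b * G a b) + x m ^ 2 - x (m - 1) * x m := by
      rw [Finset.sum_range_succ]
      simp only [Finset.sum_range_succ, Finset.sum_add_distrib]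
      rw [hrow, hcol, hd m]
      ring
    rw [hQ]
    have e : m + 1 - 1 = m := by omega
    rw [e]
    refine ⟨by nlinarith [sq_nonneg (x m - x (m - 1))], fun hx hq => ?_⟩
    rw [hx] at hq
    have h1 : ∑ a ∈ Finset.range m, ∑ b ∈ Finset.range m, x a * x b * G a b ≤ 0 := by linarith
    have h2 : x (m - 1) ^ 2 ≤ 0 := by linarith
    have h3 : x (m - 1) = 0 := by nlinarith [sq_nonneg (x (m - 1))]
    intro a ha
    rcases Nat.lt_succ_iff_lt_or_eq.1 ha with h4 | h4
    · exact i2 h3 h1 a h4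
    · rw [h4]
      exact hx

private theorem Fmc_pd (h : Diag g) {k j l : ℕ} {f : ℕ → ι} {X : Finset ι} (hF : Fm g k j l f X) (m0 : ℕ)
    (hm0 : 1 ≤ m0) (hk : m0 ≤ k)
    (hG : ∀ m, m0 ≤ m → m < k → ∀ a < m, g (f a) (f m) = if a + 1 = m then -(1 / 2) else 0)
    (b1 : ∀ x : ℕ → ℝ, x (m0 - 1) ^ 2 / 2 ≤
      ∑ a ∈ Finset.range m0, ∑ b ∈ Finset.range m0, x a * x b * g (f a) (f b))
    (b2 : ∀ x : ℕ → ℝ, x (m0 - 1) = 0 →
      ∑ a ∈ Finset.range m0, ∑ b ∈ Finset.range m0, x a * x b * g (f a) (f b) ≤ 0 →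
      ∀ a < m0, x a = 0) : PD g X := by
  classical
  have hX : X = (Finset.range k).image f := by
    ext z
    rw [hF.mem z]
    simp only [Finset.mem_image, Finset.mem_range]
  have hinj : Set.InjOn f (Finset.range k : Set ℕ) := by
    intro a ha b hb hab
    exact hF.inj a (Finset.mem_range.1 ha) b (Finset.mem_range.1 hb) hab
  intro c hc
  have hsum : ∑ i ∈ X, ∑ j ∈ X, c i * c j * g i j =
      ∑ a ∈ Finset.range k, ∑ b ∈ Finset.range k, c (f a) * c (f b) * g (f a) (f b) := by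
    rw [hX, Finset.sum_image hinj]
    refine Finset.sum_congr rfl fun a _ => ?_
    rw [Finset.sum_image hinj]
  obtain ⟨c1, c2⟩ := Fmc_core hm0 (fun a b => g (f a) (f b)) (fun a b => h.symm _ _) (fun a => h.diag _) hG
    (fun a => c (f a)) (b1 fun a => c (f a)) (b2 fun a => c (f a)) k hk le_rfl
  rw [hsum]
  by_contra hcon
  push Not at hcon
  obtain ⟨i, hi, hne⟩ := hc
  obtain ⟨a, ha, rfl⟩ := (hF.mem i).1 hi
  have h2 : c (f (k - 1)) ^ 2 / 2 ≤ 0 := le_trans c1 hcon
  have h3 : c (f (k - 1)) = 0 := by nlinarith [sq_nonneg (c (f (k - 1)))]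
  exact hne (c2 h3 hcon a ha)

private theorem Fmc_empty {k j l : ℕ} {f : ℕ → ι} {X : Finset ι} (hF : Fm g k j l f X) (hk : k = 0) : PD g X := by
  rintro c ⟨i, hi, _⟩
  obtain ⟨a, ha, _⟩ := (hF.mem i).1 hi
  omega

private theorem Fmc_ne {k j l : ℕ} {f : ℕ → ι} {X : Finset ι} (hF : Fm g k j l f X) {a b : ℕ} (hb : b < k)
    (ha : a < b) : f a ≠ f b := by
  intro he
  have := hF.inj a (by omega) b hb he
  omega

private theorem Fmc_two (h : Diag g) {i j : ι} (hij : i ≠ j) (hl : lab g i j = 2) : g i j = 0 :=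
  (lab_two h hij).1 hl

private theorem Fmc_three (h : Diag g) {i j : ι} (hij : i ≠ j) (hl : lab g i j = 3) : g i j = -(1 / 2) := by
  rcases lab_spec h hij with h1 | h1 | h1 | h1 | h1 | h1 | h1
  · omega
  · exact h1.2
  all_goals omega

private theorem Fmc_four (h : Diag g) {i j : ι} (hij : i ≠ j) (hl : lab g i j = 4) : g i j = -(√2 / 2) := by
  rcases lab_spec h hij with h1 | h1 | h1 | h1 | h1 | h1 | h1
  · omega
  · omega
  · exact h1.2
  all_goals omega

theorem pd_A (h : Diag g) {k : ℕ} {f : ℕ → ι} {X : Finset ι} (hF : Fm g k 1 3 f X) : PD g X := by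
  rcases Nat.eq_zero_or_pos k with h0 | h0
  · exact Fmc_empty hF h0
  refine Fmc_pd h hF 1 le_rfl h0 ?_ ?_ ?_
  · intro m hm hmk a ha
    have hc := hF.cod m hmk a ha
    have hne := Fmc_ne hF hmk ha
    by_cases h1 : a + 1 = m
    · rw [if_pos h1]
      apply Fmc_three h hne
      rw [hc]
      split_ifs <;> omega
    · rw [if_neg h1]
      apply Fmc_two h hne
      rw [hc]
      split_ifs <;> omega
  · intro x
    simp only [Finset.sum_range_one, h.diag]
    nlinarith [sq_nonneg (x 0)]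
  · intro x hx _ a ha
    obtain rfl : a = 0 := by omega
    exact hx

theorem pd_B (h : Diag g) {k : ℕ} {f : ℕ → ι} {X : Finset ι} (hF : Fm g k 1 4 f X) : PD g X := by
  rcases Nat.lt_or_ge k 2 with h0 | h0
  · rcases Nat.eq_zero_or_pos k with h1 | h1
    · exact Fmc_empty hF h1
    refine Fmc_pd h hF 1 le_rfl h1 ?_ ?_ ?_
    · intro m hm hmk
      omega
    · intro x
      simp only [Finset.sum_range_one, h.diag]
      nlinarith [sq_nonneg (x 0)]
    · intro x hx _ a ha
      obtain rfl : a = 0 := by omega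
      exact hx
  have hc01 := hF.cod 1 (by omega) 0 (by omega)
  simp only [if_true] at hc01
  have hg01 : g (f 0) (f 1) = -(√2 / 2) := Fmc_four h (Fmc_ne hF (by omega) (by omega)) hc01
  have hs2 : √2 * √2 = 2 := Real.mul_self_sqrt (by norm_num)
  have hQ2 : ∀ x : ℕ → ℝ, ∑ a ∈ Finset.range 2, ∑ b ∈ Finset.range 2, x a * x b * g (f a) (f b) =
      x 0 ^ 2 + x 1 ^ 2 - √2 * (x 0 * x 1) := by
    intro x
    simp only [Finset.sum_range_succ, Finset.sum_range_zero, h.diag, h.symm (f 1) (f 0), hg01]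
    ring
  refine Fmc_pd h hF 2 (by norm_num) h0 ?_ ?_ ?_
  · intro m hm hmk a ha
    have hc := hF.cod m hmk a ha
    have hne := Fmc_ne hF hmk ha
    by_cases h1 : a + 1 = m
    · rw [if_pos h1]
      apply Fmc_three h hne
      rw [hc]
      split_ifs <;> omega
    · rw [if_neg h1]
      apply Fmc_two h hne
      rw [hc]
      split_ifs <;> omega
  · intro x
    rw [hQ2]
    show x 1 ^ 2 / 2 ≤ _
    nlinarith [sq_nonneg (√2 * x 0 - x 1)]
  · intro x hx hq a ha
    change x 1 = 0 at hx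
    rw [hQ2, hx] at hq
    have h4 : x 0 = 0 := by nlinarith [sq_nonneg (x 0)]
    interval_cases a
    · exact h4
    · exact hx

end

end MP86a502
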