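import Pool.Agent.Lib.MP_86a502_gt.U.Lcn
import Pool.Agent.Lib.MP_86a502_gt.Sml

set_option autoImplicit false
set_option linter.unusedSectionVars false

/-! # Definitions for the infinite families of diagrams -/

namespace MP86a502

section
variable {ι : Type} {g : ι → ι → ℝ}

/-- `f` identifies `X` with the tree: path `f 1, ..., f (k - 1)` and `f 0` attached to `f j` by an edge
with the label `l`; the other labels are `3`. `j = 1`, `l = 3`: `A_k`; `j = 1`, `l = 4`: `B_k`;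
`j = 2`, `l = 3`: `D_k`; `j = 3`, `l = 3`, `k = 6, 7, 8`: `E_k`. -/
structure Fm (g : ι → ι → ℝ) (k j l : ℕ) (f : ℕ → ι) (X : Finset ι) : Prop where
  inj : ∀ a < k, ∀ b < k, f a = f b → a = b
  mem : ∀ z, z ∈ X ↔ ∃ a < k, f a = z
  cod : ∀ b < k, ∀ a < b, lab g (f a) (f b) =
    if a = 0 then (if b = j then l else 2) else (if b = a + 1 then 3 else 2)

/-- `X` is `A_k`, `B_k`, `D_k` or `E_k`. -/
def FamX (g : ι → ι → ℝ) (k : ℕ) (X : Finset ι) : Prop :=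
  ∃ f, Fm g k 1 3 f X ∨ Fm g k 1 4 f X ∨ Fm g k 2 3 f X ∨ (6 ≤ k ∧ k ≤ 8 ∧ Fm g k 3 3 f X)

/-- `v` is a new node whose only neighbour is `f i`. -/
structure Att (g : ι → ι → ℝ) (k : ℕ) (f : ℕ → ι) (v : ι) (i : ℕ) : Prop where
  hi : i < k
  new : ∀ a < k, f a ≠ v
  ad : adj g v (f i)
  non : ∀ a < k, a ≠ i → g v (f a) = 0

/-- an end of a chain at `x`: two neighbours, or one neighbour with label at least `4` -/
def End (g : ι → ι → ℝ) (x : ι) (L : Finset ι) : Prop :=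
  (∃ u u', u ≠ u' ∧ (∀ z, z ∈ L ↔ z = u ∨ z = u') ∧ adj g x u ∧ adj g x u') ∨
  (∃ u, (∀ z, z ∈ L ↔ z = u) ∧ x ≠ u ∧ g x u ≤ -(√2 / 2))

/-- an end of a chain with exact labels -/
def EndX (g : ι → ι → ℝ) (x : ι) (L : Finset ι) : Prop :=
  (∃ u u', u ≠ u' ∧ (∀ z, z ∈ L ↔ z = u ∨ z = u') ∧ g x u = -(1 / 2) ∧ g x u' = -(1 / 2) ∧
    g u u' = 0) ∨
  (∃ u, (∀ z, z ∈ L ↔ z = u) ∧ g x u = -(√2 / 2))

end

end MP86a502
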