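import Pool.Agent.Lib.MP_86a502_gt.U.Fmd

set_option autoImplicit false
set_option linter.unusedSectionVars false

/-! # JOB Fmj. Parabolic chains (120-180 lines)

The vector is `2` on the chain `f 0, ..., f r`, and on an end `L` it is `1, 1` (two neighbours) or `√2`
(one neighbour). With exact labels and all other entries zero, all rows of the Gram matrix times the
vector are zero (`2 - 1 - 1`, `1 - 1`, `√2 - √2`), so `Q = 0`, against `Cox.cpt` (for the set of all these
facets), which says `Q < 0`. -/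

namespace MP86a502

section
variable {ι : Type} [DecidableEq ι] {g : ι → ι → ℝ}

/-- the weights on an end -/
private theorem Fmj_end (h : Diag g) {x : ι} {L : Finset ι} (hL : EndX g x L) :
    ∃ w : ι → ℝ, (∀ u ∈ L, 0 < w u) ∧ L.Nonempty ∧ ∑ u ∈ L, w u * g x u = -1 ∧
      ∀ u ∈ L, ∑ v ∈ L, w v * g u v + 2 * g x u = 0 := by
  rcases hL with ⟨u, u', hne, hmem, h1, h2, h3⟩ | ⟨u, hmem, h1⟩
  · have hLe : L = {u, u'} := by
      ext z
      rw [hmem z]
      simp
    subst hLe
    refine ⟨fun _ => 1, fun _ _ => one_pos, ⟨u, by simp⟩, ?_, ?_⟩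
    · rw [Finset.sum_pair hne, h1, h2]
      norm_num
    · intro v hv
      rw [Finset.sum_pair hne]
      rw [Finset.mem_insert, Finset.mem_singleton] at hv
      rcases hv with rfl | rfl
      · rw [h.diag, h3, h1]
        norm_num
      · rw [h.diag, h.symm v u, h3, h2]
        norm_num
  · have hLe : L = {u} := by
      ext z
      rw [hmem z]
      simp
    subst hLe
    have hs : √2 * √2 = (2 : ℝ) := Real.mul_self_sqrt (by norm_num)
    refine ⟨fun _ => √2, fun _ _ => by positivity, ⟨u, by simp⟩, ?_, ?_⟩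
    · rw [Finset.sum_singleton, h1]
      linear_combination -(1 / 2) * hs
    · intro v hv
      rw [Finset.mem_singleton] at hv
      subst hv
      rw [Finset.sum_singleton, h.diag, h1]
      ring

/-- the entries of the chain -/
private theorem Fmj_entry (h : Diag g) {f : ℕ → ι} {r : ℕ}
    (hf : ∀ b ≤ r, ∀ a < b, g (f a) (f b) = if b = a + 1 then -(1 / 2) else 0) {a b : ℕ}
    (ha : a ≤ r) (hb : b ≤ r) : g (f a) (f b) =
      (if b = a then 1 else 0) + (if b = a + 1 then -(1 / 2) else 0) + (if a = b + 1 then -(1 / 2) else 0) := by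
  rcases lt_trichotomy a b with h1 | h1 | h1
  · rw [hf b hb a h1, if_neg (show ¬ b = a by omega), if_neg (show ¬ a = b + 1 by omega)]
    ring
  · subst h1
    rw [h.diag, if_pos rfl, if_neg (by omega)]
    ring
  · rw [h.symm, hf a ha b h1, if_neg (show ¬ b = a by omega), if_neg (show ¬ b = a + 1 by omega)]
    ring

private theorem Fmj_row (h : Diag g) {f : ℕ → ι} {r : ℕ}
    (hf : ∀ b ≤ r, ∀ a < b, g (f a) (f b) = if b = a + 1 then -(1 / 2) else 0) {a : ℕ}
    (ha : a ≤ r) : ∑ b ∈ Finset.range (r + 1), 2 * g (f a) (f b) =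
      2 - (if a = r then 0 else 1) - (if a = 0 then 0 else 1) := by
  have h1 : ∑ b ∈ Finset.range (r + 1), 2 * g (f a) (f b) =
      ∑ b ∈ Finset.range (r + 1), ((if b = a then (2 : ℝ) else 0) + (if b = a + 1 then -1 else 0) +
        (if a = b + 1 then -1 else 0)) := by
    refine Finset.sum_congr rfl fun b hb => ?_
    rw [Finset.mem_range] at hb
    rw [Fmj_entry h hf ha (by omega)]
    split_ifs <;> norm_num
  have h2 : ∑ b ∈ Finset.range (r + 1), (if b = a then (2 : ℝ) else 0) = 2 := by
    rw [Finset.sum_ite_eq', if_pos (Finset.mem_range.2 (by omega))]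
  have h3 : ∑ b ∈ Finset.range (r + 1), (if b = a + 1 then (-1 : ℝ) else 0) = -(if a = r then 0 else 1) := by
    rw [Finset.sum_ite_eq']
    by_cases hr : a = r
    · rw [if_pos hr, if_neg (by rw [Finset.mem_range]; omega), neg_zero]
    · rw [if_neg hr, if_pos (by rw [Finset.mem_range]; omega)]
  have h4 : ∑ b ∈ Finset.range (r + 1), (if a = b + 1 then (-1 : ℝ) else 0) = -(if a = 0 then 0 else 1) := by
    rcases Nat.eq_zero_or_pos a with h0 | h0
    · rw [if_pos h0, neg_zero]
      refine Finset.sum_eq_zero fun b _ => ?_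
      rw [if_neg (by omega)]
    · rw [if_neg (by omega)]
      have h5 : ∀ b ∈ Finset.range (r + 1), (if a = b + 1 then (-1 : ℝ) else 0) = if b = a - 1 then -1 else 0 := by
        intro b _
        by_cases hb : a = b + 1
        · rw [if_pos hb, if_pos (by omega)]
        · rw [if_neg hb, if_neg (by omega)]
      rw [Finset.sum_congr rfl h5, Finset.sum_ite_eq', if_pos (Finset.mem_range.2 (by omega))]
  rw [h1, Finset.sum_add_distrib, Finset.sum_add_distrib, h2, h3, h4]
  ring

theorem par_chain [Fintype ι] {n : ℕ} (H : Cox n g) {f : ℕ → ι} {r : ℕ} {L R : Finset ι}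
    (inj : ∀ a ≤ r, ∀ b ≤ r, f a = f b → a = b)
    (hf : ∀ b ≤ r, ∀ a < b, g (f a) (f b) = if b = a + 1 then -(1 / 2) else 0)
    (hL : EndX g (f 0) L) (hR : EndX g (f r) R) (hd : Disjoint L R)
    (hfL : ∀ a ≤ r, f a ∉ L) (hfR : ∀ a ≤ r, f a ∉ R)
    (hL0 : ∀ a ≤ r, a ≠ 0 → ∀ u ∈ L, g (f a) u = 0) (hR0 : ∀ a ≤ r, a ≠ r → ∀ u ∈ R, g (f a) u = 0)
    (hLR : ∀ u ∈ L, ∀ w ∈ R, g u w = 0) : False := by
  have h : Diag g := H.toDiag
  obtain ⟨p, hp, hLn, hp1, hp2⟩ := Fmj_end h hL
  obtain ⟨q, hq, hRn, hq1, hq2⟩ := Fmj_end h hR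
  set F : Finset ι := (Finset.range (r + 1)).image f with hF
  set c : ι → ℝ := fun z => if z ∈ L then p z else if z ∈ R then q z else 2 with hc
  have hmemF : ∀ z, z ∈ F → ∃ a ≤ r, f a = z := by
    intro z hz
    rw [hF, Finset.mem_image] at hz
    obtain ⟨a, ha, he⟩ := hz
    exact ⟨a, by rw [Finset.mem_range] at ha; omega, he⟩
  have hcL : ∀ z ∈ L, c z = p z := fun z hz => by simp only [hc]; rw [if_pos hz]
  have hcR : ∀ z ∈ R, c z = q z := fun z hz => by
    simp only [hc]
    rw [if_neg (fun hz' => Finset.disjoint_left.1 hd hz' hz), if_pos hz]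
  have hcF : ∀ a ≤ r, c (f a) = 2 := fun a ha => by
    simp only [hc]
    rw [if_neg (hfL a ha), if_neg (hfR a ha)]
  have hdF : Disjoint (L ∪ R) F := by
    rw [Finset.disjoint_left]
    intro z hz hz'
    obtain ⟨a, ha, he⟩ := hmemF z hz'
    subst he
    rcases Finset.mem_union.1 hz with h1 | h1
    · exact hfL a ha h1
    · exact hfR a ha h1
  -- the sum over the whole set
  have hsum : ∀ i, ∑ j ∈ (L ∪ R) ∪ F, c j * g i j =
      ∑ j ∈ L, p j * g i j + ∑ j ∈ R, q j * g i j + ∑ b ∈ Finset.range (r + 1), 2 * g i (f b) := by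
    intro i
    rw [Finset.sum_union hdF, Finset.sum_union hd]
    congr 1
    · congr 1
      · exact Finset.sum_congr rfl fun j hj => by rw [hcL j hj]
      · exact Finset.sum_congr rfl fun j hj => by rw [hcR j hj]
    · rw [hF, Finset.sum_image]
      · refine Finset.sum_congr rfl fun b hb => ?_
        rw [Finset.mem_range] at hb
        rw [hcF b (by omega)]
      · intro a ha b hb hab
        rw [Finset.mem_coe, Finset.mem_range] at ha hb
        exact inj a (by omega) b (by omega) hab
  have hrow : ∀ i ∈ (L ∪ R) ∪ F, ∑ j ∈ (L ∪ R) ∪ F, c j * g i j = 0 := by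
    intro i hi
    rw [hsum]
    rcases Finset.mem_union.1 hi with h1 | h1
    · rcases Finset.mem_union.1 h1 with h2 | h2
      · -- `i ∈ L`
        have e1 : ∑ j ∈ R, q j * g i j = 0 := Finset.sum_eq_zero fun j hj => by rw [hLR i h2 j hj, mul_zero]
        have e2 : ∑ b ∈ Finset.range (r + 1), 2 * g i (f b) = 2 * g (f 0) i := by
          rw [Finset.sum_eq_single 0]
          · rw [h.symm]
          · intro b hb hb0
            rw [Finset.mem_range] at hb
            rw [h.symm, hL0 b (by omega) hb0 i h2, mul_zero]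
          · intro h0
            exact absurd (Finset.mem_range.2 (by omega)) h0
        rw [e1, e2]
        linear_combination hp2 i h2
      · have e1 : ∑ j ∈ L, p j * g i j = 0 :=
          Finset.sum_eq_zero fun j hj => by rw [h.symm, hLR j hj i h2, mul_zero]
        have e2 : ∑ b ∈ Finset.range (r + 1), 2 * g i (f b) = 2 * g (f r) i := by
          rw [Finset.sum_eq_single r]
          · rw [h.symm]
          · intro b hb hb0
            rw [Finset.mem_range] at hb
            rw [h.symm, hR0 b (by omega) hb0 i h2, mul_zero]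
          · intro h0
            exact absurd (Finset.mem_range.2 (by omega)) h0
        rw [e1, e2]
        linear_combination hq2 i h2
    · obtain ⟨a, ha, he⟩ := hmemF i h1
      subst he
      have e1 : ∑ j ∈ L, p j * g (f a) j = if a = 0 then -1 else 0 := by
        by_cases h0 : a = 0
        · rw [if_pos h0, h0, hp1]
        · rw [if_neg h0]
          exact Finset.sum_eq_zero fun j hj => by rw [hL0 a ha h0 j hj, mul_zero]
      have e2 : ∑ j ∈ R, q j * g (f a) j = if a = r then -1 else 0 := by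
        by_cases h0 : a = r
        · rw [if_pos h0, h0, hq1]
        · rw [if_neg h0]
          exact Finset.sum_eq_zero fun j hj => by rw [hR0 a ha h0 j hj, mul_zero]
      rw [e1, e2, Fmj_row h hf ha]
      split_ifs <;> norm_num
  have hnn : ∀ i ∈ (L ∪ R) ∪ F, 0 < c i := by
    intro i hi
    rcases Finset.mem_union.1 hi with h1 | h1
    · rcases Finset.mem_union.1 h1 with h2 | h2
      · rw [hcL i h2]
        exact hp i h2
      · rw [hcR i h2]
        exact hq i h2
    · obtain ⟨a, ha, he⟩ := hmemF i h1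
      rw [← he, hcF a ha]
      norm_num
  obtain ⟨u, hu⟩ := hLn
  have huS : u ∈ (L ∪ R) ∪ F := Finset.mem_union_left _ (Finset.mem_union_left _ hu)
  have hQ := H.cpt ((L ∪ R) ∪ F) c (fun i hi => (hnn i hi).le) ⟨u, huS, (hnn u huS).ne'⟩
    (fun i hi => (hrow i hi).le)
  have hQ0 : ∑ i ∈ (L ∪ R) ∪ F, ∑ j ∈ (L ∪ R) ∪ F, c i * c j * g i j = 0 := by
    refine Finset.sum_eq_zero fun i hi => ?_
    rw [← mul_zero (c i), ← hrow i hi, Finset.mul_sum]
    exact Finset.sum_congr rfl fun j _ => by ring
  rw [hQ0] at hQ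
  exact lt_irrefl _ hQ

end

end MP86a502
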