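import Pool.Agent.Lib.MP_86a502_gt.U.Fmd

set_option autoImplicit false
set_option linter.unusedSectionVars false

/-! # JOB Fmk. `E6~`, `E7~`, `E8~` (100-160 lines)

Exact labels; null vectors: arms `(2,2,2)`: centre `3`, arms `2, 1`; arms
`(1,3,3)`: centre `4`, arms `2` and `3, 2, 1`; arms `(1,2,5)`: centre `6`, arms `3`; `4, 2`;
`5, 4, 3, 2, 1`: all rows vanish, so `Q = 0`, against `Cox.cpt`. (They are stated for a function
`f` on `7`, `8`, `9` numbers with a matrix of labels; `lab_spec` gives the values. In `E7t` the centre is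
`f 4`, in `E8t` it is `f 3`, and `f 0` is the arm of length one.) Suggestion: prove one general lemma: for
`f` injective on the numbers `< m`, a vector of natural numbers `w` with `w 0 > 0`, and a symmetric
`0/1` matrix `M` with `2 w a = ∑_b M a b w b` for all `a < m`, and `g (f a) (f b) = -M a b / 2`: `False`. -/

namespace MP86a502

section
variable {ι : Type} [DecidableEq ι] {g : ι → ι → ℝ}

variable [Fintype ι] {n : ℕ}

open Finset in
private theorem Fmk_gen (H : Cox n g) (m : ℕ) (f : ℕ → ι) (inj : ∀ a < m, ∀ b < m, f a = f b → a = b)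
    (P : ℕ → ℕ → Bool) (hf : ∀ b < m, ∀ a < b, lab g (f a) (f b) = if P a b then 3 else 2) (w : ℕ → ℕ)
    (hm : 0 < m) (hw : 0 < w 0)
    (hrow : ∀ a < m, 2 * w a =
      ∑ b ∈ range m, if (decide (a < b) && P a b) || (decide (b < a) && P b a) then w b else 0) : False := by
  have hval : ∀ b < m, ∀ a < b, g (f a) (f b) = if P a b then -(1 / 2 : ℝ) else 0 := by
    intro b hb a ha
    have hne : f a ≠ f b := fun h => absurd (inj a (ha.trans hb) b hb h) ha.ne
    have h1 := hf b hb a ha
    rcases lab_spec H.toDiag hne with h | h | h | h | h | h | h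
    all_goals (rw [h.1] at h1; cases hP : P a b <;> simp [hP] at h1 ⊢)
    · exact h.2
    · rw [h.2]; norm_num
  have hall : ∀ a < m, ∀ b < m, g (f a) (f b) =
      if a = b then 1 else
        (if (decide (a < b) && P a b) || (decide (b < a) && P b a) then -(1 / 2 : ℝ) else 0) := by
    intro a ha b hb
    rcases lt_trichotomy a b with h | h | h
    · rw [hval b hb a h, if_neg h.ne]
      simp [h, not_lt.mpr h.le]
    · subst h
      rw [H.diag, if_pos rfl]
    · rw [H.symm, hval a ha b h, if_neg h.ne']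
      simp [h, not_lt.mpr h.le]
  have hR : ∀ a < m, ∑ b ∈ range m, (w b : ℝ) * g (f a) (f b) = 0 := by
    intro a ha
    have h1 : ∑ b ∈ range m, (w b : ℝ) * g (f a) (f b) =
        ∑ b ∈ range m, ((if a = b then (w b : ℝ) else 0) + (-(1 / 2 : ℝ)) *
          (if (decide (a < b) && P a b) || (decide (b < a) && P b a) then (w b : ℝ) else 0)) := by
      apply Finset.sum_congr rfl
      intro b hb
      rw [hall a ha b (Finset.mem_range.mp hb)]
      by_cases hab : a = b
      · subst hab
        simp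
      · rw [if_neg hab, if_neg hab]
        split_ifs <;> ring
    rw [h1, Finset.sum_add_distrib, ← Finset.mul_sum, Finset.sum_ite_eq, if_pos (Finset.mem_range.mpr ha)]
    have h2 : (2 : ℝ) * (w a : ℝ) = ∑ b ∈ range m,
        (if (decide (a < b) && P a b) || (decide (b < a) && P b a) then (w b : ℝ) else 0) := by
      have h3 := congrArg (fun x : ℕ => (x : ℝ)) (hrow a ha)
      simp only [Nat.cast_mul, Nat.cast_sum, Nat.cast_ite, Nat.cast_ofNat, Nat.cast_zero] at h3
      exact h3
    rw [← h2]
    ring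
  have hinj : ∀ x ∈ range m, ∀ y ∈ range m, f x = f y → x = y := fun x hx y hy =>
    inj x (Finset.mem_range.mp hx) y (Finset.mem_range.mp hy)
  set c : ι → ℝ := fun z => ∑ b ∈ range m, if f b = z then (w b : ℝ) else 0 with hc
  have hcf : ∀ a < m, c (f a) = w a := by
    intro a ha
    rw [hc]
    simp only
    rw [Finset.sum_eq_single a]
    · rw [if_pos rfl]
    · intro b hb hba
      exact if_neg fun h => hba (inj b (Finset.mem_range.mp hb) a ha h)
    · intro h
      exact absurd (Finset.mem_range.mpr ha) h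
  have hc0 : ∀ z, 0 ≤ c z := fun z => Finset.sum_nonneg fun b _ => by
    split_ifs
    · exact Nat.cast_nonneg _
    · exact le_refl _
  have hsum : ∀ i ∈ (range m).image f, ∑ j ∈ (range m).image f, c j * g i j = 0 := by
    intro i hi
    obtain ⟨a, ha, rfl⟩ := Finset.mem_image.mp hi
    rw [Finset.sum_image hinj, ← hR a (Finset.mem_range.mp ha)]
    apply Finset.sum_congr rfl
    intro b hb
    rw [hcf b (Finset.mem_range.mp hb)]
  have hcp := H.cpt ((range m).image f) c (fun i _ => hc0 i)
    ⟨f 0, Finset.mem_image_of_mem f (Finset.mem_range.mpr hm), by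
      rw [hcf 0 hm]; exact_mod_cast hw.ne'⟩ (fun i hi => (hsum i hi).le)
  have hz : ∑ i ∈ (range m).image f, ∑ j ∈ (range m).image f, c i * c j * g i j = 0 := by
    apply Finset.sum_eq_zero
    intro i hi
    have h1 : ∑ j ∈ (range m).image f, c i * c j * g i j = c i * ∑ j ∈ (range m).image f, c j * g i j := by
      rw [Finset.mul_sum]
      exact Finset.sum_congr rfl fun j _ => by ring
    rw [h1, hsum i hi, mul_zero]
  rw [hz] at hcp
  exact lt_irrefl _ hcp

/-- arms `f 1, f 2`; `f 3, f 4`; `f 5, f 6` at the centre `f 0` -/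
theorem E6t (H : Cox n g) {f : ℕ → ι} (inj : ∀ a < 7, ∀ b < 7, f a = f b → a = b)
    (hf : ∀ b < 7, ∀ a < b, lab g (f a) (f b) =
      if (a = 0 ∧ (b = 1 ∨ b = 3 ∨ b = 5)) ∨ (b = a + 1 ∧ (a = 1 ∨ a = 3 ∨ a = 5)) then 3 else 2) :
    False := by
  refine Fmk_gen H 7 f inj
    (fun a b => decide ((a = 0 ∧ (b = 1 ∨ b = 3 ∨ b = 5)) ∨ (b = a + 1 ∧ (a = 1 ∨ a = 3 ∨ a = 5)))) ?_
    (fun a => [3, 2, 1, 2, 1, 2, 1].getD a 0) (by norm_num) (by decide) (by decide)
  intro b hb a ha
  rw [hf b hb a ha]
  simp only [decide_eq_true_eq]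

/-- the tree `Fm` with `k = 8`, `j = 4` -/
theorem E7t (H : Cox n g) {f : ℕ → ι} (inj : ∀ a < 8, ∀ b < 8, f a = f b → a = b)
    (hf : ∀ b < 8, ∀ a < b, lab g (f a) (f b) =
      if a = 0 then (if b = 4 then 3 else 2) else (if b = a + 1 then 3 else 2)) : False := by
  refine Fmk_gen H 8 f inj (fun a b => if a = 0 then decide (b = 4) else decide (b = a + 1)) ?_
    (fun a => [2, 1, 2, 3, 4, 3, 2, 1].getD a 0) (by norm_num) (by decide) (by decide)
  intro b hb a ha
  rw [hf b hb a ha]
  by_cases h : a = 0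
  · simp only [h, if_true, decide_eq_true_eq]
  · simp only [h, if_false, decide_eq_true_eq]

/-- the tree `Fm` with `k = 9`, `j = 3` -/
theorem E8t (H : Cox n g) {f : ℕ → ι} (inj : ∀ a < 9, ∀ b < 9, f a = f b → a = b)
    (hf : ∀ b < 9, ∀ a < b, lab g (f a) (f b) =
      if a = 0 then (if b = 3 then 3 else 2) else (if b = a + 1 then 3 else 2)) : False := by
  refine Fmk_gen H 9 f inj (fun a b => if a = 0 then decide (b = 3) else decide (b = a + 1)) ?_
    (fun a => [3, 2, 4, 6, 5, 4, 3, 2, 1].getD a 0) (by norm_num) (by decide) (by decide)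
  intro b hb a ha
  rw [hf b hb a ha]
  by_cases h : a = 0
  · simp only [h, if_true, decide_eq_true_eq]
  · simp only [h, if_false, decide_eq_true_eq]

end

end MP86a502
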