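import Pool.Agent.Lib.MP_86a502_gt.U.Fma
import Pool.Agent.Lib.MP_86a502_gt.U.Fmb
import Pool.Agent.Lib.MP_86a502_gt.U.Fmj
import Pool.Agent.Lib.MP_86a502_gt.U.Fmk

set_option autoImplicit false
set_option linter.unusedSectionVars false

/-! # JOB Fme. Adding a node to `A_k` (150-220 lines)

Path `f 0, ..., f (k - 1)` (labels `3`), new node `v` attached to `f i` only, `k ≥ 5`; all proper subsets
of `X = insert v Y` (which has `k + 1 ≥ 6` elements) are positive definite. First prove the auxiliary
facts `Fm_rev` (reversal of `A_k`) and `Fm_pre` (new tree, `v` first). By reversal assume `2 i ≤ k - 1`.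
The label `l = lab g v (f i)` is `3, ..., 7` (a pair is a proper subset).
* `i = 0`: `l = 3`: `A_{k+1}`, `l = 4`: `B_{k+1}` (in both cases the new function is `v, f 0, f 1, ...`);
  `l ≥ 5`: `s_5333` (in `Sml.lean`; `big`) for `v, f 0, f 1, f 2, f 3`: five nodes, a proper subset.
* `i ≥ 1`, `l ≥ 4`: `npd_star4` for `f i; v, f (i-1), f (i+1)` (a proper subset).
* `i = 1`, `l = 3`: `D_{k+1}`: `Fm g (k + 1) 2 3`. In general for `l = 3` the new function `v, f 0, f 1, ...`
  gives `Fm g (k + 1) (i + 1) 3`.
* `i = 2`, `l = 3`: `Fm g (k + 1) 3 3`: for `k + 1 ≤ 8` this is `E_{k+1}`; for `k + 1 ≥ 9` the first nine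
  nodes contradict `E8t`.
* `i ≥ 3`, `l = 3`: `k - 1 - i ≥ i ≥ 3`: the nodes `v, f (i-3), ..., f (i+3)` contradict `E7t`. -/

namespace MP86a502

section
variable {ι : Type} [Fintype ι] [DecidableEq ι] {n : ℕ} {g : ι → ι → ℝ}

theorem Fme_card {k j l : ℕ} {f : ℕ → ι} {Y : Finset ι} (F : Fm g k j l f Y) : Y.card = k := by
  have e : Y = (Finset.range k).image f := by
    ext z
    rw [F.mem z, Finset.mem_image]
    simp only [Finset.mem_range]
  rw [e, Finset.card_image_of_injOn, Finset.card_range]
  intro a ha b hb hab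
  exact F.inj a (by simpa using ha) b (by simpa using hb) hab

theorem Fme_lt {k j l : ℕ} {f : ℕ → ι} {Y : Finset ι} {v : ι} {i : ℕ} (F : Fm g k j l f Y)
    (A : Att g k f v i) (hp : ∀ Z ⊂ insert v Y, PD g Z) {Z : Finset ι} (hZ : Z ⊆ insert v Y)
    (hc : Z.card ≤ k) : PD g Z := by
  refine hp Z ?_
  rw [Finset.ssubset_iff_subset_ne]
  refine ⟨hZ, fun he => ?_⟩
  have hv : v ∉ Y := by
    intro hv
    obtain ⟨a, ha, h⟩ := (F.mem v).1 hv
    exact A.new a ha h
  rw [he, Finset.card_insert_of_notMem hv, Fme_card F] at hc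
  omega

theorem Fme_mem {k j l : ℕ} {f : ℕ → ι} {Y : Finset ι} {v : ι} (F : Fm g k j l f Y) {a : ℕ}
    (ha : a < k) : f a ∈ insert v Y :=
  Finset.mem_insert_of_mem ((F.mem _).2 ⟨a, ha, rfl⟩)

theorem Fme_le4 (h : Diag g) {x y : ι} (hxy : x ≠ y) (hl : 4 ≤ lab g x y) : g x y ≤ -(√2 / 2) := by
  have s2 : √2 ^ 2 = 2 := Real.sq_sqrt (by norm_num)
  have s5 : √5 ^ 2 = 5 := Real.sq_sqrt (by norm_num)
  have s3 : √3 ^ 2 = 3 := Real.sq_sqrt (by norm_num)
  have p2 := Real.sqrt_nonneg 2
  have p5 := Real.sqrt_nonneg 5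
  have p3 := Real.sqrt_nonneg 3
  have b2 : √2 ≤ 1.5 := by nlinarith
  have b5 : 2 ≤ √5 := by nlinarith
  have b3 : 1.5 ≤ √3 := by nlinarith
  rcases lab_spec h hxy with h | h | h | h | h | h | h
  · omega
  · omega
  · exact h.2.le
  · rw [h.2]; linarith
  · rw [h.2]; linarith
  · linarith [h.2.1]
  · linarith [h.2]

theorem Fme_big (h : Diag g) {x y : ι} (hxy : x ≠ y) (hl : 5 ≤ lab g x y) : big g x y := by
  refine ⟨hxy, ?_⟩
  have s5 : √5 ^ 2 = 5 := Real.sq_sqrt (by norm_num)
  have s3 : √3 ^ 2 = 3 := Real.sq_sqrt (by norm_num)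
  have p5 := Real.sqrt_nonneg 5
  have p3 := Real.sqrt_nonneg 3
  have b5 : 2.2 ≤ √5 := by nlinarith
  have b3 : 1.6 ≤ √3 := by nlinarith
  rcases lab_spec h hxy with h | h | h | h | h | h | h
  · omega
  · omega
  · omega
  · rw [h.2]; linarith
  · rw [h.2]; linarith
  · linarith [h.2.1]
  · linarith [h.2]

/-- the labels of a new edge -/
theorem Fme_lab (h : Diag g) {k j l : ℕ} {f : ℕ → ι} {Y : Finset ι} {v : ι} {i : ℕ}
    (hk : 2 ≤ k) (F : Fm g k j l f Y) (A : Att g k f v i) (hp : ∀ Z ⊂ insert v Y, PD g Z) :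
    3 ≤ lab g v (f i) ∧ lab g v (f i) ≤ 7 := by
  have h1 := (lab_adj h).1 A.ad
  have h2 := lab_rng h h1.1
  have h3 : PD g {v, f i} := by
    refine Fme_lt F A hp ?_ ?_
    · intro z hz
      rw [Finset.mem_insert, Finset.mem_singleton] at hz
      rcases hz with rfl | rfl
      · exact Finset.mem_insert_self _ _
      · exact Fme_mem F A.hi
    · exact (Finset.card_le_two).trans hk
  rw [pd_lab h h1.1] at h3
  exact ⟨by omega, h3⟩

/-- reversal of a path with labels `3` -/
theorem Fm_rev (h : Diag g) {k : ℕ} {f : ℕ → ι} {Y : Finset ι} (F : Fm g k 1 3 f Y) :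
    Fm g k 1 3 (fun a => f (k - 1 - a)) Y := by
  refine ⟨?_, ?_, ?_⟩
  · intro a ha b hb hab
    have := F.inj (k - 1 - a) (by omega) (k - 1 - b) (by omega) hab
    omega
  · intro z
    rw [F.mem z]
    constructor
    · rintro ⟨a, ha, rfl⟩
      exact ⟨k - 1 - a, by omega, by congr 1; omega⟩
    · rintro ⟨a, ha, rfl⟩
      exact ⟨k - 1 - a, by omega, rfl⟩
  · intro b hb a hab
    show lab g (f (k - 1 - a)) (f (k - 1 - b)) = _
    rw [lab_comm h, F.cod (k - 1 - a) (by omega) (k - 1 - b) (by omega)]
    split_ifs <;> omega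

/-- the new node first -/
theorem Fm_pre (h : Diag g) {k : ℕ} {f : ℕ → ι} {Y : Finset ι} {v : ι} {i l : ℕ}
    (F : Fm g k 1 3 f Y) (A : Att g k f v i) (hl : lab g v (f i) = l) :
    Fm g (k + 1) (i + 1) l (fun a => if a = 0 then v else f (a - 1)) (insert v Y) := by
  refine ⟨?_, ?_, ?_⟩
  · intro a ha b hb hab
    by_cases ha0 : a = 0
    · by_cases hb0 : b = 0
      · omega
      · simp only [ha0, hb0, if_true, if_false] at hab
        exact absurd hab.symm (A.new (b - 1) (by omega))
    · by_cases hb0 : b = 0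
      · simp only [ha0, hb0, if_true, if_false] at hab
        exact absurd hab (A.new (a - 1) (by omega))
      · simp only [ha0, hb0, if_false] at hab
        have := F.inj (a - 1) (by omega) (b - 1) (by omega) hab
        omega
  · intro z
    rw [Finset.mem_insert, F.mem z]
    constructor
    · rintro (rfl | ⟨a, ha, rfl⟩)
      · exact ⟨0, by omega, by simp⟩
      · exact ⟨a + 1, by omega, by simp⟩
    · rintro ⟨a, ha, rfl⟩
      by_cases ha0 : a = 0
      · left; simp [ha0]
      · right
        exact ⟨a - 1, by omega, by simp [ha0]⟩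
  · intro b hb a hab
    have hb0 : b ≠ 0 := by omega
    by_cases ha0 : a = 0
    · simp only [ha0, hb0, if_true, if_false]
      by_cases hbi : b = i + 1
      · subst hbi
        simpa using hl
      · rw [if_neg hbi]
        exact (lab_two h (A.new (b - 1) (by omega)).symm).2 (A.non (b - 1) (by omega) (by omega))
    · simp only [ha0, hb0, if_false]
      rw [F.cod (b - 1) (by omega) (a - 1) (by omega)]
      split_ifs <;> omega

theorem Fme_revAtt {k : ℕ} {f : ℕ → ι} {v : ι} {i : ℕ} (A : Att g k f v i) :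
    Att g k (fun a => f (k - 1 - a)) v (k - 1 - i) := by
  have := A.hi
  refine ⟨by omega, fun a ha => A.new _ (by omega), ?_, ?_⟩
  · have e : k - 1 - (k - 1 - i) = i := by omega
    show adj g v (f (k - 1 - (k - 1 - i)))
    rw [e]
    exact A.ad
  · intro a ha hai
    exact A.non _ (by omega) (by omega)

theorem Fme_main (H : CoxH n g) {k : ℕ} (hk : 5 ≤ k) {f : ℕ → ι} {Y : Finset ι} {v : ι} {i : ℕ}
    (F : Fm g k 1 3 f Y) (A : Att g k f v i) (hp : ∀ Z ⊂ insert v Y, PD g Z)
    (hi : 2 * i ≤ k - 1) : FamX g (k + 1) (insert v Y) := by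
  have hD : Diag g := H.toCox.toDiag
  obtain ⟨l3, l7⟩ := Fme_lab hD (by omega) F A hp
  have hne : ∀ a < k, ∀ b < k, a ≠ b → f a ≠ f b := fun a ha b hb hab he =>
    hab (F.inj a ha b hb he)
  have hadj : ∀ a, a + 1 < k → adj g (f a) (f (a + 1)) := by
    intro a ha
    rw [lab_adj hD]
    refine ⟨hne _ (by omega) _ ha (by omega), ?_⟩
    rw [F.cod (a + 1) ha a (by omega)]
    split_ifs <;> omega
  have hvm : v ∈ insert v Y := Finset.mem_insert_self _ _
  rcases Nat.eq_zero_or_pos i with h0 | h0
  · subst h0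
    by_cases h3 : lab g v (f 0) = 3
    · exact ⟨_, Or.inl (Fm_pre hD F A h3)⟩
    by_cases h4 : lab g v (f 0) = 4
    · exact ⟨_, Or.inr (Or.inl (Fm_pre hD F A h4))⟩
    exfalso
    have hb : big g v (f 0) := Fme_big hD A.ad.1 (by omega)
    refine s_5333 hD hb (hadj 0 (by omega)) (hadj 1 (by omega)) (hadj 2 (by omega)) ?_ ?_
    · have n0 := A.new 0 (by omega)
      have n1 := A.new 1 (by omega)
      have n2 := A.new 2 (by omega)
      have n3 := A.new 3 (by omega)
      simp [n0.symm, n1.symm, n2.symm, n3.symm, hne 0 (by omega) 1 (by omega) (by omega),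
        hne 0 (by omega) 2 (by omega) (by omega), hne 0 (by omega) 3 (by omega) (by omega),
        hne 1 (by omega) 2 (by omega) (by omega), hne 1 (by omega) 3 (by omega) (by omega),
        hne 2 (by omega) 3 (by omega) (by omega)]
    · refine Fme_lt F A hp ?_ ((Finset.card_le_five).trans hk)
      intro z hz
      simp only [Finset.mem_insert, Finset.mem_singleton] at hz
      rcases hz with rfl | rfl | rfl | rfl | rfl
      · exact hvm
      all_goals exact Fme_mem F (by omega)
  · have hik : i + 1 < k := by omega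
    have hl3 : lab g v (f i) = 3 := by
      by_contra hne3
      have h4 : 4 ≤ lab g v (f i) := by omega
      have hg := Fme_le4 hD A.ad.1 h4
      rw [hD.symm] at hg
      have a1 : adj g (f i) (f (i - 1)) := by
        have := hadj (i - 1) (by omega)
        rw [show i - 1 + 1 = i by omega] at this
        exact (hD.adj_comm).1 this
      refine npd_star4 hD ?_ hg a1 (hadj i hik) ?_
      · have n0 := A.new i A.hi
        have n1 := A.new (i - 1) (by omega)
        have n2 := A.new (i + 1) hik
        simp [n0, n1.symm, n2.symm, hne i A.hi (i - 1) (by omega) (by omega),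
          hne i A.hi (i + 1) hik (by omega), hne (i - 1) (by omega) (i + 1) hik (by omega)]
      · refine Fme_lt F A hp ?_ ((Finset.card_le_four).trans (by omega))
        intro z hz
        simp only [Finset.mem_insert, Finset.mem_singleton] at hz
        rcases hz with rfl | rfl | rfl | rfl
        · exact Fme_mem F A.hi
        · exact hvm
        · exact Fme_mem F (by omega)
        · exact Fme_mem F hik
    have FF := Fm_pre hD F A hl3
    by_cases h1 : i = 1
    · subst h1
      exact ⟨_, Or.inr (Or.inr (Or.inl FF))⟩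
    by_cases h2 : i = 2
    · subst h2
      by_cases h8 : k + 1 ≤ 8
      · exact ⟨_, Or.inr (Or.inr (Or.inr ⟨by omega, h8, FF⟩))⟩
      · exfalso
        refine E8t H.toCox (f := fun a => if a = 0 then v else f (a - 1)) ?_ ?_
        · intro a ha b hb hab
          exact FF.inj a (by omega) b (by omega) hab
        · intro b hb a hab
          exact FF.cod b (by omega) a hab
    · exfalso
      have hi3 : 3 ≤ i := by omega
      have hk3 : i + 3 < k := by omega
      refine E7t H.toCox (f := fun a => if a = 0 then v else f (i + a - 4)) ?_ ?_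
      · intro a ha b hb hab
        by_cases ha0 : a = 0
        · by_cases hb0 : b = 0
          · omega
          · simp only [ha0, hb0, if_true, if_false] at hab
            exact absurd hab.symm (A.new _ (by omega))
        · by_cases hb0 : b = 0
          · simp only [ha0, hb0, if_true, if_false] at hab
            exact absurd hab (A.new _ (by omega))
          · simp only [ha0, hb0, if_false] at hab
            have := F.inj _ (by omega) _ (by omega) hab
            omega
      · intro b hb a hab
        have hb0 : b ≠ 0 := by omega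
        by_cases ha0 : a = 0
        · simp only [ha0, hb0, if_true, if_false]
          by_cases hbi : b = 4
          · subst hbi
            rw [if_pos rfl, show i + 4 - 4 = i by omega]
            exact hl3
          · rw [if_neg hbi]
            exact (lab_two hD (A.new _ (by omega)).symm).2 (A.non _ (by omega) (by omega))
        · simp only [ha0, hb0, if_false]
          rw [F.cod (i + b - 4) (by omega) (i + a - 4) (by omega)]
          split_ifs <;> omega

theorem step_A (H : CoxH n g) {k : ℕ} (hk : 5 ≤ k) {f : ℕ → ι} {Y : Finset ι} {v : ι} {i : ℕ}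
    (F : Fm g k 1 3 f Y) (A : Att g k f v i) (hp : ∀ Z ⊂ insert v Y, PD g Z) :
    FamX g (k + 1) (insert v Y) := by
  by_cases hi : 2 * i ≤ k - 1
  · exact Fme_main H hk F A hp hi
  · exact Fme_main H hk (Fm_rev H.toCox.toDiag F) (Fme_revAtt A) hp (by omega)

end

end MP86a502
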