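import Pool.Agent.Lib.MP_86a502_gt.U.Fma
import Pool.Agent.Lib.MP_86a502_gt.U.Fmb
import Pool.Agent.Lib.MP_86a502_gt.U.Fmj
import Pool.Agent.Lib.MP_86a502_gt.U.Fmk

set_option autoImplicit false
set_option linter.unusedSectionVars false

/-! # JOB Fmf. Adding a node to `B_k` (120-180 lines)

Path `f 0, ..., f (k - 1)`, label `4` between `f 0` and `f 1`, `3` otherwise; `v` attached to `f i` only,
`k ≥ 5`; all proper subsets of `X = insert v Y` are positive definite. `l = lab g v (f i) ∈ {3, ..., 7}`.
* `Fm_app`: appending a node with label `3` at the end `f (k - 1)` (general `j ≤ k - 1`).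
* `i = k - 1`: `l = 3`: `B_{k+1}` (`Fm_app`); `l = 4`: `par_chain` for the chain `f 1, ..., f (k-1)`,
  `L = {f 0}`, `R = {v}` (exact labels); `l ≥ 5`: `s_5333` for `v, f (k-1), f (k-2), f (k-3), f (k-4)`
  (`k - 4 ≥ 1`; a proper subset).
* `i = 0`: `npd_F4` for `v, f 0, f 1, f 2, f 3` (a proper subset).
* `1 ≤ i ≤ k - 2`: `l ≥ 4`: `npd_star4` for `f i; v, f (i-1), f (i+1)`; `l = 3`: `par_chain` for the chain
  `f 1, ..., f i`, `L = {f 0}`, `R = {v, f (i+1)}` (if `i = 1` the chain has one node). -/

namespace MP86a502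

section
variable {ι : Type} [Fintype ι] [DecidableEq ι] {n : ℕ} {g : ι → ι → ℝ}

theorem Fmf_card {k j l : ℕ} {f : ℕ → ι} {Y : Finset ι} (F : Fm g k j l f Y) : Y.card = k := by
  have e : Y = (Finset.range k).image f := by
    ext z
    rw [F.mem z, Finset.mem_image]
    simp only [Finset.mem_range]
  rw [e, Finset.card_image_of_injOn, Finset.card_range]
  intro a ha b hb hab
  exact F.inj a (by simpa using ha) b (by simpa using hb) hab

theorem Fmf_lt {k j l : ℕ} {f : ℕ → ι} {Y : Finset ι} {v : ι} {i : ℕ} (F : Fm g k j l f Y)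
    (A : Att g k f v i) (hp : ∀ Z ⊂ insert v Y, PD g Z) {Z : Finset ι} (hZ : Z ⊆ insert v Y)
    (hc : Z.card ≤ k) : PD g Z := by
  refine hp Z ?_
  rw [Finset.ssubset_iff_subset_ne]
  refine ⟨hZ, fun he => ?_⟩
  have hv : v ∉ Y := by
    intro hv
    obtain ⟨a, ha, h⟩ := (F.mem v).1 hv
    exact A.new a ha h
  rw [he, Finset.card_insert_of_notMem hv, Fmf_card F] at hc
  omega

theorem Fmf_mem {k j l : ℕ} {f : ℕ → ι} {Y : Finset ι} {v : ι} (F : Fm g k j l f Y) {a : ℕ}
    (ha : a < k) : f a ∈ insert v Y :=
  Finset.mem_insert_of_mem ((F.mem _).2 ⟨a, ha, rfl⟩)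

theorem Fmf_le4 (h : Diag g) {x y : ι} (hxy : x ≠ y) (hl : 4 ≤ lab g x y) : g x y ≤ -(√2 / 2) := by
  have s2 : √2 ^ 2 = 2 := Real.sq_sqrt (by norm_num)
  have s5 : √5 ^ 2 = 5 := Real.sq_sqrt (by norm_num)
  have s3 : √3 ^ 2 = 3 := Real.sq_sqrt (by norm_num)
  have p2 := Real.sqrt_nonneg 2
  have p5 := Real.sqrt_nonneg 5
  have p3 := Real.sqrt_nonneg 3
  have b2 : √2 ≤ 1.5 := by nlinarith
  have b5 : 2 ≤ √5 := by nlinarith
  have b3 : 1.5 ≤ √3 := by nlinarith
  rcases lab_spec h hxy with h | h | h | h | h | h | h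
  · omega
  · omega
  · exact h.2.le
  · rw [h.2]; linarith
  · rw [h.2]; linarith
  · linarith [h.2.1]
  · linarith [h.2]

theorem Fmf_big (h : Diag g) {x y : ι} (hxy : x ≠ y) (hl : 5 ≤ lab g x y) : big g x y := by
  refine ⟨hxy, ?_⟩
  have s5 : √5 ^ 2 = 5 := Real.sq_sqrt (by norm_num)
  have s3 : √3 ^ 2 = 3 := Real.sq_sqrt (by norm_num)
  have p5 := Real.sqrt_nonneg 5
  have p3 := Real.sqrt_nonneg 3
  have b5 : 2.2 ≤ √5 := by nlinarith
  have b3 : 1.6 ≤ √3 := by nlinarith
  rcases lab_spec h hxy with h | h | h | h | h | h | h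
  · omega
  · omega
  · omega
  · rw [h.2]; linarith
  · rw [h.2]; linarith
  · linarith [h.2.1]
  · linarith [h.2]

theorem Fmf_val2 (h : Diag g) {x y : ι} (hxy : x ≠ y) (hl : lab g x y = 2) : g x y = 0 :=
  (lab_two h hxy).1 hl

theorem Fmf_val3 (h : Diag g) {x y : ι} (hxy : x ≠ y) (hl : lab g x y = 3) :
    g x y = -(1 / 2) := by
  rcases lab_spec h hxy with h | h | h | h | h | h | h
  · omega
  · exact h.2
  all_goals omega

theorem Fmf_val4 (h : Diag g) {x y : ι} (hxy : x ≠ y) (hl : lab g x y = 4) :
    g x y = -(√2 / 2) := by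
  rcases lab_spec h hxy with h | h | h | h | h | h | h
  · omega
  · omega
  · exact h.2
  all_goals omega

/-- the labels of a new edge -/
theorem Fmf_lab (h : Diag g) {k j l : ℕ} {f : ℕ → ι} {Y : Finset ι} {v : ι} {i : ℕ}
    (hk : 2 ≤ k) (F : Fm g k j l f Y) (A : Att g k f v i) (hp : ∀ Z ⊂ insert v Y, PD g Z) :
    3 ≤ lab g v (f i) ∧ lab g v (f i) ≤ 7 := by
  have h1 := (lab_adj h).1 A.ad
  have h2 := lab_rng h h1.1
  have h3 : PD g {v, f i} := by
    refine Fmf_lt F A hp ?_ ?_
    · intro z hz
      rw [Finset.mem_insert, Finset.mem_singleton] at hz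
      rcases hz with rfl | rfl
      · exact Finset.mem_insert_self _ _
      · exact Fmf_mem F A.hi
    · exact (Finset.card_le_two).trans hk
  rw [pd_lab h h1.1] at h3
  exact ⟨by omega, h3⟩

theorem Fmf_ne {k j l : ℕ} {f : ℕ → ι} {Y : Finset ι} (F : Fm g k j l f Y) :
    ∀ a < k, ∀ b < k, a ≠ b → f a ≠ f b := fun a ha b hb hab he =>
  hab (F.inj a ha b hb he)

/-- the values along the path `f 1, ..., f (k - 1)` -/
theorem Fmf_path (h : Diag g) {k j l : ℕ} {f : ℕ → ι} {Y : Finset ι} (F : Fm g k j l f Y) {a b : ℕ}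
    (ha : 0 < a) (hab : a < b) (hb : b < k) :
    g (f a) (f b) = if b = a + 1 then -(1 / 2) else 0 := by
  have hn := Fmf_ne F a (by omega) b hb (by omega)
  have hc := F.cod b hb a hab
  rw [if_neg (by omega)] at hc
  split_ifs with hba
  · rw [if_pos hba] at hc
    exact Fmf_val3 h hn hc
  · rw [if_neg hba] at hc
    exact Fmf_val2 h hn hc

/-- adjacency along the path `f 1, ..., f (k - 1)` -/
theorem Fmf_adj (h : Diag g) {k j l : ℕ} {f : ℕ → ι} {Y : Finset ι} (F : Fm g k j l f Y) {a : ℕ}
    (ha : 0 < a) (hak : a + 1 < k) : adj g (f a) (f (a + 1)) := by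
  refine ⟨Fmf_ne F _ (by omega) _ hak (by omega), ?_⟩
  rw [Fmf_path h F ha (by omega) hak, if_pos rfl]
  norm_num

/-- the values at `f 0` -/
theorem Fmf_zero (h : Diag g) {k j l : ℕ} {f : ℕ → ι} {Y : Finset ι} (F : Fm g k j l f Y) {b : ℕ}
    (hb : 0 < b) (hbj : b ≠ j) (hbk : b < k) : g (f 0) (f b) = 0 := by
  have hn := Fmf_ne F 0 (by omega) b hbk (by omega)
  have hc := F.cod b hbk 0 hb
  rw [if_pos rfl, if_neg hbj] at hc
  exact Fmf_val2 h hn hc

/-- large labels at an inner node -/
theorem Fmf_star (h : Diag g) {k j l : ℕ} (hk : 5 ≤ k) {f : ℕ → ι} {Y : Finset ι} {v : ι} {i : ℕ}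
    (F : Fm g k j l f Y) (A : Att g k f v i) (hp : ∀ Z ⊂ insert v Y, PD g Z) (hi : 0 < i)
    (hik : i + 1 < k) (ha : adj g (f (i - 1)) (f i)) : lab g v (f i) ≤ 3 := by
  by_contra hne3
  have h4 : 4 ≤ lab g v (f i) := by omega
  have hg := Fmf_le4 h A.ad.1 h4
  rw [h.symm] at hg
  refine npd_star4 h ?_ hg ((h.adj_comm).1 ha) (Fmf_adj h F hi hik) ?_
  · have n0 := A.new i A.hi
    have n1 := A.new (i - 1) (by omega)
    have n2 := A.new (i + 1) hik
    have hne := Fmf_ne F
    simp [n0, n1.symm, n2.symm, hne i A.hi (i - 1) (by omega) (by omega),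
      hne i A.hi (i + 1) hik (by omega), hne (i - 1) (by omega) (i + 1) hik (by omega)]
  · refine Fmf_lt F A hp ?_ ((Finset.card_le_four).trans (by omega))
    intro z hz
    simp only [Finset.mem_insert, Finset.mem_singleton] at hz
    rcases hz with rfl | rfl | rfl | rfl
    · exact Fmf_mem F A.hi
    · exact Finset.mem_insert_self _ _
    · exact Fmf_mem F (by omega)
    · exact Fmf_mem F hik

/-- large labels at the end -/
theorem Fmf_end (h : Diag g) {k j l : ℕ} (hk : 5 ≤ k) {f : ℕ → ι} {Y : Finset ι} {v : ι}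
    (F : Fm g k j l f Y) (A : Att g k f v (k - 1)) (hp : ∀ Z ⊂ insert v Y, PD g Z) :
    lab g v (f (k - 1)) ≤ 4 := by
  by_contra hne4
  have hb : big g v (f (k - 1)) := Fmf_big h A.ad.1 (by omega)
  have hne := Fmf_ne F
  have a1 : adj g (f (k - 1)) (f (k - 2)) := by
    have := Fmf_adj h F (a := k - 2) (by omega) (by omega)
    rw [show k - 2 + 1 = k - 1 by omega] at this
    exact (h.adj_comm).1 this
  have a2 : adj g (f (k - 2)) (f (k - 3)) := by
    have := Fmf_adj h F (a := k - 3) (by omega) (by omega)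
    rw [show k - 3 + 1 = k - 2 by omega] at this
    exact (h.adj_comm).1 this
  have a3 : adj g (f (k - 3)) (f (k - 4)) := by
    have := Fmf_adj h F (a := k - 4) (by omega) (by omega)
    rw [show k - 4 + 1 = k - 3 by omega] at this
    exact (h.adj_comm).1 this
  refine s_5333 h hb a1 a2 a3 ?_ ?_
  · have n0 := A.new (k - 1) (by omega)
    have n1 := A.new (k - 2) (by omega)
    have n2 := A.new (k - 3) (by omega)
    have n3 := A.new (k - 4) (by omega)
    simp [n0.symm, n1.symm, n2.symm, n3.symm,
      hne (k - 1) (by omega) (k - 2) (by omega) (by omega),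
      hne (k - 1) (by omega) (k - 3) (by omega) (by omega),
      hne (k - 1) (by omega) (k - 4) (by omega) (by omega),
      hne (k - 2) (by omega) (k - 3) (by omega) (by omega),
      hne (k - 2) (by omega) (k - 4) (by omega) (by omega),
      hne (k - 3) (by omega) (k - 4) (by omega) (by omega)]
  · refine Fmf_lt F A hp ?_ ((Finset.card_le_five).trans hk)
    intro z hz
    simp only [Finset.mem_insert, Finset.mem_singleton] at hz
    rcases hz with rfl | rfl | rfl | rfl | rfl
    · exact Finset.mem_insert_self _ _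
    all_goals exact Fmf_mem F (by omega)

/-- a new node at the end of the path, with label `3` -/
theorem Fm_app (h : Diag g) {k j l : ℕ} (hk : 3 ≤ k) (hj : j < k) {f : ℕ → ι} {Y : Finset ι} {v : ι}
    (F : Fm g k j l f Y) (A : Att g k f v (k - 1)) (hl : lab g v (f (k - 1)) = 3) :
    Fm g (k + 1) j l (fun a => if a = k then v else f a) (insert v Y) := by
  refine ⟨?_, ?_, ?_⟩
  · intro a ha b hb hab
    by_cases ha0 : a = k
    · by_cases hb0 : b = k
      · omega
      · simp only [ha0, hb0, if_true, if_false] at hab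
        exact absurd hab.symm (A.new b (by omega))
    · by_cases hb0 : b = k
      · simp only [ha0, hb0, if_true, if_false] at hab
        exact absurd hab (A.new a (by omega))
      · simp only [ha0, hb0, if_false] at hab
        exact F.inj a (by omega) b (by omega) hab
  · intro z
    rw [Finset.mem_insert, F.mem z]
    constructor
    · rintro (rfl | ⟨a, ha, rfl⟩)
      · exact ⟨k, by omega, by simp⟩
      · exact ⟨a, by omega, by simp [ha.ne]⟩
    · rintro ⟨a, ha, rfl⟩
      by_cases ha0 : a = k
      · left; simp [ha0]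
      · right
        exact ⟨a, by omega, by simp [ha0]⟩
  · intro b hb a hab
    have hak : a ≠ k := by omega
    by_cases hbk : b = k
    · simp only [hak, hbk, if_true, if_false]
      by_cases hak1 : a = k - 1
      · subst hak1
        rw [lab_comm h, hl, if_neg (by omega), if_pos (by omega)]
      · have e2 : lab g (f a) v = 2 := by
          rw [lab_comm h]
          exact (lab_two h (A.new a (by omega)).symm).2 (A.non a (by omega) hak1)
        rw [e2]
        split_ifs <;> omega
    · simp only [hak, hbk, if_false]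
      exact F.cod b (by omega) a hab

theorem step_B (H : CoxH n g) {k : ℕ} (hk : 5 ≤ k) {f : ℕ → ι} {Y : Finset ι} {v : ι} {i : ℕ}
    (F : Fm g k 1 4 f Y) (A : Att g k f v i) (hp : ∀ Z ⊂ insert v Y, PD g Z) :
    FamX g (k + 1) (insert v Y) := by
  have hD : Diag g := H.toCox.toDiag
  obtain ⟨l3, l7⟩ := Fmf_lab hD (by omega) F A hp
  have hne := Fmf_ne F
  have hik := A.hi
  have c01 : lab g (f 0) (f 1) = 4 := by
    have := F.cod 1 (by omega) 0 (by omega)
    simpa using this
  have g01 := Fmf_val4 hD (hne 0 (by omega) 1 (by omega) (by omega)) c01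
  have ad01 : adj g (f 0) (f 1) := by
    rw [lab_adj hD]
    exact ⟨hne 0 (by omega) 1 (by omega) (by omega), by omega⟩
  by_cases hi1 : i = k - 1
  · subst hi1
    have h4 := Fmf_end hD hk F A hp
    by_cases h3 : lab g v (f (k - 1)) = 3
    · exact ⟨_, Or.inr (Or.inl (Fm_app hD (by omega) (by omega) F A h3))⟩
    exfalso
    have gv := Fmf_val4 hD A.ad.1 (by omega)
    refine par_chain H.toCox (f := fun a => f (a + 1)) (r := k - 2) (L := {f 0}) (R := {v})
      ?_ ?_ ?_ ?_ ?_ ?_ ?_ ?_ ?_ ?_
    · intro a ha b hb hab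
      have := F.inj _ (by omega) _ (by omega) hab
      omega
    · intro b hb a hab
      show g (f (a + 1)) (f (b + 1)) = _
      rw [Fmf_path hD F (by omega) (by omega) (by omega)]
      split_ifs <;> first | rfl | omega
    · refine Or.inr ⟨f 0, fun z => Finset.mem_singleton, ?_⟩
      show g (f 1) (f 0) = _
      rw [hD.symm]
      exact g01
    · refine Or.inr ⟨v, fun z => Finset.mem_singleton, ?_⟩
      show g (f (k - 2 + 1)) v = _
      rw [show k - 2 + 1 = k - 1 by omega, hD.symm]
      exact gv
    · rw [Finset.disjoint_singleton]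
      exact A.new 0 (by omega)
    · intro a ha
      rw [Finset.mem_singleton]
      exact hne _ (by omega) _ (by omega) (by omega)
    · intro a ha
      rw [Finset.mem_singleton]
      exact A.new _ (by omega)
    · intro a ha ha0 u hu
      rw [Finset.mem_singleton] at hu
      subst hu
      show g (f (a + 1)) (f 0) = 0
      rw [hD.symm]
      exact Fmf_zero hD F (by omega) (by omega) (by omega)
    · intro a ha ha0 u hu
      rw [Finset.mem_singleton] at hu
      subst hu
      show g (f (a + 1)) u = 0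
      rw [hD.symm]
      exact A.non _ (by omega) (by omega)
    · intro u hu w hw
      rw [Finset.mem_singleton] at hu hw
      subst hu
      subst hw
      rw [hD.symm]
      exact A.non 0 (by omega) (by omega)
  by_cases hi0 : i = 0
  · subst hi0
    exfalso
    refine npd_F4 hD ?_ A.ad g01.le (Fmf_adj hD F (a := 1) (by omega) (by omega))
      (Fmf_adj hD F (a := 2) (by omega) (by omega)) ?_
    · have n0 := A.new 0 (by omega)
      have n1 := A.new 1 (by omega)
      have n2 := A.new 2 (by omega)
      have n3 := A.new 3 (by omega)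
      simp [n0.symm, n1.symm, n2.symm, n3.symm, hne 0 (by omega) 1 (by omega) (by omega),
        hne 0 (by omega) 2 (by omega) (by omega), hne 0 (by omega) 3 (by omega) (by omega),
        hne 1 (by omega) 2 (by omega) (by omega), hne 1 (by omega) 3 (by omega) (by omega),
        hne 2 (by omega) 3 (by omega) (by omega)]
    · refine Fmf_lt F A hp ?_ ((Finset.card_le_five).trans hk)
      intro z hz
      simp only [Finset.mem_insert, Finset.mem_singleton] at hz
      rcases hz with rfl | rfl | rfl | rfl | rfl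
      · exact Finset.mem_insert_self _ _
      all_goals exact Fmf_mem F (by omega)
  · exfalso
    have hadj : adj g (f (i - 1)) (f i) := by
      by_cases h1 : i = 1
      · subst h1
        exact ad01
      · have := Fmf_adj hD F (a := i - 1) (by omega) (by omega)
        rwa [show i - 1 + 1 = i by omega] at this
    have h3 := Fmf_star hD hk F A hp (by omega) (by omega) hadj
    have gv := Fmf_val3 hD A.ad.1 (by omega)
    refine par_chain H.toCox (f := fun a => f (a + 1)) (r := i - 1) (L := {f 0})
      (R := {v, f (i + 1)}) ?_ ?_ ?_ ?_ ?_ ?_ ?_ ?_ ?_ ?_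
    · intro a ha b hb hab
      have := F.inj _ (by omega) _ (by omega) hab
      omega
    · intro b hb a hab
      show g (f (a + 1)) (f (b + 1)) = _
      rw [Fmf_path hD F (by omega) (by omega) (by omega)]
      split_ifs <;> first | rfl | omega
    · refine Or.inr ⟨f 0, fun z => Finset.mem_singleton, ?_⟩
      show g (f 1) (f 0) = _
      rw [hD.symm]
      exact g01
    · refine Or.inl ⟨v, f (i + 1), (A.new _ (by omega)).symm, fun z => by simp, ?_, ?_, ?_⟩
      · show g (f (i - 1 + 1)) v = _
        rw [show i - 1 + 1 = i by omega, hD.symm]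
        exact gv
      · show g (f (i - 1 + 1)) (f (i + 1)) = _
        rw [show i - 1 + 1 = i by omega, Fmf_path hD F (by omega) (by omega) (by omega), if_pos rfl]
      · exact A.non _ (by omega) (by omega)
    · rw [Finset.disjoint_singleton_left]
      simp only [Finset.mem_insert, Finset.mem_singleton, not_or]
      exact ⟨A.new 0 (by omega), hne _ (by omega) _ (by omega) (by omega)⟩
    · intro a ha
      rw [Finset.mem_singleton]
      exact hne _ (by omega) _ (by omega) (by omega)
    · intro a ha
      simp only [Finset.mem_insert, Finset.mem_singleton, not_or]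
      exact ⟨A.new _ (by omega), hne _ (by omega) _ (by omega) (by omega)⟩
    · intro a ha ha0 u hu
      rw [Finset.mem_singleton] at hu
      subst hu
      show g (f (a + 1)) (f 0) = 0
      rw [hD.symm]
      exact Fmf_zero hD F (by omega) (by omega) (by omega)
    · intro a ha ha0 u hu
      simp only [Finset.mem_insert, Finset.mem_singleton] at hu
      rcases hu with rfl | rfl
      · show g (f (a + 1)) u = 0
        rw [hD.symm]
        exact A.non _ (by omega) (by omega)
      · show g (f (a + 1)) (f (i + 1)) = 0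
        rw [Fmf_path hD F (by omega) (by omega) (by omega), if_neg (by omega)]
    · intro u hu w hw
      simp only [Finset.mem_insert, Finset.mem_singleton] at hu hw
      subst hu
      rcases hw with rfl | rfl
      · rw [hD.symm]
        exact A.non 0 (by omega) (by omega)
      · exact Fmf_zero hD F (by omega) (by omega) (by omega)

end

end MP86a502
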