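import Pool.Agent.Lib.MP_86a502_gt.U.Fmf

set_option autoImplicit false
set_option linter.unusedSectionVars false

/-! # JOB Fmg. Adding a node to `D_k` (150-220 lines)

Path `f 1, ..., f (k - 1)` with labels `3`, and `f 0` attached to `f 2` (so `f 0`, `f 1` are leaves at
`f 2`); `v` attached to `f i` only, `k ≥ 5`. `l = lab g v (f i) ∈ {3, ..., 7}`.
* `i = k - 1`: `l = 3`: `D_{k+1}` (`Fm_app`); `l = 4`: `par_chain`, chain `f 2, ..., f (k-1)`,
  `L = {f 0, f 1}`, `R = {v}`; `l ≥ 5`: `s_5333` for `v, f (k-1), ..., f (k-4)` (`k - 4 ≥ 1`).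
* `3 ≤ i ≤ k - 2`: `l ≥ 4`: `npd_star4`; `l = 3`: `par_chain`, chain `f 2, ..., f i`, `L = {f 0, f 1}`,
  `R = {v, f (i+1)}`.
* `i = 2`: `s_d4` (in `Sml.lean`) for `f 2; f 0, f 1, f 3, v` (five nodes, a proper subset).
* `i = 0` or `i = 1`: exchanging `f 0` and `f 1` (again `Fm g k 2 3`) assume `i = 1`. `l ≥ 4`: `npd_chain`
  with the chain `f 1, f 2`, `L = {v}`, `R = {f 0, f 3}` (a proper subset). `l = 3`: the function
  `f 0, v, f 1, f 2, ...` gives `Fm g (k + 1) 3 3`: for `k + 1 ≤ 8` it is `E_{k+1}`, for `k + 1 ≥ 9` the
  first nine nodes contradict `E8t`. -/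

namespace MP86a502

section
variable {ι : Type} [Fintype ι] [DecidableEq ι] {n : ℕ} {g : ι → ι → ℝ}

/-- exchanging `f 0` and `f 1` -/
theorem Fmg_swap (h : Diag g) {k : ℕ} (hk : 3 ≤ k) {f : ℕ → ι} {Y : Finset ι}
    (F : Fm g k 2 3 f Y) :
    Fm g k 2 3 (fun a => if a = 0 then f 1 else if a = 1 then f 0 else f a) Y := by
  refine ⟨?_, ?_, ?_⟩
  · intro a ha b hb hab
    split_ifs at hab
    all_goals first
      | omega
      | (have := F.inj _ (by omega) _ (by omega) hab; omega)
  · intro z
    rw [F.mem z]
    constructor
    · rintro ⟨a, ha, rfl⟩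
      by_cases h0 : a = 0
      · exact ⟨1, by omega, by simp [h0]⟩
      by_cases h1 : a = 1
      · exact ⟨0, by omega, by simp [h1]⟩
      · exact ⟨a, ha, by simp [h0, h1]⟩
    · rintro ⟨a, ha, rfl⟩
      by_cases h0 : a = 0
      · exact ⟨1, by omega, by simp [h0]⟩
      by_cases h1 : a = 1
      · exact ⟨0, by omega, by simp [h1]⟩
      · exact ⟨a, ha, by simp [h0, h1]⟩
  · intro b hb a hab
    have hb0 : b ≠ 0 := by omega
    by_cases h0 : a = 0
    · by_cases hb1 : b = 1
      · simp only [h0, hb1, if_true, one_ne_zero, if_false]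
        rw [lab_comm h, F.cod 1 (by omega) 0 (by omega)]
        simp
      · simp only [h0, hb0, hb1, if_true, if_false]
        rw [F.cod b hb 1 (by omega)]
        split_ifs <;> omega
    by_cases h1 : a = 1
    · have hb1 : b ≠ 1 := by omega
      simp only [h1, hb0, hb1, if_true, one_ne_zero, if_false]
      rw [F.cod b hb 0 (by omega)]
      split_ifs <;> omega
    · have hb1 : b ≠ 1 := by omega
      simp only [h0, h1, hb0, hb1, if_false]
      rw [F.cod b hb a hab]
      split_ifs <;> omega

theorem Fmg_swapAtt {k : ℕ} (hk : 3 ≤ k) {f : ℕ → ι} {v : ι} (A : Att g k f v 0) :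
    Att g k (fun a => if a = 0 then f 1 else if a = 1 then f 0 else f a) v 1 := by
  refine ⟨by omega, ?_, ?_, ?_⟩
  · intro a ha
    split_ifs
    · exact A.new 1 (by omega)
    · exact A.new 0 (by omega)
    · exact A.new a ha
  · simpa using A.ad
  · intro a ha ha1
    split_ifs with h0
    · exact A.non 1 (by omega) (by omega)
    · exact A.non a ha h0

/-- `v` attached to `f 1` -/
theorem Fmg_one (H : CoxH n g) {k : ℕ} (hk : 5 ≤ k) {f : ℕ → ι} {Y : Finset ι} {v : ι}
    (F : Fm g k 2 3 f Y) (A : Att g k f v 1) (hp : ∀ Z ⊂ insert v Y, PD g Z) :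
    FamX g (k + 1) (insert v Y) := by
  have hD : Diag g := H.toCox.toDiag
  obtain ⟨l3, l7⟩ := Fmf_lab hD (by omega) F A hp
  have hne := Fmf_ne F
  have c02 : lab g (f 0) (f 2) = 3 := by
    have := F.cod 2 (by omega) 0 (by omega)
    simpa using this
  have ad02 : adj g (f 0) (f 2) := by
    rw [lab_adj hD]
    exact ⟨hne 0 (by omega) 2 (by omega) (by omega), by omega⟩
  have hl3 : lab g v (f 1) = 3 := by
    by_contra hne3
    have hg := Fmf_le4 hD A.ad.1 (by omega)
    refine npd_chain hD (f := fun a => f (a + 1)) (r := 1) (L := {v}) (R := {f 0, f 3})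
      ?_ ?_ ?_ ?_ ?_ ?_ ?_ ?_
    · intro a ha b hb hab
      have := F.inj _ (by omega) _ (by omega) hab
      omega
    · intro a ha
      exact Fmf_adj hD F (by omega) (by omega)
    · refine Or.inr ⟨v, fun z => Finset.mem_singleton, A.new 1 (by omega), ?_⟩
      show g (f 1) v ≤ _
      rw [hD.symm]
      exact hg
    · refine Or.inl ⟨f 0, f 3, hne _ (by omega) _ (by omega) (by omega), fun z => by simp,
        (hD.adj_comm).1 ad02, Fmf_adj hD F (a := 2) (by omega) (by omega)⟩
    · rw [Finset.disjoint_singleton_left]
      simp only [Finset.mem_insert, Finset.mem_singleton, not_or]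
      exact ⟨(A.new 0 (by omega)).symm, (A.new 3 (by omega)).symm⟩
    · intro a ha
      rw [Finset.mem_singleton]
      exact A.new _ (by omega)
    · intro a ha
      simp only [Finset.mem_insert, Finset.mem_singleton, not_or]
      exact ⟨hne _ (by omega) _ (by omega) (by omega), hne _ (by omega) _ (by omega) (by omega)⟩
    · refine Fmf_lt F A hp ?_ ?_
      · intro z hz
        simp only [Finset.mem_union, Finset.mem_image, Finset.mem_range, Finset.mem_insert,
          Finset.mem_singleton] at hz
        rcases hz with (⟨a, ha, rfl⟩ | rfl) | rfl | rfl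
        · exact Fmf_mem F (by omega)
        · exact Finset.mem_insert_self _ _
        · exact Fmf_mem F (by omega)
        · exact Fmf_mem F (by omega)
      · have e1 : ((Finset.range (1 + 1)).image fun a => f (a + 1)).card ≤ 2 :=
          Finset.card_image_le.trans (by simp)
        have e2 : ({v} : Finset ι).card = 1 := Finset.card_singleton _
        have e3 : ({f 0, f 3} : Finset ι).card ≤ 2 := Finset.card_le_two
        have e4 := Finset.card_union_le ((Finset.range (1 + 1)).image (fun a => f (a + 1)) ∪ {v})
          ({f 0, f 3} : Finset ι)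
        have e5 := Finset.card_union_le ((Finset.range (1 + 1)).image (fun a => f (a + 1)))
          ({v} : Finset ι)
        omega
  have FF : Fm g (k + 1) 3 3 (fun a => if a = 0 then f 0 else if a = 1 then v else f (a - 1))
      (insert v Y) := by
    refine ⟨?_, ?_, ?_⟩
    · intro a ha b hb hab
      split_ifs at hab
      all_goals first
        | omega
        | exact absurd hab (A.new _ (by omega))
        | exact absurd hab.symm (A.new _ (by omega))
        | (have := F.inj _ (by omega) _ (by omega) hab; omega)
    · intro z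
      rw [Finset.mem_insert, F.mem z]
      constructor
      · rintro (rfl | ⟨a, ha, rfl⟩)
        · exact ⟨1, by omega, by simp⟩
        · by_cases h0 : a = 0
          · exact ⟨0, by omega, by simp [h0]⟩
          · exact ⟨a + 1, by omega, by simp [h0]⟩
      · rintro ⟨a, ha, rfl⟩
        by_cases h0 : a = 0
        · right; exact ⟨0, by omega, by simp [h0]⟩
        by_cases h1 : a = 1
        · left; simp [h1]
        · right; exact ⟨a - 1, by omega, by simp [h0, h1]⟩
    · intro b hb a hab
      have hb0 : b ≠ 0 := by omega
      by_cases h0 : a = 0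
      · by_cases hb1 : b = 1
        · simp only [h0, hb1, if_true, one_ne_zero, if_false]
          rw [lab_comm hD, (lab_two hD (A.new 0 (by omega)).symm).2 (A.non 0 (by omega) (by omega))]
          simp
        · simp only [h0, hb0, hb1, if_true, if_false]
          rw [F.cod (b - 1) (by omega) 0 (by omega)]
          split_ifs <;> omega
      by_cases h1 : a = 1
      · have hb1 : b ≠ 1 := by omega
        simp only [h1, hb0, hb1, if_true, one_ne_zero, if_false]
        by_cases hb2 : b = 2
        · subst hb2
          simpa using hl3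
        · rw [(lab_two hD (A.new (b - 1) (by omega)).symm).2 (A.non (b - 1) (by omega) (by omega)),
            if_neg (by omega)]
      · have hb1 : b ≠ 1 := by omega
        simp only [h0, h1, hb0, hb1, if_false]
        rw [F.cod (b - 1) (by omega) (a - 1) (by omega)]
        split_ifs <;> omega
  by_cases h8 : k + 1 ≤ 8
  · exact ⟨_, Or.inr (Or.inr (Or.inr ⟨by omega, h8, FF⟩))⟩
  · exfalso
    refine E8t H.toCox (f := fun a => if a = 0 then f 0 else if a = 1 then v else f (a - 1)) ?_ ?_
    · intro a ha b hb hab
      exact FF.inj a (by omega) b (by omega) hab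
    · intro b hb a hab
      exact FF.cod b (by omega) a hab

theorem step_D (H : CoxH n g) {k : ℕ} (hk : 5 ≤ k) {f : ℕ → ι} {Y : Finset ι} {v : ι} {i : ℕ}
    (F : Fm g k 2 3 f Y) (A : Att g k f v i) (hp : ∀ Z ⊂ insert v Y, PD g Z) :
    FamX g (k + 1) (insert v Y) := by
  have hD : Diag g := H.toCox.toDiag
  obtain ⟨l3, l7⟩ := Fmf_lab hD (by omega) F A hp
  have hne := Fmf_ne F
  have hik := A.hi
  have c02 : lab g (f 0) (f 2) = 3 := by
    have := F.cod 2 (by omega) 0 (by omega)
    simpa using this
  have g02 := Fmf_val3 hD (hne 0 (by omega) 2 (by omega) (by omega)) c02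
  have ad02 : adj g (f 0) (f 2) := by
    rw [lab_adj hD]
    exact ⟨hne 0 (by omega) 2 (by omega) (by omega), by omega⟩
  have g12 : g (f 1) (f 2) = -(1 / 2) := by
    rw [Fmf_path hD F (by omega) (by omega) (by omega), if_pos rfl]
  have hL : EndX g (f 2) {f 0, f 1} := by
    refine Or.inl ⟨f 0, f 1, hne _ (by omega) _ (by omega) (by omega), fun z => by simp, ?_, ?_, ?_⟩
    · rw [hD.symm]; exact g02
    · rw [hD.symm]; exact g12
    · exact Fmf_zero hD F (by omega) (by omega) (by omega)
  by_cases hi1 : i = k - 1
  · subst hi1
    have h4 := Fmf_end hD hk F A hp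
    by_cases h3 : lab g v (f (k - 1)) = 3
    · exact ⟨_, Or.inr (Or.inr (Or.inl (Fm_app hD (by omega) (by omega) F A h3)))⟩
    exfalso
    have gv := Fmf_val4 hD A.ad.1 (by omega)
    refine par_chain H.toCox (f := fun a => f (a + 2)) (r := k - 3) (L := {f 0, f 1}) (R := {v})
      ?_ ?_ hL ?_ ?_ ?_ ?_ ?_ ?_ ?_
    · intro a ha b hb hab
      have := F.inj _ (by omega) _ (by omega) hab
      omega
    · intro b hb a hab
      show g (f (a + 2)) (f (b + 2)) = _
      rw [Fmf_path hD F (by omega) (by omega) (by omega)]
      split_ifs <;> first | rfl | omega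
    · refine Or.inr ⟨v, fun z => Finset.mem_singleton, ?_⟩
      show g (f (k - 3 + 2)) v = _
      rw [show k - 3 + 2 = k - 1 by omega, hD.symm]
      exact gv
    · rw [Finset.disjoint_singleton_right]
      simp only [Finset.mem_insert, Finset.mem_singleton, not_or]
      exact ⟨(A.new 0 (by omega)).symm, (A.new 1 (by omega)).symm⟩
    · intro a ha
      simp only [Finset.mem_insert, Finset.mem_singleton, not_or]
      exact ⟨hne _ (by omega) _ (by omega) (by omega), hne _ (by omega) _ (by omega) (by omega)⟩
    · intro a ha
      rw [Finset.mem_singleton]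
      exact A.new _ (by omega)
    · intro a ha ha0 u hu
      simp only [Finset.mem_insert, Finset.mem_singleton] at hu
      rcases hu with rfl | rfl
      · show g (f (a + 2)) (f 0) = 0
        rw [hD.symm]
        exact Fmf_zero hD F (by omega) (by omega) (by omega)
      · show g (f (a + 2)) (f 1) = 0
        rw [hD.symm, Fmf_path hD F (by omega) (by omega) (by omega), if_neg (by omega)]
    · intro a ha ha0 u hu
      rw [Finset.mem_singleton] at hu
      subst hu
      show g (f (a + 2)) u = 0
      rw [hD.symm]
      exact A.non _ (by omega) (by omega)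
    · intro u hu w hw
      simp only [Finset.mem_insert, Finset.mem_singleton] at hu hw
      subst hw
      rw [hD.symm]
      rcases hu with rfl | rfl
      · exact A.non 0 (by omega) (by omega)
      · exact A.non 1 (by omega) (by omega)
  by_cases hi0 : i = 0
  · subst hi0
    exact Fmg_one H hk (Fmg_swap hD (by omega) F) (Fmg_swapAtt (by omega) A) hp
  by_cases hi1' : i = 1
  · subst hi1'
    exact Fmg_one H hk F A hp
  by_cases hi2 : i = 2
  · subst hi2
    exfalso
    refine s_d4 hD (z := f 2) (p := f 0) (q := f 1) (r := f 3) (s := v) ((hD.adj_comm).1 ad02)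
      ((hD.adj_comm).1 (Fmf_adj hD F (a := 1) (by omega) (by omega)))
      (Fmf_adj hD F (a := 2) (by omega) (by omega)) ((hD.adj_comm).1 A.ad)
      (hne _ (by omega) _ (by omega) (by omega)) (hne _ (by omega) _ (by omega) (by omega))
      (A.new 0 (by omega)) (hne _ (by omega) _ (by omega) (by omega)) (A.new 1 (by omega))
      (A.new 3 (by omega)) ?_
    refine Fmf_lt F A hp ?_ ((Finset.card_le_five).trans hk)
    intro z hz
    simp only [Finset.mem_insert, Finset.mem_singleton] at hz
    rcases hz with rfl | rfl | rfl | rfl | rfl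
    · exact Fmf_mem F (by omega)
    · exact Fmf_mem F (by omega)
    · exact Fmf_mem F (by omega)
    · exact Fmf_mem F (by omega)
    · exact Finset.mem_insert_self _ _
  · exfalso
    have hadj : adj g (f (i - 1)) (f i) := by
      have := Fmf_adj hD F (a := i - 1) (by omega) (by omega)
      rwa [show i - 1 + 1 = i by omega] at this
    have h3 := Fmf_star hD hk F A hp (by omega) (by omega) hadj
    have gv := Fmf_val3 hD A.ad.1 (by omega)
    refine par_chain H.toCox (f := fun a => f (a + 2)) (r := i - 2) (L := {f 0, f 1})
      (R := {v, f (i + 1)}) ?_ ?_ hL ?_ ?_ ?_ ?_ ?_ ?_ ?_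
    · intro a ha b hb hab
      have := F.inj _ (by omega) _ (by omega) hab
      omega
    · intro b hb a hab
      show g (f (a + 2)) (f (b + 2)) = _
      rw [Fmf_path hD F (by omega) (by omega) (by omega)]
      split_ifs <;> first | rfl | omega
    · refine Or.inl ⟨v, f (i + 1), (A.new _ (by omega)).symm, fun z => by simp, ?_, ?_, ?_⟩
      · show g (f (i - 2 + 2)) v = _
        rw [show i - 2 + 2 = i by omega, hD.symm]
        exact gv
      · show g (f (i - 2 + 2)) (f (i + 1)) = _
        rw [show i - 2 + 2 = i by omega, Fmf_path hD F (by omega) (by omega) (by omega), if_pos rfl]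
      · exact A.non _ (by omega) (by omega)
    · rw [Finset.disjoint_left]
      intro z hz hz2
      simp only [Finset.mem_insert, Finset.mem_singleton] at hz hz2
      rcases hz with rfl | rfl
      · rcases hz2 with h | h
        · exact A.new 0 (by omega) h
        · exact hne _ (by omega) _ (by omega) (by omega) h
      · rcases hz2 with h | h
        · exact A.new 1 (by omega) h
        · exact hne _ (by omega) _ (by omega) (by omega) h
    · intro a ha
      simp only [Finset.mem_insert, Finset.mem_singleton, not_or]
      exact ⟨hne _ (by omega) _ (by omega) (by omega), hne _ (by omega) _ (by omega) (by omega)⟩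
    · intro a ha
      simp only [Finset.mem_insert, Finset.mem_singleton, not_or]
      exact ⟨A.new _ (by omega), hne _ (by omega) _ (by omega) (by omega)⟩
    · intro a ha ha0 u hu
      simp only [Finset.mem_insert, Finset.mem_singleton] at hu
      rcases hu with rfl | rfl
      · show g (f (a + 2)) (f 0) = 0
        rw [hD.symm]
        exact Fmf_zero hD F (by omega) (by omega) (by omega)
      · show g (f (a + 2)) (f 1) = 0
        rw [hD.symm, Fmf_path hD F (by omega) (by omega) (by omega), if_neg (by omega)]
    · intro a ha ha0 u hu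
      simp only [Finset.mem_insert, Finset.mem_singleton] at hu
      rcases hu with rfl | rfl
      · show g (f (a + 2)) u = 0
        rw [hD.symm]
        exact A.non _ (by omega) (by omega)
      · show g (f (a + 2)) (f (i + 1)) = 0
        rw [Fmf_path hD F (by omega) (by omega) (by omega), if_neg (by omega)]
    · intro u hu w hw
      simp only [Finset.mem_insert, Finset.mem_singleton] at hu hw
      rcases hu with rfl | rfl
      · rcases hw with rfl | rfl
        · rw [hD.symm]
          exact A.non 0 (by omega) (by omega)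
        · exact Fmf_zero hD F (by omega) (by omega) (by omega)
      · rcases hw with rfl | rfl
        · rw [hD.symm]
          exact A.non 1 (by omega) (by omega)
        · rw [Fmf_path hD F (by omega) (by omega) (by omega), if_neg (by omega)]

end

end MP86a502
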