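import Pool.Agent.Lib.MP_86a502_gt.U.Fmf

set_option autoImplicit false
set_option linter.unusedSectionVars false

/-! # JOB Fmh. Adding a node to `E_k` (120-200 lines)

Path `f 1, ..., f (k - 1)` with labels `3`, and `f 0` attached to `f 3`; `6 ≤ k ≤ 8`; `v` attached to `f i`
only. `l = lab g v (f i) ∈ {3, ..., 7}`. A proper subset: five or six nodes, or a set that misses `f 1` or
`f 5`.
* `i = 3`: `s_d4` for `f 3; f 0, f 2, f 4, v`.
* `i = 2`: `npd_chain`, chain `f 3, f 2`, `L = {f 0, f 4}`, `R = {v, f 1}` (`f 5` is missing).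
* `4 ≤ i ≤ k - 2`: `npd_chain`, chain `f 3, ..., f i`, `L = {f 0, f 2}`, `R = {v, f (i+1)}` (`f 1` is missing).
* `i = k - 1`: `l ≥ 4`: `npd_chain`, chain `f (k-1), ..., f 3`, `L = {v}`, `R = {f 0, f 2}` (`f 1` is
  missing); `l = 3`: `Fm g (k + 1) 3 3` (`Fm_app`): `E_{k+1}` for `k + 1 ≤ 8`, and `k + 1 = 9`
  contradicts `E8t`.
* `i = 0`: `l ≥ 4`: `npd_chain`, chain `f 0, f 3`, `L = {v}`, `R = {f 2, f 4}`; `l = 3`: `E6t` for
  `f 3; f 0, v; f 2, f 1; f 4, f 5`.
* `i = 1`: `l ≥ 4`: `npd_chain`, chain `f 1, f 2, f 3`, `L = {v}`, `R = {f 0, f 4}`; `l = 3`: `k = 6`: the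
  function `f 0, f 5, f 4, f 3, f 2, f 1, v` gives `Fm g 7 3 3` (`E_7`); `k ≥ 7`: the function
  `f 0, v, f 1, f 2, f 3, f 4, f 5, f 6` contradicts `E7t`. -/

namespace MP86a502

section
variable {ι : Type} [Fintype ι] [DecidableEq ι] {n : ℕ} {g : ι → ι → ℝ}

/-- the matrix of labels of the path with the new node `k` attached to `i` -/
def Fmh_M (k i l a b : ℕ) : ℕ :=
  if a = k then (if b = i then l else 2)
  else if b = k then (if a = i then l else 2)
  else if a < b then (if a = 0 then (if b = 3 then 3 else 2) else (if b = a + 1 then 3 else 2))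
  else (if b = 0 then (if a = 3 then 3 else 2) else (if a = b + 1 then 3 else 2))

/-- the nodes, with the new node as number `k` -/
def Fmh_G (k : ℕ) (f : ℕ → ι) (v : ι) (a : ℕ) : ι := if a = k then v else f a

omit [Fintype ι] [DecidableEq ι] in
theorem Fmh_G_lt {k : ℕ} {f : ℕ → ι} {v : ι} {a : ℕ} (ha : a < k) : Fmh_G k f v a = f a := by
  unfold Fmh_G
  rw [if_neg (by omega)]

omit [Fintype ι] [DecidableEq ι] in
theorem Fmh_G_k {k : ℕ} {f : ℕ → ι} {v : ι} : Fmh_G k f v k = v := by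
  unfold Fmh_G
  rw [if_pos rfl]

omit [Fintype ι] in
theorem Fmh_inj {k : ℕ} {f : ℕ → ι} {Y : Finset ι} {v : ι} {i : ℕ} (F : Fm g k 3 3 f Y) (A : Att g k f v i) :
    ∀ a < k + 1, ∀ b < k + 1, Fmh_G k f v a = Fmh_G k f v b → a = b := by
  intro a ha b hb hab
  rcases Nat.lt_or_ge a k with h1 | h1
  · rcases Nat.lt_or_ge b k with h2 | h2
    · rw [Fmh_G_lt h1, Fmh_G_lt h2] at hab
      exact F.inj a h1 b h2 hab
    · have h3 : b = k := by omega
      rw [h3, Fmh_G_lt h1, Fmh_G_k] at hab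
      exact absurd hab (A.new a h1)
  · have h3 : a = k := by omega
    rcases Nat.lt_or_ge b k with h2 | h2
    · rw [h3, Fmh_G_lt h2, Fmh_G_k] at hab
      exact absurd hab.symm (A.new b h2)
    · omega

omit [Fintype ι] in
theorem Fmh_mem {k : ℕ} {f : ℕ → ι} {Y : Finset ι} {v : ι} (F : Fm g k 3 3 f Y) :
    ∀ a < k + 1, Fmh_G k f v a ∈ insert v Y := by
  intro a ha
  rcases Nat.lt_or_ge a k with h1 | h1
  · rw [Fmh_G_lt h1]
    exact Finset.mem_insert_of_mem ((F.mem _).2 ⟨a, h1, rfl⟩)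
  · have h3 : a = k := by omega
    rw [h3, Fmh_G_k]
    exact Finset.mem_insert_self _ _

omit [Fintype ι] in
theorem Fmh_ex {k : ℕ} {f : ℕ → ι} {Y : Finset ι} {v : ι} (F : Fm g k 3 3 f Y) {z : ι} (hz : z ∈ insert v Y) :
    ∃ a < k + 1, Fmh_G k f v a = z := by
  rcases Finset.mem_insert.1 hz with h1 | h1
  · exact ⟨k, by omega, by rw [Fmh_G_k, h1]⟩
  · obtain ⟨a, ha, h2⟩ := (F.mem _).1 h1
    exact ⟨a, by omega, by rw [Fmh_G_lt ha, h2]⟩

omit [Fintype ι] in
theorem Fmh_lab (h : Diag g) {k : ℕ} {f : ℕ → ι} {Y : Finset ι} {v : ι} {i l : ℕ} (F : Fm g k 3 3 f Y)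
    (A : Att g k f v i) (hl : lab g v (f i) = l) {a b : ℕ} (ha : a < k + 1) (hb : b < k + 1) (hab : a ≠ b) :
    lab g (Fmh_G k f v a) (Fmh_G k f v b) = Fmh_M k i l a b := by
  have hv : ∀ c < k, lab g v (f c) = if c = i then l else 2 := by
    intro c hc
    split_ifs with h1
    · rw [h1, hl]
    · exact (lab_two h (A.new c hc).symm).2 (A.non c hc h1)
  unfold Fmh_M
  by_cases h1 : a = k
  · rw [if_pos h1, h1, Fmh_G_k, Fmh_G_lt (by omega : b < k)]
    exact hv b (by omega)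
  · rw [if_neg h1]
    by_cases h2 : b = k
    · rw [if_pos h2, h2, Fmh_G_k, Fmh_G_lt (by omega : a < k), lab_comm h]
      exact hv a (by omega)
    · rw [if_neg h2, Fmh_G_lt (by omega : a < k), Fmh_G_lt (by omega : b < k)]
      by_cases h3 : a < b
      · rw [if_pos h3]
        exact F.cod b (by omega) a h3
      · rw [if_neg h3, lab_comm h]
        exact F.cod a (by omega) b (by omega)

omit [Fintype ι] in
theorem Fmh_adj (h : Diag g) {k : ℕ} {f : ℕ → ι} {Y : Finset ι} {v : ι} {i : ℕ} (F : Fm g k 3 3 f Y)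
    (A : Att g k f v i) {a b : ℕ} (ha : a < k + 1) (hb : b < k + 1) (hM : Fmh_M k i 3 a b = 3) (hab : a ≠ b) :
    adj g (Fmh_G k f v a) (Fmh_G k f v b) := by
  have h1 := Fmh_lab h F A rfl ha hb hab
  have h2 : lab g v (f i) ≠ 2 := (lab_adj h).1 A.ad |>.2
  have h3 : Fmh_G k f v a ≠ Fmh_G k f v b := fun h4 => hab (Fmh_inj F A a ha b hb h4)
  refine (lab_adj h).2 ⟨h3, ?_⟩
  rw [h1]
  unfold Fmh_M at hM ⊢
  split_ifs at hM ⊢ <;> first | exact h2 | omega

omit [Fintype ι] in
theorem Fmh_core (h : Diag g) {G : ℕ → ι} {m : ℕ} {X : Finset ι}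
    (inj : ∀ a < m, ∀ b < m, G a = G b → a = b) (mem : ∀ a < m, G a ∈ X) (hp : ∀ Z ⊂ X, PD g Z)
    (cs L R : List ℕ) (w : ℕ) (hlt : ∀ x ∈ cs ++ (L ++ (R ++ [w])), x < m)
    (hnd : (cs ++ (L ++ (R ++ [w]))).Nodup) (hne : 0 < cs.length)
    (hch : ∀ a < cs.length - 1, adj g (G (cs.getD a 0)) (G (cs.getD (a + 1) 0)))
    (hL : End g (G (cs.getD 0 0)) (L.toFinset.image G))
    (hR : End g (G (cs.getD (cs.length - 1) 0)) (R.toFinset.image G)) : False := by
  have hcm : ∀ a, a ≤ cs.length - 1 → cs.getD a 0 ∈ cs := by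
    intro a ha
    rw [List.getD_eq_getElem _ _ (by omega : a < cs.length)]
    exact List.getElem_mem _
  have hc1 : ∀ x ∈ cs, x < m := fun x hx => hlt x (List.mem_append_left _ hx)
  have hL1 : ∀ x ∈ L, x < m := fun x hx => hlt x (List.mem_append_right _ (List.mem_append_left _ hx))
  have hR1 : ∀ x ∈ R, x < m := fun x hx =>
    hlt x (List.mem_append_right _ (List.mem_append_right _ (List.mem_append_left _ hx)))
  have hw1 : w < m :=
    hlt w (List.mem_append_right _ (List.mem_append_right _ (List.mem_append_right _ (List.mem_singleton.2 rfl))))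
  obtain ⟨n1, n2, n3⟩ := List.nodup_append.1 hnd
  obtain ⟨n4, n5, n6⟩ := List.nodup_append.1 n2
  obtain ⟨n7, n8, n9⟩ := List.nodup_append.1 n5
  have hcL : ∀ x ∈ cs, ∀ y ∈ L, x ≠ y := fun x hx y hy => n3 x hx y (List.mem_append_left _ hy)
  have hcR : ∀ x ∈ cs, ∀ y ∈ R, x ≠ y := fun x hx y hy =>
    n3 x hx y (List.mem_append_right _ (List.mem_append_left _ hy))
  have hcw : ∀ x ∈ cs, x ≠ w := fun x hx =>
    n3 x hx w (List.mem_append_right _ (List.mem_append_right _ (List.mem_singleton.2 rfl)))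
  have hLR : ∀ x ∈ L, ∀ y ∈ R, x ≠ y := fun x hx y hy => n6 x hx y (List.mem_append_left _ hy)
  have hLw : ∀ x ∈ L, x ≠ w := fun x hx =>
    n6 x hx w (List.mem_append_right _ (List.mem_singleton.2 rfl))
  have hRw : ∀ x ∈ R, x ≠ w := fun x hx => n9 x hx w (List.mem_singleton.2 rfl)
  have hmemL : ∀ z, z ∈ L.toFinset.image G ↔ ∃ x ∈ L, G x = z := by
    intro z
    rw [Finset.mem_image]
    constructor
    · rintro ⟨x, hx, rfl⟩
      exact ⟨x, List.mem_toFinset.1 hx, rfl⟩
    · rintro ⟨x, hx, rfl⟩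
      exact ⟨x, List.mem_toFinset.2 hx, rfl⟩
  have hmemR : ∀ z, z ∈ R.toFinset.image G ↔ ∃ x ∈ R, G x = z := by
    intro z
    rw [Finset.mem_image]
    constructor
    · rintro ⟨x, hx, rfl⟩
      exact ⟨x, List.mem_toFinset.1 hx, rfl⟩
    · rintro ⟨x, hx, rfl⟩
      exact ⟨x, List.mem_toFinset.2 hx, rfl⟩
  have hnpd := npd_chain h (f := fun a => G (cs.getD a 0)) (r := cs.length - 1)
    (L := L.toFinset.image G) (R := R.toFinset.image G) (fun a ha b hb hab => by
      have h1 := inj _ (hc1 _ (hcm a ha)) _ (hc1 _ (hcm b hb)) hab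
      rw [List.getD_eq_getElem _ _ (by omega : a < cs.length),
        List.getD_eq_getElem _ _ (by omega : b < cs.length)] at h1
      exact (n1.getElem_inj_iff).1 h1) hch hL hR (by
      rw [Finset.disjoint_left]
      intro z hz hz'
      obtain ⟨x, hx, hxz⟩ := (hmemL z).1 hz
      obtain ⟨y, hy, hyz⟩ := (hmemR z).1 hz'
      exact hLR x hx y hy (inj x (hL1 x hx) y (hR1 y hy) (hxz.trans hyz.symm))) (fun a ha hz => by
      obtain ⟨x, hx, hxz⟩ := (hmemL _).1 hz
      exact hcL _ (hcm a ha) x hx (inj _ (hc1 _ (hcm a ha)) x (hL1 x hx) hxz.symm)) (fun a ha hz => by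
      obtain ⟨x, hx, hxz⟩ := (hmemR _).1 hz
      exact hcR _ (hcm a ha) x hx (inj _ (hc1 _ (hcm a ha)) x (hR1 x hx) hxz.symm))
  refine hnpd (hp _ ?_)
  rw [Finset.ssubset_iff_of_subset]
  · refine ⟨G w, mem w hw1, fun hz => ?_⟩
    rcases Finset.mem_union.1 hz with hz | hz
    · rcases Finset.mem_union.1 hz with hz | hz
      · obtain ⟨a, ha, haz⟩ := Finset.mem_image.1 hz
        have ha' : a ≤ cs.length - 1 := by
          have := Finset.mem_range.1 ha
          omega
        exact hcw _ (hcm a ha') (inj _ (hc1 _ (hcm a ha')) w hw1 haz)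
      · obtain ⟨x, hx, hxz⟩ := (hmemL _).1 hz
        exact hLw x hx (inj x (hL1 x hx) w hw1 hxz)
    · obtain ⟨x, hx, hxz⟩ := (hmemR _).1 hz
      exact hRw x hx (inj x (hR1 x hx) w hw1 hxz)
  · intro z hz
    rcases Finset.mem_union.1 hz with hz | hz
    · rcases Finset.mem_union.1 hz with hz | hz
      · obtain ⟨a, ha, haz⟩ := Finset.mem_image.1 hz
        have ha' : a ≤ cs.length - 1 := by
          have := Finset.mem_range.1 ha
          omega
        rw [← haz]
        exact mem _ (hc1 _ (hcm a ha'))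
      · obtain ⟨x, hx, hxz⟩ := (hmemL _).1 hz
        rw [← hxz]
        exact mem x (hL1 x hx)
    · obtain ⟨x, hx, hxz⟩ := (hmemR _).1 hz
      rw [← hxz]
      exact mem x (hR1 x hx)

omit [Fintype ι] in
theorem Fmh_pair {G : ℕ → ι} {m : ℕ} (inj : ∀ a < m, ∀ b < m, G a = G b → a = b) {x : ι} {u u' : ℕ}
    (hu : u < m) (hu' : u' < m) (hne : u ≠ u') (h1 : adj g x (G u)) (h2 : adj g x (G u')) :
    End g x ([u, u'].toFinset.image G) := by
  refine Or.inl ⟨G u, G u', fun h3 => hne (inj u hu u' hu' h3), fun z => ?_, h1, h2⟩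
  simp only [List.toFinset_cons, List.toFinset_nil, Finset.mem_image, Finset.mem_insert, Finset.notMem_empty, or_false]
  constructor
  · rintro ⟨a, rfl | rfl, rfl⟩
    · exact Or.inl rfl
    · exact Or.inr rfl
  · rintro (rfl | rfl)
    · exact ⟨u, Or.inl rfl, rfl⟩
    · exact ⟨u', Or.inr rfl, rfl⟩

/-- both ends are pairs -/
theorem Fmh_pp (H : CoxH n g) {k : ℕ} {f : ℕ → ι} {Y : Finset ι} {v : ι} {i : ℕ} (F : Fm g k 3 3 f Y)
    (A : Att g k f v i) (hp : ∀ Z ⊂ insert v Y, PD g Z) (cs : List ℕ) (u1 u2 u3 u4 w : ℕ)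
    (hlt : ∀ x ∈ cs ++ ([u1, u2] ++ ([u3, u4] ++ [w])), x < k + 1)
    (hnd : (cs ++ ([u1, u2] ++ ([u3, u4] ++ [w]))).Nodup) (hne : 0 < cs.length)
    (hch : ∀ a < cs.length - 1, Fmh_M k i 3 (cs.getD a 0) (cs.getD (a + 1) 0) = 3)
    (h1 : Fmh_M k i 3 (cs.getD 0 0) u1 = 3) (h2 : Fmh_M k i 3 (cs.getD 0 0) u2 = 3)
    (h3 : Fmh_M k i 3 (cs.getD (cs.length - 1) 0) u3 = 3)
    (h4 : Fmh_M k i 3 (cs.getD (cs.length - 1) 0) u4 = 3) : False := by
  have h := H.toCox.toDiag
  have hcm : ∀ a, a ≤ cs.length - 1 → cs.getD a 0 ∈ cs := by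
    intro a ha
    rw [List.getD_eq_getElem _ _ (by omega : a < cs.length)]
    exact List.getElem_mem _
  have hc1 : ∀ x ∈ cs, x < k + 1 := fun x hx => hlt x (List.mem_append_left _ hx)
  obtain ⟨n1, n2, n3⟩ := List.nodup_append.1 hnd
  have hu1 : u1 < k + 1 := hlt u1 (by simp)
  have hu2 : u2 < k + 1 := hlt u2 (by simp)
  have hu3 : u3 < k + 1 := hlt u3 (by simp)
  have hu4 : u4 < k + 1 := hlt u4 (by simp)
  have hu12 : u1 ≠ u2 := by
    intro h5
    rw [h5] at n2
    simp at n2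
  have hu34 : u3 ≠ u4 := by
    intro h5
    rw [h5] at n2
    simp at n2
  refine Fmh_core h (Fmh_inj F A) (Fmh_mem F) hp cs [u1, u2] [u3, u4] w hlt hnd hne ?_ ?_ ?_
  · intro a ha
    refine Fmh_adj h F A (hc1 _ (hcm a (by omega))) (hc1 _ (hcm (a + 1) (by omega))) (hch a ha) ?_
    intro h5
    rw [List.getD_eq_getElem _ _ (by omega : a < cs.length),
      List.getD_eq_getElem _ _ (by omega : a + 1 < cs.length)] at h5
    have := (n1.getElem_inj_iff).1 h5
    omega
  · refine Fmh_pair (Fmh_inj F A) hu1 hu2 hu12 ?_ ?_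
    · exact Fmh_adj h F A (hc1 _ (hcm 0 (by omega))) hu1 h1 (n3 _ (hcm 0 (by omega)) _ (by simp))
    · exact Fmh_adj h F A (hc1 _ (hcm 0 (by omega))) hu2 h2 (n3 _ (hcm 0 (by omega)) _ (by simp))
  · refine Fmh_pair (Fmh_inj F A) hu3 hu4 hu34 ?_ ?_
    · exact Fmh_adj h F A (hc1 _ (hcm _ le_rfl)) hu3 h3 (n3 _ (hcm _ le_rfl) _ (by simp))
    · exact Fmh_adj h F A (hc1 _ (hcm _ le_rfl)) hu4 h4 (n3 _ (hcm _ le_rfl) _ (by simp))

/-- the first end is the new node, with label at least `4` -/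
theorem Fmh_sp (H : CoxH n g) {k : ℕ} {f : ℕ → ι} {Y : Finset ι} {v : ι} {i : ℕ} (F : Fm g k 3 3 f Y)
    (A : Att g k f v i) (hp : ∀ Z ⊂ insert v Y, PD g Z) (hl : 4 ≤ lab g v (f i)) (cs : List ℕ) (u3 u4 w : ℕ)
    (hlt : ∀ x ∈ cs ++ ([k] ++ ([u3, u4] ++ [w])), x < k + 1)
    (hnd : (cs ++ ([k] ++ ([u3, u4] ++ [w]))).Nodup) (hne : 0 < cs.length)
    (hch : ∀ a < cs.length - 1, Fmh_M k i 3 (cs.getD a 0) (cs.getD (a + 1) 0) = 3)
    (h1 : cs.getD 0 0 = i)
    (h3 : Fmh_M k i 3 (cs.getD (cs.length - 1) 0) u3 = 3)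
    (h4 : Fmh_M k i 3 (cs.getD (cs.length - 1) 0) u4 = 3) : False := by
  have h := H.toCox.toDiag
  have hcm : ∀ a, a ≤ cs.length - 1 → cs.getD a 0 ∈ cs := by
    intro a ha
    rw [List.getD_eq_getElem _ _ (by omega : a < cs.length)]
    exact List.getElem_mem _
  have hc1 : ∀ x ∈ cs, x < k + 1 := fun x hx => hlt x (List.mem_append_left _ hx)
  obtain ⟨n1, n2, n3⟩ := List.nodup_append.1 hnd
  have hu3 : u3 < k + 1 := hlt u3 (by simp)
  have hu4 : u4 < k + 1 := hlt u4 (by simp)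
  have hu34 : u3 ≠ u4 := by
    intro h5
    rw [h5] at n2
    simp at n2
  refine Fmh_core h (Fmh_inj F A) (Fmh_mem F) hp cs [k] [u3, u4] w hlt hnd hne ?_ ?_ ?_
  · intro a ha
    refine Fmh_adj h F A (hc1 _ (hcm a (by omega))) (hc1 _ (hcm (a + 1) (by omega))) (hch a ha) ?_
    intro h5
    rw [List.getD_eq_getElem _ _ (by omega : a < cs.length),
      List.getD_eq_getElem _ _ (by omega : a + 1 < cs.length)] at h5
    have := (n1.getElem_inj_iff).1 h5
    omega
  · rw [h1, Fmh_G_lt A.hi]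
    refine Or.inr ⟨v, fun z => ?_, A.ad.1.symm, ?_⟩
    · simp only [List.toFinset_cons, List.toFinset_nil, Finset.mem_image, Finset.mem_insert,
        Finset.notMem_empty, or_false]
      constructor
      · rintro ⟨a, rfl, rfl⟩
        exact Fmh_G_k
      · rintro rfl
        exact ⟨k, rfl, Fmh_G_k⟩
    · rw [h.symm]
      have hs1 : √2 ≤ 3 / 2 := by
        rw [Real.sqrt_le_left (by norm_num)]
        norm_num
      have hs5 : (2 : ℝ) ≤ √5 := by
        apply Real.le_sqrt_of_sq_le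
        norm_num
      have hs3 : (17 / 10 : ℝ) ≤ √3 := by
        apply Real.le_sqrt_of_sq_le
        norm_num
      rcases lab_spec h A.ad.1 with h5 | h5 | h5 | h5 | h5 | h5 | h5
      · omega
      · omega
      · exact h5.2.le
      · rw [h5.2]
        nlinarith
      · rw [h5.2]
        linarith
      · linarith [h5.2.1]
      · linarith [h5.2]
  · refine Fmh_pair (Fmh_inj F A) hu3 hu4 hu34 ?_ ?_
    · exact Fmh_adj h F A (hc1 _ (hcm _ le_rfl)) hu3 h3 (n3 _ (hcm _ le_rfl) _ (by simp))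
    · exact Fmh_adj h F A (hc1 _ (hcm _ le_rfl)) hu4 h4 (n3 _ (hcm _ le_rfl) _ (by simp))

/-- `k = 6`, the new node at `f 1`: `E_7` -/
theorem Fmh_E7 (H : CoxH n g) {f : ℕ → ι} {Y : Finset ι} {v : ι} (F : Fm g 6 3 3 f Y)
    (A : Att g 6 f v 1) (hl : lab g v (f 1) = 3) :
    Fm g 7 3 3 (fun a => Fmh_G 6 f v ([0, 5, 4, 3, 2, 1, 6].getD a 0)) (insert v Y) := by
  have h := H.toCox.toDiag
  have hs : ∀ a < 7, [0, 5, 4, 3, 2, 1, 6].getD a 0 < 7 := by decide
  have hss : ∀ a < 7, [0, 5, 4, 3, 2, 1, 6].getD ([0, 5, 4, 3, 2, 1, 6].getD a 0) 0 = a := by decide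
  refine ⟨fun a ha b hb hab => ?_, fun z => ⟨fun hz => ?_, ?_⟩, fun b hb a ha => ?_⟩
  · have h1 := Fmh_inj F A _ (hs a ha) _ (hs b hb) hab
    rw [← hss a ha, ← hss b hb, h1]
  · obtain ⟨a, ha, haz⟩ := Fmh_ex F hz
    exact ⟨[0, 5, 4, 3, 2, 1, 6].getD a 0, hs a ha, by rw [hss a ha, haz]⟩
  · rintro ⟨a, ha, rfl⟩
    exact Fmh_mem F _ (hs a ha)
  · have h2 : ∀ b < 7, ∀ a < b, [0, 5, 4, 3, 2, 1, 6].getD a 0 ≠ [0, 5, 4, 3, 2, 1, 6].getD b 0 := by decide
    have h3 : ∀ b < 7, ∀ a < b, Fmh_M 6 1 3 ([0, 5, 4, 3, 2, 1, 6].getD a 0) ([0, 5, 4, 3, 2, 1, 6].getD b 0) =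
        if a = 0 then (if b = 3 then 3 else 2) else (if b = a + 1 then 3 else 2) := by decide
    rw [Fmh_lab h F A hl (hs a (ha.trans hb)) (hs b hb) (h2 b hb a ha)]
    exact h3 b hb a ha

/-- `k ≥ 7`, the new node at `f 1`: `E7~` -/
theorem Fmh_t7 (H : CoxH n g) {k : ℕ} (h7 : 7 ≤ k) (h8 : k ≤ 8) {f : ℕ → ι} {Y : Finset ι} {v : ι}
    (F : Fm g k 3 3 f Y) (A : Att g k f v 1) (hl : lab g v (f 1) = 3) : False := by
  have h := H.toCox.toDiag
  have key : ∀ k, 7 ≤ k → k ≤ 8 → (∀ a < 8, [0, k, 1, 2, 3, 4, 5, 6].getD a 0 < k + 1) ∧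
      (∀ a < 8, ∀ b < 8, [0, k, 1, 2, 3, 4, 5, 6].getD a 0 = [0, k, 1, 2, 3, 4, 5, 6].getD b 0 → a = b) ∧
      ∀ b < 8, ∀ a < b, Fmh_M k 1 3 ([0, k, 1, 2, 3, 4, 5, 6].getD a 0) ([0, k, 1, 2, 3, 4, 5, 6].getD b 0) =
        if a = 0 then (if b = 4 then 3 else 2) else (if b = a + 1 then 3 else 2) := by
    intro k h7 h8
    interval_cases k
    · decide
    · decide
  obtain ⟨k1, k2, k3⟩ := key k h7 h8
  refine E7t H.toCox (f := fun a => Fmh_G k f v ([0, k, 1, 2, 3, 4, 5, 6].getD a 0)) (fun a ha b hb hab => ?_)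
    fun b hb a ha => ?_
  · exact k2 a ha b hb (Fmh_inj F A _ (k1 a ha) _ (k1 b hb) hab)
  · rw [Fmh_lab h F A hl (k1 a (ha.trans hb)) (k1 b hb)
      (fun h5 => by have := k2 a (ha.trans hb) b hb h5; omega)]
    exact k3 b hb a ha

/-- the new node at `f 0`: `E6~` -/
theorem Fmh_t6 (H : CoxH n g) {k : ℕ} (h6 : 6 ≤ k) (h8 : k ≤ 8) {f : ℕ → ι} {Y : Finset ι} {v : ι}
    (F : Fm g k 3 3 f Y) (A : Att g k f v 0) (hl : lab g v (f 0) = 3) : False := by
  have h := H.toCox.toDiag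
  have key : ∀ k, 6 ≤ k → k ≤ 8 → (∀ a < 7, [3, 0, k, 2, 1, 4, 5].getD a 0 < k + 1) ∧
      (∀ a < 7, ∀ b < 7, [3, 0, k, 2, 1, 4, 5].getD a 0 = [3, 0, k, 2, 1, 4, 5].getD b 0 → a = b) ∧
      ∀ b < 7, ∀ a < b, Fmh_M k 0 3 ([3, 0, k, 2, 1, 4, 5].getD a 0) ([3, 0, k, 2, 1, 4, 5].getD b 0) =
        if (a = 0 ∧ (b = 1 ∨ b = 3 ∨ b = 5)) ∨ (b = a + 1 ∧ (a = 1 ∨ a = 3 ∨ a = 5)) then 3 else 2 := by
    intro k h6 h8
    interval_cases k
    · decide
    · decide
    · decide
  obtain ⟨k1, k2, k3⟩ := key k h6 h8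
  refine E6t H.toCox (f := fun a => Fmh_G k f v ([3, 0, k, 2, 1, 4, 5].getD a 0)) (fun a ha b hb hab => ?_)
    fun b hb a ha => ?_
  · exact k2 a ha b hb (Fmh_inj F A _ (k1 a ha) _ (k1 b hb) hab)
  · rw [Fmh_lab h F A hl (k1 a (ha.trans hb)) (k1 b hb)
      (fun h5 => by have := k2 a (ha.trans hb) b hb h5; omega)]
    exact k3 b hb a ha

/-- the new node at the end of the path, label `3` -/
theorem Fmh_end (H : CoxH n g) {k : ℕ} (h6 : 6 ≤ k) (h8 : k ≤ 8) {f : ℕ → ι} {Y : Finset ι} {v : ι}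
    (F : Fm g k 3 3 f Y) (A : Att g k f v (k - 1)) (hl : lab g v (f (k - 1)) = 3) :
    FamX g (k + 1) (insert v Y) := by
  have h := H.toCox.toDiag
  have h1 := Fm_app h (by omega : 3 ≤ k) (by omega : 3 < k) F A hl
  rcases Nat.lt_or_ge k 8 with h7 | h7
  · exact ⟨_, Or.inr (Or.inr (Or.inr ⟨by omega, by omega, h1⟩))⟩
  · have h9 : k = 8 := by omega
    subst h9
    exact (E8t H.toCox h1.inj h1.cod).elim

theorem step_E (H : CoxH n g) {k : ℕ} (h6 : 6 ≤ k) (h8 : k ≤ 8) {f : ℕ → ι} {Y : Finset ι} {v : ι}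
    {i : ℕ} (F : Fm g k 3 3 f Y) (A : Att g k f v i) (hp : ∀ Z ⊂ insert v Y, PD g Z) :
    FamX g (k + 1) (insert v Y) := by
  have h := H.toCox.toDiag
  have hl7 : lab g v (f i) ≤ 7 := by
    rw [← pd_lab h A.ad.1]
    refine hp _ ?_
    rw [Finset.ssubset_iff_of_subset]
    · have hY : ∀ a < k, f a ∈ insert v Y := fun a ha => Finset.mem_insert_of_mem ((F.mem _).2 ⟨a, ha, rfl⟩)
      rcases Nat.eq_zero_or_pos i with h0 | h0
      · refine ⟨f 1, hY 1 (by omega), ?_⟩
        simp only [Finset.mem_insert, Finset.mem_singleton, not_or]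
        exact ⟨A.new 1 (by omega), fun h1 => by have := F.inj 1 (by omega) i A.hi h1; omega⟩
      · refine ⟨f 0, hY 0 (by omega), ?_⟩
        simp only [Finset.mem_insert, Finset.mem_singleton, not_or]
        exact ⟨A.new 0 (by omega), fun h1 => by have := F.inj 0 (by omega) i A.hi h1; omega⟩
    · intro z hz
      rcases Finset.mem_insert.1 hz with h1 | h1
      · rw [h1]
        exact Finset.mem_insert_self _ _
      · rw [Finset.mem_singleton.1 h1]
        exact Finset.mem_insert_of_mem ((F.mem _).2 ⟨i, A.hi, rfl⟩)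
  have hl2 : 3 ≤ lab g v (f i) := by
    have h1 := ((lab_adj h).1 A.ad).2
    have h2 := (lab_rng h A.ad.1).1
    omega
  have hi := A.hi
  rcases Nat.lt_or_ge 3 (lab g v (f i)) with hl | hl
  · -- label at least `4`
    exfalso
    interval_cases k <;> interval_cases i
    · exact Fmh_sp H F A hp hl [0, 3] 2 4 1 (by decide) (by decide) (by decide) (by decide) (by decide) (by decide) (by decide)
    · exact Fmh_sp H F A hp hl [1, 2, 3] 0 4 5 (by decide) (by decide) (by decide) (by decide) (by decide) (by decide) (by decide)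
    · exact Fmh_pp H F A hp [3, 2] 0 4 6 1 5 (by decide) (by decide) (by decide) (by decide) (by decide) (by decide) (by decide) (by decide)
    · exact Fmh_pp H F A hp [3] 0 2 4 6 1 (by decide) (by decide) (by decide) (by decide) (by decide) (by decide) (by decide) (by decide)
    · exact Fmh_pp H F A hp [3, 4] 0 2 6 5 1 (by decide) (by decide) (by decide) (by decide) (by decide) (by decide) (by decide) (by decide)
    · exact Fmh_sp H F A hp hl [5, 4, 3] 0 2 1 (by decide) (by decide) (by decide) (by decide) (by decide) (by decide) (by decide)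
    · exact Fmh_sp H F A hp hl [0, 3] 2 4 1 (by decide) (by decide) (by decide) (by decide) (by decide) (by decide) (by decide)
    · exact Fmh_sp H F A hp hl [1, 2, 3] 0 4 5 (by decide) (by decide) (by decide) (by decide) (by decide) (by decide) (by decide)
    · exact Fmh_pp H F A hp [3, 2] 0 4 7 1 5 (by decide) (by decide) (by decide) (by decide) (by decide) (by decide) (by decide) (by decide)
    · exact Fmh_pp H F A hp [3] 0 2 4 7 1 (by decide) (by decide) (by decide) (by decide) (by decide) (by decide) (by decide) (by decide)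
    · exact Fmh_pp H F A hp [3, 4] 0 2 7 5 1 (by decide) (by decide) (by decide) (by decide) (by decide) (by decide) (by decide) (by decide)
    · exact Fmh_pp H F A hp [3, 4, 5] 0 2 7 6 1 (by decide) (by decide) (by decide) (by decide) (by decide) (by decide) (by decide) (by decide)
    · exact Fmh_sp H F A hp hl [6, 5, 4, 3] 0 2 1 (by decide) (by decide) (by decide) (by decide) (by decide) (by decide) (by decide)
    · exact Fmh_sp H F A hp hl [0, 3] 2 4 1 (by decide) (by decide) (by decide) (by decide) (by decide) (by decide) (by decide)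
    · exact Fmh_sp H F A hp hl [1, 2, 3] 0 4 5 (by decide) (by decide) (by decide) (by decide) (by decide) (by decide) (by decide)
    · exact Fmh_pp H F A hp [3, 2] 0 4 8 1 5 (by decide) (by decide) (by decide) (by decide) (by decide) (by decide) (by decide) (by decide)
    · exact Fmh_pp H F A hp [3] 0 2 4 8 1 (by decide) (by decide) (by decide) (by decide) (by decide) (by decide) (by decide) (by decide)
    · exact Fmh_pp H F A hp [3, 4] 0 2 8 5 1 (by decide) (by decide) (by decide) (by decide) (by decide) (by decide) (by decide) (by decide)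
    · exact Fmh_pp H F A hp [3, 4, 5] 0 2 8 6 1 (by decide) (by decide) (by decide) (by decide) (by decide) (by decide) (by decide) (by decide)
    · exact Fmh_pp H F A hp [3, 4, 5, 6] 0 2 8 7 1 (by decide) (by decide) (by decide) (by decide) (by decide) (by decide) (by decide) (by decide)
    · exact Fmh_sp H F A hp hl [7, 6, 5, 4, 3] 0 2 1 (by decide) (by decide) (by decide) (by decide) (by decide) (by decide) (by decide)
  · have hl3 : lab g v (f i) = 3 := by omega
    interval_cases k <;> interval_cases i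
    · exact (Fmh_t6 H (by norm_num) (by norm_num) F A hl3).elim
    · exact ⟨_, Or.inr (Or.inr (Or.inr ⟨by norm_num, by norm_num, Fmh_E7 H F A hl3⟩))⟩
    · exact (Fmh_pp H F A hp [3, 2] 0 4 6 1 5 (by decide) (by decide) (by decide) (by decide) (by decide) (by decide) (by decide) (by decide)).elim
    · exact (Fmh_pp H F A hp [3] 0 2 4 6 1 (by decide) (by decide) (by decide) (by decide) (by decide) (by decide) (by decide) (by decide)).elim
    · exact (Fmh_pp H F A hp [3, 4] 0 2 6 5 1 (by decide) (by decide) (by decide) (by decide) (by decide) (by decide) (by decide) (by decide)).elim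
    · exact Fmh_end H (by norm_num) (by norm_num) F A hl3
    · exact (Fmh_t6 H (by norm_num) (by norm_num) F A hl3).elim
    · exact (Fmh_t7 H (by norm_num) (by norm_num) F A hl3).elim
    · exact (Fmh_pp H F A hp [3, 2] 0 4 7 1 5 (by decide) (by decide) (by decide) (by decide) (by decide) (by decide) (by decide) (by decide)).elim
    · exact (Fmh_pp H F A hp [3] 0 2 4 7 1 (by decide) (by decide) (by decide) (by decide) (by decide) (by decide) (by decide) (by decide)).elim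
    · exact (Fmh_pp H F A hp [3, 4] 0 2 7 5 1 (by decide) (by decide) (by decide) (by decide) (by decide) (by decide) (by decide) (by decide)).elim
    · exact (Fmh_pp H F A hp [3, 4, 5] 0 2 7 6 1 (by decide) (by decide) (by decide) (by decide) (by decide) (by decide) (by decide) (by decide)).elim
    · exact Fmh_end H (by norm_num) (by norm_num) F A hl3
    · exact (Fmh_t6 H (by norm_num) (by norm_num) F A hl3).elim
    · exact (Fmh_t7 H (by norm_num) (by norm_num) F A hl3).elim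
    · exact (Fmh_pp H F A hp [3, 2] 0 4 8 1 5 (by decide) (by decide) (by decide) (by decide) (by decide) (by decide) (by decide) (by decide)).elim
    · exact (Fmh_pp H F A hp [3] 0 2 4 8 1 (by decide) (by decide) (by decide) (by decide) (by decide) (by decide) (by decide) (by decide)).elim
    · exact (Fmh_pp H F A hp [3, 4] 0 2 8 5 1 (by decide) (by decide) (by decide) (by decide) (by decide) (by decide) (by decide) (by decide)).elim
    · exact (Fmh_pp H F A hp [3, 4, 5] 0 2 8 6 1 (by decide) (by decide) (by decide) (by decide) (by decide) (by decide) (by decide) (by decide)).elim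
    · exact (Fmh_pp H F A hp [3, 4, 5, 6] 0 2 8 7 1 (by decide) (by decide) (by decide) (by decide) (by decide) (by decide) (by decide) (by decide)).elim
    · exact Fmh_end H (by norm_num) (by norm_num) F A hl3

end

end MP86a502
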