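import Pool.Agent.Lib.MP_86a502_gt.U.Fmb
import Pool.Agent.Lib.MP_86a502_gt.Tre

set_option autoImplicit false
set_option linter.unusedSectionVars false

/-! # JOB Fmi. A node with at least two neighbours (150-220 lines)

`Y = f [0, k)` is `A_k`, `B_k`, `D_k` or `E_k` (`FamX`), `k ≥ 5`, `v ∉ Y`, and all proper subsets of
`X = insert v Y` are positive definite. Claim: `v` has at most one neighbour in `Y`.

For a positive definite set `Z`, `∑_{x ∈ Z} deg g Z x < 2 |Z|` (`pd_deg` in `Tre.lean`), and the sum is even
(twice the number of edges), so it is `≤ 2 |Z| - 2`. Let `d = deg g X v` and suppose `d ≥ 2`. The tree `Y`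
has `k - 1` edges: `∑_{x ∈ Y} deg g Y x = 2 (k - 1)` (`≤` as above, `≥` by `con_deg` (`Tre.lean`) if you
show `Con g Y`, or compute). So `E = ∑_{x ∈ X} deg g X x = 2 (k - 1) + 2 d`. For every `u ∈ X` the set
`X.erase u` has `k` elements and degree sum `E - 2 deg g X u ≤ 2 k - 2`, so `deg g X u ≥ d`. Summing over
the `k + 1` elements: `2 (k - 1) + 2 d ≥ (k + 1) d`, so `d ≤ 2`, `d = 2`, `E = 2 (k + 1)`, and all degrees in
`X` are `2`. A node of degree `3` in `Y` is impossible, so `Y` is `A_k` or `B_k` (for `D_k` the node `f 2`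
has the neighbours `f 0, f 1, f 3`; for `E_k` the node `f 3` has `f 0, f 2, f 4`), and the leaves `f 0`
and `f (k - 1)` are the neighbours of `v`: `X` is a cycle.
* `B_k`: `npd_F4` for `v, f 0, f 1, f 2, f 3` (a proper subset: `k + 1 ≥ 6`).
* `A_k`: if the label of `v, f 0` is `≥ 4`: `npd_F4` for `f (k-1), v, f 0, f 1, f 2` (a proper subset);
  similarly at `f (k-1)`; if both labels are `3`: `cyc_par` for `f 0, ..., f (k-1), v`. -/

namespace MP86a502

section
variable {ι : Type} [DecidableEq ι] {g : ι → ι → ℝ}

private theorem Fmi_path (h : Diag g) {S : Finset ι} (hS : PD g S) (p : ℕ → ι) {m : ℕ} (hm : 2 ≤ m)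
    (hi : ∀ i ≤ m, ∀ j ≤ m, p i = p j → i = j) (hS' : ∀ i ≤ m, p i ∈ S)
    (ha : ∀ i < m, adj g (p i) (p (i + 1))) (hc : adj g (p 0) (p m)) : False := by
  classical
  set Z : Finset ι := (Finset.range (m + 1)).image p with hZ
  have hmem : ∀ i ≤ m, p i ∈ Z := fun i hi =>
    Finset.mem_image_of_mem p (Finset.mem_range.2 (by omega))
  have hZS : Z ⊆ S := by
    intro z hz
    obtain ⟨i, hi', rfl⟩ := Finset.mem_image.1 hz
    have := Finset.mem_range.1 hi'
    exact hS' i (by omega)
  have hZP : PD g Z := pd_subset hS hZS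
  have hne : Z.Nonempty := ⟨p 0, hmem 0 (by omega)⟩
  have hdeg : ∀ z ∈ Z, 2 ≤ deg g Z z := by
    intro z hz
    obtain ⟨i, hi', rfl⟩ := Finset.mem_image.1 hz
    have him := Finset.mem_range.1 hi'
    have key : ∃ u w, u ≠ w ∧ u ∈ Z ∧ w ∈ Z ∧ adj g (p i) u ∧ adj g (p i) w := by
      rcases Nat.eq_zero_or_pos i with h0 | h0
      · subst h0
        refine ⟨p 1, p m, ?_, hmem 1 (by omega), hmem m le_rfl, ha 0 (by omega), hc⟩
        intro he
        have := hi 1 (by omega) m le_rfl he
        omega
      · obtain ⟨i', rfl⟩ : ∃ i', i = i' + 1 := ⟨i - 1, by omega⟩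
        have h1 : adj g (p (i' + 1)) (p i') := h.adj_comm.1 (ha i' (by omega))
        rcases Nat.lt_or_ge (i' + 1) m with h2 | h2
        · refine ⟨p i', p (i' + 1 + 1), ?_, hmem i' (by omega), hmem _ (by omega), h1,
            ha (i' + 1) h2⟩
          intro he
          have := hi i' (by omega) (i' + 1 + 1) (by omega) he
          omega
        · have hm' : i' + 1 = m := by omega
          refine ⟨p i', p 0, ?_, hmem i' (by omega), hmem 0 (by omega), h1, ?_⟩
          · intro he
            have := hi i' (by omega) 0 (by omega) he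
            omega
          · rw [hm']
            exact h.adj_comm.1 hc
    obtain ⟨u, w, huw, hu, hw, h1, h2⟩ := key
    unfold deg
    exact Finset.one_lt_card.2
      ⟨u, Finset.mem_filter.2 ⟨hu, h1⟩, w, Finset.mem_filter.2 ⟨hw, h2⟩, huw⟩
  have h1 := pd_deg h hZP hne
  have h2 : ∑ v ∈ Z, (2 : ℝ) ≤ ∑ v ∈ Z, (deg g Z v : ℝ) :=
    Finset.sum_le_sum fun v hv => by exact_mod_cast hdeg v hv
  rw [Finset.sum_const, nsmul_eq_mul] at h2
  have h3 : (0 : ℝ) ≤ bigP g Z := Nat.cast_nonneg _
  linarith

private theorem Fmi_two (h : Diag g) {k j l : ℕ} {f : ℕ → ι} {Y : Finset ι} (hk : 5 ≤ k)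
    (F : Fm g k j l f Y) (hj : 1 ≤ j) (hj2 : j + 1 < k) (hl : l ≠ 2) {v : ι} (hv : v ∉ Y)
    (hp : ∀ Z ⊂ insert v Y, PD g Z) {a b : ℕ} (hab : a < b) (hb : b < k)
    (hva : adj g v (f a)) (hvb : adj g v (f b)) : j = 1 ∧ a = 0 ∧ b + 1 = k := by
  have hfY : ∀ c < k, f c ∈ Y := fun c hc => (F.mem _).2 ⟨c, hc, rfl⟩
  have hfv : ∀ c < k, f c ≠ v := fun c hc he => hv (he ▸ hfY c hc)
  have hne : ∀ c < k, ∀ d < k, c ≠ d → f c ≠ f d := fun c hc d hd hcd he =>
    hcd (F.inj c hc d hd he)
  have hstep : ∀ c, 1 ≤ c → c + 1 < k → adj g (f c) (f (c + 1)) := by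
    intro c hc hck
    rw [lab_adj h]
    refine ⟨hne c (by omega) (c + 1) hck (by omega), ?_⟩
    rw [F.cod (c + 1) hck c (by omega), if_neg (by omega), if_pos rfl]
    norm_num
  have h0j : adj g (f 0) (f j) := by
    rw [lab_adj h]
    refine ⟨hne 0 (by omega) j (by omega) (by omega), ?_⟩
    rw [F.cod j (by omega) 0 (by omega), if_pos rfl, if_pos rfl]
    exact hl
  -- the set without one element of `Y` is positive definite
  have hpd : ∀ c < k, PD g ((insert v Y).erase (f c)) := fun c hc =>
    hp _ (Finset.erase_ssubset (Finset.mem_insert_of_mem (hfY c hc)))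
  have hmemv : ∀ c < k, v ∈ (insert v Y).erase (f c) := fun c hc =>
    Finset.mem_erase.2 ⟨(hfv c hc).symm, Finset.mem_insert_self v Y⟩
  have hmemf : ∀ c < k, ∀ d < k, d ≠ c → f d ∈ (insert v Y).erase (f c) := fun c hc d hd hdc =>
    Finset.mem_erase.2 ⟨hne d hd c hc hdc, Finset.mem_insert_of_mem (hfY d hd)⟩
  rcases Nat.eq_zero_or_pos a with ha0 | ha0
  · subst ha0
    by_contra hcon
    rcases Nat.lt_or_ge b j with hbj | hbj
    · -- `v, f 0, f j, f (j - 1), ..., f b`
      refine Fmi_path h (hpd (j + 1) (by omega))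
        (fun i => if i = 0 then v else if i = 1 then f 0 else f (j + 2 - i)) (m := j - b + 2)
        (by omega) ?_ ?_ ?_ ?_
      · intro i hi i' hi' he
        beta_reduce at he
        split_ifs at he with h1 h2 h3 h4 h5 h6 h7
        · omega
        · exact absurd he.symm (hfv 0 (by omega))
        · exact absurd he.symm (hfv _ (by omega))
        · exact absurd he (hfv 0 (by omega))
        · omega
        · have := F.inj 0 (by omega) _ (by omega) he
          omega
        · exact absurd he (hfv _ (by omega))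
        · have := F.inj _ (by omega) 0 (by omega) he
          omega
        · have := F.inj _ (by omega) _ (by omega) he
          omega
      · intro i hi
        split_ifs with h1 h2
        · exact hmemv _ (by omega)
        · exact hmemf _ (by omega) 0 (by omega) (by omega)
        · exact hmemf _ (by omega) _ (by omega) (by omega)
      · intro i hi
        rcases Nat.lt_or_ge i 1 with h1 | h1
        · have : i = 0 := by omega
          subst this
          simpa using hva
        · rcases Nat.lt_or_ge i 2 with h2 | h2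
          · have : i = 1 := by omega
            subst this
            simpa using h0j
          · rw [if_neg (by omega), if_neg (by omega), if_neg (by omega), if_neg (by omega)]
            have h3 := hstep (j + 2 - (i + 1)) (by omega) (by omega)
            have h4 : j + 2 - (i + 1) + 1 = j + 2 - i := by omega
            rw [h4] at h3
            exact h.adj_comm.1 h3
      · rw [if_pos rfl, if_neg (by omega), if_neg (by omega)]
        have h4 : j + 2 - (j - b + 2) = b := by omega
        rw [h4]
        exact hvb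
    · -- `v, f 0, f j, f (j + 1), ..., f b`
      obtain ⟨c, hck, hcn⟩ : ∃ c < k, c ≠ 0 ∧ (c < j ∨ b < c) := by
        rcases Nat.lt_or_ge 1 j with hj1 | hj1
        · exact ⟨1, by omega, by omega, Or.inl hj1⟩
        · exact ⟨k - 1, by omega, by omega, Or.inr (by omega)⟩
      refine Fmi_path h (hpd c hck)
        (fun i => if i = 0 then v else if i = 1 then f 0 else f (j + i - 2)) (m := b - j + 2)
        (by omega) ?_ ?_ ?_ ?_
      · intro i hi i' hi' he
        beta_reduce at he
        split_ifs at he with h1 h2 h3 h4 h5 h6 h7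
        · omega
        · exact absurd he.symm (hfv 0 (by omega))
        · exact absurd he.symm (hfv _ (by omega))
        · exact absurd he (hfv 0 (by omega))
        · omega
        · have := F.inj 0 (by omega) _ (by omega) he
          omega
        · exact absurd he (hfv _ (by omega))
        · have := F.inj _ (by omega) 0 (by omega) he
          omega
        · have := F.inj _ (by omega) _ (by omega) he
          omega
      · intro i hi
        split_ifs with h1 h2
        · exact hmemv _ (by omega)
        · exact hmemf _ (by omega) 0 (by omega) (by omega)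
        · exact hmemf _ (by omega) _ (by omega) (by omega)
      · intro i hi
        rcases Nat.lt_or_ge i 1 with h1 | h1
        · have : i = 0 := by omega
          subst this
          simpa using hva
        · rcases Nat.lt_or_ge i 2 with h2 | h2
          · have : i = 1 := by omega
            subst this
            simpa using h0j
          · rw [if_neg (by omega), if_neg (by omega), if_neg (by omega), if_neg (by omega)]
            have h3 := hstep (j + i - 2) (by omega) (by omega)
            have h4 : j + i - 2 + 1 = j + (i + 1) - 2 := by omega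
            rw [h4] at h3
            exact h3
      · rw [if_pos rfl, if_neg (by omega), if_neg (by omega)]
        have h4 : j + (b - j + 2) - 2 = b := by omega
        rw [h4]
        exact hvb
  · exfalso
    -- `v, f a, ..., f b`
    refine Fmi_path h (hpd 0 (by omega))
      (fun i => if i = 0 then v else f (a + i - 1)) (m := b - a + 1)
      (by omega) ?_ ?_ ?_ ?_
    · intro i hi i' hi' he
      beta_reduce at he
      split_ifs at he with h1 h2 h3
      · omega
      · exact absurd he.symm (hfv _ (by omega))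
      · exact absurd he (hfv _ (by omega))
      · have := F.inj _ (by omega) _ (by omega) he
        omega
    · intro i hi
      split_ifs with h1
      · exact hmemv _ (by omega)
      · exact hmemf _ (by omega) _ (by omega) (by omega)
    · intro i hi
      rcases Nat.lt_or_ge i 1 with h1 | h1
      · have : i = 0 := by omega
        subst this
        simpa using hva
      · rw [if_neg (by omega), if_neg (by omega)]
        have h3 := hstep (a + i - 1) (by omega) (by omega)
        have h4 : a + i - 1 + 1 = a + (i + 1) - 1 := by omega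
        rw [h4] at h3
        exact h3
    · rw [if_pos rfl, if_neg (by omega)]
      have h4 : a + (b - a + 1) - 1 = b := by omega
      rw [h4]
      exact hvb

private theorem Fmi_lab4 (h : Diag g) {i j : ι} (hij : i ≠ j) (hl : 4 ≤ lab g i j) :
    g i j ≤ -(√2 / 2) := by
  have h2 : √2 ≤ 1.415 := by
    rw [Real.sqrt_le_left (by norm_num)]
    norm_num
  have h5 : 2 ≤ √5 := by
    rw [Real.le_sqrt' (by norm_num)]
    norm_num
  have h3 : 1.5 ≤ √3 := by
    rw [Real.le_sqrt' (by norm_num)]
    norm_num
  rcases lab_spec h hij with ⟨h1, h6⟩ | ⟨h1, h6⟩ | ⟨h1, h6⟩ | ⟨h1, h6⟩ | ⟨h1, h6⟩ | ⟨h1, h6, h7⟩ |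
    ⟨h1, h6⟩
  · omega
  · omega
  · exact h6.le
  · rw [h6]; norm_num at h2 ⊢; linarith
  · rw [h6]; norm_num at h2 h3 ⊢; linarith
  · norm_num at h2 ⊢; linarith
  · norm_num at h2 ⊢; linarith

private theorem Fmi_val (h : Diag g) {i j : ι} (hij : i ≠ j) :
    (lab g i j = 2 → g i j = 0) ∧ (lab g i j = 3 → g i j = -(1 / 2)) := by
  rcases lab_spec h hij with ⟨h1, h6⟩ | ⟨h1, h6⟩ | ⟨h1, h6⟩ | ⟨h1, h6⟩ | ⟨h1, h6⟩ | ⟨h1, h6, h7⟩ |
    ⟨h1, h6⟩ <;> refine ⟨fun h2 => ?_, fun h2 => ?_⟩ <;> first | exact h6 | omega

end

section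
variable {ι : Type} [Fintype ι] [DecidableEq ι] {n : ℕ} {g : ι → ι → ℝ}

private theorem Fmi_cycle (H : CoxH n g) {k l : ℕ} {f : ℕ → ι} {Y : Finset ι} (hk : 5 ≤ k)
    (F : Fm g k 1 l f Y) (hl : l = 3 ∨ l = 4) {v : ι} (hv : v ∉ Y)
    (hp : ∀ Z ⊂ insert v Y, PD g Z) (hv0 : adj g v (f 0)) (hvk : adj g v (f (k - 1))) : False := by
  have h : Diag g := H.toDiag
  have hfY : ∀ c < k, f c ∈ Y := fun c hc => (F.mem _).2 ⟨c, hc, rfl⟩
  have hfv : ∀ c < k, f c ≠ v := fun c hc he => hv (he ▸ hfY c hc)
  have hne : ∀ c < k, ∀ d < k, c ≠ d → f c ≠ f d := fun c hc d hd hcd he =>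
    hcd (F.inj c hc d hd he)
  have hl2 : l ≠ 2 := by omega
  have hcod : ∀ b < k, ∀ a < b, lab g (f a) (f b) =
      if b = a + 1 then (if a = 0 then l else 3) else 2 := by
    intro b hb a hab
    rw [F.cod b hb a hab]
    rcases Nat.eq_zero_or_pos a with h0 | h0
    · subst h0
      simp
    · rw [if_neg (by omega), if_neg (c := a = 0) (by omega)]
  have hstep : ∀ c, c + 1 < k → adj g (f c) (f (c + 1)) := by
    intro c hck
    rw [lab_adj h]
    refine ⟨hne c (by omega) (c + 1) hck (by omega), ?_⟩
    rw [hcod (c + 1) hck c (by omega), if_pos rfl]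
    split_ifs <;> omega
  have hnon : ∀ c, 0 < c → c + 1 < k → g v (f c) = 0 := by
    intro c hc hck
    by_contra h0
    have h1 := Fmi_two h hk F le_rfl (by omega) hl2 hv hp hc (by omega) hv0
      ⟨(hfv c (by omega)).symm, h0⟩
    omega
  have hpd : ∀ c < k, ∀ Z ⊆ (insert v Y).erase (f c), PD g Z := fun c hc Z hZ =>
    pd_subset (hp _ (Finset.erase_ssubset (Finset.mem_insert_of_mem (hfY c hc)))) hZ
  have hmemv : ∀ c < k, v ∈ (insert v Y).erase (f c) := fun c hc =>
    Finset.mem_erase.2 ⟨(hfv c hc).symm, Finset.mem_insert_self v Y⟩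
  have hmemf : ∀ c < k, ∀ d < k, d ≠ c → f d ∈ (insert v Y).erase (f c) := fun c hc d hd hdc =>
    Finset.mem_erase.2 ⟨hne d hd c hc hdc, Finset.mem_insert_of_mem (hfY d hd)⟩
  rcases hl with rfl | rfl
  · -- `A_k`
    by_cases h1 : 4 ≤ lab g v (f 0)
    · refine npd_F4 h (p := f (k - 1)) (q := v) (r := f 0) (s := f 1) (t := f 2) ?_
        (h.adj_comm.1 hvk) (Fmi_lab4 h (hfv 0 (by omega)).symm h1) (hstep 0 (by omega))
        (hstep 1 (by omega)) (hpd 3 (by omega) _ ?_)
      · simp only [List.nodup_cons, List.mem_cons, List.not_mem_nil, or_false, not_or,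
          not_false_eq_true, List.nodup_nil, and_true]
        exact ⟨⟨hfv _ (by omega), hne _ (by omega) _ (by omega) (by omega),
          hne _ (by omega) _ (by omega) (by omega), hne _ (by omega) _ (by omega) (by omega)⟩,
          ⟨(hfv _ (by omega)).symm, (hfv _ (by omega)).symm, (hfv _ (by omega)).symm⟩,
          ⟨hne _ (by omega) _ (by omega) (by omega), hne _ (by omega) _ (by omega) (by omega)⟩,
          hne _ (by omega) _ (by omega) (by omega)⟩
      · intro z hz
        simp only [Finset.mem_insert, Finset.mem_singleton] at hz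
        rcases hz with rfl | rfl | rfl | rfl | rfl
        · exact hmemf _ (by omega) _ (by omega) (by omega)
        · exact hmemv _ (by omega)
        · exact hmemf _ (by omega) _ (by omega) (by omega)
        · exact hmemf _ (by omega) _ (by omega) (by omega)
        · exact hmemf _ (by omega) _ (by omega) (by omega)
    by_cases h2 : 4 ≤ lab g v (f (k - 1))
    · have h3 : adj g (f (k - 1)) (f (k - 2)) := by
        have := hstep (k - 2) (by omega)
        rw [show k - 2 + 1 = k - 1 by omega] at this
        exact h.adj_comm.1 this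
      have h4 : adj g (f (k - 2)) (f (k - 3)) := by
        have := hstep (k - 3) (by omega)
        rw [show k - 3 + 1 = k - 2 by omega] at this
        exact h.adj_comm.1 this
      refine npd_F4 h (p := f 0) (q := v) (r := f (k - 1)) (s := f (k - 2)) (t := f (k - 3)) ?_
        (h.adj_comm.1 hv0) (Fmi_lab4 h (hfv _ (by omega)).symm h2) h3 h4 (hpd 1 (by omega) _ ?_)
      · simp only [List.nodup_cons, List.mem_cons, List.not_mem_nil, or_false, not_or,
          not_false_eq_true, List.nodup_nil, and_true]
        exact ⟨⟨hfv _ (by omega), hne _ (by omega) _ (by omega) (by omega),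
          hne _ (by omega) _ (by omega) (by omega), hne _ (by omega) _ (by omega) (by omega)⟩,
          ⟨(hfv _ (by omega)).symm, (hfv _ (by omega)).symm, (hfv _ (by omega)).symm⟩,
          ⟨hne _ (by omega) _ (by omega) (by omega), hne _ (by omega) _ (by omega) (by omega)⟩,
          hne _ (by omega) _ (by omega) (by omega)⟩
      · intro z hz
        simp only [Finset.mem_insert, Finset.mem_singleton] at hz
        rcases hz with rfl | rfl | rfl | rfl | rfl
        · exact hmemf _ (by omega) _ (by omega) (by omega)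
        · exact hmemv _ (by omega)
        · exact hmemf _ (by omega) _ (by omega) (by omega)
        · exact hmemf _ (by omega) _ (by omega) (by omega)
        · exact hmemf _ (by omega) _ (by omega) (by omega)
    -- both labels are `3`
    have h3 : g v (f 0) = -(1 / 2) := by
      refine (Fmi_val h hv0.1).2 ?_
      have h4 := (lab_adj h).1 hv0
      have h5 := lab_rng h hv0.1
      omega
    have h4 : g v (f (k - 1)) = -(1 / 2) := by
      refine (Fmi_val h hvk.1).2 ?_
      have h4 := (lab_adj h).1 hvk
      have h5 := lab_rng h hvk.1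
      omega
    refine cyc_par H.toCox (f := fun a => if a < k then f a else v) (k := k + 1) (by omega) ?_ ?_
    · intro a ha b hb he
      beta_reduce at he
      split_ifs at he with h5 h6 h7
      · exact F.inj a h5 b h6 he
      · exact absurd he (hfv a h5)
      · exact absurd he.symm (hfv b h7)
      · omega
    · intro b hb a hab
      rw [if_pos (show a < k by omega)]
      by_cases hbk : b < k
      · rw [if_pos hbk]
        have h5 := hcod b hbk a hab
        have h6 := Fmi_val h (hne a (by omega) b hbk (by omega))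
        by_cases h7 : b = a + 1
        · rw [if_pos (Or.inl h7)]
          refine h6.2 ?_
          rw [h5, if_pos h7]
          split_ifs <;> rfl
        · rw [if_neg (by omega)]
          refine h6.1 ?_
          rw [h5, if_neg h7]
      · have hbk' : b = k := by omega
        rw [if_neg hbk, h.symm]
        by_cases h5 : a = 0
        · subst h5
          rw [if_pos (by omega)]
          exact h3
        · by_cases h6 : a + 1 = k
          · rw [if_pos (by omega)]
            have h7 : a = k - 1 := by omega
            rw [h7]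
            exact h4
          · rw [if_neg (by omega)]
            exact hnon a (by omega) (by omega)
  · -- `B_k`
    have h01 : 4 ≤ lab g (f 0) (f 1) := by
      rw [hcod 1 (by omega) 0 (by omega)]
      simp
    refine npd_F4 h (p := v) (q := f 0) (r := f 1) (s := f 2) (t := f 3) ?_ hv0
      (Fmi_lab4 h (hne 0 (by omega) 1 (by omega) (by omega)) h01) (hstep 1 (by omega))
      (hstep 2 (by omega)) (hpd 4 (by omega) _ ?_)
    · simp only [List.nodup_cons, List.mem_cons, List.not_mem_nil, or_false, not_or,
        not_false_eq_true, List.nodup_nil, and_true]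
      exact ⟨⟨(hfv _ (by omega)).symm, (hfv _ (by omega)).symm, (hfv _ (by omega)).symm,
        (hfv _ (by omega)).symm⟩,
        ⟨hne _ (by omega) _ (by omega) (by omega), hne _ (by omega) _ (by omega) (by omega),
          hne _ (by omega) _ (by omega) (by omega)⟩,
        ⟨hne _ (by omega) _ (by omega) (by omega), hne _ (by omega) _ (by omega) (by omega)⟩,
        hne _ (by omega) _ (by omega) (by omega)⟩
    · intro z hz
      simp only [Finset.mem_insert, Finset.mem_singleton] at hz
      rcases hz with rfl | rfl | rfl | rfl | rfl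
      · exact hmemv _ (by omega)
      · exact hmemf _ (by omega) _ (by omega) (by omega)
      · exact hmemf _ (by omega) _ (by omega) (by omega)
      · exact hmemf _ (by omega) _ (by omega) (by omega)
      · exact hmemf _ (by omega) _ (by omega) (by omega)

private theorem Fmi_aux (H : CoxH n g) {k j l : ℕ} {f : ℕ → ι} {Y : Finset ι} (hk : 5 ≤ k)
    (F : Fm g k j l f Y) (hj : 1 ≤ j) (hj2 : j + 1 < k) (hl : l = 3 ∨ l = 4) {v : ι} (hv : v ∉ Y)
    (hp : ∀ Z ⊂ insert v Y, PD g Z) {a b : ℕ} (hab : a < b) (hb : b < k)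
    (hva : adj g v (f a)) (hvb : adj g v (f b)) : False := by
  obtain ⟨h1, h2, h3⟩ := Fmi_two H.toDiag hk F hj hj2 (by omega) hv hp hab hb hva hvb
  subst h1 h2
  have h4 : b = k - 1 := by omega
  rw [h4] at hvb
  exact Fmi_cycle H hk F hl hv hp hva hvb

private theorem Fmi_aux2 (H : CoxH n g) {k j l : ℕ} {f : ℕ → ι} {Y : Finset ι} (hk : 5 ≤ k)
    (F : Fm g k j l f Y) (hj : 1 ≤ j) (hj2 : j + 1 < k) (hl : l = 3 ∨ l = 4) {v : ι} (hv : v ∉ Y)
    (hp : ∀ Z ⊂ insert v Y, PD g Z) {x y : ι} (hx : x ∈ Y) (hy : y ∈ Y)
    (hvx : adj g v x) (hvy : adj g v y) : x = y := by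
  obtain ⟨a, ha, rfl⟩ := (F.mem x).1 hx
  obtain ⟨b, hb, rfl⟩ := (F.mem y).1 hy
  rcases lt_trichotomy a b with hab | hab | hab
  · exact (Fmi_aux H hk F hj hj2 hl hv hp hab hb hvx hvy).elim
  · rw [hab]
  · exact (Fmi_aux H hk F hj hj2 hl hv hp hab ha hvy hvx).elim

theorem one_nbr (H : CoxH n g) {k : ℕ} (hk : 5 ≤ k) {Y : Finset ι} (F : FamX g k Y) {v : ι}
    (hv : v ∉ Y) (hp : ∀ Z ⊂ insert v Y, PD g Z) {x y : ι} (hx : x ∈ Y) (hy : y ∈ Y)
    (hvx : adj g v x) (hvy : adj g v y) : x = y := by
  obtain ⟨f, F | F | F | ⟨h6, h8, F⟩⟩ := F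
  · exact Fmi_aux2 H hk F le_rfl (by omega) (Or.inl rfl) hv hp hx hy hvx hvy
  · exact Fmi_aux2 H hk F le_rfl (by omega) (Or.inr rfl) hv hp hx hy hvx hvy
  · exact Fmi_aux2 H hk F (by omega) (by omega) (Or.inl rfl) hv hp hx hy hvx hvy
  · exact Fmi_aux2 H hk F (by omega) (by omega) (Or.inl rfl) hv hp hx hy hvx hvy

end

end MP86a502
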