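import Pool.Agent.Lib.MP_86a502_gt.U.Def2

set_option autoImplicit false
set_option linter.unusedSectionVars false

/-! # JOB Geo. Two more geometric facts (80-140 lines)

* `lor_rcs` (reversed Cauchy-Schwarz): for `lor x x < 0` put `z = (lor x x) • y - (lor x y) • x`; then
  `lor x z = 0`, so `z = 0` or `0 < lor z z` (`lor_pos` is stated for `x` with `lor x x < 0`, `lor x z = 0`,
  `z ≠ 0`), and `lor z z = (lor x x) * ((lor x x) * (lor y y) - (lor x y)^2)`.
* `ccp_rcs`: `x = ∑ c_i e_i`, `y = ∑ d_i e_i`, `lor_sum_sum`.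
* `ccp_radon`: `n + 2` vectors in the `(n + 1)`-dimensional space `Fin (n + 1) → ℝ` are linearly
  dependent: `∑_{i ∈ W} c_i e_i = 0`, not all `c_i = 0` (`exists_nontrivial_relation_of_finrank_lt_card` or
  a `LinearIndependent` argument). `A = {i ∈ W | c_i > 0}`, `B = {i ∈ W | c_i < 0}`,
  `v = ∑_A c_i e_i = ∑_B (-c_i) e_i`. Both are nonempty: if `B = ∅` then `∑_A c_i e_i = 0` with positive
  coefficients, which is impossible by `Fac_zero` (with the interior point, `h.int`). And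
  `lor v v = ∑_{i ∈ A, j ∈ B} c_i (-c_j) g_ij ≤ 0` (`gram_off`), while `PD g A` would give `lor v v > 0`;
  similarly `B`. -/

namespace MP86a502

theorem lor_rcs {n : ℕ} {x y : Fin (n + 1) → ℝ} (hx : lor x x < 0) :
    lor x x * lor y y ≤ (lor x y) ^ 2 := by
  obtain ⟨z, hz⟩ : ∃ z, z = (lor x x) • y - (lor x y) • x := ⟨_, rfl⟩
  have h1 : lor x z = 0 := by
    rw [hz, lor_sub_right, lor_smul_right, lor_smul_right]
    ring
  have h2 : lor z z = lor x x * (lor x x * lor y y - (lor x y) ^ 2) := by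
    rw [hz, lor_sub_right, lor_sub_left, lor_sub_left]
    simp only [lor_smul_left, lor_smul_right]
    rw [lor_comm y x]
    ring
  have h3 : 0 ≤ lor z z := by
    by_cases h0 : z = 0
    · rw [h0, lor_zero_left]
    · exact (lor_pos hx h1 h0).le
  rw [h2] at h3
  by_contra hc
  rw [not_le] at hc
  have h4 : 0 < lor x x * lor y y - (lor x y) ^ 2 := by linarith
  have h5 := mul_neg_of_neg_of_pos hx h4
  linarith

section
variable {n N : ℕ} {e : Fin N → Fin (n + 1) → ℝ}

theorem ccp_rcs (c d : Fin N → ℝ) (hc : ∑ i, ∑ j, c i * c j * gram e i j < 0) :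
    (∑ i, ∑ j, c i * c j * gram e i j) * (∑ i, ∑ j, d i * d j * gram e i j) ≤
      (∑ i, ∑ j, c i * d j * gram e i j) ^ 2 := by
  have e1 : ∀ a b : Fin N → ℝ, ∑ i, ∑ j, a i * b j * gram e i j = lor (∑ i, a i • e i) (∑ j, b j • e j) := by
    intro a b
    rw [lor_sum_sum]
    rfl
  rw [e1] at hc
  rw [e1, e1, e1]
  exact lor_rcs hc

private theorem Geo_dep {n N : ℕ} {e : Fin N → Fin (n + 1) → ℝ} (W : Finset (Fin N)) (hW : W.card = n + 2) :
    ∃ c : Fin N → ℝ, ∑ i ∈ W, c i • e i = 0 ∧ ∃ i ∈ W, c i ≠ 0 := by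
  classical
  have h1 : ¬ LinearIndependent ℝ (fun i : W => e i) := by
    intro hl
    have h2 := hl.fintype_card_le_finrank
    rw [Module.finrank_fintype_fun_eq_card, Fintype.card_fin, Fintype.card_coe, hW] at h2
    omega
  rw [Fintype.not_linearIndependent_iff] at h1
  obtain ⟨c, hc, i, hi⟩ := h1
  refine ⟨fun j => if hj : j ∈ W then c ⟨j, hj⟩ else 0, ?_, i.1, i.2, ?_⟩
  · rw [← Finset.sum_coe_sort W]
    rw [← hc]
    refine Finset.sum_congr rfl fun j _ => ?_
    show (if hj : j.1 ∈ W then c ⟨j.1, hj⟩ else 0) • e j.1 = c j • e j.1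
    rw [dif_pos j.2]
  · show (if hj : i.1 ∈ W then c ⟨i.1, hj⟩ else 0) ≠ 0
    rw [dif_pos i.2]
    exact hi

theorem ccp_radon (h : CCP n N e) (W : Finset (Fin N)) (hW : W.card = n + 2) :
    ∃ A ⊆ W, ∃ B ⊆ W, Disjoint A B ∧ ¬ PD (gram e) A ∧ ¬ PD (gram e) B := by
  classical
  obtain ⟨c, hc0, i0, hi0, hci0⟩ := Geo_dep (e := e) W hW
  obtain ⟨p, _, _, hp⟩ := h.int
  obtain ⟨A, hA⟩ : ∃ A, A = W.filter (fun i => 0 < c i) := ⟨_, rfl⟩
  obtain ⟨B, hB⟩ : ∃ B, B = W.filter (fun i => c i < 0) := ⟨_, rfl⟩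
  have mA : ∀ i, i ∈ A ↔ i ∈ W ∧ 0 < c i := fun i => by rw [hA, Finset.mem_filter]
  have mB : ∀ i, i ∈ B ↔ i ∈ W ∧ c i < 0 := fun i => by rw [hB, Finset.mem_filter]
  have hd : Disjoint A B := by
    rw [Finset.disjoint_left]
    intro i h1 h2
    have h3 := ((mA i).1 h1).2
    have h4 := ((mB i).1 h2).2
    linarith
  have hsum : ∑ i ∈ A, c i • e i + ∑ i ∈ B, c i • e i = 0 := by
    rw [← Finset.sum_union hd, ← hc0]
    refine Finset.sum_subset ?_ fun i hi hn => ?_
    · intro i hi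
      rcases Finset.mem_union.1 hi with h1 | h1
      · exact ((mA i).1 h1).1
      · exact ((mB i).1 h1).1
    · have h1 : c i = 0 := by
        by_contra hne
        rcases lt_or_gt_of_ne hne with h2 | h2
        · exact hn (Finset.mem_union.2 (Or.inr ((mB i).2 ⟨hi, h2⟩)))
        · exact hn (Finset.mem_union.2 (Or.inl ((mA i).2 ⟨hi, h2⟩)))
      rw [h1, zero_smul]
  have hneg : ∑ i ∈ A, c i • e i = ∑ i ∈ B, (-c i) • e i := by
    simp only [neg_smul, Finset.sum_neg_distrib]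
    exact eq_neg_of_add_eq_zero_left hsum
  have hle : lor (∑ i ∈ A, c i • e i) (∑ i ∈ B, (-c i) • e i) ≤ 0 := by
    rw [lor_sum_left]
    refine Finset.sum_nonpos fun i hi => ?_
    rw [lor_sum_right]
    refine Finset.sum_nonpos fun j hj => ?_
    rw [lor_smul_left, lor_smul_right]
    have h1 := ((mA i).1 hi).2
    have h2 := ((mB j).1 hj).2
    have hij : i ≠ j := by
      rintro rfl
      linarith
    have h3 : lor (e i) (e j) ≤ 0 := gram_off h hij
    have h4 : 0 ≤ c i * (-c j) := mul_nonneg h1.le (by linarith)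
    nlinarith
  have hAne : A.Nonempty := by
    rw [Finset.nonempty_iff_ne_empty]
    intro h0
    rw [h0, Finset.sum_empty] at hneg
    have h1 := Fac_zero (e := e) hp (S := B) (c := fun i => -c i) (fun i hi => by
      have := ((mB i).1 hi).2
      linarith) hneg.symm
    rcases lt_or_gt_of_ne hci0 with h2 | h2
    · have h3 := h1 i0 ((mB i0).2 ⟨hi0, h2⟩)
      linarith
    · have h3 := (mA i0).2 ⟨hi0, h2⟩
      rw [h0] at h3
      exact absurd h3 (Finset.notMem_empty _)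
  have hBne : B.Nonempty := by
    rw [Finset.nonempty_iff_ne_empty]
    intro h0
    rw [h0, Finset.sum_empty] at hneg
    have h1 := Fac_zero (e := e) hp (S := A) (c := c) (fun i hi => ((mA i).1 hi).2.le) hneg
    obtain ⟨i, hi⟩ := hAne
    have h2 := h1 i hi
    have h3 := ((mA i).1 hi).2
    linarith
  refine ⟨A, fun i hi => ((mA i).1 hi).1, B, fun i hi => ((mB i).1 hi).1, hd, fun hPA => ?_, fun hPB => ?_⟩
  · obtain ⟨i, hi⟩ := hAne
    have h1 := hPA c ⟨i, hi, (((mA i).1 hi).2).ne'⟩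
    have h2 : ∑ i ∈ A, ∑ j ∈ A, c i * c j * gram e i j = lor (∑ i ∈ A, c i • e i) (∑ i ∈ A, c i • e i) := by
      rw [lor_sum_sum]
      rfl
    rw [h2] at h1
    nth_rewrite 2 [hneg] at h1
    linarith
  · obtain ⟨i, hi⟩ := hBne
    have h1 := hPB (fun i => -c i) ⟨i, hi, (neg_pos.2 ((mB i).1 hi).2).ne'⟩
    have h2 : ∑ i ∈ B, ∑ j ∈ B, (-c i) * (-c j) * gram e i j = lor (∑ i ∈ B, (-c i) • e i) (∑ i ∈ B, (-c i) • e i) := by
      rw [lor_sum_sum]
      rfl
    rw [h2] at h1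
    nth_rewrite 1 [← hneg] at h1
    linarith

theorem coxH_of_ccp (h : CCP n N e) (hn : 2 ≤ n) : CoxH n (gram e) where
  toCox := cox_of_ccp h hn
  rcs := ccp_rcs
  radon := ccp_radon h

end

end MP86a502
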