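import Pool.Agent.Lib.MP_86a502_gt.U.Gwd

set_option autoImplicit false
set_option linter.unusedSectionVars false

/-! # JOB Gwb. A slot determines the exceptional graph (150-250 lines)

`f 0 - f 1 - f 2 - f 3 - f 4` and `f 5 - f 6 - f 7 - f 8 - f 9`, labels `5, 3, 3, 3`, and `f 3 - f 9` (label
`3`); no other edges, and no facet of `W` outside is adjacent to one of these ten.
`W.erase (f u)`, `.erase (f (5 + v))` is a vertex for `u < 4` or `v = 4` (`S31.ver`).

A slot (`true, u, v`), `u ∈ {0, 1, 2}`, `v ∈ {2, 3}`: `S = W \ {f u, f (5+v)}`, `K = {f 5, ..., f (4+v)}`;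
a slot (`false, u, v`), `u ∈ {2, 3}`, `v ∈ {0, 1, 2}`: `S = W \ {f u, f (5+v)}`, `K = {f 0, ..., f (u-1)}`.
`K` has two or three elements and is a component of `S` of type `I2(5)` (`t = 17`) or `H3` (`t = 18`).

`slot_uniq`: a slot `(S, K)` determines `W`. For a vertex `S` and `k ∈ S` there is at most one facet
`z ∉ S` such that `insert z (S.erase k)` is a vertex (`ctc_uniq`); call it the other facet for `k`.
(1) The other facet `b` for the elements of `K` is `f (5+v)` (first kind) or `f u` (second kind): e.g.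
`insert (f (5+v)) (S.erase (f (5+w))) = W \ {f u, f (5+w)}`.
(2) `|K| = 2`: exactly one element `x₁` of `S \ K` is adjacent to `b`: `f 8` (first kind, `v = 2`) or
`f 3` (second kind, `u = 2`); in the first kind `x₁` has exactly one neighbour in `S` (`f 9`), in the
second kind exactly two (`f 4`, `f 9`). `|K| = 3`: `b` has exactly one neighbour in `S \ K` (`f 9`) in the
first kind, and two (`f 4`, `f 9`) in the second kind. So both slots have the same kind and the same `v`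
(first kind) or `u` (second kind).
(3) First kind: the chain from `b` leads to `f 3`: `v = 3`: `f 9` is the neighbour of `b` in `S \ K`, `f 3`
the neighbour of `f 9` in `S`; `v = 2`: `f 8`, then `f 9` (its neighbour in `S`), then `f 3` (the neighbour
of `f 9` in `S` other than `f 8`). The other facet for `f 3` is `f u` (`u ≤ 2`), so
`W = insert (f u) (insert b S)` is determined.
(4) Second kind: `f 4`, `f 9` are the neighbours of `f 3` in `S` (`f 3 = x₁ ∈ S` for `u = 2`, `f 3 = b` for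
`u = 3`); `f 9` has another neighbour in `S` (`f 8`), `f 4` has none, so `f 9` is determined; the other
facet for `f 9` is `f (5+v)`, so `W = insert (f (5+v)) (insert b S)`. -/

namespace MP86a502

section
variable {ι : Type} [Fintype ι] [DecidableEq ι] {n : ℕ} {g : ι → ι → ℝ} {W : Finset ι}

/-- the neighbours of node `i` in the slot with the facets `u`, `5 + v` removed -/
def Gwb_nb (u v i : ℕ) : Finset ℕ :=
  (Finset.range 10).filter (fun j => j ≠ 5 + v ∧ j ≠ u ∧ j ≠ i ∧ p31 i j ≠ 2)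

theorem Gwb_vals :
    (∀ u < 3, Gwb_nb u 2 7 \ {5, 6} = {8} ∧ Gwb_nb u 2 8 = {9} ∧ Gwb_nb u 2 9 = {3, 8} ∧
      Gwb_nb u 3 8 \ {5, 6, 7} = {9} ∧ Gwb_nb u 3 9 = {3}) ∧
    (∀ v < 3, Gwb_nb 2 v 2 \ {0, 1} = {3} ∧ Gwb_nb 2 v 3 = {4, 9} ∧ Gwb_nb 2 v 4 = {3} ∧
      Gwb_nb 2 v 9 = {3, 8} ∧
      Gwb_nb 3 v 3 \ {0, 1, 2} = {4, 9} ∧ Gwb_nb 3 v 4 = ∅ ∧ Gwb_nb 3 v 9 = {8}) := by
  decide +kernel

/-- the part common to all slots -/
structure Gwb_com (n : ℕ) (g : ι → ι → ℝ) (W S K : Finset ι) (b c x : ι) : Prop where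
  eq : W = insert c (insert b S)
  bS : b ∉ S
  cS : c ∉ S
  ver : S ∈ verts n g
  xS : x ∈ S
  Kne : K.Nonempty
  KS : ∀ k ∈ K, k ∈ S ∧ insert b (S.erase k) ∈ verts n g
  vc : insert c (S.erase x) ∈ verts n g

theorem Gwb_com_b (H : Cox n g) {W W' S K : Finset ι} {b c x b' c' x' : ι}
    (h : Gwb_com n g W S K b c x) (h' : Gwb_com n g W' S K b' c' x') : b = b' := by
  obtain ⟨k, hk⟩ := h.Kne
  exact ctc_uniq H h.ver (h.KS k hk).1 h.bS h'.bS (h.KS k hk).2 (h'.KS k hk).2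

theorem Gwb_com_W (H : Cox n g) {W W' S K : Finset ι} {b c x b' c' x' : ι}
    (h : Gwb_com n g W S K b c x) (h' : Gwb_com n g W' S K b' c' x') (hx : x = x') : W = W' := by
  have hb := Gwb_com_b H h h'
  subst hx
  have hc := ctc_uniq H h.ver h.xS h.cS h'.cS h.vc h'.vc
  rw [h.eq, h'.eq, hb, hc]

/-- the vertices -/
theorem Gwb_vtx {f : ℕ → ι} (h : S31 n g W f) {u v : ℕ} (hu : u < 5) (hv : v < 5)
    (huv : u < 4 ∨ v = 4) : (W.erase (f u)).erase (f (5 + v)) ∈ verts n g := by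
  rw [mem_verts]
  refine ⟨?_, h.ver u hu v hv huv⟩
  have h1 := h.mem u (by omega)
  have h2 := h.mem (5 + v) (by omega)
  have hne : f (5 + v) ≠ f u := by
    intro e
    have := h.inj _ (by omega) _ (by omega) e
    omega
  rw [Finset.card_erase_of_mem (Finset.mem_erase.2 ⟨hne, h2⟩), Finset.card_erase_of_mem h1, h.card]
  omega

theorem Gwb_adj {f : ℕ → ι} (H : Cox n g) (h : S31 n g W f) {i j : ℕ} (hi : i < 10) (hj : j < 10) :
    adj g (f i) (f j) ↔ i ≠ j ∧ p31 i j ≠ 2 := by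
  rw [lab_adj H.toDiag]
  constructor
  · rintro ⟨h1, h2⟩
    have hij : i ≠ j := fun e => h1 (by rw [e])
    rw [h.lb i hi j hj hij] at h2
    exact ⟨hij, h2⟩
  · rintro ⟨h1, h2⟩
    refine ⟨fun e => h1 (h.inj i hi j hj e), ?_⟩
    rw [h.lb i hi j hj h1]
    exact h2

theorem Gwb_mem {f : ℕ → ι} (H : Cox n g) (h : S31 n g W f) {u v i : ℕ} (hu : u < 10)
    (hv : 5 + v < 10) (hi : i < 10) (z : ι) :
    (z ∈ (W.erase (f u)).erase (f (5 + v)) ∧ adj g (f i) z) ↔ ∃ j ∈ Gwb_nb u v i, f j = z := by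
  constructor
  · rintro ⟨h1, h2⟩
    rw [Finset.mem_erase, Finset.mem_erase] at h1
    obtain ⟨j, hj, rfl⟩ := h.closed i hi z h1.2.2 h2
    refine ⟨j, ?_, rfl⟩
    rw [Gwb_adj H h hi hj] at h2
    unfold Gwb_nb
    rw [Finset.mem_filter, Finset.mem_range]
    refine ⟨hj, ?_, ?_, fun e => h2.1 e.symm, h2.2⟩
    · rintro rfl
      exact h1.1 rfl
    · rintro rfl
      exact h1.2.1 rfl
  · rintro ⟨j, hj, rfl⟩
    unfold Gwb_nb at hj
    rw [Finset.mem_filter, Finset.mem_range] at hj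
    obtain ⟨hj, h1, h2, h3, h4⟩ := hj
    refine ⟨?_, ?_⟩
    · rw [Finset.mem_erase, Finset.mem_erase]
      exact ⟨fun e => h1 (h.inj _ hj _ hv e), fun e => h2 (h.inj _ hj _ hu e), h.mem j hj⟩
    · rw [Gwb_adj H h hi hj]
      exact ⟨fun e => h3 e.symm, h4⟩

/-- the same outside a set of nodes -/
theorem Gwb_memK {f : ℕ → ι} (H : Cox n g) (h : S31 n g W f) {u v i : ℕ} (hu : u < 10)
    (hv : 5 + v < 10) (hi : i < 10) {k : Finset ℕ} (hk : ∀ j ∈ k, j < 10) (z : ι) :
    (z ∈ (W.erase (f u)).erase (f (5 + v)) ∧ z ∉ k.image f ∧ adj g (f i) z) ↔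
      ∃ j ∈ Gwb_nb u v i \ k, f j = z := by
  constructor
  · rintro ⟨h1, h2, h3⟩
    obtain ⟨j, hj, rfl⟩ := (Gwb_mem H h hu hv hi z).1 ⟨h1, h3⟩
    refine ⟨j, Finset.mem_sdiff.2 ⟨hj, fun hjk => h2 (Finset.mem_image_of_mem f hjk)⟩, rfl⟩
  · rintro ⟨j, hj, rfl⟩
    rw [Finset.mem_sdiff] at hj
    obtain ⟨h1, h2⟩ := (Gwb_mem H h hu hv hi (f j)).2 ⟨j, hj.1, rfl⟩
    refine ⟨h1, ?_, h2⟩
    intro hh
    obtain ⟨l, hl, e⟩ := Finset.mem_image.1 hh
    have hj10 : j < 10 := by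
      have := hj.1
      unfold Gwb_nb at this
      rw [Finset.mem_filter, Finset.mem_range] at this
      exact this.1
    exact hj.2 (h.inj l (hk l hl) j hj10 e ▸ hl)

theorem Gwb_set1 {a b c : ι} (hb : b ∈ W) (hab : a ≠ b) (hbc : b ≠ c) :
    insert b (((W.erase a).erase b).erase c) = (W.erase a).erase c := by
  ext z
  simp only [Finset.mem_insert, Finset.mem_erase]
  constructor
  · rintro (rfl | ⟨h1, h2, h3, h4⟩)
    · exact ⟨hbc, hab.symm, hb⟩
    · exact ⟨h1, h3, h4⟩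
  · rintro ⟨h1, h2, h3⟩
    by_cases hz : z = b
    · exact Or.inl hz
    · exact Or.inr ⟨h1, hz, h2, h3⟩

theorem Gwb_set2 {a b c : ι} (ha : a ∈ W) (hab : a ≠ b) (hac : a ≠ c) :
    insert a (((W.erase a).erase b).erase c) = (W.erase c).erase b := by
  ext z
  simp only [Finset.mem_insert, Finset.mem_erase]
  constructor
  · rintro (rfl | ⟨h1, h2, h3, h4⟩)
    · exact ⟨hab, hac, ha⟩
    · exact ⟨h2, h1, h4⟩
  · rintro ⟨h1, h2, h3⟩
    by_cases hz : z = a
    · exact Or.inl hz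
    · exact Or.inr ⟨h2, h1, hz, h3⟩

theorem Gwb_set3 {a b : ι} (ha : a ∈ W) (hb : b ∈ W) :
    W = insert a (insert b ((W.erase a).erase b)) := by
  ext z
  simp only [Finset.mem_insert, Finset.mem_erase]
  constructor
  · intro hz
    by_cases h1 : z = a
    · exact Or.inl h1
    · by_cases h2 : z = b
      · exact Or.inr (Or.inl h2)
      · exact Or.inr (Or.inr ⟨h2, h1, hz⟩)
  · rintro (rfl | rfl | h)
    · exact ha
    · exact hb
    · exact h.2.2

/-- first kind -/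
theorem Gwb_com1 {f : ℕ → ι} (h : S31 n g W f) {u v : ℕ} (hu : u < 3) (hv0 : 0 < v) (hv : v < 4) :
    Gwb_com n g W ((W.erase (f u)).erase (f (5 + v))) ((Finset.Ico 5 (5 + v)).image f) (f (5 + v))
      (f u) (f 3) := by
  have hne : ∀ i < 10, ∀ j < 10, i ≠ j → f i ≠ f j := fun i hi j hj hij e => hij (h.inj i hi j hj e)
  refine ⟨Gwb_set3 (h.mem u (by omega)) (h.mem (5 + v) (by omega)), ?_, ?_,
    Gwb_vtx h (by omega) (by omega) (by omega), ?_, ?_, ?_, ?_⟩
  · exact Finset.notMem_erase _ _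
  · rw [Finset.mem_erase, Finset.mem_erase]
    exact fun hh => hh.2.1 rfl
  · rw [Finset.mem_erase, Finset.mem_erase]
    exact ⟨hne _ (by omega) _ (by omega) (by omega), hne _ (by omega) _ (by omega) (by omega),
      h.mem 3 (by omega)⟩
  · rw [Finset.image_nonempty, Finset.nonempty_Ico]
    omega
  · intro k hk
    obtain ⟨w, hw, rfl⟩ := Finset.mem_image.1 hk
    rw [Finset.mem_Ico] at hw
    refine ⟨?_, ?_⟩
    · rw [Finset.mem_erase, Finset.mem_erase]
      exact ⟨hne _ (by omega) _ (by omega) (by omega), hne _ (by omega) _ (by omega) (by omega),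
        h.mem w (by omega)⟩
    · rw [Gwb_set1 (h.mem _ (by omega)) (hne _ (by omega) _ (by omega) (by omega))
        (hne _ (by omega) _ (by omega) (by omega))]
      have := Gwb_vtx h (u := u) (v := w - 5) (by omega) (by omega) (by omega)
      have e : 5 + (w - 5) = w := by omega
      rw [e] at this
      exact this
  · rw [Gwb_set2 (h.mem _ (by omega)) (hne _ (by omega) _ (by omega) (by omega))
      (hne _ (by omega) _ (by omega) (by omega))]
    exact Gwb_vtx h (u := 3) (v := v) (by omega) (by omega) (by omega)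

/-- second kind -/
theorem Gwb_com2 {f : ℕ → ι} (h : S31 n g W f) {u v : ℕ} (hu0 : 0 < u) (hu : u < 4) (hv : v < 3) :
    Gwb_com n g W ((W.erase (f u)).erase (f (5 + v))) ((Finset.range u).image f) (f u)
      (f (5 + v)) (f 9) := by
  have hne : ∀ i < 10, ∀ j < 10, i ≠ j → f i ≠ f j := fun i hi j hj hij e => hij (h.inj i hi j hj e)
  refine ⟨?_, ?_, ?_, Gwb_vtx h (by omega) (by omega) (by omega), ?_, ?_, ?_, ?_⟩
  · rw [Finset.insert_comm]
    exact Gwb_set3 (h.mem u (by omega)) (h.mem (5 + v) (by omega))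
  · rw [Finset.mem_erase, Finset.mem_erase]
    exact fun hh => hh.2.1 rfl
  · exact Finset.notMem_erase _ _
  · rw [Finset.mem_erase, Finset.mem_erase]
    exact ⟨hne _ (by omega) _ (by omega) (by omega), hne _ (by omega) _ (by omega) (by omega),
      h.mem 9 (by omega)⟩
  · rw [Finset.image_nonempty, Finset.nonempty_range_iff]
    omega
  · intro k hk
    obtain ⟨w, hw, rfl⟩ := Finset.mem_image.1 hk
    rw [Finset.mem_range] at hw
    refine ⟨?_, ?_⟩
    · rw [Finset.mem_erase, Finset.mem_erase]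
      exact ⟨hne _ (by omega) _ (by omega) (by omega), hne _ (by omega) _ (by omega) (by omega),
        h.mem w (by omega)⟩
    · rw [Gwb_set2 (h.mem _ (by omega)) (hne _ (by omega) _ (by omega) (by omega))
        (hne _ (by omega) _ (by omega) (by omega))]
      exact Gwb_vtx h (u := w) (v := v) (by omega) (by omega) (by omega)
  · rw [Gwb_set1 (h.mem _ (by omega)) (hne _ (by omega) _ (by omega) (by omega))
      (hne _ (by omega) _ (by omega) (by omega))]
    exact Gwb_vtx h (u := u) (v := 4) (by omega) (by omega) (by omega)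

/-- the four shapes -/
def Gwb_dat (n : ℕ) (g : ι → ι → ℝ) (W S K : Finset ι) : Prop :=
  (K.card = 2 ∧ ∃ b c x1 x2 x3, Gwb_com n g W S K b c x3 ∧
    (∀ z, (z ∈ S ∧ z ∉ K ∧ adj g b z) ↔ z = x1) ∧ (∀ z, (z ∈ S ∧ adj g x1 z) ↔ z = x2) ∧
    (∀ z, (z ∈ S ∧ adj g x2 z) ↔ (z = x3 ∨ z = x1)) ∧ x3 ≠ x1) ∨
  (K.card = 3 ∧ ∃ b c x2 x3, Gwb_com n g W S K b c x3 ∧
    (∀ z, (z ∈ S ∧ z ∉ K ∧ adj g b z) ↔ z = x2) ∧ (∀ z, (z ∈ S ∧ adj g x2 z) ↔ z = x3)) ∨
  (K.card = 2 ∧ ∃ b c x1 x4 x9, Gwb_com n g W S K b c x9 ∧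
    (∀ z, (z ∈ S ∧ z ∉ K ∧ adj g b z) ↔ z = x1) ∧
    (∀ z, (z ∈ S ∧ adj g x1 z) ↔ (z = x4 ∨ z = x9)) ∧ x4 ≠ x9 ∧
    (∀ z, (z ∈ S ∧ adj g x4 z) ↔ z = x1) ∧ ∃ x8, (x8 ∈ S ∧ adj g x9 x8) ∧ x8 ≠ x1) ∨
  (K.card = 3 ∧ ∃ b c x4 x9, Gwb_com n g W S K b c x9 ∧
    (∀ z, (z ∈ S ∧ z ∉ K ∧ adj g b z) ↔ (z = x4 ∨ z = x9)) ∧ x4 ≠ x9 ∧
    (∀ z, ¬ (z ∈ S ∧ adj g x4 z)) ∧ ∃ x8, x8 ∈ S ∧ adj g x9 x8)

theorem Gwb_data (H : Cox n g) {f : ℕ → ι} (h : S31 n g W f) {i : Bool × ℕ × ℕ} (hi : i ∈ slI) :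
    Gwb_dat n g W (slot W f i).1 (slot W f i).2 := by
  obtain ⟨V1, V2⟩ := Gwb_vals
  have hne : ∀ i < 10, ∀ j < 10, i ≠ j → f i ≠ f j := fun i hi j hj hij e => hij (h.inj i hi j hj e)
  have hinj : ∀ s : Finset ℕ, (∀ j ∈ s, j < 10) → (s.image f).card = s.card := by
    intro s hs
    apply Finset.card_image_of_injOn
    intro a ha b hb e
    exact h.inj a (hs a ha) b (hs b hb) e
  have key : (i.1 = true ∧ i.2.1 < 3 ∧ (i.2.2 = 2 ∨ i.2.2 = 3)) ∨
      (i.1 = false ∧ i.2.2 < 3 ∧ (i.2.1 = 2 ∨ i.2.1 = 3)) := by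
    have : ∀ i ∈ slI, (i.1 = true ∧ i.2.1 < 3 ∧ (i.2.2 = 2 ∨ i.2.2 = 3)) ∨
      (i.1 = false ∧ i.2.2 < 3 ∧ (i.2.1 = 2 ∨ i.2.1 = 3)) := by decide
    exact this i hi
  obtain ⟨k, u, v⟩ := i
  simp only at key
  rcases key with ⟨rfl, hu, rfl | rfl⟩ | ⟨rfl, hv, rfl | rfl⟩
  · obtain ⟨e1, e2, e3, -, -⟩ := V1 u hu
    refine Or.inl ⟨?_, f 7, f u, f 8, f 9, f 3, Gwb_com1 h (v := 2) hu (by omega) (by omega), ?_, ?_, ?_,
      hne _ (by omega) _ (by omega) (by omega)⟩
    · simp only [slot, if_true]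
      rw [hinj _ (by intro j hj; rw [Finset.mem_Ico] at hj; omega)]
      simp
    · intro z
      have := Gwb_memK H h (u := u) (v := 2) (i := 7) (by omega) (by omega) (by omega)
        (k := Finset.Ico 5 (5 + 2)) (by intro j hj; rw [Finset.mem_Ico] at hj; omega) z
      simp only [slot, if_true]
      rw [this, show Finset.Ico 5 (5 + 2) = {5, 6} from by decide, e1]
      simp [eq_comm]
    · intro z
      simp only [slot]
      rw [Gwb_mem H h (by omega) (by omega) (by omega), e2]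
      simp [eq_comm]
    · intro z
      simp only [slot]
      rw [Gwb_mem H h (by omega) (by omega) (by omega), e3]
      simp [eq_comm]
  · obtain ⟨-, -, -, e1, e2⟩ := V1 u hu
    refine Or.inr (Or.inl ⟨?_, f 8, f u, f 9, f 3, Gwb_com1 h (v := 3) hu (by omega) (by omega), ?_, ?_⟩)
    · simp only [slot, if_true]
      rw [hinj _ (by intro j hj; rw [Finset.mem_Ico] at hj; omega)]
      simp
    · intro z
      have := Gwb_memK H h (u := u) (v := 3) (i := 8) (by omega) (by omega) (by omega)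
        (k := Finset.Ico 5 (5 + 3)) (by intro j hj; rw [Finset.mem_Ico] at hj; omega) z
      simp only [slot, if_true]
      rw [this, show Finset.Ico 5 (5 + 3) = {5, 6, 7} from by decide, e1]
      simp [eq_comm]
    · intro z
      simp only [slot]
      rw [Gwb_mem H h (by omega) (by omega) (by omega), e2]
      simp [eq_comm]
  · obtain ⟨e1, e2, e3, e4, -, -, -⟩ := V2 v hv
    refine Or.inr (Or.inr (Or.inl ⟨?_, f 2, f (5 + v), f 3, f 4, f 9,
      Gwb_com2 h (u := 2) (by omega) (by omega) hv, ?_, ?_, hne _ (by omega) _ (by omega) (by omega), ?_,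
      f 8, ?_, hne _ (by omega) _ (by omega) (by omega)⟩))
    · simp only [slot, Bool.false_eq_true, if_false]
      rw [hinj _ (by intro j hj; rw [Finset.mem_range] at hj; omega)]
      simp
    · intro z
      have := Gwb_memK H h (u := 2) (v := v) (i := 2) (by omega) (by omega) (by omega)
        (k := Finset.range 2) (by intro j hj; rw [Finset.mem_range] at hj; omega) z
      simp only [slot, Bool.false_eq_true, if_false]
      rw [this, show Finset.range 2 = {0, 1} from by decide, e1]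
      simp [eq_comm]
    · intro z
      simp only [slot]
      rw [Gwb_mem H h (by omega) (by omega) (by omega), e2]
      simp [eq_comm]
    · intro z
      simp only [slot]
      rw [Gwb_mem H h (by omega) (by omega) (by omega), e3]
      simp [eq_comm]
    · simp only [slot]
      rw [Gwb_mem H h (by omega) (by omega) (by omega), e4]
      exact ⟨8, by simp, rfl⟩
  · obtain ⟨-, -, -, -, e1, e2, e3⟩ := V2 v hv
    refine Or.inr (Or.inr (Or.inr ⟨?_, f 3, f (5 + v), f 4, f 9,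
      Gwb_com2 h (u := 3) (by omega) (by omega) hv, ?_, hne _ (by omega) _ (by omega) (by omega), ?_,
      f 8, ?_⟩))
    · simp only [slot, Bool.false_eq_true, if_false]
      rw [hinj _ (by intro j hj; rw [Finset.mem_range] at hj; omega)]
      simp
    · intro z
      have := Gwb_memK H h (u := 3) (v := v) (i := 3) (by omega) (by omega) (by omega)
        (k := Finset.range 3) (by intro j hj; rw [Finset.mem_range] at hj; omega) z
      simp only [slot, Bool.false_eq_true, if_false]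
      rw [this, show Finset.range 3 = {0, 1, 2} from by decide, e1]
      simp [eq_comm]
    · intro z
      simp only [slot]
      rw [Gwb_mem H h (by omega) (by omega) (by omega), e2]
      simp
    · simp only [slot]
      rw [Gwb_mem H h (by omega) (by omega) (by omega), e3]
      exact ⟨8, by simp, rfl⟩

theorem Gwb_comb (H : Cox n g) {W W' S K : Finset ι} (h : Gwb_dat n g W S K)
    (h' : Gwb_dat n g W' S K) : W = W' := by
  rcases h with ⟨hK, b, c, x1, x2, x3, hc, h1, h2, h3, h4⟩ | ⟨hK, b, c, x2, x3, hc, h1, h2⟩ |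
    ⟨hK, b, c, x1, x4, x9, hc, h1, h2, h3, h4, x8, h5, h6⟩ |
    ⟨hK, b, c, x4, x9, hc, h1, h2, h3, x8, h4⟩
  · rcases h' with ⟨hK', b', c', y1, y2, y3, hc', k1, k2, k3, k4⟩ | ⟨hK', -⟩ |
      ⟨hK', b', c', y1, y4, y9, hc', k1, k2, k3, k4, y8, k5, k6⟩ | ⟨hK', -⟩
    · have hb := Gwb_com_b H hc hc'
      subst hb
      have e1 : x1 = y1 := (k1 x1).1 ((h1 x1).2 rfl)
      subst e1
      have e2 : x2 = y2 := (k2 x2).1 ((h2 x2).2 rfl)
      subst e2
      rcases (k3 x3).1 ((h3 x3).2 (Or.inl rfl)) with e | e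
      · exact Gwb_com_W H hc hc' e
      · exact absurd e h4
    · omega
    · exfalso
      have hb := Gwb_com_b H hc hc'
      subst hb
      have e1 : x1 = y1 := (k1 x1).1 ((h1 x1).2 rfl)
      subst e1
      exact k3 (((h2 y4).1 ((k2 y4).2 (Or.inl rfl))).trans ((h2 y9).1 ((k2 y9).2 (Or.inr rfl))).symm)
    · omega
  · rcases h' with ⟨hK', -⟩ | ⟨hK', b', c', y2, y3, hc', k1, k2⟩ | ⟨hK', -⟩ |
      ⟨hK', b', c', y4, y9, hc', k1, k2, k3, y8, k4⟩
    · omega
    · have hb := Gwb_com_b H hc hc'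
      subst hb
      have e1 : x2 = y2 := (k1 x2).1 ((h1 x2).2 rfl)
      subst e1
      exact Gwb_com_W H hc hc' ((k2 x3).1 ((h2 x3).2 rfl))
    · omega
    · exfalso
      have hb := Gwb_com_b H hc hc'
      subst hb
      exact k2 (((h1 y4).1 ((k1 y4).2 (Or.inl rfl))).trans ((h1 y9).1 ((k1 y9).2 (Or.inr rfl))).symm)
  · rcases h' with ⟨hK', b', c', y1, y2, y3, hc', k1, k2, k3, k4⟩ | ⟨hK', -⟩ |
      ⟨hK', b', c', y1, y4, y9, hc', k1, k2, k3, k4, y8, k5, k6⟩ | ⟨hK', -⟩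
    · exfalso
      have hb := Gwb_com_b H hc hc'
      subst hb
      have e1 : x1 = y1 := (k1 x1).1 ((h1 x1).2 rfl)
      subst e1
      exact h3 (((k2 x4).1 ((h2 x4).2 (Or.inl rfl))).trans ((k2 x9).1 ((h2 x9).2 (Or.inr rfl))).symm)
    · omega
    · have hb := Gwb_com_b H hc hc'
      subst hb
      have e1 : x1 = y1 := (k1 x1).1 ((h1 x1).2 rfl)
      subst e1
      rcases (k2 x9).1 ((h2 x9).2 (Or.inr rfl)) with e | e
      · subst e
        exact absurd ((k4 x8).1 h5) h6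
      · exact Gwb_com_W H hc hc' e
    · omega
  · rcases h' with ⟨hK', -⟩ | ⟨hK', b', c', y2, y3, hc', k1, k2⟩ | ⟨hK', -⟩ |
      ⟨hK', b', c', y4, y9, hc', k1, k2, k3, y8, k4⟩
    · omega
    · exfalso
      have hb := Gwb_com_b H hc hc'
      subst hb
      exact h2 (((k1 x4).1 ((h1 x4).2 (Or.inl rfl))).trans ((k1 x9).1 ((h1 x9).2 (Or.inr rfl))).symm)
    · omega
    · have hb := Gwb_com_b H hc hc'
      subst hb
      rcases (k1 x9).1 ((h1 x9).2 (Or.inr rfl)) with e | e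
      · subst e
        exact absurd h4 (k3 x8)
      · exact Gwb_com_W H hc hc' e

theorem slot_uniq (H : Cox n g) {W' : Finset ι} {f f' : ℕ → ι} (h : S31 n g W f)
    (h' : S31 n g W' f') {i j : Bool × ℕ × ℕ} (hi : i ∈ slI) (hj : j ∈ slI)
    (he : slot W f i = slot W' f' j) : W = W' := by
  have h1 := Gwb_data H h hi
  have h2 := Gwb_data H h' hj
  rw [← he] at h2
  exact Gwb_comb H h1 h2

end

end MP86a502
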