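import Pool.Agent.Lib.MP_86a502_gt.U.Val
import Pool.Agent.Lib.MP_86a502_gt.U.DatS
import Pool.Agent.Lib.MP_86a502_gt.Ctc

set_option autoImplicit false
set_option linter.unusedSectionVars false

/-! # The slots of the exceptional graph: definitions -/

namespace MP86a502

section
variable {ι : Type} [Fintype ι] [DecidableEq ι] {n : ℕ} {g : ι → ι → ℝ} {W : Finset ι}

/-- the indices of the slots -/
def slI : Finset (Bool × ℕ × ℕ) :=
  {(true, 0, 2), (true, 0, 3), (true, 1, 2), (true, 1, 3), (true, 2, 2), (true, 2, 3),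
    (false, 2, 0), (false, 2, 1), (false, 2, 2), (false, 3, 0), (false, 3, 1), (false, 3, 2)}

/-- the slot with a given index -/
def slot (W : Finset ι) (f : ℕ → ι) (i : Bool × ℕ × ℕ) : Finset ι × Finset ι :=
  ((W.erase (f i.2.1)).erase (f (5 + i.2.2)),
    if i.1 = true then (Finset.Ico 5 (5 + i.2.2)).image f else (Finset.range i.2.1).image f)

end

end MP86a502
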