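import Pool.Agent.Lib.MP_86a502_gt.U.DatS

set_option autoImplicit false
set_option linter.unusedSectionVars false

/-! # JOB Itc. Automorphisms of the types (50-90 lines)

The list `l = [σ 0, ..., σ (i-1)]` in `btT`: by induction on `n` prove: if `btT t t' n l = true`,
`l = (List.range i).map σ`, `i + n = tK t`, and `σ` is a pattern preserving injection, then the conclusion
holds (the value `σ i < tK t'` satisfies `cpT`). -/

namespace MP86a502

private theorem Itc_getD {σ : ℕ → ℕ} {i j : ℕ} (hj : j < i) : ((List.range i).map σ).getD j 0 = σ j := by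
  rw [List.getD_eq_getElem?_getD]
  simp [hj]

private theorem Itc_ind {t t' : ℕ} (hk : tK t = tK t') {σ : ℕ → ℕ}
    (hσ : ∀ i < tK t, σ i < tK t) (hi : ∀ i < tK t, ∀ j < tK t, σ i = σ j → i = j)
    (hp : ∀ i < tK t, ∀ j < tK t, i ≠ j → tP t i j = tP t' (σ i) (σ j)) :
    ∀ n i : ℕ, i + n = tK t → btT t t' n ((List.range i).map σ) = true →
      t = t' ∧ ∀ i < tK t, ∀ j < tK t, tW t i j = tW t' (σ i) (σ j) := by
  intro n
  induction n with
  | zero =>
    intro i hin hb
    have hi0 : i = tK t := by omega
    subst hi0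
    simp only [btT, Bool.and_eq_true, beq_iff_eq, List.all_eq_true, List.mem_range] at hb
    refine ⟨hb.1, fun a ha b hb' => ?_⟩
    have h1 := hb.2 a ha b hb'
    rw [Itc_getD ha, Itc_getD hb'] at h1
    exact h1
  | succ n IH =>
    intro i hin hb
    simp only [btT, List.all_eq_true, List.mem_range] at hb
    have h1 := hb (σ i) (by rw [← hk]; exact hσ i (by omega))
    have hc : cpT t t' ((List.range i).map σ) (σ i) = true := by
      simp only [cpT, List.length_map, List.length_range, List.all_eq_true, List.mem_range]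
      intro j hj
      rw [Itc_getD hj]
      have h2 : σ j ≠ σ i := by
        intro h3
        have := hi j (by omega) i (by omega) h3
        omega
      have h4 := hp i (by omega) j (by omega) (by omega)
      simp [h2, h4]
    rw [hc] at h1
    have h5 : btT t t' n ((List.range i).map σ ++ [σ i]) = true := by simpa using h1
    have h6 : (List.range (i + 1)).map σ = (List.range i).map σ ++ [σ i] := by
      rw [List.range_succ, List.map_append]
      rfl
    exact IH (i + 1) (by omega) (by rw [h6]; exact h5)

theorem tt_auto {t t' : ℕ} (ht : t < 19) (ht' : t' < 19) (hk : tK t = tK t') {σ : ℕ → ℕ}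
    (hσ : ∀ i < tK t, σ i < tK t) (hi : ∀ i < tK t, ∀ j < tK t, σ i = σ j → i = j)
    (hp : ∀ i < tK t, ∀ j < tK t, i ≠ j → tP t i j = tP t' (σ i) (σ j)) :
    t = t' ∧ ∀ i < tK t, ∀ j < tK t, tW t i j = tW t' (σ i) (σ j) := by
  exact Itc_ind hk hσ hi hp (tK t) 0 (by omega) (by simpa using btT_ok t ht t' ht' hk)

end MP86a502
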