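import Pool.Agent.Lib.MP_86a502_gt.U.Val
import Pool.Agent.Lib.MP_86a502_gt.U.Itc
import Pool.Agent.Lib.MP_86a502_gt.Tre

set_option autoImplicit false
set_option linter.unusedSectionVars false
set_option linter.unusedVariables false

/-! # JOB Ita. Components and types (150-250 lines)

* `mt_side`: if `A` has no edges to `S \ A`, then all `f i` are on the same side as `f 0`: `tP_con` and
  strong induction on `i` (`f i` and `f j` are adjacent because the label is `tP t i j ≠ 2`).
* `mt_same`: two matches `f`, `f'` of types `t`, `t'` in `S` with a common element have the same image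
  (each is connected and closed), so `tK t = tK t'` and `f i = f' (σ i)` for a bijection `σ`, and
  `tt_auto` applies.
* `bon_mt`: for a match `f` the bonus of `f i, f j` is `tW t i j` (`t < 17`), `0` for `t = 17, 18`
  (`Finset.sup_le`, `Finset.le_sup`). -/

namespace MP86a502

section
variable {ι : Type} [DecidableEq ι] {g : ι → ι → ℝ}

theorem Ita_adj (h : Diag g) {S : Finset ι} {t : ℕ} {f : ℕ → ι} (hf : Mt g S t f) {i j : ℕ}
    (hi : i < tK t) (hj : j < tK t) (hij : i ≠ j) (hp : tP t i j ≠ 2) : adj g (f i) (f j) := by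
  rw [lab_adj h]
  refine ⟨fun e => hij (hf.inj i hi j hj e), ?_⟩
  rw [hf.lb i hi j hj hij]
  exact hp

theorem mt_side (h : Diag g) {S A : Finset ι} (hA : A ⊆ S)
    (hno : ∀ a ∈ A, ∀ b ∈ S, b ∉ A → ¬ adj g a b) {t : ℕ} (ht : t < 19) {f : ℕ → ι}
    (hf : Mt g S t f) : (∀ i < tK t, f i ∈ A) ∨ (∀ i < tK t, f i ∉ A) := by
  by_cases h0 : f 0 ∈ A
  · left
    intro i
    induction i using Nat.strong_induction_on with
    | _ i ih =>
      intro hi
      rcases Nat.eq_zero_or_pos i with rfl | hpos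
      · exact h0
      · obtain ⟨j, hj, hp⟩ := tP_con t ht i hi hpos
        have hjA := ih j hj (by omega)
        by_contra hiA
        exact hno (f j) hjA (f i) (hf.mem i hi) hiA
          (h.adj_comm.1 (Ita_adj h hf hi (by omega) (by omega) hp))
  · right
    intro i
    induction i using Nat.strong_induction_on with
    | _ i ih =>
      intro hi
      rcases Nat.eq_zero_or_pos i with rfl | hpos
      · exact h0
      · obtain ⟨j, hj, hp⟩ := tP_con t ht i hi hpos
        have hjA := ih j hj (by omega)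
        intro hiA
        exact hno (f i) hiA (f j) (hf.mem j (by omega)) hjA (Ita_adj h hf hi (by omega) (by omega) hp)

/-- the image is closed -/
theorem Ita_closed {S : Finset ι} {t : ℕ} {f : ℕ → ι} (hf : Mt g S t f) :
    ∀ a ∈ (Finset.range (tK t)).image f, ∀ b ∈ S, b ∉ (Finset.range (tK t)).image f → ¬ adj g a b := by
  intro a ha b hb hbA hab
  obtain ⟨i, hi, rfl⟩ := Finset.mem_image.1 ha
  obtain ⟨j, hj, rfl⟩ := hf.closed i (Finset.mem_range.1 hi) b hb hab
  exact hbA (Finset.mem_image_of_mem f (Finset.mem_range.2 hj))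

theorem Ita_sub {S : Finset ι} {t : ℕ} {f : ℕ → ι} (hf : Mt g S t f) :
    (Finset.range (tK t)).image f ⊆ S := by
  intro a ha
  obtain ⟨i, hi, rfl⟩ := Finset.mem_image.1 ha
  exact hf.mem i (Finset.mem_range.1 hi)

/-- a match in a connected set is everything -/
theorem mt_con (h : Diag g) {S : Finset ι} (hc : Con g S) {t : ℕ} (ht : t < 19) {f : ℕ → ι}
    (hf : Mt g S t f) : S = (Finset.range (tK t)).image f := by
  by_contra hne
  have h2 : 2 ≤ tK t := (tP_rng t ht).2.1
  obtain ⟨a, ha, b, hb, hbA, hab⟩ := hc ((Finset.range (tK t)).image f) (Ita_sub hf)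
    (by rw [Finset.image_nonempty, Finset.nonempty_range_iff]; omega) (fun e => hne e.symm)
  exact Ita_closed hf a ha b hb hbA hab

theorem mt_same (h : Diag g) {S : Finset ι} {t t' : ℕ} (ht : t < 19) (ht' : t' < 19)
    {f f' : ℕ → ι} (hf : Mt g S t f) (hf' : Mt g S t' f') {i j i' j' : ℕ} (hi : i < tK t)
    (hj : j < tK t) (hi' : i' < tK t') (hj' : j' < tK t') (h1 : f i = f' i') (h2 : f j = f' j') :
    t = t' ∧ tW t i j = tW t' i' j' := by
  have hA : ∀ l < tK t, f l ∈ (Finset.range (tK t')).image f' := by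
    rcases mt_side h (Ita_sub hf') (Ita_closed hf') ht hf with hh | hh
    · exact hh
    · exact absurd (h1 ▸ Finset.mem_image_of_mem f' (Finset.mem_range.2 hi')) (hh i hi)
  have hB : ∀ l < tK t', f' l ∈ (Finset.range (tK t)).image f := by
    rcases mt_side h (Ita_sub hf) (Ita_closed hf) ht' hf' with hh | hh
    · exact hh
    · exact absurd (h1 ▸ Finset.mem_image_of_mem f (Finset.mem_range.2 hi)) (hh i' hi')
  have hI : (Finset.range (tK t)).image f = (Finset.range (tK t')).image f' := by
    apply Finset.Subset.antisymm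
    · intro z hz
      obtain ⟨l, hl, rfl⟩ := Finset.mem_image.1 hz
      exact hA l (Finset.mem_range.1 hl)
    · intro z hz
      obtain ⟨l, hl, rfl⟩ := Finset.mem_image.1 hz
      exact hB l (Finset.mem_range.1 hl)
  have hcf : ((Finset.range (tK t)).image f).card = tK t := by
    rw [Finset.card_image_of_injOn, Finset.card_range]
    intro a ha b hb e
    exact hf.inj a (Finset.mem_range.1 (Finset.mem_coe.1 ha)) b
      (Finset.mem_range.1 (Finset.mem_coe.1 hb)) e
  have hcf' : ((Finset.range (tK t')).image f').card = tK t' := by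
    rw [Finset.card_image_of_injOn, Finset.card_range]
    intro a ha b hb e
    exact hf'.inj a (Finset.mem_range.1 (Finset.mem_coe.1 ha)) b
      (Finset.mem_range.1 (Finset.mem_coe.1 hb)) e
  have hk : tK t = tK t' := by rw [← hcf, ← hcf', hI]
  have hex : ∀ l : ℕ, ∃ m : ℕ, l < tK t → m < tK t' ∧ f' m = f l := by
    intro l
    by_cases hl : l < tK t
    · obtain ⟨m, hm, e⟩ := Finset.mem_image.1 (hA l hl)
      exact ⟨m, fun _ => ⟨Finset.mem_range.1 hm, e⟩⟩
    · exact ⟨0, fun h => absurd h hl⟩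
  choose σ hσ using hex
  have hσi : ∀ a < tK t, ∀ b < tK t, σ a = σ b → a = b := by
    intro a ha b hb e
    apply hf.inj a ha b hb
    rw [← (hσ a ha).2, ← (hσ b hb).2, e]
  have hσp : ∀ a < tK t, ∀ b < tK t, a ≠ b → tP t a b = tP t' (σ a) (σ b) := by
    intro a ha b hb hab
    rw [← hf.lb a ha b hb hab, ← hf'.lb _ (hσ a ha).1 _ (hσ b hb).1 (fun e => hab (hσi a ha b hb e)),
      (hσ a ha).2, (hσ b hb).2]
  obtain ⟨e1, e2⟩ := tt_auto ht ht' hk (σ := σ) (fun a ha => hk ▸ (hσ a ha).1) hσi hσp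
  refine ⟨e1, ?_⟩
  have e3 : σ i = i' := hf'.inj _ (hσ i hi).1 _ hi' ((hσ i hi).2.trans h1)
  have e4 : σ j = j' := hf'.inj _ (hσ j hj).1 _ hj' ((hσ j hj).2.trans h2)
  rw [e2 i hi j hj, e3, e4]

theorem bon_mt (h : Diag g) {S : Finset ι} {t : ℕ} (ht : t < 19) {f : ℕ → ι} (hf : Mt g S t f)
    {i j : ℕ} (hi : i < tK t) (hj : j < tK t) :
    bon g S (f i) (f j) = if t < 17 then tW t i j else 0 := by
  classical
  have h8 : tK t ≤ 8 := (tP_rng t ht).1
  unfold bon
  apply le_antisymm
  · apply Finset.sup_le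
    rintro ⟨t', i', j'⟩ hp
    rw [Finset.mem_product, Finset.mem_range] at hp
    split_ifs with hc ht17 ht17
    · obtain ⟨f', hf', hi', hj', e1, e2⟩ := hc
      obtain ⟨e3, e4⟩ := mt_same h ht (by have := hp.1; simp only at this; omega) hf hf' hi hj hi' hj'
        e1.symm e2.symm
      exact e4.ge
    · exfalso
      obtain ⟨f', hf', hi', hj', e1, e2⟩ := hc
      obtain ⟨e3, e4⟩ := mt_same h ht (by have := hp.1; simp only at this; omega) hf hf' hi hj hi' hj'
        e1.symm e2.symm
      have := hp.1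
      simp only at this
      omega
    · exact Nat.zero_le _
    · exact le_rfl
  · split_ifs with ht17
    · have hmem : (t, i, j) ∈ Finset.range 17 ×ˢ (Finset.range 8 ×ˢ Finset.range 8) := by
        simp only [Finset.mem_product, Finset.mem_range]
        omega
      refine le_trans (le_of_eq ?_) (Finset.le_sup (f := fun p : ℕ × ℕ × ℕ =>
        if ∃ f' : ℕ → ι, Mt g S p.1 f' ∧ p.2.1 < tK p.1 ∧ p.2.2 < tK p.1 ∧ f' p.2.1 = f i ∧
          f' p.2.2 = f j then tW p.1 p.2.1 p.2.2 else 0) hmem)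
      rw [if_pos]
      exact ⟨f, hf, hi, hj, rfl, rfl⟩
    · exact Nat.zero_le _

/-- a positive bonus comes from a match -/
theorem bon_pos {S : Finset ι} {x y : ι} (hb : bon g S x y ≠ 0) :
    ∃ t < 17, ∃ f, Mt g S t f ∧ ∃ i < tK t, ∃ j < tK t, f i = x ∧ f j = y := by
  classical
  by_contra hno
  apply hb
  unfold bon
  rw [← Nat.bot_eq_zero, Finset.sup_eq_bot_iff]
  rintro ⟨t, i, j⟩ hp
  rw [Finset.mem_product, Finset.mem_range] at hp
  rw [if_neg]
  rintro ⟨f, hf, hi, hj, e1, e2⟩
  exact hno ⟨t, hp.1, f, hf, i, hi, j, hj, e1, e2⟩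

end

end MP86a502
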