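import Pool.Agent.Lib.MP_86a502_gt.U.Ita

set_option autoImplicit false
set_option linter.unusedSectionVars false

/-! # JOB Ite. Splitting off a component (100-160 lines)

`S = A ⊔ B`, `B = S \ A`, without edges between them: a pair of `A` is near in `S` only if it is near in `A`
(the common neighbour is in `A`), and its bonus in `S` is its bonus in `A` (a match `Mt g S t f` with one
value in `A` has all values in `A`, `mt_side`, and is a match `Mt g A t f`); pairs `x ∈ A`, `y ∈ B` have weight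
`0` (not near, and the bonus is zero by `bon_pos`, `mt_side`); `dk g S ⊆ dk g A ∪ dk g B`. -/

namespace MP86a502

section
variable {ι : Type} [Fintype ι] [DecidableEq ι] {g : ι → ι → ℝ}

omit [Fintype ι] in
theorem Ite_mt (h : Diag g) {S A : Finset ι} (hA : A ⊆ S) (hno : ∀ a ∈ A, ∀ b ∈ S, b ∉ A → ¬ adj g a b)
    {t : ℕ} (ht : t < 19) {f : ℕ → ι} (hf : Mt g S t f) {i : ℕ} (hi : i < tK t) (hx : f i ∈ A) :
    Mt g A t f := by
  rcases mt_side h hA hno ht hf with h1 | h1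
  · exact ⟨h1, hf.inj, hf.lb, fun i hi z hz ha => hf.closed i hi z (hA hz) ha⟩
  · exact absurd hx (h1 i hi)

omit [Fintype ι] in
theorem Ite_bon (h : Diag g) {S A : Finset ι} (hA : A ⊆ S) (hno : ∀ a ∈ A, ∀ b ∈ S, b ∉ A → ¬ adj g a b)
    {x : ι} (hx : x ∈ A) (y : ι) : bon g S x y ≤ bon g A x y := by
  unfold bon
  refine Finset.sup_mono_fun fun p hp => ?_
  by_cases hc : ∃ f : ℕ → ι, Mt g S p.1 f ∧ p.2.1 < tK p.1 ∧ p.2.2 < tK p.1 ∧ f p.2.1 = x ∧ f p.2.2 = y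
  · rw [if_pos hc, if_pos]
    obtain ⟨f, hf, h1, h2, h3, h4⟩ := hc
    have ht : p.1 < 19 := by
      have := Finset.mem_range.1 (Finset.mem_product.1 hp).1
      omega
    exact ⟨f, Ite_mt h hA hno ht hf h1 (by rw [h3]; exact hx), h1, h2, h3, h4⟩
  · rw [if_neg hc]
    exact Nat.zero_le _

omit [Fintype ι] in
theorem Ite_near {S A : Finset ι} (hno : ∀ a ∈ A, ∀ b ∈ S, b ∉ A → ¬ adj g a b)
    {x y : ι} (hx : x ∈ A) (hn : near g S x y) : near g A x y := by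
  obtain ⟨h1, h2 | ⟨z, hz, h2, h3⟩⟩ := hn
  · exact ⟨h1, Or.inl h2⟩
  · refine ⟨h1, Or.inr ⟨z, ?_, h2, h3⟩⟩
    by_contra hc
    exact hno x hx z hz hc h2

omit [Fintype ι] in
theorem Ite_le (h : Diag g) {S A : Finset ι} (hA : A ⊆ S) (hno : ∀ a ∈ A, ∀ b ∈ S, b ∉ A → ¬ adj g a b)
    {x : ι} (hx : x ∈ A) (y : ι) : wt g S x y ≤ wt g A x y := by
  unfold wt
  refine add_le_add ?_ (Ite_bon h hA hno hx y)
  by_cases hc : near g S x y
  · rw [if_pos hc, if_pos (Ite_near hno hx hc)]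
  · rw [if_neg hc]
    exact Nat.zero_le _

omit [Fintype ι] in
theorem Ite_zero (h : Diag g) {S A : Finset ι} (hA : A ⊆ S) (hno : ∀ a ∈ A, ∀ b ∈ S, b ∉ A → ¬ adj g a b)
    {x : ι} (hx : x ∈ A) {y : ι} (hy : y ∈ S) (hyA : y ∉ A) : wt g S x y = 0 := by
  have h1 : ¬ near g S x y := by
    rintro ⟨h1, h2 | ⟨z, hz, h2, h3⟩⟩
    · exact hno x hx y hy hyA ⟨h1, h2⟩
    · have hzA : z ∈ A := by
        by_contra hc
        exact hno x hx z hz hc h2
      exact hno z hzA y hy hyA h3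
  have h2 : bon g S x y = 0 := by
    by_contra hb
    obtain ⟨t, ht, f, hf, i, hi, j, hj, h3, h4⟩ := bon_pos hb
    have h5 := (Ite_mt h hA hno (by omega) hf hi (by rw [h3]; exact hx)).mem j hj
    rw [h4] at h5
    exact hyA h5
  unfold wt
  rw [if_neg h1, h2]

omit [Fintype ι] in
theorem Ite_row (h : Diag g) {S A : Finset ι} (hA : A ⊆ S) (hno : ∀ a ∈ A, ∀ b ∈ S, b ∉ A → ¬ adj g a b)
    {x : ι} (hx : x ∈ A) : ∑ y ∈ S.erase x, wt g S x y ≤ ∑ y ∈ A.erase x, wt g A x y := by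
  have h1 : ∑ y ∈ S.erase x, wt g S x y = ∑ y ∈ A.erase x, wt g S x y := by
    symm
    refine Finset.sum_subset (Finset.erase_subset_erase x hA) fun y hy hy' => ?_
    obtain ⟨h2, h3⟩ := Finset.mem_erase.1 hy
    exact Ite_zero h hA hno hx h3 fun h4 => hy' (Finset.mem_erase.2 ⟨h2, h4⟩)
  rw [h1]
  exact Finset.sum_le_sum fun y _ => Ite_le h hA hno hx y

theorem Ite_dk (h : Diag g) {S A : Finset ι} (hA : A ⊆ S) (hno : ∀ a ∈ A, ∀ b ∈ S, b ∉ A → ¬ adj g a b)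
    (hno' : ∀ a ∈ S \ A, ∀ b ∈ S, b ∉ S \ A → ¬ adj g a b) :
    (dk g S).card ≤ (dk g A).card + (dk g (S \ A)).card := by
  classical
  refine (Finset.card_le_card (t := dk g A ∪ dk g (S \ A)) ?_).trans (Finset.card_union_le _ _)
  intro K hK
  unfold dk at hK
  obtain ⟨h1, t, f, ht, hf, rfl⟩ := Finset.mem_filter.1 hK
  have ht19 : t < 19 := by omega
  have h0 : 0 < tK t := by
    rcases ht with rfl | rfl
    · decide
    · decide
  by_cases hx : f 0 ∈ A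
  · refine Finset.mem_union_left _ ?_
    have hf' := Ite_mt h hA hno ht19 hf h0 hx
    unfold dk
    refine Finset.mem_filter.2 ⟨Finset.mem_powerset.2 fun z hz => ?_, t, f, ht, hf', rfl⟩
    obtain ⟨i, hi, rfl⟩ := Finset.mem_image.1 hz
    exact hf'.mem i (Finset.mem_range.1 hi)
  · refine Finset.mem_union_right _ ?_
    have hf' := Ite_mt h Finset.sdiff_subset hno' ht19 hf h0 (Finset.mem_sdiff.2 ⟨hf.mem 0 h0, hx⟩)
    unfold dk
    refine Finset.mem_filter.2 ⟨Finset.mem_powerset.2 fun z hz => ?_, t, f, ht, hf', rfl⟩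
    obtain ⟨i, hi, rfl⟩ := Finset.mem_image.1 hz
    exact hf'.mem i (Finset.mem_range.1 hi)

theorem vert_split (h : Diag g) {S A : Finset ι} (hA : A ⊆ S)
    (hno : ∀ a ∈ A, ∀ b ∈ S, b ∉ A → ¬ adj g a b) :
    ∑ x ∈ S, ∑ y ∈ S.erase x, wt g S x y + 12 * (dk g S).card ≤
      (∑ x ∈ A, ∑ y ∈ A.erase x, wt g A x y + 12 * (dk g A).card) +
      (∑ x ∈ S \ A, ∑ y ∈ (S \ A).erase x, wt g (S \ A) x y + 12 * (dk g (S \ A)).card) := by
  have hno' : ∀ a ∈ S \ A, ∀ b ∈ S, b ∉ S \ A → ¬ adj g a b := by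
    intro a ha b hb hbn hab
    obtain ⟨h1, h2⟩ := Finset.mem_sdiff.1 ha
    have h3 : b ∈ A := by
      by_contra hc
      exact hbn (Finset.mem_sdiff.2 ⟨hb, hc⟩)
    exact hno b h3 a h1 h2 (h.adj_comm.1 hab)
  have h1 : ∑ x ∈ S, ∑ y ∈ S.erase x, wt g S x y =
      ∑ x ∈ S \ A, ∑ y ∈ S.erase x, wt g S x y + ∑ x ∈ A, ∑ y ∈ S.erase x, wt g S x y :=
    (Finset.sum_sdiff hA).symm
  have h2 : ∑ x ∈ A, ∑ y ∈ S.erase x, wt g S x y ≤ ∑ x ∈ A, ∑ y ∈ A.erase x, wt g A x y :=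
    Finset.sum_le_sum fun x hx => Ite_row h hA hno hx
  have h3 : ∑ x ∈ S \ A, ∑ y ∈ S.erase x, wt g S x y ≤
      ∑ x ∈ S \ A, ∑ y ∈ (S \ A).erase x, wt g (S \ A) x y :=
    Finset.sum_le_sum fun x hx => Ite_row h Finset.sdiff_subset hno' hx
  have h4 := Ite_dk h hA hno hno'
  rw [h1]
  omega

end

end MP86a502
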