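import Pool.Agent.Lib.MP_86a502_gt.U.Itd
import Pool.Agent.Lib.MP_86a502_gt.U.Ite

set_option autoImplicit false
set_option linter.unusedSectionVars false

/-! # JOB Itb. The bound for a vertex (40-60 lines)

Strong induction on `|S|`: `S = ∅` is trivial (no matches: `tP_rng` says `2 ≤ tK t`); `Con g S`: `vert_con`;
otherwise there is a nonempty `A ⊂ S` without edges to `S \ A`: `vert_split` and the induction
hypothesis. -/

namespace MP86a502

section
variable {ι : Type} [Fintype ι] [DecidableEq ι] {g : ι → ι → ℝ}

theorem vert_bound (h : Diag g) : ∀ (k : ℕ) (S : Finset ι), S.card = k → PD g S →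
    ∑ x ∈ S, ∑ y ∈ S.erase x, wt g S x y + 12 * (dk g S).card ≤ 8 * S.card := by
  intro k
  induction k using Nat.strong_induction_on with
  | _ k ih =>
    intro S hk hS
    rcases S.eq_empty_or_nonempty with h0 | hne
    · subst h0
      have h1 : dk g (∅ : Finset ι) = ∅ := by
        classical
        rw [Finset.eq_empty_iff_forall_notMem]
        intro K hK
        obtain ⟨_, t, f, ht, hM, _⟩ := Finset.mem_filter.1 hK
        have h2 : 0 < tK t := by
          rcases ht with rfl | rfl
          · exact lt_of_lt_of_le (by norm_num) (tP_rng 17 (by norm_num)).2.1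
          · exact lt_of_lt_of_le (by norm_num) (tP_rng 18 (by norm_num)).2.1
        exact absurd (hM.mem 0 h2) (Finset.notMem_empty _)
      rw [h1]
      simp
    · by_cases hc : Con g S
      · exact vert_con h hS hne hc
      · unfold Con at hc
        push Not at hc
        obtain ⟨A, hA, hAne, hAS, hno⟩ := hc
        have hlt : A.card < S.card := Finset.card_lt_card (Finset.ssubset_iff_subset_ne.2 ⟨hA, hAS⟩)
        have hpos : 0 < A.card := Finset.card_pos.2 hAne
        have hsd : (S \ A).card = S.card - A.card := Finset.card_sdiff_of_subset hA
        have h1 := vert_split h hA hno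
        have h2 := ih A.card (by omega) A rfl (pd_subset hS hA)
        have h3 := ih (S \ A).card (by omega) (S \ A) rfl (pd_subset hS Finset.sdiff_subset)
        omega

end

end MP86a502
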