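import Pool.Agent.Lib.MP_86a502_gt.U.Ita
import Pool.Agent.Lib.MP_86a502_gt.Fbd

set_option autoImplicit false
set_option linter.unusedSectionVars false

/-! # JOB Itd. The bound for a connected component (120-180 lines)

If there is a match `Mt g S t f` with `t < 19`, then `S = f [0, tK t)` (`mt_con`),
`near g S (f i) (f j)` implies `nrP t i j`, the bonus is given by `bon_mt`, and `dk g S ⊆ {S}`, and it is
empty for `t < 17` (`mt_same` with `i = j`; a match of type `17` or `18` has image `S` by `mt_con` and so the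
same type): `tP_bound`. If there is no match, the bonus is zero (`bon_pos`), `dk g S = ∅`, and
`∑_{x ≠ y} 2 [near] = 2 nearP g S ≤ 2 ∑ deg² ≤ 2 (4 |S| - 2)` (`nearP_le`, `con_bound`). -/

namespace MP86a502

section
variable {ι : Type} [Fintype ι] [DecidableEq ι] {g : ι → ι → ℝ}

open scoped Classical in
private theorem Itd_sum_le {S : Finset ι} (F : ι → ι → ℕ) :
    ∑ x ∈ S, ∑ y ∈ S.erase x, F x y ≤ ∑ x ∈ S, ∑ y ∈ S, F x y :=
  Finset.sum_le_sum fun x _ => Finset.sum_le_sum_of_subset (Finset.erase_subset _ _)

/-- the case of a component of a known type -/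
private theorem Itd_mt (h : Diag g) {S : Finset ι} (hc : Con g S) {t : ℕ} (ht : t < 19) {f : ℕ → ι}
    (hf : Mt g S t f) : ∑ x ∈ S, ∑ y ∈ S.erase x, wt g S x y + 12 * (dk g S).card ≤ 8 * S.card := by
  classical
  have hSf := mt_con h hc ht hf
  have hinj : Set.InjOn f (Finset.range (tK t) : Finset ℕ) := by
    intro a ha b hb hab
    rw [Finset.mem_coe, Finset.mem_range] at ha hb
    exact hf.inj a ha b hb hab
  have hK := (tP_rng t ht).2.1
  have hcard : S.card = tK t := by
    rw [hSf, Finset.card_image_of_injOn hinj, Finset.card_range]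
  have hnear : ∀ i < tK t, ∀ j < tK t, near g S (f i) (f j) → nrP t i j := by
    intro i hi j hj hn
    obtain ⟨h1, h2⟩ := hn
    have hij : i ≠ j := fun e => h1 (by rw [e])
    refine ⟨hij, ?_⟩
    rcases h2 with h2 | ⟨z, hz, h3, h4⟩
    · left
      rw [← hf.lb i hi j hj hij]
      exact ((lab_adj h).1 ⟨h1, h2⟩).2
    · right
      rw [hSf, Finset.mem_image] at hz
      obtain ⟨k, hk, rfl⟩ := hz
      rw [Finset.mem_range] at hk
      have hki : k ≠ i := fun e => h3.1 (by rw [e])
      have hkj : k ≠ j := fun e => h4.1 (by rw [e])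
      refine ⟨k, hk, hki, hkj, ?_, ?_⟩
      · rw [← hf.lb i hi k hk hki.symm]
        exact ((lab_adj h).1 h3).2
      · rw [← hf.lb k hk j hj hkj]
        exact ((lab_adj h).1 h4).2
  have hwt : ∀ i < tK t, ∀ j < tK t, wt g S (f i) (f j) ≤
      (if nrP t i j then 2 else 0) + (if t < 17 then tW t i j else 0) := by
    intro i hi j hj
    unfold wt
    rw [bon_mt h ht hf hi hj]
    apply Nat.add_le_add_right
    by_cases hn : near g S (f i) (f j)
    · rw [if_pos hn, if_pos (hnear i hi j hj hn)]
    · rw [if_neg hn]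
      exact Nat.zero_le _
  have hsum : ∑ x ∈ S, ∑ y ∈ S, wt g S x y ≤ ∑ i ∈ Finset.range (tK t), ∑ j ∈ Finset.range (tK t),
      ((if nrP t i j then 2 else 0) + (if t < 17 then tW t i j else 0)) := by
    have e : ∑ x ∈ S, ∑ y ∈ S, wt g S x y =
        ∑ i ∈ Finset.range (tK t), ∑ j ∈ Finset.range (tK t), wt g S (f i) (f j) := by
      have e1 : ∀ F : ι → ℕ, ∑ x ∈ S, F x = ∑ i ∈ Finset.range (tK t), F (f i) := by
        intro F
        conv_lhs => rw [hSf]
        exact Finset.sum_image hinj
      rw [e1]
      exact Finset.sum_congr rfl fun i _ => e1 _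
    rw [e]
    refine Finset.sum_le_sum fun i hi => Finset.sum_le_sum fun j hj => ?_
    rw [Finset.mem_range] at hi hj
    exact hwt i hi j hj
  have hdk : ∀ K ∈ dk g S, K = S ∧ ¬ t < 17 := by
    intro K hK'
    unfold dk at hK'
    rw [Finset.mem_filter] at hK'
    obtain ⟨_, t', f', ht', hf', hKe⟩ := hK'
    have ht'' : t' < 19 := by omega
    have hSf' := mt_con h hc ht'' hf'
    refine ⟨?_, ?_⟩
    · rw [hSf']
      exact hKe
    · intro hlt
      have h0 : f 0 ∈ S := hf.mem 0 (by omega)
      rw [hSf', Finset.mem_image] at h0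
      obtain ⟨i', hi', he⟩ := h0
      rw [Finset.mem_range] at hi'
      have := (mt_same h ht ht'' hf hf' (i := 0) (j := 0) (i' := i') (j' := i') (by omega) (by omega)
        hi' hi' he.symm he.symm).1
      omega
  have hdc : 12 * (dk g S).card ≤ if t < 17 then 0 else 12 := by
    by_cases hlt : t < 17
    · rw [if_pos hlt]
      have : dk g S = ∅ := by
        rw [Finset.eq_empty_iff_forall_notMem]
        intro K hK'
        exact (hdk K hK').2 hlt
      rw [this]
      simp
    · rw [if_neg hlt]
      have h1 : dk g S ⊆ {S} := by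
        intro K hK'
        rw [Finset.mem_singleton]
        exact (hdk K hK').1
      have h2 := Finset.card_le_card h1
      rw [Finset.card_singleton] at h2
      omega
  have hb := tP_bound t ht
  have h1 := Itd_sum_le (S := S) (fun x y => wt g S x y)
  rw [hcard]
  exact le_trans (Nat.add_le_add (le_trans h1 hsum) hdc) hb

theorem vert_con (h : Diag g) {S : Finset ι} (hS : PD g S) (hne : S.Nonempty) (hc : Con g S) :
    ∑ x ∈ S, ∑ y ∈ S.erase x, wt g S x y + 12 * (dk g S).card ≤ 8 * S.card := by
  classical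
  by_cases hex : ∃ t < 19, ∃ f, Mt g S t f
  · obtain ⟨t, ht, f, hf⟩ := hex
    exact Itd_mt h hc ht hf
  · have hno : ∀ t < 19, ∀ f, ¬ Mt g S t f := fun t ht f hf => hex ⟨t, ht, f, hf⟩
    have hbon : ∀ x y, bon g S x y = 0 := by
      intro x y
      by_contra hb
      obtain ⟨t, ht, f, hf, _⟩ := bon_pos hb
      exact hno t (by omega) f hf
    have hdk : dk g S = ∅ := by
      rw [Finset.eq_empty_iff_forall_notMem]
      intro K hK
      unfold dk at hK
      rw [Finset.mem_filter] at hK
      obtain ⟨_, t, f, ht, hf, _⟩ := hK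
      exact hno t (by omega) f hf
    have hsum : ∑ x ∈ S, ∑ y ∈ S, wt g S x y = 2 * nearP g S := by
      unfold nearP
      rw [Finset.card_filter, Finset.sum_product, Finset.mul_sum]
      refine Finset.sum_congr rfl fun x _ => ?_
      rw [Finset.mul_sum]
      refine Finset.sum_congr rfl fun y _ => ?_
      unfold wt
      rw [hbon x y]
      by_cases hn : near g S x y
      · rw [if_pos hn, if_pos hn]
        rfl
      · rw [if_neg hn, if_neg hn]
        rfl
    have h1 := Itd_sum_le (S := S) (fun x y => wt g S x y)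
    have h2 := nearP_le h S
    have h3 := (con_bound h hS hne hc).1
    rw [hdk, Finset.card_empty]
    have h4 : ∑ x ∈ S, ∑ y ∈ S.erase x, wt g S x y ≤ 2 * nearP g S := by
      rw [← hsum]
      exact h1
    omega

end

end MP86a502
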