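import Pool.Agent.Lib.MP_86a502_gt.U.Fme
import Pool.Agent.Lib.MP_86a502_gt.U.Fmg
import Pool.Agent.Lib.MP_86a502_gt.U.Fmh
import Pool.Agent.Lib.MP_86a502_gt.U.Fmi
import Pool.Agent.Lib.MP_86a502_gt.U.Sma

set_option autoImplicit false
set_option linter.unusedSectionVars false

/-! # JOB Lcf. The induction step of the classification (60-100 lines)

* `fam_step`: `one_nbr`, `step_A`, `step_B`, `step_D`, `step_E` (build `Att g k f v i`).
* `fam5`: a positive definite connected set with five elements: `small_cls` (with `k = 5`) gives `EQ` with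
  `eN e = 5`, so `e = 9, 10, 11` (`A5`, `B5`, `D5`; `decide`), because `LP` is not positive definite; the
  tables `eP 9`, `eP 10`, `eP 11` are those of `Fm g 5 1 3`, `Fm g 5 1 4`, `Fm g 5 2 3` (all codes are
  exact, `ok c l` with `c ≤ 8` gives `l = c`). -/

namespace MP86a502

section
variable {ι : Type} [Fintype ι] [DecidableEq ι] {n : ℕ} {g : ι → ι → ℝ}

/-- the new node is attached to one node only -/
theorem Lcf_att (H : CoxH n g) {k j l : ℕ} (hk : 5 ≤ k) {Y : Finset ι} (F : FamX g k Y) {v : ι}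
    (hv : v ∉ Y) (ha : ∃ y ∈ Y, adj g v y) (hp : ∀ Z ⊂ insert v Y, PD g Z) {f : ℕ → ι}
    (hF : Fm g k j l f Y) : ∃ i, Att g k f v i := by
  obtain ⟨y, hy, hay⟩ := ha
  obtain ⟨i, hi, rfl⟩ := (hF.mem y).1 hy
  refine ⟨i, hi, fun a hka he => hv ?_, hay, fun a hka hai => ?_⟩
  · rw [← he]
    exact (hF.mem _).2 ⟨a, hka, rfl⟩
  · by_contra hne
    have hfa : f a ∈ Y := (hF.mem _).2 ⟨a, hka, rfl⟩
    have hva : v ≠ f a := fun he => hv (he ▸ hfa)
    exact hai (hF.inj a hka i hi (one_nbr H hk F hv hp hfa hy ⟨hva, hne⟩ hay))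

theorem fam_step (H : CoxH n g) {k : ℕ} (hk : 5 ≤ k) {Y : Finset ι} (F : FamX g k Y) {v : ι}
    (hv : v ∉ Y) (ha : ∃ y ∈ Y, adj g v y) (hp : ∀ Z ⊂ insert v Y, PD g Z) :
    FamX g (k + 1) (insert v Y) := by
  obtain ⟨f, hF | hF | hF | ⟨h6, h8, hF⟩⟩ := id F
  · obtain ⟨i, hi⟩ := Lcf_att H hk F hv ha hp hF
    exact step_A H hk hF hi hp
  · obtain ⟨i, hi⟩ := Lcf_att H hk F hv ha hp hF
    exact step_B H hk hF hi hp
  · obtain ⟨i, hi⟩ := Lcf_att H hk F hv ha hp hF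
    exact step_D H hk hF hi hp
  · obtain ⟨i, hi⟩ := Lcf_att H hk F hv ha hp hF
    exact step_E H h6 h8 hF hi hp

theorem Lcf_eN : ∀ e < 12, eN e = 5 → e = 9 ∨ e = 10 ∨ e = 11 := by
  decide +kernel

theorem Lcf_t9 : ∀ b < 5, ∀ a < b, eP 9 a b ≤ 8 ∧ eP 9 a b =
    if a = 0 then (if b = 1 then 3 else 2) else (if b = a + 1 then 3 else 2) := by
  decide +kernel

theorem Lcf_t10 : ∀ b < 5, ∀ a < b, eP 10 a b ≤ 8 ∧ eP 10 a b =
    if a = 0 then (if b = 1 then 4 else 2) else (if b = a + 1 then 3 else 2) := by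
  decide +kernel

theorem Lcf_t11 : ∀ b < 5, ∀ a < b, eP 11 a b ≤ 8 ∧ eP 11 a b =
    if a = 0 then (if b = 2 then 3 else 2) else (if b = a + 1 then 3 else 2) := by
  decide +kernel

/-- the small diagram number `e` with five nodes is a tree of the families -/
theorem Lcf_fm {e j l : ℕ} {ψ : ℕ → ι} {X : Finset ι} (hE : EQ g e ψ X) (h5 : eN e = 5)
    (ht : ∀ b < 5, ∀ a < b, eP e a b ≤ 8 ∧ eP e a b =
      if a = 0 then (if b = j then l else 2) else (if b = a + 1 then 3 else 2)) :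
    Fm g 5 j l ψ X := by
  refine ⟨?_, ?_, ?_⟩
  · have := hE.inj
    rw [h5] at this
    exact this
  · have := hE.mem
    rw [h5] at this
    exact this
  · intro b hb a hab
    have h1 := hE.cod a (by rw [h5]; omega) b (by rw [h5]; exact hb) (by omega)
    obtain ⟨h2, h3⟩ := ht b hb a hab
    rw [← h3]
    rcases h1 with ⟨_, h4⟩ | ⟨h4, _⟩
    · exact h4
    · omega

theorem fam5 (H : CoxH n g) {X : Finset ι} (hk : X.card = 5) (hc : Con g X) (hp : PD g X) :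
    FamX g 5 X := by
  rcases small_cls H 5 (by norm_num) le_rfl hk hc (fun Z hZ => pd_subset hp hZ.subset) with
    ⟨e, he, ψ, hE⟩ | ⟨t, ht, ψ, hL⟩
  · have h5 : eN e = 5 := by rw [← eq_card hE, hk]
    rcases Lcf_eN e he h5 with rfl | rfl | rfl
    · exact ⟨ψ, Or.inl (Lcf_fm hE h5 Lcf_t9)⟩
    · exact ⟨ψ, Or.inr (Or.inl (Lcf_fm hE h5 Lcf_t10))⟩
    · exact ⟨ψ, Or.inr (Or.inr (Or.inl (Lcf_fm hE h5 Lcf_t11)))⟩
  · exact absurd hp (lp_npd H.toDiag ht hL)

end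

end MP86a502
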