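import Pool.Agent.Lib.MP_86a502_gt.U.Vec
import Pool.Agent.Lib.MP_86a502_gt.U.Tab
import Pool.Agent.Lib.MP_86a502_gt.U.Blc

set_option autoImplicit false
set_option linter.unusedSectionVars false

/-! # JOB Npd. Soundness of the certificates `npd`, `npdz` (120-200 lines)

The vector is `κ a = √(sv s a) * dg u a` (`vc φ κ m`). The diagonal part of the quadratic form is
`qD s u`, and the part below the diagonal, times `10^6`, is at most `-qO c s u` (`eL_le`, for the pairs
`b < a` of nodes in the support; `sum_sym`, `vc_sum`, `tri_eq`, `sum16_eq`; the nodes in the support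
are `< m` by `dg_su`). So `10^6 Q ≤ 10^6 qD - 2 qO ≤ 0`, the vector is not zero because `qD ≥ 1`; use
`npd_of_le`. For `npdz` the vector is that one plus `√r * w` at the facet `z ∉ φ [0, m)`: extend `φ` by
`φ' = Function.update φ m z` (`m ≤ 16`, so use the nodes `< m + 1`), or add the extra terms directly;
the mixed terms with the nodes other than `n` are `≤ 0`. -/

namespace MP86a502

variable {ι : Type} {g : ι → ι → ℝ}

theorem Npd_kpos {s u a : ℕ} (h : √(sv s a : ℝ) * (dg u a : ℝ) ≠ 0) : nz u a = true := by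
  rw [nz_iff]
  by_contra hh
  apply h
  have : dg u a = 0 := by omega
  rw [this]
  simp

theorem Npd_qD {m s u : ℕ} (hm : m ≤ 16) (hu : su m u = true) :
    (qD s u : ℝ) = ∑ a ∈ Finset.range m,
      (√(sv s a : ℝ) * dg u a) * (√(sv s a : ℝ) * dg u a) := by
  have h0 : qD s u = ∑ a ∈ Finset.range 16,
      (if nz u a = true then sv s a * (dg u a * dg u a) else 0) := by
    unfold qD
    rw [sum16_eq]
    exact Finset.sum_congr rfl fun a _ => bcN_eq _ _ _
  rw [h0, Nat.cast_sum]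
  have h1 : ∀ a ∈ Finset.range 16, ((if nz u a = true then sv s a * (dg u a * dg u a) else 0 : ℕ) : ℝ)
      = (√(sv s a : ℝ) * dg u a) * (√(sv s a : ℝ) * dg u a) := by
    intro a _
    have h2 : √(sv s a : ℝ) * √(sv s a : ℝ) = (sv s a : ℝ) := Real.mul_self_sqrt (Nat.cast_nonneg _)
    have h3 : (√(sv s a : ℝ) * dg u a) * (√(sv s a : ℝ) * dg u a) =
        (sv s a : ℝ) * ((dg u a : ℝ) * dg u a) := by
      calc (√(sv s a : ℝ) * dg u a) * (√(sv s a : ℝ) * dg u a)
          = (√(sv s a : ℝ) * √(sv s a : ℝ)) * ((dg u a : ℝ) * dg u a) := by ring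
        _ = _ := by rw [h2]
    rw [h3]
    by_cases hz : nz u a = true
    · rw [if_pos hz]
      push_cast
      ring
    · rw [if_neg hz]
      rw [nz_iff] at hz
      have : dg u a = 0 := by omega
      rw [this]
      simp
  rw [Finset.sum_congr rfl h1]
  symm
  apply Finset.sum_subset
  · intro a ha
    rw [Finset.mem_range] at ha ⊢
    omega
  · intro a _ ha
    rw [Finset.mem_range] at ha
    rw [dg_su hu (by omega : m ≤ a)]
    simp

theorem Npd_qO {m c s u : ℕ} (hm : m ≤ 16) (hu : su m u = true) :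
    (qO c s u : ℝ) = ∑ a ∈ Finset.range m, ∑ b ∈ Finset.range a,
      (dg u a : ℝ) * (dg u b) * (eL (sv s a) (sv s b) (cd c a b)) := by
  have h0 : qO c s u = ∑ a ∈ Finset.range 16, (if nz u a = true then
      dg u a * (∑ b ∈ Finset.range a,
        bcN (nz u b) (Nat.mul (dg u b) (eL (sv s a) (sv s b) (cd c a b))) (nat_lit 0)) else 0) := by
    unfold qO
    rw [tri_eq]
    rfl
  rw [h0, Nat.cast_sum]
  have h1 : ∀ a ∈ Finset.range 16, ((if nz u a = true then
      dg u a * (∑ b ∈ Finset.range a,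
        bcN (nz u b) (Nat.mul (dg u b) (eL (sv s a) (sv s b) (cd c a b))) (nat_lit 0)) else 0 : ℕ) : ℝ)
      = ∑ b ∈ Finset.range a,
      (dg u a : ℝ) * (dg u b) * (eL (sv s a) (sv s b) (cd c a b)) := by
    intro a _
    by_cases hz : nz u a = true
    · rw [if_pos hz, Nat.cast_mul, Nat.cast_sum, Finset.mul_sum]
      refine Finset.sum_congr rfl fun b _ => ?_
      rw [bcN_eq]
      by_cases hb : nz u b = true
      · rw [if_pos hb]
        have e : Nat.mul (dg u b) (eL (sv s a) (sv s b) (cd c a b)) =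
          dg u b * eL (sv s a) (sv s b) (cd c a b) := rfl
        rw [e]
        push_cast
        ring
      · rw [if_neg hb]
        rw [nz_iff] at hb
        have : dg u b = 0 := by omega
        rw [this]
        simp
    · rw [if_neg hz]
      rw [nz_iff] at hz
      have : dg u a = 0 := by omega
      rw [this]
      simp
  rw [Finset.sum_congr rfl h1]
  symm
  apply Finset.sum_subset
  · intro a ha
    rw [Finset.mem_range] at ha ⊢
    omega
  · intro a _ ha
    rw [Finset.mem_range] at ha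
    rw [dg_su hu (by omega : m ≤ a)]
    simp

/-- the quadratic form is bounded by the certificate -/
theorem q_le (h : Diag g) {φ : ℕ → ι} {m c s u : ℕ} (hm : m ≤ 16)
    (cod : ∀ a < m, ∀ b < m, a ≠ b → ok (cd c a b) (lab g (φ a) (φ b)))
    (inj : ∀ a < m, ∀ b < m, φ a = φ b → a = b) (hu : su m u = true) :
    1000000 * ∑ a ∈ Finset.range m, ∑ b ∈ Finset.range m,
      (√(sv s a : ℝ) * dg u a) * (√(sv s b : ℝ) * dg u b) * g (φ a) (φ b) ≤
      1000000 * (qD s u : ℝ) - 2 * (qO c s u : ℝ) := by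
  rw [sum_sym (fun a b => (√(sv s a : ℝ) * dg u a) * (√(sv s b : ℝ) * dg u b) * g (φ a) (φ b))
    (fun a b => by
      show (√(sv s a : ℝ) * dg u a) * (√(sv s b : ℝ) * dg u b) * g (φ a) (φ b) =
        (√(sv s b : ℝ) * dg u b) * (√(sv s a : ℝ) * dg u a) * g (φ b) (φ a)
      rw [h.symm (φ a) (φ b)]
      ring)]
  have hD : ∑ a ∈ Finset.range m, (√(sv s a : ℝ) * dg u a) * (√(sv s a : ℝ) * dg u a) * g (φ a) (φ a)
      = (qD s u : ℝ) := by
    rw [Npd_qD hm hu]
    refine Finset.sum_congr rfl fun a _ => ?_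
    rw [h.diag, mul_one]
  have hO : (qO c s u : ℝ) ≤ - (1000000 * ∑ a ∈ Finset.range m, ∑ b ∈ Finset.range a,
      (√(sv s a : ℝ) * dg u a) * (√(sv s b : ℝ) * dg u b) * g (φ a) (φ b)) := by
    rw [Npd_qO hm hu, Finset.mul_sum, ← Finset.sum_neg_distrib]
    refine Finset.sum_le_sum fun a ha => ?_
    rw [Finset.mul_sum, ← Finset.sum_neg_distrib]
    refine Finset.sum_le_sum fun b hb => ?_
    rw [Finset.mem_range] at ha hb
    have hbm : b < m := lt_trans hb ha
    have hne : φ a ≠ φ b := fun e => by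
      have := inj a ha b hbm e
      omega
    have h1 := eL_le h hne (sv_le s a) (sv_le s b) (cod a ha b hbm (by omega))
    rw [Real.sqrt_mul (Nat.cast_nonneg _)] at h1
    have h2 : (0 : ℝ) ≤ (dg u a : ℝ) * dg u b := by positivity
    have h3 := mul_le_mul_of_nonneg_left h1 h2
    calc (dg u a : ℝ) * (dg u b) * (eL (sv s a) (sv s b) (cd c a b)) ≤ _ := h3
      _ = _ := by ring
  rw [mul_add, hD]
  linarith

theorem Npd_nz {m s u : ℕ} (hm : m ≤ 16) (hu : su m u = true) (hq : 1 ≤ qD s u) :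
    ∃ a < m, √(sv s a : ℝ) * (dg u a : ℝ) ≠ 0 := by
  by_contra hcon
  push Not at hcon
  have h1 := Npd_qD (s := s) hm hu
  have h2 : ∑ a ∈ Finset.range m, (√(sv s a : ℝ) * dg u a) * (√(sv s a : ℝ) * dg u a) = 0 := by
    refine Finset.sum_eq_zero fun a ha => ?_
    rw [hcon a (Finset.mem_range.1 ha), mul_zero]
  rw [h2] at h1
  have h3 : qD s u = 0 := by exact_mod_cast h1
  omega

theorem npd_sound (h : Diag g) {φ : ℕ → ι} {m c s u : ℕ} (hm : m ≤ 16)
    (cod : ∀ a < m, ∀ b < m, a ≠ b → ok (cd c a b) (lab g (φ a) (φ b)))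
    (inj : ∀ a < m, ∀ b < m, φ a = φ b → a = b) (hn : npd m c s u = true) :
    ¬ PD g (img φ (nz u)) := by
  unfold npd at hn
  rw [bcB_and, bcB_and] at hn
  obtain ⟨hu, hq, hle⟩ := hn
  have hq' : 1 ≤ qD s u := Nat.le_of_ble_eq_true hq
  have hle' : 1000000 * qD s u ≤ 2 * qO c s u := Nat.le_of_ble_eq_true hle
  intro hpd
  obtain ⟨a₀, ha₀, hk₀⟩ := Npd_nz hm hu hq'
  have hS : ∀ a < m, √(sv s a : ℝ) * (dg u a : ℝ) ≠ 0 → φ a ∈ img φ (nz u) := by
    intro a ha hk
    exact mem_img.2 ⟨a, by omega, Npd_kpos hk, rfl⟩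
  have h1 := hpd (vc φ (fun a => √(sv s a : ℝ) * (dg u a : ℝ)) m)
    ⟨φ a₀, hS a₀ ha₀ hk₀, by rw [vc_apply inj _ ha₀]; exact hk₀⟩
  rw [vc_sum inj (fun a => √(sv s a : ℝ) * (dg u a : ℝ)) (fun a => √(sv s a : ℝ) * (dg u a : ℝ))
    _ hS hS] at h1
  have h2 := q_le h hm cod inj hu (s := s) (c := c)
  have h3 : (1000000 * (qD s u : ℝ)) ≤ 2 * (qO c s u : ℝ) := by exact_mod_cast hle'
  have h4 : 0 < ∑ a ∈ Finset.range m, ∑ b ∈ Finset.range m,
      (√(sv s a : ℝ) * dg u a) * (√(sv s b : ℝ) * dg u b) * g (φ a) (φ b) := h1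
  linarith

theorem npdz_sound [DecidableEq ι] (h : Diag g) {φ : ℕ → ι} {m c s u k r w : ℕ} (hm : m ≤ 16)
    (cod : ∀ a < m, ∀ b < m, a ≠ b → ok (cd c a b) (lab g (φ a) (φ b)))
    (inj : ∀ a < m, ∀ b < m, φ a = φ b → a = b) {z : ι} (hz : ∀ a < m, φ a ≠ z) (hk : k < m)
    (ha : adj g (φ k) z) (hn : npdz m c s u k r w = true) :
    ¬ PD g (insert z (img φ (nz u))) := by
  unfold npdz at hn
  rw [bcB_and, bcB_and, bcB_and, bcB_and] at hn
  obtain ⟨hu, hw, hr, hr3, hle⟩ := hn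
  have hw' : 1 ≤ w := Nat.le_of_ble_eq_true hw
  have hr' : 1 ≤ r := Nat.le_of_ble_eq_true hr
  have hr3' : r ≤ 3 := Nat.le_of_ble_eq_true hr3
  have hle' : 1000000 * (qD s u + r * (w * w)) ≤
      2 * (qO c s u + w * (dg u k * eL r (sv s k) 11)) := Nat.le_of_ble_eq_true hle
  intro hpd
  let φ' : ℕ → ι := fun a => if a = m then z else φ a
  let κ : ℕ → ℝ := fun a => √(sv s a : ℝ) * (dg u a : ℝ)
  let κ' : ℕ → ℝ := fun a => if a = m then √(r : ℝ) * w else κ a
  have hφm : φ' m = z := if_pos rfl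
  have hφl : ∀ a < m, φ' a = φ a := fun a ha => if_neg (by omega)
  have hκm : κ' m = √(r : ℝ) * w := if_pos rfl
  have hκl : ∀ a < m, κ' a = κ a := fun a ha => if_neg (by omega)
  have inj' : ∀ a < m + 1, ∀ b < m + 1, φ' a = φ' b → a = b := by
    intro a ha1 b hb1 hab
    rcases Nat.lt_succ_iff_lt_or_eq.1 ha1 with h1 | h1 <;>
      rcases Nat.lt_succ_iff_lt_or_eq.1 hb1 with h2 | h2
    · rw [hφl a h1, hφl b h2] at hab
      exact inj a h1 b h2 hab
    · subst h2
      rw [hφl a h1, hφm] at hab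
      exact absurd hab (hz a h1)
    · subst h1
      rw [hφl b h2, hφm] at hab
      exact absurd hab.symm (hz b h2)
    · rw [h1, h2]
  have hS : ∀ a < m + 1, κ' a ≠ 0 → φ' a ∈ insert z (img φ (nz u)) := by
    intro a ha1 hk1
    rcases Nat.lt_succ_iff_lt_or_eq.1 ha1 with h1 | h1
    · rw [hκl a h1] at hk1
      rw [hφl a h1]
      exact Finset.mem_insert_of_mem (mem_img.2 ⟨a, by omega, Npd_kpos hk1, rfl⟩)
    · subst h1
      rw [hφm]
      exact Finset.mem_insert_self _ _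
  have hrpos : (0 : ℝ) < r := by exact_mod_cast hr'
  have hwpos : (0 : ℝ) < w := by exact_mod_cast hw'
  have hne : √(r : ℝ) * w ≠ 0 := (mul_pos (Real.sqrt_pos.2 hrpos) hwpos).ne'
  have h1 := hpd (vc φ' κ' (m + 1)) ⟨z, Finset.mem_insert_self _ _, by
    rw [← hφm, vc_apply inj' _ (Nat.lt_succ_self m), hκm]
    exact hne⟩
  rw [vc_sum inj' κ' κ' _ hS hS] at h1
  have hzz : g z z = 1 := h.diag z
  have hsplit : ∑ a ∈ Finset.range (m + 1), ∑ b ∈ Finset.range (m + 1),
      κ' a * κ' b * g (φ' a) (φ' b) =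
      ∑ a ∈ Finset.range m, ∑ b ∈ Finset.range m, κ a * κ b * g (φ a) (φ b) +
      2 * ∑ a ∈ Finset.range m, κ a * (√(r : ℝ) * w) * g (φ a) z + r * w ^ 2 := by
    rw [Finset.sum_range_succ]
    have e1 : ∑ a ∈ Finset.range m, ∑ b ∈ Finset.range (m + 1), κ' a * κ' b * g (φ' a) (φ' b) =
        ∑ a ∈ Finset.range m, ∑ b ∈ Finset.range m, κ a * κ b * g (φ a) (φ b) +
        ∑ a ∈ Finset.range m, κ a * (√(r : ℝ) * w) * g (φ a) z := by
      rw [← Finset.sum_add_distrib]
      refine Finset.sum_congr rfl fun a ha1 => ?_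
      rw [Finset.sum_range_succ, hφm, hκm, hκl a (Finset.mem_range.1 ha1),
        hφl a (Finset.mem_range.1 ha1)]
      congr 1
      refine Finset.sum_congr rfl fun b hb1 => ?_
      rw [hκl b (Finset.mem_range.1 hb1), hφl b (Finset.mem_range.1 hb1)]
    have e2 : ∑ b ∈ Finset.range (m + 1), κ' m * κ' b * g (φ' m) (φ' b) =
        ∑ a ∈ Finset.range m, κ a * (√(r : ℝ) * w) * g (φ a) z + r * w ^ 2 := by
      rw [Finset.sum_range_succ, hφm, hκm, hzz]
      have e3 : √(r : ℝ) * w * (√(r : ℝ) * w) * 1 = r * w ^ 2 := by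
        have := Real.mul_self_sqrt hrpos.le
        calc √(r : ℝ) * w * (√(r : ℝ) * w) * 1 = (√(r : ℝ) * √(r : ℝ)) * w ^ 2 := by ring
          _ = _ := by rw [this]
      rw [e3]
      congr 1
      refine Finset.sum_congr rfl fun b hb1 => ?_
      rw [hκl b (Finset.mem_range.1 hb1), hφl b (Finset.mem_range.1 hb1), h.symm z (φ b)]
      ring
    rw [e1, e2]
    ring
  rw [hsplit] at h1
  have h2 := q_le h hm cod inj hu (s := s) (c := c)
  have h5 : 1000000 * ∑ a ∈ Finset.range m, κ a * (√(r : ℝ) * w) * g (φ a) z ≤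
      - ((w : ℝ) * (dg u k * eL r (sv s k) 11)) := by
    rw [Finset.mul_sum]
    have h6 : ∑ a ∈ Finset.range m, 1000000 * (κ a * (√(r : ℝ) * w) * g (φ a) z) ≤
        1000000 * (κ k * (√(r : ℝ) * w) * g (φ k) z) := by
      rw [← Finset.add_sum_erase _ _ (Finset.mem_range.2 hk)]
      have h7 : ∑ a ∈ (Finset.range m).erase k, 1000000 * (κ a * (√(r : ℝ) * w) * g (φ a) z) ≤ 0 := by
        refine Finset.sum_nonpos fun a ha1 => ?_
        have ha2 : a < m := Finset.mem_range.1 (Finset.mem_of_mem_erase ha1)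
        have h8 : g (φ a) z ≤ 0 := h.nonpos (hz a ha2)
        have h9 : 0 ≤ κ a * (√(r : ℝ) * w) := by
          show 0 ≤ √(sv s a : ℝ) * (dg u a : ℝ) * (√(r : ℝ) * w)
          positivity
        nlinarith [mul_nonneg h9 (neg_nonneg.2 h8)]
      linarith
    refine h6.trans ?_
    have h10 := eL_11 h (hz k hk) hr3' (sv_le s k) ha
    rw [Real.sqrt_mul (Nat.cast_nonneg _)] at h10
    have h11 : (0 : ℝ) ≤ (w : ℝ) * dg u k := by positivity
    have h12 := mul_le_mul_of_nonneg_left h10 h11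
    have h13 : (1000000 : ℝ) * (κ k * (√(r : ℝ) * w) * g (φ k) z) =
        - ((w : ℝ) * dg u k * (1000000 * (√(r : ℝ) * √(sv s k : ℝ)) * -(g (φ k) z))) := by
      show (1000000 : ℝ) * (√(sv s k : ℝ) * (dg u k : ℝ) * (√(r : ℝ) * w) * g (φ k) z) = _
      ring
    rw [h13]
    have h14 : (w : ℝ) * (dg u k * eL r (sv s k) 11) = (w : ℝ) * dg u k * eL r (sv s k) 11 := by ring
    rw [h14]
    linarith
  have h3 : (1000000 * ((qD s u : ℝ) + r * (w * w))) ≤
      2 * ((qO c s u : ℝ) + w * (dg u k * eL r (sv s k) 11)) := by exact_mod_cast hle'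
  have h4 : ∑ a ∈ Finset.range m, ∑ b ∈ Finset.range m, κ a * κ b * g (φ a) (φ b) =
    ∑ a ∈ Finset.range m, ∑ b ∈ Finset.range m,
      (√(sv s a : ℝ) * dg u a) * (√(sv s b : ℝ) * dg u b) * g (φ a) (φ b) := rfl
  rw [h4] at h1
  nlinarith

end MP86a502
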