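import Pool.Agent.Lib.MP_86a502_gt.U.Chk

set_option autoImplicit false

/-! # Lists of certificates -/

namespace MP86a502

theorem Rlc_and {c t : Bool} (h : bcB c t false = true) : c = true ∧ t = true := by
  cases c
  · exact absurd h (by simp [bcB])
  · exact ⟨rfl, h⟩

theorem rl_sound : ∀ (l : RL) (i : ℕ), rl l i = true → ∀ j < rlen l,
    (i + j) / 52 ≤ (i + j) % 52 → ∃ c t, hR ((i + j) / 52) ((i + j) % 52) c t = true := by
  intro l
  induction l with
  | nil =>
    intro i _ j hj
    exact absurd hj (Nat.not_lt_zero j)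
  | skip l ih =>
    intro i h j hj hle
    have h1 : Nat.ble (i % 52 + 1) (i / 52) = true ∧ rl l (i + 1) = true := Rlc_and h
    have hj' : j < rlen l + 1 := hj
    rcases Nat.eq_zero_or_pos j with rfl | h0
    · have h2 := Nat.le_of_ble_eq_true h1.1
      simp only [Nat.add_zero] at hle
      omega
    · obtain ⟨j', rfl⟩ : ∃ j', j = j' + 1 := ⟨j - 1, by omega⟩
      have h3 := ih (i + 1) h1.2 j' (by omega)
      have h4 : i + 1 + j' = i + (j' + 1) := by omega
      rw [h4] at h3
      exact h3 hle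
  | cons c t l ih =>
    intro i h j hj hle
    have h1 : hR (i / 52) (i % 52) c t = true ∧ rl l (i + 1) = true := Rlc_and h
    have hj' : j < rlen l + 1 := hj
    rcases Nat.eq_zero_or_pos j with rfl | h0
    · exact ⟨c, t, h1.1⟩
    · obtain ⟨j', rfl⟩ : ∃ j', j = j' + 1 := ⟨j - 1, by omega⟩
      have h3 := ih (i + 1) h1.2 j' (by omega)
      have h4 : i + 1 + j' = i + (j' + 1) := by omega
      rw [h4] at h3
      exact h3 hle

/-- all pairs with numbers between `a` and `b` are certified -/
def Cov (a b : ℕ) : Prop := ∀ x, a ≤ x → x < b → x / 52 ≤ x % 52 →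
  ∃ c t, hR (x / 52) (x % 52) c t = true

theorem cov_of {l : RL} {a b : ℕ} (h : rl l a = true) (hb : a + rlen l = b) : Cov a b := by
  intro x h1 h2 h3
  obtain ⟨j, rfl⟩ : ∃ j, x = a + j := ⟨x - a, by omega⟩
  exact rl_sound l a h j (by omega) h3

theorem Cov.trans {a b c : ℕ} (h : Cov a b) (h' : Cov b c) : Cov a c := by
  intro x h1 h2 h3
  rcases Nat.lt_or_ge x b with h4 | h4
  · exact h x h1 h4 h3
  · exact h' x h4 h2 h3

end MP86a502
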