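import Pool.Agent.Lib.MP_86a502_gt.U.Ssd
import Pool.Agent.Lib.MP_86a502_gt.U.DatS

set_option autoImplicit false
set_option linter.unusedSectionVars false

/-! # Pairs of halves: definitions -/

namespace MP86a502

section
variable {ι : Type} [Fintype ι] [DecidableEq ι] {n : ℕ} {g : ι → ι → ℝ}

/-- two Lannér diagrams with marks -/
structure RootH (n : ℕ) (g : ι → ι → ℝ) (W X Y : Finset ι) (h k : ℕ) (φ₁ φ₂ : ℕ → ι) : Prop where
  card : W.card = n + 2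
  hh : h < 52
  hk : k < 52
  subX : X ⊆ W
  subY : Y ⊆ W
  dis : Disjoint X Y
  lanX : Lan g X
  lanY : Lan g Y
  lpX : LP g (hT h) φ₁ X
  lpY : LP g (hT k) φ₂ Y
  ver : ∀ a b, (a = hP h ∨ a = hQ h) → (b = hP k ∨ b = hQ k) →
    PD g ((W.erase (φ₁ a)).erase (φ₂ b))
  star : ∀ a b, (a = hP h ∨ a = hQ h) → (b = hP k ∨ b = hQ k) → g (φ₁ a) (φ₂ b) = 0 ∧
    ∀ z ∈ W, adj g z (φ₁ a) → adj g z (φ₂ b) →
      z = φ₁ (hP h) ∨ z = φ₁ (hQ h) ∨ z = φ₂ (hP k) ∨ z = φ₂ (hQ k)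

end

end MP86a502
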