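import Pool.Agent.Lib.MP_86a502_gt.U.Rtd
import Pool.Agent.Lib.MP_86a502_gt.U.ChL

set_option autoImplicit false
set_option linter.unusedSectionVars false

/-! # JOB Rte. Nodes of a half without neighbours outside (80-130 lines)

`RootH` (`Rtd.lean`): `X`, `Y` are disjoint Lannér diagrams in `W`, identified with the diagrams
number `hT h`, `hT k` by `φ₁`, `φ₂`; the marks are `φ₁ (hP h), φ₁ (hQ h)` and `φ₂ (hP k), φ₂ (hQ k)`.
* `RootH.symm`: `Finset.erase_right_comm`, `hg.symm`.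
* `half_sat`: for `u ∈ hS h` (`hS h < 2 ^ 32`, so `u < 8`): `φ₁ u` has no neighbour in `W \ X`. Suppose
  `z ∈ W \ X` is adjacent to `φ₁ u`. `half_cert`: `x = hP h` or `x = hQ h`, and by `npdz_sound` (with the
  matrix `lC (hT h)`, `lC_spec`) `insert z (img φ₁ (nz v))` is not positive definite, where the support
  avoids `x` and is `< lN (hT h)`. But `z` is different from one of the two marks `b` of `Y`
  (`half_rng`), and this set is contained in `(W.erase (φ₁ x)).erase b`, which is positive definite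
  (`b ∉ X`). -/

namespace MP86a502

section
variable {ι : Type} [Fintype ι] [DecidableEq ι] {n : ℕ} {g : ι → ι → ℝ}

theorem RootH.symm (hg : Diag g) {W X Y : Finset ι} {h k : ℕ} {φ₁ φ₂ : ℕ → ι}
    (R : RootH n g W X Y h k φ₁ φ₂) : RootH n g W Y X k h φ₂ φ₁ where
  card := R.card
  hh := R.hk
  hk := R.hh
  subX := R.subY
  subY := R.subX
  dis := R.dis.symm
  lanX := R.lanY
  lanY := R.lanX
  lpX := R.lpY
  lpY := R.lpX
  ver := by
    intro a b ha hb
    rw [Finset.erase_right_comm]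
    exact R.ver b a hb ha
  star := by
    intro a b ha hb
    obtain ⟨h1, h2⟩ := R.star b a hb ha
    refine ⟨by rw [hg.symm]; exact h1, ?_⟩
    intro z hz z1 z2
    rcases h2 z hz z2 z1 with h3 | h3 | h3 | h3
    · exact Or.inr (Or.inr (Or.inl h3))
    · exact Or.inr (Or.inr (Or.inr h3))
    · exact Or.inl h3
    · exact Or.inr (Or.inl h3)

private theorem Rte_lt {h u : ℕ} (hu : bt (hS h) u = true) : u < 8 := by
  by_contra hcon
  rw [bt_eq] at hu
  have h1 : hS h ≤ 4294967295 := Nat.and_le_right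
  have h2 : hS h < 2 ^ (4 * u) := by
    calc hS h < 2 ^ 32 := by omega
      _ ≤ 2 ^ (4 * u) := Nat.pow_le_pow_right (by norm_num) (by omega)
  rw [Nat.testBit_lt_two_pow h2] at hu
  exact absurd hu (by decide)

private theorem Rte_su {m c s v k r w a : ℕ} (h : npdz m c s v k r w = true) (ha : nz v a = true) :
    a < m := by
  unfold npdz at h
  rw [bcB_and] at h
  by_contra hm
  have h1 := dg_su h.1 (not_lt.1 hm)
  rw [nz_iff] at ha
  omega

theorem half_sat (H : CoxH n g) {W X Y : Finset ι} {h k : ℕ} {φ₁ φ₂ : ℕ → ι}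
    (R : RootH n g W X Y h k φ₁ φ₂) {u : ℕ} (hu : bt (hS h) u = true) :
    u < lN (hT h) ∧ ∀ z ∈ W, z ∉ X → ¬ adj g (φ₁ u) z := by
  have hu8 := Rte_lt hu
  obtain ⟨hum, x, s, v, r, w, hx, hvx, hn⟩ := half_cert h R.hh u (by omega) hu
  refine ⟨hum, ?_⟩
  intro z hzW hzX hadj
  obtain ⟨r1, r2, r3, r4⟩ := half_rng h R.hh
  obtain ⟨k1, k2, k3, k4⟩ := half_rng k R.hk
  have hl := (lN_rng (hT h) r1).2
  have hxm : x < lN (hT h) := by
    rcases hx with rfl | rfl
    · exact r2
    · exact r3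
  have hphi : ∀ a < lN (hT h), φ₁ a ∈ X := fun a ha => (R.lpX.mem _).2 ⟨a, ha, rfl⟩
  have hnp := npdz_sound H.toDiag (φ := φ₁) (m := lN (hT h)) (c := lC (hT h)) (s := s) (u := v)
    (k := u) (r := r) (w := w) (by omega)
    (fun a ha b hb hab => by
      rw [lC_spec (hT h) r1 a b (by omega) (by omega), if_pos ⟨ha, hb⟩]
      exact R.lpX.cod a ha b hb hab)
    R.lpX.inj (z := z) (fun a ha e => hzX (e ▸ hphi a ha)) hum hadj hn
  obtain ⟨b, hb, hbz⟩ : ∃ b, (b = hP k ∨ b = hQ k) ∧ φ₂ b ≠ z := by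
    by_cases e : φ₂ (hP k) = z
    · refine ⟨hQ k, Or.inr rfl, fun e2 => ?_⟩
      exact k4 (R.lpY.inj _ k2 _ k3 (e.trans e2.symm))
    · exact ⟨hP k, Or.inl rfl, e⟩
  have hbm : b < lN (hT k) := by
    rcases hb with rfl | rfl
    · exact k2
    · exact k3
  have hbY : φ₂ b ∈ Y := (R.lpY.mem _).2 ⟨b, hbm, rfl⟩
  apply hnp
  apply pd_subset (R.ver x b hx hb)
  intro y hy
  rw [Finset.mem_insert] at hy
  rw [Finset.mem_erase, Finset.mem_erase]
  rcases hy with rfl | hy
  · exact ⟨fun e => hbz e.symm, fun e => hzX (by rw [e]; exact hphi x hxm), hzW⟩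
  · obtain ⟨a, _, ha, rfl⟩ := mem_img.1 hy
    have ham := Rte_su hn ha
    refine ⟨fun e => ?_, fun e => ?_, R.subX (hphi a ham)⟩
    · exact Finset.disjoint_left.1 R.dis (hphi a ham) (by rw [e]; exact hbY)
    · have := R.lpX.inj a ham x hxm e
      rw [this, hvx] at ha
      exact absurd ha (by decide)

end

end MP86a502
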