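import Pool.Agent.Lib.MP_86a502_gt.U.Evc
import Pool.Agent.Lib.MP_86a502_gt.U.Lcn

set_option autoImplicit false
set_option linter.unusedSectionVars false

/-! # JOB Rtf. The sides of a star quadrangle (100-160 lines)

Let `T ∈ QF n g W` be a quadrangle with `fsum n g T < 4` (`W.card = n + 2` by `quad_of_card`, `hull_quad`).
`CoxH.radon` gives disjoint `X₀, Y₀ ⊆ W`, not positive definite; `quad_sides` gives the sides
`x, x' ∈ X₀`, `y, y' ∈ Y₀`; take `X ⊆ X₀`, `Y ⊆ Y₀` with `Lan` (`exists_lan`). `X` contains `x` or `y` for each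
positive definite `(W.erase x).erase y`, and `y ∉ X₀`, so `x ∈ X`, and so on. By `quad_mem` `fsum n g T` is
a sum of eight weights; a near corner contributes at least `4` (`near` is symmetric, `wt ≥ 2`); so no
corner is near: for the vertex `S = (W.erase x').erase y'` and its elements `x`, `y`: `g x y = 0`, and no
`z ∈ S` is adjacent to both; so a facet of `W` adjacent to both is `x'` or `y'`. -/

namespace MP86a502

section
variable {ι : Type} [Fintype ι] [DecidableEq ι] {n : ℕ} {g : ι → ι → ℝ}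

theorem Rtf_adj (H : Diag g) {a b : ι} (h : adj g a b) : adj g b a :=
  ⟨h.1.symm, by rw [H.symm b a]; exact h.2⟩

theorem Rtf_wt {S : Finset ι} {a b : ι} (h : near g S a b) : 2 ≤ wt g S a b := by
  unfold wt
  rw [if_pos h]
  exact Nat.le_add_right _ _

theorem Rtf_near (H : Diag g) {S : Finset ι} {a b : ι} (h : near g S a b) : near g S b a := by
  obtain ⟨h1, h2⟩ := h
  refine ⟨h1.symm, ?_⟩
  rcases h2 with h2 | ⟨z, hz, h3, h4⟩
  · exact Or.inl (by rw [H.symm b a]; exact h2)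
  · exact Or.inr ⟨z, hz, Rtf_adj H h4, Rtf_adj H h3⟩

theorem Rtf_corner (H : Diag g) {W : Finset ι} {a b c d : ι} (hab : a ≠ b)
    (h : wt g ((W.erase c).erase d) a b + wt g ((W.erase c).erase d) b a < 4) :
    g a b = 0 ∧ ∀ z ∈ W, adj g z a → adj g z b → z = c ∨ z = d := by
  have hn : ¬ near g ((W.erase c).erase d) a b := by
    intro hn
    have h1 := Rtf_wt hn
    have h2 := Rtf_wt (Rtf_near H hn)
    omega
  refine ⟨?_, ?_⟩
  · by_contra h0
    exact hn ⟨hab, Or.inl h0⟩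
  · intro z hz h1 h2
    by_contra h3
    rw [not_or] at h3
    exact hn ⟨hab, Or.inr ⟨z, Finset.mem_erase.2 ⟨h3.2, Finset.mem_erase.2 ⟨h3.1, hz⟩⟩,
      Rtf_adj H h1, h2⟩⟩

theorem Rtf_mem {W X : Finset ι} {a b : ι} (hX : X ⊆ W) (hn : ¬ PD g X) (hb : b ∉ X)
    (hp : PD g ((W.erase a).erase b)) : a ∈ X := by
  by_contra ha
  refine hn (pd_subset hp fun z hz => ?_)
  rw [Finset.mem_erase, Finset.mem_erase]
  refine ⟨?_, ?_, hX hz⟩
  · rintro rfl
    exact hb hz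
  · rintro rfl
    exact ha hz

theorem Rtf_card (H : Cox n g) {W T : Finset ι} (hT : T ∈ QF n g W) : W.card = n + 2 := by
  unfold QF at hT
  obtain ⟨h1, h2, h3⟩ := Finset.mem_filter.1 hT
  obtain ⟨i, i', j, j', q⟩ := quad_of_card H h1 h2
  rw [← h3, hull_quad H q]
  have e1 : i ∉ insert i' (insert j (insert j' T)) := by
    simp only [Finset.mem_insert, not_or]
    exact ⟨q.ii', q.ij, q.ij', q.hi⟩
  have e2 : i' ∉ insert j (insert j' T) := by
    simp only [Finset.mem_insert, not_or]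
    exact ⟨q.i'j, q.i'j', q.hi'⟩
  have e3 : j ∉ insert j' T := by
    simp only [Finset.mem_insert, not_or]
    exact ⟨q.jj', q.hj⟩
  rw [Finset.card_insert_of_notMem e1, Finset.card_insert_of_notMem e2,
    Finset.card_insert_of_notMem e3, Finset.card_insert_of_notMem q.hj']
  have := q.face
  omega

theorem star_sides (H : CoxH n g) {W T : Finset ι} (hT : T ∈ QF n g W) (hf : fsum n g T < 4) :
    W.card = n + 2 ∧ ∃ X ⊆ W, ∃ Y ⊆ W, Disjoint X Y ∧ Lan g X ∧ Lan g Y ∧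
      ∃ x ∈ X, ∃ x' ∈ X, ∃ y ∈ Y, ∃ y' ∈ Y, x ≠ x' ∧ y ≠ y' ∧
      ∀ a b, (a = x ∨ a = x') → (b = y ∨ b = y') → PD g ((W.erase a).erase b) ∧ g a b = 0 ∧
        ∀ z ∈ W, adj g z a → adj g z b → z = x ∨ z = x' ∨ z = y ∨ z = y' := by
  have HC : Cox n g := H.toCox
  have hD : Diag g := HC.toDiag
  have hW := Rtf_card HC hT
  refine ⟨hW, ?_⟩
  obtain ⟨X₀, hX₀, Y₀, hY₀, hd, nX, nY⟩ := H.radon W hW
  obtain ⟨x, hx, x', hx', y, hy, y', hy', hxx, hyy, hTe, p1, p2, p3, p4⟩ :=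
    quad_sides HC hW hX₀ hY₀ hd nX nY hT
  obtain ⟨X, hX, lX⟩ := exists_lan nX
  obtain ⟨Y, hY, lY⟩ := exists_lan nY
  have hne : ∀ a ∈ X₀, ∀ b ∈ Y₀, a ≠ b := fun a ha b hb => Finset.disjoint_iff_ne.1 hd a ha b hb
  have hyX : ∀ b ∈ Y₀, b ∉ X := fun b hb h => hne b (hX h) b hb rfl
  have hxY : ∀ a ∈ X₀, a ∉ Y := fun a ha h => hne a ha a (hY h) rfl
  have hXW : X ⊆ W := hX.trans hX₀
  have hYW : Y ⊆ W := hY.trans hY₀
  have mx : x ∈ X := Rtf_mem hXW lX.1 (hyX y hy) p1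
  have mx' : x' ∈ X := Rtf_mem hXW lX.1 (hyX y hy) p3
  have my : y ∈ Y := Rtf_mem hYW lY.1 (hxY x hx) (by rw [Finset.erase_right_comm]; exact p1)
  have my' : y' ∈ Y := Rtf_mem hYW lY.1 (hxY x hx) (by rw [Finset.erase_right_comm]; exact p2)
  have hnd : [x, x', y, y'].Nodup := by
    simp only [List.nodup_cons, List.mem_cons, List.not_mem_nil, or_false, not_or,
      not_false_eq_true, List.nodup_nil, and_true]
    exact ⟨⟨hxx, hne x hx y hy, hne x hx y' hy'⟩, ⟨hne x' hx' y hy, hne x' hx' y' hy'⟩, hyy⟩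
  have hq := (quad_mem HC hW (hX₀ hx) (hX₀ hx') (hY₀ hy) (hY₀ hy') hnd p1 p2 p3 p4).2
  rw [← hTe] at hq
  have c1 := Rtf_corner hD (W := W) (a := x) (b := y) (c := x') (d := y') (hne x hx y hy) (by omega)
  have c2 := Rtf_corner hD (W := W) (a := x) (b := y') (c := x') (d := y) (hne x hx y' hy')
    (by omega)
  have c3 := Rtf_corner hD (W := W) (a := x') (b := y) (c := x) (d := y') (hne x' hx' y hy)
    (by omega)
  have c4 := Rtf_corner hD (W := W) (a := x') (b := y') (c := x) (d := y) (hne x' hx' y' hy')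
    (by omega)
  refine ⟨X, hXW, Y, hYW, Disjoint.mono hX hY hd, lX, lY, x, mx, x', mx', y, my, y', my',
    hxx, hyy, ?_⟩
  rintro a b (rfl | rfl) (rfl | rfl)
  · refine ⟨p1, c1.1, fun z hz h1 h2 => ?_⟩
    rcases c1.2 z hz h1 h2 with h3 | h3
    · exact Or.inr (Or.inl h3)
    · exact Or.inr (Or.inr (Or.inr h3))
  · refine ⟨p2, c2.1, fun z hz h1 h2 => ?_⟩
    rcases c2.2 z hz h1 h2 with h3 | h3
    · exact Or.inr (Or.inl h3)
    · exact Or.inr (Or.inr (Or.inl h3))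
  · refine ⟨p3, c3.1, fun z hz h1 h2 => ?_⟩
    rcases c3.2 z hz h1 h2 with h3 | h3
    · exact Or.inl h3
    · exact Or.inr (Or.inr (Or.inr h3))
  · refine ⟨p4, c4.1, fun z hz h1 h2 => ?_⟩
    rcases c4.2 z hz h1 h2 with h3 | h3
    · exact Or.inl h3
    · exact Or.inr (Or.inr (Or.inl h3))

end

end MP86a502
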