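import Pool.Agent.Lib.MP_86a502_gt.U.Evd

set_option autoImplicit false
set_option linter.unusedSectionVars false

/-! # JOB Sl3. The leaf `l31` (80-130 lines)

`leaf31`: `m = 10`, all nodes are in `sat`, `a ↦ nb ps a` is onto the numbers `< 10` (so a permutation), the
codes are `p31 (nb ps a) (nb ps b)` (exact, `≤ 5`: `c31_spec`, `p31 i j = cd c31 i j` by definition, so
they are the labels). `f i = φ (the node a with nb ps a = i)`. For `u < 5`, `v < 5` with `u < 4 ∨ v = 4` let
`a`, `b` be the nodes with `nb ps a = u`, `nb ps b = 5 + v`: `vt V a b` or `vt V b a`, and `ver`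
(`Finset.erase_right_comm`). `closed`: `st`. -/

namespace MP86a502

private theorem Sl3_full : (nat_lit 0x1111111111) = full 10 := by decide +kernel

private theorem Sl3_bt {a : ℕ} : bt (nat_lit 0x1111111111) a = true ↔ a < 10 := by
  rw [Sl3_full]
  exact bt_full (by norm_num)

private theorem Sl3_perm {ps : ℕ}
    (h1 : or16 (fun a => bcN (bt (nat_lit 0x1111111111) a) (bit (nb ps a)) (nat_lit 0)) = (nat_lit 0x1111111111)) :
    (∀ a < 10, nb ps a < 10) ∧ ∃ τ : ℕ → ℕ, (∀ i < 10, τ i < 10 ∧ nb ps (τ i) = i) ∧ ∀ a < 10, τ (nb ps a) = a := by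
  have hor : ∀ i, i < 10 ↔ ∃ a < 10, nb ps a = i := by
    intro i
    rw [← Sl3_bt, ← h1, bt_or16]
    constructor
    · rintro ⟨a, ha, h3⟩
      rw [bcN_eq] at h3
      split_ifs at h3 with h4
      · exact ⟨a, Sl3_bt.mp h4, (bt_bit.mp h3).symm⟩
      · have h5 : bt 0 i = true := h3
        rw [bt_zero] at h5
        exact absurd h5 (by decide)
    · rintro ⟨a, ha, h3⟩
      refine ⟨a, by omega, ?_⟩
      rw [bcN_eq, if_pos (Sl3_bt.mpr ha)]
      exact bt_bit.mpr h3.symm
  have hlt : ∀ a < 10, nb ps a < 10 := fun a ha => (hor _).mpr ⟨a, ha, rfl⟩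
  have hsurj : ∀ i < 10, ∃ a < 10, nb ps a = i := fun i hi => (hor i).mp hi
  have hinj : ∀ a < 10, ∀ b < 10, nb ps a = nb ps b → a = b := by
    have h3 : Set.InjOn (nb ps) (Finset.range 10 : Set ℕ) := by
      refine Finset.injOn_of_surjOn_of_card_le (s := Finset.range 10) (t := Finset.range 10) (nb ps) ?_ ?_ le_rfl
      · intro a ha
        rw [Finset.mem_coe, Finset.mem_range] at ha ⊢
        exact hlt a ha
      · intro i hi
        rw [Finset.mem_coe, Finset.mem_range] at hi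
        obtain ⟨a, ha, h4⟩ := hsurj i hi
        exact ⟨a, by rw [Finset.mem_coe, Finset.mem_range]; exact ha, h4⟩
    intro a ha b hb hab
    exact h3 (by rw [Finset.mem_coe, Finset.mem_range]; exact ha)
      (by rw [Finset.mem_coe, Finset.mem_range]; exact hb) hab
  choose! τ hτ1 hτ2 using hsurj
  exact ⟨hlt, τ, fun i hi => ⟨hτ1 i hi, hτ2 i hi⟩, fun a ha =>
    hinj _ (hτ1 _ (hlt a ha)) _ ha (hτ2 _ (hlt a ha))⟩

section
variable {ι : Type} [Fintype ι] [DecidableEq ι] {n : ℕ} {g : ι → ι → ℝ} {W : Finset ι}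
  {A B m c sat V : ℕ} {φ : ℕ → ι}

theorem leaf31_sound (H : CoxH n g) (σ : Sem0 true n g W A B m c sat V φ) {ps : ℕ}
    (hl : leaf31 m c sat V ps = true) : ∃ f, S31 n g W f := by
  have hD : Diag g := H.toCox.toDiag
  unfold leaf31 at hl
  rw [bcB_and, bcB_and, bcB_and, bcB_and, atri_iff, all16_iff] at hl
  obtain ⟨h1, h2, h3, h4, h5⟩ := hl
  have h1 : m = 10 := Nat.eq_of_beq_eq_true h1
  have h2 : sat = (nat_lit 0x1111111111) := Nat.eq_of_beq_eq_true h2
  have h3 := Nat.eq_of_beq_eq_true h3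
  subst h1
  obtain ⟨hlt, τ, hτ, hτσ⟩ := Sl3_perm h3
  have hcd : ∀ a < 10, ∀ b < 10, a ≠ b → cd c a b = p31 (nb ps a) (nb ps b) := by
    intro a ha b hb hab
    rcases Nat.lt_or_gt_of_ne hab with h6 | h6
    · have h7 := Nat.eq_of_beq_eq_true (h4 b (by omega) (Sl3_bt.mpr hb) a h6)
      rw [σ.sym a (by omega) b (by omega), h7]
      exact c31_spec.1 _ (nb_lt _ _) _ (nb_lt _ _)
    · exact Nat.eq_of_beq_eq_true (h4 a (by omega) (Sl3_bt.mpr ha) b h6)
  have hne : ∀ i < 10, ∀ j < 10, i ≠ j → τ i ≠ τ j := by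
    intro i hi j hj hij h6
    apply hij
    rw [← (hτ i hi).2, ← (hτ j hj).2, h6]
  refine ⟨fun i => φ (τ i), σ.cardQ rfl, fun i hi => σ.mem _ (hτ i hi).1, ?_, ?_, ?_, ?_⟩
  · intro i hi j hj hij
    by_contra h6
    exact hne i hi j hj h6 (σ.inj _ (hτ i hi).1 _ (hτ j hj).1 hij)
  · intro i hi j hj hij
    have h6 := σ.cod _ (hτ i hi).1 _ (hτ j hj).1 (hne i hi j hj hij)
    rw [hcd _ (hτ i hi).1 _ (hτ j hj).1 (hne i hi j hj hij), (hτ i hi).2, (hτ j hj).2] at h6
    rcases h6 with h6 | h6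
    · exact h6.2
    · have h7 := (c31_spec.2.2 i (by omega) j (by omega)).2
      have h8 : p31 i j = cd c31 i j := rfl
      omega
  · intro i hi z hz hadj
    have h6 := (σ.st (τ i) (by rw [h2]; exact Sl3_bt.mpr (hτ i hi).1)).2 z hz hadj
    obtain ⟨b, hb, h7⟩ := h6
    refine ⟨nb ps b, hlt b hb, ?_⟩
    show φ (τ (nb ps b)) = z
    rw [hτσ b hb, h7]
  · intro u hu v hv huv
    have hu' := hτ u (by omega)
    have hv' := hτ (5 + v) (by omega)
    have h6 := h5 (τ u) (by omega)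
    rw [bcB_imp] at h6
    have h7 := h6 (Sl3_bt.mpr hu'.1)
    rw [bcB_imp, hu'.2] at h7
    have h8 := all16_iff.mp (h7 (by
      show Nat.ble u 4 = true
      rw [Nat.ble_eq]
      omega)) (τ (5 + v)) (by omega)
    rw [bcB_imp] at h8
    have h9 := h8 (Sl3_bt.mpr hv'.1)
    rw [bcB_imp, hv'.2] at h9
    have h10 := h9 (by
      show Nat.ble 5 (5 + v) = true
      rw [Nat.ble_eq]
      omega)
    rw [bcB_imp] at h10
    have h11 := h10 (by
      rw [bcB_or]
      rcases huv with huv | huv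
      · left
        show Nat.ble u 3 = true
        rw [Nat.ble_eq]
        omega
      · right
        subst huv
        rfl)
    rw [bcB_or] at h11
    rcases h11 with h11 | h11
    · exact (σ.ver _ _ h11).1
    · have h12 := (σ.ver _ _ h11).1
      rw [Finset.erase_right_comm] at h12
      exact h12

end

end MP86a502
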