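import Pool.Agent.Lib.MP_86a502_gt.U.Eva
import Pool.Agent.Lib.MP_86a502_gt.U.Evb
import Pool.Agent.Lib.MP_86a502_gt.U.Evt

set_option autoImplicit false
set_option linter.unusedSectionVars false

/-! # JOB Slt. The leaf of the certificate trees, triangles (120-180 lines)

Let `X = img φ (bt A) ⊆ W`, not positive definite (`npA`), so `W` is not positive definite.
(1) For `x ∈ A`: `vt V x x = true ↔ PD g (W.erase (φ x))`: one direction is `ver` (`Finset.erase_idem`); if
`vt V x x = false`, then some certificate of the list `nl` avoids `x` (`nlAv`), so its support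
(`npd_sound`) is a subset of `W.erase (φ x)`.
(2) The map `r ↦ co3 W (φ r.1) (φ r.2.1) (φ r.2.2)` is a bijection from `TC A V` to `TF n g W`:
`tri_mem`, `tri_sides` (order the three nodes), injective because `W \ T` determines the three facets.
(3) `fsum` of the image is at least `2 * tripW m (adjM c) l x y z`: `cw_le` with `S = co2 m z z`
(`bt_co2`) and `T = W.erase (φ z)`, and `wt_comm`.
(4) `tripS A V 4 ≤ tripS A V (tripW ..)` and `tripS_eq` give `8 * |TF| = 2 * ∑ 4 ≤ ∑ 2 tripW ≤ ∑ fsum`. -/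

namespace MP86a502

section
variable {ι : Type} [Fintype ι] [DecidableEq ι] {n : ℕ} {g : ι → ι → ℝ} {W : Finset ι}
  {A B m c sat V : ℕ} {φ : ℕ → ι}

private theorem Slt_av {m c x y : ℕ} (l : NL) : nlC m c l = true → nlAv l x y = true →
    ∃ s u, npd m c s u = true ∧ nz u x = false ∧ nz u y = false := by
  induction l with
  | nil =>
    intro _ h
    exact absurd h (by
      show ¬ (false = true)
      decide)
  | cons s u l ih =>
    intro h1 h2
    change bcB (npd m c s u) (nlC m c l) false = true at h1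
    change bcB (nz u x) (nlAv l x y) (bcB (nz u y) (nlAv l x y) true) = true at h2
    rw [bcB_and] at h1
    rw [bcB_iff, bcB_iff] at h2
    rcases h2 with ⟨_, h2⟩ | ⟨h3, ⟨_, h2⟩ | ⟨h4, _⟩⟩
    · exact ih h1.2 h2
    · exact ih h1.2 h2
    · exact ⟨s, u, h1.1, h3, h4⟩

private theorem Slt_su {m c s u a : ℕ} (h : npd m c s u = true) (ha : nz u a = true) : a < m := by
  unfold npd at h
  rw [bcB_and] at h
  by_contra hm
  have h1 := dg_su h.1 (not_lt.1 hm)
  rw [nz_iff] at ha
  omega

private theorem Slt_co3_1 (x y z : ι) : co3 W x y z = co3 W y x z := by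
  unfold co3
  rw [Finset.erase_right_comm (a := x) (b := y)]

private theorem Slt_co3_2 (x y z : ι) : co3 W x y z = co3 W x z y := by
  unfold co3
  rw [Finset.erase_right_comm]

private theorem Slt_mem_co3 {x y z w : ι} : w ∈ co3 W x y z ↔ w ≠ z ∧ w ≠ y ∧ w ≠ x ∧ w ∈ W := by
  unfold co3
  rw [Finset.mem_erase, Finset.mem_erase, Finset.mem_erase]

theorem leafT_sound (H : CoxH n g) (σ : Sem0 false n g W A B m c sat V φ) {nl : NL} {l : FL}
    (hl : leafT A m c (adjM c) sat V nl l = true) : defT n g W := by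
  unfold leafT at hl
  rw [bcB_and, bcB_and, bcB_and, bcB_and, all16_iff] at hl
  obtain ⟨h1, h2, h3, h4, h5⟩ := hl
  have hm16 := σ.m16
  have hWc : W.card = n + 1 := σ.cardT rfl
  have hnW : ¬ PD g W := by
    intro hp
    apply σ.npA
    apply pd_subset hp
    intro z hz
    rw [mem_img] at hz
    obtain ⟨a, _, ha, rfl⟩ := hz
    exact σ.mem a (σ.aA a ha)
  have hver : ∀ x, bt A x = true → (vt V x x = true ↔ PD g (W.erase (φ x))) := by
    intro x hx
    have hxm := σ.aA x hx
    constructor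
    · intro hv
      have := (σ.ver x x hv).1
      rwa [Finset.erase_idem] at this
    · intro hp
      have h6 := h4 x (by omega)
      rw [bcB_imp] at h6
      have h7 := h6 hx
      rw [bcB_or] at h7
      rcases h7 with h7 | h7
      · exact h7
      · exfalso
        obtain ⟨s, u, hn, hux, _⟩ := Slt_av nl h2 h7
        have := npd_sound H.toDiag hm16 σ.cod σ.inj hn
        apply this
        apply pd_subset hp
        intro z hz
        rw [mem_img] at hz
        obtain ⟨a, _, ha, rfl⟩ := hz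
        have ham := Slt_su hn ha
        rw [Finset.mem_erase]
        refine ⟨?_, σ.mem a ham⟩
        intro he
        have := σ.inj a ham x hxm he
        rw [this, hux] at ha
        exact absurd ha (by decide)
  let f : ℕ × ℕ × ℕ → Finset ι := fun r => co3 W (φ r.1) (φ r.2.1) (φ r.2.2)
  have hTC : ∀ r ∈ TC A V, r.2.1 < r.1 ∧ r.2.2 < r.2.1 ∧ bt A r.1 = true ∧ bt A r.2.1 = true ∧
      bt A r.2.2 = true ∧ vt V r.1 r.1 = true ∧ vt V r.2.1 r.2.1 = true ∧ vt V r.2.2 r.2.2 = true := by
    intro r hr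
    unfold TC at hr
    rw [Finset.mem_filter] at hr
    obtain ⟨_, a1, a2, a3, a4, a5, a6⟩ := hr
    exact ⟨a1, a2, a3, (σ.ver _ _ a5).2.1, (σ.ver _ _ a6).2.1, a4, a5, a6⟩
  have hkey : ∀ r ∈ TC A V, f r ∈ TF n g W ∧ 2 * tripW m (adjM c) l r.1 r.2.1 r.2.2 ≤ fsum n g (f r) := by
    intro r hr
    obtain ⟨a1, a2, b1, b2, b3, v1, v2, v3⟩ := hTC r hr
    obtain ⟨x, y, z⟩ := r
    dsimp only at *
    have xm := σ.aA x b1
    have ym := σ.aA y b2
    have zm := σ.aA z b3
    have xy : φ x ≠ φ y := fun e => by have := σ.inj x xm y ym e; omega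
    have xz : φ x ≠ φ z := fun e => by have := σ.inj x xm z zm e; omega
    have yz : φ y ≠ φ z := fun e => by have := σ.inj y ym z zm e; omega
    have ht := tri_mem H.toCox hWc (σ.mem x xm) (σ.mem y ym) (σ.mem z zm)
      (by simp [xy, xz, yz]) ((hver x b1).1 v1) ((hver y b2).1 v2) ((hver z b3).1 v3) hnW
    refine ⟨ht.1, ?_⟩
    show 2 * tripW m (adjM c) l x y z ≤ fsum n g (co3 W (φ x) (φ y) (φ z))
    rw [ht.2]
    have hcw : ∀ a < m, ∀ b < m, ∀ d < m, a ≠ b → cw (adjM c) (co2 m d d) a b l ≤ wt g (W.erase (φ d)) (φ a) (φ b) := by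
      intro a ha b hb d hd hab
      refine cw_le H.toDiag σ h1 l h3 (Finset.erase_subset _ _) ?_ ?_ ha hb hab
      · intro e he
        rw [bt_co2 hm16 hd hd, Finset.mem_erase]
        constructor
        · rintro ⟨_, g1, _⟩
          exact ⟨fun h => g1 (σ.inj e he d hd h), σ.mem e he⟩
        · rintro ⟨g1, _⟩
          have : e ≠ d := fun h => g1 (by rw [h])
          exact ⟨he, this, this⟩
      · intro e he
        rw [bt_co2 hm16 hd hd] at he
        exact he.1
    have c1 := hcw x xm y ym z zm (by omega)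
    have c2 := hcw x xm z zm y ym (by omega)
    have c3 := hcw y ym z zm x xm (by omega)
    have w1 := wt_comm H.toDiag (W.erase (φ z)) (φ x) (φ y)
    have w2 := wt_comm H.toDiag (W.erase (φ y)) (φ x) (φ z)
    have w3 := wt_comm H.toDiag (W.erase (φ x)) (φ y) (φ z)
    have ew : tripW m (adjM c) l x y z = cw (adjM c) (co2 m z z) x y l +
      (cw (adjM c) (co2 m y y) x z l + cw (adjM c) (co2 m x x) y z l) := rfl
    rw [ew]
    omega
  have hinj : Set.InjOn f (TC A V : Finset (ℕ × ℕ × ℕ)) := by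
    intro r hr r' hr' he
    rw [Finset.mem_coe] at hr hr'
    obtain ⟨a1, a2, b1, b2, b3, -, -, -⟩ := hTC r hr
    obtain ⟨a1', a2', b1', b2', b3', -, -, -⟩ := hTC r' hr'
    obtain ⟨x, y, z⟩ := r
    obtain ⟨x', y', z'⟩ := r'
    dsimp only at *
    change co3 W (φ x) (φ y) (φ z) = co3 W (φ x') (φ y') (φ z') at he
    have xm := σ.aA x b1
    have ym := σ.aA y b2
    have zm := σ.aA z b3
    have xm' := σ.aA x' b1'
    have ym' := σ.aA y' b2'
    have zm' := σ.aA z' b3'
    have key : ∀ a, a < m → (a = x ∨ a = y ∨ a = z) → (a = x' ∨ a = y' ∨ a = z') := by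
      intro a ha hor
      have h6 : φ a ∉ co3 W (φ x) (φ y) (φ z) := by
        rw [Slt_mem_co3]
        rintro ⟨p1, p2, p3, _⟩
        rcases hor with rfl | rfl | rfl
        · exact p3 rfl
        · exact p2 rfl
        · exact p1 rfl
      rw [he, Slt_mem_co3] at h6
      by_contra hcon
      push Not at hcon
      apply h6
      exact ⟨fun h => hcon.2.2 (σ.inj a ha z' zm' h), fun h => hcon.2.1 (σ.inj a ha y' ym' h),
        fun h => hcon.1 (σ.inj a ha x' xm' h), σ.mem a ha⟩
    have k1 := key x xm (Or.inl rfl)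
    have k2 := key y ym (Or.inr (Or.inl rfl))
    have k3 := key z zm (Or.inr (Or.inr rfl))
    have e1 : x = x' := by omega
    have e2 : y = y' := by omega
    have e3 : z = z' := by omega
    rw [e1, e2, e3]
  have hTCmem : ∀ x y z, y < x → z < y → bt A x = true → bt A y = true → bt A z = true →
      PD g (W.erase (φ x)) → PD g (W.erase (φ y)) → PD g (W.erase (φ z)) → (x, y, z) ∈ TC A V := by
    intro x y z q1 q2 q3 q4 q5 q6 q7 q8
    have xm := σ.aA x q3
    unfold TC
    rw [Finset.mem_filter, Finset.mem_product, Finset.mem_product, Finset.mem_range, Finset.mem_range,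
      Finset.mem_range]
    dsimp only
    exact ⟨⟨by omega, by omega, by omega⟩, q1, q2, q3, (hver x q3).2 q6, (hver y q4).2 q7, (hver z q5).2 q8⟩
  have himg : TF n g W = (TC A V).image f := by
    apply Finset.Subset.antisymm
    · intro T hT
      have hX : img φ (bt A) ⊆ W := by
        intro z hz
        rw [mem_img] at hz
        obtain ⟨a, _, ha, rfl⟩ := hz
        exact σ.mem a (σ.aA a ha)
      obtain ⟨x, hx, y, hy, z, hz, xy, xz, yz, hTe, p1, p2, p3⟩ := tri_sides H.toCox hWc hX σ.npA hT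
      rw [mem_img] at hx hy hz
      obtain ⟨a, _, ha, rfl⟩ := hx
      obtain ⟨b, _, hb, rfl⟩ := hy
      obtain ⟨d, _, hd, rfl⟩ := hz
      have ab : a ≠ b := fun h => xy (by rw [h])
      have ad : a ≠ d := fun h => xz (by rw [h])
      have bd : b ≠ d := fun h => yz (by rw [h])
      rw [Finset.mem_image]
      rcases lt_or_gt_of_ne ab with k1 | k1 <;> rcases lt_or_gt_of_ne ad with k2 | k2 <;>
        rcases lt_or_gt_of_ne bd with k3 | k3
      · -- a<b<d
        refine ⟨(d, b, a), hTCmem d b a k3 k1 hd hb ha p3 p2 p1, ?_⟩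
        show co3 W (φ d) (φ b) (φ a) = T
        rw [hTe, Slt_co3_1, Slt_co3_2, Slt_co3_1]
      · -- a<b, a<d, d<b
        refine ⟨(b, d, a), hTCmem b d a k3 k2 hb hd ha p2 p3 p1, ?_⟩
        show co3 W (φ b) (φ d) (φ a) = T
        rw [hTe, Slt_co3_2, Slt_co3_1]
      · exfalso; omega
      · -- a<b, d<a
        refine ⟨(b, a, d), hTCmem b a d k1 k2 hb ha hd p2 p1 p3, ?_⟩
        show co3 W (φ b) (φ a) (φ d) = T
        rw [hTe, Slt_co3_1]
      · -- b<a<d
        refine ⟨(d, a, b), hTCmem d a b k2 k1 hd ha hb p3 p1 p2, ?_⟩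
        show co3 W (φ d) (φ a) (φ b) = T
        rw [hTe, Slt_co3_1, Slt_co3_2]
      · exfalso; omega
      · -- b<a, d<a, b<d
        refine ⟨(a, d, b), hTCmem a d b k2 k3 ha hd hb p1 p3 p2, ?_⟩
        show co3 W (φ a) (φ d) (φ b) = T
        rw [hTe, Slt_co3_2]
      · refine ⟨(a, b, d), hTCmem a b d k1 k3 ha hb hd p1 p2 p3, ?_⟩
        show co3 W (φ a) (φ b) (φ d) = T
        rw [hTe]
    · intro T hT
      rw [Finset.mem_image] at hT
      obtain ⟨r, hr, rfl⟩ := hT
      exact (hkey r hr).1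
  unfold defT
  rw [himg, Finset.card_image_of_injOn hinj, Finset.sum_image hinj]
  have h6 := Nat.le_of_ble_eq_true h5
  rw [tripS_eq, tripS_eq] at h6
  have h7 : ∑ r ∈ TC A V, (4 : ℕ) ≤ ∑ r ∈ TC A V, tripW m (adjM c) l r.1 r.2.1 r.2.2 := h6
  rw [Finset.sum_const, smul_eq_mul] at h7
  have h8 : ∑ r ∈ TC A V, 2 * tripW m (adjM c) l r.1 r.2.1 r.2.2 ≤ ∑ r ∈ TC A V, fsum n g (f r) :=
    Finset.sum_le_sum fun r hr => (hkey r hr).2
  rw [← Finset.mul_sum] at h8
  omega

end

end MP86a502
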