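import Pool.Agent.Lib.MP_86a502_gt.U.Slq
import Pool.Agent.Lib.MP_86a502_gt.U.Slt
import Pool.Agent.Lib.MP_86a502_gt.U.Sl3

set_option autoImplicit false
set_option linter.unusedSectionVars false

/-! # The leaves -/

namespace MP86a502

end MP86a502
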