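import Pool.Agent.Lib.MP_86a502_gt.U.Spe
import Pool.Agent.Lib.MP_86a502_gt.U.Pdc

set_option autoImplicit false
set_option linter.unusedSectionVars false

/-! # JOB Spd. The step `pd` of the certificate trees (40-70 lines)

Induction on the list: `plV (.cons x y Z par D l) V = Nat.lor (plV l V) (1 <<< pos x y)` (by `rfl`), only the
field `ver` changes: `vt_set`; `pdC_sound` (with `S = co2 m x y`, `bt_co2`; `x, y < m` by `aA`, `aB`) and
`rad_pd`. -/

namespace MP86a502

section
variable {ι : Type} [Fintype ι] [DecidableEq ι] {n : ℕ} {g : ι → ι → ℝ} {q : Bool} {W : Finset ι}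
  {A B rm cm m c sat V : ℕ} {φ : ℕ → ι}

private theorem Spd_plC_cons {ad : ℕ} {x y Z par D : ℕ} {l : PL}
    (hp : plC q A B rm cm m c ad sat (.cons x y Z par D l) = true) :
    (bt A x = true ∧ (q = true → bt B y = true) ∧ (q = false → x = y)) ∧
      pdC c ad (co2 m x y) Z par D = true ∧ radC q ad (co2 m x y) rm sat = true ∧
      (q = true → radC q ad (co2 m x y) cm sat = true) ∧
      plC q A B rm cm m c ad sat l = true := by
  have h0 : bcB (bcB q (bcB (bt A x) (bt B y) false) (bcB (bt A x) (Nat.beq x y) false))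
      (bcB (pdC c ad (co2 m x y) Z par D)
        (bcB (radC q ad (co2 m x y) rm sat)
          (bcB (bcB q (radC q ad (co2 m x y) cm sat) true)
            (plC q A B rm cm m c ad sat l) false) false) false) false = true := hp
  obtain ⟨h1, h0⟩ := bcB_and.1 h0
  obtain ⟨h2, h0⟩ := bcB_and.1 h0
  obtain ⟨h3, h0⟩ := bcB_and.1 h0
  obtain ⟨h4, h5⟩ := bcB_and.1 h0
  refine ⟨?_, h2, h3, bcB_imp.1 h4, h5⟩
  cases q with
  | true =>
    have h1' : bcB (bt A x) (bt B y) false = true := h1
    obtain ⟨a1, a2⟩ := bcB_and.1 h1'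
    exact ⟨a1, fun _ => a2, fun h => absurd h (by decide)⟩
  | false =>
    have h1' : bcB (bt A x) (Nat.beq x y) false = true := h1
    obtain ⟨a1, a2⟩ := bcB_and.1 h1'
    exact ⟨a1, fun h => absurd h (by decide), fun _ => Nat.eq_of_beq_eq_true a2⟩

theorem sem_pd (H : CoxH n g) (l5 : ∀ X, Lan g X → X.card ≤ 5)
    (σ : Sem q n g W A B rm cm m c sat V φ) (p : PL)
    (hp : plC q A B rm cm m c (adjM c) sat p = true) :
    Sem q n g W A B rm cm m c sat (plV p V) φ := by
  induction p with
  | nil => exact σ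
  | cons x y Z par D l ih =>
    obtain ⟨⟨hAx, hBy, hxy⟩, h2, h3, h4, h5⟩ := Spd_plC_cons hp
    have τ := ih h5
    have hxm : x < m := σ.aA x hAx
    have hym : y < m := by
      cases hq : q with
      | true => exact σ.aB y (hBy hq)
      | false => exact hxy hq ▸ hxm
    have hm16 := σ.m16
    have hpd : PD g (img φ (bt (co2 m x y))) :=
      pdC_sound H.toDiag hm16 σ.cod σ.sym (fun a ha => σ.out a ha a ha (Or.inl rfl)) σ.inj
        (fun a _ ha => ((bt_co2 hm16 hxm hym).1 ha).1) h2
    have hnew : PD g ((W.erase (φ x)).erase (φ y)) := rad_pd H l5 σ hxm hym hpd h3 h4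
    have hV : plV (.cons x y Z par D l) V =
        Nat.lor (plV l V) (Nat.shiftLeft (nat_lit 1) (pos x y)) := rfl
    rw [hV]
    exact { τ with
      ver := by
        intro a b hab
        rcases (vt_set (by omega)).1 hab with h | ⟨rfl, rfl⟩
        · exact τ.ver a b h
        · exact ⟨hnew, hAx, hBy, hxy⟩ }

end

end MP86a502
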