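import Pool.Agent.Lib.MP_86a502_gt.U.Sex
import Pool.Agent.Lib.MP_86a502_gt.U.Spd
import Pool.Agent.Lib.MP_86a502_gt.U.Slf

set_option autoImplicit false
set_option linter.unusedSectionVars false

/-! # JOB Ssd. Soundness of the checker (80-140 lines)

Induction on the tree; `chk q A B rm cm (.non x y s u) m c sat V` etc. unfold by `rfl` (use `show` or
`change`). -/

namespace MP86a502

section
variable {ι : Type} [Fintype ι] [DecidableEq ι] {n : ℕ} {g : ι → ι → ℝ} {q : Bool} {W : Finset ι}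
  {A B rm cm : ℕ}

private theorem Ssd_ite {c t : Bool} (h : bcB c false t = true) : c = false ∧ t = true := by
  rcases bcB_iff.1 h with ⟨_, h1⟩ | h1
  · exact absurd h1 (by simp)
  · exact h1

private theorem Ssd_lt {a b : ℕ} (h : Nat.ble (Nat.add a (nat_lit 1)) b = true) : a < b :=
  Nat.le_of_ble_eq_true h

theorem chk_sound (H : CoxH n g) (l5 : ∀ X, Lan g X → X.card ≤ 5) (hcm : q = false → cm = 0)
    (t : Tr) :
    ∀ (m c sat V : ℕ) (φ : ℕ → ι), Sem q n g W A B rm cm m c sat V φ → chk q A B rm cm t m c sat V = true →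
    Goal q n g W := by
  induction t with
  | non x y s u =>
    intro m c sat V φ σ h
    change bcB (vt V x y) (bcB (nz u x) false (bcB (nz u y) false (npd m c s u))) false = true at h
    obtain ⟨hv, h1⟩ := bcB_and.1 h
    obtain ⟨hx, h2⟩ := Ssd_ite h1
    obtain ⟨hy, h3⟩ := Ssd_ite h2
    exact (non_false H σ.toSem0 hv hx hy h3).elim
  | nol s u =>
    intro m c sat V φ σ h
    change bcB (bcB (suA u A) true (suA u B)) (npd m c s u) false = true at h
    obtain ⟨h1, h2⟩ := bcB_and.1 h
    exact (nol_false H σ h1 h2).elim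
  | sup u w =>
    intro m c sat V φ σ h
    exact (sup_sound H σ.m16 σ.cod σ.inj h).elim
  | unj s u t w =>
    intro m c sat V φ σ h
    change bcB (npd m c s u) (bcB (npd m c t w) (unjC c u w) false) false = true at h
    obtain ⟨h1, h2⟩ := bcB_and.1 h
    obtain ⟨h2, h3⟩ := bcB_and.1 h2
    exact (unj_sound H σ.m16 σ.cod σ.inj h1 h2 h3).elim
  | uj =>
    intro m c sat V φ σ h
    change bcB q (ujC c A B) false = true at h
    obtain ⟨h1, h2⟩ := bcB_and.1 h
    subst h1
    exact (uj_false H σ.toSem0 h2).elim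
  | star z a b =>
    intro m c sat V φ σ h
    cases q with
    | true => exact (star_false H σ h).elim
    | false =>
      exfalso
      have h0 : cm = 0 := hcm rfl
      change bcB (Nat.ble (Nat.add z (nat_lit 1)) m) (bcB (bt rm a)
        (bcB (bt cm b)
          (bcB (Nat.beq z a) (ge3 c a b) (bcB (Nat.beq z b) (ge3 c a b)
            (bcB (ge3 c z a) (bcB (ge3 c z b)
              (bcB (bt (Nat.lor rm cm) z) false true) false) false))) false) false) false = true at h
      obtain ⟨_, h1⟩ := bcB_and.1 h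
      obtain ⟨_, h2⟩ := bcB_and.1 h1
      obtain ⟨h3, _⟩ := bcB_and.1 h2
      subst h0
      rw [bt_zero] at h3
      exact absurd h3 (by simp)
  | par s u =>
    intro m c sat V φ σ h
    exact (par_sound H σ.m16 σ.cod σ.inj h).elim
  | split a b t₁ t₂ ih1 ih2 =>
    intro m c sat V φ σ h
    change bcB (Nat.ble (Nat.add b (nat_lit 1)) a)
      (bcB (Nat.ble (Nat.add a (nat_lit 1)) m)
        (bcB (Nat.beq (cd c a b) (nat_lit 10))
          (bcB (chk q A B rm cm t₁ m (up c a b (nat_lit 8)) sat V)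
            (chk q A B rm cm t₂ m (up c a b (nat_lit 1)) sat V) false)
          (bcB (Nat.ble (nat_lit 11) (cd c a b)) (bcB (Nat.ble (cd c a b) (nat_lit 14))
            (bcB (chk q A B rm cm t₁ m (up c a b (nat_lit 8)) sat V)
              (chk q A B rm cm t₂ m
                (up c a b (Nat.xor (cd c a b) (Nat.add (cd c a b) (nat_lit 1)))) sat V)
              false) false) false)) false) false = true at h
    obtain ⟨hb, h⟩ := bcB_and.1 h
    obtain ⟨ha, h⟩ := bcB_and.1 h
    have hb' : b < a := Ssd_lt hb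
    have ha' : a < m := Ssd_lt ha
    rcases bcB_iff.1 h with ⟨h1, h2⟩ | ⟨_, h2⟩
    · have h10 : cd c a b = 10 := Nat.eq_of_beq_eq_true h1
      obtain ⟨h3, h4⟩ := bcB_and.1 h2
      rcases sem_split H.toDiag σ hb' ha' h10 with h5 | h5
      · exact ih1 _ _ _ _ _ h5 h3
      · exact ih2 _ _ _ _ _ h5 h4
    · obtain ⟨h3, h4⟩ := bcB_and.1 h2
      obtain ⟨h4, h5⟩ := bcB_and.1 h4
      obtain ⟨h5, h6⟩ := bcB_and.1 h5
      have h11 : 11 ≤ cd c a b := Nat.le_of_ble_eq_true h3
      have h14 : cd c a b ≤ 14 := Nat.le_of_ble_eq_true h4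
      rcases sem_split' H.toDiag σ hb' ha' h11 h14 with h7 | h7
      · exact ih1 _ _ _ _ _ h7 h5
      · exact ih2 _ _ _ _ _ h7 h6
  | ex u t₁ t₂ ih1 ih2 =>
    intro m c sat V φ σ h
    change bcB (Nat.ble (Nat.add u (nat_lit 1)) m)
      (bcB (Nat.ble m (nat_lit 15))
        (bcB (chk q A B rm cm t₁ m c (Nat.lor sat (bit u)) V)
          (chk q A B rm cm t₂ (Nat.add m (nat_lit 1)) (ext m c u) sat V) false) false) false
        = true at h
    obtain ⟨hu, h⟩ := bcB_and.1 h
    obtain ⟨hm, h⟩ := bcB_and.1 h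
    obtain ⟨h1, h2⟩ := bcB_and.1 h
    have hu' : u < m := Ssd_lt hu
    have hm' : m ≤ 15 := Nat.le_of_ble_eq_true hm
    rcases sem_ex H.toDiag σ hu' hm' with h5 | ⟨φ', h5⟩
    · exact ih1 _ _ _ _ _ h5 h1
    · exact ih2 _ _ _ _ _ h5 h2
  | st u x y s v r w t ih =>
    intro m c sat V φ σ h
    change bcB (Nat.ble (Nat.add u (nat_lit 1)) m)
      (bcB (vt V x y) (bcB (nz v x) false (bcB (nz v y) false
        (bcB (npdz m c s v u r w) (chk q A B rm cm t m c (Nat.lor sat (bit u)) V) false)))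
          false) false = true at h
    obtain ⟨hu, h⟩ := bcB_and.1 h
    obtain ⟨hv, h⟩ := bcB_and.1 h
    obtain ⟨hx, h⟩ := Ssd_ite h
    obtain ⟨hy, h⟩ := Ssd_ite h
    obtain ⟨h1, h2⟩ := bcB_and.1 h
    exact ih _ _ _ _ _ (sem_st H σ (Ssd_lt hu) hv hx hy h1) h2
  | pd p t ih =>
    intro m c sat V φ σ h
    change bcB (plC q A B rm cm m c (adjM c) sat p)
      (chk q A B rm cm t m c sat (plV p V)) false = true at h
    obtain ⟨h1, h2⟩ := bcB_and.1 h
    exact ih _ _ _ _ _ (sem_pd H l5 σ p h1) h2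
  | leaf nl l =>
    intro m c sat V φ σ h
    change bcB q (leafQ (nat_lit 0) A B m c (adjM c) sat V nl l)
      (leafT A m c (adjM c) sat V nl l) = true at h
    cases q with
    | true =>
      refine ⟨fun _ => Or.inl ?_, fun h0 => absurd h0 (by simp)⟩
      exact leafQ_sound (e := 0) H σ.toSem0 h
    | false =>
      refine ⟨fun h0 => absurd h0 (by simp), fun _ => ?_⟩
      exact leafT_sound H σ.toSem0 h
  | l31 ps =>
    intro m c sat V φ σ h
    change bcB q (leaf31 m c sat V ps) false = true at h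
    obtain ⟨h1, h2⟩ := bcB_and.1 h
    subst h1
    exact ⟨fun _ => Or.inr (leaf31_sound H σ.toSem0 h2), fun h0 => absurd h0 (by simp)⟩

end

end MP86a502
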