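import Pool.Agent.Lib.MP_86a502_gt.U.Lcl
import Pool.Agent.Lib.MP_86a502_gt.U.Ssd
import Pool.Agent.Lib.MP_86a502_gt.U.DatS

set_option autoImplicit false
set_option linter.unusedSectionVars false

/-! # JOB Rth. The initial state for triangles (100-160 lines)

Build `Sem false n g M (full (lN t)) 0 (marks) 0 (lN t) (lC t) 0 (V) φ` with the numbers of `tR`: codes from
`LP`, `lC_spec`, `lP_rng`; `bt_full`, `bt_zero`, `bt_lor`, `bt_bit`; `ver`: `vt_lor`, `vt_one`
(`Finset.erase_idem`); `hit`: a subset of `M` that is not positive definite contains the three marks;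
`fin`: a dotted pair would be such a subset with two elements; `npA`, `minA` from `Lan g X`,
`X = img φ (bt (full (lN t)))`. `rmz`: `bit_dvd`, `Nat.testBit_or`. Apply `chk_sound` (`l5` is `lan_card H`). -/

namespace MP86a502

section
variable {ι : Type} [Fintype ι] [DecidableEq ι] {n : ℕ} {g : ι → ι → ℝ}

/-- the initial state -/
theorem tri_root (H : CoxH n g) {M X : Finset ι} (hM : M.card = n + 1) (hX : X ⊆ M) (lX : Lan g X)
    {t : ℕ} (ht : t < 12) {φ : ℕ → ι} (hφ : LP g t φ X) {i j k : ℕ} (hij : i < j) (hjk : j < k)
    (hk : k < lN t) (p1 : PD g (M.erase (φ i))) (p2 : PD g (M.erase (φ j)))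
    (p3 : PD g (M.erase (φ k))) {tr : Tr} (hR : tR t i j k tr = true) : defT n g M := by
  have hl := lN_rng t ht
  have ff : ∀ {P : Prop}, false = true → P := fun h => absurd h (by simp)
  have hcd : ∀ a < 16, ∀ b < 16, cd (lC t) a b = if a < lN t ∧ b < lN t then lP t a b else 2 :=
    fun a ha b hb => lC_spec t ht a b ha hb
  have hbz : ∀ a, bt (nat_lit 0) a = false := fun a => bt_zero a
  have hrm : ∀ a, bt (Nat.lor (bit i) (Nat.lor (bit j) (bit k))) a = true ↔
      (a = i ∨ a = j ∨ a = k) := by
    intro a
    rw [bt_lor, bt_lor, Bool.or_eq_true, Bool.or_eq_true, bt_bit, bt_bit, bt_bit]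
  have hV : ∀ x y, vt (Nat.lor (Nat.shiftLeft (nat_lit 1) (pos i i))
      (Nat.lor (Nat.shiftLeft (nat_lit 1) (pos j j))
      (Nat.shiftLeft (nat_lit 1) (pos k k)))) x y = true ↔
      ((x = i ∧ y = i) ∨ (x = j ∧ y = j) ∨ (x = k ∧ y = k)) := by
    intro x y
    rw [vt_lor, vt_lor, Bool.or_eq_true, Bool.or_eq_true, vt_one (by omega), vt_one (by omega),
      vt_one (by omega)]
  have hXi : img φ (bt (full (lN t))) = X := by
    ext z
    rw [mem_img, hφ.mem]
    constructor
    · rintro ⟨a, _, h1, h2⟩
      exact ⟨a, (bt_full (by omega)).1 h1, h2⟩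
    · rintro ⟨a, h1, h2⟩
      exact ⟨a, by omega, (bt_full (by omega)).2 h1, h2⟩
  have hhit : ∀ Z ⊆ M, ¬ PD g Z → ∀ a, (a = i ∨ a = j ∨ a = k) → φ a ∈ Z := by
    intro Z hZ hp a ha
    by_contra hc
    have h1 : Z ⊆ M.erase (φ a) := by
      intro w hw
      rw [Finset.mem_erase]
      refine ⟨fun he => hc (he ▸ hw), hZ hw⟩
    rcases ha with rfl | rfl | rfl
    · exact hp (pd_subset p1 h1)
    · exact hp (pd_subset p2 h1)
    · exact hp (pd_subset p3 h1)
  have hij' : φ i ≠ φ j := fun he => by
    have := hφ.inj i (by omega) j (by omega) he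
    omega
  have hik' : φ i ≠ φ k := fun he => by
    have := hφ.inj i (by omega) k (by omega) he
    omega
  have hjk' : φ j ≠ φ k := fun he => by
    have := hφ.inj j (by omega) k (by omega) he
    omega
  have hcard : 3 ≤ ((Finset.range 16).filter (fun a =>
      bt (Nat.lor (bit i) (Nat.lor (bit j) (bit k))) a = true)).card := by
    have h1 : ({i, j, k} : Finset ℕ) ⊆ (Finset.range 16).filter (fun a =>
        bt (Nat.lor (bit i) (Nat.lor (bit j) (bit k))) a = true) := by
      intro a ha
      simp only [Finset.mem_insert, Finset.mem_singleton] at ha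
      rw [Finset.mem_filter, Finset.mem_range, hrm]
      refine ⟨?_, ha⟩
      omega
    have h2 : ({i, j, k} : Finset ℕ).card = 3 := Finset.card_eq_three.2
      ⟨i, j, k, by omega, by omega, by omega, rfl⟩
    rw [← h2]
    exact Finset.card_le_card h1
  have hor : ∀ x y l : ℕ, (Nat.lor x y).testBit l = (x.testBit l || y.testBit l) := by
    intro x y l
    exact Nat.testBit_or x y l
  have σ : Sem false n g M (full (lN t)) (nat_lit 0) (Nat.lor (bit i) (Nat.lor (bit j) (bit k)))
      (nat_lit 0) (lN t) (lC t) (nat_lit 0)
      (Nat.lor (Nat.shiftLeft (nat_lit 1) (pos i i)) (Nat.lor (Nat.shiftLeft (nat_lit 1) (pos j j))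
        (Nat.shiftLeft (nat_lit 1) (pos k k)))) φ :=
    { cardQ := fun h => ff h
      cardT := fun _ => hM
      m16 := by omega
      mem := fun a ha => hX ((hφ.mem _).2 ⟨a, ha, rfl⟩)
      inj := hφ.inj
      cod := by
        intro a ha b hb hab
        rw [hcd a (by omega) b (by omega), if_pos ⟨ha, hb⟩]
        exact hφ.cod a ha b hb hab
      sym := by
        intro a ha b hb
        rw [hcd a ha b hb, hcd b hb a ha]
        by_cases h1 : a < lN t ∧ b < lN t
        · rw [if_pos h1, if_pos h1.symm]
          exact (lP_rng t ht a (by omega) b (by omega)).1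
        · rw [if_neg h1, if_neg (fun h2 => h1 h2.symm)]
      out := by
        intro a ha b hb hab
        rw [hcd a ha b hb]
        split_ifs with h1
        · have hab' : a = b := by omega
          rw [← hab']
          exact (lP_rng t ht a (by omega) a (by omega)).2.1
        · rfl
      st := fun a ha => absurd ha (by rw [hbz]; simp)
      ver := by
        intro x y hv
        rw [hV] at hv
        have hxy : x = y := by omega
        subst hxy
        have hx : x = i ∨ x = j ∨ x = k := by omega
        refine ⟨?_, (bt_full (by omega)).2 (by omega), fun h => ff h, fun _ => rfl⟩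
        rw [Finset.erase_idem]
        rcases hx with rfl | rfl | rfl
        · exact p1
        · exact p2
        · exact p3
      aA := fun a ha => (bt_full (by omega)).1 ha
      aB := fun a ha => absurd ha (by rw [hbz]; simp)
      dis := fun a _ ha => absurd ha (by rw [hbz]; simp)
      npA := by
        rw [hXi]
        exact lX.1
      npB := fun h => ff h
      nB := fun _ a => hbz a
      minA := by
        rw [hXi]
        exact lX.2
      minB := fun h => ff h
      rmm := fun a ha => by
        rw [hrm] at ha
        omega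
      cmm := fun a ha => absurd ha (by rw [hbz]; simp)
      rmz := by
        intro l hl2
        rw [hor, hor, Bool.or_eq_true, Bool.or_eq_true] at hl2
        rcases hl2 with h1 | h1 | h1
        · exact bit_dvd h1
        · exact bit_dvd h1
        · exact bit_dvd h1
      cmz := fun l hl2 => absurd hl2 (by
        have : (nat_lit 0).testBit l = false := Nat.zero_testBit l
        rw [this]
        simp)
      rm2 := by omega
      rm3 := fun _ => hcard
      cm2 := fun h => ff h
      hit := fun Z hZ hp => Or.inl fun a ha => hhit Z hZ hp a ((hrm a).1 ha)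
      star := fun h => ff h
      fin := by
        intro z hz hnz w hw hwz
        by_contra hc
        have hnp : ¬ PD g {z, w} := fun hp => hc ((pd_lab H.toCox.toDiag (Ne.symm hwz)).1 hp)
        have hsub : ({z, w} : Finset ι) ⊆ M := by
          intro v hv
          rcases Finset.mem_insert.1 hv with rfl | hv
          · exact hz
          · rw [Finset.mem_singleton.1 hv]
            exact hw
        have k1 := hhit _ hsub hnp i (Or.inl rfl)
        have k2 := hhit _ hsub hnp j (Or.inr (Or.inl rfl))
        rw [Finset.mem_insert, Finset.mem_singleton] at k1 k2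
        have n1 := hnz i (by omega)
        have n2 := hnz j (by omega)
        rcases k1 with k1 | k1
        · exact n1 k1
        · rcases k2 with k2 | k2
          · exact n2 k2
          · exact hij' (k1.trans k2.symm) }
  exact (chk_sound H (fun X hX => lan_card H hX) (fun _ => rfl) tr _ _ _ _ φ σ hR).2 rfl

end

end MP86a502
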