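import Pool.Agent.Lib.MP_86a502_gt.U.Sop

set_option autoImplicit false
set_option linter.unusedSectionVars false

/-! # JOB Sex. The steps `split`, `ex`, `st` of the certificate trees (150-220 lines)

* `sem_split`: a label with code `10` has code `2` or `11`; only the codes change: `cd_up`
  (`10 ^^^ 8 = 2`, `10 ^^^ 1 = 11`), for both entries `a, b` and `b, a` (`lab_comm`).
* `sem_split'`: a label with the code `k ∈ {11, ..., 14}` has the code `k - 8` or `k + 1`
  (`k ^^^ 8 = k - 8`, `k ^^^ (k ^^^ (k + 1)) = k + 1`).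
* `sem_ex`: if all neighbours of `φ u` in `W` are known, then `u` can be added to `sat`; otherwise there
  is `z ∈ W`, adjacent to `φ u`, `z ≠ φ a` for all `a < m`: take `φ' = Function.update φ m z`. Codes:
  `cd_ext`; the label of `z, φ b` is `≤ 7` by `fin`, `≥ 2` (`lab_rng`), and `≥ 3` for `b = u`. All the
  other fields only concern the old nodes (`A`, `B`, `rm`, `cm`, `sat`, `V` have only nodes `< m`), for
  which `φ' = φ`; in particular `img φ' (bt A) = img φ (bt A)`.
* `sem_st`: if `z ∈ W` is a new facet adjacent to `φ u`, then `npdz_sound` contradicts `ver` for `x, y`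
  (`z ≠ φ x, φ y` because `x, y < m`). -/

namespace MP86a502

section
variable {ι : Type} [Fintype ι] [DecidableEq ι] {n : ℕ} {g : ι → ι → ℝ} {q : Bool} {W : Finset ι}
  {A B rm cm m c sat V : ℕ} {φ : ℕ → ι}

private theorem Sex_code (σ : Sem q n g W A B rm cm m c sat V φ) {c' : ℕ}
    (cod : ∀ a < m, ∀ b < m, a ≠ b → ok (cd c' a b) (lab g (φ a) (φ b)))
    (sym : ∀ a < 16, ∀ b < 16, cd c' a b = cd c' b a)
    (out : ∀ a < 16, ∀ b < 16, (a = b ∨ m ≤ a ∨ m ≤ b) → cd c' a b = 2) :
    Sem q n g W A B rm cm m c' sat V φ where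
  cardQ := σ.cardQ
  cardT := σ.cardT
  m16 := σ.m16
  mem := σ.mem
  inj := σ.inj
  cod := cod
  sym := sym
  out := out
  st := σ.st
  ver := σ.ver
  aA := σ.aA
  aB := σ.aB
  dis := σ.dis
  npA := σ.npA
  npB := σ.npB
  nB := σ.nB
  minA := σ.minA
  minB := σ.minB
  rmm := σ.rmm
  cmm := σ.cmm
  rmz := σ.rmz
  cmz := σ.cmz
  rm2 := σ.rm2
  rm3 := σ.rm3
  cm2 := σ.cm2
  hit := σ.hit
  star := σ.star
  fin := σ.fin

private theorem Sex_sat (σ : Sem q n g W A B rm cm m c sat V φ) {sat' : ℕ}
    (st : ∀ a, bt sat' a = true → a < m ∧ ∀ z ∈ W, adj g (φ a) z → ∃ b < m, φ b = z) :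
    Sem q n g W A B rm cm m c sat' V φ where
  cardQ := σ.cardQ
  cardT := σ.cardT
  m16 := σ.m16
  mem := σ.mem
  inj := σ.inj
  cod := σ.cod
  sym := σ.sym
  out := σ.out
  st := st
  ver := σ.ver
  aA := σ.aA
  aB := σ.aB
  dis := σ.dis
  npA := σ.npA
  npB := σ.npB
  nB := σ.nB
  minA := σ.minA
  minB := σ.minB
  rmm := σ.rmm
  cmm := σ.cmm
  rmz := σ.rmz
  cmz := σ.cmz
  rm2 := σ.rm2
  rm3 := σ.rm3
  cm2 := σ.cm2
  hit := σ.hit
  star := σ.star
  fin := σ.fin

/-- a node whose neighbours are all known -/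
private theorem Sex_add (σ : Sem q n g W A B rm cm m c sat V φ) {u : ℕ} (hu : u < m)
    (hk : ∀ z ∈ W, adj g (φ u) z → ∃ b < m, φ b = z) :
    Sem q n g W A B rm cm m c (Nat.lor sat (bit u)) V φ := by
  refine Sex_sat σ fun a ha => ?_
  rw [bt_lor, Bool.or_eq_true, bt_bit] at ha
  rcases ha with ha | ha
  · exact σ.st a ha
  · rw [ha]
    exact ⟨hu, hk⟩

private theorem Sex_vlt (σ : Sem q n g W A B rm cm m c sat V φ) {x y : ℕ}
    (hv : vt V x y = true) : x < m ∧ y < m := by
  obtain ⟨_, h1, h2, h3⟩ := σ.ver x y hv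
  have hx := σ.aA x h1
  refine ⟨hx, ?_⟩
  rcases hq : q with _ | _
  · rw [← h3 hq]
    exact hx
  · exact σ.aB y (h2 hq)

private theorem Sex_up (h : Diag g) (σ : Sem q n g W A B rm cm m c sat V φ) {a b v : ℕ}
    (hb : b < a) (ha : a < m) (hv : v < 16)
    (hok : ok (cd c a b ^^^ v) (lab g (φ a) (φ b))) :
    Sem q n g W A B rm cm m (up c a b v) sat V φ := by
  have hm := σ.m16
  have hab : a ≠ b := by omega
  have ha16 : a < 16 := by omega
  have hb16 : b < 16 := by omega
  refine Sex_code σ ?_ ?_ ?_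
  · intro x hx y hy hxy
    rw [cd_up hab ha16 hb16 (by omega) (by omega) hv]
    split_ifs with hc
    · rcases hc with ⟨rfl, rfl⟩ | ⟨rfl, rfl⟩
      · exact hok
      · rw [σ.sym _ (by omega) _ (by omega), lab_comm h]
        exact hok
    · exact σ.cod x hx y hy hxy
  · intro x hx y hy
    rw [cd_up hab ha16 hb16 hx hy hv, cd_up hab ha16 hb16 hy hx hv, σ.sym x hx y hy]
    by_cases hc : (x = a ∧ y = b) ∨ (x = b ∧ y = a)
    · rw [if_pos hc, if_pos (by tauto)]
    · rw [if_neg hc, if_neg (by tauto)]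
  · intro x hx y hy hxy
    rw [cd_up hab ha16 hb16 hx hy hv, if_neg (by omega)]
    exact σ.out x hx y hy hxy

private theorem Sex_img {φ φ' : ℕ → ι} {p : ℕ → Bool} (h : ∀ a, p a = true → φ' a = φ a) :
    img φ' p = img φ p := by
  ext z
  rw [mem_img, mem_img]
  constructor
  · rintro ⟨a, ha, hp, hz⟩
    exact ⟨a, ha, hp, by rw [← h a hp]; exact hz⟩
  · rintro ⟨a, ha, hp, hz⟩
    exact ⟨a, ha, hp, by rw [h a hp]; exact hz⟩

theorem sem_split (h : Diag g) (σ : Sem q n g W A B rm cm m c sat V φ) {a b : ℕ} (hb : b < a)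
    (ha : a < m) (hc : cd c a b = 10) : Sem q n g W A B rm cm m (up c a b 8) sat V φ ∨
      Sem q n g W A B rm cm m (up c a b 1) sat V φ := by
  have ha16 : a < 16 := lt_of_lt_of_le ha σ.m16
  have h1 := σ.cod a ha b (by omega) (by omega)
  rw [hc] at h1
  have h2 : 2 ≤ lab g (φ a) (φ b) ∧ lab g (φ a) (φ b) ≤ 7 := by
    unfold ok at h1
    omega
  rcases Nat.eq_or_lt_of_le h2.1 with h3 | h3
  · left
    refine Sex_up h σ hb ha (by norm_num) ?_
    rw [hc, ← h3]
    exact Or.inl ⟨by decide, by decide⟩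
  · right
    refine Sex_up h σ hb ha (by norm_num) ?_
    rw [hc]
    have e : (10 : ℕ) ^^^ 1 = 11 := by decide
    rw [e]
    exact Or.inr ⟨by norm_num, by omega, h2.2⟩

theorem sem_split' (h : Diag g) (σ : Sem q n g W A B rm cm m c sat V φ) {a b : ℕ} (hb : b < a)
    (ha : a < m) (h1 : 11 ≤ cd c a b) (h2 : cd c a b ≤ 14) :
    Sem q n g W A B rm cm m (up c a b 8) sat V φ ∨
      Sem q n g W A B rm cm m (up c a b (Nat.xor (cd c a b) (cd c a b + 1))) sat V φ := by
  have h0 := σ.cod a ha b (by omega) (by omega)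
  have hx : ∀ k, 11 ≤ k → k ≤ 14 → k ^^^ 8 = k - 8 ∧ k ^^^ (Nat.xor k (k + 1)) = k + 1 ∧
      Nat.xor k (k + 1) < 16 := by
    intro k hk1 hk2
    interval_cases k <;> decide
  obtain ⟨e1, e2, e3⟩ := hx _ h1 h2
  have h3 : cd c a b ≤ lab g (φ a) (φ b) + 8 ∧ lab g (φ a) (φ b) ≤ 7 := by
    unfold ok at h0
    omega
  by_cases h4 : lab g (φ a) (φ b) = cd c a b - 8
  · left
    refine Sex_up h σ hb ha (by norm_num) ?_
    rw [e1]
    exact Or.inl ⟨by omega, h4⟩
  · right
    refine Sex_up h σ hb ha e3 ?_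
    rw [e2]
    exact Or.inr ⟨by omega, by omega, h3.2⟩

theorem sem_ex (h : Diag g) (σ : Sem q n g W A B rm cm m c sat V φ) {u : ℕ} (hu : u < m)
    (hm : m ≤ 15) : Sem q n g W A B rm cm m c (Nat.lor sat (bit u)) V φ ∨
      ∃ φ', Sem q n g W A B rm cm (m + 1) (ext m c u) sat V φ' := by
  by_cases hk : ∀ z ∈ W, adj g (φ u) z → ∃ b < m, φ b = z
  · exact Or.inl (Sex_add σ hu hk)
  right
  push Not at hk
  obtain ⟨z, hz, haz, hnew⟩ := hk
  have hold : ∀ a, a < m → Function.update φ m z a = φ a := by
    intro a ha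
    rw [Function.update_of_ne (by omega)]
  have hnm : Function.update φ m z m = z := Function.update_self m z φ
  have hcase : ∀ a, a < m + 1 → a < m ∨ a = m := fun a ha => by omega
  have hlz : ∀ a, a < m → 2 ≤ lab g z (φ a) ∧ lab g z (φ a) ≤ 7 := by
    intro a ha
    have hne : φ a ≠ z := hnew a ha
    exact ⟨(lab_rng h (Ne.symm hne)).1, σ.fin z hz (fun b hb => hnew b hb) _ (σ.mem a ha) hne⟩
  have hlu : 3 ≤ lab g z (φ u) := by
    have h1 := (lab_adj h).1 haz
    have h2 := (hlz u hu).1
    have h3 : lab g z (φ u) ≠ 2 := by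
      rw [lab_comm h]
      exact h1.2
    omega
  have hcz : ∀ b, b < m → ok (cd (ext m c u) m b) (lab g z (φ b)) := by
    intro b hb
    rw [cd_ext hm hu (by omega) (by omega) σ.out, if_pos (Or.inl ⟨rfl, hb⟩)]
    by_cases hbu : b = u
    · rw [if_pos (Or.inr hbu), hbu]
      exact Or.inr ⟨by norm_num, by omega, (hlz u hu).2⟩
    · rw [if_neg (by omega)]
      exact Or.inr ⟨by norm_num, by have := (hlz b hb).1; omega, (hlz b hb).2⟩
  have hsym : ∀ a < 16, ∀ b < 16, cd (ext m c u) a b = cd (ext m c u) b a := by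
    intro a ha b hb
    rw [cd_ext hm hu ha hb σ.out, cd_ext hm hu hb ha σ.out, σ.sym a ha b hb]
    by_cases hc : (a = m ∧ b < m) ∨ (b = m ∧ a < m)
    · rw [if_pos hc, if_pos hc.symm]
      by_cases hc2 : a = u ∨ b = u
      · rw [if_pos hc2, if_pos hc2.symm]
      · rw [if_neg hc2, if_neg (fun k => hc2 k.symm)]
    · rw [if_neg hc, if_neg (fun k => hc k.symm)]
  refine ⟨Function.update φ m z, ?_⟩
  exact
    { cardQ := σ.cardQ
      cardT := σ.cardT
      m16 := by omega
      mem := by
        intro a ha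
        rcases hcase a ha with h1 | rfl
        · rw [hold a h1]
          exact σ.mem a h1
        · rw [hnm]
          exact hz
      inj := by
        intro a ha b hb hab
        rcases hcase a ha with h1 | rfl
        · rcases hcase b hb with h2 | rfl
          · rw [hold a h1, hold b h2] at hab
            exact σ.inj a h1 b h2 hab
          · rw [hold a h1, hnm] at hab
            exact absurd hab (hnew a h1)
        · rcases hcase b hb with h2 | rfl
          · rw [hold b h2, hnm] at hab
            exact absurd hab.symm (hnew b h2)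
          · rfl
      cod := by
        intro a ha b hb hab
        rcases hcase a ha with h1 | rfl
        · rcases hcase b hb with h2 | rfl
          · rw [hold a h1, hold b h2, cd_ext hm hu (by omega) (by omega) σ.out,
              if_neg (by omega)]
            exact σ.cod a h1 b h2 hab
          · rw [hold a h1, hnm, hsym a (by omega) _ (by omega), lab_comm h]
            exact hcz a h1
        · rcases hcase b hb with h2 | h2
          · rw [hold b h2, hnm]
            exact hcz b h2
          · exact absurd h2.symm hab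
      sym := hsym
      out := by
        intro a ha b hb hab
        rw [cd_ext hm hu ha hb σ.out, if_neg (by omega)]
        exact σ.out a ha b hb (by omega)
      st := by
        intro a ha
        obtain ⟨h1, h2⟩ := σ.st a ha
        refine ⟨by omega, fun w hw haw => ?_⟩
        rw [hold a h1] at haw
        obtain ⟨b, hb, hbw⟩ := h2 w hw haw
        exact ⟨b, by omega, by rw [hold b hb]; exact hbw⟩
      ver := by
        intro x y hv
        obtain ⟨hx, hy⟩ := Sex_vlt σ hv
        rw [hold x hx, hold y hy]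
        exact σ.ver x y hv
      aA := fun a ha => by have := σ.aA a ha; omega
      aB := fun a ha => by have := σ.aB a ha; omega
      dis := σ.dis
      npA := by
        rw [Sex_img (fun a ha => hold a (σ.aA a ha))]
        exact σ.npA
      npB := by
        rw [Sex_img (fun a ha => hold a (σ.aB a ha))]
        exact σ.npB
      nB := σ.nB
      minA := by
        rw [Sex_img (fun a ha => hold a (σ.aA a ha))]
        exact σ.minA
      minB := by
        rw [Sex_img (fun a ha => hold a (σ.aB a ha))]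
        exact σ.minB
      rmm := fun a ha => by have := σ.rmm a ha; omega
      cmm := fun a ha => by have := σ.cmm a ha; omega
      rmz := σ.rmz
      cmz := σ.cmz
      rm2 := σ.rm2
      rm3 := σ.rm3
      cm2 := σ.cm2
      hit := by
        intro Z hZ hp
        rcases σ.hit Z hZ hp with h1 | ⟨h1, h2⟩
        · left
          intro a ha
          rw [hold a (σ.rmm a ha)]
          exact h1 a ha
        · right
          refine ⟨h1, fun a ha => ?_⟩
          rw [hold a (σ.cmm a ha)]
          exact h2 a ha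
      star := by
        intro hq a b ha hb
        rw [hold a (σ.rmm a ha), hold b (σ.cmm b hb)]
        obtain ⟨h1, h2⟩ := σ.star hq a b ha hb
        refine ⟨h1, fun w hw h3 h4 => ?_⟩
        obtain ⟨d, hd, hdw⟩ := h2 w hw h3 h4
        refine ⟨d, hd, ?_⟩
        rw [hold d (hd.elim (σ.rmm d) (σ.cmm d))]
        exact hdw
      fin := by
        intro w hw hnw
        refine σ.fin w hw fun a ha => ?_
        have := hnw a (by omega)
        rwa [hold a ha] at this }

theorem sem_st (H : CoxH n g) (σ : Sem q n g W A B rm cm m c sat V φ) {u x y s v r w : ℕ}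
    (hu : u < m) (hv : vt V x y = true) (hvx : nz v x = false)
    (hvy : nz v y = false) (hn : npdz m c s v u r w = true) :
    Sem q n g W A B rm cm m c (Nat.lor sat (bit u)) V φ := by
  obtain ⟨hx, hy⟩ := Sex_vlt σ hv
  refine Sex_add σ hu fun z hz haz => ?_
  by_contra hcon
  push Not at hcon
  refine npdz_sound H.toCox.toDiag σ.m16 σ.cod σ.inj hcon hu haz hn ?_
  refine pd_subset (σ.ver x y hv).1 ?_
  have hsu : su m v = true := by
    unfold npdz at hn
    rw [bcB_and] at hn
    exact hn.1
  intro i hi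
  rw [Finset.mem_erase, Finset.mem_erase]
  rcases Finset.mem_insert.1 hi with rfl | hi
  · exact ⟨Ne.symm (hcon y hy), Ne.symm (hcon x hx), hz⟩
  · obtain ⟨a, _, hna, rfl⟩ := mem_img.1 hi
    have ham : a < m := by
      by_contra hc
      have h1 := dg_su hsu (Nat.le_of_not_lt hc)
      have h2 := nz_iff.1 hna
      omega
    refine ⟨fun he => ?_, fun he => ?_, σ.mem a ham⟩
    · rw [σ.inj a ham y hy he, hvy] at hna
      exact absurd hna (by simp)
    · rw [σ.inj a ham x hx he, hvx] at hna
      exact absurd hna (by simp)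

end

end MP86a502
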