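import Pool.Agent.Lib.MP_86a502_gt.U.Eva
import Pool.Agent.Lib.MP_86a502_gt.U.Evb
import Pool.Agent.Lib.MP_86a502_gt.U.Evc

set_option autoImplicit false
set_option linter.unusedSectionVars false

/-! # JOB Slq. The leaf of the certificate trees, quadrangles (150-220 lines)

Let `X = img φ (bt A)`, `Y = img φ (bt B)`, disjoint and not positive definite (`npA`, `npB`, `dis`).
(1) For `x ∈ A`, `y ∈ B`: `vt V x y = true ↔ PD g ((W.erase (φ x)).erase (φ y))`: one direction is `ver`; if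
`vt V x y = false`, then some certificate of the list `nl` avoids `x`, `y` (`nlAv`), so its support
(`npd_sound`) is a subset of `(W.erase (φ x)).erase (φ y)`.
(2) The map `r ↦ co4 W (φ r.1) (φ r.2.1) (φ r.2.2.1) (φ r.2.2.2)` is a bijection from `RC A V` to `QF n g W`:
`quad_mem`, `quad_sides` (order the two rows and the two columns), injective because `W \ T` determines
the four facets, so the two nodes in `A` and the two in `B`.
(3) `fsum` of the image is at least `2 * rectW m (adjM c) l x x' y y'`: `cw_le` with `S = co2 m x' y'`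
(`bt_co2`) and `T = (W.erase (φ x')).erase (φ y')`, and `wt_comm`.
(4) `rectS A V 2 ≤ e + rectS A V (rectW ..)` and `rectS_eq` give
`4 * |QF| = 2 * ∑ 2 ≤ 2 e + ∑ 2 rectW ≤ 2 e + ∑ fsum`. -/

namespace MP86a502

section
variable {ι : Type} [Fintype ι] [DecidableEq ι] {n : ℕ} {g : ι → ι → ℝ} {W : Finset ι}
  {A B m c sat V : ℕ} {φ : ℕ → ι}

theorem Slq_mem4 {W : Finset ι} {x x' y y' z : ι} :
    z ∈ co4 W x x' y y' ↔ z ≠ y' ∧ z ≠ y ∧ z ≠ x' ∧ z ≠ x ∧ z ∈ W := by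
  unfold co4
  rw [Finset.mem_erase, Finset.mem_erase, Finset.mem_erase, Finset.mem_erase]

theorem Slq_swap1 (W : Finset ι) (x x' y y' : ι) : co4 W x x' y y' = co4 W x' x y y' := by
  unfold co4
  rw [Finset.erase_right_comm (a := x) (b := x')]

theorem Slq_swap2 (W : Finset ι) (x x' y y' : ι) : co4 W x x' y y' = co4 W x x' y' y := by
  unfold co4
  rw [Finset.erase_right_comm (a := y) (b := y')]

theorem Slq_mem_img {φ : ℕ → ι} {p : ℕ → Bool} {z : ι} (h : z ∈ img φ p) :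
    ∃ a, a < 16 ∧ p a = true ∧ φ a = z := by
  simp only [img, Finset.mem_image, Finset.mem_filter, Finset.mem_range] at h
  obtain ⟨a, ha, rfl⟩ := h
  exact ⟨a, ha.1, ha.2, rfl⟩

theorem Slq_nlAv {m c x y : ℕ} (nl : NL) (h1 : nlC m c nl = true) (h2 : nlAv nl x y = true) :
    ∃ s u, npd m c s u = true ∧ nz u x = false ∧ nz u y = false := by
  induction nl with
  | nil => exact absurd h2 (by
      change ¬ (false = true)
      exact Bool.false_ne_true)
  | cons s u l ih =>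
    change bcB (npd m c s u) (nlC m c l) false = true at h1
    change bcB (nz u x) (nlAv l x y) (bcB (nz u y) (nlAv l x y) true) = true at h2
    obtain ⟨h3, h4⟩ := bcB_and.1 h1
    rcases bcB_iff.1 h2 with ⟨_, h5⟩ | ⟨h5, h6⟩
    · exact ih h4 h5
    · rcases bcB_iff.1 h6 with ⟨_, h7⟩ | ⟨h7, _⟩
      · exact ih h4 h7
      · exact ⟨s, u, h3, h5, h7⟩

/-- step (1) -/
theorem Slq_vt (H : CoxH n g) (σ : Sem0 true n g W A B m c sat V φ) {nl : NL}
    (hnl : nlC m c nl = true)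
    (hall : ∀ x < 16, bt A x = true → ∀ y < 16, bt B y = true →
      vt V x y = true ∨ nlAv nl x y = true) {x y : ℕ} (hx : bt A x = true) (hy : bt B y = true)
    (hp : PD g ((W.erase (φ x)).erase (φ y))) : vt V x y = true := by
  have hx16 : x < 16 := lt_of_lt_of_le (σ.aA x hx) σ.m16
  have hy16 : y < 16 := lt_of_lt_of_le (σ.aB y hy) σ.m16
  rcases hall x hx16 hx y hy16 hy with h | h
  · exact h
  · exfalso
    obtain ⟨s, u, hn, hux, huy⟩ := Slq_nlAv nl hnl h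
    have σ' : Sem0 true n g W A B m c sat (Nat.lor V (Nat.shiftLeft (nat_lit 1) (pos x y))) φ :=
      { cardQ := σ.cardQ, cardT := σ.cardT, m16 := σ.m16, mem := σ.mem, inj := σ.inj,
        cod := σ.cod, sym := σ.sym, out := σ.out, st := σ.st,
        ver := by
          intro a b hab
          rcases (vt_set hy16).1 hab with h1 | ⟨rfl, rfl⟩
          · exact σ.ver a b h1
          · exact ⟨hp, hx, fun _ => hy, fun h => absurd h (by decide)⟩
        aA := σ.aA, aB := σ.aB, dis := σ.dis, npA := σ.npA, npB := σ.npB, nB := σ.nB }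
    exact non_false H σ' ((vt_set hy16).2 (Or.inr ⟨rfl, rfl⟩)) hux huy hn

theorem Slq_mem_RC {r : ℕ × ℕ × ℕ × ℕ} : r ∈ RC A V ↔
    (r.1 < 16 ∧ r.2.1 < 16 ∧ r.2.2.1 < 16 ∧ r.2.2.2 < 16) ∧
    r.2.1 < r.1 ∧ r.2.2.2 < r.2.2.1 ∧ bt A r.1 = true ∧ bt A r.2.1 = true ∧
      vt V r.1 r.2.2.1 = true ∧ vt V r.1 r.2.2.2 = true ∧ vt V r.2.1 r.2.2.1 = true ∧
      vt V r.2.1 r.2.2.2 = true := by
  unfold RC
  rw [Finset.mem_filter, Finset.mem_product, Finset.mem_product, Finset.mem_product,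
    Finset.mem_range, Finset.mem_range, Finset.mem_range, Finset.mem_range]

/-- the face of a rectangle -/
def Slq_T (W : Finset ι) (φ : ℕ → ι) (r : ℕ × ℕ × ℕ × ℕ) : Finset ι :=
  co4 W (φ r.1) (φ r.2.1) (φ r.2.2.1) (φ r.2.2.2)

theorem Slq_inj (σ : Sem0 true n g W A B m c sat V φ) {r r' : ℕ × ℕ × ℕ × ℕ} (hr : r ∈ RC A V)
    (hr' : r' ∈ RC A V) (he : Slq_T W φ r = Slq_T W φ r') : r = r' := by
  obtain ⟨x, x', y, y'⟩ := r
  obtain ⟨z, z', w, w'⟩ := r'
  obtain ⟨_, h1, h2, h3, h4, h5, h6, h7, h8⟩ := Slq_mem_RC.1 hr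
  obtain ⟨_, k1, k2, k3, k4, k5, k6, k7, k8⟩ := Slq_mem_RC.1 hr'
  simp only at h1 h2 h3 h4 h5 h6 h7 h8 k1 k2 k3 k4 k5 k6 k7 k8
  have bB : ∀ {a b : ℕ}, vt V a b = true → bt B b = true := fun h => (σ.ver _ _ h).2.2.1 rfl
  have key : ∀ a, a < m → φ a ∉ Slq_T W φ (z, z', w, w') → a = z ∨ a = z' ∨ a = w ∨ a = w' := by
    intro a ha hn
    by_contra hcon
    push Not at hcon
    obtain ⟨c1, c2, c3, c4⟩ := hcon
    apply hn
    refine Slq_mem4.2 ⟨?_, ?_, ?_, ?_, σ.mem a ha⟩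
    · exact fun h => c4 (σ.inj a ha w' (σ.aB w' (bB k6)) h)
    · exact fun h => c3 (σ.inj a ha w (σ.aB w (bB k5)) h)
    · exact fun h => c2 (σ.inj a ha z' (σ.aA z' k4) h)
    · exact fun h => c1 (σ.inj a ha z (σ.aA z k3) h)
  have nA : ∀ a, bt A a = true → a ≠ w ∧ a ≠ w' := by
    intro a ha
    constructor
    · rintro rfl
      exact σ.dis a ha (bB k5)
    · rintro rfl
      exact σ.dis a ha (bB k6)
  have nB : ∀ a, bt B a = true → a ≠ z ∧ a ≠ z' := by
    intro a ha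
    constructor
    · rintro rfl
      exact σ.dis a k3 ha
    · rintro rfl
      exact σ.dis a k4 ha
  have e1 : φ x ∉ Slq_T W φ (z, z', w, w') := by
    rw [← he]
    exact fun h => (Slq_mem4.1 h).2.2.2.1 rfl
  have e2 : φ x' ∉ Slq_T W φ (z, z', w, w') := by
    rw [← he]
    exact fun h => (Slq_mem4.1 h).2.2.1 rfl
  have e3 : φ y ∉ Slq_T W φ (z, z', w, w') := by
    rw [← he]
    exact fun h => (Slq_mem4.1 h).2.1 rfl
  have e4 : φ y' ∉ Slq_T W φ (z, z', w, w') := by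
    rw [← he]
    exact fun h => (Slq_mem4.1 h).1 rfl
  have f1 := key x (σ.aA x h3) e1
  have f2 := key x' (σ.aA x' h4) e2
  have f3 := key y (σ.aB y (bB h5)) e3
  have f4 := key y' (σ.aB y' (bB h6)) e4
  have n1 := nA x h3
  have n2 := nA x' h4
  have n3 := nB y (bB h5)
  have n4 := nB y' (bB h6)
  have g1 : x = z := by omega
  have g2 : x' = z' := by omega
  have g3 : y = w := by omega
  have g4 : y' = w' := by omega
  rw [g1, g2, g3, g4]

theorem Slq_surj (H : CoxH n g) (σ : Sem0 true n g W A B m c sat V φ)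
    (hvt : ∀ x y, bt A x = true → bt B y = true → PD g ((W.erase (φ x)).erase (φ y)) →
      vt V x y = true) {T : Finset ι} (hT : T ∈ QF n g W) : ∃ r ∈ RC A V, Slq_T W φ r = T := by
  have hX : img φ (bt A) ⊆ W := img_sub_W σ σ.aA
  have hY : img φ (bt B) ⊆ W := img_sub_W σ σ.aB
  have hd : Disjoint (img φ (bt A)) (img φ (bt B)) := by
    rw [Finset.disjoint_left]
    intro z h1 h2
    obtain ⟨a, _, ha, rfl⟩ := Slq_mem_img h1
    obtain ⟨b, _, hb, hab⟩ := Slq_mem_img h2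
    have := σ.inj b (σ.aB b hb) a (σ.aA a ha) hab
    subst this
    exact σ.dis b ha hb
  obtain ⟨x, hx, x', hx', y, hy, y', hy', hxx, hyy, hTe, p1, p2, p3, p4⟩ :=
    quad_sides H.toCox (σ.cardQ rfl) hX hY hd σ.npA (σ.npB rfl) hT
  obtain ⟨a, a16, ha, rfl⟩ := Slq_mem_img hx
  obtain ⟨a', a16', ha', rfl⟩ := Slq_mem_img hx'
  obtain ⟨b, b16, hb, rfl⟩ := Slq_mem_img hy
  obtain ⟨b', b16', hb', rfl⟩ := Slq_mem_img hy'
  have v1 := hvt a b ha hb p1
  have v2 := hvt a b' ha hb' p2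
  have v3 := hvt a' b ha' hb p3
  have v4 := hvt a' b' ha' hb' p4
  have haa : a ≠ a' := fun h => hxx (by rw [h])
  have hbb : b ≠ b' := fun h => hyy (by rw [h])
  rcases lt_or_gt_of_ne haa with h1 | h1
  · rcases lt_or_gt_of_ne hbb with h2 | h2
    · refine ⟨(a', a, b', b), Slq_mem_RC.2 ⟨⟨a16', a16, b16', b16⟩, h1, h2, ha', ha, v4, v3, v2, v1⟩, ?_⟩
      rw [hTe, Slq_swap1, Slq_swap2]
      rfl
    · refine ⟨(a', a, b, b'), Slq_mem_RC.2 ⟨⟨a16', a16, b16, b16'⟩, h1, h2, ha', ha, v3, v4, v1, v2⟩, ?_⟩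
      rw [hTe, Slq_swap1]
      rfl
  · rcases lt_or_gt_of_ne hbb with h2 | h2
    · refine ⟨(a, a', b', b), Slq_mem_RC.2 ⟨⟨a16, a16', b16', b16⟩, h1, h2, ha, ha', v2, v1, v4, v3⟩, ?_⟩
      rw [hTe, Slq_swap2]
      rfl
    · refine ⟨(a, a', b, b'), Slq_mem_RC.2 ⟨⟨a16, a16', b16, b16'⟩, h1, h2, ha, ha', v1, v2, v3, v4⟩, ?_⟩
      rw [hTe]
      rfl

/-- step (3) -/
theorem Slq_cw (H : CoxH n g) (σ : Sem0 true n g W A B m c sat V φ) (hno : noP c = true) {l : FL}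
    (hfl : flC c sat (adjM c) l = true) {x x' y y' : ℕ} (hx : x < m) (hx' : x' < m) (hy : y < m)
    (hy' : y' < m) (hxy : x ≠ y) :
    cw (adjM c) (co2 m x' y') x y l ≤ wt g ((W.erase (φ x')).erase (φ y')) (φ x) (φ y) := by
  refine cw_le H.toDiag σ hno l hfl ((Finset.erase_subset _ _).trans (Finset.erase_subset _ _))
    ?_ ?_ hx hy hxy
  · intro a ha
    rw [bt_co2 σ.m16 hx' hy', Finset.mem_erase, Finset.mem_erase]
    constructor
    · rintro ⟨_, h1, h2⟩
      exact ⟨fun h => h2 (σ.inj a ha y' hy' h), fun h => h1 (σ.inj a ha x' hx' h), σ.mem a ha⟩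
    · rintro ⟨h1, h2, _⟩
      exact ⟨ha, fun h => h2 (by rw [h]), fun h => h1 (by rw [h])⟩
  · intro a ha
    exact ((bt_co2 σ.m16 hx' hy').1 ha).1

theorem Slq_mem (H : CoxH n g) (σ : Sem0 true n g W A B m c sat V φ) (hno : noP c = true) {l : FL}
    (hfl : flC c sat (adjM c) l = true) {r : ℕ × ℕ × ℕ × ℕ} (hr : r ∈ RC A V) :
    Slq_T W φ r ∈ QF n g W ∧
      2 * rectW m (adjM c) l r.1 r.2.1 r.2.2.1 r.2.2.2 ≤ fsum n g (Slq_T W φ r) := by
  obtain ⟨x, x', y, y'⟩ := r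
  obtain ⟨_, h1, h2, h3, h4, h5, h6, h7, h8⟩ := Slq_mem_RC.1 hr
  simp only at h1 h2 h3 h4 h5 h6 h7 h8
  have bB : ∀ {a b : ℕ}, vt V a b = true → bt B b = true := fun h => (σ.ver _ _ h).2.2.1 rfl
  have mx := σ.aA x h3
  have mx' := σ.aA x' h4
  have my := σ.aB y (bB h5)
  have my' := σ.aB y' (bB h6)
  have nAB : ∀ {a b : ℕ}, bt A a = true → bt B b = true → a ≠ b := by
    intro a b ha hb hab
    subst hab
    exact σ.dis a ha hb
  have xy : x ≠ y := nAB h3 (bB h5)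
  have xy' : x ≠ y' := nAB h3 (bB h6)
  have x'y : x' ≠ y := nAB h4 (bB h5)
  have x'y' : x' ≠ y' := nAB h4 (bB h6)
  have nd : [φ x, φ x', φ y, φ y'].Nodup := by
    have f : ∀ {a b : ℕ}, a < m → b < m → a ≠ b → φ a ≠ φ b := fun ha hb hab h => hab (σ.inj _ ha _ hb h)
    rw [List.nodup_cons, List.nodup_cons, List.nodup_cons]
    refine ⟨?_, ?_, ?_, List.nodup_singleton _⟩
    · rw [List.mem_cons, List.mem_cons, List.mem_singleton]
      rintro (h | h | h)
      · exact f mx mx' h1.ne' h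
      · exact f mx my xy h
      · exact f mx my' xy' h
    · rw [List.mem_cons, List.mem_singleton]
      rintro (h | h)
      · exact f mx' my x'y h
      · exact f mx' my' x'y' h
    · rw [List.mem_singleton]
      exact f my my' h2.ne'
  obtain ⟨q1, q2⟩ := quad_mem H.toCox (σ.cardQ rfl) (σ.mem x mx) (σ.mem x' mx') (σ.mem y my)
    (σ.mem y' my') nd (σ.ver _ _ h5).1 (σ.ver _ _ h6).1 (σ.ver _ _ h7).1 (σ.ver _ _ h8).1
  refine ⟨q1, ?_⟩
  change _ ≤ fsum n g (co4 W (φ x) (φ x') (φ y) (φ y'))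
  rw [q2, wt_comm H.toDiag _ (φ y) (φ x), wt_comm H.toDiag _ (φ y') (φ x),
    wt_comm H.toDiag _ (φ y) (φ x'), wt_comm H.toDiag _ (φ y') (φ x')]
  have c1 := Slq_cw H σ hno hfl mx mx' my my' xy
  have c2 := Slq_cw H σ hno hfl mx mx' my' my xy'
  have c3 := Slq_cw H σ hno hfl mx' mx my my' x'y
  have c4 := Slq_cw H σ hno hfl mx' mx my' my x'y'
  have hR : rectW m (adjM c) l x x' y y' =
      (cw (adjM c) (co2 m x' y') x y l + cw (adjM c) (co2 m x' y) x y' l) +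
      (cw (adjM c) (co2 m x y') x' y l + cw (adjM c) (co2 m x y) x' y' l) := rfl
  change 2 * rectW m (adjM c) l x x' y y' ≤ _
  rw [hR]
  omega

theorem leafQ_sound (H : CoxH n g) (σ : Sem0 true n g W A B m c sat V φ) {e : ℕ} {nl : NL} {l : FL}
    (hl : leafQ e A B m c (adjM c) sat V nl l = true) : defQ (2 * e) n g W := by
  unfold leafQ at hl
  obtain ⟨hno, hl⟩ := bcB_and.1 hl
  obtain ⟨hnl, hl⟩ := bcB_and.1 hl
  obtain ⟨hfl, hl⟩ := bcB_and.1 hl
  obtain ⟨hall, hsum⟩ := bcB_and.1 hl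
  have hall' : ∀ x < 16, bt A x = true → ∀ y < 16, bt B y = true →
      vt V x y = true ∨ nlAv nl x y = true := by
    intro x hx hxA y hy hyB
    have h1 := bcB_imp.1 (all16_iff.1 hall x hx) hxA
    have h2 := bcB_imp.1 (all16_iff.1 h1 y hy) hyB
    exact bcB_or.1 h2
  have hvt : ∀ x y, bt A x = true → bt B y = true → PD g ((W.erase (φ x)).erase (φ y)) →
      vt V x y = true := fun x y hx hy hp => Slq_vt H σ hnl hall' hx hy hp
  have hle : rectS A V (fun _ _ _ _ => 2) ≤ e + rectS A V (rectW m (adjM c) l) :=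
    Nat.le_of_ble_eq_true hsum
  rw [rectS_eq, rectS_eq, Finset.sum_const, smul_eq_mul] at hle
  have hcard : (QF n g W).card ≤ (RC A V).card := by
    have hsub : QF n g W ⊆ (RC A V).image (Slq_T W φ) := by
      intro T hT
      obtain ⟨r, hr, he⟩ := Slq_surj H σ hvt hT
      exact Finset.mem_image.2 ⟨r, hr, he⟩
    exact (Finset.card_le_card hsub).trans Finset.card_image_le
  have hsub2 : (RC A V).image (Slq_T W φ) ⊆ QF n g W := by
    intro T hT
    obtain ⟨r, hr, rfl⟩ := Finset.mem_image.1 hT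
    exact (Slq_mem H σ hno hfl hr).1
  have hs1 : ∑ r ∈ RC A V, 2 * rectW m (adjM c) l r.1 r.2.1 r.2.2.1 r.2.2.2 ≤
      ∑ r ∈ RC A V, fsum n g (Slq_T W φ r) :=
    Finset.sum_le_sum fun r hr => (Slq_mem H σ hno hfl hr).2
  have hs2 : ∑ r ∈ RC A V, fsum n g (Slq_T W φ r) = ∑ T ∈ (RC A V).image (Slq_T W φ), fsum n g T := by
    rw [Finset.sum_image]
    intro r hr r' hr' he
    exact Slq_inj σ hr hr' he
  have hs3 : ∑ T ∈ (RC A V).image (Slq_T W φ), fsum n g T ≤ ∑ T ∈ QF n g W, fsum n g T :=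
    Finset.sum_le_sum_of_subset hsub2
  rw [← Finset.mul_sum] at hs1
  unfold defQ
  omega

end

end MP86a502
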