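import Pool.Agent.Lib.MP_86a502_gt.U.Chs
import Pool.Agent.Lib.MP_86a502_gt.U.DatS

set_option autoImplicit false
set_option linter.unusedSectionVars false

/-! # JOB Smb. Small diagrams: first facts (80-120 lines)

* `lp_card`, `eq_card`: `X` is the image of `Finset.range` under an injective map.
* `lp_npd`: `l_npd`, `npd_sound` with the matrix `lC t` (`lC_spec`; `m = lN t ≤ 5`); its support is a
  subset of `X` (`dg_su`).
* `eq_pd`: `e_pd`, `pdC_sound` with the matrix `eC e` (`eC_spec`; `eN e ≤ 5`; symmetry: `decide +kernel`),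
  `X = img ψ (bt (full (eN e)))` (`bt_full`). -/

namespace MP86a502

section
variable {ι : Type} [Fintype ι] [DecidableEq ι] {n : ℕ} {g : ι → ι → ℝ}

theorem lp_card {t : ℕ} {φ : ℕ → ι} {X : Finset ι} (h : LP g t φ X) : X.card = lN t := by
  have hX : X = (Finset.range (lN t)).image φ := by
    ext z
    rw [h.mem, Finset.mem_image]
    simp only [Finset.mem_range]
  rw [hX, Finset.card_image_of_injOn, Finset.card_range]
  intro a ha b hb hab
  rw [Finset.mem_coe, Finset.mem_range] at ha hb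
  exact h.inj a ha b hb hab

theorem eq_card {e : ℕ} {ψ : ℕ → ι} {X : Finset ι} (h : EQ g e ψ X) : X.card = eN e := by
  have hX : X = (Finset.range (eN e)).image ψ := by
    ext z
    rw [h.mem, Finset.mem_image]
    simp only [Finset.mem_range]
  rw [hX, Finset.card_image_of_injOn, Finset.card_range]
  intro a ha b hb hab
  rw [Finset.mem_coe, Finset.mem_range] at ha hb
  exact h.inj a ha b hb hab

theorem lp_npd (h : Diag g) {t : ℕ} (ht : t < 12) {φ : ℕ → ι} {X : Finset ι}
    (hX : LP g t φ X) : ¬ PD g X := by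
  intro hP
  have hr := lN_rng t ht
  obtain ⟨s, u, hn⟩ := l_npd t ht
  have hcod : ∀ a < lN t, ∀ b < lN t, a ≠ b → ok (cd (lC t) a b) (lab g (φ a) (φ b)) := by
    intro a ha b hb hab
    rw [lC_spec t ht a b (by omega) (by omega), if_pos ⟨ha, hb⟩]
    exact hX.cod a ha b hb hab
  refine npd_sound h (by omega) hcod hX.inj hn (pd_subset hP ?_)
  intro z hz
  rw [mem_img] at hz
  obtain ⟨a, _, hnz, rfl⟩ := hz
  rw [hX.mem]
  refine ⟨a, ?_, rfl⟩
  by_contra hlt
  have hsu : su (lN t) u = true := (bcB_and.1 hn).1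
  have h0 := dg_su hsu (not_lt.1 hlt)
  rw [nz_iff, h0] at hnz
  omega

theorem Smb_eN : ∀ e < 12, eN e ≤ 5 := by decide +kernel

theorem Smb_sym : ∀ e < 12, ∀ a < 16, ∀ b < 16, cd (eC e) a b = cd (eC e) b a := by decide +kernel

theorem Smb_dia : ∀ e < 12, ∀ a < 16, cd (eC e) a a = 2 := by decide +kernel

theorem eq_pd (h : Diag g) {e : ℕ} (he : e < 12) {ψ : ℕ → ι} {X : Finset ι}
    (hX : EQ g e ψ X) : PD g X := by
  have hr := Smb_eN e he
  obtain ⟨Z, par, D, hp⟩ := e_pd e he
  have hcod : ∀ a < eN e, ∀ b < eN e, a ≠ b → ok (cd (eC e) a b) (lab g (ψ a) (ψ b)) := by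
    intro a ha b hb hab
    rw [eC_spec e he a b (by omega) (by omega), if_pos ⟨ha, hb⟩]
    exact hX.cod a ha b hb hab
  have hpd := pdC_sound h (by omega) hcod (Smb_sym e he) (Smb_dia e he) hX.inj
    (fun a _ ha => (bt_full (by omega)).1 ha) hp
  have hXi : X = img ψ (bt (full (eN e))) := by
    ext z
    rw [hX.mem, mem_img]
    constructor
    · rintro ⟨a, ha, rfl⟩
      exact ⟨a, by omega, (bt_full (by omega)).2 ha, rfl⟩
    · rintro ⟨a, _, ha, rfl⟩
      exact ⟨a, (bt_full (by omega)).1 ha, rfl⟩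
  rw [hXi]
  exact hpd

end

end MP86a502
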