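import Pool.Agent.Lib.MP_86a502_gt.U.Npd

set_option autoImplicit false
set_option linter.unusedSectionVars false

/-! # JOB Sur. Soundness of `parC` (80-120 lines)

The vector `κ a = √(sv s a) * dg u a ≥ 0` satisfies `∑_b κ_b g(φ a, φ b) = 0` for the
nodes `a` of the support (`eL = eU` is the exact value
of `-10^6 √(s t) g` by `eL_le`, `eU_ge`; all scales of the support are `≥ 1`, codes `≤ 6` are exact), so
`Q(κ) = 0`, against `Cox.cpt` with `S = img φ (nz u)` (the vector is not zero because `qD ≥ 1`).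
(`vc_row`, `vc_sum`, `vc_apply`.) -/

namespace MP86a502

attribute [local irreducible] eU eL cd dg sv

private theorem Sur_nz0 {u a : ℕ} (h : ¬ nz u a = true) : dg u a = 0 := by
  by_contra h1
  exact h (nz_iff.2 (Nat.one_le_iff_ne_zero.2 h1))

private theorem Sur_qD (s u : ℕ) : qD s u = ∑ a ∈ Finset.range 16,
    (if nz u a = true then sv s a * (dg u a * dg u a) else 0) := by
  unfold qD
  rw [sum16_eq]
  refine Finset.sum_congr rfl fun a _ => ?_
  rw [bcN_eq]
  rfl

/-- what the checker says about the pairs -/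
private theorem Sur_pair {y z : Bool} {k : ℕ} {t : Bool}
    (h : bcB y (bcB z true (bcB (Nat.ble k 6) t false)) true = true) (hy : y = true)
    (hz : z = false) : k ≤ 6 ∧ t = true := by
  subst hy hz
  have h2 : bcB (Nat.ble k 6) t false = true := h
  obtain ⟨h3, h4⟩ := bcB_and.1 h2
  exact ⟨Nat.le_of_ble_eq_true h3, h4⟩

private theorem Sur_beq {a b : ℕ} (h : a ≠ b) : Nat.beq a b = false := by
  cases h1 : Nat.beq a b
  · rfl
  · exact absurd (Nat.eq_of_beq_eq_true h1) h

private theorem Sur_row {c s u : ℕ} (h : all16 (fun a => bcB (nz u a) (bcB (Nat.ble (nat_lit 1) (sv s a))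
      (bcB (all16 (fun b => bcB (nz u b) (bcB (Nat.beq a b) true
          (bcB (Nat.ble (cd c a b) (nat_lit 6))
            (Nat.beq (eL (sv s a) (sv s b) (cd c a b)) (eU (sv s a) (sv s b) (cd c a b))) false))
            true))
        (Nat.beq (Nat.mul (nat_lit 1000000) (Nat.mul (sv s a) (dg u a)))
          (sum16 (fun b => bcN (nz u b)
            (bcN (Nat.beq a b) (nat_lit 0)
              (Nat.mul (dg u b) (eL (sv s a) (sv s b) (cd c a b)))) (nat_lit 0)))) false) false)
              true) = true) {a : ℕ} (ha : a < 16) (hn : nz u a = true) :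
    1 ≤ sv s a ∧ (∀ b < 16, nz u b = true → a ≠ b → cd c a b ≤ 6 ∧
      eL (sv s a) (sv s b) (cd c a b) = eU (sv s a) (sv s b) (cd c a b)) ∧
    1000000 * (sv s a * dg u a) = ∑ b ∈ Finset.range 16, (if nz u b = true then
      (if a = b then 0 else dg u b * eL (sv s a) (sv s b) (cd c a b)) else 0) := by
  have h1 := (all16_iff.1 h) a ha
  have h2 := (bcB_imp.1 h1) hn
  obtain ⟨h3, h4⟩ := bcB_and.1 h2
  obtain ⟨h5, h6⟩ := bcB_and.1 h4
  refine ⟨Nat.le_of_ble_eq_true h3, ?_, ?_⟩
  · intro b hb hnb hab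
    have h7 := (all16_iff.1 h5) b hb
    obtain ⟨h8, h9⟩ := Sur_pair h7 hnb (Sur_beq hab)
    exact ⟨h8, Nat.eq_of_beq_eq_true h9⟩
  · have h7 := Nat.eq_of_beq_eq_true h6
    rw [sum16_eq] at h7
    refine Eq.trans h7 (Finset.sum_congr rfl fun b _ => ?_)
    rw [bcN_eq, bcN_eq]
    by_cases hnb : nz u b = true
    · rw [if_pos hnb, if_pos hnb]
      by_cases hab : a = b
      · rw [if_pos hab, if_pos (by rw [hab]; exact Nat.beq_refl b)]
      · rw [if_neg hab, if_neg (by rw [Sur_beq hab]; exact Bool.false_ne_true)]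
        rfl
    · rw [if_neg hnb, if_neg hnb]

/-- the row is zero, abstractly -/
private theorem Sur_abs {m a : ℕ} (hm : m ≤ 16) (ha : a < m) (p : ℕ → Bool) (d σ : ℕ → ℕ)
    (e : ℕ → ℕ) (G : ℕ → ℝ) (hp : ∀ b, ¬ p b = true → d b = 0) (hpm : ∀ b, p b = true → b < m)
    (hG : G a = 1) (hσ : 1 ≤ σ a)
    (key : ∀ b < m, p b = true → a ≠ b → 1000000 * √((σ a : ℝ) * σ b) * -(G b) = (e b : ℝ))
    (hr : 1000000 * (σ a * d a) = ∑ b ∈ Finset.range 16, (if p b = true then
      (if a = b then 0 else d b * e b) else 0)) :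
    ∑ b ∈ Finset.range m, (√(σ b : ℝ) * d b) * G b = 0 := by
  have hsub : Finset.range m ⊆ Finset.range 16 := Finset.range_subset_range.2 hm
  have h1 : ∑ b ∈ Finset.range 16, (if p b = true then (if a = b then 0 else d b * e b) else 0) =
      ∑ b ∈ Finset.range m, (if p b = true then (if a = b then 0 else d b * e b) else 0) := by
    refine (Finset.sum_subset hsub fun b _ hb => ?_).symm
    rw [if_neg]
    intro h
    exact hb (Finset.mem_range.2 (hpm b h))
  rw [h1] at hr
  have hr' : 1000000 * ((σ a : ℝ) * d a) = ∑ b ∈ Finset.range m, (if p b = true then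
      (if a = b then 0 else (d b : ℝ) * e b) else 0) := by
    have := congrArg (Nat.cast : ℕ → ℝ) hr
    push_cast at this
    exact this
  have hs : (0 : ℝ) < √(σ a : ℝ) := Real.sqrt_pos.2 (by exact_mod_cast hσ)
  have hterm : ∀ b ∈ Finset.range m, 1000000 * √(σ a : ℝ) * ((√(σ b : ℝ) * d b) * G b) =
      (if b = a then 1000000 * ((σ a : ℝ) * d a) else 0) -
        (if p b = true then (if a = b then 0 else (d b : ℝ) * e b) else 0) := by
    intro b hb
    have hb' := Finset.mem_range.1 hb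
    by_cases hab : a = b
    · subst hab
      rw [if_pos rfl, if_pos rfl, hG, ite_self, sub_zero, mul_one]
      have : √(σ a : ℝ) * √(σ a : ℝ) = σ a := Real.mul_self_sqrt (Nat.cast_nonneg _)
      linear_combination (1000000 * (d a : ℝ)) * this
    · rw [if_neg (fun h => hab h.symm), if_neg hab]
      by_cases hpb : p b = true
      · rw [if_pos hpb]
        have h2 := key b hb' hpb hab
        rw [Real.sqrt_mul (Nat.cast_nonneg _)] at h2
        linear_combination (-(d b : ℝ)) * h2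
      · rw [if_neg hpb, hp b hpb]
        simp
  have h3 : 1000000 * √(σ a : ℝ) * ∑ b ∈ Finset.range m, (√(σ b : ℝ) * d b) * G b = 0 := by
    rw [Finset.mul_sum, Finset.sum_congr rfl hterm, Finset.sum_sub_distrib, ← hr',
      Finset.sum_ite_eq' (Finset.range m) a, if_pos (Finset.mem_range.2 ha), sub_self]
  rcases mul_eq_zero.1 h3 with h4 | h4
  · exfalso
    have : (0 : ℝ) < 1000000 * √(σ a : ℝ) := by positivity
    exact absurd h4 this.ne'
  · exact h4

section
variable {ι : Type} [Fintype ι] [DecidableEq ι] {n : ℕ} {g : ι → ι → ℝ}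

theorem par_sound (H : CoxH n g) {φ : ℕ → ι} {m c s u : ℕ} (hm : m ≤ 16)
    (cod : ∀ a < m, ∀ b < m, a ≠ b → ok (cd c a b) (lab g (φ a) (φ b)))
    (inj : ∀ a < m, ∀ b < m, φ a = φ b → a = b) (hp : parC m c s u = true) : False := by
  unfold parC at hp
  obtain ⟨hu, hp⟩ := bcB_and.1 hp
  obtain ⟨hD, hp⟩ := bcB_and.1 hp
  have hD' : 1 ≤ qD s u := Nat.le_of_ble_eq_true hD
  have hnzm : ∀ b, nz u b = true → b < m := by
    intro b hb
    by_contra h
    have h1 := dg_su hu (not_lt.1 h)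
    have h2 := nz_iff.1 hb
    rw [h1] at h2
    exact absurd h2 (by norm_num)
  set κ : ℕ → ℝ := fun a => √(sv s a : ℝ) * (dg u a : ℝ) with hκ
  have hκS : ∀ a < m, κ a ≠ 0 → φ a ∈ img φ (nz u) := by
    intro a ha h
    refine mem_img.2 ⟨a, lt_of_lt_of_le ha hm, ?_, rfl⟩
    by_contra h1
    apply h
    show √(sv s a : ℝ) * (dg u a : ℝ) = 0
    rw [Sur_nz0 h1, Nat.cast_zero, mul_zero]
  have hrow : ∀ i ∈ img φ (nz u), ∑ j ∈ img φ (nz u), vc φ κ m j * g i j = 0 := by
    intro i hi
    obtain ⟨a, ha, hna, rfl⟩ := mem_img.1 hi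
    have ham := hnzm a hna
    obtain ⟨r1, r2, r3⟩ := Sur_row hp ha hna
    rw [vc_row inj κ _ hκS]
    refine Sur_abs hm ham (nz u) (dg u) (sv s) (fun b => eL (sv s a) (sv s b) (cd c a b))
      (fun b => g (φ a) (φ b)) (fun b h => Sur_nz0 h) hnzm (H.toDiag.diag _) r1 ?_ r3
    intro b hb hnb hab
    have hb16 := lt_of_lt_of_le hb hm
    obtain ⟨h6, heq⟩ := r2 b hb16 hnb hab
    obtain ⟨t1, -, -⟩ := Sur_row hp hb16 hnb
    have hne : φ a ≠ φ b := fun h => hab (inj a ham b hb h)
    have hok := cod a ham b hb hab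
    have l1 := eL_le H.toDiag hne (sv_le s a) (sv_le s b) hok
    have l2 := eU_ge H.toDiag hne r1 (sv_le s a) t1 (sv_le s b) hok (by omega)
    rw [← heq] at l2
    exact le_antisymm l2 l1
  have hpos : ∀ i ∈ img φ (nz u), 0 ≤ vc φ κ m i := by
    intro i hi
    obtain ⟨a, ha, hna, rfl⟩ := mem_img.1 hi
    rw [vc_apply inj κ (hnzm a hna)]
    exact mul_nonneg (Real.sqrt_nonneg _) (Nat.cast_nonneg _)
  have hne : ∃ i ∈ img φ (nz u), vc φ κ m i ≠ 0 := by
    rw [Sur_qD] at hD'
    have : ∃ a ∈ Finset.range 16, (if nz u a = true then sv s a * (dg u a * dg u a) else 0) ≠ 0 := by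
      by_contra hcon
      push Not at hcon
      rw [Finset.sum_eq_zero hcon] at hD'
      exact absurd hD' (by norm_num)
    obtain ⟨a, ha, hne⟩ := this
    have hna : nz u a = true := by
      by_contra h
      rw [if_neg h] at hne
      exact hne rfl
    rw [if_pos hna] at hne
    refine ⟨φ a, mem_img.2 ⟨a, Finset.mem_range.1 ha, hna, rfl⟩, ?_⟩
    rw [vc_apply inj κ (hnzm a hna)]
    have h1 : sv s a ≠ 0 := fun h => hne (by rw [h, Nat.zero_mul])
    have h2 : dg u a ≠ 0 := fun h => hne (by rw [h, Nat.mul_zero])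
    have h3 : (0 : ℝ) < (sv s a : ℝ) := by exact_mod_cast Nat.pos_of_ne_zero h1
    exact mul_ne_zero (Real.sqrt_pos.2 h3).ne' (Nat.cast_ne_zero.2 h2)
  have hc := H.cpt (img φ (nz u)) (vc φ κ m) hpos hne (fun i hi => (hrow i hi).le)
  have hz : ∑ i ∈ img φ (nz u), ∑ j ∈ img φ (nz u), vc φ κ m i * vc φ κ m j * g i j = 0 := by
    refine Finset.sum_eq_zero fun i hi => ?_
    have h1 : ∑ j ∈ img φ (nz u), vc φ κ m i * vc φ κ m j * g i j =
        vc φ κ m i * ∑ j ∈ img φ (nz u), vc φ κ m j * g i j := by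
      rw [Finset.mul_sum]
      exact Finset.sum_congr rfl fun j _ => mul_assoc _ _ _
    rw [h1, hrow i hi, mul_zero]
  rw [hz] at hc
  exact lt_irrefl _ hc

end

end MP86a502
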