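import Pool.Agent.Lib.MP_86a502_gt.U.Npd

set_option autoImplicit false
set_option linter.unusedSectionVars false

/-! # JOB Suu. Soundness of `unjC` (30-60 lines)

Two disjoint sets that are not positive definite (`npd_sound`; the supports are disjoint, and `φ` is
injective on the nodes `< m`, `dg_su`), not joined (code `2` is label `2`, `lab_two`): `Cox.joined`. -/

namespace MP86a502

section
variable {ι : Type} [Fintype ι] [DecidableEq ι] {n : ℕ} {g : ι → ι → ℝ}

private theorem Suu_lt {m u a : ℕ} (h : su m u = true) (ha : nz u a = true) : a < m := by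
  by_contra hlt
  have h1 := dg_su h (not_lt.1 hlt)
  have h2 := nz_iff.1 ha
  omega

private theorem Suu_mem {κ : Type} {φ : ℕ → κ} {p : ℕ → Bool} {x : κ} (h : x ∈ img φ p) :
    ∃ a < 16, p a = true ∧ φ a = x := by
  classical
  unfold img at h
  obtain ⟨a, ha, hx⟩ := Finset.mem_image.1 h
  rw [Finset.mem_filter, Finset.mem_range] at ha
  exact ⟨a, ha.1, ha.2, hx⟩

private theorem Suu_unj {c u w : ℕ} (h : unjC c u w = true) {a : ℕ} (ha : a < 16)
    (hu : nz u a = true) : nz w a = false ∧ ∀ b < 16, nz w b = true → cd c a b = 2 := by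
  unfold unjC at h
  have h1 := all16_iff.1 h a ha
  have h2 := bcB_imp.1 h1 hu
  rcases bcB_iff.1 h2 with ⟨_, h3⟩ | ⟨h3, h4⟩
  · exact absurd h3 (by simp)
  · refine ⟨h3, fun b hb hw => ?_⟩
    have h5 := bcB_imp.1 (all16_iff.1 h4 b hb) hw
    exact Nat.eq_of_beq_eq_true h5

theorem unj_sound (H : CoxH n g) {φ : ℕ → ι} {m c s u t w : ℕ} (hm : m ≤ 16)
    (cod : ∀ a < m, ∀ b < m, a ≠ b → ok (cd c a b) (lab g (φ a) (φ b)))
    (inj : ∀ a < m, ∀ b < m, φ a = φ b → a = b) (h1 : npd m c s u = true)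
    (h2 : npd m c t w = true) (h3 : unjC c u w = true) : False := by
  have hD : Diag g := H.toCox.toDiag
  have su1 : su m u = true := by
    unfold npd at h1
    exact (bcB_and.1 h1).1
  have su2 : su m w = true := by
    unfold npd at h2
    exact (bcB_and.1 h2).1
  have n1 := npd_sound hD hm cod inj h1
  have n2 := npd_sound hD hm cod inj h2
  have hdis : Disjoint (img φ (nz u)) (img φ (nz w)) := by
    rw [Finset.disjoint_left]
    intro x hx hx'
    obtain ⟨a, ha, hua, rfl⟩ := Suu_mem hx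
    obtain ⟨b, hb, hwb, hab⟩ := Suu_mem hx'
    have e := inj b (Suu_lt su2 hwb) a (Suu_lt su1 hua) hab
    subst e
    rw [(Suu_unj h3 ha hua).1] at hwb
    exact absurd hwb (by simp)
  obtain ⟨x, hx, y, hy, hxy⟩ := H.toCox.joined _ _ n1 n2 hdis
  obtain ⟨a, ha, hua, rfl⟩ := Suu_mem hx
  obtain ⟨b, hb, hwb, rfl⟩ := Suu_mem hy
  have hc := (Suu_unj h3 ha hua).2 b hb hwb
  have hab : a ≠ b := by
    intro e
    subst e
    rw [(Suu_unj h3 ha hua).1] at hwb
    exact absurd hwb (by simp)
  have ha' := Suu_lt su1 hua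
  have hb' := Suu_lt su2 hwb
  have hφ : φ a ≠ φ b := fun e => hab (inj a ha' b hb' e)
  have hok := cod a ha' b hb' hab
  rw [hc] at hok
  apply hxy
  rw [← lab_two hD hφ]
  rcases hok with ⟨_, h⟩ | ⟨h, _⟩
  · exact h
  · omega

end

end MP86a502
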