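import Pool.Agent.Lib.MP_86a502_gt.U.Sup
import Pool.Agent.Lib.MP_86a502_gt.U.Suu
import Pool.Agent.Lib.MP_86a502_gt.U.Sur

set_option autoImplicit false
set_option linter.unusedSectionVars false

/-! # JOB Sop. The steps of the certificate trees: leaves without conclusion (100-160 lines)

The structure `Sem` is in `Def2.lean`.
* `non_false`: `npd_sound`: the image of the support is not positive definite; but it is contained in
  `(W.erase (φ x)).erase (φ y)`, which is positive definite (`ver`); the support is `< m` (`dg_su`), does not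
  contain `x`, `y`, and `φ` is injective (`x = `, `y < m` by `ver`, `aA`, `aB`; for `q = false` `x = y`).
* `nol_false`: the support is a proper subset of `A` (or `B`): `minA`, `minB`, `nB`.
* `uj_false`: `Cox.joined` for the images of `A`, `B` (`npA`, `npB`, `dis`): code `2` is label `2`.
* `star_false`: `ge3` and `ok` give a label `≥ 3` (`cd ≠ 2, 10`), so the facets are adjacent; `star`. -/

namespace MP86a502

section
variable {ι : Type} [Fintype ι] [DecidableEq ι] {n : ℕ} {g : ι → ι → ℝ} {q : Bool} {W : Finset ι}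
  {A B rm cm m c sat V : ℕ} {φ : ℕ → ι}

theorem Sop_nz {k u a : ℕ} (h : su k u = true) (ha : nz u a = true) : a < k := by
  by_contra hc
  have h1 := dg_su h (not_lt.1 hc)
  have h2 := nz_iff.1 ha
  omega

theorem Sop_su {k d s u : ℕ} (h : npd k d s u = true) : su k u = true := by
  unfold npd at h
  exact (bcB_and.1 h).1

theorem img_sub_W (σ : Sem0 q n g W A B m c sat V φ) {p : ℕ → Bool} (hp : ∀ a, p a = true → a < m) :
    img φ p ⊆ W := by
  intro z hz
  obtain ⟨a, _, ha, rfl⟩ := mem_img.1 hz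
  exact σ.mem a (hp a ha)

theorem ge3_adj (h : Diag g) (σ : Sem0 q n g W A B m c sat V φ) {a b : ℕ} (ha : a < m) (hb : b < m)
    (hg : ge3 c a b = true) : adj g (φ a) (φ b) := by
  have hm := σ.m16
  unfold ge3 at hg
  rcases bcB_iff.1 hg with ⟨_, h2⟩ | ⟨h1, h2⟩
  · exact absurd h2 (by simp)
  · rcases bcB_iff.1 h2 with ⟨_, h3⟩ | ⟨h3, _⟩
    · exact absurd h3 (by simp)
    · have c2 : cd c a b ≠ 2 := Nat.ne_of_beq_eq_false h1
      have c10 : cd c a b ≠ 10 := Nat.ne_of_beq_eq_false h3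
      have hab : a ≠ b := by
        intro hab
        exact c2 (σ.out a (by omega) b (by omega) (Or.inl hab))
      rw [lab_adj h]
      refine ⟨fun he => hab (σ.inj a ha b hb he), ?_⟩
      rcases σ.cod a ha b hb hab with ⟨h5, h6⟩ | ⟨h5, h6, h7⟩
      · omega
      · omega

theorem non_false (H : CoxH n g) (σ : Sem0 q n g W A B m c sat V φ) {x y s u : ℕ}
    (hv : vt V x y = true) (hux : nz u x = false) (huy : nz u y = false)
    (hn : npd m c s u = true) : False := by
  obtain ⟨hpd, hx, hyt, hyf⟩ := σ.ver x y hv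
  have hxm : x < m := σ.aA x hx
  have hym : y < m := by
    cases q with
    | true => exact σ.aB y (hyt rfl)
    | false => rw [← hyf rfl]; exact hxm
  have hsu := Sop_su hn
  refine npd_sound H.toDiag σ.m16 σ.cod σ.inj hn (pd_subset hpd ?_)
  intro z hz
  obtain ⟨a, _, ha, rfl⟩ := mem_img.1 hz
  have ham := Sop_nz hsu ha
  rw [Finset.mem_erase, Finset.mem_erase]
  refine ⟨fun he => ?_, fun he => ?_, σ.mem a ham⟩
  · rw [σ.inj a ham y hym he, huy] at ha
    exact Bool.false_ne_true ha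
  · rw [σ.inj a ham x hxm he, hux] at ha
    exact Bool.false_ne_true ha

/-- the support is a proper subset of `A` -/
theorem Sop_ssub {u D : ℕ} (inj : ∀ a < m, ∀ b < m, φ a = φ b → a = b) (hsu : su m u = true)
    (hD : ∀ a, bt D a = true → a < m) (hs : suA u D = true) :
    img φ (nz u) ⊂ img φ (bt D) := by
  unfold suA at hs
  obtain ⟨h1, h2⟩ := bcB_and.1 hs
  rw [all16_iff] at h1
  obtain ⟨a, ha, h3⟩ := any16_iff.1 h2
  obtain ⟨h4, h5⟩ := bcB_and.1 h3
  have h6 := bcB_not.1 h5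
  rw [Finset.ssubset_iff_subset_ne]
  refine ⟨?_, ?_⟩
  · intro z hz
    obtain ⟨b, hb, hb2, rfl⟩ := mem_img.1 hz
    exact mem_img.2 ⟨b, hb, bcB_imp.1 (h1 b hb) hb2, rfl⟩
  · intro he
    have h7 : φ a ∈ img φ (nz u) := by
      rw [he]
      exact mem_img.2 ⟨a, ha, h4, rfl⟩
    obtain ⟨b, hb, hb2, hb3⟩ := mem_img.1 h7
    have hbm := Sop_nz hsu hb2
    rw [inj b hbm a (hD a h4) hb3, h6] at hb2
    exact Bool.false_ne_true hb2

theorem nol_false (H : CoxH n g) (σ : Sem q n g W A B rm cm m c sat V φ) {s u : ℕ}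
    (hs : bcB (suA u A) true (suA u B) = true) (hn : npd m c s u = true) : False := by
  have hsu := Sop_su hn
  have hnp := npd_sound H.toDiag σ.m16 σ.cod σ.inj hn
  rcases bcB_or.1 hs with h | h
  · exact hnp (σ.minA _ (Sop_ssub σ.inj hsu σ.aA h))
  · cases q with
    | true => exact hnp (σ.minB rfl _ (Sop_ssub σ.inj hsu σ.aB h))
    | false =>
      unfold suA at h
      obtain ⟨a, _, h3⟩ := any16_iff.1 (bcB_and.1 h).2
      have h4 := (bcB_and.1 h3).1
      rw [σ.nB rfl a] at h4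
      exact Bool.false_ne_true h4

theorem uj_false (H : CoxH n g) (σ : Sem0 true n g W A B m c sat V φ) (hu : ujC c A B = true) :
    False := by
  have hm := σ.m16
  have hdis : Disjoint (img φ (bt A)) (img φ (bt B)) := by
    rw [Finset.disjoint_left]
    intro z hz hz'
    obtain ⟨a, _, ha, rfl⟩ := mem_img.1 hz
    obtain ⟨b, _, hb, hb2⟩ := mem_img.1 hz'
    rw [σ.inj b (σ.aB b hb) a (σ.aA a ha) hb2] at hb
    exact σ.dis a ha hb
  obtain ⟨x, hx, y, hy, hxy⟩ := H.joined _ _ σ.npA (σ.npB rfl) hdis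
  obtain ⟨a, ha16, ha, rfl⟩ := mem_img.1 hx
  obtain ⟨b, hb16, hb, rfl⟩ := mem_img.1 hy
  unfold ujC at hu
  have h1 := bcB_imp.1 (all16_iff.1 hu a ha16) ha
  have h2 : cd c a b = 2 := Nat.eq_of_beq_eq_true (bcB_imp.1 (all16_iff.1 h1 b hb16) hb)
  have hab : a ≠ b := by
    rintro rfl
    exact σ.dis a ha hb
  have hne : φ a ≠ φ b := fun he => hab (σ.inj a (σ.aA a ha) b (σ.aB b hb) he)
  have h3 := σ.cod a (σ.aA a ha) b (σ.aB b hb) hab
  rw [h2] at h3
  have h4 : lab g (φ a) (φ b) = 2 := by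
    rcases h3 with ⟨_, h5⟩ | ⟨h5, _⟩
    · exact h5
    · omega
  exact hxy ((lab_two H.toDiag hne).1 h4)

theorem star_false (H : CoxH n g) (σ : Sem true n g W A B rm cm m c sat V φ) {z a b : ℕ}
    (hs : starC m c rm cm z a b = true) : False := by
  unfold starC at hs
  obtain ⟨h1, h2⟩ := bcB_and.1 hs
  obtain ⟨h3, h4⟩ := bcB_and.1 h2
  obtain ⟨h5, h6⟩ := bcB_and.1 h4
  have hz : z < m := Nat.le_of_ble_eq_true h1
  obtain ⟨s1, s2⟩ := σ.star rfl a b h3 h5
  have ham := σ.rmm a h3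
  have hbm := σ.cmm b h5
  rcases bcB_iff.1 h6 with ⟨_, h7⟩ | ⟨_, h7⟩
  · exact (ge3_adj H.toDiag σ.toSem0 ham hbm h7).2 s1
  · rcases bcB_iff.1 h7 with ⟨_, h8⟩ | ⟨_, h8⟩
    · exact (ge3_adj H.toDiag σ.toSem0 ham hbm h8).2 s1
    · obtain ⟨h9, h10⟩ := bcB_and.1 h8
      obtain ⟨h11, h12⟩ := bcB_and.1 h10
      have h13 := bcB_not.1 h12
      rw [bt_lor] at h13
      obtain ⟨d, hd, hd2⟩ := s2 (φ z) (σ.mem z hz) (ge3_adj H.toDiag σ.toSem0 hz ham h9)
        (ge3_adj H.toDiag σ.toSem0 hz hbm h11)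
      have hdm : d < m := by
        rcases hd with hd | hd
        · exact σ.rmm d hd
        · exact σ.cmm d hd
      have hdz := σ.inj d hdm z hz hd2
      rw [hdz] at hd
      rcases hd with hd | hd
      · rw [hd] at h13
        simp at h13
      · rw [hd] at h13
        simp at h13

end

end MP86a502
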