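import Pool.Agent.Lib.MP_86a502_gt.U.Sop
import Pool.Agent.Lib.MP_86a502_gt.U.Lcn

set_option autoImplicit false
set_option linter.unusedSectionVars false

/-! # JOB Spe. The radius argument (130-200 lines)

`rad_pd`: let `S = co2 m x y` (the known nodes without `x`, `y`), whose image is positive definite
(`pdC_sound`). Claim: `(W.erase (φ x)).erase (φ y)` is positive definite. Otherwise it contains a `Z` with
`Lan g Z` (`exists_lan`), `|Z| ≤ 5` (hypothesis `l5`), `Con g Z` (`lan_con`), and by `hit` the set `Z`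
contains all row marks, or (only for `q = true`) all column marks; call this set of marks `d` (`rm` or
`cm`). All marks of `d` are in `S` (`φ x, φ y ∉ Z`, `rmm`/`cmm`, injectivity), so `sub d S = true` (this is
`Nat.land d S = d`: bit by bit, `rmz`/`cmz`, `bt_eq`), and the certificate `radC` says that the layers `d` and `lay ad S d` (for `q = true` also
`lay ad S (lay ad S d)`; then `sub (lay ad S (lay ad S d)) sat`) are contained in `sat`, i.e. all the
neighbours in `W` of the corresponding facets are known. Let `N₀ ⊆ Z` be the marked facets, `N_{i+1}` the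
union of `N_i` and its neighbours in `Z`. By connectedness `|N_{i+1}| ≥ |N_i| + 1` unless `N_i = Z`. As
`|N₀| ≥ 2` (`≥ 3` for `q = false`) and `|Z| ≤ 5`, `N_3 = Z` (`N_2 = Z` for `q = false`). By induction `N_i` is
contained in the image of the layer number `i`, so in the image of `sat`, for `i ≤ 2` (`i ≤ 1`); a
neighbour in `Z` of a facet `φ a` with `a ∈ sat` is `φ b` with `b < m` (`st`), `b ∈ S` (as
`φ b ∈ Z`), and `cd c a b ≠ 2` (the label is not `2`, `ok`), so `b ∈ nbS ad (layer)` (`bt_adjM`). Hence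
`Z ⊆ img φ (bt S)`, which is positive definite: contradiction. -/

namespace MP86a502

private theorem Spe_img_card {ι : Type} {φ : ℕ → ι} {p : ℕ → Bool}
    (h : ∀ a, p a = true → ∀ b, p b = true → φ a = φ b → a = b) :
    (img φ p).card = ((Finset.range 16).filter (fun a => p a = true)).card := by
  classical
  unfold img
  apply Finset.card_image_of_injOn
  intro a ha b hb hab
  rw [Finset.mem_coe, Finset.mem_filter] at ha hb
  exact h a ha.2 b hb.2 hab

section
variable {ι : Type} [DecidableEq ι] {g : ι → ι → ℝ}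

open scoped Classical in
private noncomputable def Spe_ex (g : ι → ι → ℝ) (Z N : Finset ι) : Finset ι :=
  N ∪ Z.filter (fun z => ∃ y ∈ N, adj g y z)

private theorem Spe_ex_sub {Z N : Finset ι} (h : N ⊆ Z) : Spe_ex g Z N ⊆ Z := by
  classical
  unfold Spe_ex
  exact Finset.union_subset h (Finset.filter_subset _ _)

private theorem Spe_ex_sup {Z N : Finset ι} : N ⊆ Spe_ex g Z N := by
  unfold Spe_ex
  exact Finset.subset_union_left

private theorem Spe_ex_card {Z N : Finset ι} (hc : Con g Z) (h : N ⊆ Z) (hne : N.Nonempty) :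
    Z.card ≤ (Spe_ex g Z N).card ∨ N.card + 1 ≤ (Spe_ex g Z N).card := by
  classical
  by_cases he : N = Z
  · left
    have h1 := Finset.card_le_card (Spe_ex_sup (g := g) (Z := Z) (N := N))
    rw [← he]
    rw [← he] at h1
    exact h1
  · right
    obtain ⟨a, ha, b, hb, hbN, hab⟩ := hc N h hne he
    have h1 : insert b N ⊆ Spe_ex g Z N := by
      intro z hz
      rw [Finset.mem_insert] at hz
      unfold Spe_ex
      rw [Finset.mem_union]
      rcases hz with rfl | hz
      · right
        rw [Finset.mem_filter]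
        exact ⟨hb, a, ha, hab⟩
      · left
        exact hz
    have h2 := Finset.card_le_card h1
    rw [Finset.card_insert_of_notMem hbN] at h2
    exact h2

private theorem Spe_lay_iff {ad S D a : ℕ} : bt (lay ad S D) a = true ↔
    bt D a = true ∨ (bt (nbS ad D) a = true ∧ bt S a = true) := by
  unfold lay
  rw [bt_lor, bt_land, Bool.or_eq_true, Bool.and_eq_true]

private theorem Spe_nbS {ad D a b : ℕ} (ha : a < 16) (hD : bt D a = true)
    (hb : bt (row ad a) b = true) : bt (nbS ad D) b = true := by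
  unfold nbS
  rw [bt_or16]
  refine ⟨a, ha, ?_⟩
  show bt (bcN (bt D a) (row ad a) (nat_lit 0)) b = true
  rw [hD]
  exact hb

end

section
variable {ι : Type} [Fintype ι] [DecidableEq ι] {n : ℕ} {g : ι → ι → ℝ} {q : Bool} {W : Finset ι}
  {A B rm cm m c sat V : ℕ} {φ : ℕ → ι}

private theorem Spe_node (σ : Sem0 q n g W A B m c sat V φ) {x y b : ℕ} (hx : x < m) (hy : y < m)
    (hb : b < m) (h : φ b ∈ (W.erase (φ x)).erase (φ y)) : bt (co2 m x y) b = true := by
  rw [bt_co2 σ.m16 hx hy]
  rw [Finset.mem_erase, Finset.mem_erase] at h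
  exact ⟨hb, fun e => h.2.1 (by rw [e]), fun e => h.1 (by rw [e])⟩

private theorem Spe_step (h : Diag g) (σ : Sem0 q n g W A B m c sat V φ) {x y D : ℕ} (hx : x < m)
    (hy : y < m) {Z N : Finset ι} (hZ : Z ⊆ (W.erase (φ x)).erase (φ y))
    (hD : ∀ a, bt D a = true → bt sat a = true)
    (hN : N ⊆ img φ (bt D)) : Spe_ex g Z N ⊆ img φ (bt (lay (adjM c) (co2 m x y) D)) := by
  classical
  intro z hz
  have hm := σ.m16
  unfold Spe_ex at hz
  rw [Finset.mem_union, Finset.mem_filter] at hz
  rcases hz with hz | ⟨hzZ, y', hy', hadj⟩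
  · obtain ⟨a, ha, hb, hc⟩ := mem_img.1 (hN hz)
    exact mem_img.2 ⟨a, ha, Spe_lay_iff.2 (Or.inl hb), hc⟩
  · obtain ⟨a, ha, hb, rfl⟩ := mem_img.1 (hN hy')
    have hs := σ.st a (hD a hb)
    have hz2 := hZ hzZ
    have hzW : z ∈ W := by
      rw [Finset.mem_erase, Finset.mem_erase] at hz2
      exact hz2.2.2
    obtain ⟨b, hbm, rfl⟩ := hs.2 z hzW hadj
    have hbS := Spe_node σ hx hy hbm hz2
    have hab : a ≠ b := fun e => hadj.1 (by rw [e])
    have hcod := σ.cod a hs.1 b hbm hab
    have hl := (lab_adj h).1 hadj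
    have hcd : cd c a b ≠ 2 := by
      intro e
      unfold ok at hcod
      rw [e] at hcod
      rcases hcod with ⟨_, h1⟩ | ⟨h1, _⟩
      · exact hl.2 h1
      · omega
    refine mem_img.2 ⟨b, by omega, Spe_lay_iff.2 (Or.inr ⟨?_, hbS⟩), rfl⟩
    exact Spe_nbS ha hb ((bt_adjM ha (by omega)).2 hcd)

private theorem Spe_main (H : CoxH n g) (σ : Sem0 q n g W A B m c sat V φ) {x y d : ℕ} (hx : x < m)
    (hy : y < m) {Z : Finset ι} (hZ : Z ⊆ (W.erase (φ x)).erase (φ y)) (h5 : Z.card ≤ 5)
    (hcon : Con g Z) (hdm : ∀ a, bt d a = true → a < m) (hdz : ∀ i, d.testBit i = true → 4 ∣ i)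
    (hd2 : 2 ≤ ((Finset.range 16).filter (fun a => bt d a = true)).card)
    (hd3 : q = false → 3 ≤ ((Finset.range 16).filter (fun a => bt d a = true)).card)
    (hdZ : ∀ a, bt d a = true → φ a ∈ Z)
    (hr : radC q (adjM c) (co2 m x y) d sat = true) : Z ⊆ img φ (bt (co2 m x y)) := by
  have hm := σ.m16
  obtain ⟨S, hS⟩ : ∃ S, co2 m x y = S := ⟨_, rfl⟩
  have hdS : ∀ a, bt d a = true → bt S a = true := by
    intro a ha
    rw [← hS]
    exact Spe_node σ hx hy (hdm a ha) (hZ (hdZ a ha))
  have hsub : sub d S = true := by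
    unfold sub
    rw [Nat.beq_eq]
    apply Nat.eq_of_testBit_eq
    intro i
    have e : (Nat.land d S).testBit i = (d.testBit i && S.testBit i) := Nat.testBit_and d S i
    rw [e]
    by_cases hi : d.testBit i = true
    · obtain ⟨a, rfl⟩ := hdz i hi
      have h1 := hdS a (by rw [bt_eq]; exact hi)
      rw [bt_eq] at h1
      rw [h1, hi]
      rfl
    · rw [Bool.not_eq_true] at hi
      rw [hi]
      rfl
  rw [hS] at hr
  unfold radC at hr
  rw [bcB_imp] at hr
  have hr2 := hr hsub
  have hlaySub : ∀ D, (∀ a, bt D a = true → bt S a = true) →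
      ∀ a, bt (lay (adjM c) S D) a = true → bt S a = true := by
    intro D hD a ha
    rw [Spe_lay_iff] at ha
    rcases ha with ha | ha
    · exact hD a ha
    · exact ha.2
  have hN0Z : img φ (bt d) ⊆ Z := by
    intro z hz
    obtain ⟨a, _, ha, rfl⟩ := mem_img.1 hz
    exact hdZ a ha
  have hN0c : (img φ (bt d)).card = ((Finset.range 16).filter (fun a => bt d a = true)).card := by
    exact Spe_img_card fun a ha b hb => σ.inj a (hdm a ha) b (hdm b hb)
  have hN0ne : (img φ (bt d)).Nonempty := by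
    rw [← Finset.card_pos, hN0c]
    omega
  have hN1Z := Spe_ex_sub (g := g) hN0Z
  have hN1ne := hN0ne.mono (Spe_ex_sup (g := g) (Z := Z))
  have hN2Z := Spe_ex_sub (g := g) hN1Z
  have hN2ne := hN1ne.mono (Spe_ex_sup (g := g) (Z := Z))
  have hN3Z := Spe_ex_sub (g := g) hN2Z
  have c1 := Spe_ex_card hcon hN0Z hN0ne
  have c2 := Spe_ex_card hcon hN1Z hN1ne
  have c3 := Spe_ex_card hcon hN2Z hN2ne
  rw [hN0c] at c1
  have up1 : ∀ a, bt d a = true → bt (lay (adjM c) S d) a = true := fun a ha => Spe_lay_iff.2 (Or.inl ha)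
  rw [hS]
  cases q with
  | true =>
    have hr3 : sub (lay (adjM c) S (lay (adjM c) S d)) sat = true := hr2
    have s2 : ∀ a, bt (lay (adjM c) S (lay (adjM c) S d)) a = true → bt sat a = true :=
      fun a ha => sub_bt hr3 ha
    have s1 : ∀ a, bt (lay (adjM c) S d) a = true → bt sat a = true :=
      fun a ha => s2 a (Spe_lay_iff.2 (Or.inl ha))
    have s0 : ∀ a, bt d a = true → bt sat a = true := fun a ha => s1 a (up1 a ha)
    have t1 := Spe_step H.toDiag σ hx hy hZ s0 (Finset.Subset.refl (img φ (bt d)))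
    rw [hS] at t1
    have t2 := Spe_step H.toDiag σ hx hy hZ s1 t1
    rw [hS] at t2
    have t3 := Spe_step H.toDiag σ hx hy hZ s2 t2
    rw [hS] at t3
    have hcard : Z.card ≤ (Spe_ex g Z (Spe_ex g Z (Spe_ex g Z (img φ (bt d))))).card := by
      rcases c1 with c1 | c1
      · exact le_trans c1 (le_trans (Finset.card_le_card Spe_ex_sup) (Finset.card_le_card Spe_ex_sup))
      · rcases c2 with c2 | c2
        · exact le_trans c2 (Finset.card_le_card Spe_ex_sup)
        · rcases c3 with c3 | c3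
          · exact c3
          · omega
    have heq := Finset.eq_of_subset_of_card_le hN3Z hcard
    intro z hz
    rw [← heq] at hz
    obtain ⟨a, ha, hb, rfl⟩ := mem_img.1 (t3 hz)
    exact mem_img.2 ⟨a, ha, hlaySub _ (hlaySub _ (hlaySub _ hdS)) a hb, rfl⟩
  | false =>
    have hr3 : sub (lay (adjM c) S d) sat = true := hr2
    have s1 : ∀ a, bt (lay (adjM c) S d) a = true → bt sat a = true :=
      fun a ha => sub_bt hr3 ha
    have s0 : ∀ a, bt d a = true → bt sat a = true := fun a ha => s1 a (up1 a ha)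
    have t1 := Spe_step H.toDiag σ hx hy hZ s0 (Finset.Subset.refl (img φ (bt d)))
    rw [hS] at t1
    have t2 := Spe_step H.toDiag σ hx hy hZ s1 t1
    rw [hS] at t2
    have h3 := hd3 rfl
    have hcard : Z.card ≤ (Spe_ex g Z (Spe_ex g Z (img φ (bt d)))).card := by
      rcases c1 with c1 | c1
      · exact le_trans c1 (Finset.card_le_card Spe_ex_sup)
      · rcases c2 with c2 | c2
        · exact c2
        · omega
    have heq := Finset.eq_of_subset_of_card_le hN2Z hcard
    intro z hz
    rw [← heq] at hz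
    obtain ⟨a, ha, hb, rfl⟩ := mem_img.1 (t2 hz)
    exact mem_img.2 ⟨a, ha, hlaySub _ (hlaySub _ hdS) a hb, rfl⟩

theorem rad_pd (H : CoxH n g) (l5 : ∀ X, Lan g X → X.card ≤ 5)
    (σ : Sem q n g W A B rm cm m c sat V φ) {x y : ℕ} (hx : x < m) (hy : y < m)
    (hp : PD g (img φ (bt (co2 m x y)))) (hr : radC q (adjM c) (co2 m x y) rm sat = true)
    (hc : q = true → radC q (adjM c) (co2 m x y) cm sat = true) :
    PD g ((W.erase (φ x)).erase (φ y)) := by
  by_contra hcon
  obtain ⟨Z, hZ, hL⟩ := exists_lan hcon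
  have hZW : Z ⊆ W := fun z hz => by
    have := hZ hz
    rw [Finset.mem_erase, Finset.mem_erase] at this
    exact this.2.2
  have hZ5 := l5 Z hL
  have hZc := lan_con H.toDiag hL
  apply hL.1
  rcases σ.hit Z hZW hL.1 with h1 | ⟨hq, h1⟩
  · exact pd_subset hp (Spe_main H σ.toSem0 hx hy hZ hZ5 hZc σ.rmm σ.rmz σ.rm2 σ.rm3 h1 hr)
  · exact pd_subset hp (Spe_main H σ.toSem0 hx hy hZ hZ5 hZc σ.cmm σ.cmz (σ.cm2 hq)
      (fun h => by rw [hq] at h; exact absurd h (by decide)) h1 (hc hq))

end

end MP86a502
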