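import Pool.Agent.Lib.MP_86a502_gt.U.Npd

set_option autoImplicit false
set_option linter.unusedSectionVars false

/-! # JOB Sup. Soundness of `supC` (80-120 lines)

For the vectors `x = vc φ (dg u ·) m`, `y = vc φ (dg w ·) m` (all scales are one: `q_le`
with `s = 0x55555555`, `sv_one`): `10^6 Q(x) ≤ -vQ c u < 0` (the truncated difference is positive
because `mixU² + 1 ≤ vQ c u * vQ c w`), similarly `y`, and `-mixU ≤ 10^6 B(x, y) ≤ 0` by `eU_ge` with
`s = t = 1` (the supports are disjoint and the codes between them are not `8`, `sepC`). So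
`Q(x) Q(y) > B(x, y)²`, against `CoxH.rcs` (sums over all facets: `vc_sum` with `S = univ`). -/

namespace MP86a502

attribute [local irreducible] eU eL cd dg sv

private theorem Sup_ff {c t : Bool} : bcB c false t = true ↔ c = false ∧ t = true := by
  cases c <;> simp [bcB]

private theorem Sup_sep {c u w : ℕ} (h : sepC c u w = true) {a b : ℕ} (ha : a < 16) (hb : b < 16)
    (hua : nz u a = true) (hwb : nz w b = true) : a ≠ b ∧ cd c a b ≠ 8 := by
  unfold sepC at h
  have h1 := (all16_iff.1 h) a ha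
  have h2 := (bcB_imp.1 h1) hua
  obtain ⟨h3, h4⟩ := Sup_ff.1 h2
  have h5 := (all16_iff.1 h4) b hb
  have h6 := (bcB_imp.1 h5) hwb
  obtain ⟨h7, -⟩ := Sup_ff.1 h6
  refine ⟨?_, ?_⟩
  · rintro rfl
    rw [h3] at hwb
    exact Bool.noConfusion hwb
  · intro h8
    have h9 : Nat.beq (cd c a b) 8 = true := by
      rw [h8]; rfl
    have h10 : Nat.beq (cd c a b) 8 = false := h7
    rw [h9] at h10
    exact Bool.noConfusion h10

private theorem Sup_nz0 {u a : ℕ} (h : ¬ nz u a = true) : dg u a = 0 := by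
  by_contra h1
  exact h (nz_iff.2 (Nat.one_le_iff_ne_zero.2 h1))

private theorem Sup_mixU (c u w : ℕ) : mixU c u w = ∑ a ∈ Finset.range 16,
    (if nz u a = true then dg u a * ∑ b ∈ Finset.range 16,
      (if nz w b = true then dg w b * eU 1 1 (cd c a b) else 0) else 0) := by
  unfold mixU
  rw [sum16_eq]
  refine Finset.sum_congr rfl fun a _ => ?_
  rw [bcN_eq]
  split_ifs with ha
  · show dg u a * sum16 _ = _
    rw [sum16_eq]
    congr 1
    refine Finset.sum_congr rfl fun b _ => ?_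
    rw [bcN_eq]
    rfl
  · rfl

/-- the double sum, abstractly -/
private theorem Sup_abs {m : ℕ} (hm : m ≤ 16) (p q : ℕ → Bool) (f h : ℕ → ℕ) (e : ℕ → ℕ → ℕ)
    (G : ℕ → ℕ → ℝ) (hf : ∀ a, ¬ p a = true → f a = 0) (hh : ∀ b, ¬ q b = true → h b = 0)
    (key : ∀ a < m, ∀ b < m, p a = true → q b = true → 0 ≤ -(G a b) ∧
      1000000 * -(G a b) ≤ (e a b : ℝ)) :
    0 ≤ -(∑ a ∈ Finset.range m, ∑ b ∈ Finset.range m, (f a : ℝ) * h b * G a b) ∧
    1000000 * -(∑ a ∈ Finset.range m, ∑ b ∈ Finset.range m, (f a : ℝ) * h b * G a b) ≤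
      ((∑ a ∈ Finset.range 16, (if p a = true then f a * ∑ b ∈ Finset.range 16,
        (if q b = true then h b * e a b else 0) else 0) : ℕ) : ℝ) := by
  constructor
  · rw [← Finset.sum_neg_distrib]
    refine Finset.sum_nonneg fun a ha => ?_
    rw [← Finset.sum_neg_distrib]
    refine Finset.sum_nonneg fun b hb => ?_
    have ha' := Finset.mem_range.1 ha
    have hb' := Finset.mem_range.1 hb
    by_cases h1 : p a = true
    · by_cases h2 : q b = true
      · have := (key a ha' b hb' h1 h2).1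
        rw [← mul_neg]
        exact mul_nonneg (mul_nonneg (Nat.cast_nonneg _) (Nat.cast_nonneg _)) this
      · rw [hh b h2, Nat.cast_zero, mul_zero, zero_mul, neg_zero]
    · rw [hf a h1, Nat.cast_zero, zero_mul, zero_mul, neg_zero]
  · have e1 : 1000000 * -(∑ a ∈ Finset.range m, ∑ b ∈ Finset.range m,
      (f a : ℝ) * h b * G a b) = ∑ a ∈ Finset.range m, (f a : ℝ) *
        ∑ b ∈ Finset.range m, (h b : ℝ) * (1000000 * -(G a b)) := by
      rw [← Finset.sum_neg_distrib, Finset.mul_sum]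
      refine Finset.sum_congr rfl fun a _ => ?_
      rw [← Finset.sum_neg_distrib, Finset.mul_sum, Finset.mul_sum]
      refine Finset.sum_congr rfl fun b _ => ?_
      ring
    rw [e1]
    push_cast
    have hsub : Finset.range m ⊆ Finset.range 16 := Finset.range_subset_range.2 hm
    refine le_trans ?_ (Finset.sum_le_sum_of_subset_of_nonneg hsub fun a _ _ => ?_)
    · refine Finset.sum_le_sum fun a ha => ?_
      have ha' := Finset.mem_range.1 ha
      split_ifs with h1
      · refine mul_le_mul_of_nonneg_left ?_ (Nat.cast_nonneg _)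
        refine le_trans ?_ (Finset.sum_le_sum_of_subset_of_nonneg hsub fun b _ _ => ?_)
        · refine Finset.sum_le_sum fun b hb => ?_
          have hb' := Finset.mem_range.1 hb
          split_ifs with h2
          · exact mul_le_mul_of_nonneg_left (key a ha' b hb' h1 h2).2 (Nat.cast_nonneg _)
          · rw [hh b h2, Nat.cast_zero, zero_mul]
        · split_ifs
          · exact mul_nonneg (Nat.cast_nonneg _) (Nat.cast_nonneg _)
          · exact le_rfl
      · rw [hf a h1, Nat.cast_zero, zero_mul]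
    · split_ifs
      · refine mul_nonneg (Nat.cast_nonneg _) (Finset.sum_nonneg fun b _ => ?_)
        split_ifs
        · exact mul_nonneg (Nat.cast_nonneg _) (Nat.cast_nonneg _)
        · exact le_rfl
      · exact le_rfl

section
variable {ι : Type} [Fintype ι] [DecidableEq ι] {n : ℕ} {g : ι → ι → ℝ}

private theorem Sup_q (H : CoxH n g) {φ : ℕ → ι} {m c u : ℕ} (hm : m ≤ 16)
    (cod : ∀ a < m, ∀ b < m, a ≠ b → ok (cd c a b) (lab g (φ a) (φ b)))
    (inj : ∀ a < m, ∀ b < m, φ a = φ b → a = b) (hu : su m u = true) (hv : 1 ≤ vQ c u) :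
    1000000 * ∑ i, ∑ j, vc φ (fun a => (dg u a : ℝ)) m i * vc φ (fun a => (dg u a : ℝ)) m j * g i j
      ≤ -(vQ c u : ℝ) := by
  have h1 := q_le H.toDiag hm cod inj (s := 0x55555555) hu
  have h2 : ∑ i, ∑ j, vc φ (fun a => (dg u a : ℝ)) m i * vc φ (fun a => (dg u a : ℝ)) m j * g i j =
      ∑ a ∈ Finset.range m, ∑ b ∈ Finset.range m, (√(sv 0x55555555 a : ℝ) * dg u a) *
        (√(sv 0x55555555 b : ℝ) * dg u b) * g (φ a) (φ b) := by
    rw [vc_sum inj _ _ Finset.univ (fun _ _ _ => Finset.mem_univ _) (fun _ _ _ => Finset.mem_univ _)]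
    refine Finset.sum_congr rfl fun a ha => Finset.sum_congr rfl fun b hb => ?_
    have ha' := lt_of_lt_of_le (Finset.mem_range.1 ha) hm
    have hb' := lt_of_lt_of_le (Finset.mem_range.1 hb) hm
    have e1 : sv 0x55555555 a = 1 := sv_one ha'
    have e2 : sv 0x55555555 b = 1 := sv_one hb'
    rw [e1, e2, Nat.cast_one, Real.sqrt_one, one_mul, one_mul]
  rw [h2]
  refine h1.trans ?_
  have h3 : vQ c u = 2 * qO c 0x55555555 u - 1000000 * qD 0x55555555 u := rfl
  generalize vQ c u = V at *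
  generalize qO c 0x55555555 u = O at *
  generalize qD 0x55555555 u = D at *
  have h4 : V + 1000000 * D = 2 * O := by omega
  have h5 : (V : ℝ) + 1000000 * D = 2 * O := by exact_mod_cast h4
  linarith

private theorem Sup_fin {V W M : ℕ} {Q1 Q2 B : ℝ} (hle : M * M + 1 ≤ V * W)
    (q1 : 1000000 * Q1 ≤ -(V : ℝ)) (q2 : 1000000 * Q2 ≤ -(W : ℝ)) (lo : 0 ≤ -B)
    (up : 1000000 * -B ≤ (M : ℝ)) (r : Q1 * Q2 ≤ B ^ 2) : False := by
  have hle' : (M : ℝ) * M + 1 ≤ (V : ℝ) * W := by exact_mod_cast hle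
  have hW : (0 : ℝ) ≤ W := Nat.cast_nonneg _
  have hV : (0 : ℝ) ≤ V := Nat.cast_nonneg _
  have h1 : (V : ℝ) * W ≤ (-(1000000 * Q1)) * (-(1000000 * Q2)) :=
    mul_le_mul (by linarith) (by linarith) (by linarith) (by linarith)
  have h2 : (1000000 * -B) * (1000000 * -B) ≤ (M : ℝ) * M :=
    mul_le_mul up up (by linarith) (Nat.cast_nonneg _)
  nlinarith

theorem sup_sound (H : CoxH n g) {φ : ℕ → ι} {m c u w : ℕ} (hm : m ≤ 16)
    (cod : ∀ a < m, ∀ b < m, a ≠ b → ok (cd c a b) (lab g (φ a) (φ b)))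
    (inj : ∀ a < m, ∀ b < m, φ a = φ b → a = b) (hs : supC m c u w = true) : False := by
  unfold supC at hs
  obtain ⟨hu, hs⟩ := bcB_and.1 hs
  obtain ⟨hw, hs⟩ := bcB_and.1 hs
  obtain ⟨hsep, hs⟩ := bcB_and.1 hs
  have hle : mixU c u w * mixU c u w + 1 ≤ vQ c u * vQ c w := Nat.le_of_ble_eq_true hs
  have hvu : 1 ≤ vQ c u := by
    rcases Nat.eq_zero_or_pos (vQ c u) with h | h
    · rw [h, Nat.zero_mul] at hle
      exact absurd hle (Nat.not_succ_le_zero _)
    · exact h
  have hvw : 1 ≤ vQ c w := by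
    rcases Nat.eq_zero_or_pos (vQ c w) with h | h
    · rw [h, Nat.mul_zero] at hle
      exact absurd hle (Nat.not_succ_le_zero _)
    · exact h
  have q1 := Sup_q H hm cod inj hu hvu
  have q2 := Sup_q H hm cod inj hw hvw
  have hB := vc_sum (g := g) inj (fun a => (dg u a : ℝ)) (fun a => (dg w a : ℝ)) Finset.univ
    (fun _ _ _ => Finset.mem_univ _) (fun _ _ _ => Finset.mem_univ _)
  have key := Sup_abs hm (nz u) (nz w) (dg u) (dg w) (fun a b => eU 1 1 (cd c a b))
    (fun a b => g (φ a) (φ b)) (fun a h => Sup_nz0 h) (fun a h => Sup_nz0 h) (by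
      intro a ha b hb h1 h2
      obtain ⟨hab, h8⟩ := Sup_sep hsep (lt_of_lt_of_le ha hm) (lt_of_lt_of_le hb hm) h1 h2
      have hne : φ a ≠ φ b := fun h => hab (inj a ha b hb h)
      refine ⟨?_, ?_⟩
      · have := H.toDiag.nonpos hne
        exact neg_nonneg.2 this
      · have h3 := eU_ge H.toDiag hne (s := 1) (t := 1) le_rfl (by norm_num) le_rfl (by norm_num)
          (cod a ha b hb hab) h8
        rw [Nat.cast_one, mul_one, Real.sqrt_one, mul_one] at h3
        exact h3)
  rw [← Sup_mixU] at key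
  rw [← hB] at key
  have hvu' : (1 : ℝ) ≤ vQ c u := by exact_mod_cast hvu
  have r := H.rcs (vc φ (fun a => (dg u a : ℝ)) m) (vc φ (fun a => (dg w a : ℝ)) m) (by linarith)
  exact Sup_fin hle q1 q2 key.1 key.2 r

end

end MP86a502
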