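import Pool.Agent.Lib.MP_86a502_gt.U.Def2
import Pool.Agent.Lib.MP_86a502_gt.U.Blb

set_option autoImplicit false
set_option linter.unusedSectionVars false

/-! # JOB Vec. Vectors given on the nodes (60-120 lines)

`vc φ κ m` is the vector `i ↦ ∑_{a < m, φ a = i} κ a`. As `φ` is injective on the numbers `< m`, sums
over the facets become sums over the nodes. -/

namespace MP86a502

variable {ι : Type}

open scoped Classical in
/-- the vector with the coefficient `κ a` at `φ a` -/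
noncomputable def vc (φ : ℕ → ι) (κ : ℕ → ℝ) (m : ℕ) (i : ι) : ℝ :=
  ∑ a ∈ Finset.range m, if φ a = i then κ a else 0

theorem mem_img {φ : ℕ → ι} {p : ℕ → Bool} {z : ι} : z ∈ img φ p ↔ ∃ a < 16, p a = true ∧ φ a = z := by
  unfold img
  simp only [Finset.mem_image, Finset.mem_filter, Finset.mem_range]
  constructor
  · rintro ⟨a, ⟨h1, h2⟩, h3⟩
    exact ⟨a, h1, h2, h3⟩
  · rintro ⟨a, h1, h2, h3⟩
    exact ⟨a, ⟨h1, h2⟩, h3⟩

theorem vc_apply {φ : ℕ → ι} {m : ℕ} (inj : ∀ a < m, ∀ b < m, φ a = φ b → a = b) (κ : ℕ → ℝ)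
    {a : ℕ} (ha : a < m) : vc φ κ m (φ a) = κ a := by
  classical
  unfold vc
  rw [Finset.sum_eq_single a]
  · rw [if_pos rfl]
  · intro b hb hba
    rw [if_neg]
    intro h
    exact hba (inj b (Finset.mem_range.1 hb) a ha h)
  · intro h
    exact absurd (Finset.mem_range.2 ha) h

theorem vc_out {φ : ℕ → ι} {m : ℕ} (κ : ℕ → ℝ) {i : ι} (hi : ∀ a < m, φ a ≠ i) :
    vc φ κ m i = 0 := by
  classical
  unfold vc
  refine Finset.sum_eq_zero fun a ha => ?_
  rw [if_neg (hi a (Finset.mem_range.1 ha))]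

theorem Vec_lin {φ : ℕ → ι} {m : ℕ} (κ : ℕ → ℝ) (S : Finset ι)
    (hS : ∀ a < m, κ a ≠ 0 → φ a ∈ S) (F : ι → ℝ) :
    ∑ i ∈ S, vc φ κ m i * F i = ∑ a ∈ Finset.range m, κ a * F (φ a) := by
  classical
  unfold vc
  simp only [Finset.sum_mul]
  rw [Finset.sum_comm]
  refine Finset.sum_congr rfl fun a ha => ?_
  by_cases hk : κ a = 0
  · rw [hk]
    simp
  · have h1 := hS a (Finset.mem_range.1 ha) hk
    rw [Finset.sum_eq_single (φ a)]
    · rw [if_pos rfl]
    · intro i _ hi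
      rw [if_neg (fun h => hi h.symm), zero_mul]
    · intro h
      exact absurd h1 h

/-- the quadratic form, over any set that contains the support -/
theorem vc_sum {g : ι → ι → ℝ} {φ : ℕ → ι} {m : ℕ}
    (inj : ∀ a < m, ∀ b < m, φ a = φ b → a = b) (κ μ : ℕ → ℝ) (S : Finset ι)
    (hS : ∀ a < m, κ a ≠ 0 → φ a ∈ S) (hS' : ∀ a < m, μ a ≠ 0 → φ a ∈ S) :
    ∑ i ∈ S, ∑ j ∈ S, vc φ κ m i * vc φ μ m j * g i j =
      ∑ a ∈ Finset.range m, ∑ b ∈ Finset.range m, κ a * μ b * g (φ a) (φ b) := by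
  have h1 : ∀ i ∈ S, ∑ j ∈ S, vc φ κ m i * vc φ μ m j * g i j =
      vc φ κ m i * ∑ b ∈ Finset.range m, μ b * g i (φ b) := by
    intro i _
    rw [← Vec_lin μ S hS' (fun j => g i j), Finset.mul_sum]
    exact Finset.sum_congr rfl fun j _ => by ring
  rw [Finset.sum_congr rfl h1, Vec_lin κ S hS (fun i => ∑ b ∈ Finset.range m, μ b * g i (φ b))]
  refine Finset.sum_congr rfl fun a _ => ?_
  rw [Finset.mul_sum]
  exact Finset.sum_congr rfl fun b _ => by ring

/-- a row of the Gram matrix -/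
theorem vc_row {g : ι → ι → ℝ} {φ : ℕ → ι} {m : ℕ}
    (inj : ∀ a < m, ∀ b < m, φ a = φ b → a = b) (κ : ℕ → ℝ) (S : Finset ι)
    (hS : ∀ a < m, κ a ≠ 0 → φ a ∈ S) (i : ι) :
    ∑ j ∈ S, vc φ κ m j * g i j = ∑ b ∈ Finset.range m, κ b * g i (φ b) :=
  Vec_lin κ S hS (fun j => g i j)

/-- symmetric double sums: diagonal and twice the part below the diagonal -/
theorem sum_sym {m : ℕ} (F : ℕ → ℕ → ℝ) (hF : ∀ a b, F a b = F b a) :
    ∑ a ∈ Finset.range m, ∑ b ∈ Finset.range m, F a b =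
      ∑ a ∈ Finset.range m, F a a + 2 * ∑ a ∈ Finset.range m, ∑ b ∈ Finset.range a, F a b := by
  induction m with
  | zero => simp
  | succ m ih =>
    rw [Finset.sum_range_succ, Finset.sum_range_succ (fun a => F a a),
      Finset.sum_range_succ (fun a => ∑ b ∈ Finset.range a, F a b)]
    have h1 : ∑ a ∈ Finset.range m, ∑ b ∈ Finset.range (m + 1), F a b =
        ∑ a ∈ Finset.range m, ∑ b ∈ Finset.range m, F a b + ∑ a ∈ Finset.range m, F a m := by
      rw [← Finset.sum_add_distrib]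
      exact Finset.sum_congr rfl fun a _ => Finset.sum_range_succ _ _
    have h2 : ∑ a ∈ Finset.range m, F a m = ∑ b ∈ Finset.range m, F m b :=
      Finset.sum_congr rfl fun a _ => hF a m
    rw [h1, ih, h2, Finset.sum_range_succ]
    ring

end MP86a502
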